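import Pool.Agent.Strip051.G.I1_32_3_64.Gn

/-! # Certificates of the corner (1, 1, 2) (generated) -/

set_option linter.all false

namespace Pool.Agent.Strip051.G.I1_32_3_64.Tab.DF

open Pool.Agent.Strip051.PB

def A113_000p :
    ∃ t, chk3 (onCell 0 184626 0 1073741824 33554432 16777216 (fA12 0 true 0 c0F .nn true true true gF0q1 gF0q1 gF0q3 gF1q3 7061502 184626)) t 1 1 1 = true :=
  ⟨(T.l 0), by decide +kernel⟩

def A113_000m :
    ∃ t, chk3 (onCell 0 184626 0 1073741824 33554432 16777216 (fA12 0 true 0 c0F .nn false true true gF0q1 gF0q1 gF0q3 gF1q3 7061502 184626)) t 1 1 1 = true :=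
  ⟨(T.l 0), by decide +kernel⟩

def A113_001p :
    ∃ t, chk3 (onCell 0 184626 0 1073741824 33554432 16777216 (fA12 0 true 0 c0F .nn true true true gF0q1 gF0q1 gF1q3 gF2q3 7061502 184626)) t 1 1 1 = true :=
  ⟨(T.b (T.l 0) (T.l 1)), by decide +kernel⟩

def A113_001m :
    ∃ t, chk3 (onCell 0 184626 0 1073741824 33554432 16777216 (fA12 0 true 0 c0F .nn false true true gF0q1 gF0q1 gF1q3 gF2q3 7061502 184626)) t 1 1 1 = true :=
  ⟨(T.b (T.l 1) (T.l 0)), by decide +kernel⟩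

def A123_013p :
    ∃ t, chk3 (onCell 0 24386923 0 805306368 33554432 16777216 (fA12 4 true 0 c0F .npn true false false gF0q1 gF1q2 gF3q3 gF4q3 7061502 184626)) t 1 1 1 = true :=
  ⟨(T.b (T.b (T.l 1) (T.a (T.l 272) (T.b (T.l 272) (T.l 0)))) (T.b (T.a (T.l 272) (T.l 0)) (T.l 2))), by decide +kernel⟩

def A123_023p :
    ∃ t, chk3 (onCell 0 24386923 0 805306368 33554432 16777216 (fA12 4 true 0 c0F .npn true false false gF0q1 gF2q2 gF3q3 gF4q3 7061502 184626)) t 1 1 1 = true :=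
  ⟨(T.b (T.b (T.l 1) (T.b (T.l 1) (T.b (T.l 1) (T.a (T.a (T.l 272) (T.l 272)) (T.l 0))))) (T.b (T.a (T.a (T.l 272) (T.l 0)) (T.l 0)) (T.a (T.a (T.a (T.l 272) (T.l 272)) (T.l 0)) (T.l 0)))), by decide +kernel⟩

def B113_010p :
    ∃ t, chk3 (onCell 0 184626 0 1073741824 33554432 16777216 (fB12 0 true 0 c0F .nn true true true false gF0q1 gF1q3 gF0q1 gF1q1 7061502 184626)) t 1 1 1 = true :=
  ⟨(T.b (T.b (T.l 272) (T.b (T.l 272) (T.l 1))) (T.l 1)), by decide +kernel⟩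

def X113_011p :
    ∃ t, chk3 (onCell 0 184626 0 1073741824 33554432 16777216 (xB12 0 .nn true true gF0q1 gF1q3 gF1q1 7061502 184626)) t 1 1 1 = true :=
  ⟨(T.l 0), by decide +kernel⟩

def B123_010p :
    ∃ t, chk3 (onCell 0 7061502 0 1073741824 33554432 16777216 (fB12 0 true 0 c0F .npn true true true true gF0q1 gF1q3 gF0q2 gF1q2 7061502 184626)) t 1 1 1 = true :=
  ⟨(T.l 2), by decide +kernel⟩

def B123_011p :
    ∃ t, chk3 (onCell 0 7061502 0 1073741824 33554432 16777216 (fB12 0 true 0 c0F .npn true true true true gF0q1 gF1q3 gF1q2 gF2q2 7061502 184626)) t 1 1 1 = true :=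
  ⟨(T.l 2), by decide +kernel⟩

def B123_012p :
    ∃ t, chk3 (onCell 0 7061502 0 1073741824 33554432 16777216 (fB12 0 true 0 c0F .npn true true true false gF0q1 gF1q3 gF2q2 gF3q2 7061502 184626)) t 1 1 1 = true :=
  ⟨(T.b (T.l 272) (T.a (T.l 272) (T.l 0))), by decide +kernel⟩

def X123_013p :
    ∃ t, chk3 (onCell 0 7061502 0 1073741824 33554432 16777216 (xB12 0 .npn true true gF0q1 gF1q3 gF3q2 7061502 184626)) t 1 1 1 = true :=
  ⟨(T.l 0), by decide +kernel⟩

def B113_010m :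
    ∃ t, chk3 (onCell 0 184626 0 1073741824 33554432 16777216 (fB12 0 true 0 c0F .nn false true true false gF0q1 gF1q3 gF0q1 gF1q1 7061502 184626)) t 1 1 1 = true :=
  ⟨(T.b (T.l 68) (T.b (T.l 68) (T.b (T.l 68) (T.l 1)))), by decide +kernel⟩

def X113_011m :
    ∃ t, chk3 (onCell 0 184626 0 1073741824 33554432 16777216 (xB12 0 .nn false true gF0q1 gF1q3 gF1q1 7061502 184626)) t 1 1 1 = true :=
  ⟨(T.l 0), by decide +kernel⟩

def B123_010m :
    ∃ t, chk3 (onCell 0 7061502 0 1073741824 33554432 16777216 (fB12 0 true 0 c0F .npn false true true true gF0q1 gF1q3 gF0q2 gF1q2 7061502 184626)) t 1 1 1 = true :=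
  ⟨(T.l 2), by decide +kernel⟩

def B123_011m :
    ∃ t, chk3 (onCell 0 7061502 0 1073741824 33554432 16777216 (fB12 0 true 0 c0F .npn false true true true gF0q1 gF1q3 gF1q2 gF2q2 7061502 184626)) t 1 1 1 = true :=
  ⟨(T.l 2), by decide +kernel⟩

def B123_012m :
    ∃ t, chk3 (onCell 0 7061502 0 1073741824 33554432 16777216 (fB12 0 true 0 c0F .npn false true true false gF0q1 gF1q3 gF2q2 gF3q2 7061502 184626)) t 1 1 1 = true :=
  ⟨(T.b (T.l 68) (T.a (T.l 0) (T.l 0))), by decide +kernel⟩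

def X123_013m :
    ∃ t, chk3 (onCell 0 7061502 0 1073741824 33554432 16777216 (xB12 0 .npn false true gF0q1 gF1q3 gF3q2 7061502 184626)) t 1 1 1 = true :=
  ⟨(T.l 0), by decide +kernel⟩

def B213_010m :
    ∃ t, chk3 (onCell 0 7061502 0 1073741824 33554432 16777216 (fB12 0 true 0 c0F .pnn false true true false gF0q2 gF1q3 gF0q1 gF1q1 7061502 184626)) t 1 1 1 = true :=
  ⟨(T.l 1), by decide +kernel⟩

def X213_011m :
    ∃ t, chk3 (onCell 0 7061502 0 1073741824 33554432 16777216 (xB12 0 .pnn false true gF0q2 gF1q3 gF1q1 7061502 184626)) t 1 1 1 = true :=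
  ⟨(T.l 0), by decide +kernel⟩

def B213_110m :
    ∃ t, chk3 (onCell 0 7061502 0 1073741824 33554432 16777216 (fB12 0 true 0 c0F .pnn false true true false gF1q2 gF1q3 gF0q1 gF1q1 7061502 184626)) t 1 1 1 = true :=
  ⟨(T.l 1), by decide +kernel⟩

def X213_111m :
    ∃ t, chk3 (onCell 0 7061502 0 1073741824 33554432 16777216 (xB12 0 .pnn false true gF1q2 gF1q3 gF1q1 7061502 184626)) t 1 1 1 = true :=
  ⟨(T.l 0), by decide +kernel⟩

def B213_210m :
    ∃ t, chk3 (onCell 0 7061502 0 1073741824 33554432 16777216 (fB12 0 true 0 c0F .pnn false true true false gF2q2 gF1q3 gF0q1 gF1q1 7061502 184626)) t 1 1 1 = true :=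
  ⟨(T.l 1), by decide +kernel⟩

def X213_211m :
    ∃ t, chk3 (onCell 0 7061502 0 1073741824 33554432 16777216 (xB12 0 .pnn false true gF2q2 gF1q3 gF1q1 7061502 184626)) t 1 1 1 = true :=
  ⟨(T.l 0), by decide +kernel⟩

def B113_020p :
    ∃ t, chk3 (onCell 0 184626 0 1073741824 33554432 16777216 (fB12 0 true 0 c0F .nn true true true false gF0q1 gF2q3 gF0q1 gF1q1 7061502 184626)) t 1 1 1 = true :=
  ⟨(T.b (T.b (T.b (T.l 68) (T.l 1)) (T.l 1)) (T.l 1)), by decide +kernel⟩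

def X113_021p :
    ∃ t, chk3 (onCell 0 184626 0 1073741824 33554432 16777216 (xB12 0 .nn true true gF0q1 gF2q3 gF1q1 7061502 184626)) t 1 1 1 = true :=
  ⟨(T.l 0), by decide +kernel⟩

def B123_020p :
    ∃ t, chk3 (onCell 0 7061502 0 1073741824 33554432 16777216 (fB12 0 true 0 c0F .npn true true true true gF0q1 gF2q3 gF0q2 gF1q2 7061502 184626)) t 1 1 1 = true :=
  ⟨(T.b (T.l 68) (T.l 2)), by decide +kernel⟩

def B123_021p :
    ∃ t, chk3 (onCell 0 7061502 0 1073741824 33554432 16777216 (fB12 0 true 0 c0F .npn true true true true gF0q1 gF2q3 gF1q2 gF2q2 7061502 184626)) t 1 1 1 = true :=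
  ⟨(T.b (T.l 68) (T.l 2)), by decide +kernel⟩

def B123_022p :
    ∃ t, chk3 (onCell 0 7061502 0 1073741824 33554432 16777216 (fB12 0 true 0 c0F .npn true true true false gF0q1 gF2q3 gF2q2 gF3q2 7061502 184626)) t 1 1 1 = true :=
  ⟨(T.b (T.l 68) (T.a (T.l 0) (T.l 0))), by decide +kernel⟩

def X123_023p :
    ∃ t, chk3 (onCell 0 7061502 0 1073741824 33554432 16777216 (xB12 0 .npn true true gF0q1 gF2q3 gF3q2 7061502 184626)) t 1 1 1 = true :=
  ⟨(T.l 0), by decide +kernel⟩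

def B113_020m :
    ∃ t, chk3 (onCell 0 184626 0 1073741824 33554432 16777216 (fB12 0 true 0 c0F .nn false true true false gF0q1 gF2q3 gF0q1 gF1q1 7061502 184626)) t 1 1 1 = true :=
  ⟨(T.l 272), by decide +kernel⟩

def X113_021m :
    ∃ t, chk3 (onCell 0 184626 0 1073741824 33554432 16777216 (xB12 0 .nn false true gF0q1 gF2q3 gF1q1 7061502 184626)) t 1 1 1 = true :=
  ⟨(T.l 0), by decide +kernel⟩

def B123_020m :
    ∃ t, chk3 (onCell 0 7061502 0 1073741824 33554432 16777216 (fB12 0 true 0 c0F .npn false true true true gF0q1 gF2q3 gF0q2 gF1q2 7061502 184626)) t 1 1 1 = true :=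
  ⟨(T.l 2), by decide +kernel⟩

def B123_021m :
    ∃ t, chk3 (onCell 0 7061502 0 1073741824 33554432 16777216 (fB12 0 true 0 c0F .npn false true true true gF0q1 gF2q3 gF1q2 gF2q2 7061502 184626)) t 1 1 1 = true :=
  ⟨(T.l 2), by decide +kernel⟩

def B123_022m :
    ∃ t, chk3 (onCell 0 7061502 0 1073741824 33554432 16777216 (fB12 0 true 0 c0F .npn false true true false gF0q1 gF2q3 gF2q2 gF3q2 7061502 184626)) t 1 1 1 = true :=
  ⟨(T.b (T.l 272) (T.a (T.l 272) (T.l 0))), by decide +kernel⟩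

def X123_023m :
    ∃ t, chk3 (onCell 0 7061502 0 1073741824 33554432 16777216 (xB12 0 .npn false true gF0q1 gF2q3 gF3q2 7061502 184626)) t 1 1 1 = true :=
  ⟨(T.l 0), by decide +kernel⟩

def B213_020m :
    ∃ t, chk3 (onCell 0 7061502 0 1073741824 33554432 16777216 (fB12 0 true 0 c0F .pnn false true true false gF0q2 gF2q3 gF0q1 gF1q1 7061502 184626)) t 1 1 1 = true :=
  ⟨(T.b (T.l 1) (T.b (T.l 1) (T.b (T.l 1) (T.l 272)))), by decide +kernel⟩

def X213_021m :
    ∃ t, chk3 (onCell 0 7061502 0 1073741824 33554432 16777216 (xB12 0 .pnn false true gF0q2 gF2q3 gF1q1 7061502 184626)) t 1 1 1 = true :=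
  ⟨(T.l 0), by decide +kernel⟩

def B213_120m :
    ∃ t, chk3 (onCell 0 7061502 0 1073741824 33554432 16777216 (fB12 0 true 0 c0F .pnn false true true false gF1q2 gF2q3 gF0q1 gF1q1 7061502 184626)) t 1 1 1 = true :=
  ⟨(T.b (T.l 1) (T.b (T.l 1) (T.l 272))), by decide +kernel⟩

def X213_121m :
    ∃ t, chk3 (onCell 0 7061502 0 1073741824 33554432 16777216 (xB12 0 .pnn false true gF1q2 gF2q3 gF1q1 7061502 184626)) t 1 1 1 = true :=
  ⟨(T.l 0), by decide +kernel⟩

def B213_220m :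
    ∃ t, chk3 (onCell 0 7061502 0 1073741824 33554432 16777216 (fB12 0 true 0 c0F .pnn false true true false gF2q2 gF2q3 gF0q1 gF1q1 7061502 184626)) t 1 1 1 = true :=
  ⟨(T.b (T.l 1) (T.l 272)), by decide +kernel⟩

def X213_221m :
    ∃ t, chk3 (onCell 0 7061502 0 1073741824 33554432 16777216 (xB12 0 .pnn false true gF2q2 gF2q3 gF1q1 7061502 184626)) t 1 1 1 = true :=
  ⟨(T.l 0), by decide +kernel⟩

def B113_030p :
    ∃ t, chk3 (onCell 0 24386923 0 1073741824 33554432 16777216 (fB12 2 true 0 c0F .nn true false true false gF0q1 gF3q3 gF0q1 gF1q1 7061502 184626)) t 1 1 1 = true :=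
  ⟨(T.l 1), by decide +kernel⟩

def X113_031p :
    ∃ t, chk3 (onCell 0 24386923 0 1073741824 33554432 16777216 (xB12 2 .nn true false gF0q1 gF3q3 gF1q1 7061502 184626)) t 1 1 1 = true :=
  ⟨(T.l 0), by decide +kernel⟩

def B123_030p :
    ∃ t, chk3 (onCell 0 31448425 0 1073741824 33554432 16777216 (fB12u true 0 c0F .npn true false true true gF0q1 gF3q3 gF0q2 gF1q2 7061502 184626)) t 1 1 1 = true :=
  ⟨(T.b (T.b (T.l 0) (T.l 2)) (T.l 2)), by decide +kernel⟩

def B123_031p :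
    ∃ t, chk3 (onCell 0 31448425 0 1073741824 33554432 16777216 (fB12 3 true 0 c0F .npn true false true true gF0q1 gF3q3 gF1q2 gF2q2 7061502 184626)) t 1 1 1 = true :=
  ⟨(T.b (T.b (T.b (T.l 1) (T.a (T.b (T.b (T.l 1) (T.l 272)) (T.l 272)) (T.b (T.b (T.l 1) (T.l 0)) (T.l 0)))) (T.b (T.b (T.a (T.a (T.l 272) (T.l 0)) (T.l 0)) (T.l 2)) (T.l 2))) (T.l 2)), by decide +kernel⟩

def B123_032p :
    ∃ t, chk3 (onCell 0 31448425 0 1073741824 33554432 16777216 (fB12 3 true 0 c0F .npn true false true false gF0q1 gF3q3 gF2q2 gF3q2 7061502 184626)) t 1 1 1 = true :=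
  ⟨(T.b (T.b (T.b (T.l 1) (T.b (T.l 1) (T.a (T.l 272) (T.l 0)))) (T.a (T.a (T.l 272) (T.l 0)) (T.l 0))) (T.a (T.a (T.a (T.l 272) (T.l 0)) (T.l 0)) (T.b (T.l 0) (T.l 3)))), by decide +kernel⟩

def X123_033p :
    ∃ t, chk3 (onCell 0 31448425 0 1073741824 33554432 16777216 (xB12 3 .npn true false gF0q1 gF3q3 gF3q2 7061502 184626)) t 1 1 1 = true :=
  ⟨(T.l 0), by decide +kernel⟩

def B113_030m :
    ∃ t, chk3 (onCell 0 24386923 0 1073741824 33554432 16777216 (fB12 2 true 0 c0F .nn false false true false gF0q1 gF3q3 gF0q1 gF1q1 7061502 184626)) t 1 1 1 = true :=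
  ⟨(T.l 0), by decide +kernel⟩

def X113_031m :
    ∃ t, chk3 (onCell 0 24386923 0 1073741824 33554432 16777216 (xB12 2 .nn false false gF0q1 gF3q3 gF1q1 7061502 184626)) t 1 1 1 = true :=
  ⟨(T.l 0), by decide +kernel⟩

def B123_030m :
    ∃ t, chk3 (onCell 0 31448425 0 1073741824 33554432 16777216 (fB12 3 true 0 c0F .npn false false true true gF0q1 gF3q3 gF0q2 gF1q2 7061502 184626)) t 1 1 1 = true :=
  ⟨(T.l 2), by decide +kernel⟩

def B123_031m :
    ∃ t, chk3 (onCell 0 31448425 0 1073741824 33554432 16777216 (fB12 3 true 0 c0F .npn false false true true gF0q1 gF3q3 gF1q2 gF2q2 7061502 184626)) t 1 1 1 = true :=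
  ⟨(T.l 2), by decide +kernel⟩

def B123_032m :
    ∃ t, chk3 (onCell 0 31448425 0 1073741824 33554432 16777216 (fB12 3 true 0 c0F .npn false false true false gF0q1 gF3q3 gF2q2 gF3q2 7061502 184626)) t 1 1 1 = true :=
  ⟨(T.b (T.a (T.b (T.l 272) (T.a (T.l 272) (T.l 0))) (T.b (T.b (T.l 272) (T.l 0)) (T.l 0))) (T.a (T.a (T.a (T.l 272) (T.l 0)) (T.l 0)) (T.l 0))), by decide +kernel⟩

def X123_033m :
    ∃ t, chk3 (onCell 0 31448425 0 1073741824 33554432 16777216 (xB12 3 .npn false false gF0q1 gF3q3 gF3q2 7061502 184626)) t 1 1 1 = true :=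
  ⟨(T.l 0), by decide +kernel⟩

def X213_031m :
    ∃ t, chk3 (onCell 0 31448425 0 1073741824 33554432 16777216 (xB12 3 .pnn false false gF0q2 gF3q3 gF1q1 7061502 184626)) t 1 1 1 = true :=
  ⟨(T.l 0), by decide +kernel⟩

def B213_130m :
    ∃ t, chk3 (onCell 0 31448425 0 1073741824 33554432 16777216 (fB12 3 true 0 c0F .pnn false false true false gF1q2 gF3q3 gF0q1 gF1q1 7061502 184626)) t 1 1 1 = true :=
  ⟨(T.b (T.b (T.b (T.l 0) (T.b (T.l 68) (T.l 1))) (T.l 1)) (T.l 1)), by decide +kernel⟩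

def X213_131m :
    ∃ t, chk3 (onCell 0 31448425 0 1073741824 33554432 16777216 (xB12 3 .pnn false false gF1q2 gF3q3 gF1q1 7061502 184626)) t 1 1 1 = true :=
  ⟨(T.l 0), by decide +kernel⟩

def B213_230m :
    ∃ t, chk3 (onCell 0 31448425 0 1073741824 33554432 16777216 (fB12 3 true 0 c0F .pnn false false true false gF2q2 gF3q3 gF0q1 gF1q1 7061502 184626)) t 1 1 1 = true :=
  ⟨(T.b (T.b (T.b (T.l 0) (T.a (T.l 68) (T.l 0))) (T.b (T.b (T.a (T.a (T.l 68) (T.l 68)) (T.l 0)) (T.l 1)) (T.l 1))) (T.l 1)), by decide +kernel⟩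

def X213_231m :
    ∃ t, chk3 (onCell 0 31448425 0 1073741824 33554432 16777216 (xB12 3 .pnn false false gF2q2 gF3q3 gF1q1 7061502 184626)) t 1 1 1 = true :=
  ⟨(T.l 0), by decide +kernel⟩

def B113_040p :
    ∃ t, chk3 (onCell 0 24386923 0 1073741824 33554432 16777216 (fB12 2 true 0 c0F .nn true false true false gF0q1 gF4q3 gF0q1 gF1q1 7061502 184626)) t 1 1 1 = true :=
  ⟨(T.l 1), by decide +kernel⟩

def X113_041p :
    ∃ t, chk3 (onCell 0 24386923 0 1073741824 33554432 16777216 (xB12 2 .nn true false gF0q1 gF4q3 gF1q1 7061502 184626)) t 1 1 1 = true :=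
  ⟨(T.l 0), by decide +kernel⟩

def B123_040p :
    ∃ t, chk3 (onCell 0 31448425 0 1073741824 33554432 16777216 (fB12u true 0 c0F .npn true false true true gF0q1 gF4q3 gF0q2 gF1q2 7061502 184626)) t 1 1 1 = true :=
  ⟨(T.b (T.b (T.l 0) (T.b (T.l 0) (T.l 2))) (T.l 2)), by decide +kernel⟩

def B123_041p :
    ∃ t, chk3 (onCell 0 31448425 0 1073741824 33554432 16777216 (fB12 3 true 0 c0F .npn true false true true gF0q1 gF4q3 gF1q2 gF2q2 7061502 184626)) t 1 1 1 = true :=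
  ⟨(T.b (T.b (T.l 1) (T.b (T.b (T.b (T.l 1) (T.a (T.a (T.l 272) (T.l 272)) (T.l 0))) (T.a (T.a (T.l 272) (T.l 0)) (T.l 0))) (T.a (T.a (T.l 272) (T.l 0)) (T.l 0)))) (T.l 2)), by decide +kernel⟩

def B123_042p :
    ∃ t, chk3 (onCell 0 31448425 0 1073741824 33554432 16777216 (fB12 3 true 0 c0F .npn true false true false gF0q1 gF4q3 gF2q2 gF3q2 7061502 184626)) t 1 1 1 = true :=
  ⟨(T.b (T.b (T.l 1) (T.b (T.l 1) (T.a (T.a (T.l 272) (T.l 0)) (T.l 0)))) (T.a (T.a (T.a (T.l 272) (T.l 0)) (T.l 0)) (T.b (T.l 0) (T.l 3)))), by decide +kernel⟩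

def X123_043p :
    ∃ t, chk3 (onCell 0 31448425 0 1073741824 33554432 16777216 (xB12 3 .npn true false gF0q1 gF4q3 gF3q2 7061502 184626)) t 1 1 1 = true :=
  ⟨(T.l 0), by decide +kernel⟩

def B113_040m :
    ∃ t, chk3 (onCell 0 24386923 0 1073741824 33554432 16777216 (fB12 2 true 0 c0F .nn false false true false gF0q1 gF4q3 gF0q1 gF1q1 7061502 184626)) t 1 1 1 = true :=
  ⟨(T.a (T.l 68) (T.l 0)), by decide +kernel⟩

def X113_041m :
    ∃ t, chk3 (onCell 0 24386923 0 1073741824 33554432 16777216 (xB12 2 .nn false false gF0q1 gF4q3 gF1q1 7061502 184626)) t 1 1 1 = true :=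
  ⟨(T.l 0), by decide +kernel⟩

def B123_040m :
    ∃ t, chk3 (onCell 0 31448425 0 1073741824 33554432 16777216 (fB12 3 true 0 c0F .npn false false true true gF0q1 gF4q3 gF0q2 gF1q2 7061502 184626)) t 1 1 1 = true :=
  ⟨(T.l 2), by decide +kernel⟩

def B123_041m :
    ∃ t, chk3 (onCell 0 31448425 0 1073741824 33554432 16777216 (fB12 3 true 0 c0F .npn false false true true gF0q1 gF4q3 gF1q2 gF2q2 7061502 184626)) t 1 1 1 = true :=
  ⟨(T.l 2), by decide +kernel⟩

def B123_042m :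
    ∃ t, chk3 (onCell 0 31448425 0 1073741824 33554432 16777216 (fB12 3 true 0 c0F .npn false false true false gF0q1 gF4q3 gF2q2 gF3q2 7061502 184626)) t 1 1 1 = true :=
  ⟨(T.a (T.b (T.a (T.l 272) (T.b (T.l 272) (T.l 0))) (T.a (T.a (T.l 272) (T.l 0)) (T.l 0))) (T.b (T.b (T.b (T.l 0) (T.l 0)) (T.l 0)) (T.l 0))), by decide +kernel⟩

def X123_043m :
    ∃ t, chk3 (onCell 0 31448425 0 1073741824 33554432 16777216 (xB12 3 .npn false false gF0q1 gF4q3 gF3q2 7061502 184626)) t 1 1 1 = true :=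
  ⟨(T.l 0), by decide +kernel⟩

def X213_041m :
    ∃ t, chk3 (onCell 0 31448425 0 1073741824 33554432 16777216 (xB12 3 .pnn false false gF0q2 gF4q3 gF1q1 7061502 184626)) t 1 1 1 = true :=
  ⟨(T.l 0), by decide +kernel⟩

def B213_140m :
    ∃ t, chk3 (onCell 0 31448425 0 1073741824 33554432 16777216 (fB12 3 true 0 c0F .pnn false false true false gF1q2 gF4q3 gF0q1 gF1q1 7061502 184626)) t 1 1 1 = true :=
  ⟨(T.b (T.a (T.b (T.l 0) (T.b (T.l 68) (T.l 1))) (T.b (T.l 0) (T.b (T.b (T.l 0) (T.l 1)) (T.l 1)))) (T.l 1)), by decide +kernel⟩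

def X213_141m :
    ∃ t, chk3 (onCell 0 31448425 0 1073741824 33554432 16777216 (xB12 3 .pnn false false gF1q2 gF4q3 gF1q1 7061502 184626)) t 1 1 1 = true :=
  ⟨(T.l 0), by decide +kernel⟩

def B213_240m :
    ∃ t, chk3 (onCell 0 31448425 0 1073741824 33554432 16777216 (fB12 3 true 0 c0F .pnn false false true false gF2q2 gF4q3 gF0q1 gF1q1 7061502 184626)) t 1 1 1 = true :=
  ⟨(T.b (T.b (T.a (T.l 0) (T.b (T.l 0) (T.l 0))) (T.a (T.a (T.l 68) (T.l 0)) (T.l 0))) (T.l 1)), by decide +kernel⟩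

def X213_241m :
    ∃ t, chk3 (onCell 0 31448425 0 1073741824 33554432 16777216 (xB12 3 .pnn false false gF2q2 gF4q3 gF1q1 7061502 184626)) t 1 1 1 = true :=
  ⟨(T.l 0), by decide +kernel⟩

end Pool.Agent.Strip051.G.I1_32_3_64.Tab.DF
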