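import Pool.Agent.Strip051.G.I1_32_3_64.Gn
import Pool.Agent.Strip051.PB.Corns
import Pool.Agent.Strip051.PB.CornK

/-! # Certificates of the aligned corners (generated) -/

set_option linter.all false

namespace Pool.Agent.Strip051.G.I1_32_3_64.Tab.CF

open Pool.Agent.Strip051.PB

def A011E_000 :
    ∃ t, chk3 (onCell 0 33554432 0 1073741824 33554432 16777216 (corTK [] true 1 c0F cA011E gF0q0 gF0q1 gF0q1 gF1q1 true false)) t 1 1 1 = true :=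
  ⟨(T.l 1), by decide +kernel⟩

def A011L_001 :
    ∃ t, chk3 (onCell 0 33554432 0 1073741824 33554432 16777216 (corTK [] true 1 c0F cA011L gF0q0 gF0q1 gF1q1 gF2q1 false true)) t 1 1 1 = true :=
  ⟨(T.l 2), by decide +kernel⟩

def A011L_002 :
    ∃ t, chk3 (onCell 0 33554432 0 1073741824 33554432 16777216 (corTK [] true 1 c0F cA011L gF0q0 gF0q1 gF2q1 gF3q1 true true)) t 1 1 1 = true :=
  ⟨(T.l 2), by decide +kernel⟩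

def A011L_003 :
    ∃ t, chk3 (onCell 0 33554432 0 1073741824 33554432 16777216 (corTK [] true 1 c0F cA011L gF0q0 gF0q1 gF3q1 gF4q1 true true)) t 1 1 1 = true :=
  ⟨(T.l 2), by decide +kernel⟩

def A011R_020 :
    ∃ t, chk3 (onCell 0 33554432 0 1073741824 33554432 16777216 (corTK [[⟨0, 0, 1, 25165824⟩, ⟨1, 1, 2, 25165824⟩, ⟨2, 1, 0, 16777216⟩, ⟨0, 0, 0, 67108864⟩, ⟨0, 1, 0, 1056964608⟩, ⟨1, 0, 0, 1056964608⟩, ⟨1, 1, 0, 67108864⟩]] true 1 c0F cA011R gF0q0 gF2q1 gF0q1 gF1q1 true false)) t 1 1 1 = true :=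
  ⟨(T.b (T.b (T.b (T.b (T.b (T.b (T.b (T.b (T.a (T.c (T.b (T.a (T.a (T.l 204) (T.c (T.b (T.c (T.a (T.a (T.l 204) (T.l 204)) (T.l 204)) (T.a (T.a (T.l 204) (T.l 204)) (T.l 204))) (T.l 1)) (T.a (T.a (T.l 204) (T.l 204)) (T.l 204)))) (T.c (T.b (T.a (T.c (T.b (T.a (T.a (T.l 204) (T.l 204)) (T.a (T.l 204) (T.l 204))) (T.l 1)) (T.b (T.a (T.a (T.l 204) (T.l 204)) (T.a (T.l 204) (T.l 204))) (T.l 1))) (T.c (T.b (T.a (T.a (T.l 204) (T.a (T.l 204) (T.l 204))) (T.c (T.b (T.a (T.a (T.l 204) (T.l 220)) (T.a (T.l 476) (T.l 476))) (T.l 1)) (T.b (T.a (T.l 476) (T.a (T.l 476) (T.l 476))) (T.l 1)))) (T.l 1)) (T.b (T.a (T.a (T.l 204) (T.l 220)) (T.c (T.a (T.l 476) (T.a (T.l 476) (T.l 476))) (T.a (T.l 476) (T.a (T.l 220) (T.l 476))))) (T.l 1)))) (T.l 1)) (T.b (T.a (T.c (T.b (T.a (T.a (T.l 204) (T.l 204)) (T.a (T.l 204) (T.l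 204))) (T.l 1)) (T.a (T.l 204) (T.a (T.l 204) (T.l 204)))) (T.c (T.b (T.a (T.a (T.l 204) (T.l 204)) (T.a (T.l 476) (T.a (T.l 476) (T.l 476)))) (T.l 1)) (T.b (T.a (T.a (T.l 204) (T.l 204)) (T.a (T.l 476) (T.a (T.l 204) (T.l 476)))) (T.l 1)))) (T.l 1)))) (T.l 1)) (T.b (T.a (T.a (T.l 204) (T.c (T.a (T.a (T.l 204) (T.l 204)) (T.l 204)) (T.a (T.a (T.l 204) (T.l 204)) (T.l 204)))) (T.c (T.b (T.a (T.c (T.a (T.l 204) (T.a (T.l 204) (T.l 204))) (T.a (T.l 460) (T.a (T.l 204) (T.l 204)))) (T.c (T.b (T.a (T.a (T.l 204) (T.l 204)) (T.a (T.l 460) (T.a (T.l 204) (T.l 476)))) (T.l 1)) (T.b (T.a (T.a (T.l 204) (T.l 204)) (T.a (T.l 460) (T.a (T.l 204) (T.l 204)))) (T.l 1)))) (T.l 1)) (T.b (T.a (T.c (T.b (T.a (T.l 460) (T.a (T.l 204) (T.l 204))) (T.l 1)) (T.b (T.a (T.a (T.l 204) (T.l 204)) (T.a (T.l 204) (T.l 204))) (T.l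 1))) (T.c (T.b (T.a (T.a (T.l 204) (T.l 204)) (T.a (T.l 460) (T.a (T.l 204) (T.l 204)))) (T.l 1)) (T.b (T.a (T.a (T.l 204) (T.l 204)) (T.a (T.l 204) (T.l 476))) (T.l 1)))) (T.l 1)))) (T.l 1))) (T.c (T.a (T.a (T.a (T.b (T.a (T.c (T.b (T.a (T.a (T.c (T.l 476) (T.l 476)) (T.l 1024)) (T.l 1024)) (T.l 1)) (T.b (T.a (T.c (T.l 476) (T.l 476)) (T.l 1024)) (T.l 1))) (T.l 1024)) (T.l 1)) (T.l 1024)) (T.l 1024)) (T.l 1024)) (T.b (T.a (T.c (T.b (T.a (T.c (T.b (T.a (T.c (T.b (T.a (T.a (T.l 204) (T.l 476)) (T.l 476)) (T.l 1)) (T.b (T.a (T.l 476) (T.l 476)) (T.l 1))) (T.a (T.a (T.l 476) (T.l 1024)) (T.l 1024))) (T.l 1)) (T.b (T.a (T.c (T.a (T.l 476) (T.l 476)) (T.a (T.l 476) (T.l 476))) (T.c (T.a (T.l 476) (T.l 476)) (T.a (T.l 476) (T.l 476)))) (T.l 1))) (T.a (T.a (T.a (T.l 476) (T.l 1024)) (T.l 1024)) (T.l 1024))) (T.l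 1)) (T.b (T.a (T.c (T.b (T.a (T.a (T.l 476) (T.l 476)) (T.a (T.l 476) (T.l 476))) (T.l 1)) (T.b (T.a (T.a (T.l 476) (T.l 476)) (T.a (T.l 476) (T.l 476))) (T.l 1))) (T.c (T.b (T.a (T.a (T.l 476) (T.l 476)) (T.a (T.l 476) (T.l 1024))) (T.l 1)) (T.b (T.a (T.a (T.l 476) (T.l 476)) (T.a (T.l 476) (T.l 476))) (T.l 1)))) (T.l 1))) (T.a (T.a (T.c (T.l 1024) (T.a (T.c (T.l 1024) (T.b (T.a (T.l 476) (T.l 1024)) (T.l 1))) (T.l 1024))) (T.l 1024)) (T.l 1024))) (T.l 1)))) (T.l 1)) (T.l 1)) (T.l 1)) (T.l 1)) (T.l 1)) (T.l 1)) (T.l 1)) (T.l 1)), by decide +kernel⟩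

def A011R_030 :
    ∃ t, chk3 (onCell 0 33554432 0 1073741824 33554432 16777216 (corTK [] true 1 c0F cA011R gF0q0 gF3q1 gF0q1 gF1q1 true false)) t 1 1 1 = true :=
  ⟨(T.b (T.b (T.b (T.a (T.a (T.a (T.l 816) (T.a (T.l 816) (T.c (T.l 820) (T.l 816)))) (T.a (T.b (T.l 820) (T.a (T.l 820) (T.l 820))) (T.b (T.a (T.l 816) (T.l 884)) (T.a (T.l 820) (T.b (T.l 820) (T.l 884)))))) (T.a (T.a (T.b (T.a (T.l 884) (T.l 884)) (T.a (T.b (T.l 884) (T.b (T.l 884) (T.l 884))) (T.b (T.l 884) (T.l 884)))) (T.b (T.a (T.l 884) (T.l 884)) (T.b (T.c (T.l 884) (T.l 884)) (T.a (T.l 884) (T.l 884))))) (T.a (T.b (T.a (T.l 884) (T.l 884)) (T.b (T.c (T.l 884) (T.l 884)) (T.a (T.l 884) (T.l 884)))) (T.b (T.b (T.b (T.l 884) (T.l 884)) (T.c (T.l 884) (T.l 884))) (T.b (T.a (T.l 884) (T.l 884)) (T.a (T.b (T.l 884) (T.l 884)) (T.b (T.l 884)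 (T.l 884)))))))) (T.b (T.b (T.a (T.a (T.a (T.l 816) (T.a (T.l 816) (T.a (T.l 816) (T.l 820)))) (T.a (T.c (T.a (T.l 820) (T.l 820)) (T.l 820)) (T.a (T.b (T.l 820) (T.l 820)) (T.c (T.b (T.l 820) (T.l 820)) (T.l 880))))) (T.a (T.a (T.a (T.c (T.b (T.l 884) (T.l 884)) (T.l 884)) (T.b (T.l 884) (T.c (T.l 884) (T.l 884)))) (T.a (T.c (T.l 884) (T.l 884)) (T.c (T.l 884) (T.l 884)))) (T.a (T.a (T.c (T.l 884) (T.l 884)) (T.b (T.l 884) (T.l 884))) (T.a (T.c (T.l 884) (T.l 884)) (T.b (T.l 884) (T.b (T.l 884) (T.l 884))))))) (T.b (T.b (T.b (T.a (T.a (T.a (T.l 816) (T.a (T.l 816) (T.a (T.l 816) (T.l 816)))) (T.a (T.a (T.l 820) (T.l 820)) (T.a (T.l 820) (T.l 884)))) (T.a (T.a (T.a (T.c (T.l 884) (T.l 880)) (T.c (T.l 884) (T.l 884))) (T.a (T.l 884) (T.l 884))) (T.a (T.a (T.l 884) (T.l 884)) (T.a (T.l 884) (T.l 884)))))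 (T.a (T.a (T.a (T.l 816) (T.a (T.l 816) (T.a (T.l 816) (T.l 820)))) (T.a (T.a (T.c (T.l 820) (T.l 816)) (T.l 820)) (T.a (T.l 820) (T.c (T.l 820) (T.l 880))))) (T.a (T.a (T.a (T.c (T.l 884) (T.l 884)) (T.c (T.l 884) (T.l 884))) (T.a (T.c (T.l 884) (T.l 884)) (T.c (T.l 884) (T.l 884)))) (T.a (T.a (T.l 884) (T.l 884)) (T.a (T.l 884) (T.l 884)))))) (T.b (T.a (T.c (T.b (T.a (T.a (T.l 816) (T.a (T.l 816) (T.a (T.l 816) (T.l 816)))) (T.a (T.a (T.l 820) (T.l 820)) (T.a (T.l 820) (T.l 820)))) (T.a (T.a (T.l 816) (T.a (T.l 816) (T.a (T.l 816) (T.l 820)))) (T.c (T.b (T.a (T.a (T.l 820) (T.l 820)) (T.a (T.l 820) (T.l 820))) (T.l 1)) (T.a (T.a (T.l 816) (T.l 816)) (T.l 884))))) (T.b (T.a (T.a (T.l 816) (T.a (T.l 816) (T.l 816))) (T.a (T.l 820) (T.l 884))) (T.a (T.a (T.l 816) (T.a (T.l 816) (T.l 816))) (T.a (T.l 820)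 (T.l 884))))) (T.c (T.a (T.a (T.a (T.l 884) (T.l 884)) (T.a (T.l 884) (T.l 884))) (T.a (T.a (T.l 884) (T.l 884)) (T.a (T.l 884) (T.l 884)))) (T.a (T.a (T.a (T.l 884) (T.l 884)) (T.a (T.l 884) (T.l 884))) (T.a (T.a (T.l 884) (T.l 884)) (T.a (T.l 884) (T.l 884)))))) (T.l 1))) (T.l 1))) (T.l 1))) (T.l 1)) (T.l 1)), by decide +kernel⟩

def A011R_040 :
    ∃ t, chk3 (onCell 0 16777216 0 1073741824 33554432 16777216 (corXK [] 1 c0F cA011R tA011R gF0q0 gF4q1 gF0q1 gF1q1 gF0q1 true false)) t 1 1 1 = true :=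
  ⟨(T.b (T.a (T.b (T.l 3) (T.l 3)) (T.b (T.a (T.l 3) (T.b (T.b (T.b (T.l 0) (T.l 816)) (T.l 816)) (T.b (T.l 816) (T.l 819)))) (T.b (T.l 3) (T.l 1)))) (T.l 1)), by decide +kernel⟩

def A011R_120 :
    ∃ t, chk3 (onCell 0 33554432 0 1073741824 33554432 16777216 (corTK [] true 1 c0F cA011R gF1q0 gF2q1 gF0q1 gF1q1 true false)) t 1 1 1 = true :=
  ⟨(T.l 1), by decide +kernel⟩

def A011R_130 :
    ∃ t, chk3 (onCell 0 33554432 0 1073741824 33554432 16777216 (corTK [] true 1 c0F cA011R gF1q0 gF3q1 gF0q1 gF1q1 true false)) t 1 1 1 = true :=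
  ⟨(T.l 1), by decide +kernel⟩

def A011R_140 :
    ∃ t, chk3 (onCell 0 33554432 0 1073741824 33554432 16777216 (corTK [] true 1 c0F cA011R gF1q0 gF4q1 gF0q1 gF1q1 true false)) t 1 1 1 = true :=
  ⟨(T.l 1), by decide +kernel⟩

def A011R_220 :
    ∃ t, chk3 (onCell 0 33554432 0 1073741824 33554432 16777216 (corTK [] true 1 c0F cA011R gF2q0 gF2q1 gF0q1 gF1q1 true false)) t 1 1 1 = true :=
  ⟨(T.l 1), by decide +kernel⟩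

def A011R_230 :
    ∃ t, chk3 (onCell 0 33554432 0 1073741824 33554432 16777216 (corTK [] true 1 c0F cA011R gF2q0 gF3q1 gF0q1 gF1q1 true false)) t 1 1 1 = true :=
  ⟨(T.l 1), by decide +kernel⟩

def A011R_240 :
    ∃ t, chk3 (onCell 0 33554432 0 1073741824 33554432 16777216 (corTK [] true 1 c0F cA011R gF2q0 gF4q1 gF0q1 gF1q1 true false)) t 1 1 1 = true :=
  ⟨(T.l 1), by decide +kernel⟩

def A012E_000 :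
    ∃ t, chk3 (onCell 0 12582912 0 1073741824 33554432 16777216 (corXK [[⟨0, 0, 1, 16777216⟩, ⟨1, 1, 0, 6291456⟩, ⟨2, 1, 1, 16777216⟩, ⟨0, 0, 0, 67108864⟩, ⟨0, 1, 0, 1056964608⟩, ⟨2, 1, 0, 67108864⟩, ⟨2, 2, 0, 1056964608⟩]] 1 c0F cA012E tA012E gF0q0 gF0q1 gF0q2 gF1q2 gF0q2 true true)) t 1 1 1 = true :=
  ⟨(T.b (T.b (T.l 1) (T.b (T.l 1) (T.b (T.l 1) (T.b (T.l 1) (T.b (T.l 1) (T.a (T.l 887) (T.a (T.l 883) (T.l 887)))))))) (T.b (T.a (T.b (T.a (T.l 823) (T.b (T.l 887) (T.l 823))) (T.b (T.a (T.l 819) (T.c (T.l 823) (T.l 819))) (T.l 2))) (T.b (T.a (T.b (T.l 887) (T.c (T.l 887) (T.l 887))) (T.a (T.b (T.l 887) (T.l 887)) (T.b (T.b (T.l 887) (T.b (T.l 887) (T.a (T.l 887) (T.b (T.l 887) (T.b (T.l 887) (T.a (T.l 887) (T.c (T.l 884) (T.l 884)))))))) (T.b (T.a (T.l 887) (T.b (T.a (T.l 887) (T.c (T.c (T.l 884) (T.l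 884)) (T.b (T.l 884) (T.l 884)))) (T.c (T.b (T.c (T.l 884) (T.l 884)) (T.c (T.l 884) (T.l 884))) (T.b (T.b (T.l 884) (T.l 884)) (T.b (T.l 884) (T.l 884)))))) (T.b (T.c (T.a (T.a (T.l 887) (T.b (T.l 884) (T.l 884))) (T.b (T.c (T.l 884) (T.l 884)) (T.b (T.l 884) (T.l 884)))) (T.a (T.a (T.l 823) (T.b (T.l 884) (T.l 884))) (T.b (T.c (T.l 884) (T.l 884)) (T.b (T.l 884) (T.l 884))))) (T.a (T.c (T.b (T.c (T.l 884) (T.l 884)) (T.c (T.l 884) (T.l 884))) (T.b (T.c (T.l 884) (T.l 884)) (T.c (T.l 884) (T.l 884)))) (T.c (T.b (T.b (T.l 884) (T.l 884)) (T.c (T.l 884) (T.l 884))) (T.b (T.b (T.l 884) (T.l 884)) (T.c (T.l 884) (T.l 884)))))))))) (T.b (T.a (T.b (T.c (T.l 823) (T.l 823)) (T.b (T.c (T.l 823) (T.l 823)) (T.l 2))) (T.a (T.a (T.c (T.l 823) (T.l 823)) (T.b (T.b (T.l 823) (T.a (T.l 823) (T.c (T.b (T.b (T.l 884)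 (T.l 884)) (T.b (T.l 884) (T.l 884))) (T.c (T.l 884) (T.l 884))))) (T.b (T.b (T.a (T.l 823) (T.c (T.c (T.l 820) (T.l 820)) (T.b (T.l 820) (T.l 820)))) (T.l 2)) (T.l 2)))) (T.a (T.b (T.b (T.c (T.b (T.a (T.l 884) (T.l 884)) (T.a (T.b (T.l 884) (T.l 884)) (T.l 884))) (T.b (T.c (T.l 884) (T.l 884)) (T.a (T.l 884) (T.l 884)))) (T.c (T.b (T.c (T.b (T.l 884) (T.l 884)) (T.b (T.l 884) (T.l 884))) (T.c (T.b (T.l 884) (T.l 884)) (T.b (T.l 884) (T.l 884)))) (T.b (T.a (T.b (T.l 884) (T.l 820)) (T.l 884)) (T.c (T.b (T.l 884) (T.l 884)) (T.b (T.l 820) (T.l 820)))))) (T.b (T.b (T.c (T.c (T.a (T.l 820) (T.l 884)) (T.a (T.l 820) (T.l 820))) (T.c (T.a (T.l 820) (T.l 820)) (T.a (T.l 820) (T.l 820)))) (T.l 2)) (T.l 2))) (T.b (T.b (T.c (T.b (T.c (T.l 884) (T.l 884)) (T.a (T.l 884) (T.b (T.l 884) (T.l 884)))) (T.b (T.c (T.l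 884) (T.l 884)) (T.a (T.l 884) (T.b (T.l 884) (T.l 884))))) (T.a (T.c (T.b (T.b (T.l 884) (T.l 884)) (T.b (T.l 884) (T.l 884))) (T.b (T.b (T.l 884) (T.l 884)) (T.b (T.l 884) (T.l 884)))) (T.a (T.b (T.c (T.l 884) (T.l 884)) (T.c (T.b (T.l 884) (T.l 884)) (T.b (T.l 884) (T.l 820)))) (T.b (T.b (T.c (T.l 884) (T.l 884)) (T.a (T.l 884) (T.c (T.l 884) (T.l 884)))) (T.c (T.b (T.b (T.l 884) (T.l 884)) (T.b (T.l 884) (T.l 884))) (T.b (T.b (T.l 884) (T.l 884)) (T.b (T.l 884) (T.l 884)))))))) (T.b (T.b (T.a (T.c (T.a (T.l 884) (T.b (T.l 884) (T.l 884))) (T.c (T.a (T.l 820) (T.l 820)) (T.a (T.l 820) (T.l 820)))) (T.a (T.c (T.b (T.a (T.l 884) (T.l 884)) (T.a (T.c (T.l 884) (T.l 820)) (T.l 884))) (T.b (T.a (T.l 820) (T.l 820)) (T.a (T.c (T.l 820) (T.l 820)) (T.l 820)))) (T.c (T.b (T.b (T.l 884) (T.l 884)) (T.b (T.l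 884) (T.l 884))) (T.b (T.b (T.l 820) (T.l 820)) (T.a (T.l 820) (T.l 820)))))) (T.l 2)) (T.l 2)))))) (T.l 2)))) (T.l 2))), by decide +kernel⟩

def A012E_001_1_2_1 :
    ∃ t, chk3 (onCell 0 12582912 0 1073741824 33554432 16777216 (corTK [[⟨0, 0, 1, 16777216⟩, ⟨1, 1, 0, 6291456⟩, ⟨2, 1, 1, 16777216⟩, ⟨0, 0, 0, 67108864⟩, ⟨0, 1, 0, 1056964608⟩, ⟨2, 1, 0, 67108864⟩, ⟨2, 2, 0, 1056964608⟩]] true 1 c0F cA012E gF0q0 gF0q1 gF1q2 gF2q2 true true)) t 1 2 1 = true :=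
  ⟨(T.l 1), by decide +kernel⟩

def A012E_001_1_6_1 :
    ∃ t, chk3 (onCell 0 12582912 0 1073741824 33554432 16777216 (corTK [[⟨0, 0, 1, 16777216⟩, ⟨1, 1, 0, 6291456⟩, ⟨2, 1, 1, 16777216⟩, ⟨0, 0, 0, 67108864⟩, ⟨0, 1, 0, 1056964608⟩, ⟨2, 1, 0, 67108864⟩, ⟨2, 2, 0, 1056964608⟩]] true 1 c0F cA012E gF0q0 gF0q1 gF1q2 gF2q2 true true)) t 1 6 1 = true :=
  ⟨(T.b (T.l 1) (T.a (T.a (T.b (T.b (T.l 1) (T.b (T.l 816) (T.l 816))) (T.b (T.l 816) (T.l 816))) (T.a (T.b (T.b (T.l 1) (T.l 820)) (T.b (T.l 816) (T.l 816))) (T.b (T.b (T.l 1) (T.b (T.l 820) (T.l 820))) (T.b (T.b (T.l 884) (T.l 884)) (T.a (T.l 816) (T.b (T.l 880) (T.l 880))))))) (T.a (T.b (T.b (T.l 1) (T.b (T.c (T.a (T.l 820) (T.b (T.l 820) (T.l 820))) (T.a (T.l 820) (T.l 820))) (T.c (T.b (T.l 884) (T.l 884)) (T.b (T.l 820) (T.l 884))))) (T.b (T.b (T.a (T.l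 884) (T.l 884)) (T.a (T.l 884) (T.l 884))) (T.a (T.b (T.l 880) (T.b (T.l 880) (T.l 880))) (T.b (T.l 880) (T.b (T.l 880) (T.l 880)))))) (T.b (T.b (T.l 1) (T.a (T.b (T.b (T.b (T.l 1) (T.c (T.l 820) (T.l 820))) (T.c (T.l 820) (T.l 820))) (T.b (T.l 884) (T.l 884))) (T.b (T.a (T.b (T.b (T.l 1) (T.l 820)) (T.l 884)) (T.b (T.b (T.l 1) (T.c (T.a (T.l 820) (T.l 820)) (T.b (T.l 1) (T.a (T.l 820) (T.l 820))))) (T.c (T.a (T.l 884) (T.l 884)) (T.a (T.l 820) (T.l 820))))) (T.a (T.b (T.l 884) (T.c (T.l 884) (T.l 884))) (T.b (T.c (T.l 884) (T.l 884)) (T.c (T.l 884) (T.l 884))))))) (T.a (T.b (T.b (T.l 884) (T.l 884)) (T.a (T.b (T.l 880) (T.l 880)) (T.b (T.b (T.l 880) (T.a (T.l 880) (T.c (T.l 880) (T.l 880)))) (T.a (T.l 880) (T.c (T.b (T.l 880) (T.l 880)) (T.b (T.l 880) (T.l 880))))))) (T.b (T.a (T.b (T.a (T.l 884) (T.b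 (T.l 884) (T.l 884))) (T.c (T.b (T.l 884) (T.l 884)) (T.b (T.l 884) (T.l 880)))) (T.b (T.b (T.l 884) (T.l 884)) (T.b (T.l 884) (T.l 884)))) (T.a (T.b (T.c (T.a (T.l 880) (T.l 880)) (T.b (T.l 880) (T.l 880))) (T.c (T.b (T.l 880) (T.l 880)) (T.b (T.l 880) (T.l 880)))) (T.b (T.c (T.b (T.l 880) (T.l 880)) (T.l 880)) (T.c (T.b (T.l 880) (T.l 880)) (T.b (T.l 880) (T.l 880))))))))))), by decide +kernel⟩

def A012E_001_2_7_1 :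
    ∃ t, chk3 (onCell 0 12582912 0 1073741824 33554432 16777216 (corTK [[⟨0, 0, 1, 16777216⟩, ⟨1, 1, 0, 6291456⟩, ⟨2, 1, 1, 16777216⟩, ⟨0, 0, 0, 67108864⟩, ⟨0, 1, 0, 1056964608⟩, ⟨2, 1, 0, 67108864⟩, ⟨2, 2, 0, 1056964608⟩]] true 1 c0F cA012E gF0q0 gF0q1 gF1q2 gF2q2 true true)) t 2 7 1 = true :=
  ⟨(T.a (T.b (T.b (T.b (T.l 816) (T.l 816)) (T.b (T.l 816) (T.l 880))) (T.b (T.a (T.l 816) (T.b (T.l 816) (T.l 816))) (T.a (T.l 880) (T.b (T.l 880) (T.b (T.l 816) (T.l 816)))))) (T.b (T.a (T.b (T.b (T.l 816) (T.l 880)) (T.b (T.l 880) (T.b (T.l 880) (T.l 880)))) (T.b (T.b (T.b (T.a (T.l 816) (T.l 880)) (T.a (T.l 880) (T.l 880))) (T.a (T.a (T.l 880) (T.b (T.l 880) (T.l 880))) (T.b (T.b (T.l 880) (T.l 880)) (T.l 880)))) (T.b (T.a (T.b (T.a (T.l 816) (T.l 880)) (T.c (T.b (T.l 880) (T.l 880)) (T.b (T.l 880) (T.l 880))))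 (T.b (T.b (T.l 880) (T.l 880)) (T.b (T.l 880) (T.l 880)))) (T.a (T.b (T.a (T.b (T.l 880) (T.l 880)) (T.l 880)) (T.c (T.a (T.l 880) (T.l 880)) (T.a (T.l 880) (T.l 816)))) (T.b (T.c (T.l 880) (T.l 880)) (T.c (T.l 880) (T.l 880))))))) (T.a (T.a (T.b (T.b (T.l 880) (T.b (T.l 816) (T.l 816))) (T.b (T.b (T.l 816) (T.l 816)) (T.c (T.l 816) (T.l 816)))) (T.b (T.b (T.b (T.l 880) (T.l 880)) (T.a (T.b (T.l 816) (T.l 816)) (T.b (T.a (T.l 880) (T.c (T.l 880) (T.l 880))) (T.a (T.l 880) (T.c (T.b (T.l 880) (T.l 880)) (T.l 880)))))) (T.b (T.a (T.c (T.l 880) (T.l 816)) (T.b (T.c (T.b (T.c (T.l 880) (T.l 880)) (T.c (T.l 880) (T.l 880))) (T.a (T.l 880) (T.b (T.l 880) (T.l 816)))) (T.c (T.a (T.c (T.l 880) (T.l 880)) (T.l 880)) (T.a (T.b (T.l 880) (T.l 880)) (T.l 880))))) (T.a (T.b (T.b (T.l 816) (T.l 816)) (T.b (T.l 880)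 (T.a (T.l 816) (T.a (T.l 816) (T.c (T.l 880) (T.l 816)))))) (T.b (T.c (T.a (T.a (T.b (T.l 816) (T.l 816)) (T.l 880)) (T.l 880)) (T.a (T.c (T.l 880) (T.l 880)) (T.l 816))) (T.c (T.a (T.a (T.b (T.l 880) (T.l 816)) (T.l 816)) (T.l 880)) (T.a (T.c (T.l 880) (T.l 816)) (T.l 816)))))))) (T.b (T.b (T.a (T.b (T.c (T.a (T.b (T.l 880) (T.l 880)) (T.l 880)) (T.a (T.l 880) (T.l 816))) (T.c (T.a (T.b (T.l 880) (T.l 880)) (T.l 880)) (T.a (T.b (T.l 880) (T.l 880)) (T.l 816)))) (T.b (T.c (T.l 880) (T.l 880)) (T.c (T.l 880) (T.l 880)))) (T.a (T.b (T.c (T.a (T.b (T.l 880) (T.l 880)) (T.l 880)) (T.a (T.b (T.l 880) (T.l 816)) (T.l 816))) (T.c (T.a (T.l 880) (T.l 880)) (T.a (T.l 880) (T.l 816)))) (T.b (T.c (T.b (T.l 880) (T.l 880)) (T.b (T.l 880) (T.l 880))) (T.c (T.b (T.l 880) (T.l 880)) (T.b (T.l 880) (T.l 880)))))) (T.b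 (T.a (T.b (T.c (T.a (T.b (T.l 880) (T.l 880)) (T.l 880)) (T.a (T.l 880) (T.l 816))) (T.c (T.a (T.b (T.l 880) (T.l 880)) (T.l 880)) (T.a (T.l 880) (T.l 816)))) (T.b (T.c (T.b (T.l 880) (T.l 880)) (T.b (T.l 880) (T.l 880))) (T.c (T.b (T.l 880) (T.l 880)) (T.b (T.l 880) (T.l 880))))) (T.a (T.b (T.c (T.a (T.b (T.l 880) (T.l 816)) (T.l 816)) (T.a (T.b (T.l 816) (T.l 816)) (T.l 816))) (T.c (T.a (T.b (T.l 816) (T.l 816)) (T.l 816)) (T.a (T.b (T.l 816) (T.l 816)) (T.l 816)))) (T.b (T.c (T.b (T.l 880) (T.l 880)) (T.b (T.l 880) (T.l 880))) (T.c (T.c (T.l 816) (T.l 816)) (T.b (T.l 880) (T.l 880)))))))))), by decide +kernel⟩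

def A012E_001_12_7_1 :
    ∃ t, chk3 (onCell 0 12582912 0 1073741824 33554432 16777216 (corTK [[⟨0, 0, 1, 16777216⟩, ⟨1, 1, 0, 6291456⟩, ⟨2, 1, 1, 16777216⟩, ⟨0, 0, 0, 67108864⟩, ⟨0, 1, 0, 1056964608⟩, ⟨2, 1, 0, 67108864⟩, ⟨2, 2, 0, 1056964608⟩]] true 1 c0F cA012E gF0q0 gF0q1 gF1q2 gF2q2 true true)) t 12 7 1 = true :=
  ⟨(T.b (T.b (T.b (T.b (T.b (T.l 880) (T.l 880)) (T.c (T.l 880) (T.l 880))) (T.b (T.a (T.l 880) (T.l 880)) (T.a (T.l 880) (T.b (T.l 880) (T.l 880))))) (T.b (T.b (T.c (T.a (T.l 880) (T.l 880)) (T.a (T.l 880) (T.l 880))) (T.c (T.a (T.l 880) (T.l 880)) (T.a (T.l 880) (T.l 880)))) (T.b (T.a (T.b (T.l 880) (T.l 880)) (T.c (T.l 880) (T.l 880))) (T.a (T.c (T.l 880) (T.l 880)) (T.c (T.l 880) (T.l 880)))))) (T.b (T.b (T.b (T.a (T.c (T.l 880) (T.l 880)) (T.c (T.l 880) (T.l 880))) (T.a (T.c (T.l 880)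 (T.l 880)) (T.c (T.b (T.l 880) (T.l 880)) (T.b (T.l 880) (T.l 880))))) (T.a (T.b (T.c (T.b (T.l 880) (T.l 880)) (T.l 880)) (T.c (T.b (T.l 880) (T.l 880)) (T.b (T.l 880) (T.l 880)))) (T.b (T.c (T.b (T.l 880) (T.l 880)) (T.b (T.l 880) (T.l 880))) (T.c (T.b (T.l 880) (T.l 880)) (T.b (T.l 880) (T.l 880)))))) (T.b (T.a (T.b (T.c (T.b (T.l 880) (T.l 880)) (T.b (T.l 880) (T.l 880))) (T.c (T.b (T.l 880) (T.l 880)) (T.b (T.l 880) (T.l 880)))) (T.b (T.c (T.b (T.l 880) (T.l 880)) (T.b (T.l 880) (T.l 880))) (T.c (T.c (T.l 880) (T.l 880)) (T.b (T.l 880) (T.l 880))))) (T.a (T.b (T.c (T.b (T.l 880) (T.l 880)) (T.b (T.l 880) (T.l 880))) (T.c (T.b (T.l 880) (T.l 880)) (T.b (T.l 816) (T.l 816)))) (T.b (T.c (T.c (T.l 880) (T.l 880)) (T.b (T.l 880) (T.l 880))) (T.c (T.c (T.l 880) (T.l 880)) (T.c (T.l 880) (T.l 880)))))))),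 by decide +kernel⟩

def A012E_001_13_7_1 :
    ∃ t, chk3 (onCell 0 12582912 0 1073741824 33554432 16777216 (corTK [[⟨0, 0, 1, 16777216⟩, ⟨1, 1, 0, 6291456⟩, ⟨2, 1, 1, 16777216⟩, ⟨0, 0, 0, 67108864⟩, ⟨0, 1, 0, 1056964608⟩, ⟨2, 1, 0, 67108864⟩, ⟨2, 2, 0, 1056964608⟩]] true 1 c0F cA012E gF0q0 gF0q1 gF1q2 gF2q2 true true)) t 13 7 1 = true :=
  ⟨(T.b (T.b (T.b (T.b (T.c (T.l 880) (T.l 880)) (T.c (T.b (T.l 880) (T.l 880)) (T.l 880))) (T.b (T.a (T.l 880) (T.b (T.l 880) (T.l 880))) (T.c (T.a (T.l 880) (T.l 880)) (T.a (T.l 880) (T.l 880))))) (T.b (T.b (T.c (T.a (T.l 880) (T.l 880)) (T.a (T.l 880) (T.l 880))) (T.c (T.a (T.l 880) (T.b (T.l 880) (T.l 880))) (T.a (T.l 880) (T.b (T.l 880) (T.l 880))))) (T.a (T.b (T.c (T.b (T.l 880) (T.l 880)) (T.l 880)) (T.c (T.b (T.l 880) (T.l 880)) (T.b (T.l 880) (T.l 880)))) (T.a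 (T.b (T.b (T.l 880) (T.l 880)) (T.c (T.l 880) (T.l 880))) (T.b (T.b (T.c (T.l 880) (T.l 880)) (T.a (T.l 880) (T.a (T.l 880) (T.c (T.b (T.l 880) (T.l 880)) (T.l 880))))) (T.c (T.b (T.a (T.l 880) (T.c (T.b (T.l 880) (T.l 880)) (T.b (T.l 880) (T.l 880)))) (T.a (T.c (T.b (T.l 880) (T.l 880)) (T.l 880)) (T.a (T.b (T.l 880) (T.l 880)) (T.l 880)))) (T.b (T.a (T.l 880) (T.a (T.l 880) (T.l 880))) (T.a (T.c (T.l 880) (T.l 880)) (T.c (T.l 880) (T.l 880)))))))))) (T.b (T.a (T.b (T.b (T.c (T.b (T.l 880) (T.l 880)) (T.b (T.l 880) (T.l 880))) (T.c (T.c (T.l 880) (T.l 880)) (T.b (T.l 880) (T.l 880)))) (T.b (T.c (T.a (T.l 880) (T.b (T.l 880) (T.l 880))) (T.c (T.l 880) (T.l 880))) (T.a (T.c (T.l 880) (T.l 880)) (T.b (T.c (T.l 880) (T.l 880)) (T.a (T.l 880) (T.a (T.l 880) (T.c (T.b (T.l 880) (T.l 880)) (T.b (T.l 880) (T.l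 880))))))))) (T.b (T.a (T.b (T.b (T.c (T.l 880) (T.l 880)) (T.b (T.l 880) (T.a (T.l 880) (T.c (T.c (T.l 880) (T.l 880)) (T.l 880))))) (T.a (T.c (T.l 880) (T.l 880)) (T.c (T.b (T.a (T.l 880) (T.b (T.l 880) (T.l 880))) (T.c (T.a (T.l 880) (T.l 880)) (T.a (T.l 880) (T.l 880)))) (T.b (T.a (T.l 880) (T.b (T.l 880) (T.l 880))) (T.a (T.b (T.l 880) (T.l 880)) (T.l 880)))))) (T.b (T.c (T.b (T.a (T.c (T.a (T.l 880) (T.l 880)) (T.b (T.l 880) (T.l 880))) (T.b (T.l 880) (T.l 880))) (T.a (T.a (T.b (T.l 880) (T.l 880)) (T.l 880)) (T.b (T.l 880) (T.l 880)))) (T.b (T.a (T.a (T.l 880) (T.b (T.l 880) (T.l 880))) (T.b (T.l 880) (T.l 880))) (T.a (T.a (T.b (T.l 880) (T.l 880)) (T.l 880)) (T.l 880)))) (T.c (T.b (T.c (T.a (T.l 880) (T.l 880)) (T.a (T.l 880) (T.l 880))) (T.c (T.a (T.l 880) (T.l 880)) (T.a (T.l 880) (T.l 880))))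 (T.b (T.a (T.b (T.l 880) (T.l 880)) (T.l 880)) (T.a (T.b (T.l 880) (T.l 880)) (T.l 880)))))) (T.a (T.b (T.c (T.b (T.a (T.b (T.l 880) (T.c (T.l 880) (T.l 880))) (T.a (T.b (T.l 880) (T.l 880)) (T.l 880))) (T.a (T.c (T.a (T.l 880) (T.l 880)) (T.a (T.l 880) (T.l 880))) (T.b (T.l 880) (T.l 880)))) (T.b (T.a (T.c (T.b (T.l 880) (T.l 880)) (T.l 880)) (T.c (T.b (T.l 880) (T.l 880)) (T.l 880))) (T.a (T.a (T.l 880) (T.b (T.l 880) (T.l 880))) (T.b (T.l 880) (T.l 880))))) (T.c (T.b (T.a (T.a (T.b (T.l 880) (T.l 880)) (T.l 880)) (T.b (T.l 880) (T.l 880))) (T.c (T.a (T.b (T.l 880) (T.l 880)) (T.l 880)) (T.a (T.l 880) (T.l 880)))) (T.b (T.a (T.a (T.b (T.l 880) (T.l 880)) (T.l 880)) (T.b (T.l 880) (T.l 880))) (T.a (T.c (T.l 880) (T.l 880)) (T.b (T.l 880) (T.l 880)))))) (T.b (T.c (T.b (T.c (T.a (T.l 880) (T.l 880)) (T.a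 (T.l 880) (T.l 880))) (T.c (T.a (T.l 880) (T.l 880)) (T.a (T.l 880) (T.l 880)))) (T.b (T.a (T.b (T.l 880) (T.l 880)) (T.l 880)) (T.a (T.b (T.l 880) (T.l 880)) (T.l 880)))) (T.c (T.b (T.c (T.a (T.l 880) (T.l 880)) (T.a (T.l 880) (T.l 880))) (T.c (T.a (T.l 880) (T.l 880)) (T.c (T.l 880) (T.l 880)))) (T.b (T.a (T.l 880) (T.l 880)) (T.a (T.l 880) (T.l 880)))))))) (T.a (T.b (T.a (T.b (T.c (T.l 880) (T.l 880)) (T.c (T.l 880) (T.l 880))) (T.b (T.c (T.a (T.b (T.l 880) (T.c (T.l 880) (T.l 880))) (T.b (T.c (T.a (T.l 880) (T.l 880)) (T.a (T.l 880) (T.l 880))) (T.a (T.b (T.l 880) (T.l 880)) (T.l 880)))) (T.a (T.b (T.l 880) (T.b (T.l 816) (T.l 880))) (T.b (T.c (T.a (T.l 880) (T.l 880)) (T.a (T.l 880) (T.l 880))) (T.a (T.b (T.l 880) (T.l 880)) (T.l 880))))) (T.c (T.a (T.b (T.a (T.l 880) (T.b (T.l 880) (T.l 880))) (T.c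 (T.a (T.l 880) (T.l 880)) (T.a (T.l 880) (T.l 880)))) (T.b (T.b (T.l 880) (T.l 880)) (T.b (T.l 880) (T.l 880)))) (T.a (T.b (T.a (T.l 816) (T.b (T.l 880) (T.l 880))) (T.c (T.a (T.l 880) (T.l 880)) (T.a (T.l 880) (T.l 880)))) (T.b (T.b (T.l 880) (T.l 880)) (T.b (T.l 880) (T.l 880))))))) (T.a (T.b (T.a (T.b (T.l 880) (T.l 880)) (T.c (T.a (T.l 816) (T.b (T.l 880) (T.b (T.l 880) (T.l 880)))) (T.a (T.l 816) (T.b (T.l 880) (T.b (T.l 880) (T.l 880)))))) (T.c (T.a (T.b (T.l 816) (T.b (T.l 816) (T.l 880))) (T.b (T.c (T.a (T.l 816) (T.l 816)) (T.a (T.l 816) (T.l 816))) (T.a (T.b (T.l 816) (T.l 816)) (T.l 816)))) (T.a (T.b (T.l 816) (T.b (T.l 816) (T.l 880))) (T.b (T.a (T.l 880) (T.l 880)) (T.a (T.b (T.l 816) (T.l 816)) (T.l 816)))))) (T.b (T.c (T.b (T.a (T.a (T.b (T.l 880) (T.l 880)) (T.l 880)) (T.b (T.l 880) (T.l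 880))) (T.c (T.a (T.l 880) (T.l 880)) (T.a (T.l 880) (T.l 816)))) (T.b (T.a (T.a (T.b (T.l 880) (T.l 880)) (T.l 880)) (T.b (T.l 880) (T.l 880))) (T.a (T.b (T.l 880) (T.l 880)) (T.l 880)))) (T.c (T.b (T.c (T.a (T.l 816) (T.l 816)) (T.a (T.l 816) (T.l 816))) (T.c (T.a (T.l 816) (T.l 816)) (T.c (T.l 880) (T.l 880)))) (T.b (T.a (T.l 880) (T.l 880)) (T.a (T.l 880) (T.l 880))))))) (T.b (T.b (T.a (T.c (T.b (T.c (T.a (T.l 880) (T.l 880)) (T.a (T.l 880) (T.l 880))) (T.c (T.a (T.l 880) (T.l 880)) (T.a (T.l 880) (T.l 880)))) (T.b (T.c (T.a (T.l 880) (T.l 880)) (T.a (T.l 880) (T.l 880))) (T.a (T.b (T.l 880) (T.l 880)) (T.l 880)))) (T.c (T.b (T.c (T.c (T.l 880) (T.l 880)) (T.b (T.l 880) (T.l 880))) (T.c (T.c (T.l 880) (T.l 880)) (T.b (T.l 880) (T.l 880)))) (T.b (T.a (T.l 880) (T.l 880)) (T.a (T.l 880) (T.l 880)))))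 (T.a (T.c (T.b (T.c (T.a (T.l 880) (T.l 880)) (T.a (T.l 880) (T.l 880))) (T.c (T.a (T.l 880) (T.l 880)) (T.a (T.l 880) (T.l 880)))) (T.b (T.a (T.b (T.l 880) (T.l 880)) (T.l 880)) (T.a (T.l 880) (T.l 880)))) (T.c (T.b (T.a (T.b (T.l 880) (T.l 880)) (T.l 880)) (T.a (T.l 880) (T.l 880))) (T.b (T.a (T.l 880) (T.l 880)) (T.a (T.l 880) (T.l 880)))))) (T.a (T.b (T.c (T.b (T.c (T.c (T.l 880) (T.l 880)) (T.c (T.l 880) (T.l 880))) (T.a (T.b (T.l 880) (T.l 880)) (T.l 880))) (T.b (T.a (T.l 880) (T.l 880)) (T.a (T.l 880) (T.l 880)))) (T.c (T.b (T.a (T.l 880) (T.l 880)) (T.a (T.l 880) (T.l 880))) (T.b (T.a (T.l 880) (T.l 880)) (T.a (T.l 816) (T.l 816))))) (T.b (T.c (T.b (T.a (T.l 880) (T.l 880)) (T.a (T.l 880) (T.l 880))) (T.b (T.a (T.l 880) (T.l 880)) (T.a (T.l 880) (T.l 880)))) (T.c (T.b (T.a (T.l 880) (T.l 880))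 (T.a (T.l 880) (T.l 880))) (T.b (T.a (T.l 880) (T.l 816)) (T.c (T.l 880) (T.l 880)))))))))), by decide +kernel⟩

def A012E_001_7_14_1 :
    ∃ t, chk3 (onCell 0 12582912 0 1073741824 33554432 16777216 (corTK [[⟨0, 0, 1, 16777216⟩, ⟨1, 1, 0, 6291456⟩, ⟨2, 1, 1, 16777216⟩, ⟨0, 0, 0, 67108864⟩, ⟨0, 1, 0, 1056964608⟩, ⟨2, 1, 0, 67108864⟩, ⟨2, 2, 0, 1056964608⟩]] true 1 c0F cA012E gF0q0 gF0q1 gF1q2 gF2q2 true true)) t 7 14 1 = true :=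
  ⟨(T.a (T.b (T.b (T.a (T.b (T.b (T.l 880) (T.l 880)) (T.b (T.l 880) (T.l 880))) (T.b (T.c (T.b (T.a (T.l 880) (T.l 880)) (T.a (T.l 880) (T.l 880))) (T.a (T.b (T.l 880) (T.l 880)) (T.b (T.l 880) (T.l 880)))) (T.a (T.c (T.b (T.b (T.l 880) (T.l 880)) (T.b (T.l 880) (T.l 880))) (T.b (T.b (T.l 880) (T.l 880)) (T.b (T.l 880) (T.l 880)))) (T.c (T.b (T.l 880) (T.l 880)) (T.b (T.l 880) (T.l 880)))))) (T.a (T.a (T.b (T.b (T.l 880) (T.l 880)) (T.b (T.l 880) (T.l 880))) (T.b (T.a (T.l 880) (T.c (T.b (T.l 880) (T.l 880)) (T.b (T.l 880) (T.l 880)))) (T.c (T.b (T.a (T.l 880) (T.l 880)) (T.a (T.b (T.l 880) (T.l 880)) (T.l 880))) (T.b (T.a (T.l 880) (T.l 880)) (T.a (T.l 880) (T.l 880)))))) (T.b (T.c (T.b (T.a (T.b (T.l 880) (T.l 880)) (T.l 880)) (T.a (T.l 880) (T.l 880))) (T.b (T.a (T.b (T.l 880) (T.l 880)) (T.l 880))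 (T.a (T.l 880) (T.l 880)))) (T.c (T.b (T.a (T.b (T.l 880) (T.l 880)) (T.l 880)) (T.a (T.b (T.l 880) (T.l 880)) (T.l 880))) (T.b (T.a (T.l 880) (T.l 880)) (T.a (T.l 880) (T.l 880))))))) (T.a (T.b (T.b (T.a (T.c (T.a (T.l 880) (T.b (T.l 880) (T.b (T.l 880) (T.l 880)))) (T.a (T.l 880) (T.b (T.l 880) (T.b (T.l 880) (T.l 880))))) (T.c (T.b (T.a (T.b (T.l 880) (T.l 880)) (T.l 880)) (T.c (T.l 880) (T.l 880))) (T.b (T.a (T.l 880) (T.l 880)) (T.b (T.l 880) (T.l 880))))) (T.a (T.c (T.b (T.a (T.b (T.l 880) (T.l 880)) (T.b (T.l 880) (T.l 880))) (T.a (T.c (T.l 880) (T.l 880)) (T.b (T.l 880) (T.l 880)))) (T.b (T.a (T.l 880) (T.b (T.l 880) (T.l 880))) (T.a (T.b (T.l 880) (T.l 880)) (T.l 880)))) (T.c (T.b (T.c (T.l 880) (T.l 880)) (T.c (T.l 880) (T.l 880))) (T.b (T.b (T.l 880) (T.l 880)) (T.b (T.l 880) (T.l 880))))))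 (T.b (T.a (T.c (T.b (T.a (T.c (T.b (T.l 880) (T.l 880)) (T.l 880)) (T.l 880)) (T.a (T.b (T.l 880) (T.l 880)) (T.l 880))) (T.b (T.a (T.c (T.l 880) (T.l 880)) (T.l 880)) (T.a (T.b (T.l 880) (T.l 880)) (T.l 880)))) (T.c (T.b (T.c (T.l 880) (T.l 880)) (T.c (T.l 880) (T.l 880))) (T.b (T.c (T.l 880) (T.l 880)) (T.c (T.l 880) (T.l 880))))) (T.c (T.a (T.b (T.a (T.b (T.l 880) (T.l 880)) (T.l 880)) (T.a (T.b (T.l 880) (T.l 880)) (T.l 880))) (T.b (T.c (T.l 880) (T.l 880)) (T.a (T.l 880) (T.l 880)))) (T.a (T.b (T.a (T.l 880) (T.l 880)) (T.a (T.l 880) (T.l 880))) (T.b (T.c (T.l 880) (T.l 880)) (T.c (T.l 880) (T.l 880))))))) (T.b (T.b (T.c (T.b (T.a (T.b (T.l 880) (T.l 880)) (T.l 880)) (T.a (T.b (T.l 880) (T.l 880)) (T.l 880))) (T.a (T.a (T.l 880) (T.l 880)) (T.b (T.l 880) (T.l 880)))) (T.c (T.a (T.b (T.b (T.l 880)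 (T.l 880)) (T.b (T.l 880) (T.l 880))) (T.a (T.b (T.l 880) (T.l 880)) (T.l 880))) (T.a (T.a (T.b (T.l 880) (T.l 880)) (T.l 880)) (T.b (T.l 880) (T.l 880))))) (T.b (T.c (T.a (T.b (T.b (T.l 880) (T.l 880)) (T.b (T.l 880) (T.l 880))) (T.b (T.b (T.l 880) (T.l 880)) (T.b (T.l 880) (T.l 880)))) (T.a (T.b (T.b (T.l 880) (T.l 880)) (T.b (T.l 880) (T.l 880))) (T.a (T.l 880) (T.l 880)))) (T.c (T.a (T.b (T.c (T.l 880) (T.l 880)) (T.c (T.l 880) (T.l 880))) (T.b (T.b (T.l 880) (T.l 880)) (T.b (T.l 880) (T.l 880)))) (T.a (T.b (T.b (T.l 880) (T.l 880)) (T.b (T.l 880) (T.l 880))) (T.a (T.b (T.l 880) (T.l 880)) (T.l 880)))))))) (T.b (T.b (T.a (T.b (T.c (T.a (T.l 880) (T.l 880)) (T.a (T.l 880) (T.l 880))) (T.c (T.a (T.b (T.l 880) (T.l 880)) (T.l 880)) (T.a (T.l 880) (T.l 880)))) (T.b (T.c (T.b (T.l 880) (T.l 880)) (T.b (T.l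 880) (T.l 880))) (T.c (T.a (T.l 880) (T.l 880)) (T.a (T.l 880) (T.l 880))))) (T.a (T.b (T.c (T.b (T.c (T.l 880) (T.l 880)) (T.a (T.l 880) (T.l 880))) (T.a (T.b (T.l 880) (T.l 880)) (T.l 880))) (T.c (T.b (T.a (T.l 880) (T.l 880)) (T.a (T.l 880) (T.l 880))) (T.b (T.a (T.l 880) (T.l 880)) (T.a (T.l 880) (T.l 880))))) (T.b (T.c (T.a (T.l 880) (T.l 880)) (T.a (T.l 880) (T.l 880))) (T.c (T.a (T.b (T.l 880) (T.l 880)) (T.l 880)) (T.a (T.l 880) (T.l 880)))))) (T.b (T.a (T.b (T.c (T.b (T.a (T.l 880) (T.l 880)) (T.a (T.l 880) (T.l 880))) (T.b (T.a (T.l 880) (T.l 880)) (T.a (T.l 880) (T.l 880)))) (T.c (T.b (T.a (T.l 880) (T.l 880)) (T.a (T.l 880) (T.l 880))) (T.b (T.a (T.l 880) (T.l 880)) (T.a (T.l 880) (T.l 880))))) (T.b (T.c (T.b (T.c (T.l 880) (T.l 880)) (T.a (T.l 880) (T.l 880))) (T.b (T.c (T.l 880) (T.l 880))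 (T.a (T.l 880) (T.l 880)))) (T.c (T.b (T.a (T.l 880) (T.l 880)) (T.a (T.l 880) (T.l 880))) (T.b (T.a (T.l 880) (T.l 880)) (T.a (T.l 880) (T.l 880)))))) (T.a (T.b (T.c (T.b (T.a (T.l 880) (T.l 880)) (T.a (T.b (T.l 880) (T.l 880)) (T.l 880))) (T.a (T.b (T.l 880) (T.l 880)) (T.b (T.l 880) (T.l 880)))) (T.c (T.b (T.a (T.b (T.l 880) (T.l 880)) (T.l 880)) (T.a (T.b (T.l 880) (T.l 880)) (T.b (T.l 880) (T.l 880)))) (T.a (T.a (T.l 880) (T.l 880)) (T.b (T.l 880) (T.l 880))))) (T.b (T.c (T.b (T.a (T.l 880) (T.l 880)) (T.a (T.l 880) (T.l 880))) (T.b (T.a (T.l 880) (T.l 880)) (T.a (T.l 880) (T.l 880)))) (T.c (T.b (T.a (T.l 880) (T.l 880)) (T.a (T.l 880) (T.l 880))) (T.b (T.a (T.l 880) (T.l 880)) (T.a (T.l 880) (T.l 880))))))))), by decide +kernel⟩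

def A012E_001_14_15_1 :
    ∃ t, chk3 (onCell 0 12582912 0 1073741824 33554432 16777216 (corTK [[⟨0, 0, 1, 16777216⟩, ⟨1, 1, 0, 6291456⟩, ⟨2, 1, 1, 16777216⟩, ⟨0, 0, 0, 67108864⟩, ⟨0, 1, 0, 1056964608⟩, ⟨2, 1, 0, 67108864⟩, ⟨2, 2, 0, 1056964608⟩]] true 1 c0F cA012E gF0q0 gF0q1 gF1q2 gF2q2 true true)) t 14 15 1 = true :=
  ⟨(T.b (T.b (T.a (T.b (T.a (T.c (T.b (T.a (T.b (T.l 880) (T.l 880)) (T.l 880)) (T.a (T.b (T.l 880) (T.l 880)) (T.l 880))) (T.b (T.a (T.l 880) (T.l 880)) (T.a (T.l 880) (T.l 880)))) (T.c (T.b (T.a (T.l 880) (T.l 880)) (T.a (T.l 880) (T.l 880))) (T.b (T.c (T.l 880) (T.l 880)) (T.c (T.l 880) (T.l 880))))) (T.a (T.c (T.b (T.a (T.b (T.l 880) (T.l 880)) (T.l 880)) (T.a (T.b (T.l 880) (T.l 880)) (T.l 880))) (T.b (T.a (T.l 880) (T.l 880)) (T.a (T.l 880) (T.l 880)))) (T.c (T.b (T.a (T.l 880) (T.l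 880)) (T.a (T.l 880) (T.l 880))) (T.b (T.c (T.l 880) (T.l 880)) (T.c (T.l 880) (T.l 880)))))) (T.b (T.c (T.a (T.b (T.c (T.l 880) (T.l 880)) (T.c (T.l 880) (T.l 880))) (T.b (T.b (T.l 880) (T.l 880)) (T.b (T.l 880) (T.l 880)))) (T.a (T.b (T.b (T.l 880) (T.l 880)) (T.b (T.l 880) (T.l 880))) (T.b (T.b (T.l 880) (T.l 880)) (T.b (T.l 880) (T.l 880))))) (T.c (T.a (T.b (T.c (T.l 880) (T.l 880)) (T.c (T.l 880) (T.l 880))) (T.b (T.c (T.l 880) (T.l 880)) (T.c (T.l 880) (T.l 880)))) (T.a (T.b (T.b (T.l 880) (T.l 880)) (T.b (T.l 880) (T.l 880))) (T.b (T.b (T.l 880) (T.l 880)) (T.b (T.l 880) (T.l 880))))))) (T.a (T.b (T.a (T.c (T.b (T.a (T.b (T.l 880) (T.l 880)) (T.l 880)) (T.a (T.b (T.l 880) (T.l 880)) (T.l 880))) (T.b (T.a (T.l 880) (T.l 880)) (T.a (T.l 880) (T.l 880)))) (T.c (T.b (T.a (T.l 880) (T.l 880)) (T.a (T.l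 880) (T.l 880))) (T.b (T.c (T.l 880) (T.l 880)) (T.c (T.l 880) (T.l 880))))) (T.a (T.c (T.b (T.a (T.b (T.l 880) (T.l 880)) (T.l 880)) (T.a (T.l 880) (T.l 880))) (T.b (T.a (T.l 880) (T.l 880)) (T.a (T.l 880) (T.l 880)))) (T.c (T.b (T.a (T.l 880) (T.l 880)) (T.a (T.l 880) (T.l 880))) (T.b (T.c (T.l 880) (T.l 880)) (T.c (T.l 880) (T.l 880)))))) (T.b (T.c (T.a (T.b (T.c (T.l 880) (T.l 880)) (T.c (T.l 880) (T.l 880))) (T.b (T.c (T.l 880) (T.l 880)) (T.c (T.l 880) (T.l 880)))) (T.a (T.b (T.c (T.l 880) (T.l 880)) (T.c (T.l 880) (T.l 880))) (T.b (T.b (T.l 880) (T.l 880)) (T.b (T.l 880) (T.l 880))))) (T.c (T.a (T.b (T.c (T.l 880) (T.l 880)) (T.c (T.l 880) (T.l 880))) (T.b (T.c (T.l 880) (T.l 880)) (T.c (T.l 880) (T.l 880)))) (T.a (T.b (T.c (T.l 880) (T.l 880)) (T.c (T.l 880) (T.l 880))) (T.b (T.b (T.l 880) (T.l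 880)) (T.b (T.l 880) (T.l 880)))))))) (T.a (T.b (T.b (T.a (T.c (T.b (T.a (T.l 880) (T.l 880)) (T.a (T.l 880) (T.l 880))) (T.b (T.a (T.l 880) (T.l 880)) (T.a (T.l 880) (T.l 880)))) (T.c (T.b (T.a (T.l 880) (T.l 880)) (T.a (T.l 880) (T.l 880))) (T.b (T.c (T.l 880) (T.l 880)) (T.c (T.l 880) (T.l 880))))) (T.a (T.c (T.b (T.a (T.l 880) (T.l 880)) (T.a (T.l 880) (T.l 880))) (T.b (T.c (T.l 880) (T.l 880)) (T.c (T.l 880) (T.l 880)))) (T.c (T.b (T.a (T.l 880) (T.l 880)) (T.a (T.l 880) (T.l 880))) (T.b (T.c (T.l 880) (T.l 880)) (T.c (T.l 880) (T.l 880)))))) (T.b (T.a (T.c (T.b (T.a (T.l 880) (T.l 880)) (T.a (T.l 880) (T.l 880))) (T.b (T.c (T.l 880) (T.l 880)) (T.c (T.l 880) (T.l 880)))) (T.c (T.b (T.a (T.l 880) (T.l 880)) (T.c (T.l 880) (T.l 880))) (T.b (T.c (T.l 880) (T.l 880)) (T.c (T.l 880) (T.l 880))))) (T.a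 (T.c (T.b (T.a (T.l 880) (T.l 880)) (T.a (T.l 880) (T.l 880))) (T.b (T.c (T.l 880) (T.l 880)) (T.c (T.l 880) (T.l 816)))) (T.c (T.b (T.c (T.l 880) (T.l 880)) (T.c (T.l 880) (T.l 880))) (T.b (T.c (T.l 880) (T.l 880)) (T.c (T.l 880) (T.l 816))))))) (T.b (T.b (T.c (T.a (T.b (T.c (T.l 880) (T.l 880)) (T.c (T.l 880) (T.l 880))) (T.b (T.c (T.l 880) (T.l 880)) (T.c (T.l 880) (T.l 880)))) (T.a (T.b (T.c (T.l 880) (T.l 880)) (T.c (T.l 880) (T.l 880))) (T.b (T.b (T.l 880) (T.l 880)) (T.b (T.l 880) (T.l 880))))) (T.a (T.c (T.b (T.c (T.l 880) (T.l 880)) (T.c (T.l 880) (T.l 880))) (T.b (T.c (T.l 880) (T.l 880)) (T.b (T.l 880) (T.l 880)))) (T.c (T.b (T.c (T.l 880) (T.l 880)) (T.c (T.l 880) (T.l 880))) (T.b (T.b (T.l 880) (T.l 880)) (T.b (T.l 880) (T.l 880)))))) (T.b (T.a (T.c (T.b (T.c (T.l 880) (T.l 880)) (T.c (T.l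 880) (T.l 880))) (T.b (T.b (T.l 880) (T.l 880)) (T.b (T.l 880) (T.l 880)))) (T.c (T.b (T.c (T.l 880) (T.l 880)) (T.c (T.l 880) (T.l 880))) (T.b (T.b (T.l 880) (T.l 880)) (T.b (T.l 880) (T.l 880))))) (T.a (T.c (T.b (T.c (T.l 880) (T.l 880)) (T.c (T.l 880) (T.l 880))) (T.b (T.b (T.l 880) (T.l 880)) (T.b (T.l 880) (T.l 880)))) (T.c (T.b (T.c (T.l 880) (T.l 880)) (T.c (T.l 880) (T.l 880))) (T.b (T.b (T.l 880) (T.l 880)) (T.b (T.l 880) (T.l 880))))))))), by decide +kernel⟩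

def A012E_001_15_15_1 :
    ∃ t, chk3 (onCell 0 12582912 0 1073741824 33554432 16777216 (corTK [[⟨0, 0, 1, 16777216⟩, ⟨1, 1, 0, 6291456⟩, ⟨2, 1, 1, 16777216⟩, ⟨0, 0, 0, 67108864⟩, ⟨0, 1, 0, 1056964608⟩, ⟨2, 1, 0, 67108864⟩, ⟨2, 2, 0, 1056964608⟩]] true 1 c0F cA012E gF0q0 gF0q1 gF1q2 gF2q2 true true)) t 15 15 1 = true :=
  ⟨(T.b (T.b (T.a (T.b (T.c (T.a (T.b (T.b (T.l 880) (T.l 880)) (T.b (T.l 880) (T.l 880))) (T.b (T.b (T.l 880) (T.l 880)) (T.b (T.l 880) (T.l 880)))) (T.a (T.a (T.l 880) (T.l 880)) (T.b (T.l 880) (T.l 880)))) (T.c (T.a (T.b (T.b (T.l 880) (T.l 880)) (T.b (T.l 880) (T.l 880))) (T.b (T.b (T.l 880) (T.l 880)) (T.b (T.l 880) (T.l 880)))) (T.a (T.a (T.b (T.l 880) (T.l 880)) (T.l 880)) (T.a (T.l 880) (T.l 880))))) (T.b (T.c (T.b (T.a (T.b (T.l 880) (T.l 880)) (T.l 880)) (T.a (T.b (T.l 880) (T.l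 880)) (T.l 880))) (T.b (T.a (T.l 880) (T.l 880)) (T.a (T.l 880) (T.l 880)))) (T.c (T.b (T.a (T.b (T.l 880) (T.l 880)) (T.b (T.l 880) (T.l 880))) (T.a (T.b (T.l 880) (T.l 880)) (T.b (T.l 880) (T.l 880)))) (T.a (T.b (T.l 880) (T.l 880)) (T.b (T.l 880) (T.l 880)))))) (T.a (T.b (T.c (T.a (T.b (T.b (T.l 880) (T.l 880)) (T.c (T.l 880) (T.l 880))) (T.b (T.b (T.l 880) (T.l 880)) (T.b (T.l 880) (T.l 880)))) (T.a (T.b (T.b (T.l 880) (T.l 880)) (T.b (T.l 880) (T.l 880))) (T.a (T.b (T.l 880) (T.l 880)) (T.l 880)))) (T.c (T.a (T.b (T.c (T.l 880) (T.l 880)) (T.c (T.l 880) (T.l 880))) (T.b (T.b (T.l 880) (T.l 880)) (T.c (T.l 880) (T.l 880)))) (T.a (T.b (T.b (T.l 880) (T.l 880)) (T.b (T.l 880) (T.l 880))) (T.b (T.b (T.l 880) (T.l 880)) (T.b (T.l 880) (T.l 880)))))) (T.b (T.c (T.a (T.b (T.b (T.l 880) (T.l 880)) (T.b (T.l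 880) (T.l 880))) (T.b (T.b (T.l 880) (T.l 880)) (T.b (T.l 880) (T.l 880)))) (T.a (T.a (T.l 880) (T.l 880)) (T.a (T.l 880) (T.l 880)))) (T.c (T.a (T.b (T.b (T.l 880) (T.l 880)) (T.b (T.l 880) (T.l 880))) (T.b (T.b (T.l 880) (T.l 880)) (T.b (T.l 880) (T.l 880)))) (T.a (T.c (T.b (T.l 880) (T.l 880)) (T.l 880)) (T.a (T.l 880) (T.l 880))))))) (T.b (T.a (T.b (T.c (T.a (T.b (T.c (T.l 880) (T.l 880)) (T.c (T.l 880) (T.l 880))) (T.b (T.c (T.l 880) (T.l 880)) (T.c (T.l 880) (T.l 880)))) (T.a (T.b (T.b (T.l 880) (T.l 880)) (T.b (T.l 880) (T.l 880))) (T.b (T.b (T.l 880) (T.l 880)) (T.b (T.l 880) (T.l 880))))) (T.c (T.a (T.b (T.c (T.l 880) (T.l 880)) (T.c (T.l 880) (T.l 880))) (T.b (T.c (T.l 880) (T.l 880)) (T.c (T.l 880) (T.l 880)))) (T.a (T.b (T.b (T.l 880) (T.l 880)) (T.b (T.l 880) (T.l 880))) (T.b (T.b (T.l 880)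 (T.l 880)) (T.b (T.l 880) (T.l 880)))))) (T.b (T.c (T.a (T.b (T.c (T.l 880) (T.l 880)) (T.c (T.l 880) (T.l 880))) (T.b (T.c (T.l 880) (T.l 880)) (T.c (T.l 880) (T.l 880)))) (T.a (T.b (T.b (T.l 880) (T.l 880)) (T.b (T.l 880) (T.l 880))) (T.c (T.b (T.l 880) (T.l 880)) (T.l 880)))) (T.c (T.a (T.b (T.c (T.l 880) (T.l 880)) (T.c (T.l 880) (T.l 880))) (T.b (T.c (T.l 880) (T.l 880)) (T.c (T.l 880) (T.l 880)))) (T.a (T.b (T.b (T.l 880) (T.l 880)) (T.b (T.l 880) (T.l 880))) (T.c (T.b (T.l 880) (T.l 880)) (T.l 880)))))) (T.a (T.b (T.c (T.a (T.b (T.c (T.l 880) (T.l 880)) (T.c (T.l 880) (T.l 880))) (T.b (T.c (T.l 880) (T.l 880)) (T.c (T.l 880) (T.l 880)))) (T.a (T.b (T.b (T.l 880) (T.l 880)) (T.b (T.l 880) (T.l 880))) (T.b (T.b (T.l 880) (T.l 880)) (T.b (T.l 880) (T.l 880))))) (T.c (T.a (T.b (T.c (T.l 880) (T.l 880))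 (T.c (T.l 880) (T.l 880))) (T.b (T.c (T.l 880) (T.l 880)) (T.c (T.l 880) (T.l 880)))) (T.a (T.b (T.b (T.l 880) (T.l 880)) (T.b (T.l 880) (T.l 880))) (T.b (T.b (T.l 880) (T.l 880)) (T.b (T.l 880) (T.l 880)))))) (T.b (T.c (T.a (T.b (T.c (T.l 880) (T.l 880)) (T.c (T.l 880) (T.l 880))) (T.b (T.c (T.l 880) (T.l 880)) (T.c (T.l 880) (T.l 880)))) (T.a (T.b (T.b (T.l 880) (T.l 880)) (T.b (T.l 880) (T.l 880))) (T.b (T.b (T.l 880) (T.l 880)) (T.b (T.l 880) (T.l 880))))) (T.c (T.a (T.b (T.c (T.l 880) (T.l 880)) (T.c (T.l 880) (T.l 880))) (T.b (T.c (T.l 880) (T.l 880)) (T.a (T.l 880) (T.l 880)))) (T.a (T.c (T.b (T.l 880) (T.l 880)) (T.l 880)) (T.c (T.b (T.l 880) (T.l 880)) (T.l 880)))))))), by decide +kernel⟩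

theorem A012E_001_7_15_1 :
    ∃ t, chk3 (onCell 0 12582912 0 1073741824 33554432 16777216 (corTK [[⟨0, 0, 1, 16777216⟩, ⟨1, 1, 0, 6291456⟩, ⟨2, 1, 1, 16777216⟩, ⟨0, 0, 0, 67108864⟩, ⟨0, 1, 0, 1056964608⟩, ⟨2, 1, 0, 67108864⟩, ⟨2, 2, 0, 1056964608⟩]] true 1 c0F cA012E gF0q0 gF0q1 gF1q2 gF2q2 true true)) t 7 15 1 = true :=
  ex3_a A012E_001_14_15_1 A012E_001_15_15_1
theorem A012E_001_7_7_1 :
    ∃ t, chk3 (onCell 0 12582912 0 1073741824 33554432 16777216 (corTK [[⟨0, 0, 1, 16777216⟩, ⟨1, 1, 0, 6291456⟩, ⟨2, 1, 1, 16777216⟩, ⟨0, 0, 0, 67108864⟩, ⟨0, 1, 0, 1056964608⟩, ⟨2, 1, 0, 67108864⟩, ⟨2, 2, 0, 1056964608⟩]] true 1 c0F cA012E gF0q0 gF0q1 gF1q2 gF2q2 true true)) t 7 7 1 = true :=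
  ex3_b A012E_001_7_14_1 A012E_001_7_15_1
theorem A012E_001_6_7_1 :
    ∃ t, chk3 (onCell 0 12582912 0 1073741824 33554432 16777216 (corTK [[⟨0, 0, 1, 16777216⟩, ⟨1, 1, 0, 6291456⟩, ⟨2, 1, 1, 16777216⟩, ⟨0, 0, 0, 67108864⟩, ⟨0, 1, 0, 1056964608⟩, ⟨2, 1, 0, 67108864⟩, ⟨2, 2, 0, 1056964608⟩]] true 1 c0F cA012E gF0q0 gF0q1 gF1q2 gF2q2 true true)) t 6 7 1 = true :=
  ex3_a A012E_001_12_7_1 A012E_001_13_7_1
theorem A012E_001_3_7_1 :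
    ∃ t, chk3 (onCell 0 12582912 0 1073741824 33554432 16777216 (corTK [[⟨0, 0, 1, 16777216⟩, ⟨1, 1, 0, 6291456⟩, ⟨2, 1, 1, 16777216⟩, ⟨0, 0, 0, 67108864⟩, ⟨0, 1, 0, 1056964608⟩, ⟨2, 1, 0, 67108864⟩, ⟨2, 2, 0, 1056964608⟩]] true 1 c0F cA012E gF0q0 gF0q1 gF1q2 gF2q2 true true)) t 3 7 1 = true :=
  ex3_a A012E_001_6_7_1 A012E_001_7_7_1
theorem A012E_001_1_7_1 :
    ∃ t, chk3 (onCell 0 12582912 0 1073741824 33554432 16777216 (corTK [[⟨0, 0, 1, 16777216⟩, ⟨1, 1, 0, 6291456⟩, ⟨2, 1, 1, 16777216⟩, ⟨0, 0, 0, 67108864⟩, ⟨0, 1, 0, 1056964608⟩, ⟨2, 1, 0, 67108864⟩, ⟨2, 2, 0, 1056964608⟩]] true 1 c0F cA012E gF0q0 gF0q1 gF1q2 gF2q2 true true)) t 1 7 1 = true :=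
  ex3_a A012E_001_2_7_1 A012E_001_3_7_1
theorem A012E_001_1_3_1 :
    ∃ t, chk3 (onCell 0 12582912 0 1073741824 33554432 16777216 (corTK [[⟨0, 0, 1, 16777216⟩, ⟨1, 1, 0, 6291456⟩, ⟨2, 1, 1, 16777216⟩, ⟨0, 0, 0, 67108864⟩, ⟨0, 1, 0, 1056964608⟩, ⟨2, 1, 0, 67108864⟩, ⟨2, 2, 0, 1056964608⟩]] true 1 c0F cA012E gF0q0 gF0q1 gF1q2 gF2q2 true true)) t 1 3 1 = true :=
  ex3_b A012E_001_1_6_1 A012E_001_1_7_1
theorem A012E_001 :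
    ∃ t, chk3 (onCell 0 12582912 0 1073741824 33554432 16777216 (corTK [[⟨0, 0, 1, 16777216⟩, ⟨1, 1, 0, 6291456⟩, ⟨2, 1, 1, 16777216⟩, ⟨0, 0, 0, 67108864⟩, ⟨0, 1, 0, 1056964608⟩, ⟨2, 1, 0, 67108864⟩, ⟨2, 2, 0, 1056964608⟩]] true 1 c0F cA012E gF0q0 gF0q1 gF1q2 gF2q2 true true)) t 1 1 1 = true :=
  ex3_b A012E_001_1_2_1 A012E_001_1_3_1

def A012E_002 :
    ∃ t, chk3 (onCell 0 12582912 0 1073741824 33554432 16777216 (corTK [[⟨0, 0, 1, 16777216⟩, ⟨1, 1, 0, 6291456⟩, ⟨2, 1, 1, 16777216⟩, ⟨0, 0, 0, 67108864⟩, ⟨0, 1, 0, 1056964608⟩, ⟨2, 1, 0, 67108864⟩, ⟨2, 2, 0, 1056964608⟩]] true 1 c0F cA012E gF0q0 gF0q1 gF2q2 gF3q2 true false)) t 1 1 1 = true :=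
  ⟨(T.b (T.l 1) (T.b (T.l 1) (T.b (T.l 1) (T.b (T.l 1) (T.b (T.l 1) (T.b (T.l 1) (T.b (T.l 1) (T.b (T.l 1) (T.a (T.a (T.l 816) (T.c (T.b (T.l 1) (T.c (T.b (T.l 1) (T.a (T.a (T.l 816) (T.a (T.c (T.l 816) (T.l 816)) (T.l 816))) (T.a (T.l 816) (T.l 816)))) (T.b (T.l 1) (T.a (T.a (T.l 816) (T.a (T.c (T.l 816) (T.l 816)) (T.l 816))) (T.a (T.l 816) (T.l 816)))))) (T.b (T.l 1) (T.c (T.b (T.l 1) (T.a (T.a (T.l 816) (T.a (T.c (T.l 816) (T.l 816)) (T.l 816))) (T.a (T.l 816) (T.l 816)))) (T.b (T.l 1) (T.a (T.a (T.l 816) (T.a (T.l 816) (T.l 816))) (T.a (T.l 816) (T.l 816)))))))) (T.c (T.b (T.l 1) (T.a (T.c (T.b (T.l 1) (T.a (T.a (T.l 816) (T.l 816)) (T.a (T.a (T.l 816) (T.l 816)) (T.l 816)))) (T.b (T.l 1) (T.a (T.a (T.l 816) (T.l 816)) (T.a (T.a (T.l 816) (T.l 816)) (T.l 816))))) (T.c (T.b (T.l 1) (T.a (T.c (T.l 880)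 (T.l 816)) (T.c (T.l 880) (T.l 880)))) (T.b (T.l 1) (T.a (T.c (T.l 816) (T.l 816)) (T.c (T.l 816) (T.l 816))))))) (T.b (T.l 1) (T.a (T.c (T.b (T.l 1) (T.a (T.a (T.l 816) (T.l 816)) (T.a (T.a (T.l 816) (T.l 816)) (T.l 816)))) (T.b (T.l 1) (T.a (T.a (T.l 816) (T.l 816)) (T.a (T.a (T.l 816) (T.l 816)) (T.l 816))))) (T.c (T.a (T.c (T.l 816) (T.l 816)) (T.l 880)) (T.a (T.l 880) (T.l 816))))))))))))))), by decide +kernel⟩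

def A012L_003 :
    ∃ t, chk3 (onCell 0 33554432 0 1073741824 33554432 16777216 (corTK [] true 1 c0F cA012L gF0q0 gF0q1 gF3q2 gF4q2 false true)) t 1 1 1 = true :=
  ⟨(T.l 2), by decide +kernel⟩

def A012R_020 :
    ∃ t, chk3 (onCell 0 33554432 0 1073741824 33554432 16777216 (corTK [[⟨0, 0, 1, 25165824⟩, ⟨1, 1, 2, 25165824⟩, ⟨2, 1, 0, 16777216⟩, ⟨0, 0, 0, 67108864⟩, ⟨0, 1, 0, 1056964608⟩, ⟨1, 0, 0, 1056964608⟩, ⟨1, 1, 0, 67108864⟩]] true 1 c0F cA012R gF0q0 gF2q1 gF0q2 gF1q2 true true)) t 1 1 1 = true :=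
  ⟨(T.b (T.b (T.b (T.b (T.b (T.b (T.b (T.b (T.a (T.c (T.b (T.a (T.a (T.l 204) (T.c (T.b (T.c (T.a (T.a (T.l 204) (T.l 204)) (T.l 204)) (T.a (T.a (T.l 204) (T.l 204)) (T.l 204))) (T.l 2)) (T.a (T.a (T.l 204) (T.l 204)) (T.l 204)))) (T.c (T.b (T.a (T.c (T.b (T.a (T.a (T.l 204) (T.l 204)) (T.a (T.l 204) (T.l 204))) (T.l 2)) (T.b (T.a (T.a (T.l 204) (T.l 204)) (T.a (T.l 204) (T.l 204))) (T.l 2))) (T.c (T.b (T.a (T.a (T.l 204) (T.a (T.l 204) (T.l 204))) (T.c (T.b (T.a (T.a (T.l 204) (T.l 220)) (T.a (T.l 476) (T.l 476))) (T.l 2)) (T.a (T.l 476) (T.a (T.l 476) (T.l 476))))) (T.l 2)) (T.b (T.a (T.a (T.l 204) (T.l 220)) (T.c (T.a (T.l 476) (T.a (T.l 220) (T.l 476))) (T.a (T.l 476) (T.a (T.l 204) (T.l 476))))) (T.l 2)))) (T.l 2)) (T.b (T.a (T.c (T.b (T.a (T.a (T.l 204) (T.l 204)) (T.a (T.l 204) (T.l 204))) (T.l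 2)) (T.a (T.l 204) (T.a (T.l 204) (T.l 204)))) (T.c (T.b (T.a (T.a (T.l 204) (T.l 204)) (T.a (T.l 476) (T.a (T.l 204) (T.l 476)))) (T.l 2)) (T.b (T.a (T.a (T.l 204) (T.l 204)) (T.a (T.l 476) (T.a (T.l 204) (T.l 476)))) (T.l 2)))) (T.l 2)))) (T.l 2)) (T.b (T.a (T.a (T.l 204) (T.c (T.a (T.a (T.l 204) (T.l 204)) (T.l 204)) (T.a (T.a (T.l 204) (T.l 204)) (T.l 204)))) (T.c (T.b (T.a (T.c (T.a (T.l 204) (T.a (T.l 204) (T.l 204))) (T.a (T.l 204) (T.a (T.l 204) (T.l 204)))) (T.c (T.b (T.a (T.a (T.l 204) (T.l 204)) (T.a (T.l 460) (T.a (T.l 204) (T.l 204)))) (T.l 2)) (T.b (T.a (T.a (T.l 204) (T.l 204)) (T.a (T.l 460) (T.a (T.l 204) (T.l 204)))) (T.l 2)))) (T.l 2)) (T.b (T.a (T.c (T.a (T.l 460) (T.a (T.l 204) (T.l 204))) (T.b (T.a (T.a (T.l 204) (T.l 204)) (T.a (T.l 204) (T.l 204))) (T.l 2))) (T.c (T.b (T.a (T.a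 (T.l 204) (T.l 204)) (T.a (T.l 204) (T.l 476))) (T.l 2)) (T.b (T.a (T.a (T.l 204) (T.l 204)) (T.a (T.l 204) (T.l 476))) (T.l 2)))) (T.l 2)))) (T.l 2))) (T.c (T.a (T.a (T.a (T.b (T.a (T.c (T.b (T.a (T.c (T.l 476) (T.l 476)) (T.l 1024)) (T.l 2)) (T.a (T.l 476) (T.l 1024))) (T.l 1024)) (T.l 2)) (T.l 1024)) (T.l 1024)) (T.l 1024)) (T.b (T.a (T.c (T.b (T.a (T.c (T.b (T.a (T.c (T.a (T.l 476) (T.l 476)) (T.a (T.l 476) (T.l 476))) (T.a (T.a (T.l 476) (T.l 1024)) (T.l 1024))) (T.l 2)) (T.b (T.a (T.a (T.l 476) (T.l 476)) (T.a (T.l 476) (T.l 476))) (T.l 2))) (T.a (T.a (T.c (T.l 1024) (T.l 476)) (T.l 1024)) (T.l 1024))) (T.l 2)) (T.b (T.a (T.c (T.b (T.a (T.a (T.l 476) (T.l 476)) (T.a (T.l 476) (T.l 476))) (T.l 2)) (T.b (T.a (T.a (T.l 476) (T.l 476)) (T.a (T.l 476) (T.l 476))) (T.l 2))) (T.c (T.b (T.a (T.a (T.l 476)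 (T.l 476)) (T.a (T.l 476) (T.l 1024))) (T.l 2)) (T.b (T.a (T.a (T.l 476) (T.l 476)) (T.a (T.l 476) (T.l 476))) (T.l 2)))) (T.l 2))) (T.a (T.a (T.c (T.l 1024) (T.a (T.c (T.l 1024) (T.l 476)) (T.l 1024))) (T.l 1024)) (T.l 1024))) (T.l 2)))) (T.l 2)) (T.l 2)) (T.l 2)) (T.l 2)) (T.l 2)) (T.l 2)) (T.l 2)) (T.l 2)), by decide +kernel⟩

def A012R_021 :
    ∃ t, chk3 (onCell 0 33554432 0 1073741824 33554432 16777216 (corTK [[⟨0, 0, 1, 25165824⟩, ⟨1, 1, 2, 25165824⟩, ⟨2, 1, 0, 16777216⟩, ⟨0, 0, 0, 67108864⟩, ⟨0, 1, 0, 1056964608⟩, ⟨1, 0, 0, 1056964608⟩, ⟨1, 1, 0, 67108864⟩]] true 1 c0F cA012R gF0q0 gF2q1 gF1q2 gF2q2 true true)) t 1 1 1 = true :=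
  ⟨(T.b (T.b (T.b (T.b (T.b (T.a (T.b (T.a (T.a (T.l 204) (T.b (T.b (T.c (T.b (T.c (T.b (T.c (T.a (T.a (T.l 204) (T.l 204)) (T.l 204)) (T.a (T.a (T.l 204) (T.l 204)) (T.l 204))) (T.l 2)) (T.a (T.a (T.l 204) (T.l 204)) (T.l 204))) (T.l 2)) (T.b (T.c (T.a (T.a (T.l 204) (T.l 204)) (T.l 204)) (T.a (T.a (T.l 204) (T.l 204)) (T.l 204))) (T.l 2))) (T.l 2)) (T.l 2))) (T.b (T.b (T.c (T.b (T.c (T.b (T.a (T.c (T.b (T.a (T.a (T.l 204) (T.l 204)) (T.a (T.l 204) (T.l 204))) (T.l 2)) (T.b (T.a (T.a (T.l 204) (T.l 204)) (T.a (T.l 204) (T.l 204))) (T.l 2))) (T.c (T.b (T.a (T.a (T.l 204) (T.a (T.l 204) (T.l 204))) (T.c (T.b (T.a (T.a (T.l 204) (T.l 220)) (T.a (T.l 476) (T.l 476))) (T.l 2)) (T.a (T.l 476) (T.a (T.l 476) (T.l 476))))) (T.l 2)) (T.b (T.a (T.a (T.l 204) (T.l 220)) (T.c (T.a (T.l 476) (T.a (T.l 220) (T.l 476)))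 (T.a (T.l 476) (T.a (T.l 204) (T.l 476))))) (T.l 2)))) (T.l 2)) (T.b (T.a (T.c (T.b (T.a (T.a (T.l 204) (T.l 204)) (T.a (T.l 204) (T.l 204))) (T.l 2)) (T.a (T.l 204) (T.a (T.l 204) (T.l 204)))) (T.c (T.b (T.a (T.a (T.l 204) (T.l 204)) (T.a (T.l 476) (T.a (T.l 204) (T.l 476)))) (T.l 2)) (T.b (T.a (T.a (T.l 204) (T.l 204)) (T.a (T.l 476) (T.a (T.l 204) (T.l 476)))) (T.l 2)))) (T.l 2))) (T.l 2)) (T.b (T.c (T.b (T.a (T.c (T.a (T.l 204) (T.a (T.l 204) (T.l 204))) (T.a (T.l 204) (T.a (T.l 204) (T.l 204)))) (T.c (T.b (T.a (T.a (T.l 204) (T.l 204)) (T.a (T.l 460) (T.a (T.l 204) (T.l 204)))) (T.l 2)) (T.b (T.a (T.a (T.l 204) (T.l 204)) (T.a (T.l 460) (T.a (T.l 204) (T.l 204)))) (T.l 2)))) (T.l 2)) (T.b (T.a (T.c (T.a (T.l 460) (T.a (T.l 204) (T.l 204))) (T.b (T.a (T.a (T.l 204) (T.l 204)) (T.a (T.l 204) (T.l 204)))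 (T.l 2))) (T.c (T.b (T.a (T.a (T.l 204) (T.l 204)) (T.a (T.l 204) (T.l 476))) (T.l 2)) (T.b (T.a (T.a (T.l 204) (T.l 204)) (T.a (T.l 204) (T.l 476))) (T.l 2)))) (T.l 2))) (T.l 2))) (T.l 2)) (T.l 2))) (T.a (T.a (T.l 204) (T.l 2)) (T.l 2))) (T.b (T.b (T.b (T.c (T.a (T.a (T.a (T.b (T.a (T.c (T.b (T.a (T.c (T.l 476) (T.l 476)) (T.l 1024)) (T.l 2)) (T.a (T.l 476) (T.l 1024))) (T.l 1024)) (T.l 2)) (T.l 1024)) (T.l 1024)) (T.l 1024)) (T.b (T.a (T.c (T.b (T.a (T.c (T.b (T.a (T.c (T.a (T.l 476) (T.l 476)) (T.a (T.l 476) (T.l 476))) (T.a (T.a (T.l 476) (T.l 1024)) (T.l 1024))) (T.l 2)) (T.b (T.a (T.a (T.l 476) (T.l 476)) (T.a (T.l 476) (T.l 476))) (T.l 2))) (T.a (T.a (T.c (T.l 1024) (T.l 476)) (T.l 1024)) (T.l 1024))) (T.l 2)) (T.b (T.a (T.c (T.b (T.a (T.a (T.l 476) (T.l 476)) (T.a (T.l 476) (T.l 476))) (T.l 2))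 (T.b (T.a (T.a (T.l 476) (T.l 476)) (T.a (T.l 476) (T.l 476))) (T.l 2))) (T.c (T.b (T.a (T.a (T.l 476) (T.l 476)) (T.a (T.l 476) (T.l 1024))) (T.l 2)) (T.b (T.a (T.a (T.l 476) (T.l 476)) (T.a (T.l 476) (T.l 476))) (T.l 2)))) (T.l 2))) (T.a (T.a (T.c (T.l 1024) (T.a (T.c (T.l 1024) (T.l 476)) (T.l 1024))) (T.l 1024)) (T.l 1024))) (T.l 2))) (T.l 2)) (T.l 2)) (T.l 2))) (T.a (T.a (T.a (T.l 204) (T.l 2)) (T.l 2)) (T.l 2))) (T.a (T.a (T.a (T.l 204) (T.l 2)) (T.l 2)) (T.l 2))) (T.a (T.a (T.a (T.l 204) (T.l 2)) (T.l 2)) (T.l 2))) (T.a (T.a (T.a (T.l 0) (T.l 2)) (T.l 2)) (T.l 2))) (T.a (T.a (T.a (T.b (T.l 816) (T.b (T.l 816) (T.l 880))) (T.l 2)) (T.l 2)) (T.l 2))), by decide +kernel⟩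

end Pool.Agent.Strip051.G.I1_32_3_64.Tab.CF
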