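import Pool.Agent.Strip051.G.I1_32_3_64.Gn
import Pool.Agent.Strip051.PB.Corns
import Pool.Agent.Strip051.PB.CornK

/-! # Certificates of the aligned corners (generated) -/

set_option linter.all false

namespace Pool.Agent.Strip051.G.I1_32_3_64.Tab.CF

open Pool.Agent.Strip051.PB

def A022E_011_1_2_1 :
    ∃ t, chk3 (onCell 0 33554432 0 1073741824 33554432 16777216 (corTK [[⟨0, 0, 1, 25165824⟩, ⟨1, 1, 0, 16777216⟩, ⟨2, 1, 1, 25165824⟩, ⟨0, 0, 0, 67108864⟩, ⟨0, 1, 0, 1056964608⟩, ⟨2, 1, 0, 67108864⟩, ⟨2, 2, 0, 1056964608⟩]] true 1 c0F cA022E gF0q0 gF1q2 gF1q2 gF2q2 true true)) t 1 2 1 = true :=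
  ⟨(T.l 2), by decide +kernel⟩

def A022E_011_1_6_1 :
    ∃ t, chk3 (onCell 0 33554432 0 1073741824 33554432 16777216 (corTK [[⟨0, 0, 1, 25165824⟩, ⟨1, 1, 0, 16777216⟩, ⟨2, 1, 1, 25165824⟩, ⟨0, 0, 0, 67108864⟩, ⟨0, 1, 0, 1056964608⟩, ⟨2, 1, 0, 67108864⟩, ⟨2, 2, 0, 1056964608⟩]] true 1 c0F cA022E gF0q0 gF1q2 gF1q2 gF2q2 true true)) t 1 6 1 = true :=
  ⟨(T.l 2), by decide +kernel⟩

def A022E_011_1_14_1 :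
    ∃ t, chk3 (onCell 0 33554432 0 1073741824 33554432 16777216 (corTK [[⟨0, 0, 1, 25165824⟩, ⟨1, 1, 0, 16777216⟩, ⟨2, 1, 1, 25165824⟩, ⟨0, 0, 0, 67108864⟩, ⟨0, 1, 0, 1056964608⟩, ⟨2, 1, 0, 67108864⟩, ⟨2, 2, 0, 1056964608⟩]] true 1 c0F cA022E gF0q0 gF1q2 gF1q2 gF2q2 true true)) t 1 14 1 = true :=
  ⟨(T.l 2), by decide +kernel⟩

def A022E_011_1_30_1 :
    ∃ t, chk3 (onCell 0 33554432 0 1073741824 33554432 16777216 (corTK [[⟨0, 0, 1, 25165824⟩, ⟨1, 1, 0, 16777216⟩, ⟨2, 1, 1, 25165824⟩, ⟨0, 0, 0, 67108864⟩, ⟨0, 1, 0, 1056964608⟩, ⟨2, 1, 0, 67108864⟩, ⟨2, 2, 0, 1056964608⟩]] true 1 c0F cA022E gF0q0 gF1q2 gF1q2 gF2q2 true true)) t 1 30 1 = true :=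
  ⟨(T.l 2), by decide +kernel⟩

def A022E_011_1_62_1 :
    ∃ t, chk3 (onCell 0 33554432 0 1073741824 33554432 16777216 (corTK [[⟨0, 0, 1, 25165824⟩, ⟨1, 1, 0, 16777216⟩, ⟨2, 1, 1, 25165824⟩, ⟨0, 0, 0, 67108864⟩, ⟨0, 1, 0, 1056964608⟩, ⟨2, 1, 0, 67108864⟩, ⟨2, 2, 0, 1056964608⟩]] true 1 c0F cA022E gF0q0 gF1q2 gF1q2 gF2q2 true true)) t 1 62 1 = true :=
  ⟨(T.l 2), by decide +kernel⟩

def A022E_011_1_126_1 :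
    ∃ t, chk3 (onCell 0 33554432 0 1073741824 33554432 16777216 (corTK [[⟨0, 0, 1, 25165824⟩, ⟨1, 1, 0, 16777216⟩, ⟨2, 1, 1, 25165824⟩, ⟨0, 0, 0, 67108864⟩, ⟨0, 1, 0, 1056964608⟩, ⟨2, 1, 0, 67108864⟩, ⟨2, 2, 0, 1056964608⟩]] true 1 c0F cA022E gF0q0 gF1q2 gF1q2 gF2q2 true true)) t 1 126 1 = true :=
  ⟨(T.l 2), by decide +kernel⟩

def A022E_011_1_254_1 :
    ∃ t, chk3 (onCell 0 33554432 0 1073741824 33554432 16777216 (corTK [[⟨0, 0, 1, 25165824⟩, ⟨1, 1, 0, 16777216⟩, ⟨2, 1, 1, 25165824⟩, ⟨0, 0, 0, 67108864⟩, ⟨0, 1, 0, 1056964608⟩, ⟨2, 1, 0, 67108864⟩, ⟨2, 2, 0, 1056964608⟩]] true 1 c0F cA022E gF0q0 gF1q2 gF1q2 gF2q2 true true)) t 1 254 1 = true :=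
  ⟨(T.l 2), by decide +kernel⟩

def A022E_011_1_510_1 :
    ∃ t, chk3 (onCell 0 33554432 0 1073741824 33554432 16777216 (corTK [[⟨0, 0, 1, 25165824⟩, ⟨1, 1, 0, 16777216⟩, ⟨2, 1, 1, 25165824⟩, ⟨0, 0, 0, 67108864⟩, ⟨0, 1, 0, 1056964608⟩, ⟨2, 1, 0, 67108864⟩, ⟨2, 2, 0, 1056964608⟩]] true 1 c0F cA022E gF0q0 gF1q2 gF1q2 gF2q2 true true)) t 1 510 1 = true :=
  ⟨(T.l 2), by decide +kernel⟩

def A022E_011_2_511_2 :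
    ∃ t, chk3 (onCell 0 33554432 0 1073741824 33554432 16777216 (corTK [[⟨0, 0, 1, 25165824⟩, ⟨1, 1, 0, 16777216⟩, ⟨2, 1, 1, 25165824⟩, ⟨0, 0, 0, 67108864⟩, ⟨0, 1, 0, 1056964608⟩, ⟨2, 1, 0, 67108864⟩, ⟨2, 2, 0, 1056964608⟩]] true 1 c0F cA022E gF0q0 gF1q2 gF1q2 gF2q2 true true)) t 2 511 2 = true :=
  ⟨(T.b (T.l 2) (T.a (T.c (T.b (T.l 2) (T.a (T.a (T.l 816) (T.l 816)) (T.c (T.b (T.l 2) (T.a (T.a (T.a (T.a (T.l 816) (T.l 816)) (T.l 816)) (T.l 816)) (T.a (T.l 816) (T.a (T.l 816) (T.a (T.l 816) (T.l 816)))))) (T.b (T.l 2) (T.a (T.a (T.a (T.a (T.l 816) (T.l 816)) (T.l 816)) (T.l 816)) (T.a (T.l 816) (T.a (T.l 816) (T.a (T.l 816) (T.l 816))))))))) (T.a (T.l 816) (T.b (T.l 2) (T.c (T.b (T.l 2) (T.a (T.a (T.a (T.a (T.l 816) (T.l 816)) (T.l 816)) (T.l 816)) (T.a (T.l 816) (T.a (T.l 816) (T.a (T.l 816)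 (T.l 816)))))) (T.b (T.l 2) (T.a (T.a (T.a (T.a (T.l 816) (T.l 816)) (T.l 816)) (T.l 816)) (T.a (T.l 816) (T.a (T.l 816) (T.a (T.l 816) (T.l 816)))))))))) (T.c (T.b (T.l 2) (T.a (T.c (T.b (T.l 2) (T.a (T.c (T.b (T.l 2) (T.a (T.a (T.l 816) (T.l 816)) (T.a (T.l 816) (T.l 816)))) (T.b (T.l 2) (T.a (T.a (T.l 816) (T.l 816)) (T.a (T.l 816) (T.l 816))))) (T.c (T.b (T.l 2) (T.a (T.a (T.l 816) (T.l 816)) (T.a (T.l 816) (T.l 816)))) (T.b (T.l 2) (T.a (T.a (T.l 816) (T.l 816)) (T.a (T.l 816) (T.l 816))))))) (T.b (T.l 2) (T.a (T.c (T.b (T.l 2) (T.a (T.a (T.l 816) (T.l 816)) (T.a (T.l 816) (T.l 816)))) (T.b (T.l 2) (T.a (T.a (T.l 816) (T.l 816)) (T.a (T.l 816) (T.l 816))))) (T.c (T.b (T.l 2) (T.a (T.a (T.l 816) (T.l 816)) (T.a (T.l 816) (T.l 816)))) (T.b (T.l 2) (T.a (T.a (T.l 816) (T.l 816)) (T.a (T.l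 816) (T.l 816)))))))) (T.c (T.b (T.l 2) (T.a (T.c (T.b (T.l 2) (T.a (T.a (T.l 816) (T.l 816)) (T.a (T.l 816) (T.l 880)))) (T.b (T.l 2) (T.a (T.a (T.l 816) (T.l 816)) (T.a (T.l 816) (T.l 880))))) (T.c (T.b (T.l 2) (T.a (T.a (T.l 880) (T.l 880)) (T.c (T.a (T.l 880) (T.l 884)) (T.a (T.l 880) (T.l 884))))) (T.b (T.l 2) (T.a (T.a (T.l 880) (T.l 880)) (T.a (T.l 880) (T.l 884))))))) (T.b (T.l 2) (T.a (T.c (T.b (T.l 2) (T.a (T.a (T.l 816) (T.l 816)) (T.a (T.l 816) (T.l 880)))) (T.b (T.l 2) (T.a (T.a (T.l 816) (T.l 816)) (T.a (T.l 816) (T.l 880))))) (T.c (T.b (T.l 2) (T.a (T.a (T.l 880) (T.l 880)) (T.a (T.l 880) (T.l 884)))) (T.b (T.l 2) (T.a (T.a (T.l 880) (T.l 880)) (T.a (T.l 880) (T.l 884)))))))))) (T.b (T.l 2) (T.a (T.c (T.b (T.l 2) (T.a (T.c (T.b (T.l 2) (T.a (T.a (T.l 816) (T.l 816)) (T.a (T.l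 816) (T.l 816)))) (T.b (T.l 2) (T.a (T.a (T.l 816) (T.l 816)) (T.a (T.l 816) (T.l 816))))) (T.c (T.b (T.l 2) (T.a (T.a (T.l 816) (T.l 816)) (T.a (T.l 816) (T.l 816)))) (T.b (T.l 2) (T.a (T.a (T.l 816) (T.l 816)) (T.a (T.l 816) (T.l 816))))))) (T.b (T.l 2) (T.a (T.c (T.b (T.l 2) (T.a (T.a (T.l 816) (T.l 816)) (T.a (T.l 816) (T.l 816)))) (T.b (T.l 2) (T.a (T.a (T.l 816) (T.l 816)) (T.a (T.l 816) (T.l 816))))) (T.c (T.b (T.l 2) (T.a (T.a (T.l 816) (T.l 816)) (T.a (T.l 816) (T.l 816)))) (T.b (T.l 2) (T.a (T.a (T.l 816) (T.l 816)) (T.a (T.l 816) (T.l 816)))))))) (T.c (T.b (T.l 2) (T.a (T.c (T.b (T.l 2) (T.a (T.a (T.l 816) (T.l 816)) (T.a (T.l 816) (T.l 816)))) (T.b (T.l 2) (T.a (T.a (T.l 816) (T.l 816)) (T.a (T.l 816) (T.l 816))))) (T.c (T.b (T.l 2) (T.a (T.a (T.l 880) (T.l 880)) (T.a (T.l 880) (T.l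 884)))) (T.b (T.l 2) (T.a (T.a (T.l 816) (T.l 880)) (T.a (T.l 880) (T.l 884))))))) (T.b (T.l 2) (T.a (T.c (T.b (T.l 2) (T.a (T.a (T.l 816) (T.l 816)) (T.a (T.l 816) (T.l 816)))) (T.b (T.l 2) (T.a (T.a (T.l 816) (T.l 816)) (T.a (T.l 816) (T.l 816))))) (T.c (T.b (T.l 2) (T.a (T.a (T.l 816) (T.l 816)) (T.a (T.l 880) (T.l 884)))) (T.b (T.l 2) (T.a (T.a (T.l 816) (T.l 816)) (T.a (T.l 880) (T.l 884))))))))))))), by decide +kernel⟩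

def A022E_011_2_511_3 :
    ∃ t, chk3 (onCell 0 33554432 0 1073741824 33554432 16777216 (corTK [[⟨0, 0, 1, 25165824⟩, ⟨1, 1, 0, 16777216⟩, ⟨2, 1, 1, 25165824⟩, ⟨0, 0, 0, 67108864⟩, ⟨0, 1, 0, 1056964608⟩, ⟨2, 1, 0, 67108864⟩, ⟨2, 2, 0, 1056964608⟩]] true 1 c0F cA022E gF0q0 gF1q2 gF1q2 gF2q2 true true)) t 2 511 3 = true :=
  ⟨(T.b (T.l 2) (T.a (T.c (T.a (T.l 816) (T.b (T.l 2) (T.c (T.b (T.l 2) (T.a (T.a (T.a (T.a (T.l 816) (T.l 816)) (T.l 816)) (T.l 816)) (T.a (T.l 816) (T.a (T.l 816) (T.a (T.l 816) (T.l 816)))))) (T.b (T.l 2) (T.a (T.a (T.a (T.a (T.l 816) (T.l 816)) (T.l 816)) (T.l 816)) (T.a (T.l 816) (T.a (T.l 816) (T.a (T.l 816) (T.l 816))))))))) (T.a (T.l 816) (T.b (T.l 2) (T.c (T.b (T.l 2) (T.a (T.a (T.a (T.a (T.l 816) (T.l 816)) (T.l 816)) (T.l 816)) (T.a (T.l 816) (T.a (T.l 816) (T.a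 (T.l 816) (T.l 816)))))) (T.b (T.l 2) (T.a (T.a (T.a (T.a (T.l 816) (T.l 816)) (T.l 816)) (T.l 816)) (T.a (T.l 816) (T.a (T.l 816) (T.a (T.l 816) (T.l 816)))))))))) (T.c (T.b (T.l 2) (T.a (T.c (T.b (T.l 2) (T.a (T.c (T.b (T.l 2) (T.a (T.a (T.l 816) (T.l 816)) (T.a (T.l 816) (T.l 816)))) (T.b (T.l 2) (T.a (T.a (T.l 816) (T.l 816)) (T.a (T.l 816) (T.l 816))))) (T.c (T.b (T.l 2) (T.a (T.a (T.l 816) (T.l 816)) (T.a (T.l 816) (T.l 816)))) (T.b (T.l 2) (T.a (T.a (T.l 816) (T.l 816)) (T.a (T.l 816) (T.l 816))))))) (T.b (T.l 2) (T.a (T.c (T.b (T.l 2) (T.a (T.a (T.l 816) (T.l 816)) (T.a (T.l 816) (T.l 816)))) (T.b (T.l 2) (T.a (T.a (T.l 816) (T.l 816)) (T.a (T.l 816) (T.l 816))))) (T.c (T.b (T.l 2) (T.a (T.a (T.l 816) (T.l 816)) (T.a (T.l 816) (T.l 816)))) (T.b (T.l 2) (T.a (T.a (T.l 816) (T.l 816))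 (T.a (T.l 816) (T.l 816)))))))) (T.c (T.b (T.l 2) (T.a (T.c (T.b (T.l 2) (T.a (T.a (T.l 816) (T.l 816)) (T.a (T.l 816) (T.l 816)))) (T.b (T.l 2) (T.a (T.a (T.l 816) (T.l 816)) (T.a (T.l 816) (T.l 816))))) (T.c (T.b (T.l 2) (T.a (T.a (T.l 816) (T.l 816)) (T.a (T.l 880) (T.l 884)))) (T.b (T.l 2) (T.a (T.a (T.l 816) (T.l 816)) (T.a (T.l 816) (T.l 820))))))) (T.b (T.l 2) (T.a (T.c (T.b (T.l 2) (T.a (T.a (T.l 816) (T.l 816)) (T.a (T.l 816) (T.l 816)))) (T.a (T.l 880) (T.a (T.l 816) (T.l 816)))) (T.c (T.b (T.l 2) (T.a (T.a (T.l 816) (T.l 816)) (T.a (T.l 816) (T.l 816)))) (T.b (T.l 2) (T.a (T.a (T.l 816) (T.l 816)) (T.a (T.l 816) (T.l 816)))))))))) (T.b (T.l 2) (T.a (T.c (T.b (T.l 2) (T.a (T.c (T.b (T.l 2) (T.a (T.a (T.l 816) (T.l 816)) (T.a (T.l 816) (T.l 816)))) (T.b (T.l 2) (T.a (T.a (T.l 816) (T.l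 816)) (T.a (T.l 816) (T.l 816))))) (T.c (T.b (T.l 2) (T.a (T.a (T.l 816) (T.l 816)) (T.a (T.l 816) (T.l 816)))) (T.a (T.a (T.l 816) (T.l 816)) (T.l 880))))) (T.b (T.l 2) (T.a (T.c (T.b (T.l 2) (T.a (T.a (T.l 816) (T.l 816)) (T.a (T.l 816) (T.l 816)))) (T.b (T.l 2) (T.a (T.a (T.l 816) (T.l 816)) (T.a (T.l 816) (T.l 816))))) (T.c (T.a (T.a (T.l 816) (T.l 816)) (T.l 880)) (T.a (T.a (T.l 816) (T.l 816)) (T.l 880)))))) (T.c (T.b (T.l 2) (T.a (T.c (T.a (T.l 880) (T.a (T.l 816) (T.l 816))) (T.a (T.l 880) (T.a (T.l 816) (T.l 816)))) (T.c (T.b (T.l 2) (T.a (T.a (T.l 816) (T.l 816)) (T.a (T.l 816) (T.l 816)))) (T.b (T.l 2) (T.a (T.a (T.l 816) (T.l 816)) (T.a (T.l 816) (T.l 816))))))) (T.b (T.l 2) (T.a (T.c (T.a (T.l 880) (T.a (T.l 816) (T.l 816))) (T.a (T.l 880) (T.a (T.l 816) (T.l 816)))) (T.c (T.a (T.l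 880) (T.a (T.l 816) (T.l 816))) (T.a (T.l 880) (T.a (T.l 816) (T.l 816)))))))))))), by decide +kernel⟩

def A022E_011_3_511_1 :
    ∃ t, chk3 (onCell 0 33554432 0 1073741824 33554432 16777216 (corTK [[⟨0, 0, 1, 25165824⟩, ⟨1, 1, 0, 16777216⟩, ⟨2, 1, 1, 25165824⟩, ⟨0, 0, 0, 67108864⟩, ⟨0, 1, 0, 1056964608⟩, ⟨2, 1, 0, 67108864⟩, ⟨2, 2, 0, 1056964608⟩]] true 1 c0F cA022E gF0q0 gF1q2 gF1q2 gF2q2 true true)) t 3 511 1 = true :=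
  ⟨(T.c (T.a (T.a (T.a (T.b (T.l 2) (T.a (T.c (T.b (T.l 2) (T.a (T.a (T.l 884) (T.l 1024)) (T.l 1024))) (T.b (T.l 2) (T.a (T.c (T.l 884) (T.l 884)) (T.l 1024)))) (T.l 1024))) (T.l 1024)) (T.l 1024)) (T.l 1024)) (T.b (T.l 2) (T.a (T.c (T.b (T.l 2) (T.a (T.c (T.b (T.l 2) (T.a (T.c (T.b (T.l 2) (T.a (T.a (T.l 884) (T.l 884)) (T.a (T.l 884) (T.l 1024)))) (T.b (T.l 2) (T.a (T.a (T.l 884) (T.l 884)) (T.a (T.l 884) (T.l 884))))) (T.a (T.a (T.l 884) (T.l 1024)) (T.l 1024)))) (T.b (T.l 2) (T.a (T.c (T.b (T.l 2) (T.a (T.a (T.l 816) (T.l 816)) (T.a (T.l 884) (T.l 884)))) (T.b (T.l 2) (T.a (T.a (T.l 816) (T.l 816)) (T.a (T.l 816) (T.l 884))))) (T.c (T.b (T.l 2) (T.a (T.a (T.l 884) (T.l 884)) (T.a (T.l 884) (T.l 1024)))) (T.b (T.l 2) (T.a (T.a (T.l 884) (T.l 884)) (T.a (T.l 884) (T.l 884)))))))) (T.a (T.a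 (T.a (T.l 884) (T.l 1024)) (T.l 1024)) (T.l 1024)))) (T.b (T.l 2) (T.a (T.c (T.b (T.l 2) (T.a (T.c (T.b (T.l 2) (T.a (T.a (T.l 816) (T.l 816)) (T.a (T.l 816) (T.l 816)))) (T.b (T.l 2) (T.a (T.a (T.l 816) (T.l 816)) (T.a (T.l 816) (T.l 816))))) (T.c (T.b (T.l 2) (T.a (T.a (T.l 816) (T.l 884)) (T.a (T.l 884) (T.l 884)))) (T.b (T.l 2) (T.a (T.a (T.l 816) (T.l 816)) (T.a (T.l 884) (T.l 884))))))) (T.b (T.l 2) (T.a (T.c (T.b (T.l 2) (T.a (T.a (T.l 816) (T.l 816)) (T.a (T.l 816) (T.l 816)))) (T.b (T.l 2) (T.a (T.a (T.l 816) (T.l 816)) (T.a (T.l 816) (T.l 816))))) (T.c (T.b (T.l 2) (T.a (T.a (T.l 816) (T.l 816)) (T.a (T.l 816) (T.l 884)))) (T.b (T.l 2) (T.a (T.a (T.l 816) (T.l 816)) (T.l 884))))))) (T.c (T.b (T.l 2) (T.a (T.c (T.b (T.l 2) (T.a (T.a (T.l 884) (T.l 884)) (T.a (T.l 884) (T.l 1024))))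 (T.b (T.l 2) (T.a (T.a (T.l 884) (T.l 884)) (T.a (T.l 884) (T.l 884))))) (T.a (T.a (T.l 884) (T.l 1024)) (T.l 1024)))) (T.b (T.l 2) (T.a (T.c (T.b (T.l 2) (T.a (T.a (T.l 884) (T.l 884)) (T.a (T.l 884) (T.l 884)))) (T.a (T.l 884) (T.l 884))) (T.c (T.b (T.l 2) (T.a (T.a (T.l 884) (T.l 884)) (T.a (T.l 884) (T.l 1024)))) (T.a (T.l 884) (T.a (T.l 884) (T.l 884)))))))))) (T.a (T.a (T.c (T.l 1024) (T.a (T.a (T.l 884) (T.l 1024)) (T.l 1024))) (T.l 1024)) (T.l 1024))))), by decide +kernel⟩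

theorem A022E_011_2_511_1 :
    ∃ t, chk3 (onCell 0 33554432 0 1073741824 33554432 16777216 (corTK [[⟨0, 0, 1, 25165824⟩, ⟨1, 1, 0, 16777216⟩, ⟨2, 1, 1, 25165824⟩, ⟨0, 0, 0, 67108864⟩, ⟨0, 1, 0, 1056964608⟩, ⟨2, 1, 0, 67108864⟩, ⟨2, 2, 0, 1056964608⟩]] true 1 c0F cA022E gF0q0 gF1q2 gF1q2 gF2q2 true true)) t 2 511 1 = true :=
  ex3_c A022E_011_2_511_2 A022E_011_2_511_3
theorem A022E_011_1_511_1 :
    ∃ t, chk3 (onCell 0 33554432 0 1073741824 33554432 16777216 (corTK [[⟨0, 0, 1, 25165824⟩, ⟨1, 1, 0, 16777216⟩, ⟨2, 1, 1, 25165824⟩, ⟨0, 0, 0, 67108864⟩, ⟨0, 1, 0, 1056964608⟩, ⟨2, 1, 0, 67108864⟩, ⟨2, 2, 0, 1056964608⟩]] true 1 c0F cA022E gF0q0 gF1q2 gF1q2 gF2q2 true true)) t 1 511 1 = true :=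
  ex3_a A022E_011_2_511_1 A022E_011_3_511_1
theorem A022E_011_1_255_1 :
    ∃ t, chk3 (onCell 0 33554432 0 1073741824 33554432 16777216 (corTK [[⟨0, 0, 1, 25165824⟩, ⟨1, 1, 0, 16777216⟩, ⟨2, 1, 1, 25165824⟩, ⟨0, 0, 0, 67108864⟩, ⟨0, 1, 0, 1056964608⟩, ⟨2, 1, 0, 67108864⟩, ⟨2, 2, 0, 1056964608⟩]] true 1 c0F cA022E gF0q0 gF1q2 gF1q2 gF2q2 true true)) t 1 255 1 = true :=
  ex3_b A022E_011_1_510_1 A022E_011_1_511_1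
theorem A022E_011_1_127_1 :
    ∃ t, chk3 (onCell 0 33554432 0 1073741824 33554432 16777216 (corTK [[⟨0, 0, 1, 25165824⟩, ⟨1, 1, 0, 16777216⟩, ⟨2, 1, 1, 25165824⟩, ⟨0, 0, 0, 67108864⟩, ⟨0, 1, 0, 1056964608⟩, ⟨2, 1, 0, 67108864⟩, ⟨2, 2, 0, 1056964608⟩]] true 1 c0F cA022E gF0q0 gF1q2 gF1q2 gF2q2 true true)) t 1 127 1 = true :=
  ex3_b A022E_011_1_254_1 A022E_011_1_255_1
theorem A022E_011_1_63_1 :
    ∃ t, chk3 (onCell 0 33554432 0 1073741824 33554432 16777216 (corTK [[⟨0, 0, 1, 25165824⟩, ⟨1, 1, 0, 16777216⟩, ⟨2, 1, 1, 25165824⟩, ⟨0, 0, 0, 67108864⟩, ⟨0, 1, 0, 1056964608⟩, ⟨2, 1, 0, 67108864⟩, ⟨2, 2, 0, 1056964608⟩]] true 1 c0F cA022E gF0q0 gF1q2 gF1q2 gF2q2 true true)) t 1 63 1 = true :=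
  ex3_b A022E_011_1_126_1 A022E_011_1_127_1
theorem A022E_011_1_31_1 :
    ∃ t, chk3 (onCell 0 33554432 0 1073741824 33554432 16777216 (corTK [[⟨0, 0, 1, 25165824⟩, ⟨1, 1, 0, 16777216⟩, ⟨2, 1, 1, 25165824⟩, ⟨0, 0, 0, 67108864⟩, ⟨0, 1, 0, 1056964608⟩, ⟨2, 1, 0, 67108864⟩, ⟨2, 2, 0, 1056964608⟩]] true 1 c0F cA022E gF0q0 gF1q2 gF1q2 gF2q2 true true)) t 1 31 1 = true :=
  ex3_b A022E_011_1_62_1 A022E_011_1_63_1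
theorem A022E_011_1_15_1 :
    ∃ t, chk3 (onCell 0 33554432 0 1073741824 33554432 16777216 (corTK [[⟨0, 0, 1, 25165824⟩, ⟨1, 1, 0, 16777216⟩, ⟨2, 1, 1, 25165824⟩, ⟨0, 0, 0, 67108864⟩, ⟨0, 1, 0, 1056964608⟩, ⟨2, 1, 0, 67108864⟩, ⟨2, 2, 0, 1056964608⟩]] true 1 c0F cA022E gF0q0 gF1q2 gF1q2 gF2q2 true true)) t 1 15 1 = true :=
  ex3_b A022E_011_1_30_1 A022E_011_1_31_1
theorem A022E_011_1_7_1 :
    ∃ t, chk3 (onCell 0 33554432 0 1073741824 33554432 16777216 (corTK [[⟨0, 0, 1, 25165824⟩, ⟨1, 1, 0, 16777216⟩, ⟨2, 1, 1, 25165824⟩, ⟨0, 0, 0, 67108864⟩, ⟨0, 1, 0, 1056964608⟩, ⟨2, 1, 0, 67108864⟩, ⟨2, 2, 0, 1056964608⟩]] true 1 c0F cA022E gF0q0 gF1q2 gF1q2 gF2q2 true true)) t 1 7 1 = true :=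
  ex3_b A022E_011_1_14_1 A022E_011_1_15_1
theorem A022E_011_1_3_1 :
    ∃ t, chk3 (onCell 0 33554432 0 1073741824 33554432 16777216 (corTK [[⟨0, 0, 1, 25165824⟩, ⟨1, 1, 0, 16777216⟩, ⟨2, 1, 1, 25165824⟩, ⟨0, 0, 0, 67108864⟩, ⟨0, 1, 0, 1056964608⟩, ⟨2, 1, 0, 67108864⟩, ⟨2, 2, 0, 1056964608⟩]] true 1 c0F cA022E gF0q0 gF1q2 gF1q2 gF2q2 true true)) t 1 3 1 = true :=
  ex3_b A022E_011_1_6_1 A022E_011_1_7_1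
theorem A022E_011 :
    ∃ t, chk3 (onCell 0 33554432 0 1073741824 33554432 16777216 (corTK [[⟨0, 0, 1, 25165824⟩, ⟨1, 1, 0, 16777216⟩, ⟨2, 1, 1, 25165824⟩, ⟨0, 0, 0, 67108864⟩, ⟨0, 1, 0, 1056964608⟩, ⟨2, 1, 0, 67108864⟩, ⟨2, 2, 0, 1056964608⟩]] true 1 c0F cA022E gF0q0 gF1q2 gF1q2 gF2q2 true true)) t 1 1 1 = true :=
  ex3_b A022E_011_1_2_1 A022E_011_1_3_1

def A022E_012_1_2_1 :
    ∃ t, chk3 (onCell 0 33554432 0 1073741824 33554432 16777216 (corTK [[⟨0, 0, 1, 25165824⟩, ⟨1, 1, 0, 16777216⟩, ⟨2, 1, 1, 25165824⟩, ⟨0, 0, 0, 67108864⟩, ⟨0, 1, 0, 1056964608⟩, ⟨2, 1, 0, 67108864⟩, ⟨2, 2, 0, 1056964608⟩]] true 1 c0F cA022E gF0q0 gF1q2 gF2q2 gF3q2 true false)) t 1 2 1 = true :=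
  ⟨(T.b (T.a (T.a (T.a (T.b (T.b (T.b (T.a (T.b (T.c (T.l 204) (T.l 204)) (T.l 204)) (T.l 204)) (T.l 204)) (T.l 204)) (T.l 204)) (T.a (T.b (T.c (T.l 204) (T.l 204)) (T.l 204)) (T.b (T.a (T.l 204) (T.b (T.l 204) (T.l 204))) (T.l 204)))) (T.a (T.b (T.a (T.a (T.l 204) (T.l 204)) (T.b (T.l 204) (T.l 204))) (T.a (T.b (T.l 204) (T.l 204)) (T.l 204))) (T.b (T.a (T.l 204) (T.l 204)) (T.b (T.l 204) (T.l 204))))) (T.a (T.a (T.b (T.l 204) (T.l 204)) (T.b (T.l 204) (T.l 204))) (T.b (T.a (T.l 204) (T.l 204)) (T.b (T.l 204) (T.l 204))))) (T.a (T.a (T.a (T.l 0) (T.a (T.l 0) (T.l 0))) (T.a (T.b (T.a (T.l 204) (T.l 0)) (T.l 0)) (T.b (T.b (T.l 204) (T.l 0)) (T.b (T.l 0) (T.l 0))))) (T.a (T.b (T.a (T.l 0) (T.l 0)) (T.a (T.l 0) (T.l 0))) (T.b (T.b (T.l 204) (T.l 0)) (T.b (T.l 0) (T.b (T.l 0) (T.l 0))))))), by decide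 +kernel⟩

def A022E_012_1_6_1 :
    ∃ t, chk3 (onCell 0 33554432 0 1073741824 33554432 16777216 (corTK [[⟨0, 0, 1, 25165824⟩, ⟨1, 1, 0, 16777216⟩, ⟨2, 1, 1, 25165824⟩, ⟨0, 0, 0, 67108864⟩, ⟨0, 1, 0, 1056964608⟩, ⟨2, 1, 0, 67108864⟩, ⟨2, 2, 0, 1056964608⟩]] true 1 c0F cA022E gF0q0 gF1q2 gF2q2 gF3q2 true false)) t 1 6 1 = true :=
  ⟨(T.a (T.a (T.a (T.l 816) (T.a (T.b (T.l 816) (T.l 816)) (T.l 0))) (T.a (T.b (T.l 816) (T.l 816)) (T.b (T.b (T.l 0) (T.l 816)) (T.l 816)))) (T.a (T.b (T.a (T.b (T.l 0) (T.l 816)) (T.b (T.l 0) (T.l 816))) (T.a (T.l 820) (T.b (T.l 820) (T.l 820)))) (T.b (T.b (T.b (T.l 0) (T.l 0)) (T.b (T.l 4) (T.l 4))) (T.b (T.a (T.l 820) (T.l 816)) (T.a (T.b (T.l 816) (T.l 816)) (T.l 820)))))), by decide +kernel⟩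

def A022E_012_1_14_1 :
    ∃ t, chk3 (onCell 0 33554432 0 1073741824 33554432 16777216 (corTK [[⟨0, 0, 1, 25165824⟩, ⟨1, 1, 0, 16777216⟩, ⟨2, 1, 1, 25165824⟩, ⟨0, 0, 0, 67108864⟩, ⟨0, 1, 0, 1056964608⟩, ⟨2, 1, 0, 67108864⟩, ⟨2, 2, 0, 1056964608⟩]] true 1 c0F cA022E gF0q0 gF1q2 gF2q2 gF3q2 true false)) t 1 14 1 = true :=
  ⟨(T.a (T.a (T.a (T.l 816) (T.a (T.b (T.l 816) (T.l 816)) (T.l 816))) (T.a (T.c (T.l 820) (T.l 816)) (T.b (T.l 816) (T.a (T.l 816) (T.l 816))))) (T.a (T.a (T.b (T.b (T.l 816) (T.l 820)) (T.a (T.l 820) (T.l 820))) (T.b (T.b (T.l 816) (T.l 816)) (T.a (T.l 820) (T.l 820)))) (T.c (T.l 1024) (T.b (T.a (T.l 816) (T.l 820)) (T.a (T.l 820) (T.l 820)))))), by decide +kernel⟩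

def A022E_012_1_30_1 :
    ∃ t, chk3 (onCell 0 33554432 0 1073741824 33554432 16777216 (corTK [[⟨0, 0, 1, 25165824⟩, ⟨1, 1, 0, 16777216⟩, ⟨2, 1, 1, 25165824⟩, ⟨0, 0, 0, 67108864⟩, ⟨0, 1, 0, 1056964608⟩, ⟨2, 1, 0, 67108864⟩, ⟨2, 2, 0, 1056964608⟩]] true 1 c0F cA022E gF0q0 gF1q2 gF2q2 gF3q2 true false)) t 1 30 1 = true :=
  ⟨(T.a (T.a (T.a (T.l 816) (T.a (T.c (T.l 816) (T.l 816)) (T.l 816))) (T.a (T.a (T.l 816) (T.l 816)) (T.a (T.l 816) (T.c (T.l 820) (T.l 816))))) (T.a (T.a (T.a (T.b (T.l 820) (T.b (T.l 816) (T.l 820))) (T.b (T.l 816) (T.b (T.l 816) (T.l 820)))) (T.c (T.l 1024) (T.a (T.l 820) (T.l 820)))) (T.a (T.c (T.l 1024) (T.a (T.l 820) (T.l 820))) (T.l 1024)))), by decide +kernel⟩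

def A022E_012_1_62_1 :
    ∃ t, chk3 (onCell 0 33554432 0 1073741824 33554432 16777216 (corTK [[⟨0, 0, 1, 25165824⟩, ⟨1, 1, 0, 16777216⟩, ⟨2, 1, 1, 25165824⟩, ⟨0, 0, 0, 67108864⟩, ⟨0, 1, 0, 1056964608⟩, ⟨2, 1, 0, 67108864⟩, ⟨2, 2, 0, 1056964608⟩]] true 1 c0F cA022E gF0q0 gF1q2 gF2q2 gF3q2 true false)) t 1 62 1 = true :=
  ⟨(T.a (T.a (T.a (T.l 816) (T.a (T.a (T.b (T.l 816) (T.l 816)) (T.l 816)) (T.c (T.l 816) (T.l 816)))) (T.a (T.a (T.l 816) (T.l 816)) (T.a (T.l 820) (T.c (T.b (T.l 816) (T.l 820)) (T.l 820))))) (T.a (T.a (T.a (T.a (T.b (T.l 816) (T.l 820)) (T.b (T.l 816) (T.l 820))) (T.b (T.l 820) (T.c (T.l 1024) (T.l 820)))) (T.c (T.l 1024) (T.a (T.b (T.l 816) (T.l 820)) (T.l 820)))) (T.a (T.a (T.c (T.l 1024) (T.l 820)) (T.l 1024)) (T.l 1024)))), by decide +kernel⟩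

def A022E_012_1_126_1 :
    ∃ t, chk3 (onCell 0 33554432 0 1073741824 33554432 16777216 (corTK [[⟨0, 0, 1, 25165824⟩, ⟨1, 1, 0, 16777216⟩, ⟨2, 1, 1, 25165824⟩, ⟨0, 0, 0, 67108864⟩, ⟨0, 1, 0, 1056964608⟩, ⟨2, 1, 0, 67108864⟩, ⟨2, 2, 0, 1056964608⟩]] true 1 c0F cA022E gF0q0 gF1q2 gF2q2 gF3q2 true false)) t 1 126 1 = true :=
  ⟨(T.b (T.b (T.a (T.a (T.a (T.l 816) (T.a (T.a (T.l 816) (T.l 816)) (T.c (T.l 816) (T.l 816)))) (T.a (T.a (T.l 816) (T.l 816)) (T.a (T.c (T.l 816) (T.l 816)) (T.c (T.l 820) (T.l 816))))) (T.a (T.a (T.a (T.c (T.l 820) (T.l 820)) (T.c (T.l 1024) (T.l 816))) (T.a (T.c (T.l 1024) (T.l 816)) (T.l 820))) (T.a (T.a (T.l 820) (T.l 1024)) (T.l 1024)))) (T.a (T.a (T.a (T.l 816) (T.a (T.a (T.c (T.l 816) (T.l 816)) (T.l 816)) (T.c (T.l 816) (T.l 816)))) (T.a (T.a (T.l 816) (T.l 816))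 (T.a (T.c (T.l 816) (T.l 816)) (T.a (T.l 816) (T.l 820))))) (T.a (T.a (T.a (T.a (T.l 820) (T.l 816)) (T.c (T.l 1024) (T.l 820))) (T.c (T.l 1024) (T.a (T.l 820) (T.l 816)))) (T.a (T.a (T.l 820) (T.l 1024)) (T.l 1024))))) (T.b (T.a (T.a (T.a (T.l 816) (T.a (T.a (T.c (T.l 816) (T.l 816)) (T.l 816)) (T.a (T.l 816) (T.l 816)))) (T.a (T.a (T.c (T.l 816) (T.l 816)) (T.l 816)) (T.a (T.c (T.l 816) (T.l 816)) (T.a (T.l 816) (T.l 820))))) (T.a (T.a (T.a (T.a (T.l 820) (T.l 820)) (T.c (T.l 1024) (T.l 820))) (T.c (T.l 1024) (T.a (T.l 820) (T.l 820)))) (T.a (T.a (T.c (T.l 1024) (T.l 820)) (T.l 1024)) (T.l 1024)))) (T.a (T.c (T.a (T.a (T.l 816) (T.a (T.a (T.l 816) (T.l 816)) (T.c (T.l 816) (T.l 816)))) (T.a (T.a (T.l 816) (T.l 816)) (T.a (T.l 884) (T.a (T.l 816) (T.l 820))))) (T.b (T.a (T.a (T.l 816) (T.a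 (T.a (T.l 816) (T.l 816)) (T.c (T.l 816) (T.l 816)))) (T.a (T.a (T.l 816) (T.l 816)) (T.a (T.l 816) (T.a (T.l 816) (T.l 816))))) (T.a (T.a (T.l 816) (T.a (T.a (T.l 816) (T.l 816)) (T.c (T.l 816) (T.l 816)))) (T.a (T.a (T.l 816) (T.l 816)) (T.a (T.l 816) (T.a (T.l 816) (T.l 816))))))) (T.a (T.a (T.a (T.a (T.c (T.l 820) (T.l 816)) (T.l 820)) (T.a (T.l 820) (T.l 820))) (T.c (T.l 1024) (T.a (T.l 820) (T.l 820)))) (T.a (T.a (T.c (T.l 1024) (T.l 820)) (T.l 1024)) (T.l 1024)))))), by decide +kernel⟩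

def A022E_012_1_127_1 :
    ∃ t, chk3 (onCell 0 33554432 0 1073741824 33554432 16777216 (corTK [[⟨0, 0, 1, 25165824⟩, ⟨1, 1, 0, 16777216⟩, ⟨2, 1, 1, 25165824⟩, ⟨0, 0, 0, 67108864⟩, ⟨0, 1, 0, 1056964608⟩, ⟨2, 1, 0, 67108864⟩, ⟨2, 2, 0, 1056964608⟩]] true 1 c0F cA022E gF0q0 gF1q2 gF2q2 gF3q2 true false)) t 1 127 1 = true :=
  ⟨(T.b (T.b (T.a (T.c (T.b (T.a (T.a (T.l 816) (T.a (T.a (T.l 816) (T.l 816)) (T.a (T.l 816) (T.l 816)))) (T.a (T.a (T.l 816) (T.l 816)) (T.a (T.l 884) (T.a (T.l 816) (T.l 820))))) (T.a (T.a (T.l 816) (T.a (T.a (T.c (T.l 816) (T.l 816)) (T.l 816)) (T.a (T.l 816) (T.l 816)))) (T.a (T.a (T.l 816) (T.l 816)) (T.a (T.c (T.l 816) (T.l 816)) (T.a (T.l 816) (T.l 820)))))) (T.b (T.a (T.a (T.l 816) (T.a (T.a (T.l 816) (T.l 816)) (T.c (T.l 880) (T.l 816)))) (T.a (T.a (T.l 816) (T.l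 816)) (T.a (T.l 816) (T.a (T.l 816) (T.l 816))))) (T.a (T.a (T.l 816) (T.a (T.a (T.l 816) (T.l 816)) (T.a (T.l 816) (T.l 816)))) (T.a (T.a (T.l 816) (T.l 816)) (T.a (T.l 880) (T.a (T.l 816) (T.l 816))))))) (T.a (T.a (T.a (T.a (T.c (T.l 820) (T.l 816)) (T.c (T.l 1024) (T.l 816))) (T.c (T.l 1024) (T.a (T.l 816) (T.l 816)))) (T.c (T.l 1024) (T.a (T.c (T.l 820) (T.l 820)) (T.c (T.l 1024) (T.l 820))))) (T.a (T.a (T.a (T.l 820) (T.l 1024)) (T.l 1024)) (T.l 1024)))) (T.a (T.c (T.b (T.a (T.a (T.l 816) (T.a (T.a (T.c (T.l 816) (T.l 816)) (T.l 816)) (T.a (T.l 816) (T.l 816)))) (T.a (T.a (T.l 880) (T.l 816)) (T.a (T.c (T.l 880) (T.l 816)) (T.a (T.l 816) (T.c (T.l 820) (T.l 816)))))) (T.a (T.a (T.l 816) (T.a (T.a (T.c (T.l 880) (T.l 816)) (T.l 816)) (T.a (T.l 816) (T.l 816)))) (T.a (T.a (T.c (T.l 816) (T.l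 816)) (T.l 880)) (T.a (T.a (T.l 816) (T.l 816)) (T.a (T.l 816) (T.c (T.l 820) (T.l 820))))))) (T.b (T.a (T.a (T.l 816) (T.a (T.a (T.c (T.l 816) (T.l 816)) (T.l 816)) (T.a (T.l 816) (T.l 816)))) (T.a (T.a (T.l 816) (T.l 816)) (T.a (T.c (T.l 816) (T.l 816)) (T.a (T.l 816) (T.l 820))))) (T.a (T.a (T.l 816) (T.a (T.a (T.c (T.l 816) (T.l 816)) (T.l 816)) (T.a (T.l 816) (T.l 816)))) (T.a (T.a (T.l 880) (T.l 816)) (T.a (T.c (T.l 880) (T.l 816)) (T.a (T.l 816) (T.l 820))))))) (T.a (T.a (T.a (T.a (T.a (T.l 820) (T.l 820)) (T.c (T.l 1024) (T.l 820))) (T.c (T.l 1024) (T.a (T.l 820) (T.l 820)))) (T.c (T.l 1024) (T.a (T.a (T.l 820) (T.l 820)) (T.a (T.l 820) (T.l 820))))) (T.a (T.a (T.c (T.l 1024) (T.a (T.l 820) (T.l 1024))) (T.l 1024)) (T.l 1024))))) (T.b (T.a (T.c (T.b (T.a (T.a (T.l 816) (T.a (T.a (T.a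 (T.l 816) (T.l 816)) (T.l 816)) (T.a (T.l 816) (T.c (T.l 816) (T.l 816))))) (T.a (T.a (T.c (T.l 816) (T.l 816)) (T.c (T.l 816) (T.l 816))) (T.a (T.a (T.l 816) (T.l 880)) (T.a (T.l 816) (T.a (T.l 816) (T.l 820)))))) (T.a (T.a (T.l 816) (T.a (T.a (T.a (T.c (T.l 816) (T.l 816)) (T.l 816)) (T.l 816)) (T.a (T.l 816) (T.c (T.l 816) (T.l 816))))) (T.a (T.a (T.a (T.l 816) (T.l 816)) (T.c (T.l 880) (T.l 816))) (T.a (T.a (T.l 816) (T.c (T.l 816) (T.l 816))) (T.a (T.l 880) (T.a (T.l 816) (T.l 820))))))) (T.b (T.a (T.a (T.l 816) (T.a (T.a (T.a (T.l 816) (T.l 816)) (T.l 816)) (T.a (T.l 816) (T.l 816)))) (T.a (T.a (T.c (T.l 816) (T.l 816)) (T.l 816)) (T.a (T.a (T.l 816) (T.l 816)) (T.a (T.l 816) (T.c (T.l 820) (T.l 816)))))) (T.a (T.a (T.l 816) (T.a (T.a (T.a (T.l 880) (T.l 816)) (T.l 816)) (T.a (T.l 816)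 (T.c (T.l 816) (T.l 816))))) (T.a (T.a (T.a (T.l 816) (T.l 816)) (T.c (T.l 816) (T.l 816))) (T.a (T.a (T.l 816) (T.l 816)) (T.a (T.l 816) (T.c (T.l 820) (T.l 820)))))))) (T.a (T.a (T.a (T.a (T.c (T.a (T.l 884) (T.l 1024)) (T.c (T.l 820) (T.l 820))) (T.c (T.l 1024) (T.c (T.l 820) (T.l 820)))) (T.c (T.l 1024) (T.a (T.c (T.l 820) (T.l 820)) (T.c (T.l 884) (T.l 820))))) (T.c (T.l 1024) (T.a (T.a (T.c (T.l 884) (T.l 820)) (T.c (T.l 1024) (T.l 820))) (T.a (T.l 884) (T.l 884))))) (T.a (T.a (T.c (T.l 1024) (T.a (T.l 884) (T.l 1024))) (T.l 1024)) (T.l 1024)))) (T.a (T.c (T.b (T.a (T.a (T.l 816) (T.a (T.a (T.a (T.a (T.l 816) (T.l 816)) (T.l 816)) (T.l 816)) (T.a (T.l 816) (T.a (T.l 816) (T.l 816))))) (T.a (T.a (T.a (T.l 816) (T.l 816)) (T.a (T.l 816) (T.l 816))) (T.a (T.a (T.l 880) (T.c (T.l 880) (T.l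 880))) (T.a (T.c (T.l 880) (T.l 880)) (T.a (T.l 880) (T.c (T.l 884) (T.l 820))))))) (T.a (T.a (T.a (T.l 816) (T.l 816)) (T.a (T.a (T.a (T.a (T.c (T.l 816) (T.l 816)) (T.l 816)) (T.l 816)) (T.c (T.l 816) (T.l 816))) (T.a (T.l 880) (T.a (T.l 816) (T.c (T.l 816) (T.l 816)))))) (T.a (T.a (T.a (T.c (T.l 816) (T.l 816)) (T.c (T.l 816) (T.l 816))) (T.a (T.c (T.l 816) (T.l 816)) (T.c (T.l 816) (T.l 816)))) (T.a (T.a (T.c (T.l 880) (T.l 816)) (T.a (T.l 880) (T.c (T.l 880) (T.l 880)))) (T.a (T.c (T.a (T.l 880) (T.l 880)) (T.c (T.l 880) (T.l 880))) (T.a (T.c (T.l 880) (T.l 880)) (T.c (T.c (T.l 884) (T.l 884)) (T.l 884)))))))) (T.b (T.a (T.a (T.l 816) (T.a (T.a (T.a (T.c (T.l 816) (T.l 816)) (T.l 816)) (T.l 816)) (T.a (T.l 816) (T.a (T.l 816) (T.l 816))))) (T.a (T.a (T.a (T.l 816) (T.l 816)) (T.c (T.l 880)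 (T.l 816))) (T.a (T.a (T.l 816) (T.c (T.l 816) (T.l 816))) (T.a (T.l 880) (T.a (T.l 816) (T.l 820)))))) (T.a (T.a (T.a (T.l 816) (T.l 816)) (T.a (T.a (T.a (T.a (T.c (T.l 816) (T.l 816)) (T.l 816)) (T.l 816)) (T.c (T.l 816) (T.l 816))) (T.a (T.l 816) (T.a (T.l 816) (T.c (T.l 816) (T.l 816)))))) (T.a (T.a (T.a (T.c (T.l 816) (T.l 816)) (T.l 816)) (T.a (T.l 816) (T.l 816))) (T.a (T.a (T.l 880) (T.a (T.l 816) (T.l 880))) (T.a (T.c (T.l 880) (T.l 880)) (T.a (T.l 880) (T.c (T.l 884) (T.l 816))))))))) (T.c (T.a (T.a (T.a (T.a (T.a (T.c (T.a (T.l 884) (T.l 1024)) (T.l 884)) (T.l 1024)) (T.l 1024)) (T.l 1024)) (T.l 1024)) (T.l 1024)) (T.b (T.a (T.a (T.a (T.a (T.a (T.l 820) (T.l 820)) (T.c (T.l 884) (T.l 884))) (T.a (T.c (T.l 884) (T.l 884)) (T.c (T.l 884) (T.l 884)))) (T.a (T.a (T.c (T.l 884) (T.l 884))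 (T.c (T.l 1024) (T.l 884))) (T.c (T.l 1024) (T.a (T.l 884) (T.l 884))))) (T.a (T.a (T.a (T.c (T.l 1024) (T.l 884)) (T.l 1024)) (T.l 1024)) (T.l 1024))) (T.a (T.a (T.a (T.a (T.a (T.l 884) (T.l 884)) (T.a (T.l 884) (T.l 884))) (T.a (T.a (T.l 884) (T.l 884)) (T.a (T.l 884) (T.l 884)))) (T.a (T.a (T.a (T.l 884) (T.l 884)) (T.c (T.l 1024) (T.c (T.l 884) (T.l 884)))) (T.c (T.l 1024) (T.a (T.c (T.l 884) (T.l 884)) (T.c (T.l 1024) (T.l 884)))))) (T.a (T.a (T.a (T.c (T.l 1024) (T.c (T.l 1024) (T.l 884))) (T.l 1024)) (T.l 1024)) (T.l 1024)))))))), by decide +kernel⟩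

theorem A022E_012_1_63_1 :
    ∃ t, chk3 (onCell 0 33554432 0 1073741824 33554432 16777216 (corTK [[⟨0, 0, 1, 25165824⟩, ⟨1, 1, 0, 16777216⟩, ⟨2, 1, 1, 25165824⟩, ⟨0, 0, 0, 67108864⟩, ⟨0, 1, 0, 1056964608⟩, ⟨2, 1, 0, 67108864⟩, ⟨2, 2, 0, 1056964608⟩]] true 1 c0F cA022E gF0q0 gF1q2 gF2q2 gF3q2 true false)) t 1 63 1 = true :=
  ex3_b A022E_012_1_126_1 A022E_012_1_127_1
theorem A022E_012_1_31_1 :
    ∃ t, chk3 (onCell 0 33554432 0 1073741824 33554432 16777216 (corTK [[⟨0, 0, 1, 25165824⟩, ⟨1, 1, 0, 16777216⟩, ⟨2, 1, 1, 25165824⟩, ⟨0, 0, 0, 67108864⟩, ⟨0, 1, 0, 1056964608⟩, ⟨2, 1, 0, 67108864⟩, ⟨2, 2, 0, 1056964608⟩]] true 1 c0F cA022E gF0q0 gF1q2 gF2q2 gF3q2 true false)) t 1 31 1 = true :=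
  ex3_b A022E_012_1_62_1 A022E_012_1_63_1
theorem A022E_012_1_15_1 :
    ∃ t, chk3 (onCell 0 33554432 0 1073741824 33554432 16777216 (corTK [[⟨0, 0, 1, 25165824⟩, ⟨1, 1, 0, 16777216⟩, ⟨2, 1, 1, 25165824⟩, ⟨0, 0, 0, 67108864⟩, ⟨0, 1, 0, 1056964608⟩, ⟨2, 1, 0, 67108864⟩, ⟨2, 2, 0, 1056964608⟩]] true 1 c0F cA022E gF0q0 gF1q2 gF2q2 gF3q2 true false)) t 1 15 1 = true :=
  ex3_b A022E_012_1_30_1 A022E_012_1_31_1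
theorem A022E_012_1_7_1 :
    ∃ t, chk3 (onCell 0 33554432 0 1073741824 33554432 16777216 (corTK [[⟨0, 0, 1, 25165824⟩, ⟨1, 1, 0, 16777216⟩, ⟨2, 1, 1, 25165824⟩, ⟨0, 0, 0, 67108864⟩, ⟨0, 1, 0, 1056964608⟩, ⟨2, 1, 0, 67108864⟩, ⟨2, 2, 0, 1056964608⟩]] true 1 c0F cA022E gF0q0 gF1q2 gF2q2 gF3q2 true false)) t 1 7 1 = true :=
  ex3_b A022E_012_1_14_1 A022E_012_1_15_1
theorem A022E_012_1_3_1 :
    ∃ t, chk3 (onCell 0 33554432 0 1073741824 33554432 16777216 (corTK [[⟨0, 0, 1, 25165824⟩, ⟨1, 1, 0, 16777216⟩, ⟨2, 1, 1, 25165824⟩, ⟨0, 0, 0, 67108864⟩, ⟨0, 1, 0, 1056964608⟩, ⟨2, 1, 0, 67108864⟩, ⟨2, 2, 0, 1056964608⟩]] true 1 c0F cA022E gF0q0 gF1q2 gF2q2 gF3q2 true false)) t 1 3 1 = true :=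
  ex3_b A022E_012_1_6_1 A022E_012_1_7_1
theorem A022E_012 :
    ∃ t, chk3 (onCell 0 33554432 0 1073741824 33554432 16777216 (corTK [[⟨0, 0, 1, 25165824⟩, ⟨1, 1, 0, 16777216⟩, ⟨2, 1, 1, 25165824⟩, ⟨0, 0, 0, 67108864⟩, ⟨0, 1, 0, 1056964608⟩, ⟨2, 1, 0, 67108864⟩, ⟨2, 2, 0, 1056964608⟩]] true 1 c0F cA022E gF0q0 gF1q2 gF2q2 gF3q2 true false)) t 1 1 1 = true :=
  ex3_b A022E_012_1_2_1 A022E_012_1_3_1

def A022E_020 :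
    ∃ t, chk3 (onCell 0 33554432 0 1073741824 33554432 16777216 (corTK [[⟨0, 0, 1, 25165824⟩, ⟨1, 1, 0, 16777216⟩, ⟨2, 1, 1, 25165824⟩, ⟨0, 0, 0, 67108864⟩, ⟨0, 1, 0, 1056964608⟩, ⟨2, 1, 0, 67108864⟩, ⟨2, 2, 0, 1056964608⟩]] true 1 c0F cA022E gF0q0 gF2q2 gF0q2 gF1q2 true true)) t 1 1 1 = true :=
  ⟨(T.l 2), by decide +kernel⟩

def A022E_021_1_2_1 :
    ∃ t, chk3 (onCell 0 33554432 0 1073741824 33554432 16777216 (corTK [[⟨0, 0, 1, 25165824⟩, ⟨1, 1, 0, 16777216⟩, ⟨2, 1, 1, 25165824⟩, ⟨0, 0, 0, 67108864⟩, ⟨0, 1, 0, 1056964608⟩, ⟨2, 1, 0, 67108864⟩, ⟨2, 2, 0, 1056964608⟩]] true 1 c0F cA022E gF0q0 gF2q2 gF1q2 gF2q2 true true)) t 1 2 1 = true :=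
  ⟨(T.a (T.a (T.a (T.b (T.b (T.b (T.l 204) (T.l 204)) (T.l 204)) (T.l 0)) (T.l 2)) (T.l 2)) (T.l 2)), by decide +kernel⟩

def A022E_021_1_6_1 :
    ∃ t, chk3 (onCell 0 33554432 0 1073741824 33554432 16777216 (corTK [[⟨0, 0, 1, 25165824⟩, ⟨1, 1, 0, 16777216⟩, ⟨2, 1, 1, 25165824⟩, ⟨0, 0, 0, 67108864⟩, ⟨0, 1, 0, 1056964608⟩, ⟨2, 1, 0, 67108864⟩, ⟨2, 2, 0, 1056964608⟩]] true 1 c0F cA022E gF0q0 gF2q2 gF1q2 gF2q2 true true)) t 1 6 1 = true :=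
  ⟨(T.a (T.a (T.a (T.l 816) (T.l 2)) (T.l 2)) (T.l 2)), by decide +kernel⟩

def A022E_021_1_14_1 :
    ∃ t, chk3 (onCell 0 33554432 0 1073741824 33554432 16777216 (corTK [[⟨0, 0, 1, 25165824⟩, ⟨1, 1, 0, 16777216⟩, ⟨2, 1, 1, 25165824⟩, ⟨0, 0, 0, 67108864⟩, ⟨0, 1, 0, 1056964608⟩, ⟨2, 1, 0, 67108864⟩, ⟨2, 2, 0, 1056964608⟩]] true 1 c0F cA022E gF0q0 gF2q2 gF1q2 gF2q2 true true)) t 1 14 1 = true :=
  ⟨(T.a (T.a (T.a (T.l 816) (T.l 2)) (T.l 2)) (T.l 2)), by decide +kernel⟩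

def A022E_021_1_30_1 :
    ∃ t, chk3 (onCell 0 33554432 0 1073741824 33554432 16777216 (corTK [[⟨0, 0, 1, 25165824⟩, ⟨1, 1, 0, 16777216⟩, ⟨2, 1, 1, 25165824⟩, ⟨0, 0, 0, 67108864⟩, ⟨0, 1, 0, 1056964608⟩, ⟨2, 1, 0, 67108864⟩, ⟨2, 2, 0, 1056964608⟩]] true 1 c0F cA022E gF0q0 gF2q2 gF1q2 gF2q2 true true)) t 1 30 1 = true :=
  ⟨(T.a (T.a (T.a (T.l 816) (T.l 2)) (T.l 2)) (T.l 2)), by decide +kernel⟩

def A022E_021_1_62_1 :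
    ∃ t, chk3 (onCell 0 33554432 0 1073741824 33554432 16777216 (corTK [[⟨0, 0, 1, 25165824⟩, ⟨1, 1, 0, 16777216⟩, ⟨2, 1, 1, 25165824⟩, ⟨0, 0, 0, 67108864⟩, ⟨0, 1, 0, 1056964608⟩, ⟨2, 1, 0, 67108864⟩, ⟨2, 2, 0, 1056964608⟩]] true 1 c0F cA022E gF0q0 gF2q2 gF1q2 gF2q2 true true)) t 1 62 1 = true :=
  ⟨(T.a (T.a (T.a (T.l 816) (T.l 2)) (T.l 2)) (T.l 2)), by decide +kernel⟩

def A022E_021_2_126_1 :
    ∃ t, chk3 (onCell 0 33554432 0 1073741824 33554432 16777216 (corTK [[⟨0, 0, 1, 25165824⟩, ⟨1, 1, 0, 16777216⟩, ⟨2, 1, 1, 25165824⟩, ⟨0, 0, 0, 67108864⟩, ⟨0, 1, 0, 1056964608⟩, ⟨2, 1, 0, 67108864⟩, ⟨2, 2, 0, 1056964608⟩]] true 1 c0F cA022E gF0q0 gF2q2 gF1q2 gF2q2 true true)) t 2 126 1 = true :=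
  ⟨(T.a (T.a (T.l 816) (T.l 2)) (T.l 2)), by decide +kernel⟩

def A022E_021_4_127_1 :
    ∃ t, chk3 (onCell 0 33554432 0 1073741824 33554432 16777216 (corTK [[⟨0, 0, 1, 25165824⟩, ⟨1, 1, 0, 16777216⟩, ⟨2, 1, 1, 25165824⟩, ⟨0, 0, 0, 67108864⟩, ⟨0, 1, 0, 1056964608⟩, ⟨2, 1, 0, 67108864⟩, ⟨2, 2, 0, 1056964608⟩]] true 1 c0F cA022E gF0q0 gF2q2 gF1q2 gF2q2 true true)) t 4 127 1 = true :=
  ⟨(T.b (T.a (T.l 816) (T.l 2)) (T.a (T.a (T.l 816) (T.c (T.l 816) (T.l 816))) (T.b (T.l 2) (T.c (T.b (T.l 2) (T.c (T.b (T.l 2) (T.c (T.b (T.l 2) (T.a (T.a (T.a (T.a (T.l 816) (T.l 816)) (T.l 816)) (T.l 816)) (T.a (T.l 816) (T.a (T.l 816) (T.a (T.l 816) (T.l 816)))))) (T.b (T.l 2) (T.a (T.a (T.a (T.a (T.l 816) (T.l 816)) (T.l 816)) (T.l 816)) (T.a (T.l 816) (T.a (T.l 816) (T.a (T.l 816) (T.l 816)))))))) (T.b (T.l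 2) (T.c (T.b (T.l 2) (T.a (T.a (T.a (T.a (T.l 816) (T.l 816)) (T.l 816)) (T.l 816)) (T.a (T.l 816) (T.a (T.l 816) (T.a (T.l 816) (T.l 816)))))) (T.b (T.l 2) (T.a (T.a (T.a (T.a (T.l 816) (T.l 816)) (T.l 816)) (T.l 816)) (T.a (T.l 816) (T.a (T.l 816) (T.a (T.l 816) (T.l 816)))))))))) (T.b (T.l 2) (T.c (T.b (T.l 2) (T.c (T.b (T.l 2) (T.a (T.a (T.a (T.a (T.l 816) (T.l 816)) (T.l 816)) (T.l 816)) (T.a (T.l 816) (T.a (T.l 816) (T.a (T.l 816) (T.l 816)))))) (T.b (T.l 2) (T.a (T.a (T.a (T.a (T.l 816) (T.l 816)) (T.l 816)) (T.l 816)) (T.a (T.l 816) (T.a (T.l 816) (T.a (T.l 816) (T.l 816)))))))) (T.b (T.l 2) (T.c (T.b (T.l 2) (T.a (T.a (T.a (T.a (T.l 816) (T.l 816)) (T.l 816)) (T.l 816)) (T.a (T.l 816) (T.a (T.l 816) (T.a (T.l 816) (T.l 816)))))) (T.b (T.l 2) (T.a (T.a (T.a (T.a (T.l 816) (T.l 816))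 (T.l 816)) (T.l 816)) (T.a (T.l 816) (T.a (T.l 816) (T.a (T.l 816) (T.l 816)))))))))))))), by decide +kernel⟩

def A022E_021_5_127_1 :
    ∃ t, chk3 (onCell 0 33554432 0 1073741824 33554432 16777216 (corTK [[⟨0, 0, 1, 25165824⟩, ⟨1, 1, 0, 16777216⟩, ⟨2, 1, 1, 25165824⟩, ⟨0, 0, 0, 67108864⟩, ⟨0, 1, 0, 1056964608⟩, ⟨2, 1, 0, 67108864⟩, ⟨2, 2, 0, 1056964608⟩]] true 1 c0F cA022E gF0q0 gF2q2 gF1q2 gF2q2 true true)) t 5 127 1 = true :=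
  ⟨(T.b (T.l 2) (T.b (T.l 2) (T.c (T.b (T.l 2) (T.c (T.b (T.l 2) (T.a (T.c (T.b (T.l 2) (T.a (T.c (T.b (T.l 2) (T.a (T.a (T.l 816) (T.l 816)) (T.a (T.l 816) (T.l 816)))) (T.b (T.l 2) (T.a (T.a (T.l 816) (T.l 816)) (T.a (T.l 816) (T.l 816))))) (T.c (T.b (T.l 2) (T.a (T.a (T.l 816) (T.l 816)) (T.a (T.l 816) (T.l 816)))) (T.b (T.l 2) (T.a (T.a (T.l 816) (T.l 816)) (T.a (T.l 816) (T.l 816))))))) (T.b (T.l 2) (T.a (T.c (T.b (T.l 2) (T.a (T.a (T.l 816) (T.l 816)) (T.a (T.l 816) (T.l 816)))) (T.b (T.l 2) (T.a (T.a (T.l 816) (T.l 816)) (T.a (T.l 816) (T.l 816))))) (T.c (T.b (T.l 2) (T.a (T.a (T.l 816) (T.l 816)) (T.a (T.l 816) (T.l 816)))) (T.b (T.l 2) (T.a (T.a (T.l 816) (T.l 816)) (T.a (T.l 816) (T.l 816)))))))) (T.c (T.b (T.l 2) (T.a (T.c (T.b (T.l 2) (T.a (T.a (T.l 816) (T.l 816)) (T.a (T.l 816)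 (T.l 880)))) (T.b (T.l 2) (T.a (T.a (T.l 816) (T.l 816)) (T.a (T.l 816) (T.l 880))))) (T.c (T.b (T.l 2) (T.a (T.a (T.l 880) (T.l 880)) (T.c (T.a (T.l 880) (T.l 884)) (T.a (T.l 880) (T.l 884))))) (T.b (T.l 2) (T.a (T.a (T.l 880) (T.l 880)) (T.a (T.l 880) (T.l 884))))))) (T.b (T.l 2) (T.a (T.c (T.b (T.l 2) (T.a (T.a (T.l 816) (T.l 816)) (T.a (T.l 816) (T.l 880)))) (T.b (T.l 2) (T.a (T.a (T.l 816) (T.l 816)) (T.a (T.l 816) (T.l 880))))) (T.c (T.b (T.l 2) (T.a (T.a (T.l 880) (T.l 880)) (T.a (T.l 880) (T.l 884)))) (T.b (T.l 2) (T.a (T.a (T.l 880) (T.l 880)) (T.a (T.l 880) (T.l 884)))))))))) (T.b (T.l 2) (T.a (T.c (T.b (T.l 2) (T.a (T.c (T.b (T.l 2) (T.a (T.a (T.l 816) (T.l 816)) (T.a (T.l 816) (T.l 816)))) (T.b (T.l 2) (T.a (T.a (T.l 816) (T.l 816)) (T.a (T.l 816) (T.l 816))))) (T.c (T.b (T.l 2)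 (T.a (T.a (T.l 816) (T.l 816)) (T.a (T.l 816) (T.l 816)))) (T.b (T.l 2) (T.a (T.a (T.l 816) (T.l 816)) (T.a (T.l 816) (T.l 816))))))) (T.b (T.l 2) (T.a (T.c (T.b (T.l 2) (T.a (T.a (T.l 816) (T.l 816)) (T.a (T.l 816) (T.l 816)))) (T.b (T.l 2) (T.a (T.a (T.l 816) (T.l 816)) (T.a (T.l 816) (T.l 816))))) (T.c (T.b (T.l 2) (T.a (T.a (T.l 816) (T.l 816)) (T.a (T.l 816) (T.l 816)))) (T.b (T.l 2) (T.a (T.a (T.l 816) (T.l 816)) (T.a (T.l 816) (T.l 816)))))))) (T.c (T.b (T.l 2) (T.a (T.c (T.b (T.l 2) (T.a (T.a (T.l 816) (T.l 816)) (T.a (T.l 816) (T.l 816)))) (T.b (T.l 2) (T.a (T.a (T.l 816) (T.l 816)) (T.a (T.l 816) (T.l 816))))) (T.c (T.b (T.l 2) (T.a (T.a (T.l 880) (T.l 880)) (T.a (T.l 880) (T.l 884)))) (T.b (T.l 2) (T.a (T.a (T.l 816) (T.l 880)) (T.a (T.l 880) (T.l 884))))))) (T.b (T.l 2) (T.a (T.c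 (T.b (T.l 2) (T.a (T.a (T.l 816) (T.l 816)) (T.a (T.l 816) (T.l 816)))) (T.b (T.l 2) (T.a (T.a (T.l 816) (T.l 816)) (T.a (T.l 816) (T.l 816))))) (T.c (T.b (T.l 2) (T.a (T.a (T.l 816) (T.l 816)) (T.a (T.l 880) (T.l 884)))) (T.b (T.l 2) (T.a (T.a (T.l 816) (T.l 816)) (T.a (T.l 880) (T.l 884)))))))))))) (T.b (T.l 2) (T.c (T.b (T.l 2) (T.a (T.c (T.b (T.l 2) (T.a (T.c (T.b (T.l 2) (T.a (T.a (T.l 816) (T.l 816)) (T.a (T.l 816) (T.l 816)))) (T.b (T.l 2) (T.a (T.a (T.l 816) (T.l 816)) (T.a (T.l 816) (T.l 816))))) (T.c (T.b (T.l 2) (T.a (T.a (T.l 816) (T.l 816)) (T.a (T.l 816) (T.l 816)))) (T.b (T.l 2) (T.a (T.a (T.l 816) (T.l 816)) (T.a (T.l 816) (T.l 816))))))) (T.b (T.l 2) (T.a (T.c (T.b (T.l 2) (T.a (T.a (T.l 816) (T.l 816)) (T.a (T.l 816) (T.l 816)))) (T.b (T.l 2) (T.a (T.a (T.l 816) (T.l 816))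 (T.a (T.l 816) (T.l 816))))) (T.c (T.b (T.l 2) (T.a (T.a (T.l 816) (T.l 816)) (T.a (T.l 816) (T.l 816)))) (T.b (T.l 2) (T.a (T.a (T.l 816) (T.l 816)) (T.a (T.l 816) (T.l 816)))))))) (T.c (T.b (T.l 2) (T.a (T.c (T.b (T.l 2) (T.a (T.a (T.l 816) (T.l 816)) (T.a (T.l 816) (T.l 816)))) (T.b (T.l 2) (T.a (T.a (T.l 816) (T.l 816)) (T.a (T.l 816) (T.l 816))))) (T.c (T.b (T.l 2) (T.a (T.a (T.l 816) (T.l 816)) (T.a (T.l 880) (T.l 884)))) (T.b (T.l 2) (T.a (T.a (T.l 816) (T.l 816)) (T.a (T.l 816) (T.l 820))))))) (T.b (T.l 2) (T.a (T.c (T.b (T.l 2) (T.a (T.a (T.l 816) (T.l 816)) (T.a (T.l 816) (T.l 816)))) (T.a (T.l 880) (T.a (T.l 816) (T.l 816)))) (T.c (T.b (T.l 2) (T.a (T.a (T.l 816) (T.l 816)) (T.a (T.l 816) (T.l 816)))) (T.b (T.l 2) (T.a (T.a (T.l 816) (T.l 816)) (T.a (T.l 816) (T.l 816)))))))))) (T.b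 (T.l 2) (T.a (T.c (T.b (T.l 2) (T.a (T.c (T.b (T.l 2) (T.a (T.a (T.l 816) (T.l 816)) (T.a (T.l 816) (T.l 816)))) (T.b (T.l 2) (T.a (T.a (T.l 816) (T.l 816)) (T.a (T.l 816) (T.l 816))))) (T.c (T.b (T.l 2) (T.a (T.a (T.l 816) (T.l 816)) (T.a (T.l 816) (T.l 816)))) (T.a (T.a (T.l 816) (T.l 816)) (T.l 880))))) (T.b (T.l 2) (T.a (T.c (T.b (T.l 2) (T.a (T.a (T.l 816) (T.l 816)) (T.a (T.l 816) (T.l 816)))) (T.b (T.l 2) (T.a (T.a (T.l 816) (T.l 816)) (T.a (T.l 816) (T.l 816))))) (T.c (T.a (T.a (T.l 816) (T.l 816)) (T.l 880)) (T.a (T.a (T.l 816) (T.l 816)) (T.l 880)))))) (T.c (T.b (T.l 2) (T.a (T.c (T.a (T.l 880) (T.a (T.l 816) (T.l 816))) (T.a (T.l 880) (T.a (T.l 816) (T.l 816)))) (T.c (T.b (T.l 2) (T.a (T.a (T.l 816) (T.l 816)) (T.a (T.l 816) (T.l 816)))) (T.b (T.l 2) (T.a (T.a (T.l 816) (T.l 816))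 (T.a (T.l 816) (T.l 816))))))) (T.b (T.l 2) (T.a (T.c (T.a (T.l 880) (T.a (T.l 816) (T.l 816))) (T.a (T.l 880) (T.a (T.l 816) (T.l 816)))) (T.c (T.a (T.l 880) (T.a (T.l 816) (T.l 816))) (T.a (T.l 880) (T.a (T.l 816) (T.l 816)))))))))))))), by decide +kernel⟩

def A022E_021_3_63_1 :
    ∃ t, chk3 (onCell 0 33554432 0 1073741824 33554432 16777216 (corTK [[⟨0, 0, 1, 25165824⟩, ⟨1, 1, 0, 16777216⟩, ⟨2, 1, 1, 25165824⟩, ⟨0, 0, 0, 67108864⟩, ⟨0, 1, 0, 1056964608⟩, ⟨2, 1, 0, 67108864⟩, ⟨2, 2, 0, 1056964608⟩]] true 1 c0F cA022E gF0q0 gF2q2 gF1q2 gF2q2 true true)) t 3 63 1 = true :=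
  ⟨(T.b (T.l 2) (T.b (T.l 2) (T.b (T.l 2) (T.c (T.a (T.a (T.a (T.b (T.l 2) (T.a (T.c (T.b (T.l 2) (T.a (T.a (T.l 884) (T.l 1024)) (T.l 1024))) (T.b (T.l 2) (T.a (T.c (T.l 884) (T.l 884)) (T.l 1024)))) (T.l 1024))) (T.l 1024)) (T.l 1024)) (T.l 1024)) (T.b (T.l 2) (T.a (T.c (T.b (T.l 2) (T.a (T.c (T.b (T.l 2) (T.a (T.c (T.b (T.l 2) (T.a (T.a (T.l 884) (T.l 884)) (T.a (T.l 884) (T.l 1024)))) (T.b (T.l 2) (T.a (T.a (T.l 884) (T.l 884)) (T.a (T.l 884) (T.l 884))))) (T.a (T.a (T.l 884) (T.l 1024)) (T.l 1024)))) (T.b (T.l 2) (T.a (T.c (T.b (T.l 2) (T.a (T.a (T.l 816) (T.l 816)) (T.a (T.l 884) (T.l 884)))) (T.b (T.l 2) (T.a (T.a (T.l 816) (T.l 816)) (T.a (T.l 816) (T.l 884))))) (T.c (T.b (T.l 2) (T.a (T.a (T.l 884) (T.l 884)) (T.a (T.l 884) (T.l 1024)))) (T.b (T.l 2) (T.a (T.a (T.l 884) (T.l 884)) (T.a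 (T.l 884) (T.l 884)))))))) (T.a (T.a (T.a (T.l 884) (T.l 1024)) (T.l 1024)) (T.l 1024)))) (T.b (T.l 2) (T.a (T.c (T.b (T.l 2) (T.a (T.c (T.b (T.l 2) (T.a (T.a (T.l 816) (T.l 816)) (T.a (T.l 816) (T.l 816)))) (T.b (T.l 2) (T.a (T.a (T.l 816) (T.l 816)) (T.a (T.l 816) (T.l 816))))) (T.c (T.b (T.l 2) (T.a (T.a (T.l 816) (T.l 884)) (T.a (T.l 884) (T.l 884)))) (T.b (T.l 2) (T.a (T.a (T.l 816) (T.l 816)) (T.a (T.l 884) (T.l 884))))))) (T.b (T.l 2) (T.a (T.c (T.b (T.l 2) (T.a (T.a (T.l 816) (T.l 816)) (T.a (T.l 816) (T.l 816)))) (T.b (T.l 2) (T.a (T.a (T.l 816) (T.l 816)) (T.a (T.l 816) (T.l 816))))) (T.c (T.b (T.l 2) (T.a (T.a (T.l 816) (T.l 816)) (T.a (T.l 816) (T.l 884)))) (T.b (T.l 2) (T.a (T.a (T.l 816) (T.l 816)) (T.l 884))))))) (T.c (T.b (T.l 2) (T.a (T.c (T.b (T.l 2) (T.a (T.a (T.l 884) (T.l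 884)) (T.a (T.l 884) (T.l 1024)))) (T.b (T.l 2) (T.a (T.a (T.l 884) (T.l 884)) (T.a (T.l 884) (T.l 884))))) (T.a (T.a (T.l 884) (T.l 1024)) (T.l 1024)))) (T.b (T.l 2) (T.a (T.c (T.b (T.l 2) (T.a (T.a (T.l 884) (T.l 884)) (T.a (T.l 884) (T.l 884)))) (T.a (T.l 884) (T.l 884))) (T.c (T.b (T.l 2) (T.a (T.a (T.l 884) (T.l 884)) (T.a (T.l 884) (T.l 1024)))) (T.a (T.l 884) (T.a (T.l 884) (T.l 884)))))))))) (T.a (T.a (T.c (T.l 1024) (T.a (T.a (T.l 884) (T.l 1024)) (T.l 1024))) (T.l 1024)) (T.l 1024)))))))), by decide +kernel⟩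

theorem A022E_021_2_127_1 :
    ∃ t, chk3 (onCell 0 33554432 0 1073741824 33554432 16777216 (corTK [[⟨0, 0, 1, 25165824⟩, ⟨1, 1, 0, 16777216⟩, ⟨2, 1, 1, 25165824⟩, ⟨0, 0, 0, 67108864⟩, ⟨0, 1, 0, 1056964608⟩, ⟨2, 1, 0, 67108864⟩, ⟨2, 2, 0, 1056964608⟩]] true 1 c0F cA022E gF0q0 gF2q2 gF1q2 gF2q2 true true)) t 2 127 1 = true :=
  ex3_a A022E_021_4_127_1 A022E_021_5_127_1
theorem A022E_021_2_63_1 :
    ∃ t, chk3 (onCell 0 33554432 0 1073741824 33554432 16777216 (corTK [[⟨0, 0, 1, 25165824⟩, ⟨1, 1, 0, 16777216⟩, ⟨2, 1, 1, 25165824⟩, ⟨0, 0, 0, 67108864⟩, ⟨0, 1, 0, 1056964608⟩, ⟨2, 1, 0, 67108864⟩, ⟨2, 2, 0, 1056964608⟩]] true 1 c0F cA022E gF0q0 gF2q2 gF1q2 gF2q2 true true)) t 2 63 1 = true :=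
  ex3_b A022E_021_2_126_1 A022E_021_2_127_1
theorem A022E_021_1_63_1 :
    ∃ t, chk3 (onCell 0 33554432 0 1073741824 33554432 16777216 (corTK [[⟨0, 0, 1, 25165824⟩, ⟨1, 1, 0, 16777216⟩, ⟨2, 1, 1, 25165824⟩, ⟨0, 0, 0, 67108864⟩, ⟨0, 1, 0, 1056964608⟩, ⟨2, 1, 0, 67108864⟩, ⟨2, 2, 0, 1056964608⟩]] true 1 c0F cA022E gF0q0 gF2q2 gF1q2 gF2q2 true true)) t 1 63 1 = true :=
  ex3_a A022E_021_2_63_1 A022E_021_3_63_1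
theorem A022E_021_1_31_1 :
    ∃ t, chk3 (onCell 0 33554432 0 1073741824 33554432 16777216 (corTK [[⟨0, 0, 1, 25165824⟩, ⟨1, 1, 0, 16777216⟩, ⟨2, 1, 1, 25165824⟩, ⟨0, 0, 0, 67108864⟩, ⟨0, 1, 0, 1056964608⟩, ⟨2, 1, 0, 67108864⟩, ⟨2, 2, 0, 1056964608⟩]] true 1 c0F cA022E gF0q0 gF2q2 gF1q2 gF2q2 true true)) t 1 31 1 = true :=
  ex3_b A022E_021_1_62_1 A022E_021_1_63_1
theorem A022E_021_1_15_1 :
    ∃ t, chk3 (onCell 0 33554432 0 1073741824 33554432 16777216 (corTK [[⟨0, 0, 1, 25165824⟩, ⟨1, 1, 0, 16777216⟩, ⟨2, 1, 1, 25165824⟩, ⟨0, 0, 0, 67108864⟩, ⟨0, 1, 0, 1056964608⟩, ⟨2, 1, 0, 67108864⟩, ⟨2, 2, 0, 1056964608⟩]] true 1 c0F cA022E gF0q0 gF2q2 gF1q2 gF2q2 true true)) t 1 15 1 = true :=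
  ex3_b A022E_021_1_30_1 A022E_021_1_31_1
theorem A022E_021_1_7_1 :
    ∃ t, chk3 (onCell 0 33554432 0 1073741824 33554432 16777216 (corTK [[⟨0, 0, 1, 25165824⟩, ⟨1, 1, 0, 16777216⟩, ⟨2, 1, 1, 25165824⟩, ⟨0, 0, 0, 67108864⟩, ⟨0, 1, 0, 1056964608⟩, ⟨2, 1, 0, 67108864⟩, ⟨2, 2, 0, 1056964608⟩]] true 1 c0F cA022E gF0q0 gF2q2 gF1q2 gF2q2 true true)) t 1 7 1 = true :=
  ex3_b A022E_021_1_14_1 A022E_021_1_15_1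
theorem A022E_021_1_3_1 :
    ∃ t, chk3 (onCell 0 33554432 0 1073741824 33554432 16777216 (corTK [[⟨0, 0, 1, 25165824⟩, ⟨1, 1, 0, 16777216⟩, ⟨2, 1, 1, 25165824⟩, ⟨0, 0, 0, 67108864⟩, ⟨0, 1, 0, 1056964608⟩, ⟨2, 1, 0, 67108864⟩, ⟨2, 2, 0, 1056964608⟩]] true 1 c0F cA022E gF0q0 gF2q2 gF1q2 gF2q2 true true)) t 1 3 1 = true :=
  ex3_b A022E_021_1_6_1 A022E_021_1_7_1
theorem A022E_021 :
    ∃ t, chk3 (onCell 0 33554432 0 1073741824 33554432 16777216 (corTK [[⟨0, 0, 1, 25165824⟩, ⟨1, 1, 0, 16777216⟩, ⟨2, 1, 1, 25165824⟩, ⟨0, 0, 0, 67108864⟩, ⟨0, 1, 0, 1056964608⟩, ⟨2, 1, 0, 67108864⟩, ⟨2, 2, 0, 1056964608⟩]] true 1 c0F cA022E gF0q0 gF2q2 gF1q2 gF2q2 true true)) t 1 1 1 = true :=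
  ex3_b A022E_021_1_2_1 A022E_021_1_3_1

def A022E_022_1_2_1 :
    ∃ t, chk3 (onCell 0 33554432 0 1073741824 33554432 16777216 (corTK [[⟨0, 0, 1, 25165824⟩, ⟨1, 1, 0, 16777216⟩, ⟨2, 1, 1, 25165824⟩, ⟨0, 0, 0, 67108864⟩, ⟨0, 1, 0, 1056964608⟩, ⟨2, 1, 0, 67108864⟩, ⟨2, 2, 0, 1056964608⟩]] true 1 c0F cA022E gF0q0 gF2q2 gF2q2 gF3q2 true false)) t 1 2 1 = true :=
  ⟨(T.b (T.a (T.a (T.a (T.b (T.b (T.l 204) (T.l 204)) (T.l 204)) (T.b (T.a (T.a (T.b (T.a (T.c (T.l 204) (T.l 204)) (T.b (T.l 204) (T.l 204))) (T.a (T.l 204) (T.l 204))) (T.b (T.b (T.a (T.l 204) (T.b (T.l 204) (T.l 204))) (T.c (T.l 204) (T.l 204))) (T.b (T.l 204) (T.l 204)))) (T.b (T.a (T.b (T.a (T.b (T.l 204) (T.l 204)) (T.l 220)) (T.b (T.l 204) (T.l 204))) (T.b (T.a (T.l 204) (T.c (T.l 220) (T.l 204))) (T.c (T.l 204) (T.l 204)))) (T.a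 (T.l 220) (T.b (T.l 204) (T.l 204))))) (T.a (T.a (T.b (T.l 204) (T.l 204)) (T.b (T.l 204) (T.l 204))) (T.b (T.a (T.l 204) (T.l 204)) (T.b (T.l 204) (T.l 204)))))) (T.b (T.a (T.a (T.b (T.a (T.b (T.c (T.a (T.l 204) (T.l 204)) (T.c (T.l 204) (T.l 204))) (T.c (T.l 204) (T.l 204))) (T.b (T.c (T.b (T.a (T.l 204) (T.l 204)) (T.l 204)) (T.a (T.l 204) (T.l 204))) (T.b (T.l 220) (T.l 204)))) (T.a (T.b (T.l 204) (T.l 204)) (T.l 220))) (T.b (T.b (T.a (T.b (T.c (T.a (T.l 204) (T.b (T.l 204) (T.l 204))) (T.c (T.l 220) (T.l 204))) (T.c (T.l 204) (T.l 204))) (T.b (T.c (T.b (T.a (T.l 220) (T.b (T.l 220) (T.l 204))) (T.c (T.l 204) (T.l 204))) (T.a (T.l 204) (T.l 204))) (T.c (T.l 204) (T.l 204)))) (T.a (T.b (T.l 220) (T.l 204)) (T.b (T.l 220) (T.l 204)))) (T.a (T.l 220) (T.l 220)))) (T.b (T.a (T.b (T.a (T.b (T.c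 (T.b (T.c (T.a (T.l 204) (T.l 204)) (T.c (T.l 220) (T.l 220))) (T.c (T.l 204) (T.l 204))) (T.a (T.l 220) (T.l 220))) (T.c (T.l 220) (T.l 204))) (T.b (T.c (T.b (T.c (T.a (T.l 204) (T.l 220)) (T.c (T.l 220) (T.l 220))) (T.c (T.l 204) (T.l 204))) (T.b (T.a (T.l 204) (T.l 220)) (T.l 204))) (T.c (T.l 204) (T.l 204)))) (T.a (T.b (T.l 220) (T.l 204)) (T.b (T.l 204) (T.l 204)))) (T.b (T.a (T.b (T.c (T.b (T.c (T.a (T.l 220) (T.l 220)) (T.c (T.l 220) (T.l 220))) (T.b (T.l 220) (T.l 204))) (T.b (T.a (T.l 220) (T.l 220)) (T.l 204))) (T.c (T.l 204) (T.l 204))) (T.b (T.c (T.b (T.c (T.a (T.l 220) (T.l 220)) (T.a (T.l 204) (T.l 204))) (T.l 220)) (T.b (T.a (T.l 220) (T.l 220)) (T.l 204))) (T.c (T.l 204) (T.l 204)))) (T.a (T.b (T.l 204) (T.l 204)) (T.l 220)))) (T.a (T.c (T.l 220) (T.l 204)) (T.c (T.l 220) (T.l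 204))))) (T.a (T.a (T.b (T.c (T.l 220) (T.l 204)) (T.l 204)) (T.b (T.l 220) (T.l 204))) (T.b (T.a (T.l 204) (T.l 204)) (T.b (T.l 220) (T.l 204)))))) (T.a (T.b (T.a (T.b (T.a (T.b (T.a (T.b (T.c (T.b (T.c (T.a (T.l 220) (T.l 204)) (T.a (T.l 204) (T.l 204))) (T.b (T.l 220) (T.l 204))) (T.b (T.a (T.b (T.l 220) (T.l 204)) (T.l 220)) (T.l 220))) (T.c (T.l 220) (T.l 204))) (T.b (T.c (T.b (T.a (T.l 220) (T.l 220)) (T.l 220)) (T.b (T.a (T.l 220) (T.l 204)) (T.l 204))) (T.b (T.l 220) (T.l 204)))) (T.a (T.b (T.l 204) (T.l 204)) (T.b (T.l 204) (T.l 204)))) (T.b (T.b (T.a (T.c (T.b (T.a (T.l 220) (T.l 220)) (T.l 220)) (T.a (T.l 220) (T.l 220))) (T.c (T.b (T.c (T.l 220) (T.l 220)) (T.l 204)) (T.a (T.l 220) (T.l 220)))) (T.a (T.b (T.l 220) (T.l 204)) (T.b (T.l 220) (T.l 204)))) (T.a (T.l 220) (T.l 220))))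 (T.a (T.a (T.l 204) (T.l 220)) (T.b (T.l 220) (T.l 204)))) (T.b (T.b (T.a (T.b (T.a (T.c (T.b (T.c (T.l 220) (T.l 220)) (T.l 204)) (T.c (T.l 220) (T.l 220))) (T.c (T.a (T.l 220) (T.l 220)) (T.b (T.l 220) (T.l 204)))) (T.a (T.l 220) (T.l 220))) (T.b (T.c (T.b (T.a (T.b (T.l 220) (T.l 220)) (T.l 220)) (T.c (T.l 220) (T.l 220))) (T.b (T.a (T.l 220) (T.l 220)) (T.b (T.l 220) (T.l 220)))) (T.c (T.l 220) (T.l 220)))) (T.a (T.c (T.l 220) (T.l 204)) (T.b (T.l 220) (T.l 204)))) (T.b (T.a (T.l 204) (T.l 204)) (T.b (T.l 220) (T.l 220))))) (T.a (T.b (T.a (T.l 204) (T.l 204)) (T.b (T.l 204) (T.l 204))) (T.b (T.b (T.l 220) (T.l 204)) (T.l 220)))) (T.b (T.a (T.b (T.b (T.a (T.b (T.c (T.b (T.a (T.l 220) (T.l 220)) (T.l 220)) (T.b (T.a (T.l 220) (T.l 220)) (T.l 220))) (T.c (T.l 220) (T.l 220))) (T.b (T.c (T.b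 (T.a (T.l 220) (T.l 220)) (T.l 220)) (T.a (T.l 220) (T.l 220))) (T.b (T.l 220) (T.l 220)))) (T.a (T.b (T.l 220) (T.l 204)) (T.l 220))) (T.b (T.c (T.l 220) (T.l 220)) (T.l 220))) (T.b (T.b (T.a (T.b (T.c (T.a (T.l 220) (T.l 220)) (T.a (T.l 220) (T.l 220))) (T.b (T.l 220) (T.l 220))) (T.b (T.c (T.c (T.l 220) (T.l 220)) (T.c (T.l 220) (T.l 220))) (T.l 220))) (T.a (T.l 220) (T.l 220))) (T.a (T.l 220) (T.l 220)))) (T.a (T.b (T.b (T.l 204) (T.l 204)) (T.l 204)) (T.b (T.l 220) (T.l 204)))))) (T.a (T.a (T.a (T.l 0) (T.b (T.a (T.a (T.l 0) (T.l 0)) (T.b (T.l 204) (T.l 204))) (T.a (T.l 0) (T.b (T.l 0) (T.l 0))))) (T.b (T.a (T.a (T.l 204) (T.b (T.l 204) (T.l 204))) (T.b (T.l 220) (T.l 204))) (T.a (T.b (T.l 0) (T.l 0)) (T.b (T.l 0) (T.l 0))))) (T.b (T.a (T.a (T.b (T.l 204) (T.l 204)) (T.b (T.l 204) (T.l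 0))) (T.a (T.b (T.l 204) (T.l 204)) (T.b (T.l 204) (T.l 204)))) (T.a (T.a (T.l 0) (T.l 0)) (T.b (T.b (T.l 0) (T.l 16)) (T.a (T.l 0) (T.l 0))))))), by decide +kernel⟩

def A022E_022_1_6_1 :
    ∃ t, chk3 (onCell 0 33554432 0 1073741824 33554432 16777216 (corTK [[⟨0, 0, 1, 25165824⟩, ⟨1, 1, 0, 16777216⟩, ⟨2, 1, 1, 25165824⟩, ⟨0, 0, 0, 67108864⟩, ⟨0, 1, 0, 1056964608⟩, ⟨2, 1, 0, 67108864⟩, ⟨2, 2, 0, 1056964608⟩]] true 1 c0F cA022E gF0q0 gF2q2 gF2q2 gF3q2 true false)) t 1 6 1 = true :=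
  ⟨(T.a (T.b (T.a (T.a (T.l 816) (T.a (T.l 816) (T.l 0))) (T.a (T.a (T.l 0) (T.l 0)) (T.b (T.l 816) (T.l 816)))) (T.a (T.a (T.l 816) (T.a (T.l 816) (T.l 816))) (T.a (T.b (T.b (T.l 816) (T.l 820)) (T.l 816)) (T.b (T.l 820) (T.b (T.l 816) (T.l 820)))))) (T.b (T.a (T.a (T.b (T.l 816) (T.l 816)) (T.l 820)) (T.a (T.b (T.l 816) (T.l 816)) (T.b (T.l 0) (T.l 816)))) (T.b (T.a (T.a (T.l 816) (T.b (T.l 816) (T.l 816))) (T.a (T.l 820) (T.l 816))) (T.a (T.a (T.b (T.l 816) (T.l 816)) (T.b (T.l 816) (T.l 816))) (T.a (T.b (T.l 816) (T.l 816)) (T.l 820)))))), by decide +kernel⟩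

def A022E_022_1_7_1 :
    ∃ t, chk3 (onCell 0 33554432 0 1073741824 33554432 16777216 (corTK [[⟨0, 0, 1, 25165824⟩, ⟨1, 1, 0, 16777216⟩, ⟨2, 1, 1, 25165824⟩, ⟨0, 0, 0, 67108864⟩, ⟨0, 1, 0, 1056964608⟩, ⟨2, 1, 0, 67108864⟩, ⟨2, 2, 0, 1056964608⟩]] true 1 c0F cA022E gF0q0 gF2q2 gF2q2 gF3q2 true false)) t 1 7 1 = true :=
  ⟨(T.b (T.a (T.b (T.a (T.a (T.l 816) (T.a (T.l 816) (T.l 816))) (T.a (T.l 820) (T.l 820))) (T.a (T.a (T.l 816) (T.a (T.l 816) (T.l 816))) (T.a (T.c (T.l 816) (T.l 816)) (T.a (T.l 816) (T.l 820))))) (T.b (T.a (T.a (T.a (T.l 820) (T.l 820)) (T.a (T.l 820) (T.l 820))) (T.c (T.l 1024) (T.a (T.l 820) (T.l 820)))) (T.a (T.a (T.a (T.b (T.l 816) (T.l 816)) (T.l 820)) (T.c (T.l 1024) (T.b (T.l 820) (T.l 820)))) (T.c (T.l 1024) (T.a (T.b (T.l 816) (T.l 820)) (T.b (T.l 816) (T.l 820)))))))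 (T.b (T.a (T.a (T.a (T.l 816) (T.a (T.c (T.l 816) (T.l 816)) (T.l 816))) (T.b (T.a (T.c (T.l 820) (T.l 816)) (T.a (T.l 816) (T.l 820))) (T.b (T.a (T.c (T.l 820) (T.l 816)) (T.a (T.l 816) (T.l 820))) (T.a (T.a (T.l 816) (T.l 816)) (T.a (T.l 816) (T.l 820)))))) (T.b (T.a (T.a (T.a (T.l 820) (T.l 820)) (T.a (T.l 820) (T.l 816))) (T.a (T.b (T.l 820) (T.l 820)) (T.l 1024))) (T.a (T.a (T.a (T.c (T.l 820) (T.l 820)) (T.b (T.l 816) (T.l 820))) (T.a (T.b (T.l 816) (T.l 820)) (T.l 820))) (T.a (T.a (T.l 820) (T.l 820)) (T.l 1024))))) (T.b (T.a (T.a (T.a (T.l 816) (T.b (T.a (T.c (T.l 816) (T.l 816)) (T.l 816)) (T.a (T.a (T.l 816) (T.l 816)) (T.c (T.l 816) (T.l 816))))) (T.b (T.a (T.a (T.l 816) (T.l 816)) (T.a (T.l 816) (T.c (T.l 820) (T.l 816)))) (T.a (T.a (T.l 816) (T.l 816)) (T.a (T.l 820) (T.a (T.l 816)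 (T.l 820)))))) (T.b (T.a (T.a (T.a (T.c (T.l 820) (T.l 820)) (T.b (T.l 820) (T.l 820))) (T.a (T.l 820) (T.l 820))) (T.a (T.a (T.l 820) (T.l 1024)) (T.l 1024))) (T.a (T.b (T.a (T.a (T.c (T.l 820) (T.l 820)) (T.c (T.l 1024) (T.l 816))) (T.a (T.l 820) (T.l 820))) (T.a (T.a (T.a (T.l 820) (T.l 820)) (T.c (T.l 1024) (T.l 820))) (T.c (T.l 1024) (T.a (T.l 820) (T.l 820))))) (T.a (T.a (T.b (T.l 820) (T.l 820)) (T.l 1024)) (T.l 1024))))) (T.a (T.b (T.a (T.a (T.l 816) (T.b (T.c (T.a (T.a (T.l 816) (T.l 816)) (T.l 816)) (T.a (T.c (T.l 816) (T.l 816)) (T.l 816))) (T.c (T.a (T.a (T.l 816) (T.l 816)) (T.c (T.l 816) (T.l 816))) (T.a (T.a (T.l 816) (T.l 816)) (T.c (T.l 816) (T.l 816)))))) (T.b (T.a (T.a (T.l 816) (T.l 816)) (T.a (T.c (T.l 816) (T.l 816)) (T.a (T.l 820) (T.l 820)))) (T.a (T.a (T.c (T.l 816)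 (T.l 816)) (T.l 816)) (T.c (T.a (T.l 820) (T.a (T.l 816) (T.b (T.l 816) (T.l 820)))) (T.a (T.l 816) (T.a (T.l 816) (T.l 820))))))) (T.a (T.b (T.a (T.l 816) (T.c (T.b (T.a (T.a (T.c (T.l 816) (T.l 816)) (T.l 816)) (T.a (T.l 816) (T.l 816))) (T.a (T.a (T.c (T.l 880) (T.l 816)) (T.l 816)) (T.a (T.l 816) (T.l 816)))) (T.b (T.a (T.a (T.l 816) (T.l 816)) (T.a (T.l 816) (T.l 816))) (T.a (T.a (T.c (T.l 816) (T.l 816)) (T.l 816)) (T.a (T.l 816) (T.l 816)))))) (T.a (T.a (T.l 816) (T.c (T.l 816) (T.l 816))) (T.c (T.b (T.a (T.a (T.a (T.c (T.l 816) (T.l 816)) (T.l 816)) (T.l 816)) (T.a (T.l 816) (T.c (T.l 816) (T.l 816)))) (T.a (T.c (T.a (T.a (T.a (T.l 880) (T.l 816)) (T.l 816)) (T.l 816)) (T.a (T.a (T.a (T.l 816) (T.l 816)) (T.l 816)) (T.l 816))) (T.c (T.a (T.l 816) (T.a (T.l 816) (T.l 816))) (T.a (T.l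 816) (T.a (T.l 816) (T.l 816)))))) (T.b (T.a (T.a (T.a (T.l 880) (T.l 816)) (T.l 816)) (T.a (T.l 816) (T.c (T.l 816) (T.l 816)))) (T.a (T.c (T.a (T.a (T.a (T.l 816) (T.l 816)) (T.l 816)) (T.l 816)) (T.a (T.a (T.a (T.l 816) (T.l 816)) (T.l 816)) (T.l 816))) (T.a (T.l 880) (T.a (T.l 816) (T.c (T.l 816) (T.l 816))))))))) (T.b (T.a (T.c (T.a (T.c (T.l 816) (T.l 816)) (T.l 816)) (T.a (T.l 880) (T.l 816))) (T.c (T.b (T.a (T.c (T.l 816) (T.l 816)) (T.a (T.l 816) (T.c (T.l 820) (T.l 820)))) (T.a (T.c (T.l 880) (T.l 880)) (T.a (T.l 816) (T.a (T.l 816) (T.l 820))))) (T.a (T.c (T.l 816) (T.l 816)) (T.a (T.l 816) (T.c (T.l 820) (T.l 820)))))) (T.a (T.c (T.b (T.a (T.a (T.l 816) (T.l 816)) (T.c (T.l 816) (T.l 816))) (T.a (T.c (T.a (T.l 816) (T.l 816)) (T.a (T.l 816) (T.l 816))) (T.a (T.c (T.l 816) (T.l 816))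 (T.c (T.l 816) (T.l 816))))) (T.b (T.a (T.c (T.l 880) (T.l 816)) (T.c (T.l 816) (T.l 816))) (T.a (T.a (T.c (T.l 816) (T.l 816)) (T.l 880)) (T.a (T.l 816) (T.l 880))))) (T.c (T.b (T.a (T.a (T.l 816) (T.l 880)) (T.a (T.l 880) (T.a (T.l 816) (T.c (T.l 820) (T.l 820))))) (T.a (T.c (T.a (T.l 880) (T.a (T.l 816) (T.l 880))) (T.a (T.l 816) (T.c (T.l 880) (T.l 880)))) (T.c (T.b (T.a (T.l 880) (T.a (T.l 816) (T.l 884))) (T.a (T.a (T.l 880) (T.l 880)) (T.a (T.l 880) (T.c (T.l 884) (T.l 884))))) (T.b (T.a (T.l 816) (T.a (T.l 816) (T.l 820))) (T.a (T.c (T.l 880) (T.l 880)) (T.a (T.l 880) (T.l 884))))))) (T.b (T.a (T.a (T.l 816) (T.l 816)) (T.a (T.l 816) (T.a (T.l 816) (T.l 820)))) (T.a (T.a (T.l 880) (T.a (T.l 816) (T.l 880))) (T.c (T.a (T.b (T.l 816) (T.l 880)) (T.a (T.l 816) (T.l 884))) (T.a (T.l 880)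 (T.a (T.l 816) (T.l 816))))))))))) (T.b (T.a (T.b (T.a (T.a (T.a (T.l 820) (T.l 820)) (T.a (T.l 820) (T.l 820))) (T.c (T.l 1024) (T.a (T.l 820) (T.l 820)))) (T.a (T.c (T.a (T.a (T.l 820) (T.l 1024)) (T.l 1024)) (T.a (T.a (T.l 816) (T.l 816)) (T.a (T.l 816) (T.l 816)))) (T.c (T.l 1024) (T.a (T.a (T.l 816) (T.l 816)) (T.b (T.l 820) (T.l 820)))))) (T.a (T.a (T.c (T.l 1024) (T.c (T.l 1024) (T.l 820))) (T.l 1024)) (T.l 1024))) (T.a (T.b (T.a (T.c (T.a (T.a (T.a (T.l 820) (T.l 1024)) (T.l 1024)) (T.l 1024)) (T.b (T.a (T.a (T.l 820) (T.l 820)) (T.a (T.l 820) (T.l 820))) (T.a (T.a (T.l 820) (T.l 820)) (T.a (T.l 820) (T.l 820))))) (T.c (T.l 1024) (T.a (T.a (T.l 820) (T.l 820)) (T.a (T.l 820) (T.l 820))))) (T.a (T.c (T.a (T.a (T.a (T.b (T.l 820) (T.c (T.a (T.l 884) (T.l 1024)) (T.l 884))) (T.l 1024))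 (T.l 1024)) (T.l 1024)) (T.b (T.a (T.a (T.c (T.l 820) (T.l 820)) (T.c (T.l 820) (T.l 820))) (T.a (T.c (T.l 820) (T.l 820)) (T.c (T.l 820) (T.l 820)))) (T.a (T.c (T.b (T.a (T.c (T.l 884) (T.l 820)) (T.c (T.l 884) (T.l 820))) (T.a (T.a (T.l 884) (T.l 884)) (T.a (T.l 884) (T.l 884)))) (T.a (T.a (T.l 816) (T.l 816)) (T.c (T.l 884) (T.l 884)))) (T.c (T.a (T.a (T.l 884) (T.l 884)) (T.a (T.l 884) (T.l 884))) (T.a (T.c (T.l 884) (T.l 884)) (T.a (T.l 884) (T.l 884))))))) (T.c (T.l 1024) (T.b (T.a (T.a (T.c (T.l 820) (T.l 820)) (T.c (T.l 1024) (T.l 820))) (T.c (T.l 1024) (T.a (T.l 820) (T.l 820)))) (T.a (T.c (T.a (T.a (T.l 884) (T.l 1024)) (T.l 1024)) (T.a (T.a (T.l 884) (T.l 884)) (T.a (T.l 884) (T.l 884)))) (T.c (T.l 1024) (T.a (T.a (T.l 884) (T.l 884)) (T.c (T.l 1024) (T.l 884))))))))) (T.a (T.c (T.l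 1024) (T.a (T.a (T.b (T.l 820) (T.c (T.l 1024) (T.a (T.l 884) (T.l 1024)))) (T.l 1024)) (T.l 1024))) (T.l 1024)))))))), by decide +kernel⟩

theorem A022E_022_1_3_1 :
    ∃ t, chk3 (onCell 0 33554432 0 1073741824 33554432 16777216 (corTK [[⟨0, 0, 1, 25165824⟩, ⟨1, 1, 0, 16777216⟩, ⟨2, 1, 1, 25165824⟩, ⟨0, 0, 0, 67108864⟩, ⟨0, 1, 0, 1056964608⟩, ⟨2, 1, 0, 67108864⟩, ⟨2, 2, 0, 1056964608⟩]] true 1 c0F cA022E gF0q0 gF2q2 gF2q2 gF3q2 true false)) t 1 3 1 = true :=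
  ex3_b A022E_022_1_6_1 A022E_022_1_7_1
theorem A022E_022 :
    ∃ t, chk3 (onCell 0 33554432 0 1073741824 33554432 16777216 (corTK [[⟨0, 0, 1, 25165824⟩, ⟨1, 1, 0, 16777216⟩, ⟨2, 1, 1, 25165824⟩, ⟨0, 0, 0, 67108864⟩, ⟨0, 1, 0, 1056964608⟩, ⟨2, 1, 0, 67108864⟩, ⟨2, 2, 0, 1056964608⟩]] true 1 c0F cA022E gF0q0 gF2q2 gF2q2 gF3q2 true false)) t 1 1 1 = true :=
  ex3_b A022E_022_1_2_1 A022E_022_1_3_1

def A022E_110 :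
    ∃ t, chk3 (onCell 0 33554432 0 1073741824 33554432 16777216 (corTK [] true 1 c0F cA022E gF1q0 gF1q2 gF0q2 gF1q2 true true)) t 1 1 1 = true :=
  ⟨(T.l 2), by decide +kernel⟩

def A022E_111 :
    ∃ t, chk3 (onCell 0 33554432 0 1073741824 33554432 16777216 (corTK [] true 1 c0F cA022E gF1q0 gF1q2 gF1q2 gF2q2 true true)) t 1 1 1 = true :=
  ⟨(T.l 2), by decide +kernel⟩

def A022E_112 :
    ∃ t, chk3 (onCell 0 33554432 0 1073741824 33554432 16777216 (corTK [] true 1 c0F cA022E gF1q0 gF1q2 gF2q2 gF3q2 true false)) t 1 1 1 = true :=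
  ⟨(T.b (T.a (T.a (T.a (T.b (T.b (T.b (T.b (T.b (T.a (T.c (T.l 204) (T.l 204)) (T.l 204)) (T.l 204)) (T.l 204)) (T.l 204)) (T.l 204)) (T.l 204)) (T.b (T.b (T.b (T.a (T.c (T.l 204) (T.l 204)) (T.a (T.l 204) (T.l 204))) (T.l 204)) (T.l 204)) (T.l 204))) (T.b (T.b (T.b (T.a (T.a (T.l 204) (T.l 204)) (T.b (T.l 204) (T.l 204))) (T.l 0)) (T.l 0)) (T.l 0))) (T.b (T.b (T.b (T.a (T.a (T.l 204) (T.l 204)) (T.b (T.l 204) (T.l 204))) (T.l 0)) (T.l 0)) (T.l 0))) (T.b (T.a (T.a (T.a (T.l 204) (T.l 204)) (T.l 0)) (T.b (T.l 0) (T.l 0))) (T.a (T.a (T.a (T.l 204) (T.l 204)) (T.l 204)) (T.b (T.l 0) (T.l 204))))), by decide +kernel⟩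

def A022E_120 :
    ∃ t, chk3 (onCell 0 33554432 0 1073741824 33554432 16777216 (corTK [] true 1 c0F cA022E gF1q0 gF2q2 gF0q2 gF1q2 true true)) t 1 1 1 = true :=
  ⟨(T.l 2), by decide +kernel⟩

def A022E_121 :
    ∃ t, chk3 (onCell 0 33554432 0 1073741824 33554432 16777216 (corTK [] true 1 c0F cA022E gF1q0 gF2q2 gF1q2 gF2q2 true true)) t 1 1 1 = true :=
  ⟨(T.b (T.b (T.b (T.b (T.b (T.a (T.b (T.a (T.a (T.l 204) (T.l 2)) (T.l 2)) (T.l 2)) (T.l 2)) (T.l 2)) (T.l 2)) (T.l 2)) (T.l 2)) (T.l 2)), by decide +kernel⟩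

def A022E_122 :
    ∃ t, chk3 (onCell 0 33554432 0 1073741824 33554432 16777216 (corTK [] true 1 c0F cA022E gF1q0 gF2q2 gF2q2 gF3q2 true false)) t 1 1 1 = true :=
  ⟨(T.b (T.b (T.a (T.a (T.a (T.b (T.l 204) (T.l 204)) (T.b (T.b (T.a (T.b (T.b (T.a (T.a (T.l 204) (T.l 204)) (T.a (T.l 204) (T.l 204))) (T.l 204)) (T.l 204)) (T.b (T.b (T.b (T.a (T.c (T.l 204) (T.l 204)) (T.a (T.l 204) (T.c (T.l 204) (T.l 204)))) (T.l 204)) (T.l 204)) (T.l 204))) (T.l 204)) (T.l 204))) (T.b (T.b (T.a (T.b (T.b (T.a (T.b (T.b (T.a (T.a (T.l 204) (T.l 204)) (T.c (T.c (T.l 204) (T.l 204)) (T.l 220))) (T.l 204)) (T.l 204)) (T.b (T.b (T.a (T.c (T.a (T.l 204) (T.l 204)) (T.c (T.l 204) (T.l 204))) (T.c (T.a (T.l 204) (T.l 220)) (T.c (T.l 204) (T.l 204)))) (T.l 204)) (T.l 204))) (T.l 204)) (T.l 204)) (T.b (T.b (T.b (T.a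 (T.b (T.c (T.b (T.c (T.b (T.a (T.c (T.l 220) (T.l 220)) (T.a (T.l 204) (T.l 204))) (T.l 204)) (T.b (T.a (T.c (T.l 204) (T.l 204)) (T.c (T.l 220) (T.l 204))) (T.l 204))) (T.l 204)) (T.b (T.c (T.a (T.l 220) (T.l 220)) (T.a (T.l 204) (T.l 204))) (T.l 204))) (T.l 204)) (T.b (T.c (T.b (T.c (T.b (T.a (T.c (T.l 220) (T.l 220)) (T.c (T.l 220) (T.l 220))) (T.l 204)) (T.b (T.a (T.c (T.l 220) (T.l 204)) (T.c (T.l 220) (T.l 220))) (T.l 204))) (T.l 204)) (T.b (T.c (T.a (T.l 220) (T.c (T.l 220) (T.l 204))) (T.a (T.l 204) (T.l 220))) (T.l 204))) (T.l 204))) (T.l 204)) (T.l 204)) (T.l 204))) (T.l 204)) (T.l 204))) (T.b (T.b (T.a (T.b (T.b (T.a (T.b (T.b (T.a (T.c (T.b (T.c (T.a (T.c (T.l 220) (T.l 220)) (T.l 220)) (T.a (T.c (T.l 220) (T.l 220)) (T.l 220))) (T.l 204)) (T.b (T.c (T.a (T.l 220) (T.l 220)) (T.a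 (T.l 220) (T.l 204))) (T.l 204))) (T.c (T.b (T.c (T.a (T.l 220) (T.l 220)) (T.a (T.l 220) (T.l 220))) (T.l 204)) (T.a (T.c (T.l 220) (T.l 204)) (T.l 220)))) (T.l 220)) (T.l 204)) (T.b (T.b (T.a (T.c (T.a (T.c (T.l 220) (T.l 220)) (T.l 220)) (T.a (T.l 220) (T.l 220))) (T.c (T.a (T.l 220) (T.l 220)) (T.a (T.l 220) (T.l 220)))) (T.l 204)) (T.l 204))) (T.l 204)) (T.l 204)) (T.b (T.b (T.b (T.a (T.b (T.c (T.b (T.a (T.a (T.l 220) (T.l 220)) (T.c (T.l 220) (T.l 220))) (T.l 204)) (T.b (T.a (T.a (T.l 220) (T.l 220)) (T.c (T.l 220) (T.l 220))) (T.l 204))) (T.l 204)) (T.b (T.c (T.a (T.c (T.l 220) (T.l 220)) (T.l 220)) (T.a (T.c (T.l 220) (T.l 220)) (T.l 220))) (T.l 204))) (T.l 204)) (T.l 204)) (T.l 204))) (T.l 16)) (T.l 0))) (T.a (T.a (T.a (T.l 204) (T.l 0)) (T.l 0)) (T.b (T.l 0) (T.l 0)))) (T.b (T.a (T.a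 (T.a (T.l 204) (T.l 204)) (T.l 0)) (T.b (T.l 0) (T.l 0))) (T.b (T.a (T.a (T.a (T.l 204) (T.l 204)) (T.l 204)) (T.l 0)) (T.a (T.a (T.a (T.l 204) (T.l 204)) (T.l 204)) (T.l 204))))), by decide +kernel⟩

def A022E_220 :
    ∃ t, chk3 (onCell 0 33554432 0 1073741824 33554432 16777216 (corTK [] true 1 c0F cA022E gF2q0 gF2q2 gF0q2 gF1q2 true true)) t 1 1 1 = true :=
  ⟨(T.l 2), by decide +kernel⟩

def A022E_221 :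
    ∃ t, chk3 (onCell 0 33554432 0 1073741824 33554432 16777216 (corTK [] true 1 c0F cA022E gF2q0 gF2q2 gF1q2 gF2q2 true true)) t 1 1 1 = true :=
  ⟨(T.b (T.b (T.b (T.b (T.b (T.a (T.b (T.a (T.a (T.l 204) (T.l 2)) (T.l 2)) (T.l 2)) (T.l 2)) (T.l 2)) (T.l 2)) (T.l 2)) (T.l 2)) (T.l 2)), by decide +kernel⟩

def A022E_222 :
    ∃ t, chk3 (onCell 0 33554432 0 1073741824 33554432 16777216 (corTK [] true 1 c0F cA022E gF2q0 gF2q2 gF2q2 gF3q2 true false)) t 1 1 1 = true :=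
  ⟨(T.b (T.b (T.a (T.a (T.a (T.b (T.b (T.l 204) (T.l 204)) (T.l 204)) (T.b (T.b (T.b (T.a (T.b (T.b (T.a (T.a (T.l 204) (T.l 204)) (T.a (T.l 204) (T.l 204))) (T.l 204)) (T.l 204)) (T.b (T.b (T.b (T.a (T.c (T.l 204) (T.l 204)) (T.a (T.l 204) (T.l 220))) (T.l 204)) (T.l 204)) (T.l 204))) (T.l 204)) (T.l 204)) (T.l 204))) (T.b (T.b (T.b (T.b (T.a (T.b (T.a (T.b (T.c (T.b (T.c (T.a (T.l 204) (T.l 204)) (T.a (T.l 204) (T.l 204))) (T.l 204)) (T.a (T.l 204) (T.c (T.l 204) (T.l 204)))) (T.l 204)) (T.b (T.c (T.b (T.c (T.b (T.c (T.a (T.l 204) (T.l 220)) (T.a (T.l 204) (T.l 204))) (T.l 204)) (T.a (T.l 204) (T.c (T.l 204) (T.l 204)))) (T.l 204)) (T.b (T.c (T.a (T.l 204) (T.l 204)) (T.a (T.l 204) (T.l 204))) (T.l 204))) (T.l 204))) (T.l 204)) (T.b (T.b (T.a (T.c (T.b (T.c (T.b (T.c (T.a (T.l 220) (T.a (T.l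 204) (T.l 204))) (T.a (T.l 220) (T.l 220))) (T.l 204)) (T.b (T.c (T.a (T.l 204) (T.l 220)) (T.a (T.l 204) (T.l 204))) (T.l 204))) (T.l 204)) (T.b (T.c (T.a (T.l 220) (T.l 220)) (T.a (T.l 204) (T.l 204))) (T.l 204))) (T.c (T.b (T.c (T.b (T.c (T.a (T.l 220) (T.l 220)) (T.a (T.l 220) (T.l 220))) (T.l 204)) (T.b (T.c (T.a (T.l 220) (T.l 220)) (T.a (T.l 204) (T.l 220))) (T.l 204))) (T.l 204)) (T.b (T.c (T.a (T.l 220) (T.c (T.l 220) (T.l 204))) (T.a (T.l 204) (T.l 220))) (T.l 204)))) (T.l 204)) (T.l 204))) (T.l 204)) (T.l 204)) (T.l 204)) (T.l 204))) (T.b (T.b (T.b (T.a (T.b (T.b (T.a (T.b (T.c (T.b (T.a (T.c (T.b (T.a (T.c (T.l 220) (T.l 220)) (T.l 220)) (T.l 204)) (T.a (T.c (T.l 220) (T.l 220)) (T.l 220))) (T.c (T.a (T.l 220) (T.l 220)) (T.a (T.l 220) (T.l 220)))) (T.l 204)) (T.b (T.a (T.c (T.a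 (T.l 220) (T.l 220)) (T.a (T.l 220) (T.l 204))) (T.a (T.c (T.l 204) (T.l 204)) (T.l 220))) (T.l 204))) (T.l 204)) (T.b (T.c (T.b (T.c (T.b (T.a (T.a (T.l 220) (T.l 220)) (T.a (T.l 220) (T.l 220))) (T.l 204)) (T.b (T.a (T.a (T.l 220) (T.l 204)) (T.a (T.l 204) (T.l 204))) (T.l 204))) (T.l 204)) (T.b (T.c (T.b (T.a (T.a (T.l 204) (T.l 204)) (T.a (T.l 204) (T.l 204))) (T.l 204)) (T.b (T.a (T.a (T.l 204) (T.l 204)) (T.a (T.l 204) (T.l 204))) (T.l 204))) (T.l 204))) (T.l 204))) (T.l 204)) (T.l 204)) (T.b (T.b (T.b (T.a (T.c (T.b (T.c (T.a (T.a (T.l 220) (T.l 220)) (T.l 220)) (T.a (T.a (T.l 204) (T.l 204)) (T.l 220))) (T.l 204)) (T.b (T.c (T.a (T.a (T.l 204) (T.l 204)) (T.l 220)) (T.a (T.l 220) (T.l 220))) (T.l 204))) (T.c (T.a (T.c (T.l 220) (T.l 220)) (T.l 220)) (T.a (T.c (T.l 220) (T.l 220)) (T.l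 220)))) (T.l 204)) (T.l 204)) (T.l 204))) (T.l 0)) (T.l 0)) (T.l 0))) (T.a (T.a (T.a (T.l 204) (T.l 0)) (T.l 0)) (T.l 0))) (T.b (T.a (T.a (T.a (T.l 204) (T.l 204)) (T.l 0)) (T.l 0)) (T.b (T.a (T.a (T.a (T.l 204) (T.l 204)) (T.l 204)) (T.l 0)) (T.a (T.a (T.a (T.l 204) (T.l 204)) (T.l 204)) (T.l 204))))), by decide +kernel⟩

end Pool.Agent.Strip051.G.I1_32_3_64.Tab.CF
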