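import Pool.Agent.Strip051.G.I1_32_3_64.Gn
import Pool.Agent.Strip051.PB.Corns
import Pool.Agent.Strip051.PB.CornK

/-! # Certificates of the aligned corners (generated) -/

set_option linter.all false

namespace Pool.Agent.Strip051.G.I1_32_3_64.Tab.CF

open Pool.Agent.Strip051.PB

def A022L_003 :
    ∃ t, chk3 (onCell 0 16777216 0 1073741824 33554432 16777216 (corXK [] 1 c0F cA022L tA022L gF0q0 gF0q2 gF3q2 gF4q2 gF4q2 false true)) t 1 1 1 = true :=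
  ⟨(T.b (T.b (T.a (T.a (T.b (T.b (T.a (T.a (T.b (T.l 207) (T.l 207)) (T.l 207)) (T.l 207)) (T.a (T.a (T.b (T.l 207) (T.l 207)) (T.l 207)) (T.l 207))) (T.b (T.a (T.a (T.b (T.l 207) (T.l 207)) (T.l 207)) (T.l 207)) (T.a (T.a (T.b (T.l 207) (T.l 207)) (T.l 207)) (T.l 207)))) (T.a (T.b (T.l 463) (T.l 463)) (T.b (T.a (T.b (T.b (T.l 204) (T.l 204)) (T.l 207)) (T.b (T.b (T.a (T.l 204) (T.b (T.l 204) (T.l 204))) (T.l 204)) (T.b (T.l 204) (T.l 204)))) (T.b (T.a (T.l 207) (T.b (T.l 460) (T.l 460))) (T.l 207))))) (T.a (T.b (T.a (T.b (T.a (T.b (T.a (T.l 204) (T.l 204)) (T.a (T.l 460) (T.l 460))) (T.b (T.b (T.l 204) (T.l 204)) (T.b (T.l 204) (T.l 460)))) (T.a (T.b (T.a (T.b (T.l 204) (T.l 204)) (T.l 460)) (T.a (T.l 204) (T.l 460))) (T.b (T.b (T.l 460) (T.l 460)) (T.b (T.l 460) (T.l 460))))) (T.b (T.a (T.b (T.b (T.l 204) (T.l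 204)) (T.b (T.l 204) (T.l 204))) (T.b (T.b (T.l 204) (T.l 204)) (T.b (T.l 204) (T.l 204)))) (T.a (T.b (T.b (T.l 204) (T.l 204)) (T.b (T.l 460) (T.l 460))) (T.b (T.b (T.l 204) (T.l 204)) (T.b (T.l 204) (T.l 204)))))) (T.a (T.b (T.a (T.b (T.b (T.b (T.l 460) (T.l 460)) (T.l 204)) (T.l 460)) (T.b (T.a (T.l 460) (T.l 460)) (T.a (T.b (T.l 204) (T.l 204)) (T.l 460)))) (T.a (T.b (T.l 460) (T.l 460)) (T.a (T.l 460) (T.b (T.b (T.l 204) (T.l 204)) (T.b (T.l 460) (T.l 204)))))) (T.b (T.a (T.b (T.b (T.l 460) (T.l 460)) (T.b (T.l 460) (T.l 460))) (T.b (T.b (T.l 460) (T.l 460)) (T.b (T.l 460) (T.l 460)))) (T.a (T.b (T.b (T.l 460) (T.l 460)) (T.a (T.b (T.l 204) (T.l 460)) (T.l 460))) (T.b (T.b (T.l 460) (T.l 460)) (T.b (T.l 460) (T.l 460))))))) (T.b (T.a (T.b (T.a (T.b (T.b (T.l 204) (T.l 204)) (T.b (T.l 204) (T.l 204))) (T.b (T.b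 (T.l 204) (T.l 204)) (T.b (T.l 204) (T.l 204)))) (T.b (T.a (T.b (T.l 204) (T.l 204)) (T.b (T.l 204) (T.l 204))) (T.a (T.b (T.l 204) (T.l 204)) (T.b (T.l 204) (T.l 204))))) (T.b (T.b (T.a (T.b (T.l 204) (T.l 204)) (T.b (T.l 204) (T.l 204))) (T.a (T.b (T.l 204) (T.l 204)) (T.b (T.l 204) (T.l 204)))) (T.b (T.a (T.b (T.l 204) (T.l 204)) (T.b (T.l 204) (T.l 204))) (T.a (T.b (T.l 204) (T.l 204)) (T.b (T.l 204) (T.l 460)))))) (T.a (T.b (T.b (T.a (T.b (T.l 204) (T.l 460)) (T.b (T.l 204) (T.l 460))) (T.a (T.b (T.l 460) (T.l 460)) (T.b (T.l 460) (T.l 460)))) (T.b (T.a (T.b (T.l 460) (T.l 460)) (T.b (T.l 460) (T.l 460))) (T.a (T.b (T.l 460) (T.l 460)) (T.b (T.l 460) (T.l 460))))) (T.b (T.b (T.a (T.b (T.l 460) (T.l 460)) (T.b (T.l 460) (T.l 460))) (T.a (T.b (T.l 460) (T.l 460)) (T.b (T.l 460) (T.l 460)))) (T.b (T.a (T.b (T.l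 460) (T.l 460)) (T.b (T.l 460) (T.l 460))) (T.a (T.b (T.l 460) (T.l 460)) (T.b (T.l 460) (T.l 460))))))))) (T.a (T.b (T.b (T.a (T.a (T.a (T.b (T.l 207) (T.l 207)) (T.l 207)) (T.l 207)) (T.b (T.l 463) (T.l 463))) (T.a (T.a (T.a (T.b (T.l 207) (T.l 207)) (T.l 207)) (T.l 207)) (T.b (T.l 463) (T.l 463)))) (T.b (T.a (T.a (T.a (T.b (T.l 207) (T.l 207)) (T.l 207)) (T.l 463)) (T.b (T.l 463) (T.l 463))) (T.a (T.a (T.a (T.b (T.l 207) (T.l 207)) (T.l 207)) (T.l 463)) (T.b (T.l 463) (T.l 463))))) (T.a (T.b (T.a (T.b (T.b (T.c (T.l 460) (T.l 460)) (T.a (T.l 207) (T.l 460))) (T.b (T.a (T.l 207) (T.l 460)) (T.l 207))) (T.b (T.b (T.a (T.b (T.b (T.l 460) (T.l 460)) (T.b (T.l 460) (T.l 460))) (T.b (T.l 460) (T.l 460))) (T.a (T.b (T.b (T.l 460) (T.l 460)) (T.l 460)) (T.b (T.b (T.l 460) (T.l 460)) (T.b (T.l 460) (T.l 460))))) (T.a (T.b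 (T.l 460) (T.l 460)) (T.b (T.b (T.b (T.l 460) (T.l 460)) (T.b (T.l 460) (T.l 460))) (T.b (T.b (T.l 460) (T.l 460)) (T.l 460)))))) (T.a (T.l 463) (T.b (T.b (T.c (T.l 460) (T.l 460)) (T.a (T.l 207) (T.l 460))) (T.b (T.b (T.b (T.l 460) (T.l 463)) (T.l 463)) (T.l 463))))) (T.b (T.b (T.a (T.b (T.a (T.b (T.l 460) (T.l 460)) (T.b (T.l 460) (T.l 460))) (T.a (T.b (T.l 460) (T.l 460)) (T.b (T.l 460) (T.l 460)))) (T.b (T.a (T.b (T.l 460) (T.l 460)) (T.b (T.l 460) (T.l 460))) (T.a (T.b (T.l 460) (T.l 460)) (T.b (T.l 460) (T.l 460))))) (T.a (T.b (T.a (T.b (T.l 460) (T.b (T.l 460) (T.l 460))) (T.b (T.l 460) (T.l 460))) (T.a (T.b (T.b (T.l 460) (T.l 460)) (T.b (T.l 460) (T.l 460))) (T.b (T.l 460) (T.l 460)))) (T.b (T.a (T.b (T.l 460) (T.l 460)) (T.b (T.l 460) (T.l 460))) (T.a (T.b (T.l 460) (T.l 460)) (T.b (T.l 460) (T.l 460))))))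 (T.b (T.a (T.b (T.a (T.b (T.b (T.l 460) (T.l 460)) (T.b (T.l 460) (T.l 460))) (T.b (T.b (T.l 460) (T.l 460)) (T.b (T.l 460) (T.l 460)))) (T.a (T.l 460) (T.b (T.b (T.l 460) (T.l 460)) (T.b (T.l 460) (T.l 460))))) (T.b (T.a (T.b (T.l 460) (T.l 460)) (T.b (T.l 460) (T.l 460))) (T.a (T.b (T.b (T.l 460) (T.l 460)) (T.b (T.l 460) (T.l 460))) (T.b (T.l 460) (T.b (T.l 460) (T.l 460)))))) (T.a (T.b (T.a (T.l 460) (T.b (T.b (T.l 460) (T.l 460)) (T.l 460))) (T.c (T.l 460) (T.b (T.l 460) (T.l 460)))) (T.b (T.a (T.b (T.b (T.l 460) (T.l 460)) (T.b (T.l 460) (T.l 460))) (T.b (T.b (T.l 460) (T.l 460)) (T.b (T.l 460) (T.l 460)))) (T.b (T.a (T.b (T.l 460) (T.l 460)) (T.b (T.l 460) (T.l 460))) (T.a (T.l 460) (T.b (T.l 460) (T.l 460))))))))))) (T.b (T.b (T.a (T.b (T.a (T.a (T.a (T.b (T.l 207) (T.l 207)) (T.l 207)) (T.l 463)) (T.b (T.l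 463) (T.l 463))) (T.a (T.a (T.a (T.b (T.l 207) (T.l 207)) (T.l 207)) (T.l 463)) (T.b (T.l 463) (T.l 463)))) (T.a (T.b (T.l 463) (T.l 463)) (T.b (T.a (T.b (T.a (T.l 463) (T.b (T.l 460) (T.l 460))) (T.l 463)) (T.b (T.b (T.a (T.l 460) (T.b (T.l 460) (T.l 460))) (T.b (T.l 460) (T.l 460))) (T.b (T.c (T.l 460) (T.l 460)) (T.c (T.l 460) (T.l 460))))) (T.b (T.a (T.l 463) (T.a (T.l 463) (T.c (T.l 460) (T.b (T.l 460) (T.l 460))))) (T.l 463))))) (T.b (T.a (T.a (T.a (T.a (T.b (T.l 207) (T.l 207)) (T.l 207)) (T.l 463)) (T.b (T.l 463) (T.l 463))) (T.a (T.l 463) (T.l 463))) (T.l 2))) (T.l 2))), by decide +kernel⟩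

def A022L_013 :
    ∃ t, chk3 (onCell 0 33554432 0 1073741824 33554432 16777216 (corTK [] true 1 c0F cA022L gF0q0 gF1q2 gF3q2 gF4q2 false true)) t 1 1 1 = true :=
  ⟨(T.b (T.b (T.a (T.a (T.a (T.l 204) (T.a (T.l 204) (T.b (T.l 204) (T.l 204)))) (T.a (T.b (T.b (T.l 204) (T.l 204)) (T.b (T.l 204) (T.l 204))) (T.b (T.l 204) (T.l 204)))) (T.a (T.a (T.b (T.l 204) (T.l 204)) (T.b (T.l 204) (T.l 204))) (T.b (T.b (T.l 204) (T.l 204)) (T.b (T.l 204) (T.l 204))))) (T.b (T.a (T.a (T.l 204) (T.a (T.b (T.l 204) (T.l 256)) (T.b (T.l 204) (T.l 204)))) (T.a (T.a (T.l 0) (T.l 204)) (T.b (T.l 204) (T.l 0)))) (T.l 2))) (T.l 2)), by decide +kernel⟩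

def A022L_023 :
    ∃ t, chk3 (onCell 0 33554432 0 1073741824 33554432 16777216 (corTK [] true 1 c0F cA022L gF0q0 gF2q2 gF3q2 gF4q2 false true)) t 1 1 1 = true :=
  ⟨(T.l 2), by decide +kernel⟩

def A022L_113 :
    ∃ t, chk3 (onCell 0 33554432 0 1073741824 33554432 16777216 (corTK [] true 1 c0F cA022L gF1q0 gF1q2 gF3q2 gF4q2 false true)) t 1 1 1 = true :=
  ⟨(T.b (T.b (T.a (T.a (T.a (T.l 204) (T.a (T.l 204) (T.b (T.l 204) (T.l 204)))) (T.b (T.a (T.b (T.l 204) (T.l 204)) (T.l 204)) (T.l 0))) (T.b (T.b (T.a (T.b (T.l 204) (T.l 204)) (T.l 204)) (T.l 0)) (T.l 0))) (T.l 2)) (T.l 2)), by decide +kernel⟩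

def A022L_123 :
    ∃ t, chk3 (onCell 0 33554432 0 1073741824 33554432 16777216 (corTK [] true 1 c0F cA022L gF1q0 gF2q2 gF3q2 gF4q2 false true)) t 1 1 1 = true :=
  ⟨(T.l 2), by decide +kernel⟩

def A022L_223 :
    ∃ t, chk3 (onCell 0 33554432 0 1073741824 33554432 16777216 (corTK [] true 1 c0F cA022L gF2q0 gF2q2 gF3q2 gF4q2 false true)) t 1 1 1 = true :=
  ⟨(T.l 2), by decide +kernel⟩

def A022R_040 :
    ∃ t, chk3 (onCell 0 33554432 0 1073741824 33554432 16777216 (corTK [] true 1 c0F cA022R gF0q0 gF4q2 gF0q2 gF1q2 true true)) t 1 1 1 = true :=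
  ⟨(T.l 2), by decide +kernel⟩

def A022R_041 :
    ∃ t, chk3 (onCell 0 33554432 0 1073741824 33554432 16777216 (corTK [] true 1 c0F cA022R gF0q0 gF4q2 gF1q2 gF2q2 true true)) t 1 1 1 = true :=
  ⟨(T.b (T.b (T.a (T.a (T.a (T.l 204) (T.a (T.l 0) (T.l 0))) (T.a (T.l 0) (T.l 0))) (T.a (T.a (T.l 0) (T.b (T.b (T.l 204) (T.l 204)) (T.l 0))) (T.b (T.a (T.b (T.l 204) (T.l 204)) (T.l 204)) (T.a (T.b (T.l 0) (T.l 0)) (T.l 64))))) (T.b (T.a (T.a (T.a (T.l 0) (T.a (T.l 0) (T.l 0))) (T.a (T.l 0) (T.l 0))) (T.a (T.l 0) (T.a (T.l 0) (T.b (T.l 0) (T.l 816))))) (T.a (T.a (T.a (T.l 816) (T.a (T.l 816) (T.l 816))) (T.a (T.l 0) (T.l 816))) (T.a (T.l 64) (T.b (T.l 816) (T.l 880)))))) (T.b (T.a (T.a (T.a (T.l 816) (T.a (T.l 816) (T.b (T.l 816) (T.l 880)))) (T.a (T.a (T.l 816) (T.l 816)) (T.b (T.l 816) (T.l 880)))) (T.a (T.a (T.b (T.l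 816) (T.l 880)) (T.b (T.l 816) (T.b (T.l 816) (T.l 880)))) (T.b (T.a (T.l 880) (T.l 880)) (T.a (T.b (T.l 816) (T.l 816)) (T.l 880))))) (T.b (T.a (T.a (T.a (T.l 816) (T.a (T.l 880) (T.a (T.l 816) (T.l 816)))) (T.a (T.a (T.b (T.l 816) (T.l 880)) (T.l 880)) (T.a (T.l 816) (T.b (T.l 816) (T.l 816))))) (T.a (T.a (T.a (T.b (T.l 816) (T.l 880)) (T.b (T.l 816) (T.l 816))) (T.b (T.b (T.l 816) (T.l 880)) (T.a (T.l 816) (T.l 816)))) (T.a (T.b (T.l 880) (T.b (T.l 816) (T.l 880))) (T.a (T.l 880) (T.l 880))))) (T.b (T.b (T.a (T.a (T.a (T.l 816) (T.a (T.l 816) (T.a (T.l 816) (T.l 816)))) (T.a (T.a (T.c (T.l 816) (T.l 816)) (T.l 880)) (T.a (T.l 816) (T.l 816)))) (T.a (T.a (T.a (T.l 880) (T.l 816)) (T.a (T.l 816) (T.l 816))) (T.a (T.b (T.l 880) (T.l 880)) (T.b (T.l 880) (T.l 880))))) (T.a (T.a (T.a (T.l 816) (T.a (T.c (T.l 816) (T.l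 816)) (T.a (T.l 816) (T.l 816)))) (T.a (T.a (T.a (T.l 816) (T.l 816)) (T.c (T.l 816) (T.l 816))) (T.a (T.l 880) (T.b (T.l 880) (T.l 880))))) (T.a (T.a (T.a (T.b (T.l 880) (T.l 880)) (T.l 880)) (T.a (T.l 880) (T.l 880))) (T.a (T.a (T.l 880) (T.l 880)) (T.a (T.l 880) (T.l 880)))))) (T.b (T.a (T.b (T.a (T.a (T.l 816) (T.a (T.c (T.l 816) (T.l 816)) (T.a (T.l 816) (T.b (T.l 816) (T.l 880))))) (T.a (T.a (T.a (T.l 816) (T.l 816)) (T.c (T.l 880) (T.l 880))) (T.a (T.c (T.l 816) (T.l 816)) (T.c (T.l 880) (T.l 816))))) (T.a (T.a (T.l 816) (T.a (T.a (T.l 816) (T.l 816)) (T.a (T.l 816) (T.c (T.l 816) (T.l 816))))) (T.a (T.a (T.a (T.l 880) (T.l 816)) (T.a (T.l 816) (T.l 816))) (T.a (T.a (T.l 816) (T.l 816)) (T.a (T.l 880) (T.l 880)))))) (T.a (T.a (T.a (T.a (T.b (T.l 816) (T.l 880)) (T.b (T.l 816) (T.l 880))) (T.a (T.l 880) (T.l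 880))) (T.a (T.a (T.l 880) (T.l 880)) (T.a (T.l 880) (T.l 880)))) (T.a (T.a (T.b (T.l 880) (T.l 880)) (T.b (T.l 880) (T.l 880))) (T.a (T.b (T.l 880) (T.l 880)) (T.b (T.l 880) (T.l 880)))))) (T.a (T.b (T.a (T.a (T.l 816) (T.a (T.a (T.l 816) (T.l 816)) (T.a (T.l 816) (T.a (T.l 816) (T.l 816))))) (T.a (T.a (T.a (T.c (T.l 816) (T.l 816)) (T.c (T.l 816) (T.l 816))) (T.a (T.c (T.l 816) (T.l 816)) (T.c (T.l 816) (T.l 816)))) (T.a (T.a (T.c (T.l 816) (T.l 816)) (T.c (T.l 880) (T.l 816))) (T.a (T.c (T.l 880) (T.l 816)) (T.a (T.l 880) (T.l 880)))))) (T.a (T.a (T.l 816) (T.a (T.a (T.l 880) (T.l 816)) (T.a (T.l 816) (T.a (T.l 816) (T.b (T.l 816) (T.l 2)))))) (T.b (T.a (T.b (T.a (T.a (T.c (T.l 816) (T.l 816)) (T.c (T.l 816) (T.l 816))) (T.a (T.c (T.l 816) (T.l 816)) (T.l 2))) (T.a (T.c (T.a (T.l 880) (T.l 2)) (T.a (T.l 816) (T.l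 2))) (T.l 2))) (T.l 2)) (T.l 2)))) (T.b (T.a (T.b (T.a (T.a (T.a (T.l 880) (T.l 880)) (T.a (T.l 880) (T.l 880))) (T.b (T.a (T.c (T.l 880) (T.l 880)) (T.c (T.l 880) (T.l 880))) (T.l 2))) (T.a (T.b (T.a (T.a (T.l 880) (T.l 2)) (T.l 2)) (T.l 2)) (T.l 2))) (T.l 2)) (T.l 2)))))))), by decide +kernel⟩

def A022R_042 :
    ∃ t, chk3 (onCell 0 33554432 0 1073741824 33554432 16777216 (corTK [] true 1 c0F cA022R gF0q0 gF4q2 gF2q2 gF3q2 true false)) t 1 1 1 = true :=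
  ⟨(T.b (T.l 1) (T.b (T.l 1) (T.b (T.l 1) (T.b (T.l 1) (T.b (T.a (T.l 1) (T.b (T.l 1) (T.a (T.a (T.l 1) (T.a (T.l 1) (T.l 880))) (T.a (T.a (T.l 880) (T.l 880)) (T.a (T.l 880) (T.l 880)))))) (T.a (T.b (T.a (T.l 1) (T.b (T.l 1) (T.a (T.a (T.l 1) (T.c (T.l 816) (T.l 816))) (T.a (T.a (T.l 816) (T.l 880)) (T.a (T.l 880) (T.l 880)))))) (T.a (T.a (T.l 816) (T.a (T.a (T.l 816) (T.l 816)) (T.a (T.l 816) (T.c (T.l 816) (T.l 816))))) (T.a (T.a (T.a (T.l 880) (T.b (T.l 816) (T.l 880))) (T.c (T.a (T.l 816) (T.l 880)) (T.c (T.l 880) (T.l 816)))) (T.a (T.a (T.c (T.l 880) (T.l 816)) (T.c (T.b (T.l 880) (T.c (T.l 880) (T.l 880))) (T.b (T.l 816) (T.l 880)))) (T.a (T.c (T.b (T.l 880) (T.c (T.l 880) (T.l 880))) (T.b (T.l 816) (T.l 880))) (T.c (T.b (T.l 880) (T.a (T.l 880) (T.l 880))) (T.a (T.l 880) (T.l 880)))))))) (T.a (T.a (T.a (T.a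 (T.b (T.b (T.l 816) (T.l 880)) (T.c (T.b (T.l 880) (T.a (T.l 880) (T.l 880))) (T.a (T.l 880) (T.l 880)))) (T.b (T.b (T.l 816) (T.l 880)) (T.c (T.b (T.l 880) (T.a (T.l 880) (T.l 880))) (T.a (T.l 880) (T.l 880))))) (T.b (T.a (T.l 880) (T.l 880)) (T.a (T.c (T.b (T.l 880) (T.a (T.l 880) (T.l 880))) (T.a (T.l 880) (T.l 880))) (T.c (T.b (T.l 880) (T.a (T.l 880) (T.l 880))) (T.a (T.l 880) (T.l 880)))))) (T.a (T.b (T.a (T.l 880) (T.l 880)) (T.a (T.c (T.b (T.l 880) (T.a (T.l 880) (T.l 880))) (T.b (T.l 816) (T.l 880))) (T.b (T.l 880) (T.c (T.c (T.l 880) (T.l 880)) (T.l 880))))) (T.b (T.a (T.l 880) (T.l 880)) (T.a (T.b (T.l 880) (T.c (T.c (T.l 880) (T.l 880)) (T.l 880))) (T.b (T.l 880) (T.c (T.b (T.l 880) (T.l 880)) (T.l 880))))))) (T.a (T.a (T.b (T.c (T.l 880) (T.l 880)) (T.a (T.b (T.l 880) (T.c (T.b (T.l 880) (T.l 880)) (T.l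 880))) (T.b (T.l 880) (T.c (T.b (T.l 880) (T.l 880)) (T.l 880))))) (T.b (T.b (T.l 880) (T.l 880)) (T.b (T.c (T.l 880) (T.l 880)) (T.a (T.c (T.b (T.l 880) (T.l 880)) (T.l 880)) (T.c (T.l 880) (T.l 880)))))) (T.a (T.b (T.b (T.l 880) (T.l 880)) (T.b (T.c (T.l 880) (T.l 880)) (T.c (T.a (T.l 880) (T.l 880)) (T.a (T.l 880) (T.l 880))))) (T.b (T.l 880) (T.b (T.c (T.l 880) (T.l 880)) (T.c (T.a (T.l 880) (T.l 880)) (T.a (T.l 880) (T.l 880)))))))))))))), by decide +kernel⟩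

def A022R_140 :
    ∃ t, chk3 (onCell 0 33554432 0 1073741824 33554432 16777216 (corTK [] true 1 c0F cA022R gF1q0 gF4q2 gF0q2 gF1q2 true true)) t 1 1 1 = true :=
  ⟨(T.b (T.l 2) (T.b (T.l 2) (T.b (T.l 2) (T.a (T.b (T.l 2) (T.b (T.l 2) (T.a (T.a (T.l 204) (T.l 2)) (T.l 2)))) (T.l 2))))), by decide +kernel⟩

def A022R_141 :
    ∃ t, chk3 (onCell 0 33554432 0 1073741824 33554432 16777216 (corTK [] true 1 c0F cA022R gF1q0 gF4q2 gF1q2 gF2q2 true true)) t 1 1 1 = true :=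
  ⟨(T.b (T.b (T.a (T.a (T.a (T.l 204) (T.a (T.l 204) (T.l 204))) (T.a (T.l 204) (T.l 204))) (T.a (T.a (T.l 204) (T.b (T.b (T.l 204) (T.l 204)) (T.l 204))) (T.b (T.a (T.b (T.l 204) (T.l 204)) (T.l 204)) (T.l 0)))) (T.a (T.a (T.a (T.l 204) (T.l 0)) (T.l 0)) (T.a (T.l 0) (T.l 0)))) (T.a (T.a (T.a (T.l 204) (T.l 0)) (T.l 0)) (T.l 0))), by decide +kernel⟩

def A022R_142 :
    ∃ t, chk3 (onCell 0 33554432 0 1073741824 33554432 16777216 (corTK [] true 1 c0F cA022R gF1q0 gF4q2 gF2q2 gF3q2 true false)) t 1 1 1 = true :=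
  ⟨(T.l 1), by decide +kernel⟩

def A022R_240 :
    ∃ t, chk3 (onCell 0 33554432 0 1073741824 33554432 16777216 (corTK [] true 1 c0F cA022R gF2q0 gF4q2 gF0q2 gF1q2 true true)) t 1 1 1 = true :=
  ⟨(T.b (T.b (T.b (T.l 2) (T.a (T.b (T.l 2) (T.b (T.l 2) (T.a (T.a (T.l 204) (T.l 2)) (T.l 2)))) (T.l 2))) (T.b (T.a (T.a (T.a (T.l 204) (T.l 0)) (T.l 0)) (T.b (T.l 0) (T.l 0))) (T.a (T.a (T.a (T.l 204) (T.l 0)) (T.l 0)) (T.l 0)))) (T.a (T.a (T.a (T.l 204) (T.l 0)) (T.l 0)) (T.l 0))), by decide +kernel⟩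

def A022R_241 :
    ∃ t, chk3 (onCell 0 33554432 0 1073741824 33554432 16777216 (corTK [] true 1 c0F cA022R gF2q0 gF4q2 gF1q2 gF2q2 true true)) t 1 1 1 = true :=
  ⟨(T.b (T.b (T.b (T.a (T.a (T.a (T.l 204) (T.a (T.l 204) (T.l 204))) (T.a (T.l 204) (T.l 204))) (T.b (T.a (T.a (T.l 204) (T.l 204)) (T.b (T.l 204) (T.l 204))) (T.l 256))) (T.a (T.a (T.a (T.l 204) (T.l 0)) (T.l 0)) (T.l 256))) (T.b (T.a (T.a (T.a (T.l 204) (T.l 0)) (T.l 0)) (T.l 0)) (T.l 1))) (T.l 1)), by decide +kernel⟩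

def A022R_242 :
    ∃ t, chk3 (onCell 0 33554432 0 1073741824 33554432 16777216 (corTK [] true 1 c0F cA022R gF2q0 gF4q2 gF2q2 gF3q2 true false)) t 1 1 1 = true :=
  ⟨(T.l 1), by decide +kernel⟩

def A101E_000 :
    ∃ t, chk3 (onCell 0 33554432 0 1073741824 33554432 16777216 (corTK [] true 1 c0F cA101E gF0q1 gF0q0 gF0q1 gF1q1 true false)) t 1 1 1 = true :=
  ⟨(T.l 1), by decide +kernel⟩

def A101E_010 :
    ∃ t, chk3 (onCell 0 33554432 0 1073741824 33554432 16777216 (corTK [] true 1 c0F cA101E gF0q1 gF1q0 gF0q1 gF1q1 true false)) t 1 1 1 = true :=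
  ⟨(T.l 1), by decide +kernel⟩

def A101E_020 :
    ∃ t, chk3 (onCell 0 33554432 0 1073741824 33554432 16777216 (corTK [] true 1 c0F cA101E gF0q1 gF2q0 gF0q1 gF1q1 true false)) t 1 1 1 = true :=
  ⟨(T.b (T.l 1) (T.b (T.l 1) (T.b (T.l 1) (T.a (T.b (T.l 1) (T.a (T.a (T.l 816) (T.l 816)) (T.l 816))) (T.l 816))))), by decide +kernel⟩

def A101L_220 :
    ∃ t, chk3 (onCell 0 33554432 0 1073741824 33554432 16777216 (corTK [] true 1 c0F cA101L gF2q1 gF2q0 gF0q1 gF1q1 true false)) t 1 1 1 = true :=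
  ⟨(T.l 1), by decide +kernel⟩

def A101R_001 :
    ∃ t, chk3 (onCell 0 33554432 0 1073741824 33554432 16777216 (corTK [] true 1 c0F cA101R gF0q1 gF0q0 gF1q1 gF2q1 false true)) t 1 1 1 = true :=
  ⟨(T.l 2), by decide +kernel⟩

def A101R_002 :
    ∃ t, chk3 (onCell 0 33554432 0 1073741824 33554432 16777216 (corTK [] true 1 c0F cA101R gF0q1 gF0q0 gF2q1 gF3q1 true true)) t 1 1 1 = true :=
  ⟨(T.l 2), by decide +kernel⟩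

def A101R_003 :
    ∃ t, chk3 (onCell 0 33554432 0 1073741824 33554432 16777216 (corTK [] true 1 c0F cA101R gF0q1 gF0q0 gF3q1 gF4q1 true true)) t 1 1 1 = true :=
  ⟨(T.l 2), by decide +kernel⟩

def A101R_011 :
    ∃ t, chk3 (onCell 0 33554432 0 1073741824 33554432 16777216 (corTK [] true 1 c0F cA101R gF0q1 gF1q0 gF1q1 gF2q1 false true)) t 1 1 1 = true :=
  ⟨(T.l 2), by decide +kernel⟩

def A101R_012 :
    ∃ t, chk3 (onCell 0 33554432 0 1073741824 33554432 16777216 (corTK [] true 1 c0F cA101R gF0q1 gF1q0 gF2q1 gF3q1 true true)) t 1 1 1 = true :=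
  ⟨(T.l 2), by decide +kernel⟩

def A101R_013 :
    ∃ t, chk3 (onCell 0 33554432 0 1073741824 33554432 16777216 (corTK [] true 1 c0F cA101R gF0q1 gF1q0 gF3q1 gF4q1 true true)) t 1 1 1 = true :=
  ⟨(T.l 2), by decide +kernel⟩

def A101R_021 :
    ∃ t, chk3 (onCell 0 33554432 0 1073741824 33554432 16777216 (corTK [] true 1 c0F cA101R gF0q1 gF2q0 gF1q1 gF2q1 false true)) t 1 1 1 = true :=
  ⟨(T.l 2), by decide +kernel⟩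

def A101R_022 :
    ∃ t, chk3 (onCell 0 33554432 0 1073741824 33554432 16777216 (corTK [] true 1 c0F cA101R gF0q1 gF2q0 gF2q1 gF3q1 true true)) t 1 1 1 = true :=
  ⟨(T.l 2), by decide +kernel⟩

def A101R_023 :
    ∃ t, chk3 (onCell 0 33554432 0 1073741824 33554432 16777216 (corTK [] true 1 c0F cA101R gF0q1 gF2q0 gF3q1 gF4q1 true true)) t 1 1 1 = true :=
  ⟨(T.l 2), by decide +kernel⟩

def A102E_000 :
    ∃ t, chk3 (onCell 0 12582912 0 1073741824 33554432 16777216 (corXK [[⟨0, 1, 0, 6291456⟩, ⟨1, 0, 1, 16777216⟩, ⟨2, 1, 1, 16777216⟩, ⟨1, 0, 0, 67108864⟩, ⟨1, 1, 0, 1056964608⟩, ⟨2, 1, 0, 67108864⟩, ⟨2, 2, 0, 1056964608⟩]] 1 c0F cA102E tA102E gF0q1 gF0q0 gF0q2 gF1q2 gF0q2 true true)) t 1 1 1 = true :=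
  ⟨(T.b (T.b (T.l 2) (T.a (T.b (T.b (T.l 2) (T.a (T.a (T.l 207) (T.l 207)) (T.a (T.l 463) (T.b (T.l 463) (T.l 463))))) (T.b (T.a (T.b (T.l 463) (T.l 463)) (T.a (T.l 463) (T.l 463))) (T.a (T.b (T.l 207) (T.l 207)) (T.b (T.l 479) (T.l 479))))) (T.b (T.b (T.l 2) (T.a (T.b (T.b (T.l 2) (T.c (T.a (T.l 463) (T.l 463)) (T.l 463))) (T.a (T.b (T.l 463) (T.l 463)) (T.b (T.l 463) (T.l 463)))) (T.a (T.a (T.b (T.b (T.l 2) (T.l 463)) (T.l 479)) (T.b (T.b (T.l 2) (T.b (T.l 2) (T.a (T.l 463) (T.c (T.c (T.l 460) (T.l 460)) (T.b (T.l 460) (T.l 460)))))) (T.b (T.a (T.l 463) (T.c (T.b (T.b (T.l 476) (T.l 476)) (T.b (T.l 476) (T.l 476))) (T.c (T.l 476) (T.l 476)))) (T.l 479)))) (T.a (T.b (T.b (T.l 2) (T.b (T.l 2) (T.c (T.c (T.a (T.l 460) (T.l 476)) (T.a (T.l 460) (T.l 460))) (T.c (T.a (T.l 460) (T.l 460)) (T.a (T.l 460) (T.l 460))))))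 (T.b (T.c (T.b (T.c (T.b (T.l 476) (T.l 476)) (T.c (T.l 476) (T.l 476))) (T.c (T.b (T.l 476) (T.l 476)) (T.b (T.l 476) (T.l 476)))) (T.b (T.c (T.b (T.l 476) (T.l 476)) (T.b (T.l 460) (T.l 460))) (T.a (T.b (T.l 460) (T.l 476)) (T.l 476)))) (T.c (T.b (T.a (T.b (T.l 476) (T.l 476)) (T.l 476)) (T.a (T.l 476) (T.l 476))) (T.b (T.a (T.l 476) (T.l 476)) (T.c (T.l 476) (T.l 476)))))) (T.b (T.b (T.l 2) (T.b (T.l 2) (T.a (T.c (T.a (T.l 476) (T.b (T.l 476) (T.l 476))) (T.c (T.b (T.l 460) (T.l 460)) (T.c (T.l 460) (T.l 460)))) (T.a (T.c (T.b (T.a (T.c (T.l 476) (T.l 460)) (T.l 476)) (T.a (T.l 476) (T.l 476))) (T.b (T.a (T.c (T.l 460) (T.l 460)) (T.l 460)) (T.a (T.l 460) (T.l 460)))) (T.c (T.b (T.b (T.l 476) (T.l 476)) (T.b (T.l 476) (T.l 476))) (T.b (T.b (T.l 460) (T.l 460)) (T.b (T.l 460) (T.l 460)))))))) (T.b (T.a (T.c (T.b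 (T.b (T.l 476) (T.l 476)) (T.b (T.l 476) (T.l 476))) (T.b (T.b (T.l 476) (T.l 476)) (T.b (T.l 476) (T.l 476)))) (T.a (T.b (T.c (T.b (T.l 476) (T.l 476)) (T.b (T.l 460) (T.l 476))) (T.c (T.l 476) (T.l 476))) (T.b (T.c (T.b (T.b (T.l 476) (T.l 476)) (T.c (T.l 476) (T.l 476))) (T.b (T.b (T.l 476) (T.l 476)) (T.b (T.l 476) (T.l 476)))) (T.b (T.a (T.l 476) (T.c (T.l 476) (T.l 476))) (T.c (T.l 476) (T.l 476)))))) (T.c (T.b (T.a (T.l 476) (T.b (T.l 476) (T.l 476))) (T.c (T.l 476) (T.l 476))) (T.b (T.a (T.l 476) (T.b (T.l 476) (T.l 476))) (T.c (T.l 476) (T.l 476)))))))))) (T.a (T.b (T.b (T.a (T.l 463) (T.l 479)) (T.c (T.l 479) (T.l 479))) (T.a (T.l 479) (T.l 479))) (T.a (T.b (T.a (T.l 479) (T.l 479)) (T.b (T.l 479) (T.l 479))) (T.b (T.b (T.b (T.a (T.c (T.b (T.c (T.l 476) (T.l 476)) (T.c (T.l 476) (T.l 476))) (T.b (T.c (T.l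 476) (T.l 476)) (T.c (T.l 476) (T.l 476)))) (T.c (T.b (T.c (T.l 476) (T.l 476)) (T.b (T.l 476) (T.l 476))) (T.b (T.c (T.l 476) (T.l 476)) (T.c (T.l 476) (T.l 476))))) (T.c (T.a (T.a (T.l 479) (T.b (T.l 476) (T.l 476))) (T.b (T.b (T.l 476) (T.l 476)) (T.c (T.l 476) (T.l 476)))) (T.a (T.a (T.l 463) (T.b (T.l 476) (T.l 476))) (T.b (T.b (T.l 476) (T.l 476)) (T.c (T.l 476) (T.l 476)))))) (T.a (T.l 479) (T.b (T.c (T.b (T.c (T.l 476) (T.l 476)) (T.c (T.l 476) (T.l 476))) (T.b (T.b (T.l 476) (T.l 476)) (T.c (T.l 476) (T.l 476)))) (T.a (T.l 479) (T.c (T.b (T.l 476) (T.b (T.l 476) (T.l 476))) (T.b (T.l 476) (T.l 476))))))) (T.b (T.b (T.b (T.a (T.l 479) (T.b (T.a (T.l 479) (T.c (T.l 476) (T.l 476))) (T.l 479))) (T.l 479)) (T.l 479)) (T.l 479)))))))) (T.b (T.b (T.b (T.b (T.b (T.b (T.a (T.c (T.l 479) (T.l 223)) (T.a (T.l 479)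 (T.l 479))) (T.l 1)) (T.l 1)) (T.l 1)) (T.l 1)) (T.l 1)) (T.l 1))), by decide +kernel⟩

def A102E_001_2_4_1 :
    ∃ t, chk3 (onCell 0 12582912 0 1073741824 33554432 16777216 (corTK [[⟨0, 1, 0, 6291456⟩, ⟨1, 0, 1, 16777216⟩, ⟨2, 1, 1, 16777216⟩, ⟨1, 0, 0, 67108864⟩, ⟨1, 1, 0, 1056964608⟩, ⟨2, 1, 0, 67108864⟩, ⟨2, 2, 0, 1056964608⟩]] true 1 c0F cA102E gF0q1 gF0q0 gF1q2 gF2q2 true true)) t 2 4 1 = true :=
  ⟨(T.a (T.b (T.b (T.a (T.l 204) (T.b (T.b (T.l 204) (T.l 204)) (T.l 220))) (T.b (T.b (T.l 204) (T.l 204)) (T.l 220))) (T.b (T.b (T.l 220) (T.l 204)) (T.b (T.l 204) (T.l 204)))) (T.b (T.a (T.a (T.b (T.b (T.c (T.l 204) (T.l 204)) (T.b (T.l 204) (T.l 204))) (T.b (T.b (T.l 204) (T.l 204)) (T.l 220))) (T.b (T.b (T.a (T.b (T.b (T.a (T.l 204) (T.a (T.l 204) (T.c (T.l 204) (T.l 204)))) (T.l 220)) (T.b (T.l 204) (T.l 204)))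 (T.b (T.c (T.a (T.c (T.b (T.l 204) (T.l 204)) (T.l 220)) (T.l 220)) (T.a (T.c (T.l 220) (T.l 204)) (T.l 204))) (T.c (T.a (T.c (T.l 220) (T.l 220)) (T.l 220)) (T.a (T.c (T.l 220) (T.l 220)) (T.l 204))))) (T.a (T.b (T.l 220) (T.l 220)) (T.b (T.c (T.a (T.b (T.l 220) (T.l 220)) (T.l 220)) (T.a (T.b (T.l 220) (T.l 220)) (T.l 220))) (T.c (T.b (T.c (T.l 220) (T.l 220)) (T.c (T.l 220) (T.l 220))) (T.a (T.l 220) (T.l 220)))))) (T.b (T.a (T.b (T.l 204) (T.l 204)) (T.b (T.a (T.l 220) (T.c (T.l 220) (T.l 220))) (T.a (T.l 220) (T.c (T.l 220) (T.l 220))))) (T.b (T.l 220) (T.l 220))))) (T.b (T.b (T.a (T.b (T.c (T.a (T.b (T.l 204) (T.l 204)) (T.l 204)) (T.a (T.l 220) (T.l 204))) (T.c (T.a (T.b (T.l 204) (T.l 204)) (T.l 204)) (T.a (T.l 220) (T.l 204)))) (T.b (T.c (T.b (T.l 204) (T.l 220)) (T.b (T.l 204) (T.l 204))) (T.c (T.b (T.l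 220) (T.l 220)) (T.b (T.l 204) (T.l 220))))) (T.a (T.b (T.c (T.a (T.b (T.l 220) (T.l 220)) (T.l 220)) (T.a (T.l 220) (T.l 204))) (T.c (T.a (T.l 220) (T.l 220)) (T.a (T.l 220) (T.l 204)))) (T.b (T.c (T.b (T.l 220) (T.l 220)) (T.b (T.l 220) (T.l 220))) (T.c (T.b (T.l 220) (T.l 220)) (T.b (T.l 220) (T.l 220)))))) (T.b (T.a (T.b (T.c (T.a (T.l 220) (T.l 220)) (T.a (T.l 220) (T.l 204))) (T.c (T.a (T.b (T.l 220) (T.l 220)) (T.l 220)) (T.a (T.b (T.l 204) (T.l 220)) (T.l 204)))) (T.b (T.c (T.b (T.l 220) (T.l 220)) (T.l 220)) (T.c (T.l 220) (T.l 220)))) (T.a (T.b (T.c (T.a (T.b (T.l 220) (T.l 220)) (T.l 220)) (T.a (T.b (T.l 220) (T.l 220)) (T.l 204))) (T.c (T.a (T.l 220) (T.l 220)) (T.a (T.l 220) (T.l 204)))) (T.b (T.c (T.l 220) (T.l 220)) (T.c (T.l 220) (T.l 220))))))) (T.a (T.b (T.b (T.b (T.l 220) (T.l 220)) (T.b (T.l 204)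 (T.l 204))) (T.b (T.l 220) (T.l 220))) (T.b (T.b (T.a (T.b (T.c (T.a (T.l 220) (T.l 204)) (T.a (T.l 220) (T.l 204))) (T.a (T.b (T.l 220) (T.l 220)) (T.l 220))) (T.b (T.c (T.l 220) (T.l 220)) (T.b (T.l 220) (T.l 220)))) (T.a (T.b (T.c (T.b (T.l 220) (T.l 220)) (T.b (T.l 220) (T.l 220))) (T.c (T.l 220) (T.l 220))) (T.b (T.b (T.l 220) (T.l 220)) (T.b (T.l 220) (T.l 220))))) (T.b (T.a (T.a (T.l 220) (T.b (T.l 220) (T.l 220))) (T.b (T.l 220) (T.b (T.l 220) (T.l 220)))) (T.b (T.a (T.l 220) (T.l 220)) (T.a (T.l 204) (T.l 220)))))))), by decide +kernel⟩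

def A102E_001_12_4_1 :
    ∃ t, chk3 (onCell 0 12582912 0 1073741824 33554432 16777216 (corTK [[⟨0, 1, 0, 6291456⟩, ⟨1, 0, 1, 16777216⟩, ⟨2, 1, 1, 16777216⟩, ⟨1, 0, 0, 67108864⟩, ⟨1, 1, 0, 1056964608⟩, ⟨2, 1, 0, 67108864⟩, ⟨2, 2, 0, 1056964608⟩]] true 1 c0F cA102E gF0q1 gF0q0 gF1q2 gF2q2 true true)) t 12 4 1 = true :=
  ⟨(T.b (T.b (T.b (T.a (T.b (T.c (T.b (T.l 204) (T.l 204)) (T.b (T.l 204) (T.l 204))) (T.c (T.b (T.l 220) (T.l 220)) (T.b (T.l 204) (T.l 204)))) (T.b (T.c (T.b (T.l 220) (T.l 220)) (T.b (T.l 220) (T.l 220))) (T.c (T.b (T.l 220) (T.l 220)) (T.b (T.l 220) (T.l 220))))) (T.b (T.a (T.c (T.b (T.l 220) (T.l 220)) (T.b (T.l 220) (T.l 220))) (T.c (T.b (T.l 220) (T.l 220)) (T.b (T.l 220) (T.l 220)))) (T.a (T.c (T.b (T.l 220) (T.l 220)) (T.l 220)) (T.c (T.b (T.l 220) (T.l 220)) (T.b (T.l 220) (T.l 220))))))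 (T.b (T.b (T.a (T.c (T.l 220) (T.l 220)) (T.c (T.b (T.l 220) (T.l 220)) (T.b (T.l 220) (T.l 220)))) (T.a (T.c (T.l 220) (T.l 220)) (T.c (T.b (T.l 220) (T.l 220)) (T.b (T.l 220) (T.l 220))))) (T.b (T.c (T.a (T.l 220) (T.b (T.l 220) (T.l 220))) (T.a (T.l 220) (T.l 220))) (T.c (T.a (T.l 220) (T.l 220)) (T.a (T.l 220) (T.l 220)))))) (T.b (T.b (T.b (T.c (T.a (T.l 220) (T.l 220)) (T.a (T.l 220) (T.l 220))) (T.c (T.a (T.l 220) (T.l 220)) (T.a (T.l 220) (T.l 220)))) (T.b (T.c (T.a (T.l 220) (T.l 220)) (T.a (T.l 220) (T.l 220))) (T.c (T.c (T.l 220) (T.l 220)) (T.b (T.l 220) (T.l 220))))) (T.b (T.b (T.a (T.l 220) (T.l 220)) (T.c (T.l 220) (T.l 220))) (T.b (T.c (T.l 220) (T.l 220)) (T.b (T.l 220) (T.l 220)))))), by decide +kernel⟩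

def A102E_001_13_4_1 :
    ∃ t, chk3 (onCell 0 12582912 0 1073741824 33554432 16777216 (corTK [[⟨0, 1, 0, 6291456⟩, ⟨1, 0, 1, 16777216⟩, ⟨2, 1, 1, 16777216⟩, ⟨1, 0, 0, 67108864⟩, ⟨1, 1, 0, 1056964608⟩, ⟨2, 1, 0, 67108864⟩, ⟨2, 2, 0, 1056964608⟩]] true 1 c0F cA102E gF0q1 gF0q0 gF1q2 gF2q2 true true)) t 13 4 1 = true :=
  ⟨(T.b (T.b (T.a (T.b (T.a (T.b (T.c (T.a (T.b (T.b (T.l 220) (T.l 204)) (T.l 204)) (T.b (T.c (T.l 220) (T.l 220)) (T.a (T.l 220) (T.l 220)))) (T.a (T.c (T.l 220) (T.l 220)) (T.b (T.c (T.l 220) (T.l 220)) (T.a (T.l 220) (T.l 220))))) (T.a (T.b (T.l 220) (T.l 220)) (T.c (T.a (T.l 204) (T.b (T.b (T.l 220) (T.l 220)) (T.l 220))) (T.a (T.l 204) (T.b (T.b (T.l 204) (T.l 220)) (T.l 220)))))) (T.b (T.c (T.b (T.a (T.l 220) (T.l 220)) (T.a (T.b (T.l 204) (T.l 220)) (T.l 220))) (T.b (T.a (T.l 220) (T.l 204))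 (T.a (T.l 220) (T.l 220)))) (T.c (T.b (T.c (T.c (T.l 220) (T.l 220)) (T.b (T.l 220) (T.l 220))) (T.a (T.a (T.b (T.l 220) (T.l 220)) (T.l 220)) (T.b (T.l 220) (T.l 220)))) (T.b (T.a (T.l 220) (T.l 220)) (T.a (T.c (T.l 220) (T.l 220)) (T.l 220)))))) (T.a (T.b (T.c (T.l 220) (T.l 220)) (T.c (T.l 220) (T.l 220))) (T.b (T.c (T.b (T.a (T.c (T.b (T.l 220) (T.l 220)) (T.b (T.l 220) (T.l 220))) (T.b (T.l 220) (T.l 220))) (T.a (T.a (T.l 220) (T.b (T.l 220) (T.l 220))) (T.b (T.l 220) (T.l 220)))) (T.a (T.b (T.a (T.l 220) (T.l 220)) (T.a (T.l 204) (T.b (T.l 220) (T.l 220)))) (T.b (T.l 220) (T.b (T.l 220) (T.l 220))))) (T.c (T.b (T.a (T.c (T.l 220) (T.l 220)) (T.a (T.b (T.l 220) (T.l 220)) (T.l 220))) (T.a (T.l 220) (T.c (T.b (T.l 220) (T.l 220)) (T.b (T.l 220) (T.l 220))))) (T.b (T.a (T.b (T.l 220) (T.l 204)) (T.a (T.b (T.l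 220) (T.l 220)) (T.l 220))) (T.a (T.l 220) (T.a (T.l 220) (T.b (T.l 220) (T.l 220))))))))) (T.b (T.b (T.a (T.c (T.b (T.a (T.l 220) (T.l 220)) (T.a (T.l 220) (T.l 220))) (T.b (T.c (T.l 220) (T.l 220)) (T.c (T.l 220) (T.l 220)))) (T.c (T.b (T.c (T.l 220) (T.l 220)) (T.c (T.l 220) (T.l 220))) (T.b (T.c (T.l 204) (T.l 204)) (T.c (T.l 220) (T.l 220))))) (T.a (T.c (T.b (T.a (T.l 220) (T.l 220)) (T.a (T.b (T.l 220) (T.l 220)) (T.l 220))) (T.b (T.a (T.l 220) (T.l 220)) (T.a (T.l 220) (T.l 220)))) (T.c (T.b (T.c (T.l 220) (T.l 220)) (T.a (T.l 220) (T.l 220))) (T.b (T.c (T.l 220) (T.l 220)) (T.c (T.l 220) (T.l 220)))))) (T.b (T.a (T.c (T.b (T.a (T.b (T.l 220) (T.l 220)) (T.l 220)) (T.c (T.b (T.l 220) (T.l 220)) (T.b (T.l 220) (T.l 220)))) (T.b (T.a (T.l 220) (T.l 220)) (T.a (T.l 220) (T.l 220)))) (T.c (T.b (T.a (T.l 220) (T.l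 220)) (T.a (T.l 220) (T.l 220))) (T.b (T.c (T.l 220) (T.l 220)) (T.c (T.l 220) (T.l 220))))) (T.a (T.c (T.b (T.c (T.c (T.l 220) (T.l 220)) (T.b (T.l 220) (T.l 220))) (T.c (T.c (T.l 220) (T.l 220)) (T.c (T.l 220) (T.l 220)))) (T.b (T.a (T.b (T.l 220) (T.l 220)) (T.l 220)) (T.a (T.b (T.l 220) (T.l 220)) (T.l 220)))) (T.c (T.b (T.a (T.l 220) (T.l 220)) (T.a (T.b (T.l 220) (T.l 220)) (T.l 220))) (T.b (T.a (T.l 220) (T.l 220)) (T.a (T.l 220) (T.l 220)))))))) (T.a (T.b (T.b (T.a (T.c (T.l 220) (T.l 220)) (T.b (T.a (T.l 220) (T.a (T.l 220) (T.c (T.b (T.l 220) (T.l 220)) (T.b (T.l 220) (T.l 220))))) (T.c (T.l 220) (T.l 220)))) (T.c (T.c (T.b (T.l 220) (T.l 220)) (T.l 220)) (T.c (T.l 220) (T.l 220)))) (T.b (T.c (T.c (T.l 220) (T.l 220)) (T.b (T.l 220) (T.l 220))) (T.c (T.b (T.l 220) (T.l 220)) (T.b (T.l 220) (T.l 220)))))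 (T.b (T.a (T.b (T.c (T.b (T.c (T.a (T.l 220) (T.l 220)) (T.a (T.l 220) (T.l 220))) (T.c (T.a (T.b (T.l 220) (T.l 220)) (T.l 220)) (T.a (T.b (T.l 220) (T.l 220)) (T.l 220)))) (T.b (T.a (T.c (T.l 220) (T.l 220)) (T.l 220)) (T.a (T.a (T.b (T.l 220) (T.l 220)) (T.l 220)) (T.b (T.l 220) (T.l 220))))) (T.c (T.b (T.a (T.c (T.b (T.l 220) (T.l 220)) (T.b (T.l 220) (T.l 220))) (T.b (T.l 220) (T.l 220))) (T.a (T.c (T.b (T.l 220) (T.l 220)) (T.l 220)) (T.a (T.b (T.l 220) (T.l 220)) (T.l 220)))) (T.b (T.a (T.a (T.l 220) (T.b (T.l 220) (T.l 220))) (T.b (T.l 220) (T.l 220))) (T.a (T.c (T.l 220) (T.l 220)) (T.c (T.l 220) (T.l 220)))))) (T.b (T.c (T.b (T.a (T.b (T.l 220) (T.l 220)) (T.l 220)) (T.c (T.b (T.l 220) (T.l 220)) (T.b (T.l 220) (T.l 220)))) (T.b (T.a (T.l 220) (T.l 220)) (T.a (T.l 220) (T.l 220)))) (T.c (T.b (T.c (T.b (T.l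 220) (T.l 220)) (T.b (T.l 220) (T.l 220))) (T.c (T.b (T.l 220) (T.l 220)) (T.b (T.l 220) (T.l 220)))) (T.b (T.a (T.l 220) (T.l 220)) (T.a (T.l 220) (T.l 220)))))) (T.b (T.a (T.c (T.a (T.l 220) (T.b (T.c (T.b (T.l 220) (T.l 220)) (T.b (T.l 220) (T.l 220))) (T.a (T.l 220) (T.b (T.l 220) (T.l 220))))) (T.a (T.l 220) (T.b (T.a (T.b (T.l 220) (T.l 220)) (T.l 220)) (T.c (T.b (T.l 220) (T.l 220)) (T.l 220))))) (T.c (T.b (T.c (T.c (T.l 220) (T.l 220)) (T.b (T.l 220) (T.l 220))) (T.c (T.c (T.l 220) (T.l 220)) (T.b (T.l 220) (T.l 220)))) (T.b (T.a (T.b (T.l 220) (T.l 220)) (T.l 220)) (T.a (T.b (T.l 220) (T.l 220)) (T.l 220))))) (T.a (T.b (T.b (T.a (T.l 220) (T.c (T.c (T.l 220) (T.l 220)) (T.l 220))) (T.l 220)) (T.c (T.l 220) (T.l 220))) (T.c (T.b (T.c (T.a (T.b (T.l 220) (T.l 220)) (T.l 220)) (T.a (T.b (T.l 220) (T.l 220))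 (T.l 220))) (T.c (T.a (T.b (T.l 220) (T.l 220)) (T.l 220)) (T.a (T.b (T.l 220) (T.l 220)) (T.l 220)))) (T.b (T.a (T.c (T.l 220) (T.l 220)) (T.l 220)) (T.a (T.a (T.l 220) (T.l 220)) (T.l 220))))))))) (T.b (T.b (T.a (T.b (T.c (T.b (T.l 220) (T.l 220)) (T.l 220)) (T.c (T.l 220) (T.l 220))) (T.a (T.b (T.c (T.l 220) (T.l 220)) (T.b (T.l 220) (T.l 220))) (T.b (T.c (T.b (T.c (T.a (T.l 220) (T.l 220)) (T.a (T.l 220) (T.l 220))) (T.a (T.l 220) (T.c (T.b (T.l 220) (T.l 220)) (T.l 220)))) (T.b (T.a (T.b (T.l 220) (T.l 220)) (T.b (T.l 220) (T.l 220))) (T.a (T.l 220) (T.c (T.l 220) (T.l 220))))) (T.b (T.a (T.l 220) (T.a (T.l 220) (T.c (T.b (T.l 220) (T.l 220)) (T.l 220)))) (T.c (T.l 220) (T.l 220)))))) (T.b (T.c (T.a (T.l 220) (T.b (T.l 220) (T.l 220))) (T.a (T.l 220) (T.b (T.l 220) (T.l 220)))) (T.c (T.a (T.l 220) (T.l 220))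 (T.a (T.l 220) (T.l 220))))) (T.b (T.b (T.c (T.a (T.l 220) (T.l 220)) (T.b (T.l 220) (T.l 220))) (T.a (T.l 220) (T.b (T.l 220) (T.l 220)))) (T.b (T.c (T.l 220) (T.l 220)) (T.b (T.l 220) (T.l 220)))))), by decide +kernel⟩

def A102E_001_14_8_1 :
    ∃ t, chk3 (onCell 0 12582912 0 1073741824 33554432 16777216 (corTK [[⟨0, 1, 0, 6291456⟩, ⟨1, 0, 1, 16777216⟩, ⟨2, 1, 1, 16777216⟩, ⟨1, 0, 0, 67108864⟩, ⟨1, 1, 0, 1056964608⟩, ⟨2, 1, 0, 67108864⟩, ⟨2, 2, 0, 1056964608⟩]] true 1 c0F cA102E gF0q1 gF0q0 gF1q2 gF2q2 true true)) t 14 8 1 = true :=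
  ⟨(T.b (T.b (T.a (T.b (T.c (T.a (T.b (T.c (T.l 220) (T.l 204)) (T.c (T.l 220) (T.l 220))) (T.b (T.c (T.l 220) (T.l 204)) (T.c (T.l 220) (T.l 220)))) (T.a (T.b (T.b (T.l 220) (T.l 220)) (T.b (T.l 220) (T.l 220))) (T.c (T.b (T.l 204) (T.l 204)) (T.l 220)))) (T.c (T.a (T.b (T.c (T.l 220) (T.l 220)) (T.c (T.l 220) (T.l 220))) (T.b (T.c (T.l 220) (T.l 220)) (T.c (T.l 220) (T.l 220)))) (T.a (T.b (T.c (T.l 220) (T.l 220)) (T.c (T.l 220) (T.l 220))) (T.b (T.b (T.l 220) (T.l 220)) (T.b (T.l 220) (T.l 220)))))) (T.b (T.c (T.a (T.b (T.c (T.l 220) (T.l 204)) (T.c (T.l 220) (T.l 220))) (T.b (T.c (T.l 220) (T.l 204)) (T.c (T.l 220) (T.l 220)))) (T.a (T.a (T.l 220) (T.l 220)) (T.c (T.l 220) (T.l 220)))) (T.c (T.a (T.b (T.c (T.l 220) (T.l 220)) (T.c (T.l 220) (T.l 220))) (T.b (T.c (T.l 220) (T.l 220)) (T.c (T.l 220) (T.l 220))))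 (T.a (T.c (T.b (T.l 220) (T.l 220)) (T.l 220)) (T.a (T.l 220) (T.l 220)))))) (T.a (T.b (T.c (T.a (T.b (T.c (T.l 220) (T.l 220)) (T.c (T.l 220) (T.l 220))) (T.b (T.c (T.l 220) (T.l 220)) (T.c (T.l 220) (T.l 220)))) (T.a (T.b (T.c (T.l 220) (T.l 220)) (T.c (T.l 220) (T.l 220))) (T.b (T.b (T.l 220) (T.l 220)) (T.b (T.l 220) (T.l 220))))) (T.c (T.a (T.b (T.c (T.l 220) (T.l 220)) (T.c (T.l 220) (T.l 220))) (T.b (T.c (T.l 220) (T.l 220)) (T.c (T.l 220) (T.l 220)))) (T.a (T.b (T.c (T.l 220) (T.l 220)) (T.c (T.l 220) (T.l 220))) (T.b (T.b (T.l 220) (T.l 220)) (T.c (T.l 220) (T.l 220)))))) (T.b (T.c (T.a (T.b (T.c (T.l 220) (T.l 220)) (T.c (T.l 220) (T.l 220))) (T.b (T.c (T.l 220) (T.l 220)) (T.c (T.l 220) (T.l 220)))) (T.a (T.b (T.b (T.l 220) (T.l 220)) (T.b (T.l 220) (T.l 220))) (T.c (T.b (T.l 220) (T.l 220)) (T.l 220))))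 (T.c (T.a (T.b (T.c (T.l 220) (T.l 220)) (T.c (T.l 220) (T.l 220))) (T.b (T.b (T.l 220) (T.l 220)) (T.b (T.l 220) (T.l 220)))) (T.a (T.b (T.b (T.l 220) (T.l 220)) (T.b (T.l 220) (T.l 220))) (T.c (T.b (T.l 220) (T.l 220)) (T.l 220))))))) (T.b (T.a (T.b (T.c (T.a (T.b (T.c (T.l 220) (T.l 220)) (T.a (T.l 220) (T.l 220))) (T.b (T.c (T.l 220) (T.l 220)) (T.c (T.l 220) (T.l 220)))) (T.a (T.b (T.c (T.l 220) (T.l 220)) (T.c (T.l 220) (T.l 220))) (T.b (T.c (T.l 220) (T.l 220)) (T.c (T.l 220) (T.l 220))))) (T.c (T.a (T.b (T.a (T.l 220) (T.l 220)) (T.a (T.l 220) (T.l 220))) (T.b (T.c (T.l 220) (T.l 220)) (T.c (T.l 220) (T.l 220)))) (T.a (T.b (T.c (T.l 220) (T.l 220)) (T.c (T.l 220) (T.l 220))) (T.b (T.c (T.l 220) (T.l 220)) (T.c (T.l 220) (T.l 220)))))) (T.b (T.c (T.a (T.b (T.c (T.l 220) (T.l 220)) (T.c (T.l 220) (T.l 220)))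 (T.b (T.b (T.l 220) (T.l 220)) (T.b (T.l 220) (T.l 220)))) (T.a (T.b (T.b (T.l 220) (T.l 220)) (T.b (T.l 220) (T.l 220))) (T.c (T.b (T.l 220) (T.l 220)) (T.l 220)))) (T.c (T.a (T.b (T.c (T.l 220) (T.l 220)) (T.c (T.l 220) (T.l 220))) (T.b (T.b (T.l 220) (T.l 220)) (T.b (T.l 220) (T.l 220)))) (T.a (T.b (T.b (T.l 220) (T.l 220)) (T.b (T.l 220) (T.l 220))) (T.c (T.b (T.l 220) (T.l 220)) (T.l 220)))))) (T.a (T.b (T.c (T.a (T.b (T.a (T.l 220) (T.l 220)) (T.a (T.l 220) (T.l 220))) (T.b (T.c (T.l 220) (T.l 220)) (T.c (T.l 220) (T.l 220)))) (T.a (T.b (T.c (T.l 220) (T.l 220)) (T.c (T.l 220) (T.l 220))) (T.b (T.c (T.l 220) (T.l 220)) (T.c (T.l 220) (T.l 220))))) (T.c (T.a (T.b (T.a (T.l 220) (T.l 220)) (T.a (T.b (T.l 220) (T.l 220)) (T.l 220))) (T.b (T.c (T.l 220) (T.l 220)) (T.c (T.l 220) (T.l 220)))) (T.a (T.b (T.c (T.l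 220) (T.l 220)) (T.c (T.l 220) (T.l 220))) (T.b (T.c (T.l 220) (T.l 220)) (T.b (T.l 220) (T.l 220)))))) (T.b (T.c (T.a (T.b (T.c (T.l 220) (T.l 220)) (T.c (T.l 220) (T.l 220))) (T.b (T.b (T.l 220) (T.l 220)) (T.b (T.l 220) (T.l 220)))) (T.a (T.b (T.b (T.l 220) (T.l 220)) (T.b (T.l 220) (T.l 220))) (T.c (T.b (T.l 220) (T.l 220)) (T.l 220)))) (T.c (T.b (T.a (T.b (T.l 220) (T.l 220)) (T.b (T.l 220) (T.l 220))) (T.a (T.b (T.l 220) (T.l 220)) (T.b (T.l 220) (T.l 220)))) (T.a (T.b (T.b (T.l 220) (T.l 220)) (T.b (T.l 220) (T.l 220))) (T.c (T.b (T.l 220) (T.l 220)) (T.l 220)))))))), by decide +kernel⟩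

def A102E_001_15_8_1 :
    ∃ t, chk3 (onCell 0 12582912 0 1073741824 33554432 16777216 (corTK [[⟨0, 1, 0, 6291456⟩, ⟨1, 0, 1, 16777216⟩, ⟨2, 1, 1, 16777216⟩, ⟨1, 0, 0, 67108864⟩, ⟨1, 1, 0, 1056964608⟩, ⟨2, 1, 0, 67108864⟩, ⟨2, 2, 0, 1056964608⟩]] true 1 c0F cA102E gF0q1 gF0q0 gF1q2 gF2q2 true true)) t 15 8 1 = true :=
  ⟨(T.b (T.b (T.a (T.b (T.c (T.a (T.b (T.c (T.l 220) (T.l 204)) (T.c (T.l 220) (T.l 220))) (T.b (T.c (T.l 220) (T.l 220)) (T.c (T.l 220) (T.l 220)))) (T.a (T.c (T.l 220) (T.l 220)) (T.c (T.l 220) (T.l 220)))) (T.c (T.a (T.b (T.c (T.l 220) (T.l 220)) (T.c (T.l 220) (T.l 220))) (T.b (T.c (T.l 220) (T.l 220)) (T.c (T.l 220) (T.l 220)))) (T.a (T.c (T.l 220) (T.l 220)) (T.c (T.l 220) (T.l 220))))) (T.b (T.c (T.b (T.a (T.c (T.l 220) (T.l 220)) (T.c (T.l 220) (T.l 220))) (T.a (T.c (T.l 220) (T.l 220)) (T.c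 (T.l 220) (T.l 220)))) (T.a (T.c (T.l 220) (T.l 220)) (T.c (T.l 220) (T.l 220)))) (T.c (T.b (T.a (T.c (T.l 220) (T.l 220)) (T.c (T.l 220) (T.l 220))) (T.a (T.c (T.l 220) (T.l 220)) (T.c (T.l 220) (T.l 220)))) (T.a (T.c (T.l 220) (T.l 220)) (T.c (T.l 220) (T.l 220)))))) (T.a (T.b (T.c (T.a (T.b (T.b (T.l 220) (T.l 220)) (T.b (T.l 220) (T.l 220))) (T.b (T.b (T.l 220) (T.l 220)) (T.b (T.l 220) (T.l 220)))) (T.a (T.c (T.l 220) (T.l 220)) (T.c (T.l 220) (T.l 220)))) (T.c (T.b (T.a (T.b (T.l 220) (T.l 220)) (T.b (T.l 220) (T.l 220))) (T.a (T.b (T.l 220) (T.l 220)) (T.b (T.l 220) (T.l 220)))) (T.a (T.c (T.l 220) (T.l 220)) (T.c (T.l 220) (T.l 220))))) (T.b (T.c (T.b (T.a (T.b (T.l 220) (T.l 220)) (T.b (T.l 220) (T.l 220))) (T.a (T.b (T.l 220) (T.l 220)) (T.b (T.l 220) (T.l 220)))) (T.a (T.c (T.l 220) (T.l 220)) (T.b (T.l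 220) (T.l 220)))) (T.c (T.b (T.a (T.b (T.l 220) (T.l 220)) (T.b (T.l 220) (T.l 220))) (T.a (T.b (T.l 220) (T.l 220)) (T.b (T.l 220) (T.l 220)))) (T.b (T.a (T.l 220) (T.l 220)) (T.a (T.l 220) (T.l 220))))))) (T.b (T.a (T.b (T.c (T.b (T.a (T.b (T.l 220) (T.l 220)) (T.b (T.l 220) (T.l 220))) (T.a (T.b (T.l 220) (T.l 220)) (T.b (T.l 220) (T.l 220)))) (T.a (T.c (T.l 220) (T.l 220)) (T.b (T.l 220) (T.l 220)))) (T.c (T.b (T.a (T.b (T.l 220) (T.l 220)) (T.b (T.l 220) (T.l 220))) (T.a (T.b (T.l 220) (T.l 220)) (T.b (T.l 220) (T.l 220)))) (T.a (T.c (T.l 220) (T.l 220)) (T.b (T.l 220) (T.l 220))))) (T.b (T.c (T.b (T.a (T.b (T.l 220) (T.l 220)) (T.b (T.l 220) (T.l 220))) (T.a (T.b (T.l 220) (T.l 220)) (T.b (T.l 220) (T.l 220)))) (T.b (T.a (T.l 220) (T.l 220)) (T.a (T.l 220) (T.l 220)))) (T.c (T.b (T.a (T.b (T.l 220) (T.l 220))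 (T.b (T.l 220) (T.l 220))) (T.a (T.b (T.l 220) (T.l 220)) (T.b (T.l 220) (T.l 220)))) (T.b (T.a (T.l 220) (T.l 220)) (T.a (T.l 220) (T.l 220)))))) (T.a (T.b (T.c (T.b (T.a (T.b (T.l 220) (T.l 220)) (T.b (T.l 220) (T.l 220))) (T.a (T.b (T.l 220) (T.l 220)) (T.b (T.l 220) (T.l 220)))) (T.b (T.a (T.l 220) (T.l 220)) (T.a (T.l 220) (T.l 220)))) (T.c (T.b (T.a (T.b (T.l 220) (T.l 220)) (T.l 220)) (T.a (T.b (T.l 220) (T.l 220)) (T.l 220))) (T.b (T.a (T.l 220) (T.l 220)) (T.a (T.l 220) (T.l 220))))) (T.b (T.c (T.b (T.a (T.b (T.l 220) (T.l 220)) (T.l 220)) (T.a (T.l 220) (T.l 220))) (T.b (T.a (T.l 220) (T.l 220)) (T.a (T.l 220) (T.l 220)))) (T.c (T.b (T.a (T.l 220) (T.l 220)) (T.a (T.l 220) (T.l 220))) (T.b (T.a (T.l 220) (T.l 220)) (T.a (T.l 220) (T.l 220)))))))), by decide +kernel⟩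

def A102E_001_7_9_1 :
    ∃ t, chk3 (onCell 0 12582912 0 1073741824 33554432 16777216 (corTK [[⟨0, 1, 0, 6291456⟩, ⟨1, 0, 1, 16777216⟩, ⟨2, 1, 1, 16777216⟩, ⟨1, 0, 0, 67108864⟩, ⟨1, 1, 0, 1056964608⟩, ⟨2, 1, 0, 67108864⟩, ⟨2, 2, 0, 1056964608⟩]] true 1 c0F cA102E gF0q1 gF0q0 gF1q2 gF2q2 true true)) t 7 9 1 = true :=
  ⟨(T.b (T.a (T.b (T.a (T.b (T.c (T.a (T.b (T.a (T.b (T.l 220) (T.l 220)) (T.l 220)) (T.a (T.b (T.l 220) (T.l 220)) (T.l 220))) (T.b (T.c (T.l 220) (T.l 220)) (T.c (T.l 220) (T.l 220)))) (T.a (T.b (T.c (T.l 220) (T.l 220)) (T.c (T.l 220) (T.l 220))) (T.b (T.b (T.l 220) (T.l 220)) (T.b (T.l 220) (T.l 220))))) (T.a (T.c (T.b (T.a (T.b (T.l 220) (T.l 220)) (T.l 220)) (T.a (T.c (T.l 220) (T.l 220)) (T.l 220))) (T.b (T.a (T.b (T.l 220) (T.l 220)) (T.l 220)) (T.a (T.b (T.l 220) (T.l 220)) (T.l 220)))) (T.c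 (T.b (T.c (T.l 220) (T.l 220)) (T.c (T.l 220) (T.l 220))) (T.b (T.b (T.l 220) (T.l 220)) (T.b (T.l 220) (T.l 220)))))) (T.b (T.c (T.b (T.a (T.b (T.l 220) (T.l 220)) (T.b (T.l 220) (T.l 220))) (T.a (T.b (T.l 220) (T.l 220)) (T.b (T.l 220) (T.l 220)))) (T.a (T.b (T.b (T.l 220) (T.l 220)) (T.b (T.l 220) (T.l 220))) (T.b (T.l 220) (T.l 220)))) (T.c (T.b (T.a (T.b (T.l 220) (T.l 220)) (T.b (T.l 220) (T.l 220))) (T.a (T.b (T.l 220) (T.l 220)) (T.l 220))) (T.b (T.a (T.b (T.l 220) (T.l 220)) (T.l 220)) (T.a (T.b (T.l 220) (T.l 220)) (T.l 220)))))) (T.a (T.b (T.a (T.c (T.b (T.c (T.a (T.l 220) (T.l 220)) (T.a (T.l 220) (T.l 220))) (T.a (T.l 220) (T.b (T.l 220) (T.l 220)))) (T.b (T.a (T.b (T.l 220) (T.l 220)) (T.l 220)) (T.a (T.l 220) (T.b (T.l 220) (T.l 220))))) (T.c (T.b (T.c (T.l 220) (T.l 220)) (T.b (T.l 220) (T.l 220)))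 (T.b (T.b (T.l 220) (T.l 220)) (T.b (T.l 220) (T.l 220))))) (T.c (T.a (T.a (T.l 220) (T.b (T.b (T.l 220) (T.l 220)) (T.l 220))) (T.b (T.b (T.l 220) (T.l 220)) (T.c (T.b (T.l 220) (T.l 220)) (T.l 220)))) (T.a (T.a (T.l 220) (T.b (T.b (T.l 220) (T.l 220)) (T.l 220))) (T.b (T.b (T.l 220) (T.l 220)) (T.c (T.l 220) (T.l 220)))))) (T.b (T.c (T.b (T.a (T.b (T.l 220) (T.l 220)) (T.l 220)) (T.a (T.b (T.l 220) (T.l 220)) (T.l 220))) (T.b (T.a (T.b (T.l 220) (T.l 220)) (T.l 220)) (T.a (T.l 220) (T.l 220)))) (T.c (T.b (T.a (T.b (T.l 220) (T.l 220)) (T.l 220)) (T.a (T.b (T.l 220) (T.l 220)) (T.l 220))) (T.b (T.a (T.l 220) (T.l 220)) (T.a (T.l 220) (T.l 220))))))) (T.b (T.a (T.b (T.c (T.b (T.a (T.l 220) (T.l 220)) (T.a (T.l 220) (T.l 220))) (T.b (T.a (T.l 220) (T.l 220)) (T.a (T.l 220) (T.l 220)))) (T.c (T.b (T.a (T.l 220) (T.l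 220)) (T.a (T.l 220) (T.l 220))) (T.b (T.a (T.l 220) (T.l 220)) (T.a (T.l 220) (T.l 220))))) (T.b (T.c (T.b (T.a (T.l 220) (T.l 220)) (T.a (T.l 220) (T.l 220))) (T.b (T.a (T.l 220) (T.l 220)) (T.a (T.l 220) (T.l 220)))) (T.c (T.b (T.a (T.l 220) (T.l 220)) (T.c (T.l 220) (T.l 220))) (T.b (T.a (T.l 220) (T.l 220)) (T.c (T.l 220) (T.l 220)))))) (T.a (T.b (T.c (T.b (T.a (T.l 220) (T.l 220)) (T.a (T.l 220) (T.l 220))) (T.b (T.a (T.l 220) (T.l 220)) (T.a (T.l 220) (T.l 220)))) (T.c (T.b (T.a (T.l 220) (T.l 220)) (T.c (T.l 220) (T.l 220))) (T.b (T.a (T.l 220) (T.l 220)) (T.c (T.l 220) (T.l 220))))) (T.b (T.c (T.b (T.c (T.l 220) (T.l 220)) (T.c (T.l 220) (T.l 220))) (T.b (T.c (T.l 220) (T.l 220)) (T.c (T.l 220) (T.l 220)))) (T.c (T.a (T.b (T.l 220) (T.l 220)) (T.l 220)) (T.a (T.l 220) (T.l 220))))))) (T.a (T.b (T.a (T.a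 (T.b (T.b (T.l 220) (T.l 220)) (T.b (T.l 220) (T.l 220))) (T.b (T.c (T.b (T.a (T.l 220) (T.l 220)) (T.c (T.l 220) (T.l 220))) (T.b (T.c (T.l 220) (T.l 220)) (T.c (T.l 220) (T.l 220)))) (T.a (T.l 220) (T.c (T.b (T.l 220) (T.l 220)) (T.b (T.l 220) (T.l 220)))))) (T.b (T.c (T.b (T.a (T.l 220) (T.l 220)) (T.a (T.l 220) (T.l 220))) (T.b (T.a (T.l 220) (T.l 220)) (T.a (T.l 220) (T.l 220)))) (T.c (T.b (T.a (T.l 220) (T.l 220)) (T.a (T.b (T.l 220) (T.l 220)) (T.l 220))) (T.b (T.a (T.l 220) (T.l 220)) (T.a (T.b (T.l 220) (T.l 220)) (T.l 220)))))) (T.a (T.b (T.b (T.l 220) (T.l 220)) (T.b (T.l 220) (T.l 220))) (T.b (T.c (T.b (T.a (T.b (T.l 220) (T.l 220)) (T.l 220)) (T.a (T.l 220) (T.l 220))) (T.a (T.b (T.l 220) (T.l 220)) (T.l 220))) (T.c (T.b (T.a (T.l 220) (T.l 220)) (T.a (T.l 220) (T.l 220))) (T.b (T.a (T.l 220) (T.l 220))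 (T.a (T.l 220) (T.l 220))))))) (T.b (T.a (T.b (T.c (T.b (T.c (T.l 220) (T.l 220)) (T.c (T.l 220) (T.l 220))) (T.a (T.b (T.l 220) (T.l 220)) (T.l 220))) (T.c (T.a (T.b (T.l 220) (T.l 220)) (T.l 220)) (T.a (T.l 220) (T.l 220)))) (T.b (T.c (T.a (T.l 220) (T.l 220)) (T.a (T.l 220) (T.l 220))) (T.c (T.a (T.l 220) (T.l 220)) (T.a (T.l 220) (T.l 220))))) (T.b (T.a (T.c (T.a (T.l 220) (T.l 220)) (T.a (T.l 220) (T.l 220))) (T.c (T.b (T.l 220) (T.l 220)) (T.b (T.l 220) (T.l 220)))) (T.a (T.c (T.c (T.l 220) (T.l 220)) (T.b (T.l 220) (T.l 220))) (T.c (T.b (T.l 220) (T.l 220)) (T.b (T.l 220) (T.l 220)))))))), by decide +kernel⟩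

def A102E_001_1_5_1 :
    ∃ t, chk3 (onCell 0 12582912 0 1073741824 33554432 16777216 (corTK [[⟨0, 1, 0, 6291456⟩, ⟨1, 0, 1, 16777216⟩, ⟨2, 1, 1, 16777216⟩, ⟨1, 0, 0, 67108864⟩, ⟨1, 1, 0, 1056964608⟩, ⟨2, 1, 0, 67108864⟩, ⟨2, 2, 0, 1056964608⟩]] true 1 c0F cA102E gF0q1 gF0q0 gF1q2 gF2q2 true true)) t 1 5 1 = true :=
  ⟨(T.b (T.a (T.a (T.b (T.b (T.l 204) (T.l 204)) (T.b (T.b (T.l 204) (T.l 204)) (T.l 1))) (T.a (T.b (T.b (T.l 204) (T.l 204)) (T.b (T.b (T.l 204) (T.l 204)) (T.l 1))) (T.b (T.b (T.a (T.l 204) (T.b (T.l 220) (T.l 220))) (T.b (T.l 476) (T.l 476))) (T.b (T.b (T.l 460) (T.l 460)) (T.l 1))))) (T.a (T.b (T.b (T.b (T.a (T.b (T.l 220) (T.l 220)) (T.b (T.l 220) (T.l 220))) (T.a (T.l 220) (T.l 220))) (T.b (T.a (T.l 476) (T.l 476)) (T.a (T.l 476) (T.l 476)))) (T.b (T.b (T.c (T.b (T.l 476) (T.l 476)) (T.b (T.l 476)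 (T.l 460))) (T.c (T.a (T.l 460) (T.b (T.l 460) (T.l 460))) (T.a (T.l 460) (T.l 460)))) (T.l 1))) (T.b (T.a (T.b (T.a (T.b (T.l 220) (T.l 220)) (T.b (T.a (T.l 220) (T.c (T.b (T.l 220) (T.l 220)) (T.b (T.l 220) (T.l 220)))) (T.b (T.c (T.l 220) (T.l 220)) (T.l 220)))) (T.b (T.l 476) (T.l 476))) (T.b (T.b (T.a (T.c (T.b (T.l 220) (T.l 220)) (T.b (T.l 220) (T.l 220))) (T.c (T.b (T.l 220) (T.l 220)) (T.l 220))) (T.a (T.c (T.b (T.l 220) (T.l 220)) (T.b (T.l 220) (T.l 220))) (T.c (T.l 476) (T.l 220)))) (T.b (T.a (T.c (T.b (T.l 476) (T.l 476)) (T.b (T.l 220) (T.l 220))) (T.b (T.l 476) (T.l 476))) (T.a (T.c (T.l 476) (T.l 476)) (T.b (T.l 476) (T.l 476)))))) (T.b (T.a (T.b (T.b (T.l 476) (T.l 476)) (T.b (T.c (T.l 460) (T.l 460)) (T.b (T.c (T.l 460) (T.l 460)) (T.l 1)))) (T.b (T.a (T.b (T.c (T.l 476) (T.l 476)) (T.l 476)) (T.b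 (T.c (T.l 476) (T.l 476)) (T.c (T.l 476) (T.l 476)))) (T.a (T.b (T.l 476) (T.b (T.l 460) (T.l 1))) (T.b (T.c (T.a (T.l 476) (T.l 476)) (T.a (T.l 460) (T.l 460))) (T.b (T.c (T.a (T.l 460) (T.l 460)) (T.a (T.l 460) (T.l 460))) (T.l 1)))))) (T.l 1))))) (T.l 1)), by decide +kernel⟩

def A102E_001_1_3_1 :
    ∃ t, chk3 (onCell 0 12582912 0 1073741824 33554432 16777216 (corTK [[⟨0, 1, 0, 6291456⟩, ⟨1, 0, 1, 16777216⟩, ⟨2, 1, 1, 16777216⟩, ⟨1, 0, 0, 67108864⟩, ⟨1, 1, 0, 1056964608⟩, ⟨2, 1, 0, 67108864⟩, ⟨2, 2, 0, 1056964608⟩]] true 1 c0F cA102E gF0q1 gF0q0 gF1q2 gF2q2 true true)) t 1 3 1 = true :=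
  ⟨(T.l 1), by decide +kernel⟩

theorem A102E_001_7_8_1 :
    ∃ t, chk3 (onCell 0 12582912 0 1073741824 33554432 16777216 (corTK [[⟨0, 1, 0, 6291456⟩, ⟨1, 0, 1, 16777216⟩, ⟨2, 1, 1, 16777216⟩, ⟨1, 0, 0, 67108864⟩, ⟨1, 1, 0, 1056964608⟩, ⟨2, 1, 0, 67108864⟩, ⟨2, 2, 0, 1056964608⟩]] true 1 c0F cA102E gF0q1 gF0q0 gF1q2 gF2q2 true true)) t 7 8 1 = true :=
  ex3_a A102E_001_14_8_1 A102E_001_15_8_1
theorem A102E_001_7_4_1 :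
    ∃ t, chk3 (onCell 0 12582912 0 1073741824 33554432 16777216 (corTK [[⟨0, 1, 0, 6291456⟩, ⟨1, 0, 1, 16777216⟩, ⟨2, 1, 1, 16777216⟩, ⟨1, 0, 0, 67108864⟩, ⟨1, 1, 0, 1056964608⟩, ⟨2, 1, 0, 67108864⟩, ⟨2, 2, 0, 1056964608⟩]] true 1 c0F cA102E gF0q1 gF0q0 gF1q2 gF2q2 true true)) t 7 4 1 = true :=
  ex3_b A102E_001_7_8_1 A102E_001_7_9_1
theorem A102E_001_6_4_1 :
    ∃ t, chk3 (onCell 0 12582912 0 1073741824 33554432 16777216 (corTK [[⟨0, 1, 0, 6291456⟩, ⟨1, 0, 1, 16777216⟩, ⟨2, 1, 1, 16777216⟩, ⟨1, 0, 0, 67108864⟩, ⟨1, 1, 0, 1056964608⟩, ⟨2, 1, 0, 67108864⟩, ⟨2, 2, 0, 1056964608⟩]] true 1 c0F cA102E gF0q1 gF0q0 gF1q2 gF2q2 true true)) t 6 4 1 = true :=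
  ex3_a A102E_001_12_4_1 A102E_001_13_4_1
theorem A102E_001_3_4_1 :
    ∃ t, chk3 (onCell 0 12582912 0 1073741824 33554432 16777216 (corTK [[⟨0, 1, 0, 6291456⟩, ⟨1, 0, 1, 16777216⟩, ⟨2, 1, 1, 16777216⟩, ⟨1, 0, 0, 67108864⟩, ⟨1, 1, 0, 1056964608⟩, ⟨2, 1, 0, 67108864⟩, ⟨2, 2, 0, 1056964608⟩]] true 1 c0F cA102E gF0q1 gF0q0 gF1q2 gF2q2 true true)) t 3 4 1 = true :=
  ex3_a A102E_001_6_4_1 A102E_001_7_4_1
theorem A102E_001_1_4_1 :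
    ∃ t, chk3 (onCell 0 12582912 0 1073741824 33554432 16777216 (corTK [[⟨0, 1, 0, 6291456⟩, ⟨1, 0, 1, 16777216⟩, ⟨2, 1, 1, 16777216⟩, ⟨1, 0, 0, 67108864⟩, ⟨1, 1, 0, 1056964608⟩, ⟨2, 1, 0, 67108864⟩, ⟨2, 2, 0, 1056964608⟩]] true 1 c0F cA102E gF0q1 gF0q0 gF1q2 gF2q2 true true)) t 1 4 1 = true :=
  ex3_a A102E_001_2_4_1 A102E_001_3_4_1
theorem A102E_001_1_2_1 :
    ∃ t, chk3 (onCell 0 12582912 0 1073741824 33554432 16777216 (corTK [[⟨0, 1, 0, 6291456⟩, ⟨1, 0, 1, 16777216⟩, ⟨2, 1, 1, 16777216⟩, ⟨1, 0, 0, 67108864⟩, ⟨1, 1, 0, 1056964608⟩, ⟨2, 1, 0, 67108864⟩, ⟨2, 2, 0, 1056964608⟩]] true 1 c0F cA102E gF0q1 gF0q0 gF1q2 gF2q2 true true)) t 1 2 1 = true :=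
  ex3_b A102E_001_1_4_1 A102E_001_1_5_1
theorem A102E_001 :
    ∃ t, chk3 (onCell 0 12582912 0 1073741824 33554432 16777216 (corTK [[⟨0, 1, 0, 6291456⟩, ⟨1, 0, 1, 16777216⟩, ⟨2, 1, 1, 16777216⟩, ⟨1, 0, 0, 67108864⟩, ⟨1, 1, 0, 1056964608⟩, ⟨2, 1, 0, 67108864⟩, ⟨2, 2, 0, 1056964608⟩]] true 1 c0F cA102E gF0q1 gF0q0 gF1q2 gF2q2 true true)) t 1 1 1 = true :=
  ex3_b A102E_001_1_2_1 A102E_001_1_3_1

def A102E_002 :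
    ∃ t, chk3 (onCell 0 12582912 0 1073741824 33554432 16777216 (corTK [[⟨0, 1, 0, 6291456⟩, ⟨1, 0, 1, 16777216⟩, ⟨2, 1, 1, 16777216⟩, ⟨1, 0, 0, 67108864⟩, ⟨1, 1, 0, 1056964608⟩, ⟨2, 1, 0, 67108864⟩, ⟨2, 2, 0, 1056964608⟩]] true 1 c0F cA102E gF0q1 gF0q0 gF2q2 gF3q2 true false)) t 1 1 1 = true :=
  ⟨(T.b (T.b (T.b (T.b (T.b (T.b (T.b (T.b (T.a (T.a (T.l 204) (T.c (T.b (T.c (T.b (T.a (T.a (T.l 204) (T.a (T.c (T.l 204) (T.l 204)) (T.l 204))) (T.a (T.l 204) (T.l 204))) (T.l 1)) (T.b (T.a (T.a (T.l 204) (T.a (T.c (T.l 204) (T.l 204)) (T.l 204))) (T.a (T.l 204) (T.l 204))) (T.l 1))) (T.l 1)) (T.b (T.c (T.b (T.a (T.a (T.l 204) (T.a (T.l 220) (T.l 204))) (T.a (T.l 204) (T.l 204))) (T.l 1)) (T.b (T.a (T.a (T.l 204) (T.a (T.l 204) (T.l 204))) (T.a (T.l 204) (T.l 204))) (T.l 1))) (T.l 1)))) (T.c (T.b (T.a (T.c (T.b (T.a (T.a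 (T.l 204) (T.l 204)) (T.a (T.c (T.l 204) (T.l 204)) (T.l 204))) (T.l 1)) (T.b (T.a (T.a (T.l 204) (T.l 204)) (T.a (T.c (T.l 204) (T.l 204)) (T.l 204))) (T.l 1))) (T.c (T.b (T.a (T.c (T.l 204) (T.l 204)) (T.c (T.l 220) (T.l 204))) (T.l 1)) (T.a (T.c (T.l 204) (T.l 204)) (T.l 220)))) (T.l 1)) (T.b (T.a (T.c (T.b (T.a (T.a (T.l 204) (T.l 204)) (T.a (T.c (T.l 204) (T.l 204)) (T.l 204))) (T.l 1)) (T.b (T.a (T.a (T.l 204) (T.l 204)) (T.a (T.c (T.l 204) (T.l 204)) (T.l 204))) (T.l 1))) (T.c (T.a (T.l 220) (T.l 220)) (T.a (T.l 204) (T.l 204)))) (T.l 1)))) (T.l 1)) (T.l 1)) (T.l 1)) (T.l 1)) (T.l 1)) (T.l 1)) (T.l 1)) (T.l 1)), by decide +kernel⟩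

def A102E_010 :
    ∃ t, chk3 (onCell 0 33554432 0 1073741824 33554432 16777216 (corTK [] true 1 c0F cA102E gF0q1 gF1q0 gF0q2 gF1q2 true true)) t 1 1 1 = true :=
  ⟨(T.b (T.l 2) (T.b (T.b (T.l 2) (T.b (T.a (T.a (T.l 816) (T.l 816)) (T.l 0)) (T.a (T.a (T.l 816) (T.l 816)) (T.l 0)))) (T.b (T.b (T.b (T.a (T.a (T.l 816) (T.l 816)) (T.l 816)) (T.l 1)) (T.l 1)) (T.l 1)))), by decide +kernel⟩

def A102E_011 :
    ∃ t, chk3 (onCell 0 33554432 0 1073741824 33554432 16777216 (corTK [] true 1 c0F cA102E gF0q1 gF1q0 gF1q2 gF2q2 true true)) t 1 1 1 = true :=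
  ⟨(T.b (T.b (T.l 2) (T.b (T.l 2) (T.a (T.a (T.a (T.l 816) (T.l 816)) (T.l 0)) (T.l 0)))) (T.b (T.b (T.a (T.a (T.l 816) (T.l 0)) (T.l 0)) (T.b (T.a (T.a (T.l 816) (T.l 816)) (T.l 816)) (T.l 1))) (T.l 1))), by decide +kernel⟩

def A102E_012 :
    ∃ t, chk3 (onCell 0 33554432 0 1073741824 33554432 16777216 (corTK [] true 1 c0F cA102E gF0q1 gF1q0 gF2q2 gF3q2 true false)) t 1 1 1 = true :=
  ⟨(T.b (T.b (T.b (T.a (T.a (T.a (T.l 816) (T.l 816)) (T.l 0)) (T.l 0)) (T.a (T.a (T.a (T.l 816) (T.l 816)) (T.l 816)) (T.l 0))) (T.a (T.a (T.a (T.l 816) (T.l 816)) (T.l 0)) (T.l 0))) (T.b (T.b (T.b (T.a (T.a (T.l 816) (T.l 1)) (T.l 1)) (T.l 1)) (T.l 1)) (T.l 1))), by decide +kernel⟩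

def A102E_020 :
    ∃ t, chk3 (onCell 0 33554432 0 1073741824 33554432 16777216 (corTK [] true 1 c0F cA102E gF0q1 gF2q0 gF0q2 gF1q2 true true)) t 1 1 1 = true :=
  ⟨(T.b (T.l 2) (T.b (T.l 2) (T.b (T.l 2) (T.a (T.b (T.l 2) (T.a (T.a (T.l 816) (T.l 816)) (T.l 816))) (T.l 816))))), by decide +kernel⟩

def A102E_021 :
    ∃ t, chk3 (onCell 0 33554432 0 1073741824 33554432 16777216 (corTK [] true 1 c0F cA102E gF0q1 gF2q0 gF1q2 gF2q2 true true)) t 1 1 1 = true :=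
  ⟨(T.b (T.l 2) (T.b (T.l 2) (T.b (T.l 2) (T.a (T.b (T.l 2) (T.a (T.a (T.l 816) (T.l 816)) (T.l 816))) (T.l 816))))), by decide +kernel⟩

def A102E_022 :
    ∃ t, chk3 (onCell 0 33554432 0 1073741824 33554432 16777216 (corTK [] true 1 c0F cA102E gF0q1 gF2q0 gF2q2 gF3q2 true false)) t 1 1 1 = true :=
  ⟨(T.b (T.b (T.b (T.a (T.a (T.a (T.l 816) (T.l 816)) (T.l 816)) (T.l 0)) (T.a (T.a (T.a (T.l 816) (T.l 816)) (T.l 816)) (T.l 0))) (T.a (T.a (T.a (T.l 816) (T.l 816)) (T.l 0)) (T.l 0))) (T.b (T.a (T.a (T.l 816) (T.l 0)) (T.l 0)) (T.b (T.a (T.a (T.l 816) (T.l 816)) (T.l 816)) (T.a (T.a (T.a (T.l 816) (T.l 816)) (T.l 816)) (T.l 816))))), by decide +kernel⟩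

def A102L_220 :
    ∃ t, chk3 (onCell 0 33554432 0 1073741824 33554432 16777216 (corTK [] true 1 c0F cA102L gF2q1 gF2q0 gF0q2 gF1q2 true true)) t 1 1 1 = true :=
  ⟨(T.b (T.b (T.b (T.a (T.a (T.a (T.l 816) (T.l 0)) (T.l 0)) (T.l 0)) (T.l 1)) (T.l 1)) (T.l 1)), by decide +kernel⟩

def A102L_221 :
    ∃ t, chk3 (onCell 0 33554432 0 1073741824 33554432 16777216 (corTK [] true 1 c0F cA102L gF2q1 gF2q0 gF1q2 gF2q2 true true)) t 1 1 1 = true :=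
  ⟨(T.l 1), by decide +kernel⟩

def A102L_222 :
    ∃ t, chk3 (onCell 0 33554432 0 1073741824 33554432 16777216 (corTK [] true 1 c0F cA102L gF2q1 gF2q0 gF2q2 gF3q2 true false)) t 1 1 1 = true :=
  ⟨(T.l 1), by decide +kernel⟩

def A102R_003 :
    ∃ t, chk3 (onCell 0 33554432 0 1073741824 33554432 16777216 (corTK [] true 1 c0F cA102R gF0q1 gF0q0 gF3q2 gF4q2 false true)) t 1 1 1 = true :=
  ⟨(T.l 2), by decide +kernel⟩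

def A102R_013 :
    ∃ t, chk3 (onCell 0 33554432 0 1073741824 33554432 16777216 (corTK [] true 1 c0F cA102R gF0q1 gF1q0 gF3q2 gF4q2 false true)) t 1 1 1 = true :=
  ⟨(T.l 2), by decide +kernel⟩

def A102R_023 :
    ∃ t, chk3 (onCell 0 33554432 0 1073741824 33554432 16777216 (corTK [] true 1 c0F cA102R gF0q1 gF2q0 gF3q2 gF4q2 false true)) t 1 1 1 = true :=
  ⟨(T.l 2), by decide +kernel⟩

def A202E_000 :
    ∃ t, chk3 (onCell 0 33554432 0 1073741824 33554432 16777216 (corTK [[⟨0, 1, 0, 6291456⟩, ⟨1, 0, 1, 16777216⟩, ⟨2, 1, 1, 16777216⟩, ⟨1, 0, 0, 67108864⟩, ⟨1, 1, 0, 1056964608⟩, ⟨2, 1, 0, 67108864⟩, ⟨2, 2, 0, 1056964608⟩]] true 1 c0F cA202E gF0q2 gF0q0 gF0q2 gF1q2 true true)) t 1 1 1 = true :=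
  ⟨(T.l 2), by decide +kernel⟩

end Pool.Agent.Strip051.G.I1_32_3_64.Tab.CF
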