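import Pool.Agent.Strip051.G.I1_32_3_64.Gn
import Pool.Agent.Strip051.PB.Corns
import Pool.Agent.Strip051.PB.CornK

/-! # Certificates of the aligned corners (generated) -/

set_option linter.all false

namespace Pool.Agent.Strip051.G.I1_32_3_64.Tab.CF

open Pool.Agent.Strip051.PB

def A202E_001_2_256_2 :
    ∃ t, chk3 (onCell 0 33554432 0 1073741824 33554432 16777216 (corTK [[⟨0, 1, 0, 6291456⟩, ⟨1, 0, 1, 16777216⟩, ⟨2, 1, 1, 16777216⟩, ⟨1, 0, 0, 67108864⟩, ⟨1, 1, 0, 1056964608⟩, ⟨2, 1, 0, 67108864⟩, ⟨2, 2, 0, 1056964608⟩]] true 1 c0F cA202E gF0q2 gF0q0 gF1q2 gF2q2 true true)) t 2 256 2 = true :=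
  ⟨(T.b (T.a (T.c (T.a (T.l 204) (T.b (T.c (T.b (T.a (T.a (T.a (T.a (T.l 204) (T.l 204)) (T.l 204)) (T.l 204)) (T.a (T.l 204) (T.a (T.l 204) (T.a (T.l 204) (T.l 204))))) (T.l 2)) (T.b (T.a (T.a (T.a (T.a (T.l 204) (T.l 204)) (T.l 204)) (T.l 204)) (T.a (T.l 204) (T.a (T.l 204) (T.a (T.l 204) (T.l 204))))) (T.l 2))) (T.l 2))) (T.a (T.l 204) (T.b (T.c (T.b (T.a (T.a (T.a (T.a (T.l 204) (T.l 204)) (T.l 204)) (T.l 204)) (T.a (T.l 204) (T.a (T.l 204) (T.a (T.l 204) (T.l 204))))) (T.l 2)) (T.b (T.a (T.a (T.a (T.a (T.l 204) (T.l 204)) (T.l 204)) (T.l 204)) (T.a (T.l 204) (T.a (T.l 204) (T.a (T.l 204) (T.l 204))))) (T.l 2))) (T.l 2)))) (T.c (T.b (T.a (T.c (T.b (T.a (T.c (T.b (T.a (T.a (T.l 204) (T.l 204)) (T.a (T.l 204) (T.l 204))) (T.l 2)) (T.b (T.a (T.a (T.l 204) (T.l 204)) (T.a (T.l 204) (T.l 204))) (T.l 2))) (T.c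 (T.b (T.a (T.a (T.l 204) (T.l 204)) (T.a (T.l 204) (T.l 204))) (T.l 2)) (T.b (T.a (T.a (T.l 204) (T.l 204)) (T.a (T.l 204) (T.l 204))) (T.l 2)))) (T.l 2)) (T.b (T.a (T.c (T.b (T.a (T.a (T.l 204) (T.l 204)) (T.a (T.l 204) (T.l 204))) (T.l 2)) (T.b (T.a (T.a (T.l 204) (T.l 204)) (T.a (T.l 204) (T.l 204))) (T.l 2))) (T.c (T.b (T.a (T.a (T.l 204) (T.l 204)) (T.a (T.l 204) (T.l 204))) (T.l 2)) (T.b (T.a (T.a (T.l 204) (T.l 204)) (T.a (T.l 204) (T.l 204))) (T.l 2)))) (T.l 2))) (T.c (T.b (T.a (T.c (T.b (T.a (T.a (T.l 204) (T.l 204)) (T.a (T.l 204) (T.l 220))) (T.l 2)) (T.b (T.a (T.a (T.l 204) (T.l 204)) (T.a (T.l 204) (T.l 220))) (T.l 2))) (T.c (T.b (T.a (T.a (T.l 220) (T.l 220)) (T.a (T.a (T.l 220) (T.l 220)) (T.l 476))) (T.l 2)) (T.b (T.a (T.a (T.l 220) (T.l 220)) (T.a (T.l 220) (T.l 476))) (T.l 2)))) (T.l 2))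 (T.b (T.a (T.c (T.b (T.a (T.a (T.l 204) (T.l 204)) (T.a (T.l 204) (T.l 220))) (T.l 2)) (T.b (T.a (T.a (T.l 204) (T.l 204)) (T.a (T.l 204) (T.l 220))) (T.l 2))) (T.c (T.b (T.a (T.a (T.l 220) (T.l 220)) (T.a (T.l 220) (T.l 476))) (T.l 2)) (T.b (T.a (T.a (T.l 220) (T.l 220)) (T.a (T.l 220) (T.l 476))) (T.l 2)))) (T.l 2)))) (T.l 2)) (T.b (T.a (T.c (T.b (T.a (T.c (T.b (T.a (T.a (T.l 204) (T.l 204)) (T.a (T.l 204) (T.l 204))) (T.l 2)) (T.b (T.a (T.a (T.l 204) (T.l 204)) (T.a (T.l 204) (T.l 204))) (T.l 2))) (T.c (T.b (T.a (T.a (T.l 204) (T.l 204)) (T.a (T.l 204) (T.l 204))) (T.l 2)) (T.b (T.a (T.a (T.l 204) (T.l 204)) (T.a (T.l 204) (T.l 204))) (T.l 2)))) (T.l 2)) (T.b (T.a (T.c (T.b (T.a (T.a (T.l 204) (T.l 204)) (T.a (T.l 204) (T.l 204))) (T.l 2)) (T.b (T.a (T.a (T.l 204) (T.l 204)) (T.a (T.l 204) (T.l 204)))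 (T.l 2))) (T.c (T.b (T.a (T.a (T.l 204) (T.l 204)) (T.a (T.l 204) (T.l 204))) (T.l 2)) (T.b (T.a (T.a (T.l 204) (T.l 204)) (T.a (T.l 204) (T.l 204))) (T.l 2)))) (T.l 2))) (T.c (T.b (T.a (T.c (T.b (T.a (T.a (T.l 204) (T.l 204)) (T.a (T.l 204) (T.l 204))) (T.l 2)) (T.b (T.a (T.a (T.l 204) (T.l 204)) (T.a (T.l 204) (T.l 204))) (T.l 2))) (T.c (T.b (T.a (T.a (T.l 220) (T.l 220)) (T.a (T.l 220) (T.l 476))) (T.l 2)) (T.b (T.a (T.a (T.l 204) (T.l 220)) (T.a (T.l 220) (T.l 476))) (T.l 2)))) (T.l 2)) (T.b (T.a (T.c (T.b (T.a (T.a (T.l 204) (T.l 204)) (T.a (T.l 204) (T.l 204))) (T.l 2)) (T.b (T.a (T.a (T.l 204) (T.l 204)) (T.a (T.l 204) (T.l 204))) (T.l 2))) (T.c (T.b (T.a (T.a (T.l 204) (T.l 204)) (T.a (T.l 220) (T.l 476))) (T.l 2)) (T.b (T.a (T.a (T.l 204) (T.l 204)) (T.a (T.l 220) (T.l 476))) (T.l 2)))) (T.l 2))))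 (T.l 2)))) (T.l 2)), by decide +kernel⟩

def A202E_001_2_256_3 :
    ∃ t, chk3 (onCell 0 33554432 0 1073741824 33554432 16777216 (corTK [[⟨0, 1, 0, 6291456⟩, ⟨1, 0, 1, 16777216⟩, ⟨2, 1, 1, 16777216⟩, ⟨1, 0, 0, 67108864⟩, ⟨1, 1, 0, 1056964608⟩, ⟨2, 1, 0, 67108864⟩, ⟨2, 2, 0, 1056964608⟩]] true 1 c0F cA202E gF0q2 gF0q0 gF1q2 gF2q2 true true)) t 2 256 3 = true :=
  ⟨(T.b (T.a (T.a (T.l 204) (T.c (T.b (T.c (T.b (T.a (T.a (T.a (T.a (T.l 204) (T.l 204)) (T.l 204)) (T.l 204)) (T.a (T.l 204) (T.a (T.l 204) (T.a (T.l 204) (T.l 204))))) (T.l 2)) (T.b (T.a (T.a (T.a (T.a (T.l 204) (T.l 204)) (T.l 204)) (T.l 204)) (T.a (T.l 204) (T.a (T.l 204) (T.a (T.l 204) (T.l 204))))) (T.l 2))) (T.l 2)) (T.b (T.c (T.b (T.a (T.a (T.a (T.a (T.l 204) (T.l 204)) (T.l 204)) (T.l 204)) (T.a (T.l 204) (T.a (T.l 204) (T.a (T.l 204) (T.l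 204))))) (T.l 2)) (T.b (T.a (T.a (T.a (T.a (T.l 204) (T.l 204)) (T.l 204)) (T.l 204)) (T.a (T.l 204) (T.a (T.l 204) (T.a (T.l 204) (T.l 204))))) (T.l 2))) (T.l 2)))) (T.c (T.b (T.a (T.c (T.b (T.a (T.c (T.b (T.a (T.a (T.l 204) (T.l 204)) (T.a (T.l 204) (T.l 204))) (T.l 2)) (T.b (T.a (T.a (T.l 204) (T.l 204)) (T.a (T.l 204) (T.l 204))) (T.l 2))) (T.c (T.b (T.a (T.a (T.l 204) (T.l 204)) (T.a (T.l 204) (T.l 204))) (T.l 2)) (T.b (T.a (T.a (T.l 204) (T.l 204)) (T.a (T.l 204) (T.l 204))) (T.l 2)))) (T.l 2)) (T.b (T.a (T.c (T.b (T.a (T.a (T.l 204) (T.l 204)) (T.a (T.l 204) (T.l 204))) (T.l 2)) (T.b (T.a (T.a (T.l 204) (T.l 204)) (T.a (T.l 204) (T.l 204))) (T.l 2))) (T.c (T.b (T.a (T.a (T.l 204) (T.l 204)) (T.a (T.l 204) (T.l 204))) (T.l 2)) (T.b (T.a (T.a (T.l 204) (T.l 204)) (T.a (T.l 204) (T.l 204))) (T.l 2))))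 (T.l 2))) (T.c (T.b (T.a (T.c (T.b (T.a (T.a (T.l 204) (T.l 204)) (T.a (T.l 204) (T.l 204))) (T.l 2)) (T.b (T.a (T.a (T.l 204) (T.l 204)) (T.a (T.l 204) (T.l 204))) (T.l 2))) (T.c (T.b (T.a (T.a (T.l 204) (T.l 204)) (T.a (T.l 220) (T.l 476))) (T.l 2)) (T.b (T.a (T.a (T.l 204) (T.l 204)) (T.a (T.l 204) (T.l 204))) (T.l 2)))) (T.l 2)) (T.b (T.a (T.c (T.b (T.a (T.a (T.l 204) (T.l 204)) (T.a (T.l 204) (T.l 204))) (T.l 2)) (T.a (T.l 220) (T.a (T.l 204) (T.l 204)))) (T.c (T.b (T.a (T.a (T.l 204) (T.l 204)) (T.a (T.l 204) (T.l 204))) (T.l 2)) (T.b (T.a (T.a (T.l 204) (T.l 204)) (T.a (T.l 204) (T.l 204))) (T.l 2)))) (T.l 2)))) (T.l 2)) (T.b (T.a (T.c (T.b (T.a (T.c (T.b (T.a (T.a (T.l 204) (T.l 204)) (T.a (T.l 204) (T.l 204))) (T.l 2)) (T.b (T.a (T.a (T.l 204) (T.l 204)) (T.a (T.l 204) (T.l 204))) (T.l 2))) (T.c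 (T.b (T.a (T.a (T.l 204) (T.l 204)) (T.a (T.l 204) (T.l 204))) (T.l 2)) (T.a (T.a (T.l 204) (T.l 204)) (T.l 220)))) (T.l 2)) (T.b (T.a (T.c (T.b (T.a (T.a (T.l 204) (T.l 204)) (T.a (T.l 204) (T.l 204))) (T.l 2)) (T.b (T.a (T.a (T.l 204) (T.l 204)) (T.a (T.l 204) (T.l 204))) (T.l 2))) (T.c (T.a (T.a (T.l 204) (T.l 204)) (T.l 220)) (T.a (T.a (T.l 204) (T.l 204)) (T.l 220)))) (T.l 2))) (T.c (T.b (T.a (T.c (T.a (T.l 220) (T.a (T.l 204) (T.l 204))) (T.a (T.l 220) (T.a (T.l 204) (T.l 204)))) (T.c (T.b (T.a (T.a (T.l 204) (T.l 204)) (T.a (T.l 204) (T.l 204))) (T.l 2)) (T.b (T.a (T.a (T.l 204) (T.l 204)) (T.a (T.l 204) (T.l 204))) (T.l 2)))) (T.l 2)) (T.b (T.a (T.c (T.a (T.l 220) (T.a (T.l 204) (T.l 204))) (T.a (T.l 220) (T.a (T.l 204) (T.l 204)))) (T.c (T.a (T.l 220) (T.a (T.l 204) (T.l 204))) (T.a (T.l 220) (T.a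 (T.l 204) (T.l 204))))) (T.l 2)))) (T.l 2)))) (T.l 2)), by decide +kernel⟩

def A202E_001_3_256_1 :
    ∃ t, chk3 (onCell 0 33554432 0 1073741824 33554432 16777216 (corTK [[⟨0, 1, 0, 6291456⟩, ⟨1, 0, 1, 16777216⟩, ⟨2, 1, 1, 16777216⟩, ⟨1, 0, 0, 67108864⟩, ⟨1, 1, 0, 1056964608⟩, ⟨2, 1, 0, 67108864⟩, ⟨2, 2, 0, 1056964608⟩]] true 1 c0F cA202E gF0q2 gF0q0 gF1q2 gF2q2 true true)) t 3 256 1 = true :=
  ⟨(T.c (T.b (T.a (T.c (T.b (T.a (T.c (T.b (T.a (T.c (T.b (T.a (T.a (T.l 476) (T.l 476)) (T.a (T.l 476) (T.l 1024))) (T.l 2)) (T.b (T.a (T.a (T.l 476) (T.l 476)) (T.a (T.l 476) (T.l 476))) (T.l 2))) (T.a (T.a (T.c (T.l 1024) (T.l 476)) (T.l 1024)) (T.l 1024))) (T.l 2)) (T.b (T.a (T.c (T.b (T.a (T.a (T.l 476) (T.l 476)) (T.a (T.l 476) (T.l 476))) (T.l 2)) (T.b (T.a (T.a (T.l 476) (T.l 476)) (T.a (T.l 476) (T.l 476)))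 (T.l 2))) (T.c (T.b (T.a (T.a (T.l 476) (T.l 476)) (T.a (T.l 476) (T.l 1024))) (T.l 2)) (T.b (T.a (T.a (T.l 476) (T.l 476)) (T.a (T.l 476) (T.l 476))) (T.l 2)))) (T.l 2))) (T.a (T.a (T.c (T.l 1024) (T.a (T.c (T.l 1024) (T.l 476)) (T.l 1024))) (T.l 1024)) (T.l 1024))) (T.l 2)) (T.b (T.a (T.c (T.b (T.a (T.c (T.b (T.a (T.a (T.l 476) (T.l 476)) (T.a (T.l 476) (T.l 476))) (T.l 2)) (T.b (T.a (T.a (T.l 476) (T.l 476)) (T.a (T.l 476) (T.l 476))) (T.l 2))) (T.c (T.b (T.a (T.a (T.l 476) (T.l 476)) (T.a (T.l 476) (T.l 476))) (T.l 2)) (T.b (T.a (T.a (T.l 476) (T.l 476)) (T.a (T.l 476) (T.l 476))) (T.l 2)))) (T.l 2)) (T.b (T.a (T.c (T.b (T.a (T.a (T.l 476) (T.l 476)) (T.a (T.l 476) (T.l 476))) (T.l 2)) (T.b (T.a (T.a (T.l 476) (T.l 476)) (T.a (T.l 476) (T.l 476))) (T.l 2))) (T.c (T.b (T.a (T.a (T.l 476) (T.l 476)) (T.a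 (T.l 476) (T.l 476))) (T.l 2)) (T.b (T.a (T.a (T.l 476) (T.l 476)) (T.a (T.l 476) (T.l 476))) (T.l 2)))) (T.l 2))) (T.c (T.b (T.a (T.c (T.b (T.a (T.a (T.l 476) (T.l 476)) (T.a (T.l 476) (T.l 1024))) (T.l 2)) (T.b (T.a (T.a (T.l 476) (T.l 476)) (T.a (T.l 476) (T.l 476))) (T.l 2))) (T.a (T.a (T.l 476) (T.l 1024)) (T.l 1024))) (T.l 2)) (T.b (T.a (T.c (T.b (T.a (T.a (T.l 476) (T.l 476)) (T.a (T.l 476) (T.l 476))) (T.l 2)) (T.b (T.a (T.a (T.l 476) (T.l 476)) (T.a (T.l 476) (T.l 476))) (T.l 2))) (T.c (T.b (T.a (T.a (T.l 476) (T.l 476)) (T.a (T.l 476) (T.l 1024))) (T.l 2)) (T.b (T.a (T.a (T.l 476) (T.l 476)) (T.a (T.l 476) (T.l 476))) (T.l 2)))) (T.l 2)))) (T.l 2))) (T.a (T.a (T.c (T.l 1024) (T.a (T.c (T.l 1024) (T.a (T.l 476) (T.l 1024))) (T.l 1024))) (T.l 1024)) (T.l 1024))) (T.l 2)) (T.b (T.a (T.c (T.b (T.a (T.c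 (T.b (T.a (T.c (T.b (T.a (T.a (T.l 476) (T.l 476)) (T.a (T.l 476) (T.l 476))) (T.l 2)) (T.b (T.a (T.a (T.l 204) (T.l 476)) (T.a (T.l 476) (T.l 476))) (T.l 2))) (T.c (T.b (T.a (T.a (T.l 476) (T.l 476)) (T.a (T.l 476) (T.l 476))) (T.l 2)) (T.b (T.a (T.a (T.l 476) (T.l 476)) (T.a (T.l 476) (T.l 476))) (T.l 2)))) (T.l 2)) (T.b (T.a (T.c (T.b (T.a (T.a (T.l 204) (T.l 204)) (T.a (T.l 204) (T.l 476))) (T.l 2)) (T.b (T.a (T.a (T.l 204) (T.l 204)) (T.a (T.l 204) (T.l 204))) (T.l 2))) (T.c (T.b (T.a (T.a (T.l 476) (T.l 476)) (T.a (T.l 476) (T.l 476))) (T.l 2)) (T.b (T.a (T.a (T.l 476) (T.l 476)) (T.a (T.l 476) (T.l 476))) (T.l 2)))) (T.l 2))) (T.c (T.b (T.a (T.c (T.b (T.a (T.a (T.l 476) (T.l 476)) (T.a (T.l 476) (T.l 476))) (T.l 2)) (T.b (T.a (T.a (T.l 476) (T.l 476)) (T.a (T.l 476) (T.l 476))) (T.l 2))) (T.c (T.b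 (T.a (T.a (T.l 476) (T.l 476)) (T.a (T.l 476) (T.l 476))) (T.l 2)) (T.b (T.a (T.a (T.l 476) (T.l 476)) (T.a (T.l 476) (T.l 476))) (T.l 2)))) (T.l 2)) (T.b (T.a (T.c (T.b (T.a (T.a (T.l 476) (T.l 476)) (T.a (T.l 476) (T.l 476))) (T.l 2)) (T.b (T.a (T.a (T.l 476) (T.l 476)) (T.a (T.l 476) (T.l 476))) (T.l 2))) (T.c (T.b (T.a (T.a (T.l 476) (T.l 476)) (T.a (T.l 476) (T.l 476))) (T.l 2)) (T.b (T.a (T.a (T.l 476) (T.l 476)) (T.a (T.l 476) (T.l 476))) (T.l 2)))) (T.l 2)))) (T.l 2)) (T.b (T.a (T.c (T.b (T.a (T.c (T.b (T.a (T.a (T.l 204) (T.l 204)) (T.a (T.l 204) (T.l 204))) (T.l 2)) (T.b (T.a (T.a (T.l 204) (T.l 204)) (T.a (T.l 204) (T.l 204))) (T.l 2))) (T.c (T.b (T.a (T.a (T.l 204) (T.l 476)) (T.a (T.l 476) (T.l 476))) (T.l 2)) (T.a (T.l 476) (T.l 476)))) (T.l 2)) (T.b (T.a (T.c (T.a (T.a (T.l 204) (T.l 204))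 (T.l 476)) (T.a (T.a (T.l 204) (T.l 204)) (T.l 476))) (T.c (T.a (T.l 476) (T.l 476)) (T.a (T.l 476) (T.l 476)))) (T.l 2))) (T.c (T.b (T.a (T.c (T.b (T.a (T.a (T.l 476) (T.l 476)) (T.l 476)) (T.l 2)) (T.a (T.l 476) (T.l 476))) (T.c (T.b (T.a (T.l 476) (T.a (T.l 476) (T.l 476))) (T.l 2)) (T.a (T.l 476) (T.a (T.l 476) (T.l 476))))) (T.l 2)) (T.b (T.a (T.a (T.a (T.l 476) (T.l 476)) (T.l 476)) (T.a (T.l 476) (T.a (T.l 476) (T.l 476)))) (T.l 2)))) (T.l 2))) (T.c (T.b (T.a (T.c (T.b (T.a (T.c (T.b (T.a (T.a (T.l 476) (T.l 476)) (T.a (T.l 476) (T.l 1024))) (T.l 2)) (T.b (T.a (T.a (T.l 476) (T.l 476)) (T.a (T.l 476) (T.l 476))) (T.l 2))) (T.a (T.a (T.l 476) (T.l 1024)) (T.l 1024))) (T.l 2)) (T.b (T.a (T.c (T.b (T.a (T.a (T.l 476) (T.l 476)) (T.a (T.l 476) (T.l 476))) (T.l 2)) (T.b (T.a (T.a (T.l 476) (T.l 476)) (T.a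 (T.l 476) (T.l 476))) (T.l 2))) (T.c (T.b (T.a (T.a (T.l 476) (T.l 476)) (T.a (T.l 476) (T.l 1024))) (T.l 2)) (T.b (T.a (T.a (T.l 476) (T.l 476)) (T.a (T.l 476) (T.l 476))) (T.l 2)))) (T.l 2))) (T.a (T.a (T.c (T.l 1024) (T.a (T.l 476) (T.l 1024))) (T.l 1024)) (T.l 1024))) (T.l 2)) (T.b (T.a (T.c (T.b (T.a (T.c (T.b (T.a (T.a (T.l 476) (T.l 476)) (T.a (T.l 476) (T.l 476))) (T.l 2)) (T.b (T.a (T.a (T.l 476) (T.l 476)) (T.a (T.l 476) (T.l 476))) (T.l 2))) (T.c (T.b (T.a (T.a (T.l 476) (T.l 476)) (T.a (T.l 476) (T.l 476))) (T.l 2)) (T.b (T.a (T.a (T.l 476) (T.l 476)) (T.a (T.l 476) (T.l 476))) (T.l 2)))) (T.l 2)) (T.b (T.a (T.c (T.a (T.l 476) (T.l 476)) (T.a (T.l 476) (T.l 476))) (T.c (T.a (T.l 476) (T.a (T.l 476) (T.l 476))) (T.a (T.l 476) (T.l 476)))) (T.l 2))) (T.c (T.b (T.a (T.c (T.b (T.a (T.a (T.l 476) (T.l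 476)) (T.a (T.l 476) (T.l 1024))) (T.l 2)) (T.b (T.a (T.a (T.l 476) (T.l 476)) (T.a (T.l 476) (T.l 476))) (T.l 2))) (T.a (T.a (T.l 476) (T.l 1024)) (T.l 1024))) (T.l 2)) (T.b (T.a (T.c (T.b (T.a (T.a (T.l 476) (T.l 476)) (T.a (T.l 476) (T.l 476))) (T.l 2)) (T.a (T.l 476) (T.a (T.l 476) (T.l 476)))) (T.c (T.b (T.a (T.a (T.l 476) (T.l 476)) (T.a (T.l 476) (T.l 1024))) (T.l 2)) (T.b (T.a (T.a (T.l 476) (T.l 476)) (T.a (T.l 476) (T.l 476))) (T.l 2)))) (T.l 2)))) (T.l 2)))) (T.l 2))), by decide +kernel⟩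

def A202E_001_1_257_1 :
    ∃ t, chk3 (onCell 0 33554432 0 1073741824 33554432 16777216 (corTK [[⟨0, 1, 0, 6291456⟩, ⟨1, 0, 1, 16777216⟩, ⟨2, 1, 1, 16777216⟩, ⟨1, 0, 0, 67108864⟩, ⟨1, 1, 0, 1056964608⟩, ⟨2, 1, 0, 67108864⟩, ⟨2, 2, 0, 1056964608⟩]] true 1 c0F cA202E gF0q2 gF0q0 gF1q2 gF2q2 true true)) t 1 257 1 = true :=
  ⟨(T.l 2), by decide +kernel⟩

def A202E_001_1_129_1 :
    ∃ t, chk3 (onCell 0 33554432 0 1073741824 33554432 16777216 (corTK [[⟨0, 1, 0, 6291456⟩, ⟨1, 0, 1, 16777216⟩, ⟨2, 1, 1, 16777216⟩, ⟨1, 0, 0, 67108864⟩, ⟨1, 1, 0, 1056964608⟩, ⟨2, 1, 0, 67108864⟩, ⟨2, 2, 0, 1056964608⟩]] true 1 c0F cA202E gF0q2 gF0q0 gF1q2 gF2q2 true true)) t 1 129 1 = true :=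
  ⟨(T.l 2), by decide +kernel⟩

def A202E_001_1_65_1 :
    ∃ t, chk3 (onCell 0 33554432 0 1073741824 33554432 16777216 (corTK [[⟨0, 1, 0, 6291456⟩, ⟨1, 0, 1, 16777216⟩, ⟨2, 1, 1, 16777216⟩, ⟨1, 0, 0, 67108864⟩, ⟨1, 1, 0, 1056964608⟩, ⟨2, 1, 0, 67108864⟩, ⟨2, 2, 0, 1056964608⟩]] true 1 c0F cA202E gF0q2 gF0q0 gF1q2 gF2q2 true true)) t 1 65 1 = true :=
  ⟨(T.l 2), by decide +kernel⟩

def A202E_001_1_33_1 :
    ∃ t, chk3 (onCell 0 33554432 0 1073741824 33554432 16777216 (corTK [[⟨0, 1, 0, 6291456⟩, ⟨1, 0, 1, 16777216⟩, ⟨2, 1, 1, 16777216⟩, ⟨1, 0, 0, 67108864⟩, ⟨1, 1, 0, 1056964608⟩, ⟨2, 1, 0, 67108864⟩, ⟨2, 2, 0, 1056964608⟩]] true 1 c0F cA202E gF0q2 gF0q0 gF1q2 gF2q2 true true)) t 1 33 1 = true :=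
  ⟨(T.l 2), by decide +kernel⟩

def A202E_001_1_17_1 :
    ∃ t, chk3 (onCell 0 33554432 0 1073741824 33554432 16777216 (corTK [[⟨0, 1, 0, 6291456⟩, ⟨1, 0, 1, 16777216⟩, ⟨2, 1, 1, 16777216⟩, ⟨1, 0, 0, 67108864⟩, ⟨1, 1, 0, 1056964608⟩, ⟨2, 1, 0, 67108864⟩, ⟨2, 2, 0, 1056964608⟩]] true 1 c0F cA202E gF0q2 gF0q0 gF1q2 gF2q2 true true)) t 1 17 1 = true :=
  ⟨(T.l 2), by decide +kernel⟩

def A202E_001_1_9_1 :
    ∃ t, chk3 (onCell 0 33554432 0 1073741824 33554432 16777216 (corTK [[⟨0, 1, 0, 6291456⟩, ⟨1, 0, 1, 16777216⟩, ⟨2, 1, 1, 16777216⟩, ⟨1, 0, 0, 67108864⟩, ⟨1, 1, 0, 1056964608⟩, ⟨2, 1, 0, 67108864⟩, ⟨2, 2, 0, 1056964608⟩]] true 1 c0F cA202E gF0q2 gF0q0 gF1q2 gF2q2 true true)) t 1 9 1 = true :=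
  ⟨(T.l 2), by decide +kernel⟩

def A202E_001_1_5_1 :
    ∃ t, chk3 (onCell 0 33554432 0 1073741824 33554432 16777216 (corTK [[⟨0, 1, 0, 6291456⟩, ⟨1, 0, 1, 16777216⟩, ⟨2, 1, 1, 16777216⟩, ⟨1, 0, 0, 67108864⟩, ⟨1, 1, 0, 1056964608⟩, ⟨2, 1, 0, 67108864⟩, ⟨2, 2, 0, 1056964608⟩]] true 1 c0F cA202E gF0q2 gF0q0 gF1q2 gF2q2 true true)) t 1 5 1 = true :=
  ⟨(T.l 2), by decide +kernel⟩

def A202E_001_1_3_1 :
    ∃ t, chk3 (onCell 0 33554432 0 1073741824 33554432 16777216 (corTK [[⟨0, 1, 0, 6291456⟩, ⟨1, 0, 1, 16777216⟩, ⟨2, 1, 1, 16777216⟩, ⟨1, 0, 0, 67108864⟩, ⟨1, 1, 0, 1056964608⟩, ⟨2, 1, 0, 67108864⟩, ⟨2, 2, 0, 1056964608⟩]] true 1 c0F cA202E gF0q2 gF0q0 gF1q2 gF2q2 true true)) t 1 3 1 = true :=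
  ⟨(T.l 2), by decide +kernel⟩

theorem A202E_001_2_256_1 :
    ∃ t, chk3 (onCell 0 33554432 0 1073741824 33554432 16777216 (corTK [[⟨0, 1, 0, 6291456⟩, ⟨1, 0, 1, 16777216⟩, ⟨2, 1, 1, 16777216⟩, ⟨1, 0, 0, 67108864⟩, ⟨1, 1, 0, 1056964608⟩, ⟨2, 1, 0, 67108864⟩, ⟨2, 2, 0, 1056964608⟩]] true 1 c0F cA202E gF0q2 gF0q0 gF1q2 gF2q2 true true)) t 2 256 1 = true :=
  ex3_c A202E_001_2_256_2 A202E_001_2_256_3
theorem A202E_001_1_256_1 :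
    ∃ t, chk3 (onCell 0 33554432 0 1073741824 33554432 16777216 (corTK [[⟨0, 1, 0, 6291456⟩, ⟨1, 0, 1, 16777216⟩, ⟨2, 1, 1, 16777216⟩, ⟨1, 0, 0, 67108864⟩, ⟨1, 1, 0, 1056964608⟩, ⟨2, 1, 0, 67108864⟩, ⟨2, 2, 0, 1056964608⟩]] true 1 c0F cA202E gF0q2 gF0q0 gF1q2 gF2q2 true true)) t 1 256 1 = true :=
  ex3_a A202E_001_2_256_1 A202E_001_3_256_1
theorem A202E_001_1_128_1 :
    ∃ t, chk3 (onCell 0 33554432 0 1073741824 33554432 16777216 (corTK [[⟨0, 1, 0, 6291456⟩, ⟨1, 0, 1, 16777216⟩, ⟨2, 1, 1, 16777216⟩, ⟨1, 0, 0, 67108864⟩, ⟨1, 1, 0, 1056964608⟩, ⟨2, 1, 0, 67108864⟩, ⟨2, 2, 0, 1056964608⟩]] true 1 c0F cA202E gF0q2 gF0q0 gF1q2 gF2q2 true true)) t 1 128 1 = true :=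
  ex3_b A202E_001_1_256_1 A202E_001_1_257_1
theorem A202E_001_1_64_1 :
    ∃ t, chk3 (onCell 0 33554432 0 1073741824 33554432 16777216 (corTK [[⟨0, 1, 0, 6291456⟩, ⟨1, 0, 1, 16777216⟩, ⟨2, 1, 1, 16777216⟩, ⟨1, 0, 0, 67108864⟩, ⟨1, 1, 0, 1056964608⟩, ⟨2, 1, 0, 67108864⟩, ⟨2, 2, 0, 1056964608⟩]] true 1 c0F cA202E gF0q2 gF0q0 gF1q2 gF2q2 true true)) t 1 64 1 = true :=
  ex3_b A202E_001_1_128_1 A202E_001_1_129_1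
theorem A202E_001_1_32_1 :
    ∃ t, chk3 (onCell 0 33554432 0 1073741824 33554432 16777216 (corTK [[⟨0, 1, 0, 6291456⟩, ⟨1, 0, 1, 16777216⟩, ⟨2, 1, 1, 16777216⟩, ⟨1, 0, 0, 67108864⟩, ⟨1, 1, 0, 1056964608⟩, ⟨2, 1, 0, 67108864⟩, ⟨2, 2, 0, 1056964608⟩]] true 1 c0F cA202E gF0q2 gF0q0 gF1q2 gF2q2 true true)) t 1 32 1 = true :=
  ex3_b A202E_001_1_64_1 A202E_001_1_65_1
theorem A202E_001_1_16_1 :
    ∃ t, chk3 (onCell 0 33554432 0 1073741824 33554432 16777216 (corTK [[⟨0, 1, 0, 6291456⟩, ⟨1, 0, 1, 16777216⟩, ⟨2, 1, 1, 16777216⟩, ⟨1, 0, 0, 67108864⟩, ⟨1, 1, 0, 1056964608⟩, ⟨2, 1, 0, 67108864⟩, ⟨2, 2, 0, 1056964608⟩]] true 1 c0F cA202E gF0q2 gF0q0 gF1q2 gF2q2 true true)) t 1 16 1 = true :=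
  ex3_b A202E_001_1_32_1 A202E_001_1_33_1
theorem A202E_001_1_8_1 :
    ∃ t, chk3 (onCell 0 33554432 0 1073741824 33554432 16777216 (corTK [[⟨0, 1, 0, 6291456⟩, ⟨1, 0, 1, 16777216⟩, ⟨2, 1, 1, 16777216⟩, ⟨1, 0, 0, 67108864⟩, ⟨1, 1, 0, 1056964608⟩, ⟨2, 1, 0, 67108864⟩, ⟨2, 2, 0, 1056964608⟩]] true 1 c0F cA202E gF0q2 gF0q0 gF1q2 gF2q2 true true)) t 1 8 1 = true :=
  ex3_b A202E_001_1_16_1 A202E_001_1_17_1
theorem A202E_001_1_4_1 :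
    ∃ t, chk3 (onCell 0 33554432 0 1073741824 33554432 16777216 (corTK [[⟨0, 1, 0, 6291456⟩, ⟨1, 0, 1, 16777216⟩, ⟨2, 1, 1, 16777216⟩, ⟨1, 0, 0, 67108864⟩, ⟨1, 1, 0, 1056964608⟩, ⟨2, 1, 0, 67108864⟩, ⟨2, 2, 0, 1056964608⟩]] true 1 c0F cA202E gF0q2 gF0q0 gF1q2 gF2q2 true true)) t 1 4 1 = true :=
  ex3_b A202E_001_1_8_1 A202E_001_1_9_1
theorem A202E_001_1_2_1 :
    ∃ t, chk3 (onCell 0 33554432 0 1073741824 33554432 16777216 (corTK [[⟨0, 1, 0, 6291456⟩, ⟨1, 0, 1, 16777216⟩, ⟨2, 1, 1, 16777216⟩, ⟨1, 0, 0, 67108864⟩, ⟨1, 1, 0, 1056964608⟩, ⟨2, 1, 0, 67108864⟩, ⟨2, 2, 0, 1056964608⟩]] true 1 c0F cA202E gF0q2 gF0q0 gF1q2 gF2q2 true true)) t 1 2 1 = true :=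
  ex3_b A202E_001_1_4_1 A202E_001_1_5_1
theorem A202E_001 :
    ∃ t, chk3 (onCell 0 33554432 0 1073741824 33554432 16777216 (corTK [[⟨0, 1, 0, 6291456⟩, ⟨1, 0, 1, 16777216⟩, ⟨2, 1, 1, 16777216⟩, ⟨1, 0, 0, 67108864⟩, ⟨1, 1, 0, 1056964608⟩, ⟨2, 1, 0, 67108864⟩, ⟨2, 2, 0, 1056964608⟩]] true 1 c0F cA202E gF0q2 gF0q0 gF1q2 gF2q2 true true)) t 1 1 1 = true :=
  ex3_b A202E_001_1_2_1 A202E_001_1_3_1

def A202E_002_1_4_1 :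
    ∃ t, chk3 (onCell 0 33554432 0 1073741824 33554432 16777216 (corTK [[⟨0, 1, 0, 6291456⟩, ⟨1, 0, 1, 16777216⟩, ⟨2, 1, 1, 16777216⟩, ⟨1, 0, 0, 67108864⟩, ⟨1, 1, 0, 1056964608⟩, ⟨2, 1, 0, 67108864⟩, ⟨2, 2, 0, 1056964608⟩]] true 1 c0F cA202E gF0q2 gF0q0 gF2q2 gF3q2 true false)) t 1 4 1 = true :=
  ⟨(T.b (T.a (T.a (T.a (T.b (T.b (T.b (T.b (T.a (T.l 204) (T.c (T.l 204) (T.l 204))) (T.l 204)) (T.l 204)) (T.l 204)) (T.l 204)) (T.a (T.b (T.a (T.b (T.a (T.b (T.c (T.b (T.a (T.b (T.c (T.l 220) (T.l 204)) (T.l 204)) (T.l 204)) (T.l 204)) (T.b (T.a (T.c (T.l 204) (T.l 204)) (T.l 204)) (T.l 204))) (T.b (T.l 204) (T.l 204))) (T.b (T.b (T.c (T.l 220) (T.l 204)) (T.l 204)) (T.l 204))) (T.c (T.l 204) (T.l 204))) (T.b (T.b (T.c (T.c (T.l 220) (T.l 220)) (T.c (T.l 204) (T.l 204))) (T.l 204)) (T.l 204))) (T.c (T.l 204) (T.l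 204))) (T.b (T.b (T.a (T.b (T.b (T.a (T.l 220) (T.c (T.l 204) (T.l 204))) (T.l 220)) (T.l 204)) (T.b (T.a (T.c (T.l 204) (T.l 204)) (T.b (T.c (T.c (T.l 204) (T.l 204)) (T.c (T.l 204) (T.l 204))) (T.l 204))) (T.c (T.l 204) (T.l 204)))) (T.a (T.l 204) (T.l 204))) (T.b (T.l 204) (T.l 204))))) (T.a (T.b (T.a (T.b (T.b (T.a (T.c (T.b (T.c (T.l 204) (T.l 204)) (T.l 204)) (T.c (T.l 220) (T.l 204))) (T.c (T.c (T.l 220) (T.l 204)) (T.c (T.l 204) (T.l 204)))) (T.c (T.l 220) (T.l 204))) (T.b (T.l 220) (T.l 204))) (T.b (T.b (T.c (T.b (T.a (T.c (T.l 204) (T.l 204)) (T.c (T.l 220) (T.l 204))) (T.c (T.l 204) (T.l 204))) (T.b (T.a (T.l 220) (T.l 220)) (T.l 220))) (T.c (T.l 204) (T.l 204))) (T.b (T.l 204) (T.l 204)))) (T.a (T.l 204) (T.l 204))) (T.b (T.a (T.b (T.a (T.b (T.c (T.b (T.c (T.l 220) (T.l 220)) (T.l 204)) (T.c (T.l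 220) (T.l 204))) (T.l 204)) (T.b (T.c (T.b (T.c (T.b (T.a (T.l 204) (T.l 220)) (T.l 220)) (T.a (T.l 204) (T.l 220))) (T.l 220)) (T.b (T.c (T.c (T.l 220) (T.l 220)) (T.l 220)) (T.l 204))) (T.c (T.l 204) (T.l 204)))) (T.b (T.l 204) (T.l 204))) (T.b (T.a (T.b (T.c (T.b (T.c (T.b (T.a (T.l 220) (T.l 220)) (T.l 220)) (T.a (T.l 220) (T.l 220))) (T.l 220)) (T.b (T.c (T.c (T.l 220) (T.l 220)) (T.l 220)) (T.l 204))) (T.b (T.l 220) (T.l 204))) (T.b (T.c (T.b (T.a (T.c (T.c (T.l 220) (T.l 220)) (T.l 220)) (T.b (T.c (T.c (T.l 476) (T.l 476)) (T.l 476)) (T.l 476))) (T.c (T.l 476) (T.l 460))) (T.b (T.a (T.b (T.l 220) (T.l 204)) (T.c (T.l 476) (T.l 476))) (T.l 476))) (T.c (T.l 476) (T.l 204)))) (T.a (T.l 476) (T.l 476)))) (T.a (T.l 204) (T.b (T.l 476) (T.l 204)))))) (T.a (T.a (T.b (T.a (T.b (T.b (T.a (T.c (T.b (T.c (T.b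 (T.a (T.c (T.l 476) (T.l 476)) (T.c (T.l 476) (T.l 476))) (T.l 476)) (T.b (T.a (T.l 476) (T.l 476)) (T.l 476))) (T.b (T.l 476) (T.l 204))) (T.b (T.c (T.a (T.l 476) (T.l 476)) (T.a (T.l 220) (T.l 476))) (T.l 476))) (T.c (T.b (T.b (T.c (T.a (T.c (T.l 476) (T.l 476)) (T.c (T.l 476) (T.l 476))) (T.a (T.l 476) (T.l 476))) (T.c (T.l 476) (T.l 476))) (T.l 476)) (T.b (T.b (T.a (T.l 476) (T.l 476)) (T.l 476)) (T.l 476)))) (T.a (T.c (T.l 476) (T.l 204)) (T.b (T.l 476) (T.l 204)))) (T.b (T.c (T.l 476) (T.l 204)) (T.l 476))) (T.b (T.b (T.a (T.b (T.c (T.b (T.c (T.a (T.c (T.l 476) (T.l 476)) (T.c (T.l 1024) (T.l 476))) (T.a (T.l 476) (T.l 476))) (T.c (T.l 476) (T.l 476))) (T.b (T.a (T.l 476) (T.l 476)) (T.l 476))) (T.c (T.l 476) (T.l 476))) (T.b (T.c (T.b (T.c (T.c (T.l 1024) (T.a (T.l 476) (T.l 476))) (T.a (T.l 476) (T.l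 476))) (T.c (T.l 476) (T.l 476))) (T.b (T.c (T.a (T.l 476) (T.l 476)) (T.b (T.l 476) (T.l 476))) (T.l 476))) (T.c (T.l 476) (T.l 476)))) (T.c (T.c (T.l 476) (T.l 476)) (T.b (T.l 476) (T.l 204)))) (T.a (T.l 476) (T.l 476)))) (T.a (T.b (T.l 476) (T.l 204)) (T.b (T.l 476) (T.l 204)))) (T.b (T.b (T.a (T.b (T.c (T.b (T.a (T.b (T.c (T.c (T.l 1024) (T.a (T.l 476) (T.l 1024))) (T.a (T.l 476) (T.b (T.l 476) (T.l 476)))) (T.c (T.l 476) (T.l 476))) (T.c (T.l 1024) (T.b (T.b (T.a (T.l 476) (T.l 476)) (T.l 476)) (T.l 476)))) (T.a (T.l 476) (T.l 476))) (T.b (T.a (T.b (T.c (T.a (T.l 476) (T.l 476)) (T.b (T.l 476) (T.l 476))) (T.l 476)) (T.b (T.c (T.a (T.l 476) (T.l 476)) (T.b (T.l 476) (T.l 476))) (T.l 476))) (T.a (T.l 476) (T.l 476)))) (T.c (T.b (T.l 476) (T.l 460)) (T.l 476))) (T.b (T.c (T.c (T.l 1024) (T.b (T.a (T.b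 (T.b (T.a (T.l 476) (T.l 476)) (T.l 476)) (T.l 476)) (T.b (T.c (T.l 1024) (T.a (T.l 476) (T.l 476))) (T.l 476))) (T.b (T.l 476) (T.l 476)))) (T.b (T.a (T.b (T.c (T.a (T.l 476) (T.l 476)) (T.b (T.l 476) (T.l 476))) (T.l 476)) (T.b (T.c (T.a (T.l 476) (T.l 476)) (T.b (T.l 476) (T.l 476))) (T.l 476))) (T.c (T.l 476) (T.l 476)))) (T.a (T.l 476) (T.l 476)))) (T.a (T.b (T.l 476) (T.l 204)) (T.b (T.l 476) (T.l 204)))) (T.b (T.a (T.l 204) (T.l 204)) (T.l 476)))) (T.b (T.a (T.b (T.a (T.b (T.b (T.c (T.a (T.c (T.l 1024) (T.b (T.c (T.l 1024) (T.a (T.l 476) (T.l 1024))) (T.l 476))) (T.l 1024)) (T.a (T.b (T.c (T.a (T.l 476) (T.l 476)) (T.c (T.l 476) (T.l 476))) (T.l 476)) (T.b (T.c (T.a (T.l 476) (T.l 476)) (T.c (T.l 476) (T.l 476))) (T.l 476)))) (T.c (T.c (T.l 1024) (T.l 476)) (T.c (T.l 476) (T.l 476)))) (T.c (T.l 476)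 (T.l 476))) (T.c (T.l 1024) (T.b (T.b (T.a (T.b (T.c (T.b (T.a (T.l 476) (T.l 476)) (T.l 476)) (T.c (T.l 476) (T.l 476))) (T.l 476)) (T.b (T.c (T.c (T.l 1024) (T.a (T.l 476) (T.l 476))) (T.a (T.l 476) (T.l 476))) (T.l 476))) (T.b (T.l 476) (T.l 476))) (T.l 476)))) (T.a (T.b (T.l 476) (T.l 204)) (T.b (T.l 476) (T.l 204)))) (T.c (T.l 1024) (T.b (T.b (T.a (T.b (T.a (T.b (T.c (T.c (T.l 1024) (T.a (T.l 476) (T.l 1024))) (T.a (T.l 476) (T.l 476))) (T.l 476)) (T.c (T.l 1024) (T.b (T.a (T.l 476) (T.l 476)) (T.l 476)))) (T.b (T.l 476) (T.l 476))) (T.b (T.c (T.l 1024) (T.b (T.a (T.a (T.l 476) (T.l 476)) (T.c (T.l 1024) (T.b (T.l 476) (T.l 476)))) (T.l 476))) (T.l 476))) (T.a (T.l 476) (T.l 476))) (T.b (T.l 476) (T.l 204))))) (T.a (T.b (T.b (T.l 476) (T.l 460)) (T.l 476)) (T.b (T.l 476) (T.l 460)))))) (T.b (T.a (T.a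 (T.a (T.l 204) (T.a (T.l 460) (T.l 204))) (T.a (T.b (T.l 460) (T.l 204)) (T.a (T.l 204) (T.l 204)))) (T.a (T.a (T.a (T.l 204) (T.l 204)) (T.b (T.l 204) (T.l 204))) (T.a (T.l 476) (T.l 476)))) (T.a (T.a (T.a (T.l 204) (T.a (T.l 204) (T.l 204))) (T.a (T.l 204) (T.l 204))) (T.a (T.a (T.b (T.l 204) (T.l 204)) (T.l 220)) (T.a (T.l 476) (T.b (T.l 204) (T.b (T.l 204) (T.l 204)))))))), by decide +kernel⟩

def A202E_002_1_5_1 :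
    ∃ t, chk3 (onCell 0 33554432 0 1073741824 33554432 16777216 (corTK [[⟨0, 1, 0, 6291456⟩, ⟨1, 0, 1, 16777216⟩, ⟨2, 1, 1, 16777216⟩, ⟨1, 0, 0, 67108864⟩, ⟨1, 1, 0, 1056964608⟩, ⟨2, 1, 0, 67108864⟩, ⟨2, 2, 0, 1056964608⟩]] true 1 c0F cA202E gF0q2 gF0q0 gF2q2 gF3q2 true false)) t 1 5 1 = true :=
  ⟨(T.b (T.a (T.a (T.a (T.l 204) (T.a (T.l 204) (T.l 204))) (T.a (T.l 204) (T.l 204))) (T.a (T.a (T.b (T.l 204) (T.l 204)) (T.b (T.l 476) (T.b (T.b (T.l 204) (T.l 204)) (T.b (T.l 204) (T.l 204))))) (T.b (T.a (T.b (T.b (T.l 204) (T.l 204)) (T.b (T.l 204) (T.l 204))) (T.b (T.l 476) (T.l 220))) (T.a (T.b (T.l 476) (T.l 220)) (T.b (T.l 204) (T.l 204)))))) (T.a (T.a (T.a (T.l 204) (T.a (T.l 204) (T.l 204))) (T.a (T.l 204) (T.b (T.l 204) (T.a (T.l 204) (T.b (T.l 204) (T.l 204)))))) (T.a (T.a (T.b (T.b (T.b (T.l 204) (T.l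 204)) (T.b (T.l 204) (T.l 204))) (T.a (T.l 220) (T.l 204))) (T.b (T.b (T.l 220) (T.l 220)) (T.b (T.l 204) (T.l 0)))) (T.b (T.a (T.b (T.l 204) (T.l 204)) (T.b (T.l 204) (T.l 204))) (T.a (T.b (T.l 0) (T.l 0)) (T.b (T.l 0) (T.l 0))))))), by decide +kernel⟩

def A202E_002_1_3_1 :
    ∃ t, chk3 (onCell 0 33554432 0 1073741824 33554432 16777216 (corTK [[⟨0, 1, 0, 6291456⟩, ⟨1, 0, 1, 16777216⟩, ⟨2, 1, 1, 16777216⟩, ⟨1, 0, 0, 67108864⟩, ⟨1, 1, 0, 1056964608⟩, ⟨2, 1, 0, 67108864⟩, ⟨2, 2, 0, 1056964608⟩]] true 1 c0F cA202E gF0q2 gF0q0 gF2q2 gF3q2 true false)) t 1 3 1 = true :=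
  ⟨(T.b (T.a (T.a (T.a (T.b (T.l 204) (T.l 0)) (T.a (T.b (T.l 0) (T.l 0)) (T.l 0))) (T.a (T.b (T.b (T.l 0) (T.l 0)) (T.a (T.l 816) (T.b (T.b (T.l 0) (T.l 816)) (T.b (T.l 816) (T.l 816))))) (T.b (T.b (T.a (T.b (T.l 204) (T.l 0)) (T.b (T.l 204) (T.l 204))) (T.a (T.b (T.l 0) (T.l 0)) (T.l 0))) (T.a (T.b (T.l 0) (T.l 816)) (T.b (T.l 0) (T.l 816)))))) (T.a (T.b (T.a (T.b (T.b (T.l 16) (T.l 0)) (T.b (T.l 0) (T.l 0))) (T.b (T.b (T.l 0) (T.l 0)) (T.b (T.l 0) (T.l 0)))) (T.a (T.b (T.b (T.l 0) (T.l 0)) (T.b (T.l 820) (T.l 820))) (T.b (T.b (T.l 816) (T.l 816)) (T.b (T.l 816) (T.l 816))))) (T.b (T.b (T.a (T.b (T.l 0) (T.l 0)) (T.b (T.l 0) (T.l 0))) (T.a (T.b (T.l 0) (T.l 816)) (T.b (T.l 816) (T.l 816)))) (T.a (T.b (T.b (T.l 816) (T.l 816)) (T.b (T.l 816) (T.l 816))) (T.b (T.l 820) (T.l 820)))))) (T.a (T.a (T.a (T.b (T.b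 (T.l 816) (T.l 816)) (T.a (T.b (T.l 816) (T.l 816)) (T.l 816))) (T.a (T.b (T.l 816) (T.l 816)) (T.b (T.b (T.l 816) (T.l 816)) (T.a (T.l 816) (T.b (T.l 816) (T.b (T.l 816) (T.l 816))))))) (T.a (T.b (T.a (T.b (T.a (T.l 816) (T.l 816)) (T.a (T.l 816) (T.l 816))) (T.b (T.b (T.l 816) (T.l 816)) (T.b (T.l 816) (T.l 816)))) (T.a (T.a (T.b (T.l 816) (T.l 816)) (T.b (T.l 816) (T.l 816))) (T.b (T.b (T.l 816) (T.l 816)) (T.b (T.l 816) (T.l 816))))) (T.b (T.a (T.b (T.l 816) (T.l 816)) (T.b (T.l 816) (T.l 816))) (T.a (T.b (T.l 820) (T.b (T.l 816) (T.l 816))) (T.b (T.l 816) (T.b (T.l 816) (T.l 816))))))) (T.a (T.b (T.a (T.b (T.a (T.l 816) (T.l 816)) (T.a (T.l 816) (T.l 816))) (T.b (T.b (T.l 816) (T.l 816)) (T.b (T.l 816) (T.l 816)))) (T.a (T.a (T.b (T.l 816) (T.l 816)) (T.b (T.l 816) (T.l 816))) (T.b (T.b (T.l 816) (T.l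 816)) (T.b (T.l 816) (T.l 816))))) (T.b (T.a (T.b (T.b (T.l 816) (T.l 816)) (T.b (T.l 816) (T.l 816))) (T.b (T.l 820) (T.l 820))) (T.a (T.b (T.b (T.l 816) (T.l 816)) (T.b (T.l 816) (T.l 816))) (T.b (T.b (T.l 816) (T.l 816)) (T.b (T.l 816) (T.l 816)))))))), by decide +kernel⟩

theorem A202E_002_1_2_1 :
    ∃ t, chk3 (onCell 0 33554432 0 1073741824 33554432 16777216 (corTK [[⟨0, 1, 0, 6291456⟩, ⟨1, 0, 1, 16777216⟩, ⟨2, 1, 1, 16777216⟩, ⟨1, 0, 0, 67108864⟩, ⟨1, 1, 0, 1056964608⟩, ⟨2, 1, 0, 67108864⟩, ⟨2, 2, 0, 1056964608⟩]] true 1 c0F cA202E gF0q2 gF0q0 gF2q2 gF3q2 true false)) t 1 2 1 = true :=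
  ex3_b A202E_002_1_4_1 A202E_002_1_5_1
theorem A202E_002 :
    ∃ t, chk3 (onCell 0 33554432 0 1073741824 33554432 16777216 (corTK [[⟨0, 1, 0, 6291456⟩, ⟨1, 0, 1, 16777216⟩, ⟨2, 1, 1, 16777216⟩, ⟨1, 0, 0, 67108864⟩, ⟨1, 1, 0, 1056964608⟩, ⟨2, 1, 0, 67108864⟩, ⟨2, 2, 0, 1056964608⟩]] true 1 c0F cA202E gF0q2 gF0q0 gF2q2 gF3q2 true false)) t 1 1 1 = true :=
  ex3_b A202E_002_1_2_1 A202E_002_1_3_1

def A202E_010 :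
    ∃ t, chk3 (onCell 0 33554432 0 1073741824 33554432 16777216 (corTK [] true 1 c0F cA202E gF0q2 gF1q0 gF0q2 gF1q2 true true)) t 1 1 1 = true :=
  ⟨(T.l 2), by decide +kernel⟩

def A202E_011 :
    ∃ t, chk3 (onCell 0 33554432 0 1073741824 33554432 16777216 (corTK [] true 1 c0F cA202E gF0q2 gF1q0 gF1q2 gF2q2 true true)) t 1 1 1 = true :=
  ⟨(T.l 2), by decide +kernel⟩

def A202E_012 :
    ∃ t, chk3 (onCell 0 33554432 0 1073741824 33554432 16777216 (corTK [] true 1 c0F cA202E gF0q2 gF1q0 gF2q2 gF3q2 true false)) t 1 1 1 = true :=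
  ⟨(T.b (T.b (T.b (T.a (T.a (T.a (T.l 816) (T.l 816)) (T.l 816)) (T.l 816)) (T.a (T.a (T.a (T.l 816) (T.l 816)) (T.l 816)) (T.b (T.l 816) (T.l 0)))) (T.b (T.a (T.a (T.a (T.l 816) (T.l 816)) (T.l 816)) (T.b (T.l 0) (T.l 0))) (T.a (T.a (T.a (T.l 816) (T.l 816)) (T.b (T.l 816) (T.l 0))) (T.b (T.l 0) (T.l 0))))) (T.b (T.a (T.a (T.a (T.l 816) (T.l 816)) (T.b (T.b (T.l 0) (T.l 0)) (T.b (T.l 0) (T.l 0)))) (T.a (T.b (T.l 0) (T.l 0)) (T.b (T.l 816) (T.l 816)))) (T.a (T.a (T.a (T.b (T.l 816) (T.b (T.l 816) (T.a (T.l 816) (T.l 816)))) (T.a (T.b (T.l 816) (T.l 816)) (T.b (T.l 816) (T.a (T.l 816) (T.b (T.l 816) (T.b (T.l 816) (T.l 816))))))) (T.a (T.b (T.b (T.l 816) (T.l 816)) (T.b (T.b (T.l 816) (T.l 816)) (T.a (T.a (T.l 816) (T.l 816)) (T.b (T.l 816) (T.l 816))))) (T.b (T.l 816) (T.b (T.l 816) (T.a (T.b (T.l 816) (T.l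 816)) (T.l 816)))))) (T.a (T.b (T.b (T.l 816) (T.l 816)) (T.b (T.b (T.l 816) (T.l 816)) (T.a (T.a (T.l 816) (T.l 816)) (T.b (T.l 816) (T.l 816))))) (T.b (T.l 816) (T.b (T.l 820) (T.a (T.b (T.l 816) (T.l 816)) (T.b (T.l 816) (T.l 816))))))))), by decide +kernel⟩

def A202E_020 :
    ∃ t, chk3 (onCell 0 33554432 0 1073741824 33554432 16777216 (corTK [] true 1 c0F cA202E gF0q2 gF2q0 gF0q2 gF1q2 true true)) t 1 1 1 = true :=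
  ⟨(T.l 2), by decide +kernel⟩

def A202E_021 :
    ∃ t, chk3 (onCell 0 33554432 0 1073741824 33554432 16777216 (corTK [] true 1 c0F cA202E gF0q2 gF2q0 gF1q2 gF2q2 true true)) t 1 1 1 = true :=
  ⟨(T.l 2), by decide +kernel⟩

def A202E_022 :
    ∃ t, chk3 (onCell 0 33554432 0 1073741824 33554432 16777216 (corTK [] true 1 c0F cA202E gF0q2 gF2q0 gF2q2 gF3q2 true false)) t 1 1 1 = true :=
  ⟨(T.b (T.b (T.a (T.a (T.a (T.l 816) (T.l 816)) (T.l 816)) (T.b (T.l 816) (T.b (T.l 816) (T.l 0)))) (T.a (T.a (T.a (T.l 816) (T.l 816)) (T.b (T.l 816) (T.l 0))) (T.b (T.l 0) (T.l 0)))) (T.b (T.a (T.a (T.a (T.l 816) (T.l 816)) (T.b (T.l 0) (T.l 0))) (T.b (T.l 0) (T.b (T.l 0) (T.l 0)))) (T.a (T.a (T.a (T.b (T.l 816) (T.b (T.l 816) (T.a (T.l 816) (T.l 816)))) (T.a (T.b (T.l 816) (T.l 816)) (T.b (T.l 816) (T.a (T.l 816) (T.b (T.l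 816) (T.b (T.l 816) (T.l 816))))))) (T.b (T.b (T.l 0) (T.l 0)) (T.a (T.b (T.l 816) (T.b (T.l 816) (T.a (T.b (T.l 816) (T.l 816)) (T.l 816)))) (T.b (T.l 816) (T.a (T.l 820) (T.l 816)))))) (T.a (T.b (T.l 0) (T.b (T.l 816) (T.b (T.l 816) (T.a (T.b (T.l 816) (T.l 816)) (T.l 816))))) (T.b (T.l 816) (T.b (T.l 816) (T.b (T.l 816) (T.a (T.l 816) (T.l 816))))))))), by decide +kernel⟩

def A202E_110 :
    ∃ t, chk3 (onCell 0 33554432 0 1073741824 33554432 16777216 (corTK [] true 1 c0F cA202E gF1q2 gF1q0 gF0q2 gF1q2 true true)) t 1 1 1 = true :=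
  ⟨(T.l 2), by decide +kernel⟩

def A202E_111 :
    ∃ t, chk3 (onCell 0 33554432 0 1073741824 33554432 16777216 (corTK [] true 1 c0F cA202E gF1q2 gF1q0 gF1q2 gF2q2 true true)) t 1 1 1 = true :=
  ⟨(T.l 2), by decide +kernel⟩

def A202E_112 :
    ∃ t, chk3 (onCell 0 33554432 0 1073741824 33554432 16777216 (corTK [] true 1 c0F cA202E gF1q2 gF1q0 gF2q2 gF3q2 true false)) t 1 1 1 = true :=
  ⟨(T.b (T.b (T.a (T.a (T.a (T.l 816) (T.l 816)) (T.l 816)) (T.b (T.l 816) (T.l 0))) (T.a (T.a (T.a (T.l 816) (T.l 816)) (T.l 0)) (T.b (T.l 0) (T.l 0)))) (T.a (T.a (T.a (T.b (T.l 816) (T.b (T.l 816) (T.b (T.l 816) (T.b (T.l 816) (T.b (T.l 816) (T.a (T.a (T.l 816) (T.l 816)) (T.l 816))))))) (T.b (T.l 816) (T.b (T.l 816) (T.b (T.l 816) (T.a (T.c (T.l 816) (T.l 816)) (T.a (T.l 816) (T.l 816))))))) (T.b (T.l 0) (T.b (T.l 0) (T.b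 (T.l 0) (T.a (T.a (T.b (T.l 816) (T.l 816)) (T.l 816)) (T.a (T.l 816) (T.l 816))))))) (T.b (T.b (T.l 0) (T.l 0)) (T.b (T.l 64) (T.a (T.b (T.l 816) (T.a (T.l 816) (T.l 816))) (T.b (T.l 816) (T.a (T.l 816) (T.l 816)))))))), by decide +kernel⟩

def A202E_120 :
    ∃ t, chk3 (onCell 0 33554432 0 1073741824 33554432 16777216 (corTK [] true 1 c0F cA202E gF1q2 gF2q0 gF0q2 gF1q2 true true)) t 1 1 1 = true :=
  ⟨(T.l 2), by decide +kernel⟩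

def A202E_121 :
    ∃ t, chk3 (onCell 0 33554432 0 1073741824 33554432 16777216 (corTK [] true 1 c0F cA202E gF1q2 gF2q0 gF1q2 gF2q2 true true)) t 1 1 1 = true :=
  ⟨(T.l 2), by decide +kernel⟩

def A202E_122 :
    ∃ t, chk3 (onCell 0 33554432 0 1073741824 33554432 16777216 (corTK [] true 1 c0F cA202E gF1q2 gF2q0 gF2q2 gF3q2 true false)) t 1 1 1 = true :=
  ⟨(T.b (T.b (T.b (T.a (T.a (T.a (T.l 816) (T.l 816)) (T.l 816)) (T.l 816)) (T.a (T.a (T.a (T.l 816) (T.l 816)) (T.l 816)) (T.l 0))) (T.a (T.a (T.a (T.l 816) (T.l 816)) (T.l 0)) (T.l 0))) (T.a (T.a (T.a (T.b (T.l 816) (T.b (T.l 816) (T.b (T.l 816) (T.b (T.l 816) (T.b (T.l 816) (T.a (T.c (T.b (T.l 816) (T.l 816)) (T.l 816)) (T.l 816))))))) (T.b (T.l 816) (T.b (T.l 816) (T.b (T.l 816) (T.b (T.l 0) (T.a (T.c (T.l 816) (T.l 816)) (T.a (T.l 816) (T.l 816))))))))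 (T.b (T.l 0) (T.b (T.l 0) (T.b (T.l 0) (T.b (T.l 816) (T.a (T.a (T.l 816) (T.l 816)) (T.b (T.l 816) (T.l 816)))))))) (T.b (T.l 0) (T.b (T.l 0) (T.b (T.l 0) (T.a (T.a (T.l 816) (T.l 816)) (T.a (T.l 816) (T.l 816)))))))), by decide +kernel⟩

def A202E_220 :
    ∃ t, chk3 (onCell 0 33554432 0 1073741824 33554432 16777216 (corTK [] true 1 c0F cA202E gF2q2 gF2q0 gF0q2 gF1q2 true true)) t 1 1 1 = true :=
  ⟨(T.l 2), by decide +kernel⟩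

def A202E_221 :
    ∃ t, chk3 (onCell 0 33554432 0 1073741824 33554432 16777216 (corTK [] true 1 c0F cA202E gF2q2 gF2q0 gF1q2 gF2q2 true true)) t 1 1 1 = true :=
  ⟨(T.b (T.l 2) (T.b (T.l 2) (T.b (T.l 2) (T.b (T.l 2) (T.b (T.l 2) (T.a (T.b (T.l 2) (T.a (T.a (T.l 816) (T.l 2)) (T.l 2))) (T.l 2))))))), by decide +kernel⟩

def A202E_222 :
    ∃ t, chk3 (onCell 0 33554432 0 1073741824 33554432 16777216 (corTK [] true 1 c0F cA202E gF2q2 gF2q0 gF2q2 gF3q2 true false)) t 1 1 1 = true :=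
  ⟨(T.b (T.b (T.b (T.a (T.a (T.a (T.l 816) (T.l 816)) (T.l 816)) (T.l 816)) (T.a (T.a (T.a (T.l 816) (T.l 816)) (T.l 816)) (T.l 0))) (T.a (T.a (T.a (T.l 816) (T.l 816)) (T.l 0)) (T.l 0))) (T.b (T.a (T.a (T.a (T.l 816) (T.l 0)) (T.l 0)) (T.l 0)) (T.a (T.a (T.a (T.b (T.l 816) (T.b (T.l 816) (T.l 816))) (T.b (T.l 816) (T.b (T.l 816) (T.b (T.l 816) (T.a (T.b (T.l 816) (T.b (T.l 816) (T.a (T.a (T.l 816) (T.l 816)) (T.a (T.l 816) (T.l 816))))) (T.b (T.l 816) (T.b (T.l 816) (T.b (T.l 816) (T.a (T.c (T.l 816) (T.l 816)) (T.a (T.l 816) (T.c (T.l 816) (T.l 816)))))))))))) (T.b (T.l 816) (T.b (T.l 816) (T.b (T.l 816) (T.a (T.b (T.l 816) (T.b (T.l 816) (T.a (T.b (T.l 816) (T.c (T.b (T.l 816) (T.c (T.a (T.l 816) (T.l 816)) (T.a (T.l 816) (T.l 816)))) (T.a (T.l 816) (T.c (T.l 816) (T.l 816))))) (T.b (T.l 816) (T.c (T.b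 (T.l 816) (T.c (T.b (T.l 816) (T.c (T.a (T.l 816) (T.l 880)) (T.a (T.l 816) (T.l 816)))) (T.a (T.l 816) (T.c (T.l 816) (T.l 816))))) (T.b (T.l 816) (T.c (T.a (T.l 816) (T.l 816)) (T.a (T.l 816) (T.l 816))))))))) (T.b (T.l 816) (T.b (T.l 816) (T.b (T.l 816) (T.a (T.c (T.b (T.l 816) (T.c (T.b (T.l 816) (T.c (T.b (T.l 816) (T.a (T.a (T.l 816) (T.l 816)) (T.a (T.l 816) (T.l 816)))) (T.a (T.l 880) (T.l 880)))) (T.b (T.l 816) (T.c (T.a (T.l 880) (T.l 880)) (T.a (T.l 816) (T.l 880)))))) (T.b (T.l 816) (T.c (T.a (T.l 880) (T.c (T.l 816) (T.l 816))) (T.a (T.l 816) (T.l 880))))) (T.c (T.b (T.l 816) (T.c (T.b (T.l 816) (T.c (T.a (T.l 880) (T.a (T.l 816) (T.l 816))) (T.a (T.l 880) (T.a (T.l 816) (T.l 816))))) (T.b (T.l 816) (T.c (T.a (T.l 880) (T.l 880)) (T.a (T.l 816) (T.l 880)))))) (T.b (T.l 816) (T.c (T.a (T.l 880)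 (T.c (T.l 880) (T.l 880))) (T.a (T.l 880) (T.l 880)))))))))))))) (T.b (T.l 0) (T.b (T.l 0) (T.a (T.b (T.l 816) (T.b (T.l 816) (T.b (T.l 880) (T.a (T.b (T.l 816) (T.a (T.c (T.b (T.l 816) (T.c (T.b (T.l 816) (T.c (T.a (T.a (T.l 816) (T.l 816)) (T.l 880)) (T.a (T.l 880) (T.l 880)))) (T.b (T.l 816) (T.a (T.c (T.l 880) (T.l 880)) (T.l 880))))) (T.b (T.l 816) (T.c (T.a (T.c (T.l 880) (T.l 880)) (T.l 880)) (T.a (T.l 880) (T.l 880))))) (T.c (T.b (T.l 816) (T.c (T.a (T.c (T.l 880) (T.l 880)) (T.l 880)) (T.a (T.l 880) (T.l 880)))) (T.b (T.l 816) (T.c (T.a (T.l 880) (T.l 880)) (T.a (T.l 816) (T.l 816))))))) (T.b (T.l 816) (T.c (T.b (T.l 816) (T.a (T.c (T.a (T.l 880) (T.l 880)) (T.a (T.l 880) (T.l 880))) (T.a (T.l 880) (T.l 880)))) (T.b (T.l 816) (T.a (T.a (T.l 880) (T.l 880)) (T.a (T.l 880) (T.l 880)))))))))) (T.b (T.l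 816) (T.b (T.l 816) (T.b (T.l 816) (T.b (T.l 880) (T.a (T.c (T.b (T.l 816) (T.c (T.b (T.l 816) (T.a (T.a (T.l 880) (T.l 880)) (T.a (T.l 880) (T.l 880)))) (T.b (T.l 816) (T.a (T.a (T.l 880) (T.l 880)) (T.a (T.l 880) (T.l 880)))))) (T.b (T.l 816) (T.c (T.b (T.l 816) (T.a (T.a (T.l 816) (T.l 816)) (T.a (T.l 816) (T.l 816)))) (T.b (T.l 816) (T.a (T.a (T.l 816) (T.l 816)) (T.l 880)))))) (T.c (T.b (T.l 816) (T.c (T.a (T.l 880) (T.l 880)) (T.a (T.l 880) (T.l 880)))) (T.b (T.l 816) (T.c (T.a (T.l 880) (T.l 880)) (T.a (T.l 880) (T.l 880)))))))))))))))), by decide +kernel⟩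

def A202R_003 :
    ∃ t, chk3 (onCell 0 16777216 0 1073741824 33554432 16777216 (corXK [] 1 c0F cA202R tA202R gF0q2 gF0q0 gF3q2 gF4q2 gF4q2 false true)) t 1 1 1 = true :=
  ⟨(T.b (T.b (T.l 2) (T.b (T.b (T.l 2) (T.a (T.a (T.a (T.a (T.b (T.l 819) (T.l 819)) (T.l 819)) (T.l 823)) (T.b (T.l 823) (T.l 823))) (T.a (T.l 823) (T.l 823)))) (T.a (T.b (T.a (T.a (T.a (T.b (T.l 819) (T.l 819)) (T.l 819)) (T.l 823)) (T.b (T.l 823) (T.l 823))) (T.a (T.a (T.a (T.b (T.l 819) (T.l 819)) (T.l 819)) (T.l 823)) (T.b (T.l 823) (T.l 823)))) (T.a (T.a (T.l 823) (T.l 823)) (T.b (T.b (T.l 823) (T.a (T.l 823) (T.a (T.l 823) (T.b (T.b (T.l 823) (T.l 820)) (T.b (T.l 820) (T.l 820)))))) (T.a (T.b (T.l 823) (T.a (T.l 823) (T.b (T.l 820) (T.l 820)))) (T.b (T.b (T.a (T.l 820) (T.l 820)) (T.c (T.l 820) (T.l 820))) (T.b (T.b (T.l 820) (T.l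 820)) (T.a (T.l 820) (T.b (T.l 820) (T.l 820))))))))))) (T.b (T.a (T.b (T.b (T.a (T.a (T.a (T.b (T.l 819) (T.l 819)) (T.l 819)) (T.l 823)) (T.b (T.l 823) (T.l 823))) (T.a (T.a (T.a (T.b (T.l 819) (T.l 883)) (T.l 819)) (T.l 823)) (T.a (T.l 823) (T.l 823)))) (T.b (T.a (T.a (T.a (T.c (T.l 819) (T.l 819)) (T.l 819)) (T.l 823)) (T.a (T.l 823) (T.l 823))) (T.a (T.a (T.a (T.c (T.l 819) (T.l 819)) (T.l 819)) (T.l 823)) (T.a (T.l 823) (T.l 823))))) (T.a (T.b (T.a (T.l 823) (T.b (T.b (T.l 823) (T.b (T.l 823) (T.b (T.l 823) (T.l 820)))) (T.b (T.a (T.l 819) (T.b (T.l 820) (T.l 820))) (T.c (T.l 820) (T.b (T.l 820) (T.l 820)))))) (T.a (T.b (T.b (T.l 823) (T.a (T.l 819) (T.l 820))) (T.b (T.a (T.l 819) (T.l 820)) (T.a (T.l 820) (T.l 820)))) (T.b (T.a (T.b (T.l 820) (T.l 820)) (T.b (T.b (T.l 820) (T.b (T.l 820) (T.l 820)))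 (T.b (T.b (T.l 820) (T.l 820)) (T.b (T.l 820) (T.l 820))))) (T.a (T.b (T.b (T.l 820) (T.b (T.l 820) (T.l 820))) (T.b (T.b (T.l 820) (T.l 820)) (T.b (T.l 820) (T.l 820)))) (T.b (T.b (T.b (T.l 820) (T.l 820)) (T.b (T.l 820) (T.l 820))) (T.a (T.b (T.l 820) (T.l 820)) (T.l 820))))))) (T.b (T.b (T.a (T.b (T.b (T.b (T.l 820) (T.l 820)) (T.b (T.l 820) (T.l 820))) (T.a (T.b (T.l 820) (T.l 820)) (T.b (T.l 820) (T.b (T.l 820) (T.l 820))))) (T.b (T.a (T.b (T.l 820) (T.b (T.l 820) (T.l 820))) (T.b (T.b (T.l 820) (T.l 820)) (T.b (T.l 820) (T.l 820)))) (T.a (T.b (T.b (T.l 820) (T.l 820)) (T.b (T.l 820) (T.l 820))) (T.b (T.b (T.l 820) (T.l 820)) (T.b (T.l 820) (T.l 820)))))) (T.a (T.b (T.a (T.l 820) (T.b (T.b (T.l 820) (T.l 820)) (T.b (T.l 820) (T.l 820)))) (T.a (T.b (T.b (T.l 820) (T.l 820)) (T.b (T.l 820) (T.l 820)))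 (T.b (T.b (T.l 820) (T.l 820)) (T.b (T.l 820) (T.l 820))))) (T.b (T.a (T.b (T.b (T.l 820) (T.l 820)) (T.b (T.l 820) (T.l 820))) (T.b (T.b (T.l 820) (T.l 820)) (T.b (T.l 820) (T.l 820)))) (T.a (T.b (T.b (T.l 820) (T.l 820)) (T.l 820)) (T.b (T.l 820) (T.l 820)))))) (T.b (T.a (T.b (T.a (T.b (T.b (T.l 820) (T.l 820)) (T.b (T.l 820) (T.l 820))) (T.b (T.b (T.l 820) (T.l 820)) (T.b (T.l 820) (T.l 820)))) (T.a (T.b (T.b (T.l 820) (T.l 820)) (T.b (T.l 820) (T.l 820))) (T.b (T.l 820) (T.l 820)))) (T.b (T.a (T.b (T.l 820) (T.l 820)) (T.b (T.l 820) (T.l 820))) (T.a (T.b (T.l 820) (T.l 820)) (T.b (T.l 820) (T.l 820))))) (T.a (T.b (T.a (T.b (T.l 820) (T.l 820)) (T.b (T.l 820) (T.l 820))) (T.a (T.b (T.l 820) (T.l 820)) (T.b (T.l 820) (T.l 820)))) (T.b (T.a (T.b (T.l 820) (T.l 820)) (T.b (T.l 820) (T.l 820))) (T.a (T.b (T.l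 820) (T.l 820)) (T.b (T.l 820) (T.l 820))))))))) (T.a (T.a (T.b (T.b (T.a (T.a (T.a (T.l 819) (T.l 819)) (T.l 819)) (T.l 823)) (T.b (T.a (T.a (T.b (T.l 819) (T.l 819)) (T.l 819)) (T.l 819)) (T.a (T.a (T.b (T.l 819) (T.l 819)) (T.l 819)) (T.l 819)))) (T.b (T.b (T.a (T.a (T.b (T.l 819) (T.l 819)) (T.l 819)) (T.l 819)) (T.a (T.a (T.b (T.l 819) (T.l 819)) (T.l 819)) (T.l 819))) (T.b (T.a (T.a (T.b (T.l 819) (T.l 819)) (T.l 819)) (T.l 819)) (T.a (T.a (T.b (T.l 819) (T.l 819)) (T.l 819)) (T.l 819))))) (T.a (T.b (T.b (T.l 823) (T.l 819)) (T.b (T.l 819) (T.l 819))) (T.b (T.b (T.l 823) (T.a (T.l 819) (T.b (T.l 820) (T.l 820)))) (T.a (T.b (T.l 819) (T.b (T.l 820) (T.l 816))) (T.b (T.b (T.l 820) (T.l 816)) (T.b (T.l 816) (T.a (T.l 816) (T.b (T.l 816) (T.l 816))))))))) (T.a (T.b (T.a (T.b (T.a (T.b (T.l 820) (T.l 820))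 (T.a (T.l 820) (T.b (T.b (T.l 816) (T.l 820)) (T.b (T.l 820) (T.l 816))))) (T.a (T.b (T.l 820) (T.b (T.l 816) (T.b (T.l 820) (T.l 820)))) (T.b (T.a (T.b (T.l 816) (T.l 816)) (T.b (T.l 816) (T.l 816))) (T.a (T.b (T.l 816) (T.l 816)) (T.l 820))))) (T.b (T.a (T.b (T.b (T.b (T.l 820) (T.l 820)) (T.b (T.l 820) (T.l 820))) (T.a (T.b (T.l 816) (T.l 816)) (T.l 820))) (T.b (T.b (T.l 820) (T.l 820)) (T.b (T.l 820) (T.l 820)))) (T.a (T.b (T.a (T.l 820) (T.l 820)) (T.b (T.l 820) (T.l 820))) (T.b (T.b (T.l 820) (T.l 820)) (T.b (T.l 820) (T.l 820)))))) (T.a (T.b (T.a (T.b (T.a (T.l 816) (T.b (T.l 816) (T.l 816))) (T.a (T.b (T.l 816) (T.l 816)) (T.b (T.l 816) (T.l 816)))) (T.b (T.a (T.l 820) (T.l 820)) (T.a (T.l 820) (T.l 820)))) (T.a (T.b (T.a (T.b (T.l 816) (T.l 816)) (T.l 820)) (T.a (T.l 820) (T.l 816))) (T.b (T.b (T.l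 820) (T.l 820)) (T.b (T.l 820) (T.l 816))))) (T.b (T.a (T.b (T.b (T.l 820) (T.l 820)) (T.b (T.l 820) (T.l 820))) (T.b (T.b (T.l 820) (T.l 820)) (T.b (T.l 816) (T.l 816)))) (T.a (T.b (T.b (T.l 816) (T.l 816)) (T.b (T.l 816) (T.l 816))) (T.b (T.b (T.l 816) (T.l 816)) (T.b (T.l 816) (T.l 816))))))) (T.b (T.a (T.b (T.b (T.a (T.b (T.l 820) (T.l 820)) (T.b (T.l 820) (T.l 820))) (T.a (T.b (T.l 820) (T.l 820)) (T.b (T.l 820) (T.l 820)))) (T.b (T.a (T.b (T.l 820) (T.l 820)) (T.b (T.l 820) (T.l 820))) (T.a (T.b (T.l 820) (T.l 820)) (T.b (T.l 820) (T.l 820))))) (T.b (T.b (T.a (T.b (T.l 820) (T.l 820)) (T.b (T.l 820) (T.l 820))) (T.a (T.b (T.l 820) (T.l 820)) (T.b (T.l 820) (T.l 820)))) (T.b (T.a (T.b (T.l 820) (T.l 820)) (T.b (T.l 820) (T.l 820))) (T.a (T.b (T.l 820) (T.l 820)) (T.b (T.l 820) (T.l 820)))))) (T.a (T.b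 (T.a (T.b (T.b (T.l 820) (T.l 816)) (T.b (T.l 816) (T.l 816))) (T.b (T.b (T.l 820) (T.l 816)) (T.b (T.l 816) (T.l 816)))) (T.a (T.b (T.b (T.l 816) (T.l 816)) (T.b (T.l 816) (T.l 816))) (T.b (T.b (T.l 816) (T.l 816)) (T.b (T.l 816) (T.l 816))))) (T.b (T.b (T.a (T.b (T.l 820) (T.l 820)) (T.b (T.l 820) (T.l 820))) (T.a (T.b (T.l 816) (T.l 816)) (T.b (T.l 820) (T.l 816)))) (T.b (T.a (T.b (T.l 816) (T.l 816)) (T.b (T.l 816) (T.l 816))) (T.a (T.b (T.l 816) (T.l 816)) (T.b (T.l 816) (T.l 816))))))))))), by decide +kernel⟩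

def A202R_013 :
    ∃ t, chk3 (onCell 0 33554432 0 1073741824 33554432 16777216 (corTK [] true 1 c0F cA202R gF0q2 gF1q0 gF3q2 gF4q2 false true)) t 1 1 1 = true :=
  ⟨(T.b (T.l 2) (T.b (T.b (T.b (T.a (T.a (T.l 816) (T.l 0)) (T.l 0)) (T.a (T.a (T.l 816) (T.l 0)) (T.l 0))) (T.a (T.a (T.l 816) (T.b (T.l 0) (T.l 0))) (T.a (T.l 0) (T.l 816)))) (T.a (T.a (T.a (T.b (T.l 816) (T.b (T.l 816) (T.b (T.l 816) (T.a (T.b (T.l 816) (T.c (T.l 816) (T.l 816))) (T.l 816))))) (T.a (T.b (T.l 816) (T.b (T.l 816) (T.b (T.l 816) (T.l 816)))) (T.b (T.l 816) (T.b (T.l 816) (T.b (T.l 816) (T.a (T.l 816) (T.a (T.l 816) (T.b (T.l 816) (T.l 816))))))))) (T.a (T.b (T.b (T.l 816) (T.l 816)) (T.b (T.b (T.l 816) (T.l 816)) (T.a (T.b (T.l 816) (T.b (T.l 816) (T.a (T.b (T.l 816) (T.l 816)) (T.l 816)))) (T.b (T.l 816) (T.b (T.l 816) (T.a (T.l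 816) (T.l 816))))))) (T.b (T.l 816) (T.b (T.l 816) (T.b (T.l 816) (T.b (T.l 816) (T.a (T.a (T.l 816) (T.l 816)) (T.a (T.l 816) (T.l 816))))))))) (T.a (T.b (T.b (T.l 816) (T.l 816)) (T.b (T.b (T.l 816) (T.l 816)) (T.a (T.b (T.l 816) (T.b (T.l 816) (T.a (T.b (T.l 816) (T.l 816)) (T.l 816)))) (T.b (T.l 816) (T.b (T.l 816) (T.a (T.l 816) (T.l 816))))))) (T.b (T.b (T.l 816) (T.l 816)) (T.b (T.b (T.l 816) (T.l 816)) (T.a (T.b (T.l 816) (T.a (T.l 820) (T.l 816))) (T.b (T.l 816) (T.b (T.l 816) (T.a (T.l 816) (T.l 816))))))))))), by decide +kernel⟩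

def A202R_023 :
    ∃ t, chk3 (onCell 0 33554432 0 1073741824 33554432 16777216 (corTK [] true 1 c0F cA202R gF0q2 gF2q0 gF3q2 gF4q2 false true)) t 1 1 1 = true :=
  ⟨(T.b (T.l 2) (T.b (T.b (T.l 2) (T.a (T.a (T.l 816) (T.l 0)) (T.b (T.l 0) (T.l 0)))) (T.b (T.a (T.a (T.a (T.l 816) (T.l 816)) (T.b (T.l 0) (T.l 0))) (T.a (T.l 0) (T.l 816))) (T.a (T.a (T.a (T.b (T.l 816) (T.b (T.l 816) (T.a (T.b (T.l 816) (T.a (T.l 816) (T.l 816))) (T.l 816)))) (T.a (T.b (T.l 816) (T.b (T.l 816) (T.l 816))) (T.b (T.l 816) (T.b (T.l 816) (T.a (T.l 816) (T.a (T.l 816) (T.b (T.l 816) (T.l 816)))))))) (T.a (T.b (T.l 816) (T.b (T.l 816) (T.b (T.l 816) (T.a (T.a (T.b (T.l 816) (T.l 816)) (T.l 816)) (T.a (T.l 816) (T.l 816)))))) (T.b (T.l 816) (T.b (T.l 816) (T.b (T.l 816) (T.b (T.l 816) (T.a (T.c (T.l 816) (T.l 820)) (T.b (T.l 816)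 (T.l 820))))))))) (T.a (T.b (T.l 816) (T.b (T.l 816) (T.a (T.b (T.l 816) (T.a (T.b (T.l 816) (T.l 816)) (T.l 816))) (T.b (T.l 816) (T.a (T.l 816) (T.l 816)))))) (T.b (T.l 816) (T.b (T.l 816) (T.a (T.a (T.l 820) (T.l 820)) (T.b (T.l 816) (T.a (T.l 816) (T.l 816))))))))))), by decide +kernel⟩

def A202R_113 :
    ∃ t, chk3 (onCell 0 33554432 0 1073741824 33554432 16777216 (corTK [] true 1 c0F cA202R gF1q2 gF1q0 gF3q2 gF4q2 false true)) t 1 1 1 = true :=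
  ⟨(T.b (T.l 2) (T.b (T.l 2) (T.a (T.a (T.a (T.l 816) (T.a (T.l 816) (T.b (T.l 816) (T.l 816)))) (T.b (T.l 0) (T.a (T.b (T.l 816) (T.l 816)) (T.l 820)))) (T.b (T.l 4) (T.a (T.a (T.l 816) (T.l 816)) (T.a (T.l 816) (T.l 816))))))), by decide +kernel⟩

def A202R_123 :
    ∃ t, chk3 (onCell 0 33554432 0 1073741824 33554432 16777216 (corTK [] true 1 c0F cA202R gF1q2 gF2q0 gF3q2 gF4q2 false true)) t 1 1 1 = true :=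
  ⟨(T.b (T.l 2) (T.b (T.l 2) (T.b (T.a (T.l 2) (T.l 0)) (T.a (T.a (T.a (T.l 816) (T.a (T.l 816) (T.l 816))) (T.b (T.l 0) (T.a (T.l 816) (T.l 816)))) (T.b (T.l 0) (T.a (T.a (T.l 816) (T.l 816)) (T.b (T.l 816) (T.l 816)))))))), by decide +kernel⟩

def A202R_223 :
    ∃ t, chk3 (onCell 0 33554432 0 1073741824 33554432 16777216 (corTK [] true 1 c0F cA202R gF2q2 gF2q0 gF3q2 gF4q2 false true)) t 1 1 1 = true :=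
  ⟨(T.l 2), by decide +kernel⟩

def B011E_000 :
    ∃ t, chk3 (onCell 0 33554432 0 1073741824 33554432 16777216 (corTK [] true 1 c0F cB011E gF0q0 gF0q1 gF0q1 gF1q1 true false)) t 1 1 1 = true :=
  ⟨(T.l 1), by decide +kernel⟩

def B011E_100 :
    ∃ t, chk3 (onCell 0 33554432 0 1073741824 33554432 16777216 (corTK [] true 1 c0F cB011E gF1q0 gF0q1 gF0q1 gF1q1 true false)) t 1 1 1 = true :=
  ⟨(T.l 1), by decide +kernel⟩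

def B011E_200 :
    ∃ t, chk3 (onCell 0 33554432 0 1073741824 33554432 16777216 (corTK [] true 1 c0F cB011E gF2q0 gF0q1 gF0q1 gF1q1 true false)) t 1 1 1 = true :=
  ⟨(T.b (T.b (T.b (T.a (T.b (T.a (T.a (T.l 204) (T.l 204)) (T.l 204)) (T.l 1)) (T.l 204)) (T.l 1)) (T.l 1)) (T.l 1)), by decide +kernel⟩

def B011L_020 :
    ∃ t, chk3 (onCell 0 33554432 0 1073741824 33554432 16777216 (corTK [] true 1 c0F cB011L gF0q0 gF2q1 gF0q1 gF1q1 true false)) t 1 1 1 = true :=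
  ⟨(T.l 1), by decide +kernel⟩

def B011L_030 :
    ∃ t, chk3 (onCell 0 33554432 0 1073741824 33554432 16777216 (corTK [] true 1 c0F cB011L gF0q0 gF3q1 gF0q1 gF1q1 true false)) t 1 1 1 = true :=
  ⟨(T.l 1), by decide +kernel⟩

def B011L_040 :
    ∃ t, chk3 (onCell 0 33554432 0 1073741824 33554432 16777216 (corTK [] true 1 c0F cB011L gF0q0 gF4q1 gF0q1 gF1q1 true false)) t 1 1 1 = true :=
  ⟨(T.l 1), by decide +kernel⟩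

def B011L_120 :
    ∃ t, chk3 (onCell 0 33554432 0 1073741824 33554432 16777216 (corTK [] true 1 c0F cB011L gF1q0 gF2q1 gF0q1 gF1q1 true false)) t 1 1 1 = true :=
  ⟨(T.l 1), by decide +kernel⟩

def B011L_130 :
    ∃ t, chk3 (onCell 0 33554432 0 1073741824 33554432 16777216 (corTK [] true 1 c0F cB011L gF1q0 gF3q1 gF0q1 gF1q1 true false)) t 1 1 1 = true :=
  ⟨(T.l 1), by decide +kernel⟩

def B011L_140 :
    ∃ t, chk3 (onCell 0 33554432 0 1073741824 33554432 16777216 (corTK [] true 1 c0F cB011L gF1q0 gF4q1 gF0q1 gF1q1 true false)) t 1 1 1 = true :=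
  ⟨(T.l 1), by decide +kernel⟩

def B011L_220 :
    ∃ t, chk3 (onCell 0 33554432 0 1073741824 33554432 16777216 (corTK [] true 1 c0F cB011L gF2q0 gF2q1 gF0q1 gF1q1 true false)) t 1 1 1 = true :=
  ⟨(T.l 1), by decide +kernel⟩

def B011L_230 :
    ∃ t, chk3 (onCell 0 33554432 0 1073741824 33554432 16777216 (corTK [] true 1 c0F cB011L gF2q0 gF3q1 gF0q1 gF1q1 true false)) t 1 1 1 = true :=
  ⟨(T.l 1), by decide +kernel⟩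

def B011L_240 :
    ∃ t, chk3 (onCell 0 33554432 0 1073741824 33554432 16777216 (corTK [] true 1 c0F cB011L gF2q0 gF4q1 gF0q1 gF1q1 true false)) t 1 1 1 = true :=
  ⟨(T.l 1), by decide +kernel⟩

def B011R_001 :
    ∃ t, chk3 (onCell 0 16777216 0 1073741824 33554432 16777216 (corTK [[⟨0, 0, 1, 16777216⟩, ⟨1, 1, 2, 16777216⟩, ⟨2, 1, 0, 6291456⟩, ⟨0, 0, 0, 67108864⟩, ⟨0, 1, 0, 1056964608⟩, ⟨1, 0, 0, 1056964608⟩, ⟨1, 1, 0, 67108864⟩]] true 1 c0F cB011R gF0q0 gF0q1 gF1q1 gF2q1 false true)) t 1 1 1 = true :=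
  ⟨(T.b (T.b (T.b (T.b (T.b (T.b (T.b (T.b (T.a (T.a (T.l 204) (T.c (T.b (T.c (T.b (T.a (T.a (T.l 204) (T.l 204)) (T.a (T.l 204) (T.l 204))) (T.l 2)) (T.a (T.a (T.l 204) (T.l 204)) (T.l 204))) (T.l 2)) (T.b (T.c (T.a (T.a (T.l 204) (T.l 204)) (T.l 204)) (T.a (T.a (T.l 204) (T.l 204)) (T.l 204))) (T.l 2)))) (T.c (T.b (T.a (T.c (T.b (T.a (T.a (T.l 204) (T.l 204)) (T.a (T.l 204) (T.l 204))) (T.l 2)) (T.b (T.a (T.a (T.l 204) (T.l 204)) (T.a (T.l 204) (T.l 204))) (T.l 2))) (T.c (T.b (T.a (T.a (T.l 204) (T.a (T.l 204) (T.l 204))) (T.c (T.b (T.a (T.a (T.l 204) (T.l 220)) (T.a (T.l 476) (T.l 476))) (T.l 2)) (T.b (T.a (T.a (T.l 204) (T.l 204)) (T.a (T.l 476) (T.l 476))) (T.l 2)))) (T.l 2)) (T.b (T.a (T.a (T.l 204) (T.l 476)) (T.c (T.a (T.l 476) (T.a (T.l 204) (T.l 476))) (T.a (T.l 476) (T.a (T.l 204) (T.l 476)))))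 (T.l 2)))) (T.l 2)) (T.b (T.a (T.c (T.b (T.a (T.a (T.l 204) (T.l 204)) (T.a (T.l 204) (T.l 204))) (T.l 2)) (T.b (T.a (T.a (T.l 204) (T.l 204)) (T.a (T.l 204) (T.l 204))) (T.l 2))) (T.c (T.b (T.a (T.a (T.l 204) (T.l 460)) (T.a (T.l 476) (T.a (T.l 204) (T.l 476)))) (T.l 2)) (T.b (T.a (T.a (T.l 204) (T.l 204)) (T.a (T.l 460) (T.c (T.l 476) (T.l 476)))) (T.l 2)))) (T.l 2)))) (T.l 2)) (T.l 2)) (T.l 2)) (T.l 2)) (T.l 2)) (T.l 2)) (T.l 2)) (T.l 2)), by decide +kernel⟩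

def B011R_002 :
    ∃ t, chk3 (onCell 0 16777216 0 1073741824 33554432 16777216 (corTK [[⟨0, 0, 1, 16777216⟩, ⟨1, 1, 2, 16777216⟩, ⟨2, 1, 0, 6291456⟩, ⟨0, 0, 0, 67108864⟩, ⟨0, 1, 0, 1056964608⟩, ⟨1, 0, 0, 1056964608⟩, ⟨1, 1, 0, 67108864⟩]] true 1 c0F cB011R gF0q0 gF0q1 gF2q1 gF3q1 true true)) t 1 1 1 = true :=
  ⟨(T.b (T.b (T.b (T.a (T.a (T.b (T.b (T.b (T.l 204) (T.l 204)) (T.l 204)) (T.l 204)) (T.a (T.a (T.b (T.c (T.a (T.l 220) (T.l 204)) (T.b (T.l 204) (T.l 204))) (T.a (T.l 204) (T.l 204))) (T.b (T.c (T.b (T.l 204) (T.l 204)) (T.l 204)) (T.b (T.l 204) (T.l 0)))) (T.a (T.b (T.c (T.l 204) (T.l 204)) (T.b (T.l 204) (T.l 0))) (T.b (T.c (T.b (T.l 204) (T.l 204)) (T.l 204)) (T.b (T.l 204) (T.l 0)))))) (T.a (T.a (T.b (T.a (T.c (T.b (T.l 204) (T.l 204)) (T.l 460)) (T.b (T.c (T.b (T.l 204) (T.l 204)) (T.l 204))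 (T.b (T.l 204) (T.l 204)))) (T.a (T.b (T.l 204) (T.l 0)) (T.b (T.l 204) (T.l 204)))) (T.b (T.b (T.a (T.c (T.b (T.b (T.l 204) (T.l 204)) (T.l 204)) (T.l 460)) (T.c (T.b (T.a (T.l 204) (T.l 220)) (T.l 204)) (T.b (T.l 204) (T.l 204)))) (T.a (T.b (T.l 220) (T.l 204)) (T.c (T.l 204) (T.l 204)))) (T.c (T.a (T.l 204) (T.l 204)) (T.b (T.l 204) (T.l 0))))) (T.a (T.b (T.b (T.a (T.b (T.c (T.b (T.a (T.l 204) (T.l 220)) (T.l 220)) (T.b (T.l 204) (T.l 204))) (T.c (T.l 220) (T.l 204))) (T.b (T.c (T.b (T.c (T.a (T.l 204) (T.l 220)) (T.c (T.l 476) (T.l 460))) (T.c (T.l 220) (T.l 204))) (T.b (T.a (T.l 204) (T.l 460)) (T.l 204))) (T.c (T.b (T.l 220) (T.l 204)) (T.l 204)))) (T.c (T.a (T.l 220) (T.l 220)) (T.b (T.l 204) (T.l 204)))) (T.c (T.a (T.l 220) (T.l 220)) (T.l 16))) (T.b (T.b (T.a (T.b (T.c (T.b (T.c (T.b (T.a (T.l 220)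 (T.b (T.l 476) (T.l 220))) (T.c (T.l 220) (T.l 220))) (T.a (T.l 204) (T.l 476))) (T.c (T.l 220) (T.l 204))) (T.b (T.a (T.l 476) (T.b (T.l 476) (T.l 204))) (T.l 460))) (T.c (T.b (T.l 220) (T.l 204)) (T.l 204))) (T.b (T.c (T.b (T.c (T.a (T.b (T.c (T.l 476) (T.l 476)) (T.l 220)) (T.b (T.c (T.b (T.l 476) (T.l 476)) (T.l 476)) (T.l 220))) (T.a (T.b (T.l 476) (T.l 204)) (T.b (T.b (T.l 476) (T.l 476)) (T.l 204)))) (T.c (T.c (T.l 220) (T.l 220)) (T.l 476))) (T.b (T.a (T.b (T.l 476) (T.l 204)) (T.c (T.b (T.l 476) (T.l 204)) (T.l 476))) (T.b (T.l 476) (T.l 204)))) (T.c (T.b (T.b (T.l 220) (T.l 220)) (T.l 220)) (T.l 476)))) (T.c (T.a (T.b (T.l 220) (T.l 204)) (T.b (T.l 220) (T.l 204))) (T.c (T.l 476) (T.l 460)))) (T.c (T.b (T.c (T.l 220) (T.l 204)) (T.l 16)) (T.b (T.l 204) (T.l 0))))))) (T.b (T.b (T.a (T.a (T.l 0) (T.a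 (T.a (T.a (T.l 0) (T.l 0)) (T.c (T.l 4) (T.l 0))) (T.a (T.c (T.l 4) (T.l 0)) (T.a (T.l 0) (T.b (T.l 0) (T.l 816)))))) (T.a (T.a (T.a (T.c (T.l 4) (T.l 0)) (T.c (T.l 4) (T.l 0))) (T.c (T.a (T.l 4) (T.l 4)) (T.l 4))) (T.a (T.c (T.a (T.l 4) (T.l 4)) (T.l 0)) (T.c (T.a (T.l 4) (T.b (T.l 0) (T.l 820))) (T.l 68))))) (T.b (T.b (T.b (T.a (T.a (T.l 816) (T.a (T.a (T.a (T.l 816) (T.l 816)) (T.c (T.l 820) (T.l 816))) (T.a (T.c (T.l 816) (T.l 816)) (T.a (T.l 816) (T.l 820))))) (T.a (T.a (T.c (T.a (T.l 820) (T.l 820)) (T.l 884)) (T.a (T.l 820) (T.l 820))) (T.a (T.a (T.l 820) (T.l 820)) (T.a (T.l 820) (T.l 820))))) (T.a (T.a (T.l 816) (T.a (T.a (T.a (T.l 816) (T.l 816)) (T.a (T.l 816) (T.l 816))) (T.a (T.c (T.l 820) (T.l 816)) (T.a (T.l 816) (T.l 820))))) (T.a (T.a (T.a (T.c (T.l 820) (T.l 816)) (T.c (T.l 820) (T.l 816)))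 (T.c (T.a (T.l 820) (T.l 820)) (T.l 884))) (T.a (T.c (T.a (T.l 820) (T.l 820)) (T.l 884)) (T.c (T.a (T.l 820) (T.l 820)) (T.l 884)))))) (T.b (T.a (T.a (T.l 816) (T.c (T.b (T.a (T.a (T.a (T.l 816) (T.l 816)) (T.c (T.l 820) (T.l 816))) (T.a (T.c (T.l 820) (T.l 816)) (T.a (T.l 816) (T.l 820)))) (T.c (T.b (T.a (T.a (T.a (T.l 816) (T.l 816)) (T.c (T.l 820) (T.l 816))) (T.a (T.l 820) (T.a (T.l 816) (T.l 820)))) (T.l 2)) (T.b (T.a (T.a (T.l 820) (T.l 816)) (T.a (T.l 816) (T.l 820))) (T.l 2)))) (T.a (T.a (T.l 816) (T.l 816)) (T.a (T.l 816) (T.l 816))))) (T.c (T.b (T.a (T.a (T.a (T.c (T.l 820) (T.l 816)) (T.l 820)) (T.a (T.l 820) (T.l 820))) (T.a (T.a (T.l 820) (T.l 820)) (T.a (T.l 820) (T.l 820)))) (T.a (T.c (T.b (T.a (T.a (T.l 820) (T.l 820)) (T.a (T.l 820) (T.l 820))) (T.l 2)) (T.b (T.a (T.a (T.l 816) (T.l 816))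 (T.a (T.l 816) (T.l 816))) (T.l 2))) (T.c (T.b (T.a (T.a (T.l 820) (T.l 820)) (T.a (T.l 820) (T.l 820))) (T.l 2)) (T.a (T.l 884) (T.l 884))))) (T.b (T.a (T.a (T.c (T.l 884) (T.l 884)) (T.l 884)) (T.a (T.l 884) (T.l 884))) (T.a (T.c (T.a (T.a (T.l 816) (T.l 816)) (T.l 884)) (T.a (T.a (T.l 816) (T.l 816)) (T.l 880))) (T.a (T.l 884) (T.c (T.l 884) (T.l 880))))))) (T.l 2))) (T.l 2))) (T.l 2))) (T.l 2)) (T.l 2)), by decide +kernel⟩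

def B011R_003 :
    ∃ t, chk3 (onCell 0 16777216 0 1073741824 33554432 16777216 (corXK [[⟨0, 0, 1, 16777216⟩, ⟨1, 1, 2, 16777216⟩, ⟨2, 1, 0, 6291456⟩, ⟨0, 0, 0, 67108864⟩, ⟨0, 1, 0, 1056964608⟩, ⟨1, 0, 0, 1056964608⟩, ⟨1, 1, 0, 67108864⟩]] 1 c0F cB011R tB011R gF0q0 gF0q1 gF3q1 gF4q1 gF4q1 true true)) t 1 1 1 = true :=
  ⟨(T.b (T.b (T.b (T.l 1) (T.a (T.a (T.l 819) (T.a (T.l 819) (T.a (T.l 819) (T.l 823)))) (T.a (T.a (T.a (T.l 823) (T.l 823)) (T.a (T.l 823) (T.l 823))) (T.a (T.a (T.l 823) (T.l 823)) (T.a (T.l 887) (T.b (T.b (T.l 1) (T.l 887)) (T.l 887))))))) (T.b (T.a (T.a (T.l 819) (T.a (T.l 819) (T.a (T.l 819) (T.l 823)))) (T.a (T.a (T.a (T.l 823) (T.l 823)) (T.c (T.l 823) (T.l 819))) (T.c (T.a (T.l 823) (T.b (T.l 823) (T.l 823))) (T.l 887)))) (T.l 2))) (T.l 2)), by decide +kernel⟩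

def B011R_101 :
    ∃ t, chk3 (onCell 0 33554432 0 1073741824 33554432 16777216 (corTK [] true 1 c0F cB011R gF1q0 gF0q1 gF1q1 gF2q1 false true)) t 1 1 1 = true :=
  ⟨(T.l 2), by decide +kernel⟩

def B011R_102 :
    ∃ t, chk3 (onCell 0 33554432 0 1073741824 33554432 16777216 (corTK [] true 1 c0F cB011R gF1q0 gF0q1 gF2q1 gF3q1 true true)) t 1 1 1 = true :=
  ⟨(T.l 2), by decide +kernel⟩

def B011R_103 :
    ∃ t, chk3 (onCell 0 33554432 0 1073741824 33554432 16777216 (corTK [] true 1 c0F cB011R gF1q0 gF0q1 gF3q1 gF4q1 true true)) t 1 1 1 = true :=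
  ⟨(T.l 2), by decide +kernel⟩

def B011R_201 :
    ∃ t, chk3 (onCell 0 33554432 0 1073741824 33554432 16777216 (corTK [] true 1 c0F cB011R gF2q0 gF0q1 gF1q1 gF2q1 false true)) t 1 1 1 = true :=
  ⟨(T.l 2), by decide +kernel⟩

def B011R_202 :
    ∃ t, chk3 (onCell 0 33554432 0 1073741824 33554432 16777216 (corTK [] true 1 c0F cB011R gF2q0 gF0q1 gF2q1 gF3q1 true true)) t 1 1 1 = true :=
  ⟨(T.l 2), by decide +kernel⟩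

def B011R_203 :
    ∃ t, chk3 (onCell 0 33554432 0 1073741824 33554432 16777216 (corTK [] true 1 c0F cB011R gF2q0 gF0q1 gF3q1 gF4q1 true true)) t 1 1 1 = true :=
  ⟨(T.l 2), by decide +kernel⟩

def B012E_000 :
    ∃ t, chk3 (onCell 0 12582912 0 1073741824 33554432 16777216 (corXK [] 1 c0F cB012E tB012E gF0q0 gF0q2 gF0q1 gF1q1 gF0q1 true false)) t 1 1 1 = true :=
  ⟨(T.b (T.b (T.l 1) (T.b (T.l 1) (T.b (T.l 1) (T.l 3)))) (T.a (T.a (T.l 3) (T.l 3)) (T.b (T.a (T.b (T.l 3) (T.b (T.l 207) (T.a (T.l 207) (T.l 204)))) (T.b (T.a (T.l 3) (T.b (T.b (T.l 3) (T.b (T.l 207) (T.l 0))) (T.b (T.l 0) (T.l 204)))) (T.b (T.a (T.b (T.l 204) (T.l 204)) (T.a (T.l 204) (T.b (T.l 0) (T.l 0)))) (T.a (T.b (T.l 204) (T.b (T.l 204) (T.l 0))) (T.b (T.b (T.l 0) (T.l 0)) (T.b (T.l 204) (T.l 204))))))) (T.a (T.a (T.b (T.l 207) (T.b (T.l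 204) (T.l 204))) (T.b (T.b (T.l 204) (T.a (T.l 204) (T.b (T.l 204) (T.l 204)))) (T.b (T.a (T.l 204) (T.b (T.l 204) (T.l 204))) (T.a (T.b (T.l 204) (T.l 204)) (T.l 220))))) (T.b (T.a (T.b (T.b (T.b (T.l 204) (T.l 204)) (T.b (T.l 204) (T.l 204))) (T.a (T.b (T.l 204) (T.l 204)) (T.l 220))) (T.b (T.b (T.b (T.l 204) (T.l 204)) (T.l 220)) (T.b (T.l 204) (T.l 204)))) (T.a (T.b (T.a (T.l 204) (T.l 204)) (T.b (T.l 204) (T.l 204))) (T.b (T.b (T.l 204) (T.l 204)) (T.b (T.l 204) (T.l 204))))))))), by decide +kernel⟩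

end Pool.Agent.Strip051.G.I1_32_3_64.Tab.CF
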