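import Pool.Agent.Strip051.G.I1_32_3_64.Gn
import Pool.Agent.Strip051.PB.Corns
import Pool.Agent.Strip051.PB.CornK

/-! # Certificates of the aligned corners (generated) -/

set_option linter.all false

namespace Pool.Agent.Strip051.G.I1_32_3_64.Tab.CF

open Pool.Agent.Strip051.PB

def B012E_010 :
    ∃ t, chk3 (onCell 0 33554432 0 1073741824 33554432 16777216 (corTK [] true 1 c0F cB012E gF0q0 gF1q2 gF0q1 gF1q1 true false)) t 1 1 1 = true :=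
  ⟨(T.b (T.l 1) (T.b (T.b (T.l 1) (T.a (T.a (T.b (T.b (T.l 1) (T.a (T.c (T.l 820) (T.l 816)) (T.b (T.c (T.b (T.l 1) (T.l 820)) (T.l 884)) (T.c (T.l 820) (T.l 816))))) (T.b (T.a (T.l 820) (T.b (T.l 820) (T.l 816))) (T.a (T.l 816) (T.l 820)))) (T.a (T.a (T.b (T.b (T.l 1) (T.b (T.c (T.c (T.l 884) (T.l 884)) (T.b (T.l 884) (T.l 820))) (T.l 820))) (T.b (T.l 820) (T.l 816))) (T.b (T.b (T.l 1) (T.a (T.b (T.b (T.b (T.l 1) (T.l 884)) (T.l 820)) (T.l 820)) (T.b (T.b (T.b (T.l 1) (T.a (T.l 884) (T.c (T.c (T.l 884) (T.l 884)) (T.b (T.l 1) (T.l 820))))) (T.c (T.a (T.l 884) (T.l 884)) (T.a (T.l 820) (T.b (T.l 820) (T.l 820))))) (T.c (T.a (T.l 820) (T.l 820)) (T.a (T.l 820) (T.l 820)))))) (T.b (T.a (T.a (T.l 820) (T.b (T.l 820) (T.l 820))) (T.b (T.c (T.l 820) (T.l 820)) (T.l 820))) (T.a (T.b (T.l 820) (T.l 816))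 (T.l 820))))) (T.a (T.b (T.b (T.l 1) (T.a (T.b (T.b (T.b (T.l 1) (T.c (T.a (T.l 884) (T.l 884)) (T.a (T.l 820) (T.l 820)))) (T.c (T.b (T.l 884) (T.l 820)) (T.c (T.l 820) (T.l 820)))) (T.b (T.c (T.l 820) (T.l 820)) (T.l 820))) (T.b (T.c (T.b (T.b (T.l 1) (T.a (T.l 820) (T.l 884))) (T.c (T.l 884) (T.l 820))) (T.b (T.b (T.l 1) (T.a (T.l 820) (T.l 820))) (T.c (T.l 820) (T.l 820)))) (T.a (T.l 820) (T.b (T.l 820) (T.l 820)))))) (T.b (T.a (T.b (T.l 820) (T.l 820)) (T.b (T.b (T.l 820) (T.l 820)) (T.l 820))) (T.a (T.l 820) (T.l 820)))) (T.b (T.b (T.l 1) (T.a (T.b (T.c (T.b (T.b (T.l 1) (T.c (T.l 884) (T.l 884))) (T.b (T.l 884) (T.l 820))) (T.b (T.a (T.l 884) (T.l 884)) (T.l 884))) (T.c (T.l 820) (T.l 820))) (T.b (T.c (T.b (T.a (T.l 884) (T.l 884)) (T.b (T.l 884) (T.l 820))) (T.b (T.a (T.l 884) (T.l 884)) (T.l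 884))) (T.c (T.l 820) (T.l 820))))) (T.b (T.a (T.b (T.l 820) (T.l 820)) (T.b (T.l 820) (T.l 820))) (T.a (T.l 820) (T.l 820))))))) (T.a (T.a (T.b (T.b (T.l 1) (T.a (T.b (T.a (T.c (T.b (T.a (T.l 884) (T.l 884)) (T.l 884)) (T.b (T.b (T.l 1) (T.l 884)) (T.l 820))) (T.b (T.b (T.l 1) (T.c (T.l 884) (T.l 884))) (T.c (T.l 820) (T.l 820)))) (T.a (T.c (T.l 820) (T.l 820)) (T.b (T.l 820) (T.l 820)))) (T.b (T.a (T.b (T.b (T.l 1) (T.c (T.l 884) (T.l 884))) (T.c (T.l 820) (T.l 820))) (T.b (T.b (T.l 1) (T.c (T.l 884) (T.l 884))) (T.c (T.l 820) (T.l 820)))) (T.a (T.b (T.l 820) (T.l 820)) (T.b (T.l 820) (T.l 820)))))) (T.a (T.b (T.b (T.a (T.l 820) (T.l 820)) (T.c (T.l 820) (T.l 820))) (T.b (T.l 820) (T.l 820))) (T.b (T.b (T.c (T.l 820) (T.l 820)) (T.l 820)) (T.b (T.l 820) (T.l 820))))) (T.b (T.b (T.l 1) (T.a (T.b (T.a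 (T.b (T.c (T.b (T.l 884) (T.l 884)) (T.b (T.l 884) (T.l 884))) (T.l 884)) (T.b (T.a (T.l 884) (T.l 884)) (T.l 884))) (T.a (T.l 884) (T.l 884))) (T.b (T.a (T.b (T.a (T.l 884) (T.l 884)) (T.l 884)) (T.b (T.a (T.l 884) (T.l 884)) (T.l 884))) (T.a (T.l 884) (T.l 884))))) (T.a (T.b (T.a (T.l 820) (T.l 820)) (T.l 820)) (T.b (T.b (T.l 884) (T.l 820)) (T.l 820))))) (T.b (T.b (T.l 1) (T.a (T.a (T.b (T.b (T.a (T.a (T.l 884) (T.l 884)) (T.a (T.l 884) (T.l 884))) (T.a (T.l 884) (T.l 884))) (T.a (T.l 884) (T.l 884))) (T.b (T.b (T.a (T.a (T.l 884) (T.l 884)) (T.c (T.l 884) (T.l 884))) (T.a (T.l 884) (T.l 884))) (T.b (T.l 884) (T.l 820)))) (T.a (T.b (T.b (T.c (T.a (T.l 884) (T.l 884)) (T.a (T.l 884) (T.l 884))) (T.c (T.l 884) (T.l 884))) (T.b (T.l 884) (T.l 820))) (T.b (T.b (T.a (T.l 884) (T.l 884)) (T.l 884)) (T.l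 884))))) (T.a (T.b (T.a (T.b (T.l 820) (T.l 820)) (T.b (T.l 820) (T.l 820))) (T.a (T.l 820) (T.l 820))) (T.b (T.a (T.b (T.l 820) (T.l 820)) (T.l 884)) (T.b (T.l 820) (T.l 820)))))))) (T.b (T.a (T.a (T.b (T.b (T.l 820) (T.l 816)) (T.l 816)) (T.a (T.a (T.b (T.a (T.l 816) (T.b (T.l 820) (T.l 816))) (T.a (T.b (T.l 816) (T.l 816)) (T.b (T.l 816) (T.l 816)))) (T.b (T.b (T.a (T.l 820) (T.l 816)) (T.b (T.l 820) (T.l 816))) (T.b (T.l 820) (T.l 816)))) (T.a (T.b (T.b (T.c (T.l 820) (T.l 820)) (T.b (T.l 816) (T.l 816))) (T.b (T.l 816) (T.l 816))) (T.b (T.a (T.l 820) (T.l 820)) (T.b (T.l 816) (T.l 816)))))) (T.a (T.a (T.b (T.a (T.b (T.l 820) (T.l 816)) (T.b (T.l 820) (T.l 816))) (T.a (T.l 820) (T.l 816))) (T.b (T.a (T.b (T.l 820) (T.l 816)) (T.b (T.l 816) (T.l 816))) (T.a (T.l 816) (T.l 816)))) (T.a (T.b (T.a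 (T.l 820) (T.l 820)) (T.b (T.l 820) (T.l 816))) (T.b (T.b (T.b (T.l 820) (T.l 820)) (T.l 820)) (T.b (T.l 820) (T.l 816)))))) (T.a (T.a (T.a (T.l 816) (T.a (T.l 816) (T.b (T.l 816) (T.a (T.l 816) (T.l 816))))) (T.a (T.a (T.b (T.a (T.l 816) (T.l 816)) (T.b (T.l 816) (T.l 816))) (T.b (T.b (T.l 816) (T.l 816)) (T.l 816))) (T.a (T.b (T.l 820) (T.l 816)) (T.b (T.l 816) (T.l 816))))) (T.a (T.a (T.b (T.a (T.l 816) (T.l 816)) (T.b (T.l 816) (T.l 816))) (T.b (T.b (T.l 816) (T.l 816)) (T.b (T.l 816) (T.l 816)))) (T.a (T.b (T.b (T.l 816) (T.l 816)) (T.l 820)) (T.b (T.l 820) (T.b (T.l 816) (T.l 816))))))))), by decide +kernel⟩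

def B012E_020 :
    ∃ t, chk3 (onCell 0 33554432 0 1073741824 33554432 16777216 (corTK [[⟨0, 0, 1, 25165824⟩, ⟨1, 1, 0, 16777216⟩, ⟨2, 1, 1, 25165824⟩, ⟨0, 0, 0, 67108864⟩, ⟨0, 1, 0, 1056964608⟩, ⟨2, 1, 0, 67108864⟩, ⟨2, 2, 0, 1056964608⟩]] true 1 c0F cB012E gF0q0 gF2q2 gF0q1 gF1q1 true false)) t 1 1 1 = true :=
  ⟨(T.b (T.l 1) (T.b (T.l 1) (T.b (T.l 1) (T.b (T.l 1) (T.b (T.l 1) (T.b (T.l 1) (T.b (T.l 1) (T.b (T.l 1) (T.a (T.c (T.b (T.l 1) (T.a (T.c (T.a (T.l 880) (T.b (T.l 1) (T.c (T.b (T.l 1) (T.a (T.a (T.a (T.a (T.l 816) (T.l 816)) (T.l 816)) (T.l 816)) (T.a (T.l 816) (T.a (T.l 816) (T.l 816))))) (T.b (T.l 1) (T.a (T.a (T.a (T.a (T.l 816) (T.l 816)) (T.l 816)) (T.l 816)) (T.a (T.l 816) (T.a (T.l 816) (T.l 816)))))))) (T.a (T.l 816) (T.b (T.l 1) (T.c (T.b (T.l 1) (T.a (T.a (T.a (T.a (T.l 816) (T.l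 816)) (T.l 816)) (T.l 816)) (T.a (T.l 816) (T.a (T.l 816) (T.l 816))))) (T.b (T.l 1) (T.a (T.a (T.a (T.a (T.l 816) (T.l 816)) (T.l 816)) (T.l 816)) (T.a (T.l 816) (T.a (T.l 816) (T.l 816))))))))) (T.c (T.b (T.l 1) (T.a (T.c (T.b (T.l 1) (T.a (T.a (T.l 816) (T.l 816)) (T.a (T.l 816) (T.l 816)))) (T.b (T.l 1) (T.a (T.a (T.l 816) (T.l 816)) (T.a (T.l 816) (T.l 816))))) (T.c (T.b (T.l 1) (T.a (T.a (T.l 816) (T.a (T.l 816) (T.l 880))) (T.c (T.b (T.l 1) (T.a (T.a (T.l 880) (T.l 880)) (T.a (T.l 880) (T.l 884)))) (T.b (T.l 1) (T.a (T.l 880) (T.a (T.l 880) (T.l 884))))))) (T.b (T.l 1) (T.a (T.a (T.l 816) (T.a (T.l 816) (T.l 880))) (T.c (T.a (T.l 880) (T.a (T.l 880) (T.l 884))) (T.a (T.l 880) (T.a (T.l 880) (T.l 884))))))))) (T.b (T.l 1) (T.a (T.c (T.b (T.l 1) (T.a (T.a (T.l 816) (T.l 816)) (T.a (T.l 816) (T.l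 816)))) (T.b (T.l 1) (T.a (T.a (T.l 816) (T.l 816)) (T.a (T.l 816) (T.l 816))))) (T.c (T.b (T.l 1) (T.a (T.a (T.l 816) (T.l 880)) (T.c (T.a (T.l 880) (T.a (T.l 880) (T.l 884))) (T.a (T.l 880) (T.a (T.l 816) (T.l 884)))))) (T.b (T.l 1) (T.a (T.a (T.l 816) (T.l 880)) (T.a (T.l 880) (T.a (T.l 816) (T.l 884))))))))))) (T.b (T.l 1) (T.a (T.c (T.a (T.l 816) (T.b (T.l 1) (T.c (T.b (T.l 1) (T.a (T.a (T.a (T.a (T.l 816) (T.l 816)) (T.l 816)) (T.l 816)) (T.a (T.l 816) (T.a (T.l 816) (T.l 816))))) (T.b (T.l 1) (T.a (T.a (T.a (T.a (T.l 816) (T.l 816)) (T.l 816)) (T.l 816)) (T.a (T.l 816) (T.a (T.l 816) (T.l 816)))))))) (T.a (T.l 816) (T.b (T.l 1) (T.c (T.b (T.l 1) (T.a (T.a (T.a (T.a (T.l 816) (T.l 816)) (T.l 816)) (T.l 816)) (T.a (T.l 816) (T.a (T.l 816) (T.l 816))))) (T.b (T.l 1) (T.a (T.a (T.a (T.a (T.l 816)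 (T.l 816)) (T.l 816)) (T.l 816)) (T.a (T.l 816) (T.a (T.l 816) (T.l 816))))))))) (T.c (T.b (T.l 1) (T.a (T.c (T.b (T.l 1) (T.a (T.a (T.l 816) (T.l 816)) (T.a (T.l 816) (T.l 816)))) (T.b (T.l 1) (T.a (T.a (T.l 816) (T.l 816)) (T.a (T.l 816) (T.l 816))))) (T.c (T.b (T.l 1) (T.a (T.a (T.l 816) (T.l 880)) (T.a (T.l 880) (T.a (T.l 816) (T.l 880))))) (T.b (T.l 1) (T.a (T.a (T.l 816) (T.l 816)) (T.a (T.l 880) (T.a (T.l 816) (T.l 816)))))))) (T.b (T.l 1) (T.a (T.c (T.b (T.l 1) (T.a (T.a (T.l 816) (T.l 816)) (T.a (T.l 816) (T.l 816)))) (T.b (T.l 1) (T.a (T.a (T.l 816) (T.l 816)) (T.l 880)))) (T.c (T.b (T.l 1) (T.a (T.a (T.l 816) (T.l 816)) (T.a (T.l 816) (T.l 884)))) (T.b (T.l 1) (T.a (T.a (T.l 816) (T.l 816)) (T.a (T.l 816) (T.l 884))))))))))) (T.c (T.a (T.a (T.a (T.b (T.l 1) (T.a (T.c (T.b (T.l 1) (T.a (T.a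 (T.l 884) (T.l 1024)) (T.l 1024))) (T.b (T.l 1) (T.a (T.c (T.l 884) (T.l 884)) (T.l 1024)))) (T.l 1024))) (T.l 1024)) (T.l 1024)) (T.l 1024)) (T.b (T.l 1) (T.a (T.c (T.b (T.l 1) (T.a (T.c (T.b (T.l 1) (T.a (T.c (T.a (T.a (T.l 880) (T.l 880)) (T.l 884)) (T.a (T.l 884) (T.l 884))) (T.a (T.a (T.l 884) (T.l 1024)) (T.l 1024)))) (T.b (T.l 1) (T.a (T.a (T.a (T.l 816) (T.l 816)) (T.l 884)) (T.a (T.l 884) (T.l 884))))) (T.a (T.a (T.a (T.l 884) (T.l 1024)) (T.l 1024)) (T.l 1024)))) (T.b (T.l 1) (T.a (T.c (T.b (T.l 1) (T.a (T.a (T.l 884) (T.l 884)) (T.a (T.l 884) (T.l 884)))) (T.b (T.l 1) (T.a (T.a (T.l 884) (T.l 884)) (T.a (T.l 884) (T.l 884))))) (T.c (T.b (T.l 1) (T.a (T.a (T.l 884) (T.l 884)) (T.a (T.l 884) (T.l 1024)))) (T.b (T.l 1) (T.a (T.a (T.l 884) (T.l 884)) (T.a (T.l 884) (T.l 884)))))))) (T.a (T.a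 (T.c (T.l 1024) (T.a (T.c (T.l 1024) (T.a (T.l 884) (T.l 1024))) (T.l 1024))) (T.l 1024)) (T.l 1024)))))))))))))), by decide +kernel⟩

def B012E_100 :
    ∃ t, chk3 (onCell 0 33554432 0 1073741824 33554432 16777216 (corTK [] true 1 c0F cB012E gF1q0 gF0q2 gF0q1 gF1q1 true false)) t 1 1 1 = true :=
  ⟨(T.b (T.b (T.b (T.l 1) (T.b (T.l 1) (T.a (T.a (T.l 204) (T.l 204)) (T.l 204)))) (T.b (T.a (T.a (T.l 204) (T.l 204)) (T.b (T.l 204) (T.l 204))) (T.a (T.a (T.l 204) (T.l 0)) (T.l 0)))) (T.b (T.a (T.a (T.l 204) (T.b (T.l 0) (T.l 0))) (T.b (T.l 0) (T.l 0))) (T.b (T.a (T.a (T.a (T.l 204) (T.l 204)) (T.l 0)) (T.l 0)) (T.a (T.a (T.a (T.l 204) (T.l 204)) (T.l 0)) (T.l 0))))), by decide +kernel⟩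

def B012E_110 :
    ∃ t, chk3 (onCell 0 33554432 0 1073741824 33554432 16777216 (corTK [] true 1 c0F cB012E gF1q0 gF1q2 gF0q1 gF1q1 true false)) t 1 1 1 = true :=
  ⟨(T.b (T.b (T.l 1) (T.a (T.a (T.l 204) (T.l 0)) (T.l 0))) (T.b (T.a (T.a (T.l 204) (T.l 0)) (T.l 0)) (T.b (T.a (T.a (T.l 204) (T.l 204)) (T.l 0)) (T.a (T.a (T.a (T.l 204) (T.l 204)) (T.l 204)) (T.l 204))))), by decide +kernel⟩

def B012E_120 :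
    ∃ t, chk3 (onCell 0 33554432 0 1073741824 33554432 16777216 (corTK [] true 1 c0F cB012E gF1q0 gF2q2 gF0q1 gF1q1 true false)) t 1 1 1 = true :=
  ⟨(T.b (T.b (T.l 1) (T.b (T.l 1) (T.b (T.l 1) (T.a (T.a (T.l 204) (T.l 1)) (T.l 1))))) (T.b (T.a (T.a (T.a (T.l 204) (T.l 204)) (T.l 0)) (T.l 0)) (T.b (T.a (T.a (T.a (T.l 204) (T.l 204)) (T.l 204)) (T.l 0)) (T.a (T.a (T.a (T.l 204) (T.l 204)) (T.l 204)) (T.l 204))))), by decide +kernel⟩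

def B012E_200 :
    ∃ t, chk3 (onCell 0 33554432 0 1073741824 33554432 16777216 (corTK [] true 1 c0F cB012E gF2q0 gF0q2 gF0q1 gF1q1 true false)) t 1 1 1 = true :=
  ⟨(T.b (T.b (T.b (T.a (T.a (T.a (T.l 204) (T.l 204)) (T.l 204)) (T.l 204)) (T.a (T.a (T.l 204) (T.l 204)) (T.b (T.l 204) (T.l 204)))) (T.a (T.a (T.l 204) (T.b (T.l 204) (T.l 0))) (T.b (T.l 0) (T.l 0)))) (T.b (T.a (T.a (T.l 204) (T.l 0)) (T.b (T.l 0) (T.l 0))) (T.b (T.a (T.a (T.a (T.l 204) (T.l 204)) (T.l 204)) (T.l 0)) (T.a (T.a (T.a (T.l 204) (T.l 204)) (T.l 204)) (T.l 204))))), by decide +kernel⟩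

def B012E_210 :
    ∃ t, chk3 (onCell 0 33554432 0 1073741824 33554432 16777216 (corTK [] true 1 c0F cB012E gF2q0 gF1q2 gF0q1 gF1q1 true false)) t 1 1 1 = true :=
  ⟨(T.b (T.b (T.b (T.a (T.a (T.a (T.l 204) (T.l 204)) (T.l 204)) (T.l 204)) (T.a (T.a (T.l 204) (T.l 204)) (T.l 0))) (T.a (T.a (T.l 204) (T.l 0)) (T.l 0))) (T.b (T.a (T.a (T.l 204) (T.l 0)) (T.l 0)) (T.b (T.a (T.a (T.l 204) (T.l 204)) (T.l 0)) (T.a (T.a (T.a (T.l 204) (T.l 204)) (T.l 204)) (T.l 204))))), by decide +kernel⟩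

def B012E_220 :
    ∃ t, chk3 (onCell 0 33554432 0 1073741824 33554432 16777216 (corTK [] true 1 c0F cB012E gF2q0 gF2q2 gF0q1 gF1q1 true false)) t 1 1 1 = true :=
  ⟨(T.b (T.b (T.b (T.a (T.a (T.a (T.l 204) (T.l 204)) (T.l 204)) (T.l 204)) (T.a (T.a (T.l 204) (T.l 204)) (T.l 204))) (T.a (T.a (T.l 204) (T.l 0)) (T.l 0))) (T.b (T.a (T.a (T.a (T.l 204) (T.l 204)) (T.l 0)) (T.l 0)) (T.b (T.a (T.a (T.a (T.l 204) (T.l 204)) (T.l 204)) (T.l 0)) (T.a (T.a (T.a (T.l 204) (T.l 204)) (T.l 204)) (T.l 204))))), by decide +kernel⟩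

def B012L_040 :
    ∃ t, chk3 (onCell 0 33554432 0 1073741824 33554432 16777216 (corTK [] true 1 c0F cB012L gF0q0 gF4q2 gF0q1 gF1q1 true false)) t 1 1 1 = true :=
  ⟨(T.l 1), by decide +kernel⟩

def B012L_140 :
    ∃ t, chk3 (onCell 0 33554432 0 1073741824 33554432 16777216 (corTK [] true 1 c0F cB012L gF1q0 gF4q2 gF0q1 gF1q1 true false)) t 1 1 1 = true :=
  ⟨(T.l 1), by decide +kernel⟩

def B012L_240 :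
    ∃ t, chk3 (onCell 0 33554432 0 1073741824 33554432 16777216 (corTK [] true 1 c0F cB012L gF2q0 gF4q2 gF0q1 gF1q1 true false)) t 1 1 1 = true :=
  ⟨(T.l 1), by decide +kernel⟩

def B012R_001_1_8_1 :
    ∃ t, chk3 (onCell 0 33554432 0 1073741824 33554432 16777216 (corTK [[⟨0, 0, 1, 16777216⟩, ⟨1, 1, 2, 16777216⟩, ⟨2, 1, 0, 6291456⟩, ⟨0, 0, 0, 67108864⟩, ⟨0, 1, 0, 1056964608⟩, ⟨1, 0, 0, 1056964608⟩, ⟨1, 1, 0, 67108864⟩]] true 1 c0F cB012R gF0q0 gF0q2 gF1q1 gF2q1 false true)) t 1 8 1 = true :=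
  ⟨(T.a (T.a (T.a (T.b (T.b (T.l 204) (T.l 204)) (T.l 204)) (T.a (T.a (T.b (T.b (T.a (T.l 204) (T.l 204)) (T.c (T.l 204) (T.l 204))) (T.b (T.l 204) (T.l 204))) (T.b (T.b (T.c (T.l 204) (T.l 204)) (T.l 204)) (T.b (T.l 204) (T.l 204)))) (T.b (T.a (T.b (T.l 204) (T.l 204)) (T.b (T.b (T.l 204) (T.l 204)) (T.l 204))) (T.a (T.l 204) (T.l 204))))) (T.a (T.a (T.b (T.a (T.b (T.c (T.l 204) (T.l 204)) (T.l 204)) (T.b (T.b (T.c (T.l 204) (T.l 204)) (T.l 204)) (T.l 204))) (T.a (T.b (T.l 204) (T.l 204)) (T.b (T.l 204) (T.l 204)))) (T.b (T.b (T.a (T.b (T.a (T.l 204) (T.l 220)) (T.l 204)) (T.b (T.c (T.c (T.l 220) (T.l 204)) (T.l 204)) (T.l 476))) (T.a (T.l 460) (T.b (T.l 204) (T.l 204)))) (T.b (T.a (T.l 204) (T.l 204)) (T.b (T.l 460) (T.l 460))))) (T.a (T.b (T.b (T.a (T.b (T.c (T.b (T.a (T.l 204) (T.l 204)) (T.l 204))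 (T.b (T.l 204) (T.l 204))) (T.b (T.l 460) (T.l 204))) (T.b (T.c (T.b (T.a (T.l 220) (T.c (T.l 220) (T.l 204))) (T.b (T.l 476) (T.l 460))) (T.a (T.l 204) (T.l 460))) (T.a (T.l 204) (T.l 460)))) (T.a (T.b (T.l 460) (T.l 204)) (T.c (T.l 460) (T.l 460)))) (T.b (T.a (T.l 460) (T.l 460)) (T.c (T.l 460) (T.l 460)))) (T.b (T.b (T.a (T.b (T.c (T.b (T.c (T.b (T.a (T.l 220) (T.l 476)) (T.l 476)) (T.a (T.l 204) (T.l 476))) (T.c (T.l 460) (T.l 460))) (T.a (T.l 476) (T.b (T.l 476) (T.l 204)))) (T.c (T.b (T.l 460) (T.l 460)) (T.l 460))) (T.b (T.c (T.b (T.a (T.c (T.c (T.l 476) (T.l 476)) (T.l 476)) (T.c (T.b (T.a (T.l 476) (T.l 476)) (T.l 460)) (T.b (T.l 476) (T.l 460)))) (T.a (T.l 460) (T.l 460))) (T.b (T.a (T.l 476) (T.c (T.l 476) (T.l 476))) (T.c (T.l 460) (T.l 460)))) (T.c (T.c (T.l 460) (T.l 460)) (T.b (T.l 460)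 (T.l 460))))) (T.a (T.c (T.l 460) (T.l 460)) (T.b (T.c (T.l 460) (T.l 460)) (T.l 460)))) (T.b (T.a (T.l 460) (T.l 460)) (T.c (T.l 460) (T.l 460))))))) (T.a (T.a (T.b (T.a (T.b (T.a (T.b (T.c (T.b (T.c (T.a (T.b (T.a (T.l 476) (T.l 476)) (T.l 460)) (T.b (T.c (T.l 476) (T.l 476)) (T.l 460))) (T.a (T.b (T.l 476) (T.l 460)) (T.b (T.l 476) (T.l 460)))) (T.a (T.b (T.l 460) (T.l 460)) (T.l 460))) (T.b (T.a (T.c (T.l 476) (T.l 476)) (T.b (T.l 476) (T.l 460))) (T.a (T.l 460) (T.l 460)))) (T.c (T.a (T.l 460) (T.l 460)) (T.b (T.l 460) (T.l 460)))) (T.b (T.c (T.b (T.c (T.b (T.a (T.c (T.l 476) (T.l 476)) (T.c (T.l 476) (T.l 476))) (T.a (T.l 460) (T.l 460))) (T.b (T.a (T.l 476) (T.l 476)) (T.c (T.l 476) (T.l 460)))) (T.a (T.l 460) (T.l 460))) (T.b (T.c (T.a (T.l 476) (T.l 476)) (T.a (T.l 476) (T.l 476))) (T.c (T.l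 460) (T.l 460)))) (T.c (T.b (T.l 460) (T.l 460)) (T.b (T.l 460) (T.l 460))))) (T.a (T.b (T.c (T.l 460) (T.l 460)) (T.l 460)) (T.b (T.b (T.l 460) (T.l 460)) (T.l 460)))) (T.b (T.b (T.a (T.c (T.b (T.c (T.b (T.a (T.a (T.l 476) (T.l 476)) (T.c (T.l 1024) (T.l 476))) (T.a (T.l 460) (T.l 476))) (T.b (T.a (T.l 476) (T.l 476)) (T.c (T.l 476) (T.l 476)))) (T.a (T.l 460) (T.l 460))) (T.b (T.c (T.a (T.l 476) (T.l 476)) (T.a (T.l 476) (T.l 476))) (T.b (T.l 460) (T.l 460)))) (T.c (T.b (T.c (T.c (T.l 1024) (T.b (T.a (T.l 476) (T.l 476)) (T.l 476))) (T.b (T.a (T.l 476) (T.l 476)) (T.c (T.l 476) (T.l 476)))) (T.a (T.l 460) (T.l 460))) (T.b (T.c (T.a (T.l 476) (T.l 476)) (T.a (T.l 476) (T.l 476))) (T.b (T.l 460) (T.l 460))))) (T.a (T.c (T.b (T.l 460) (T.l 460)) (T.l 460)) (T.c (T.b (T.l 460) (T.l 460)) (T.l 460))))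 (T.b (T.a (T.b (T.l 460) (T.l 460)) (T.b (T.l 460) (T.l 460))) (T.c (T.l 460) (T.l 460))))) (T.a (T.b (T.a (T.l 460) (T.l 460)) (T.b (T.l 460) (T.l 460))) (T.b (T.a (T.l 460) (T.l 460)) (T.b (T.l 460) (T.l 460))))) (T.b (T.a (T.b (T.b (T.a (T.c (T.b (T.c (T.c (T.l 1024) (T.b (T.a (T.l 476) (T.l 1024)) (T.l 476))) (T.b (T.a (T.b (T.l 476) (T.l 476)) (T.b (T.l 476) (T.l 476))) (T.b (T.l 476) (T.l 460)))) (T.c (T.l 460) (T.l 460))) (T.b (T.c (T.a (T.l 476) (T.l 476)) (T.a (T.l 476) (T.l 476))) (T.b (T.l 460) (T.l 460)))) (T.c (T.c (T.l 1024) (T.b (T.b (T.a (T.b (T.l 476) (T.l 476)) (T.b (T.l 476) (T.l 476))) (T.b (T.l 476) (T.l 460))) (T.l 460))) (T.b (T.c (T.a (T.l 476) (T.l 476)) (T.a (T.l 476) (T.l 476))) (T.b (T.l 460) (T.l 460))))) (T.a (T.c (T.b (T.l 460) (T.l 460)) (T.l 460)) (T.c (T.b (T.l 460)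 (T.l 460)) (T.l 460)))) (T.b (T.a (T.l 460) (T.l 460)) (T.c (T.l 460) (T.l 460)))) (T.b (T.b (T.a (T.c (T.c (T.l 1024) (T.b (T.b (T.a (T.b (T.l 476) (T.l 476)) (T.c (T.l 1024) (T.l 476))) (T.b (T.l 476) (T.l 460))) (T.l 460))) (T.b (T.c (T.b (T.a (T.l 476) (T.l 476)) (T.l 476)) (T.a (T.l 476) (T.l 476))) (T.l 460))) (T.c (T.c (T.l 1024) (T.b (T.b (T.c (T.l 1024) (T.a (T.l 476) (T.l 476))) (T.l 476)) (T.l 460))) (T.b (T.c (T.b (T.a (T.l 476) (T.l 476)) (T.l 476)) (T.a (T.l 476) (T.l 476))) (T.l 460)))) (T.c (T.a (T.l 460) (T.l 460)) (T.a (T.l 460) (T.l 460)))) (T.b (T.a (T.l 460) (T.l 460)) (T.b (T.l 460) (T.l 460))))) (T.a (T.b (T.b (T.l 460) (T.l 460)) (T.l 460)) (T.b (T.b (T.l 460) (T.l 460)) (T.l 460))))) (T.a (T.b (T.b (T.a (T.b (T.c (T.a (T.c (T.l 1024) (T.b (T.b (T.c (T.l 1024) (T.a (T.l 476)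 (T.l 1024))) (T.l 476)) (T.l 460))) (T.l 1024)) (T.b (T.a (T.b (T.c (T.a (T.l 476) (T.l 476)) (T.c (T.l 476) (T.l 476))) (T.c (T.l 476) (T.l 476))) (T.b (T.c (T.a (T.l 476) (T.l 476)) (T.a (T.l 476) (T.l 476))) (T.c (T.l 476) (T.l 476)))) (T.a (T.l 476) (T.l 476)))) (T.c (T.a (T.l 460) (T.l 1024)) (T.a (T.l 460) (T.l 460)))) (T.c (T.l 1024) (T.b (T.b (T.a (T.b (T.c (T.b (T.a (T.l 476) (T.l 476)) (T.l 476)) (T.a (T.l 476) (T.l 476))) (T.c (T.l 476) (T.l 476))) (T.b (T.c (T.c (T.l 1024) (T.a (T.l 476) (T.l 476))) (T.a (T.l 476) (T.l 476))) (T.c (T.l 476) (T.l 476)))) (T.a (T.l 476) (T.l 476))) (T.c (T.l 460) (T.l 460))))) (T.a (T.b (T.c (T.l 460) (T.l 460)) (T.l 460)) (T.b (T.c (T.l 1024) (T.l 460)) (T.l 460)))) (T.b (T.a (T.b (T.l 460) (T.l 460)) (T.l 460)) (T.c (T.l 460) (T.l 460)))) (T.b (T.c (T.l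 1024) (T.b (T.a (T.b (T.b (T.a (T.b (T.c (T.c (T.l 1024) (T.a (T.l 476) (T.l 1024))) (T.a (T.l 476) (T.l 476))) (T.c (T.l 476) (T.l 476))) (T.c (T.l 1024) (T.b (T.a (T.l 476) (T.l 476)) (T.l 476)))) (T.a (T.l 476) (T.l 476))) (T.b (T.l 460) (T.l 460))) (T.c (T.l 1024) (T.b (T.b (T.a (T.b (T.a (T.l 476) (T.l 476)) (T.l 476)) (T.b (T.c (T.l 1024) (T.a (T.l 476) (T.l 476))) (T.l 476))) (T.b (T.l 476) (T.l 460))) (T.l 460)))) (T.a (T.l 460) (T.l 460)))) (T.c (T.l 1024) (T.a (T.l 460) (T.l 460))))))), by decide +kernel⟩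

def B012R_001_1_9_1 :
    ∃ t, chk3 (onCell 0 33554432 0 1073741824 33554432 16777216 (corTK [[⟨0, 0, 1, 16777216⟩, ⟨1, 1, 2, 16777216⟩, ⟨2, 1, 0, 6291456⟩, ⟨0, 0, 0, 67108864⟩, ⟨0, 1, 0, 1056964608⟩, ⟨1, 0, 0, 1056964608⟩, ⟨1, 1, 0, 67108864⟩]] true 1 c0F cB012R gF0q0 gF0q2 gF1q1 gF2q1 false true)) t 1 9 1 = true :=
  ⟨(T.b (T.a (T.a (T.a (T.l 204) (T.a (T.a (T.b (T.l 204) (T.l 204)) (T.l 460)) (T.a (T.l 204) (T.l 204)))) (T.a (T.a (T.a (T.l 204) (T.l 204)) (T.b (T.l 460) (T.l 460))) (T.a (T.a (T.l 460) (T.l 460)) (T.b (T.l 460) (T.l 460))))) (T.a (T.a (T.a (T.b (T.l 460) (T.l 460)) (T.b (T.l 460) (T.l 460))) (T.a (T.b (T.l 460) (T.l 204)) (T.l 460))) (T.a (T.a (T.l 460) (T.l 460)) (T.b (T.l 460) (T.l 460))))) (T.a (T.a (T.a (T.l 204) (T.a (T.a (T.l 204) (T.l 204)) (T.b (T.l 460) (T.l 460)))) (T.a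 (T.a (T.b (T.l 204) (T.l 204)) (T.b (T.l 204) (T.l 204))) (T.a (T.b (T.l 460) (T.l 204)) (T.l 460)))) (T.a (T.a (T.a (T.l 460) (T.l 460)) (T.b (T.l 460) (T.l 460))) (T.a (T.b (T.l 460) (T.l 460)) (T.b (T.l 460) (T.b (T.l 204) (T.l 460))))))), by decide +kernel⟩

def B012R_001_1_5_1 :
    ∃ t, chk3 (onCell 0 33554432 0 1073741824 33554432 16777216 (corTK [[⟨0, 0, 1, 16777216⟩, ⟨1, 1, 2, 16777216⟩, ⟨2, 1, 0, 6291456⟩, ⟨0, 0, 0, 67108864⟩, ⟨0, 1, 0, 1056964608⟩, ⟨1, 0, 0, 1056964608⟩, ⟨1, 1, 0, 67108864⟩]] true 1 c0F cB012R gF0q0 gF0q2 gF1q1 gF2q1 false true)) t 1 5 1 = true :=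
  ⟨(T.b (T.a (T.a (T.a (T.b (T.l 204) (T.l 204)) (T.a (T.a (T.l 204) (T.b (T.l 204) (T.l 204))) (T.b (T.b (T.l 204) (T.l 204)) (T.b (T.l 204) (T.l 204))))) (T.a (T.a (T.b (T.l 460) (T.l 204)) (T.b (T.l 460) (T.l 204))) (T.a (T.b (T.l 460) (T.l 204)) (T.b (T.l 460) (T.l 204))))) (T.a (T.a (T.b (T.b (T.l 460) (T.l 460)) (T.b (T.l 460) (T.l 460))) (T.b (T.b (T.l 460) (T.l 460)) (T.b (T.a (T.l 204) (T.l 460)) (T.b (T.l 460) (T.l 460))))) (T.b (T.a (T.b (T.b (T.l 204) (T.l 460)) (T.b (T.l 460) (T.l 460))) (T.b (T.b (T.l 460) (T.l 460)) (T.b (T.l 460) (T.l 460)))) (T.a (T.b (T.b (T.l 460) (T.l 460)) (T.b (T.l 460) (T.l 460))) (T.b (T.l 460) (T.l 460)))))) (T.a (T.a (T.a (T.b (T.l 204) (T.l 204)) (T.a (T.l 204) (T.b (T.b (T.l 204) (T.l 204)) (T.l 460)))) (T.a (T.b (T.b (T.l 460) (T.l 460)) (T.b (T.l 460)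 (T.l 460))) (T.b (T.a (T.l 204) (T.l 204)) (T.a (T.l 204) (T.b (T.l 204) (T.l 460)))))) (T.a (T.a (T.b (T.a (T.b (T.l 204) (T.l 460)) (T.b (T.l 460) (T.l 460))) (T.a (T.b (T.l 460) (T.l 204)) (T.b (T.l 204) (T.l 204)))) (T.b (T.b (T.b (T.l 460) (T.l 460)) (T.b (T.l 460) (T.l 460))) (T.a (T.b (T.l 204) (T.l 204)) (T.l 460)))) (T.b (T.a (T.b (T.b (T.l 204) (T.l 204)) (T.l 460)) (T.b (T.l 460) (T.l 460))) (T.a (T.b (T.l 460) (T.l 460)) (T.b (T.l 460) (T.l 460))))))), by decide +kernel⟩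

def B012R_001_1_3_1 :
    ∃ t, chk3 (onCell 0 33554432 0 1073741824 33554432 16777216 (corTK [[⟨0, 0, 1, 16777216⟩, ⟨1, 1, 2, 16777216⟩, ⟨2, 1, 0, 6291456⟩, ⟨0, 0, 0, 67108864⟩, ⟨0, 1, 0, 1056964608⟩, ⟨1, 0, 0, 1056964608⟩, ⟨1, 1, 0, 67108864⟩]] true 1 c0F cB012R gF0q0 gF0q2 gF1q1 gF2q1 false true)) t 1 3 1 = true :=
  ⟨(T.b (T.a (T.a (T.b (T.a (T.b (T.l 204) (T.l 204)) (T.l 204)) (T.a (T.b (T.l 204) (T.l 204)) (T.l 204))) (T.a (T.b (T.a (T.b (T.l 204) (T.l 204)) (T.b (T.l 204) (T.l 204))) (T.a (T.l 460) (T.b (T.a (T.l 204) (T.l 460)) (T.b (T.l 460) (T.l 460))))) (T.b (T.b (T.a (T.b (T.l 204) (T.l 460)) (T.b (T.l 460) (T.l 460))) (T.a (T.b (T.l 460) (T.l 460)) (T.b (T.l 204) (T.l 204)))) (T.a (T.b (T.b (T.l 460) (T.l 460)) (T.b (T.l 460) (T.l 204))) (T.b (T.b (T.l 204) (T.l 204)) (T.b (T.l 204) (T.l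 204))))))) (T.a (T.b (T.a (T.b (T.a (T.b (T.l 204) (T.l 204)) (T.b (T.l 204) (T.l 204))) (T.a (T.b (T.l 204) (T.l 204)) (T.l 460))) (T.b (T.b (T.l 460) (T.l 460)) (T.b (T.l 460) (T.l 460)))) (T.a (T.b (T.a (T.l 460) (T.l 460)) (T.a (T.l 460) (T.l 460))) (T.b (T.b (T.l 460) (T.l 460)) (T.b (T.l 460) (T.l 204))))) (T.b (T.b (T.a (T.b (T.l 460) (T.l 460)) (T.b (T.l 204) (T.l 204))) (T.a (T.b (T.l 204) (T.l 204)) (T.l 460))) (T.a (T.b (T.b (T.l 204) (T.l 204)) (T.b (T.l 204) (T.l 204))) (T.b (T.l 460) (T.l 460)))))) (T.b (T.a (T.a (T.a (T.b (T.l 204) (T.b (T.l 204) (T.l 204))) (T.a (T.l 204) (T.b (T.l 204) (T.l 204)))) (T.a (T.a (T.b (T.a (T.l 204) (T.l 460)) (T.a (T.l 460) (T.l 460))) (T.b (T.b (T.l 460) (T.l 460)) (T.b (T.l 460) (T.l 204)))) (T.a (T.b (T.b (T.l 204) (T.l 204)) (T.l 460)) (T.b (T.l 460)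 (T.l 460))))) (T.a (T.a (T.b (T.b (T.l 460) (T.l 460)) (T.b (T.l 460) (T.l 460))) (T.b (T.b (T.l 204) (T.l 204)) (T.b (T.l 204) (T.l 204)))) (T.a (T.b (T.l 460) (T.l 460)) (T.b (T.l 460) (T.l 460))))) (T.a (T.a (T.a (T.a (T.b (T.l 204) (T.l 204)) (T.l 204)) (T.a (T.l 204) (T.a (T.l 204) (T.b (T.l 204) (T.l 460))))) (T.a (T.a (T.b (T.a (T.l 460) (T.l 460)) (T.b (T.l 460) (T.l 460))) (T.b (T.b (T.l 204) (T.l 204)) (T.b (T.l 204) (T.l 204)))) (T.a (T.b (T.l 460) (T.l 460)) (T.b (T.l 460) (T.l 460))))) (T.a (T.a (T.a (T.b (T.l 204) (T.l 204)) (T.b (T.l 204) (T.l 204))) (T.b (T.l 460) (T.l 460))) (T.a (T.b (T.l 460) (T.l 460)) (T.b (T.l 460) (T.l 460))))))), by decide +kernel⟩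

theorem B012R_001_1_4_1 :
    ∃ t, chk3 (onCell 0 33554432 0 1073741824 33554432 16777216 (corTK [[⟨0, 0, 1, 16777216⟩, ⟨1, 1, 2, 16777216⟩, ⟨2, 1, 0, 6291456⟩, ⟨0, 0, 0, 67108864⟩, ⟨0, 1, 0, 1056964608⟩, ⟨1, 0, 0, 1056964608⟩, ⟨1, 1, 0, 67108864⟩]] true 1 c0F cB012R gF0q0 gF0q2 gF1q1 gF2q1 false true)) t 1 4 1 = true :=
  ex3_b B012R_001_1_8_1 B012R_001_1_9_1
theorem B012R_001_1_2_1 :
    ∃ t, chk3 (onCell 0 33554432 0 1073741824 33554432 16777216 (corTK [[⟨0, 0, 1, 16777216⟩, ⟨1, 1, 2, 16777216⟩, ⟨2, 1, 0, 6291456⟩, ⟨0, 0, 0, 67108864⟩, ⟨0, 1, 0, 1056964608⟩, ⟨1, 0, 0, 1056964608⟩, ⟨1, 1, 0, 67108864⟩]] true 1 c0F cB012R gF0q0 gF0q2 gF1q1 gF2q1 false true)) t 1 2 1 = true :=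
  ex3_b B012R_001_1_4_1 B012R_001_1_5_1
theorem B012R_001 :
    ∃ t, chk3 (onCell 0 33554432 0 1073741824 33554432 16777216 (corTK [[⟨0, 0, 1, 16777216⟩, ⟨1, 1, 2, 16777216⟩, ⟨2, 1, 0, 6291456⟩, ⟨0, 0, 0, 67108864⟩, ⟨0, 1, 0, 1056964608⟩, ⟨1, 0, 0, 1056964608⟩, ⟨1, 1, 0, 67108864⟩]] true 1 c0F cB012R gF0q0 gF0q2 gF1q1 gF2q1 false true)) t 1 1 1 = true :=
  ex3_b B012R_001_1_2_1 B012R_001_1_3_1

def B012R_002 :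
    ∃ t, chk3 (onCell 0 33554432 0 1073741824 33554432 16777216 (corTK [[⟨0, 0, 1, 16777216⟩, ⟨1, 1, 2, 16777216⟩, ⟨2, 1, 0, 6291456⟩, ⟨0, 0, 0, 67108864⟩, ⟨0, 1, 0, 1056964608⟩, ⟨1, 0, 0, 1056964608⟩, ⟨1, 1, 0, 67108864⟩]] true 1 c0F cB012R gF0q0 gF0q2 gF2q1 gF3q1 true true)) t 1 1 1 = true :=
  ⟨(T.b (T.b (T.b (T.b (T.b (T.b (T.b (T.b (T.a (T.c (T.b (T.a (T.a (T.l 204) (T.c (T.b (T.c (T.a (T.a (T.l 204) (T.l 204)) (T.l 204)) (T.a (T.a (T.l 204) (T.l 204)) (T.l 204))) (T.l 1)) (T.a (T.a (T.l 204) (T.l 204)) (T.l 204)))) (T.c (T.b (T.a (T.c (T.b (T.a (T.a (T.l 204) (T.l 204)) (T.a (T.l 204) (T.l 204))) (T.l 1)) (T.b (T.a (T.a (T.l 204) (T.l 204)) (T.a (T.l 204) (T.l 204))) (T.l 1))) (T.c (T.b (T.a (T.a (T.l 204) (T.a (T.l 204) (T.l 204))) (T.c (T.b (T.a (T.a (T.l 204) (T.l 220)) (T.a (T.l 476) (T.l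 476))) (T.l 1)) (T.a (T.l 476) (T.a (T.l 476) (T.l 476))))) (T.l 1)) (T.b (T.a (T.a (T.l 204) (T.l 220)) (T.c (T.a (T.l 476) (T.a (T.l 476) (T.l 476))) (T.a (T.l 476) (T.a (T.l 460) (T.l 476))))) (T.l 1)))) (T.l 1)) (T.b (T.a (T.c (T.b (T.a (T.a (T.l 204) (T.l 204)) (T.a (T.l 204) (T.l 204))) (T.l 1)) (T.a (T.l 204) (T.a (T.l 204) (T.l 204)))) (T.c (T.b (T.a (T.a (T.l 204) (T.l 204)) (T.a (T.l 476) (T.a (T.l 460) (T.l 476)))) (T.l 1)) (T.b (T.a (T.a (T.l 204) (T.l 204)) (T.a (T.l 476) (T.a (T.l 204) (T.l 476)))) (T.l 1)))) (T.l 1)))) (T.l 1)) (T.b (T.a (T.a (T.l 204) (T.c (T.a (T.a (T.l 204) (T.l 204)) (T.l 204)) (T.a (T.a (T.l 204) (T.l 204)) (T.l 204)))) (T.c (T.b (T.a (T.c (T.a (T.l 204) (T.a (T.l 204) (T.l 204))) (T.b (T.a (T.l 204) (T.a (T.l 204) (T.l 204))) (T.l 1))) (T.c (T.b (T.a (T.a (T.l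 204) (T.l 204)) (T.a (T.l 460) (T.a (T.l 204) (T.l 460)))) (T.l 1)) (T.b (T.a (T.a (T.l 204) (T.l 204)) (T.a (T.l 460) (T.a (T.l 204) (T.l 204)))) (T.l 1)))) (T.l 1)) (T.b (T.a (T.c (T.b (T.a (T.a (T.l 204) (T.l 204)) (T.a (T.l 204) (T.l 204))) (T.l 1)) (T.b (T.a (T.a (T.l 204) (T.l 204)) (T.a (T.l 204) (T.l 204))) (T.l 1))) (T.c (T.b (T.a (T.a (T.l 204) (T.l 204)) (T.a (T.l 460) (T.a (T.l 204) (T.l 204)))) (T.l 1)) (T.b (T.a (T.a (T.l 204) (T.l 204)) (T.a (T.l 204) (T.l 476))) (T.l 1)))) (T.l 1)))) (T.l 1))) (T.c (T.b (T.a (T.c (T.b (T.a (T.c (T.b (T.a (T.c (T.b (T.a (T.a (T.l 476) (T.l 476)) (T.a (T.l 476) (T.l 1024))) (T.l 1)) (T.b (T.a (T.a (T.l 476) (T.l 476)) (T.a (T.l 476) (T.l 476))) (T.l 1))) (T.a (T.a (T.l 476) (T.l 1024)) (T.l 1024))) (T.l 1)) (T.b (T.a (T.c (T.b (T.a (T.a (T.l 476) (T.l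 476)) (T.a (T.l 476) (T.l 476))) (T.l 1)) (T.b (T.a (T.a (T.l 476) (T.l 476)) (T.a (T.l 476) (T.l 476))) (T.l 1))) (T.c (T.b (T.a (T.a (T.l 476) (T.l 476)) (T.a (T.l 476) (T.l 1024))) (T.l 1)) (T.b (T.a (T.a (T.l 476) (T.l 476)) (T.a (T.l 476) (T.l 476))) (T.l 1)))) (T.l 1))) (T.a (T.a (T.c (T.l 1024) (T.a (T.c (T.l 1024) (T.l 476)) (T.l 1024))) (T.l 1024)) (T.l 1024))) (T.l 1)) (T.b (T.a (T.c (T.b (T.a (T.c (T.b (T.a (T.a (T.l 476) (T.l 476)) (T.a (T.l 476) (T.l 476))) (T.l 1)) (T.b (T.a (T.a (T.l 476) (T.l 476)) (T.a (T.l 476) (T.l 476))) (T.l 1))) (T.c (T.b (T.a (T.a (T.l 476) (T.l 476)) (T.a (T.l 476) (T.l 476))) (T.l 1)) (T.b (T.a (T.a (T.l 476) (T.l 476)) (T.a (T.l 476) (T.l 476))) (T.l 1)))) (T.l 1)) (T.b (T.a (T.c (T.b (T.a (T.a (T.l 476) (T.l 476)) (T.a (T.l 476) (T.l 476))) (T.l 1)) (T.b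 (T.a (T.a (T.l 460) (T.l 476)) (T.a (T.l 476) (T.l 476))) (T.l 1))) (T.c (T.b (T.a (T.a (T.l 476) (T.l 476)) (T.a (T.l 476) (T.l 476))) (T.l 1)) (T.b (T.a (T.a (T.l 476) (T.l 476)) (T.a (T.l 476) (T.l 476))) (T.l 1)))) (T.l 1))) (T.c (T.b (T.a (T.c (T.b (T.a (T.a (T.l 476) (T.l 476)) (T.a (T.l 476) (T.l 1024))) (T.l 1)) (T.b (T.a (T.a (T.l 476) (T.l 476)) (T.a (T.l 476) (T.l 476))) (T.l 1))) (T.a (T.a (T.l 476) (T.l 1024)) (T.l 1024))) (T.l 1)) (T.b (T.a (T.c (T.b (T.a (T.a (T.l 476) (T.l 476)) (T.a (T.l 476) (T.l 476))) (T.l 1)) (T.b (T.a (T.a (T.l 476) (T.l 476)) (T.a (T.l 476) (T.l 476))) (T.l 1))) (T.c (T.b (T.a (T.a (T.l 476) (T.l 476)) (T.a (T.l 476) (T.l 1024))) (T.l 1)) (T.b (T.a (T.a (T.l 476) (T.l 476)) (T.a (T.l 476) (T.l 476))) (T.l 1)))) (T.l 1)))) (T.l 1))) (T.a (T.a (T.c (T.l 1024) (T.a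 (T.c (T.l 1024) (T.b (T.a (T.l 476) (T.l 1024)) (T.l 1))) (T.l 1024))) (T.l 1024)) (T.l 1024))) (T.l 1)) (T.b (T.a (T.c (T.b (T.a (T.c (T.b (T.a (T.c (T.b (T.a (T.a (T.l 204) (T.l 460)) (T.l 476)) (T.l 1)) (T.a (T.a (T.l 204) (T.l 204)) (T.l 476))) (T.c (T.a (T.a (T.l 476) (T.l 476)) (T.l 476)) (T.a (T.l 476) (T.l 476)))) (T.l 1)) (T.b (T.a (T.c (T.a (T.l 476) (T.l 476)) (T.a (T.l 476) (T.l 476))) (T.a (T.l 476) (T.l 476))) (T.l 1))) (T.c (T.b (T.a (T.c (T.b (T.a (T.l 476) (T.l 476)) (T.l 1)) (T.a (T.l 476) (T.l 476))) (T.c (T.b (T.a (T.l 476) (T.l 476)) (T.l 1)) (T.a (T.l 476) (T.l 476)))) (T.l 1)) (T.b (T.a (T.a (T.l 476) (T.l 476)) (T.c (T.a (T.l 476) (T.l 476)) (T.a (T.l 476) (T.l 476)))) (T.l 1)))) (T.l 1)) (T.b (T.a (T.c (T.b (T.a (T.a (T.l 476) (T.l 476)) (T.a (T.l 476) (T.l 476))) (T.l 1))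 (T.b (T.a (T.a (T.l 476) (T.l 476)) (T.a (T.l 476) (T.l 476))) (T.l 1))) (T.c (T.b (T.a (T.a (T.l 476) (T.l 476)) (T.a (T.l 476) (T.l 476))) (T.l 1)) (T.b (T.a (T.a (T.l 476) (T.l 476)) (T.a (T.l 476) (T.l 476))) (T.l 1)))) (T.l 1))) (T.c (T.b (T.a (T.c (T.b (T.a (T.c (T.b (T.a (T.a (T.l 476) (T.l 476)) (T.a (T.l 476) (T.l 1024))) (T.l 1)) (T.b (T.a (T.l 476) (T.l 476)) (T.l 1))) (T.a (T.a (T.l 476) (T.l 1024)) (T.l 1024))) (T.l 1)) (T.b (T.a (T.c (T.a (T.l 476) (T.l 476)) (T.a (T.l 476) (T.l 476))) (T.c (T.a (T.l 476) (T.a (T.l 476) (T.l 1024))) (T.a (T.l 476) (T.l 476)))) (T.l 1))) (T.a (T.a (T.c (T.l 1024) (T.a (T.l 476) (T.l 1024))) (T.l 1024)) (T.l 1024))) (T.l 1)) (T.b (T.a (T.c (T.b (T.a (T.a (T.l 476) (T.l 476)) (T.a (T.l 476) (T.l 476))) (T.l 1)) (T.b (T.a (T.a (T.l 476) (T.l 476)) (T.a (T.l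 476) (T.l 476))) (T.l 1))) (T.c (T.b (T.a (T.c (T.a (T.l 476) (T.l 476)) (T.a (T.l 476) (T.l 476))) (T.a (T.a (T.l 476) (T.l 1024)) (T.l 1024))) (T.l 1)) (T.b (T.a (T.a (T.l 476) (T.l 476)) (T.a (T.l 476) (T.a (T.l 476) (T.l 476)))) (T.l 1)))) (T.l 1)))) (T.l 1)))) (T.l 1)) (T.l 1)) (T.l 1)) (T.l 1)) (T.l 1)) (T.l 1)) (T.l 1)) (T.l 1)), by decide +kernel⟩

def B012R_003 :
    ∃ t, chk3 (onCell 0 33554432 0 1073741824 33554432 16777216 (corTK [[⟨0, 0, 1, 16777216⟩, ⟨1, 1, 2, 16777216⟩, ⟨2, 1, 0, 6291456⟩, ⟨0, 0, 0, 67108864⟩, ⟨0, 1, 0, 1056964608⟩, ⟨1, 0, 0, 1056964608⟩, ⟨1, 1, 0, 67108864⟩]] true 1 c0F cB012R gF0q0 gF0q2 gF3q1 gF4q1 true true)) t 1 1 1 = true :=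
  ⟨(T.l 1), by decide +kernel⟩

def B012R_011 :
    ∃ t, chk3 (onCell 0 33554432 0 1073741824 33554432 16777216 (corTK [[⟨0, 0, 1, 25165824⟩, ⟨1, 1, 2, 25165824⟩, ⟨2, 1, 0, 16777216⟩, ⟨0, 0, 0, 67108864⟩, ⟨0, 1, 0, 1056964608⟩, ⟨1, 0, 0, 1056964608⟩, ⟨1, 1, 0, 67108864⟩]] true 1 c0F cB012R gF0q0 gF1q2 gF1q1 gF2q1 false true)) t 1 1 1 = true :=
  ⟨(T.b (T.b (T.b (T.a (T.a (T.a (T.b (T.b (T.l 204) (T.l 204)) (T.l 204)) (T.a (T.a (T.b (T.b (T.a (T.l 220) (T.l 204)) (T.b (T.l 204) (T.l 204))) (T.b (T.l 204) (T.l 204))) (T.b (T.b (T.c (T.l 204) (T.l 204)) (T.l 204)) (T.l 204))) (T.b (T.a (T.b (T.l 204) (T.l 204)) (T.b (T.b (T.l 204) (T.l 204)) (T.l 204))) (T.a (T.l 204) (T.l 204))))) (T.a (T.a (T.b (T.b (T.a (T.c (T.l 204) (T.l 204)) (T.b (T.c (T.l 204) (T.l 204)) (T.l 204))) (T.a (T.l 204) (T.l 204)))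 (T.a (T.l 204) (T.l 204))) (T.b (T.b (T.a (T.b (T.c (T.b (T.l 204) (T.l 204)) (T.l 204)) (T.l 204)) (T.b (T.c (T.c (T.l 220) (T.l 204)) (T.l 204)) (T.l 204))) (T.a (T.l 204) (T.l 204))) (T.a (T.l 204) (T.l 460)))) (T.a (T.b (T.b (T.a (T.b (T.b (T.c (T.a (T.l 204) (T.l 204)) (T.l 204)) (T.l 476)) (T.l 460)) (T.b (T.c (T.b (T.a (T.l 220) (T.c (T.l 220) (T.l 204))) (T.l 460)) (T.a (T.l 204) (T.l 460))) (T.c (T.l 460) (T.l 204)))) (T.a (T.l 460) (T.b (T.l 460) (T.l 204)))) (T.b (T.c (T.l 460) (T.l 204)) (T.l 460))) (T.b (T.b (T.a (T.b (T.c (T.b (T.c (T.b (T.a (T.l 220) (T.l 476)) (T.l 460)) (T.a (T.l 204) (T.l 476))) (T.b (T.l 460) (T.l 460))) (T.b (T.a (T.l 460) (T.l 476)) (T.l 460))) (T.c (T.l 460) (T.l 204))) (T.b (T.c (T.b (T.a (T.c (T.c (T.l 476) (T.l 476)) (T.l 476)) (T.b (T.c (T.a (T.l 476) (T.l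 476)) (T.b (T.l 476) (T.l 460))) (T.l 460))) (T.c (T.l 460) (T.l 460))) (T.b (T.a (T.b (T.l 476) (T.l 204)) (T.c (T.l 476) (T.l 476))) (T.b (T.l 460) (T.l 204)))) (T.c (T.l 460) (T.l 460)))) (T.a (T.b (T.l 460) (T.l 204)) (T.b (T.l 460) (T.l 204)))) (T.b (T.c (T.l 460) (T.l 204)) (T.l 460)))))) (T.a (T.a (T.b (T.a (T.b (T.b (T.a (T.c (T.a (T.b (T.b (T.c (T.a (T.l 476) (T.l 1024)) (T.l 476)) (T.l 460)) (T.l 460)) (T.l 1024)) (T.b (T.a (T.c (T.l 476) (T.l 476)) (T.c (T.l 476) (T.l 476))) (T.b (T.l 460) (T.l 460)))) (T.c (T.l 1024) (T.b (T.c (T.a (T.l 476) (T.l 476)) (T.a (T.l 476) (T.l 476))) (T.l 460)))) (T.a (T.c (T.b (T.l 460) (T.l 204)) (T.l 460)) (T.c (T.l 1024) (T.l 460)))) (T.a (T.b (T.l 460) (T.l 204)) (T.b (T.l 460) (T.l 204)))) (T.c (T.l 1024) (T.b (T.b (T.a (T.b (T.c (T.a (T.l 476) (T.l 476))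 (T.a (T.l 476) (T.l 476))) (T.l 460)) (T.b (T.b (T.c (T.a (T.l 476) (T.l 476)) (T.c (T.l 476) (T.l 476))) (T.c (T.l 460) (T.l 460))) (T.l 460))) (T.a (T.l 460) (T.l 460))) (T.b (T.l 460) (T.l 204))))) (T.a (T.b (T.c (T.l 460) (T.l 460)) (T.l 460)) (T.b (T.b (T.l 460) (T.l 204)) (T.l 460)))) (T.c (T.l 1024) (T.b (T.b (T.a (T.b (T.a (T.b (T.b (T.c (T.a (T.l 476) (T.l 1024)) (T.c (T.l 476) (T.l 476))) (T.c (T.l 460) (T.l 460))) (T.l 460)) (T.b (T.c (T.l 1024) (T.a (T.l 476) (T.l 476))) (T.l 460))) (T.a (T.l 460) (T.l 460))) (T.c (T.l 1024) (T.b (T.b (T.a (T.a (T.l 476) (T.l 476)) (T.a (T.l 476) (T.l 476))) (T.a (T.l 460) (T.l 460))) (T.l 460)))) (T.a (T.b (T.l 460) (T.l 204)) (T.l 460))) (T.a (T.l 460) (T.l 460))))) (T.c (T.l 1024) (T.a (T.c (T.l 1024) (T.b (T.a (T.b (T.b (T.a (T.b (T.a (T.l 476) (T.l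 1024)) (T.l 460)) (T.l 1024)) (T.l 460)) (T.l 460)) (T.l 1024)) (T.b (T.l 460) (T.l 204)))) (T.l 1024))))) (T.a (T.a (T.a (T.l 204) (T.a (T.a (T.b (T.l 204) (T.l 204)) (T.b (T.l 204) (T.l 204))) (T.b (T.b (T.l 204) (T.l 204)) (T.l 204)))) (T.a (T.a (T.b (T.b (T.l 204) (T.l 204)) (T.l 204)) (T.b (T.b (T.l 204) (T.l 204)) (T.l 204))) (T.a (T.b (T.b (T.l 204) (T.l 204)) (T.l 204)) (T.b (T.b (T.l 204) (T.l 204)) (T.l 204))))) (T.a (T.a (T.b (T.a (T.l 460) (T.l 460)) (T.a (T.l 204) (T.l 204))) (T.b (T.a (T.l 460) (T.l 460)) (T.b (T.l 460) (T.l 204)))) (T.c (T.l 1024) (T.b (T.a (T.l 460) (T.l 460)) (T.a (T.l 204) (T.l 460))))))) (T.b (T.a (T.a (T.a (T.l 204) (T.a (T.a (T.l 204) (T.l 204)) (T.b (T.l 204) (T.l 204)))) (T.a (T.a (T.b (T.l 204) (T.l 204)) (T.b (T.l 204) (T.l 204))) (T.a (T.b (T.l 204) (T.l 204))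 (T.l 460)))) (T.a (T.a (T.b (T.l 460) (T.l 460)) (T.b (T.l 460) (T.b (T.l 204) (T.l 204)))) (T.b (T.c (T.l 1024) (T.a (T.l 460) (T.l 204))) (T.a (T.l 460) (T.l 460))))) (T.a (T.a (T.a (T.l 204) (T.a (T.l 204) (T.b (T.l 204) (T.l 204)))) (T.a (T.b (T.l 204) (T.l 204)) (T.b (T.l 460) (T.b (T.l 204) (T.l 204))))) (T.a (T.a (T.b (T.b (T.l 204) (T.l 204)) (T.l 460)) (T.b (T.l 460) (T.l 204))) (T.b (T.a (T.l 460) (T.l 460)) (T.a (T.l 204) (T.l 204))))))) (T.b (T.a (T.a (T.l 204) (T.a (T.b (T.b (T.l 204) (T.l 204)) (T.a (T.l 204) (T.b (T.l 204) (T.l 204)))) (T.b (T.b (T.b (T.l 204) (T.l 204)) (T.b (T.l 204) (T.l 0))) (T.b (T.b (T.l 0) (T.l 0)) (T.l 256))))) (T.a (T.b (T.a (T.b (T.l 256) (T.l 0)) (T.b (T.l 204) (T.l 0))) (T.a (T.b (T.l 0) (T.l 0)) (T.b (T.l 0) (T.l 0)))) (T.b (T.b (T.b (T.l 256) (T.l 256))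 (T.b (T.l 0) (T.l 0))) (T.b (T.b (T.l 0) (T.l 0)) (T.b (T.l 0) (T.l 0)))))) (T.b (T.a (T.a (T.l 204) (T.a (T.b (T.l 0) (T.l 0)) (T.l 256))) (T.a (T.a (T.b (T.l 0) (T.l 0)) (T.b (T.l 0) (T.l 0))) (T.b (T.b (T.l 0) (T.l 0)) (T.b (T.l 0) (T.l 0))))) (T.a (T.a (T.a (T.l 204) (T.a (T.l 204) (T.l 0))) (T.a (T.b (T.l 0) (T.l 0)) (T.l 0))) (T.a (T.a (T.l 0) (T.l 0)) (T.a (T.l 0) (T.l 816))))))), by decide +kernel⟩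

def B012R_012 :
    ∃ t, chk3 (onCell 0 33554432 0 1073741824 33554432 16777216 (corTK [[⟨0, 0, 1, 25165824⟩, ⟨1, 1, 2, 25165824⟩, ⟨2, 1, 0, 16777216⟩, ⟨0, 0, 0, 67108864⟩, ⟨0, 1, 0, 1056964608⟩, ⟨1, 0, 0, 1056964608⟩, ⟨1, 1, 0, 67108864⟩]] true 1 c0F cB012R gF0q0 gF1q2 gF2q1 gF3q1 true true)) t 1 1 1 = true :=
  ⟨(T.b (T.b (T.b (T.b (T.b (T.b (T.b (T.b (T.a (T.c (T.b (T.a (T.a (T.l 204) (T.c (T.b (T.c (T.a (T.a (T.l 204) (T.l 204)) (T.l 204)) (T.a (T.a (T.l 204) (T.l 204)) (T.l 204))) (T.l 1)) (T.a (T.a (T.l 204) (T.l 204)) (T.l 204)))) (T.c (T.b (T.a (T.c (T.b (T.a (T.a (T.l 204) (T.l 204)) (T.a (T.l 204) (T.l 204))) (T.l 1)) (T.b (T.a (T.a (T.l 204) (T.l 204)) (T.a (T.l 204) (T.l 204))) (T.l 1))) (T.c (T.b (T.a (T.a (T.l 204) (T.a (T.l 204) (T.l 204))) (T.c (T.b (T.a (T.a (T.l 204) (T.l 220)) (T.a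 (T.l 476) (T.l 476))) (T.l 1)) (T.a (T.l 476) (T.a (T.l 476) (T.l 476))))) (T.l 1)) (T.b (T.a (T.a (T.l 204) (T.l 220)) (T.c (T.a (T.l 476) (T.a (T.l 220) (T.l 476))) (T.a (T.l 476) (T.a (T.l 204) (T.l 476))))) (T.l 1)))) (T.l 1)) (T.b (T.a (T.c (T.b (T.a (T.a (T.l 204) (T.l 204)) (T.a (T.l 204) (T.l 204))) (T.l 1)) (T.a (T.l 204) (T.a (T.l 204) (T.l 204)))) (T.c (T.b (T.a (T.a (T.l 204) (T.l 204)) (T.a (T.l 476) (T.a (T.l 204) (T.l 476)))) (T.l 1)) (T.b (T.a (T.a (T.l 204) (T.l 204)) (T.a (T.l 476) (T.a (T.l 204) (T.l 476)))) (T.l 1)))) (T.l 1)))) (T.l 1)) (T.b (T.a (T.a (T.l 204) (T.c (T.a (T.a (T.l 204) (T.l 204)) (T.l 204)) (T.a (T.a (T.l 204) (T.l 204)) (T.l 204)))) (T.c (T.b (T.a (T.c (T.a (T.l 204) (T.a (T.l 204) (T.l 204))) (T.a (T.l 204) (T.a (T.l 204) (T.l 204)))) (T.c (T.b (T.a (T.a (T.l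 204) (T.l 204)) (T.a (T.l 460) (T.a (T.l 204) (T.l 204)))) (T.l 1)) (T.b (T.a (T.a (T.l 204) (T.l 204)) (T.a (T.l 460) (T.a (T.l 204) (T.l 204)))) (T.l 1)))) (T.l 1)) (T.b (T.a (T.c (T.a (T.l 460) (T.a (T.l 204) (T.l 204))) (T.b (T.a (T.a (T.l 204) (T.l 204)) (T.a (T.l 204) (T.l 204))) (T.l 1))) (T.c (T.b (T.a (T.a (T.l 204) (T.l 204)) (T.a (T.l 204) (T.l 476))) (T.l 1)) (T.b (T.a (T.a (T.l 204) (T.l 204)) (T.a (T.l 204) (T.l 476))) (T.l 1)))) (T.l 1)))) (T.l 1))) (T.c (T.a (T.a (T.a (T.b (T.a (T.c (T.b (T.a (T.c (T.l 476) (T.l 476)) (T.l 1024)) (T.l 1)) (T.a (T.l 476) (T.l 1024))) (T.l 1024)) (T.l 1)) (T.l 1024)) (T.l 1024)) (T.l 1024)) (T.b (T.a (T.c (T.b (T.a (T.c (T.b (T.a (T.c (T.a (T.l 476) (T.l 476)) (T.a (T.l 476) (T.l 476))) (T.a (T.a (T.l 476) (T.l 1024)) (T.l 1024))) (T.l 1)) (T.b (T.a (T.a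 (T.l 476) (T.l 476)) (T.a (T.l 476) (T.l 476))) (T.l 1))) (T.a (T.a (T.c (T.l 1024) (T.l 476)) (T.l 1024)) (T.l 1024))) (T.l 1)) (T.b (T.a (T.c (T.b (T.a (T.a (T.l 476) (T.l 476)) (T.a (T.l 476) (T.l 476))) (T.l 1)) (T.b (T.a (T.a (T.l 476) (T.l 476)) (T.a (T.l 476) (T.l 476))) (T.l 1))) (T.c (T.b (T.a (T.a (T.l 476) (T.l 476)) (T.a (T.l 476) (T.l 1024))) (T.l 1)) (T.b (T.a (T.a (T.l 476) (T.l 476)) (T.a (T.l 476) (T.l 476))) (T.l 1)))) (T.l 1))) (T.a (T.a (T.c (T.l 1024) (T.a (T.c (T.l 1024) (T.l 476)) (T.l 1024))) (T.l 1024)) (T.l 1024))) (T.l 1)))) (T.l 1)) (T.l 1)) (T.l 1)) (T.l 1)) (T.l 1)) (T.l 1)) (T.l 1)) (T.l 1)), by decide +kernel⟩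

def B012R_013 :
    ∃ t, chk3 (onCell 0 33554432 0 1073741824 33554432 16777216 (corTK [[⟨0, 0, 1, 25165824⟩, ⟨1, 1, 2, 25165824⟩, ⟨2, 1, 0, 16777216⟩, ⟨0, 0, 0, 67108864⟩, ⟨0, 1, 0, 1056964608⟩, ⟨1, 0, 0, 1056964608⟩, ⟨1, 1, 0, 67108864⟩]] true 1 c0F cB012R gF0q0 gF1q2 gF3q1 gF4q1 true true)) t 1 1 1 = true :=
  ⟨(T.l 1), by decide +kernel⟩

def B012R_021_1_2_1 :
    ∃ t, chk3 (onCell 0 33554432 0 1073741824 33554432 16777216 (corTK [[⟨0, 0, 1, 25165824⟩, ⟨1, 1, 2, 25165824⟩, ⟨2, 1, 0, 16777216⟩, ⟨0, 0, 0, 67108864⟩, ⟨0, 1, 0, 1056964608⟩, ⟨1, 0, 0, 1056964608⟩, ⟨1, 1, 0, 67108864⟩]] true 1 c0F cB012R gF0q0 gF2q2 gF1q1 gF2q1 false true)) t 1 2 1 = true :=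
  ⟨(T.b (T.b (T.b (T.b (T.a (T.b (T.a (T.a (T.l 204) (T.b (T.c (T.b (T.a (T.a (T.l 204) (T.l 204)) (T.a (T.l 204) (T.l 204))) (T.a (T.a (T.l 204) (T.l 204)) (T.c (T.l 204) (T.l 204)))) (T.b (T.a (T.a (T.l 204) (T.l 204)) (T.c (T.l 204) (T.l 204))) (T.a (T.a (T.l 204) (T.l 204)) (T.l 460)))) (T.c (T.b (T.a (T.a (T.l 204) (T.l 204)) (T.c (T.l 204) (T.l 204))) (T.a (T.a (T.l 204) (T.l 204)) (T.l 204))) (T.a (T.a (T.l 204) (T.l 204)) (T.l 204))))) (T.b (T.a (T.c (T.b (T.a (T.a (T.l 204) (T.l 204)) (T.a (T.l 204) (T.c (T.l 204) (T.l 204)))) (T.a (T.a (T.l 204) (T.l 204)) (T.a (T.l 204) (T.l 204)))) (T.b (T.a (T.a (T.l 204) (T.l 204)) (T.a (T.l 204) (T.l 204))) (T.a (T.a (T.l 204) (T.l 204)) (T.a (T.l 204) (T.l 204))))) (T.c (T.b (T.a (T.c (T.a (T.l 220) (T.a (T.l 204) (T.l 220))) (T.a (T.l 204) (T.l 476)))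 (T.c (T.b (T.a (T.a (T.l 220) (T.l 476)) (T.a (T.l 476) (T.c (T.l 476) (T.l 476)))) (T.a (T.l 476) (T.a (T.l 204) (T.l 460)))) (T.b (T.a (T.c (T.l 476) (T.l 476)) (T.a (T.l 476) (T.l 476))) (T.a (T.l 460) (T.c (T.l 476) (T.l 460)))))) (T.a (T.a (T.l 204) (T.l 476)) (T.a (T.c (T.l 460) (T.l 204)) (T.a (T.l 460) (T.l 460))))) (T.b (T.a (T.a (T.l 204) (T.c (T.l 460) (T.l 460))) (T.c (T.a (T.c (T.l 460) (T.l 460)) (T.a (T.l 204) (T.l 476))) (T.a (T.l 460) (T.a (T.l 204) (T.l 204))))) (T.a (T.a (T.l 204) (T.l 460)) (T.a (T.l 460) (T.c (T.l 460) (T.l 204))))))) (T.a (T.c (T.b (T.a (T.c (T.l 220) (T.l 204)) (T.c (T.l 220) (T.l 204))) (T.a (T.c (T.l 204) (T.l 204)) (T.c (T.l 204) (T.l 204)))) (T.b (T.a (T.c (T.l 204) (T.l 204)) (T.c (T.l 460) (T.l 460))) (T.a (T.l 460) (T.c (T.l 204) (T.l 204))))) (T.c (T.b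 (T.a (T.a (T.l 204) (T.l 204)) (T.a (T.l 460) (T.l 460))) (T.a (T.a (T.l 204) (T.l 204)) (T.a (T.l 204) (T.l 204)))) (T.b (T.a (T.a (T.l 204) (T.l 204)) (T.a (T.l 204) (T.l 204))) (T.a (T.a (T.l 204) (T.l 204)) (T.a (T.l 204) (T.l 204)))))))) (T.a (T.a (T.l 204) (T.b (T.c (T.a (T.a (T.l 204) (T.l 204)) (T.l 204)) (T.a (T.a (T.l 204) (T.l 204)) (T.l 204))) (T.a (T.a (T.l 204) (T.l 204)) (T.c (T.l 204) (T.l 204))))) (T.b (T.a (T.c (T.a (T.l 220) (T.l 460)) (T.a (T.l 460) (T.l 460))) (T.c (T.a (T.a (T.l 204) (T.l 204)) (T.a (T.l 204) (T.l 204))) (T.a (T.c (T.l 460) (T.l 460)) (T.a (T.l 204) (T.l 204))))) (T.a (T.a (T.c (T.l 204) (T.l 204)) (T.c (T.l 204) (T.l 204))) (T.c (T.a (T.c (T.l 204) (T.l 204)) (T.c (T.l 460) (T.l 460))) (T.a (T.l 460) (T.l 460))))))) (T.b (T.a (T.b (T.a (T.c (T.a (T.a (T.a (T.b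 (T.a (T.c (T.l 476) (T.l 476)) (T.l 1024)) (T.l 460)) (T.l 1024)) (T.l 1024)) (T.l 1024)) (T.b (T.a (T.c (T.b (T.a (T.a (T.l 476) (T.l 476)) (T.a (T.l 476) (T.l 476))) (T.a (T.l 476) (T.l 476))) (T.a (T.a (T.l 220) (T.l 204)) (T.c (T.l 476) (T.l 476)))) (T.c (T.a (T.a (T.l 476) (T.l 476)) (T.a (T.l 476) (T.l 476))) (T.a (T.c (T.l 476) (T.l 476)) (T.c (T.l 476) (T.l 476))))) (T.a (T.a (T.c (T.l 460) (T.l 204)) (T.l 460)) (T.a (T.l 460) (T.l 460))))) (T.c (T.l 1024) (T.b (T.a (T.c (T.a (T.a (T.l 476) (T.l 1024)) (T.l 1024)) (T.a (T.c (T.l 476) (T.l 476)) (T.c (T.l 476) (T.l 476)))) (T.c (T.l 1024) (T.a (T.c (T.l 476) (T.l 476)) (T.c (T.l 1024) (T.l 476))))) (T.a (T.a (T.l 460) (T.l 460)) (T.a (T.l 460) (T.l 476)))))) (T.a (T.c (T.a (T.a (T.c (T.l 460) (T.l 460)) (T.l 1024)) (T.l 1024)) (T.a (T.a (T.l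 460) (T.l 460)) (T.a (T.l 460) (T.l 460)))) (T.c (T.l 1024) (T.a (T.a (T.l 460) (T.l 460)) (T.c (T.l 1024) (T.l 460)))))) (T.a (T.c (T.l 1024) (T.a (T.a (T.b (T.c (T.l 1024) (T.a (T.l 476) (T.l 1024))) (T.l 460)) (T.l 1024)) (T.l 1024))) (T.l 1024))) (T.a (T.b (T.a (T.a (T.a (T.c (T.l 204) (T.l 204)) (T.l 460)) (T.a (T.l 460) (T.l 460))) (T.c (T.l 1024) (T.a (T.l 460) (T.l 460)))) (T.a (T.a (T.a (T.l 460) (T.l 204)) (T.c (T.l 1024) (T.l 204))) (T.c (T.l 1024) (T.a (T.l 204) (T.l 204))))) (T.a (T.a (T.c (T.l 1024) (T.l 460)) (T.l 1024)) (T.l 1024))))) (T.a (T.a (T.a (T.l 204) (T.b (T.a (T.a (T.l 204) (T.l 204)) (T.b (T.l 204) (T.l 204))) (T.a (T.a (T.l 204) (T.l 204)) (T.l 204)))) (T.b (T.a (T.a (T.c (T.l 204) (T.l 204)) (T.b (T.l 460) (T.l 204))) (T.a (T.c (T.l 460) (T.l 460)) (T.a (T.l 204) (T.l 204))))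 (T.a (T.a (T.l 460) (T.l 204)) (T.a (T.b (T.l 460) (T.l 204)) (T.b (T.l 460) (T.l 204)))))) (T.b (T.a (T.b (T.a (T.a (T.c (T.l 460) (T.l 204)) (T.c (T.l 1024) (T.l 204))) (T.a (T.l 460) (T.l 460))) (T.a (T.a (T.c (T.l 204) (T.l 204)) (T.l 460)) (T.a (T.l 460) (T.l 460)))) (T.a (T.a (T.l 460) (T.l 1024)) (T.l 1024))) (T.a (T.a (T.a (T.b (T.l 460) (T.l 204)) (T.l 460)) (T.a (T.l 460) (T.l 460))) (T.a (T.c (T.l 1024) (T.l 460)) (T.l 1024)))))) (T.a (T.a (T.a (T.l 204) (T.b (T.a (T.a (T.l 204) (T.l 204)) (T.l 204)) (T.a (T.c (T.l 204) (T.l 204)) (T.l 204)))) (T.b (T.b (T.a (T.a (T.l 204) (T.l 204)) (T.a (T.l 204) (T.l 204))) (T.a (T.a (T.l 204) (T.l 204)) (T.a (T.l 204) (T.l 204)))) (T.a (T.a (T.l 204) (T.l 204)) (T.a (T.l 204) (T.l 204))))) (T.b (T.a (T.a (T.a (T.b (T.l 204) (T.l 204)) (T.l 460)) (T.a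 (T.l 460) (T.l 460))) (T.a (T.c (T.l 1024) (T.l 460)) (T.l 1024))) (T.a (T.a (T.a (T.l 204) (T.l 204)) (T.b (T.l 460) (T.l 460))) (T.a (T.b (T.l 460) (T.l 204)) (T.l 1024)))))) (T.a (T.b (T.a (T.a (T.l 204) (T.a (T.a (T.l 204) (T.l 204)) (T.l 204))) (T.b (T.a (T.a (T.l 204) (T.l 204)) (T.a (T.l 204) (T.l 204))) (T.a (T.a (T.l 204) (T.l 204)) (T.c (T.l 460) (T.l 204))))) (T.a (T.a (T.l 204) (T.a (T.b (T.l 204) (T.l 204)) (T.l 204))) (T.a (T.a (T.l 204) (T.l 204)) (T.c (T.l 460) (T.l 204))))) (T.b (T.a (T.a (T.a (T.l 204) (T.l 204)) (T.b (T.l 460) (T.l 460))) (T.c (T.l 1024) (T.a (T.b (T.l 204) (T.l 204)) (T.l 460)))) (T.a (T.a (T.a (T.l 204) (T.l 204)) (T.b (T.l 204) (T.l 204))) (T.c (T.l 1024) (T.b (T.l 460) (T.l 256))))))) (T.a (T.b (T.a (T.a (T.l 0) (T.a (T.b (T.l 0) (T.l 0)) (T.b (T.l 0) (T.l 0))))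 (T.b (T.a (T.b (T.l 0) (T.l 0)) (T.b (T.l 256) (T.l 0))) (T.a (T.b (T.l 0) (T.l 0)) (T.b (T.l 0) (T.l 0))))) (T.a (T.a (T.l 0) (T.a (T.l 816) (T.l 0))) (T.b (T.a (T.b (T.l 0) (T.l 0)) (T.b (T.l 0) (T.l 816))) (T.a (T.b (T.l 0) (T.l 816)) (T.b (T.l 816) (T.l 880)))))) (T.b (T.b (T.a (T.a (T.b (T.l 204) (T.l 0)) (T.l 256)) (T.a (T.l 256) (T.l 256))) (T.a (T.a (T.l 0) (T.l 0)) (T.a (T.l 0) (T.l 0)))) (T.a (T.a (T.b (T.l 64) (T.l 880)) (T.b (T.l 0) (T.l 816))) (T.a (T.b (T.l 0) (T.l 816)) (T.b (T.l 0) (T.l 880))))))), by decide +kernel⟩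

def B012R_021_1_3_1 :
    ∃ t, chk3 (onCell 0 33554432 0 1073741824 33554432 16777216 (corTK [[⟨0, 0, 1, 25165824⟩, ⟨1, 1, 2, 25165824⟩, ⟨2, 1, 0, 16777216⟩, ⟨0, 0, 0, 67108864⟩, ⟨0, 1, 0, 1056964608⟩, ⟨1, 0, 0, 1056964608⟩, ⟨1, 1, 0, 67108864⟩]] true 1 c0F cB012R gF0q0 gF2q2 gF1q1 gF2q1 false true)) t 1 3 1 = true :=
  ⟨(T.b (T.a (T.a (T.a (T.l 816) (T.b (T.a (T.l 816) (T.l 816)) (T.a (T.b (T.l 816) (T.l 816)) (T.b (T.l 816) (T.l 816))))) (T.b (T.a (T.b (T.b (T.l 816) (T.l 816)) (T.b (T.l 816) (T.l 880))) (T.b (T.b (T.l 880) (T.l 880)) (T.a (T.l 816) (T.l 816)))) (T.a (T.a (T.l 816) (T.b (T.l 816) (T.l 816))) (T.b (T.a (T.l 816) (T.l 816)) (T.a (T.l 880) (T.l 880)))))) (T.b (T.a (T.a (T.b (T.l 880) (T.b (T.l 816) (T.l 880))) (T.b (T.l 880) (T.l 880))) (T.b (T.a (T.l 880) (T.l 880)) (T.a (T.l 880)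 (T.l 880)))) (T.a (T.a (T.b (T.b (T.l 880) (T.l 880)) (T.b (T.l 880) (T.l 880))) (T.b (T.b (T.l 880) (T.l 880)) (T.b (T.l 880) (T.l 880)))) (T.b (T.a (T.b (T.l 880) (T.l 880)) (T.l 880)) (T.a (T.b (T.l 880) (T.l 880)) (T.b (T.l 880) (T.l 880))))))) (T.a (T.a (T.a (T.b (T.l 816) (T.l 816)) (T.b (T.a (T.b (T.b (T.l 816) (T.l 816)) (T.a (T.l 816) (T.l 816))) (T.b (T.l 816) (T.l 880))) (T.a (T.a (T.b (T.b (T.l 816) (T.l 816)) (T.b (T.l 880) (T.c (T.l 816) (T.l 816)))) (T.b (T.l 816) (T.b (T.l 816) (T.b (T.l 816) (T.l 816))))) (T.b (T.a (T.l 816) (T.l 816)) (T.a (T.b (T.l 816) (T.b (T.l 816) (T.l 816))) (T.b (T.l 816) (T.a (T.l 816) (T.l 816)))))))) (T.b (T.a (T.a (T.b (T.l 816) (T.b (T.l 816) (T.l 816))) (T.b (T.l 816) (T.l 816))) (T.a (T.b (T.l 816) (T.l 880)) (T.b (T.l 816) (T.l 880)))) (T.a (T.a (T.b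 (T.a (T.l 880) (T.l 816)) (T.b (T.a (T.l 816) (T.l 816)) (T.a (T.b (T.l 816) (T.l 816)) (T.c (T.l 816) (T.l 816))))) (T.b (T.b (T.l 816) (T.l 880)) (T.b (T.c (T.l 880) (T.l 816)) (T.b (T.c (T.l 880) (T.l 816)) (T.a (T.b (T.l 816) (T.l 880)) (T.c (T.l 816) (T.l 816))))))) (T.a (T.b (T.c (T.l 880) (T.l 880)) (T.b (T.a (T.l 880) (T.l 880)) (T.a (T.b (T.l 880) (T.c (T.l 880) (T.l 816))) (T.b (T.b (T.l 880) (T.l 880)) (T.c (T.b (T.l 816) (T.l 880)) (T.l 816)))))) (T.b (T.c (T.l 880) (T.l 880)) (T.b (T.a (T.l 880) (T.l 880)) (T.a (T.b (T.b (T.l 816) (T.l 880)) (T.c (T.b (T.l 816) (T.l 880)) (T.l 816))) (T.b (T.b (T.l 880) (T.l 880)) (T.c (T.a (T.l 880) (T.l 880)) (T.l 880)))))))))) (T.a (T.b (T.b (T.a (T.a (T.l 880) (T.b (T.l 816) (T.l 880))) (T.a (T.b (T.l 816) (T.l 880)) (T.l 880))) (T.a (T.a (T.l 880)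 (T.b (T.l 816) (T.l 880))) (T.b (T.b (T.l 880) (T.l 880)) (T.b (T.l 880) (T.l 880))))) (T.a (T.b (T.a (T.b (T.l 880) (T.c (T.l 880) (T.l 880))) (T.b (T.l 880) (T.b (T.l 880) (T.l 880)))) (T.a (T.b (T.a (T.b (T.l 816) (T.l 880)) (T.b (T.l 816) (T.l 880))) (T.a (T.b (T.c (T.l 880) (T.l 816)) (T.c (T.a (T.l 880) (T.l 880)) (T.b (T.l 816) (T.l 880)))) (T.b (T.b (T.l 880) (T.l 880)) (T.c (T.c (T.l 880) (T.l 880)) (T.l 880))))) (T.b (T.a (T.l 880) (T.l 880)) (T.b (T.a (T.b (T.l 880) (T.l 880)) (T.l 880)) (T.a (T.c (T.b (T.l 880) (T.l 880)) (T.l 880)) (T.c (T.b (T.l 880) (T.l 880)) (T.l 880))))))) (T.b (T.a (T.b (T.l 880) (T.l 880)) (T.b (T.l 880) (T.l 880))) (T.a (T.b (T.a (T.l 880) (T.l 880)) (T.b (T.a (T.l 880) (T.l 880)) (T.a (T.c (T.b (T.l 880) (T.l 880)) (T.l 880)) (T.c (T.b (T.l 880) (T.l 880)) (T.l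 880))))) (T.b (T.c (T.l 880) (T.l 880)) (T.b (T.a (T.l 880) (T.l 880)) (T.c (T.a (T.b (T.l 880) (T.l 880)) (T.l 880)) (T.a (T.l 880) (T.l 880))))))))) (T.b (T.b (T.a (T.b (T.l 880) (T.l 880)) (T.b (T.l 880) (T.l 880))) (T.a (T.b (T.b (T.l 880) (T.l 880)) (T.b (T.l 880) (T.l 880))) (T.b (T.l 880) (T.b (T.l 880) (T.l 880))))) (T.a (T.b (T.b (T.b (T.l 880) (T.l 880)) (T.a (T.l 880) (T.l 880))) (T.b (T.a (T.b (T.l 880) (T.l 880)) (T.b (T.l 880) (T.l 880))) (T.a (T.b (T.c (T.l 880) (T.l 880)) (T.c (T.a (T.l 880) (T.l 880)) (T.a (T.l 880) (T.l 880)))) (T.b (T.c (T.l 880) (T.l 880)) (T.c (T.a (T.l 880) (T.l 880)) (T.b (T.l 880) (T.l 880))))))) (T.b (T.b (T.b (T.l 880) (T.l 880)) (T.a (T.l 880) (T.l 880))) (T.b (T.a (T.b (T.l 880) (T.l 880)) (T.b (T.l 880) (T.l 880))) (T.a (T.b (T.b (T.l 880) (T.l 880)) (T.c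 (T.a (T.l 880) (T.l 880)) (T.b (T.l 880) (T.l 880)))) (T.b (T.b (T.l 880) (T.l 880)) (T.c (T.a (T.l 880) (T.l 880)) (T.b (T.l 880) (T.l 880)))))))))))), by decide +kernel⟩

theorem B012R_021 :
    ∃ t, chk3 (onCell 0 33554432 0 1073741824 33554432 16777216 (corTK [[⟨0, 0, 1, 25165824⟩, ⟨1, 1, 2, 25165824⟩, ⟨2, 1, 0, 16777216⟩, ⟨0, 0, 0, 67108864⟩, ⟨0, 1, 0, 1056964608⟩, ⟨1, 0, 0, 1056964608⟩, ⟨1, 1, 0, 67108864⟩]] true 1 c0F cB012R gF0q0 gF2q2 gF1q1 gF2q1 false true)) t 1 1 1 = true :=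
  ex3_b B012R_021_1_2_1 B012R_021_1_3_1

def B012R_022 :
    ∃ t, chk3 (onCell 0 33554432 0 1073741824 33554432 16777216 (corTK [[⟨0, 0, 1, 25165824⟩, ⟨1, 1, 2, 25165824⟩, ⟨2, 1, 0, 16777216⟩, ⟨0, 0, 0, 67108864⟩, ⟨0, 1, 0, 1056964608⟩, ⟨1, 0, 0, 1056964608⟩, ⟨1, 1, 0, 67108864⟩]] true 1 c0F cB012R gF0q0 gF2q2 gF2q1 gF3q1 true true)) t 1 1 1 = true :=
  ⟨(T.b (T.b (T.b (T.b (T.b (T.a (T.b (T.a (T.a (T.l 204) (T.b (T.b (T.c (T.b (T.c (T.b (T.c (T.a (T.a (T.l 204) (T.l 204)) (T.l 204)) (T.a (T.a (T.l 204) (T.l 204)) (T.l 204))) (T.l 1)) (T.a (T.a (T.l 204) (T.l 204)) (T.l 204))) (T.l 1)) (T.b (T.c (T.a (T.a (T.l 204) (T.l 204)) (T.l 204)) (T.a (T.a (T.l 204) (T.l 204)) (T.l 204))) (T.l 1))) (T.l 1)) (T.l 1))) (T.b (T.b (T.c (T.b (T.c (T.b (T.a (T.c (T.b (T.a (T.a (T.l 204) (T.l 204)) (T.a (T.l 204) (T.l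 204))) (T.l 1)) (T.b (T.a (T.a (T.l 204) (T.l 204)) (T.a (T.l 204) (T.l 204))) (T.l 1))) (T.c (T.b (T.a (T.a (T.l 204) (T.a (T.l 204) (T.l 204))) (T.c (T.b (T.a (T.a (T.l 204) (T.l 220)) (T.a (T.l 476) (T.l 476))) (T.l 1)) (T.a (T.l 476) (T.a (T.l 476) (T.l 476))))) (T.l 1)) (T.b (T.a (T.a (T.l 204) (T.l 220)) (T.c (T.a (T.l 476) (T.a (T.l 220) (T.l 476))) (T.a (T.l 476) (T.a (T.l 204) (T.l 476))))) (T.l 1)))) (T.l 1)) (T.b (T.a (T.c (T.b (T.a (T.a (T.l 204) (T.l 204)) (T.a (T.l 204) (T.l 204))) (T.l 1)) (T.a (T.l 204) (T.a (T.l 204) (T.l 204)))) (T.c (T.b (T.a (T.a (T.l 204) (T.l 204)) (T.a (T.l 476) (T.a (T.l 204) (T.l 476)))) (T.l 1)) (T.b (T.a (T.a (T.l 204) (T.l 204)) (T.a (T.l 476) (T.a (T.l 204) (T.l 476)))) (T.l 1)))) (T.l 1))) (T.l 1)) (T.b (T.c (T.b (T.a (T.c (T.a (T.l 204) (T.a (T.l 204)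 (T.l 204))) (T.a (T.l 204) (T.a (T.l 204) (T.l 204)))) (T.c (T.b (T.a (T.a (T.l 204) (T.l 204)) (T.a (T.l 460) (T.a (T.l 204) (T.l 204)))) (T.l 1)) (T.b (T.a (T.a (T.l 204) (T.l 204)) (T.a (T.l 460) (T.a (T.l 204) (T.l 204)))) (T.l 1)))) (T.l 1)) (T.b (T.a (T.c (T.a (T.l 460) (T.a (T.l 204) (T.l 204))) (T.b (T.a (T.a (T.l 204) (T.l 204)) (T.a (T.l 204) (T.l 204))) (T.l 1))) (T.c (T.b (T.a (T.a (T.l 204) (T.l 204)) (T.a (T.l 204) (T.l 476))) (T.l 1)) (T.b (T.a (T.a (T.l 204) (T.l 204)) (T.a (T.l 204) (T.l 476))) (T.l 1)))) (T.l 1))) (T.l 1))) (T.l 1)) (T.l 1))) (T.a (T.a (T.l 204) (T.l 1)) (T.l 1))) (T.b (T.b (T.b (T.c (T.a (T.a (T.a (T.b (T.a (T.c (T.b (T.a (T.c (T.l 476) (T.l 476)) (T.l 1024)) (T.l 1)) (T.a (T.l 476) (T.l 1024))) (T.l 1024)) (T.l 1)) (T.l 1024)) (T.l 1024)) (T.l 1024)) (T.b (T.a (T.c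 (T.b (T.a (T.c (T.b (T.a (T.c (T.a (T.l 476) (T.l 476)) (T.a (T.l 476) (T.l 476))) (T.a (T.a (T.l 476) (T.l 1024)) (T.l 1024))) (T.l 1)) (T.b (T.a (T.a (T.l 476) (T.l 476)) (T.a (T.l 476) (T.l 476))) (T.l 1))) (T.a (T.a (T.c (T.l 1024) (T.l 476)) (T.l 1024)) (T.l 1024))) (T.l 1)) (T.b (T.a (T.c (T.b (T.a (T.a (T.l 476) (T.l 476)) (T.a (T.l 476) (T.l 476))) (T.l 1)) (T.b (T.a (T.a (T.l 476) (T.l 476)) (T.a (T.l 476) (T.l 476))) (T.l 1))) (T.c (T.b (T.a (T.a (T.l 476) (T.l 476)) (T.a (T.l 476) (T.l 1024))) (T.l 1)) (T.b (T.a (T.a (T.l 476) (T.l 476)) (T.a (T.l 476) (T.l 476))) (T.l 1)))) (T.l 1))) (T.a (T.a (T.c (T.l 1024) (T.a (T.c (T.l 1024) (T.l 476)) (T.l 1024))) (T.l 1024)) (T.l 1024))) (T.l 1))) (T.l 1)) (T.l 1)) (T.l 1))) (T.a (T.a (T.a (T.l 204) (T.l 1)) (T.l 1)) (T.l 1))) (T.a (T.a (T.a (T.l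 204) (T.l 1)) (T.l 1)) (T.l 1))) (T.a (T.a (T.a (T.l 204) (T.l 1)) (T.l 1)) (T.l 1))) (T.a (T.a (T.a (T.l 0) (T.l 1)) (T.l 1)) (T.l 1))) (T.a (T.a (T.a (T.b (T.l 816) (T.b (T.l 816) (T.l 816))) (T.l 1)) (T.l 1)) (T.l 1))), by decide +kernel⟩

def B012R_023 :
    ∃ t, chk3 (onCell 0 33554432 0 1073741824 33554432 16777216 (corTK [[⟨0, 0, 1, 25165824⟩, ⟨1, 1, 2, 25165824⟩, ⟨2, 1, 0, 16777216⟩, ⟨0, 0, 0, 67108864⟩, ⟨0, 1, 0, 1056964608⟩, ⟨1, 0, 0, 1056964608⟩, ⟨1, 1, 0, 67108864⟩]] true 1 c0F cB012R gF0q0 gF2q2 gF3q1 gF4q1 true true)) t 1 1 1 = true :=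
  ⟨(T.b (T.l 1) (T.b (T.l 1) (T.b (T.l 1) (T.b (T.l 1) (T.b (T.l 1) (T.a (T.b (T.l 1) (T.a (T.a (T.l 816) (T.l 1)) (T.l 1))) (T.l 1))))))), by decide +kernel⟩

end Pool.Agent.Strip051.G.I1_32_3_64.Tab.CF
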