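import Pool.Agent.Strip051.PB.Cuts
import Pool.Agent.Strip051.PB.WinS

/-! # Tables I1_32_3_64 (generated) -/

namespace Pool.Agent.Strip051.G.I1_32_3_64.Tab

open Pool.Agent.Strip051.PB

noncomputable def c1g : Fn1 := ⟨_, _, fun h1 => (enc_sqrtg (enc_sub (enc_pnc _ 1) (enc_scaleT 3 4 (enc_sq h1))))⟩
noncomputable def kcg_3 : Fn2 := ⟨_, _, fun h1 h2 => (enc_subr 5 128 h2)⟩
noncomputable def kcg_6 : Fn2 := ⟨_, _, fun h1 h2 => (enc_add h1 (enc_rat _ 27 100))⟩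
noncomputable def kcg_9 : Fn2 := ⟨_, _, fun h1 h2 => (enc_add h1 (enc_rat _ 299 662))⟩
noncomputable def kcg_12 : Fn2 := ⟨_, _, fun h1 h2 => (enc_add h1 (enc_rat _ 2773 5677))⟩
noncomputable def kcg_13 : Fn2 := ⟨_, _, fun h1 h2 => (enc_scaleT 39192355993 6550000000 h1)⟩
noncomputable def kcg_18 : Fn2 := ⟨_, _, fun h1 h2 => (enc_scaleT 6545581 655000000 h1)⟩
noncomputable def kcg_31 : Fn2 := ⟨_, _, fun h1 h2 => (enc_subr 51776241 1000000 (enc_neg (enc_scaleT 1914719 20000 (kcg_3.enc h1 h2))))⟩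
noncomputable def kcg_39 : Fn2 := ⟨_, _, fun h1 h2 => (enc_scaleT 13208228421829 3457575000000 h1)⟩
noncomputable def kcg_44 : Fn2 := ⟨_, _, fun h1 h2 => (enc_scaleT 38583293371 46101000000 h1)⟩
noncomputable def kcg_53 : Fn2 := ⟨_, _, fun h1 h2 => (enc_subr 10639083 250000 (enc_scaleT 140031 20000 (kcg_3.enc h1 h2)))⟩
noncomputable def kcg_61 : Fn2 := ⟨_, _, fun h1 h2 => (enc_add h1 (enc_rat _ 33 100))⟩
noncomputable def kcg_62 : Fn2 := ⟨_, _, fun h1 h2 => (enc_scaleT 19133683059 4027000000 h1)⟩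
noncomputable def kcg_67 : Fn2 := ⟨_, _, fun h1 h2 => (enc_scaleT 5191073 201350000 h1)⟩
noncomputable def kcg_76 : Fn2 := ⟨_, _, fun h1 h2 => (enc_add (enc_scaleT 497321 100000 (kcg_3.enc h1 h2)) (enc_rat _ 10263559 500000))⟩
noncomputable def kcg_81 : Fn2 := ⟨_, _, fun h1 h2 => (enc_scaleT 74371 15625 h1)⟩
noncomputable def kcg_86 : Fn2 := ⟨_, _, fun h1 h2 => (enc_scaleT 144727 600000 h1)⟩
noncomputable def kcg_99 : Fn2 := ⟨_, _, fun h1 h2 => (enc_subr 20741399 500000 (enc_neg (enc_scaleT 162341 25000 (kcg_3.enc h1 h2))))⟩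
noncomputable def kcg_108 : Fn2 := ⟨_, _, fun h1 h2 => (enc_add h1 (enc_rat _ 3 20))⟩
noncomputable def kcg_111 : Fn2 := ⟨_, _, fun h1 h2 => (enc_add h1 (enc_rat _ 21 100))⟩
noncomputable def kcg_112 : Fn2 := ⟨_, _, fun h1 h2 => (enc_scaleT 2402269 3000000 h1)⟩
noncomputable def kcg_116 : Fn2 := ⟨_, _, fun h1 h2 => (enc_scaleT 6077 600000 h1)⟩
noncomputable def kcg_126 : Fn2 := ⟨_, _, fun h1 h2 => (enc_subr 25596103 500000 (enc_scaleT 132113 50000 (kcg_3.enc h1 h2)))⟩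
noncomputable def kcg_131 : Fn2 := ⟨_, _, fun h1 h2 => (enc_scaleT 5740131 1000000 h1)⟩
noncomputable def kcg_134 : Fn2 := ⟨_, _, fun h1 h2 => (enc_scaleT 19651 150000 h1)⟩
noncomputable def kcg_147 : Fn2 := ⟨_, _, fun h1 h2 => (enc_subr 6226141 200000 (enc_neg (enc_scaleT 31381 50000 (kcg_3.enc h1 h2))))⟩
noncomputable def kcg_156 : Fn2 := ⟨_, _, fun h1 h2 => (enc_scaleT 33242567 8750000 h1)⟩
noncomputable def kcg_159 : Fn2 := ⟨_, _, fun h1 h2 => (enc_scaleT 4189 109375 h1)⟩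
noncomputable def kcg_171 : Fn2 := ⟨_, _, fun h1 h2 => (enc_sub (enc_rat _ 21764701 500000) (enc_scaleT 12583 20000 (kcg_3.enc h1 h2)))⟩
noncomputable def kcg_176 : Fn2 := ⟨_, _, fun h1 h2 => (enc_scaleT 60451 6250000 h1)⟩
noncomputable def kcg_180 : Fn2 := ⟨_, _, fun h1 h2 => (enc_mul (enc_norm (kcg_3.enc h1 h2)) (enc_scaleT 1047 62500 h1))⟩
noncomputable def kcg_186 : Fn2 := ⟨_, _, fun h1 h2 => (enc_sub (enc_rat _ 27 100) h1)⟩
noncomputable def kcg_187 : Fn2 := ⟨_, _, fun h1 h2 => (enc_sub (enc_rat _ 299 662) h1)⟩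
noncomputable def kcg_188 : Fn2 := ⟨_, _, fun h1 h2 => (enc_sub (enc_rat _ 2773 5677) h1)⟩
noncomputable def kcg_208 : Fn2 := ⟨_, _, fun h1 h2 => (enc_sub (enc_rat _ 33 100) h1)⟩
noncomputable def kcg_227 : Fn2 := ⟨_, _, fun h1 h2 => (enc_sub (enc_rat _ 3 20) h1)⟩
noncomputable def kcg_228 : Fn2 := ⟨_, _, fun h1 h2 => (enc_sub (enc_rat _ 21 100) h1)⟩
noncomputable def kcg : Fn2 := ⟨_, _, fun h1 h2 => (enc_norm (enc_case h1 (enc_case (kcg_6.enc h1 h2) (enc_case (kcg_9.enc h1 h2) (enc_case (kcg_12.enc h1 h2) (enc_add (enc_add (enc_subr 34620645157 13100000000 (enc_neg (kcg_13.enc h1 h2))) (enc_mul (enc_norm (kcg_3.enc h1 h2)) (enc_norm (enc_subr 9561987 1310000000 (enc_neg (kcg_18.enc h1 h2)))))) (enc_mul (enc_norm (kcg_31.enc h1 h2)) (enc_norm (enc_mul (enc_norm (enc_add h1 (enc_rat _ 1 2))) (enc_norm (enc_sub (enc_neg (enc_rat _ 2773 5677)) h1)))))) (enc_add (enc_add (enc_subr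 21935110770643 13830300000000 (enc_neg (kcg_39.enc h1 h2))) (enc_mul (enc_norm (kcg_3.enc h1 h2)) (enc_norm (enc_add (kcg_44.enc h1 h2) (enc_rat _ 187350133711 461010000000))))) (enc_mul (enc_norm (kcg_53.enc h1 h2)) (enc_norm (enc_mul (enc_norm (kcg_12.enc h1 h2)) (enc_norm (enc_sub (enc_neg (enc_rat _ 299 662)) h1))))))) (enc_case (kcg_61.enc h1 h2) (enc_add (enc_add (enc_subr 808071907299 402700000000 (enc_neg (kcg_62.enc h1 h2))) (enc_mul (enc_norm (kcg_3.enc h1 h2)) (enc_norm (enc_sub (enc_rat _ 168501333 10067500000) (kcg_67.enc h1 h2))))) (enc_mul (enc_norm (kcg_76.enc h1 h2)) (enc_norm (enc_mul (enc_norm (kcg_9.enc h1 h2)) (enc_norm (enc_sub (enc_neg (enc_rat _ 33 100)) h1)))))) (enc_add (enc_add (enc_subr 12558783 6250000 (enc_neg (kcg_81.enc h1 h2))) (enc_mul (enc_norm (kcg_3.enc h1 h2)) (enc_norm (enc_subr 1087097 20000000 (enc_neg (kcg_86.enc h1 h2)))))) (enc_mul (enc_norm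 (kcg_99.enc h1 h2)) (enc_norm (enc_mul (enc_norm (kcg_61.enc h1 h2)) (enc_norm (enc_sub (enc_neg (enc_rat _ 27 100)) h1)))))))) (enc_case (kcg_108.enc h1 h2) (enc_case (kcg_111.enc h1 h2) (enc_add (enc_add (enc_subr 50807019 100000000 (kcg_112.enc h1 h2)) (enc_mul (enc_norm (kcg_3.enc h1 h2)) (enc_norm (enc_sub (enc_rat _ 160753 20000000) (kcg_116.enc h1 h2))))) (enc_mul (enc_norm (kcg_126.enc h1 h2)) (enc_norm (enc_mul (enc_norm (kcg_6.enc h1 h2)) (enc_norm (enc_sub (enc_neg (enc_rat _ 21 100)) h1)))))) (enc_add (enc_add (enc_add (kcg_131.enc h1 h2) (enc_rat _ 52919849 100000000)) (enc_mul (enc_norm (kcg_3.enc h1 h2)) (enc_norm (enc_subr 43367 2500000 (enc_neg (kcg_134.enc h1 h2)))))) (enc_mul (enc_norm (kcg_147.enc h1 h2)) (enc_norm (enc_mul (enc_norm (kcg_111.enc h1 h2)) (enc_norm (enc_sub (enc_neg (enc_rat _ 3 20)) h1))))))) (enc_case (enc_add h1 (enc_rat _ 1 16)) (enc_add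 (enc_add (enc_add (kcg_156.enc h1 h2) (enc_rat _ 20829499 87500000)) (enc_mul (enc_norm (kcg_3.enc h1 h2)) (enc_norm (enc_subr 4817 1400000 (enc_neg (kcg_159.enc h1 h2)))))) (enc_mul (enc_norm (kcg_171.enc h1 h2)) (enc_norm (enc_mul (enc_norm (kcg_108.enc h1 h2)) (enc_norm (enc_sub (enc_neg (enc_rat _ 1 16)) h1)))))) (enc_sub (kcg_180.enc h1 h2) (kcg_176.enc h1 h2))))) (enc_neg (enc_case (kcg_186.enc h1 h2) (enc_case (kcg_187.enc h1 h2) (enc_case (kcg_188.enc h1 h2) (enc_add (enc_add (enc_subr 34620645157 13100000000 (kcg_13.enc h1 h2)) (enc_mul (enc_norm (kcg_3.enc h1 h2)) (enc_norm (enc_subr 9561987 1310000000 (kcg_18.enc h1 h2))))) (enc_mul (enc_norm (kcg_31.enc h1 h2)) (enc_norm (enc_mul (enc_norm (enc_sub (enc_rat _ 1 2) h1)) (enc_norm (enc_subr 2773 5677 h1)))))) (enc_add (enc_add (enc_subr 21935110770643 13830300000000 (kcg_39.enc h1 h2)) (enc_mul (enc_norm (kcg_3.enc h1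 h2)) (enc_norm (enc_sub (enc_rat _ 187350133711 461010000000) (kcg_44.enc h1 h2))))) (enc_mul (enc_norm (kcg_53.enc h1 h2)) (enc_norm (enc_mul (enc_norm (kcg_188.enc h1 h2)) (enc_norm (enc_subr 299 662 h1))))))) (enc_case (kcg_208.enc h1 h2) (enc_add (enc_add (enc_subr 808071907299 402700000000 (kcg_62.enc h1 h2)) (enc_mul (enc_norm (kcg_3.enc h1 h2)) (enc_norm (enc_add (kcg_67.enc h1 h2) (enc_rat _ 168501333 10067500000))))) (enc_mul (enc_norm (kcg_76.enc h1 h2)) (enc_norm (enc_mul (enc_norm (kcg_187.enc h1 h2)) (enc_norm (enc_subr 33 100 h1)))))) (enc_add (enc_add (enc_subr 12558783 6250000 (kcg_81.enc h1 h2)) (enc_mul (enc_norm (kcg_3.enc h1 h2)) (enc_norm (enc_subr 1087097 20000000 (kcg_86.enc h1 h2))))) (enc_mul (enc_norm (kcg_99.enc h1 h2)) (enc_norm (enc_mul (enc_norm (kcg_208.enc h1 h2)) (enc_norm (enc_subr 27 100 h1)))))))) (enc_case (kcg_227.enc h1 h2) (enc_case (kcg_228.enc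 h1 h2) (enc_add (enc_add (enc_subr 50807019 100000000 (enc_neg (kcg_112.enc h1 h2))) (enc_mul (enc_norm (kcg_3.enc h1 h2)) (enc_norm (enc_add (kcg_116.enc h1 h2) (enc_rat _ 160753 20000000))))) (enc_mul (enc_norm (kcg_126.enc h1 h2)) (enc_norm (enc_mul (enc_norm (kcg_186.enc h1 h2)) (enc_norm (enc_subr 21 100 h1)))))) (enc_add (enc_add (enc_sub (enc_rat _ 52919849 100000000) (kcg_131.enc h1 h2)) (enc_mul (enc_norm (kcg_3.enc h1 h2)) (enc_norm (enc_subr 43367 2500000 (kcg_134.enc h1 h2))))) (enc_mul (enc_norm (kcg_147.enc h1 h2)) (enc_norm (enc_mul (enc_norm (kcg_228.enc h1 h2)) (enc_norm (enc_subr 3 20 h1))))))) (enc_case (enc_sub (enc_rat _ 1 16) h1) (enc_add (enc_add (enc_sub (enc_rat _ 20829499 87500000) (kcg_156.enc h1 h2)) (enc_mul (enc_norm (kcg_3.enc h1 h2)) (enc_norm (enc_subr 4817 1400000 (kcg_159.enc h1 h2))))) (enc_mul (enc_norm (kcg_171.enc h1 h2)) (enc_norm (enc_mul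 (enc_norm (kcg_227.enc h1 h2)) (enc_norm (enc_subr 1 16 h1)))))) (enc_sub (kcg_176.enc h1 h2) (kcg_180.enc h1 h2))))))))⟩
noncomputable def kf0q0_9 : Fn2 := ⟨_, _, fun h1 h2 => (enc_scaleT 3 2 h1)⟩
noncomputable def kf0q0_12 : Fn2 := ⟨_, _, fun h1 h2 => (enc_add (enc_pnc _ 1) (c1g.enc h1))⟩
noncomputable def kf0q0 : Fn2 := ⟨_, _, fun h1 h2 => (enc_norm (enc_add (enc_mul (enc_norm (enc_mul (enc_norm (enc_sub (c1g.enc h1) (kf0q0_9.enc h1 h2))) (enc_norm (kf0q0_12.enc h1 h2)))) (enc_inv (enc_sub (kf0q0_12.enc h1 h2) (kf0q0_9.enc h1 h2)))) (enc_mul h1 (kcg.enc (enc_norm (enc_sub (enc_scaleT 3 4 h1) (enc_half (c1g.enc h1)))) h2))))⟩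
noncomputable def txg_4 : Fn3 := ⟨_, _, fun h1 h2 h3 => (enc_subr 5 128 h3)⟩
noncomputable def txg_6 : Fn3 := ⟨_, _, fun h1 h2 h3 => (enc_add h1 (enc_half h2))⟩
noncomputable def txg_27 : Fn3 := ⟨_, _, fun h1 h2 h3 => (enc_add h1 (enc_rat _ 49 100))⟩
noncomputable def txg_61 : Fn3 := ⟨_, _, fun h1 h2 h3 => (enc_sq (enc_norm (txg_4.enc h1 h2 h3)))⟩
noncomputable def txg_75 : Fn3 := ⟨_, _, fun h1 h2 h3 => (enc_add h1 (enc_rat _ 299 662))⟩
noncomputable def txg_77 : Fn3 := ⟨_, _, fun h1 h2 h3 => (enc_subr 1 16 h1)⟩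
noncomputable def txg_80 : Fn3 := ⟨_, _, fun h1 h2 h3 => (enc_add h1 (enc_rat _ 11 50))⟩
noncomputable def txg_83 : Fn3 := ⟨_, _, fun h1 h2 h3 => (enc_add h1 (enc_rat _ 33 100))⟩
noncomputable def txg_86 : Fn3 := ⟨_, _, fun h1 h2 h3 => (enc_add h1 (enc_rat _ 9 25))⟩
noncomputable def txg_136 : Fn3 := ⟨_, _, fun h1 h2 h3 => (enc_add h1 (enc_rat _ 3 10))⟩
noncomputable def txg_155 : Fn3 := ⟨_, _, fun h1 h2 h3 => (enc_add h1 (enc_rat _ 13 50))⟩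
noncomputable def txg_199 : Fn3 := ⟨_, _, fun h1 h2 h3 => (enc_add h1 (enc_rat _ 7 50))⟩
noncomputable def txg_202 : Fn3 := ⟨_, _, fun h1 h2 h3 => (enc_add h1 (enc_rat _ 9 50))⟩
noncomputable def txg_244 : Fn3 := ⟨_, _, fun h1 h2 h3 => (enc_add h1 (enc_rat _ 1 10))⟩
noncomputable def txg_266 : Fn3 := ⟨_, _, fun h1 h2 h3 => (enc_add h1 (enc_rat _ 1 16))⟩
noncomputable def txg_311 : Fn3 := ⟨_, _, fun h1 h2 h3 => (enc_subr 13 50 h1)⟩
noncomputable def txg_312 : Fn3 := ⟨_, _, fun h1 h2 h3 => (enc_subr 7 50 h1)⟩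
noncomputable def txg_313 : Fn3 := ⟨_, _, fun h1 h2 h3 => (enc_subr 1 10 h1)⟩
noncomputable def txg_354 : Fn3 := ⟨_, _, fun h1 h2 h3 => (enc_subr 9 50 h1)⟩
noncomputable def txg_376 : Fn3 := ⟨_, _, fun h1 h2 h3 => (enc_subr 11 50 h1)⟩
noncomputable def txg_421 : Fn3 := ⟨_, _, fun h1 h2 h3 => (enc_subr 19 50 h1)⟩
noncomputable def txg_422 : Fn3 := ⟨_, _, fun h1 h2 h3 => (enc_subr 3 10 h1)⟩
noncomputable def txg_442 : Fn3 := ⟨_, _, fun h1 h2 h3 => (enc_subr 17 50 h1)⟩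
noncomputable def txg_485 : Fn3 := ⟨_, _, fun h1 h2 h3 => (enc_subr 21 50 h1)⟩
noncomputable def txg_507 : Fn3 := ⟨_, _, fun h1 h2 h3 => (enc_subr 227 500 h1)⟩
noncomputable def txg : Fn3 := ⟨_, _, fun h1 h2 h3 => (enc_case (enc_add h1 (enc_rat _ 2773 5677)) (enc_case (txg_27.enc h1 h2 h3) (enc_add (enc_add (enc_add (enc_scaleT 16341 1000000 h1) (enc_rat _ 16341 2000000)) (enc_mul (enc_norm (txg_4.enc h1 h2 h3)) (enc_norm (enc_add (enc_scaleT 947 2500 h1) (enc_rat _ 947 5000))))) (enc_mul (enc_norm (enc_subr 1613 50000 (enc_scaleT 357387 50000 (txg_4.enc h1 h2 h3)))) (enc_norm (enc_mul (enc_norm (enc_add h1 (enc_rat _ 1 2))) (enc_norm (enc_sub (enc_neg (enc_rat _ 49 100)) h1)))))) (enc_add (enc_add (enc_add (enc_add (enc_scaleT 5222014035733 317185344000000 h1) (enc_rat _ 37294544779603 4531219200000000)) (enc_mul (enc_norm (txg_4.enc h1 h2 h3)) (enc_norm (enc_add (enc_scaleT 46617824670923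 158592672000000 h1) (enc_rat _ 334906901861261 2265609600000000))))) (enc_mul (txg_61.enc h1 h2 h3) (enc_norm (enc_subr 50945153 4365000000 (enc_neg (enc_scaleT 1039697 43650000 h1)))))) (enc_mul (enc_norm (enc_add (enc_scaleT 434611 50000 (txg_4.enc h1 h2 h3)) (enc_rat _ 130357 1000000))) (enc_norm (enc_mul (enc_norm (txg_27.enc h1 h2 h3)) (enc_norm (enc_sub (enc_neg (enc_rat _ 2773 5677)) h1))))))) (enc_case (txg_75.enc h1 h2 h3) (enc_sub (enc_mul (enc_norm (enc_sub (enc_pnc _ 1) h2)) (enc_norm (enc_subn 1 (enc_nat 2 h2)))) (enc_mul (enc_norm (enc_nat 2 (enc_sub (enc_scaleT 4 3 (txg_6.enc h1 h2 h3)) h3))) (enc_norm (enc_mul (enc_norm (enc_subn 1 (enc_add (enc_scaleT 2 3 (txg_6.enc h1 h2 h3)) h2))) (kcg.enc h1 h3))))) (enc_case (txg_77.enc h1 h2 h3) (enc_case (txg_80.enc h1 h2 h3) (enc_case (txg_83.enc h1 h2 h3) (enc_case (txg_86.enc h1 h2 h3) (enc_add (enc_add (enc_add (enc_add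 (enc_scaleT 2657713754549 32136128000000 h1) (enc_rat _ 6210932905801 160680640000000)) (enc_mul (enc_norm (txg_4.enc h1 h2 h3)) (enc_norm (enc_subr 347834913121 10042540000000 (enc_neg (enc_scaleT 38257222539 401701600000 h1)))))) (enc_mul (txg_61.enc h1 h2 h3) (enc_norm (enc_subr 319293 47406250 (enc_neg (enc_scaleT 35477 1896250 h1)))))) (enc_mul (enc_norm (enc_subr 180129 500000 (enc_scaleT 6449 5000 (txg_4.enc h1 h2 h3)))) (enc_norm (enc_mul (enc_norm (txg_75.enc h1 h2 h3)) (enc_norm (enc_sub (enc_neg (enc_rat _ 9 25)) h1)))))) (enc_add (enc_add (enc_add (enc_scaleT 305353 3000000 h1) (enc_rat _ 4552363 100000000)) (enc_mul (enc_norm (txg_4.enc h1 h2 h3)) (enc_norm (enc_subr 126709 10000000 (enc_neg (enc_scaleT 10267 300000 h1)))))) (enc_mul (enc_norm (enc_sub (enc_rat _ 464619 1000000) (enc_scaleT 298729 50000 (txg_4.enc h1 h2 h3)))) (enc_norm (enc_mul (enc_norm (txg_86.enc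 h1 h2 h3)) (enc_norm (enc_sub (enc_neg (enc_rat _ 33 100)) h1))))))) (enc_case (txg_136.enc h1 h2 h3) (enc_add (enc_add (enc_add (enc_scaleT 233879 3000000 h1) (enc_rat _ 3766149 100000000)) (enc_mul (enc_norm (txg_4.enc h1 h2 h3)) (enc_norm (enc_add (enc_scaleT 1507 100000 h1) (enc_rat _ 35959 10000000))))) (enc_mul (enc_norm (enc_add (enc_scaleT 86627 20000 (txg_4.enc h1 h2 h3)) (enc_rat _ 41191 125000))) (enc_norm (enc_mul (enc_norm (txg_83.enc h1 h2 h3)) (enc_norm (enc_sub (enc_neg (enc_rat _ 3 10)) h1)))))) (enc_case (txg_155.enc h1 h2 h3) (enc_add (enc_add (enc_add (enc_scaleT 271761 4000000 h1) (enc_rat _ 6931133 200000000)) (enc_mul (enc_norm (txg_4.enc h1 h2 h3)) (enc_norm (enc_subr 24337 1250000 (enc_neg (enc_scaleT 12363 200000 h1)))))) (enc_mul (enc_norm (enc_sub (enc_rat _ 1671 500000) (enc_scaleT 33159 25000 (txg_4.enc h1 h2 h3)))) (enc_norm (enc_mul (enc_norm (txg_136.enc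 h1 h2 h3)) (enc_norm (enc_sub (enc_neg (enc_rat _ 13 50)) h1)))))) (enc_add (enc_add (enc_add (enc_scaleT 95651 2000000 h1) (enc_rat _ 2942583 100000000)) (enc_mul (enc_norm (txg_4.enc h1 h2 h3)) (enc_norm (enc_subr 11667 1000000 (enc_neg (enc_scaleT 6361 200000 h1)))))) (enc_mul (enc_norm (enc_add (enc_scaleT 57611 100000 (txg_4.enc h1 h2 h3)) (enc_rat _ 499529 1000000))) (enc_norm (enc_mul (enc_norm (txg_155.enc h1 h2 h3)) (enc_norm (enc_sub (enc_neg (enc_rat _ 11 50)) h1))))))))) (enc_case (txg_199.enc h1 h2 h3) (enc_case (txg_202.enc h1 h2 h3) (enc_add (enc_add (enc_add (enc_scaleT 50203 2000000 h1) (enc_rat _ 488531 20000000)) (enc_mul (enc_norm (txg_4.enc h1 h2 h3)) (enc_norm (enc_subr 248377 20000000 (enc_neg (enc_scaleT 14089 400000 h1)))))) (enc_mul (enc_norm (enc_sub (enc_rat _ 68573 1000000) (enc_scaleT 9813 20000 (txg_4.enc h1 h2 h3)))) (enc_norm (enc_mul (enc_norm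 (txg_80.enc h1 h2 h3)) (enc_norm (enc_sub (enc_neg (enc_rat _ 9 50)) h1)))))) (enc_add (enc_add (enc_add (enc_scaleT 811 62500 h1) (enc_rat _ 556099 25000000)) (enc_mul (enc_norm (txg_4.enc h1 h2 h3)) (enc_norm (enc_subr 4499 400000 (enc_neg (enc_scaleT 5743 200000 h1)))))) (enc_mul (enc_norm (enc_add (enc_scaleT 8199 25000 (txg_4.enc h1 h2 h3)) (enc_rat _ 117281 500000))) (enc_norm (enc_mul (enc_norm (txg_202.enc h1 h2 h3)) (enc_norm (enc_sub (enc_neg (enc_rat _ 7 50)) h1))))))) (enc_case (txg_244.enc h1 h2 h3) (enc_add (enc_add (enc_add (enc_scaleT 3779 2000000 h1) (enc_rat _ 413837 20000000)) (enc_mul (enc_norm (txg_4.enc h1 h2 h3)) (enc_norm (enc_subr 246097 20000000 (enc_neg (enc_scaleT 14507 400000 h1)))))) (enc_mul (enc_norm (enc_sub (enc_rat _ 21299 500000) (enc_scaleT 1739 12500 (txg_4.enc h1 h2 h3)))) (enc_norm (enc_mul (enc_norm (txg_199.enc h1 h2 h3)) (enc_norm (enc_sub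 (enc_neg (enc_rat _ 1 10)) h1)))))) (enc_case (txg_266.enc h1 h2 h3) (enc_add (enc_add (enc_sub (enc_rat _ 3069799 150000000) (enc_scaleT 1409 3750000 h1)) (enc_mul (enc_norm (txg_4.enc h1 h2 h3)) (enc_norm (enc_subr 319471 30000000 (enc_neg (enc_scaleT 7391 375000 h1)))))) (enc_mul (enc_norm (enc_sub (enc_rat _ 599 40000) (enc_scaleT 29319 100000 (txg_4.enc h1 h2 h3)))) (enc_norm (enc_mul (enc_norm (txg_244.enc h1 h2 h3)) (enc_norm (enc_sub (enc_neg (enc_rat _ 1 16)) h1)))))) (enc_add (enc_add (enc_sub (enc_rat _ 4083541 200000000) (enc_scaleT 14221 12500000 h1)) (enc_mul (enc_norm (txg_4.enc h1 h2 h3)) (enc_norm (enc_subr 1619 160000 (enc_neg (enc_scaleT 14031 1250000 h1)))))) (enc_mul (enc_norm (enc_add (enc_scaleT 251 12500 (txg_4.enc h1 h2 h3)) (enc_rat _ 801 500000))) (enc_norm (enc_mul (enc_norm (txg_266.enc h1 h2 h3)) (enc_norm (enc_sub (enc_rat _ 1 16) h1)))))))))) (enc_case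 (txg_311.enc h1 h2 h3) (enc_case (txg_312.enc h1 h2 h3) (enc_case (txg_313.enc h1 h2 h3) (enc_add (enc_add (enc_sub (enc_rat _ 407937 20000000) (enc_scaleT 201 250000 h1)) (enc_mul (enc_norm (txg_4.enc h1 h2 h3)) (enc_norm (enc_subr 71981 7500000 (enc_neg (enc_scaleT 7337 375000 h1)))))) (enc_mul (enc_norm (enc_subr 14231 1000000 (enc_scaleT 3887 25000 (txg_4.enc h1 h2 h3)))) (enc_norm (enc_mul (enc_norm (txg_77.enc h1 h2 h3)) (enc_norm (enc_sub (enc_rat _ 1 10) h1)))))) (enc_add (enc_add (enc_sub (enc_rat _ 825993 40000000) (enc_scaleT 2667 800000 h1)) (enc_mul (enc_norm (txg_4.enc h1 h2 h3)) (enc_norm (enc_subr 29579 4000000 (enc_neg (enc_scaleT 16637 400000 h1)))))) (enc_mul (enc_norm (enc_add (enc_scaleT 4049 10000 (txg_4.enc h1 h2 h3)) (enc_rat _ 3829 50000))) (enc_norm (enc_mul (enc_norm (txg_313.enc h1 h2 h3)) (enc_norm (enc_sub (enc_rat _ 7 50) h1))))))) (enc_case (txg_354.enc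 h1 h2 h3) (enc_add (enc_add (enc_sub (enc_rat _ 4412303 200000000) (enc_scaleT 53669 4000000 h1)) (enc_mul (enc_norm (txg_4.enc h1 h2 h3)) (enc_norm (enc_subr 34031 4000000 (enc_neg (enc_scaleT 13457 400000 h1)))))) (enc_mul (enc_norm (enc_sub (enc_rat _ 35101 200000) (enc_scaleT 60369 100000 (txg_4.enc h1 h2 h3)))) (enc_norm (enc_mul (enc_norm (txg_312.enc h1 h2 h3)) (enc_norm (enc_sub (enc_rat _ 9 50) h1)))))) (enc_case (txg_376.enc h1 h2 h3) (enc_add (enc_add (enc_sub (enc_rat _ 255613 10000000) (enc_scaleT 65721 2000000 h1)) (enc_mul (enc_norm (txg_4.enc h1 h2 h3)) (enc_norm (enc_subr 46571 10000000 (enc_neg (enc_scaleT 11007 200000 h1)))))) (enc_mul (enc_norm (enc_add (enc_scaleT 56929 50000 (txg_4.enc h1 h2 h3)) (enc_rat _ 155289 500000))) (enc_norm (enc_mul (enc_norm (txg_354.enc h1 h2 h3)) (enc_norm (enc_sub (enc_rat _ 11 50) h1)))))) (enc_add (enc_add (enc_sub (enc_rat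 _ 2889419 100000000) (enc_scaleT 4801 100000 h1)) (enc_mul (enc_norm (txg_4.enc h1 h2 h3)) (enc_norm (enc_subr 133977 10000000 (enc_neg (enc_scaleT 3061 200000 h1)))))) (enc_mul (enc_norm (enc_sub (enc_rat _ 34081 500000) (enc_scaleT 21319 10000 (txg_4.enc h1 h2 h3)))) (enc_norm (enc_mul (enc_norm (txg_376.enc h1 h2 h3)) (enc_norm (enc_sub (enc_rat _ 13 50) h1))))))))) (enc_case (txg_421.enc h1 h2 h3) (enc_case (txg_422.enc h1 h2 h3) (enc_add (enc_add (enc_sub (enc_rat _ 6379321 200000000) (enc_scaleT 238231 4000000 h1)) (enc_mul (enc_norm (txg_4.enc h1 h2 h3)) (enc_norm (enc_sub (enc_rat _ 289629 20000000) (enc_scaleT 49013 400000 h1))))) (enc_mul (enc_norm (enc_add (enc_scaleT 481261 100000 (txg_4.enc h1 h2 h3)) (enc_rat _ 220531 1000000))) (enc_norm (enc_mul (enc_norm (txg_311.enc h1 h2 h3)) (enc_norm (enc_sub (enc_rat _ 3 10) h1)))))) (enc_case (txg_442.enc h1 h2 h3) (enc_add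 (enc_add (enc_sub (enc_rat _ 3937553 100000000) (enc_scaleT 6759 80000 h1)) (enc_mul (enc_norm (txg_4.enc h1 h2 h3)) (enc_norm (enc_subr 247089 5000000 (enc_scaleT 18093 200000 h1))))) (enc_mul (enc_norm (enc_sub (enc_rat _ 50339 125000) (enc_scaleT 1013751 100000 (txg_4.enc h1 h2 h3)))) (enc_norm (enc_mul (enc_norm (txg_422.enc h1 h2 h3)) (enc_norm (enc_sub (enc_rat _ 17 50) h1)))))) (enc_add (enc_add (enc_sub (enc_rat _ 542733 12500000) (enc_scaleT 96379 1000000 h1)) (enc_mul (enc_norm (txg_4.enc h1 h2 h3)) (enc_norm (enc_sub (enc_rat _ 811677 10000000) (enc_scaleT 29361 100000 h1))))) (enc_mul (enc_norm (enc_subr 105429 1000000 (enc_scaleT 123371 6250 (txg_4.enc h1 h2 h3)))) (enc_norm (enc_mul (enc_norm (txg_442.enc h1 h2 h3)) (enc_norm (enc_sub (enc_rat _ 19 50) h1)))))))) (enc_case (txg_485.enc h1 h2 h3) (enc_add (enc_add (enc_sub (enc_rat _ 2127593 50000000) (enc_scaleT 47049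 500000 h1)) (enc_mul (enc_norm (txg_4.enc h1 h2 h3)) (enc_norm (enc_subr 762177 5000000 (enc_scaleT 64227 200000 h1))))) (enc_mul (enc_norm (enc_sub (enc_rat _ 48413 1000000) (enc_scaleT 3510799 100000 (txg_4.enc h1 h2 h3)))) (enc_norm (enc_mul (enc_norm (txg_421.enc h1 h2 h3)) (enc_norm (enc_sub (enc_rat _ 21 50) h1)))))) (enc_case (txg_507.enc h1 h2 h3) (enc_add (enc_add (enc_sub (enc_rat _ 2514091 85000000) (enc_scaleT 214903 3400000 h1)) (enc_mul (enc_norm (txg_4.enc h1 h2 h3)) (enc_norm (enc_subr 58525149 170000000 (enc_scaleT 264477 340000 h1))))) (enc_mul (enc_norm (enc_subr 965531 1000000 (enc_scaleT 2787003 100000 (txg_4.enc h1 h2 h3)))) (enc_norm (enc_mul (enc_norm (txg_485.enc h1 h2 h3)) (enc_norm (enc_sub (enc_rat _ 227 500) h1)))))) (enc_add (enc_add (enc_sub (enc_rat _ 88167 9200000) (enc_scaleT 88167 4600000 h1)) (enc_mul (enc_norm (txg_4.enc h1 h2 h3)) (enc_norm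 (enc_sub (enc_rat _ 8889 92000) (enc_scaleT 8889 46000 h1))))) (enc_mul (enc_norm (enc_subr 121867 500000 (enc_scaleT 3197 6250 (txg_4.enc h1 h2 h3)))) (enc_norm (enc_mul (enc_norm (txg_507.enc h1 h2 h3)) (enc_norm (enc_sub (enc_rat _ 1 2) h1)))))))))))))⟩
noncomputable def l0q0 : Fn2 := ⟨_, _, fun h1 h2 => (enc_norm (txg.enc (enc_norm (enc_sub (enc_scaleT 3 4 h1) (enc_half (c1g.enc h1)))) (c1g.enc h1) h2))⟩
noncomputable def kf0q1_10 : Fn2 := ⟨_, _, fun h1 h2 => (enc_scaleT 3 2 h1)⟩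
noncomputable def kf0q1 : Fn2 := ⟨_, _, fun h1 h2 => (enc_norm (enc_add (enc_mul (enc_norm (enc_mul (enc_norm (enc_add (enc_pnc _ 1) (enc_nat 2 (c1g.enc h1)))) (enc_norm (enc_sub (kf0q1_10.enc h1 h2) (c1g.enc h1))))) (enc_inv (enc_nat 2 (enc_sub (enc_add (enc_pnc _ 1) (kf0q1_10.enc h1 h2)) (c1g.enc h1))))) (enc_mul (enc_norm (enc_subn 1 h1)) (kcg.enc (enc_norm (enc_sub (enc_scaleT 3 4 h1) (enc_half (c1g.enc h1)))) h2))))⟩
noncomputable def l0q1 : Fn2 := ⟨_, _, fun h1 h2 => (enc_norm (txg.enc (enc_norm (enc_sub (enc_scaleT 3 4 h1) (enc_half (c1g.enc h1)))) (c1g.enc h1) h2))⟩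
noncomputable def yag : Fn1 := ⟨_, _, fun h1 => (enc_sqrt (enc_scaleT 4 3 (enc_sub (enc_pnc _ 1) (enc_sq h1))))⟩
noncomputable def kfc02 : Fn2 := ⟨_, _, fun h1 h2 => (enc_norm (enc_add h1 (enc_mul (enc_norm (enc_subn 1 (yag.enc h1))) (kcg.enc (enc_neg h1) h2))))⟩
noncomputable def lc02_7 : Fn2 := ⟨_, _, fun h1 h2 => (enc_scaleT 3 4 (yag.enc h1))⟩
noncomputable def lc02_8 : Fn2 := ⟨_, _, fun h1 h2 => (enc_half h1)⟩
noncomputable def lc02 : Fn2 := ⟨_, _, fun h1 h2 => (enc_norm (enc_sub (txg.enc (enc_neg h1) (enc_norm (enc_add (lc02_7.enc h1 h2) (lc02_8.enc h1 h2))) h2) (txg.enc h1 (enc_norm (enc_sub (lc02_7.enc h1 h2) (lc02_8.enc h1 h2))) h2)))⟩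
noncomputable def swg : Fn1 := ⟨_, _, fun h1 => (enc_sqrt (enc_sub (enc_pnc _ 1) (enc_scaleT 3 4 (enc_sq (enc_norm (enc_subn 1 h1))))))⟩
noncomputable def cv1m : Fn1 := ⟨_, _, fun h1 => (enc_norm (enc_add (enc_half (c1g.enc h1)) (enc_half (enc_add (swg.enc h1) (enc_rat _ 1 2)))))⟩
noncomputable def bf1q0_3 : Fn2 := ⟨_, _, fun h1 h2 => (enc_subr 5 128 h2)⟩
noncomputable def bf1q0_14 : Fn2 := ⟨_, _, fun h1 h2 => (enc_mul (enc_norm (bf1q0_3.enc h1 h2)) (enc_scaleT 79 500000 h1))⟩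
noncomputable def bf1q0 : Fn2 := ⟨_, _, fun h1 h2 => (enc_norm (enc_case (enc_subr 1 5 h1) (enc_case (enc_subr 1 10 h1) (enc_add (enc_sub (enc_pnc _ 1) (enc_scaleT 37 10000000 h1)) (bf1q0_14.enc h1 h2)) (enc_add (enc_sub (enc_rat _ 12500001 12500000) (enc_scaleT 9 2000000 h1)) (bf1q0_14.enc h1 h2))) (enc_case (enc_subr 7 20 h1) (enc_add (enc_sub (enc_rat _ 10000001 10000000) (enc_scaleT 23 5000000 h1)) (enc_mul (enc_norm (bf1q0_3.enc h1 h2)) (enc_norm (enc_add (enc_scaleT 9 62500 h1) (enc_rat _ 7 2500000))))) (enc_add (enc_sub (enc_rat _ 29999989 30000000) (enc_scaleT 49 15000000 h1)) (enc_mul (enc_norm (bf1q0_3.enc h1 h2)) (enc_norm (enc_add (enc_scaleT 1 50000 h1) (enc_rat _ 231 5000000))))))))⟩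
noncomputable def kf1q0 : Fn2 := ⟨_, _, fun h1 h2 => (enc_norm (enc_mul (cv1m.enc h1) (bf1q0.enc h1 h2)))⟩
noncomputable def bx1q0_3 : Fn2 := ⟨_, _, fun h1 h2 => (enc_subr 5 128 h2)⟩
noncomputable def bx1q0 : Fn2 := ⟨_, _, fun h1 h2 => (enc_norm (enc_case (enc_subr 1 5 h1) (enc_case (enc_subr 1 10 h1) (enc_sub (enc_scaleT 22961 10000000 h1) (enc_mul (enc_norm (bx1q0_3.enc h1 h2)) (enc_scaleT 1369 250000 h1))) (enc_add (enc_add (enc_scaleT 2859 1250000 h1) (enc_rat _ 89 100000000)) (enc_mul (enc_norm (bx1q0_3.enc h1 h2)) (enc_norm (enc_subr 37 1250000 (enc_neg (enc_scaleT 259 50000 h1))))))) (enc_case (enc_subr 7 20 h1) (enc_add (enc_add (enc_scaleT 8329 3750000 h1) (enc_rat _ 847 60000000)) (enc_mul (enc_norm (bx1q0_3.enc h1 h2)) (enc_norm (enc_subr 803 3750000 (enc_neg (enc_scaleT 3193 750000 h1)))))) (enc_add (enc_add (enc_scaleT 14581 7500000 h1) (enc_rat _ 33313 300000000))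 (enc_mul (enc_norm (bx1q0_3.enc h1 h2)) (enc_norm (enc_subr 41207 30000000 (enc_neg (enc_scaleT 1417 1500000 h1)))))))))⟩
noncomputable def l1q0 : Fn2 := ⟨_, _, fun h1 h2 => (enc_norm (enc_mul (cv1m.enc h1) (bx1q0.enc h1 h2)))⟩
noncomputable def bf1q1_3 : Fn2 := ⟨_, _, fun h1 h2 => (enc_subr 5 128 h2)⟩
noncomputable def bf1q1_14 : Fn2 := ⟨_, _, fun h1 h2 => (enc_add (enc_scaleT 1 312500 h1) (enc_rat _ 74159399 100000000))⟩
noncomputable def bf1q1_33 : Fn2 := ⟨_, _, fun h1 h2 => (enc_scaleT 1 125000 h1)⟩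
noncomputable def bf1q1_82 : Fn2 := ⟨_, _, fun h1 h2 => (enc_mul (enc_norm (bf1q1_3.enc h1 h2)) (enc_norm (enc_subr 5299991 7500000 (enc_scaleT 17 300000 h1))))⟩
noncomputable def bf1q1_84 : Fn2 := ⟨_, _, fun h1 h2 => (enc_scaleT 1 187500 h1)⟩
noncomputable def bf1q1_121 : Fn2 := ⟨_, _, fun h1 h2 => (enc_scaleT 1 43750 h1)⟩
noncomputable def bf1q1 : Fn2 := ⟨_, _, fun h1 h2 => (enc_norm (enc_case (enc_subr 22 25 h1) (enc_case (enc_subr 3 4 h1) (enc_case (enc_subr 13 20 h1) (enc_case (enc_subr 3 5 h1) (enc_add (bf1q1_14.enc h1 h2) (enc_mul (enc_norm (bf1q1_3.enc h1 h2)) (enc_norm (enc_subr 3533177 5000000 (enc_scaleT 19 1000000 h1))))) (enc_add (bf1q1_14.enc h1 h2) (enc_mul (enc_norm (bf1q1_3.enc h1 h2)) (enc_norm (enc_subr 70663 100000 (enc_scaleT 1 100000 h1)))))) (enc_case (enc_subr 7 10 h1) (enc_add (enc_add (enc_scaleT 17 5000000 h1) (enc_rat _ 37079693 50000000)) (enc_mul (enc_norm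 (bf1q1_3.enc h1 h2)) (enc_norm (enc_subr 7066287 10000000 (bf1q1_33.enc h1 h2))))) (enc_add (enc_add (enc_scaleT 19 5000000 h1) (enc_rat _ 37079679 50000000)) (enc_mul (enc_norm (bf1q1_3.enc h1 h2)) (enc_norm (enc_subr 7066343 10000000 (enc_scaleT 1 62500 h1))))))) (enc_case (enc_subr 41 50 h1) (enc_case (enc_subr 79 100 h1) (enc_add (enc_add (enc_scaleT 1 250000 h1) (enc_rat _ 74159343 100000000)) (enc_mul (enc_norm (bf1q1_3.enc h1 h2)) (enc_norm (enc_subr 441653 625000 (enc_scaleT 3 100000 h1))))) (enc_add (enc_add (enc_scaleT 7 1500000 h1) (enc_rat _ 222477871 300000000)) (enc_mul (enc_norm (bf1q1_3.enc h1 h2)) (enc_norm (enc_subr 1766691 2500000 (enc_scaleT 7 100000 h1)))))) (enc_case (enc_subr 17 20 h1) (enc_add (enc_add (enc_scaleT 1 200000 h1) (enc_rat _ 74159263 100000000)) (bf1q1_82.enc h1 h2)) (enc_add (enc_add (bf1q1_84.enc h1 h2) (enc_rat _ 27809713 37500000)) (bf1q1_82.enc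 h1 h2))))) (enc_case (enc_subr 31 32 h1) (enc_case (enc_subr 15 16 h1) (enc_case (enc_subr 91 100 h1) (enc_add (enc_add (enc_scaleT 17 3000000 h1) (enc_rat _ 13904851 18750000)) (enc_mul (enc_norm (bf1q1_3.enc h1 h2)) (enc_norm (enc_subr 1766671 2500000 (enc_scaleT 3 50000 h1))))) (enc_add (enc_add (enc_scaleT 7 1375000 h1) (enc_rat _ 163150367 220000000)) (enc_mul (enc_norm (bf1q1_3.enc h1 h2)) (enc_norm (enc_subr 38865579 55000000 (enc_scaleT 1 27500 h1)))))) (enc_case (enc_subr 191 200 h1) (enc_add (enc_add (enc_scaleT 1 218750 h1) (enc_rat _ 103823029 140000000)) (enc_mul (enc_norm (bf1q1_3.enc h1 h2)) (enc_norm (enc_subr 12366099 17500000 (bf1q1_121.enc h1 h2))))) (enc_add (enc_add (enc_scaleT 1 275000 h1) (enc_rat _ 815753353 1100000000)) (enc_mul (enc_norm (bf1q1_3.enc h1 h2)) (enc_norm (enc_subr 19432223 27500000 (enc_scaleT 1 68750 h1))))))) (enc_case (enc_subr 197 200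 h1) (enc_case (enc_subr 391 400 h1) (enc_add (enc_add (enc_scaleT 3 875000 h1) (enc_rat _ 519115911 700000000)) (enc_mul (enc_norm (bf1q1_3.enc h1 h2)) (enc_norm (enc_subr 12366101 17500000 (bf1q1_121.enc h1 h2))))) (enc_add (enc_add (bf1q1_84.enc h1 h2) (enc_rat _ 222477689 300000000)) (enc_mul (enc_norm (bf1q1_3.enc h1 h2)) (enc_norm (enc_subr 10599571 15000000 (enc_scaleT 1 37500 h1)))))) (enc_case (enc_subr 397 400 h1) (enc_add (enc_add (enc_scaleT 1 150000 h1) (enc_rat _ 44495459 60000000)) (enc_mul (enc_norm (bf1q1_3.enc h1 h2)) (enc_norm (enc_subr 2650139 3750000 (enc_scaleT 7 75000 h1))))) (enc_add (enc_add (bf1q1_33.enc h1 h2) (enc_rat _ 37079483 50000000)) (enc_mul (enc_norm (bf1q1_3.enc h1 h2)) (enc_norm (enc_subr 7067699 10000000 (enc_scaleT 1 6250 h1))))))))))⟩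
noncomputable def kf1q1 : Fn2 := ⟨_, _, fun h1 h2 => (enc_norm (enc_mul (cv1m.enc h1) (bf1q1.enc h1 h2)))⟩
noncomputable def bx1q1_3 : Fn2 := ⟨_, _, fun h1 h2 => (enc_subr 5 128 h2)⟩
noncomputable def bx1q1_92 : Fn2 := ⟨_, _, fun h1 h2 => (enc_mul (enc_norm (bx1q1_3.enc h1 h2)) (enc_norm (enc_sub (enc_rat _ 3286783 30000000) (enc_scaleT 937 300000 h1))))⟩
noncomputable def bx1q1 : Fn2 := ⟨_, _, fun h1 h2 => (enc_norm (enc_case (enc_subr 22 25 h1) (enc_case (enc_subr 3 4 h1) (enc_case (enc_subr 13 20 h1) (enc_case (enc_subr 3 5 h1) (enc_add (enc_sub (enc_rat _ 220041 50000000) (enc_scaleT 1191 1000000 h1)) (enc_mul (enc_norm (bx1q1_3.enc h1 h2)) (enc_norm (enc_sub (enc_rat _ 1082851 10000000) (enc_scaleT 423 250000 h1))))) (enc_add (enc_sub (enc_rat _ 218157 50000000) (enc_scaleT 5641 5000000 h1)) (enc_mul (enc_norm (bx1q1_3.enc h1 h2)) (enc_norm (enc_sub (enc_rat _ 1078123 10000000)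 (enc_scaleT 113 125000 h1)))))) (enc_case (enc_subr 7 10 h1) (enc_add (enc_sub (enc_rat _ 432401 100000000) (enc_scaleT 267 250000 h1)) (enc_mul (enc_norm (bx1q1_3.enc h1 h2)) (enc_norm (enc_sub (enc_rat _ 1077473 10000000) (enc_scaleT 201 250000 h1))))) (enc_add (enc_sub (enc_rat _ 428943 100000000) (enc_scaleT 5093 5000000 h1)) (enc_mul (enc_norm (bx1q1_3.enc h1 h2)) (enc_norm (enc_sub (enc_rat _ 1076983 10000000) (enc_scaleT 367 500000 h1))))))) (enc_case (enc_subr 41 50 h1) (enc_case (enc_subr 79 100 h1) (enc_add (enc_sub (enc_rat _ 1705317 400000000) (enc_scaleT 787 800000 h1)) (enc_mul (enc_norm (bx1q1_3.enc h1 h2)) (enc_norm (enc_sub (enc_rat _ 1080403 10000000) (enc_scaleT 119 100000 h1))))) (enc_add (enc_sub (enc_rat _ 639247 150000000) (enc_scaleT 589 600000 h1)) (enc_mul (enc_norm (bx1q1_3.enc h1 h2)) (enc_norm (enc_sub (enc_rat _ 3293507 30000000) (enc_scaleT 1019 300000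 h1)))))) (enc_case (enc_subr 17 20 h1) (enc_add (enc_sub (enc_rat _ 10663 2500000) (enc_scaleT 493 500000 h1)) (bx1q1_92.enc h1 h2)) (enc_add (enc_sub (enc_rat _ 851 200000) (enc_scaleT 487 500000 h1)) (bx1q1_92.enc h1 h2))))) (enc_case (enc_subr 31 32 h1) (enc_case (enc_subr 15 16 h1) (enc_case (enc_subr 91 100 h1) (enc_add (enc_sub (enc_rat _ 318047 75000000) (enc_scaleT 2873 3000000 h1)) (enc_mul (enc_norm (bx1q1_3.enc h1 h2)) (enc_norm (enc_sub (enc_rat _ 43981 400000) (enc_scaleT 357 100000 h1))))) (enc_add (enc_sub (enc_rat _ 4612789 1100000000) (enc_scaleT 2491 2750000 h1)) (enc_mul (enc_norm (bx1q1_3.enc h1 h2)) (enc_norm (enc_sub (enc_rat _ 1199877 11000000) (enc_scaleT 359 137500 h1)))))) (enc_case (enc_subr 191 200 h1) (enc_add (enc_sub (enc_rat _ 22531 5468750) (enc_scaleT 181 218750 h1)) (enc_mul (enc_norm (bx1q1_3.enc h1 h2)) (enc_norm (enc_sub (enc_rat _ 756549 7000000)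 (enc_scaleT 27 17500 h1))))) (enc_add (enc_sub (enc_rat _ 63581 17187500) (enc_scaleT 133 343750 h1)) (enc_mul (enc_norm (bx1q1_3.enc h1 h2)) (enc_norm (enc_sub (enc_rat _ 535699 5000000) (enc_scaleT 7 12500 h1))))))) (enc_case (enc_subr 197 200 h1) (enc_case (enc_subr 391 400 h1) (enc_add (enc_sub (enc_rat _ 622077 175000000) (enc_scaleT 26 109375 h1)) (enc_mul (enc_norm (bx1q1_3.enc h1 h2)) (enc_norm (enc_add (enc_scaleT 37 87500 h1) (enc_rat _ 464571 4375000))))) (enc_add (enc_sub (enc_rat _ 175893 50000000) (enc_scaleT 1 5000 h1)) (enc_mul (enc_norm (bx1q1_3.enc h1 h2)) (enc_norm (enc_add (enc_scaleT 133 75000 h1) (enc_rat _ 3146027 30000000)))))) (enc_case (enc_subr 397 400 h1) (enc_add (enc_sub (enc_rat _ 7083 2000000) (enc_scaleT 7 31250 h1)) (enc_mul (enc_norm (bx1q1_3.enc h1 h2)) (enc_norm (enc_add (enc_scaleT 53 18750 h1) (enc_rat _ 3114901 30000000))))) (enc_add (enc_sub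 (enc_rat _ 177869 50000000) (enc_scaleT 3 12500 h1)) (enc_mul (enc_norm (bx1q1_3.enc h1 h2)) (enc_norm (enc_add (enc_scaleT 19 6250 h1) (enc_rat _ 1036183 10000000))))))))))⟩
noncomputable def l1q1 : Fn2 := ⟨_, _, fun h1 h2 => (enc_norm (enc_mul (cv1m.enc h1) (bx1q1.enc h1 h2)))⟩
noncomputable def xc12a : Fn1 := ⟨_, _, fun h1 => (enc_norm (enc_add (enc_half h1) (enc_half (enc_subr 1 2 (swg.enc (yag.enc h1))))))⟩
noncomputable def bf1q2_3 : Fn2 := ⟨_, _, fun h1 h2 => (enc_subr 5 128 h2)⟩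
noncomputable def bf1q2_202 : Fn2 := ⟨_, _, fun h1 h2 => (enc_scaleT 3277 1250000 (bf1q2_3.enc h1 h2))⟩
noncomputable def bf1q2 : Fn2 := ⟨_, _, fun h1 h2 => (enc_norm (enc_case (enc_subr 9 8 h1) (enc_case (enc_subr 33 32 h1) (enc_case (enc_subr 203 200 h1) (enc_case (enc_subr 403 400 h1) (enc_add (enc_add (enc_scaleT 38857 187500 h1) (enc_rat _ 148643 187500)) (enc_mul (enc_norm (bf1q2_3.enc h1 h2)) (enc_norm (enc_sub (enc_rat _ 5347 15000) (enc_scaleT 5347 15000 h1))))) (enc_add (enc_sub (enc_rat _ 300488449 300000000) (enc_scaleT 11 150000 h1)) (enc_mul (enc_norm (bf1q2_3.enc h1 h2)) (enc_norm (enc_sub (enc_rat _ 1004671 30000000) (enc_scaleT 673 18750 h1)))))) (enc_case (enc_subr 409 400 h1) (enc_add (enc_sub (enc_rat _ 60106297 60000000) (enc_scaleT 161 750000 h1)) (enc_mul (enc_norm (bf1q2_3.enc h1 h2)) (enc_norm (enc_sub (enc_rat _ 78569 10000000) (enc_scaleT 133 12500 h1)))))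 (enc_add (enc_sub (enc_rat _ 350618907 350000000) (enc_scaleT 37 175000 h1)) (enc_mul (enc_norm (bf1q2_3.enc h1 h2)) (enc_norm (enc_subr 499511 70000000 (enc_scaleT 88 21875 h1))))))) (enc_case (enc_subr 17 16 h1) (enc_case (enc_subr 209 200 h1) (enc_add (enc_sub (enc_rat _ 50096001 50000000) (enc_scaleT 493 1375000 h1)) (enc_mul (enc_norm (bf1q2_3.enc h1 h2)) (enc_norm (enc_subr 74723 10000000 (enc_scaleT 299 68750 h1))))) (enc_add (enc_sub (enc_rat _ 175368769 175000000) (enc_scaleT 941 1750000 h1)) (enc_mul (enc_norm (bf1q2_3.enc h1 h2)) (enc_norm (enc_subr 431481 70000000 (enc_scaleT 271 87500 h1)))))) (enc_case (enc_subr 217 200 h1) (enc_add (enc_sub (enc_rat _ 300670729 300000000) (enc_scaleT 247 375000 h1)) (enc_mul (enc_norm (bf1q2_3.enc h1 h2)) (enc_norm (enc_subr 591797 90000000 (enc_scaleT 98 28125 h1))))) (enc_case (enc_subr 221 200 h1) (enc_add (enc_sub (enc_rat _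 400888591 400000000) (enc_scaleT 1291 2000000 h1)) (enc_mul (enc_norm (bf1q2_3.enc h1 h2)) (enc_norm (enc_subr 123819 20000000 (enc_scaleT 313 100000 h1))))) (enc_add (enc_sub (enc_rat _ 100213363 100000000) (enc_scaleT 283 500000 h1)) (enc_mul (enc_norm (bf1q2_3.enc h1 h2)) (enc_norm (enc_subr 248301 40000000 (enc_scaleT 629 200000 h1))))))))) (enc_case (enc_subr 121 100 h1) (enc_case (enc_subr 577 500 h1) (enc_case (enc_subr 23 20 h1) (enc_add (enc_sub (enc_rat _ 25047637 25000000) (enc_scaleT 227 625000 h1)) (enc_mul (enc_norm (bf1q2_3.enc h1 h2)) (enc_norm (enc_subr 67329 10000000 (enc_scaleT 903 250000 h1))))) (enc_add (enc_add (enc_scaleT 669 1562500 h1) (enc_rat _ 125124427 125000000)) (enc_mul (enc_norm (bf1q2_3.enc h1 h2)) (enc_norm (enc_subr 47511 20000000 (enc_neg (enc_scaleT 177 1000000 h1))))))) (enc_case (enc_subr 231 200 h1) (enc_add (enc_add (enc_scaleT 60451 6250000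 h1) (enc_rat _ 6189549 6250000)) (enc_mul (enc_norm (bf1q2_3.enc h1 h2)) (enc_norm (enc_sub (enc_rat _ 1047 62500) (enc_scaleT 1047 62500 h1))))) (enc_case (enc_subr 59 50 h1) (enc_add (enc_add (enc_scaleT 25769 31250000 h1) (enc_rat _ 3126708633 3125000000)) (enc_mul (enc_norm (bf1q2_3.enc h1 h2)) (enc_norm (enc_subr 379563 250000000 (enc_neg (enc_scaleT 1167 1250000 h1)))))) (enc_add (enc_add (enc_scaleT 221 750000 h1) (enc_rat _ 75087907 75000000)) (enc_mul (enc_norm (bf1q2_3.enc h1 h2)) (enc_norm (enc_subr 76709 30000000 (enc_neg (enc_scaleT 1 18750 h1))))))))) (enc_case (enc_subr 13 10 h1) (enc_case (enc_subr 5 4 h1) (enc_add (enc_add (enc_scaleT 223 2000000 h1) (enc_rat _ 40055749 40000000)) (enc_mul (enc_norm (bf1q2_3.enc h1 h2)) (enc_norm (enc_subr 104739 40000000 (enc_neg (enc_scaleT 1 400000 h1)))))) (enc_sub (enc_add (enc_scaleT 53 1250000 h1) (enc_rat _ 10014801 10000000))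 (bf1q2_202.enc h1 h2))) (enc_case (enc_subr 27 20 h1) (enc_sub (enc_add (enc_scaleT 41 2500000 h1) (enc_rat _ 10015139 10000000)) (bf1q2_202.enc h1 h2)) (enc_case (enc_subr 7 5 h1) (enc_sub (enc_add (enc_scaleT 1 156250 h1) (enc_rat _ 5007637 5000000)) (bf1q2_202.enc h1 h2)) (enc_sub (enc_add (enc_scaleT 33 10000000 h1) (enc_rat _ 50076587 50000000)) (bf1q2_202.enc h1 h2))))))))⟩
noncomputable def kfc12a : Fn2 := ⟨_, _, fun h1 h2 => (enc_norm (enc_mul (enc_norm (enc_add (enc_half h1) (enc_half (enc_subr 1 2 (swg.enc (yag.enc h1)))))) (bf1q2.enc (yag.enc h1) h2)))⟩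
noncomputable def bx1q2_3 : Fn2 := ⟨_, _, fun h1 h2 => (enc_subr 5 128 h2)⟩
noncomputable def bx1q2_185 : Fn2 := ⟨_, _, fun h1 h2 => (enc_scaleT 22447 1000000 (bx1q2_3.enc h1 h2))⟩
noncomputable def bx1q2 : Fn2 := ⟨_, _, fun h1 h2 => (enc_norm (enc_case (enc_subr 9 8 h1) (enc_case (enc_subr 33 32 h1) (enc_case (enc_subr 203 200 h1) (enc_case (enc_subr 403 400 h1) (enc_add (enc_subr 1118 46875 (enc_scaleT 1118 46875 h1)) (enc_mul (enc_norm (bx1q2_3.enc h1 h2)) (enc_norm (enc_subr 43807 75000 (enc_scaleT 43807 75000 h1))))) (enc_add (enc_subr 2228837 100000000 (enc_scaleT 223 10000 h1)) (enc_mul (enc_norm (bx1q2_3.enc h1 h2)) (enc_norm (enc_subr 2451539 7500000 (enc_scaleT 24659 75000 h1)))))) (enc_case (enc_subr 409 400 h1) (enc_add (enc_subr 8455859 300000000 (enc_scaleT 21083 750000 h1)) (enc_mul (enc_norm (bx1q2_3.enc h1 h2)) (enc_norm (enc_subr 96569 1500000 (enc_scaleT 5263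 75000 h1))))) (enc_add (enc_subr 4745973 87500000 (enc_scaleT 11723 218750 h1)) (enc_mul (enc_norm (bx1q2_3.enc h1 h2)) (enc_norm (enc_sub (enc_rat _ 156227 14000000) (enc_scaleT 81 21875 h1))))))) (enc_case (enc_subr 17 16 h1) (enc_case (enc_subr 209 200 h1) (enc_add (enc_subr 7261137 100000000 (enc_scaleT 98183 1375000 h1)) (enc_mul (enc_norm (bx1q2_3.enc h1 h2)) (enc_norm (enc_subr 2145979 2000000 (enc_scaleT 36011 34375 h1))))) (enc_add (enc_subr 3461377 700000000 (enc_scaleT 11643 1750000 h1)) (enc_mul (enc_norm (bx1q2_3.enc h1 h2)) (enc_norm (enc_subr 208123 14000000 (enc_scaleT 6131 175000 h1)))))) (enc_case (enc_subr 217 200 h1) (enc_add (enc_subr 842183 300000000 (enc_scaleT 3481 750000 h1)) (enc_mul (enc_norm (bx1q2_3.enc h1 h2)) (enc_norm (enc_add (enc_scaleT 8 3125 h1) (enc_rat _ 9819 500000))))) (enc_case (enc_subr 221 200 h1) (enc_add (enc_add (enc_scaleT 361 250000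 h1) (enc_rat _ 66183 100000000)) (enc_mul (enc_norm (bx1q2_3.enc h1 h2)) (enc_norm (enc_sub (enc_rat _ 448529 20000000) (enc_scaleT 1 100000 h1))))) (enc_add (enc_add (enc_scaleT 1157 2000000 h1) (enc_rat _ 647283 400000000)) (enc_mul (enc_norm (bx1q2_3.enc h1 h2)) (enc_norm (enc_add (enc_scaleT 21 40000 h1) (enc_rat _ 873411 40000000))))))))) (enc_case (enc_subr 59 50 h1) (enc_case (enc_subr 577 500 h1) (enc_case (enc_subr 23 20 h1) (enc_add (enc_add (enc_scaleT 119 500000 h1) (enc_rat _ 200127 100000000)) (enc_mul (enc_norm (bx1q2_3.enc h1 h2)) (enc_norm (enc_add (enc_scaleT 23 25000 h1) (enc_rat _ 213909 10000000))))) (enc_add (enc_add (enc_scaleT 39 400000 h1) (enc_rat _ 432569 200000000)) (enc_mul (enc_norm (bx1q2_3.enc h1 h2)) (enc_norm (enc_add (enc_scaleT 7 40000 h1) (enc_rat _ 444953 20000000)))))) (enc_case (enc_subr 231 200 h1) (enc_add (enc_rat _ 14221 6250000) (enc_scaleT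 14031 625000 (bx1q2_3.enc h1 h2))) (enc_add (enc_sub (enc_rat _ 569533 250000000) (enc_scaleT 3 1250000 h1)) (enc_mul (enc_norm (bx1q2_3.enc h1 h2)) (enc_norm (enc_sub (enc_rat _ 562857 25000000) (enc_scaleT 7 125000 h1))))))) (enc_case (enc_subr 5 4 h1) (enc_case (enc_subr 121 100 h1) (enc_add (enc_add (enc_scaleT 1 1000000 h1) (enc_rat _ 56853 25000000)) (enc_mul (enc_norm (bx1q2_3.enc h1 h2)) (enc_norm (enc_sub (enc_rat _ 84343 3750000) (enc_scaleT 11 300000 h1))))) (enc_add (enc_add (enc_scaleT 1 4000000 h1) (enc_rat _ 910011 400000000)) (enc_mul (enc_norm (bx1q2_3.enc h1 h2)) (enc_norm (enc_sub (enc_rat _ 179601 8000000) (enc_scaleT 1 400000 h1)))))) (enc_case (enc_subr 13 10 h1) (enc_add (enc_rat _ 113767 50000000) (bx1q2_185.enc h1 h2)) (enc_case (enc_subr 27 20 h1) (enc_add (enc_add (enc_scaleT 1 5000000 h1) (enc_rat _ 56877 25000000)) (bx1q2_185.enc h1 h2)) (enc_add (enc_rat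 _ 45507 20000000) (bx1q2_185.enc h1 h2))))))))⟩
noncomputable def lc12a : Fn2 := ⟨_, _, fun h1 h2 => (enc_norm (enc_mul (enc_norm (enc_add (enc_half h1) (enc_half (enc_subr 1 2 (swg.enc (yag.enc h1)))))) (bx1q2.enc (yag.enc h1) h2)))⟩
noncomputable def xc12b : Fn1 := ⟨_, _, fun h1 => (enc_norm (enc_half (enc_subr 1 2 (swg.enc h1))))⟩
noncomputable def kfc12b : Fn2 := ⟨_, _, fun h1 h2 => (enc_norm (enc_mul (enc_norm (enc_half (enc_subr 1 2 (swg.enc h1)))) (bf1q2.enc h1 h2)))⟩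
noncomputable def lc12b : Fn2 := ⟨_, _, fun h1 h2 => (enc_norm (enc_mul (enc_norm (enc_half (enc_subr 1 2 (swg.enc h1)))) (bx1q2.enc h1 h2)))⟩
noncomputable def cv1r : Fn1 := ⟨_, _, fun h1 => (enc_norm (enc_half (enc_subr 1 2 (swg.enc h1))))⟩
noncomputable def bf1q3_3 : Fn2 := ⟨_, _, fun h1 h2 => (enc_subr 5 128 h2)⟩
noncomputable def bf1q3_14 : Fn2 := ⟨_, _, fun h1 h2 => (enc_mul (enc_norm (bf1q3_3.enc h1 h2)) (enc_norm (enc_add (enc_scaleT 1 750000 h1) (enc_rat _ 1229895447 10000000))))⟩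
noncomputable def bf1q3_25 : Fn2 := ⟨_, _, fun h1 h2 => (enc_add (enc_scaleT 1 2000000 h1) (enc_rat _ 20227813 4000000))⟩
noncomputable def bf1q3 : Fn2 := ⟨_, _, fun h1 h2 => (enc_norm (enc_case (enc_subr 9 5 h1) (enc_case (enc_subr 33 20 h1) (enc_add (enc_add (enc_scaleT 7 15000000 h1) (enc_rat _ 50569533 10000000)) (bf1q3_14.enc h1 h2)) (enc_add (enc_add (enc_scaleT 1 1875000 h1) (enc_rat _ 505695319 100000000)) (bf1q3_14.enc h1 h2))) (enc_case (enc_subr 19 10 h1) (enc_add (bf1q3_25.enc h1 h2) (enc_mul (enc_norm (bf1q3_3.enc h1 h2)) (enc_norm (enc_add (enc_scaleT 1 500000 h1) (enc_rat _ 245979087 2000000))))) (enc_add (bf1q3_25.enc h1 h2) (enc_mul (enc_norm (bf1q3_3.enc h1 h2)) (enc_norm (enc_add (enc_scaleT 1 1000000 h1) (enc_rat _ 614947727 5000000))))))))⟩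
noncomputable def kf1q3 : Fn2 := ⟨_, _, fun h1 h2 => (enc_norm (enc_mul (cv1r.enc h1) (bf1q3.enc h1 h2)))⟩
noncomputable def bx1q3_3 : Fn2 := ⟨_, _, fun h1 h2 => (enc_subr 5 128 h2)⟩
noncomputable def bx1q3_16 : Fn2 := ⟨_, _, fun h1 h2 => (enc_mul (enc_norm (bx1q3_3.enc h1 h2)) (enc_norm (enc_subr 4232327 500000 (enc_scaleT 7 300000 h1))))⟩
noncomputable def bx1q3_34 : Fn2 := ⟨_, _, fun h1 h2 => (enc_mul (enc_norm (bx1q3_3.enc h1 h2)) (enc_norm (enc_subr 21161683 2500000 (enc_scaleT 17 500000 h1))))⟩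
noncomputable def bx1q3 : Fn2 := ⟨_, _, fun h1 h2 => (enc_norm (enc_case (enc_subr 9 5 h1) (enc_case (enc_subr 33 20 h1) (enc_add (enc_subr 1924707 50000000 (enc_scaleT 1 468750 h1)) (bx1q3_16.enc h1 h2)) (enc_add (enc_subr 481163 12500000 (enc_scaleT 11 7500000 h1)) (bx1q3_16.enc h1 h2))) (enc_case (enc_subr 19 10 h1) (enc_add (enc_subr 962287 25000000 (enc_scaleT 3 5000000 h1)) (bx1q3_34.enc h1 h2)) (enc_add (enc_subr 3849243 100000000 (enc_scaleT 11 10000000 h1)) (bx1q3_34.enc h1 h2)))))⟩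
noncomputable def l1q3 : Fn2 := ⟨_, _, fun h1 h2 => (enc_norm (enc_mul (cv1r.enc h1) (bx1q3.enc h1 h2)))⟩
noncomputable def cv2m : Fn1 := ⟨_, _, fun h1 => (enc_norm (enc_add (swg.enc h1) (enc_rat _ 1 2)))⟩
noncomputable def bf2q0_3 : Fn2 := ⟨_, _, fun h1 h2 => (enc_subr 5 128 h2)⟩
noncomputable def bf2q0 : Fn2 := ⟨_, _, fun h1 h2 => (enc_norm (enc_case (enc_subr 1 5 h1) (enc_case (enc_subr 1 10 h1) (enc_sub (enc_add (enc_scaleT 1 1250000 h1) (enc_pnc _ 1)) (enc_mul (enc_norm (bf2q0_3.enc h1 h2)) (enc_scaleT 3 1000000 h1))) (enc_add (enc_add (enc_scaleT 1 2000000 h1) (enc_rat _ 100000003 100000000)) (enc_mul (enc_norm (bf2q0_3.enc h1 h2)) (enc_norm (enc_subr 1 2000000 (enc_scaleT 1 500000 h1)))))) (enc_case (enc_subr 7 20 h1) (enc_add (enc_add (enc_scaleT 1 3000000 h1) (enc_rat _ 300000019 300000000)) (enc_mul (enc_norm (bf2q0_3.enc h1 h2)) (enc_norm (enc_subr 9 10000000 (enc_scaleT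 1 250000 h1))))) (enc_add (enc_add (enc_scaleT 1 5000000 h1) (enc_rat _ 100000011 100000000)) (enc_mul (enc_norm (bf2q0_3.enc h1 h2)) (enc_norm (enc_add (enc_scaleT 1 750000 h1) (enc_rat _ 1 30000000))))))))⟩
noncomputable def kf2q0 : Fn2 := ⟨_, _, fun h1 h2 => (enc_norm (enc_mul (cv2m.enc h1) (bf2q0.enc h1 h2)))⟩
noncomputable def bx2q0_3 : Fn2 := ⟨_, _, fun h1 h2 => (enc_subr 5 128 h2)⟩
noncomputable def bx2q0 : Fn2 := ⟨_, _, fun h1 h2 => (enc_norm (enc_case (enc_subr 1 5 h1) (enc_case (enc_subr 1 10 h1) (enc_sub (enc_mul (enc_norm (bx2q0_3.enc h1 h2)) (enc_scaleT 21 125000 h1)) (enc_scaleT 53 2500000 h1)) (enc_add (enc_subr 11 12500000 (enc_neg (enc_scaleT 31 2500000 h1))) (enc_mul (enc_norm (bx2q0_3.enc h1 h2)) (enc_norm (enc_sub (enc_rat _ 211 10000000) (enc_scaleT 43 1000000 h1)))))) (enc_case (enc_subr 7 20 h1) (enc_add (enc_subr 1 500000 (enc_neg (enc_scaleT 17 2500000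 h1))) (enc_mul (enc_norm (bx2q0_3.enc h1 h2)) (enc_norm (enc_sub (enc_rat _ 1759 30000000) (enc_scaleT 173 750000 h1))))) (enc_add (enc_subr 291 100000000 (enc_neg (enc_scaleT 21 5000000 h1))) (enc_mul (enc_norm (bx2q0_3.enc h1 h2)) (enc_norm (enc_sub (enc_rat _ 233 30000000) (enc_scaleT 4 46875 h1))))))))⟩
noncomputable def l2q0 : Fn2 := ⟨_, _, fun h1 h2 => (enc_norm (enc_mul (cv2m.enc h1) (bx2q0.enc h1 h2)))⟩
noncomputable def gsg : Fn1 := ⟨_, _, fun h1 => (enc_sqrt (enc_sub (enc_pnc _ 1) (enc_scaleT 3 4 (enc_sq h1))))⟩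
noncomputable def esg : Fn1 := ⟨_, _, fun h1 => (enc_norm (enc_subn 1 (enc_add (enc_half h1) (gsg.enc h1))))⟩
noncomputable def kf2q1_4 : Fn2 := ⟨_, _, fun h1 h2 => (enc_subr 5 128 h2)⟩
noncomputable def kf2q1_20 : Fn2 := ⟨_, _, fun h1 h2 => (enc_scaleT 1 1250000 h1)⟩
noncomputable def kf2q1_24 : Fn2 := ⟨_, _, fun h1 h2 => (enc_scaleT 7 500000 h1)⟩
noncomputable def kf2q1_69 : Fn2 := ⟨_, _, fun h1 h2 => (enc_mul (enc_norm (kf2q1_4.enc h1 h2)) (enc_norm (enc_add (enc_scaleT 1 100000 h1) (enc_rat _ 2313 2000000))))⟩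
noncomputable def kf2q1_140 : Fn2 := ⟨_, _, fun h1 h2 => (enc_sub (enc_pnc _ 1) h1)⟩
noncomputable def kf2q1_141 : Fn2 := ⟨_, _, fun h1 h2 => (gsg.enc (enc_norm (kf2q1_140.enc h1 h2)))⟩
noncomputable def kf2q1_145 : Fn2 := ⟨_, _, fun h1 h2 => (esg.enc (enc_norm (kf2q1_140.enc h1 h2)))⟩
noncomputable def kf2q1_147 : Fn2 := ⟨_, _, fun h1 h2 => (enc_scaleT 3 2 (kf2q1_140.enc h1 h2))⟩
noncomputable def kf2q1_149 : Fn2 := ⟨_, _, fun h1 h2 => (enc_add (enc_pnc _ 1) (kf2q1_141.enc h1 h2))⟩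
noncomputable def kf2q1 : Fn2 := ⟨_, _, fun h1 h2 => (enc_norm (enc_case (enc_subr 15 16 h1) (enc_mul (cv2m.enc h1) (enc_norm (enc_case (enc_subr 3 4 h1) (enc_case (enc_subr 13 20 h1) (enc_case (enc_subr 3 5 h1) (enc_add (enc_sub (enc_rat _ 95659237 100000000) (enc_scaleT 1 2000000 h1)) (enc_mul (enc_norm (kf2q1_4.enc h1 h2)) (enc_norm (enc_add (enc_scaleT 7 1000000 h1) (enc_rat _ 463 400000))))) (enc_add (enc_sub (enc_rat _ 19131851 20000000) (kf2q1_20.enc h1 h2)) (enc_mul (enc_norm (kf2q1_4.enc h1 h2)) (enc_norm (enc_add (kf2q1_24.enc h1 h2) (enc_rat _ 11533 10000000)))))) (enc_case (enc_subr 7 10 h1) (enc_add (enc_sub (enc_rat _ 47829621 50000000) (enc_scaleT 3 5000000 h1)) (enc_mul (enc_norm (kf2q1_4.enc h1 h2)) (enc_norm (enc_add (enc_scaleT 1 62500 h1) (enc_rat _ 18 15625))))) (enc_add (enc_sub (enc_rat _ 11957407 12500000) (kf2q1_20.enc h1 h2)) (enc_mul (enc_norm (kf2q1_4.enc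 h1 h2)) (enc_norm (enc_add (kf2q1_24.enc h1 h2) (enc_rat _ 5767 5000000))))))) (enc_case (enc_subr 41 50 h1) (enc_case (enc_subr 79 100 h1) (enc_add (enc_sub (enc_rat _ 382637009 400000000) (enc_scaleT 3 4000000 h1)) (enc_mul (enc_norm (kf2q1_4.enc h1 h2)) (enc_norm (enc_add (enc_scaleT 1 80000 h1) (enc_rat _ 46181 40000000))))) (enc_add (enc_sub (enc_rat _ 143488829 150000000) (enc_scaleT 1 3000000 h1)) (kf2q1_69.enc h1 h2))) (enc_case (enc_subr 22 25 h1) (enc_add (enc_sub (enc_rat _ 14348887 15000000) (enc_scaleT 1 1500000 h1)) (kf2q1_69.enc h1 h2)) (enc_case (enc_subr 91 100 h1) (enc_add (enc_sub (enc_rat _ 23914819 25000000) (enc_scaleT 1 1000000 h1)) (enc_mul (enc_norm (kf2q1_4.enc h1 h2)) (enc_norm (enc_add (enc_scaleT 1 75000 h1) (enc_rat _ 34607 30000000))))) (enc_add (enc_sub (enc_rat _ 3288287567 3437500000) (enc_scaleT 271 275000000 h1)) (enc_mul (enc_norm (kf2q1_4.enc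 h1 h2)) (enc_norm (enc_add (enc_scaleT 221 27500000 h1) (enc_rat _ 796391 687500000))))))))))) (enc_case (enc_subr 63 64 h1) (enc_add (enc_add (enc_mul (enc_norm (enc_mul (enc_norm (enc_sub (kf2q1_141.enc h1 h2) (kf2q1_147.enc h1 h2))) (enc_norm (kf2q1_149.enc h1 h2)))) (enc_inv (enc_sub (kf2q1_149.enc h1 h2) (kf2q1_147.enc h1 h2)))) (enc_wR (enc_mul (enc_norm (enc_sub (enc_half (kf2q1_140.enc h1 h2)) (enc_mul (enc_scaleT 3 4 (enc_sq (enc_norm (kf2q1_140.enc h1 h2)))) (enc_inv (kf2q1_141.enc h1 h2))))) (enc_inv (enc_nat 2 (kf2q1_145.enc h1 h2)))) (kf2q1_140.enc h1 h2) (kf2q1_141.enc h1 h2) (kf2q1_145.enc h1 h2) rfl rfl rfl)) (enc_mul (kcg.enc (enc_norm (enc_sub (enc_scaleT 3 4 (kf2q1_140.enc h1 h2)) (enc_half (kf2q1_141.enc h1 h2)))) h2) (enc_norm (kf2q1_140.enc h1 h2)))) (enc_mul (cv2m.enc h1) (enc_norm (enc_case (enc_subr 397 400 h1) (enc_add (enc_add (enc_scaleT 13319161 20312500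 h1) (enc_rat _ 11231260057 32500000000)) (enc_mul (enc_norm (kf2q1_4.enc h1 h2)) (enc_norm (enc_subr 3069791 1625000000 (enc_scaleT 7703 4062500 h1))))) (enc_case (enc_subr 249 250 h1) (enc_add (enc_add (enc_scaleT 169753 350000 h1) (enc_rat _ 180250323 350000000)) (enc_mul (enc_norm (kf2q1_4.enc h1 h2)) (enc_norm (enc_sub (enc_rat _ 961 4375000) (enc_scaleT 1 4375 h1))))) (enc_add (enc_add (enc_scaleT 96527 200000 h1) (enc_rat _ 103473 200000)) (enc_mul (enc_norm (kf2q1_4.enc h1 h2)) (enc_norm (enc_subr 1 500 (enc_scaleT 1 500 h1))))))))))))⟩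
noncomputable def qsg : Fn1 := ⟨_, _, fun h1 => (enc_norm (enc_mul (enc_norm (enc_sub (enc_pnc _ 1) (gsg.enc h1))) (enc_norm (enc_subn 1 (enc_nat 2 (gsg.enc h1))))))⟩
noncomputable def l2q1_4 : Fn2 := ⟨_, _, fun h1 h2 => (enc_subr 5 128 h2)⟩
noncomputable def l2q1_132 : Fn2 := ⟨_, _, fun h1 h2 => (enc_sq (enc_norm (l2q1_4.enc h1 h2)))⟩
noncomputable def l2q1_185 : Fn2 := ⟨_, _, fun h1 h2 => (enc_sub (enc_pnc _ 1) h1)⟩
noncomputable def l2q1 : Fn2 := ⟨_, _, fun h1 h2 => (enc_norm (enc_case (enc_subr 15 16 h1) (enc_mul (cv2m.enc h1) (enc_norm (enc_case (enc_subr 79 100 h1) (enc_case (enc_subr 13 20 h1) (enc_case (enc_subr 3 5 h1) (enc_add (enc_sub (enc_rat _ 87243 100000000) (enc_scaleT 289 10000000 h1)) (enc_mul (enc_norm (l2q1_4.enc h1 h2)) (enc_norm (enc_subr 4509 10000000 (enc_scaleT 183 500000 h1))))) (enc_add (enc_sub (enc_rat _ 17553 20000000) (enc_scaleT 47 1250000 h1)) (enc_mul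 (enc_norm (l2q1_4.enc h1 h2)) (enc_norm (enc_subr 6669 10000000 (enc_scaleT 363 500000 h1)))))) (enc_case (enc_subr 7 10 h1) (enc_add (enc_sub (enc_rat _ 87947 100000000) (enc_scaleT 101 2500000 h1)) (enc_mul (enc_norm (l2q1_4.enc h1 h2)) (enc_norm (enc_subr 6747 10000000 (enc_scaleT 369 500000 h1))))) (enc_case (enc_subr 3 4 h1) (enc_add (enc_sub (enc_rat _ 87877 100000000) (enc_scaleT 197 5000000 h1)) (enc_mul (enc_norm (l2q1_4.enc h1 h2)) (enc_norm (enc_subr 1341 2000000 (enc_scaleT 183 250000 h1))))) (enc_add (enc_sub (enc_rat _ 175019 200000000) (enc_scaleT 69 2000000 h1)) (enc_mul (enc_norm (l2q1_4.enc h1 h2)) (enc_norm (enc_subr 4527 8000000 (enc_scaleT 237 400000 h1)))))))) (enc_case (enc_subr 17 20 h1) (enc_case (enc_subr 41 50 h1) (enc_add (enc_sub (enc_rat _ 3483 4000000) (enc_scaleT 29 1000000 h1)) (enc_mul (enc_norm (l2q1_4.enc h1 h2)) (enc_norm (enc_subr 4533 10000000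 (enc_scaleT 9 20000 h1))))) (enc_add (enc_sub (enc_rat _ 52163 60000000) (enc_scaleT 41 1500000 h1)) (enc_mul (enc_norm (l2q1_4.enc h1 h2)) (enc_norm (enc_subr 14009 30000000 (enc_scaleT 7 15000 h1)))))) (enc_case (enc_subr 22 25 h1) (enc_add (enc_sub (enc_rat _ 52129 60000000) (enc_scaleT 1 37500 h1)) (enc_mul (enc_norm (l2q1_4.enc h1 h2)) (enc_norm (enc_subr 2519 5000000 (enc_scaleT 51 100000 h1))))) (enc_case (enc_subr 91 100 h1) (enc_add (enc_sub (enc_rat _ 260381 300000000) (enc_scaleT 77 3000000 h1)) (enc_mul (enc_norm (l2q1_4.enc h1 h2)) (enc_norm (enc_subr 7513 15000000 (enc_scaleT 19 37500 h1))))) (enc_add (enc_add (enc_sub (enc_rat _ 5945581 6875000000) (enc_scaleT 3057 137500000 h1)) (enc_mul (enc_norm (l2q1_4.enc h1 h2)) (enc_norm (enc_subr 127884137 687500000 (enc_scaleT 2810039 13750000 h1))))) (enc_mul (l2q1_132.enc h1 h2) (enc_norm (enc_subr 9191 250000 (enc_scaleT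 101 2500 h1))))))))))) (enc_case (enc_subr 63 64 h1) (enc_sub (qsg.enc (enc_norm (l2q1_185.enc h1 h2))) (enc_mul (enc_norm (enc_nat 2 (enc_sub (l2q1_185.enc h1 h2) h2))) (enc_norm (enc_mul (esg.enc (enc_norm (l2q1_185.enc h1 h2))) (kcg.enc (enc_norm (enc_sub (enc_scaleT 3 4 (l2q1_185.enc h1 h2)) (enc_half (gsg.enc (enc_norm (l2q1_185.enc h1 h2)))))) h2))))) (enc_mul (cv2m.enc h1) (enc_norm (enc_case (enc_subr 397 400 h1) (enc_add (enc_add (enc_sub (enc_rat _ 138590493 16250000000) (enc_scaleT 693363 81250000 h1)) (enc_mul (enc_norm (l2q1_4.enc h1 h2)) (enc_norm (enc_sub (enc_rat _ 683170857 3250000000) (enc_scaleT 427839 2031250 h1))))) (enc_mul (l2q1_132.enc h1 h2) (enc_norm (enc_subr 4367 1625000 (enc_scaleT 22 8125 h1))))) (enc_case (enc_subr 249 250 h1) (enc_add (enc_sub (enc_rat _ 130801 17500000) (enc_scaleT 523 70000 h1)) (enc_mul (enc_norm (l2q1_4.enc h1 h2)) (enc_norm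 (enc_sub (enc_rat _ 9422449 70000000) (enc_scaleT 2353 17500 h1))))) (enc_add (enc_sub (enc_rat _ 41 5000) (enc_scaleT 41 5000 h1)) (enc_mul (enc_norm (l2q1_4.enc h1 h2)) (enc_norm (enc_sub (enc_rat _ 6871 40000) (enc_scaleT 6871 40000 h1))))))))))))⟩
noncomputable def cv2p : Fn1 := ⟨_, _, fun h1 => (enc_norm (enc_subr 1 2 (swg.enc h1)))⟩
noncomputable def xc22a : Fn1 := ⟨_, _, fun h1 => (cv2p.enc (yag.enc h1))⟩
noncomputable def kfc22a_3 : Fn2 := ⟨_, _, fun h1 h2 => (cv2p.enc (yag.enc h1))⟩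
noncomputable def kfc22a_5 : Fn2 := ⟨_, _, fun h1 h2 => (enc_subr 5 128 h2)⟩
noncomputable def kfc22a_65 : Fn2 := ⟨_, _, fun h1 h2 => (enc_scaleT 1 1250000 (yag.enc h1))⟩
noncomputable def kfc22a_78 : Fn2 := ⟨_, _, fun h1 h2 => (enc_scaleT 1 1000000 (yag.enc h1))⟩
noncomputable def kfc22a_81 : Fn2 := ⟨_, _, fun h1 h2 => (enc_scaleT 1 50000 (yag.enc h1))⟩
noncomputable def kfc22a_92 : Fn2 := ⟨_, _, fun h1 h2 => (enc_scaleT 3 125000 (yag.enc h1))⟩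
noncomputable def kfc22a_135 : Fn2 := ⟨_, _, fun h1 h2 => (enc_mul (enc_norm (kfc22a_5.enc h1 h2)) (enc_norm (enc_sub (enc_rat _ 35307 10000000) (kfc22a_92.enc h1 h2))))⟩
noncomputable def kfc22a_164 : Fn2 := ⟨_, _, fun h1 h2 => (enc_subn 1 (yag.enc h1))⟩
noncomputable def kfc22a_165 : Fn2 := ⟨_, _, fun h1 h2 => (gsg.enc (enc_norm (kfc22a_164.enc h1 h2)))⟩
noncomputable def kfc22a_169 : Fn2 := ⟨_, _, fun h1 h2 => (esg.enc (enc_norm (kfc22a_164.enc h1 h2)))⟩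
noncomputable def kfc22a_171 : Fn2 := ⟨_, _, fun h1 h2 => (enc_scaleT 3 2 (kfc22a_164.enc h1 h2))⟩
noncomputable def kfc22a_173 : Fn2 := ⟨_, _, fun h1 h2 => (enc_add (enc_pnc _ 1) (kfc22a_165.enc h1 h2))⟩
noncomputable def kfc22a : Fn2 := ⟨_, _, fun h1 h2 => (enc_norm (enc_case (enc_subr 65 64 (yag.enc h1)) (enc_mul (kfc22a_3.enc h1 h2) (enc_norm (enc_case (enc_subr 251 250 (yag.enc h1)) (enc_add (enc_sub (enc_rat _ 59057 50000) (enc_scaleT 9057 50000 (yag.enc h1))) (enc_mul (enc_norm (kfc22a_5.enc h1 h2)) (enc_norm (enc_subr 8013 20000 (enc_scaleT 8013 20000 (yag.enc h1)))))) (enc_case (enc_subr 403 400 (yag.enc h1)) (enc_add (enc_sub (enc_rat _ 18215751 12500000) (enc_scaleT 2851 6250 (yag.enc h1))) (enc_mul (enc_norm (kfc22a_5.enc h1 h2)) (enc_norm (enc_sub (enc_rat _ 84317 5000000) (enc_scaleT 19 1250 (yag.enc h1)))))) (enc_add (enc_sub (enc_rat _ 550072179 500000000) (enc_scaleT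 1652669 16250000 (yag.enc h1))) (enc_mul (enc_norm (kfc22a_5.enc h1 h2)) (enc_norm (enc_sub (enc_rat _ 50521387 250000000) (enc_scaleT 1617227 8125000 (yag.enc h1)))))))))) (enc_case (enc_subr 17 16 (yag.enc h1)) (enc_add (enc_sub (enc_mul (enc_norm (enc_mul (enc_norm (enc_sub (kfc22a_165.enc h1 h2) (kfc22a_171.enc h1 h2))) (enc_norm (kfc22a_173.enc h1 h2)))) (enc_inv (enc_sub (kfc22a_173.enc h1 h2) (kfc22a_171.enc h1 h2)))) (enc_wR (enc_mul (enc_norm (enc_sub (enc_half (kfc22a_164.enc h1 h2)) (enc_mul (enc_scaleT 3 4 (enc_sq (enc_norm (kfc22a_164.enc h1 h2)))) (enc_inv (kfc22a_165.enc h1 h2))))) (enc_inv (enc_nat 2 (kfc22a_169.enc h1 h2)))) (kfc22a_164.enc h1 h2) (kfc22a_165.enc h1 h2) (kfc22a_169.enc h1 h2) rfl rfl rfl)) (enc_mul (kcg.enc (enc_norm (enc_sub (enc_scaleT 3 4 (kfc22a_164.enc h1 h2)) (enc_half (kfc22a_165.enc h1 h2)))) h2) (enc_norm (kfc22a_164.enc h1 h2)))) (enc_mul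 (kfc22a_3.enc h1 h2) (enc_norm (enc_case (enc_subr 59 50 (yag.enc h1)) (enc_case (enc_subr 221 200 (yag.enc h1)) (enc_case (enc_subr 217 200 (yag.enc h1)) (enc_add (enc_add (enc_scaleT 11 7500000 (yag.enc h1)) (enc_rat _ 1452584053 1500000000)) (enc_mul (enc_norm (kfc22a_5.enc h1 h2)) (enc_norm (enc_sub (enc_rat _ 790877 225000000) (enc_scaleT 11 1125000 (yag.enc h1)))))) (enc_case (enc_subr 437 400 (yag.enc h1)) (enc_add (enc_rat _ 12104887 12500000) (enc_scaleT 8761 2500000 (kfc22a_5.enc h1 h2))) (enc_add (enc_add (kfc22a_65.enc h1 h2) (enc_rat _ 484195043 500000000)) (enc_mul (enc_norm (kfc22a_5.enc h1 h2)) (enc_norm (enc_sub (enc_rat _ 88047 25000000) (enc_scaleT 1 62500 (yag.enc h1)))))))) (enc_case (enc_subr 9 8 (yag.enc h1)) (enc_add (enc_add (kfc22a_78.enc h1 h2) (enc_rat _ 193677973 200000000)) (enc_mul (enc_norm (kfc22a_5.enc h1 h2)) (enc_norm (enc_sub (enc_rat _ 35263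 10000000) (kfc22a_81.enc h1 h2))))) (enc_case (enc_subr 23 20 (yag.enc h1)) (enc_add (enc_add (enc_scaleT 3 2500000 (yag.enc h1)) (enc_rat _ 24209741 25000000)) (enc_mul (enc_norm (kfc22a_5.enc h1 h2)) (enc_norm (enc_sub (enc_rat _ 8827 2500000) (kfc22a_92.enc h1 h2))))) (enc_add (enc_add (enc_scaleT 1 1500000 (yag.enc h1)) (enc_rat _ 72629269 75000000)) (enc_mul (enc_norm (kfc22a_5.enc h1 h2)) (enc_norm (enc_sub (enc_rat _ 35377 10000000) (enc_scaleT 3 100000 (yag.enc h1))))))))) (enc_case (enc_subr 13 10 (yag.enc h1)) (enc_case (enc_subr 121 100 (yag.enc h1)) (enc_add (enc_add (kfc22a_78.enc h1 h2) (enc_rat _ 48419493 50000000)) (enc_mul (enc_norm (kfc22a_5.enc h1 h2)) (enc_norm (enc_sub (enc_rat _ 106013 30000000) (enc_scaleT 1 37500 (yag.enc h1)))))) (enc_case (enc_subr 5 4 (yag.enc h1)) (enc_add (enc_add (enc_scaleT 3 4000000 (yag.enc h1)) (enc_rat _ 77471213 80000000)) (enc_mul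 (enc_norm (kfc22a_5.enc h1 h2)) (enc_norm (enc_sub (enc_rat _ 35257 10000000) (kfc22a_81.enc h1 h2))))) (enc_add (enc_add (kfc22a_78.enc h1 h2) (enc_rat _ 19367797 20000000)) (kfc22a_135.enc h1 h2)))) (enc_case (enc_subr 27 20 (yag.enc h1)) (enc_add (enc_add (kfc22a_65.enc h1 h2) (enc_rat _ 96839011 100000000)) (kfc22a_135.enc h1 h2)) (enc_case (enc_subr 7 5 (yag.enc h1)) (enc_add (enc_add (kfc22a_78.enc h1 h2) (enc_rat _ 12104873 12500000)) (kfc22a_135.enc h1 h2)) (enc_add (enc_add (enc_scaleT 13 10000000 (yag.enc h1)) (enc_rat _ 48419471 50000000)) (enc_mul (enc_norm (kfc22a_5.enc h1 h2)) (enc_norm (enc_sub (enc_rat _ 35601 10000000) (enc_scaleT 9 200000 (yag.enc h1)))))))))))))))⟩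
noncomputable def lc22a_3 : Fn2 := ⟨_, _, fun h1 h2 => (cv2p.enc (yag.enc h1))⟩
noncomputable def lc22a_5 : Fn2 := ⟨_, _, fun h1 h2 => (enc_subr 5 128 h2)⟩
noncomputable def lc22a_44 : Fn2 := ⟨_, _, fun h1 h2 => (enc_sq (enc_norm (lc22a_5.enc h1 h2)))⟩
noncomputable def lc22a_199 : Fn2 := ⟨_, _, fun h1 h2 => (enc_subn 1 (yag.enc h1))⟩
noncomputable def lc22a : Fn2 := ⟨_, _, fun h1 h2 => (enc_norm (enc_case (enc_subr 65 64 (yag.enc h1)) (enc_mul (lc22a_3.enc h1 h2) (enc_norm (enc_case (enc_subr 251 250 (yag.enc h1)) (enc_add (enc_subr 8321 400000 (enc_scaleT 8321 400000 (yag.enc h1))) (enc_mul (enc_norm (lc22a_5.enc h1 h2)) (enc_norm (enc_subr 21749 40000 (enc_scaleT 21749 40000 (yag.enc h1)))))) (enc_case (enc_subr 403 400 (yag.enc h1)) (enc_add (enc_subr 11337153 700000000 (enc_scaleT 227 14000 (yag.enc h1))) (enc_mul (enc_norm (lc22a_5.enc h1 h2)) (enc_norm (enc_subr 3995993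 14000000 (enc_scaleT 5013 17500 (yag.enc h1)))))) (enc_add (enc_add (enc_subr 37791649 1250000000 (enc_scaleT 1224729 40625000 (yag.enc h1))) (enc_mul (enc_norm (lc22a_5.enc h1 h2)) (enc_norm (enc_subr 33511589 50000000 (enc_scaleT 135768 203125 (yag.enc h1)))))) (enc_mul (lc22a_44.enc h1 h2) (enc_norm (enc_sub (enc_rat _ 2077 250000) (enc_scaleT 67 8125 (yag.enc h1)))))))))) (enc_case (enc_subr 17 16 (yag.enc h1)) (enc_sub (qsg.enc (enc_norm (lc22a_199.enc h1 h2))) (enc_mul (enc_norm (enc_nat 2 (enc_sub (lc22a_199.enc h1 h2) h2))) (enc_norm (enc_mul (esg.enc (enc_norm (lc22a_199.enc h1 h2))) (kcg.enc (enc_norm (enc_sub (enc_scaleT 3 4 (lc22a_199.enc h1 h2)) (enc_half (gsg.enc (enc_norm (lc22a_199.enc h1 h2)))))) h2))))) (enc_mul (lc22a_3.enc h1 h2) (enc_norm (enc_case (enc_subr 59 50 (yag.enc h1)) (enc_case (enc_subr 221 200 (yag.enc h1)) (enc_case (enc_subr 217 200 (yag.enc h1))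 (enc_add (enc_add (enc_add (enc_scaleT 1701 25000000 (yag.enc h1)) (enc_rat _ 12322883 5000000000)) (enc_mul (enc_norm (lc22a_5.enc h1 h2)) (enc_norm (enc_sub (enc_rat _ 457455623 562500000) (enc_scaleT 4216663 5625000 (yag.enc h1)))))) (enc_mul (lc22a_44.enc h1 h2) (enc_norm (enc_sub (enc_rat _ 36239 225000) (enc_scaleT 167 1125 (yag.enc h1)))))) (enc_case (enc_subr 437 400 (yag.enc h1)) (enc_add (enc_add (enc_scaleT 3 62500 (yag.enc h1)) (enc_rat _ 31079 12500000)) (enc_mul (enc_norm (lc22a_5.enc h1 h2)) (enc_norm (enc_sub (enc_rat _ 2449 7500000) (enc_scaleT 29 75000 (yag.enc h1)))))) (enc_add (enc_add (enc_scaleT 7 156250 (yag.enc h1)) (enc_rat _ 311227 125000000)) (enc_mul (enc_norm (lc22a_5.enc h1 h2)) (enc_norm (enc_sub (enc_rat _ 32787 50000000) (enc_scaleT 43 62500 (yag.enc h1)))))))) (enc_case (enc_subr 9 8 (yag.enc h1)) (enc_add (enc_add (enc_scaleT 49 1000000 (yag.enc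 h1)) (enc_rat _ 99407 40000000)) (enc_mul (enc_norm (lc22a_5.enc h1 h2)) (enc_norm (enc_sub (enc_rat _ 22441 20000000) (enc_scaleT 111 100000 (yag.enc h1)))))) (enc_case (enc_subr 23 20 (yag.enc h1)) (enc_add (enc_add (enc_scaleT 61 1250000 (yag.enc h1)) (enc_rat _ 12427 5000000)) (enc_mul (enc_norm (lc22a_5.enc h1 h2)) (enc_norm (enc_sub (enc_rat _ 14753 10000000) (enc_scaleT 89 62500 (yag.enc h1)))))) (enc_add (enc_add (enc_scaleT 59 1500000 (yag.enc h1)) (enc_rat _ 374443 150000000)) (enc_mul (enc_norm (lc22a_5.enc h1 h2)) (enc_norm (enc_sub (enc_rat _ 27983 15000000) (enc_scaleT 529 300000 (yag.enc h1))))))))) (enc_case (enc_subr 13 10 (yag.enc h1)) (enc_case (enc_subr 121 100 (yag.enc h1)) (enc_add (enc_add (enc_scaleT 47 3000000 (yag.enc h1)) (enc_rat _ 47329 18750000)) (enc_mul (enc_norm (lc22a_5.enc h1 h2)) (enc_norm (enc_sub (enc_rat _ 2521 1500000) (enc_scaleT 241 150000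 (yag.enc h1)))))) (enc_case (enc_subr 5 4 (yag.enc h1)) (enc_add (enc_add (enc_scaleT 9 500000 (yag.enc h1)) (enc_rat _ 252139 100000000)) (enc_mul (enc_norm (lc22a_5.enc h1 h2)) (enc_norm (enc_sub (enc_rat _ 27281 20000000) (enc_scaleT 269 200000 (yag.enc h1)))))) (enc_add (enc_add (enc_scaleT 673 1250000 (yag.enc h1)) (enc_rat _ 187089 100000000)) (enc_mul (enc_norm (lc22a_5.enc h1 h2)) (enc_norm (enc_sub (enc_rat _ 17503 10000000) (enc_scaleT 827 500000 (yag.enc h1)))))))) (enc_case (enc_subr 27 20 (yag.enc h1)) (enc_add (enc_add (enc_scaleT 223 250000 (yag.enc h1)) (enc_rat _ 141121 100000000)) (enc_mul (enc_norm (lc22a_5.enc h1 h2)) (enc_norm (enc_sub (enc_rat _ 17633 10000000) (enc_scaleT 26 15625 (yag.enc h1)))))) (enc_case (enc_subr 7 5 (yag.enc h1)) (enc_add (enc_add (enc_scaleT 5741 5000000 (yag.enc h1)) (enc_rat _ 53267 50000000)) (enc_mul (enc_norm (lc22a_5.enc h1 h2))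 (enc_norm (enc_sub (enc_rat _ 17741 10000000) (enc_scaleT 209 125000 (yag.enc h1)))))) (enc_add (enc_add (enc_scaleT 13233 10000000 (yag.enc h1)) (enc_rat _ 4101 5000000)) (enc_mul (enc_norm (lc22a_5.enc h1 h2)) (enc_norm (enc_sub (enc_rat _ 33659 10000000) (enc_scaleT 2809 1000000 (yag.enc h1)))))))))))))))⟩
noncomputable def xc22b : Fn1 := ⟨_, _, fun h1 => (cv2p.enc h1)⟩
noncomputable def kfc22b_5 : Fn2 := ⟨_, _, fun h1 h2 => (enc_subr 5 128 h2)⟩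
noncomputable def kfc22b_64 : Fn2 := ⟨_, _, fun h1 h2 => (enc_scaleT 1 1250000 h1)⟩
noncomputable def kfc22b_77 : Fn2 := ⟨_, _, fun h1 h2 => (enc_scaleT 1 1000000 h1)⟩
noncomputable def kfc22b_80 : Fn2 := ⟨_, _, fun h1 h2 => (enc_scaleT 1 50000 h1)⟩
noncomputable def kfc22b_91 : Fn2 := ⟨_, _, fun h1 h2 => (enc_scaleT 3 125000 h1)⟩
noncomputable def kfc22b_134 : Fn2 := ⟨_, _, fun h1 h2 => (enc_mul (enc_norm (kfc22b_5.enc h1 h2)) (enc_norm (enc_sub (enc_rat _ 35307 10000000) (kfc22b_91.enc h1 h2))))⟩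
noncomputable def kfc22b_163 : Fn2 := ⟨_, _, fun h1 h2 => (enc_subn 1 h1)⟩
noncomputable def kfc22b_164 : Fn2 := ⟨_, _, fun h1 h2 => (gsg.enc (enc_norm (kfc22b_163.enc h1 h2)))⟩
noncomputable def kfc22b_168 : Fn2 := ⟨_, _, fun h1 h2 => (esg.enc (enc_norm (kfc22b_163.enc h1 h2)))⟩
noncomputable def kfc22b_170 : Fn2 := ⟨_, _, fun h1 h2 => (enc_scaleT 3 2 (kfc22b_163.enc h1 h2))⟩
noncomputable def kfc22b_172 : Fn2 := ⟨_, _, fun h1 h2 => (enc_add (enc_pnc _ 1) (kfc22b_164.enc h1 h2))⟩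
noncomputable def kfc22b : Fn2 := ⟨_, _, fun h1 h2 => (enc_norm (enc_case (enc_subr 65 64 h1) (enc_mul (cv2p.enc h1) (enc_norm (enc_case (enc_subr 251 250 h1) (enc_add (enc_sub (enc_rat _ 59057 50000) (enc_scaleT 9057 50000 h1)) (enc_mul (enc_norm (kfc22b_5.enc h1 h2)) (enc_norm (enc_subr 8013 20000 (enc_scaleT 8013 20000 h1))))) (enc_case (enc_subr 403 400 h1) (enc_add (enc_sub (enc_rat _ 18215751 12500000) (enc_scaleT 2851 6250 h1)) (enc_mul (enc_norm (kfc22b_5.enc h1 h2)) (enc_norm (enc_sub (enc_rat _ 84317 5000000) (enc_scaleT 19 1250 h1))))) (enc_add (enc_sub (enc_rat _ 550072179 500000000) (enc_scaleT 1652669 16250000 h1)) (enc_mul (enc_norm (kfc22b_5.enc h1 h2)) (enc_norm (enc_sub (enc_rat _ 50521387 250000000) (enc_scaleT 1617227 8125000 h1))))))))) (enc_case (enc_subr 17 16 h1) (enc_add (enc_sub (enc_mul (enc_norm (enc_mul (enc_norm (enc_sub (kfc22b_164.enc h1 h2) (kfc22b_170.enc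 h1 h2))) (enc_norm (kfc22b_172.enc h1 h2)))) (enc_inv (enc_sub (kfc22b_172.enc h1 h2) (kfc22b_170.enc h1 h2)))) (enc_wR (enc_mul (enc_norm (enc_sub (enc_half (kfc22b_163.enc h1 h2)) (enc_mul (enc_scaleT 3 4 (enc_sq (enc_norm (kfc22b_163.enc h1 h2)))) (enc_inv (kfc22b_164.enc h1 h2))))) (enc_inv (enc_nat 2 (kfc22b_168.enc h1 h2)))) (kfc22b_163.enc h1 h2) (kfc22b_164.enc h1 h2) (kfc22b_168.enc h1 h2) rfl rfl rfl)) (enc_mul (kcg.enc (enc_norm (enc_sub (enc_scaleT 3 4 (kfc22b_163.enc h1 h2)) (enc_half (kfc22b_164.enc h1 h2)))) h2) (enc_norm (kfc22b_163.enc h1 h2)))) (enc_mul (cv2p.enc h1) (enc_norm (enc_case (enc_subr 59 50 h1) (enc_case (enc_subr 221 200 h1) (enc_case (enc_subr 217 200 h1) (enc_add (enc_add (enc_scaleT 11 7500000 h1) (enc_rat _ 1452584053 1500000000)) (enc_mul (enc_norm (kfc22b_5.enc h1 h2)) (enc_norm (enc_sub (enc_rat _ 790877 225000000) (enc_scaleT 11 1125000 h1)))))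 (enc_case (enc_subr 437 400 h1) (enc_add (enc_rat _ 12104887 12500000) (enc_scaleT 8761 2500000 (kfc22b_5.enc h1 h2))) (enc_add (enc_add (kfc22b_64.enc h1 h2) (enc_rat _ 484195043 500000000)) (enc_mul (enc_norm (kfc22b_5.enc h1 h2)) (enc_norm (enc_sub (enc_rat _ 88047 25000000) (enc_scaleT 1 62500 h1))))))) (enc_case (enc_subr 9 8 h1) (enc_add (enc_add (kfc22b_77.enc h1 h2) (enc_rat _ 193677973 200000000)) (enc_mul (enc_norm (kfc22b_5.enc h1 h2)) (enc_norm (enc_sub (enc_rat _ 35263 10000000) (kfc22b_80.enc h1 h2))))) (enc_case (enc_subr 23 20 h1) (enc_add (enc_add (enc_scaleT 3 2500000 h1) (enc_rat _ 24209741 25000000)) (enc_mul (enc_norm (kfc22b_5.enc h1 h2)) (enc_norm (enc_sub (enc_rat _ 8827 2500000) (kfc22b_91.enc h1 h2))))) (enc_add (enc_add (enc_scaleT 1 1500000 h1) (enc_rat _ 72629269 75000000)) (enc_mul (enc_norm (kfc22b_5.enc h1 h2)) (enc_norm (enc_sub (enc_rat _ 35377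 10000000) (enc_scaleT 3 100000 h1)))))))) (enc_case (enc_subr 13 10 h1) (enc_case (enc_subr 121 100 h1) (enc_add (enc_add (kfc22b_77.enc h1 h2) (enc_rat _ 48419493 50000000)) (enc_mul (enc_norm (kfc22b_5.enc h1 h2)) (enc_norm (enc_sub (enc_rat _ 106013 30000000) (enc_scaleT 1 37500 h1))))) (enc_case (enc_subr 5 4 h1) (enc_add (enc_add (enc_scaleT 3 4000000 h1) (enc_rat _ 77471213 80000000)) (enc_mul (enc_norm (kfc22b_5.enc h1 h2)) (enc_norm (enc_sub (enc_rat _ 35257 10000000) (kfc22b_80.enc h1 h2))))) (enc_add (enc_add (kfc22b_77.enc h1 h2) (enc_rat _ 19367797 20000000)) (kfc22b_134.enc h1 h2)))) (enc_case (enc_subr 27 20 h1) (enc_add (enc_add (kfc22b_64.enc h1 h2) (enc_rat _ 96839011 100000000)) (kfc22b_134.enc h1 h2)) (enc_case (enc_subr 7 5 h1) (enc_add (enc_add (kfc22b_77.enc h1 h2) (enc_rat _ 12104873 12500000)) (kfc22b_134.enc h1 h2)) (enc_add (enc_add (enc_scaleT 13 10000000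 h1) (enc_rat _ 48419471 50000000)) (enc_mul (enc_norm (kfc22b_5.enc h1 h2)) (enc_norm (enc_sub (enc_rat _ 35601 10000000) (enc_scaleT 9 200000 h1))))))))))))))⟩
noncomputable def lc22b_5 : Fn2 := ⟨_, _, fun h1 h2 => (enc_subr 5 128 h2)⟩
noncomputable def lc22b_44 : Fn2 := ⟨_, _, fun h1 h2 => (enc_sq (enc_norm (lc22b_5.enc h1 h2)))⟩
noncomputable def lc22b_199 : Fn2 := ⟨_, _, fun h1 h2 => (enc_subn 1 h1)⟩
noncomputable def lc22b : Fn2 := ⟨_, _, fun h1 h2 => (enc_norm (enc_case (enc_subr 65 64 h1) (enc_mul (cv2p.enc h1) (enc_norm (enc_case (enc_subr 251 250 h1) (enc_add (enc_subr 8321 400000 (enc_scaleT 8321 400000 h1)) (enc_mul (enc_norm (lc22b_5.enc h1 h2)) (enc_norm (enc_subr 21749 40000 (enc_scaleT 21749 40000 h1))))) (enc_case (enc_subr 403 400 h1) (enc_add (enc_subr 11337153 700000000 (enc_scaleT 227 14000 h1)) (enc_mul (enc_norm (lc22b_5.enc h1 h2)) (enc_norm (enc_subr 3995993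 14000000 (enc_scaleT 5013 17500 h1))))) (enc_add (enc_add (enc_subr 37791649 1250000000 (enc_scaleT 1224729 40625000 h1)) (enc_mul (enc_norm (lc22b_5.enc h1 h2)) (enc_norm (enc_subr 33511589 50000000 (enc_scaleT 135768 203125 h1))))) (enc_mul (lc22b_44.enc h1 h2) (enc_norm (enc_sub (enc_rat _ 2077 250000) (enc_scaleT 67 8125 h1))))))))) (enc_case (enc_subr 17 16 h1) (enc_sub (qsg.enc (enc_norm (lc22b_199.enc h1 h2))) (enc_mul (enc_norm (enc_nat 2 (enc_sub (lc22b_199.enc h1 h2) h2))) (enc_norm (enc_mul (esg.enc (enc_norm (lc22b_199.enc h1 h2))) (kcg.enc (enc_norm (enc_sub (enc_scaleT 3 4 (lc22b_199.enc h1 h2)) (enc_half (gsg.enc (enc_norm (lc22b_199.enc h1 h2)))))) h2))))) (enc_mul (cv2p.enc h1) (enc_norm (enc_case (enc_subr 59 50 h1) (enc_case (enc_subr 221 200 h1) (enc_case (enc_subr 217 200 h1) (enc_add (enc_add (enc_add (enc_scaleT 1701 25000000 h1) (enc_rat _ 12322883 5000000000))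 (enc_mul (enc_norm (lc22b_5.enc h1 h2)) (enc_norm (enc_sub (enc_rat _ 457455623 562500000) (enc_scaleT 4216663 5625000 h1))))) (enc_mul (lc22b_44.enc h1 h2) (enc_norm (enc_sub (enc_rat _ 36239 225000) (enc_scaleT 167 1125 h1))))) (enc_case (enc_subr 437 400 h1) (enc_add (enc_add (enc_scaleT 3 62500 h1) (enc_rat _ 31079 12500000)) (enc_mul (enc_norm (lc22b_5.enc h1 h2)) (enc_norm (enc_sub (enc_rat _ 2449 7500000) (enc_scaleT 29 75000 h1))))) (enc_add (enc_add (enc_scaleT 7 156250 h1) (enc_rat _ 311227 125000000)) (enc_mul (enc_norm (lc22b_5.enc h1 h2)) (enc_norm (enc_sub (enc_rat _ 32787 50000000) (enc_scaleT 43 62500 h1))))))) (enc_case (enc_subr 9 8 h1) (enc_add (enc_add (enc_scaleT 49 1000000 h1) (enc_rat _ 99407 40000000)) (enc_mul (enc_norm (lc22b_5.enc h1 h2)) (enc_norm (enc_sub (enc_rat _ 22441 20000000) (enc_scaleT 111 100000 h1))))) (enc_case (enc_subr 23 20 h1) (enc_add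 (enc_add (enc_scaleT 61 1250000 h1) (enc_rat _ 12427 5000000)) (enc_mul (enc_norm (lc22b_5.enc h1 h2)) (enc_norm (enc_sub (enc_rat _ 14753 10000000) (enc_scaleT 89 62500 h1))))) (enc_add (enc_add (enc_scaleT 59 1500000 h1) (enc_rat _ 374443 150000000)) (enc_mul (enc_norm (lc22b_5.enc h1 h2)) (enc_norm (enc_sub (enc_rat _ 27983 15000000) (enc_scaleT 529 300000 h1)))))))) (enc_case (enc_subr 13 10 h1) (enc_case (enc_subr 121 100 h1) (enc_add (enc_add (enc_scaleT 47 3000000 h1) (enc_rat _ 47329 18750000)) (enc_mul (enc_norm (lc22b_5.enc h1 h2)) (enc_norm (enc_sub (enc_rat _ 2521 1500000) (enc_scaleT 241 150000 h1))))) (enc_case (enc_subr 5 4 h1) (enc_add (enc_add (enc_scaleT 9 500000 h1) (enc_rat _ 252139 100000000)) (enc_mul (enc_norm (lc22b_5.enc h1 h2)) (enc_norm (enc_sub (enc_rat _ 27281 20000000) (enc_scaleT 269 200000 h1))))) (enc_add (enc_add (enc_scaleT 673 1250000 h1) (enc_rat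 _ 187089 100000000)) (enc_mul (enc_norm (lc22b_5.enc h1 h2)) (enc_norm (enc_sub (enc_rat _ 17503 10000000) (enc_scaleT 827 500000 h1))))))) (enc_case (enc_subr 27 20 h1) (enc_add (enc_add (enc_scaleT 223 250000 h1) (enc_rat _ 141121 100000000)) (enc_mul (enc_norm (lc22b_5.enc h1 h2)) (enc_norm (enc_sub (enc_rat _ 17633 10000000) (enc_scaleT 26 15625 h1))))) (enc_case (enc_subr 7 5 h1) (enc_add (enc_add (enc_scaleT 5741 5000000 h1) (enc_rat _ 53267 50000000)) (enc_mul (enc_norm (lc22b_5.enc h1 h2)) (enc_norm (enc_sub (enc_rat _ 17741 10000000) (enc_scaleT 209 125000 h1))))) (enc_add (enc_add (enc_scaleT 13233 10000000 h1) (enc_rat _ 4101 5000000)) (enc_mul (enc_norm (lc22b_5.enc h1 h2)) (enc_norm (enc_sub (enc_rat _ 33659 10000000) (enc_scaleT 2809 1000000 h1))))))))))))))⟩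
noncomputable def cv2r : Fn1 := ⟨_, _, fun h1 => (enc_norm (enc_subr 1 2 (swg.enc h1)))⟩
noncomputable def bf2q3_3 : Fn2 := ⟨_, _, fun h1 h2 => (enc_subr 5 128 h2)⟩
noncomputable def bf2q3_38 : Fn2 := ⟨_, _, fun h1 h2 => (enc_subr 173984031 100000000 (enc_neg (enc_scaleT 1 10000000 h1)))⟩
noncomputable def bf2q3 : Fn2 := ⟨_, _, fun h1 h2 => (enc_norm (enc_case (enc_subr 9 5 h1) (enc_case (enc_subr 33 20 h1) (enc_add (enc_subr 86992013 50000000 (enc_neg (enc_scaleT 1 7500000 h1))) (enc_mul (enc_norm (bf2q3_3.enc h1 h2)) (enc_norm (enc_subr 178913201 5000000 (enc_neg (enc_scaleT 1 1500000 h1)))))) (enc_sub (enc_subr 173984037 100000000 (enc_neg (enc_scaleT 1 15000000 h1))) (enc_scaleT 357826413 10000000 (bf2q3_3.enc h1 h2)))) (enc_case (enc_subr 19 10 h1) (enc_add (bf2q3_38.enc h1 h2) (enc_mul (enc_norm (bf2q3_3.enc h1 h2)) (enc_norm (enc_subr 71565279 2000000 (enc_neg (enc_scaleT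 1 1000000 h1)))))) (enc_add (bf2q3_38.enc h1 h2) (enc_mul (enc_norm (bf2q3_3.enc h1 h2)) (enc_norm (enc_subr 44728297 1250000 (enc_neg (enc_scaleT 1 500000 h1)))))))))⟩
noncomputable def kf2q3 : Fn2 := ⟨_, _, fun h1 h2 => (enc_norm (enc_mul (cv2r.enc h1) (bf2q3.enc h1 h2)))⟩
noncomputable def bx2q3_3 : Fn2 := ⟨_, _, fun h1 h2 => (enc_subr 5 128 h2)⟩
noncomputable def bx2q3 : Fn2 := ⟨_, _, fun h1 h2 => (enc_norm (enc_case (enc_subr 9 5 h1) (enc_case (enc_subr 33 20 h1) (enc_add (enc_subr 591199 12500000 (enc_scaleT 1 300000 h1)) (enc_mul (enc_norm (bx2q3_3.enc h1 h2)) (enc_norm (enc_subr 25766317 5000000 (enc_scaleT 11 750000 h1))))) (enc_add (enc_subr 4729361 100000000 (enc_scaleT 29 15000000 h1)) (enc_mul (enc_norm (bx2q3_3.enc h1 h2)) (enc_norm (enc_subr 51531567 10000000 (enc_neg (enc_scaleT 1 20000 h1))))))) (enc_case (enc_subr 19 10 h1) (enc_add (enc_subr 4729139 100000000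 (enc_scaleT 7 10000000 h1)) (enc_mul (enc_norm (bx2q3_3.enc h1 h2)) (enc_norm (enc_subr 51532539 10000000 (enc_scaleT 1 250000 h1))))) (enc_add (enc_subr 2364541 50000000 (enc_scaleT 1 2500000 h1)) (enc_mul (enc_norm (bx2q3_3.enc h1 h2)) (enc_norm (enc_subr 51532729 10000000 (enc_scaleT 7 500000 h1))))))))⟩
noncomputable def l2q3 : Fn2 := ⟨_, _, fun h1 h2 => (enc_norm (enc_mul (cv2r.enc h1) (bx2q3.enc h1 h2)))⟩
noncomputable def c3g : Fn1 := ⟨_, _, fun h1 => (enc_sqrtg (enc_sub (enc_pnc _ 3) (enc_scaleT 3 4 (enc_sq h1))))⟩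
noncomputable def cv3m : Fn1 := ⟨_, _, fun h1 => (enc_norm (enc_add (enc_half (enc_add (swg.enc h1) (enc_rat _ 1 2))) (enc_half (c3g.enc h1))))⟩
noncomputable def bf3q0_3 : Fn2 := ⟨_, _, fun h1 h2 => (enc_subr 5 128 h2)⟩
noncomputable def bf3q0 : Fn2 := ⟨_, _, fun h1 h2 => (enc_norm (enc_case (enc_subr 1 5 h1) (enc_case (enc_subr 1 10 h1) (enc_add (enc_subr 8239613 25000000 (enc_neg (enc_scaleT 3 2000000 h1))) (enc_mul (enc_norm (bf3q0_3.enc h1 h2)) (enc_norm (enc_add (enc_scaleT 11 1000000 h1) (enc_rat _ 50915853 500000))))) (enc_add (enc_subr 32958451 100000000 (enc_neg (enc_scaleT 1 625000 h1))) (enc_mul (enc_norm (bf3q0_3.enc h1 h2)) (enc_norm (enc_add (enc_scaleT 7 1000000 h1) (enc_rat _ 127289633 1250000)))))) (enc_case (enc_subr 7 20 h1) (enc_add (enc_subr 98875357 300000000 (enc_neg (enc_scaleT 23 15000000 h1))) (enc_mul (enc_norm (bf3q0_3.enc h1 h2)) (enc_norm (enc_add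 (enc_scaleT 11 1500000 h1) (enc_rat _ 305495119 3000000))))) (enc_add (enc_subr 128744 390625 (enc_neg (enc_scaleT 3 2500000 h1))) (enc_mul (enc_norm (bf3q0_3.enc h1 h2)) (enc_norm (enc_add (enc_scaleT 1 150000 h1) (enc_rat _ 3054951197 30000000))))))))⟩
noncomputable def kf3q0 : Fn2 := ⟨_, _, fun h1 h2 => (enc_norm (enc_mul (cv3m.enc h1) (bf3q0.enc h1 h2)))⟩
noncomputable def bx3q0_3 : Fn2 := ⟨_, _, fun h1 h2 => (enc_subr 5 128 h2)⟩
noncomputable def bx3q0 : Fn2 := ⟨_, _, fun h1 h2 => (enc_norm (enc_case (enc_subr 1 5 h1) (enc_case (enc_subr 1 10 h1) (enc_add (enc_add (enc_scaleT 639 10000000 h1) (enc_rat _ 473917 25000000)) (enc_mul (enc_norm (bx3q0_3.enc h1 h2)) (enc_norm (enc_subr 48157929 10000000 (enc_neg (enc_scaleT 81 125000 h1)))))) (enc_add (enc_add (enc_scaleT 181 2500000 h1) (enc_rat _ 1895583 100000000)) (enc_mul (enc_norm (bx3q0_3.enc h1 h2)) (enc_norm (enc_subr 48157677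 10000000 (enc_neg (enc_scaleT 9 10000 h1))))))) (enc_case (enc_subr 7 20 h1) (enc_add (enc_add (enc_scaleT 239 3000000 h1) (enc_rat _ 5686313 300000000)) (enc_mul (enc_norm (bx3q0_3.enc h1 h2)) (enc_norm (enc_subr 144471391 30000000 (enc_neg (enc_scaleT 11 9375 h1)))))) (enc_add (enc_add (enc_scaleT 517 7500000 h1) (enc_rat _ 71093 3750000)) (enc_mul (enc_norm (bx3q0_3.enc h1 h2)) (enc_norm (enc_subr 48157639 10000000 (enc_neg (enc_scaleT 257 250000 h1)))))))))⟩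
noncomputable def l3q0 : Fn2 := ⟨_, _, fun h1 h2 => (enc_norm (enc_mul (cv3m.enc h1) (bx3q0.enc h1 h2)))⟩
noncomputable def bf3q1_3 : Fn2 := ⟨_, _, fun h1 h2 => (enc_subr 5 128 h2)⟩
noncomputable def bf3q1 : Fn2 := ⟨_, _, fun h1 h2 => (enc_norm (enc_case (enc_subr 22 25 h1) (enc_case (enc_subr 3 4 h1) (enc_case (enc_subr 13 20 h1) (enc_case (enc_subr 3 5 h1) (enc_add (enc_add (enc_scaleT 3 2000000 h1) (enc_rat _ 49379431 50000000)) (enc_mul (enc_norm (bf3q1_3.enc h1 h2)) (enc_norm (enc_subr 21777 10000000 (enc_scaleT 1 12500 h1))))) (enc_add (enc_add (enc_scaleT 1 500000 h1) (enc_rat _ 6172427 6250000)) (enc_mul (enc_norm (bf3q1_3.enc h1 h2)) (enc_norm (enc_subr 21681 10000000 (enc_scaleT 1 15625 h1)))))) (enc_case (enc_subr 7 10 h1) (enc_add (enc_add (enc_scaleT 11 5000000 h1) (enc_rat _ 98758819 100000000)) (enc_mul (enc_norm (bf3q1_3.enc h1 h2)) (enc_norm (enc_subr 10847 5000000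 (enc_scaleT 33 500000 h1))))) (enc_add (enc_add (enc_scaleT 17 5000000 h1) (enc_rat _ 19751747 20000000)) (enc_mul (enc_norm (bf3q1_3.enc h1 h2)) (enc_norm (enc_subr 10861 5000000 (enc_scaleT 7 100000 h1))))))) (enc_case (enc_subr 41 50 h1) (enc_case (enc_subr 79 100 h1) (enc_add (enc_add (enc_scaleT 21 4000000 h1) (enc_rat _ 79006877 80000000)) (enc_mul (enc_norm (bf3q1_3.enc h1 h2)) (enc_norm (enc_subr 86213 40000000 (enc_scaleT 19 400000 h1))))) (enc_add (enc_add (enc_scaleT 11 1000000 h1) (enc_rat _ 49379071 50000000)) (enc_mul (enc_norm (bf3q1_3.enc h1 h2)) (enc_norm (enc_subr 16081 7500000 (enc_scaleT 1 30000 h1)))))) (enc_case (enc_subr 17 20 h1) (enc_add (enc_add (enc_scaleT 79 3000000 h1) (enc_rat _ 148135327 150000000)) (enc_mul (enc_norm (bf3q1_3.enc h1 h2)) (enc_norm (enc_subr 401 187500 (enc_scaleT 1 37500 h1))))) (enc_add (enc_add (enc_scaleT 1 15000 h1) (enc_rat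 _ 296260369 300000000)) (enc_mul (enc_norm (bf3q1_3.enc h1 h2)) (enc_norm (enc_subr 4283 2000000 (enc_scaleT 3 100000 h1)))))))) (enc_case (enc_subr 31 32 h1) (enc_case (enc_subr 15 16 h1) (enc_case (enc_subr 91 100 h1) (enc_add (enc_add (enc_scaleT 521 3000000 h1) (enc_rat _ 296232121 300000000)) (enc_mul (enc_norm (bf3q1_3.enc h1 h2)) (enc_norm (enc_subr 21503 10000000 (enc_scaleT 1 25000 h1))))) (enc_add (enc_add (enc_scaleT 633 1375000 h1) (enc_rat _ 54294873 55000000)) (enc_mul (enc_norm (bf3q1_3.enc h1 h2)) (enc_norm (enc_subr 23687 10000000 (enc_scaleT 7 25000 h1)))))) (enc_case (enc_subr 191 200 h1) (enc_add (enc_add (enc_scaleT 21 15625 h1) (enc_rat _ 9863511 10000000)) (enc_mul (enc_norm (bf3q1_3.enc h1 h2)) (enc_norm (enc_subr 33031 5000000 (enc_scaleT 3 625 h1))))) (enc_add (enc_add (enc_scaleT 284919 1375000 h1) (enc_rat _ 434359983 550000000)) (enc_mul (enc_norm (bf3q1_3.enc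 h1 h2)) (enc_norm (enc_subr 2792479 55000000 (enc_scaleT 7019 137500 h1))))))) (enc_case (enc_subr 197 200 h1) (enc_case (enc_subr 391 400 h1) (enc_add (enc_add (enc_scaleT 252913 875000 h1) (enc_rat _ 124332773 175000000)) (enc_mul (enc_norm (bf3q1_3.enc h1 h2)) (enc_norm (enc_subr 427437 8750000 (enc_scaleT 4293 87500 h1))))) (enc_add (enc_add (enc_scaleT 114151 375000 h1) (enc_rat _ 1043189 1500000)) (enc_mul (enc_norm (bf3q1_3.enc h1 h2)) (enc_norm (enc_subr 410467 10000000 (enc_scaleT 1027 25000 h1)))))) (enc_case (enc_subr 397 400 h1) (enc_add (enc_add (enc_scaleT 78279 250000 h1) (enc_rat _ 6868767 10000000)) (enc_mul (enc_norm (bf3q1_3.enc h1 h2)) (enc_norm (enc_subr 398253 10000000 (enc_scaleT 249 6250 h1))))) (enc_add (enc_add (enc_scaleT 235567 750000 h1) (enc_rat _ 514433 750000)) (enc_mul (enc_norm (bf3q1_3.enc h1 h2)) (enc_norm (enc_subr 947 25000 (enc_scaleT 947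 25000 h1))))))))))⟩
noncomputable def kf3q1 : Fn2 := ⟨_, _, fun h1 h2 => (enc_norm (enc_mul (cv3m.enc h1) (bf3q1.enc h1 h2)))⟩
noncomputable def bx3q1_3 : Fn2 := ⟨_, _, fun h1 h2 => (enc_subr 5 128 h2)⟩
noncomputable def bx3q1_87 : Fn2 := ⟨_, _, fun h1 h2 => (enc_scaleT 217 300000 h1)⟩
noncomputable def bx3q1 : Fn2 := ⟨_, _, fun h1 h2 => (enc_norm (enc_case (enc_subr 22 25 h1) (enc_case (enc_subr 3 4 h1) (enc_case (enc_subr 13 20 h1) (enc_case (enc_subr 3 5 h1) (enc_add (enc_sub (enc_rat _ 41059 20000000) (enc_scaleT 8293 5000000 h1)) (enc_mul (enc_norm (bx3q1_3.enc h1 h2)) (enc_norm (enc_add (enc_scaleT 719 200000 h1) (enc_rat _ 5517 500000))))) (enc_add (enc_sub (enc_rat _ 40999 20000000) (enc_scaleT 2067 1250000 h1)) (enc_mul (enc_norm (bx3q1_3.enc h1 h2)) (enc_norm (enc_add (enc_scaleT 1127 500000 h1) (enc_rat _ 59193 5000000)))))) (enc_case (enc_subr 7 10 h1) (enc_add (enc_sub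 (enc_rat _ 101737 50000000) (enc_scaleT 8151 5000000 h1)) (enc_mul (enc_norm (bx3q1_3.enc h1 h2)) (enc_norm (enc_add (enc_scaleT 951 500000 h1) (enc_rat _ 60337 5000000))))) (enc_add (enc_sub (enc_rat _ 98447 50000000) (enc_scaleT 7681 5000000 h1)) (enc_mul (enc_norm (bx3q1_3.enc h1 h2)) (enc_norm (enc_add (enc_scaleT 201 125000 h1) (enc_rat _ 30683 2500000))))))) (enc_case (enc_subr 41 50 h1) (enc_case (enc_subr 79 100 h1) (enc_add (enc_sub (enc_rat _ 700291 400000000) (enc_scaleT 4981 4000000 h1)) (enc_mul (enc_norm (bx3q1_3.enc h1 h2)) (enc_norm (enc_add (enc_scaleT 511 400000 h1) (enc_rat _ 500843 40000000))))) (enc_add (enc_sub (enc_rat _ 111283 75000000) (enc_scaleT 1361 1500000 h1)) (enc_mul (enc_norm (bx3q1_3.enc h1 h2)) (enc_norm (enc_add (enc_scaleT 3 3125 h1) (enc_rat _ 127719 10000000)))))) (enc_case (enc_subr 17 20 h1) (enc_add (enc_sub (enc_rat _ 40979 30000000) (enc_scaleT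 2291 3000000 h1)) (enc_mul (enc_norm (bx3q1_3.enc h1 h2)) (enc_norm (enc_add (enc_scaleT 99 100000 h1) (enc_rat _ 127473 10000000))))) (enc_add (enc_sub (enc_rat _ 79901 60000000) (bx3q1_87.enc h1 h2)) (enc_mul (enc_norm (bx3q1_3.enc h1 h2)) (enc_norm (enc_add (bx3q1_87.enc h1 h2) (enc_rat _ 389219 30000000)))))))) (enc_case (enc_subr 31 32 h1) (enc_case (enc_subr 15 16 h1) (enc_case (enc_subr 91 100 h1) (enc_add (enc_sub (enc_rat _ 17089 12000000) (enc_scaleT 497 600000 h1)) (enc_mul (enc_norm (bx3q1_3.enc h1 h2)) (enc_norm (enc_add (enc_scaleT 23 75000 h1) (enc_rat _ 400219 30000000))))) (enc_add (enc_sub (enc_rat _ 203499 110000000) (enc_scaleT 713 550000 h1)) (enc_mul (enc_norm (bx3q1_3.enc h1 h2)) (enc_norm (enc_sub (enc_rat _ 2364851 110000000) (enc_scaleT 2381 275000 h1)))))) (enc_case (enc_subr 191 200 h1) (enc_add (enc_sub (enc_rat _ 1681101 140000000) (enc_scaleT 2123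 175000 h1)) (enc_mul (enc_norm (bx3q1_3.enc h1 h2)) (enc_norm (enc_sub (enc_rat _ 22717087 70000000) (enc_scaleT 58081 175000 h1))))) (enc_add (enc_sub (enc_rat _ 12392917 1100000000) (enc_scaleT 15613 1375000 h1)) (enc_mul (enc_norm (bx3q1_3.enc h1 h2)) (enc_norm (enc_sub (enc_rat _ 21382393 110000000) (enc_scaleT 26897 137500 h1))))))) (enc_case (enc_subr 197 200 h1) (enc_case (enc_subr 391 400 h1) (enc_add (enc_sub (enc_rat _ 6515779 700000000) (enc_scaleT 8167 875000 h1)) (enc_mul (enc_norm (bx3q1_3.enc h1 h2)) (enc_norm (enc_sub (enc_rat _ 7073083 35000000) (enc_scaleT 4453 21875 h1))))) (enc_add (enc_sub (enc_rat _ 2456887 300000000) (enc_scaleT 3071 375000 h1)) (enc_mul (enc_norm (bx3q1_3.enc h1 h2)) (enc_norm (enc_sub (enc_rat _ 1141593 5000000) (enc_scaleT 144 625 h1)))))) (enc_case (enc_subr 397 400 h1) (enc_add (enc_sub (enc_rat _ 2362327 300000000) (enc_scaleT 2951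 375000 h1)) (enc_mul (enc_norm (bx3q1_3.enc h1 h2)) (enc_norm (enc_sub (enc_rat _ 568903 7500000) (enc_scaleT 5671 75000 h1))))) (enc_add (enc_sub (enc_rat _ 2137 250000) (enc_scaleT 2137 250000 h1)) (enc_mul (enc_norm (bx3q1_3.enc h1 h2)) (enc_norm (enc_sub (enc_rat _ 323 3000) (enc_scaleT 323 3000 h1))))))))))⟩
noncomputable def l3q1 : Fn2 := ⟨_, _, fun h1 h2 => (enc_norm (enc_mul (cv3m.enc h1) (bx3q1.enc h1 h2)))⟩
noncomputable def cv3p : Fn1 := ⟨_, _, fun h1 => (enc_norm (enc_add (enc_half (enc_subr 1 2 (swg.enc h1))) (enc_half (c3g.enc h1))))⟩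
noncomputable def bf3q2_3 : Fn2 := ⟨_, _, fun h1 h2 => (enc_subr 5 128 h2)⟩
noncomputable def bf3q2_92 : Fn2 := ⟨_, _, fun h1 h2 => (enc_scaleT 1475019 10000000 (bf3q2_3.enc h1 h2))⟩
noncomputable def bf3q2 : Fn2 := ⟨_, _, fun h1 h2 => (enc_norm (enc_case (enc_subr 221 200 h1) (enc_case (enc_subr 33 32 h1) (enc_case (enc_subr 203 200 h1) (enc_case (enc_subr 403 400 h1) (enc_add (enc_add (enc_scaleT 1441 93750 h1) (enc_rat _ 257974813 300000000)) (enc_mul (enc_norm (bf3q2_3.enc h1 h2)) (enc_norm (enc_subr 7666679 30000000 (enc_scaleT 1997 18750 h1))))) (enc_add (enc_add (enc_scaleT 10787 750000 h1) (enc_rat _ 64568359 75000000)) (enc_mul (enc_norm (bf3q2_3.enc h1 h2)) (enc_norm (enc_subr 2404569 10000000 (enc_scaleT 286 3125 h1)))))) (enc_case (enc_subr 409 400 h1) (enc_add (enc_add (enc_scaleT 911 750000 h1) (enc_rat _ 65570773 75000000)) (enc_mul (enc_norm (bf3q2_3.enc h1 h2))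 (enc_norm (enc_subr 4656313 30000000 (enc_scaleT 113 15000 h1))))) (enc_add (enc_add (enc_scaleT 377 875000 h1) (enc_rat _ 612554893 700000000)) (enc_mul (enc_norm (bf3q2_3.enc h1 h2)) (enc_norm (enc_subr 2592017 17500000 (enc_scaleT 13 21875 h1))))))) (enc_case (enc_subr 17 16 h1) (enc_case (enc_subr 209 200 h1) (enc_add (enc_add (enc_scaleT 28 171875 h1) (enc_rat _ 43767737 50000000)) (enc_mul (enc_norm (bf3q2_3.enc h1 h2)) (enc_norm (enc_subr 368831 2500000 (enc_scaleT 1 34375 h1))))) (enc_sub (enc_add (enc_scaleT 27 437500 h1) (enc_rat _ 306411171 350000000)) (enc_scaleT 73751 500000 (bf3q2_3.enc h1 h2)))) (enc_case (enc_subr 217 200 h1) (enc_add (enc_add (enc_scaleT 53 2250000 h1) (enc_rat _ 787950929 900000000)) (enc_mul (enc_norm (bf3q2_3.enc h1 h2)) (enc_norm (enc_subr 2655121 18000000 (enc_scaleT 1 225000 h1))))) (enc_sub (enc_add (enc_scaleT 19 2000000 h1) (enc_rat _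 350206513 400000000)) (bf3q2_92.enc h1 h2))))) (enc_case (enc_subr 121 100 h1) (enc_case (enc_subr 23 20 h1) (enc_case (enc_subr 9 8 h1) (enc_sub (enc_add (enc_scaleT 7 2000000 h1) (enc_rat _ 70041833 80000000)) (bf3q2_92.enc h1 h2)) (enc_add (enc_add (enc_scaleT 3 2500000 h1) (enc_rat _ 1751051 2000000)) (enc_mul (enc_norm (bf3q2_3.enc h1 h2)) (enc_norm (enc_subr 184383 1250000 (enc_scaleT 1 250000 h1)))))) (enc_case (enc_subr 59 50 h1) (enc_sub (enc_add (enc_scaleT 1 1500000 h1) (enc_rat _ 131328917 150000000)) (enc_scaleT 737509 5000000 (bf3q2_3.enc h1 h2))) (enc_add (enc_rat _ 8755269 10000000) (enc_mul (enc_norm (bf3q2_3.enc h1 h2)) (enc_norm (enc_subr 1106293 7500000 (enc_scaleT 1 300000 h1))))))) (enc_case (enc_subr 13 10 h1) (enc_case (enc_subr 5 4 h1) (enc_add (enc_add (enc_scaleT 1 4000000 h1) (enc_rat _ 350210639 400000000)) (enc_mul (enc_norm (bf3q2_3.enc h1 h2)) (enc_norm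 (enc_subr 5900189 40000000 (enc_scaleT 1 400000 h1))))) (enc_sub (enc_rat _ 87552691 100000000) (enc_scaleT 184377 1250000 (bf3q2_3.enc h1 h2)))) (enc_case (enc_subr 27 20 h1) (enc_add (enc_rat _ 87552691 100000000) (enc_mul (enc_norm (bf3q2_3.enc h1 h2)) (enc_norm (enc_subr 737521 5000000 (enc_scaleT 1 500000 h1))))) (enc_case (enc_subr 7 5 h1) (enc_sub (enc_rat _ 87552691 100000000) (enc_scaleT 295003 2000000 (bf3q2_3.enc h1 h2))) (enc_add (enc_rat _ 87552691 100000000) (enc_mul (enc_norm (bf3q2_3.enc h1 h2)) (enc_norm (enc_subr 1475029 10000000 (enc_scaleT 1 1000000 h1)))))))))))⟩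
noncomputable def kf3q2 : Fn2 := ⟨_, _, fun h1 h2 => (enc_norm (enc_mul (cv3p.enc h1) (bf3q2.enc h1 h2)))⟩
noncomputable def bx3q2_3 : Fn2 := ⟨_, _, fun h1 h2 => (enc_subr 5 128 h2)⟩
noncomputable def bx3q2_137 : Fn2 := ⟨_, _, fun h1 h2 => (enc_scaleT 1 1000000 h1)⟩
noncomputable def bx3q2 : Fn2 := ⟨_, _, fun h1 h2 => (enc_norm (enc_case (enc_subr 221 200 h1) (enc_case (enc_subr 33 32 h1) (enc_case (enc_subr 203 200 h1) (enc_case (enc_subr 403 400 h1) (enc_add (enc_sub (enc_rat _ 14437351 30000000) (enc_scaleT 180449 375000 h1)) (enc_mul (enc_norm (bx3q2_3.enc h1 h2)) (enc_norm (enc_sub (enc_rat _ 3885949 375000) (enc_scaleT 776843 75000 h1))))) (enc_add (enc_sub (enc_rat _ 24049893 50000000) (enc_scaleT 60119 125000 h1)) (enc_mul (enc_norm (bx3q2_3.enc h1 h2)) (enc_norm (enc_sub (enc_rat _ 15481331 1500000) (enc_scaleT 773743 75000 h1)))))) (enc_case (enc_subr 409 400 h1) (enc_add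 (enc_sub (enc_rat _ 10803079 150000000) (enc_scaleT 29257 375000 h1)) (enc_mul (enc_norm (bx3q2_3.enc h1 h2)) (enc_norm (enc_sub (enc_rat _ 509501 312500) (enc_scaleT 43863 25000 h1))))) (enc_add (enc_subr 1468121 175000000 (enc_scaleT 68 109375 h1)) (enc_mul (enc_norm (bx3q2_3.enc h1 h2)) (enc_norm (enc_subr 10047039 70000000 (enc_neg (enc_scaleT 1717 87500 h1)))))))) (enc_case (enc_subr 17 16 h1) (enc_case (enc_subr 209 200 h1) (enc_add (enc_subr 407581 50000000 (enc_scaleT 269 687500 h1)) (enc_mul (enc_norm (bx3q2_3.enc h1 h2)) (enc_norm (enc_subr 1699377 10000000 (enc_scaleT 823 137500 h1))))) (enc_add (enc_subr 2768897 350000000 (enc_scaleT 141 875000 h1)) (enc_mul (enc_norm (bx3q2_3.enc h1 h2)) (enc_norm (enc_subr 11550181 70000000 (enc_scaleT 221 175000 h1)))))) (enc_case (enc_subr 217 200 h1) (enc_add (enc_subr 2341951 300000000 (enc_scaleT 47 750000 h1)) (enc_mul (enc_norm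 (bx3q2_3.enc h1 h2)) (enc_norm (enc_subr 14741797 90000000 (enc_scaleT 29 225000 h1))))) (enc_add (enc_subr 1553127 200000000 (enc_scaleT 1 40000 h1)) (enc_mul (enc_norm (bx3q2_3.enc h1 h2)) (enc_norm (enc_subr 6548269 40000000 (enc_scaleT 9 200000 h1)))))))) (enc_case (enc_subr 121 100 h1) (enc_case (enc_subr 23 20 h1) (enc_case (enc_subr 9 8 h1) (enc_add (enc_subr 3099403 400000000 (enc_scaleT 19 2000000 h1)) (enc_mul (enc_norm (bx3q2_3.enc h1 h2)) (enc_norm (enc_subr 409253 2500000 (enc_scaleT 1 25000 h1))))) (enc_add (enc_subr 774187 100000000 (enc_scaleT 9 2500000 h1)) (enc_mul (enc_norm (bx3q2_3.enc h1 h2)) (enc_norm (enc_subr 204649 1250000 (enc_scaleT 7 125000 h1)))))) (enc_case (enc_subr 59 50 h1) (enc_add (enc_subr 3023 390625 (bx3q2_137.enc h1 h2)) (enc_mul (enc_norm (bx3q2_3.enc h1 h2)) (enc_norm (enc_subr 2455397 15000000 (enc_scaleT 1 30000 h1))))) (enc_add (enc_subr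 1160537 150000000 (enc_neg (enc_scaleT 1 1500000 h1))) (enc_mul (enc_norm (bx3q2_3.enc h1 h2)) (enc_norm (enc_subr 122761 750000 (enc_scaleT 7 300000 h1))))))) (enc_case (enc_subr 13 10 h1) (enc_case (enc_subr 5 4 h1) (enc_add (enc_subr 77353 10000000 (enc_neg (enc_scaleT 1 500000 h1))) (enc_mul (enc_norm (bx3q2_3.enc h1 h2)) (enc_norm (enc_subr 3273183 20000000 (enc_scaleT 1 200000 h1))))) (enc_add (enc_subr 154701 20000000 (enc_neg (enc_scaleT 11 5000000 h1))) (enc_mul (enc_norm (bx3q2_3.enc h1 h2)) (enc_norm (enc_subr 818427 5000000 (enc_scaleT 13 500000 h1)))))) (enc_case (enc_subr 27 20 h1) (enc_add (enc_subr 773557 100000000 (enc_neg (enc_scaleT 9 5000000 h1))) (enc_mul (enc_norm (bx3q2_3.enc h1 h2)) (enc_norm (enc_subr 409207 2500000 (enc_scaleT 3 125000 h1))))) (enc_case (enc_subr 7 5 h1) (enc_add (enc_subr 154733 20000000 (enc_neg (bx3q2_137.enc h1 h2))) (enc_mul (enc_norm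 (bx3q2_3.enc h1 h2)) (enc_norm (enc_subr 1636801 10000000 (enc_scaleT 11 500000 h1))))) (enc_add (enc_subr 773651 100000000 (enc_neg (enc_scaleT 11 10000000 h1))) (enc_mul (enc_norm (bx3q2_3.enc h1 h2)) (enc_norm (enc_subr 327279 2000000 (enc_neg (enc_scaleT 7 1000000 h1))))))))))))⟩
noncomputable def l3q2 : Fn2 := ⟨_, _, fun h1 h2 => (enc_norm (enc_mul (cv3p.enc h1) (bx3q2.enc h1 h2)))⟩
noncomputable def ycg : Fn1 := ⟨_, _, fun h1 => (enc_sqrtg (enc_scaleT 4 3 (enc_sub (enc_pnc _ 3) (enc_sq h1))))⟩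
noncomputable def xc33 : Fn1 := ⟨_, _, fun h1 => (enc_norm (enc_add (enc_half (enc_subr 1 2 (swg.enc (ycg.enc h1)))) (enc_half h1)))⟩
noncomputable def bf3q3_3 : Fn2 := ⟨_, _, fun h1 h2 => (enc_subr 5 128 h2)⟩
noncomputable def bf3q3 : Fn2 := ⟨_, _, fun h1 h2 => (enc_norm (enc_case (enc_subr 9 5 h1) (enc_case (enc_subr 33 20 h1) (enc_add (enc_add (enc_scaleT 13 15000000 h1) (enc_rat _ 49999733 100000000)) (enc_mul (enc_norm (bf3q3_3.enc h1 h2)) (enc_norm (enc_add (enc_scaleT 1 500000 h1) (enc_rat _ 1 10000000))))) (enc_add (enc_add (enc_scaleT 1 625000 h1) (enc_rat _ 12499903 25000000)) (enc_mul (enc_norm (bf3q3_3.enc h1 h2)) (enc_norm (enc_add (enc_scaleT 1 1500000 h1) (enc_rat _ 23 10000000)))))) (enc_case (enc_subr 19 10 h1) (enc_add (enc_add (enc_scaleT 17 5000000 h1) (enc_rat _ 6249911 12500000)) (enc_mul (enc_norm (bf3q3_3.enc h1 h2)) (enc_norm (enc_sub (enc_rat _ 197 10000000)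 (enc_scaleT 9 1000000 h1))))) (enc_add (enc_add (enc_scaleT 33 5000000 h1) (enc_rat _ 1249967 2500000)) (enc_mul (enc_norm (bf3q3_3.enc h1 h2)) (enc_norm (enc_sub (enc_rat _ 13 250000) (enc_scaleT 13 500000 h1))))))))⟩
noncomputable def kfc33 : Fn2 := ⟨_, _, fun h1 h2 => (enc_norm (enc_mul (enc_norm (enc_add (enc_half (enc_subr 1 2 (swg.enc (ycg.enc h1)))) (enc_half h1))) (bf3q3.enc (ycg.enc h1) h2)))⟩
noncomputable def bx3q3_3 : Fn2 := ⟨_, _, fun h1 h2 => (enc_subr 5 128 h2)⟩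
noncomputable def bx3q3 : Fn2 := ⟨_, _, fun h1 h2 => (enc_norm (enc_case (enc_subr 9 5 h1) (enc_case (enc_subr 33 20 h1) (enc_add (enc_sub (enc_rat _ 162859 100000000) (enc_scaleT 279 5000000 h1)) (enc_mul (enc_norm (bx3q3_3.enc h1 h2)) (enc_norm (enc_subr 19649 2500000 (enc_neg (enc_scaleT 209 1500000 h1)))))) (enc_add (enc_sub (enc_rat _ 170779 100000000) (enc_scaleT 519 5000000 h1)) (enc_mul (enc_norm (bx3q3_3.enc h1 h2)) (enc_norm (enc_subr 75087 10000000 (enc_neg (enc_scaleT 11 31250 h1))))))) (enc_case (enc_subr 19 10 h1) (enc_add (enc_sub (enc_rat _ 192919 100000000) (enc_scaleT 567 2500000 h1)) (enc_mul (enc_norm (bx3q3_3.enc h1 h2)) (enc_norm (enc_subr 91179 10000000 (enc_scaleT 271 500000 h1))))) (enc_add (enc_sub (enc_rat _ 178225117 5750000000) (enc_scaleT 17853691 1150000000 h1)) (enc_mul (enc_norm (bx3q3_3.enc h1 h2)) (enc_norm (enc_subr 3149457 1150000000 (enc_neg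 (enc_scaleT 161891 57500000 h1)))))))))⟩
noncomputable def lc33 : Fn2 := ⟨_, _, fun h1 h2 => (enc_norm (enc_mul (enc_norm (enc_add (enc_half (enc_subr 1 2 (swg.enc (ycg.enc h1)))) (enc_half h1))) (bx3q3.enc (ycg.enc h1) h2)))⟩
noncomputable def kf4q0 : Fn2 := ⟨_, _, fun h1 h2 => (enc_norm (enc_sub (enc_mul h1 (kcg.enc (enc_half h1) h2)) (enc_mul (enc_norm (enc_mul (enc_sq h1) (enc_norm (enc_add (c3g.enc h1) (enc_rat _ 3 2))))) (enc_inv (enc_mul (enc_norm (enc_sub (enc_pnc _ 1) h1)) (enc_norm (enc_add (enc_pnc _ 1) h1)))))))⟩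
noncomputable def l4q0_6 : Fn2 := ⟨_, _, fun h1 h2 => (enc_half h1)⟩
noncomputable def l4q0_7 : Fn2 := ⟨_, _, fun h1 h2 => (enc_half (c3g.enc h1))⟩
noncomputable def l4q0_8 : Fn2 := ⟨_, _, fun h1 h2 => (enc_scaleT 1 4 h1)⟩
noncomputable def l4q0 : Fn2 := ⟨_, _, fun h1 h2 => (enc_norm (enc_add (txg.enc (l4q0_6.enc h1 h2) (enc_norm (enc_sub (l4q0_7.enc h1 h2) (l4q0_8.enc h1 h2))) h2) (txg.enc (enc_neg (l4q0_6.enc h1 h2)) (enc_norm (enc_add (l4q0_7.enc h1 h2) (l4q0_8.enc h1 h2))) h2)))⟩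
noncomputable def kf4q1 : Fn2 := ⟨_, _, fun h1 h2 => (enc_norm (enc_add (enc_mul (enc_norm (enc_mul h1 (enc_norm (enc_add (c3g.enc h1) (enc_rat _ 3 2))))) (enc_inv (enc_add (enc_pnc _ 1) h1))) (enc_mul (enc_norm (enc_subn 1 h1)) (kcg.enc (enc_half h1) h2))))⟩
noncomputable def l4q1_7 : Fn2 := ⟨_, _, fun h1 h2 => (enc_half h1)⟩
noncomputable def l4q1_8 : Fn2 := ⟨_, _, fun h1 h2 => (enc_half (c3g.enc h1))⟩
noncomputable def l4q1_9 : Fn2 := ⟨_, _, fun h1 h2 => (enc_scaleT 1 4 h1)⟩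
noncomputable def l4q1 : Fn2 := ⟨_, _, fun h1 h2 => (enc_norm (enc_add (txg.enc (l4q1_7.enc h1 h2) (enc_norm (enc_sub (l4q1_8.enc h1 h2) (l4q1_9.enc h1 h2))) h2) (txg.enc (enc_neg (l4q1_7.enc h1 h2)) (enc_norm (enc_add (l4q1_8.enc h1 h2) (l4q1_9.enc h1 h2))) h2)))⟩
noncomputable def kf4q2 : Fn2 := ⟨_, _, fun h1 h2 => (enc_norm (enc_add (enc_mul (enc_norm (enc_mul (enc_norm (enc_sub (enc_nat 2 (c3g.enc h1)) h1)) (enc_norm (enc_sub (enc_add (c3g.enc h1) (enc_pnc _ 3)) (enc_scaleT 3 2 h1))))) (enc_inv (enc_nat 4 (enc_sub (enc_pnc _ 2) h1)))) (enc_mul (enc_norm (enc_subn 1 h1)) (kcg.enc (enc_norm (enc_sub (enc_scaleT 1 4 h1) (enc_half (c3g.enc h1)))) h2))))⟩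
noncomputable def l4q2_7 : Fn2 := ⟨_, _, fun h1 h2 => (enc_half (c3g.enc h1))⟩
noncomputable def l4q2_8 : Fn2 := ⟨_, _, fun h1 h2 => (enc_scaleT 1 4 h1)⟩
noncomputable def l4q2_9 : Fn2 := ⟨_, _, fun h1 h2 => (enc_sub (l4q2_7.enc h1 h2) (l4q2_8.enc h1 h2))⟩
noncomputable def l4q2_12 : Fn2 := ⟨_, _, fun h1 h2 => (enc_add (enc_scaleT 1 4 (c3g.enc h1)) (enc_scaleT 3 8 h1))⟩
noncomputable def l4q2_14 : Fn2 := ⟨_, _, fun h1 h2 => (enc_half (l4q2_9.enc h1 h2))⟩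
noncomputable def l4q2 : Fn2 := ⟨_, _, fun h1 h2 => (enc_norm (enc_sub (enc_nat 2 (txg.enc (enc_norm (enc_sub (l4q2_8.enc h1 h2) (l4q2_7.enc h1 h2))) (enc_norm (enc_add (l4q2_12.enc h1 h2) (l4q2_14.enc h1 h2))) h2)) (txg.enc (enc_norm (l4q2_9.enc h1 h2)) (enc_norm (enc_sub (l4q2_12.enc h1 h2) (l4q2_14.enc h1 h2))) h2)))⟩
noncomputable def kfc43 : Fn2 := ⟨_, _, fun h1 h2 => (enc_norm (enc_sub (enc_mul (enc_norm (enc_subn 2 (ycg.enc h1))) (kcg.enc (enc_norm (enc_sub (enc_scaleT 1 4 (ycg.enc h1)) (enc_half h1))) h2)) (enc_mul (enc_norm (enc_mul (enc_norm (enc_sub (enc_nat 2 h1) (ycg.enc h1))) (enc_norm (enc_sub (enc_add h1 (enc_pnc _ 3)) (enc_scaleT 3 2 (ycg.enc h1)))))) (enc_inv (enc_nat 4 (enc_subn 1 (ycg.enc h1)))))))⟩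
noncomputable def lc43_7 : Fn2 := ⟨_, _, fun h1 h2 => (enc_half h1)⟩
noncomputable def lc43_8 : Fn2 := ⟨_, _, fun h1 h2 => (enc_scaleT 1 4 (ycg.enc h1))⟩
noncomputable def lc43_9 : Fn2 := ⟨_, _, fun h1 h2 => (enc_sub (lc43_7.enc h1 h2) (lc43_8.enc h1 h2))⟩
noncomputable def lc43_12 : Fn2 := ⟨_, _, fun h1 h2 => (enc_add (enc_scaleT 1 4 h1) (enc_scaleT 3 8 (ycg.enc h1)))⟩
noncomputable def lc43_14 : Fn2 := ⟨_, _, fun h1 h2 => (enc_half (lc43_9.enc h1 h2))⟩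
noncomputable def lc43 : Fn2 := ⟨_, _, fun h1 h2 => (enc_norm (enc_sub (enc_nat 2 (txg.enc (enc_norm (enc_sub (lc43_8.enc h1 h2) (lc43_7.enc h1 h2))) (enc_norm (enc_add (lc43_12.enc h1 h2) (lc43_14.enc h1 h2))) h2)) (txg.enc (enc_norm (lc43_9.enc h1 h2)) (enc_norm (enc_sub (lc43_12.enc h1 h2) (lc43_14.enc h1 h2))) h2)))⟩
noncomputable def lm3m : Fn2 := ⟨_, _, fun h1 h2 => (enc_lam (enc_norm (enc_sub h1 (cv3m.enc h2))) (enc_sub (c3g.enc h2) (cv3m.enc h2)))⟩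
noncomputable def lm2m : Fn2 := ⟨_, _, fun h1 h2 => (enc_lam (enc_norm (enc_sub h1 (cv2m.enc h2))) (enc_sub (cv3m.enc h2) (cv2m.enc h2)))⟩
noncomputable def lm1m : Fn2 := ⟨_, _, fun h1 h2 => (enc_lam (enc_norm (enc_sub h1 (cv1m.enc h2))) (enc_sub (cv2m.enc h2) (cv1m.enc h2)))⟩
noncomputable def lm0m : Fn2 := ⟨_, _, fun h1 h2 => (enc_lam (enc_norm (enc_sub h1 (c1g.enc h2))) (enc_sub (cv1m.enc h2) (c1g.enc h2)))⟩
noncomputable def rkfq0 : Fn3 := ⟨_, _, fun h1 h2 h3 => (enc_case (enc_sub h1 (cv1m.enc h2)) (enc_add (enc_mul h1 (bf1q0.enc h2 h3)) (enc_mul (enc_norm (enc_sub (enc_pnc _ 1) (lm0m.enc h1 h2))) (enc_norm (enc_sub (kf0q0.enc h2 h3) (enc_mul (c1g.enc h2) (bf1q0.enc h2 h3)))))) (enc_case (enc_sub h1 (cv2m.enc h2)) (enc_add (enc_mul h1 (bf2q0.enc h2 h3)) (enc_mul (enc_norm (enc_mul (enc_norm (enc_sub (enc_pnc _ 1) (lm1m.enc h1 h2))) (cv1m.enc h2))) (enc_norm (enc_sub (bf1q0.enc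 h2 h3) (bf2q0.enc h2 h3))))) (enc_case (enc_sub h1 (cv3m.enc h2)) (enc_add (enc_mul h1 (bf3q0.enc h2 h3)) (enc_mul (enc_norm (enc_mul (enc_norm (enc_sub (enc_pnc _ 1) (lm2m.enc h1 h2))) (cv2m.enc h2))) (enc_norm (enc_sub (bf2q0.enc h2 h3) (bf3q0.enc h2 h3))))) (enc_add (kf3q0.enc h2 h3) (enc_mul (lm3m.enc h1 h2) (enc_norm (enc_sub (kf4q0.enc h2 h3) (kf3q0.enc h2 h3))))))))⟩
noncomputable def rsfq0 : Fn3 := ⟨_, _, fun h1 h2 h3 => (enc_case h1 (enc_neg (rkfq0.enc (enc_neg h1) h2 h3)) (rkfq0.enc h1 h2 h3))⟩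
noncomputable def bf2q1_3 : Fn2 := ⟨_, _, fun h1 h2 => (enc_subr 5 128 h2)⟩
noncomputable def bf2q1_19 : Fn2 := ⟨_, _, fun h1 h2 => (enc_scaleT 1 1250000 h1)⟩
noncomputable def bf2q1_23 : Fn2 := ⟨_, _, fun h1 h2 => (enc_scaleT 7 500000 h1)⟩
noncomputable def bf2q1_68 : Fn2 := ⟨_, _, fun h1 h2 => (enc_mul (enc_norm (bf2q1_3.enc h1 h2)) (enc_norm (enc_add (enc_scaleT 1 100000 h1) (enc_rat _ 2313 2000000))))⟩
noncomputable def bf2q1 : Fn2 := ⟨_, _, fun h1 h2 => (enc_norm (enc_case (enc_subr 123 128 h1) (enc_case (enc_subr 3 4 h1) (enc_case (enc_subr 13 20 h1) (enc_case (enc_subr 3 5 h1) (enc_add (enc_sub (enc_rat _ 95659237 100000000) (enc_scaleT 1 2000000 h1)) (enc_mul (enc_norm (bf2q1_3.enc h1 h2)) (enc_norm (enc_add (enc_scaleT 7 1000000 h1) (enc_rat _ 463 400000))))) (enc_add (enc_sub (enc_rat _ 19131851 20000000) (bf2q1_19.enc h1 h2)) (enc_mul (enc_norm (bf2q1_3.enc h1 h2)) (enc_norm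 (enc_add (bf2q1_23.enc h1 h2) (enc_rat _ 11533 10000000)))))) (enc_case (enc_subr 7 10 h1) (enc_add (enc_sub (enc_rat _ 47829621 50000000) (enc_scaleT 3 5000000 h1)) (enc_mul (enc_norm (bf2q1_3.enc h1 h2)) (enc_norm (enc_add (enc_scaleT 1 62500 h1) (enc_rat _ 18 15625))))) (enc_add (enc_sub (enc_rat _ 11957407 12500000) (bf2q1_19.enc h1 h2)) (enc_mul (enc_norm (bf2q1_3.enc h1 h2)) (enc_norm (enc_add (bf2q1_23.enc h1 h2) (enc_rat _ 5767 5000000))))))) (enc_case (enc_subr 41 50 h1) (enc_case (enc_subr 79 100 h1) (enc_add (enc_sub (enc_rat _ 382637009 400000000) (enc_scaleT 3 4000000 h1)) (enc_mul (enc_norm (bf2q1_3.enc h1 h2)) (enc_norm (enc_add (enc_scaleT 1 80000 h1) (enc_rat _ 46181 40000000))))) (enc_add (enc_sub (enc_rat _ 143488829 150000000) (enc_scaleT 1 3000000 h1)) (bf2q1_68.enc h1 h2))) (enc_case (enc_subr 22 25 h1) (enc_add (enc_sub (enc_rat _ 14348887 15000000) (enc_scaleT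 1 1500000 h1)) (bf2q1_68.enc h1 h2)) (enc_case (enc_subr 91 100 h1) (enc_add (enc_sub (enc_rat _ 23914819 25000000) (enc_scaleT 1 1000000 h1)) (enc_mul (enc_norm (bf2q1_3.enc h1 h2)) (enc_norm (enc_add (enc_scaleT 1 75000 h1) (enc_rat _ 34607 30000000))))) (enc_add (enc_sub (enc_rat _ 3288287567 3437500000) (enc_scaleT 271 275000000 h1)) (enc_mul (enc_norm (bf2q1_3.enc h1 h2)) (enc_norm (enc_add (enc_scaleT 221 27500000 h1) (enc_rat _ 796391 687500000))))))))) (enc_case (enc_subr 397 400 h1) (enc_add (enc_add (enc_scaleT 13319161 20312500 h1) (enc_rat _ 11231260057 32500000000)) (enc_mul (enc_norm (bf2q1_3.enc h1 h2)) (enc_norm (enc_subr 3069791 1625000000 (enc_scaleT 7703 4062500 h1))))) (enc_case (enc_subr 249 250 h1) (enc_add (enc_add (enc_scaleT 169753 350000 h1) (enc_rat _ 180250323 350000000)) (enc_mul (enc_norm (bf2q1_3.enc h1 h2)) (enc_norm (enc_sub (enc_rat _ 961 4375000)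 (enc_scaleT 1 4375 h1))))) (enc_add (enc_add (enc_scaleT 96527 200000 h1) (enc_rat _ 103473 200000)) (enc_mul (enc_norm (bf2q1_3.enc h1 h2)) (enc_norm (enc_subr 1 500 (enc_scaleT 1 500 h1)))))))))⟩
noncomputable def rkfq1_35 : Fn3 := ⟨_, _, fun h1 h2 h3 => (enc_add (enc_mul h1 (bf2q1.enc h2 h3)) (enc_mul (enc_norm (enc_mul (enc_norm (enc_sub (enc_pnc _ 1) (lm1m.enc h1 h2))) (cv1m.enc h2))) (enc_norm (enc_sub (bf1q1.enc h2 h3) (bf2q1.enc h2 h3)))))⟩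
noncomputable def rkfq1_37 : Fn3 := ⟨_, _, fun h1 h2 h3 => (enc_sub (enc_pnc _ 1) h2)⟩
noncomputable def rkfq1_38 : Fn3 := ⟨_, _, fun h1 h2 h3 => (gsg.enc (enc_norm (rkfq1_37.enc h1 h2 h3)))⟩
noncomputable def rkfq1_42 : Fn3 := ⟨_, _, fun h1 h2 h3 => (esg.enc (enc_norm (rkfq1_37.enc h1 h2 h3)))⟩
noncomputable def rkfq1_44 : Fn3 := ⟨_, _, fun h1 h2 h3 => (enc_scaleT 3 2 (rkfq1_37.enc h1 h2 h3))⟩
noncomputable def rkfq1_46 : Fn3 := ⟨_, _, fun h1 h2 h3 => (enc_add (enc_pnc _ 1) (rkfq1_38.enc h1 h2 h3))⟩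
noncomputable def rkfq1 : Fn3 := ⟨_, _, fun h1 h2 h3 => (enc_case (enc_sub h1 (cv1m.enc h2)) (enc_add (enc_mul h1 (bf1q1.enc h2 h3)) (enc_mul (enc_norm (enc_sub (enc_pnc _ 1) (lm0m.enc h1 h2))) (enc_norm (enc_sub (kf0q1.enc h2 h3) (enc_mul (c1g.enc h2) (bf1q1.enc h2 h3)))))) (enc_case (enc_sub h1 (cv2m.enc h2)) (enc_case (enc_subr 15 16 h2) (rkfq1_35.enc h1 h2 h3) (enc_case (enc_subr 63 64 h2) (enc_add (kf1q1.enc h2 h3) (enc_mul (lm1m.enc h1 h2) (enc_norm (enc_sub (enc_add (enc_add (enc_mul (enc_norm (enc_mul (enc_norm (enc_sub (rkfq1_38.enc h1 h2 h3) (rkfq1_44.enc h1 h2 h3))) (enc_norm (rkfq1_46.enc h1 h2 h3)))) (enc_inv (enc_sub (rkfq1_46.enc h1 h2 h3) (rkfq1_44.enc h1 h2 h3)))) (enc_wR (enc_mul (enc_norm (enc_sub (enc_half (rkfq1_37.enc h1 h2 h3)) (enc_mul (enc_scaleT 3 4 (enc_sq (enc_norm (rkfq1_37.enc h1 h2 h3)))) (enc_inv (rkfq1_38.enc h1 h2 h3))))) (enc_inv (enc_nat 2 (rkfq1_42.enc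 h1 h2 h3)))) (rkfq1_37.enc h1 h2 h3) (rkfq1_38.enc h1 h2 h3) (rkfq1_42.enc h1 h2 h3) rfl rfl rfl)) (enc_mul (kcg.enc (enc_norm (enc_sub (enc_scaleT 3 4 (rkfq1_37.enc h1 h2 h3)) (enc_half (rkfq1_38.enc h1 h2 h3)))) h3) (enc_norm (rkfq1_37.enc h1 h2 h3)))) (kf1q1.enc h2 h3))))) (rkfq1_35.enc h1 h2 h3))) (enc_case (enc_sub h1 (cv3m.enc h2)) (enc_add (enc_mul h1 (bf3q1.enc h2 h3)) (enc_mul (enc_norm (enc_sub (enc_pnc _ 1) (lm2m.enc h1 h2))) (enc_norm (enc_sub (kf2q1.enc h2 h3) (enc_mul (cv2m.enc h2) (bf3q1.enc h2 h3)))))) (enc_add (kf3q1.enc h2 h3) (enc_mul (lm3m.enc h1 h2) (enc_norm (enc_sub (kf4q1.enc h2 h3) (kf3q1.enc h2 h3))))))))⟩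
noncomputable def rsfq1 : Fn3 := ⟨_, _, fun h1 h2 h3 => (enc_case h1 (enc_neg (rkfq1.enc (enc_neg h1) h2 h3)) (rkfq1.enc h1 h2 h3))⟩
noncomputable def cv1p : Fn1 := ⟨_, _, fun h1 => (enc_norm (enc_add (enc_half (c1g.enc h1)) (enc_half (enc_subr 1 2 (swg.enc h1)))))⟩
noncomputable def lm3p : Fn2 := ⟨_, _, fun h1 h2 => (enc_lam (enc_norm (enc_sub h1 (cv3p.enc h2))) (enc_sub (c3g.enc h2) (cv3p.enc h2)))⟩
noncomputable def lm2p : Fn2 := ⟨_, _, fun h1 h2 => (enc_lam (enc_norm (enc_sub h1 (cv2p.enc h2))) (enc_sub (cv3p.enc h2) (cv2p.enc h2)))⟩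
noncomputable def kf2q2_4 : Fn2 := ⟨_, _, fun h1 h2 => (enc_subr 5 128 h2)⟩
noncomputable def kf2q2_64 : Fn2 := ⟨_, _, fun h1 h2 => (enc_scaleT 1 1250000 h1)⟩
noncomputable def kf2q2_77 : Fn2 := ⟨_, _, fun h1 h2 => (enc_scaleT 1 1000000 h1)⟩
noncomputable def kf2q2_80 : Fn2 := ⟨_, _, fun h1 h2 => (enc_scaleT 1 50000 h1)⟩
noncomputable def kf2q2_91 : Fn2 := ⟨_, _, fun h1 h2 => (enc_scaleT 3 125000 h1)⟩
noncomputable def kf2q2_134 : Fn2 := ⟨_, _, fun h1 h2 => (enc_mul (enc_norm (kf2q2_4.enc h1 h2)) (enc_norm (enc_sub (enc_rat _ 35307 10000000) (kf2q2_91.enc h1 h2))))⟩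
noncomputable def kf2q2_163 : Fn2 := ⟨_, _, fun h1 h2 => (enc_subn 1 h1)⟩
noncomputable def kf2q2_164 : Fn2 := ⟨_, _, fun h1 h2 => (gsg.enc (enc_norm (kf2q2_163.enc h1 h2)))⟩
noncomputable def kf2q2_168 : Fn2 := ⟨_, _, fun h1 h2 => (esg.enc (enc_norm (kf2q2_163.enc h1 h2)))⟩
noncomputable def kf2q2_170 : Fn2 := ⟨_, _, fun h1 h2 => (enc_scaleT 3 2 (kf2q2_163.enc h1 h2))⟩
noncomputable def kf2q2_172 : Fn2 := ⟨_, _, fun h1 h2 => (enc_add (enc_pnc _ 1) (kf2q2_164.enc h1 h2))⟩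
noncomputable def kf2q2 : Fn2 := ⟨_, _, fun h1 h2 => (enc_norm (enc_case (enc_subr 65 64 h1) (enc_mul (cv2p.enc h1) (enc_norm (enc_case (enc_subr 251 250 h1) (enc_add (enc_sub (enc_rat _ 59057 50000) (enc_scaleT 9057 50000 h1)) (enc_mul (enc_norm (kf2q2_4.enc h1 h2)) (enc_norm (enc_subr 8013 20000 (enc_scaleT 8013 20000 h1))))) (enc_case (enc_subr 403 400 h1) (enc_add (enc_sub (enc_rat _ 18215751 12500000) (enc_scaleT 2851 6250 h1)) (enc_mul (enc_norm (kf2q2_4.enc h1 h2)) (enc_norm (enc_sub (enc_rat _ 84317 5000000) (enc_scaleT 19 1250 h1))))) (enc_add (enc_sub (enc_rat _ 550072179 500000000) (enc_scaleT 1652669 16250000 h1)) (enc_mul (enc_norm (kf2q2_4.enc h1 h2)) (enc_norm (enc_sub (enc_rat _ 50521387 250000000) (enc_scaleT 1617227 8125000 h1))))))))) (enc_case (enc_subr 17 16 h1) (enc_add (enc_sub (enc_mul (enc_norm (enc_mul (enc_norm (enc_sub (kf2q2_164.enc h1 h2) (kf2q2_170.enc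 h1 h2))) (enc_norm (kf2q2_172.enc h1 h2)))) (enc_inv (enc_sub (kf2q2_172.enc h1 h2) (kf2q2_170.enc h1 h2)))) (enc_wR (enc_mul (enc_norm (enc_sub (enc_half (kf2q2_163.enc h1 h2)) (enc_mul (enc_scaleT 3 4 (enc_sq (enc_norm (kf2q2_163.enc h1 h2)))) (enc_inv (kf2q2_164.enc h1 h2))))) (enc_inv (enc_nat 2 (kf2q2_168.enc h1 h2)))) (kf2q2_163.enc h1 h2) (kf2q2_164.enc h1 h2) (kf2q2_168.enc h1 h2) rfl rfl rfl)) (enc_mul (kcg.enc (enc_norm (enc_sub (enc_scaleT 3 4 (kf2q2_163.enc h1 h2)) (enc_half (kf2q2_164.enc h1 h2)))) h2) (enc_norm (kf2q2_163.enc h1 h2)))) (enc_mul (cv2p.enc h1) (enc_norm (enc_case (enc_subr 59 50 h1) (enc_case (enc_subr 221 200 h1) (enc_case (enc_subr 217 200 h1) (enc_add (enc_add (enc_scaleT 11 7500000 h1) (enc_rat _ 1452584053 1500000000)) (enc_mul (enc_norm (kf2q2_4.enc h1 h2)) (enc_norm (enc_sub (enc_rat _ 790877 225000000) (enc_scaleT 11 1125000 h1))))) (enc_case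 (enc_subr 437 400 h1) (enc_add (enc_rat _ 12104887 12500000) (enc_scaleT 8761 2500000 (kf2q2_4.enc h1 h2))) (enc_add (enc_add (kf2q2_64.enc h1 h2) (enc_rat _ 484195043 500000000)) (enc_mul (enc_norm (kf2q2_4.enc h1 h2)) (enc_norm (enc_sub (enc_rat _ 88047 25000000) (enc_scaleT 1 62500 h1))))))) (enc_case (enc_subr 9 8 h1) (enc_add (enc_add (kf2q2_77.enc h1 h2) (enc_rat _ 193677973 200000000)) (enc_mul (enc_norm (kf2q2_4.enc h1 h2)) (enc_norm (enc_sub (enc_rat _ 35263 10000000) (kf2q2_80.enc h1 h2))))) (enc_case (enc_subr 23 20 h1) (enc_add (enc_add (enc_scaleT 3 2500000 h1) (enc_rat _ 24209741 25000000)) (enc_mul (enc_norm (kf2q2_4.enc h1 h2)) (enc_norm (enc_sub (enc_rat _ 8827 2500000) (kf2q2_91.enc h1 h2))))) (enc_add (enc_add (enc_scaleT 1 1500000 h1) (enc_rat _ 72629269 75000000)) (enc_mul (enc_norm (kf2q2_4.enc h1 h2)) (enc_norm (enc_sub (enc_rat _ 35377 10000000) (enc_scaleT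 3 100000 h1)))))))) (enc_case (enc_subr 13 10 h1) (enc_case (enc_subr 121 100 h1) (enc_add (enc_add (kf2q2_77.enc h1 h2) (enc_rat _ 48419493 50000000)) (enc_mul (enc_norm (kf2q2_4.enc h1 h2)) (enc_norm (enc_sub (enc_rat _ 106013 30000000) (enc_scaleT 1 37500 h1))))) (enc_case (enc_subr 5 4 h1) (enc_add (enc_add (enc_scaleT 3 4000000 h1) (enc_rat _ 77471213 80000000)) (enc_mul (enc_norm (kf2q2_4.enc h1 h2)) (enc_norm (enc_sub (enc_rat _ 35257 10000000) (kf2q2_80.enc h1 h2))))) (enc_add (enc_add (kf2q2_77.enc h1 h2) (enc_rat _ 19367797 20000000)) (kf2q2_134.enc h1 h2)))) (enc_case (enc_subr 27 20 h1) (enc_add (enc_add (kf2q2_64.enc h1 h2) (enc_rat _ 96839011 100000000)) (kf2q2_134.enc h1 h2)) (enc_case (enc_subr 7 5 h1) (enc_add (enc_add (kf2q2_77.enc h1 h2) (enc_rat _ 12104873 12500000)) (kf2q2_134.enc h1 h2)) (enc_add (enc_add (enc_scaleT 13 10000000 h1) (enc_rat _ 48419471 50000000))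 (enc_mul (enc_norm (kf2q2_4.enc h1 h2)) (enc_norm (enc_sub (enc_rat _ 35601 10000000) (enc_scaleT 9 200000 h1))))))))))))))⟩
noncomputable def bf2q2_3 : Fn2 := ⟨_, _, fun h1 h2 => (enc_subr 5 128 h2)⟩
noncomputable def bf2q2_62 : Fn2 := ⟨_, _, fun h1 h2 => (enc_scaleT 1 1250000 h1)⟩
noncomputable def bf2q2_75 : Fn2 := ⟨_, _, fun h1 h2 => (enc_scaleT 1 1000000 h1)⟩
noncomputable def bf2q2_78 : Fn2 := ⟨_, _, fun h1 h2 => (enc_scaleT 1 50000 h1)⟩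
noncomputable def bf2q2_89 : Fn2 := ⟨_, _, fun h1 h2 => (enc_scaleT 3 125000 h1)⟩
noncomputable def bf2q2_132 : Fn2 := ⟨_, _, fun h1 h2 => (enc_mul (enc_norm (bf2q2_3.enc h1 h2)) (enc_norm (enc_sub (enc_rat _ 35307 10000000) (bf2q2_89.enc h1 h2))))⟩
noncomputable def bf2q2 : Fn2 := ⟨_, _, fun h1 h2 => (enc_norm (enc_case (enc_subr 133 128 h1) (enc_case (enc_subr 251 250 h1) (enc_add (enc_sub (enc_rat _ 59057 50000) (enc_scaleT 9057 50000 h1)) (enc_mul (enc_norm (bf2q2_3.enc h1 h2)) (enc_norm (enc_subr 8013 20000 (enc_scaleT 8013 20000 h1))))) (enc_case (enc_subr 403 400 h1) (enc_add (enc_sub (enc_rat _ 18215751 12500000) (enc_scaleT 2851 6250 h1)) (enc_mul (enc_norm (bf2q2_3.enc h1 h2)) (enc_norm (enc_sub (enc_rat _ 84317 5000000) (enc_scaleT 19 1250 h1))))) (enc_add (enc_sub (enc_rat _ 550072179 500000000) (enc_scaleT 1652669 16250000 h1)) (enc_mul (enc_norm (bf2q2_3.enc h1 h2))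 (enc_norm (enc_sub (enc_rat _ 50521387 250000000) (enc_scaleT 1617227 8125000 h1))))))) (enc_case (enc_subr 59 50 h1) (enc_case (enc_subr 221 200 h1) (enc_case (enc_subr 217 200 h1) (enc_add (enc_add (enc_scaleT 11 7500000 h1) (enc_rat _ 1452584053 1500000000)) (enc_mul (enc_norm (bf2q2_3.enc h1 h2)) (enc_norm (enc_sub (enc_rat _ 790877 225000000) (enc_scaleT 11 1125000 h1))))) (enc_case (enc_subr 437 400 h1) (enc_add (enc_rat _ 12104887 12500000) (enc_scaleT 8761 2500000 (bf2q2_3.enc h1 h2))) (enc_add (enc_add (bf2q2_62.enc h1 h2) (enc_rat _ 484195043 500000000)) (enc_mul (enc_norm (bf2q2_3.enc h1 h2)) (enc_norm (enc_sub (enc_rat _ 88047 25000000) (enc_scaleT 1 62500 h1))))))) (enc_case (enc_subr 9 8 h1) (enc_add (enc_add (bf2q2_75.enc h1 h2) (enc_rat _ 193677973 200000000)) (enc_mul (enc_norm (bf2q2_3.enc h1 h2)) (enc_norm (enc_sub (enc_rat _ 35263 10000000) (bf2q2_78.enc h1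 h2))))) (enc_case (enc_subr 23 20 h1) (enc_add (enc_add (enc_scaleT 3 2500000 h1) (enc_rat _ 24209741 25000000)) (enc_mul (enc_norm (bf2q2_3.enc h1 h2)) (enc_norm (enc_sub (enc_rat _ 8827 2500000) (bf2q2_89.enc h1 h2))))) (enc_add (enc_add (enc_scaleT 1 1500000 h1) (enc_rat _ 72629269 75000000)) (enc_mul (enc_norm (bf2q2_3.enc h1 h2)) (enc_norm (enc_sub (enc_rat _ 35377 10000000) (enc_scaleT 3 100000 h1)))))))) (enc_case (enc_subr 13 10 h1) (enc_case (enc_subr 121 100 h1) (enc_add (enc_add (bf2q2_75.enc h1 h2) (enc_rat _ 48419493 50000000)) (enc_mul (enc_norm (bf2q2_3.enc h1 h2)) (enc_norm (enc_sub (enc_rat _ 106013 30000000) (enc_scaleT 1 37500 h1))))) (enc_case (enc_subr 5 4 h1) (enc_add (enc_add (enc_scaleT 3 4000000 h1) (enc_rat _ 77471213 80000000)) (enc_mul (enc_norm (bf2q2_3.enc h1 h2)) (enc_norm (enc_sub (enc_rat _ 35257 10000000) (bf2q2_78.enc h1 h2))))) (enc_add (enc_add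 (bf2q2_75.enc h1 h2) (enc_rat _ 19367797 20000000)) (bf2q2_132.enc h1 h2)))) (enc_case (enc_subr 27 20 h1) (enc_add (enc_add (bf2q2_62.enc h1 h2) (enc_rat _ 96839011 100000000)) (bf2q2_132.enc h1 h2)) (enc_case (enc_subr 7 5 h1) (enc_add (enc_add (bf2q2_75.enc h1 h2) (enc_rat _ 12104873 12500000)) (bf2q2_132.enc h1 h2)) (enc_add (enc_add (enc_scaleT 13 10000000 h1) (enc_rat _ 48419471 50000000)) (enc_mul (enc_norm (bf2q2_3.enc h1 h2)) (enc_norm (enc_sub (enc_rat _ 35601 10000000) (enc_scaleT 9 200000 h1)))))))))))⟩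
noncomputable def lm1p : Fn2 := ⟨_, _, fun h1 h2 => (enc_lam (enc_norm (enc_sub h1 (cv1p.enc h2))) (enc_sub (cv2p.enc h2) (cv1p.enc h2)))⟩
noncomputable def kf1q2 : Fn2 := ⟨_, _, fun h1 h2 => (enc_norm (enc_mul (cv1p.enc h1) (bf1q2.enc h1 h2)))⟩
noncomputable def kf0q2 : Fn2 := ⟨_, _, fun h1 h2 => (enc_norm (enc_add (c1g.enc h1) (enc_mul (enc_norm (enc_subn 1 h1)) (kcg.enc (enc_neg (c1g.enc h1)) h2))))⟩
noncomputable def lm0p : Fn2 := ⟨_, _, fun h1 h2 => (enc_lam (enc_norm (enc_sub h1 (c1g.enc h2))) (enc_sub (cv1p.enc h2) (c1g.enc h2)))⟩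
noncomputable def n0b : Fn2 := ⟨_, _, fun h1 h2 => (enc_norm (enc_sub (enc_pnc _ 1) (enc_mul (enc_norm (enc_subn 1 h1)) (enc_norm (enc_subr 60451 6250000 (enc_scaleT 1047 62500 (enc_subr 5 128 h2)))))))⟩
noncomputable def rkfq2_35 : Fn3 := ⟨_, _, fun h1 h2 h3 => (enc_add (enc_mul h1 (bf2q2.enc h2 h3)) (enc_mul (enc_norm (enc_mul (enc_norm (enc_sub (enc_pnc _ 1) (lm1p.enc h1 h2))) (cv1p.enc h2))) (enc_norm (enc_sub (bf1q2.enc h2 h3) (bf2q2.enc h2 h3)))))⟩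
noncomputable def rkfq2_36 : Fn3 := ⟨_, _, fun h1 h2 h3 => (enc_subn 1 h2)⟩
noncomputable def rkfq2_37 : Fn3 := ⟨_, _, fun h1 h2 h3 => (gsg.enc (enc_norm (rkfq2_36.enc h1 h2 h3)))⟩
noncomputable def rkfq2_41 : Fn3 := ⟨_, _, fun h1 h2 h3 => (esg.enc (enc_norm (rkfq2_36.enc h1 h2 h3)))⟩
noncomputable def rkfq2_43 : Fn3 := ⟨_, _, fun h1 h2 h3 => (enc_scaleT 3 2 (rkfq2_36.enc h1 h2 h3))⟩
noncomputable def rkfq2_45 : Fn3 := ⟨_, _, fun h1 h2 h3 => (enc_add (enc_pnc _ 1) (rkfq2_37.enc h1 h2 h3))⟩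
noncomputable def rkfq2_78 : Fn3 := ⟨_, _, fun h1 h2 h3 => (enc_mul h1 (bf1q2.enc h2 h3))⟩
noncomputable def rkfq2_80 : Fn3 := ⟨_, _, fun h1 h2 h3 => (enc_sub (enc_pnc _ 1) (lm0p.enc h1 h2))⟩
noncomputable def rkfq2 : Fn3 := ⟨_, _, fun h1 h2 h3 => (enc_case (enc_sub h1 (cv1p.enc h2)) (enc_case (enc_subr 1153 1000 h2) (enc_add (rkfq2_78.enc h1 h2 h3) (enc_mul (enc_norm (rkfq2_80.enc h1 h2 h3)) (enc_norm (enc_sub (kf0q2.enc h2 h3) (enc_mul (c1g.enc h2) (bf1q2.enc h2 h3)))))) (enc_case (enc_subr 2887 2500 h2) (enc_add (rkfq2_78.enc h1 h2 h3) (enc_mul (enc_norm (rkfq2_80.enc h1 h2 h3)) (enc_norm (enc_mul (c1g.enc h2) (enc_norm (enc_sub (n0b.enc h2 h3) (bf1q2.enc h2 h3))))))) (rkfq2_78.enc h1 h2 h3))) (enc_case (enc_sub h1 (cv2p.enc h2)) (enc_case (enc_subr 65 64 h2) (rkfq2_35.enc h1 h2 h3) (enc_case (enc_subr 17 16 h2) (enc_add (kf1q2.enc h2 h3) (enc_mul (lm1p.enc h1 h2) (enc_norm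 (enc_sub (enc_add (enc_sub (enc_mul (enc_norm (enc_mul (enc_norm (enc_sub (rkfq2_37.enc h1 h2 h3) (rkfq2_43.enc h1 h2 h3))) (enc_norm (rkfq2_45.enc h1 h2 h3)))) (enc_inv (enc_sub (rkfq2_45.enc h1 h2 h3) (rkfq2_43.enc h1 h2 h3)))) (enc_wR (enc_mul (enc_norm (enc_sub (enc_half (rkfq2_36.enc h1 h2 h3)) (enc_mul (enc_scaleT 3 4 (enc_sq (enc_norm (rkfq2_36.enc h1 h2 h3)))) (enc_inv (rkfq2_37.enc h1 h2 h3))))) (enc_inv (enc_nat 2 (rkfq2_41.enc h1 h2 h3)))) (rkfq2_36.enc h1 h2 h3) (rkfq2_37.enc h1 h2 h3) (rkfq2_41.enc h1 h2 h3) rfl rfl rfl)) (enc_mul (kcg.enc (enc_norm (enc_sub (enc_scaleT 3 4 (rkfq2_36.enc h1 h2 h3)) (enc_half (rkfq2_37.enc h1 h2 h3)))) h3) (enc_norm (rkfq2_36.enc h1 h2 h3)))) (kf1q2.enc h2 h3))))) (rkfq2_35.enc h1 h2 h3))) (enc_case (enc_sub h1 (cv3p.enc h2)) (enc_add (enc_mul h1 (bf3q2.enc h2 h3)) (enc_mul (enc_norm (enc_sub (enc_pnc _ 1) (lm2p.enc h1 h2))) (enc_norm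 (enc_sub (kf2q2.enc h2 h3) (enc_mul (cv2p.enc h2) (bf3q2.enc h2 h3)))))) (enc_add (kf3q2.enc h2 h3) (enc_mul (lm3p.enc h1 h2) (enc_norm (enc_sub (kf4q2.enc h2 h3) (kf3q2.enc h2 h3))))))))⟩
noncomputable def rsfq2 : Fn3 := ⟨_, _, fun h1 h2 h3 => (enc_case h1 (enc_neg (rkfq2.enc (enc_neg h1) h2 h3)) (rkfq2.enc h1 h2 h3))⟩
noncomputable def cv3r : Fn1 := ⟨_, _, fun h1 => (enc_norm (enc_add (enc_half (enc_subr 1 2 (swg.enc h1))) (enc_half (c3g.enc h1))))⟩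
noncomputable def kf3q3 : Fn2 := ⟨_, _, fun h1 h2 => (enc_norm (enc_mul (cv3r.enc h1) (bf3q3.enc h1 h2)))⟩
noncomputable def kf4q3 : Fn2 := ⟨_, _, fun h1 h2 => (enc_norm (enc_sub (enc_mul (enc_norm (enc_subn 2 h1)) (kcg.enc (enc_norm (enc_sub (enc_scaleT 1 4 h1) (enc_half (c3g.enc h1)))) h2)) (enc_mul (enc_norm (enc_mul (enc_norm (enc_sub (enc_nat 2 (c3g.enc h1)) h1)) (enc_norm (enc_sub (enc_add (c3g.enc h1) (enc_pnc _ 3)) (enc_scaleT 3 2 h1))))) (enc_inv (enc_nat 4 (enc_subn 1 h1))))))⟩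
noncomputable def lm3r : Fn2 := ⟨_, _, fun h1 h2 => (enc_lam (enc_norm (enc_sub h1 (cv3r.enc h2))) (enc_sub (c3g.enc h2) (cv3r.enc h2)))⟩
noncomputable def lm2r : Fn2 := ⟨_, _, fun h1 h2 => (enc_lam (enc_norm (enc_sub h1 (cv2r.enc h2))) (enc_sub (cv3r.enc h2) (cv2r.enc h2)))⟩
noncomputable def lm1r : Fn2 := ⟨_, _, fun h1 h2 => (enc_lam (enc_norm (enc_sub h1 (cv1r.enc h2))) (enc_sub (cv2r.enc h2) (cv1r.enc h2)))⟩
noncomputable def rkfq3 : Fn3 := ⟨_, _, fun h1 h2 h3 => (enc_case (enc_sub h1 (cv1r.enc h2)) (enc_mul h1 (bf1q3.enc h2 h3)) (enc_case (enc_sub h1 (cv2r.enc h2)) (enc_add (enc_mul h1 (bf2q3.enc h2 h3)) (enc_mul (enc_norm (enc_mul (enc_norm (enc_sub (enc_pnc _ 1) (lm1r.enc h1 h2))) (cv1r.enc h2))) (enc_norm (enc_sub (bf1q3.enc h2 h3) (bf2q3.enc h2 h3))))) (enc_case (enc_sub h1 (cv3r.enc h2)) (enc_add (enc_mul h1 (bf3q3.enc h2 h3)) (enc_mul (enc_norm (enc_mul (enc_norm (enc_sub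 (enc_pnc _ 1) (lm2r.enc h1 h2))) (cv2r.enc h2))) (enc_norm (enc_sub (bf2q3.enc h2 h3) (bf3q3.enc h2 h3))))) (enc_add (kf3q3.enc h2 h3) (enc_mul (lm3r.enc h1 h2) (enc_norm (enc_sub (kf4q3.enc h2 h3) (kf3q3.enc h2 h3))))))))⟩
noncomputable def rsfq3 : Fn3 := ⟨_, _, fun h1 h2 h3 => (enc_case h1 (enc_neg (rkfq3.enc (enc_neg h1) h2 h3)) (rkfq3.enc h1 h2 h3))⟩
noncomputable def rxq0 : Fn3 := ⟨_, _, fun h1 h2 h3 => (enc_case (enc_sub h1 (cv1m.enc h2)) (enc_add (enc_mul h1 (bx1q0.enc h2 h3)) (enc_mul (enc_norm (enc_sub (enc_pnc _ 1) (lm0m.enc h1 h2))) (enc_norm (enc_sub (l0q0.enc h2 h3) (enc_mul (c1g.enc h2) (bx1q0.enc h2 h3)))))) (enc_case (enc_sub h1 (cv2m.enc h2)) (enc_add (enc_mul h1 (bx2q0.enc h2 h3)) (enc_mul (enc_norm (enc_mul (enc_norm (enc_sub (enc_pnc _ 1) (lm1m.enc h1 h2))) (cv1m.enc h2))) (enc_norm (enc_sub (bx1q0.enc h2 h3) (bx2q0.enc h2 h3))))) (enc_case (enc_sub h1 (cv3m.enc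 h2)) (enc_add (enc_mul h1 (bx3q0.enc h2 h3)) (enc_mul (enc_norm (enc_mul (enc_norm (enc_sub (enc_pnc _ 1) (lm2m.enc h1 h2))) (cv2m.enc h2))) (enc_norm (enc_sub (bx2q0.enc h2 h3) (bx3q0.enc h2 h3))))) (enc_add (l3q0.enc h2 h3) (enc_mul (lm3m.enc h1 h2) (enc_norm (enc_sub (l4q0.enc h2 h3) (l3q0.enc h2 h3))))))))⟩
noncomputable def rlq0 : Fn3 := ⟨_, _, fun h1 h2 h3 => (enc_case h1 (enc_neg (rxq0.enc (enc_neg h1) h2 h3)) (rxq0.enc h1 h2 h3))⟩
noncomputable def bx2q1_3 : Fn2 := ⟨_, _, fun h1 h2 => (enc_subr 5 128 h2)⟩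
noncomputable def bx2q1_131 : Fn2 := ⟨_, _, fun h1 h2 => (enc_sq (enc_norm (bx2q1_3.enc h1 h2)))⟩
noncomputable def bx2q1 : Fn2 := ⟨_, _, fun h1 h2 => (enc_norm (enc_case (enc_subr 123 128 h1) (enc_case (enc_subr 79 100 h1) (enc_case (enc_subr 13 20 h1) (enc_case (enc_subr 3 5 h1) (enc_add (enc_sub (enc_rat _ 87243 100000000) (enc_scaleT 289 10000000 h1)) (enc_mul (enc_norm (bx2q1_3.enc h1 h2)) (enc_norm (enc_subr 4509 10000000 (enc_scaleT 183 500000 h1))))) (enc_add (enc_sub (enc_rat _ 17553 20000000) (enc_scaleT 47 1250000 h1)) (enc_mul (enc_norm (bx2q1_3.enc h1 h2)) (enc_norm (enc_subr 6669 10000000 (enc_scaleT 363 500000 h1)))))) (enc_case (enc_subr 7 10 h1) (enc_add (enc_sub (enc_rat _ 87947 100000000) (enc_scaleT 101 2500000 h1)) (enc_mul (enc_norm (bx2q1_3.enc h1 h2)) (enc_norm (enc_subr 6747 10000000 (enc_scaleT 369 500000 h1))))) (enc_case (enc_subr 3 4 h1) (enc_add (enc_sub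 (enc_rat _ 87877 100000000) (enc_scaleT 197 5000000 h1)) (enc_mul (enc_norm (bx2q1_3.enc h1 h2)) (enc_norm (enc_subr 1341 2000000 (enc_scaleT 183 250000 h1))))) (enc_add (enc_sub (enc_rat _ 175019 200000000) (enc_scaleT 69 2000000 h1)) (enc_mul (enc_norm (bx2q1_3.enc h1 h2)) (enc_norm (enc_subr 4527 8000000 (enc_scaleT 237 400000 h1)))))))) (enc_case (enc_subr 17 20 h1) (enc_case (enc_subr 41 50 h1) (enc_add (enc_sub (enc_rat _ 3483 4000000) (enc_scaleT 29 1000000 h1)) (enc_mul (enc_norm (bx2q1_3.enc h1 h2)) (enc_norm (enc_subr 4533 10000000 (enc_scaleT 9 20000 h1))))) (enc_add (enc_sub (enc_rat _ 52163 60000000) (enc_scaleT 41 1500000 h1)) (enc_mul (enc_norm (bx2q1_3.enc h1 h2)) (enc_norm (enc_subr 14009 30000000 (enc_scaleT 7 15000 h1)))))) (enc_case (enc_subr 22 25 h1) (enc_add (enc_sub (enc_rat _ 52129 60000000) (enc_scaleT 1 37500 h1)) (enc_mul (enc_norm (bx2q1_3.enc h1 h2))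 (enc_norm (enc_subr 2519 5000000 (enc_scaleT 51 100000 h1))))) (enc_case (enc_subr 91 100 h1) (enc_add (enc_sub (enc_rat _ 260381 300000000) (enc_scaleT 77 3000000 h1)) (enc_mul (enc_norm (bx2q1_3.enc h1 h2)) (enc_norm (enc_subr 7513 15000000 (enc_scaleT 19 37500 h1))))) (enc_add (enc_add (enc_sub (enc_rat _ 5945581 6875000000) (enc_scaleT 3057 137500000 h1)) (enc_mul (enc_norm (bx2q1_3.enc h1 h2)) (enc_norm (enc_subr 127884137 687500000 (enc_scaleT 2810039 13750000 h1))))) (enc_mul (bx2q1_131.enc h1 h2) (enc_norm (enc_subr 9191 250000 (enc_scaleT 101 2500 h1))))))))) (enc_case (enc_subr 397 400 h1) (enc_add (enc_add (enc_sub (enc_rat _ 138590493 16250000000) (enc_scaleT 693363 81250000 h1)) (enc_mul (enc_norm (bx2q1_3.enc h1 h2)) (enc_norm (enc_sub (enc_rat _ 683170857 3250000000) (enc_scaleT 427839 2031250 h1))))) (enc_mul (bx2q1_131.enc h1 h2) (enc_norm (enc_subr 4367 1625000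 (enc_scaleT 22 8125 h1))))) (enc_case (enc_subr 249 250 h1) (enc_add (enc_sub (enc_rat _ 130801 17500000) (enc_scaleT 523 70000 h1)) (enc_mul (enc_norm (bx2q1_3.enc h1 h2)) (enc_norm (enc_sub (enc_rat _ 9422449 70000000) (enc_scaleT 2353 17500 h1))))) (enc_add (enc_sub (enc_rat _ 41 5000) (enc_scaleT 41 5000 h1)) (enc_mul (enc_norm (bx2q1_3.enc h1 h2)) (enc_norm (enc_sub (enc_rat _ 6871 40000) (enc_scaleT 6871 40000 h1)))))))))⟩
noncomputable def rxq1_35 : Fn3 := ⟨_, _, fun h1 h2 h3 => (enc_add (enc_mul h1 (bx2q1.enc h2 h3)) (enc_mul (enc_norm (enc_mul (enc_norm (enc_sub (enc_pnc _ 1) (lm1m.enc h1 h2))) (cv1m.enc h2))) (enc_norm (enc_sub (bx1q1.enc h2 h3) (bx2q1.enc h2 h3)))))⟩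
noncomputable def rxq1_37 : Fn3 := ⟨_, _, fun h1 h2 h3 => (enc_sub (enc_pnc _ 1) h2)⟩
noncomputable def rxq1 : Fn3 := ⟨_, _, fun h1 h2 h3 => (enc_case (enc_sub h1 (cv1m.enc h2)) (enc_add (enc_mul h1 (bx1q1.enc h2 h3)) (enc_mul (enc_norm (enc_sub (enc_pnc _ 1) (lm0m.enc h1 h2))) (enc_norm (enc_sub (l0q1.enc h2 h3) (enc_mul (c1g.enc h2) (bx1q1.enc h2 h3)))))) (enc_case (enc_sub h1 (cv2m.enc h2)) (enc_case (enc_subr 15 16 h2) (rxq1_35.enc h1 h2 h3) (enc_case (enc_subr 63 64 h2) (enc_add (l1q1.enc h2 h3) (enc_mul (lm1m.enc h1 h2) (enc_norm (enc_sub (enc_sub (qsg.enc (enc_norm (rxq1_37.enc h1 h2 h3))) (enc_mul (enc_norm (enc_nat 2 (enc_sub (rxq1_37.enc h1 h2 h3) h3))) (enc_norm (enc_mul (esg.enc (enc_norm (rxq1_37.enc h1 h2 h3))) (kcg.enc (enc_norm (enc_sub (enc_scaleT 3 4 (rxq1_37.enc h1 h2 h3)) (enc_half (gsg.enc (enc_norm (rxq1_37.enc h1 h2 h3)))))) h3))))) (l1q1.enc h2 h3))))) (rxq1_35.enc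 h1 h2 h3))) (enc_case (enc_sub h1 (cv3m.enc h2)) (enc_add (enc_mul h1 (bx3q1.enc h2 h3)) (enc_mul (enc_norm (enc_sub (enc_pnc _ 1) (lm2m.enc h1 h2))) (enc_norm (enc_sub (l2q1.enc h2 h3) (enc_mul (cv2m.enc h2) (bx3q1.enc h2 h3)))))) (enc_add (l3q1.enc h2 h3) (enc_mul (lm3m.enc h1 h2) (enc_norm (enc_sub (l4q1.enc h2 h3) (l3q1.enc h2 h3))))))))⟩
noncomputable def rlq1 : Fn3 := ⟨_, _, fun h1 h2 h3 => (enc_case h1 (enc_neg (rxq1.enc (enc_neg h1) h2 h3)) (rxq1.enc h1 h2 h3))⟩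
noncomputable def l2q2_4 : Fn2 := ⟨_, _, fun h1 h2 => (enc_subr 5 128 h2)⟩
noncomputable def l2q2_43 : Fn2 := ⟨_, _, fun h1 h2 => (enc_sq (enc_norm (l2q2_4.enc h1 h2)))⟩
noncomputable def l2q2_198 : Fn2 := ⟨_, _, fun h1 h2 => (enc_subn 1 h1)⟩
noncomputable def l2q2 : Fn2 := ⟨_, _, fun h1 h2 => (enc_norm (enc_case (enc_subr 65 64 h1) (enc_mul (cv2p.enc h1) (enc_norm (enc_case (enc_subr 251 250 h1) (enc_add (enc_subr 8321 400000 (enc_scaleT 8321 400000 h1)) (enc_mul (enc_norm (l2q2_4.enc h1 h2)) (enc_norm (enc_subr 21749 40000 (enc_scaleT 21749 40000 h1))))) (enc_case (enc_subr 403 400 h1) (enc_add (enc_subr 11337153 700000000 (enc_scaleT 227 14000 h1)) (enc_mul (enc_norm (l2q2_4.enc h1 h2)) (enc_norm (enc_subr 3995993 14000000 (enc_scaleT 5013 17500 h1))))) (enc_add (enc_add (enc_subr 37791649 1250000000 (enc_scaleT 1224729 40625000 h1)) (enc_mul (enc_norm (l2q2_4.enc h1 h2)) (enc_norm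 (enc_subr 33511589 50000000 (enc_scaleT 135768 203125 h1))))) (enc_mul (l2q2_43.enc h1 h2) (enc_norm (enc_sub (enc_rat _ 2077 250000) (enc_scaleT 67 8125 h1))))))))) (enc_case (enc_subr 17 16 h1) (enc_sub (qsg.enc (enc_norm (l2q2_198.enc h1 h2))) (enc_mul (enc_norm (enc_nat 2 (enc_sub (l2q2_198.enc h1 h2) h2))) (enc_norm (enc_mul (esg.enc (enc_norm (l2q2_198.enc h1 h2))) (kcg.enc (enc_norm (enc_sub (enc_scaleT 3 4 (l2q2_198.enc h1 h2)) (enc_half (gsg.enc (enc_norm (l2q2_198.enc h1 h2)))))) h2))))) (enc_mul (cv2p.enc h1) (enc_norm (enc_case (enc_subr 59 50 h1) (enc_case (enc_subr 221 200 h1) (enc_case (enc_subr 217 200 h1) (enc_add (enc_add (enc_add (enc_scaleT 1701 25000000 h1) (enc_rat _ 12322883 5000000000)) (enc_mul (enc_norm (l2q2_4.enc h1 h2)) (enc_norm (enc_sub (enc_rat _ 457455623 562500000) (enc_scaleT 4216663 5625000 h1))))) (enc_mul (l2q2_43.enc h1 h2) (enc_norm (enc_sub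 (enc_rat _ 36239 225000) (enc_scaleT 167 1125 h1))))) (enc_case (enc_subr 437 400 h1) (enc_add (enc_add (enc_scaleT 3 62500 h1) (enc_rat _ 31079 12500000)) (enc_mul (enc_norm (l2q2_4.enc h1 h2)) (enc_norm (enc_sub (enc_rat _ 2449 7500000) (enc_scaleT 29 75000 h1))))) (enc_add (enc_add (enc_scaleT 7 156250 h1) (enc_rat _ 311227 125000000)) (enc_mul (enc_norm (l2q2_4.enc h1 h2)) (enc_norm (enc_sub (enc_rat _ 32787 50000000) (enc_scaleT 43 62500 h1))))))) (enc_case (enc_subr 9 8 h1) (enc_add (enc_add (enc_scaleT 49 1000000 h1) (enc_rat _ 99407 40000000)) (enc_mul (enc_norm (l2q2_4.enc h1 h2)) (enc_norm (enc_sub (enc_rat _ 22441 20000000) (enc_scaleT 111 100000 h1))))) (enc_case (enc_subr 23 20 h1) (enc_add (enc_add (enc_scaleT 61 1250000 h1) (enc_rat _ 12427 5000000)) (enc_mul (enc_norm (l2q2_4.enc h1 h2)) (enc_norm (enc_sub (enc_rat _ 14753 10000000) (enc_scaleT 89 62500 h1)))))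 (enc_add (enc_add (enc_scaleT 59 1500000 h1) (enc_rat _ 374443 150000000)) (enc_mul (enc_norm (l2q2_4.enc h1 h2)) (enc_norm (enc_sub (enc_rat _ 27983 15000000) (enc_scaleT 529 300000 h1)))))))) (enc_case (enc_subr 13 10 h1) (enc_case (enc_subr 121 100 h1) (enc_add (enc_add (enc_scaleT 47 3000000 h1) (enc_rat _ 47329 18750000)) (enc_mul (enc_norm (l2q2_4.enc h1 h2)) (enc_norm (enc_sub (enc_rat _ 2521 1500000) (enc_scaleT 241 150000 h1))))) (enc_case (enc_subr 5 4 h1) (enc_add (enc_add (enc_scaleT 9 500000 h1) (enc_rat _ 252139 100000000)) (enc_mul (enc_norm (l2q2_4.enc h1 h2)) (enc_norm (enc_sub (enc_rat _ 27281 20000000) (enc_scaleT 269 200000 h1))))) (enc_add (enc_add (enc_scaleT 673 1250000 h1) (enc_rat _ 187089 100000000)) (enc_mul (enc_norm (l2q2_4.enc h1 h2)) (enc_norm (enc_sub (enc_rat _ 17503 10000000) (enc_scaleT 827 500000 h1))))))) (enc_case (enc_subr 27 20 h1) (enc_add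 (enc_add (enc_scaleT 223 250000 h1) (enc_rat _ 141121 100000000)) (enc_mul (enc_norm (l2q2_4.enc h1 h2)) (enc_norm (enc_sub (enc_rat _ 17633 10000000) (enc_scaleT 26 15625 h1))))) (enc_case (enc_subr 7 5 h1) (enc_add (enc_add (enc_scaleT 5741 5000000 h1) (enc_rat _ 53267 50000000)) (enc_mul (enc_norm (l2q2_4.enc h1 h2)) (enc_norm (enc_sub (enc_rat _ 17741 10000000) (enc_scaleT 209 125000 h1))))) (enc_add (enc_add (enc_scaleT 13233 10000000 h1) (enc_rat _ 4101 5000000)) (enc_mul (enc_norm (l2q2_4.enc h1 h2)) (enc_norm (enc_sub (enc_rat _ 33659 10000000) (enc_scaleT 2809 1000000 h1))))))))))))))⟩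
noncomputable def bx2q2_3 : Fn2 := ⟨_, _, fun h1 h2 => (enc_subr 5 128 h2)⟩
noncomputable def bx2q2_42 : Fn2 := ⟨_, _, fun h1 h2 => (enc_sq (enc_norm (bx2q2_3.enc h1 h2)))⟩
noncomputable def bx2q2 : Fn2 := ⟨_, _, fun h1 h2 => (enc_norm (enc_case (enc_subr 133 128 h1) (enc_case (enc_subr 251 250 h1) (enc_add (enc_subr 8321 400000 (enc_scaleT 8321 400000 h1)) (enc_mul (enc_norm (bx2q2_3.enc h1 h2)) (enc_norm (enc_subr 21749 40000 (enc_scaleT 21749 40000 h1))))) (enc_case (enc_subr 403 400 h1) (enc_add (enc_subr 11337153 700000000 (enc_scaleT 227 14000 h1)) (enc_mul (enc_norm (bx2q2_3.enc h1 h2)) (enc_norm (enc_subr 3995993 14000000 (enc_scaleT 5013 17500 h1))))) (enc_add (enc_add (enc_subr 37791649 1250000000 (enc_scaleT 1224729 40625000 h1)) (enc_mul (enc_norm (bx2q2_3.enc h1 h2)) (enc_norm (enc_subr 33511589 50000000 (enc_scaleT 135768 203125 h1))))) (enc_mul (bx2q2_42.enc h1 h2)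 (enc_norm (enc_sub (enc_rat _ 2077 250000) (enc_scaleT 67 8125 h1))))))) (enc_case (enc_subr 59 50 h1) (enc_case (enc_subr 221 200 h1) (enc_case (enc_subr 217 200 h1) (enc_add (enc_add (enc_add (enc_scaleT 1701 25000000 h1) (enc_rat _ 12322883 5000000000)) (enc_mul (enc_norm (bx2q2_3.enc h1 h2)) (enc_norm (enc_sub (enc_rat _ 457455623 562500000) (enc_scaleT 4216663 5625000 h1))))) (enc_mul (bx2q2_42.enc h1 h2) (enc_norm (enc_sub (enc_rat _ 36239 225000) (enc_scaleT 167 1125 h1))))) (enc_case (enc_subr 437 400 h1) (enc_add (enc_add (enc_scaleT 3 62500 h1) (enc_rat _ 31079 12500000)) (enc_mul (enc_norm (bx2q2_3.enc h1 h2)) (enc_norm (enc_sub (enc_rat _ 2449 7500000) (enc_scaleT 29 75000 h1))))) (enc_add (enc_add (enc_scaleT 7 156250 h1) (enc_rat _ 311227 125000000)) (enc_mul (enc_norm (bx2q2_3.enc h1 h2)) (enc_norm (enc_sub (enc_rat _ 32787 50000000) (enc_scaleT 43 62500 h1)))))))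 (enc_case (enc_subr 9 8 h1) (enc_add (enc_add (enc_scaleT 49 1000000 h1) (enc_rat _ 99407 40000000)) (enc_mul (enc_norm (bx2q2_3.enc h1 h2)) (enc_norm (enc_sub (enc_rat _ 22441 20000000) (enc_scaleT 111 100000 h1))))) (enc_case (enc_subr 23 20 h1) (enc_add (enc_add (enc_scaleT 61 1250000 h1) (enc_rat _ 12427 5000000)) (enc_mul (enc_norm (bx2q2_3.enc h1 h2)) (enc_norm (enc_sub (enc_rat _ 14753 10000000) (enc_scaleT 89 62500 h1))))) (enc_add (enc_add (enc_scaleT 59 1500000 h1) (enc_rat _ 374443 150000000)) (enc_mul (enc_norm (bx2q2_3.enc h1 h2)) (enc_norm (enc_sub (enc_rat _ 27983 15000000) (enc_scaleT 529 300000 h1)))))))) (enc_case (enc_subr 13 10 h1) (enc_case (enc_subr 121 100 h1) (enc_add (enc_add (enc_scaleT 47 3000000 h1) (enc_rat _ 47329 18750000)) (enc_mul (enc_norm (bx2q2_3.enc h1 h2)) (enc_norm (enc_sub (enc_rat _ 2521 1500000) (enc_scaleT 241 150000 h1))))) (enc_case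 (enc_subr 5 4 h1) (enc_add (enc_add (enc_scaleT 9 500000 h1) (enc_rat _ 252139 100000000)) (enc_mul (enc_norm (bx2q2_3.enc h1 h2)) (enc_norm (enc_sub (enc_rat _ 27281 20000000) (enc_scaleT 269 200000 h1))))) (enc_add (enc_add (enc_scaleT 673 1250000 h1) (enc_rat _ 187089 100000000)) (enc_mul (enc_norm (bx2q2_3.enc h1 h2)) (enc_norm (enc_sub (enc_rat _ 17503 10000000) (enc_scaleT 827 500000 h1))))))) (enc_case (enc_subr 27 20 h1) (enc_add (enc_add (enc_scaleT 223 250000 h1) (enc_rat _ 141121 100000000)) (enc_mul (enc_norm (bx2q2_3.enc h1 h2)) (enc_norm (enc_sub (enc_rat _ 17633 10000000) (enc_scaleT 26 15625 h1))))) (enc_case (enc_subr 7 5 h1) (enc_add (enc_add (enc_scaleT 5741 5000000 h1) (enc_rat _ 53267 50000000)) (enc_mul (enc_norm (bx2q2_3.enc h1 h2)) (enc_norm (enc_sub (enc_rat _ 17741 10000000) (enc_scaleT 209 125000 h1))))) (enc_add (enc_add (enc_scaleT 13233 10000000 h1)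 (enc_rat _ 4101 5000000)) (enc_mul (enc_norm (bx2q2_3.enc h1 h2)) (enc_norm (enc_sub (enc_rat _ 33659 10000000) (enc_scaleT 2809 1000000 h1)))))))))))⟩
noncomputable def l1q2 : Fn2 := ⟨_, _, fun h1 h2 => (enc_norm (enc_mul (cv1p.enc h1) (bx1q2.enc h1 h2)))⟩
noncomputable def l0q2_7 : Fn2 := ⟨_, _, fun h1 h2 => (enc_scaleT 3 4 h1)⟩
noncomputable def l0q2_8 : Fn2 := ⟨_, _, fun h1 h2 => (enc_half (c1g.enc h1))⟩
noncomputable def l0q2 : Fn2 := ⟨_, _, fun h1 h2 => (enc_norm (enc_sub (txg.enc (enc_neg (c1g.enc h1)) (enc_norm (enc_add (l0q2_7.enc h1 h2) (l0q2_8.enc h1 h2))) h2) (txg.enc (c1g.enc h1) (enc_norm (enc_sub (l0q2_7.enc h1 h2) (l0q2_8.enc h1 h2))) h2)))⟩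
noncomputable def n0x : Fn2 := ⟨_, _, fun h1 h2 => (enc_norm (enc_add (enc_scaleT 14031 625000 (enc_subr 5 128 h2)) (enc_rat _ 14221 6250000)))⟩
noncomputable def rxq2_35 : Fn3 := ⟨_, _, fun h1 h2 h3 => (enc_add (enc_mul h1 (bx2q2.enc h2 h3)) (enc_mul (enc_norm (enc_mul (enc_norm (enc_sub (enc_pnc _ 1) (lm1p.enc h1 h2))) (cv1p.enc h2))) (enc_norm (enc_sub (bx1q2.enc h2 h3) (bx2q2.enc h2 h3)))))⟩
noncomputable def rxq2_36 : Fn3 := ⟨_, _, fun h1 h2 h3 => (enc_subn 1 h2)⟩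
noncomputable def rxq2_64 : Fn3 := ⟨_, _, fun h1 h2 h3 => (enc_mul h1 (bx1q2.enc h2 h3))⟩
noncomputable def rxq2_66 : Fn3 := ⟨_, _, fun h1 h2 h3 => (enc_sub (enc_pnc _ 1) (lm0p.enc h1 h2))⟩
noncomputable def rxq2 : Fn3 := ⟨_, _, fun h1 h2 h3 => (enc_case (enc_sub h1 (cv1p.enc h2)) (enc_case (enc_subr 1153 1000 h2) (enc_add (rxq2_64.enc h1 h2 h3) (enc_mul (enc_norm (rxq2_66.enc h1 h2 h3)) (enc_norm (enc_sub (l0q2.enc h2 h3) (enc_mul (c1g.enc h2) (bx1q2.enc h2 h3)))))) (enc_case (enc_subr 2887 2500 h2) (enc_add (rxq2_64.enc h1 h2 h3) (enc_mul (enc_norm (rxq2_66.enc h1 h2 h3)) (enc_norm (enc_mul (c1g.enc h2) (enc_norm (enc_sub (n0x.enc h2 h3) (bx1q2.enc h2 h3))))))) (rxq2_64.enc h1 h2 h3))) (enc_case (enc_sub h1 (cv2p.enc h2)) (enc_case (enc_subr 65 64 h2) (rxq2_35.enc h1 h2 h3) (enc_case (enc_subr 17 16 h2) (enc_add (l1q2.enc h2 h3) (enc_mul (lm1p.enc h1 h2) (enc_norm (enc_sub (enc_sub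 (qsg.enc (enc_norm (rxq2_36.enc h1 h2 h3))) (enc_mul (enc_norm (enc_nat 2 (enc_sub (rxq2_36.enc h1 h2 h3) h3))) (enc_norm (enc_mul (esg.enc (enc_norm (rxq2_36.enc h1 h2 h3))) (kcg.enc (enc_norm (enc_sub (enc_scaleT 3 4 (rxq2_36.enc h1 h2 h3)) (enc_half (gsg.enc (enc_norm (rxq2_36.enc h1 h2 h3)))))) h3))))) (l1q2.enc h2 h3))))) (rxq2_35.enc h1 h2 h3))) (enc_case (enc_sub h1 (cv3p.enc h2)) (enc_add (enc_mul h1 (bx3q2.enc h2 h3)) (enc_mul (enc_norm (enc_sub (enc_pnc _ 1) (lm2p.enc h1 h2))) (enc_norm (enc_sub (l2q2.enc h2 h3) (enc_mul (cv2p.enc h2) (bx3q2.enc h2 h3)))))) (enc_add (l3q2.enc h2 h3) (enc_mul (lm3p.enc h1 h2) (enc_norm (enc_sub (l4q2.enc h2 h3) (l3q2.enc h2 h3))))))))⟩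
noncomputable def rlq2 : Fn3 := ⟨_, _, fun h1 h2 h3 => (enc_case h1 (enc_neg (rxq2.enc (enc_neg h1) h2 h3)) (rxq2.enc h1 h2 h3))⟩
noncomputable def l3q3 : Fn2 := ⟨_, _, fun h1 h2 => (enc_norm (enc_mul (cv3r.enc h1) (bx3q3.enc h1 h2)))⟩
noncomputable def l4q3_7 : Fn2 := ⟨_, _, fun h1 h2 => (enc_half (c3g.enc h1))⟩
noncomputable def l4q3_8 : Fn2 := ⟨_, _, fun h1 h2 => (enc_scaleT 1 4 h1)⟩
noncomputable def l4q3_9 : Fn2 := ⟨_, _, fun h1 h2 => (enc_sub (l4q3_7.enc h1 h2) (l4q3_8.enc h1 h2))⟩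
noncomputable def l4q3_12 : Fn2 := ⟨_, _, fun h1 h2 => (enc_add (enc_scaleT 1 4 (c3g.enc h1)) (enc_scaleT 3 8 h1))⟩
noncomputable def l4q3_14 : Fn2 := ⟨_, _, fun h1 h2 => (enc_half (l4q3_9.enc h1 h2))⟩
noncomputable def l4q3 : Fn2 := ⟨_, _, fun h1 h2 => (enc_norm (enc_sub (enc_nat 2 (txg.enc (enc_norm (enc_sub (l4q3_8.enc h1 h2) (l4q3_7.enc h1 h2))) (enc_norm (enc_add (l4q3_12.enc h1 h2) (l4q3_14.enc h1 h2))) h2)) (txg.enc (enc_norm (l4q3_9.enc h1 h2)) (enc_norm (enc_sub (l4q3_12.enc h1 h2) (l4q3_14.enc h1 h2))) h2)))⟩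
noncomputable def rxq3 : Fn3 := ⟨_, _, fun h1 h2 h3 => (enc_case (enc_sub h1 (cv1r.enc h2)) (enc_mul h1 (bx1q3.enc h2 h3)) (enc_case (enc_sub h1 (cv2r.enc h2)) (enc_add (enc_mul h1 (bx2q3.enc h2 h3)) (enc_mul (enc_norm (enc_mul (enc_norm (enc_sub (enc_pnc _ 1) (lm1r.enc h1 h2))) (cv1r.enc h2))) (enc_norm (enc_sub (bx1q3.enc h2 h3) (bx2q3.enc h2 h3))))) (enc_case (enc_sub h1 (cv3r.enc h2)) (enc_add (enc_mul h1 (bx3q3.enc h2 h3)) (enc_mul (enc_norm (enc_mul (enc_norm (enc_sub (enc_pnc _ 1) (lm2r.enc h1 h2))) (cv2r.enc h2))) (enc_norm (enc_sub (bx2q3.enc h2 h3) (bx3q3.enc h2 h3))))) (enc_add (l3q3.enc h2 h3) (enc_mul (lm3r.enc h1 h2) (enc_norm (enc_sub (l4q3.enc h2 h3) (l3q3.enc h2 h3))))))))⟩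
noncomputable def rlq3 : Fn3 := ⟨_, _, fun h1 h2 h3 => (enc_case h1 (enc_neg (rxq3.enc (enc_neg h1) h2 h3)) (rxq3.enc h1 h2 h3))⟩
noncomputable def mug3 : Fn1 := ⟨_, _, fun h1 => (enc_inv (enc_add (enc_nat 2 (gsg.enc h1)) (enc_pnc _ 3)))⟩
noncomputable def gug : Fn1 := ⟨_, _, fun h1 => (enc_norm (enc_add (enc_scaleT 3 4 h1) (enc_scaleT 3 2 (enc_sub (enc_pnc _ 1) (gsg.enc h1)))))⟩
noncomputable def kug_2 : Fn1 := ⟨_, _, fun h1 => (enc_sq h1)⟩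
noncomputable def kug : Fn1 := ⟨_, _, fun h1 => (enc_norm (enc_add (enc_add (enc_scaleT 3 4 h1) (enc_scaleT 3 2 (kug_2.enc h1))) (enc_mul (enc_norm (enc_mul (enc_scaleT 3 4 (kug_2.enc h1)) (enc_inv (gsg.enc h1)))) (gug.enc h1))))⟩
noncomputable def kp0q0_3 : Fn2 := ⟨_, _, fun h1 h2 => (enc_subr 5 128 h2)⟩
noncomputable def kp0q0_8 : Fn2 := ⟨_, _, fun h1 h2 => (enc_sub (enc_scaleT 3 4 h1) (enc_half (c1g.enc h1)))⟩
noncomputable def kp0q0 : Fn2 := ⟨_, _, fun h1 h2 => (enc_norm (enc_case (enc_add (kp0q0_8.enc h1 h2) (enc_rat _ 2773 5677)) (enc_mul h1 (enc_norm (enc_case (enc_add (kp0q0_8.enc h1 h2) (enc_rat _ 11223 22708)) (enc_add (enc_sub (enc_rat _ 52253709 262000000) (enc_scaleT 4433737 204687500 (kp0q0_8.enc h1 h2))) (enc_mul (enc_norm (kp0q0_3.enc h1 h2)) (enc_norm (enc_subr 91994073 1310000000 (enc_neg (enc_scaleT 403067 2620000 (kp0q0_8.enc h1 h2))))))) (enc_add (enc_sub (enc_rat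 _ 65222896719 327500000000) (enc_scaleT 1821164569 81875000000 (kp0q0_8.enc h1 h2))) (enc_mul (enc_norm (kp0q0_3.enc h1 h2)) (enc_norm (enc_subr 98527621011 1310000000000 (enc_neg (enc_scaleT 53688280289 327500000000 (kp0q0_8.enc h1 h2)))))))))) (enc_case (enc_add (kp0q0_8.enc h1 h2) (enc_rat _ 299 662)) (enc_sub (kug.enc h1) (enc_mul h1 (enc_norm (enc_mul (kcg.enc (enc_norm (kp0q0_8.enc h1 h2)) h2) (enc_norm (enc_add (gug.enc h1) (enc_nat 2 (c1g.enc h1)))))))) (enc_mul h1 (enc_norm (enc_case (enc_subr 8 331 (kp0q0_8.enc h1 h2)) (enc_case (enc_add (kp0q0_8.enc h1 h2) (enc_rat _ 283 1324)) (enc_add (enc_sub (enc_rat _ 15858782407 525000000000) (enc_scaleT 154617322751 131250000000 (kp0q0_8.enc h1 h2))) (enc_mul (enc_norm (kp0q0_3.enc h1 h2)) (enc_norm (enc_subr 2558374531003 1050000000000 (enc_neg (enc_scaleT 1382327774371 262500000000 (kp0q0_8.enc h1 h2))))))) (enc_add (enc_sub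 (enc_rat _ 2520127 82031250) (enc_scaleT 3086029843 2625000000 (kp0q0_8.enc h1 h2))) (enc_mul (enc_norm (kp0q0_3.enc h1 h2)) (enc_norm (enc_subr 1866893731 787500000 (enc_neg (enc_scaleT 3904232053 787500000 (kp0q0_8.enc h1 h2)))))))) (enc_case (enc_subr 347 1324 (kp0q0_8.enc h1 h2)) (enc_add (enc_sub (enc_rat _ 238543 7812500) (enc_scaleT 145981261 125000000 (kp0q0_8.enc h1 h2))) (enc_mul (enc_norm (kp0q0_3.enc h1 h2)) (enc_norm (enc_subr 1883635739 787500000 (enc_neg (enc_scaleT 200720717 49218750 (kp0q0_8.enc h1 h2))))))) (enc_add (enc_subr 7146077 22500000 (enc_scaleT 36109783 225000000 (kp0q0_8.enc h1 h2))) (enc_mul (enc_norm (kp0q0_3.enc h1 h2)) (enc_norm (enc_subr 441837283 126000000 (enc_scaleT 27589843 157500000 (kp0q0_8.enc h1 h2)))))))))))))⟩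
noncomputable def kn0q0 : Fn2 := ⟨_, _, fun h1 h2 => (enc_norm (enc_add (enc_mul (enc_norm (enc_add (enc_pnc _ 1) (enc_mul (mug3.enc h2) (gug.enc h2)))) (kf0q0.enc h1 h2)) (enc_mul (mug3.enc h2) (kp0q0.enc h1 h2))))⟩
noncomputable def kp0q1_3 : Fn2 := ⟨_, _, fun h1 h2 => (enc_subr 5 128 h2)⟩
noncomputable def kp0q1_9 : Fn2 := ⟨_, _, fun h1 h2 => (enc_sub (enc_scaleT 3 4 h1) (enc_half (c1g.enc h1)))⟩
noncomputable def kp0q1 : Fn2 := ⟨_, _, fun h1 h2 => (enc_norm (enc_mul (enc_norm (enc_subn 1 h1)) (enc_norm (enc_case (enc_subr 8 331 (kp0q1_9.enc h1 h2)) (enc_case (enc_add (kp0q1_9.enc h1 h2) (enc_rat _ 283 1324)) (enc_add (enc_sub (enc_rat _ 15858782407 525000000000) (enc_scaleT 154617322751 131250000000 (kp0q1_9.enc h1 h2))) (enc_mul (enc_norm (kp0q1_3.enc h1 h2)) (enc_norm (enc_subr 2558374531003 1050000000000 (enc_neg (enc_scaleT 1382327774371 262500000000 (kp0q1_9.enc h1 h2)))))))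 (enc_add (enc_sub (enc_rat _ 2520127 82031250) (enc_scaleT 3086029843 2625000000 (kp0q1_9.enc h1 h2))) (enc_mul (enc_norm (kp0q1_3.enc h1 h2)) (enc_norm (enc_subr 1866893731 787500000 (enc_neg (enc_scaleT 3904232053 787500000 (kp0q1_9.enc h1 h2)))))))) (enc_case (enc_subr 347 1324 (kp0q1_9.enc h1 h2)) (enc_add (enc_sub (enc_rat _ 238543 7812500) (enc_scaleT 145981261 125000000 (kp0q1_9.enc h1 h2))) (enc_mul (enc_norm (kp0q1_3.enc h1 h2)) (enc_norm (enc_subr 1883635739 787500000 (enc_neg (enc_scaleT 200720717 49218750 (kp0q1_9.enc h1 h2))))))) (enc_add (enc_subr 7146077 22500000 (enc_scaleT 36109783 225000000 (kp0q1_9.enc h1 h2))) (enc_mul (enc_norm (kp0q1_3.enc h1 h2)) (enc_norm (enc_subr 441837283 126000000 (enc_scaleT 27589843 157500000 (kp0q1_9.enc h1 h2)))))))))))⟩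
noncomputable def kn0q1 : Fn2 := ⟨_, _, fun h1 h2 => (enc_norm (enc_add (enc_mul (enc_norm (enc_add (enc_pnc _ 1) (enc_mul (mug3.enc h2) (gug.enc h2)))) (kf0q1.enc h1 h2)) (enc_mul (mug3.enc h2) (kp0q1.enc h1 h2))))⟩
noncomputable def kpc02_4 : Fn2 := ⟨_, _, fun h1 h2 => (enc_subr 5 128 h2)⟩
noncomputable def kpc02 : Fn2 := ⟨_, _, fun h1 h2 => (enc_norm (enc_mul (enc_norm (enc_subn 1 (yag.enc h1))) (enc_norm (enc_case (enc_subr 3 20 h1) (enc_case (enc_subr 1 25 h1) (enc_add (enc_scaleT 643 2000000 h1) (enc_mul (enc_norm (kpc02_4.enc h1 h2)) (enc_scaleT 1909 200000 h1))) (enc_add (enc_subr 218011 110000000 (enc_scaleT 137141 2750000 h1)) (enc_mul (enc_norm (kpc02_4.enc h1 h2)) (enc_norm (enc_subr 808657 5000000 (enc_scaleT 405283 100000 h1)))))) (enc_case (enc_subr 3 10 h1) (enc_add (enc_subr 731 312500 (enc_scaleT 78377 1500000 h1)) (enc_mul (enc_norm (kpc02_4.enc h1 h2)) (enc_norm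 (enc_subr 4186647 10000000 (enc_scaleT 4324289 750000 h1))))) (enc_case (enc_subr 2 5 h1) (enc_add (enc_subr 25719 50000000 (enc_scaleT 230843 5000000 h1)) (enc_mul (enc_norm (kpc02_4.enc h1 h2)) (enc_norm (enc_add (enc_scaleT 511671 250000 h1) (enc_rat _ 6970457 10000000))))) (enc_add (enc_sub (enc_rat _ 65833933 50000000) (enc_scaleT 1623407 500000 h1)) (enc_mul (enc_norm (kpc02_4.enc h1 h2)) (enc_norm (enc_sub (enc_rat _ 16047829 10000000) (enc_scaleT 222659 1000000 h1)))))))))))⟩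
noncomputable def knc02 : Fn2 := ⟨_, _, fun h1 h2 => (enc_norm (enc_add (enc_mul (enc_norm (enc_add (enc_pnc _ 1) (enc_mul (mug3.enc h2) (gug.enc h2)))) (kfc02.enc h1 h2)) (enc_mul (mug3.enc h2) (kpc02.enc h1 h2))))⟩
noncomputable def bd1q0_3 : Fn2 := ⟨_, _, fun h1 h2 => (enc_subr 5 128 h2)⟩
noncomputable def bd1q0 : Fn2 := ⟨_, _, fun h1 h2 => (enc_norm (enc_case (enc_subr 1 5 h1) (enc_case (enc_subr 1 10 h1) (enc_sub (enc_scaleT 23 10000000 h1) (enc_mul (enc_norm (bd1q0_3.enc h1 h2)) (enc_scaleT 19 1000000 h1))) (enc_add (enc_add (enc_scaleT 9 10000000 h1) (enc_rat _ 7 50000000)) (enc_mul (enc_norm (bd1q0_3.enc h1 h2)) (enc_norm (enc_subr 1 500000 (enc_scaleT 1 1000000 h1)))))) (enc_case (enc_subr 7 20 h1) (enc_add (enc_add (enc_scaleT 1 2500000 h1) (enc_rat _ 3 12500000)) (enc_mul (enc_norm (bd1q0_3.enc h1 h2)) (enc_norm (enc_subr 7 3000000 (enc_scaleT 1 375000 h1))))) (enc_add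 (enc_add (enc_scaleT 1 5000000 h1) (enc_rat _ 31 100000000)) (enc_mul (enc_norm (bd1q0_3.enc h1 h2)) (enc_norm (enc_subr 49 30000000 (enc_scaleT 1 1500000 h1))))))))⟩
noncomputable def kp1q0 : Fn2 := ⟨_, _, fun h1 h2 => (enc_norm (enc_mul (cv1m.enc h1) (bd1q0.enc h1 h2)))⟩
noncomputable def kn1q0 : Fn2 := ⟨_, _, fun h1 h2 => (enc_norm (enc_add (enc_mul (enc_norm (enc_add (enc_pnc _ 1) (enc_mul (mug3.enc h2) (gug.enc h2)))) (kf1q0.enc h1 h2)) (enc_mul (mug3.enc h2) (kp1q0.enc h1 h2))))⟩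
noncomputable def bd1q1_3 : Fn2 := ⟨_, _, fun h1 h2 => (enc_subr 5 128 h2)⟩
noncomputable def bd1q1 : Fn2 := ⟨_, _, fun h1 h2 => (enc_norm (enc_case (enc_subr 79 100 h1) (enc_case (enc_subr 3 5 h1) (enc_add (enc_rat _ 15860209 100000000) (enc_scaleT 57419087 2000000 (bd1q1_3.enc h1 h2))) (enc_case (enc_subr 3 4 h1) (enc_add (enc_rat _ 15860209 100000000) (enc_mul (enc_norm (bd1q1_3.enc h1 h2)) (enc_norm (enc_add (enc_scaleT 1 500000 h1) (enc_rat _ 287095423 10000000))))) (enc_add (enc_add (enc_scaleT 1 4000000 h1) (enc_rat _ 63440761 400000000)) (enc_mul (enc_norm (bd1q1_3.enc h1 h2)) (enc_norm (enc_add (enc_scaleT 1 400000 h1) (enc_rat _ 1148381677 40000000))))))) (enc_case (enc_subr 91 100 h1) (enc_add (enc_rat _ 1586021 10000000) (enc_mul (enc_norm (bd1q1_3.enc h1 h2)) (enc_norm (enc_add (enc_scaleT 1 300000 h1) (enc_rat _ 430643119 15000000))))) (enc_case (enc_subr 15 16 h1)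 (enc_add (enc_add (enc_scaleT 1 2750000 h1) (enc_rat _ 87230973 550000000)) (enc_mul (enc_norm (bd1q1_3.enc h1 h2)) (enc_norm (enc_add (enc_scaleT 1 137500 h1) (enc_rat _ 631609829 22000000))))) (enc_add (enc_rat _ 15860211 100000000) (enc_scaleT 57419089 2000000 (bd1q1_3.enc h1 h2)))))))⟩
noncomputable def kp1q1 : Fn2 := ⟨_, _, fun h1 h2 => (enc_norm (enc_mul (cv1m.enc h1) (bd1q1.enc h1 h2)))⟩
noncomputable def kn1q1 : Fn2 := ⟨_, _, fun h1 h2 => (enc_norm (enc_add (enc_mul (enc_norm (enc_add (enc_pnc _ 1) (enc_mul (mug3.enc h2) (gug.enc h2)))) (kf1q1.enc h1 h2)) (enc_mul (mug3.enc h2) (kp1q1.enc h1 h2))))⟩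
noncomputable def bd1q2_3 : Fn2 := ⟨_, _, fun h1 h2 => (enc_subr 5 128 h2)⟩
noncomputable def bd1q2_199 : Fn2 := ⟨_, _, fun h1 h2 => (enc_scaleT 14939 10000000 (bd1q2_3.enc h1 h2))⟩
noncomputable def bd1q2 : Fn2 := ⟨_, _, fun h1 h2 => (enc_norm (enc_case (enc_subr 9 8 h1) (enc_case (enc_subr 33 32 h1) (enc_case (enc_subr 203 200 h1) (enc_case (enc_subr 403 400 h1) (enc_add (enc_subr 1 15000 (enc_scaleT 1 15000 h1)) (enc_mul (enc_norm (bd1q2_3.enc h1 h2)) (enc_norm (enc_subr 343 37500 (enc_scaleT 343 37500 h1))))) (enc_add (enc_subr 2311 12500000 (enc_scaleT 23 125000 h1)) (enc_mul (enc_norm (bd1q2_3.enc h1 h2)) (enc_norm (enc_subr 19001 5000000 (enc_scaleT 12 3125 h1)))))) (enc_case (enc_subr 409 400 h1) (enc_add (enc_subr 2717 12500000 (enc_scaleT 27 125000 h1)) (enc_mul (enc_norm (bd1q2_3.enc h1 h2)) (enc_norm (enc_subr 66341 15000000 (enc_scaleT 167 37500 h1))))) (enc_add (enc_subr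 83847 350000000 (enc_scaleT 26 109375 h1)) (enc_mul (enc_norm (bd1q2_3.enc h1 h2)) (enc_norm (enc_subr 5677 1000000 (enc_scaleT 71 12500 h1))))))) (enc_case (enc_subr 17 16 h1) (enc_case (enc_subr 209 200 h1) (enc_add (enc_subr 3549 12500000 (enc_scaleT 193 687500 h1)) (enc_mul (enc_norm (bd1q2_3.enc h1 h2)) (enc_norm (enc_subr 7507 1000000 (enc_scaleT 41 5500 h1))))) (enc_add (enc_subr 3711 10937500 (enc_scaleT 73 218750 h1)) (enc_mul (enc_norm (bd1q2_3.enc h1 h2)) (enc_norm (enc_subr 166323 17500000 (enc_scaleT 1639 175000 h1)))))) (enc_case (enc_subr 217 200 h1) (enc_add (enc_subr 176299 450000000 (enc_scaleT 431 1125000 h1)) (enc_mul (enc_norm (bd1q2_3.enc h1 h2)) (enc_norm (enc_subr 1086029 90000000 (enc_scaleT 53 4500 h1))))) (enc_case (enc_subr 221 200 h1) (enc_add (enc_subr 78331 200000000 (enc_scaleT 383 1000000 h1)) (enc_mul (enc_norm (bd1q2_3.enc h1 h2)) (enc_norm (enc_subr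 218603 20000000 (enc_scaleT 1073 100000 h1))))) (enc_add (enc_subr 19417 50000000 (enc_scaleT 19 50000 h1)) (enc_mul (enc_norm (bd1q2_3.enc h1 h2)) (enc_norm (enc_subr 87839 8000000 (enc_scaleT 431 40000 h1))))))))) (enc_case (enc_subr 121 100 h1) (enc_case (enc_subr 577 500 h1) (enc_case (enc_subr 23 20 h1) (enc_add (enc_subr 37979 100000000 (enc_scaleT 931 2500000 h1)) (enc_mul (enc_norm (bd1q2_3.enc h1 h2)) (enc_norm (enc_subr 653 50000 (enc_scaleT 789 62500 h1))))) (enc_add (enc_subr 100327 400000000 (enc_scaleT 1041 4000000 h1)) (enc_mul (enc_norm (bd1q2_3.enc h1 h2)) (enc_norm (enc_subr 83491 40000000 (enc_scaleT 1233 400000 h1)))))) (enc_case (enc_subr 231 200 h1) (enc_add (enc_subr 643 2000000 (enc_scaleT 643 2000000 h1)) (enc_mul (enc_norm (bd1q2_3.enc h1 h2)) (enc_norm (enc_subr 1909 200000 (enc_scaleT 1909 200000 h1))))) (enc_case (enc_subr 59 50 h1) (enc_add (enc_subr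 45481 500000000 (enc_scaleT 1219 10000000 h1)) (enc_mul (enc_norm (bd1q2_3.enc h1 h2)) (enc_norm (enc_add (enc_scaleT 537 1000000 h1) (enc_rat _ 21481 25000000))))) (enc_add (enc_subr 129 50000000 (enc_scaleT 47 1000000 h1)) (enc_mul (enc_norm (bd1q2_3.enc h1 h2)) (enc_norm (enc_add (enc_scaleT 3 100000 h1) (enc_rat _ 583 400000)))))))) (enc_case (enc_subr 13 10 h1) (enc_case (enc_subr 5 4 h1) (enc_add (enc_add (enc_scaleT 71 4000000 h1) (enc_rat _ 21 640000)) (enc_mul (enc_norm (bd1q2_3.enc h1 h2)) (enc_norm (enc_add (enc_scaleT 1 400000 h1) (enc_rat _ 59631 40000000))))) (enc_add (enc_add (enc_scaleT 7 1000000 h1) (enc_rat _ 37 800000)) (bd1q2_199.enc h1 h2))) (enc_case (enc_subr 27 20 h1) (enc_add (enc_add (enc_scaleT 13 5000000 h1) (enc_rat _ 5197 100000000)) (bd1q2_199.enc h1 h2)) (enc_case (enc_subr 7 5 h1) (enc_add (enc_add (enc_scaleT 1 1000000 h1) (enc_rat _ 5413 100000000))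 (bd1q2_199.enc h1 h2)) (enc_add (enc_add (enc_scaleT 1 2000000 h1) (enc_rat _ 5483 100000000)) (bd1q2_199.enc h1 h2))))))))⟩
noncomputable def kpc12a : Fn2 := ⟨_, _, fun h1 h2 => (enc_norm (enc_mul (enc_norm (enc_add (enc_half h1) (enc_half (enc_subr 1 2 (swg.enc (yag.enc h1)))))) (bd1q2.enc (yag.enc h1) h2)))⟩
noncomputable def knc12a : Fn2 := ⟨_, _, fun h1 h2 => (enc_norm (enc_add (enc_mul (enc_norm (enc_add (enc_pnc _ 1) (enc_mul (mug3.enc h2) (gug.enc h2)))) (kfc12a.enc h1 h2)) (enc_mul (mug3.enc h2) (kpc12a.enc h1 h2))))⟩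
noncomputable def kpc12b : Fn2 := ⟨_, _, fun h1 h2 => (enc_norm (enc_mul (enc_norm (enc_half (enc_subr 1 2 (swg.enc h1)))) (bd1q2.enc h1 h2)))⟩
noncomputable def knc12b : Fn2 := ⟨_, _, fun h1 h2 => (enc_norm (enc_add (enc_mul (enc_norm (enc_add (enc_pnc _ 1) (enc_mul (mug3.enc h2) (gug.enc h2)))) (kfc12b.enc h1 h2)) (enc_mul (mug3.enc h2) (kpc12b.enc h1 h2))))⟩
noncomputable def bd1q3_3 : Fn2 := ⟨_, _, fun h1 h2 => (enc_subr 5 128 h2)⟩
noncomputable def bd1q3_10 : Fn2 := ⟨_, _, fun h1 h2 => (enc_scaleT 47548133 10000000 (bd1q3_3.enc h1 h2))⟩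
noncomputable def bd1q3 : Fn2 := ⟨_, _, fun h1 h2 => (enc_norm (enc_case (enc_subr 9 5 h1) (enc_subr 13911 800000 (bd1q3_10.enc h1 h2)) (enc_case (enc_subr 19 10 h1) (enc_add (enc_subr 1738893 100000000 (enc_scaleT 1 10000000 h1)) (bd1q3_10.enc h1 h2)) (enc_subr 869437 50000000 (enc_mul (enc_norm (bd1q3_3.enc h1 h2)) (enc_norm (enc_add (enc_scaleT 1 1000000 h1) (enc_rat _ 23774057 5000000))))))))⟩
noncomputable def kp1q3 : Fn2 := ⟨_, _, fun h1 h2 => (enc_norm (enc_mul (cv1r.enc h1) (bd1q3.enc h1 h2)))⟩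
noncomputable def kn1q3 : Fn2 := ⟨_, _, fun h1 h2 => (enc_norm (enc_add (enc_mul (enc_norm (enc_add (enc_pnc _ 1) (enc_mul (mug3.enc h2) (gug.enc h2)))) (kf1q3.enc h1 h2)) (enc_mul (mug3.enc h2) (kp1q3.enc h1 h2))))⟩
noncomputable def bd2q0_3 : Fn2 := ⟨_, _, fun h1 h2 => (enc_subr 5 128 h2)⟩
noncomputable def bd2q0 : Fn2 := ⟨_, _, fun h1 h2 => (enc_norm (enc_case (enc_subr 1 5 h1) (enc_case (enc_subr 1 10 h1) (enc_scaleT 1 1250000 h1) (enc_add (enc_add (enc_scaleT 7 10000000 h1) (enc_rat _ 1 100000000)) (enc_mul (enc_norm (bd2q0_3.enc h1 h2)) (enc_norm (enc_sub (enc_rat _ 3 5000000) (enc_scaleT 3 500000 h1)))))) (enc_case (enc_subr 7 20 h1) (enc_add (enc_add (enc_scaleT 1 1500000 h1) (enc_rat _ 1 60000000)) (enc_mul (enc_norm (bd2q0_3.enc h1 h2)) (enc_norm (enc_sub (enc_rat _ 7 15000000) (enc_scaleT 1 187500 h1))))) (enc_add (enc_add (enc_scaleT 1 3000000 h1) (enc_rat _ 1 7500000))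 (enc_mul (enc_norm (bd2q0_3.enc h1 h2)) (enc_norm (enc_subr 7 10000000 (enc_neg (enc_scaleT 1 500000 h1)))))))))⟩
noncomputable def kp2q0 : Fn2 := ⟨_, _, fun h1 h2 => (enc_norm (enc_mul (cv2m.enc h1) (bd2q0.enc h1 h2)))⟩
noncomputable def kn2q0 : Fn2 := ⟨_, _, fun h1 h2 => (enc_norm (enc_add (enc_mul (enc_norm (enc_add (enc_pnc _ 1) (enc_mul (mug3.enc h2) (gug.enc h2)))) (kf2q0.enc h1 h2)) (enc_mul (mug3.enc h2) (kp2q0.enc h1 h2))))⟩
noncomputable def kp2q1_4 : Fn2 := ⟨_, _, fun h1 h2 => (enc_subr 5 128 h2)⟩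
noncomputable def kp2q1_15 : Fn2 := ⟨_, _, fun h1 h2 => (enc_scaleT 17761 5000000 (kp2q1_4.enc h1 h2))⟩
noncomputable def kp2q1_45 : Fn2 := ⟨_, _, fun h1 h2 => (enc_scaleT 1 3000000 h1)⟩
noncomputable def kp2q1_59 : Fn2 := ⟨_, _, fun h1 h2 => (enc_mul (enc_norm (kp2q1_4.enc h1 h2)) (enc_norm (enc_subr 106639 30000000 (enc_scaleT 1 300000 h1))))⟩
noncomputable def kp2q1_65 : Fn2 := ⟨_, _, fun h1 h2 => (enc_sub (enc_rat _ 1292909 37500000) (kp2q1_45.enc h1 h2))⟩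
noncomputable def kp2q1_130 : Fn2 := ⟨_, _, fun h1 h2 => (enc_sub (enc_pnc _ 1) h1)⟩
noncomputable def kp2q1_131 : Fn2 := ⟨_, _, fun h1 h2 => (gsg.enc (enc_norm (kp2q1_130.enc h1 h2)))⟩
noncomputable def kp2q1_135 : Fn2 := ⟨_, _, fun h1 h2 => (esg.enc (enc_norm (kp2q1_130.enc h1 h2)))⟩
noncomputable def kp2q1_143 : Fn2 := ⟨_, _, fun h1 h2 => (enc_mul (enc_scaleT 3 4 (enc_sq (enc_norm (kp2q1_130.enc h1 h2)))) (enc_inv (kp2q1_131.enc h1 h2)))⟩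
noncomputable def kp2q1 : Fn2 := ⟨_, _, fun h1 h2 => (enc_norm (enc_case (enc_subr 15 16 h1) (enc_mul (cv2m.enc h1) (enc_norm (enc_case (enc_subr 79 100 h1) (enc_case (enc_subr 13 20 h1) (enc_case (enc_subr 3 5 h1) (enc_sub (enc_rat _ 3447731 100000000) (kp2q1_15.enc h1 h2)) (enc_sub (enc_sub (enc_rat _ 3447743 100000000) (enc_scaleT 1 5000000 h1)) (kp2q1_15.enc h1 h2))) (enc_case (enc_subr 3 4 h1) (enc_add (enc_rat _ 344773 10000000) (enc_mul (enc_norm (kp2q1_4.enc h1 h2)) (enc_norm (enc_subr 7107 2000000 (enc_scaleT 1 500000 h1))))) (enc_add (enc_rat _ 344773 10000000) (enc_mul (enc_norm (kp2q1_4.enc h1 h2)) (enc_norm (enc_subr 28431 8000000 (enc_scaleT 1 400000 h1))))))) (enc_case (enc_subr 17 20 h1) (enc_case (enc_subr 41 50 h1) (enc_sub (enc_sub (enc_rat _ 10343269 300000000) (kp2q1_45.enc h1 h2)) (enc_scaleT 35519 10000000 (kp2q1_4.enc h1 h2))) (enc_add (enc_rat _ 3447729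 100000000) (kp2q1_59.enc h1 h2))) (enc_case (enc_subr 22 25 h1) (enc_add (kp2q1_65.enc h1 h2) (kp2q1_59.enc h1 h2)) (enc_case (enc_subr 91 100 h1) (enc_add (kp2q1_65.enc h1 h2) (enc_mul (enc_norm (kp2q1_4.enc h1 h2)) (enc_norm (enc_subr 106727 30000000 (enc_scaleT 1 150000 h1))))) (enc_add (enc_sub (enc_rat _ 948141851 27500000000) (enc_scaleT 93 137500000 h1)) (enc_mul (enc_norm (kp2q1_4.enc h1 h2)) (enc_norm (enc_subr 4880537 1375000000 (enc_neg (enc_scaleT 61 27500000 h1)))))))))))) (enc_case (enc_subr 63 64 h1) (enc_sub (enc_add (kug.enc (enc_norm (kp2q1_130.enc h1 h2))) (enc_wS (enc_mul (enc_norm (enc_sub (enc_mul (enc_norm (enc_mul (enc_norm (kp2q1_143.enc h1 h2)) (enc_norm (enc_subn 3 (enc_nat 4 (kp2q1_131.enc h1 h2)))))) (kp2q1_135.enc h1 h2)) (enc_mul (qsg.enc (enc_norm (kp2q1_130.enc h1 h2))) (enc_norm (enc_sub (enc_half (kp2q1_130.enc h1 h2)) (kp2q1_143.enc h1 h2))))))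 (enc_inv (enc_mul (enc_nat 2 (kp2q1_135.enc h1 h2)) (kp2q1_135.enc h1 h2)))) (kp2q1_130.enc h1 h2) (kp2q1_131.enc h1 h2) (kp2q1_135.enc h1 h2) rfl rfl rfl rfl)) (enc_mul (enc_norm (enc_mul (enc_norm (kp2q1_130.enc h1 h2)) (kcg.enc (enc_norm (enc_sub (enc_scaleT 3 4 (kp2q1_130.enc h1 h2)) (enc_half (kp2q1_131.enc h1 h2)))) h2))) (enc_norm (enc_add (enc_add (enc_pnc _ 1) (gug.enc (enc_norm (kp2q1_130.enc h1 h2)))) (enc_nat 2 (kp2q1_131.enc h1 h2)))))) (enc_mul (cv2m.enc h1) (enc_norm (enc_case (enc_subr 397 400 h1) (enc_add (enc_sub (enc_rat _ 3461442973 16250000000) (enc_scaleT 2163571 10156250 h1)) (enc_mul (enc_norm (kp2q1_4.enc h1 h2)) (enc_norm (enc_sub (enc_rat _ 7312913 1625000000) (enc_scaleT 36583 8125000 h1))))) (enc_case (enc_subr 249 250 h1) (enc_add (enc_sub (enc_rat _ 73843541 350000000) (enc_scaleT 18461 87500 h1)) (enc_mul (enc_norm (kp2q1_4.enc h1 h2)) (enc_norm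 (enc_sub (enc_rat _ 11179 2000000) (enc_scaleT 7 1250 h1))))) (enc_add (enc_sub (enc_rat _ 42131 200000) (enc_scaleT 42131 200000 h1)) (enc_mul (enc_norm (kp2q1_4.enc h1 h2)) (enc_norm (enc_sub (enc_rat _ 119 40000) (enc_scaleT 119 40000 h1))))))))))))⟩
noncomputable def kn2q1 : Fn2 := ⟨_, _, fun h1 h2 => (enc_norm (enc_add (enc_mul (enc_norm (enc_add (enc_pnc _ 1) (enc_mul (mug3.enc h2) (gug.enc h2)))) (kf2q1.enc h1 h2)) (enc_mul (mug3.enc h2) (kp2q1.enc h1 h2))))⟩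
noncomputable def kpc22a_3 : Fn2 := ⟨_, _, fun h1 h2 => (cv2p.enc (yag.enc h1))⟩
noncomputable def kpc22a_5 : Fn2 := ⟨_, _, fun h1 h2 => (enc_subr 5 128 h2)⟩
noncomputable def kpc22a_62 : Fn2 := ⟨_, _, fun h1 h2 => (enc_scaleT 36661 10000000 (kpc22a_5.enc h1 h2))⟩
noncomputable def kpc22a_84 : Fn2 := ⟨_, _, fun h1 h2 => (enc_scaleT 1833 500000 (kpc22a_5.enc h1 h2))⟩
noncomputable def kpc22a_101 : Fn2 := ⟨_, _, fun h1 h2 => (enc_subn 1 (yag.enc h1))⟩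
noncomputable def kpc22a_102 : Fn2 := ⟨_, _, fun h1 h2 => (gsg.enc (enc_norm (kpc22a_101.enc h1 h2)))⟩
noncomputable def kpc22a_106 : Fn2 := ⟨_, _, fun h1 h2 => (esg.enc (enc_norm (kpc22a_101.enc h1 h2)))⟩
noncomputable def kpc22a_114 : Fn2 := ⟨_, _, fun h1 h2 => (enc_mul (enc_scaleT 3 4 (enc_sq (enc_norm (kpc22a_101.enc h1 h2)))) (enc_inv (kpc22a_102.enc h1 h2)))⟩
noncomputable def kpc22a : Fn2 := ⟨_, _, fun h1 h2 => (enc_norm (enc_case (enc_subr 65 64 (yag.enc h1)) (enc_mul (kpc22a_3.enc h1 h2) (enc_norm (enc_case (enc_subr 251 250 (yag.enc h1)) (enc_add (enc_subr 10589 50000 (enc_scaleT 10589 50000 (yag.enc h1))) (enc_mul (enc_norm (kpc22a_5.enc h1 h2)) (enc_norm (enc_subr 41 10000 (enc_scaleT 41 10000 (yag.enc h1)))))) (enc_case (enc_subr 403 400 (yag.enc h1)) (enc_add (enc_subr 18691641 87500000 (enc_scaleT 18691 87500 (yag.enc h1))) (enc_mul (enc_norm (kpc22a_5.enc h1 h2))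 (enc_norm (enc_sub (enc_rat _ 15347 17500000) (enc_scaleT 3 3500 (yag.enc h1)))))) (enc_add (enc_subr 546176269 2500000000 (enc_scaleT 17747199 81250000 (yag.enc h1))) (enc_mul (enc_norm (kpc22a_5.enc h1 h2)) (enc_norm (enc_subr 1708439 250000000 (enc_scaleT 55219 8125000 (yag.enc h1)))))))))) (enc_case (enc_subr 17 16 (yag.enc h1)) (enc_add (enc_sub (kug.enc (enc_norm (kpc22a_101.enc h1 h2))) (enc_wS (enc_mul (enc_norm (enc_sub (enc_mul (enc_norm (enc_mul (enc_norm (kpc22a_114.enc h1 h2)) (enc_norm (enc_subn 3 (enc_nat 4 (kpc22a_102.enc h1 h2)))))) (kpc22a_106.enc h1 h2)) (enc_mul (qsg.enc (enc_norm (kpc22a_101.enc h1 h2))) (enc_norm (enc_sub (enc_half (kpc22a_101.enc h1 h2)) (kpc22a_114.enc h1 h2)))))) (enc_inv (enc_mul (enc_nat 2 (kpc22a_106.enc h1 h2)) (kpc22a_106.enc h1 h2)))) (kpc22a_101.enc h1 h2) (kpc22a_102.enc h1 h2) (kpc22a_106.enc h1 h2) rfl rfl rfl rfl)) (enc_mul (enc_norm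 (enc_mul (enc_norm (kpc22a_101.enc h1 h2)) (kcg.enc (enc_norm (enc_sub (enc_scaleT 3 4 (kpc22a_101.enc h1 h2)) (enc_half (kpc22a_102.enc h1 h2)))) h2))) (enc_norm (enc_sub (enc_sub (enc_pnc _ 1) (gug.enc (enc_norm (kpc22a_101.enc h1 h2)))) (enc_nat 2 (kpc22a_102.enc h1 h2)))))) (enc_mul (kpc22a_3.enc h1 h2) (enc_norm (enc_case (enc_subr 23 20 (yag.enc h1)) (enc_case (enc_subr 217 200 (yag.enc h1)) (enc_add (enc_add (enc_scaleT 23 37500000 (yag.enc h1)) (enc_rat _ 33884123 937500000)) (enc_mul (enc_norm (kpc22a_5.enc h1 h2)) (enc_norm (enc_subr 103421 28125000 (enc_scaleT 23 2250000 (yag.enc h1)))))) (enc_case (enc_subr 9 8 (yag.enc h1)) (enc_sub (enc_rat _ 3614373 100000000) (kpc22a_62.enc h1 h2)) (enc_sub (enc_add (enc_scaleT 1 2500000 (yag.enc h1)) (enc_rat _ 451791 12500000)) (kpc22a_62.enc h1 h2)))) (enc_case (enc_subr 13 10 (yag.enc h1)) (enc_case (enc_subr 59 50 (yag.enc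 h1)) (enc_add (enc_rat _ 1807187 50000000) (enc_mul (enc_norm (kpc22a_5.enc h1 h2)) (enc_norm (enc_subr 55049 15000000 (enc_scaleT 1 300000 (yag.enc h1)))))) (enc_sub (enc_rat _ 1807187 50000000) (kpc22a_84.enc h1 h2))) (enc_case (enc_subr 27 20 (yag.enc h1)) (enc_sub (enc_sub (enc_rat _ 2259 62500) (enc_scaleT 1 5000000 (yag.enc h1))) (kpc22a_84.enc h1 h2)) (enc_sub (enc_rat _ 3614373 100000000) (kpc22a_84.enc h1 h2))))))))))⟩
noncomputable def knc22a : Fn2 := ⟨_, _, fun h1 h2 => (enc_norm (enc_add (enc_mul (enc_norm (enc_add (enc_pnc _ 1) (enc_mul (mug3.enc h2) (gug.enc h2)))) (kfc22a.enc h1 h2)) (enc_mul (mug3.enc h2) (kpc22a.enc h1 h2))))⟩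
noncomputable def kpc22b_5 : Fn2 := ⟨_, _, fun h1 h2 => (enc_subr 5 128 h2)⟩
noncomputable def kpc22b_61 : Fn2 := ⟨_, _, fun h1 h2 => (enc_scaleT 36661 10000000 (kpc22b_5.enc h1 h2))⟩
noncomputable def kpc22b_83 : Fn2 := ⟨_, _, fun h1 h2 => (enc_scaleT 1833 500000 (kpc22b_5.enc h1 h2))⟩
noncomputable def kpc22b_100 : Fn2 := ⟨_, _, fun h1 h2 => (enc_subn 1 h1)⟩
noncomputable def kpc22b_101 : Fn2 := ⟨_, _, fun h1 h2 => (gsg.enc (enc_norm (kpc22b_100.enc h1 h2)))⟩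
noncomputable def kpc22b_105 : Fn2 := ⟨_, _, fun h1 h2 => (esg.enc (enc_norm (kpc22b_100.enc h1 h2)))⟩
noncomputable def kpc22b_113 : Fn2 := ⟨_, _, fun h1 h2 => (enc_mul (enc_scaleT 3 4 (enc_sq (enc_norm (kpc22b_100.enc h1 h2)))) (enc_inv (kpc22b_101.enc h1 h2)))⟩
noncomputable def kpc22b : Fn2 := ⟨_, _, fun h1 h2 => (enc_norm (enc_case (enc_subr 65 64 h1) (enc_mul (cv2p.enc h1) (enc_norm (enc_case (enc_subr 251 250 h1) (enc_add (enc_subr 10589 50000 (enc_scaleT 10589 50000 h1)) (enc_mul (enc_norm (kpc22b_5.enc h1 h2)) (enc_norm (enc_subr 41 10000 (enc_scaleT 41 10000 h1))))) (enc_case (enc_subr 403 400 h1) (enc_add (enc_subr 18691641 87500000 (enc_scaleT 18691 87500 h1)) (enc_mul (enc_norm (kpc22b_5.enc h1 h2)) (enc_norm (enc_sub (enc_rat _ 15347 17500000) (enc_scaleT 3 3500 h1))))) (enc_add (enc_subr 546176269 2500000000 (enc_scaleT 17747199 81250000 h1)) (enc_mul (enc_norm (kpc22b_5.enc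 h1 h2)) (enc_norm (enc_subr 1708439 250000000 (enc_scaleT 55219 8125000 h1))))))))) (enc_case (enc_subr 17 16 h1) (enc_add (enc_sub (kug.enc (enc_norm (kpc22b_100.enc h1 h2))) (enc_wS (enc_mul (enc_norm (enc_sub (enc_mul (enc_norm (enc_mul (enc_norm (kpc22b_113.enc h1 h2)) (enc_norm (enc_subn 3 (enc_nat 4 (kpc22b_101.enc h1 h2)))))) (kpc22b_105.enc h1 h2)) (enc_mul (qsg.enc (enc_norm (kpc22b_100.enc h1 h2))) (enc_norm (enc_sub (enc_half (kpc22b_100.enc h1 h2)) (kpc22b_113.enc h1 h2)))))) (enc_inv (enc_mul (enc_nat 2 (kpc22b_105.enc h1 h2)) (kpc22b_105.enc h1 h2)))) (kpc22b_100.enc h1 h2) (kpc22b_101.enc h1 h2) (kpc22b_105.enc h1 h2) rfl rfl rfl rfl)) (enc_mul (enc_norm (enc_mul (enc_norm (kpc22b_100.enc h1 h2)) (kcg.enc (enc_norm (enc_sub (enc_scaleT 3 4 (kpc22b_100.enc h1 h2)) (enc_half (kpc22b_101.enc h1 h2)))) h2))) (enc_norm (enc_sub (enc_sub (enc_pnc _ 1) (gug.enc (enc_norm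 (kpc22b_100.enc h1 h2)))) (enc_nat 2 (kpc22b_101.enc h1 h2)))))) (enc_mul (cv2p.enc h1) (enc_norm (enc_case (enc_subr 23 20 h1) (enc_case (enc_subr 217 200 h1) (enc_add (enc_add (enc_scaleT 23 37500000 h1) (enc_rat _ 33884123 937500000)) (enc_mul (enc_norm (kpc22b_5.enc h1 h2)) (enc_norm (enc_subr 103421 28125000 (enc_scaleT 23 2250000 h1))))) (enc_case (enc_subr 9 8 h1) (enc_sub (enc_rat _ 3614373 100000000) (kpc22b_61.enc h1 h2)) (enc_sub (enc_add (enc_scaleT 1 2500000 h1) (enc_rat _ 451791 12500000)) (kpc22b_61.enc h1 h2)))) (enc_case (enc_subr 13 10 h1) (enc_case (enc_subr 59 50 h1) (enc_add (enc_rat _ 1807187 50000000) (enc_mul (enc_norm (kpc22b_5.enc h1 h2)) (enc_norm (enc_subr 55049 15000000 (enc_scaleT 1 300000 h1))))) (enc_sub (enc_rat _ 1807187 50000000) (kpc22b_83.enc h1 h2))) (enc_case (enc_subr 27 20 h1) (enc_sub (enc_sub (enc_rat _ 2259 62500) (enc_scaleT 1 5000000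 h1)) (kpc22b_83.enc h1 h2)) (enc_sub (enc_rat _ 3614373 100000000) (kpc22b_83.enc h1 h2))))))))))⟩
noncomputable def knc22b : Fn2 := ⟨_, _, fun h1 h2 => (enc_norm (enc_add (enc_mul (enc_norm (enc_add (enc_pnc _ 1) (enc_mul (mug3.enc h2) (gug.enc h2)))) (kfc22b.enc h1 h2)) (enc_mul (mug3.enc h2) (kpc22b.enc h1 h2))))⟩
noncomputable def bd2q3_3 : Fn2 := ⟨_, _, fun h1 h2 => (enc_subr 5 128 h2)⟩
noncomputable def bd2q3_22 : Fn2 := ⟨_, _, fun h1 h2 => (enc_scaleT 16119951 2000000 (bd2q3_3.enc h1 h2))⟩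
noncomputable def bd2q3 : Fn2 := ⟨_, _, fun h1 h2 => (enc_norm (enc_case (enc_subr 9 5 h1) (enc_case (enc_subr 33 20 h1) (enc_subr 3267047 100000000 (enc_mul (enc_norm (bd2q3_3.enc h1 h2)) (enc_norm (enc_sub (enc_rat _ 40299883 5000000) (enc_scaleT 1 1500000 h1))))) (enc_add (enc_subr 1633529 50000000 (enc_scaleT 1 15000000 h1)) (bd2q3_22.enc h1 h2))) (enc_case (enc_subr 19 10 h1) (enc_subr 1633523 50000000 (bd2q3_22.enc h1 h2)) (enc_add (enc_subr 653413 20000000 (enc_scaleT 1 10000000 h1)) (bd2q3_22.enc h1 h2)))))⟩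
noncomputable def kp2q3 : Fn2 := ⟨_, _, fun h1 h2 => (enc_norm (enc_mul (cv2r.enc h1) (bd2q3.enc h1 h2)))⟩
noncomputable def kn2q3 : Fn2 := ⟨_, _, fun h1 h2 => (enc_norm (enc_add (enc_mul (enc_norm (enc_add (enc_pnc _ 1) (enc_mul (mug3.enc h2) (gug.enc h2)))) (kf2q3.enc h1 h2)) (enc_mul (mug3.enc h2) (kp2q3.enc h1 h2))))⟩
noncomputable def bd3q0_3 : Fn2 := ⟨_, _, fun h1 h2 => (enc_subr 5 128 h2)⟩
noncomputable def bd3q0 : Fn2 := ⟨_, _, fun h1 h2 => (enc_norm (enc_case (enc_subr 1 5 h1) (enc_add (enc_sub (enc_rat _ 204367 2500000) (enc_scaleT 9 10000000 h1)) (enc_mul (enc_norm (bd3q0_3.enc h1 h2)) (enc_norm (enc_sub (enc_rat _ 37242911 5000000) (enc_scaleT 19 1000000 h1))))) (enc_case (enc_subr 7 20 h1) (enc_add (enc_sub (enc_rat _ 12262021 150000000) (enc_scaleT 7 7500000 h1)) (enc_mul (enc_norm (bd3q0_3.enc h1 h2)) (enc_norm (enc_sub (enc_rat _ 13966093 1875000) (enc_scaleT 17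 750000 h1))))) (enc_add (enc_sub (enc_rat _ 2043669 25000000) (enc_scaleT 1 1250000 h1)) (enc_mul (enc_norm (bd3q0_3.enc h1 h2)) (enc_norm (enc_sub (enc_rat _ 2327681 312500) (enc_scaleT 3 250000 h1))))))))⟩
noncomputable def kp3q0 : Fn2 := ⟨_, _, fun h1 h2 => (enc_norm (enc_mul (cv3m.enc h1) (bd3q0.enc h1 h2)))⟩
noncomputable def kn3q0 : Fn2 := ⟨_, _, fun h1 h2 => (enc_norm (enc_add (enc_mul (enc_norm (enc_add (enc_pnc _ 1) (enc_mul (mug3.enc h2) (gug.enc h2)))) (kf3q0.enc h1 h2)) (enc_mul (mug3.enc h2) (kp3q0.enc h1 h2))))⟩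
noncomputable def bd3q1_3 : Fn2 := ⟨_, _, fun h1 h2 => (enc_subr 5 128 h2)⟩
noncomputable def bd3q1_30 : Fn2 := ⟨_, _, fun h1 h2 => (enc_mul (enc_norm (bd3q1_3.enc h1 h2)) (enc_norm (enc_subr 531 10000000 (enc_neg (enc_scaleT 1 500000 h1)))))⟩
noncomputable def bd3q1_52 : Fn2 := ⟨_, _, fun h1 h2 => (enc_scaleT 1 300000 h1)⟩
noncomputable def bd3q1_57 : Fn2 := ⟨_, _, fun h1 h2 => (enc_mul (enc_norm (bd3q1_3.enc h1 h2)) (enc_norm (enc_subr 781 15000000 (enc_neg (bd3q1_52.enc h1 h2)))))⟩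
noncomputable def bd3q1 : Fn2 := ⟨_, _, fun h1 h2 => (enc_norm (enc_case (enc_subr 22 25 h1) (enc_case (enc_subr 3 4 h1) (enc_case (enc_subr 13 20 h1) (enc_sub (enc_neg (enc_rat _ 2103 100000000)) (enc_scaleT 17 312500 (bd3q1_3.enc h1 h2))) (enc_case (enc_subr 7 10 h1) (enc_add (enc_subr 209 10000000 (enc_neg (enc_scaleT 1 5000000 h1))) (bd3q1_30.enc h1 h2)) (enc_subr 263 12500000 (bd3q1_30.enc h1 h2)))) (enc_case (enc_subr 41 50 h1) (enc_case (enc_subr 79 100 h1) (enc_subr 263 12500000 (enc_mul (enc_norm (bd3q1_3.enc h1 h2)) (enc_norm (enc_subr 2109 40000000 (enc_neg (enc_scaleT 1 400000 h1)))))) (enc_add (enc_subr 6391 300000000 (enc_scaleT 1 3000000 h1)) (bd3q1_57.enc h1 h2))) (enc_case (enc_subr 17 20 h1) (enc_add (enc_subr 6473 300000000 (enc_scaleT 1 1500000 h1)) (bd3q1_57.enc h1 h2)) (enc_add (enc_subr 841 37500000 (enc_scaleT 1 600000 h1)) (enc_mul (enc_norm (bd3q1_3.enc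 h1 h2)) (enc_norm (enc_subr 433 7500000 (bd3q1_52.enc h1 h2)))))))) (enc_case (enc_subr 31 32 h1) (enc_case (enc_subr 15 16 h1) (enc_case (enc_subr 91 100 h1) (enc_add (enc_subr 317 12500000 (enc_scaleT 1 200000 h1)) (enc_mul (enc_norm (bd3q1_3.enc h1 h2)) (enc_norm (enc_subr 499 7500000 (enc_scaleT 1 75000 h1))))) (enc_add (enc_subr 36359 1100000000 (enc_scaleT 37 2750000 h1)) (enc_mul (enc_norm (bd3q1_3.enc h1 h2)) (enc_norm (enc_subr 1769 27500000 (enc_scaleT 3 275000 h1)))))) (enc_case (enc_subr 191 200 h1) (enc_add (enc_subr 39433 700000000 (enc_scaleT 67 1750000 h1)) (enc_mul (enc_norm (bd3q1_3.enc h1 h2)) (enc_norm (enc_subr 11287 70000000 (enc_scaleT 1 8750 h1))))) (enc_add (enc_subr 127179 1100000000 (enc_scaleT 69 687500 h1)) (enc_mul (enc_norm (bd3q1_3.enc h1 h2)) (enc_norm (enc_subr 93591 110000000 (enc_scaleT 23 27500 h1))))))) (enc_case (enc_subr 197 200 h1) (enc_case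 (enc_subr 391 400 h1) (enc_add (enc_subr 169423 700000000 (enc_scaleT 101 437500 h1)) (enc_mul (enc_norm (bd3q1_3.enc h1 h2)) (enc_norm (enc_subr 6087 4375000 (enc_scaleT 61 43750 h1))))) (enc_add (enc_subr 46211 100000000 (enc_scaleT 57 125000 h1)) (enc_mul (enc_norm (bd3q1_3.enc h1 h2)) (enc_norm (enc_subr 4699 3000000 (enc_scaleT 59 37500 h1)))))) (enc_case (enc_subr 397 400 h1) (enc_add (enc_subr 43723 60000000 (enc_scaleT 109 150000 h1)) (enc_mul (enc_norm (bd3q1_3.enc h1 h2)) (enc_norm (enc_subr 14827 15000000 (enc_scaleT 37 37500 h1))))) (enc_add (enc_subr 1 1000 (enc_scaleT 1 1000 h1)) (enc_mul (enc_norm (bd3q1_3.enc h1 h2)) (enc_norm (enc_subr 23 18750 (enc_scaleT 23 18750 h1))))))))))⟩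
noncomputable def kp3q1 : Fn2 := ⟨_, _, fun h1 h2 => (enc_norm (enc_mul (cv3m.enc h1) (bd3q1.enc h1 h2)))⟩
noncomputable def kn3q1 : Fn2 := ⟨_, _, fun h1 h2 => (enc_norm (enc_add (enc_mul (enc_norm (enc_add (enc_pnc _ 1) (enc_mul (mug3.enc h2) (gug.enc h2)))) (kf3q1.enc h1 h2)) (enc_mul (mug3.enc h2) (kp3q1.enc h1 h2))))⟩
noncomputable def bd3q2_3 : Fn2 := ⟨_, _, fun h1 h2 => (enc_subr 5 128 h2)⟩
noncomputable def bd3q2_67 : Fn2 := ⟨_, _, fun h1 h2 => (enc_scaleT 923211 2500000 (bd3q2_3.enc h1 h2))⟩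
noncomputable def bd3q2_109 : Fn2 := ⟨_, _, fun h1 h2 => (enc_scaleT 1846423 5000000 (bd3q2_3.enc h1 h2))⟩
noncomputable def bd3q2 : Fn2 := ⟨_, _, fun h1 h2 => (enc_norm (enc_case (enc_subr 217 200 h1) (enc_case (enc_subr 409 400 h1) (enc_case (enc_subr 403 400 h1) (enc_add (enc_add (enc_scaleT 29 375000 h1) (enc_rat _ 239867 1875000)) (enc_mul (enc_norm (bd3q2_3.enc h1 h2)) (enc_norm (enc_add (enc_scaleT 43 75000 h1) (enc_rat _ 11061167 30000000))))) (enc_case (enc_subr 203 200 h1) (enc_add (enc_add (enc_scaleT 11 375000 h1) (enc_rat _ 9598307 75000000)) (enc_mul (enc_norm (bd3q2_3.enc h1 h2)) (enc_norm (enc_add (enc_scaleT 7 75000 h1) (enc_rat _ 443027 1200000))))) (enc_add (enc_add (enc_scaleT 1 93750 h1) (enc_rat _ 599983 4687500)) (enc_mul (enc_norm (bd3q2_3.enc h1 h2)) (enc_norm (enc_add (enc_scaleT 1 18750 h1) (enc_rat _ 11076893 30000000))))))) (enc_case (enc_subr 209 200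 h1) (enc_case (enc_subr 33 32 h1) (enc_add (enc_add (enc_scaleT 1 218750 h1) (enc_rat _ 2800057 21875000)) (enc_mul (enc_norm (bd3q2_3.enc h1 h2)) (enc_norm (enc_add (enc_scaleT 1 43750 h1) (enc_rat _ 5169653 14000000))))) (enc_add (enc_add (enc_scaleT 1 687500 h1) (enc_rat _ 6400291 50000000)) (enc_mul (enc_norm (bd3q2_3.enc h1 h2)) (enc_norm (enc_sub (enc_rat _ 92323 250000) (enc_scaleT 1 137500 h1)))))) (enc_case (enc_subr 17 16 h1) (enc_add (enc_add (enc_scaleT 1 1750000 h1) (enc_rat _ 1120059 8750000)) (bd3q2_67.enc h1 h2)) (enc_add (enc_rat _ 2560147 20000000) (bd3q2_67.enc h1 h2))))) (enc_case (enc_subr 59 50 h1) (enc_case (enc_subr 9 8 h1) (enc_case (enc_subr 221 200 h1) (enc_add (enc_add (enc_scaleT 1 2000000 h1) (enc_rat _ 51202723 400000000)) (bd3q2_67.enc h1 h2)) (enc_add (enc_rat _ 400023 3125000) (bd3q2_67.enc h1 h2))) (enc_case (enc_subr 23 20 h1) (enc_add (enc_rat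 _ 400023 3125000) (enc_mul (enc_norm (bd3q2_3.enc h1 h2)) (enc_norm (enc_add (enc_scaleT 1 250000 h1) (enc_rat _ 3692799 10000000))))) (enc_add (enc_rat _ 400023 3125000) (enc_scaleT 738569 2000000 (bd3q2_3.enc h1 h2))))) (enc_case (enc_subr 13 10 h1) (enc_case (enc_subr 121 100 h1) (enc_add (enc_rat _ 400023 3125000) (enc_mul (enc_norm (bd3q2_3.enc h1 h2)) (enc_norm (enc_add (enc_scaleT 1 300000 h1) (enc_rat _ 11078417 30000000))))) (enc_add (enc_rat _ 400023 3125000) (bd3q2_109.enc h1 h2))) (enc_case (enc_subr 27 20 h1) (enc_add (enc_sub (enc_rat _ 6400381 50000000) (enc_scaleT 1 5000000 h1)) (bd3q2_109.enc h1 h2)) (enc_add (enc_rat _ 2560147 20000000) (bd3q2_109.enc h1 h2)))))))⟩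
noncomputable def kp3q2 : Fn2 := ⟨_, _, fun h1 h2 => (enc_norm (enc_mul (cv3p.enc h1) (bd3q2.enc h1 h2)))⟩
noncomputable def kn3q2 : Fn2 := ⟨_, _, fun h1 h2 => (enc_norm (enc_add (enc_mul (enc_norm (enc_add (enc_pnc _ 1) (enc_mul (mug3.enc h2) (gug.enc h2)))) (kf3q2.enc h1 h2)) (enc_mul (mug3.enc h2) (kp3q2.enc h1 h2))))⟩
noncomputable def bd3q3 : Fn2 := ⟨_, _, fun h1 h2 => (enc_pnc _ 0)⟩
noncomputable def kpc33 : Fn2 := ⟨_, _, fun h1 h2 => (enc_norm (enc_mul (enc_norm (enc_add (enc_half (enc_subr 1 2 (swg.enc (ycg.enc h1)))) (enc_half h1))) (bd3q3.enc (ycg.enc h1) h2)))⟩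
noncomputable def knc33 : Fn2 := ⟨_, _, fun h1 h2 => (enc_norm (enc_add (enc_mul (enc_norm (enc_add (enc_pnc _ 1) (enc_mul (mug3.enc h2) (gug.enc h2)))) (kfc33.enc h1 h2)) (enc_mul (mug3.enc h2) (kpc33.enc h1 h2))))⟩
noncomputable def kp4q0_3 : Fn2 := ⟨_, _, fun h1 h2 => (enc_subr 5 128 h2)⟩
noncomputable def kp4q0_6 : Fn2 := ⟨_, _, fun h1 h2 => (enc_half h1)⟩
noncomputable def kp4q0 : Fn2 := ⟨_, _, fun h1 h2 => (enc_norm (enc_mul h1 (enc_norm (enc_case (enc_subr 1 5 (kp4q0_6.enc h1 h2)) (enc_case (enc_subr 1 10 (kp4q0_6.enc h1 h2)) (enc_add (enc_subr 27115091 100000000 (enc_scaleT 1 1250000 h1)) (enc_mul (enc_norm (kp4q0_3.enc h1 h2)) (enc_norm (enc_subr 109040889 10000000 (enc_neg (enc_scaleT 33 2000000 h1)))))) (enc_add (enc_subr 5423023 20000000 (enc_scaleT 1 500000 h1)) (enc_mul (enc_norm (kp4q0_3.enc h1 h2)) (enc_norm (enc_subr 27260197 2500000 (enc_neg (enc_scaleT 67 1000000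 h1))))))) (enc_case (enc_subr 3 10 (kp4q0_6.enc h1 h2)) (enc_add (enc_subr 27115273 100000000 (enc_scaleT 119 20000000 h1)) (enc_mul (enc_norm (kp4q0_3.enc h1 h2)) (enc_norm (enc_subr 136301 12500 (enc_neg (enc_scaleT 1 15625 h1)))))) (enc_case (enc_subr 2 5 (kp4q0_6.enc h1 h2)) (enc_add (enc_subr 2711593 10000000 (enc_scaleT 169 10000000 h1)) (enc_mul (enc_norm (kp4q0_3.enc h1 h2)) (enc_norm (enc_subr 109041127 10000000 (enc_neg (enc_scaleT 19 2000000 h1)))))) (enc_add (enc_subr 2711761 10000000 (enc_scaleT 379 10000000 h1)) (enc_mul (enc_norm (kp4q0_3.enc h1 h2)) (enc_norm (enc_subr 109050319 10000000 (enc_scaleT 2279 2000000 h1)))))))))))⟩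
noncomputable def kn4q0 : Fn2 := ⟨_, _, fun h1 h2 => (enc_norm (enc_add (enc_mul (enc_norm (enc_add (enc_pnc _ 1) (enc_mul (mug3.enc h2) (gug.enc h2)))) (kf4q0.enc h1 h2)) (enc_mul (mug3.enc h2) (kp4q0.enc h1 h2))))⟩
noncomputable def kp4q1_3 : Fn2 := ⟨_, _, fun h1 h2 => (enc_subr 5 128 h2)⟩
noncomputable def kp4q1_7 : Fn2 := ⟨_, _, fun h1 h2 => (enc_half h1)⟩
noncomputable def kp4q1 : Fn2 := ⟨_, _, fun h1 h2 => (enc_norm (enc_mul (enc_norm (enc_subn 1 h1)) (enc_norm (enc_case (enc_subr 1 5 (kp4q1_7.enc h1 h2)) (enc_case (enc_subr 1 10 (kp4q1_7.enc h1 h2)) (enc_add (enc_subr 27115091 100000000 (enc_scaleT 1 1250000 h1)) (enc_mul (enc_norm (kp4q1_3.enc h1 h2)) (enc_norm (enc_subr 109040889 10000000 (enc_neg (enc_scaleT 33 2000000 h1)))))) (enc_add (enc_subr 5423023 20000000 (enc_scaleT 1 500000 h1)) (enc_mul (enc_norm (kp4q1_3.enc h1 h2)) (enc_norm (enc_subr 27260197 2500000 (enc_neg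 (enc_scaleT 67 1000000 h1))))))) (enc_case (enc_subr 3 10 (kp4q1_7.enc h1 h2)) (enc_add (enc_subr 27115273 100000000 (enc_scaleT 119 20000000 h1)) (enc_mul (enc_norm (kp4q1_3.enc h1 h2)) (enc_norm (enc_subr 136301 12500 (enc_neg (enc_scaleT 1 15625 h1)))))) (enc_case (enc_subr 2 5 (kp4q1_7.enc h1 h2)) (enc_add (enc_subr 2711593 10000000 (enc_scaleT 169 10000000 h1)) (enc_mul (enc_norm (kp4q1_3.enc h1 h2)) (enc_norm (enc_subr 109041127 10000000 (enc_neg (enc_scaleT 19 2000000 h1)))))) (enc_add (enc_subr 2711761 10000000 (enc_scaleT 379 10000000 h1)) (enc_mul (enc_norm (kp4q1_3.enc h1 h2)) (enc_norm (enc_subr 109050319 10000000 (enc_scaleT 2279 2000000 h1)))))))))))⟩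
noncomputable def kn4q1 : Fn2 := ⟨_, _, fun h1 h2 => (enc_norm (enc_add (enc_mul (enc_norm (enc_add (enc_pnc _ 1) (enc_mul (mug3.enc h2) (gug.enc h2)))) (kf4q1.enc h1 h2)) (enc_mul (mug3.enc h2) (kp4q1.enc h1 h2))))⟩
noncomputable def kp4q2_3 : Fn2 := ⟨_, _, fun h1 h2 => (enc_subr 5 128 h2)⟩
noncomputable def kp4q2_9 : Fn2 := ⟨_, _, fun h1 h2 => (enc_sub (enc_half (c3g.enc h1)) (enc_scaleT 1 4 h1))⟩
noncomputable def kp4q2 : Fn2 := ⟨_, _, fun h1 h2 => (enc_norm (enc_mul (enc_norm (enc_subn 1 h1)) (enc_norm (enc_case (kp4q2_9.enc h1 h2) (enc_case (enc_add (kp4q2_9.enc h1 h2) (enc_rat _ 3 10)) (enc_case (enc_add (kp4q2_9.enc h1 h2) (enc_rat _ 2 5)) (enc_add (enc_add (enc_scaleT 1631 10000000 (kp4q2_9.enc h1 h2)) (enc_rat _ 1367717 6250000)) (enc_mul (enc_norm (kp4q2_3.enc h1 h2)) (enc_norm (enc_add (enc_scaleT 1009 500000 (kp4q2_9.enc h1 h2)) (enc_rat _ 11756989 10000000))))) (enc_add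 (enc_add (enc_scaleT 103 625000 (kp4q2_9.enc h1 h2)) (enc_rat _ 1094177 5000000)) (enc_mul (enc_norm (kp4q2_3.enc h1 h2)) (enc_norm (enc_add (enc_scaleT 67 31250 (kp4q2_9.enc h1 h2)) (enc_rat _ 11757493 10000000)))))) (enc_case (enc_add (kp4q2_9.enc h1 h2) (enc_rat _ 1 5)) (enc_add (enc_add (enc_scaleT 829 5000000 (kp4q2_9.enc h1 h2)) (enc_rat _ 2188357 10000000)) (enc_mul (enc_norm (kp4q2_3.enc h1 h2)) (enc_norm (enc_add (enc_scaleT 217 100000 (kp4q2_9.enc h1 h2)) (enc_rat _ 11757571 10000000))))) (enc_case (enc_add (kp4q2_9.enc h1 h2) (enc_rat _ 1 10)) (enc_add (enc_add (enc_scaleT 209 1250000 (kp4q2_9.enc h1 h2)) (enc_rat _ 10941799 50000000)) (enc_mul (enc_norm (kp4q2_3.enc h1 h2)) (enc_norm (enc_add (enc_scaleT 539 250000 (kp4q2_9.enc h1 h2)) (enc_rat _ 11757543 10000000))))) (enc_add (enc_add (enc_scaleT 1699 10000000 (kp4q2_9.enc h1 h2)) (enc_rat _ 175069 800000)) (enc_mul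 (enc_norm (kp4q2_3.enc h1 h2)) (enc_norm (enc_add (enc_scaleT 2149 1000000 (kp4q2_9.enc h1 h2)) (enc_rat _ 367423 312500)))))))) (enc_case (enc_subr 1 5 (kp4q2_9.enc h1 h2)) (enc_case (enc_subr 1 10 (kp4q2_9.enc h1 h2)) (enc_add (enc_add (enc_scaleT 1769 10000000 (kp4q2_9.enc h1 h2)) (enc_rat _ 175069 800000)) (enc_mul (enc_norm (kp4q2_3.enc h1 h2)) (enc_norm (enc_add (enc_scaleT 2213 1000000 (kp4q2_9.enc h1 h2)) (enc_rat _ 367423 312500))))) (enc_add (enc_add (enc_scaleT 1963 10000000 (kp4q2_9.enc h1 h2)) (enc_rat _ 21883431 100000000)) (enc_mul (enc_norm (kp4q2_3.enc h1 h2)) (enc_norm (enc_add (enc_scaleT 459 200000 (kp4q2_9.enc h1 h2)) (enc_rat _ 5878727 5000000)))))) (enc_case (enc_subr 3 10 (kp4q2_9.enc h1 h2)) (enc_add (enc_add (enc_scaleT 249 1000000 (kp4q2_9.enc h1 h2)) (enc_rat _ 21882377 100000000)) (enc_mul (enc_norm (kp4q2_3.enc h1 h2)) (enc_norm (enc_add (enc_scaleT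 2407 1000000 (kp4q2_9.enc h1 h2)) (enc_rat _ 1175723 1000000))))) (enc_case (enc_subr 2 5 (kp4q2_9.enc h1 h2)) (enc_add (enc_add (enc_scaleT 3841 10000000 (kp4q2_9.enc h1 h2)) (enc_rat _ 5469581 25000000)) (enc_mul (enc_norm (kp4q2_3.enc h1 h2)) (enc_norm (enc_add (enc_scaleT 1787 500000 (kp4q2_9.enc h1 h2)) (enc_rat _ 11753729 10000000))))) (enc_add (enc_add (enc_scaleT 1439 2000000 (kp4q2_9.enc h1 h2)) (enc_rat _ 5466227 25000000)) (enc_mul (enc_norm (kp4q2_3.enc h1 h2)) (enc_norm (enc_add (enc_scaleT 14167 1000000 (kp4q2_9.enc h1 h2)) (enc_rat _ 11711357 10000000))))))))))))⟩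
noncomputable def kn4q2 : Fn2 := ⟨_, _, fun h1 h2 => (enc_norm (enc_add (enc_mul (enc_norm (enc_add (enc_pnc _ 1) (enc_mul (mug3.enc h2) (gug.enc h2)))) (kf4q2.enc h1 h2)) (enc_mul (mug3.enc h2) (kp4q2.enc h1 h2))))⟩
noncomputable def kpc43_4 : Fn2 := ⟨_, _, fun h1 h2 => (enc_subr 5 128 h2)⟩
noncomputable def kpc43_9 : Fn2 := ⟨_, _, fun h1 h2 => (enc_sub (enc_half h1) (enc_scaleT 1 4 (ycg.enc h1)))⟩
noncomputable def kpc43 : Fn2 := ⟨_, _, fun h1 h2 => (enc_norm (enc_mul (enc_norm (enc_subn 2 (ycg.enc h1))) (enc_norm (enc_case (kpc43_9.enc h1 h2) (enc_case (enc_add (kpc43_9.enc h1 h2) (enc_rat _ 3 10)) (enc_case (enc_add (kpc43_9.enc h1 h2) (enc_rat _ 2 5)) (enc_add (enc_add (enc_scaleT 1631 10000000 (kpc43_9.enc h1 h2)) (enc_rat _ 1367717 6250000)) (enc_mul (enc_norm (kpc43_4.enc h1 h2)) (enc_norm (enc_add (enc_scaleT 1009 500000 (kpc43_9.enc h1 h2)) (enc_rat _ 11756989 10000000)))))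 (enc_add (enc_add (enc_scaleT 103 625000 (kpc43_9.enc h1 h2)) (enc_rat _ 1094177 5000000)) (enc_mul (enc_norm (kpc43_4.enc h1 h2)) (enc_norm (enc_add (enc_scaleT 67 31250 (kpc43_9.enc h1 h2)) (enc_rat _ 11757493 10000000)))))) (enc_case (enc_add (kpc43_9.enc h1 h2) (enc_rat _ 1 5)) (enc_add (enc_add (enc_scaleT 829 5000000 (kpc43_9.enc h1 h2)) (enc_rat _ 2188357 10000000)) (enc_mul (enc_norm (kpc43_4.enc h1 h2)) (enc_norm (enc_add (enc_scaleT 217 100000 (kpc43_9.enc h1 h2)) (enc_rat _ 11757571 10000000))))) (enc_case (enc_add (kpc43_9.enc h1 h2) (enc_rat _ 1 10)) (enc_add (enc_add (enc_scaleT 209 1250000 (kpc43_9.enc h1 h2)) (enc_rat _ 10941799 50000000)) (enc_mul (enc_norm (kpc43_4.enc h1 h2)) (enc_norm (enc_add (enc_scaleT 539 250000 (kpc43_9.enc h1 h2)) (enc_rat _ 11757543 10000000))))) (enc_add (enc_add (enc_scaleT 1699 10000000 (kpc43_9.enc h1 h2)) (enc_rat _ 175069 800000))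 (enc_mul (enc_norm (kpc43_4.enc h1 h2)) (enc_norm (enc_add (enc_scaleT 2149 1000000 (kpc43_9.enc h1 h2)) (enc_rat _ 367423 312500)))))))) (enc_case (enc_subr 1 5 (kpc43_9.enc h1 h2)) (enc_case (enc_subr 1 10 (kpc43_9.enc h1 h2)) (enc_add (enc_add (enc_scaleT 1769 10000000 (kpc43_9.enc h1 h2)) (enc_rat _ 175069 800000)) (enc_mul (enc_norm (kpc43_4.enc h1 h2)) (enc_norm (enc_add (enc_scaleT 2213 1000000 (kpc43_9.enc h1 h2)) (enc_rat _ 367423 312500))))) (enc_add (enc_add (enc_scaleT 1963 10000000 (kpc43_9.enc h1 h2)) (enc_rat _ 21883431 100000000)) (enc_mul (enc_norm (kpc43_4.enc h1 h2)) (enc_norm (enc_add (enc_scaleT 459 200000 (kpc43_9.enc h1 h2)) (enc_rat _ 5878727 5000000)))))) (enc_case (enc_subr 3 10 (kpc43_9.enc h1 h2)) (enc_add (enc_add (enc_scaleT 249 1000000 (kpc43_9.enc h1 h2)) (enc_rat _ 21882377 100000000)) (enc_mul (enc_norm (kpc43_4.enc h1 h2)) (enc_norm (enc_add (enc_scaleT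 2407 1000000 (kpc43_9.enc h1 h2)) (enc_rat _ 1175723 1000000))))) (enc_case (enc_subr 2 5 (kpc43_9.enc h1 h2)) (enc_add (enc_add (enc_scaleT 3841 10000000 (kpc43_9.enc h1 h2)) (enc_rat _ 5469581 25000000)) (enc_mul (enc_norm (kpc43_4.enc h1 h2)) (enc_norm (enc_add (enc_scaleT 1787 500000 (kpc43_9.enc h1 h2)) (enc_rat _ 11753729 10000000))))) (enc_add (enc_add (enc_scaleT 1439 2000000 (kpc43_9.enc h1 h2)) (enc_rat _ 5466227 25000000)) (enc_mul (enc_norm (kpc43_4.enc h1 h2)) (enc_norm (enc_add (enc_scaleT 14167 1000000 (kpc43_9.enc h1 h2)) (enc_rat _ 11711357 10000000))))))))))))⟩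
noncomputable def knc43 : Fn2 := ⟨_, _, fun h1 h2 => (enc_norm (enc_add (enc_mul (enc_norm (enc_add (enc_pnc _ 1) (enc_mul (mug3.enc h2) (gug.enc h2)))) (kfc43.enc h1 h2)) (enc_mul (mug3.enc h2) (kpc43.enc h1 h2))))⟩
noncomputable def bn3q0 : Fn2 := ⟨_, _, fun h1 h2 => (enc_norm (enc_add (enc_mul (enc_norm (enc_add (enc_pnc _ 1) (enc_mul (mug3.enc h2) (gug.enc h2)))) (bf3q0.enc h1 h2)) (enc_mul (mug3.enc h2) (bd3q0.enc h1 h2))))⟩
noncomputable def bn2q0 : Fn2 := ⟨_, _, fun h1 h2 => (enc_norm (enc_add (enc_mul (enc_norm (enc_add (enc_pnc _ 1) (enc_mul (mug3.enc h2) (gug.enc h2)))) (bf2q0.enc h1 h2)) (enc_mul (mug3.enc h2) (bd2q0.enc h1 h2))))⟩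
noncomputable def bn1q0 : Fn2 := ⟨_, _, fun h1 h2 => (enc_norm (enc_add (enc_mul (enc_norm (enc_add (enc_pnc _ 1) (enc_mul (mug3.enc h2) (gug.enc h2)))) (bf1q0.enc h1 h2)) (enc_mul (mug3.enc h2) (bd1q0.enc h1 h2))))⟩
noncomputable def rknq0 : Fn3 := ⟨_, _, fun h1 h2 h3 => (enc_case (enc_sub h1 (cv1m.enc h2)) (enc_add (enc_mul h1 (bn1q0.enc h2 h3)) (enc_mul (enc_norm (enc_sub (enc_pnc _ 1) (lm0m.enc h1 h2))) (enc_norm (enc_sub (kn0q0.enc h2 h3) (enc_mul (c1g.enc h2) (bn1q0.enc h2 h3)))))) (enc_case (enc_sub h1 (cv2m.enc h2)) (enc_add (enc_mul h1 (bn2q0.enc h2 h3)) (enc_mul (enc_norm (enc_mul (enc_norm (enc_sub (enc_pnc _ 1) (lm1m.enc h1 h2))) (cv1m.enc h2))) (enc_norm (enc_sub (bn1q0.enc h2 h3) (bn2q0.enc h2 h3))))) (enc_case (enc_sub h1 (cv3m.enc h2)) (enc_add (enc_mul h1 (bn3q0.enc h2 h3)) (enc_mul (enc_norm (enc_mul (enc_norm (enc_sub (enc_pnc _ 1) (lm2m.enc h1 h2))) (cv2m.enc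 h2))) (enc_norm (enc_sub (bn2q0.enc h2 h3) (bn3q0.enc h2 h3))))) (enc_add (kn3q0.enc h2 h3) (enc_mul (lm3m.enc h1 h2) (enc_norm (enc_sub (kn4q0.enc h2 h3) (kn3q0.enc h2 h3))))))))⟩
noncomputable def rsnq0 : Fn3 := ⟨_, _, fun h1 h2 h3 => (enc_case h1 (enc_neg (rknq0.enc (enc_neg h1) h2 h3)) (rknq0.enc h1 h2 h3))⟩
noncomputable def bn3q1 : Fn2 := ⟨_, _, fun h1 h2 => (enc_norm (enc_add (enc_mul (enc_norm (enc_add (enc_pnc _ 1) (enc_mul (mug3.enc h2) (gug.enc h2)))) (bf3q1.enc h1 h2)) (enc_mul (mug3.enc h2) (bd3q1.enc h1 h2))))⟩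
noncomputable def bd2q1_3 : Fn2 := ⟨_, _, fun h1 h2 => (enc_subr 5 128 h2)⟩
noncomputable def bd2q1_14 : Fn2 := ⟨_, _, fun h1 h2 => (enc_scaleT 17761 5000000 (bd2q1_3.enc h1 h2))⟩
noncomputable def bd2q1_44 : Fn2 := ⟨_, _, fun h1 h2 => (enc_scaleT 1 3000000 h1)⟩
noncomputable def bd2q1_58 : Fn2 := ⟨_, _, fun h1 h2 => (enc_mul (enc_norm (bd2q1_3.enc h1 h2)) (enc_norm (enc_subr 106639 30000000 (enc_scaleT 1 300000 h1))))⟩
noncomputable def bd2q1_64 : Fn2 := ⟨_, _, fun h1 h2 => (enc_sub (enc_rat _ 1292909 37500000) (bd2q1_44.enc h1 h2))⟩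
noncomputable def bd2q1 : Fn2 := ⟨_, _, fun h1 h2 => (enc_norm (enc_case (enc_subr 123 128 h1) (enc_case (enc_subr 79 100 h1) (enc_case (enc_subr 13 20 h1) (enc_case (enc_subr 3 5 h1) (enc_sub (enc_rat _ 3447731 100000000) (bd2q1_14.enc h1 h2)) (enc_sub (enc_sub (enc_rat _ 3447743 100000000) (enc_scaleT 1 5000000 h1)) (bd2q1_14.enc h1 h2))) (enc_case (enc_subr 3 4 h1) (enc_add (enc_rat _ 344773 10000000) (enc_mul (enc_norm (bd2q1_3.enc h1 h2)) (enc_norm (enc_subr 7107 2000000 (enc_scaleT 1 500000 h1))))) (enc_add (enc_rat _ 344773 10000000) (enc_mul (enc_norm (bd2q1_3.enc h1 h2)) (enc_norm (enc_subr 28431 8000000 (enc_scaleT 1 400000 h1))))))) (enc_case (enc_subr 17 20 h1) (enc_case (enc_subr 41 50 h1) (enc_sub (enc_sub (enc_rat _ 10343269 300000000) (bd2q1_44.enc h1 h2)) (enc_scaleT 35519 10000000 (bd2q1_3.enc h1 h2))) (enc_add (enc_rat _ 3447729 100000000) (bd2q1_58.enc h1 h2)))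 (enc_case (enc_subr 22 25 h1) (enc_add (bd2q1_64.enc h1 h2) (bd2q1_58.enc h1 h2)) (enc_case (enc_subr 91 100 h1) (enc_add (bd2q1_64.enc h1 h2) (enc_mul (enc_norm (bd2q1_3.enc h1 h2)) (enc_norm (enc_subr 106727 30000000 (enc_scaleT 1 150000 h1))))) (enc_add (enc_sub (enc_rat _ 948141851 27500000000) (enc_scaleT 93 137500000 h1)) (enc_mul (enc_norm (bd2q1_3.enc h1 h2)) (enc_norm (enc_subr 4880537 1375000000 (enc_neg (enc_scaleT 61 27500000 h1)))))))))) (enc_case (enc_subr 397 400 h1) (enc_add (enc_sub (enc_rat _ 3461442973 16250000000) (enc_scaleT 2163571 10156250 h1)) (enc_mul (enc_norm (bd2q1_3.enc h1 h2)) (enc_norm (enc_sub (enc_rat _ 7312913 1625000000) (enc_scaleT 36583 8125000 h1))))) (enc_case (enc_subr 249 250 h1) (enc_add (enc_sub (enc_rat _ 73843541 350000000) (enc_scaleT 18461 87500 h1)) (enc_mul (enc_norm (bd2q1_3.enc h1 h2)) (enc_norm (enc_sub (enc_rat _ 11179 2000000)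 (enc_scaleT 7 1250 h1))))) (enc_add (enc_sub (enc_rat _ 42131 200000) (enc_scaleT 42131 200000 h1)) (enc_mul (enc_norm (bd2q1_3.enc h1 h2)) (enc_norm (enc_sub (enc_rat _ 119 40000) (enc_scaleT 119 40000 h1)))))))))⟩
noncomputable def bn2q1 : Fn2 := ⟨_, _, fun h1 h2 => (enc_norm (enc_add (enc_mul (enc_norm (enc_add (enc_pnc _ 1) (enc_mul (mug3.enc h2) (gug.enc h2)))) (bf2q1.enc h1 h2)) (enc_mul (mug3.enc h2) (bd2q1.enc h1 h2))))⟩
noncomputable def bn1q1 : Fn2 := ⟨_, _, fun h1 h2 => (enc_norm (enc_add (enc_mul (enc_norm (enc_add (enc_pnc _ 1) (enc_mul (mug3.enc h2) (gug.enc h2)))) (bf1q1.enc h1 h2)) (enc_mul (mug3.enc h2) (bd1q1.enc h1 h2))))⟩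
noncomputable def rknq1_35 : Fn3 := ⟨_, _, fun h1 h2 h3 => (enc_add (enc_mul h1 (bn2q1.enc h2 h3)) (enc_mul (enc_norm (enc_mul (enc_norm (enc_sub (enc_pnc _ 1) (lm1m.enc h1 h2))) (cv1m.enc h2))) (enc_norm (enc_sub (bn1q1.enc h2 h3) (bn2q1.enc h2 h3)))))⟩
noncomputable def rknq1_41 : Fn3 := ⟨_, _, fun h1 h2 h3 => (enc_sub (enc_pnc _ 1) h2)⟩
noncomputable def rknq1_42 : Fn3 := ⟨_, _, fun h1 h2 h3 => (gsg.enc (enc_norm (rknq1_41.enc h1 h2 h3)))⟩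
noncomputable def rknq1_46 : Fn3 := ⟨_, _, fun h1 h2 h3 => (esg.enc (enc_norm (rknq1_41.enc h1 h2 h3)))⟩
noncomputable def rknq1_47 : Fn3 := ⟨_, _, fun h1 h2 h3 => (kcg.enc (enc_norm (enc_sub (enc_scaleT 3 4 (rknq1_41.enc h1 h2 h3)) (enc_half (rknq1_42.enc h1 h2 h3)))) h3)⟩
noncomputable def rknq1_48 : Fn3 := ⟨_, _, fun h1 h2 h3 => (enc_scaleT 3 2 (rknq1_41.enc h1 h2 h3))⟩
noncomputable def rknq1_50 : Fn3 := ⟨_, _, fun h1 h2 h3 => (enc_add (enc_pnc _ 1) (rknq1_42.enc h1 h2 h3))⟩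
noncomputable def rknq1_59 : Fn3 := ⟨_, _, fun h1 h2 h3 => (enc_mul (enc_scaleT 3 4 (enc_sq (enc_norm (rknq1_41.enc h1 h2 h3)))) (enc_inv (rknq1_42.enc h1 h2 h3)))⟩
noncomputable def rknq1_60 : Fn3 := ⟨_, _, fun h1 h2 h3 => (enc_sub (enc_half (rknq1_41.enc h1 h2 h3)) (rknq1_59.enc h1 h2 h3))⟩
noncomputable def rknq1_61 : Fn3 := ⟨_, _, fun h1 h2 h3 => (enc_nat 2 (rknq1_46.enc h1 h2 h3))⟩
noncomputable def rknq1 : Fn3 := ⟨_, _, fun h1 h2 h3 => (enc_case (enc_sub h1 (cv1m.enc h2)) (enc_add (enc_mul h1 (bn1q1.enc h2 h3)) (enc_mul (enc_norm (enc_sub (enc_pnc _ 1) (lm0m.enc h1 h2))) (enc_norm (enc_sub (kn0q1.enc h2 h3) (enc_mul (c1g.enc h2) (bn1q1.enc h2 h3)))))) (enc_case (enc_sub h1 (cv2m.enc h2)) (enc_case (enc_subr 15 16 h2) (rknq1_35.enc h1 h2 h3) (enc_case (enc_subr 63 64 h2) (enc_add (kn1q1.enc h2 h3) (enc_mul (lm1m.enc h1 h2) (enc_norm (enc_sub (enc_add (enc_mul (enc_norm (enc_add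 (enc_pnc _ 1) (enc_mul (mug3.enc h3) (gug.enc h3)))) (enc_norm (enc_add (enc_add (enc_mul (enc_norm (enc_mul (enc_norm (enc_sub (rknq1_42.enc h1 h2 h3) (rknq1_48.enc h1 h2 h3))) (enc_norm (rknq1_50.enc h1 h2 h3)))) (enc_inv (enc_sub (rknq1_50.enc h1 h2 h3) (rknq1_48.enc h1 h2 h3)))) (enc_wR (enc_mul (enc_norm (rknq1_60.enc h1 h2 h3)) (enc_inv (rknq1_61.enc h1 h2 h3))) (rknq1_41.enc h1 h2 h3) (rknq1_42.enc h1 h2 h3) (rknq1_46.enc h1 h2 h3) rfl rfl rfl)) (enc_mul (rknq1_47.enc h1 h2 h3) (enc_norm (rknq1_41.enc h1 h2 h3)))))) (enc_mul (mug3.enc h3) (enc_norm (enc_sub (enc_add (kug.enc (enc_norm (rknq1_41.enc h1 h2 h3))) (enc_wS (enc_mul (enc_norm (enc_sub (enc_mul (enc_norm (enc_mul (enc_norm (rknq1_59.enc h1 h2 h3)) (enc_norm (enc_subn 3 (enc_nat 4 (rknq1_42.enc h1 h2 h3)))))) (rknq1_46.enc h1 h2 h3)) (enc_mul (qsg.enc (enc_norm (rknq1_41.enc h1 h2 h3))) (enc_norm (rknq1_60.enc h1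 h2 h3))))) (enc_inv (enc_mul (rknq1_61.enc h1 h2 h3) (rknq1_46.enc h1 h2 h3)))) (rknq1_41.enc h1 h2 h3) (rknq1_42.enc h1 h2 h3) (rknq1_46.enc h1 h2 h3) rfl rfl rfl rfl)) (enc_mul (enc_norm (enc_mul (enc_norm (rknq1_41.enc h1 h2 h3)) (rknq1_47.enc h1 h2 h3))) (enc_norm (enc_add (enc_add (enc_pnc _ 1) (gug.enc (enc_norm (rknq1_41.enc h1 h2 h3)))) (enc_nat 2 (rknq1_42.enc h1 h2 h3))))))))) (kn1q1.enc h2 h3))))) (rknq1_35.enc h1 h2 h3))) (enc_case (enc_sub h1 (cv3m.enc h2)) (enc_add (enc_mul h1 (bn3q1.enc h2 h3)) (enc_mul (enc_norm (enc_sub (enc_pnc _ 1) (lm2m.enc h1 h2))) (enc_norm (enc_sub (kn2q1.enc h2 h3) (enc_mul (cv2m.enc h2) (bn3q1.enc h2 h3)))))) (enc_add (kn3q1.enc h2 h3) (enc_mul (lm3m.enc h1 h2) (enc_norm (enc_sub (kn4q1.enc h2 h3) (kn3q1.enc h2 h3))))))))⟩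
noncomputable def rsnq1 : Fn3 := ⟨_, _, fun h1 h2 h3 => (enc_case h1 (enc_neg (rknq1.enc (enc_neg h1) h2 h3)) (rknq1.enc h1 h2 h3))⟩
noncomputable def bn3q2 : Fn2 := ⟨_, _, fun h1 h2 => (enc_norm (enc_add (enc_mul (enc_norm (enc_add (enc_pnc _ 1) (enc_mul (mug3.enc h2) (gug.enc h2)))) (bf3q2.enc h1 h2)) (enc_mul (mug3.enc h2) (bd3q2.enc h1 h2))))⟩
noncomputable def kp2q2_4 : Fn2 := ⟨_, _, fun h1 h2 => (enc_subr 5 128 h2)⟩
noncomputable def kp2q2_61 : Fn2 := ⟨_, _, fun h1 h2 => (enc_scaleT 36661 10000000 (kp2q2_4.enc h1 h2))⟩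
noncomputable def kp2q2_83 : Fn2 := ⟨_, _, fun h1 h2 => (enc_scaleT 1833 500000 (kp2q2_4.enc h1 h2))⟩
noncomputable def kp2q2_100 : Fn2 := ⟨_, _, fun h1 h2 => (enc_subn 1 h1)⟩
noncomputable def kp2q2_101 : Fn2 := ⟨_, _, fun h1 h2 => (gsg.enc (enc_norm (kp2q2_100.enc h1 h2)))⟩
noncomputable def kp2q2_105 : Fn2 := ⟨_, _, fun h1 h2 => (esg.enc (enc_norm (kp2q2_100.enc h1 h2)))⟩
noncomputable def kp2q2_113 : Fn2 := ⟨_, _, fun h1 h2 => (enc_mul (enc_scaleT 3 4 (enc_sq (enc_norm (kp2q2_100.enc h1 h2)))) (enc_inv (kp2q2_101.enc h1 h2)))⟩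
noncomputable def kp2q2 : Fn2 := ⟨_, _, fun h1 h2 => (enc_norm (enc_case (enc_subr 65 64 h1) (enc_mul (cv2p.enc h1) (enc_norm (enc_case (enc_subr 251 250 h1) (enc_add (enc_subr 10589 50000 (enc_scaleT 10589 50000 h1)) (enc_mul (enc_norm (kp2q2_4.enc h1 h2)) (enc_norm (enc_subr 41 10000 (enc_scaleT 41 10000 h1))))) (enc_case (enc_subr 403 400 h1) (enc_add (enc_subr 18691641 87500000 (enc_scaleT 18691 87500 h1)) (enc_mul (enc_norm (kp2q2_4.enc h1 h2)) (enc_norm (enc_sub (enc_rat _ 15347 17500000) (enc_scaleT 3 3500 h1))))) (enc_add (enc_subr 546176269 2500000000 (enc_scaleT 17747199 81250000 h1)) (enc_mul (enc_norm (kp2q2_4.enc h1 h2)) (enc_norm (enc_subr 1708439 250000000 (enc_scaleT 55219 8125000 h1))))))))) (enc_case (enc_subr 17 16 h1) (enc_add (enc_sub (kug.enc (enc_norm (kp2q2_100.enc h1 h2))) (enc_wS (enc_mul (enc_norm (enc_sub (enc_mul (enc_norm (enc_mul (enc_norm (kp2q2_113.enc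 h1 h2)) (enc_norm (enc_subn 3 (enc_nat 4 (kp2q2_101.enc h1 h2)))))) (kp2q2_105.enc h1 h2)) (enc_mul (qsg.enc (enc_norm (kp2q2_100.enc h1 h2))) (enc_norm (enc_sub (enc_half (kp2q2_100.enc h1 h2)) (kp2q2_113.enc h1 h2)))))) (enc_inv (enc_mul (enc_nat 2 (kp2q2_105.enc h1 h2)) (kp2q2_105.enc h1 h2)))) (kp2q2_100.enc h1 h2) (kp2q2_101.enc h1 h2) (kp2q2_105.enc h1 h2) rfl rfl rfl rfl)) (enc_mul (enc_norm (enc_mul (enc_norm (kp2q2_100.enc h1 h2)) (kcg.enc (enc_norm (enc_sub (enc_scaleT 3 4 (kp2q2_100.enc h1 h2)) (enc_half (kp2q2_101.enc h1 h2)))) h2))) (enc_norm (enc_sub (enc_sub (enc_pnc _ 1) (gug.enc (enc_norm (kp2q2_100.enc h1 h2)))) (enc_nat 2 (kp2q2_101.enc h1 h2)))))) (enc_mul (cv2p.enc h1) (enc_norm (enc_case (enc_subr 23 20 h1) (enc_case (enc_subr 217 200 h1) (enc_add (enc_add (enc_scaleT 23 37500000 h1) (enc_rat _ 33884123 937500000)) (enc_mul (enc_norm (kp2q2_4.enc h1 h2)) (enc_norm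 (enc_subr 103421 28125000 (enc_scaleT 23 2250000 h1))))) (enc_case (enc_subr 9 8 h1) (enc_sub (enc_rat _ 3614373 100000000) (kp2q2_61.enc h1 h2)) (enc_sub (enc_add (enc_scaleT 1 2500000 h1) (enc_rat _ 451791 12500000)) (kp2q2_61.enc h1 h2)))) (enc_case (enc_subr 13 10 h1) (enc_case (enc_subr 59 50 h1) (enc_add (enc_rat _ 1807187 50000000) (enc_mul (enc_norm (kp2q2_4.enc h1 h2)) (enc_norm (enc_subr 55049 15000000 (enc_scaleT 1 300000 h1))))) (enc_sub (enc_rat _ 1807187 50000000) (kp2q2_83.enc h1 h2))) (enc_case (enc_subr 27 20 h1) (enc_sub (enc_sub (enc_rat _ 2259 62500) (enc_scaleT 1 5000000 h1)) (kp2q2_83.enc h1 h2)) (enc_sub (enc_rat _ 3614373 100000000) (kp2q2_83.enc h1 h2))))))))))⟩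
noncomputable def kn2q2 : Fn2 := ⟨_, _, fun h1 h2 => (enc_norm (enc_add (enc_mul (enc_norm (enc_add (enc_pnc _ 1) (enc_mul (mug3.enc h2) (gug.enc h2)))) (kf2q2.enc h1 h2)) (enc_mul (mug3.enc h2) (kp2q2.enc h1 h2))))⟩
noncomputable def bd2q2_3 : Fn2 := ⟨_, _, fun h1 h2 => (enc_subr 5 128 h2)⟩
noncomputable def bd2q2_59 : Fn2 := ⟨_, _, fun h1 h2 => (enc_scaleT 36661 10000000 (bd2q2_3.enc h1 h2))⟩
noncomputable def bd2q2_81 : Fn2 := ⟨_, _, fun h1 h2 => (enc_scaleT 1833 500000 (bd2q2_3.enc h1 h2))⟩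
noncomputable def bd2q2 : Fn2 := ⟨_, _, fun h1 h2 => (enc_norm (enc_case (enc_subr 133 128 h1) (enc_case (enc_subr 251 250 h1) (enc_add (enc_subr 10589 50000 (enc_scaleT 10589 50000 h1)) (enc_mul (enc_norm (bd2q2_3.enc h1 h2)) (enc_norm (enc_subr 41 10000 (enc_scaleT 41 10000 h1))))) (enc_case (enc_subr 403 400 h1) (enc_add (enc_subr 18691641 87500000 (enc_scaleT 18691 87500 h1)) (enc_mul (enc_norm (bd2q2_3.enc h1 h2)) (enc_norm (enc_sub (enc_rat _ 15347 17500000) (enc_scaleT 3 3500 h1))))) (enc_add (enc_subr 546176269 2500000000 (enc_scaleT 17747199 81250000 h1)) (enc_mul (enc_norm (bd2q2_3.enc h1 h2)) (enc_norm (enc_subr 1708439 250000000 (enc_scaleT 55219 8125000 h1))))))) (enc_case (enc_subr 23 20 h1) (enc_case (enc_subr 217 200 h1) (enc_add (enc_add (enc_scaleT 23 37500000 h1) (enc_rat _ 33884123 937500000)) (enc_mul (enc_norm (bd2q2_3.enc h1 h2)) (enc_norm (enc_subr 103421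 28125000 (enc_scaleT 23 2250000 h1))))) (enc_case (enc_subr 9 8 h1) (enc_sub (enc_rat _ 3614373 100000000) (bd2q2_59.enc h1 h2)) (enc_sub (enc_add (enc_scaleT 1 2500000 h1) (enc_rat _ 451791 12500000)) (bd2q2_59.enc h1 h2)))) (enc_case (enc_subr 13 10 h1) (enc_case (enc_subr 59 50 h1) (enc_add (enc_rat _ 1807187 50000000) (enc_mul (enc_norm (bd2q2_3.enc h1 h2)) (enc_norm (enc_subr 55049 15000000 (enc_scaleT 1 300000 h1))))) (enc_sub (enc_rat _ 1807187 50000000) (bd2q2_81.enc h1 h2))) (enc_case (enc_subr 27 20 h1) (enc_sub (enc_sub (enc_rat _ 2259 62500) (enc_scaleT 1 5000000 h1)) (bd2q2_81.enc h1 h2)) (enc_sub (enc_rat _ 3614373 100000000) (bd2q2_81.enc h1 h2)))))))⟩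
noncomputable def bn2q2 : Fn2 := ⟨_, _, fun h1 h2 => (enc_norm (enc_add (enc_mul (enc_norm (enc_add (enc_pnc _ 1) (enc_mul (mug3.enc h2) (gug.enc h2)))) (bf2q2.enc h1 h2)) (enc_mul (mug3.enc h2) (bd2q2.enc h1 h2))))⟩
noncomputable def bn1q2 : Fn2 := ⟨_, _, fun h1 h2 => (enc_norm (enc_add (enc_mul (enc_norm (enc_add (enc_pnc _ 1) (enc_mul (mug3.enc h2) (gug.enc h2)))) (bf1q2.enc h1 h2)) (enc_mul (mug3.enc h2) (bd1q2.enc h1 h2))))⟩
noncomputable def kp1q2 : Fn2 := ⟨_, _, fun h1 h2 => (enc_norm (enc_mul (cv1p.enc h1) (bd1q2.enc h1 h2)))⟩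
noncomputable def kn1q2 : Fn2 := ⟨_, _, fun h1 h2 => (enc_norm (enc_add (enc_mul (enc_norm (enc_add (enc_pnc _ 1) (enc_mul (mug3.enc h2) (gug.enc h2)))) (kf1q2.enc h1 h2)) (enc_mul (mug3.enc h2) (kp1q2.enc h1 h2))))⟩
noncomputable def kp0q2_3 : Fn2 := ⟨_, _, fun h1 h2 => (enc_subr 5 128 h2)⟩
noncomputable def kp0q2 : Fn2 := ⟨_, _, fun h1 h2 => (enc_norm (enc_mul (enc_norm (enc_subn 1 h1)) (enc_norm (enc_case (enc_subr 3 20 (c1g.enc h1)) (enc_case (enc_subr 1 25 (c1g.enc h1)) (enc_add (enc_scaleT 643 2000000 (c1g.enc h1)) (enc_mul (enc_norm (kp0q2_3.enc h1 h2)) (enc_scaleT 1909 200000 (c1g.enc h1)))) (enc_add (enc_subr 218011 110000000 (enc_scaleT 137141 2750000 (c1g.enc h1))) (enc_mul (enc_norm (kp0q2_3.enc h1 h2)) (enc_norm (enc_subr 808657 5000000 (enc_scaleT 405283 100000 (c1g.enc h1))))))) (enc_case (enc_subr 3 10 (c1g.enc h1)) (enc_add (enc_subr 731 312500 (enc_scaleT 78377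 1500000 (c1g.enc h1))) (enc_mul (enc_norm (kp0q2_3.enc h1 h2)) (enc_norm (enc_subr 4186647 10000000 (enc_scaleT 4324289 750000 (c1g.enc h1)))))) (enc_case (enc_subr 2 5 (c1g.enc h1)) (enc_add (enc_subr 25719 50000000 (enc_scaleT 230843 5000000 (c1g.enc h1))) (enc_mul (enc_norm (kp0q2_3.enc h1 h2)) (enc_norm (enc_add (enc_scaleT 511671 250000 (c1g.enc h1)) (enc_rat _ 6970457 10000000))))) (enc_add (enc_sub (enc_rat _ 65833933 50000000) (enc_scaleT 1623407 500000 (c1g.enc h1))) (enc_mul (enc_norm (kp0q2_3.enc h1 h2)) (enc_norm (enc_sub (enc_rat _ 16047829 10000000) (enc_scaleT 222659 1000000 (c1g.enc h1))))))))))))⟩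
noncomputable def kn0q2 : Fn2 := ⟨_, _, fun h1 h2 => (enc_norm (enc_add (enc_mul (enc_norm (enc_add (enc_pnc _ 1) (enc_mul (mug3.enc h2) (gug.enc h2)))) (kf0q2.enc h1 h2)) (enc_mul (mug3.enc h2) (kp0q2.enc h1 h2))))⟩
noncomputable def n0d : Fn2 := ⟨_, _, fun h1 h2 => (enc_norm (enc_mul (enc_norm (enc_subn 1 h1)) (enc_norm (enc_add (enc_scaleT 1909 200000 (enc_subr 5 128 h2)) (enc_rat _ 643 2000000)))))⟩
noncomputable def n0n : Fn2 := ⟨_, _, fun h1 h2 => (enc_norm (enc_add (enc_mul (enc_norm (enc_add (enc_pnc _ 1) (enc_mul (mug3.enc h2) (gug.enc h2)))) (n0b.enc h1 h2)) (enc_mul (mug3.enc h2) (n0d.enc h1 h2))))⟩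
noncomputable def rknq2_35 : Fn3 := ⟨_, _, fun h1 h2 h3 => (enc_add (enc_mul h1 (bn2q2.enc h2 h3)) (enc_mul (enc_norm (enc_mul (enc_norm (enc_sub (enc_pnc _ 1) (lm1p.enc h1 h2))) (cv1p.enc h2))) (enc_norm (enc_sub (bn1q2.enc h2 h3) (bn2q2.enc h2 h3)))))⟩
noncomputable def rknq2_40 : Fn3 := ⟨_, _, fun h1 h2 h3 => (enc_subn 1 h2)⟩
noncomputable def rknq2_41 : Fn3 := ⟨_, _, fun h1 h2 h3 => (gsg.enc (enc_norm (rknq2_40.enc h1 h2 h3)))⟩
noncomputable def rknq2_45 : Fn3 := ⟨_, _, fun h1 h2 h3 => (esg.enc (enc_norm (rknq2_40.enc h1 h2 h3)))⟩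
noncomputable def rknq2_46 : Fn3 := ⟨_, _, fun h1 h2 h3 => (kcg.enc (enc_norm (enc_sub (enc_scaleT 3 4 (rknq2_40.enc h1 h2 h3)) (enc_half (rknq2_41.enc h1 h2 h3)))) h3)⟩
noncomputable def rknq2_47 : Fn3 := ⟨_, _, fun h1 h2 h3 => (enc_scaleT 3 2 (rknq2_40.enc h1 h2 h3))⟩
noncomputable def rknq2_49 : Fn3 := ⟨_, _, fun h1 h2 h3 => (enc_add (enc_pnc _ 1) (rknq2_41.enc h1 h2 h3))⟩
noncomputable def rknq2_58 : Fn3 := ⟨_, _, fun h1 h2 h3 => (enc_mul (enc_scaleT 3 4 (enc_sq (enc_norm (rknq2_40.enc h1 h2 h3)))) (enc_inv (rknq2_41.enc h1 h2 h3)))⟩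
noncomputable def rknq2_59 : Fn3 := ⟨_, _, fun h1 h2 h3 => (enc_sub (enc_half (rknq2_40.enc h1 h2 h3)) (rknq2_58.enc h1 h2 h3))⟩
noncomputable def rknq2_60 : Fn3 := ⟨_, _, fun h1 h2 h3 => (enc_nat 2 (rknq2_45.enc h1 h2 h3))⟩
noncomputable def rknq2_106 : Fn3 := ⟨_, _, fun h1 h2 h3 => (enc_mul h1 (bn1q2.enc h2 h3))⟩
noncomputable def rknq2_108 : Fn3 := ⟨_, _, fun h1 h2 h3 => (enc_sub (enc_pnc _ 1) (lm0p.enc h1 h2))⟩
noncomputable def rknq2 : Fn3 := ⟨_, _, fun h1 h2 h3 => (enc_case (enc_sub h1 (cv1p.enc h2)) (enc_case (enc_subr 577 500 h2) (enc_add (rknq2_106.enc h1 h2 h3) (enc_mul (enc_norm (rknq2_108.enc h1 h2 h3)) (enc_norm (enc_sub (kn0q2.enc h2 h3) (enc_mul (c1g.enc h2) (bn1q2.enc h2 h3)))))) (enc_case (enc_subr 2887 2500 h2) (enc_add (rknq2_106.enc h1 h2 h3) (enc_mul (enc_norm (rknq2_108.enc h1 h2 h3)) (enc_norm (enc_mul (c1g.enc h2) (enc_norm (enc_sub (n0n.enc h2 h3) (bn1q2.enc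 h2 h3))))))) (rknq2_106.enc h1 h2 h3))) (enc_case (enc_sub h1 (cv2p.enc h2)) (enc_case (enc_subr 65 64 h2) (rknq2_35.enc h1 h2 h3) (enc_case (enc_subr 17 16 h2) (enc_add (kn1q2.enc h2 h3) (enc_mul (lm1p.enc h1 h2) (enc_norm (enc_sub (enc_add (enc_mul (enc_norm (enc_add (enc_pnc _ 1) (enc_mul (mug3.enc h3) (gug.enc h3)))) (enc_norm (enc_add (enc_sub (enc_mul (enc_norm (enc_mul (enc_norm (enc_sub (rknq2_41.enc h1 h2 h3) (rknq2_47.enc h1 h2 h3))) (enc_norm (rknq2_49.enc h1 h2 h3)))) (enc_inv (enc_sub (rknq2_49.enc h1 h2 h3) (rknq2_47.enc h1 h2 h3)))) (enc_wR (enc_mul (enc_norm (rknq2_59.enc h1 h2 h3)) (enc_inv (rknq2_60.enc h1 h2 h3))) (rknq2_40.enc h1 h2 h3) (rknq2_41.enc h1 h2 h3) (rknq2_45.enc h1 h2 h3) rfl rfl rfl)) (enc_mul (rknq2_46.enc h1 h2 h3) (enc_norm (rknq2_40.enc h1 h2 h3)))))) (enc_mul (mug3.enc h3) (enc_norm (enc_add (enc_sub (kug.enc (enc_norm (rknq2_40.enc h1 h2 h3)))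 (enc_wS (enc_mul (enc_norm (enc_sub (enc_mul (enc_norm (enc_mul (enc_norm (rknq2_58.enc h1 h2 h3)) (enc_norm (enc_subn 3 (enc_nat 4 (rknq2_41.enc h1 h2 h3)))))) (rknq2_45.enc h1 h2 h3)) (enc_mul (qsg.enc (enc_norm (rknq2_40.enc h1 h2 h3))) (enc_norm (rknq2_59.enc h1 h2 h3))))) (enc_inv (enc_mul (rknq2_60.enc h1 h2 h3) (rknq2_45.enc h1 h2 h3)))) (rknq2_40.enc h1 h2 h3) (rknq2_41.enc h1 h2 h3) (rknq2_45.enc h1 h2 h3) rfl rfl rfl rfl)) (enc_mul (enc_norm (enc_mul (enc_norm (rknq2_40.enc h1 h2 h3)) (rknq2_46.enc h1 h2 h3))) (enc_norm (enc_sub (enc_sub (enc_pnc _ 1) (gug.enc (enc_norm (rknq2_40.enc h1 h2 h3)))) (enc_nat 2 (rknq2_41.enc h1 h2 h3))))))))) (kn1q2.enc h2 h3))))) (rknq2_35.enc h1 h2 h3))) (enc_case (enc_sub h1 (cv3p.enc h2)) (enc_add (enc_mul h1 (bn3q2.enc h2 h3)) (enc_mul (enc_norm (enc_sub (enc_pnc _ 1) (lm2p.enc h1 h2))) (enc_norm (enc_sub (kn2q2.enc h2 h3) (enc_mul (cv2p.enc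 h2) (bn3q2.enc h2 h3)))))) (enc_add (kn3q2.enc h2 h3) (enc_mul (lm3p.enc h1 h2) (enc_norm (enc_sub (kn4q2.enc h2 h3) (kn3q2.enc h2 h3))))))))⟩
noncomputable def rsnq2 : Fn3 := ⟨_, _, fun h1 h2 h3 => (enc_case h1 (enc_neg (rknq2.enc (enc_neg h1) h2 h3)) (rknq2.enc h1 h2 h3))⟩
noncomputable def kp3q3 : Fn2 := ⟨_, _, fun h1 h2 => (enc_norm (enc_mul (cv3r.enc h1) (bd3q3.enc h1 h2)))⟩
noncomputable def kn3q3 : Fn2 := ⟨_, _, fun h1 h2 => (enc_norm (enc_add (enc_mul (enc_norm (enc_add (enc_pnc _ 1) (enc_mul (mug3.enc h2) (gug.enc h2)))) (kf3q3.enc h1 h2)) (enc_mul (mug3.enc h2) (kp3q3.enc h1 h2))))⟩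
noncomputable def kp4q3_3 : Fn2 := ⟨_, _, fun h1 h2 => (enc_subr 5 128 h2)⟩
noncomputable def kp4q3_9 : Fn2 := ⟨_, _, fun h1 h2 => (enc_sub (enc_half (c3g.enc h1)) (enc_scaleT 1 4 h1))⟩
noncomputable def kp4q3 : Fn2 := ⟨_, _, fun h1 h2 => (enc_norm (enc_mul (enc_norm (enc_subn 2 h1)) (enc_norm (enc_case (kp4q3_9.enc h1 h2) (enc_case (enc_add (kp4q3_9.enc h1 h2) (enc_rat _ 3 10)) (enc_case (enc_add (kp4q3_9.enc h1 h2) (enc_rat _ 2 5)) (enc_add (enc_add (enc_scaleT 1631 10000000 (kp4q3_9.enc h1 h2)) (enc_rat _ 1367717 6250000)) (enc_mul (enc_norm (kp4q3_3.enc h1 h2)) (enc_norm (enc_add (enc_scaleT 1009 500000 (kp4q3_9.enc h1 h2)) (enc_rat _ 11756989 10000000))))) (enc_add (enc_add (enc_scaleT 103 625000 (kp4q3_9.enc h1 h2)) (enc_rat _ 1094177 5000000)) (enc_mul (enc_norm (kp4q3_3.enc h1 h2)) (enc_norm (enc_add (enc_scaleT 67 31250 (kp4q3_9.enc h1 h2)) (enc_rat _ 11757493 10000000))))))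 (enc_case (enc_add (kp4q3_9.enc h1 h2) (enc_rat _ 1 5)) (enc_add (enc_add (enc_scaleT 829 5000000 (kp4q3_9.enc h1 h2)) (enc_rat _ 2188357 10000000)) (enc_mul (enc_norm (kp4q3_3.enc h1 h2)) (enc_norm (enc_add (enc_scaleT 217 100000 (kp4q3_9.enc h1 h2)) (enc_rat _ 11757571 10000000))))) (enc_case (enc_add (kp4q3_9.enc h1 h2) (enc_rat _ 1 10)) (enc_add (enc_add (enc_scaleT 209 1250000 (kp4q3_9.enc h1 h2)) (enc_rat _ 10941799 50000000)) (enc_mul (enc_norm (kp4q3_3.enc h1 h2)) (enc_norm (enc_add (enc_scaleT 539 250000 (kp4q3_9.enc h1 h2)) (enc_rat _ 11757543 10000000))))) (enc_add (enc_add (enc_scaleT 1699 10000000 (kp4q3_9.enc h1 h2)) (enc_rat _ 175069 800000)) (enc_mul (enc_norm (kp4q3_3.enc h1 h2)) (enc_norm (enc_add (enc_scaleT 2149 1000000 (kp4q3_9.enc h1 h2)) (enc_rat _ 367423 312500)))))))) (enc_case (enc_subr 1 5 (kp4q3_9.enc h1 h2)) (enc_case (enc_subr 1 10 (kp4q3_9.enc h1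 h2)) (enc_add (enc_add (enc_scaleT 1769 10000000 (kp4q3_9.enc h1 h2)) (enc_rat _ 175069 800000)) (enc_mul (enc_norm (kp4q3_3.enc h1 h2)) (enc_norm (enc_add (enc_scaleT 2213 1000000 (kp4q3_9.enc h1 h2)) (enc_rat _ 367423 312500))))) (enc_add (enc_add (enc_scaleT 1963 10000000 (kp4q3_9.enc h1 h2)) (enc_rat _ 21883431 100000000)) (enc_mul (enc_norm (kp4q3_3.enc h1 h2)) (enc_norm (enc_add (enc_scaleT 459 200000 (kp4q3_9.enc h1 h2)) (enc_rat _ 5878727 5000000)))))) (enc_case (enc_subr 3 10 (kp4q3_9.enc h1 h2)) (enc_add (enc_add (enc_scaleT 249 1000000 (kp4q3_9.enc h1 h2)) (enc_rat _ 21882377 100000000)) (enc_mul (enc_norm (kp4q3_3.enc h1 h2)) (enc_norm (enc_add (enc_scaleT 2407 1000000 (kp4q3_9.enc h1 h2)) (enc_rat _ 1175723 1000000))))) (enc_case (enc_subr 2 5 (kp4q3_9.enc h1 h2)) (enc_add (enc_add (enc_scaleT 3841 10000000 (kp4q3_9.enc h1 h2)) (enc_rat _ 5469581 25000000)) (enc_mul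 (enc_norm (kp4q3_3.enc h1 h2)) (enc_norm (enc_add (enc_scaleT 1787 500000 (kp4q3_9.enc h1 h2)) (enc_rat _ 11753729 10000000))))) (enc_add (enc_add (enc_scaleT 1439 2000000 (kp4q3_9.enc h1 h2)) (enc_rat _ 5466227 25000000)) (enc_mul (enc_norm (kp4q3_3.enc h1 h2)) (enc_norm (enc_add (enc_scaleT 14167 1000000 (kp4q3_9.enc h1 h2)) (enc_rat _ 11711357 10000000))))))))))))⟩
noncomputable def kn4q3 : Fn2 := ⟨_, _, fun h1 h2 => (enc_norm (enc_add (enc_mul (enc_norm (enc_add (enc_pnc _ 1) (enc_mul (mug3.enc h2) (gug.enc h2)))) (kf4q3.enc h1 h2)) (enc_mul (mug3.enc h2) (kp4q3.enc h1 h2))))⟩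
noncomputable def bn3q3 : Fn2 := ⟨_, _, fun h1 h2 => (enc_norm (enc_add (enc_mul (enc_norm (enc_add (enc_pnc _ 1) (enc_mul (mug3.enc h2) (gug.enc h2)))) (bf3q3.enc h1 h2)) (enc_mul (mug3.enc h2) (bd3q3.enc h1 h2))))⟩
noncomputable def bn2q3 : Fn2 := ⟨_, _, fun h1 h2 => (enc_norm (enc_add (enc_mul (enc_norm (enc_add (enc_pnc _ 1) (enc_mul (mug3.enc h2) (gug.enc h2)))) (bf2q3.enc h1 h2)) (enc_mul (mug3.enc h2) (bd2q3.enc h1 h2))))⟩
noncomputable def bn1q3 : Fn2 := ⟨_, _, fun h1 h2 => (enc_norm (enc_add (enc_mul (enc_norm (enc_add (enc_pnc _ 1) (enc_mul (mug3.enc h2) (gug.enc h2)))) (bf1q3.enc h1 h2)) (enc_mul (mug3.enc h2) (bd1q3.enc h1 h2))))⟩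
noncomputable def rknq3 : Fn3 := ⟨_, _, fun h1 h2 h3 => (enc_case (enc_sub h1 (cv1r.enc h2)) (enc_mul h1 (bn1q3.enc h2 h3)) (enc_case (enc_sub h1 (cv2r.enc h2)) (enc_add (enc_mul h1 (bn2q3.enc h2 h3)) (enc_mul (enc_norm (enc_mul (enc_norm (enc_sub (enc_pnc _ 1) (lm1r.enc h1 h2))) (cv1r.enc h2))) (enc_norm (enc_sub (bn1q3.enc h2 h3) (bn2q3.enc h2 h3))))) (enc_case (enc_sub h1 (cv3r.enc h2)) (enc_add (enc_mul h1 (bn3q3.enc h2 h3)) (enc_mul (enc_norm (enc_mul (enc_norm (enc_sub (enc_pnc _ 1) (lm2r.enc h1 h2))) (cv2r.enc h2))) (enc_norm (enc_sub (bn2q3.enc h2 h3) (bn3q3.enc h2 h3))))) (enc_add (kn3q3.enc h2 h3) (enc_mul (lm3r.enc h1 h2) (enc_norm (enc_sub (kn4q3.enc h2 h3) (kn3q3.enc h2 h3))))))))⟩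
noncomputable def rsnq3 : Fn3 := ⟨_, _, fun h1 h2 h3 => (enc_case h1 (enc_neg (rknq3.enc (enc_neg h1) h2 h3)) (rknq3.enc h1 h2 h3))⟩

noncomputable def ndF0q0 : Node := ⟨idf, c1g, kf0q0, l0q0⟩
noncomputable def ndF0q1 : Node := ⟨idf, c1g, kf0q1, l0q1⟩
noncomputable def ndF0q2 : Node := ⟨yag, idf, kfc02, lc02⟩
noncomputable def ndF1q0 : Node := ⟨idf, cv1m, kf1q0, l1q0⟩
noncomputable def ndF1q1 : Node := ⟨idf, cv1m, kf1q1, l1q1⟩
noncomputable def ndF1q2a : Node := ⟨yag, xc12a, kfc12a, lc12a⟩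
noncomputable def ndF1q2b : Node := ⟨idf, xc12b, kfc12b, lc12b⟩
noncomputable def ndF1q3 : Node := ⟨idf, cv1r, kf1q3, l1q3⟩
noncomputable def ndF2q0 : Node := ⟨idf, cv2m, kf2q0, l2q0⟩
noncomputable def ndF2q1 : Node := ⟨idf, cv2m, kf2q1, l2q1⟩
noncomputable def ndF2q2a : Node := ⟨yag, xc22a, kfc22a, lc22a⟩
noncomputable def ndF2q2b : Node := ⟨idf, xc22b, kfc22b, lc22b⟩
noncomputable def ndF2q3 : Node := ⟨idf, cv2r, kf2q3, l2q3⟩
noncomputable def ndF3q0 : Node := ⟨idf, cv3m, kf3q0, l3q0⟩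
noncomputable def ndF3q1 : Node := ⟨idf, cv3m, kf3q1, l3q1⟩
noncomputable def ndF3q2 : Node := ⟨idf, cv3p, kf3q2, l3q2⟩
noncomputable def ndF3q3 : Node := ⟨ycg, xc33, kfc33, lc33⟩
noncomputable def ndF4q0 : Node := ⟨idf, c3g, kf4q0, l4q0⟩
noncomputable def ndF4q1 : Node := ⟨idf, c3g, kf4q1, l4q1⟩
noncomputable def ndF4q2 : Node := ⟨idf, c3g, kf4q2, l4q2⟩
noncomputable def ndF4q3 : Node := ⟨ycg, idf, kfc43, lc43⟩
noncomputable def pcF0 : Piece := ⟨rsfq0, rlq0⟩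
noncomputable def pcF1 : Piece := ⟨rsfq1, rlq1⟩
noncomputable def pcF2 : Piece := ⟨rsfq2, rlq2⟩
noncomputable def pcF3 : Piece := ⟨rsfq3, rlq3⟩
noncomputable def ndN0q0 : Node := ⟨idf, c1g, kn0q0, l0q0⟩
noncomputable def ndN0q1 : Node := ⟨idf, c1g, kn0q1, l0q1⟩
noncomputable def ndN0q2 : Node := ⟨yag, idf, knc02, lc02⟩
noncomputable def ndN1q0 : Node := ⟨idf, cv1m, kn1q0, l1q0⟩
noncomputable def ndN1q1 : Node := ⟨idf, cv1m, kn1q1, l1q1⟩
noncomputable def ndN1q2a : Node := ⟨yag, xc12a, knc12a, lc12a⟩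
noncomputable def ndN1q2b : Node := ⟨idf, xc12b, knc12b, lc12b⟩
noncomputable def ndN1q3 : Node := ⟨idf, cv1r, kn1q3, l1q3⟩
noncomputable def ndN2q0 : Node := ⟨idf, cv2m, kn2q0, l2q0⟩
noncomputable def ndN2q1 : Node := ⟨idf, cv2m, kn2q1, l2q1⟩
noncomputable def ndN2q2a : Node := ⟨yag, xc22a, knc22a, lc22a⟩
noncomputable def ndN2q2b : Node := ⟨idf, xc22b, knc22b, lc22b⟩
noncomputable def ndN2q3 : Node := ⟨idf, cv2r, kn2q3, l2q3⟩
noncomputable def ndN3q0 : Node := ⟨idf, cv3m, kn3q0, l3q0⟩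
noncomputable def ndN3q1 : Node := ⟨idf, cv3m, kn3q1, l3q1⟩
noncomputable def ndN3q2 : Node := ⟨idf, cv3p, kn3q2, l3q2⟩
noncomputable def ndN3q3 : Node := ⟨ycg, xc33, knc33, lc33⟩
noncomputable def ndN4q0 : Node := ⟨idf, c3g, kn4q0, l4q0⟩
noncomputable def ndN4q1 : Node := ⟨idf, c3g, kn4q1, l4q1⟩
noncomputable def ndN4q2 : Node := ⟨idf, c3g, kn4q2, l4q2⟩
noncomputable def ndN4q3 : Node := ⟨ycg, idf, knc43, lc43⟩
noncomputable def pcN0 : Piece := ⟨rsnq0, rlq0⟩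
noncomputable def pcN1 : Piece := ⟨rsnq1, rlq1⟩
noncomputable def pcN2 : Piece := ⟨rsnq2, rlq2⟩
noncomputable def pcN3 : Piece := ⟨rsnq3, rlq3⟩
noncomputable def ndF1q2 : Node := ⟨idf, cv1p, kf1q2, l1q2⟩
noncomputable def ndF2q2 : Node := ⟨idf, cv2p, kf2q2, l2q2⟩
noncomputable def ndN1q2 : Node := ⟨idf, cv1p, kn1q2, l1q2⟩
noncomputable def ndN2q2 : Node := ⟨idf, cv2p, kn2q2, l2q2⟩
end Pool.Agent.Strip051.G.I1_32_3_64.Tab
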