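import Pool.Agent.Strip051.G.I1_32_3_64.MolD

/-! # The tight charts of a table: certificates (generated) -/

set_option linter.all false
set_option maxRecDepth 100000

namespace Pool.Agent.Strip051.G.I1_32_3_64.Tab.Mo

open Pool.Agent.Strip051.PB Pool.Agent.Strip051.PB.Mol Pool.Agent.Strip051.PB.T
open Pool.Agent.Strip051.G.I1_32_3_64.Tab

noncomputable def f0Ap : ℕ → ℕ → ℕ → ℕ → Bool :=
  onCell 0 33554432 0 6291456 33554432 16777216 (c0_Ap.row false 16777216)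

def h0_0Ap : ∃ t, chk3 f0Ap t 1 1 1 = true :=
  ⟨(a (a (c (b (l 16) (a (l 16) (l 16))) (l 16)) (c (a (b (l 16) (c (a (b (l 16) (l 22)) (b (l 22) (l 22))) (a (l 22) (b (l 22) (l 22))))) (c (b (a (b (l 16) (c (l 22) (l 22))) (c (b (a (b (l 16) (l 22)) (l 20)) (b (l 22) (l 12))) (a (b (b (l 16) (l 22)) (l 22)) (l 20)))) (a (b (c (l 22) (l 22)) (l 14)) (l 12))) (b (a (b (l 16) (l 22)) (a (b (b (l 16) (l 22)) (l 20)) (l 20))) (a (b (l 22) (l 14)) (l 12))))) (a (b (l 16) (c (b (l 22) (l 22)) (a (l 16) (l 22)))) (c (b (a (b (l 16) (l 22)) (b (a (b (l 16) (l 20)) (l 20)) (l 20))) (a (b (l 22) (l 14)) (l 12))) (b (a (b (l 16) (l 22)) (b (a (l 20) (l 20)) (l 20))) (a (b (l 22) (l 12)) (l 12))))))) (a (a (c (b (c (l 20) (l 20)) (l 12)) (c (l 20) (l 20))) (l 12)) (l 12))), by decide +kernel⟩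

theorem ct_0Ap : ∃ t, chk3 f0Ap t 1 1 1 = true := h0_0Ap

noncomputable def f0Apk1 : ℕ → ℕ → ℕ → ℕ → Bool :=
  onCell 0 50331648 0 16777216 33554432 16777216 (c0_Apk1.row false 25165824)

def h0_0Apk1 : ∃ t, chk3 f0Apk1 t 1 4 1 = true :=
  ⟨(a (a (c (a (c (b (a (l 16) (l 16)) (l 16)) (l 16)) (c (l 16) (l 16))) (a (l 16) (l 16))) (a (l 16) (c (c (a (b (l 16) (b (l 16) (l 22))) (b (c (a (b (l 16) (l 22)) (a (b (b (l 16) (l 22)) (l 22)) (l 20))) (a (b (l 16) (l 22)) (b (a (b (l 16) (l 22)) (l 20)) (l 20)))) (a (b (l 22) (l 22)) (l 12)))) (a (b (l 16) (a (l 16) (l 22))) (b (c (a (b (l 16) (l 22)) (b (a (b (l 16) (l 20)) (l 20)) (l 20))) (b (a (l 16) (a (b (l 16) (l 20)) (l 20))) (l 22))) (a (b (l 22) (l 22)) (l 12))))) (c (a (b (l 16) (c (l 22) (l 22))) (b (c (b (a (l 16) (l 20)) (l 22)) (a (b (l 16) (l 22)) (l 20))) (a (b (l 22) (l 20)) (l 12))))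 (a (b (l 16) (l 22)) (a (b (b (l 16) (l 22)) (l 22)) (l 20))))))) (a (a (a (c (c (l 20) (l 20)) (l 20)) (l 12)) (l 12)) (l 12))), by decide +kernel⟩

def h1_0Apk1 : ∃ t, chk3 f0Apk1 t 1 5 1 = true :=
  ⟨(a (a (c (a (c (a (l 80) (l 16)) (l 80)) (c (l 16) (l 16))) (a (l 16) (l 16))) (c (a (a (l 16) (c (b (a (l 16) (l 22)) (c (l 22) (l 22))) (b (c (l 16) (l 16)) (l 22)))) (c (a (b (b (l 22) (l 22)) (b (l 22) (l 14))) (b (a (c (l 14) (l 12)) (l 12)) (l 12))) (a (b (a (l 22) (l 22)) (a (l 22) (l 14))) (b (c (l 12) (l 12)) (l 12))))) (a (a (l 16) (c (b (l 16) (l 22)) (b (l 16) (l 22)))) (c (a (b (l 22) (c (l 22) (l 22))) (b (l 12) (l 12))) (a (b (l 22) (l 22)) (l 12)))))) (a (a (c (l 12) (l 12)) (l 12)) (l 12))), by decide +kernel⟩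

def h2_0Apk1 : ∃ t, chk3 f0Apk1 t 1 3 1 = true :=
  ⟨(a (a (c (b (a (c (l 80) (l 80)) (a (l 80) (b (l 16) (c (a (l 16) (l 22)) (l 22))))) (a (l 80) (c (a (b (l 80) (a (l 80) (l 86))) (b (c (l 22) (l 22)) (a (l 86) (l 14)))) (a (b (l 16) (l 22)) (b (l 22) (l 22)))))) (a (b (l 80) (l 80)) (b (a (l 16) (b (l 16) (c (l 22) (l 16)))) (c (a (b (l 16) (l 22)) (b (l 22) (l 22))) (a (l 22) (l 22)))))) (c (b (a (c (a (b (a (l 16) (l 22)) (c (l 22) (l 22))) (b (a (l 22) (l 14)) (a (l 14) (l 14)))) (a (b (l 22) (l 22)) (b (c (l 22) (l 22)) (l 14)))) (a (b (b (l 14) (l 14)) (l 14)) (l 12))) (a (c (a (b (a (l 22) (l 14)) (l 14)) (b (l 14) (l 14))) (a (b (l 22) (l 14)) (b (l 14) (l 14)))) (c (l 12) (l 12)))) (a (b (c (a (b (l 22) (l 22)) (b (l 22) (l 14))) (b (l 22) (a (l 22) (l 14)))) (c (a (b (l 22) (l 14)) (b (l 14) (l 14))) (a (b (l 22) (l 14)) (l 14))))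 (b (a (b (l 14) (l 12)) (l 12)) (l 12))))) (a (a (c (l 12) (l 12)) (l 44)) (l 44))), by decide +kernel⟩

theorem h3_0Apk1 : ∃ t, chk3 f0Apk1 t 1 2 1 = true := ex3_b h0_0Apk1 h1_0Apk1

theorem h4_0Apk1 : ∃ t, chk3 f0Apk1 t 1 1 1 = true := ex3_b h3_0Apk1 h2_0Apk1

theorem ct_0Apk1 : ∃ t, chk3 f0Apk1 t 1 1 1 = true := h4_0Apk1

noncomputable def f0Apk2 : ℕ → ℕ → ℕ → ℕ → Bool :=
  onCell 0 50331648 0 16777216 33554432 16777216 (c0_Apk2.row false 25165824)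

def h0_0Apk2 : ∃ t, chk3 f0Apk2 t 2 4 1 = true :=
  ⟨(a (c (a (c (a (l 16) (l 16)) (l 16)) (l 16)) (l 16)) (a (l 16) (c (c (a (b (l 16) (a (l 16) (c (l 22) (l 22)))) (b (c (a (b (l 16) (l 22)) (a (b (b (l 16) (l 22)) (l 22)) (l 20))) (a (b (l 16) (l 22)) (a (b (b (l 16) (l 22)) (l 20)) (l 20)))) (a (b (l 22) (l 22)) (l 12)))) (a (b (l 16) (a (l 16) (l 22))) (b (c (a (b (l 16) (l 22)) (b (a (b (l 16) (l 22)) (l 20)) (l 20))) (a (b (l 16) (l 22)) (b (a (b (l 16) (l 20)) (l 20)) (l 20)))) (a (b (l 22) (l 22)) (l 12))))) (c (a (b (l 16) (a (l 16) (l 22))) (b (c (b (a (l 16) (c (a (l 20) (l 20)) (l 20))) (l 22)) (a (b (l 16) (l 22)) (l 20))) (a (b (l 22) (l 22)) (l 12)))) (a (b (l 16) (l 22)) (b (a (b (l 16) (l 22)) (l 20)) (b (l 22) (l 20)))))))), by decide +kernel⟩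

def h1_0Apk2 : ∃ t, chk3 f0Apk2 t 2 5 1 = true :=
  ⟨(a (c (a (c (l 80) (l 16)) (l 16)) (l 16)) (c (a (a (l 16) (c (b (a (l 16) (l 22)) (a (l 22) (l 22))) (b (c (l 16) (l 16)) (l 22)))) (c (a (b (a (l 22) (b (l 22) (l 14))) (a (c (l 22) (l 22)) (l 14))) (b (a (b (l 14) (l 12)) (l 12)) (l 12))) (a (b (b (l 22) (l 22)) (a (l 22) (l 14))) (b (b (l 14) (l 12)) (l 12))))) (a (a (l 16) (c (b (l 16) (l 22)) (b (l 16) (l 22)))) (c (a (b (a (l 22) (l 22)) (a (l 22) (l 14))) (b (l 12) (l 12))) (a (b (l 22) (l 22)) (b (l 12) (l 12))))))), by decide +kernel⟩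

def h2_0Apk2 : ∃ t, chk3 f0Apk2 t 3 2 1 = true :=
  ⟨(b (a (a (a (c (b (l 20) (l 12)) (l 20)) (l 12)) (l 12)) (l 12)) (a (a (c (l 12) (l 12)) (l 12)) (l 12))), by decide +kernel⟩

def h3_0Apk2 : ∃ t, chk3 f0Apk2 t 1 3 1 = true :=
  ⟨(a (a (b (c (a (c (l 80) (l 80)) (a (l 16) (b (l 16) (a (l 16) (c (l 22) (l 22)))))) (a (l 16) (a (l 16) (b (l 16) (c (l 22) (l 16)))))) (c (a (l 80) (c (a (b (l 16) (a (l 80) (c (l 22) (l 22)))) (b (c (a (l 22) (l 22)) (l 22)) (c (a (l 22) (l 14)) (a (l 22) (l 14))))) (a (b (l 16) (c (l 22) (l 22))) (b (l 22) (a (l 22) (l 14)))))) (a (l 80) (c (a (b (l 16) (l 22)) (b (l 22) (l 22))) (b (a (l 16) (l 22)) (l 22)))))) (c (b (a (c (a (b (a (l 16) (l 22)) (b (l 22) (l 22))) (b (a (l 22) (l 14)) (a (l 14) (l 14)))) (a (b (c (l 22) (l 22)) (l 22)) (b (a (l 22) (l 14)) (c (l 14) (l 14))))) (a (b (b (l 14) (l 14)) (l 14))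 (l 12))) (a (c (a (b (a (c (l 22) (l 22)) (l 14)) (a (l 14) (l 14))) (b (l 14) (l 14))) (a (b (a (l 22) (l 14)) (l 14)) (b (l 14) (l 14)))) (c (l 12) (l 12)))) (a (b (c (a (b (l 22) (l 22)) (b (l 22) (l 14))) (b (l 22) (a (l 22) (l 14)))) (c (a (b (l 22) (l 14)) (b (l 14) (l 14))) (a (b (l 22) (l 14)) (b (l 14) (l 14))))) (b (a (b (l 14) (l 12)) (l 12)) (l 12))))) (a (a (c (l 12) (l 12)) (l 12)) (l 44))), by decide +kernel⟩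

theorem h4_0Apk2 : ∃ t, chk3 f0Apk2 t 2 2 1 = true := ex3_b h0_0Apk2 h1_0Apk2

theorem h5_0Apk2 : ∃ t, chk3 f0Apk2 t 1 2 1 = true := ex3_a h4_0Apk2 h2_0Apk2

theorem h6_0Apk2 : ∃ t, chk3 f0Apk2 t 1 1 1 = true := ex3_b h5_0Apk2 h3_0Apk2

theorem ct_0Apk2 : ∃ t, chk3 f0Apk2 t 1 1 1 = true := h6_0Apk2

noncomputable def f0Am : ℕ → ℕ → ℕ → ℕ → Bool :=
  onCell 0 33554432 0 6291456 33554432 16777216 (c0_Am.row true 16777216)

def h0_0Am : ∃ t, chk3 f0Am t 16 4 8 = true :=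
  ⟨(b (a (c (b (a (c (b (l 24) (l 24)) (b (l 24) (l 24))) (c (b (l 24) (l 24)) (a (l 16) (l 16)))) (a (a (l 3) (b (c (l 16) (l 16)) (l 3))) (c (b (l 24) (l 24)) (a (l 24) (l 16))))) (b (a (b (l 24) (c (l 24) (l 16))) (b (l 24) (c (l 16) (l 16)))) (a (a (l 3) (c (l 16) (l 16))) (c (a (l 16) (l 16)) (a (l 16) (l 16)))))) (c (b (a (c (a (l 16) (l 16)) (a (l 16) (l 16))) (c (a (l 16) (l 16)) (l 16))) (a (c (a (l 16) (l 16)) (a (l 16) (l 16))) (c (a (l 16) (l 16)) (a (l 16) (l 16))))) (a (c (b (a (l 16) (l 16)) (a (l 16) (l 16))) (b (l 16) (a (l 16) (l 16)))) (c (b (l 16) (l 16)) (b (l 16) (l 16)))))) (a (b (a (l 3) (c (c (b (l 24) (a (l 3) (l 16))) (b (l 24) (l 24))) (c (a (l 16) (l 16)) (a (l 16) (l 16))))) (l 3)) (c (b (a (c (b (l 24) (l 24)) (a (l 16) (l 16))) (c (a (l 16) (l 16)) (a (l 16) (l 16)))) (a (c (b (l 24) (a (l 3) (l 16))) (a (l 24)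 (l 16))) (c (a (l 24) (l 16)) (a (l 16) (l 16))))) (a (c (b (a (l 16) (l 16)) (a (l 16) (l 16))) (b (a (l 16) (l 16)) (a (l 16) (l 16)))) (c (b (a (l 16) (l 16)) (a (l 16) (l 16))) (b (l 16) (l 16))))))), by decide +kernel⟩

def h1_0Am : ∃ t, chk3 f0Am t 16 4 9 = true :=
  ⟨(b (a (c (b (a (b (l 24) (l 24)) (b (l 24) (l 24))) (a (a (l 3) (c (l 16) (l 16))) (c (a (l 16) (l 16)) (l 16)))) (a (c (b (l 24) (l 24)) (b (l 24) (l 24))) (c (b (l 16) (l 16)) (b (l 16) (l 16))))) (c (a (c (b (l 16) (l 16)) (b (l 16) (l 16))) (c (b (l 16) (l 16)) (b (l 16) (l 16)))) (a (c (b (l 16) (l 16)) (b (l 16) (l 16))) (c (b (l 16) (l 16)) (b (l 16) (l 16)))))) (a (b (a (l 3) (c (c (a (l 16) (l 16)) (l 24)) (c (l 16) (l 16)))) (l 3)) (c (a (c (b (l 16) (a (l 16) (l 16))) (b (l 16) (l 16))) (c (b (l 16) (l 16)) (b (l 16) (l 16)))) (a (c (b (l 16) (l 16)) (b (l 16)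 (l 16))) (c (b (l 16) (l 16)) (b (l 16) (l 16))))))), by decide +kernel⟩

def h2_0Am : ∃ t, chk3 f0Am t 17 4 8 = true :=
  ⟨(b (a (c (a (c (b (l 16) (l 16)) (b (l 16) (l 16))) (c (b (l 16) (l 16)) (b (l 16) (l 16)))) (a (c (b (l 16) (l 16)) (b (l 16) (l 16))) (c (b (l 16) (l 16)) (b (l 16) (l 16))))) (c (a (c (b (l 16) (l 16)) (b (l 16) (l 16))) (c (b (l 16) (l 16)) (b (l 16) (l 16)))) (a (c (b (l 16) (l 16)) (b (l 16) (l 16))) (c (b (l 16) (l 16)) (b (l 16) (l 16)))))) (a (c (a (c (b (a (l 16) (l 16)) (a (l 16) (l 16))) (b (l 16) (a (l 16) (l 16)))) (c (b (l 16) (a (l 16) (l 16))) (b (l 16) (l 16)))) (a (c (b (l 16) (l 16)) (b (l 16) (l 16))) (c (b (l 16) (l 16)) (b (l 16) (l 16))))) (c (a (c (b (l 16) (l 16)) (b (l 16) (l 16))) (c (b (l 16) (l 16)) (b (l 16) (l 16)))) (a (c (b (l 16) (l 16)) (b (l 16) (l 16))) (c (b (l 16) (l 16)) (b (l 16)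 (l 16))))))), by decide +kernel⟩

def h3_0Am : ∃ t, chk3 f0Am t 17 4 9 = true :=
  ⟨(b (a (c (a (c (b (l 16) (l 16)) (b (l 16) (l 16))) (c (b (l 16) (l 16)) (b (l 16) (l 16)))) (a (c (b (l 16) (l 16)) (b (l 16) (l 16))) (c (b (l 16) (l 16)) (b (l 16) (l 16))))) (c (a (c (b (l 16) (l 16)) (b (l 16) (l 16))) (c (b (l 16) (l 16)) (b (l 16) (l 16)))) (a (c (b (l 16) (l 16)) (b (l 16) (l 16))) (c (b (l 16) (l 16)) (b (l 16) (l 16)))))) (a (c (a (c (b (l 16) (l 16)) (b (l 16) (l 16))) (c (b (l 16) (l 16)) (b (l 16) (l 16)))) (a (c (b (l 16) (l 16)) (b (l 16) (l 16))) (c (b (l 16) (l 16)) (b (l 16) (l 16))))) (c (a (c (b (l 16) (l 16)) (b (l 16) (l 16))) (c (b (l 16) (l 16)) (b (l 16) (l 16)))) (a (c (b (l 16) (l 16)) (b (l 16) (l 16))) (c (b (l 16) (l 16)) (b (l 16) (l 16))))))), by decide +kernel⟩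

def h4_0Am : ∃ t, chk3 f0Am t 16 5 4 = true :=
  ⟨(b (a (l 3) (c (c (b (a (a (l 3) (c (c (l 16) (l 16)) (l 24))) (c (a (c (l 16) (l 16)) (l 24)) (a (l 16) (l 16)))) (a (l 3) (a (l 3) (c (c (l 16) (l 16)) (l 16))))) (a (b (a (l 3) (c (l 16) (l 16))) (l 3)) (c (b (a (l 16) (l 16)) (a (l 3) (l 16))) (b (a (l 16) (l 16)) (a (l 3) (l 16)))))) (c (a (b (c (a (l 3) (l 16)) (l 24)) (l 3)) (c (b (l 16) (a (l 3) (l 16))) (b (l 16) (l 16)))) (a (b (c (l 16) (l 16)) (l 3)) (c (b (l 16) (l 16)) (b (l 16) (l 16))))))) (l 3)), by decide +kernel⟩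

def h5_0Am : ∃ t, chk3 f0Am t 17 5 8 = true :=
  ⟨(b (a (c (a (c (b (a (l 16) (l 16)) (a (l 24) (l 16))) (b (a (l 16) (l 16)) (a (l 16) (l 16)))) (c (b (a (l 16) (l 16)) (a (l 16) (l 16))) (b (l 16) (a (l 16) (l 16))))) (a (c (b (a (l 16) (l 16)) (a (l 16) (l 16))) (b (l 16) (a (l 16) (l 16)))) (c (b (l 16) (l 16)) (b (l 16) (l 16))))) (c (a (c (b (l 16) (a (l 16) (l 16))) (b (l 16) (l 16))) (c (b (l 16) (l 16)) (b (l 16) (l 16)))) (a (c (b (l 16) (l 16)) (b (l 16) (l 16))) (c (b (l 16) (l 16)) (b (l 16) (l 16)))))) (a (c (a (b (c (a (c (l 16) (l 16)) (c (l 16) (l 16))) (a (l 16) (l 16))) (l 3)) (c (b (a (l 16) (l 16)) (a (c (l 16) (l 16)) (l 16))) (b (a (l 16) (l 16)) (a (l 16) (l 16))))) (a (b (c (a (l 16) (l 16)) (a (l 16) (l 16))) (l 3)) (c (b (a (l 16) (l 16)) (a (l 16) (l 16))) (b (l 16) (a (l 16) (l 16)))))) (c (a (c (b (a (l 16) (l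 16)) (a (l 16) (l 16))) (b (a (l 16) (l 16)) (a (l 16) (l 16)))) (c (b (l 16) (a (l 16) (l 16))) (b (l 16) (l 16)))) (a (c (b (l 16) (l 16)) (b (l 16) (l 16))) (c (b (l 16) (l 16)) (b (l 16) (l 16))))))), by decide +kernel⟩

def h6_0Am : ∃ t, chk3 f0Am t 17 5 9 = true :=
  ⟨(b (a (c (a (c (b (l 16) (l 16)) (b (l 16) (l 16))) (c (b (l 16) (l 16)) (b (l 16) (l 16)))) (a (c (b (l 16) (l 16)) (b (l 16) (l 16))) (c (b (l 16) (l 16)) (b (l 16) (l 16))))) (c (a (c (b (l 16) (l 16)) (b (l 16) (l 16))) (c (b (l 16) (l 16)) (b (l 16) (l 16)))) (a (c (b (l 16) (l 16)) (b (l 16) (l 16))) (c (b (l 16) (l 16)) (b (l 16) (l 16)))))) (a (c (a (b (c (l 16) (l 16)) (l 3)) (c (b (l 16) (l 16)) (b (l 16) (l 16)))) (a (b (c (l 16) (l 16)) (l 3)) (c (b (l 16) (l 16)) (b (l 16) (l 16))))) (c (a (c (b (l 16) (l 16)) (b (l 16) (l 16))) (c (b (l 16) (l 16)) (b (l 16)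 (l 16)))) (a (c (b (l 16) (l 16)) (b (l 16) (l 16))) (c (b (l 16) (l 16)) (b (l 16) (l 16))))))), by decide +kernel⟩

def h7_0Am : ∃ t, chk3 f0Am t 16 4 5 = true :=
  ⟨(c (b (a (c (a (c (b (l 24) (l 16)) (b (l 24) (l 16))) (c (b (l 16) (l 16)) (b (l 16) (l 16)))) (a (c (b (l 24) (l 24)) (b (l 24) (l 24))) (c (b (l 24) (l 16)) (b (l 24) (l 24))))) (c (a (c (b (l 16) (l 16)) (b (l 16) (l 16))) (c (b (l 16) (l 16)) (b (l 16) (l 16)))) (a (c (b (l 24) (l 16)) (b (l 24) (l 16))) (c (b (l 24) (l 16)) (b (l 24) (l 16)))))) (a (a (l 3) (b (c (c (l 16) (l 16)) (c (l 16) (l 16))) (l 3))) (c (a (c (b (l 16) (l 16)) (b (l 16) (l 16))) (c (b (l 16) (l 16)) (b (l 16) (l 16)))) (a (c (b (l 16) (l 16)) (b (l 16) (l 16))) (c (b (l 16) (l 16)) (b (l 16) (l 16))))))) (b (a (c (a (b (l 24) (c (l 24) (l 24))) (c (b (l 24) (l 24)) (b (l 24) (l 24)))) (a (b (l 24)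 (c (l 24) (l 24))) (b (l 24) (c (l 24) (l 16))))) (c (a (b (l 24) (c (l 24) (l 24))) (b (l 24) (c (l 16) (l 16)))) (a (b (l 24) (l 24)) (c (l 16) (l 16))))) (a (a (l 3) (b (c (c (l 16) (l 24)) (c (l 24) (l 24))) (l 3))) (c (a (c (b (l 16) (l 16)) (b (l 24) (l 16))) (c (b (l 16) (l 16)) (b (l 16) (l 16)))) (a (c (b (l 16) (l 24)) (b (l 16) (l 16))) (c (b (l 16) (l 16)) (l 16))))))), by decide +kernel⟩

def h8_0Am : ∃ t, chk3 f0Am t 17 4 5 = true :=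
  ⟨(c (b (a (c (a (c (b (l 16) (l 16)) (b (l 16) (l 16))) (c (b (l 16) (l 16)) (b (l 16) (l 16)))) (a (c (b (l 16) (l 16)) (b (l 16) (l 16))) (c (b (l 16) (l 16)) (l 16)))) (c (a (c (b (l 16) (l 16)) (b (l 16) (l 16))) (c (b (l 16) (l 16)) (l 16))) (a (c (l 16) (l 16)) (c (l 16) (l 16))))) (a (c (a (c (b (l 16) (l 16)) (b (l 16) (l 16))) (c (b (l 16) (l 16)) (b (l 16) (l 16)))) (a (c (b (l 16) (l 16)) (b (l 16) (l 16))) (c (b (l 16) (l 16)) (b (l 16) (l 16))))) (c (a (c (b (l 16) (l 16)) (b (l 16) (l 16))) (c (b (l 16) (l 16)) (b (l 16) (l 16)))) (a (c (b (l 16) (l 16)) (l 16)) (c (l 16) (l 16)))))) (b (a (c (a (b (l 16) (l 24)) (c (l 16) (l 16))) (a (c (l 16) (l 16)) (l 16))) (c (a (l 16) (l 16)) (l 16))) (a (c (a (c (b (l 16) (l 16)) (b (l 16) (l 16))) (b (l 16) (l 24))) (a (c (l 16) (l 16)) (c (l 16) (l 16)))) (c (a (c (l 16) (l 16)) (l 16))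 (a (l 16) (l 16)))))), by decide +kernel⟩

def h9_0Am : ∃ t, chk3 f0Am t 16 5 5 = true :=
  ⟨(b (a (l 3) (c (c (a (b (c (l 16) (l 16)) (l 3)) (c (b (l 16) (l 16)) (b (l 16) (l 16)))) (a (b (c (l 16) (l 16)) (l 3)) (c (b (l 16) (l 16)) (b (l 16) (l 16))))) (c (a (b (c (l 16) (l 16)) (l 3)) (c (b (l 16) (l 16)) (b (l 16) (l 16)))) (a (b (c (l 16) (l 16)) (l 3)) (c (b (l 16) (l 16)) (b (l 16) (l 16))))))) (l 3)), by decide +kernel⟩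

def h10_0Am : ∃ t, chk3 f0Am t 17 5 10 = true :=
  ⟨(b (a (c (a (c (b (l 16) (l 16)) (b (l 16) (l 16))) (c (b (l 16) (l 16)) (b (l 16) (l 16)))) (a (c (b (l 16) (l 16)) (b (l 16) (l 16))) (c (b (l 16) (l 16)) (b (l 16) (l 16))))) (c (a (c (b (l 16) (l 16)) (b (l 16) (l 16))) (c (b (l 16) (l 16)) (b (l 16) (l 16)))) (a (c (b (l 16) (l 16)) (b (l 16) (l 16))) (c (b (l 16) (l 16)) (b (l 16) (l 16)))))) (a (c (a (b (c (l 16) (l 16)) (l 3)) (c (b (l 16) (l 16)) (b (l 16) (l 16)))) (a (b (c (l 16) (l 16)) (l 3)) (c (b (l 16) (l 16)) (b (l 16) (l 16))))) (c (a (c (b (l 16) (l 16)) (b (l 16) (l 16))) (c (l 16) (l 16))) (a (c (b (l 16) (l 16)) (b (l 16) (l 16))) (c (l 16) (b (l 16) (l 16))))))), by decide +kernel⟩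

def h11_0Am : ∃ t, chk3 f0Am t 17 5 11 = true :=
  ⟨(b (a (c (a (c (b (l 16) (l 16)) (b (l 16) (l 16))) (c (b (l 16) (l 16)) (b (l 16) (l 16)))) (a (c (b (l 16) (l 16)) (l 16)) (c (l 16) (l 16)))) (c (a (c (b (l 16) (l 16)) (l 16)) (c (l 16) (l 16))) (a (c (l 16) (l 16)) (l 16)))) (a (c (a (b (c (l 16) (l 16)) (l 3)) (c (b (l 16) (l 16)) (b (l 16) (l 16)))) (a (b (c (l 16) (l 16)) (l 3)) (c (b (l 16) (l 16)) (l 24)))) (c (a (c (b (l 16) (l 16)) (b (l 16) (l 16))) (c (b (l 16) (l 16)) (l 16))) (a (c (l 16) (l 16)) (c (l 16) (l 16)))))), by decide +kernel⟩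

def h12_0Am : ∃ t, chk3 f0Am t 18 4 4 = true :=
  ⟨(c (b (a (c (a (c (l 16) (l 16)) (c (l 16) (l 16))) (a (c (l 16) (l 16)) (c (l 16) (l 16)))) (c (a (c (l 16) (l 16)) (c (l 16) (l 16))) (a (c (l 16) (l 16)) (c (l 16) (l 16))))) (a (c (a (c (b (l 16) (l 16)) (b (l 16) (l 16))) (c (l 16) (l 16))) (a (c (l 16) (l 16)) (c (l 16) (l 16)))) (c (a (c (l 16) (l 16)) (c (l 16) (l 16))) (a (c (l 16) (l 16)) (c (l 16) (l 16)))))) (b (a (c (a (c (l 16) (b (l 16) (l 16))) (c (l 16) (b (l 16) (l 16)))) (a (c (b (l 16) (l 16)) (l 16)) (c (l 16) (l 16)))) (c (a (c (l 16) (l 16)) (c (l 16) (l 16))) (a (c (l 16) (l 16)) (l 16)))) (a (c (a (c (l 16) (l 16)) (c (l 16) (l 16))) (a (c (l 16) (b (l 16) (l 16))) (c (l 16) (l 16)))) (c (a (c (l 16) (l 16)) (c (l 16) (l 16))) (a (c (l 16) (l 16)) (c (l 16) (l 16))))))), by decide +kernel⟩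

def h13_0Am : ∃ t, chk3 f0Am t 19 4 4 = true :=
  ⟨(c (b (a (c (a (c (l 16) (l 16)) (c (l 16) (l 16))) (a (c (l 16) (l 16)) (c (l 16) (l 16)))) (c (a (c (l 16) (l 16)) (l 16)) (a (l 16) (l 16)))) (a (c (a (c (l 16) (l 16)) (c (l 16) (l 16))) (a (c (l 16) (l 16)) (c (l 16) (l 16)))) (c (a (c (l 16) (l 16)) (c (l 16) (l 16))) (a (c (l 16) (l 16)) (l 16))))) (b (a (c (a (l 16) (l 16)) (l 16)) (c (l 16) (l 16))) (a (c (a (c (l 16) (l 16)) (l 16)) (a (l 16) (l 16))) (c (a (l 16) (l 16)) (l 16))))), by decide +kernel⟩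

def h14_0Am : ∃ t, chk3 f0Am t 18 5 4 = true :=
  ⟨(c (b (a (c (a (c (b (l 16) (l 16)) (b (l 16) (l 16))) (c (b (l 16) (l 16)) (b (l 16) (l 16)))) (a (c (b (l 16) (l 16)) (b (l 16) (l 16))) (c (l 16) (l 16)))) (c (a (c (l 16) (l 16)) (c (l 16) (l 16))) (a (c (l 16) (l 16)) (c (l 16) (l 16))))) (a (c (a (c (b (l 16) (l 16)) (b (l 16) (l 16))) (c (b (l 16) (l 16)) (b (l 16) (l 16)))) (a (c (b (l 16) (l 16)) (b (l 16) (l 16))) (c (b (l 16) (l 16)) (b (l 16) (l 16))))) (c (a (c (b (l 16) (l 16)) (b (l 16) (l 16))) (c (b (l 16) (l 16)) (l 16))) (a (c (l 16) (l 16)) (c (l 16) (l 16)))))) (b (a (c (a (c (l 16) (l 16)) (c (l 16) (l 16))) (a (c (l 16) (l 16)) (c (l 16) (l 16)))) (c (a (c (l 16) (l 16)) (c (l 16) (l 16))) (a (c (l 16) (l 16)) (c (l 16) (l 16))))) (a (c (a (c (b (l 16) (l 16)) (b (l 16) (l 16))) (c (l 16) (l 16))) (a (c (l 16) (l 16))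 (c (l 16) (l 16)))) (c (a (c (l 16) (l 16)) (c (l 16) (l 16))) (a (c (l 16) (l 16)) (c (l 16) (l 16))))))), by decide +kernel⟩

def h15_0Am : ∃ t, chk3 f0Am t 19 5 4 = true :=
  ⟨(c (b (a (c (a (c (l 16) (l 16)) (c (l 16) (l 16))) (a (c (l 16) (l 16)) (c (l 16) (l 16)))) (c (a (c (l 16) (l 16)) (c (l 16) (l 16))) (a (c (l 16) (l 16)) (c (l 16) (l 16))))) (a (c (a (c (l 16) (l 16)) (c (l 16) (l 16))) (a (c (l 16) (l 16)) (c (l 16) (l 16)))) (c (a (c (l 16) (l 16)) (c (l 16) (l 16))) (a (c (l 16) (l 16)) (c (l 16) (l 16)))))) (b (a (c (a (c (l 16) (l 16)) (c (l 16) (l 16))) (a (c (l 16) (l 16)) (l 16))) (c (a (c (l 16) (l 16)) (l 16)) (a (l 16) (l 16)))) (a (c (a (c (l 16) (l 16)) (c (l 16) (l 16))) (a (c (l 16) (l 16)) (c (l 16) (l 16)))) (c (a (c (l 16) (l 16)) (c (l 16) (l 16))) (a (l 16) (l 16)))))), by decide +kernel⟩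

def h16_0Am : ∃ t, chk3 f0Am t 9 4 5 = true :=
  ⟨(a (c (b (a (c (a (c (l 16) (l 16)) (l 16)) (a (l 16) (l 16))) (c (a (l 16) (l 16)) (l 16))) (a (c (a (c (b (l 16) (l 16)) (l 16)) (c (l 16) (l 16))) (a (c (l 16) (l 16)) (l 16))) (c (a (l 16) (l 16)) (l 16)))) (b (a (c (l 16) (l 16)) (c (l 16) (l 16))) (a (c (a (l 16) (l 16)) (l 16)) (c (l 16) (l 16))))) (c (b (a (c (l 16) (l 16)) (l 16)) (a (c (l 16) (l 16)) (c (l 16) (l 16)))) (b (a (l 16) (l 16)) (a (l 16) (l 16))))), by decide +kernel⟩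

def h17_0Am : ∃ t, chk3 f0Am t 9 5 5 = true :=
  ⟨(a (c (b (a (c (a (c (l 16) (b (l 16) (l 16))) (c (l 16) (l 16))) (a (c (l 16) (l 16)) (c (l 16) (l 16)))) (c (a (c (l 16) (l 16)) (l 16)) (a (l 16) (l 16)))) (a (c (a (c (l 16) (l 16)) (c (l 16) (l 16))) (a (c (b (l 16) (l 16)) (b (l 16) (l 16))) (c (l 16) (l 16)))) (c (a (c (l 16) (l 16)) (c (l 16) (l 16))) (a (c (l 16) (l 16)) (l 16))))) (b (a (c (a (l 16) (l 16)) (a (l 16) (l 16))) (c (l 16) (l 16))) (a (c (a (c (l 16) (l 16)) (c (l 16) (l 16))) (a (l 16) (l 16))) (c (a (l 16) (l 16)) (l 16))))) (c (b (a (c (a (l 16) (l 16)) (l 16)) (c (l 16) (l 16))) (a (c (a (c (l 16) (l 16)) (l 16)) (a (l 16) (l 16))) (c (l 16) (l 16)))) (a (c (b (l 16) (l 16)) (b (l 16) (l 16))) (c (b (l 16) (l 16)) (l 16))))), by decide +kernel⟩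

def h18_0Am : ∃ t, chk3 f0Am t 8 3 4 = true :=
  ⟨(b (a (l 3) (c (b (a (b (a (l 3) (a (l 3) (b (a (l 3) (c (c (l 16) (l 16)) (l 16))) (l 3)))) (l 3)) (c (a (c (b (a (l 24) (l 16)) (a (l 3) (l 24))) (b (a (l 16) (l 16)) (a (l 3) (l 16)))) (c (b (a (l 16) (l 16)) (a (l 16) (l 16))) (b (a (l 16) (l 16)) (a (l 16) (l 16))))) (a (c (b (a (l 16) (l 16)) (a (l 3) (l 16))) (b (l 16) (a (l 3) (l 16)))) (c (b (l 16) (a (l 16) (l 16))) (b (l 16) (l 16)))))) (a (l 3) (a (l 3) (b (c (c (a (l 24) (l 16)) (a (l 16) (l 16))) (c (a (l 16) (l 16)) (l 24))) (l 3))))) (b (a (a (l 3) (b (a (l 3) (b (c (l 16) (l 16)) (l 3))) (l 3))) (c (a (c (b (l 16) (l 16)) (b (l 16) (l 16))) (c (b (l 16) (l 16)) (b (l 16) (l 16)))) (a (c (b (l 16) (l 16)) (b (l 16) (l 16))) (c (b (l 16) (l 16)) (b (l 16) (l 16)))))) (a (l 3) (a (l 3) (b (c (c (l 16) (l 16)) (c (l 16) (l 16)))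 (l 3))))))) (l 3)), by decide +kernel⟩

def h19_0Am : ∃ t, chk3 f0Am t 18 6 8 = true :=
  ⟨(b (a (c (a (c (b (a (l 16) (l 16)) (a (l 16) (l 16))) (b (l 16) (l 16))) (c (b (l 16) (l 16)) (b (l 16) (l 16)))) (a (c (b (l 16) (l 16)) (b (l 16) (l 16))) (c (b (l 16) (l 16)) (b (l 16) (l 16))))) (c (a (c (b (l 16) (l 16)) (b (l 16) (l 16))) (c (b (l 16) (l 16)) (b (l 16) (l 16)))) (a (c (b (l 16) (l 16)) (b (l 16) (l 16))) (c (l 16) (l 16))))) (a (c (a (c (b (a (l 16) (l 16)) (a (l 24) (l 16))) (b (a (l 16) (l 16)) (a (l 16) (l 16)))) (c (b (a (l 16) (l 16)) (a (l 16) (l 16))) (b (l 16) (a (l 16) (l 16))))) (a (c (b (l 16) (a (l 16) (l 16))) (b (l 16) (l 16))) (c (b (l 16) (l 16)) (b (l 16) (l 16))))) (c (a (c (b (l 16) (l 24)) (b (l 16) (l 16))) (c (b (l 16) (l 16)) (b (l 16) (l 16)))) (a (c (b (l 16) (l 16)) (b (l 16) (l 16))) (c (b (l 16) (l 16))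 (b (l 16) (l 16))))))), by decide +kernel⟩

def h20_0Am : ∃ t, chk3 f0Am t 18 6 9 = true :=
  ⟨(b (a (c (a (c (b (l 16) (l 16)) (b (l 16) (l 16))) (c (b (l 16) (l 16)) (b (l 16) (l 16)))) (a (c (b (l 16) (l 16)) (l 16)) (c (l 16) (l 16)))) (c (a (c (l 16) (l 16)) (c (l 16) (l 16))) (a (c (l 16) (l 16)) (c (l 16) (l 16))))) (a (c (a (c (b (l 16) (l 16)) (b (l 16) (l 16))) (c (b (l 16) (l 16)) (b (l 16) (l 16)))) (a (c (b (l 16) (l 16)) (b (l 16) (l 16))) (c (b (l 16) (l 16)) (b (l 16) (l 16))))) (c (a (c (b (l 16) (l 16)) (b (l 16) (l 16))) (c (l 16) (l 16))) (a (c (l 16) (l 16)) (c (l 16) (l 16)))))), by decide +kernel⟩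

def h21_0Am : ∃ t, chk3 f0Am t 19 6 4 = true :=
  ⟨(c (b (a (c (a (c (b (l 16) (l 16)) (l 16)) (c (l 16) (l 16))) (a (c (l 16) (l 16)) (c (l 16) (l 16)))) (c (a (c (l 16) (l 16)) (c (l 16) (l 16))) (a (c (l 16) (l 16)) (c (l 16) (l 16))))) (a (c (a (c (b (l 16) (l 16)) (b (l 16) (l 16))) (c (b (l 16) (l 16)) (b (l 16) (l 16)))) (a (c (b (l 16) (l 16)) (l 16)) (c (l 16) (l 16)))) (c (a (c (l 16) (l 16)) (c (l 16) (l 16))) (a (c (l 16) (l 16)) (c (l 16) (l 16)))))) (b (a (c (a (c (l 16) (l 16)) (c (l 16) (l 16))) (a (c (l 16) (l 16)) (c (l 16) (l 16)))) (c (a (c (l 16) (l 16)) (c (l 16) (l 16))) (a (c (l 16) (l 16)) (c (l 16) (l 16))))) (a (c (a (c (l 16) (l 16)) (c (l 16) (l 16))) (a (c (l 16) (l 16)) (c (l 16) (l 16)))) (c (a (c (l 16) (l 16)) (c (l 16) (l 16))) (a (c (l 16) (l 16)) (c (l 16) (l 16))))))), by decide +kernel⟩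

def h22_0Am : ∃ t, chk3 f0Am t 18 7 8 = true :=
  ⟨(b (a (c (a (b (a (l 3) (c (l 24) (l 16))) (l 3)) (c (b (a (l 16) (l 16)) (a (l 3) (l 16))) (b (a (l 16) (l 16)) (a (l 3) (l 16))))) (a (b (a (l 3) (c (l 16) (l 16))) (l 3)) (c (b (l 24) (a (l 3) (l 16))) (b (l 16) (l 24))))) (c (a (c (b (a (l 16) (l 16)) (a (l 16) (l 16))) (b (l 24) (a (l 16) (l 16)))) (c (b (l 16) (a (l 16) (l 16))) (b (l 16) (l 16)))) (a (c (b (l 16) (l 16)) (b (l 16) (l 16))) (c (b (l 16) (l 16)) (b (l 16) (l 16)))))) (a (l 3) (c (a (b (c (c (a (l 16) (l 16)) (l 24)) (a (l 16) (l 16))) (l 3)) (c (b (a (l 16) (l 16)) (c (a (l 16) (l 16)) (l 24))) (b (a (l 16) (l 16)) (a (l 16) (l 16))))) (a (b (c (a (l 16) (l 16)) (a (l 16) (l 16))) (l 3)) (c (b (a (l 16) (l 16)) (a (l 16) (l 16))) (b (l 16) (a (l 16) (l 16)))))))), by decide +kernel⟩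

def h23_0Am : ∃ t, chk3 f0Am t 19 7 8 = true :=
  ⟨(b (a (c (a (c (b (l 16) (l 16)) (b (l 16) (l 16))) (c (b (l 16) (l 16)) (b (l 16) (l 16)))) (a (c (b (l 16) (l 16)) (b (l 16) (l 16))) (c (b (l 16) (l 16)) (b (l 16) (l 16))))) (c (a (c (b (l 16) (l 16)) (b (l 16) (l 16))) (c (b (l 16) (l 16)) (l 16))) (a (c (l 16) (l 16)) (c (l 16) (l 16))))) (a (c (a (c (b (a (l 16) (l 16)) (a (l 16) (l 16))) (b (l 24) (a (l 16) (l 16)))) (c (b (l 16) (a (l 16) (l 16))) (b (l 16) (a (l 16) (l 16))))) (a (c (b (l 16) (a (l 16) (l 16))) (b (l 16) (l 16))) (c (b (l 16) (l 16)) (b (l 16) (l 16))))) (c (a (c (b (l 16) (a (l 16) (l 16))) (b (l 16) (l 16))) (c (b (l 16) (l 16)) (b (l 16) (l 16)))) (a (c (b (l 16) (l 16)) (b (l 16) (l 16))) (c (b (l 16) (l 16)) (b (l 16) (l 16))))))), by decide +kernel⟩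

def h24_0Am : ∃ t, chk3 f0Am t 9 7 9 = true :=
  ⟨(a (b (a (c (a (b (c (l 16) (l 16)) (l 3)) (c (b (l 16) (l 16)) (b (l 16) (l 16)))) (a (b (c (l 16) (l 16)) (l 3)) (c (b (l 16) (l 16)) (b (l 16) (l 16))))) (c (a (c (b (l 16) (l 16)) (b (l 16) (l 16))) (c (b (l 16) (l 16)) (b (l 16) (l 16)))) (a (c (b (l 16) (l 16)) (b (l 16) (l 16))) (c (l 16) (l 16))))) (a (l 3) (c (a (b (c (l 16) (l 16)) (l 3)) (c (b (l 16) (l 24)) (b (l 16) (l 16)))) (a (b (c (l 16) (l 16)) (l 3)) (c (b (l 16) (l 16)) (b (l 16) (l 16))))))) (b (a (c (a (c (b (l 16) (l 16)) (l 16)) (c (l 16) (l 16))) (a (c (l 16) (l 16)) (c (l 16) (l 16)))) (c (a (c (l 16) (l 16)) (c (l 16) (l 16))) (a (c (l 16) (l 16)) (c (l 16) (l 16))))) (a (c (a (c (b (l 16) (l 16)) (b (l 16) (l 16))) (c (b (l 16) (l 16)) (b (l 16) (l 16)))) (a (c (b (l 16) (l 16)) (l 16)) (c (l 16) (l 16)))) (c (a (c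 (b (l 16) (l 16)) (l 16)) (c (l 16) (l 16))) (a (c (l 16) (l 16)) (c (l 16) (l 16))))))), by decide +kernel⟩

def h25_0Am : ∃ t, chk3 f0Am t 8 3 5 = true :=
  ⟨(b (a (l 3) (c (b (a (a (l 3) (b (a (l 3) (c (l 16) (l 16))) (l 3))) (c (a (c (b (l 16) (l 16)) (b (l 16) (l 16))) (c (b (l 16) (l 16)) (l 16))) (a (c (b (l 16) (l 16)) (b (l 16) (l 16))) (c (l 16) (l 16))))) (a (l 3) (a (l 3) (b (c (c (l 16) (l 16)) (c (l 16) (l 16))) (l 3))))) (b (a (a (l 3) (b (a (l 3) (c (l 16) (l 16))) (l 3))) (c (a (c (b (l 16) (l 16)) (b (l 16) (l 16))) (c (b (l 16) (l 16)) (b (l 16) (l 16)))) (a (c (b (l 16) (l 16)) (l 24)) (c (l 16) (l 16))))) (a (l 3) (a (l 3) (b (c (c (l 16) (l 16)) (c (l 16) (l 16))) (l 3))))))) (l 3)), by decide +kernel⟩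

def h26_0Am : ∃ t, chk3 f0Am t 9 6 5 = true :=
  ⟨(a (c (b (a (c (a (c (l 16) (l 16)) (c (l 16) (l 16))) (a (c (l 16) (l 16)) (c (l 16) (l 16)))) (c (a (c (l 16) (l 16)) (c (l 16) (l 16))) (a (c (l 16) (l 16)) (c (l 16) (l 16))))) (a (c (a (c (b (l 16) (l 16)) (l 16)) (c (l 16) (l 16))) (a (c (l 16) (l 16)) (c (l 16) (l 16)))) (c (a (c (l 16) (l 16)) (c (l 16) (l 16))) (a (c (l 16) (l 16)) (c (l 16) (l 16)))))) (a (c (b (a (c (b (l 16) (l 16)) (l 16)) (c (l 16) (l 16))) (a (c (l 16) (b (l 16) (l 16))) (c (l 16) (l 16)))) (b (a (c (l 16) (l 16)) (l 16)) (a (c (l 16) (l 16)) (c (l 16) (l 16))))) (c (b (a (c (l 16) (l 16)) (l 16)) (a (c (l 16) (l 16)) (c (l 16) (l 16)))) (b (a (l 16) (l 16)) (a (l 16) (l 16)))))) (c (a (c (b (a (c (l 16) (l 16)) (c (l 16) (l 16))) (a (c (l 16) (l 16)) (c (l 16) (l 16)))) (b (a (l 16) (l 16)) (a (c (l 16) (l 16))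 (c (l 16) (l 16))))) (c (b (a (l 16) (l 16)) (a (c (l 16) (l 16)) (l 16))) (b (l 16) (a (l 16) (l 16))))) (a (c (b (a (l 16) (l 16)) (a (l 16) (l 16))) (b (l 16) (l 16))) (c (b (l 16) (l 16)) (b (l 16) (l 16)))))), by decide +kernel⟩

def h27_0Am : ∃ t, chk3 f0Am t 18 7 5 = true :=
  ⟨(c (b (a (c (a (b (c (l 16) (l 16)) (l 3)) (c (b (l 16) (l 16)) (b (l 16) (l 16)))) (a (c (b (l 16) (l 3)) (l 16)) (c (l 16) (l 16)))) (c (a (c (l 16) (l 16)) (c (l 16) (l 16))) (a (c (l 16) (l 16)) (c (l 16) (l 16))))) (a (l 3) (c (a (b (c (l 16) (l 16)) (l 3)) (c (b (l 16) (l 16)) (l 16))) (a (c (l 16) (l 16)) (c (l 16) (l 16)))))) (b (a (c (a (c (l 16) (l 16)) (c (l 16) (l 16))) (a (c (l 16) (b (l 16) (l 3))) (c (l 16) (l 16)))) (c (a (c (l 16) (l 16)) (c (l 16) (l 16))) (a (c (l 16) (l 16)) (c (l 16) (l 16))))) (a (l 3) (c (a (c (l 16) (l 16)) (c (l 16) (l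 16))) (a (c (l 16) (l 16)) (c (l 16) (l 16))))))), by decide +kernel⟩

def h28_0Am : ∃ t, chk3 f0Am t 19 7 5 = true :=
  ⟨(c (a (c (b (a (c (l 16) (l 16)) (c (l 16) (l 16))) (a (c (l 16) (l 16)) (c (l 16) (l 16)))) (b (a (c (l 16) (l 16)) (c (l 16) (l 16))) (a (c (l 16) (l 16)) (c (l 16) (l 16))))) (c (b (a (c (l 16) (l 16)) (c (l 16) (l 16))) (a (c (l 16) (l 16)) (c (l 16) (l 16)))) (b (a (c (l 16) (l 16)) (l 16)) (a (c (l 16) (l 16)) (c (l 16) (l 16)))))) (a (c (b (a (c (l 16) (l 16)) (l 16)) (a (c (l 16) (l 16)) (c (l 16) (l 16)))) (b (a (l 16) (l 16)) (a (c (l 16) (l 16)) (l 16)))) (c (b (a (l 16) (l 16)) (a (c (l 16) (l 16)) (l 16))) (b (l 16) (a (l 16) (l 16)))))), by decide +kernel⟩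

def h29_0Am : ∃ t, chk3 f0Am t 10 2 2 = true :=
  ⟨(c (b (a (c (b (a (c (l 16) (l 16)) (c (l 16) (l 16))) (a (c (a (l 16) (l 16)) (l 16)) (c (l 16) (l 16)))) (b (a (l 16) (l 16)) (a (c (l 16) (l 16)) (l 16)))) (c (a (c (l 16) (l 16)) (c (l 16) (l 16))) (a (l 16) (l 16)))) (a (c (b (a (c (a (c (l 16) (l 16)) (l 16)) (a (l 16) (l 16))) (c (a (l 16) (l 16)) (l 16))) (a (c (a (c (l 16) (l 16)) (c (l 16) (l 16))) (a (c (l 16) (l 16)) (l 16))) (c (a (l 16) (l 16)) (a (l 16) (l 16))))) (a (c (b (l 16) (a (l 16) (l 16))) (b (l 16) (l 16))) (c (b (l 16) (l 16)) (b (l 16) (l 16))))) (c (a (c (b (l 16) (a (l 16) (l 16))) (b (l 16) (l 16))) (c (b (l 16) (l 16)) (l 16))) (a (c (l 16) (l 16)) (c (l 16) (l 16)))))) (b (a (c (a (c (l 16) (l 16)) (l 16)) (a (c (l 16) (l 16)) (l 16))) (c (a (l 16) (l 16)) (a (l 16) (l 16)))) (a (c (a (c (b (l 16) (l 16)) (l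 16)) (c (l 16) (l 16))) (a (c (l 16) (l 16)) (c (l 16) (l 16)))) (c (a (c (l 16) (l 16)) (l 16)) (a (c (l 16) (l 16)) (l 16)))))), by decide +kernel⟩

def h30_0Am : ∃ t, chk3 f0Am t 11 2 2 = true :=
  ⟨(c (b (a (c (a (l 16) (l 16)) (a (l 16) (l 16))) (c (a (l 16) (l 20)) (a (l 16) (l 20)))) (a (c (a (c (l 16) (l 16)) (l 16)) (a (l 16) (l 16))) (c (a (l 16) (c (l 20) (l 16))) (a (l 16) (l 20))))) (b (a (c (l 16) (l 16)) (a (l 16) (l 20))) (a (c (a (l 16) (l 16)) (a (l 16) (l 16))) (c (a (l 16) (l 20)) (a (l 16) (l 16)))))), by decide +kernel⟩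

def h31_0Am : ∃ t, chk3 f0Am t 10 6 4 = true :=
  ⟨(a (c (b (a (c (a (c (l 16) (l 16)) (l 16)) (a (c (l 16) (l 16)) (c (l 16) (l 16)))) (c (a (c (l 16) (l 16)) (l 16)) (a (c (l 16) (l 16)) (l 16)))) (a (c (a (c (l 16) (l 16)) (c (l 16) (l 16))) (a (c (l 16) (l 16)) (c (l 16) (l 16)))) (c (a (c (l 16) (l 16)) (l 16)) (a (c (l 16) (l 16)) (c (l 16) (l 16)))))) (a (c (b (a (c (l 16) (l 16)) (l 16)) (a (c (l 16) (l 16)) (c (l 16) (l 16)))) (b (a (l 16) (l 16)) (a (c (l 16) (l 16)) (l 16)))) (c (b (a (l 16) (l 16)) (a (l 16) (l 16))) (b (l 16) (a (l 16) (l 16)))))) (c (a (c (b (a (l 16) (l 16)) (a (l 16) (l 16))) (b (l 16) (a (l 16) (l 16)))) (c (b (l 16) (a (l 16) (l 16))) (b (l 16) (l 16)))) (a (c (b (l 16) (l 16)) (b (l 16) (l 16))) (c (b (l 16) (l 16)) (l 16))))), by decide +kernel⟩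

def h32_0Am : ∃ t, chk3 f0Am t 10 7 4 = true :=
  ⟨(a (c (b (a (c (a (c (l 16) (l 16)) (c (l 16) (l 16))) (a (c (l 16) (l 16)) (c (l 16) (l 16)))) (c (a (c (l 16) (l 16)) (c (l 16) (l 16))) (a (c (l 16) (l 16)) (c (l 16) (l 16))))) (a (c (a (c (b (l 16) (l 16)) (b (l 16) (l 16))) (c (b (l 16) (l 16)) (l 16))) (a (c (l 16) (l 16)) (c (l 16) (l 16)))) (c (a (c (l 16) (l 16)) (c (l 16) (l 16))) (a (c (l 16) (l 16)) (c (l 16) (l 16)))))) (a (c (b (a (c (l 16) (l 16)) (c (l 16) (l 16))) (a (c (l 16) (l 16)) (c (l 16) (l 16)))) (b (a (c (l 16) (l 16)) (c (l 16) (l 16))) (a (c (l 16) (l 16)) (c (l 16) (l 16))))) (c (b (a (c (l 16) (l 16)) (c (l 16) (l 16))) (a (c (l 16) (l 16)) (c (l 16) (l 16)))) (b (a (l 16) (l 16)) (a (c (l 16) (l 16)) (c (l 16) (l 16))))))) (c (a (c (b (a (l 16) (l 16)) (a (c (l 16) (l 16)) (l 16))) (b (a (c (l 16) (l 16)) (l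 16)) (a (c (l 16) (l 16)) (c (l 16) (l 16))))) (c (b (a (l 16) (l 16)) (a (l 16) (l 16))) (b (a (l 16) (l 16)) (a (l 16) (l 16))))) (a (c (b (a (l 16) (l 16)) (a (c (l 16) (l 16)) (l 16))) (b (l 16) (a (l 16) (l 16)))) (c (b (l 16) (a (l 16) (l 16))) (b (l 16) (l 16)))))), by decide +kernel⟩

def h33_0Am : ∃ t, chk3 f0Am t 11 3 4 = true :=
  ⟨(b (a (c (a (c (b (l 16) (l 16)) (b (l 16) (l 16))) (c (l 16) (l 16))) (a (c (l 16) (l 16)) (c (l 16) (l 16)))) (c (a (c (l 16) (l 16)) (c (l 16) (l 16))) (a (c (l 16) (l 16)) (c (l 16) (l 16))))) (a (c (a (c (b (a (l 16) (l 16)) (a (l 16) (l 16))) (b (l 16) (a (l 16) (l 16)))) (c (b (l 16) (a (l 16) (l 16))) (b (l 16) (l 16)))) (a (c (b (l 16) (l 16)) (b (l 16) (l 16))) (c (b (l 16) (l 16)) (l 16)))) (c (a (c (b (l 16) (l 16)) (b (l 16) (l 16))) (c (b (l 16) (l 16)) (l 16))) (a (c (l 16) (l 16)) (c (l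 16) (l 16)))))), by decide +kernel⟩

def h34_0Am : ∃ t, chk3 f0Am t 5 3 5 = true :=
  ⟨(a (b (a (c (a (c (b (l 16) (a (l 16) (l 16))) (b (l 16) (l 16))) (c (b (l 16) (l 16)) (b (l 16) (l 16)))) (a (c (b (l 16) (l 16)) (b (l 16) (l 16))) (c (l 16) (l 16)))) (c (a (c (b (l 16) (l 16)) (l 16)) (c (l 16) (l 16))) (a (c (l 16) (l 16)) (c (l 16) (l 16))))) (a (c (a (c (b (a (c (l 16) (l 16)) (l 16)) (a (c (l 16) (l 16)) (c (l 16) (l 16)))) (b (a (l 16) (l 16)) (a (l 16) (l 16)))) (c (b (a (l 16) (l 16)) (a (l 16) (l 16))) (b (l 16) (a (l 16) (l 16))))) (a (c (b (l 16) (a (l 16) (l 16))) (b (l 16) (l 16))) (c (b (l 16) (l 16)) (b (l 16) (l 16))))) (c (a (c (b (l 16) (l 16)) (b (l 16) (l 16))) (c (b (l 16) (l 16)) (b (l 16) (l 16)))) (a (c (b (l 16) (l 16)) (b (l 16) (l 16))) (b (l 16) (l 16)))))) (b (a (c (a (c (l 16) (l 16)) (c (l 16) (l 16))) (a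 (c (l 16) (l 16)) (l 16))) (c (a (l 16) (l 16)) (a (l 16) (l 16)))) (a (c (a (c (b (l 16) (l 16)) (l 16)) (c (l 16) (l 16))) (a (c (l 16) (l 16)) (c (l 16) (l 16)))) (c (a (c (l 16) (l 16)) (c (l 16) (l 16))) (a (c (l 16) (l 16)) (l 16)))))), by decide +kernel⟩

def h35_0Am : ∃ t, chk3 f0Am t 8 2 6 = true :=
  ⟨(b (a (c (b (a (c (a (b (l 24) (l 24)) (b (l 16) (l 24))) (b (l 24) (a (l 16) (l 16)))) (c (a (c (l 16) (l 16)) (l 16)) (a (l 16) (l 16)))) (a (a (l 3) (b (c (l 24) (l 16)) (l 3))) (c (a (b (l 16) (l 24)) (c (l 16) (l 16))) (a (c (l 16) (l 16)) (l 16))))) (b (a (c (a (l 16) (l 16)) (a (l 16) (l 16))) (c (l 16) (l 16))) (a (a (l 3) (c (l 16) (l 16))) (c (a (l 16) (l 16)) (l 16))))) (c (b (a (c (a (l 16) (l 16)) (l 16)) (c (l 16) (l 16))) (a (c (a (l 16) (l 16)) (a (l 16) (l 16))) (c (l 16) (l 16)))) (b (a (c (l 16) (l 16)) (c (l 16) (l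 16))) (a (c (l 16) (l 16)) (c (l 16) (l 16)))))) (a (b (a (l 3) (c (c (a (b (l 24) (l 3)) (b (l 16) (l 24))) (a (c (l 16) (l 16)) (c (l 16) (l 16)))) (c (a (l 16) (l 16)) (a (l 16) (l 16))))) (l 3)) (c (b (a (c (a (c (l 16) (l 16)) (l 16)) (a (l 16) (l 16))) (c (a (l 16) (l 16)) (l 16))) (a (c (a (c (l 24) (l 16)) (c (l 16) (l 16))) (a (c (l 16) (l 16)) (l 16))) (c (a (l 16) (l 16)) (a (l 16) (l 16))))) (b (a (c (l 16) (l 16)) (c (l 16) (l 16))) (a (c (a (l 16) (l 16)) (l 16)) (c (l 16) (l 16))))))), by decide +kernel⟩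

def h36_0Am : ∃ t, chk3 f0Am t 8 2 7 = true :=
  ⟨(b (a (c (b (a (c (l 16) (l 16)) (c (l 16) (l 16))) (a (c (l 16) (l 16)) (c (l 16) (l 16)))) (b (a (c (l 16) (l 16)) (c (l 16) (l 16))) (a (c (l 16) (l 16)) (c (l 16) (l 16))))) (c (b (a (c (l 16) (l 16)) (l 16)) (a (c (l 16) (l 16)) (c (l 16) (l 16)))) (b (c (a (l 16) (l 16)) (l 16)) (a (c (l 16) (l 16)) (c (l 16) (l 16)))))) (a (b (a (l 3) (c (c (l 16) (l 16)) (c (l 16) (l 16)))) (l 3)) (c (b (a (c (l 16) (l 16)) (c (l 16) (l 16))) (a (c (l 16) (l 16)) (c (l 16) (l 16)))) (a (c (b (l 16) (l 16)) (b (l 16) (l 16))) (c (b (l 16) (l 16)) (b (l 16) (l 16))))))), by decide +kernel⟩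

def h37_0Am : ∃ t, chk3 f0Am t 9 2 3 = true :=
  ⟨(c (b (a (c (b (a (l 16) (l 16)) (a (c (l 16) (l 16)) (l 16))) (b (a (l 16) (l 16)) (a (l 16) (l 16)))) (c (a (c (l 16) (l 16)) (c (l 16) (l 16))) (a (c (l 16) (l 16)) (l 16)))) (a (c (b (a (c (l 16) (l 16)) (c (l 16) (l 16))) (a (c (l 16) (l 16)) (c (l 16) (l 16)))) (b (a (l 16) (l 16)) (a (c (l 16) (l 16)) (l 16)))) (c (a (c (l 16) (l 16)) (c (l 16) (l 16))) (a (c (l 16) (l 16)) (c (l 16) (l 16)))))) (b (a (c (b (a (l 16) (l 16)) (a (l 16) (l 16))) (a (c (l 16) (l 16)) (l 16))) (c (a (l 16) (l 16)) (a (l 16) (l 16)))) (a (c (a (c (l 16) (b (l 16) (l 16))) (c (l 16) (l 16))) (c (a (b (l 16) (l 16)) (l 16)) (a (l 16) (l 16)))) (c (c (a (l 16) (l 16)) (a (l 16) (l 16))) (a (c (l 16) (l 16)) (l 16)))))), by decide +kernel⟩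

def h38_0Am : ∃ t, chk3 f0Am t 8 3 6 = true :=
  ⟨(b (a (l 3) (c (b (a (a (l 3) (b (c (l 16) (l 16)) (l 3))) (c (a (c (l 16) (l 16)) (c (l 16) (l 16))) (a (l 16) (l 16)))) (a (l 3) (a (l 3) (c (c (l 16) (l 16)) (l 16))))) (a (b (a (l 3) (c (l 16) (l 16))) (l 3)) (c (b (a (l 16) (l 16)) (a (l 3) (l 16))) (b (l 16) (a (l 3) (l 16))))))) (l 3)), by decide +kernel⟩

def h39_0Am : ∃ t, chk3 f0Am t 9 3 6 = true :=
  ⟨(b (a (c (a (c (b (a (l 16) (l 16)) (a (c (l 16) (l 16)) (l 16))) (b (l 16) (a (l 16) (l 16)))) (c (b (l 16) (a (l 16) (l 16))) (b (l 16) (l 16)))) (a (c (b (l 16) (l 16)) (b (l 16) (l 16))) (c (b (l 16) (l 16)) (b (l 16) (l 16))))) (c (a (c (b (l 16) (l 16)) (b (l 16) (l 16))) (c (b (l 16) (l 16)) (l 16))) (a (b (l 16) (c (l 16) (l 16))) (c (l 16) (l 16))))) (a (c (a (b (c (a (c (l 16) (l 16)) (c (l 16) (l 16))) (a (l 24) (l 16))) (l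 3)) (c (b (a (l 16) (l 16)) (a (c (l 16) (l 16)) (l 24))) (b (a (l 16) (l 16)) (a (l 16) (l 16))))) (a (b (c (a (l 16) (l 16)) (l 16)) (l 3)) (c (b (l 16) (a (l 16) (l 16))) (b (l 16) (l 16))))) (c (a (c (b (a (l 16) (l 16)) (a (l 16) (l 16))) (b (l 16) (a (l 16) (l 16)))) (c (b (l 16) (l 16)) (b (l 16) (l 16)))) (a (c (b (l 16) (l 16)) (b (l 16) (l 16))) (c (b (l 16) (l 16)) (b (l 16) (l 16))))))), by decide +kernel⟩

def h40_0Am : ∃ t, chk3 f0Am t 4 3 7 = true :=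
  ⟨(a (b (a (l 3) (c (a (b (c (l 16) (l 16)) (l 3)) (c (b (l 16) (l 16)) (b (l 16) (l 16)))) (a (b (c (l 16) (l 16)) (l 3)) (c (b (l 16) (l 16)) (b (l 16) (l 16)))))) (l 3)) (b (a (c (a (c (b (l 16) (l 16)) (b (l 16) (l 16))) (c (b (l 16) (l 16)) (b (l 16) (l 16)))) (a (c (b (l 16) (l 16)) (b (l 16) (l 16))) (c (b (l 16) (l 16)) (l 16)))) (c (a (c (b (l 16) (l 16)) (b (l 16) (l 16))) (c (l 16) (l 16))) (a (c (l 16) (l 16)) (c (l 16) (l 16))))) (a (c (a (b (c (l 16) (l 16)) (l 3)) (c (b (l 16) (l 16)) (b (l 16) (l 16)))) (a (b (c (l 16) (l 16)) (l 3)) (c (b (l 16) (l 16)) (b (l 16) (l 16))))) (c (a (c (b (l 16) (l 16)) (b (l 16) (l 16))) (c (b (l 16) (l 16)) (b (l 16) (l 16)))) (a (c (b (l 16) (l 16)) (b (l 16) (l 16))) (c (b (l 16) (l 16)) (l 16))))))), by decide +kernel⟩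

def h41_0Am : ∃ t, chk3 f0Am t 5 2 3 = true :=
  ⟨(a (c (b (a (c (a (l 16) (l 16)) (a (l 16) (l 16))) (c (l 16) (l 16))) (a (c (a (c (l 16) (l 16)) (c (l 16) (l 16))) (c (a (l 16) (l 16)) (l 16))) (c (a (l 16) (l 16)) (a (l 16) (l 16))))) (b (a (c (l 16) (l 16)) (c (l 16) (l 16))) (a (c (a (l 16) (l 16)) (a (l 16) (l 16))) (c (l 16) (l 16))))) (c (b (a (c (l 16) (l 16)) (a (l 16) (l 20))) (a (c (l 16) (l 16)) (a (l 16) (l 20)))) (b (a (l 16) (c (l 20) (a (l 16) (l 20)))) (a (c (l 16) (l 16)) (a (l 16) (l 20)))))), by decide +kernel⟩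

def h42_0Am : ∃ t, chk3 f0Am t 5 3 3 = true :=
  ⟨(a (c (b (a (c (a (c (l 16) (l 16)) (c (l 16) (l 16))) (a (c (l 16) (l 16)) (c (l 16) (l 16)))) (c (a (c (l 16) (l 16)) (c (l 16) (l 16))) (c (a (l 16) (l 16)) (l 16)))) (a (c (a (c (b (l 16) (l 16)) (b (l 16) (l 16))) (b (l 16) (c (l 16) (l 16)))) (a (c (b (l 16) (l 16)) (b (l 16) (l 16))) (b (l 16) (c (l 16) (l 16))))) (c (a (c (l 16) (l 16)) (c (l 16) (l 16))) (a (c (l 16) (l 16)) (c (l 16) (l 16)))))) (b (a (c (a (c (l 16) (l 16)) (l 16)) (a (l 16) (l 16))) (c (a (l 16) (l 16)) (l 16))) (a (c (a (c (b (l 16) (l 16)) (l 16)) (c (l 16) (l 16))) (a (c (l 16) (l 16)) (l 16))) (c (c (a (l 16) (l 16)) (l 16)) (a (l 16) (l 16)))))) (c (b (a (c (a (l 16) (l 16)) (a (l 16) (l 16))) (c (a (l 16) (l 16)) (a (l 16) (l 16)))) (a (c (a (c (l 16) (l 16)) (c (l 16) (l 16))) (a (l 16) (l 16))) (c (a (l 16)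 (l 16)) (a (l 16) (l 16))))) (b (a (c (l 16) (l 16)) (c (l 16) (l 16))) (a (c (l 16) (l 16)) (c (l 16) (l 16)))))), by decide +kernel⟩

def h43_0Am : ∃ t, chk3 f0Am t 6 1 2 = true :=
  ⟨(b (a (c (a (b (c (a (l 20) (l 14)) (a (l 20) (l 14))) (c (a (c (l 20) (l 20)) (c (l 14) (l 14))) (a (l 20) (l 14)))) (c (b (l 14) (a (l 14) (l 14))) (b (l 14) (l 14)))) (a (c (b (a (l 20) (l 14)) (a (l 20) (l 14))) (a (l 20) (b (l 14) (l 14)))) (b (l 14) (c (l 14) (l 14))))) (c (a (c (l 14) (l 14)) (l 14)) (a (l 14) (l 14)))) (a (c (a (b (c (a (c (l 20) (l 20)) (c (l 14) (l 14))) (a (c (l 20) (l 20)) (c (l 14) (l 14)))) (c (a (c (b (l 20) (l 22)) (b (l 20) (l 20))) (c (b (l 14) (l 14)) (b (l 14) (l 14)))) (a (c (b (l 20) (l 20)) (b (l 20) (l 20))) (b (l 14) (c (l 14) (l 14)))))) (c (b (a (l 14) (l 14)) (a (c (l 14) (l 14)) (l 14))) (b (a (l 14) (l 14)) (a (c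 (l 14) (l 14)) (l 14))))) (a (b (c (a (c (l 20) (l 20)) (l 14)) (a (l 20) (l 14))) (c (a (c (b (l 20) (l 20)) (l 20)) (c (l 14) (l 14))) (a (c (l 20) (l 20)) (c (l 14) (l 14))))) (c (b (a (l 14) (l 14)) (a (l 14) (l 14))) (a (b (l 14) (l 14)) (l 14))))) (c (a (c (b (l 14) (a (l 14) (l 14))) (b (l 14) (l 14))) (c (l 14) (l 14))) (a (b (l 14) (c (l 14) (l 14))) (c (l 14) (l 14)))))), by decide +kernel⟩

def h44_0Am : ∃ t, chk3 f0Am t 7 1 2 = true :=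
  ⟨(a (c (b (l 14) (a (l 14) (l 14))) (b (l 14) (a (l 14) (l 14)))) (b (l 14) (c (l 14) (l 14)))), by decide +kernel⟩

def h45_0Am : ∃ t, chk3 f0Am t 3 1 3 = true :=
  ⟨(a (a (b (c (a (c (a (l 20) (b (l 14) (l 14))) (a (l 20) (b (l 12) (l 12)))) (b (l 14) (c (l 14) (l 14)))) (a (b (c (a (l 20) (c (l 14) (l 14))) (a (c (l 20) (l 20)) (c (l 14) (l 14)))) (c (a (l 20) (l 12)) (a (l 20) (c (l 14) (l 14))))) (b (l 14) (c (l 14) (l 14))))) (c (a (b (c (a (l 20) (l 14)) (a (l 20) (l 14))) (c (a (l 20) (l 14)) (a (l 20) (l 14)))) (c (b (l 14) (a (l 14) (l 14))) (b (l 14) (a (l 14) (l 14))))) (a (b (a (l 20) (c (l 12) (l 14))) (c (a (l 20) (l 14)) (a (l 20) (l 12)))) (c (b (l 14) (l 14)) (a (b (l 14) (l 14)) (l 14)))))) (c (b (a (l 14) (l 14)) (a (c (l 14) (l 14)) (l 14))) (b (a (l 14) (l 14)) (a (b (l 14) (l 14)) (l 14))))) (a (b (l 14) (c (a (l 14)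 (l 14)) (l 14))) (c (l 14) (l 14)))), by decide +kernel⟩

theorem h46_0Am : ∃ t, chk3 f0Am t 3 1 2 = true := ex3_a h43_0Am h44_0Am

theorem h47_0Am : ∃ t, chk3 f0Am t 3 1 1 = true := ex3_c h46_0Am h45_0Am

theorem h48_0Am : ∃ t, chk3 f0Am t 5 1 3 = true := ex3_b h41_0Am h42_0Am

theorem h49_0Am : ∃ t, chk3 f0Am t 4 3 6 = true := ex3_a h38_0Am h39_0Am

theorem h50_0Am : ∃ t, chk3 f0Am t 4 3 3 = true := ex3_c h49_0Am h40_0Am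

theorem h51_0Am : ∃ t, chk3 f0Am t 8 2 3 = true := ex3_c h35_0Am h36_0Am

theorem h52_0Am : ∃ t, chk3 f0Am t 4 2 3 = true := ex3_a h51_0Am h37_0Am

theorem h53_0Am : ∃ t, chk3 f0Am t 4 1 3 = true := ex3_b h52_0Am h50_0Am

theorem h54_0Am : ∃ t, chk3 f0Am t 2 1 3 = true := ex3_a h53_0Am h48_0Am

theorem h55_0Am : ∃ t, chk3 f0Am t 10 3 4 = true := ex3_b h31_0Am h32_0Am

theorem h56_0Am : ∃ t, chk3 f0Am t 5 3 4 = true := ex3_a h55_0Am h33_0Am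

theorem h57_0Am : ∃ t, chk3 f0Am t 5 3 2 = true := ex3_c h56_0Am h34_0Am

theorem h58_0Am : ∃ t, chk3 f0Am t 5 2 2 = true := ex3_a h29_0Am h30_0Am

theorem h59_0Am : ∃ t, chk3 f0Am t 5 1 2 = true := ex3_b h58_0Am h57_0Am

theorem h60_0Am : ∃ t, chk3 f0Am t 9 7 5 = true := ex3_a h27_0Am h28_0Am

theorem h61_0Am : ∃ t, chk3 f0Am t 9 3 5 = true := ex3_b h26_0Am h60_0Am

theorem h62_0Am : ∃ t, chk3 f0Am t 4 3 5 = true := ex3_a h25_0Am h61_0Am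

theorem h63_0Am : ∃ t, chk3 f0Am t 9 7 8 = true := ex3_a h22_0Am h23_0Am

theorem h64_0Am : ∃ t, chk3 f0Am t 9 7 4 = true := ex3_c h63_0Am h24_0Am

theorem h65_0Am : ∃ t, chk3 f0Am t 18 6 4 = true := ex3_c h19_0Am h20_0Am

theorem h66_0Am : ∃ t, chk3 f0Am t 9 6 4 = true := ex3_a h65_0Am h21_0Am

theorem h67_0Am : ∃ t, chk3 f0Am t 9 3 4 = true := ex3_b h66_0Am h64_0Am

theorem h68_0Am : ∃ t, chk3 f0Am t 4 3 4 = true := ex3_a h18_0Am h67_0Am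

theorem h69_0Am : ∃ t, chk3 f0Am t 4 3 2 = true := ex3_c h68_0Am h62_0Am

theorem h70_0Am : ∃ t, chk3 f0Am t 9 2 5 = true := ex3_b h16_0Am h17_0Am

theorem h71_0Am : ∃ t, chk3 f0Am t 9 5 4 = true := ex3_a h14_0Am h15_0Am

theorem h72_0Am : ∃ t, chk3 f0Am t 9 4 4 = true := ex3_a h12_0Am h13_0Am

theorem h73_0Am : ∃ t, chk3 f0Am t 9 2 4 = true := ex3_b h72_0Am h71_0Am

theorem h74_0Am : ∃ t, chk3 f0Am t 9 2 2 = true := ex3_c h73_0Am h70_0Am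

theorem h75_0Am : ∃ t, chk3 f0Am t 17 5 5 = true := ex3_c h10_0Am h11_0Am

theorem h76_0Am : ∃ t, chk3 f0Am t 8 5 5 = true := ex3_a h9_0Am h75_0Am

theorem h77_0Am : ∃ t, chk3 f0Am t 8 4 5 = true := ex3_a h7_0Am h8_0Am

theorem h78_0Am : ∃ t, chk3 f0Am t 8 2 5 = true := ex3_b h77_0Am h76_0Am

theorem h79_0Am : ∃ t, chk3 f0Am t 17 5 4 = true := ex3_c h5_0Am h6_0Am

theorem h80_0Am : ∃ t, chk3 f0Am t 8 5 4 = true := ex3_a h4_0Am h79_0Am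

theorem h81_0Am : ∃ t, chk3 f0Am t 17 4 4 = true := ex3_c h2_0Am h3_0Am

theorem h82_0Am : ∃ t, chk3 f0Am t 16 4 4 = true := ex3_c h0_0Am h1_0Am

theorem h83_0Am : ∃ t, chk3 f0Am t 8 4 4 = true := ex3_a h82_0Am h81_0Am

theorem h84_0Am : ∃ t, chk3 f0Am t 8 2 4 = true := ex3_b h83_0Am h80_0Am

theorem h85_0Am : ∃ t, chk3 f0Am t 8 2 2 = true := ex3_c h84_0Am h78_0Am

theorem h86_0Am : ∃ t, chk3 f0Am t 4 2 2 = true := ex3_a h85_0Am h74_0Am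

theorem h87_0Am : ∃ t, chk3 f0Am t 4 1 2 = true := ex3_b h86_0Am h69_0Am

theorem h88_0Am : ∃ t, chk3 f0Am t 2 1 2 = true := ex3_a h87_0Am h59_0Am

theorem h89_0Am : ∃ t, chk3 f0Am t 2 1 1 = true := ex3_c h88_0Am h54_0Am

theorem h90_0Am : ∃ t, chk3 f0Am t 1 1 1 = true := ex3_a h89_0Am h47_0Am

theorem ct_0Am : ∃ t, chk3 f0Am t 1 1 1 = true := h90_0Am

noncomputable def f0Bp : ℕ → ℕ → ℕ → ℕ → Bool :=
  onCell 0 33554432 0 6291456 33554432 16777216 (c0_Bp.row false 16777216)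

def h0_0Bp : ∃ t, chk3 f0Bp t 1 1 1 = true :=
  ⟨(a (c (a (b (a (c (b (a (l 16) (l 16)) (a (l 16) (l 16))) (a (l 16) (l 16))) (c (a (l 16) (l 16)) (l 16))) (a (b (c (a (l 3) (l 16)) (l 16)) (l 3)) (c (b (l 16) (l 16)) (l 16)))) (b (a (c (l 16) (l 16)) (a (l 16) (c (l 20) (l 20)))) (a (c (l 16) (l 16)) (a (l 16) (c (l 20) (l 20)))))) (a (b (a (c (l 16) (l 16)) (l 16)) (a (c (l 16) (l 16)) (l 16))) (b (a (l 16) (c (l 20) (l 20))) (a (l 16) (c (l 20) (l 20)))))) (a (c (b (a (c (a (l 20) (l 12)) (l 20)) (c (l 12) (l 12))) (a (a (l 20) (l 12)) (c (l 12) (l 12)))) (a (a (l 20) (l 12)) (c (l 12) (l 12)))) (c (a (l 12) (l 12)) (a (l 12) (l 12))))), by decide +kernel⟩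

theorem ct_0Bp : ∃ t, chk3 f0Bp t 1 1 1 = true := h0_0Bp

noncomputable def f0Bpk1 : ℕ → ℕ → ℕ → ℕ → Bool :=
  onCell 0 50331648 0 16777216 33554432 16777216 (c0_Bpk1.row false 25165824)

def h0_0Bpk1 : ∃ t, chk3 f0Bpk1 t 4 2 1 = true :=
  ⟨(c (a (b (b (c (a (b (c (a (l 16) (l 16)) (l 16)) (c (a (l 16) (l 16)) (l 16))) (c (l 16) (l 16))) (a (c (l 16) (l 16)) (l 16))) (c (a (a (l 3) (c (b (l 16) (l 16)) (l 16))) (c (a (l 16) (l 16)) (l 16))) (a (a (l 3) (l 16)) (l 16)))) (a (l 3) (c (b (c (a (b (l 16) (l 3)) (l 80)) (a (l 16) (l 16))) (a (l 3) (b (c (l 80) (l 16)) (l 3)))) (b (c (l 16) (l 16)) (a (l 3) (l 80)))))) (b (b (c (a (l 16) (l 16)) (l 16)) (c (a (c (l 16) (l 16)) (l 16)) (l 16))) (c (b (a (c (l 80) (l 16)) (l 16)) (a (c (a (l 80) (l 80)) (l 80)) (c (l 16) (l 16)))) (a (b (l 16) (l 80)) (l 16))))) (b (a (b (c (l 16) (l 16)) (c (a (l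 16) (l 16)) (l 16))) (c (l 16) (l 16))) (a (a (l 3) (c (b (l 16) (l 16)) (l 16))) (c (a (l 16) (l 16)) (l 16))))), by decide +kernel⟩

def h1_0Bpk1 : ∃ t, chk3 f0Bpk1 t 4 3 1 = true :=
  ⟨(a (l 3) (c (b (c (a (b (a (l 3) (c (b (l 80) (l 80)) (l 80))) (l 3)) (b (c (a (l 80) (l 80)) (l 80)) (c (a (b (l 80) (l 3)) (l 80)) (a (l 80) (l 80))))) (a (b (c (l 80) (l 80)) (l 3)) (b (l 80) (c (l 80) (l 80))))) (a (l 3) (b (a (l 3) (c (b (c (l 80) (l 80)) (l 3)) (l 80))) (l 3)))) (b (c (a (b (l 16) (l 3)) (l 80)) (a (l 80) (l 16))) (a (l 3) (b (c (l 80) (l 16)) (l 3)))))), by decide +kernel⟩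

def h2_0Bpk1 : ∃ t, chk3 f0Bpk1 t 5 1 1 = true :=
  ⟨(b (c (b (a (c (l 16) (l 16)) (a (l 16) (c (l 20) (l 20)))) (a (c (a (b (l 16) (l 16)) (l 16)) (l 16)) (a (l 16) (c (l 20) (l 20))))) (a (b (l 16) (l 16)) (a (l 16) (b (l 20) (l 20))))) (c (a (b (c (a (b (l 80) (c (l 80) (l 80))) (b (l 16) (l 80))) (a (b (l 16) (l 80)) (l 80))) (c (a (b (c (a (l 80) (l 80)) (l 80)) (a (l 3) (c (l 80) (l 80)))) (b (c (l 80) (l 80)) (c (l 80) (l 80)))) (a (b (l 80) (c (l 80) (l 80))) (b (l 80) (l 80))))) (b (c (a (b (l 16) (l 16)) (b (l 20) (l 20))) (a (l 16) (l 20))) (c (a (b (l 80) (l 80)) (a (l 80) (l 84))) (a (l 80) (l 84))))) (b (a (c (a (l 16) (l 16)) (l 16)) (a (l 16) (l 20))) (a (c (a (b (l 80) (l 80)) (l 80)) (a (l 80) (l 16))) (c (a (l 80) (l 20)) (a (l 16) (l 20))))))), by decide +kernel⟩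

def h3_0Bpk1 : ∃ t, chk3 f0Bpk1 t 3 1 1 = true :=
  ⟨(b (a (a (c (b (a (c (l 20) (l 20)) (l 12)) (a (c (l 20) (l 20)) (l 12))) (a (b (l 20) (l 20)) (l 12))) (c (a (l 12) (l 12)) (b (l 12) (l 12)))) (a (c (l 12) (l 12)) (c (l 12) (l 12)))) (a (a (c (b (c (a (l 20) (l 12)) (a (l 20) (l 12))) (a (c (b (l 20) (l 84)) (l 20)) (c (l 12) (l 12)))) (b (a (l 20) (l 12)) (a (l 20) (l 12)))) (c (a (b (l 12) (l 44)) (l 44)) (b (l 12) (l 12)))) (a (c (l 44) (l 12)) (c (l 12) (l 12))))), by decide +kernel⟩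

theorem h4_0Bpk1 : ∃ t, chk3 f0Bpk1 t 4 1 1 = true := ex3_b h0_0Bpk1 h1_0Bpk1

theorem h5_0Bpk1 : ∃ t, chk3 f0Bpk1 t 2 1 1 = true := ex3_a h4_0Bpk1 h2_0Bpk1

theorem h6_0Bpk1 : ∃ t, chk3 f0Bpk1 t 1 1 1 = true := ex3_a h5_0Bpk1 h3_0Bpk1

theorem ct_0Bpk1 : ∃ t, chk3 f0Bpk1 t 1 1 1 = true := h6_0Bpk1

noncomputable def f0Bpk2 : ℕ → ℕ → ℕ → ℕ → Bool :=
  onCell 0 50331648 0 16777216 33554432 16777216 (c0_Bpk2.row false 25165824)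

def h0_0Bpk2 : ∃ t, chk3 f0Bpk2 t 1 1 1 = true :=
  ⟨(a (a (b (c (b (a (c (b (l 16) (a (l 80) (l 80))) (a (l 16) (l 16))) (c (l 16) (l 16))) (a (a (l 3) (c (b (l 80) (l 80)) (l 80))) (c (a (l 80) (l 80)) (l 80)))) (b (a (l 16) (l 16)) (a (c (l 80) (l 80)) (l 80)))) (a (l 3) (c (b (c (a (b (l 80) (l 3)) (l 80)) (a (l 80) (l 80))) (a (l 3) (b (c (l 64) (l 64)) (l 3)))) (b (l 80) (c (l 80) (l 80)))))) (b (b (c (a (l 16) (a (l 16) (c (l 20) (l 20)))) (a (l 16) (a (l 16) (l 20)))) (c (a (c (l 80) (l 80)) (a (l 80) (c (l 20) (l 20)))) (a (l 80) (a (l 16) (l 20))))) (c (b (a (c (l 80) (l 80)) (a (l 80) (c (l 84) (l 84)))) (a (c (a (b (l 64) (l 64)) (l 64)) (l 80)) (a (l 80) (a (l 80) (l 84))))) (b (a (l 80) (a (l 80) (l 84))) (a (l 80) (a (l 80) (l 84))))))) (b (a (b (c (a (a (l 20) (l 12)) (l 12)) (a (c (l 20) (l 20)) (l 12))) (c (a (a (c (l 20)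 (l 20)) (l 12)) (c (l 12) (l 12))) (a (a (l 20) (l 12)) (l 12)))) (a (b (l 14) (l 14)) (c (l 12) (l 12)))) (a (a (b (c (a (c (l 84) (l 84)) (l 44)) (c (l 20) (l 20))) (c (a (c (l 84) (l 84)) (l 44)) (a (l 84) (l 44)))) (c (a (l 44) (l 44)) (b (l 12) (l 44)))) (a (c (l 44) (l 44)) (l 44))))), by decide +kernel⟩

theorem ct_0Bpk2 : ∃ t, chk3 f0Bpk2 t 1 1 1 = true := h0_0Bpk2

noncomputable def f0Bm : ℕ → ℕ → ℕ → ℕ → Bool :=
  onCell 0 33554432 0 6291456 33554432 16777216 (c0_Bm.row true 16777216)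

def h0_0Bm : ∃ t, chk3 f0Bm t 16 8 4 = true :=
  ⟨(c (b (a (c (a (c (a (c (l 16) (l 16)) (l 16)) (a (l 16) (l 16))) (c (a (l 16) (l 16)) (a (l 16) (l 16)))) (a (c (a (l 16) (l 16)) (a (l 16) (l 16))) (c (a (l 16) (l 16)) (l 16)))) (c (a (c (a (l 16) (l 16)) (a (l 16) (l 16))) (c (a (l 16) (l 16)) (l 16))) (a (c (l 16) (l 16)) (c (l 16) (l 16))))) (a (c (a (c (a (l 16) (l 16)) (a (l 16) (l 16))) (c (a (l 16) (l 16)) (a (l 16) (l 16)))) (a (c (a (l 16) (l 16)) (l 16)) (c (l 16) (l 16)))) (c (a (c (a (l 16) (l 16)) (l 16)) (c (a (l 16) (l 16)) (l 16))) (a (c (l 16) (l 16)) (c (l 16) (l 16)))))) (a (c (b (a (c (l 16) (l 16)) (c (l 16) (l 16))) (a (c (l 16) (l 16)) (c (l 16) (l 16)))) (b (a (c (l 16) (l 16)) (c (l 16) (l 16))) (a (c (l 16) (l 16)) (c (l 16) (l 16))))) (c (b (a (c (l 16) (l 16)) (c (l 16) (l 16))) (a (c (l 16) (l 16)) (c (l 16) (l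 16)))) (b (a (c (l 16) (l 16)) (c (l 16) (l 16))) (a (c (l 16) (l 16)) (l 16)))))), by decide +kernel⟩

def h1_0Bm : ∃ t, chk3 f0Bm t 17 8 4 = true :=
  ⟨(c (a (c (b (a (c (l 16) (l 16)) (c (l 16) (l 16))) (a (c (l 16) (l 16)) (c (l 16) (l 16)))) (b (a (c (l 16) (l 16)) (c (l 16) (l 16))) (a (c (l 16) (l 16)) (c (l 16) (l 16))))) (c (b (a (c (l 16) (l 16)) (c (l 16) (l 16))) (a (c (l 16) (l 16)) (c (l 16) (l 16)))) (b (a (c (l 16) (l 16)) (c (l 16) (l 16))) (a (c (l 16) (l 16)) (c (l 16) (l 16)))))) (a (c (b (a (c (l 16) (l 16)) (c (l 16) (l 16))) (a (c (l 16) (l 16)) (l 16))) (b (a (l 16) (l 16)) (a (l 16) (l 16)))) (c (b (a (l 16) (l 16)) (a (l 16) (l 16))) (b (a (l 16) (l 16)) (a (l 16) (l 16)))))), by decide +kernel⟩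

def h2_0Bm : ∃ t, chk3 f0Bm t 16 9 4 = true :=
  ⟨(c (a (c (b (a (c (a (l 16) (l 16)) (a (l 16) (l 16))) (c (a (l 16) (l 16)) (a (l 16) (l 16)))) (a (c (a (l 16) (l 16)) (a (l 16) (l 16))) (c (a (l 16) (l 16)) (l 16)))) (b (a (c (a (l 16) (l 16)) (l 16)) (c (l 16) (l 16))) (a (c (l 16) (l 16)) (c (l 16) (l 16))))) (c (b (a (c (a (l 16) (l 16)) (l 16)) (c (l 16) (l 16))) (a (c (l 16) (l 16)) (c (l 16) (l 16)))) (b (a (c (l 16) (l 16)) (c (l 16) (l 16))) (a (c (l 16) (l 16)) (c (l 16) (l 16)))))) (a (c (b (a (c (l 16) (l 16)) (c (l 16) (l 16))) (a (c (l 16) (l 16)) (c (l 16) (l 16)))) (b (a (c (l 16) (l 16)) (c (l 16) (l 16))) (a (c (l 16) (l 16)) (c (l 16) (l 16))))) (c (b (a (c (l 16) (l 16)) (c (l 16) (l 16))) (a (c (l 16) (l 16)) (c (l 16) (l 16)))) (b (a (c (l 16) (l 16)) (l 16)) (a (l 16) (l 16)))))), by decide +kernel⟩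

def h3_0Bm : ∃ t, chk3 f0Bm t 17 9 4 = true :=
  ⟨(c (a (c (b (a (c (l 16) (l 16)) (c (l 16) (l 16))) (a (c (l 16) (l 16)) (c (l 16) (l 16)))) (b (a (c (l 16) (l 16)) (c (l 16) (l 16))) (a (c (l 16) (l 16)) (c (l 16) (l 16))))) (c (b (a (c (l 16) (l 16)) (c (l 16) (l 16))) (a (c (l 16) (l 16)) (c (l 16) (l 16)))) (b (a (c (l 16) (l 16)) (l 16)) (a (l 16) (l 16))))) (a (c (b (a (c (l 16) (l 16)) (l 16)) (a (l 16) (l 16))) (b (a (l 16) (l 16)) (a (l 16) (l 16)))) (c (b (a (l 16) (l 16)) (a (l 16) (l 16))) (b (a (l 16) (l 16)) (a (l 16) (l 16)))))), by decide +kernel⟩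

def h4_0Bm : ∃ t, chk3 f0Bm t 8 4 5 = true :=
  ⟨(b (a (c (a (c (b (a (c (l 16) (l 16)) (c (l 16) (l 16))) (a (c (l 16) (l 16)) (l 16))) (b (a (l 16) (l 16)) (a (l 16) (l 16)))) (c (b (a (l 16) (l 16)) (a (l 16) (l 16))) (b (a (l 16) (l 16)) (a (l 16) (l 16))))) (a (c (b (a (l 16) (l 16)) (a (l 16) (l 16))) (a (c (l 16) (l 16)) (l 16))) (c (a (c (l 16) (l 16)) (l 16)) (a (l 16) (l 16))))) (c (a (c (b (a (l 16) (l 16)) (a (l 16) (l 16))) (a (c (l 16) (l 16)) (l 16))) (c (a (c (l 16) (l 16)) (l 16)) (a (l 16) (l 16)))) (a (c (a (l 16) (l 16)) (a (l 16) (l 16))) (c (a (l 16) (l 16)) (a (l 16) (l 16)))))) (a (c (a (c (b (a (l 16) (l 16)) (a (l 16) (l 16))) (b (a (l 16) (l 16)) (a (l 16) (l 16)))) (c (b (a (l 16) (l 16)) (a (l 16) (l 16))) (b (a (l 16) (l 16)) (a (l 16) (l 16))))) (a (c (b (a (l 16) (l 16)) (a (l 16) (l 16))) (a (l 16) (l 16)))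 (c (a (l 16) (l 16)) (a (l 16) (l 16))))) (c (a (c (b (a (l 16) (l 16)) (a (l 16) (l 16))) (a (l 16) (l 16))) (c (a (l 16) (l 16)) (a (l 16) (l 16)))) (a (c (a (l 16) (l 16)) (a (l 16) (l 16))) (c (a (l 16) (l 16)) (l 16)))))), by decide +kernel⟩

def h5_0Bm : ∃ t, chk3 f0Bm t 9 8 4 = true :=
  ⟨(a (c (a (c (b (a (c (l 16) (l 16)) (c (l 16) (l 16))) (a (c (l 16) (l 16)) (c (l 16) (l 16)))) (b (a (l 16) (l 16)) (a (l 16) (l 16)))) (c (b (a (c (l 16) (l 16)) (l 16)) (a (l 16) (l 16))) (b (a (l 16) (l 16)) (a (l 16) (l 16))))) (a (c (b (a (l 16) (l 16)) (a (l 16) (l 16))) (b (a (l 16) (l 16)) (a (l 16) (l 16)))) (c (b (a (l 16) (l 16)) (a (l 16) (l 16))) (a (l 16) (l 16))))) (c (a (c (b (a (l 16) (l 16)) (a (l 16) (l 16))) (b (a (l 16) (l 16)) (a (l 16) (l 16)))) (c (b (a (l 16) (l 16)) (a (l 16) (l 16))) (a (l 16) (l 16)))) (a (c (a (l 16) (l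 16)) (a (l 16) (l 16))) (c (a (l 16) (l 16)) (a (l 16) (l 16)))))), by decide +kernel⟩

def h6_0Bm : ∃ t, chk3 f0Bm t 9 9 4 = true :=
  ⟨(a (c (a (c (b (a (c (l 16) (l 16)) (l 16)) (a (c (l 16) (l 16)) (l 16))) (b (a (l 16) (l 16)) (a (l 16) (l 16)))) (c (b (a (l 16) (l 16)) (a (l 16) (l 16))) (b (a (l 16) (l 16)) (a (l 16) (l 16))))) (a (c (b (a (l 16) (l 16)) (a (l 16) (l 16))) (a (l 16) (l 16))) (c (b (a (l 16) (l 16)) (l 16)) (a (l 16) (l 16))))) (c (a (c (b (a (l 16) (l 16)) (a (l 16) (l 16))) (a (c (l 16) (l 16)) (l 16))) (c (a (c (l 16) (l 16)) (l 16)) (a (l 16) (l 16)))) (a (c (a (l 16) (l 16)) (a (l 16) (l 16))) (c (a (l 16) (l 16)) (a (l 16) (l 16)))))), by decide +kernel⟩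

def h7_0Bm : ∃ t, chk3 f0Bm t 9 4 5 = true :=
  ⟨(b (a (c (a (c (a (l 16) (l 16)) (a (l 16) (l 16))) (c (a (l 16) (l 16)) (a (l 16) (l 16)))) (a (c (a (l 16) (l 16)) (l 16)) (c (l 16) (l 16)))) (c (a (c (a (l 16) (l 16)) (l 16)) (c (l 16) (l 16))) (a (c (l 16) (l 16)) (c (l 16) (l 16))))) (a (c (a (c (a (l 16) (l 16)) (a (l 16) (l 16))) (c (a (l 16) (l 16)) (l 16))) (a (c (l 16) (l 16)) (c (l 16) (l 16)))) (c (a (c (a (l 16) (l 16)) (l 16)) (c (l 16) (l 16))) (a (c (l 16) (l 16)) (c (l 16) (l 16)))))), by decide +kernel⟩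

def h8_0Bm : ∃ t, chk3 f0Bm t 16 5 8 = true :=
  ⟨(b (c (a (b (a (c (a (l 80) (l 16)) (l 80)) (c (a (l 16) (l 16)) (l 80))) (c (a (a (l 80) (l 80)) (l 80)) (a (l 80) (l 80)))) (b (a (c (l 80) (l 16)) (c (l 16) (l 16))) (c (a (l 80) (l 80)) (a (l 80) (l 80))))) (a (b (a (c (l 80) (l 16)) (c (l 16) (l 16))) (c (a (l 80) (l 80)) (a (l 80) (l 80)))) (b (a (c (l 16) (l 16)) (c (l 16) (l 16))) (c (a (l 80) (l 80)) (a (l 80) (l 80)))))) (c (a (b (c (a (a (l 80) (l 80)) (l 80)) (a (l 80) (l 80))) (c (a (b (l 80) (a (l 80) (l 80))) (c (a (l 80) (l 80)) (l 80))) (a (b (l 80) (l 80)) (a (l 80) (l 80))))) (b (c (a (l 80) (l 80)) (a (l 80) (l 80))) (c (a (a (l 80) (l 80)) (l 80)) (a (l 80) (l 80))))) (a (b (c (a (l 80) (l 80)) (a (l 80) (l 80))) (c (a (a (l 80) (l 80)) (l 80)) (a (l 80) (l 80)))) (b (c (a (l 80) (l 80)) (a (l 80) (l 80))) (c (a (l 80) (l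 80)) (a (l 80) (l 80))))))), by decide +kernel⟩

def h9_0Bm : ∃ t, chk3 f0Bm t 16 5 9 = true :=
  ⟨(b (a (c (b (a (c (l 16) (l 16)) (c (l 16) (l 16))) (c (a (l 80) (l 80)) (a (l 80) (l 80)))) (b (a (c (l 16) (l 16)) (l 16)) (a (c (l 80) (l 16)) (l 80)))) (c (b (a (c (l 16) (l 16)) (c (l 16) (l 16))) (a (c (l 80) (l 16)) (l 80))) (b (a (l 16) (l 16)) (a (l 80) (l 80))))) (c (a (b (c (a (l 80) (l 80)) (a (l 80) (l 80))) (c (a (l 80) (l 80)) (a (l 80) (l 80)))) (b (a (l 80) (l 80)) (c (a (l 80) (l 80)) (l 80)))) (a (b (a (l 80) (l 80)) (a (l 80) (l 80))) (b (a (l 80) (l 80)) (a (l 80) (l 80)))))), by decide +kernel⟩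

def h10_0Bm : ∃ t, chk3 f0Bm t 17 5 4 = true :=
  ⟨(c (b (a (c (b (a (c (l 16) (l 16)) (c (l 16) (l 16))) (a (c (l 80) (l 80)) (c (l 80) (l 80)))) (b (a (c (l 16) (l 16)) (c (l 16) (l 16))) (a (c (l 80) (l 16)) (l 80)))) (c (b (a (c (l 16) (l 16)) (c (l 16) (l 16))) (a (c (l 80) (l 16)) (l 80))) (b (a (l 16) (l 16)) (a (l 80) (l 80))))) (c (a (b (c (a (l 80) (l 80)) (a (l 80) (l 80))) (c (a (l 80) (l 80)) (a (l 80) (l 80)))) (b (a (c (l 80) (l 80)) (l 80)) (c (a (l 80) (l 80)) (l 80)))) (a (b (a (c (l 80) (l 80)) (l 80)) (c (a (l 80) (l 80)) (l 80))) (b (a (l 80) (l 80)) (a (l 80) (l 80)))))) (b (a (c (b (a (l 16) (l 16)) (a (l 80) (l 80))) (b (a (l 16) (l 16)) (a (l 80) (l 16)))) (c (b (a (l 16) (l 16)) (a (l 80) (l 16))) (a (c (l 16) (l 16)) (l 80)))) (a (c (b (a (l 80) (l 80)) (a (l 80) (l 80))) (b (a (l 80) (l 80)) (a (l 80) (l 80)))) (c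 (b (a (l 80) (l 80)) (a (l 80) (l 80))) (a (l 80) (l 80)))))), by decide +kernel⟩

def h11_0Bm : ∃ t, chk3 f0Bm t 9 5 4 = true :=
  ⟨(a (c (b (a (c (b (a (l 16) (l 16)) (a (l 80) (l 80))) (b (a (l 16) (l 16)) (a (l 80) (l 16)))) (c (b (a (l 16) (l 16)) (a (l 80) (l 16))) (b (a (l 16) (l 16)) (a (l 16) (l 16))))) (a (c (b (a (l 80) (l 80)) (a (l 80) (l 80))) (b (a (l 80) (l 80)) (a (l 80) (l 80)))) (c (a (c (l 80) (l 80)) (c (l 80) (l 80))) (a (c (l 80) (l 80)) (l 80))))) (b (a (c (a (c (l 16) (l 16)) (l 80)) (a (l 80) (l 16))) (c (a (l 80) (l 16)) (a (l 16) (l 16)))) (a (c (a (l 80) (l 80)) (a (l 80) (l 80))) (c (a (l 80) (l 80)) (a (l 80) (l 80)))))) (c (b (a (c (b (a (l 16) (l 16)) (a (l 16) (l 16))) (a (l 80) (l 16))) (c (a (l 80) (l 16)) (a (l 16) (l 16)))) (a (c (a (c (l 80) (l 80)) (l 80)) (a (l 80) (l 80))) (c (a (l 80) (l 80)) (a (l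 80) (l 80))))) (b (a (c (a (l 16) (l 16)) (a (l 16) (l 16))) (c (a (l 16) (l 16)) (l 16))) (a (c (a (l 80) (l 80)) (l 80)) (c (a (l 80) (l 80)) (l 80)))))), by decide +kernel⟩

def h12_0Bm : ∃ t, chk3 f0Bm t 8 5 5 = true :=
  ⟨(c (a (b (a (c (b (a (l 16) (l 16)) (a (l 80) (l 80))) (b (a (l 16) (l 16)) (a (l 80) (l 16)))) (c (b (a (l 16) (l 16)) (a (l 80) (l 16))) (a (c (l 16) (l 16)) (l 80)))) (a (c (b (a (l 80) (l 80)) (a (l 80) (l 80))) (b (a (l 80) (l 80)) (a (l 80) (l 80)))) (c (b (a (l 80) (l 80)) (a (l 80) (l 80))) (a (l 80) (l 80))))) (b (a (c (a (c (l 16) (l 16)) (l 80)) (a (l 80) (l 16))) (c (a (l 80) (l 16)) (a (l 16) (l 16)))) (a (c (a (l 80) (l 80)) (a (l 80) (l 80))) (c (a (l 80) (l 80)) (a (l 80) (l 80)))))) (a (b (a (c (a (c (l 16) (l 16)) (l 80)) (a (l 80) (l 16))) (c (a (l 80) (l 16)) (a (l 16) (l 16)))) (a (c (a (l 80) (l 80))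 (a (l 80) (l 80))) (c (a (l 80) (l 80)) (a (l 80) (l 80))))) (b (a (c (a (l 16) (l 16)) (a (l 16) (l 16))) (c (a (l 16) (l 16)) (l 16))) (a (c (a (l 80) (l 80)) (l 80)) (c (l 80) (l 80)))))), by decide +kernel⟩

def h13_0Bm : ∃ t, chk3 f0Bm t 9 5 5 = true :=
  ⟨(a (c (b (a (c (a (l 16) (l 16)) (a (l 16) (l 16))) (c (a (l 16) (l 16)) (l 16))) (a (c (a (l 80) (l 80)) (a (l 80) (l 80))) (c (l 80) (l 80)))) (b (a (c (l 16) (l 16)) (c (l 16) (l 16))) (a (c (l 80) (l 80)) (c (l 80) (l 80))))) (c (b (a (c (l 16) (l 16)) (c (l 16) (l 16))) (a (c (l 80) (l 80)) (c (l 80) (l 80)))) (b (a (c (l 16) (l 16)) (c (l 16) (l 16))) (a (c (l 80) (l 80)) (c (l 80) (l 16)))))), by decide +kernel⟩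

def h14_0Bm : ∃ t, chk3 f0Bm t 10 4 2 = true :=
  ⟨(c (a (c (b (a (c (a (l 16) (l 16)) (a (l 16) (l 16))) (c (a (l 16) (l 16)) (a (l 16) (l 16)))) (a (c (a (l 16) (l 16)) (a (l 16) (l 16))) (c (a (l 16) (l 16)) (a (l 16) (l 16))))) (b (a (c (a (l 16) (l 16)) (l 16)) (c (l 16) (l 16))) (a (c (a (l 16) (l 16)) (l 16)) (c (l 16) (l 16))))) (c (b (a (c (a (l 16) (l 16)) (a (l 16) (l 16))) (c (a (l 16) (l 16)) (l 16))) (a (c (a (l 16) (l 16)) (l 16)) (c (l 16) (l 16)))) (b (a (c (l 16) (l 16)) (c (l 16) (l 16))) (a (c (l 16) (l 16)) (c (l 16) (l 16)))))) (a (c (b (a (c (l 16) (l 16)) (c (l 16) (l 16))) (a (c (l 16) (l 16)) (c (l 16) (l 16)))) (b (a (c (l 16) (l 16)) (c (l 16) (l 16))) (a (c (l 16) (l 16)) (c (l 16) (l 16))))) (c (b (a (c (l 16) (l 16)) (c (l 16) (l 16))) (a (c (l 16) (l 16)) (c (l 16) (l 16)))) (b (a (l 16) (l 16)) (a (l 16) (l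 16)))))), by decide +kernel⟩

def h15_0Bm : ∃ t, chk3 f0Bm t 22 4 2 = true :=
  ⟨(c (c (b (a (c (l 16) (l 16)) (c (l 16) (l 16))) (a (c (l 16) (l 16)) (c (l 16) (l 16)))) (b (a (c (l 16) (l 16)) (c (l 16) (l 16))) (a (c (l 16) (l 16)) (c (l 16) (l 16))))) (c (b (a (c (l 16) (l 16)) (l 16)) (a (l 16) (l 16))) (b (a (l 16) (l 16)) (a (l 16) (l 16))))), by decide +kernel⟩

def h16_0Bm : ∃ t, chk3 f0Bm t 23 8 2 = true :=
  ⟨(a (c (c (c (l 16) (l 16)) (c (l 16) (l 16))) (c (l 16) (l 16))) (c (b (a (c (l 16) (l 16)) (c (b (a (l 16) (a (b (l 16) (l 22)) (l 20))) (c (b (c (l 22) (l 22)) (l 22)) (b (l 22) (l 22)))) (b (a (l 16) (a (b (l 16) (l 22)) (l 20))) (c (b (l 22) (l 22)) (b (l 22) (l 22)))))) (c (b (a (a (l 16) (l 22)) (a (c (l 22) (l 22)) (l 12))) (a (c (l 22) (l 22)) (a (l 14) (l 12)))) (b (a (a (l 16) (l 22)) (a (l 22) (l 12))) (a (c (l 22)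 (l 22)) (a (l 14) (l 12)))))) (b (a (l 16) (c (b (a (l 16) (a (b (l 16) (l 22)) (l 20))) (b (c (l 22) (l 22)) (l 22))) (b (a (l 16) (a (b (l 16) (l 22)) (l 20))) (b (c (l 22) (l 22)) (l 22))))) (c (b (a (a (l 16) (l 22)) (a (l 22) (l 12))) (a (c (l 22) (l 22)) (a (l 14) (l 12)))) (b (a (a (l 16) (l 22)) (a (l 22) (l 12))) (a (c (l 22) (l 22)) (a (l 14) (l 12)))))))), by decide +kernel⟩

def h17_0Bm : ∃ t, chk3 f0Bm t 23 9 2 = true :=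
  ⟨(a (b (c (a (c (l 16) (l 16)) (b (l 16) (a (l 16) (c (l 22) (l 22))))) (a (l 16) (b (l 16) (a (l 16) (c (l 22) (l 22)))))) (a (c (c (b (l 16) (c (l 16) (l 16))) (c (l 16) (l 16))) (b (l 16) (c (l 16) (l 16)))) (c (c (c (c (l 22) (l 22)) (c (l 22) (l 22))) (c (c (l 22) (l 22)) (c (l 22) (l 22)))) (c (c (l 22) (l 22)) (c (l 22) (l 22)))))) (c (c (a (b (c (b (l 22) (l 22)) (b (l 22) (l 22))) (c (a (l 14) (l 14)) (a (l 14) (l 14)))) (b (b (c (l 14) (l 14)) (l 14)) (l 12))) (a (b (b (c (l 22) (l 22)) (c (l 22) (l 22))) (c (a (l 14) (l 14)) (a (l 14) (l 14)))) (b (b (c (l 14) (l 14)) (l 14)) (l 12)))) (c (a (b (b (l 22) (c (l 22) (l 22))) (b (c (l 14) (l 14)) (c (l 14) (l 14)))) (b (b (c (l 14) (l 14)) (l 12)) (l 12))) (a (b (b (l 22) (c (l 22) (l 22))) (b (c (l 14) (l 14)) (l 14))) (b (b (c (l 14) (l 14)) (l 12)) (l 12)))))), by decide +kernel⟩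

def h18_0Bm : ∃ t, chk3 f0Bm t 10 5 2 = true :=
  ⟨(c (a (c (b (a (c (a (l 16) (l 16)) (a (l 16) (l 16))) (c (a (l 16) (l 16)) (l 16))) (a (c (a (l 80) (l 80)) (a (l 80) (l 80))) (c (a (l 80) (l 80)) (l 80)))) (b (a (c (l 16) (l 16)) (c (l 16) (l 16))) (a (c (l 80) (l 80)) (c (l 80) (l 80))))) (c (b (a (c (a (l 16) (l 16)) (l 16)) (c (l 16) (l 16))) (a (c (l 80) (l 80)) (c (a (l 80) (l 80)) (l 80)))) (b (a (c (l 16) (l 16)) (c (l 16) (l 16))) (a (c (l 80) (l 80)) (c (l 80) (l 16)))))) (a (c (b (a (c (l 16) (l 16)) (c (l 16) (l 16))) (a (c (l 80) (l 80)) (c (l 80) (l 16)))) (b (a (c (l 16) (l 16)) (l 16)) (a (c (l 16) (l 16)) (l 80)))) (c (b (a (c (l 16) (l 16)) (c (l 16) (l 16))) (a (c (l 16) (l 16)) (c (l 16) (l 16)))) (b (a (l 16) (l 16)) (a (l 80) (l 16)))))), by decide +kernel⟩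

def h19_0Bm : ∃ t, chk3 f0Bm t 22 5 2 = true :=
  ⟨(c (b (a (c (c (l 16) (l 16)) (c (l 16) (l 16))) (b (c (l 16) (l 16)) (a (c (l 16) (l 16)) (c (c (a (l 22) (l 22)) (c (l 22) (l 22))) (c (c (l 22) (l 22)) (c (l 22) (l 22))))))) (a (c (b (c (l 16) (l 16)) (a (l 80) (b (l 16) (c (c (l 22) (l 16)) (l 22))))) (b (l 16) (a (l 16) (b (l 16) (c (l 22) (l 22)))))) (a (b (c (b (l 16) (c (c (l 22) (l 22)) (l 22))) (b (l 16) (c (l 22) (l 22)))) (c (c (c (l 22) (l 22)) (c (l 22) (l 22))) (c (c (l 22) (l 22)) (c (l 22) (l 22))))) (c (c (b (c (l 22) (l 22)) (c (l 14) (l 14))) (b (c (l 22) (l 22)) (c (l 14) (l 14)))) (c (b (c (l 22) (l 22)) (c (l 14) (l 14))) (b (c (l 22) (l 22)) (c (l 14) (l 14)))))))) (b (a (c (l 16) (l 16)) (b (c (l 16) (l 16)) (a (l 16) (c (c (c (l 22) (l 22)) (l 22)) (c (l 22) (l 22)))))) (a (b (c (l 16) (l 16)) (c (a (l 16) (b (l 16)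 (c (l 16) (l 16)))) (a (l 16) (c (l 22) (l 22))))) (c (c (b (a (c (l 22) (l 22)) (l 22)) (a (c (l 22) (l 22)) (c (l 14) (l 14)))) (b (a (c (l 22) (l 22)) (l 22)) (a (l 22) (l 14)))) (c (b (a (l 22) (l 22)) (a (l 22) (l 14))) (b (a (l 22) (l 22)) (a (l 22) (l 14)))))))), by decide +kernel⟩

def h20_0Bm : ∃ t, chk3 f0Bm t 23 5 4 = true :=
  ⟨(c (a (b (b (c (a (c (l 22) (l 22)) (a (l 22) (l 14))) (a (c (l 22) (l 22)) (c (l 22) (l 22)))) (a (c (c (l 22) (l 22)) (c (l 22) (l 22))) (c (c (l 14) (l 14)) (c (l 14) (l 14))))) (a (c (b (c (l 14) (l 14)) (c (l 14) (l 14))) (b (c (l 14) (l 14)) (c (l 14) (l 14)))) (b (c (l 14) (l 14)) (c (l 14) (l 14))))) (b (a (b (c (l 14) (l 14)) (c (l 14) (l 14))) (l 12)) (a (c (l 14) (l 14)) (l 12)))) (a (b (b (c (a (c (l 22) (l 22)) (c (l 22) (l 22))) (a (c (l 22) (l 22)) (c (l 22) (l 22)))) (a (c (c (l 22) (l 22))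 (c (l 22) (l 22))) (c (c (l 14) (l 14)) (c (l 14) (l 14))))) (a (b (c (c (l 14) (l 14)) (c (l 14) (l 14))) (c (l 14) (l 14))) (b (c (l 14) (l 14)) (c (l 14) (l 14))))) (a (b (b (c (l 14) (l 14)) (c (l 14) (l 14))) (c (l 14) (l 14))) (c (l 12) (l 12))))), by decide +kernel⟩

def h21_0Bm : ∃ t, chk3 f0Bm t 23 5 5 = true :=
  ⟨(a (c (b (b (c (a (l 22) (c (l 22) (l 22))) (a (l 22) (c (l 22) (l 22)))) (a (c (l 22) (l 22)) (c (l 14) (l 14)))) (a (b (c (c (l 14) (l 14)) (l 14)) (c (l 14) (l 14))) (b (c (l 14) (l 14)) (c (l 14) (l 14))))) (b (b (c (a (l 22) (l 22)) (a (l 22) (l 22))) (a (c (l 22) (l 22)) (c (l 14) (l 14)))) (a (b (c (l 14) (l 14)) (c (l 14) (l 14))) (b (c (l 14) (l 14)) (l 14))))) (c (a (b (b (c (l 14) (l 14)) (l 14)) (c (l 14) (l 12))) (c (l 12) (l 12))) (a (b (b (c (l 14) (l 14)) (l 14)) (c (l 12) (l 12))) (c (l 12) (l 12))))), by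 decide +kernel⟩

def h22_0Bm : ∃ t, chk3 f0Bm t 8 4 3 = true :=
  ⟨(c (b (a (c (a (c (a (l 16) (l 16)) (a (l 16) (l 16))) (c (a (l 16) (l 16)) (a (l 16) (l 16)))) (a (c (a (l 16) (l 16)) (l 16)) (c (l 16) (l 16)))) (c (a (c (a (l 16) (l 16)) (l 16)) (c (l 16) (l 16))) (a (c (l 16) (l 16)) (c (l 16) (l 16))))) (a (c (a (c (a (l 16) (l 16)) (a (l 16) (l 16))) (c (a (l 16) (l 16)) (l 16))) (a (c (l 16) (l 16)) (c (l 16) (l 16)))) (c (a (c (l 16) (l 16)) (c (l 16) (l 16))) (a (c (l 16) (l 16)) (c (l 16) (l 16)))))) (b (a (c (a (c (l 16) (l 16)) (c (l 16) (l 16))) (a (c (l 16) (l 16)) (c (l 16) (l 16)))) (c (a (c (l 16) (l 16)) (c (l 16) (l 16))) (a (l 16) (l 16)))) (a (c (a (c (l 16) (l 16)) (c (l 16) (l 16))) (a (c (l 16) (l 16)) (c (l 16) (l 16)))) (c (a (c (l 16) (l 16)) (c (l 16) (l 16))) (a (l 16) (l 16)))))), by decide +kernel⟩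

def h23_0Bm : ∃ t, chk3 f0Bm t 9 4 3 = true :=
  ⟨(c (a (c (b (a (c (l 16) (l 16)) (c (l 16) (l 16))) (a (c (l 16) (l 16)) (c (l 16) (l 16)))) (b (a (c (l 16) (l 16)) (c (l 16) (l 16))) (a (c (l 16) (l 16)) (c (l 16) (l 16))))) (c (b (a (c (l 16) (l 16)) (c (l 16) (l 16))) (a (c (l 16) (l 16)) (c (l 16) (l 16)))) (b (a (l 16) (l 16)) (a (l 16) (l 16))))) (a (c (b (a (l 16) (l 16)) (a (l 16) (l 16))) (b (a (l 16) (l 16)) (a (l 16) (l 16)))) (c (b (a (l 16) (l 16)) (a (l 16) (l 16))) (b (a (l 16) (l 16)) (a (l 16) (l 16)))))), by decide +kernel⟩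

def h24_0Bm : ∃ t, chk3 f0Bm t 4 5 3 = true :=
  ⟨(c (a (a (c (b (a (c (a (l 16) (l 16)) (a (l 16) (l 16))) (c (a (l 16) (l 16)) (l 16))) (a (c (a (l 80) (l 80)) (l 80)) (c (l 80) (l 80)))) (b (a (c (l 16) (l 16)) (c (l 16) (l 16))) (a (c (l 80) (l 80)) (c (l 80) (l 80))))) (c (b (a (c (l 16) (l 16)) (c (l 16) (l 16))) (a (c (l 80) (l 80)) (c (l 80) (l 80)))) (b (a (c (l 16) (l 16)) (c (l 16) (l 16))) (a (c (l 80) (l 80)) (c (l 80) (l 16)))))) (a (c (b (a (c (l 16) (l 16)) (c (l 16) (l 16))) (a (c (l 80) (l 80)) (c (l 80) (l 16)))) (b (a (c (l 16) (l 16)) (l 16)) (a (c (l 16) (l 16)) (l 80)))) (c (b (a (c (l 16) (l 16)) (l 16)) (a (c (l 16) (l 16)) (l 80))) (b (a (l 16) (l 16)) (a (l 80) (l 16)))))) (a (a (c (b (a (c (l 16) (l 16)) (c (l 16) (l 16))) (a (c (l 80) (l 80)) (c (l 80) (l 16)))) (b (a (c (l 16) (l 16)) (l 16)) (a (c (l 16) (l 16))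 (l 80)))) (c (b (a (c (l 16) (l 16)) (l 16)) (a (c (l 16) (l 16)) (l 80))) (b (a (l 16) (l 16)) (a (l 80) (l 16))))) (a (c (b (a (l 16) (l 16)) (a (l 80) (l 16))) (b (a (l 16) (l 16)) (a (l 16) (l 16)))) (c (b (a (l 16) (l 16)) (a (l 16) (l 16))) (b (a (l 16) (l 16)) (a (l 16) (l 16))))))), by decide +kernel⟩

def h25_0Bm : ∃ t, chk3 f0Bm t 10 2 3 = true :=
  ⟨(b (c (a (c (b (a (l 16) (l 16)) (a (l 16) (l 16))) (b (a (l 16) (l 16)) (a (l 16) (l 16)))) (c (b (a (l 16) (l 16)) (a (l 16) (l 16))) (b (a (l 16) (l 16)) (a (l 16) (l 16))))) (a (c (b (a (l 16) (l 16)) (a (l 16) (l 16))) (a (c (l 16) (l 16)) (l 16))) (c (b (a (l 16) (l 16)) (a (l 16) (l 16))) (a (l 16) (l 16))))) (c (a (c (b (a (l 16) (l 16)) (a (l 80) (l 16))) (b (a (l 16) (l 16)) (a (l 16) (l 16)))) (c (b (a (l 16) (l 16)) (a (l 16) (l 16))) (b (a (l 16) (l 16)) (a (l 16) (l 16)))))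 (a (c (b (a (l 16) (l 16)) (a (l 16) (l 16))) (a (l 16) (l 16))) (c (a (c (l 16) (l 16)) (c (l 16) (l 16))) (a (l 16) (l 16)))))), by decide +kernel⟩

def h26_0Bm : ∃ t, chk3 f0Bm t 22 4 3 = true :=
  ⟨(c (c (b (a (l 16) (l 16)) (a (l 16) (l 16))) (b (a (l 16) (l 16)) (a (l 16) (l 16)))) (c (b (a (l 16) (l 16)) (a (l 16) (l 16))) (a (l 16) (c (l 16) (l 16))))), by decide +kernel⟩

def h27_0Bm : ∃ t, chk3 f0Bm t 23 8 3 = true :=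
  ⟨(a (c (c (l 16) (l 16)) (c (l 16) (l 16))) (c (b (a (l 16) (c (b (a (l 16) (a (b (l 16) (l 22)) (l 20))) (a (l 22) (c (l 20) (l 20)))) (b (a (l 16) (a (b (l 16) (l 22)) (l 20))) (a (l 22) (l 20))))) (c (b (a (a (l 16) (l 22)) (a (l 22) (l 12))) (a (l 22) (c (l 14) (l 14)))) (b (a (c (l 22) (l 22)) (a (l 22) (l 12))) (a (l 22) (c (l 14) (l 14)))))) (b (a (l 16) (c (b (a (l 16) (a (b (l 16) (l 22)) (l 20))) (a (l 22) (l 20))) (b (a (l 16) (a (b (l 16) (l 22)) (l 20))) (a (l 22) (l 20))))) (c (b (a (c (l 22) (l 22)) (a (l 22) (l 12))) (a (l 22) (c (l 14) (l 14)))) (b (a (c (l 22) (l 22)) (a (l 22) (l 12))) (a (l 22) (c (l 14) (l 14)))))))), by decide +kernel⟩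

def h28_0Bm : ∃ t, chk3 f0Bm t 23 9 3 = true :=
  ⟨(a (a (c (b (l 16) (c (l 16) (l 16))) (b (l 16) (c (l 16) (l 16)))) (c (c (b (a (l 16) (l 22)) (c (l 22) (l 22))) (b (c (l 22) (l 22)) (c (l 22) (l 22)))) (c (b (c (l 22) (l 22)) (c (l 22) (l 22))) (b (c (l 22) (l 22)) (c (l 22) (l 22)))))) (c (a (c (b (b (l 22) (l 22)) (b (l 14) (l 14))) (b (c (l 22) (l 22)) (c (l 14) (l 14)))) (a (c (b (c (l 12) (l 12)) (l 12)) (b (l 14) (l 12))) (l 12))) (a (c (b (c (l 22) (l 22)) (c (l 14) (l 14))) (b (c (l 22) (l 22)) (c (l 14) (l 14)))) (a (c (c (l 12) (l 12)) (b (l 14) (l 12))) (l 12))))), by decide +kernel⟩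

def h29_0Bm : ∃ t, chk3 f0Bm t 22 5 3 = true :=
  ⟨(b (a (c (c (l 16) (l 16)) (c (l 16) (l 16))) (b (c (c (l 16) (l 16)) (l 16)) (c (a (l 16) (c (c (l 22) (l 22)) (c (l 22) (l 22)))) (a (l 16) (c (c (l 22) (l 22)) (c (l 22) (l 22))))))) (a (c (c (b (l 16) (a (l 16) (c (l 16) (l 16)))) (b (l 16) (a (l 16) (c (l 16) (l 16))))) (b (l 16) (a (l 16) (c (c (l 16) (l 16)) (l 16))))) (c (c (c (b (a (l 22) (l 22)) (a (l 22) (l 14))) (b (a (l 22) (l 22)) (a (l 22) (l 14)))) (b (a (c (l 22) (l 22)) (c (l 22) (l 22))) (c (a (l 22) (l 14)) (a (l 22) (l 14))))) (c (b (a (c (l 22) (l 22)) (c (l 22) (l 22))) (c (a (l 22) (l 14)) (a (l 22) (l 14)))) (b (a (c (l 22) (l 22)) (c (l 22) (l 22))) (c (a (l 22) (l 14)) (a (l 22) (l 14)))))))), by decide +kernel⟩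

def h30_0Bm : ∃ t, chk3 f0Bm t 23 5 3 = true :=
  ⟨(c (a (c (b (b (c (a (l 22) (l 22)) (a (l 22) (l 22))) (a (c (l 22) (l 22)) (c (l 14) (l 14)))) (a (b (c (l 14) (l 14)) (c (l 14) (l 14))) (b (c (l 14) (l 14)) (l 14)))) (b (b (c (a (l 22) (l 22)) (a (l 22) (l 22))) (a (c (l 22) (l 22)) (c (l 14) (l 14)))) (a (b (c (l 14) (l 14)) (c (l 14) (l 14))) (b (l 14) (l 14))))) (c (a (b (b (c (l 14) (l 14)) (l 14)) (c (l 12) (l 12))) (l 12)) (a (b (b (c (l 14) (l 14)) (l 14)) (c (l 12) (l 12))) (l 12)))) (a (c (b (b (c (a (l 22) (l 22)) (a (l 22) (l 22))) (a (c (l 22) (l 22)) (c (l 14) (l 14)))) (a (b (c (l 14) (l 14)) (c (l 14) (l 14))) (b (l 14) (l 14)))) (b (b (a (c (l 22) (l 22)) (c (l 22) (l 22))) (a (c (l 22) (l 22)) (c (l 14) (l 14)))) (a (b (c (l 14) (l 14)) (c (l 14) (l 14))) (b (l 14) (l 14))))) (c (a (b (b (l 14) (l 14)) (l 14)) (l 12)) (a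 (b (b (c (l 14) (l 14)) (l 14)) (l 14)) (l 12))))), by decide +kernel⟩

def h31_0Bm : ∃ t, chk3 f0Bm t 3 2 1 = true :=
  ⟨(c (a (a (c (a (b (a (c (b (a (c (l 20) (l 20)) (l 12)) (l 12)) (b (a (c (l 20) (l 20)) (l 12)) (l 12))) (c (l 12) (l 12))) (c (a (l 44) (l 44)) (a (l 44) (l 44)))) (b (c (l 12) (l 12)) (c (l 44) (l 44)))) (a (b (a (c (b (a (c (l 20) (l 20)) (l 12)) (l 12)) (b (a (l 20) (l 12)) (l 12))) (l 12)) (a (c (l 44) (l 12)) (l 44))) (b (l 12) (c (l 44) (l 12))))) (c (a (b (l 12) (l 46)) (c (l 46) (l 46))) (a (c (l 44) (l 44)) (c (l 44) (l 44))))) (a (a (c (l 46) (l 46)) (l 46)) (c (l 46) (l 46)))) (a (a (c (a (b (a (a (b (c (l 20) (l 20)) (l 12)) (l 12)) (l 12)) (c (a (l 12) (l 12)) (l 12))) (b (l 12) (l 44))) (a (b (a (b (a (b (c (l 20) (l 20)) (l 12)) (l 12)) (l 12)) (l 12)) (c (l 12) (l 12))) (c (l 44) (l 12)))) (c (a (c (l 44)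 (l 44)) (l 46)) (a (c (l 12) (l 12)) (l 46)))) (a (c (l 46) (l 46)) (l 46)))), by decide +kernel⟩

def h32_0Bm : ∃ t, chk3 f0Bm t 32 12 16 = true :=
  ⟨(b (c (a (b (c (a (l 64) (l 64)) (a (l 64) (l 64))) (c (a (a (l 64) (l 64)) (a (l 64) (l 64))) (a (a (l 64) (l 64)) (l 64)))) (b (a (l 80) (l 80)) (c (a (l 64) (l 64)) (a (l 64) (l 64))))) (a (b (a (l 80) (l 80)) (c (a (l 64) (l 64)) (a (l 64) (l 64)))) (b (a (l 80) (l 80)) (a (l 64) (l 64))))) (c (a (c (a (b (a (l 64) (l 64)) (a (l 64) (l 64))) (b (l 64) (a (l 64) (l 64)))) (a (b (l 64) (l 64)) (b (l 64) (l 64)))) (b (c (a (l 64) (l 64)) (a (l 64) (l 64))) (c (a (l 64) (l 64)) (a (l 64) (l 64))))) (a (b (c (a (l 64) (l 64)) (a (l 64) (l 64))) (c (a (l 64) (l 64)) (a (l 64) (l 64)))) (b (c (a (l 64) (l 64)) (a (l 64) (l 64))) (c (a (l 64) (l 64)) (a (l 64) (l 64))))))), by decide +kernel⟩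

def h33_0Bm : ∃ t, chk3 f0Bm t 33 12 16 = true :=
  ⟨(b (c (a (b (a (l 80) (l 80)) (c (a (l 64) (l 64)) (l 64))) (b (l 80) (a (l 64) (l 64)))) (a (c (a (l 80) (l 80)) (l 80)) (a (l 80) (l 80)))) (c (a (b (c (a (l 64) (l 64)) (a (l 64) (l 64))) (c (a (l 64) (l 64)) (a (l 64) (l 64)))) (b (c (a (l 64) (l 64)) (l 64)) (c (a (l 64) (l 64)) (a (l 64) (l 64))))) (a (b (c (a (l 64) (l 64)) (l 64)) (c (a (l 64) (l 64)) (a (l 64) (l 64)))) (b (a (l 64) (l 64)) (c (a (l 64) (l 64)) (l 64)))))), by decide +kernel⟩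

def h34_0Bm : ∃ t, chk3 f0Bm t 16 12 17 = true :=
  ⟨(a (b (c (a (b (l 80) (a (l 64) (l 64))) (c (a (l 80) (l 80)) (l 80))) (a (c (a (l 80) (l 80)) (l 80)) (a (l 80) (l 80)))) (c (a (b (c (a (l 64) (l 64)) (a (l 64) (l 64))) (c (a (l 64) (l 64)) (a (l 64) (l 64)))) (b (c (a (l 64) (l 64)) (l 64)) (c (a (l 64) (l 64)) (a (l 64) (l 64))))) (a (b (c (l 64) (l 64)) (c (a (l 64) (l 64)) (a (l 64) (l 64)))) (b (a (l 64) (l 64)) (c (a (l 64) (l 64)) (l 64)))))) (b (c (a (a (l 80) (l 80)) (l 80)) (a (l 80) (l 80))) (c (a (b (a (l 64) (l 64)) (c (a (l 64) (l 64)) (l 64))) (b (l 80) (a (l 64) (l 64)))) (a (b (l 80) (a (l 64) (l 64))) (a (l 80) (l 80)))))), by decide +kernel⟩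

def h35_0Bm : ∃ t, chk3 f0Bm t 32 13 16 = true :=
  ⟨(b (c (a (c (a (b (a (l 64) (l 64)) (a (l 64) (l 64))) (b (a (l 64) (l 64)) (a (l 64) (l 64)))) (a (b (a (l 64) (l 64)) (a (l 64) (l 64))) (b (l 64) (a (l 64) (l 64))))) (c (a (b (l 64) (a (l 64) (l 64))) (b (l 64) (l 64))) (a (b (l 64) (l 64)) (b (l 64) (l 64))))) (a (c (a (b (l 64) (l 64)) (b (l 64) (l 64))) (a (b (l 64) (l 64)) (b (l 64) (l 64)))) (c (a (b (l 64) (l 64)) (b (l 64) (l 64))) (a (b (l 64) (l 64)) (b (l 64) (l 64)))))) (c (a (c (a (b (a (l 64) (l 64)) (a (l 64) (l 64))) (b (a (l 64) (l 64)) (a (l 64) (l 64)))) (a (b (a (l 64) (l 64)) (a (l 64) (l 64))) (b (a (l 64) (l 64)) (a (l 64) (l 64))))) (c (a (b (a (l 64) (l 64)) (a (l 64) (l 64))) (b (a (l 64) (l 64)) (a (l 64) (l 64)))) (a (b (l 64) (a (l 64) (l 64))) (b (l 64) (l 64))))) (a (c (a (b (a (l 64) (l 64)) (a (l 64) (l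 64))) (b (l 64) (a (l 64) (l 64)))) (a (b (l 64) (l 64)) (b (l 64) (l 64)))) (c (a (b (l 64) (l 64)) (b (l 64) (l 64))) (a (b (l 64) (l 64)) (b (l 64) (l 64))))))), by decide +kernel⟩

def h36_0Bm : ∃ t, chk3 f0Bm t 33 13 16 = true :=
  ⟨(b (c (a (c (a (b (l 64) (l 64)) (b (l 64) (l 64))) (a (b (l 64) (l 64)) (b (l 64) (l 64)))) (c (a (b (l 64) (l 64)) (b (l 64) (l 64))) (a (b (l 64) (l 64)) (b (l 64) (l 64))))) (a (c (a (b (l 64) (l 64)) (b (l 64) (l 64))) (a (b (l 64) (l 64)) (b (l 64) (l 64)))) (c (b (l 64) (a (l 64) (l 64))) (b (l 64) (l 64))))) (c (a (c (a (b (l 64) (l 64)) (b (l 64) (l 64))) (a (b (l 64) (l 64)) (b (l 64) (l 64)))) (c (a (b (l 64) (l 64)) (b (l 64) (l 64))) (a (b (l 64) (l 64)) (b (l 64) (l 64))))) (a (c (a (b (l 64) (l 64)) (b (l 64) (l 64))) (a (b (l 64) (l 64)) (b (l 64) (l 64)))) (c (a (b (l 64) (l 64)) (b (l 64) (l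 64))) (a (b (l 64) (l 64)) (b (l 64) (l 64))))))), by decide +kernel⟩

def h37_0Bm : ∃ t, chk3 f0Bm t 16 13 17 = true :=
  ⟨(a (b (c (a (c (a (b (l 64) (l 64)) (b (l 64) (l 64))) (a (b (l 64) (l 64)) (b (l 64) (l 64)))) (c (a (b (l 64) (l 64)) (b (l 64) (l 64))) (a (b (l 64) (l 64)) (b (l 64) (l 64))))) (a (c (a (b (l 64) (l 64)) (b (l 64) (l 64))) (b (l 64) (a (l 64) (l 64)))) (c (b (l 64) (l 64)) (b (l 64) (l 64))))) (c (a (c (a (b (l 64) (l 64)) (b (l 64) (l 64))) (a (b (l 64) (l 64)) (b (l 64) (l 64)))) (c (a (b (l 64) (l 64)) (b (l 64) (l 64))) (a (b (l 64) (l 64)) (b (l 64) (l 64))))) (a (c (a (b (l 64) (l 64)) (b (l 64) (l 64))) (a (b (l 64) (l 64)) (b (l 64) (l 64)))) (c (a (b (l 64) (l 64)) (b (l 64) (l 64))) (b (l 64) (a (l 64) (l 64))))))) (b (c (a (c (b (l 64) (a (l 64) (l 64))) (b (l 64) (l 64))) (b (a (l 64) (l 64)) (a (l 64) (l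 64)))) (a (b (a (l 64) (l 64)) (a (l 64) (l 64))) (b (a (l 64) (l 64)) (a (l 64) (l 64))))) (c (a (c (a (b (l 64) (l 64)) (b (l 64) (l 64))) (b (l 64) (a (l 64) (l 64)))) (c (b (l 64) (l 64)) (a (l 64) (l 64)))) (a (c (b (l 64) (l 64)) (a (l 64) (l 64))) (c (a (l 64) (l 64)) (a (l 64) (l 64))))))), by decide +kernel⟩

def h38_0Bm : ∃ t, chk3 f0Bm t 17 12 8 = true :=
  ⟨(c (a (b (c (a (a (l 80) (l 80)) (a (l 80) (l 80))) (a (a (l 80) (l 80)) (l 80))) (c (a (b (a (l 64) (l 64)) (c (a (l 64) (l 64)) (l 64))) (b (l 80) (a (l 64) (l 64)))) (a (b (l 80) (a (l 64) (l 64))) (a (l 80) (l 80))))) (b (c (a (l 80) (l 80)) (a (l 80) (l 80))) (c (a (a (l 80) (l 80)) (a (l 80) (l 80))) (a (a (l 80) (l 80)) (l 80))))) (a (b (c (a (l 80) (l 80)) (a (l 80) (l 80))) (c (a (a (l 80) (l 80)) (a (l 80) (l 80))) (a (a (l 80) (l 80)) (l 80)))) (b (c (a (l 80) (l 80))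 (l 80)) (c (a (l 80) (l 80)) (a (l 80) (l 80)))))), by decide +kernel⟩

def h39_0Bm : ∃ t, chk3 f0Bm t 17 13 16 = true :=
  ⟨(a (b (c (a (c (a (b (l 64) (l 64)) (b (l 64) (l 64))) (b (a (l 64) (l 64)) (l 64))) (b (c (a (l 64) (l 64)) (l 64)) (a (l 64) (l 64)))) (a (b (c (l 64) (l 64)) (a (l 64) (l 64))) (b (a (l 64) (l 64)) (a (l 64) (l 64))))) (c (a (c (a (b (l 64) (l 64)) (b (l 64) (l 64))) (a (b (l 64) (l 64)) (b (l 64) (l 64)))) (c (b (l 64) (a (l 64) (l 64))) (b (l 64) (l 64)))) (a (c (b (l 64) (a (l 64) (l 64))) (a (l 64) (l 64))) (c (a (l 64) (l 64)) (a (l 64) (l 64)))))) (b (c (a (b (a (l 64) (l 64)) (a (l 64) (l 64))) (b (l 64) (a (l 64) (l 64)))) (a (b (l 64) (a (l 64) (l 64))) (c (a (l 64) (l 64)) (l 64)))) (c (a (c (a (l 64) (l 64)) (a (l 64) (l 64))) (c (a (l 64) (l 64)) (a (l 64) (l 64)))) (a (c (a (l 64) (l 64)) (a (l 64) (l 64)))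 (c (a (l 64) (l 64)) (a (l 64) (l 64))))))), by decide +kernel⟩

def h40_0Bm : ∃ t, chk3 f0Bm t 17 13 17 = true :=
  ⟨(a (b (c (a (b (a (l 64) (l 64)) (a (l 64) (l 64))) (b (l 64) (a (l 64) (l 64)))) (a (b (l 64) (a (l 64) (l 64))) (c (a (l 64) (l 64)) (l 64)))) (c (a (c (a (l 64) (l 64)) (a (l 64) (l 64))) (c (a (l 64) (l 64)) (a (l 64) (l 64)))) (a (c (a (l 64) (l 64)) (a (l 64) (l 64))) (c (a (l 64) (l 64)) (a (l 64) (l 64)))))) (b (c (a (c (a (l 64) (l 64)) (l 64)) (a (l 64) (l 64))) (a (a (l 64) (l 64)) (l 80))) (c (a (c (a (l 64) (l 64)) (a (l 64) (l 64))) (b (a (l 64) (l 64)) (l 64))) (a (b (a (l 64) (l 64)) (l 64)) (b (l 64) (l 64)))))), by decide +kernel⟩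

def h41_0Bm : ∃ t, chk3 f0Bm t 16 12 9 = true :=
  ⟨(c (a (b (c (a (a (l 80) (l 80)) (l 80)) (a (l 80) (l 80))) (c (a (b (a (l 64) (l 64)) (c (l 64) (l 64))) (c (a (l 64) (l 64)) (l 80))) (a (c (a (l 64) (l 64)) (l 80)) (a (l 80) (l 80))))) (b (c (a (l 80) (l 80)) (a (l 80) (l 80))) (c (a (a (l 80) (l 80)) (a (l 80) (l 80))) (a (l 80) (l 80))))) (a (b (c (a (l 80) (l 80)) (a (l 80) (l 80))) (c (a (a (l 80) (l 80)) (l 80)) (a (a (l 80) (l 80)) (l 80)))) (b (c (l 80) (l 80)) (c (a (l 80) (l 80)) (a (l 80) (l 80)))))), by decide +kernel⟩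

def h42_0Bm : ∃ t, chk3 f0Bm t 16 13 18 = true :=
  ⟨(a (b (c (a (c (b (l 64) (l 64)) (a (l 64) (l 64))) (b (a (l 64) (l 64)) (a (l 64) (l 64)))) (a (b (a (l 64) (l 64)) (a (l 64) (l 64))) (b (a (l 64) (l 64)) (a (l 64) (l 64))))) (c (a (c (a (b (l 64) (l 64)) (b (l 64) (l 64))) (b (l 64) (a (l 64) (l 64)))) (c (b (l 64) (l 64)) (a (l 64) (l 64)))) (a (c (b (l 64) (l 64)) (a (l 64) (l 64))) (c (a (l 64) (l 64)) (a (l 64) (l 64)))))) (b (c (a (b (a (l 64) (l 64)) (a (l 64) (l 64))) (b (l 64) (a (l 64) (l 64)))) (a (b (l 64) (a (l 64) (l 64))) (b (l 64) (l 64)))) (c (a (c (a (l 64) (l 64)) (a (l 64) (l 64))) (c (a (l 64) (l 64)) (a (l 64) (l 64)))) (a (c (a (l 64) (l 64)) (a (l 64) (l 64))) (c (a (l 64) (l 64)) (a (l 64) (l 64))))))), by decide +kernel⟩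

def h43_0Bm : ∃ t, chk3 f0Bm t 16 13 19 = true :=
  ⟨(a (b (c (a (b (a (l 64) (l 64)) (a (l 64) (l 64))) (b (l 64) (a (l 64) (l 64)))) (a (b (l 64) (a (l 64) (l 64))) (c (a (l 64) (l 64)) (l 64)))) (c (a (c (a (l 64) (l 64)) (a (l 64) (l 64))) (c (a (l 64) (l 64)) (a (l 64) (l 64)))) (a (c (a (l 64) (l 64)) (a (l 64) (l 64))) (b (a (l 64) (l 64)) (a (l 64) (l 64)))))) (b (c (a (c (a (l 64) (l 64)) (l 64)) (a (l 64) (l 64))) (a (a (l 64) (l 64)) (l 80))) (c (a (c (a (l 64) (l 64)) (a (l 64) (l 64))) (b (a (l 64) (l 64)) (l 64))) (a (b (a (l 64) (l 64)) (l 64)) (b (l 64) (l 64)))))), by decide +kernel⟩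

def h44_0Bm : ∃ t, chk3 f0Bm t 17 6 9 = true :=
  ⟨(b (a (c (b (c (a (l 80) (l 80)) (l 80)) (c (a (l 80) (l 80)) (a (l 80) (l 80)))) (b (a (l 80) (l 80)) (c (a (l 80) (l 80)) (l 80)))) (c (b (a (l 80) (l 80)) (c (a (l 80) (l 80)) (l 80))) (b (l 80) (a (l 80) (l 80))))) (c (a (b (c (a (c (a (l 64) (l 64)) (l 64)) (a (l 64) (l 64))) (a (a (l 64) (l 64)) (l 80))) (c (a (c (a (l 64) (l 64)) (a (l 64) (l 64))) (b (a (l 64) (l 64)) (l 64))) (a (b (l 64) (l 64)) (b (l 64) (l 64))))) (b (c (a (l 80) (l 80)) (a (l 80) (l 80))) (c (a (b (l 64) (l 64)) (a (l 64) (l 64))) (a (b (l 64) (l 64)) (a (l 64) (l 64)))))) (a (b (c (a (l 80) (l 80)) (a (l 80) (l 80))) (c (a (b (l 64) (l 64)) (b (l 64) (l 64))) (a (b (l 64) (l 64)) (a (l 64) (l 64))))) (b (c (a (l 80) (l 80)) (l 80)) (c (a (a (l 64) (l 64)) (l 64)) (a (l 64) (l 64))))))), by decide +kernel⟩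

def h45_0Bm : ∃ t, chk3 f0Bm t 18 6 8 = true :=
  ⟨(b (c (a (b (c (a (l 80) (l 80)) (l 80)) (c (a (l 80) (l 80)) (a (l 80) (l 80)))) (b (a (l 80) (l 80)) (c (a (l 80) (l 80)) (l 80)))) (a (b (a (l 80) (l 80)) (c (a (l 80) (l 80)) (l 80))) (b (a (l 80) (l 80)) (a (l 80) (l 80))))) (c (a (b (c (a (c (a (l 64) (l 64)) (l 64)) (a (l 64) (l 64))) (a (a (l 64) (l 64)) (l 80))) (c (a (c (a (l 64) (l 64)) (a (l 64) (l 64))) (b (a (l 64) (l 64)) (l 64))) (a (b (a (l 64) (l 64)) (l 64)) (b (l 64) (l 64))))) (b (c (a (l 80) (l 80)) (a (l 80) (l 80))) (a (c (b (l 64) (l 64)) (a (l 64) (l 64))) (c (a (l 64) (l 64)) (a (l 64) (l 64)))))) (a (b (c (a (l 80) (l 80)) (a (l 80) (l 80))) (c (a (b (l 64) (l 64)) (a (l 64) (l 64))) (a (a (l 64) (l 64)) (a (l 64) (l 64))))) (b (c (a (l 80) (l 80)) (l 80)) (c (a (a (l 64) (l 64)) (l 64)) (a (l 64) (l 64))))))), by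 decide +kernel⟩

def h46_0Bm : ∃ t, chk3 f0Bm t 18 6 9 = true :=
  ⟨(b (a (c (b (a (l 80) (l 80)) (a (l 80) (l 80))) (b (l 80) (a (l 80) (l 80)))) (c (b (l 80) (a (l 80) (l 80))) (a (l 80) (l 80)))) (a (c (b (c (a (l 80) (l 80)) (l 80)) (c (a (a (l 64) (l 64)) (l 64)) (a (l 64) (l 64)))) (b (a (l 80) (l 80)) (c (a (l 64) (l 64)) (a (l 64) (l 64))))) (c (b (a (l 80) (l 80)) (c (a (l 64) (l 64)) (a (l 64) (l 64)))) (b (a (l 80) (l 80)) (a (l 80) (l 80)))))), by decide +kernel⟩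

def h47_0Bm : ∃ t, chk3 f0Bm t 19 6 4 = true :=
  ⟨(c (b (a (c (b (a (l 80) (l 80)) (a (l 80) (l 80))) (b (l 80) (a (l 80) (l 80)))) (c (b (l 80) (a (l 80) (l 80))) (a (l 80) (l 80)))) (a (c (b (a (c (l 80) (l 80)) (l 80)) (a (c (a (l 64) (l 64)) (l 64)) (c (l 64) (l 64)))) (b (a (l 80) (l 80)) (a (c (l 64) (l 64)) (c (l 64) (l 64))))) (c (b (a (l 80) (l 80)) (c (a (l 64) (l 64)) (a (l 64) (l 64)))) (b (a (l 80) (l 80)) (a (l 80) (l 80)))))) (b (a (c (a (l 80) (l 80)) (a (l 80) (l 80))) (c (a (l 80) (l 80)) (a (l 80) (l 80)))) (a (c (b (a (l 80) (l 80)) (a (l 80) (l 80))) (b (l 80) (a (l 80) (l 80)))) (c (b (l 80) (a (l 80) (l 80))) (b (l 80) (l 80)))))), by decide +kernel⟩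

def h48_0Bm : ∃ t, chk3 f0Bm t 16 6 10 = true :=
  ⟨(b (c (a (b (c (a (l 80) (l 80)) (l 80)) (c (a (l 80) (l 80)) (a (l 80) (l 80)))) (b (a (l 80) (l 80)) (c (a (l 80) (l 80)) (l 80)))) (a (b (a (l 80) (l 80)) (c (a (l 80) (l 80)) (l 80))) (b (l 80) (a (l 80) (l 80))))) (c (a (b (c (a (c (a (l 64) (l 64)) (l 64)) (a (l 64) (l 64))) (a (a (l 64) (l 64)) (l 80))) (c (a (b (a (l 64) (l 64)) (a (l 64) (l 64))) (b (a (l 64) (l 64)) (l 64))) (a (b (a (l 64) (l 64)) (l 64)) (b (l 64) (l 64))))) (b (c (a (l 80) (l 80)) (a (l 80) (l 80))) (c (a (b (l 64) (l 64)) (b (l 64) (l 64))) (a (b (l 64) (l 64)) (a (l 64) (l 64)))))) (a (b (c (a (l 80) (l 80)) (a (l 80) (l 80))) (c (a (b (l 64) (l 64)) (b (l 64) (l 64))) (a (b (l 64) (l 64)) (a (l 64) (l 64))))) (b (c (a (l 80) (l 80)) (a (l 80) (l 80))) (a (c (a (l 64) (l 64)) (l 64)) (c (l 64) (l 64))))))),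 by decide +kernel⟩

def h49_0Bm : ∃ t, chk3 f0Bm t 16 6 11 = true :=
  ⟨(b (a (c (b (l 80) (a (l 80) (l 80))) (b (l 80) (a (l 80) (l 80)))) (c (b (l 80) (a (l 80) (l 80))) (a (l 80) (l 80)))) (c (a (b (c (a (l 80) (l 80)) (a (l 80) (l 80))) (c (a (a (l 64) (l 64)) (l 64)) (a (a (l 64) (l 64)) (l 64)))) (b (a (l 80) (l 80)) (c (a (l 64) (l 64)) (a (l 64) (l 64))))) (a (b (a (l 80) (l 80)) (c (a (l 64) (l 64)) (a (l 64) (l 64)))) (b (a (l 80) (l 80)) (c (a (l 64) (l 64)) (l 80)))))), by decide +kernel⟩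

def h50_0Bm : ∃ t, chk3 f0Bm t 17 6 5 = true :=
  ⟨(c (b (a (c (b (l 80) (a (l 80) (l 80))) (b (l 80) (a (l 80) (l 80)))) (c (b (l 80) (a (l 80) (l 80))) (a (l 80) (l 80)))) (a (c (b (c (a (l 80) (l 80)) (a (l 80) (l 80))) (c (a (a (l 64) (l 64)) (l 64)) (a (l 64) (l 64)))) (b (a (l 80) (l 80)) (a (c (l 64) (l 64)) (c (l 64) (l 64))))) (c (b (a (l 80) (l 80)) (c (a (l 64) (l 64)) (a (l 64) (l 64)))) (b (a (l 80) (l 80)) (a (l 80) (l 80)))))) (b (a (c (a (l 80) (l 80)) (a (l 80) (l 80))) (c (a (l 80) (l 80)) (l 80))) (a (c (b (a (l 80) (l 80)) (a (l 80) (l 80))) (b (l 80) (a (l 80) (l 80)))) (c (b (l 80) (a (l 80) (l 80))) (b (l 80) (l 80)))))), by decide +kernel⟩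

def h51_0Bm : ∃ t, chk3 f0Bm t 9 6 5 = true :=
  ⟨(a (c (b (a (c (a (l 80) (l 80)) (a (l 80) (l 80))) (c (a (l 80) (l 80)) (a (l 80) (l 80)))) (a (c (b (a (l 80) (l 80)) (a (l 80) (l 80))) (b (l 80) (a (l 80) (l 80)))) (c (b (l 80) (a (l 80) (l 80))) (b (l 80) (l 80))))) (b (a (c (l 80) (l 80)) (c (l 80) (l 80))) (a (c (b (l 80) (l 80)) (a (l 80) (l 80))) (c (a (l 80) (l 80)) (a (l 80) (l 80)))))) (c (b (a (c (a (l 80) (l 80)) (l 80)) (c (l 80) (l 80))) (a (c (b (l 80) (l 80)) (a (l 80) (l 80))) (c (a (l 80) (l 80)) (a (l 80) (l 80))))) (b (a (c (l 80) (l 80)) (c (l 80) (l 80))) (a (c (a (l 80) (l 80)) (l 80)) (c (l 80) (l 80)))))), by decide +kernel⟩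

def h52_0Bm : ∃ t, chk3 f0Bm t 32 28 16 = true :=
  ⟨(c (a (c (a (b (c (a (l 64) (l 64)) (l 64)) (c (a (l 64) (l 64)) (a (l 64) (l 64)))) (b (a (l 64) (l 64)) (c (l 64) (l 64)))) (a (b (a (l 64) (l 64)) (a (l 64) (l 64))) (b (a (l 64) (l 64)) (a (l 64) (l 64))))) (c (a (b (a (l 64) (l 64)) (a (l 64) (l 64))) (b (a (l 64) (l 64)) (a (l 64) (l 64)))) (a (b (a (l 64) (l 64)) (a (l 64) (l 64))) (b (a (l 64) (l 64)) (a (l 64) (l 64)))))) (a (c (a (b (a (l 64) (l 64)) (a (l 64) (l 64))) (b (a (l 64) (l 64)) (a (l 64) (l 64)))) (a (b (a (l 64) (l 64)) (a (l 64) (l 64))) (b (l 64) (a (l 64) (l 64))))) (c (a (b (l 64) (a (l 64) (l 64))) (b (l 64) (l 64))) (a (b (l 64) (l 64)) (b (l 64) (l 64)))))), by decide +kernel⟩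

def h53_0Bm : ∃ t, chk3 f0Bm t 32 29 16 = true :=
  ⟨(c (a (c (a (b (c (a (l 64) (l 64)) (a (l 64) (l 64))) (c (a (l 64) (l 64)) (a (l 64) (l 64)))) (b (c (a (l 64) (l 64)) (l 64)) (c (a (l 64) (l 64)) (a (l 64) (l 64))))) (a (b (c (a (l 64) (l 64)) (l 64)) (c (a (l 64) (l 64)) (a (l 64) (l 64)))) (b (a (l 64) (l 64)) (c (l 64) (l 64))))) (c (a (b (a (l 64) (l 64)) (c (a (l 64) (l 64)) (l 64))) (b (a (l 64) (l 64)) (a (l 64) (l 64)))) (a (b (a (l 64) (l 64)) (a (l 64) (l 64))) (b (a (l 64) (l 64)) (a (l 64) (l 64)))))) (a (c (a (b (a (l 64) (l 64)) (a (l 64) (l 64))) (b (a (l 64) (l 64)) (a (l 64) (l 64)))) (a (b (a (l 64) (l 64)) (a (l 64) (l 64))) (b (a (l 64) (l 64)) (a (l 64) (l 64))))) (c (a (b (a (l 64) (l 64)) (a (l 64) (l 64))) (b (a (l 64) (l 64)) (a (l 64) (l 64)))) (a (b (a (l 64) (l 64)) (a (l 64) (l 64))) (b (l 64) (a (l 64) (l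 64))))))), by decide +kernel⟩

def h54_0Bm : ∃ t, chk3 f0Bm t 33 14 16 = true :=
  ⟨(b (c (a (c (a (b (a (l 64) (l 64)) (a (l 64) (l 64))) (b (l 64) (l 64))) (a (b (l 64) (l 64)) (b (l 64) (l 64)))) (c (a (b (l 64) (l 64)) (b (l 64) (l 64))) (a (b (l 64) (l 64)) (b (l 64) (l 64))))) (a (c (a (b (l 64) (l 64)) (b (l 64) (l 64))) (a (b (l 64) (l 64)) (b (l 64) (l 64)))) (c (a (b (l 64) (l 64)) (b (l 64) (l 64))) (a (b (l 64) (l 64)) (b (l 64) (l 64)))))) (c (a (c (a (b (a (l 64) (l 64)) (a (l 64) (l 64))) (b (a (l 64) (l 64)) (a (l 64) (l 64)))) (a (b (a (l 64) (l 64)) (a (l 64) (l 64))) (b (l 64) (a (l 64) (l 64))))) (c (a (b (l 64) (a (l 64) (l 64))) (b (l 64) (l 64))) (a (b (l 64) (l 64)) (b (l 64) (l 64))))) (a (c (a (b (l 64) (a (l 64) (l 64))) (b (l 64) (l 64))) (a (b (l 64) (l 64)) (b (l 64) (l 64)))) (c (a (b (l 64) (l 64)) (b (l 64) (l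 64))) (a (b (l 64) (l 64)) (b (l 64) (l 64))))))), by decide +kernel⟩

def h55_0Bm : ∃ t, chk3 f0Bm t 32 14 17 = true :=
  ⟨(b (c (a (c (a (b (l 64) (a (l 64) (l 64))) (b (l 64) (l 64))) (a (b (l 64) (l 64)) (b (l 64) (l 64)))) (c (a (b (l 64) (l 64)) (b (l 64) (l 64))) (a (b (l 64) (l 64)) (b (l 64) (l 64))))) (a (c (a (b (l 64) (l 64)) (b (l 64) (l 64))) (a (b (l 64) (l 64)) (b (l 64) (l 64)))) (c (a (b (l 64) (l 64)) (b (l 64) (l 64))) (a (b (l 64) (l 64)) (b (l 64) (l 64)))))) (c (a (c (a (b (a (l 64) (l 64)) (a (l 64) (l 64))) (b (l 64) (a (l 64) (l 64)))) (a (b (l 64) (a (l 64) (l 64))) (b (l 64) (l 64)))) (c (a (b (l 64) (l 64)) (b (l 64) (l 64))) (a (b (l 64) (l 64)) (b (l 64) (l 64))))) (a (c (a (b (l 64) (l 64)) (b (l 64) (l 64))) (a (b (l 64) (l 64)) (b (l 64) (l 64)))) (c (a (b (l 64) (l 64)) (b (l 64) (l 64))) (a (b (l 64) (l 64))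 (b (l 64) (l 64))))))), by decide +kernel⟩

def h56_0Bm : ∃ t, chk3 f0Bm t 33 14 17 = true :=
  ⟨(b (c (a (c (a (b (l 64) (l 64)) (b (l 64) (l 64))) (a (b (l 64) (l 64)) (b (l 64) (l 64)))) (c (a (b (l 64) (l 64)) (b (l 64) (l 64))) (b (l 64) (a (l 64) (l 64))))) (a (c (a (b (l 64) (l 64)) (b (l 64) (l 64))) (b (l 64) (a (l 64) (l 64)))) (c (b (l 64) (l 64)) (a (l 64) (l 64))))) (c (a (c (a (b (l 64) (l 64)) (b (l 64) (l 64))) (a (b (l 64) (l 64)) (b (l 64) (l 64)))) (c (a (b (l 64) (l 64)) (b (l 64) (l 64))) (a (b (l 64) (l 64)) (b (l 64) (l 64))))) (a (c (a (b (l 64) (l 64)) (b (l 64) (l 64))) (a (b (l 64) (l 64)) (b (l 64) (l 64)))) (c (a (b (l 64) (l 64)) (b (l 64) (l 64))) (b (l 64) (a (l 64) (l 64))))))), by decide +kernel⟩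

def h57_0Bm : ∃ t, chk3 f0Bm t 32 30 16 = true :=
  ⟨(c (a (c (a (b (c (a (l 64) (l 64)) (a (l 64) (l 64))) (c (a (l 64) (l 64)) (a (l 64) (l 64)))) (b (c (a (l 64) (l 64)) (a (l 64) (l 64))) (c (a (l 64) (l 64)) (a (l 64) (l 64))))) (a (b (c (a (l 64) (l 64)) (a (l 64) (l 64))) (c (a (l 64) (l 64)) (a (l 64) (l 64)))) (b (c (a (l 64) (l 64)) (a (l 64) (l 64))) (c (a (l 64) (l 64)) (a (l 64) (l 64)))))) (c (a (b (c (a (l 64) (l 64)) (a (l 64) (l 64))) (c (a (l 64) (l 64)) (a (l 64) (l 64)))) (b (a (l 64) (l 64)) (c (a (l 64) (l 64)) (l 64)))) (a (b (a (l 64) (l 64)) (c (a (l 64) (l 64)) (l 64))) (b (a (l 64) (l 64)) (a (l 64) (l 64)))))) (a (c (a (b (c (a (l 64) (l 64)) (l 64)) (c (a (l 64) (l 64)) (a (l 64) (l 64)))) (b (a (l 64) (l 64)) (c (a (l 64) (l 64)) (l 64)))) (a (b (a (l 64) (l 64)) (c (a (l 64) (l 64)) (l 64))) (b (a (l 64) (l 64))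 (a (l 64) (l 64))))) (c (a (b (a (l 64) (l 64)) (a (l 64) (l 64))) (b (a (l 64) (l 64)) (a (l 64) (l 64)))) (a (b (a (l 64) (l 64)) (a (l 64) (l 64))) (b (a (l 64) (l 64)) (a (l 64) (l 64))))))), by decide +kernel⟩

def h58_0Bm : ∃ t, chk3 f0Bm t 32 31 32 = true :=
  ⟨(a (c (a (b (c (a (l 64) (l 64)) (a (l 64) (l 64))) (c (a (b (l 64) (l 64)) (b (l 64) (l 64))) (a (b (l 64) (l 64)) (l 64)))) (b (c (a (l 64) (l 64)) (a (l 64) (l 64))) (c (a (l 64) (l 64)) (a (l 64) (l 64))))) (a (b (c (a (l 64) (l 64)) (a (l 64) (l 64))) (c (a (l 64) (l 64)) (a (l 64) (l 64)))) (b (c (a (l 64) (l 64)) (a (l 64) (l 64))) (c (a (l 64) (l 64)) (a (l 64) (l 64)))))) (c (a (b (c (a (l 64) (l 64)) (a (l 64) (l 64))) (c (a (l 64) (l 64)) (a (l 64) (l 64)))) (b (c (a (l 64) (l 64)) (a (l 64) (l 64))) (c (a (l 64) (l 64)) (a (l 64) (l 64))))) (a (b (c (a (l 64) (l 64))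 (a (l 64) (l 64))) (c (a (l 64) (l 64)) (a (l 64) (l 64)))) (b (c (a (l 64) (l 64)) (l 64)) (c (a (l 64) (l 64)) (a (l 64) (l 64))))))), by decide +kernel⟩

def h59_0Bm : ∃ t, chk3 f0Bm t 32 31 33 = true :=
  ⟨(a (c (a (b (c (a (l 64) (l 64)) (a (l 64) (l 64))) (c (a (l 64) (l 64)) (a (l 64) (l 64)))) (b (c (a (l 64) (l 64)) (a (l 64) (l 64))) (c (a (l 64) (l 64)) (a (l 64) (l 64))))) (a (b (c (a (l 64) (l 64)) (a (l 64) (l 64))) (c (a (l 64) (l 64)) (a (l 64) (l 64)))) (b (c (a (l 64) (l 64)) (l 64)) (c (a (l 64) (l 64)) (a (l 64) (l 64)))))) (c (a (b (c (a (l 64) (l 64)) (l 64)) (c (a (l 64) (l 64)) (a (l 64) (l 64)))) (b (a (l 64) (l 64)) (a (l 64) (l 64)))) (a (b (a (l 64) (l 64)) (a (l 64) (l 64))) (b (a (l 64) (l 64)) (a (l 64) (l 64)))))), by decide +kernel⟩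

def h60_0Bm : ∃ t, chk3 f0Bm t 33 15 32 = true :=
  ⟨(b (a (c (a (b (a (l 64) (l 64)) (a (l 64) (l 64))) (b (a (l 64) (l 64)) (a (l 64) (l 64)))) (a (b (a (l 64) (l 64)) (a (l 64) (l 64))) (b (a (l 64) (l 64)) (a (l 64) (l 64))))) (c (a (b (a (l 64) (l 64)) (a (l 64) (l 64))) (b (l 64) (a (l 64) (l 64)))) (a (b (l 64) (a (l 64) (l 64))) (b (l 64) (l 64))))) (a (c (a (b (c (a (l 64) (l 64)) (l 64)) (c (a (l 64) (l 64)) (a (l 64) (l 64)))) (b (a (l 64) (l 64)) (a (l 64) (l 64)))) (a (b (a (l 64) (l 64)) (a (l 64) (l 64))) (b (a (l 64) (l 64)) (a (l 64) (l 64))))) (c (a (b (a (l 64) (l 64)) (a (l 64) (l 64))) (b (a (l 64) (l 64)) (a (l 64) (l 64)))) (a (b (a (l 64) (l 64)) (a (l 64) (l 64))) (b (a (l 64) (l 64)) (a (l 64) (l 64))))))), by decide +kernel⟩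

def h61_0Bm : ∃ t, chk3 f0Bm t 33 15 33 = true :=
  ⟨(b (a (c (a (b (a (l 64) (l 64)) (a (l 64) (l 64))) (b (l 64) (a (l 64) (l 64)))) (a (b (l 64) (a (l 64) (l 64))) (b (l 64) (l 64)))) (c (a (b (l 64) (l 64)) (b (l 64) (l 64))) (a (b (l 64) (l 64)) (b (l 64) (l 64))))) (a (c (a (b (a (l 64) (l 64)) (a (l 64) (l 64))) (b (a (l 64) (l 64)) (a (l 64) (l 64)))) (a (b (a (l 64) (l 64)) (a (l 64) (l 64))) (b (a (l 64) (l 64)) (a (l 64) (l 64))))) (c (a (b (a (l 64) (l 64)) (a (l 64) (l 64))) (b (l 64) (a (l 64) (l 64)))) (a (b (l 64) (a (l 64) (l 64))) (b (l 64) (l 64)))))), by decide +kernel⟩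

def h62_0Bm : ∃ t, chk3 f0Bm t 32 30 17 = true :=
  ⟨(c (a (c (a (b (a (l 64) (l 64)) (a (l 64) (l 64))) (b (a (l 64) (l 64)) (a (l 64) (l 64)))) (a (b (a (l 64) (l 64)) (a (l 64) (l 64))) (b (a (l 64) (l 64)) (a (l 64) (l 64))))) (c (a (b (a (l 64) (l 64)) (a (l 64) (l 64))) (b (l 64) (a (l 64) (l 64)))) (a (b (l 64) (l 64)) (b (l 64) (l 64))))) (a (c (a (b (a (l 64) (l 64)) (a (l 64) (l 64))) (b (l 64) (l 64))) (a (b (l 64) (l 64)) (b (l 64) (l 64)))) (c (a (b (l 64) (l 64)) (b (l 64) (l 64))) (a (b (l 64) (l 64)) (b (l 64) (l 64)))))), by decide +kernel⟩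

def h63_0Bm : ∃ t, chk3 f0Bm t 32 31 17 = true :=
  ⟨(c (a (c (a (b (c (a (l 64) (l 64)) (l 64)) (c (a (l 64) (l 64)) (a (l 64) (l 64)))) (b (a (l 64) (l 64)) (a (l 64) (l 64)))) (a (b (a (l 64) (l 64)) (a (l 64) (l 64))) (b (a (l 64) (l 64)) (a (l 64) (l 64))))) (c (a (b (a (l 64) (l 64)) (a (l 64) (l 64))) (b (a (l 64) (l 64)) (a (l 64) (l 64)))) (a (b (a (l 64) (l 64)) (a (l 64) (l 64))) (b (a (l 64) (l 64)) (a (l 64) (l 64)))))) (a (c (a (b (a (l 64) (l 64)) (a (l 64) (l 64))) (b (a (l 64) (l 64)) (a (l 64) (l 64)))) (a (b (a (l 64) (l 64)) (a (l 64) (l 64))) (b (l 64) (a (l 64) (l 64))))) (c (a (b (l 64) (a (l 64) (l 64))) (b (l 64) (l 64))) (a (b (l 64) (l 64)) (b (l 64) (l 64)))))), by decide +kernel⟩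

def h64_0Bm : ∃ t, chk3 f0Bm t 33 15 17 = true :=
  ⟨(b (c (a (c (a (b (l 64) (l 64)) (b (l 64) (l 64))) (a (b (l 64) (l 64)) (b (l 64) (l 64)))) (c (a (b (l 64) (l 64)) (b (l 64) (l 64))) (a (b (l 64) (l 64)) (b (l 64) (l 64))))) (a (c (a (b (l 64) (l 64)) (b (l 64) (l 64))) (a (b (l 64) (l 64)) (b (l 64) (l 64)))) (c (a (b (l 64) (l 64)) (b (l 64) (l 64))) (a (b (l 64) (l 64)) (b (l 64) (l 64)))))) (c (a (c (a (b (a (l 64) (l 64)) (a (l 64) (l 64))) (b (l 64) (a (l 64) (l 64)))) (a (b (l 64) (l 64)) (b (l 64) (l 64)))) (c (a (b (l 64) (l 64)) (b (l 64) (l 64))) (a (b (l 64) (l 64)) (b (l 64) (l 64))))) (a (c (a (b (l 64) (l 64)) (b (l 64) (l 64))) (a (b (l 64) (l 64)) (b (l 64) (l 64)))) (c (a (b (l 64) (l 64)) (b (l 64) (l 64))) (a (b (l 64) (l 64)) (b (l 64) (l 64))))))), by decide +kernel⟩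

def h65_0Bm : ∃ t, chk3 f0Bm t 17 14 16 = true :=
  ⟨(a (b (c (a (c (a (b (l 64) (l 64)) (b (l 64) (l 64))) (a (b (l 64) (l 64)) (b (l 64) (l 64)))) (c (a (b (l 64) (l 64)) (b (l 64) (l 64))) (b (l 64) (a (l 64) (l 64))))) (a (c (a (b (l 64) (l 64)) (b (l 64) (l 64))) (b (l 64) (a (l 64) (l 64)))) (c (b (l 64) (l 64)) (a (l 64) (l 64))))) (c (a (c (a (b (l 64) (l 64)) (b (l 64) (l 64))) (a (b (l 64) (l 64)) (b (l 64) (l 64)))) (c (a (b (l 64) (l 64)) (b (l 64) (l 64))) (a (b (l 64) (l 64)) (b (l 64) (l 64))))) (a (c (a (b (l 64) (l 64)) (b (l 64) (l 64))) (a (b (l 64) (l 64)) (b (l 64) (l 64)))) (c (a (b (l 64) (l 64)) (b (l 64) (l 64))) (b (l 64) (a (l 64) (l 64))))))) (b (c (a (c (b (l 64) (a (l 64) (l 64))) (a (l 64) (l 64))) (c (a (l 64) (l 64)) (a (l 64) (l 64)))) (a (c (a (l 64) (l 64)) (a (l 64) (l 64))) (c (a (l 64) (l 64)) (a (l 64)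 (l 64))))) (c (a (c (a (b (l 64) (l 64)) (b (l 64) (l 64))) (a (b (l 64) (l 64)) (b (l 64) (l 64)))) (c (a (b (l 64) (l 64)) (l 64)) (a (l 64) (l 64)))) (a (c (b (l 64) (l 64)) (a (l 64) (l 64))) (c (a (l 64) (l 64)) (a (l 64) (l 64))))))), by decide +kernel⟩

def h66_0Bm : ∃ t, chk3 f0Bm t 17 14 17 = true :=
  ⟨(a (b (c (a (c (b (l 64) (l 64)) (a (l 64) (l 64))) (c (a (l 64) (l 64)) (a (l 64) (l 64)))) (a (c (a (l 64) (l 64)) (a (l 64) (l 64))) (c (a (l 64) (l 64)) (a (l 64) (l 64))))) (c (a (c (a (b (l 64) (l 64)) (b (l 64) (l 64))) (b (l 64) (a (l 64) (l 64)))) (c (b (l 64) (l 64)) (a (l 64) (l 64)))) (a (c (b (l 64) (l 64)) (a (l 64) (l 64))) (c (a (l 64) (l 64)) (a (l 64) (l 64)))))) (b (c (a (c (a (l 64) (l 64)) (a (l 64) (l 64))) (b (l 64) (a (l 64) (l 64)))) (a (b (l 64) (a (l 64) (l 64))) (a (l 64) (l 64)))) (c (a (c (a (l 64) (l 64))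 (a (l 64) (l 64))) (c (a (l 64) (l 64)) (a (l 64) (l 64)))) (a (c (a (l 64) (l 64)) (a (l 64) (l 64))) (b (l 64) (a (l 64) (l 64))))))), by decide +kernel⟩

def h67_0Bm : ∃ t, chk3 f0Bm t 34 15 16 = true :=
  ⟨(b (c (a (c (a (b (l 64) (l 64)) (b (l 64) (l 64))) (a (b (l 64) (l 64)) (b (l 64) (l 64)))) (c (a (b (l 64) (l 64)) (b (l 64) (l 64))) (a (b (l 64) (l 64)) (b (l 64) (l 64))))) (a (c (a (b (l 64) (l 64)) (b (l 64) (l 64))) (a (b (l 64) (l 64)) (b (l 64) (l 64)))) (c (a (b (l 64) (l 64)) (b (l 64) (l 64))) (a (b (l 64) (l 64)) (b (l 64) (l 64)))))) (c (a (c (a (b (a (l 64) (l 64)) (a (l 64) (l 64))) (b (l 64) (a (l 64) (l 64)))) (a (b (l 64) (a (l 64) (l 64))) (b (l 64) (l 64)))) (c (a (b (l 64) (l 64)) (b (l 64) (l 64))) (a (b (l 64) (l 64)) (b (l 64) (l 64))))) (a (c (a (b (l 64) (l 64)) (b (l 64) (l 64))) (a (b (l 64) (l 64)) (b (l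 64) (l 64)))) (c (a (b (l 64) (l 64)) (b (l 64) (l 64))) (a (b (l 64) (l 64)) (b (l 64) (l 64))))))), by decide +kernel⟩

def h68_0Bm : ∃ t, chk3 f0Bm t 35 15 16 = true :=
  ⟨(b (c (a (c (a (b (l 64) (l 64)) (b (l 64) (l 64))) (a (b (l 64) (l 64)) (b (l 64) (l 64)))) (c (a (b (l 64) (l 64)) (b (l 64) (l 64))) (b (l 64) (a (l 64) (l 64))))) (a (c (a (b (l 64) (l 64)) (b (l 64) (l 64))) (a (b (l 64) (l 64)) (l 64))) (c (b (l 64) (l 64)) (a (l 64) (l 64))))) (c (a (c (a (b (l 64) (l 64)) (b (l 64) (l 64))) (a (b (l 64) (l 64)) (b (l 64) (l 64)))) (c (a (b (l 64) (l 64)) (b (l 64) (l 64))) (a (b (l 64) (l 64)) (b (l 64) (l 64))))) (a (c (a (b (l 64) (l 64)) (b (l 64) (l 64))) (a (b (l 64) (l 64)) (b (l 64) (l 64)))) (c (a (b (l 64) (l 64)) (b (l 64) (l 64))) (b (l 64) (l 64)))))), by decide +kernel⟩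

def h69_0Bm : ∃ t, chk3 f0Bm t 17 15 17 = true :=
  ⟨(a (b (c (a (c (a (b (l 64) (l 64)) (b (l 64) (l 64))) (a (b (l 64) (l 64)) (b (l 64) (l 64)))) (c (a (b (l 64) (l 64)) (b (l 64) (l 64))) (a (b (l 64) (l 64)) (l 64)))) (a (c (a (b (l 64) (l 64)) (b (l 64) (l 64))) (a (b (l 64) (l 64)) (l 64))) (c (a (l 64) (l 64)) (a (l 64) (l 64))))) (c (a (c (a (b (l 64) (l 64)) (b (l 64) (l 64))) (a (b (l 64) (l 64)) (b (l 64) (l 64)))) (c (a (b (l 64) (l 64)) (b (l 64) (l 64))) (a (b (l 64) (l 64)) (b (l 64) (l 64))))) (a (c (a (b (l 64) (l 64)) (b (l 64) (l 64))) (a (b (l 64) (l 64)) (b (l 64) (l 64)))) (c (a (b (l 64) (l 64)) (b (l 64) (l 64))) (b (l 64) (l 64)))))) (b (c (a (c (a (l 64) (l 64)) (a (l 64) (l 64))) (c (a (l 64) (l 64)) (a (l 64) (l 64)))) (a (c (a (l 64) (l 64)) (a (l 64) (l 64))) (c (a (l 64) (l 64)) (a (l 64) (l 64))))) (c (a (c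 (a (b (l 64) (l 64)) (b (l 64) (l 64))) (b (l 64) (l 64))) (c (a (l 64) (l 64)) (a (l 64) (l 64)))) (a (c (a (l 64) (l 64)) (a (l 64) (l 64))) (c (a (l 64) (l 64)) (a (l 64) (l 64))))))), by decide +kernel⟩

def h70_0Bm : ∃ t, chk3 f0Bm t 16 14 18 = true :=
  ⟨(a (b (c (a (c (a (b (l 64) (l 64)) (b (l 64) (l 64))) (a (b (l 64) (l 64)) (b (l 64) (l 64)))) (c (b (l 64) (a (l 64) (l 64))) (b (l 64) (l 64)))) (a (c (b (l 64) (a (l 64) (l 64))) (b (l 64) (l 64))) (c (a (l 64) (l 64)) (a (l 64) (l 64))))) (c (a (c (a (b (l 64) (l 64)) (b (l 64) (l 64))) (a (b (l 64) (l 64)) (b (l 64) (l 64)))) (c (a (b (l 64) (l 64)) (b (l 64) (l 64))) (a (b (l 64) (l 64)) (b (l 64) (l 64))))) (a (c (a (b (l 64) (l 64)) (b (l 64) (l 64))) (a (b (l 64) (l 64)) (b (l 64) (l 64)))) (c (b (l 64) (a (l 64) (l 64))) (b (l 64) (l 64)))))) (b (c (a (c (a (l 64) (l 64)) (a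 (l 64) (l 64))) (c (a (l 64) (l 64)) (a (l 64) (l 64)))) (a (c (a (l 64) (l 64)) (a (l 64) (l 64))) (c (a (l 64) (l 64)) (a (l 64) (l 64))))) (c (a (c (a (b (l 64) (l 64)) (b (l 64) (l 64))) (a (b (l 64) (l 64)) (l 64))) (c (a (l 64) (l 64)) (a (l 64) (l 64)))) (a (c (a (l 64) (l 64)) (a (l 64) (l 64))) (c (a (l 64) (l 64)) (a (l 64) (l 64))))))), by decide +kernel⟩

def h71_0Bm : ∃ t, chk3 f0Bm t 16 14 19 = true :=
  ⟨(a (b (c (a (c (a (l 64) (l 64)) (a (l 64) (l 64))) (c (a (l 64) (l 64)) (a (l 64) (l 64)))) (a (c (a (l 64) (l 64)) (a (l 64) (l 64))) (c (a (l 64) (l 64)) (a (l 64) (l 64))))) (c (a (c (b (l 64) (a (l 64) (l 64))) (b (l 64) (l 64))) (c (a (l 64) (l 64)) (a (l 64) (l 64)))) (a (c (a (l 64) (l 64)) (a (l 64) (l 64))) (c (a (l 64) (l 64)) (a (l 64) (l 64)))))) (b (c (a (c (a (l 64) (l 64)) (a (l 64) (l 64))) (c (a (l 64) (l 64))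 (a (l 64) (l 64)))) (a (c (a (l 64) (l 64)) (a (l 64) (l 64))) (b (l 64) (l 64)))) (c (a (c (a (l 64) (l 64)) (a (l 64) (l 64))) (c (a (l 64) (l 64)) (a (l 64) (l 64)))) (a (c (a (l 64) (l 64)) (a (l 64) (l 64))) (c (a (l 64) (l 64)) (a (l 64) (l 64))))))), by decide +kernel⟩

def h72_0Bm : ∃ t, chk3 f0Bm t 32 15 18 = true :=
  ⟨(b (c (a (c (a (b (l 64) (l 64)) (b (l 64) (l 64))) (a (b (l 64) (l 64)) (b (l 64) (l 64)))) (c (a (b (l 64) (l 64)) (b (l 64) (l 64))) (a (b (l 64) (l 64)) (b (l 64) (l 64))))) (a (c (a (b (l 64) (l 64)) (b (l 64) (l 64))) (a (b (l 64) (l 64)) (b (l 64) (l 64)))) (c (a (b (l 64) (l 64)) (b (l 64) (l 64))) (a (b (l 64) (l 64)) (b (l 64) (l 64)))))) (c (a (c (a (b (l 64) (a (l 64) (l 64))) (b (l 64) (l 64))) (a (b (l 64) (l 64)) (b (l 64) (l 64)))) (c (a (b (l 64) (l 64)) (b (l 64) (l 64))) (a (b (l 64) (l 64)) (b (l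 64) (l 64))))) (a (c (a (b (l 64) (l 64)) (b (l 64) (l 64))) (a (b (l 64) (l 64)) (b (l 64) (l 64)))) (c (a (b (l 64) (l 64)) (b (l 64) (l 64))) (a (b (l 64) (l 64)) (b (l 64) (l 64))))))), by decide +kernel⟩

def h73_0Bm : ∃ t, chk3 f0Bm t 33 15 18 = true :=
  ⟨(b (c (a (c (a (b (l 64) (l 64)) (b (l 64) (l 64))) (a (b (l 64) (l 64)) (b (l 64) (l 64)))) (c (a (b (l 64) (l 64)) (b (l 64) (l 64))) (a (b (l 64) (l 64)) (l 64)))) (a (c (a (b (l 64) (l 64)) (b (l 64) (l 64))) (a (b (l 64) (l 64)) (l 64))) (c (a (l 64) (l 64)) (a (l 64) (l 64))))) (c (a (c (a (b (l 64) (l 64)) (b (l 64) (l 64))) (a (b (l 64) (l 64)) (b (l 64) (l 64)))) (c (a (b (l 64) (l 64)) (b (l 64) (l 64))) (a (b (l 64) (l 64)) (b (l 64) (l 64))))) (a (c (a (b (l 64) (l 64)) (b (l 64) (l 64))) (a (b (l 64) (l 64)) (b (l 64) (l 64)))) (c (b (l 64) (a (l 64) (l 64))) (b (l 64) (l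 64)))))), by decide +kernel⟩

def h74_0Bm : ∃ t, chk3 f0Bm t 16 15 19 = true :=
  ⟨(a (b (c (a (c (a (b (l 64) (l 64)) (b (l 64) (l 64))) (a (b (l 64) (l 64)) (b (l 64) (l 64)))) (c (b (l 64) (a (l 64) (l 64))) (b (l 64) (l 64)))) (a (c (b (l 64) (a (l 64) (l 64))) (b (l 64) (l 64))) (c (a (l 64) (l 64)) (a (l 64) (l 64))))) (c (a (c (a (b (l 64) (l 64)) (b (l 64) (l 64))) (a (b (l 64) (l 64)) (b (l 64) (l 64)))) (c (a (b (l 64) (l 64)) (b (l 64) (l 64))) (a (b (l 64) (l 64)) (b (l 64) (l 64))))) (a (c (a (b (l 64) (l 64)) (b (l 64) (l 64))) (a (b (l 64) (l 64)) (b (l 64) (l 64)))) (c (b (l 64) (a (l 64) (l 64))) (b (l 64) (l 64)))))) (b (c (a (c (a (l 64) (l 64)) (a (l 64) (l 64))) (c (a (l 64) (l 64)) (a (l 64) (l 64)))) (a (c (a (l 64) (l 64)) (a (l 64) (l 64))) (c (a (l 64) (l 64)) (a (l 64) (l 64))))) (c (a (c (b (l 64) (a (l 64) (l 64)))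 (b (l 64) (l 64))) (c (a (l 64) (l 64)) (a (l 64) (l 64)))) (a (c (a (l 64) (l 64)) (a (l 64) (l 64))) (c (a (l 64) (l 64)) (a (l 64) (l 64))))))), by decide +kernel⟩

def h75_0Bm : ∃ t, chk3 f0Bm t 17 14 9 = true :=
  ⟨(c (a (b (c (a (c (a (l 64) (l 64)) (a (l 64) (l 64))) (b (l 64) (a (l 64) (l 64)))) (a (b (l 64) (a (l 64) (l 64))) (a (l 64) (l 64)))) (c (a (c (a (l 64) (l 64)) (a (l 64) (l 64))) (c (a (l 64) (l 64)) (a (l 64) (l 64)))) (a (c (a (l 64) (l 64)) (a (l 64) (l 64))) (b (l 64) (a (l 64) (l 64)))))) (b (c (a (a (l 64) (l 64)) (a (l 64) (l 64))) (a (a (l 64) (l 64)) (a (l 64) (l 64)))) (c (a (b (l 64) (a (l 64) (l 64))) (a (l 64) (l 64))) (a (a (l 64) (l 64)) (a (l 64) (l 64)))))) (a (b (c (a (b (l 64) (l 64)) (a (l 64) (l 64))) (a (a (l 64) (l 64)) (a (l 64) (l 64)))) (c (a (b (l 64) (a (l 64) (l 64))) (c (l 64) (l 64))) (a (b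 (l 64) (l 64)) (a (l 64) (l 64))))) (b (c (a (a (l 64) (l 64)) (a (l 64) (l 64))) (a (a (l 64) (l 64)) (a (l 64) (l 64)))) (c (a (a (l 64) (l 64)) (a (l 64) (l 64))) (a (a (l 64) (l 64)) (a (l 64) (l 64))))))), by decide +kernel⟩

def h76_0Bm : ∃ t, chk3 f0Bm t 17 15 18 = true :=
  ⟨(a (b (c (a (c (a (l 64) (l 64)) (a (l 64) (l 64))) (c (a (l 64) (l 64)) (a (l 64) (l 64)))) (a (c (a (l 64) (l 64)) (a (l 64) (l 64))) (c (a (l 64) (l 64)) (a (l 64) (l 64))))) (c (a (c (a (b (l 64) (l 64)) (b (l 64) (l 64))) (b (l 64) (l 64))) (c (a (l 64) (l 64)) (a (l 64) (l 64)))) (a (c (a (l 64) (l 64)) (a (l 64) (l 64))) (c (a (l 64) (l 64)) (a (l 64) (l 64)))))) (b (c (a (c (a (l 64) (l 64)) (a (l 64) (l 64))) (c (a (l 64) (l 64)) (l 64))) (a (c (a (l 64) (l 64)) (l 64)) (a (l 64) (l 64)))) (c (a (c (a (l 64) (l 64)) (a (l 64) (l 64))) (c (a (l 64) (l 64))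 (a (l 64) (l 64)))) (a (c (a (l 64) (l 64)) (a (l 64) (l 64))) (b (l 64) (l 64)))))), by decide +kernel⟩

def h77_0Bm : ∃ t, chk3 f0Bm t 17 15 19 = true :=
  ⟨(a (b (c (a (c (a (l 64) (l 64)) (a (l 64) (l 64))) (b (l 64) (a (l 64) (l 64)))) (a (c (a (l 64) (l 64)) (a (l 64) (l 64))) (b (l 64) (l 64)))) (c (a (c (a (l 64) (l 64)) (a (l 64) (l 64))) (c (a (l 64) (l 64)) (a (l 64) (l 64)))) (a (c (a (l 64) (l 64)) (a (l 64) (l 64))) (c (a (l 64) (l 64)) (a (l 64) (l 64)))))) (b (c (a (c (l 64) (l 64)) (a (l 64) (l 64))) (a (a (l 64) (l 64)) (a (l 64) (l 64)))) (c (a (b (l 64) (l 64)) (a (l 64) (l 64))) (a (c (l 64) (l 64)) (a (l 64) (l 64)))))), by decide +kernel⟩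

def h78_0Bm : ∃ t, chk3 f0Bm t 18 14 8 = true :=
  ⟨(c (a (b (c (a (c (a (l 64) (l 64)) (a (l 64) (l 64))) (c (a (l 64) (l 64)) (a (l 64) (l 64)))) (a (c (a (l 64) (l 64)) (a (l 64) (l 64))) (c (l 64) (l 64)))) (c (a (c (a (l 64) (l 64)) (a (l 64) (l 64))) (c (a (l 64) (l 64)) (a (l 64) (l 64)))) (a (c (a (l 64) (l 64)) (a (l 64) (l 64))) (b (l 64) (a (l 64) (l 64)))))) (b (c (a (b (l 64) (l 64)) (a (l 64) (l 64))) (a (a (l 64) (l 64)) (a (l 64) (l 64)))) (c (a (b (l 64) (a (l 64) (l 64))) (a (l 64) (l 64))) (a (a (l 64) (l 64)) (a (l 64) (l 64)))))) (a (b (c (a (c (l 64) (l 64)) (a (l 64) (l 64))) (a (a (l 64) (l 64)) (a (l 64) (l 64)))) (c (a (b (l 64) (a (l 64) (l 64))) (a (l 64) (l 64))) (a (a (l 64) (l 64)) (a (l 64) (l 64))))) (b (a (c (a (l 64) (l 64)) (a (l 64) (l 64))) (c (a (l 64) (l 64)) (a (l 64) (l 64)))) (c (a (a (l 64) (l 64))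 (a (l 64) (l 64))) (a (a (l 64) (l 64)) (a (l 64) (l 64))))))), by decide +kernel⟩

def h79_0Bm : ∃ t, chk3 f0Bm t 18 15 8 = true :=
  ⟨(c (a (b (c (a (c (b (l 64) (l 64)) (a (l 64) (l 64))) (c (a (l 64) (l 64)) (a (l 64) (l 64)))) (a (c (a (l 64) (l 64)) (a (l 64) (l 64))) (c (a (l 64) (l 64)) (a (l 64) (l 64))))) (c (a (c (a (b (l 64) (l 64)) (b (l 64) (l 64))) (b (l 64) (l 64))) (c (a (l 64) (l 64)) (a (l 64) (l 64)))) (a (c (a (l 64) (l 64)) (a (l 64) (l 64))) (c (a (l 64) (l 64)) (a (l 64) (l 64)))))) (c (a (b (c (a (l 64) (l 64)) (a (l 64) (l 64))) (c (a (l 64) (l 64)) (a (l 64) (l 64)))) (b (b (l 64) (l 64)) (c (a (l 64) (l 64)) (a (l 64) (l 64))))) (a (b (b (l 64) (l 64)) (c (a (l 64) (l 64)) (a (l 64) (l 64)))) (b (a (l 64) (l 64)) (a (l 64) (l 64)))))) (a (b (c (a (c (a (l 64) (l 64)) (a (l 64) (l 64))) (c (a (l 64) (l 64)) (l 64)))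 (a (c (a (l 64) (l 64)) (l 64)) (a (l 64) (l 64)))) (c (a (c (a (l 64) (l 64)) (a (l 64) (l 64))) (c (a (l 64) (l 64)) (a (l 64) (l 64)))) (a (c (a (l 64) (l 64)) (a (l 64) (l 64))) (c (l 64) (l 64))))) (b (c (a (a (l 64) (l 64)) (a (l 64) (l 64))) (a (a (l 64) (l 64)) (a (l 64) (l 64)))) (c (a (a (l 64) (l 64)) (a (l 64) (l 64))) (a (a (l 64) (l 64)) (a (l 64) (l 64))))))), by decide +kernel⟩

def h80_0Bm : ∃ t, chk3 f0Bm t 18 14 9 = true :=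
  ⟨(a (c (b (c (a (a (l 64) (l 64)) (a (l 64) (l 64))) (a (a (l 64) (l 64)) (a (l 64) (l 64)))) (c (a (a (l 64) (l 64)) (a (l 64) (l 64))) (a (a (l 64) (l 64)) (a (l 64) (l 64))))) (b (a (c (a (l 64) (l 64)) (a (l 64) (l 64))) (c (a (l 64) (l 64)) (l 64))) (a (c (a (l 64) (l 64)) (l 64)) (c (l 64) (a (l 64) (l 64)))))) (c (b (a (c (a (l 64) (l 64)) (a (l 64) (l 64))) (c (a (l 64) (l 64)) (l 64))) (a (c (a (l 64) (l 64)) (l 64)) (c (l 64) (l 64)))) (b (a (c (l 64) (l 64)) (c (l 64) (l 64))) (a (c (l 64) (a (l 64) (l 64))) (c (l 64) (l 64)))))), by decide +kernel⟩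

def h81_0Bm : ∃ t, chk3 f0Bm t 18 15 9 = true :=
  ⟨(c (a (b (c (a (a (l 64) (l 64)) (a (l 64) (l 64))) (a (a (l 64) (l 64)) (a (l 64) (l 64)))) (c (a (b (l 64) (l 64)) (a (l 64) (l 64))) (a (a (l 64) (l 64)) (a (l 64) (l 64))))) (b (a (c (a (l 64) (l 64)) (a (l 64) (l 64))) (c (l 64) (l 64))) (a (c (a (l 64) (l 64)) (a (l 64) (l 64))) (c (a (l 64) (l 64)) (l 64))))) (a (b (a (c (a (l 64) (l 64)) (a (l 64) (l 64))) (c (a (l 64) (l 64)) (l 64))) (c (a (a (l 64) (l 64)) (a (l 64) (l 64))) (a (a (l 64) (l 64)) (l 64)))) (b (a (c (l 64) (l 64)) (c (l 64) (l 64))) (a (c (l 64) (l 64)) (c (l 64) (l 64)))))), by decide +kernel⟩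

def h82_0Bm : ∃ t, chk3 f0Bm t 19 7 8 = true :=
  ⟨(b (a (c (b (a (c (a (l 64) (l 64)) (a (l 64) (l 64))) (c (a (l 64) (l 64)) (a (l 64) (l 64)))) (c (a (a (l 64) (l 64)) (a (l 64) (l 64))) (a (a (l 64) (l 64)) (a (l 64) (l 64))))) (b (a (c (a (l 64) (l 64)) (a (l 64) (l 64))) (c (a (l 64) (l 64)) (l 64))) (a (c (a (l 64) (l 64)) (l 64)) (c (l 64) (l 64))))) (c (b (a (c (a (l 64) (l 64)) (l 64)) (c (l 64) (l 64))) (a (c (a (l 64) (l 64)) (l 64)) (c (l 64) (l 64)))) (b (a (c (l 64) (l 64)) (c (l 64) (l 64))) (a (c (l 64) (l 64)) (c (l 64) (l 64)))))) (a (c (b (c (a (a (l 64) (l 64)) (a (l 64) (l 64))) (a (a (l 64) (l 64)) (a (l 64) (l 64)))) (a (c (a (l 64) (l 64)) (a (l 64) (l 64))) (c (a (l 64) (l 64)) (a (l 64) (l 64))))) (b (a (c (a (l 64) (l 64)) (l 64)) (c (l 64) (l 64))) (a (c (a (l 64) (l 64)) (a (l 64) (l 64))) (c (a (l 64) (l 64))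 (l 64))))) (c (b (a (c (a (l 64) (l 64)) (l 64)) (c (l 64) (l 64))) (a (c (a (l 64) (l 64)) (a (l 64) (l 64))) (c (l 64) (l 64)))) (b (a (c (l 64) (l 64)) (c (l 64) (l 64))) (a (c (l 64) (l 64)) (c (l 64) (l 64))))))), by decide +kernel⟩

def h83_0Bm : ∃ t, chk3 f0Bm t 19 7 9 = true :=
  ⟨(b (a (c (b (a (c (l 64) (l 64)) (c (l 64) (l 64))) (a (c (l 64) (l 64)) (c (l 64) (l 64)))) (b (a (l 64) (l 64)) (a (c (l 64) (l 64)) (c (l 64) (l 64))))) (c (b (a (l 64) (l 64)) (a (c (l 64) (l 64)) (c (l 64) (l 64)))) (b (a (l 64) (l 64)) (a (c (l 64) (l 64)) (l 64))))) (a (c (b (a (c (l 64) (l 64)) (c (l 64) (l 64))) (a (c (l 64) (l 64)) (c (l 64) (l 64)))) (b (a (c (l 64) (l 64)) (c (l 64) (l 64))) (a (c (l 64) (l 64)) (c (l 64) (l 64))))) (c (b (a (c (l 64) (l 64)) (c (l 64) (l 64))) (a (c (l 64) (l 64)) (c (l 64) (l 64)))) (b (a (c (l 64) (l 64)) (c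 (l 64) (l 64))) (a (c (l 64) (l 64)) (c (l 64) (l 64))))))), by decide +kernel⟩

def h84_0Bm : ∃ t, chk3 f0Bm t 16 14 10 = true :=
  ⟨(c (a (b (c (a (c (a (l 64) (l 64)) (a (l 64) (l 64))) (b (l 64) (a (l 64) (l 64)))) (a (b (l 64) (a (l 64) (l 64))) (b (l 64) (l 64)))) (c (a (c (a (l 64) (l 64)) (a (l 64) (l 64))) (c (a (l 64) (l 64)) (a (l 64) (l 64)))) (a (c (a (l 64) (l 64)) (a (l 64) (l 64))) (c (a (l 64) (l 64)) (a (l 64) (l 64)))))) (b (c (a (b (l 64) (l 64)) (a (l 64) (l 64))) (a (a (l 64) (l 64)) (a (l 64) (l 64)))) (c (a (c (a (l 64) (l 64)) (a (l 64) (l 64))) (b (l 64) (l 64))) (a (b (l 64) (l 64)) (a (l 64) (l 64)))))) (a (b (c (a (c (l 64) (l 64)) (a (l 64) (l 64))) (a (a (l 64) (l 64)) (a (l 64) (l 64)))) (c (a (c (a (l 64) (l 64)) (a (l 64) (l 64))) (b (l 64) (l 64))) (a (b (l 64) (l 64)) (a (l 64) (l 64))))) (b (c (a (a (l 64)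 (l 64)) (a (l 64) (l 64))) (a (b (l 64) (l 64)) (b (l 64) (l 64)))) (c (a (a (l 64) (l 64)) (a (l 64) (l 64))) (a (a (l 64) (l 64)) (a (l 64) (l 64))))))), by decide +kernel⟩

def h85_0Bm : ∃ t, chk3 f0Bm t 16 15 20 = true :=
  ⟨(a (b (c (a (c (a (l 64) (l 64)) (a (l 64) (l 64))) (c (a (l 64) (l 64)) (a (l 64) (l 64)))) (a (c (a (l 64) (l 64)) (a (l 64) (l 64))) (c (a (l 64) (l 64)) (a (l 64) (l 64))))) (c (a (c (b (l 64) (a (l 64) (l 64))) (b (l 64) (l 64))) (c (a (l 64) (l 64)) (a (l 64) (l 64)))) (a (c (a (l 64) (l 64)) (a (l 64) (l 64))) (c (a (l 64) (l 64)) (a (l 64) (l 64)))))) (b (c (a (c (a (l 64) (l 64)) (a (l 64) (l 64))) (c (a (l 64) (l 64)) (a (l 64) (l 64)))) (a (c (a (l 64) (l 64)) (a (l 64) (l 64))) (b (l 64) (l 64)))) (c (a (c (a (l 64) (l 64)) (a (l 64) (l 64))) (c (a (l 64) (l 64)) (a (l 64) (l 64)))) (a (c (a (l 64) (l 64))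 (a (l 64) (l 64))) (c (a (l 64) (l 64)) (a (l 64) (l 64))))))), by decide +kernel⟩

def h86_0Bm : ∃ t, chk3 f0Bm t 16 15 21 = true :=
  ⟨(a (b (c (a (c (a (l 64) (l 64)) (a (l 64) (l 64))) (c (a (l 64) (l 64)) (a (l 64) (l 64)))) (a (c (a (l 64) (l 64)) (a (l 64) (l 64))) (b (l 64) (l 64)))) (c (a (c (a (l 64) (l 64)) (a (l 64) (l 64))) (c (a (l 64) (l 64)) (a (l 64) (l 64)))) (a (c (a (l 64) (l 64)) (a (l 64) (l 64))) (c (a (l 64) (l 64)) (a (l 64) (l 64)))))) (b (c (a (b (l 64) (l 64)) (a (l 64) (l 64))) (a (a (l 64) (l 64)) (a (l 64) (l 64)))) (c (a (c (a (l 64) (l 64)) (a (l 64) (l 64))) (b (l 64) (l 64))) (a (b (l 64) (l 64)) (a (l 64) (l 64)))))), by decide +kernel⟩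

def h87_0Bm : ∃ t, chk3 f0Bm t 16 14 11 = true :=
  ⟨(c (a (b (c (a (b (l 64) (l 64)) (b (l 64) (l 64))) (a (b (l 64) (l 64)) (b (l 64) (l 64)))) (c (a (a (l 64) (l 64)) (a (l 64) (l 64))) (a (a (l 64) (l 64)) (a (l 64) (l 64))))) (b (a (c (b (l 64) (l 64)) (a (l 64) (l 64))) (c (a (l 64) (l 64)) (a (l 64) (l 64)))) (a (c (a (l 64) (l 64)) (a (l 64) (l 64))) (c (a (l 64) (l 64)) (a (l 64) (l 64)))))) (a (b (c (a (b (l 64) (l 64)) (b (l 64) (l 64))) (a (b (l 64) (l 64)) (a (l 64) (l 64)))) (a (c (a (l 64) (l 64)) (a (l 64) (l 64))) (c (a (l 64) (l 64)) (a (l 64) (l 64))))) (b (a (c (a (l 64) (l 64)) (l 64)) (c (l 64) (l 64))) (a (c (a (l 64) (l 64)) (b (l 64) (l 64))) (c (b (l 64) (l 64)) (b (l 64) (l 64))))))), by decide +kernel⟩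

def h88_0Bm : ∃ t, chk3 f0Bm t 16 15 11 = true :=
  ⟨(c (a (b (c (a (b (l 64) (l 64)) (a (l 64) (l 64))) (a (a (l 64) (l 64)) (a (l 64) (l 64)))) (c (a (c (a (l 64) (l 64)) (a (l 64) (l 64))) (b (l 64) (l 64))) (a (b (l 64) (l 64)) (a (l 64) (l 64))))) (b (a (c (a (l 64) (l 64)) (a (l 64) (l 64))) (c (a (l 64) (l 64)) (a (l 64) (l 64)))) (c (a (a (l 64) (l 64)) (a (l 64) (l 64))) (a (a (l 64) (l 64)) (a (l 64) (l 64)))))) (a (b (c (a (a (l 64) (l 64)) (a (l 64) (l 64))) (a (a (l 64) (l 64)) (a (l 64) (l 64)))) (c (a (a (l 64) (l 64)) (a (l 64) (l 64))) (a (a (l 64) (l 64)) (a (l 64) (l 64))))) (b (a (c (a (l 64) (l 64)) (a (l 64) (l 64))) (c (a (l 64) (l 64)) (a (l 64) (l 64)))) (a (c (a (l 64) (l 64)) (a (l 64) (l 64))) (c (a (l 64) (l 64)) (a (l 64) (l 64))))))), by decide +kernel⟩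

def h89_0Bm : ∃ t, chk3 f0Bm t 17 14 10 = true :=
  ⟨(c (a (b (c (a (a (l 64) (l 64)) (a (l 64) (l 64))) (a (a (l 64) (l 64)) (a (l 64) (l 64)))) (c (a (a (l 64) (l 64)) (a (l 64) (l 64))) (a (a (l 64) (l 64)) (a (l 64) (l 64))))) (b (a (c (a (l 64) (l 64)) (a (l 64) (l 64))) (c (a (l 64) (l 64)) (l 64))) (a (c (a (l 64) (l 64)) (a (l 64) (l 64))) (c (a (l 64) (l 64)) (a (l 64) (l 64)))))) (a (b (a (c (a (l 64) (l 64)) (a (l 64) (l 64))) (c (a (l 64) (l 64)) (a (l 64) (l 64)))) (a (c (a (l 64) (l 64)) (a (l 64) (l 64))) (c (a (l 64) (l 64)) (a (l 64) (l 64))))) (b (a (c (l 64) (l 64)) (c (l 64) (l 64))) (a (c (a (l 64) (l 64)) (a (l 64) (l 64))) (c (a (l 64) (l 64)) (a (l 64) (l 64))))))), by decide +kernel⟩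

def h90_0Bm : ∃ t, chk3 f0Bm t 17 15 10 = true :=
  ⟨(c (a (b (c (a (b (l 64) (l 64)) (a (l 64) (l 64))) (a (a (l 64) (l 64)) (a (l 64) (l 64)))) (c (a (c (a (l 64) (l 64)) (a (l 64) (l 64))) (c (l 64) (l 64))) (a (b (l 64) (l 64)) (a (l 64) (l 64))))) (b (c (a (a (l 64) (l 64)) (a (l 64) (l 64))) (a (a (l 64) (l 64)) (l 64))) (c (a (a (l 64) (l 64)) (a (l 64) (l 64))) (a (a (l 64) (l 64)) (a (l 64) (l 64)))))) (a (b (c (a (a (l 64) (l 64)) (a (l 64) (l 64))) (a (a (l 64) (l 64)) (a (l 64) (l 64)))) (c (a (a (l 64) (l 64)) (a (l 64) (l 64))) (a (a (l 64) (l 64)) (a (l 64) (l 64))))) (b (a (c (a (l 64) (l 64)) (a (l 64) (l 64))) (c (l 64) (l 64))) (a (c (a (l 64) (l 64)) (a (l 64) (l 64))) (c (l 64) (l 64)))))), by decide +kernel⟩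

def h91_0Bm : ∃ t, chk3 f0Bm t 17 14 11 = true :=
  ⟨(a (c (b (a (c (a (l 64) (l 64)) (l 64)) (c (l 64) (l 64))) (a (c (a (l 64) (l 64)) (a (l 64) (l 64))) (c (a (l 64) (l 64)) (a (l 64) (l 64))))) (b (a (c (l 64) (l 64)) (c (l 64) (l 64))) (a (c (b (l 64) (l 64)) (a (l 64) (l 64))) (c (a (l 64) (l 64)) (a (l 64) (l 64)))))) (c (b (c (a (l 64) (l 64)) (l 64)) (a (c (a (l 64) (l 64)) (a (l 64) (l 64))) (c (a (l 64) (l 64)) (l 64)))) (b (a (l 64) (l 64)) (a (c (a (l 64) (l 64)) (l 64)) (c (l 64) (l 64)))))), by decide +kernel⟩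

def h92_0Bm : ∃ t, chk3 f0Bm t 17 15 11 = true :=
  ⟨(c (a (b (a (c (a (l 64) (l 64)) (a (l 64) (l 64))) (c (a (l 64) (l 64)) (a (l 64) (l 64)))) (a (c (a (l 64) (l 64)) (a (l 64) (l 64))) (c (a (l 64) (l 64)) (a (l 64) (l 64))))) (b (a (c (a (l 64) (l 64)) (a (l 64) (l 64))) (c (a (l 64) (l 64)) (a (l 64) (l 64)))) (a (c (a (l 64) (l 64)) (a (l 64) (l 64))) (c (a (l 64) (l 64)) (l 64))))) (a (b (a (c (a (l 64) (l 64)) (a (l 64) (l 64))) (c (a (l 64) (l 64)) (a (l 64) (l 64)))) (a (c (a (l 64) (l 64)) (a (l 64) (l 64))) (c (a (l 64) (l 64)) (a (l 64) (l 64))))) (b (a (c (a (l 64) (l 64)) (b (l 64) (l 64))) (c (a (l 64) (l 64)) (a (l 64) (l 64)))) (a (c (a (l 64) (l 64)) (l 64)) (c (l 64) (l 64)))))), by decide +kernel⟩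

def h93_0Bm : ∃ t, chk3 f0Bm t 18 7 10 = true :=
  ⟨(b (a (c (b (a (c (l 64) (l 64)) (c (l 64) (l 64))) (a (c (a (l 64) (l 64)) (a (l 64) (l 64))) (c (a (l 64) (l 64)) (a (l 64) (l 64))))) (b (c (a (l 64) (l 64)) (l 64)) (a (c (a (l 64) (l 64)) (a (l 64) (l 64))) (c (a (l 64) (l 64)) (l 64))))) (c (b (a (c (l 64) (l 64)) (l 64)) (a (c (a (l 64) (l 64)) (l 64)) (c (l 64) (l 64)))) (b (a (l 64) (l 64)) (a (c (l 64) (l 64)) (c (l 64) (l 64)))))) (a (c (b (a (c (l 64) (l 64)) (c (l 64) (l 64))) (a (c (a (l 64) (l 64)) (l 64)) (c (l 64) (l 64)))) (b (a (c (l 64) (a (l 64) (l 64))) (c (a (l 64) (l 64)) (a (l 64) (l 64)))) (a (c (l 64) (l 64)) (c (l 64) (l 64))))) (c (b (a (c (l 64) (l 64)) (c (l 64) (a (l 64) (l 64)))) (a (c (l 64) (l 64)) (c (l 64) (l 64)))) (b (a (c (a (l 64) (l 64)) (a (l 64) (l 64))) (c (a (l 64) (l 64)) (a (l 64) (l 64)))) (a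 (c (l 64) (l 64)) (c (l 64) (l 64))))))), by decide +kernel⟩

def h94_0Bm : ∃ t, chk3 f0Bm t 19 7 10 = true :=
  ⟨(b (a (c (b (a (l 64) (l 64)) (a (c (l 64) (l 64)) (c (l 64) (l 64)))) (b (a (l 64) (l 64)) (a (l 64) (l 64)))) (c (b (l 80) (a (l 64) (l 64))) (a (c (l 64) (l 64)) (l 80)))) (a (c (b (a (c (a (l 64) (l 64)) (a (l 64) (l 64))) (c (l 64) (l 64))) (a (c (l 64) (l 64)) (c (l 64) (l 64)))) (b (a (c (l 64) (l 64)) (c (l 64) (l 64))) (a (c (l 64) (l 64)) (c (l 64) (l 64))))) (c (b (a (c (l 64) (l 64)) (c (l 64) (l 64))) (a (c (l 64) (l 64)) (c (l 64) (l 64)))) (b (a (l 64) (l 64)) (a (c (l 64) (l 64)) (c (l 64) (l 64))))))), by decide +kernel⟩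

def h95_0Bm : ∃ t, chk3 f0Bm t 9 7 11 = true :=
  ⟨(a (b (a (c (b (a (l 64) (l 64)) (a (c (l 64) (l 64)) (c (l 64) (l 64)))) (b (a (l 64) (l 64)) (c (a (l 64) (l 64)) (l 64)))) (c (b (a (l 64) (l 64)) (c (a (l 64) (l 64)) (l 64))) (b (l 80) (a (l 64) (l 64))))) (a (c (b (a (c (a (l 64) (l 64)) (a (l 64) (l 64))) (c (a (l 64) (l 64)) (a (l 64) (l 64)))) (a (c (l 64) (l 64)) (c (l 64) (l 64)))) (b (a (c (a (l 64) (l 64)) (a (l 64) (l 64))) (c (l 64) (l 64))) (a (c (l 64) (l 64)) (c (l 64) (l 64))))) (c (b (a (c (a (l 64) (l 64)) (l 64)) (c (l 64) (l 64))) (a (c (l 64) (l 64)) (c (l 64) (l 64)))) (b (a (c (l 64) (l 64)) (l 64)) (a (c (l 64) (l 64)) (c (l 64) (l 64))))))) (b (a (c (b (l 80) (a (l 64) (l 64))) (a (l 80) (l 80))) (c (a (l 80) (l 80)) (a (l 80) (l 80)))) (a (c (b (a (c (l 64) (l 64)) (l 64)) (a (c (l 64) (l 64)) (c (l 64) (l 64))))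 (b (a (l 64) (l 64)) (a (c (l 64) (l 64)) (c (l 64) (l 64))))) (c (b (a (l 64) (l 64)) (a (c (l 64) (l 64)) (l 64))) (b (l 64) (a (l 64) (l 64))))))), by decide +kernel⟩

def h96_0Bm : ∃ t, chk3 f0Bm t 10 6 4 = true :=
  ⟨(a (c (b (a (c (b (l 80) (l 80)) (a (l 80) (l 80))) (c (a (l 80) (l 80)) (a (l 80) (l 80)))) (a (c (b (a (l 80) (l 80)) (a (l 80) (l 80))) (b (l 80) (a (l 80) (l 80)))) (c (b (l 80) (a (l 80) (l 80))) (b (l 80) (a (l 80) (l 80)))))) (b (a (c (a (l 80) (l 80)) (a (l 80) (l 80))) (c (a (l 80) (l 80)) (l 80))) (a (c (b (l 80) (l 80)) (a (l 80) (l 80))) (c (a (l 80) (l 80)) (a (l 80) (l 80)))))) (b (c (a (c (a (l 80) (l 80)) (a (l 80) (l 80))) (c (a (l 80) (l 80)) (a (l 80) (l 80)))) (a (c (a (l 80) (l 80)) (l 80)) (c (a (l 80) (l 80)) (l 80)))) (a (c (c (b (l 80) (a (l 80) (l 80))) (a (l 80) (l 80))) (c (a (l 80) (l 80)) (a (l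 80) (l 80)))) (c (a (b (c (l 80) (l 80)) (b (l 80) (a (l 80) (c (l 66) (l 66))))) (b (a (c (l 80) (l 80)) (b (c (l 80) (l 80)) (c (c (l 70) (l 70)) (l 86)))) (c (c (a (c (l 70) (l 70)) (l 70)) (a (l 70) (l 70))) (c (a (l 70) (l 70)) (a (l 70) (l 70)))))) (a (b (l 80) (b (l 80) (a (l 80) (c (l 66) (l 66))))) (b (a (l 80) (c (c (l 86) (l 86)) (c (l 86) (l 86)))) (c (c (a (l 70) (l 70)) (a (l 70) (l 70))) (c (a (l 70) (l 70)) (l 86))))))))), by decide +kernel⟩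

def h97_0Bm : ∃ t, chk3 f0Bm t 44 6 4 = true :=
  ⟨(b (a (b (c (c (l 80) (l 80)) (l 80)) (c (a (b (l 80) (c (l 86) (l 86))) (c (c (l 86) (l 86)) (c (l 86) (l 86)))) (c (c (l 86) (l 86)) (c (l 86) (l 86))))) (b (c (c (c (a (l 22) (l 22)) (a (l 22) (l 22))) (c (l 22) (l 22))) (c (c (l 22) (l 22)) (c (l 22) (l 22)))) (c (c (c (a (l 86) (l 46)) (l 86)) (c (l 86) (l 86))) (c (c (l 86) (l 86)) (c (l 86) (l 22)))))) (c (a (c (b (c (a (l 86) (l 86)) (a (l 86) (l 86))) (c (a (l 70) (l 38)) (a (l 70) (l 38)))) (b (c (a (l 86) (l 86)) (l 86)) (c (a (l 70) (l 38)) (a (l 70) (l 38))))) (c (b (c (a (l 46) (l 46)) (a (l 46) (l 46))) (c (a (l 38) (l 38)) (a (l 38) (l 38)))) (b (c (a (l 46) (l 46)) (l 46)) (c (a (l 38) (l 38)) (l 46))))) (c (a (b (c (l 86) (l 86)) (c (a (l 70) (l 38)) (l 78))) (b (c (l 46) (l 46)) (c (l 46) (l 46)))) (a (b (c (l 86) (l 86))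 (c (l 78) (l 78))) (b (c (l 46) (l 46)) (c (l 46) (l 46))))))), by decide +kernel⟩

def h98_0Bm : ∃ t, chk3 f0Bm t 45 6 4 = true :=
  ⟨(c (b (c (a (b (c (l 22) (l 22)) (c (a (l 46) (l 46)) (l 46))) (b (c (l 14) (l 14)) (c (l 46) (l 46)))) (a (b (c (l 22) (l 22)) (c (l 46) (l 46))) (b (c (l 14) (l 14)) (c (l 46) (l 46))))) (a (c (b (c (l 46) (l 46)) (c (l 38) (l 38))) (b (c (l 46) (l 46)) (c (l 46) (l 46)))) (c (b (l 46) (l 46)) (b (l 46) (l 46))))) (b (c (a (b (c (l 22) (l 22)) (c (l 46) (l 46))) (b (c (l 14) (l 14)) (c (l 46) (l 14)))) (a (b (c (l 22) (l 22)) (c (l 14) (l 14))) (b (c (l 14) (l 14)) (l 46)))) (a (c (b (c (l 46) (l 46)) (c (l 46) (l 46))) (b (c (l 46) (l 46)) (c (l 46) (l 46)))) (c (b (l 46) (l 46)) (b (l 46) (l 46)))))), by decide +kernel⟩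

def h99_0Bm : ∃ t, chk3 f0Bm t 23 6 4 = true :=
  ⟨(c (a (b (a (c (b (l 14) (l 46)) (b (l 14) (l 46))) (c (l 46) (l 46))) (a (c (c (l 46) (l 46)) (c (l 46) (l 46))) (c (l 46) (l 46)))) (a (b (c (l 44) (l 44)) (l 44)) (l 44))) (a (b (a (c (b (l 14) (l 46)) (b (l 14) (l 46))) (c (l 46) (l 46))) (a (c (c (l 46) (l 46)) (l 46)) (c (l 46) (l 46)))) (b (c (l 44) (l 44)) (l 44)))), by decide +kernel⟩

def h100_0Bm : ∃ t, chk3 f0Bm t 10 6 5 = true :=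
  ⟨(a (c (b (a (c (l 80) (l 80)) (c (l 80) (l 80))) (a (c (a (l 80) (l 80)) (l 80)) (c (a (l 80) (l 80)) (l 80)))) (b (a (c (l 80) (l 80)) (c (l 80) (l 80))) (a (c (l 80) (l 80)) (c (l 80) (l 80))))) (b (c (a (c (l 80) (l 80)) (c (l 80) (l 80))) (a (c (l 80) (l 80)) (c (l 80) (l 80)))) (a (c (c (l 80) (l 80)) (c (l 80) (l 80))) (a (c (b (l 80) (b (l 80) (c (c (l 66) (l 66)) (l 86)))) (b (l 80) (b (l 80) (c (l 86) (l 86))))) (b (c (a (l 80) (c (l 86) (l 86))) (a (l 80) (c (l 86) (l 86)))) (c (c (c (l 86) (l 86)) (c (l 86) (l 86))) (c (c (l 86) (l 86)) (c (l 86) (l 86))))))))), by decide +kernel⟩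

def h101_0Bm : ∃ t, chk3 f0Bm t 22 6 5 = true :=
  ⟨(a (b (a (b (c (l 80) (l 16)) (c (c (c (l 22) (l 22)) (c (l 22) (l 22))) (c (c (l 22) (l 22)) (l 22)))) (b (c (c (c (l 22) (l 22)) (c (l 22) (l 22))) (c (l 22) (l 22))) (c (c (c (l 22) (l 22)) (c (l 22) (l 22))) (c (l 22) (l 22))))) (a (c (c (b (c (l 86) (l 86)) (c (l 78) (l 78))) (b (c (l 86) (l 86)) (c (l 46) (l 46)))) (c (b (c (l 86) (l 86)) (c (l 46) (l 46))) (b (l 86) (c (l 46) (l 46))))) (c (c (b (c (l 46) (l 46)) (c (l 46) (l 46))) (b (c (l 46) (l 46)) (c (l 46) (l 46)))) (c (b (c (l 46) (l 46)) (c (l 46) (l 46))) (b (l 46) (l 46)))))) (c (b (c (a (b (c (l 22) (l 22)) (c (l 14) (l 14))) (b (c (l 14) (l 14)) (l 14))) (a (b (l 22) (c (l 14) (l 14))) (b (l 14) (l 14)))) (c (a (b (c (l 46) (l 46)) (l 46)) (c (l 46) (l 46))) (a (b (l 46) (l 46)) (c (l 46) (l 46))))) (b (c (a (b (l 22) (l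 14)) (b (l 14) (l 14))) (a (b (l 22) (l 14)) (b (l 14) (l 14)))) (c (a (b (l 46) (l 46)) (c (l 46) (l 46))) (a (b (l 46) (l 46)) (c (l 46) (l 46))))))), by decide +kernel⟩

def h102_0Bm : ∃ t, chk3 f0Bm t 23 6 5 = true :=
  ⟨(c (a (b (a (c (c (l 14) (l 14)) (c (l 14) (l 14))) (c (l 14) (l 14))) (a (c (l 46) (l 46)) (c (l 46) (l 46)))) (b (c (l 44) (l 12)) (l 44))) (a (b (a (b (c (l 14) (l 14)) (c (l 14) (l 14))) (c (l 14) (l 14))) (a (c (l 46) (l 46)) (l 46))) (b (l 44) (l 44)))), by decide +kernel⟩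

def h103_0Bm : ∃ t, chk3 f0Bm t 20 7 4 = true :=
  ⟨(b (c (a (c (b (a (c (l 64) (l 64)) (l 64)) (a (c (l 64) (l 64)) (c (l 64) (l 64)))) (b (a (l 64) (l 64)) (a (c (l 64) (l 64)) (c (l 64) (l 64))))) (c (b (a (l 64) (l 64)) (a (c (l 64) (l 64)) (c (l 64) (l 64)))) (a (b (l 64) (l 64)) (c (l 64) (l 64))))) (a (c (a (b (l 64) (c (l 64) (l 64))) (c (l 64) (l 64))) (b (l 80) (a (l 64) (l 64)))) (c (b (l 80) (a (l 64) (l 64))) (a (l 80) (l 80))))) (c (a (c (a (c (b (l 64) (l 64)) (b (l 64) (l 64))) (c (b (l 64) (l 64)) (b (l 64) (l 64)))) (b (a (c (l 64) (l 64)) (c (l 64) (l 64))) (a (c (l 64) (l 64)) (c (l 64) (l 64))))) (b (c (a (c (l 64) (l 64)) (c (l 64) (l 64))) (a (c (l 64) (l 64)) (c (l 64) (l 64)))) (a (c (c (l 64) (l 64)) (c (l 64) (l 64))) (c (c (l 66) (l 66)) (c (l 66) (l 66)))))) (a (c (b (a (c (l 64) (l 64)) (c (l 64) (l 64))) (a (c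 (l 64) (l 64)) (c (l 64) (l 64)))) (b (a (c (l 64) (l 64)) (c (l 64) (l 64))) (a (c (l 64) (l 64)) (c (l 64) (l 64))))) (b (c (a (c (l 64) (l 64)) (l 64)) (a (l 64) (l 64))) (c (a (l 64) (l 66)) (a (c (l 64) (l 64)) (l 66))))))), by decide +kernel⟩

def h104_0Bm : ∃ t, chk3 f0Bm t 42 14 4 = true :=
  ⟨(c (b (a (c (l 64) (l 64)) (c (l 66) (l 66))) (a (c (l 64) (l 64)) (c (c (l 66) (l 66)) (c (l 66) (l 66))))) (a (c (l 82) (l 82)) (b (c (l 66) (l 66)) (c (c (l 66) (l 66)) (c (l 66) (l 66)))))), by decide +kernel⟩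

def h105_0Bm : ∃ t, chk3 f0Bm t 43 14 4 = true :=
  ⟨(c (a (b (c (a (c (l 66) (l 66)) (c (c (l 70) (l 70)) (c (l 70) (l 70)))) (a (c (l 66) (l 66)) (c (c (l 70) (l 70)) (l 70)))) (c (c (a (b (l 66) (c (l 70) (l 70))) (c (l 70) (l 70))) (a (c (l 70) (l 70)) (c (l 70) (l 70)))) (c (a (c (l 70) (l 70)) (c (l 70) (l 70))) (a (c (l 70) (l 70)) (c (l 70) (l 70)))))) (c (b (c (a (c (l 70) (l 70)) (c (l 70) (l 70))) (a (c (l 70) (l 70)) (l 70))) (c (a (c (l 70) (l 70)) (c (l 38) (l 38))) (a (c (l 70) (l 70)) (c (l 38) (l 38))))) (b (c (a (l 70) (l 70)) (a (l 70) (l 70))) (c (a (c (l 70) (l 70)) (l 38)) (a (l 70) (l 38)))))) (a (c (b (a (c (l 66) (l 66)) (c (l 70) (l 70))) (c (a (c (l 70) (l 70)) (l 70)) (a (l 70) (l 70)))) (b (c (a (l 66) (l 70)) (a (l 66) (l 70))) (c (a (l 70) (l 70)) (a (l 70) (l 70))))) (c (b (c (a (l 70) (l 70)) (a (l 70) (l 70)))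 (c (a (l 70) (l 38)) (a (l 70) (l 38)))) (b (c (a (l 70) (l 70)) (l 70)) (c (a (l 70) (l 38)) (a (l 70) (l 38))))))), by decide +kernel⟩

def h106_0Bm : ∃ t, chk3 f0Bm t 42 15 8 = true :=
  ⟨(a (b (c (c (l 66) (l 66)) (c (l 66) (l 66))) (c (c (a (l 66) (b (l 66) (c (l 70) (l 66)))) (a (l 66) (b (l 66) (c (l 66) (l 66))))) (c (a (l 66) (b (l 66) (l 66))) (b (l 66) (a (l 66) (l 66)))))) (b (c (c (a (c (l 66) (l 66)) (b (l 66) (c (l 70) (l 70)))) (a (l 66) (b (l 66) (c (l 70) (l 70))))) (a (c (l 66) (l 66)) (c (b (l 66) (c (l 70) (l 70))) (b (l 66) (l 70))))) (c (c (a (b (c (l 70) (l 70)) (c (l 70) (l 70))) (b (c (l 70) (l 70)) (c (l 70) (l 70)))) (a (b (c (l 70) (l 70)) (c (l 70) (l 70))) (b (c (l 70) (l 70)) (c (l 70) (l 70))))) (c (b (a (c (l 66) (l 66)) (c (l 70) (l 70))) (a (c (l 70) (l 70)) (c (l 70) (l 70)))) (b (a (c (l 66) (l 66)) (c (l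 70) (l 70))) (a (c (l 70) (l 70)) (c (l 70) (l 70)))))))), by decide +kernel⟩

def h107_0Bm : ∃ t, chk3 f0Bm t 43 15 8 = true :=
  ⟨(a (c (b (c (b (a (c (l 70) (l 70)) (c (l 70) (l 70))) (a (c (l 70) (l 70)) (c (l 38) (l 38)))) (b (a (l 70) (l 70)) (a (c (l 70) (l 70)) (c (l 38) (l 38))))) (c (a (b (c (l 70) (l 70)) (c (l 38) (l 38))) (b (c (l 38) (l 38)) (c (l 38) (l 38)))) (b (a (c (l 70) (l 70)) (c (l 38) (l 38))) (a (c (l 38) (l 38)) (c (l 38) (l 38)))))) (b (c (a (b (l 70) (c (l 70) (l 70))) (c (l 70) (l 70))) (a (c (l 70) (l 70)) (c (l 70) (l 70)))) (c (b (a (c (l 70) (l 70)) (c (l 38) (l 38))) (a (c (l 38) (l 38)) (l 38))) (b (a (c (l 70) (l 70)) (c (l 38) (l 38))) (a (c (l 38) (l 38)) (c (l 38) (l 38))))))) (c (b (c (a (b (l 38) (c (l 38) (l 38))) (b (l 38) (l 38))) (a (c (l 38) (l 38)) (c (l 38) (l 38)))) (c (a (b (c (l 38) (l 38))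 (l 38)) (b (l 38) (l 38))) (b (a (c (l 38) (l 38)) (l 38)) (a (l 38) (l 38))))) (b (c (a (c (l 38) (l 38)) (l 38)) (a (c (l 38) (l 38)) (l 38))) (c (b (a (c (l 38) (l 38)) (l 38)) (a (l 38) (l 38))) (b (a (l 38) (l 38)) (a (l 38) (l 38))))))), by decide +kernel⟩

def h108_0Bm : ∃ t, chk3 f0Bm t 21 15 9 = true :=
  ⟨(a (a (c (b (l 66) (a (l 66) (c (c (l 66) (l 66)) (l 66)))) (b (l 66) (c (a (l 66) (l 66)) (l 66)))) (c (b (a (c (l 66) (l 66)) (c (c (l 70) (l 70)) (c (l 70) (l 70)))) (a (c (b (l 66) (c (l 70) (l 70))) (b (l 66) (c (l 70) (l 70)))) (c (b (c (l 70) (l 70)) (c (l 70) (l 70))) (b (l 70) (c (l 70) (l 70)))))) (b (a (c (l 66) (l 66)) (c (c (l 70) (l 70)) (c (l 70) (l 70)))) (c (a (b (l 66) (c (l 70) (l 70))) (b (l 70) (c (l 70) (l 70)))) (a (c (l 70) (l 70)) (c (l 70) (l 70))))))) (a (c (b (c (a (c (l 70) (l 70)) (c (l 70) (l 70))) (a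 (c (l 70) (l 70)) (c (l 70) (l 70)))) (c (b (a (l 70) (l 38)) (a (c (l 38) (l 38)) (c (l 38) (l 38)))) (a (b (l 70) (c (l 38) (l 38))) (c (l 38) (l 38))))) (b (c (a (c (l 70) (l 70)) (l 70)) (a (l 70) (l 70))) (c (a (c (l 70) (l 70)) (c (l 38) (l 38))) (a (c (l 70) (l 70)) (l 38))))) (c (b (c (a (l 38) (l 38)) (a (l 38) (l 38))) (c (a (c (l 38) (l 38)) (c (l 38) (l 38))) (a (l 38) (l 38)))) (b (c (a (l 38) (l 38)) (a (l 38) (l 38))) (c (a (l 38) (l 38)) (a (l 38) (l 38))))))), by decide +kernel⟩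

def h109_0Bm : ∃ t, chk3 f0Bm t 22 7 8 = true :=
  ⟨(a (b (a (c (b (c (a (l 38) (l 38)) (a (l 38) (l 38))) (c (a (l 38) (l 38)) (a (l 38) (l 38)))) (b (c (a (l 38) (l 38)) (a (l 38) (l 38))) (c (a (l 38) (l 38)) (a (l 38) (l 38))))) (c (b (c (a (l 38) (l 38)) (a (l 38) (l 38))) (c (a (l 38) (l 38)) (l 38))) (b (c (l 38) (l 38)) (c (l 38) (l 38))))) (c (b (a (c (a (c (l 38) (l 38)) (l 38)) (a (l 38) (l 38))) (c (l 38) (l 38))) (a (c (b (a (l 38) (l 38)) (l 38)) (b (a (l 38) (l 38)) (a (l 38) (l 38)))) (c (a (l 38) (l 38)) (a (l 38) (l 38))))) (a (b (c (a (l 38) (l 38)) (a (l 38) (l 38))) (c (b (l 38) (a (l 38) (l 38))) (a (l 38) (l 38)))) (b (c (l 38) (l 38)) (c (l 38) (l 38)))))) (b (a (c (b (c (l 38) (l 38)) (c (l 38) (l 38))) (b (c (l 38) (l 38)) (l 38))) (c (c (l 38) (l 38)) (c (l 38) (l 38)))) (a (c (b (c (l 38) (l 38)) (c (l 38) (l 38)))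 (b (l 38) (l 38))) (c (c (l 38) (l 38)) (c (l 38) (l 38)))))), by decide +kernel⟩

def h110_0Bm : ∃ t, chk3 f0Bm t 22 7 9 = true :=
  ⟨(a (b (c (a (b (c (a (l 38) (l 38)) (a (l 38) (l 38))) (c (a (l 38) (l 38)) (a (l 38) (l 38)))) (b (c (l 38) (l 38)) (c (l 38) (l 38)))) (a (b (c (l 38) (l 38)) (c (l 38) (l 38))) (b (c (l 38) (l 38)) (c (l 38) (l 38))))) (a (c (b (c (a (l 38) (l 38)) (a (l 38) (l 38))) (c (a (l 38) (l 38)) (a (l 38) (l 38)))) (b (c (l 38) (l 38)) (c (l 38) (l 38)))) (c (b (c (l 38) (l 38)) (c (l 38) (l 38))) (b (c (l 38) (l 38)) (c (l 38) (l 38)))))) (b (a (c (b (c (l 38) (l 38)) (l 38)) (b (l 46) (l 38))) (c (c (l 38) (l 38)) (c (l 38) (l 38)))) (a (c (c (l 38) (l 38)) (c (l 38) (l 38))) (c (l 38) (l 38))))), by decide +kernel⟩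

def h111_0Bm : ∃ t, chk3 f0Bm t 23 7 4 = true :=
  ⟨(c (a (b (a (c (l 46) (l 46)) (c (l 46) (l 44))) (a (c (l 38) (l 38)) (l 46))) (b (l 44) (l 44))) (a (b (a (c (l 46) (l 46)) (l 46)) (c (a (l 38) (l 36)) (l 38))) (c (l 44) (l 44)))), by decide +kernel⟩

def h112_0Bm : ∃ t, chk3 f0Bm t 20 7 5 = true :=
  ⟨(b (c (a (c (b (l 80) (l 80)) (a (l 80) (l 80))) (c (a (l 80) (l 80)) (a (l 80) (l 80)))) (a (c (a (l 80) (l 80)) (a (l 80) (l 80))) (c (a (l 80) (l 80)) (l 80)))) (a (c (c (b (a (l 64) (l 64)) (a (c (l 64) (l 64)) (c (l 64) (l 64)))) (a (c (b (l 64) (l 64)) (l 64)) (c (l 64) (l 64)))) (c (b (l 64) (a (l 64) (l 64))) (a (l 64) (l 64)))) (c (c (b (l 64) (a (l 64) (l 66))) (b (l 64) (l 66))) (c (a (l 64) (l 66)) (a (l 64) (l 66)))))), by decide +kernel⟩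

def h113_0Bm : ∃ t, chk3 f0Bm t 21 14 5 = true :=
  ⟨(a (c (a (c (l 80) (l 80)) (c (b (l 64) (c (l 66) (l 66))) (b (l 64) (c (l 66) (l 66))))) (a (c (l 80) (l 80)) (c (b (l 80) (c (l 66) (l 66))) (b (l 80) (c (l 66) (l 66)))))) (c (a (c (b (c (a (l 66) (l 70)) (a (l 66) (l 70))) (c (a (l 70) (l 70)) (a (l 70) (l 70)))) (b (c (l 70) (l 70)) (c (a (l 70) (l 70)) (l 70)))) (c (b (c (l 70) (l 70)) (c (a (l 70) (l 38)) (l 70))) (b (c (l 70) (l 70)) (c (l 70) (l 70))))) (a (c (b (c (l 70) (l 70)) (c (l 70) (l 70))) (b (c (l 70) (l 70)) (c (l 70) (l 70)))) (c (b (c (l 70) (l 70)) (c (l 70) (l 38))) (b (c (l 70) (l 70)) (c (l 38) (l 38))))))), by decide +kernel⟩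

def h114_0Bm : ∃ t, chk3 f0Bm t 21 15 5 = true :=
  ⟨(a (c (c (a (b (l 66) (c (l 66) (l 66))) (b (a (c (l 66) (l 66)) (c (l 70) (l 70))) (c (a (c (l 70) (l 70)) (c (l 70) (l 70))) (a (c (l 70) (l 70)) (c (l 70) (l 70)))))) (a (b (l 66) (c (l 66) (l 66))) (b (c (a (l 66) (l 70)) (a (l 66) (l 70))) (c (a (l 70) (l 70)) (a (l 70) (l 70)))))) (c (a (b (l 66) (c (l 66) (l 66))) (b (a (l 66) (c (l 70) (l 70))) (c (a (l 70) (l 70)) (a (l 70) (l 70))))) (a (b (l 66) (c (l 66) (l 66))) (b (c (l 70) (l 70)) (c (a (l 70) (l 70)) (a (l 70) (l 70))))))) (c (a (c (b (c (a (l 70) (l 70)) (a (l 70) (l 70))) (c (a (c (l 70) (l 70)) (l 38)) (a (l 70) (l 38)))) (b (c (a (l 70) (l 70)) (a (l 70) (l 70))) (c (a (l 70) (l 38)) (a (l 70) (l 38))))) (c (b (c (a (l 38) (l 38)) (a (l 38) (l 38))) (c (a (l 38) (l 38)) (a (l 38) (l 38)))) (b (c (l 38) (l 38)) (c (a (l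 38) (l 38)) (l 38))))) (c (a (b (c (l 70) (l 70)) (c (a (l 70) (l 38)) (a (l 70) (l 38)))) (b (c (l 38) (l 38)) (c (l 38) (l 38)))) (a (b (c (l 70) (l 70)) (c (l 70) (l 70))) (b (c (l 38) (l 38)) (c (l 38) (l 38))))))), by decide +kernel⟩

def h115_0Bm : ∃ t, chk3 f0Bm t 11 7 5 = true :=
  ⟨(a (c (a (b (c (a (b (c (l 38) (l 38)) (c (l 38) (l 38))) (b (c (l 38) (l 38)) (c (l 38) (l 38)))) (a (b (c (l 38) (l 38)) (c (l 38) (l 38))) (b (c (l 38) (l 38)) (c (l 38) (l 38))))) (a (c (b (c (l 38) (l 38)) (c (l 38) (l 38))) (b (c (l 38) (l 38)) (c (l 38) (l 38)))) (c (b (c (l 38) (l 38)) (l 38)) (b (l 38) (l 38))))) (b (a (c (b (l 46) (l 38)) (c (l 46) (l 46))) (c (c (l 38) (l 46)) (l 46))) (a (c (c (l 38) (l 38)) (c (l 38) (l 38))) (c (l 38) (l 38))))) (a (b (c (a (b (c (l 38) (l 38)) (c (l 38) (l 38))) (b (l 46) (l 38))) (a (b (c (l 38) (l 38)) (c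 (l 38) (l 38))) (b (l 46) (l 38)))) (c (a (b (c (l 38) (l 38)) (c (l 38) (l 38))) (c (l 38) (l 38))) (a (b (c (l 38) (l 38)) (c (l 38) (l 38))) (c (l 38) (l 38))))) (b (c (a (c (l 46) (l 46)) (l 46)) (a (c (l 46) (l 46)) (l 46))) (c (a (l 38) (l 38)) (a (l 38) (l 38)))))) (c (a (a (b (c (l 46) (l 46)) (c (l 38) (l 38))) (b (l 46) (l 44))) (c (l 44) (l 44))) (a (a (b (c (l 46) (l 46)) (l 46)) (c (l 46) (l 46))) (c (l 44) (l 44))))), by decide +kernel⟩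

def h116_0Bm : ∃ t, chk3 f0Bm t 8 6 3 = true :=
  ⟨(c (a (c (b (a (c (a (l 80) (l 80)) (a (l 80) (l 80))) (c (a (l 80) (l 80)) (l 80))) (a (c (b (a (l 80) (l 80)) (c (a (l 64) (l 64)) (l 80))) (b (l 80) (a (l 80) (l 80)))) (c (b (l 80) (a (l 80) (l 80))) (b (l 80) (l 80))))) (b (a (c (l 80) (l 80)) (c (l 80) (l 80))) (a (c (b (l 80) (l 80)) (a (l 80) (l 80))) (c (a (l 80) (l 80)) (a (l 80) (l 80)))))) (c (b (a (c (l 80) (l 80)) (c (l 80) (l 80))) (a (c (b (l 80) (l 80)) (a (l 80) (l 80))) (c (a (l 80) (l 80)) (a (l 80) (l 80))))) (b (a (c (l 80) (l 80)) (c (l 80) (l 80))) (a (c (a (l 80) (l 80)) (l 80)) (c (l 80) (l 80)))))) (a (c (b (a (c (l 80) (l 80)) (c (l 80) (l 80))) (a (c (a (l 80) (l 80)) (l 80)) (c (l 80) (l 80)))) (b (a (l 80) (l 80)) (a (c (l 80) (l 80)) (c (l 80) (l 80))))) (c (b (a (c (l 80) (l 80)) (l 80)) (a (c (l 80) (l 80))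 (c (l 80) (l 80)))) (b (a (l 80) (l 80)) (a (l 80) (l 80)))))), by decide +kernel⟩

def h117_0Bm : ∃ t, chk3 f0Bm t 9 6 3 = true :=
  ⟨(c (a (c (b (a (c (l 80) (l 80)) (c (l 80) (l 80))) (a (c (a (l 80) (l 80)) (l 80)) (c (l 80) (l 80)))) (b (a (c (l 80) (l 80)) (l 80)) (a (c (l 80) (l 80)) (c (l 80) (l 80))))) (c (b (a (c (l 80) (l 80)) (c (l 80) (l 80))) (a (c (l 80) (l 80)) (c (l 80) (l 80)))) (b (a (l 80) (l 80)) (a (c (l 80) (l 80)) (l 80))))) (a (c (b (a (l 80) (l 80)) (a (c (l 80) (l 80)) (l 80))) (b (a (l 80) (l 80)) (a (l 80) (l 80)))) (c (b (a (l 80) (l 80)) (a (l 80) (l 80))) (b (a (l 80) (l 80)) (a (l 80) (l 80)))))), by decide +kernel⟩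

def h118_0Bm : ∃ t, chk3 f0Bm t 16 14 12 = true :=
  ⟨(a (c (b (c (a (a (l 64) (l 64)) (l 64)) (a (l 64) (l 64))) (a (c (b (l 64) (l 64)) (b (l 64) (l 64))) (c (b (l 64) (l 64)) (b (l 64) (l 64))))) (b (c (a (l 64) (l 64)) (a (l 64) (l 64))) (a (c (b (l 64) (l 64)) (b (l 64) (l 64))) (c (b (l 64) (l 64)) (a (l 64) (l 64)))))) (c (b (c (a (l 64) (l 64)) (a (l 64) (l 64))) (a (c (b (l 64) (l 64)) (b (l 64) (l 64))) (c (a (l 64) (l 64)) (a (l 64) (l 64))))) (b (a (l 64) (l 64)) (a (c (a (l 64) (l 64)) (l 64)) (c (l 64) (l 64)))))), by decide +kernel⟩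

def h119_0Bm : ∃ t, chk3 f0Bm t 16 15 12 = true :=
  ⟨(c (a (b (a (c (a (l 64) (l 64)) (a (l 64) (l 64))) (c (a (l 64) (l 64)) (a (l 64) (l 64)))) (a (c (a (l 64) (l 64)) (a (l 64) (l 64))) (c (a (l 64) (l 64)) (a (l 64) (l 64))))) (b (a (c (a (l 64) (l 64)) (a (l 64) (l 64))) (c (a (l 64) (l 64)) (b (l 64) (l 64)))) (a (c (a (l 64) (l 64)) (a (l 64) (l 64))) (c (a (l 64) (l 64)) (a (l 64) (l 64)))))) (a (b (a (c (a (l 64) (l 64)) (a (l 64) (l 64))) (c (a (l 64) (l 64)) (b (a (l 64) (l 64)) (l 64)))) (a (c (a (l 64) (l 64)) (a (l 64) (l 64))) (c (a (l 64) (l 64)) (a (l 64) (l 64))))) (b (a (c (b (l 64) (l 64)) (b (l 64) (l 64))) (c (b (l 64) (l 64)) (b (l 64) (l 64)))) (a (c (a (l 64) (l 64)) (a (l 64) (l 64))) (c (a (l 64) (l 64)) (a (l 64) (l 64))))))), by decide +kernel⟩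

def h120_0Bm : ∃ t, chk3 f0Bm t 16 7 13 = true :=
  ⟨(b (a (c (b (a (l 64) (l 64)) (c (a (a (l 64) (l 64)) (l 64)) (a (l 64) (l 64)))) (b (a (l 64) (l 64)) (c (a (l 64) (l 64)) (l 64)))) (c (b (a (l 64) (l 64)) (c (a (l 64) (l 64)) (l 64))) (b (l 80) (a (l 64) (l 64))))) (a (c (b (a (c (b (a (l 64) (l 64)) (l 64)) (b (a (l 64) (l 64)) (l 64))) (c (b (a (l 64) (l 64)) (l 64)) (b (l 64) (l 64)))) (a (c (a (l 64) (l 64)) (a (l 64) (l 64))) (c (a (l 64) (l 64)) (a (l 64) (l 64))))) (b (a (c (b (l 64) (a (l 64) (l 64))) (b (l 64) (l 64))) (c (b (l 64) (l 64)) (l 64))) (a (c (a (l 64) (l 64)) (a (l 64) (l 64))) (c (a (l 64) (l 64)) (b (l 64) (l 64)))))) (c (b (a (c (b (l 64) (l 64)) (a (l 64) (l 64))) (c (a (l 64) (l 64)) (l 64))) (a (c (a (l 64) (l 64)) (a (l 64) (l 64))) (c (a (l 64) (l 64)) (a (l 64) (l 64))))) (b (a (c (l 64) (l 64)) (c (l 64)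 (l 64))) (a (c (a (l 64) (l 64)) (b (l 64) (l 64))) (c (a (l 64) (l 64)) (a (l 64) (l 64)))))))), by decide +kernel⟩

def h121_0Bm : ∃ t, chk3 f0Bm t 17 7 12 = true :=
  ⟨(b (a (c (b (a (l 64) (l 64)) (a (c (a (l 64) (l 64)) (l 64)) (c (l 64) (l 64)))) (b (a (l 64) (l 64)) (c (a (l 64) (l 64)) (l 64)))) (c (b (a (l 64) (l 64)) (c (a (l 64) (l 64)) (l 64))) (b (l 80) (a (l 64) (l 64))))) (a (c (b (a (c (b (l 64) (l 64)) (b (l 64) (l 64))) (c (b (l 64) (l 64)) (b (l 64) (l 64)))) (a (c (a (l 64) (l 64)) (l 64)) (c (l 64) (l 64)))) (b (a (c (b (l 64) (l 64)) (a (l 64) (l 64))) (c (a (l 64) (l 64)) (l 64))) (a (c (l 64) (a (l 64) (l 64))) (c (a (l 64) (l 64)) (a (l 64) (l 64)))))) (c (b (a (c (a (l 64) (l 64)) (a (l 64) (l 64))) (c (a (l 64) (l 64)) (l 64))) (a (c (l 64) (l 64)) (c (l 64) (a (l 64) (l 64))))) (b (a (c (l 64) (l 64)) (c (l 64) (l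 64))) (a (c (a (l 64) (l 64)) (a (l 64) (l 64))) (c (a (l 64) (l 64)) (a (l 64) (l 64)))))))), by decide +kernel⟩

def h122_0Bm : ∃ t, chk3 f0Bm t 17 7 13 = true :=
  ⟨(b (a (c (b (l 80) (a (l 64) (l 64))) (b (l 80) (l 80))) (c (b (l 80) (l 80)) (a (l 80) (l 80)))) (a (c (b (a (c (l 64) (l 64)) (c (l 64) (l 64))) (a (c (a (l 64) (l 64)) (a (l 64) (l 64))) (c (a (l 64) (l 64)) (a (l 64) (l 64))))) (b (a (l 64) (l 64)) (a (c (a (l 64) (l 64)) (a (l 64) (l 64))) (c (l 64) (l 64))))) (c (b (a (l 64) (l 64)) (a (c (a (l 64) (l 64)) (l 64)) (c (l 64) (l 64)))) (b (a (l 64) (l 64)) (c (a (l 64) (l 64)) (l 64)))))), by decide +kernel⟩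

def h123_0Bm : ∃ t, chk3 f0Bm t 9 7 6 = true :=
  ⟨(a (c (b (a (c (b (l 80) (a (l 64) (l 64))) (a (l 80) (l 80))) (c (a (l 80) (l 80)) (a (l 80) (l 80)))) (a (c (b (a (c (l 64) (l 64)) (c (l 64) (l 64))) (a (c (a (l 64) (l 64)) (a (l 64) (l 64))) (c (a (l 64) (l 64)) (l 64)))) (b (a (l 64) (l 64)) (a (c (a (l 64) (l 64)) (l 64)) (c (l 64) (l 64))))) (c (b (a (l 64) (l 64)) (a (c (l 64) (l 64)) (c (l 64) (l 64)))) (b (l 64) (a (l 64) (l 64)))))) (b (a (c (a (l 80) (l 80)) (l 80)) (c (l 80) (l 80))) (a (c (b (a (l 64) (l 64)) (c (a (l 64) (l 64)) (l 64))) (b (l 64) (a (l 64) (l 64)))) (c (b (l 64) (a (l 64) (l 64))) (a (l 64) (l 64)))))) (c (b (a (c (a (l 80) (l 80)) (a (l 80) (l 80))) (c (a (l 80) (l 80)) (l 80))) (a (c (b (l 64) (a (l 64) (l 64))) (a (c (l 64) (l 64)) (l 64))) (c (b (l 64) (l 64)) (a (l 64) (l 64))))) (b (a (c (l 80) (l 80))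 (c (l 80) (l 80))) (a (c (a (l 64) (l 64)) (a (l 64) (l 64))) (c (a (l 64) (l 64)) (l 64)))))), by decide +kernel⟩

def h124_0Bm : ∃ t, chk3 f0Bm t 8 7 7 = true :=
  ⟨(c (a (b (a (c (b (l 80) (a (l 64) (l 64))) (b (l 80) (l 80))) (c (b (l 80) (l 80)) (a (l 80) (l 80)))) (a (c (b (a (c (a (l 64) (l 64)) (l 64)) (c (l 64) (l 64))) (a (c (b (l 64) (l 64)) (b (l 64) (l 64))) (c (b (l 64) (l 64)) (b (l 64) (l 64))))) (b (c (a (l 64) (l 64)) (l 64)) (a (c (b (l 64) (l 64)) (a (l 64) (l 64))) (c (a (l 64) (l 64)) (l 64))))) (c (b (c (a (l 64) (l 64)) (l 64)) (a (c (b (l 64) (l 64)) (a (l 64) (l 64))) (c (a (l 64) (l 64)) (l 64)))) (b (a (l 64) (l 64)) (a (c (l 64) (l 64)) (c (l 64) (l 64))))))) (b (a (c (a (l 80) (l 80)) (l 80)) (c (l 80) (l 80))) (a (c (b (a (l 64) (l 64)) (a (c (l 64) (l 64)) (l 64))) (b (l 64) (a (l 64) (l 64)))) (c (b (l 64) (a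 (l 64) (l 64))) (b (l 64) (l 64)))))) (a (b (a (c (a (l 80) (l 80)) (a (l 80) (l 80))) (c (l 80) (l 80))) (a (c (b (a (l 64) (l 64)) (a (c (l 64) (l 64)) (c (l 64) (l 64)))) (b (l 64) (a (l 64) (l 64)))) (c (b (l 64) (a (l 64) (l 64))) (a (c (l 64) (l 64)) (l 64))))) (b (a (c (l 80) (l 80)) (c (l 80) (l 80))) (a (c (c (a (l 64) (l 64)) (l 64)) (a (l 64) (l 64))) (c (a (l 64) (l 64)) (l 64)))))), by decide +kernel⟩

def h125_0Bm : ∃ t, chk3 f0Bm t 9 7 7 = true :=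
  ⟨(a (c (b (a (c (l 80) (l 80)) (c (l 80) (l 80))) (a (c (b (l 64) (l 64)) (a (l 64) (l 64))) (c (a (l 64) (l 64)) (l 64)))) (b (a (c (l 80) (l 80)) (l 80)) (a (c (l 64) (l 64)) (c (l 64) (l 64))))) (c (b (a (c (l 80) (l 80)) (c (l 80) (l 80))) (a (c (l 64) (l 64)) (c (l 64) (l 64)))) (b (a (l 80) (l 80)) (a (c (l 64) (l 64)) (c (l 64) (l 64)))))), by decide +kernel⟩

def h126_0Bm : ∃ t, chk3 f0Bm t 10 6 3 = true :=
  ⟨(a (c (c (b (a (l 80) (l 80)) (a (c (l 80) (l 80)) (c (l 80) (l 80)))) (b (a (l 80) (l 80)) (a (l 80) (l 80)))) (c (b (a (l 80) (l 80)) (a (l 80) (l 80))) (b (a (l 80) (l 16)) (a (l 80) (l 80))))) (c (b (c (a (l 80) (c (l 80) (l 16))) (a (l 80) (l 80))) (a (c (c (l 80) (l 80)) (l 80)) (a (c (b (l 80) (c (c (l 86) (l 86)) (l 86))) (b (l 80) (c (l 86) (l 86)))) (b (c (c (l 86) (l 86)) (c (l 22) (l 22))) (c (c (c (l 86) (l 86))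 (l 86)) (c (l 86) (l 86))))))) (b (c (a (l 80) (l 16)) (a (l 16) (l 16))) (a (c (l 80) (l 80)) (a (b (l 80) (b (l 80) (a (l 80) (c (l 86) (l 86))))) (b (a (c (l 16) (l 16)) (c (c (l 22) (l 22)) (l 22))) (c (c (l 86) (l 86)) (c (l 86) (l 86))))))))), by decide +kernel⟩

def h127_0Bm : ∃ t, chk3 f0Bm t 20 7 6 = true :=
  ⟨(b (c (a (c (l 80) (l 80)) (c (l 80) (l 80))) (a (c (l 80) (l 80)) (c (l 80) (l 80)))) (a (c (c (a (l 64) (l 64)) (a (l 64) (l 64))) (c (l 64) (l 64))) (c (c (a (l 64) (l 66)) (l 66)) (c (l 66) (l 66))))), by decide +kernel⟩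

def h128_0Bm : ∃ t, chk3 f0Bm t 21 7 6 = true :=
  ⟨(b (a (a (c (c (l 80) (l 80)) (l 80)) (b (c (c (l 80) (l 80)) (c (l 80) (l 80))) (c (c (c (l 66) (l 66)) (c (l 66) (l 66))) (c (l 70) (l 70))))) (a (b (c (c (c (l 70) (l 70)) (c (l 70) (l 70))) (c (l 86) (l 86))) (c (c (c (l 70) (l 70)) (c (l 70) (l 70))) (c (l 70) (l 70)))) (c (c (b (c (l 70) (l 70)) (c (l 38) (l 38))) (b (l 86) (l 38))) (c (b (l 86) (l 38)) (c (l 86) (l 86)))))) (a (c (c (a (b (l 66) (c (l 66) (l 66))) (b (c (l 70) (l 70)) (c (l 70) (l 70)))) (a (b (l 66) (c (l 66) (l 66))) (b (c (l 70) (l 70)) (c (l 70) (l 70))))) (a (c (b (l 66) (c (l 66) (l 66))) (b (l 66) (c (l 66) (l 66)))) (c (b (c (l 70) (l 70)) (c (l 70) (l 70))) (b (c (l 70) (l 70)) (c (l 70) (l 70)))))) (c (c (a (b (c (l 70) (l 70)) (c (l 70) (l 70))) (b (c (l 38) (l 38)) (c (l 38) (l 38)))) (a (b (c (l 70) (l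 70)) (c (l 70) (l 70))) (b (c (l 38) (l 38)) (c (l 38) (l 38))))) (c (a (b (c (l 70) (l 70)) (c (l 38) (l 38))) (b (l 38) (l 38))) (a (b (l 70) (c (l 38) (l 38))) (b (l 38) (l 38))))))), by decide +kernel⟩

def h129_0Bm : ∃ t, chk3 f0Bm t 10 7 7 = true :=
  ⟨(a (b (c (a (l 80) (l 80)) (a (l 80) (l 80))) (a (c (c (l 64) (l 64)) (c (l 64) (l 64))) (c (c (l 66) (l 66)) (c (l 66) (l 66))))) (a (b (a (c (l 80) (l 80)) (b (c (l 80) (l 80)) (c (c (l 70) (l 70)) (c (l 70) (l 70))))) (c (a (c (b (l 66) (c (l 66) (l 66))) (b (l 66) (c (l 66) (l 66)))) (c (b (l 70) (c (l 70) (l 70))) (b (l 70) (c (l 70) (l 70))))) (a (c (b (l 66) (l 70)) (c (l 70) (l 70))) (c (b (l 70) (l 70)) (c (l 70) (l 70)))))) (b (a (b (c (c (l 86) (l 86)) (c (l 86) (l 86))) (c (c (l 70) (l 70)) (c (l 70) (l 70)))) (c (c (c (l 86) (l 86)) (c (l 86) (l 86))) (c (c (l 86) (l 86)) (c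 (l 86) (l 86))))) (c (c (a (b (l 70) (l 70)) (b (l 38) (l 38))) (a (b (l 70) (l 38)) (c (l 38) (l 38)))) (c (a (c (l 70) (l 70)) (c (l 38) (l 38))) (a (c (l 70) (l 70)) (c (l 38) (l 38)))))))), by decide +kernel⟩

def h130_0Bm : ∃ t, chk3 f0Bm t 22 6 6 = true :=
  ⟨(a (b (a (b (c (l 16) (l 16)) (c (c (l 22) (l 22)) (c (l 22) (l 22)))) (c (c (b (l 22) (l 22)) (b (l 22) (l 22))) (c (c (l 22) (l 22)) (c (l 22) (l 22))))) (c (c (a (b (l 86) (l 46)) (b (l 46) (l 46))) (b (a (l 86) (l 46)) (a (l 46) (l 46)))) (c (b (a (l 22) (l 14)) (a (l 46) (l 46))) (b (a (l 22) (l 14)) (a (l 46) (l 46)))))) (c (b (c (a (b (l 22) (l 14)) (b (l 14) (l 14))) (a (b (l 22) (l 14)) (b (l 14) (l 14)))) (c (a (b (l 46) (l 46)) (c (l 46) (l 46))) (a (c (l 46) (l 46)) (c (l 46) (l 46))))) (b (c (a (b (l 22) (l 14)) (b (l 14) (l 14))) (a (c (l 22) (l 22)) (c (l 14) (l 14))))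 (a (c (c (l 46) (l 46)) (c (l 46) (l 46))) (c (l 46) (l 46)))))), by decide +kernel⟩

def h131_0Bm : ∃ t, chk3 f0Bm t 22 7 6 = true :=
  ⟨(c (a (b (c (a (b (l 46) (c (l 38) (l 38))) (b (l 46) (l 38))) (a (b (l 46) (l 38)) (b (l 46) (l 38)))) (c (a (b (l 38) (l 38)) (c (l 38) (l 38))) (a (b (l 38) (l 38)) (c (l 38) (l 38))))) (a (b (c (c (l 46) (l 46)) (c (l 46) (l 46))) (c (l 38) (l 38))) (b (c (l 46) (l 46)) (c (l 38) (l 38))))) (a (b (c (a (b (l 46) (l 38)) (c (l 46) (l 46))) (a (c (l 46) (l 46)) (c (l 46) (l 46)))) (c (a (c (l 38) (l 38)) (c (l 38) (l 38))) (a (c (l 38) (l 38)) (c (l 38) (l 38))))) (a (b (c (c (l 46) (l 46)) (c (l 46) (l 46))) (c (l 38) (l 38))) (b (c (l 46) (l 46)) (c (l 38) (l 38)))))), by decide +kernel⟩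

def h132_0Bm : ∃ t, chk3 f0Bm t 23 3 6 = true :=
  ⟨(b (c (a (b (a (b (c (l 14) (l 14)) (l 14)) (c (l 14) (l 14))) (a (c (l 46) (l 46)) (l 46))) (c (l 44) (l 44))) (a (b (a (c (l 14) (l 14)) (c (l 14) (l 14))) (a (c (l 46) (l 46)) (l 46))) (c (l 44) (l 44)))) (c (a (a (b (c (l 46) (l 46)) (l 46)) (c (l 44) (l 44))) (l 44)) (a (a (b (l 46) (l 46)) (c (l 44) (l 44))) (l 44)))), by decide +kernel⟩

def h133_0Bm : ∃ t, chk3 f0Bm t 22 6 7 = true :=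
  ⟨(a (b (a (b (l 16) (c (c (l 22) (l 22)) (c (l 22) (l 22)))) (c (c (c (l 22) (l 22)) (c (l 22) (l 22))) (c (c (l 22) (l 22)) (c (l 22) (l 22))))) (c (c (a (c (l 86) (l 86)) (c (l 46) (l 46))) (b (a (l 22) (l 14)) (a (l 46) (l 46)))) (c (a (c (l 54) (l 54)) (c (l 46) (l 14))) (a (c (l 22) (l 22)) (c (l 14) (l 14)))))) (c (b (b (c (a (l 22) (l 14)) (a (l 22) (l 14))) (a (c (l 14) (l 14)) (c (l 14) (l 14)))) (a (c (c (l 46) (l 46)) (c (l 46) (l 46))) (c (l 46) (l 46)))) (b (b (c (a (l 22) (l 14)) (a (l 22) (l 14))) (c (a (l 14) (l 14)) (a (l 14) (l 14)))) (a (c (c (l 14) (l 14)) (c (l 14) (l 14))) (c (l 46) (l 46)))))), by decide +kernel⟩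

def h134_0Bm : ∃ t, chk3 f0Bm t 22 7 7 = true :=
  ⟨(c (a (b (c (a (c (l 46) (l 46)) (c (l 46) (l 46))) (a (c (l 46) (l 46)) (c (l 46) (l 46)))) (c (a (c (l 38) (l 38)) (c (l 38) (l 38))) (a (c (l 38) (l 38)) (l 38)))) (a (b (c (l 46) (l 46)) (c (l 38) (l 38))) (b (c (l 46) (l 46)) (c (l 38) (l 38))))) (a (b (c (a (c (l 46) (l 46)) (c (l 46) (l 46))) (a (c (l 46) (l 46)) (c (l 46) (l 46)))) (c (a (c (l 38) (l 38)) (l 38)) (a (c (l 38) (l 38)) (l 38)))) (a (b (c (l 46) (l 46)) (c (l 38) (l 38))) (b (c (l 46) (l 46)) (l 46))))), by decide +kernel⟩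

def h135_0Bm : ∃ t, chk3 f0Bm t 23 3 7 = true :=
  ⟨(b (a (c (a (b (c (l 14) (l 14)) (c (l 46) (l 46))) (b (c (l 14) (l 14)) (l 46))) (a (b (c (l 14) (l 14)) (c (l 46) (l 14))) (b (c (l 14) (l 14)) (l 46)))) (c (c (l 44) (l 44)) (c (l 44) (l 44)))) (c (a (b (c (l 46) (l 46)) (c (l 38) (l 38))) (l 44)) (a (b (c (l 46) (l 46)) (c (l 38) (l 38))) (l 44)))), by decide +kernel⟩

def h136_0Bm : ∃ t, chk3 f0Bm t 3 3 1 = true :=
  ⟨(c (a (a (c (a (b (c (a (l 44) (l 44)) (a (l 44) (l 44))) (c (a (l 44) (l 44)) (a (l 44) (l 44)))) (b (c (l 44) (l 44)) (c (l 46) (l 44)))) (a (b (a (c (l 44) (l 44)) (l 44)) (c (a (l 44) (l 44)) (a (l 44) (l 44)))) (b (c (l 44) (l 44)) (c (l 44) (l 44))))) (c (a (b (l 46) (c (l 46) (l 44))) (c (l 46) (l 46))) (a (b (l 46) (l 46)) (c (l 46) (l 46))))) (a (c (a (l 46) (l 46)) (a (l 46) (l 46))) (c (l 46) (l 46)))) (a (a (c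 (a (b (c (l 44) (l 44)) (c (l 44) (l 44))) (b (c (l 44) (l 44)) (c (l 44) (l 44)))) (a (b (c (l 44) (l 44)) (c (l 44) (l 44))) (b (l 44) (l 44)))) (c (a (c (l 46) (l 44)) (l 46)) (a (c (l 44) (l 44)) (l 46)))) (a (c (a (l 46) (l 46)) (a (l 46) (l 46))) (c (l 46) (l 46))))), by decide +kernel⟩

theorem h137_0Bm : ∃ t, chk3 f0Bm t 22 3 7 = true := ex3_b h133_0Bm h134_0Bm

theorem h138_0Bm : ∃ t, chk3 f0Bm t 11 3 7 = true := ex3_a h137_0Bm h135_0Bm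

theorem h139_0Bm : ∃ t, chk3 f0Bm t 22 3 6 = true := ex3_b h130_0Bm h131_0Bm

theorem h140_0Bm : ∃ t, chk3 f0Bm t 11 3 6 = true := ex3_a h139_0Bm h132_0Bm

theorem h141_0Bm : ∃ t, chk3 f0Bm t 11 3 3 = true := ex3_c h140_0Bm h138_0Bm

theorem h142_0Bm : ∃ t, chk3 f0Bm t 10 7 6 = true := ex3_a h127_0Bm h128_0Bm

theorem h143_0Bm : ∃ t, chk3 f0Bm t 10 7 3 = true := ex3_c h142_0Bm h129_0Bm

theorem h144_0Bm : ∃ t, chk3 f0Bm t 10 3 3 = true := ex3_b h126_0Bm h143_0Bm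

theorem h145_0Bm : ∃ t, chk3 f0Bm t 5 3 3 = true := ex3_a h144_0Bm h141_0Bm

theorem h146_0Bm : ∃ t, chk3 f0Bm t 4 7 7 = true := ex3_a h124_0Bm h125_0Bm

theorem h147_0Bm : ∃ t, chk3 f0Bm t 17 7 6 = true := ex3_c h121_0Bm h122_0Bm

theorem h148_0Bm : ∃ t, chk3 f0Bm t 16 7 12 = true := ex3_b h118_0Bm h119_0Bm

theorem h149_0Bm : ∃ t, chk3 f0Bm t 16 7 6 = true := ex3_c h148_0Bm h120_0Bm

theorem h150_0Bm : ∃ t, chk3 f0Bm t 8 7 6 = true := ex3_a h149_0Bm h147_0Bm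

theorem h151_0Bm : ∃ t, chk3 f0Bm t 4 7 6 = true := ex3_a h150_0Bm h123_0Bm

theorem h152_0Bm : ∃ t, chk3 f0Bm t 4 7 3 = true := ex3_c h151_0Bm h146_0Bm

theorem h153_0Bm : ∃ t, chk3 f0Bm t 4 6 3 = true := ex3_a h116_0Bm h117_0Bm

theorem h154_0Bm : ∃ t, chk3 f0Bm t 4 3 3 = true := ex3_b h153_0Bm h152_0Bm

theorem h155_0Bm : ∃ t, chk3 f0Bm t 2 3 3 = true := ex3_a h154_0Bm h145_0Bm

theorem h156_0Bm : ∃ t, chk3 f0Bm t 21 7 5 = true := ex3_b h113_0Bm h114_0Bm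

theorem h157_0Bm : ∃ t, chk3 f0Bm t 10 7 5 = true := ex3_a h112_0Bm h156_0Bm

theorem h158_0Bm : ∃ t, chk3 f0Bm t 5 7 5 = true := ex3_a h157_0Bm h115_0Bm

theorem h159_0Bm : ∃ t, chk3 f0Bm t 22 7 4 = true := ex3_c h109_0Bm h110_0Bm

theorem h160_0Bm : ∃ t, chk3 f0Bm t 11 7 4 = true := ex3_a h159_0Bm h111_0Bm

theorem h161_0Bm : ∃ t, chk3 f0Bm t 21 15 8 = true := ex3_a h106_0Bm h107_0Bm

theorem h162_0Bm : ∃ t, chk3 f0Bm t 21 15 4 = true := ex3_c h161_0Bm h108_0Bm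

theorem h163_0Bm : ∃ t, chk3 f0Bm t 21 14 4 = true := ex3_a h104_0Bm h105_0Bm

theorem h164_0Bm : ∃ t, chk3 f0Bm t 21 7 4 = true := ex3_b h163_0Bm h162_0Bm

theorem h165_0Bm : ∃ t, chk3 f0Bm t 10 7 4 = true := ex3_a h103_0Bm h164_0Bm

theorem h166_0Bm : ∃ t, chk3 f0Bm t 5 7 4 = true := ex3_a h165_0Bm h160_0Bm

theorem h167_0Bm : ∃ t, chk3 f0Bm t 5 7 2 = true := ex3_c h166_0Bm h158_0Bm

theorem h168_0Bm : ∃ t, chk3 f0Bm t 11 6 5 = true := ex3_a h101_0Bm h102_0Bm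

theorem h169_0Bm : ∃ t, chk3 f0Bm t 5 6 5 = true := ex3_a h100_0Bm h168_0Bm

theorem h170_0Bm : ∃ t, chk3 f0Bm t 22 6 4 = true := ex3_a h97_0Bm h98_0Bm

theorem h171_0Bm : ∃ t, chk3 f0Bm t 11 6 4 = true := ex3_a h170_0Bm h99_0Bm

theorem h172_0Bm : ∃ t, chk3 f0Bm t 5 6 4 = true := ex3_a h96_0Bm h171_0Bm

theorem h173_0Bm : ∃ t, chk3 f0Bm t 5 6 2 = true := ex3_c h172_0Bm h169_0Bm

theorem h174_0Bm : ∃ t, chk3 f0Bm t 5 3 2 = true := ex3_b h173_0Bm h167_0Bm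

theorem h175_0Bm : ∃ t, chk3 f0Bm t 9 7 10 = true := ex3_a h93_0Bm h94_0Bm

theorem h176_0Bm : ∃ t, chk3 f0Bm t 9 7 5 = true := ex3_c h175_0Bm h95_0Bm

theorem h177_0Bm : ∃ t, chk3 f0Bm t 17 7 11 = true := ex3_b h91_0Bm h92_0Bm

theorem h178_0Bm : ∃ t, chk3 f0Bm t 17 7 10 = true := ex3_b h89_0Bm h90_0Bm

theorem h179_0Bm : ∃ t, chk3 f0Bm t 17 7 5 = true := ex3_c h178_0Bm h177_0Bm

theorem h180_0Bm : ∃ t, chk3 f0Bm t 16 7 11 = true := ex3_b h87_0Bm h88_0Bm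

theorem h181_0Bm : ∃ t, chk3 f0Bm t 16 15 10 = true := ex3_c h85_0Bm h86_0Bm

theorem h182_0Bm : ∃ t, chk3 f0Bm t 16 7 10 = true := ex3_b h84_0Bm h181_0Bm

theorem h183_0Bm : ∃ t, chk3 f0Bm t 16 7 5 = true := ex3_c h182_0Bm h180_0Bm

theorem h184_0Bm : ∃ t, chk3 f0Bm t 8 7 5 = true := ex3_a h183_0Bm h179_0Bm

theorem h185_0Bm : ∃ t, chk3 f0Bm t 4 7 5 = true := ex3_a h184_0Bm h176_0Bm

theorem h186_0Bm : ∃ t, chk3 f0Bm t 19 7 4 = true := ex3_c h82_0Bm h83_0Bm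

theorem h187_0Bm : ∃ t, chk3 f0Bm t 18 7 9 = true := ex3_b h80_0Bm h81_0Bm

theorem h188_0Bm : ∃ t, chk3 f0Bm t 18 7 8 = true := ex3_b h78_0Bm h79_0Bm

theorem h189_0Bm : ∃ t, chk3 f0Bm t 18 7 4 = true := ex3_c h188_0Bm h187_0Bm

theorem h190_0Bm : ∃ t, chk3 f0Bm t 9 7 4 = true := ex3_a h189_0Bm h186_0Bm

theorem h191_0Bm : ∃ t, chk3 f0Bm t 17 15 9 = true := ex3_c h76_0Bm h77_0Bm

theorem h192_0Bm : ∃ t, chk3 f0Bm t 17 7 9 = true := ex3_b h75_0Bm h191_0Bm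

theorem h193_0Bm : ∃ t, chk3 f0Bm t 16 15 18 = true := ex3_a h72_0Bm h73_0Bm

theorem h194_0Bm : ∃ t, chk3 f0Bm t 16 15 9 = true := ex3_c h193_0Bm h74_0Bm

theorem h195_0Bm : ∃ t, chk3 f0Bm t 16 14 9 = true := ex3_c h70_0Bm h71_0Bm

theorem h196_0Bm : ∃ t, chk3 f0Bm t 16 7 9 = true := ex3_b h195_0Bm h194_0Bm

theorem h197_0Bm : ∃ t, chk3 f0Bm t 8 7 9 = true := ex3_a h196_0Bm h192_0Bm

theorem h198_0Bm : ∃ t, chk3 f0Bm t 17 15 16 = true := ex3_a h67_0Bm h68_0Bm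

theorem h199_0Bm : ∃ t, chk3 f0Bm t 17 15 8 = true := ex3_c h198_0Bm h69_0Bm

theorem h200_0Bm : ∃ t, chk3 f0Bm t 17 14 8 = true := ex3_c h65_0Bm h66_0Bm

theorem h201_0Bm : ∃ t, chk3 f0Bm t 17 7 8 = true := ex3_b h200_0Bm h199_0Bm

theorem h202_0Bm : ∃ t, chk3 f0Bm t 32 15 17 = true := ex3_b h62_0Bm h63_0Bm

theorem h203_0Bm : ∃ t, chk3 f0Bm t 16 15 17 = true := ex3_a h202_0Bm h64_0Bm

theorem h204_0Bm : ∃ t, chk3 f0Bm t 33 15 16 = true := ex3_c h60_0Bm h61_0Bm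

theorem h205_0Bm : ∃ t, chk3 f0Bm t 32 31 16 = true := ex3_c h58_0Bm h59_0Bm

theorem h206_0Bm : ∃ t, chk3 f0Bm t 32 15 16 = true := ex3_b h57_0Bm h205_0Bm

theorem h207_0Bm : ∃ t, chk3 f0Bm t 16 15 16 = true := ex3_a h206_0Bm h204_0Bm

theorem h208_0Bm : ∃ t, chk3 f0Bm t 16 15 8 = true := ex3_c h207_0Bm h203_0Bm

theorem h209_0Bm : ∃ t, chk3 f0Bm t 16 14 17 = true := ex3_a h55_0Bm h56_0Bm

theorem h210_0Bm : ∃ t, chk3 f0Bm t 32 14 16 = true := ex3_b h52_0Bm h53_0Bm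

theorem h211_0Bm : ∃ t, chk3 f0Bm t 16 14 16 = true := ex3_a h210_0Bm h54_0Bm

theorem h212_0Bm : ∃ t, chk3 f0Bm t 16 14 8 = true := ex3_c h211_0Bm h209_0Bm

theorem h213_0Bm : ∃ t, chk3 f0Bm t 16 7 8 = true := ex3_b h212_0Bm h208_0Bm

theorem h214_0Bm : ∃ t, chk3 f0Bm t 8 7 8 = true := ex3_a h213_0Bm h201_0Bm

theorem h215_0Bm : ∃ t, chk3 f0Bm t 8 7 4 = true := ex3_c h214_0Bm h197_0Bm

theorem h216_0Bm : ∃ t, chk3 f0Bm t 4 7 4 = true := ex3_a h215_0Bm h190_0Bm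

theorem h217_0Bm : ∃ t, chk3 f0Bm t 4 7 2 = true := ex3_c h216_0Bm h185_0Bm

theorem h218_0Bm : ∃ t, chk3 f0Bm t 16 6 5 = true := ex3_c h48_0Bm h49_0Bm

theorem h219_0Bm : ∃ t, chk3 f0Bm t 8 6 5 = true := ex3_a h218_0Bm h50_0Bm

theorem h220_0Bm : ∃ t, chk3 f0Bm t 4 6 5 = true := ex3_a h219_0Bm h51_0Bm

theorem h221_0Bm : ∃ t, chk3 f0Bm t 18 6 4 = true := ex3_c h45_0Bm h46_0Bm

theorem h222_0Bm : ∃ t, chk3 f0Bm t 9 6 4 = true := ex3_a h221_0Bm h47_0Bm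

theorem h223_0Bm : ∃ t, chk3 f0Bm t 16 13 9 = true := ex3_c h42_0Bm h43_0Bm

theorem h224_0Bm : ∃ t, chk3 f0Bm t 16 6 9 = true := ex3_b h41_0Bm h223_0Bm

theorem h225_0Bm : ∃ t, chk3 f0Bm t 8 6 9 = true := ex3_a h224_0Bm h44_0Bm

theorem h226_0Bm : ∃ t, chk3 f0Bm t 17 13 8 = true := ex3_c h39_0Bm h40_0Bm

theorem h227_0Bm : ∃ t, chk3 f0Bm t 17 6 8 = true := ex3_b h38_0Bm h226_0Bm

theorem h228_0Bm : ∃ t, chk3 f0Bm t 16 13 16 = true := ex3_a h35_0Bm h36_0Bm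

theorem h229_0Bm : ∃ t, chk3 f0Bm t 16 13 8 = true := ex3_c h228_0Bm h37_0Bm

theorem h230_0Bm : ∃ t, chk3 f0Bm t 16 12 16 = true := ex3_a h32_0Bm h33_0Bm

theorem h231_0Bm : ∃ t, chk3 f0Bm t 16 12 8 = true := ex3_c h230_0Bm h34_0Bm

theorem h232_0Bm : ∃ t, chk3 f0Bm t 16 6 8 = true := ex3_b h231_0Bm h229_0Bm

theorem h233_0Bm : ∃ t, chk3 f0Bm t 8 6 8 = true := ex3_a h232_0Bm h227_0Bm

theorem h234_0Bm : ∃ t, chk3 f0Bm t 8 6 4 = true := ex3_c h233_0Bm h225_0Bm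

theorem h235_0Bm : ∃ t, chk3 f0Bm t 4 6 4 = true := ex3_a h234_0Bm h222_0Bm

theorem h236_0Bm : ∃ t, chk3 f0Bm t 4 6 2 = true := ex3_c h235_0Bm h220_0Bm

theorem h237_0Bm : ∃ t, chk3 f0Bm t 4 3 2 = true := ex3_b h236_0Bm h217_0Bm

theorem h238_0Bm : ∃ t, chk3 f0Bm t 2 3 2 = true := ex3_a h237_0Bm h174_0Bm

theorem h239_0Bm : ∃ t, chk3 f0Bm t 2 3 1 = true := ex3_c h238_0Bm h155_0Bm

theorem h240_0Bm : ∃ t, chk3 f0Bm t 1 3 1 = true := ex3_a h239_0Bm h136_0Bm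

theorem h241_0Bm : ∃ t, chk3 f0Bm t 11 5 3 = true := ex3_a h29_0Bm h30_0Bm

theorem h242_0Bm : ∃ t, chk3 f0Bm t 23 4 3 = true := ex3_b h27_0Bm h28_0Bm

theorem h243_0Bm : ∃ t, chk3 f0Bm t 11 4 3 = true := ex3_a h26_0Bm h242_0Bm

theorem h244_0Bm : ∃ t, chk3 f0Bm t 11 2 3 = true := ex3_b h243_0Bm h241_0Bm

theorem h245_0Bm : ∃ t, chk3 f0Bm t 5 2 3 = true := ex3_a h25_0Bm h244_0Bm

theorem h246_0Bm : ∃ t, chk3 f0Bm t 4 4 3 = true := ex3_a h22_0Bm h23_0Bm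

theorem h247_0Bm : ∃ t, chk3 f0Bm t 4 2 3 = true := ex3_b h246_0Bm h24_0Bm

theorem h248_0Bm : ∃ t, chk3 f0Bm t 2 2 3 = true := ex3_a h247_0Bm h245_0Bm

theorem h249_0Bm : ∃ t, chk3 f0Bm t 23 5 2 = true := ex3_c h20_0Bm h21_0Bm

theorem h250_0Bm : ∃ t, chk3 f0Bm t 11 5 2 = true := ex3_a h19_0Bm h249_0Bm

theorem h251_0Bm : ∃ t, chk3 f0Bm t 5 5 2 = true := ex3_a h18_0Bm h250_0Bm

theorem h252_0Bm : ∃ t, chk3 f0Bm t 23 4 2 = true := ex3_b h16_0Bm h17_0Bm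

theorem h253_0Bm : ∃ t, chk3 f0Bm t 11 4 2 = true := ex3_a h15_0Bm h252_0Bm

theorem h254_0Bm : ∃ t, chk3 f0Bm t 5 4 2 = true := ex3_a h14_0Bm h253_0Bm

theorem h255_0Bm : ∃ t, chk3 f0Bm t 5 2 2 = true := ex3_b h254_0Bm h251_0Bm

theorem h256_0Bm : ∃ t, chk3 f0Bm t 4 5 5 = true := ex3_a h12_0Bm h13_0Bm

theorem h257_0Bm : ∃ t, chk3 f0Bm t 16 5 4 = true := ex3_c h8_0Bm h9_0Bm

theorem h258_0Bm : ∃ t, chk3 f0Bm t 8 5 4 = true := ex3_a h257_0Bm h10_0Bm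

theorem h259_0Bm : ∃ t, chk3 f0Bm t 4 5 4 = true := ex3_a h258_0Bm h11_0Bm

theorem h260_0Bm : ∃ t, chk3 f0Bm t 4 5 2 = true := ex3_c h259_0Bm h256_0Bm

theorem h261_0Bm : ∃ t, chk3 f0Bm t 9 4 4 = true := ex3_b h5_0Bm h6_0Bm

theorem h262_0Bm : ∃ t, chk3 f0Bm t 9 4 2 = true := ex3_c h261_0Bm h7_0Bm

theorem h263_0Bm : ∃ t, chk3 f0Bm t 8 9 4 = true := ex3_a h2_0Bm h3_0Bm

theorem h264_0Bm : ∃ t, chk3 f0Bm t 8 8 4 = true := ex3_a h0_0Bm h1_0Bm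

theorem h265_0Bm : ∃ t, chk3 f0Bm t 8 4 4 = true := ex3_b h264_0Bm h263_0Bm

theorem h266_0Bm : ∃ t, chk3 f0Bm t 8 4 2 = true := ex3_c h265_0Bm h4_0Bm

theorem h267_0Bm : ∃ t, chk3 f0Bm t 4 4 2 = true := ex3_a h266_0Bm h262_0Bm

theorem h268_0Bm : ∃ t, chk3 f0Bm t 4 2 2 = true := ex3_b h267_0Bm h260_0Bm

theorem h269_0Bm : ∃ t, chk3 f0Bm t 2 2 2 = true := ex3_a h268_0Bm h255_0Bm

theorem h270_0Bm : ∃ t, chk3 f0Bm t 2 2 1 = true := ex3_c h269_0Bm h248_0Bm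

theorem h271_0Bm : ∃ t, chk3 f0Bm t 1 2 1 = true := ex3_a h270_0Bm h31_0Bm

theorem h272_0Bm : ∃ t, chk3 f0Bm t 1 1 1 = true := ex3_b h271_0Bm h240_0Bm

theorem ct_0Bm : ∃ t, chk3 f0Bm t 1 1 1 = true := h272_0Bm

noncomputable def f0T3 : ℕ → ℕ → ℕ → ℕ → Bool :=
  onCell 0 50331648 0 16777216 33554432 16777216 (c0_T3.row false 25165824)

def h0_0T3 : ∃ t, chk3 f0T3 t 1 1 1 = true :=
  ⟨(b (b (a (a (c (a (c (b (l 16) (a (l 80) (l 16))) (a (l 16) (l 16))) (l 16)) (a (l 16) (l 16))) (a (l 16) (a (l 16) (c (c (l 20) (l 20)) (l 20))))) (a (c (a (a (l 20) (l 12)) (l 12)) (a (c (l 20) (l 20)) (l 12))) (a (l 14) (l 12)))) (a (a (c (a (a (l 3) (c (b (l 80) (l 80)) (l 80))) (b (l 80) (l 80))) (a (c (l 80) (l 80)) (l 80))) (c (a (c (l 80) (l 80)) (a (l 80) (c (l 20) (l 20)))) (a (l 80) (a (l 16) (l 20))))) (a (c (a (a (c (l 20) (l 20)) (l 12)) (c (l 12)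 (l 12))) (a (a (l 20) (l 12)) (l 12))) (a (l 14) (l 12))))) (b (a (a (a (l 3) (c (c (b (l 80) (a (l 3) (l 64))) (l 80)) (l 80))) (c (a (c (l 80) (l 80)) (a (l 80) (c (l 84) (l 84)))) (a (l 80) (a (l 80) (l 84))))) (a (a (c (a (c (l 84) (l 84)) (l 44)) (c (l 20) (l 20))) (c (c (l 44) (l 12)) (l 12))) (a (l 46) (l 12)))) (a (a (a (l 3) (c (a (l 3) (b (l 64) (l 3))) (l 80))) (c (a (c (l 64) (l 64)) (a (l 80) (a (l 80) (l 84)))) (a (l 80) (a (l 80) (l 84))))) (a (a (c (a (c (l 84) (l 84)) (l 44)) (a (l 84) (l 44))) (c (c (l 44) (l 44)) (l 44))) (c (a (l 44) (l 44)) (l 44)))))), by decide +kernel⟩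

theorem ct_0T3 : ∃ t, chk3 f0T3 t 1 1 1 = true := h0_0T3

noncomputable def f0T4 : ℕ → ℕ → ℕ → ℕ → Bool :=
  onCell 0 50331648 0 16777216 33554432 16777216 (c0_T4.row false 25165824)

def h0_0T4 : ∃ t, chk3 f0T4 t 2 4 1 = true :=
  ⟨(a (c (a (c (a (l 16) (l 16)) (l 16)) (l 16)) (l 16)) (a (l 16) (c (c (a (b (l 16) (a (l 16) (c (l 22) (l 22)))) (b (c (a (b (l 16) (l 22)) (a (b (b (l 16) (l 22)) (l 22)) (l 20))) (a (b (l 16) (l 22)) (a (b (b (l 16) (l 22)) (l 20)) (l 20)))) (a (b (l 22) (l 22)) (l 12)))) (a (b (l 16) (a (l 16) (l 22))) (b (c (a (b (l 16) (l 22)) (b (a (b (l 16) (l 22)) (l 20)) (l 20))) (a (b (l 16) (l 22)) (b (a (b (l 16) (l 20)) (l 20)) (l 20)))) (a (b (l 22) (l 22)) (l 12))))) (c (a (b (l 16) (a (l 16) (l 22))) (b (c (b (a (l 16) (c (a (b (l 16) (l 20)) (l 20)) (l 20))) (l 22)) (a (b (l 16) (l 22)) (l 20))) (a (b (l 22) (l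 22)) (l 12)))) (a (b (l 16) (l 22)) (b (a (b (l 16) (l 22)) (l 20)) (b (l 22) (l 20)))))))), by decide +kernel⟩

def h1_0T4 : ∃ t, chk3 f0T4 t 2 5 1 = true :=
  ⟨(a (c (a (c (l 80) (l 16)) (l 16)) (l 16)) (c (a (a (l 16) (c (b (a (l 16) (l 22)) (a (l 22) (l 22))) (b (c (l 16) (l 16)) (l 22)))) (c (a (b (b (l 22) (c (l 22) (l 22))) (a (c (l 22) (l 22)) (l 14))) (b (a (b (l 14) (l 12)) (l 12)) (l 12))) (a (b (b (l 22) (l 22)) (a (l 22) (l 14))) (b (b (l 14) (l 12)) (l 12))))) (a (a (l 16) (c (b (l 16) (l 22)) (b (l 16) (l 22)))) (c (a (b (a (l 22) (l 22)) (a (l 22) (l 14))) (b (l 12) (l 12))) (a (b (l 22) (l 22)) (b (l 12) (l 12))))))), by decide +kernel⟩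

def h2_0T4 : ∃ t, chk3 f0T4 t 3 2 1 = true :=
  ⟨(b (a (a (a (c (b (l 20) (l 12)) (l 20)) (l 12)) (l 12)) (l 12)) (a (a (c (l 12) (l 12)) (l 12)) (l 12))), by decide +kernel⟩

def h3_0T4 : ∃ t, chk3 f0T4 t 1 3 1 = true :=
  ⟨(a (a (b (c (b (l 80) (a (l 80) (a (l 16) (a (l 16) (c (l 22) (l 22)))))) (a (l 16) (a (l 16) (b (l 16) (c (l 22) (l 16)))))) (c (a (l 80) (c (a (b (l 16) (a (l 80) (c (l 22) (l 22)))) (b (c (a (l 22) (l 22)) (l 22)) (c (a (l 22) (l 14)) (a (l 22) (l 14))))) (a (b (l 16) (c (l 22) (l 22))) (b (l 22) (a (l 22) (l 14)))))) (a (l 80) (c (a (b (l 16) (l 22)) (b (l 22) (l 22))) (b (a (l 16) (l 22)) (l 22)))))) (c (b (a (c (a (b (a (l 16) (l 22)) (b (l 22) (l 22))) (b (a (l 22) (l 14)) (a (l 14) (l 14)))) (a (b (c (l 22) (l 22)) (l 22)) (b (a (l 22) (l 14)) (c (l 14) (l 14))))) (a (b (b (l 14) (l 14)) (l 14)) (l 12))) (a (c (a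 (b (a (c (l 22) (l 22)) (l 14)) (a (l 14) (l 14))) (b (l 14) (l 14))) (a (b (a (l 22) (l 14)) (l 14)) (b (l 14) (l 14)))) (c (l 12) (l 12)))) (a (b (c (a (b (l 22) (l 22)) (b (l 22) (l 14))) (b (l 22) (a (l 22) (l 14)))) (c (a (b (l 22) (l 14)) (b (l 14) (l 14))) (a (b (l 22) (l 14)) (b (l 14) (l 14))))) (b (a (b (l 14) (l 12)) (l 12)) (l 12))))) (a (a (c (l 12) (l 12)) (l 12)) (l 44))), by decide +kernel⟩

theorem h4_0T4 : ∃ t, chk3 f0T4 t 2 2 1 = true := ex3_b h0_0T4 h1_0T4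

theorem h5_0T4 : ∃ t, chk3 f0T4 t 1 2 1 = true := ex3_a h4_0T4 h2_0T4

theorem h6_0T4 : ∃ t, chk3 f0T4 t 1 1 1 = true := ex3_b h5_0T4 h3_0T4

theorem ct_0T4 : ∃ t, chk3 f0T4 t 1 1 1 = true := h6_0T4

noncomputable def f0T5 : ℕ → ℕ → ℕ → ℕ → Bool :=
  onCell 0 33554432 0 6291456 33554432 16777216 (c0_T5.row true 16777216)

def h0_0T5 : ∃ t, chk3 f0T5 t 1 1 1 = true :=
  ⟨(a (b (b (a (c (l 16) (l 16)) (l 20)) (a (l 80) (l 84))) (a (c (a (l 80) (l 80)) (l 80)) (l 84))) (a (b (l 20) (l 84)) (l 44))), by decide +kernel⟩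

theorem ct_0T5 : ∃ t, chk3 f0T5 t 1 1 1 = true := h0_0T5

noncomputable def f0T7 : ℕ → ℕ → ℕ → ℕ → Bool :=
  onCell 0 50331648 0 16777216 33554432 16777216 (c0_T7.row false 25165824)

def h0_0T7 : ∃ t, chk3 f0T7 t 1 1 1 = true :=
  ⟨(b (a (a (b (c (b (a (b (c (l 16) (l 16)) (l 80)) (l 16)) (a (c (l 80) (l 16)) (l 16))) (a (l 16) (l 16))) (c (a (a (l 3) (b (l 80) (l 80))) (c (l 80) (l 16))) (a (l 80) (l 16)))) (b (c (l 20) (l 20)) (c (l 84) (l 20)))) (a (c (l 20) (l 20)) (l 12))) (a (a (a (l 3) (c (b (c (l 80) (l 80)) (a (l 3) (b (l 80) (l 3)))) (b (l 80) (l 80)))) (c (b (l 84) (a (l 80) (l 84))) (a (l 80) (l 20)))) (a (c (l 84) (l 20)) (l 12)))), by decide +kernel⟩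

theorem ct_0T7 : ∃ t, chk3 f0T7 t 1 1 1 = true := h0_0T7

noncomputable def f0T7k1 : ℕ → ℕ → ℕ → ℕ → Bool :=
  onCell 0 50331648 0 16777216 33554432 16777216 (c0_T7k1.row false 25165824)

def h0_0T7k1 : ∃ t, chk3 f0T7k1 t 1 1 1 = true :=
  ⟨(a (a (b (b (c (a (c (a (l 16) (l 16)) (l 16)) (l 16)) (a (l 16) (l 16))) (c (a (a (l 3) (l 80)) (l 80)) (a (l 80) (l 16)))) (a (l 3) (c (b (l 80) (l 80)) (l 80)))) (b (c (a (l 20) (l 20)) (l 20)) (c (a (l 80) (l 84)) (l 84)))) (b (a (l 20) (l 12)) (a (c (l 20) (l 20)) (l 12)))), by decide +kernel⟩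

theorem ct_0T7k1 : ∃ t, chk3 f0T7k1 t 1 1 1 = true := h0_0T7k1

noncomputable def f0T7k2 : ℕ → ℕ → ℕ → ℕ → Bool :=
  onCell 0 50331648 0 16777216 33554432 16777216 (c0_T7k2.row false 25165824)

def h0_0T7k2 : ∃ t, chk3 f0T7k2 t 1 1 1 = true :=
  ⟨(b (b (a (a (c (a (c (b (l 16) (a (l 80) (l 16))) (a (l 16) (l 16))) (l 16)) (a (l 16) (l 16))) (a (l 16) (c (a (l 16) (l 20)) (l 20)))) (a (c (a (c (l 20) (l 20)) (l 12)) (a (l 20) (l 12))) (c (l 12) (l 12)))) (a (a (c (a (a (l 3) (c (b (l 80) (l 80)) (l 80))) (b (l 80) (l 80))) (a (c (l 80) (l 80)) (l 80))) (c (a (c (l 80) (l 80)) (a (l 80) (l 20))) (a (l 16) (c (l 20) (l 20))))) (a (c (a (a (l 20) (l 12)) (l 12)) (a (l 20) (l 12))) (c (l 12) (l 12))))) (b (a (a (a (l 3) (c (c (a (l 64) (l 80)) (l 80)) (l 80))) (c (a (l 80) (a (l 80) (l 84))) (a (l 80) (l 84)))) (a (a (c (c (l 84) (l 84)) (l 20))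 (c (l 44) (l 12))) (c (l 12) (l 12)))) (a (a (a (l 3) (c (a (l 3) (l 64)) (l 80))) (c (a (l 80) (a (l 80) (l 84))) (a (l 80) (c (l 84) (l 84))))) (a (a (c (c (l 84) (l 84)) (l 84)) (c (l 44) (l 44))) (c (l 44) (l 44)))))), by decide +kernel⟩

theorem ct_0T7k2 : ∃ t, chk3 f0T7k2 t 1 1 1 = true := h0_0T7k2

end Pool.Agent.Strip051.G.I1_32_3_64.Tab.Mo
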