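import Pool.Agent.Strip051.G.I1_32_3_64.MolD

/-! # The tight charts of a table: certificates (generated) -/

set_option linter.all false
set_option maxRecDepth 100000

namespace Pool.Agent.Strip051.G.I1_32_3_64.Tab.Mo

open Pool.Agent.Strip051.PB Pool.Agent.Strip051.PB.Mol Pool.Agent.Strip051.PB.T
open Pool.Agent.Strip051.G.I1_32_3_64.Tab

noncomputable def f1Ap : ℕ → ℕ → ℕ → ℕ → Bool :=
  onCell 0 33554432 0 6291456 33554432 16777216 (c1_Ap.row false 16777216)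

def h0_1Ap : ∃ t, chk3 f1Ap t 1 1 1 = true :=
  ⟨(a (a (c (c (a (l 16) (l 16)) (l 16)) (l 16)) (c (a (b (l 16) (c (a (b (l 16) (l 22)) (b (l 22) (l 22))) (a (c (l 16) (l 16)) (b (l 22) (l 22))))) (c (b (a (b (l 16) (a (l 16) (l 22))) (c (b (a (b (l 16) (l 22)) (c (b (l 20) (l 20)) (l 20))) (a (b (l 22) (l 12)) (l 12))) (b (a (b (l 16) (l 22)) (l 20)) (b (l 22) (l 12))))) (a (b (a (l 22) (l 22)) (l 14)) (l 12))) (b (a (b (l 16) (c (l 22) (l 22))) (c (a (b (b (l 16) (l 22)) (l 22)) (l 20)) (b (a (b (l 16) (l 22)) (l 20)) (l 20)))) (a (b (l 22) (l 14)) (l 12))))) (a (b (l 16) (c (a (l 16) (c (l 22) (l 22))) (a (l 16) (l 22)))) (c (b (a (b (l 16) (l 22)) (b (a (b (l 16) (l 22)) (l 20)) (l 20))) (a (b (l 22) (l 14)) (l 12))) (b (a (b (l 16) (l 22)) (b (a (b (l 16) (l 20)) (l 20)) (l 20))) (a (b (l 22) (l 12)) (l 12))))))) (a (a (c (b (c (l 20)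 (l 20)) (l 12)) (c (l 20) (l 20))) (l 12)) (l 12))), by decide +kernel⟩

theorem ct_1Ap : ∃ t, chk3 f1Ap t 1 1 1 = true := h0_1Ap

noncomputable def f1Apk1 : ℕ → ℕ → ℕ → ℕ → Bool :=
  onCell 0 50331648 0 16777216 33554432 16777216 (c1_Apk1.row false 25165824)

def h0_1Apk1 : ∃ t, chk3 f1Apk1 t 1 4 1 = true :=
  ⟨(a (a (c (a (c (b (a (l 16) (l 16)) (l 16)) (l 16)) (l 16)) (a (l 16) (l 16))) (a (l 16) (c (c (a (b (l 16) (a (l 16) (c (l 22) (l 22)))) (b (c (a (b (l 16) (l 22)) (a (b (b (l 16) (l 22)) (l 20)) (l 20))) (a (b (l 16) (l 22)) (b (a (b (l 16) (l 22)) (l 20)) (l 20)))) (a (b (l 22) (l 22)) (l 12)))) (a (b (l 16) (a (l 16) (l 22))) (b (c (a (b (l 16) (l 22)) (b (a (b (l 16) (l 20)) (l 20)) (l 20))) (b (a (l 16) (a (l 20) (l 20))) (l 22))) (a (b (l 22) (l 22)) (l 12))))) (c (a (b (l 16) (c (l 22) (l 22))) (b (c (a (b (l 16) (l 22)) (l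 20)) (a (b (l 16) (l 22)) (l 20))) (a (b (l 22) (l 20)) (l 12)))) (a (b (l 16) (l 22)) (a (b (b (l 16) (l 22)) (l 22)) (l 20))))))) (a (a (a (c (c (l 20) (l 20)) (l 20)) (l 12)) (l 12)) (l 12))), by decide +kernel⟩

def h1_1Apk1 : ∃ t, chk3 f1Apk1 t 1 5 1 = true :=
  ⟨(a (a (c (a (c (a (l 80) (l 16)) (l 16)) (c (l 16) (l 16))) (a (l 16) (l 16))) (c (a (a (l 16) (c (b (a (l 16) (l 22)) (c (l 22) (l 22))) (b (c (l 16) (l 16)) (l 22)))) (c (a (b (b (l 22) (l 22)) (a (l 22) (l 14))) (b (a (c (l 14) (l 12)) (l 12)) (l 12))) (a (b (a (l 22) (l 22)) (a (l 22) (l 14))) (b (c (l 12) (l 12)) (l 12))))) (a (a (l 16) (b (c (l 16) (l 16)) (l 22))) (c (a (b (l 22) (l 22)) (b (l 12) (l 12))) (a (b (l 22) (l 22)) (l 12)))))) (a (a (c (l 12) (l 12)) (l 12)) (l 12))), by decide +kernel⟩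

def h2_1Apk1 : ∃ t, chk3 f1Apk1 t 1 3 1 = true :=
  ⟨(a (a (c (b (a (c (l 80) (l 80)) (a (l 80) (b (l 16) (c (a (l 16) (l 22)) (l 22))))) (a (l 80) (c (a (b (l 16) (c (l 22) (l 22))) (b (c (l 22) (l 22)) (c (l 22) (l 22)))) (a (b (l 16) (l 22)) (b (l 22) (l 22)))))) (a (b (l 80) (l 80)) (b (a (l 16) (b (l 16) (l 22))) (c (a (b (l 16) (l 22)) (b (l 22) (l 22))) (a (l 22) (l 22)))))) (c (b (a (c (a (b (c (l 22) (l 22)) (c (l 22) (l 22))) (b (a (l 22) (l 14)) (a (l 14) (l 14)))) (a (b (l 22) (l 22)) (b (c (l 22) (l 22)) (l 14)))) (a (b (a (l 14) (l 12)) (l 14)) (l 12))) (a (c (a (b (a (l 22) (l 14)) (l 14)) (b (l 14) (l 14))) (a (b (l 22) (l 14)) (b (l 14) (l 14)))) (c (l 12) (l 12)))) (a (b (c (a (b (l 22) (l 22)) (b (l 22) (l 14))) (a (l 22) (b (l 22) (l 14)))) (c (a (b (l 22) (l 14)) (b (l 14) (l 12))) (a (b (l 22) (l 14)) (l 14)))) (b (a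 (b (l 14) (l 12)) (l 12)) (l 12))))) (a (a (c (l 12) (l 12)) (l 44)) (l 44))), by decide +kernel⟩

theorem h3_1Apk1 : ∃ t, chk3 f1Apk1 t 1 2 1 = true := ex3_b h0_1Apk1 h1_1Apk1

theorem h4_1Apk1 : ∃ t, chk3 f1Apk1 t 1 1 1 = true := ex3_b h3_1Apk1 h2_1Apk1

theorem ct_1Apk1 : ∃ t, chk3 f1Apk1 t 1 1 1 = true := h4_1Apk1

noncomputable def f1Apk2 : ℕ → ℕ → ℕ → ℕ → Bool :=
  onCell 0 50331648 0 16777216 33554432 16777216 (c1_Apk2.row false 25165824)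

def h0_1Apk2 : ∃ t, chk3 f1Apk2 t 2 2 1 = true :=
  ⟨(b (a (c (a (c (l 16) (l 16)) (l 16)) (l 16)) (a (l 16) (c (c (a (b (l 16) (a (l 16) (c (l 22) (l 22)))) (b (c (a (b (l 16) (l 22)) (b (a (b (l 16) (l 22)) (l 20)) (l 20))) (a (b (l 16) (l 22)) (b (a (b (l 16) (l 20)) (l 20)) (l 20)))) (a (b (l 22) (l 22)) (l 12)))) (a (b (l 16) (a (l 16) (l 22))) (b (c (a (b (l 16) (l 22)) (b (a (b (l 16) (l 20)) (l 20)) (l 20))) (b (a (l 16) (l 20)) (l 22))) (a (b (l 22) (l 22)) (l 12))))) (c (a (b (l 16) (c (l 22) (l 22))) (b (a (b (l 16) (l 22)) (l 20)) (a (c (l 22) (l 22)) (l 12)))) (a (b (l 16) (l 22)) (a (b (b (l 16) (l 22)) (l 22)) (l 20))))))) (a (c (a (c (l 80) (l 16)) (l 16)) (l 16)) (c (a (a (l 16) (c (b (a (l 16) (l 22)) (c (l 22) (l 22))) (b (c (l 16) (l 16)) (l 22)))) (c (a (b (b (l 22) (l 22)) (a (l 22) (l 14))) (b (a (c (l 14) (l 12))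 (l 12)) (l 12))) (a (b (a (l 22) (l 22)) (a (l 22) (l 14))) (b (c (l 12) (l 12)) (l 12))))) (a (a (l 16) (b (c (l 16) (l 16)) (l 22))) (c (a (b (c (l 22) (l 22)) (l 22)) (b (l 12) (l 12))) (a (b (l 22) (l 22)) (l 12))))))), by decide +kernel⟩

def h1_1Apk2 : ∃ t, chk3 f1Apk2 t 3 2 1 = true :=
  ⟨(a (b (a (a (c (c (l 20) (l 20)) (l 20)) (l 12)) (l 12)) (a (c (l 12) (l 12)) (l 12))) (c (l 12) (l 12))), by decide +kernel⟩

def h2_1Apk2 : ∃ t, chk3 f1Apk2 t 1 3 1 = true :=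
  ⟨(a (a (c (b (a (l 80) (a (l 16) (b (l 16) (c (a (l 16) (l 22)) (l 22))))) (a (l 80) (c (a (b (l 16) (c (l 22) (l 22))) (b (l 22) (a (l 22) (l 14)))) (a (b (l 16) (l 22)) (b (l 22) (l 22)))))) (a (b (l 16) (l 16)) (b (a (l 16) (b (l 16) (l 22))) (c (a (b (l 16) (l 22)) (b (l 22) (l 22))) (a (l 22) (l 22)))))) (c (a (b (c (a (b (c (l 22) (l 22)) (c (l 22) (l 22))) (b (a (l 22) (l 14)) (c (l 14) (l 14)))) (a (b (l 22) (l 22)) (b (l 22) (l 14)))) (c (a (b (a (l 22) (l 14)) (l 14)) (b (l 14) (l 14))) (a (b (l 22) (l 14)) (b (l 14) (l 14))))) (b (a (b (a (l 14) (l 12)) (l 14)) (l 12)) (c (l 12) (l 12)))) (a (b (c (a (b (l 22) (l 22)) (b (l 22) (l 14))) (a (l 22) (b (l 22) (l 14)))) (c (a (b (l 22) (l 14)) (b (l 14) (l 12))) (a (b (l 22) (l 14)) (l 14)))) (b (a (b (l 14) (l 12)) (l 12)) (l 12))))) (a (a (c (l 12) (l 12)) (l 12)) (l 44))), by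 decide +kernel⟩

theorem h3_1Apk2 : ∃ t, chk3 f1Apk2 t 1 2 1 = true := ex3_a h0_1Apk2 h1_1Apk2

theorem h4_1Apk2 : ∃ t, chk3 f1Apk2 t 1 1 1 = true := ex3_b h3_1Apk2 h2_1Apk2

theorem ct_1Apk2 : ∃ t, chk3 f1Apk2 t 1 1 1 = true := h4_1Apk2

noncomputable def f1Am : ℕ → ℕ → ℕ → ℕ → Bool :=
  onCell 0 33554432 0 6291456 33554432 16777216 (c1_Am.row true 16777216)

def h0_1Am : ∃ t, chk3 f1Am t 8 2 4 = true :=
  ⟨(b (a (c (b (a (c (b (a (l 16) (l 16)) (a (l 16) (l 16))) (a (l 16) (l 16))) (c (a (l 16) (l 16)) (a (l 16) (l 16)))) (a (b (a (l 3) (c (l 16) (l 16))) (l 3)) (c (b (a (l 16) (l 16)) (a (l 16) (l 16))) (a (l 16) (l 16))))) (b (a (c (a (l 16) (l 16)) (l 16)) (c (l 16) (l 16))) (a (b (c (l 16) (l 16)) (l 3)) (c (a (l 16) (l 16)) (l 16))))) (c (b (a (c (a (l 16) (l 16)) (l 16)) (c (l 16) (l 16))) (a (c (a (l 16) (l 16)) (a (l 16) (l 16)))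 (c (a (l 16) (l 16)) (l 16)))) (b (a (c (l 16) (l 16)) (c (l 16) (l 16))) (a (c (l 16) (l 16)) (c (l 16) (l 16)))))) (a (b (a (l 3) (c (c (b (a (l 16) (l 16)) (a (l 3) (l 16))) (b (a (l 16) (l 16)) (a (l 3) (l 16)))) (c (a (l 16) (l 16)) (a (l 16) (l 16))))) (l 3)) (c (b (a (c (a (c (l 16) (l 16)) (l 16)) (a (l 16) (l 16))) (c (a (l 16) (l 16)) (a (l 16) (l 16)))) (a (c (a (c (l 16) (l 16)) (c (l 16) (l 16))) (a (c (l 16) (l 16)) (c (l 16) (l 16)))) (c (a (c (l 16) (l 16)) (l 16)) (a (l 16) (l 16))))) (b (a (c (a (l 16) (l 16)) (l 16)) (c (l 16) (l 16))) (a (c (a (l 16) (l 16)) (a (l 16) (l 16))) (c (a (l 16) (l 16)) (l 16))))))), by decide +kernel⟩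

def h1_1Am : ∃ t, chk3 f1Am t 9 2 4 = true :=
  ⟨(b (a (c (b (a (c (l 16) (l 16)) (c (l 16) (l 16))) (a (c (l 16) (l 16)) (c (l 16) (l 16)))) (b (a (l 16) (l 16)) (a (c (l 16) (l 16)) (l 16)))) (c (b (a (l 16) (l 16)) (a (c (l 16) (l 16)) (l 16))) (b (l 16) (a (l 16) (l 16))))) (a (c (b (a (c (a (l 16) (l 16)) (l 16)) (c (l 16) (l 16))) (a (c (a (l 16) (l 16)) (a (l 16) (l 16))) (c (l 16) (l 16)))) (b (a (c (l 16) (l 16)) (c (l 16) (l 16))) (a (c (l 16) (l 16)) (c (l 16) (l 16))))) (c (b (a (c (l 16) (l 16)) (c (l 16) (l 16))) (a (c (l 16) (l 16)) (c (l 16) (l 16)))) (b (a (l 16) (l 16)) (a (c (l 16) (l 16)) (l 16)))))), by decide +kernel⟩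

def h2_1Am : ∃ t, chk3 f1Am t 4 2 5 = true :=
  ⟨(a (b (a (c (b (a (c (l 16) (l 16)) (c (l 16) (l 16))) (a (c (l 16) (l 16)) (c (l 16) (l 16)))) (b (a (c (l 16) (l 16)) (l 16)) (a (c (l 16) (l 16)) (c (l 16) (l 16))))) (c (b (a (c (l 16) (l 16)) (l 16)) (a (c (l 16) (l 16)) (c (l 16) (l 16)))) (b (a (l 16) (l 16)) (a (l 16) (l 16))))) (a (b (a (l 3) (c (c (l 16) (l 16)) (c (l 16) (l 16)))) (l 3)) (c (b (a (c (l 16) (l 16)) (c (l 16) (l 16))) (a (c (l 16) (l 16)) (c (l 16) (l 16)))) (b (a (c (l 16) (l 16)) (l 16)) (a (c (l 16) (l 16)) (c (l 16) (l 16))))))) (b (a (c (b (a (l 16) (l 16)) (a (l 16) (l 16))) (a (l 16) (l 16))) (c (a (l 16) (l 16)) (l 16))) (a (c (b (a (c (l 16) (l 16)) (l 16)) (a (c (l 16) (l 16)) (c (l 16) (l 16)))) (b (a (l 16) (l 16)) (a (l 16) (l 16)))) (c (b (a (l 16) (l 16)) (a (l 16) (l 16))) (a (l 16) (l 16)))))), by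 decide +kernel⟩

def h3_1Am : ∃ t, chk3 f1Am t 8 3 4 = true :=
  ⟨(b (a (l 3) (c (b (a (b (a (l 3) (c (l 16) (l 16))) (l 3)) (c (a (c (l 16) (l 16)) (c (l 16) (l 16))) (a (c (l 16) (l 16)) (l 16)))) (a (l 3) (a (l 3) (b (c (l 16) (l 16)) (l 3))))) (b (a (a (l 3) (c (c (l 16) (l 16)) (l 16))) (c (a (l 16) (l 16)) (a (l 16) (l 16)))) (a (l 3) (a (l 3) (c (c (l 16) (l 16)) (l 16))))))) (l 3)), by decide +kernel⟩

def h4_1Am : ∃ t, chk3 f1Am t 9 6 4 = true :=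
  ⟨(a (c (b (a (c (a (c (l 16) (l 16)) (l 16)) (a (l 16) (l 16))) (c (a (l 16) (l 16)) (a (l 16) (l 16)))) (a (c (a (c (l 16) (l 16)) (c (l 16) (l 16))) (c (a (l 16) (l 16)) (l 16))) (c (c (a (l 16) (l 16)) (l 16)) (a (l 16) (l 16))))) (b (a (c (a (l 16) (l 16)) (l 16)) (c (l 16) (l 16))) (a (c (a (l 16) (l 16)) (a (l 16) (l 16))) (c (a (l 16) (l 16)) (l 16))))) (c (b (a (c (l 16) (l 16)) (c (l 16) (l 16))) (a (c (a (l 16) (l 16)) (a (l 16) (l 16))) (c (l 16) (l 16)))) (b (a (c (l 16) (l 16)) (c (l 16) (l 16))) (a (c (l 16) (l 16)) (c (l 16) (l 16)))))), by decide +kernel⟩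

def h5_1Am : ∃ t, chk3 f1Am t 9 7 4 = true :=
  ⟨(c (a (b (c (a (c (a (b (l 16) (l 3)) (b (l 16) (l 16))) (a (b (l 16) (l 3)) (l 16))) (a (c (l 16) (l 16)) (c (l 16) (l 16)))) (a (a (c (l 16) (l 16)) (c (l 16) (l 16))) (c (a (l 16) (l 16)) (l 16)))) (a (l 3) (c (c (a (b (l 16) (l 3)) (b (l 16) (l 16))) (a (b (l 16) (l 3)) (l 16))) (a (c (l 16) (l 16)) (c (l 16) (l 16)))))) (b (a (c (a (c (l 16) (l 16)) (l 16)) (a (l 16) (l 16))) (c (a (l 16) (l 16)) (a (l 16) (l 16)))) (a (c (a (c (l 16) (l 16)) (c (l 16) (l 16))) (a (c (l 16) (l 16)) (c (l 16) (l 16)))) (c (a (c (l 16) (l 16)) (l 16)) (a (l 16) (l 16)))))) (a (b (a (c (a (c (l 16) (l 16)) (c (l 16) (l 16))) (a (l 16) (l 16))) (c (a (l 16) (l 16)) (a (l 16) (l 16)))) (a (l 3) (c (a (c (l 16) (l 16)) (c (l 16) (l 16))) (a (l 16) (l 16))))) (b (a (c (a (l 16) (l 16)) (l 16)) (c (l 16) (l 16)))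 (a (c (a (l 16) (l 16)) (a (l 16) (l 16))) (c (a (l 16) (l 16)) (l 16)))))), by decide +kernel⟩

def h6_1Am : ∃ t, chk3 f1Am t 4 3 5 = true :=
  ⟨(a (b (a (l 3) (c (b (a (c (a (l 3) (l 16)) (l 16)) (c (l 16) (l 16))) (a (l 3) (c (a (l 3) (l 16)) (l 16)))) (b (a (c (l 16) (l 16)) (c (l 16) (l 16))) (a (l 3) (c (l 16) (l 16)))))) (l 3)) (b (a (c (b (a (c (l 16) (l 16)) (c (l 16) (l 16))) (a (c (l 16) (l 16)) (c (l 16) (l 16)))) (b (a (c (l 16) (l 16)) (l 16)) (a (c (l 16) (l 16)) (c (l 16) (l 16))))) (c (b (a (c (l 16) (l 16)) (l 16)) (a (c (l 16) (l 16)) (c (l 16) (l 16)))) (b (a (l 16) (l 16)) (a (l 16) (l 16))))) (a (c (b (a (c (a (l 16) (l 16)) (l 16)) (c (l 16) (l 16))) (a (l 3) (c (a (l 16) (l 16)) (l 16)))) (b (a (c (l 16) (l 16)) (c (l 16) (l 16))) (a (l 3) (c (l 16) (l 16))))) (c (b (a (c (l 16) (l 16)) (c (l 16) (l 16))) (a (c (l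 16) (l 16)) (c (l 16) (l 16)))) (a (c (b (l 16) (l 16)) (b (l 16) (l 16))) (c (l 16) (l 16))))))), by decide +kernel⟩

def h7_1Am : ∃ t, chk3 f1Am t 5 2 2 = true :=
  ⟨(a (c (b (a (c (a (c (l 16) (l 16)) (l 16)) (a (l 16) (l 16))) (c (a (l 16) (l 16)) (l 16))) (a (c (b (a (l 16) (l 16)) (a (c (l 16) (l 16)) (l 16))) (a (c (l 16) (l 16)) (l 16))) (c (a (c (l 16) (l 16)) (l 16)) (a (l 16) (l 16))))) (b (a (c (l 16) (l 16)) (c (l 16) (l 16))) (a (c (a (l 16) (l 16)) (a (l 16) (l 16))) (c (l 16) (l 16))))) (c (b (a (c (l 16) (l 16)) (a (l 16) (l 20))) (a (c (a (l 16) (l 16)) (l 16)) (c (a (l 16) (l 20)) (a (l 16) (l 20))))) (b (a (l 16) (c (l 20) (l 20))) (a (c (l 16) (l 16)) (a (l 16) (l 20)))))), by decide +kernel⟩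

def h8_1Am : ∃ t, chk3 f1Am t 5 3 4 = true :=
  ⟨(a (b (a (c (b (a (c (l 16) (l 16)) (c (l 16) (l 16))) (a (c (l 16) (l 16)) (c (l 16) (l 16)))) (b (a (l 16) (l 16)) (a (c (l 16) (l 16)) (l 16)))) (c (a (c (b (l 16) (l 16)) (l 16)) (c (l 16) (l 16))) (a (c (l 16) (l 16)) (l 16)))) (a (c (b (a (c (l 16) (l 16)) (c (l 16) (l 16))) (a (c (a (l 16) (l 16)) (a (l 16) (l 16))) (c (a (l 16) (l 16)) (l 16)))) (a (c (b (l 16) (l 16)) (b (l 16) (l 16))) (c (b (l 16) (l 16)) (b (l 16) (l 16))))) (c (a (c (b (l 16) (l 16)) (b (l 16) (l 16))) (c (b (l 16) (l 16)) (b (l 16) (l 16)))) (a (c (b (l 16) (l 16)) (l 16)) (c (l 16) (l 16)))))) (b (a (c (a (c (l 16) (l 16)) (l 16)) (a (l 16) (l 16))) (c (a (l 16) (l 20)) (a (l 16) (l 20)))) (a (c (a (c (b (l 16) (l 16)) (l 16)) (c (l 16) (l 16))) (a (c (l 16) (l 16)) (l 16))) (c (a (c (l 16) (l 16)) (c (l 20)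 (l 20))) (a (l 16) (c (l 16) (l 16))))))), by decide +kernel⟩

def h9_1Am : ∃ t, chk3 f1Am t 5 3 5 = true :=
  ⟨(a (b (a (c (a (c (l 16) (l 16)) (c (l 16) (l 16))) (a (l 16) (l 16))) (c (a (l 16) (l 16)) (a (l 16) (l 16)))) (a (c (a (c (b (l 16) (l 16)) (l 16)) (c (l 16) (l 16))) (a (c (l 16) (l 16)) (c (l 16) (l 16)))) (c (a (c (l 16) (l 16)) (c (l 16) (l 16))) (a (l 16) (l 16))))) (b (a (c (l 16) (l 16)) (c (a (l 16) (l 20)) (a (l 16) (l 16)))) (a (c (a (l 16) (l 16)) (a (l 16) (l 16))) (c (a (l 16) (l 20)) (a (l 16) (l 16)))))), by decide +kernel⟩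

def h10_1Am : ∃ t, chk3 f1Am t 4 2 3 = true :=
  ⟨(a (c (b (a (c (b (a (l 16) (l 16)) (a (l 16) (l 16))) (b (l 16) (a (l 16) (l 16)))) (c (a (l 16) (l 16)) (a (l 16) (l 16)))) (a (b (a (l 3) (c (l 16) (l 16))) (l 3)) (c (b (a (l 16) (l 16)) (a (l 16) (l 16))) (a (c (l 16) (l 16)) (l 16))))) (b (a (c (a (l 16) (l 16)) (a (l 16) (l 16))) (c (a (l 16) (l 16)) (l 16))) (a (b (c (a (l 3) (l 16)) (l 16)) (l 3)) (c (a (l 16) (l 16)) (a (l 16) (l 16)))))) (c (b (a (c (a (l 16) (l 16)) (l 16)) (c (l 16) (l 16))) (a (c (a (l 16) (l 16)) (a (l 16) (l 16))) (c (a (l 16) (l 16)) (l 16)))) (b (a (c (l 16) (l 16)) (c (l 16) (l 16))) (a (c (a (l 16) (l 16)) (l 16)) (c (l 16) (l 16)))))), by decide +kernel⟩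

def h11_1Am : ∃ t, chk3 f1Am t 4 3 3 = true :=
  ⟨(c (a (b (a (l 3) (c (b (a (c (l 16) (l 16)) (l 16)) (a (l 3) (c (l 16) (l 16)))) (b (a (l 16) (l 16)) (a (l 3) (l 16))))) (l 3)) (b (a (c (b (a (l 16) (l 16)) (a (l 16) (l 16))) (a (c (l 16) (l 16)) (l 16))) (c (a (l 16) (l 16)) (a (l 16) (l 16)))) (a (c (a (b (c (l 16) (l 16)) (l 3)) (c (b (l 16) (l 16)) (l 16))) (a (c (l 16) (l 16)) (c (l 16) (l 16)))) (c (a (c (l 16) (l 16)) (c (l 16) (l 16))) (a (c (l 16) (l 16)) (l 16)))))) (a (b (a (l 3) (c (a (c (l 16) (l 16)) (l 16)) (a (l 16) (l 16)))) (l 3)) (b (a (c (a (l 16) (l 16)) (a (l 16) (l 16))) (c (a (l 16) (l 16)) (l 16))) (a (c (a (c (l 16) (l 16)) (l 16)) (a (l 16) (l 16))) (c (a (l 16) (l 16)) (a (l 16) (l 16))))))), by decide +kernel⟩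

def h12_1Am : ∃ t, chk3 f1Am t 5 1 3 = true :=
  ⟨(b (a (c (b (a (c (l 16) (l 16)) (l 16)) (a (c (l 16) (l 16)) (c (l 16) (l 16)))) (b (a (l 16) (l 16)) (a (c (l 16) (l 16)) (l 16)))) (c (a (c (l 16) (l 16)) (a (l 16) (l 20))) (a (l 16) (c (l 20) (l 20))))) (a (c (b (a (c (a (l 16) (l 16)) (a (l 16) (l 16))) (c (l 16) (l 16))) (a (c (a (l 16) (l 16)) (a (l 16) (l 16))) (c (a (l 16) (l 16)) (a (l 16) (l 16))))) (b (a (c (l 16) (l 16)) (c (l 16) (l 16))) (a (c (a (l 16) (l 16)) (l 16)) (c (l 16) (l 16))))) (c (b (a (c (l 16) (l 16)) (a (l 16) (l 20))) (a (c (l 16) (l 16)) (a (l 16) (c (l 16) (l 16))))) (b (a (l 16) (c (l 20) (l 16))) (a (c (l 16) (l 16)) (c (l 20) (l 16))))))), by decide +kernel⟩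

def h13_1Am : ∃ t, chk3 f1Am t 3 1 2 = true :=
  ⟨(a (b (a (c (a (b (c (a (l 20) (l 12)) (l 20)) (c (a (l 20) (l 14)) (a (l 20) (l 12)))) (b (l 14) (c (l 14) (l 14)))) (a (c (b (l 20) (a (l 20) (l 12))) (b (l 20) (l 20))) (b (l 14) (c (l 14) (l 14))))) (c (a (l 14) (l 14)) (a (l 14) (l 14)))) (a (c (a (b (c (a (l 20) (l 14)) (a (l 20) (l 14))) (c (a (c (l 20) (l 20)) (c (l 14) (l 14))) (a (c (l 20) (l 20)) (c (l 14) (l 14))))) (c (b (a (l 14) (l 14)) (a (l 14) (l 14))) (b (a (l 14) (l 14)) (a (l 14) (l 14))))) (a (b (c (a (l 20) (l 12)) (a (l 20) (l 12))) (c (a (l 20) (l 14)) (a (l 20) (l 12)))) (c (b (l 14) (a (l 14) (l 14))) (b (l 14) (l 14))))) (c (a (b (l 14) (c (l 14) (l 14))) (c (l 14) (l 14))) (a (c (b (l 14) (l 14)) (l 14)) (l 14))))) (a (c (b (l 14) (a (l 14) (l 14))) (b (l 14) (a (l 14) (l 14)))) (b (l 14) (c (l 14) (l 14))))),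 by decide +kernel⟩

def h14_1Am : ∃ t, chk3 f1Am t 3 1 3 = true :=
  ⟨(a (a (b (c (a (c (b (l 20) (l 20)) (l 20)) (b (l 14) (l 14))) (a (c (b (l 20) (l 20)) (l 20)) (b (l 14) (l 14)))) (c (a (c (b (l 20) (a (l 20) (l 12))) (b (l 20) (l 20))) (c (b (l 14) (l 14)) (b (l 14) (l 14)))) (a (c (b (l 20) (l 20)) (b (l 20) (l 20))) (c (b (l 14) (l 14)) (b (l 14) (l 14)))))) (c (b (a (l 14) (l 14)) (a (c (l 14) (l 14)) (l 14))) (b (a (l 14) (l 14)) (a (c (l 14) (l 14)) (l 14))))) (a (b (l 14) (c (l 14) (l 14))) (c (l 14) (l 14)))), by decide +kernel⟩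

theorem h15_1Am : ∃ t, chk3 f1Am t 3 1 1 = true := ex3_c h13_1Am h14_1Am

theorem h16_1Am : ∃ t, chk3 f1Am t 4 1 3 = true := ex3_b h10_1Am h11_1Am

theorem h17_1Am : ∃ t, chk3 f1Am t 2 1 3 = true := ex3_a h16_1Am h12_1Am

theorem h18_1Am : ∃ t, chk3 f1Am t 5 3 2 = true := ex3_c h8_1Am h9_1Am

theorem h19_1Am : ∃ t, chk3 f1Am t 5 1 2 = true := ex3_b h7_1Am h18_1Am

theorem h20_1Am : ∃ t, chk3 f1Am t 9 3 4 = true := ex3_b h4_1Am h5_1Am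

theorem h21_1Am : ∃ t, chk3 f1Am t 4 3 4 = true := ex3_a h3_1Am h20_1Am

theorem h22_1Am : ∃ t, chk3 f1Am t 4 3 2 = true := ex3_c h21_1Am h6_1Am

theorem h23_1Am : ∃ t, chk3 f1Am t 4 2 4 = true := ex3_a h0_1Am h1_1Am

theorem h24_1Am : ∃ t, chk3 f1Am t 4 2 2 = true := ex3_c h23_1Am h2_1Am

theorem h25_1Am : ∃ t, chk3 f1Am t 4 1 2 = true := ex3_b h24_1Am h22_1Am

theorem h26_1Am : ∃ t, chk3 f1Am t 2 1 2 = true := ex3_a h25_1Am h19_1Am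

theorem h27_1Am : ∃ t, chk3 f1Am t 2 1 1 = true := ex3_c h26_1Am h17_1Am

theorem h28_1Am : ∃ t, chk3 f1Am t 1 1 1 = true := ex3_a h27_1Am h15_1Am

theorem ct_1Am : ∃ t, chk3 f1Am t 1 1 1 = true := h28_1Am

noncomputable def f1Bp : ℕ → ℕ → ℕ → ℕ → Bool :=
  onCell 0 33554432 0 6291456 33554432 16777216 (c1_Bp.row false 16777216)

def h0_1Bp : ∃ t, chk3 f1Bp t 1 1 1 = true :=
  ⟨(a (c (a (b (a (c (b (a (l 16) (l 16)) (a (l 16) (l 16))) (a (l 16) (l 16))) (c (a (l 16) (l 16)) (l 16))) (a (b (c (a (l 3) (l 16)) (l 16)) (l 3)) (c (b (l 16) (l 16)) (l 16)))) (b (a (c (l 16) (l 16)) (a (l 16) (l 20))) (a (c (l 16) (l 16)) (a (l 16) (l 20))))) (a (b (c (a (l 16) (l 16)) (l 16)) (a (c (l 16) (l 16)) (l 16))) (b (a (l 16) (c (l 20) (l 20))) (a (l 16) (c (l 20) (l 20)))))) (a (c (b (a (a (l 20) (l 12)) (l 12)) (a (a (l 20) (l 12)) (l 12))) (a (c (l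 20) (l 20)) (l 12))) (c (a (l 12) (l 12)) (a (l 12) (l 12))))), by decide +kernel⟩

theorem ct_1Bp : ∃ t, chk3 f1Bp t 1 1 1 = true := h0_1Bp

noncomputable def f1Bpk1 : ℕ → ℕ → ℕ → ℕ → Bool :=
  onCell 0 50331648 0 16777216 33554432 16777216 (c1_Bpk1.row false 25165824)

def h0_1Bpk1 : ∃ t, chk3 f1Bpk1 t 4 1 1 = true :=
  ⟨(b (c (a (b (b (c (a (b (c (a (l 16) (l 16)) (l 16)) (c (a (l 16) (l 16)) (l 16))) (c (l 16) (l 16))) (a (c (l 16) (l 16)) (l 16))) (c (a (a (l 3) (c (b (l 16) (l 16)) (l 16))) (c (a (l 16) (l 16)) (l 16))) (a (c (l 16) (l 16)) (l 16)))) (a (l 3) (c (b (c (a (b (l 16) (l 3)) (l 16)) (a (l 16) (l 16))) (a (l 3) (b (c (l 80) (l 16)) (l 3)))) (b (c (l 16) (l 16)) (a (l 3) (l 80)))))) (b (b (c (a (l 16) (l 16)) (l 16)) (c (a (l 16) (l 16)) (l 16))) (c (b (a (c (l 16) (l 16)) (l 16)) (a (c (a (l 80) (l 16)) (l 80)) (l 80)))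 (a (b (l 16) (l 80)) (l 16))))) (b (a (c (b (l 16) (a (l 16) (l 16))) (l 16)) (c (l 16) (l 16))) (a (a (l 3) (c (b (l 16) (l 16)) (l 16))) (c (a (l 16) (l 16)) (l 16))))) (a (l 3) (c (b (c (a (b (a (l 3) (c (l 80) (l 80))) (l 3)) (b (c (l 80) (l 80)) (c (a (b (l 80) (l 3)) (l 80)) (l 80)))) (a (b (c (l 80) (l 16)) (l 3)) (b (l 80) (l 80)))) (a (l 3) (b (a (l 3) (c (b (c (l 80) (l 80)) (l 3)) (l 80))) (l 3)))) (b (c (a (b (l 80) (l 3)) (l 80)) (a (l 80) (l 16))) (a (l 3) (b (c (l 80) (l 80)) (l 3))))))), by decide +kernel⟩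

def h1_1Bpk1 : ∃ t, chk3 f1Bpk1 t 5 1 1 = true :=
  ⟨(b (c (b (a (c (l 16) (l 16)) (a (l 16) (c (l 20) (l 20)))) (a (c (b (l 16) (a (l 16) (l 16))) (l 16)) (a (l 16) (c (l 20) (l 20))))) (a (b (l 16) (l 16)) (a (l 16) (b (l 20) (l 20))))) (c (a (b (c (a (b (l 80) (c (l 80) (l 80))) (b (l 16) (l 80))) (b (l 80) (a (l 80) (l 16)))) (c (a (b (c (a (l 80) (l 80)) (l 80)) (a (l 3) (c (l 80) (l 80)))) (b (l 80) (c (l 80) (l 80)))) (a (b (l 80) (c (l 80) (l 80))) (b (l 80) (l 80))))) (b (c (a (b (l 16) (l 16)) (l 20)) (a (l 16) (l 20))) (c (a (b (l 80) (l 80)) (b (l 20) (l 84))) (a (l 80) (l 84))))) (b (a (c (a (l 16) (l 16)) (l 16)) (a (l 16) (l 20))) (a (c (b (l 80) (a (l 80) (l 80))) (a (l 80) (l 80))) (a (l 80) (l 84)))))), by decide +kernel⟩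

def h2_1Bpk1 : ∃ t, chk3 f1Bpk1 t 3 1 1 = true :=
  ⟨(b (a (a (c (b (a (c (l 20) (l 20)) (l 12)) (a (c (l 20) (l 20)) (l 12))) (a (l 20) (l 12))) (c (c (l 12) (l 12)) (b (l 12) (l 12)))) (a (c (l 12) (l 12)) (c (l 12) (l 12)))) (a (a (c (b (c (a (l 20) (l 12)) (a (l 20) (l 12))) (a (c (l 84) (l 20)) (c (l 12) (l 12)))) (b (c (l 20) (l 20)) (a (l 20) (l 12)))) (c (a (b (l 12) (l 12)) (l 44)) (b (l 12) (l 12)))) (a (c (l 44) (l 12)) (c (l 12) (l 12))))), by decide +kernel⟩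

theorem h3_1Bpk1 : ∃ t, chk3 f1Bpk1 t 2 1 1 = true := ex3_a h0_1Bpk1 h1_1Bpk1

theorem h4_1Bpk1 : ∃ t, chk3 f1Bpk1 t 1 1 1 = true := ex3_a h3_1Bpk1 h2_1Bpk1

theorem ct_1Bpk1 : ∃ t, chk3 f1Bpk1 t 1 1 1 = true := h4_1Bpk1

noncomputable def f1Bpk2 : ℕ → ℕ → ℕ → ℕ → Bool :=
  onCell 0 50331648 0 16777216 33554432 16777216 (c1_Bpk2.row false 25165824)

def h0_1Bpk2 : ∃ t, chk3 f1Bpk2 t 1 1 1 = true :=
  ⟨(a (a (b (b (c (a (c (b (l 16) (a (l 80) (l 16))) (a (l 16) (l 16))) (c (l 16) (l 16))) (a (l 16) (l 16))) (c (a (a (l 3) (c (b (l 80) (l 80)) (l 80))) (c (b (l 80) (l 80)) (l 80))) (a (b (l 80) (l 80)) (c (l 80) (l 16))))) (a (l 3) (c (b (c (b (l 80) (a (l 3) (l 80))) (a (l 80) (l 80))) (a (l 3) (b (c (l 64) (l 64)) (l 3)))) (b (c (l 80) (l 80)) (c (l 80) (l 80)))))) (b (b (c (a (l 16) (a (l 16) (c (l 20) (l 20)))) (a (l 16) (a (l 16) (l 20))))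 (c (a (b (l 80) (l 80)) (c (a (l 16) (l 20)) (a (l 16) (l 20)))) (a (c (l 16) (l 16)) (a (l 16) (l 20))))) (c (b (a (c (l 80) (l 80)) (a (l 80) (c (l 84) (l 84)))) (a (c (a (l 80) (l 80)) (l 80)) (a (l 80) (c (l 84) (l 84))))) (b (a (l 80) (a (l 80) (l 84))) (a (l 80) (a (l 80) (l 84))))))) (b (a (b (c (a (a (l 20) (l 12)) (l 12)) (a (c (l 20) (l 20)) (l 12))) (c (a (a (c (l 20) (l 20)) (l 12)) (l 12)) (a (c (l 20) (l 20)) (l 12)))) (b (a (l 12) (l 12)) (a (l 14) (l 12)))) (a (a (b (c (a (l 84) (l 44)) (c (l 20) (l 20))) (c (a (l 84) (l 44)) (c (l 84) (l 84)))) (c (b (l 44) (l 44)) (b (l 12) (l 44)))) (a (c (l 44) (l 44)) (l 44))))), by decide +kernel⟩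

theorem ct_1Bpk2 : ∃ t, chk3 f1Bpk2 t 1 1 1 = true := h0_1Bpk2

noncomputable def f1Bm : ℕ → ℕ → ℕ → ℕ → Bool :=
  onCell 0 33554432 0 6291456 33554432 16777216 (c1_Bm.row true 16777216)

def h0_1Bm : ∃ t, chk3 f1Bm t 16 8 4 = true :=
  ⟨(c (b (a (c (a (c (a (l 16) (l 16)) (a (l 16) (l 16))) (c (a (l 16) (l 16)) (a (l 16) (l 16)))) (a (c (a (l 16) (l 16)) (l 16)) (c (l 16) (l 16)))) (c (a (c (a (l 16) (l 16)) (l 16)) (c (l 16) (l 16))) (a (c (l 16) (l 16)) (c (l 16) (l 16))))) (a (c (a (c (a (l 16) (l 16)) (a (l 16) (l 16))) (c (a (l 16) (l 16)) (l 16))) (a (c (l 16) (l 16)) (c (l 16) (l 16)))) (c (a (c (l 16) (l 16)) (c (l 16) (l 16))) (a (c (l 16) (l 16)) (c (l 16) (l 16)))))) (a (c (b (a (c (l 16) (l 16)) (c (l 16) (l 16))) (a (c (l 16) (l 16)) (c (l 16) (l 16)))) (b (a (c (l 16) (l 16)) (c (l 16) (l 16))) (a (c (l 16) (l 16)) (c (l 16)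 (l 16))))) (c (b (a (c (l 16) (l 16)) (c (l 16) (l 16))) (a (c (l 16) (l 16)) (c (l 16) (l 16)))) (b (a (c (l 16) (l 16)) (l 16)) (a (c (l 16) (l 16)) (l 16)))))), by decide +kernel⟩

def h1_1Bm : ∃ t, chk3 f1Bm t 17 8 4 = true :=
  ⟨(c (a (c (b (a (c (l 16) (l 16)) (c (l 16) (l 16))) (a (c (l 16) (l 16)) (c (l 16) (l 16)))) (b (a (c (l 16) (l 16)) (c (l 16) (l 16))) (a (c (l 16) (l 16)) (c (l 16) (l 16))))) (c (b (a (c (l 16) (l 16)) (c (l 16) (l 16))) (a (c (l 16) (l 16)) (c (l 16) (l 16)))) (b (a (c (l 16) (l 16)) (l 16)) (a (c (l 16) (l 16)) (l 16))))) (a (c (b (a (c (l 16) (l 16)) (l 16)) (a (c (l 16) (l 16)) (l 16))) (b (a (l 16) (l 16)) (a (l 16) (l 16)))) (c (b (a (l 16) (l 16)) (a (l 16) (l 16))) (b (a (l 16) (l 16)) (a (l 16) (l 16)))))), by decide +kernel⟩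

def h2_1Bm : ∃ t, chk3 f1Bm t 16 9 4 = true :=
  ⟨(c (a (c (b (a (c (a (l 16) (l 16)) (a (l 16) (l 16))) (c (a (l 16) (l 16)) (l 16))) (a (c (a (l 16) (l 16)) (l 16)) (c (l 16) (l 16)))) (b (a (c (l 16) (l 16)) (c (l 16) (l 16))) (a (c (l 16) (l 16)) (c (l 16) (l 16))))) (c (b (a (c (l 16) (l 16)) (c (l 16) (l 16))) (a (c (l 16) (l 16)) (c (l 16) (l 16)))) (b (a (c (l 16) (l 16)) (c (l 16) (l 16))) (a (c (l 16) (l 16)) (c (l 16) (l 16)))))) (a (c (b (a (c (l 16) (l 16)) (c (l 16) (l 16))) (a (c (l 16) (l 16)) (c (l 16) (l 16)))) (b (a (c (l 16) (l 16)) (c (l 16) (l 16))) (a (c (l 16) (l 16)) (c (l 16) (l 16))))) (c (b (a (c (l 16) (l 16)) (c (l 16) (l 16))) (a (c (l 16) (l 16)) (c (l 16) (l 16)))) (b (a (l 16) (l 16)) (a (l 16) (l 16)))))), by decide +kernel⟩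

def h3_1Bm : ∃ t, chk3 f1Bm t 17 9 4 = true :=
  ⟨(c (a (c (b (a (c (l 16) (l 16)) (c (l 16) (l 16))) (a (c (l 16) (l 16)) (c (l 16) (l 16)))) (b (a (c (l 16) (l 16)) (c (l 16) (l 16))) (a (c (l 16) (l 16)) (l 16)))) (c (b (a (c (l 16) (l 16)) (c (l 16) (l 16))) (a (c (l 16) (l 16)) (l 16))) (b (a (l 16) (l 16)) (a (l 16) (l 16))))) (a (c (b (a (l 16) (l 16)) (a (l 16) (l 16))) (b (a (l 16) (l 16)) (a (l 16) (l 16)))) (c (b (a (l 16) (l 16)) (a (l 16) (l 16))) (b (a (l 16) (l 16)) (a (l 16) (l 16)))))), by decide +kernel⟩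

def h4_1Bm : ∃ t, chk3 f1Bm t 9 4 4 = true :=
  ⟨(b (a (c (a (c (b (a (c (l 16) (l 16)) (l 16)) (a (c (l 16) (l 16)) (l 16))) (b (a (l 16) (l 16)) (a (l 16) (l 16)))) (c (b (a (l 16) (l 16)) (a (l 16) (l 16))) (b (a (l 16) (l 16)) (a (l 16) (l 16))))) (a (c (b (a (l 16) (l 16)) (a (l 16) (l 16))) (a (c (l 16) (l 16)) (l 16))) (c (b (a (l 16) (l 16)) (l 16)) (a (l 16) (l 16))))) (c (a (c (b (a (l 16) (l 16)) (a (l 16) (l 16))) (a (l 16) (l 16))) (c (a (l 16) (l 16)) (a (l 16) (l 16)))) (a (c (a (l 16) (l 16)) (a (l 16) (l 16))) (c (a (l 16) (l 16)) (l 16))))) (a (c (a (c (b (a (l 16) (l 16)) (a (l 16) (l 16))) (b (a (l 16) (l 16)) (a (l 16) (l 16)))) (c (b (a (l 16) (l 16)) (a (l 16) (l 16))) (a (c (l 16) (l 16)) (l 16)))) (a (c (a (c (l 16) (l 16)) (l 16)) (a (l 16) (l 16))) (c (a (l 16) (l 16)) (a (l 16) (l 16))))) (c (a (c (a (c (l 16)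 (l 16)) (l 16)) (a (l 16) (l 16))) (c (a (l 16) (l 16)) (a (l 16) (l 16)))) (a (c (a (l 16) (l 16)) (a (l 16) (l 16))) (c (a (l 16) (l 16)) (l 16)))))), by decide +kernel⟩

def h5_1Bm : ∃ t, chk3 f1Bm t 8 4 5 = true :=
  ⟨(b (a (c (a (c (b (a (c (l 16) (l 16)) (l 16)) (a (c (l 16) (l 16)) (l 16))) (b (a (l 16) (l 16)) (a (l 16) (l 16)))) (c (b (a (l 16) (l 16)) (a (l 16) (l 16))) (b (a (l 16) (l 16)) (a (l 16) (l 16))))) (a (c (b (a (l 16) (l 16)) (a (l 16) (l 16))) (a (c (l 16) (l 16)) (l 16))) (c (a (c (l 16) (l 16)) (l 16)) (a (l 16) (l 16))))) (c (a (c (b (a (l 16) (l 16)) (a (l 16) (l 16))) (a (c (l 16) (l 16)) (l 16))) (c (a (c (l 16) (l 16)) (l 16)) (a (l 16) (l 16)))) (a (c (a (l 16) (l 16)) (a (l 16) (l 16))) (c (a (l 16) (l 16)) (a (l 16) (l 16)))))) (a (c (a (c (b (a (l 16) (l 16)) (a (l 16) (l 16))) (b (a (l 16) (l 16)) (a (l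 16) (l 16)))) (c (b (a (l 16) (l 16)) (a (l 16) (l 16))) (b (a (l 16) (l 16)) (a (l 16) (l 16))))) (a (c (b (a (l 16) (l 16)) (a (l 16) (l 16))) (a (l 16) (l 16))) (c (a (l 16) (l 16)) (a (l 16) (l 16))))) (c (a (c (b (a (l 16) (l 16)) (a (l 16) (l 16))) (a (l 16) (l 16))) (c (a (l 16) (l 16)) (a (l 16) (l 16)))) (a (c (a (l 16) (l 16)) (a (l 16) (l 16))) (c (a (l 16) (l 16)) (l 16)))))), by decide +kernel⟩

def h6_1Bm : ∃ t, chk3 f1Bm t 9 4 5 = true :=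
  ⟨(b (a (c (a (c (a (l 16) (l 16)) (a (l 16) (l 16))) (c (a (l 16) (l 16)) (a (l 16) (l 16)))) (a (c (a (l 16) (l 16)) (l 16)) (c (l 16) (l 16)))) (c (a (c (l 16) (l 16)) (c (l 16) (l 16))) (a (c (l 16) (l 16)) (c (l 16) (l 16))))) (a (c (a (c (a (l 16) (l 16)) (a (l 16) (l 16))) (c (a (l 16) (l 16)) (l 16))) (a (c (l 16) (l 16)) (c (l 16) (l 16)))) (c (a (c (l 16) (l 16)) (c (l 16) (l 16))) (a (c (l 16) (l 16)) (c (l 16) (l 16)))))), by decide +kernel⟩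

def h7_1Bm : ∃ t, chk3 f1Bm t 16 5 8 = true :=
  ⟨(b (a (c (b (a (c (a (l 16) (l 16)) (l 80)) (c (l 80) (l 16))) (c (a (l 80) (l 80)) (a (l 80) (l 80)))) (b (a (c (l 16) (l 16)) (c (l 16) (l 16))) (a (c (l 80) (l 80)) (c (l 80) (l 80))))) (c (b (a (c (l 16) (l 16)) (c (l 16) (l 16))) (a (c (l 80) (l 80)) (c (l 80) (l 80)))) (b (a (c (l 16) (l 16)) (c (l 16) (l 16))) (a (c (l 80) (l 80)) (c (l 80) (l 16)))))) (c (a (b (c (a (l 80) (l 80)) (a (l 80) (l 80))) (c (a (a (l 80) (l 80)) (l 80)) (a (l 80) (l 80)))) (b (c (a (l 80) (l 80)) (a (l 80) (l 80))) (c (a (l 80) (l 80)) (a (l 80) (l 80))))) (a (b (c (a (l 80) (l 80)) (a (l 80) (l 80))) (c (a (l 80) (l 80)) (a (l 80) (l 80)))) (b (c (a (l 80) (l 80)) (a (l 80) (l 80))) (c (a (l 80) (l 80)) (l 80)))))), by decide +kernel⟩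

def h8_1Bm : ∃ t, chk3 f1Bm t 17 5 8 = true :=
  ⟨(b (a (c (b (a (c (l 16) (l 16)) (c (l 16) (l 16))) (a (c (l 80) (l 80)) (c (l 80) (l 16)))) (b (a (c (l 16) (l 16)) (l 16)) (a (l 80) (l 80)))) (c (b (a (c (l 16) (l 16)) (l 16)) (a (l 80) (l 80))) (b (a (l 16) (l 16)) (a (l 80) (l 80))))) (a (c (b (a (c (l 80) (l 80)) (c (l 80) (l 80))) (c (a (l 80) (l 80)) (l 80))) (b (a (l 80) (l 80)) (a (l 80) (l 80)))) (c (b (a (l 80) (l 80)) (a (l 80) (l 80))) (b (a (l 80) (l 80)) (a (l 80) (l 80)))))), by decide +kernel⟩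

def h9_1Bm : ∃ t, chk3 f1Bm t 8 5 9 = true :=
  ⟨(a (b (a (c (b (a (c (l 16) (l 16)) (c (l 16) (l 16))) (a (c (l 80) (l 80)) (c (l 80) (l 16)))) (b (a (c (l 16) (l 16)) (l 16)) (a (l 80) (l 80)))) (c (b (a (c (l 16) (l 16)) (l 16)) (a (l 80) (l 80))) (b (a (l 16) (l 16)) (a (l 80) (l 80))))) (c (a (b (c (a (l 80) (l 80)) (a (l 80) (l 80))) (c (a (l 80) (l 80)) (l 80))) (b (a (l 80) (l 80)) (a (l 80) (l 80)))) (a (b (a (l 80) (l 80)) (a (l 80) (l 80))) (b (a (l 80) (l 80)) (a (l 80) (l 80)))))) (b (a (c (b (a (l 16) (l 16)) (a (l 80) (l 80))) (b (a (l 16) (l 16)) (a (l 16) (l 16)))) (c (b (a (l 16) (l 16)) (a (l 16) (l 16))) (a (l 80) (l 80)))) (a (c (b (a (l 80) (l 80)) (a (l 80) (l 80))) (b (a (l 80) (l 80)) (a (l 80) (l 80)))) (c (a (c (l 80) (l 80)) (l 80)) (a (l 80) (l 80)))))), by decide +kernel⟩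

def h10_1Bm : ∃ t, chk3 f1Bm t 9 5 4 = true :=
  ⟨(a (c (b (a (c (b (a (l 16) (l 16)) (a (l 80) (l 80))) (b (a (l 16) (l 16)) (a (l 16) (l 16)))) (c (b (a (l 16) (l 16)) (a (l 16) (l 16))) (a (l 80) (l 80)))) (a (c (b (a (l 80) (l 80)) (a (l 80) (l 80))) (a (c (l 80) (l 80)) (l 80))) (c (a (c (l 80) (l 80)) (l 80)) (a (l 80) (l 80))))) (b (a (c (a (l 80) (l 80)) (a (l 16) (l 16))) (c (a (l 16) (l 16)) (a (l 16) (l 16)))) (a (c (a (l 80) (l 80)) (a (l 80) (l 80))) (c (a (l 80) (l 80)) (a (l 80) (l 80)))))) (c (b (a (c (a (l 80) (l 80)) (a (l 16) (l 16))) (c (a (l 16) (l 16)) (a (l 16) (l 16)))) (a (c (a (l 80) (l 80)) (a (l 80) (l 80))) (c (a (l 80) (l 80)) (a (l 80) (l 80))))) (b (a (c (a (l 16) (l 16)) (l 16)) (c (l 16) (l 16))) (a (c (a (l 80) (l 80)) (l 80)) (c (l 80) (l 80)))))), by decide +kernel⟩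

def h11_1Bm : ∃ t, chk3 f1Bm t 8 5 5 = true :=
  ⟨(c (a (b (a (c (b (a (l 16) (l 16)) (a (l 80) (l 80))) (b (a (l 16) (l 16)) (a (l 16) (l 16)))) (c (b (a (l 16) (l 16)) (a (l 16) (l 16))) (b (a (l 16) (l 16)) (l 80)))) (a (c (b (a (l 80) (l 80)) (a (l 80) (l 80))) (b (a (l 80) (l 80)) (a (l 80) (l 80)))) (c (b (a (l 80) (l 80)) (a (l 80) (l 80))) (a (l 80) (l 80))))) (b (a (c (b (a (l 16) (l 16)) (l 80)) (a (l 16) (l 16))) (c (a (l 16) (l 16)) (a (l 16) (l 16)))) (a (c (a (l 80) (l 80)) (a (l 80) (l 80))) (c (a (l 80) (l 80)) (a (l 80) (l 80)))))) (a (b (a (c (a (c (l 16) (l 16)) (l 80)) (a (l 16) (l 16))) (c (a (l 16) (l 16)) (a (l 16) (l 16)))) (a (c (a (l 80) (l 80)) (a (l 80) (l 80))) (c (a (l 80) (l 80)) (a (l 80) (l 80))))) (b (a (c (a (l 16) (l 16)) (a (l 16) (l 16))) (c (l 16) (l 16))) (a (c (a (l 80) (l 80)) (l 80)) (c (l 80) (l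 80)))))), by decide +kernel⟩

def h12_1Bm : ∃ t, chk3 f1Bm t 9 5 5 = true :=
  ⟨(a (c (b (a (c (a (l 16) (l 16)) (l 16)) (c (l 16) (l 16))) (a (c (a (l 80) (l 80)) (l 80)) (c (l 80) (l 80)))) (b (a (c (l 16) (l 16)) (c (l 16) (l 16))) (a (c (l 80) (l 80)) (c (l 80) (l 80))))) (c (b (a (c (l 16) (l 16)) (c (l 16) (l 16))) (a (c (l 80) (l 80)) (c (l 80) (l 80)))) (b (a (c (l 16) (l 16)) (c (l 16) (l 16))) (a (c (l 80) (l 16)) (c (l 16) (l 16)))))), by decide +kernel⟩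

def h13_1Bm : ∃ t, chk3 f1Bm t 10 4 2 = true :=
  ⟨(c (a (c (b (a (c (a (l 16) (l 16)) (a (l 16) (l 16))) (c (a (l 16) (l 16)) (l 16))) (a (c (a (l 16) (l 16)) (l 16)) (c (l 16) (l 16)))) (b (a (c (l 16) (l 16)) (c (l 16) (l 16))) (a (c (l 16) (l 16)) (c (l 16) (l 16))))) (c (b (a (c (l 16) (l 16)) (c (l 16) (l 16))) (a (c (l 16) (l 16)) (c (l 16) (l 16)))) (b (a (c (l 16) (l 16)) (c (l 16) (l 16))) (a (c (l 16) (l 16)) (c (l 16) (l 16)))))) (a (c (b (a (c (l 16) (l 16)) (c (l 16) (l 16))) (a (c (l 16) (l 16)) (c (l 16) (l 16)))) (b (a (c (l 16) (l 16)) (l 16)) (a (c (l 16) (l 16)) (l 16)))) (c (b (a (c (l 16) (l 16)) (l 16)) (a (l 16) (l 16))) (b (a (l 16) (l 16)) (a (l 16) (l 16)))))), by decide +kernel⟩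

def h14_1Bm : ∃ t, chk3 f1Bm t 11 4 4 = true :=
  ⟨(a (c (b (a (c (l 16) (l 16)) (l 16)) (a (c (l 16) (l 16)) (l 16))) (b (a (l 16) (l 16)) (a (l 16) (l 16)))) (c (b (a (l 16) (c (a (b (l 16) (a (l 22) (l 22))) (a (c (b (b (l 16) (a (l 16) (l 20))) (l 20)) (b (b (l 16) (a (l 16) (l 20))) (l 20))) (l 20))) (a (b (l 16) (a (l 22) (l 22))) (b (a (b (l 16) (a (l 16) (l 20))) (l 20)) (l 20))))) (a (c (a (b (l 16) (l 22)) (b (l 22) (l 22))) (a (b (l 16) (l 22)) (b (l 22) (l 22)))) (a (c (b (c (l 22) (l 22)) (l 14)) (b (l 22) (l 14))) (l 12)))) (b (a (l 16) (c (a (b (l 16) (a (l 16) (l 22))) (b (a (b (l 16) (a (l 16) (l 20))) (l 20)) (l 20))) (a (b (l 16) (c (l 22) (l 22))) (b (a (b (l 16) (c (l 22) (l 20))) (l 20)) (l 20))))) (a (c (a (b (l 16) (l 22)) (b (l 22) (l 22))) (a (b (l 16) (l 16)) (b (l 22) (l 22)))) (a (c (b (l 22) (l 14)) (b (l 22)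 (l 14))) (l 12)))))), by decide +kernel⟩

def h15_1Bm : ∃ t, chk3 f1Bm t 11 4 5 = true :=
  ⟨(a (c (b (a (l 16) (l 16)) (a (l 16) (l 16))) (a (c (l 16) (l 16)) (l 16))) (c (a (b (l 16) (c (a (b (l 16) (l 16)) (b (l 22) (l 22))) (b (a (l 16) (l 22)) (l 22)))) (c (b (a (b (l 16) (c (l 22) (l 22))) (b (a (b (l 16) (l 20)) (l 20)) (l 20))) (a (b (l 22) (l 14)) (l 12))) (b (a (b (l 16) (l 22)) (b (a (b (l 16) (l 20)) (l 20)) (l 20))) (a (b (l 22) (l 14)) (l 12))))) (a (b (l 16) (c (b (a (l 16) (l 22)) (l 22)) (a (l 22) (c (l 22) (l 22))))) (c (b (a (b (l 16) (l 22)) (b (a (b (l 16) (l 20)) (l 20)) (l 20))) (a (b (l 22) (l 14)) (l 12))) (b (a (b (l 16) (l 22)) (b (a (b (l 16) (l 20)) (l 20)) (l 20))) (a (b (l 22) (l 14)) (l 12))))))), by decide +kernel⟩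

def h16_1Bm : ∃ t, chk3 f1Bm t 10 5 4 = true :=
  ⟨(a (c (b (a (c (a (l 16) (l 16)) (l 16)) (c (l 16) (l 16))) (a (c (l 80) (l 80)) (c (l 80) (l 80)))) (b (a (c (l 16) (l 16)) (c (l 16) (l 16))) (a (c (l 80) (l 80)) (c (l 80) (l 80))))) (c (b (a (c (l 16) (l 16)) (c (l 16) (l 16))) (a (c (l 80) (l 80)) (c (l 80) (l 80)))) (b (a (c (l 16) (l 16)) (l 16)) (a (c (l 80) (l 16)) (c (l 16) (l 16)))))), by decide +kernel⟩

def h17_1Bm : ∃ t, chk3 f1Bm t 11 5 4 = true :=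
  ⟨(a (c (b (a (c (l 16) (l 16)) (a (l 16) (b (l 16) (c (l 22) (l 22))))) (a (a (l 80) (b (l 16) (c (l 22) (l 22)))) (c (a (b (l 22) (l 22)) (b (l 22) (l 14))) (a (c (l 22) (l 22)) (b (l 22) (l 14)))))) (b (a (l 16) (a (l 16) (b (l 16) (c (l 22) (l 22))))) (a (a (l 80) (b (l 16) (c (l 22) (l 22)))) (c (a (c (l 22) (l 22)) (c (l 22) (l 22))) (a (c (l 22) (l 22)) (c (l 22) (l 22))))))) (c (a (b (c (a (b (l 22) (l 22)) (b (l 22) (l 14))) (a (b (l 22) (l 22)) (b (l 22) (l 14)))) (c (a (b (l 14) (l 14)) (c (l 14) (l 14))) (a (c (l 14) (l 14)) (l 14)))) (a (c (b (c (l 14) (l 14)) (l 12)) (b (c (l 14) (l 14)) (l 12))) (l 44))) (b (a (c (a (c (l 22) (l 22)) (b (l 22) (l 14))) (a (c (l 22) (l 22)) (b (l 22) (l 14)))) (a (b (l 14) (l 12)) (l 12))) (a (c (a (c (l 14) (l 14)) (l 14)) (a (c (l 14) (l 14)) (l 14))) (c (l 12) (l 12)))))), by decide +kernel⟩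

def h18_1Bm : ∃ t, chk3 f1Bm t 5 5 5 = true :=
  ⟨(a (a (c (b (a (c (l 16) (l 16)) (c (l 16) (l 16))) (a (c (l 80) (l 16)) (l 80))) (b (a (l 16) (l 16)) (a (l 80) (l 80)))) (c (b (a (l 16) (l 16)) (a (l 80) (l 80))) (b (a (l 16) (l 16)) (a (l 16) (l 16))))) (a (c (b (a (l 16) (a (l 16) (b (l 16) (l 22)))) (a (a (l 16) (b (l 16) (c (l 22) (l 22)))) (c (b (l 22) (l 22)) (a (l 22) (l 22))))) (b (a (l 16) (a (l 16) (c (l 22) (l 22)))) (a (a (l 16) (c (l 22) (l 22))) (c (a (l 22) (l 22)) (a (l 22) (l 22)))))) (c (b (a (c (b (l 22) (a (l 22) (l 14))) (b (l 22) (l 22))) (a (c (l 14) (l 12)) (l 12))) (a (c (b (l 14) (l 14)) (a (l 14) (l 14))) (c (l 12) (l 12)))) (a (c (b (b (l 22) (l 22)) (a (l 14) (l 14))) (b (a (l 22) (l 22)) (a (l 14) (l 14)))) (b (c (a (l 12) (l 12)) (l 12)) (l 12)))))), by decide +kernel⟩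

def h19_1Bm : ∃ t, chk3 f1Bm t 8 4 3 = true :=
  ⟨(c (b (a (c (a (c (a (l 16) (l 16)) (a (l 16) (l 16))) (c (a (l 16) (l 16)) (a (l 16) (l 16)))) (a (c (a (l 16) (l 16)) (l 16)) (c (l 16) (l 16)))) (c (a (c (a (l 16) (l 16)) (l 16)) (c (l 16) (l 16))) (a (c (l 16) (l 16)) (c (l 16) (l 16))))) (a (c (a (c (a (l 16) (l 16)) (a (l 16) (l 16))) (c (a (l 16) (l 16)) (l 16))) (a (c (l 16) (l 16)) (c (l 16) (l 16)))) (c (a (c (l 16) (l 16)) (c (l 16) (l 16))) (a (c (l 16) (l 16)) (c (l 16) (l 16)))))) (b (a (c (a (c (l 16) (l 16)) (c (l 16) (l 16))) (a (c (l 16) (l 16)) (c (l 16) (l 16)))) (c (a (c (l 16) (l 16)) (c (l 16) (l 16))) (a (l 16) (l 16)))) (a (c (a (c (l 16) (l 16)) (c (l 16) (l 16))) (a (c (l 16) (l 16)) (c (l 16) (l 16)))) (c (a (c (l 16) (l 16)) (l 16)) (a (l 16) (l 16)))))), by decide +kernel⟩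

def h20_1Bm : ∃ t, chk3 f1Bm t 9 4 3 = true :=
  ⟨(c (a (c (b (a (c (l 16) (l 16)) (c (l 16) (l 16))) (a (c (l 16) (l 16)) (c (l 16) (l 16)))) (b (a (c (l 16) (l 16)) (c (l 16) (l 16))) (a (c (l 16) (l 16)) (l 16)))) (c (b (a (c (l 16) (l 16)) (c (l 16) (l 16))) (a (c (l 16) (l 16)) (l 16))) (b (a (l 16) (l 16)) (a (l 16) (l 16))))) (a (c (b (a (l 16) (l 16)) (a (l 16) (l 16))) (b (a (l 16) (l 16)) (a (l 16) (l 16)))) (c (b (a (l 16) (l 16)) (a (l 16) (l 16))) (b (a (l 16) (l 16)) (l 16))))), by decide +kernel⟩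

def h21_1Bm : ∃ t, chk3 f1Bm t 4 5 3 = true :=
  ⟨(c (a (a (c (b (a (c (a (l 16) (l 16)) (a (l 16) (l 16))) (c (a (l 16) (l 16)) (l 16))) (a (c (a (l 80) (l 80)) (l 80)) (c (l 80) (l 80)))) (b (a (c (l 16) (l 16)) (c (l 16) (l 16))) (a (c (l 80) (l 80)) (c (l 80) (l 80))))) (c (b (a (c (l 16) (l 16)) (c (l 16) (l 16))) (a (c (l 80) (l 80)) (c (l 80) (l 80)))) (b (a (c (l 16) (l 16)) (c (l 16) (l 16))) (a (c (l 80) (l 16)) (c (l 16) (l 16)))))) (a (c (b (a (c (l 16) (l 16)) (c (l 16) (l 16))) (a (c (l 80) (l 16)) (c (l 16) (l 16)))) (b (a (c (l 16) (l 16)) (l 16)) (a (l 80) (l 80)))) (c (b (a (l 16) (l 16)) (a (l 80) (l 80))) (b (a (l 16) (l 16)) (a (l 16) (l 16)))))) (a (a (c (b (a (c (l 16) (l 16)) (c (l 16) (l 16))) (a (c (l 80) (l 16)) (c (l 16) (l 16)))) (b (a (c (l 16) (l 16)) (l 16)) (a (l 80) (l 80)))) (c (b (a (c (l 16) (l 16)) (l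 16)) (a (l 80) (l 80))) (b (a (l 16) (l 16)) (a (l 16) (l 16))))) (a (c (b (a (l 16) (l 16)) (a (l 16) (l 16))) (b (a (l 16) (l 16)) (a (l 16) (l 16)))) (c (a (c (l 16) (l 16)) (l 80)) (a (l 16) (l 16)))))), by decide +kernel⟩

def h22_1Bm : ∃ t, chk3 f1Bm t 5 4 3 = true :=
  ⟨(a (c (a (c (b (a (l 16) (l 16)) (a (l 16) (l 16))) (b (a (l 16) (l 16)) (a (l 16) (l 16)))) (c (a (c (l 16) (l 16)) (l 16)) (a (l 16) (l 16)))) (a (c (a (l 16) (l 16)) (a (l 16) (l 16))) (c (a (l 16) (l 16)) (a (l 16) (l 16))))) (c (a (c (a (l 16) (l 16)) (a (l 16) (l 16))) (c (a (b (l 16) (c (a (l 22) (l 22)) (a (l 22) (l 22)))) (c (b (a (b (l 16) (l 22)) (c (b (l 20) (l 20)) (l 20))) (a (b (l 22) (l 14)) (l 12))) (b (a (b (l 16) (l 22)) (c (l 20) (l 20))) (a (b (l 22) (l 14)) (l 12))))) (a (b (l 16) (c (a (l 22) (l 22)) (a (l 22) (l 22)))) (c (b (a (b (l 16) (l 22))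 (l 20)) (a (b (l 22) (l 12)) (l 12))) (b (a (b (l 16) (l 22)) (l 20)) (a (c (l 22) (l 22)) (l 12))))))) (a (c (a (l 16) (l 16)) (a (l 16) (l 16))) (c (a (b (l 16) (a (l 22) (c (l 22) (l 22)))) (c (b (a (b (l 16) (l 22)) (l 20)) (a (c (l 22) (l 22)) (l 12))) (a (b (b (l 16) (l 22)) (c (l 22) (l 22))) (l 20)))) (a (b (l 16) (b (l 22) (l 22))) (c (a (b (b (l 16) (l 22)) (l 22)) (l 20)) (a (b (b (l 16) (l 22)) (l 22)) (l 20)))))))), by decide +kernel⟩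

def h23_1Bm : ∃ t, chk3 f1Bm t 5 5 3 = true :=
  ⟨(a (c (a (c (b (a (l 16) (l 16)) (a (l 16) (l 16))) (a (c (l 16) (l 16)) (c (l 16) (l 16)))) (c (b (a (l 16) (l 16)) (a (l 16) (l 16))) (a (l 16) (l 16)))) (a (c (a (l 16) (l 16)) (a (l 16) (l 16))) (c (a (l 16) (l 16)) (a (l 16) (l 16))))) (c (a (c (a (b (l 16) (a (l 16) (c (l 22) (l 22)))) (c (b (a (l 16) (l 22)) (a (l 22) (l 22))) (b (a (l 16) (l 22)) (a (l 22) (l 22))))) (a (b (l 16) (a (l 16) (c (l 22) (l 22)))) (c (b (a (l 16) (l 22)) (a (l 22) (l 22))) (b (a (l 16) (l 22)) (l 22))))) (c (a (c (b (a (l 22) (l 22)) (a (l 14) (l 14))) (b (a (l 22) (l 22)) (a (l 14) (l 14)))) (b (c (l 12) (l 12)) (l 12))) (a (c (b (a (l 22) (l 22)) (a (l 14) (l 14))) (b (a (l 22) (l 22)) (a (l 14) (l 14)))) (b (c (l 12) (l 12)) (l 12))))) (a (c (a (b (l 16) (a (l 16) (l 22))) (c (b (a (l 16) (l 22)) (l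 22)) (b (l 22) (l 22)))) (a (b (l 16) (c (l 22) (l 22))) (c (b (l 22) (l 22)) (b (l 22) (l 22))))) (c (a (c (b (a (l 22) (l 22)) (a (l 14) (l 14))) (b (a (l 22) (l 22)) (l 14))) (b (l 12) (l 12))) (a (c (b (l 22) (l 14)) (b (l 22) (l 14))) (c (l 12) (l 12))))))), by decide +kernel⟩

def h24_1Bm : ∃ t, chk3 f1Bm t 3 2 1 = true :=
  ⟨(c (a (a (c (b (b (a (a (c (l 20) (l 20)) (l 12)) (l 12)) (a (c (l 12) (l 12)) (l 12))) (a (a (c (l 44) (l 44)) (l 44)) (c (l 44) (l 44)))) (a (b (a (c (c (l 20) (l 20)) (l 20)) (l 12)) (c (a (l 12) (l 12)) (l 44))) (c (b (l 12) (l 44)) (l 44)))) (c (a (b (l 44) (l 46)) (c (l 46) (l 44))) (a (c (l 44) (l 44)) (c (l 44) (l 44))))) (a (a (c (l 46) (l 46)) (l 46)) (c (l 46) (l 46)))) (a (a (c (b (a (a (c (l 20) (l 20)) (l 12)) (l 12)) (a (c (l 12) (l 12)) (l 44))) (b (a (a (c (l 20) (l 20)) (l 12)) (l 12)) (a (c (l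 12) (l 12)) (l 12)))) (c (a (c (l 44) (l 44)) (l 46)) (a (l 44) (l 44)))) (a (c (l 46) (l 46)) (l 46)))), by decide +kernel⟩

def h25_1Bm : ∃ t, chk3 f1Bm t 16 12 8 = true :=
  ⟨(c (a (b (c (a (b (l 80) (a (l 80) (l 80))) (a (l 80) (l 80))) (a (a (l 80) (l 80)) (l 80))) (c (a (b (a (l 80) (l 80)) (a (l 80) (l 80))) (b (a (l 80) (l 80)) (l 80))) (a (b (l 80) (l 80)) (b (l 80) (l 80))))) (b (c (a (l 80) (l 80)) (a (l 80) (l 80))) (c (a (b (l 80) (l 80)) (a (l 80) (l 80))) (a (a (l 80) (l 80)) (a (l 80) (l 80)))))) (a (b (c (a (l 80) (l 80)) (a (l 80) (l 80))) (c (a (b (l 80) (l 80)) (a (l 80) (l 80))) (a (a (l 80) (l 80)) (a (l 80) (l 80))))) (b (c (a (l 80) (l 80)) (a (l 80) (l 80))) (c (a (a (l 80) (l 80)) (l 80)) (a (l 80) (l 80)))))), by decide +kernel⟩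

def h26_1Bm : ∃ t, chk3 f1Bm t 16 13 8 = true :=
  ⟨(c (a (b (c (a (c (a (l 80) (l 80)) (a (l 80) (l 80))) (c (a (l 80) (l 80)) (a (l 80) (l 80)))) (a (c (a (l 80) (l 80)) (a (l 80) (l 80))) (c (l 80) (l 80)))) (c (a (c (a (l 80) (l 80)) (a (l 80) (l 80))) (c (a (l 80) (l 80)) (a (l 80) (l 80)))) (a (c (a (l 80) (l 80)) (a (l 80) (l 80))) (c (a (l 80) (l 80)) (l 80))))) (b (c (a (a (l 80) (l 80)) (a (l 80) (l 80))) (a (a (l 80) (l 80)) (a (l 80) (l 80)))) (c (a (c (a (l 80) (l 80)) (l 80)) (a (l 80) (l 80))) (a (a (l 80) (l 80)) (a (l 80) (l 80)))))) (a (b (c (a (c (l 80) (l 80)) (a (l 80) (l 80))) (a (a (l 80) (l 80)) (a (l 80) (l 80)))) (c (a (b (l 80) (a (l 80) (l 80))) (a (l 80) (l 80))) (a (a (l 80) (l 80)) (a (l 80) (l 80))))) (b (c (a (a (l 80) (l 80)) (a (l 80) (l 80))) (a (a (l 80) (l 80)) (a (l 80) (l 80)))) (c (a (a (l 80) (l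 80)) (a (l 80) (l 80))) (a (a (l 80) (l 80)) (l 80)))))), by decide +kernel⟩

def h27_1Bm : ∃ t, chk3 f1Bm t 17 6 8 = true :=
  ⟨(b (c (a (b (c (a (l 80) (l 80)) (a (l 80) (l 80))) (c (a (a (l 80) (l 80)) (l 80)) (a (l 80) (l 80)))) (b (a (l 80) (l 80)) (c (a (l 80) (l 80)) (a (l 80) (l 80))))) (a (b (a (l 80) (l 80)) (c (a (l 80) (l 80)) (a (l 80) (l 80)))) (b (a (l 80) (l 80)) (a (l 80) (l 80))))) (c (a (b (c (a (a (l 80) (l 80)) (a (l 80) (l 80))) (a (a (l 80) (l 80)) (a (l 80) (l 80)))) (c (a (a (l 80) (l 80)) (a (l 80) (l 80))) (a (a (l 80) (l 80)) (l 80)))) (b (c (a (a (l 80) (l 80)) (l 80)) (a (l 80) (l 80))) (c (a (l 80) (l 80)) (a (l 80) (l 80))))) (a (b (c (a (a (l 80) (l 80)) (l 80)) (a (l 80) (l 80))) (c (a (l 80) (l 80)) (a (l 80) (l 80)))) (b (c (a (l 80) (l 80)) (a (l 80) (l 80))) (c (a (l 80) (l 80)) (a (l 80) (l 80))))))),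 by decide +kernel⟩

def h28_1Bm : ∃ t, chk3 f1Bm t 16 6 9 = true :=
  ⟨(b (c (a (b (c (a (l 80) (l 80)) (a (l 80) (l 80))) (c (a (a (l 80) (l 80)) (l 80)) (a (l 80) (l 80)))) (b (a (l 80) (l 80)) (c (a (l 80) (l 80)) (a (l 80) (l 80))))) (a (b (a (l 80) (l 80)) (c (a (l 80) (l 80)) (a (l 80) (l 80)))) (b (a (l 80) (l 80)) (a (l 80) (l 80))))) (c (a (b (c (a (a (l 80) (l 80)) (a (l 80) (l 80))) (a (a (l 80) (l 80)) (a (l 80) (l 80)))) (c (a (a (l 80) (l 80)) (a (l 80) (l 80))) (a (a (l 80) (l 80)) (l 80)))) (b (c (a (a (l 80) (l 80)) (l 80)) (a (l 80) (l 80))) (c (a (l 80) (l 80)) (a (l 80) (l 80))))) (a (b (c (a (a (l 80) (l 80)) (l 80)) (a (l 80) (l 80))) (c (a (l 80) (l 80)) (a (l 80) (l 80)))) (b (c (a (l 80) (l 80)) (a (l 80) (l 80))) (c (a (l 80) (l 80)) (a (l 80) (l 80))))))), by decide +kernel⟩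

def h29_1Bm : ∃ t, chk3 f1Bm t 17 6 9 = true :=
  ⟨(b (a (c (b (a (l 80) (l 80)) (a (l 80) (l 80))) (b (a (l 80) (l 80)) (a (l 80) (l 80)))) (c (b (a (l 80) (l 80)) (a (l 80) (l 80))) (b (l 80) (l 80)))) (c (a (b (c (a (l 80) (l 80)) (a (l 80) (l 80))) (c (a (l 80) (l 80)) (a (l 80) (l 80)))) (b (a (l 80) (l 80)) (c (a (l 80) (l 80)) (a (l 80) (l 80))))) (a (b (a (l 80) (l 80)) (c (a (l 80) (l 80)) (a (l 80) (l 80)))) (b (a (l 80) (l 80)) (a (l 80) (l 80)))))), by decide +kernel⟩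

def h30_1Bm : ∃ t, chk3 f1Bm t 9 6 4 = true :=
  ⟨(c (a (b (a (c (b (a (l 80) (l 80)) (a (l 80) (l 80))) (b (a (l 80) (l 80)) (a (l 80) (l 80)))) (c (b (l 80) (a (l 80) (l 80))) (b (l 80) (l 80)))) (c (a (b (c (a (l 80) (l 80)) (l 80)) (c (a (l 80) (l 80)) (a (l 80) (l 80)))) (b (a (l 80) (l 80)) (c (a (l 80) (l 80)) (a (l 80) (l 80))))) (a (b (a (l 80) (l 80)) (c (a (l 80) (l 80)) (a (l 80) (l 80)))) (b (a (l 80) (l 80)) (a (l 80) (l 80)))))) (b (a (c (b (l 80) (l 80)) (a (l 80) (l 80))) (c (a (l 80) (l 80)) (a (l 80) (l 80)))) (a (c (b (a (l 80) (l 80)) (a (l 80) (l 80))) (b (l 80) (l 80))) (c (b (l 80) (l 80)) (a (l 80) (l 80)))))) (a (b (a (c (b (l 80) (l 80)) (a (l 80) (l 80))) (c (a (l 80) (l 80)) (a (l 80) (l 80)))) (a (c (b (a (l 80) (l 80)) (a (l 80) (l 80))) (a (c (l 80) (l 80)) (l 80))) (c (b (l 80) (l 80)) (a (l 80) (l 80)))))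 (b (a (c (a (l 80) (l 80)) (l 80)) (c (l 80) (l 80))) (a (c (a (l 80) (l 80)) (a (l 80) (l 80))) (c (a (l 80) (l 80)) (l 80)))))), by decide +kernel⟩

def h31_1Bm : ∃ t, chk3 f1Bm t 8 6 5 = true :=
  ⟨(c (a (b (c (a (b (a (l 80) (l 80)) (a (l 80) (l 80))) (b (a (l 80) (l 80)) (a (l 80) (l 80)))) (a (b (a (l 80) (l 80)) (a (l 80) (l 80))) (b (l 80) (l 80)))) (c (a (b (c (a (l 80) (l 80)) (a (l 80) (l 80))) (c (a (l 80) (l 80)) (a (l 80) (l 80)))) (b (a (l 80) (l 80)) (c (a (l 80) (l 80)) (a (l 80) (l 80))))) (a (b (a (l 80) (l 80)) (c (a (l 80) (l 80)) (a (l 80) (l 80)))) (b (a (l 80) (l 80)) (a (l 80) (l 80)))))) (b (a (c (b (l 80) (l 80)) (a (l 80) (l 80))) (c (a (l 80) (l 80)) (a (l 80) (l 80)))) (a (c (b (a (l 80) (l 80)) (a (l 80) (l 80))) (b (l 80) (a (l 80) (l 80)))) (c (b (l 80) (a (l 80) (l 80))) (a (l 80) (l 80)))))) (a (b (a (c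 (b (l 80) (l 80)) (a (l 80) (l 80))) (c (a (l 80) (l 80)) (a (l 80) (l 80)))) (c (a (b (a (l 80) (l 80)) (a (l 80) (l 80))) (b (l 80) (a (l 80) (l 80)))) (a (b (l 80) (a (l 80) (l 80))) (a (l 80) (l 80))))) (b (a (c (a (l 80) (l 80)) (l 80)) (c (l 80) (l 80))) (a (c (a (l 80) (l 80)) (a (l 80) (l 80))) (c (a (l 80) (l 80)) (l 80)))))), by decide +kernel⟩

def h32_1Bm : ∃ t, chk3 f1Bm t 9 6 5 = true :=
  ⟨(a (c (b (a (c (a (l 80) (l 80)) (l 80)) (c (l 80) (l 80))) (a (c (a (l 80) (l 80)) (a (l 80) (l 80))) (c (a (l 80) (l 80)) (l 80)))) (b (a (c (l 80) (l 80)) (c (l 80) (l 80))) (a (c (l 80) (l 80)) (c (l 80) (l 80))))) (c (b (a (c (l 80) (l 80)) (c (l 80) (l 80))) (a (c (l 80) (l 80)) (c (l 80) (l 80)))) (b (a (c (l 80) (l 80)) (l 80)) (a (c (l 80) (l 80)) (c (l 80) (l 80)))))), by decide +kernel⟩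

def h33_1Bm : ∃ t, chk3 f1Bm t 16 14 8 = true :=
  ⟨(c (a (b (c (a (c (a (l 80) (l 80)) (a (l 80) (l 80))) (c (a (l 80) (l 80)) (a (l 80) (l 80)))) (a (c (a (l 80) (l 80)) (a (l 80) (l 80))) (c (a (l 80) (l 80)) (a (l 80) (l 80))))) (c (a (c (b (l 80) (l 80)) (a (l 80) (l 80))) (c (a (l 80) (l 80)) (a (l 80) (l 80)))) (a (c (a (l 80) (l 80)) (a (l 80) (l 80))) (c (a (l 80) (l 80)) (a (l 80) (l 80)))))) (b (c (a (c (a (l 80) (l 80)) (a (l 80) (l 80))) (c (l 80) (l 80))) (a (b (l 80) (l 80)) (a (l 80) (l 80)))) (c (a (c (a (l 80) (l 80)) (a (l 80) (l 80))) (c (a (l 80) (l 80)) (a (l 80) (l 80)))) (a (c (a (l 80) (l 80)) (a (l 80) (l 80))) (a (l 80) (l 80)))))) (a (b (c (a (c (a (l 80) (l 80)) (a (l 80) (l 80))) (c (a (l 80) (l 80)) (l 80))) (a (c (a (l 80) (l 80)) (l 80)) (a (l 80) (l 80)))) (c (a (c (a (l 80) (l 80)) (a (l 80) (l 80))) (c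 (a (l 80) (l 80)) (a (l 80) (l 80)))) (a (c (a (l 80) (l 80)) (a (l 80) (l 80))) (a (l 80) (l 80))))) (b (c (a (a (l 80) (l 80)) (a (l 80) (l 80))) (a (a (l 80) (l 80)) (a (l 80) (l 80)))) (c (a (a (l 80) (l 80)) (a (l 80) (l 80))) (a (a (l 80) (l 80)) (a (l 80) (l 80))))))), by decide +kernel⟩

def h34_1Bm : ∃ t, chk3 f1Bm t 16 15 16 = true :=
  ⟨(a (b (c (a (c (a (b (l 80) (l 80)) (b (l 80) (l 80))) (b (l 80) (l 80))) (c (a (l 80) (l 80)) (a (l 80) (l 80)))) (a (c (a (l 80) (l 80)) (a (l 80) (l 80))) (c (a (l 80) (l 80)) (a (l 80) (l 80))))) (c (a (c (a (b (l 80) (l 80)) (b (l 80) (l 80))) (a (b (l 80) (l 80)) (b (l 80) (l 80)))) (c (a (b (l 80) (l 80)) (l 80)) (a (l 80) (l 80)))) (a (c (a (b (l 80) (l 80)) (l 80)) (a (l 80) (l 80))) (c (a (l 80) (l 80)) (a (l 80) (l 80)))))) (b (c (a (c (a (l 80) (l 80)) (a (l 80) (l 80))) (c (a (l 80)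 (l 80)) (a (l 80) (l 80)))) (a (c (a (l 80) (l 80)) (a (l 80) (l 80))) (c (l 80) (l 80)))) (c (a (c (a (l 80) (l 80)) (a (l 80) (l 80))) (c (a (l 80) (l 80)) (a (l 80) (l 80)))) (a (c (a (l 80) (l 80)) (a (l 80) (l 80))) (c (a (l 80) (l 80)) (l 80)))))), by decide +kernel⟩

def h35_1Bm : ∃ t, chk3 f1Bm t 16 15 17 = true :=
  ⟨(a (b (c (a (c (a (l 80) (l 80)) (a (l 80) (l 80))) (c (a (l 80) (l 80)) (a (l 80) (l 80)))) (a (c (a (l 80) (l 80)) (a (l 80) (l 80))) (b (l 80) (l 80)))) (c (a (c (a (l 80) (l 80)) (a (l 80) (l 80))) (c (a (l 80) (l 80)) (a (l 80) (l 80)))) (a (c (a (l 80) (l 80)) (a (l 80) (l 80))) (c (a (l 80) (l 80)) (a (l 80) (l 80)))))) (b (c (a (c (l 80) (l 80)) (a (l 80) (l 80))) (a (a (l 80) (l 80)) (a (l 80) (l 80)))) (c (a (c (a (l 80) (l 80)) (l 80)) (a (l 80) (l 80))) (a (a (l 80) (l 80)) (a (l 80) (l 80)))))), by decide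 +kernel⟩

def h36_1Bm : ∃ t, chk3 f1Bm t 17 7 8 = true :=
  ⟨(b (c (a (b (c (a (a (l 80) (l 80)) (a (l 80) (l 80))) (a (a (l 80) (l 80)) (a (l 80) (l 80)))) (c (a (a (l 80) (l 80)) (a (l 80) (l 80))) (a (a (l 80) (l 80)) (a (l 80) (l 80))))) (b (c (a (l 80) (l 80)) (a (l 80) (l 80))) (c (a (a (l 80) (l 80)) (l 80)) (a (l 80) (l 80))))) (a (b (c (a (a (l 80) (l 80)) (l 80)) (a (l 80) (l 80))) (c (a (a (l 80) (l 80)) (l 80)) (a (l 80) (l 80)))) (b (c (a (l 80) (l 80)) (a (l 80) (l 80))) (c (a (l 80) (l 80)) (a (l 80) (l 80)))))) (c (a (b (c (a (a (l 80) (l 80)) (a (l 80) (l 80))) (a (a (l 80) (l 80)) (a (l 80) (l 80)))) (c (a (c (a (l 80) (l 80)) (l 80)) (a (l 80) (l 80))) (a (a (l 80) (l 80)) (a (l 80) (l 80))))) (b (c (a (a (l 80) (l 80)) (l 80)) (a (a (l 80) (l 80)) (l 80))) (c (a (a (l 80) (l 80)) (a (l 80) (l 80))) (a (a (l 80) (l 80))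 (l 80))))) (a (b (c (a (a (l 80) (l 80)) (a (l 80) (l 80))) (a (a (l 80) (l 80)) (l 80))) (c (a (a (l 80) (l 80)) (a (l 80) (l 80))) (a (a (l 80) (l 80)) (l 80)))) (b (c (a (l 80) (l 80)) (a (l 80) (l 80))) (c (a (l 80) (l 80)) (a (l 80) (l 80))))))), by decide +kernel⟩

def h37_1Bm : ∃ t, chk3 f1Bm t 16 14 9 = true :=
  ⟨(c (a (b (c (a (a (l 80) (l 80)) (a (l 80) (l 80))) (a (a (l 80) (l 80)) (a (l 80) (l 80)))) (c (a (c (l 80) (l 80)) (a (l 80) (l 80))) (a (a (l 80) (l 80)) (a (l 80) (l 80))))) (b (c (a (a (l 80) (l 80)) (l 80)) (a (l 80) (l 80))) (c (a (a (l 80) (l 80)) (l 80)) (a (a (l 80) (l 80)) (l 80))))) (a (b (c (a (a (l 80) (l 80)) (l 80)) (a (l 80) (l 80))) (c (a (a (l 80) (l 80)) (a (l 80) (l 80))) (a (a (l 80) (l 80)) (l 80)))) (b (c (a (l 80) (l 80)) (a (l 80) (l 80))) (c (a (l 80) (l 80)) (a (l 80) (l 80)))))), by decide +kernel⟩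

def h38_1Bm : ∃ t, chk3 f1Bm t 16 15 9 = true :=
  ⟨(c (a (b (c (a (b (l 80) (l 80)) (a (l 80) (l 80))) (a (a (l 80) (l 80)) (a (l 80) (l 80)))) (c (a (c (a (l 80) (l 80)) (a (l 80) (l 80))) (a (l 80) (l 80))) (a (a (l 80) (l 80)) (a (l 80) (l 80))))) (b (c (a (a (l 80) (l 80)) (a (l 80) (l 80))) (a (a (l 80) (l 80)) (l 80))) (c (a (a (l 80) (l 80)) (a (l 80) (l 80))) (a (a (l 80) (l 80)) (a (l 80) (l 80)))))) (a (b (c (a (a (l 80) (l 80)) (a (l 80) (l 80))) (a (a (l 80) (l 80)) (l 80))) (c (a (a (l 80) (l 80)) (a (l 80) (l 80))) (a (a (l 80) (l 80)) (a (l 80) (l 80))))) (b (c (a (l 80) (l 80)) (a (l 80) (l 80))) (c (a (a (l 80) (l 80)) (l 80)) (a (l 80) (l 80)))))), by decide +kernel⟩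

def h39_1Bm : ∃ t, chk3 f1Bm t 17 7 9 = true :=
  ⟨(b (c (a (b (c (a (l 80) (l 80)) (a (l 80) (l 80))) (c (a (l 80) (l 80)) (a (l 80) (l 80)))) (b (c (a (l 80) (l 80)) (a (l 80) (l 80))) (c (a (l 80) (l 80)) (a (l 80) (l 80))))) (a (b (c (a (l 80) (l 80)) (a (l 80) (l 80))) (c (a (l 80) (l 80)) (a (l 80) (l 80)))) (b (c (a (l 80) (l 80)) (a (l 80) (l 80))) (c (a (l 80) (l 80)) (l 80))))) (c (a (b (c (a (l 80) (l 80)) (a (l 80) (l 80))) (c (a (l 80) (l 80)) (a (l 80) (l 80)))) (b (c (a (l 80) (l 80)) (a (l 80) (l 80))) (c (a (l 80) (l 80)) (a (l 80) (l 80))))) (a (b (c (a (l 80) (l 80)) (a (l 80) (l 80))) (c (a (l 80) (l 80)) (a (l 80) (l 80)))) (b (c (a (l 80) (l 80)) (a (l 80) (l 80))) (c (a (l 80) (l 80)) (a (l 80) (l 80))))))), by decide +kernel⟩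

def h40_1Bm : ∃ t, chk3 f1Bm t 9 7 8 = true :=
  ⟨(a (b (c (a (b (c (a (l 80) (l 80)) (a (l 80) (l 80))) (c (a (l 80) (l 80)) (a (l 80) (l 80)))) (b (c (a (l 80) (l 80)) (a (l 80) (l 80))) (c (a (l 80) (l 80)) (a (l 80) (l 80))))) (a (b (c (a (l 80) (l 80)) (a (l 80) (l 80))) (c (a (l 80) (l 80)) (a (l 80) (l 80)))) (b (a (c (l 80) (l 80)) (l 80)) (c (a (l 80) (l 80)) (l 80))))) (c (a (b (c (a (l 80) (l 80)) (a (l 80) (l 80))) (c (a (l 80) (l 80)) (a (l 80) (l 80)))) (b (c (a (l 80) (l 80)) (a (l 80) (l 80))) (c (a (l 80) (l 80)) (a (l 80) (l 80))))) (a (b (c (a (l 80) (l 80)) (a (l 80) (l 80))) (c (a (l 80) (l 80)) (a (l 80) (l 80)))) (b (c (a (l 80) (l 80)) (l 80)) (c (a (l 80) (l 80)) (a (l 80) (l 80))))))) (b (a (c (b (c (a (l 80) (l 80)) (l 80)) (a (l 80) (l 80))) (b (a (l 80) (l 80)) (a (l 80) (l 80)))) (c (b (a (l 80) (l 80)) (a (l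 80) (l 80))) (b (l 80) (a (l 80) (l 80))))) (a (c (b (c (a (l 80) (l 80)) (l 80)) (c (a (l 80) (l 80)) (l 80))) (b (a (l 80) (l 80)) (a (l 80) (l 80)))) (c (b (a (l 80) (l 80)) (a (l 80) (l 80))) (b (a (l 80) (l 80)) (a (l 80) (l 80))))))), by decide +kernel⟩

def h41_1Bm : ∃ t, chk3 f1Bm t 9 7 9 = true :=
  ⟨(a (b (a (c (b (c (a (l 80) (l 80)) (a (l 80) (l 80))) (c (a (l 80) (l 80)) (l 80))) (b (a (l 80) (l 80)) (a (l 80) (l 80)))) (c (b (a (l 80) (l 80)) (a (l 80) (l 80))) (b (a (l 80) (l 80)) (a (l 80) (l 80))))) (c (a (b (c (a (l 80) (l 80)) (a (l 80) (l 80))) (c (a (l 80) (l 80)) (a (l 80) (l 80)))) (b (a (l 80) (l 80)) (a (l 80) (l 80)))) (a (b (a (l 80) (l 80)) (a (l 80) (l 80))) (b (a (l 80) (l 80)) (a (l 80) (l 80)))))) (b (a (c (b (l 80) (a (l 80) (l 80))) (a (c (l 80) (l 80)) (l 80))) (c (b (l 80) (l 80)) (a (l 80) (l 80)))) (a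 (c (b (a (l 80) (l 80)) (a (l 80) (l 80))) (b (a (l 80) (l 80)) (a (l 80) (l 80)))) (c (b (a (l 80) (l 80)) (a (l 80) (l 80))) (b (l 80) (l 80)))))), by decide +kernel⟩

def h42_1Bm : ∃ t, chk3 f1Bm t 16 7 10 = true :=
  ⟨(b (c (a (b (c (a (l 80) (l 80)) (a (l 80) (l 80))) (c (a (l 80) (l 80)) (a (l 80) (l 80)))) (b (c (a (l 80) (l 80)) (a (l 80) (l 80))) (c (a (l 80) (l 80)) (a (l 80) (l 80))))) (a (b (c (a (l 80) (l 80)) (a (l 80) (l 80))) (c (a (l 80) (l 80)) (a (l 80) (l 80)))) (b (c (a (l 80) (l 80)) (a (l 80) (l 80))) (c (a (l 80) (l 80)) (a (l 80) (l 64)))))) (c (a (b (c (a (l 80) (l 80)) (a (l 80) (l 80))) (c (a (a (l 80) (l 80)) (l 80)) (a (l 80) (l 80)))) (b (c (a (l 80) (l 80)) (a (l 80) (l 80))) (c (a (l 80) (l 80)) (a (l 80) (l 80))))) (a (b (c (a (l 80) (l 80)) (a (l 80) (l 80))) (c (a (l 80) (l 80)) (a (l 80) (l 80)))) (b (c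 (a (l 80) (l 80)) (a (l 80) (l 80))) (c (a (l 80) (l 80)) (a (l 80) (l 80))))))), by decide +kernel⟩

def h43_1Bm : ∃ t, chk3 f1Bm t 17 7 10 = true :=
  ⟨(b (c (a (b (c (a (l 80) (l 80)) (a (l 80) (l 80))) (c (a (l 80) (l 80)) (l 80))) (b (a (l 80) (l 80)) (a (l 80) (l 80)))) (a (b (a (l 80) (l 80)) (a (l 80) (l 80))) (b (a (l 80) (l 80)) (a (l 80) (l 80))))) (c (a (b (c (a (l 80) (l 80)) (a (l 80) (l 80))) (c (a (l 80) (l 80)) (a (l 80) (l 80)))) (b (a (l 80) (l 80)) (c (a (l 80) (l 80)) (l 80)))) (a (b (a (l 80) (l 80)) (c (a (l 80) (l 80)) (l 80))) (b (a (l 80) (l 80)) (a (l 80) (l 80)))))), by decide +kernel⟩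

def h44_1Bm : ∃ t, chk3 f1Bm t 8 7 11 = true :=
  ⟨(a (b (c (a (b (c (a (l 80) (l 80)) (a (l 80) (l 80))) (c (a (l 80) (l 80)) (a (l 80) (l 64)))) (b (c (l 80) (l 80)) (a (l 80) (l 80)))) (a (b (c (a (l 80) (l 64)) (l 80)) (a (l 80) (l 80))) (b (a (l 80) (l 80)) (a (l 80) (l 80))))) (c (a (b (c (a (l 80) (l 80)) (a (l 80) (l 80))) (c (a (l 80) (l 80)) (a (l 80) (l 80)))) (b (c (l 80) (l 80)) (c (a (l 80) (l 80)) (l 80)))) (a (b (c (a (l 80) (l 64)) (l 80)) (c (a (l 80) (l 64)) (l 80))) (b (a (l 80) (l 80)) (a (l 80) (l 80)))))) (b (a (c (b (a (l 80) (l 80)) (a (l 80) (l 80))) (b (l 80) (a (l 80) (l 80)))) (c (b (l 80) (a (l 80) (l 80))) (a (l 80) (l 80)))) (c (a (b (a (l 80) (l 80)) (a (l 80) (l 80))) (b (a (l 80) (l 80)) (a (l 80) (l 80)))) (a (b (a (l 80) (l 80)) (a (l 80) (l 80))) (b (a (l 80) (l 80)) (a (l 80) (l 64))))))), by decide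 +kernel⟩

def h45_1Bm : ∃ t, chk3 f1Bm t 9 7 5 = true :=
  ⟨(c (a (b (a (c (b (a (l 80) (l 80)) (a (l 80) (l 80))) (b (l 80) (a (l 80) (l 80)))) (c (b (l 80) (a (l 80) (l 80))) (a (l 80) (l 80)))) (a (c (b (a (l 80) (l 80)) (a (l 80) (l 80))) (b (a (l 80) (l 80)) (a (l 80) (l 80)))) (c (b (a (l 80) (l 80)) (a (l 80) (l 80))) (b (a (l 80) (l 80)) (l 80))))) (b (a (c (a (l 80) (l 80)) (l 80)) (c (l 80) (l 80))) (a (c (b (a (l 80) (l 80)) (l 80)) (b (l 80) (l 80))) (c (b (l 80) (l 80)) (a (l 80) (l 80)))))) (a (b (a (c (a (l 80) (l 80)) (a (l 80) (l 80))) (c (a (l 80) (l 80)) (l 80))) (a (c (b (a (l 80) (l 80)) (l 80)) (b (l 80) (l 80))) (c (b (l 80) (l 80)) (a (l 80) (l 80))))) (b (a (c (l 80) (l 80)) (c (l 80) (l 80))) (a (c (a (l 80) (l 80)) (a (l 80) (l 80))) (c (l 80) (l 80)))))), by decide +kernel⟩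

def h46_1Bm : ∃ t, chk3 f1Bm t 10 6 4 = true :=
  ⟨(a (c (b (a (c (a (l 80) (l 80)) (l 80)) (c (l 80) (l 80))) (a (c (a (l 80) (l 80)) (a (l 80) (l 80))) (c (a (l 80) (l 80)) (l 80)))) (b (a (c (l 80) (l 80)) (c (l 80) (l 80))) (a (c (l 80) (l 80)) (c (l 80) (l 80))))) (c (b (a (c (l 80) (l 80)) (c (l 80) (l 80))) (a (c (l 80) (l 80)) (c (a (b (l 80) (c (l 86) (l 86))) (c (b (l 86) (l 86)) (b (l 86) (l 86)))) (a (b (l 80) (c (l 86) (l 86))) (c (b (l 86) (l 86)) (b (l 86) (l 86))))))) (b (a (c (l 80) (l 80)) (c (l 80) (l 80))) (a (c (l 80) (l 80)) (c (a (b (l 80) (c (l 86) (l 86))) (b (l 86) (l 86))) (a (b (l 80) (l 86)) (b (l 86) (l 86)))))))), by decide +kernel⟩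

def h47_1Bm : ∃ t, chk3 f1Bm t 11 6 4 = true :=
  ⟨(a (c (a (b (c (a (b (l 16) (c (l 86) (l 22))) (b (l 22) (l 86))) (a (b (l 16) (l 86)) (b (l 22) (l 86)))) (c (a (c (b (l 86) (l 78)) (b (l 86) (l 78))) (c (b (l 46) (l 46)) (b (l 46) (l 46)))) (a (b (l 86) (c (l 46) (l 46))) (b (l 46) (l 46))))) (b (c (a (b (l 22) (l 46)) (b (l 14) (l 46))) (a (b (l 22) (l 46)) (c (l 14) (l 14)))) (c (a (b (l 46) (l 46)) (c (l 46) (l 46))) (a (c (l 46) (l 46)) (c (l 46) (l 46)))))) (a (b (c (a (b (l 16) (l 86)) (c (l 22) (l 22))) (a (c (l 22) (l 22)) (c (l 22) (l 22)))) (c (a (b (l 86) (l 78)) (b (l 46) (l 46))) (a (c (l 86) (l 86)) (c (l 46) (l 46))))) (b (c (a (c (l 22) (l 22)) (c (l 14) (l 14))) (a (c (l 22) (l 22)) (c (l 14) (l 14)))) (c (a (c (l 46) (l 46)) (l 46)) (a (c (l 46) (l 46)) (l 46)))))) (c (a (c (b (a (c (l 46) (l 14)) (l 46)) (a (l 46)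 (l 44))) (b (a (l 46) (l 46)) (a (l 46) (l 44)))) (b (l 44) (l 44))) (a (c (b (a (l 14) (l 14)) (a (l 46) (l 44))) (b (a (l 14) (l 14)) (a (l 46) (l 44)))) (c (l 44) (l 44))))), by decide +kernel⟩

def h48_1Bm : ∃ t, chk3 f1Bm t 5 6 5 = true :=
  ⟨(a (a (c (b (a (c (l 80) (l 80)) (c (l 80) (l 80))) (a (c (l 80) (l 80)) (c (l 80) (l 80)))) (b (a (l 80) (l 80)) (a (c (l 80) (l 80)) (l 80)))) (c (b (a (l 80) (l 80)) (a (c (l 80) (l 80)) (c (a (b (l 80) (l 86)) (c (l 86) (l 86))) (a (c (l 86) (l 86)) (c (l 86) (l 86)))))) (a (b (l 80) (l 80)) (b (l 80) (c (a (c (l 86) (l 86)) (c (l 86) (l 86))) (a (c (l 86) (l 86)) (l 86))))))) (a (c (a (b (c (a (c (l 22) (l 22)) (c (l 22) (l 22))) (a (c (l 22) (l 22)) (c (l 22) (l 22)))) (c (a (c (l 86) (l 86)) (c (l 46) (l 46))) (a (c (l 86) (l 86)) (c (l 46) (l 46))))) (b (c (a (c (l 22) (l 22)) (l 14)) (b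 (l 22) (l 14))) (c (a (c (l 46) (l 46)) (l 46)) (a (l 46) (l 46))))) (a (c (b (a (l 22) (l 22)) (a (c (l 86) (l 86)) (l 46))) (b (a (l 22) (l 22)) (a (l 86) (l 46)))) (b (c (a (l 22) (l 14)) (a (l 22) (l 14))) (c (a (l 46) (l 46)) (a (l 46) (l 46)))))) (c (a (c (b (a (l 14) (l 14)) (l 46)) (b (a (l 14) (l 12)) (l 46))) (c (l 44) (l 44))) (a (c (b (a (l 14) (l 12)) (l 46)) (b (a (l 14) (l 12)) (l 46))) (c (l 44) (l 44)))))), by decide +kernel⟩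

def h49_1Bm : ∃ t, chk3 f1Bm t 20 7 8 = true :=
  ⟨(b (a (c (b (l 80) (a (l 80) (l 80))) (b (l 80) (l 80))) (c (a (l 80) (l 80)) (a (l 80) (l 80)))) (a (c (b (a (l 80) (l 80)) (a (l 80) (l 80))) (b (a (l 80) (l 80)) (a (l 80) (l 80)))) (c (b (l 80) (a (l 80) (c (a (l 64) (l 66)) (l 66)))) (b (l 80) (a (l 80) (c (l 66) (l 66))))))), by decide +kernel⟩

def h50_1Bm : ∃ t, chk3 f1Bm t 21 7 8 = true :=
  ⟨(b (a (c (a (c (l 80) (l 80)) (c (b (l 64) (a (l 66) (l 70))) (b (l 80) (a (l 66) (l 70))))) (a (c (l 80) (l 80)) (c (b (l 80) (l 70)) (b (l 80) (l 70))))) (c (a (c (b (l 70) (l 70)) (b (l 86) (l 70))) (c (b (l 86) (l 38)) (b (l 86) (l 38)))) (a (c (b (l 86) (l 70)) (b (l 86) (l 70))) (c (b (l 86) (l 38)) (b (l 86) (l 38)))))) (a (c (a (c (b (a (l 66) (l 66)) (a (c (l 70) (l 70)) (c (l 70) (l 70)))) (b (a (l 66) (l 66)) (a (l 70) (l 70))))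 (c (b (b (a (l 66) (l 70)) (l 70)) (a (l 70) (l 70))) (b (b (l 70) (l 70)) (a (l 70) (l 70))))) (a (c (b (a (l 66) (l 66)) (a (l 70) (l 70))) (b (l 66) (a (l 70) (l 70)))) (c (b (a (l 70) (l 70)) (a (l 70) (l 70))) (b (a (l 70) (l 70)) (a (l 70) (l 70)))))) (c (a (c (b (a (l 70) (l 70)) (a (l 38) (l 38))) (b (a (l 70) (l 38)) (a (l 38) (l 38)))) (c (b (a (l 38) (l 38)) (a (l 38) (l 38))) (b (l 38) (a (l 38) (l 38))))) (a (c (b (l 70) (a (l 38) (l 38))) (b (l 70) (a (l 70) (l 38)))) (c (b (l 38) (a (l 38) (l 38))) (b (l 38) (l 38))))))), by decide +kernel⟩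

def h51_1Bm : ∃ t, chk3 f1Bm t 10 7 9 = true :=
  ⟨(a (b (a (c (a (l 80) (l 80)) (l 80)) (c (l 80) (l 80))) (a (c (b (l 80) (l 80)) (a (l 80) (l 80))) (c (a (l 80) (b (l 64) (c (l 66) (l 66)))) (a (l 80) (b (l 64) (c (l 66) (l 66))))))) (b (a (c (a (l 80) (b (l 80) (c (l 70) (l 70)))) (a (l 80) (b (l 80) (c (l 70) (l 70))))) (c (a (c (b (l 86) (l 70)) (b (l 86) (l 70))) (c (b (l 86) (l 38)) (b (l 86) (l 38)))) (a (c (b (l 86) (l 70)) (b (l 86) (l 70))) (b (l 86) (l 78))))) (a (c (a (c (b (l 66) (a (l 70) (l 70))) (b (l 66) (a (l 66) (l 70)))) (c (b (l 70) (a (l 70) (l 70))) (b (l 70) (a (l 70) (l 70))))) (a (c (b (l 66) (a (l 66) (l 70))) (b (l 66) (a (l 66) (l 70)))) (c (b (l 70) (l 70)) (b (l 70) (l 70))))) (c (a (c (b (l 70) (a (l 38) (l 38))) (b (l 70) (l 38))) (c (b (l 38) (l 38)) (b (l 38) (l 38)))) (a (c (b (l 70) (l 38)) (b (l 70)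 (l 38))) (b (l 38) (l 38))))))), by decide +kernel⟩

def h52_1Bm : ∃ t, chk3 f1Bm t 11 7 4 = true :=
  ⟨(a (c (b (a (c (a (c (b (l 46) (l 38)) (b (l 46) (l 38))) (b (l 46) (l 46))) (a (c (b (l 46) (l 38)) (b (l 46) (l 38))) (b (l 46) (l 46)))) (c (a (c (l 46) (l 46)) (l 46)) (a (c (l 46) (l 46)) (l 46)))) (a (c (a (c (b (l 38) (l 38)) (b (l 38) (l 38))) (b (l 38) (c (l 38) (l 38)))) (a (c (b (l 38) (l 38)) (b (l 38) (l 38))) (b (l 38) (l 38)))) (c (a (c (l 38) (l 38)) (l 46)) (a (l 46) (l 46))))) (a (c (b (a (b (l 46) (l 46)) (c (l 46) (l 46))) (a (b (l 38) (l 38)) (c (l 38) (l 38)))) (b (a (b (l 46) (l 46)) (c (l 46) (l 46))) (a (c (l 38) (l 38)) (c (l 38) (l 38))))) (c (b (a (c (l 46) (l 46)) (l 46)) (a (l 46) (l 46))) (b (a (l 46) (l 46)) (a (l 46) (l 46)))))) (c (a (c (b (a (l 46) (l 44)) (l 46)) (b (l 46) (l 46))) (c (l 44) (l 44)))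 (a (c (b (l 46) (l 46)) (b (l 46) (l 46))) (c (l 44) (l 44))))), by decide +kernel⟩

def h53_1Bm : ∃ t, chk3 f1Bm t 10 7 5 = true :=
  ⟨(a (c (b (a (c (l 80) (l 80)) (c (l 80) (l 80))) (a (c (a (l 80) (l 80)) (l 80)) (b (l 80) (a (l 80) (c (l 66) (l 66)))))) (b (a (c (l 80) (l 80)) (l 80)) (a (c (l 80) (l 80)) (a (l 80) (b (l 80) (c (l 66) (l 66))))))) (c (a (c (b (a (l 80) (b (l 80) (c (l 70) (l 70)))) (a (c (b (l 66) (l 70)) (b (l 66) (l 70))) (c (b (l 70) (l 70)) (b (l 70) (l 70))))) (b (a (l 80) (b (l 80) (l 86))) (a (c (b (l 66) (l 70)) (b (l 66) (l 70))) (b (l 70) (c (l 70) (l 70)))))) (c (b (a (b (l 86) (l 86)) (c (l 86) (l 86))) (a (b (l 70) (c (l 38) (l 38))) (c (l 38) (l 38)))) (b (a (c (l 86) (l 86)) (c (l 86) (l 86))) (a (c (l 70) (l 70)) (c (l 38) (l 38)))))) (a (c (b (a (l 80) (c (l 86) (l 86))) (a (b (l 70) (l 70)) (c (l 70)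 (l 70)))) (b (a (l 80) (c (l 86) (l 86))) (a (c (l 70) (l 70)) (c (l 70) (l 70))))) (c (b (a (c (l 86) (l 86)) (c (l 86) (l 86))) (a (c (l 70) (l 70)) (c (l 38) (l 38)))) (b (a (c (l 86) (l 86)) (c (l 86) (l 86))) (a (c (l 70) (l 70)) (c (l 38) (l 38)))))))), by decide +kernel⟩

def h54_1Bm : ∃ t, chk3 f1Bm t 11 7 5 = true :=
  ⟨(a (c (a (b (c (a (c (l 46) (l 46)) (c (l 46) (l 46))) (a (c (l 46) (l 46)) (c (l 46) (l 46)))) (c (a (c (l 38) (l 38)) (l 46)) (a (c (l 38) (l 38)) (l 46)))) (c (b (a (l 46) (l 46)) (a (l 46) (l 46))) (b (a (l 46) (l 46)) (a (l 46) (l 46))))) (a (c (b (a (c (l 46) (l 46)) (l 46)) (a (c (l 38) (l 38)) (l 46))) (b (a (l 46) (l 46)) (a (l 46) (l 46)))) (c (b (a (l 46) (l 46)) (l 46)) (b (a (l 46) (l 46)) (l 46))))) (c (a (c (b (l 46) (l 46)) (b (l 46) (l 46))) (l 44)) (a (b (c (l 46) (l 46)) (l 46)) (l 44)))), by decide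 +kernel⟩

def h55_1Bm : ∃ t, chk3 f1Bm t 4 6 3 = true :=
  ⟨(c (a (a (c (b (a (c (a (l 80) (l 80)) (l 80)) (c (l 80) (l 80))) (a (c (a (l 80) (l 80)) (a (l 80) (l 80))) (c (a (l 80) (l 80)) (l 80)))) (b (a (c (l 80) (l 80)) (c (l 80) (l 80))) (a (c (l 80) (l 80)) (c (l 80) (l 80))))) (c (b (a (c (l 80) (l 80)) (c (l 80) (l 80))) (a (c (l 80) (l 80)) (c (l 80) (l 80)))) (b (a (c (l 80) (l 80)) (c (l 80) (l 80))) (a (c (l 80) (l 80)) (c (l 80) (l 80)))))) (a (c (b (a (c (l 80) (l 80)) (l 80)) (a (c (l 80) (l 80)) (c (l 80) (l 80)))) (b (a (l 80) (l 80)) (a (c (l 80) (l 80)) (l 80)))) (c (b (a (l 80) (l 80)) (a (c (l 80) (l 80)) (l 80))) (b (a (l 80) (l 80)) (a (l 80) (l 80)))))) (a (a (c (b (a (c (l 80) (l 80)) (c (l 80) (l 80))) (a (c (l 80) (l 80)) (c (l 80) (l 80)))) (b (a (l 80) (l 80)) (a (c (l 80) (l 80)) (l 80)))) (c (b (a (l 80) (l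 80)) (a (c (l 80) (l 80)) (l 80))) (b (a (l 80) (l 80)) (a (l 80) (l 80))))) (a (c (b (a (l 80) (l 80)) (a (l 80) (l 80))) (b (a (l 80) (l 80)) (a (l 80) (l 80)))) (c (b (a (l 80) (l 80)) (a (l 80) (l 80))) (b (l 80) (l 80)))))), by decide +kernel⟩

def h56_1Bm : ∃ t, chk3 f1Bm t 8 7 6 = true :=
  ⟨(c (a (b (c (a (b (a (l 80) (l 80)) (a (l 80) (l 80))) (b (l 80) (a (l 80) (l 80)))) (a (b (l 80) (a (l 80) (l 80))) (c (l 80) (l 80)))) (c (a (b (a (l 80) (l 80)) (a (l 80) (l 80))) (b (a (l 80) (l 80)) (a (l 80) (l 80)))) (a (b (a (l 80) (l 80)) (a (l 80) (l 80))) (b (a (l 80) (l 80)) (a (l 80) (l 64)))))) (b (a (c (a (l 80) (l 80)) (a (l 80) (l 80))) (c (a (l 80) (l 80)) (l 80))) (a (c (b (a (l 80) (l 80)) (a (l 80) (l 64))) (b (l 80) (a (l 64) (l 64)))) (c (b (l 80) (l 80)) (b (l 80) (l 80)))))) (a (b (a (c (b (l 80) (l 80)) (a (l 80) (l 80)))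 (c (a (l 80) (l 80)) (l 80))) (c (a (b (a (l 80) (l 80)) (a (l 80) (l 64))) (b (l 80) (a (l 64) (l 64)))) (a (b (a (l 64) (l 64)) (a (l 64) (l 64))) (b (l 80) (a (l 64) (l 64)))))) (b (a (c (l 80) (l 80)) (c (l 80) (l 80))) (a (c (b (l 80) (l 80)) (a (l 80) (l 80))) (c (a (l 80) (l 80)) (l 80)))))), by decide +kernel⟩

def h57_1Bm : ∃ t, chk3 f1Bm t 9 7 6 = true :=
  ⟨(a (c (b (a (c (l 80) (l 80)) (c (l 80) (l 80))) (a (c (b (l 80) (l 80)) (a (l 80) (l 80))) (c (a (l 80) (l 80)) (l 80)))) (b (a (c (l 80) (l 80)) (c (l 80) (l 80))) (a (c (l 80) (l 80)) (c (l 80) (l 80))))) (c (b (a (c (l 80) (l 80)) (c (l 80) (l 80))) (a (c (l 80) (l 80)) (c (l 80) (l 80)))) (b (a (l 80) (l 80)) (a (c (l 80) (l 80)) (l 80))))), by decide +kernel⟩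

def h58_1Bm : ∃ t, chk3 f1Bm t 4 7 7 = true :=
  ⟨(a (c (a (b (a (c (l 80) (l 80)) (c (l 80) (l 80))) (a (c (b (l 80) (a (l 64) (l 64))) (a (l 80) (l 80))) (c (a (l 80) (l 80)) (l 80)))) (b (a (c (l 80) (l 80)) (c (l 80) (l 80))) (a (c (l 80) (l 80)) (c (l 80) (l 80))))) (a (b (a (c (l 80) (l 80)) (c (l 80) (l 80))) (a (c (l 80) (l 80)) (c (l 80) (l 80)))) (b (a (l 80) (l 80)) (a (c (l 80) (l 80)) (c (l 80) (l 80)))))) (a (c (b (a (l 80) (l 80)) (a (c (l 80) (l 80)) (l 80))) (b (a (l 80) (l 80)) (a (l 80) (l 80)))) (c (b (a (l 80) (l 80)) (a (l 80) (l 80))) (b (a (l 80) (l 80)) (a (l 80) (l 80)))))), by decide +kernel⟩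

def h59_1Bm : ∃ t, chk3 f1Bm t 10 3 6 = true :=
  ⟨(b (a (c (b (a (l 80) (l 80)) (a (l 80) (l 80))) (b (a (l 80) (l 80)) (a (l 80) (l 80)))) (c (a (c (l 80) (l 80)) (b (l 80) (c (a (l 86) (l 86)) (a (l 86) (l 86))))) (a (c (l 80) (l 80)) (b (l 80) (c (a (l 86) (l 86)) (a (l 86) (l 86))))))) (a (c (a (b (l 80) (l 80)) (b (l 80) (a (l 80) (c (l 82) (l 82))))) (a (c (l 80) (l 80)) (b (l 80) (a (l 80) (c (l 82) (l 82)))))) (c (a (c (b (a (l 80) (c (l 86) (l 86))) (a (c (l 70) (l 70)) (c (l 70) (l 70)))) (b (a (l 80) (l 86)) (a (c (l 70) (l 70)) (c (l 70) (l 70))))) (c (b (a (l 86) (l 86)) (a (c (l 70) (l 70)) (l 46))) (b (a (l 86) (l 86)) (a (l 78) (l 46))))) (a (c (b (a (l 80) (l 86)) (a (c (l 70) (l 70)) (l 86))) (b (a (l 80) (l 86)) (a (l 86) (l 86)))) (c (b (a (l 86) (l 86)) (a (l 78) (l 46))) (b (a (l 86) (l 86)) (a (l 78) (l 46)))))))),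 by decide +kernel⟩

def h60_1Bm : ∃ t, chk3 f1Bm t 11 3 6 = true :=
  ⟨(b (a (c (a (c (b (a (l 22) (l 22)) (a (l 86) (l 46))) (b (a (l 22) (l 22)) (a (l 86) (l 46)))) (c (b (a (l 22) (l 14)) (a (l 46) (l 46))) (b (a (l 22) (l 14)) (a (l 46) (l 46))))) (a (c (b (a (l 22) (l 22)) (a (l 86) (l 46))) (b (a (l 22) (l 22)) (a (l 86) (l 14)))) (c (b (a (l 22) (l 14)) (a (l 46) (l 14))) (b (a (l 22) (l 14)) (l 46))))) (c (a (c (b (l 14) (l 46)) (b (l 14) (l 46))) (l 44)) (a (c (b (l 14) (l 46)) (b (l 14) (l 14))) (l 44)))) (a (c (a (c (b (a (l 46) (l 46)) (a (l 46) (l 46))) (b (a (l 46) (l 46)) (a (l 46) (l 46)))) (c (b (l 46) (l 46)) (b (l 46) (l 46)))) (a (c (b (a (l 46) (l 46)) (a (l 46) (l 46))) (b (a (l 46) (l 46)) (a (l 46) (l 46)))) (c (b (l 46) (l 46)) (b (l 46) (l 46))))) (c (a (b (l 46) (l 46)) (l 44)) (a (b (l 46) (l 46)) (l 44))))), by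 decide +kernel⟩

def h61_1Bm : ∃ t, chk3 f1Bm t 10 3 7 = true :=
  ⟨(b (a (c (b (l 80) (a (l 80) (l 80))) (a (l 80) (l 80))) (c (a (c (l 80) (l 80)) (b (l 16) (c (a (l 86) (l 22)) (a (l 22) (l 22))))) (a (l 80) (b (l 16) (c (l 22) (l 22)))))) (a (c (a (c (l 80) (l 80)) (b (l 80) (a (l 80) (c (l 82) (l 82))))) (a (c (l 80) (l 80)) (b (l 80) (a (l 80) (c (l 82) (l 82)))))) (c (a (c (b (a (l 80) (l 86)) (a (l 86) (l 86))) (b (a (l 80) (l 86)) (a (l 86) (l 86)))) (c (b (a (l 86) (l 86)) (a (l 78) (l 46))) (b (a (l 86) (l 86)) (a (l 78) (l 46))))) (a (c (b (a (l 80) (l 86)) (a (l 86) (l 86))) (b (a (l 80) (l 86)) (a (l 86) (l 86)))) (c (b (l 86) (l 78)) (b (l 86) (l 78))))))), by decide +kernel⟩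

def h62_1Bm : ∃ t, chk3 f1Bm t 11 3 7 = true :=
  ⟨(b (a (c (a (c (b (l 22) (a (l 22) (l 14))) (b (l 22) (l 22))) (c (b (l 22) (l 14)) (b (l 22) (l 14)))) (a (c (b (l 22) (l 22)) (b (l 22) (l 22))) (c (b (l 22) (l 14)) (b (l 22) (l 14))))) (c (a (b (c (l 14) (l 14)) (l 46)) (l 44)) (a (b (l 14) (l 46)) (l 44)))) (a (c (a (c (b (a (l 46) (l 46)) (l 46)) (b (l 46) (l 46))) (c (b (l 46) (l 46)) (b (l 46) (l 46)))) (a (c (b (l 46) (l 46)) (b (l 46) (l 46))) (b (c (l 46) (l 46)) (l 46)))) (c (a (c (l 46) (l 46)) (l 44)) (a (c (l 46) (l 46)) (l 44))))), by decide +kernel⟩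

def h63_1Bm : ∃ t, chk3 f1Bm t 3 3 1 = true :=
  ⟨(c (a (c (a (a (b (c (a (l 44) (l 44)) (a (l 44) (l 44))) (c (a (l 44) (l 44)) (a (l 44) (l 44)))) (c (b (l 44) (l 44)) (b (l 44) (l 44)))) (a (b (l 46) (c (l 44) (l 44))) (c (l 46) (l 46)))) (a (b (a (c (l 44) (l 44)) (c (l 44) (l 44))) (a (c (l 44) (l 44)) (c (l 44) (l 44)))) (a (b (l 44) (l 46)) (c (l 46) (l 46))))) (a (c (a (l 46) (l 46)) (a (l 46) (l 46))) (c (l 46) (l 46)))) (a (a (c (b (a (c (l 44) (l 44)) (l 44)) (a (c (l 44) (l 44)) (l 44))) (a (c (b (l 44) (l 44)) (b (l 44) (l 44))) (c (l 44) (l 44)))) (c (a (c (l 44) (l 44)) (l 46)) (a (c (l 44) (l 44)) (l 46)))) (a (c (a (l 46) (l 46)) (l 46)) (c (l 46) (l 46))))), by decide +kernel⟩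

theorem h64_1Bm : ∃ t, chk3 f1Bm t 5 3 7 = true := ex3_a h61_1Bm h62_1Bm

theorem h65_1Bm : ∃ t, chk3 f1Bm t 5 3 6 = true := ex3_a h59_1Bm h60_1Bm

theorem h66_1Bm : ∃ t, chk3 f1Bm t 5 3 3 = true := ex3_c h65_1Bm h64_1Bm

theorem h67_1Bm : ∃ t, chk3 f1Bm t 4 7 6 = true := ex3_a h56_1Bm h57_1Bm

theorem h68_1Bm : ∃ t, chk3 f1Bm t 4 7 3 = true := ex3_c h67_1Bm h58_1Bm

theorem h69_1Bm : ∃ t, chk3 f1Bm t 4 3 3 = true := ex3_b h55_1Bm h68_1Bm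

theorem h70_1Bm : ∃ t, chk3 f1Bm t 2 3 3 = true := ex3_a h69_1Bm h66_1Bm

theorem h71_1Bm : ∃ t, chk3 f1Bm t 5 7 5 = true := ex3_a h53_1Bm h54_1Bm

theorem h72_1Bm : ∃ t, chk3 f1Bm t 10 7 8 = true := ex3_a h49_1Bm h50_1Bm

theorem h73_1Bm : ∃ t, chk3 f1Bm t 10 7 4 = true := ex3_c h72_1Bm h51_1Bm

theorem h74_1Bm : ∃ t, chk3 f1Bm t 5 7 4 = true := ex3_a h73_1Bm h52_1Bm

theorem h75_1Bm : ∃ t, chk3 f1Bm t 5 7 2 = true := ex3_c h74_1Bm h71_1Bm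

theorem h76_1Bm : ∃ t, chk3 f1Bm t 5 6 4 = true := ex3_a h46_1Bm h47_1Bm

theorem h77_1Bm : ∃ t, chk3 f1Bm t 5 6 2 = true := ex3_c h76_1Bm h48_1Bm

theorem h78_1Bm : ∃ t, chk3 f1Bm t 5 3 2 = true := ex3_b h77_1Bm h75_1Bm

theorem h79_1Bm : ∃ t, chk3 f1Bm t 8 7 10 = true := ex3_a h42_1Bm h43_1Bm

theorem h80_1Bm : ∃ t, chk3 f1Bm t 8 7 5 = true := ex3_c h79_1Bm h44_1Bm

theorem h81_1Bm : ∃ t, chk3 f1Bm t 4 7 5 = true := ex3_a h80_1Bm h45_1Bm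

theorem h82_1Bm : ∃ t, chk3 f1Bm t 9 7 4 = true := ex3_c h40_1Bm h41_1Bm

theorem h83_1Bm : ∃ t, chk3 f1Bm t 16 7 9 = true := ex3_b h37_1Bm h38_1Bm

theorem h84_1Bm : ∃ t, chk3 f1Bm t 8 7 9 = true := ex3_a h83_1Bm h39_1Bm

theorem h85_1Bm : ∃ t, chk3 f1Bm t 16 15 8 = true := ex3_c h34_1Bm h35_1Bm

theorem h86_1Bm : ∃ t, chk3 f1Bm t 16 7 8 = true := ex3_b h33_1Bm h85_1Bm

theorem h87_1Bm : ∃ t, chk3 f1Bm t 8 7 8 = true := ex3_a h86_1Bm h36_1Bm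

theorem h88_1Bm : ∃ t, chk3 f1Bm t 8 7 4 = true := ex3_c h87_1Bm h84_1Bm

theorem h89_1Bm : ∃ t, chk3 f1Bm t 4 7 4 = true := ex3_a h88_1Bm h82_1Bm

theorem h90_1Bm : ∃ t, chk3 f1Bm t 4 7 2 = true := ex3_c h89_1Bm h81_1Bm

theorem h91_1Bm : ∃ t, chk3 f1Bm t 4 6 5 = true := ex3_a h31_1Bm h32_1Bm

theorem h92_1Bm : ∃ t, chk3 f1Bm t 8 6 9 = true := ex3_a h28_1Bm h29_1Bm

theorem h93_1Bm : ∃ t, chk3 f1Bm t 16 6 8 = true := ex3_b h25_1Bm h26_1Bm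

theorem h94_1Bm : ∃ t, chk3 f1Bm t 8 6 8 = true := ex3_a h93_1Bm h27_1Bm

theorem h95_1Bm : ∃ t, chk3 f1Bm t 8 6 4 = true := ex3_c h94_1Bm h92_1Bm

theorem h96_1Bm : ∃ t, chk3 f1Bm t 4 6 4 = true := ex3_a h95_1Bm h30_1Bm

theorem h97_1Bm : ∃ t, chk3 f1Bm t 4 6 2 = true := ex3_c h96_1Bm h91_1Bm

theorem h98_1Bm : ∃ t, chk3 f1Bm t 4 3 2 = true := ex3_b h97_1Bm h90_1Bm

theorem h99_1Bm : ∃ t, chk3 f1Bm t 2 3 2 = true := ex3_a h98_1Bm h78_1Bm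

theorem h100_1Bm : ∃ t, chk3 f1Bm t 2 3 1 = true := ex3_c h99_1Bm h70_1Bm

theorem h101_1Bm : ∃ t, chk3 f1Bm t 1 3 1 = true := ex3_a h100_1Bm h63_1Bm

theorem h102_1Bm : ∃ t, chk3 f1Bm t 5 2 3 = true := ex3_b h22_1Bm h23_1Bm

theorem h103_1Bm : ∃ t, chk3 f1Bm t 4 4 3 = true := ex3_a h19_1Bm h20_1Bm

theorem h104_1Bm : ∃ t, chk3 f1Bm t 4 2 3 = true := ex3_b h103_1Bm h21_1Bm

theorem h105_1Bm : ∃ t, chk3 f1Bm t 2 2 3 = true := ex3_a h104_1Bm h102_1Bm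

theorem h106_1Bm : ∃ t, chk3 f1Bm t 5 5 4 = true := ex3_a h16_1Bm h17_1Bm

theorem h107_1Bm : ∃ t, chk3 f1Bm t 5 5 2 = true := ex3_c h106_1Bm h18_1Bm

theorem h108_1Bm : ∃ t, chk3 f1Bm t 11 4 2 = true := ex3_c h14_1Bm h15_1Bm

theorem h109_1Bm : ∃ t, chk3 f1Bm t 5 4 2 = true := ex3_a h13_1Bm h108_1Bm

theorem h110_1Bm : ∃ t, chk3 f1Bm t 5 2 2 = true := ex3_b h109_1Bm h107_1Bm

theorem h111_1Bm : ∃ t, chk3 f1Bm t 4 5 5 = true := ex3_a h11_1Bm h12_1Bm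

theorem h112_1Bm : ∃ t, chk3 f1Bm t 8 5 8 = true := ex3_a h7_1Bm h8_1Bm

theorem h113_1Bm : ∃ t, chk3 f1Bm t 8 5 4 = true := ex3_c h112_1Bm h9_1Bm

theorem h114_1Bm : ∃ t, chk3 f1Bm t 4 5 4 = true := ex3_a h113_1Bm h10_1Bm

theorem h115_1Bm : ∃ t, chk3 f1Bm t 4 5 2 = true := ex3_c h114_1Bm h111_1Bm

theorem h116_1Bm : ∃ t, chk3 f1Bm t 4 4 5 = true := ex3_a h5_1Bm h6_1Bm

theorem h117_1Bm : ∃ t, chk3 f1Bm t 8 9 4 = true := ex3_a h2_1Bm h3_1Bm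

theorem h118_1Bm : ∃ t, chk3 f1Bm t 8 8 4 = true := ex3_a h0_1Bm h1_1Bm

theorem h119_1Bm : ∃ t, chk3 f1Bm t 8 4 4 = true := ex3_b h118_1Bm h117_1Bm

theorem h120_1Bm : ∃ t, chk3 f1Bm t 4 4 4 = true := ex3_a h119_1Bm h4_1Bm

theorem h121_1Bm : ∃ t, chk3 f1Bm t 4 4 2 = true := ex3_c h120_1Bm h116_1Bm

theorem h122_1Bm : ∃ t, chk3 f1Bm t 4 2 2 = true := ex3_b h121_1Bm h115_1Bm

theorem h123_1Bm : ∃ t, chk3 f1Bm t 2 2 2 = true := ex3_a h122_1Bm h110_1Bm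

theorem h124_1Bm : ∃ t, chk3 f1Bm t 2 2 1 = true := ex3_c h123_1Bm h105_1Bm

theorem h125_1Bm : ∃ t, chk3 f1Bm t 1 2 1 = true := ex3_a h124_1Bm h24_1Bm

theorem h126_1Bm : ∃ t, chk3 f1Bm t 1 1 1 = true := ex3_b h125_1Bm h101_1Bm

theorem ct_1Bm : ∃ t, chk3 f1Bm t 1 1 1 = true := h126_1Bm

noncomputable def f1T3 : ℕ → ℕ → ℕ → ℕ → Bool :=
  onCell 0 50331648 0 16777216 33554432 16777216 (c1_T3.row false 25165824)

def h0_1T3 : ∃ t, chk3 f1T3 t 1 1 1 = true :=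
  ⟨(b (b (a (a (c (a (c (b (l 16) (a (l 80) (l 16))) (a (l 16) (l 16))) (c (l 16) (l 16))) (a (l 16) (l 16))) (a (l 16) (a (l 16) (c (l 20) (l 20))))) (a (c (a (a (l 20) (l 12)) (l 12)) (a (c (l 20) (l 20)) (l 12))) (a (l 12) (l 12)))) (a (a (c (a (a (l 3) (c (b (l 80) (l 80)) (l 80))) (b (l 80) (c (l 80) (l 80)))) (a (c (l 80) (l 80)) (c (l 80) (l 16)))) (c (a (b (l 16) (l 80)) (c (a (l 16) (l 20)) (a (l 16) (l 20)))) (a (l 16) (a (l 16) (l 20))))) (a (c (a (a (c (l 20) (l 20)) (l 12)) (l 12)) (a (c (l 20) (l 20)) (l 12))) (a (l 14) (l 12))))) (b (a (a (a (l 3) (c (c (b (l 80) (l 64)) (l 80)) (l 80))) (c (a (c (l 80) (l 80)) (a (l 80) (c (l 84) (l 84)))) (a (l 80) (a (l 80) (l 84))))) (a (a (c (a (l 84) (l 44)) (c (l 20) (l 20))) (c (l 44) (l 12))) (c (l 12) (l 12)))) (a (a (a (l 3) (a (l 3) (c (c (l 64) (l 64)) (l 80)))) (c (a (c (l 64)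 (l 80)) (a (l 80) (c (l 84) (l 84)))) (a (l 80) (a (l 80) (l 84))))) (a (a (c (a (l 84) (l 44)) (c (l 84) (l 84))) (c (l 44) (l 44))) (c (l 44) (l 44)))))), by decide +kernel⟩

theorem ct_1T3 : ∃ t, chk3 f1T3 t 1 1 1 = true := h0_1T3

noncomputable def f1T4 : ℕ → ℕ → ℕ → ℕ → Bool :=
  onCell 0 50331648 0 16777216 33554432 16777216 (c1_T4.row false 25165824)

def h0_1T4 : ∃ t, chk3 f1T4 t 2 2 1 = true :=
  ⟨(b (a (c (a (c (l 16) (l 16)) (l 16)) (l 16)) (a (l 16) (c (c (a (b (l 16) (a (l 16) (c (l 22) (l 22)))) (b (c (a (b (l 16) (l 22)) (b (a (b (l 16) (l 22)) (l 20)) (l 20))) (a (b (l 16) (l 22)) (b (a (b (l 16) (l 20)) (l 20)) (l 20)))) (a (b (l 22) (l 22)) (l 12)))) (a (b (l 16) (a (l 16) (l 22))) (b (c (a (b (l 16) (l 22)) (b (a (b (l 16) (l 20)) (l 20)) (l 20))) (b (a (l 16) (l 20)) (l 22))) (a (b (l 22) (l 22)) (l 12))))) (c (a (b (l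 16) (c (l 22) (l 22))) (b (a (b (l 16) (l 22)) (l 20)) (a (c (l 22) (l 22)) (l 12)))) (a (b (l 16) (l 22)) (a (b (b (l 16) (l 22)) (l 22)) (l 20))))))) (a (c (a (c (l 80) (l 16)) (l 16)) (l 16)) (c (a (a (l 16) (c (b (a (l 16) (l 22)) (c (l 22) (l 22))) (b (c (l 16) (l 16)) (l 22)))) (c (a (b (b (l 22) (l 22)) (a (l 22) (l 14))) (b (a (c (l 14) (l 12)) (l 12)) (l 12))) (a (b (a (l 22) (l 22)) (a (l 22) (l 14))) (b (c (l 12) (l 12)) (l 12))))) (a (a (l 16) (b (c (l 16) (l 16)) (l 22))) (c (a (b (c (l 22) (l 22)) (l 22)) (b (l 12) (l 12))) (a (b (l 22) (l 22)) (l 12))))))), by decide +kernel⟩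

def h1_1T4 : ∃ t, chk3 f1T4 t 3 2 1 = true :=
  ⟨(a (b (a (a (c (c (l 20) (l 20)) (l 20)) (l 12)) (l 12)) (a (c (l 12) (l 12)) (l 12))) (c (l 12) (l 12))), by decide +kernel⟩

def h2_1T4 : ∃ t, chk3 f1T4 t 1 3 1 = true :=
  ⟨(a (a (c (b (a (l 80) (a (l 16) (b (l 16) (c (a (l 16) (l 22)) (l 22))))) (a (l 80) (c (a (b (l 16) (c (l 22) (l 22))) (b (l 22) (a (l 22) (l 14)))) (a (b (l 16) (l 22)) (b (l 22) (l 22)))))) (a (b (l 16) (l 16)) (b (a (l 16) (b (l 16) (l 22))) (c (a (b (l 16) (l 22)) (b (l 22) (l 22))) (a (l 22) (l 22)))))) (c (a (b (c (a (b (c (l 22) (l 22)) (c (l 22) (l 22))) (b (a (l 22) (l 14)) (c (l 14) (l 14)))) (a (b (l 22) (l 22)) (b (l 22) (l 14)))) (c (a (b (a (l 22) (l 14)) (l 14)) (b (l 14) (l 14))) (a (b (l 22) (l 14)) (b (l 14) (l 14))))) (b (a (b (a (l 14) (l 12)) (l 14)) (l 12)) (c (l 12) (l 12)))) (a (b (c (a (b (l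 22) (l 22)) (b (l 22) (l 14))) (a (l 22) (b (l 22) (l 14)))) (c (a (b (l 22) (l 14)) (b (l 14) (l 12))) (a (b (l 22) (l 14)) (l 14)))) (b (a (b (l 14) (l 12)) (l 12)) (l 12))))) (a (a (c (l 12) (l 12)) (l 12)) (l 44))), by decide +kernel⟩

theorem h3_1T4 : ∃ t, chk3 f1T4 t 1 2 1 = true := ex3_a h0_1T4 h1_1T4

theorem h4_1T4 : ∃ t, chk3 f1T4 t 1 1 1 = true := ex3_b h3_1T4 h2_1T4

theorem ct_1T4 : ∃ t, chk3 f1T4 t 1 1 1 = true := h4_1T4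

noncomputable def f1T5 : ℕ → ℕ → ℕ → ℕ → Bool :=
  onCell 0 33554432 0 6291456 33554432 16777216 (c1_T5.row true 16777216)

def h0_1T5 : ∃ t, chk3 f1T5 t 1 1 1 = true :=
  ⟨(a (b (b (a (c (a (l 16) (l 16)) (l 16)) (l 20)) (a (l 80) (l 84))) (c (a (a (l 80) (l 80)) (l 84)) (a (l 80) (l 84)))) (b (b (l 20) (l 84)) (l 84))), by decide +kernel⟩

theorem ct_1T5 : ∃ t, chk3 f1T5 t 1 1 1 = true := h0_1T5

noncomputable def f1T7 : ℕ → ℕ → ℕ → ℕ → Bool :=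
  onCell 0 50331648 0 16777216 33554432 16777216 (c1_T7.row false 25165824)

def h0_1T7 : ∃ t, chk3 f1T7 t 1 1 1 = true :=
  ⟨(a (b (a (b (c (b (a (b (c (l 16) (l 16)) (l 80)) (l 16)) (b (l 80) (a (l 80) (l 16)))) (a (l 16) (l 16))) (c (a (a (l 3) (b (l 80) (l 80))) (c (l 80) (l 16))) (a (l 80) (l 16)))) (b (b (c (l 20) (l 20)) (l 84)) (c (l 84) (l 20)))) (a (a (l 3) (c (b (c (l 80) (l 80)) (a (l 3) (b (l 80) (l 3)))) (b (l 80) (l 80)))) (c (b (l 84) (a (l 80) (l 84))) (a (l 80) (l 20))))) (a (b (c (l 20) (l 20)) (c (l 84) (l 20))) (l 44))), by decide +kernel⟩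

theorem ct_1T7 : ∃ t, chk3 f1T7 t 1 1 1 = true := h0_1T7

noncomputable def f1T7k1 : ℕ → ℕ → ℕ → ℕ → Bool :=
  onCell 0 50331648 0 16777216 33554432 16777216 (c1_T7k1.row false 25165824)

def h0_1T7k1 : ∃ t, chk3 f1T7k1 t 1 1 1 = true :=
  ⟨(a (a (b (b (b (c (a (c (l 16) (l 16)) (l 16)) (l 16)) (c (b (l 80) (l 80)) (l 80))) (c (a (a (l 3) (l 80)) (l 80)) (a (l 80) (l 16)))) (a (l 3) (c (b (l 80) (l 80)) (l 80)))) (b (c (a (l 20) (l 20)) (l 20)) (c (a (l 80) (l 84)) (l 84)))) (b (a (c (l 20) (l 20)) (l 44)) (a (c (l 84) (l 20)) (l 44)))), by decide +kernel⟩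

theorem ct_1T7k1 : ∃ t, chk3 f1T7k1 t 1 1 1 = true := h0_1T7k1

noncomputable def f1T7k2 : ℕ → ℕ → ℕ → ℕ → Bool :=
  onCell 0 50331648 0 16777216 33554432 16777216 (c1_T7k2.row false 25165824)

def h0_1T7k2 : ∃ t, chk3 f1T7k2 t 1 1 1 = true :=
  ⟨(b (b (a (a (c (a (c (b (l 16) (a (l 80) (l 16))) (a (l 16) (l 16))) (c (l 16) (l 16))) (a (l 16) (l 16))) (a (l 16) (c (a (l 16) (l 20)) (l 20)))) (a (c (a (c (l 20) (l 20)) (l 12)) (a (l 20) (l 12))) (c (l 12) (l 12)))) (a (a (c (a (a (l 3) (b (l 80) (l 80))) (b (l 80) (l 80))) (a (a (l 3) (l 80)) (c (l 80) (l 16)))) (c (a (c (l 80) (l 80)) (a (l 16) (l 20))) (a (l 16) (c (l 20) (l 20))))) (a (c (a (c (l 20) (l 20)) (l 12)) (a (l 20) (l 12))) (c (l 12) (l 12))))) (b (a (a (a (l 3) (c (c (a (l 80) (l 80)) (l 80)) (l 80))) (c (a (c (l 80) (l 80)) (a (l 80) (l 84))) (a (l 80) (l 84)))) (a (c (a (c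 (l 84) (l 84)) (l 44)) (a (l 20) (l 12))) (c (l 12) (l 12)))) (a (a (a (l 3) (c (a (l 3) (l 64)) (l 80))) (c (a (l 80) (a (l 80) (l 84))) (a (l 80) (l 84)))) (a (a (c (c (l 84) (l 84)) (l 84)) (c (l 44) (l 44))) (c (l 44) (l 44)))))), by decide +kernel⟩

theorem ct_1T7k2 : ∃ t, chk3 f1T7k2 t 1 1 1 = true := h0_1T7k2

end Pool.Agent.Strip051.G.I1_32_3_64.Tab.Mo
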