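import Pool.Agent.Strip051.G.I1_32_3_64.DgX

/-! # The corner (1, 1, 2): the degenerate instances (generated) -/

set_option linter.all false

namespace Pool.Agent.Strip051.G.I1_32_3_64.Tab.DG

open Pool.Agent.Strip051.PB Pool.Agent.Strip051.PB.Dg Pool.Agent.StripNear Pool.Agent.Strip051.LC

theorem dgF_A123_01 {κ x : ℝ} (hκ : κ * h0 = ken x) (hx : ((33554432 : ℕ) : ℝ) / S ≤ x) (hx' : x ≤ (((33554432 : ℕ) : ℝ) + (16777216 : ℕ)) / S) :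
    SgA (VF κ) PP tKF tL pcF 1 2 0 1 true 2 7061502 184626 x :=
  (sgC1 (bsF hx hx') (ctFC1 hx hx')).vf rfl (Or.inl rfl) (Or.inr rfl) (sideF hx hx') hκ
theorem dgF_A123_02 {κ x : ℝ} (hκ : κ * h0 = ken x) (hx : ((33554432 : ℕ) : ℝ) / S ≤ x) (hx' : x ≤ (((33554432 : ℕ) : ℝ) + (16777216 : ℕ)) / S) :
    SgA (VF κ) PP tKF tL pcF 1 2 0 2 true 2 7061502 184626 x :=
  (sgC1 (bsF hx hx') (ctFC2 hx hx')).vf rfl (Or.inl rfl) (Or.inr rfl) (sideF hx hx') hκ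
theorem dgF_B123_03p {κ x : ℝ} (hκ : κ * h0 = ken x) (hx : ((33554432 : ℕ) : ℝ) / S ≤ x) (hx' : x ≤ (((33554432 : ℕ) : ℝ) + (16777216 : ℕ)) / S) :
    SgBl (VF κ) PP tKF tL pcF .npn 1 2 0 3 true 0 7061502 184626 x :=
  _root_.Pool.Agent.Strip051.PB.Dg.Sg12Bl.vf rfl (Or.inl rfl) (Or.inr rfl) (sideF hx hx') hκ (sgB1 (bsF hx hx') (ctFB3 hx hx'))
theorem dgF_B213_03m {κ x : ℝ} (hκ : κ * h0 = ken x) (hx : ((33554432 : ℕ) : ℝ) / S ≤ x) (hx' : x ≤ (((33554432 : ℕ) : ℝ) + (16777216 : ℕ)) / S) :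
    SgB (VF κ) PP tKF tL pcF 2 1 0 3 false 0 7061502 184626 x :=
  (sgP1 (bsF hx hx') (ctFP3 hx hx')).vf rfl (Or.inr rfl) (Or.inl rfl) (sideF hx hx') hκ
theorem dgF_B123_04p {κ x : ℝ} (hκ : κ * h0 = ken x) (hx : ((33554432 : ℕ) : ℝ) / S ≤ x) (hx' : x ≤ (((33554432 : ℕ) : ℝ) + (16777216 : ℕ)) / S) :
    SgBl (VF κ) PP tKF tL pcF .npn 1 2 0 4 true 0 7061502 184626 x :=
  _root_.Pool.Agent.Strip051.PB.Dg.Sg12Bl.vf rfl (Or.inl rfl) (Or.inr rfl) (sideF hx hx') hκ (sgB1 (bsF hx hx') (ctFB4 hx hx'))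
theorem dgF_B213_04m {κ x : ℝ} (hκ : κ * h0 = ken x) (hx : ((33554432 : ℕ) : ℝ) / S ≤ x) (hx' : x ≤ (((33554432 : ℕ) : ℝ) + (16777216 : ℕ)) / S) :
    SgB (VF κ) PP tKF tL pcF 2 1 0 4 false 0 7061502 184626 x :=
  (sgP1 (bsF hx hx') (ctFP4 hx hx')).vf rfl (Or.inr rfl) (Or.inl rfl) (sideF hx hx') hκ
theorem alt12F_A123_00 {κ x : ℝ} (hκ : κ * h0 = ken x) (hx : ((33554432 : ℕ) : ℝ) / S ≤ x) (hx' : x ≤ (((33554432 : ℕ) : ℝ) + (16777216 : ℕ)) / S) :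
    AltA (VF κ) PP tKF tL pcF [⟨0, 1, 0, 7061502⟩, ⟨1, 1, 0, 7061502⟩, ⟨2, 2, 0, 184626⟩] 1 2 3 0 0 (sgb true) (sgb false) x := by
  refine altA12 (loc123 (m := 2) (by show rh 2 ≤ 1; simp [rh]; try norm_num) (by show rh 0 ≤ 1; simp [rh]; try norm_num) (fun i hi => ?_))
  fin_cases i
  · exact absurd hi (by decide)
  · exact absurd hi (by decide)
  · exact (sgA1 (bsF hx hx') (ctFA2 hx hx')).vf rfl (Or.inl rfl) (Or.inr rfl) (sideF hx hx') hκ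
  · exact (sgA1 (bsF hx hx') (ctFA3 hx hx')).vf rfl (Or.inl rfl) (Or.inr rfl) (sideF hx hx') hκ
theorem alt12F_A213_00 {κ x : ℝ} (hκ : κ * h0 = ken x) (hx : ((33554432 : ℕ) : ℝ) / S ≤ x) (hx' : x ≤ (((33554432 : ℕ) : ℝ) + (16777216 : ℕ)) / S) :
    AltA (VF κ) PP tKF tL pcF [⟨0, 1, 0, 7061502⟩, ⟨1, 1, 0, 7061502⟩, ⟨2, 2, 0, 184626⟩] 2 1 3 0 0 (sgb true) (sgb false) x := by
  refine altA12 (loc213 (m := 2) (by show rh 2 ≤ 1; simp [rh]; try norm_num) (by show rh 0 ≤ 1; simp [rh]; try norm_num) (fun i hi => ?_))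
  fin_cases i
  · exact absurd hi (by decide)
  · exact absurd hi (by decide)
  · exact (sgA2 (bsF hx hx') (ctFA2 hx hx')).vf rfl (Or.inr rfl) (Or.inl rfl) (sideF hx hx') hκ
  · exact (sgA2 (bsF hx hx') (ctFA3 hx hx')).vf rfl (Or.inr rfl) (Or.inl rfl) (sideF hx hx') hκ
theorem dgN_A123_01 {κ x : ℝ} (hκ : κ * h0 = ken x) (hx : ((33554432 : ℕ) : ℝ) / S ≤ x) (hx' : x ≤ (((33554432 : ℕ) : ℝ) + (16777216 : ℕ)) / S) :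
    SgA (VN 3 κ) PP tKN tL pcN 1 2 0 1 true 2 7061502 184626 x :=
  (sgC1 (bsN hx hx') (ctNC1 hx hx')).vn rfl (Or.inl rfl) (Or.inr rfl) (sideN hx hx') hκ
theorem dgN_A123_02 {κ x : ℝ} (hκ : κ * h0 = ken x) (hx : ((33554432 : ℕ) : ℝ) / S ≤ x) (hx' : x ≤ (((33554432 : ℕ) : ℝ) + (16777216 : ℕ)) / S) :
    SgA (VN 3 κ) PP tKN tL pcN 1 2 0 2 true 2 7061502 184626 x :=
  (sgC1 (bsN hx hx') (ctNC2 hx hx')).vn rfl (Or.inl rfl) (Or.inr rfl) (sideN hx hx') hκ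
theorem dgN_B123_03p {κ x : ℝ} (hκ : κ * h0 = ken x) (hx : ((33554432 : ℕ) : ℝ) / S ≤ x) (hx' : x ≤ (((33554432 : ℕ) : ℝ) + (16777216 : ℕ)) / S) :
    SgBl (VN 3 κ) PP tKN tL pcN .npn 1 2 0 3 true 0 7061502 184626 x :=
  _root_.Pool.Agent.Strip051.PB.Dg.Sg12Bl.vn rfl (Or.inl rfl) (Or.inr rfl) (sideN hx hx') hκ (sgB1 (bsN hx hx') (ctNB3 hx hx'))
theorem dgN_B213_03m {κ x : ℝ} (hκ : κ * h0 = ken x) (hx : ((33554432 : ℕ) : ℝ) / S ≤ x) (hx' : x ≤ (((33554432 : ℕ) : ℝ) + (16777216 : ℕ)) / S) :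
    SgB (VN 3 κ) PP tKN tL pcN 2 1 0 3 false 0 7061502 184626 x :=
  (sgP1 (bsN hx hx') (ctNP3 hx hx')).vn rfl (Or.inr rfl) (Or.inl rfl) (sideN hx hx') hκ
theorem dgN_B123_04p {κ x : ℝ} (hκ : κ * h0 = ken x) (hx : ((33554432 : ℕ) : ℝ) / S ≤ x) (hx' : x ≤ (((33554432 : ℕ) : ℝ) + (16777216 : ℕ)) / S) :
    SgBl (VN 3 κ) PP tKN tL pcN .npn 1 2 0 4 true 0 7061502 184626 x :=
  _root_.Pool.Agent.Strip051.PB.Dg.Sg12Bl.vn rfl (Or.inl rfl) (Or.inr rfl) (sideN hx hx') hκ (sgB1 (bsN hx hx') (ctNB4 hx hx'))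
theorem dgN_B213_04m {κ x : ℝ} (hκ : κ * h0 = ken x) (hx : ((33554432 : ℕ) : ℝ) / S ≤ x) (hx' : x ≤ (((33554432 : ℕ) : ℝ) + (16777216 : ℕ)) / S) :
    SgB (VN 3 κ) PP tKN tL pcN 2 1 0 4 false 0 7061502 184626 x :=
  (sgP1 (bsN hx hx') (ctNP4 hx hx')).vn rfl (Or.inr rfl) (Or.inl rfl) (sideN hx hx') hκ
theorem alt12N_A123_00 {κ x : ℝ} (hκ : κ * h0 = ken x) (hx : ((33554432 : ℕ) : ℝ) / S ≤ x) (hx' : x ≤ (((33554432 : ℕ) : ℝ) + (16777216 : ℕ)) / S) :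
    AltA (VN 3 κ) PP tKN tL pcN [⟨0, 1, 0, 7061502⟩, ⟨1, 1, 0, 7061502⟩, ⟨2, 2, 0, 184626⟩] 1 2 3 0 0 (sgb true) (sgb false) x := by
  refine altA12 (loc123 (m := 2) (by show rh 2 ≤ 1; simp [rh]; try norm_num) (by show rh 0 ≤ 1; simp [rh]; try norm_num) (fun i hi => ?_))
  fin_cases i
  · exact absurd hi (by decide)
  · exact absurd hi (by decide)
  · exact (sgA1 (bsN hx hx') (ctNA2 hx hx')).vn rfl (Or.inl rfl) (Or.inr rfl) (sideN hx hx') hκ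
  · exact (sgA1 (bsN hx hx') (ctNA3 hx hx')).vn rfl (Or.inl rfl) (Or.inr rfl) (sideN hx hx') hκ
theorem alt12N_A213_00 {κ x : ℝ} (hκ : κ * h0 = ken x) (hx : ((33554432 : ℕ) : ℝ) / S ≤ x) (hx' : x ≤ (((33554432 : ℕ) : ℝ) + (16777216 : ℕ)) / S) :
    AltA (VN 3 κ) PP tKN tL pcN [⟨0, 1, 0, 7061502⟩, ⟨1, 1, 0, 7061502⟩, ⟨2, 2, 0, 184626⟩] 2 1 3 0 0 (sgb true) (sgb false) x := by
  refine altA12 (loc213 (m := 2) (by show rh 2 ≤ 1; simp [rh]; try norm_num) (by show rh 0 ≤ 1; simp [rh]; try norm_num) (fun i hi => ?_))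
  fin_cases i
  · exact absurd hi (by decide)
  · exact absurd hi (by decide)
  · exact (sgA2 (bsN hx hx') (ctNA2 hx hx')).vn rfl (Or.inr rfl) (Or.inl rfl) (sideN hx hx') hκ
  · exact (sgA2 (bsN hx hx') (ctNA3 hx hx')).vn rfl (Or.inr rfl) (Or.inl rfl) (sideN hx hx') hκ

end Pool.Agent.Strip051.G.I1_32_3_64.Tab.DG
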