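import Pool.Agent.Strip051.G.I1_32_3_64.StF

/-! # Unit strips 0 (generated) -/

set_option linter.all false
set_option maxRecDepth 100000

namespace Pool.Agent.Strip051.G.I1_32_3_64.Tab.St.C

open Pool.Agent.Strip051.PB Pool.Agent.Strip051.PB.T Pool.Agent.StripNear Pool.Agent.Strip051.LC
open Pool.Agent.Strip051.G.I1_32_3_64.Tab Pool.Agent.Strip051.G.I1_32_3_64.Tab.St

noncomputable def cut_A00pp_001_s1 : Cut := Cut.of [[⟨4, 0, 0, 1449551462⟩]]

noncomputable def f_A00pp_001_s1 : ℕ → ℕ → ℕ → ℕ → Bool := onCell 0 536870912 0 536870912 33554432 16777216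
    (rowFK 0 true true true .up 0 0 1 (qsf 0 536870912 0 536870912 1) ndF0q0 ndF0q0 pcF1 cut_A00pp_001_s1 Ext.none)

def k0_A00pp_001_s1 : ∃ t, chk3 f_A00pp_001_s1 t 1 1 1 = true :=
  ⟨(l 4), by decide +kernel⟩

theorem c_A00pp_001_s1 : CertF 0 536870912 0 536870912 33554432 16777216 true true true .up 0 0 1
    ndF0q0 ndF0q0 pcF1 cut_A00pp_001_s1 Ext.none :=
  certFK0 (fam := true) (s1 := true) (s2 := true) (a := 0) (b := 0) (c := 1) (cn := .up) (n1 := ndF0q0) (n2 := ndF0q0) (pc := pcF1) (cut := cut_A00pp_001_s1) (xt := Ext.none) (P1 := 0) (W1 := 536870912) (P2 := 0) (W2 := 536870912) (P3 := 33554432) (W3 := 16777216)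
    rfl rfl rfl k0_A00pp_001_s1

theorem s_A00pp_001_s1 {κ x : ℝ} (hκ : κ * h0 = ken x) (hx : ((33554432 : ℕ) : ℝ) / S ≤ x)
    (hx' : x ≤ (((33554432 : ℕ) : ℝ) + (16777216 : ℕ)) / S) :
    AltA (VF κ) PP tKF tL pcF [⟨3, 0, 0, 1449551462⟩] 0 0 1 0 0 (sgb true) (sgb true) x :=
  strip_altA (m := 1449551462) true rfl hκ covF00 covF00 hx hx' c_A00pp_001_s1 cutA_nil (noExt_A)

noncomputable def cut_A00pp_001_s3 : Cut := Cut.of [[⟨3, 0, 0, 2845415833⟩]]

noncomputable def f_A00pp_001_s3 : ℕ → ℕ → ℕ → ℕ → Bool := onCell 0 536870912 0 536870912 33554432 16777216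
    (rowFK 0 true true true .up 0 0 1 (qsf 0 536870912 0 536870912 1) ndF0q0 ndF0q0 pcF1 cut_A00pp_001_s3 Ext.none)

def k0_A00pp_001_s3 : ∃ t, chk3 f_A00pp_001_s3 t 1 1 1 = true :=
  ⟨(l 4), by decide +kernel⟩

theorem c_A00pp_001_s3 : CertF 0 536870912 0 536870912 33554432 16777216 true true true .up 0 0 1
    ndF0q0 ndF0q0 pcF1 cut_A00pp_001_s3 Ext.none :=
  certFK0 (fam := true) (s1 := true) (s2 := true) (a := 0) (b := 0) (c := 1) (cn := .up) (n1 := ndF0q0) (n2 := ndF0q0) (pc := pcF1) (cut := cut_A00pp_001_s3) (xt := Ext.none) (P1 := 0) (W1 := 536870912) (P2 := 0) (W2 := 536870912) (P3 := 33554432) (W3 := 16777216)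
    rfl rfl rfl k0_A00pp_001_s3

theorem s_A00pp_001_s3 {κ x : ℝ} (hκ : κ * h0 = ken x) (hx : ((33554432 : ℕ) : ℝ) / S ≤ x)
    (hx' : x ≤ (((33554432 : ℕ) : ℝ) + (16777216 : ℕ)) / S) :
    AltA (VF κ) PP tKF tL pcF [⟨4, 0, 0, 2845415833⟩] 0 0 1 0 0 (sgb true) (sgb true) x :=
  strip_altA (m := 2845415833) false rfl hκ covF00 covF00 hx hx' c_A00pp_001_s3 cutA_nil (noExt_A)

noncomputable def cut_A00pp_011_s1 : Cut := Cut.of [[⟨4, 0, 0, 1449551462⟩], [⟨0, 0, 0, 33554432⟩, ⟨1, 1, 0, 33554432⟩, ⟨2, 1, 0, 33554432⟩]]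

noncomputable def f_A00pp_011_s1 : ℕ → ℕ → ℕ → ℕ → Bool := onCell 0 536870912 536870912 536870912 33554432 16777216
    (rowFK 0 true true true .pnn 0 1 1 (qsf 0 536870912 536870912 536870912 1) ndF0q0 ndF0q1 pcF1 cut_A00pp_011_s1 Ext.none)

def k0_A00pp_011_s1 : ∃ t, chk3 f_A00pp_011_s1 t 1 1 1 = true :=
  ⟨(l 6), by decide +kernel⟩

theorem c_A00pp_011_s1 : CertF 0 536870912 536870912 536870912 33554432 16777216 true true true .pnn 0 1 1
    ndF0q0 ndF0q1 pcF1 cut_A00pp_011_s1 Ext.none :=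
  certFK0 (fam := true) (s1 := true) (s2 := true) (a := 0) (b := 1) (c := 1) (cn := .pnn) (n1 := ndF0q0) (n2 := ndF0q1) (pc := pcF1) (cut := cut_A00pp_011_s1) (xt := Ext.none) (P1 := 0) (W1 := 536870912) (P2 := 536870912) (W2 := 536870912) (P3 := 33554432) (W3 := 16777216)
    rfl rfl rfl k0_A00pp_011_s1

theorem s_A00pp_011_s1 {κ x : ℝ} (hκ : κ * h0 = ken x) (hx : ((33554432 : ℕ) : ℝ) / S ≤ x)
    (hx' : x ≤ (((33554432 : ℕ) : ℝ) + (16777216 : ℕ)) / S)
    (H : CutA (VF κ) PP tKF tL pcF (Cut.of [[⟨0, 0, 0, 33554432⟩, ⟨1, 1, 0, 33554432⟩, ⟨2, 1, 0, 33554432⟩]]) 0 1 1 0 0 (sgb true) (sgb true) x) :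
    AltA (VF κ) PP tKF tL pcF [⟨3, 0, 0, 1449551462⟩] 0 1 1 0 0 (sgb true) (sgb true) x :=
  strip_altA (m := 1449551462) true rfl hκ covF00 covF01 hx hx' c_A00pp_011_s1 H (noExt_A)

noncomputable def cut_A00pp_011_s3 : Cut := Cut.of [[⟨3, 0, 0, 2845415833⟩], [⟨0, 0, 0, 33554432⟩, ⟨1, 1, 0, 33554432⟩, ⟨2, 1, 0, 33554432⟩]]

noncomputable def f_A00pp_011_s3 : ℕ → ℕ → ℕ → ℕ → Bool := onCell 0 536870912 536870912 536870912 33554432 16777216
    (rowFK 0 true true true .pnn 0 1 1 (qsf 0 536870912 536870912 536870912 1) ndF0q0 ndF0q1 pcF1 cut_A00pp_011_s3 Ext.none)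

def k0_A00pp_011_s3 : ∃ t, chk3 f_A00pp_011_s3 t 1 1 1 = true :=
  ⟨(a (b (l 4) (a (b (l 4) (b (l 4) (a (a (a (b (l 4) (b (l 4) (l 14))) (l 4)) (l 4)) (l 4)))) (l 4))) (l 4)), by decide +kernel⟩

theorem c_A00pp_011_s3 : CertF 0 536870912 536870912 536870912 33554432 16777216 true true true .pnn 0 1 1
    ndF0q0 ndF0q1 pcF1 cut_A00pp_011_s3 Ext.none :=
  certFK0 (fam := true) (s1 := true) (s2 := true) (a := 0) (b := 1) (c := 1) (cn := .pnn) (n1 := ndF0q0) (n2 := ndF0q1) (pc := pcF1) (cut := cut_A00pp_011_s3) (xt := Ext.none) (P1 := 0) (W1 := 536870912) (P2 := 536870912) (W2 := 536870912) (P3 := 33554432) (W3 := 16777216)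
    rfl rfl rfl k0_A00pp_011_s3

theorem s_A00pp_011_s3 {κ x : ℝ} (hκ : κ * h0 = ken x) (hx : ((33554432 : ℕ) : ℝ) / S ≤ x)
    (hx' : x ≤ (((33554432 : ℕ) : ℝ) + (16777216 : ℕ)) / S)
    (H : CutA (VF κ) PP tKF tL pcF (Cut.of [[⟨0, 0, 0, 33554432⟩, ⟨1, 1, 0, 33554432⟩, ⟨2, 1, 0, 33554432⟩]]) 0 1 1 0 0 (sgb true) (sgb true) x) :
    AltA (VF κ) PP tKF tL pcF [⟨4, 0, 0, 2845415833⟩] 0 1 1 0 0 (sgb true) (sgb true) x :=
  strip_altA (m := 2845415833) false rfl hκ covF00 covF01 hx hx' c_A00pp_011_s3 H (noExt_A)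

noncomputable def cut_A00pp_012_s1 : Cut := Cut.of [[⟨4, 0, 0, 1449551462⟩], [⟨0, 0, 0, 33554432⟩, ⟨1, 1, 0, 33554432⟩, ⟨2, 1, 0, 33554432⟩]]

noncomputable def f_A00pp_012_s1 : ℕ → ℕ → ℕ → ℕ → Bool := onCell 0 536870912 536870912 536870912 33554432 16777216
    (rowFK 0 true true true .pnp 0 1 2 (qsf 0 536870912 536870912 536870912 2) ndF0q0 ndF0q1 pcF2 cut_A00pp_012_s1 Ext.none)

def k0_A00pp_012_s1 : ∃ t, chk3 f_A00pp_012_s1 t 1 1 1 = true :=
  ⟨(l 6), by decide +kernel⟩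

theorem c_A00pp_012_s1 : CertF 0 536870912 536870912 536870912 33554432 16777216 true true true .pnp 0 1 2
    ndF0q0 ndF0q1 pcF2 cut_A00pp_012_s1 Ext.none :=
  certFK0 (fam := true) (s1 := true) (s2 := true) (a := 0) (b := 1) (c := 2) (cn := .pnp) (n1 := ndF0q0) (n2 := ndF0q1) (pc := pcF2) (cut := cut_A00pp_012_s1) (xt := Ext.none) (P1 := 0) (W1 := 536870912) (P2 := 536870912) (W2 := 536870912) (P3 := 33554432) (W3 := 16777216)
    rfl rfl rfl k0_A00pp_012_s1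

theorem s_A00pp_012_s1 {κ x : ℝ} (hκ : κ * h0 = ken x) (hx : ((33554432 : ℕ) : ℝ) / S ≤ x)
    (hx' : x ≤ (((33554432 : ℕ) : ℝ) + (16777216 : ℕ)) / S)
    (H : CutA (VF κ) PP tKF tL pcF (Cut.of [[⟨0, 0, 0, 33554432⟩, ⟨1, 1, 0, 33554432⟩, ⟨2, 1, 0, 33554432⟩]]) 0 1 2 0 0 (sgb true) (sgb true) x) :
    AltA (VF κ) PP tKF tL pcF [⟨3, 0, 0, 1449551462⟩] 0 1 2 0 0 (sgb true) (sgb true) x :=
  strip_altA (m := 1449551462) true rfl hκ covF00 covF01 hx hx' c_A00pp_012_s1 H (noExt_A)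

noncomputable def cut_A00pp_012_s3 : Cut := Cut.of [[⟨3, 0, 0, 2845415833⟩], [⟨0, 0, 0, 33554432⟩, ⟨1, 1, 0, 33554432⟩, ⟨2, 1, 0, 33554432⟩]]

noncomputable def f_A00pp_012_s3 : ℕ → ℕ → ℕ → ℕ → Bool := onCell 0 536870912 536870912 536870912 33554432 16777216
    (rowFK 0 true true true .pnp 0 1 2 (qsf 0 536870912 536870912 536870912 2) ndF0q0 ndF0q1 pcF2 cut_A00pp_012_s3 Ext.none)

def k0_A00pp_012_s3 : ∃ t, chk3 f_A00pp_012_s3 t 1 1 1 = true :=
  ⟨(b (l 4) (a (b (l 4) (a (b (l 4) (a (b (l 4) (a (b (l 4) (a (l 14) (l 4))) (l 4))) (l 4))) (l 4))) (l 4))), by decide +kernel⟩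

theorem c_A00pp_012_s3 : CertF 0 536870912 536870912 536870912 33554432 16777216 true true true .pnp 0 1 2
    ndF0q0 ndF0q1 pcF2 cut_A00pp_012_s3 Ext.none :=
  certFK0 (fam := true) (s1 := true) (s2 := true) (a := 0) (b := 1) (c := 2) (cn := .pnp) (n1 := ndF0q0) (n2 := ndF0q1) (pc := pcF2) (cut := cut_A00pp_012_s3) (xt := Ext.none) (P1 := 0) (W1 := 536870912) (P2 := 536870912) (W2 := 536870912) (P3 := 33554432) (W3 := 16777216)
    rfl rfl rfl k0_A00pp_012_s3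

theorem s_A00pp_012_s3 {κ x : ℝ} (hκ : κ * h0 = ken x) (hx : ((33554432 : ℕ) : ℝ) / S ≤ x)
    (hx' : x ≤ (((33554432 : ℕ) : ℝ) + (16777216 : ℕ)) / S)
    (H : CutA (VF κ) PP tKF tL pcF (Cut.of [[⟨0, 0, 0, 33554432⟩, ⟨1, 1, 0, 33554432⟩, ⟨2, 1, 0, 33554432⟩]]) 0 1 2 0 0 (sgb true) (sgb true) x) :
    AltA (VF κ) PP tKF tL pcF [⟨4, 0, 0, 2845415833⟩] 0 1 2 0 0 (sgb true) (sgb true) x :=
  strip_altA (m := 2845415833) false rfl hκ covF00 covF01 hx hx' c_A00pp_012_s3 H (noExt_A)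

noncomputable def cut_A00pp_022_s1 : Cut := Cut.of [[⟨4, 0, 0, 1449551462⟩], [⟨0, 0, 0, 16777216⟩, ⟨1, 1, 0, 16777216⟩, ⟨2, 1, 0, 16777216⟩]]

noncomputable def f_A00pp_022_s1 : ℕ → ℕ → ℕ → ℕ → Bool := onCell 0 536870912 0 536870912 33554432 16777216
    (rowFK 0 true true true .pp 0 2 2 (qsf 0 536870912 0 536870912 2) ndF0q0 ndF0q2 pcF2 cut_A00pp_022_s1 Ext.none)

def k0_A00pp_022_s1 : ∃ t, chk3 f_A00pp_022_s1 t 1 1 1 = true :=
  ⟨(l 6), by decide +kernel⟩

theorem c_A00pp_022_s1 : CertF 0 536870912 0 536870912 33554432 16777216 true true true .pp 0 2 2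
    ndF0q0 ndF0q2 pcF2 cut_A00pp_022_s1 Ext.none :=
  certFK0 (fam := true) (s1 := true) (s2 := true) (a := 0) (b := 2) (c := 2) (cn := .pp) (n1 := ndF0q0) (n2 := ndF0q2) (pc := pcF2) (cut := cut_A00pp_022_s1) (xt := Ext.none) (P1 := 0) (W1 := 536870912) (P2 := 0) (W2 := 536870912) (P3 := 33554432) (W3 := 16777216)
    rfl rfl rfl k0_A00pp_022_s1

theorem s_A00pp_022_s1 {κ x : ℝ} (hκ : κ * h0 = ken x) (hx : ((33554432 : ℕ) : ℝ) / S ≤ x)
    (hx' : x ≤ (((33554432 : ℕ) : ℝ) + (16777216 : ℕ)) / S)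
    (H : CutA (VF κ) PP tKF tL pcF (Cut.of [[⟨0, 0, 0, 16777216⟩, ⟨1, 1, 0, 16777216⟩, ⟨2, 1, 0, 16777216⟩]]) 0 2 2 0 0 (sgb true) (sgb true) x) :
    AltA (VF κ) PP tKF tL pcF [⟨3, 0, 0, 1449551462⟩] 0 2 2 0 0 (sgb true) (sgb true) x :=
  strip_altA (m := 1449551462) true rfl hκ covF00 covF02 hx hx' c_A00pp_022_s1 H (noExt_A)

noncomputable def cut_A00pp_022_s3 : Cut := Cut.of [[⟨3, 0, 0, 2845415833⟩], [⟨0, 0, 0, 16777216⟩, ⟨1, 1, 0, 16777216⟩, ⟨2, 1, 0, 16777216⟩]]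

noncomputable def xt_A00pp_022_s3 : Ext := strExt dd true true true .u0 .u2 .s2 .pp 0 2 2 rfl rfl gl2 vv ndF0q0 ndF0q2

noncomputable def f_A00pp_022_s3 : ℕ → ℕ → ℕ → ℕ → Bool := onCell 0 536870912 0 536870912 33554432 16777216
    (rowFK 0 true true true .pp 0 2 2 (qsf 0 536870912 0 536870912 2) ndF0q0 ndF0q2 pcF2 cut_A00pp_022_s3 xt_A00pp_022_s3)

def k0_A00pp_022_s3 : ∃ t, chk3 f_A00pp_022_s3 t 2 2 1 = true :=
  ⟨(a (a (l 6) (b (l 6) (b (l 6) (l 18204632)))) (b (a (l 6) (l 17580488)) (a (b (l 17807048) (l 17856656)) (b (l 17384952) (a (l 17372016) (l 17267232)))))), by decide +kernel⟩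

def k1_A00pp_022_s3 : ∃ t, chk3 f_A00pp_022_s3 t 2 6 1 = true :=
  ⟨(a (a (b (a (l 18968664) (l 18507392)) (a (b (a (l 18850600) (l 18601656)) (a (l 18602168) (l 18374136))) (a (l 18250768) (l 18028496)))) (b (a (l 18125624) (l 17813976)) (a (b (l 17850552) (l 17367192)) (b (l 17531608) (l 566226447))))) (a (b (a (l 17636152) (l 557792527)) (b (l 562274831) (l 564382735))) (b (a (l 556286479) (l 554428175)) (a (l 559756815) (l 557675279))))), by decide +kernel⟩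

def k2_A00pp_022_s3 : ∃ t, chk3 f_A00pp_022_s3 t 4 14 1 = true :=
  ⟨(b (a (a (b (a (a (l 18375128) (l 18310528)) (l 18160024)) (a (a (a (l 17860144) (l 18125240)) (l 18104736)) (l 17986632))) (a (l 17854120) (l 17635752))) (a (a (l 17268896) (l 571579407)) (l 568918799))) (a (b (a (a (a (c (b (l 18131024) (a (l 17924736) (l 17966832))) (a (b (l 17321320) (a (l 16867472) (l 17207616))) (b (l 17668480) (l 17138624)))) (a (b (l 17918744) (l 17681008)) (l 17762624))) (a (l 17649160) (l 17740944))) (a (l 17593400) (l 17385568))) (a (b (a (a (a (c (a (l 17403432) (l 17715096)) (a (b (l 16894824) (l 16766768)) (a (l 16824728) (l 16880800)))) (c (l 17773144) (a (l 16785936) (l 17032872)))) (a (a (c (l 17802352) (l 17262528)) (l 17434104)) (l 17457712))) (a (l 17375864) (l 17574544))) (a (a (a (a (b (c (l 17093520) (l 16742848)) (b (c (l 17049232) (l 16744480)) (l 16737792))) (b (c (l 17432560) (l 16782648)) (c (l 17030424)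 (l 16746264)))) (c (a (l 17180216) (l 17484464)) (a (b (l 16828936) (l 16756928)) (b (l 16932296) (l 16796136))))) (c (a (l 17533848) (l 17643592)) (a (a (l 16744744) (l 16856424)) (b (l 17313656) (l 17052984))))) (a (a (l 17231440) (l 17483896)) (l 17453120)))) (a (a (l 17267040) (l 17340184)) (l 581738255)))) (a (a (l 578025487) (l 575502607)) (l 572326415)))), by decide +kernel⟩

def k3_A00pp_022_s3 : ∃ t, chk3 f_A00pp_022_s3 t 32 60 1 = true :=
  ⟨(a (a (b (b (a (a (l 16747064) (l 16747688)) (l 16747368)) (b (a (l 16748872) (l 16750088)) (a (l 16749856) (l 16751048)))) (a (b (a (l 16750992) (l 16751592)) (a (b (l 16752408) (l 16753344)) (l 16753464))) (a (b (l 16752184) (l 16754040)) (b (l 16752760) (l 16754608))))) (b (b (a (c (l 16967280) (l 16749512)) (c (l 17212320) (l 16774008))) (a (l 16748512) (c (l 16904528) (l 16752600)))) (b (a (c (l 16754440) (l 16753368)) (l 16751688)) (a (a (l 16755160) (l 16755704))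 (b (l 16756064) (l 16756952)))))) (a (b (a (a (c (l 17109272) (l 16750400)) (c (l 17219928) (l 16753936))) (c (l 17168088) (b (l 16855072) (l 16816856)))) (b (a (c (l 16758736) (l 16755544)) (c (l 17076704) (l 16770984))) (a (l 16757640) (a (l 16765144) (l 16774520))))) (a (c (b (l 17449672) (b (l 17291216) (l 17010160))) (b (b (l 17009928) (l 16901464)) (b (l 16787448) (l 16759312)))) (c (b (l 17467656) (b (l 17322432) (l 17135800))) (b (c (l 17107944) (l 16756304)) (b (l 16865280) (l 16760224))))))), by decide +kernel⟩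

def k4_A00pp_022_s3 : ∃ t, chk3 f_A00pp_022_s3 t 32 61 1 = true :=
  ⟨(b (a (a (a (b (b (a (l 16754288) (l 16754864)) (a (l 16755248) (l 16755816))) (b (a (l 16756224) (l 16756784)) (a (l 16757208) (l 16757760)))) (a (b (l 16755896) (l 16757816)) (b (l 16756448) (l 16758352)))) (a (a (b (l 16756992) (l 16758880)) (b (l 16757520) (l 16759392))) (a (b (l 16758048) (l 16759904)) (b (l 16758560) (l 16760400))))) (b (a (a (b (l 16758864) (l 16759768)) (l 16760288)) (a (l 16759848) (c (l 16945072) (l 16761968)))) (a (a (a (l 16760896) (l 16761376)) (l 16762080)) (a (l 16763000) (l 16763256))))) (b (a (a (a (b (a (l 16758216) (l 16758760)) (a (a (l 16759088) (l 16759360)) (l 16759760))) (a (b (l 16759288) (l 16760280)) (c (l 16760488) (l 16760120)))) (a (a (l 16760816) (l 16761312)) (a (l 16761808) (l 16762288)))) (a (a (a (l 16762768) (l 16763232)) (a (l 16763688) (l 16764144))) (a (a (l 16764584) (l 16765024)) (a (l 16765448)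 (l 16765872))))) (a (a (a (a (b (a (b (l 16759856) (l 16760368)) (l 16760376)) (a (l 16761136) (l 16761400))) (a (b (l 16760640) (l 16761656)) (b (l 16760896) (l 16761912)))) (a (b (l 16761288) (a (l 16762168) (l 16762416))) (b (l 16761792) (l 16762784)))) (a (a (b (l 16762288) (l 16763272)) (a (l 16763144) (l 16763384))) (a (b (l 16763256) (l 16764224)) (b (l 16763728) (l 16764688))))) (a (a (a (c (l 16764808) (l 16764512)) (l 16765112)) (a (l 16765552) (l 16765992))) (a (a (l 16766416) (l 16766840)) (a (l 16767248) (l 16767656))))))), by decide +kernel⟩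

def k5_A00pp_022_s3 : ∃ t, chk3 f_A00pp_022_s3 t 33 30 1 = true :=
  ⟨(b (b (a (a (c (l 17477256) (a (c (l 17227920) (l 16894744)) (l 17094736))) (a (l 17168952) (l 17255336))) (a (l 17249344) (l 17311744))) (b (a (a (c (l 17346920) (l 16760216)) (l 16972544)) (a (l 17145072) (l 17214144))) (a (a (c (l 17171904) (a (l 16830888) (l 16884352))) (a (l 16970312) (l 17067696))) (a (l 16990320) (l 17147968))))) (b (b (a (a (c (a (l 17065336) (l 17171832)) (a (l 16777752) (l 16798824))) (c (l 17186096) (a (l 16845720) (l 16879600)))) (a (a (l 17001024) (l 17003840)) (l 16997824))) (a (a (a (l 16761704) (a (l 16760360) (l 16782128))) (a (a (l 16800208) (l 16814992)) (l 16831752))) (a (a (l 16845544) (l 16935256)) (a (l 16934688) (l 16929000))))) (a (b (a (a (l 16766080) (a (l 16777664) (l 16782688))) (a (a (l 16804392) (l 16780344)) (a (l 16794848) (l 16806336)))) (b (a (a (l 16767808) (l 16772752)) (a (l 16800816) (l 16791864)))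 (a (a (l 16768696) (l 16769456)) (a (l 16787848) (l 16781344))))) (a (c (a (b (l 17028856) (l 573464591)) (l 579036943)) (a (b (l 16776216) (l 542102031)) (b (l 16797440) (l 549031183)))) (b (a (l 16786816) (l 16866448)) (c (l 581594639) (a (l 554192911) (l 558554127)))))))), by decide +kernel⟩

def k6_A00pp_022_s3 : ∃ t, chk3 f_A00pp_022_s3 t 32 248 1 = true :=
  ⟨(a (a (a (a (b (a (b (l 16761912) (l 16762432)) (l 16762424)) (b (a (l 16762944) (l 16763200)) (a (l 16763464) (l 16763712)))) (a (b (l 16762680) (l 16763704)) (b (l 16762928) (l 16763952)))) (a (a (b (l 16763176) (l 16764192)) (b (l 16763424) (l 16764432))) (a (b (l 16763664) (l 16764672)) (b (l 16763912) (l 16764912))))) (b (a (a (l 16764264) (l 16764736)) (a (l 16765200) (l 16765648))) (a (a (a (l 16765144) (l 16765376)) (a (l 16765608) (l 16765832))) (a (l 16766168) (l 16766616))))) (b (a (a (a (l 16766096) (l 16766528)) (a (l 16766960) (l 16767384)))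 (a (l 16768000) (l 16768800))) (a (a (a (l 16767048) (l 16767472)) (a (l 16767896) (l 16768312))) (a (a (l 16768712) (l 16769112)) (c (l 16769800) (l 16769592)))))), by decide +kernel⟩

def k7_A00pp_022_s3 : ∃ t, chk3 f_A00pp_022_s3 t 32 249 1 = true :=
  ⟨(a (a (a (a (b (b (a (l 16763984) (l 16764224)) (a (c (l 16764640) (l 16764360)) (l 16764744))) (b (a (c (l 16765152) (l 16764880)) (l 16765256)) (a (a (l 16765472) (l 16765592)) (a (l 16765712) (l 16765824))))) (b (a (c (l 16764864) (l 16764584)) (c (l 16765104) (l 16764832))) (a (b (l 16765496) (l 16766008)) (a (l 16765928) (l 16766040))))) (b (a (a (c (l 16765344) (l 16765072)) (l 16765440)) (a (l 16765680) (l 16765904))) (a (a (b (l 16765968) (l 16766472)) (a (l 16766392) (l 16766504))) (a (c (l 16766800) (l 16766552)) (c (l 16767024) (l 16766784)))))) (b (a (a (a (l 16766136) (l 16766368)) (a (c (l 16766712) (l 16766464)) (b (l 16766568) (l 16767056)))) (a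 (b (l 16766896) (l 16767384)) (l 16767576))) (a (a (a (c (l 16767248) (l 16767008)) (c (l 16767472) (l 16767232))) (a (l 16767568) (l 16767784))) (b (a (c (l 16767984) (l 16767752)) (l 16768296)) (a (c (l 16768464) (l 16768240)) (c (l 16768880) (l 16768664))))))) (b (a (a (a (l 16768000) (l 16768416)) (a (l 16768832) (l 16769232))) (a (a (l 16769624) (l 16770016)) (a (l 16770400) (l 16770776)))) (a (a (a (c (l 16769056) (l 16768840)) (l 16769360)) (a (l 16769760) (l 16770152))) (a (a (l 16770536) (l 16770920)) (a (l 16771288) (l 16771656)))))), by decide +kernel⟩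

def k8_A00pp_022_s3 : ∃ t, chk3 f_A00pp_022_s3 t 64 250 1 = true :=
  ⟨(b (a (a (a (b (a (b (a (l 14) (l 16765976)) (l 14)) (b (l 16766152) (l 16766408))) (l 14)) (b (a (c (l 16766640) (l 16766392)) (c (l 16766864) (l 16766624))) (b (a (l 16766896) (l 16767128)) (a (a (l 14) (l 16767208)) (l 16767376))))) (b (a (a (l 16766976) (l 16767200)) (a (l 16767424) (l 16767648))) (a (a (c (l 16767592) (l 16767360)) (l 16767704)) (a (l 16767920) (l 16768144))))) (a (a (a (b (l 16767872) (l 16768360)) (b (l 16768088) (l 16768576))) (a (b (l 16768304) (l 16768792)) (b (l 16768520) (l 16769000)))) (a (a (c (l 16769072) (l 16768864)) (c (l 16769280) (l 16769072))) (a (c (l 16769480) (l 16769280)) (b (l 16769352) (l 16769824)))))) (a (a (a (l 14) (b (b (a (l 14) (l 16767632)) (l 14)) (l 14))) (b (a (a (c (l 16768088) (l 16767864)) (c (l 16768304) (l 16768088))) (a (c (l 16768528) (l 16768312)) (l 16768632))) (a (a (a (l 14) (a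 (l 14) (l 16768560))) (a (l 16768640) (l 16768752))) (a (c (l 16769016) (l 16768808)) (c (l 16769224) (l 16769024)))))) (b (a (a (a (l 16768848) (l 16769064)) (a (l 16769272) (l 16769480))) (a (a (l 16769688) (l 16769896)) (c (l 16770288) (l 16770104)))) (a (a (a (c (l 16769432) (l 16769240)) (l 16769544)) (a (l 16769752) (l 16769960))) (a (a (l 16770168) (l 16770368)) (a (l 16770568) (l 16770760))))))), by decide +kernel⟩

def k9_A00pp_022_s3 : ∃ t, chk3 f_A00pp_022_s3 t 65 250 1 = true :=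
  ⟨(a (a (a (a (b (b (l 16769552) (l 16770024)) (b (l 16770496) (l 16770960))) (b (b (l 16769760) (l 16770224)) (b (l 16770688) (l 16771152)))) (a (b (l 16770192) (b (l 16770888) (l 16771344))) (b (l 16770384) (b (l 16771080) (l 16771536))))) (b (a (a (l 16770584) (l 16770776)) (a (l 16770968) (l 16771160))) (a (a (b (l 16771272) (l 16771728)) (l 16771688)) (a (l 16771872) (l 16772056))))) (a (a (a (b (l 16771344) (l 16772240)) (b (l 16771528) (l 16772424))) (b (c (l 16771880) (l 16771736)) (a (l 16772600) (l 16772776)))) (a (a (l 535850767) (l 535587855)) (b (l 16772528) (l 535867919))))), by decide +kernel⟩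

def k10_A00pp_022_s3 : ∃ t, chk3 f_A00pp_022_s3 t 64 251 1 = true :=
  ⟨(a (a (l 14) (a (l 14) (b (a (b (a (b (l 16769224) (l 14)) (l 16769456)) (l 14)) (b (b (l 16769488) (l 16769736)) (b (l 16769976) (a (l 14) (l 16770272))))) (l 14)))) (b (b (a (a (a (c (l 16769912) (l 16769728)) (c (l 16770120) (l 16769936))) (a (c (l 16770320) (l 16770144)) (l 16770440))) (a (a (l 16770640) (l 16770840)) (a (l 16771032) (l 16771232)))) (a (a (a (b (l 16770184) (l 16770424)) (b (l 16770392) (l 16770632))) (a (c (l 16770792) (l 16770624)) (c (l 16770992) (l 16770832)))) (a (a (c (l 16771192) (l 16771032)) (c (l 16771384) (l 16771224))) (a (l 16771504) (l 16771696))))) (b (b (a (a (a (c (l 16770752) (l 16770584)) (l 16770864)) (a (l 16771064) (l 16771264))) (a (a (l 16771464) (l 16771656)) (a (l 16771848) (l 16772040)))) (a (a (a (l 14) (c (l 16771184) (l 16771024))) (a (l 16771304) (l 16771504))) (a (a (l 16771696) (l 16771888))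 (a (l 16772080) (l 16772264))))) (b (a (a (a (l 14) (a (l 14) (l 16771392))) (a (c (l 16771616) (l 16771464)) (l 16771736))) (a (a (l 16771928) (l 16772120)) (a (l 16772312) (l 16772496)))) (a (a (l 14) (a (c (l 16771848) (l 16771704)) (c (l 16772040) (l 16771896)))) (a (a (l 16772160) (l 16772352)) (a (l 16772536) (l 16772720)))))))), by decide +kernel⟩

def k11_A00pp_022_s3 : ∃ t, chk3 f_A00pp_022_s3 t 65 251 1 = true :=
  ⟨(a (a (a (a (b (b (l 16771424) (l 16771880)) (a (b (l 16772296) (l 16772752)) (b (l 16772384) (l 16772840)))) (b (b (l 16771616) (l 16772072)) (a (b (l 16772480) (l 16772928)) (b (l 16772576) (l 16773024))))) (a (a (b (l 535541007) (l 535822607)) (b (l 535544335) (l 535557135))) (a (b (l 535547407) (l 535560463)) (b (l 535550223) (l 535563535))))) (a (a (b (b (l 16772176) (l 16772624)) (b (l 16773072) (l 535838479))) (b (b (l 16772360) (l 535562767)) (b (l 16773248) (l 535844623)))) (a (b (l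 535834127) (a (l 535578639) (l 535581711))) (b (l 535840015) (l 535853583))))) (a (a (a (b (l 535577615) (l 535859471)) (b (l 535583503) (l 535596815))) (a (b (l 535589135) (l 535602703)) (b (l 535594767) (l 535608335)))) (a (b (b (l 16773688) (l 536140559)) (a (l 535613967) (l 535619599))) (b (l 536149007) (a (l 535625231) (l 535630863)))))), by decide +kernel⟩

def k12_A00pp_022_s3 : ∃ t, chk3 f_A00pp_022_s3 t 64 63 1 = true :=
  ⟨(b (b (b (a (l 14) (b (a (a (l 14) (a (l 14) (b (c (l 16772264) (l 16772128)) (a (l 14) (l 16772480))))) (b (a (a (c (l 16772456) (l 16772328)) (l 16772576)) (a (l 16772768) (l 16772952))) (a (a (c (l 16772680) (l 16772560)) (c (l 16772872) (l 16772744))) (a (c (l 16773048) (l 16772936)) (l 16773176))))) (a (l 14) (b (b (a (a (l 16772792) (l 16772976)) (a (l 16773160) (l 16773344))) (a (a (l 16772904) (l 16773088)) (a (l 16773272) (l 16773456)))) (a (a (l 14) (a (l 16773216) (l 16773304)))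 (a (a (l 16773400) (l 16773488)) (c (l 16773672) (l 16773576)))))))) (a (l 14) (a (l 14) (a (b (b (a (l 14) (a (l 14) (l 16773536))) (l 14)) (l 14)) (a (a (b (b (l 16773624) (l 16773848)) (l 14)) (a (b (l 535555855) (l 14)) (b (l 535557647) (l 535565071)))) (a (a (b (l 535559183) (l 535566607)) (b (l 535560719) (l 535568399))) (b (b (l 16773888) (l 16774112)) (b (l 535836687) (l 535840527))))))))) (l 14)) (l 14)), by decide +kernel⟩

def k13_A00pp_022_s3 : ∃ t, chk3 f_A00pp_022_s3 t 65 252 1 = true :=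
  ⟨(a (a (a (a (a (b (b (l 535551503) (l 535827215)) (a (b (l 535565839) (l 535573263)) (b (l 535567375) (l 535575055)))) (b (b (l 535554831) (l 535561999)) (b (l 535837711) (b (l 16774504) (l 535578895))))) (a (b (b (l 535557903) (l 535565071)) (b (l 535572495) (l 535714319))) (b (b (l 16773472) (l 535568399)) (b (l 535575823) (l 535583503))))) (a (a (b (b (l 16773560) (l 535571471)) (b (l 535578895) (l 535586575))) (b (b (l 16773648) (l 535574799)) (b (l 535582223) (l 535589903)))) (a (b (b (l 16773736) (l 535577871)) (b (l 535585295) (l 535592975))) (b (l 535711759) (b (l 535588623) (l 535596303)))))) (a (a (a (b (l 535580687) (b (l 535591695) (l 535599375))) (b (l 535583759) (b (l 535594767) (l 535602447)))) (b (b (l 535851791) (l 535859215)) (b (a (l 535597839) (l 535600911)) (a (l 535605775) (l 535608847))))) (a (b (b (l 535589647) (l 535865359)) (b (l 535873039) (l 535880719))) (b (a (l 535598863) (l 535601935))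 (b (l 535610639) (l 535886863)))))) (a (a (b (a (a (l 535604751) (l 535607823)) (l 535879695)) (a (b (l 535616783) (l 535624463)) (b (l 535622671) (l 535630607)))) (b (a (l 535617039) (l 535622927)) (a (b (l 535628559) (l 535636495)) (l 535638543)))) (a (b (a (l 535628559) (l 535634191)) (a (l 535644175) (l 535649807))) (b (a (l 535639823) (l 535645455)) (a (l 535655439) (l 535661071)))))), by decide +kernel⟩

def k14_A00pp_022_s3 : ∃ t, chk3 f_A00pp_022_s3 t 65 253 1 = true :=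
  ⟨(b (a (a (b (a (a (a (b (l 535847695) (l 14)) (a (l 535584271) (l 535586063))) (a (a (l 535587599) (l 535589135)) (a (l 535590927) (l 535592463)))) (a (a (l 535728655) (l 535597583)) (a (l 535600911) (l 535603983)))) (a (a (l 14) (a (l 14) (a (l 535598863) (l 535600399)))) (a (a (a (l 535602191) (l 535603727)) (a (l 535605263) (l 535607055))) (a (l 535743247) (l 535612175))))) (a (a (b (a (l 535607311) (l 535610383)) (a (l 535615503) (l 535618575))) (b (a (l 535613455) (l 535616527)) (a (l 535621647) (l 535624719)))) (a (b (a (l 535619855) (l 535622927)) (a (l 535628047) (l 535631119))) (b (l 535894799) (a (l 535634191) (l 535637263)))))) (a (a (a (b (l 535632655) (l 535909135)) (b (l 535638543) (l 535646991))) (a (b (l 535644687) (l 535652879)) (b (l 535650575) (l 535658767)))) (a (a (b (l 535656463) (l 535664655)) (l 535800591)) (a (l 535940623) (l 535811855))))) (a (a (b (a (l 14) (a (a (l 14) (a (l 14) (l 535615503)))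 (a (a (l 535617039) (l 535618575)) (l 535754767)))) (l 14)) (a (a (a (b (l 535623951) (a (l 535632143) (l 535633679))) (b (l 535627023) (l 535770127))) (b (a (l 535630095) (l 535633423)) (a (l 535639055) (l 535642127)))) (a (b (a (l 535636495) (l 535639567)) (a (l 535645199) (l 535648271))) (b (a (l 535642639) (l 535645711)) (a (l 535651599) (l 535654671)))))) (b (a (a (a (a (l 535648783) (l 535651855)) (l 535655439)) (a (l 535661583) (l 4))) (l 4)) (l 4)))), by decide +kernel⟩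

def k15_A00pp_022_s3 : ∃ t, chk3 f_A00pp_022_s3 t 65 127 1 = true :=
  ⟨(a (a (l 14) (a (a (l 14) (a (a (l 14) (a (l 14) (l 4))) (l 4))) (l 4))) (l 4)), by decide +kernel⟩

def k16_A00pp_022_s3 : ∃ t, chk3 f_A00pp_022_s3 t 33 31 1 = true :=
  ⟨(a (b (a (a (b (b (b (l 16769576) (l 16770456)) (a (l 536120847) (l 535862799))) (b (a (b (l 16772880) (l 535610639)) (a (l 535614735) (l 535620111))) (a (b (l 535891727) (l 535905295)) (b (l 535634191) (l 535648015))))) (b (b (b (l 16770320) (l 16771184)) (a (l 535604751) (l 535614991))) (b (a (l 535894799) (l 535636495)) (a (b (l 535644943) (l 535658767)) (l 535930639))))) (a (b (b (b (l 16772600) (l 16771896)) (a (l 535624719) (l 535634447))) (b (a (l 535646479) (l 535656207)) (a (l 535672591) (l 535682319)))) (b (b (b (l 16773560) (l 539813135)) (l 536181263)) (b (a (l 535665679) (l 535675151)) (a (l 535692047) (l 535701519)))))) (b (b (a (a (a (b (l 535920143) (a (l 535666703)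 (l 535672335))) (b (l 535662863) (l 535947023))) (a (b (l 535673615) (l 535689743)) (b (l 535684367) (l 4)))) (a (a (b (l 535694607) (l 4)) (l 535712783)) (l 4))) (l 4)) (l 4))) (b (a (a (b (b (b (l 16775976) (a (l 16788816) (l 16776896))) (a (l 538486799) (l 542869007))) (b (l 535953423) (l 536248591))) (b (c (b (l 572548367) (l 564757519)) (b (l 541124111) (l 535661327))) (b (l 538133519) (l 535729679)))) (b (c (a (a (l 573104911) (l 575133711)) (l 577832463)) (a (b (l 547559695) (l 539132431)) (b (l 552981263) (l 545912335)))) (b (a (c (l 564823823) (l 535699983)) (c (l 570280207) (l 536908047))) (l 4)))) (l 4))), by decide +kernel⟩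

def k17_A00pp_022_s3 : ∃ t, chk3 f_A00pp_022_s3 t 17 15 1 = true :=
  ⟨(b (a (a (a (b (b (l 17279608) (l 17070856)) (b (c (l 16995072) (l 571081231)) (c (l 586418191) (a (l 564197903) (l 567014671))))) (b (l 583226895) (b (l 581910031) (l 579299855)))) (b (b (l 17174168) (l 584081423)) (c (l 590579727) (a (l 575342607) (l 577291279))))) (b (a (l 583794447) (l 583042575)) (a (l 584885775) (l 584936975)))) (b (b (a (a (c (a (c (l 588453647) (l 575885839)) (l 586137871)) (a (a (b (l 557561103) (l 551620879)) (l 559077903)) (a (l 562738959) (l 565844239)))) (a (l 579181327) (l 4))) (l 4)) (l 4)) (l 4))), by decide +kernel⟩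

def k18_A00pp_022_s3 : ∃ t, chk3 f_A00pp_022_s3 t 9 15 1 = true :=
  ⟨(b (a (a (b (l 581582863) (l 4)) (l 580255759)) (l 4)) (l 4)), by decide +kernel⟩

def k19_A00pp_022_s3 : ∃ t, chk3 f_A00pp_022_s3 t 5 7 1 = true :=
  ⟨(b (a (a (b (l 565724687) (l 4)) (l 564321807)) (l 4)) (l 4)), by decide +kernel⟩

def k20_A00pp_022_s3 : ∃ t, chk3 f_A00pp_022_s3 t 3 1 1 = true :=
  ⟨(a (b (b (a (l 17142368) (l 17092368)) (a (b (l 17047336) (a (l 548848655) (l 546734095))) (b (l 542200847) (l 543375119)))) (b (b (a (a (l 552446223) (l 550259727)) (l 4)) (l 4)) (l 4))) (b (b (l 2) (b (l 2) (b (l 2) (l 4)))) (l 4))), by decide +kernel⟩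

theorem t21_A00pp_022_s3 : ∃ t, chk3 f_A00pp_022_s3 t 65 126 1 = true := ex3_b k13_A00pp_022_s3 k14_A00pp_022_s3

theorem t22_A00pp_022_s3 : ∃ t, chk3 f_A00pp_022_s3 t 65 63 1 = true := ex3_b t21_A00pp_022_s3 k15_A00pp_022_s3

theorem t23_A00pp_022_s3 : ∃ t, chk3 f_A00pp_022_s3 t 32 63 1 = true := ex3_a k12_A00pp_022_s3 t22_A00pp_022_s3

theorem t24_A00pp_022_s3 : ∃ t, chk3 f_A00pp_022_s3 t 32 251 1 = true := ex3_a k10_A00pp_022_s3 k11_A00pp_022_s3

theorem t25_A00pp_022_s3 : ∃ t, chk3 f_A00pp_022_s3 t 32 250 1 = true := ex3_a k8_A00pp_022_s3 k9_A00pp_022_s3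

theorem t26_A00pp_022_s3 : ∃ t, chk3 f_A00pp_022_s3 t 32 125 1 = true := ex3_b t25_A00pp_022_s3 t24_A00pp_022_s3

theorem t27_A00pp_022_s3 : ∃ t, chk3 f_A00pp_022_s3 t 32 124 1 = true := ex3_b k6_A00pp_022_s3 k7_A00pp_022_s3

theorem t28_A00pp_022_s3 : ∃ t, chk3 f_A00pp_022_s3 t 32 62 1 = true := ex3_b t27_A00pp_022_s3 t26_A00pp_022_s3

theorem t29_A00pp_022_s3 : ∃ t, chk3 f_A00pp_022_s3 t 32 31 1 = true := ex3_b t28_A00pp_022_s3 t23_A00pp_022_s3

theorem t30_A00pp_022_s3 : ∃ t, chk3 f_A00pp_022_s3 t 16 31 1 = true := ex3_a t29_A00pp_022_s3 k16_A00pp_022_s3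

theorem t31_A00pp_022_s3 : ∃ t, chk3 f_A00pp_022_s3 t 32 30 1 = true := ex3_b k3_A00pp_022_s3 k4_A00pp_022_s3

theorem t32_A00pp_022_s3 : ∃ t, chk3 f_A00pp_022_s3 t 16 30 1 = true := ex3_a t31_A00pp_022_s3 k5_A00pp_022_s3

theorem t33_A00pp_022_s3 : ∃ t, chk3 f_A00pp_022_s3 t 16 15 1 = true := ex3_b t32_A00pp_022_s3 t30_A00pp_022_s3

theorem t34_A00pp_022_s3 : ∃ t, chk3 f_A00pp_022_s3 t 8 15 1 = true := ex3_a t33_A00pp_022_s3 k17_A00pp_022_s3

theorem t35_A00pp_022_s3 : ∃ t, chk3 f_A00pp_022_s3 t 4 15 1 = true := ex3_a t34_A00pp_022_s3 k18_A00pp_022_s3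

theorem t36_A00pp_022_s3 : ∃ t, chk3 f_A00pp_022_s3 t 4 7 1 = true := ex3_b k2_A00pp_022_s3 t35_A00pp_022_s3

theorem t37_A00pp_022_s3 : ∃ t, chk3 f_A00pp_022_s3 t 2 7 1 = true := ex3_a t36_A00pp_022_s3 k19_A00pp_022_s3

theorem t38_A00pp_022_s3 : ∃ t, chk3 f_A00pp_022_s3 t 2 3 1 = true := ex3_b k1_A00pp_022_s3 t37_A00pp_022_s3

theorem t39_A00pp_022_s3 : ∃ t, chk3 f_A00pp_022_s3 t 2 1 1 = true := ex3_b k0_A00pp_022_s3 t38_A00pp_022_s3

theorem t40_A00pp_022_s3 : ∃ t, chk3 f_A00pp_022_s3 t 1 1 1 = true := ex3_a t39_A00pp_022_s3 k20_A00pp_022_s3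

theorem c_A00pp_022_s3 : CertF 0 536870912 0 536870912 33554432 16777216 true true true .pp 0 2 2
    ndF0q0 ndF0q2 pcF2 cut_A00pp_022_s3 xt_A00pp_022_s3 :=
  certFK0 (fam := true) (s1 := true) (s2 := true) (a := 0) (b := 2) (c := 2) (cn := .pp) (n1 := ndF0q0) (n2 := ndF0q2) (pc := pcF2) (cut := cut_A00pp_022_s3) (xt := xt_A00pp_022_s3) (P1 := 0) (W1 := 536870912) (P2 := 0) (W2 := 536870912) (P3 := 33554432) (W3 := 16777216)
    rfl rfl rfl t40_A00pp_022_s3

theorem s_A00pp_022_s3 {κ x : ℝ} (hκ : κ * h0 = ken x) (hx : ((33554432 : ℕ) : ℝ) / S ≤ x)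
    (hx' : x ≤ (((33554432 : ℕ) : ℝ) + (16777216 : ℕ)) / S)
    (H : CutA (VF κ) PP tKF tL pcF (Cut.of [[⟨0, 0, 0, 16777216⟩, ⟨1, 1, 0, 16777216⟩, ⟨2, 1, 0, 16777216⟩]]) 0 2 2 0 0 (sgb true) (sgb true) x) :
    AltA (VF κ) PP tKF tL pcF [⟨4, 0, 0, 2845415833⟩] 0 2 2 0 0 (sgb true) (sgb true) x :=
  strip_altA (m := 2845415833) false rfl hκ covF00 covF02 hx hx' c_A00pp_022_s3 H ((okx hx hx').extA (T := tt) (sideF hx hx') hκ rfl rfl (.O 0 true) (.O 2 true) (Or.inl rfl))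

noncomputable def cut_A00pp_023_s1 : Cut := Cut.of [[⟨4, 0, 0, 1449551462⟩]]

noncomputable def f_A00pp_023_s1 : ℕ → ℕ → ℕ → ℕ → Bool := onCell 0 536870912 0 536870912 33554432 16777216
    (rowFK 0 true true true .up 0 2 3 (qsf 0 536870912 0 536870912 3) ndF0q0 ndF0q2 pcF3 cut_A00pp_023_s1 Ext.none)

def k0_A00pp_023_s1 : ∃ t, chk3 f_A00pp_023_s1 t 1 1 1 = true :=
  ⟨(l 6), by decide +kernel⟩

theorem c_A00pp_023_s1 : CertF 0 536870912 0 536870912 33554432 16777216 true true true .up 0 2 3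
    ndF0q0 ndF0q2 pcF3 cut_A00pp_023_s1 Ext.none :=
  certFK0 (fam := true) (s1 := true) (s2 := true) (a := 0) (b := 2) (c := 3) (cn := .up) (n1 := ndF0q0) (n2 := ndF0q2) (pc := pcF3) (cut := cut_A00pp_023_s1) (xt := Ext.none) (P1 := 0) (W1 := 536870912) (P2 := 0) (W2 := 536870912) (P3 := 33554432) (W3 := 16777216)
    rfl rfl rfl k0_A00pp_023_s1

theorem s_A00pp_023_s1 {κ x : ℝ} (hκ : κ * h0 = ken x) (hx : ((33554432 : ℕ) : ℝ) / S ≤ x)
    (hx' : x ≤ (((33554432 : ℕ) : ℝ) + (16777216 : ℕ)) / S) :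
    AltA (VF κ) PP tKF tL pcF [⟨3, 0, 0, 1449551462⟩] 0 2 3 0 0 (sgb true) (sgb true) x :=
  strip_altA (m := 1449551462) true rfl hκ covF00 covF02 hx hx' c_A00pp_023_s1 cutA_nil (noExt_A)

noncomputable def cut_A00pp_023_s3 : Cut := Cut.of [[⟨3, 0, 0, 2845415833⟩]]

noncomputable def xt_A00pp_023_s3 : Ext := strExt dd true true true .u0 .u2 .s2 .up 0 2 3 rfl rfl gl3 vv ndF0q0 ndF0q2

noncomputable def f_A00pp_023_s3 : ℕ → ℕ → ℕ → ℕ → Bool := onCell 1610612736 536870912 0 536870912 33554432 16777216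
    (rowFK 2 true true true .up 0 2 3 (qsf 0 536870912 0 536870912 3) ndF0q0 ndF0q2 pcF3 cut_A00pp_023_s3 xt_A00pp_023_s3)

def k0_A00pp_023_s3 : ∃ t, chk3 f_A00pp_023_s3 t 1 1 1 = true :=
  ⟨(a (b (a (b (a (b (l 17062088) (l 17167928)) (b (l 17159416) (l 542897935))) (a (b (a (l 542709263) (l 542612751)) (a (l 544442127) (l 4))) (b (l 543012111) (l 4)))) (b (a (b (l 545715727) (l 545549839)) (l 2)) (l 4))) (l 4)) (l 2)), by decide +kernel⟩

theorem c_A00pp_023_s3 : CertF 0 536870912 0 536870912 33554432 16777216 true true true .up 0 2 3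
    ndF0q0 ndF0q2 pcF3 cut_A00pp_023_s3 xt_A00pp_023_s3 :=
  certFK2 (fam := true) (s1 := true) (s2 := true) (a := 0) (b := 2) (c := 3) (cn := .up) (n1 := ndF0q0) (n2 := ndF0q2) (pc := pcF3) (cut := cut_A00pp_023_s3) (xt := xt_A00pp_023_s3) (P1 := 0) (W1 := 536870912) (P2 := 0) (W2 := 536870912) (P3 := 33554432) (W3 := 16777216)
    rfl rfl rfl (fun _ => rfl) k0_A00pp_023_s3

theorem s_A00pp_023_s3 {κ x : ℝ} (hκ : κ * h0 = ken x) (hx : ((33554432 : ℕ) : ℝ) / S ≤ x)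
    (hx' : x ≤ (((33554432 : ℕ) : ℝ) + (16777216 : ℕ)) / S) :
    AltA (VF κ) PP tKF tL pcF [⟨4, 0, 0, 2845415833⟩] 0 2 3 0 0 (sgb true) (sgb true) x :=
  strip_altA (m := 2845415833) false rfl hκ covF00 covF02 hx hx' c_A00pp_023_s3 cutA_nil ((okx hx hx').extA (T := tt) (sideF hx hx') hκ rfl rfl (.O 0 true) (.O 2 true) (Or.inr rfl))

noncomputable def cut_A00pp_101_s1 : Cut := Cut.of [[⟨4, 0, 0, 1449551462⟩]]

noncomputable def f_A00pp_101_s1 : ℕ → ℕ → ℕ → ℕ → Bool := onCell 536870912 536870912 0 536870912 33554432 16777216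
    (rowFK 0 true true true .npn 1 0 1 (qsf 536870912 536870912 0 536870912 1) ndF0q1 ndF0q0 pcF1 cut_A00pp_101_s1 Ext.none)

def k0_A00pp_101_s1 : ∃ t, chk3 f_A00pp_101_s1 t 1 1 1 = true :=
  ⟨(l 6), by decide +kernel⟩

theorem c_A00pp_101_s1 : CertF 536870912 536870912 0 536870912 33554432 16777216 true true true .npn 1 0 1
    ndF0q1 ndF0q0 pcF1 cut_A00pp_101_s1 Ext.none :=
  certFK0 (fam := true) (s1 := true) (s2 := true) (a := 1) (b := 0) (c := 1) (cn := .npn) (n1 := ndF0q1) (n2 := ndF0q0) (pc := pcF1) (cut := cut_A00pp_101_s1) (xt := Ext.none) (P1 := 536870912) (W1 := 536870912) (P2 := 0) (W2 := 536870912) (P3 := 33554432) (W3 := 16777216)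
    rfl rfl rfl k0_A00pp_101_s1

theorem s_A00pp_101_s1 {κ x : ℝ} (hκ : κ * h0 = ken x) (hx : ((33554432 : ℕ) : ℝ) / S ≤ x)
    (hx' : x ≤ (((33554432 : ℕ) : ℝ) + (16777216 : ℕ)) / S) :
    AltA (VF κ) PP tKF tL pcF [⟨3, 0, 0, 1449551462⟩] 1 0 1 0 0 (sgb true) (sgb true) x :=
  strip_altA (m := 1449551462) true rfl hκ covF01 covF00 hx hx' c_A00pp_101_s1 cutA_nil (noExt_A)

noncomputable def cut_A00pp_101_s3 : Cut := Cut.of [[⟨3, 0, 0, 2845415833⟩]]

noncomputable def f_A00pp_101_s3 : ℕ → ℕ → ℕ → ℕ → Bool := onCell 536870912 536870912 0 536870912 33554432 16777216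
    (rowFK 0 true true true .npn 1 0 1 (qsf 536870912 536870912 0 536870912 1) ndF0q1 ndF0q0 pcF1 cut_A00pp_101_s3 Ext.none)

def k0_A00pp_101_s3 : ∃ t, chk3 f_A00pp_101_s3 t 1 1 1 = true :=
  ⟨(a (l 4) (l 5)), by decide +kernel⟩

theorem c_A00pp_101_s3 : CertF 536870912 536870912 0 536870912 33554432 16777216 true true true .npn 1 0 1
    ndF0q1 ndF0q0 pcF1 cut_A00pp_101_s3 Ext.none :=
  certFK0 (fam := true) (s1 := true) (s2 := true) (a := 1) (b := 0) (c := 1) (cn := .npn) (n1 := ndF0q1) (n2 := ndF0q0) (pc := pcF1) (cut := cut_A00pp_101_s3) (xt := Ext.none) (P1 := 536870912) (W1 := 536870912) (P2 := 0) (W2 := 536870912) (P3 := 33554432) (W3 := 16777216)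
    rfl rfl rfl k0_A00pp_101_s3

theorem s_A00pp_101_s3 {κ x : ℝ} (hκ : κ * h0 = ken x) (hx : ((33554432 : ℕ) : ℝ) / S ≤ x)
    (hx' : x ≤ (((33554432 : ℕ) : ℝ) + (16777216 : ℕ)) / S) :
    AltA (VF κ) PP tKF tL pcF [⟨4, 0, 0, 2845415833⟩] 1 0 1 0 0 (sgb true) (sgb true) x :=
  strip_altA (m := 2845415833) false rfl hκ covF01 covF00 hx hx' c_A00pp_101_s3 cutA_nil (noExt_A)

noncomputable def cut_A00pp_102_s1 : Cut := Cut.of [[⟨4, 0, 0, 1449551462⟩]]

noncomputable def f_A00pp_102_s1 : ℕ → ℕ → ℕ → ℕ → Bool := onCell 536870912 536870912 0 536870912 33554432 16777216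
    (rowFK 0 true true true .npp 1 0 2 (qsf 536870912 536870912 0 536870912 2) ndF0q1 ndF0q0 pcF2 cut_A00pp_102_s1 Ext.none)

def k0_A00pp_102_s1 : ∃ t, chk3 f_A00pp_102_s1 t 1 1 1 = true :=
  ⟨(l 6), by decide +kernel⟩

theorem c_A00pp_102_s1 : CertF 536870912 536870912 0 536870912 33554432 16777216 true true true .npp 1 0 2
    ndF0q1 ndF0q0 pcF2 cut_A00pp_102_s1 Ext.none :=
  certFK0 (fam := true) (s1 := true) (s2 := true) (a := 1) (b := 0) (c := 2) (cn := .npp) (n1 := ndF0q1) (n2 := ndF0q0) (pc := pcF2) (cut := cut_A00pp_102_s1) (xt := Ext.none) (P1 := 536870912) (W1 := 536870912) (P2 := 0) (W2 := 536870912) (P3 := 33554432) (W3 := 16777216)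
    rfl rfl rfl k0_A00pp_102_s1

theorem s_A00pp_102_s1 {κ x : ℝ} (hκ : κ * h0 = ken x) (hx : ((33554432 : ℕ) : ℝ) / S ≤ x)
    (hx' : x ≤ (((33554432 : ℕ) : ℝ) + (16777216 : ℕ)) / S) :
    AltA (VF κ) PP tKF tL pcF [⟨3, 0, 0, 1449551462⟩] 1 0 2 0 0 (sgb true) (sgb true) x :=
  strip_altA (m := 1449551462) true rfl hκ covF01 covF00 hx hx' c_A00pp_102_s1 cutA_nil (noExt_A)

noncomputable def cut_A00pp_102_s3 : Cut := Cut.of [[⟨3, 0, 0, 2845415833⟩]]

noncomputable def f_A00pp_102_s3 : ℕ → ℕ → ℕ → ℕ → Bool := onCell 536870912 536870912 0 536870912 33554432 16777216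
    (rowFK 0 true true true .npp 1 0 2 (qsf 536870912 536870912 0 536870912 2) ndF0q1 ndF0q0 pcF2 cut_A00pp_102_s3 Ext.none)

def k0_A00pp_102_s3 : ∃ t, chk3 f_A00pp_102_s3 t 1 1 1 = true :=
  ⟨(a (l 4) (l 5)), by decide +kernel⟩

theorem c_A00pp_102_s3 : CertF 536870912 536870912 0 536870912 33554432 16777216 true true true .npp 1 0 2
    ndF0q1 ndF0q0 pcF2 cut_A00pp_102_s3 Ext.none :=
  certFK0 (fam := true) (s1 := true) (s2 := true) (a := 1) (b := 0) (c := 2) (cn := .npp) (n1 := ndF0q1) (n2 := ndF0q0) (pc := pcF2) (cut := cut_A00pp_102_s3) (xt := Ext.none) (P1 := 536870912) (W1 := 536870912) (P2 := 0) (W2 := 536870912) (P3 := 33554432) (W3 := 16777216)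
    rfl rfl rfl k0_A00pp_102_s3

theorem s_A00pp_102_s3 {κ x : ℝ} (hκ : κ * h0 = ken x) (hx : ((33554432 : ℕ) : ℝ) / S ≤ x)
    (hx' : x ≤ (((33554432 : ℕ) : ℝ) + (16777216 : ℕ)) / S) :
    AltA (VF κ) PP tKF tL pcF [⟨4, 0, 0, 2845415833⟩] 1 0 2 0 0 (sgb true) (sgb true) x :=
  strip_altA (m := 2845415833) false rfl hκ covF01 covF00 hx hx' c_A00pp_102_s3 cutA_nil (noExt_A)

noncomputable def cut_A00pp_112_s1 : Cut := Cut.of [[⟨4, 0, 0, 1449551462⟩]]

noncomputable def f_A00pp_112_s1 : ℕ → ℕ → ℕ → ℕ → Bool := onCell 536870912 536870912 536870912 536870912 33554432 16777216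
    (rowFK 0 true true true .dn 1 1 2 (qsf 536870912 536870912 536870912 536870912 2) ndF0q1 ndF0q1 pcF2 cut_A00pp_112_s1 Ext.none)

def k0_A00pp_112_s1 : ∃ t, chk3 f_A00pp_112_s1 t 1 1 1 = true :=
  ⟨(l 4), by decide +kernel⟩

theorem c_A00pp_112_s1 : CertF 536870912 536870912 536870912 536870912 33554432 16777216 true true true .dn 1 1 2
    ndF0q1 ndF0q1 pcF2 cut_A00pp_112_s1 Ext.none :=
  certFK0 (fam := true) (s1 := true) (s2 := true) (a := 1) (b := 1) (c := 2) (cn := .dn) (n1 := ndF0q1) (n2 := ndF0q1) (pc := pcF2) (cut := cut_A00pp_112_s1) (xt := Ext.none) (P1 := 536870912) (W1 := 536870912) (P2 := 536870912) (W2 := 536870912) (P3 := 33554432) (W3 := 16777216)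
    rfl rfl rfl k0_A00pp_112_s1

theorem s_A00pp_112_s1 {κ x : ℝ} (hκ : κ * h0 = ken x) (hx : ((33554432 : ℕ) : ℝ) / S ≤ x)
    (hx' : x ≤ (((33554432 : ℕ) : ℝ) + (16777216 : ℕ)) / S) :
    AltA (VF κ) PP tKF tL pcF [⟨3, 0, 0, 1449551462⟩] 1 1 2 0 0 (sgb true) (sgb true) x :=
  strip_altA (m := 1449551462) true rfl hκ covF01 covF01 hx hx' c_A00pp_112_s1 cutA_nil (noExt_A)

noncomputable def cut_A00pp_112_s3 : Cut := Cut.of [[⟨3, 0, 0, 2845415833⟩]]

noncomputable def f_A00pp_112_s3 : ℕ → ℕ → ℕ → ℕ → Bool := onCell 536870912 536870912 536870912 536870912 33554432 16777216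
    (rowFK 0 true true true .dn 1 1 2 (qsf 536870912 536870912 536870912 536870912 2) ndF0q1 ndF0q1 pcF2 cut_A00pp_112_s3 Ext.none)

def k0_A00pp_112_s3 : ∃ t, chk3 f_A00pp_112_s3 t 1 1 1 = true :=
  ⟨(l 4), by decide +kernel⟩

theorem c_A00pp_112_s3 : CertF 536870912 536870912 536870912 536870912 33554432 16777216 true true true .dn 1 1 2
    ndF0q1 ndF0q1 pcF2 cut_A00pp_112_s3 Ext.none :=
  certFK0 (fam := true) (s1 := true) (s2 := true) (a := 1) (b := 1) (c := 2) (cn := .dn) (n1 := ndF0q1) (n2 := ndF0q1) (pc := pcF2) (cut := cut_A00pp_112_s3) (xt := Ext.none) (P1 := 536870912) (W1 := 536870912) (P2 := 536870912) (W2 := 536870912) (P3 := 33554432) (W3 := 16777216)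
    rfl rfl rfl k0_A00pp_112_s3

theorem s_A00pp_112_s3 {κ x : ℝ} (hκ : κ * h0 = ken x) (hx : ((33554432 : ℕ) : ℝ) / S ≤ x)
    (hx' : x ≤ (((33554432 : ℕ) : ℝ) + (16777216 : ℕ)) / S) :
    AltA (VF κ) PP tKF tL pcF [⟨4, 0, 0, 2845415833⟩] 1 1 2 0 0 (sgb true) (sgb true) x :=
  strip_altA (m := 2845415833) false rfl hκ covF01 covF01 hx hx' c_A00pp_112_s3 cutA_nil (noExt_A)

noncomputable def cut_A00pp_113_s1 : Cut := Cut.of [[⟨4, 0, 0, 1449551462⟩]]

noncomputable def f_A00pp_113_s1 : ℕ → ℕ → ℕ → ℕ → Bool := onCell 536870912 536870912 536870912 536870912 33554432 16777216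
    (rowFK 0 true true true .nn 1 1 3 (qsf 536870912 536870912 536870912 536870912 3) ndF0q1 ndF0q1 pcF3 cut_A00pp_113_s1 Ext.none)

def k0_A00pp_113_s1 : ∃ t, chk3 f_A00pp_113_s1 t 1 1 1 = true :=
  ⟨(l 4), by decide +kernel⟩

theorem c_A00pp_113_s1 : CertF 536870912 536870912 536870912 536870912 33554432 16777216 true true true .nn 1 1 3
    ndF0q1 ndF0q1 pcF3 cut_A00pp_113_s1 Ext.none :=
  certFK0 (fam := true) (s1 := true) (s2 := true) (a := 1) (b := 1) (c := 3) (cn := .nn) (n1 := ndF0q1) (n2 := ndF0q1) (pc := pcF3) (cut := cut_A00pp_113_s1) (xt := Ext.none) (P1 := 536870912) (W1 := 536870912) (P2 := 536870912) (W2 := 536870912) (P3 := 33554432) (W3 := 16777216)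
    rfl rfl rfl k0_A00pp_113_s1

theorem s_A00pp_113_s1 {κ x : ℝ} (hκ : κ * h0 = ken x) (hx : ((33554432 : ℕ) : ℝ) / S ≤ x)
    (hx' : x ≤ (((33554432 : ℕ) : ℝ) + (16777216 : ℕ)) / S) :
    AltA (VF κ) PP tKF tL pcF [⟨3, 0, 0, 1449551462⟩] 1 1 3 0 0 (sgb true) (sgb true) x :=
  strip_altA (m := 1449551462) true rfl hκ covF01 covF01 hx hx' c_A00pp_113_s1 cutA_nil (noExt_A)

noncomputable def cut_A00pp_113_s3 : Cut := Cut.of [[⟨3, 0, 0, 2845415833⟩]]

noncomputable def f_A00pp_113_s3 : ℕ → ℕ → ℕ → ℕ → Bool := onCell 536870912 536870912 536870912 536870912 33554432 16777216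
    (rowFK 0 true true true .nn 1 1 3 (qsf 536870912 536870912 536870912 536870912 3) ndF0q1 ndF0q1 pcF3 cut_A00pp_113_s3 Ext.none)

def k0_A00pp_113_s3 : ∃ t, chk3 f_A00pp_113_s3 t 1 1 1 = true :=
  ⟨(l 4), by decide +kernel⟩

theorem c_A00pp_113_s3 : CertF 536870912 536870912 536870912 536870912 33554432 16777216 true true true .nn 1 1 3
    ndF0q1 ndF0q1 pcF3 cut_A00pp_113_s3 Ext.none :=
  certFK0 (fam := true) (s1 := true) (s2 := true) (a := 1) (b := 1) (c := 3) (cn := .nn) (n1 := ndF0q1) (n2 := ndF0q1) (pc := pcF3) (cut := cut_A00pp_113_s3) (xt := Ext.none) (P1 := 536870912) (W1 := 536870912) (P2 := 536870912) (W2 := 536870912) (P3 := 33554432) (W3 := 16777216)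
    rfl rfl rfl k0_A00pp_113_s3

theorem s_A00pp_113_s3 {κ x : ℝ} (hκ : κ * h0 = ken x) (hx : ((33554432 : ℕ) : ℝ) / S ≤ x)
    (hx' : x ≤ (((33554432 : ℕ) : ℝ) + (16777216 : ℕ)) / S) :
    AltA (VF κ) PP tKF tL pcF [⟨4, 0, 0, 2845415833⟩] 1 1 3 0 0 (sgb true) (sgb true) x :=
  strip_altA (m := 2845415833) false rfl hκ covF01 covF01 hx hx' c_A00pp_113_s3 cutA_nil (noExt_A)

noncomputable def cut_A00pp_123_s1 : Cut := Cut.of [[⟨4, 0, 0, 1449551462⟩]]

noncomputable def f_A00pp_123_s1 : ℕ → ℕ → ℕ → ℕ → Bool := onCell 536870912 536870912 0 536870912 33554432 16777216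
    (rowFK 0 true true true .npn 1 2 3 (qsf 536870912 536870912 0 536870912 3) ndF0q1 ndF0q2 pcF3 cut_A00pp_123_s1 Ext.none)

def k0_A00pp_123_s1 : ∃ t, chk3 f_A00pp_123_s1 t 1 1 1 = true :=
  ⟨(l 6), by decide +kernel⟩

theorem c_A00pp_123_s1 : CertF 536870912 536870912 0 536870912 33554432 16777216 true true true .npn 1 2 3
    ndF0q1 ndF0q2 pcF3 cut_A00pp_123_s1 Ext.none :=
  certFK0 (fam := true) (s1 := true) (s2 := true) (a := 1) (b := 2) (c := 3) (cn := .npn) (n1 := ndF0q1) (n2 := ndF0q2) (pc := pcF3) (cut := cut_A00pp_123_s1) (xt := Ext.none) (P1 := 536870912) (W1 := 536870912) (P2 := 0) (W2 := 536870912) (P3 := 33554432) (W3 := 16777216)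
    rfl rfl rfl k0_A00pp_123_s1

theorem s_A00pp_123_s1 {κ x : ℝ} (hκ : κ * h0 = ken x) (hx : ((33554432 : ℕ) : ℝ) / S ≤ x)
    (hx' : x ≤ (((33554432 : ℕ) : ℝ) + (16777216 : ℕ)) / S) :
    AltA (VF κ) PP tKF tL pcF [⟨3, 0, 0, 1449551462⟩] 1 2 3 0 0 (sgb true) (sgb true) x :=
  strip_altA (m := 1449551462) true rfl hκ covF01 covF02 hx hx' c_A00pp_123_s1 cutA_nil (noExt_A)

noncomputable def cut_A00pp_123_s3 : Cut := Cut.of [[⟨3, 0, 0, 2845415833⟩]]

noncomputable def xt_A00pp_123_s3 : Ext := strExt dd true true true .u0 .u2 .s2 .npn 1 2 3 rfl rfl gl3 vv ndF0q1 ndF0q2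

noncomputable def f_A00pp_123_s3 : ℕ → ℕ → ℕ → ℕ → Bool := onCell 536870912 536870912 0 536870912 33554432 16777216
    (rowFK 0 true true true .npn 1 2 3 (qsf 536870912 536870912 0 536870912 3) ndF0q1 ndF0q2 pcF3 cut_A00pp_123_s3 xt_A00pp_123_s3)

def k0_A00pp_123_s3 : ∃ t, chk3 f_A00pp_123_s3 t 1 1 1 = true :=
  ⟨(b (a (a (b (a (l 545656079) (l 545019663)) (l 4)) (l 4)) (l 4)) (l 4)), by decide +kernel⟩

theorem c_A00pp_123_s3 : CertF 536870912 536870912 0 536870912 33554432 16777216 true true true .npn 1 2 3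
    ndF0q1 ndF0q2 pcF3 cut_A00pp_123_s3 xt_A00pp_123_s3 :=
  certFK0 (fam := true) (s1 := true) (s2 := true) (a := 1) (b := 2) (c := 3) (cn := .npn) (n1 := ndF0q1) (n2 := ndF0q2) (pc := pcF3) (cut := cut_A00pp_123_s3) (xt := xt_A00pp_123_s3) (P1 := 536870912) (W1 := 536870912) (P2 := 0) (W2 := 536870912) (P3 := 33554432) (W3 := 16777216)
    rfl rfl rfl k0_A00pp_123_s3

theorem s_A00pp_123_s3 {κ x : ℝ} (hκ : κ * h0 = ken x) (hx : ((33554432 : ℕ) : ℝ) / S ≤ x)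
    (hx' : x ≤ (((33554432 : ℕ) : ℝ) + (16777216 : ℕ)) / S) :
    AltA (VF κ) PP tKF tL pcF [⟨4, 0, 0, 2845415833⟩] 1 2 3 0 0 (sgb true) (sgb true) x :=
  strip_altA (m := 2845415833) false rfl hκ covF01 covF02 hx hx' c_A00pp_123_s3 cutA_nil ((okx hx hx').extA (T := tt) (sideF hx hx') hκ rfl rfl (.O 1 true) (.O 2 true) (Or.inr rfl))

noncomputable def cut_A00pp_202_s1 : Cut := Cut.of [[⟨4, 0, 0, 1449551462⟩]]

noncomputable def f_A00pp_202_s1 : ℕ → ℕ → ℕ → ℕ → Bool := onCell 0 536870912 0 536870912 33554432 16777216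
    (rowFK 0 true true true .pp 2 0 2 (qsf 0 536870912 0 536870912 2) ndF0q2 ndF0q0 pcF2 cut_A00pp_202_s1 Ext.none)

def k0_A00pp_202_s1 : ∃ t, chk3 f_A00pp_202_s1 t 1 1 1 = true :=
  ⟨(l 5), by decide +kernel⟩

theorem c_A00pp_202_s1 : CertF 0 536870912 0 536870912 33554432 16777216 true true true .pp 2 0 2
    ndF0q2 ndF0q0 pcF2 cut_A00pp_202_s1 Ext.none :=
  certFK0 (fam := true) (s1 := true) (s2 := true) (a := 2) (b := 0) (c := 2) (cn := .pp) (n1 := ndF0q2) (n2 := ndF0q0) (pc := pcF2) (cut := cut_A00pp_202_s1) (xt := Ext.none) (P1 := 0) (W1 := 536870912) (P2 := 0) (W2 := 536870912) (P3 := 33554432) (W3 := 16777216)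
    rfl rfl rfl k0_A00pp_202_s1

theorem s_A00pp_202_s1 {κ x : ℝ} (hκ : κ * h0 = ken x) (hx : ((33554432 : ℕ) : ℝ) / S ≤ x)
    (hx' : x ≤ (((33554432 : ℕ) : ℝ) + (16777216 : ℕ)) / S) :
    AltA (VF κ) PP tKF tL pcF [⟨3, 0, 0, 1449551462⟩] 2 0 2 0 0 (sgb true) (sgb true) x :=
  strip_altA (m := 1449551462) true rfl hκ covF02 covF00 hx hx' c_A00pp_202_s1 cutA_nil (noExt_A)

noncomputable def cut_A00pp_202_s3 : Cut := Cut.of [[⟨3, 0, 0, 2845415833⟩]]

noncomputable def f_A00pp_202_s3 : ℕ → ℕ → ℕ → ℕ → Bool := onCell 0 536870912 0 536870912 33554432 16777216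
    (rowFK 0 true true true .pp 2 0 2 (qsf 0 536870912 0 536870912 2) ndF0q2 ndF0q0 pcF2 cut_A00pp_202_s3 Ext.none)

def k0_A00pp_202_s3 : ∃ t, chk3 f_A00pp_202_s3 t 1 1 1 = true :=
  ⟨(l 5), by decide +kernel⟩

theorem c_A00pp_202_s3 : CertF 0 536870912 0 536870912 33554432 16777216 true true true .pp 2 0 2
    ndF0q2 ndF0q0 pcF2 cut_A00pp_202_s3 Ext.none :=
  certFK0 (fam := true) (s1 := true) (s2 := true) (a := 2) (b := 0) (c := 2) (cn := .pp) (n1 := ndF0q2) (n2 := ndF0q0) (pc := pcF2) (cut := cut_A00pp_202_s3) (xt := Ext.none) (P1 := 0) (W1 := 536870912) (P2 := 0) (W2 := 536870912) (P3 := 33554432) (W3 := 16777216)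
    rfl rfl rfl k0_A00pp_202_s3

theorem s_A00pp_202_s3 {κ x : ℝ} (hκ : κ * h0 = ken x) (hx : ((33554432 : ℕ) : ℝ) / S ≤ x)
    (hx' : x ≤ (((33554432 : ℕ) : ℝ) + (16777216 : ℕ)) / S) :
    AltA (VF κ) PP tKF tL pcF [⟨4, 0, 0, 2845415833⟩] 2 0 2 0 0 (sgb true) (sgb true) x :=
  strip_altA (m := 2845415833) false rfl hκ covF02 covF00 hx hx' c_A00pp_202_s3 cutA_nil (noExt_A)

noncomputable def cut_A00pp_203_s1 : Cut := Cut.of [[⟨4, 0, 0, 1449551462⟩]]

noncomputable def f_A00pp_203_s1 : ℕ → ℕ → ℕ → ℕ → Bool := onCell 0 536870912 0 536870912 33554432 16777216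
    (rowFK 0 true true true .up 2 0 3 (qsf 0 536870912 0 536870912 3) ndF0q2 ndF0q0 pcF3 cut_A00pp_203_s1 Ext.none)

def k0_A00pp_203_s1 : ∃ t, chk3 f_A00pp_203_s1 t 1 1 1 = true :=
  ⟨(l 5), by decide +kernel⟩

theorem c_A00pp_203_s1 : CertF 0 536870912 0 536870912 33554432 16777216 true true true .up 2 0 3
    ndF0q2 ndF0q0 pcF3 cut_A00pp_203_s1 Ext.none :=
  certFK0 (fam := true) (s1 := true) (s2 := true) (a := 2) (b := 0) (c := 3) (cn := .up) (n1 := ndF0q2) (n2 := ndF0q0) (pc := pcF3) (cut := cut_A00pp_203_s1) (xt := Ext.none) (P1 := 0) (W1 := 536870912) (P2 := 0) (W2 := 536870912) (P3 := 33554432) (W3 := 16777216)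
    rfl rfl rfl k0_A00pp_203_s1

theorem s_A00pp_203_s1 {κ x : ℝ} (hκ : κ * h0 = ken x) (hx : ((33554432 : ℕ) : ℝ) / S ≤ x)
    (hx' : x ≤ (((33554432 : ℕ) : ℝ) + (16777216 : ℕ)) / S) :
    AltA (VF κ) PP tKF tL pcF [⟨3, 0, 0, 1449551462⟩] 2 0 3 0 0 (sgb true) (sgb true) x :=
  strip_altA (m := 1449551462) true rfl hκ covF02 covF00 hx hx' c_A00pp_203_s1 cutA_nil (noExt_A)

noncomputable def cut_A00pp_203_s3 : Cut := Cut.of [[⟨3, 0, 0, 2845415833⟩]]

noncomputable def f_A00pp_203_s3 : ℕ → ℕ → ℕ → ℕ → Bool := onCell 0 536870912 0 536870912 33554432 16777216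
    (rowFK 0 true true true .up 2 0 3 (qsf 0 536870912 0 536870912 3) ndF0q2 ndF0q0 pcF3 cut_A00pp_203_s3 Ext.none)

def k0_A00pp_203_s3 : ∃ t, chk3 f_A00pp_203_s3 t 1 1 1 = true :=
  ⟨(l 5), by decide +kernel⟩

theorem c_A00pp_203_s3 : CertF 0 536870912 0 536870912 33554432 16777216 true true true .up 2 0 3
    ndF0q2 ndF0q0 pcF3 cut_A00pp_203_s3 Ext.none :=
  certFK0 (fam := true) (s1 := true) (s2 := true) (a := 2) (b := 0) (c := 3) (cn := .up) (n1 := ndF0q2) (n2 := ndF0q0) (pc := pcF3) (cut := cut_A00pp_203_s3) (xt := Ext.none) (P1 := 0) (W1 := 536870912) (P2 := 0) (W2 := 536870912) (P3 := 33554432) (W3 := 16777216)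
    rfl rfl rfl k0_A00pp_203_s3

theorem s_A00pp_203_s3 {κ x : ℝ} (hκ : κ * h0 = ken x) (hx : ((33554432 : ℕ) : ℝ) / S ≤ x)
    (hx' : x ≤ (((33554432 : ℕ) : ℝ) + (16777216 : ℕ)) / S) :
    AltA (VF κ) PP tKF tL pcF [⟨4, 0, 0, 2845415833⟩] 2 0 3 0 0 (sgb true) (sgb true) x :=
  strip_altA (m := 2845415833) false rfl hκ covF02 covF00 hx hx' c_A00pp_203_s3 cutA_nil (noExt_A)

noncomputable def cut_A00pp_213_s1 : Cut := Cut.of [[⟨4, 0, 0, 1449551462⟩]]

noncomputable def f_A00pp_213_s1 : ℕ → ℕ → ℕ → ℕ → Bool := onCell 0 536870912 536870912 536870912 33554432 16777216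
    (rowFK 0 true true true .pnn 2 1 3 (qsf 0 536870912 536870912 536870912 3) ndF0q2 ndF0q1 pcF3 cut_A00pp_213_s1 Ext.none)

def k0_A00pp_213_s1 : ∃ t, chk3 f_A00pp_213_s1 t 1 1 1 = true :=
  ⟨(l 6), by decide +kernel⟩

theorem c_A00pp_213_s1 : CertF 0 536870912 536870912 536870912 33554432 16777216 true true true .pnn 2 1 3
    ndF0q2 ndF0q1 pcF3 cut_A00pp_213_s1 Ext.none :=
  certFK0 (fam := true) (s1 := true) (s2 := true) (a := 2) (b := 1) (c := 3) (cn := .pnn) (n1 := ndF0q2) (n2 := ndF0q1) (pc := pcF3) (cut := cut_A00pp_213_s1) (xt := Ext.none) (P1 := 0) (W1 := 536870912) (P2 := 536870912) (W2 := 536870912) (P3 := 33554432) (W3 := 16777216)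
    rfl rfl rfl k0_A00pp_213_s1

theorem s_A00pp_213_s1 {κ x : ℝ} (hκ : κ * h0 = ken x) (hx : ((33554432 : ℕ) : ℝ) / S ≤ x)
    (hx' : x ≤ (((33554432 : ℕ) : ℝ) + (16777216 : ℕ)) / S) :
    AltA (VF κ) PP tKF tL pcF [⟨3, 0, 0, 1449551462⟩] 2 1 3 0 0 (sgb true) (sgb true) x :=
  strip_altA (m := 1449551462) true rfl hκ covF02 covF01 hx hx' c_A00pp_213_s1 cutA_nil (noExt_A)

noncomputable def cut_A00pp_213_s3 : Cut := Cut.of [[⟨3, 0, 0, 2845415833⟩]]

noncomputable def f_A00pp_213_s3 : ℕ → ℕ → ℕ → ℕ → Bool := onCell 0 536870912 536870912 536870912 33554432 16777216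
    (rowFK 0 true true true .pnn 2 1 3 (qsf 0 536870912 536870912 536870912 3) ndF0q2 ndF0q1 pcF3 cut_A00pp_213_s3 Ext.none)

def k0_A00pp_213_s3 : ∃ t, chk3 f_A00pp_213_s3 t 1 1 1 = true :=
  ⟨(a (l 5) (l 4)), by decide +kernel⟩

theorem c_A00pp_213_s3 : CertF 0 536870912 536870912 536870912 33554432 16777216 true true true .pnn 2 1 3
    ndF0q2 ndF0q1 pcF3 cut_A00pp_213_s3 Ext.none :=
  certFK0 (fam := true) (s1 := true) (s2 := true) (a := 2) (b := 1) (c := 3) (cn := .pnn) (n1 := ndF0q2) (n2 := ndF0q1) (pc := pcF3) (cut := cut_A00pp_213_s3) (xt := Ext.none) (P1 := 0) (W1 := 536870912) (P2 := 536870912) (W2 := 536870912) (P3 := 33554432) (W3 := 16777216)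
    rfl rfl rfl k0_A00pp_213_s3

theorem s_A00pp_213_s3 {κ x : ℝ} (hκ : κ * h0 = ken x) (hx : ((33554432 : ℕ) : ℝ) / S ≤ x)
    (hx' : x ≤ (((33554432 : ℕ) : ℝ) + (16777216 : ℕ)) / S) :
    AltA (VF κ) PP tKF tL pcF [⟨4, 0, 0, 2845415833⟩] 2 1 3 0 0 (sgb true) (sgb true) x :=
  strip_altA (m := 2845415833) false rfl hκ covF02 covF01 hx hx' c_A00pp_213_s3 cutA_nil (noExt_A)

noncomputable def cut_A00pm_001_s1 : Cut := Cut.of [[⟨4, 0, 0, 1449551462⟩]]

noncomputable def f_A00pm_001_s1 : ℕ → ℕ → ℕ → ℕ → Bool := onCell 0 536870912 0 536870912 33554432 16777216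
    (rowFK 0 true true false .up 0 0 1 (qsf 0 536870912 0 536870912 1) ndF0q0 ndF0q0 pcF1 cut_A00pm_001_s1 Ext.none)

def k0_A00pm_001_s1 : ∃ t, chk3 f_A00pm_001_s1 t 1 1 1 = true :=
  ⟨(l 3), by decide +kernel⟩

theorem c_A00pm_001_s1 : CertF 0 536870912 0 536870912 33554432 16777216 true true false .up 0 0 1
    ndF0q0 ndF0q0 pcF1 cut_A00pm_001_s1 Ext.none :=
  certFK0 (fam := true) (s1 := true) (s2 := false) (a := 0) (b := 0) (c := 1) (cn := .up) (n1 := ndF0q0) (n2 := ndF0q0) (pc := pcF1) (cut := cut_A00pm_001_s1) (xt := Ext.none) (P1 := 0) (W1 := 536870912) (P2 := 0) (W2 := 536870912) (P3 := 33554432) (W3 := 16777216)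
    rfl rfl rfl k0_A00pm_001_s1

theorem s_A00pm_001_s1 {κ x : ℝ} (hκ : κ * h0 = ken x) (hx : ((33554432 : ℕ) : ℝ) / S ≤ x)
    (hx' : x ≤ (((33554432 : ℕ) : ℝ) + (16777216 : ℕ)) / S) :
    AltA (VF κ) PP tKF tL pcF [⟨3, 0, 0, 1449551462⟩] 0 0 1 0 0 (sgb true) (sgb false) x :=
  strip_altA (m := 1449551462) true rfl hκ covF00 covF00 hx hx' c_A00pm_001_s1 cutA_nil (noExt_A)

noncomputable def cut_A00pm_001_s3 : Cut := Cut.of [[⟨3, 0, 0, 2845415833⟩]]

noncomputable def f_A00pm_001_s3 : ℕ → ℕ → ℕ → ℕ → Bool := onCell 0 536870912 0 536870912 33554432 16777216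
    (rowFK 0 true true false .up 0 0 1 (qsf 0 536870912 0 536870912 1) ndF0q0 ndF0q0 pcF1 cut_A00pm_001_s3 Ext.none)

def k0_A00pm_001_s3 : ∃ t, chk3 f_A00pm_001_s3 t 1 1 1 = true :=
  ⟨(l 3), by decide +kernel⟩

theorem c_A00pm_001_s3 : CertF 0 536870912 0 536870912 33554432 16777216 true true false .up 0 0 1
    ndF0q0 ndF0q0 pcF1 cut_A00pm_001_s3 Ext.none :=
  certFK0 (fam := true) (s1 := true) (s2 := false) (a := 0) (b := 0) (c := 1) (cn := .up) (n1 := ndF0q0) (n2 := ndF0q0) (pc := pcF1) (cut := cut_A00pm_001_s3) (xt := Ext.none) (P1 := 0) (W1 := 536870912) (P2 := 0) (W2 := 536870912) (P3 := 33554432) (W3 := 16777216)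
    rfl rfl rfl k0_A00pm_001_s3

theorem s_A00pm_001_s3 {κ x : ℝ} (hκ : κ * h0 = ken x) (hx : ((33554432 : ℕ) : ℝ) / S ≤ x)
    (hx' : x ≤ (((33554432 : ℕ) : ℝ) + (16777216 : ℕ)) / S) :
    AltA (VF κ) PP tKF tL pcF [⟨4, 0, 0, 2845415833⟩] 0 0 1 0 0 (sgb true) (sgb false) x :=
  strip_altA (m := 2845415833) false rfl hκ covF00 covF00 hx hx' c_A00pm_001_s3 cutA_nil (noExt_A)

noncomputable def cut_A00pm_011_s1 : Cut := Cut.of [[⟨4, 0, 0, 1449551462⟩], [⟨0, 0, 0, 33554432⟩, ⟨1, 1, 0, 33554432⟩, ⟨2, 1, 0, 33554432⟩]]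

noncomputable def f_A00pm_011_s1 : ℕ → ℕ → ℕ → ℕ → Bool := onCell 536870912 536870912 536870912 536870912 33554432 16777216
    (rowFK 2 true true false .pnn 0 1 1 (qsf 0 536870912 536870912 536870912 1) ndF0q0 ndF0q1 pcF1 cut_A00pm_011_s1 Ext.none)

def k0_A00pm_011_s1 : ∃ t, chk3 f_A00pm_011_s1 t 1 1 1 = true :=
  ⟨(a (l 3) (b (l 3) (a (l 3) (b (l 3) (a (l 3) (b (l 3) (a (l 3) (b (l 3) (a (l 3) (b (l 3) (l 14))))))))))), by decide +kernel⟩

theorem c_A00pm_011_s1 : CertF 0 536870912 536870912 536870912 33554432 16777216 true true false .pnn 0 1 1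
    ndF0q0 ndF0q1 pcF1 cut_A00pm_011_s1 Ext.none :=
  certFK2 (fam := true) (s1 := true) (s2 := false) (a := 0) (b := 1) (c := 1) (cn := .pnn) (n1 := ndF0q0) (n2 := ndF0q1) (pc := pcF1) (cut := cut_A00pm_011_s1) (xt := Ext.none) (P1 := 0) (W1 := 536870912) (P2 := 536870912) (W2 := 536870912) (P3 := 33554432) (W3 := 16777216)
    rfl rfl rfl (fun _ => rfl) k0_A00pm_011_s1

theorem s_A00pm_011_s1 {κ x : ℝ} (hκ : κ * h0 = ken x) (hx : ((33554432 : ℕ) : ℝ) / S ≤ x)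
    (hx' : x ≤ (((33554432 : ℕ) : ℝ) + (16777216 : ℕ)) / S)
    (H : CutA (VF κ) PP tKF tL pcF (Cut.of [[⟨0, 0, 0, 33554432⟩, ⟨1, 1, 0, 33554432⟩, ⟨2, 1, 0, 33554432⟩]]) 0 1 1 0 0 (sgb true) (sgb false) x) :
    AltA (VF κ) PP tKF tL pcF [⟨3, 0, 0, 1449551462⟩] 0 1 1 0 0 (sgb true) (sgb false) x :=
  strip_altA (m := 1449551462) true rfl hκ covF00 covF01 hx hx' c_A00pm_011_s1 H (noExt_A)

noncomputable def cut_A00pm_011_s3 : Cut := Cut.of [[⟨3, 0, 0, 2845415833⟩], [⟨0, 0, 0, 33554432⟩, ⟨1, 1, 0, 33554432⟩, ⟨2, 1, 0, 33554432⟩]]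

noncomputable def f_A00pm_011_s3 : ℕ → ℕ → ℕ → ℕ → Bool := onCell 0 536870912 536870912 536870912 33554432 16777216
    (rowFK 0 true true false .pnn 0 1 1 (qsf 0 536870912 536870912 536870912 1) ndF0q0 ndF0q1 pcF1 cut_A00pm_011_s3 Ext.none)

def k0_A00pm_011_s3 : ∃ t, chk3 f_A00pm_011_s3 t 1 1 1 = true :=
  ⟨(l 6), by decide +kernel⟩

theorem c_A00pm_011_s3 : CertF 0 536870912 536870912 536870912 33554432 16777216 true true false .pnn 0 1 1
    ndF0q0 ndF0q1 pcF1 cut_A00pm_011_s3 Ext.none :=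
  certFK0 (fam := true) (s1 := true) (s2 := false) (a := 0) (b := 1) (c := 1) (cn := .pnn) (n1 := ndF0q0) (n2 := ndF0q1) (pc := pcF1) (cut := cut_A00pm_011_s3) (xt := Ext.none) (P1 := 0) (W1 := 536870912) (P2 := 536870912) (W2 := 536870912) (P3 := 33554432) (W3 := 16777216)
    rfl rfl rfl k0_A00pm_011_s3

theorem s_A00pm_011_s3 {κ x : ℝ} (hκ : κ * h0 = ken x) (hx : ((33554432 : ℕ) : ℝ) / S ≤ x)
    (hx' : x ≤ (((33554432 : ℕ) : ℝ) + (16777216 : ℕ)) / S)
    (H : CutA (VF κ) PP tKF tL pcF (Cut.of [[⟨0, 0, 0, 33554432⟩, ⟨1, 1, 0, 33554432⟩, ⟨2, 1, 0, 33554432⟩]]) 0 1 1 0 0 (sgb true) (sgb false) x) :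
    AltA (VF κ) PP tKF tL pcF [⟨4, 0, 0, 2845415833⟩] 0 1 1 0 0 (sgb true) (sgb false) x :=
  strip_altA (m := 2845415833) false rfl hκ covF00 covF01 hx hx' c_A00pm_011_s3 H (noExt_A)

end Pool.Agent.Strip051.G.I1_32_3_64.Tab.St.C
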