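import Pool.Agent.Strip051.G.I1_32_3_64.StF

/-! # Unit strips 2 (generated) -/

set_option linter.all false
set_option maxRecDepth 100000

namespace Pool.Agent.Strip051.G.I1_32_3_64.Tab.St.C

open Pool.Agent.Strip051.PB Pool.Agent.Strip051.PB.T Pool.Agent.StripNear Pool.Agent.Strip051.LC
open Pool.Agent.Strip051.G.I1_32_3_64.Tab Pool.Agent.Strip051.G.I1_32_3_64.Tab.St

noncomputable def cut_A00pm_012_s3 : Cut := Cut.of [[⟨3, 0, 0, 2845415833⟩], [⟨0, 0, 0, 12582912⟩, ⟨1, 1, 0, 12582912⟩, ⟨2, 1, 0, 12582912⟩], [⟨0, 0, 1, 16777216⟩, ⟨1, 1, 0, 6291456⟩, ⟨2, 1, 1, 16777216⟩, ⟨0, 0, 0, 67108864⟩, ⟨0, 1, 0, 1056964608⟩, ⟨2, 1, 0, 67108864⟩, ⟨2, 2, 0, 1056964608⟩]]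

noncomputable def f_A00pm_012_s3 : ℕ → ℕ → ℕ → ℕ → Bool := onCell 0 536870912 536870912 536870912 33554432 16777216
    (rowFK 0 true true false .pnp 0 1 2 (qsf 0 536870912 536870912 536870912 2) ndF0q0 ndF0q1 pcF2 cut_A00pm_012_s3 Ext.none)

def k0_A00pm_012_s3 : ∃ t, chk3 f_A00pm_012_s3 t 1 1 1 = true :=
  ⟨(l 6), by decide +kernel⟩

theorem c_A00pm_012_s3 : CertF 0 536870912 536870912 536870912 33554432 16777216 true true false .pnp 0 1 2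
    ndF0q0 ndF0q1 pcF2 cut_A00pm_012_s3 Ext.none :=
  certFK0 (fam := true) (s1 := true) (s2 := false) (a := 0) (b := 1) (c := 2) (cn := .pnp) (n1 := ndF0q0) (n2 := ndF0q1) (pc := pcF2) (cut := cut_A00pm_012_s3) (xt := Ext.none) (P1 := 0) (W1 := 536870912) (P2 := 536870912) (W2 := 536870912) (P3 := 33554432) (W3 := 16777216)
    rfl rfl rfl k0_A00pm_012_s3

theorem s_A00pm_012_s3 {κ x : ℝ} (hκ : κ * h0 = ken x) (hx : ((33554432 : ℕ) : ℝ) / S ≤ x)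
    (hx' : x ≤ (((33554432 : ℕ) : ℝ) + (16777216 : ℕ)) / S)
    (H : CutA (VF κ) PP tKF tL pcF (Cut.of [[⟨0, 0, 0, 12582912⟩, ⟨1, 1, 0, 12582912⟩, ⟨2, 1, 0, 12582912⟩], [⟨0, 0, 1, 16777216⟩, ⟨1, 1, 0, 6291456⟩, ⟨2, 1, 1, 16777216⟩, ⟨0, 0, 0, 67108864⟩, ⟨0, 1, 0, 1056964608⟩, ⟨2, 1, 0, 67108864⟩, ⟨2, 2, 0, 1056964608⟩]]) 0 1 2 0 0 (sgb true) (sgb false) x) :
    AltA (VF κ) PP tKF tL pcF [⟨4, 0, 0, 2845415833⟩] 0 1 2 0 0 (sgb true) (sgb false) x :=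
  strip_altA (m := 2845415833) false rfl hκ covF00 covF01 hx hx' c_A00pm_012_s3 H (noExt_A)

noncomputable def cut_A00pm_022_s1 : Cut := Cut.of [[⟨4, 0, 0, 1449551462⟩], [⟨0, 0, 0, 33554432⟩, ⟨1, 1, 0, 33554432⟩, ⟨2, 1, 0, 33554432⟩], [⟨0, 0, 1, 16777216⟩, ⟨1, 1, 0, 6291456⟩, ⟨2, 1, 1, 16777216⟩, ⟨0, 0, 0, 67108864⟩, ⟨0, 1, 0, 1056964608⟩, ⟨2, 1, 0, 67108864⟩, ⟨2, 2, 0, 1056964608⟩]]

noncomputable def f_A00pm_022_s1 : ℕ → ℕ → ℕ → ℕ → Bool := onCell 0 536870912 0 536870912 33554432 16777216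
    (rowFK 0 true true false .pp 0 2 2 (qsf 0 536870912 0 536870912 2) ndF0q0 ndF0q2 pcF2 cut_A00pm_022_s1 Ext.none)

def k0_A00pm_022_s1 : ∃ t, chk3 f_A00pm_022_s1 t 1 2 1 = true :=
  ⟨(l 6), by decide +kernel⟩

def k1_A00pm_022_s1 : ∃ t, chk3 f_A00pm_022_s1 t 2 6 1 = true :=
  ⟨(a (a (b (l 6) (a (b (l 18906488) (a (l 18729792) (l 18741104))) (l 18729696))) (l 18695800)) (l 6)), by decide +kernel⟩

def k2_A00pm_022_s1 : ∃ t, chk3 f_A00pm_022_s1 t 8 14 1 = true :=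
  ⟨(a (b (a (a (b (l 18450128) (l 17861000)) (l 18435296)) (l 18518240)) (b (a (a (c (l 17790824) (b (l 17428320) (a (l 17181904) (l 17544264)))) (l 17821336)) (l 18262840)) (a (a (a (c (b (l 17633912) (l 16996640)) (b (l 16881008) (l 16730168))) (c (l 17434136) (l 16732872))) (c (l 17643336) (b (l 17401016) (l 16838008)))) (a (l 17525984) (l 18091200))))) (b (l 18557912) (a (l 18305592) (l 18371728)))), by decide +kernel⟩

def k3_A00pm_022_s1 : ∃ t, chk3 f_A00pm_022_s1 t 8 30 1 = true :=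
  ⟨(a (a (a (b (a (b (l 16732264) (l 16740320)) (a (b (l 16819696) (l 16731488)) (l 16733552))) (b (a (b (l 16737672) (l 14)) (b (l 16732680) (l 16734456))) (a (l 14) (b (l 16738992) (l 14))))) (a (b (b (c (l 17479272) (l 16857816)) (l 16750120)) (b (l 16733600) (a (l 16743792) (l 16751512)))) (b (c (b (l 17733592) (l 17315352)) (b (l 17098936) (l 16801520))) (b (l 16725168) (b (l 16725432) (l 16748224)))))) (a (a (b (c (l 17595744) (b (l 17372096) (l 17040072))) (b (c (l 17150112) (l 16744312)) (b (l 16789384) (l 16763400)))) (b (c (l 17880952) (l 17085272)) (c (b (l 17573816) (c (l 17456864) (l 16930912))) (b (l 16896472) (l 16771120))))) (b (a (l 17429720) (l 17774008)) (c (b (l 17765248) (l 17061304)) (b (l 16910976) (a (l 16836648) (l 17022320))))))) (a (b (l 17687960) (a (b (l 17674992) (c (l 17785096) (l 17237272))) (l 17671200))) (b (l 18172136) (l 17995592)))), by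 decide +kernel⟩

def k4_A00pm_022_s1 : ∃ t, chk3 f_A00pm_022_s1 t 16 31 1 = true :=
  ⟨(a (b (b (a (l 14) (a (a (l 14) (b (l 16733600) (l 14))) (b (a (l 16730704) (l 16769712)) (a (l 16753904) (l 16771880))))) (l 14)) (l 14)) (a (b (b (b (a (l 16765264) (l 16806384)) (a (b (a (l 16768304) (l 16807336)) (l 16769616)) (l 16766200))) (b (a (b (l 16752456) (l 16756224)) (l 16752880)) (a (a (l 14) (l 16761456)) (b (l 16737560) (l 16741288))))) (b (b (a (l 14) (b (l 16744968) (l 16753848))) (l 14)) (l 14))) (b (b (a (a (l 16750480) (c (l 17117304) (l 16778184))) (c (l 17159376) (l 16777696))) (b (a (l 16742288) (c (l 17056672) (l 16737848))) (a (l 16759088) (l 16753360)))) (b (b (b (a (l 16743688) (l 16742504)) (a (l 16747352) (l 16746192))) (b (a (l 16750968) (l 16749832)) (a (l 16757160) (l 16753424)))) (b (b (a (l 16760680) (l 16759592)) (a (l 14) (b (l 16759592) (l 16761320))))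 (a (l 14) (c (l 22) (b (b (l 16762856) (b (l 16764128) (l 16764976))) (a (l 14) (c (l 22) (b (l 16765896) (a (l 14) (b (l 16767024) (b (l 16767648) (b (l 16767960) (c (l 22) (b (l 16768072) (a (l 14) (c (l 22) (l 16768088)))))))))))))))))))), by decide +kernel⟩

def k5_A00pm_022_s1 : ∃ t, chk3 f_A00pm_022_s1 t 17 31 1 = true :=
  ⟨(a (b (c (a (b (l 17523392) (a (a (l 17038648) (l 17199568)) (l 17384560))) (b (l 17791088) (l 17630264))) (a (b (a (l 16877752) (l 17195256)) (a (b (l 16868048) (l 16823664)) (b (l 17040952) (l 16929920)))) (b (l 17372936) (a (l 16966832) (l 17258096))))) (b (b (a (a (a (l 16779160) (c (l 17021136) (l 16744088))) (c (l 17139584) (l 16812456))) (c (l 17495928) (a (l 16898456) (l 17122840)))) (a (a (b (l 16771136) (l 16752384)) (c (c (l 17295824) (b (l 17116784) (l 16972288))) (l 16751816))) (c (l 17063776) (a (a (l 16789248) (l 16831064)) (a (l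 16907280) (l 17060752)))))) (c (a (l 22) (b (c (l 17304760) (a (l 22) (l 17272336))) (c (a (l 22) (l 17346152)) (l 22)))) (c (l 22) (a (a (a (a (a (a (b (l 16763144) (b (l 16763080) (b (l 16765616) (b (l 16766872) (b (l 16767496) (b (l 16767808) (c (l 22) (l 16767968)))))))) (l 22)) (l 22)) (l 22)) (l 22)) (l 22)) (l 22)))))) (b (a (a (l 17253032) (l 17659152)) (l 17830216)) (b (a (c (l 17639424) (b (l 17292592) (l 17042848))) (l 17562152)) (b (c (l 17350344) (a (c (l 17201944) (a (l 22) (l 17190632))) (l 17409224))) (c (a (a (l 17293440) (l 17477808)) (l 17601744)) (a (c (a (l 22) (l 17254192)) (l 22)) (a (l 17202800) (l 17379160)))))))), by decide +kernel⟩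

def k6_A00pm_022_s1 : ∃ t, chk3 f_A00pm_022_s1 t 9 7 1 = true :=
  ⟨(b (l 18767616) (b (a (l 18211472) (l 18253680)) (a (b (l 18014528) (a (a (b (l 17764064) (l 17477280)) (l 17803544)) (l 17910376))) (l 18087496)))), by decide +kernel⟩

def k7_A00pm_022_s1 : ∃ t, chk3 f_A00pm_022_s1 t 5 7 1 = true :=
  ⟨(a (b (l 18261296) (l 18503120)) (l 18431984)), by decide +kernel⟩

def k8_A00pm_022_s1 : ∃ t, chk3 f_A00pm_022_s1 t 3 3 1 = true :=
  ⟨(b (l 6) (l 6)), by decide +kernel⟩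

theorem t9_A00pm_022_s1 : ∃ t, chk3 f_A00pm_022_s1 t 8 31 1 = true := ex3_a k4_A00pm_022_s1 k5_A00pm_022_s1

theorem t10_A00pm_022_s1 : ∃ t, chk3 f_A00pm_022_s1 t 8 15 1 = true := ex3_b k3_A00pm_022_s1 t9_A00pm_022_s1

theorem t11_A00pm_022_s1 : ∃ t, chk3 f_A00pm_022_s1 t 8 7 1 = true := ex3_b k2_A00pm_022_s1 t10_A00pm_022_s1

theorem t12_A00pm_022_s1 : ∃ t, chk3 f_A00pm_022_s1 t 4 7 1 = true := ex3_a t11_A00pm_022_s1 k6_A00pm_022_s1

theorem t13_A00pm_022_s1 : ∃ t, chk3 f_A00pm_022_s1 t 2 7 1 = true := ex3_a t12_A00pm_022_s1 k7_A00pm_022_s1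

theorem t14_A00pm_022_s1 : ∃ t, chk3 f_A00pm_022_s1 t 2 3 1 = true := ex3_b k1_A00pm_022_s1 t13_A00pm_022_s1

theorem t15_A00pm_022_s1 : ∃ t, chk3 f_A00pm_022_s1 t 1 3 1 = true := ex3_a t14_A00pm_022_s1 k8_A00pm_022_s1

theorem t16_A00pm_022_s1 : ∃ t, chk3 f_A00pm_022_s1 t 1 1 1 = true := ex3_b k0_A00pm_022_s1 t15_A00pm_022_s1

theorem c_A00pm_022_s1 : CertF 0 536870912 0 536870912 33554432 16777216 true true false .pp 0 2 2
    ndF0q0 ndF0q2 pcF2 cut_A00pm_022_s1 Ext.none :=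
  certFK0 (fam := true) (s1 := true) (s2 := false) (a := 0) (b := 2) (c := 2) (cn := .pp) (n1 := ndF0q0) (n2 := ndF0q2) (pc := pcF2) (cut := cut_A00pm_022_s1) (xt := Ext.none) (P1 := 0) (W1 := 536870912) (P2 := 0) (W2 := 536870912) (P3 := 33554432) (W3 := 16777216)
    rfl rfl rfl t16_A00pm_022_s1

theorem s_A00pm_022_s1 {κ x : ℝ} (hκ : κ * h0 = ken x) (hx : ((33554432 : ℕ) : ℝ) / S ≤ x)
    (hx' : x ≤ (((33554432 : ℕ) : ℝ) + (16777216 : ℕ)) / S)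
    (H : CutA (VF κ) PP tKF tL pcF (Cut.of [[⟨0, 0, 0, 33554432⟩, ⟨1, 1, 0, 33554432⟩, ⟨2, 1, 0, 33554432⟩], [⟨0, 0, 1, 16777216⟩, ⟨1, 1, 0, 6291456⟩, ⟨2, 1, 1, 16777216⟩, ⟨0, 0, 0, 67108864⟩, ⟨0, 1, 0, 1056964608⟩, ⟨2, 1, 0, 67108864⟩, ⟨2, 2, 0, 1056964608⟩]]) 0 2 2 0 0 (sgb true) (sgb false) x) :
    AltA (VF κ) PP tKF tL pcF [⟨3, 0, 0, 1449551462⟩] 0 2 2 0 0 (sgb true) (sgb false) x :=
  strip_altA (m := 1449551462) true rfl hκ covF00 covF02 hx hx' c_A00pm_022_s1 H (noExt_A)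

noncomputable def cut_A00pm_022_s3 : Cut := Cut.of [[⟨3, 0, 0, 2845415833⟩], [⟨0, 0, 0, 33554432⟩, ⟨1, 1, 0, 33554432⟩, ⟨2, 1, 0, 33554432⟩], [⟨0, 0, 1, 16777216⟩, ⟨1, 1, 0, 6291456⟩, ⟨2, 1, 1, 16777216⟩, ⟨0, 0, 0, 67108864⟩, ⟨0, 1, 0, 1056964608⟩, ⟨2, 1, 0, 67108864⟩, ⟨2, 2, 0, 1056964608⟩]]

noncomputable def f_A00pm_022_s3 : ℕ → ℕ → ℕ → ℕ → Bool := onCell 1073741824 536870912 0 536870912 33554432 16777216
    (rowFK 2 true true false .pp 0 2 2 (qsf 0 536870912 0 536870912 2) ndF0q0 ndF0q2 pcF2 cut_A00pm_022_s3 Ext.none)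

def k0_A00pm_022_s3 : ∃ t, chk3 f_A00pm_022_s3 t 1 1 1 = true :=
  ⟨(a (l 6) (b (l 6) (l 6))), by decide +kernel⟩

theorem c_A00pm_022_s3 : CertF 0 536870912 0 536870912 33554432 16777216 true true false .pp 0 2 2
    ndF0q0 ndF0q2 pcF2 cut_A00pm_022_s3 Ext.none :=
  certFK2 (fam := true) (s1 := true) (s2 := false) (a := 0) (b := 2) (c := 2) (cn := .pp) (n1 := ndF0q0) (n2 := ndF0q2) (pc := pcF2) (cut := cut_A00pm_022_s3) (xt := Ext.none) (P1 := 0) (W1 := 536870912) (P2 := 0) (W2 := 536870912) (P3 := 33554432) (W3 := 16777216)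
    rfl rfl rfl (fun _ => rfl) k0_A00pm_022_s3

theorem s_A00pm_022_s3 {κ x : ℝ} (hκ : κ * h0 = ken x) (hx : ((33554432 : ℕ) : ℝ) / S ≤ x)
    (hx' : x ≤ (((33554432 : ℕ) : ℝ) + (16777216 : ℕ)) / S)
    (H : CutA (VF κ) PP tKF tL pcF (Cut.of [[⟨0, 0, 0, 33554432⟩, ⟨1, 1, 0, 33554432⟩, ⟨2, 1, 0, 33554432⟩], [⟨0, 0, 1, 16777216⟩, ⟨1, 1, 0, 6291456⟩, ⟨2, 1, 1, 16777216⟩, ⟨0, 0, 0, 67108864⟩, ⟨0, 1, 0, 1056964608⟩, ⟨2, 1, 0, 67108864⟩, ⟨2, 2, 0, 1056964608⟩]]) 0 2 2 0 0 (sgb true) (sgb false) x) :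
    AltA (VF κ) PP tKF tL pcF [⟨4, 0, 0, 2845415833⟩] 0 2 2 0 0 (sgb true) (sgb false) x :=
  strip_altA (m := 2845415833) false rfl hκ covF00 covF02 hx hx' c_A00pm_022_s3 H (noExt_A)

noncomputable def cut_A00pm_023_s1 : Cut := Cut.of [[⟨4, 0, 0, 1449551462⟩]]

noncomputable def f_A00pm_023_s1 : ℕ → ℕ → ℕ → ℕ → Bool := onCell 1610612736 536870912 0 536870912 33554432 16777216
    (rowFK 2 true true false .up 0 2 3 (qsf 0 536870912 0 536870912 3) ndF0q0 ndF0q2 pcF3 cut_A00pm_023_s1 Ext.none)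

def k0_A00pm_023_s1 : ∃ t, chk3 f_A00pm_023_s1 t 1 1 1 = true :=
  ⟨(l 6), by decide +kernel⟩

theorem c_A00pm_023_s1 : CertF 0 536870912 0 536870912 33554432 16777216 true true false .up 0 2 3
    ndF0q0 ndF0q2 pcF3 cut_A00pm_023_s1 Ext.none :=
  certFK2 (fam := true) (s1 := true) (s2 := false) (a := 0) (b := 2) (c := 3) (cn := .up) (n1 := ndF0q0) (n2 := ndF0q2) (pc := pcF3) (cut := cut_A00pm_023_s1) (xt := Ext.none) (P1 := 0) (W1 := 536870912) (P2 := 0) (W2 := 536870912) (P3 := 33554432) (W3 := 16777216)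
    rfl rfl rfl (fun _ => rfl) k0_A00pm_023_s1

theorem s_A00pm_023_s1 {κ x : ℝ} (hκ : κ * h0 = ken x) (hx : ((33554432 : ℕ) : ℝ) / S ≤ x)
    (hx' : x ≤ (((33554432 : ℕ) : ℝ) + (16777216 : ℕ)) / S) :
    AltA (VF κ) PP tKF tL pcF [⟨3, 0, 0, 1449551462⟩] 0 2 3 0 0 (sgb true) (sgb false) x :=
  strip_altA (m := 1449551462) true rfl hκ covF00 covF02 hx hx' c_A00pm_023_s1 cutA_nil (noExt_A)

noncomputable def cut_A00pm_023_s3 : Cut := Cut.of [[⟨3, 0, 0, 2845415833⟩]]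

noncomputable def f_A00pm_023_s3 : ℕ → ℕ → ℕ → ℕ → Bool := onCell 0 536870912 0 536870912 33554432 16777216
    (rowFK 0 true true false .up 0 2 3 (qsf 0 536870912 0 536870912 3) ndF0q0 ndF0q2 pcF3 cut_A00pm_023_s3 Ext.none)

def k0_A00pm_023_s3 : ∃ t, chk3 f_A00pm_023_s3 t 1 1 1 = true :=
  ⟨(a (l 1) (b (a (b (a (l 1) (l 17370520)) (l 6)) (b (b (a (l 17191776) (l 17208584)) (l 17641480)) (b (l 6) (l 6)))) (l 6))), by decide +kernel⟩

theorem c_A00pm_023_s3 : CertF 0 536870912 0 536870912 33554432 16777216 true true false .up 0 2 3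
    ndF0q0 ndF0q2 pcF3 cut_A00pm_023_s3 Ext.none :=
  certFK0 (fam := true) (s1 := true) (s2 := false) (a := 0) (b := 2) (c := 3) (cn := .up) (n1 := ndF0q0) (n2 := ndF0q2) (pc := pcF3) (cut := cut_A00pm_023_s3) (xt := Ext.none) (P1 := 0) (W1 := 536870912) (P2 := 0) (W2 := 536870912) (P3 := 33554432) (W3 := 16777216)
    rfl rfl rfl k0_A00pm_023_s3

theorem s_A00pm_023_s3 {κ x : ℝ} (hκ : κ * h0 = ken x) (hx : ((33554432 : ℕ) : ℝ) / S ≤ x)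
    (hx' : x ≤ (((33554432 : ℕ) : ℝ) + (16777216 : ℕ)) / S) :
    AltA (VF κ) PP tKF tL pcF [⟨4, 0, 0, 2845415833⟩] 0 2 3 0 0 (sgb true) (sgb false) x :=
  strip_altA (m := 2845415833) false rfl hκ covF00 covF02 hx hx' c_A00pm_023_s3 cutA_nil (noExt_A)

noncomputable def cut_A00pm_101_s1 : Cut := Cut.of [[⟨4, 0, 0, 1449551462⟩], [⟨0, 1, 0, 33554432⟩, ⟨1, 0, 0, 33554432⟩, ⟨2, 1, 0, 33554432⟩]]

noncomputable def f_A00pm_101_s1 : ℕ → ℕ → ℕ → ℕ → Bool := onCell 536870912 536870912 536870912 536870912 33554432 16777216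
    (rowFK 1 true true false .npn 1 0 1 (qsf 536870912 536870912 0 536870912 1) ndF0q1 ndF0q0 pcF1 cut_A00pm_101_s1 Ext.none)

def k0_A00pm_101_s1 : ∃ t, chk3 f_A00pm_101_s1 t 1 1 1 = true :=
  ⟨(b (l 3) (a (l 3) (b (l 3) (a (l 3) (b (l 3) (a (l 3) (b (l 3) (a (l 3) (b (l 3) (a (l 3) (l 14))))))))))), by decide +kernel⟩

theorem c_A00pm_101_s1 : CertF 536870912 536870912 0 536870912 33554432 16777216 true true false .npn 1 0 1
    ndF0q1 ndF0q0 pcF1 cut_A00pm_101_s1 Ext.none :=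
  certFK1 (fam := true) (s1 := true) (s2 := false) (a := 1) (b := 0) (c := 1) (cn := .npn) (n1 := ndF0q1) (n2 := ndF0q0) (pc := pcF1) (cut := cut_A00pm_101_s1) (xt := Ext.none) (P1 := 536870912) (W1 := 536870912) (P2 := 0) (W2 := 536870912) (P3 := 33554432) (W3 := 16777216)
    rfl rfl rfl (fun _ => rfl) k0_A00pm_101_s1

theorem s_A00pm_101_s1 {κ x : ℝ} (hκ : κ * h0 = ken x) (hx : ((33554432 : ℕ) : ℝ) / S ≤ x)
    (hx' : x ≤ (((33554432 : ℕ) : ℝ) + (16777216 : ℕ)) / S)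
    (H : CutA (VF κ) PP tKF tL pcF (Cut.of [[⟨0, 1, 0, 33554432⟩, ⟨1, 0, 0, 33554432⟩, ⟨2, 1, 0, 33554432⟩]]) 1 0 1 0 0 (sgb true) (sgb false) x) :
    AltA (VF κ) PP tKF tL pcF [⟨3, 0, 0, 1449551462⟩] 1 0 1 0 0 (sgb true) (sgb false) x :=
  strip_altA (m := 1449551462) true rfl hκ covF01 covF00 hx hx' c_A00pm_101_s1 H (noExt_A)

noncomputable def cut_A00pm_101_s3 : Cut := Cut.of [[⟨3, 0, 0, 2845415833⟩], [⟨0, 1, 0, 33554432⟩, ⟨1, 0, 0, 33554432⟩, ⟨2, 1, 0, 33554432⟩]]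

noncomputable def f_A00pm_101_s3 : ℕ → ℕ → ℕ → ℕ → Bool := onCell 536870912 536870912 0 536870912 33554432 16777216
    (rowFK 0 true true false .npn 1 0 1 (qsf 536870912 536870912 0 536870912 1) ndF0q1 ndF0q0 pcF1 cut_A00pm_101_s3 Ext.none)

def k0_A00pm_101_s3 : ∃ t, chk3 f_A00pm_101_s3 t 1 1 1 = true :=
  ⟨(l 6), by decide +kernel⟩

theorem c_A00pm_101_s3 : CertF 536870912 536870912 0 536870912 33554432 16777216 true true false .npn 1 0 1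
    ndF0q1 ndF0q0 pcF1 cut_A00pm_101_s3 Ext.none :=
  certFK0 (fam := true) (s1 := true) (s2 := false) (a := 1) (b := 0) (c := 1) (cn := .npn) (n1 := ndF0q1) (n2 := ndF0q0) (pc := pcF1) (cut := cut_A00pm_101_s3) (xt := Ext.none) (P1 := 536870912) (W1 := 536870912) (P2 := 0) (W2 := 536870912) (P3 := 33554432) (W3 := 16777216)
    rfl rfl rfl k0_A00pm_101_s3

theorem s_A00pm_101_s3 {κ x : ℝ} (hκ : κ * h0 = ken x) (hx : ((33554432 : ℕ) : ℝ) / S ≤ x)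
    (hx' : x ≤ (((33554432 : ℕ) : ℝ) + (16777216 : ℕ)) / S)
    (H : CutA (VF κ) PP tKF tL pcF (Cut.of [[⟨0, 1, 0, 33554432⟩, ⟨1, 0, 0, 33554432⟩, ⟨2, 1, 0, 33554432⟩]]) 1 0 1 0 0 (sgb true) (sgb false) x) :
    AltA (VF κ) PP tKF tL pcF [⟨4, 0, 0, 2845415833⟩] 1 0 1 0 0 (sgb true) (sgb false) x :=
  strip_altA (m := 2845415833) false rfl hκ covF01 covF00 hx hx' c_A00pm_101_s3 H (noExt_A)

end Pool.Agent.Strip051.G.I1_32_3_64.Tab.St.C
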