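import Pool.Agent.Strip051.G.I1_32_3_64.StF

/-! # Unit strips 3 (generated) -/

set_option linter.all false
set_option maxRecDepth 100000

namespace Pool.Agent.Strip051.G.I1_32_3_64.Tab.St.C

open Pool.Agent.Strip051.PB Pool.Agent.Strip051.PB.T Pool.Agent.StripNear Pool.Agent.Strip051.LC
open Pool.Agent.Strip051.G.I1_32_3_64.Tab Pool.Agent.Strip051.G.I1_32_3_64.Tab.St

noncomputable def cut_A00pm_102_s1 : Cut := Cut.of [[⟨4, 0, 0, 1449551462⟩], [⟨0, 1, 0, 12582912⟩, ⟨1, 0, 0, 12582912⟩, ⟨2, 1, 0, 12582912⟩], [⟨0, 1, 0, 6291456⟩, ⟨1, 0, 1, 16777216⟩, ⟨2, 1, 1, 16777216⟩, ⟨1, 0, 0, 67108864⟩, ⟨1, 1, 0, 1056964608⟩, ⟨2, 1, 0, 67108864⟩, ⟨2, 2, 0, 1056964608⟩]]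

noncomputable def xt_A00pm_102_s1 : Ext := strExt dd true true false .u0 .u0m .u2 .npp 1 0 2 rfl rfl gf2 vv ndF0q1 ndF0q0

noncomputable def f_A00pm_102_s1 : ℕ → ℕ → ℕ → ℕ → Bool := onCell 536870912 536870912 1073741824 536870912 33554432 16777216
    (rowFK 1 true true false .npp 1 0 2 (qsf 536870912 536870912 0 536870912 2) ndF0q1 ndF0q0 pcF2 cut_A00pm_102_s1 xt_A00pm_102_s1)

def k0_A00pm_102_s1 : ∃ t, chk3 f_A00pm_102_s1 t 2 1 1 = true :=
  ⟨(b (b (b (l 3) (l 3)) (a (b (b (b (l 3) (l 2)) (l 2)) (l 2)) (b (b (a (b (l 3) (b (b (l 3) (a (l 3) (l 570259231))) (a (a (l 2) (b (b (l 3) (l 552501535)) (a (l 2) (b (b (l 16791776) (l 16782568)) (l 16785544))))) (b (b (l 563002511) (b (l 558531983) (l 555013007))) (b (a (b (l 16797008) (l 16829080)) (a (l 16836664) (l 16842584))) (l 16823704)))))) (b (b (l 3) (a (l 3) (b (l 570220943) (l 572182415)))) (b (a (b (a (l 3) (b (l 579172239) (l 574561679))) (l 571338895)) (b (b (l 573430415) (a (l 574688399) (l 571862415))) (a (b (l 570712975) (l 16857528)) (l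 570861087)))) (a (b (b (l 564630159) (l 560151327)) (b (b (l 16860856) (l 16860056)) (l 16900992))) (b (a (b (l 16845536) (l 16849888)) (l 16959432)) (b (l 16946904) (l 16943872))))))) (a (b (a (l 10838267175) (l 16866952)) (l 17007800)) (a (l 16894672) (l 17011296)))) (a (l 17335856) (l 17191288))))) (a (l 2) (b (a (l 2) (b (l 17279344) (l 2))) (l 2)))), by decide +kernel⟩

def k1_A00pm_102_s1 : ∃ t, chk3 f_A00pm_102_s1 t 6 2 1 = true :=
  ⟨(b (b (l 3) (b (a (l 3) (a (l 3) (b (l 3) (a (l 3) (b (l 3) (l 567580303)))))) (a (b (l 3) (a (l 3) (b (l 553782671) (l 557196175)))) (b (a (b (l 3) (l 555198351)) (a (b (l 561557135) (l 558700175)) (b (l 564110991) (l 561298831)))) (a (b (a (l 553192847) (l 553690767)) (a (l 555804303) (l 16891888))) (b (a (l 556189071) (l 16886288)) (l 16972912))))))) (b (b (a (b (b (a (b (a (l 3) (l 561872527)) (l 566321807)) (b (l 559607951) (l 561005711))) (a (a (l 567511951) (l 565024799)) (b (l 562176655) (l 563021967)))) (b (a (b (a (l 569186447) (l 16965856)) (b (l 16932648)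 (l 16985608))) (b (l 17004088) (l 16944432))) (a (b (l 16996424) (b (l 16997840) (l 16912552))) (b (l 16958472) (b (l 16961480) (l 16961968)))))) (b (a (b (b (l 558213007) (l 16970952)) (l 17012120)) (b (l 17011704) (l 16973664))) (b (a (l 17061704) (l 17011376)) (b (l 17186448) (b (l 17191584) (l 17110248)))))) (a (a (l 16977088) (l 17047496)) (l 17297800))) (a (l 17306008) (l 17545568)))), by decide +kernel⟩

def k2_A00pm_102_s1 : ∃ t, chk3 f_A00pm_102_s1 t 14 8 1 = true :=
  ⟨(a (l 3) (b (l 3) (b (l 3) (a (l 3) (b (l 582204303) (l 580232591)))))), by decide +kernel⟩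

def k3_A00pm_102_s1 : ∃ t, chk3 f_A00pm_102_s1 t 30 16 1 = true :=
  ⟨(a (l 3) (b (l 3) (b (l 3) (b (l 3) (a (l 3) (a (l 3) (a (b (l 3) (l 584926863)) (b (l 582752399) (l 583943055))))))))), by decide +kernel⟩

def k4_A00pm_102_s1 : ∃ t, chk3 f_A00pm_102_s1 t 62 64 1 = true :=
  ⟨(l 3), by decide +kernel⟩

def k5_A00pm_102_s1 : ∃ t, chk3 f_A00pm_102_s1 t 126 64 1 = true :=
  ⟨(a (l 3) (b (l 3) (a (l 3) (a (l 3) (a (l 3) (a (l 3) (b (l 3) (b (l 3) (b (l 3) (b (l 3) (a (b (l 3) (l 535834255)) (b (a (l 3) (l 535841167)) (l 535829647))))))))))))), by decide +kernel⟩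

def k6_A00pm_102_s1 : ∃ t, chk3 f_A00pm_102_s1 t 254 128 1 = true :=
  ⟨(a (l 3) (l 14)), by decide +kernel⟩

def k7_A00pm_102_s1 : ∃ t, chk3 f_A00pm_102_s1 t 508 258 1 = true :=
  ⟨(a (l 3) (a (l 3) (a (l 3) (a (l 3) (b (l 3) (b (l 3) (b (l 3) (b (l 3) (l 535661455))))))))), by decide +kernel⟩

def k8_A00pm_102_s1 : ∃ t, chk3 f_A00pm_102_s1 t 1016 259 1 = true :=
  ⟨(b (b (l 3) (b (l 3) (a (l 3) (a (l 3) (a (b (l 3) (l 535744655)) (b (l 535726479) (l 535739791))))))) (a (b (a (l 3) (b (l 3) (a (b (l 3) (a (l 3) (l 535815567))) (b (a (l 3) (l 535797647)) (a (l 535813263) (l 535810703)))))) (a (a (b (a (l 3) (b (l 3) (l 535847055))) (a (b (l 535838863) (l 535826575)) (b (c (l 535873679) (l 535799183)) (l 535824015)))) (b (b (c (l 535871631) (l 535796879)) (a (l 535844751) (l 535842447))) (b (b (l 535836047) (l 535829647)) (a (l 535821711) (l 535819407))))) (b (a (b (a (l 535830927) (l 535828623)) (a (l 535839887) (l 535837583))) (b (l 535841679) (a (l 535835279) (l 535832975)))) (a (b (a (l 535829647)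 (l 535827343)) (a (l 535817359) (l 535815055))) (b (l 535857039) (l 535811215)))))) (a (a (b (b (b (l 3) (l 535814031)) (b (l 535827343) (l 535840655))) (b (b (l 535853711) (l 535862927)) (b (l 535818895) (l 535806607)))) (b (b (b (l 535796111) (l 535809423)) (b (l 535856271) (l 535869583))) (b (b (l 535815567) (l 535891599)) (b (l 535814031) (l 535801999))))) (a (a (b (b (l 535765647) (l 535792271)) (b (l 535850127) (l 535804303))) (b (b (l 535763343) (l 535789967)) (b (l 535881359) (l 535801999)))) (a (b (b (l 535761039) (l 535787407)) (b (l 535811727) (l 535799695))) (b (b (l 535758479) (l 535785103)) (b (l 535809423) (l 535797391)))))))), by decide +kernel⟩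

def k9_A00pm_102_s1 : ∃ t, chk3 f_A00pm_102_s1 t 1017 518 1 = true :=
  ⟨(a (b (a (l 3) (b (l 3) (b (l 3) (a (l 535672207) (l 535667343))))) (a (a (a (b (l 3) (l 535729551)) (b (b (l 3) (l 535707535)) (l 535727247))) (b (b (l 535690383) (a (l 535705231) (l 535702927))) (b (a (l 535718543) (l 535716239)) (a (l 535731855) (l 535729551))))) (a (b (b (l 535685519) (l 535699087)) (b (l 535779471) (l 535792783))) (b (b (l 535680911) (l 535694223)) (b (l 535707535) (l 535720847)))))) (a (a (b (b (l 3) (b (l 535716239) (l 535662735))) (b (b (l 535676047) (l 535689359)) (a (l 535710607) (l 535708303)))) (b (b (b (l 3) (l 535698063)) (b (l 535711631) (l 535792015))) (b (b (l 535671183) (l 535684751)) (a (l 535705743) (l 535703439))))) (a (b (b (b (l 535679887) (l 535693199)) (b (l 535706767) (l 535787407))) (b (a (l 535674255) (l 535671951)) (a (l 535701135) (l 535698575)))) (b (b (b (l 535675023) (l 535688591)) (b (l 535768975) (l 535782543))) (b (b (l 535795855) (l 535809167)) (a (l 535696271) (l 535693711))))))),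 by decide +kernel⟩

def k10_A00pm_102_s1 : ∃ t, chk3 f_A00pm_102_s1 t 1017 519 1 = true :=
  ⟨(a (a (a (a (b (b (l 535756175) (l 535782799)) (b (l 535807119) (l 535795087))) (b (b (l 535753871) (l 535780495)) (b (l 535804815) (l 535792527)))) (b (b (b (l 535810959) (l 535824015)) (a (l 535777935) (l 535775631))) (b (b (l 535796623) (l 535872655)) (a (l 535790223) (l 535787919))))) (a (a (b (b (l 535746703) (l 535773327)) (b (l 535797647) (l 535785615))) (b (b (l 535744399) (l 535770767)) (b (l 535795087) (l 535783055)))) (b (b (a (l 535742095) (l 535739535)) (a (l 535768463) (l 535766159))) (b (b (l 535787151) (l 535930255)) (c (l 535949967) (l 535877007)))))) (a (a (a (b (b (l 535737231) (l 535763599)) (b (l 535787919) (l 535775887))) (b (b (l 535734927) (l 535761295)) (b (l 535785615) (l 535773583)))) (b (b (a (l 535732367) (l 535730063)) (a (l 535758991) (l 535756431))) (b (c (l 535885711) (l 535845519)) (c (l 535940239) (l 535867279))))) (b (c (b (a (l 535829647) (l 535824783)) (a (l 535856271)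 (l 535851407))) (b (a (l 535824015) (l 535819151)) (a (l 535850127) (l 535845519)))) (c (b (a (l 535880591) (l 535875727)) (a (l 535935375) (l 535930511))) (b (a (l 535874191) (l 535869583)) (a (l 535862671) (l 535857807))))))), by decide +kernel⟩

def k11_A00pm_102_s1 : ∃ t, chk3 f_A00pm_102_s1 t 509 258 1 = true :=
  ⟨(a (a (a (a (b (l 3) (b (l 3) (b (l 3) (b (l 14) (l 535656591))))) (l 14)) (l 14)) (l 14)) (l 14)), by decide +kernel⟩

def k12_A00pm_102_s1 : ∃ t, chk3 f_A00pm_102_s1 t 509 518 1 = true :=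
  ⟨(a (a (a (a (b (b (b (l 535670159) (l 535750799)) (b (l 535764111) (l 535777679))) (b (b (l 535790991) (l 535804303)) (a (l 535691407) (l 535688847)))) (b (b (b (l 535665295) (l 535745935)) (b (l 535759247) (l 535772815))) (b (b (l 535786127) (l 535799439)) (a (l 535686543) (l 535683983))))) (a (b (b (b (l 14) (l 535741071)) (b (l 535754383) (l 535767951))) (b (b (l 535781263) (l 535794575)) (b (l 535807887) (l 535821199)))) (b (b (l 14) (b (l 535749519) (l 535763087))) (b (b (l 535776399) (l 535789711)) (b (l 535803023) (l 535816335)))))) (a (a (b (b (l 14) (b (l 14) (l 535757967))) (b (b (l 535771535) (l 535784847)) (b (l 535798159) (l 535811471)))) (b (l 14) (b (b (l 535766415) (l 535779727)) (b (l 535793039) (l 535806351))))) (b (l 14) (a (b (b (l 14) (l 535774863)) (b (l 535788175) (l 535801487))) (b (l 14) (b (l 535783055) (l 535796367))))))) (a (a (a (b (l 14) (b (l 14) (a (l 535651983) (l 14)))) (l 14)) (l 14)) (l 14))), by decide +kernel⟩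

def k13_A00pm_102_s1 : ∃ t, chk3 f_A00pm_102_s1 t 1018 519 1 = true :=
  ⟨(a (a (b (c (b (a (l 535819663) (l 535814799)) (a (l 535913615) (l 535908495))) (b (a (l 535814287) (l 535809423)) (a (l 535840655) (l 535835791)))) (c (b (a (l 535937935) (l 535933071)) (a (l 535925647) (l 535920527))) (b (a (l 535864719) (l 535859855)) (a (l 535852943) (l 535848079))))) (a (b (b (a (l 535708303) (l 535705743)) (a (l 535734671) (l 535732111))) (b (a (l 535758735) (l 535756431)) (a (l 535746703) (l 535744399)))) (b (b (b (l 535829647) (l 535842703)) (b (l 535856015) (l 535869071))) (b (b (l 535882127) (l 535891087)) (b (l 535746703) (l 16776536)))))) (a (a (b (b (b (l 535824527) (l 535837839)) (b (l 535850895) (l 535864207))) (b (b (l 535877263) (l 535886223)) (b (l 535741583) (l 16776496)))) (a (b (b (l 535693455) (l 535719823)) (b (l 535744143) (l 535732111))) (b (b (l 535690895) (l 535717263)) (b (l 535741583) (l 535729551))))) (a (a (b (b (l 535688591) (l 535714959)) (b (l 535739023) (l 535726991))) (b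 (b (l 535686031) (l 535712399)) (b (l 535736463) (l 535724687)))) (a (b (b (l 535683471) (l 535709839)) (b (l 535734159) (l 535722127))) (b (b (l 535680911) (l 535707279)) (b (l 535731599) (l 535719567))))))), by decide +kernel⟩

def k14_A00pm_102_s1 : ∃ t, chk3 f_A00pm_102_s1 t 1019 519 1 = true :=
  ⟨(a (b (a (a (a (b (l 535678607) (l 535704975)) (b (l 535676047) (l 535702415))) (a (b (l 535673487) (l 535699855)) (b (l 535670927) (l 535697295)))) (a (b (a (l 535668367) (l 14)) (a (l 535761807) (b (l 16776432) (l 16776400)))) (b (l 14) (a (b (l 16776408) (l 16776384)) (b (l 14) (l 16776360)))))) (a (a (a (b (l 535729039) (l 535717007)) (b (l 535726479) (l 535714447))) (b (b (l 16776424) (c (l 16776424) (l 16776368))) (b (l 16776352) (l 16776304)))) (a (b (c (b (l 16776408) (l 16776384)) (b (l 16776360) (l 16776328))) (b (c (l 16776344) (l 16776288)) (l 16776272))) (c (b (b (l 16776376) (l 16776344)) (b (l 16776304) (l 16776256))) (b (b (l 16776320) (l 16776288)) (b (l 16776248) (l 16776200)))))))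 (a (b (a (b (l 14) (a (b (l 14) (l 16776344)) (l 14))) (l 14)) (a (a (b (b (l 16776320) (l 16776288)) (b (l 16776248) (l 16776200))) (b (b (l 16776296) (l 16776272)) (b (l 16776224) (l 16776176)))) (a (b (b (l 16776280) (l 16776248)) (b (l 16776208) (l 16776160))) (b (b (l 14) (l 16776232)) (b (l 16776184) (l 16776136)))))) (b (l 14) (b (a (a (b (l 14) (l 16776208)) (l 14)) (l 14)) (a (a (b (l 16776168) (l 16776120)) (b (l 16776144) (l 16776096))) (a (b (l 16776128) (c (l 16776112) (l 16776040))) (b (l 14) (b (l 16776064) (c (l 16776080) (l 16776008)))))))))), by decide +kernel⟩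

def k15_A00pm_102_s1 : ∃ t, chk3 f_A00pm_102_s1 t 255 64 1 = true :=
  ⟨(b (l 14) (a (b (l 14) (a (b (l 14) (a (b (l 14) (b (l 14) (b (l 14) (b (l 14) (a (a (c (l 16776024) (l 16775952)) (l 14)) (l 14)))))) (l 14))) (l 14))) (l 14))), by decide +kernel⟩

def k16_A00pm_102_s1 : ∃ t, chk3 f_A00pm_102_s1 t 62 65 1 = true :=
  ⟨(a (l 3) (a (l 3) (a (l 3) (a (l 3) (b (l 3) (b (l 3) (b (l 3) (a (b (l 3) (l 536103311)) (b (l 536067471) (l 536088719)))))))))), by decide +kernel⟩

def k17_A00pm_102_s1 : ∃ t, chk3 f_A00pm_102_s1 t 252 65 1 = true :=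
  ⟨(b (a (l 3) (b (l 3) (a (l 3) (a (l 3) (b (l 3) (b (l 3) (a (l 535852687) (l 535844495)))))))) (a (a (b (l 3) (b (a (b (l 3) (l 536032655)) (b (l 535999631) (l 536017551))) (a (b (l 536052623) (l 536073615)) (b (l 536037263) (l 536058511))))) (b (b (l 3) (a (b (l 3) (l 535967887)) (b (a (l 3) (l 535935375)) (l 535952271)))) (b (a (b (l 535984015) (l 536002191)) (b (l 535968655) (l 535986575))) (a (b (l 536021903) (l 536042895)) (b (l 536006287) (l 536027279)))))) (b (a (b (b (l 3) (a (a (l 3) (l 535907983)) (a (l 535900047) (l 535891855)))) (a (b (a (l 535927439) (l 535919759)) (l 535936399)) (b (a (l 535911567) (l 535903631)) (l 536054671)))) (a (b (b (a (l 535874959) (l 535866767)) (a (l 535883919) (l 535875727))) (b (a (l 535895439) (l 535887503)) (a (l 535909519) (l 535901583)))) (b (b (a (l 535858575) (l 535850383)) (a (l 535867535) (l 535859343))) (b (a (l 535879311) (l 535870863)) (a (l 535893135) (l 535884943)))))) (a (b (a (b (l 535952783) (l 535970703)) (b (l 535936655) (l 535954575)))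 (a (b (l 535990415) (l 536011407)) (b (l 535974287) (l 535995279)))) (b (a (b (l 536054415) (l 535938191)) (a (l 535916687) (l 535908495))) (a (b (l 535957903) (l 535978895)) (a (l 535956111) (l 535947663)))))))), by decide +kernel⟩

def k18_A00pm_102_s1 : ∃ t, chk3 f_A00pm_102_s1 t 506 260 1 = true :=
  ⟨(a (l 3) (a (l 3) (b (l 3) (b (l 3) (a (b (l 3) (l 535800463)) (b (a (l 3) (l 535797647)) (l 535791759))))))), by decide +kernel⟩

def k19_A00pm_102_s1 : ∃ t, chk3 f_A00pm_102_s1 t 507 260 1 = true :=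
  ⟨(a (a (b (l 3) (a (b (b (l 3) (a (l 3) (l 535798415))) (b (a (l 535793295) (l 535788943)) (l 535783055))) (b (b (a (l 3) (l 535800719)) (a (l 535793807) (l 535789455))) (b (a (l 535784591) (l 535780239)) (l 535774095))))) (a (b (l 3) (a (b (b (l 535796111) (l 535785103)) (l 535771023)) (b (b (l 535791759) (l 535780495)) (l 535766415)))) (b (b (l 3) (b (l 3) (a (l 535800463) (l 535795855)))) (a (b (b (l 535787151) (l 535776143)) (l 535762063)) (b (b (l 535782799) (l 535771535)) (l 535757455)))))) (a (a (b (b (l 3) (b (a (l 535806607) (l 535801999)) (a (l 535791247) (l 535786895)))) (a (b (b (l 535778191) (l 535767183)) (l 535753103)) (b (b (l 535773583) (l 535762575)) (l 535748495)))) (b (b (b (l 3) (a (b (l 3) (l 535810703)) (b (l 535815567) (l 535806095)))) (b (a (l 535797647) (l 535793039)) (a (l 535782287) (l 535777679)))) (a (b (b (l 535769231) (l 535757967)) (l 535743887)) (b (b (l 535764623) (l 535753359)) (l 535739535))))) (a (a (b (b (b (b (l 3) (l 535821199)) (b (l 535811215) (l 535801743)))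 (b (l 535788431) (l 535773071))) (b (b (l 535760015) (l 535749007)) (l 535734927))) (b (b (b (b (l 535827343) (l 535816591)) (b (l 535806607) (l 535797135))) (b (l 535783823) (l 535768463))) (b (b (l 535755407) (l 535744399)) (l 535730319)))) (a (b (b (b (b (l 535822735) (l 535811983)) (b (l 535801743) (l 535792527))) (b (l 535779215) (l 535763855))) (b (b (l 535750799) (l 535739791)) (l 535725711))) (b (b (b (b (l 535818127) (l 535807375)) (l 535792271)) (b (l 535774607) (l 535759247))) (b (b (l 535746191) (l 535735183)) (l 535721103))))))), by decide +kernel⟩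

def k20_A00pm_102_s1 : ∃ t, chk3 f_A00pm_102_s1 t 253 261 1 = true :=
  ⟨(a (a (a (b (l 3) (b (a (l 535833743) (l 535825551)) (a (l 535836047) (l 535827855)))) (b (b (l 3) (a (b (l 3) (l 535818639)) (b (l 535812239) (l 535810191)))) (b (a (l 535817103) (l 535808655)) (a (l 535819407) (l 535810959))))) (a (b (b (a (b (l 3) (l 535807119)) (b (l 535803023) (l 535798415))) (a (b (l 535803791) (l 535801743)) (b (l 535795087) (l 535793039)))) (b (a (l 535799951) (l 535791503)) (a (l 535802255) (l 535793807)))) (b (b (a (b (l 535794319) (l 535789711)) (b (l 535785615) (l 535781007))) (a (b (l 535786383) (l 535784335)) (b (l 535777679) (l 535775631)))) (b (a (l 535782799) (l 535774095)) (a (l 535785103) (l 535776399)))))) (a (a (b (b (a (b (l 535776911) (l 535772303)) (b (l 535767951) (l 535763343))) (a (b (l 535768975) (l 535766927)) (b (l 535760015) (l 535757967)))) (b (a (l 535765391) (l 535756431)) (a (l 535767695) (l 535758735)))) (b (b (a (b (l 535759247) (l 535754639)) (b (l 535750287) (l 535745679)))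 (a (b (l 535751311) (l 535749263)) (a (l 535743375) (l 535739023)))) (b (a (l 535747727) (l 535738767)) (a (l 535750031) (l 535741071))))) (a (a (b (b (a (l 535741071) (l 535736463)) (a (l 535734415) (l 535730063))) (b (l 535796879) (l 535732111))) (b (b (a (l 535731855) (l 535727503)) (a (l 535725455) (l 535720847))) (b (a (l 535723663) (l 535719055)) (l 535722895)))) (a (b (b (a (l 535722895) (l 535718287)) (a (l 535716495) (l 535711887))) (b (a (l 535714703) (l 535710095)) (l 535848079))) (b (b (a (l 535713679) (l 535709071)) (a (l 535707279) (l 535702671))) (b (b (l 535702927) (l 16776232)) (b (l 16776168) (l 16776096)))))))), by decide +kernel⟩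

def k21_A00pm_102_s1 : ∃ t, chk3 f_A00pm_102_s1 t 506 131 1 = true :=
  ⟨(a (a (a (b (b (b (l 535841935) (l 535850895)) (b (l 535862671) (l 535876751))) (b (l 535900047) (l 535939215))) (b (b (b (l 535833743) (l 535842703)) (b (l 535854223) (l 535868303))) (b (l 535891855) (l 535931023)))) (a (b (b (b (l 535825295) (l 535834255)) (b (l 535845775) (l 535859855))) (b (l 535883407) (l 535922319))) (b (b (b (l 535816847) (l 535825807)) (b (l 535837327) (l 535851407))) (b (l 535874703) (b (l 16776160) (l 16776064)))))) (a (b (b (b (a (l 535808143) (l 535799695)) (a (l 535817103) (l 535808655))) (b (a (l 535828879) (l 535820175)) (a (l 535842703) (l 535834255)))) (b (a (l 535866255) (b (l 535850127) (l 535868047))) (a (b (l 16776096) (l 16776000)) (b (l 16776024) (l 16775936))))) (b (b (b (a (l 535790991) (l 535782287)) (a (l 535799951) (l 535791247))) (b (a (l 535811471) (l 535802767)) (a (l 535825551) (l 535816847)))) (b (a (b (l 535841423) (l 535859343)) (b (l 535832719) (l 535850639))) (a (b (l 16775960)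 (l 16775864)) (b (l 16775888) (l 16775800))))))), by decide +kernel⟩

def k22_A00pm_102_s1 : ∃ t, chk3 f_A00pm_102_s1 t 507 262 1 = true :=
  ⟨(a (a (b (b (a (l 535773583) (l 535764623)) (a (l 535782287) (l 535773583))) (a (b (l 535794063) (l 535807887)) (b (l 535785103) (l 535799183)))) (b (a (b (l 535755663) (l 535764623)) (b (l 535746959) (l 535755663))) (a (b (l 535776399) (l 535790223)) (b (l 535767439) (l 535781263))))) (a (b (a (b (l 535737743) (l 535746703)) (b (l 535862927) (b (l 16776048) (l 16775984)))) (a (b (l 535758223) (a (l 16775864) (l 16775832))) (b (b (l 16775920) (l 16775864)) (a (l 16775792) (l 16775752))))) (a (b (b (b (l 16776104) (l 16776040)) (b (l 16775976) (l 16775912))) (b (a (l 16775832) (l 16775792)) (a (l 16775712) (l 16775672)))) (b (b (b (l 16776024) (l 16775960)) (b (l 16775896) (l 16775832))) (b (a (l 16775760) (l 16775720)) (a (l 16775640) (l 16775600))))))), by decide +kernel⟩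

def k23_A00pm_102_s1 : ∃ t, chk3 f_A00pm_102_s1 t 507 263 1 = true :=
  ⟨(b (b (a (a (a (l 535824015) (l 535815055)) (a (l 535806351) (l 535797135))) (a (a (a (l 16775752) (l 16775720)) (a (l 16775680) (l 16775640))) (a (a (l 16775600) (l 16775560)) (a (l 16775520) (l 16775488))))) (a (a (a (l 535841935) (l 535832975)) (a (l 535824015) (c (l 16775752) (l 16775656)))) (a (a (a (l 16775648) (l 16775608)) (a (l 16775576) (l 16775536))) (a (a (l 16775496) (l 16775456)) (a (l 16775416) (l 16775376)))))) (a (a (a (b (l 535861135) (l 16775728)) (b (l 535852431) (l 16775656))) (a (b (c (l 16775728) (l 16775632)) (c (l 16775640) (l 16775536))) (b (c (l 16775656) (l 16775552)) (c (l 16775568) (l 16775456))))) (b (a (a (a (l 16775552) (l 16775512)) (a (l 16775472) (l 16775432))) (a (a (l 16775400) (l 16775360)) (b (l 16775320) (l 16775272)))) (b (a (a (l 16775464) (l 16775384)) (a (l 16775304) (a (l 16775240) (l 16775216)))) (a (a (l 16775416) (l 16775344)) (b (a (l 16775272) (l 16775208)) (a (a (l 16775272)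 (a (l 16775240) (l 16775232))) (l 16775176)))))))), by decide +kernel⟩

def k24_A00pm_102_s1 : ∃ t, chk3 f_A00pm_102_s1 t 1016 260 1 = true :=
  ⟨(a (a (a (b (b (b (a (l 535809167) (l 535806863)) (b (l 535792527) (l 535783055))) (b (l 535769999) (l 535754639))) (b (b (l 535741583) (l 535730575)) (l 535716495))) (b (b (b (b (l 535808911) (l 535798159)) (b (l 535787919) (l 535778447))) (b (l 535765391) (l 535750031))) (b (b (l 535736975) (l 535725967)) (l 535711887)))) (a (b (b (b (b (l 535804303) (l 535793551)) (b (l 535783311) (l 535773839))) (b (l 535760527) (l 535745423))) (b (b (l 535732367) (l 535721359)) (l 535707279))) (b (b (b (b (l 535799695) (l 535788943)) (b (l 535778703) (l 535769231))) (b (l 535755919) (l 535740815))) (b (b (l 535727759) (l 535716751)) (l 535702671))))) (a (a (b (b (b (b (l 535795087) (l 535784335)) (b (l 535774095) (l 535764623))) (b (l 535751311) (l 535736207))) (b (b (l 535723151) (l 535712143)) (l 535698063))) (b (b (b (b (l 535790479) (l 535779471)) (b (l 535769487)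 (l 535760015))) (b (l 535746703) (l 535731599))) (b (b (l 535718543) (l 535707279)) (l 535693455)))) (a (b (b (b (b (l 535785615) (l 535774863)) (l 535826831)) (b (l 535742095) (l 535726991))) (b (b (l 535713935) (l 535702671)) (l 535688847))) (b (b (b (b (l 535781007) (l 535770255)) (l 535822223)) (b (l 535737487) (l 535722383))) (b (b (l 535709071) (l 535698063)) (l 535684239)))))), by decide +kernel⟩

def k25_A00pm_102_s1 : ∃ t, chk3 f_A00pm_102_s1 t 1017 260 1 = true :=
  ⟨(a (a (b (b (b (a (b (l 535776399) (l 535765647)) (a (l 535767439) (l 535764879))) (a (l 535817615) (l 535812751))) (b (a (l 535732879) (l 535728271)) (a (l 535717519) (l 535712911)))) (b (a (b (l 535704463) (l 535693455)) (b (l 535699855) (l 535688847))) (a (l 535679375) (l 535808911)))) (b (b (b (a (a (l 535762575) (l 535760271)) (a (l 535757967) (l 535755407))) (a (l 535808143) (l 535870351))) (b (a (l 535723407) (l 535718799)) (a (l 535708303) (l 535703439)))) (b (b (a (l 535695247) (l 535690383)) (a (l 535683983) (l 535679375)))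 (a (l 535804303) (b (l 16776280) (l 16776200)))))) (a (b (b (b (a (a (l 535753103) (l 535750799)) (a (l 535748239) (l 535745935))) (a (l 535865743) (l 535860879))) (b (a (l 535713935) (l 535709071)) (a (l 535698831) (l 535693967)))) (b (a (b (l 535685775) (l 535674767)) (b (l 535680911) (l 16776288))) (a (b (l 16776240) (l 16776160)) (b (l 16776200) (l 16776120))))) (b (b (b (a (a (l 535743375) (l 535741071)) (a (l 535738767) (l 535736207))) (a (l 535856015) (l 535851151))) (a (b (l 535704463) (l 535689359)) (b (l 535699599) (l 535684495)))) (b (a (b (l 535676303) (l 16776248)) (b (l 16776288) (l 16776208))) (a (b (l 16776160) (l 16776080)) (b (l 16776120) (l 16776040))))))), by decide +kernel⟩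

def k26_A00pm_102_s1 : ∃ t, chk3 f_A00pm_102_s1 t 1018 260 1 = true :=
  ⟨(a (a (a (b (b (b (l 535832719) (l 535846287)) (b (l 535694735) (l 535679631))) (b (b (l 16776248) (l 16776168)) (b (l 16776080) (l 16776000)))) (b (b (b (l 535827855) (l 535841423)) (b (l 535689871) (l 535674767))) (b (b (l 16776208) (l 16776128)) (b (l 16776040) (l 16775960))))) (a (b (b (b (l 535856527) (l 535836559)) (b (l 535819151) (l 535804047))) (b (b (l 535791247) (l 16776088)) (b (l 16776000) (l 16775920)))) (b (b (b (b (l 16776488) (l 16776448)) (l 535764623)) (b (l 535747215) (l 535765647))) (b (b (c (l 16776160) (l 16776096)) (l 16776048)) (b (l 16775960) (l 16775872)))))) (a (a (b (b (b (b (l 16776456) (l 16776408)) (a (l 16776352) (l 16776336))) (b (c (l 16776288) (l 16776232)) (c (l 16776208) (l 16776144)))) (b (b (c (l 16776120) (l 16776056)) (c (l 16776040) (l 16775968))) (b (c (l 16775952) (l 16775880)) (c (l 16775872) (l 16775800))))) (b (b (b (b (l 16776416) (l 16776376)) (a (l 16776320) (l 16776296)))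 (b (c (l 16776248) (l 16776192)) (c (l 16776168) (l 16776104)))) (b (b (c (l 16776080) (l 16776016)) (c (l 16775992) (l 16775928))) (b (c (l 16775912) (l 16775840)) (c (l 16775832) (l 16775752)))))) (b (a (b (b (b (l 16776376) (l 16776336)) (a (l 16776280) (l 16776256))) (b (a (l 16776192) (l 16776168)) (c (l 16776128) (l 16776064)))) (b (b (b (l 16776336) (l 16776296)) (b (l 16776248) (l 16776208))) (b (a (l 16776152) (l 16776128)) (a (l 16776064) (l 16776040))))) (b (c (a (b (l 16776040) (l 16775952)) (b (l 16776000) (l 16775912))) (a (b (l 16775976) (l 16775888)) (b (l 16775928) (l 16775840)))) (a (b (c (l 16775872) (l 16775800)) (c (l 16775784) (l 16775712))) (b (c (l 16775832) (l 16775752)) (b (c (l 16775760) (l 16775680)) (c (l 16775720) (l 16775640))))))))), by decide +kernel⟩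

def k27_A00pm_102_s1 : ∃ t, chk3 f_A00pm_102_s1 t 1019 1040 1 = true :=
  ⟨(a (a (a (b (b (l 16776304) (l 16776256)) (b (l 16776208) (l 16776168))) (b (b (l 16776264) (l 16776216)) (b (l 16776176) (l 16776128)))) (a (b (b (l 16776224) (l 16776176)) (b (l 16776136) (l 16776088))) (b (a (b (l 16776192) (l 16776144)) (b (l 16776176) (l 16776128))) (b (l 16776088) (l 16776048))))) (a (a (c (b (b (l 16776176) (l 16776128)) (b (l 16776088) (l 16776040))) (b (b (l 16776112) (l 16776064)) (a (l 16776008) (l 16775984)))) (b (c (b (l 16776136) (l 16776088)) (b (l 16776072) (l 16776024))) (b (a (l 16776016) (a (l 16776008) (l 16775992))) (a (l 16775968) (c (l 16775984) (l 16775912)))))) (b (b (a (a (l 16776072) (c (l 16776080) (l 16776016))) (a (b (l 16776040) (l 16776016)) (c (l 16776032) (l 16775960)))) (b (a (a (l 16776040) (l 16776016)) (c (l 16776000) (l 16775928))) (a (a (l 16776008) (l 16775992)) (l 16775936)))) (b (a (a (c (l 16776008) (l 16775944)) (l 16775944)) (c (l 16775920) (l 16775856))) (a (c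 (l 16775936) (l 16775864)) (c (l 16775864) (l 16775792))))))), by decide +kernel⟩

def k28_A00pm_102_s1 : ∃ t, chk3 f_A00pm_102_s1 t 1019 1041 1 = true :=
  ⟨(a (b (b (a (a (l 16776120) (l 16776080)) (a (l 16776040) (l 16776000))) (a (a (l 16776080) (l 16776040)) (a (l 16775992) (l 16775952)))) (a (a (a (l 16776024) (l 16776000)) (b (l 16775992) (l 16775944))) (a (b (l 16775952) (l 16775904)) (b (c (l 16775936) (l 16775864)) (c (c (l 16775912) (l 16775880)) (l 16775824)))))) (a (b (b (a (a (l 16775968) (l 16775944)) (a (c (l 16775960) (l 16775888)) (l 16775888))) (a (a (l 16775920) (a (l 16775904) (l 16775896))) (c (l 16775888) (l 16775816)))) (a (b (a (a (l 16775880) (l 16775872)) (l 16775840)) (c (l 16775840) (l 16775760))) (b (c (l 16775832) (l 16775752)) (l 16775736)))) (b (a (b (c (l 16775872) (l 16775800)) (l 16775784)) (b (l 16775768) (l 16775712))) (a (b (l 16775728) (l 16775672)) (c (l 16775672) (l 16775600)))))), by decide +kernel⟩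

def k29_A00pm_102_s1 : ∃ t, chk3 f_A00pm_102_s1 t 1019 521 1 = true :=
  ⟨(b (b (a (a (a (a (l 16775936) (l 16775912)) (a (l 16775888) (l 16775872))) (b (a (c (l 16775888) (l 16775816)) (a (l 16775824) (l 16775792))) (a (c (l 16775848) (l 16775776)) (l 16775752)))) (a (a (b (l 16775744) (l 16775696)) (c (l 16775696) (l 16775616))) (a (c (l 16775632) (l 16775552)) (l 16775528)))) (a (a (a (a (l 16775848) (l 16775824)) (b (c (l 16775848) (l 16775768)) (c (l 16775808) (l 16775728)))) (a (b (c (l 16775808) (l 16775728)) (l 16775712)) (b (l 16775704) (l 16775648)))) (a (a (c (l 16775656) (l 16775576)) (c (l 16775592) (l 16775512))) (a (l 16775488) (l 16775432))))) (a (b (b (a (a (c (l 16775800) (l 16775720)) (c (l 16775760) (l 16775688))) (a (l 16775656) (l 16775600))) (a (a (c (l 16775760) (l 16775688)) (l 16775664)) (a (l 16775608) (l 16775552)))) (a (a (b (c (l 16775720) (l 16775640)) (l 16775624)) (c (l 16775632) (l 16775552))) (a (c (l 16775576) (l 16775496)) (l 16775480)))) (a (b (a (l 16775512)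 (l 16775456)) (a (l 16775424) (l 16775360))) (b (a (l 16775400) (l 16775336)) (a (l 16775304) (l 16775248)))))), by decide +kernel⟩

def k30_A00pm_102_s1 : ∃ t, chk3 f_A00pm_102_s1 t 508 261 1 = true :=
  ⟨(a (a (a (a (b (b (l 535704463) (l 535698063)) (b (l 535696271) (l 535698575))) (b (b (l 535699855) (l 535693455)) (b (l 535691663) (l 535693967)))) (a (b (b (l 535695247) (l 535688847)) (b (l 535687055) (l 535689359))) (b (b (l 535690639) (l 535684239)) (b (l 535682447) (l 535684751))))) (a (a (b (b (l 535686031) (l 535679631)) (b (l 535677839) (l 535680143))) (b (b (l 535681423) (l 535675023)) (b (l 535673231) (l 535675535)))) (a (b (b (l 535676815) (l 535670415)) (b (l 535802767) (l 535805071))) (b (b (l 535672207) (l 535799951)) (b (l 535798159) (b (l 16775832) (l 16775760))))))) (b (a (a (b (a (l 535667599) (l 535797135)) (a (l 535795343) (b (l 16776048) (l 16775968)))) (b (a (b (l 16776160) (l 16776088)) (b (l 16776120) (l 16776040))) (a (b (l 16776008) (l 16775928)) (b (l 16775968) (l 16775888)))))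 (a (b (a (b (l 16776080) (l 16776000)) (b (l 16776040) (l 16775960))) (a (b (l 16775928) (l 16775848)) (b (l 16775880) (l 16775808)))) (b (a (b (l 16776000) (l 16775920)) (b (l 16775960) (l 16775880))) (a (b (l 16775840) (l 16775768)) (b (l 16775800) (l 16775720)))))) (a (a (b (a (b (l 16775936) (l 16775864)) (b (l 16775896) (l 16775824))) (a (b (l 16775792) (l 16775720)) (b (l 16775752) (l 16775680)))) (b (a (b (l 16775856) (l 16775784)) (b (l 16775816) (l 16775736))) (a (b (l 16775704) (l 16775632)) (b (l 16775664) (l 16775592))))) (b (a (a (b (l 16775768) (l 16775696)) (b (l 16775728) (l 16775656))) (a (b (l 16775688) (l 16775608)) (b (l 16775648) (l 16775568)))) (a (a (b (l 16775624) (l 16775552)) (b (l 16775584) (l 16775504))) (a (b (l 16775536) (c (l 16775504) (l 16775408))) (b (c (l 16775536) (l 16775440)) (a (l 16775432) (l 16775416))))))))), by decide +kernel⟩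

def k31_A00pm_102_s1 : ∃ t, chk3 f_A00pm_102_s1 t 1018 261 1 = true :=
  ⟨(b (a (b (a (a (b (l 16775920) (l 16775840)) (b (l 16775880) (l 16775792))) (a (b (l 16775832) (l 16775752)) (b (c (l 16775832) (l 16775752)) (c (l 16775752) (l 16775672))))) (a (a (b (l 16775760) (l 16775680)) (b (l 16775712) (l 16775640))) (b (c (a (l 16775712) (l 16775672)) (a (l 16775632) (l 16775592))) (a (c (l 16775632) (l 16775552)) (b (l 16775568) (l 16775536)))))) (a (a (b (b (a (l 16775760) (l 16775736)) (c (l 16775704) (l 16775624))) (b (b (l 16775600) (l 16775568)) (c (l 16775544) (l 16775456)))) (b (b (c (l 16775744) (l 16775664)) (b (l 16775640) (c (l 16775648) (l 16775560)))) (b (b (l 16775560) (l 16775512)) (c (l 16775496) (l 16775408))))) (a (b (b (b (l 16775680) (c (l 16775680) (l 16775600))) (b (l 16775600) (l 16775552))) (b (c (l 16775528) (l 16775440)) (l 16775400))) (b (b (b (l 16775640) (l 16775584)) (c (l 16775560) (l 16775480))) (b (l 16775432) (l 16775352)))))) (a (a (a (b (b (l 16775600) (c (l 16775568)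 (l 16775480))) (b (b (l 16775464) (l 16775440)) (c (l 16775424) (l 16775328)))) (b (b (c (l 16775600) (l 16775512)) (b (l 16775496) (l 16775472))) (b (c (l 16775448) (l 16775360)) (l 16775328)))) (b (a (b (b (l 16775528) (l 16775504)) (c (l 16775480) (l 16775392))) (b (c (l 16775512) (l 16775424)) (l 16775384))) (b (a (l 16775360) (l 16775312)) (a (l 16775288) (l 16775240))))) (b (a (a (b (c (l 16775464) (l 16775376)) (l 16775336)) (b (l 16775368) (l 16775288))) (b (a (l 16775320) (l 16775272)) (a (l 16775240) (l 16775192)))) (b (c (a (l 16775288) (l 16775192)) (a (l 16775192) (l 16775096))) (a (a (l 16775192) (l 16775152)) (l 16775080)))))), by decide +kernel⟩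

def k32_A00pm_102_s1 : ∃ t, chk3 f_A00pm_102_s1 t 1019 261 1 = true :=
  ⟨(b (a (b (a (a (b (c (l 16775600) (l 16775512)) (l 16775464)) (b (l 16775504) (l 16775408))) (b (a (l 16775448) (l 16775392)) (a (l 16775360) (l 16775304)))) (b (a (a (l 16775376) (l 16775328)) (a (l 16775272) (l 16775216))) (c (a (l 16775320) (l 16775216)) (a (l 16775224) (l 16775120))))) (b (b (c (a (l 16775344) (l 16775232)) (a (l 16775264) (l 16775144))) (c (a (l 16775264) (l 16775152)) (a (l 16775176) (l 16775064)))) (b (a (l 16775136) (a (l 16775056) (l 16775000))) (a (l 16775064) (a (l 16774984) (l 16774928)))))) (a (b (b (a (a (l 16775216) (l 16775168)) (l 16775096)) (a (l 16775120) (l 16775024))) (b (a (l 16775048) (l 16774952)) (a (l 16774984) (l 16774888)))) (b (b (a (l 16774992) (l 16774888)) (a (l 16774920) (l 16774816))) (b (a (l 16774856) (l 16774752)) (a (l 16774792) (l 16774696)))))), by decide +kernel⟩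

def k33_A00pm_102_s1 : ∃ t, chk3 f_A00pm_102_s1 t 1016 262 1 = true :=
  ⟨(a (a (b (b (b (l 16775952) (l 16775880)) (b (l 16775816) (l 16775752))) (b (b (l 16775688) (l 16775624)) (a (l 16775560) (l 16775520)))) (b (b (b (l 16775872) (l 16775800)) (b (l 16775736) (l 16775672))) (b (b (l 16775608) (l 16775544)) (b (l 16775488) (l 16775432))))) (b (a (b (b (l 16775792) (l 16775720)) (b (l 16775656) (l 16775592))) (b (a (b (l 16775728) (l 16775664)) (b (l 16775688) (l 16775624))) (a (b (l 16775592) (l 16775528)) (b (l 16775552) (l 16775488))))) (b (a (b (l 16775528) (l 16775464)) (a (b (l 16775464) (l 16775400)) (b (l 16775424) (l 16775360)))) (a (b (l 16775408) (l 16775344)) (a (b (l 16775344) (l 16775280)) (b (l 16775296) (l 16775256))))))), by decide +kernel⟩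

def k34_A00pm_102_s1 : ∃ t, chk3 f_A00pm_102_s1 t 1017 262 1 = true :=
  ⟨(b (a (a (b (a (b (l 16775648) (l 16775576)) (b (l 16775608) (l 16775536))) (a (b (l 16775512) (l 16775448)) (b (l 16775472) (l 16775408)))) (b (a (b (l 16775568) (l 16775496)) (b (l 16775520) (l 16775456))) (a (b (l 16775424) (c (l 16775400) (l 16775304))) (b (c (l 16775424) (l 16775328)) (c (l 16775376) (l 16775280)))))) (a (b (a (b (l 16775480) (c (l 16775448) (l 16775352))) (b (c (l 16775472) (l 16775384)) (c (l 16775424) (l 16775328)))) (a (b (c (l 16775400) (l 16775304)) (l 16775280)) (b (l 16775304) (l 16775240)))) (b (a (b (a (l 16775408) (l 16775392)) (l 16775328)) (b (l 16775352) (l 16775280))) (b (a (l 16775264) (l 16775216)) (a (l 16775200) (l 16775160)))))) (a (b (a (a (b (l 16775384) (l 16775312)) (b (l 16775336) (l 16775288))) (a (b (c (l 16775360) (l 16775256)) (l 16775240)) (b (l 16775264) (l 16775200)))) (b (a (a (l 16775272) (l 16775224)) (l 16775168)) (a (c (l 16775248) (l 16775136)) (l 16775120)))) (b (b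 (a (a (l 16775224) (l 16775184)) (l 16775120)) (a (l 16775144) (l 16775064))) (a (b (l 16775096) (l 16775040)) (a (l 16775008) (l 16774968)))))), by decide +kernel⟩

def k35_A00pm_102_s1 : ∃ t, chk3 f_A00pm_102_s1 t 508 263 1 = true :=
  ⟨(b (b (a (a (a (b (l 16775456) (l 16775400)) (b (l 16775368) (l 16775320))) (b (b (a (l 16775296) (l 16775232)) (a (l 16775272) (l 16775200))) (a (a (l 16775256) (l 16775224)) (l 16775168)))) (a (a (b (l 16775144) (l 16775096)) (a (l 16775064) (l 16775032))) (a (a (l 16774992) (l 16774952)) (a (l 16774920) (l 16774880))))) (a (b (a (a (l 16775344) (a (l 16775280) (l 16775240))) (a (c (l 16775256) (l 16775136)) (l 16775120))) (a (a (l 16775296) (a (l 16775232) (l 16775200))) (a (l 16775152) (l 16775080)))) (a (a (a (l 16775048) (l 16775016)) (a (l 16774984) (l 16774944))) (a (a (l 16774912) (l 16774872)) (l 16774816))))) (a (a (a (b (b (a (l 16775264) (l 16775224)) (a (l 16775216) (l 16775184))) (b (l 16775168) (l 16775128))) (b (b (l 16775176) (l 16775136)) (a (l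 16775104) (l 16775072)))) (a (b (b (l 16775112) (l 16775072)) (a (l 16775040) (l 16775008))) (a (b (l 16775040) (l 16774976)) (b (l 16775008) (l 16774944))))) (a (b (c (a (l 16775024) (l 16774952)) (a (l 16774896) (l 16774824))) (a (a (l 16774912) (l 16774872)) (l 16774824))) (b (a (l 16774816) (l 16774744)) (a (l 16774752) (l 16774688)))))), by decide +kernel⟩

def k36_A00pm_102_s1 : ∃ t, chk3 f_A00pm_102_s1 t 509 262 1 = true :=
  ⟨(a (b (a (b (b (a (a (l 16775304) (l 16775264)) (a (l 16775216) (l 16775176))) (c (a (l 16775272) (l 16775184)) (a (l 16775168) (l 16775080)))) (b (a (a (l 16775176) (l 16775136)) (l 16775072)) (a (l 16775096) (l 16775008)))) (b (b (a (l 16775104) (l 16775016)) (a (l 16775040) (l 16774952))) (b (a (l 16774984) (l 16774896)) (a (l 16774928) (l 16774840))))) (a (b (b (a (l 16775040) (l 16774960)) (a (l 16774984) (l 16774904))) (a (a (l 16774928) (l 16774888)) (a (l 16774848) (l 16774808)))) (b (a (a (l 16774864) (l 16774824)) (a (l 16774784) (l 16774744))) (c (a (l 16774808)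 (l 16774728)) (a (l 16774688) (l 16774608)))))) (b (a (b (b (a (l 16774920) (l 16774824)) (a (l 16774864) (l 16774768))) (a (a (l 16774800) (l 16774752)) (a (l 16774712) (l 16774664)))) (b (b (a (l 16774736) (l 16774632)) (a (l 16774672) (l 16774576))) (b (a (l 16774624) (l 16774528)) (a (l 16774568) (l 16774480))))) (a (b (a (a (l 16774696) (l 16774656)) (a (l 16774608) (l 16774568))) (c (a (l 16774648) (l 16774560)) (a (l 16774520) (l 16774440)))) (b (b (a (l 16774520) (l 16774432)) (a (l 16774480) (l 16774384))) (b (a (l 16774432) (l 16774344)) (a (l 16774392) (l 16774304))))))), by decide +kernel⟩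

def k37_A00pm_102_s1 : ∃ t, chk3 f_A00pm_102_s1 t 509 263 1 = true :=
  ⟨(a (b (b (a (a (a (l 16774840) (l 16774800)) (l 16774744)) (a (l 16774664) (l 16774584))) (a (a (l 16774744) (l 16774664)) (a (l 16774592) (l 16774512)))) (a (b (a (l 16774672) (l 16774600)) (a (l 16774616) (l 16774544))) (b (a (l 16774520) (l 16774448)) (a (l 16774464) (l 16774392))))) (b (b (b (a (a (l 16774520) (l 16774440)) (a (l 16774352) (l 16774264))) (a (a (l 16774488) (l 16774400)) (a (l 16774320) (l 16774232)))) (a (c (a (l 16774504) (l 16774416)) (a (l 16774360) (l 16774280))) (a (a (l 16774288) (l 16774248)) (a (l 16774200) (l 16774160))))) (b (a (c (a (l 16774440) (l 16774360)) (a (l 16774296) (l 16774216))) (a (a (l 16774224) (l 16774184)) (a (l 16774144) (l 16774104)))) (a (a (l 16774312) (a (l 16774256) (l 16774216))) (c (a (l 16774232) (l 16774152)) (a (l 16774080) (l 16773992))))))), by decide +kernel⟩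

def k38_A00pm_102_s1 : ∃ t, chk3 f_A00pm_102_s1 t 1020 260 1 = true :=
  ⟨(b (b (b (a (a (b (a (a (l 16775960) (l 16775920)) (c (l 16775904) (l 16775832))) (a (c (l 16775912) (l 16775840)) (l 16775808))) (a (a (l 16775784) (l 14)) (l 14))) (l 14)) (a (a (a (b (l 16775816) (l 16775760)) (c (l 16775752) (l 16775680))) (a (c (l 16775680) (l 16775616)) (c (l 16775608) (l 16775544)))) (a (a (c (l 16775544) (l 16775472)) (l 14)) (l 14)))) (b (a (a (a (c (l 16775712) (l 16775640)) (l 16775608)) (a (l 16775536) (c (l 16775504) (l 16775432)))) (a (a (c (l 16775440) (l 16775360)) (c (l 16775368) (l 16775296))) (a (c (l 16775296) (l 16775224)) (l 14)))) (a (a (a (l 16775568) (l 16775504)) (a (l 16775432) (l 16775368))) (c (a (a (l 16775336) (l 16775272)) (a (l 16775200) (l 16775136))) (a (a (l 16775264) (l 16775192)) (a (l 16775128) (l 16775056))))))) (a (a (b (a (b (l 16775464) (l 16775368)) (b (l 16775400) (l 16775304))) (a (b (l 16775272) (l 16775184)) (b (l 16775216) (l 16775128)))) (b (a (b (l 16775336)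 (l 16775240)) (b (l 16775272) (l 16775176))) (a (b (l 16775152) (l 16775064)) (b (l 16775088) (l 16775008))))) (b (a (a (b (l 16775208) (l 16775112)) (b (c (l 16775176) (l 16775104)) (c (l 16775088) (l 16775008)))) (a (b (c (l 16775112) (l 16775032)) (c (l 16775024) (l 16774944))) (b (c (l 16775048) (l 16774968)) (c (l 16774960) (l 16774880))))) (a (a (b (l 16775032) (l 16774944)) (b (l 16774968) (l 16774888))) (a (b (c (l 16774944) (l 16774864)) (l 16774824)) (b (c (l 16774880) (l 16774800)) (c (l 16774808) (l 16774720)))))))), by decide +kernel⟩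

def k39_A00pm_102_s1 : ∃ t, chk3 f_A00pm_102_s1 t 1020 261 1 = true :=
  ⟨(b (a (b (b (b (a (l 16775096) (l 16774976)) (a (l 16775056) (l 16774936))) (b (a (l 16775016) (l 16774896)) (a (l 16774976) (l 16774864)))) (b (a (c (l 16774968) (l 16774872)) (a (l 16774832) (l 16774776))) (a (a (l 16774872) (l 16774824)) (a (l 16774768) (l 16774712))))) (b (a (a (b (l 16774872) (l 16774792)) (b (l 16774808) (l 16774736))) (a (b (l 16774752) (l 16774680)) (b (c (l 16774736) (l 16774648)) (l 16774616)))) (a (a (b (l 16774720) (l 16774656)) (b (l 16774664) (l 16774600))) (a (b (l 16774608) (l 16774544)) (b (l 16774552) (l 16774488)))))) (a (b (b (a (a (l 16774808) (l 16774752)) (a (l 16774696) (l 16774648))) (c (a (l 16774760) (l 16774656)) (a (l 16774664) (l 16774560)))) (b (c (a (l 16774704) (l 16774600)) (a (l 16774600) (l 16774496))) (c (a (l 16774648) (l 16774544)) (a (l 16774544) (l 16774440))))) (b (b (a (a (l 16774592) (l 16774536)) (a (l 16774480) (l 16774424))) (a (a (l 16774528) (l 16774472)) (a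 (l 16774424) (l 16774368)))) (b (a (a (l 16774472) (l 16774416)) (a (l 16774368) (l 16774312))) (a (a (l 16774416) (l 16774360)) (a (l 16774312) (l 16774256))))))), by decide +kernel⟩

def k40_A00pm_102_s1 : ∃ t, chk3 f_A00pm_102_s1 t 1021 260 1 = true :=
  ⟨(b (a (a (a (b (l 14) (b (l 14) (a (l 16775048) (l 14)))) (l 14)) (l 14)) (l 14)) (b (b (a (a (a (c (l 16774976) (l 16774904)) (a (l 16774888) (l 16774856))) (a (a (l 16774824) (l 14)) (l 14))) (l 14)) (a (a (a (c (l 16774896) (l 16774816)) (c (l 16774832) (l 16774752))) (a (a (l 16774744) (l 16774712)) (a (l 16774672) (l 16774640)))) (a (a (b (l 14) (l 16774576)) (l 14)) (l 14)))) (b (a (a (a (c (l 16774816) (l 16774736)) (c (l 16774752) (l 16774672))) (a (c (l 16774688) (l 16774608)) (a (l 16774600) (l 16774568)))) (b (a (a (l 16774536) (l 16774472)) (l 14)) (a (a (l 16774504) (l 16774432)) (a (c (l 16774416) (l 16774328)) (l 14))))) (a (c (a (a (l 16774744) (l 16774680)) (a (l 16774616) (l 16774552))) (a (a (l 16774656) (l 16774592)) (a (l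 16774536) (l 16774472)))) (a (a (a (l 16774464) (l 16774432)) (b (l 16774400) (l 16774368))) (a (b (l 16774336) (l 16774304)) (a (c (l 16774312) (l 16774224)) (c (l 16774280) (l 16774192))))))))), by decide +kernel⟩

def k41_A00pm_102_s1 : ∃ t, chk3 f_A00pm_102_s1 t 2042 261 1 = true :=
  ⟨(b (a (a (b (b (c (l 16774672) (l 16774584)) (c (l 16774608) (l 16774512))) (b (c (l 16774536) (l 16774448)) (l 16774432))) (c (b (b (l 16774608) (l 16774544)) (b (l 16774480) (l 16774424))) (b (b (l 16774520) (l 16774456)) (b (l 16774384) (l 16774320))))) (a (c (b (b (l 16774552) (l 16774488)) (b (l 16774424) (l 16774360))) (b (b (l 16774464) (l 16774392)) (b (l 16774328) (l 16774264)))) (c (b (b (l 16774488) (l 16774424)) (b (l 16774360) (l 16774304))) (b (b (l 16774400) (l 16774336)) (b (l 16774272) (l 16774208)))))) (b (b (a (a (l 16774368) (l 16774312)) (a (c (l 16774304) (l 16774208)) (c (l 16774248) (l 16774152)))) (a (a (l 16774312) (l 16774256)) (a (c (l 16774256) (l 16774152)) (c (l 16774200) (l 16774088)))))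 (b (a (a (l 16774256) (l 16774200)) (a (l 16774144) (c (l 16774144) (l 16774040)))) (a (a (l 16774208) (l 16774152)) (a (l 16774096) (c (l 16774096) (l 16773984))))))), by decide +kernel⟩

def k42_A00pm_102_s1 : ∃ t, chk3 f_A00pm_102_s1 t 2043 261 1 = true :=
  ⟨(b (b (b (a (a (a (l 16774400) (l 16774368)) (a (l 16774336) (l 16774304))) (a (b (l 16774272) (l 16774240)) (a (a (l 16774216) (l 16774200)) (a (l 16774184) (l 16774168))))) (a (a (c (l 16774360) (l 16774272)) (a (l 16774272) (l 16774240))) (a (a (l 16774208) (l 16774176)) (b (l 16774144) (l 16774120))))) (b (a (a (c (l 16774304) (l 16774208)) (c (l 16774248) (l 16774144))) (a (a (l 16774152) (l 16774120)) (b (l 16774088) (l 16774064)))) (a (a (c (l 16774248) (l 16774152)) (c (l 16774192) (l 16774088))) (a (a (l 16774096) (l 16774064)) (a (l 16774032) (l 16774008)))))) (a (c (a (b (b (l 16774192) (l 16774144)) (b (l 16774088) (l 16774048))) (b (b (l 16774136) (l 16774088)) (b (l 16774040) (l 16773992)))) (b (a (b (l 16774088) (l 16774032))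 (b (l 16774032) (l 16773976))) (a (b (l 16773984) (l 16773936)) (b (l 16773928) (l 16773880))))) (a (b (b (c (l 16774080) (l 16773976)) (c (l 16774024) (l 16773920))) (b (c (l 16773984) (l 16773872)) (c (l 16773936) (l 16773824)))) (b (b (a (l 16773984) (l 16773952)) (c (l 16773968) (l 16773864))) (b (c (l 16773920) (l 16773816)) (c (l 16773880) (l 16773768))))))), by decide +kernel⟩

def k43_A00pm_102_s1 : ∃ t, chk3 f_A00pm_102_s1 t 511 260 1 = true :=
  ⟨(a (a (b (l 14) (a (a (a (b (l 14) (b (l 14) (c (l 16774248) (l 16774160)))) (l 14)) (l 14)) (l 14))) (l 14)) (l 14)), by decide +kernel⟩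

def k44_A00pm_102_s1 : ∃ t, chk3 f_A00pm_102_s1 t 511 522 1 = true :=
  ⟨(b (a (a (b (a (a (a (c (l 16774192) (l 16774096)) (c (l 16774160) (l 16774064))) (a (c (l 16774128) (l 16774032)) (c (l 16774096) (l 16774000)))) (b (l 14) (a (c (l 16774032) (l 16773936)) (l 14)))) (c (b (a (a (l 16774128) (l 16774072)) (a (l 16774008) (l 16773944))) (a (a (l 16774104) (l 16774040)) (a (l 16773976) (l 16773912)))) (a (a (c (l 16774048) (l 16774000)) (c (l 16773984) (l 16773936))) (a (a (l 16773912) (l 16773880)) (a (l 16773848) (l 16773816)))))) (b (l 14) (b (l 14) (a (a (c (l 16773848) (l 16773752)) (l 14)) (l 14))))) (l 14)) (b (a (a (c (a (a (c (l 16774088) (l 16774040)) (a (l 16774016) (l 16773984))) (b (a (l 16773952) (l 16773888)) (a (l 16773928) (l 16773864)))) (a (a (c (l 16773992) (l 16773944)) (c (l 16773928) (l 16773880))) (a (c (l 16773864) (l 16773816)) (a (l 16773792) (l 16773760))))) (a (b (a (c (l 16773824) (l 16773728)) (c (l 16773760) (l 16773664))) (a (c (l 16773800) (l 16773704)) (c (l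 16773736) (l 16773640)))) (b (l 14) (a (c (l 16773680) (l 16773576)) (l 14))))) (l 14)) (b (a (a (a (a (l 16773976) (a (l 16773928) (l 16773896))) (a (a (l 16773864) (l 16773832)) (c (l 16773840) (l 16773736)))) (c (a (a (l 16773776) (l 16773720)) (a (l 16773656) (l 16773592))) (a (a (l 16773680) (l 16773616)) (a (l 16773552) (l 16773488))))) (l 14)) (a (a (a (a (l 16773944) (c (l 16773936) (l 16773832))) (a (c (l 16773880) (l 16773776)) (c (l 16773816) (l 16773712)))) (c (a (a (l 16773752) (l 16773696)) (a (l 16773632) (l 16773568))) (a (a (l 16773648) (l 16773592)) (a (l 16773528) (l 16773464))))) (a (a (a (c (l 16773504) (l 16773400)) (l 14)) (l 14)) (l 14)))))), by decide +kernel⟩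

def k45_A00pm_102_s1 : ∃ t, chk3 f_A00pm_102_s1 t 2044 523 1 = true :=
  ⟨(a (a (b (b (b (l 16773920) (l 16773896)) (a (l 16773872) (l 16773848))) (b (a (l 16773824) (l 16773800)) (c (l 16773824) (l 16773712)))) (c (b (b (c (l 16773928) (l 16773872)) (c (l 16773880) (l 16773824))) (b (c (l 16773840) (l 16773784)) (c (l 16773800) (l 16773736)))) (b (b (c (l 16773824) (l 16773768)) (l 16773744)) (b (l 16773696) (l 16773648))))) (a (c (b (b (a (l 16773856) (l 16773824)) (c (l 16773824) (l 16773768))) (b (c (l 16773784) (l 16773728)) (c (l 16773736) (l 16773680)))) (b (b (c (l 16773760) (l 16773712)) (c (l 16773712) (l 16773656))) (b (l 16773640) (l 16773592)))) (c (b (b (a (l 16773800) (l 16773768)) (a (l 16773752) (l 16773720))) (b (a (l 16773712) (l 16773680)) (c (l 16773680) (l 16773624)))) (b (b (c (l 16773704) (l 16773648)) (c (l 16773656) (l 16773600))) (b (c (l 16773608) (l 16773552)) (c (l 16773568) (l 16773504))))))), by decide +kernel⟩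

def k46_A00pm_102_s1 : ∃ t, chk3 f_A00pm_102_s1 t 2045 523 1 = true :=
  ⟨(a (c (b (a (a (b (l 16773736) (l 16773696)) (b (l 16773704) (l 16773664))) (a (b (l 16773672) (l 16773632)) (b (l 16773648) (l 16773600)))) (a (b (a (l 16773648) (l 16773624)) (a (l 16773608) (l 16773584))) (b (a (l 16773592) (l 16773560)) (a (l 16773552) (l 16773520))))) (b (c (a (b (l 16773640) (l 16773592)) (b (l 16773584) (l 16773536))) (a (b (l 16773592) (l 16773544)) (b (l 16773528) (l 16773480)))) (c (a (b (l 16773552) (l 16773512)) (b (l 16773488) (l 16773448))) (a (b (l 16773496) (l 16773448)) (b (l 16773432) (l 16773392)))))) (c (b (b (b (a (l 16773608) (l 16773552)) (a (l 16773592) (l 16773528))) (b (a (l 16773568) (l 16773504)) (a (l 16773544) (l 16773488)))) (b (a (a (l 16773536) (l 16773504)) (a (l 16773472) (l 16773440))) (a (a (l 16773496) (l 16773464)) (a (l 16773440) (l 16773408))))) (b (a (b (a (l 16773504) (l 16773480)) (c (l 16773472) (l 16773416))) (b (a (l 16773448) (l 16773416)) (c (l 16773416) (l 16773360))))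 (c (a (b (l 16773432) (l 16773392)) (b (l 16773376) (l 16773336))) (a (a (l 16773368) (l 16773336)) (a (l 16773312) (l 16773280))))))), by decide +kernel⟩

def k47_A00pm_102_s1 : ∃ t, chk3 f_A00pm_102_s1 t 1023 523 1 = true :=
  ⟨(a (a (c (b (b (b (a (l 16773488) (l 16773424)) (a (l 16773464) (l 16773400))) (b (a (l 16773448) (l 16773384)) (a (l 16773424) (l 16773368)))) (b (b (a (l 16773408) (l 16773344)) (a (l 16773392) (l 16773328))) (b (a (l 16773368) (l 16773312)) (a (l 16773352) (l 16773296))))) (b (a (b (a (l 16773384) (l 16773352)) (a (l 16773336) (l 16773312))) (b (a (l 16773320) (l 16773288)) (a (l 16773280) (l 16773248)))) (c (a (b (l 16773312) (l 16773272)) (b (l 16773248) (l 16773216))) (a (a (l 16773248) (l 16773216)) (a (l 16773184) (l 16773160)))))) (a (b (b (a (c (l 16773368) (l 16773256)) (l 14)) (a (c (l 16773328) (l 16773216)) (c (l 16773296) (l 16773184)))) (b (a (c (l 16773296) (l 16773176)) (c (l 16773264) (l 16773144))) (a (c (l 16773256) (l 16773136)) (c (l 16773224) (l 16773104)))))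 (b (b (l 14) (a (c (l 16773264) (l 16773152)) (c (l 16773232) (l 16773120)))) (a (b (c (l 16773232) (l 16773112)) (c (l 16773200) (l 16773080))) (b (c (l 16773200) (l 16773080)) (c (l 16773168) (l 16773048))))))) (b (a (a (a (b (l 14) (c (l 16773208) (l 16773088))) (l 14)) (l 14)) (l 14)) (b (a (a (a (c (l 16773168) (l 16773056)) (c (l 16773136) (l 16773024))) (a (c (l 16773104) (l 16772992)) (c (l 16773080) (l 16772960)))) (a (a (c (l 16773048) (l 16772928)) (l 14)) (l 14))) (a (a (a (c (l 16773136) (l 16773016)) (c (l 16773104) (l 16772984))) (a (c (l 16773080) (l 16772952)) (c (l 16773048) (l 16772920)))) (a (a (c (l 16773016) (l 16772888)) (c (l 16772984) (l 16772864))) (a (c (l 16772952) (l 16772832)) (b (l 14) (a (l 16772856) (b (l 14) (c (l 16772904) (l 16772776))))))))))), by decide +kernel⟩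

def k48_A00pm_102_s1 : ∃ t, chk3 f_A00pm_102_s1 t 1020 262 1 = true :=
  ⟨(b (a (b (b (c (a (l 16774592) (l 16774488)) (a (l 16774480) (l 16774384))) (a (l 16774480) (a (l 16774408) (l 16774360)))) (b (a (l 16774432) (a (l 16774360) (l 16774312))) (a (l 16774384) (a (l 16774312) (l 16774264))))) (b (b (b (a (l 16774352) (l 16774248)) (a (l 16774320) (l 16774224))) (a (c (l 16774344) (l 16774224)) (a (l 16774208) (l 16774160)))) (b (a (a (l 16774264) (l 16774216)) (a (l 16774160) (l 16774112))) (a (a (l 16774216) (l 16774168)) (a (l 16774120) (l 16774072)))))) (a (b (b (a (l 16774336) (a (l 16774264) (l 16774224))) (a (l 16774296) (l 16774200))) (b (a (l 16774256) (l 16774160)) (a (l 16774216) (l 16774128)))) (b (b (a (a (l 16774176) (l 16774128)) (a (l 16774080) (l 16774024))) (c (a (l 16774176) (l 16774080)) (a (l 16774040) (l 16773944)))) (b (c (a (l 16774136) (l 16774040)) (a (l 16774000) (l 16773904))) (c (a (l 16774104) (l 16774008)) (a (l 16773968) (l 16773872))))))), by decide +kernel⟩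

def k49_A00pm_102_s1 : ∃ t, chk3 f_A00pm_102_s1 t 1021 262 2 = true :=
  ⟨(a (b (a (a (a (b (l 16774200) (l 16774112)) (b (l 16774176) (l 16774088))) (a (b (l 16774152) (l 16774064)) (b (l 16774120) (l 16774040)))) (a (a (b (l 16774096) (l 16774016)) (b (l 16774072) (l 16773984))) (b (b (l 16774056) (l 16774008)) (a (l 16773960) (l 16773936))))) (a (b (a (c (l 16774056) (l 16773992)) (a (l 16773984) (l 16773960))) (c (a (l 16773984) (l 16773936)) (a (l 16773920) (l 16773872)))) (a (b (a (l 16773936) (l 16773912)) (c (l 16773888) (l 16773824))) (a (b (l 16773888) (l 16773824)) (b (l 16773864) (l 16773800)))))) (b (a (a (b (b (l 16774000) (l 16773960)) (a (l 16773912) (l 16773888))) (b (b (l 16773944) (l 16773904)) (b (l 16773864) (l 16773824)))) (b (a (b (l 16773896) (l 16773848)) (b (l 16773840) (l 16773800))) (a (b (l 16773816) (l 16773776)) (b (l 16773760) (l 16773720))))) (a (a (a (b (l 16773840) (l 16773768)) (b (l 16773816) (l 16773744))) (a (b (l 16773784) (l 16773720)) (b (l 16773760) (l 16773696))))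 (a (b (b (l 16773744) (l 16773704)) (a (l 16773672) (l 16773648))) (b (b (l 16773688) (l 16773656)) (b (l 16773624) (l 16773592))))))), by decide +kernel⟩

def k50_A00pm_102_s1 : ∃ t, chk3 f_A00pm_102_s1 t 1021 262 3 = true :=
  ⟨(a (b (b (b (b (a (l 16774080) (l 16773976)) (a (l 16774056) (l 16773952))) (b (a (l 16774032) (l 16773928)) (a (l 16774008) (l 16773904)))) (b (b (a (l 16773984) (l 16773880)) (a (l 16773968) (l 16773864))) (b (a (l 16773944) (l 16773840)) (a (l 16773920) (l 16773816))))) (a (a (b (c (l 16773928) (l 16773864)) (l 16773816)) (b (c (l 16773880) (l 16773808)) (c (l 16773800) (l 16773736)))) (a (a (b (l 16773808) (l 16773728)) (b (l 16773784) (l 16773704))) (b (a (l 16773752) (l 16773728)) (c (l 16773704) (l 16773632)))))) (b (a (a (b (b (l 16773880) (l 16773840)) (a (l 16773784) (l 16773760))) (b (b (l 16773832) (l 16773784)) (a (l 16773736) (l 16773704)))) (a (b (b (l 16773776) (l 16773728)) (b (l 16773688) (l 16773648))) (b (b (l 16773720) (l 16773672)) (b (l 16773632) (l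 16773592))))) (a (a (a (b (l 16773704) (l 16773632)) (b (l 16773680) (l 16773608))) (a (b (l 16773656) (l 16773584)) (b (l 16773624) (l 16773560)))) (a (a (b (l 16773600) (l 16773528)) (b (l 16773576) (l 16773504))) (a (b (l 16773552) (l 16773480)) (b (l 16773520) (l 16773456))))))), by decide +kernel⟩

def k51_A00pm_102_s1 : ∃ t, chk3 f_A00pm_102_s1 t 510 526 1 = true :=
  ⟨(b (b (a (a (a (l 16774176) (l 16774088)) (c (a (l 16774064) (l 16773976)) (a (l 16773928) (l 16773832)))) (a (a (a (l 16773832) (l 16773784)) (a (l 16773736) (l 16773688))) (a (a (l 16773640) (l 16773592)) (a (c (l 16773616) (l 16773472)) (c (l 16773568) (l 16773416)))))) (a (a (a (l 16774144) (l 16774056)) (c (a (l 16774040) (l 16773944)) (a (l 16773896) (l 16773800)))) (a (a (c (l 16773856) (l 16773704)) (a (l 16773712) (l 16773664))) (a (a (l 16773616) (l 16773568)) (a (l 16773520) (c (l 16773544) (l 16773392))))))) (b (a (a (a (l 16774112) (l 16774024)) (c (a (l 16774008) (l 16773920)) (a (l 16773864) (l 16773768)))) (a (a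 (a (l 16773776) (l 16773728)) (a (l 16773680) (l 16773632))) (a (a (l 16773584) (l 16773536)) (a (l 16773488) (c (l 16773520) (l 16773360)))))) (a (a (a (l 16774080) (l 16773992)) (a (l 16773904) (a (l 16773840) (l 16773792)))) (a (a (a (l 16773744) (l 16773704)) (a (l 16773656) (l 16773608))) (a (a (l 16773560) (l 16773512)) (a (l 16773464) (c (l 16773496) (l 16773336)))))))), by decide +kernel⟩

def k52_A00pm_102_s1 : ∃ t, chk3 f_A00pm_102_s1 t 510 527 1 = true :=
  ⟨(b (b (a (a (a (l 16774056) (l 16773968)) (a (l 16773880) (a (l 16773816) (l 16773768)))) (a (a (a (l 16773720) (l 16773680)) (a (l 16773632) (l 16773584))) (a (a (l 16773536) (l 16773488)) (a (l 16773440) (c (l 16773480) (l 16773312)))))) (a (a (a (l 16774024) (l 16773944)) (a (l 16773856) (a (l 16773792) (l 16773744)))) (a (a (a (l 16773696) (l 16773656)) (a (l 16773608) (l 16773560))) (a (a (l 16773512) (l 16773464)) (a (l 16773424) (c (l 16773456) (l 16773288))))))) (b (a (a (a (l 16774000) (l 16773920)) (a (l 16773832) (a (l 16773768)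 (l 16773720)))) (a (c (a (l 16773736) (l 16773648)) (a (l 16773568) (l 16773480))) (a (a (l 16773496) (l 16773448)) (a (l 16773400) (l 16773352))))) (a (a (a (l 16773976) (l 16773896)) (a (l 16773808) (l 16773720))) (a (c (a (l 16773720) (l 16773632)) (a (l 16773552) (l 16773456))) (a (a (l 16773472) (l 16773432)) (a (l 16773384) (l 16773336))))))), by decide +kernel⟩

def k53_A00pm_102_s1 : ∃ t, chk3 f_A00pm_102_s1 t 2044 262 2 = true :=
  ⟨(b (a (b (a (b (l 16773784) (l 16773744)) (b (c (l 16773760) (l 16773696)) (l 16773688))) (a (b (l 16773704) (l 16773672)) (b (l 16773648) (l 16773616)))) (b (c (a (b (l 16773704) (l 16773664)) (b (l 16773648) (l 16773608))) (a (b (l 16773640) (l 16773600)) (b (l 16773584) (l 16773544)))) (c (a (b (l 16773632) (l 16773600)) (b (l 16773576) (l 16773544))) (a (b (l 16773568) (l 16773528)) (b (l 16773512) (l 16773480)))))) (a (b (a (b (l 16773640) (l 16773608)) (b (l 16773584) (l 16773552))) (a (b (l 16773576) (l 16773544)) (b (l 16773520) (l 16773496)))) (b (a (b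 (l 16773528) (l 16773504)) (b (c (l 16773512) (l 16773440)) (c (l 16773480) (l 16773416)))) (a (b (l 16773472) (l 16773440)) (b (c (l 16773456) (l 16773384)) (l 16773392)))))), by decide +kernel⟩

def k54_A00pm_102_s1 : ∃ t, chk3 f_A00pm_102_s1 t 2045 262 2 = true :=
  ⟨(b (a (b (a (b (a (l 16773576) (l 16773544)) (c (l 16773552) (l 16773488))) (b (a (l 16773512) (l 16773488)) (a (l 16773480) (l 16773448)))) (a (b (c (l 16773520) (l 16773456)) (c (l 16773488) (l 16773424))) (b (a (l 16773448) (l 16773416)) (c (l 16773432) (l 16773368))))) (b (b (a (a (l 16773456) (l 16773432)) (a (l 16773400) (l 16773368))) (a (a (l 16773424) (l 16773392)) (a (l 16773368) (l 16773336)))) (a (b (a (l 16773392) (l 16773360)) (a (l 16773360) (l 16773328))) (b (a (l 16773336) (l 16773304)) (a (l 16773304) (l 16773272)))))) (a (b (c (a (b (l 16773456) (l 16773432)) (b (l 16773408) (l 16773376))) (a (b (l 16773392) (l 16773360)) (b (l 16773336) (l 16773304)))) (c (a (b (l 16773400) (l 16773376)) (b (l 16773352) (l 16773328)))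 (a (a (l 16773328) (l 16773304)) (a (l 16773280) (l 16773248))))) (b (a (b (a (l 16773328) (l 16773304)) (a (l 16773304) (l 16773272))) (b (a (l 16773272) (l 16773248)) (a (l 16773248) (l 16773216)))) (a (b (a (l 16773272) (l 16773248)) (c (l 16773272) (l 16773200))) (b (a (l 16773216) (l 16773192)) (a (l 16773192) (l 16773168))))))), by decide +kernel⟩

def k55_A00pm_102_s1 : ∃ t, chk3 f_A00pm_102_s1 t 1022 263 2 = true :=
  ⟨(a (b (a (a (a (b (l 16773520) (l 16773472)) (b (l 16773496) (l 16773448))) (b (b (l 16773472) (l 16773440)) (a (l 16773424) (l 16773400)))) (a (b (b (l 16773416) (l 16773392)) (b (l 16773368) (l 16773352))) (b (b (l 16773368) (l 16773344)) (b (l 16773320) (l 16773304))))) (a (a (a (b (l 16773432) (l 16773400)) (b (l 16773408) (l 16773376))) (a (b (l 16773384) (l 16773352)) (b (l 16773360) (l 16773328)))) (a (b (b (l 16773328) (l 16773312)) (a (l 16773304) (l 16773280))) (b (b (l 16773280) (l 16773264)) (b (l 16773248) (l 16773232)))))) (b (a (a (b (b (c (l 16773352) (l 16773280))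 (c (l 16773328) (l 16773256))) (b (l 16773272) (l 16773248))) (a (a (b (l 16773272) (l 16773232)) (b (l 16773256) (l 16773216))) (b (b (l 16773248) (l 16773224)) (a (l 16773200) (l 16773192))))) (a (a (b (b (l 16773224) (l 16773200)) (a (l 16773176) (l 16773168))) (b (b (l 16773200) (l 16773176)) (b (l 16773152) (l 16773136)))) (b (b (a (l 16773168) (l 16773144)) (a (l 16773152) (l 16773120))) (b (a (l 16773128) (l 16773104)) (c (l 16773136) (l 16773056)))))) (b (b (a (a (l 16773232) (l 16773184)) (a (c (l 16773176) (l 16773088)) (c (l 16773120) (l 16773040)))) (a (a (l 16773216) (l 16773168)) (a (c (l 16773160) (l 16773072)) (c (l 16773104) (l 16773016))))) (b (a (a (l 16773200) (l 16773152)) (a (c (l 16773144) (l 16773056)) (c (l 16773096) (l 16773000)))) (a (a (l 16773184) (l 16773136)) (a (l 16773088) (c (l 16773080) (l 16772992)))))))), by decide +kernel⟩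

def k56_A00pm_102_s1 : ∃ t, chk3 f_A00pm_102_s1 t 1022 262 3 = true :=
  ⟨(a (b (a (b (a (b (l 16773664) (l 16773624)) (b (l 16773608) (l 16773568))) (a (b (l 16773576) (l 16773536)) (b (l 16773528) (l 16773488)))) (b (a (b (l 16773552) (l 16773512)) (b (l 16773496) (l 16773456))) (a (b (l 16773472) (l 16773432)) (b (l 16773416) (l 16773376))))) (a (a (b (b (l 16773504) (l 16773464)) (a (l 16773432) (l 16773400))) (b (b (l 16773448) (l 16773416)) (a (l 16773376) (l 16773352)))) (b (a (b (l 16773392) (l 16773360)) (b (l 16773344) (l 16773304))) (a (b (l 16773328) (l 16773296)) (b (l 16773272) (l 16773248)))))) (b (a (b (a (b (c (l 16773464) (l 16773408)) (l 16773400)) (b (c (l 16773408) (l 16773352)) (c (l 16773368) (l 16773312)))) (a (b (l 16773360) (l 16773320)) (b (l 16773304) (l 16773264)))) (b (c (a (b (l 16773352) (l 16773312)) (b (l 16773296) (l 16773256))) (a (a (l 16773288) (l 16773256)) (a (l 16773224) (l 16773200)))) (c (a (a (l 16773272) (l 16773248)) (b (l 16773224) (l 16773192))) (a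 (a (l 16773208) (l 16773184)) (a (l 16773152) (l 16773128)))))) (a (b (a (b (l 16773288) (l 16773256)) (b (l 16773232) (l 16773200))) (a (b (l 16773224) (l 16773192)) (b (l 16773168) (l 16773136)))) (b (a (b (l 16773176) (l 16773144)) (a (a (l 16773128) (l 16773112)) (a (l 16773096) (l 16773088)))) (a (b (l 16773112) (l 16773088)) (b (l 16773056) (l 16773032))))))), by decide +kernel⟩

def k57_A00pm_102_s1 : ∃ t, chk3 f_A00pm_102_s1 t 1022 263 3 = true :=
  ⟨(b (a (a (a (a (b (l 16773368) (l 16773312)) (b (l 16773344) (l 16773288))) (a (b (l 16773320) (l 16773264)) (b (l 16773288) (l 16773240)))) (a (a (b (l 16773264) (l 16773208)) (b (l 16773240) (l 16773184))) (a (b (l 16773216) (l 16773160)) (b (l 16773184) (l 16773136))))) (a (a (b (b (l 16773160) (l 16773136)) (a (l 16773112) (l 16773088))) (b (b (l 16773112) (l 16773080)) (a (l 16773056) (l 16773032)))) (a (b (b (l 16773056) (l 16773032)) (b (l 16773008) (l 16772984))) (b (b (l 16773000) (l 16772976)) (b (l 16772952) (l 16772928)))))) (a (b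 (a (a (a (l 16773264) (l 16773240)) (a (l 16773216) (l 16773192))) (a (a (l 16773168) (l 16773136)) (a (l 16773112) (l 16773088)))) (a (a (c (l 16773256) (l 16773168)) (a (l 16773168) (l 16773144))) (a (a (l 16773120) (l 16773096)) (a (l 16773072) (l 16773048))))) (a (a (a (b (l 16773064) (l 16773024)) (b (l 16773040) (l 16773000))) (a (b (l 16773016) (l 16772976)) (b (l 16772984) (l 16772952)))) (a (a (b (l 16772960) (l 16772920)) (b (l 16772936) (l 16772896))) (a (b (l 16772912) (l 16772872)) (b (l 16772888) (l 16772848))))))), by decide +kernel⟩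

def k58_A00pm_102_s1 : ∃ t, chk3 f_A00pm_102_s1 t 2046 524 1 = true :=
  ⟨(a (c (b (b (b (a (l 16773336) (l 16773280)) (a (l 16773320) (l 16773264))) (b (a (l 16773304) (l 16773248)) (a (l 16773288) (l 16773232)))) (b (b (a (l 16773272) (l 16773216)) (a (l 16773256) (l 16773200))) (a (a (l 16773248) (l 16773216)) (a (l 16773192) (l 16773160))))) (b (c (a (b (l 16773232) (l 16773200)) (b (l 16773176) (l 16773144))) (a (a (l 16773168) (l 16773136)) (a (l 16773112) (l 16773080)))) (c (a (a (l 16773160) (l 16773136)) (a (l 16773104) (l 16773080))) (a (a (l 16773096) (l 16773064)) (a (l 16773040) (l 16773008)))))) (a (a (b (b (c (l 16773224) (l 16773104)) (c (l 16773192) (l 16773064))) (b (c (l 16773160) (l 16773032)) (c (l 16773136) (l 16773000)))) (b (b (c (l 16773192) (l 16773072)) (c (l 16773168) (l 16773032))) (b (c (l 16773136) (l 16773000)) (c (l 16773104) (l 16772968))))) (a (b (b (c (l 16773168) (l 16773040)) (c (l 16773136) (l 16773008))) (b (c (l 16773104) (l 16772968)) (c (l 16773080) (l 16772936))))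 (b (b (c (l 16773136) (l 16773008)) (c (l 16773104) (l 16772976))) (b (c (l 16773080) (l 16772944)) (c (l 16773048) (l 16772912))))))), by decide +kernel⟩

def k59_A00pm_102_s1 : ∃ t, chk3 f_A00pm_102_s1 t 2046 525 1 = true :=
  ⟨(b (b (a (a (a (c (l 16773216) (l 16773080)) (c (l 16773192) (l 16773048))) (a (c (l 16773160) (l 16773024)) (c (l 16773136) (l 16772992)))) (a (a (c (l 16773104) (l 16772968)) (c (l 16773080) (l 16772936))) (a (c (l 16773048) (l 16772912)) (c (l 16773024) (l 16772880))))) (a (a (a (c (l 16773192) (l 16773048)) (c (l 16773168) (l 16773024))) (a (c (l 16773136) (l 16772992)) (c (l 16773112) (l 16772968)))) (a (a (c (l 16773080) (l 16772936)) (c (l 16773056) (l 16772904))) (a (c (l 16773024) (l 16772880)) (c (l 16773000) (l 16772848)))))) (a (b (a (a (c (l 16773168) (l 16773016)) (c (l 16773136) (l 16772992))) (a (c (l 16773112) (l 16772960)) (c (l 16773088) (l 16772936)))) (a (c (a (l 16773144) (l 16773112)) (l 16772976)) (a (c (l 16773088) (l 16772936)) (c (l 16773064) (l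 16772904))))) (b (a (a (c (l 16773056) (l 16772904)) (c (l 16773032) (l 16772880))) (a (c (l 16773000) (l 16772848)) (c (l 16772976) (l 16772824)))) (a (a (c (l 16773032) (l 16772880)) (c (l 16773008) (l 16772856))) (a (c (l 16772976) (l 16772824)) (c (l 16772952) (l 16772800))))))), by decide +kernel⟩

def k60_A00pm_102_s1 : ∃ t, chk3 f_A00pm_102_s1 t 2046 526 1 = true :=
  ⟨(b (a (b (a (c (a (l 16773120) (l 16773096)) (l 16772952)) (a (c (l 16773064) (l 16772912)) (c (l 16773040) (l 16772880)))) (a (c (a (l 16773096) (l 16773072)) (l 16772928)) (c (a (l 16773048) (l 16773016)) (l 16772872)))) (b (a (a (c (l 16773008) (l 16772856)) (c (l 16772984) (l 16772824))) (a (c (l 16772960) (l 16772800)) (c (l 16772928) (l 16772768)))) (a (a (c (l 16772992) (l 16772832)) (c (l 16772968) (l 16772800))) (a (c (l 16772936) (l 16772776)) (c (l 16772912) (l 16772744)))))) (a (b (a (c (a (l 16773080) (l 16773048)) (l 16772896)) (c (a (l 16773024) (l 16773000)) (l 16772848))) (a (c (a (l 16773056) (l 16773032)) (l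 16772880)) (c (a (l 16773008) (l 16772984)) (l 16772824)))) (b (a (a (c (l 16772968) (l 16772808)) (c (l 16772944) (l 16772776))) (a (c (l 16772920) (l 16772752)) (c (l 16772888) (l 16772728)))) (a (c (a (l 16772952) (l 16772928)) (l 16772768)) (a (c (l 16772904) (l 16772728)) (c (l 16772872) (l 16772704))))))), by decide +kernel⟩

def k61_A00pm_102_s1 : ∃ t, chk3 f_A00pm_102_s1 t 2046 527 1 = true :=
  ⟨(b (b (c (a (a (a (l 16773040) (l 16773016)) (a (l 16772992) (l 16772960))) (a (a (l 16772936) (l 16772912)) (a (l 16772888) (l 16772856)))) (a (a (l 16772856) (l 16772800)) (a (l 16772752) (c (l 16772744) (l 16772656))))) (c (a (a (a (l 16773024) (l 16773000)) (a (l 16772976) (l 16772944))) (a (a (l 16772920) (l 16772896)) (a (l 16772872) (l 16772840)))) (a (a (l 16772832) (l 16772784)) (a (l 16772728) (l 16772680))))) (b (c (a (a (c (l 16773040) (l 16772952)) (a (l 16772960) (l 16772936))) (a (a (l 16772904) (l 16772880)) (a (l 16772856) (l 16772832)))) (a (a (l 16772816) (l 16772768)) (a (l 16772712)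 (l 16772656)))) (c (a (a (c (l 16773032) (l 16772936)) (a (l 16772944) (l 16772920))) (a (a (l 16772896) (l 16772872)) (a (l 16772840) (l 16772816)))) (a (a (l 16772800) (l 16772744)) (a (l 16772696) (l 16772640)))))), by decide +kernel⟩

def k62_A00pm_102_s1 : ∃ t, chk3 f_A00pm_102_s1 t 8188 131 1 = true :=
  ⟨(a (b (b (b (b (c (l 16773104) (l 16772976)) (c (l 16773072) (l 16772944))) (b (c (l 16773048) (l 16772912)) (c (l 16773016) (l 16772880)))) (b (b (c (l 16772992) (l 16772848)) (c (l 16772968) (l 16772824))) (b (c (l 16772944) (l 16772792)) (c (l 16772920) (l 16772768))))) (b (b (b (c (l 16772904) (l 16772744)) (c (l 16772880) (l 16772720))) (b (c (l 16772864) (l 16772696)) (c (c (l 16772888) (l 16772808)) (l 16772672)))) (b (a (c (c (l 16772872) (l 16772784)) (l 16772656)) (c (c (l 16772864) (l 16772776)) (l 16772640))) (b (c (l 16772800) (l 16772616)) (c (c (l 16772840) (l 16772744)) (l 16772600)))))) (b (b (b (b (c (l 16773072) (l 16772952)) (c (l 16773048) (l 16772912))) (b (c (l 16773016)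 (l 16772880)) (c (l 16772992) (l 16772856)))) (b (b (c (l 16772968) (l 16772824)) (c (l 16772944) (l 16772792))) (b (c (l 16772920) (l 16772768)) (c (l 16772896) (l 16772744))))) (c (a (b (b (c (l 16772912) (l 16772832)) (c (l 16772880) (l 16772792))) (b (c (l 16772848) (l 16772760)) (c (l 16772824) (l 16772728)))) (b (b (c (l 16772896) (l 16772816)) (c (l 16772864) (l 16772776))) (b (c (l 16772832) (l 16772744)) (c (l 16772808) (l 16772720))))) (b (b (c (l 16772744) (l 16772664)) (c (l 16772704) (l 16772616))) (b (c (l 16772664) (l 16772576)) (c (l 16772632) (l 16772536))))))), by decide +kernel⟩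

def k63_A00pm_102_s1 : ∃ t, chk3 f_A00pm_102_s1 t 8189 131 1 = true :=
  ⟨(a (b (b (b (b (c (l 16773048) (l 16772920)) (c (l 16773016) (l 16772888))) (b (c (l 16772992) (l 16772856)) (c (l 16772960) (l 16772824)))) (b (b (c (l 16772936) (l 16772792)) (c (l 16772912) (l 16772768))) (b (c (l 16772888) (l 16772736)) (c (c (l 16772904) (l 16772832)) (l 16772712))))) (b (b (a (c (c (l 16772888) (l 16772800)) (l 16772680)) (c (c (l 16772872) (l 16772792)) (l 16772672))) (a (c (c (l 16772848) (l 16772768)) (l 16772640)) (c (c (l 16772840) (l 16772752)) (l 16772624)))) (b (a (c (c (l 16772824) (l 16772736)) (l 16772600)) (c (c (l 16772808) (l 16772720)) (l 16772584))) (b (c (c (l 16772800) (l 16772704)) (l 16772568)) (c (c (l 16772784) (l 16772688)) (l 16772552)))))) (b (b (b (b (c (l 16773016) (l 16772888)) (c (l 16772984) (l 16772856))) (b (c (l 16772960) (l 16772824)) (c (l 16772936) (l 16772792)))) (b (b (c (l 16772904) (l 16772768)) (c (c (l 16772920) (l 16772848)) (l 16772736))) (b (c (l 16772864)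 (l 16772712)) (c (c (l 16772880) (l 16772800)) (l 16772680))))) (b (b (a (c (c (l 16772856) (l 16772776)) (l 16772656)) (c (c (l 16772840) (l 16772760)) (l 16772640))) (a (c (c (l 16772824) (l 16772736)) (l 16772608)) (c (c (l 16772808) (l 16772728)) (l 16772600)))) (b (a (c (c (l 16772792) (l 16772704)) (l 16772568)) (c (c (l 16772784) (l 16772696)) (l 16772560))) (b (c (c (l 16772768) (l 16772680)) (l 16772536)) (c (c (l 16772760) (l 16772664)) (l 16772520))))))), by decide +kernel⟩

def k64_A00pm_102_s1 : ∃ t, chk3 f_A00pm_102_s1 t 4095 524 1 = true :=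
  ⟨(a (a (b (b (c (l 16772984) (l 16772856)) (c (l 16772960) (l 16772824))) (b (c (l 16772928) (l 16772792)) (c (l 16772904) (l 16772760)))) (b (b (c (l 16772952) (l 16772824)) (c (l 16772928) (l 16772792))) (b (c (l 16772896) (l 16772760)) (c (l 16772872) (l 16772736))))) (a (b (b (c (l 16772920) (l 16772800)) (c (l 16772896) (l 16772768))) (b (c (l 16772872) (l 16772736)) (c (l 16772848) (l 16772704)))) (a (b (c (c (l 16772920) (l 16772856)) (l 16772760)) (c (c (l 16772872) (l 16772800)) (l 16772696))) (a (b (c (l 16772872) (l 16772744)) (c (l 16772824) (l 16772688))) (b (b (c (c (c (l 16772928) (l 16772896)) (b (l 16772856) (l 16772840))) (c (c (l 16772800) (l 16772768)) (l 16772720))) (c (c (c (l 16772904) (l 16772872)) (b (l 16772832) (l 16772816))) (c (c (l 16772768) (l 16772736)) (l 16772688)))) (b (c (b (b (l 16772840) (l 16772832)) (c (l 16772856) (l 16772784))) (c (c (l 16772744) (l 16772712)) (l 16772656))) (c (b (c (l 16772848) (l 16772776)) (c (l 16772832) (l 16772760))) (c (c (l 16772712)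 (l 16772680)) (l 16772624))))))))), by decide +kernel⟩

def k65_A00pm_102_s1 : ∃ t, chk3 f_A00pm_102_s1 t 4095 525 1 = true :=
  ⟨(a (a (b (b (c (l 16772880) (l 16772736)) (c (c (l 16772888) (l 16772816)) (l 16772704))) (b (c (l 16772832) (l 16772680)) (c (c (l 16772848) (l 16772776)) (l 16772656)))) (b (b (c (l 16772848) (l 16772704)) (c (c (l 16772864) (l 16772792)) (l 16772680))) (a (c (c (l 16772840) (l 16772760)) (l 16772648)) (c (c (l 16772824) (l 16772744)) (l 16772632))))) (b (a (b (c (l 16772824) (l 16772672)) (c (c (l 16772832) (l 16772760)) (l 16772648))) (a (c (c (l 16772824) (l 16772752)) (l 16772640)) (a (c (l 16772776) (l 16772632)) (b (c (c (c (c (l 16772840) (l 16772824)) (l 16772800)) (b (l 16772752) (l 16772736))) (c (c (l 16772688) (l 16772656)) (l 16772600))) (c (c (c (c (l 16772824) (l 16772800)) (l 16772776)) (b (l 16772728) (l 16772712))) (c (c (l 16772664) (l 16772624)) (l 16772568))))))) (a (a (c (c (l 16772808) (l 16772736)) (l 16772616)) (c (c (l 16772800) (l 16772720))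 (l 16772600))) (c (a (c (l 16772784) (l 16772704)) (b (b (c (c (l 16772800) (l 16772760)) (l 16772704)) (c (c (l 16772792) (l 16772752)) (l 16772696))) (b (c (c (l 16772784) (l 16772744)) (l 16772688)) (c (c (l 16772776) (l 16772736)) (l 16772672))))) (b (b (c (l 16772640) (l 16772560)) (b (l 16772592) (l 16772584))) (b (c (l 16772616) (l 16772536)) (b (l 16772568) (l 16772560)))))))), by decide +kernel⟩

def k66_A00pm_102_s1 : ∃ t, chk3 f_A00pm_102_s1 t 8190 263 1 = true :=
  ⟨(b (a (b (a (c (c (l 16772832) (l 16772752)) (l 16772624)) (c (c (l 16772816) (l 16772736)) (l 16772616))) (a (c (c (l 16772800) (l 16772712)) (l 16772584)) (c (c (l 16772784) (l 16772696)) (l 16772568)))) (b (a (c (c (l 16772800) (l 16772720)) (l 16772600)) (c (c (l 16772784) (l 16772704)) (l 16772584))) (a (c (c (l 16772768) (l 16772680)) (l 16772552)) (c (c (l 16772752) (l 16772672)) (l 16772544))))) (a (b (a (c (c (l 16772768) (l 16772680)) (l 16772544)) (c (c (l 16772752) (l 16772664)) (l 16772528))) (b (c (c (l 16772744)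 (l 16772648)) (l 16772512)) (c (c (l 16772736) (l 16772640)) (l 16772496)))) (b (a (c (c (l 16772744) (l 16772648)) (l 16772520)) (c (c (l 16772728) (l 16772640)) (l 16772504))) (b (c (c (l 16772720) (l 16772624)) (l 16772488)) (c (c (l 16772704) (l 16772608)) (l 16772472)))))), by decide +kernel⟩

def k67_A00pm_102_s1 : ∃ t, chk3 f_A00pm_102_s1 t 16382 263 1 = true :=
  ⟨(b (b (a (c (c (l 16772776) (l 16772696)) (l 16772568)) (c (c (l 16772760) (l 16772680)) (l 16772552))) (a (c (c (l 16772744) (l 16772656)) (l 16772528)) (c (c (l 16772728) (l 16772640)) (l 16772512)))) (b (b (c (c (l 16772712) (l 16772624)) (l 16772488)) (c (c (l 16772704) (l 16772608)) (l 16772472))) (b (c (c (l 16772688) (l 16772600)) (l 16772456)) (c (b (l 16772632) (l 16772632)) (l 16772440))))), by decide +kernel⟩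

def k68_A00pm_102_s1 : ∃ t, chk3 f_A00pm_102_s1 t 16383 263 1 = true :=
  ⟨(b (b (c (a (c (l 16772744) (l 16772664)) (b (b (c (c (l 16772768) (l 16772728)) (l 16772664)) (c (c (l 16772760) (l 16772720)) (l 16772656))) (a (l 16772688) (c (c (c (l 16772752) (l 16772728)) (c (l 16772712) (l 16772688))) (c (l 16772656) (l 16772616)))))) (b (b (c (l 16772592) (l 16772512)) (b (l 16772544) (l 16772536))) (b (c (l 16772568) (l 16772488)) (b (l 16772520) (l 16772512))))) (c (a (c (l 16772712) (l 16772632)) (b (a (l 16772672) (c (c (c (l 16772736) (l 16772712)) (c (l 16772696) (l 16772672))) (c (l 16772640) (l 16772600)))) (a (l 16772656) (b (c (c (l 16772712) (l 16772672)) (l 16772608)) (c (c (l 16772712) (l 16772664)) (l 16772600)))))) (b (b (c (l 16772552) (l 16772464)) (b (l 16772504) (l 16772496))) (b (c (l 16772528) (l 16772448)) (b (l 16772480) (l 16772472)))))) (b (c (a (b (l 16772648) (l 16772632)) (b (a (l 16772640) (b (c (c (l 16772704) (l 16772656)) (l 16772592)) (c (c (l 16772696) (l 16772648))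 (l 16772584)))) (b (b (c (l 16772672) (l 16772584)) (b (c (l 16772672) (l 16772576)) (b (l 16772624) (c (l 16772672) (l 16772576))))) (c (l 16772664) (l 16772576))))) (a (l 16772464) (a (l 16772448) (b (c (c (l 16772520) (l 16772472)) (l 16772408)) (b (b (l 16772440) (b (l 16772440) (c (l 16772480) (l 16772392)))) (l 16772432)))))) (a (c (b (l 16772624) (a (l 16772616) (l 16772608))) (l 16772432)) (b (c (c (c (l 16772680) (l 16772632)) (l 16772560)) (l 16772424)) (c (c (c (l 16772672) (l 16772624)) (l 16772552)) (l 16772408)))))), by decide +kernel⟩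

def k69_A00pm_102_s1 : ∃ t, chk3 f_A00pm_102_s1 t 124 33 1 = true :=
  ⟨(a (b (l 3) (c (b (l 588559247) (b (l 590560143) (l 591510927))) (a (b (a (l 3) (l 566812303)) (b (l 571535759) (l 573653647))) (b (c (l 570204047) (b (l 556510095) (l 560512655))) (b (l 569094543) (l 571604367)))))) (a (b (l 3) (c (b (l 585592975) (l 589183887)) (b (a (b (l 559541903) (l 563577999)) (b (l 555992975) (l 561723279))) (b (c (l 571774095) (l 560663183)) (l 569188495))))) (b (b (l 3) (b (l 3) (c (c (l 585762703) (l 570551183)) (a (c (l 556701071) (l 541528207)) (c (l 552552079) (l 538380687)))))) (c (b (c (l 589811855) (l 576395663)) (l 587593615)) (a (b (b (c (l 561791119) (l 548083343)) (l 559709327)) (b (l 563716495) (l 567081359))) (b (b (c (l 559453071) (l 545208975)) (c (l 564082063) (l 550962063))) (b (c (l 567938703) (l 555818639)) (l 565536911)))))))), by decide +kernel⟩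

def k70_A00pm_102_s1 : ∃ t, chk3 f_A00pm_102_s1 t 125 66 1 = true :=
  ⟨(a (b (a (l 3) (b (l 3) (a (b (l 3) (l 537154959)) (b (l 536340879) (l 536396431))))) (c (c (a (b (l 577740175) (l 582223759)) (b (a (l 573722511) (l 570687119)) (l 577308047))) (a (b (a (l 561213583) (c (l 562587535) (l 553075855))) (a (l 566990479) (l 564332687))) (b (a (b (l 552398479) (l 556278671)) (b (l 547172495) (l 552530063))) (a (c (l 565804943) (l 557011087)) (b (l 556396943) (l 559889807)))))) (a (b (a (l 536519311) (l 536494991)) (a (b (l 540864655) (l 543745423)) (b (l 536999311) (l 541020559)))) (b (a (l 536604047) (b (l 536416911) (l 536475279))) (a (l 536589199) (b (l 536534415) (l 536594319))))))) (a (b (b (b (l 3) (a (a (l 3) (l 536256655)) (a (l 536243087) (l 536229007)))) (a (b (l 536313999) (l 536369295)) (b (a (l 536295823) (l 536281743)) (l 536609679)))) (a (b (b (l 536426639) (l 536705679)) (c (c (l 573857679) (b (l 551589775) (l 556517007))) (b (l 536507023) (l 536566671)))) (b (b (l 536398223) (l 536456591))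 (b (l 536618383) (c (c (l 16828976) (a (l 16790384) (l 16778816))) (l 536537999)))))) (a (a (b (b (b (l 536165519) (l 536214927)) (b (l 536267407) (l 536322447))) (b (l 536405903) (l 536568207))) (b (b (b (l 536151183) (l 536200335)) (b (l 536252815) (l 536307855))) (b (l 536391055) (l 536509327)))) (b (b (b (a (l 536136591) (l 536121743)) (a (l 536185743) (l 536170895))) (b (a (l 536238223) (l 536223119)) (a (l 536293007) (l 536277903)))) (b (b (a (l 536349583) (l 536334479)) (a (l 536407695) (l 536392335))) (b (a (l 536466319) (l 16776504)) (a (l 16776584) (l 16776512)))))))), by decide +kernel⟩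

def k71_A00pm_102_s1 : ∃ t, chk3 f_A00pm_102_s1 t 125 134 1 = true :=
  ⟨(a (c (c (a (l 587296143) (l 583899279)) (a (b (l 570675599) (l 574733455)) (b (a (l 567143567) (l 564509071)) (a (l 571833231) (l 569675663))))) (a (c (b (a (l 556903055) (l 554120335)) (a (l 561957007) (l 559639695))) (b (a (l 542089359) (l 538701455)) (a (l 548333967) (l 544141455)))) (a (b (b (l 541178255) (l 543765903)) (c (l 557111951) (a (l 543186575) (l 541575311)))) (b (a (l 540331663) (l 538419087)) (c (b (l 552818063) (l 16794096)) (a (l 539895695) (l 538144911))))))) (c (c (a (b (a (l 579089807) (l 576679823)) (l 582371727)) (a (b (l 573999247) (l 16884480)) (b (c (l 16865928) (l 566016655)) (l 16887312)))) (a (a (b (l 560535951) (l 567302799)) (b (b (l 556638863) (l 16801456)) (l 563081103))) (b (a (b (l 16776624) (c (l 16830416) (l 551295119))) (a (b (l 16783472) (l 16796280)) (b (l 16780200) (l 16793464)))) (a (b (l 16791584) (l 16847552)) (b (a (l 16831056) (l 16786744)) (l 16802832)))))) (a (a (b (a (l 536664207)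 (l 536649871)) (c (a (l 552115343) (l 549467279)) (b (l 16776936) (l 537328015)))) (b (a (l 536635535) (l 536620943)) (b (l 536889999) (a (l 16780272) (l 16776384))))) (a (b (a (l 536606095) (l 536591247)) (a (l 536782223) (b (l 16776752) (l 16777224)))) (b (a (b (l 16776544) (l 16776600)) (b (l 16776472) (l 16776536))) (a (b (l 16776688) (l 16776800)) (b (l 16776624) (l 16776744)))))))), by decide +kernel⟩

def k72_A00pm_102_s1 : ∃ t, chk3 f_A00pm_102_s1 t 125 135 1 = true :=
  ⟨(a (c (a (b (l 584449679) (l 16892400)) (b (l 581738383) (l 16907936))) (c (a (b (b (l 564213903) (l 16834320)) (l 568905103)) (b (a (l 562128783) (l 558758543)) (a (l 16854896) (l 16855840)))) (a (b (a (l 553600143) (b (l 16779744) (l 16809288))) (a (l 558048143) (l 556017807))) (b (a (b (l 16777040) (l 16786016)) (b (l 543383183) (l 16782136))) (a (b (l 16816784) (l 16827264)) (b (l 16792432) (l 16824408))))))) (b (b (a (a (a (l 16779616) (l 16779528)) (a (l 16779024) (l 16778080))) (a (c (l 16801904) (a (l 16778144) (l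 16778688))) (c (l 16802816) (a (l 537416079) (l 536788111))))) (a (a (a (l 16792536) (l 16792712)) (a (l 16782016) (l 16781392))) (a (a (l 16780344) (l 16778824)) (a (l 16776808) (b (l 16780840) (l 16778200)))))) (b (a (c (l 16912312) (a (l 16776192) (l 16776840))) (b (a (l 16780264) (c (l 16916336) (a (l 16786624) (c (l 16789088) (l 16777120))))) (a (l 16777320) (a (l 16780488) (l 16778488))))) (a (a (l 16799304) (a (l 16799992) (l 16800008))) (c (l 16852776) (a (a (l 16791064) (l 16777224)) (b (a (l 16780096) (l 16775488)) (l 16780144)))))))), by decide +kernel⟩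

def k73_A00pm_102_s1 : ∃ t, chk3 f_A00pm_102_s1 t 126 528 1 = true :=
  ⟨(b (a (a (a (a (l 536096143) (l 536080783)) (a (l 536065423) (l 536049551))) (a (a (l 536033679) (l 536017551)) (a (l 536000911) (l 535984271)))) (a (a (a (a (l 16776168) (l 16776104)) (a (l 16776048) (l 16775984))) (a (a (l 16775912) (l 16775848)) (a (l 16775784) (l 16775712)))) (b (a (a (a (l 16775664) (l 16775592)) (a (l 16775520) (l 16775448))) (a (a (l 16775376) (l 16775296)) (a (a (b (l 16775248) (l 16775240)) (b (b (a (l 16775216) (l 16775208)) (l 16775208)) (l 16775192))) (l 16775160)))) (a (a (a (l 16775624) (l 16775552)) (a (l 16775480) (l 16775408))) (a (a (l 16775336) (a (l 16775280) (c (l 16775312) (l 16775184)))) (a (b (a (l 16775208) (l 16775184)) (l 16775176)) (l 16775128))))))) (a (a (a (a (l 536119695) (l 536104335)) (a (l 536088719) (l 536073103))) (a (a (l 536056975) (l 536040847)) (a (l 536024207) (l 536275855)))) (b (a (a (a (l 16776080) (l 16775952)) (a (l 16775824) (a (l 16775720) (l 16775656)))) (a (a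 (a (l 16775584) (l 16775512)) (a (l 16775440) (l 16775368))) (a (a (l 16775296) (a (a (l 16775248) (l 16775240)) (b (l 16775208) (l 16775192)))) (a (l 16775160) (l 16775096))))) (a (a (a (l 16776040) (l 16775912)) (a (l 16775784) (a (l 16775688) (l 16775616)))) (a (a (a (l 16775544) (l 16775480)) (a (l 16775408) (l 16775336))) (a (b (a (l 16775272) (a (l 16775208) (l 16775184))) (a (a (l 16775272) (l 16775240)) (l 16775184))) (a (l 16775128) (l 16775064)))))))), by decide +kernel⟩

def k74_A00pm_102_s1 : ∃ t, chk3 f_A00pm_102_s1 t 126 529 2 = true :=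
  ⟨(a (a (a (a (l 536190863) (l 536175503)) (a (l 536159631) (l 536143759))) (a (a (l 536127375) (l 536110991)) (a (l 536228495) (b (l 16776152) (l 16776088))))) (a (a (a (b (l 536182927) (l 16775976)) (a (l 536049039) (l 536040335))) (a (a (l 536098703) (b (l 16775760) (l 16775696))) (a (b (l 16775688) (l 16775632)) (b (l 16775624) (l 16775568))))) (a (a (a (b (l 16775560) (l 16775496)) (b (l 16775488) (l 16775432))) (b (a (l 16775416) (a (l 16775368) (b (l 16775344) (l 16775328)))) (b (a (l 16775376) (a (l 16775328) (l 16775280))) (a (a (l 16775368) (l 16775336)) (l 16775272))))) (a (a (b (b (a (l 16775320) (l 16775264)) (l 16775256)) (l 16775232)) (b (c (l 16775256) (l 16775184)) (l 16775168))) (a (b (l 16775160) (l 16775104)) (b (l 16775096) (l 16775040))))))), by decide +kernel⟩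

def k75_A00pm_102_s1 : ∃ t, chk3 f_A00pm_102_s1 t 126 529 6 = true :=
  ⟨(a (a (a (a (l 536138127) (l 536123023)) (a (l 536107407) (l 536091791))) (a (a (l 536075663) (l 536059535)) (a (b (l 16776200) (l 16776128)) (b (l 16776080) (l 16776016))))) (a (a (a (b (l 536131983) (l 16775896)) (a (l 535998351) (l 535989647))) (a (a (b (l 16775736) (l 16775672)) (b (l 16775672) (l 16775608))) (a (b (l 16775600) (l 16775536)) (b (l 16775536) (l 16775472))))) (a (a (a (b (l 16775464) (l 16775400)) (b (l 16775392) (l 16775328))) (b (a (l 16775320) (a (l 16775264) (a (l 16775248) (b (l 16775240) (l 16775208))))) (a (a (l 16775272) (a (l 16775264) (b (l 16775248) (l 16775216)))) (b (a (a (l 16775232) (l 16775208)) (l 16775176)) (l 16775168))))) (a (b (a (b (a (a (l 16775224) (l 16775208)) (l 16775168)) (l 16775152)) (b (l 16775128) (l 16775096))) (a (b (l 16775136) (l 16775112)) (l 16775056))) (b (a (l 16775048) (l 16774984)) (a (l 16774992) (l 16774928))))))), by decide +kernel⟩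

def k76_A00pm_102_s1 : ∃ t, chk3 f_A00pm_102_s1 t 126 529 7 = true :=
  ⟨(a (a (a (a (l 536103311) (l 536087951)) (a (l 536072591) (l 536057231))) (a (a (l 536041359) (l 536293519)) (a (b (l 535997327) (l 16776088)) (b (l 535980943) (l 16775968))))) (a (a (a (a (l 535981455) (l 535973007)) (a (l 535964559) (l 536023183))) (a (a (b (l 16775680) (l 16775616)) (b (l 16775616) (l 16775544))) (a (b (l 16775544) (l 16775472)) (b (l 16775472) (l 16775408))))) (a (a (a (b (l 16775400) (l 16775336)) (b (l 16775328) (c (l 16775280) (l 16775240)))) (b (a (a (l 16775272) (l 16775240)) (a (l 16775200) (a (l 16775184) (b (l 16775168) (l 16775136))))) (a (a (l 16775208) (b (l 16775184) (a (l 16775168) (l 16775144)))) (b (a (a (l 16775168) (l 16775136)) (l 16775104)) (l 16775096))))) (a (b (a (a (b (a (l 16775152) (l 16775136)) (l 16775096)) (b (l 16775096) (l 16775080))) (b (l 16775056) (l 16775032))) (a (b (l 16775064) (l 16775040)) (l 16774984))) (b (a (b (l 16774992) (l 16774960)) (l 16774912)) (a (l 16774920)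 (l 16774848))))))), by decide +kernel⟩

def k77_A00pm_102_s1 : ∃ t, chk3 f_A00pm_102_s1 t 126 265 2 = true :=
  ⟨(a (a (a (b (a (l 536243343) (l 536227727)) (a (l 536298127) (l 536282511))) (a (b (l 536211855) (l 536266639)) (b (l 536195983) (l 536250511)))) (a (a (b (l 536179599) (l 536234127)) (b (l 536162959) (l 536217487))) (a (b (b (l 16776144) (l 16776096)) (a (l 16776064) (l 16776008))) (b (b (l 16776032) (l 16775984)) (b (l 16775944) (l 16775912)))))) (a (a (a (b (b (l 16775920) (l 16775872)) (b (l 16775832) (l 16775800))) (a (b (l 536100495) (l 536154767)) (b (l 536091791) (l 536145807)))) (b (a (a (b (l 16775704) (l 16775664)) (b (l 16775648) (l 16775600))) (a (b (l 16775584) (l 16775536)) (b (l 16775512) (l 16775472)))) (b (a (a (l 16775624) (l 16775560)) (a (l 16775496) (a (l 16775464) (b (l 16775440) (l 16775400))))) (b (a (l 16775568) (a (l 16775496) (l 16775400))) (a (l 16775560) (a (l 16775464) (l 16775400))))))) (a (b (a (b (a (l 16775448) (a (l 16775400) (b (l 16775376) (l 16775352))))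 (b (a (l 16775424) (a (l 16775360) (l 16775336))) (a (a (l 16775424) (l 16775376)) (l 16775328)))) (a (b (a (b (l 16775344) (l 16775320)) (l 16775296)) (l 16775272)) (b (l 16775248) (l 16775208)))) (a (a (b (b (l 16775360) (l 16775360)) (l 16775336)) (b (l 16775304) (l 16775272))) (b (a (l 16775240) (l 16775168)) (l 16775168)))) (b (a (a (b (l 16775184) (l 16775144)) (b (l 16775120) (l 16775080))) (a (b (l 16775056) (l 16775008)) (b (l 16774984) (l 16774936)))) (a (b (a (l 16775104) (l 16775032)) (l 16775024)) (b (l 16774928) (l 16774880))))))), by decide +kernel⟩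

def k78_A00pm_102_s1 : ∃ t, chk3 f_A00pm_102_s1 t 252 265 3 = true :=
  ⟨(a (a (b (a (l 536172687) (l 536157583)) (a (l 536227215) (l 536211855))) (a (b (l 536141967) (l 536196239)) (b (l 536126095) (l 536180367)))) (a (a (b (l 536110223) (l 536164239)) (b (b (l 16776160) (l 16776104)) (b (l 16776048) (l 16776008)))) (a (b (b (l 16776048) (l 16775984)) (b (l 16775936) (l 16775896))) (b (b (l 16775928) (l 16775872)) (b (l 16775824) (l 16775784)))))), by decide +kernel⟩

def k79_A00pm_102_s1 : ∃ t, chk3 f_A00pm_102_s1 t 253 265 3 = true :=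
  ⟨(a (a (a (a (b (l 536049807) (l 536103567)) (b (l 536041359) (l 536094863))) (b (a (b (l 16775712) (l 16775656)) (b (l 16775648) (l 16775592))) (a (b (l 16775608) (l 16775568)) (b (l 16775544) (l 16775504))))) (b (a (a (b (l 16775584) (l 16775528)) (b (l 16775512) (l 16775464))) (a (b (l 16775448) (l 16775392)) (b (l 16775376) (l 16775328)))) (a (a (b (l 16775480) (l 16775440)) (b (l 16775416) (l 16775376))) (b (a (l 16775344) (b (l 16775304) (a (l 16775296) (l 16775248)))) (b (a (l 16775336) (c (l 16775272) (l 16775192))) (a (a (l 16775328) (l 16775272)) (l 16775232))))))) (a (a (a (b (b (l 16775304) (b (l 16775272) (a (l 16775272) (a (l 16775240) (l 16775208))))) (b (a (b (l 16775232) (l 16775216)) (l 16775192)) (l 16775176))) (b (a (b (l 16775256) (b (a (l 16775224) (l 16775200)) (l 16775192))) (b (b (l 16775232) (a (l 16775216) (l 16775192))) (l 16775168))) (b (l 16775144) (l 16775104)))) (a (b (b (b (a (a (l 16775208) (l 16775184)) (l 16775160)) (l 16775152)) (c (l 16775160) (l 16775080)))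 (b (l 16775080) (l 16775032))) (b (b (a (l 16775120) (l 16775088)) (l 16775056)) (b (l 16775008) (l 16774960))))) (b (a (a (b (l 16775032) (l 16774984)) (b (l 16774968) (l 16774912))) (a (b (l 16774896) (l 16774840)) (b (l 16774832) (l 16774768)))) (a (a (b (l 16774936) (l 16774888)) (b (l 16774864) (l 16774816))) (b (a (l 16774792) (l 16774712)) (l 16774696)))))), by decide +kernel⟩

def k80_A00pm_102_s1 : ∃ t, chk3 f_A00pm_102_s1 t 252 133 1 = true :=
  ⟨(a (b (a (a (b (l 536319119) (l 536376719)) (b (l 536303503) (l 536361103))) (a (b (l 536287631) (l 536345231)) (b (l 536271503) (l 536328847)))) (a (a (b (l 16776424) (l 16776440)) (b (l 16776344) (l 16776368))) (a (b (l 16776264) (l 16776280)) (b (l 536387215) (l 16776200))))) (a (b (a (b (l 536389263) (l 536312463)) (b (b (l 16776032) (l 16776008)) (a (l 16776016) (l 16775968)))) (a (b (l 536370575) (b (l 16776096) (l 16776120))) (b (a (l 16776008) (l 16775960)) (b (l 16776008) (l 16776024))))) (a (b (b (b (l 16775928) (l 16775904)) (a (l 16775912)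 (l 16775864))) (a (b (l 16775912) (l 16775944)) (b (l 16775864) (b (l 16775880) (l 16775920))))) (b (b (b (l 16775816) (l 16775800)) (b (l 16775784) (l 16775776))) (a (b (l 16775808) (b (l 16775848) (l 16775816))) (b (b (l 16775752) (l 16775784)) (b (l 16775744) (l 16775760)))))))), by decide +kernel⟩

def k81_A00pm_102_s1 : ∃ t, chk3 f_A00pm_102_s1 t 253 133 1 = true :=
  ⟨(a (b (a (b (a (a (l 536159887) (b (l 16775672) (l 16775656))) (a (b (l 16775616) (l 16775592)) (b (l 16775552) (l 16775536)))) (b (a (l 16775672) (a (l 16775592) (b (l 16775536) (l 16775504)))) (b (a (l 16775664) (a (l 16775584) (l 16775512))) (a (l 16775680) (l 16775512))))) (b (a (a (b (l 16775496) (b (c (l 16775576) (l 16775408)) (c (l 16775544) (l 16775368)))) (b (b (a (l 16775448) (l 16775432)) (a (l 16775448) (l 16775400))) (l 16775392))) (a (b (a (l 16775368) (l 16775344)) (l 16775336)) (b (l 16775296) (l 16775264)))) (a (b (a (l 16775448) (l 16775384)) (l 16775400)) (b (a (l 16775312) (l 16775240)) (l 16775248))))) (a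 (b (b (a (a (l 16775720) (a (l 16775656) (l 16775600))) (l 16775528)) (a (a (l 16775680) (l 16775624)) (l 16775512))) (a (a (l 16775688) (l 16775616)) (a (l 16775536) (l 16775456)))) (b (a (a (l 16775408) (l 16775328)) (a (l 16775256) (l 16775176))) (a (c (l 16775440) (l 16775224)) (c (l 16775280) (l 16775056)))))) (b (a (b (b (a (a (l 16775224) (l 16775152)) (a (l 16775080) (l 16775008))) (a (c (l 16775248) (l 16775064)) (l 16775008))) (a (b (l 16775128) (l 16775096)) (b (l 16774976) (l 16774936)))) (b (b (a (c (l 16774984) (l 16774808)) (l 16774744)) (a (l 16774856) (l 16774696))) (b (a (l 16774816) (l 16774648)) (a (l 16774776) (l 16774608))))) (a (b (a (a (l 16775096) (l 16775008)) (a (l 16774928) (l 16774848))) (a (c (l 16775112) (l 16774888)) (c (l 16774936) (l 16774712)))) (b (a (a (l 16774760) (l 16774672)) (a (l 16774584) (l 16774496))) (a (a (l 16774688) (l 16774592)) (a (l 16774504) (l 16774408))))))), by decide +kernel⟩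

def k82_A00pm_102_s1 : ∃ t, chk3 f_A00pm_102_s1 t 252 134 1 = true :=
  ⟨(a (a (b (a (b (l 16776488) (c (l 16794824) (l 16776464))) (b (l 16776408) (l 16776488))) (c (a (b (l 16810680) (l 16785256)) (b (l 16787760) (l 16783800))) (a (b (l 16776552) (l 16776672)) (b (l 16776480) (l 16776600))))) (a (b (b (l 16776336) (c (l 16778736) (l 16776312))) (b (c (l 16785168) (a (l 16776424) (l 16776384))) (a (b (l 16779408) (l 16776936)) (b (l 16776352) (b (l 16777208) (l 16776088)))))) (b (b (b (l 16776232) (l 16776264)) (b (l 16776312) (l 16776352))) (b (c (b (l 16777440) (a (l 16808192) (l 16785464))) (b (l 16776320) (a (l 16776392) (c (l 16776360) (l 16776240))))) (a (c (l 16790256) (b (l 16776392) (l 16776432))) (c (l 16778256) (l 16776344))))))) (b (b (a (b (a (l 16776144) (l 16776056)) (a (l 16776184) (a (l 16776112) (a (l 16776096) (l 16776048))))) (b (a (c (l 16776320) (a (l 16775896) (l 16775784))) (l 16775800)) (a (l 16775936) (l 16775800)))) (b (a (a (l 16776224) (a (a (l 16776184) (l 16776128))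 (l 16776064))) (a (l 16775960) (l 16775800))) (a (a (a (l 16776304) (a (l 16776272) (l 16776216))) (l 16776128)) (a (l 16775968) (l 16775800))))) (b (b (a (a (a (a (l 16776360) (l 16776304)) (l 16776264)) (l 16776144)) (a (l 16775976) (l 16775800))) (a (a (l 16776320) (l 16776152)) (a (l 16775976) (l 16775800)))) (a (a (c (l 16775640) (a (l 16776256) (l 16776168))) (b (l 16776504) (l 16775216))) (a (a (l 16776032) (l 16775944)) (a (l 16775848) (l 16775760))))))), by decide +kernel⟩

def k83_A00pm_102_s1 : ∃ t, chk3 f_A00pm_102_s1 t 252 135 1 = true :=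
  ⟨(b (b (a (a (a (l 16776192) (a (b (l 16779544) (l 16777088)) (c (l 16800984) (b (l 16776704) (l 16776712))))) (a (c (l 16799768) (b (l 16776552) (l 16776600))) (c (l 16797632) (l 16776416)))) (a (a (c (l 16794848) (l 16776232)) (c (l 16791384) (l 16776048))) (a (l 16775760) (c (l 16782184) (l 16775664))))) (a (c (a (l 16830016) (l 16817440)) (a (a (b (a (l 16783448) (l 16777480)) (c (l 16776944) (l 16776896))) (b (l 16776784) (l 16782392))) (a (l 16776632) (l 16776448)))) (b (a (c (l 16808064) (l 16776160)) (l 16776080)) (a (c (l 16818048) (l 16776168)) (c (l 16811376) (l 16775768)))))) (c (a (a (l 16846512) (a (l 16846192) (l 16845376))) (a (a (l 16844032) (l 16842128)) (b (l 16827424) (l 16848840)))) (a (a (a (b (l 16779568) (l 16784688)) (b (l 16778480) (l 16778944))) (a (b (l 16776656) (l 16783016)) (b (l 16776688) (l 16775872)))) (a (b (a (l 16776280) (l 16776080)) (c (l 16775600) (l 16776120))) (b (a (l 16775872) (l 16775656)) (l 16775768)))))), by decide +kernel⟩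

def k84_A00pm_102_s1 : ∃ t, chk3 f_A00pm_102_s1 t 253 67 1 = true :=
  ⟨(b (a (b (a (a (a (b (l 16775680) (l 16775672)) (b (l 16775600) (l 16775584))) (a (b (l 16775512) (l 16775496)) (b (l 16775432) (l 16775408)))) (b (a (a (l 16775344) (l 16775264)) (c (l 16775248) (l 16775008))) (c (a (l 16775400) (l 16775216)) (a (l 16775152) (l 16774968))))) (a (b (a (a (l 16775664) (l 16775576)) (c (l 16775688) (l 16775304))) (c (a (l 16774992) (l 16777768)) (a (l 16775480) (l 16775280)))) (a (b (a (l 16775296) (l 16775200)) (l 16775224)) (b (a (l 16775104) (l 16775000)) (l 16775016))))) (b (a (b (c (a (l 16775064) (l 16774880)) (a (l 16774832) (l 16774640))) (c (a (l 16775024) (l 16774832)) (a (l 16774768) (l 16774576)))) (b (a (c (l 16774696) (l 16774448)) (c (l 16774496) (l 16774248))) (c (a (l 16774632) (l 16774432)) (a (l 16774368) (l 16774160))))) (a (a (b (c (l 16774992) (l 16774720)) (l 16774808)) (b (c (l 16774784) (l 16774512)) (l 16774592))) (a (b (c (l 16774576) (l 16774296)) (l 16774368)) (b (c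 (l 16774360) (l 16774080)) (l 16774144)))))) (a (b (b (a (a (l 16775608) (l 16775408)) (a (l 16775200) (l 16774984))) (a (c (l 16775048) (a (l 16775448) (l 16775240))) (a (l 16775176) (l 16774952)))) (b (a (a (c (l 16821376) (l 16775440)) (l 16775192)) (a (l 16775352) (l 16774440))) (a (c (l 16841888) (l 16775312)) (b (c (l 16825872) (l 16774840)) (l 16774512))))) (b (a (a (b (l 16774760) (l 16774720)) (b (l 16774536) (l 16774488))) (a (b (l 16774312) (l 16774248)) (b (l 16774072) (l 16774000)))) (a (b (a (l 16774680) (l 16774432)) (b (c (l 16791176) (l 16774352)) (l 16773360))) (a (b (l 16774184) (l 16774128)) (b (l 16773928) (l 16773864))))))), by decide +kernel⟩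

def k85_A00pm_102_s1 : ∃ t, chk3 f_A00pm_102_s1 t 508 132 1 = true :=
  ⟨(b (a (b (b (a (a (b (l 16775096) (l 16775064)) (a (l 16775032) (l 16775000))) (a (a (l 16774968) (l 16774936)) (a (l 16774904) (l 16774872)))) (a (a (a (l 16775032) (l 16775000)) (a (l 16774968) (l 16774936))) (a (l 16774888) (l 16774816)))) (a (a (b (a (l 16774976) (l 16774936)) (l 16774896)) (b (l 16774888) (l 16774824))) (a (b (l 16774824) (l 16774752)) (b (l 16774752) (l 16774680))))) (a (a (b (b (a (l 16774840) (l 16774808)) (l 16774752)) (b (l 16774680) (l 16774608))) (b (b (l 16774752) (l 16774680)) (b (l 16774608) (l 16774536)))) (a (b (b (l 16774688) (l 16774608)) (b (l 16774536) (l 16774456))) (b (b (l 16774616) (l 16774536)) (b (l 16774456) (l 16774384)))))) (a (b (a (a (b (l 16774840) (l 16774784)) (b (l 16774768) (l 16774704))) (a (b (l 16774696) (l 16774632)) (b (l 16774616) (l 16774552)))) (a (a (b (l 16774728) (l 16774672)) (b (l 16774648) (l 16774592))) (c (b (l 16774624) (l 16774568)) (b (l 16774440) (l 16774376)))))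 (b (a (a (b (l 16774544) (l 16774480)) (b (l 16774464) (l 16774400))) (a (b (l 16774384) (l 16774320)) (a (l 16774288) (l 16774248)))) (b (a (c (l 16774464) (l 16774280)) (c (l 16774304) (l 16774112))) (a (l 16774312) (c (l 16774232) (l 16774040))))))), by decide +kernel⟩

def k86_A00pm_102_s1 : ∃ t, chk3 f_A00pm_102_s1 t 509 132 1 = true :=
  ⟨(b (a (a (a (b (b (l 16774544) (l 16774464)) (b (l 16774384) (l 16774304))) (b (b (l 16774472) (l 16774384)) (b (l 16774304) (l 16774224)))) (a (b (b (l 16774400) (l 16774312)) (b (l 16774224) (l 16774144))) (b (b (l 16774320) (l 16774232)) (b (l 16774144) (l 16774056))))) (b (b (a (a (l 16774240) (l 16774160)) (c (a (l 16774168) (l 16774088)) (a (l 16774000) (l 16773920)))) (a (a (l 16774152) (l 16774072)) (a (l 16773984) (l 16773904)))) (b (a (a (l 16774064) (l 16773976)) (a (l 16773896) (l 16773808))) (a (a (l 16773976) (l 16773888)) (a (l 16773800) (l 16773712)))))) (a (a (b (a (a (l 16774208) (l 16774168)) (a (l 16774128) (l 16774080))) (a (a (l 16774064)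 (l 16774016)) (a (l 16773976) (l 16773928)))) (a (a (b (l 16774040) (l 16773888)) (b (l 16774000) (l 16773840))) (b (b (l 16773976) (l 16773896)) (b (l 16773808) (l 16773728))))) (b (b (a (a (l 16773888) (l 16773800)) (a (l 16773712) (l 16773616))) (a (a (l 16773800) (l 16773712)) (a (l 16773616) (l 16773528)))) (a (a (b (l 16773720) (l 16773640)) (b (l 16773624) (l 16773544))) (b (a (l 16773528) (l 16773432)) (a (l 16773440) (l 16773344))))))), by decide +kernel⟩

def k87_A00pm_102_s1 : ∃ t, chk3 f_A00pm_102_s1 t 508 133 1 = true :=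
  ⟨(b (a (b (b (a (l 16774584) (l 16774416)) (a (l 16774528) (l 16774360))) (b (a (l 16774480) (l 16774304)) (a (l 16774432) (l 16774248)))) (b (b (a (l 16774248) (c (l 16774168) (l 16773968))) (a (l 16774184) (c (l 16774112) (l 16773896)))) (b (a (l 16774120) (c (l 16774048) (l 16773832))) (a (l 16774064) (c (l 16773984) (l 16773760)))))) (a (b (b (a (l 16774384) (l 16774192)) (a (l 16774336) (l 16774144))) (b (a (l 16774288) (l 16774088)) (a (l 16774240) (l 16774040)))) (b (b (a (l 16774008) (c (l 16773928) (l 16773696))) (a (l 16773944) (c (l 16773864) (l 16773624)))) (b (a (c (l 16774016) (l 16773768)) (a (l 16773736) (l 16773632))) (a (l 16773832) (l 16773624)))))), by decide +kernel⟩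

def k88_A00pm_102_s1 : ∃ t, chk3 f_A00pm_102_s1 t 509 133 1 = true :=
  ⟨(a (b (b (b (b (a (l 16773904) (l 16773720)) (a (l 16773872) (l 16773680))) (b (a (l 16773832) (l 16773640)) (a (l 16773800) (l 16773608)))) (b (b (a (l 16773760) (l 16773568)) (a (l 16773728) (l 16773528))) (a (a (l 16773728) (l 16773624)) (a (l 16773520) (l 16773424))))) (b (b (a (a (l 16773656) (l 16773552)) (a (l 16773448) (l 16773344))) (a (a (l 16773592) (l 16773488)) (a (l 16773376) (l 16773272)))) (b (a (a (l 16773528) (l 16773416)) (a (l 16773312) (l 16773200))) (a (c (l 16773536) (l 16773280)) (a (l 16773240) (l 16773128)))))) (b (a (b (a (b (l 16773552) (l 16773472)) (b (l 16773456) (l 16773376))) (a (b (l 16773392) (l 16773320)) (b (l 16773288) (l 16773208)))) (b (b (a (l 16773360) (l 16773256)) (a (l 16773272) (l 16773168))) (a (b (l 16773184) (l 16773104)) (b (l 16773080) (c (l 16773112) (l 16772872)))))) (b (b (a (a (l 16773240) (l 16773128)) (a (l 16773024) (c (l 16773032) (l 16772784)))) (a (a (l 16773160) (l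 16773048)) (a (c (l 16773064) (l 16772808)) (c (l 16772952) (l 16772696))))) (b (a (a (l 16773088) (c (l 16773104) (l 16772840))) (a (c (l 16772984) (l 16772728)) (c (l 16772872) (l 16772608)))) (a (a (l 16773008) (l 16772896)) (a (l 16772776) (l 16772656))))))), by decide +kernel⟩

def k89_A00pm_102_s1 : ∃ t, chk3 f_A00pm_102_s1 t 1020 132 1 = true :=
  ⟨(b (b (b (b (a (a (l 16773944) (l 16773856)) (a (l 16773776) (l 16773688))) (a (a (l 16773896) (l 16773808)) (a (l 16773720) (l 16773632)))) (b (a (a (l 16773840) (l 16773760)) (a (l 16773672) (l 16773576))) (a (a (l 16773792) (l 16773704)) (a (l 16773616) (l 16773528))))) (b (a (c (a (l 16773808) (l 16773720)) (a (l 16773632) (l 16773536))) (a (a (l 16773560) (l 16773512)) (a (l 16773472) (l 16773424)))) (a (a (l 16773624) (a (l 16773552) (l 16773504))) (a (a (l 16773456) (l 16773416)) (a (l 16773368) (l 16773320)))))) (b (b (a (a (l 16773528) (a (l 16773456) (l 16773408))) (c (a (l 16773432) (l 16773336)) (a (l 16773240) (l 16773136)))) (a (a (l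 16773432) (a (l 16773360) (l 16773312))) (c (a (l 16773336) (l 16773240)) (a (l 16773136) (l 16773032))))) (b (a (a (l 16773336) (a (l 16773264) (l 16773216))) (c (a (l 16773240) (l 16773144)) (a (l 16773032) (l 16772928)))) (a (a (l 16773248) (a (l 16773168) (l 16773120))) (c (a (l 16773152) (l 16773048)) (a (l 16772928) (l 16772824))))))), by decide +kernel⟩

def k90_A00pm_102_s1 : ∃ t, chk3 f_A00pm_102_s1 t 1021 132 1 = true :=
  ⟨(b (a (a (a (b (b (c (l 16773680) (l 16773504)) (l 16773480)) (b (l 16773376) (l 16773272))) (b (b (c (l 16773632) (l 16773456)) (l 16773440)) (b (l 16773328) (l 16773224)))) (a (b (b (c (l 16773592) (l 16773408)) (l 16773392)) (b (l 16773280) (l 16773168))) (b (b (c (l 16773544) (l 16773368)) (c (l 16773432) (l 16773248))) (b (l 16773232) (l 16773120))))) (a (a (b (b (c (l 16773496) (l 16773320)) (c (l 16773392) (l 16773200))) (b (c (l 16773280) (l 16773088)) (l 16773072))) (b (b (c (l 16773448) (l 16773272)) (c (l 16773344) (l 16773152))) (b (c (l 16773232) (l 16773040))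 (c (l 16773120) (l 16772920))))) (a (b (b (b (l 16773344) (l 16773288)) (c (l 16773296) (l 16773104))) (b (c (l 16773184) (l 16772984)) (c (l 16773072) (l 16772872)))) (b (b (b (l 16773296) (l 16773240)) (c (l 16773248) (l 16773056))) (b (c (l 16773128) (l 16772936)) (c (l 16773024) (l 16772816))))))) (a (a (a (b (b (l 16773160) (l 16773056)) (b (l 16772960) (l 16772856))) (b (b (l 16773112) (l 16773008)) (b (l 16772904) (l 16772800)))) (a (b (b (l 16773064) (l 16772960)) (b (l 16772848) (l 16772744))) (b (b (l 16773016) (l 16772904)) (b (l 16772800) (l 16772688))))) (a (a (b (b (l 16772960) (l 16772856)) (b (l 16772744) (l 16772640))) (b (b (l 16772912) (l 16772800)) (b (l 16772688) (l 16772584)))) (a (b (b (c (l 16772960) (l 16772752)) (c (l 16772856) (l 16772640))) (b (c (l 16772744) (l 16772528)) (c (l 16772640) (l 16772416)))) (c (b (b (l 16772912) (l 16772800)) (b (l 16772688) (l 16772584))) (b (b (l 16772704) (l 16772584)) (b (l 16772472) (l 16772352)))))))), by decide +kernel⟩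

def k91_A00pm_102_s1 : ∃ t, chk3 f_A00pm_102_s1 t 1020 133 1 = true :=
  ⟨(b (a (b (b (a (a (l 16773176) (l 16773128)) (a (l 16773072) (l 16773024))) (a (c (l 16773176) (l 16772944)) (c (l 16773072) (l 16772840)))) (c (a (a (l 16773072) (l 16773016)) (b (l 16772984) (l 16772896))) (a (b (l 16772856) (l 16772760)) (b (l 16772744) (l 16772648))))) (a (b (b (a (l 16772968) (l 16772912)) (a (l 16772872) (l 16772816))) (b (c (l 16772872) (l 16772632)) (a (l 16772688) (l 16772632)))) (b (b (a (l 16772864) (l 16772808)) (a (l 16772768) (l 16772712))) (b (a (l 16772664) (l 16772608)) (a (l 16772568) (l 16772512)))))) (b (b (a (a (c (l 16772920) (l 16772672)) (c (l 16772808) (l 16772552))) (a (a (l 16772592) (l 16772536)) (a (l 16772472) (l 16772416)))) (a (a (c (l 16772832) (l 16772584)) (a (l 16772624) (l 16772560))) (a (a (l 16772504) (l 16772440)) (a (l 16772384) (a (l 16772336) (l 16772304)))))) (b (a (a (a (l 16772648) (l 16772592)) (a (l 16772528) (l 16772472))) (c (c (l 22) (a (l 16772448) (l 16772320)))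 (b (a (l 16772272) (l 16772144)) (a (l 16772224) (l 16772096))))) (a (a (c (l 16772672) (l 16772400)) (c (l 16772552) (l 16772280))) (a (c (l 16772424) (l 16772152)) (c (l 16772304) (l 16772024))))))), by decide +kernel⟩

def k92_A00pm_102_s1 : ∃ t, chk3 f_A00pm_102_s1 t 1021 266 1 = true :=
  ⟨(a (b (a (a (b (l 16772752) (l 16772656)) (b (l 16772696) (l 16772600))) (a (b (l 16772640) (l 16772536)) (b (l 16772584) (l 16772480)))) (b (a (a (l 16772552) (l 16772496)) (a (l 16772440) (c (l 16772504) (l 16772256)))) (a (a (l 16772456) (l 16772392)) (a (c (l 16772464) (l 16772208)) (c (l 16772400) (l 16772152)))))) (a (b (a (b (l 16772528) (c (l 16772544) (l 16772304))) (b (c (l 16772592) (l 16772360)) (c (l 16772488) (l 16772248)))) (a (b (c (l 16772440) (l 16772200)) (c (l 16772344) (l 16772088))) (b (c (l 16772384) (l 16772136)) (c (l 16772280) (l 16772032))))) (a (c (b (b (l 16772536) (l 16772432)) (b (l 16772328) (l 16772224))) (b (b (l 16772304) (l 16772192)) (b (l 16772080) (l 16771968)))) (c (b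 (b (l 16772480) (l 16772368)) (b (l 16772264) (l 16772160))) (b (b (l 16772240) (l 16772128)) (b (l 16772016) (l 16771904))))))), by decide +kernel⟩

def k93_A00pm_102_s1 : ∃ t, chk3 f_A00pm_102_s1 t 1021 267 1 = true :=
  ⟨(a (a (a (b (b (c (l 16772488) (l 16772232)) (c (l 16772392) (l 16772128))) (b (c (l 16772296) (l 16772032)) (l 16772064))) (b (b (c (l 16772424) (l 16772168)) (c (l 16772328) (l 16772064))) (b (c (l 16772232) (l 16771968)) (l 16772000)))) (a (b (b (c (l 16772360) (l 16772104)) (c (l 16772264) (l 16772008))) (b (c (l 16772168) (l 16771904)) (l 16771936))) (b (b (c (l 16772304) (l 16772048)) (c (l 16772208) (l 16771944))) (b (c (l 16772112) (l 16771840)) (c (l 16772016) (l 16771736)))))) (a (a (b (b (c (l 16772240) (l 16771984)) (c (l 16772144) (l 16771880))) (b (c (l 16772048) (l 16771776)) (c (l 16771944) (l 16771672)))) (b (b (c (l 16772184) (l 16771920)) (c (l 16772080) (l 16771816))) (b (c (l 16771984) (l 16771712)) (c (l 16771880) (l 16771600))))) (a (b (b (c (l 16772120)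 (l 16771856)) (c (l 16772016) (l 16771752))) (b (c (l 16771912) (l 16771640)) (c (l 16771816) (l 16771536)))) (b (b (c (l 16772056) (l 16771800)) (c (l 16771952) (l 16771688))) (b (c (l 16771848) (a (l 16771592) (l 16771560))) (c (l 16771752) (l 16771472))))))), by decide +kernel⟩

def k94_A00pm_102_s1 : ∃ t, chk3 f_A00pm_102_s1 t 2044 264 1 = true :=
  ⟨(a (a (b (b (b (l 16773248) (l 16773192)) (c (l 16773192) (l 16773008))) (b (c (l 16773080) (l 16772888)) (c (l 16772968) (l 16772768)))) (b (b (b (a (l 16773216) (l 16773192)) (l 16773144)) (b (l 16773080) (l 16773024))) (b (c (l 16773032) (l 16772832)) (c (l 16772920) (l 16772712))))) (b (b (a (b (a (l 16773168) (l 16773144)) (l 16773088)) (a (c (l 16773176) (l 16772992)) (c (l 16773152) (l 16772968)))) (a (b (l 16773032) (l 16772968)) (a (a (l 16772968) (l 16772960)) (b (l 16772968) (l 16772912))))) (a (b (b (l 16772912) (l 16772856)) (c (l 16772864) (l 16772664))) (b (b (l 16772864) (l 16772800)) (b (l 16772744) (l 16772680)))))), by decide +kernel⟩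

def k95_A00pm_102_s1 : ∃ t, chk3 f_A00pm_102_s1 t 2045 264 1 = true :=
  ⟨(b (b (c (b (a (a (l 16773144) (l 16773096)) (a (l 16773048) (c (l 16773048) (l 16772952)))) (a (a (l 16773088) (l 16773040)) (a (l 16772984) (l 16772936)))) (a (a (a (l 16772944) (l 16772920)) (a (l 16772888) (l 16772864))) (a (a (l 16772840) (l 16772816)) (a (l 16772792) (l 16772760))))) (c (b (a (a (l 16773024) (l 16772976)) (a (l 16772928) (l 16772872))) (a (a (l 16772968) (l 16772920)) (a (l 16772864) (l 16772816)))) (a (a (c (l 16772848) (l 16772752)) (c (l 16772800) (l 16772704))) (a (a (l 16772712) (l 16772688)) (a (l 16772664) (l 16772632)))))) (b (c (b (a (a (l 16772904) (l 16772856)) (a (l 16772800) (l 16772752))) (a (a (l 16772848) (l 16772800)) (a (l 16772744) (l 16772688)))) (a (a (a (l 16772688) (l 16772664)) (a (l 16772640) (l 16772616))) (a (a (l 16772584) (l 16772560)) (a (l 16772528) (l 16772504))))) (c (a (a (c (l 16772808) (l 16772712)) (a (l 16772720) (l 16772696))) (b (a (l 16772680) (l 16772632)) (a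 (l 16772624) (l 16772568)))) (a (a (c (l 16772608) (l 16772504)) (c (l 16772552) (l 16772448))) (a (c (l 16772496) (l 16772392)) (a (l 16772408) (l 16772376))))))), by decide +kernel⟩

def k96_A00pm_102_s1 : ∃ t, chk3 f_A00pm_102_s1 t 1022 265 1 = true :=
  ⟨(a (b (a (a (b (c (l 16772856) (l 16772648)) (c (l 16772744) (l 16772528))) (b (c (l 16772808) (l 16772592)) (c (l 16772696) (l 16772472)))) (a (b (c (l 16772752) (l 16772544)) (c (l 16772640) (l 16772424))) (b (b (l 16772624) (l 16772560)) (c (l 16772584) (l 16772368))))) (c (a (a (b (l 16772640) (l 16772528)) (b (l 16772584) (l 16772472))) (a (b (l 16772528) (l 16772416)) (b (l 16772472) (l 16772352)))) (a (a (b (l 16772416) (l 16772296)) (b (l 16772360) (l 16772240))) (a (b (l 16772304) (l 16772184)) (b (l 16772248) (l 16772128)))))) (a (a (c (b (c (b (l 16772696) (l 16772584)) (b (l 16772592) (l 16772472))) (c (b (l 16772472) (l 16772352)) (b (l 16772352) (l 16772240)))) (b (c (b (l 16772488) (l 16772360)) (b (l 16772376) (l 16772256))) (c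 (b (l 16772240) (l 16772128)) (b (l 16772128) (l 16772008))))) (c (b (a (b (l 16772600) (l 16772488)) (b (l 16772576) (l 16772456))) (c (b (l 16772408) (l 16772296)) (b (l 16772296) (l 16772184)))) (b (c (b (l 16772432) (l 16772304)) (b (l 16772320) (l 16772200))) (c (b (l 16772184) (l 16772064)) (b (l 16772072) (l 16771952)))))) (a (a (c (b (b (l 16772544) (l 16772432)) (b (l 16772312) (l 16772192))) (b (b (l 16772336) (l 16772208)) (b (l 16772088) (l 16771960)))) (c (b (b (l 16772520) (l 16772400)) (b (l 16772280) (l 16772168))) (b (b (l 16772304) (l 16772184)) (b (l 16772056) (l 16771936))))) (a (c (b (b (l 16772496) (l 16772376)) (b (l 16772256) (l 16772136))) (b (b (l 16772280) (l 16772152)) (b (l 16772024) (l 16771904)))) (c (b (b (l 16772464) (l 16772344)) (b (l 16772224) (l 16772104))) (b (b (l 16772248) (l 16772120)) (b (l 16772000) (l 16771872)))))))), by decide +kernel⟩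

def k97_A00pm_102_s1 : ∃ t, chk3 f_A00pm_102_s1 t 1022 266 1 = true :=
  ⟨(c (c (c (l 22) (b (b (b (a (a (l 16772448) (l 16772328)) (b (a (l 16772224) (l 16772104)) (l 22))) (l 22)) (l 22)) (l 22))) (a (b (a (a (b (l 16772360) (l 16772248)) (b (l 16772304) (l 16772192))) (a (b (l 16772240) (l 16772128)) (b (l 16772184) (l 16772072)))) (a (a (b (l 16772144) (l 16772032)) (b (l 16772080) (l 16771976))) (a (b (l 16772024) (l 16771912)) (b (l 16771960) (l 16771848))))) (b (a (a (b (l 16772128) (l 16772008)) (b (l 16772064) (l 16771952))) (a (b (l 16772008) (l 16771888)) (c (b (l 16771976) (l 16771856)) (b (l 16771912) (l 16771792))))) (a (a (b (l 16771896) (l 16771784)) (b (l 16771832) (l 16771720))) (b (a (l 16771768) (a (l 16771720) (l 16771696))) (a (a (l 16771672) (l 16771640)) (a (l 16771608) (l 16771576)))))))) (a (b (a (a (b (l 16772184) (l 16772072)) (b (l 16772128) (l 16772008))) (a (b (l 16772064) (l 16771952)) (b (l 16772008) (l 16771888)))) (a (a (b (l 16771960) (l 16771848)) (b (l 16771896)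 (l 16771784))) (a (b (l 16771832) (l 16771720)) (b (l 16771768) (a (l 16771672) (l 16771640)))))) (a (a (b (c (b (l 16772008) (l 16771888)) (b (l 16771888) (l 16771768))) (c (b (l 16771768) (l 16771656)) (b (l 16771648) (l 16771528)))) (b (c (b (l 16771944) (l 16771824)) (b (l 16771824) (l 16771704))) (c (b (l 16771712) (l 16771592)) (b (l 16771584) (l 16771464))))) (a (b (c (b (l 16771888) (l 16771768)) (b (l 16771768) (l 16771640))) (b (c (l 16771648) (l 16771520)) (c (l 16771528) (l 16771400)))) (b (b (c (l 16771824) (l 16771704)) (c (l 16771704) (l 16771576))) (b (a (l 16771536) (l 16771504)) (a (l 16771416) (l 16771384)))))))), by decide +kernel⟩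

def k98_A00pm_102_s1 : ∃ t, chk3 f_A00pm_102_s1 t 1022 267 1 = true :=
  ⟨(a (b (c (c (l 22) (a (a (b (l 16771928) (l 16771824)) (b (l 16771864) (l 16771760))) (a (b (l 16771800) (l 16771696)) (b (l 16771736) (l 16771624))))) (a (a (b (l 16771736) (l 16771624)) (b (l 16771672) (l 16771560))) (a (b (l 16771608) (a (l 16771504) (l 16771472))) (c (b (l 16771608) (l 16771488)) (b (l 16771472) (l 16771360)))))) (a (a (b (b (a (l 16771688) (l 16771656)) (l 16771624)) (c (l 16771680) (l 16771400))) (b (b (a (l 16771624) (l 16771592)) (l 16771552)) (c (l 16771616) (l 16771336)))) (a (b (b (a (l 16771560) (l 16771528)) (l 16771488)) (c (l 16771544) (l 16771264))) (b (a (b (l 16771496) (l 16771440)) (b (l 16771456) (l 16771400))) (c (l 16771480) (l 16771200)))))) (b (c (c (l 22) (a (a (b (l 16771672) (l 16771560)) (b (l 16771608) (l 16771496))) (b (a (a (l 16771560) (l 16771528)) (a (l 16771488) (l 16771456))) (c (l 22) (a (l 16771392) (c (l 16771344) (l 16771312))))))) (a (a (c (b (l 16771544) (l 16771424))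 (b (l 16771408) (l 16771288))) (b (c (l 16771472) (l 16771344)) (c (l 16771360) (l 16771224)))) (a (b (a (l 16771360) (l 16771328)) (a (l 16771240) (l 16771208))) (b (a (l 16771296) (l 16771256)) (a (l 16771176) (l 16771136)))))) (c (c (l 22) (c (l 22) (a (b (a (l 16771416) (a (l 16771368) (l 16771328))) (a (l 16771304) (l 16771232))) (b (b (a (l 16771304) (l 16771240)) (a (l 16771248) (l 16771184))) (a (l 16771168) (l 16771096)))))) (a (a (b (a (l 16771256) (l 16771224)) (l 16771128)) (a (b (l 16771192) (l 16771072)) (b (l 16771160) (l 16771040)))) (b (b (a (l 16771136) (c (l 16771136) (l 16771000))) (a (l 16771072) (l 16771008))) (a (c (l 16771056) (l 16770920)) (c (l 16770992) (l 16770848)))))))), by decide +kernel⟩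

def k99_A00pm_102_s1 : ∃ t, chk3 f_A00pm_102_s1 t 2046 264 1 = true :=
  ⟨(c (a (a (a (b (b (c (l 16772976) (l 16772880)) (c (l 16772856) (l 16772752))) (b (c (l 16772728) (l 16772632)) (l 16772560))) (b (b (c (l 16772952) (l 16772856)) (c (l 16772824) (l 16772728))) (b (c (l 16772704) (l 16772600)) (c (l 16772584) (l 16772480))))) (a (b (b (b (l 16772912) (l 16772848)) (c (l 16772800) (l 16772704))) (b (c (l 16772680) (l 16772576)) (c (l 16772560) (l 16772448)))) (b (b (b (l 16772880) (l 16772816)) (c (l 16772776) (l 16772680))) (b (c (l 16772648) (l 16772552)) (c (l 16772528) (l 16772424)))))) (a (a (b (b (b (l 16772856) (l 16772792)) (a (l 16772704) (l 16772696))) (b (c (l 16772624) (l 16772520)) (c (l 16772504) (l 16772392)))) (b (b (b (l 16772832) (l 16772768)) (b (l 16772704) (l 16772640))) (b (a (l 16772552) (l 16772536)) (c (l 16772472) (l 16772368))))) (a (b (b (b (l 16772808) (l 16772744)) (b (l 16772680) (l 16772616))) (b (b (l 16772552) (l 16772488)) (b (l 16772424) (l 16772360)))) (b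 (b (b (l 16772776) (l 16772712)) (b (l 16772648) (l 16772584))) (b (b (l 16772520) (l 16772456)) (b (l 16772400) (l 16772336))))))) (a (a (a (b (b (l 16772736) (l 16772608)) (b (l 16772480) (l 16772352))) (b (b (l 16772712) (l 16772584)) (b (l 16772448) (l 16772320)))) (a (b (b (l 16772688) (l 16772552)) (b (l 16772424) (l 16772296))) (b (b (l 16772656) (l 16772528)) (b (l 16772400) (l 16772264))))) (a (a (b (b (l 16772632) (l 16772504)) (b (l 16772368) (l 16772240))) (b (b (l 16772608) (l 16772472)) (b (l 16772344) (l 16772208)))) (a (b (b (c (l 16772632) (l 16772528)) (l 16772448)) (b (l 16772312) (l 16772184))) (b (b (c (l 16772600) (l 16772504)) (l 16772416)) (b (l 16772288) (l 16772152))))))), by decide +kernel⟩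

def k100_A00pm_102_s1 : ∃ t, chk3 f_A00pm_102_s1 t 2046 265 1 = true :=
  ⟨(c (b (a (b (b (a (l 16772456) (c (l 16772448) (l 16772344))) (a (l 16772392) (c (l 16772392) (l 16772280)))) (b (a (l 16772336) (c (l 16772328) (l 16772216))) (a (l 16772272) (c (l 16772272) (l 16772160))))) (a (a (b (c (l 16772376) (l 16772272)) (c (l 16772256) (l 16772144))) (b (c (l 16772352) (l 16772240)) (c (l 16772224) (l 16772112)))) (a (b (b (l 16772296) (l 16772240)) (c (l 16772200) (l 16772088))) (b (b (l 16772272) (l 16772208)) (b (l 16772144) (l 16772080)))))) (b (a (b (a (l 16772208) (c (l 16772208) (l 16772096))) (a (l 16772152) (c (l 16772152) (l 16772032)))) (b (a (c (l 16772152) (l 16772040)) (a (l 16772048) (l 16772016))) (a (c (l 16772088) (l 16771976)) (a (l 16771984) (l 16771960))))) (a (b (a (l 16772088) (c (l 16772088) (l 16771976))) (a (l 16772032) (c (l 16772032) (l 16771912)))) (b (a (c (l 16772032) (l 16771912)) (a (l 16771928) (l 16771896))) (a (c (l 16771968) (l 16771848)) (a (l 16771864) (l 16771832)))))))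 (a (a (b (a (b (l 16772224) (l 16772096)) (b (l 16772192) (l 16772064))) (b (a (l 16771968) (l 16771936)) (a (l 16771840) (l 16771808)))) (b (b (a (l 16772168) (l 16772136)) (a (l 16772032) (l 16772008))) (b (a (l 16771912) (l 16771880)) (a (l 16771784) (l 16771752))))) (a (b (b (a (l 16772104) (l 16772080)) (a (l 16771976) (l 16771944))) (b (a (l 16771848) (l 16771816)) (a (l 16771720) (l 16771688)))) (b (b (a (l 16772048) (l 16772024)) (a (l 16771920) (l 16771888))) (b (a (l 16771792) (l 16771760)) (a (l 16771656) (l 16771624))))))), by decide +kernel⟩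

def k101_A00pm_102_s1 : ∃ t, chk3 f_A00pm_102_s1 t 2046 266 1 = true :=
  ⟨(b (c (c (b (b (a (a (l 16772032) (l 16771968)) (c (l 22) (a (l 16771880) (l 16771816)))) (l 22)) (l 22)) (a (b (b (a (l 16771912) (l 16771848)) (a (l 16771856) (l 16771792))) (b (a (l 16771792) (l 16771728)) (a (l 16771736) (l 16771672)))) (b (b (a (l 16771792) (l 16771728)) (a (l 16771728) (l 16771664))) (b (a (l 16771664) (l 16771600)) (a (l 16771608) (l 16771544)))))) (b (a (a (a (l 16771720) (l 16771688)) (a (l 16771656) (l 16771624))) (a (a (l 16771592) (l 16771560)) (a (l 16771528) (l 16771496)))) (a (a (a (l 16771592) (l 16771560)) (a (l 16771528) (l 16771496))) (a (a (l 16771464) (l 16771432)) (a (l 16771400) (l 16771368)))))) (c (c (l 22) (a (b (b (a (l 16771672) (l 16771608)) (a (l 16771616) (l 16771552))) (b (a (l 16771552) (l 16771488)) (a (l 16771496) (l 16771432)))) (b (b (a (l 16771544) (l 16771480)) (a (l 16771488) (l 16771416))) (b (a (l 16771424) (l 16771360)) (a (l 16771368) (l 16771296)))))) (a (a (b (a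 (l 16771472) (l 16771440)) (a (l 16771344) (l 16771312))) (b (a (l 16771408) (l 16771376)) (a (l 16771280) (l 16771248)))) (a (b (a (l 16771344) (l 16771304)) (a (l 16771216) (l 16771184))) (b (a (l 16771272) (l 16771240)) (b (l 16771160) (l 16771096))))))), by decide +kernel⟩

def k102_A00pm_102_s1 : ∃ t, chk3 f_A00pm_102_s1 t 2046 267 1 = true :=
  ⟨(b (c (c (l 22) (a (b (b (a (l 16771440) (l 16771368)) (a (l 16771376) (l 16771312))) (b (a (l 16771320) (l 16771256)) (a (l 16771264) (l 16771192)))) (b (b (a (l 16771304) (l 16771240)) (a (l 16771248) (l 16771176))) (b (a (l 16771184) (l 16771112)) (a (l 16771128) (l 16771056)))))) (b (a (a (a (l 16771224) (l 16771192)) (a (l 16771160) (l 16771128))) (a (b (l 16771104) (l 16771040)) (b (l 16771040) (c (l 16771040) (l 16770904))))) (a (a (a (l 16771104) (l 16771072)) (b (l 16771048) (l 16770984))) (a (b (l 16770984) (l 16770920)) (a (c (l 16770968) (l 16770832)) (c (l 16770928) (l 16770792))))))) (c (b (c (l 22) (b (c (l 22) (a (a (l 16771168) (l 16771104))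 (a (l 16771032) (c (l 16770976) (l 16770944))))) (a (a (l 16771144) (l 16771080)) (a (l 16771008) (l 16770936))))) (c (l 22) (c (l 22) (c (l 22) (a (a (l 16771008) (l 16770936)) (a (b (l 16770896) (l 16770832)) (b (l 16770824) (l 16770760)))))))) (a (a (b (b (c (l 16771064) (l 16770928)) (l 16770936)) (c (l 16770920) (l 16770776))) (b (b (c (l 16771000) (l 16770856)) (l 16770864)) (a (l 16770792) (l 16770760)))) (a (b (b (c (l 16770928) (l 16770784)) (l 16770792)) (a (l 16770720) (l 16770688))) (a (b (c (l 16770840) (l 16770704)) (l 16770648)) (b (b (l 16770768) (l 16770704)) (l 16770616))))))), by decide +kernel⟩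

def k103_A00pm_102_s1 : ∃ t, chk3 f_A00pm_102_s1 t 4094 264 1 = true :=
  ⟨(c (a (b (a (b (b (l 16772752) (l 16772688)) (b (l 16772624) (l 16772560))) (b (b (c (l 16772776) (l 16772680)) (l 16772664)) (b (l 16772600) (l 16772536)))) (a (b (b (l 16772496) (l 16772432)) (b (l 16772368) (l 16772304))) (b (b (l 16772472) (l 16772408)) (b (l 16772344) (l 16772280))))) (b (a (a (b (c (l 16772720) (l 16772624)) (c (l 16772592) (l 16772496))) (b (c (l 16772712) (l 16772616)) (c (l 16772584) (l 16772480)))) (a (b (b (l 16772680) (l 16772616)) (c (l 16772568) (l 16772464))) (b (b (l 16772664) (l 16772600)) (c (l 16772552) (l 16772456))))) (c (a (a (b (l 16772464) (l 16772344)) (b (l 16772456) (l 16772328))) (a (b (l 16772440) (l 16772312)) (b (l 16772424) (l 16772296)))) (a (b (l 16772360) (l 16772224)) (c (b (l 16772352) (l 16772224)) (b (l 16772304) (l 16772168))))))) (b (b (b (a (l 16772544) (c (l 16772544) (l 16772448))) (a (l 16772480) (l 16772424))) (b (a (l 16772408) (l 16772360)) (a (l 16772344) (l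 16772288)))) (a (b (a (l 16772256) (l 16772232)) (a (l 16772120) (l 16772096))) (a (b (l 16772200) (l 16772064)) (b (l 16772176) (l 16772040)))))), by decide +kernel⟩

def k104_A00pm_102_s1 : ∃ t, chk3 f_A00pm_102_s1 t 4094 265 1 = true :=
  ⟨(c (a (b (a (b (b (l 16772240) (l 16772176)) (b (l 16772112) (l 16772056))) (b (b (l 16772216) (l 16772152)) (b (l 16772088) (l 16772024)))) (a (b (b (l 16771992) (l 16771928)) (b (l 16771864) (l 16771800))) (b (b (l 16771960) (l 16771896)) (b (l 16771832) (l 16771776))))) (a (c (b (a (b (l 16772216) (l 16772088)) (b (l 16772200) (l 16772072))) (c (l 22) (b (l 16771928) (l 16771800)))) (b (b (l 16772096) (l 16771968)) (b (l 16771840) (l 16771712)))) (a (c (b (b (l 16772184) (l 16772056)) (b (l 16771936) (l 16771808))) (b (b (l 16772072) (l 16771944)) (b (l 16771816) (l 16771688)))) (c (b (b (l 16772168) (l 16772048)) (b (l 16771920) (l 16771792))) (b (b (l 16772064) (l 16771928)) (b (l 16771800) (l 16771672))))))) (b (a (b (a (l 16771992) (l 16771960)) (a (l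 16771856) (l 16771832))) (a (b (l 16771936) (l 16771800)) (b (l 16771904) (l 16771768)))) (b (a (a (l 16771728) (l 16771696)) (b (l 16771680) (l 16771616))) (a (a (l 16771600) (l 16771568)) (b (l 16771552) (l 16771488)))))), by decide +kernel⟩

def k105_A00pm_102_s1 : ∃ t, chk3 f_A00pm_102_s1 t 4094 266 1 = true :=
  ⟨(c (b (c (b (b (c (l 22) (a (l 16771760) (c (l 22) (l 16771680)))) (l 22)) (l 22)) (b (b (a (l 16771664) (a (l 16771616) (l 16771584))) (a (l 16771600) (a (l 16771552) (l 16771520)))) (b (a (l 16771544) (a (l 16771488) (l 16771456))) (a (l 16771480) (a (l 16771432) (l 16771400)))))) (c (l 22) (a (a (b (l 16771400) (l 16771280)) (c (b (l 16771400) (l 16771280)) (b (l 16771336) (l 16771208)))) (a (c (b (l 16771368) (l 16771240)) (b (l 16771304) (l 16771176))) (c (b (l 16771336) (l 16771208)) (b (l 16771272) (l 16771144))))))) (b (b (a (a (l 16771464) (l 16771432)) (b (l 16771416) (c (l 16771416) (l 16771296)))) (a (b (l 16771352) (l 16771288)) (c (a (l 16771336) (l 16771304)) (l 16771192))))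 (c (b (b (a (l 16771288) (l 16771224)) (a (l 16771224) (l 16771160))) (b (a (l 16771160) (l 16771096)) (a (l 16771096) (l 16771032)))) (b (a (l 16771128) (l 16771064)) (a (l 16771000) (l 16770928)))))), by decide +kernel⟩

def k106_A00pm_102_s1 : ∃ t, chk3 f_A00pm_102_s1 t 4094 267 1 = true :=
  ⟨(a (a (c (c (l 22) (b (c (b (l 16771192) (l 22)) (b (l 16771120) (l 16771000))) (b (b (l 16770944) (l 16770880)) (l 16770792)))) (b (b (c (l 16771024) (l 16770888)) (c (l 16770896) (l 16770760))) (b (b (l 16770736) (l 16770672)) (c (l 16770648) (l 16770504))))) (c (c (l 22) (b (c (b (l 16771152) (l 22)) (b (l 16771088) (l 16770968))) (b (b (l 16770904) (l 16770848)) (a (l 16770768) (l 16770744))))) (b (b (c (l 16770984) (l 16770848)) (c (l 16770864) (l 16770720))) (b (b (l 16770696) (l 16770632)) (c (l 16770608) (l 16770464)))))) (a (c (c (l 22) (b (c (b (l 16771120) (l 22)) (b (l 16771056) (l 16770928))) (b (b (l 16770872) (l 16770808)) (a (l 16770728) (l 16770712))))) (b (b (c (l 16770952) (l 16770816))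 (c (l 16770824) (l 16770688))) (b (b (l 16770664) (l 16770600)) (c (l 16770576) (l 16770432))))) (c (c (l 22) (b (a (b (l 16771064) (l 16770936)) (b (l 16771040) (l 16770920))) (c (l 22) (b (a (l 16770776) (l 16770760)) (l 16770648))))) (b (b (c (l 16770920) (l 16770784)) (c (l 16770792) (l 16770656))) (b (b (l 16770624) (l 16770560)) (c (l 16770536) (l 16770392))))))), by decide +kernel⟩

def k107_A00pm_102_s1 : ∃ t, chk3 f_A00pm_102_s1 t 8190 132 1 = true :=
  ⟨(c (b (b (b (a (b (c (l 16772696) (l 16772600)) (c (l 16772632) (l 16772536))) (b (c (l 16772672) (l 16772576)) (c (l 16772608) (l 16772504)))) (a (b (c (l 16772568) (l 16772464)) (c (l 16772504) (l 16772400))) (b (c (l 16772536) (l 16772440)) (c (l 16772472) (l 16772376))))) (b (a (b (c (l 16772440) (l 16772336)) (c (l 16772376) (l 16772264))) (b (c (l 16772408) (l 16772304)) (c (l 16772344) (l 16772240)))) (a (b (c (l 16772312) (l 16772200)) (c (l 16772248) (l 16772136))) (b (c (l 16772280) (l 16772176)) (c (l 16772216) (l 16772104))))))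 (a (c (b (b (b (l 16772184) (l 16772120)) (b (l 16772056) (l 16771992))) (b (b (l 16771928) (l 16771864)) (b (l 16771800) (l 16771736)))) (b (c (b (l 16772064) (l 16771936)) (b (l 16772008) (l 16771880))) (c (b (l 16771808) (l 16771680)) (b (l 16771752) (l 16771624))))) (c (b (b (b (l 16772152) (l 16772088)) (b (l 16772024) (l 16771960))) (c (l 22) (b (a (l 16771840) (l 16771832)) (a (l 16771720) (l 16771704))))) (b (c (b (l 16772040) (l 16771904)) (b (l 16771984) (l 16771848))) (c (b (l 16771776) (l 16771648)) (b (l 16771720) (l 16771592))))))) (c (a (b (b (b (l 16772464) (l 16772328)) (b (l 16772200) (l 16772064))) (b (b (l 16771928) (l 16771792)) (b (l 16771664) (l 16771528)))) (b (b (b (l 16772440) (l 16772304)) (b (l 16772168) (l 16772032))) (b (b (l 16771896) (l 16771768)) (b (l 16771632) (l 16771496))))) (b (b (c (b (l 16772384) (l 16772240)) (b (l 16772328) (l 16772192))) (c (b (l 16772104) (l 16771968)) (b (l 16772056) (l 16771912)))) (b (b (l 16771800) (l 16771664)) (b (l 16771528) (l 16771392)))))),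 by decide +kernel⟩

def k108_A00pm_102_s1 : ∃ t, chk3 f_A00pm_102_s1 t 8190 133 1 = true :=
  ⟨(b (a (c (c (b (b (b (l 16771680) (l 22)) (l 22)) (l 22)) (b (c (b (l 16771552) (l 16771424)) (b (l 16771488) (l 16771360))) (a (b (l 16771280) (l 16771152)) (b (l 16771264) (l 16771136))))) (c (b (b (l 16771400) (l 16771272)) (b (l 16771136) (l 16771008))) (a (b (l 16771216) (l 16770952)) (b (l 16771200) (l 16770936))))) (c (c (b (b (b (a (l 16771656) (l 16771640)) (l 22)) (l 22)) (l 22)) (b (a (b (l 16771496) (l 16771368)) (b (l 16771480) (l 16771352))) (a (b (l 16771240) (l 16771120)) (b (l 16771224) (l 16771104))))) (c (b (b (l 16771368) (l 16771240)) (b (l 16771104) (l 16770976))) (a (b (l 16771184) (l 16770920)) (b (l 16771168) (l 16770904)))))) (a (c (c (l 22) (b (a (b (l 16771024) (l 16770904)) (b (l 16771008) (l 16770888))) (c (l 22) (b (a (l 16770744) (l 16770728)) (l 16770608))))) (b (b (c (l 16770880) (l 16770744)) (c (l 16770752) (l 16770616))) (b (c (c (l 16770664) (l 16770592)) (l 16770488))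 (c (l 16770504) (l 16770360))))) (c (c (l 22) (b (a (b (l 16770992) (l 16770864)) (b (l 16770976) (l 16770848))) (c (l 22) (b (a (l 16770704) (l 16770688)) (l 16770576))))) (b (b (c (l 16770848) (l 16770712)) (c (l 16770720) (l 16770584))) (b (b (a (l 16770560) (l 16770544)) (l 16770488)) (c (l 16770464) (l 16770320))))))), by decide +kernel⟩

def k109_A00pm_102_s1 : ∃ t, chk3 f_A00pm_102_s1 t 16382 132 1 = true :=
  ⟨(c (b (c (b (b (b (c (l 16772664) (l 16772616)) (l 16772576)) (b (l 16772512) (l 16772448))) (b (b (l 16772384) (c (l 16772344) (l 16772288))) (b (c (l 16772280) (l 16772224)) (c (l 16772216) (l 16772160))))) (b (a (b (l 16772520) (l 16772384)) (b (l 16772504) (l 16772368))) (a (b (l 16772248) (l 16772120)) (b (l 16772240) (l 16772104))))) (c (b (c (b (b (l 16772152) (l 22)) (l 22)) (b (a (l 16772072) (l 16772056)) (a (l 16771944) (l 16771928)))) (c (l 22) (b (a (l 16771816) (l 16771800)) (a (l 16771688) (l 16771672))))) (b (a (b (l 16771984) (l 16771856)) (b (l 16771976) (l 16771840)))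 (a (b (l 16771728) (l 16771592)) (b (l 16771712) (l 16771576)))))) (b (c (b (b (l 16772416) (l 16772280)) (b (l 16772136) (l 16772008))) (a (b (l 16772248) (l 16771976)) (b (l 16772240) (l 16771960)))) (c (b (b (l 16771872) (l 16771736)) (b (l 16771600) (l 16771464))) (a (b (l 16771696) (l 16771424)) (b (l 16771680) (l 16771408)))))), by decide +kernel⟩

def k110_A00pm_102_s1 : ∃ t, chk3 f_A00pm_102_s1 t 16383 132 1 = true :=
  ⟨(c (b (b (b (a (c (b (l 16772624) (l 16772560)) (l 16772488)) (b (c (b (l 16772624) (l 16772592)) (l 16772512)) (c (c (l 16772568) (l 16772520)) (l 16772448)))) (a (c (a (l 16772464) (l 16772456)) (l 16772360)) (b (c (b (l 16772496) (l 16772464)) (l 16772376)) (c (b (l 16772432) (l 16772392)) (l 16772312))))) (b (a (c (a (l 16772328) (l 16772328)) (l 16772224)) (b (c (b (l 16772360) (l 16772328)) (l 16772240)) (c (b (l 16772296) (l 16772264)) (l 16772176)))) (a (c (b (l 16772232) (l 16772168)) (l 16772088)) (b (c (b (l 16772232) (l 16772200)) (l 16772112)) (c (b (l 16772168)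 (l 16772136)) (l 16772040)))))) (b (b (a (c (b (l 16772104) (l 16772040)) (l 16771960)) (b (c (b (l 16772104) (l 16772072)) (l 16771976)) (c (c (l 22) (l 16771992)) (l 16771912)))) (a (c (c (l 22) (l 16771912)) (l 16771824)) (b (c (c (l 22) (l 16771928)) (l 16771840)) (c (c (l 22) (l 16771864)) (l 16771776))))) (b (a (c (b (l 16771840) (l 16771776)) (l 16771696)) (b (c (c (l 22) (l 16771800)) (l 16771712)) (c (c (l 22) (l 16771736)) (l 16771648)))) (c (c (l 22) (a (l 16771656) (b (l 16771672) (l 16771608)))) (a (l 16771560) (b (l 16771584) (l 16771512))))))) (b (b (a (b (l 16772344) (l 16772208)) (b (b (l 16772368) (l 16772296)) (b (l 16772224) (l 16772152)))) (a (b (l 16772064) (l 16771928)) (b (b (l 16772088) (l 16772016)) (b (l 16771952) (l 16771880))))) (b (a (b (l 16771792) (l 16771656)) (b (b (l 16771808) (l 16771744)) (b (l 16771672) (l 16771608)))) (a (b (l 16771520) (l 16771384)) (c (a (l 16771496) (b (l 16771560) (l 16771424))) (b (l 16771448) (l 16771312))))))), by decide +kernel⟩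

def k111_A00pm_102_s1 : ∃ t, chk3 f_A00pm_102_s1 t 16382 133 1 = true :=
  ⟨(c (b (a (c (b (b (b (l 16771624) (l 22)) (l 22)) (l 22)) (b (b (l 16771464) (l 16771336)) (b (l 16771208) (l 16771080)))) (c (b (b (b (l 16771608) (l 22)) (l 22)) (l 22)) (b (b (l 16771448) (l 16771320)) (b (l 16771192) (l 16771064))))) (c (l 22) (b (b (a (l 16770960) (l 16770936)) (b (l 16770856) (l 16770792))) (c (l 22) (b (a (l 16770672) (l 16770656)) (l 16770536)))))) (b (c (b (b (l 16771336) (l 16771200)) (b (l 16771072) (l 16770944))) (a (b (l 16771152) (l 16770888)) (b (l 16771136) (l 16770864)))) (b (b (c (l 16770816) (l 16770680)) (c (l 16770680) (l 16770544))) (b (b (a (l 16770528) (l 16770504)) (l 16770456)) (c (l 16770424) (l 16770280)))))), by decide +kernel⟩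

def k112_A00pm_102_s1 : ∃ t, chk3 f_A00pm_102_s1 t 16383 133 1 = true :=
  ⟨(b (b (b (b (b (c (c (c (l 22) (l 16771568)) (l 16771472)) (l 16771288)) (c (c (l 22) (l 16771440)) (l 16771256))) (c (c (l 22) (a (l 16771400) (l 16771384))) (c (l 16771272) (l 16771144)))) (b (c (c (l 22) (b (l 16771344) (l 16771312))) (c (l 16771200) (l 16771080))) (c (c (l 22) (b (l 16771280) (l 16771248))) (c (l 16771136) (l 16771008))))) (b (b (c (c (l 22) (b (l 16771216) (l 16771184))) (c (l 16771072) (l 16770944))) (c (c (l 22) (b (l 16771152) (l 16771120))) (c (l 16771008) (l 16770880)))) (c (c (l 22) (a (l 16771048) (a (l 16771040) (b (l 16771056) (l 16770992))))) (a (l 16770848) (c (c (l 16770936) (l 16770864)) (l 16770768)))))) (c (c (l 22) (b (b (b (b (l 16770960) (l 16770928)) (c (l 22) (l 16770848))) (c (l 22) (b (l 16770784) (l 16770720)))) (c (l 22) (a (b (a (l 16770640) (l 16770632)) (l 16770512)) (b (b (b (b (l 16770672) (l 16770656)) (l 16770632)) (l 16770584)) (l 16770488)))))) (a (b (b (l 16770720) (l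 16770584)) (b (c (l 16770528) (l 16770384)) (a (l 16770336) (l 16770320)))) (b (b (c (c (l 16770800) (l 16770736)) (l 16770632)) (c (c (l 16770672) (l 16770608)) (l 16770504))) (b (b (b (b (l 16770496) (l 16770480)) (l 16770456)) (l 16770408)) (b (l 16770344) (l 16770280))))))), by decide +kernel⟩

def k113_A00pm_102_s1 : ∃ t, chk3 f_A00pm_102_s1 t 254 134 1 = true :=
  ⟨(b (a (a (b (a (c (l 16774296) (l 16774048)) (a (l 16774016) (l 16773912))) (a (c (l 16774216) (l 16773952)) (c (l 16774000) (l 16773728)))) (b (b (a (l 16773776) (l 16773560)) (a (l 16773720) (l 16773504))) (a (c (l 16773784) (l 16773504)) (a (l 16773472) (l 16773352))))) (a (b (b (a (l 16773336) (c (l 16773248) (l 16772976))) (a (l 16773272) (c (l 22) (l 16772904)))) (a (a (l 16773240) (l 16773120)) (a (l 16773000) (l 16772872)))) (b (a (a (a (l 16772928) (l 16772872)) (a (l 16772808) (l 16772752))) (a (a (l 16772688) (l 16772624)) (b (l 16772576) (l 16772496)))) (c (l 22) (a (b (l 16772584) (l 16772504)) (a (l 16772352) (l 16772224)))))))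 (a (a (a (b (c (l 16774144) (l 16773856)) (l 16773912)) (b (c (l 16773912) (l 16773624)) (c (l 16773824) (l 16773528)))) (b (a (c (l 16773680) (l 16773392)) (c (l 16773448) (l 16773152))) (a (c (l 16773584) (l 16773280)) (c (l 16773336) (l 16773032))))) (c (a (a (b (l 16773200) (l 16773080)) (l 22)) (l 22)) (a (a (b (c (l 16772976) (l 16772832)) (l 16772768)) (a (b (l 16772712) (l 16772576)) (b (l 16772584) (l 16772440)))) (a (a (b (l 16772456) (l 16772304)) (b (l 16772328) (l 16772168))) (b (a (l 16772192) (l 16772056)) (a (l 16772032) (l 16771896)))))))), by decide +kernel⟩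

def k114_A00pm_102_s1 : ∃ t, chk3 f_A00pm_102_s1 t 254 135 1 = true :=
  ⟨(a (b (a (a (b (l 16773832) (l 16773752)) (b (l 16773584) (l 16773496))) (a (b (l 16773328) (l 16773232)) (b (c (l 16773232) (l 16772912)) (l 16772960)))) (a (a (b (l 16773672) (l 16773592)) (b (l 16773400) (l 16773312))) (a (b (l 16773128) (l 16773032)) (b (l 16772848) (l 16772744))))) (a (a (b (c (b (l 16772968) (l 16772856)) (b (l 16772640) (l 16772512))) (b (l 16772568) (c (l 16772096) (l 16772264)))) (c (l 22) (b (b (l 16772368) (l 16772232)) (b (l 16772096) (l 16771960))))) (c (l 22) (b (a (b (c (l 16772176) (l 16772008)) (l 16771944)) (a (b (l 16771872) (l 16771720)) (b (l 16771728) (l 16771568)))) (a (b (l 16771792) (l 16771648)) (b (l 16771488) (c (l 22) (l 16771240)))))))), by decide +kernel⟩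

def k115_A00pm_102_s1 : ∃ t, chk3 f_A00pm_102_s1 t 510 134 1 = true :=
  ⟨(c (c (l 22) (b (b (b (a (a (a (l 16772520) (l 16772392)) (a (l 16772272) (l 16772144))) (a (a (l 16772008) (l 16771880)) (a (l 16771744) (l 16771608)))) (l 22)) (l 22)) (l 22))) (a (b (a (b (a (a (l 16772304) (l 16772240)) (a (l 16772176) (l 16772112))) (a (c (l 16772168) (l 16772024)) (a (l 16771992) (l 16771928)))) (b (a (a (l 16772048) (l 16771976)) (b (l 16771928) (l 16771832))) (a (a (l 16771864) (l 16771792)) (a (l 16771728) (l 16771656))))) (a (b (a (l 16771920) (l 16771784)) (a (l 16771752) (l 16771608))) (b (a (l 16771648) (c (l 16771584) (l 16771424))) (a (l 16771464) (l 16771320))))) (b (a (b (a (b (l 16771800) (l 16771704)) (b (a (l 16771696) (l 16771632)) (l 16771568))) (a (a (l 16771592) (l 16771520)) (a (l 16771448) (l 16771384)))) (b (a (b (a (l 16771568) (l 16771496)) (l 16771432)) (a (a (l 16771392) (l 16771360)) (b (l 16771360) (l 16771256)))) (a (b (l 16771328) (l 16771224)) (b (l 16771184) (l 16771080)))))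 (a (b (a (a (l 16771400) (l 16771328)) (a (l 16771256) (l 16771184))) (a (c (l 16771256) (l 16771088)) (c (l 16771104) (l 16770944)))) (b (a (a (l 16771112) (l 16771032)) (a (l 16770960) (l 16770888))) (a (a (l 16770912) (l 16770832)) (a (l 16770760) (l 16770680)))))))), by decide +kernel⟩

def k116_A00pm_102_s1 : ∃ t, chk3 f_A00pm_102_s1 t 510 135 1 = true :=
  ⟨(b (b (c (l 22) (a (a (a (l 16771584) (l 16771440)) (a (l 16771288) (l 16771136))) (a (a (l 16770984) (l 16770832)) (a (c (l 16770760) (l 16770584)) (a (l 16770552) (l 16770472)))))) (c (l 22) (c (l 22) (a (a (a (l 16771336) (l 16771176)) (a (l 16771024) (l 16770872))) (a (a (l 16770712) (l 16770552)) (a (l 16770392) (l 16770224))))))) (c (l 22) (c (l 22) (a (a (b (a (l 16771168) (l 16771008)) (a (l 16771000) (l 16770840))) (b (a (l 16770848) (l 16770688)) (a (l 16770672) (l 16770504)))) (a (b (a (l 16770520) (l 16770360)) (a (l 16770336) (l 16770168))) (b (a (l 16770192) (l 16770024)) (a (l 16770000) (b (l 16769872) (l 16769776))))))))),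 by decide +kernel⟩

def k117_A00pm_102_s1 : ∃ t, chk3 f_A00pm_102_s1 t 1022 134 1 = true :=
  ⟨(c (c (l 22) (c (l 22) (b (b (b (b (a (a (l 16771464) (l 16771328)) (a (l 16771184) (a (l 16771080) (l 16771008)))) (l 22)) (l 22)) (l 22)) (l 22)))) (b (a (b (a (a (b (l 16771296) (l 16771184)) (b (l 16771224) (l 16771112))) (a (b (l 16771152) (l 16771040)) (b (l 16771088) (l 16770976)))) (a (b (a (l 16771080) (l 16771008)) (l 16770936)) (a (a (l 16770896) (l 16770864)) (a (l 16770824) (l 16770784))))) (b (a (a (b (l 16771016) (l 16770904)) (b (l 16770944) (l 16770824))) (a (b (l 16770872) (l 16770752)) (b (c (l 16770872) (l 16770728)) (l 16770680)))) (b (a (a (l 16770784) (l 16770712)) (a (l 16770640) (l 16770568))) (b (a (l 16770664) (l 16770512)) (a (l 16770608) (l 16770456)))))) (a (b (a (a (l 16770808) (l 16770736)) (b (l 16770680) (l 16770568))) (a (a (l 16770600) (l 16770528)) (a (l 16770448) (l 16770368)))) (b (b (b (a (l 16770552) (l 16770400)) (a (l 16770496) (l 16770344))) (a (c (l 16770496)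 (l 16770336)) (a (l 16770296) (l 16770216)))) (a (b (a (l 16770344) (l 16770264)) (l 16770192)) (a (c (l 16770208) (l 16770048)) (a (l 16770064) (l 16770024)))))))), by decide +kernel⟩

def k118_A00pm_102_s1 : ∃ t, chk3 f_A00pm_102_s1 t 1022 135 1 = true :=
  ⟨(c (l 22) (c (b (b (b (a (a (l 16770488) (l 16770328)) (a (l 16770168) (l 16770008))) (l 22)) (l 22)) (l 22)) (a (b (b (a (b (l 16770320) (l 16770216)) (b (l 16770160) (l 16770056))) (a (b (l 16770112) (l 16770008)) (b (l 16769944) (l 16769840)))) (b (a (b (l 16769904) (l 16769800)) (b (l 16769736) (l 16769624))) (a (b (l 16769696) (l 16769600)) (b (l 16769520) (l 16769416))))) (b (b (a (b (l 16770000) (l 16769888)) (b (l 16769832) (l 16769720))) (a (b (l 16769776) (l 16769672)) (b (l 16769608) (l 16769496)))) (b (a (b (l 16769560) (l 16769456)) (a (l 16769376) (l 16769288))) (a (b (l 16769344) (l 16769240)) (b (l 16769168) (l 16769056)))))))), by decide +kernel⟩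

def k119_A00pm_102_s1 : ∃ t, chk3 f_A00pm_102_s1 t 2046 134 1 = true :=
  ⟨(b (b (b (c (b (c (l 22) (a (a (l 16770976) (l 16770904)) (a (l 16770832) (l 16770760)))) (l 22)) (a (a (c (l 16770800) (l 16770656)) (c (l 16770728) (l 16770584))) (a (a (l 16770600) (l 16770560)) (a (l 16770528) (l 16770488))))) (c (l 22) (a (a (c (l 16770680) (l 16770536)) (c (l 16770608) (l 16770456))) (a (c (l 16770536) (l 16770384)) (a (l 16770400) (l 16770368)))))) (c (l 22) (a (a (b (l 16770488) (l 16770376)) (b (c (l 16770488) (l 16770336)) (l 16770296))) (a (b (c (l 16770416) (l 16770264)) (c (l 16770296) (l 16770144))) (b (a (l 16770280) (l 16770240)) (c (l 16770216) (l 16770064))))))) (c (l 22) (b (a (a (b (l 16770256) (l 16770136)) (b (l 16770176) (l 16770064))) (a (b (c (l 16770176) (l 16770016)) (l 16769984)) (b (c (l 16770096) (l 16769944)) (c (l 16769984) (l 16769816))))) (b (a (a (l 16770024) (l 16769944)) (a (l 16769864) (c (l 16769864) (l 16769696)))) (a (a (l 16769912) (l 16769824)) (a (l 16769744) (c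 (l 16769744) (l 16769576)))))))), by decide +kernel⟩

def k120_A00pm_102_s1 : ∃ t, chk3 f_A00pm_102_s1 t 2046 135 1 = true :=
  ⟨(b (b (c (l 22) (b (a (a (l 16769792) (l 16769712)) (a (l 16769632) (c (l 16769632) (l 16769456)))) (a (a (l 16769680) (l 16769600)) (a (l 16769512) (a (l 16769448) (l 16769408)))))) (c (l 22) (b (a (a (l 16769568) (l 16769480)) (a (l 16769400) (a (l 16769328) (l 16769288)))) (a (a (l 16769456) (l 16769368)) (a (l 16769280) (a (l 16769216) (l 16769168))))))) (c (l 22) (c (l 22) (c (b (b (b (a (l 16769280) (l 16769104)) (l 22)) (l 22)) (l 22)) (b (a (b (l 16769160) (l 16769048)) (b (a (l 16769032) (l 16768936)) (a (l 16768912) (l 16768824)))) (a (b (l 16768936) (a (l 16768872) (l 16768776))) (b (a (l 16768800) (l 16768704)) (a (l 16768680) (l 16768592))))))))), by decide +kernel⟩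

def k121_A00pm_102_s1 : ∃ t, chk3 f_A00pm_102_s1 t 4094 67 1 = true :=
  ⟨(b (a (c (b (c (l 22) (b (b (a (l 16770672) (l 16770632)) (l 22)) (l 22))) (l 22)) (b (b (b (b (l 16770464) (l 16770400)) (a (l 16770328) (l 16770288))) (b (a (l 16770208) (l 16770168)) (a (l 16770080) (l 16770040)))) (b (b (a (l 16769960) (l 16769920)) (a (l 16769840) (l 16769800))) (b (a (l 16769720) (l 16769680)) (c (l 16769664) (l 16769496)))))) (c (b (c (l 22) (b (b (b (a (l 16770632) (l 16770592)) (l 22)) (l 22)) (l 22))) (l 22)) (c (b (a (b (b (l 16770448) (l 16770328)) (b (l 16770208) (l 16770080))) (b (b (l 16770416) (l 16770288)) (b (l 16770168) (l 16770040)))) (b (a (b (l 16769960) (l 16769840)) (b (l 16769920) (l 16769800))) (c (l 22) (b (l 16769656) (l 16769536))))) (b (b (b (l 16770288) (l 16770160)) (b (l 16770032) (l 16769904))) (b (b (l 16769784) (l 16769656)) (b (l 16769536) (l 16769408))))))) (a (c (l 22) (b (b (b (c (l 16769544) (l 16769376)) (c (l 22) (l 16769256))) (c (l 22) (b (l 16769136) (l 16769016))))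 (c (l 22) (b (b (l 16768896) (l 16768776)) (c (l 22) (b (l 16768616) (l 16768496))))))) (c (l 22) (b (c (b (c (l 22) (b (l 16769416) (l 22))) (l 22)) (b (b (l 16769288) (l 16769168)) (b (l 16769048) (l 16768928)))) (c (l 22) (b (b (l 16768808) (l 16768688)) (c (l 22) (b (l 16768520) (l 16768400))))))))), by decide +kernel⟩

def k122_A00pm_102_s1 : ∃ t, chk3 f_A00pm_102_s1 t 8190 67 1 = true :=
  ⟨(c (b (b (c (l 22) (b (b (b (a (l 16770552) (l 16770520)) (l 22)) (l 22)) (l 22))) (l 22)) (l 22)) (b (b (c (a (b (b (l 16770376) (l 16770248)) (b (l 16770128) (l 16770000))) (b (b (l 16770336) (l 16770216)) (b (l 16770088) (l 16769960)))) (b (b (l 16770208) (l 16770080)) (b (l 16769952) (l 16769824)))) (c (b (a (b (l 16769880) (l 16769760)) (b (l 16769840) (l 16769720))) (a (b (l 16769640) (l 16769520)) (b (l 16769592) (l 16769472)))) (b (c (b (l 16769744) (l 16769616)) (b (l 16769664) (l 16769536))) (c (b (l 16769488) (l 16769368)) (b (l 16769408) (l 16769280)))))) (b (c (b (b (a (l 16769400) (l 16769352))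 (l 22)) (l 22)) (b (c (b (l 16769248) (l 16769120)) (b (l 16769160) (l 16769032))) (a (a (l 16768928) (l 16768904)) (b (l 16768936) (l 16768816))))) (c (l 22) (b (a (b (l 16768736) (l 16768616)) (b (l 16768688) (l 16768568))) (c (l 22) (b (l 16768424) (c (l 22) (l 16768280))))))))), by decide +kernel⟩

def k123_A00pm_102_s1 : ∃ t, chk3 f_A00pm_102_s1 t 8191 67 1 = true :=
  ⟨(b (c (b (b (b (b (b (c (l 22) (a (l 16770496) (l 16770456))) (l 22)) (l 22)) (l 22)) (l 22)) (l 22)) (a (b (c (b (b (l 16770304) (l 16770176)) (b (l 16770048) (l 16769928))) (a (b (l 16770096) (l 16769840)) (b (l 16770080) (l 16769824)))) (b (b (b (l 16769752) (l 16769688)) (c (c (l 22) (l 16769632)) (l 16769512))) (c (c (l 22) (b (l 16769512) (l 16769392))) (b (l 16769384) (l 16769264))))) (b (b (b (c (a (l 16770272) (l 16770256)) (l 16770112)) (c (a (l 16770144) (l 16770128)) (l 16769984))) (b (c (a (l 16770016) (l 16770000)) (l 16769856)) (c (b (l 16769912) (l 16769856)) (l 16769728)))) (b (b (c (b (l 16769792) (l 16769728))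 (l 16769600)) (c (b (l 16769664) (l 16769608)) (l 16769472))) (c (b (b (l 16769544) (l 16769480)) (b (l 16769416) (l 16769360))) (b (l 16769344) (a (l 16769232) (l 16769208)))))))) (c (l 22) (c (b (b (b (b (a (l 16769344) (l 16769296)) (l 22)) (l 22)) (l 22)) (l 22)) (a (b (b (b (l 16769136) (l 16769016)) (b (l 16768888) (l 16768768))) (b (b (l 16768648) (l 16768528)) (c (l 22) (b (l 16768360) (l 16768232))))) (b (b (c (b (l 16769136) (l 16769016)) (b (l 16769048) (l 16768928))) (c (b (l 16768888) (l 16768768)) (b (l 16768800) (l 16768680)))) (b (a (b (l 16768608) (l 16768488)) (b (l 16768592) (l 16768464))) (c (l 22) (b (l 16768312) (c (l 22) (l 16768160)))))))))), by decide +kernel⟩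

def k124_A00pm_102_s1 : ∃ t, chk3 f_A00pm_102_s1 t 30 17 1 = true :=
  ⟨(b (a (a (l 3) (b (l 3) (l 586590863))) (a (b (a (l 587836047) (l 587656847)) (l 587325839)) (a (b (c (l 593598863) (l 580769935)) (l 587366799)) (b (a (l 586521231) (b (l 585287311) (l 586445967))) (l 587248271))))) (a (b (c (a (l 586612879) (l 588169103)) (a (l 580928911) (l 581678735))) (a (l 581792143) (l 583005327))) (b (a (b (l 586370447) (l 585578383)) (a (l 586453903) (l 16951232))) (a (l 584226191) (b (l 17081848) (l 17124624)))))), by decide +kernel⟩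

def k125_A00pm_102_s1 : ∃ t, chk3 f_A00pm_102_s1 t 62 17 1 = true :=
  ⟨(b (b (b (b (c (a (a (l 592214927) (l 16851120)) (a (c (l 16947536) (l 16892264)) (a (l 16952272) (l 16878552)))) (a (a (a (l 575425167) (l 573707663)) (a (l 571679887) (l 569288079))) (a (a (a (l 16817112) (l 16819184)) (c (l 16881296) (a (l 16802144) (l 16810544)))) (a (a (a (l 16777208) (l 16818072)) (a (l 16795648) (b (l 16807712) (l 16821912)))) (a (a (b (l 16784272) (l 16777848)) (a (b (l 16803064) (l 16775976)) (l 16777488))) (b (c (l 16867992) (l 16778200)) (l 16791536))))))) (a (a (a (l 16812664) (l 16830584)) (a (l 16805464) (l 16820784))) (a (a (l 16834104) (a (l 16842432) (l 16847016))) (c (a (l 16984776) (l 16997016)) (b (a (a (l 16881032) (a (l 16795824) (l 16794464))) (a (l 16791688) (l 16786472))) (a (a (l 16811136) (l 16809776)) (a (l 16806992) (l 16802592)))))))) (a (a (c (l 593142159) (l 578191503)) (c (l 16965168) (a (l 16860592) (l 16871744)))) (a (a (a (l 16872168) (l 16879080)) (b (a (l 16871024) (l 16876376))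 (l 16903032))) (a (b (a (l 16880960) (l 16884648)) (l 16913840)) (b (a (l 16803432) (b (l 16880384) (l 16897288))) (l 16879376)))))) (b (a (a (l 16869048) (a (l 16981104) (l 16998832))) (a (a (l 16931680) (l 16946864)) (a (l 16959976) (a (l 16968080) (l 16972496))))) (a (a (l 17003712) (l 17042952)) (a (l 17079744) (l 16943392))))) (a (b (a (l 16993472) (l 17119864)) (l 17192536)) (b (a (l 17160832) (l 17114824)) (l 17282656)))), by decide +kernel⟩

def k126_A00pm_102_s1 : ∃ t, chk3 f_A00pm_102_s1 t 126 68 2 = true :=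
  ⟨(a (b (a (b (l 16883752) (l 17005008)) (b (a (l 16883472) (l 16880864)) (l 16923552))) (a (l 17060344) (l 16983816))) (a (a (b (b (c (l 17005760) (l 16840608)) (l 16920744)) (l 16985696)) (b (b (a (l 16870672) (l 16824304)) (l 16916192)) (l 16984864))) (a (b (b (b (c (l 16983672) (l 16790488)) (l 16871072)) (l 16825272)) (l 16898208)) (a (b (b (a (l 16808040) (l 16804376)) (l 16902040)) (l 16894704)) (b (b (a (l 16779504) (l 16775360)) (l 16812440)) (l 16891616)))))), by decide +kernel⟩

def k127_A00pm_102_s1 : ∃ t, chk3 f_A00pm_102_s1 t 126 68 3 = true :=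
  ⟨(b (a (a (b (a (b (c (l 16861696) (l 16776688)) (c (l 16878752) (l 16782440))) (a (b (l 16779272) (l 16796792)) (l 16776600))) (a (b (l 16779336) (l 16796400)) (a (l 16776256) (l 16776560)))) (b (a (b (c (l 16800128) (l 16776128)) (l 16775680)) (b (l 16775640) (l 16775464))) (a (b (c (l 16881024) (l 16777176)) (l 16777720)) (b (l 16775336) (l 16775200))))) (a (b (a (b (l 16775296) (c (l 16781128) (l 16775184))) (b (l 16774800) (l 16774760))) (a (a (b (l 16783496) (l 16795056)) (l 16774920)) (b (l 16773608) (c (l 16779336) (l 16774592))))) (b (a (b (l 16774280) (l 16774232)) (b (a (l 16773880) (l 16773608)) (a (l 16773816) (l 16773528)))) (a (b (l 16774176) (a (l 16776120) (l 16774320))) (b (a (l 16773744) (l 16773456)) (l 16773528)))))) (b (a (b (a (a (l 16813576) (l 16806408)) (a (l 16797128) (l 16785480))) (a (a (l 16830816) (l 16824632)) (a (l 16816488) (l 16806136)))) (a (a (a (l 16775440) (b (l 16788136) (l 16789696))) (b (l 16774904) (a (l 16781912) (l 16773376)))) (a (a (b (l 16780760) (l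 16785016)) (b (l 16780056) (l 16774848))) (b (a (l 16778376) (l 16775680)) (l 16773632))))) (a (a (a (l 16856680) (l 16851904)) (a (l 16845352) (b (l 16826640) (l 16846952)))) (a (a (b (l 16815216) (l 16836848)) (b (l 16780256) (l 16824360))) (a (b (l 16773872) (l 16777736)) (a (l 16772328) (l 16772424))))))), by decide +kernel⟩

def k128_A00pm_102_s1 : ∃ t, chk3 f_A00pm_102_s1 t 127 68 1 = true :=
  ⟨(a (b (b (a (a (a (b (l 16773512) (l 16772912)) (b (l 16773224) (a (l 16772544) (l 16775392)))) (a (b (l 16772936) (c (l 16784928) (l 16772640))) (b (l 16772632) (l 16772528)))) (a (a (b (l 16772328) (l 16772216)) (c (l 22) (b (l 16771824) (l 22)))) (b (b (a (l 16771736) (l 16771416)) (l 22)) (l 22)))) (a (b (b (a (l 16773472) (a (l 16772736) (l 16772360))) (a (l 16773144) (c (l 16777640) (l 16772352)))) (c (a (l 16816672) (a (l 16805328) (l 16796560))) (a (a (l 16773072) (l 16772752)) (a (l 16772432) (l 16772112))))) (a (a (b (l 16771816) (a (l 16772200) (l 22))) (l 22)) (l 22)))) (a (a (c (b (l 16858688)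 (l 16996024)) (b (a (b (l 16772984) (l 16775464)) (c (l 16772120) (l 16772504))) (a (l 16771632) (b (l 16775992) (l 16784568))))) (c (b (a (l 16849768) (l 16842776)) (l 16987584)) (a (b (a (l 16772368) (l 16772200)) (l 16772392)) (b (b (l 16772000) (l 16771888)) (b (l 16773376) (l 16774048)))))) (a (a (b (c (l 16834872) (b (l 16771656) (l 16771536))) (c (l 16979336) (b (l 16772968) (l 16775064)))) (l 22)) (l 22)))) (c (l 22) (c (l 22) (c (l 22) (b (b (b (b (b (c (l 22) (a (a (a (l 16770744) (l 16770408)) (a (l 16770064) (l 16769712))) (a (a (l 16769360) (a (l 16769088) (l 16768904))) (a (a (l 16768712) (l 16768528)) (a (l 16768336) (a (l 16768192) (l 16768096))))))) (l 22)) (l 22)) (l 22)) (l 22)) (l 22)))))), by decide +kernel⟩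

def k129_A00pm_102_s1 : ∃ t, chk3 f_A00pm_102_s1 t 63 69 1 = true :=
  ⟨(b (b (a (c (a (l 17120368) (l 17050368)) (a (a (l 16889648) (a (l 16883344) (l 16877024))) (a (a (l 16868768) (l 16774480)) (a (c (l 16980688) (l 16773344)) (b (l 16775272) (l 16800864)))))) (a (a (c (l 17044368) (a (a (a (l 16776968) (l 16772160)) (a (l 16788112) (l 16782880))) (a (a (l 16777432) (l 16771760)) (a (l 16776344) (l 16770208))))) (a (a (c (l 17119968) (l 16771024)) (l 22)) (l 22))) (l 22))) (a (a (a (l 16994648) (l 16914872)) (c (l 17176344) (a (a (l 16910232) (l 16902344)) (c (l 17022416) (a (l 16842072) (l 16826408)))))) (c (a (a (l 17177544) (l 17084960)) (c (a (l 17227208) (l 22)) (l 22))) (a (a (a (a (l 16785336) (l 16777216)) (b (l 16770488) (l 16777552))) (a (a (l 16769224) (l 22)) (l 22))) (l 22))))) (a (a (a (l 17045128) (l 16969256)) (c (l 17236040) (a (b (l 16947768) (l 17071384)) (a (l 16875144) (a (l 16953096) (l 16864632)))))) (a (a (c (l 17246344) (a (b (l 16916168) (l 16964480)) (b (a (l 16905792)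 (l 16814160)) (l 16953464)))) (c (l 17245848) (a (a (b (l 16805712) (l 16943656)) (l 22)) (l 22)))) (c (a (l 17069800) (c (l 17302064) (l 22))) (l 22))))), by decide +kernel⟩

def k130_A00pm_102_s1 : ∃ t, chk3 f_A00pm_102_s1 t 63 35 1 = true :=
  ⟨(a (a (b (a (l 17139688) (l 17069944)) (l 17345792)) (b (b (a (l 17130808) (l 17052504)) (l 17204376)) (l 17382424))) (b (a (c (l 17289856) (a (b (l 16945224) (l 17197776)) (b (a (l 16932584) (a (l 17008408) (l 16918432))) (l 17105624)))) (a (c (l 17385760) (b (c (l 17052296) (l 22)) (l 17006752))) (c (l 17134896) (c (b (l 22) (l 17222016)) (l 22))))) (a (l 17159648) (a (l 17257544) (b (l 17219456) (l 17469248)))))), by decide +kernel⟩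

def k131_A00pm_102_s1 : ∃ t, chk3 f_A00pm_102_s1 t 7 9 1 = true :=
  ⟨(a (b (a (b (a (l 3) (b (l 3) (l 572939407))) (b (l 570872719) (a (l 568531087) (l 569297807)))) (b (a (c (l 576683407) (l 573867663)) (c (l 578856591) (l 575781151))) (a (b (l 572441999) (l 570481807)) (b (l 574122895) (l 17060696))))) (b (a (b (a (l 566405263) (l 567227023)) (a (l 563535247) (l 16977992))) (a (b (l 17013976) (l 17056440)) (b (l 17109912) (l 17155176)))) (a (a (l 17003256) (l 17028536)) (a (l 17028208) (l 17217400))))) (a (a (b (b (b (l 580646287) (a (l 17028712) (l 17096712))) (b (l 17042024) (l 17183800))) (b (l 17261160) (l 17345544))) (b (b (b (a (b (l 17081456) (l 17119728)) (l 17185496)) (l 17131704)) (l 17227824)) (l 17458952))) (b (a (b (a (l 17316080) (l 17413664)) (l 17498936)) (a (b (b (l 17467272) (l 17553360)) (l 17657424)) (b (a (l 17582104) (a (l 17613928) (l 17549152))) (l 17767336)))) (a (l 17640464) (l 17851576))))), by decide +kernel⟩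

def k132_A00pm_102_s1 : ∃ t, chk3 f_A00pm_102_s1 t 7 5 1 = true :=
  ⟨(a (b (a (b (b (b (l 17032808) (l 17060064)) (b (l 17087224) (l 17113864))) (l 17164592)) (b (b (l 17398632) (l 17203008)) (l 17342400))) (l 17808592)) (b (a (a (l 17643328) (l 17776760)) (a (l 17849008) (l 17952656))) (a (l 17571216) (b (l 17841336) (l 17785440))))), by decide +kernel⟩

def k133_A00pm_102_s1 : ∃ t, chk3 f_A00pm_102_s1 t 3 3 1 = true :=
  ⟨(b (a (a (b (l 17086208) (l 17217048)) (b (l 17345792) (l 17227904))) (a (b (l 17602088) (l 6)) (b (l 17941360) (l 6)))) (l 6)), by decide +kernel⟩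

theorem t134_A00pm_102_s1 : ∃ t, chk3 f_A00pm_102_s1 t 126 68 1 = true := ex3_c k126_A00pm_102_s1 k127_A00pm_102_s1

theorem t135_A00pm_102_s1 : ∃ t, chk3 f_A00pm_102_s1 t 63 68 1 = true := ex3_a t134_A00pm_102_s1 k128_A00pm_102_s1

theorem t136_A00pm_102_s1 : ∃ t, chk3 f_A00pm_102_s1 t 63 34 1 = true := ex3_b t135_A00pm_102_s1 k129_A00pm_102_s1

theorem t137_A00pm_102_s1 : ∃ t, chk3 f_A00pm_102_s1 t 63 17 1 = true := ex3_b t136_A00pm_102_s1 k130_A00pm_102_s1

theorem t138_A00pm_102_s1 : ∃ t, chk3 f_A00pm_102_s1 t 31 17 1 = true := ex3_a k125_A00pm_102_s1 t137_A00pm_102_s1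

theorem t139_A00pm_102_s1 : ∃ t, chk3 f_A00pm_102_s1 t 15 17 1 = true := ex3_a k124_A00pm_102_s1 t138_A00pm_102_s1

theorem t140_A00pm_102_s1 : ∃ t, chk3 f_A00pm_102_s1 t 4095 67 1 = true := ex3_a k122_A00pm_102_s1 k123_A00pm_102_s1

theorem t141_A00pm_102_s1 : ∃ t, chk3 f_A00pm_102_s1 t 2047 67 1 = true := ex3_a k121_A00pm_102_s1 t140_A00pm_102_s1

theorem t142_A00pm_102_s1 : ∃ t, chk3 f_A00pm_102_s1 t 2046 67 1 = true := ex3_b k119_A00pm_102_s1 k120_A00pm_102_s1

theorem t143_A00pm_102_s1 : ∃ t, chk3 f_A00pm_102_s1 t 1023 67 1 = true := ex3_a t142_A00pm_102_s1 t141_A00pm_102_s1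

theorem t144_A00pm_102_s1 : ∃ t, chk3 f_A00pm_102_s1 t 1022 67 1 = true := ex3_b k117_A00pm_102_s1 k118_A00pm_102_s1

theorem t145_A00pm_102_s1 : ∃ t, chk3 f_A00pm_102_s1 t 511 67 1 = true := ex3_a t144_A00pm_102_s1 t143_A00pm_102_s1

theorem t146_A00pm_102_s1 : ∃ t, chk3 f_A00pm_102_s1 t 510 67 1 = true := ex3_b k115_A00pm_102_s1 k116_A00pm_102_s1

theorem t147_A00pm_102_s1 : ∃ t, chk3 f_A00pm_102_s1 t 255 67 1 = true := ex3_a t146_A00pm_102_s1 t145_A00pm_102_s1

theorem t148_A00pm_102_s1 : ∃ t, chk3 f_A00pm_102_s1 t 254 67 1 = true := ex3_b k113_A00pm_102_s1 k114_A00pm_102_s1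

theorem t149_A00pm_102_s1 : ∃ t, chk3 f_A00pm_102_s1 t 127 67 1 = true := ex3_a t148_A00pm_102_s1 t147_A00pm_102_s1

theorem t150_A00pm_102_s1 : ∃ t, chk3 f_A00pm_102_s1 t 8191 133 1 = true := ex3_a k111_A00pm_102_s1 k112_A00pm_102_s1

theorem t151_A00pm_102_s1 : ∃ t, chk3 f_A00pm_102_s1 t 8191 132 1 = true := ex3_a k109_A00pm_102_s1 k110_A00pm_102_s1

theorem t152_A00pm_102_s1 : ∃ t, chk3 f_A00pm_102_s1 t 8191 66 1 = true := ex3_b t151_A00pm_102_s1 t150_A00pm_102_s1

theorem t153_A00pm_102_s1 : ∃ t, chk3 f_A00pm_102_s1 t 8190 66 1 = true := ex3_b k107_A00pm_102_s1 k108_A00pm_102_s1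

theorem t154_A00pm_102_s1 : ∃ t, chk3 f_A00pm_102_s1 t 4095 66 1 = true := ex3_a t153_A00pm_102_s1 t152_A00pm_102_s1

theorem t155_A00pm_102_s1 : ∃ t, chk3 f_A00pm_102_s1 t 4094 133 1 = true := ex3_b k105_A00pm_102_s1 k106_A00pm_102_s1

theorem t156_A00pm_102_s1 : ∃ t, chk3 f_A00pm_102_s1 t 4094 132 1 = true := ex3_b k103_A00pm_102_s1 k104_A00pm_102_s1

theorem t157_A00pm_102_s1 : ∃ t, chk3 f_A00pm_102_s1 t 4094 66 1 = true := ex3_b t156_A00pm_102_s1 t155_A00pm_102_s1

theorem t158_A00pm_102_s1 : ∃ t, chk3 f_A00pm_102_s1 t 2047 66 1 = true := ex3_a t157_A00pm_102_s1 t154_A00pm_102_s1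

theorem t159_A00pm_102_s1 : ∃ t, chk3 f_A00pm_102_s1 t 2046 133 1 = true := ex3_b k101_A00pm_102_s1 k102_A00pm_102_s1

theorem t160_A00pm_102_s1 : ∃ t, chk3 f_A00pm_102_s1 t 2046 132 1 = true := ex3_b k99_A00pm_102_s1 k100_A00pm_102_s1

theorem t161_A00pm_102_s1 : ∃ t, chk3 f_A00pm_102_s1 t 2046 66 1 = true := ex3_b t160_A00pm_102_s1 t159_A00pm_102_s1

theorem t162_A00pm_102_s1 : ∃ t, chk3 f_A00pm_102_s1 t 1023 66 1 = true := ex3_a t161_A00pm_102_s1 t158_A00pm_102_s1

theorem t163_A00pm_102_s1 : ∃ t, chk3 f_A00pm_102_s1 t 1022 133 1 = true := ex3_b k97_A00pm_102_s1 k98_A00pm_102_s1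

theorem t164_A00pm_102_s1 : ∃ t, chk3 f_A00pm_102_s1 t 1022 264 1 = true := ex3_a k94_A00pm_102_s1 k95_A00pm_102_s1

theorem t165_A00pm_102_s1 : ∃ t, chk3 f_A00pm_102_s1 t 1022 132 1 = true := ex3_b t164_A00pm_102_s1 k96_A00pm_102_s1

theorem t166_A00pm_102_s1 : ∃ t, chk3 f_A00pm_102_s1 t 1022 66 1 = true := ex3_b t165_A00pm_102_s1 t163_A00pm_102_s1

theorem t167_A00pm_102_s1 : ∃ t, chk3 f_A00pm_102_s1 t 511 66 1 = true := ex3_a t166_A00pm_102_s1 t162_A00pm_102_s1

theorem t168_A00pm_102_s1 : ∃ t, chk3 f_A00pm_102_s1 t 1021 133 1 = true := ex3_b k92_A00pm_102_s1 k93_A00pm_102_s1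

theorem t169_A00pm_102_s1 : ∃ t, chk3 f_A00pm_102_s1 t 510 133 1 = true := ex3_a k91_A00pm_102_s1 t168_A00pm_102_s1

theorem t170_A00pm_102_s1 : ∃ t, chk3 f_A00pm_102_s1 t 510 132 1 = true := ex3_a k89_A00pm_102_s1 k90_A00pm_102_s1

theorem t171_A00pm_102_s1 : ∃ t, chk3 f_A00pm_102_s1 t 510 66 1 = true := ex3_b t170_A00pm_102_s1 t169_A00pm_102_s1

theorem t172_A00pm_102_s1 : ∃ t, chk3 f_A00pm_102_s1 t 255 66 1 = true := ex3_a t171_A00pm_102_s1 t167_A00pm_102_s1

theorem t173_A00pm_102_s1 : ∃ t, chk3 f_A00pm_102_s1 t 254 133 1 = true := ex3_a k87_A00pm_102_s1 k88_A00pm_102_s1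

theorem t174_A00pm_102_s1 : ∃ t, chk3 f_A00pm_102_s1 t 254 132 1 = true := ex3_a k85_A00pm_102_s1 k86_A00pm_102_s1

theorem t175_A00pm_102_s1 : ∃ t, chk3 f_A00pm_102_s1 t 254 66 1 = true := ex3_b t174_A00pm_102_s1 t173_A00pm_102_s1

theorem t176_A00pm_102_s1 : ∃ t, chk3 f_A00pm_102_s1 t 127 66 1 = true := ex3_a t175_A00pm_102_s1 t172_A00pm_102_s1

theorem t177_A00pm_102_s1 : ∃ t, chk3 f_A00pm_102_s1 t 127 33 1 = true := ex3_b t176_A00pm_102_s1 t149_A00pm_102_s1

theorem t178_A00pm_102_s1 : ∃ t, chk3 f_A00pm_102_s1 t 252 67 1 = true := ex3_b k82_A00pm_102_s1 k83_A00pm_102_s1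

theorem t179_A00pm_102_s1 : ∃ t, chk3 f_A00pm_102_s1 t 126 67 1 = true := ex3_a t178_A00pm_102_s1 k84_A00pm_102_s1

theorem t180_A00pm_102_s1 : ∃ t, chk3 f_A00pm_102_s1 t 126 133 1 = true := ex3_a k80_A00pm_102_s1 k81_A00pm_102_s1

theorem t181_A00pm_102_s1 : ∃ t, chk3 f_A00pm_102_s1 t 126 265 3 = true := ex3_a k78_A00pm_102_s1 k79_A00pm_102_s1

theorem t182_A00pm_102_s1 : ∃ t, chk3 f_A00pm_102_s1 t 126 265 1 = true := ex3_c k77_A00pm_102_s1 t181_A00pm_102_s1

theorem t183_A00pm_102_s1 : ∃ t, chk3 f_A00pm_102_s1 t 126 529 3 = true := ex3_c k75_A00pm_102_s1 k76_A00pm_102_s1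

theorem t184_A00pm_102_s1 : ∃ t, chk3 f_A00pm_102_s1 t 126 529 1 = true := ex3_c k74_A00pm_102_s1 t183_A00pm_102_s1

theorem t185_A00pm_102_s1 : ∃ t, chk3 f_A00pm_102_s1 t 126 264 1 = true := ex3_b k73_A00pm_102_s1 t184_A00pm_102_s1

theorem t186_A00pm_102_s1 : ∃ t, chk3 f_A00pm_102_s1 t 126 132 1 = true := ex3_b t185_A00pm_102_s1 t182_A00pm_102_s1

theorem t187_A00pm_102_s1 : ∃ t, chk3 f_A00pm_102_s1 t 126 66 1 = true := ex3_b t186_A00pm_102_s1 t180_A00pm_102_s1

theorem t188_A00pm_102_s1 : ∃ t, chk3 f_A00pm_102_s1 t 126 33 1 = true := ex3_b t187_A00pm_102_s1 t179_A00pm_102_s1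

theorem t189_A00pm_102_s1 : ∃ t, chk3 f_A00pm_102_s1 t 63 33 1 = true := ex3_a t188_A00pm_102_s1 t177_A00pm_102_s1

theorem t190_A00pm_102_s1 : ∃ t, chk3 f_A00pm_102_s1 t 125 67 1 = true := ex3_b k71_A00pm_102_s1 k72_A00pm_102_s1

theorem t191_A00pm_102_s1 : ∃ t, chk3 f_A00pm_102_s1 t 125 33 1 = true := ex3_b k70_A00pm_102_s1 t190_A00pm_102_s1

theorem t192_A00pm_102_s1 : ∃ t, chk3 f_A00pm_102_s1 t 62 33 1 = true := ex3_a k69_A00pm_102_s1 t191_A00pm_102_s1

theorem t193_A00pm_102_s1 : ∃ t, chk3 f_A00pm_102_s1 t 31 33 1 = true := ex3_a t192_A00pm_102_s1 t189_A00pm_102_s1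

theorem t194_A00pm_102_s1 : ∃ t, chk3 f_A00pm_102_s1 t 8191 263 1 = true := ex3_a k67_A00pm_102_s1 k68_A00pm_102_s1

theorem t195_A00pm_102_s1 : ∃ t, chk3 f_A00pm_102_s1 t 4095 263 1 = true := ex3_a k66_A00pm_102_s1 t194_A00pm_102_s1

theorem t196_A00pm_102_s1 : ∃ t, chk3 f_A00pm_102_s1 t 4095 262 1 = true := ex3_b k64_A00pm_102_s1 k65_A00pm_102_s1

theorem t197_A00pm_102_s1 : ∃ t, chk3 f_A00pm_102_s1 t 4095 131 1 = true := ex3_b t196_A00pm_102_s1 t195_A00pm_102_s1

theorem t198_A00pm_102_s1 : ∃ t, chk3 f_A00pm_102_s1 t 4094 131 1 = true := ex3_a k62_A00pm_102_s1 k63_A00pm_102_s1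

theorem t199_A00pm_102_s1 : ∃ t, chk3 f_A00pm_102_s1 t 2047 131 1 = true := ex3_a t198_A00pm_102_s1 t197_A00pm_102_s1

theorem t200_A00pm_102_s1 : ∃ t, chk3 f_A00pm_102_s1 t 2046 263 1 = true := ex3_b k60_A00pm_102_s1 k61_A00pm_102_s1

theorem t201_A00pm_102_s1 : ∃ t, chk3 f_A00pm_102_s1 t 2046 262 1 = true := ex3_b k58_A00pm_102_s1 k59_A00pm_102_s1

theorem t202_A00pm_102_s1 : ∃ t, chk3 f_A00pm_102_s1 t 2046 131 1 = true := ex3_b t201_A00pm_102_s1 t200_A00pm_102_s1

theorem t203_A00pm_102_s1 : ∃ t, chk3 f_A00pm_102_s1 t 1023 131 1 = true := ex3_a t202_A00pm_102_s1 t199_A00pm_102_s1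

theorem t204_A00pm_102_s1 : ∃ t, chk3 f_A00pm_102_s1 t 1022 131 3 = true := ex3_b k56_A00pm_102_s1 k57_A00pm_102_s1

theorem t205_A00pm_102_s1 : ∃ t, chk3 f_A00pm_102_s1 t 1022 262 2 = true := ex3_a k53_A00pm_102_s1 k54_A00pm_102_s1

theorem t206_A00pm_102_s1 : ∃ t, chk3 f_A00pm_102_s1 t 1022 131 2 = true := ex3_b t205_A00pm_102_s1 k55_A00pm_102_s1

theorem t207_A00pm_102_s1 : ∃ t, chk3 f_A00pm_102_s1 t 1022 131 1 = true := ex3_c t206_A00pm_102_s1 t204_A00pm_102_s1

theorem t208_A00pm_102_s1 : ∃ t, chk3 f_A00pm_102_s1 t 511 131 1 = true := ex3_a t207_A00pm_102_s1 t203_A00pm_102_s1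

theorem t209_A00pm_102_s1 : ∃ t, chk3 f_A00pm_102_s1 t 510 263 1 = true := ex3_b k51_A00pm_102_s1 k52_A00pm_102_s1

theorem t210_A00pm_102_s1 : ∃ t, chk3 f_A00pm_102_s1 t 1021 262 1 = true := ex3_c k49_A00pm_102_s1 k50_A00pm_102_s1

theorem t211_A00pm_102_s1 : ∃ t, chk3 f_A00pm_102_s1 t 510 262 1 = true := ex3_a k48_A00pm_102_s1 t210_A00pm_102_s1

theorem t212_A00pm_102_s1 : ∃ t, chk3 f_A00pm_102_s1 t 510 131 1 = true := ex3_b t211_A00pm_102_s1 t209_A00pm_102_s1

theorem t213_A00pm_102_s1 : ∃ t, chk3 f_A00pm_102_s1 t 255 131 1 = true := ex3_a t212_A00pm_102_s1 t208_A00pm_102_s1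

theorem t214_A00pm_102_s1 : ∃ t, chk3 f_A00pm_102_s1 t 1022 523 1 = true := ex3_a k45_A00pm_102_s1 k46_A00pm_102_s1

theorem t215_A00pm_102_s1 : ∃ t, chk3 f_A00pm_102_s1 t 511 523 1 = true := ex3_a t214_A00pm_102_s1 k47_A00pm_102_s1

theorem t216_A00pm_102_s1 : ∃ t, chk3 f_A00pm_102_s1 t 511 261 1 = true := ex3_b k44_A00pm_102_s1 t215_A00pm_102_s1

theorem t217_A00pm_102_s1 : ∃ t, chk3 f_A00pm_102_s1 t 511 130 1 = true := ex3_b k43_A00pm_102_s1 t216_A00pm_102_s1

theorem t218_A00pm_102_s1 : ∃ t, chk3 f_A00pm_102_s1 t 1021 261 1 = true := ex3_a k41_A00pm_102_s1 k42_A00pm_102_s1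

theorem t219_A00pm_102_s1 : ∃ t, chk3 f_A00pm_102_s1 t 1021 130 1 = true := ex3_b k40_A00pm_102_s1 t218_A00pm_102_s1

theorem t220_A00pm_102_s1 : ∃ t, chk3 f_A00pm_102_s1 t 1020 130 1 = true := ex3_b k38_A00pm_102_s1 k39_A00pm_102_s1

theorem t221_A00pm_102_s1 : ∃ t, chk3 f_A00pm_102_s1 t 510 130 1 = true := ex3_a t220_A00pm_102_s1 t219_A00pm_102_s1

theorem t222_A00pm_102_s1 : ∃ t, chk3 f_A00pm_102_s1 t 255 130 1 = true := ex3_a t221_A00pm_102_s1 t217_A00pm_102_s1

theorem t223_A00pm_102_s1 : ∃ t, chk3 f_A00pm_102_s1 t 255 65 1 = true := ex3_b t222_A00pm_102_s1 t213_A00pm_102_s1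

theorem t224_A00pm_102_s1 : ∃ t, chk3 f_A00pm_102_s1 t 509 131 1 = true := ex3_b k36_A00pm_102_s1 k37_A00pm_102_s1

theorem t225_A00pm_102_s1 : ∃ t, chk3 f_A00pm_102_s1 t 508 262 1 = true := ex3_a k33_A00pm_102_s1 k34_A00pm_102_s1

theorem t226_A00pm_102_s1 : ∃ t, chk3 f_A00pm_102_s1 t 508 131 1 = true := ex3_b t225_A00pm_102_s1 k35_A00pm_102_s1

theorem t227_A00pm_102_s1 : ∃ t, chk3 f_A00pm_102_s1 t 254 131 1 = true := ex3_a t226_A00pm_102_s1 t224_A00pm_102_s1

theorem t228_A00pm_102_s1 : ∃ t, chk3 f_A00pm_102_s1 t 509 261 1 = true := ex3_a k31_A00pm_102_s1 k32_A00pm_102_s1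

theorem t229_A00pm_102_s1 : ∃ t, chk3 f_A00pm_102_s1 t 254 261 1 = true := ex3_a k30_A00pm_102_s1 t228_A00pm_102_s1

theorem t230_A00pm_102_s1 : ∃ t, chk3 f_A00pm_102_s1 t 1019 520 1 = true := ex3_b k27_A00pm_102_s1 k28_A00pm_102_s1

theorem t231_A00pm_102_s1 : ∃ t, chk3 f_A00pm_102_s1 t 1019 260 1 = true := ex3_b t230_A00pm_102_s1 k29_A00pm_102_s1

theorem t232_A00pm_102_s1 : ∃ t, chk3 f_A00pm_102_s1 t 509 260 1 = true := ex3_a k26_A00pm_102_s1 t231_A00pm_102_s1

theorem t233_A00pm_102_s1 : ∃ t, chk3 f_A00pm_102_s1 t 508 260 1 = true := ex3_a k24_A00pm_102_s1 k25_A00pm_102_s1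

theorem t234_A00pm_102_s1 : ∃ t, chk3 f_A00pm_102_s1 t 254 260 1 = true := ex3_a t233_A00pm_102_s1 t232_A00pm_102_s1

theorem t235_A00pm_102_s1 : ∃ t, chk3 f_A00pm_102_s1 t 254 130 1 = true := ex3_b t234_A00pm_102_s1 t229_A00pm_102_s1

theorem t236_A00pm_102_s1 : ∃ t, chk3 f_A00pm_102_s1 t 254 65 1 = true := ex3_b t235_A00pm_102_s1 t227_A00pm_102_s1

theorem t237_A00pm_102_s1 : ∃ t, chk3 f_A00pm_102_s1 t 127 65 1 = true := ex3_a t236_A00pm_102_s1 t223_A00pm_102_s1

theorem t238_A00pm_102_s1 : ∃ t, chk3 f_A00pm_102_s1 t 507 131 1 = true := ex3_b k22_A00pm_102_s1 k23_A00pm_102_s1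

theorem t239_A00pm_102_s1 : ∃ t, chk3 f_A00pm_102_s1 t 253 131 1 = true := ex3_a k21_A00pm_102_s1 t238_A00pm_102_s1

theorem t240_A00pm_102_s1 : ∃ t, chk3 f_A00pm_102_s1 t 253 260 1 = true := ex3_a k18_A00pm_102_s1 k19_A00pm_102_s1

theorem t241_A00pm_102_s1 : ∃ t, chk3 f_A00pm_102_s1 t 253 130 1 = true := ex3_b t240_A00pm_102_s1 k20_A00pm_102_s1

theorem t242_A00pm_102_s1 : ∃ t, chk3 f_A00pm_102_s1 t 253 65 1 = true := ex3_b t241_A00pm_102_s1 t239_A00pm_102_s1

theorem t243_A00pm_102_s1 : ∃ t, chk3 f_A00pm_102_s1 t 126 65 1 = true := ex3_a k17_A00pm_102_s1 t242_A00pm_102_s1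

theorem t244_A00pm_102_s1 : ∃ t, chk3 f_A00pm_102_s1 t 63 65 1 = true := ex3_a t243_A00pm_102_s1 t237_A00pm_102_s1

theorem t245_A00pm_102_s1 : ∃ t, chk3 f_A00pm_102_s1 t 31 65 1 = true := ex3_a k16_A00pm_102_s1 t244_A00pm_102_s1

theorem t246_A00pm_102_s1 : ∃ t, chk3 f_A00pm_102_s1 t 509 519 1 = true := ex3_a k13_A00pm_102_s1 k14_A00pm_102_s1

theorem t247_A00pm_102_s1 : ∃ t, chk3 f_A00pm_102_s1 t 509 259 1 = true := ex3_b k12_A00pm_102_s1 t246_A00pm_102_s1

theorem t248_A00pm_102_s1 : ∃ t, chk3 f_A00pm_102_s1 t 509 129 1 = true := ex3_b k11_A00pm_102_s1 t247_A00pm_102_s1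

theorem t249_A00pm_102_s1 : ∃ t, chk3 f_A00pm_102_s1 t 1017 259 1 = true := ex3_b k9_A00pm_102_s1 k10_A00pm_102_s1

theorem t250_A00pm_102_s1 : ∃ t, chk3 f_A00pm_102_s1 t 508 259 1 = true := ex3_a k8_A00pm_102_s1 t249_A00pm_102_s1

theorem t251_A00pm_102_s1 : ∃ t, chk3 f_A00pm_102_s1 t 508 129 1 = true := ex3_b k7_A00pm_102_s1 t250_A00pm_102_s1

theorem t252_A00pm_102_s1 : ∃ t, chk3 f_A00pm_102_s1 t 254 129 1 = true := ex3_a t251_A00pm_102_s1 t248_A00pm_102_s1

theorem t253_A00pm_102_s1 : ∃ t, chk3 f_A00pm_102_s1 t 254 64 1 = true := ex3_b k6_A00pm_102_s1 t252_A00pm_102_s1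

theorem t254_A00pm_102_s1 : ∃ t, chk3 f_A00pm_102_s1 t 127 64 1 = true := ex3_a t253_A00pm_102_s1 k15_A00pm_102_s1

theorem t255_A00pm_102_s1 : ∃ t, chk3 f_A00pm_102_s1 t 63 64 1 = true := ex3_a k5_A00pm_102_s1 t254_A00pm_102_s1

theorem t256_A00pm_102_s1 : ∃ t, chk3 f_A00pm_102_s1 t 31 64 1 = true := ex3_a k4_A00pm_102_s1 t255_A00pm_102_s1

theorem t257_A00pm_102_s1 : ∃ t, chk3 f_A00pm_102_s1 t 31 32 1 = true := ex3_b t256_A00pm_102_s1 t245_A00pm_102_s1

theorem t258_A00pm_102_s1 : ∃ t, chk3 f_A00pm_102_s1 t 31 16 1 = true := ex3_b t257_A00pm_102_s1 t193_A00pm_102_s1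

theorem t259_A00pm_102_s1 : ∃ t, chk3 f_A00pm_102_s1 t 15 16 1 = true := ex3_a k3_A00pm_102_s1 t258_A00pm_102_s1

theorem t260_A00pm_102_s1 : ∃ t, chk3 f_A00pm_102_s1 t 15 8 1 = true := ex3_b t259_A00pm_102_s1 t139_A00pm_102_s1

theorem t261_A00pm_102_s1 : ∃ t, chk3 f_A00pm_102_s1 t 7 8 1 = true := ex3_a k2_A00pm_102_s1 t260_A00pm_102_s1

theorem t262_A00pm_102_s1 : ∃ t, chk3 f_A00pm_102_s1 t 7 4 1 = true := ex3_b t261_A00pm_102_s1 k131_A00pm_102_s1

theorem t263_A00pm_102_s1 : ∃ t, chk3 f_A00pm_102_s1 t 7 2 1 = true := ex3_b t262_A00pm_102_s1 k132_A00pm_102_s1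

theorem t264_A00pm_102_s1 : ∃ t, chk3 f_A00pm_102_s1 t 3 2 1 = true := ex3_a k1_A00pm_102_s1 t263_A00pm_102_s1

theorem t265_A00pm_102_s1 : ∃ t, chk3 f_A00pm_102_s1 t 3 1 1 = true := ex3_b t264_A00pm_102_s1 k133_A00pm_102_s1

theorem t266_A00pm_102_s1 : ∃ t, chk3 f_A00pm_102_s1 t 1 1 1 = true := ex3_a k0_A00pm_102_s1 t265_A00pm_102_s1

theorem c_A00pm_102_s1 : CertF 536870912 536870912 0 536870912 33554432 16777216 true true false .npp 1 0 2
    ndF0q1 ndF0q0 pcF2 cut_A00pm_102_s1 xt_A00pm_102_s1 :=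
  certFK1 (fam := true) (s1 := true) (s2 := false) (a := 1) (b := 0) (c := 2) (cn := .npp) (n1 := ndF0q1) (n2 := ndF0q0) (pc := pcF2) (cut := cut_A00pm_102_s1) (xt := xt_A00pm_102_s1) (P1 := 536870912) (W1 := 536870912) (P2 := 0) (W2 := 536870912) (P3 := 33554432) (W3 := 16777216)
    rfl rfl rfl (fun _ => rfl) t266_A00pm_102_s1

theorem s_A00pm_102_s1 {κ x : ℝ} (hκ : κ * h0 = ken x) (hx : ((33554432 : ℕ) : ℝ) / S ≤ x)
    (hx' : x ≤ (((33554432 : ℕ) : ℝ) + (16777216 : ℕ)) / S)
    (H : CutA (VF κ) PP tKF tL pcF (Cut.of [[⟨0, 1, 0, 12582912⟩, ⟨1, 0, 0, 12582912⟩, ⟨2, 1, 0, 12582912⟩], [⟨0, 1, 0, 6291456⟩, ⟨1, 0, 1, 16777216⟩, ⟨2, 1, 1, 16777216⟩, ⟨1, 0, 0, 67108864⟩, ⟨1, 1, 0, 1056964608⟩, ⟨2, 1, 0, 67108864⟩, ⟨2, 2, 0, 1056964608⟩]]) 1 0 2 0 0 (sgb true) (sgb false) x) :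
    AltA (VF κ) PP tKF tL pcF [⟨3, 0, 0, 1449551462⟩] 1 0 2 0 0 (sgb true) (sgb false) x :=
  strip_altA (m := 1449551462) true rfl hκ covF01 covF00 hx hx' c_A00pm_102_s1 H ((okx hx hx').extA (T := tt) (sideF hx hx') hκ rfl rfl (.O 1 true) (.O 0 false) rfl)

end Pool.Agent.Strip051.G.I1_32_3_64.Tab.St.C
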