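import Pool.Agent.Strip051.G.I1_32_3_64.StF

/-! # Unit strips 4 (generated) -/

set_option linter.all false
set_option maxRecDepth 100000

namespace Pool.Agent.Strip051.G.I1_32_3_64.Tab.St.C

open Pool.Agent.Strip051.PB Pool.Agent.Strip051.PB.T Pool.Agent.StripNear Pool.Agent.Strip051.LC
open Pool.Agent.Strip051.G.I1_32_3_64.Tab Pool.Agent.Strip051.G.I1_32_3_64.Tab.St

noncomputable def cut_A00pm_102_s3 : Cut := Cut.of [[⟨3, 0, 0, 2845415833⟩], [⟨0, 1, 0, 12582912⟩, ⟨1, 0, 0, 12582912⟩, ⟨2, 1, 0, 12582912⟩], [⟨0, 1, 0, 6291456⟩, ⟨1, 0, 1, 16777216⟩, ⟨2, 1, 1, 16777216⟩, ⟨1, 0, 0, 67108864⟩, ⟨1, 1, 0, 1056964608⟩, ⟨2, 1, 0, 67108864⟩, ⟨2, 2, 0, 1056964608⟩]]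

noncomputable def f_A00pm_102_s3 : ℕ → ℕ → ℕ → ℕ → Bool := onCell 536870912 536870912 0 536870912 33554432 16777216
    (rowFK 0 true true false .npp 1 0 2 (qsf 536870912 536870912 0 536870912 2) ndF0q1 ndF0q0 pcF2 cut_A00pm_102_s3 Ext.none)

def k0_A00pm_102_s3 : ∃ t, chk3 f_A00pm_102_s3 t 1 1 1 = true :=
  ⟨(l 6), by decide +kernel⟩

theorem c_A00pm_102_s3 : CertF 536870912 536870912 0 536870912 33554432 16777216 true true false .npp 1 0 2
    ndF0q1 ndF0q0 pcF2 cut_A00pm_102_s3 Ext.none :=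
  certFK0 (fam := true) (s1 := true) (s2 := false) (a := 1) (b := 0) (c := 2) (cn := .npp) (n1 := ndF0q1) (n2 := ndF0q0) (pc := pcF2) (cut := cut_A00pm_102_s3) (xt := Ext.none) (P1 := 536870912) (W1 := 536870912) (P2 := 0) (W2 := 536870912) (P3 := 33554432) (W3 := 16777216)
    rfl rfl rfl k0_A00pm_102_s3

theorem s_A00pm_102_s3 {κ x : ℝ} (hκ : κ * h0 = ken x) (hx : ((33554432 : ℕ) : ℝ) / S ≤ x)
    (hx' : x ≤ (((33554432 : ℕ) : ℝ) + (16777216 : ℕ)) / S)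
    (H : CutA (VF κ) PP tKF tL pcF (Cut.of [[⟨0, 1, 0, 12582912⟩, ⟨1, 0, 0, 12582912⟩, ⟨2, 1, 0, 12582912⟩], [⟨0, 1, 0, 6291456⟩, ⟨1, 0, 1, 16777216⟩, ⟨2, 1, 1, 16777216⟩, ⟨1, 0, 0, 67108864⟩, ⟨1, 1, 0, 1056964608⟩, ⟨2, 1, 0, 67108864⟩, ⟨2, 2, 0, 1056964608⟩]]) 1 0 2 0 0 (sgb true) (sgb false) x) :
    AltA (VF κ) PP tKF tL pcF [⟨4, 0, 0, 2845415833⟩] 1 0 2 0 0 (sgb true) (sgb false) x :=
  strip_altA (m := 2845415833) false rfl hκ covF01 covF00 hx hx' c_A00pm_102_s3 H (noExt_A)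

noncomputable def cut_A00pm_112_s1 : Cut := Cut.of [[⟨4, 0, 0, 1449551462⟩]]

noncomputable def xt_A00pm_112_s1 : Ext := strExt dd true true false .u0 .u0m .u2 .dn 1 1 2 rfl rfl gf2 vv ndF0q1 ndF0q1

noncomputable def f_A00pm_112_s1 : ℕ → ℕ → ℕ → ℕ → Bool := onCell 1073741824 536870912 536870912 536870912 33554432 16777216
    (rowFK 2 true true false .dn 1 1 2 (qsf 536870912 536870912 536870912 536870912 2) ndF0q1 ndF0q1 pcF2 cut_A00pm_112_s1 xt_A00pm_112_s1)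

def k0_A00pm_112_s1 : ∃ t, chk3 f_A00pm_112_s1 t 2 1 1 = true :=
  ⟨(b (a (a (l 3) (l 3)) (b (a (a (a (l 3) (a (l 3) (a (b (b (b (a (l 3) (a (l 3) (l 549322639))) (l 3)) (l 3)) (l 3)) (b (b (a (b (b (a (a (l 546407311) (l 16780568)) (l 16781992)) (a (a (l 545882511) (l 547911055)) (l 16791832))) (l 546319439)) (b (l 16806048) (b (l 16784304) (l 16782728)))) (a (l 545810255) (a (a (l 545796399) (b (l 16785608) (b (l 16779120) (b (l 16778680) (l 16778456))))) (l 545782367)))) (a (b (l 3) (l 545868095)) (a (a (l 545542959) (a (a (l 545533743) (a (l 545530927) (b (b (b (l 16778136) (l 16777968)) (b (l 16777984) (l 16778184))) (b (b (l 16778568) (l 16779144)) (l 16790928))))) (l 545524575))) (l 545505887))))))) (b (a (b (a (b (l 16839952) (l 16839328)) (l 16899304)) (l 545685599)) (l 17009656)) (a (l 545253471) (l 16919936)))) (b (a (l 17125696) (l 17064488)) (l 17262664))) (a (a (b (a (l 3) (b (a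 (l 3) (a (a (l 3) (b (a (l 3) (a (l 3) (l 545558143))) (l 552246287))) (b (a (a (l 546388495) (l 546358143)) (l 16794136)) (a (a (b (l 546638607) (l 16791776)) (l 16792432)) (l 16806904))))) (a (l 1) (a (l 1) (a (l 1) (l 16823632)))))) (l 1)) (b (a (a (b (b (l 16838648) (l 16840312)) (l 16837488)) (l 16917872)) (l 17007768)) (l 141768095751))) (b (l 17335880) (l 17191080))))) (a (l 1) (b (a (l 1) (b (l 17302392) (l 1))) (l 1)))), by decide +kernel⟩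

def k1_A00pm_112_s1 : ∃ t, chk3 f_A00pm_112_s1 t 3 1 1 = true :=
  ⟨(a (b (b (b (a (l 17261048) (l 17395656)) (a (l 17294592) (l 17161152))) (a (b (l 17177920) (l 17195464)) (b (l 17209584) (l 17116072)))) (b (a (b (l 17086208) (l 17346336)) (b (l 17133152) (l 17228120))) (b (a (l 1) (l 6)) (l 1)))) (b (b (l 6) (l 6)) (l 6))), by decide +kernel⟩

theorem t2_A00pm_112_s1 : ∃ t, chk3 f_A00pm_112_s1 t 1 1 1 = true := ex3_a k0_A00pm_112_s1 k1_A00pm_112_s1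

theorem c_A00pm_112_s1 : CertF 536870912 536870912 536870912 536870912 33554432 16777216 true true false .dn 1 1 2
    ndF0q1 ndF0q1 pcF2 cut_A00pm_112_s1 xt_A00pm_112_s1 :=
  certFK2 (fam := true) (s1 := true) (s2 := false) (a := 1) (b := 1) (c := 2) (cn := .dn) (n1 := ndF0q1) (n2 := ndF0q1) (pc := pcF2) (cut := cut_A00pm_112_s1) (xt := xt_A00pm_112_s1) (P1 := 536870912) (W1 := 536870912) (P2 := 536870912) (W2 := 536870912) (P3 := 33554432) (W3 := 16777216)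
    rfl rfl rfl (fun _ => rfl) t2_A00pm_112_s1

theorem s_A00pm_112_s1 {κ x : ℝ} (hκ : κ * h0 = ken x) (hx : ((33554432 : ℕ) : ℝ) / S ≤ x)
    (hx' : x ≤ (((33554432 : ℕ) : ℝ) + (16777216 : ℕ)) / S) :
    AltA (VF κ) PP tKF tL pcF [⟨3, 0, 0, 1449551462⟩] 1 1 2 0 0 (sgb true) (sgb false) x :=
  strip_altA (m := 1449551462) true rfl hκ covF01 covF01 hx hx' c_A00pm_112_s1 cutA_nil ((okx hx hx').extA (T := tt) (sideF hx hx') hκ rfl rfl (.O 1 true) (.O 1 false) rfl)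

noncomputable def cut_A00pm_112_s3 : Cut := Cut.of [[⟨3, 0, 0, 2845415833⟩]]

noncomputable def f_A00pm_112_s3 : ℕ → ℕ → ℕ → ℕ → Bool := onCell 536870912 536870912 1073741824 536870912 33554432 16777216
    (rowFK 1 true true false .dn 1 1 2 (qsf 536870912 536870912 536870912 536870912 2) ndF0q1 ndF0q1 pcF2 cut_A00pm_112_s3 Ext.none)

def k0_A00pm_112_s3 : ∃ t, chk3 f_A00pm_112_s3 t 1 1 1 = true :=
  ⟨(l 6), by decide +kernel⟩

theorem c_A00pm_112_s3 : CertF 536870912 536870912 536870912 536870912 33554432 16777216 true true false .dn 1 1 2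
    ndF0q1 ndF0q1 pcF2 cut_A00pm_112_s3 Ext.none :=
  certFK1 (fam := true) (s1 := true) (s2 := false) (a := 1) (b := 1) (c := 2) (cn := .dn) (n1 := ndF0q1) (n2 := ndF0q1) (pc := pcF2) (cut := cut_A00pm_112_s3) (xt := Ext.none) (P1 := 536870912) (W1 := 536870912) (P2 := 536870912) (W2 := 536870912) (P3 := 33554432) (W3 := 16777216)
    rfl rfl rfl (fun _ => rfl) k0_A00pm_112_s3

theorem s_A00pm_112_s3 {κ x : ℝ} (hκ : κ * h0 = ken x) (hx : ((33554432 : ℕ) : ℝ) / S ≤ x)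
    (hx' : x ≤ (((33554432 : ℕ) : ℝ) + (16777216 : ℕ)) / S) :
    AltA (VF κ) PP tKF tL pcF [⟨4, 0, 0, 2845415833⟩] 1 1 2 0 0 (sgb true) (sgb false) x :=
  strip_altA (m := 2845415833) false rfl hκ covF01 covF01 hx hx' c_A00pm_112_s3 cutA_nil (noExt_A)

noncomputable def cut_A00pm_113_s1 : Cut := Cut.of [[⟨4, 0, 0, 1449551462⟩], [⟨0, 1, 0, 7061502⟩, ⟨1, 1, 0, 7061502⟩, ⟨2, 2, 0, 184626⟩]]

noncomputable def f_A00pm_113_s1 : ℕ → ℕ → ℕ → ℕ → Bool := onCell 536870912 536870912 1610612736 536870912 33554432 16777216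
    (rowFK 1 true true false .nn 1 1 3 (qsf 536870912 536870912 536870912 536870912 3) ndF0q1 ndF0q1 pcF3 cut_A00pm_113_s1 Ext.none)

def k0_A00pm_113_s1 : ∃ t, chk3 f_A00pm_113_s1 t 1 1 1 = true :=
  ⟨(b (a (b (l 6) (l 6)) (l 6)) (l 6)), by decide +kernel⟩

theorem c_A00pm_113_s1 : CertF 536870912 536870912 536870912 536870912 33554432 16777216 true true false .nn 1 1 3
    ndF0q1 ndF0q1 pcF3 cut_A00pm_113_s1 Ext.none :=
  certFK1 (fam := true) (s1 := true) (s2 := false) (a := 1) (b := 1) (c := 3) (cn := .nn) (n1 := ndF0q1) (n2 := ndF0q1) (pc := pcF3) (cut := cut_A00pm_113_s1) (xt := Ext.none) (P1 := 536870912) (W1 := 536870912) (P2 := 536870912) (W2 := 536870912) (P3 := 33554432) (W3 := 16777216)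
    rfl rfl rfl (fun _ => rfl) k0_A00pm_113_s1

theorem s_A00pm_113_s1 {κ x : ℝ} (hκ : κ * h0 = ken x) (hx : ((33554432 : ℕ) : ℝ) / S ≤ x)
    (hx' : x ≤ (((33554432 : ℕ) : ℝ) + (16777216 : ℕ)) / S)
    (H : CutA (VF κ) PP tKF tL pcF (Cut.of [[⟨0, 1, 0, 7061502⟩, ⟨1, 1, 0, 7061502⟩, ⟨2, 2, 0, 184626⟩]]) 1 1 3 0 0 (sgb true) (sgb false) x) :
    AltA (VF κ) PP tKF tL pcF [⟨3, 0, 0, 1449551462⟩] 1 1 3 0 0 (sgb true) (sgb false) x :=
  strip_altA (m := 1449551462) true rfl hκ covF01 covF01 hx hx' c_A00pm_113_s1 H (noExt_A)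

noncomputable def cut_A00pm_113_s3 : Cut := Cut.of [[⟨3, 0, 0, 2845415833⟩], [⟨0, 1, 0, 7061502⟩, ⟨1, 1, 0, 7061502⟩, ⟨2, 2, 0, 184626⟩]]

noncomputable def f_A00pm_113_s3 : ℕ → ℕ → ℕ → ℕ → Bool := onCell 536870912 536870912 536870912 536870912 33554432 16777216
    (rowFK 0 true true false .nn 1 1 3 (qsf 536870912 536870912 536870912 536870912 3) ndF0q1 ndF0q1 pcF3 cut_A00pm_113_s3 Ext.none)

def k0_A00pm_113_s3 : ∃ t, chk3 f_A00pm_113_s3 t 2 1 1 = true :=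
  ⟨(l 6), by decide +kernel⟩

def k1_A00pm_113_s3 : ∃ t, chk3 f_A00pm_113_s3 t 3 2 1 = true :=
  ⟨(l 6), by decide +kernel⟩

def k2_A00pm_113_s3 : ∃ t, chk3 f_A00pm_113_s3 t 6 3 1 = true :=
  ⟨(b (l 6) (b (l 6) (a (l 6) (b (l 6) (b (l 6) (b (l 6) (l 17578248))))))), by decide +kernel⟩

def k3_A00pm_113_s3 : ∃ t, chk3 f_A00pm_113_s3 t 7 6 1 = true :=
  ⟨(a (l 6) (b (l 6) (a (l 6) (a (l 6) (a (l 6) (l 17578248)))))), by decide +kernel⟩

def k4_A00pm_113_s3 : ∃ t, chk3 f_A00pm_113_s3 t 14 7 1 = true :=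
  ⟨(b (l 6) (b (b (l 17861568) (a (l 6) (l 17821408))) (b (a (l 17888912) (a (l 17798872) (c (l 17526560) (l 17679840)))) (b (a (l 17088048) (l 17352376)) (a (l 17393712) (l 17503728)))))), by decide +kernel⟩

def k5_A00pm_113_s3 : ∃ t, chk3 f_A00pm_113_s3 t 15 14 1 = true :=
  ⟨(a (a (l 17861568) (b (l 6) (l 17821408))) (a (b (l 17888912) (a (b (l 17562840) (l 17445600)) (l 17703944))) (a (b (l 17088048) (l 17352376)) (b (l 17393712) (l 17503728))))), by decide +kernel⟩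

def k6_A00pm_113_s3 : ∃ t, chk3 f_A00pm_113_s3 t 30 15 1 = true :=
  ⟨(b (l 17294464) (b (b (l 17342896) (a (l 17478872) (l 17403400))) (b (a (l 17405656) (l 17480224)) (b (l 17281256) (a (l 17156432) (l 17256216)))))), by decide +kernel⟩

def k7_A00pm_113_s3 : ∃ t, chk3 f_A00pm_113_s3 t 31 30 1 = true :=
  ⟨(a (a (l 17342896) (b (l 17478872) (l 17403400))) (a (b (l 17405656) (l 17480224)) (a (l 17281256) (b (l 17156432) (l 17256216))))), by decide +kernel⟩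

def k8_A00pm_113_s3 : ∃ t, chk3 f_A00pm_113_s3 t 31 62 1 = true :=
  ⟨(a (l 17078288) (a (a (l 17111592) (b (l 17182712) (l 17097064))) (a (b (l 17176592) (l 17175136)) (b (l 17112680) (l 17252032))))), by decide +kernel⟩

def k9_A00pm_113_s3 : ∃ t, chk3 f_A00pm_113_s3 t 62 63 1 = true :=
  ⟨(b (b (l 17111592) (a (l 17182712) (l 17097064))) (b (a (l 17176592) (l 17175136)) (a (l 17112680) (l 17252032)))), by decide +kernel⟩

def k10_A00pm_113_s3 : ∃ t, chk3 f_A00pm_113_s3 t 63 126 1 = true :=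
  ⟨(a (l 16969688) (a (b (l 17193016) (l 17167080)) (a (b (l 17018816) (l 17018976)) (b (l 16990976) (l 17016840))))), by decide +kernel⟩

def k11_A00pm_113_s3 : ∃ t, chk3 f_A00pm_113_s3 t 126 127 1 = true :=
  ⟨(b (a (l 17193016) (l 17167080)) (b (a (l 17018816) (l 17018976)) (a (l 16990976) (l 17016840)))), by decide +kernel⟩

def k12_A00pm_113_s3 : ∃ t, chk3 f_A00pm_113_s3 t 254 127 1 = true :=
  ⟨(b (l 16873432) (b (a (l 16985320) (l 16972328)) (b (a (l 16897864) (l 16898264)) (a (l 16885328) (l 16897664))))), by decide +kernel⟩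

def k13_A00pm_113_s3 : ∃ t, chk3 f_A00pm_113_s3 t 255 254 1 = true :=
  ⟨(a (b (l 16985320) (l 16972328)) (a (b (l 16897864) (l 16898264)) (b (l 16885328) (l 16897664)))), by decide +kernel⟩

def k14_A00pm_113_s3 : ∃ t, chk3 f_A00pm_113_s3 t 510 255 1 = true :=
  ⟨(b (l 16867256) (b (a (l 16881296) (l 16874816)) (b (a (l 16879424) (l 16837776)) (a (l 16873552) (l 16837616))))), by decide +kernel⟩

def k15_A00pm_113_s3 : ∃ t, chk3 f_A00pm_113_s3 t 511 510 1 = true :=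
  ⟨(a (b (l 16881296) (l 16874816)) (a (b (l 16879424) (l 16837776)) (b (l 16873552) (l 16837616)))), by decide +kernel⟩

def k16_A00pm_113_s3 : ∃ t, chk3 f_A00pm_113_s3 t 1022 511 1 = true :=
  ⟨(b (l 16822232) (b (a (l 16829264) (l 16826024)) (b (a (l 16828304) (l 16807504)) (b (l 16799984) (l 16805464))))), by decide +kernel⟩

def k17_A00pm_113_s3 : ∃ t, chk3 f_A00pm_113_s3 t 1023 1022 1 = true :=
  ⟨(a (b (l 16829264) (l 16826024)) (a (b (l 16828304) (l 16807504)) (a (l 16799984) (l 16805464)))), by decide +kernel⟩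

def k18_A00pm_113_s3 : ∃ t, chk3 f_A00pm_113_s3 t 1023 1023 1 = true :=
  ⟨(a (b (l 16799728) (a (b (l 16803240) (a (l 16800928) (l 16801456))) (b (l 16801624) (b (c (l 16802480) (l 16792728)) (b (l 16789088) (l 16790544)))))) (b (b (a (l 16803240) (a (l 16802752) (l 16801368))) (a (l 16801624) (a (c (l 16802480) (l 16792728)) (a (l 16789088) (l 16790544))))) (a (b (l 16788472) (b (b (l 16790440) (a (l 16791592) (a (l 16790696) (l 16779368)))) (b (a (l 16789984) (a (l 16790272) (b (l 16790328) (a (l 16789888) (l 16784728))))) (a (l 16789296) (b (a (l 16788248) (l 16783288)) (a (l 16784072) (l 16783664))))))) (b (a (a (l 16790440) (a (a (l 16790936) (l 16790888)) (l 16790792))) (a (b (l 16789984) (b (l 16790272) (a (l 16790328) (a (l 16784984) (l 16779104))))) (b (l 16789296) (a (a (l 16783504) (l 16782840)) (a (l 16783512) (l 16784200)))))) (a (b (a (l 16788544) (l 16783240)) (b (b (l 16783832)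 (a (l 16784408) (a (l 16783960) (l 16778296)))) (b (c (a (l 16783504) (l 16783528)) (a (l 16783688) (a (l 16783840) (b (l 16778632) (a (l 16778392) (l 16781056)))))) (a (a (l 16783352) (l 16783144)) (b (a (l 16782736) (a (l 16782840) (l 14))) (a (b (l 16777848) (l 16778192)) (l 14))))))) (b (a (a (l 16783832) (b (l 16784408) (a (l 16783664) (l 16783816)))) (a (c (b (l 16783504) (l 16783528)) (b (l 16783688) (b (l 16783840) (a (l 16778632) (a (l 16778576) (l 16778232)))))) (b (a (l 16782896) (l 16783584)) (a (b (l 16782736) (b (l 16782840) (l 14))) (b (a (l 16777848) (l 16778192)) (l 14)))))) (b (a (a (l 16782880) (a (l 16782752) (b (l 16777936) (l 14)))) (a (a (b (l 16778128) (l 14)) (l 14)) (l 14))) (b (b (a (a (l 16778128) (l 14)) (l 14)) (l 14)) (l 14))))))))), by decide +kernel⟩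

theorem t19_A00pm_113_s3 : ∃ t, chk3 f_A00pm_113_s3 t 1023 511 1 = true := ex3_b k17_A00pm_113_s3 k18_A00pm_113_s3

theorem t20_A00pm_113_s3 : ∃ t, chk3 f_A00pm_113_s3 t 511 511 1 = true := ex3_a k16_A00pm_113_s3 t19_A00pm_113_s3

theorem t21_A00pm_113_s3 : ∃ t, chk3 f_A00pm_113_s3 t 511 255 1 = true := ex3_b k15_A00pm_113_s3 t20_A00pm_113_s3

theorem t22_A00pm_113_s3 : ∃ t, chk3 f_A00pm_113_s3 t 255 255 1 = true := ex3_a k14_A00pm_113_s3 t21_A00pm_113_s3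

theorem t23_A00pm_113_s3 : ∃ t, chk3 f_A00pm_113_s3 t 255 127 1 = true := ex3_b k13_A00pm_113_s3 t22_A00pm_113_s3

theorem t24_A00pm_113_s3 : ∃ t, chk3 f_A00pm_113_s3 t 127 127 1 = true := ex3_a k12_A00pm_113_s3 t23_A00pm_113_s3

theorem t25_A00pm_113_s3 : ∃ t, chk3 f_A00pm_113_s3 t 63 127 1 = true := ex3_a k11_A00pm_113_s3 t24_A00pm_113_s3

theorem t26_A00pm_113_s3 : ∃ t, chk3 f_A00pm_113_s3 t 63 63 1 = true := ex3_b k10_A00pm_113_s3 t25_A00pm_113_s3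

theorem t27_A00pm_113_s3 : ∃ t, chk3 f_A00pm_113_s3 t 31 63 1 = true := ex3_a k9_A00pm_113_s3 t26_A00pm_113_s3

theorem t28_A00pm_113_s3 : ∃ t, chk3 f_A00pm_113_s3 t 31 31 1 = true := ex3_b k8_A00pm_113_s3 t27_A00pm_113_s3

theorem t29_A00pm_113_s3 : ∃ t, chk3 f_A00pm_113_s3 t 31 15 1 = true := ex3_b k7_A00pm_113_s3 t28_A00pm_113_s3

theorem t30_A00pm_113_s3 : ∃ t, chk3 f_A00pm_113_s3 t 15 15 1 = true := ex3_a k6_A00pm_113_s3 t29_A00pm_113_s3

theorem t31_A00pm_113_s3 : ∃ t, chk3 f_A00pm_113_s3 t 15 7 1 = true := ex3_b k5_A00pm_113_s3 t30_A00pm_113_s3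

theorem t32_A00pm_113_s3 : ∃ t, chk3 f_A00pm_113_s3 t 7 7 1 = true := ex3_a k4_A00pm_113_s3 t31_A00pm_113_s3

theorem t33_A00pm_113_s3 : ∃ t, chk3 f_A00pm_113_s3 t 7 3 1 = true := ex3_b k3_A00pm_113_s3 t32_A00pm_113_s3

theorem t34_A00pm_113_s3 : ∃ t, chk3 f_A00pm_113_s3 t 3 3 1 = true := ex3_a k2_A00pm_113_s3 t33_A00pm_113_s3

theorem t35_A00pm_113_s3 : ∃ t, chk3 f_A00pm_113_s3 t 3 1 1 = true := ex3_b k1_A00pm_113_s3 t34_A00pm_113_s3

theorem t36_A00pm_113_s3 : ∃ t, chk3 f_A00pm_113_s3 t 1 1 1 = true := ex3_a k0_A00pm_113_s3 t35_A00pm_113_s3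

theorem c_A00pm_113_s3 : CertF 536870912 536870912 536870912 536870912 33554432 16777216 true true false .nn 1 1 3
    ndF0q1 ndF0q1 pcF3 cut_A00pm_113_s3 Ext.none :=
  certFK0 (fam := true) (s1 := true) (s2 := false) (a := 1) (b := 1) (c := 3) (cn := .nn) (n1 := ndF0q1) (n2 := ndF0q1) (pc := pcF3) (cut := cut_A00pm_113_s3) (xt := Ext.none) (P1 := 536870912) (W1 := 536870912) (P2 := 536870912) (W2 := 536870912) (P3 := 33554432) (W3 := 16777216)
    rfl rfl rfl t36_A00pm_113_s3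

theorem s_A00pm_113_s3 {κ x : ℝ} (hκ : κ * h0 = ken x) (hx : ((33554432 : ℕ) : ℝ) / S ≤ x)
    (hx' : x ≤ (((33554432 : ℕ) : ℝ) + (16777216 : ℕ)) / S)
    (H : CutA (VF κ) PP tKF tL pcF (Cut.of [[⟨0, 1, 0, 7061502⟩, ⟨1, 1, 0, 7061502⟩, ⟨2, 2, 0, 184626⟩]]) 1 1 3 0 0 (sgb true) (sgb false) x) :
    AltA (VF κ) PP tKF tL pcF [⟨4, 0, 0, 2845415833⟩] 1 1 3 0 0 (sgb true) (sgb false) x :=
  strip_altA (m := 2845415833) false rfl hκ covF01 covF01 hx hx' c_A00pm_113_s3 H (noExt_A)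

noncomputable def cut_A00pm_123_s1 : Cut := Cut.of [[⟨4, 0, 0, 1449551462⟩], [⟨0, 1, 0, 7061502⟩, ⟨1, 1, 0, 7061502⟩, ⟨2, 2, 0, 184626⟩]]

noncomputable def f_A00pm_123_s1 : ℕ → ℕ → ℕ → ℕ → Bool := onCell 536870912 536870912 0 536870912 33554432 16777216
    (rowFK 0 true true false .npn 1 2 3 (qsf 536870912 536870912 0 536870912 3) ndF0q1 ndF0q2 pcF3 cut_A00pm_123_s1 Ext.none)

def k0_A00pm_123_s1 : ∃ t, chk3 f_A00pm_123_s1 t 1 1 1 = true :=
  ⟨(l 6), by decide +kernel⟩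

theorem c_A00pm_123_s1 : CertF 536870912 536870912 0 536870912 33554432 16777216 true true false .npn 1 2 3
    ndF0q1 ndF0q2 pcF3 cut_A00pm_123_s1 Ext.none :=
  certFK0 (fam := true) (s1 := true) (s2 := false) (a := 1) (b := 2) (c := 3) (cn := .npn) (n1 := ndF0q1) (n2 := ndF0q2) (pc := pcF3) (cut := cut_A00pm_123_s1) (xt := Ext.none) (P1 := 536870912) (W1 := 536870912) (P2 := 0) (W2 := 536870912) (P3 := 33554432) (W3 := 16777216)
    rfl rfl rfl k0_A00pm_123_s1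

theorem s_A00pm_123_s1 {κ x : ℝ} (hκ : κ * h0 = ken x) (hx : ((33554432 : ℕ) : ℝ) / S ≤ x)
    (hx' : x ≤ (((33554432 : ℕ) : ℝ) + (16777216 : ℕ)) / S)
    (H : CutA (VF κ) PP tKF tL pcF (Cut.of [[⟨0, 1, 0, 7061502⟩, ⟨1, 1, 0, 7061502⟩, ⟨2, 2, 0, 184626⟩]]) 1 2 3 0 0 (sgb true) (sgb false) x) :
    AltA (VF κ) PP tKF tL pcF [⟨3, 0, 0, 1449551462⟩] 1 2 3 0 0 (sgb true) (sgb false) x :=
  strip_altA (m := 1449551462) true rfl hκ covF01 covF02 hx hx' c_A00pm_123_s1 H (noExt_A)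

end Pool.Agent.Strip051.G.I1_32_3_64.Tab.St.C
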