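import Pool.Agent.Strip051.G.I1_32_3_64.StF

/-! # Unit strips 5 (generated) -/

set_option linter.all false
set_option maxRecDepth 100000

namespace Pool.Agent.Strip051.G.I1_32_3_64.Tab.St.C

open Pool.Agent.Strip051.PB Pool.Agent.Strip051.PB.T Pool.Agent.StripNear Pool.Agent.Strip051.LC
open Pool.Agent.Strip051.G.I1_32_3_64.Tab Pool.Agent.Strip051.G.I1_32_3_64.Tab.St

noncomputable def cut_A00pm_123_s3 : Cut := Cut.of [[⟨3, 0, 0, 2845415833⟩], [⟨0, 1, 0, 7061502⟩, ⟨1, 1, 0, 7061502⟩, ⟨2, 2, 0, 184626⟩]]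

noncomputable def xt_A00pm_123_s3 : Ext := strExt dd true true false .u0 .u2 .s2 .npn 1 2 3 rfl rfl gl3 vv ndF0q1 ndF0q2

noncomputable def f_A00pm_123_s3 : ℕ → ℕ → ℕ → ℕ → Bool := onCell 536870912 536870912 0 536870912 33554432 16777216
    (rowFK 0 true true false .npn 1 2 3 (qsf 536870912 536870912 0 536870912 3) ndF0q1 ndF0q2 pcF3 cut_A00pm_123_s3 xt_A00pm_123_s3)

def k0_A00pm_123_s3 : ∃ t, chk3 f_A00pm_123_s3 t 2 1 1 = true :=
  ⟨(b (a (b (a (l 546032911) (b (l 544979215) (l 544654351))) (a (l 17703064) (b (l 16993576) (l 17068456)))) (a (b (a (b (l 544999183) (l 543266575)) (l 543527183)) (b (b (l 541804303) (l 17053536)) (l 17221664))) (b (a (b (l 4) (l 541586703)) (l 4)) (a (b (b (l 541138703) (l 16889016)) (l 17065296)) (b (b (l 540069903) (l 540963599)) (b (l 542143759) (l 543382287))))))) (a (b (l 6) (l 6)) (b (a (b (l 17472536) (l 6)) (b (a (b (l 17037072) (l 17151936)) (l 17239528)) (l 17549520))) (b (l 6) (l 6))))), by decide +kernel⟩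

def k1_A00pm_123_s3 : ∃ t, chk3 f_A00pm_123_s3 t 3 2 1 = true :=
  ⟨(b (l 4) (a (a (a (b (b (l 4) (l 541988367)) (a (l 543459087) (l 544966927))) (b (l 4) (a (l 544898319) (b (l 4) (l 544921103))))) (l 4)) (l 4))), by decide +kernel⟩

def k2_A00pm_123_s3 : ∃ t, chk3 f_A00pm_123_s3 t 6 3 1 = true :=
  ⟨(b (a (a (b (a (l 17205768) (l 17251968)) (b (l 17213648) (l 17249528))) (b (b (l 547737103) (l 548678927)) (b (l 17294336) (l 17305736)))) (b (a (a (b (l 546467343) (l 547965967)) (b (l 546976527) (l 547503119))) (b (l 4) (a (a (l 546935567) (l 546418447)) (a (b (l 4) (l 546208527)) (l 4))))) (a (a (b (l 17109280) (l 17236592)) (b (l 548912911) (l 17248648))) (b (a (b (l 547886095) (l 16986728)) (a (l 547755535) (b (l 546509327) (l 547090703)))) (a (b (l 16967768) (l 17035384)) (b (l 549007887) (l 17028752))))))) (a (b (l 17502880) (b (l 6) (l 6))) (b (b (a (l 17217912) (a (l 17156088) (l 17175264))) (l 17360392)) (b (l 17253392) (a (l 17479296) (b (l 17035064) (l 17376088))))))),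 by decide +kernel⟩

def k3_A00pm_123_s3 : ∃ t, chk3 f_A00pm_123_s3 t 7 6 1 = true :=
  ⟨(b (l 4) (a (a (a (b (b (l 4) (a (l 546443023) (l 546785039))) (a (b (l 546702607) (l 16881120)) (b (l 545983503) (l 546334479)))) (b (l 4) (a (b (a (l 545445903) (l 545085967)) (a (l 545792271) (l 545438223))) (b (l 4) (a (l 545045007) (l 545477647)))))) (b (l 4) (a (a (b (l 4) (b (l 4) (a (l 544422415) (l 544573967)))) (l 4)) (l 4)))) (l 2))), by decide +kernel⟩

def k4_A00pm_123_s3 : ∃ t, chk3 f_A00pm_123_s3 t 14 7 1 = true :=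
  ⟨(b (a (b (a (b (l 17001096) (b (l 17041200) (l 16969248))) (b (a (l 16941904) (a (l 16874624) (l 545100559))) (a (l 16992024) (l 16956440)))) (b (l 17161096) (l 16982968))) (b (a (a (b (a (l 544723215) (b (l 544255503) (l 544494351))) (a (l 16930264) (l 16914160))) (b (a (b (l 545471247) (l 544110095)) (b (l 4) (a (l 543842575) (l 543641359)))) (b (a (l 16847504) (l 544256783)) (l 16860592)))) (b (a (a (b (l 4) (a (l 543430671) (l 4))) (l 4)) (l 4)) (b (a (a (a (l 543718159) (l 543512335)) (b (l 4) (l 543791631))) (l 4)) (a (a (l 544697103) (a (l 543619343) (l 543408655))) (a (a (l 543186191) (b (l 4) (l 543093519))) (a (b (l 4) (l 543394575)) (l 4))))))) (b (b (a (a (l 16873248) (l 16840136)) (a (a (l 16817648) (l 545433359)) (a (b (l 543340047) (l 16837856)) (a (l 543641359) (b (l 542816015) (l 543023119)))))) (a (l 16954336) (a (l 16915032) (a (l 16893608) (a (l 16841928) (l 543287311)))))) (a (l 16948608) (a (l 16930480) (b (l 16883568) (l 16918592))))))) (b (a (l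 17057576) (b (l 17074072) (l 17058800))) (b (l 17335968) (b (l 17244376) (a (l 17316384) (l 17429872)))))), by decide +kernel⟩

def k5_A00pm_123_s3 : ∃ t, chk3 f_A00pm_123_s3 t 15 14 1 = true :=
  ⟨(a (b (l 4) (a (b (a (a (b (b (l 4) (a (l 543050255) (a (l 543161615) (l 4)))) (a (l 544663823) (b (l 543561231) (l 542984719)))) (b (l 4) (a (b (a (l 543404303) (b (l 4) (l 542556943))) (a (l 542834703) (l 542711823))) (b (l 4) (a (l 543655439) (b (l 4) (l 542543375))))))) (b (l 4) (a (b (l 4) (a (a (b (l 4) (l 542406927)) (l 4)) (l 4))) (l 4)))) (a (b (a (b (l 16839744) (l 16806848)) (b (a (l 16809960) (a (l 542828559) (l 542704655))) (l 16815360))) (a (l 16902960) (l 16891680))) (b (a (a (b (a (b (l 542540047) (l 542667791)) (b (l 542403343) (l 542539279))) (b (l 543238671) (l 16829776))) (b (a (b (l 4) (l 542402063)) (l 4)) (a (b (l 542540815) (l 16794264)) (b (l 542403343) (l 542544655))))) (b (l 4) (a (a (b (l 541985807) (l 542407183)) (b (l 4) (l 541989647))) (l 4)))) (a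 (a (l 16840184) (b (b (l 543248143) (l 16790248)) (l 16796504))) (a (b (a (b (l 542551055) (l 16786096)) (b (l 542413583) (l 16793936))) (l 16832600)) (b (a (b (l 542264591) (l 542422799)) (b (l 542098191) (l 542273551))) (b (a (l 16805552) (l 542434319)) (l 16808048)))))))) (b (l 2) (a (b (l 4) (a (b (a (a (b (l 4) (l 542107663)) (l 4)) (l 4)) (a (a (b (l 542285583) (l 16793592)) (b (l 542119951) (l 542300175))) (a (b (a (l 542021391) (l 4)) (l 542135311)) (b (l 4) (a (l 542037775) (l 541942287)))))) (l 4))) (l 4))))) (l 2)), by decide +kernel⟩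

def k6_A00pm_123_s3 : ∃ t, chk3 f_A00pm_123_s3 t 60 30 1 = true :=
  ⟨(b (a (l 16921888) (b (a (l 16893488) (a (l 16886048) (l 16818336))) (l 16893856))) (l 16999288)), by decide +kernel⟩

def k7_A00pm_123_s3 : ∃ t, chk3 f_A00pm_123_s3 t 122 60 1 = true :=
  ⟨(b (a (a (b (a (l 16830776) (b (l 16805184) (l 16788032))) (l 16795600)) (b (a (b (l 542317839) (l 16785328)) (b (l 542153487) (l 542338319))) (b (l 16829768) (l 16791816)))) (b (a (a (b (a (l 542057231) (l 541962511)) (l 542174479)) (b (a (l 542127375) (l 4)) (a (l 542079759) (l 541985807)))) (b (l 4) (a (a (l 541883407) (l 4)) (l 4)))) (a (b (a (l 16804792) (l 542198799)) (l 16807232)) (a (b (a (l 542105103) (l 542012431)) (l 542225935)) (b (a (l 541911311) (b (l 4) (l 541911311))) (b (l 542033679) (l 16785984))))))) (a (b (l 16883432) (l 16889216)) (b (a (l 16834136) (a (l 16808944) (b (l 16804384) (l 16787168)))) (b (l 16837496) (l 16882112))))), by decide +kernel⟩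

def k8_A00pm_123_s3 : ∃ t, chk3 f_A00pm_123_s3 t 123 60 1 = true :=
  ⟨(b (a (b (l 4) (b (l 4) (a (a (a (l 541942031) (l 543173647)) (a (b (l 4) (l 541839375)) (l 4))) (l 4)))) (l 4)) (b (a (a (a (b (a (l 16792000) (l 542074895)) (l 16805472)) (b (a (l 541976335) (l 542941199)) (b (l 16791544) (l 16782824)))) (b (a (a (b (l 541742095) (l 541877007)) (b (l 4) (l 541763343))) (l 4)) (a (a (l 542013455) (l 542712079)) (a (b (l 541785359) (l 541917967)) (b (l 4) (l 541808143)))))) (a (a (b (l 4) (b (l 4) (a (b (l 4) (l 541756943)) (l 4)))) (l 4)) (l 4))) (b (a (a (l 16807920) (a (l 16793472) (b (l 543281167) (l 16791848)))) (a (a (a (b (l 541829647) (l 541962511)) (b (a (l 541775119) (l 541703695)) (l 541853455))) (b (l 4) (a (l 543345167) (b (l 4) (l 541662991))))) (l 4))) (a (a (l 16790904) (l 16795864)) (a (a (b (l 543326479) (l 16803360)) (a (b (l 541878799) (l 16780528)) (b (l 543103247) (l 541912591)))) (a (b (a (b (l 4) (l 541698831)) (l 4)) (a (l 542608911) (b (l 542181903)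 (l 541744911)))) (b (l 4) (a (b (l 4) (l 542929167)) (l 4))))))))), by decide +kernel⟩

def k9_A00pm_123_s3 : ∃ t, chk3 f_A00pm_123_s3 t 61 61 1 = true :=
  ⟨(a (b (a (l 16879792) (l 16882760)) (l 16898192)) (b (b (a (a (l 16879296) (l 16812456)) (a (a (l 16797568) (b (c (l 16793080) (l 16793024)) (l 16786312))) (a (b (a (b (l 16785072) (l 16781560)) (b (l 542384911) (l 16790816))) (l 16804624)) (b (b (a (b (l 542230287) (l 541790735)) (a (l 542964751) (l 4))) (a (l 542160655) (b (l 542278159) (l 541836303)))) (a (l 16792216) (b (l 541934095) (l 16781360))))))) (a (l 16880520) (a (l 16833744) (b (l 16796608) (l 16831376))))) (a (l 16879368) (b (l 16834872) (l 16874392))))), by decide +kernel⟩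

def k10_A00pm_123_s3 : ∃ t, chk3 f_A00pm_123_s3 t 30 31 1 = true :=
  ⟨(b (a (l 16996736) (a (l 16954440) (l 17006936))) (b (l 17118088) (b (l 17071688) (l 17504648)))), by decide +kernel⟩

def k11_A00pm_123_s3 : ∃ t, chk3 f_A00pm_123_s3 t 62 60 1 = true :=
  ⟨(l 4), by decide +kernel⟩

def k12_A00pm_123_s3 : ∃ t, chk3 f_A00pm_123_s3 t 124 122 1 = true :=
  ⟨(a (b (a (a (b (b (l 4) (a (b (a (l 541655567) (l 4)) (l 542759695)) (l 4))) (a (b (a (l 541869327) (l 542335759)) (l 16785368)) (b (b (a (l 541705743) (l 541622543)) (l 543078159)) (b (l 542104335) (l 16784584))))) (b (l 4) (b (a (b (l 4) (a (l 541648655) (l 4))) (l 4)) (a (b (a (l 541755663) (l 541674767)) (l 543127567)) (b (l 4) (a (l 541700623) (l 541613327))))))) (l 4)) (a (a (b (a (l 16803768) (c (l 16792032) (l 16791984))) (l 16827864)) (b (a (b (a (l 16784952) (l 541892879)) (l 16802112)) (b (a (l 543162127) (b (l 541726735) (l 541829903))) (a (l 16790696) (l 16784840)))) (l 16793720))) (b (a (b (a (b (a (l 541640463)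 (l 4)) (a (l 541752591) (l 541667599))) (b (l 4) (a (l 541574415) (l 4)))) (a (b (a (l 541854735) (l 541778191)) (l 542956559)) (b (a (l 541694735) (l 541602831)) (a (l 541804047) (l 541721615))))) (b (l 4) (a (b (l 4) (a (l 541631247) (l 541530895))) (l 4)))) (a (a (b (l 16785648) (l 16782192)) (b (b (a (l 16784304) (l 541829647)) (l 16784848)) (l 16791400))) (b (a (b (a (l 541748495) (l 541659407)) (a (l 541854479) (l 541775119))) (b (a (l 541560847) (l 4)) (a (l 541687567) (l 541590799)))) (a (b (c (l 16784504) (l 16784480)) (l 16790584)) (b (a (l 541801743) (l 541715471)) (a (l 16789672) (l 541828367))))))))) (b (l 4) (a (b (l 4) (b (l 4) (a (a (b (a (l 541620495) (l 542319375)) (a (l 541743375) (l 541649935))) (b (l 4) (a (l 542082575) (l 4)))) (l 4)))) (l 4)))), by decide +kernel⟩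

def k13_A00pm_123_s3 : ∃ t, chk3 f_A00pm_123_s3 t 248 123 1 = true :=
  ⟨(b (a (b (l 16829560) (l 16874744)) (b (a (l 16805312) (a (l 16792832) (b (a (l 16790960) (l 16785104)) (l 16781952)))) (a (l 16787768) (l 16785472)))) (a (l 16871912) (l 16831128))), by decide +kernel⟩

def k14_A00pm_123_s3 : ∃ t, chk3 f_A00pm_123_s3 t 249 246 1 = true :=
  ⟨(b (a (a (b (a (b (a (l 16784072) (l 541771279)) (c (l 16784624) (l 16784600))) (b (a (l 541679375) (l 541845519)) (a (l 541798927) (l 541708559)))) (a (l 16791160) (a (l 16784976) (b (l 541826575) (l 16779552))))) (b (a (b (a (b (l 4) (l 541532175)) (l 4)) (a (l 541608207) (b (l 4) (l 541564175)))) (l 4)) (a (b (a (l 541737743) (l 541639183)) (a (l 16778944) (l 541766671))) (b (a (b (l 541524751) (l 541596175)) (l 4)) (a (l 541669903) (l 543172111)))))) (a (a (b (l 4) (b (l 4) (a (b (l 4) (l 541516815)) (l 4)))) (l 4)) (l 4))) (b (a (a (c (l 16792344) (l 16792288)) (a (b (l 16784736) (l 16790840)) (b (a (l 16783832) (l 541700623))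 (a (l 16779424) (l 16778824))))) (a (a (b (a (l 542936335) (b (l 4) (l 541550863))) (a (l 541730831) (l 542700559))) (b (l 4) (a (b (l 541508623) (l 541584655)) (b (l 4) (l 541732111))))) (l 4))) (a (a (l 16825640) (a (l 16802672) (a (l 16801704) (l 16790592)))) (a (a (b (a (l 16779056) (l 541761039)) (l 16784848)) (b (a (l 542464527) (b (l 541543695) (l 541617935))) (a (l 16783944) (l 542228239)))) (a (b (a (b (l 4) (l 541500175)) (l 4)) (a (b (l 541578255) (l 541650959)) (b (l 542527247) (l 541536015)))) (l 4)))))), by decide +kernel⟩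

def k15_A00pm_123_s3 : ∃ t, chk3 f_A00pm_123_s3 t 249 247 1 = true :=
  ⟨(a (b (a (l 16786024) (c (l 16794360) (l 16794288))) (l 16829312)) (b (a (b (a (l 16791408) (a (l 16785216) (b (l 16778928) (l 16779784)))) (c (l 16792608) (l 16792552))) (b (a (b (a (l 542259983) (b (l 541612559) (l 541683983))) (a (l 16789656) (l 542023183))) (b (a (b (l 542027791) (l 541571599)) (b (l 4) (a (l 541509135) (l 4)))) (a (b (l 541646607) (l 541716495)) (b (l 541796367) (l 541606927))))) (a (b (l 16784960) (l 16780592)) (b (a (l 16784048) (b (l 541680143) (l 16778416))) (a (l 16779648) (l 16779040)))))) (a (l 16805224) (a (l 16793384) (b (c (l 16791160) (l 16791120)) (l 16782488)))))), by decide +kernel⟩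

def k16_A00pm_123_s3 : ∃ t, chk3 f_A00pm_123_s3 t 125 61 1 = true :=
  ⟨(b (l 2) (a (b (l 4) (a (b (a (b (a (b (l 4) (a (b (l 4) (l 542823439)) (l 4))) (l 4)) (a (b (a (a (l 541629967) (l 541838607)) (b (a (l 541501967) (l 4)) (l 542593295))) (a (l 543324943) (b (l 541601039) (l 541676303)))) (b (l 4) (a (b (a (l 541539599) (l 541474831)) (l 542362639)) (b (l 4) (a (l 541494287) (l 4))))))) (l 4)) (a (b (a (b (a (l 16789760) (l 16783920)) (l 16785072)) (b (a (b (l 541636879) (l 16783536)) (b (a (l 541576975) (l 541513999)) (l 542131471))) (a (l 16784152) (b (l 541672207) (l 16778520))))) (a (l 16791648) (b (l 16784696) (l 16780320)))) (b (a (b (a (b (a (l 541445903) (l 4)) (a (l 541533455) (l 541466383))) (l 4)) (a (a (l 542155279) (l 543165455)) (b (a (l 541486607) (l 4)) (a (l 541571855) (l 541506831))))) (b (l 4) (a (b (l 4) (a (l 541436431) (l 4))) (l 4)))) (a (b (a (b (l 16783584) (l 16789232)) (a (l 541923599) (l 542935311))) (a (l 16789864) (l 16784016))) (b (a (b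 (a (l 541526799) (l 541457423)) (a (l 541609743) (l 541546767))) (b (l 4) (a (l 541478415) (l 541404431)))) (a (b (l 542431247) (l 16778384)) (b (a (l 541566479) (l 541499407)) (a (l 16777952) (l 541585935))))))))) (b (l 4) (a (b (l 4) (a (b (l 4) (a (b (a (l 541426447) (l 4)) (a (l 541519887) (l 541448463))) (l 4))) (l 4))) (l 4))))) (l 2))), by decide +kernel⟩

def k17_A00pm_123_s3 : ∃ t, chk3 f_A00pm_123_s3 t 63 30 1 = true :=
  ⟨(l 2), by decide +kernel⟩

def k18_A00pm_123_s3 : ∃ t, chk3 f_A00pm_123_s3 t 124 62 1 = true :=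
  ⟨(b (a (l 16883328) (b (a (l 16868968) (b (l 16806648) (l 16869080))) (l 16876928))) (l 16909720)), by decide +kernel⟩

def k19_A00pm_123_s3 : ∃ t, chk3 f_A00pm_123_s3 t 500 248 1 = true :=
  ⟨(b (a (b (l 16792832) (l 16784320)) (b (a (b (l 16790424) (l 16780824)) (b (a (l 16779008) (b (l 542200335) (l 16778616))) (l 16790040))) (a (l 16803176) (l 16791368)))) (a (l 16827624) (a (l 16826176) (l 16803912)))), by decide +kernel⟩

def k20_A00pm_123_s3 : ∃ t, chk3 f_A00pm_123_s3 t 501 248 1 = true :=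
  ⟨(a (b (b (a (b (a (b (a (l 541605391) (l 541540367)) (l 543230991)) (b (a (l 541469967) (l 541661711)) (a (l 541560847) (l 541491727)))) (a (l 16783880) (b (a (l 16778000) (l 541581071)) (l 543001103)))) (b (a (b (l 4) (a (l 541684495) (l 4))) (l 4)) (a (b (a (l 541512975) (l 541438735)) (a (l 541601039) (l 541534223))) (b (a (l 542967823) (l 4)) (a (l 541461263) (l 542723599)))))) (a (a (l 16790400) (b (l 16784112) (l 16779720))) (b (a (b (a (l 16783464) (l 16780552)) (l 16778480)) (b (a (l 541554959) (l 541483535)) (a (l 16778040) (l 541575951)))) (a (l 16779104) (b (l 16783544) (l 16778704)))))) (b (a (l 16802368) (b (l 16790136) (l 16801504))) (l 16793120))) (b (b (l 4) (a (b (a (b (a (l 542479119) (l 4)) (a (l 541505551) (l 542234127))) (b (l 4) (a (b (l 4) (l 541399567)) (l 4)))) (a (b (a (l 16780488) (l 541527567)) (a (l 16783504) (l 16780592))) (b (a (l 541989135) (b (l 4) (l 541423631))) (a (l 541549327) (l 541743631))))) (b (l 4) (a (b (l 4) (a (b (l 541394959)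 (l 541447183)) (l 4))) (l 4))))) (b (a (b (a (l 16783976) (b (a (l 16778088) (l 541570575)) (l 16783584))) (a (l 16790064) (l 16784208))) (b (a (b (a (l 541498127) (l 543029007)) (a (l 16780528) (l 541520655))) (b (a (b (l 4) (l 541389839)) (l 4)) (a (l 542784783) (b (l 541359375) (l 541414671))))) (a (b (a (l 16778304) (l 16778016)) (l 16778568)) (b (a (l 541543183) (l 542540303)) (a (l 16778128) (l 541565199)))))) (a (a (l 16801888) (l 16790752)) (b (a (l 16779200) (b (l 16783632) (l 16789280))) (l 16790232)))))), by decide +kernel⟩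

def k21_A00pm_123_s3 : ∃ t, chk3 f_A00pm_123_s3 t 250 249 1 = true :=
  ⟨(a (l 16825096) (b (a (l 16805080) (b (a (l 16782448) (l 16791584)) (l 16803880))) (l 16825344))), by decide +kernel⟩

def k22_A00pm_123_s3 : ∃ t, chk3 f_A00pm_123_s3 t 251 248 1 = true :=
  ⟨(a (b (l 4) (a (b (b (l 4) (a (a (b (a (b (l 541384975) (l 541438991)) (b (l 4) (l 541353743))) (a (l 542295567) (b (l 541410063) (l 541463311)))) (b (l 4) (a (b (l 4) (l 541379855)) (l 4)))) (l 4))) (a (b (a (b (a (l 16780568) (l 542050575)) (a (l 16778352) (l 16778056))) (b (a (b (l 541434895) (l 541487119)) (b (l 541348111) (l 541405455))) (a (l 541805327) (b (l 541459471) (l 541510671))))) (a (l 16784064) (b (a (l 16778168) (l 541828367)) (l 16783672)))) (b (a (b (l 4) (a (b (l 541374735) (l 541430799)) (b (l 4) (l 541610511)))) (l 4)) (a (b (a (l 543092751) (b (l 541400847) (l 541455887))) (a (l 541582607) (l 542848527))) (b (a (b (l 4) (l 541369359)) (l 4)) (a (b (l 541426703) (l 541480719)) (b (l 542141455)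 (l 541395983)))))))) (l 4))) (l 4)), by decide +kernel⟩

def k23_A00pm_123_s3 : ∃ t, chk3 f_A00pm_123_s3 t 502 249 1 = true :=
  ⟨(b (a (b (a (b (a (l 16790160) (l 16789536)) (l 16780240)) (b (a (b (a (l 16778392) (l 16778096)) (l 16778656)) (b (a (l 542604303) (b (l 541452303) (l 541505039))) (a (l 16778208) (l 542359567)))) (a (l 16779288) (c (l 16783928) (l 16783912))))) (a (l 16781608) (b (l 16790328) (l 16801712)))) (b (a (b (a (b (a (b (l 541900815) (l 541422351)) (b (l 4) (l 542403855))) (a (b (l 541477391) (l 16780360)) (b (l 541659663) (l 541448463)))) (b (l 4) (a (b (a (l 541347087) (l 4)) (l 542163727)) (l 4)))) (a (b (a (l 542382863) (b (l 541502223) (l 16777840))) (c (l 16783536) (l 16783528))) (b (a (b (l 541418255) (l 541474063)) (b (l 542934543) (l 541923343))) (a (b (l 16780376) (l 16783192)) (b (l 541444623) (l 541499407)))))) (b (l 4) (a (b (a (b (l 4) (a (l 541342223) (l 4))) (l 4)) (a (b (l 542694927) (l 541682191)) (b (l 4) (a (l 541370639) (l 541322511)))))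 (l 4)))) (a (b (a (l 16784152) (b (a (l 16778248) (b (l 16777864) (l 16778056))) (l 16783752))) (a (l 16779768) (l 16789624))) (b (a (b (a (b (l 541470735) (l 16777776)) (b (l 542455055) (l 541440783))) (a (l 16778072) (b (l 541496591) (l 16777880)))) (b (a (b (a (l 541337359) (l 4)) (a (l 541398543) (l 541351695))) (l 4)) (a (b (l 542214671) (l 541467407)) (b (a (l 541366287) (l 541317391)) (l 542986767))))) (a (b (l 16783568) (l 16778736)) (b (a (b (l 16777792) (l 16783232)) (b (l 541973775) (l 541493775))) (a (l 16778288) (b (l 16777896) (l 16778096))))))))) (a (b (b (l 16802856) (l 16824664)) (l 16825328)) (b (a (c (l 16791288) (l 16791256)) (b (a (l 16779376) (l 16784000)) (l 16790416))) (a (l 16803104) (l 16791832))))), by decide +kernel⟩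

def k24_A00pm_123_s3 : ∃ t, chk3 f_A00pm_123_s3 t 503 498 1 = true :=
  ⟨(a (b (l 4) (a (b (a (b (l 4) (a (b (l 4) (a (l 541332239) (l 4))) (l 4))) (l 4)) (a (b (a (b (a (l 541394703) (l 541347087)) (l 542478607)) (b (l 4) (a (l 541361935) (l 541312015)))) (a (b (l 541732623) (l 16777808)) (b (a (l 541422863) (l 541376527)) (l 542238223)))) (b (l 4) (a (b (a (l 541327119) (l 4)) (a (l 541390863) (l 541342479))) (b (l 4) (a (l 541290511) (l 4))))))) (l 4))) (l 4)), by decide +kernel⟩

def k25_A00pm_123_s3 : ∃ t, chk3 f_A00pm_123_s3 t 1006 499 1 = true :=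
  ⟨(b (a (b (a (b (a (l 16778104) (b (l 16780344) (l 16777920))) (l 16783608)) (b (a (b (l 543010831) (l 541997583)) (b (a (l 541357327) (l 541306383)) (a (l 541419535) (l 541372175)))) (a (b (l 16777832) (l 16783272)) (b (l 542771215) (l 16780360))))) (a (l 16784232) (b (a (l 16778328) (c (l 16783280) (l 16783272))) (l 16778592)))) (b (a (b (a (b (l 4) (a (l 541321999) (l 4))) (l 4)) (a (b (a (l 541387023) (l 541337615)) (a (l 541447695) (l 541401615))) (b (a (l 541284623) (l 4)) (a (l 541352975) (l 541301007))))) (l 4)) (a (b (a (b (l 542531087) (l 16777848)) (b (a (l 541416207) (l 541368079)) (a (l 16777640) (l 541430543)))) (a (l 16778144) (b (l 16780384) (l 16777952)))) (b (a (b (a (l 541316879) (l 4)) (a (l 541383183) (l 541332751))) (b (l 4) (a (l 541278735) (l 4)))) (a (b (a (l 541444879) (l 541398287)) (l 542796047)) (b (a (l 541348367) (l 541295375)) (a (l 541412879) (l 541363983)))))))) (a (b (a (l 16779856) (l 16789704)) (l 16780424)) (b (a (b (l 16783648) (l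 16778816)) (b (a (b (l 16777864) (l 16778064)) (b (a (l 16777656) (l 541427727)) (l 16780400))) (a (l 16778368) (l 16783312)))) (a (l 16779456) (l 16784080))))), by decide +kernel⟩

def k26_A00pm_123_s3 : ∃ t, chk3 f_A00pm_123_s3 t 1007 499 1 = true :=
  ⟨(b (a (b (l 4) (a (b (l 4) (a (b (l 4) (a (l 541311759) (l 541523983))) (l 4))) (l 4))) (l 4)) (a (b (a (b (a (b (a (l 541379343) (l 541327887)) (a (l 541442319) (l 541394703))) (b (a (l 541541135) (l 4)) (a (l 541344015) (l 541289487)))) (a (b (a (l 16777760) (l 16777616)) (l 16777880)) (b (a (l 541409807) (l 541359887)) (a (l 16777672) (l 541424655))))) (b (l 4) (a (b (a (l 541306383) (l 542054159)) (a (l 541375503) (l 541323023))) (b (l 4) (a (l 541803279) (l 4)))))) (a (b (a (l 16778184) (b (l 16780416) (l 16777992))) (l 16783680)) (b (a (b (a (l 541439503) (l 541391119)) (a (l 16777776) (l 16777640))) (b (a (l 541339407) (l 541820687)) (a (l 541406479) (l 541355535)))) (a (b (l 16777904) (l 16778096)) (b (a (l 16777688)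 (l 541421839)) (l 16780432)))))) (b (l 4) (a (b (a (b (l 4) (a (l 541569551) (l 542584335))) (l 4)) (a (b (a (l 541371663) (l 541317903)) (a (l 16777600) (l 541387535))) (b (a (l 542333711) (l 4)) (a (l 541334799) (l 542351631))))) (b (l 4) (a (b (l 4) (a (b (l 4) (l 541259023)) (l 4))) (l 4))))))), by decide +kernel⟩

def k27_A00pm_123_s3 : ∃ t, chk3 f_A00pm_123_s3 t 125 125 1 = true :=
  ⟨(a (l 16863816) (b (a (b (a (l 16865104) (l 16803672)) (l 16786048)) (b (a (b (a (l 16802248) (b (l 16790504) (l 16801904))) (l 16803008)) (b (a (b (a (l 16789552) (b (a (l 16778400) (l 16783352)) (l 16778664))) (c (l 16790120) (l 16790096))) (b (a (b (a (b (a (l 16777792) (l 16777656)) (l 16777920)) (b (a (l 541403407) (l 541351439)) (a (l 16777704) (l 541419023)))) (a (l 16778216) (b (l 16780448) (l 16778024)))) (b (a (b (a (l 542100751) (b (l 4) (l 541276687))) (a (l 541367823) (l 541849871))) (b (l 4) (a (l 542864143) (l 4)))) (a (b (a (l 16777616) (l 541383951)) (l 16780360)) (b (a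 (l 541598479) (l 542882575)) (a (l 541400079) (l 541347087)))))) (a (b (l 16783720) (l 16778896)) (b (a (b (l 16777936) (l 16778136)) (b (a (l 16777720) (l 541415951)) (l 16777848))) (a (l 16788920) (l 16783384)))))) (a (a (l 16801880) (l 16801640)) (b (a (l 16779544) (l 16784160)) (l 16790592))))) (a (l 16822720) (b (a (l 16823848) (a (l 16802320) (l 16801664))) (l 16822560))))) (l 16834640))), by decide +kernel⟩

def k28_A00pm_123_s3 : ∃ t, chk3 f_A00pm_123_s3 t 62 63 1 = true :=
  ⟨(b (a (l 16950392) (a (l 16922408) (l 16903080))) (a (l 17270296) (a (l 17168888) (c (l 17071400) (l 17074168))))), by decide +kernel⟩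

def k29_A00pm_123_s3 : ∃ t, chk3 f_A00pm_123_s3 t 126 124 1 = true :=
  ⟨(l 4), by decide +kernel⟩

def k30_A00pm_123_s3 : ∃ t, chk3 f_A00pm_123_s3 t 1008 1000 1 = true :=
  ⟨(a (b (a (b (l 4) (a (b (a (b (l 4) (l 541253391)) (l 4)) (a (l 542632207) (b (l 4) (l 541271567)))) (l 4))) (l 4)) (a (b (a (b (a (l 541363983) (l 542381583)) (a (l 16777632) (l 541380367))) (b (a (b (l 541250575) (l 541289743)) (l 4)) (a (l 542130703) (b (l 541269263) (l 541307407))))) (a (b (l 16780376) (l 16777952)) (b (a (l 541397007) (l 541879567)) (a (l 16777736) (l 541413135))))) (b (a (b (l 4) (a (b (l 4) (l 541247759)) (l 4))) (l 4)) (a (b (a (b (l 541287439) (l 541325071)) (b (l 4) (l 541266447))) (a (l 541628431) (l 542913295))) (b (l 4) (a (b (l 541244943) (l 541285135)) (b (l 4) (l 541222671)))))))) (l 4)), by decide +kernel⟩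

def k31_A00pm_123_s3 : ∃ t, chk3 f_A00pm_123_s3 t 1008 1001 1 = true :=
  ⟨(a (b (a (b (a (l 16778248) (b (l 16777864) (l 16778056))) (l 16783752)) (b (a (b (a (l 16777648) (l 541645327)) (l 16780392)) (b (a (l 542662671) (b (l 541263887) (l 541303311))) (a (l 541393679) (l 542412047)))) (a (l 16783312) (b (a (l 16777752) (l 16780240)) (l 16777880))))) (a (l 16789632) (b (a (l 16788960) (l 16783416)) (l 16778736)))) (b (a (b (a (b (a (b (l 4) (l 541242127)) (l 4)) (a (b (l 541282575) (l 541321231)) (b (l 541219599) (l 541261327)))) (l 4)) (a (b (a (l 542161167) (b (l 541301007) (l 541339151))) (a (l 16777664) (l 541910287))) (b (a (b (l 541239311) (l 541280271)) (b (l 4) (l 541216527))) (a (b (l 541319439) (l 541356559)) (b (l 541258767) (l 541298959)))))) (b (l 4) (a (b (l 4) (a (b (l 4) (l 541236495)) (l 4))) (l 4)))) (a (b (a (b (l 16780408) (l 16777984)) (b (a (l 541927439) (l 542944527)) (a (l 16777768) (l 16777632)))) (a (l 16778288) (b (l 16777896) (l 16783336))))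 (b (a (b (a (b (l 541277967) (l 541317391)) (b (l 541481743) (l 541256207))) (a (l 542694159) (b (l 541296911) (l 541335567)))) (b (l 4) (a (b (l 541233679) (l 541275663)) (b (l 4) (l 541746959))))) (a (b (a (l 16777680) (l 542443535)) (l 16780424)) (b (a (b (l 541315599) (l 541353487)) (b (l 541253647) (l 541294607))) (a (l 542192655) (b (l 541333775) (l 16777504))))))))), by decide +kernel⟩

def k32_A00pm_123_s3 : ∃ t, chk3 f_A00pm_123_s3 t 1009 500 1 = true :=
  ⟨(b (l 4) (a (b (l 4) (a (b (l 4) (a (b (a (b (l 4) (l 541499151)) (l 4)) (a (b (l 541273103) (l 541313551)) (b (l 542012431) (l 541250831)))) (b (l 4) (a (b (l 4) (l 542524431)) (l 4))))) (l 4))) (l 4))), by decide +kernel⟩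

def k33_A00pm_123_s3 : ∃ t, chk3 f_A00pm_123_s3 t 1008 501 1 = true :=
  ⟨(b (a (b (l 16790184) (l 16801272)) (b (a (b (l 16783792) (l 16778968)) (b (a (l 16783344) (b (a (l 16783032) (l 16777648)) (l 16777912))) (c (l 16783608) (l 16783600)))) (a (l 16779616) (l 16784232)))) (a (l 16802264) (b (l 16790720) (l 16801680)))), by decide +kernel⟩

def k34_A00pm_123_s3 : ∃ t, chk3 f_A00pm_123_s3 t 2018 1002 1 = true :=
  ⟨(b (a (b (a (b (a (b (l 541351951) (l 16777552)) (b (l 541292559) (l 541332239))) (a (l 16777696) (l 542976783))) (b (a (b (l 541764623) (l 541270799)) (b (l 4) (l 542277647))) (a (b (l 541311759) (l 541350671)) (b (l 541516815) (l 541290511))))) (a (b (l 16780440) (l 16778016)) (b (a (l 542726415) (b (l 541330447) (l 16777520))) (a (l 16783048) (l 16777664))))) (b (a (b (l 4) (a (b (l 542789391) (l 542030095)) (l 4))) (l 4)) (a (b (a (b (l 541268495) (l 541309711)) (b (l 542542863) (l 541782543))) (a (b (l 541349135) (l 16777568)) (b (l 541288207) (l 541328911))))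 (b (a (b (l 4) (a (l 541214991) (l 4))) (l 4)) (a (b (l 542295823) (l 541534479)) (b (l 4) (l 542807823))))))) (a (b (a (l 16778320) (b (l 16777928) (l 16783368))) (l 16783824)) (b (a (b (a (l 16777712) (b (l 16777528) (l 16777624))) (a (l 16777904) (l 16777768))) (b (a (b (l 541307919) (l 541347599)) (b (l 542048271) (l 541286159))) (a (l 16780248) (b (l 541327119) (l 16777536))))) (a (l 16783376) (b (a (l 16783056) (l 16777680)) (l 16777944)))))), by decide +kernel⟩

def k35_A00pm_123_s3 : ∃ t, chk3 f_A00pm_123_s3 t 2019 1002 1 = true :=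
  ⟨(b (l 4) (a (b (a (b (a (b (a (l 541212431) (l 4)) (l 542561295)) (l 4)) (a (b (l 541800463) (l 541305871)) (b (a (l 541233679) (l 541198863)) (l 542313999)))) (b (l 4) (a (b (l 4) (a (l 541209871) (l 4))) (l 4)))) (a (b (a (b (l 541346063) (l 16777584)) (b (l 541552399) (l 541325583))) (a (l 16777728) (b (l 16777544) (l 16777632)))) (b (a (b (l 542826511) (l 542066447)) (b (l 4) (a (l 541231375) (l 541196047)))) (a (b (l 541304079) (l 16777496)) (b (l 542579727) (l 541818639)))))) (b (l 4) (a (b (l 4) (a (b (a (l 541207311) (l 4)) (a (l 541252367) (l 541218063))) (l 4))) (l 4))))), by decide +kernel⟩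

def k36_A00pm_123_s3 : ∃ t, chk3 f_A00pm_123_s3 t 1009 1003 1 = true :=
  ⟨(a (b (a (l 16789704) (b (l 16783632) (l 16778808))) (l 16790288)) (b (a (b (a (b (a (l 16777920) (l 16777776)) (l 16778048)) (b (a (l 16780264) (b (l 541323791) (l 16777552))) (a (l 16783072) (l 16777688)))) (a (l 16778352) (b (l 16777960) (l 16783400)))) (b (a (b (a (b (l 542332687) (l 541570575)) (b (a (l 541229071) (l 541193487)) (l 542845455))) (a (b (l 16777504) (l 16777600)) (b (l 542085135) (l 541322255)))) (b (a (b (l 4) (a (l 541204495) (l 4))) (l 4)) (a (b (a (l 541250319) (l 541215759)) (l 542598671)) (b (a (l 541179151) (l 4)) (a (l 541226767) (l 541190671)))))) (a (b (a (l 16777744) (b (l 16777560) (l 16777648))) (a (l 16777936) (l 16777792))) (b (a (b (l 541837071) (l 16777512)) (b (a (l 541271311) (l 541237519)) (l 542351375))) (a (l 16780272) (b (l 541589007) (l 16777560))))))) (a (b (l 16783856) (l 16779040)) (b (a (l 16783408) (b (a (l 16783088) (l 16777704)) (l 16777968))) (l 16783664))))),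 by decide +kernel⟩

def k37_A00pm_123_s3 : ∃ t, chk3 f_A00pm_123_s3 t 505 250 1 = true :=
  ⟨(b (l 2) (a (b (l 4) (a (b (b (l 4) (a (a (b (a (b (a (l 541201935) (l 4)) (a (l 541248271) (l 541213199))) (b (l 4) (a (l 541176335) (l 4)))) (a (b (l 542864655) (l 542103823)) (b (a (l 541224463) (l 541187855)) (a (l 541269519) (l 541235471))))) (b (l 4) (a (b (l 4) (a (l 541199375) (l 4))) (l 4)))) (l 4))) (a (b (a (b (a (b (l 16777520) (l 16777616)) (b (l 542617615) (l 541855759))) (a (l 16777760) (l 16780240))) (b (a (b (a (l 541246223) (l 541210895)) (a (l 541290511) (l 541257231))) (b (a (l 541173519) (l 4)) (a (l 541222159) (l 541185295)))) (a (b (l 542370319) (l 16777528)) (b (a (l 541267983) (l 541233167)) (l 542883855))))) (a (b (a (l 16777952) (l 16777808)) (l 16778080)) (b (a (l 16777672) (b (l 542122511) (l 16777576))) (a (l 16777864) (l 16777720))))) (b (a (b (l 4) (a (b (a (l 541196815) (l 541158415)) (a (l 541244431) (l 541208335))) (b (l 4) (a (l 541170447) (l 4)))))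 (l 4)) (a (b (a (b (a (l 541289231) (l 541255183)) (l 542636815)) (b (a (l 541219855) (l 541182479)) (a (l 541266191) (l 541231119)))) (a (b (l 16777536) (l 16777624)) (b (a (l 16777432) (l 541276943)) (l 542389519)))) (b (a (b (l 4) (a (l 541194255) (l 541155343))) (l 4)) (a (b (a (l 541242383) (l 541206031)) (a (l 541287695) (l 541253391))) (b (a (l 541167631) (l 4)) (a (l 541217551) (l 541179663))))))))) (l 4))) (l 4))), by decide +kernel⟩

def k38_A00pm_123_s3 : ∃ t, chk3 f_A00pm_123_s3 t 504 251 1 = true :=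
  ⟨(b (a (a (l 16823024) (l 16801496)) (b (a (a (l 16801880) (l 16801312)) (b (a (l 16779696) (l 16784296)) (l 16790328))) (b (l 16801760) (l 16821616)))) (l 16826704)), by decide +kernel⟩

def k39_A00pm_123_s3 : ∃ t, chk3 f_A00pm_123_s3 t 2020 1004 1 = true :=
  ⟨(b (a (b (a (l 16778384) (l 16783328)) (l 16783888)) (b (a (b (a (l 16777768) (l 16780256)) (c (l 16783144) (l 16783136))) (b (a (b (l 542903311) (l 16777544)) (b (a (l 541264399) (l 541229071)) (a (l 16777440) (l 541275407)))) (a (l 16777680) (b (l 542656271) (l 16777592))))) (a (l 16783440) (b (a (l 16777872) (l 16777736)) (l 16778000))))) (a (l 16789776) (b (l 16783696) (l 16778880)))), by decide +kernel⟩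

def k40_A00pm_123_s3 : ∃ t, chk3 f_A00pm_123_s3 t 2021 2008 1 = true :=
  ⟨(a (b (a (b (a (b (a (l 541191695) (l 541152271)) (a (l 541240335) (l 541203471))) (b (l 4) (a (l 541164559) (l 4)))) (a (b (a (l 541286159) (l 541251599)) (a (l 16780112) (l 16777424))) (b (a (l 541215247) (l 541176847)) (a (l 541262863) (l 541226767))))) (b (l 4) (a (b (l 4) (a (l 541189135) (l 541148943))) (l 4)))) (a (b (a (a (l 16777632) (l 16777560)) (b (a (l 16777448) (l 541273871)) (l 542923023))) (a (l 16777784) (l 16780264))) (b (a (b (a (l 541238287) (l 541201167)) (a (l 16777400) (l 541249807))) (b (a (l 541161743) (l 4)) (a (l 541212943) (l 541174031)))) (a (b (a (l 16780120) (l 16777424)) (l 16777552)) (b (a (l 541261071) (l 541224719)) (a (l 16777456) (l 541272335))))))) (b (l 4) (a (b (a (b (l 4) (a (l 541669903) (l 4))) (l 4)) (a (b (a (l 541186575) (l 541414415)) (a (l 541236495) (l 541198607))) (b (l 4) (a (l 541427215) (l 4))))) (l 4)))), by decide +kernel⟩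

def k41_A00pm_123_s3 : ∃ t, chk3 f_A00pm_123_s3 t 2021 2009 1 = true :=
  ⟨(a (b (a (b (l 16783152) (l 16778112)) (b (a (l 16777696) (b (c (l 16777512) (l 16777512)) (l 16777608))) (a (l 16777888) (l 16777744)))) (a (l 16778416) (l 16783360))) (b (a (b (a (b (a (l 16777408) (l 541248015)) (a (l 16777504) (l 16777432))) (b (a (l 541210639) (l 541171471)) (a (l 541259535) (l 541222671)))) (a (b (l 16777560) (l 16780280)) (b (a (l 16777456) (l 541270799)) (c (l 16777520) (l 16777520))))) (b (a (b (a (l 541934863) (l 4)) (a (l 541183759) (l 541679631))) (l 4)) (a (b (a (l 541234447) (l 541196303)) (a (l 16777416) (l 541246223))) (b (a (l 541692687) (l 4)) (a (l 541208591) (l 541436943)))))) (a (b (a (l 16777800) (l 16780280)) (l 16783168)) (b (a (b (a (l 16777512) (l 16777440)) (l 16777568)) (b (a (l 541257743) (l 541220623)) (a (l 16777464) (l 541269263)))) (a (l 16777712) (b (l 16777528) (l 16777616))))))), by decide +kernel⟩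

def k42_A00pm_123_s3 : ∃ t, chk3 f_A00pm_123_s3 t 1011 1004 1 = true :=
  ⟨(a (a (b (l 4) (b (a (b (l 4) (a (b (l 4) (a (l 542199823) (l 4))) (l 4))) (l 4)) (a (b (a (b (a (l 541181199) (l 542213391)) (a (l 541232655) (l 541193743))) (b (l 4) (a (l 541958159) (l 4)))) (a (b (a (l 16777424) (l 541244431)) (a (l 16777512) (l 16777448))) (b (a (l 541206287) (l 541702671)) (a (l 541256207) (l 541218575))))) (b (l 4) (a (b (a (l 542733327) (l 4)) (a (l 541447183) (l 542478607))) (l 4)))))) (l 4)) (l 4)), by decide +kernel⟩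

def k43_A00pm_123_s3 : ∃ t, chk3 f_A00pm_123_s3 t 1010 1005 1 = true :=
  ⟨(a (b (a (l 16779904) (l 16779528)) (l 16801296)) (b (a (b (l 16789168) (l 16779112)) (b (a (l 16783464) (b (a (l 16777904) (l 16777760)) (l 16778032))) (l 16783728))) (a (l 16790000) (l 16789608)))), by decide +kernel⟩

def k44_A00pm_123_s3 : ∃ t, chk3 f_A00pm_123_s3 t 2022 1005 1 = true :=
  ⟨(b (a (b (a (b (a (l 16780240) (b (a (l 16777472) (l 541267983)) (l 16777528))) (a (l 16777816) (l 16780296))) (b (a (b (a (l 541230607) (l 541459983)) (a (l 16777432) (l 541242639))) (b (a (l 542223375) (b (l 4) (l 541137423))) (a (l 541203983) (l 541968399)))) (a (b (a (l 16777520) (l 16777456)) (l 16777584)) (b (a (l 541254671) (l 541216527)) (a (l 16777480) (l 16777408)))))) (a (b (l 16783184) (l 16778136)) (b (a (l 16777720) (b (l 16777536) (l 16777632))) (a (l 16777920) (l 16777776))))) (b (a (b (a (b (l 4) (a (b (l 4) (l 541150735)) (l 4))) (l 4)) (a (b (a (l 541981455) (l 542743823)) (a (l 541228815)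 (l 541725967))) (b (l 4) (a (l 542488847) (b (l 4) (l 541134863)))))) (l 4)) (a (b (a (b (a (l 16777432) (l 541241103)) (a (l 16777528) (l 16777464))) (b (a (l 541470223) (l 542233871)) (a (l 541253135) (l 541482767)))) (a (l 16780256) (b (a (l 16777488) (l 16777416)) (l 16777544)))) (b (a (b (a (b (l 4) (l 541148175)) (l 4)) (a (l 542247183) (b (l 541133327) (l 541161743)))) (l 4)) (a (b (a (l 541227023) (l 541991951)) (a (l 16777440) (l 541239311))) (b (a (b (l 541146895) (l 541174799)) (b (l 4) (l 541132047))) (a (l 541736463) (l 542767887)))))))) (a (b (a (l 16778448) (l 16783392)) (l 16789200)) (b (a (b (a (l 16777824) (l 16780304)) (l 16783192)) (b (a (b (a (l 16777536) (l 16777464)) (l 16777592)) (b (a (l 541251599) (l 541749263)) (a (l 16777488) (l 16777424)))) (a (l 16777736) (b (l 16777552) (l 16777648))))) (a (l 16783496) (b (a (l 16777928) (l 16777792)) (l 16778056)))))), by decide +kernel⟩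

def k45_A00pm_123_s3 : ∃ t, chk3 f_A00pm_123_s3 t 2023 1005 1 = true :=
  ⟨(b (a (a (b (l 4) (b (l 4) (a (b (l 4) (a (b (l 4) (l 541145871)) (l 4))) (l 4)))) (l 4)) (l 4)) (a (b (a (b (a (b (a (l 542512911) (b (l 541130511) (l 541159439))) (a (l 541493519) (l 542257935))) (b (a (b (l 4) (l 541115151)) (l 4)) (a (b (l 541144591) (l 541172751)) (b (l 4) (l 541129231))))) (a (b (a (l 16777448) (l 541237519)) (a (l 16777544) (l 16777472))) (b (a (l 542002703) (b (l 541158159) (l 541186063))) (a (l 541250063) (l 542015759))))) (b (l 4) (a (b (a (b (l 541113615) (l 541143311)) (l 4)) (a (l 542778895) (b (l 541127951) (l 541156879)))) (b (l 4) (a (b (l 4) (l 541112079)) (l 4)))))) (a (b (a (l 16780272) (b (a (l 16777496) (l 16777432)) (l 16777560))) (a (l 16777840) (l 16780320))) (b (a (b (a (l 541760015) (l 542523919)) (a (l 16777456) (l 541504271))) (b (a (b (l 541142031) (l 541170703)) (b (l 4) (l 541126415))) (a (l 542537231) (b (l 541155855) (l 541184015))))) (a (b (a (l 16777544)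 (l 16777480)) (l 16777608)) (b (a (l 541517071) (l 542281999)) (a (l 16777504) (l 16777440))))))) (b (l 4) (a (b (a (b (l 4) (a (b (l 541110799) (l 541140751)) (l 4))) (l 4)) (a (b (a (b (l 541169423) (l 541197327)) (b (l 541125135) (l 541154575))) (a (l 542026767) (b (l 541182991) (l 541210383)))) (b (a (b (l 4) (l 541109263)) (l 4)) (a (b (l 541139471) (l 541168399)) (b (l 4) (l 541123855)))))) (l 4))))), by decide +kernel⟩

def k46_A00pm_123_s3 : ∃ t, chk3 f_A00pm_123_s3 t 505 503 1 = true :=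
  ⟨(a (a (l 16801184) (b (b (l 16790408) (l 16779944)) (l 16780056))) (a (b (b (a (l 16789880) (b (l 16783760) (l 16778944))) (a (l 16800936) (l 16789776))) (l 16800840)) (b (b (a (b (a (b (l 16777968) (l 16778168)) (b (a (l 16777752) (b (l 16777560) (l 16777656))) (a (l 16777944) (l 16777800)))) (a (l 16778472) (l 16783416))) (b (a (b (a (b (a (l 16777464) (l 542039567)) (a (l 16777552) (l 16777488))) (b (a (l 542803471) (b (l 541153551) (l 541182223))) (a (l 541783823) (l 542548495)))) (a (l 16780280) (b (a (l 16777512) (l 16777440)) (l 16777568)))) (b (a (b (a (b (l 541107727) (l 541138191)) (l 4)) (a (b (l 541167375) (l 541195535)) (b (l 541122319) (l 541152527)))) (b (l 4) (a (b (l 4) (l 541106191)) (l 4)))) (a (b (a (l 542293263) (b (l 541181199) (l 541208847))) (a (l 16777464) (l 542306319))) (b (a (b (l 541136911) (l 541166351)) (b (l 4) (l 541121039))) (a (b (l 541194767) (l 16777352)) (b (l 541151247) (l 541180175))))))) (a (b (a (l 16777856) (l 16777712)) (l 16777976))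 (b (a (b (a (l 16777560) (l 16777488)) (l 16777616)) (b (a (l 16777424) (l 542814991)) (a (l 16777512) (l 16777448)))) (a (l 16777760) (b (l 16777576) (l 16777672))))))) (a (b (l 16789232) (l 16789664)) (b (a (l 16783528) (b (a (l 16777960) (l 16777816)) (l 16778088))) (l 16783792)))) (b (a (l 16790040) (l 16789368)) (l 16800816))))), by decide +kernel⟩

def k47_A00pm_123_s3 : ∃ t, chk3 f_A00pm_123_s3 t 253 250 1 = true :=
  ⟨(l 2), by decide +kernel⟩

def k48_A00pm_123_s3 : ∃ t, chk3 f_A00pm_123_s3 t 506 502 1 = true :=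
  ⟨(l 4), by decide +kernel⟩

def k49_A00pm_123_s3 : ∃ t, chk3 f_A00pm_123_s3 t 2024 2012 1 = true :=
  ⟨(a (b (a (b (l 4) (a (b (l 4) (a (b (l 541104655) (l 541135631)) (b (l 4) (l 541356303)))) (l 4))) (l 4)) (a (b (a (b (a (b (l 541165327) (l 541193999)) (b (l 541119759) (l 541150223))) (a (l 542828303) (b (l 541179407) (l 541207311)))) (b (a (b (l 4) (l 541103119)) (l 4)) (a (b (l 541134351) (l 541164303)) (b (l 541623311) (l 541118223))))) (a (b (a (l 16777472) (l 542573327)) (a (l 16777568) (l 16777496))) (b (a (b (l 541193231) (l 16777360)) (b (l 541148943) (l 541178383))) (a (l 16777432) (b (l 541206799) (l 16777384)))))) (b (l 4) (a (b (a (b (l 541370127) (l 541133327)) (b (l 4) (l 541890063))) (a (b (l 541163279) (l 541192207)) (b (l 541116943) (l 541147919)))) (b (l 4) (a (b (l 4) (l 541637135)) (l 4))))))) (l 4)), by decide +kernel⟩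

def k50_A00pm_123_s3 : ∃ t, chk3 f_A00pm_123_s3 t 2024 2013 1 = true :=
  ⟨(a (b (a (b (a (l 16780296) (b (a (l 16777520) (l 16777456)) (l 16777584))) (a (l 16777864) (l 16777720))) (b (a (b (a (b (l 16777368) (l 16777408)) (b (l 541177615) (l 541206031))) (a (l 16777480) (l 542840079))) (b (a (b (l 541132047) (l 541162255)) (b (l 541888271) (l 541383951))) (a (b (l 541191439) (l 16777368)) (b (l 541146639) (l 541176591))))) (a (b (c (l 16780160) (l 16780160)) (l 16777632)) (b (a (l 16777432) (b (l 541205263) (l 16777392))) (a (l 16780152) (l 16777456)))))) (a (b (l 16777992) (l 16778192)) (b (a (l 16777776) (l 16780256)) (a (l 16777968) (l 16777824))))) (b (a (b (a (b (l 4) (a (a (l 541928719) (l 542441231)) (b (l 4) (l 542155279)))) (l 4)) (a (b (a (b (l 541161231) (l 541190671)) (b (l 541382671) (l 541145615))) (a (b (l 16777368) (l 16777416)) (b (l 541175567) (l 541204495)))) (b (a (b (l 4) (l 541902607)) (l 4)) (a (b (l 541398031) (l 541160207)) (b (l 542153487) (l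 541649679)))))) (l 4)) (a (b (a (b (a (l 16777488) (b (l 16777392) (l 16777440))) (l 16780168)) (b (a (b (l 541189903) (l 16777376)) (b (l 541144591) (l 541174799))) (a (l 16777440) (b (l 541203727) (l 16777400))))) (a (l 16780304) (b (a (l 16780152) (l 16777464)) (l 16777592)))) (b (a (b (a (b (l 542169615) (l 541396751)) (b (l 4) (l 542420239))) (a (b (l 541159183) (l 541189135)) (b (l 541916943) (l 541143311)))) (b (l 4) (a (b (l 4) (l 542168079)) (l 4)))) (a (b (a (a (l 16777416) (l 16777384)) (b (l 541173775) (l 16777352))) (a (l 16777488) (b (l 16777400) (l 16777448)))) (b (a (b (l 541664015) (l 541158415)) (b (l 542687247) (l 541915407))) (a (b (l 541188367) (l 16777376)) (b (l 541410831) (l 541173007))))))))), by decide +kernel⟩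

def k51_A00pm_123_s3 : ∃ t, chk3 f_A00pm_123_s3 t 2025 1006 1 = true :=
  ⟨(b (l 4) (a (b (l 4) (a (b (l 4) (a (b (a (b (l 4) (a (l 541088527) (l 4))) (l 4)) (a (b (l 542435087) (l 541662735)) (b (l 4) (a (l 541104399) (l 4))))) (l 4))) (l 4))) (l 4))), by decide +kernel⟩

def k52_A00pm_123_s3 : ∃ t, chk3 f_A00pm_123_s3 t 2024 1007 1 = true :=
  ⟨(b (a (b (a (l 16778504) (l 16783448)) (l 16789256)) (b (a (b (a (l 16777880) (l 16777736)) (l 16778008)) (b (a (b (l 16780168) (l 16777640)) (b (a (l 16777448) (b (l 16777360) (l 16777400))) (a (l 16780160) (l 16777472)))) (a (l 16777784) (l 16780272)))) (a (l 16783552) (b (c (l 16783160) (l 16783152)) (l 16778112))))) (a (l 16789592) (b (l 16783816) (l 16779008)))), by decide +kernel⟩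

def k53_A00pm_123_s3 : ∃ t, chk3 f_A00pm_123_s3 t 4050 2014 1 = true :=
  ⟨(b (a (b (a (b (a (b (l 541157391) (l 541187599)) (b (l 542182671) (l 541678095))) (a (a (l 16777424) (l 16777384)) (b (l 541171983) (l 16777360)))) (b (a (b (a (l 541087247) (l 4)) (l 542701839)) (l 4)) (a (b (l 541929743) (l 541424655)) (b (a (l 541103375) (l 4)) (l 542449679))))) (a (b (a (l 16777496) (c (l 16777432) (l 16777424))) (l 16780176)) (b (a (b (l 541186831) (l 16777384)) (b (l 541676815) (l 541171215))) (a (l 16777456) (b (l 16777360) (l 16777408)))))) (b (a (b (l 4) (a (b (l 4) (a (l 541085967) (l 4))) (l 4))) (l 4)) (a (b (a (b (l 542700303) (l 542197007)) (b (l 4) (a (l 541102095) (l 4)))) (a (b (l 541423887) (l 541186063)) (b (l 542448143) (l 541944335)))) (b (l 4) (a (b (a (l 541084687) (l 4)) (a (l 541117967) (l 541092879))) (l 4)))))) (a (b (a (l 16780320) (b (a (l 16780168) (l 16777480)) (l 16777608))) (a (l 16777888) (l 16777752))) (b (a (b (a (a (l 16777424) (l 16777392)) (b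 (l 541438735) (l 16777368))) (a (l 16777504) (c (l 16777432) (l 16777432)))) (b (a (b (l 542195727) (l 541691151)) (b (a (l 541100815) (l 4)) (l 542715407))) (a (b (l 541185295) (l 16777392)) (a (l 542235919) (l 542748431))))) (a (b (l 16780184) (l 16777656)) (b (a (l 16777456) (b (l 16777368) (l 16777416))) (a (l 16777552) (l 16777480))))))), by decide +kernel⟩

def k54_A00pm_123_s3 : ∃ t, chk3 f_A00pm_123_s3 t 4051 2014 1 = true :=
  ⟨(b (l 4) (a (b (a (b (a (b (l 4) (a (l 541083407) (l 4))) (l 4)) (a (b (a (l 541116943) (l 541091599)) (l 542462991)) (b (l 4) (a (l 541099791) (l 541073679))))) (l 4)) (a (b (a (b (l 541958671) (l 541184527)) (b (a (l 541132815) (l 541107983)) (l 542210575))) (a (b (l 16777392) (l 16777440)) (b (l 541705487) (l 16777368)))) (b (a (b (a (l 541082127) (l 4)) (a (l 541115919) (l 541090319))) (l 4)) (a (b (l 542730255) (l 541957647)) (b (a (l 541098767) (l 541072399)) (a (l 541131791) (l 541106703))))))) (b (l 4) (a (b (l 4) (a (b (l 4) (a (l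 541080847) (l 4))) (l 4))) (l 4))))), by decide +kernel⟩

def k55_A00pm_123_s3 : ∃ t, chk3 f_A00pm_123_s3 t 2025 2015 1 = true :=
  ⟨(a (b (a (l 16783360) (b (a (l 16777800) (l 16780280)) (l 16783168))) (a (l 16778536) (l 16783472))) (b (a (b (a (b (a (l 16777504) (l 16777440)) (l 16777568)) (b (a (b (l 541452047) (l 16777392)) (b (l 542477839) (l 541704719))) (a (l 16777464) (b (l 16777376) (l 16777416))))) (a (l 16780328) (b (a (l 16777560) (l 16777488)) (l 16777616)))) (b (a (b (a (b (a (l 541114895) (l 541089295)) (l 542728975)) (b (l 4) (a (l 541097487) (l 541071119)))) (a (b (l 542225167) (l 541719823)) (b (a (l 541131023) (l 541105679)) (l 542476815)))) (b (l 4) (a (b (a (l 541079567) (l 4)) (a (l 541113871) (l 541088015))) (l 4)))) (a (b (a (b (l 16777400) (l 16777440)) (b (l 541972239) (l 16777376))) (a (l 16777512) (l 16777448))) (b (a (b (a (l 541146895) (l 541122063)) (l 542492687)) (b (a (l 541096463) (l 541069583)) (a (l 541129999) (l 541104655)))) (a (b (l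 541719055) (l 16777400)) (b (l 542744079) (l 542239759))))))) (a (b (a (l 16777904) (l 16777760)) (l 16778032)) (b (a (b (l 16777576) (l 16777664)) (b (a (l 16777472) (b (l 16777384) (l 16777424))) (a (l 16777560) (l 16777496)))) (a (l 16777816) (l 16780288)))))), by decide +kernel⟩

def k56_A00pm_123_s3 : ∃ t, chk3 f_A00pm_123_s3 t 1013 503 1 = true :=
  ⟨(b (l 2) (a (b (l 4) (a (a (b (b (l 4) (a (b (a (b (l 4) (a (l 541078287) (l 4))) (l 4)) (a (b (a (l 541112847) (l 541086735)) (a (l 541146127) (l 541121039))) (b (a (l 541059599) (l 4)) (a (l 541095183) (l 541068303))))) (l 4))) (b (a (b (a (b (l 542491663) (l 541986831)) (b (a (l 541129231) (l 541103631)) (a (l 16777312) (l 541137423)))) (a (b (l 16777408) (l 16777448)) (b (l 542238991) (l 16777384)))) (b (a (b (a (l 541077007) (l 4)) (a (l 541112079) (l 541085711))) (b (l 4) (a (l 541058063) (l 4)))) (a (b (a (l 541145359) (l 541120271)) (l 542759183)) (b (a (l 541094159) (l 541067023)) (a (l 541128463) (l 541102607))))))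 (a (b (a (l 16777520) (l 16777448)) (l 16777576)) (b (a (a (l 16777400) (l 542791439)) (b (a (l 16777312) (l 541136655)) (l 542506767))) (a (l 16777472) (b (l 16777384) (l 16777432))))))) (b (l 4) (b (a (b (l 4) (a (b (l 4) (a (l 541075727) (l 4))) (l 4))) (l 4)) (a (b (a (b (a (l 541111055) (l 541084431)) (a (l 541144591) (l 541119247))) (b (a (l 541056783) (l 4)) (a (l 541093135) (l 541065743)))) (a (b (a (l 16777336) (l 541152527)) (l 16777368)) (b (a (l 541127439) (l 541101583)) (a (l 16777312) (l 541135631))))) (b (l 4) (a (b (a (l 541074447) (l 4)) (a (l 541110031) (l 541083151))) (b (l 4) (a (l 541055247) (l 4))))))))) (l 4))) (l 4))), by decide +kernel⟩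

def k57_A00pm_123_s3 : ∃ t, chk3 f_A00pm_123_s3 t 507 251 1 = true :=
  ⟨(l 2), by decide +kernel⟩

def k58_A00pm_123_s3 : ∃ t, chk3 f_A00pm_123_s3 t 127 62 1 = true :=
  ⟨(l 2), by decide +kernel⟩

def k59_A00pm_123_s3 : ∃ t, chk3 f_A00pm_123_s3 t 252 126 1 = true :=
  ⟨(b (a (l 16838280) (b (l 16804664) (l 16833392))) (l 16893112)), by decide +kernel⟩

def k60_A00pm_123_s3 : ∃ t, chk3 f_A00pm_123_s3 t 1012 504 1 = true :=
  ⟨(b (a (a (l 16800392) (b (l 16789864) (l 16779008))) (b (a (b (l 16789288) (l 16789504)) (b (a (l 16783584) (b (l 16783184) (l 16778136))) (l 16783848))) (a (l 16800480) (l 16789432)))) (a (l 16780792) (l 16799896))), by decide +kernel⟩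

def k61_A00pm_123_s3 : ∃ t, chk3 f_A00pm_123_s3 t 4052 2016 1 = true :=
  ⟨(b (a (b (a (l 16780344) (b (a (l 16777568) (l 16777496)) (l 16777632))) (a (l 16777920) (l 16777776))) (b (a (b (a (b (l 16777408) (l 16777456)) (b (l 542774287) (l 16777392))) (a (l 16777528) (l 16777456))) (b (a (b (a (l 541143823) (l 541118479)) (a (l 16777336) (l 541152015))) (b (a (l 541091855) (l 541064463)) (a (l 541126671) (l 541100559)))) (a (b (l 16777368) (l 16777416)) (b (a (l 16777320) (l 541134863)) (l 542773519))))) (a (b (l 16777584) (l 16777680)) (b (a (l 16777480) (b (l 16777392) (l 16777440))) (c (l 16780160) (l 16780160)))))) (a (l 16783392) (b (a (l 16777824) (b (l 16777632) (l 16782976))) (l 16783192)))), by decide +kernel⟩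

def k62_A00pm_123_s3 : ∃ t, chk3 f_A00pm_123_s3 t 4053 4032 1 = true :=
  ⟨(a (b (a (b (a (b (l 4) (a (l 541073167) (l 541044751))) (l 4)) (a (b (a (l 541109007) (l 541082127)) (a (l 541143055) (l 541117455))) (b (a (l 541053967) (l 4)) (a (l 541090831) (l 541062927))))) (l 4)) (a (b (a (b (a (l 16777344) (l 16777312)) (l 16777368)) (b (a (l 541125903) (l 541099535)) (a (l 16777320) (l 541134351)))) (a (b (l 16777416) (l 16777464)) (b (a (l 16777368) (l 16777336)) (l 16777392)))) (b (a (b (a (l 541072143) (l 541043215)) (a (l 541108239) (l 541080847))) (b (l 4) (a (l 541052431) (l 4)))) (a (b (a (l 541142543) (l 541116687)) (a (l 16777344) (l 16777312))) (b (a (l 541089807) (l 541061647)) (a (l 541125135) (l 541098511))))))) (b (l 4) (a (b (l 4) (a (b (l 4) (a (l 541070863) (l 541041679))) (l 4))) (l 4)))), by decide +kernel⟩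

def k63_A00pm_123_s3 : ∃ t, chk3 f_A00pm_123_s3 t 4053 4033 1 = true :=
  ⟨(a (b (a (b (a (l 16777528) (l 16777464)) (l 16777592)) (b (a (b (l 16777376) (l 16777416)) (b (a (l 16777320) (l 541133583)) (a (l 16777368) (l 16777336)))) (a (l 16777488) (b (l 16777400) (l 16777440))))) (a (l 16780352) (b (c (l 16780168) (l 16780168)) (l 16777640)))) (b (a (b (a (b (a (l 541107215) (l 541079823)) (a (l 541141775) (l 541115663))) (b (a (l 541051151) (l 4)) (a (l 541088783) (l 541060367)))) (a (b (a (l 16777344) (l 16777312)) (l 16777376)) (b (a (l 541124367) (l 541097487)) (a (l 16777328) (l 541132815))))) (b (l 4) (a (b (a (l 541069583) (l 541308687)) (a (l 541106191) (l 541078543))) (b (l 4) (a (l 541049871) (l 4)))))) (a (b (a (b (l 16777424) (l 16777464)) (b (a (l 16777368) (l 16777336)) (l 16777400))) (a (l 16777536) (l 16777464))) (b (a (b (a (l 541141007) (l 541114895)) (a (l 16777352) (l 16777320))) (b (a (l 541087503) (l 541059087)) (a (l 541123599) (l 541096463)))) (a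 (b (l 16777376) (l 16777424)) (b (a (l 16777328) (l 541132047)) (a (l 16777376) (l 16777344)))))))), by decide +kernel⟩

def k64_A00pm_123_s3 : ∃ t, chk3 f_A00pm_123_s3 t 2026 2017 1 = true :=
  ⟨(a (b (a (l 16778560) (l 16783496)) (l 16789136)) (b (a (b (a (l 16777928) (l 16777784)) (l 16778056)) (b (a (b (l 16777592) (l 16777688)) (b (a (l 16777488) (b (l 16777400) (l 16780072))) (l 16780176))) (a (l 16777832) (b (l 16777648) (l 16782984))))) (a (l 16778368) (b (l 16783208) (l 16778168))))), by decide +kernel⟩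

def k65_A00pm_123_s3 : ∃ t, chk3 f_A00pm_123_s3 t 8108 1008 1 = true :=
  ⟨(b (b (l 4) (b (l 4) (a (b (a (b (l 4) (a (l 541068303) (l 541575695))) (l 4)) (a (b (a (l 541105423) (l 541077519)) (a (l 541140495) (l 541114127))) (b (a (l 541316879) (l 4)) (a (l 541086479) (l 541326351))))) (b (l 4) (a (b (l 4) (a (l 541832975) (l 4))) (l 4)))))) (b (b (a (b (a (b (a (l 16777352) (l 16777320)) (l 16777384)) (b (a (l 541122831) (l 541095439)) (a (l 16777328) (l 541131279)))) (a (c (l 16777448) (l 16777448)) (b (a (l 16777376) (l 16777344)) (l 16777400)))) (b (a (b (a (l 541067023) (l 541574159)) (a (l 541104399) (l 541076239))) (b (l 4) (a (l 541583887) (l 4)))) (a (b (a (l 541139727) (l 541113359)) (a (l 16777352) (l 16777320))) (b (a (l 541085455) (l 541324815)) (a (l 541122063) (l 541094671)))))) (a (b (a (l 16777544) (l 16777472)) (l 16777600)) (b (a (b (l 16777384) (l 16777424)) (b (a (l 16777336) (l 541130511)) (a (l 16777376) (l 16777344)))) (a (l 16777496) (b (l 16777408)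 (l 16777448)))))) (b (a (l 16780368) (b (l 16780176) (l 16777648))) (a (l 16777944) (l 16777792))))), by decide +kernel⟩

def k66_A00pm_123_s3 : ∃ t, chk3 f_A00pm_123_s3 t 8109 1008 1 = true :=
  ⟨(b (l 4) (b (b (a (b (l 4) (a (b (a (l 542099727) (l 4)) (a (l 541334287) (l 541841167))) (l 4))) (l 4)) (a (b (a (b (a (l 541103631) (l 541075215)) (a (l 16777312) (l 541112335))) (b (a (l 541582607) (l 4)) (a (l 541084431) (l 541592079)))) (a (b (a (l 16777360) (l 16777328)) (l 16777384)) (b (a (l 541121295) (l 541093647)) (a (l 16777336) (l 541129999))))) (b (a (b (l 4) (a (l 542098191) (l 4))) (l 4)) (a (b (a (l 541333263) (l 542108175)) (a (l 541102607) (l 541342479))) (b (l 4) (a (l 541849615) (l 4))))))) (b (a (b (a (l 16777456) (b (a (l 16777384) (l 16777344)) (l 16777408))) (a (l 16777544) (l 16777480))) (b (a (b (a (l 16777312) (l 541111567)) (a (l 16777360) (l 16777328))) (b (a (l 541083407) (l 541859343)) (a (l 541120527) (l 541092623)))) (a (b (l 16777384) (l 16777432))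 (b (a (l 16777336) (l 541129231)) (a (l 16777384) (l 16777352)))))) (a (b (l 16777608) (l 16777704)) (b (a (l 16777504) (b (l 16777408) (l 16780080))) (l 16780184)))))), by decide +kernel⟩

def k67_A00pm_123_s3 : ∃ t, chk3 f_A00pm_123_s3 t 4055 1008 1 = true :=
  ⟨(b (l 4) (b (l 4) (a (b (a (b (a (b (a (l 542365199) (l 4)) (a (l 541600271) (l 542375183))) (l 4)) (a (b (a (l 541101839) (l 541609999)) (a (l 16777320) (l 541110799))) (b (a (l 542116623) (b (l 4) (l 541034511))) (a (l 541350927) (l 541857807))))) (b (l 4) (a (b (l 4) (a (l 542631951) (l 4))) (l 4)))) (a (b (a (b (a (l 16777360) (l 16777328)) (l 16777392)) (b (a (l 541119759) (l 541360143)) (a (l 16777344) (l 541128719)))) (a (l 16777456) (b (c (l 16777368) (l 16777368)) (l 16777416)))) (b (a (b (a (l 541867535) (l 542373647)) (a (l 541100815) (l 541608719))) (b (l 4) (a (l 542383631) (b (l 4) (l 541033487))))) (a (b (a (l 16777320) (l 541110031)) (b (l 16777336) (l 16777360))) (b (a (l 541618191) (l 542125071))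 (a (l 541118991) (l 541359119))))))) (b (l 4) (a (b (l 4) (a (b (a (b (l 4) (l 541043215)) (l 4)) (a (l 541866511) (l 542640655))) (l 4))) (l 4)))))), by decide +kernel⟩

def k68_A00pm_123_s3 : ∃ t, chk3 f_A00pm_123_s3 t 1013 1009 1 = true :=
  ⟨(b (a (a (l 16789696) (b (a (l 16778792) (l 16778480)) (l 16789328))) (a (b (a (l 16783416) (b (a (l 16777848) (b (l 16777656) (l 16782992))) (l 16783216))) (a (l 16778592) (l 16783520))) (b (a (b (a (b (a (l 16777552) (l 16777480)) (l 16777608)) (b (a (b (l 16777392) (l 16777440)) (b (a (l 16777344) (l 541127951)) (c (l 16777376) (l 16777368)))) (a (l 16777504) (b (l 16777416) (l 16777464))))) (a (l 16780376) (b (l 16780192) (l 16777664)))) (b (a (b (a (b (a (l 541368335) (l 541875983)) (a (l 16777320) (l 541109263))) (b (a (l 542382351) (b (l 4) (l 541032207))) (a (l 541617167) (l 542392335)))) (a (b (b (l 16777336) (l 16777360)) (l 16777392)) (b (a (l 541118223) (l 541626639)) (a (l 16777344) (l 541127439))))) (b (a (b (l 4) (a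 (b (l 4) (l 541042191)) (l 4))) (l 4)) (a (b (a (l 542133775) (b (l 541031439) (l 541051919))) (a (l 541367567) (l 542143503))) (b (l 4) (a (l 542649359) (b (l 4) (l 541030927))))))) (a (b (a (l 16777464) (b (l 16777376) (l 16777416))) (a (l 16777560) (l 16777488))) (b (a (b (a (l 16777328) (l 541376783)) (a (l 16777368) (l 16777336))) (b (a (l 541884687) (l 542659343)) (a (l 541117711) (l 541625871)))) (a (b (l 16777400) (l 16777440)) (b (a (l 16777352) (l 541126671)) (l 16777376))))))) (a (b (a (l 16777952) (l 16777808)) (l 16778080)) (b (a (b (l 16777616) (l 16777712)) (b (a (l 16777512) (b (l 16777424) (l 16777464))) (l 16780192))) (a (l 16777856) (b (l 16777664) (l 16777760)))))))) (a (l 16789704) (a (b (l 16789104) (l 16789584)) (b (a (l 16778392) (b (l 16783232) (l 16778192))) (a (l 16778664) (l 16778504)))))), by decide +kernel⟩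

def k69_A00pm_123_s3 : ∃ t, chk3 f_A00pm_123_s3 t 506 505 1 = true :=
  ⟨(a (l 16826776) (b (a (l 16801112) (b (a (l 16778608) (l 16789520)) (l 16779056))) (l 16803384))), by decide +kernel⟩

def k70_A00pm_123_s3 : ∃ t, chk3 f_A00pm_123_s3 t 1014 1008 1 = true :=
  ⟨(l 4), by decide +kernel⟩

def k71_A00pm_123_s3 : ∃ t, chk3 f_A00pm_123_s3 t 4056 4036 1 = true :=
  ⟨(b (l 4) (a (a (b (a (b (a (b (l 4) (l 541040911)) (l 4)) (a (l 542401039) (b (l 541030415) (l 541050895)))) (l 4)) (a (b (a (l 541635343) (l 542142223)) (a (l 16777328) (l 541376271))) (b (a (b (l 541040399) (l 541060879)) (b (l 4) (l 541029647))) (a (l 542151951) (l 542658063))))) (b (l 4) (a (b (l 4) (a (b (l 541018639) (l 541039887)) (l 4))) (l 4)))) (l 4))), by decide +kernel⟩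

def k72_A00pm_123_s3 : ∃ t, chk3 f_A00pm_123_s3 t 4056 4037 1 = true :=
  ⟨(a (b (a (b (a (b (a (l 16777368) (l 16777336)) (l 16777400)) (b (a (l 541385487) (l 541893391)) (a (l 16777352) (l 16777320)))) (a (l 16777472) (b (l 16777376) (l 16777424)))) (b (a (b (a (l 542668047) (b (l 541029135) (l 541049871))) (a (l 541902863) (l 542409743))) (b (a (b (l 4) (l 541018127)) (l 4)) (a (b (l 541039375) (l 541059855)) (b (l 4) (l 541028623))))) (a (b (a (l 16777328) (l 541643791)) (a (l 16777376) (l 16777344))) (b (a (l 542151183) (b (l 541049359) (l 541069839))) (a (l 541653263) (l 542160911)))))) (a (b (a (l 16777560) (l 16777496)) (l 16777624)) (b (a (b (l 16777400) (l 16777448)) (b (a (l 16777352) (l 16777320)) (l 16777384))) (a (l 16777520) (b (l 16777424) (l 16777472)))))) (b (a (b (l 4) (a (b (a (b (l 541017359) (l 541038863)) (l 4)) (a (b (l 541059343) (l 541079567)) (b (l 541027855) (l 541048847)))) (b (l 4) (a (b (l 4) (l 541016847)) (l 4))))) (l 4)) (a (b (a (b (a (l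 541902095) (l 542677007)) (a (l 16777336) (l 541911567))) (b (a (b (l 541038351) (l 541059087)) (b (l 4) (l 541027343))) (a (l 542418447) (b (l 541048335) (l 541069071))))) (a (b (b (l 16777352) (l 16777368)) (l 16777408)) (b (a (l 541652495) (l 542428431)) (a (l 16777352) (l 16777320))))) (b (a (b (l 4) (a (b (l 541016079) (l 541037583)) (l 4))) (l 4)) (a (b (a (b (l 541058575) (l 541078799)) (b (l 541026575) (l 541047823))) (a (l 542169615) (b (l 541068559) (l 541088527)))) (b (a (b (l 4) (l 541015567)) (l 4)) (a (b (l 541037071) (l 541058063)) (b (l 4) (l 541026063))))))))), by decide +kernel⟩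

def k73_A00pm_123_s3 : ∃ t, chk3 f_A00pm_123_s3 t 4057 2018 1 = true :=
  ⟨(l 4), by decide +kernel⟩

def k74_A00pm_123_s3 : ∃ t, chk3 f_A00pm_123_s3 t 4056 2019 1 = true :=
  ⟨(b (a (b (a (l 16780384) (b (l 16780200) (l 16777672))) (a (l 16777968) (l 16777816))) (b (a (b (a (l 16777472) (b (l 16777384) (l 16777432))) (a (l 16777568) (l 16777496))) (b (a (b (a (l 16777336) (l 541910799)) (b (l 16777352) (l 16777376))) (b (a (l 542685967) (b (l 541047567) (l 541068047))) (a (l 541920271) (l 542427407)))) (a (b (l 16777408) (l 16777456)) (b (a (l 16777360) (l 16777328)) (l 16777384))))) (a (b (l 16777624) (l 16777720)) (b (a (l 16777520) (b (l 16777432) (l 16777480))) (l 16780200))))) (a (l 16783440) (b (a (l 16777872) (b (l 16777680) (l 16777776))) (l 16783240)))), by decide +kernel⟩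

def k75_A00pm_123_s3 : ∃ t, chk3 f_A00pm_123_s3 t 4057 4038 1 = true :=
  ⟨(a (b (a (b (a (b (a (b (l 541014799) (l 541036559)) (l 4)) (a (b (l 541057551) (l 541078031)) (b (l 541025551) (l 541047055)))) (b (l 4) (a (b (l 4) (l 541014287)) (l 4)))) (a (b (a (l 542437135) (b (l 541067791) (l 541087759))) (a (l 16777336) (l 542178575))) (b (a (b (l 541036047) (l 541057295)) (b (l 4) (l 541025039))) (a (b (l 541077775) (l 16777280)) (b (l 541046543) (l 541067279)))))) (b (l 4) (a (b (l 4) (a (b (l 541013519) (l 541035535)) (l 4))) (l 4)))) (a (b (a (b (a (l 16777384) (l 16777352)) (l 16777408)) (b (a (l 542188047) (l 542694927)) (a (l 16777360) (l 16777328)))) (a (l 16777480) (b (l 16777392) (l 16777432)))) (b (a (b (a (b (l 541056783) (l 541077263)) (b (l 541024271) (l 541046031))) (a (l 542704911) (b (l 541067023) (l 541087247)))) (b (a (b (l 4) (l 541013007)) (l 4)) (a (b (l 541035023) (l 541056271)) (b (l 541001231) (l 541023759))))) (a (b (a (l 16777336) (l 542446351))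 (a (l 16777384) (l 16777352))) (b (a (b (l 541077007) (l 16777288)) (b (l 541045519) (l 541066511))) (a (l 542187535) (b (l 541086991) (l 16777296)))))))) (b (l 4) (a (b (l 4) (a (b (a (b (l 541012239) (l 541034511)) (a (l 541800207) (l 4))) (a (b (l 541055759) (l 541076751)) (b (l 541023247) (l 541045007)))) (b (l 4) (a (b (l 4) (l 541011727)) (l 4))))) (l 4)))), by decide +kernel⟩

def k76_A00pm_123_s3 : ∃ t, chk3 f_A00pm_123_s3 t 4057 4039 1 = true :=
  ⟨(a (b (a (b (a (l 16777568) (l 16777504)) (l 16777632)) (b (a (b (l 16777416) (l 16777456)) (b (a (l 16777360) (l 16777328)) (l 16777392))) (a (l 16777528) (b (l 16777440) (l 16777480))))) (a (l 16780400) (b (l 16780208) (l 16777680)))) (b (a (b (a (b (a (l 542704143) (b (l 541065999) (l 541086735))) (a (l 16777344) (l 542713871))) (b (a (b (l 541033999) (l 541055503)) (b (l 541268239) (l 541022479))) (a (b (l 541076239) (l 16777288)) (b (l 541044495) (l 541065743))))) (a (b (a (l 16777384) (l 16777352)) (l 16777416))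 (b (a (l 16777320) (b (l 541086223) (l 16777296))) (a (l 16777368) (l 16777336))))) (b (a (b (l 4) (a (b (l 541010959) (l 541033487)) (b (l 4) (l 541267727)))) (l 4)) (a (b (a (b (l 541054991) (l 541075983)) (b (l 541021967) (l 541043983))) (a (b (l 16777288) (l 16777312)) (b (l 541065487) (l 541085967)))) (b (a (b (l 4) (l 541278735)) (l 4)) (a (b (l 541032975) (l 541054479)) (b (l 541266959) (l 541021455))))))) (a (b (a (l 16777480) (b (l 16777392) (l 16777440))) (a (l 16777576) (l 16777512))) (b (a (b (a (l 16777344) (l 542713359)) (a (l 16777392) (l 16777352))) (b (a (b (l 541075727) (l 16777288)) (b (l 541043471) (l 541064975))) (a (l 16777320) (b (l 541085711) (l 16777304))))) (a (b (l 16777416) (l 16777464)) (b (a (l 16777368) (l 16777336)) (l 16777400))))))), by decide +kernel⟩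

def k77_A00pm_123_s3 : ∃ t, chk3 f_A00pm_123_s3 t 2029 1009 1 = true :=
  ⟨(b (l 4) (a (b (l 4) (b (l 4) (a (a (b (a (b (a (b (l 541278223) (l 541032463)) (b (l 4) (l 541534735))) (a (b (l 541054223) (l 541075215)) (b (l 541020943) (l 541043215)))) (b (l 4) (a (b (l 4) (l 541277711)) (l 4)))) (a (b (a (b (l 16777288) (l 16777312)) (b (l 541064719) (l 541085455))) (a (l 16777344) (b (l 16777304) (l 16777328)))) (b (a (b (l 541031951) (l 541053711)) (b (l 541533967) (l 541288719))) (a (b (l 541074959) (l 16777296)) (b (l 541042703) (l 541064207)))))) (b (l 4) (a (b (l 4) (a (b (l 541545487) (l 541031183)) (b (l 4) (l 541801743)))) (l 4)))) (l 4)))) (l 4))), by decide +kernel⟩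

def k78_A00pm_123_s3 : ∃ t, chk3 f_A00pm_123_s3 t 1015 504 1 = true :=
  ⟨(l 2), by decide +kernel⟩

def k79_A00pm_123_s3 : ∃ t, chk3 f_A00pm_123_s3 t 2028 1010 1 = true :=
  ⟨(b (a (b (b (l 16783600) (l 16788912)) (l 16789160)) (b (a (b (a (l 16777976) (l 16777832)) (l 16778104)) (b (a (b (l 16777640) (l 16777736)) (b (a (l 16777536) (b (l 16777440) (l 16777488))) (l 16780216))) (a (l 16777880) (b (l 16777688) (l 16777784))))) (a (l 16778416) (b (l 16783248) (l 16778216))))) (a (l 16789384) (b (a (l 16789184) (l 16788872)) (l 16789376)))), by decide +kernel⟩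

def k80_A00pm_123_s3 : ∃ t, chk3 f_A00pm_123_s3 t 8116 1010 1 = true :=
  ⟨(b (b (b (a (b (a (b (a (l 16777392) (l 16777360)) (l 16777416)) (b (a (l 16777328) (b (l 541085199) (l 16777304))) (a (l 16777368) (l 16777336)))) (a (l 16777488) (b (l 16777400) (l 16777440)))) (b (a (b (a (b (l 541053199) (l 541074703)) (b (l 541288207) (l 541042191))) (a (b (l 16777296) (l 16777312)) (b (l 541063951) (l 541084943)))) (b (a (b (l 4) (l 541544719)) (l 4)) (a (b (l 541030927) (l 541052943)) (a (l 542087183) (l 542606351))))) (a (b (a (l 16777352) (b (l 16777304) (l 16777328))) (a (l 16777392) (l 16777360))) (b (a (b (l 541074191) (l 16777296)) (b (l 541041679) (l 541063439))) (a (l 16777328) (b (l 16777288) (l 16777304))))))) (a (b (a (l 16777584) (l 16777512)) (l 16777640)) (b (a (b (l 16777424) (l 16777464)) (b (a (l 16777376) (l 16777336)) (l 16777400))) (a (l 16777536) (c (l 16777472) (l 16777472)))))) (b (a (l 16777792) (b (l 16780216) (l 16777696))) (a (l 16777984) (l 16777840))))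 (b (l 16783464) (l 16788960))), by decide +kernel⟩

def k81_A00pm_123_s3 : ∃ t, chk3 f_A00pm_123_s3 t 8117 1010 1 = true :=
  ⟨(b (b (b (a (b (l 4) (a (b (a (b (l 541544207) (l 541298703)) (b (l 4) (l 541800463))) (a (b (l 541052431) (l 541073935)) (b (l 541555471) (l 541041167)))) (b (l 4) (a (b (l 542325007) (l 541811983)) (l 4))))) (l 4)) (a (b (a (b (a (b (l 16777296) (l 16777320)) (b (l 541063183) (l 16777288))) (a (l 16777352) (b (l 16777304) (l 16777328)))) (b (a (b (l 541298191) (l 541052175)) (b (l 542068239) (l 541554959))) (a (b (l 541073679) (l 16777296)) (b (l 541040911) (l 541062671))))) (a (b (a (l 16777392) (l 16777360)) (l 16777424)) (b (a (l 16777328) (b (l 16777288) (l 16777312))) (a (l 16777376) (l 16777344))))) (b (a (b (a (b (l 4) (l 542324239)) (l 4)) (a (a (l 542097423) (l 542616591)) (b (l 4) (l 542067471)))) (l 4)) (a (b (a (b (l 541051663) (l 541073423)) (b (l 541554447) (l 541308687))) (a (b (l 16777296) (l 16777320)) (b (l 541062415) (l 16777288))))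 (b (a (b (l 542323471) (l 541810703)) (l 4)) (a (b (l 541565711) (l 541051407)) (b (l 542335247) (l 541822223)))))))) (b (a (b (a (l 16777496) (b (l 16777400) (l 16777448))) (a (l 16777584) (l 16777520))) (b (a (b (a (l 16777352) (c (l 16777320) (l 16777320))) (a (l 16777400) (l 16777368))) (b (a (b (l 541073167) (l 16777296)) (b (l 541308431) (l 541062159))) (a (l 16777336) (b (l 16777288) (l 16777312))))) (a (b (l 16777424) (l 16777472)) (b (a (l 16777376) (l 16777344)) (l 16777408))))) (a (b (l 16777648) (l 16777744)) (b (a (l 16777544) (c (l 16777472) (l 16777472))) (l 16780224))))) (b (b (a (l 16777896) (b (l 16777696) (l 16777792))) (l 16783264)) (l 16783576))), by decide +kernel⟩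

def k82_A00pm_123_s3 : ∃ t, chk3 f_A00pm_123_s3 t 8118 1010 1 = true :=
  ⟨(a (b (b (b (l 4) (b (l 4) (a (b (l 4) (a (b (l 4) (l 542591247)) (l 4))) (l 4)))) (b (b (a (b (a (b (l 542078479) (l 541565199)) (b (l 4) (l 542334735))) (a (b (l 541319439) (l 541072655)) (a (l 542107407) (l 542626831)))) (b (l 4) (a (b (l 542590479) (l 542077967)) (l 4)))) (a (b (a (b (l 16777304) (l 16777320)) (b (l 541061647) (l 16777288))) (a (l 16777352) (c (l 16777320) (l 16777320)))) (b (a (b (l 541564687) (l 541318927)) (b (l 542333967) (l 542089487))) (a (b (l 541072399) (l 16777304)) (b (l 541575951) (l 541061391)))))) (b (a (b (a (l 16777400) (l 16777368)) (l 16777432)) (b (a (l 16777336) (b (l 16777288) (l 16777312))) (a (l 16777376) (l 16777344)))) (a (l 16777496) (b (l 16777408) (l 16777456)))))) (b (b (b (l 16780176) (l 16777656)) (l 16777800)) (l 16783344))) (b (b (l 4) (b (b (l 4) (a (b (a (b (l 4) (a (l 541000463) (l 4))) (l 4)) (a (b (l 542345743) (l 541832719)) (b (l 4) (l 542601743))))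 (l 4))) (b (a (b (a (b (l 541318415) (l 541072143)) (b (l 542088975) (l 541575439))) (a (b (l 16777304) (l 16777328)) (b (l 541329423) (l 16777296)))) (b (a (b (a (l 540999951) (l 4)) (l 542345231)) (l 4)) (a (b (l 541832207) (l 541586703)) (b (l 542600975) (l 542088463))))) (a (b (a (l 16777360) (l 16777328)) (c (l 16777384) (l 16777384))) (b (a (b (l 541071887) (l 16777304)) (b (l 541843471) (l 541329167))) (a (l 16777336) (b (l 16777296) (l 16777312)))))))) (b (b (b (a (b (l 16777432) (l 16777480)) (b (a (l 16777384) (l 16777352)) (l 16777408))) (a (l 16777544) (c (l 16777480) (l 16777480)))) (b (l 16780232) (l 16777704))) (b (l 16777848) (l 16778056))))), by decide +kernel⟩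

def k83_A00pm_123_s3 : ∃ t, chk3 f_A00pm_123_s3 t 16238 1010 1 = true :=
  ⟨(b (b (l 4) (b (l 4) (b (a (b (l 4) (a (b (l 4) (a (l 540999439) (l 4))) (l 4))) (l 4)) (a (b (a (b (l 542613007) (l 542099983)) (b (l 4) (a (l 541011215) (l 540993039)))) (a (b (l 541586191) (l 541071631)) (b (l 542356495) (l 541842959)))) (b (l 4) (a (b (a (l 540998927) (l 4)) (l 542612495)) (l 4))))))) (b (b (b (a (b (a (b (l 16777304) (l 16777328)) (b (l 541328911) (l 16777296))) (a (l 16777360) (l 16777328))) (b (a (b (l 542099471) (l 541585935)) (b (a (l 541010703) (l 540992527)) (l 542355727))) (a (b (l 541339663) (l 16777304)) (b (l 541842703) (l 541596943))))) (a (b (c (l 16777392) (l 16777384)) (l 16777432)) (b (a (l 16777336) (b (l 16777296) (l 16777320))) (a (l 16777384) (l 16777352))))) (b (a (l 16777504) (b (l 16777416) (l 16777456))) (l 16780184))) (b (b (l 16777656) (l 16777752)) (l 16777904)))), by decide +kernel⟩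

def k84_A00pm_123_s3 : ∃ t, chk3 f_A00pm_123_s3 t 16239 1010 1 = true :=
  ⟨(b (l 4) (b (b (b (a (b (a (b (l 4) (a (l 540998415) (l 4))) (l 4)) (a (b (l 542611727) (l 542098959)) (b (a (l 540985871) (l 4)) (a (l 541010191) (l 540992015))))) (l 4)) (a (b (a (b (l 541853967) (l 541339407)) (b (l 542623759) (l 542110479))) (a (b (l 16777304) (l 16777328)) (b (l 541596687) (l 16777296)))) (b (a (b (a (l 540997903) (l 4)) (a (l 541021967) (l 541003791))) (b (l 4) (a (l 540985359) (l 4)))) (a (b (l 542366991) (l 541853455)) (b (a (l 541009935) (l 540991503)) (l 542623247)))))) (b (a (b (a (l 16777360) (l 16777328)) (l 16777392)) (b (a (a (l 16777304) (l 542144271)) (b (l 542110223) (l 541596431))) (a (l 16777344) (b (l 16777296) (l 16777320))))) (a (b (l 16777440) (l 16777480)) (b (a (l 16777384) (l 16777352)) (l 16777416))))) (b (b (a (l 16777552) (l 16777480)) (l 16780232)) (b (l 16777712) (l 16777808))))), by decide +kernel⟩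

def k85_A00pm_123_s3 : ∃ t, chk3 f_A00pm_123_s3 t 1014 1011 1 = true :=
  ⟨(a (l 16800384) (b (a (a (l 16789224) (l 16789248)) (b (a (a (l 16778392) (l 16778368)) (b (l 16783272) (l 16778240))) (a (l 16789216) (l 16788872)))) (a (l 16778832) (l 16789064)))), by decide +kernel⟩

def k86_A00pm_123_s3 : ∃ t, chk3 f_A00pm_123_s3 t 2030 2020 1 = true :=
  ⟨(l 4), by decide +kernel⟩

def k87_A00pm_123_s3 : ∃ t, chk3 f_A00pm_123_s3 t 8120 4042 1 = true :=
  ⟨(b (a (b (l 4) (a (b (l 4) (a (b (l 4) (a (l 540997391) (l 4))) (l 4))) (l 4))) (l 4)) (a (b (a (b (a (b (a (l 541021711) (l 541003535)) (l 542366479)) (b (a (l 540984847) (l 4)) (a (l 541009423) (l 540990991)))) (a (b (l 541853199) (l 16777288)) (b (l 542622735) (l 542109711)))) (b (l 4) (a (b (a (l 540996879) (l 4)) (a (l 541021199) (l 541003023))) (b (l 4) (a (l 540984335) (l 4)))))) (a (b (a (b (l 16777312) (l 16777328)) (b (l 541864463) (l 16777296))) (a (l 16777368) (l 16777328))) (b (a (b (l 542634511) (l 542121231))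 (b (a (l 541008911) (l 540990479)) (a (l 541032975) (l 541014799)))) (a (b (l 16777288) (l 16777312)) (b (l 542377743) (l 541864207)))))) (b (l 4) (a (b (a (b (l 4) (a (l 540996367) (l 4))) (l 4)) (a (b (a (l 541020943) (l 541002511)) (l 542633999)) (b (a (l 540983823) (l 4)) (a (l 541008655) (l 540989967))))) (l 4))))), by decide +kernel⟩

def k88_A00pm_123_s3 : ∃ t, chk3 f_A00pm_123_s3 t 8120 4043 1 = true :=
  ⟨(b (a (b (a (b (l 16777392) (l 16777440)) (b (a (l 16777344) (b (l 16777304) (l 16777320))) (a (l 16777392) (l 16777352)))) (a (l 16777504) (b (l 16777416) (l 16777464)))) (b (a (b (a (b (l 542120975) (l 16777288)) (b (a (l 541032463) (l 541014543)) (l 542377231))) (a (b (l 16777312) (l 16777336)) (a (l 16777296) (l 542668815)))) (b (a (b (a (l 540996111) (l 540976911)) (a (l 541020431) (l 541001999))) (b (l 4) (a (l 540983055) (l 4)))) (a (b (a (l 541043983) (l 541026319)) (l 542389007)) (b (a (l 541008143) (l 540989455)) (a (l 541032207) (l 541014031)))))) (a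 (b (a (l 16777368) (l 16777336)) (l 16777392)) (b (a (b (l 16777288) (l 16777312)) (b (l 542645519) (l 542131983))) (a (l 16777344) (b (l 16777304) (l 16777328))))))) (a (b (l 16780192) (l 16777664)) (b (a (b (l 16777440) (l 16780112)) (b (a (l 16777392) (l 16777360)) (l 16777416))) (a (l 16777560) (l 16777488))))), by decide +kernel⟩

def k89_A00pm_123_s3 : ∃ t, chk3 f_A00pm_123_s3 t 8121 2021 1 = true :=
  ⟨(b (l 4) (b (a (b (a (b (l 4) (a (b (l 4) (a (l 540995599) (l 540976399))) (l 4))) (l 4)) (a (b (a (b (a (l 541020175) (l 541001743)) (a (l 541043727) (l 541026063))) (b (a (l 540982543) (l 4)) (a (l 541007631) (l 540988943)))) (a (b (l 542388495) (l 16777288)) (b (a (l 541031951) (l 541013775)) (l 542645007)))) (b (l 4) (a (b (a (l 540995087) (l 540975631)) (a (l 541019663) (l 541001231))) (b (l 4) (a (l 540982031) (l 4))))))) (l 4)) (a (b (a (b (a (c (l 16777328) (l 16777328)) (b (l 542131727) (l 16777304))) (a (l 16777368) (l 16777336))) (b (a (b (a (l 541043471)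 (l 541025807)) (l 542388239)) (b (a (l 541007375) (l 540988431)) (a (l 541031695) (l 541013263)))) (a (b (l 16777296) (l 16777312)) (b (a (l 16777272) (l 541037583)) (l 542399759))))) (a (b (l 16777400) (l 16777440)) (b (a (l 16777344) (b (l 16777304) (l 16777328))) (a (l 16777392) (l 16777360))))) (b (a (b (a (b (l 4) (a (l 540994575) (l 540975119))) (l 4)) (a (b (a (l 541019407) (l 541000719)) (a (l 541043215) (l 541025295))) (b (a (l 540981519) (l 4)) (a (l 541006863) (l 540987919))))) (l 4)) (a (b (a (b (l 542656271) (l 16777296)) (b (a (l 541031183) (l 541013007)) (a (l 16777272) (l 541037071)))) (a (c (l 16777328) (l 16777328)) (b (l 542399503) (l 16777304)))) (b (a (b (a (l 540994063) (l 540974607)) (a (l 541019151) (l 541000207))) (b (l 4) (a (l 540981007) (l 4)))) (a (b (a (l 541042959) (l 541025039)) (l 542656015)) (b (a (l 541006607) (l 540987407)) (a (l 541030927) (l 541012495)))))))))), by decide +kernel⟩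

def k90_A00pm_123_s3 : ∃ t, chk3 f_A00pm_123_s3 t 4061 2021 1 = true :=
  ⟨(b (l 4) (a (a (b (l 4) (b (l 4) (a (b (l 4) (a (b (a (l 540967439) (l 4)) (a (l 540993551) (l 540974095))) (l 4))) (l 4)))) (l 4)) (l 4))), by decide +kernel⟩

def k91_A00pm_123_s3 : ∃ t, chk3 f_A00pm_123_s3 t 2031 1010 1 = true :=
  ⟨(l 2), by decide +kernel⟩

def k92_A00pm_123_s3 : ∃ t, chk3 f_A00pm_123_s3 t 4060 2022 1 = true :=
  ⟨(b (a (b (a (l 16777808) (b (l 16780240) (l 16777712))) (c (l 16783184) (l 16783176))) (b (a (b (a (l 16777512) (b (l 16777424) (l 16777464))) (l 16780192)) (b (a (b (a (l 16777368) (l 16777336)) (l 16777400)) (b (a (b (l 16777296) (l 16777320)) (b (a (l 16777272) (l 541037071)) (l 542399247))) (a (l 16777352) (b (l 16777304) (l 16777328))))) (a (b (l 16777448) (l 16777488)) (b (a (l 16777392) (l 16777360)) (l 16777424))))) (a (b (l 16777664) (l 16777768)) (b (a (l 16777560) (l 16777496)) (l 16780240))))) (a (l 16783504) (b (a (l 16777912) (b (l 16777720) (l 16777816)))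 (l 16783288)))), by decide +kernel⟩

def k93_A00pm_123_s3 : ∃ t, chk3 f_A00pm_123_s3 t 8122 8088 1 = true :=
  ⟨(a (b (a (b (a (b (a (l 541018639) (l 540999951)) (a (l 541042703) (l 541024783))) (b (a (l 540980495) (l 4)) (a (l 541006095) (l 540986895)))) (a (b (a (l 16777280) (l 16777264)) (l 16777296)) (b (a (l 541030671) (l 541012239)) (a (l 16777272) (l 541036559))))) (b (a (b (l 4) (a (l 540966927) (l 4))) (l 4)) (a (b (a (l 540993295) (l 540973583)) (a (l 541018383) (l 540999439))) (b (l 4) (a (l 540979983) (l 4)))))) (a (b (a (c (l 16777328) (l 16777328)) (b (l 542667279) (l 16777304))) (a (l 16777376) (l 16777344))) (b (a (b (a (l 541042703) (l 541024527)) (a (l 16777280) (l 16777264))) (b (a (l 541005583) (l 540986383)) (a (l 541030415) (l 541011983)))) (a (b (l 16777296) (l 16777320)) (b (a (l 16777272) (l 541036303)) (l 542667023)))))) (b (l 4) (a (b (a (b (a (l 540966415) (l 4)) (a (l 540992783) (l 540972815))) (l 4)) (a (b (a (l 541018127) (l 540998927)) (a (l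 16777264) (l 541024015))) (b (a (l 540979471) (l 4)) (a (l 541005327) (l 540985871))))) (b (l 4) (a (b (l 4) (a (l 540965903) (l 4))) (l 4)))))), by decide +kernel⟩

def k94_A00pm_123_s3 : ∃ t, chk3 f_A00pm_123_s3 t 8122 8089 1 = true :=
  ⟨(a (b (a (b (l 16777400) (l 16777448)) (b (a (l 16777352) (b (l 16777312) (l 16777328))) (a (l 16777400) (l 16777360)))) (a (l 16777520) (b (l 16777424) (l 16777472)))) (b (a (b (a (b (a (l 16777288) (l 16777272)) (l 16777296)) (b (a (l 541030159) (l 541011471)) (a (l 16777272) (l 541036047)))) (a (c (l 16777328) (l 16777328)) (b (a (l 16777296) (l 16777280)) (l 16777312)))) (b (a (b (a (l 540992271) (l 540972303)) (a (l 541017615) (l 540998671))) (b (l 4) (a (l 540978959) (l 4)))) (a (b (a (l 16777264) (l 541023759)) (a (l 16777288) (l 16777272))) (b (a (l 541004815) (l 540985359)) (a (l 541029903) (l 541011215)))))) (a (b (a (l 16777376) (l 16777344)) (l 16777408)) (b (a (b (l 16777296) (l 16777320)) (b (a (l 16777272) (l 541036047))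 (c (l 16777288) (l 16777288)))) (a (l 16777352) (b (l 16777312) (l 16777336))))))), by decide +kernel⟩

def k95_A00pm_123_s3 : ∃ t, chk3 f_A00pm_123_s3 t 8123 4044 1 = true :=
  ⟨(b (l 4) (a (b (a (b (l 4) (a (b (a (l 540965135) (l 4)) (a (l 540991759) (l 540971791))) (l 4))) (l 4)) (a (b (a (b (a (l 541017359) (l 540998159)) (a (l 16777264) (l 541023503))) (b (a (l 540978447) (l 4)) (a (l 541004559) (l 540984847)))) (a (b (a (l 16777288) (l 16777272)) (l 16777304)) (b (a (l 541029647) (l 541010703)) (a (l 16777280) (l 541035791))))) (b (a (b (l 4) (a (l 540964623) (l 4))) (l 4)) (a (b (a (l 540991247) (l 540971279)) (a (l 541017103) (l 540997903))) (b (l 4) (a (l 540977935) (l 541225743))))))) (l 4))), by decide +kernel⟩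

def k96_A00pm_123_s3 : ∃ t, chk3 f_A00pm_123_s3 t 8122 4045 1 = true :=
  ⟨(b (a (b (l 16780200) (l 16777672)) (b (a (b (l 16777448) (l 16777496)) (b (b (l 16777368) (l 16777392)) (l 16777424))) (a (l 16777568) (l 16777496)))) (a (l 16777816) (b (l 16780248) (l 16777720)))), by decide +kernel⟩

def k97_A00pm_123_s3 : ∃ t, chk3 f_A00pm_123_s3 t 8123 4045 1 = true :=
  ⟨(b (a (b (a (b (a (l 16777336) (b (c (l 16777288) (l 16777288)) (l 16777312))) (a (l 16777376) (l 16777344))) (b (a (b (a (l 16777264) (l 541023247)) (a (l 16777288) (l 16777272))) (b (a (l 541004047) (l 540984335)) (a (l 541029391) (l 541010447)))) (a (b (l 16777304) (l 16777320)) (b (a (l 16777280) (l 541035535)) (c (l 16777288) (l 16777288)))))) (a (b (l 16777408) (l 16777448)) (b (a (l 16777360) (b (l 16777312) (l 16777336))) (b (l 16777376) (l 16777392))))) (b (a (b (a (b (a (l 541232399) (l 4)) (a (l 540990991) (l 540970767))) (l 4)) (a (b (a (l 541016591) (l 540997391)) (a (l 16777264) (l 541022991)))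 (b (a (l 540977423) (l 541225231)) (a (l 541003791) (l 540984079))))) (b (l 4) (a (b (l 4) (a (l 541231887) (l 4))) (l 4)))) (a (b (a (b (a (l 16777288) (l 16777272)) (l 16777304)) (b (a (l 541029135) (l 541010191)) (a (l 16777280) (l 541035279)))) (a (l 16777336) (b (l 16777296) (l 16777312)))) (b (a (b (a (l 540990479) (l 541238543)) (a (l 541016335) (l 540996879))) (b (l 4) (a (l 540976911) (l 541493007)))) (a (b (a (l 16777272) (l 541022735)) (a (l 16777288) (l 16777272))) (b (a (l 541003535) (l 540983567)) (a (l 541028879) (l 541009935)))))))) (a (b (a (l 16777520) (b (l 16777432) (l 16777472))) (l 16780200)) (b (a (b (a (l 16777376) (l 16777344)) (l 16777408)) (b (a (b (l 16777304) (l 16777328)) (b (a (l 16777280) (l 541035023)) (l 16777296))) (a (l 16777360) (b (l 16777312) (l 16777336))))) (a (b (l 16777456) (l 16777504)) (b (a (l 16777400) (l 16777368)) (l 16777432)))))), by decide +kernel⟩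

def k98_A00pm_123_s3 : ∃ t, chk3 f_A00pm_123_s3 t 2030 2023 1 = true :=
  ⟨(a (a (l 16789160) (b (a (l 16788776) (l 16778280)) (l 16789112))) (a (b (b (l 16783192) (l 16778152)) (a (l 16788912) (l 16788728))) (b (b (a (b (l 16777680) (l 16777776)) (b (a (l 16777568) (l 16777504)) (l 16777632))) (a (l 16777928) (b (l 16777728) (l 16777824)))) (b (l 16783296) (l 16778264))))), by decide +kernel⟩

def k99_A00pm_123_s3 : ∃ t, chk3 f_A00pm_123_s3 t 2031 2022 1 = true :=
  ⟨(a (b (l 4) (a (b (a (b (l 4) (a (b (l 4) (a (b (a (l 541231375) (l 4)) (a (l 540990223) (l 541238031))) (l 4))) (l 4))) (l 4)) (a (b (a (b (a (b (a (l 541016079) (l 540996623)) (a (l 16777272) (l 541022479))) (b (a (l 541244943) (l 541492495)) (a (l 541003023) (l 540983055)))) (a (b (a (l 16777288) (l 16777272)) (l 16777304)) (b (a (l 541028623) (l 541009423)) (a (l 16777280) (l 16777264))))) (b (a (b (l 4) (a (l 541499151) (l 4))) (l 4)) (a (b (a (l 540989711) (l 541237519)) (a (l 541015823) (l 540996111)))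 (b (l 4) (a (l 541244431) (l 541760271)))))) (a (b (a (l 16777336) (b (l 16777296) (l 16777312))) (a (l 16777384) (l 16777352))) (b (a (b (a (l 16777272) (l 541022223)) (a (l 16777288) (l 16777272))) (b (a (l 541002767) (l 541251087)) (a (l 541028367) (l 541009167)))) (a (b (l 16777304) (l 16777328)) (b (a (l 16777280) (l 16777264)) (l 16777296)))))) (b (l 4) (a (b (a (b (a (l 541498639) (l 4)) (a (l 540989199) (l 541505551))) (b (l 4) (a (l 541752591) (l 4)))) (a (b (a (l 541015567) (l 540995855)) (a (l 16777272) (l 541021967))) (b (a (l 541243919) (l 541759503)) (a (l 541002255) (l 541250575))))) (b (l 4) (a (b (l 4) (a (l 541766415) (l 4))) (l 4))))))) (l 4))) (l 4)), by decide +kernel⟩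

def k100_A00pm_123_s3 : ∃ t, chk3 f_A00pm_123_s3 t 8124 4046 1 = true :=
  ⟨(b (a (b (a (b (l 16777408) (l 16777456)) (b (a (l 16777360) (b (l 16777320) (l 16777336))) (a (l 16777408) (l 16777376)))) (a (l 16777528) (b (l 16777432) (l 16777480)))) (b (a (b (a (b (b (l 16777280) (l 16777288)) (l 16777304)) (b (a (l 541028111) (l 541008911)) (a (l 16777280) (l 16777264)))) (a (l 16777336) (b (l 16777296) (l 16777320)))) (b (a (b (a (l 541257231) (l 541505039)) (a (l 541015311) (l 540995343))) (b (a (l 542020367) (l 4)) (a (l 541511695) (l 541758991)))) (a (b (a (l 16777272) (l 541021711)) (b (l 16777280) (l 16777288))) (b (a (l 541001999) (l 541250063)) (a (l 541027855) (l 541008399)))))) (a (b (a (l 16777384) (l 16777352)) (l 16777416)) (b (a (b (l 16777304) (l 16777328)) (b (a (l 16777280) (l 16777264)) (l 16777296))) (a (l 16777360) (b (l 16777320) (l 16777344))))))) (a (b (l 16780208) (l 16777680)) (b (a (b (l 16777456) (l 16777504)) (b (a (l 16777408) (l 16777376)) (l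 16777440))) (a (l 16777576) (l 16777504))))), by decide +kernel⟩

def k101_A00pm_123_s3 : ∃ t, chk3 f_A00pm_123_s3 t 8125 8092 1 = true :=
  ⟨(a (b (a (b (l 4) (a (b (a (l 541765903) (l 4)) (a (l 541256719) (l 541772815))) (b (l 4) (a (l 542019855) (l 4))))) (l 4)) (a (b (a (b (a (l 541015055) (l 541263631)) (a (l 16777272) (l 541021455))) (b (a (l 541511439) (l 542026767)) (a (l 541001743) (l 541518095)))) (a (b (b (l 16777280) (l 16777296)) (l 16777312)) (b (a (l 541027599) (l 541008143)) (a (l 16777288) (l 16777272))))) (b (a (b (l 4) (a (l 541765391) (l 4))) (l 4)) (a (b (a (l 541256463) (l 541772303)) (a (l 541014799) (l 541263119))) (b (a (l 542287631) (l 4)) (a (l 541779215) (l 542026255))))))) (l 4)), by decide +kernel⟩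

def k102_A00pm_123_s3 : ∃ t, chk3 f_A00pm_123_s3 t 8125 8093 1 = true :=
  ⟨(a (b (a (b (a (l 16777344) (b (l 16777296) (l 16777320))) (a (l 16777384) (l 16777352))) (b (a (b (a (l 16777272) (l 541021199)) (a (l 16777296) (l 16777280))) (b (a (l 541269775) (l 541517583)) (a (l 541027599) (l 541007887)))) (a (b (l 16777312) (l 16777328)) (b (a (l 16777288) (l 16777272)) (l 16777296))))) (a (b (l 16777416) (l 16777464)) (b (a (l 16777368) (b (l 16777320) (l 16777344))) (a (l 16777408) (l 16777376))))) (b (a (b (a (b (a (l 542033423) (l 4)) (a (l 541524495) (l 541771791))) (b (l 4) (a (l 542286863) (l 4)))) (a (b (a (l 541014287) (l 541262863)) (a (l 16777272) (l 541020943))) (b (a (l 541778703) (l 542294031)) (a (l 541269519) (l 541785615))))) (b (l 4) (a (b (l 4) (a (l 542032655) (l 4))) (l 4)))) (a (b (a (b (a (l 16777296) (l 16777280)) (l 16777312)) (b (a (l 541027343) (l 541275919)) (a (l 16777288) (l 16777272)))) (a (l 16777344) (b (l 16777304) (l 16777320)))) (b (a (b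 (a (l 541523983) (l 542039823)) (a (l 541014031) (l 541530895))) (b (a (l 542554639) (l 4)) (a (l 541778447) (l 542293519)))) (a (b (a (l 16777280) (l 541020687)) (a (l 16777296) (l 16777280))) (b (a (l 541269007) (l 541785359)) (a (l 541027087) (l 541275663)))))))), by decide +kernel⟩

def k103_A00pm_123_s3 : ∃ t, chk3 f_A00pm_123_s3 t 4062 4047 1 = true :=
  ⟨(a (b (a (l 16777832) (b (l 16777640) (l 16777736))) (l 16783200)) (b (a (b (a (l 16777528) (b (l 16777440) (l 16777488))) (l 16780208)) (b (a (b (a (l 16777392) (l 16777352)) (l 16777416)) (b (a (b (l 16777312) (l 16777336)) (b (a (l 16777288) (l 16777272)) (l 16777304))) (a (l 16777368) (c (l 16777336) (l 16777336))))) (a (c (l 16780112) (l 16780104)) (b (a (l 16777408) (l 16777376)) (l 16777440))))) (a (b (l 16777688) (l 16777784)) (b (a (l 16777584) (l 16777512)) (l 16777640))))), by decide +kernel⟩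

def k104_A00pm_123_s3 : ∃ t, chk3 f_A00pm_123_s3 t 4063 4046 1 = true :=
  ⟨(a (b (l 4) (a (b (l 4) (a (b (l 4) (a (b (a (l 542300687) (b (l 4) (l 540952591))) (a (l 541792271) (l 542039311))) (b (l 4) (a (l 542554127) (l 4))))) (l 4))) (l 4))) (l 4)), by decide +kernel⟩

def k105_A00pm_123_s3 : ∃ t, chk3 f_A00pm_123_s3 t 8126 8094 1 = true :=
  ⟨(a (b (a (b (a (b (a (l 541282319) (l 541530383)) (a (l 16777280) (l 541020431))) (b (a (l 542046223) (l 542561295)) (a (l 541537295) (l 541784847)))) (a (b (a (l 16777296) (l 16777280)) (l 16777312)) (b (a (l 16777264) (l 541275407)) (a (l 16777288) (l 16777272))))) (b (a (b (l 4) (a (l 542300175) (b (l 4) (l 540952079)))) (l 4)) (a (b (a (l 541791759) (l 542307343)) (a (l 541282063) (l 541798671))) (b (a (b (l 4) (l 540959247)) (l 4)) (a (l 542045967) (l 542560783)))))) (a (b (a (l 16777344) (b (l 16777304) (l 16777328))) (a (l 16777392) (l 16777360))) (b (a (b (a (l 16777280) (l 541288719)) (a (l 16777296) (l 16777280))) (b (a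 (l 541536783) (l 542052879)) (a (l 16777272) (l 541543695)))) (a (b (l 16777312) (l 16777336)) (b (a (l 16777288) (l 16777272)) (l 16777304)))))) (b (l 4) (a (b (a (b (a (l 542567951) (b (l 4) (l 540951823))) (a (l 541791247) (l 542306831))) (b (l 4) (a (b (l 4) (l 540958991)) (l 4)))) (a (b (a (l 541281807) (l 541798159)) (a (l 16777280) (l 541288463))) (b (a (l 542313743) (b (l 540951567) (l 540965903))) (a (l 541805071) (l 542052367))))) (b (l 4) (a (b (l 4) (a (l 542567439) (b (l 4) (l 540951311)))) (l 4)))))), by decide +kernel⟩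

def k106_A00pm_123_s3 : ∃ t, chk3 f_A00pm_123_s3 t 8126 8095 1 = true :=
  ⟨(a (b (a (b (l 16777416) (l 16777464)) (b (a (l 16777368) (c (l 16777336) (l 16777336))) (a (l 16777416) (l 16777384)))) (a (l 16777536) (b (l 16777440) (l 16777488)))) (b (a (b (a (b (c (l 16777296) (l 16777296)) (l 16777312)) (b (a (l 16777272) (l 541543439)) (a (l 16777288) (l 16777272)))) (a (l 16777344) (b (l 16777304) (l 16777328)))) (b (a (b (a (l 542059535) (l 542574607)) (a (l 541550095) (l 541797903))) (b (a (b (l 4) (l 540958479)) (l 4)) (a (l 542313487) (b (l 540951055) (l 540965647))))) (a (b (a (l 16777280) (l 541288207)) (c (l 16777296) (l 16777296))) (b (a (l 541804815) (l 542320399)) (a (l 16777272) (l 541811471)))))) (a (b (a (l 16777392) (l 16777360)) (l 16777424)) (b (a (b (l 16777312) (l 16777336)) (b (a (l 16777288) (l 16777272)) (l 16777304))) (a (l 16777368) (c (l 16777336) (l 16777336))))))), by decide +kernel⟩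

def k107_A00pm_123_s3 : ∃ t, chk3 f_A00pm_123_s3 t 8127 4047 1 = true :=
  ⟨(b (l 4) (a (b (a (b (l 4) (a (b (a (b (l 540958223) (l 540972815)) (b (l 4) (l 540950799))) (a (l 542059023) (l 542574351))) (b (l 4) (a (b (l 4) (l 540957967)) (l 4))))) (l 4)) (a (b (a (b (a (l 541549839) (l 542065935)) (a (l 16777280) (l 541556495))) (b (a (l 542581263) (b (l 540950543) (l 540965135))) (a (l 541804559) (l 542320143)))) (a (b (c (l 16777296) (l 16777296)) (l 16777320)) (b (a (l 16777272) (l 541811215)) (a (l 16777296) (l 16777280))))) (b (a (b (a (b (l 4) (l 540943119)) (l 4)) (a (b (l 540957711) (l 540972303)) (b (l 4) (l 540950287)))) (l 4)) (a (b (a (l 542327055) (b (l 540965135) (l 540979471))) (a (l 541818127) (l 542065679))) (b (a (b (l 540942863) (l 540957711)) (l 4)) (a (l 542581007) (b (l 540950031) (l 540964879)))))))) (b (l 4) (a (b (l 4) (a (b (l 4) (a (b (l 4) (l 540942607)) (l 4))) (l 4))) (l 4))))), by decide +kernel⟩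

def k108_A00pm_123_s3 : ∃ t, chk3 f_A00pm_123_s3 t 506 253 1 = true :=
  ⟨(l 16825744), by decide +kernel⟩

def k109_A00pm_123_s3 : ∃ t, chk3 f_A00pm_123_s3 t 1014 506 1 = true :=
  ⟨(b (l 16802600) (l 16785336)), by decide +kernel⟩

def k110_A00pm_123_s3 : ∃ t, chk3 f_A00pm_123_s3 t 2030 1012 1 = true :=
  ⟨(b (a (l 16778456) (b (b (l 16788984) (l 16789032)) (l 16778144))) (l 16779472)), by decide +kernel⟩

def k111_A00pm_123_s3 : ∃ t, chk3 f_A00pm_123_s3 t 4062 2024 1 = true :=
  ⟨(b (a (b (l 16778160) (l 16788728)) (b (a (l 16777936) (c (l 16783032) (l 16783024))) (l 16783304))) (a (l 16789008) (b (l 16783392) (l 16788880)))), by decide +kernel⟩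

def k112_A00pm_123_s3 : ∃ t, chk3 f_A00pm_123_s3 t 8126 4048 1 = true :=
  ⟨(b (a (b (l 16780216) (l 16777688)) (b (a (c (l 16780112) (l 16780112)) (b (a (l 16777416) (l 16777384)) (l 16777448))) (a (l 16777584) (l 16777512)))) (a (l 16777840) (b (l 16777648) (l 16777744)))), by decide +kernel⟩

def k113_A00pm_123_s3 : ∃ t, chk3 f_A00pm_123_s3 t 8127 8096 1 = true :=
  ⟨(a (b (a (b (a (l 16777352) (b (l 16777304) (l 16777328))) (a (l 16777392) (l 16777360))) (b (a (b (a (l 16777280) (l 541556239)) (c (l 16777296) (l 16777296))) (b (a (l 542072591) (l 542588175)) (a (l 16777272) (l 541810959)))) (a (b (l 16777320) (l 16777336)) (b (a (l 16777296) (l 16777280)) (l 16777304))))) (a (b (l 16777424) (l 16777472)) (b (a (l 16777376) (l 16777344)) (a (l 16777416) (l 16777384))))) (b (a (b (a (b (a (b (l 540957455) (l 540972047)) (b (l 4) (l 540949775))) (a (l 542326799) (b (l 540964623) (l 540979215)))) (b (l 4) (a (b (l 540942351) (l 540957199)) (l 4)))) (a (b (a (l 541817871)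 (l 542333711)) (a (l 16777280) (l 541824527))) (b (a (b (l 540971791) (l 540986127)) (b (l 540949775) (l 540964367))) (a (l 542072335) (l 542587663))))) (b (l 4) (a (b (a (b (l 4) (l 540942095)) (l 4)) (a (b (l 540956943) (l 540971535)) (b (l 4) (l 540949519)))) (l 4)))) (a (b (a (b (c (l 16777296) (l 16777296)) (l 16777320)) (b (a (l 16777272) (l 542079247)) (a (l 16777296) (l 16777280)))) (a (l 16777352) (b (l 16777312) (l 16777328)))) (b (a (b (a (l 542594831) (b (l 540964367) (l 540978703))) (a (l 541817615) (l 542333455))) (b (a (b (l 540941839) (l 540956687)) (l 4)) (a (b (l 540971535) (l 540985871)) (b (l 540949263) (l 540964111))))) (a (b (a (l 16777288) (l 16777272)) (l 16777296)) (b (a (l 542340367) (b (l 540978703) (l 540992783))) (a (l 16777272) (l 542078991)))))))), by decide +kernel⟩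

def k114_A00pm_123_s3 : ∃ t, chk3 f_A00pm_123_s3 t 8127 8097 1 = true :=
  ⟨(a (b (a (l 16777536) (b (l 16777448) (l 16777496))) (l 16780224)) (b (a (b (a (l 16777400) (l 16777360)) (l 16777424)) (b (a (b (l 16777320) (l 16777344)) (b (a (l 16777296) (l 16777280)) (l 16777312))) (a (l 16777376) (l 16777344)))) (a (l 16780120) (b (a (l 16777424) (l 16777384)) (l 16777448))))), by decide +kernel⟩

def k115_A00pm_123_s3 : ∃ t, chk3 f_A00pm_123_s3 t 4063 4049 1 = true :=
  ⟨(a (b (l 16783208) (l 16783320)) (b (a (b (l 16777696) (l 16777792)) (b (a (l 16777592) (l 16777520)) (l 16777648))) (a (l 16777944) (l 16783040)))), by decide +kernel⟩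

def k116_A00pm_123_s3 : ∃ t, chk3 f_A00pm_123_s3 t 2031 2025 1 = true :=
  ⟨(a (l 16788776) (b (a (l 16788864) (b (l 16783320) (c (l 16788648) (l 16788632)))) (l 16788936))), by decide +kernel⟩

def k117_A00pm_123_s3 : ∃ t, chk3 f_A00pm_123_s3 t 1015 1013 1 = true :=
  ⟨(a (l 16781968) (l 16790280)), by decide +kernel⟩

def k118_A00pm_123_s3 : ∃ t, chk3 f_A00pm_123_s3 t 507 507 1 = true :=
  ⟨(l 16809664), by decide +kernel⟩

def k119_A00pm_123_s3 : ∃ t, chk3 f_A00pm_123_s3 t 126 127 1 = true :=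
  ⟨(b (a (l 16913168) (a (l 16897040) (l 16844128))) (a (l 17028832) (b (l 16906944) (l 16978520)))), by decide +kernel⟩

def k120_A00pm_123_s3 : ∃ t, chk3 f_A00pm_123_s3 t 254 252 1 = true :=
  ⟨(l 4), by decide +kernel⟩

def k121_A00pm_123_s3 : ∃ t, chk3 f_A00pm_123_s3 t 16256 4048 1 = true :=
  ⟨(b (b (l 4) (a (b (a (b (l 4) (a (b (l 4) (l 540941583)) (l 4))) (l 4)) (a (b (a (b (l 540956687) (l 540971279)) (b (l 4) (l 540949007))) (a (l 542594575) (b (l 540963855) (l 540978447)))) (b (l 4) (a (b (l 540941327) (l 540956431)) (l 4))))) (l 4))) (b (a (b (a (b (a (l 542085903) (l 542601487)) (a (l 16777288) (l 16777272))) (b (a (b (l 540971279) (l 540985615)) (b (l 540948751) (l 540963855))) (a (l 542340111) (b (l 540978447) (l 540992527))))) (a (b (l 16777296) (l 16777320)) (b (a (l 16777272) (l 542347023)) (a (l 16777296) (l 16777280))))) (b (a (b (a (b (l 4) (l 540941071)) (l 4)) (a (b (l 540956175) (l 540971023)) (b (l 4) (l 540948495)))) (l 4)) (a (b (a (b (l 540985359)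 (l 540999695)) (b (l 540963599) (l 540978191))) (a (l 542085647) (l 542601231))) (b (a (b (l 540940815) (l 540955919)) (l 4)) (a (b (l 540970767) (l 540985359)) (b (l 540948239) (l 540963343))))))) (a (b (a (l 16777352) (b (l 16777312) (l 16777336))) (a (l 16777400) (l 16777368))) (b (a (b (a (l 16777288) (l 16777272)) (l 16777296)) (b (a (l 542608399) (b (l 540978191) (l 540992527))) (a (l 16777272) (l 542347023)))) (a (b (l 16777320) (l 16777344)) (b (a (l 16777296) (l 16777280)) (l 16777312))))))), by decide +kernel⟩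

def k122_A00pm_123_s3 : ∃ t, chk3 f_A00pm_123_s3 t 16257 4048 1 = true :=
  ⟨(b (l 4) (b (a (b (l 4) (a (b (l 4) (a (b (l 4) (l 540940559)) (l 4))) (l 4))) (l 4)) (a (b (a (b (a (b (l 540955919) (l 540970767)) (b (l 4) (l 540947983))) (a (b (l 540985359) (l 540999439)) (b (l 540963343) (l 540977935)))) (b (l 4) (a (b (l 540940303) (l 540955663)) (b (l 4) (l 540932367))))) (a (b (a (l 542353935) (b (l 540992271) (l 16777256))) (a (l 16777288) (l 16777272))) (b (a (b (l 540970511) (l 540985103)) (b (l 540947983) (l 540963087))) (a (l 542608143) (b (l 540977935) (l 540992271)))))) (b (l 4) (a (b (a (b (l 4) (l 540940047)) (l 4)) (a (b (l 540955407) (l 540970511)) (b (l 540932111) (l 540947727)))) (l 4)))))), by decide +kernel⟩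

def k123_A00pm_123_s3 : ∃ t, chk3 f_A00pm_123_s3 t 8129 4048 1 = true :=
  ⟨(l 4), by decide +kernel⟩

def k124_A00pm_123_s3 : ∃ t, chk3 f_A00pm_123_s3 t 8128 4049 1 = true :=
  ⟨(b (a (b (a (b (l 16777424) (l 16777472)) (b (a (l 16777376) (l 16777344)) (a (l 16777424) (l 16777392)))) (a (l 16777544) (b (l 16777448) (l 16777496)))) (b (a (b (a (b (l 16777304) (l 16777320)) (b (a (l 16777280) (l 542615055)) (a (l 16777296) (l 16777280)))) (a (l 16777352) (b (l 16777312) (l 16777336)))) (b (a (b (a (b (l 540985103) (l 540999439)) (b (l 540962831) (l 540977679))) (a (l 542353679) (b (l 540992271) (l 16777256)))) (b (a (b (l 540939791) (l 540955151)) (b (l 4) (l 541200399))) (a (b (l 540970255) (l 540984847)) (b (l 540947471) (l 540962831))))) (a (b (a (l 16777288) (l 16777272)) (l 16777304)) (b (a (b (l 540999439) (l 16777264)) (b (l 540977679) (l 540992271))) (a (l 16777280) (l 542615055)))))) (a (b (a (l 16777400) (l 16777368)) (l 16777432)) (b (a (b (l 16777320) (l 16777344))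 (b (a (l 16777296) (l 16777280)) (l 16777312))) (a (l 16777376) (l 16777344)))))) (a (b (l 16780224) (l 16777704)) (b (a (l 16780120) (b (a (l 16777424) (l 16777392)) (l 16777456))) (a (l 16777592) (l 16777520))))), by decide +kernel⟩

def k125_A00pm_123_s3 : ∃ t, chk3 f_A00pm_123_s3 t 8129 8098 1 = true :=
  ⟨(a (b (a (b (a (b (l 4) (a (b (l 4) (l 540939535)) (l 4))) (l 4)) (a (b (a (b (l 540955151) (l 540970255)) (b (l 541200143) (l 540947215))) (a (b (l 540984847) (l 540999183)) (b (l 540962575) (l 540977423)))) (b (l 4) (a (b (l 541207823) (l 540954895)) (b (l 4) (l 541199887)))))) (l 4)) (a (b (a (b (a (l 542621967) (b (l 540992015) (l 16777256))) (a (l 16777288) (l 16777272))) (b (a (b (l 540969999) (l 540984847)) (b (l 540947215) (l 540962575))) (a (b (l 16777248) (l 16777264)) (b (l 540977423) (l 540992015))))) (a (b (l 16777304) (l 16777328)) (b (a (l 16777280) (b (l 16777256) (l 16777272))) (a (l 16777304) (l 16777288))))) (b (a (b (a (b (l 4) (l 541207567)) (l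 4)) (a (b (l 540954639) (l 540969999)) (b (l 541199631) (l 540946959)))) (l 4)) (a (b (a (b (l 540984591) (l 16777256)) (b (l 540962319) (l 540977167))) (a (l 16777272) (b (l 540992015) (l 16777256)))) (b (a (b (l 541207311) (l 540954639)) (b (l 4) (l 541199375))) (a (b (l 540969743) (l 540984591)) (b (l 541215247) (l 540962063)))))))) (b (l 4) (a (b (l 4) (a (b (l 4) (a (b (l 4) (l 541207311)) (l 4))) (l 4))) (l 4)))), by decide +kernel⟩

def k126_A00pm_123_s3 : ∃ t, chk3 f_A00pm_123_s3 t 8129 8099 1 = true :=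
  ⟨(a (b (a (b (a (l 16777360) (b (l 16777312) (l 16777336))) (a (l 16777400) (l 16777368))) (b (a (b (a (l 16777288) (l 16777272)) (l 16777304)) (b (a (b (l 16777256) (l 16777264)) (b (l 540977167) (l 540991759))) (a (l 16777280) (b (l 16777256) (l 16777272))))) (a (b (l 16777328) (l 16777344)) (b (a (l 16777304) (l 16777288)) (l 16777312))))) (a (b (l 16777432) (l 16777480)) (b (a (l 16777384) (l 16777352)) (a (l 16777424) (l 16777392))))) (b (a (b (a (b (a (b (l 540954383) (l 540969487)) (b (l 541467663) (l 541214991))) (a (b (l 540984591) (l 16777256)) (b (l 540962063) (l 540977167)))) (b (l 4) (a (b (l 541207055) (l 540954127)) (b (l 4) (l 541467407))))) (a (b (a (l 16777272) (b (l 540991759) (l 16777256))) (a (l 16777288) (l 16777272))) (b (a (b (l 540969487) (l 540984335)) (b (l 541214735) (l 540961807))) (a (b (l 16777256) (l 16777264)) (b (l 540976911) (l 540991759)))))) (b (l 4) (a (b (a (a (l 542008079) (l 542264335)) (l 4)) (a (b (l 541222415) (l 540969487)) (b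 (l 541467151) (l 541214735)))) (l 4)))) (a (b (a (b (l 16777304) (l 16777328)) (b (a (l 16777280) (b (l 16777256) (l 16777272))) (a (l 16777304) (l 16777288)))) (a (l 16777360) (b (l 16777312) (l 16777336)))) (b (a (b (a (b (l 540984335) (l 16777256)) (b (l 540961807) (l 540976911))) (a (l 16777272) (b (l 540991503) (l 16777256)))) (b (a (b (l 541475087) (l 541222415)) (a (l 542268175) (l 4))) (a (b (l 540969231) (l 540984335)) (b (l 541214479) (l 540961551))))) (a (b (a (l 16777288) (l 16777272)) (l 16777304)) (b (a (b (l 16777256) (l 16777264)) (b (l 540976655) (l 540991503))) (a (l 16777280) (b (l 16777264) (l 16777272))))))))), by decide +kernel⟩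

def k127_A00pm_123_s3 : ∃ t, chk3 f_A00pm_123_s3 t 4065 2024 1 = true :=
  ⟨(b (l 4) (a (a (a (b (l 4) (b (l 4) (b (a (b (l 4) (a (b (l 4) (l 541474831)) (l 4))) (l 4)) (a (b (a (b (l 541222159) (l 540969231)) (a (l 542015503) (l 542271759))) (a (b (l 540984079) (l 16777256)) (b (l 541229839) (l 540976655)))) (b (a (b (l 4) (l 541726735)) (l 4)) (a (b (l 541474575) (l 541221903)) (b (l 4) (l 541734927)))))))) (l 4)) (l 4)) (l 4))), by decide +kernel⟩

def k128_A00pm_123_s3 : ∃ t, chk3 f_A00pm_123_s3 t 4064 2025 1 = true :=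
  ⟨(b (a (b (a (l 16777848) (b (l 16777656) (l 16777752))) (l 16783224)) (b (a (b (a (l 16777552) (b (l 16777456) (l 16777504))) (l 16780232)) (b (a (b (a (l 16777408) (l 16777368)) (l 16777432)) (b (a (b (l 16777328) (l 16777352)) (b (a (l 16777304) (l 16777288)) (l 16777320))) (a (l 16777384) (l 16777352)))) (a (l 16780128) (b (a (l 16777432) (l 16777392)) (l 16777456))))) (a (b (l 16777704) (l 16783048)) (b (a (l 16777600) (l 16777528)) (l 16777656))))) (a (a (l 16788744) (b (l 16778112) (l 16778248))) (b (a (l 16777960) (l 16783048)) (l 16783208)))), by decide +kernel⟩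

def k129_A00pm_123_s3 : ∃ t, chk3 f_A00pm_123_s3 t 16260 8100 1 = true :=
  ⟨(b (a (b (a (b (a (l 16777272) (b (l 540991503) (l 16777264))) (a (l 16777296) (l 16777280))) (b (a (b (l 540968975) (l 540984079)) (b (l 541482511) (l 541229583))) (a (b (l 16777256) (l 16777264)) (b (l 540976399) (l 540991503))))) (a (b (l 16777304) (l 16777328)) (b (a (l 16777280) (b (l 16777264) (l 16777272))) (a (l 16777304) (l 16777288))))) (b (a (b (a (b (l 541726479) (l 541474319)) (l 4)) (a (b (l 541221903) (l 540968975)) (b (l 541734671) (l 541482255)))) (b (l 4) (a (b (l 4) (l 541994767)) (l 4)))) (a (b (a (b (l 540984079) (l 16777256)) (b (l 541229583) (l 540976399))) (a (l 16777272) (b (l 540991503) (l 16777264)))) (b (a (b (l 541474063) (l 541490191)) (b (l 4) (l 541734415))) (a (b (l 541237263) (l 540983823)) (b (l 541481999) (l 541229327))))))) (a (b (a (l 16777360) (b (l 16777320) (l 16777336))) (a (l 16777408) (l 16777376))) (b (a (b (a (l 16777296) (l 16777280)) (l 16777304))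 (b (a (b (l 16777256) (l 16777264)) (b (l 540976399) (l 540991247))) (a (l 16777280) (b (l 16777264) (l 16777272))))) (a (b (l 16777328) (l 16777352)) (b (a (l 16777304) (l 16777288)) (l 16777320)))))), by decide +kernel⟩

def k130_A00pm_123_s3 : ∃ t, chk3 f_A00pm_123_s3 t 16261 8100 1 = true :=
  ⟨(b (a (b (l 4) (a (b (l 4) (a (b (l 541994511) (l 541742351)) (l 4))) (l 4))) (l 4)) (a (b (a (b (a (b (l 541489935) (l 541237007)) (b (l 541734159) (l 541481999))) (a (b (l 540983823) (l 16777256)) (b (l 541229327) (l 540976143)))) (b (a (b (l 4) (l 541994255)) (l 4)) (a (b (l 541742095) (l 541489679)) (b (l 4) (l 542002447))))) (a (b (a (l 16777272) (b (l 540991247) (l 16777264))) (a (l 16777296) (l 16777280))) (b (a (b (l 541237007) (l 540983823)) (b (l 541481743) (l 541497615))) (a (b (l 16777256) (l 16777272)) (b (l 541244687) (l 16777256)))))) (b (l 4) (a (b (a (b (l 541993999) (l 541742095)) (l 4)) (a (b (l 541489679) (l 541237007)) (b (l 542002191) (l 541750031)))) (b (l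 4) (a (b (l 4) (l 542262031)) (l 4))))))), by decide +kernel⟩

def k131_A00pm_123_s3 : ∃ t, chk3 f_A00pm_123_s3 t 8130 8101 1 = true :=
  ⟨(a (b (a (b (l 16777432) (l 16777480)) (b (a (l 16777384) (l 16777352)) (c (l 16777416) (l 16777416)))) (a (l 16777552) (b (l 16777456) (l 16777504)))) (b (a (b (a (b (l 16777312) (l 16777328)) (b (a (l 16777288) (c (l 16777272) (l 16777272))) (a (l 16777304) (l 16777288)))) (a (l 16777360) (b (l 16777320) (l 16777344)))) (b (a (b (a (b (l 540983823) (l 16777256)) (b (l 541497359) (l 541244431))) (a (l 16777272) (b (l 16777256) (l 16777264)))) (b (a (b (l 541741839) (l 541489423)) (b (l 4) (l 542001935))) (a (b (l 541236751) (l 540983567)) (b (l 541749775) (l 541497359))))) (a (b (a (l 16777296) (l 16777280)) (l 16777312)) (b (a (b (l 16777256) (l 16777272)) (b (l 541244431) (l 16777256))) (a (l 16777288) (c (l 16777272) (l 16777272))))))) (a (b (a (l 16777408) (l 16777376)) (l 16777440)) (b (a (b (l 16777328) (l 16777352)) (b (a (l 16777304)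 (l 16777288)) (l 16777320))) (a (l 16777384) (l 16777352)))))), by decide +kernel⟩

def k132_A00pm_123_s3 : ∃ t, chk3 f_A00pm_123_s3 t 8131 4050 1 = true :=
  ⟨(b (l 4) (a (b (a (b (a (b (l 4) (a (b (l 542261775) (l 542010127)) (l 4))) (l 4)) (a (b (a (b (l 541489423) (l 541505039)) (b (l 542001679) (l 541749775))) (a (b (l 541252111) (l 16777256)) (b (l 541497103) (l 541244431)))) (b (a (b (l 4) (l 542261775)) (l 4)) (a (b (l 542009871) (l 541757711)) (b (l 4) (l 542001423)))))) (l 4)) (a (b (a (b (a (l 16777272) (b (l 16777256) (l 16777264))) (a (l 16777296) (l 16777280))) (b (a (b (l 541505039) (l 541251855)) (b (l 541749519) (l 541497103))) (a (b (l 16777256) (l 16777272)) (b (l 541244175) (l 16777256))))) (a (b (l 16777312) (l 16777336)) (b (a (l 16777288) (l 16777272)) (a (l 16777304) (l 16777288))))) (b (a (b (a (b (l 542261263) (l 542009615)) (l 4)) (a (b (l 541757455) (l 541504783)) (b (l 542269711) (l 541749263)))) (b (l 4) (a (b (l 4) (l 542529551)) (l 4)))) (a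 (b (a (b (l 541251855) (l 16777256)) (b (l 541496847) (l 541512463))) (a (l 16777272) (b (l 16777256) (l 16777264)))) (b (a (b (l 542009359) (l 541757199)) (b (l 4) (l 542269455))) (a (b (l 541504783) (l 541251855)) (b (l 542017551) (l 541765135)))))))) (b (l 4) (a (b (l 4) (a (b (l 4) (a (b (l 542529295) (l 542009359)) (b (l 4) (a (l 540924175) (l 4))))) (l 4))) (l 4))))), by decide +kernel⟩

def k133_A00pm_123_s3 : ∃ t, chk3 f_A00pm_123_s3 t 8130 4051 1 = true :=
  ⟨(b (a (b (l 16780232) (l 16777712)) (b (a (l 16780128) (b (c (l 16777416) (l 16777416)) (l 16777464))) (a (l 16777600) (l 16777528)))) (a (l 16777856) (b (l 16777664) (l 16777760)))), by decide +kernel⟩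

def k134_A00pm_123_s3 : ∃ t, chk3 f_A00pm_123_s3 t 16262 8102 1 = true :=
  ⟨(b (a (b (a (l 16777368) (b (l 16777320) (l 16777344))) (a (l 16777408) (l 16777376))) (b (a (b (a (l 16777296) (l 16777280)) (l 16777312)) (b (a (b (l 16777264) (l 16777272)) (b (l 541512463) (l 16777256))) (a (l 16777288) (l 16777272)))) (a (b (l 16777336) (l 16777352)) (b (c (l 16777304) (l 16777304)) (l 16777320))))) (a (b (l 16777440) (l 16777488)) (b (a (l 16777392) (l 16777352)) (c (l 16777416) (l 16777416))))), by decide +kernel⟩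

def k135_A00pm_123_s3 : ∃ t, chk3 f_A00pm_123_s3 t 16263 8102 1 = true :=
  ⟨(b (a (b (a (b (a (b (l 541757199) (l 541504527)) (b (l 542269199) (l 542017295))) (a (b (l 541251599) (l 16777264)) (b (l 541765135) (l 541512463)))) (b (a (b (l 4) (l 542529039)) (l 4)) (a (b (l 542277391) (l 541756943)) (b (a (l 540924175) (l 4)) (l 542268943))))) (a (b (a (l 16777280) (b (l 16777256) (l 16777264))) (a (l 16777296) (l 16777280))) (b (a (b (l 541773071) (l 541520143)) (b (l 542017295) (l 541764879))) (a (b (l 16777264) (l 16777272)) (b (l 541512207) (l 16777256)))))) (b (l 4) (a (b (a (b (l 542528783) (l 542277391)) (b (l 4) (a (l 540923919) (l 4)))) (a (b (l 542025231) (l 541772815)) (b (l 542537231) (l 542017039)))) (b (l 4) (a (b (l 4) (a (l 540932111) (l 4))) (l 4)))))) (a (b (a (b (l 16777312) (l 16777336)) (b (a (l 16777288) (l 16777272)) (c (l 16777304) (l 16777304)))) (a (l 16777368) (b (l 16777320) (l 16777344)))) (b (a (b (a (b (l 541520143) (l 16777264)) (b (l 541764879)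 (l 541512207))) (a (l 16777280) (b (l 16777256) (l 16777264)))) (b (a (b (l 542277135) (l 542025231)) (b (a (l 540923663) (l 4)) (l 542536975))) (a (b (l 541772815) (l 541519887)) (b (l 542285327) (l 541764623))))) (a (b (a (l 16777296) (l 16777280)) (l 16777312)) (b (a (b (l 16777264) (l 16777272)) (b (l 541780751) (l 16777256))) (a (l 16777288) (l 16777272))))))), by decide +kernel⟩

def k136_A00pm_123_s3 : ∃ t, chk3 f_A00pm_123_s3 t 8131 8103 1 = true :=
  ⟨(a (b (a (l 16777560) (b (l 16777464) (l 16777512))) (l 16780240)) (b (a (b (a (l 16777416) (l 16777376)) (l 16777440)) (b (a (c (l 16777344) (l 16777344)) (b (l 16777304) (l 16777328))) (a (l 16777392) (l 16777360)))) (a (l 16780136) (b (c (l 16777424) (l 16777416)) (l 16777464))))), by decide +kernel⟩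

def k137_A00pm_123_s3 : ∃ t, chk3 f_A00pm_123_s3 t 2033 2024 1 = true :=
  ⟨(l 2), by decide +kernel⟩

def k138_A00pm_123_s3 : ∃ t, chk3 f_A00pm_123_s3 t 4066 4050 1 = true :=
  ⟨(l 4), by decide +kernel⟩

def k139_A00pm_123_s3 : ∃ t, chk3 f_A00pm_123_s3 t 16264 4051 1 = true :=
  ⟨(b (b (l 4) (a (b (a (b (l 4) (a (b (a (l 540932111) (l 4)) (l 542276879)) (b (l 4) (a (l 540923663) (l 4))))) (l 4)) (a (b (a (b (l 542024975) (l 541772559)) (b (l 542536719) (l 542285071))) (a (b (l 541519887) (l 16777264)) (b (l 542033167) (l 541780495)))) (b (a (b (l 4) (a (l 540931855) (l 4))) (l 4)) (a (b (l 542545167) (l 542024975)) (b (a (l 540923407) (l 4)) (l 542536719)))))) (l 4))) (b (a (b (a (b (a (l 16777280) (b (l 16777256) (l 16777264))) (a (l 16777304) (l 16777288))) (b (a (b (l 541772559) (l 16777256)) (b (l 542285071) (l 542032911))) (a (b (l 16777264) (l 16777272)) (b (l 541780495) (l 16777256))))) (a (b (l 16777312) (l 16777336)) (b (a (l 16777288) (l 16777272)) (l 16777304))))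 (b (a (b (a (b (a (l 540931599) (l 540919055)) (l 542544911)) (b (l 4) (a (l 540923151) (l 4)))) (a (b (l 542293263) (l 541772559)) (b (a (l 540940047) (l 540927503)) (l 542284815)))) (b (l 4) (a (b (l 4) (a (l 540931599) (l 540918799))) (l 4)))) (a (b (a (b (l 16777256) (l 16777264)) (b (l 542032911) (l 541780239))) (a (l 16777280) (b (l 16777256) (l 16777272)))) (b (a (b (l 542544911) (l 542293007)) (b (a (l 540923151) (l 4)) (a (l 540939791) (l 540927247)))) (a (b (l 542040847) (l 16777256)) (b (l 542553103) (l 542032655))))))) (a (b (a (l 16777368) (b (l 16777328) (l 16777344))) (a (l 16777416) (l 16777384))) (b (a (b (a (l 16777304) (l 16777288)) (l 16777312)) (b (a (b (l 16777264) (l 16777272)) (b (l 541780239) (l 16777256))) (a (l 16777288) (l 16777272)))) (a (c (l 16777352) (l 16777344)) (b (l 16777304) (l 16777328))))))), by decide +kernel⟩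

def k140_A00pm_123_s3 : ∃ t, chk3 f_A00pm_123_s3 t 16265 4051 1 = true :=
  ⟨(b (l 4) (b (a (b (l 4) (a (b (l 4) (a (b (a (l 540931343) (l 540918543)) (l 542544655)) (b (l 4) (a (l 540922895) (l 4))))) (l 4))) (l 4)) (a (b (a (b (a (b (l 542293007) (l 542040847)) (b (a (l 540939791) (l 540926991)) (l 542552847))) (a (b (l 16777256) (l 16777264)) (b (l 542300943) (l 542048783)))) (b (a (b (l 4) (a (l 540931343) (l 540918287))) (l 4)) (a (b (a (l 540947983) (l 540935439)) (l 542292751)) (b (a (l 540922639) (l 4)) (a (l 540939535) (l 540926991)))))) (a (b (a (l 16777280) (b (l 16777256) (l 16777272))) (a (l 16777304) (l 16777288))) (b (a (b (l 542040591) (l 16777256)) (b (l 542552847) (l 542300943))) (a (c (l 16777272) (l 16777272)) (b (l 542048527) (l 16777256)))))) (b (l 4) (a (b (a (b (a (l 540931087) (l 540918287)) (a (l 540947983) (l 540935439))) (b (l 4) (a (l 540922639) (l 4)))) (a (b (l 542561039) (l 542040591)) (b (a (l 540939535) (l 540926735)) (l 542552591)))) (b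 (l 4) (a (b (l 4) (a (l 540931087) (l 540918031))) (l 4)))))))), by decide +kernel⟩

def k141_A00pm_123_s3 : ∃ t, chk3 f_A00pm_123_s3 t 8133 4051 1 = true :=
  ⟨(l 4), by decide +kernel⟩

def k142_A00pm_123_s3 : ∃ t, chk3 f_A00pm_123_s3 t 4067 2025 1 = true :=
  ⟨(l 4), by decide +kernel⟩

def k143_A00pm_123_s3 : ∃ t, chk3 f_A00pm_123_s3 t 2032 1013 1 = true :=
  ⟨(b (a (b (b (a (l 16778192) (l 16788680)) (l 16788784)) (l 16778048)) (b (a (b (l 16783240) (a (l 16788688) (l 16778040))) (b (a (b (l 16777712) (l 16783056)) (b (a (l 16777608) (l 16777536)) (l 16777664))) (a (l 16777968) (l 16783056)))) (a (l 16788808) (b (a (l 16788568) (l 16778024)) (l 16788712))))) (l 16789096)), by decide +kernel⟩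

def k144_A00pm_123_s3 : ∃ t, chk3 f_A00pm_123_s3 t 8132 4052 1 = true :=
  ⟨(b (a (b (a (b (l 16777440) (l 16777488)) (b (a (l 16777392) (l 16777360)) (l 16777424))) (a (l 16777560) (c (l 16780112) (l 16780112)))) (b (a (b (a (b (l 16777312) (l 16777336)) (b (a (l 16777288) (l 16777272)) (l 16777304))) (a (l 16777368) (b (l 16777328) (l 16777352)))) (b (a (b (a (b (l 16777256) (l 16777264)) (b (l 542300943) (l 542048527))) (a (l 16777280) (b (l 16777264) (l 16777272)))) (b (a (b (a (l 540947727) (l 540935183)) (l 542561039)) (b (a (l 540922383) (l 4)) (a (l 540939535) (l 540926735)))) (a (b (l 542308879) (l 16777256)) (b (a (l 540955919) (l 540943631)) (l 542300687))))) (a (b (a (l 16777304) (l 16777288)) (l 16777320)) (b (a (c (l 16777272) (l 16777272)) (b (l 542048527) (l 16777264))) (a (l 16777296) (l 16777280)))))) (a (b (a (l 16777416) (l 16777384)) (l 16777448)) (b (a (l 16777352) (b (l 16777304) (l 16777328))) (a (l 16777392) (l 16777360)))))) (a (b (l 16780240) (l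 16777720)) (b (a (l 16780136) (b (l 16777424) (l 16777472))) (a (l 16777608) (l 16777544))))), by decide +kernel⟩

def k145_A00pm_123_s3 : ∃ t, chk3 f_A00pm_123_s3 t 16266 8104 1 = true :=
  ⟨(b (a (b (a (b (a (b (l 4) (a (l 540913679) (l 4))) (l 4)) (a (b (a (l 540930831) (l 540918031)) (a (l 540947727) (l 540935183))) (b (l 4) (a (l 540922127) (l 4))))) (l 4)) (a (b (a (b (l 542560783) (l 542308879)) (b (a (l 540939279) (l 540926479)) (a (l 540955919) (l 540943375)))) (a (b (l 16777256) (l 16777264)) (b (l 542568975) (l 542048527)))) (b (a (b (a (l 540913423) (l 4)) (a (l 540930575) (l 540917775))) (l 4)) (a (b (a (l 540947727) (l 540934927)) (l 542560783)) (b (a (l 540922127) (l 4)) (a (l 540939279) (l 540926223))))))) (b (l 4) (a (b (l 4) (a (b (l 4) (a (l 540913167) (l 4))) (l 4))) (l 4)))) (a (b (a (b (a (l 16777280) (b (l 16777264) (l 16777272))) (a (l 16777304) (l 16777288))) (b (a (b (l 542308879) (l 16777256)) (b (a (l 540955919) (l 540943375)) (l 542568975))) (a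 (c (l 16777272) (l 16777272)) (b (l 542316815) (l 16777264))))) (a (b (l 16777320) (l 16777336)) (b (a (l 16777296) (l 16777280)) (l 16777304)))) (b (a (b (a (b (a (l 540930575) (l 540917519)) (a (l 540947471) (l 540934927))) (b (l 4) (a (l 540921871) (l 4)))) (a (b (a (l 16777240) (l 540951567)) (l 542308623)) (b (a (l 540939023) (l 540926223)) (a (l 540955663) (l 540943375))))) (b (l 4) (a (b (a (l 540912911) (l 4)) (a (l 540930319) (l 540917519))) (l 4)))) (a (b (a (b (l 16777256) (l 16777264)) (b (l 542568975) (l 16777248))) (a (l 16777280) (b (l 16777264) (l 16777272)))) (b (a (b (a (l 540947471) (l 540934671)) (a (l 16777240) (l 540951567))) (b (a (l 540921615) (l 4)) (a (l 540939023) (l 540925967)))) (a (b (l 542577167) (l 16777256)) (b (a (l 540955663) (l 540943119)) (l 542568719)))))))), by decide +kernel⟩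

def k146_A00pm_123_s3 : ∃ t, chk3 f_A00pm_123_s3 t 16267 8104 1 = true :=
  ⟨(b (l 4) (a (b (l 4) (a (b (a (b (l 4) (a (l 540912911) (l 4))) (l 4)) (a (b (a (l 540930319) (l 540917263)) (a (l 540947215) (l 540934671))) (b (l 4) (a (l 540921615) (l 4))))) (l 4))) (l 4))), by decide +kernel⟩

def k147_A00pm_123_s3 : ∃ t, chk3 f_A00pm_123_s3 t 16266 8105 1 = true :=
  ⟨(b (a (b (a (l 16777376) (b (l 16777328) (l 16777352))) (a (l 16777416) (l 16777384))) (b (a (b (a (l 16777304) (l 16777288)) (l 16777320)) (b (a (c (l 16777272) (l 16777272)) (b (l 16777248) (l 16777264))) (a (l 16777296) (l 16777280)))) (a (l 16777352) (b (l 16777304) (l 16777328))))) (a (b (l 16777448) (l 16777496)) (b (a (l 16777400) (l 16777360)) (l 16777424)))), by decide +kernel⟩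

def k148_A00pm_123_s3 : ∃ t, chk3 f_A00pm_123_s3 t 16267 16210 1 = true :=
  ⟨(a (b (a (b (a (b (a (l 16777240) (l 540951567)) (l 542576911)) (b (a (l 540938767) (l 540925967)) (a (l 540955663) (l 540943119)))) (a (b (l 16777256) (l 16777264)) (b (a (l 16777248) (l 540959759)) (l 16777256)))) (b (a (b (a (l 540912655) (l 4)) (a (l 540930319) (l 540917007))) (l 4)) (a (b (a (l 540947215) (l 540934415)) (a (l 16777240) (l 540951311))) (b (a (l 540921359) (l 540908047)) (a (l 540938767) (l 540925711)))))) (a (b (a (l 16777280) (b (l 16777264) (l 16777272))) (a (l 16777304) (l 16777288))) (b (a (b (l 542576911) (l 16777256)) (b (a (l 540955663) (l 540942863)) (a (l 16777248) (l 540959759)))) (a (c (l 16777272) (l 16777272)) (b (l 16777256) (l 16777264)))))) (b (a (b (l 4) (a (b (l 4) (a (l 540912399) (l 4))) (l 4))) (l 4)) (a (b (a (b (a (l 540930063) (l 540917007)) (a (l 540947215) (l 540934415))) (b (l 4) (a (l 540921359) (l 540907791)))) (a (b (a (l 16777240) (l 540951311))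 (l 542576911)) (b (a (l 540938511) (l 540925711)) (a (l 540955407) (l 540942863))))) (b (l 4) (a (b (a (l 540912399) (l 4)) (a (l 540929807) (l 540916751))) (l 4)))))), by decide +kernel⟩

def k149_A00pm_123_s3 : ∃ t, chk3 f_A00pm_123_s3 t 16267 16211 1 = true :=
  ⟨(a (b (a (b (l 16777320) (l 16777344)) (b (a (l 16777296) (l 16777280)) (l 16777312))) (a (l 16777376) (b (l 16777328) (l 16777352)))) (b (a (b (a (b (l 16777256) (l 16777272)) (b (a (l 16777248) (l 16777240)) (l 16777256))) (a (l 16777288) (b (l 16777264) (l 16777272)))) (b (a (b (a (l 540947215) (l 540934159)) (a (l 16777240) (l 540951311))) (b (a (l 540921103) (l 541176079)) (a (l 540938511) (l 540925455)))) (a (b (a (l 16777248) (l 16777240)) (l 16777256)) (b (a (l 540955407) (l 540942863)) (a (l 16777248) (l 16777240)))))) (a (b (a (l 16777304) (l 16777288)) (l 16777320)) (b (a (l 16777272) (b (l 16777256) (l 16777264))) (a (l 16777296) (l 16777280)))))), by decide +kernel⟩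

def k150_A00pm_123_s3 : ∃ t, chk3 f_A00pm_123_s3 t 4066 4053 1 = true :=
  ⟨(b (a (a (l 16777872) (b (l 16777672) (l 16777768))) (a (b (a (l 16777568) (c (l 16780120) (l 16780112))) (l 16780248)) (b (a (b (a (l 16777424) (l 16777384)) (l 16777448)) (b (a (l 16777352) (b (l 16777312) (l 16777328))) (a (l 16777400) (l 16777368)))) (a (l 16777520) (b (l 16777424) (l 16777472)))))) (a (a (l 16777992) (l 16777920)) (a (b (l 16777720) (l 16777824)) (b (a (l 16777616) (l 16777544)) (l 16777680))))), by decide +kernel⟩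

def k151_A00pm_123_s3 : ∃ t, chk3 f_A00pm_123_s3 t 4067 4052 1 = true :=
  ⟨(a (b (l 4) (b (l 4) (a (a (b (a (b (a (b (l 4) (b (l 4) (l 542248975))) (l 4)) (a (b (a (l 540929807) (l 540916495)) (a (l 540946959) (l 540934159))) (b (l 4) (a (l 540921103) (l 541176079))))) (l 4)) (a (b (a (b (a (l 16777240) (l 540951311)) (a (l 16777256) (l 16777248))) (b (a (l 540938511) (l 540925455)) (a (l 540955407) (l 540942607)))) (a (b (l 16777256) (l 16777272)) (b (a (l 16777248) (l 16777240)) (l 16777256)))) (b (a (b (a (l 541180431) (l 4)) (a (l 540929807) (l 540916495))) (l 4)) (a (b (a (l 540946959) (l 540933903)) (a (l 16777240) (l 540951055))) (b (a (l 540920847) (l 541175823)) (a (l 540938255) (l 540925199))))))) (b (l 4) (a (b (l 4) (a (b (l 4) (a (l 541180175) (l 4))) (l 4))) (l 4)))) (l 4)))) (l 4)), by decide +kernel⟩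

def k152_A00pm_123_s3 : ∃ t, chk3 f_A00pm_123_s3 t 16268 8106 1 = true :=
  ⟨(b (a (b (a (b (a (l 16777288) (b (l 16777264) (l 16777272))) (a (l 16777304) (l 16777288))) (b (a (b (a (l 16777256) (l 16777248)) (l 16777256)) (b (a (l 540955407) (l 540942607)) (a (l 16777248) (l 16777240)))) (a (l 16777272) (b (l 16777256) (l 16777264))))) (a (b (l 16777320) (l 16777344)) (b (a (l 16777296) (l 16777280)) (l 16777312)))) (b (a (b (a (b (a (l 540929551) (l 541184783)) (a (l 540946959) (l 540933903))) (b (l 4) (a (l 540920591) (l 541175567)))) (a (b (a (l 16777240) (l 540951055)) (a (l 16777256) (l 16777248))) (b (a (l 540938255) (l 540925199)) (a (l 540955407) (l 540942607))))) (b (l 4) (a (b (a (l 541180175) (l 4)) (a (l 540929551) (l 541184527))) (l 4)))) (a (b (a (b (l 16777256) (l 16777272)) (b (a (l 16777248) (l 16777240)) (l 16777256))) (a (l 16777288) (b (l 16777264) (l 16777272)))) (b (a (b (a (l 540946703) (l 540933903)) (a (l 16777240) (l 540951055))) (b (a (l 541188879)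 (l 541443855)) (a (l 540938255) (l 540924943)))) (a (b (a (l 16777256) (l 16777248)) (l 16777264)) (b (a (l 540955407) (l 540942351)) (a (l 16777248) (l 16777240)))))))) (a (b (a (l 16777376) (b (l 16777336) (l 16777352))) (a (l 16777424) (l 16777392))) (b (a (b (a (l 16777312) (l 16777296)) (l 16777320)) (b (a (l 16777280) (b (l 16777256) (l 16777264))) (a (l 16777296) (l 16777280)))) (a (l 16777352) (b (l 16777312) (l 16777336)))))), by decide +kernel⟩

def k153_A00pm_123_s3 : ∃ t, chk3 f_A00pm_123_s3 t 16269 8106 1 = true :=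
  ⟨(b (a (b (l 4) (a (b (a (b (l 4) (a (l 541179919) (l 4))) (l 4)) (a (b (a (l 540929295) (l 541184271)) (a (l 540946703) (l 540933647))) (b (a (l 541438991) (l 4)) (a (l 541188879) (l 541443599))))) (l 4))) (l 4)) (a (b (a (b (a (b (a (l 16777240) (l 540951055)) (a (l 16777256) (l 16777248))) (b (a (l 540937999) (l 541193231)) (a (l 540955151) (l 540942351)))) (a (b (l 16777264) (l 16777272)) (b (a (l 16777248) (l 16777240)) (l 16777256)))) (b (a (b (a (l 541448207) (l 4)) (a (l 540929295) (l 541184271))) (b (l 4) (a (l 541438991) (l 4)))) (a (b (a (l 540946703) (l 540933647)) (a (l 16777240) (l 540951055))) (b (a (l 541188623) (l 541443599)) (a (l 540937999) (l 541193231)))))) (a (b (a (l 16777288) (b (l 16777264) (l 16777280))) (a (l 16777312) (l 16777296))) (b (a (b (c (l 16777248) (l 16777248)) (l 16777264)) (b (a (l 16777240) (l 540942351)) (a (l 16777248) (l 16777240)))) (a (l 16777280) (b (l 16777256) (l 16777264)))))) (b (a (b (l 4) (a (b (l 4) (a (l 541447951)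 (l 4))) (l 4))) (l 4)) (a (b (a (b (a (l 541197583) (l 541452559)) (a (l 540946703) (l 540933647))) (b (a (l 541438735) (l 4)) (a (l 541188623) (l 541443343)))) (a (b (a (l 16777248) (l 540951055)) (c (l 16777248) (l 16777248))) (b (a (l 540937999) (l 541192975)) (a (l 16777240) (l 540942351))))) (b (l 4) (a (b (a (l 541447951) (l 4)) (a (l 541197583) (l 541452303))) (b (l 4) (a (l 541707023) (l 4))))))))), by decide +kernel⟩

def k154_A00pm_123_s3 : ∃ t, chk3 f_A00pm_123_s3 t 8134 8107 1 = true :=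
  ⟨(a (b (a (b (l 16777448) (l 16777496)) (b (a (l 16777400) (l 16777368)) (l 16777432))) (a (l 16777568) (l 16780120))) (b (a (b (a (b (l 16777320) (l 16777344)) (b (a (l 16777296) (l 16777280)) (l 16777312))) (a (l 16777376) (b (l 16777336) (l 16777360)))) (b (a (b (a (b (l 16777264) (l 16777272)) (b (a (l 16777248) (l 16777240)) (l 16777256))) (a (l 16777288) (b (l 16777264) (l 16777280)))) (b (a (b (a (l 540946447) (l 541201935)) (a (l 16777248) (l 540950799))) (b (a (l 541188367) (l 541443087)) (a (l 540937743) (l 541192975)))) (a (b (c (l 16777248) (l 16777248)) (l 16777264)) (b (a (l 16777240) (l 540942095)) (a (l 16777248) (l 16777240)))))) (a (b (a (l 16777312) (l 16777296)) (l 16777320)) (b (a (l 16777280) (b (l 16777256) (l 16777264))) (a (l 16777296) (l 16777280)))))) (a (b (a (l 16777424) (l 16777392)) (l 16777456)) (b (a (l 16777360) (b (l 16777312) (l 16777336))) (a (l 16777400) (l 16777368)))))), by decide +kernel⟩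

def k155_A00pm_123_s3 : ∃ t, chk3 f_A00pm_123_s3 t 8135 8106 1 = true :=
  ⟨(l 4), by decide +kernel⟩

def k156_A00pm_123_s3 : ∃ t, chk3 f_A00pm_123_s3 t 16270 16214 1 = true :=
  ⟨(a (b (a (b (a (b (l 4) (a (l 541447695) (l 4))) (l 4)) (a (b (a (l 541197327) (l 541452303)) (a (l 540946447) (l 541201679))) (b (a (l 541706767) (l 4)) (a (l 541456655) (l 541711375))))) (l 4)) (a (b (a (b (a (l 16777248) (l 540950799)) (c (l 16777248) (l 16777248))) (b (a (l 541206287) (l 541192719)) (a (l 16777240) (l 540942095)))) (a (b (l 16777264) (l 16777272)) (b (a (l 16777248) (l 16777240)) (l 16777256)))) (b (a (b (a (l 541447439) (l 4)) (a (l 541197327) (l 541452047))) (b (l 4) (a (l 541706511) (l 4)))) (a (b (a (l 540946447) (l 541201679)) (a (l 16777248) (l 540950799))) (b (a (l 541456655) (l 541711119)) (a (l 541206031) (l 541461007))))))) (b (l 4) (a (b (l 4) (a (b (l 4) (a (l 541715727) (l 541970191))) (l 4))) (l 4)))), by decide +kernel⟩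

def k157_A00pm_123_s3 : ∃ t, chk3 f_A00pm_123_s3 t 16270 16215 1 = true :=
  ⟨(a (b (a (b (a (l 16777288) (b (l 16777264) (l 16777280))) (a (l 16777312) (l 16777296))) (b (a (b (l 16777256) (l 16777264)) (b (a (l 16777240) (l 541210383)) (a (l 16777248) (l 16777240)))) (a (l 16777280) (b (l 16777256) (l 16777272))))) (a (b (l 16777328) (l 16777344)) (b (a (l 16777304) (l 16777288)) (l 16777312)))) (b (a (b (a (b (a (l 541197071) (l 541452047)) (a (l 540946447) (l 541201679))) (b (a (l 541706511) (l 4)) (a (l 541456399) (l 541711119)))) (a (b (a (l 16777248) (l 540950799)) (l 16777256)) (b (a (l 541206031) (l 541461007)) (a (l 16777240) (l 541210383))))) (b (l 4) (a (b (a (l 541715727) (l 541969935)) (a (l 541465359) (l 541720335))) (b (l 4) (a (l 541974543) (l 4)))))) (a (b (a (c (l 16777272) (l 16777272)) (b (a (l 16777248) (l 16777240)) (l 16777256))) (a (l 16777288) (c (l 16777272) (l 16777272)))) (b (a (b (a (l 541214735) (l 541201423)) (a (l 16777248) (l 540950799)))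 (b (a (l 541456399) (l 541710863)) (a (l 541206031) (l 541461007)))) (a (b (l 16777256) (l 16777264)) (b (a (l 16777240) (l 541210383)) (a (l 16777248) (l 16777248)))))))), by decide +kernel⟩

def k158_A00pm_123_s3 : ∃ t, chk3 f_A00pm_123_s3 t 16271 8107 1 = true :=
  ⟨(b (l 4) (a (b (l 4) (a (b (a (b (l 4) (a (l 541715471) (l 541969679))) (l 4)) (a (b (a (l 541465359) (l 541720079)) (a (l 541214735) (l 541469967))) (b (a (l 541974543) (l 4)) (a (l 541724687) (l 541979151))))) (l 4))) (l 4))), by decide +kernel⟩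

def k159_A00pm_123_s3 : ∃ t, chk3 f_A00pm_123_s3 t 4066 4054 1 = true :=
  ⟨(a (a (l 16788744) (b (l 16783280) (l 16778200))) (b (a (l 16777976) (l 16783072)) (a (l 16788600) (l 16783184)))), by decide +kernel⟩

def k160_A00pm_123_s3 : ∃ t, chk3 f_A00pm_123_s3 t 8134 4054 1 = true :=
  ⟨(b (a (b (l 16780248) (l 16777728)) (b (a (l 16777520) (b (l 16777432) (l 16777480))) (a (l 16777616) (l 16777552)))) (a (l 16777880) (b (l 16777680) (l 16777784)))), by decide +kernel⟩

def k161_A00pm_123_s3 : ∃ t, chk3 f_A00pm_123_s3 t 16270 8108 1 = true :=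
  ⟨(b (a (b (a (l 16777384) (b (l 16777336) (l 16777360))) (a (l 16777424) (l 16777392))) (b (a (b (a (l 16777312) (l 16777296)) (l 16777328)) (b (a (l 16777280) (b (l 16777256) (l 16777272))) (a (l 16777304) (l 16777288)))) (a (l 16777360) (b (l 16777312) (l 16777336))))) (a (b (l 16777456) (l 16777504)) (b (a (l 16777400) (l 16777368)) (l 16777432)))), by decide +kernel⟩

def k162_A00pm_123_s3 : ∃ t, chk3 f_A00pm_123_s3 t 16271 16216 1 = true :=
  ⟨(a (b (a (b (a (b (a (l 16777248) (l 541219087)) (l 16777256)) (b (a (l 541205775) (l 541460751)) (a (l 16777240) (l 541210383)))) (a (c (l 16777272) (l 16777272)) (b (a (l 16777256) (l 16777248)) (l 16777256)))) (b (a (b (a (l 541715471) (l 541969679)) (a (l 541465359) (l 541719823))) (b (l 4) (a (l 541974287) (l 4)))) (a (b (a (l 541214735) (l 541469711)) (a (l 16777248) (l 16777240))) (b (a (l 541724687) (l 541978895)) (a (l 541474319) (l 541729039)))))) (a (b (a (l 16777288) (l 16777272)) (a (l 16777312) (l 16777296))) (b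 (a (b (l 16777256) (l 16777264)) (b (a (l 16777240) (l 541210127)) (a (l 16777256) (l 16777248)))) (a (l 16777280) (b (l 16777256) (l 16777272)))))) (b (a (b (l 4) (a (b (l 4) (a (l 541983759) (l 542237711))) (l 4))) (l 4)) (a (b (a (b (a (l 541465103) (l 541719823)) (a (l 541214735) (l 541469711))) (b (a (l 541974031) (l 4)) (a (l 541724431) (l 541978895)))) (a (b (a (l 16777248) (l 16777240)) (l 16777256)) (b (a (l 541474319) (l 541729039)) (a (l 16777240) (l 541478671))))) (b (l 4) (a (b (a (l 541983503) (l 542237711)) (a (l 541733647) (l 541988111))) (b (l 4) (a (l 542242319) (l 4)))))))), by decide +kernel⟩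

def k163_A00pm_123_s3 : ∃ t, chk3 f_A00pm_123_s3 t 16271 16217 1 = true :=
  ⟨(a (b (a (b (l 16777328) (l 16777352)) (b (a (l 16777304) (l 16777288)) (l 16777312))) (a (l 16777384) (b (l 16777336) (l 16777360)))) (b (a (b (a (l 16777272) (b (a (l 16777256) (l 16777248)) (l 16777256))) (a (l 16777288) (l 16777272))) (b (a (b (a (l 541214479) (l 541469711)) (a (l 16777248) (l 16777240))) (b (a (l 541724431) (l 541978639)) (a (l 541474063) (l 541729039)))) (a (b (l 16777256) (l 16777264)) (b (a (l 16777240) (l 541478671)) (a (l 16777256) (l 16777248)))))) (a (b (a (l 16777312) (l 16777296)) (l 16777328)) (b (a (l 16777280) (b (l 16777264) (l 16777272))) (a (l 16777304) (l 16777288)))))), by decide +kernel⟩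

def k164_A00pm_123_s3 : ∃ t, chk3 f_A00pm_123_s3 t 8135 8109 1 = true :=
  ⟨(a (b (a (l 16777576) (l 16780128)) (l 16780256)) (b (a (b (a (l 16777424) (l 16777392)) (l 16777456)) (b (a (l 16777360) (b (l 16777320) (l 16777336))) (a (l 16777408) (l 16777376)))) (a (l 16777528) (b (l 16777432) (l 16777480))))), by decide +kernel⟩

def k165_A00pm_123_s3 : ∃ t, chk3 f_A00pm_123_s3 t 2033 4055 1 = true :=
  ⟨(a (a (l 16777872) (b (l 16788696) (l 16777952))) (a (a (b (l 16783232) (l 16778144)) (b (l 16777936) (l 16783320))) (b (a (b (l 16777736) (l 16777832)) (b (a (l 16777624) (l 16777552)) (l 16777688))) (a (l 16783128) (l 16783080))))), by decide +kernel⟩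

def k166_A00pm_123_s3 : ∃ t, chk3 f_A00pm_123_s3 t 1017 1012 1 = true :=
  ⟨(l 2), by decide +kernel⟩

def k167_A00pm_123_s3 : ∃ t, chk3 f_A00pm_123_s3 t 2034 2026 1 = true :=
  ⟨(l 4), by decide +kernel⟩

def k168_A00pm_123_s3 : ∃ t, chk3 f_A00pm_123_s3 t 8136 8108 1 = true :=
  ⟨(b (l 4) (a (a (b (a (b (a (b (a (l 542501135) (l 4)) (a (l 541983503) (l 542237455))) (l 4)) (a (b (a (l 541733647) (l 541988111)) (a (l 541483023) (l 541469711))) (b (a (l 542242319) (l 4)) (a (l 541724175) (l 542246927))))) (b (l 4) (a (b (l 4) (a (l 542500879) (l 4))) (l 4)))) (a (b (a (b (a (l 16777248) (l 16777240)) (l 16777256)) (b (a (l 541474063) (l 541728783)) (a (l 16777240) (l 541478415)))) (a (l 16777272) (b (a (l 16777256) (l 16777248)) (l 16777264)))) (b (a (b (a (l 541983247) (l 542237199)) (a (l 541733391) (l 541987855))) (b (l 4) (a (l 542242063) (l 4)))) (a (b (a (l 541483023) (l 541737999)) (a (l 16777248) (l 16777240))) (b (a (l 541992463) (l 542246927)) (a (l 541474063) (l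 541728783))))))) (b (l 4) (a (b (l 4) (a (b (a (l 542500623) (l 4)) (a (l 542251535) (l 542505487))) (l 4))) (l 4)))) (l 4))), by decide +kernel⟩

def k169_A00pm_123_s3 : ∃ t, chk3 f_A00pm_123_s3 t 16272 8109 1 = true :=
  ⟨(b (a (b (a (b (a (l 16777296) (l 16777280)) (a (l 16777312) (l 16777296))) (b (a (b (l 16777256) (l 16777264)) (b (a (l 16777240) (l 541478415)) (a (l 16777256) (l 16777248)))) (a (l 16777280) (b (l 16777264) (l 16777272))))) (a (b (l 16777328) (l 16777352)) (b (a (l 16777304) (l 16777288)) (l 16777320)))) (b (a (b (a (b (a (l 541733391) (l 541987855)) (a (l 541483023) (l 541737743))) (b (a (l 542241807) (l 4)) (a (l 541992463) (l 542246671)))) (a (b (a (l 16777248) (l 16777240)) (l 16777256)) (b (a (l 541742351) (l 541997071)) (a (l 16777248) (l 541478415))))) (b (a (b (l 4) (a (l 542500623) (l 4))) (l 4)) (a (b (a (l 542251279) (l 542505231)) (a (l 541733135) (l 541987599))) (b (l 4) (a (l 542510095) (l 4)))))) (a (b (a (l 16777272) (b (a (l 16777256)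 (l 16777248)) (l 16777264))) (a (l 16777296) (l 16777280))) (b (a (b (a (l 541483023) (l 541737743)) (a (l 16777248) (l 16777240))) (b (a (l 541992463) (l 542246415)) (a (l 541742351) (l 541997071)))) (a (b (l 16777256) (l 16777264)) (b (a (l 16777248) (l 541746959)) (a (l 16777256) (l 16777248)))))))) (a (b (a (l 16777384) (b (l 16777336) (l 16777360))) (a (l 16777432) (l 16777392))) (b (a (b (a (l 16777312) (l 16777296)) (l 16777328)) (b (a (l 16777280) (b (l 16777264) (l 16777272))) (a (l 16777304) (l 16777288)))) (a (l 16777360) (b (l 16777320) (l 16777344)))))), by decide +kernel⟩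

def k170_A00pm_123_s3 : ∃ t, chk3 f_A00pm_123_s3 t 16273 16218 1 = true :=
  ⟨(a (b (l 4) (a (b (a (b (a (b (l 4) (l 540899599)) (l 4)) (a (l 542251279) (l 542505231))) (l 4)) (a (b (a (l 542001423) (l 542255887)) (a (l 541483023) (l 541737743))) (b (a (l 542509839) (l 4)) (a (l 541992207) (l 542514703))))) (b (l 4) (a (b (l 4) (a (b (l 4) (l 540899599)) (l 4))) (l 4))))) (l 4)), by decide +kernel⟩

def k171_A00pm_123_s3 : ∃ t, chk3 f_A00pm_123_s3 t 16273 16219 1 = true :=
  ⟨(a (b (a (b (a (b (a (l 16777248) (l 16777240)) (l 16777256)) (b (a (l 541742351) (l 541996815)) (a (l 16777248) (l 541746703)))) (a (l 16777272) (b (a (l 16777256) (l 16777248)) (l 16777264)))) (b (a (b (a (l 542251023) (b (l 4) (l 540904463))) (a (l 542001423) (l 542255887))) (b (l 4) (a (l 542509839) (l 4)))) (a (b (a (l 16777240) (l 542006031)) (a (l 16777248) (l 16777240))) (b (a (l 542260495) (l 542514703)) (a (l 541742095) (l 541996815)))))) (a (b (a (l 16777296) (l 16777280)) (a (l 16777312)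 (l 16777296))) (b (a (b (l 16777256) (l 16777264)) (b (a (l 16777248) (l 541746703)) (l 16777256))) (a (l 16777280) (b (l 16777264) (l 16777272)))))) (b (a (b (l 4) (a (b (a (a (l 541165839) (l 4)) (l 4)) (a (l 542519311) (b (l 540894479) (l 540904207)))) (l 4))) (l 4)) (a (b (a (b (a (l 542001423) (l 542255631)) (a (l 16777240) (l 542006031))) (b (a (l 542509583) (b (l 4) (l 540894479))) (a (l 542260495) (l 542514447)))) (a (b (a (l 16777248) (l 16777240)) (l 16777256)) (b (a (l 542010639) (l 542265103)) (a (l 16777248) (l 541746703))))) (b (a (b (l 4) (a (b (l 4) (l 540899343)) (l 4))) (l 4)) (a (b (a (l 542519311) (b (l 540894479) (l 540904207))) (a (l 542001423) (l 542524175))) (b (l 4) (a (b (l 540899343) (l 540908815)) (a (l 541429007) (l 4))))))))), by decide +kernel⟩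

def k172_A00pm_123_s3 : ∃ t, chk3 f_A00pm_123_s3 t 8137 4054 1 = true :=
  ⟨(l 4), by decide +kernel⟩

def k173_A00pm_123_s3 : ∃ t, chk3 f_A00pm_123_s3 t 8136 4055 1 = true :=
  ⟨(b (a (b (a (b (l 16777456) (l 16777504)) (b (a (l 16777408) (l 16777376)) (l 16777440))) (a (l 16777576) (l 16780128))) (b (a (b (a (b (l 16777328) (l 16777352)) (b (a (l 16777304) (l 16777288)) (l 16777320))) (a (l 16777384) (b (l 16777344) (l 16777360)))) (b (a (b (a (l 16777272) (b (l 16777256) (l 16777264))) (a (l 16777296) (l 16777280))) (b (a (b (a (l 16777240) (l 542006031)) (a (l 16777248) (l 16777240))) (b (a (l 542260239) (l 542514447)) (a (l 542010639) (l 542265103)))) (a (b (l 16777256) (l 16777272)) (b (a (l 16777248) (l 542015247)) (l 16777256))))) (a (b (c (l 16777312) (l 16777312)) (l 16777328)) (b (a (l 16777288) (b (l 16777264) (l 16777272))) (a (l 16777304) (l 16777288)))))) (a (b (a (l 16777432) (l 16777400)) (l 16777464)) (b (a (l 16777368) (b (l 16777320) (l 16777344))) (a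 (l 16777408) (l 16777376)))))) (a (b (l 16780264) (l 16777736)) (b (a (l 16777528) (b (l 16777440) (l 16777488))) (a (l 16777624) (l 16777560))))), by decide +kernel⟩

def k174_A00pm_123_s3 : ∃ t, chk3 f_A00pm_123_s3 t 16274 16220 1 = true :=
  ⟨(a (b (a (b (a (b (a (b (l 4) (l 540899343)) (l 4)) (a (l 542519055) (b (l 541162767) (l 540903951)))) (l 4)) (a (b (a (l 542269711) (l 542523919)) (a (l 16777240) (l 542005775))) (b (a (b (l 540899087) (l 540908815)) (b (l 4) (l 541162767))) (a (l 542260239) (b (l 540903951) (l 540913423)))))) (b (l 4) (a (b (l 4) (a (a (l 541433871) (l 4)) (l 4))) (l 4)))) (a (b (a (b (a (l 16777248) (l 16777240)) (l 16777256)) (b (a (l 542010639) (l 542264847)) (a (l 16777248) (l 542014991)))) (a (l 16777272) (b (l 16777256) (l 16777264)))) (b (a (b (a (l 542519055) (b (l 541162511) (l 540903951))) (a (l 542269711) (l 542523919))) (b (l 4) (a (b (l 541167375) (l 540908815)) (a (l 541428751) (l 4))))) (a (b (a (l 16777240) (l 542274319)) (a (l 16777256)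 (l 16777248))) (b (a (l 542528527) (b (l 540903951) (l 540913423))) (a (l 542010383) (l 542264847))))))) (b (l 4) (a (b (l 4) (a (b (a (b (l 4) (l 541167375)) (l 4)) (a (b (l 540908815) (l 540918287)) (a (l 541438479) (l 541431055)))) (l 4))) (l 4)))), by decide +kernel⟩

def k175_A00pm_123_s3 : ∃ t, chk3 f_A00pm_123_s3 t 16274 16221 1 = true :=
  ⟨(a (b (a (b (a (l 16777296) (l 16777280)) (c (l 16777312) (l 16777312))) (b (a (b (l 16777256) (l 16777272)) (b (a (l 16777248) (l 542014991)) (l 16777256))) (a (l 16777288) (b (l 16777264) (l 16777272))))) (a (b (l 16777328) (l 16777352)) (b (a (l 16777304) (l 16777288)) (l 16777320)))) (b (a (b (a (b (a (l 542269455) (l 542523663)) (a (l 16777240) (l 542274319))) (b (a (b (l 541167375) (l 540908559)) (b (l 4) (l 541162511))) (a (l 542528527) (b (l 541172239) (l 540913423))))) (a (b (a (l 16777256) (l 16777248)) (l 16777256)) (b (a (l 542278927) (l 542533135)) (a (l 16777248) (l 542014991))))) (b (a (b (l 4) (a (a (l 541433615)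 (l 541694479)) (l 4))) (l 4)) (a (b (a (b (l 540908559) (l 540918287)) (b (l 541162255) (l 541172239))) (a (l 542269455) (b (l 540913423) (l 540922895)))) (b (l 4) (a (a (l 541443343) (l 541435919)) (a (l 541696783) (l 4))))))) (a (b (a (l 16777272) (b (l 16777256) (l 16777264))) (a (l 16777296) (l 16777280))) (b (a (b (a (l 16777240) (l 542274319)) (a (l 16777256) (l 16777248))) (b (a (l 542528271) (b (l 541172239) (l 540913423))) (a (l 542278927) (l 542533135)))) (a (b (l 16777256) (l 16777272)) (b (a (l 16777248) (l 542283535)) (l 16777256))))))), by decide +kernel⟩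

def k176_A00pm_123_s3 : ∃ t, chk3 f_A00pm_123_s3 t 16275 8110 1 = true :=
  ⟨(b (l 4) (a (b (l 4) (a (b (a (b (a (b (l 4) (l 541167119)) (l 4)) (a (b (l 541176847) (l 540918031)) (a (l 541438223) (l 541699343)))) (l 4)) (a (b (a (l 542537999) (b (l 540913423) (l 540922895))) (a (l 16777240) (l 542274063))) (b (a (b (l 541167119) (l 541176847)) (a (l 541696783) (l 4))) (a (b (l 540918031) (l 540927503)) (a (l 541447951) (l 541440783)))))) (b (l 4) (a (b (l 4) (a (b (l 541425423) (l 541167119)) (l 4))) (l 4))))) (l 4))), by decide +kernel⟩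

def k177_A00pm_123_s3 : ∃ t, chk3 f_A00pm_123_s3 t 16274 8111 1 = true :=
  ⟨(b (a (b (a (l 16777384) (b (l 16777344) (l 16777368))) (a (l 16777432) (l 16777400))) (b (a (b (c (l 16777312) (l 16777312)) (l 16777336)) (b (a (l 16777288) (b (l 16777264) (l 16777272))) (a (l 16777304) (l 16777288)))) (a (l 16777368) (b (l 16777320) (l 16777344))))) (a (b (l 16777464) (l 16777512)) (b (a (l 16777408) (l 16777376)) (l 16777440)))), by decide +kernel⟩

def k178_A00pm_123_s3 : ∃ t, chk3 f_A00pm_123_s3 t 16275 16222 1 = true :=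
  ⟨(a (b (a (b (a (b (a (l 16777256) (l 16777248)) (l 16777256)) (b (a (l 542278927) (l 542533135)) (a (l 16777248) (l 542283535)))) (a (l 16777272) (b (l 16777256) (l 16777264)))) (b (a (b (a (b (l 541176847) (l 540918031)) (b (l 541430543) (l 541171983))) (a (l 542537743) (a (l 541189135) (l 541450511)))) (b (a (b (l 4) (l 541425423)) (l 4)) (a (b (l 541167119) (l 541176847)) (b (l 4) (l 541430543))))) (a (b (a (l 16777240) (l 542542607)) (a (l 16777256) (l 16777248))) (b (a (b (l 540918031) (l 540927503)) (b (l 541171983) (l 541181711))) (a (l 542278927) (b (l 540922895) (l 540932367))))))) (a (b (a (l 16777296) (l 16777280)) (c (l 16777312) (l 16777312))) (b (a (b (l 16777264) (l 16777272)) (b (a (l 16777248) (l 16777240)) (l 16777256))) (a (l 16777288) (c (l 16777272) (l 16777272)))))) (b (a (b (l 4) (a (b (a (a (l 541701647) (l 541693967)) (l 4)) (a (a (l 541452815) (l 541445391)) (b (l 541430287) (l 541171983)))) (b (l 4) (a (b (l 4) (l 541425423)) (l 4))))) (l 4))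 (a (b (a (b (a (l 542537743) (b (l 541181711) (l 540922895))) (a (l 16777240) (l 542542607))) (b (a (b (l 541435407) (l 541176847)) (a (l 541696527) (l 4))) (a (a (l 541193999) (l 541455119)) (b (l 541171727) (l 541181711))))) (a (b (a (l 16777256) (l 16777248)) (l 16777264)) (b (a (l 542547215) (b (l 540922895) (l 540932111))) (a (l 16777248) (l 16777240))))) (b (a (b (l 4) (a (b (l 541425167) (l 541435407)) (l 4))) (l 4)) (a (b (a (b (l 541176847) (l 541186319)) (a (l 541706511) (l 541698831))) (a (l 542537743) (a (l 541457423) (l 541450255)))) (b (a (b (l 4) (l 541425167)) (l 4)) (a (b (l 541435151) (l 541176591)) (b (l 4) (l 541430287))))))))), by decide +kernel⟩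

def k179_A00pm_123_s3 : ∃ t, chk3 f_A00pm_123_s3 t 16275 16223 1 = true :=
  ⟨(a (b (a (b (l 16777336) (l 16777352)) (b (a (l 16777312) (l 16777296)) (l 16777320))) (a (l 16777392) (b (l 16777344) (l 16777368)))) (b (a (b (a (l 16777280) (b (l 16777256) (l 16777264))) (a (l 16777296) (l 16777280))) (b (a (b (a (l 16777248) (l 542542351)) (a (l 16777256) (l 16777248))) (b (a (b (l 541186319) (l 540927503)) (b (l 541440271) (l 541181455))) (a (l 542547215) (b (l 540922639) (l 16777232))))) (a (b (l 16777264) (l 16777272)) (b (a (l 16777248) (l 16777240)) (l 16777256))))) (a (b (c (l 16777312) (l 16777312)) (l 16777336)) (b (a (l 16777288) (c (l 16777272) (l 16777272))) (a (l 16777312) (l 16777296)))))), by decide +kernel⟩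

def k180_A00pm_123_s3 : ∃ t, chk3 f_A00pm_123_s3 t 4069 2027 1 = true :=
  ⟨(b (l 4) (a (b (l 4) (b (l 4) (a (a (a (b (b (a (b (a (a (l 541701391) (l 541962255)) (l 4)) (a (b (l 541176591) (l 541186319)) (b (l 541430031) (l 541440015)))) (b (l 4) (a (b (l 4) (l 541693455)) (l 4)))) (a (b (a (b (l 540927503) (l 16777240)) (b (l 541181455) (l 541191183))) (a (l 16777248) (l 542542351))) (b (a (a (l 541711375) (l 541703695)) (b (l 4) (l 541430031))) (a (b (l 541186319) (l 540927503)) (b (l 541440015) (l 541181455)))))) (b (a (b (a (l 16777256) (l 16777248)) (l 16777264)) (b (a (l 542547215) (b (l 541191183) (l 16777232))) (a (l 16777248) (l 16777240)))) (a (l 16777280) (b (l 16777256) (l 16777264))))) (a (a (a (b (b (l 4) (b (l 4) (l 541701135))) (b (b (l 541452559) (l 16777240)) (l 16777256))) (l 14)) (l 14)) (l 14))) (l 14)) (l 4)))) (l 4))), by decide +kernel⟩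

def k181_A00pm_123_s3 : ∃ t, chk3 f_A00pm_123_s3 t 2035 1013 1 = true :=
  ⟨(l 2), by decide +kernel⟩

def k182_A00pm_123_s3 : ∃ t, chk3 f_A00pm_123_s3 t 1016 507 1 = true :=
  ⟨(b (a (l 16802032) (b (a (l 16778704) (b (a (l 16777896) (b (a (l 16788624) (l 16783192)) (l 16778088))) (l 16778128))) (l 16790248))) (l 16804504)), by decide +kernel⟩

def k183_A00pm_123_s3 : ∃ t, chk3 f_A00pm_123_s3 t 4068 2028 1 = true :=
  ⟨(b (b (a (a (l 16777888) (b (l 16777688) (l 16777792))) (a (b (a (l 16777584) (l 16780136)) (l 16780264)) (b (a (b (a (l 16777432) (l 16777400)) (l 16777464)) (b (a (l 16777368) (b (l 16777320) (l 16777344))) (a (l 16777416) (l 16777376)))) (a (l 16777536) (b (l 16777440) (l 16777488)))))) (a (a (l 16783272) (l 16783080)) (a (b (l 16777744) (l 16777840)) (b (a (l 16777632) (l 16777560)) (l 16777696))))) (a (a (l 16777880) (a (l 16778056) (l 16783360))) (b (a (l 16783144) (l 16783096)) (a (l 16778048) (l 16783232))))), by decide +kernel⟩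

def k184_A00pm_123_s3 : ∃ t, chk3 f_A00pm_123_s3 t 8138 2028 1 = true :=
  ⟨(b (b (a (b (a (b (a (b (a (l 16777296) (l 16777280)) (c (l 16777312) (l 16777312))) (a (a (b (l 16777272) (l 16777296)) (l 14)) (l 14))) (a (b (l 16777336) (l 16777360)) (b (a (l 16777312) (l 16777296)) (l 16777328)))) (b (l 14) (a (b (l 14) (a (l 16777296) (l 14))) (l 14)))) (a (b (a (l 16777392) (b (l 16777344) (l 16777368))) (a (l 16777440) (l 16777400))) (b (a (b (c (l 16777312) (l 16777312)) (l 16777336)) (b (l 14) (a (l 16777312) (l 14)))) (a (l 16777368) (b (l 16777328) (l 16777344)))))) (b (l 14) (a (b (l 14) (a (b (a (l 16777304) (l 14)) (c (l 16777312) (l 16777312))) (l 14))) (l 14)))) (a (b (a (b (l 16777464) (l 16777512)) (b (a (l 16777416) (l 16777384)) (l 16777448))) (a (l 16777584) (l 16780136))) (b (a (b (a (b (l 16777336) (l 16777360)) (b (a (l 16777312) (l 14)) (l 16777328))) (a (l 16777392) (b (l 16777352) (l 16777368)))) (b (a (b (l 14) (a (l 16777304) (l 14))) (l 14)) (a (b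 (c (l 16777312) (l 16777312)) (l 16777336)) (b (l 14) (a (l 16777312) (l 14)))))) (a (b (a (l 16777440) (l 16777408)) (l 16777472)) (b (a (l 16777368) (b (l 16777328) (l 16777352))) (a (l 16777416) (l 16777384))))))) (b (a (b (l 16780272) (l 16777744)) (b (a (l 16777536) (b (l 16777448) (l 16777496))) (a (l 16777640) (l 16777568)))) (a (l 16783032) (b (l 16777696) (l 16777800))))), by decide +kernel⟩

def k185_A00pm_123_s3 : ∃ t, chk3 f_A00pm_123_s3 t 8139 2028 1 = true :=
  ⟨(b (b (l 4) (a (b (l 14) (a (b (a (b (a (l 16777304) (l 14)) (l 16777320)) (l 14)) (a (b (l 16777336) (l 16777360)) (b (a (l 16777312) (l 14)) (l 16777328)))) (l 14))) (l 14))) (b (a (b (a (b (a (l 16777392) (b (l 16777352) (l 16777376))) (a (l 16777440) (l 16777408))) (b (a (b (l 16777320) (l 16777336)) (b (l 14) (a (l 16777312) (l 14)))) (a (l 16777376) (b (l 16777328) (l 16777352))))) (a (b (l 16777472) (l 16777520)) (b (a (l 16777416) (l 16777384)) (l 16777448)))) (b (a (b (l 14) (a (b (l 14) (l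 16777320)) (l 14))) (l 14)) (a (b (a (b (l 16777336) (l 16777360)) (b (a (l 16777312) (l 14)) (l 16777328))) (a (l 16777400) (b (l 16777352) (l 16777376)))) (b (l 14) (a (b (l 16777320) (l 16777344)) (b (l 14) (a (l 16777320) (l 14)))))))) (a (b (a (l 16777592) (l 16780136)) (l 16780272)) (b (a (b (a (l 16777440) (l 16777408)) (l 16777472)) (b (a (l 16777376) (b (l 16777328) (l 16777352))) (a (l 16777424) (l 16777384)))) (a (l 16777544) (b (l 16777448) (l 16777496))))))), by decide +kernel⟩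

def k186_A00pm_123_s3 : ∃ t, chk3 f_A00pm_123_s3 t 2034 2029 1 = true :=
  ⟨(a (l 16788728) (b (a (b (a (l 16783296) (a (l 16783168) (l 16783072))) (l 16788488)) (a (a (b (l 16777840) (l 16783248)) (b (l 16777760) (l 16783144))) (b (b (a (l 16777640) (l 16777568)) (l 16777704)) (l 16782984)))) (a (l 16777936) (b (a (l 16777864) (l 16783256)) (l 16777752))))), by decide +kernel⟩

def k187_A00pm_123_s3 : ∃ t, chk3 f_A00pm_123_s3 t 2035 2028 1 = true :=
  ⟨(a (b (l 4) (a (b (l 14) (a (b (a (b (a (b (l 14) (l 16777320)) (l 14)) (a (b (l 16777344) (l 16777360)) (b (c (l 16777312) (l 16777312)) (l 16777328)))) (l 14)) (a (b (a (l 16777400) (b (l 16777352) (l 16777376))) (a (l 16777448) (l 16777408))) (b (a (b (l 16777320) (l 16777344)) (b (l 14) (c (l 16777312) (l 16777312)))) (a (l 16777376) (b (l 16777328) (l 16777352)))))) (b (l 14) (a (b (l 14) (a (b (l 14) (l 16777320)) (l 14))) (l 14))))) (l 14))) (l 2)), by decide +kernel⟩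

def k188_A00pm_123_s3 : ∃ t, chk3 f_A00pm_123_s3 t 2035 4058 1 = true :=
  ⟨(a (a (b (a (b (a (b (l 16777472) (l 16777520)) (b (a (l 16777424) (l 16777384)) (l 16777448))) (a (l 16777592) (l 16780144))) (b (a (b (a (b (l 16777344) (l 16777368)) (b (c (l 16777312) (l 16777312)) (l 16777336))) (a (l 16777400) (c (l 16777368) (l 16777368)))) (b (l 14) (a (b (l 16777320) (l 16777344)) (l 14)))) (a (b (a (l 16777448) (l 16777408)) (l 16777472)) (b (a (l 16777376) (b (l 16777336) (l 16777352))) (a (l 16777424) (l 16777392)))))) (a (b (l 16780280) (l 16777752)) (b (a (l 16777544) (b (l 16777456) (l 16777504))) (a (l 16777648) (l 16777576))))) (a (b (b (l 14) (a (b (a (b (l 14) (l 16777320)) (l 14)) (a (b (l 16777344) (l 16777368)) (b (l 14) (l 16777336)))) (l 14))) (b (a (b (a (l 16777400) (c (l 16777368) (l 16777368))) (a (l 16777448) (l 16777416))) (b (a (b (l 16777320) (l 16777344)) (l 14)) (a (l 16777376) (b (l 16777336) (l 16777360))))) (a (c (l 16780120) (l 16780120)) (b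 (a (l 16777424) (l 16777392)) (l 16777456))))) (b (l 14) (b (a (b (l 14) (a (b (l 14) (l 16777328)) (l 14))) (l 14)) (a (b (a (b (l 16777344) (l 16777368)) (b (l 14) (l 16777336))) (a (l 16777400) (c (l 16777368) (l 16777368)))) (b (l 14) (a (b (l 16777328) (l 16777344)) (l 14)))))))) (a (l 14) (l 4))), by decide +kernel⟩

def k189_A00pm_123_s3 : ∃ t, chk3 f_A00pm_123_s3 t 2035 4059 1 = true :=
  ⟨(a (a (b (a (a (l 16783120) (l 16783024)) (b (l 16777704) (l 16777808))) (a (l 16777968) (a (l 16783208) (l 16783096)))) (b (a (b (a (l 16777600) (l 16780144)) (l 16780280)) (b (a (b (a (l 16777448) (l 16777416)) (l 16777480)) (b (a (l 16777384) (b (l 16777336) (l 16777360))) (a (l 16777424) (l 16777392)))) (a (l 16777552) (b (l 16777456) (l 16777504))))) (b (a (l 16777760) (a (l 16777648) (l 16777576))) (a (l 16783024) (l 16777712))))) (a (b (a (b (a (b (a (b (l 14) (l 16777328)) (l 14)) (a (b (l 16777352) (l 16777368)) (b (l 14) (l 16777336)))) (l 14)) (a (b (a (l 16777408) (c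 (l 16777368) (l 16777368))) (a (l 16777448) (l 16777416))) (b (a (b (l 16777328) (l 16777352)) (l 14)) (a (l 16777384) (b (l 16777336) (l 16777360)))))) (l 14)) (a (b (a (l 16780128) (b (a (l 16777432) (l 16777392)) (l 16777456))) (a (l 16777600) (l 16780152))) (b (a (b (a (b (l 16777352) (l 16777376)) (b (l 14) (l 16777336))) (a (l 16777408) (l 16777376))) (b (l 14) (a (b (l 14) (l 16777352)) (l 14)))) (a (b (a (l 16777456) (l 16777416)) (l 16777480)) (b (a (l 16777384) (b (l 16777336) (l 16777360))) (a (l 16777432) (l 16777400))))))) (a (a (b (l 14) (b (l 14) (b (l 14) (a (b (l 16777352) (l 16777376)) (b (l 14) (l 16777344)))))) (l 14)) (l 14)))), by decide +kernel⟩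

def k190_A00pm_123_s3 : ∃ t, chk3 f_A00pm_123_s3 t 1017 1015 1 = true :=
  ⟨(a (b (l 16789752) (l 16781008)) (b (b (a (a (l 16788192) (b (a (l 16783216) (a (l 16783072) (l 16782976))) (l 16783176))) (b (a (a (b (l 16780288) (l 16777760)) (b (a (l 16777552) (b (l 16777456) (l 16777504))) (a (l 16777656) (l 16777576)))) (a (b (a (b (a (l 16777408) (l 16777376)) (a (l 16777456) (l 16777424))) (b (a (b (l 14) (l 16777352)) (l 14)) (a (l 16777384) (b (l 16777344) (l 16777360))))) (a (l 16780128) (b (a (l 16777432) (l 16777400)) (l 16777464)))) (b (l 14) (a (b (a (b (l 16777352) (l 16777376)) (b (l 14) (l 16777344))) (a (l 16777408) (l 16777376))) (b (l 14) (a (b (l 14) (l 16777352)) (l 14))))))) (a (b (a (l 16783032) (l 16777712)) (a (l 16783176) (l 16782984))) (a (b (a (l 16777608) (l 16780152)) (l 16780288)) (b (a (b (a (l 16777456) (l 16777424)) (l 16777488)) (b (a (l 16777384) (b (l 16777344) (l 16777368))) (a (l 16777432) (l 16777400)))) (a (l 16777560) (b (l 16777464) (l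 16777512)))))))) (a (l 16788664) (a (b (a (l 16777776) (l 16783168)) (l 16777672)) (b (b (a (l 16782952) (a (l 16777656) (l 16777584))) (a (l 16783056) (l 16777720))) (a (l 16783144) (a (l 16783120) (l 16783000))))))) (a (l 16779344) (b (l 16783176) (l 16778704))))), by decide +kernel⟩

def k191_A00pm_123_s3 : ∃ t, chk3 f_A00pm_123_s3 t 509 506 1 = true :=
  ⟨(l 2), by decide +kernel⟩

def k192_A00pm_123_s3 : ∃ t, chk3 f_A00pm_123_s3 t 1018 1014 1 = true :=
  ⟨(l 4), by decide +kernel⟩

def k193_A00pm_123_s3 : ∃ t, chk3 f_A00pm_123_s3 t 2036 2030 1 = true :=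
  ⟨(a (b (a (a (b (l 14) (b (a (b (l 14) (a (b (l 16777352) (l 16777376)) (b (l 14) (l 16777344)))) (l 14)) (a (b (a (l 16777408) (l 16777376)) (a (l 16777456) (l 16777424))) (b (a (b (l 14) (l 16777352)) (l 14)) (a (l 16777392) (b (l 14) (l 16777368))))))) (l 14)) (a (l 14) (l 4))) (b (b (a (a (a (l 16780136) (b (a (l 16777432) (l 16777400)) (l 16777464))) (a (b (a (b (l 16777352) (l 16777376)) (l 14)) (a (l 16777416) (l 16777376))) (b (l 14) (a (b (l 14) (l 16777360)) (l 14))))) (l 14)) (a (a (a (l 16777608) (l 16780160)) (a (b (a (l 16777456) (l 16777424)) (l 16777488)) (b (a (l 16777392) (b (l 14) (l 16777368))) (a (l 16777440) (l 16777400))))) (a (a (b (l 14) (a (b (l 16777360) (l 16777384)) (l 14))) (l 14)) (l 14)))) (b (a (a (l 16780296) (a (l 16777560) (b (l 16777464) (l 16777512)))) (a (a (b (a (l 16777416) (l 16777384)) (a (l 16777464) (l 16777424))) (b (a (b (l 14) (l 16777360)) (l 14)) (a (l 16777392) (b (l 14) (l 16777368))))) (l 14))) (a (a (l 16782936) (a (l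 16777664) (l 16777584))) (a (a (l 16780136) (b (a (l 16777440) (l 16777408)) (l 16777472))) (a (b (a (b (l 16777360) (l 16777384)) (l 14)) (a (l 16777416) (l 16777384))) (b (l 14) (a (b (l 14) (l 16777360)) (l 14))))))))) (b (l 2) (a (l 14) (l 4)))), by decide +kernel⟩

def k194_A00pm_123_s3 : ∃ t, chk3 f_A00pm_123_s3 t 4072 2031 1 = true :=
  ⟨(b (a (b (b (a (l 16783080) (c (l 16782912) (l 16782904))) (a (l 16777816) (l 16783008))) (a (l 16777672) (l 16783112))) (b (a (b (a (l 16777616) (l 16780160)) (l 16780296)) (b (a (b (a (l 16777464) (l 16777432)) (l 16777496)) (b (a (l 16777392) (b (l 14) (l 16777368))) (a (l 16777440) (l 16777408)))) (a (l 16777568) (b (l 16777472) (l 16777520))))) (b (a (l 16782936) (a (l 16777664) (l 16777592))) (a (l 16783096) (a (l 16777712) (l 16777688)))))) (a (l 16777952) (a (l 16777632) (b (a (l 16783088) (l 16783048)) (l 16777640))))), by decide +kernel⟩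

def k195_A00pm_123_s3 : ∃ t, chk3 f_A00pm_123_s3 t 4073 2031 1 = true :=
  ⟨(b (a (b (a (b (a (b (l 14) (a (b (l 16777360) (l 16777384)) (l 14))) (l 14)) (a (b (a (l 16777416) (l 16777384)) (a (l 16777464) (l 16777432))) (b (l 14) (a (l 16777392) (b (l 14) (l 16777376)))))) (l 14)) (a (b (a (l 16780144) (b (a (l 16777440) (l 16777408)) (l 16777472))) (a (l 16777616) (l 16780168))) (b (a (b (a (b (l 14) (l 16777384)) (l 14)) (a (l 16777416) (l 16777384))) (l 14)) (a (b (a (l 16777464) (l 16777432)) (l 16777496)) (b (a (l 16777400) (b (l 14) (l 16777376))) (a (l 16777440) (l 16777408))))))) (b (l 14) (b (l 14) (a (a (b (l 14) (a (b (l 14) (l 16777384)) (l 14))) (l 14)) (l 14))))) (a (b (b (a (a (l 16777720) (l 16777640)) (a (l 16777568) (b (l 16777472) (l 16777520)))) (a (l 16782960) (a (l 16782912) (l 16777592)))) (a (l 16783088) (a (l 16783024) (b (l 16777696) (l 16783008))))) (b (a (b (a (b (a (l 16777424) (l 16777384)) (a (l 16777472) (l 16777432))) (b (l 14) (a (l 16777400)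 (b (l 14) (l 16777376))))) (a (l 16780144) (b (a (l 16777448) (l 16777408)) (l 16777472)))) (b (l 14) (a (b (a (b (l 14) (l 16777384)) (l 14)) (a (l 16777424) (l 16777392))) (l 14)))) (b (a (a (l 16777624) (l 16780168)) (a (b (a (l 16777472) (l 16777432)) (l 16777504)) (b (a (l 16777400) (b (l 14) (l 16777376))) (a (l 16777448) (l 16777416))))) (a (a (l 16782904) (l 16777648)) (a (l 16777576) (b (l 16777480) (l 16777528)))))))), by decide +kernel⟩

def k196_A00pm_123_s3 : ∃ t, chk3 f_A00pm_123_s3 t 2037 1015 1 = true :=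
  ⟨(b (l 2) (a (b (l 4) (a (b (l 14) (a (b (a (b (l 14) (a (b (l 14) (l 16777392)) (l 14))) (l 14)) (a (b (a (l 16777424) (l 16777392)) (a (l 16777472) (l 16777440))) (b (l 14) (a (l 16777400) (l 14))))) (l 14))) (b (l 4) (l 14)))) (l 2))), by decide +kernel⟩

def k197_A00pm_123_s3 : ∃ t, chk3 f_A00pm_123_s3 t 1019 507 1 = true :=
  ⟨(l 2), by decide +kernel⟩

def k198_A00pm_123_s3 : ∃ t, chk3 f_A00pm_123_s3 t 255 126 1 = true :=
  ⟨(l 2), by decide +kernel⟩

def k199_A00pm_123_s3 : ∃ t, chk3 f_A00pm_123_s3 t 508 254 1 = true :=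
  ⟨(b (a (l 16810632) (b (l 16792968) (l 16807552))) (l 16837864)), by decide +kernel⟩

def k200_A00pm_123_s3 : ∃ t, chk3 f_A00pm_123_s3 t 2036 1016 1 = true :=
  ⟨(b (a (l 16789304) (b (a (l 16782952) (b (b (a (l 16782984) (a (l 16777672) (l 16777600))) (a (l 16777776) (a (l 16782984) (l 16782888)))) (a (l 16777600) (l 16783064)))) (l 16783424))) (l 16790408)), by decide +kernel⟩

def k201_A00pm_123_s3 : ∃ t, chk3 f_A00pm_123_s3 t 4074 2032 1 = true :=
  ⟨(b (b (a (a (b (a (l 16780144) (b (a (l 16777448) (l 16777416)) (l 16777480))) (a (l 16777624) (l 16780176))) (b (a (b (a (l 16777376) (l 14)) (a (l 16777424) (l 16777392))) (l 14)) (a (b (a (l 16777472) (l 16777440)) (l 16777504)) (b (a (l 16777400) (l 14)) (a (l 16777448) (l 16777416)))))) (b (l 14) (a (a (b (l 14) (a (l 16777384) (l 14))) (l 14)) (l 14)))) (b (a (a (a (l 16782912) (l 16777648)) (a (l 16777576) (b (l 16777480) (l 16777528)))) (a (a (b (a (l 16777424) (l 16777392)) (c (l 16777456) (l 16777456))) (b (l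 14) (a (l 16777408) (l 14)))) (l 14))) (a (a (l 16783008) (a (l 16782864) (l 16777600))) (a (a (l 16780152) (b (a (l 16777448) (l 16777416)) (l 16777480))) (a (b (a (l 16777384) (l 14)) (a (l 16777432) (l 16777392))) (l 14)))))) (a (b (b (a (l 16777672) (a (l 16783000) (l 16782888))) (l 16783016)) (l 16777656)) (b (b (a (a (l 16777624) (l 16777552)) (a (b (c (l 16777456) (l 16777456)) (l 16777504)) (b (a (l 16777408) (l 14)) (a (l 16777456) (l 16777416))))) (b (a (a (l 16777664) (l 16777632)) (a (l 16777552) (l 16777480))) (a (l 16782912) (l 16780192)))) (b (a (l 16783008) (a (l 16782864) (l 16777608))) (a (l 16777624) (l 16782960)))))), by decide +kernel⟩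

def k202_A00pm_123_s3 : ∃ t, chk3 f_A00pm_123_s3 t 4075 2032 1 = true :=
  ⟨(b (a (l 14) (l 4)) (a (b (a (b (l 14) (a (b (a (l 16777432) (l 16777392)) (l 16777464)) (b (l 14) (a (l 16777408) (l 14))))) (l 14)) (b (a (a (l 16780152) (b (a (l 16777456) (l 16777416)) (l 16777488))) (a (b (l 14) (a (l 16777432) (l 16777400))) (l 14))) (b (a (l 16780192) (a (l 16777464) (a (l 16777408) (l 14)))) (a (a (l 16777624) (l 16777584)) (a (l 16777512) (a (l 16777456) (l 16777424))))))) (l 14))), by decide +kernel⟩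

def k203_A00pm_123_s3 : ∃ t, chk3 f_A00pm_123_s3 t 2037 2033 1 = true :=
  ⟨(a (b (a (l 16778200) (l 16782944)) (l 16778712)) (b (a (b (a (a (l 16783000) (b (a (l 16782872) (l 16777608)) (l 16777728))) (b (a (l 16777584) (l 16780136)) (a (l 16782880) (a (l 16777600) (l 16777592))))) (a (l 16777544) (a (l 16777608) (l 16782984)))) (b (a (b (a (b (a (l 16777432) (l 16777400)) (l 16777464)) (b (l 14) (a (l 16777408) (l 14)))) (a (l 16780160) (b (a (l 16777456) (l 16777424)) (l 16777488)))) (b (l 14) (a (b (l 14) (a (l 16777432) (l 16777400))) (l 14)))) (b (a (a (a (l 16782848) (l 16777592)) (l 16777560)) (a (b (l 16777464) (l 16777512)) (b (a (l 16777416) (l 14)) (a (l 16777456) (l 16777424))))) (a (a (l 16782952) (b (l 16777592) (l 16782912))) (a (l 16780216) (l 16780136)))))) (b (a (l 16777760) (a (l 16782912) (b (a (l 16782912) (b (l 16777592) (l 16782840))) (l 16782960)))) (l 16783104)))), by decide +kernel⟩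

def k204_A00pm_123_s3 : ∃ t, chk3 f_A00pm_123_s3 t 1018 1017 1 = true :=
  ⟨(a (l 16803696) (b (a (l 16779984) (l 16784056)) (l 16791688))), by decide +kernel⟩

def k205_A00pm_123_s3 : ∃ t, chk3 f_A00pm_123_s3 t 1019 1016 1 = true :=
  ⟨(a (b (l 4) (a (b (a (b (l 14) (a (b (l 14) (a (b (a (l 16777440) (l 14)) (l 16777464)) (b (l 14) (a (l 16777416) (l 14))))) (l 14))) (b (l 4) (l 14))) (a (a (b (a (b (l 16780160) (b (l 16777576) (l 16782880))) (b (b (a (l 16777464) (l 16777424)) (l 16777488)) (l 16780192))) (a (l 16782904) (b (b (l 16782848) (l 16777672)) (l 16777592)))) (a (b (b (b (l 14) (a (l 16777440) (l 14))) (b (l 16777472) (l 16777520))) (b (a (a (l 16777576) (l 16777568)) (l 16777576)) (l 16782920))) (b (b (l 14) (b (a (l 16777416) (l 14)) (a (l 16777464) (l 16777424)))) (b (l 16780136) (b (l 16777560) (l 16782856)))))) (b (l 14) (a (b (a (b (a (l 16777440) (l 14)) (l 16777472)) (b (l 14) (a (l 16777416) (l 14)))) (a (l 16780168) (b (a (l 16777464) (l 16777432))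 (l 16777496)))) (b (l 14) (a (b (l 14) (a (l 16777440) (l 14))) (l 14))))))) (b (l 2) (a (l 14) (l 4))))) (l 2)), by decide +kernel⟩

def k206_A00pm_123_s3 : ∃ t, chk3 f_A00pm_123_s3 t 4076 2034 1 = true :=
  ⟨(b (a (b (a (l 16777640) (l 16782920)) (l 16777872)) (b (b (b (a (a (a (l 16777616) (l 16777584)) (l 16777544)) (a (l 16777472) (a (l 16777416) (l 14)))) (a (a (l 16777656) (l 16780168)) (a (l 16777520) (a (l 16777464) (l 16777432))))) (b (a (a (l 16777592) (l 16782872)) (a (l 16777568) (l 16777496))) (a (l 16777624) (a (a (l 16777624) (l 16777568)) (l 16777544))))) (b (a (l 16777528) (a (l 16777656) (b (a (l 16777584) (l 16777576)) (l 16782880)))) (l 16782744)))) (l 16783392)), by decide +kernel⟩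

def k207_A00pm_123_s3 : ∃ t, chk3 f_A00pm_123_s3 t 4077 2034 1 = true :=
  ⟨(b (a (b (a (b (l 14) (a (b (a (l 16777440) (l 14)) (l 16777472)) (b (l 14) (a (l 16777416) (l 14))))) (l 14)) (b (b (a (a (l 16777520) (a (l 16777464) (l 16777432))) (l 14)) (a (a (l 16780152) (l 16777496)) (a (a (l 16777448) (l 14)) (l 14)))) (b (a (a (a (l 16777632) (l 16777576)) (l 16777544)) (a (l 16777472) (l 14))) (a (a (l 16777624) (a (l 16777600) (l 16777552))) (a (l 16777520) (a (l 16777472) (l 16777432))))))) (l 14)) (a (b (b (b (a (l 16782896) (a (a (l 16777560) (l 16777552)) (l 16777496))) (a (l 16777544) (a (a (l 16777624) (l 16777584)) (l 16780136)))) (a (l 16777488) (a (l 16777552) (a (l 16782872) (b (l 16777544) (l 16777616)))))) (l 16782848)) (a (b (b (a (b (a (l 16777448) (l 14)) (l 16777480)) (l 14)) (a (b (l 16777528) (a (l 16777568) (l 16777544))) (b (a (l 16777472) (l 16777432)) (l 16777504)))) (b (a (a (l 16777560) (b (l 16777600) (l 16777560))) (a (b (l 16777536) (l 16777608))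 (b (l 16777536) (l 16780176)))) (l 16782832))) (b (b (l 14) (a (b (l 14) (a (l 16777448) (l 14))) (l 14))) (b (b (a (l 16777480) (l 14)) (a (l 16777528) (a (l 16777472) (l 16777440)))) (b (a (a (l 16777584) (l 16777528)) (l 16777504)) (a (l 16777608) (a (l 16780160) (l 16777536))))))))), by decide +kernel⟩

def k208_A00pm_123_s3 : ∃ t, chk3 f_A00pm_123_s3 t 2038 2035 1 = true :=
  ⟨(a (l 16789880) (b (a (l 16778160) (b (b (a (l 16777520) (a (l 16777512) (a (l 16777584) (b (l 16780192) (l 16777552))))) (l 16777568)) (l 16777840))) (l 16783928))), by decide +kernel⟩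

def k209_A00pm_123_s3 : ∃ t, chk3 f_A00pm_123_s3 t 2039 2034 1 = true :=
  ⟨(a (b (l 4) (a (b (l 14) (a (b (l 14) (a (b (a (l 16777448) (l 14)) (l 16777480)) (l 14))) (l 14))) (b (l 2) (l 14)))) (l 2)), by decide +kernel⟩

def k210_A00pm_123_s3 : ∃ t, chk3 f_A00pm_123_s3 t 4078 2035 1 = true :=
  ⟨(b (a (a (b (b (b (b (a (l 16777512) (l 16777440)) (a (l 16777504) (l 16777464))) (a (a (l 16777592) (l 16780152)) (l 16777504))) (b (a (l 16777584) (b (l 16780128) (a (l 16777584) (l 16777528)))) (a (l 16777512) (a (l 16777544) (l 16777576))))) (l 16782720)) (b (b (a (b (l 14) (a (l 16777448) (l 14))) (l 14)) (b (a (l 16777480) (l 14)) (a (a (l 16780136) (l 16777512)) (a (l 16777472) (l 14))))) (b (b (b (a (a (l 16777576) (l 16777528)) (l 16777496)) (a (l 16777584) (l 16777496))) (a (l 16777528) (a (l 16780184) (l 16777504)))) (a (l 16777480) (a (l 16777512) (l 16780208)))))) (b (l 14) (b (a (a (b (a (l 16777448) (l 14)) (l 16777480)) (l 14)) (l 14)) (b (a (b (a (l 16777488) (l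 16777448)) (a (a (l 16777552) (l 16777528)) (l 16777472))) (l 14)) (b (a (a (a (l 16777552) (l 16777528)) (l 16777496)) (l 14)) (a (a (l 16777576) (l 16780104)) (a (l 16777448) (l 14)))))))) (a (l 16783120) (a (b (a (l 16777464) (b (b (a (l 16777568) (a (l 16777528) (l 16777504))) (l 16777560)) (l 16777464))) (l 16777696)) (a (b (b (b (l 16780104) (a (a (l 16777552) (l 16777520)) (l 16777480))) (a (l 16777504) (b (l 16780184) (l 16777504)))) (l 16777520)) (b (a (b (b (l 14) (l 16777480)) (b (a (l 16777512) (l 16777496)) (l 16777560))) (b (l 14) (b (l 16777488) (a (l 16777544) (l 16777504))))) (l 16777456)))))), by decide +kernel⟩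

def k211_A00pm_123_s3 : ∃ t, chk3 f_A00pm_123_s3 t 4079 2035 1 = true :=
  ⟨(b (a (l 14) (l 2)) (a (b (a (a (b (l 14) (a (b (l 16777456) (l 16777480)) (b (l 14) (l 16777464)))) (l 14)) (l 14)) (a (b (b (b (a (a (l 16777528) (l 16777504)) (l 16777448)) (a (a (l 16777544) (l 16777504)) (l 16777472))) (a (l 16777560) (b (l 16780080) (a (l 16777536) (l 16777496))))) (a (l 16777456) (a (l 16777496) (a (l 16780176) (b (l 16780144) (l 16777504)))))) (a (a (b (b (l 14) (l 16777456)) (b (l 16780088) (l 16777552))) (b (l 14) (b (l 16777472) (a (l 16780136) (l 16777480))))) (a (b (l 14) (b (l 14) (l 16777480))) (l 14))))) (l 14))), by decide +kernel⟩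

def k212_A00pm_123_s3 : ∃ t, chk3 f_A00pm_123_s3 t 509 509 1 = true :=
  ⟨(a (b (l 16806448) (l 16831832)) (b (a (b (l 16791072) (l 16803536)) (b (a (b (l 16783624) (l 16779248)) (b (a (b (a (l 16777560) (b (a (a (l 16777464) (l 16777528)) (a (b (a (l 16777536) (l 16780128)) (l 16777496)) (b (l 16780080) (l 16780160)))) (l 16777432))) (l 16777792)) (b (a (b (a (b (a (l 16777456) (l 14)) (b (l 16780064) (a (l 16777504) (l 16777480)))) (l 14)) (b (a (b (a (l 16777528) (l 16777480)) (l 16780160)) (a (l 16780072) (l 14))) (a (l 16777480) (b (a (l 16777512) (l 16777480)) (a (l 16777512) (l 16777488)))))) (l 14)) (a (a (l 16777496) (a (l 16777424) (b (l 16780160) (l 16777432)))) (b (b (a (a (a (l 16780128) (l 16780096)) (l 16777448)) (l 14)) (b (a (a (l 16777496) (l 16780120)) (l 14)) (a (l 16777520) (a (l 16777472) (l 14))))) (a (l 16777440) (b (a (l 16777528) (a (l 16780112) (l 16780080))) (l 16777496))))))) (a (l 16778384) (b (a (l 16777792) (l 16777536)) (l 16778040))))) (a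 (l 16791112) (l 16784600)))) (l 16794736))), by decide +kernel⟩

def k213_A00pm_123_s3 : ∃ t, chk3 f_A00pm_123_s3 t 254 255 1 = true :=
  ⟨(b (a (l 16847680) (a (l 16838896) (l 16812008))) (b (l 16849416) (a (l 16901448) (l 16878720)))), by decide +kernel⟩

def k214_A00pm_123_s3 : ∃ t, chk3 f_A00pm_123_s3 t 510 508 1 = true :=
  ⟨(l 4), by decide +kernel⟩

def k215_A00pm_123_s3 : ∃ t, chk3 f_A00pm_123_s3 t 2040 2036 1 = true :=
  ⟨(a (b (a (a (a (b (l 14) (b (l 14) (b (l 14) (b (a (l 16780104) (l 14)) (a (l 16777512) (l 16777456)))))) (l 14)) (l 14)) (b (l 2) (l 14))) (a (a (b (b (a (a (l 16777448) (b (l 16780144) (l 16777456))) (b (b (l 14) (a (l 16780104) (l 14))) (b (a (l 16777504) (l 16780088)) (l 16780144)))) (l 16777416)) (l 16777648)) (b (b (l 14) (a (b (b (a (l 16780112) (l 14)) (a (l 16777488) (l 16780088))) (l 16780136)) (b (l 14) (b (l 14) (a (l 16777496) (l 14)))))) (a (l 16777464) (b (b (b (a (l 16777472) (l 16780096)) (l 16777496)) (l 16777440)) (l 16777440)))))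 (a (b (l 14) (b (a (b (l 14) (a (l 16780128) (b (l 14) (l 16780104)))) (l 14)) (a (a (l 16777416) (l 16777472)) (b (b (l 14) (a (l 16777496) (l 14))) (b (a (l 16777456) (l 16780112)) (l 16777448)))))) (l 14)))) (b (l 2) (a (b (l 4) (l 14)) (l 2)))), by decide +kernel⟩

def k216_A00pm_123_s3 : ∃ t, chk3 f_A00pm_123_s3 t 2040 2037 1 = true :=
  ⟨(a (b (a (l 16783320) (b (a (l 16780128) (b (a (a (l 16780104) (b (a (l 16780104) (l 14)) (l 16777440))) (b (l 14) (b (l 14) (a (l 16777464) (l 14))))) (b (a (l 16777392) (l 16780112)) (l 16777408)))) (a (l 16777880) (l 16777616)))) (l 16783856)) (b (a (b (a (a (a (b (l 14) (b (l 14) (l 16777440))) (l 14)) (l 14)) (l 14)) (a (a (l 16780056) (b (b (a (l 16780104) (l 14)) (l 16777456)) (l 16777408))) (b (l 14) (b (a (a (l 16777424) (l 14)) (l 14)) (a (l 16777400) (a (l 16777464) (l 14))))))) (l 14)) (a (b (a (l 16777736) (b (l 16780016) (l 16777576))) (l 16777984)) (b (a (b (b (l 14) (a (a (l 16777408) (l 14)) (l 14))) (b (a (l 16777384)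 (a (l 16777416) (l 14))) (l 16777376))) (l 14)) (a (l 16777584) (b (b (a (l 16780064) (l 14)) (a (l 16777368) (a (l 16777400) (l 14)))) (l 16777432))))))), by decide +kernel⟩

def k217_A00pm_123_s3 : ∃ t, chk3 f_A00pm_123_s3 t 2041 1018 1 = true :=
  ⟨(b (l 2) (a (b (l 4) (a (b (l 14) (b (l 14) (b (l 14) (a (a (l 16777392) (l 14)) (l 14))))) (b (l 2) (l 14)))) (l 2))), by decide +kernel⟩

def k218_A00pm_123_s3 : ∃ t, chk3 f_A00pm_123_s3 t 1020 1019 1 = true :=
  ⟨(a (b (a (l 16790456) (b (a (l 16778608) (b (l 16780448) (l 16778240))) (l 16784424))) (l 16791744)) (b (a (b (a (b (a (a (l 16777512) (a (l 16777424) (a (l 16780000) (b (l 14) (l 16777432))))) (b (l 14) (a (l 16777360) (a (a (l 16780040) (l 14)) (l 14))))) (a (l 16777816) (l 16780176))) (b (l 14) (a (b (b (l 14) (a (l 16777360) (l 14))) (l 16780016)) (l 14)))) (a (l 16783520) (b (a (l 16777664) (a (l 16780096) (b (l 14) (l 16777440)))) (l 16780536)))) (b (a (b (l 4) (l 14)) (l 2)) (a (b (a (a (a (b (l 14) (l 16777352))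 (l 14)) (l 14)) (l 14)) (a (b (l 16780048) (l 16777616)) (a (b (l 14) (l 16777424)) (l 14)))) (l 14)))) (a (b (l 16784080) (l 16790272)) (b (a (b (a (l 16777904) (l 16780248)) (l 16778168)) (b (a (b (a (l 16777352) (l 14)) (l 16780088)) (l 14)) (a (l 16777744) (a (l 16777544) (b (l 14) (l 16777512)))))) (a (l 16778824) (b (l 16780624) (l 16783680))))))), by decide +kernel⟩

def k219_A00pm_123_s3 : ∃ t, chk3 f_A00pm_123_s3 t 1021 509 1 = true :=
  ⟨(b (l 2) (a (b (l 4) (a (b (a (b (l 14) (a (a (b (l 14) (l 16777384)) (l 14)) (l 14))) (b (l 2) (l 14))) (a (b (a (l 16780208) (b (l 14) (a (l 16777488) (l 14)))) (a (l 16777992) (l 16777704))) (b (l 14) (a (b (a (l 16777416) (l 14)) (l 16777528)) (l 14))))) (b (l 2) (a (b (l 4) (l 14)) (l 2))))) (l 2))), by decide +kernel⟩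

def k220_A00pm_123_s3 : ∃ t, chk3 f_A00pm_123_s3 t 511 254 1 = true :=
  ⟨(l 2), by decide +kernel⟩

def k221_A00pm_123_s3 : ∃ t, chk3 f_A00pm_123_s3 t 510 255 1 = true :=
  ⟨(b (a (a (l 16797112) (b (b (a (l 16791760) (l 16785152)) (l 16793152)) (l 16806976))) (b (a (b (a (b (a (l 16783720) (b (a (l 16777824) (b (a (l 16777520) (l 14)) (l 16777640))) (l 16780712))) (l 16784312)) (b (a (b (a (a (b (l 14) (l 16777448)) (l 14)) (l 14)) (a (l 16780272) (b (l 14) (a (l 16777552) (l 14))))) (l 14)) (a (b (a (l 16783320) (l 16777776)) (l 16778360)) (b (a (b (a (l 16777472) (l 14)) (l 16777592)) (l 14)) (a (l 16777896) (b (a (l 16777584) (l 14)) (l 16777712))))))) (a (l 16785800) (b (a (l 16784296) (b (l 16780800) (l 16778632))) (l 16784928)))) (b (a (b (l 4) (a (b (l 14) (a (b (l 14) (a (l 16777504) (l 14))) (l 14))) (b (l 2) (l 14)))) (l 2)) (a (b (a (b (a (l 16780344) (b (l 14) (a (l 16777616) (l 14)))) (a (l 16778160) (l 16777848))) (b (l 14) (a (b (a (l 16777536) (l 14)) (l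 16777656)) (l 14)))) (a (l 16783920) (b (a (l 16777976) (b (a (l 16777648) (l 14)) (l 16777784))) (l 16780888)))) (b (a (b (l 4) (l 14)) (l 2)) (a (b (l 14) (a (l 16780416) (b (l 14) (a (l 16777680) (l 14))))) (l 14)))))) (a (b (l 16792432) (l 16784168)) (b (a (b (l 16784552) (l 16790824)) (b (a (b (l 16780696) (l 16783784)) (b (a (b (l 14) (l 16777728)) (l 14)) (b (a (l 16777944) (b (l 14) (l 16780312))) (l 16780624)))) (a (l 16784520) (b (l 16780976) (l 16778840))))) (l 16786424))))) (b (a (l 16792272) (a (l 16808624) (b (l 16793912) (l 16785752)))) (b (l 16813840) (a (l 16839840) (l 16828216))))), by decide +kernel⟩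

def k222_A00pm_123_s3 : ∃ t, chk3 f_A00pm_123_s3 t 511 510 1 = true :=
  ⟨(a (b (l 4) (a (b (a (b (a (l 14) (b (l 2) (l 14))) (a (b (a (l 16780488) (b (l 14) (b (l 14) (l 16780344)))) (l 16780776)) (b (l 14) (a (b (l 14) (c (l 16777760) (l 16780440))) (l 14))))) (b (l 2) (a (b (l 4) (l 14)) (l 2)))) (a (b (a (b (l 16783880) (l 16779144)) (b (b (a (l 16778016) (a (l 16777776) (l 14))) (l 16780704)) (a (l 16778616) (l 16778272)))) (l 16784784)) (b (a (b (l 14) (a (l 16780560) (b (l 14) (a (l 16777808) (l 14))))) (l 14)) (a (b (l 16780856) (l 16783976)) (b (a (b (l 14) (l 16780480)) (l 14)) (a (l 16780832) (a (l 16780576) (a (l 16780456) (l 16777752))))))))) (b (l 2) (a (b (l 4) (a (l 14) (b (l 2) (l 14)))) (l 2))))) (l 2)), by decide +kernel⟩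

def k223_A00pm_123_s3 : ∃ t, chk3 f_A00pm_123_s3 t 1022 511 1 = true :=
  ⟨(b (a (b (a (b (l 16780616) (l 16781720)) (b (a (l 16784752) (b (a (l 16778712) (l 16778352)) (l 16779040))) (l 16785448))) (l 16793128)) (b (a (b (a (b (a (l 16780624) (a (b (l 14) (l 16777872)) (l 14))) (l 16780944)) (b (l 14) (a (b (l 14) (l 16780544)) (l 14)))) (a (b (l 16778832) (l 16779360)) (b (a (l 16780912) (a (l 16780648) (b (l 14) (l 16777976)))) (a (l 16778808) (l 16778440))))) (b (a (b (l 4) (l 14)) (l 2)) (a (b (l 14) (a (b (l 16780576) (l 16778208)) (b (l 14) (a (l 16777936) (l 14))))) (l 14)))) (a (b (l 16785024) (l 16780896)) (b (a (b (a (l 16778592) (l 16780848)) (l 16778928)) (b (a (b (l 14) (l 16780608)) (l 14)) (a (l 16778368) (b (a (l 16777976) (l 14)) (l 16778136))))) (a (l 16779744) (b (a (l 16778904) (l 16778520)) (l 16779248))))))) (b (a (l 16784992) (a (l 16782624) (b (l 16785712) (l 16781616)))) (b (l 16795688) (a (l 16808664) (l 16802784))))), by decide +kernel⟩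

def k224_A00pm_123_s3 : ∃ t, chk3 f_A00pm_123_s3 t 1023 511 1 = true :=
  ⟨(b (a (b (l 4) (a (b (a (l 14) (b (l 2) (l 14))) (a (b (a (b (l 16778024) (l 16778280)) (b (l 14) (a (l 16778008) (l 14)))) (a (l 16778680) (l 16780920))) (b (l 14) (a (b (l 14) (l 16778056)) (l 14))))) (b (l 2) (a (b (l 4) (l 14)) (l 2))))) (l 2)) (a (b (a (b (a (b (l 16779024) (l 16779584)) (b (a (l 16778456) (b (a (l 16778040) (l 14)) (l 16778208))) (a (l 16779000) (l 16778608)))) (a (l 16780432) (l 16784880))) (b (a (b (l 14) (a (a (l 16778320) (l 16780752)) (b (l 14) (a (l 16778072) (l 14))))) (l 14)) (a (b (a (l 16778768) (l 16781000)) (l 16779128)) (b (a (b (l 14) (l 16778128)) (l 14)) (a (l 16778536) (b (a (l 16778104) (l 14)) (l 16778280))))))) (b (a (l 16781184) (a (l 16779976) (b (l 16781512) (l 16779464)))) (b (l 16786504) (a (l 16792984) (a (l 16791792) (l 16790936)))))) (b (a (b (l 4) (a (l 14) (b (l 2) (l 14)))) (l 2)) (a (b (a (b (a (b (l 16778160) (l 16778440)) (b (l 14) (c (l 16777992)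 (l 16778080)))) (a (l 16778856) (l 16781080))) (b (l 14) (a (b (l 14) (l 16778192)) (l 14)))) (b (a (l 16779224) (a (l 16778616) (b (c (l 16778024) (l 16778120)) (l 16778352)))) (b (a (l 16779664) (l 16778840)) (b (a (l 16779880) (l 16779064)) (a (l 16779992) (l 16784392)))))) (b (a (b (l 4) (l 14)) (l 2)) (a (b (l 14) (b (a (l 16778232) (l 14)) (b (a (l 16778448) (l 14)) (b (a (l 16778552) (l 16778144)) (a (l 16778608) (a (l 16778304) (l 14))))))) (l 14))))))), by decide +kernel⟩

theorem t225_A00pm_123_s3 : ∃ t, chk3 f_A00pm_123_s3 t 511 511 1 = true := ex3_a k223_A00pm_123_s3 k224_A00pm_123_s3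

theorem t226_A00pm_123_s3 : ∃ t, chk3 f_A00pm_123_s3 t 511 255 1 = true := ex3_b k222_A00pm_123_s3 t225_A00pm_123_s3

theorem t227_A00pm_123_s3 : ∃ t, chk3 f_A00pm_123_s3 t 255 255 1 = true := ex3_a k221_A00pm_123_s3 t226_A00pm_123_s3

theorem t228_A00pm_123_s3 : ∃ t, chk3 f_A00pm_123_s3 t 2040 1018 1 = true := ex3_b k215_A00pm_123_s3 k216_A00pm_123_s3

theorem t229_A00pm_123_s3 : ∃ t, chk3 f_A00pm_123_s3 t 1020 1018 1 = true := ex3_a t228_A00pm_123_s3 k217_A00pm_123_s3

theorem t230_A00pm_123_s3 : ∃ t, chk3 f_A00pm_123_s3 t 1020 509 1 = true := ex3_b t229_A00pm_123_s3 k218_A00pm_123_s3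

theorem t231_A00pm_123_s3 : ∃ t, chk3 f_A00pm_123_s3 t 510 509 1 = true := ex3_a t230_A00pm_123_s3 k219_A00pm_123_s3

theorem t232_A00pm_123_s3 : ∃ t, chk3 f_A00pm_123_s3 t 510 254 1 = true := ex3_b k214_A00pm_123_s3 t231_A00pm_123_s3

theorem t233_A00pm_123_s3 : ∃ t, chk3 f_A00pm_123_s3 t 255 254 1 = true := ex3_a t232_A00pm_123_s3 k220_A00pm_123_s3

theorem t234_A00pm_123_s3 : ∃ t, chk3 f_A00pm_123_s3 t 255 127 1 = true := ex3_b t233_A00pm_123_s3 t227_A00pm_123_s3

theorem t235_A00pm_123_s3 : ∃ t, chk3 f_A00pm_123_s3 t 2039 2035 1 = true := ex3_a k210_A00pm_123_s3 k211_A00pm_123_s3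

theorem t236_A00pm_123_s3 : ∃ t, chk3 f_A00pm_123_s3 t 2039 1017 1 = true := ex3_b k209_A00pm_123_s3 t235_A00pm_123_s3

theorem t237_A00pm_123_s3 : ∃ t, chk3 f_A00pm_123_s3 t 2038 2034 1 = true := ex3_a k206_A00pm_123_s3 k207_A00pm_123_s3

theorem t238_A00pm_123_s3 : ∃ t, chk3 f_A00pm_123_s3 t 2038 1017 1 = true := ex3_b t237_A00pm_123_s3 k208_A00pm_123_s3

theorem t239_A00pm_123_s3 : ∃ t, chk3 f_A00pm_123_s3 t 1019 1017 1 = true := ex3_a t238_A00pm_123_s3 t236_A00pm_123_s3

theorem t240_A00pm_123_s3 : ∃ t, chk3 f_A00pm_123_s3 t 1019 508 1 = true := ex3_b k205_A00pm_123_s3 t239_A00pm_123_s3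

theorem t241_A00pm_123_s3 : ∃ t, chk3 f_A00pm_123_s3 t 2037 2032 1 = true := ex3_a k201_A00pm_123_s3 k202_A00pm_123_s3

theorem t242_A00pm_123_s3 : ∃ t, chk3 f_A00pm_123_s3 t 2037 1016 1 = true := ex3_b t241_A00pm_123_s3 k203_A00pm_123_s3

theorem t243_A00pm_123_s3 : ∃ t, chk3 f_A00pm_123_s3 t 1018 1016 1 = true := ex3_a k200_A00pm_123_s3 t242_A00pm_123_s3

theorem t244_A00pm_123_s3 : ∃ t, chk3 f_A00pm_123_s3 t 1018 508 1 = true := ex3_b t243_A00pm_123_s3 k204_A00pm_123_s3

theorem t245_A00pm_123_s3 : ∃ t, chk3 f_A00pm_123_s3 t 509 508 1 = true := ex3_a t244_A00pm_123_s3 t240_A00pm_123_s3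

theorem t246_A00pm_123_s3 : ∃ t, chk3 f_A00pm_123_s3 t 509 254 1 = true := ex3_b t245_A00pm_123_s3 k212_A00pm_123_s3

theorem t247_A00pm_123_s3 : ∃ t, chk3 f_A00pm_123_s3 t 254 254 1 = true := ex3_a k199_A00pm_123_s3 t246_A00pm_123_s3

theorem t248_A00pm_123_s3 : ∃ t, chk3 f_A00pm_123_s3 t 254 127 1 = true := ex3_b t247_A00pm_123_s3 k213_A00pm_123_s3

theorem t249_A00pm_123_s3 : ∃ t, chk3 f_A00pm_123_s3 t 127 127 1 = true := ex3_a t248_A00pm_123_s3 t234_A00pm_123_s3

theorem t250_A00pm_123_s3 : ∃ t, chk3 f_A00pm_123_s3 t 2036 2031 1 = true := ex3_a k194_A00pm_123_s3 k195_A00pm_123_s3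

theorem t251_A00pm_123_s3 : ∃ t, chk3 f_A00pm_123_s3 t 2036 1015 1 = true := ex3_b k193_A00pm_123_s3 t250_A00pm_123_s3

theorem t252_A00pm_123_s3 : ∃ t, chk3 f_A00pm_123_s3 t 1018 1015 1 = true := ex3_a t251_A00pm_123_s3 k196_A00pm_123_s3

theorem t253_A00pm_123_s3 : ∃ t, chk3 f_A00pm_123_s3 t 1018 507 1 = true := ex3_b k192_A00pm_123_s3 t252_A00pm_123_s3

theorem t254_A00pm_123_s3 : ∃ t, chk3 f_A00pm_123_s3 t 509 507 1 = true := ex3_a t253_A00pm_123_s3 k197_A00pm_123_s3

theorem t255_A00pm_123_s3 : ∃ t, chk3 f_A00pm_123_s3 t 509 253 1 = true := ex3_b k191_A00pm_123_s3 t254_A00pm_123_s3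

theorem t256_A00pm_123_s3 : ∃ t, chk3 f_A00pm_123_s3 t 2035 2029 1 = true := ex3_b k188_A00pm_123_s3 k189_A00pm_123_s3

theorem t257_A00pm_123_s3 : ∃ t, chk3 f_A00pm_123_s3 t 2035 1014 1 = true := ex3_b k187_A00pm_123_s3 t256_A00pm_123_s3

theorem t258_A00pm_123_s3 : ∃ t, chk3 f_A00pm_123_s3 t 4069 2028 1 = true := ex3_a k184_A00pm_123_s3 k185_A00pm_123_s3

theorem t259_A00pm_123_s3 : ∃ t, chk3 f_A00pm_123_s3 t 2034 2028 1 = true := ex3_a k183_A00pm_123_s3 t258_A00pm_123_s3

theorem t260_A00pm_123_s3 : ∃ t, chk3 f_A00pm_123_s3 t 2034 1014 1 = true := ex3_b t259_A00pm_123_s3 k186_A00pm_123_s3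

theorem t261_A00pm_123_s3 : ∃ t, chk3 f_A00pm_123_s3 t 1017 1014 1 = true := ex3_a t260_A00pm_123_s3 t257_A00pm_123_s3

theorem t262_A00pm_123_s3 : ∃ t, chk3 f_A00pm_123_s3 t 1017 507 1 = true := ex3_b t261_A00pm_123_s3 k190_A00pm_123_s3

theorem t263_A00pm_123_s3 : ∃ t, chk3 f_A00pm_123_s3 t 508 507 1 = true := ex3_a k182_A00pm_123_s3 t262_A00pm_123_s3

theorem t264_A00pm_123_s3 : ∃ t, chk3 f_A00pm_123_s3 t 16275 8111 1 = true := ex3_b k178_A00pm_123_s3 k179_A00pm_123_s3

theorem t265_A00pm_123_s3 : ∃ t, chk3 f_A00pm_123_s3 t 8137 8111 1 = true := ex3_a k177_A00pm_123_s3 t264_A00pm_123_s3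

theorem t266_A00pm_123_s3 : ∃ t, chk3 f_A00pm_123_s3 t 16274 8110 1 = true := ex3_b k174_A00pm_123_s3 k175_A00pm_123_s3

theorem t267_A00pm_123_s3 : ∃ t, chk3 f_A00pm_123_s3 t 8137 8110 1 = true := ex3_a t266_A00pm_123_s3 k176_A00pm_123_s3

theorem t268_A00pm_123_s3 : ∃ t, chk3 f_A00pm_123_s3 t 8137 4055 1 = true := ex3_b t267_A00pm_123_s3 t265_A00pm_123_s3

theorem t269_A00pm_123_s3 : ∃ t, chk3 f_A00pm_123_s3 t 4068 4055 1 = true := ex3_a k173_A00pm_123_s3 t268_A00pm_123_s3

theorem t270_A00pm_123_s3 : ∃ t, chk3 f_A00pm_123_s3 t 16273 8109 1 = true := ex3_b k170_A00pm_123_s3 k171_A00pm_123_s3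

theorem t271_A00pm_123_s3 : ∃ t, chk3 f_A00pm_123_s3 t 8136 8109 1 = true := ex3_a k169_A00pm_123_s3 t270_A00pm_123_s3

theorem t272_A00pm_123_s3 : ∃ t, chk3 f_A00pm_123_s3 t 8136 4054 1 = true := ex3_b k168_A00pm_123_s3 t271_A00pm_123_s3

theorem t273_A00pm_123_s3 : ∃ t, chk3 f_A00pm_123_s3 t 4068 4054 1 = true := ex3_a t272_A00pm_123_s3 k172_A00pm_123_s3

theorem t274_A00pm_123_s3 : ∃ t, chk3 f_A00pm_123_s3 t 4068 2027 1 = true := ex3_b t273_A00pm_123_s3 t269_A00pm_123_s3

theorem t275_A00pm_123_s3 : ∃ t, chk3 f_A00pm_123_s3 t 2034 2027 1 = true := ex3_a t274_A00pm_123_s3 k180_A00pm_123_s3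

theorem t276_A00pm_123_s3 : ∃ t, chk3 f_A00pm_123_s3 t 2034 1013 1 = true := ex3_b k167_A00pm_123_s3 t275_A00pm_123_s3

theorem t277_A00pm_123_s3 : ∃ t, chk3 f_A00pm_123_s3 t 1017 1013 1 = true := ex3_a t276_A00pm_123_s3 k181_A00pm_123_s3

theorem t278_A00pm_123_s3 : ∃ t, chk3 f_A00pm_123_s3 t 1017 506 1 = true := ex3_b k166_A00pm_123_s3 t277_A00pm_123_s3

theorem t279_A00pm_123_s3 : ∃ t, chk3 f_A00pm_123_s3 t 16271 8108 1 = true := ex3_b k162_A00pm_123_s3 k163_A00pm_123_s3

theorem t280_A00pm_123_s3 : ∃ t, chk3 f_A00pm_123_s3 t 8135 8108 1 = true := ex3_a k161_A00pm_123_s3 t279_A00pm_123_s3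

theorem t281_A00pm_123_s3 : ∃ t, chk3 f_A00pm_123_s3 t 8135 4054 1 = true := ex3_b t280_A00pm_123_s3 k164_A00pm_123_s3

theorem t282_A00pm_123_s3 : ∃ t, chk3 f_A00pm_123_s3 t 4067 4054 1 = true := ex3_a k160_A00pm_123_s3 t281_A00pm_123_s3

theorem t283_A00pm_123_s3 : ∃ t, chk3 f_A00pm_123_s3 t 2033 4054 1 = true := ex3_a k159_A00pm_123_s3 t282_A00pm_123_s3

theorem t284_A00pm_123_s3 : ∃ t, chk3 f_A00pm_123_s3 t 2033 2027 1 = true := ex3_b t283_A00pm_123_s3 k165_A00pm_123_s3

theorem t285_A00pm_123_s3 : ∃ t, chk3 f_A00pm_123_s3 t 16270 8107 1 = true := ex3_b k156_A00pm_123_s3 k157_A00pm_123_s3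

theorem t286_A00pm_123_s3 : ∃ t, chk3 f_A00pm_123_s3 t 8135 8107 1 = true := ex3_a t285_A00pm_123_s3 k158_A00pm_123_s3

theorem t287_A00pm_123_s3 : ∃ t, chk3 f_A00pm_123_s3 t 8135 4053 1 = true := ex3_b k155_A00pm_123_s3 t286_A00pm_123_s3

theorem t288_A00pm_123_s3 : ∃ t, chk3 f_A00pm_123_s3 t 8134 8106 1 = true := ex3_a k152_A00pm_123_s3 k153_A00pm_123_s3

theorem t289_A00pm_123_s3 : ∃ t, chk3 f_A00pm_123_s3 t 8134 4053 1 = true := ex3_b t288_A00pm_123_s3 k154_A00pm_123_s3

theorem t290_A00pm_123_s3 : ∃ t, chk3 f_A00pm_123_s3 t 4067 4053 1 = true := ex3_a t289_A00pm_123_s3 t287_A00pm_123_s3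

theorem t291_A00pm_123_s3 : ∃ t, chk3 f_A00pm_123_s3 t 4067 2026 1 = true := ex3_b k151_A00pm_123_s3 t290_A00pm_123_s3

theorem t292_A00pm_123_s3 : ∃ t, chk3 f_A00pm_123_s3 t 16267 8105 1 = true := ex3_b k148_A00pm_123_s3 k149_A00pm_123_s3

theorem t293_A00pm_123_s3 : ∃ t, chk3 f_A00pm_123_s3 t 8133 8105 1 = true := ex3_a k147_A00pm_123_s3 t292_A00pm_123_s3

theorem t294_A00pm_123_s3 : ∃ t, chk3 f_A00pm_123_s3 t 8133 8104 1 = true := ex3_a k145_A00pm_123_s3 k146_A00pm_123_s3

theorem t295_A00pm_123_s3 : ∃ t, chk3 f_A00pm_123_s3 t 8133 4052 1 = true := ex3_b t294_A00pm_123_s3 t293_A00pm_123_s3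

theorem t296_A00pm_123_s3 : ∃ t, chk3 f_A00pm_123_s3 t 4066 4052 1 = true := ex3_a k144_A00pm_123_s3 t295_A00pm_123_s3

theorem t297_A00pm_123_s3 : ∃ t, chk3 f_A00pm_123_s3 t 4066 2026 1 = true := ex3_b t296_A00pm_123_s3 k150_A00pm_123_s3

theorem t298_A00pm_123_s3 : ∃ t, chk3 f_A00pm_123_s3 t 2033 2026 1 = true := ex3_a t297_A00pm_123_s3 t291_A00pm_123_s3

theorem t299_A00pm_123_s3 : ∃ t, chk3 f_A00pm_123_s3 t 2033 1013 1 = true := ex3_b t298_A00pm_123_s3 t284_A00pm_123_s3

theorem t300_A00pm_123_s3 : ∃ t, chk3 f_A00pm_123_s3 t 1016 1013 1 = true := ex3_a k143_A00pm_123_s3 t299_A00pm_123_s3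

theorem t301_A00pm_123_s3 : ∃ t, chk3 f_A00pm_123_s3 t 8132 4051 1 = true := ex3_a k139_A00pm_123_s3 k140_A00pm_123_s3

theorem t302_A00pm_123_s3 : ∃ t, chk3 f_A00pm_123_s3 t 4066 4051 1 = true := ex3_a t301_A00pm_123_s3 k141_A00pm_123_s3

theorem t303_A00pm_123_s3 : ∃ t, chk3 f_A00pm_123_s3 t 4066 2025 1 = true := ex3_b k138_A00pm_123_s3 t302_A00pm_123_s3

theorem t304_A00pm_123_s3 : ∃ t, chk3 f_A00pm_123_s3 t 2033 2025 1 = true := ex3_a t303_A00pm_123_s3 k142_A00pm_123_s3

theorem t305_A00pm_123_s3 : ∃ t, chk3 f_A00pm_123_s3 t 2033 1012 1 = true := ex3_b k137_A00pm_123_s3 t304_A00pm_123_s3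

theorem t306_A00pm_123_s3 : ∃ t, chk3 f_A00pm_123_s3 t 8131 8102 1 = true := ex3_a k134_A00pm_123_s3 k135_A00pm_123_s3

theorem t307_A00pm_123_s3 : ∃ t, chk3 f_A00pm_123_s3 t 8131 4051 1 = true := ex3_b t306_A00pm_123_s3 k136_A00pm_123_s3

theorem t308_A00pm_123_s3 : ∃ t, chk3 f_A00pm_123_s3 t 4065 4051 1 = true := ex3_a k133_A00pm_123_s3 t307_A00pm_123_s3

theorem t309_A00pm_123_s3 : ∃ t, chk3 f_A00pm_123_s3 t 8130 8100 1 = true := ex3_a k129_A00pm_123_s3 k130_A00pm_123_s3

theorem t310_A00pm_123_s3 : ∃ t, chk3 f_A00pm_123_s3 t 8130 4050 1 = true := ex3_b t309_A00pm_123_s3 k131_A00pm_123_s3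

theorem t311_A00pm_123_s3 : ∃ t, chk3 f_A00pm_123_s3 t 4065 4050 1 = true := ex3_a t310_A00pm_123_s3 k132_A00pm_123_s3

theorem t312_A00pm_123_s3 : ∃ t, chk3 f_A00pm_123_s3 t 4065 2025 1 = true := ex3_b t311_A00pm_123_s3 t308_A00pm_123_s3

theorem t313_A00pm_123_s3 : ∃ t, chk3 f_A00pm_123_s3 t 2032 2025 1 = true := ex3_a k128_A00pm_123_s3 t312_A00pm_123_s3

theorem t314_A00pm_123_s3 : ∃ t, chk3 f_A00pm_123_s3 t 8129 4049 1 = true := ex3_b k125_A00pm_123_s3 k126_A00pm_123_s3

theorem t315_A00pm_123_s3 : ∃ t, chk3 f_A00pm_123_s3 t 4064 4049 1 = true := ex3_a k124_A00pm_123_s3 t314_A00pm_123_s3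

theorem t316_A00pm_123_s3 : ∃ t, chk3 f_A00pm_123_s3 t 8128 4048 1 = true := ex3_a k121_A00pm_123_s3 k122_A00pm_123_s3

theorem t317_A00pm_123_s3 : ∃ t, chk3 f_A00pm_123_s3 t 4064 4048 1 = true := ex3_a t316_A00pm_123_s3 k123_A00pm_123_s3

theorem t318_A00pm_123_s3 : ∃ t, chk3 f_A00pm_123_s3 t 4064 2024 1 = true := ex3_b t317_A00pm_123_s3 t315_A00pm_123_s3

theorem t319_A00pm_123_s3 : ∃ t, chk3 f_A00pm_123_s3 t 2032 2024 1 = true := ex3_a t318_A00pm_123_s3 k127_A00pm_123_s3

theorem t320_A00pm_123_s3 : ∃ t, chk3 f_A00pm_123_s3 t 2032 1012 1 = true := ex3_b t319_A00pm_123_s3 t313_A00pm_123_s3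

theorem t321_A00pm_123_s3 : ∃ t, chk3 f_A00pm_123_s3 t 1016 1012 1 = true := ex3_a t320_A00pm_123_s3 t305_A00pm_123_s3

theorem t322_A00pm_123_s3 : ∃ t, chk3 f_A00pm_123_s3 t 1016 506 1 = true := ex3_b t321_A00pm_123_s3 t300_A00pm_123_s3

theorem t323_A00pm_123_s3 : ∃ t, chk3 f_A00pm_123_s3 t 508 506 1 = true := ex3_a t322_A00pm_123_s3 t278_A00pm_123_s3

theorem t324_A00pm_123_s3 : ∃ t, chk3 f_A00pm_123_s3 t 508 253 1 = true := ex3_b t323_A00pm_123_s3 t263_A00pm_123_s3

theorem t325_A00pm_123_s3 : ∃ t, chk3 f_A00pm_123_s3 t 254 253 1 = true := ex3_a t324_A00pm_123_s3 t255_A00pm_123_s3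

theorem t326_A00pm_123_s3 : ∃ t, chk3 f_A00pm_123_s3 t 254 126 1 = true := ex3_b k120_A00pm_123_s3 t325_A00pm_123_s3

theorem t327_A00pm_123_s3 : ∃ t, chk3 f_A00pm_123_s3 t 127 126 1 = true := ex3_a t326_A00pm_123_s3 k198_A00pm_123_s3

theorem t328_A00pm_123_s3 : ∃ t, chk3 f_A00pm_123_s3 t 127 63 1 = true := ex3_b t327_A00pm_123_s3 t249_A00pm_123_s3

theorem t329_A00pm_123_s3 : ∃ t, chk3 f_A00pm_123_s3 t 8127 4048 1 = true := ex3_b k113_A00pm_123_s3 k114_A00pm_123_s3

theorem t330_A00pm_123_s3 : ∃ t, chk3 f_A00pm_123_s3 t 4063 4048 1 = true := ex3_a k112_A00pm_123_s3 t329_A00pm_123_s3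

theorem t331_A00pm_123_s3 : ∃ t, chk3 f_A00pm_123_s3 t 4063 2024 1 = true := ex3_b t330_A00pm_123_s3 k115_A00pm_123_s3

theorem t332_A00pm_123_s3 : ∃ t, chk3 f_A00pm_123_s3 t 2031 2024 1 = true := ex3_a k111_A00pm_123_s3 t331_A00pm_123_s3

theorem t333_A00pm_123_s3 : ∃ t, chk3 f_A00pm_123_s3 t 2031 1012 1 = true := ex3_b t332_A00pm_123_s3 k116_A00pm_123_s3

theorem t334_A00pm_123_s3 : ∃ t, chk3 f_A00pm_123_s3 t 1015 1012 1 = true := ex3_a k110_A00pm_123_s3 t333_A00pm_123_s3

theorem t335_A00pm_123_s3 : ∃ t, chk3 f_A00pm_123_s3 t 1015 506 1 = true := ex3_b t334_A00pm_123_s3 k117_A00pm_123_s3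

theorem t336_A00pm_123_s3 : ∃ t, chk3 f_A00pm_123_s3 t 507 506 1 = true := ex3_a k109_A00pm_123_s3 t335_A00pm_123_s3

theorem t337_A00pm_123_s3 : ∃ t, chk3 f_A00pm_123_s3 t 507 253 1 = true := ex3_b t336_A00pm_123_s3 k118_A00pm_123_s3

theorem t338_A00pm_123_s3 : ∃ t, chk3 f_A00pm_123_s3 t 253 253 1 = true := ex3_a k108_A00pm_123_s3 t337_A00pm_123_s3

theorem t339_A00pm_123_s3 : ∃ t, chk3 f_A00pm_123_s3 t 8126 4047 1 = true := ex3_b k105_A00pm_123_s3 k106_A00pm_123_s3

theorem t340_A00pm_123_s3 : ∃ t, chk3 f_A00pm_123_s3 t 4063 4047 1 = true := ex3_a t339_A00pm_123_s3 k107_A00pm_123_s3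

theorem t341_A00pm_123_s3 : ∃ t, chk3 f_A00pm_123_s3 t 4063 2023 1 = true := ex3_b k104_A00pm_123_s3 t340_A00pm_123_s3

theorem t342_A00pm_123_s3 : ∃ t, chk3 f_A00pm_123_s3 t 8125 4046 1 = true := ex3_b k101_A00pm_123_s3 k102_A00pm_123_s3

theorem t343_A00pm_123_s3 : ∃ t, chk3 f_A00pm_123_s3 t 4062 4046 1 = true := ex3_a k100_A00pm_123_s3 t342_A00pm_123_s3

theorem t344_A00pm_123_s3 : ∃ t, chk3 f_A00pm_123_s3 t 4062 2023 1 = true := ex3_b t343_A00pm_123_s3 k103_A00pm_123_s3

theorem t345_A00pm_123_s3 : ∃ t, chk3 f_A00pm_123_s3 t 2031 2023 1 = true := ex3_a t344_A00pm_123_s3 t341_A00pm_123_s3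

theorem t346_A00pm_123_s3 : ∃ t, chk3 f_A00pm_123_s3 t 2031 1011 1 = true := ex3_b k99_A00pm_123_s3 t345_A00pm_123_s3

theorem t347_A00pm_123_s3 : ∃ t, chk3 f_A00pm_123_s3 t 4061 4045 1 = true := ex3_a k96_A00pm_123_s3 k97_A00pm_123_s3

theorem t348_A00pm_123_s3 : ∃ t, chk3 f_A00pm_123_s3 t 8122 4044 1 = true := ex3_b k93_A00pm_123_s3 k94_A00pm_123_s3

theorem t349_A00pm_123_s3 : ∃ t, chk3 f_A00pm_123_s3 t 4061 4044 1 = true := ex3_a t348_A00pm_123_s3 k95_A00pm_123_s3

theorem t350_A00pm_123_s3 : ∃ t, chk3 f_A00pm_123_s3 t 4061 2022 1 = true := ex3_b t349_A00pm_123_s3 t347_A00pm_123_s3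

theorem t351_A00pm_123_s3 : ∃ t, chk3 f_A00pm_123_s3 t 2030 2022 1 = true := ex3_a k92_A00pm_123_s3 t350_A00pm_123_s3

theorem t352_A00pm_123_s3 : ∃ t, chk3 f_A00pm_123_s3 t 2030 1011 1 = true := ex3_b t351_A00pm_123_s3 k98_A00pm_123_s3

theorem t353_A00pm_123_s3 : ∃ t, chk3 f_A00pm_123_s3 t 1015 1011 1 = true := ex3_a t352_A00pm_123_s3 t346_A00pm_123_s3

theorem t354_A00pm_123_s3 : ∃ t, chk3 f_A00pm_123_s3 t 8120 2021 1 = true := ex3_b k87_A00pm_123_s3 k88_A00pm_123_s3

theorem t355_A00pm_123_s3 : ∃ t, chk3 f_A00pm_123_s3 t 4060 2021 1 = true := ex3_a t354_A00pm_123_s3 k89_A00pm_123_s3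

theorem t356_A00pm_123_s3 : ∃ t, chk3 f_A00pm_123_s3 t 2030 2021 1 = true := ex3_a t355_A00pm_123_s3 k90_A00pm_123_s3

theorem t357_A00pm_123_s3 : ∃ t, chk3 f_A00pm_123_s3 t 2030 1010 1 = true := ex3_b k86_A00pm_123_s3 t356_A00pm_123_s3

theorem t358_A00pm_123_s3 : ∃ t, chk3 f_A00pm_123_s3 t 1015 1010 1 = true := ex3_a t357_A00pm_123_s3 k91_A00pm_123_s3

theorem t359_A00pm_123_s3 : ∃ t, chk3 f_A00pm_123_s3 t 1015 505 1 = true := ex3_b t358_A00pm_123_s3 t353_A00pm_123_s3

theorem t360_A00pm_123_s3 : ∃ t, chk3 f_A00pm_123_s3 t 8119 1010 1 = true := ex3_a k83_A00pm_123_s3 k84_A00pm_123_s3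

theorem t361_A00pm_123_s3 : ∃ t, chk3 f_A00pm_123_s3 t 4059 1010 1 = true := ex3_a k82_A00pm_123_s3 t360_A00pm_123_s3

theorem t362_A00pm_123_s3 : ∃ t, chk3 f_A00pm_123_s3 t 4058 1010 1 = true := ex3_a k80_A00pm_123_s3 k81_A00pm_123_s3

theorem t363_A00pm_123_s3 : ∃ t, chk3 f_A00pm_123_s3 t 2029 1010 1 = true := ex3_a t362_A00pm_123_s3 t361_A00pm_123_s3

theorem t364_A00pm_123_s3 : ∃ t, chk3 f_A00pm_123_s3 t 1014 1010 1 = true := ex3_a k79_A00pm_123_s3 t363_A00pm_123_s3

theorem t365_A00pm_123_s3 : ∃ t, chk3 f_A00pm_123_s3 t 1014 505 1 = true := ex3_b t364_A00pm_123_s3 k85_A00pm_123_s3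

theorem t366_A00pm_123_s3 : ∃ t, chk3 f_A00pm_123_s3 t 507 505 1 = true := ex3_a t365_A00pm_123_s3 t359_A00pm_123_s3

theorem t367_A00pm_123_s3 : ∃ t, chk3 f_A00pm_123_s3 t 4057 2019 1 = true := ex3_b k75_A00pm_123_s3 k76_A00pm_123_s3

theorem t368_A00pm_123_s3 : ∃ t, chk3 f_A00pm_123_s3 t 2028 2019 1 = true := ex3_a k74_A00pm_123_s3 t367_A00pm_123_s3

theorem t369_A00pm_123_s3 : ∃ t, chk3 f_A00pm_123_s3 t 4056 2018 1 = true := ex3_b k71_A00pm_123_s3 k72_A00pm_123_s3

theorem t370_A00pm_123_s3 : ∃ t, chk3 f_A00pm_123_s3 t 2028 2018 1 = true := ex3_a t369_A00pm_123_s3 k73_A00pm_123_s3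

theorem t371_A00pm_123_s3 : ∃ t, chk3 f_A00pm_123_s3 t 2028 1009 1 = true := ex3_b t370_A00pm_123_s3 t368_A00pm_123_s3

theorem t372_A00pm_123_s3 : ∃ t, chk3 f_A00pm_123_s3 t 1014 1009 1 = true := ex3_a t371_A00pm_123_s3 k77_A00pm_123_s3

theorem t373_A00pm_123_s3 : ∃ t, chk3 f_A00pm_123_s3 t 1014 504 1 = true := ex3_b k70_A00pm_123_s3 t372_A00pm_123_s3

theorem t374_A00pm_123_s3 : ∃ t, chk3 f_A00pm_123_s3 t 507 504 1 = true := ex3_a t373_A00pm_123_s3 k78_A00pm_123_s3

theorem t375_A00pm_123_s3 : ∃ t, chk3 f_A00pm_123_s3 t 507 252 1 = true := ex3_b t374_A00pm_123_s3 t366_A00pm_123_s3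

theorem t376_A00pm_123_s3 : ∃ t, chk3 f_A00pm_123_s3 t 4054 1008 1 = true := ex3_a k65_A00pm_123_s3 k66_A00pm_123_s3

theorem t377_A00pm_123_s3 : ∃ t, chk3 f_A00pm_123_s3 t 2027 1008 1 = true := ex3_a t376_A00pm_123_s3 k67_A00pm_123_s3

theorem t378_A00pm_123_s3 : ∃ t, chk3 f_A00pm_123_s3 t 4053 2016 1 = true := ex3_b k62_A00pm_123_s3 k63_A00pm_123_s3

theorem t379_A00pm_123_s3 : ∃ t, chk3 f_A00pm_123_s3 t 2026 2016 1 = true := ex3_a k61_A00pm_123_s3 t378_A00pm_123_s3

theorem t380_A00pm_123_s3 : ∃ t, chk3 f_A00pm_123_s3 t 2026 1008 1 = true := ex3_b t379_A00pm_123_s3 k64_A00pm_123_s3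

theorem t381_A00pm_123_s3 : ∃ t, chk3 f_A00pm_123_s3 t 1013 1008 1 = true := ex3_a t380_A00pm_123_s3 t377_A00pm_123_s3

theorem t382_A00pm_123_s3 : ∃ t, chk3 f_A00pm_123_s3 t 1013 504 1 = true := ex3_b t381_A00pm_123_s3 k68_A00pm_123_s3

theorem t383_A00pm_123_s3 : ∃ t, chk3 f_A00pm_123_s3 t 506 504 1 = true := ex3_a k60_A00pm_123_s3 t382_A00pm_123_s3

theorem t384_A00pm_123_s3 : ∃ t, chk3 f_A00pm_123_s3 t 506 252 1 = true := ex3_b t383_A00pm_123_s3 k69_A00pm_123_s3

theorem t385_A00pm_123_s3 : ∃ t, chk3 f_A00pm_123_s3 t 253 252 1 = true := ex3_a t384_A00pm_123_s3 t375_A00pm_123_s3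

theorem t386_A00pm_123_s3 : ∃ t, chk3 f_A00pm_123_s3 t 253 126 1 = true := ex3_b t385_A00pm_123_s3 t338_A00pm_123_s3

theorem t387_A00pm_123_s3 : ∃ t, chk3 f_A00pm_123_s3 t 126 126 1 = true := ex3_a k59_A00pm_123_s3 t386_A00pm_123_s3

theorem t388_A00pm_123_s3 : ∃ t, chk3 f_A00pm_123_s3 t 126 63 1 = true := ex3_b t387_A00pm_123_s3 k119_A00pm_123_s3

theorem t389_A00pm_123_s3 : ∃ t, chk3 f_A00pm_123_s3 t 63 63 1 = true := ex3_a t388_A00pm_123_s3 t328_A00pm_123_s3

theorem t390_A00pm_123_s3 : ∃ t, chk3 f_A00pm_123_s3 t 2025 2014 1 = true := ex3_a k53_A00pm_123_s3 k54_A00pm_123_s3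

theorem t391_A00pm_123_s3 : ∃ t, chk3 f_A00pm_123_s3 t 2025 1007 1 = true := ex3_b t390_A00pm_123_s3 k55_A00pm_123_s3

theorem t392_A00pm_123_s3 : ∃ t, chk3 f_A00pm_123_s3 t 1012 1007 1 = true := ex3_a k52_A00pm_123_s3 t391_A00pm_123_s3

theorem t393_A00pm_123_s3 : ∃ t, chk3 f_A00pm_123_s3 t 2024 1006 1 = true := ex3_b k49_A00pm_123_s3 k50_A00pm_123_s3

theorem t394_A00pm_123_s3 : ∃ t, chk3 f_A00pm_123_s3 t 1012 1006 1 = true := ex3_a t393_A00pm_123_s3 k51_A00pm_123_s3

theorem t395_A00pm_123_s3 : ∃ t, chk3 f_A00pm_123_s3 t 1012 503 1 = true := ex3_b t394_A00pm_123_s3 t392_A00pm_123_s3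

theorem t396_A00pm_123_s3 : ∃ t, chk3 f_A00pm_123_s3 t 506 503 1 = true := ex3_a t395_A00pm_123_s3 k56_A00pm_123_s3

theorem t397_A00pm_123_s3 : ∃ t, chk3 f_A00pm_123_s3 t 506 251 1 = true := ex3_b k48_A00pm_123_s3 t396_A00pm_123_s3

theorem t398_A00pm_123_s3 : ∃ t, chk3 f_A00pm_123_s3 t 253 251 1 = true := ex3_a t397_A00pm_123_s3 k57_A00pm_123_s3

theorem t399_A00pm_123_s3 : ∃ t, chk3 f_A00pm_123_s3 t 253 125 1 = true := ex3_b k47_A00pm_123_s3 t398_A00pm_123_s3

theorem t400_A00pm_123_s3 : ∃ t, chk3 f_A00pm_123_s3 t 1011 1005 1 = true := ex3_a k44_A00pm_123_s3 k45_A00pm_123_s3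

theorem t401_A00pm_123_s3 : ∃ t, chk3 f_A00pm_123_s3 t 505 1005 1 = true := ex3_a k43_A00pm_123_s3 t400_A00pm_123_s3

theorem t402_A00pm_123_s3 : ∃ t, chk3 f_A00pm_123_s3 t 2021 1004 1 = true := ex3_b k40_A00pm_123_s3 k41_A00pm_123_s3

theorem t403_A00pm_123_s3 : ∃ t, chk3 f_A00pm_123_s3 t 1010 1004 1 = true := ex3_a k39_A00pm_123_s3 t402_A00pm_123_s3

theorem t404_A00pm_123_s3 : ∃ t, chk3 f_A00pm_123_s3 t 505 1004 1 = true := ex3_a t403_A00pm_123_s3 k42_A00pm_123_s3

theorem t405_A00pm_123_s3 : ∃ t, chk3 f_A00pm_123_s3 t 505 502 1 = true := ex3_b t404_A00pm_123_s3 t401_A00pm_123_s3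

theorem t406_A00pm_123_s3 : ∃ t, chk3 f_A00pm_123_s3 t 505 251 1 = true := ex3_b t405_A00pm_123_s3 k46_A00pm_123_s3

theorem t407_A00pm_123_s3 : ∃ t, chk3 f_A00pm_123_s3 t 252 251 1 = true := ex3_a k38_A00pm_123_s3 t406_A00pm_123_s3

theorem t408_A00pm_123_s3 : ∃ t, chk3 f_A00pm_123_s3 t 1009 1002 1 = true := ex3_a k34_A00pm_123_s3 k35_A00pm_123_s3

theorem t409_A00pm_123_s3 : ∃ t, chk3 f_A00pm_123_s3 t 1009 501 1 = true := ex3_b t408_A00pm_123_s3 k36_A00pm_123_s3

theorem t410_A00pm_123_s3 : ∃ t, chk3 f_A00pm_123_s3 t 504 501 1 = true := ex3_a k33_A00pm_123_s3 t409_A00pm_123_s3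

theorem t411_A00pm_123_s3 : ∃ t, chk3 f_A00pm_123_s3 t 1008 500 1 = true := ex3_b k30_A00pm_123_s3 k31_A00pm_123_s3

theorem t412_A00pm_123_s3 : ∃ t, chk3 f_A00pm_123_s3 t 504 500 1 = true := ex3_a t411_A00pm_123_s3 k32_A00pm_123_s3

theorem t413_A00pm_123_s3 : ∃ t, chk3 f_A00pm_123_s3 t 504 250 1 = true := ex3_b t412_A00pm_123_s3 t410_A00pm_123_s3

theorem t414_A00pm_123_s3 : ∃ t, chk3 f_A00pm_123_s3 t 252 250 1 = true := ex3_a t413_A00pm_123_s3 k37_A00pm_123_s3

theorem t415_A00pm_123_s3 : ∃ t, chk3 f_A00pm_123_s3 t 252 125 1 = true := ex3_b t414_A00pm_123_s3 t407_A00pm_123_s3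

theorem t416_A00pm_123_s3 : ∃ t, chk3 f_A00pm_123_s3 t 126 125 1 = true := ex3_a t415_A00pm_123_s3 t399_A00pm_123_s3

theorem t417_A00pm_123_s3 : ∃ t, chk3 f_A00pm_123_s3 t 126 62 1 = true := ex3_b k29_A00pm_123_s3 t416_A00pm_123_s3

theorem t418_A00pm_123_s3 : ∃ t, chk3 f_A00pm_123_s3 t 63 62 1 = true := ex3_a t417_A00pm_123_s3 k58_A00pm_123_s3

theorem t419_A00pm_123_s3 : ∃ t, chk3 f_A00pm_123_s3 t 63 31 1 = true := ex3_b t418_A00pm_123_s3 t389_A00pm_123_s3

theorem t420_A00pm_123_s3 : ∃ t, chk3 f_A00pm_123_s3 t 503 499 1 = true := ex3_a k25_A00pm_123_s3 k26_A00pm_123_s3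

theorem t421_A00pm_123_s3 : ∃ t, chk3 f_A00pm_123_s3 t 503 249 1 = true := ex3_b k24_A00pm_123_s3 t420_A00pm_123_s3

theorem t422_A00pm_123_s3 : ∃ t, chk3 f_A00pm_123_s3 t 251 249 1 = true := ex3_a k23_A00pm_123_s3 t421_A00pm_123_s3

theorem t423_A00pm_123_s3 : ∃ t, chk3 f_A00pm_123_s3 t 251 124 1 = true := ex3_b k22_A00pm_123_s3 t422_A00pm_123_s3

theorem t424_A00pm_123_s3 : ∃ t, chk3 f_A00pm_123_s3 t 250 248 1 = true := ex3_a k19_A00pm_123_s3 k20_A00pm_123_s3

theorem t425_A00pm_123_s3 : ∃ t, chk3 f_A00pm_123_s3 t 250 124 1 = true := ex3_b t424_A00pm_123_s3 k21_A00pm_123_s3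

theorem t426_A00pm_123_s3 : ∃ t, chk3 f_A00pm_123_s3 t 125 124 1 = true := ex3_a t425_A00pm_123_s3 t423_A00pm_123_s3

theorem t427_A00pm_123_s3 : ∃ t, chk3 f_A00pm_123_s3 t 125 62 1 = true := ex3_b t426_A00pm_123_s3 k27_A00pm_123_s3

theorem t428_A00pm_123_s3 : ∃ t, chk3 f_A00pm_123_s3 t 62 62 1 = true := ex3_a k18_A00pm_123_s3 t427_A00pm_123_s3

theorem t429_A00pm_123_s3 : ∃ t, chk3 f_A00pm_123_s3 t 62 31 1 = true := ex3_b t428_A00pm_123_s3 k28_A00pm_123_s3

theorem t430_A00pm_123_s3 : ∃ t, chk3 f_A00pm_123_s3 t 31 31 1 = true := ex3_a t429_A00pm_123_s3 t419_A00pm_123_s3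

theorem t431_A00pm_123_s3 : ∃ t, chk3 f_A00pm_123_s3 t 249 123 1 = true := ex3_b k14_A00pm_123_s3 k15_A00pm_123_s3

theorem t432_A00pm_123_s3 : ∃ t, chk3 f_A00pm_123_s3 t 124 123 1 = true := ex3_a k13_A00pm_123_s3 t431_A00pm_123_s3

theorem t433_A00pm_123_s3 : ∃ t, chk3 f_A00pm_123_s3 t 124 61 1 = true := ex3_b k12_A00pm_123_s3 t432_A00pm_123_s3

theorem t434_A00pm_123_s3 : ∃ t, chk3 f_A00pm_123_s3 t 62 61 1 = true := ex3_a t433_A00pm_123_s3 k16_A00pm_123_s3

theorem t435_A00pm_123_s3 : ∃ t, chk3 f_A00pm_123_s3 t 62 30 1 = true := ex3_b k11_A00pm_123_s3 t434_A00pm_123_s3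

theorem t436_A00pm_123_s3 : ∃ t, chk3 f_A00pm_123_s3 t 31 30 1 = true := ex3_a t435_A00pm_123_s3 k17_A00pm_123_s3

theorem t437_A00pm_123_s3 : ∃ t, chk3 f_A00pm_123_s3 t 31 15 1 = true := ex3_b t436_A00pm_123_s3 t430_A00pm_123_s3

theorem t438_A00pm_123_s3 : ∃ t, chk3 f_A00pm_123_s3 t 61 60 1 = true := ex3_a k7_A00pm_123_s3 k8_A00pm_123_s3

theorem t439_A00pm_123_s3 : ∃ t, chk3 f_A00pm_123_s3 t 61 30 1 = true := ex3_b t438_A00pm_123_s3 k9_A00pm_123_s3

theorem t440_A00pm_123_s3 : ∃ t, chk3 f_A00pm_123_s3 t 30 30 1 = true := ex3_a k6_A00pm_123_s3 t439_A00pm_123_s3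

theorem t441_A00pm_123_s3 : ∃ t, chk3 f_A00pm_123_s3 t 30 15 1 = true := ex3_b t440_A00pm_123_s3 k10_A00pm_123_s3

theorem t442_A00pm_123_s3 : ∃ t, chk3 f_A00pm_123_s3 t 15 15 1 = true := ex3_a t441_A00pm_123_s3 t437_A00pm_123_s3

theorem t443_A00pm_123_s3 : ∃ t, chk3 f_A00pm_123_s3 t 15 7 1 = true := ex3_b k5_A00pm_123_s3 t442_A00pm_123_s3

theorem t444_A00pm_123_s3 : ∃ t, chk3 f_A00pm_123_s3 t 7 7 1 = true := ex3_a k4_A00pm_123_s3 t443_A00pm_123_s3

theorem t445_A00pm_123_s3 : ∃ t, chk3 f_A00pm_123_s3 t 7 3 1 = true := ex3_b k3_A00pm_123_s3 t444_A00pm_123_s3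

theorem t446_A00pm_123_s3 : ∃ t, chk3 f_A00pm_123_s3 t 3 3 1 = true := ex3_a k2_A00pm_123_s3 t445_A00pm_123_s3

theorem t447_A00pm_123_s3 : ∃ t, chk3 f_A00pm_123_s3 t 3 1 1 = true := ex3_b k1_A00pm_123_s3 t446_A00pm_123_s3

theorem t448_A00pm_123_s3 : ∃ t, chk3 f_A00pm_123_s3 t 1 1 1 = true := ex3_a k0_A00pm_123_s3 t447_A00pm_123_s3

theorem c_A00pm_123_s3 : CertF 536870912 536870912 0 536870912 33554432 16777216 true true false .npn 1 2 3
    ndF0q1 ndF0q2 pcF3 cut_A00pm_123_s3 xt_A00pm_123_s3 :=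
  certFK0 (fam := true) (s1 := true) (s2 := false) (a := 1) (b := 2) (c := 3) (cn := .npn) (n1 := ndF0q1) (n2 := ndF0q2) (pc := pcF3) (cut := cut_A00pm_123_s3) (xt := xt_A00pm_123_s3) (P1 := 536870912) (W1 := 536870912) (P2 := 0) (W2 := 536870912) (P3 := 33554432) (W3 := 16777216)
    rfl rfl rfl t448_A00pm_123_s3

theorem s_A00pm_123_s3 {κ x : ℝ} (hκ : κ * h0 = ken x) (hx : ((33554432 : ℕ) : ℝ) / S ≤ x)
    (hx' : x ≤ (((33554432 : ℕ) : ℝ) + (16777216 : ℕ)) / S)
    (H : CutA (VF κ) PP tKF tL pcF (Cut.of [[⟨0, 1, 0, 7061502⟩, ⟨1, 1, 0, 7061502⟩, ⟨2, 2, 0, 184626⟩]]) 1 2 3 0 0 (sgb true) (sgb false) x) :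
    AltA (VF κ) PP tKF tL pcF [⟨4, 0, 0, 2845415833⟩] 1 2 3 0 0 (sgb true) (sgb false) x :=
  strip_altA (m := 2845415833) false rfl hκ covF01 covF02 hx hx' c_A00pm_123_s3 H ((okx hx hx').extA (T := tt) (sideF hx hx') hκ rfl rfl (.O 1 true) (.O 2 false) (Or.inr rfl))

end Pool.Agent.Strip051.G.I1_32_3_64.Tab.St.C
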