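import Pool.Agent.Strip051.G.I1_32_3_64.StF

/-! # Unit strips 6 (generated) -/

set_option linter.all false
set_option maxRecDepth 100000

namespace Pool.Agent.Strip051.G.I1_32_3_64.Tab.St.C

open Pool.Agent.Strip051.PB Pool.Agent.Strip051.PB.T Pool.Agent.StripNear Pool.Agent.Strip051.LC
open Pool.Agent.Strip051.G.I1_32_3_64.Tab Pool.Agent.Strip051.G.I1_32_3_64.Tab.St

noncomputable def cut_A00pm_202_s1 : Cut := Cut.of [[⟨4, 0, 0, 1449551462⟩], [⟨0, 1, 0, 33554432⟩, ⟨1, 0, 0, 33554432⟩, ⟨2, 1, 0, 33554432⟩], [⟨0, 1, 0, 6291456⟩, ⟨1, 0, 1, 16777216⟩, ⟨2, 1, 1, 16777216⟩, ⟨1, 0, 0, 67108864⟩, ⟨1, 1, 0, 1056964608⟩, ⟨2, 1, 0, 67108864⟩, ⟨2, 2, 0, 1056964608⟩]]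

noncomputable def f_A00pm_202_s1 : ℕ → ℕ → ℕ → ℕ → Bool := onCell 0 536870912 0 536870912 33554432 16777216
    (rowFK 0 true true false .pp 2 0 2 (qsf 0 536870912 0 536870912 2) ndF0q2 ndF0q0 pcF2 cut_A00pm_202_s1 Ext.none)

def k0_A00pm_202_s1 : ∃ t, chk3 f_A00pm_202_s1 t 2 1 1 = true :=
  ⟨(l 6), by decide +kernel⟩

def k1_A00pm_202_s1 : ∃ t, chk3 f_A00pm_202_s1 t 6 2 1 = true :=
  ⟨(b (b (a (l 6) (b (a (l 18906328) (b (l 18729568) (l 18741104))) (l 18729696))) (l 18695800)) (l 6)), by decide +kernel⟩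

def k2_A00pm_202_s1 : ∃ t, chk3 f_A00pm_202_s1 t 14 8 1 = true :=
  ⟨(b (a (b (a (l 18494216) (b (l 17777072) (l 18332584))) (l 18518240)) (a (b (b (c (l 17623000) (a (l 17428320) (b (l 17181896) (l 17544264)))) (l 17737448)) (l 18262840)) (b (b (b (c (a (l 17633904) (l 16996632)) (a (l 16881008) (l 16730168))) (c (l 17350248) (a (l 17212176) (l 16912488)))) (c (l 17643336) (b (l 16949448) (l 17371360)))) (b (l 17525984) (l 18091200))))) (a (l 18557912) (b (l 18305592) (l 18371728)))), by decide +kernel⟩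

def k3_A00pm_202_s1 : ∃ t, chk3 f_A00pm_202_s1 t 30 8 1 = true :=
  ⟨(b (b (a (a (b (b (l 16732264) (c (c (l 17432184) (l 16993288)) (l 16727544))) (c (b (l 17479272) (l 17733592)) (b (l 16857816) (l 17098936)))) (b (b (b (l 16736248) (l 16733888)) (l 16730272)) (b (l 16750120) (c (l 17315352) (l 16801520))))) (b (a (b (a (l 16737672) (l 14)) (a (l 16732680) (l 16734456))) (b (l 14) (a (l 16738992) (l 14)))) (a (b (l 16733600) (l 16725168)) (b (a (l 16730976) (b (l 16734312) (l 16731512))) (a (l 16725432) (l 16748224)))))) (b (b (a (c (l 17511856) (a (l 17372096) (l 17040072))) (a (c (l 17150112) (l 16744312)) (a (l 16789384) (l 16763400)))) (a (c (l 17880952) (l 17001384)) (c (a (l 17573816) (c (l 17456864) (l 16930912))) (a (l 16896472) (l 16771120))))) (a (a (l 17891384) (l 17480520)) (c (a (l 17765248) (b (l 17408664) (l 17628928))) (a (l 16910976) (b (l 16836648) (l 17022320)))))))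 (b (a (l 17687960) (b (a (l 17674992) (c (l 17785096) (l 17237272))) (l 17671200))) (a (l 18172136) (l 17995592)))), by decide +kernel⟩

def k4_A00pm_202_s1 : ∃ t, chk3 f_A00pm_202_s1 t 62 8 1 = true :=
  ⟨(b (a (b (b (l 14) (b (b (l 14) (a (l 16733600) (l 14))) (a (b (l 16730704) (l 16769712)) (b (l 16753904) (l 16771880))))) (b (a (b (l 16765264) (l 16722496)) (b (a (b (l 16768304) (l 16807336)) (l 16769616)) (l 16766200))) (b (a (c (l 17221896) (l 16792432)) (l 16734096)) (c (l 17159376) (l 16777696))))) (b (l 14) (a (b (b (a (l 16752456) (l 16756224)) (l 16752880)) (b (l 16742288) (c (l 17056672) (l 16737848)))) (b (b (b (l 14) (l 16761456)) (a (l 16737560) (l 16741288))) (b (l 16759088) (l 16753360)))))) (b (c (b (a (l 17523392) (a (l 17289064) (b (l 17102664) (l 17416608)))) (a (l 17791088) (l 17630264))) (b (a (b (l 16877752) (l 17195256)) (b (a (l 16868048) (l 16823664)) (a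 (l 17040952) (l 16929920)))) (a (l 17372936) (a (l 17244592) (l 16984952))))) (a (l 17835016) (a (l 17659800) (l 17342720))))), by decide +kernel⟩

def k5_A00pm_202_s1 : ∃ t, chk3 f_A00pm_202_s1 t 63 8 1 = true :=
  ⟨(a (b (b (l 14) (a (b (b (l 14) (a (l 16744968) (l 16753848))) (a (b (l 16743688) (l 16742504)) (b (l 16747352) (l 16746192)))) (b (l 14) (a (b (l 16750968) (l 16749832)) (b (l 16757160) (l 16753424)))))) (b (a (b (b (a (c (l 17009336) (l 16741232)) (l 16798480)) (c (l 17139584) (l 16812456))) (c (l 17495928) (b (l 16898456) (l 17122840)))) (b (b (a (l 16771136) (l 16752384)) (c (c (l 17295824) (a (l 17116784) (l 16972288))) (l 16751816))) (c (l 17063776) (a (b (l 16901672) (l 17051232)) (b (l 16762416) (l 16918176)))))) (b (c (l 17639424) (a (l 17292592) (l 17042848))) (l 17562152)))) (b (b (l 14) (b (l 14) (a (a (b (l 16760680) (l 16759592)) (b (l 14) (a (l 16759592)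 (l 16761320)))) (b (l 14) (c (l 22) (a (a (l 16762856) (a (l 16764128) (l 16764976))) (b (l 14) (c (l 22) (a (l 16765896) (b (l 14) (a (l 16767024) (a (l 16767648) (a (l 16767960) (c (l 22) (a (l 16768072) (b (l 14) (c (l 22) (l 16768088)))))))))))))))))) (b (c (b (l 22) (a (c (l 17304760) (b (l 22) (l 17272336))) (c (b (l 22) (l 17346152)) (l 22)))) (c (l 22) (b (b (b (b (b (b (a (l 16763144) (a (l 16763080) (a (l 16765616) (a (l 16766872) (a (l 16767496) (a (l 16767808) (c (l 22) (l 16767968)))))))) (l 22)) (l 22)) (l 22)) (l 22)) (l 22)) (l 22)))) (a (c (l 17350344) (b (c (l 17201944) (b (l 22) (l 17190632))) (l 17409224))) (c (a (l 17374872) (b (l 17323304) (l 17582864))) (b (c (b (l 22) (l 17254192)) (l 22)) (b (l 17202800) (l 17379160)))))))), by decide +kernel⟩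

def k6_A00pm_202_s1 : ∃ t, chk3 f_A00pm_202_s1 t 7 9 1 = true :=
  ⟨(a (l 18767616) (a (b (l 18211472) (l 18253680)) (b (a (l 18014528) (a (l 17806184) (a (l 17652136) (b (l 17504840) (l 17845912))))) (l 18087528)))), by decide +kernel⟩

def k7_A00pm_202_s1 : ∃ t, chk3 f_A00pm_202_s1 t 7 5 1 = true :=
  ⟨(b (a (l 18261296) (l 18419376)) (l 18432352)), by decide +kernel⟩

def k8_A00pm_202_s1 : ∃ t, chk3 f_A00pm_202_s1 t 3 3 1 = true :=
  ⟨(a (l 6) (l 6)), by decide +kernel⟩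

theorem t9_A00pm_202_s1 : ∃ t, chk3 f_A00pm_202_s1 t 31 8 1 = true := ex3_a k4_A00pm_202_s1 k5_A00pm_202_s1

theorem t10_A00pm_202_s1 : ∃ t, chk3 f_A00pm_202_s1 t 15 8 1 = true := ex3_a k3_A00pm_202_s1 t9_A00pm_202_s1

theorem t11_A00pm_202_s1 : ∃ t, chk3 f_A00pm_202_s1 t 7 8 1 = true := ex3_a k2_A00pm_202_s1 t10_A00pm_202_s1

theorem t12_A00pm_202_s1 : ∃ t, chk3 f_A00pm_202_s1 t 7 4 1 = true := ex3_b t11_A00pm_202_s1 k6_A00pm_202_s1

theorem t13_A00pm_202_s1 : ∃ t, chk3 f_A00pm_202_s1 t 7 2 1 = true := ex3_b t12_A00pm_202_s1 k7_A00pm_202_s1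

theorem t14_A00pm_202_s1 : ∃ t, chk3 f_A00pm_202_s1 t 3 2 1 = true := ex3_a k1_A00pm_202_s1 t13_A00pm_202_s1

theorem t15_A00pm_202_s1 : ∃ t, chk3 f_A00pm_202_s1 t 3 1 1 = true := ex3_b t14_A00pm_202_s1 k8_A00pm_202_s1

theorem t16_A00pm_202_s1 : ∃ t, chk3 f_A00pm_202_s1 t 1 1 1 = true := ex3_a k0_A00pm_202_s1 t15_A00pm_202_s1

theorem c_A00pm_202_s1 : CertF 0 536870912 0 536870912 33554432 16777216 true true false .pp 2 0 2
    ndF0q2 ndF0q0 pcF2 cut_A00pm_202_s1 Ext.none :=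
  certFK0 (fam := true) (s1 := true) (s2 := false) (a := 2) (b := 0) (c := 2) (cn := .pp) (n1 := ndF0q2) (n2 := ndF0q0) (pc := pcF2) (cut := cut_A00pm_202_s1) (xt := Ext.none) (P1 := 0) (W1 := 536870912) (P2 := 0) (W2 := 536870912) (P3 := 33554432) (W3 := 16777216)
    rfl rfl rfl t16_A00pm_202_s1

theorem s_A00pm_202_s1 {κ x : ℝ} (hκ : κ * h0 = ken x) (hx : ((33554432 : ℕ) : ℝ) / S ≤ x)
    (hx' : x ≤ (((33554432 : ℕ) : ℝ) + (16777216 : ℕ)) / S)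
    (H : CutA (VF κ) PP tKF tL pcF (Cut.of [[⟨0, 1, 0, 33554432⟩, ⟨1, 0, 0, 33554432⟩, ⟨2, 1, 0, 33554432⟩], [⟨0, 1, 0, 6291456⟩, ⟨1, 0, 1, 16777216⟩, ⟨2, 1, 1, 16777216⟩, ⟨1, 0, 0, 67108864⟩, ⟨1, 1, 0, 1056964608⟩, ⟨2, 1, 0, 67108864⟩, ⟨2, 2, 0, 1056964608⟩]]) 2 0 2 0 0 (sgb true) (sgb false) x) :
    AltA (VF κ) PP tKF tL pcF [⟨3, 0, 0, 1449551462⟩] 2 0 2 0 0 (sgb true) (sgb false) x :=
  strip_altA (m := 1449551462) true rfl hκ covF02 covF00 hx hx' c_A00pm_202_s1 H (noExt_A)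

noncomputable def cut_A00pm_202_s3 : Cut := Cut.of [[⟨3, 0, 0, 2845415833⟩], [⟨0, 1, 0, 33554432⟩, ⟨1, 0, 0, 33554432⟩, ⟨2, 1, 0, 33554432⟩], [⟨0, 1, 0, 6291456⟩, ⟨1, 0, 1, 16777216⟩, ⟨2, 1, 1, 16777216⟩, ⟨1, 0, 0, 67108864⟩, ⟨1, 1, 0, 1056964608⟩, ⟨2, 1, 0, 67108864⟩, ⟨2, 2, 0, 1056964608⟩]]

noncomputable def f_A00pm_202_s3 : ℕ → ℕ → ℕ → ℕ → Bool := onCell 0 536870912 1073741824 536870912 33554432 16777216
    (rowFK 1 true true false .pp 2 0 2 (qsf 0 536870912 0 536870912 2) ndF0q2 ndF0q0 pcF2 cut_A00pm_202_s3 Ext.none)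

def k0_A00pm_202_s3 : ∃ t, chk3 f_A00pm_202_s3 t 1 1 1 = true :=
  ⟨(a (b (l 6) (l 6)) (l 6)), by decide +kernel⟩

theorem c_A00pm_202_s3 : CertF 0 536870912 0 536870912 33554432 16777216 true true false .pp 2 0 2
    ndF0q2 ndF0q0 pcF2 cut_A00pm_202_s3 Ext.none :=
  certFK1 (fam := true) (s1 := true) (s2 := false) (a := 2) (b := 0) (c := 2) (cn := .pp) (n1 := ndF0q2) (n2 := ndF0q0) (pc := pcF2) (cut := cut_A00pm_202_s3) (xt := Ext.none) (P1 := 0) (W1 := 536870912) (P2 := 0) (W2 := 536870912) (P3 := 33554432) (W3 := 16777216)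
    rfl rfl rfl (fun _ => rfl) k0_A00pm_202_s3

theorem s_A00pm_202_s3 {κ x : ℝ} (hκ : κ * h0 = ken x) (hx : ((33554432 : ℕ) : ℝ) / S ≤ x)
    (hx' : x ≤ (((33554432 : ℕ) : ℝ) + (16777216 : ℕ)) / S)
    (H : CutA (VF κ) PP tKF tL pcF (Cut.of [[⟨0, 1, 0, 33554432⟩, ⟨1, 0, 0, 33554432⟩, ⟨2, 1, 0, 33554432⟩], [⟨0, 1, 0, 6291456⟩, ⟨1, 0, 1, 16777216⟩, ⟨2, 1, 1, 16777216⟩, ⟨1, 0, 0, 67108864⟩, ⟨1, 1, 0, 1056964608⟩, ⟨2, 1, 0, 67108864⟩, ⟨2, 2, 0, 1056964608⟩]]) 2 0 2 0 0 (sgb true) (sgb false) x) :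
    AltA (VF κ) PP tKF tL pcF [⟨4, 0, 0, 2845415833⟩] 2 0 2 0 0 (sgb true) (sgb false) x :=
  strip_altA (m := 2845415833) false rfl hκ covF02 covF00 hx hx' c_A00pm_202_s3 H (noExt_A)

noncomputable def cut_A00pm_203_s1 : Cut := Cut.of [[⟨4, 0, 0, 1449551462⟩]]

noncomputable def f_A00pm_203_s1 : ℕ → ℕ → ℕ → ℕ → Bool := onCell 0 536870912 1610612736 536870912 33554432 16777216
    (rowFK 1 true true false .up 2 0 3 (qsf 0 536870912 0 536870912 3) ndF0q2 ndF0q0 pcF3 cut_A00pm_203_s1 Ext.none)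

def k0_A00pm_203_s1 : ∃ t, chk3 f_A00pm_203_s1 t 1 1 1 = true :=
  ⟨(l 6), by decide +kernel⟩

theorem c_A00pm_203_s1 : CertF 0 536870912 0 536870912 33554432 16777216 true true false .up 2 0 3
    ndF0q2 ndF0q0 pcF3 cut_A00pm_203_s1 Ext.none :=
  certFK1 (fam := true) (s1 := true) (s2 := false) (a := 2) (b := 0) (c := 3) (cn := .up) (n1 := ndF0q2) (n2 := ndF0q0) (pc := pcF3) (cut := cut_A00pm_203_s1) (xt := Ext.none) (P1 := 0) (W1 := 536870912) (P2 := 0) (W2 := 536870912) (P3 := 33554432) (W3 := 16777216)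
    rfl rfl rfl (fun _ => rfl) k0_A00pm_203_s1

theorem s_A00pm_203_s1 {κ x : ℝ} (hκ : κ * h0 = ken x) (hx : ((33554432 : ℕ) : ℝ) / S ≤ x)
    (hx' : x ≤ (((33554432 : ℕ) : ℝ) + (16777216 : ℕ)) / S) :
    AltA (VF κ) PP tKF tL pcF [⟨3, 0, 0, 1449551462⟩] 2 0 3 0 0 (sgb true) (sgb false) x :=
  strip_altA (m := 1449551462) true rfl hκ covF02 covF00 hx hx' c_A00pm_203_s1 cutA_nil (noExt_A)

noncomputable def cut_A00pm_203_s3 : Cut := Cut.of [[⟨3, 0, 0, 2845415833⟩]]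

noncomputable def f_A00pm_203_s3 : ℕ → ℕ → ℕ → ℕ → Bool := onCell 0 536870912 0 536870912 33554432 16777216
    (rowFK 0 true true false .up 2 0 3 (qsf 0 536870912 0 536870912 3) ndF0q2 ndF0q0 pcF3 cut_A00pm_203_s3 Ext.none)

def k0_A00pm_203_s3 : ∃ t, chk3 f_A00pm_203_s3 t 1 1 1 = true :=
  ⟨(a (b (l 1) (b (a (b (l 1) (l 17370520)) (l 6)) (a (a (b (l 17191776) (l 17208584)) (l 17641480)) (a (l 6) (l 6))))) (l 6)), by decide +kernel⟩

theorem c_A00pm_203_s3 : CertF 0 536870912 0 536870912 33554432 16777216 true true false .up 2 0 3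
    ndF0q2 ndF0q0 pcF3 cut_A00pm_203_s3 Ext.none :=
  certFK0 (fam := true) (s1 := true) (s2 := false) (a := 2) (b := 0) (c := 3) (cn := .up) (n1 := ndF0q2) (n2 := ndF0q0) (pc := pcF3) (cut := cut_A00pm_203_s3) (xt := Ext.none) (P1 := 0) (W1 := 536870912) (P2 := 0) (W2 := 536870912) (P3 := 33554432) (W3 := 16777216)
    rfl rfl rfl k0_A00pm_203_s3

theorem s_A00pm_203_s3 {κ x : ℝ} (hκ : κ * h0 = ken x) (hx : ((33554432 : ℕ) : ℝ) / S ≤ x)
    (hx' : x ≤ (((33554432 : ℕ) : ℝ) + (16777216 : ℕ)) / S) :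
    AltA (VF κ) PP tKF tL pcF [⟨4, 0, 0, 2845415833⟩] 2 0 3 0 0 (sgb true) (sgb false) x :=
  strip_altA (m := 2845415833) false rfl hκ covF02 covF00 hx hx' c_A00pm_203_s3 cutA_nil (noExt_A)

noncomputable def cut_A00pm_213_s1 : Cut := Cut.of [[⟨4, 0, 0, 1449551462⟩], [⟨0, 1, 0, 7061502⟩, ⟨1, 1, 0, 7061502⟩, ⟨2, 2, 0, 184626⟩]]

noncomputable def f_A00pm_213_s1 : ℕ → ℕ → ℕ → ℕ → Bool := onCell 0 536870912 536870912 536870912 33554432 16777216
    (rowFK 0 true true false .pnn 2 1 3 (qsf 0 536870912 536870912 536870912 3) ndF0q2 ndF0q1 pcF3 cut_A00pm_213_s1 Ext.none)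

def k0_A00pm_213_s1 : ∃ t, chk3 f_A00pm_213_s1 t 1 1 1 = true :=
  ⟨(l 6), by decide +kernel⟩

theorem c_A00pm_213_s1 : CertF 0 536870912 536870912 536870912 33554432 16777216 true true false .pnn 2 1 3
    ndF0q2 ndF0q1 pcF3 cut_A00pm_213_s1 Ext.none :=
  certFK0 (fam := true) (s1 := true) (s2 := false) (a := 2) (b := 1) (c := 3) (cn := .pnn) (n1 := ndF0q2) (n2 := ndF0q1) (pc := pcF3) (cut := cut_A00pm_213_s1) (xt := Ext.none) (P1 := 0) (W1 := 536870912) (P2 := 536870912) (W2 := 536870912) (P3 := 33554432) (W3 := 16777216)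
    rfl rfl rfl k0_A00pm_213_s1

theorem s_A00pm_213_s1 {κ x : ℝ} (hκ : κ * h0 = ken x) (hx : ((33554432 : ℕ) : ℝ) / S ≤ x)
    (hx' : x ≤ (((33554432 : ℕ) : ℝ) + (16777216 : ℕ)) / S)
    (H : CutA (VF κ) PP tKF tL pcF (Cut.of [[⟨0, 1, 0, 7061502⟩, ⟨1, 1, 0, 7061502⟩, ⟨2, 2, 0, 184626⟩]]) 2 1 3 0 0 (sgb true) (sgb false) x) :
    AltA (VF κ) PP tKF tL pcF [⟨3, 0, 0, 1449551462⟩] 2 1 3 0 0 (sgb true) (sgb false) x :=
  strip_altA (m := 1449551462) true rfl hκ covF02 covF01 hx hx' c_A00pm_213_s1 H (noExt_A)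

end Pool.Agent.Strip051.G.I1_32_3_64.Tab.St.C
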