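import Pool.Agent.Strip051.G.I1_32_3_64.StF

/-! # Unit strips 7 (generated) -/

set_option linter.all false
set_option maxRecDepth 100000

namespace Pool.Agent.Strip051.G.I1_32_3_64.Tab.St.C

open Pool.Agent.Strip051.PB Pool.Agent.Strip051.PB.T Pool.Agent.StripNear Pool.Agent.Strip051.LC
open Pool.Agent.Strip051.G.I1_32_3_64.Tab Pool.Agent.Strip051.G.I1_32_3_64.Tab.St

noncomputable def cut_A00pm_213_s3 : Cut := Cut.of [[⟨3, 0, 0, 2845415833⟩], [⟨0, 1, 0, 7061502⟩, ⟨1, 1, 0, 7061502⟩, ⟨2, 2, 0, 184626⟩]]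

noncomputable def xt_A00pm_213_s3 : Ext := strExt dd true true false .u2 .u0m .s2m .pnn 2 1 3 rfl rfl gl3 vv ndF0q2 ndF0q1

noncomputable def f_A00pm_213_s3 : ℕ → ℕ → ℕ → ℕ → Bool := onCell 0 536870912 536870912 536870912 33554432 16777216
    (rowFK 0 true true false .pnn 2 1 3 (qsf 0 536870912 536870912 536870912 3) ndF0q2 ndF0q1 pcF3 cut_A00pm_213_s3 xt_A00pm_213_s3)

def k0_A00pm_213_s3 : ∃ t, chk3 f_A00pm_213_s3 t 2 1 1 = true :=
  ⟨(b (a (b (b (a (l 545531151) (b (l 17166152) (l 17075112))) (a (l 544983823) (b (l 17071936) (l 17030976)))) (b (a (b (l 544453391) (l 4)) (b (a (l 544416527) (l 16939376)) (l 542172431))) (a (l 4) (b (l 541431567) (l 4))))) (b (b (l 17703064) (a (l 16993576) (l 17068456))) (b (a (a (b (l 16888976) (l 16909592)) (l 17053536)) (l 17221664)) (a (b (a (l 540201743) (l 16889016)) (a (b (l 540016655) (l 4)) (l 541466895))) (a (b (l 16947736) (b (l 16929344) (l 542392335))) (l 17174120)))))) (a (l 4) (b (b (b (a (a (l 4) (b (l 541575439) (l 4)))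 (a (b (l 542820879) (l 543071503)) (b (l 16955904) (l 544473871)))) (a (l 4) (b (a (l 543183631) (l 544928271)) (a (l 4) (l 544921103))))) (l 4)) (l 4)))), by decide +kernel⟩

def k1_A00pm_213_s3 : ∃ t, chk3 f_A00pm_213_s3 t 3 2 1 = true :=
  ⟨(b (a (l 6) (l 6)) (a (b (a (l 17472536) (l 6)) (a (b (a (l 17037072) (l 17151936)) (l 17239528)) (l 17549520))) (a (l 6) (l 6)))), by decide +kernel⟩

def k2_A00pm_213_s3 : ∃ t, chk3 f_A00pm_213_s3 t 3 6 1 = true :=
  ⟨(a (b (b (a (b (l 17205768) (l 17251968)) (a (l 17213648) (l 17249528))) (a (a (b (l 546560271) (l 547208975)) (b (l 17015016) (l 17039576))) (a (l 17294336) (l 17305736)))) (a (b (a (b (a (l 546003983) (l 546871567)) (a (l 4) (l 546389007))) (b (a (l 547687439) (l 17005464)) (a (l 547116047) (l 547881999)))) (a (l 4) (b (a (b (l 546531087) (l 4)) (l 547099407)) (b (a (l 4) (l 546323983)) (l 4))))) (b (b (a (l 17109280) (l 17236592)) (a (a (l 16998312) (l 16982448)) (l 17248648))) (a (b (a (l 547889679) (l 16986728))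 (a (b (l 547143183) (l 546567439)) (b (l 547836687) (l 547273743)))) (b (a (l 16967768) (l 17035384)) (a (a (l 16954312) (l 16983288)) (l 17028752))))))) (b (a (l 17502880) (a (l 6) (l 6))) (a (a (b (l 17217912) (b (l 17156088) (l 17175264))) (l 17360392)) (a (l 17253392) (b (l 17479296) (a (l 17035064) (l 17376088))))))), by decide +kernel⟩

def k3_A00pm_213_s3 : ∃ t, chk3 f_A00pm_213_s3 t 6 7 1 = true :=
  ⟨(a (l 4) (b (b (b (a (a (l 4) (a (b (l 546444559) (l 4)) (b (l 546423823) (l 545793807)))) (b (a (l 546946063) (l 16881120)) (a (a (l 545931279) (l 546086159)) (a (l 16915056) (l 16855984))))) (a (l 4) (a (b (a (l 545203215) (l 545340943)) (l 4)) (b (a (l 545528591) (l 545704463)) (a (b (l 544983567) (l 544622095)) (l 546301711)))))) (a (l 4) (b (b (a (l 4) (a (l 4) (b (l 544436239) (a (l 4) (l 544118287))))) (l 4)) (l 4)))) (l 2))), by decide +kernel⟩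

def k4_A00pm_213_s3 : ∃ t, chk3 f_A00pm_213_s3 t 7 14 1 = true :=
  ⟨(a (b (a (b (a (l 17001096) (a (l 17041200) (l 16969248))) (a (b (l 16941904) (a (l 546278415) (l 16919952))) (b (l 16992024) (l 16956440)))) (a (l 17161096) (l 16982968))) (a (b (a (b (a (b (l 544644111) (l 545076239)) (b (l 16897168) (l 544506895))) (a (b (a (l 4) (l 543954191)) (l 4)) (b (l 545469711) (a (l 543681551) (l 543812367))))) (b (b (l 16930264) (l 16914160)) (a (b (l 16847504) (a (l 543947023) (l 16818136))) (l 16860592)))) (a (b (b (a (l 4) (a (l 4) (l 543670031))) (l 4)) (l 4)) (b (a (b (a (l 543547151) (l 543694351)) (a (l 4) (l 543542287))) (b (a (l 543845903) (l 16802968)) (a (l 543437583) (l 543871247)))) (a (l 4) (b (a (b (l 543150863) (l 4)) (l 544246031)) (a (l 4) (b (l 542739727) (l 4)))))))) (a (a (b (b (l 16873248) (l 16840136)) (b (b (l 16817648) (a (l 16883264) (l 16808752))) (b (a (l 543355407) (l 16837856)) (a (b (l 543066895) (l 543369999)) (b (l 543256335) (l 543036175))))))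 (b (l 16954336) (b (l 16915032) (b (l 16893608) (a (l 543838991) (l 16801336)))))) (b (l 16948608) (b (l 16930480) (a (l 16883568) (l 16918592))))))) (a (b (l 17057576) (a (l 17074072) (l 17058800))) (a (l 17335968) (a (l 17244376) (b (l 17316384) (l 17429872)))))), by decide +kernel⟩

def k5_A00pm_213_s3 : ∃ t, chk3 f_A00pm_213_s3 t 14 15 1 = true :=
  ⟨(b (a (l 4) (b (a (b (a (b (a (l 4) (b (l 543873551) (b (l 543444751) (l 4)))) (l 4)) (b (a (b (l 543013391) (l 544385295)) (b (l 16792208) (l 542998799))) (a (b (a (l 4) (l 544211215)) (l 4)) (b (a (l 542988559) (l 542836495)) (a (b (l 542555407) (l 4)) (b (l 542676495) (l 542549775))))))) (a (l 4) (b (a (l 4) (b (a (l 4) (b (l 542414863) (l 4))) (l 4))) (l 4)))) (b (a (b (a (l 16839744) (l 16806848)) (a (b (l 16809960) (a (l 543247887) (l 542832399))) (l 16815360))) (b (l 16902960) (l 16891680))) (a (b (a (b (a (b (l 542546703) (l 542411279)) (b (l 542673167) (l 542545679))) (a (l 4) (b (l 542410255) (l 4)))) (b (a (l 543247631)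 (l 16829776)) (a (b (l 542547471) (l 542411791)) (b (l 16794264) (l 542551311))))) (a (l 4) (b (a (b (l 542264847) (l 4)) (b (l 542415631) (l 542268687))) (l 4)))) (b (a (b (l 16793960) (a (l 543257103) (l 16790248))) (l 16883424)) (a (b (a (b (l 542557967) (l 542422031)) (b (l 16786096) (l 16793936))) (a (b (l 542275343) (l 542381071)) (b (l 542431247) (l 542284559)))) (b (l 16832600) (a (b (l 16805552) (l 542443023)) (l 16808048)))))))) (a (l 2) (b (a (l 4) (b (a (b (a (l 4) (b (l 542122255) (l 4))) (l 4)) (b (a (b (l 542296591) (l 542134543)) (b (l 16793592) (l 542311183))) (a (b (a (l 4) (l 542032399)) (l 4)) (b (l 542149903) (a (l 4) (l 542049551)))))) (l 4))) (l 4))))) (l 2)), by decide +kernel⟩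

def k6_A00pm_213_s3 : ∃ t, chk3 f_A00pm_213_s3 t 30 60 1 = true :=
  ⟨(a (b (l 16921888) (a (b (l 16893488) (b (l 16886048) (l 16818336))) (l 16893856))) (l 16999288)), by decide +kernel⟩

def k7_A00pm_213_s3 : ∃ t, chk3 f_A00pm_213_s3 t 60 122 1 = true :=
  ⟨(a (b (a (b (a (c (l 16796080) (l 16806464)) (l 16789424)) (a (b (l 542328847) (l 542168079)) (b (l 16785328) (l 542349327)))) (b (l 16795600) (a (l 16829768) (l 16791816)))) (a (b (a (b (a (l 541966351) (l 542069775)) (a (l 4) (l 541876239))) (b (l 542189071) (a (l 541988879) (l 542092815)))) (a (l 4) (b (a (l 4) (l 541901583)) (l 4)))) (b (a (b (l 16804792) (l 542213135)) (l 16807232)) (a (b (a (l 542014479) (l 542119183)) (a (b (l 541902607) (l 4)) (l 541929999))) (b (l 542240271) (a (l 542043151) (l 16785984))))))) (b (a (l 16883432) (l 16889216)) (a (b (l 16834136) (a (a (l 16794280) (l 16827592)) (l 16830488))) (a (l 16837496) (l 16882112))))), by decide +kernel⟩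

def k8_A00pm_213_s3 : ∃ t, chk3 f_A00pm_213_s3 t 60 123 1 = true :=
  ⟨(a (b (a (l 4) (a (l 4) (b (b (a (l 543179791) (l 541961487)) (a (l 4) (b (l 541847055) (l 4)))) (l 4)))) (l 4)) (a (b (b (a (b (a (l 542074895) (l 16781776)) (a (l 542946063) (l 541996047))) (b (l 16805472) (a (l 16791544) (l 16782824)))) (a (b (a (b (l 541751567) (l 4)) (b (l 541884687) (l 541772815))) (l 4)) (b (a (l 542984207) (l 542033935)) (a (b (l 541794575) (l 4)) (b (l 541925391) (l 541817359)))))) (b (b (a (l 4) (a (l 4) (b (a (l 4) (l 541753615)) (l 4)))) (l 4)) (l 4))) (a (b (b (l 16807920) (b (l 16793472) (a (l 543025423) (l 16791848)))) (b (b (a (b (l 541838607) (a (l 541700879) (l 541778703))) (b (l 541969679) (l 541862415))) (a (l 4) (b (a (l 541727759) (l 541804303)) (a (l 4) (l 541672207))))) (l 4))) (b (b (l 16790904) (l 16795864)) (b (b (a (l 543069967) (l 16803360)) (a (b (l 541887247) (a (l 541755407) (l 541831183))) (b (l 16780528) (l 541917199)))) (b (a (b (a (l 4) (l 541708815))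 (l 4)) (b (l 543150863) (a (l 542188815) (l 541755663)))) (a (l 4) (b (a (l 4) (l 542668815)) (l 4))))))))), by decide +kernel⟩

def k9_A00pm_213_s3 : ∃ t, chk3 f_A00pm_213_s3 t 61 61 1 = true :=
  ⟨(b (a (b (l 16879792) (l 16882760)) (l 16898192)) (a (a (b (b (l 16879296) (l 16812456)) (b (a (b (l 16827104) (c (l 16793080) (l 16793024))) (l 16829616)) (a (b (a (b (l 16785072) (l 542927119)) (b (l 16781560) (l 16790816))) (a (b (a (l 542236943) (l 541802255)) (a (l 4) (l 542718735))) (b (l 542703375) (a (l 542284559) (l 541848335))))) (b (l 16804624) (a (b (l 16791328) (l 542477327)) (l 16792480)))))) (b (l 16880520) (b (l 16833744) (a (l 16796608) (l 16831376))))) (b (l 16879368) (a (l 16834872) (l 16874392))))), by decide +kernel⟩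

def k10_A00pm_213_s3 : ∃ t, chk3 f_A00pm_213_s3 t 31 30 1 = true :=
  ⟨(a (b (l 16996736) (b (l 16954440) (l 17006936))) (a (l 17118088) (a (l 17071688) (l 17504648)))), by decide +kernel⟩

def k11_A00pm_213_s3 : ∃ t, chk3 f_A00pm_213_s3 t 60 62 1 = true :=
  ⟨(l 4), by decide +kernel⟩

def k12_A00pm_213_s3 : ∃ t, chk3 f_A00pm_213_s3 t 122 124 1 = true :=
  ⟨(b (a (b (b (a (a (l 4) (b (a (b (l 541659663) (l 4)) (l 542767375)) (l 4))) (a (b (a (l 542331663) (l 541894415)) (a (b (l 541709839) (l 541627151)) (l 543085327))) (b (l 16785368) (a (l 542109967) (l 16784584))))) (a (l 4) (a (b (a (l 4) (b (l 541653263) (l 4))) (l 4)) (b (a (b (l 541759759) (l 541679119)) (l 543134479)) (a (l 4) (b (l 541705231) (l 541618703))))))) (l 4)) (b (a (b (a (c (l 16791768) (l 16791720)) (l 16804040)) (a (b (a (l 542156303) (l 16790320)) (a (b (l 541808655) (l 541731087)) (l 543182863))) (b (l 16802112) (b (l 16790696) (l 16784840))))) (b (l 16827864) (l 16793720))) (a (b (a (b (a (b (l 541645839)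 (l 4)) (b (l 541756687) (l 541672719))) (a (l 4) (b (l 541580559) (l 4)))) (b (a (b (l 541858575) (l 541782543)) (l 542962447)) (a (b (l 541699599) (l 541608719)) (b (l 541808143) (l 541726479))))) (a (l 4) (b (a (l 4) (b (l 541637135) (l 541538063))) (l 4)))) (b (a (b (l 16785648) (a (b (l 16784304) (l 541833743)) (l 16784848))) (b (l 16782192) (l 16791400))) (a (b (a (b (l 541753103) (l 541665039)) (b (l 541858575) (l 541779983))) (a (b (l 541567759) (l 4)) (b (l 541693199) (l 541597455)))) (b (a (c (l 16784504) (l 16784480)) (l 16790584)) (a (b (l 541806351) (l 541721103)) (b (l 16789672) (l 541832975))))))))) (a (l 4) (b (a (l 4) (a (l 4) (b (b (a (b (l 541627151) (l 542327311)) (b (l 541748751) (l 541656335))) (a (l 4) (b (l 542090255) (l 4)))) (l 4)))) (l 4)))), by decide +kernel⟩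

def k13_A00pm_213_s3 : ∃ t, chk3 f_A00pm_213_s3 t 123 248 1 = true :=
  ⟨(a (b (a (l 16829560) (l 16874744)) (a (b (l 16805312) (a (b (l 16802400) (b (l 16790960) (l 16785104))) (l 16803584))) (b (l 16787768) (l 16785472)))) (b (l 16871912) (l 16831128))), by decide +kernel⟩

def k14_A00pm_213_s3 : ∃ t, chk3 f_A00pm_213_s3 t 246 249 1 = true :=
  ⟨(a (b (b (a (b (a (b (l 16784072) (l 541776399)) (c (l 16784624) (l 16784600))) (a (b (l 541685519) (l 542121487)) (b (l 541804047) (l 541714703)))) (b (l 16791160) (a (b (l 16779304) (l 541831439)) (l 16779856)))) (a (b (a (b (a (l 4) (l 541536271)) (l 4)) (b (l 541884175) (a (l 4) (l 541568271)))) (l 4)) (b (a (b (l 541743631) (l 541914895)) (b (l 16778944) (l 541772559))) (a (b (a (l 541529103) (l 541600271)) (l 4)) (b (l 541677071) (a (l 541562127) (l 541631759))))))) (b (b (a (l 4) (a (l 4) (b (a (l 4) (l 541521679)) (l 4)))) (l 4)) (l 4))) (a (b (b (c (l 16792344) (l 16792288)) (b (a (l 16784736) (l 16790840)) (a (b (l 16783832)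 (l 541707535)) (b (l 16779424) (l 16778824))))) (b (b (a (b (l 543213327) (a (l 4) (l 541555471))) (b (l 541737743) (l 542977295))) (a (l 4) (b (a (l 541513999) (l 541589007)) (a (l 4) (l 541469455))))) (l 4))) (b (b (l 16825640) (b (l 16802672) (b (l 16801704) (l 16790592)))) (b (b (a (b (l 16779056) (l 541767695)) (l 16784848)) (a (b (l 542741007) (a (l 541548559) (l 541622287))) (b (l 16783944) (l 542772751)))) (b (a (b (a (l 4) (l 541505551)) (l 4)) (b (a (l 541583119) (l 541655055)) (a (l 541996559) (l 541541391)))) (l 4)))))), by decide +kernel⟩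

def k15_A00pm_213_s3 : ∃ t, chk3 f_A00pm_213_s3 t 247 249 1 = true :=
  ⟨(b (a (b (l 16786024) (c (l 16794360) (l 16794288))) (l 16829312)) (a (b (a (b (l 16791408) (a (b (l 16779536) (l 16778928)) (l 16780096))) (c (l 16792608) (l 16792552))) (a (b (a (b (l 542535951) (a (l 541617167) (l 541687823))) (b (l 16789656) (l 542567439))) (a (b (a (l 541765391) (l 541576719)) (a (l 4) (l 542791439))) (b (a (l 541650959) (l 541720335)) (a (l 541533711) (l 541611791))))) (b (a (l 16784960) (l 16780592)) (a (b (l 16784048) (a (l 541684495) (l 16778416))) (b (l 16779648) (l 16779040)))))) (b (l 16805224) (a (b (l 16802928) (c (l 16791160) (l 16791120))) (l 16804136))))), by decide +kernel⟩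

def k16_A00pm_213_s3 : ∃ t, chk3 f_A00pm_213_s3 t 61 125 1 = true :=
  ⟨(a (l 2) (b (a (l 4) (b (a (b (a (b (a (l 4) (b (a (l 4) (l 542561551)) (l 4))) (l 4)) (b (a (b (a (l 541570063) (l 541646351)) (a (b (l 541505295) (l 4)) (l 542331151))) (b (a (l 541717519) (l 16789136)) (a (l 541606159) (l 541680655)))) (a (l 4) (b (a (b (l 541542927) (l 541478415)) (l 542099983)) (a (l 4) (b (l 541497871) (l 4))))))) (l 4)) (b (a (b (a (b (l 16789760) (l 16783920)) (l 16785072)) (a (b (a (l 541641743) (l 16783536)) (a (l 543127823) (l 541868559))) (b (l 16784152) (a (l 541677071) (l 16778520))))) (b (l 16791648) (a (l 16784696) (l 16780320)))) (a (b (a (b (a (b (l 541449743) (l 4)) (b (l 541536783) (l 541470223))) (l 4)) (b (a (l 542629647) (l 541636879)) (a (b (l 541490447) (l 4)) (b (l 541574927) (l 541510415))))) (a (l 4) (b (a (l 4) (b (l 541440783) (l 4))) (l 4)))) (b (a (b (a (l 16783584) (l 16789232)) (a (l 542399247) (l 541672975))) (b (l 16789864) (l 16784016))) (a (b (a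 (b (l 541530383) (l 541461775)) (b (l 541612815) (l 541550095))) (a (l 4) (b (l 541482511) (l 541409039)))) (b (a (l 542168591) (l 16778384)) (a (b (l 541569807) (l 541503247)) (l 543198223)))))))) (a (l 4) (b (a (l 4) (b (a (l 4) (b (a (b (l 541431055) (l 4)) (b (l 541523983) (l 541452815))) (l 4))) (l 4))) (l 4))))) (l 2))), by decide +kernel⟩

def k17_A00pm_213_s3 : ∃ t, chk3 f_A00pm_213_s3 t 30 63 1 = true :=
  ⟨(l 2), by decide +kernel⟩

def k18_A00pm_213_s3 : ∃ t, chk3 f_A00pm_213_s3 t 62 124 1 = true :=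
  ⟨(a (b (l 16883328) (a (b (l 16868968) (a (l 16806648) (l 16869080))) (l 16876928))) (l 16909720)), by decide +kernel⟩

def k19_A00pm_213_s3 : ∃ t, chk3 f_A00pm_213_s3 t 248 500 1 = true :=
  ⟨(a (b (a (l 16792832) (l 16784320)) (a (b (a (l 16790424) (l 16780824)) (a (b (l 16779008) (a (l 541937167) (l 16778616))) (l 16790040))) (b (l 16803176) (l 16791368)))) (b (l 16827624) (b (l 16826176) (l 16803912)))), by decide +kernel⟩

def k20_A00pm_213_s3 : ∃ t, chk3 f_A00pm_213_s3 t 248 501 1 = true :=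
  ⟨(b (a (a (b (a (b (a (b (l 541608719) (l 541544207)) (l 542968591)) (a (b (l 541474575) (l 541935375)) (b (l 541564431) (l 541495823)))) (b (l 16783880) (a (b (l 16778000) (l 541584655)) (l 542738191)))) (a (b (a (l 4) (b (l 541689615) (l 4))) (l 4)) (b (a (b (l 541517071) (l 541712143)) (b (l 541604623) (l 541538319))) (a (b (l 542973711) (l 4)) (b (l 541466127) (l 542729231)))))) (b (a (b (l 16789968) (l 16784112)) (l 16780040)) (a (b (a (b (l 16783464) (l 16780552)) (l 16778480)) (a (b (l 541559055) (l 541488143)) (b (l 16778040) (l 541579791)))) (b (l 16779104) (a (l 16783544) (l 16778704)))))) (a (b (l 16802368) (a (l 16790136) (l 16801504))) (l 16793120))) (a (a (l 4) (b (a (b (a (b (l 542484495) (l 4)) (b (l 541510159) (l 542239503))) (a (l 4) (b (a (l 4) (l 541402639)) (l 4)))) (b (a (b (l 16780488) (l 541531919)) (b (l 16783504) (l 16780592))) (a (b (l 542262799) (a (l 4) (l 541426191))) (b (l 541553423) (l 542017295))))) (a (l 4) (b (a (l 4) (b (a (l 541397775)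 (l 541449743)) (l 4))) (l 4))))) (a (b (a (b (l 16783976) (a (b (l 16778088) (l 541574927)) (l 16783584))) (b (l 16790064) (l 16784208))) (a (b (a (b (l 541771535) (a (l 541422095) (l 541473039))) (b (l 16780528) (l 541793807))) (a (b (a (l 4) (l 541392911)) (l 4)) (b (l 543058959) (a (l 541362703) (l 541417743))))) (b (a (b (l 16778304) (l 16778016)) (l 16778568)) (a (b (l 541547791) (l 542814223)) (b (l 16778128) (l 541569807)))))) (b (b (l 16801888) (l 16790752)) (a (b (l 16779200) (a (l 16783632) (l 16789280))) (l 16790232)))))), by decide +kernel⟩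

def k21_A00pm_213_s3 : ∃ t, chk3 f_A00pm_213_s3 t 249 250 1 = true :=
  ⟨(b (l 16825096) (a (b (l 16805080) (a (a (l 16791784) (l 16782232)) (l 16803880))) (l 16825344))), by decide +kernel⟩

def k22_A00pm_213_s3 : ∃ t, chk3 f_A00pm_213_s3 t 248 251 1 = true :=
  ⟨(b (a (l 4) (b (a (a (l 4) (b (b (a (b (a (l 541388047) (l 541442063)) (a (l 4) (l 541357327))) (b (l 542569231) (a (l 541413135) (l 541466127)))) (a (l 4) (b (a (l 4) (l 541383183)) (l 4)))) (l 4))) (b (a (b (a (b (l 16780568) (l 542324239)) (b (l 16778352) (l 16778056))) (a (b (a (l 541437967) (l 541489679)) (a (l 541351695) (l 541408783))) (b (l 542347023) (a (l 541462543) (l 541513231))))) (b (l 16784064) (a (b (l 16778168) (l 542101519)) (l 16783672)))) (a (b (a (l 4) (b (a (l 541378063) (l 541434127)) (a (l 4) (l 541346063)))) (l 4)) (b (a (b (a (l 541486607) (l 541536527)) (a (l 541404175) (l 541458959))) (b (l 541855503) (l 543122447))) (a (b (a (l 4) (l 541372943)) (l 4)) (b (a (l 541430031) (l 541483535))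 (a (l 541877007) (l 541399567)))))))) (l 4))) (l 4)), by decide +kernel⟩

def k23_A00pm_213_s3 : ∃ t, chk3 f_A00pm_213_s3 t 249 502 1 = true :=
  ⟨(a (b (a (b (a (b (l 16790160) (l 16789536)) (l 16780240)) (a (b (a (b (l 16778392) (l 16778096)) (l 16778656)) (a (b (l 543146255) (a (l 541455375) (l 541507855))) (b (l 16778208) (l 542901519)))) (b (l 16779288) (c (l 16783928) (l 16783912))))) (b (l 16781608) (a (l 16790328) (l 16801712)))) (a (b (a (b (a (b (a (l 541636367) (l 541425935)) (a (l 4) (l 542408207))) (b (a (l 541480463) (l 16780360)) (a (l 541394959) (l 541451791)))) (a (l 4) (b (a (b (l 541349135) (l 4)) (l 541899279)) (l 4)))) (b (a (b (l 542656271) (a (l 541505295) (l 16777840))) (c (l 16783536) (l 16783528))) (a (b (a (l 541421583) (l 541477135)) (a (l 542670607) (l 541658639))) (b (a (l 16780376) (l 16783192)) (a (l 541447951) (l 541502479)))))) (a (l 4) (b (a (b (a (l 4) (b (l 541344527) (l 4))) (l 4)) (b (a (l 542430735) (l 541417487)) (a (l 4) (b (l 541372687)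 (l 541325071))))) (l 4)))) (b (a (b (l 16784152) (a (b (l 16778248) (a (l 16777864) (l 16778056))) (l 16783752))) (b (l 16779768) (l 16789624))) (a (b (a (b (a (l 541474063) (l 16777776)) (a (l 542190607) (l 541444367))) (b (l 16778072) (a (l 541499663) (l 16777880)))) (a (b (a (b (l 541339663) (l 4)) (l 542962191)) (l 4)) (b (a (l 541949967) (l 541470735)) (a (b (l 541368335) (l 541319695)) (l 542722575))))) (b (a (l 16783568) (l 16778736)) (a (b (a (l 16777792) (l 16783232)) (a (l 541709071) (l 541497103))) (b (l 16778288) (a (l 16777896) (l 16778096))))))))) (b (a (a (l 16802856) (l 16824664)) (l 16825328)) (a (b (c (l 16791288) (l 16791256)) (a (b (l 16779376) (l 16784000)) (l 16790416))) (b (l 16803104) (l 16791832))))), by decide +kernel⟩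

def k24_A00pm_213_s3 : ∃ t, chk3 f_A00pm_213_s3 t 498 503 1 = true :=
  ⟨(b (a (l 4) (b (a (b (a (l 4) (b (a (l 4) (b (l 541334799) (l 4))) (l 4))) (l 4)) (b (a (b (a (b (l 541396751) (l 541349391)) (l 542214159)) (a (l 4) (b (l 541364239) (l 541314575)))) (b (a (l 541467663) (l 16777808)) (a (l 542985999) (l 541973775)))) (a (l 4) (b (a (b (l 541329679) (l 4)) (b (l 541393167) (l 541344783))) (a (l 4) (b (l 541293583) (l 4))))))) (l 4))) (l 4)), by decide +kernel⟩

def k25_A00pm_213_s3 : ∃ t, chk3 f_A00pm_213_s3 t 499 1006 1 = true :=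
  ⟨(a (b (a (b (a (b (l 16778104) (a (l 16780344) (l 16777920))) (l 16783608)) (a (b (a (l 542746639) (l 541732879)) (a (b (l 541359887) (l 541309199)) (b (l 541421583) (l 541374735)))) (b (a (l 16777832) (l 16783272)) (a (l 542506767) (l 16780360))))) (b (l 16784232) (a (b (l 16778328) (c (l 16783280) (l 16783272))) (l 16778592)))) (a (b (a (b (a (l 4) (b (l 541324815) (l 4))) (l 4)) (b (a (b (l 541389327) (l 541340175)) (b (l 541449743) (l 541403919))) (a (b (l 541287695) (l 4)) (b (l 541355535) (l 541303823))))) (l 4)) (b (a (b (a (l 542266383) (l 16777848)) (a (b (l 541418511) (l 541370639)) (l 543039759))) (b (l 16778144) (a (l 16780384) (l 16777952)))) (a (b (a (b (l 541319695) (l 4)) (b (l 541385743) (l 541335567))) (a (l 4) (b (l 541281807) (l 4)))) (b (a (b (l 541447183) (l 541400591)) (l 542799887)) (a (b (l 541351183) (l 541298447)) (b (l 541415439) (l 541366543)))))))) (b (a (b (l 16779856) (l 16789704)) (l 16780424)) (a (b (a (l 16783648) (l 16778816)) (a (b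 (a (l 16777864) (l 16778064)) (a (b (l 16777656) (l 541430031)) (l 16780400))) (b (l 16778368) (l 16783312)))) (b (l 16779456) (l 16784080))))), by decide +kernel⟩

def k26_A00pm_213_s3 : ∃ t, chk3 f_A00pm_213_s3 t 499 1007 1 = true :=
  ⟨(a (b (a (l 4) (b (a (l 4) (b (a (l 4) (b (l 541314575) (l 541795599))) (l 4))) (l 4))) (l 4)) (b (a (b (a (b (a (b (l 541381903) (l 541330703)) (b (l 541444367) (l 541397263))) (a (b (l 541544463) (l 4)) (b (l 541346831) (l 541292815)))) (b (a (l 543064847) (l 16777880)) (a (b (l 541412111) (l 541362447)) (b (l 16777672) (l 541427215))))) (a (l 4) (b (a (b (l 541309455) (l 542326031)) (b (l 541378319) (l 541326095))) (a (l 4) (b (l 542075151) (l 4)))))) (b (a (b (l 16778184) (a (l 16780416) (l 16777992))) (l 16783680)) (a (b (a (b (l 541441807) (l 541393679)) (b (l 16777776) (l 16777640))) (a (b (l 541342223) (l 541824015)) (b (l 541409039) (l 541358351)))) (b (a (l 16777904) (l 16778096)) (a (b (l 16777688) (l 541424399)) (l 16780432))))))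 (a (l 4) (b (a (b (a (l 4) (b (l 541572623) (l 542856463))) (l 4)) (b (a (b (l 541374479) (l 541589519)) (b (l 16777600) (l 541390351))) (a (b (l 542605839) (l 4)) (b (l 541337871) (l 542355215))))) (a (l 4) (b (a (l 4) (b (a (l 4) (l 541260815)) (l 4))) (l 4))))))), by decide +kernel⟩

def k27_A00pm_213_s3 : ∃ t, chk3 f_A00pm_213_s3 t 125 125 1 = true :=
  ⟨(b (l 16863816) (a (b (a (b (l 16865104) (l 16803672)) (l 16786048)) (a (b (a (b (l 16802248) (a (l 16790504) (l 16801904))) (l 16803008)) (a (b (a (b (l 16789552) (a (b (l 16778400) (l 16783352)) (l 16778664))) (c (l 16790120) (l 16790096))) (a (b (a (b (a (b (l 16777792) (l 16777656)) (l 16777920)) (a (b (l 541405967) (l 541354255)) (b (l 16777704) (l 541421583)))) (b (l 16778216) (a (l 16780448) (l 16778024)))) (a (b (a (b (l 542104335) (a (l 4) (l 541278735))) (b (l 541370639) (l 542121487))) (a (l 4) (b (a (l 541258255) (l 541296143)) (l 4)))) (b (a (b (l 16777616) (l 541386767)) (l 16780360)) (a (b (l 541870095)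 (l 542886159)) (b (l 541402895) (l 541618703)))))) (b (a (l 16783720) (l 16778896)) (a (b (a (l 16777936) (l 16778136)) (a (b (l 16777720) (l 541418767)) (l 16777848))) (b (l 16788920) (l 16783384)))))) (b (b (l 16801880) (l 16801640)) (a (b (l 16779544) (l 16784160)) (l 16790592))))) (b (l 16822720) (a (b (l 16823848) (b (l 16802320) (l 16801664))) (l 16822560))))) (l 16834640))), by decide +kernel⟩

def k28_A00pm_213_s3 : ∃ t, chk3 f_A00pm_213_s3 t 63 62 1 = true :=
  ⟨(a (b (l 16950392) (b (l 16922408) (l 16903080))) (b (l 17270296) (b (l 17168888) (c (l 17071400) (l 17074168))))), by decide +kernel⟩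

def k29_A00pm_213_s3 : ∃ t, chk3 f_A00pm_213_s3 t 124 126 1 = true :=
  ⟨(l 4), by decide +kernel⟩

def k30_A00pm_213_s3 : ∃ t, chk3 f_A00pm_213_s3 t 1000 1008 1 = true :=
  ⟨(b (a (b (a (l 4) (b (a (b (a (l 4) (l 541255439)) (l 4)) (b (l 542635791) (a (l 4) (l 541273615)))) (l 4))) (l 4)) (b (a (b (a (b (l 541635343) (l 542385167)) (b (l 16777632) (l 541383439))) (a (b (a (l 541252623) (l 541291535)) (l 4)) (b (l 542402575) (a (l 541271055) (l 541309199))))) (b (a (l 16780376) (l 16777952)) (a (b (l 541399823) (l 542151439)) (b (l 16777736) (l 541415951))))) (a (b (a (l 4) (b (a (l 4) (l 541249807)) (l 4))) (l 4)) (b (a (b (a (l 541289231) (l 541326863)) (a (l 4) (l 541268495))) (b (l 541900047) (a (l 541307151) (l 541344271)))) (a (l 4) (b (a (l 541247247) (l 541286927)) (a (l 4) (l 541224975)))))))) (l 4)), by decide +kernel⟩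

def k31_A00pm_213_s3 : ∃ t, chk3 f_A00pm_213_s3 t 1001 1008 1 = true :=
  ⟨(b (a (b (a (b (l 16778248) (a (l 16777864) (l 16778056))) (l 16783752)) (a (b (a (b (l 16777648) (l 541916943)) (l 16780392)) (a (b (l 542934799) (a (l 541265935) (l 541305103))) (b (l 541665295) (l 542684175)))) (b (l 16783312) (a (b (l 16777752) (l 16780240)) (l 16777880))))) (b (l 16789632) (a (b (l 16788960) (l 16783416)) (l 16778736)))) (a (b (a (b (a (b (a (l 4) (l 541244431)) (l 4)) (b (a (l 541284623) (l 541323023)) (a (l 541221903) (l 541263631)))) (l 4)) (b (a (b (l 542433039) (a (l 541303055) (l 541340687))) (b (l 16777664) (l 542181903))) (a (b (a (l 541241615) (l 541282319)) (a (l 4) (l 541218831))) (b (a (l 541321231) (l 541358351)) (a (l 541261071) (l 541301007)))))) (a (l 4) (b (a (l 4) (b (a (l 4) (l 541238799)) (l 4))) (l 4)))) (b (a (b (a (l 16780408) (l 16777984)) (a (b (l 542199055) (a (l 541339151) (l 16777488))) (b (l 16777768) (l 16777632)))) (b (l 16778288) (a (l 16777896)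 (l 16783336)))) (a (b (a (b (a (l 541280015) (l 541319183)) (a (l 541215759) (l 541258511))) (b (l 542966031) (a (l 541298959) (l 541337359)))) (a (l 4) (b (a (l 541235983) (l 541277711)) (a (l 4) (l 541481231))))) (b (a (b (l 16777680) (l 542715407)) (l 16780424)) (a (b (a (l 541317391) (l 541355279)) (a (l 541255951) (l 541296911))) (b (l 542464527) (a (l 541335823) (l 16777504))))))))), by decide +kernel⟩

def k32_A00pm_213_s3 : ∃ t, chk3 f_A00pm_213_s3 t 500 1009 1 = true :=
  ⟨(a (l 4) (b (a (l 4) (b (a (l 4) (b (a (b (a (l 4) (l 541233167)) (l 4)) (b (a (l 541275407) (l 541315599)) (a (l 541746447) (l 541253391)))) (a (l 4) (b (a (l 4) (l 542258959)) (l 4))))) (l 4))) (l 4))), by decide +kernel⟩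

def k33_A00pm_213_s3 : ∃ t, chk3 f_A00pm_213_s3 t 501 1008 1 = true :=
  ⟨(a (b (a (l 16790184) (l 16801272)) (a (b (a (l 16783792) (l 16778968)) (a (b (l 16783344) (a (b (l 16783032) (l 16777648)) (l 16777912))) (c (l 16783608) (l 16783600)))) (b (l 16779616) (l 16784232)))) (b (l 16802264) (a (l 16790720) (l 16801680)))), by decide +kernel⟩

def k34_A00pm_213_s3 : ∃ t, chk3 f_A00pm_213_s3 t 1002 1009 1 = true :=
  ⟨(b (a (b (a (b (a (b (a (l 541353743) (l 16777552)) (a (l 541294607) (l 541334031))) (b (l 16777696) (a (l 16777512) (l 16780224)))) (a (b (a (l 541498895) (l 541273103)) (a (l 4) (l 542011919))) (b (a (l 541313807) (l 541352463)) (a (l 541250831) (l 541292559))))) (b (a (l 16780440) (l 16778016)) (a (b (l 542998287) (a (l 541332495) (l 16777520))) (b (l 16783048) (l 16777664))))) (a (b (a (l 4) (b (a (l 542523919) (l 541764367)) (l 4))) (l 4)) (b (a (b (a (l 541270799) (l 541311759)) (a (l 542277135) (l 541516559))) (b (a (l 541350927) (l 16777568)) (a (l 541290511)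 (l 541330959)))) (a (b (a (l 4) (l 542788879)) (l 4)) (b (a (l 542029839) (l 541268495)) (a (l 4) (l 542542351))))))) (b (a (b (l 16778320) (a (l 16777928) (l 16783368))) (l 16783824)) (a (b (a (b (l 16777712) (a (l 16777528) (l 16777624))) (b (l 16777904) (l 16777768))) (a (b (a (l 541309967) (l 541349647)) (a (l 541782287) (l 541288463))) (b (l 16780248) (a (l 541329167) (l 16777536))))) (b (l 16783376) (a (b (l 16783056) (l 16777680)) (l 16777944)))))) (a (l 4) (b (a (b (a (b (a (b (l 541213711) (l 4)) (l 542295567)) (l 4)) (b (a (l 541534479) (l 541308175)) (a (l 542807567) (l 542048271)))) (a (l 4) (b (a (l 4) (b (l 541211151) (l 4))) (l 4)))) (b (a (b (a (l 541348111) (l 16777584)) (a (l 541286415) (l 541327631))) (b (l 16777728) (a (l 16777544) (l 16777632)))) (a (b (a (l 542561039) (l 541800719)) (a (l 4) (b (l 541232655) (l 541197583)))) (b (a (l 541306383) (l 16777496)) (a (l 542313999) (l 541552655)))))) (a (l 4) (b (a (l 4) (b (a (b (l 541208591) (l 4)) (l 542826511))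 (l 4))) (l 4)))))), by decide +kernel⟩

def k35_A00pm_213_s3 : ∃ t, chk3 f_A00pm_213_s3 t 1003 1009 1 = true :=
  ⟨(b (a (b (l 16789704) (a (l 16783632) (l 16778808))) (l 16790288)) (a (b (a (b (a (b (l 16777920) (l 16777776)) (l 16778048)) (a (b (l 16780264) (a (l 541326095) (l 16777552))) (b (l 16783072) (l 16777688)))) (b (l 16778352) (a (l 16777960) (l 16783400)))) (a (b (a (b (a (l 542066703) (l 541304591)) (a (b (l 541230351) (l 541195023)) (l 542579727))) (b (a (l 16777504) (l 16777600)) (a (l 541819151) (l 541324303)))) (a (b (a (l 4) (b (l 541206287) (l 4))) (l 4)) (b (a (b (l 541251855) (l 541217295)) (l 542332943)) (a (b (l 541180943) (l 4)) (b (l 541228047) (l 541192207)))))) (b (a (b (l 16777744) (a (l 16777560) (l 16777648))) (b (l 16777936) (l 16777792))) (a (b (a (l 541571087) (l 16777512)) (a (l 542845711) (l 542085391))) (b (l 16780272) (a (l 541322767) (l 16777560))))))) (b (a (l 16783856) (l 16779040)) (a (b (l 16783408) (a (b (l 16783088) (l 16777704))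 (l 16777968))) (l 16783664))))), by decide +kernel⟩

def k36_A00pm_213_s3 : ∃ t, chk3 f_A00pm_213_s3 t 250 505 1 = true :=
  ⟨(a (l 2) (b (a (l 4) (b (a (a (l 4) (b (b (a (b (a (b (l 541203727) (l 4)) (b (l 541249807) (l 541214735))) (a (l 4) (b (l 541178127) (l 4)))) (b (a (l 542598927) (l 541837839)) (a (b (l 541225999) (l 541189647)) (b (l 541271055) (l 541237007))))) (a (l 4) (b (a (l 4) (b (l 541201167) (l 4))) (l 4)))) (l 4))) (b (a (b (a (b (a (l 16777520) (l 16777616)) (a (l 542351887) (l 541589775))) (b (l 16777760) (l 16780240))) (a (b (a (b (l 541247759) (l 541212431)) (l 542864911)) (a (b (l 541175311) (l 4)) (b (l 541223695) (l 541186831)))) (b (a (l 542104335) (l 16777528)) (a (b (l 541269263) (l 541234703)) (l 542618127))))) (b (a (b (l 16777952) (l 16777808)) (l 16778080)) (a (b (l 16777672) (a (l 541856527) (l 16777576))) (b (l 16777864) (l 16777720))))) (a (b (a (l 4) (b (a (b (l 541198607) (l 541160207)) (b (l 541245711) (l 541210127))) (a (l 4) (b (l 541172239)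 (l 4))))) (l 4)) (b (a (b (a (b (l 541290511) (l 541256719)) (l 542371087)) (a (b (l 541221391) (l 541184271)) (b (l 541267727) (l 541232655)))) (b (a (l 16777536) (l 16777624)) (a (l 542884623) (l 542123535)))) (a (b (a (l 4) (b (l 541196047) (l 541157391))) (l 4)) (b (a (b (l 541243919) (l 541207567)) (b (l 541288975) (l 541254927))) (a (b (l 541169423) (l 4)) (b (l 541219087) (l 541181455))))))))) (l 4))) (l 4))), by decide +kernel⟩

def k37_A00pm_213_s3 : ∃ t, chk3 f_A00pm_213_s3 t 251 504 1 = true :=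
  ⟨(a (b (b (l 16823024) (l 16801496)) (a (b (b (l 16801880) (l 16801312)) (a (b (l 16779696) (l 16784296)) (l 16790328))) (a (l 16801760) (l 16821616)))) (l 16826704)), by decide +kernel⟩

def k38_A00pm_213_s3 : ∃ t, chk3 f_A00pm_213_s3 t 1004 2020 1 = true :=
  ⟨(a (b (a (b (l 16778384) (l 16783328)) (l 16783888)) (a (b (a (b (l 16777768) (l 16780256)) (c (l 16783144) (l 16783136))) (a (b (a (l 542637583) (l 16777544)) (a (b (l 541265935) (l 541230607)) (b (l 16777440) (l 541276943)))) (b (l 16777680) (a (l 542390287) (l 16777592))))) (b (l 16783440) (a (b (l 16777872) (l 16777736)) (l 16778000))))) (b (l 16789776) (a (l 16783696) (l 16778880)))), by decide +kernel⟩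

def k39_A00pm_213_s3 : ∃ t, chk3 f_A00pm_213_s3 t 2008 2021 1 = true :=
  ⟨(b (a (b (a (b (a (b (l 541193487) (l 541154063)) (b (l 541241871) (l 541205263))) (a (l 4) (b (l 541166607) (l 4)))) (b (a (b (l 541287695) (l 541253135)) (l 542904335)) (a (b (l 541217039) (l 541178895)) (b (l 541264399) (l 541228559))))) (a (l 4) (b (a (l 4) (b (l 541190927) (l 541419535))) (l 4)))) (b (a (b (b (l 16777632) (l 16777560)) (a (b (l 16777448) (l 541275407)) (l 542657295))) (b (l 16777784) (l 16780264))) (a (b (a (b (l 541240079) (l 541202959)) (b (l 16777400) (l 541251343))) (a (b (l 541163791) (l 4)) (b (l 541214735) (l 541176079)))) (b (a (b (l 16780120) (l 16777424)) (l 16777552)) (a (b (l 541262607) (l 541226511)) (b (l 16777456) (l 541273871))))))) (a (l 4) (b (a (b (a (l 4) (b (l 541671951) (l 4))) (l 4)) (b (a (b (l 541188367) (l 541685007)) (b (l 541238031) (l 541200655))) (a (l 4) (b (l 541429263) (l 4))))) (l 4)))), by decide +kernel⟩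

def k40_A00pm_213_s3 : ∃ t, chk3 f_A00pm_213_s3 t 2009 2021 1 = true :=
  ⟨(b (a (b (a (l 16783152) (l 16778112)) (a (b (l 16777696) (a (l 542924047) (l 16777608))) (b (l 16777888) (l 16777744)))) (b (l 16778416) (l 16783360))) (a (b (a (b (a (b (l 16777408) (l 541249551)) (b (l 16777504) (l 16777432))) (a (b (l 541212687) (l 541173263)) (b (l 541261071) (l 541224463)))) (b (a (l 16777560) (l 16780280)) (a (b (l 16777456) (l 541272335)) (c (l 16777520) (l 16777520))))) (a (b (a (b (l 541937167) (l 4)) (b (l 541185807) (l 541950223))) (l 4)) (b (a (b (l 541236239) (l 541198095)) (b (l 16777416) (l 541248015))) (a (b (l 541694735) (l 4)) (b (l 541210383) (l 541438991)))))) (b (a (b (l 16777800) (l 16780280)) (l 16783168)) (a (b (a (b (l 16777512) (l 16777440)) (l 16777568)) (a (b (l 541259535) (l 541222415)) (b (l 16777464) (l 541271055)))) (b (l 16777712) (a (l 16777528) (l 16777616))))))), by decide +kernel⟩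

def k41_A00pm_213_s3 : ∃ t, chk3 f_A00pm_213_s3 t 1004 1011 1 = true :=
  ⟨(b (b (a (l 4) (a (b (a (l 4) (b (a (l 4) (b (l 542470671) (l 4))) (l 4))) (l 4)) (b (a (b (a (b (l 541451791) (l 542215439)) (b (l 541234447) (l 541195791))) (a (l 4) (b (l 541960207) (l 4)))) (b (a (b (l 16777424) (l 541246223)) (b (l 16777512) (l 16777448))) (a (b (l 541208079) (l 541973263)) (b (l 541257999) (l 541220367))))) (a (l 4) (b (a (b (l 542735631) (l 4)) (b (l 541717519) (l 542480911))) (l 4)))))) (l 4)) (l 4)), by decide +kernel⟩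

def k42_A00pm_213_s3 : ∃ t, chk3 f_A00pm_213_s3 t 1005 1010 1 = true :=
  ⟨(b (a (b (l 16779904) (l 16779528)) (l 16801296)) (a (b (a (l 16789168) (l 16779112)) (a (b (l 16783464) (a (b (l 16777904) (l 16777760)) (l 16778032))) (l 16783728))) (b (l 16790000) (l 16789608)))), by decide +kernel⟩

def k43_A00pm_213_s3 : ∃ t, chk3 f_A00pm_213_s3 t 1005 2022 1 = true :=
  ⟨(a (b (a (b (a (b (l 16780240) (a (b (l 16777472) (l 541269519)) (l 16777528))) (b (l 16777816) (l 16780296))) (a (b (a (b (l 541232655) (l 541462031)) (b (l 16777432) (l 541244431))) (a (b (l 542225679) (a (l 4) (l 541138703))) (b (l 541474575) (l 542238991)))) (b (a (b (l 16777520) (l 16777456)) (l 16777584)) (a (b (l 541256463) (l 541218319)) (b (l 16777480) (l 16777408)))))) (b (a (l 16783184) (l 16778136)) (a (b (l 16777720) (a (l 16777536) (l 16777632))) (b (l 16777920) (l 16777776))))) (a (b (a (b (a (l 4) (b (a (l 4) (l 541152015)) (l 4))) (l 4)) (b (a (b (l 541983503) (a (l 541137423) (l 541165071)))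 (b (l 541230607) (l 541728015))) (a (l 4) (b (l 542759695) (a (l 4) (l 541135887)))))) (l 4)) (b (a (b (a (b (l 16777432) (l 541242895)) (b (l 16777528) (l 16777464))) (a (b (l 541740815) (l 542504719)) (b (l 541254927) (l 541484815)))) (b (l 16780256) (a (b (l 16777488) (l 16777416)) (l 16777544)))) (a (b (a (b (a (l 4) (l 541149455)) (l 4)) (b (l 542249487) (a (l 541134607) (l 541162767)))) (l 4)) (b (a (b (l 541497359) (l 542262543)) (b (l 16777440) (l 541241103))) (a (b (a (l 541148175) (l 541176079)) (a (l 4) (l 541133327))) (b (l 542007055) (l 542770191)))))))) (b (a (b (l 16778448) (l 16783392)) (l 16789200)) (a (b (a (b (l 16777824) (l 16780304)) (l 16783192)) (a (b (a (b (l 16777536) (l 16777464)) (l 16777592)) (a (b (l 541253391) (l 541751311)) (b (l 16777488) (l 16777424)))) (b (l 16777736) (a (l 16777552) (l 16777648))))) (b (l 16783496) (a (b (l 16777928) (l 16777792)) (l 16778056)))))), by decide +kernel⟩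

def k44_A00pm_213_s3 : ∃ t, chk3 f_A00pm_213_s3 t 1005 2023 1 = true :=
  ⟨(a (b (b (a (l 4) (a (l 4) (b (a (l 4) (b (a (l 4) (l 541146895)) (l 4))) (l 4)))) (l 4)) (l 4)) (b (a (b (a (b (a (b (l 542515215) (a (l 541131791) (l 541160463))) (b (l 541763855) (l 542528527))) (a (b (a (l 4) (l 541116431)) (l 4)) (b (a (l 541145615) (l 541173775)) (a (l 4) (l 541130511))))) (b (a (b (l 16777448) (l 541508111)) (b (l 16777544) (l 16777472))) (a (b (l 542273295) (a (l 541159439) (l 541187087))) (b (l 541251855) (l 542017807))))) (a (l 4) (b (a (b (a (l 541114895) (l 541144591)) (l 4)) (b (a (l 541172751) (l 541200143)) (a (l 541129231) (l 541158159)))) (a (l 4) (b (a (l 4) (l 541113615)) (l 4)))))) (b (a (b (l 16780272) (a (b (l 16777496) (l 16777432)) (l 16777560))) (b (l 16777840) (l 16780320))) (a (b (a (b (l 542030607) (l 542794767)) (b (l 16777456) (l 541774863))) (a (b (a (l 541143311) (l 541171727)) (a (l 4) (l 541127951))) (b (l 542539535) (a (l 541157135) (l 541185295)))))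 (b (a (b (l 16777544) (l 16777480)) (l 16777608)) (a (b (l 541787407) (l 542552591)) (b (l 16777504) (l 16777440))))))) (a (l 4) (b (a (b (a (l 4) (b (a (l 541112079) (l 541142031)) (l 4))) (l 4)) (b (a (b (a (l 541170703) (l 541198351)) (a (l 541126415) (l 541155855))) (b (l 542297359) (a (l 541184271) (l 541211663)))) (a (b (a (l 4) (l 541110543)) (l 4)) (b (a (l 541140751) (l 541169679)) (a (l 4) (l 541125135)))))) (l 4))))), by decide +kernel⟩

def k45_A00pm_213_s3 : ∃ t, chk3 f_A00pm_213_s3 t 503 505 1 = true :=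
  ⟨(b (a (a (b (l 16779840) (l 16790408)) (l 16800824)) (l 16822856)) (b (a (a (b (l 16789880) (a (l 16783760) (l 16778944))) (b (l 16800936) (l 16789776))) (l 16800840)) (a (a (b (a (b (a (l 16777968) (l 16778168)) (a (b (l 16777752) (a (l 16777560) (l 16777656))) (b (l 16777944) (l 16777800)))) (b (l 16778472) (l 16783416))) (a (b (a (b (a (b (l 16777464) (l 542041615)) (b (l 16777552) (l 16777488))) (a (b (a (l 541197583) (l 16777352)) (a (l 541154831) (l 541183247))) (b (l 542054415) (l 542819087)))) (b (l 16780280) (a (b (l 16777512) (l 16777440)) (l 16777568)))) (a (b (a (b (a (l 541109263) (l 541139471)) (l 4)) (b (a (l 541168655) (l 541196815)) (a (l 541123855) (l 541153807)))) (a (l 4) (b (a (l 4) (l 541107727)) (l 4)))) (b (a (b (l 542563855) (a (l 541182479) (l 541210127))) (b (l 16777464) (l 542308623))) (a (b (a (l 541138191) (l 541167631)) (a (l 4) (l 541122575))) (b (a (l 541196047) (l 16777352)) (a (l 541152527) (l 541181455))))))) (b (a (b (l 16777856) (l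 16777712)) (l 16777976)) (a (b (a (b (l 16777560) (l 16777488)) (l 16777616)) (a (b (l 16777424) (a (l 541209359) (l 16777376))) (b (l 16777512) (l 16777448)))) (b (l 16777760) (a (l 16777576) (l 16777672))))))) (b (a (l 16789232) (l 16789664)) (a (b (l 16783528) (a (b (l 16777960) (l 16777816)) (l 16778088))) (l 16783792)))) (a (b (l 16790040) (l 16789368)) (l 16800816))))), by decide +kernel⟩

def k46_A00pm_213_s3 : ∃ t, chk3 f_A00pm_213_s3 t 250 253 1 = true :=
  ⟨(l 2), by decide +kernel⟩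

def k47_A00pm_213_s3 : ∃ t, chk3 f_A00pm_213_s3 t 502 506 1 = true :=
  ⟨(l 4), by decide +kernel⟩

def k48_A00pm_213_s3 : ∃ t, chk3 f_A00pm_213_s3 t 2012 2024 1 = true :=
  ⟨(b (a (b (a (l 4) (b (a (l 4) (b (a (l 541106191) (l 541137167)) (a (l 4) (l 541357839)))) (l 4))) (l 4)) (b (a (b (a (b (a (l 541166607) (l 541195023)) (a (l 541121039) (l 541151503))) (b (l 542830607) (a (l 541180687) (l 541208591)))) (a (b (a (l 4) (l 541104655)) (l 4)) (b (a (l 541135887) (l 541165583)) (a (l 541356303) (l 541119759))))) (b (a (b (l 16777472) (l 542843919)) (b (l 16777568) (l 16777496))) (a (b (a (l 541194255) (l 16777360)) (a (l 541150479) (l 541179663))) (b (l 16777432) (a (l 541207823) (l 16777384)))))) (a (l 4) (b (a (b (a (l 541103375) (l 541134607)) (a (l 4) (l 541623311))) (b (a (l 541164559) (l 541193487)) (a (l 541118479) (l 541149199)))) (a (l 4) (b (a (l 4) (l 541370383)) (l 4))))))) (l 4)), by decide +kernel⟩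

def k49_A00pm_213_s3 : ∃ t, chk3 f_A00pm_213_s3 t 2013 2024 1 = true :=
  ⟨(b (a (b (a (b (l 16780296) (a (b (l 16777520) (l 16777456)) (l 16777584))) (b (l 16777864) (l 16777720))) (a (b (a (b (a (l 16777368) (l 16777408)) (a (l 541178895) (l 541207055))) (b (l 16777480) (a (l 16777392) (l 16777432)))) (a (b (a (l 541133327) (l 541163791)) (a (l 541890063) (l 541117199))) (b (a (l 541192719) (l 16777368)) (a (l 541148175) (l 541177871))))) (b (a (c (l 16780160) (l 16780160)) (l 16777632)) (a (b (l 16777432) (a (l 541206543) (l 16777392))) (b (l 16780152) (l 16777456)))))) (b (a (l 16777992) (l 16778192)) (a (b (l 16777776) (l 16780256)) (b (l 16777968) (l 16777824))))) (a (b (a (b (a (l 4) (b (a (l 541637391) (l 541132303)) (a (l 4) (l 541888527)))) (l 4)) (b (a (b (a (l 541162767) (l 541191951)) (a (l 541384207) (l 541147151))) (b (a (l 16777368) (l 16777416)) (a (l 541177103) (l 541205775)))) (a (b (a (l 4) (l 541635855)) (l 4)) (b (a (l 541131023) (l 541161743)) (a (l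 542155279) (l 541382927)))))) (l 4)) (b (a (b (a (b (l 16777488) (a (l 16777392) (l 16777440))) (l 16780168)) (a (b (a (l 541191183) (l 16777376)) (a (l 541145871) (l 541176079))) (b (l 16777440) (a (l 541205007) (l 16777400))))) (b (l 16780304) (a (b (l 16780152) (l 16777464)) (l 16777592)))) (a (b (a (b (a (l 541902863) (l 541398287)) (a (l 4) (l 542422031))) (b (a (l 541160719) (l 541190415)) (a (l 541649935) (l 541144847)))) (a (l 4) (b (a (l 4) (l 542169871)) (l 4)))) (b (a (b (b (l 16777416) (l 16777384)) (a (l 541175311) (l 16777352))) (b (l 16777488) (a (l 16777400) (l 16777448)))) (a (b (a (l 541397007) (l 541159695)) (a (l 542420495) (l 541917199))) (b (a (l 541189647) (l 16777376)) (a (l 541412111) (l 541174287))))))))), by decide +kernel⟩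

def k50_A00pm_213_s3 : ∃ t, chk3 f_A00pm_213_s3 t 1006 2025 1 = true :=
  ⟨(a (l 4) (b (a (l 4) (b (a (l 4) (b (a (b (a (l 4) (b (l 541089295) (l 4))) (l 4)) (b (a (l 542168335) (l 541664271)) (a (l 4) (l 542687247)))) (l 4))) (l 4))) (l 4))), by decide +kernel⟩

def k51_A00pm_213_s3 : ∃ t, chk3 f_A00pm_213_s3 t 1007 2024 1 = true :=
  ⟨(a (b (a (b (l 16778504) (l 16783448)) (l 16789256)) (a (b (a (b (l 16777880) (l 16777736)) (l 16778008)) (a (b (a (l 16780168) (l 16777640)) (a (b (l 16777448) (a (l 16777360) (l 16777400))) (b (l 16780160) (l 16777472)))) (b (l 16777784) (l 16780272)))) (b (l 16783552) (a (c (l 16783160) (l 16783152)) (l 16778112))))) (b (l 16789592) (a (l 16783816) (l 16779008)))), by decide +kernel⟩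

def k52_A00pm_213_s3 : ∃ t, chk3 f_A00pm_213_s3 t 2014 4050 1 = true :=
  ⟨(a (b (a (b (a (b (a (l 541158671) (l 541188879)) (a (l 541915919) (l 541411087))) (b (b (l 16777424) (l 16777384)) (a (l 541173519) (l 16777360)))) (a (b (a (b (l 541088015) (l 4)) (l 542435343)) (l 4)) (b (a (l 541662991) (l 541157903)) (a (b (l 541104143) (l 4)) (l 542182927))))) (b (a (b (l 16777496) (c (l 16777432) (l 16777424))) (l 16780176)) (a (b (a (l 541188111) (l 16777384)) (a (l 541678607) (l 541172751))) (b (l 16777456) (a (l 16777360) (l 16777408)))))) (a (b (a (l 4) (b (a (l 4) (b (l 541086735) (l 4))) (l 4))) (l 4)) (b (a (b (a (l 542702351) (l 541930255)) (a (l 4) (b (l 541102863) (l 4)))) (b (a (l 541425167) (l 541187343)) (a (l 542449935) (l 541677327)))) (a (l 4) (b (a (b (l 541085711) (l 4)) (l 542700815)) (l 4)))))) (b (a (b (l 16780320) (a (b (l 16780168) (l 16777480)) (l 16777608))) (b (l 16777888) (l 16777752))) (a (b (a (b (b (l 16777424) (l 16777392)) (a (l 541171727) (l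 16777368))) (b (l 16777504) (c (l 16777432) (l 16777432)))) (a (b (a (l 542197519) (l 541424399)) (a (b (l 541101839) (l 4)) (l 542448655))) (b (a (l 541186575) (l 16777392)) (a (l 541944847) (l 541439503))))) (b (a (l 16780184) (l 16777656)) (a (b (l 16777456) (a (l 16777368) (l 16777416))) (b (l 16777552) (l 16777480))))))), by decide +kernel⟩

def k53_A00pm_213_s3 : ∃ t, chk3 f_A00pm_213_s3 t 2014 4051 1 = true :=
  ⟨(a (l 4) (b (a (b (a (b (a (l 4) (b (l 541084431) (l 4))) (l 4)) (b (a (b (l 541117967) (l 541092623)) (l 542196239)) (a (l 4) (b (l 541100815) (l 541074703))))) (l 4)) (b (a (b (a (l 541691919) (l 541185807)) (a (l 542715663) (l 542212111))) (b (a (l 16777392) (l 16777440)) (a (l 541438735) (l 16777368)))) (a (b (a (b (l 541083151) (l 4)) (b (l 541116943) (l 541091343))) (l 4)) (b (a (l 542463503) (l 541959439)) (a (b (l 541099535) (l 541073423)) (b (l 541132815) (l 541107727))))))) (a (l 4) (b (a (l 4) (b (a (l 4) (b (l 541081871) (l 4))) (l 4))) (l 4))))),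 by decide +kernel⟩

def k54_A00pm_213_s3 : ∃ t, chk3 f_A00pm_213_s3 t 2015 2025 1 = true :=
  ⟨(b (a (b (l 16783360) (a (b (l 16777800) (l 16780280)) (l 16783168))) (b (l 16778536) (l 16783472))) (a (b (a (b (a (b (l 16777504) (l 16777440)) (l 16777568)) (a (b (a (l 541453583) (l 16777392)) (a (l 542211087) (l 541706255))) (b (l 16777464) (a (l 16777376) (l 16777416))))) (b (l 16780328) (a (b (l 16777560) (l 16777488)) (l 16777616)))) (a (b (a (b (a (b (l 541115919) (l 541090063)) (l 542730767)) (a (l 4) (b (l 541098511) (l 541072143)))) (b (a (l 541958415) (l 541452815)) (a (b (l 541131791) (l 541106703)) (l 542478351)))) (a (l 4) (b (a (b (l 541080591) (l 4)) (b (l 541114895) (l 541089039))) (l 4)))) (b (a (b (a (l 16777400) (l 16777440)) (a (l 541705487) (l 16777376))) (b (l 16777512) (l 16777448))) (a (b (a (b (l 541147663) (l 541123087)) (l 542225935)) (a (b (l 541097487) (l 541070607)) (b (l 541131023) (l 541105679)))) (b (a (l 541720591) (l 16777400)) (a (l 542745871)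 (l 541973007))))))) (b (a (b (l 16777904) (l 16777760)) (l 16778032)) (a (b (a (l 16777576) (l 16777664)) (a (b (l 16777472) (a (l 16777384) (l 16777424))) (b (l 16777560) (l 16777496)))) (b (l 16777816) (l 16780288)))))), by decide +kernel⟩

def k55_A00pm_213_s3 : ∃ t, chk3 f_A00pm_213_s3 t 503 1013 1 = true :=
  ⟨(a (l 2) (b (a (l 4) (b (b (a (a (l 4) (b (a (b (a (l 4) (b (l 541079311) (l 4))) (l 4)) (b (a (b (l 541113871) (l 541087759)) (b (l 541146895) (l 541122063))) (a (b (l 541060623) (l 4)) (b (l 541096207) (l 541069327))))) (l 4))) (a (b (a (b (a (l 542493455) (l 541720079)) (a (b (l 541130255) (l 541104655)) (l 542744847))) (b (a (l 16777408) (l 16777448)) (a (l 542240783) (l 16777384)))) (a (b (a (b (l 541078031) (l 4)) (b (l 541112847) (l 541086735))) (a (l 4) (b (l 541059343) (l 4)))) (b (a (b (l 541146127) (l 541121039)) (l 542492431)) (a (b (l 541095183) (l 541068047)) (b (l 541129231) (l 541103631)))))) (b (a (b (l 16777520) (l 16777448)) (l 16777576)) (a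 (b (a (l 541987855) (l 16777408)) (a (b (l 16777312) (l 541137423)) (l 542239759))) (b (l 16777472) (a (l 16777384) (l 16777432))))))) (a (l 4) (a (b (a (l 4) (b (a (l 4) (b (l 541076751) (l 4))) (l 4))) (l 4)) (b (a (b (a (b (l 541112079) (l 541085455)) (b (l 541145359) (l 541120271))) (a (b (l 541057807) (l 4)) (b (l 541094159) (l 541066767)))) (b (a (l 542759951) (l 16777368)) (a (b (l 541128463) (l 541102607)) (b (l 16777312) (l 541136655))))) (a (l 4) (b (a (b (l 541075727) (l 4)) (b (l 541111055) (l 541084431))) (a (l 4) (b (l 541056527) (l 4))))))))) (l 4))) (l 4))), by decide +kernel⟩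

def k56_A00pm_213_s3 : ∃ t, chk3 f_A00pm_213_s3 t 251 507 1 = true :=
  ⟨(l 2), by decide +kernel⟩

def k57_A00pm_213_s3 : ∃ t, chk3 f_A00pm_213_s3 t 62 127 1 = true :=
  ⟨(l 2), by decide +kernel⟩

def k58_A00pm_213_s3 : ∃ t, chk3 f_A00pm_213_s3 t 126 252 1 = true :=
  ⟨(a (b (l 16838280) (a (l 16804664) (l 16833392))) (l 16893112)), by decide +kernel⟩

def k59_A00pm_213_s3 : ∃ t, chk3 f_A00pm_213_s3 t 504 1012 1 = true :=
  ⟨(a (b (b (l 16800392) (a (l 16789864) (l 16779008))) (a (b (a (l 16789288) (l 16789504)) (a (b (l 16783584) (a (l 16783184) (l 16778136))) (l 16783848))) (b (l 16800480) (l 16789432)))) (b (l 16780792) (l 16799896))), by decide +kernel⟩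

def k60_A00pm_213_s3 : ∃ t, chk3 f_A00pm_213_s3 t 2016 4052 1 = true :=
  ⟨(a (b (a (b (l 16780344) (a (b (l 16777568) (l 16777496)) (l 16777632))) (b (l 16777920) (l 16777776))) (a (b (a (b (a (l 16777408) (l 16777456)) (a (l 542507535) (l 16777392))) (b (l 16777528) (l 16777456))) (a (b (a (b (l 541144847) (l 541119503)) (b (l 16777336) (l 541152783))) (a (b (l 541092879) (l 541065487)) (b (l 541127695) (l 541101583)))) (b (a (l 16777368) (l 16777416)) (a (b (l 16777320) (l 541135887)) (l 542775055))))) (b (a (l 16777584) (l 16777680)) (a (b (l 16777480) (a (l 16777392) (l 16777440))) (c (l 16780160) (l 16780160)))))) (b (l 16783392) (a (b (l 16777824) (a (l 16777632) (l 16782976))) (l 16783192)))), by decide +kernel⟩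

def k61_A00pm_213_s3 : ∃ t, chk3 f_A00pm_213_s3 t 4032 4053 1 = true :=
  ⟨(b (a (b (a (b (a (l 4) (b (l 541074447) (l 541046031))) (l 4)) (b (a (b (l 541110031) (l 541083151)) (b (l 541144079) (l 541118479))) (a (b (l 541054991) (l 4)) (b (l 541091855) (l 541064207))))) (l 4)) (b (a (b (a (b (l 16777344) (l 16777312)) (l 16777368)) (a (b (l 541126927) (l 541100559)) (b (l 16777320) (l 541135119)))) (b (a (l 16777416) (l 16777464)) (a (l 542774287) (l 16777392)))) (a (b (a (b (l 541073167) (l 541044495)) (b (l 541109263) (l 541082127))) (a (l 4) (b (l 541053711) (l 4)))) (b (a (b (l 541143311) (l 541117711)) (b (l 16777344) (l 16777312))) (a (b (l 541090831) (l 541062927)) (b (l 541126159) (l 541099535))))))) (a (l 4) (b (a (l 4) (b (a (l 4) (b (l 541071887) (l 541311503))) (l 4))) (l 4)))), by decide +kernel⟩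

def k62_A00pm_213_s3 : ∃ t, chk3 f_A00pm_213_s3 t 4033 4053 1 = true :=
  ⟨(b (a (b (a (b (l 16777528) (l 16777464)) (l 16777592)) (a (b (a (l 16777376) (l 16777416)) (a (b (l 16777320) (l 541134351)) (b (l 16777368) (l 16777336)))) (b (l 16777488) (a (l 16777400) (l 16777440))))) (b (l 16780352) (a (c (l 16780168) (l 16780168)) (l 16777640)))) (a (b (a (b (a (b (l 541108239) (l 541080847)) (b (l 541142799) (l 541116687))) (a (b (l 541052431) (l 4)) (b (l 541089807) (l 541061647)))) (b (a (b (l 16777344) (l 16777312)) (l 16777376)) (a (b (l 541125391) (l 541098511)) (b (l 16777328) (l 541133839))))) (a (l 4) (b (a (b (l 541070863) (l 541309967)) (b (l 541107215) (l 541079823))) (a (l 4) (b (l 541319439) (l 4)))))) (b (a (b (a (l 16777424) (l 16777464)) (a (b (l 16777368) (l 16777336)) (l 16777400))) (b (l 16777536) (l 16777464))) (a (b (a (b (l 541142031) (l 541115919)) (b (l 16777352) (l 16777320))) (a (b (l 541088783) (l 541060367)) (b (l 541124623) (l 541097743)))) (b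 (a (l 16777376) (l 16777424)) (a (b (l 16777328) (l 541133071)) (b (l 16777376) (l 16777344)))))))), by decide +kernel⟩

def k63_A00pm_213_s3 : ∃ t, chk3 f_A00pm_213_s3 t 2017 2026 1 = true :=
  ⟨(b (a (b (l 16778560) (l 16783496)) (l 16789136)) (a (b (a (b (l 16777928) (l 16777784)) (l 16778056)) (a (b (a (l 16777592) (l 16777688)) (a (b (l 16777488) (a (l 16777400) (l 16780072))) (l 16780176))) (b (l 16777832) (a (l 16777648) (l 16782984))))) (b (l 16778368) (a (l 16783208) (l 16778168))))), by decide +kernel⟩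

def k64_A00pm_213_s3 : ∃ t, chk3 f_A00pm_213_s3 t 1008 8108 1 = true :=
  ⟨(a (a (l 4) (a (l 4) (b (a (b (a (l 4) (b (l 541069583) (l 541576975))) (l 4)) (b (a (b (l 541106447) (l 541078543)) (b (l 541141519) (l 541115151))) (a (b (l 541318159) (l 4)) (b (l 541087759) (l 541327375))))) (a (l 4) (b (a (l 4) (b (l 541834255) (l 4))) (l 4)))))) (a (a (b (a (b (a (b (l 16777352) (l 16777320)) (l 16777384)) (a (b (l 541123855) (l 541096719)) (b (l 16777328) (l 541132303)))) (b (c (l 16777448) (l 16777448)) (a (b (l 16777376) (l 16777344)) (l 16777400)))) (a (b (a (b (l 541068303) (l 541843983)) (b (l 541105423) (l 541077519))) (a (l 4) (b (l 541585167) (l 4)))) (b (a (b (l 541140751) (l 541114383)) (b (l 16777352) (l 16777320))) (a (b (l 541086735) (l 541594639)) (b (l 541123087) (l 541095695)))))) (b (a (b (l 16777544) (l 16777472)) (l 16777600)) (a (b (a (l 16777384) (l 16777424)) (a (b (l 16777336) (l 541131791)) (b (l 16777376) (l 16777344)))) (b (l 16777496) (a (l 16777408)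 (l 16777448)))))) (a (b (l 16780368) (a (l 16780176) (l 16777648))) (b (l 16777944) (l 16777792))))), by decide +kernel⟩

def k65_A00pm_213_s3 : ∃ t, chk3 f_A00pm_213_s3 t 1008 8109 1 = true :=
  ⟨(a (l 4) (a (a (b (a (l 4) (b (a (b (l 542101263) (l 4)) (b (l 541335567) (l 541842447))) (l 4))) (l 4)) (b (a (b (a (b (l 541104655) (l 541344783)) (b (l 16777312) (l 541113615))) (a (b (l 541852175) (l 4)) (b (l 541085711) (l 541593359)))) (b (a (b (l 16777360) (l 16777328)) (l 16777384)) (a (b (l 541122319) (l 541094671)) (b (l 16777336) (l 541131023))))) (a (b (a (l 4) (b (l 542368015) (l 4))) (l 4)) (b (a (b (l 541602831) (l 542109455)) (b (l 541103887) (l 541343759))) (a (l 4) (b (l 541850895) (l 4))))))) (a (b (a (b (l 16777456) (a (b (l 16777384) (l 16777344)) (l 16777408))) (b (l 16777544) (l 16777480))) (a (b (a (b (l 16777312) (l 541112847)) (b (l 16777360) (l 16777328))) (a (b (l 541352975) (l 541860623)) (b (l 541121551) (l 541093903)))) (b (a (l 16777384) (l 16777432))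 (a (b (l 16777336) (l 541130255)) (b (l 16777384) (l 16777352)))))) (b (a (l 16777608) (l 16777704)) (a (b (l 16777504) (a (l 16777408) (l 16780080))) (l 16780184)))))), by decide +kernel⟩

def k66_A00pm_213_s3 : ∃ t, chk3 f_A00pm_213_s3 t 1008 4055 1 = true :=
  ⟨(a (l 4) (a (l 4) (b (a (b (a (b (a (b (l 542366479) (l 4)) (b (l 541601551) (l 542376463))) (l 4)) (b (a (b (l 541102863) (l 541611023)) (b (l 16777320) (l 541111823))) (a (b (l 542117903) (a (l 4) (l 541035279))) (b (l 541351951) (l 542127631))))) (a (l 4) (b (a (l 4) (b (l 542633487) (l 4))) (l 4)))) (b (a (b (a (b (l 16777360) (l 16777328)) (l 16777392)) (a (b (l 541120783) (l 541361423)) (b (l 16777344) (l 541129743)))) (b (l 16777456) (a (c (l 16777368) (l 16777368)) (l 16777416)))) (a (b (a (b (l 541868815) (l 542643471)) (b (l 541102095) (l 541878543))) (a (l 4) (b (l 542385167) (a (l 4) (l 541033999))))) (b (a (b (l 16777320) (l 541111311)) (a (l 16777336) (l 16777360))) (a (b (l 541619471) (l 542126351))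 (b (l 541120271) (l 541628943))))))) (a (l 4) (b (a (l 4) (b (a (b (a (l 4) (l 541043983)) (l 4)) (b (l 542136079) (l 542642191))) (l 4))) (l 4)))))), by decide +kernel⟩

def k67_A00pm_213_s3 : ∃ t, chk3 f_A00pm_213_s3 t 1009 1013 1 = true :=
  ⟨(a (b (b (l 16789696) (a (b (l 16778792) (l 16778480)) (l 16789328))) (b (a (b (l 16783416) (a (b (l 16777848) (a (l 16777656) (l 16782992))) (l 16783216))) (b (l 16778592) (l 16783520))) (a (b (a (b (a (b (l 16777552) (l 16777480)) (l 16777608)) (a (b (a (l 16777392) (l 16777440)) (a (b (l 16777344) (l 541128975)) (c (l 16777376) (l 16777368)))) (b (l 16777504) (a (l 16777416) (l 16777464))))) (b (l 16780376) (a (l 16780192) (l 16777664)))) (a (b (a (b (a (b (l 541369615) (l 541877263)) (b (l 16777320) (l 541378831))) (a (b (l 542652175) (a (l 4) (l 541032975))) (b (l 541886991) (l 542393615)))) (b (a (a (l 16777336) (l 16777360)) (l 16777392)) (a (b (l 541119503) (l 541627919)) (b (l 16777344) (l 541128463))))) (a (b (a (l 4) (b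 (a (l 4) (l 541042959)) (l 4))) (l 4)) (b (a (b (l 542403599) (a (l 541032207) (l 541052687))) (b (l 541637391) (l 542144783))) (a (l 4) (b (a (l 541042191) (l 541062415)) (a (l 4) (l 541031695))))))) (b (a (b (l 16777464) (a (l 16777376) (l 16777416))) (b (l 16777560) (l 16777488))) (a (b (a (b (l 16777328) (l 541378063)) (b (l 16777368) (l 16777336))) (a (b (l 541885967) (l 542660879)) (b (l 541387279) (l 541895439)))) (b (a (l 16777400) (l 16777440)) (a (b (l 16777352) (l 541127951)) (l 16777376))))))) (b (a (b (l 16777952) (l 16777808)) (l 16778080)) (a (b (a (l 16777616) (l 16777712)) (a (b (l 16777512) (a (l 16777424) (l 16777464))) (l 16780192))) (b (l 16777856) (a (l 16777664) (l 16777760)))))))) (b (l 16789704) (b (a (l 16789104) (l 16789584)) (a (b (l 16778392) (a (l 16783232) (l 16778192))) (b (l 16778664) (l 16778504)))))), by decide +kernel⟩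

def k68_A00pm_213_s3 : ∃ t, chk3 f_A00pm_213_s3 t 505 506 1 = true :=
  ⟨(b (l 16826776) (a (b (l 16801112) (a (b (l 16778608) (l 16789520)) (l 16779056))) (l 16803384))), by decide +kernel⟩

def k69_A00pm_213_s3 : ∃ t, chk3 f_A00pm_213_s3 t 1008 1014 1 = true :=
  ⟨(l 4), by decide +kernel⟩

def k70_A00pm_213_s3 : ∃ t, chk3 f_A00pm_213_s3 t 4036 4056 1 = true :=
  ⟨(a (l 4) (b (b (a (b (a (b (a (l 4) (l 541041679)) (l 4)) (b (l 542402319) (a (l 541031183) (l 541051663)))) (l 4)) (b (a (b (l 541636367) (l 542412047)) (b (l 16777328) (l 541645839))) (a (b (a (l 541041167) (l 541061647)) (a (l 4) (l 541030415))) (b (l 542153487) (a (l 541051151) (l 541071375)))))) (a (l 4) (b (a (l 4) (b (a (l 541019407) (l 541040655)) (l 4))) (l 4)))) (l 4))), by decide +kernel⟩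

def k71_A00pm_213_s3 : ∃ t, chk3 f_A00pm_213_s3 t 4037 4056 1 = true :=
  ⟨(b (a (b (a (b (a (b (l 16777368) (l 16777336)) (l 16777400)) (a (b (l 541386511) (l 542162959)) (b (l 16777352) (l 16777320)))) (b (l 16777472) (a (l 16777376) (l 16777424)))) (a (b (a (b (l 542669583) (a (l 541029903) (l 541050639))) (b (l 541904143) (l 542411023))) (a (b (a (l 4) (l 541018895)) (l 4)) (b (a (l 541040143) (l 541060623)) (a (l 4) (l 541029391))))) (b (a (b (l 16777328) (l 541913615)) (b (l 16777376) (l 16777344))) (a (b (l 542421007) (a (l 541050127) (l 541070351))) (b (l 541654287) (l 542162191)))))) (b (a (b (l 16777560) (l 16777496)) (l 16777624)) (a (b (a (l 16777400) (l 16777448)) (a (b (l 16777352) (l 16777320)) (l 16777384))) (b (l 16777520) (a (l 16777424) (l 16777472)))))) (a (b (a (l 4) (b (a (b (a (l 541018127) (l 541039631)) (l 4)) (b (a (l 541060111) (l 541080335)) (a (l 541028623) (l 541049615)))) (a (l 4) (b (a (l 4) (l 541017615)) (l 4))))) (l 4)) (b (a (b (a (b (l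 542171663) (l 542678543)) (b (l 16777336) (l 541912847))) (a (b (a (l 541039119) (l 541059855)) (a (l 4) (l 541028111))) (b (l 542688271) (a (l 541049103) (l 541069583))))) (b (a (a (l 16777352) (l 16777368)) (l 16777408)) (a (b (l 541922319) (l 542429711)) (b (l 16777352) (l 16777320))))) (a (b (a (l 4) (b (a (l 541016847) (l 541038351)) (l 4))) (l 4)) (b (a (b (a (l 541059343) (l 541079567)) (a (l 541027599) (l 541048591))) (b (l 542170895) (a (l 541069327) (l 541089295)))) (a (b (a (l 4) (l 541016335)) (l 4)) (b (a (l 541037839) (l 541058831)) (a (l 4) (l 541026831))))))))), by decide +kernel⟩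

def k72_A00pm_213_s3 : ∃ t, chk3 f_A00pm_213_s3 t 2018 4057 1 = true :=
  ⟨(l 4), by decide +kernel⟩

def k73_A00pm_213_s3 : ∃ t, chk3 f_A00pm_213_s3 t 2019 4056 1 = true :=
  ⟨(a (b (a (b (l 16780384) (a (l 16780200) (l 16777672))) (b (l 16777968) (l 16777816))) (a (b (a (b (l 16777472) (a (l 16777384) (l 16777432))) (b (l 16777568) (l 16777496))) (a (b (a (b (l 16777336) (l 542180623)) (a (l 16777352) (l 16777376))) (a (b (l 542687503) (a (l 541048335) (l 541068815))) (b (l 541921551) (l 542697231)))) (b (a (l 16777408) (l 16777456)) (a (b (l 16777360) (l 16777328)) (l 16777384))))) (b (a (l 16777624) (l 16777720)) (a (b (l 16777520) (a (l 16777432) (l 16777480))) (l 16780200))))) (b (l 16783440) (a (b (l 16777872) (a (l 16777680) (l 16777776))) (l 16783240)))), by decide +kernel⟩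

def k74_A00pm_213_s3 : ∃ t, chk3 f_A00pm_213_s3 t 4038 4057 1 = true :=
  ⟨(b (a (b (a (b (a (b (a (l 541015823) (l 541037327)) (l 4)) (b (a (l 541058319) (l 541078799)) (a (l 541026319) (l 541047823)))) (a (l 4) (b (a (l 4) (l 541015055)) (l 4)))) (b (a (b (l 542438671) (a (l 541068303) (l 541088527))) (b (l 16777336) (l 542448143))) (a (b (a (l 541036815) (l 541058063)) (a (l 4) (l 541025807))) (b (a (l 541078287) (l 16777280)) (a (l 541047311) (l 541068047)))))) (a (l 4) (b (a (l 4) (b (a (l 541014543) (l 541036303)) (l 4))) (l 4)))) (b (a (b (a (b (l 16777384) (l 16777352)) (l 16777408)) (a (b (l 542189327) (a (l 541088271) (l 16777296))) (b (l 16777360) (l 16777328)))) (b (l 16777480) (a (l 16777392) (l 16777432)))) (a (b (a (b (a (l 541057551) (l 541078031)) (a (l 541025295) (l 541046799))) (b (l 542706191) (a (l 541067791) (l 541088015)))) (a (b (a (l 4) (l 541013775)) (l 4)) (b (a (l 541035791) (l 541057039)) (a (l 541002255) (l 541024527))))) (b (a (b (l 16777336)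 (l 542447631)) (b (l 16777384) (l 16777352))) (a (b (a (l 541077775) (l 16777288)) (a (l 541046287) (l 541067279))) (b (l 542457359) (a (l 541087759) (l 16777296)))))))) (a (l 4) (b (a (l 4) (b (a (b (a (l 541013263) (l 541035279)) (a (l 4) (l 541001487))) (b (a (l 541056783) (l 541077263)) (a (l 541024015) (l 541045775)))) (a (l 4) (b (a (l 4) (l 541012495)) (l 4))))) (l 4)))), by decide +kernel⟩

def k75_A00pm_213_s3 : ∃ t, chk3 f_A00pm_213_s3 t 4039 4057 1 = true :=
  ⟨(b (a (b (a (b (l 16777568) (l 16777504)) (l 16777632)) (a (b (a (l 16777416) (l 16777456)) (a (b (l 16777360) (l 16777328)) (l 16777392))) (b (l 16777528) (a (l 16777440) (l 16777480))))) (b (l 16780400) (a (l 16780208) (l 16777680)))) (a (b (a (b (a (b (a (l 16777288) (l 16777312)) (a (l 541066767) (l 541087247))) (b (l 16777344) (l 542715407))) (a (b (a (l 541034767) (l 541056271)) (a (l 541000975) (l 541023503))) (b (a (l 541077007) (l 16777288)) (a (l 541045263) (l 541066511))))) (b (a (b (l 16777384)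 (l 16777352)) (l 16777416)) (a (b (l 16777320) (a (l 541086991) (l 16777296))) (b (l 16777368) (l 16777336))))) (a (b (a (l 4) (b (a (l 541011983) (l 541034255)) (a (l 4) (l 541268751)))) (l 4)) (b (a (b (a (l 541055759) (l 541076751)) (a (l 541022991) (l 541044751))) (b (a (l 16777288) (l 16777312)) (a (l 541066255) (l 541086735)))) (a (b (a (l 4) (l 541011215)) (l 4)) (b (a (l 541033743) (l 541055503)) (a (l 541267983) (l 541022223))))))) (b (a (b (l 16777480) (a (l 16777392) (l 16777440))) (b (l 16777576) (l 16777512))) (a (b (a (b (l 16777344) (a (l 16777304) (l 16777320))) (b (l 16777392) (l 16777352))) (a (b (a (l 541076495) (l 16777288)) (a (l 541044495) (l 541065743))) (b (l 16777320) (a (l 541086479) (l 16777304))))) (b (a (l 16777416) (l 16777464)) (a (b (l 16777368) (l 16777336)) (l 16777400))))))), by decide +kernel⟩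

def k76_A00pm_213_s3 : ∃ t, chk3 f_A00pm_213_s3 t 1009 2029 1 = true :=
  ⟨(a (l 4) (b (a (l 4) (a (l 4) (b (b (a (b (a (b (a (l 541010703) (l 541033231)) (a (l 4) (l 541267215))) (b (a (l 541054991) (l 541075983)) (a (l 541021711) (l 541043983)))) (a (l 4) (b (a (l 4) (l 541278479)) (l 4)))) (b (a (b (a (l 16777288) (l 16777312)) (a (l 541065487) (l 541086223))) (b (l 16777344) (a (l 16777304) (l 16777328)))) (a (b (a (l 541032719) (l 541054479)) (a (l 541534991) (l 541021199))) (b (a (l 541075727) (l 16777296)) (a (l 541043471) (l 541064975)))))) (a (l 4) (b (a (l 4) (b (a (l 541277967) (l 541032207)) (a (l 4) (l 541534479)))) (l 4)))) (l 4)))) (l 4))), by decide +kernel⟩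

def k77_A00pm_213_s3 : ∃ t, chk3 f_A00pm_213_s3 t 504 1015 1 = true :=
  ⟨(l 2), by decide +kernel⟩

def k78_A00pm_213_s3 : ∃ t, chk3 f_A00pm_213_s3 t 1010 2028 1 = true :=
  ⟨(a (b (a (a (l 16783600) (l 16788912)) (l 16789160)) (a (b (a (b (l 16777976) (l 16777832)) (l 16778104)) (a (b (a (l 16777640) (l 16777736)) (a (b (l 16777536) (a (l 16777440) (l 16777488))) (l 16780216))) (b (l 16777880) (a (l 16777688) (l 16777784))))) (b (l 16778416) (a (l 16783248) (l 16778216))))) (b (l 16789384) (a (b (l 16789184) (l 16788872)) (l 16789376)))), by decide +kernel⟩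

def k79_A00pm_213_s3 : ∃ t, chk3 f_A00pm_213_s3 t 1010 8116 1 = true :=
  ⟨(a (a (a (b (a (b (a (b (l 16777392) (l 16777360)) (l 16777416)) (a (b (l 16777328) (a (l 541085967) (l 16777304))) (b (l 16777368) (l 16777336)))) (b (l 16777488) (a (l 16777400) (l 16777440)))) (a (b (a (b (a (l 541054223) (l 541075471)) (a (l 541289231) (l 541042959))) (b (a (l 16777296) (l 16777312)) (a (l 541064719) (l 541085711)))) (a (b (a (l 4) (l 541277199)) (l 4)) (b (a (l 541031695) (l 541053711)) (a (l 541802255) (l 541288463))))) (b (a (b (l 16777352) (a (l 16777304) (l 16777328))) (b (l 16777392) (l 16777360))) (a (b (a (l 541075215) (l 16777296)) (a (l 541042703) (l 541064207))) (b (l 16777328) (a (l 16777288) (l 16777304))))))) (b (a (b (l 16777584) (l 16777512)) (l 16777640)) (a (b (a (l 16777424) (l 16777464)) (a (b (l 16777376) (l 16777336)) (l 16777400))) (b (l 16777536) (c (l 16777472) (l 16777472)))))) (a (b (l 16777792) (a (l 16780216) (l 16777696))) (b (l 16777984) (l 16777840))))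 (a (l 16783464) (l 16788960))), by decide +kernel⟩

def k80_A00pm_213_s3 : ∃ t, chk3 f_A00pm_213_s3 t 1010 8117 1 = true :=
  ⟨(a (a (a (b (a (l 4) (b (a (b (a (l 541545231) (l 541031183)) (a (l 4) (l 541801487))) (b (a (l 541053455) (l 541074703)) (a (l 541287951) (l 541042191)))) (a (l 4) (b (a (l 542057487) (l 541544463)) (l 4))))) (l 4)) (b (a (b (a (b (a (l 16777296) (l 16777320)) (a (l 541063951) (l 16777288))) (b (l 16777352) (a (l 16777304) (l 16777328)))) (a (b (a (l 541299215) (l 541052943)) (a (l 541800719) (l 541555983))) (b (a (l 541074447) (l 16777296)) (a (l 541041679) (l 541063695))))) (b (a (b (l 16777392) (l 16777360)) (l 16777424)) (a (b (l 16777328) (a (l 16777288) (l 16777312))) (b (l 16777376) (l 16777344))))) (a (b (a (b (a (l 4) (l 542056719)) (l 4)) (b (a (l 541812239) (l 541298703)) (a (l 4) (l 542068495)))) (l 4)) (b (a (b (a (l 541052431) (l 541074191)) (a (l 541555215) (l 541041167))) (b (a (l 16777296) (l 16777320)) (a (l 541063183) (l 16777288))))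 (a (b (a (l 542324495) (l 541811727)) (l 4)) (b (a (l 541298191) (l 541052175)) (a (l 542067983) (l 541554703)))))))) (a (b (a (b (l 16777496) (a (l 16777400) (l 16777448))) (b (l 16777584) (l 16777520))) (a (b (a (b (l 16777352) (c (l 16777320) (l 16777320))) (b (l 16777400) (l 16777368))) (a (b (a (l 541073935) (l 16777296)) (a (l 541309199) (l 541062927))) (b (l 16777336) (a (l 16777288) (l 16777312))))) (b (a (l 16777424) (l 16777472)) (a (b (l 16777376) (l 16777344)) (l 16777408))))) (b (a (l 16777648) (l 16777744)) (a (b (l 16777544) (c (l 16777472) (l 16777472))) (l 16780224))))) (a (a (b (l 16777896) (a (l 16777696) (l 16777792))) (l 16783264)) (l 16783576))), by decide +kernel⟩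

def k81_A00pm_213_s3 : ∃ t, chk3 f_A00pm_213_s3 t 1010 8118 1 = true :=
  ⟨(b (a (a (a (l 4) (a (l 4) (b (a (l 4) (b (a (l 4) (l 542323727)) (l 4))) (l 4)))) (a (a (b (a (b (a (l 541811215) (l 541565967)) (a (l 4) (l 542067215))) (b (a (l 541051663) (l 541073679)) (a (l 541822735) (l 541308943)))) (a (l 4) (b (a (l 542591503) (l 542078991)) (l 4)))) (b (a (b (a (l 16777304) (l 16777320)) (a (l 541062671) (l 16777288))) (b (l 16777352) (c (l 16777320) (l 16777320)))) (a (b (a (l 541565711) (l 541051407)) (a (l 542334991) (l 541822223))) (b (a (l 541073423) (l 16777304)) (a (l 541308431) (l 541062159)))))) (a (b (a (b (l 16777400) (l 16777368)) (l 16777432)) (a (b (l 16777336) (a (l 16777288) (l 16777312))) (b (l 16777376) (l 16777344)))) (b (l 16777496) (a (l 16777408) (l 16777456)))))) (a (a (a (l 16780176) (l 16777656)) (l 16777800)) (l 16783344))) (a (a (l 4) (a (a (l 4) (b (a (b (a (l 4) (l 542590735)) (l 4)) (b (a (l 542078479) (l 541565199)) (a (l 4) (l 542334479))))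 (l 4))) (a (b (a (b (a (l 541319439) (l 541072911)) (a (l 541821455) (l 541576463))) (b (a (l 16777304) (l 16777328)) (a (l 541061903) (l 16777296)))) (a (b (a (b (l 541000463) (l 4)) (l 542346255)) (l 4)) (b (a (l 541832975) (l 541319183)) (a (l 542602255) (l 542089487))))) (b (a (b (l 16777360) (l 16777328)) (c (l 16777384) (l 16777384))) (a (b (a (l 541072655) (l 16777304)) (a (l 541575951) (l 541330191))) (b (l 16777336) (a (l 16777296) (l 16777312)))))))) (a (a (a (b (a (l 16777432) (l 16777480)) (a (b (l 16777384) (l 16777352)) (l 16777408))) (b (l 16777544) (c (l 16777480) (l 16777480)))) (a (l 16780232) (l 16777704))) (a (l 16777848) (l 16778056))))), by decide +kernel⟩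

def k82_A00pm_213_s3 : ∃ t, chk3 f_A00pm_213_s3 t 1010 16238 1 = true :=
  ⟨(a (a (l 4) (a (l 4) (a (b (a (l 4) (b (a (l 4) (b (l 540999951) (l 4))) (l 4))) (l 4)) (b (a (b (a (l 542345743) (l 541832719)) (a (l 4) (l 542601487))) (b (a (l 541318671) (l 541072399)) (a (l 542088975) (l 541575439)))) (a (l 4) (b (a (b (l 540999439) (l 4)) (l 542344975)) (l 4))))))) (a (a (a (b (a (b (a (l 16777304) (l 16777328)) (a (l 541329679) (l 16777296))) (b (l 16777360) (l 16777328))) (a (b (a (l 542100495) (l 541586703)) (a (b (l 541011215) (l 540993039)) (l 542356751))) (b (a (l 541072143) (l 16777304)) (a (l 541843471) (l 541329423))))) (b (a (c (l 16777392) (l 16777384)) (l 16777432)) (a (b (l 16777336) (a (l 16777296) (l 16777320))) (b (l 16777384) (l 16777352))))) (a (b (l 16777504) (a (l 16777416) (l 16777456))) (l 16780184))) (a (a (l 16777656) (l 16777752)) (l 16777904)))), by decide +kernel⟩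

def k83_A00pm_213_s3 : ∃ t, chk3 f_A00pm_213_s3 t 1010 16239 1 = true :=
  ⟨(a (l 4) (a (a (a (b (a (b (a (l 4) (b (l 540998927) (l 4))) (l 4)) (b (a (l 542613007) (l 542099983)) (a (b (l 540986383) (l 4)) (b (l 541010703) (l 540992527))))) (l 4)) (b (a (b (a (l 541586447) (l 541340431)) (a (l 542356239) (l 541843215))) (b (a (l 16777304) (l 16777328)) (a (l 541597455) (l 16777296)))) (a (b (a (b (l 540998415) (l 4)) (l 542612239)) (a (l 4) (b (l 540985871) (l 4)))) (b (a (l 542099727) (l 541854479)) (a (b (l 541010447) (l 540992015)) (l 542624271)))))) (a (b (a (b (l 16777360) (l 16777328)) (l 16777392)) (a (b (a (l 541340175) (l 16777312)) (a (l 542111247) (l 541597199))) (b (l 16777344) (a (l 16777296) (l 16777320))))) (b (a (l 16777440) (l 16777480)) (a (b (l 16777384) (l 16777352)) (l 16777416))))) (a (a (b (l 16777552) (l 16777480)) (l 16780232)) (a (l 16777712) (l 16777808))))), by decide +kernel⟩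

def k84_A00pm_213_s3 : ∃ t, chk3 f_A00pm_213_s3 t 1011 1014 1 = true :=
  ⟨(b (l 16800384) (a (b (b (l 16789224) (l 16789248)) (a (a (b (l 16778336) (l 16783272)) (b (l 16778440) (l 16778240))) (b (l 16789216) (l 16788872)))) (b (l 16778832) (l 16789064)))), by decide +kernel⟩

def k85_A00pm_213_s3 : ∃ t, chk3 f_A00pm_213_s3 t 2020 2030 1 = true :=
  ⟨(l 4), by decide +kernel⟩

def k86_A00pm_213_s3 : ∃ t, chk3 f_A00pm_213_s3 t 4042 8120 1 = true :=
  ⟨(a (b (a (l 4) (b (a (l 4) (b (a (l 4) (b (l 540997903) (l 4))) (l 4))) (l 4))) (l 4)) (b (a (b (a (b (a (b (l 541022223) (l 541004047)) (l 542367503)) (a (b (l 540985359) (l 4)) (b (l 541009935) (l 540991503)))) (b (a (l 541854223) (l 16777288)) (a (l 542623759) (l 542110735)))) (a (l 4) (b (a (b (l 540997647) (l 4)) (b (l 541021711) (l 541003535))) (a (l 4) (b (l 540984847) (l 4)))))) (b (a (b (a (l 16777312) (l 16777328)) (a (l 541596943) (l 16777296))) (b (l 16777368) (l 16777328))) (a (b (a (l 542366991) (l 541853711))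 (a (b (l 541009423) (l 540990991)) (l 542623247))) (b (a (l 16777288) (l 16777312)) (a (l 542110479) (l 541864975)))))) (a (l 4) (b (a (b (a (l 4) (b (l 540997135) (l 4))) (l 4)) (b (a (b (l 541021455) (l 541003023)) (l 542635023)) (a (b (l 540984335) (l 4)) (b (l 541009167) (l 540990479))))) (l 4))))), by decide +kernel⟩

def k87_A00pm_213_s3 : ∃ t, chk3 f_A00pm_213_s3 t 4043 8120 1 = true :=
  ⟨(a (b (a (b (a (l 16777392) (l 16777440)) (a (b (l 16777344) (a (l 16777304) (l 16777320))) (b (l 16777392) (l 16777352)))) (b (l 16777504) (a (l 16777416) (l 16777464)))) (a (b (a (b (a (l 542121999) (l 16777288)) (a (b (l 541032975) (l 541015055)) (l 542378255))) (b (a (l 16777312) (l 16777336)) (a (l 541864719) (l 16777304)))) (a (b (a (b (l 540996623) (l 540977423)) (b (l 541020943) (l 541002767))) (a (l 4) (b (l 540983823) (l 4)))) (b (a (l 542634511) (l 542121487)) (a (b (l 541008655) (l 540989967)) (b (l 541032719) (l 541014543)))))) (b (a (b (l 16777368) (l 16777336)) (l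 16777392)) (a (b (a (l 16777288) (l 16777312)) (a (l 542377999) (l 541864463))) (b (l 16777344) (a (l 16777304) (l 16777328))))))) (b (a (l 16780192) (l 16777664)) (a (b (a (l 16777440) (l 16780112)) (a (b (l 16777392) (l 16777360)) (l 16777416))) (b (l 16777560) (l 16777488))))), by decide +kernel⟩

def k88_A00pm_213_s3 : ∃ t, chk3 f_A00pm_213_s3 t 2021 8121 1 = true :=
  ⟨(a (l 4) (a (b (a (b (a (l 4) (b (a (l 4) (b (l 540996111) (l 540976911))) (l 4))) (l 4)) (b (a (b (a (b (l 541020687) (l 541002255)) (l 542634255)) (a (b (l 540983311) (l 4)) (b (l 541008399) (l 540989455)))) (b (a (l 542389519) (l 16777288)) (a (b (l 541032463) (l 541014287)) (l 542646031)))) (a (l 4) (b (a (b (l 540995599) (l 540976399)) (b (l 541020175) (l 541001743))) (a (l 4) (b (l 540982543) (l 4))))))) (l 4)) (b (a (b (a (b (c (l 16777328) (l 16777328)) (a (l 542132751) (l 16777304))) (b (l 16777368) (l 16777336))) (a (b (a (b (l 541043983) (l 541026319)) (l 542389263)) (a (b (l 541007887) (l 540988943))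 (b (l 541032207) (l 541014031)))) (b (a (l 16777296) (l 16777312)) (a (l 542645775) (l 542132239))))) (b (a (l 16777400) (l 16777440)) (a (b (l 16777344) (a (l 16777304) (l 16777328))) (b (l 16777392) (l 16777360))))) (a (b (a (b (a (l 4) (b (l 540995087) (l 540975887))) (l 4)) (b (a (b (l 541019919) (l 541001231)) (b (l 541043727) (l 541025807))) (a (b (l 540982287) (l 4)) (b (l 541007375) (l 540988431))))) (l 4)) (b (a (b (a (l 542389007) (l 16777296)) (a (b (l 541031951) (l 541013519)) (b (l 16777272) (l 541037583)))) (b (c (l 16777328) (l 16777328)) (a (l 542400527) (l 16777304)))) (a (b (a (b (l 540994831) (l 540975119)) (b (l 541019663) (l 541000975))) (a (l 4) (b (l 540981519) (l 4)))) (b (a (b (l 541043471) (l 541025551)) (l 542657039)) (a (b (l 541007119) (l 540987919)) (b (l 541031439) (l 541013263)))))))))), by decide +kernel⟩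

def k89_A00pm_213_s3 : ∃ t, chk3 f_A00pm_213_s3 t 2021 4061 1 = true :=
  ⟨(a (l 4) (b (b (a (l 4) (a (l 4) (b (a (l 4) (b (a (b (l 540968207) (l 4)) (b (l 540994319) (l 540974607))) (l 4))) (l 4)))) (l 4)) (l 4))), by decide +kernel⟩

def k90_A00pm_213_s3 : ∃ t, chk3 f_A00pm_213_s3 t 1010 2031 1 = true :=
  ⟨(l 2), by decide +kernel⟩

def k91_A00pm_213_s3 : ∃ t, chk3 f_A00pm_213_s3 t 2022 4060 1 = true :=
  ⟨(a (b (a (b (l 16777808) (a (l 16780240) (l 16777712))) (c (l 16783184) (l 16783176))) (a (b (a (b (l 16777512) (a (l 16777424) (l 16777464))) (l 16780192)) (a (b (a (b (l 16777368) (l 16777336)) (l 16777400)) (a (b (a (l 16777296) (l 16777320)) (a (b (l 16777272) (l 541037583)) (l 542400271))) (b (l 16777352) (a (l 16777304) (l 16777328))))) (b (a (l 16777448) (l 16777488)) (a (b (l 16777392) (l 16777360)) (l 16777424))))) (b (a (l 16777664) (l 16777768)) (a (b (l 16777560) (l 16777496)) (l 16780240))))) (b (l 16783504) (a (b (l 16777912) (a (l 16777720) (l 16777816)))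 (l 16783288)))), by decide +kernel⟩

def k92_A00pm_213_s3 : ∃ t, chk3 f_A00pm_213_s3 t 8088 8122 1 = true :=
  ⟨(b (a (b (a (b (a (b (l 541019151) (l 541000463)) (b (l 541043215) (l 541025295))) (a (b (l 540981007) (l 4)) (b (l 541006607) (l 540987407)))) (b (a (l 542656783) (l 16777296)) (a (b (l 541031183) (l 541012751)) (b (l 16777272) (l 541037327))))) (a (b (a (l 4) (b (l 540967695) (l 4))) (l 4)) (b (a (b (l 540993807) (l 540974095)) (b (l 541018895) (l 540999951))) (a (l 4) (b (l 540980495) (l 4)))))) (b (a (b (c (l 16777328) (l 16777328)) (a (l 542400015) (l 16777304))) (b (l 16777376) (l 16777344))) (a (b (a (b (l 541043215) (l 541025039)) (b (l 16777280) (l 16777264))) (a (b (l 541006351) (l 540986895)) (b (l 541030927) (l 541012495)))) (b (a (l 16777296) (l 16777320)) (a (b (l 16777272) (l 541037071)) (l 542668047)))))) (a (l 4) (b (a (b (a (b (l 540967183) (l 4)) (b (l 540993295) (l 540973583))) (l 4)) (b (a (b (l 541018639) (l 540999695)) (b (l 16777264) (l 541024783)))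 (a (b (l 540979983) (l 4)) (b (l 541005839) (l 540986639))))) (a (l 4) (b (a (l 4) (b (l 540966415) (l 4))) (l 4)))))), by decide +kernel⟩

def k93_A00pm_213_s3 : ∃ t, chk3 f_A00pm_213_s3 t 8089 8122 1 = true :=
  ⟨(b (a (b (a (l 16777400) (l 16777448)) (a (b (l 16777352) (a (l 16777312) (l 16777328))) (b (l 16777400) (l 16777360)))) (b (l 16777520) (a (l 16777424) (l 16777472)))) (a (b (a (b (a (b (l 16777288) (l 16777272)) (l 16777296)) (a (b (l 541030671) (l 541012239)) (b (l 16777272) (l 541036815)))) (b (c (l 16777328) (l 16777328)) (a (l 542667791) (l 16777312)))) (a (b (a (b (l 540993039) (l 540973071)) (b (l 541018127) (l 540999183))) (a (l 4) (b (l 540979471) (l 4)))) (b (a (b (l 16777264) (l 541024271)) (b (l 16777288) (l 16777272))) (a (b (l 541005583) (l 540986127)) (b (l 541030415) (l 541011727)))))) (b (a (b (l 16777376) (l 16777344)) (l 16777408)) (a (b (a (l 16777296) (l 16777320)) (a (b (l 16777272) (l 541036559)) (c (l 16777288) (l 16777288)))) (b (l 16777352)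 (a (l 16777312) (l 16777336))))))), by decide +kernel⟩

def k94_A00pm_213_s3 : ∃ t, chk3 f_A00pm_213_s3 t 4044 8123 1 = true :=
  ⟨(a (l 4) (b (a (b (a (l 4) (b (a (b (l 540965903) (l 4)) (b (l 540992527) (l 540972559))) (l 4))) (l 4)) (b (a (b (a (b (l 541017871) (l 540998927)) (b (l 16777264) (l 541024015))) (a (b (l 540978959) (l 4)) (b (l 541005071) (l 540985615)))) (b (a (b (l 16777288) (l 16777272)) (l 16777304)) (a (b (l 541030159) (l 541011471)) (b (l 16777280) (l 541036303))))) (a (b (a (l 4) (b (l 540965391) (l 4))) (l 4)) (b (a (b (l 540992015) (l 540972047)) (b (l 541017615) (l 540998415))) (a (l 4) (b (l 540978703) (l 541226511))))))) (l 4))), by decide +kernel⟩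

def k95_A00pm_213_s3 : ∃ t, chk3 f_A00pm_213_s3 t 4045 8122 1 = true :=
  ⟨(a (b (a (l 16780200) (l 16777672)) (a (b (a (l 16777448) (l 16777496)) (a (a (l 16777368) (l 16777392)) (l 16777424))) (b (l 16777568) (l 16777496)))) (b (l 16777816) (a (l 16780248) (l 16777720)))), by decide +kernel⟩

def k96_A00pm_213_s3 : ∃ t, chk3 f_A00pm_213_s3 t 4045 8123 1 = true :=
  ⟨(a (b (a (b (a (b (l 16777336) (a (c (l 16777288) (l 16777288)) (l 16777312))) (b (l 16777376) (l 16777344))) (a (b (a (b (l 16777264) (l 541023759)) (b (l 16777288) (l 16777272))) (a (b (l 541004815) (l 540985103)) (b (l 541029903) (l 541010959)))) (b (a (l 16777304) (l 16777320)) (a (b (l 16777280) (l 541036047)) (c (l 16777288) (l 16777288)))))) (b (a (l 16777408) (l 16777448)) (a (b (l 16777360) (a (l 16777312) (l 16777336))) (a (l 16777376) (l 16777392))))) (a (b (a (b (a (b (l 541233167) (l 4)) (b (l 540991503) (l 540971535))) (l 4)) (b (a (b (l 541017359) (l 540997903)) (b (l 16777264) (l 541023503)))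 (a (b (l 540977935) (l 541494287)) (b (l 541004303) (l 540984591))))) (a (l 4) (b (a (l 4) (b (l 541232655) (l 4))) (l 4)))) (b (a (b (a (b (l 16777288) (l 16777272)) (l 16777304)) (a (b (l 541029647) (l 541010703)) (b (l 16777280) (l 541035791)))) (b (l 16777336) (a (l 16777296) (l 16777312)))) (a (b (a (b (l 540991247) (l 541239311)) (b (l 541017103) (l 540997647))) (a (l 4) (b (l 540977679) (l 541493775)))) (b (a (b (l 16777272) (l 541023247)) (b (l 16777288) (l 16777272))) (a (b (l 541004047) (l 540984335)) (b (l 541029391) (l 541010447)))))))) (b (a (b (l 16777520) (a (l 16777432) (l 16777472))) (l 16780200)) (a (b (a (b (l 16777376) (l 16777344)) (l 16777408)) (a (b (a (l 16777304) (l 16777328)) (a (b (l 16777280) (l 541035535)) (l 16777296))) (b (l 16777360) (a (l 16777312) (l 16777336))))) (b (a (l 16777456) (l 16777504)) (a (b (l 16777400) (l 16777368)) (l 16777432)))))), by decide +kernel⟩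

def k97_A00pm_213_s3 : ∃ t, chk3 f_A00pm_213_s3 t 2023 2030 1 = true :=
  ⟨(b (a (a (b (l 16788928) (l 16778248)) (l 16788944)) (l 16789152)) (b (a (a (l 16783192) (l 16778152)) (b (l 16788912) (l 16788728))) (a (a (b (a (l 16777680) (l 16777776)) (a (b (l 16777568) (l 16777504)) (l 16777632))) (b (l 16777928) (a (l 16777728) (l 16777824)))) (a (l 16783296) (l 16778264))))), by decide +kernel⟩

def k98_A00pm_213_s3 : ∃ t, chk3 f_A00pm_213_s3 t 2022 2031 1 = true :=
  ⟨(b (a (l 4) (b (a (b (a (l 4) (b (a (l 4) (b (a (b (l 541500431) (l 4)) (b (l 540990735) (l 541238799))) (l 4))) (l 4))) (l 4)) (b (a (b (a (b (a (b (l 541016847) (l 540997135)) (b (l 16777272) (l 541022991))) (a (b (l 541245455) (l 541493007)) (b (l 541003791) (l 540983823)))) (b (a (b (l 16777288) (l 16777272)) (l 16777304)) (a (b (l 541029135) (l 541010191)) (b (l 16777280) (l 16777264))))) (a (b (a (l 4) (b (l 541499919) (l 4))) (l 4)) (b (a (b (l 540990223) (l 541506831)) (b (l 541016335) (l 540996879)))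 (a (l 4) (b (l 541244943) (l 541761039)))))) (b (a (b (l 16777336) (a (l 16777296) (l 16777312))) (b (l 16777384) (l 16777352))) (a (b (a (b (l 16777272) (l 541022735)) (b (l 16777288) (l 16777272))) (a (b (l 541003279) (l 541251599)) (b (l 541028879) (l 541009679)))) (b (a (l 16777304) (l 16777328)) (a (b (l 16777280) (l 16777264)) (l 16777296)))))) (a (l 4) (b (a (b (a (b (l 541499407) (l 4)) (b (l 540989967) (l 541506319))) (a (l 4) (b (l 542021903) (l 4)))) (b (a (b (l 541016079) (l 540996367)) (b (l 16777272) (l 541022479))) (a (b (l 541512975) (l 541760271)) (b (l 541003023) (l 541251343))))) (a (l 4) (b (a (l 4) (b (l 541767183) (l 4))) (l 4))))))) (l 4))) (l 4)), by decide +kernel⟩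

def k99_A00pm_213_s3 : ∃ t, chk3 f_A00pm_213_s3 t 4046 8124 1 = true :=
  ⟨(a (b (a (b (a (l 16777408) (l 16777456)) (a (b (l 16777360) (a (l 16777320) (l 16777336))) (b (l 16777408) (l 16777376)))) (b (l 16777528) (a (l 16777432) (l 16777480)))) (a (b (a (b (a (a (l 16777280) (l 16777288)) (l 16777304)) (a (b (l 541028879) (l 541009423)) (b (l 16777280) (l 16777264)))) (b (l 16777336) (a (l 16777296) (l 16777320)))) (a (b (a (b (l 541257999) (l 541505807)) (b (l 541015823) (l 540996111))) (a (b (l 542021135) (l 4)) (b (l 541512463) (l 542028303)))) (b (a (b (l 16777272) (l 541022223)) (a (l 16777280) (l 16777288))) (a (b (l 541002767) (l 541519375)) (b (l 541028623) (l 541009167)))))) (b (a (b (l 16777384) (l 16777352)) (l 16777416)) (a (b (a (l 16777304) (l 16777328)) (a (b (l 16777280) (l 16777264)) (l 16777296))) (b (l 16777360) (a (l 16777320) (l 16777344))))))) (b (a (l 16780208) (l 16777680)) (a (b (a (l 16777456) (l 16777504)) (a (b (l 16777408) (l 16777376)) (l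 16777440))) (b (l 16777576) (l 16777504))))), by decide +kernel⟩

def k100_A00pm_213_s3 : ∃ t, chk3 f_A00pm_213_s3 t 8092 8125 1 = true :=
  ⟨(b (a (b (a (l 4) (b (a (b (l 541766671) (l 4)) (b (l 541257487) (l 541773583))) (a (l 4) (b (l 542020623) (l 4))))) (l 4)) (b (a (b (a (b (l 541015567) (l 541264143)) (b (l 16777272) (l 541021967))) (a (b (l 541512207) (l 542027535)) (b (l 541270799) (l 541518863)))) (b (a (a (l 16777280) (l 16777296)) (l 16777312)) (a (b (l 541028367) (l 541008911)) (b (l 16777288) (l 16777272))))) (a (b (a (l 4) (b (l 542034703) (l 4))) (l 4)) (b (a (b (l 541525519) (l 541773071)) (b (l 541015311) (l 541263887))) (a (b (l 542288399) (l 4)) (b (l 541779983) (l 542027023))))))) (l 4)), by decide +kernel⟩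

def k101_A00pm_213_s3 : ∃ t, chk3 f_A00pm_213_s3 t 8093 8125 1 = true :=
  ⟨(b (a (b (a (b (l 16777344) (a (l 16777296) (l 16777320))) (b (l 16777384) (l 16777352))) (a (b (a (b (l 16777272) (l 541021711)) (b (l 16777296) (l 16777280))) (a (b (l 541270543) (l 541518351)) (b (l 541028111) (l 541276943)))) (b (a (l 16777312) (l 16777328)) (a (b (l 16777288) (l 16777272)) (l 16777296))))) (b (a (l 16777416) (l 16777464)) (a (b (l 16777368) (a (l 16777320) (l 16777344))) (b (l 16777408) (l 16777376))))) (a (b (a (b (a (b (l 542034191) (l 4)) (b (l 541525263) (l 542041103))) (a (l 4) (b (l 542287887) (l 4)))) (b (a (b (l 541015055) (l 541531919)) (b (l 16777272) (l 541021455))) (a (b (l 541779471) (l 542294799)) (b (l 541270031) (l 541786383))))) (a (l 4) (b (a (l 4) (b (l 542033679) (l 4))) (l 4)))) (b (a (b (a (b (l 16777296) (l 16777280)) (l 16777312)) (a (b (l 541027855) (l 541276687)) (b (l 16777288) (l 16777272)))) (b (l 16777344) (a (l 16777304) (l 16777320)))) (a (b (a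 (b (l 541524751) (l 542040591)) (b (l 541283343) (l 541531407))) (a (b (l 542555663) (l 4)) (b (l 542047503) (l 542294287)))) (b (a (b (l 16777280) (l 541021199)) (b (l 16777296) (l 16777280))) (a (b (l 541538319) (l 541786127)) (b (l 541027855) (l 541276431)))))))), by decide +kernel⟩

def k102_A00pm_213_s3 : ∃ t, chk3 f_A00pm_213_s3 t 4047 4062 1 = true :=
  ⟨(b (a (b (l 16777832) (a (l 16777640) (l 16777736))) (l 16783200)) (a (b (a (b (l 16777528) (a (l 16777440) (l 16777488))) (l 16780208)) (a (b (a (b (l 16777392) (l 16777352)) (l 16777416)) (a (b (a (l 16777312) (l 16777336)) (a (b (l 16777288) (l 16777272)) (l 16777304))) (b (l 16777368) (c (l 16777336) (l 16777336))))) (b (c (l 16780112) (l 16780104)) (a (b (l 16777408) (l 16777376)) (l 16777440))))) (b (a (l 16777688) (l 16777784)) (a (b (l 16777584) (l 16777512)) (l 16777640))))), by decide +kernel⟩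

def k103_A00pm_213_s3 : ∃ t, chk3 f_A00pm_213_s3 t 4046 4063 1 = true :=
  ⟨(b (a (l 4) (b (a (l 4) (b (a (l 4) (b (a (b (l 542301455) (a (l 4) (l 540953103))) (b (l 541792783) (l 542040079))) (a (l 4) (b (l 542554895) (l 4))))) (l 4))) (l 4))) (l 4)), by decide +kernel⟩

def k104_A00pm_213_s3 : ∃ t, chk3 f_A00pm_213_s3 t 8094 8126 1 = true :=
  ⟨(b (a (b (a (b (a (b (l 541283087) (l 541531151)) (b (l 16777280) (l 541289487))) (a (b (l 542046991) (l 542562319)) (b (l 541537807) (l 542053903)))) (b (a (b (l 16777296) (l 16777280)) (l 16777312)) (a (b (l 16777264) (l 541544719)) (b (l 16777288) (l 16777272))))) (a (b (a (l 4) (b (l 542300943) (a (l 4) (l 540952591)))) (l 4)) (b (a (b (l 541792527) (l 542308111)) (b (l 541282831) (l 541799183))) (a (b (a (l 4) (l 540959759)) (l 4)) (b (l 542046735) (l 542561551)))))) (b (a (b (l 16777344) (a (l 16777304) (l 16777328))) (b (l 16777392) (l 16777360))) (a (b (a (b (l 16777280) (l 541289231)) (b (l 16777296) (l 16777280))) (a (b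 (l 541537551) (l 542053647)) (b (l 16777272) (l 541544207)))) (b (a (l 16777312) (l 16777336)) (a (b (l 16777288) (l 16777272)) (l 16777304)))))) (a (l 4) (b (a (b (a (b (l 542568719) (a (l 4) (l 540952079))) (b (l 542060559) (l 542307599))) (a (l 4) (b (a (l 4) (l 540959247)) (l 4)))) (b (a (b (l 541550863) (l 541798927)) (b (l 16777280) (l 541289231))) (a (b (l 542314767) (a (l 540951823) (l 540966415))) (b (l 541805839) (l 542053135))))) (a (l 4) (b (a (l 4) (b (l 542568207) (a (l 4) (l 540951567)))) (l 4)))))), by decide +kernel⟩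

def k105_A00pm_213_s3 : ∃ t, chk3 f_A00pm_213_s3 t 8095 8126 1 = true :=
  ⟨(b (a (b (a (l 16777416) (l 16777464)) (a (b (l 16777368) (c (l 16777336) (l 16777336))) (b (l 16777416) (l 16777384)))) (b (l 16777536) (a (l 16777440) (l 16777488)))) (a (b (a (b (a (c (l 16777296) (l 16777296)) (l 16777312)) (a (b (l 16777272) (l 541543951)) (b (l 16777288) (l 16777272)))) (b (l 16777344) (a (l 16777304) (l 16777328)))) (a (b (a (b (l 542060047) (l 542575631)) (b (l 541550607) (l 542066959))) (a (b (a (l 4) (l 540958735)) (l 4)) (b (l 542314255) (a (l 540951311) (l 540965903))))) (b (a (b (l 16777280) (l 541557263)) (c (l 16777296) (l 16777296))) (a (b (l 541805327) (l 542321167)) (b (l 16777272) (l 541812239)))))) (b (a (b (l 16777392) (l 16777360)) (l 16777424)) (a (b (a (l 16777312) (l 16777336)) (a (b (l 16777288) (l 16777272)) (l 16777304))) (b (l 16777368) (c (l 16777336) (l 16777336))))))), by decide +kernel⟩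

def k106_A00pm_213_s3 : ∃ t, chk3 f_A00pm_213_s3 t 4047 8127 1 = true :=
  ⟨(a (l 4) (b (a (b (a (l 4) (b (a (b (a (l 540958735) (l 540973071)) (a (l 4) (l 540951311))) (b (l 542059791) (l 542575119))) (a (l 4) (b (a (l 4) (l 540958479)) (l 4))))) (l 4)) (b (a (b (a (b (l 541550607) (l 542066703)) (b (l 16777280) (l 541557263))) (a (b (l 542582287) (a (l 540951055) (l 540965647))) (b (l 542073615) (l 542320911)))) (b (a (c (l 16777296) (l 16777296)) (l 16777320)) (a (b (l 16777272) (l 541811983)) (b (l 16777296) (l 16777280))))) (a (b (a (b (a (l 4) (l 540943375)) (l 4)) (b (a (l 540958223) (l 540972815)) (a (l 4) (l 540950799)))) (l 4)) (b (a (b (l 542327823) (a (l 540965391) (l 540979727))) (b (l 541818639) (l 542334735))) (a (b (a (l 540943119) (l 540957967)) (l 4)) (b (l 542581775) (a (l 540950543) (l 540965135)))))))) (a (l 4) (b (a (l 4) (b (a (l 4) (b (a (l 4) (l 540942863)) (l 4))) (l 4))) (l 4))))), by decide +kernel⟩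

def k107_A00pm_213_s3 : ∃ t, chk3 f_A00pm_213_s3 t 253 506 1 = true :=
  ⟨(l 16825744), by decide +kernel⟩

def k108_A00pm_213_s3 : ∃ t, chk3 f_A00pm_213_s3 t 506 1014 1 = true :=
  ⟨(a (l 16802600) (l 16785336)), by decide +kernel⟩

def k109_A00pm_213_s3 : ∃ t, chk3 f_A00pm_213_s3 t 1012 2030 1 = true :=
  ⟨(a (b (l 16778456) (a (a (l 16788984) (l 16789032)) (l 16778144))) (l 16779472)), by decide +kernel⟩

def k110_A00pm_213_s3 : ∃ t, chk3 f_A00pm_213_s3 t 2024 4062 1 = true :=
  ⟨(a (b (a (l 16778160) (l 16788728)) (a (b (l 16777936) (c (l 16783032) (l 16783024))) (l 16783304))) (b (l 16789008) (a (l 16783392) (l 16788880)))), by decide +kernel⟩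

def k111_A00pm_213_s3 : ∃ t, chk3 f_A00pm_213_s3 t 4048 8126 1 = true :=
  ⟨(a (b (a (l 16780216) (l 16777688)) (a (b (c (l 16780112) (l 16780112)) (a (b (l 16777416) (l 16777384)) (l 16777448))) (b (l 16777584) (l 16777512)))) (b (l 16777840) (a (l 16777648) (l 16777744)))), by decide +kernel⟩

def k112_A00pm_213_s3 : ∃ t, chk3 f_A00pm_213_s3 t 8096 8127 1 = true :=
  ⟨(b (a (b (a (b (l 16777352) (a (l 16777304) (l 16777328))) (b (l 16777392) (l 16777360))) (a (b (a (b (l 16777280) (l 541557007)) (c (l 16777296) (l 16777296))) (a (b (l 542073359) (l 542588943)) (b (l 16777272) (l 542080271)))) (b (a (l 16777320) (l 16777336)) (a (b (l 16777296) (l 16777280)) (l 16777304))))) (b (a (l 16777424) (l 16777472)) (a (b (l 16777376) (l 16777344)) (b (l 16777416) (l 16777384))))) (a (b (a (b (a (b (a (l 540957711) (l 540972303)) (a (l 4) (l 540950287))) (b (l 542327567) (a (l 540965135) (l 540979471)))) (a (l 4) (b (a (l 540942607) (l 540957711)) (l 4)))) (b (a (b (l 541818383)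 (l 542334479)) (b (l 16777280) (l 541825295))) (a (b (a (l 540972303) (l 540986639)) (a (l 540950031) (l 540964879))) (b (l 542341391) (l 542588431))))) (a (l 4) (b (a (b (a (l 4) (l 540942351)) (l 4)) (b (a (l 540957455) (l 540972047)) (a (l 4) (l 540949775)))) (l 4)))) (b (a (b (a (c (l 16777296) (l 16777296)) (l 16777320)) (a (b (l 16777272) (l 542080015)) (b (l 16777296) (l 16777280)))) (b (l 16777352) (a (l 16777312) (l 16777328)))) (a (b (a (b (l 542595599) (a (l 540964623) (l 540979215))) (b (l 542086671) (l 542334223))) (a (b (a (l 540942095) (l 540957199)) (l 4)) (b (a (l 540971791) (l 540986127)) (a (l 540949519) (l 540964623))))) (b (a (b (l 16777288) (l 16777272)) (l 16777296)) (a (b (l 542341135) (a (l 540978959) (l 540993295))) (b (l 16777272) (l 542348047)))))))), by decide +kernel⟩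

def k113_A00pm_213_s3 : ∃ t, chk3 f_A00pm_213_s3 t 8097 8127 1 = true :=
  ⟨(b (a (b (l 16777536) (a (l 16777448) (l 16777496))) (l 16780224)) (a (b (a (b (l 16777400) (l 16777360)) (l 16777424)) (a (b (a (l 16777320) (l 16777344)) (a (b (l 16777296) (l 16777280)) (l 16777312))) (b (l 16777376) (l 16777344)))) (b (l 16780120) (a (b (l 16777424) (l 16777384)) (l 16777448))))), by decide +kernel⟩

def k114_A00pm_213_s3 : ∃ t, chk3 f_A00pm_213_s3 t 4049 4063 1 = true :=
  ⟨(b (a (l 16783208) (l 16783320)) (a (b (a (l 16777696) (l 16777792)) (a (b (l 16777592) (l 16777520)) (l 16777648))) (b (l 16777944) (l 16783040)))), by decide +kernel⟩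

def k115_A00pm_213_s3 : ∃ t, chk3 f_A00pm_213_s3 t 2025 2031 1 = true :=
  ⟨(b (l 16788776) (a (b (l 16788864) (a (l 16783320) (c (l 16788648) (l 16788632)))) (l 16788936))), by decide +kernel⟩

def k116_A00pm_213_s3 : ∃ t, chk3 f_A00pm_213_s3 t 1013 1015 1 = true :=
  ⟨(b (l 16781968) (l 16790280)), by decide +kernel⟩

def k117_A00pm_213_s3 : ∃ t, chk3 f_A00pm_213_s3 t 507 507 1 = true :=
  ⟨(l 16809664), by decide +kernel⟩

def k118_A00pm_213_s3 : ∃ t, chk3 f_A00pm_213_s3 t 127 126 1 = true :=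
  ⟨(a (b (l 16913168) (b (l 16897040) (l 16844128))) (b (l 17028832) (a (l 16906944) (l 16978520)))), by decide +kernel⟩

def k119_A00pm_213_s3 : ∃ t, chk3 f_A00pm_213_s3 t 252 254 1 = true :=
  ⟨(l 4), by decide +kernel⟩

def k120_A00pm_213_s3 : ∃ t, chk3 f_A00pm_213_s3 t 4048 16256 1 = true :=
  ⟨(a (a (l 4) (b (a (b (a (l 4) (b (a (l 4) (l 540941839)) (l 4))) (l 4)) (b (a (b (a (l 540956943) (l 540971791)) (a (l 4) (l 540949519))) (b (l 542595343) (a (l 540964367) (l 540978959)))) (a (l 4) (b (a (l 540941839) (l 540956943)) (l 4))))) (l 4))) (a (b (a (b (a (b (l 542086671) (l 542602255)) (b (l 16777288) (l 16777272))) (a (b (a (l 540971535) (l 540986127)) (a (l 540949263) (l 540964111))) (b (l 542340879) (a (l 540978703) (l 540993039))))) (b (a (l 16777296) (l 16777320)) (a (b (l 16777272) (l 542347791)) (b (l 16777296) (l 16777280))))) (a (b (a (b (a (l 4) (l 540941583)) (l 4)) (b (a (l 540956687) (l 540971535)) (a (l 4) (l 540949007)))) (l 4)) (b (a (b (a (l 540985871)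 (l 540999951)) (a (l 540964111) (l 540978703))) (b (l 542354703) (l 542601999))) (a (b (a (l 540941327) (l 540956431)) (l 4)) (b (a (l 540971279) (l 540985871)) (a (l 540948751) (l 540963855))))))) (b (a (b (l 16777352) (a (l 16777312) (l 16777336))) (b (l 16777400) (l 16777368))) (a (b (a (b (l 16777288) (l 16777272)) (l 16777296)) (a (b (l 542609167) (a (l 540978447) (l 540992783))) (b (l 16777272) (l 542347791)))) (b (a (l 16777320) (l 16777344)) (a (b (l 16777296) (l 16777280)) (l 16777312))))))), by decide +kernel⟩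

def k121_A00pm_213_s3 : ∃ t, chk3 f_A00pm_213_s3 t 4048 16257 1 = true :=
  ⟨(a (l 4) (a (b (a (l 4) (b (a (l 4) (b (a (l 4) (l 540941071)) (l 4))) (l 4))) (l 4)) (b (a (b (a (b (a (l 540956175) (l 540971023)) (a (l 4) (l 540948495))) (b (a (l 540985615) (l 540999951)) (a (l 540963599) (l 540978447)))) (a (l 4) (b (a (l 540940815) (l 540956175)) (a (l 4) (l 540932879))))) (b (a (b (l 542354703) (a (l 540992783) (l 16777256))) (b (l 16777288) (l 16777272))) (a (b (a (l 540971023) (l 540985615)) (a (l 540948495) (l 540963599))) (b (l 542608911) (a (l 540978191) (l 540992783)))))) (a (l 4) (b (a (b (a (l 4) (l 540940559)) (l 4)) (b (a (l 540955919) (l 540970767)) (a (l 540932623) (l 540948239)))) (l 4)))))), by decide +kernel⟩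

def k122_A00pm_213_s3 : ∃ t, chk3 f_A00pm_213_s3 t 4048 8129 1 = true :=
  ⟨(l 4), by decide +kernel⟩

def k123_A00pm_213_s3 : ∃ t, chk3 f_A00pm_213_s3 t 4049 8128 1 = true :=
  ⟨(a (b (a (b (a (l 16777424) (l 16777472)) (a (b (l 16777376) (l 16777344)) (b (l 16777424) (l 16777392)))) (b (l 16777544) (a (l 16777448) (l 16777496)))) (a (b (a (b (a (l 16777304) (l 16777320)) (a (b (l 16777280) (l 542615823)) (b (l 16777296) (l 16777280)))) (b (l 16777352) (a (l 16777312) (l 16777336)))) (a (b (a (b (a (l 540985615) (l 540999695)) (a (l 540963343) (l 540978191))) (b (l 542354447) (a (l 540992527) (l 16777256)))) (a (b (a (l 540940303) (l 540955663)) (a (l 4) (l 540932367))) (b (a (l 540970767) (l 540985359)) (a (l 540947983) (l 540963087))))) (b (a (b (l 16777288) (l 16777272)) (l 16777304)) (a (b (a (l 540999695) (l 16777264)) (a (l 540977935) (l 540992527))) (b (l 16777280) (l 542615823)))))) (b (a (b (l 16777400) (l 16777368)) (l 16777432)) (a (b (a (l 16777320) (l 16777344))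 (a (b (l 16777296) (l 16777280)) (l 16777312))) (b (l 16777376) (l 16777344)))))) (b (a (l 16780224) (l 16777704)) (a (b (l 16780120) (a (b (l 16777424) (l 16777392)) (l 16777456))) (b (l 16777592) (l 16777520))))), by decide +kernel⟩

def k124_A00pm_213_s3 : ∃ t, chk3 f_A00pm_213_s3 t 8098 8129 1 = true :=
  ⟨(b (a (b (a (b (a (l 4) (b (a (l 4) (l 540940047)) (l 4))) (l 4)) (b (a (b (a (l 540955663) (l 540970511)) (a (l 540932111) (l 540947727))) (b (a (l 540985359) (l 540999695)) (a (l 540963087) (l 540977935)))) (a (l 4) (b (a (l 540939791) (l 540955407)) (a (l 4) (l 541200399)))))) (l 4)) (b (a (b (a (b (l 542622735) (a (l 540992527) (l 16777256))) (b (l 16777288) (l 16777272))) (a (b (a (l 540970511) (l 540985103)) (a (l 540947471) (l 540962831))) (b (a (l 16777248) (l 16777264)) (a (l 540977935) (l 540992527))))) (b (a (l 16777304) (l 16777328)) (a (b (l 16777280) (a (l 16777256) (l 16777272))) (b (l 16777304) (l 16777288))))) (a (b (a (b (a (l 4) (l 540939791)) (l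 4)) (b (a (l 540955151) (l 540970255)) (a (l 541200143) (l 540947471)))) (l 4)) (b (a (b (a (l 540985103) (l 16777256)) (a (l 540962831) (l 540977679))) (b (l 16777272) (a (l 540992271) (l 16777256)))) (a (b (a (l 540939535) (l 540955151)) (a (l 4) (l 541199887))) (b (a (l 540970255) (l 540985103)) (a (l 540947215) (l 540962575)))))))) (a (l 4) (b (a (l 4) (b (a (l 4) (b (a (l 4) (l 541207823)) (l 4))) (l 4))) (l 4)))), by decide +kernel⟩

def k125_A00pm_213_s3 : ∃ t, chk3 f_A00pm_213_s3 t 8099 8129 1 = true :=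
  ⟨(b (a (b (a (b (l 16777360) (a (l 16777312) (l 16777336))) (b (l 16777400) (l 16777368))) (a (b (a (b (l 16777288) (l 16777272)) (l 16777304)) (a (b (a (l 16777256) (l 16777264)) (a (l 540977679) (l 540992271))) (b (l 16777280) (a (l 16777256) (l 16777272))))) (b (a (l 16777328) (l 16777344)) (a (b (l 16777304) (l 16777288)) (l 16777312))))) (b (a (l 16777432) (l 16777480)) (a (b (l 16777384) (l 16777352)) (b (l 16777424) (l 16777392))))) (a (b (a (b (a (b (a (l 540954895) (l 540969999)) (a (l 541199631) (l 540946959))) (b (a (l 540984847) (l 16777256)) (a (l 540962575) (l 540977423)))) (a (l 4) (b (a (l 541207567) (l 540954639)) (a (l 4) (l 541199375))))) (b (a (b (l 16777272) (a (l 540992271) (l 16777256))) (b (l 16777288) (l 16777272))) (a (b (a (l 540969999) (l 540984847)) (a (l 541215247) (l 540962319))) (b (a (l 16777256) (l 16777264)) (a (l 540977423) (l 540992015)))))) (a (l 4) (b (a (b (a (l 4) (l 541207311)) (l 4)) (b (a (l 540954639) (l 540969743)) (a (l 541467663)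 (l 541214991)))) (l 4)))) (b (a (b (a (l 16777304) (l 16777328)) (a (b (l 16777280) (a (l 16777256) (l 16777272))) (b (l 16777304) (l 16777288)))) (b (l 16777360) (a (l 16777312) (l 16777336)))) (a (b (a (b (a (l 540984847) (l 16777256)) (a (l 540962063) (l 540977423))) (b (l 16777272) (a (l 540992015) (l 16777256)))) (a (b (a (l 541207055) (l 540954383)) (a (l 4) (l 541467407))) (b (a (l 540969743) (l 540984591)) (a (l 541214991) (l 540962063))))) (b (a (b (l 16777288) (l 16777272)) (l 16777304)) (a (b (a (l 16777256) (l 16777264)) (a (l 540977167) (l 540992015))) (b (l 16777280) (a (l 16777264) (l 16777272))))))))), by decide +kernel⟩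

def k126_A00pm_213_s3 : ∃ t, chk3 f_A00pm_213_s3 t 2024 4065 1 = true :=
  ⟨(a (l 4) (b (b (b (a (l 4) (a (l 4) (a (b (a (l 4) (b (b (l 542276623) (l 542532879)) (l 4))) (l 4)) (b (a (b (a (l 541222671) (l 540969487)) (a (l 541467151) (l 541214735))) (b (a (l 540984591) (l 16777256)) (a (l 540961807) (l 540977167)))) (a (b (a (l 4) (l 541727247)) (l 4)) (b (a (l 541475087) (l 541222415)) (a (l 4) (l 541466895)))))))) (l 4)) (l 4)) (l 4))), by decide +kernel⟩

def k127_A00pm_213_s3 : ∃ t, chk3 f_A00pm_213_s3 t 2025 4064 1 = true :=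
  ⟨(a (b (a (b (l 16777848) (a (l 16777656) (l 16777752))) (l 16783224)) (a (b (a (b (l 16777552) (a (l 16777456) (l 16777504))) (l 16780232)) (a (b (a (b (l 16777408) (l 16777368)) (l 16777432)) (a (b (a (l 16777328) (l 16777352)) (a (b (l 16777304) (l 16777288)) (l 16777320))) (b (l 16777384) (l 16777352)))) (b (l 16780128) (a (b (l 16777432) (l 16777392)) (l 16777456))))) (b (a (l 16777704) (l 16783048)) (a (b (l 16777600) (l 16777528)) (l 16777656))))) (b (a (a (l 16778136) (l 16788624)) (l 16788800)) (a (b (l 16777960) (l 16783048)) (l 16783208)))), by decide +kernel⟩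

def k128_A00pm_213_s3 : ∃ t, chk3 f_A00pm_213_s3 t 8100 16260 1 = true :=
  ⟨(a (b (a (b (a (b (l 16777272) (a (l 540992015) (l 16777264))) (b (l 16777296) (l 16777280))) (a (b (a (l 540969487) (l 540984591)) (a (l 541214479) (l 540961807))) (b (a (l 16777256) (l 16777264)) (a (l 540976911) (l 540991759))))) (b (a (l 16777304) (l 16777328)) (a (b (l 16777280) (a (l 16777264) (l 16777272))) (b (l 16777304) (l 16777288))))) (a (b (a (b (a (l 541726991) (l 541474831)) (l 4)) (b (a (l 541222415) (l 540969231)) (b (l 542284303) (l 542540559)))) (a (l 4) (b (a (l 4) (l 541726735)) (l 4)))) (b (a (b (a (l 540984335) (l 16777256)) (a (l 541230095) (l 540976911))) (b (l 16777272) (a (l 540991759) (l 16777264)))) (a (b (a (l 541474575) (l 541222159)) (a (l 4) (l 541734927))) (b (a (l 540969231) (l 540984335)) (a (l 541482511) (l 541229839))))))) (b (a (b (l 16777360) (a (l 16777320) (l 16777336))) (b (l 16777408) (l 16777376))) (a (b (a (b (l 16777296) (l 16777280)) (l 16777304))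 (a (b (a (l 16777256) (l 16777264)) (a (l 540976911) (l 540991759))) (b (l 16777280) (a (l 16777264) (l 16777272))))) (b (a (l 16777328) (l 16777352)) (a (b (l 16777304) (l 16777288)) (l 16777320)))))), by decide +kernel⟩

def k129_A00pm_213_s3 : ∃ t, chk3 f_A00pm_213_s3 t 8100 16261 1 = true :=
  ⟨(a (b (a (l 4) (b (a (l 4) (b (a (l 541726479) (l 541474575)) (l 4))) (l 4))) (l 4)) (b (a (b (a (b (a (l 541221903) (l 540969231)) (a (l 541734671) (l 541482511))) (b (a (l 540984335) (l 16777256)) (a (l 541229839) (l 540976655)))) (a (b (a (l 4) (l 541994767)) (l 4)) (b (b (l 542291727) (l 542547983)) (a (l 4) (l 541734415))))) (b (a (b (l 16777272) (a (l 540991759) (l 16777264))) (b (l 16777296) (l 16777280))) (a (b (a (l 541237519) (l 540984335)) (a (l 541482255) (l 541229583))) (b (a (l 16777256) (l 16777272)) (a (l 540976655) (l 16777256)))))) (a (l 4) (b (a (b (a (l 541994511) (l 541742607)) (l 4)) (b (a (l 541490191) (l 541237263)) (a (l 541734159) (l 541481999)))) (a (l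 4) (b (a (l 4) (l 541994255)) (l 4))))))), by decide +kernel⟩

def k130_A00pm_213_s3 : ∃ t, chk3 f_A00pm_213_s3 t 8101 8130 1 = true :=
  ⟨(b (a (b (a (l 16777432) (l 16777480)) (a (b (l 16777384) (l 16777352)) (c (l 16777416) (l 16777416)))) (b (l 16777552) (a (l 16777456) (l 16777504)))) (a (b (a (b (a (l 16777312) (l 16777328)) (a (b (l 16777288) (c (l 16777272) (l 16777272))) (b (l 16777304) (l 16777288)))) (b (l 16777360) (a (l 16777320) (l 16777344)))) (a (b (a (b (a (l 540984079) (l 16777256)) (a (l 541229583) (l 540976655))) (b (l 16777272) (a (l 16777256) (l 16777264)))) (a (b (a (l 541742351) (l 541489935)) (a (l 4) (l 542002447))) (b (a (l 541237263) (l 540984079)) (a (l 541481999) (l 541497871))))) (b (a (b (l 16777296) (l 16777280)) (l 16777312)) (a (b (a (l 16777256) (l 16777272)) (a (l 541244943) (l 16777256))) (b (l 16777288) (c (l 16777272) (l 16777272))))))) (b (a (b (l 16777408) (l 16777376)) (l 16777440)) (a (b (a (l 16777328) (l 16777352)) (a (b (l 16777304)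 (l 16777288)) (l 16777320))) (b (l 16777384) (l 16777352)))))), by decide +kernel⟩

def k131_A00pm_213_s3 : ∃ t, chk3 f_A00pm_213_s3 t 4050 8131 1 = true :=
  ⟨(a (l 4) (b (a (b (a (b (a (l 4) (b (a (l 541993999) (l 541742095)) (l 4))) (l 4)) (b (a (b (a (l 541489935) (l 541237007)) (a (l 542002191) (l 541750287))) (b (a (l 540984079) (l 16777256)) (a (l 541497615) (l 541244687)))) (a (b (a (l 4) (l 542262287)) (l 4)) (b (a (l 541741839) (l 541489679)) (a (l 4) (l 542001935)))))) (l 4)) (b (a (b (a (b (l 16777272) (a (l 16777256) (l 16777264))) (b (l 16777296) (l 16777280))) (a (b (a (l 541237007) (l 540984079)) (a (l 541750031) (l 541497615))) (b (a (l 16777256) (l 16777272)) (a (l 541244687) (l 16777256))))) (b (a (l 16777312) (l 16777336)) (a (b (l 16777288) (l 16777272)) (b (l 16777304) (l 16777288))))) (a (b (a (b (a (l 542262031) (l 542010127)) (l 4)) (b (a (l 541489423) (l 541505295)) (a (l 542001679) (l 541749775)))) (a (l 4) (b (a (l 4) (l 542261775)) (l 4)))) (b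 (a (b (a (l 541252367) (l 16777256)) (a (l 541497359) (l 541244687))) (b (l 16777272) (a (l 16777256) (l 16777264)))) (a (b (a (l 542009871) (l 541757711)) (a (l 4) (l 542269967))) (b (a (l 541505295) (l 541252367)) (a (l 541749775) (l 541497359)))))))) (a (l 4) (b (a (l 4) (b (a (l 4) (b (a (l 542261519) (l 542009871)) (a (l 4) (l 542521103)))) (l 4))) (l 4))))), by decide +kernel⟩

def k132_A00pm_213_s3 : ∃ t, chk3 f_A00pm_213_s3 t 4051 8130 1 = true :=
  ⟨(a (b (a (l 16780232) (l 16777712)) (a (b (l 16780128) (a (c (l 16777416) (l 16777416)) (l 16777464))) (b (l 16777600) (l 16777528)))) (b (l 16777856) (a (l 16777664) (l 16777760)))), by decide +kernel⟩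

def k133_A00pm_213_s3 : ∃ t, chk3 f_A00pm_213_s3 t 8102 16262 1 = true :=
  ⟨(a (b (a (b (l 16777368) (a (l 16777320) (l 16777344))) (b (l 16777408) (l 16777376))) (a (b (a (b (l 16777296) (l 16777280)) (l 16777312)) (a (b (a (l 16777264) (l 16777272)) (a (l 541244431) (l 16777256))) (b (l 16777288) (l 16777272)))) (b (a (l 16777336) (l 16777352)) (a (c (l 16777304) (l 16777304)) (l 16777320))))) (b (a (l 16777440) (l 16777488)) (a (b (l 16777392) (l 16777352)) (c (l 16777416) (l 16777416))))), by decide +kernel⟩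

def k134_A00pm_213_s3 : ∃ t, chk3 f_A00pm_213_s3 t 8102 16263 1 = true :=
  ⟨(a (b (a (b (a (b (a (l 541757711) (l 541505039)) (a (l 542269711) (l 542017807))) (b (a (l 541252111) (l 16777264)) (a (l 541497103) (l 541512975)))) (a (b (a (l 4) (l 542529807)) (l 4)) (b (a (l 542009615) (l 541757455)) (a (l 542520847) (l 542269711))))) (b (a (b (l 16777280) (a (l 16777256) (l 16777264))) (b (l 16777296) (l 16777280))) (a (b (a (l 541505039) (l 541252111)) (a (l 542017807) (l 541765391))) (b (a (l 16777264) (l 16777272)) (a (l 541512719) (l 16777256)))))) (a (l 4) (b (a (b (a (l 542529551) (l 542277903)) (a (l 4) (b (l 540924175) (l 4)))) (b (a (l 541757455) (l 541505039)) (a (l 542269455) (l 542017551)))) (a (l 4) (b (a (l 4) (l 542529295)) (l 4)))))) (b (a (b (a (l 16777312) (l 16777336)) (a (b (l 16777288) (l 16777272)) (c (l 16777304) (l 16777304)))) (b (l 16777368) (a (l 16777320) (l 16777344)))) (a (b (a (b (a (l 541252111) (l 16777264)) (a (l 541765391) (l 541512719)))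 (b (l 16777280) (a (l 16777256) (l 16777264)))) (a (b (a (l 542277647) (l 542025743)) (a (b (l 540923919) (l 4)) (l 542537487))) (b (a (l 541773327) (l 541520399)) (a (l 542017551) (l 541765135))))) (b (a (b (l 16777296) (l 16777280)) (l 16777312)) (a (b (a (l 16777264) (l 16777272)) (a (l 541512719) (l 16777256))) (b (l 16777288) (l 16777272))))))), by decide +kernel⟩

def k135_A00pm_213_s3 : ∃ t, chk3 f_A00pm_213_s3 t 8103 8131 1 = true :=
  ⟨(b (a (b (l 16777560) (a (l 16777464) (l 16777512))) (l 16780240)) (a (b (a (b (l 16777416) (l 16777376)) (l 16777440)) (a (b (c (l 16777344) (l 16777344)) (a (l 16777304) (l 16777328))) (b (l 16777392) (l 16777360)))) (b (l 16780136) (a (c (l 16777424) (l 16777416)) (l 16777464))))), by decide +kernel⟩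

def k136_A00pm_213_s3 : ∃ t, chk3 f_A00pm_213_s3 t 2024 2033 1 = true :=
  ⟨(l 2), by decide +kernel⟩

def k137_A00pm_213_s3 : ∃ t, chk3 f_A00pm_213_s3 t 4050 4066 1 = true :=
  ⟨(l 4), by decide +kernel⟩

def k138_A00pm_213_s3 : ∃ t, chk3 f_A00pm_213_s3 t 4051 16264 1 = true :=
  ⟨(a (a (l 4) (b (a (b (a (l 4) (b (a (l 542529039) (l 542277391)) (a (l 4) (b (l 540923919) (l 4))))) (l 4)) (b (a (b (a (l 542025487) (l 541773071)) (a (l 542537487) (l 542017295))) (b (a (l 541520399) (l 16777264)) (a (l 541765135) (l 541512719)))) (a (b (a (l 4) (b (l 540932111) (l 4))) (l 4)) (b (a (l 542277391) (l 542025487)) (a (b (l 540923663) (l 4)) (l 542537231)))))) (l 4))) (a (b (a (b (a (b (l 16777280) (a (l 16777256) (l 16777264))) (b (l 16777304) (l 16777288))) (a (b (a (l 541773071) (l 16777256)) (a (l 542285583) (l 542033423))) (b (a (l 16777264) (l 16777272)) (a (l 541781007) (l 16777256))))) (b (a (l 16777312) (l 16777336)) (a (b (l 16777288) (l 16777272)) (l 16777304)))) (a (b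 (a (b (a (b (l 540932111) (l 540919311)) (l 542545423)) (a (l 4) (b (l 540923407) (l 4)))) (b (a (l 542025231) (l 541773071)) (a (l 542536975) (l 542285327)))) (a (l 4) (b (a (l 4) (b (l 540931855) (l 540919055))) (l 4)))) (b (a (b (a (l 16777256) (l 16777264)) (a (l 542033423) (l 541780751))) (b (l 16777280) (a (l 16777256) (l 16777272)))) (a (b (a (l 542545423) (l 542025231)) (a (b (l 540923407) (l 4)) (b (l 540940047) (l 540927503)))) (b (a (l 541772815) (l 16777256)) (a (l 542285327) (l 542033167))))))) (b (a (b (l 16777368) (a (l 16777328) (l 16777344))) (b (l 16777416) (l 16777384))) (a (b (a (b (l 16777304) (l 16777288)) (l 16777312)) (a (b (a (l 16777264) (l 16777272)) (a (l 541780751) (l 16777256))) (b (l 16777288) (l 16777272)))) (b (c (l 16777352) (l 16777344)) (a (l 16777304) (l 16777328))))))), by decide +kernel⟩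

def k139_A00pm_213_s3 : ∃ t, chk3 f_A00pm_213_s3 t 4051 16265 1 = true :=
  ⟨(a (l 4) (a (b (a (l 4) (b (a (l 4) (b (a (b (l 540931855) (l 540918799)) (l 542545167)) (a (l 4) (b (l 540923151) (l 4))))) (l 4))) (l 4)) (b (a (b (a (b (a (l 542293519) (l 541772815)) (a (b (l 540940047) (l 540927247)) (l 542285071))) (b (a (l 16777256) (l 16777264)) (a (l 542033167) (l 541780751)))) (a (b (a (l 4) (b (l 540931599) (l 540918799))) (l 4)) (b (a (l 542544911) (l 542293263)) (a (b (l 540922895) (l 4)) (b (l 540940047) (l 540927247)))))) (b (a (b (l 16777280) (a (l 16777256) (l 16777272))) (b (l 16777304) (l 16777288))) (a (b (a (l 542041103) (l 16777256)) (a (l 542553359) (l 542032911))) (b (c (l 16777272) (l 16777272)) (a (l 541780751) (l 16777256)))))) (a (l 4) (b (a (b (a (b (l 540931343) (l 540918543)) (b (l 540948239) (l 540935695))) (a (l 4) (b (l 540922895) (l 4)))) (b (a (l 542293263) (l 542041103)) (a (b (l 540939791) (l 540926991)) (l 542553103)))) (a (l 4) (b (a (l 4)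 (b (l 540931343) (l 540918287))) (l 4)))))))), by decide +kernel⟩

def k140_A00pm_213_s3 : ∃ t, chk3 f_A00pm_213_s3 t 4051 8133 1 = true :=
  ⟨(l 4), by decide +kernel⟩

def k141_A00pm_213_s3 : ∃ t, chk3 f_A00pm_213_s3 t 2025 4067 1 = true :=
  ⟨(l 4), by decide +kernel⟩

def k142_A00pm_213_s3 : ∃ t, chk3 f_A00pm_213_s3 t 1013 2032 1 = true :=
  ⟨(a (b (a (a (b (l 16778192) (l 16788680)) (l 16788784)) (l 16778048)) (a (b (a (l 16783240) (a (l 16783280) (l 16788648))) (a (b (a (l 16777712) (l 16783056)) (a (b (l 16777608) (l 16777536)) (l 16777664))) (b (l 16777968) (l 16783056)))) (b (l 16788808) (a (b (l 16788568) (l 16778024)) (l 16788712))))) (l 16789096)), by decide +kernel⟩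

def k143_A00pm_213_s3 : ∃ t, chk3 f_A00pm_213_s3 t 4052 8132 1 = true :=
  ⟨(a (b (a (b (a (l 16777440) (l 16777488)) (a (b (l 16777392) (l 16777360)) (l 16777424))) (b (l 16777560) (c (l 16780112) (l 16780112)))) (a (b (a (b (a (l 16777312) (l 16777336)) (a (b (l 16777288) (l 16777272)) (l 16777304))) (b (l 16777368) (a (l 16777328) (l 16777352)))) (a (b (a (b (a (l 16777256) (l 16777264)) (a (l 542301455) (l 541780751))) (b (l 16777280) (a (l 16777264) (l 16777272)))) (a (b (a (b (l 540947983) (l 540935439)) (l 542293007)) (a (b (l 540922639) (l 4)) (b (l 540939791) (l 540926991)))) (b (a (l 542041103) (l 16777256)) (a (l 542553103) (l 542301199))))) (b (a (b (l 16777304) (l 16777288)) (l 16777320)) (a (b (c (l 16777272) (l 16777272)) (a (l 542049039) (l 16777264))) (b (l 16777296) (l 16777280)))))) (b (a (b (l 16777416) (l 16777384)) (l 16777448)) (a (b (l 16777352) (a (l 16777304) (l 16777328))) (b (l 16777392) (l 16777360)))))) (b (a (l 16780240) (l 16777720)) (a (b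 (l 16780136) (a (l 16777424) (l 16777472))) (b (l 16777608) (l 16777544))))), by decide +kernel⟩

def k144_A00pm_213_s3 : ∃ t, chk3 f_A00pm_213_s3 t 8104 16266 1 = true :=
  ⟨(a (b (a (b (a (b (a (l 4) (b (l 540913935) (l 4))) (l 4)) (b (a (b (l 540931087) (l 540918287)) (b (l 540947983) (l 540935439))) (a (l 4) (b (l 540922383) (l 4))))) (l 4)) (b (a (b (a (l 542561295) (l 542040847)) (a (b (l 540939535) (l 540926735)) (l 542552847))) (b (a (l 16777256) (l 16777264)) (a (l 542301199) (l 542049039)))) (a (b (a (b (l 540913679) (l 4)) (b (l 540931087) (l 540918031))) (l 4)) (b (a (b (l 540947983) (l 540935183)) (l 542561295)) (a (b (l 540922383) (l 4)) (b (l 540939535) (l 540926735))))))) (a (l 4) (b (a (l 4) (b (a (l 4) (b (l 540913423) (l 4))) (l 4))) (l 4)))) (b (a (b (a (b (l 16777280) (a (l 16777264) (l 16777272))) (b (l 16777304) (l 16777288))) (a (b (a (l 542309391) (l 16777256)) (a (b (l 540956175) (l 540943631)) (l 542300943))) (b (c (l 16777272) (l 16777272)) (a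 (l 542048783) (l 16777264))))) (b (a (l 16777320) (l 16777336)) (a (b (l 16777296) (l 16777280)) (l 16777304)))) (a (b (a (b (a (b (l 540930831) (l 540917775)) (b (l 540947727) (l 540935183))) (a (l 4) (b (l 540922127) (l 4)))) (b (a (l 542561039) (l 542309135)) (a (b (l 540939279) (l 540926479)) (b (l 540955919) (l 540943631))))) (a (l 4) (b (a (b (l 540913423) (l 4)) (b (l 540930831) (l 540917775))) (l 4)))) (b (a (b (a (l 16777256) (l 16777264)) (a (l 542569487) (l 16777248))) (b (l 16777280) (a (l 16777264) (l 16777272)))) (a (b (a (b (l 540947727) (l 540934927)) (l 542561039)) (a (b (l 540922127) (l 4)) (b (l 540939279) (l 540926479)))) (b (a (l 542309135) (l 16777256)) (a (b (l 540955919) (l 540943375)) (l 542569231)))))))), by decide +kernel⟩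

def k145_A00pm_213_s3 : ∃ t, chk3 f_A00pm_213_s3 t 8104 16267 1 = true :=
  ⟨(a (l 4) (b (a (l 4) (b (a (b (a (l 4) (b (l 540913167) (l 4))) (l 4)) (b (a (b (l 540930575) (l 540917519)) (b (l 540947727) (l 540934927))) (a (l 4) (b (l 540921871) (l 4))))) (l 4))) (l 4))), by decide +kernel⟩

def k146_A00pm_213_s3 : ∃ t, chk3 f_A00pm_213_s3 t 8105 16266 1 = true :=
  ⟨(a (b (a (b (l 16777376) (a (l 16777328) (l 16777352))) (b (l 16777416) (l 16777384))) (a (b (a (b (l 16777304) (l 16777288)) (l 16777320)) (a (b (c (l 16777272) (l 16777272)) (a (l 16777248) (l 16777264))) (b (l 16777296) (l 16777280)))) (b (l 16777352) (a (l 16777304) (l 16777328))))) (b (a (l 16777448) (l 16777496)) (a (b (l 16777400) (l 16777360)) (l 16777424)))), by decide +kernel⟩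

def k147_A00pm_213_s3 : ∃ t, chk3 f_A00pm_213_s3 t 16210 16267 1 = true :=
  ⟨(b (a (b (a (b (a (b (l 16777240) (l 540951823)) (l 542309135)) (a (b (l 540939023) (l 540926223)) (b (l 540955919) (l 540943375)))) (b (a (l 16777256) (l 16777264)) (a (l 542569231) (l 16777256)))) (a (b (a (b (l 540912911) (l 4)) (b (l 540930575) (l 540917263))) (l 4)) (b (a (b (l 540947471) (l 540934671)) (b (l 16777240) (l 540951823))) (a (b (l 540921615) (l 540908303)) (b (l 540939023) (l 540925967)))))) (b (a (b (l 16777280) (a (l 16777264) (l 16777272))) (b (l 16777304) (l 16777288))) (a (b (a (l 542577423) (l 16777256)) (a (b (l 540955919) (l 540943375)) (l 542569231))) (b (c (l 16777272) (l 16777272)) (a (l 16777256) (l 16777264)))))) (a (b (a (l 4) (b (a (l 4) (b (l 540912911) (l 4))) (l 4))) (l 4)) (b (a (b (a (b (l 540930319) (l 540917263)) (b (l 540947471) (l 540934671))) (a (l 4) (b (l 540921615) (l 540908047)))) (b (a (b (l 16777240) (l 540951567)) (l 542577423)) (a (b (l 540939023)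 (l 540925967)) (b (l 540955919) (l 540943119))))) (a (l 4) (b (a (b (l 540912655) (l 4)) (b (l 540930319) (l 540917007))) (l 4)))))), by decide +kernel⟩

def k148_A00pm_213_s3 : ∃ t, chk3 f_A00pm_213_s3 t 16211 16267 1 = true :=
  ⟨(b (a (b (a (l 16777320) (l 16777344)) (a (b (l 16777296) (l 16777280)) (l 16777312))) (b (l 16777376) (a (l 16777328) (l 16777352)))) (a (b (a (b (a (l 16777256) (l 16777272)) (a (b (l 16777248) (l 16777240)) (l 16777256))) (b (l 16777288) (a (l 16777264) (l 16777272)))) (a (b (a (b (l 540947471) (l 540934415)) (b (l 16777240) (l 540951567))) (a (b (l 540921359) (l 541176591)) (b (l 540938767) (l 540925711)))) (b (a (l 542577423) (l 16777256)) (a (b (l 540955663) (l 540943119)) (b (l 16777248) (l 16777240)))))) (b (a (b (l 16777304) (l 16777288)) (l 16777320)) (a (b (l 16777272) (a (l 16777256) (l 16777264))) (b (l 16777296) (l 16777280)))))), by decide +kernel⟩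

def k149_A00pm_213_s3 : ∃ t, chk3 f_A00pm_213_s3 t 4053 4066 1 = true :=
  ⟨(a (b (b (l 16777872) (a (l 16777672) (l 16777768))) (b (a (b (l 16777568) (c (l 16780120) (l 16780112))) (l 16780248)) (a (b (a (b (l 16777424) (l 16777384)) (l 16777448)) (a (b (l 16777352) (a (l 16777312) (l 16777328))) (b (l 16777400) (l 16777368)))) (b (l 16777520) (a (l 16777424) (l 16777472)))))) (b (b (l 16777992) (l 16777920)) (b (a (l 16777720) (l 16777824)) (a (b (l 16777616) (l 16777544)) (l 16777680))))), by decide +kernel⟩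

def k150_A00pm_213_s3 : ∃ t, chk3 f_A00pm_213_s3 t 4052 4067 1 = true :=
  ⟨(b (a (l 4) (a (l 4) (b (b (a (b (a (b (a (l 4) (b (l 540912399) (l 4))) (l 4)) (b (a (b (l 540930063) (l 540917007)) (b (l 540947215) (l 540934415))) (a (l 4) (b (l 540921359) (l 541176335))))) (l 4)) (b (a (b (a (b (l 16777240) (l 540951567)) (l 542577167)) (a (b (l 540938767) (l 540925711)) (b (l 540955663) (l 540943119)))) (b (a (l 16777256) (l 16777272)) (a (b (l 16777248) (l 16777240)) (l 16777256)))) (a (b (a (b (l 541180687) (l 4)) (b (l 540930063) (l 540916751))) (l 4)) (b (a (b (l 540947215) (l 540934415)) (b (l 16777240) (l 540951567))) (a (b (l 540921103) (l 541176079)) (b (l 540938767) (l 540925455))))))) (a (l 4) (b (a (l 4) (b (a (l 4) (b (l 541180687) (l 4))) (l 4))) (l 4)))) (l 4)))) (l 4)), by decide +kernel⟩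

def k151_A00pm_213_s3 : ∃ t, chk3 f_A00pm_213_s3 t 8106 16268 1 = true :=
  ⟨(a (b (a (b (a (b (l 16777288) (a (l 16777264) (l 16777272))) (b (l 16777304) (l 16777288))) (a (b (a (b (l 16777256) (l 16777248)) (l 16777256)) (a (b (l 540955663) (l 540942863)) (b (l 16777248) (l 16777240)))) (b (l 16777272) (a (l 16777256) (l 16777264))))) (b (a (l 16777320) (l 16777344)) (a (b (l 16777296) (l 16777280)) (l 16777312)))) (a (b (a (b (a (b (l 540929807) (l 541185039)) (b (l 540947215) (l 540934159))) (a (l 4) (b (l 540921103) (l 541175823)))) (b (a (b (l 16777240) (l 540951311)) (b (l 16777256) (l 16777248))) (a (b (l 540938511) (l 540925455)) (b (l 540955663) (l 540942863))))) (a (l 4) (b (a (b (l 541180431) (l 4)) (b (l 540929807) (l 541184783))) (l 4)))) (b (a (b (a (l 16777256) (l 16777272)) (a (b (l 16777248) (l 16777240)) (l 16777256))) (b (l 16777288) (a (l 16777264) (l 16777272)))) (a (b (a (b (l 540947215) (l 540934159)) (b (l 16777240) (l 540951311))) (a (b (l 541189391)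 (l 541444111)) (b (l 540938511) (l 540925199)))) (b (a (b (l 16777256) (l 16777248)) (l 16777264)) (a (b (l 540955663) (l 540942863)) (b (l 16777248) (l 16777240)))))))) (b (a (b (l 16777376) (a (l 16777336) (l 16777352))) (b (l 16777424) (l 16777392))) (a (b (a (b (l 16777312) (l 16777296)) (l 16777320)) (a (b (l 16777280) (a (l 16777256) (l 16777264))) (b (l 16777296) (l 16777280)))) (b (l 16777352) (a (l 16777312) (l 16777336)))))), by decide +kernel⟩

def k152_A00pm_213_s3 : ∃ t, chk3 f_A00pm_213_s3 t 8106 16269 1 = true :=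
  ⟨(a (b (a (l 4) (b (a (b (a (l 4) (b (l 541180175) (l 4))) (l 4)) (b (a (b (l 540929551) (l 541184783)) (b (l 540946959) (l 540934159))) (a (b (l 541439503) (l 4)) (b (l 541189135) (l 541444111))))) (l 4))) (l 4)) (b (a (b (a (b (a (b (l 16777240) (l 540951311)) (b (l 16777256) (l 16777248))) (a (b (l 540938511) (l 541193743)) (b (l 540955407) (l 540942607)))) (b (a (l 16777264) (l 16777272)) (a (b (l 16777248) (l 16777240)) (l 16777256)))) (a (b (a (b (l 541180175) (l 4)) (b (l 540929551) (l 541184527))) (a (l 4) (b (l 541439247) (l 4)))) (b (a (b (l 540946959) (l 540933903)) (b (l 16777240) (l 540951311))) (a (b (l 541189135) (l 541443855)) (b (l 540938255) (l 541193487)))))) (b (a (b (l 16777288) (a (l 16777264) (l 16777280))) (b (l 16777312) (l 16777296))) (a (b (a (c (l 16777248) (l 16777248)) (l 16777264)) (a (b (l 16777240) (l 540942607)) (b (l 16777248) (l 16777240)))) (b (l 16777280) (a (l 16777256) (l 16777264)))))) (a (b (a (l 4) (b (a (l 4) (b (l 541448207)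 (l 4))) (l 4))) (l 4)) (b (a (b (a (b (l 541197839) (l 541184527)) (b (l 540946959) (l 540933903))) (a (b (l 541438991) (l 4)) (b (l 541188879) (l 541443599)))) (b (a (b (l 16777248) (l 540951311)) (c (l 16777248) (l 16777248))) (a (b (l 540938255) (l 541193487)) (b (l 16777240) (l 540942607))))) (a (l 4) (b (a (b (l 541448207) (l 4)) (b (l 541197839) (l 541452815))) (a (l 4) (b (l 541707279) (l 4))))))))), by decide +kernel⟩

def k153_A00pm_213_s3 : ∃ t, chk3 f_A00pm_213_s3 t 8107 8134 1 = true :=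
  ⟨(b (a (b (a (l 16777448) (l 16777496)) (a (b (l 16777400) (l 16777368)) (l 16777432))) (b (l 16777568) (l 16780120))) (a (b (a (b (a (l 16777320) (l 16777344)) (a (b (l 16777296) (l 16777280)) (l 16777312))) (b (l 16777376) (a (l 16777336) (l 16777360)))) (a (b (a (b (a (l 16777264) (l 16777272)) (a (b (l 16777248) (l 16777240)) (l 16777256))) (b (l 16777288) (a (l 16777264) (l 16777280)))) (a (b (a (b (l 540946959) (l 541202191)) (b (l 16777248) (l 540951055))) (a (b (l 541188879) (l 541443343)) (b (l 540938255) (l 541193231)))) (b (a (c (l 16777248) (l 16777248)) (l 16777264)) (a (b (l 16777240) (l 540942607)) (b (l 16777248) (l 16777240)))))) (b (a (b (l 16777312) (l 16777296)) (l 16777320)) (a (b (l 16777280) (a (l 16777256) (l 16777264))) (b (l 16777296) (l 16777280)))))) (b (a (b (l 16777424) (l 16777392)) (l 16777456)) (a (b (l 16777360) (a (l 16777312) (l 16777336))) (b (l 16777400) (l 16777368)))))), by decide +kernel⟩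

def k154_A00pm_213_s3 : ∃ t, chk3 f_A00pm_213_s3 t 8106 8135 1 = true :=
  ⟨(l 4), by decide +kernel⟩

def k155_A00pm_213_s3 : ∃ t, chk3 f_A00pm_213_s3 t 16214 16270 1 = true :=
  ⟨(b (a (b (a (b (a (l 4) (b (l 541447951) (l 4))) (l 4)) (b (a (b (l 541197583) (l 541452559)) (b (l 540946703) (l 541202191))) (a (b (l 541707023) (l 4)) (b (l 541457167) (l 541711631))))) (l 4)) (b (a (b (a (b (l 16777248) (l 540951055)) (c (l 16777248) (l 16777248))) (a (b (l 541206543) (l 541193231)) (b (l 16777240) (l 540942351)))) (b (a (l 16777264) (l 16777272)) (a (b (l 16777248) (l 16777240)) (l 16777256)))) (a (b (a (b (l 541447951) (l 4)) (b (l 541197583) (l 541452303))) (a (l 4) (b (l 541707023) (l 4)))) (b (a (b (l 540946703) (l 541201935)) (b (l 16777248) (l 540951055))) (a (b (l 541456911) (l 541711631)) (b (l 541206543) (l 541461519))))))) (a (l 4) (b (a (l 4) (b (a (l 4) (b (l 541716239) (l 541970447))) (l 4))) (l 4)))), by decide +kernel⟩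

def k156_A00pm_213_s3 : ∃ t, chk3 f_A00pm_213_s3 t 16215 16270 1 = true :=
  ⟨(b (a (b (a (b (l 16777288) (a (l 16777264) (l 16777280))) (b (l 16777312) (l 16777296))) (a (b (a (l 16777256) (l 16777264)) (a (b (l 16777240) (l 541210895)) (b (l 16777248) (l 16777240)))) (b (l 16777280) (a (l 16777256) (l 16777272))))) (b (a (l 16777328) (l 16777344)) (a (b (l 16777304) (l 16777288)) (l 16777312)))) (a (b (a (b (a (b (l 541197583) (l 541452303)) (a (l 542274831) (l 542015247))) (a (b (l 541706767) (l 4)) (b (l 541456911) (l 541711375)))) (b (a (b (l 16777248) (l 540951055)) (l 16777256)) (a (b (l 541206287) (l 541461263)) (b (l 16777240) (l 541210639))))) (a (l 4) (b (a (b (l 541715983) (l 541970447)) (b (l 541465871) (l 541720591))) (a (l 4) (b (l 541975055) (l 4)))))) (b (a (b (c (l 16777272) (l 16777272)) (a (b (l 16777248) (l 16777240)) (l 16777256))) (b (l 16777288) (c (l 16777272) (l 16777272)))) (a (b (a (b (l 541214991) (l 541201935)) (b (l 16777248) (l 540951055)))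 (a (b (l 541456655) (l 541711119)) (b (l 541206287) (l 541461263)))) (b (a (l 16777256) (l 16777264)) (a (b (l 16777240) (l 541210639)) (b (l 16777248) (l 16777248)))))))), by decide +kernel⟩

def k157_A00pm_213_s3 : ∃ t, chk3 f_A00pm_213_s3 t 8107 16271 1 = true :=
  ⟨(a (l 4) (b (a (l 4) (b (a (b (a (l 4) (b (l 541715727) (l 541970191))) (l 4)) (b (a (b (l 541465871) (l 541720591)) (b (l 541214991) (l 541470223))) (a (b (l 541974799) (l 4)) (b (l 541724943) (l 541979407))))) (l 4))) (l 4))), by decide +kernel⟩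

def k158_A00pm_213_s3 : ∃ t, chk3 f_A00pm_213_s3 t 4054 4066 1 = true :=
  ⟨(b (b (l 16788744) (a (l 16783280) (l 16778200))) (a (b (l 16777976) (l 16783072)) (b (l 16788600) (l 16783184)))), by decide +kernel⟩

def k159_A00pm_213_s3 : ∃ t, chk3 f_A00pm_213_s3 t 4054 8134 1 = true :=
  ⟨(a (b (a (l 16780248) (l 16777728)) (a (b (l 16777520) (a (l 16777432) (l 16777480))) (b (l 16777616) (l 16777552)))) (b (l 16777880) (a (l 16777680) (l 16777784)))), by decide +kernel⟩

def k160_A00pm_213_s3 : ∃ t, chk3 f_A00pm_213_s3 t 8108 16270 1 = true :=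
  ⟨(a (b (a (b (l 16777384) (a (l 16777336) (l 16777360))) (b (l 16777424) (l 16777392))) (a (b (a (b (l 16777312) (l 16777296)) (l 16777328)) (a (b (l 16777280) (a (l 16777256) (l 16777272))) (b (l 16777304) (l 16777288)))) (b (l 16777360) (a (l 16777312) (l 16777336))))) (b (a (l 16777456) (l 16777504)) (a (b (l 16777400) (l 16777368)) (l 16777432)))), by decide +kernel⟩

def k161_A00pm_213_s3 : ∃ t, chk3 f_A00pm_213_s3 t 16216 16271 1 = true :=
  ⟨(b (a (b (a (b (a (b (l 16777248) (l 541219343)) (l 16777256)) (a (b (l 541206287) (l 541461007)) (b (l 16777240) (l 541210639)))) (b (c (l 16777272) (l 16777272)) (a (b (l 16777256) (l 16777248)) (l 16777256)))) (a (b (a (b (l 541715727) (l 541969935)) (b (l 541465615) (l 541720335))) (a (l 4) (b (l 541974543) (l 4)))) (b (a (b (l 541214991) (l 541470223)) (b (l 16777248) (l 16777240))) (a (b (l 541724943) (l 541979407)) (b (l 541474575) (l 541729551)))))) (b (a (b (l 16777288) (l 16777272)) (b (l 16777312) (l 16777296))) (a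 (b (a (l 16777256) (l 16777264)) (a (b (l 16777240) (l 541210639)) (b (l 16777256) (l 16777248)))) (b (l 16777280) (a (l 16777256) (l 16777272)))))) (a (b (a (l 4) (b (a (l 4) (b (l 541984015) (l 542238223))) (l 4))) (l 4)) (b (a (b (a (b (l 541465615) (l 541720079)) (b (l 541214991) (l 541469967))) (a (b (l 541974543) (l 4)) (b (l 541724687) (l 541979151)))) (b (a (b (l 16777248) (l 16777240)) (l 16777256)) (a (b (l 541474575) (l 541729295)) (b (l 16777240) (l 541478927))))) (a (l 4) (b (a (b (l 541983759) (l 542237967)) (b (l 541733903) (l 541720079))) (a (l 4) (b (l 542242831) (l 4)))))))), by decide +kernel⟩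

def k162_A00pm_213_s3 : ∃ t, chk3 f_A00pm_213_s3 t 16217 16271 1 = true :=
  ⟨(b (a (b (a (l 16777328) (l 16777352)) (a (b (l 16777304) (l 16777288)) (l 16777312))) (b (l 16777384) (a (l 16777336) (l 16777360)))) (a (b (a (b (l 16777272) (a (b (l 16777256) (l 16777248)) (l 16777256))) (b (l 16777288) (l 16777272))) (a (b (a (b (l 541214991) (l 541469967)) (b (l 16777248) (l 16777240))) (a (b (l 541724687) (l 541978895)) (b (l 541474575) (l 541729295)))) (b (a (l 16777256) (l 16777264)) (a (b (l 16777240) (l 541478927)) (b (l 16777256) (l 16777248)))))) (b (a (b (l 16777312) (l 16777296)) (l 16777328)) (a (b (l 16777280) (a (l 16777264) (l 16777272))) (b (l 16777304) (l 16777288)))))), by decide +kernel⟩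

def k163_A00pm_213_s3 : ∃ t, chk3 f_A00pm_213_s3 t 8109 8135 1 = true :=
  ⟨(b (a (b (l 16777576) (l 16780128)) (l 16780256)) (a (b (a (b (l 16777424) (l 16777392)) (l 16777456)) (a (b (l 16777360) (a (l 16777320) (l 16777336))) (b (l 16777408) (l 16777376)))) (b (l 16777528) (a (l 16777432) (l 16777480))))), by decide +kernel⟩

def k164_A00pm_213_s3 : ∃ t, chk3 f_A00pm_213_s3 t 4055 2033 1 = true :=
  ⟨(b (b (l 16777872) (a (l 16788696) (l 16777952))) (b (a (b (l 16783232) (l 16777936)) (a (l 16783344) (l 16778168))) (a (b (a (l 16777736) (l 16777832)) (a (b (l 16777624) (l 16777552)) (l 16777688))) (b (l 16783128) (l 16783080))))), by decide +kernel⟩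

def k165_A00pm_213_s3 : ∃ t, chk3 f_A00pm_213_s3 t 1012 1017 1 = true :=
  ⟨(l 2), by decide +kernel⟩

def k166_A00pm_213_s3 : ∃ t, chk3 f_A00pm_213_s3 t 2026 2034 1 = true :=
  ⟨(l 4), by decide +kernel⟩

def k167_A00pm_213_s3 : ∃ t, chk3 f_A00pm_213_s3 t 8108 8136 1 = true :=
  ⟨(a (l 4) (b (b (a (b (a (b (a (b (l 542233103) (l 4)) (b (l 541983759) (l 542237967))) (l 4)) (b (a (b (l 541733903) (l 541988367)) (b (l 541483279) (l 541469967))) (a (b (l 542242575) (l 4)) (b (l 541724687) (l 542247439))))) (a (l 4) (b (a (l 4) (b (l 542501391) (l 4))) (l 4)))) (b (a (b (a (b (l 16777248) (l 16777240)) (l 16777256)) (a (b (l 541474319) (l 541729039)) (b (l 16777240) (l 541478927)))) (b (l 16777272) (a (b (l 16777256) (l 16777248)) (l 16777264)))) (a (b (a (b (l 541983503) (l 542237711)) (b (l 541733647) (l 541988367))) (a (l 4) (b (l 542242319) (l 4)))) (b (a (b (l 541483279) (l 541738255)) (b (l 16777248) (l 16777240))) (a (b (l 541992975) (l 542247183)) (b (l 541474319) (l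 541729039))))))) (a (l 4) (b (a (l 4) (b (a (b (l 542501135) (l 4)) (b (l 541983503) (l 542505999))) (l 4))) (l 4)))) (l 4))), by decide +kernel⟩

def k168_A00pm_213_s3 : ∃ t, chk3 f_A00pm_213_s3 t 8109 16272 1 = true :=
  ⟨(a (b (a (b (a (b (l 16777296) (l 16777280)) (b (l 16777312) (l 16777296))) (a (b (a (l 16777256) (l 16777264)) (a (b (l 16777240) (l 541478927)) (b (l 16777256) (l 16777248)))) (b (l 16777280) (a (l 16777264) (l 16777272))))) (b (a (l 16777328) (l 16777352)) (a (b (l 16777304) (l 16777288)) (l 16777320)))) (a (b (a (b (a (b (l 541733647) (l 541988111)) (b (l 541483279) (l 541738255))) (a (b (l 542242319) (l 4)) (b (l 541992719) (l 542246927)))) (b (a (b (l 16777248) (l 16777240)) (l 16777256)) (a (b (l 541742863) (l 541997327)) (b (l 16777248) (l 541478671))))) (a (b (a (l 4) (b (l 542500879) (l 4))) (l 4)) (b (a (b (l 542251791) (l 542505743)) (b (l 541733647) (l 541988111))) (a (l 4) (b (l 542510607) (l 4)))))) (b (a (b (l 16777272) (a (b (l 16777256)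 (l 16777248)) (l 16777264))) (b (l 16777296) (l 16777280))) (a (b (a (b (l 541483279) (l 541738255)) (b (l 16777248) (l 16777240))) (a (b (l 541992719) (l 542246927)) (b (l 541742607) (l 541997327)))) (b (a (l 16777256) (l 16777264)) (a (b (l 16777248) (l 541747215)) (b (l 16777256) (l 16777248)))))))) (b (a (b (l 16777384) (a (l 16777336) (l 16777360))) (b (l 16777432) (l 16777392))) (a (b (a (b (l 16777312) (l 16777296)) (l 16777328)) (a (b (l 16777280) (a (l 16777264) (l 16777272))) (b (l 16777304) (l 16777288)))) (b (l 16777360) (a (l 16777320) (l 16777344)))))), by decide +kernel⟩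

def k169_A00pm_213_s3 : ∃ t, chk3 f_A00pm_213_s3 t 16218 16273 1 = true :=
  ⟨(b (a (l 4) (b (a (b (a (b (a (l 4) (l 540899855)) (l 4)) (b (l 542251535) (l 542505487))) (l 4)) (b (a (b (l 542001935) (l 542256399)) (b (l 541483279) (l 541737999))) (a (b (l 542510351) (l 4)) (b (l 541992463) (l 542515215))))) (a (l 4) (b (a (l 4) (b (a (l 4) (l 540899855)) (l 4))) (l 4))))) (l 4)), by decide +kernel⟩

def k170_A00pm_213_s3 : ∃ t, chk3 f_A00pm_213_s3 t 16219 16273 1 = true :=
  ⟨(b (a (b (a (b (a (b (l 16777248) (l 16777240)) (l 16777256)) (a (b (l 541742607) (l 541997327)) (b (l 16777248) (l 541747215)))) (b (l 16777272) (a (b (l 16777256) (l 16777248)) (l 16777264)))) (a (b (a (b (l 542251535) (a (l 4) (l 540904463))) (b (l 542001935) (l 542256143))) (a (l 4) (b (l 542510095) (l 4)))) (b (a (b (l 16777240) (l 542006543)) (b (l 16777248) (l 16777240))) (a (b (l 542261007) (l 542514959)) (b (l 541742607) (l 541997071)))))) (b (a (b (l 16777296) (l 16777280)) (b (l 16777312)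 (l 16777296))) (a (b (a (l 16777256) (l 16777264)) (a (b (l 16777248) (l 541747215)) (l 16777256))) (b (l 16777280) (a (l 16777264) (l 16777272)))))) (a (b (a (l 4) (b (a (b (a (l 4) (l 540899599)) (l 4)) (b (l 542519823) (a (l 540894735) (l 540904463)))) (l 4))) (l 4)) (b (a (b (a (b (l 542001679) (l 542256143)) (b (l 16777240) (l 542006287))) (a (b (l 542510095) (b (l 541429519) (l 4))) (b (l 542260751) (l 542514959)))) (b (a (b (l 16777248) (l 16777240)) (l 16777256)) (a (b (l 542010895) (l 542265615)) (b (l 16777248) (l 541746959))))) (a (b (a (l 4) (b (a (l 4) (l 540899599)) (l 4))) (l 4)) (b (a (b (l 542519567) (a (l 540894735) (l 540904463))) (b (l 542001679) (l 542524431))) (a (l 4) (b (a (l 540899343) (l 540909071)) (a (l 4) (l 540894479))))))))), by decide +kernel⟩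

def k171_A00pm_213_s3 : ∃ t, chk3 f_A00pm_213_s3 t 4054 8137 1 = true :=
  ⟨(l 4), by decide +kernel⟩

def k172_A00pm_213_s3 : ∃ t, chk3 f_A00pm_213_s3 t 4055 8136 1 = true :=
  ⟨(a (b (a (b (a (l 16777456) (l 16777504)) (a (b (l 16777408) (l 16777376)) (l 16777440))) (b (l 16777576) (l 16780128))) (a (b (a (b (a (l 16777328) (l 16777352)) (a (b (l 16777304) (l 16777288)) (l 16777320))) (b (l 16777384) (a (l 16777344) (l 16777360)))) (a (b (a (b (l 16777272) (a (l 16777256) (l 16777264))) (b (l 16777296) (l 16777280))) (a (b (a (b (l 16777240) (l 542006287)) (b (l 16777248) (l 16777240))) (a (b (l 542260751) (l 542514703)) (b (l 542010895) (l 542265359)))) (b (a (l 16777256) (l 16777272)) (a (b (l 16777248) (l 542015503)) (l 16777256))))) (b (a (c (l 16777312) (l 16777312)) (l 16777328)) (a (b (l 16777288) (a (l 16777264) (l 16777272))) (b (l 16777304) (l 16777288)))))) (b (a (b (l 16777432) (l 16777400)) (l 16777464)) (a (b (l 16777368) (a (l 16777320) (l 16777344))) (b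 (l 16777408) (l 16777376)))))) (b (a (l 16780264) (l 16777736)) (a (b (l 16777528) (a (l 16777440) (l 16777488))) (b (l 16777624) (l 16777560))))), by decide +kernel⟩

def k173_A00pm_213_s3 : ∃ t, chk3 f_A00pm_213_s3 t 16220 16274 1 = true :=
  ⟨(b (a (b (a (b (a (b (b (l 541434127) (l 4)) (l 4)) (b (l 542519567) (a (l 540894479) (l 540904207)))) (l 4)) (b (a (b (l 542269967) (l 542524431)) (b (l 16777240) (l 542006287))) (a (b (a (l 540899343) (l 540909071)) (a (l 4) (l 540894479))) (b (l 542260495) (a (l 540904207) (l 540913679)))))) (a (l 4) (b (a (l 4) (b (a (l 4) (l 540899343)) (l 4))) (l 4)))) (b (a (b (a (b (l 16777248) (l 16777240)) (l 16777256)) (a (b (l 542010895) (l 542265359)) (b (l 16777248) (l 542015503)))) (b (l 16777272) (a (l 16777256) (l 16777264)))) (a (b (a (b (l 542519311) (b (l 541438991) (l 541431567))) (b (l 542269967) (l 542524175))) (a (l 4) (b (a (l 540899343) (l 540908815)) (a (l 4) (l 541162767))))) (b (a (b (l 16777240) (l 542274575)) (b (l 16777256)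 (l 16777248))) (a (b (l 542529039) (a (l 540903951) (l 540913679))) (b (l 542010895) (l 542265359))))))) (a (l 4) (b (a (l 4) (b (a (b (a (l 4) (l 540899087)) (l 4)) (b (a (l 540908815) (l 540918543)) (a (l 541162767) (l 540903951)))) (l 4))) (l 4)))), by decide +kernel⟩

def k174_A00pm_213_s3 : ∃ t, chk3 f_A00pm_213_s3 t 16221 16274 1 = true :=
  ⟨(b (a (b (a (b (l 16777296) (l 16777280)) (c (l 16777312) (l 16777312))) (a (b (a (l 16777256) (l 16777272)) (a (b (l 16777248) (l 542015503)) (l 16777256))) (b (l 16777288) (a (l 16777264) (l 16777272))))) (b (a (l 16777328) (l 16777352)) (a (b (l 16777304) (l 16777288)) (l 16777320)))) (a (b (a (b (a (b (l 542269967) (l 542524175)) (b (l 16777240) (l 542274575))) (a (b (b (l 541443599) (l 541436175)) (a (l 4) (l 541162511))) (b (l 542528783) (a (l 540903951) (l 540913679))))) (b (a (b (l 16777256) (l 16777248)) (l 16777256)) (a (b (l 542279183) (l 542533647)) (b (l 16777248) (l 542015503))))) (a (b (a (l 4) (b (a (l 4) (l 541167375))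 (l 4))) (l 4)) (b (a (b (a (l 540908815) (l 540918287)) (a (l 541162511) (l 540903951))) (b (l 542269967) (a (l 540913679) (l 540923151)))) (a (l 4) (b (a (l 541167375) (l 540908815)) (a (l 4) (l 541162511))))))) (b (a (b (l 16777272) (a (l 16777256) (l 16777264))) (b (l 16777296) (l 16777280))) (a (b (a (b (l 16777240) (l 542274575)) (b (l 16777256) (l 16777248))) (a (b (l 542528783) (b (l 541448463) (l 541441039))) (b (l 542279183) (l 542533647)))) (b (a (l 16777256) (l 16777272)) (a (b (l 16777248) (l 542283791)) (l 16777256))))))), by decide +kernel⟩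

def k175_A00pm_213_s3 : ∃ t, chk3 f_A00pm_213_s3 t 8110 16275 1 = true :=
  ⟨(a (l 4) (b (a (l 4) (b (a (b (a (b (a (l 4) (l 541167375)) (l 4)) (b (a (l 540908815) (l 540918287)) (b (l 541438479) (l 541699599)))) (l 4)) (b (a (b (l 542538255) (a (l 540913423) (l 540923151))) (b (l 16777240) (l 542274575))) (a (b (a (l 541167375) (l 540908815)) (a (l 4) (l 541162255))) (b (a (l 540918287) (l 540927759)) (a (l 541172239) (l 540913423)))))) (a (l 4) (b (a (l 4) (b (b (l 541701903) (l 541694479)) (l 4))) (l 4))))) (l 4))), by decide +kernel⟩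

def k176_A00pm_213_s3 : ∃ t, chk3 f_A00pm_213_s3 t 8111 16274 1 = true :=
  ⟨(a (b (a (b (l 16777384) (a (l 16777344) (l 16777368))) (b (l 16777432) (l 16777400))) (a (b (a (c (l 16777312) (l 16777312)) (l 16777336)) (a (b (l 16777288) (a (l 16777264) (l 16777272))) (b (l 16777304) (l 16777288)))) (b (l 16777368) (a (l 16777320) (l 16777344))))) (b (a (l 16777464) (l 16777512)) (a (b (l 16777408) (l 16777376)) (l 16777440)))), by decide +kernel⟩

def k177_A00pm_213_s3 : ∃ t, chk3 f_A00pm_213_s3 t 16222 16275 1 = true :=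
  ⟨(b (a (b (a (b (a (b (l 16777256) (l 16777248)) (l 16777256)) (a (b (l 542279183) (l 542533391)) (b (l 16777248) (l 542283791)))) (b (l 16777272) (a (l 16777256) (l 16777264)))) (a (b (a (b (a (l 540908559) (l 540918287)) (a (l 541162255) (l 541172239))) (b (l 542538255) (a (l 540913423) (l 540923151)))) (a (b (a (l 4) (l 541425679)) (l 4)) (b (b (l 541443343) (l 541704463)) (b (l 541696783) (l 4))))) (b (a (b (l 16777240) (l 542542863)) (b (l 16777256) (l 16777248))) (a (b (a (l 540918287) (l 540927759)) (a (l 541171983) (l 540913423))) (b (l 542279183) (a (l 540922895) (l 540932367))))))) (b (a (b (l 16777296) (l 16777280)) (c (l 16777312) (l 16777312))) (a (b (a (l 16777264) (l 16777272)) (a (b (l 16777248) (l 16777240)) (l 16777256))) (b (l 16777288) (c (l 16777272) (l 16777272)))))) (a (b (a (l 4) (b (a (b (a (l 541425679) (l 541167119)) (l 4)) (b (a (l 541177103) (l 540918287)) (b (l 541706767) (l 541699343)))) (a (l 4) (b (a (l 4) (l 541425679)) (l 4))))) (l 4))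 (b (a (b (a (b (l 542538255) (a (l 540913423) (l 540922895))) (b (l 16777240) (l 542542863))) (a (b (a (l 541167119) (l 541176847)) (a (l 4) (l 541430543))) (b (a (l 540918287) (l 540927759)) (b (l 541448207) (l 541709327))))) (b (a (b (l 16777256) (l 16777248)) (l 16777264)) (a (b (l 542547471) (a (l 540922895) (l 540932367))) (b (l 16777248) (l 16777240))))) (a (b (a (l 4) (b (b (l 541701647) (l 541962511)) (l 4))) (l 4)) (b (a (b (a (l 541176847) (l 540918287)) (a (l 541430543) (l 541171983))) (b (l 542537999) (a (l 541181711) (l 540922895)))) (a (b (a (l 4) (l 541425423)) (l 4)) (b (b (l 541711631) (l 541704207)) (a (l 4) (l 541430287))))))))), by decide +kernel⟩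

def k178_A00pm_213_s3 : ∃ t, chk3 f_A00pm_213_s3 t 16223 16275 1 = true :=
  ⟨(b (a (b (a (l 16777336) (l 16777352)) (a (b (l 16777312) (l 16777296)) (l 16777320))) (b (l 16777392) (a (l 16777344) (l 16777368)))) (a (b (a (b (l 16777280) (a (l 16777256) (l 16777264))) (b (l 16777296) (l 16777280))) (a (b (a (b (l 16777248) (l 542542863)) (b (l 16777256) (l 16777248))) (a (b (a (l 540918287) (l 540927759)) (a (l 541171983) (l 541181711))) (b (l 542547471) (a (l 540922895) (l 16777232))))) (b (a (l 16777264) (l 16777272)) (a (b (l 16777248) (l 16777240)) (l 16777256))))) (b (a (c (l 16777312) (l 16777312)) (l 16777336)) (a (b (l 16777288) (c (l 16777272) (l 16777272))) (b (l 16777312) (l 16777296)))))), by decide +kernel⟩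

def k179_A00pm_213_s3 : ∃ t, chk3 f_A00pm_213_s3 t 2027 4069 1 = true :=
  ⟨(a (l 4) (b (a (l 4) (a (l 4) (b (b (b (a (a (b (a (b (a (l 541425423) (l 541435407)) (l 4)) (b (b (l 541452815) (l 541713935)) (b (l 541706511) (l 541967631)))) (a (l 4) (b (a (l 4) (l 541425167)) (l 4)))) (b (a (b (a (l 540927759) (l 16777240)) (a (l 541181711) (l 540922895))) (b (l 16777248) (l 542542863))) (a (b (a (l 541435407) (l 541176847)) (a (l 4) (l 541430287))) (b (a (l 541186575) (l 540927759)) (b (l 541716495) (l 541709071)))))) (a (b (a (b (l 16777256) (l 16777248)) (l 16777264)) (a (b (l 542547471) (a (l 540922895) (l 16777232))) (b (l 16777248) (l 16777240)))) (b (l 16777280) (a (l 16777256) (l 16777264))))) (b (b (b (a (a (l 4) (a (l 4) (l 541969935))) (a (a (l 541452815) (l 16777240)) (l 16777256))) (l 14)) (l 14)) (l 14))) (l 14)) (l 4)))) (l 4))), by decide +kernel⟩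

def k180_A00pm_213_s3 : ∃ t, chk3 f_A00pm_213_s3 t 1013 2035 1 = true :=
  ⟨(l 2), by decide +kernel⟩

def k181_A00pm_213_s3 : ∃ t, chk3 f_A00pm_213_s3 t 507 1016 1 = true :=
  ⟨(a (b (l 16802032) (a (b (l 16778704) (a (b (l 16777896) (a (b (l 16788624) (l 16783192)) (l 16778088))) (l 16778128))) (l 16790248))) (l 16804504)), by decide +kernel⟩

def k182_A00pm_213_s3 : ∃ t, chk3 f_A00pm_213_s3 t 2028 4068 1 = true :=
  ⟨(a (a (b (b (l 16777888) (a (l 16777688) (l 16777792))) (b (a (b (l 16777584) (l 16780136)) (l 16780264)) (a (b (a (b (l 16777432) (l 16777400)) (l 16777464)) (a (b (l 16777368) (a (l 16777320) (l 16777344))) (b (l 16777416) (l 16777376)))) (b (l 16777536) (a (l 16777440) (l 16777488)))))) (b (b (l 16783272) (l 16783080)) (b (a (l 16777744) (l 16777840)) (a (b (l 16777632) (l 16777560)) (l 16777696))))) (b (a (a (l 16783352) (l 16777960)) (l 16777848)) (a (b (l 16783144) (l 16783096)) (b (l 16778048) (l 16783232))))), by decide +kernel⟩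

def k183_A00pm_213_s3 : ∃ t, chk3 f_A00pm_213_s3 t 2028 8138 1 = true :=
  ⟨(a (a (b (a (b (a (b (a (b (l 16777296) (l 16777280)) (c (l 16777312) (l 16777312))) (b (a (a (l 16777264) (l 16777272)) (l 16777288)) (l 14))) (b (a (l 16777336) (l 16777360)) (a (b (l 16777312) (l 16777296)) (l 16777328)))) (a (l 14) (b (a (l 14) (b (l 16777296) (l 14))) (l 14)))) (b (a (b (l 16777392) (a (l 16777344) (l 16777368))) (b (l 16777440) (l 16777400))) (a (b (a (c (l 16777312) (l 16777312)) (l 16777336)) (a (l 14) (b (l 16777312) (l 14)))) (b (l 16777368) (a (l 16777328) (l 16777344)))))) (a (l 14) (b (a (l 14) (b (a (b (l 16777304) (l 14)) (c (l 16777312) (l 16777312))) (l 14))) (l 14)))) (b (a (b (a (l 16777464) (l 16777512)) (a (b (l 16777416) (l 16777384)) (l 16777448))) (b (l 16777584) (l 16780136))) (a (b (a (b (a (l 16777336) (l 16777360)) (a (b (l 16777312) (l 14)) (l 16777328))) (b (l 16777392) (a (l 16777352) (l 16777368)))) (a (b (a (l 14) (b (l 16777304) (l 14))) (l 14))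 (b (a (c (l 16777312) (l 16777312)) (l 16777336)) (a (l 14) (b (l 16777312) (l 14)))))) (b (a (b (l 16777440) (l 16777408)) (l 16777472)) (a (b (l 16777368) (a (l 16777328) (l 16777352))) (b (l 16777416) (l 16777384))))))) (a (b (a (l 16780272) (l 16777744)) (a (b (l 16777536) (a (l 16777448) (l 16777496))) (b (l 16777640) (l 16777568)))) (b (l 16783032) (a (l 16777696) (l 16777800))))), by decide +kernel⟩

def k184_A00pm_213_s3 : ∃ t, chk3 f_A00pm_213_s3 t 2028 8139 1 = true :=
  ⟨(a (a (l 4) (b (a (l 14) (b (a (b (a (b (l 16777304) (l 14)) (l 16777320)) (l 14)) (b (a (l 16777336) (l 16777360)) (a (b (l 16777312) (l 14)) (l 16777328)))) (l 14))) (l 14))) (a (b (a (b (a (b (l 16777392) (a (l 16777352) (l 16777376))) (b (l 16777440) (l 16777408))) (a (b (a (l 16777320) (l 16777336)) (a (l 14) (b (l 16777312) (l 14)))) (b (l 16777376) (a (l 16777328) (l 16777352))))) (b (a (l 16777472) (l 16777520)) (a (b (l 16777416) (l 16777384)) (l 16777448)))) (a (b (a (l 14) (b (a (l 14)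 (l 16777320)) (l 14))) (l 14)) (b (a (b (a (l 16777336) (l 16777360)) (a (b (l 16777312) (l 14)) (l 16777328))) (b (l 16777400) (a (l 16777352) (l 16777376)))) (a (l 14) (b (a (l 16777320) (l 16777344)) (a (l 14) (b (l 16777320) (l 14)))))))) (b (a (b (l 16777592) (l 16780136)) (l 16780272)) (a (b (a (b (l 16777440) (l 16777408)) (l 16777472)) (a (b (l 16777376) (a (l 16777328) (l 16777352))) (b (l 16777424) (l 16777384)))) (b (l 16777544) (a (l 16777448) (l 16777496))))))), by decide +kernel⟩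

def k185_A00pm_213_s3 : ∃ t, chk3 f_A00pm_213_s3 t 2029 2034 1 = true :=
  ⟨(b (l 16788728) (a (b (a (b (l 16783296) (a (l 16777848) (l 16783192))) (l 16788488)) (b (a (a (l 16777752) (l 16777856)) (a (l 16783128) (l 16778016))) (a (a (b (l 16777640) (l 16777568)) (l 16777704)) (l 16782984)))) (b (l 16777936) (a (b (l 16777864) (l 16783256)) (l 16777752))))), by decide +kernel⟩

def k186_A00pm_213_s3 : ∃ t, chk3 f_A00pm_213_s3 t 2028 2035 1 = true :=
  ⟨(b (a (l 4) (b (a (l 14) (b (a (b (a (b (a (l 14) (l 16777320)) (l 14)) (b (a (l 16777344) (l 16777360)) (a (c (l 16777312) (l 16777312)) (l 16777328)))) (l 14)) (b (a (b (l 16777400) (a (l 16777352) (l 16777376))) (b (l 16777448) (l 16777408))) (a (b (a (l 16777320) (l 16777344)) (a (l 14) (c (l 16777312) (l 16777312)))) (b (l 16777376) (a (l 16777328) (l 16777352)))))) (a (l 14) (b (a (l 14) (b (a (l 14) (l 16777320)) (l 14))) (l 14))))) (l 14))) (l 2)), by decide +kernel⟩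

def k187_A00pm_213_s3 : ∃ t, chk3 f_A00pm_213_s3 t 4058 2035 1 = true :=
  ⟨(b (b (a (b (a (b (a (l 16777472) (l 16777520)) (a (b (l 16777424) (l 16777384)) (l 16777448))) (b (l 16777592) (l 16780144))) (a (b (a (b (a (l 16777344) (l 16777368)) (a (c (l 16777312) (l 16777312)) (l 16777336))) (b (l 16777400) (c (l 16777368) (l 16777368)))) (a (l 14) (b (a (l 16777320) (l 16777344)) (l 14)))) (b (a (b (l 16777448) (l 16777408)) (l 16777472)) (a (b (l 16777376) (a (l 16777336) (l 16777352))) (b (l 16777424) (l 16777392)))))) (b (a (l 16780280) (l 16777752)) (a (b (l 16777544) (a (l 16777456) (l 16777504))) (b (l 16777648) (l 16777576))))) (b (a (a (l 14) (b (a (b (a (l 14) (l 16777320)) (l 14)) (b (a (l 16777344) (l 16777368)) (a (l 14) (l 16777336)))) (l 14))) (a (b (a (b (l 16777400) (c (l 16777368) (l 16777368))) (b (l 16777448) (l 16777416))) (a (b (a (l 16777320) (l 16777344)) (l 14)) (b (l 16777376) (a (l 16777336) (l 16777360))))) (b (c (l 16780120) (l 16780120)) (a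 (b (l 16777424) (l 16777392)) (l 16777456))))) (a (l 14) (a (b (a (l 14) (b (a (l 14) (l 16777328)) (l 14))) (l 14)) (b (a (b (a (l 16777344) (l 16777368)) (a (l 14) (l 16777336))) (b (l 16777400) (c (l 16777368) (l 16777368)))) (a (l 14) (b (a (l 16777328) (l 16777344)) (l 14)))))))) (b (l 14) (l 4))), by decide +kernel⟩

def k188_A00pm_213_s3 : ∃ t, chk3 f_A00pm_213_s3 t 4059 2035 1 = true :=
  ⟨(b (b (a (a (b (l 16777800) (l 16777704)) (b (l 16783152) (l 16777808))) (a (b (l 16777976) (l 16783080)) (l 16783240))) (a (b (a (b (l 16777600) (l 16780144)) (l 16780280)) (a (b (a (b (l 16777448) (l 16777416)) (l 16777480)) (a (b (l 16777384) (a (l 16777336) (l 16777360))) (b (l 16777424) (l 16777392)))) (b (l 16777552) (a (l 16777456) (l 16777504))))) (a (b (l 16777760) (b (l 16777648) (l 16777576))) (b (l 16783024) (l 16777712))))) (b (a (b (a (b (a (b (a (l 14) (l 16777328)) (l 14)) (b (a (l 16777352) (l 16777368)) (a (l 14) (l 16777336)))) (l 14)) (b (a (b (l 16777408) (c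 (l 16777368) (l 16777368))) (b (l 16777448) (l 16777416))) (a (b (a (l 16777328) (l 16777352)) (l 14)) (b (l 16777384) (a (l 16777336) (l 16777360)))))) (l 14)) (b (a (b (l 16780128) (a (b (l 16777432) (l 16777392)) (l 16777456))) (b (l 16777600) (l 16780152))) (a (b (a (b (a (l 16777352) (l 16777376)) (a (l 14) (l 16777336))) (b (l 16777408) (l 16777376))) (a (l 14) (b (a (l 14) (l 16777352)) (l 14)))) (b (a (b (l 16777456) (l 16777416)) (l 16777480)) (a (b (l 16777384) (a (l 16777336) (l 16777360))) (b (l 16777432) (l 16777400))))))) (b (b (a (l 14) (a (l 14) (a (l 14) (b (a (l 16777352) (l 16777376)) (a (l 14) (l 16777344)))))) (l 14)) (l 14)))), by decide +kernel⟩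

def k189_A00pm_213_s3 : ∃ t, chk3 f_A00pm_213_s3 t 1015 1017 1 = true :=
  ⟨(b (a (l 16789752) (l 16781008)) (a (a (b (b (l 16788192) (a (b (l 16783216) (a (l 16777760) (l 16783104))) (l 16783176))) (a (b (b (a (l 16780288) (l 16777760)) (a (b (l 16777552) (a (l 16777456) (l 16777504))) (b (l 16777656) (l 16777576)))) (b (a (b (a (b (l 16777408) (l 16777376)) (b (l 16777456) (l 16777424))) (a (b (a (l 14) (l 16777352)) (l 14)) (b (l 16777384) (a (l 16777344) (l 16777360))))) (b (l 16780128) (a (b (l 16777432) (l 16777400)) (l 16777464)))) (a (l 14) (b (a (b (a (l 16777352) (l 16777376)) (a (l 14) (l 16777344))) (b (l 16777408) (l 16777376))) (a (l 14) (b (a (l 14) (l 16777352)) (l 14))))))) (b (a (b (l 16783032) (l 16777712)) (b (l 16783176) (l 16782984))) (b (a (b (l 16777608) (l 16780152)) (l 16780288)) (a (b (a (b (l 16777456) (l 16777424)) (l 16777488)) (a (b (l 16777384) (a (l 16777344) (l 16777368))) (b (l 16777432) (l 16777400)))) (b (l 16777560) (a (l 16777464) (l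 16777512)))))))) (b (l 16788664) (b (a (b (l 16777776) (l 16783168)) (l 16777672)) (a (a (b (l 16782952) (b (l 16777656) (l 16777584))) (b (l 16783056) (l 16777720))) (a (b (l 16777904) (l 16782984)) (l 16783168)))))) (b (l 16779344) (a (l 16783176) (l 16778704))))), by decide +kernel⟩

def k190_A00pm_213_s3 : ∃ t, chk3 f_A00pm_213_s3 t 506 509 1 = true :=
  ⟨(l 2), by decide +kernel⟩

def k191_A00pm_213_s3 : ∃ t, chk3 f_A00pm_213_s3 t 1014 1018 1 = true :=
  ⟨(l 4), by decide +kernel⟩

def k192_A00pm_213_s3 : ∃ t, chk3 f_A00pm_213_s3 t 2030 2036 1 = true :=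
  ⟨(b (a (b (b (a (l 14) (a (b (a (l 14) (b (a (l 16777352) (l 16777376)) (a (l 14) (l 16777344)))) (l 14)) (b (a (b (l 16777408) (l 16777376)) (b (l 16777456) (l 16777424))) (a (b (a (l 14) (l 16777352)) (l 14)) (b (l 16777392) (a (l 14) (l 16777368))))))) (l 14)) (b (l 14) (l 4))) (a (a (b (b (b (l 16780136) (a (b (l 16777432) (l 16777400)) (l 16777464))) (b (a (b (a (l 16777352) (l 16777376)) (l 14)) (b (l 16777416) (l 16777376))) (a (l 14) (b (a (l 14) (l 16777360)) (l 14))))) (l 14)) (b (b (b (l 16777608) (l 16780160)) (b (a (b (l 16777456) (l 16777424)) (l 16777488)) (a (b (l 16777392) (a (l 14) (l 16777368))) (b (l 16777440) (l 16777400))))) (b (b (a (l 14) (b (a (l 16777360) (l 16777384)) (l 14))) (l 14)) (l 14)))) (a (b (b (l 16780296) (b (l 16777560) (a (l 16777464) (l 16777512)))) (b (b (a (b (l 16777416) (l 16777384)) (b (l 16777464) (l 16777424))) (a (b (a (l 14) (l 16777360)) (l 14)) (b (l 16777392) (a (l 14) (l 16777368))))) (l 14))) (b (b (l 16782936) (b (l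 16777664) (l 16777584))) (b (b (l 16780136) (a (b (l 16777440) (l 16777408)) (l 16777472))) (b (a (b (a (l 16777360) (l 16777384)) (l 14)) (b (l 16777416) (l 16777384))) (a (l 14) (b (a (l 14) (l 16777360)) (l 14))))))))) (a (l 2) (b (l 14) (l 4)))), by decide +kernel⟩

def k193_A00pm_213_s3 : ∃ t, chk3 f_A00pm_213_s3 t 2031 4072 1 = true :=
  ⟨(a (b (a (a (b (l 16783080) (c (l 16782912) (l 16782904))) (b (l 16777816) (l 16783008))) (b (l 16777672) (l 16783112))) (a (b (a (b (l 16777616) (l 16780160)) (l 16780296)) (a (b (a (b (l 16777464) (l 16777432)) (l 16777496)) (a (b (l 16777392) (a (l 14) (l 16777368))) (b (l 16777440) (l 16777408)))) (b (l 16777568) (a (l 16777472) (l 16777520))))) (a (b (l 16782936) (b (l 16777664) (l 16777592))) (b (l 16783096) (a (l 16777704) (l 16782936)))))) (b (l 16777952) (a (a (b (l 16777736) (l 16783032)) (l 16783040)) (l 16777664)))), by decide +kernel⟩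

def k194_A00pm_213_s3 : ∃ t, chk3 f_A00pm_213_s3 t 2031 4073 1 = true :=
  ⟨(a (b (a (b (a (b (a (l 14) (b (a (l 16777360) (l 16777384)) (l 14))) (l 14)) (b (a (b (l 16777416) (l 16777384)) (b (l 16777464) (l 16777432))) (a (l 14) (b (l 16777392) (a (l 14) (l 16777376)))))) (l 14)) (b (a (b (l 16780144) (a (b (l 16777440) (l 16777408)) (l 16777472))) (b (l 16777616) (l 16780168))) (a (b (a (b (a (l 14) (l 16777384)) (l 14)) (b (l 16777416) (l 16777384))) (l 14)) (b (a (b (l 16777464) (l 16777432)) (l 16777496)) (a (b (l 16777400) (a (l 14) (l 16777376))) (b (l 16777440) (l 16777408))))))) (a (l 14) (a (l 14) (b (b (a (l 14) (b (a (l 14) (l 16777384)) (l 14))) (l 14)) (l 14))))) (b (a (a (b (b (l 16777720) (l 16777640)) (b (l 16777568) (a (l 16777472) (l 16777520)))) (b (l 16782960) (b (l 16782912) (l 16777592)))) (b (l 16783088) (a (a (l 16782896) (l 16782944)) (l 16783048)))) (a (b (a (b (a (b (l 16777424) (l 16777384)) (b (l 16777472) (l 16777432))) (a (l 14) (b (l 16777400)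 (a (l 14) (l 16777376))))) (b (l 16780144) (a (b (l 16777448) (l 16777408)) (l 16777472)))) (a (l 14) (b (a (b (a (l 14) (l 16777384)) (l 14)) (b (l 16777424) (l 16777392))) (l 14)))) (a (b (b (l 16777624) (l 16780168)) (b (a (b (l 16777472) (l 16777432)) (l 16777504)) (a (b (l 16777400) (a (l 14) (l 16777376))) (b (l 16777448) (l 16777416))))) (a (b (l 16777656) (b (l 16777552) (l 16777480))) (b (l 16782888) (l 16780184))))))), by decide +kernel⟩

def k195_A00pm_213_s3 : ∃ t, chk3 f_A00pm_213_s3 t 1015 2037 1 = true :=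
  ⟨(a (l 2) (b (a (l 4) (b (a (l 14) (b (a (b (a (l 14) (b (a (l 14) (l 16777392)) (l 14))) (l 14)) (b (a (b (l 16777424) (l 16777392)) (b (l 16777472) (l 16777440))) (a (l 14) (b (l 16777400) (l 14))))) (l 14))) (a (l 4) (l 14)))) (l 2))), by decide +kernel⟩

def k196_A00pm_213_s3 : ∃ t, chk3 f_A00pm_213_s3 t 507 1019 1 = true :=
  ⟨(l 2), by decide +kernel⟩

def k197_A00pm_213_s3 : ∃ t, chk3 f_A00pm_213_s3 t 126 255 1 = true :=
  ⟨(l 2), by decide +kernel⟩

def k198_A00pm_213_s3 : ∃ t, chk3 f_A00pm_213_s3 t 254 508 1 = true :=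
  ⟨(a (b (l 16810632) (a (l 16792968) (l 16807552))) (l 16837864)), by decide +kernel⟩

def k199_A00pm_213_s3 : ∃ t, chk3 f_A00pm_213_s3 t 1016 2036 1 = true :=
  ⟨(a (b (l 16789304) (a (b (l 16782952) (a (a (b (l 16782984) (b (l 16777672) (l 16777600))) (b (l 16777776) (a (l 16782888) (l 16782960)))) (b (l 16777600) (l 16783064)))) (l 16783424))) (l 16790408)), by decide +kernel⟩

def k200_A00pm_213_s3 : ∃ t, chk3 f_A00pm_213_s3 t 2032 4074 1 = true :=
  ⟨(a (a (b (b (a (b (l 16780144) (a (b (l 16777448) (l 16777416)) (l 16777480))) (b (l 16777624) (l 16780176))) (a (b (a (b (l 16777376) (l 14)) (b (l 16777424) (l 16777392))) (l 14)) (b (a (b (l 16777472) (l 16777440)) (l 16777504)) (a (b (l 16777400) (l 14)) (b (l 16777448) (l 16777416)))))) (a (l 14) (b (b (a (l 14) (b (l 16777384) (l 14))) (l 14)) (l 14)))) (a (b (b (b (l 16782912) (l 16777648)) (b (l 16777576) (a (l 16777480) (l 16777528)))) (b (b (a (b (l 16777424) (l 16777392)) (c (l 16777456) (l 16777456))) (a (l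 14) (b (l 16777408) (l 14)))) (l 14))) (b (b (l 16783008) (b (l 16782864) (l 16777600))) (b (b (l 16780152) (a (b (l 16777448) (l 16777416)) (l 16777480))) (b (a (b (l 16777384) (l 14)) (b (l 16777432) (l 16777392))) (l 14)))))) (b (a (a (b (l 16777672) (a (l 16782896) (l 16782984))) (l 16783016)) (l 16777656)) (a (a (b (b (l 16777624) (l 16777552)) (b (a (c (l 16777456) (l 16777456)) (l 16777504)) (a (b (l 16777408) (l 14)) (b (l 16777456) (l 16777416))))) (a (b (a (l 16777608) (l 16782864)) (b (l 16777552) (l 16777480))) (b (l 16782912) (l 16780192)))) (a (b (l 16783008) (b (l 16782864) (l 16777608))) (b (l 16777624) (l 16782960)))))), by decide +kernel⟩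

def k201_A00pm_213_s3 : ∃ t, chk3 f_A00pm_213_s3 t 2032 4075 1 = true :=
  ⟨(a (b (l 14) (l 4)) (b (a (b (a (l 14) (b (a (b (l 16777432) (l 16777392)) (l 16777464)) (a (l 14) (b (l 16777408) (l 14))))) (l 14)) (a (b (b (l 16780152) (a (b (l 16777456) (l 16777416)) (l 16777488))) (b (a (l 14) (b (l 16777432) (l 16777400))) (l 14))) (a (b (l 16780192) (b (l 16777464) (b (l 16777408) (l 14)))) (b (b (l 16777624) (l 16777584)) (b (l 16777512) (b (l 16777456) (l 16777424))))))) (l 14))), by decide +kernel⟩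

def k202_A00pm_213_s3 : ∃ t, chk3 f_A00pm_213_s3 t 2033 2037 1 = true :=
  ⟨(b (a (b (l 16778200) (l 16782944)) (l 16778712)) (a (b (a (b (a (a (b (l 16777680) (l 16777632)) (l 16782936)) (l 16782984)) (a (b (l 16777584) (l 16780136)) (b (l 16782880) (a (l 16777584) (l 16777608))))) (a (b (l 16777576) (l 16782976)) (l 16777552))) (a (b (a (b (a (b (l 16777432) (l 16777400)) (l 16777464)) (a (l 14) (b (l 16777408) (l 14)))) (b (l 16780160) (a (b (l 16777456) (l 16777424)) (l 16777488)))) (a (l 14) (b (a (l 14) (b (l 16777432) (l 16777400))) (l 14)))) (a (b (b (a (l 16777608) (l 16782864)) (l 16777560)) (b (a (l 16777464) (l 16777512)) (a (b (l 16777416) (l 14)) (b (l 16777456) (l 16777424))))) (b (a (b (l 16777696) (l 16777592)) (l 16782952)) (b (l 16780216) (l 16780136)))))) (a (b (l 16777760) (b (l 16782912) (a (b (l 16782912) (a (l 16777592) (l 16782840))) (l 16782960)))) (l 16783104)))), by decide +kernel⟩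

def k203_A00pm_213_s3 : ∃ t, chk3 f_A00pm_213_s3 t 1017 1018 1 = true :=
  ⟨(b (l 16803696) (a (b (l 16779984) (l 16784056)) (l 16791688))), by decide +kernel⟩

def k204_A00pm_213_s3 : ∃ t, chk3 f_A00pm_213_s3 t 1016 1019 1 = true :=
  ⟨(b (a (l 4) (b (a (b (a (l 14) (b (a (l 14) (b (a (b (l 16777440) (l 14)) (l 16777464)) (a (l 14) (b (l 16777416) (l 14))))) (l 14))) (a (l 4) (l 14))) (b (b (a (b (a (l 16780160) (a (l 16777576) (l 16782880))) (a (a (b (l 16777464) (l 16777424)) (l 16777488)) (l 16780192))) (a (a (b (l 16777664) (l 16782848)) (l 16782936)) (l 16777568))) (b (a (a (a (l 14) (b (l 16777440) (l 14))) (a (l 16777472) (l 16777520))) (a (b (a (l 16777584) (l 16777608)) (l 16777576)) (l 16782920))) (a (a (l 14) (a (b (l 16777416) (l 14)) (b (l 16777464) (l 16777424)))) (a (l 16780136) (a (l 16777560) (l 16782856)))))) (a (l 14) (b (a (b (a (b (l 16777440) (l 14)) (l 16777472)) (a (l 14) (b (l 16777416) (l 14)))) (b (l 16780168) (a (b (l 16777464) (l 16777432))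 (l 16777496)))) (a (l 14) (b (a (l 14) (b (l 16777440) (l 14))) (l 14))))))) (a (l 2) (b (l 14) (l 4))))) (l 2)), by decide +kernel⟩

def k205_A00pm_213_s3 : ∃ t, chk3 f_A00pm_213_s3 t 2034 4076 1 = true :=
  ⟨(a (b (a (b (l 16777640) (l 16782920)) (l 16777872)) (a (a (a (b (b (a (l 16777576) (l 16777600)) (l 16777544)) (b (l 16777472) (b (l 16777416) (l 14)))) (b (b (l 16777656) (l 16780168)) (b (l 16777520) (b (l 16777464) (l 16777432))))) (a (b (b (l 16777592) (l 16782872)) (b (l 16777568) (l 16777496))) (b (l 16777624) (b (a (l 16777568) (l 16777616)) (l 16777544))))) (a (b (l 16777528) (b (l 16777656) (a (a (l 16777560) (l 16777576)) (l 16782880)))) (l 16782744)))) (l 16783392)), by decide +kernel⟩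

def k206_A00pm_213_s3 : ∃ t, chk3 f_A00pm_213_s3 t 2034 4077 1 = true :=
  ⟨(a (b (a (b (a (l 14) (b (a (b (l 16777440) (l 14)) (l 16777472)) (a (l 14) (b (l 16777416) (l 14))))) (l 14)) (a (a (b (b (l 16777520) (b (l 16777464) (l 16777432))) (l 14)) (b (b (l 16780152) (l 16777496)) (b (b (l 16777448) (l 14)) (l 14)))) (a (b (b (b (l 16777632) (l 16777576)) (l 16777544)) (b (l 16777472) (l 14))) (b (b (l 16777624) (b (l 16777600) (l 16777552))) (b (l 16777520) (b (l 16777472) (l 16777432))))))) (l 14)) (b (a (a (a (b (l 16782896) (b (a (l 16777560) (l 16777552)) (l 16777496))) (b (l 16777544) (b (b (l 16777624) (l 16777584)) (l 16780136)))) (b (l 16777488) (a (b (l 16777568) (b (l 16777608) (l 16777544))) (l 16782872)))) (l 16782848)) (b (a (a (b (a (b (l 16777448) (l 14)) (l 16777480)) (l 14)) (a (b (l 16777528) (b (l 16777472) (l 16777432))) (b (b (l 16777568) (l 16777544)) (l 16777504)))) (a (b (a (b (l 16777576) (l 16777600)) (l 16777552)) (a (a (l 16777536) (l 16777528))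 (b (l 16777608) (l 16780176)))) (l 16782832))) (b (a (a (l 14) (a (l 14) (b (l 16777448) (l 14)))) (a (a (l 16777480) (l 16777528)) (a (b (l 16777584) (l 16777528)) (l 16777608)))) (a (l 14) (a (a (l 14) (b (l 16777472) (l 16777440))) (b (a (l 16777520) (l 16780160)) (l 16780136)))))))), by decide +kernel⟩

def k207_A00pm_213_s3 : ∃ t, chk3 f_A00pm_213_s3 t 2035 2038 1 = true :=
  ⟨(b (l 16789880) (a (b (l 16778160) (a (a (a (b (l 16777480) (b (l 16777536) (b (l 16777584) (l 16780192)))) (l 16777480)) (l 16777568)) (l 16777840))) (l 16783928))), by decide +kernel⟩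

def k208_A00pm_213_s3 : ∃ t, chk3 f_A00pm_213_s3 t 2034 2039 1 = true :=
  ⟨(b (a (l 4) (b (a (l 14) (b (a (l 14) (b (a (b (l 16777448) (l 14)) (l 16777480)) (l 14))) (l 14))) (a (l 2) (l 14)))) (l 2)), by decide +kernel⟩

def k209_A00pm_213_s3 : ∃ t, chk3 f_A00pm_213_s3 t 2035 4078 1 = true :=
  ⟨(a (b (b (a (a (a (a (b (l 16777512) (l 16777440)) (b (l 16777504) (l 16777464))) (b (b (l 16777592) (l 16780152)) (l 16777504))) (b (a (l 16777584) (l 16777512)) (a (a (l 16780128) (b (l 16777584) (l 16777528))) (b (l 16777544) (l 16777576))))) (l 16782720)) (b (a (b (a (a (l 14) (l 16777448)) (a (l 16777496) (l 16780136))) (a (l 14) (l 16780112))) (a (a (a (b (l 16777576) (l 16777528)) (l 16777584)) (l 16777528)) (l 16777480))) (a (a (l 14) (a (l 14) (b (l 16777472) (l 14)))) (b (a (a (l 16777504) (l 16780184)) (l 16777512)) (a (a (l 16777488) (l 16777504)) (l 16780208)))))) (a (l 14) (a (b (b (a (b (l 16777448) (l 14)) (l 16777480)) (l 14)) (l 14)) (a (b (a (b (l 16777488) (l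 16777448)) (b (b (l 16777552) (l 16777528)) (l 16777472))) (l 14)) (a (b (b (b (l 16777552) (l 16777528)) (l 16777496)) (l 14)) (b (b (l 16777576) (l 16780104)) (b (l 16777448) (l 14)))))))) (b (l 16783120) (b (a (b (l 16777464) (a (a (b (l 16777568) (a (l 16777512) (l 16777536))) (l 16777560)) (l 16777464))) (l 16777696)) (b (a (a (a (l 16780104) (b (a (l 16777520) (l 16777560)) (l 16777480))) (a (b (l 16777520) (l 16780184)) (l 16777496))) (l 16777520)) (a (a (a (l 14) (b (l 16777480) (l 14))) (a (a (l 16777472) (b (l 16777520) (l 16777504))) (a (b (l 16777552) (l 16777504)) (l 16777560)))) (l 16777456)))))), by decide +kernel⟩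

def k210_A00pm_213_s3 : ∃ t, chk3 f_A00pm_213_s3 t 2035 4079 1 = true :=
  ⟨(a (b (l 14) (l 2)) (b (a (b (b (a (l 14) (a (b (l 16777456) (l 14)) (a (l 16777472) (l 16780088)))) (l 14)) (l 14)) (b (a (b (a (a (b (l 16777528) (l 16777504)) (b (l 16777544) (l 16777504))) (l 16777560)) (a (b (l 16777480) (l 14)) (a (l 16780080) (b (l 16777536) (l 16777496))))) (b (l 16777456) (b (l 16777496) (a (a (l 16777512) (l 16777544)) (l 16777496))))) (b (b (a (a (l 14) (l 16777456)) (a (l 16780088) (l 16777552))) (a (l 14) (a (l 16777472) (a (l 16777488) (l 16777520))))) (b (a (l 14) (a (l 14) (l 16777480))) (l 14))))) (l 14))), by decide +kernel⟩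

def k211_A00pm_213_s3 : ∃ t, chk3 f_A00pm_213_s3 t 509 509 1 = true :=
  ⟨(b (a (l 16806448) (l 16831832)) (a (b (a (l 16791072) (l 16803536)) (a (b (a (l 16783624) (l 16779248)) (a (a (b (b (l 16777560) (a (b (a (l 16777528) (l 16777456)) (b (a (a (l 16777496) (l 16777536)) (l 16777496)) (a (l 16780080) (l 16780160)))) (l 16777432))) (b (b (b (a (a (l 16777456) (a (l 16777480) (l 16777504))) (l 16777528)) (a (a (l 14) (l 16777472)) (a (a (l 16777480) (l 16777528)) (l 16777488)))) (a (l 14) (a (b (l 16780072) (l 14)) (a (b (l 16777512) (l 16777480)) (b (l 16777512) (l 16777488)))))) (l 14))) (b (l 16777792) (b (a (a (b (l 16777440) (l 16777536)) (l 16777432)) (l 16777520)) (a (b (b (a (a (l 16777472) (l 16777520)) (l 16777488)) (a (l 16777448) (a (l 16780120) (l 16777520)))) (a (l 14) (a (l 14) (b (l 16777472) (l 14))))) (b (l 16777440) (a (b (l 16777528) (a (l 16777464) (l 16777504))) (l 16777496))))))) (b (l 16778384) (a (b (l 16777792) (l 16777536)) (l 16778040))))) (b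 (l 16791112) (l 16784600)))) (l 16794736))), by decide +kernel⟩

def k212_A00pm_213_s3 : ∃ t, chk3 f_A00pm_213_s3 t 255 254 1 = true :=
  ⟨(a (b (l 16847680) (b (l 16838896) (l 16812008))) (a (l 16849416) (a (l 16853400) (l 16875624)))), by decide +kernel⟩

def k213_A00pm_213_s3 : ∃ t, chk3 f_A00pm_213_s3 t 508 510 1 = true :=
  ⟨(l 4), by decide +kernel⟩

def k214_A00pm_213_s3 : ∃ t, chk3 f_A00pm_213_s3 t 2036 2040 1 = true :=
  ⟨(b (a (b (b (b (a (l 14) (a (l 14) (a (l 14) (a (b (l 16780104) (l 14)) (b (l 16777512) (l 16777456)))))) (l 14)) (l 14)) (a (l 2) (l 14))) (b (b (a (a (b (a (b (l 16777472) (l 16780144)) (l 16777448)) (a (a (l 14) (b (l 16780104) (l 14))) (a (b (l 16777504) (l 16780088)) (l 16780144)))) (l 16777416)) (l 16777648)) (a (a (l 14) (b (a (a (b (l 16780112) (l 14)) (b (l 16777488) (l 16780088))) (l 16780136)) (a (l 14) (a (l 14) (b (l 16777496) (l 14)))))) (b (l 16777464) (a (a (a (b (l 16777472) (l 16780096)) (l 16777496)) (l 16777440)) (l 16777440)))))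 (b (a (l 14) (a (b (a (l 14) (b (l 16780128) (a (l 14) (l 16780104)))) (l 14)) (b (a (l 16777472) (l 16777408)) (a (a (l 14) (b (l 16777496) (l 14))) (a (b (l 16777456) (l 16780112)) (l 16777448)))))) (l 14)))) (a (l 2) (b (a (l 4) (l 14)) (l 2)))), by decide +kernel⟩

def k215_A00pm_213_s3 : ∃ t, chk3 f_A00pm_213_s3 t 2037 2040 1 = true :=
  ⟨(b (a (b (l 16783320) (a (b (l 16780128) (a (b (a (a (b (l 16777480) (l 14)) (l 16780120)) (l 16777432)) (a (l 14) (a (l 14) (b (l 16777464) (l 14))))) (a (b (l 16777392) (l 16780112)) (l 16777408)))) (b (l 16777880) (l 16777616)))) (l 16783856)) (a (b (b (b (a (b (a (l 14) (a (l 14) (l 16777440))) (l 14)) (l 16780056)) (a (l 14) (a (a (b (l 16780104) (l 14)) (l 16777456)) (l 16777408)))) (a (l 14) (a (l 14) (a (b (b (l 16777424) (l 14)) (l 14)) (b (l 16777400) (b (l 16777464) (l 14))))))) (l 14)) (b (a (b (l 16777736) (a (l 16780016) (l 16777576))) (l 16777984)) (a (b (a (a (l 14) (b (a (l 16780096) (l 16777408)) (l 14))) (a (b (l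 16777384) (a (l 14) (l 16777456))) (l 16777376))) (l 14)) (b (l 16777584) (a (a (b (l 16780064) (l 14)) (a (b (l 16777376) (l 14)) (l 16777384))) (l 16777432))))))), by decide +kernel⟩

def k216_A00pm_213_s3 : ∃ t, chk3 f_A00pm_213_s3 t 1018 2041 1 = true :=
  ⟨(a (l 2) (b (a (l 4) (b (a (l 14) (a (l 14) (a (l 14) (b (b (l 16777392) (l 14)) (l 14))))) (a (l 2) (l 14)))) (l 2))), by decide +kernel⟩

def k217_A00pm_213_s3 : ∃ t, chk3 f_A00pm_213_s3 t 1019 1020 1 = true :=
  ⟨(b (a (b (l 16790456) (a (b (l 16778608) (a (l 16780448) (l 16778240))) (l 16784424))) (l 16791744)) (a (b (a (b (a (b (a (a (a (b (l 16777368) (l 14)) (l 16777368)) (l 16777408)) (l 16777536)) (a (l 14) (b (l 16777360) (a (l 14) (a (l 14) (l 16777376)))))) (b (l 16777816) (l 16780176))) (a (l 14) (b (a (a (l 14) (b (l 16777360) (l 14))) (l 16780016)) (l 14)))) (b (l 16783520) (a (a (b (l 16777576) (b (l 16777392) (l 14))) (l 16780248)) (l 16780536)))) (a (b (a (l 4) (l 14)) (l 2)) (b (a (b (b (a (l 14)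 (a (l 14) (l 16777368))) (l 14)) (l 14)) (b (a (l 16780048) (l 16777616)) (a (l 14) (b (l 16777424) (l 14))))) (l 14)))) (b (a (l 16784080) (l 16790272)) (a (b (a (b (l 16777904) (l 16780248)) (l 16778168)) (a (b (a (b (l 16777352) (l 14)) (l 16780088)) (l 14)) (a (b (l 16777648) (b (l 16777456) (l 14))) (l 16780320)))) (b (l 16778824) (a (l 16780624) (l 16783680))))))), by decide +kernel⟩

def k218_A00pm_213_s3 : ∃ t, chk3 f_A00pm_213_s3 t 509 1021 1 = true :=
  ⟨(a (l 2) (b (a (l 4) (b (a (b (a (l 14) (a (l 14) (b (b (l 16777384) (l 14)) (l 14)))) (a (l 2) (l 14))) (b (a (b (l 16780208) (a (l 14) (b (l 16777488) (l 14)))) (b (l 16777992) (l 16777704))) (a (l 14) (b (a (b (l 16777416) (l 14)) (l 16777528)) (l 14))))) (a (l 2) (b (a (l 4) (l 14)) (l 2))))) (l 2))), by decide +kernel⟩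

def k219_A00pm_213_s3 : ∃ t, chk3 f_A00pm_213_s3 t 254 511 1 = true :=
  ⟨(l 2), by decide +kernel⟩

def k220_A00pm_213_s3 : ∃ t, chk3 f_A00pm_213_s3 t 255 510 1 = true :=
  ⟨(a (b (b (l 16797112) (a (a (b (l 16791760) (l 16785152)) (l 16793152)) (l 16806976))) (a (b (a (b (a (b (l 16783720) (a (b (l 16777824) (a (b (l 16777520) (l 14)) (l 16777640))) (l 16780712))) (l 16784312)) (a (b (a (a (l 14) (a (l 14) (b (l 16777424) (l 14)))) (b (l 16780272) (a (l 14) (b (l 16777552) (l 14))))) (l 14)) (b (a (b (l 16783320) (l 16777776)) (l 16778360)) (a (b (a (a (l 14) (l 16777456)) (l 16777592)) (l 14)) (b (l 16777896) (a (b (l 16777584) (l 14)) (l 16777712))))))) (b (l 16785800) (a (b (l 16784296) (a (l 16780800) (l 16778632))) (l 16784928)))) (a (b (a (l 4) (b (a (l 14) (b (a (l 14) (b (l 16777504) (l 14))) (l 14))) (a (l 2) (l 14)))) (l 2)) (b (a (b (a (b (l 16780344) (a (l 14) (b (l 16777616) (l 14)))) (b (l 16778160) (l 16777848))) (a (l 14) (b (a (b (l 16777536) (l 14)) (l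 16777656)) (l 14)))) (b (l 16783920) (a (b (l 16777976) (a (b (l 16777648) (l 14)) (l 16777784))) (l 16780888)))) (a (b (a (l 4) (l 14)) (l 2)) (b (a (l 14) (b (l 16780416) (a (l 14) (b (l 16777680) (l 14))))) (l 14)))))) (b (a (l 16792432) (l 16784168)) (a (b (a (l 16784552) (l 16790824)) (a (b (a (l 16780696) (l 16783784)) (a (b (a (l 14) (l 16777728)) (l 14)) (a (a (b (l 16777888) (l 14)) (l 16780456)) (l 16780624)))) (b (l 16784520) (a (l 16780976) (l 16778840))))) (l 16786424))))) (a (b (l 16792272) (b (l 16808624) (a (l 16793912) (l 16785752)))) (a (l 16813840) (a (l 16815744) (l 16826792))))), by decide +kernel⟩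

def k221_A00pm_213_s3 : ∃ t, chk3 f_A00pm_213_s3 t 510 511 1 = true :=
  ⟨(b (a (l 4) (b (a (b (a (b (l 14) (a (l 2) (l 14))) (b (a (b (l 16780488) (a (l 14) (a (l 14) (l 16780344)))) (l 16780776)) (a (l 14) (b (a (l 14) (c (l 16777760) (l 16780440))) (l 14))))) (a (l 2) (b (a (l 4) (l 14)) (l 2)))) (b (a (b (a (l 16783880) (l 16779144)) (a (a (a (b (l 16777960) (l 14)) (l 16780528)) (l 16780704)) (b (l 16778616) (l 16778272)))) (l 16784784)) (a (b (a (l 14) (b (l 16780560) (a (l 14) (b (l 16777808) (l 14))))) (l 14)) (b (a (l 16780856) (l 16783976)) (a (b (a (l 14) (l 16780480)) (l 14)) (b (l 16780832) (a (a (l 14) (l 16777816)) (l 16777992)))))))) (a (l 2) (b (a (l 4) (b (l 14) (a (l 2) (l 14)))) (l 2))))) (l 2)), by decide +kernel⟩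

def k222_A00pm_213_s3 : ∃ t, chk3 f_A00pm_213_s3 t 511 1022 1 = true :=
  ⟨(a (b (a (b (a (l 16780616) (l 16781720)) (a (b (l 16784752) (a (b (l 16778712) (l 16778352)) (l 16779040))) (l 16785448))) (l 16793128)) (a (b (a (b (a (b (l 16780624) (a (l 14) (a (l 14) (l 16777848)))) (l 16780944)) (a (l 14) (b (a (l 14) (l 16780544)) (l 14)))) (b (a (l 16778832) (l 16779360)) (a (b (l 16780912) (a (a (l 14) (l 16777880)) (l 16778064))) (b (l 16778808) (l 16778440))))) (a (b (a (l 4) (l 14)) (l 2)) (b (a (l 14) (b (a (l 16780576) (l 16778208)) (a (l 14) (b (l 16777936) (l 14))))) (l 14)))) (b (a (l 16785024) (l 16780896)) (a (b (a (b (l 16778592) (l 16780848)) (l 16778928)) (a (b (a (l 14) (l 16780608)) (l 14)) (b (l 16778368) (a (b (l 16777976) (l 14)) (l 16778136))))) (b (l 16779744) (a (b (l 16778904) (l 16778520)) (l 16779248))))))) (a (b (l 16784992) (b (l 16782624) (a (l 16785712) (l 16781616)))) (a (l 16795688) (b (l 16808664) (l 16802784))))), by decide +kernel⟩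

def k223_A00pm_213_s3 : ∃ t, chk3 f_A00pm_213_s3 t 511 1023 1 = true :=
  ⟨(a (b (a (l 4) (b (a (b (l 14) (a (l 2) (l 14))) (b (a (b (a (l 16778024) (l 16778280)) (a (l 14) (b (l 16778008) (l 14)))) (b (l 16778680) (l 16780920))) (a (l 14) (b (a (l 14) (l 16778056)) (l 14))))) (a (l 2) (b (a (l 4) (l 14)) (l 2))))) (l 2)) (b (a (b (a (b (a (l 16779024) (l 16779584)) (a (b (l 16778456) (a (b (l 16778040) (l 14)) (l 16778208))) (b (l 16779000) (l 16778608)))) (b (l 16780432) (l 16784880))) (a (b (a (l 14) (a (b (l 16778088) (l 14)) (b (l 16778360) (b (l 16778072) (l 14))))) (l 14)) (b (a (b (l 16778768) (l 16781000)) (l 16779128)) (a (b (a (l 14) (l 16778128)) (l 14)) (b (l 16778536) (a (b (l 16778104) (l 14)) (l 16778280))))))) (a (b (l 16781184) (b (l 16779976) (a (l 16781512) (l 16779464)))) (a (l 16786504) (a (l 16786944) (a (l 16781928) (l 16792480)))))) (a (b (a (l 4) (b (l 14) (a (l 2) (l 14)))) (l 2)) (b (a (b (a (b (a (l 16778160) (l 16778440)) (a (l 14) (c (l 16777992)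 (l 16778080)))) (b (l 16778856) (l 16781080))) (a (l 14) (b (a (l 14) (l 16778192)) (l 14)))) (a (b (l 16779224) (b (l 16778616) (a (c (l 16778024) (l 16778120)) (l 16778352)))) (a (b (l 16779664) (l 16778840)) (a (b (l 16779880) (l 16779064)) (b (l 16779992) (l 16784392)))))) (a (b (a (l 4) (l 14)) (l 2)) (b (a (l 14) (a (b (l 16778232) (l 14)) (a (b (l 16778448) (l 14)) (a (b (l 16778552) (l 16778144)) (a (l 16778400) (b (l 16778632) (l 16780840))))))) (l 14))))))), by decide +kernel⟩

theorem t224_A00pm_213_s3 : ∃ t, chk3 f_A00pm_213_s3 t 511 511 1 = true := ex3_b k222_A00pm_213_s3 k223_A00pm_213_s3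

theorem t225_A00pm_213_s3 : ∃ t, chk3 f_A00pm_213_s3 t 255 511 1 = true := ex3_a k221_A00pm_213_s3 t224_A00pm_213_s3

theorem t226_A00pm_213_s3 : ∃ t, chk3 f_A00pm_213_s3 t 255 255 1 = true := ex3_b k220_A00pm_213_s3 t225_A00pm_213_s3

theorem t227_A00pm_213_s3 : ∃ t, chk3 f_A00pm_213_s3 t 1018 2040 1 = true := ex3_a k214_A00pm_213_s3 k215_A00pm_213_s3

theorem t228_A00pm_213_s3 : ∃ t, chk3 f_A00pm_213_s3 t 1018 1020 1 = true := ex3_b t227_A00pm_213_s3 k216_A00pm_213_s3

theorem t229_A00pm_213_s3 : ∃ t, chk3 f_A00pm_213_s3 t 509 1020 1 = true := ex3_a t228_A00pm_213_s3 k217_A00pm_213_s3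

theorem t230_A00pm_213_s3 : ∃ t, chk3 f_A00pm_213_s3 t 509 510 1 = true := ex3_b t229_A00pm_213_s3 k218_A00pm_213_s3

theorem t231_A00pm_213_s3 : ∃ t, chk3 f_A00pm_213_s3 t 254 510 1 = true := ex3_a k213_A00pm_213_s3 t230_A00pm_213_s3

theorem t232_A00pm_213_s3 : ∃ t, chk3 f_A00pm_213_s3 t 254 255 1 = true := ex3_b t231_A00pm_213_s3 k219_A00pm_213_s3

theorem t233_A00pm_213_s3 : ∃ t, chk3 f_A00pm_213_s3 t 127 255 1 = true := ex3_a t232_A00pm_213_s3 t226_A00pm_213_s3

theorem t234_A00pm_213_s3 : ∃ t, chk3 f_A00pm_213_s3 t 2035 2039 1 = true := ex3_b k209_A00pm_213_s3 k210_A00pm_213_s3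

theorem t235_A00pm_213_s3 : ∃ t, chk3 f_A00pm_213_s3 t 1017 2039 1 = true := ex3_a k208_A00pm_213_s3 t234_A00pm_213_s3

theorem t236_A00pm_213_s3 : ∃ t, chk3 f_A00pm_213_s3 t 2034 2038 1 = true := ex3_b k205_A00pm_213_s3 k206_A00pm_213_s3

theorem t237_A00pm_213_s3 : ∃ t, chk3 f_A00pm_213_s3 t 1017 2038 1 = true := ex3_a t236_A00pm_213_s3 k207_A00pm_213_s3

theorem t238_A00pm_213_s3 : ∃ t, chk3 f_A00pm_213_s3 t 1017 1019 1 = true := ex3_b t237_A00pm_213_s3 t235_A00pm_213_s3

theorem t239_A00pm_213_s3 : ∃ t, chk3 f_A00pm_213_s3 t 508 1019 1 = true := ex3_a k204_A00pm_213_s3 t238_A00pm_213_s3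

theorem t240_A00pm_213_s3 : ∃ t, chk3 f_A00pm_213_s3 t 2032 2037 1 = true := ex3_b k200_A00pm_213_s3 k201_A00pm_213_s3

theorem t241_A00pm_213_s3 : ∃ t, chk3 f_A00pm_213_s3 t 1016 2037 1 = true := ex3_a t240_A00pm_213_s3 k202_A00pm_213_s3

theorem t242_A00pm_213_s3 : ∃ t, chk3 f_A00pm_213_s3 t 1016 1018 1 = true := ex3_b k199_A00pm_213_s3 t241_A00pm_213_s3

theorem t243_A00pm_213_s3 : ∃ t, chk3 f_A00pm_213_s3 t 508 1018 1 = true := ex3_a t242_A00pm_213_s3 k203_A00pm_213_s3

theorem t244_A00pm_213_s3 : ∃ t, chk3 f_A00pm_213_s3 t 508 509 1 = true := ex3_b t243_A00pm_213_s3 t239_A00pm_213_s3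

theorem t245_A00pm_213_s3 : ∃ t, chk3 f_A00pm_213_s3 t 254 509 1 = true := ex3_a t244_A00pm_213_s3 k211_A00pm_213_s3

theorem t246_A00pm_213_s3 : ∃ t, chk3 f_A00pm_213_s3 t 254 254 1 = true := ex3_b k198_A00pm_213_s3 t245_A00pm_213_s3

theorem t247_A00pm_213_s3 : ∃ t, chk3 f_A00pm_213_s3 t 127 254 1 = true := ex3_a t246_A00pm_213_s3 k212_A00pm_213_s3

theorem t248_A00pm_213_s3 : ∃ t, chk3 f_A00pm_213_s3 t 127 127 1 = true := ex3_b t247_A00pm_213_s3 t233_A00pm_213_s3

theorem t249_A00pm_213_s3 : ∃ t, chk3 f_A00pm_213_s3 t 2031 2036 1 = true := ex3_b k193_A00pm_213_s3 k194_A00pm_213_s3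

theorem t250_A00pm_213_s3 : ∃ t, chk3 f_A00pm_213_s3 t 1015 2036 1 = true := ex3_a k192_A00pm_213_s3 t249_A00pm_213_s3

theorem t251_A00pm_213_s3 : ∃ t, chk3 f_A00pm_213_s3 t 1015 1018 1 = true := ex3_b t250_A00pm_213_s3 k195_A00pm_213_s3

theorem t252_A00pm_213_s3 : ∃ t, chk3 f_A00pm_213_s3 t 507 1018 1 = true := ex3_a k191_A00pm_213_s3 t251_A00pm_213_s3

theorem t253_A00pm_213_s3 : ∃ t, chk3 f_A00pm_213_s3 t 507 509 1 = true := ex3_b t252_A00pm_213_s3 k196_A00pm_213_s3

theorem t254_A00pm_213_s3 : ∃ t, chk3 f_A00pm_213_s3 t 253 509 1 = true := ex3_a k190_A00pm_213_s3 t253_A00pm_213_s3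

theorem t255_A00pm_213_s3 : ∃ t, chk3 f_A00pm_213_s3 t 2029 2035 1 = true := ex3_a k187_A00pm_213_s3 k188_A00pm_213_s3

theorem t256_A00pm_213_s3 : ∃ t, chk3 f_A00pm_213_s3 t 1014 2035 1 = true := ex3_a k186_A00pm_213_s3 t255_A00pm_213_s3

theorem t257_A00pm_213_s3 : ∃ t, chk3 f_A00pm_213_s3 t 2028 4069 1 = true := ex3_b k183_A00pm_213_s3 k184_A00pm_213_s3

theorem t258_A00pm_213_s3 : ∃ t, chk3 f_A00pm_213_s3 t 2028 2034 1 = true := ex3_b k182_A00pm_213_s3 t257_A00pm_213_s3

theorem t259_A00pm_213_s3 : ∃ t, chk3 f_A00pm_213_s3 t 1014 2034 1 = true := ex3_a t258_A00pm_213_s3 k185_A00pm_213_s3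

theorem t260_A00pm_213_s3 : ∃ t, chk3 f_A00pm_213_s3 t 1014 1017 1 = true := ex3_b t259_A00pm_213_s3 t256_A00pm_213_s3

theorem t261_A00pm_213_s3 : ∃ t, chk3 f_A00pm_213_s3 t 507 1017 1 = true := ex3_a t260_A00pm_213_s3 k189_A00pm_213_s3

theorem t262_A00pm_213_s3 : ∃ t, chk3 f_A00pm_213_s3 t 507 508 1 = true := ex3_b k181_A00pm_213_s3 t261_A00pm_213_s3

theorem t263_A00pm_213_s3 : ∃ t, chk3 f_A00pm_213_s3 t 8111 16275 1 = true := ex3_a k177_A00pm_213_s3 k178_A00pm_213_s3

theorem t264_A00pm_213_s3 : ∃ t, chk3 f_A00pm_213_s3 t 8111 8137 1 = true := ex3_b k176_A00pm_213_s3 t263_A00pm_213_s3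

theorem t265_A00pm_213_s3 : ∃ t, chk3 f_A00pm_213_s3 t 8110 16274 1 = true := ex3_a k173_A00pm_213_s3 k174_A00pm_213_s3

theorem t266_A00pm_213_s3 : ∃ t, chk3 f_A00pm_213_s3 t 8110 8137 1 = true := ex3_b t265_A00pm_213_s3 k175_A00pm_213_s3

theorem t267_A00pm_213_s3 : ∃ t, chk3 f_A00pm_213_s3 t 4055 8137 1 = true := ex3_a t266_A00pm_213_s3 t264_A00pm_213_s3

theorem t268_A00pm_213_s3 : ∃ t, chk3 f_A00pm_213_s3 t 4055 4068 1 = true := ex3_b k172_A00pm_213_s3 t267_A00pm_213_s3

theorem t269_A00pm_213_s3 : ∃ t, chk3 f_A00pm_213_s3 t 8109 16273 1 = true := ex3_a k169_A00pm_213_s3 k170_A00pm_213_s3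

theorem t270_A00pm_213_s3 : ∃ t, chk3 f_A00pm_213_s3 t 8109 8136 1 = true := ex3_b k168_A00pm_213_s3 t269_A00pm_213_s3

theorem t271_A00pm_213_s3 : ∃ t, chk3 f_A00pm_213_s3 t 4054 8136 1 = true := ex3_a k167_A00pm_213_s3 t270_A00pm_213_s3

theorem t272_A00pm_213_s3 : ∃ t, chk3 f_A00pm_213_s3 t 4054 4068 1 = true := ex3_b t271_A00pm_213_s3 k171_A00pm_213_s3

theorem t273_A00pm_213_s3 : ∃ t, chk3 f_A00pm_213_s3 t 2027 4068 1 = true := ex3_a t272_A00pm_213_s3 t268_A00pm_213_s3

theorem t274_A00pm_213_s3 : ∃ t, chk3 f_A00pm_213_s3 t 2027 2034 1 = true := ex3_b t273_A00pm_213_s3 k179_A00pm_213_s3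

theorem t275_A00pm_213_s3 : ∃ t, chk3 f_A00pm_213_s3 t 1013 2034 1 = true := ex3_a k166_A00pm_213_s3 t274_A00pm_213_s3

theorem t276_A00pm_213_s3 : ∃ t, chk3 f_A00pm_213_s3 t 1013 1017 1 = true := ex3_b t275_A00pm_213_s3 k180_A00pm_213_s3

theorem t277_A00pm_213_s3 : ∃ t, chk3 f_A00pm_213_s3 t 506 1017 1 = true := ex3_a k165_A00pm_213_s3 t276_A00pm_213_s3

theorem t278_A00pm_213_s3 : ∃ t, chk3 f_A00pm_213_s3 t 8108 16271 1 = true := ex3_a k161_A00pm_213_s3 k162_A00pm_213_s3

theorem t279_A00pm_213_s3 : ∃ t, chk3 f_A00pm_213_s3 t 8108 8135 1 = true := ex3_b k160_A00pm_213_s3 t278_A00pm_213_s3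

theorem t280_A00pm_213_s3 : ∃ t, chk3 f_A00pm_213_s3 t 4054 8135 1 = true := ex3_a t279_A00pm_213_s3 k163_A00pm_213_s3

theorem t281_A00pm_213_s3 : ∃ t, chk3 f_A00pm_213_s3 t 4054 4067 1 = true := ex3_b k159_A00pm_213_s3 t280_A00pm_213_s3

theorem t282_A00pm_213_s3 : ∃ t, chk3 f_A00pm_213_s3 t 4054 2033 1 = true := ex3_b k158_A00pm_213_s3 t281_A00pm_213_s3

theorem t283_A00pm_213_s3 : ∃ t, chk3 f_A00pm_213_s3 t 2027 2033 1 = true := ex3_a t282_A00pm_213_s3 k164_A00pm_213_s3

theorem t284_A00pm_213_s3 : ∃ t, chk3 f_A00pm_213_s3 t 8107 16270 1 = true := ex3_a k155_A00pm_213_s3 k156_A00pm_213_s3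

theorem t285_A00pm_213_s3 : ∃ t, chk3 f_A00pm_213_s3 t 8107 8135 1 = true := ex3_b t284_A00pm_213_s3 k157_A00pm_213_s3

theorem t286_A00pm_213_s3 : ∃ t, chk3 f_A00pm_213_s3 t 4053 8135 1 = true := ex3_a k154_A00pm_213_s3 t285_A00pm_213_s3

theorem t287_A00pm_213_s3 : ∃ t, chk3 f_A00pm_213_s3 t 8106 8134 1 = true := ex3_b k151_A00pm_213_s3 k152_A00pm_213_s3

theorem t288_A00pm_213_s3 : ∃ t, chk3 f_A00pm_213_s3 t 4053 8134 1 = true := ex3_a t287_A00pm_213_s3 k153_A00pm_213_s3

theorem t289_A00pm_213_s3 : ∃ t, chk3 f_A00pm_213_s3 t 4053 4067 1 = true := ex3_b t288_A00pm_213_s3 t286_A00pm_213_s3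

theorem t290_A00pm_213_s3 : ∃ t, chk3 f_A00pm_213_s3 t 2026 4067 1 = true := ex3_a k150_A00pm_213_s3 t289_A00pm_213_s3

theorem t291_A00pm_213_s3 : ∃ t, chk3 f_A00pm_213_s3 t 8105 16267 1 = true := ex3_a k147_A00pm_213_s3 k148_A00pm_213_s3

theorem t292_A00pm_213_s3 : ∃ t, chk3 f_A00pm_213_s3 t 8105 8133 1 = true := ex3_b k146_A00pm_213_s3 t291_A00pm_213_s3

theorem t293_A00pm_213_s3 : ∃ t, chk3 f_A00pm_213_s3 t 8104 8133 1 = true := ex3_b k144_A00pm_213_s3 k145_A00pm_213_s3

theorem t294_A00pm_213_s3 : ∃ t, chk3 f_A00pm_213_s3 t 4052 8133 1 = true := ex3_a t293_A00pm_213_s3 t292_A00pm_213_s3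

theorem t295_A00pm_213_s3 : ∃ t, chk3 f_A00pm_213_s3 t 4052 4066 1 = true := ex3_b k143_A00pm_213_s3 t294_A00pm_213_s3

theorem t296_A00pm_213_s3 : ∃ t, chk3 f_A00pm_213_s3 t 2026 4066 1 = true := ex3_a t295_A00pm_213_s3 k149_A00pm_213_s3

theorem t297_A00pm_213_s3 : ∃ t, chk3 f_A00pm_213_s3 t 2026 2033 1 = true := ex3_b t296_A00pm_213_s3 t290_A00pm_213_s3

theorem t298_A00pm_213_s3 : ∃ t, chk3 f_A00pm_213_s3 t 1013 2033 1 = true := ex3_a t297_A00pm_213_s3 t283_A00pm_213_s3

theorem t299_A00pm_213_s3 : ∃ t, chk3 f_A00pm_213_s3 t 1013 1016 1 = true := ex3_b k142_A00pm_213_s3 t298_A00pm_213_s3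

theorem t300_A00pm_213_s3 : ∃ t, chk3 f_A00pm_213_s3 t 4051 8132 1 = true := ex3_b k138_A00pm_213_s3 k139_A00pm_213_s3

theorem t301_A00pm_213_s3 : ∃ t, chk3 f_A00pm_213_s3 t 4051 4066 1 = true := ex3_b t300_A00pm_213_s3 k140_A00pm_213_s3

theorem t302_A00pm_213_s3 : ∃ t, chk3 f_A00pm_213_s3 t 2025 4066 1 = true := ex3_a k137_A00pm_213_s3 t301_A00pm_213_s3

theorem t303_A00pm_213_s3 : ∃ t, chk3 f_A00pm_213_s3 t 2025 2033 1 = true := ex3_b t302_A00pm_213_s3 k141_A00pm_213_s3

theorem t304_A00pm_213_s3 : ∃ t, chk3 f_A00pm_213_s3 t 1012 2033 1 = true := ex3_a k136_A00pm_213_s3 t303_A00pm_213_s3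

theorem t305_A00pm_213_s3 : ∃ t, chk3 f_A00pm_213_s3 t 8102 8131 1 = true := ex3_b k133_A00pm_213_s3 k134_A00pm_213_s3

theorem t306_A00pm_213_s3 : ∃ t, chk3 f_A00pm_213_s3 t 4051 8131 1 = true := ex3_a t305_A00pm_213_s3 k135_A00pm_213_s3

theorem t307_A00pm_213_s3 : ∃ t, chk3 f_A00pm_213_s3 t 4051 4065 1 = true := ex3_b k132_A00pm_213_s3 t306_A00pm_213_s3

theorem t308_A00pm_213_s3 : ∃ t, chk3 f_A00pm_213_s3 t 8100 8130 1 = true := ex3_b k128_A00pm_213_s3 k129_A00pm_213_s3

theorem t309_A00pm_213_s3 : ∃ t, chk3 f_A00pm_213_s3 t 4050 8130 1 = true := ex3_a t308_A00pm_213_s3 k130_A00pm_213_s3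

theorem t310_A00pm_213_s3 : ∃ t, chk3 f_A00pm_213_s3 t 4050 4065 1 = true := ex3_b t309_A00pm_213_s3 k131_A00pm_213_s3

theorem t311_A00pm_213_s3 : ∃ t, chk3 f_A00pm_213_s3 t 2025 4065 1 = true := ex3_a t310_A00pm_213_s3 t307_A00pm_213_s3

theorem t312_A00pm_213_s3 : ∃ t, chk3 f_A00pm_213_s3 t 2025 2032 1 = true := ex3_b k127_A00pm_213_s3 t311_A00pm_213_s3

theorem t313_A00pm_213_s3 : ∃ t, chk3 f_A00pm_213_s3 t 4049 8129 1 = true := ex3_a k124_A00pm_213_s3 k125_A00pm_213_s3

theorem t314_A00pm_213_s3 : ∃ t, chk3 f_A00pm_213_s3 t 4049 4064 1 = true := ex3_b k123_A00pm_213_s3 t313_A00pm_213_s3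

theorem t315_A00pm_213_s3 : ∃ t, chk3 f_A00pm_213_s3 t 4048 8128 1 = true := ex3_b k120_A00pm_213_s3 k121_A00pm_213_s3

theorem t316_A00pm_213_s3 : ∃ t, chk3 f_A00pm_213_s3 t 4048 4064 1 = true := ex3_b t315_A00pm_213_s3 k122_A00pm_213_s3

theorem t317_A00pm_213_s3 : ∃ t, chk3 f_A00pm_213_s3 t 2024 4064 1 = true := ex3_a t316_A00pm_213_s3 t314_A00pm_213_s3

theorem t318_A00pm_213_s3 : ∃ t, chk3 f_A00pm_213_s3 t 2024 2032 1 = true := ex3_b t317_A00pm_213_s3 k126_A00pm_213_s3

theorem t319_A00pm_213_s3 : ∃ t, chk3 f_A00pm_213_s3 t 1012 2032 1 = true := ex3_a t318_A00pm_213_s3 t312_A00pm_213_s3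

theorem t320_A00pm_213_s3 : ∃ t, chk3 f_A00pm_213_s3 t 1012 1016 1 = true := ex3_b t319_A00pm_213_s3 t304_A00pm_213_s3

theorem t321_A00pm_213_s3 : ∃ t, chk3 f_A00pm_213_s3 t 506 1016 1 = true := ex3_a t320_A00pm_213_s3 t299_A00pm_213_s3

theorem t322_A00pm_213_s3 : ∃ t, chk3 f_A00pm_213_s3 t 506 508 1 = true := ex3_b t321_A00pm_213_s3 t277_A00pm_213_s3

theorem t323_A00pm_213_s3 : ∃ t, chk3 f_A00pm_213_s3 t 253 508 1 = true := ex3_a t322_A00pm_213_s3 t262_A00pm_213_s3

theorem t324_A00pm_213_s3 : ∃ t, chk3 f_A00pm_213_s3 t 253 254 1 = true := ex3_b t323_A00pm_213_s3 t254_A00pm_213_s3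

theorem t325_A00pm_213_s3 : ∃ t, chk3 f_A00pm_213_s3 t 126 254 1 = true := ex3_a k119_A00pm_213_s3 t324_A00pm_213_s3

theorem t326_A00pm_213_s3 : ∃ t, chk3 f_A00pm_213_s3 t 126 127 1 = true := ex3_b t325_A00pm_213_s3 k197_A00pm_213_s3

theorem t327_A00pm_213_s3 : ∃ t, chk3 f_A00pm_213_s3 t 63 127 1 = true := ex3_a t326_A00pm_213_s3 t248_A00pm_213_s3

theorem t328_A00pm_213_s3 : ∃ t, chk3 f_A00pm_213_s3 t 4048 8127 1 = true := ex3_a k112_A00pm_213_s3 k113_A00pm_213_s3

theorem t329_A00pm_213_s3 : ∃ t, chk3 f_A00pm_213_s3 t 4048 4063 1 = true := ex3_b k111_A00pm_213_s3 t328_A00pm_213_s3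

theorem t330_A00pm_213_s3 : ∃ t, chk3 f_A00pm_213_s3 t 2024 4063 1 = true := ex3_a t329_A00pm_213_s3 k114_A00pm_213_s3

theorem t331_A00pm_213_s3 : ∃ t, chk3 f_A00pm_213_s3 t 2024 2031 1 = true := ex3_b k110_A00pm_213_s3 t330_A00pm_213_s3

theorem t332_A00pm_213_s3 : ∃ t, chk3 f_A00pm_213_s3 t 1012 2031 1 = true := ex3_a t331_A00pm_213_s3 k115_A00pm_213_s3

theorem t333_A00pm_213_s3 : ∃ t, chk3 f_A00pm_213_s3 t 1012 1015 1 = true := ex3_b k109_A00pm_213_s3 t332_A00pm_213_s3

theorem t334_A00pm_213_s3 : ∃ t, chk3 f_A00pm_213_s3 t 506 1015 1 = true := ex3_a t333_A00pm_213_s3 k116_A00pm_213_s3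

theorem t335_A00pm_213_s3 : ∃ t, chk3 f_A00pm_213_s3 t 506 507 1 = true := ex3_b k108_A00pm_213_s3 t334_A00pm_213_s3

theorem t336_A00pm_213_s3 : ∃ t, chk3 f_A00pm_213_s3 t 253 507 1 = true := ex3_a t335_A00pm_213_s3 k117_A00pm_213_s3

theorem t337_A00pm_213_s3 : ∃ t, chk3 f_A00pm_213_s3 t 253 253 1 = true := ex3_b k107_A00pm_213_s3 t336_A00pm_213_s3

theorem t338_A00pm_213_s3 : ∃ t, chk3 f_A00pm_213_s3 t 4047 8126 1 = true := ex3_a k104_A00pm_213_s3 k105_A00pm_213_s3

theorem t339_A00pm_213_s3 : ∃ t, chk3 f_A00pm_213_s3 t 4047 4063 1 = true := ex3_b t338_A00pm_213_s3 k106_A00pm_213_s3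

theorem t340_A00pm_213_s3 : ∃ t, chk3 f_A00pm_213_s3 t 2023 4063 1 = true := ex3_a k103_A00pm_213_s3 t339_A00pm_213_s3

theorem t341_A00pm_213_s3 : ∃ t, chk3 f_A00pm_213_s3 t 4046 8125 1 = true := ex3_a k100_A00pm_213_s3 k101_A00pm_213_s3

theorem t342_A00pm_213_s3 : ∃ t, chk3 f_A00pm_213_s3 t 4046 4062 1 = true := ex3_b k99_A00pm_213_s3 t341_A00pm_213_s3

theorem t343_A00pm_213_s3 : ∃ t, chk3 f_A00pm_213_s3 t 2023 4062 1 = true := ex3_a t342_A00pm_213_s3 k102_A00pm_213_s3

theorem t344_A00pm_213_s3 : ∃ t, chk3 f_A00pm_213_s3 t 2023 2031 1 = true := ex3_b t343_A00pm_213_s3 t340_A00pm_213_s3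

theorem t345_A00pm_213_s3 : ∃ t, chk3 f_A00pm_213_s3 t 1011 2031 1 = true := ex3_a k98_A00pm_213_s3 t344_A00pm_213_s3

theorem t346_A00pm_213_s3 : ∃ t, chk3 f_A00pm_213_s3 t 4045 4061 1 = true := ex3_b k95_A00pm_213_s3 k96_A00pm_213_s3

theorem t347_A00pm_213_s3 : ∃ t, chk3 f_A00pm_213_s3 t 4044 8122 1 = true := ex3_a k92_A00pm_213_s3 k93_A00pm_213_s3

theorem t348_A00pm_213_s3 : ∃ t, chk3 f_A00pm_213_s3 t 4044 4061 1 = true := ex3_b t347_A00pm_213_s3 k94_A00pm_213_s3

theorem t349_A00pm_213_s3 : ∃ t, chk3 f_A00pm_213_s3 t 2022 4061 1 = true := ex3_a t348_A00pm_213_s3 t346_A00pm_213_s3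

theorem t350_A00pm_213_s3 : ∃ t, chk3 f_A00pm_213_s3 t 2022 2030 1 = true := ex3_b k91_A00pm_213_s3 t349_A00pm_213_s3

theorem t351_A00pm_213_s3 : ∃ t, chk3 f_A00pm_213_s3 t 1011 2030 1 = true := ex3_a t350_A00pm_213_s3 k97_A00pm_213_s3

theorem t352_A00pm_213_s3 : ∃ t, chk3 f_A00pm_213_s3 t 1011 1015 1 = true := ex3_b t351_A00pm_213_s3 t345_A00pm_213_s3

theorem t353_A00pm_213_s3 : ∃ t, chk3 f_A00pm_213_s3 t 2021 8120 1 = true := ex3_a k86_A00pm_213_s3 k87_A00pm_213_s3

theorem t354_A00pm_213_s3 : ∃ t, chk3 f_A00pm_213_s3 t 2021 4060 1 = true := ex3_b t353_A00pm_213_s3 k88_A00pm_213_s3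

theorem t355_A00pm_213_s3 : ∃ t, chk3 f_A00pm_213_s3 t 2021 2030 1 = true := ex3_b t354_A00pm_213_s3 k89_A00pm_213_s3

theorem t356_A00pm_213_s3 : ∃ t, chk3 f_A00pm_213_s3 t 1010 2030 1 = true := ex3_a k85_A00pm_213_s3 t355_A00pm_213_s3

theorem t357_A00pm_213_s3 : ∃ t, chk3 f_A00pm_213_s3 t 1010 1015 1 = true := ex3_b t356_A00pm_213_s3 k90_A00pm_213_s3

theorem t358_A00pm_213_s3 : ∃ t, chk3 f_A00pm_213_s3 t 505 1015 1 = true := ex3_a t357_A00pm_213_s3 t352_A00pm_213_s3

theorem t359_A00pm_213_s3 : ∃ t, chk3 f_A00pm_213_s3 t 1010 8119 1 = true := ex3_b k82_A00pm_213_s3 k83_A00pm_213_s3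

theorem t360_A00pm_213_s3 : ∃ t, chk3 f_A00pm_213_s3 t 1010 4059 1 = true := ex3_b k81_A00pm_213_s3 t359_A00pm_213_s3

theorem t361_A00pm_213_s3 : ∃ t, chk3 f_A00pm_213_s3 t 1010 4058 1 = true := ex3_b k79_A00pm_213_s3 k80_A00pm_213_s3

theorem t362_A00pm_213_s3 : ∃ t, chk3 f_A00pm_213_s3 t 1010 2029 1 = true := ex3_b t361_A00pm_213_s3 t360_A00pm_213_s3

theorem t363_A00pm_213_s3 : ∃ t, chk3 f_A00pm_213_s3 t 1010 1014 1 = true := ex3_b k78_A00pm_213_s3 t362_A00pm_213_s3

theorem t364_A00pm_213_s3 : ∃ t, chk3 f_A00pm_213_s3 t 505 1014 1 = true := ex3_a t363_A00pm_213_s3 k84_A00pm_213_s3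

theorem t365_A00pm_213_s3 : ∃ t, chk3 f_A00pm_213_s3 t 505 507 1 = true := ex3_b t364_A00pm_213_s3 t358_A00pm_213_s3

theorem t366_A00pm_213_s3 : ∃ t, chk3 f_A00pm_213_s3 t 2019 4057 1 = true := ex3_a k74_A00pm_213_s3 k75_A00pm_213_s3

theorem t367_A00pm_213_s3 : ∃ t, chk3 f_A00pm_213_s3 t 2019 2028 1 = true := ex3_b k73_A00pm_213_s3 t366_A00pm_213_s3

theorem t368_A00pm_213_s3 : ∃ t, chk3 f_A00pm_213_s3 t 2018 4056 1 = true := ex3_a k70_A00pm_213_s3 k71_A00pm_213_s3

theorem t369_A00pm_213_s3 : ∃ t, chk3 f_A00pm_213_s3 t 2018 2028 1 = true := ex3_b t368_A00pm_213_s3 k72_A00pm_213_s3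

theorem t370_A00pm_213_s3 : ∃ t, chk3 f_A00pm_213_s3 t 1009 2028 1 = true := ex3_a t369_A00pm_213_s3 t367_A00pm_213_s3

theorem t371_A00pm_213_s3 : ∃ t, chk3 f_A00pm_213_s3 t 1009 1014 1 = true := ex3_b t370_A00pm_213_s3 k76_A00pm_213_s3

theorem t372_A00pm_213_s3 : ∃ t, chk3 f_A00pm_213_s3 t 504 1014 1 = true := ex3_a k69_A00pm_213_s3 t371_A00pm_213_s3

theorem t373_A00pm_213_s3 : ∃ t, chk3 f_A00pm_213_s3 t 504 507 1 = true := ex3_b t372_A00pm_213_s3 k77_A00pm_213_s3

theorem t374_A00pm_213_s3 : ∃ t, chk3 f_A00pm_213_s3 t 252 507 1 = true := ex3_a t373_A00pm_213_s3 t365_A00pm_213_s3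

theorem t375_A00pm_213_s3 : ∃ t, chk3 f_A00pm_213_s3 t 1008 4054 1 = true := ex3_b k64_A00pm_213_s3 k65_A00pm_213_s3

theorem t376_A00pm_213_s3 : ∃ t, chk3 f_A00pm_213_s3 t 1008 2027 1 = true := ex3_b t375_A00pm_213_s3 k66_A00pm_213_s3

theorem t377_A00pm_213_s3 : ∃ t, chk3 f_A00pm_213_s3 t 2016 4053 1 = true := ex3_a k61_A00pm_213_s3 k62_A00pm_213_s3

theorem t378_A00pm_213_s3 : ∃ t, chk3 f_A00pm_213_s3 t 2016 2026 1 = true := ex3_b k60_A00pm_213_s3 t377_A00pm_213_s3

theorem t379_A00pm_213_s3 : ∃ t, chk3 f_A00pm_213_s3 t 1008 2026 1 = true := ex3_a t378_A00pm_213_s3 k63_A00pm_213_s3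

theorem t380_A00pm_213_s3 : ∃ t, chk3 f_A00pm_213_s3 t 1008 1013 1 = true := ex3_b t379_A00pm_213_s3 t376_A00pm_213_s3

theorem t381_A00pm_213_s3 : ∃ t, chk3 f_A00pm_213_s3 t 504 1013 1 = true := ex3_a t380_A00pm_213_s3 k67_A00pm_213_s3

theorem t382_A00pm_213_s3 : ∃ t, chk3 f_A00pm_213_s3 t 504 506 1 = true := ex3_b k59_A00pm_213_s3 t381_A00pm_213_s3

theorem t383_A00pm_213_s3 : ∃ t, chk3 f_A00pm_213_s3 t 252 506 1 = true := ex3_a t382_A00pm_213_s3 k68_A00pm_213_s3

theorem t384_A00pm_213_s3 : ∃ t, chk3 f_A00pm_213_s3 t 252 253 1 = true := ex3_b t383_A00pm_213_s3 t374_A00pm_213_s3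

theorem t385_A00pm_213_s3 : ∃ t, chk3 f_A00pm_213_s3 t 126 253 1 = true := ex3_a t384_A00pm_213_s3 t337_A00pm_213_s3

theorem t386_A00pm_213_s3 : ∃ t, chk3 f_A00pm_213_s3 t 126 126 1 = true := ex3_b k58_A00pm_213_s3 t385_A00pm_213_s3

theorem t387_A00pm_213_s3 : ∃ t, chk3 f_A00pm_213_s3 t 63 126 1 = true := ex3_a t386_A00pm_213_s3 k118_A00pm_213_s3

theorem t388_A00pm_213_s3 : ∃ t, chk3 f_A00pm_213_s3 t 63 63 1 = true := ex3_b t387_A00pm_213_s3 t327_A00pm_213_s3

theorem t389_A00pm_213_s3 : ∃ t, chk3 f_A00pm_213_s3 t 2014 2025 1 = true := ex3_b k52_A00pm_213_s3 k53_A00pm_213_s3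

theorem t390_A00pm_213_s3 : ∃ t, chk3 f_A00pm_213_s3 t 1007 2025 1 = true := ex3_a t389_A00pm_213_s3 k54_A00pm_213_s3

theorem t391_A00pm_213_s3 : ∃ t, chk3 f_A00pm_213_s3 t 1007 1012 1 = true := ex3_b k51_A00pm_213_s3 t390_A00pm_213_s3

theorem t392_A00pm_213_s3 : ∃ t, chk3 f_A00pm_213_s3 t 1006 2024 1 = true := ex3_a k48_A00pm_213_s3 k49_A00pm_213_s3

theorem t393_A00pm_213_s3 : ∃ t, chk3 f_A00pm_213_s3 t 1006 1012 1 = true := ex3_b t392_A00pm_213_s3 k50_A00pm_213_s3

theorem t394_A00pm_213_s3 : ∃ t, chk3 f_A00pm_213_s3 t 503 1012 1 = true := ex3_a t393_A00pm_213_s3 t391_A00pm_213_s3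

theorem t395_A00pm_213_s3 : ∃ t, chk3 f_A00pm_213_s3 t 503 506 1 = true := ex3_b t394_A00pm_213_s3 k55_A00pm_213_s3

theorem t396_A00pm_213_s3 : ∃ t, chk3 f_A00pm_213_s3 t 251 506 1 = true := ex3_a k47_A00pm_213_s3 t395_A00pm_213_s3

theorem t397_A00pm_213_s3 : ∃ t, chk3 f_A00pm_213_s3 t 251 253 1 = true := ex3_b t396_A00pm_213_s3 k56_A00pm_213_s3

theorem t398_A00pm_213_s3 : ∃ t, chk3 f_A00pm_213_s3 t 125 253 1 = true := ex3_a k46_A00pm_213_s3 t397_A00pm_213_s3

theorem t399_A00pm_213_s3 : ∃ t, chk3 f_A00pm_213_s3 t 1005 1011 1 = true := ex3_b k43_A00pm_213_s3 k44_A00pm_213_s3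

theorem t400_A00pm_213_s3 : ∃ t, chk3 f_A00pm_213_s3 t 1005 505 1 = true := ex3_b k42_A00pm_213_s3 t399_A00pm_213_s3

theorem t401_A00pm_213_s3 : ∃ t, chk3 f_A00pm_213_s3 t 1004 2021 1 = true := ex3_a k39_A00pm_213_s3 k40_A00pm_213_s3

theorem t402_A00pm_213_s3 : ∃ t, chk3 f_A00pm_213_s3 t 1004 1010 1 = true := ex3_b k38_A00pm_213_s3 t401_A00pm_213_s3

theorem t403_A00pm_213_s3 : ∃ t, chk3 f_A00pm_213_s3 t 1004 505 1 = true := ex3_b t402_A00pm_213_s3 k41_A00pm_213_s3

theorem t404_A00pm_213_s3 : ∃ t, chk3 f_A00pm_213_s3 t 502 505 1 = true := ex3_a t403_A00pm_213_s3 t400_A00pm_213_s3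

theorem t405_A00pm_213_s3 : ∃ t, chk3 f_A00pm_213_s3 t 251 505 1 = true := ex3_a t404_A00pm_213_s3 k45_A00pm_213_s3

theorem t406_A00pm_213_s3 : ∃ t, chk3 f_A00pm_213_s3 t 251 252 1 = true := ex3_b k37_A00pm_213_s3 t405_A00pm_213_s3

theorem t407_A00pm_213_s3 : ∃ t, chk3 f_A00pm_213_s3 t 501 1009 1 = true := ex3_a k34_A00pm_213_s3 k35_A00pm_213_s3

theorem t408_A00pm_213_s3 : ∃ t, chk3 f_A00pm_213_s3 t 501 504 1 = true := ex3_b k33_A00pm_213_s3 t407_A00pm_213_s3

theorem t409_A00pm_213_s3 : ∃ t, chk3 f_A00pm_213_s3 t 500 1008 1 = true := ex3_a k30_A00pm_213_s3 k31_A00pm_213_s3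

theorem t410_A00pm_213_s3 : ∃ t, chk3 f_A00pm_213_s3 t 500 504 1 = true := ex3_b t409_A00pm_213_s3 k32_A00pm_213_s3

theorem t411_A00pm_213_s3 : ∃ t, chk3 f_A00pm_213_s3 t 250 504 1 = true := ex3_a t410_A00pm_213_s3 t408_A00pm_213_s3

theorem t412_A00pm_213_s3 : ∃ t, chk3 f_A00pm_213_s3 t 250 252 1 = true := ex3_b t411_A00pm_213_s3 k36_A00pm_213_s3

theorem t413_A00pm_213_s3 : ∃ t, chk3 f_A00pm_213_s3 t 125 252 1 = true := ex3_a t412_A00pm_213_s3 t406_A00pm_213_s3

theorem t414_A00pm_213_s3 : ∃ t, chk3 f_A00pm_213_s3 t 125 126 1 = true := ex3_b t413_A00pm_213_s3 t398_A00pm_213_s3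

theorem t415_A00pm_213_s3 : ∃ t, chk3 f_A00pm_213_s3 t 62 126 1 = true := ex3_a k29_A00pm_213_s3 t414_A00pm_213_s3

theorem t416_A00pm_213_s3 : ∃ t, chk3 f_A00pm_213_s3 t 62 63 1 = true := ex3_b t415_A00pm_213_s3 k57_A00pm_213_s3

theorem t417_A00pm_213_s3 : ∃ t, chk3 f_A00pm_213_s3 t 31 63 1 = true := ex3_a t416_A00pm_213_s3 t388_A00pm_213_s3

theorem t418_A00pm_213_s3 : ∃ t, chk3 f_A00pm_213_s3 t 499 503 1 = true := ex3_b k25_A00pm_213_s3 k26_A00pm_213_s3

theorem t419_A00pm_213_s3 : ∃ t, chk3 f_A00pm_213_s3 t 249 503 1 = true := ex3_a k24_A00pm_213_s3 t418_A00pm_213_s3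

theorem t420_A00pm_213_s3 : ∃ t, chk3 f_A00pm_213_s3 t 249 251 1 = true := ex3_b k23_A00pm_213_s3 t419_A00pm_213_s3

theorem t421_A00pm_213_s3 : ∃ t, chk3 f_A00pm_213_s3 t 124 251 1 = true := ex3_a k22_A00pm_213_s3 t420_A00pm_213_s3

theorem t422_A00pm_213_s3 : ∃ t, chk3 f_A00pm_213_s3 t 248 250 1 = true := ex3_b k19_A00pm_213_s3 k20_A00pm_213_s3

theorem t423_A00pm_213_s3 : ∃ t, chk3 f_A00pm_213_s3 t 124 250 1 = true := ex3_a t422_A00pm_213_s3 k21_A00pm_213_s3

theorem t424_A00pm_213_s3 : ∃ t, chk3 f_A00pm_213_s3 t 124 125 1 = true := ex3_b t423_A00pm_213_s3 t421_A00pm_213_s3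

theorem t425_A00pm_213_s3 : ∃ t, chk3 f_A00pm_213_s3 t 62 125 1 = true := ex3_a t424_A00pm_213_s3 k27_A00pm_213_s3

theorem t426_A00pm_213_s3 : ∃ t, chk3 f_A00pm_213_s3 t 62 62 1 = true := ex3_b k18_A00pm_213_s3 t425_A00pm_213_s3

theorem t427_A00pm_213_s3 : ∃ t, chk3 f_A00pm_213_s3 t 31 62 1 = true := ex3_a t426_A00pm_213_s3 k28_A00pm_213_s3

theorem t428_A00pm_213_s3 : ∃ t, chk3 f_A00pm_213_s3 t 31 31 1 = true := ex3_b t427_A00pm_213_s3 t417_A00pm_213_s3

theorem t429_A00pm_213_s3 : ∃ t, chk3 f_A00pm_213_s3 t 123 249 1 = true := ex3_a k14_A00pm_213_s3 k15_A00pm_213_s3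

theorem t430_A00pm_213_s3 : ∃ t, chk3 f_A00pm_213_s3 t 123 124 1 = true := ex3_b k13_A00pm_213_s3 t429_A00pm_213_s3

theorem t431_A00pm_213_s3 : ∃ t, chk3 f_A00pm_213_s3 t 61 124 1 = true := ex3_a k12_A00pm_213_s3 t430_A00pm_213_s3

theorem t432_A00pm_213_s3 : ∃ t, chk3 f_A00pm_213_s3 t 61 62 1 = true := ex3_b t431_A00pm_213_s3 k16_A00pm_213_s3

theorem t433_A00pm_213_s3 : ∃ t, chk3 f_A00pm_213_s3 t 30 62 1 = true := ex3_a k11_A00pm_213_s3 t432_A00pm_213_s3

theorem t434_A00pm_213_s3 : ∃ t, chk3 f_A00pm_213_s3 t 30 31 1 = true := ex3_b t433_A00pm_213_s3 k17_A00pm_213_s3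

theorem t435_A00pm_213_s3 : ∃ t, chk3 f_A00pm_213_s3 t 15 31 1 = true := ex3_a t434_A00pm_213_s3 t428_A00pm_213_s3

theorem t436_A00pm_213_s3 : ∃ t, chk3 f_A00pm_213_s3 t 60 61 1 = true := ex3_b k7_A00pm_213_s3 k8_A00pm_213_s3

theorem t437_A00pm_213_s3 : ∃ t, chk3 f_A00pm_213_s3 t 30 61 1 = true := ex3_a t436_A00pm_213_s3 k9_A00pm_213_s3

theorem t438_A00pm_213_s3 : ∃ t, chk3 f_A00pm_213_s3 t 30 30 1 = true := ex3_b k6_A00pm_213_s3 t437_A00pm_213_s3

theorem t439_A00pm_213_s3 : ∃ t, chk3 f_A00pm_213_s3 t 15 30 1 = true := ex3_a t438_A00pm_213_s3 k10_A00pm_213_s3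

theorem t440_A00pm_213_s3 : ∃ t, chk3 f_A00pm_213_s3 t 15 15 1 = true := ex3_b t439_A00pm_213_s3 t435_A00pm_213_s3

theorem t441_A00pm_213_s3 : ∃ t, chk3 f_A00pm_213_s3 t 7 15 1 = true := ex3_a k5_A00pm_213_s3 t440_A00pm_213_s3

theorem t442_A00pm_213_s3 : ∃ t, chk3 f_A00pm_213_s3 t 7 7 1 = true := ex3_b k4_A00pm_213_s3 t441_A00pm_213_s3

theorem t443_A00pm_213_s3 : ∃ t, chk3 f_A00pm_213_s3 t 3 7 1 = true := ex3_a k3_A00pm_213_s3 t442_A00pm_213_s3

theorem t444_A00pm_213_s3 : ∃ t, chk3 f_A00pm_213_s3 t 3 3 1 = true := ex3_b k2_A00pm_213_s3 t443_A00pm_213_s3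

theorem t445_A00pm_213_s3 : ∃ t, chk3 f_A00pm_213_s3 t 3 1 1 = true := ex3_b k1_A00pm_213_s3 t444_A00pm_213_s3

theorem t446_A00pm_213_s3 : ∃ t, chk3 f_A00pm_213_s3 t 1 1 1 = true := ex3_a k0_A00pm_213_s3 t445_A00pm_213_s3

theorem c_A00pm_213_s3 : CertF 0 536870912 536870912 536870912 33554432 16777216 true true false .pnn 2 1 3
    ndF0q2 ndF0q1 pcF3 cut_A00pm_213_s3 xt_A00pm_213_s3 :=
  certFK0 (fam := true) (s1 := true) (s2 := false) (a := 2) (b := 1) (c := 3) (cn := .pnn) (n1 := ndF0q2) (n2 := ndF0q1) (pc := pcF3) (cut := cut_A00pm_213_s3) (xt := xt_A00pm_213_s3) (P1 := 0) (W1 := 536870912) (P2 := 536870912) (W2 := 536870912) (P3 := 33554432) (W3 := 16777216)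
    rfl rfl rfl t446_A00pm_213_s3

theorem s_A00pm_213_s3 {κ x : ℝ} (hκ : κ * h0 = ken x) (hx : ((33554432 : ℕ) : ℝ) / S ≤ x)
    (hx' : x ≤ (((33554432 : ℕ) : ℝ) + (16777216 : ℕ)) / S)
    (H : CutA (VF κ) PP tKF tL pcF (Cut.of [[⟨0, 1, 0, 7061502⟩, ⟨1, 1, 0, 7061502⟩, ⟨2, 2, 0, 184626⟩]]) 2 1 3 0 0 (sgb true) (sgb false) x) :
    AltA (VF κ) PP tKF tL pcF [⟨4, 0, 0, 2845415833⟩] 2 1 3 0 0 (sgb true) (sgb false) x :=
  strip_altA (m := 2845415833) false rfl hκ covF02 covF01 hx hx' c_A00pm_213_s3 H ((okx hx hx').extA (T := tt) (sideF hx hx') hκ rfl rfl (.O 2 true) (.O 1 false) (Or.inr rfl))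

end Pool.Agent.Strip051.G.I1_32_3_64.Tab.St.C
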