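import Pool.Agent.Strip051.G.I1_32_3_64.StF

/-! # Unit strips 8 (generated) -/

set_option linter.all false
set_option maxRecDepth 100000

namespace Pool.Agent.Strip051.G.I1_32_3_64.Tab.St.C

open Pool.Agent.Strip051.PB Pool.Agent.Strip051.PB.T Pool.Agent.StripNear Pool.Agent.Strip051.LC
open Pool.Agent.Strip051.G.I1_32_3_64.Tab Pool.Agent.Strip051.G.I1_32_3_64.Tab.St

noncomputable def cut_A00mm_001_s1 : Cut := Cut.of [[⟨4, 0, 0, 1449551462⟩]]

noncomputable def f_A00mm_001_s1 : ℕ → ℕ → ℕ → ℕ → Bool := onCell 0 536870912 0 536870912 33554432 16777216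
    (rowFK 0 true false false .up 0 0 1 (qsf 0 536870912 0 536870912 1) ndF0q0 ndF0q0 pcF1 cut_A00mm_001_s1 Ext.none)

def k0_A00mm_001_s1 : ∃ t, chk3 f_A00mm_001_s1 t 1 1 1 = true :=
  ⟨(l 4), by decide +kernel⟩

theorem c_A00mm_001_s1 : CertF 0 536870912 0 536870912 33554432 16777216 true false false .up 0 0 1
    ndF0q0 ndF0q0 pcF1 cut_A00mm_001_s1 Ext.none :=
  certFK0 (fam := true) (s1 := false) (s2 := false) (a := 0) (b := 0) (c := 1) (cn := .up) (n1 := ndF0q0) (n2 := ndF0q0) (pc := pcF1) (cut := cut_A00mm_001_s1) (xt := Ext.none) (P1 := 0) (W1 := 536870912) (P2 := 0) (W2 := 536870912) (P3 := 33554432) (W3 := 16777216)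
    rfl rfl rfl k0_A00mm_001_s1

theorem s_A00mm_001_s1 {κ x : ℝ} (hκ : κ * h0 = ken x) (hx : ((33554432 : ℕ) : ℝ) / S ≤ x)
    (hx' : x ≤ (((33554432 : ℕ) : ℝ) + (16777216 : ℕ)) / S) :
    AltA (VF κ) PP tKF tL pcF [⟨3, 0, 0, 1449551462⟩] 0 0 1 0 0 (sgb false) (sgb false) x :=
  strip_altA (m := 1449551462) true rfl hκ covF00 covF00 hx hx' c_A00mm_001_s1 cutA_nil (noExt_A)

noncomputable def cut_A00mm_001_s3 : Cut := Cut.of [[⟨3, 0, 0, 2845415833⟩]]

noncomputable def f_A00mm_001_s3 : ℕ → ℕ → ℕ → ℕ → Bool := onCell 0 536870912 0 536870912 33554432 16777216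
    (rowFK 0 true false false .up 0 0 1 (qsf 0 536870912 0 536870912 1) ndF0q0 ndF0q0 pcF1 cut_A00mm_001_s3 Ext.none)

def k0_A00mm_001_s3 : ∃ t, chk3 f_A00mm_001_s3 t 1 1 1 = true :=
  ⟨(l 4), by decide +kernel⟩

theorem c_A00mm_001_s3 : CertF 0 536870912 0 536870912 33554432 16777216 true false false .up 0 0 1
    ndF0q0 ndF0q0 pcF1 cut_A00mm_001_s3 Ext.none :=
  certFK0 (fam := true) (s1 := false) (s2 := false) (a := 0) (b := 0) (c := 1) (cn := .up) (n1 := ndF0q0) (n2 := ndF0q0) (pc := pcF1) (cut := cut_A00mm_001_s3) (xt := Ext.none) (P1 := 0) (W1 := 536870912) (P2 := 0) (W2 := 536870912) (P3 := 33554432) (W3 := 16777216)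
    rfl rfl rfl k0_A00mm_001_s3

theorem s_A00mm_001_s3 {κ x : ℝ} (hκ : κ * h0 = ken x) (hx : ((33554432 : ℕ) : ℝ) / S ≤ x)
    (hx' : x ≤ (((33554432 : ℕ) : ℝ) + (16777216 : ℕ)) / S) :
    AltA (VF κ) PP tKF tL pcF [⟨4, 0, 0, 2845415833⟩] 0 0 1 0 0 (sgb false) (sgb false) x :=
  strip_altA (m := 2845415833) false rfl hκ covF00 covF00 hx hx' c_A00mm_001_s3 cutA_nil (noExt_A)

noncomputable def cut_A00mm_011_s1 : Cut := Cut.of [[⟨4, 0, 0, 1449551462⟩]]

noncomputable def f_A00mm_011_s1 : ℕ → ℕ → ℕ → ℕ → Bool := onCell 0 536870912 536870912 536870912 33554432 16777216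
    (rowFK 0 true false false .pnn 0 1 1 (qsf 0 536870912 536870912 536870912 1) ndF0q0 ndF0q1 pcF1 cut_A00mm_011_s1 Ext.none)

def k0_A00mm_011_s1 : ∃ t, chk3 f_A00mm_011_s1 t 1 1 1 = true :=
  ⟨(l 6), by decide +kernel⟩

theorem c_A00mm_011_s1 : CertF 0 536870912 536870912 536870912 33554432 16777216 true false false .pnn 0 1 1
    ndF0q0 ndF0q1 pcF1 cut_A00mm_011_s1 Ext.none :=
  certFK0 (fam := true) (s1 := false) (s2 := false) (a := 0) (b := 1) (c := 1) (cn := .pnn) (n1 := ndF0q0) (n2 := ndF0q1) (pc := pcF1) (cut := cut_A00mm_011_s1) (xt := Ext.none) (P1 := 0) (W1 := 536870912) (P2 := 536870912) (W2 := 536870912) (P3 := 33554432) (W3 := 16777216)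
    rfl rfl rfl k0_A00mm_011_s1

theorem s_A00mm_011_s1 {κ x : ℝ} (hκ : κ * h0 = ken x) (hx : ((33554432 : ℕ) : ℝ) / S ≤ x)
    (hx' : x ≤ (((33554432 : ℕ) : ℝ) + (16777216 : ℕ)) / S) :
    AltA (VF κ) PP tKF tL pcF [⟨3, 0, 0, 1449551462⟩] 0 1 1 0 0 (sgb false) (sgb false) x :=
  strip_altA (m := 1449551462) true rfl hκ covF00 covF01 hx hx' c_A00mm_011_s1 cutA_nil (noExt_A)

noncomputable def cut_A00mm_011_s3 : Cut := Cut.of [[⟨3, 0, 0, 2845415833⟩]]

noncomputable def f_A00mm_011_s3 : ℕ → ℕ → ℕ → ℕ → Bool := onCell 0 536870912 536870912 536870912 33554432 16777216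
    (rowFK 0 true false false .pnn 0 1 1 (qsf 0 536870912 536870912 536870912 1) ndF0q0 ndF0q1 pcF1 cut_A00mm_011_s3 Ext.none)

def k0_A00mm_011_s3 : ∃ t, chk3 f_A00mm_011_s3 t 1 1 1 = true :=
  ⟨(a (l 5) (l 4)), by decide +kernel⟩

theorem c_A00mm_011_s3 : CertF 0 536870912 536870912 536870912 33554432 16777216 true false false .pnn 0 1 1
    ndF0q0 ndF0q1 pcF1 cut_A00mm_011_s3 Ext.none :=
  certFK0 (fam := true) (s1 := false) (s2 := false) (a := 0) (b := 1) (c := 1) (cn := .pnn) (n1 := ndF0q0) (n2 := ndF0q1) (pc := pcF1) (cut := cut_A00mm_011_s3) (xt := Ext.none) (P1 := 0) (W1 := 536870912) (P2 := 536870912) (W2 := 536870912) (P3 := 33554432) (W3 := 16777216)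
    rfl rfl rfl k0_A00mm_011_s3

theorem s_A00mm_011_s3 {κ x : ℝ} (hκ : κ * h0 = ken x) (hx : ((33554432 : ℕ) : ℝ) / S ≤ x)
    (hx' : x ≤ (((33554432 : ℕ) : ℝ) + (16777216 : ℕ)) / S) :
    AltA (VF κ) PP tKF tL pcF [⟨4, 0, 0, 2845415833⟩] 0 1 1 0 0 (sgb false) (sgb false) x :=
  strip_altA (m := 2845415833) false rfl hκ covF00 covF01 hx hx' c_A00mm_011_s3 cutA_nil (noExt_A)

noncomputable def cut_A00mm_012_s1 : Cut := Cut.of [[⟨4, 0, 0, 1449551462⟩]]

noncomputable def f_A00mm_012_s1 : ℕ → ℕ → ℕ → ℕ → Bool := onCell 0 536870912 536870912 536870912 33554432 16777216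
    (rowFK 0 true false false .pnp 0 1 2 (qsf 0 536870912 536870912 536870912 2) ndF0q0 ndF0q1 pcF2 cut_A00mm_012_s1 Ext.none)

def k0_A00mm_012_s1 : ∃ t, chk3 f_A00mm_012_s1 t 1 1 1 = true :=
  ⟨(l 6), by decide +kernel⟩

theorem c_A00mm_012_s1 : CertF 0 536870912 536870912 536870912 33554432 16777216 true false false .pnp 0 1 2
    ndF0q0 ndF0q1 pcF2 cut_A00mm_012_s1 Ext.none :=
  certFK0 (fam := true) (s1 := false) (s2 := false) (a := 0) (b := 1) (c := 2) (cn := .pnp) (n1 := ndF0q0) (n2 := ndF0q1) (pc := pcF2) (cut := cut_A00mm_012_s1) (xt := Ext.none) (P1 := 0) (W1 := 536870912) (P2 := 536870912) (W2 := 536870912) (P3 := 33554432) (W3 := 16777216)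
    rfl rfl rfl k0_A00mm_012_s1

theorem s_A00mm_012_s1 {κ x : ℝ} (hκ : κ * h0 = ken x) (hx : ((33554432 : ℕ) : ℝ) / S ≤ x)
    (hx' : x ≤ (((33554432 : ℕ) : ℝ) + (16777216 : ℕ)) / S) :
    AltA (VF κ) PP tKF tL pcF [⟨3, 0, 0, 1449551462⟩] 0 1 2 0 0 (sgb false) (sgb false) x :=
  strip_altA (m := 1449551462) true rfl hκ covF00 covF01 hx hx' c_A00mm_012_s1 cutA_nil (noExt_A)

noncomputable def cut_A00mm_012_s3 : Cut := Cut.of [[⟨3, 0, 0, 2845415833⟩]]

noncomputable def f_A00mm_012_s3 : ℕ → ℕ → ℕ → ℕ → Bool := onCell 0 536870912 536870912 536870912 33554432 16777216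
    (rowFK 0 true false false .pnp 0 1 2 (qsf 0 536870912 536870912 536870912 2) ndF0q0 ndF0q1 pcF2 cut_A00mm_012_s3 Ext.none)

def k0_A00mm_012_s3 : ∃ t, chk3 f_A00mm_012_s3 t 1 1 1 = true :=
  ⟨(b (l 4) (l 5)), by decide +kernel⟩

theorem c_A00mm_012_s3 : CertF 0 536870912 536870912 536870912 33554432 16777216 true false false .pnp 0 1 2
    ndF0q0 ndF0q1 pcF2 cut_A00mm_012_s3 Ext.none :=
  certFK0 (fam := true) (s1 := false) (s2 := false) (a := 0) (b := 1) (c := 2) (cn := .pnp) (n1 := ndF0q0) (n2 := ndF0q1) (pc := pcF2) (cut := cut_A00mm_012_s3) (xt := Ext.none) (P1 := 0) (W1 := 536870912) (P2 := 536870912) (W2 := 536870912) (P3 := 33554432) (W3 := 16777216)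
    rfl rfl rfl k0_A00mm_012_s3

theorem s_A00mm_012_s3 {κ x : ℝ} (hκ : κ * h0 = ken x) (hx : ((33554432 : ℕ) : ℝ) / S ≤ x)
    (hx' : x ≤ (((33554432 : ℕ) : ℝ) + (16777216 : ℕ)) / S) :
    AltA (VF κ) PP tKF tL pcF [⟨4, 0, 0, 2845415833⟩] 0 1 2 0 0 (sgb false) (sgb false) x :=
  strip_altA (m := 2845415833) false rfl hκ covF00 covF01 hx hx' c_A00mm_012_s3 cutA_nil (noExt_A)

noncomputable def cut_A00mm_022_s1 : Cut := Cut.of [[⟨4, 0, 0, 1449551462⟩]]

noncomputable def f_A00mm_022_s1 : ℕ → ℕ → ℕ → ℕ → Bool := onCell 0 536870912 0 536870912 33554432 16777216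
    (rowFK 0 true false false .pp 0 2 2 (qsf 0 536870912 0 536870912 2) ndF0q0 ndF0q2 pcF2 cut_A00mm_022_s1 Ext.none)

def k0_A00mm_022_s1 : ∃ t, chk3 f_A00mm_022_s1 t 1 1 1 = true :=
  ⟨(l 5), by decide +kernel⟩

theorem c_A00mm_022_s1 : CertF 0 536870912 0 536870912 33554432 16777216 true false false .pp 0 2 2
    ndF0q0 ndF0q2 pcF2 cut_A00mm_022_s1 Ext.none :=
  certFK0 (fam := true) (s1 := false) (s2 := false) (a := 0) (b := 2) (c := 2) (cn := .pp) (n1 := ndF0q0) (n2 := ndF0q2) (pc := pcF2) (cut := cut_A00mm_022_s1) (xt := Ext.none) (P1 := 0) (W1 := 536870912) (P2 := 0) (W2 := 536870912) (P3 := 33554432) (W3 := 16777216)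
    rfl rfl rfl k0_A00mm_022_s1

theorem s_A00mm_022_s1 {κ x : ℝ} (hκ : κ * h0 = ken x) (hx : ((33554432 : ℕ) : ℝ) / S ≤ x)
    (hx' : x ≤ (((33554432 : ℕ) : ℝ) + (16777216 : ℕ)) / S) :
    AltA (VF κ) PP tKF tL pcF [⟨3, 0, 0, 1449551462⟩] 0 2 2 0 0 (sgb false) (sgb false) x :=
  strip_altA (m := 1449551462) true rfl hκ covF00 covF02 hx hx' c_A00mm_022_s1 cutA_nil (noExt_A)

noncomputable def cut_A00mm_022_s3 : Cut := Cut.of [[⟨3, 0, 0, 2845415833⟩]]

noncomputable def f_A00mm_022_s3 : ℕ → ℕ → ℕ → ℕ → Bool := onCell 0 536870912 0 536870912 33554432 16777216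
    (rowFK 0 true false false .pp 0 2 2 (qsf 0 536870912 0 536870912 2) ndF0q0 ndF0q2 pcF2 cut_A00mm_022_s3 Ext.none)

def k0_A00mm_022_s3 : ∃ t, chk3 f_A00mm_022_s3 t 1 1 1 = true :=
  ⟨(l 5), by decide +kernel⟩

theorem c_A00mm_022_s3 : CertF 0 536870912 0 536870912 33554432 16777216 true false false .pp 0 2 2
    ndF0q0 ndF0q2 pcF2 cut_A00mm_022_s3 Ext.none :=
  certFK0 (fam := true) (s1 := false) (s2 := false) (a := 0) (b := 2) (c := 2) (cn := .pp) (n1 := ndF0q0) (n2 := ndF0q2) (pc := pcF2) (cut := cut_A00mm_022_s3) (xt := Ext.none) (P1 := 0) (W1 := 536870912) (P2 := 0) (W2 := 536870912) (P3 := 33554432) (W3 := 16777216)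
    rfl rfl rfl k0_A00mm_022_s3

theorem s_A00mm_022_s3 {κ x : ℝ} (hκ : κ * h0 = ken x) (hx : ((33554432 : ℕ) : ℝ) / S ≤ x)
    (hx' : x ≤ (((33554432 : ℕ) : ℝ) + (16777216 : ℕ)) / S) :
    AltA (VF κ) PP tKF tL pcF [⟨4, 0, 0, 2845415833⟩] 0 2 2 0 0 (sgb false) (sgb false) x :=
  strip_altA (m := 2845415833) false rfl hκ covF00 covF02 hx hx' c_A00mm_022_s3 cutA_nil (noExt_A)

noncomputable def cut_A00mm_023_s1 : Cut := Cut.of [[⟨4, 0, 0, 1449551462⟩]]

noncomputable def f_A00mm_023_s1 : ℕ → ℕ → ℕ → ℕ → Bool := onCell 0 536870912 0 536870912 33554432 16777216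
    (rowFK 0 true false false .up 0 2 3 (qsf 0 536870912 0 536870912 3) ndF0q0 ndF0q2 pcF3 cut_A00mm_023_s1 Ext.none)

def k0_A00mm_023_s1 : ∃ t, chk3 f_A00mm_023_s1 t 1 1 1 = true :=
  ⟨(l 5), by decide +kernel⟩

theorem c_A00mm_023_s1 : CertF 0 536870912 0 536870912 33554432 16777216 true false false .up 0 2 3
    ndF0q0 ndF0q2 pcF3 cut_A00mm_023_s1 Ext.none :=
  certFK0 (fam := true) (s1 := false) (s2 := false) (a := 0) (b := 2) (c := 3) (cn := .up) (n1 := ndF0q0) (n2 := ndF0q2) (pc := pcF3) (cut := cut_A00mm_023_s1) (xt := Ext.none) (P1 := 0) (W1 := 536870912) (P2 := 0) (W2 := 536870912) (P3 := 33554432) (W3 := 16777216)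
    rfl rfl rfl k0_A00mm_023_s1

theorem s_A00mm_023_s1 {κ x : ℝ} (hκ : κ * h0 = ken x) (hx : ((33554432 : ℕ) : ℝ) / S ≤ x)
    (hx' : x ≤ (((33554432 : ℕ) : ℝ) + (16777216 : ℕ)) / S) :
    AltA (VF κ) PP tKF tL pcF [⟨3, 0, 0, 1449551462⟩] 0 2 3 0 0 (sgb false) (sgb false) x :=
  strip_altA (m := 1449551462) true rfl hκ covF00 covF02 hx hx' c_A00mm_023_s1 cutA_nil (noExt_A)

noncomputable def cut_A00mm_023_s3 : Cut := Cut.of [[⟨3, 0, 0, 2845415833⟩]]

noncomputable def f_A00mm_023_s3 : ℕ → ℕ → ℕ → ℕ → Bool := onCell 0 536870912 0 536870912 33554432 16777216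
    (rowFK 0 true false false .up 0 2 3 (qsf 0 536870912 0 536870912 3) ndF0q0 ndF0q2 pcF3 cut_A00mm_023_s3 Ext.none)

def k0_A00mm_023_s3 : ∃ t, chk3 f_A00mm_023_s3 t 1 1 1 = true :=
  ⟨(l 5), by decide +kernel⟩

theorem c_A00mm_023_s3 : CertF 0 536870912 0 536870912 33554432 16777216 true false false .up 0 2 3
    ndF0q0 ndF0q2 pcF3 cut_A00mm_023_s3 Ext.none :=
  certFK0 (fam := true) (s1 := false) (s2 := false) (a := 0) (b := 2) (c := 3) (cn := .up) (n1 := ndF0q0) (n2 := ndF0q2) (pc := pcF3) (cut := cut_A00mm_023_s3) (xt := Ext.none) (P1 := 0) (W1 := 536870912) (P2 := 0) (W2 := 536870912) (P3 := 33554432) (W3 := 16777216)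
    rfl rfl rfl k0_A00mm_023_s3

theorem s_A00mm_023_s3 {κ x : ℝ} (hκ : κ * h0 = ken x) (hx : ((33554432 : ℕ) : ℝ) / S ≤ x)
    (hx' : x ≤ (((33554432 : ℕ) : ℝ) + (16777216 : ℕ)) / S) :
    AltA (VF κ) PP tKF tL pcF [⟨4, 0, 0, 2845415833⟩] 0 2 3 0 0 (sgb false) (sgb false) x :=
  strip_altA (m := 2845415833) false rfl hκ covF00 covF02 hx hx' c_A00mm_023_s3 cutA_nil (noExt_A)

noncomputable def cut_A00mm_101_s1 : Cut := Cut.of [[⟨4, 0, 0, 1449551462⟩], [⟨0, 1, 0, 33554432⟩, ⟨1, 0, 0, 33554432⟩, ⟨2, 1, 0, 33554432⟩]]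

noncomputable def f_A00mm_101_s1 : ℕ → ℕ → ℕ → ℕ → Bool := onCell 536870912 536870912 0 536870912 33554432 16777216
    (rowFK 0 true false false .npn 1 0 1 (qsf 536870912 536870912 0 536870912 1) ndF0q1 ndF0q0 pcF1 cut_A00mm_101_s1 Ext.none)

def k0_A00mm_101_s1 : ∃ t, chk3 f_A00mm_101_s1 t 1 1 1 = true :=
  ⟨(l 6), by decide +kernel⟩

theorem c_A00mm_101_s1 : CertF 536870912 536870912 0 536870912 33554432 16777216 true false false .npn 1 0 1
    ndF0q1 ndF0q0 pcF1 cut_A00mm_101_s1 Ext.none :=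
  certFK0 (fam := true) (s1 := false) (s2 := false) (a := 1) (b := 0) (c := 1) (cn := .npn) (n1 := ndF0q1) (n2 := ndF0q0) (pc := pcF1) (cut := cut_A00mm_101_s1) (xt := Ext.none) (P1 := 536870912) (W1 := 536870912) (P2 := 0) (W2 := 536870912) (P3 := 33554432) (W3 := 16777216)
    rfl rfl rfl k0_A00mm_101_s1

theorem s_A00mm_101_s1 {κ x : ℝ} (hκ : κ * h0 = ken x) (hx : ((33554432 : ℕ) : ℝ) / S ≤ x)
    (hx' : x ≤ (((33554432 : ℕ) : ℝ) + (16777216 : ℕ)) / S)
    (H : CutA (VF κ) PP tKF tL pcF (Cut.of [[⟨0, 1, 0, 33554432⟩, ⟨1, 0, 0, 33554432⟩, ⟨2, 1, 0, 33554432⟩]]) 1 0 1 0 0 (sgb false) (sgb false) x) :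
    AltA (VF κ) PP tKF tL pcF [⟨3, 0, 0, 1449551462⟩] 1 0 1 0 0 (sgb false) (sgb false) x :=
  strip_altA (m := 1449551462) true rfl hκ covF01 covF00 hx hx' c_A00mm_101_s1 H (noExt_A)

noncomputable def cut_A00mm_101_s3 : Cut := Cut.of [[⟨3, 0, 0, 2845415833⟩], [⟨0, 1, 0, 33554432⟩, ⟨1, 0, 0, 33554432⟩, ⟨2, 1, 0, 33554432⟩]]

noncomputable def f_A00mm_101_s3 : ℕ → ℕ → ℕ → ℕ → Bool := onCell 536870912 536870912 0 536870912 33554432 16777216
    (rowFK 0 true false false .npn 1 0 1 (qsf 536870912 536870912 0 536870912 1) ndF0q1 ndF0q0 pcF1 cut_A00mm_101_s3 Ext.none)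

def k0_A00mm_101_s3 : ∃ t, chk3 f_A00mm_101_s3 t 1 1 1 = true :=
  ⟨(a (l 4) (b (a (l 4) (b (a (l 4) (b (a (l 4) (a (l 4) (b (b (l 14) (l 4)) (l 2)))) (l 4))) (l 4))) (l 4))), by decide +kernel⟩

theorem c_A00mm_101_s3 : CertF 536870912 536870912 0 536870912 33554432 16777216 true false false .npn 1 0 1
    ndF0q1 ndF0q0 pcF1 cut_A00mm_101_s3 Ext.none :=
  certFK0 (fam := true) (s1 := false) (s2 := false) (a := 1) (b := 0) (c := 1) (cn := .npn) (n1 := ndF0q1) (n2 := ndF0q0) (pc := pcF1) (cut := cut_A00mm_101_s3) (xt := Ext.none) (P1 := 536870912) (W1 := 536870912) (P2 := 0) (W2 := 536870912) (P3 := 33554432) (W3 := 16777216)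
    rfl rfl rfl k0_A00mm_101_s3

theorem s_A00mm_101_s3 {κ x : ℝ} (hκ : κ * h0 = ken x) (hx : ((33554432 : ℕ) : ℝ) / S ≤ x)
    (hx' : x ≤ (((33554432 : ℕ) : ℝ) + (16777216 : ℕ)) / S)
    (H : CutA (VF κ) PP tKF tL pcF (Cut.of [[⟨0, 1, 0, 33554432⟩, ⟨1, 0, 0, 33554432⟩, ⟨2, 1, 0, 33554432⟩]]) 1 0 1 0 0 (sgb false) (sgb false) x) :
    AltA (VF κ) PP tKF tL pcF [⟨4, 0, 0, 2845415833⟩] 1 0 1 0 0 (sgb false) (sgb false) x :=
  strip_altA (m := 2845415833) false rfl hκ covF01 covF00 hx hx' c_A00mm_101_s3 H (noExt_A)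

noncomputable def cut_A00mm_102_s1 : Cut := Cut.of [[⟨4, 0, 0, 1449551462⟩], [⟨0, 1, 0, 33554432⟩, ⟨1, 0, 0, 33554432⟩, ⟨2, 1, 0, 33554432⟩]]

noncomputable def f_A00mm_102_s1 : ℕ → ℕ → ℕ → ℕ → Bool := onCell 536870912 536870912 0 536870912 33554432 16777216
    (rowFK 0 true false false .npp 1 0 2 (qsf 536870912 536870912 0 536870912 2) ndF0q1 ndF0q0 pcF2 cut_A00mm_102_s1 Ext.none)

def k0_A00mm_102_s1 : ∃ t, chk3 f_A00mm_102_s1 t 1 1 1 = true :=
  ⟨(l 6), by decide +kernel⟩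

theorem c_A00mm_102_s1 : CertF 536870912 536870912 0 536870912 33554432 16777216 true false false .npp 1 0 2
    ndF0q1 ndF0q0 pcF2 cut_A00mm_102_s1 Ext.none :=
  certFK0 (fam := true) (s1 := false) (s2 := false) (a := 1) (b := 0) (c := 2) (cn := .npp) (n1 := ndF0q1) (n2 := ndF0q0) (pc := pcF2) (cut := cut_A00mm_102_s1) (xt := Ext.none) (P1 := 536870912) (W1 := 536870912) (P2 := 0) (W2 := 536870912) (P3 := 33554432) (W3 := 16777216)
    rfl rfl rfl k0_A00mm_102_s1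

theorem s_A00mm_102_s1 {κ x : ℝ} (hκ : κ * h0 = ken x) (hx : ((33554432 : ℕ) : ℝ) / S ≤ x)
    (hx' : x ≤ (((33554432 : ℕ) : ℝ) + (16777216 : ℕ)) / S)
    (H : CutA (VF κ) PP tKF tL pcF (Cut.of [[⟨0, 1, 0, 33554432⟩, ⟨1, 0, 0, 33554432⟩, ⟨2, 1, 0, 33554432⟩]]) 1 0 2 0 0 (sgb false) (sgb false) x) :
    AltA (VF κ) PP tKF tL pcF [⟨3, 0, 0, 1449551462⟩] 1 0 2 0 0 (sgb false) (sgb false) x :=
  strip_altA (m := 1449551462) true rfl hκ covF01 covF00 hx hx' c_A00mm_102_s1 H (noExt_A)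

noncomputable def cut_A00mm_102_s3 : Cut := Cut.of [[⟨3, 0, 0, 2845415833⟩], [⟨0, 1, 0, 33554432⟩, ⟨1, 0, 0, 33554432⟩, ⟨2, 1, 0, 33554432⟩]]

noncomputable def f_A00mm_102_s3 : ℕ → ℕ → ℕ → ℕ → Bool := onCell 536870912 536870912 0 536870912 33554432 16777216
    (rowFK 0 true false false .npp 1 0 2 (qsf 536870912 536870912 0 536870912 2) ndF0q1 ndF0q0 pcF2 cut_A00mm_102_s3 Ext.none)

def k0_A00mm_102_s3 : ∃ t, chk3 f_A00mm_102_s3 t 1 1 1 = true :=
  ⟨(a (l 4) (b (a (l 4) (b (a (l 4) (b (a (l 4) (b (a (l 4) (b (l 14) (l 4))) (l 4))) (l 4))) (l 4))) (l 4))), by decide +kernel⟩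

theorem c_A00mm_102_s3 : CertF 536870912 536870912 0 536870912 33554432 16777216 true false false .npp 1 0 2
    ndF0q1 ndF0q0 pcF2 cut_A00mm_102_s3 Ext.none :=
  certFK0 (fam := true) (s1 := false) (s2 := false) (a := 1) (b := 0) (c := 2) (cn := .npp) (n1 := ndF0q1) (n2 := ndF0q0) (pc := pcF2) (cut := cut_A00mm_102_s3) (xt := Ext.none) (P1 := 536870912) (W1 := 536870912) (P2 := 0) (W2 := 536870912) (P3 := 33554432) (W3 := 16777216)
    rfl rfl rfl k0_A00mm_102_s3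

theorem s_A00mm_102_s3 {κ x : ℝ} (hκ : κ * h0 = ken x) (hx : ((33554432 : ℕ) : ℝ) / S ≤ x)
    (hx' : x ≤ (((33554432 : ℕ) : ℝ) + (16777216 : ℕ)) / S)
    (H : CutA (VF κ) PP tKF tL pcF (Cut.of [[⟨0, 1, 0, 33554432⟩, ⟨1, 0, 0, 33554432⟩, ⟨2, 1, 0, 33554432⟩]]) 1 0 2 0 0 (sgb false) (sgb false) x) :
    AltA (VF κ) PP tKF tL pcF [⟨4, 0, 0, 2845415833⟩] 1 0 2 0 0 (sgb false) (sgb false) x :=
  strip_altA (m := 2845415833) false rfl hκ covF01 covF00 hx hx' c_A00mm_102_s3 H (noExt_A)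

noncomputable def cut_A00mm_112_s1 : Cut := Cut.of [[⟨4, 0, 0, 1449551462⟩]]

noncomputable def f_A00mm_112_s1 : ℕ → ℕ → ℕ → ℕ → Bool := onCell 536870912 536870912 536870912 536870912 33554432 16777216
    (rowFK 0 true false false .dn 1 1 2 (qsf 536870912 536870912 536870912 536870912 2) ndF0q1 ndF0q1 pcF2 cut_A00mm_112_s1 Ext.none)

def k0_A00mm_112_s1 : ∃ t, chk3 f_A00mm_112_s1 t 1 1 1 = true :=
  ⟨(l 4), by decide +kernel⟩

theorem c_A00mm_112_s1 : CertF 536870912 536870912 536870912 536870912 33554432 16777216 true false false .dn 1 1 2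
    ndF0q1 ndF0q1 pcF2 cut_A00mm_112_s1 Ext.none :=
  certFK0 (fam := true) (s1 := false) (s2 := false) (a := 1) (b := 1) (c := 2) (cn := .dn) (n1 := ndF0q1) (n2 := ndF0q1) (pc := pcF2) (cut := cut_A00mm_112_s1) (xt := Ext.none) (P1 := 536870912) (W1 := 536870912) (P2 := 536870912) (W2 := 536870912) (P3 := 33554432) (W3 := 16777216)
    rfl rfl rfl k0_A00mm_112_s1

theorem s_A00mm_112_s1 {κ x : ℝ} (hκ : κ * h0 = ken x) (hx : ((33554432 : ℕ) : ℝ) / S ≤ x)
    (hx' : x ≤ (((33554432 : ℕ) : ℝ) + (16777216 : ℕ)) / S) :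
    AltA (VF κ) PP tKF tL pcF [⟨3, 0, 0, 1449551462⟩] 1 1 2 0 0 (sgb false) (sgb false) x :=
  strip_altA (m := 1449551462) true rfl hκ covF01 covF01 hx hx' c_A00mm_112_s1 cutA_nil (noExt_A)

noncomputable def cut_A00mm_112_s3 : Cut := Cut.of [[⟨3, 0, 0, 2845415833⟩]]

noncomputable def f_A00mm_112_s3 : ℕ → ℕ → ℕ → ℕ → Bool := onCell 536870912 536870912 536870912 536870912 33554432 16777216
    (rowFK 0 true false false .dn 1 1 2 (qsf 536870912 536870912 536870912 536870912 2) ndF0q1 ndF0q1 pcF2 cut_A00mm_112_s3 Ext.none)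

def k0_A00mm_112_s3 : ∃ t, chk3 f_A00mm_112_s3 t 1 1 1 = true :=
  ⟨(l 4), by decide +kernel⟩

theorem c_A00mm_112_s3 : CertF 536870912 536870912 536870912 536870912 33554432 16777216 true false false .dn 1 1 2
    ndF0q1 ndF0q1 pcF2 cut_A00mm_112_s3 Ext.none :=
  certFK0 (fam := true) (s1 := false) (s2 := false) (a := 1) (b := 1) (c := 2) (cn := .dn) (n1 := ndF0q1) (n2 := ndF0q1) (pc := pcF2) (cut := cut_A00mm_112_s3) (xt := Ext.none) (P1 := 536870912) (W1 := 536870912) (P2 := 536870912) (W2 := 536870912) (P3 := 33554432) (W3 := 16777216)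
    rfl rfl rfl k0_A00mm_112_s3

theorem s_A00mm_112_s3 {κ x : ℝ} (hκ : κ * h0 = ken x) (hx : ((33554432 : ℕ) : ℝ) / S ≤ x)
    (hx' : x ≤ (((33554432 : ℕ) : ℝ) + (16777216 : ℕ)) / S) :
    AltA (VF κ) PP tKF tL pcF [⟨4, 0, 0, 2845415833⟩] 1 1 2 0 0 (sgb false) (sgb false) x :=
  strip_altA (m := 2845415833) false rfl hκ covF01 covF01 hx hx' c_A00mm_112_s3 cutA_nil (noExt_A)

noncomputable def cut_A00mm_113_s1 : Cut := Cut.of [[⟨4, 0, 0, 1449551462⟩]]

noncomputable def f_A00mm_113_s1 : ℕ → ℕ → ℕ → ℕ → Bool := onCell 536870912 536870912 536870912 536870912 33554432 16777216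
    (rowFK 0 true false false .nn 1 1 3 (qsf 536870912 536870912 536870912 536870912 3) ndF0q1 ndF0q1 pcF3 cut_A00mm_113_s1 Ext.none)

def k0_A00mm_113_s1 : ∃ t, chk3 f_A00mm_113_s1 t 1 1 1 = true :=
  ⟨(l 4), by decide +kernel⟩

theorem c_A00mm_113_s1 : CertF 536870912 536870912 536870912 536870912 33554432 16777216 true false false .nn 1 1 3
    ndF0q1 ndF0q1 pcF3 cut_A00mm_113_s1 Ext.none :=
  certFK0 (fam := true) (s1 := false) (s2 := false) (a := 1) (b := 1) (c := 3) (cn := .nn) (n1 := ndF0q1) (n2 := ndF0q1) (pc := pcF3) (cut := cut_A00mm_113_s1) (xt := Ext.none) (P1 := 536870912) (W1 := 536870912) (P2 := 536870912) (W2 := 536870912) (P3 := 33554432) (W3 := 16777216)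
    rfl rfl rfl k0_A00mm_113_s1

theorem s_A00mm_113_s1 {κ x : ℝ} (hκ : κ * h0 = ken x) (hx : ((33554432 : ℕ) : ℝ) / S ≤ x)
    (hx' : x ≤ (((33554432 : ℕ) : ℝ) + (16777216 : ℕ)) / S) :
    AltA (VF κ) PP tKF tL pcF [⟨3, 0, 0, 1449551462⟩] 1 1 3 0 0 (sgb false) (sgb false) x :=
  strip_altA (m := 1449551462) true rfl hκ covF01 covF01 hx hx' c_A00mm_113_s1 cutA_nil (noExt_A)

noncomputable def cut_A00mm_113_s3 : Cut := Cut.of [[⟨3, 0, 0, 2845415833⟩]]

noncomputable def f_A00mm_113_s3 : ℕ → ℕ → ℕ → ℕ → Bool := onCell 536870912 536870912 536870912 536870912 33554432 16777216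
    (rowFK 0 true false false .nn 1 1 3 (qsf 536870912 536870912 536870912 536870912 3) ndF0q1 ndF0q1 pcF3 cut_A00mm_113_s3 Ext.none)

def k0_A00mm_113_s3 : ∃ t, chk3 f_A00mm_113_s3 t 1 1 1 = true :=
  ⟨(l 4), by decide +kernel⟩

theorem c_A00mm_113_s3 : CertF 536870912 536870912 536870912 536870912 33554432 16777216 true false false .nn 1 1 3
    ndF0q1 ndF0q1 pcF3 cut_A00mm_113_s3 Ext.none :=
  certFK0 (fam := true) (s1 := false) (s2 := false) (a := 1) (b := 1) (c := 3) (cn := .nn) (n1 := ndF0q1) (n2 := ndF0q1) (pc := pcF3) (cut := cut_A00mm_113_s3) (xt := Ext.none) (P1 := 536870912) (W1 := 536870912) (P2 := 536870912) (W2 := 536870912) (P3 := 33554432) (W3 := 16777216)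
    rfl rfl rfl k0_A00mm_113_s3

theorem s_A00mm_113_s3 {κ x : ℝ} (hκ : κ * h0 = ken x) (hx : ((33554432 : ℕ) : ℝ) / S ≤ x)
    (hx' : x ≤ (((33554432 : ℕ) : ℝ) + (16777216 : ℕ)) / S) :
    AltA (VF κ) PP tKF tL pcF [⟨4, 0, 0, 2845415833⟩] 1 1 3 0 0 (sgb false) (sgb false) x :=
  strip_altA (m := 2845415833) false rfl hκ covF01 covF01 hx hx' c_A00mm_113_s3 cutA_nil (noExt_A)

noncomputable def cut_A00mm_123_s1 : Cut := Cut.of [[⟨4, 0, 0, 1449551462⟩]]

noncomputable def f_A00mm_123_s1 : ℕ → ℕ → ℕ → ℕ → Bool := onCell 536870912 536870912 0 536870912 33554432 16777216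
    (rowFK 0 true false false .npn 1 2 3 (qsf 536870912 536870912 0 536870912 3) ndF0q1 ndF0q2 pcF3 cut_A00mm_123_s1 Ext.none)

def k0_A00mm_123_s1 : ∃ t, chk3 f_A00mm_123_s1 t 1 1 1 = true :=
  ⟨(l 6), by decide +kernel⟩

theorem c_A00mm_123_s1 : CertF 536870912 536870912 0 536870912 33554432 16777216 true false false .npn 1 2 3
    ndF0q1 ndF0q2 pcF3 cut_A00mm_123_s1 Ext.none :=
  certFK0 (fam := true) (s1 := false) (s2 := false) (a := 1) (b := 2) (c := 3) (cn := .npn) (n1 := ndF0q1) (n2 := ndF0q2) (pc := pcF3) (cut := cut_A00mm_123_s1) (xt := Ext.none) (P1 := 536870912) (W1 := 536870912) (P2 := 0) (W2 := 536870912) (P3 := 33554432) (W3 := 16777216)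
    rfl rfl rfl k0_A00mm_123_s1

theorem s_A00mm_123_s1 {κ x : ℝ} (hκ : κ * h0 = ken x) (hx : ((33554432 : ℕ) : ℝ) / S ≤ x)
    (hx' : x ≤ (((33554432 : ℕ) : ℝ) + (16777216 : ℕ)) / S) :
    AltA (VF κ) PP tKF tL pcF [⟨3, 0, 0, 1449551462⟩] 1 2 3 0 0 (sgb false) (sgb false) x :=
  strip_altA (m := 1449551462) true rfl hκ covF01 covF02 hx hx' c_A00mm_123_s1 cutA_nil (noExt_A)

noncomputable def cut_A00mm_123_s3 : Cut := Cut.of [[⟨3, 0, 0, 2845415833⟩]]

noncomputable def f_A00mm_123_s3 : ℕ → ℕ → ℕ → ℕ → Bool := onCell 536870912 536870912 0 536870912 33554432 16777216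
    (rowFK 0 true false false .npn 1 2 3 (qsf 536870912 536870912 0 536870912 3) ndF0q1 ndF0q2 pcF3 cut_A00mm_123_s3 Ext.none)

def k0_A00mm_123_s3 : ∃ t, chk3 f_A00mm_123_s3 t 1 1 1 = true :=
  ⟨(a (l 5) (l 4)), by decide +kernel⟩

theorem c_A00mm_123_s3 : CertF 536870912 536870912 0 536870912 33554432 16777216 true false false .npn 1 2 3
    ndF0q1 ndF0q2 pcF3 cut_A00mm_123_s3 Ext.none :=
  certFK0 (fam := true) (s1 := false) (s2 := false) (a := 1) (b := 2) (c := 3) (cn := .npn) (n1 := ndF0q1) (n2 := ndF0q2) (pc := pcF3) (cut := cut_A00mm_123_s3) (xt := Ext.none) (P1 := 536870912) (W1 := 536870912) (P2 := 0) (W2 := 536870912) (P3 := 33554432) (W3 := 16777216)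
    rfl rfl rfl k0_A00mm_123_s3

theorem s_A00mm_123_s3 {κ x : ℝ} (hκ : κ * h0 = ken x) (hx : ((33554432 : ℕ) : ℝ) / S ≤ x)
    (hx' : x ≤ (((33554432 : ℕ) : ℝ) + (16777216 : ℕ)) / S) :
    AltA (VF κ) PP tKF tL pcF [⟨4, 0, 0, 2845415833⟩] 1 2 3 0 0 (sgb false) (sgb false) x :=
  strip_altA (m := 2845415833) false rfl hκ covF01 covF02 hx hx' c_A00mm_123_s3 cutA_nil (noExt_A)

noncomputable def cut_A00mm_202_s1 : Cut := Cut.of [[⟨4, 0, 0, 1449551462⟩], [⟨0, 1, 0, 16777216⟩, ⟨1, 0, 0, 16777216⟩, ⟨2, 1, 0, 16777216⟩]]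

noncomputable def f_A00mm_202_s1 : ℕ → ℕ → ℕ → ℕ → Bool := onCell 0 536870912 0 536870912 33554432 16777216
    (rowFK 0 true false false .pp 2 0 2 (qsf 0 536870912 0 536870912 2) ndF0q2 ndF0q0 pcF2 cut_A00mm_202_s1 Ext.none)

def k0_A00mm_202_s1 : ∃ t, chk3 f_A00mm_202_s1 t 1 1 1 = true :=
  ⟨(l 6), by decide +kernel⟩

theorem c_A00mm_202_s1 : CertF 0 536870912 0 536870912 33554432 16777216 true false false .pp 2 0 2
    ndF0q2 ndF0q0 pcF2 cut_A00mm_202_s1 Ext.none :=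
  certFK0 (fam := true) (s1 := false) (s2 := false) (a := 2) (b := 0) (c := 2) (cn := .pp) (n1 := ndF0q2) (n2 := ndF0q0) (pc := pcF2) (cut := cut_A00mm_202_s1) (xt := Ext.none) (P1 := 0) (W1 := 536870912) (P2 := 0) (W2 := 536870912) (P3 := 33554432) (W3 := 16777216)
    rfl rfl rfl k0_A00mm_202_s1

theorem s_A00mm_202_s1 {κ x : ℝ} (hκ : κ * h0 = ken x) (hx : ((33554432 : ℕ) : ℝ) / S ≤ x)
    (hx' : x ≤ (((33554432 : ℕ) : ℝ) + (16777216 : ℕ)) / S)
    (H : CutA (VF κ) PP tKF tL pcF (Cut.of [[⟨0, 1, 0, 16777216⟩, ⟨1, 0, 0, 16777216⟩, ⟨2, 1, 0, 16777216⟩]]) 2 0 2 0 0 (sgb false) (sgb false) x) :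
    AltA (VF κ) PP tKF tL pcF [⟨3, 0, 0, 1449551462⟩] 2 0 2 0 0 (sgb false) (sgb false) x :=
  strip_altA (m := 1449551462) true rfl hκ covF02 covF00 hx hx' c_A00mm_202_s1 H (noExt_A)

noncomputable def cut_A00mm_202_s3 : Cut := Cut.of [[⟨3, 0, 0, 2845415833⟩], [⟨0, 1, 0, 16777216⟩, ⟨1, 0, 0, 16777216⟩, ⟨2, 1, 0, 16777216⟩]]

noncomputable def xt_A00mm_202_s3 : Ext := strExt dd true false false .u2 .u0m .s2m .pp 2 0 2 rfl rfl gl2 vv ndF0q2 ndF0q0

noncomputable def f_A00mm_202_s3 : ℕ → ℕ → ℕ → ℕ → Bool := onCell 0 536870912 0 536870912 33554432 16777216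
    (rowFK 0 true false false .pp 2 0 2 (qsf 0 536870912 0 536870912 2) ndF0q2 ndF0q0 pcF2 cut_A00mm_202_s3 xt_A00mm_202_s3)

def k0_A00mm_202_s3 : ∃ t, chk3 f_A00mm_202_s3 t 2 2 1 = true :=
  ⟨(b (b (l 6) (a (l 6) (a (l 6) (l 18204632)))) (a (b (l 6) (l 17580488)) (b (a (l 17807048) (l 17856656)) (a (l 17384952) (b (l 17372016) (l 17267232)))))), by decide +kernel⟩

def k1_A00mm_202_s3 : ∃ t, chk3 f_A00mm_202_s3 t 6 4 1 = true :=
  ⟨(b (a (b (l 18967096) (l 18507392)) (b (a (b (l 18850256) (l 18601656)) (b (a (l 18675080) (l 18527896)) (l 18374136))) (a (l 18247400) (l 17937040)))) (a (b (l 18125624) (l 17813976)) (a (b (l 17850552) (l 17531608)) (b (l 17367200) (l 566070799))))), by decide +kernel⟩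

def k2_A00mm_202_s3 : ∃ t, chk3 f_A00mm_202_s3 t 14 16 1 = true :=
  ⟨(a (a (b (b (l 18375048) (l 18310528)) (l 18160024)) (b (b (b (l 17692272) (l 18125240)) (l 18104736)) (l 17986632))) (b (a (b (c (a (l 18131008) (b (l 17924720) (l 17966832))) (a (b (l 17237424) (l 17668480)) (b (a (l 17062312) (a (l 17049352) (l 16813112))) (l 17138624)))) (a (l 17918384) (a (l 17812168) (l 17400224)))) (b (b (b (a (c (l 17319528) (a (l 16894824) (l 16766768))) (a (c (l 17093520) (l 16742848)) (a (c (l 16965344) (l 16744480)) (l 16737792)))) (c (a (l 17715096) (a (l 17432560) (l 17030424))) (a (c (l 17006016) (l 16743056)) (a (l 16782648) (l 16746264))))) (a (c (l 17773144) (a (l 16972184) (b (l 16971272) (l 17141744)))) (b (c (l 17096336) (a (l 16828936) (l 16756928))) (c (l 17484464) (a (l 16932296) (l 16796136)))))) (c (a (l 17810520) (b (l 17449960) (l 17643592))) (a (b (b (l 17262528) (l 17394024)) (l 17443856)) (b (b (l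 16744744) (a (l 17245144) (l 17053640))) (a (l 17313656) (l 17052984))))))) (a (b (l 17565280) (l 17740944)) (a (b (l 17375864) (l 17574544)) (b (b (l 17231440) (l 17483896)) (l 17453120)))))), by decide +kernel⟩

def k3_A00mm_202_s3 : ∃ t, chk3 f_A00mm_202_s3 t 60 32 1 = true :=
  ⟨(a (a (b (b (b (b (l 16747064) (l 16747688)) (l 16747368)) (b (c (l 16967280) (l 16749512)) (c (l 17212320) (l 16774008)))) (c (b (l 17289424) (l 17508056)) (b (b (l 16763992) (l 16855072)) (b (l 17009928) (l 17148368))))) (b (b (b (b (l 16749056) (l 16749672)) (b (l 16750272) (l 16750864))) (b (l 16748512) (c (l 16820640) (l 16752600)))) (b (b (c (l 17144232) (l 16750536)) (c (l 17363408) (l 16816856))) (c (l 17410984) (b (l 16817576) (l 16966888)))))) (a (b (b (b (b (a (l 16750512) (l 16751464)) (l 16751592)) (b (l 16752184) (l 16752760))) (b (b (l 16753336) (l 16753896)) (l 16751688))) (c (b (b (c (l 17312056) (l 16792616)) (l 17076704))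 (a (l 17334712) (l 17198280))) (b (b (l 16755544) (l 16770984)) (b (l 16787448) (l 16865280))))) (b (b (b (b (a (l 16752408) (l 16753344)) (l 16753464)) (b (l 16754040) (l 16754608))) (b (b (l 16755160) (l 16755704)) (b (l 16756248) (l 16756776)))) (b (b (l 16757640) (a (l 16783584) (l 16757512))) (b (c (l 17010160) (l 16759312)) (c (l 17135800) (l 16760224))))))), by decide +kernel⟩

def k4_A00mm_202_s3 : ∃ t, chk3 f_A00mm_202_s3 t 61 32 1 = true :=
  ⟨(a (b (a (b (b (a (b (l 16754288) (l 16754864)) (b (l 16755248) (l 16755816))) (b (l 16755896) (l 16756448))) (b (b (l 16756992) (l 16757520)) (b (l 16758048) (l 16758560)))) (b (b (a (b (l 16756224) (l 16756784)) (b (l 16757208) (l 16757760))) (b (l 16757816) (l 16758352))) (b (b (l 16758880) (l 16759392)) (b (l 16759904) (l 16760400))))) (a (b (b (b (l 16759064) (l 16759560)) (l 16760288)) (b (l 16759848) (c (l 16945072) (l 16761968)))) (b (b (b (l 16760896) (l 16761376))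 (b (l 16761848) (l 16762320))) (b (l 16763000) (l 16763256))))) (a (b (b (b (a (b (l 16758216) (l 16758760)) (b (b (l 16759088) (l 16759360)) (l 16759760))) (a (b (l 16759288) (l 16759816)) (b (l 16760280) (l 16760800)))) (b (b (c (l 16760992) (l 16760632)) (l 16761312)) (b (l 16761808) (l 16762288)))) (b (b (b (l 16762768) (l 16763232)) (b (l 16763688) (l 16764144))) (a (b (l 16764352) (l 16765216)) (b (l 16765256) (l 16766104))))) (a (b (b (b (a (b (l 535363343) (l 16760520)) (b (l 535365391) (l 16761024))) (b (l 16761288) (l 16761792))) (b (b (l 16762288) (l 16762776)) (b (l 16763256) (l 16763728)))) (b (b (l 16764416) (l 16765304)) (b (l 16766168) (l 16767000)))) (b (b (b (b (b (l 16761136) (l 16761400)) (b (l 16761656) (l 16761912))) (b (b (l 16762168) (l 16762416)) (l 16762784))) (b (b (l 16763272) (l 16763752)) (b (l 16764224) (l 16764688)))) (b (b (b (l 16765136) (l 16765584)) (l 16766240)) (b (l 16767080)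 (l 16767904))))))), by decide +kernel⟩

def k5_A00mm_202_s3 : ∃ t, chk3 f_A00mm_202_s3 t 62 256 1 = true :=
  ⟨(a (a (a (b (b (c (l 16762328) (l 16762008)) (l 16762424)) (b (l 16762680) (l 16762928))) (b (a (b (l 16762944) (l 16763200)) (b (l 16763464) (l 16763712))) (b (l 16763704) (l 16763952)))) (a (a (b (b (l 16763984) (l 16764224)) (b (l 16764472) (l 16764712))) (b (b (c (l 16764640) (l 16764360)) (l 16764744)) (b (l 16764984) (l 16765224)))) (a (b (b (c (l 16765152) (l 16764880)) (l 16765256)) (b (l 16765496) (l 16765728))) (b (b (b (l 16765472) (l 16765592)) (c (l 16765896) (l 16765640))) (b (l 16766008) (l 16766240)))))) (a (a (a (b (b (a (b (l 14) (l 16765976)) (l 14)) (b (l 16766224) (l 16766336))) (b (c (l 16766640) (l 16766392)) (c (l 16766864) (l 16766624)))) (b (l 14) (b (a (l 16766896) (l 535418639)) (c (l 16767368) (l 16767136))))) (a (b (l 14) (b (l 14) (a (l 16767632) (l 14)))) (l 14))) (l 14))),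 by decide +kernel⟩

def k6_A00mm_202_s3 : ∃ t, chk3 f_A00mm_202_s3 t 62 257 1 = true :=
  ⟨(b (a (a (a (b (l 16763176) (l 16763424)) (b (l 16764192) (l 16764432))) (a (a (b (l 16764952) (l 16765192)) (b (l 16765456) (l 16765696))) (a (b (l 16765968) (l 16766200)) (b (l 16766472) (l 16766696))))) (a (a (a (b (l 16766976) (l 16767200)) (b (c (l 16767592) (l 16767360)) (l 16767704))) (a (b (b (l 16767920) (l 16768032)) (c (l 16768304) (l 16768088))) (b (a (l 535440399) (l 14)) (b (l 16768640) (l 16768752))))) (l 14))) (a (a (a (b (l 16763664) (l 16763912)) (b (l 16764672) (l 16764912))) (a (b (l 16765680) (l 16765904)) (c (b (l 16766800) (l 16767024)) (b (l 16766552) (l 16766784))))) (a (a (a (b (l 16767424) (l 16767648)) (b (l 16767920) (l 16768144))) (a (b (c (l 16768528) (l 16768312)) (l 16768632)) (b (c (l 16769016) (l 16768808)) (c (l 16769224) (l 16769024))))) (a (a (b (a (l 16769280) (l 535596815)) (b (l 16769560)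 (l 16769664))) (b (l 14) (a (l 16769976) (a (l 16770160) (l 14))))) (l 14))))), by decide +kernel⟩

def k7_A00mm_202_s3 : ∃ t, chk3 f_A00mm_202_s3 t 124 129 1 = true :=
  ⟨(a (b (a (b (l 16764264) (l 16764736)) (b (b (l 16765144) (l 16765376)) (b (l 16765608) (l 16765832)))) (a (b (l 16765200) (l 16765648)) (b (l 16766168) (l 16766616)))) (a (b (b (b (l 16766136) (l 16766368)) (a (l 535451919) (l 535456015))) (b (b (l 16767032) (l 16767248)) (l 16767576))) (b (b (a (c (l 16767112) (l 16766872)) (c (l 16767600) (l 16767368))) (b (l 16767568) (l 16767784))) (b (a (l 535472911) (l 535477519)) (a (l 16768296) (l 535489807)))))), by decide +kernel⟩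

def k8_A00mm_202_s3 : ∃ t, chk3 f_A00mm_202_s3 t 125 129 1 = true :=
  ⟨(a (a (a (b (b (b (l 16767872) (l 16768088)) (c (l 16768520) (l 16768296))) (b (l 535750671) (l 535494671))) (b (b (b (l 16768360) (l 16768576)) (b (l 16768792) (l 16769000))) (b (c (l 16769416) (l 16769208)) (l 535768335)))) (a (b (b (b (l 16768848) (l 16769064)) (b (l 16769272) (l 16769480))) (b (b (l 16769688) (l 16769896)) (c (l 16770288) (l 16770104)))) (b (b (b (c (l 16769432) (l 16769240)) (l 16769544)) (b (l 16769752) (l 16769960))) (b (b (l 16770168) (l 16770368)) (b (l 16770568) (l 16770760)))))) (a (a (b (b (b (c (l 16769912) (l 16769728)) (c (l 16770120) (l 16769936))) (b (c (l 16770320) (l 16770144)) (l 16770440))) (b (b (l 16770640) (l 16770840)) (b (l 16771032) (l 16771232)))) (b (b (b (b (l 16770256) (l 16770360)) (b (l 16770456) (l 16770560))) (a (b (l 16770592) (l 16770792)) (b (l 16770832) (l 16771032)))) (b (a (l 535509263)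 (b (l 16771224) (l 16771424))) (b (l 16771504) (l 16771696))))) (b (a (a (b (b (l 535619599) (l 16770864)) (b (l 16771064) (l 16771264))) (b (b (l 14) (l 535629583)) (b (l 16771304) (l 16771504)))) (a (b (b (l 14) (a (l 16771280) (l 14))) (b (l 535639567) (l 16771736))) (b (l 14) (b (c (l 16771848) (l 16771704)) (l 535649551))))) (a (b (a (b (l 16771464) (l 16771656)) (b (l 16771696) (l 16771888))) (a (l 535528463) (l 535665935))) (b (a (b (l 16771928) (l 16772120)) (b (l 16772160) (l 16772352))) (a (b (l 16772312) (l 16772496)) (b (l 16772536) (l 16772720)))))))), by decide +kernel⟩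

def k9_A00mm_202_s3 : ∃ t, chk3 f_A00mm_202_s3 t 124 65 1 = true :=
  ⟨(a (b (b (a (b (l 16766096) (l 16766528)) (b (l 16767048) (l 16767472))) (a (b (l 16766960) (l 16767384)) (b (l 16767896) (l 16768312)))) (a (b (l 16768000) (l 16768800)) (b (b (l 16768712) (l 16769112)) (l 536090895)))) (a (b (b (b (l 16768000) (l 16768416)) (b (l 16768832) (l 16769232))) (b (b (l 16769624) (l 16770016)) (b (l 16770400) (l 16770776)))) (b (b (b (c (l 16769056) (l 16768840)) (l 16769360)) (b (l 16769760) (l 16770152))) (b (b (l 16770536) (l 16770920)) (b (l 16771288) (l 16771656)))))), by decide +kernel⟩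

def k10_A00mm_202_s3 : ∃ t, chk3 f_A00mm_202_s3 t 125 65 1 = true :=
  ⟨(a (a (a (b (b (b (l 535506959) (l 16770056)) (b (l 16770448) (l 16770832))) (b (l 535559439) (l 535581455))) (b (b (b (l 535512079) (l 16770520)) (b (l 16770912) (l 16771288))) (b (l 535833359) (l 535586831)))) (b (b (a (b (l 535785999) (l 535798031)) (b (b (l 16770960) (l 16771152)) (l 535803663))) (a (b (l 16771368) (l 16771744)) (b (l 535815695) (l 16772192)))) (b (a (b (l 16772112) (l 16772472)) (b (l 16772552) (l 16772912))) (a (l 535592463) (l 535866639))))) (a (a (b (b (b (b (l 16771424) (l 16771616)) (b (l 16771808) (l 16771992))) (b (l 535955727) (l 16772632))) (b (b (l 16772992) (l 16773344)) (b (l 16773688) (l 16774032)))) (b (b (b (b (l 16771880) (l 16772072)) (b (l 16772256) (l 16772440))) (b (a (l 535559439) (l 16772832)) (a (l 16772968) (l 535574287)))) (b (b (l 535851023) (l 535862543)) (a (l 535610639) (l 535613967))))) (a (a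 (b (b (b (l 535541263) (l 535553551)) (b (l 535565839) (l 535577615))) (b (l 535595023) (l 535617295))) (b (b (b (l 535544335) (l 535556879)) (b (l 535569167) (l 535580943))) (b (l 535732495) (l 535620623)))) (a (b (b (b (l 535547663) (l 535560207)) (b (l 535572495) (l 535584527))) (b (b (l 535596047) (l 16774520)) (l 535624207))) (b (b (b (l 535819535) (l 535563535)) (b (l 535575823) (l 535587855))) (b (b (l 535599631) (l 16774736)) (l 535627791))))))), by decide +kernel⟩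

def k11_A00mm_202_s3 : ∃ t, chk3 f_A00mm_202_s3 t 63 64 1 = true :=
  ⟨(b (l 14) (a (a (b (b (l 14) (b (l 14) (a (a (a (c (l 16772264) (l 16772128)) (b (l 14) (l 16772480))) (l 14)) (l 14)))) (b (b (a (a (a (l 535793679) (a (l 16772560) (l 16772680))) (a (b (l 16772800) (l 16772896)) (l 14))) (l 14)) (a (a (a (l 16772576) (l 535803663)) (a (a (l 16772976) (l 16773088)) (a (l 16773208) (l 535543823)))) (b (l 14) (a (a (l 16773536) (l 14)) (l 14))))) (b (a (a (a (l 16772768) (l 535541775)) (a (l 535813647) (a (l 16773384) (l 16773496)))) (a (a (b (l 16773624) (l 16773712)) (b (l 16773848) (l 16773936))) (a (a (l 535559695) (l 14)) (l 14)))) (a (a (a (l 16772952) (l 16773176)) (a (l 535820303) (l 535823887))) (a (a (b (l 16773800) (l 16773888)) (b (l 16774024) (l 16774112))) (a (a (l 535566351) (l 535568143)) (a (l 535569935) (l 535571983)))))))) (l 14)) (l 14))), by decide +kernel⟩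

def k12_A00mm_202_s3 : ∃ t, chk3 f_A00mm_202_s3 t 252 130 1 = true :=
  ⟨(a (a (b (b (a (b (l 16773136) (l 16773312)) (b (l 16773360) (l 16773536))) (a (l 535567119) (l 535838991))) (b (a (l 535579407) (l 535582991)) (a (l 535591439) (l 535595023)))) (a (b (b (b (l 535558415) (l 16773760)) (b (l 16773936) (l 16774104))) (b (l 535586575) (l 535598607))) (b (b (b (l 535830287) (l 535568399)) (a (l 535577615) (l 535579407))) (b (l 535858703) (l 535602191))))) (a (a (b (b (b (l 535833871) (l 535840271)) (b (l 535846671) (l 535584527))) (b (a (l 535593743) (l 535595535)) (l 535874575))) (a (b (b (l 535572239) (l 535585039)) (b (l 535597327) (l 535609615))) (b (b (l 535574031) (l 535586831)) (b (l 535599375) (l 535611663))))) (a (a (b (b (b (l 535572751) (l 535579151)) (l 535588623)) (b (l 535601167) (l 535613455))) (b (b (b (l 535574543) (l 535581199)) (l 535590671)) (b (l 535603215) (l 535615503)))) (a (b (b (b (l 535576591)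 (l 535582991)) (l 535592463)) (b (l 535605007) (l 535617295))) (b (b (b (l 535578383) (l 535585039)) (l 535594511)) (b (l 535607055) (l 535619343))))))), by decide +kernel⟩

def k13_A00mm_202_s3 : ∃ t, chk3 f_A00mm_202_s3 t 253 130 1 = true :=
  ⟨(b (a (b (b (a (a (a (l 535580431) (l 535582223)) (a (l 535584271) (l 14))) (l 14)) (a (a (a (l 535586831) (l 535588879)) (a (l 535590671) (l 535592719))) (a (a (l 535594767) (l 535596815)) (l 14)))) (b (a (a (a (l 535593231) (l 535595279)) (a (l 535597071) (l 535599119))) (a (a (l 535601167) (l 535603215)) (a (l 535605263) (l 535607311)))) (a (a (a (l 535599631) (l 535601679)) (a (l 535603471) (l 535605519))) (a (a (l 535607567) (l 535609615)) (a (l 535611663) (l 535613711)))))) (a (b (l 14) (b (a (a (l 535743503) (l 14)) (l 14)) (a (a (l 535615759) (l 535886351)) (a (c (l 535639567) (l 535801615)) (a (l 535622159) (l 535623183)))))) (l 14))) (a (a (a (a (b (l 535609103)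 (l 535621391)) (b (l 535610895) (l 535623439))) (a (b (l 535612943) (l 535625231)) (b (b (l 535611919) (l 535618063)) (l 535627279)))) (a (a (b (b (l 535613967) (l 535620111)) (l 535629327)) (b (b (l 535616015) (l 535622159)) (l 535631375))) (b (a (b (l 535618063) (l 535624207)) (b (l 535620111) (l 535626255))) (a (l 535767823) (b (l 535632399) (l 535638543)))))) (a (a (b (a (b (l 535622159) (l 535628303)) (b (l 535624207) (l 535630607))) (a (b (l 535634703) (l 535640847)) (b (l 535636751) (l 535642895)))) (a (a (b (l 535629327) (l 535641871)) (b (l 535630351) (l 535642895))) (b (b (l 535896847) (l 535903247)) (a (l 535643919) (l 535645199))))) (a (a (b (b (a (l 535630607) (l 535631631)) (l 535905295)) (b (l 535911695) (l 535649295))) (a (b (b (l 535632655) (l 535639055)) (l 535648527)) (b (b (l 535633935) (l 535640079)) (l 535649551)))) (a (a (b (b (l 535634959) (l 535641359)) (l 535650575)) (b (b (l 535636239) (l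 535642383)) (l 535651855))) (b (b (l 14) (a (l 535643663) (l 535644687))) (l 4))))))), by decide +kernel⟩

def k14_A00mm_202_s3 : ∃ t, chk3 f_A00mm_202_s3 t 127 130 1 = true :=
  ⟨(b (l 14) (b (b (l 14) (b (b (l 14) (b (l 14) (l 4))) (l 4))) (l 4))), by decide +kernel⟩

def k15_A00mm_202_s3 : ∃ t, chk3 f_A00mm_202_s3 t 63 131 1 = true :=
  ⟨(a (b (a (b (a (a (a (l 535603215) (l 535606799)) (a (l 535610383) (l 535614223))) (a (a (l 535617807) (l 535890191)) (a (a (l 535625487) (l 535627535)) (a (l 535629327) (l 535631375))))) (a (a (a (l 535614479) (l 535618319)) (a (l 535621903) (l 535625743))) (a (a (l 535629583) (l 535633423)) (a (l 535905807) (l 536010255))))) (a (a (a (b (a (l 535633423) (l 535635471)) (a (l 535645199) (l 535647247))) (a (b (l 535637519) (l 535649295)) (b (l 535639311) (l 535651343)))) (a (a (b (l 535641359) (l 535653391)) (b (l 535643407) (l 535655439))) (b (a (l 535645711) (l 535647759)) (a (l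 535657487) (l 535659535))))) (a (a (b (a (l 535649807) (l 535920399)) (a (l 535661839) (l 4))) (b (a (a (l 535653903) (l 535655183)) (a (l 535656207) (l 535657231))) (l 4))) (l 4)))) (a (a (a (a (l 535631375) (l 535903503)) (b (a (l 535633167) (l 535637007)) (a (l 535644431) (l 535648015)))) (a (b (a (l 535640847) (l 535644687)) (a (l 535651855) (l 535655951))) (a (b (l 535917071) (l 535659791)) (b (l 535921167) (l 535932431))))) (a (a (a (b (a (l 535656719) (l 535658767)) (a (l 535667983) (l 535670031))) (b (a (l 535660815) (l 535662863)) (a (l 535672079) (l 4)))) (a (b (a (l 535664911) (l 535666959)) (l 4)) (l 4))) (l 4)))) (l 4)), by decide +kernel⟩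

def k16_A00mm_202_s3 : ∃ t, chk3 f_A00mm_202_s3 t 30 66 1 = true :=
  ⟨(a (a (a (b (l 17110744) (l 17376056)) (b (a (l 17131416) (a (l 17099128) (l 17077360))) (l 17217232))) (a (b (c (l 17346920) (l 16760216)) (l 16972544)) (b (c (l 17171904) (b (l 16830888) (l 16884352))) (a (l 16997816) (l 16874560))))) (b (b (a (a (c (l 17065336) (l 16777752)) (l 16761704)) (a (l 16766080) (b (l 16768056) (l 16768448)))) (a (c (a (l 17171832) (l 16996360)) (a (l 16798824) (l 16777792))) (a (a (l 16791256) (l 16791648)) (b (l 16768832) (l 16768112))))) (a (a (c (l 17186096) (b (l 16845720) (l 16879600))) (b (a (l 16828072) (l 16788152)) (l 16831752))) (a (a (b (l 16832944) (l 16860712)) (b (l 16795064) (l 16825488))) (a (b (l 16800816) (l 16791864)) (b (l 16787848) (l 16781344))))))), by decide +kernel⟩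

def k17_A00mm_202_s3 : ∃ t, chk3 f_A00mm_202_s3 t 31 66 1 = true :=
  ⟨(a (a (a (b (a (b (l 16769576) (l 16770320)) (b (l 16770456) (l 16771184))) (a (b (l 16772600) (l 16773560)) (b (l 16771896) (l 540348687)))) (a (b (b (l 536119823) (l 535871503)) (b (l 535890703) (l 535640591))) (b (b (b (l 16772016) (l 16772368)) (b (l 16772720) (l 16773064))) (b (l 536168207) (l 536186895))))) (a (a (a (b (b (l 535602703) (l 535623183)) (l 535652111)) (b (b (l 535608335) (l 535628815)) (l 535926031))) (b (b (a (l 535613967) (l 535619855)) (a (l 535634447) (l 535640591))) (b (a (l 535654159) (l 535660303)) (a (l 535673103) (l 535679247))))) (a (b (b (a (l 535894287) (l 536169231)) (a (l 535646735) (l 535921679))) (a (b (l 535666703) (l 535685647)) (b (l 535673103) (l 535692303)))) (b (b (a (a (l 535639055) (l 535642639)) (a (l 535645967) (l 535649551))) (a (l 536196623) (a (l 535666959) (l 535670799)))) (b (a (l 535948303) (l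 536223759)) (a (l 535698959) (l 535974415))))))) (a (a (b (a (a (a (b (l 535653391) (l 535674383)) (b (l 535656975) (l 535678223))) (a (b (l 535660815) (l 535682063)) (b (l 535664655) (l 535685903)))) (a (b (a (l 535936783) (b (l 535666959) (l 535677967))) (a (l 535689743) (l 4))) (b (a (b (l 535671055) (l 535681807)) (b (l 535674895) (l 4))) (l 4)))) (a (a (b (a (l 535694607) (l 535698447)) (l 4)) (l 4)) (l 4))) (l 4)) (l 4))), by decide +kernel⟩

def k18_A00mm_202_s3 : ∃ t, chk3 f_A00mm_202_s3 t 15 67 1 = true :=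
  ⟨(a (b (a (a (l 17249344) (a (l 17145072) (l 16990320))) (a (a (a (l 17020952) (l 16901720)) (a (l 16866704) (l 16769304))) (a (c (l 579307535) (b (c (l 16818400) (l 16775968)) (l 16797440))) (a (b (l 16812280) (l 16822784)) (b (l 16782392) (l 16793912)))))) (a (a (l 17311744) (a (l 17214144) (l 17147968))) (a (c (l 586589455) (a (l 17010848) (l 565081871))) (a (b (l 16786816) (l 16866448)) (c (l 581565199) (a (l 557772047) (l 555077391))))))) (a (b (a (a (a (b (l 16775976) (l 16788264)) (c (b (l 16788280) (l 16788248)) (l 535907855))) (b (a (b (l 16778976) (l 16777656)) (l 537839119)) (a (c (l 568085007) (l 535656207)) (c (l 563726607) (l 535933967))))) (a (a (a (l 537999631) (l 535693327)) (a (l 535699215) (l 535705615))) (a (a (l 535980559) (b (l 535710223) (l 4))) (l 4)))) (a (a (c (a (l 579109135) (l 577179663)) (a (b (l 16792736) (l 554502671)) (b (l 545643279) (l 551373327)))) (c (a (l 574945039) (c (l 580340495)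 (l 564379151))) (a (b (l 541439247) (l 547846927)) (a (l 541570831) (l 539264015))))) (a (b (a (c (l 566151695) (l 536228367)) (a (l 545337871) (l 4))) (a (c (l 571797007) (l 539376399)) (l 4))) (l 4)))) (l 4))), by decide +kernel⟩

def k19_A00mm_202_s3 : ∃ t, chk3 f_A00mm_202_s3 t 7 17 1 = true :=
  ⟨(a (a (b (l 17854120) (l 17635752)) (a (b (l 17593400) (l 17385568)) (b (b (l 582987791) (l 17340184)) (l 581497103)))) (a (a (b (a (b (l 17260744) (l 17174168)) (b (a (l 17169152) (l 582150415)) (l 584006415))) (a (l 582945551) (l 583942671))) (a (a (b (b (l 581412623) (l 583863311)) (l 584480271)) (b (b (c (l 588861967) (l 570501647)) (l 583620111)) (l 584823823))) (a (b (b (c (l 588155407) (b (l 567289615) (l 571606799))) (l 583163919)) (l 585084943)) (b (b (b (a (l 575384847) (l 572918543)) (l 577383439)) (l 582443023)) (l 4))))) (b (a (a (b (b (c (a (l 583526159) (a (l 581381135) (l 579707663))) (a (a (l 560754703)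 (l 558342159)) (a (b (l 553247759) (l 557811983)) (b (l 549908239) (l 555004431))))) (a (a (l 577139471) (l 575917071)) (a (l 572902927) (l 4)))) (a (a (l 581625615) (l 4)) (l 4))) (l 4)) (l 4)) (l 4)))), by decide +kernel⟩

def k20_A00mm_202_s3 : ∃ t, chk3 f_A00mm_202_s3 t 7 9 1 = true :=
  ⟨(a (a (b (b (l 17268896) (l 571667983)) (l 568844559)) (b (a (l 575571471) (l 577885455)) (a (l 571193103) (l 573152783)))) (b (a (a (a (l 579553295) (l 582079503)) (l 4)) (l 4)) (l 4))), by decide +kernel⟩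

def k21_A00mm_202_s3 : ∃ t, chk3 f_A00mm_202_s3 t 3 5 1 = true :=
  ⟨(a (a (b (a (l 17766896) (b (l 17468208) (l 17327552))) (b (a (l 17203264) (l 557773839)) (a (l 553535759) (l 555276303)))) (b (a (b (l 561835791) (l 560126735)) (l 562491407)) (a (b (l 558802191) (l 557364239)) (b (l 559939855) (l 4))))) (b (a (a (b (l 565762575) (l 563327247)) (l 4)) (l 4)) (l 4))), by decide +kernel⟩

def k22_A00mm_202_s3 : ∃ t, chk3 f_A00mm_202_s3 t 1 3 1 = true :=
  ⟨(b (a (a (b (l 17142368) (l 17092368)) (a (b (l 17047336) (b (l 16882200) (l 121970589559))) (b (b (b (l 17061232) (l 17073888)) (l 548059919)) (a (b (l 543690255) (l 541634575)) (l 544893711))))) (a (a (b (a (b (l 551509775) (l 549446671)) (l 553451023)) (l 4)) (l 4)) (l 4))) (a (a (l 2) (a (l 2) (a (l 2) (l 4)))) (l 4))), by decide +kernel⟩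

theorem t23_A00mm_202_s3 : ∃ t, chk3 f_A00mm_202_s3 t 15 66 1 = true := ex3_a k16_A00mm_202_s3 k17_A00mm_202_s3

theorem t24_A00mm_202_s3 : ∃ t, chk3 f_A00mm_202_s3 t 15 33 1 = true := ex3_b t23_A00mm_202_s3 k18_A00mm_202_s3

theorem t25_A00mm_202_s3 : ∃ t, chk3 f_A00mm_202_s3 t 126 130 1 = true := ex3_a k12_A00mm_202_s3 k13_A00mm_202_s3

theorem t26_A00mm_202_s3 : ∃ t, chk3 f_A00mm_202_s3 t 63 130 1 = true := ex3_a t25_A00mm_202_s3 k14_A00mm_202_s3

theorem t27_A00mm_202_s3 : ∃ t, chk3 f_A00mm_202_s3 t 63 65 1 = true := ex3_b t26_A00mm_202_s3 k15_A00mm_202_s3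

theorem t28_A00mm_202_s3 : ∃ t, chk3 f_A00mm_202_s3 t 63 32 1 = true := ex3_b k11_A00mm_202_s3 t27_A00mm_202_s3

theorem t29_A00mm_202_s3 : ∃ t, chk3 f_A00mm_202_s3 t 62 65 1 = true := ex3_a k9_A00mm_202_s3 k10_A00mm_202_s3

theorem t30_A00mm_202_s3 : ∃ t, chk3 f_A00mm_202_s3 t 62 129 1 = true := ex3_a k7_A00mm_202_s3 k8_A00mm_202_s3

theorem t31_A00mm_202_s3 : ∃ t, chk3 f_A00mm_202_s3 t 62 128 1 = true := ex3_b k5_A00mm_202_s3 k6_A00mm_202_s3

theorem t32_A00mm_202_s3 : ∃ t, chk3 f_A00mm_202_s3 t 62 64 1 = true := ex3_b t31_A00mm_202_s3 t30_A00mm_202_s3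

theorem t33_A00mm_202_s3 : ∃ t, chk3 f_A00mm_202_s3 t 62 32 1 = true := ex3_b t32_A00mm_202_s3 t29_A00mm_202_s3

theorem t34_A00mm_202_s3 : ∃ t, chk3 f_A00mm_202_s3 t 31 32 1 = true := ex3_a t33_A00mm_202_s3 t28_A00mm_202_s3

theorem t35_A00mm_202_s3 : ∃ t, chk3 f_A00mm_202_s3 t 30 32 1 = true := ex3_a k3_A00mm_202_s3 k4_A00mm_202_s3

theorem t36_A00mm_202_s3 : ∃ t, chk3 f_A00mm_202_s3 t 15 32 1 = true := ex3_a t35_A00mm_202_s3 t34_A00mm_202_s3

theorem t37_A00mm_202_s3 : ∃ t, chk3 f_A00mm_202_s3 t 15 16 1 = true := ex3_b t36_A00mm_202_s3 t24_A00mm_202_s3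

theorem t38_A00mm_202_s3 : ∃ t, chk3 f_A00mm_202_s3 t 7 16 1 = true := ex3_a k2_A00mm_202_s3 t37_A00mm_202_s3

theorem t39_A00mm_202_s3 : ∃ t, chk3 f_A00mm_202_s3 t 7 8 1 = true := ex3_b t38_A00mm_202_s3 k19_A00mm_202_s3

theorem t40_A00mm_202_s3 : ∃ t, chk3 f_A00mm_202_s3 t 7 4 1 = true := ex3_b t39_A00mm_202_s3 k20_A00mm_202_s3

theorem t41_A00mm_202_s3 : ∃ t, chk3 f_A00mm_202_s3 t 3 4 1 = true := ex3_a k1_A00mm_202_s3 t40_A00mm_202_s3

theorem t42_A00mm_202_s3 : ∃ t, chk3 f_A00mm_202_s3 t 3 2 1 = true := ex3_b t41_A00mm_202_s3 k21_A00mm_202_s3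

theorem t43_A00mm_202_s3 : ∃ t, chk3 f_A00mm_202_s3 t 1 2 1 = true := ex3_a k0_A00mm_202_s3 t42_A00mm_202_s3

theorem t44_A00mm_202_s3 : ∃ t, chk3 f_A00mm_202_s3 t 1 1 1 = true := ex3_b t43_A00mm_202_s3 k22_A00mm_202_s3

theorem c_A00mm_202_s3 : CertF 0 536870912 0 536870912 33554432 16777216 true false false .pp 2 0 2
    ndF0q2 ndF0q0 pcF2 cut_A00mm_202_s3 xt_A00mm_202_s3 :=
  certFK0 (fam := true) (s1 := false) (s2 := false) (a := 2) (b := 0) (c := 2) (cn := .pp) (n1 := ndF0q2) (n2 := ndF0q0) (pc := pcF2) (cut := cut_A00mm_202_s3) (xt := xt_A00mm_202_s3) (P1 := 0) (W1 := 536870912) (P2 := 0) (W2 := 536870912) (P3 := 33554432) (W3 := 16777216)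
    rfl rfl rfl t44_A00mm_202_s3

theorem s_A00mm_202_s3 {κ x : ℝ} (hκ : κ * h0 = ken x) (hx : ((33554432 : ℕ) : ℝ) / S ≤ x)
    (hx' : x ≤ (((33554432 : ℕ) : ℝ) + (16777216 : ℕ)) / S)
    (H : CutA (VF κ) PP tKF tL pcF (Cut.of [[⟨0, 1, 0, 16777216⟩, ⟨1, 0, 0, 16777216⟩, ⟨2, 1, 0, 16777216⟩]]) 2 0 2 0 0 (sgb false) (sgb false) x) :
    AltA (VF κ) PP tKF tL pcF [⟨4, 0, 0, 2845415833⟩] 2 0 2 0 0 (sgb false) (sgb false) x :=
  strip_altA (m := 2845415833) false rfl hκ covF02 covF00 hx hx' c_A00mm_202_s3 H ((okx hx hx').extA (T := tt) (sideF hx hx') hκ rfl rfl (.O 2 false) (.O 0 false) (Or.inl rfl))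

noncomputable def cut_A00mm_203_s1 : Cut := Cut.of [[⟨4, 0, 0, 1449551462⟩]]

noncomputable def f_A00mm_203_s1 : ℕ → ℕ → ℕ → ℕ → Bool := onCell 0 536870912 0 536870912 33554432 16777216
    (rowFK 0 true false false .up 2 0 3 (qsf 0 536870912 0 536870912 3) ndF0q2 ndF0q0 pcF3 cut_A00mm_203_s1 Ext.none)

def k0_A00mm_203_s1 : ∃ t, chk3 f_A00mm_203_s1 t 1 1 1 = true :=
  ⟨(l 6), by decide +kernel⟩

theorem c_A00mm_203_s1 : CertF 0 536870912 0 536870912 33554432 16777216 true false false .up 2 0 3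
    ndF0q2 ndF0q0 pcF3 cut_A00mm_203_s1 Ext.none :=
  certFK0 (fam := true) (s1 := false) (s2 := false) (a := 2) (b := 0) (c := 3) (cn := .up) (n1 := ndF0q2) (n2 := ndF0q0) (pc := pcF3) (cut := cut_A00mm_203_s1) (xt := Ext.none) (P1 := 0) (W1 := 536870912) (P2 := 0) (W2 := 536870912) (P3 := 33554432) (W3 := 16777216)
    rfl rfl rfl k0_A00mm_203_s1

theorem s_A00mm_203_s1 {κ x : ℝ} (hκ : κ * h0 = ken x) (hx : ((33554432 : ℕ) : ℝ) / S ≤ x)
    (hx' : x ≤ (((33554432 : ℕ) : ℝ) + (16777216 : ℕ)) / S) :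
    AltA (VF κ) PP tKF tL pcF [⟨3, 0, 0, 1449551462⟩] 2 0 3 0 0 (sgb false) (sgb false) x :=
  strip_altA (m := 1449551462) true rfl hκ covF02 covF00 hx hx' c_A00mm_203_s1 cutA_nil (noExt_A)

noncomputable def cut_A00mm_203_s3 : Cut := Cut.of [[⟨3, 0, 0, 2845415833⟩]]

noncomputable def xt_A00mm_203_s3 : Ext := strExt dd true false false .u2 .u0m .s2m .up 2 0 3 rfl rfl gl3 vv ndF0q2 ndF0q0

noncomputable def f_A00mm_203_s3 : ℕ → ℕ → ℕ → ℕ → Bool := onCell 0 536870912 1610612736 536870912 33554432 16777216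
    (rowFK 1 true false false .up 2 0 3 (qsf 0 536870912 0 536870912 3) ndF0q2 ndF0q0 pcF3 cut_A00mm_203_s3 xt_A00mm_203_s3)

def k0_A00mm_203_s3 : ∃ t, chk3 f_A00mm_203_s3 t 1 1 1 = true :=
  ⟨(b (a (b (a (b (a (l 17062088) (l 17167928)) (a (l 17159416) (b (l 542474767) (l 543445263)))) (b (a (a (b (l 16946600) (l 543315983)) (l 542537743)) (a (b (l 543897359) (l 4)) (l 4))) (a (a (a (l 542216207) (b (l 543504399) (l 4))) (l 4)) (l 4)))) (a (b (a (b (l 546672143) (l 2)) (b (l 544484623) (l 2))) (l 2)) (l 4))) (l 4)) (l 2)), by decide +kernel⟩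

theorem c_A00mm_203_s3 : CertF 0 536870912 0 536870912 33554432 16777216 true false false .up 2 0 3
    ndF0q2 ndF0q0 pcF3 cut_A00mm_203_s3 xt_A00mm_203_s3 :=
  certFK1 (fam := true) (s1 := false) (s2 := false) (a := 2) (b := 0) (c := 3) (cn := .up) (n1 := ndF0q2) (n2 := ndF0q0) (pc := pcF3) (cut := cut_A00mm_203_s3) (xt := xt_A00mm_203_s3) (P1 := 0) (W1 := 536870912) (P2 := 0) (W2 := 536870912) (P3 := 33554432) (W3 := 16777216)
    rfl rfl rfl (fun _ => rfl) k0_A00mm_203_s3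

theorem s_A00mm_203_s3 {κ x : ℝ} (hκ : κ * h0 = ken x) (hx : ((33554432 : ℕ) : ℝ) / S ≤ x)
    (hx' : x ≤ (((33554432 : ℕ) : ℝ) + (16777216 : ℕ)) / S) :
    AltA (VF κ) PP tKF tL pcF [⟨4, 0, 0, 2845415833⟩] 2 0 3 0 0 (sgb false) (sgb false) x :=
  strip_altA (m := 2845415833) false rfl hκ covF02 covF00 hx hx' c_A00mm_203_s3 cutA_nil ((okx hx hx').extA (T := tt) (sideF hx hx') hκ rfl rfl (.O 2 false) (.O 0 false) (Or.inr rfl))

noncomputable def cut_A00mm_213_s1 : Cut := Cut.of [[⟨4, 0, 0, 1449551462⟩]]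

noncomputable def f_A00mm_213_s1 : ℕ → ℕ → ℕ → ℕ → Bool := onCell 0 536870912 536870912 536870912 33554432 16777216
    (rowFK 0 true false false .pnn 2 1 3 (qsf 0 536870912 536870912 536870912 3) ndF0q2 ndF0q1 pcF3 cut_A00mm_213_s1 Ext.none)

def k0_A00mm_213_s1 : ∃ t, chk3 f_A00mm_213_s1 t 1 1 1 = true :=
  ⟨(l 6), by decide +kernel⟩

theorem c_A00mm_213_s1 : CertF 0 536870912 536870912 536870912 33554432 16777216 true false false .pnn 2 1 3
    ndF0q2 ndF0q1 pcF3 cut_A00mm_213_s1 Ext.none :=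
  certFK0 (fam := true) (s1 := false) (s2 := false) (a := 2) (b := 1) (c := 3) (cn := .pnn) (n1 := ndF0q2) (n2 := ndF0q1) (pc := pcF3) (cut := cut_A00mm_213_s1) (xt := Ext.none) (P1 := 0) (W1 := 536870912) (P2 := 536870912) (W2 := 536870912) (P3 := 33554432) (W3 := 16777216)
    rfl rfl rfl k0_A00mm_213_s1

theorem s_A00mm_213_s1 {κ x : ℝ} (hκ : κ * h0 = ken x) (hx : ((33554432 : ℕ) : ℝ) / S ≤ x)
    (hx' : x ≤ (((33554432 : ℕ) : ℝ) + (16777216 : ℕ)) / S) :
    AltA (VF κ) PP tKF tL pcF [⟨3, 0, 0, 1449551462⟩] 2 1 3 0 0 (sgb false) (sgb false) x :=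
  strip_altA (m := 1449551462) true rfl hκ covF02 covF01 hx hx' c_A00mm_213_s1 cutA_nil (noExt_A)

noncomputable def cut_A00mm_213_s3 : Cut := Cut.of [[⟨3, 0, 0, 2845415833⟩]]

noncomputable def xt_A00mm_213_s3 : Ext := strExt dd true false false .u2 .u0m .s2m .pnn 2 1 3 rfl rfl gl3 vv ndF0q2 ndF0q1

noncomputable def f_A00mm_213_s3 : ℕ → ℕ → ℕ → ℕ → Bool := onCell 0 536870912 536870912 536870912 33554432 16777216
    (rowFK 0 true false false .pnn 2 1 3 (qsf 0 536870912 536870912 536870912 3) ndF0q2 ndF0q1 pcF3 cut_A00mm_213_s3 xt_A00mm_213_s3)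

def k0_A00mm_213_s3 : ∃ t, chk3 f_A00mm_213_s3 t 1 1 1 = true :=
  ⟨(a (b (b (a (b (a (b (a (l 545747727) (l 546235919)) (l 545600015)) (b (l 545125903) (l 4))) (a (l 545153295) (l 4))) (l 4)) (l 4)) (l 4)) (l 4)), by decide +kernel⟩

theorem c_A00mm_213_s3 : CertF 0 536870912 536870912 536870912 33554432 16777216 true false false .pnn 2 1 3
    ndF0q2 ndF0q1 pcF3 cut_A00mm_213_s3 xt_A00mm_213_s3 :=
  certFK0 (fam := true) (s1 := false) (s2 := false) (a := 2) (b := 1) (c := 3) (cn := .pnn) (n1 := ndF0q2) (n2 := ndF0q1) (pc := pcF3) (cut := cut_A00mm_213_s3) (xt := xt_A00mm_213_s3) (P1 := 0) (W1 := 536870912) (P2 := 536870912) (W2 := 536870912) (P3 := 33554432) (W3 := 16777216)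
    rfl rfl rfl k0_A00mm_213_s3

theorem s_A00mm_213_s3 {κ x : ℝ} (hκ : κ * h0 = ken x) (hx : ((33554432 : ℕ) : ℝ) / S ≤ x)
    (hx' : x ≤ (((33554432 : ℕ) : ℝ) + (16777216 : ℕ)) / S) :
    AltA (VF κ) PP tKF tL pcF [⟨4, 0, 0, 2845415833⟩] 2 1 3 0 0 (sgb false) (sgb false) x :=
  strip_altA (m := 2845415833) false rfl hκ covF02 covF01 hx hx' c_A00mm_213_s3 cutA_nil ((okx hx hx').extA (T := tt) (sideF hx hx') hκ rfl rfl (.O 2 false) (.O 1 false) (Or.inr rfl))

noncomputable def cut_A04pp_001_s1 : Cut := Cut.of [[⟨4, 0, 0, 1449551462⟩]]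

noncomputable def f_A04pp_001_s1 : ℕ → ℕ → ℕ → ℕ → Bool := onCell 0 536870912 0 536870912 33554432 16777216
    (rowFK 0 true true true .up 0 0 1 (qsf 0 536870912 0 536870912 1) ndF0q0 ndF4q0 pcF1 cut_A04pp_001_s1 Ext.none)

def k0_A04pp_001_s1 : ∃ t, chk3 f_A04pp_001_s1 t 1 1 1 = true :=
  ⟨(l 4), by decide +kernel⟩

theorem c_A04pp_001_s1 : CertF 0 536870912 0 536870912 33554432 16777216 true true true .up 0 0 1
    ndF0q0 ndF4q0 pcF1 cut_A04pp_001_s1 Ext.none :=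
  certFK0 (fam := true) (s1 := true) (s2 := true) (a := 0) (b := 0) (c := 1) (cn := .up) (n1 := ndF0q0) (n2 := ndF4q0) (pc := pcF1) (cut := cut_A04pp_001_s1) (xt := Ext.none) (P1 := 0) (W1 := 536870912) (P2 := 0) (W2 := 536870912) (P3 := 33554432) (W3 := 16777216)
    rfl rfl rfl k0_A04pp_001_s1

theorem s_A04pp_001_s1 {κ x : ℝ} (hκ : κ * h0 = ken x) (hx : ((33554432 : ℕ) : ℝ) / S ≤ x)
    (hx' : x ≤ (((33554432 : ℕ) : ℝ) + (16777216 : ℕ)) / S) :
    AltA (VF κ) PP tKF tL pcF [⟨3, 0, 0, 1449551462⟩] 0 0 1 0 4 (sgb true) (sgb true) x :=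
  strip_altA (m := 1449551462) true rfl hκ covF00 covF40 hx hx' c_A04pp_001_s1 cutA_nil (noExt_A)

noncomputable def cut_A04pp_011_s1 : Cut := Cut.of [[⟨4, 0, 0, 1449551462⟩]]

noncomputable def f_A04pp_011_s1 : ℕ → ℕ → ℕ → ℕ → Bool := onCell 0 536870912 536870912 536870912 33554432 16777216
    (rowFK 0 true true true .pnn 0 1 1 (qsf 0 536870912 536870912 536870912 1) ndF0q0 ndF4q1 pcF1 cut_A04pp_011_s1 Ext.none)

def k0_A04pp_011_s1 : ∃ t, chk3 f_A04pp_011_s1 t 1 1 1 = true :=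
  ⟨(l 4), by decide +kernel⟩

theorem c_A04pp_011_s1 : CertF 0 536870912 536870912 536870912 33554432 16777216 true true true .pnn 0 1 1
    ndF0q0 ndF4q1 pcF1 cut_A04pp_011_s1 Ext.none :=
  certFK0 (fam := true) (s1 := true) (s2 := true) (a := 0) (b := 1) (c := 1) (cn := .pnn) (n1 := ndF0q0) (n2 := ndF4q1) (pc := pcF1) (cut := cut_A04pp_011_s1) (xt := Ext.none) (P1 := 0) (W1 := 536870912) (P2 := 536870912) (W2 := 536870912) (P3 := 33554432) (W3 := 16777216)
    rfl rfl rfl k0_A04pp_011_s1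

theorem s_A04pp_011_s1 {κ x : ℝ} (hκ : κ * h0 = ken x) (hx : ((33554432 : ℕ) : ℝ) / S ≤ x)
    (hx' : x ≤ (((33554432 : ℕ) : ℝ) + (16777216 : ℕ)) / S) :
    AltA (VF κ) PP tKF tL pcF [⟨3, 0, 0, 1449551462⟩] 0 1 1 0 4 (sgb true) (sgb true) x :=
  strip_altA (m := 1449551462) true rfl hκ covF00 covF41 hx hx' c_A04pp_011_s1 cutA_nil (noExt_A)

noncomputable def cut_A04pp_012_s1 : Cut := Cut.of [[⟨4, 0, 0, 1449551462⟩]]

noncomputable def f_A04pp_012_s1 : ℕ → ℕ → ℕ → ℕ → Bool := onCell 0 536870912 536870912 536870912 33554432 16777216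
    (rowFK 0 true true true .pnp 0 1 2 (qsf 0 536870912 536870912 536870912 2) ndF0q0 ndF4q1 pcF2 cut_A04pp_012_s1 Ext.none)

def k0_A04pp_012_s1 : ∃ t, chk3 f_A04pp_012_s1 t 1 1 1 = true :=
  ⟨(l 4), by decide +kernel⟩

theorem c_A04pp_012_s1 : CertF 0 536870912 536870912 536870912 33554432 16777216 true true true .pnp 0 1 2
    ndF0q0 ndF4q1 pcF2 cut_A04pp_012_s1 Ext.none :=
  certFK0 (fam := true) (s1 := true) (s2 := true) (a := 0) (b := 1) (c := 2) (cn := .pnp) (n1 := ndF0q0) (n2 := ndF4q1) (pc := pcF2) (cut := cut_A04pp_012_s1) (xt := Ext.none) (P1 := 0) (W1 := 536870912) (P2 := 536870912) (W2 := 536870912) (P3 := 33554432) (W3 := 16777216)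
    rfl rfl rfl k0_A04pp_012_s1

theorem s_A04pp_012_s1 {κ x : ℝ} (hκ : κ * h0 = ken x) (hx : ((33554432 : ℕ) : ℝ) / S ≤ x)
    (hx' : x ≤ (((33554432 : ℕ) : ℝ) + (16777216 : ℕ)) / S) :
    AltA (VF κ) PP tKF tL pcF [⟨3, 0, 0, 1449551462⟩] 0 1 2 0 4 (sgb true) (sgb true) x :=
  strip_altA (m := 1449551462) true rfl hκ covF00 covF41 hx hx' c_A04pp_012_s1 cutA_nil (noExt_A)

noncomputable def cut_A04pp_022_s1 : Cut := Cut.of [[⟨4, 0, 0, 1449551462⟩]]

noncomputable def f_A04pp_022_s1 : ℕ → ℕ → ℕ → ℕ → Bool := onCell 0 536870912 1073741824 536870912 33554432 16777216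
    (rowFK 0 true true true .pp 0 2 2 (qsf 0 536870912 1073741824 536870912 2) ndF0q0 ndF4q2 pcF2 cut_A04pp_022_s1 Ext.none)

def k0_A04pp_022_s1 : ∃ t, chk3 f_A04pp_022_s1 t 1 1 1 = true :=
  ⟨(l 4), by decide +kernel⟩

theorem c_A04pp_022_s1 : CertF 0 536870912 1073741824 536870912 33554432 16777216 true true true .pp 0 2 2
    ndF0q0 ndF4q2 pcF2 cut_A04pp_022_s1 Ext.none :=
  certFK0 (fam := true) (s1 := true) (s2 := true) (a := 0) (b := 2) (c := 2) (cn := .pp) (n1 := ndF0q0) (n2 := ndF4q2) (pc := pcF2) (cut := cut_A04pp_022_s1) (xt := Ext.none) (P1 := 0) (W1 := 536870912) (P2 := 1073741824) (W2 := 536870912) (P3 := 33554432) (W3 := 16777216)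
    rfl rfl rfl k0_A04pp_022_s1

theorem s_A04pp_022_s1 {κ x : ℝ} (hκ : κ * h0 = ken x) (hx : ((33554432 : ℕ) : ℝ) / S ≤ x)
    (hx' : x ≤ (((33554432 : ℕ) : ℝ) + (16777216 : ℕ)) / S) :
    AltA (VF κ) PP tKF tL pcF [⟨3, 0, 0, 1449551462⟩] 0 2 2 0 4 (sgb true) (sgb true) x :=
  strip_altA (m := 1449551462) true rfl hκ covF00 covF42 hx hx' c_A04pp_022_s1 cutA_nil (noExt_A)

noncomputable def cut_A04pp_023_s1 : Cut := Cut.of [[⟨4, 0, 0, 1449551462⟩]]

noncomputable def f_A04pp_023_s1 : ℕ → ℕ → ℕ → ℕ → Bool := onCell 0 536870912 1073741824 536870912 33554432 16777216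
    (rowFK 0 true true true .up 0 2 3 (qsf 0 536870912 1073741824 536870912 3) ndF0q0 ndF4q2 pcF3 cut_A04pp_023_s1 Ext.none)

def k0_A04pp_023_s1 : ∃ t, chk3 f_A04pp_023_s1 t 1 1 1 = true :=
  ⟨(l 4), by decide +kernel⟩

theorem c_A04pp_023_s1 : CertF 0 536870912 1073741824 536870912 33554432 16777216 true true true .up 0 2 3
    ndF0q0 ndF4q2 pcF3 cut_A04pp_023_s1 Ext.none :=
  certFK0 (fam := true) (s1 := true) (s2 := true) (a := 0) (b := 2) (c := 3) (cn := .up) (n1 := ndF0q0) (n2 := ndF4q2) (pc := pcF3) (cut := cut_A04pp_023_s1) (xt := Ext.none) (P1 := 0) (W1 := 536870912) (P2 := 1073741824) (W2 := 536870912) (P3 := 33554432) (W3 := 16777216)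
    rfl rfl rfl k0_A04pp_023_s1

theorem s_A04pp_023_s1 {κ x : ℝ} (hκ : κ * h0 = ken x) (hx : ((33554432 : ℕ) : ℝ) / S ≤ x)
    (hx' : x ≤ (((33554432 : ℕ) : ℝ) + (16777216 : ℕ)) / S) :
    AltA (VF κ) PP tKF tL pcF [⟨3, 0, 0, 1449551462⟩] 0 2 3 0 4 (sgb true) (sgb true) x :=
  strip_altA (m := 1449551462) true rfl hκ covF00 covF42 hx hx' c_A04pp_023_s1 cutA_nil (noExt_A)

noncomputable def cut_A04pp_033_s1 : Cut := Cut.of [[⟨4, 0, 0, 1449551462⟩]]

noncomputable def f_A04pp_033_s1 : ℕ → ℕ → ℕ → ℕ → Bool := onCell 0 536870912 0 1230186008 33554432 16777216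
    (rowFK 0 true true true .pnn 0 3 3 (qsf 0 536870912 0 1230186008 3) ndF0q0 ndF4q3 pcF3 cut_A04pp_033_s1 Ext.none)

def k0_A04pp_033_s1 : ∃ t, chk3 f_A04pp_033_s1 t 1 1 1 = true :=
  ⟨(l 4), by decide +kernel⟩

theorem c_A04pp_033_s1 : CertF 0 536870912 0 1230186008 33554432 16777216 true true true .pnn 0 3 3
    ndF0q0 ndF4q3 pcF3 cut_A04pp_033_s1 Ext.none :=
  certFK0 (fam := true) (s1 := true) (s2 := true) (a := 0) (b := 3) (c := 3) (cn := .pnn) (n1 := ndF0q0) (n2 := ndF4q3) (pc := pcF3) (cut := cut_A04pp_033_s1) (xt := Ext.none) (P1 := 0) (W1 := 536870912) (P2 := 0) (W2 := 1230186008) (P3 := 33554432) (W3 := 16777216)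
    rfl rfl rfl k0_A04pp_033_s1

theorem s_A04pp_033_s1 {κ x : ℝ} (hκ : κ * h0 = ken x) (hx : ((33554432 : ℕ) : ℝ) / S ≤ x)
    (hx' : x ≤ (((33554432 : ℕ) : ℝ) + (16777216 : ℕ)) / S) :
    AltA (VF κ) PP tKF tL pcF [⟨3, 0, 0, 1449551462⟩] 0 3 3 0 4 (sgb true) (sgb true) x :=
  strip_altA (m := 1449551462) true rfl hκ covF00 covF43 hx hx' c_A04pp_033_s1 cutA_nil (noExt_A)

noncomputable def cut_A04pp_101_s1 : Cut := Cut.of [[⟨4, 0, 0, 1449551462⟩]]

noncomputable def f_A04pp_101_s1 : ℕ → ℕ → ℕ → ℕ → Bool := onCell 536870912 536870912 0 536870912 33554432 16777216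
    (rowFK 0 true true true .npn 1 0 1 (qsf 536870912 536870912 0 536870912 1) ndF0q1 ndF4q0 pcF1 cut_A04pp_101_s1 Ext.none)

def k0_A04pp_101_s1 : ∃ t, chk3 f_A04pp_101_s1 t 1 1 1 = true :=
  ⟨(l 4), by decide +kernel⟩

theorem c_A04pp_101_s1 : CertF 536870912 536870912 0 536870912 33554432 16777216 true true true .npn 1 0 1
    ndF0q1 ndF4q0 pcF1 cut_A04pp_101_s1 Ext.none :=
  certFK0 (fam := true) (s1 := true) (s2 := true) (a := 1) (b := 0) (c := 1) (cn := .npn) (n1 := ndF0q1) (n2 := ndF4q0) (pc := pcF1) (cut := cut_A04pp_101_s1) (xt := Ext.none) (P1 := 536870912) (W1 := 536870912) (P2 := 0) (W2 := 536870912) (P3 := 33554432) (W3 := 16777216)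
    rfl rfl rfl k0_A04pp_101_s1

theorem s_A04pp_101_s1 {κ x : ℝ} (hκ : κ * h0 = ken x) (hx : ((33554432 : ℕ) : ℝ) / S ≤ x)
    (hx' : x ≤ (((33554432 : ℕ) : ℝ) + (16777216 : ℕ)) / S) :
    AltA (VF κ) PP tKF tL pcF [⟨3, 0, 0, 1449551462⟩] 1 0 1 0 4 (sgb true) (sgb true) x :=
  strip_altA (m := 1449551462) true rfl hκ covF01 covF40 hx hx' c_A04pp_101_s1 cutA_nil (noExt_A)

noncomputable def cut_A04pp_102_s1 : Cut := Cut.of [[⟨4, 0, 0, 1449551462⟩]]

noncomputable def f_A04pp_102_s1 : ℕ → ℕ → ℕ → ℕ → Bool := onCell 536870912 536870912 0 536870912 33554432 16777216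
    (rowFK 0 true true true .npp 1 0 2 (qsf 536870912 536870912 0 536870912 2) ndF0q1 ndF4q0 pcF2 cut_A04pp_102_s1 Ext.none)

def k0_A04pp_102_s1 : ∃ t, chk3 f_A04pp_102_s1 t 1 1 1 = true :=
  ⟨(l 4), by decide +kernel⟩

theorem c_A04pp_102_s1 : CertF 536870912 536870912 0 536870912 33554432 16777216 true true true .npp 1 0 2
    ndF0q1 ndF4q0 pcF2 cut_A04pp_102_s1 Ext.none :=
  certFK0 (fam := true) (s1 := true) (s2 := true) (a := 1) (b := 0) (c := 2) (cn := .npp) (n1 := ndF0q1) (n2 := ndF4q0) (pc := pcF2) (cut := cut_A04pp_102_s1) (xt := Ext.none) (P1 := 536870912) (W1 := 536870912) (P2 := 0) (W2 := 536870912) (P3 := 33554432) (W3 := 16777216)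
    rfl rfl rfl k0_A04pp_102_s1

theorem s_A04pp_102_s1 {κ x : ℝ} (hκ : κ * h0 = ken x) (hx : ((33554432 : ℕ) : ℝ) / S ≤ x)
    (hx' : x ≤ (((33554432 : ℕ) : ℝ) + (16777216 : ℕ)) / S) :
    AltA (VF κ) PP tKF tL pcF [⟨3, 0, 0, 1449551462⟩] 1 0 2 0 4 (sgb true) (sgb true) x :=
  strip_altA (m := 1449551462) true rfl hκ covF01 covF40 hx hx' c_A04pp_102_s1 cutA_nil (noExt_A)

noncomputable def cut_A04pp_112_s1 : Cut := Cut.of [[⟨4, 0, 0, 1449551462⟩]]

noncomputable def f_A04pp_112_s1 : ℕ → ℕ → ℕ → ℕ → Bool := onCell 536870912 536870912 536870912 536870912 33554432 16777216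
    (rowFK 0 true true true .dn 1 1 2 (qsf 536870912 536870912 536870912 536870912 2) ndF0q1 ndF4q1 pcF2 cut_A04pp_112_s1 Ext.none)

def k0_A04pp_112_s1 : ∃ t, chk3 f_A04pp_112_s1 t 1 1 1 = true :=
  ⟨(l 4), by decide +kernel⟩

theorem c_A04pp_112_s1 : CertF 536870912 536870912 536870912 536870912 33554432 16777216 true true true .dn 1 1 2
    ndF0q1 ndF4q1 pcF2 cut_A04pp_112_s1 Ext.none :=
  certFK0 (fam := true) (s1 := true) (s2 := true) (a := 1) (b := 1) (c := 2) (cn := .dn) (n1 := ndF0q1) (n2 := ndF4q1) (pc := pcF2) (cut := cut_A04pp_112_s1) (xt := Ext.none) (P1 := 536870912) (W1 := 536870912) (P2 := 536870912) (W2 := 536870912) (P3 := 33554432) (W3 := 16777216)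
    rfl rfl rfl k0_A04pp_112_s1

theorem s_A04pp_112_s1 {κ x : ℝ} (hκ : κ * h0 = ken x) (hx : ((33554432 : ℕ) : ℝ) / S ≤ x)
    (hx' : x ≤ (((33554432 : ℕ) : ℝ) + (16777216 : ℕ)) / S) :
    AltA (VF κ) PP tKF tL pcF [⟨3, 0, 0, 1449551462⟩] 1 1 2 0 4 (sgb true) (sgb true) x :=
  strip_altA (m := 1449551462) true rfl hκ covF01 covF41 hx hx' c_A04pp_112_s1 cutA_nil (noExt_A)

noncomputable def cut_A04pp_113_s1 : Cut := Cut.of [[⟨4, 0, 0, 1449551462⟩]]

noncomputable def f_A04pp_113_s1 : ℕ → ℕ → ℕ → ℕ → Bool := onCell 536870912 536870912 536870912 536870912 33554432 16777216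
    (rowFK 0 true true true .nn 1 1 3 (qsf 536870912 536870912 536870912 536870912 3) ndF0q1 ndF4q1 pcF3 cut_A04pp_113_s1 Ext.none)

def k0_A04pp_113_s1 : ∃ t, chk3 f_A04pp_113_s1 t 1 1 1 = true :=
  ⟨(l 4), by decide +kernel⟩

theorem c_A04pp_113_s1 : CertF 536870912 536870912 536870912 536870912 33554432 16777216 true true true .nn 1 1 3
    ndF0q1 ndF4q1 pcF3 cut_A04pp_113_s1 Ext.none :=
  certFK0 (fam := true) (s1 := true) (s2 := true) (a := 1) (b := 1) (c := 3) (cn := .nn) (n1 := ndF0q1) (n2 := ndF4q1) (pc := pcF3) (cut := cut_A04pp_113_s1) (xt := Ext.none) (P1 := 536870912) (W1 := 536870912) (P2 := 536870912) (W2 := 536870912) (P3 := 33554432) (W3 := 16777216)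
    rfl rfl rfl k0_A04pp_113_s1

theorem s_A04pp_113_s1 {κ x : ℝ} (hκ : κ * h0 = ken x) (hx : ((33554432 : ℕ) : ℝ) / S ≤ x)
    (hx' : x ≤ (((33554432 : ℕ) : ℝ) + (16777216 : ℕ)) / S) :
    AltA (VF κ) PP tKF tL pcF [⟨3, 0, 0, 1449551462⟩] 1 1 3 0 4 (sgb true) (sgb true) x :=
  strip_altA (m := 1449551462) true rfl hκ covF01 covF41 hx hx' c_A04pp_113_s1 cutA_nil (noExt_A)

noncomputable def cut_A04pp_123_s1 : Cut := Cut.of [[⟨4, 0, 0, 1449551462⟩]]

noncomputable def f_A04pp_123_s1 : ℕ → ℕ → ℕ → ℕ → Bool := onCell 536870912 536870912 1073741824 536870912 33554432 16777216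
    (rowFK 0 true true true .npn 1 2 3 (qsf 536870912 536870912 1073741824 536870912 3) ndF0q1 ndF4q2 pcF3 cut_A04pp_123_s1 Ext.none)

def k0_A04pp_123_s1 : ∃ t, chk3 f_A04pp_123_s1 t 1 1 1 = true :=
  ⟨(l 4), by decide +kernel⟩

theorem c_A04pp_123_s1 : CertF 536870912 536870912 1073741824 536870912 33554432 16777216 true true true .npn 1 2 3
    ndF0q1 ndF4q2 pcF3 cut_A04pp_123_s1 Ext.none :=
  certFK0 (fam := true) (s1 := true) (s2 := true) (a := 1) (b := 2) (c := 3) (cn := .npn) (n1 := ndF0q1) (n2 := ndF4q2) (pc := pcF3) (cut := cut_A04pp_123_s1) (xt := Ext.none) (P1 := 536870912) (W1 := 536870912) (P2 := 1073741824) (W2 := 536870912) (P3 := 33554432) (W3 := 16777216)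
    rfl rfl rfl k0_A04pp_123_s1

theorem s_A04pp_123_s1 {κ x : ℝ} (hκ : κ * h0 = ken x) (hx : ((33554432 : ℕ) : ℝ) / S ≤ x)
    (hx' : x ≤ (((33554432 : ℕ) : ℝ) + (16777216 : ℕ)) / S) :
    AltA (VF κ) PP tKF tL pcF [⟨3, 0, 0, 1449551462⟩] 1 2 3 0 4 (sgb true) (sgb true) x :=
  strip_altA (m := 1449551462) true rfl hκ covF01 covF42 hx hx' c_A04pp_123_s1 cutA_nil (noExt_A)

noncomputable def cut_A04pp_133_s1 : Cut := Cut.of [[⟨4, 0, 0, 1449551462⟩]]

noncomputable def f_A04pp_133_s1 : ℕ → ℕ → ℕ → ℕ → Bool := onCell 536870912 536870912 0 1230186008 33554432 16777216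
    (rowFK 0 true true true .dn 1 3 3 (qsf 536870912 536870912 0 1230186008 3) ndF0q1 ndF4q3 pcF3 cut_A04pp_133_s1 Ext.none)

def k0_A04pp_133_s1 : ∃ t, chk3 f_A04pp_133_s1 t 1 1 1 = true :=
  ⟨(l 4), by decide +kernel⟩

theorem c_A04pp_133_s1 : CertF 536870912 536870912 0 1230186008 33554432 16777216 true true true .dn 1 3 3
    ndF0q1 ndF4q3 pcF3 cut_A04pp_133_s1 Ext.none :=
  certFK0 (fam := true) (s1 := true) (s2 := true) (a := 1) (b := 3) (c := 3) (cn := .dn) (n1 := ndF0q1) (n2 := ndF4q3) (pc := pcF3) (cut := cut_A04pp_133_s1) (xt := Ext.none) (P1 := 536870912) (W1 := 536870912) (P2 := 0) (W2 := 1230186008) (P3 := 33554432) (W3 := 16777216)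
    rfl rfl rfl k0_A04pp_133_s1

theorem s_A04pp_133_s1 {κ x : ℝ} (hκ : κ * h0 = ken x) (hx : ((33554432 : ℕ) : ℝ) / S ≤ x)
    (hx' : x ≤ (((33554432 : ℕ) : ℝ) + (16777216 : ℕ)) / S) :
    AltA (VF κ) PP tKF tL pcF [⟨3, 0, 0, 1449551462⟩] 1 3 3 0 4 (sgb true) (sgb true) x :=
  strip_altA (m := 1449551462) true rfl hκ covF01 covF43 hx hx' c_A04pp_133_s1 cutA_nil (noExt_A)

noncomputable def cut_A04pp_202_s1 : Cut := Cut.of [[⟨4, 0, 0, 1449551462⟩]]

noncomputable def f_A04pp_202_s1 : ℕ → ℕ → ℕ → ℕ → Bool := onCell 0 536870912 0 536870912 33554432 16777216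
    (rowFK 0 true true true .pp 2 0 2 (qsf 0 536870912 0 536870912 2) ndF0q2 ndF4q0 pcF2 cut_A04pp_202_s1 Ext.none)

def k0_A04pp_202_s1 : ∃ t, chk3 f_A04pp_202_s1 t 1 1 1 = true :=
  ⟨(l 4), by decide +kernel⟩

theorem c_A04pp_202_s1 : CertF 0 536870912 0 536870912 33554432 16777216 true true true .pp 2 0 2
    ndF0q2 ndF4q0 pcF2 cut_A04pp_202_s1 Ext.none :=
  certFK0 (fam := true) (s1 := true) (s2 := true) (a := 2) (b := 0) (c := 2) (cn := .pp) (n1 := ndF0q2) (n2 := ndF4q0) (pc := pcF2) (cut := cut_A04pp_202_s1) (xt := Ext.none) (P1 := 0) (W1 := 536870912) (P2 := 0) (W2 := 536870912) (P3 := 33554432) (W3 := 16777216)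
    rfl rfl rfl k0_A04pp_202_s1

theorem s_A04pp_202_s1 {κ x : ℝ} (hκ : κ * h0 = ken x) (hx : ((33554432 : ℕ) : ℝ) / S ≤ x)
    (hx' : x ≤ (((33554432 : ℕ) : ℝ) + (16777216 : ℕ)) / S) :
    AltA (VF κ) PP tKF tL pcF [⟨3, 0, 0, 1449551462⟩] 2 0 2 0 4 (sgb true) (sgb true) x :=
  strip_altA (m := 1449551462) true rfl hκ covF02 covF40 hx hx' c_A04pp_202_s1 cutA_nil (noExt_A)

noncomputable def cut_A04pp_203_s1 : Cut := Cut.of [[⟨4, 0, 0, 1449551462⟩]]

noncomputable def f_A04pp_203_s1 : ℕ → ℕ → ℕ → ℕ → Bool := onCell 0 536870912 0 536870912 33554432 16777216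
    (rowFK 0 true true true .up 2 0 3 (qsf 0 536870912 0 536870912 3) ndF0q2 ndF4q0 pcF3 cut_A04pp_203_s1 Ext.none)

def k0_A04pp_203_s1 : ∃ t, chk3 f_A04pp_203_s1 t 1 1 1 = true :=
  ⟨(l 4), by decide +kernel⟩

theorem c_A04pp_203_s1 : CertF 0 536870912 0 536870912 33554432 16777216 true true true .up 2 0 3
    ndF0q2 ndF4q0 pcF3 cut_A04pp_203_s1 Ext.none :=
  certFK0 (fam := true) (s1 := true) (s2 := true) (a := 2) (b := 0) (c := 3) (cn := .up) (n1 := ndF0q2) (n2 := ndF4q0) (pc := pcF3) (cut := cut_A04pp_203_s1) (xt := Ext.none) (P1 := 0) (W1 := 536870912) (P2 := 0) (W2 := 536870912) (P3 := 33554432) (W3 := 16777216)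
    rfl rfl rfl k0_A04pp_203_s1

theorem s_A04pp_203_s1 {κ x : ℝ} (hκ : κ * h0 = ken x) (hx : ((33554432 : ℕ) : ℝ) / S ≤ x)
    (hx' : x ≤ (((33554432 : ℕ) : ℝ) + (16777216 : ℕ)) / S) :
    AltA (VF κ) PP tKF tL pcF [⟨3, 0, 0, 1449551462⟩] 2 0 3 0 4 (sgb true) (sgb true) x :=
  strip_altA (m := 1449551462) true rfl hκ covF02 covF40 hx hx' c_A04pp_203_s1 cutA_nil (noExt_A)

noncomputable def cut_A04pp_213_s1 : Cut := Cut.of [[⟨4, 0, 0, 1449551462⟩]]

noncomputable def f_A04pp_213_s1 : ℕ → ℕ → ℕ → ℕ → Bool := onCell 0 536870912 536870912 536870912 33554432 16777216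
    (rowFK 0 true true true .pnn 2 1 3 (qsf 0 536870912 536870912 536870912 3) ndF0q2 ndF4q1 pcF3 cut_A04pp_213_s1 Ext.none)

def k0_A04pp_213_s1 : ∃ t, chk3 f_A04pp_213_s1 t 1 1 1 = true :=
  ⟨(l 4), by decide +kernel⟩

theorem c_A04pp_213_s1 : CertF 0 536870912 536870912 536870912 33554432 16777216 true true true .pnn 2 1 3
    ndF0q2 ndF4q1 pcF3 cut_A04pp_213_s1 Ext.none :=
  certFK0 (fam := true) (s1 := true) (s2 := true) (a := 2) (b := 1) (c := 3) (cn := .pnn) (n1 := ndF0q2) (n2 := ndF4q1) (pc := pcF3) (cut := cut_A04pp_213_s1) (xt := Ext.none) (P1 := 0) (W1 := 536870912) (P2 := 536870912) (W2 := 536870912) (P3 := 33554432) (W3 := 16777216)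
    rfl rfl rfl k0_A04pp_213_s1

theorem s_A04pp_213_s1 {κ x : ℝ} (hκ : κ * h0 = ken x) (hx : ((33554432 : ℕ) : ℝ) / S ≤ x)
    (hx' : x ≤ (((33554432 : ℕ) : ℝ) + (16777216 : ℕ)) / S) :
    AltA (VF κ) PP tKF tL pcF [⟨3, 0, 0, 1449551462⟩] 2 1 3 0 4 (sgb true) (sgb true) x :=
  strip_altA (m := 1449551462) true rfl hκ covF02 covF41 hx hx' c_A04pp_213_s1 cutA_nil (noExt_A)

noncomputable def cut_A04pm_001_s1 : Cut := Cut.of [[⟨4, 0, 0, 1449551462⟩]]

noncomputable def xt_A04pm_001_s1 : Ext := strExt dd true true false .u0 .s0m .u0m .up 0 0 1 rfl rfl gf1 vv ndF0q0 ndF4q0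

noncomputable def f_A04pm_001_s1 : ℕ → ℕ → ℕ → ℕ → Bool := onCell 0 536870912 536870912 536870912 33554432 16777216
    (rowFK 1 true true false .up 0 0 1 (qsf 0 536870912 0 536870912 1) ndF0q0 ndF4q0 pcF1 cut_A04pm_001_s1 xt_A04pm_001_s1)

def k0_A04pm_001_s1 : ∃ t, chk3 f_A04pm_001_s1 t 1 1 1 = true :=
  ⟨(a (b (l 3) (b (b (l 3) (l 2)) (l 2))) (b (b (l 3) (a (l 3) (b (a (l 3) (b (l 567204879) (l 559332111))) (a (a (l 553073423) (l 550629391)) (l 554502927))))) (b (a (a (b (b (l 3) (l 587453455)) (a (l 2) (l 591231247))) (b (b (l 568106511) (l 572915727)) (b (l 578664975) (l 17485296)))) (b (a (a (l 562730511) (l 17223928)) (l 17405352)) (b (l 17682592) (l 17806160)))) (a (b (a (l 2) (l 18150824)) (l 2)) (b (a (l 17780400) (l 17795904)) (a (l 18281048) (l 18193696))))))), by decide +kernel⟩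

theorem c_A04pm_001_s1 : CertF 0 536870912 0 536870912 33554432 16777216 true true false .up 0 0 1
    ndF0q0 ndF4q0 pcF1 cut_A04pm_001_s1 xt_A04pm_001_s1 :=
  certFK1 (fam := true) (s1 := true) (s2 := false) (a := 0) (b := 0) (c := 1) (cn := .up) (n1 := ndF0q0) (n2 := ndF4q0) (pc := pcF1) (cut := cut_A04pm_001_s1) (xt := xt_A04pm_001_s1) (P1 := 0) (W1 := 536870912) (P2 := 0) (W2 := 536870912) (P3 := 33554432) (W3 := 16777216)
    rfl rfl rfl (fun _ => rfl) k0_A04pm_001_s1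

theorem s_A04pm_001_s1 {κ x : ℝ} (hκ : κ * h0 = ken x) (hx : ((33554432 : ℕ) : ℝ) / S ≤ x)
    (hx' : x ≤ (((33554432 : ℕ) : ℝ) + (16777216 : ℕ)) / S) :
    AltA (VF κ) PP tKF tL pcF [⟨3, 0, 0, 1449551462⟩] 0 0 1 0 4 (sgb true) (sgb false) x :=
  strip_altA (m := 1449551462) true rfl hκ covF00 covF40 hx hx' c_A04pm_001_s1 cutA_nil ((okx hx hx').extA (T := tt) (sideF hx hx') hκ rfl rfl (.O 0 true) (.N 0 false) (Or.inr rfl))

noncomputable def cut_A04pm_011_s1 : Cut := Cut.of [[⟨4, 0, 0, 1449551462⟩], [⟨0, 0, 0, 16777216⟩, ⟨1, 1, 0, 16777216⟩, ⟨2, 1, 0, 16777216⟩]]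

noncomputable def xt_A04pm_011_s1 : Ext := strExt dd true true false .u0 .s0m .u0m .pnn 0 1 1 rfl rfl gf1 vv ndF0q0 ndF4q1

noncomputable def f_A04pm_011_s1 : ℕ → ℕ → ℕ → ℕ → Bool := onCell 0 536870912 536870912 536870912 33554432 16777216
    (rowFK 1 true true false .pnn 0 1 1 (qsf 0 536870912 536870912 536870912 1) ndF0q0 ndF4q1 pcF1 cut_A04pm_011_s1 xt_A04pm_011_s1)

def k0_A04pm_011_s1 : ∃ t, chk3 f_A04pm_011_s1 t 1 2 1 = true :=
  ⟨(a (l 3) (a (a (l 3) (l 1)) (l 1))), by decide +kernel⟩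

def k1_A04pm_011_s1 : ∃ t, chk3 f_A04pm_011_s1 t 1 6 1 = true :=
  ⟨(a (b (l 3) (a (l 3) (a (l 3) (a (l 610359823) (l 604234255))))) (a (a (b (b (l 3) (l 587446031)) (a (l 598089487) (l 591213327))) (b (b (l 1) (l 572910863)) (b (l 578656271) (l 17482824)))) (b (l 1) (l 250217577431)))), by decide +kernel⟩

def k2_A04pm_011_s1 : ∃ t, chk3 f_A04pm_011_s1 t 2 14 1 = true :=
  ⟨(a (b (l 3) (a (l 3) (a (l 3) (l 642322447)))) (a (b (a (l 3) (l 619342095)) (l 627045391)) (b (l 612272655) (a (l 615217935) (l 17710024))))), by decide +kernel⟩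

def k3_A04pm_011_s1 : ∃ t, chk3 f_A04pm_011_s1 t 4 30 1 = true :=
  ⟨(a (b (l 3) (a (l 3) (a (l 3) (a (l 3) (l 684034575))))) (a (a (a (l 676022031) (l 671226895)) (l 664542991)) (b (l 649474063) (l 655290895)))), by decide +kernel⟩

def k4_A04pm_011_s1 : ∃ t, chk3 f_A04pm_011_s1 t 8 62 1 = true :=
  ⟨(a (b (l 3) (b (l 3) (a (l 3) (a (l 3) (a (l 3) (a (l 3) (a (l 3) (b (l 3) (c (l 662828815) (l 574049807)))))))))) (b (a (a (l 3) (a (l 3) (l 687738383))) (a (l 689109007) (l 687612431))) (a (a (a (b (l 3) (b (c (l 682568719) (a (l 3) (l 613766159))) (c (l 674854415) (a (c (l 607647503) (l 565870607)) (l 601318671))))) (c (l 695434511) (b (l 639608591) (a (l 618006543) (l 628595983))))) (c (a (l 701258255) (l 704451087)) (a (b (l 652145423) (l 640233231)) (l 656281615)))) (a (c (l 706262287) (l 665682447)) (l 687850255))))), by decide +kernel⟩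

def k5_A04pm_011_s1 : ∃ t, chk3 f_A04pm_011_s1 t 16 126 1 = true :=
  ⟨(b (a (l 3) (a (a (l 3) (a (l 3) (b (l 3) (a (l 3) (l 524769551))))) (a (a (b (l 3) (a (l 524738575) (l 524713999))) (a (b (l 3) (l 524744463)) (b (b (l 3) (l 553690127)) (l 532079119)))) (c (c (a (b (l 658793999) (l 642160399)) (l 665605903)) (a (b (l 604120591) (a (l 577000207) (l 588929551))) (b (l 622667535) (l 604745743)))) (a (b (l 524982543) (l 525149967)) (b (l 548747279) (l 525206543))))))) (b (a (l 3) (a (a (a (l 3) (a (l 3) (l 525032463))) (a (a (a (l 524475151) (l 524470799)) (l 525030671)) (a (l 525063183) (l 524826895)))) (a (a (a (l 524858127) (l 524889103)) (a (l 524919311) (l 524680719))) (b (a (l 532011535) (c (c (l 646398991) (l 588815631)) (l 525068303))) (a (l 525303567) (l 545834255)))))) (a (a (l 3) (a (l 3) (a (l 3) (a (l 3) (b (l 3) (l 525590031)))))) (a (a (a (a (b (l 3) (l 525357327)) (c (l 525156879) (l 525276431)))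 (a (c (l 525044751) (l 525176591)) (l 525212431))) (a (a (l 525178895) (l 525211919)) (a (l 525244431) (l 525007887)))) (a (a (a (l 525039375) (l 525070095)) (a (l 525100303) (l 524861711))) (a (a (l 524890895) (l 524919311)) (a (l 524947471) (l 531856399)))))))), by decide +kernel⟩

def k6_A04pm_011_s1 : ∃ t, chk3 f_A04pm_011_s1 t 32 127 1 = true :=
  ⟨(b (b (a (l 3) (a (a (l 3) (a (l 3) (a (l 3) (l 525326351)))) (a (a (a (l 525076751) (l 525095183)) (a (l 525113871) (l 524863503))) (a (c (l 525895439) (l 526025743)) (l 525997583))))) (a (l 14) (a (a (b (b (l 3) (l 14)) (l 14)) (a (a (b (l 525414415) (l 14)) (a (l 524940559) (l 524950031))) (a (a (l 524959503) (l 524968975)) (l 525518607)))) (a (a (a (l 525537551) (l 525287695)) (a (l 525305871) (l 525324303))) (a (a (l 525342223) (l 525091599)) (a (l 525109519) (l 525126927))))))) (a (l 14) (b (a (a (l 14) (a (l 14) (a (l 14) (b (l 525401103) (l 14))))) (a (a (a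 (a (l 525196559) (l 525205775)) (b (l 525169679) (l 525271311))) (a (b (l 525188111) (l 525289487)) (l 525523727))) (a (b (l 526303759) (l 526136847)) (b (l 525802511) (l 525903887))))) (a (l 14) (a (a (l 14) (b (b (l 526446607) (l 14)) (l 14))) (a (b (l 526240015) (b (l 526319119) (l 14))) (b (l 526007055) (l 526380559)))))))), by decide +kernel⟩

def k7_A04pm_011_s1 : ∃ t, chk3 f_A04pm_011_s1 t 33 127 1 = true :=
  ⟨(a (a (a (a (b (b (l 525764623) (l 525955855)) (b (b (l 525837583) (l 525938959)) (b (l 526042127) (l 526147087)))) (b (b (a (l 524987919) (l 525005327)) (l 525722639)) (b (b (l 525603855) (l 525704975)) (b (l 525808143) (l 525913103))))) (a (b (b (b (l 525252111) (l 525346063)) (l 525757199)) (b (l 525955599) (b (l 525573903) (l 525678607)))) (b (a (b (l 524788495) (l 524979471)) (b (l 524805135) (l 524996367))) (b (l 525721103) (b (l 525607439) (l 525712143)))))) (a (b (b (a (l 525365519) (l 525264399))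 (a (b (l 525241103) (l 525338383)) (b (l 525274127) (l 525371407)))) (b (a (l 525754639) (a (l 525244175) (l 525260559))) (b (a (l 525640719) (l 525404943)) (a (l 525745167) (l 525509391))))) (a (b (b (l 525162511) (l 525488143)) (b (b (l 525234191) (l 525334799)) (l 525890831))) (b (b (l 525194511) (l 525385999)) (b (b (l 525266191) (l 525366799)) (b (l 525469199) (l 525573391))))))) (a (a (a (b (b (l 525225743) (b (l 525101327) (l 525198607))) (b (b (l 525297423) (l 525398031)) (b (l 525500431) (l 525604367)))) (b (b (l 525256719) (l 525448207)) (b (l 525645839) (b (l 525262607) (l 525635087))))) (b (b (a (l 525018383) (l 525048079)) (a (l 525478415) (l 525239567))) (a (b (l 525676047) (b (l 16765192) (l 525396751))) (b (l 525705743) (b (l 16764280) (l 525426447)))))) (a (b (b (a (l 525077263) (l 525105679)) (a (l 525268751) (l 525297423))) (b (a (l 525466383) (l 525495055)) (b (l 526168079) (a (l 525455375) (l 525483791)))))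 (b (b (a (l 525133839) (l 525161231)) (a (l 525325327) (l 525352719))) (a (b (l 525522959) (b (l 16772048) (l 16759944))) (b (l 525550351) (l 527096847))))))), by decide +kernel⟩

def k8_A04pm_011_s1 : ∃ t, chk3 f_A04pm_011_s1 t 34 126 1 = true :=
  ⟨(a (c (b (a (a (b (l 659866127) (l 647061007)) (l 665089551)) (a (l 674252815) (l 681656335))) (a (c (a (b (l 658243855) (l 641611023)) (l 665003023)) (a (b (l 604534031) (a (l 576644879) (l 588533519))) (b (l 622210063) (l 604290063)))) (a (b (l 16850744) (l 646477839)) (l 664471567)))) (a (b (a (b (c (l 591963663) (l 546704911)) (l 548640271)) (b (l 585266959) (c (l 591786511) (l 546592271)))) (a (b (l 525165327) (l 525344271)) (b (l 548500239) (l 525395983)))) (b (a (b (l 601141519) (c (l 607262735) (l 565605135))) (b (l 613387535) (l 600940047))) (a (b (b (l 16779600) (l 16772584)) (l 548326159)) (b (c (l 607031311) (l 565430031)) (b (l 16797368) (l 16785664)))))))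 (c (a (b (l 690233615) (l 677603343)) (l 694083599)) (b (a (c (l 640307983) (a (l 601426959) (l 612092431))) (l 639719951)) (a (a (b (l 600713487) (a (l 16779304) (l 16798824))) (b (l 16829840) (l 16828072))) (c (l 639725327) (a (l 600963855) (l 611597071))))))), by decide +kernel⟩

def k9_A04pm_011_s1 : ∃ t, chk3 f_A04pm_011_s1 t 34 127 1 = true :=
  ⟨(b (b (a (a (a (a (l 525188111) (l 531682319)) (b (l 16773616) (l 16773584))) (a (b (l 16778096) (l 16763240)) (b (l 16782288) (l 16772752)))) (a (c (l 16951056) (a (c (l 16816560) (l 546063119)) (l 16791768))) (a (l 16875280) (l 16918848)))) (a (a (b (a (l 525611279) (l 16766480)) (a (l 525708559) (l 16772904))) (a (b (l 16784336) (l 16756680)) (b (l 16800088) (l 16779712)))) (a (a (c (l 16976328) (l 547874575)) (c (l 17113280) (l 16769880))) (c (l 17188056) (a (l 16836152) (l 16889360)))))) (b (a (a (a (b (l 525807375) (l 16760936)) (b (l 16771240) (l 16769600))) (a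 (b (l 16763208) (l 16767792)) (b (l 16752808) (l 16760400)))) (a (b (c (l 16917144) (l 16771192)) (c (l 16910048) (l 16754904))) (c (l 17116608) (a (l 16795016) (l 16859240))))) (b (a (a (a (l 16769800) (l 16768008)) (a (l 16766224) (l 16759544))) (a (c (l 16897680) (l 16761968)) (c (l 17200872) (l 16787280)))) (a (a (a (l 526382095) (l 526165263)) (a (l 16764680) (l 16762928))) (a (a (l 16763704) (l 16769640)) (c (l 17112064) (l 16763088))))))), by decide +kernel⟩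

def k10_A04pm_011_s1 : ∃ t, chk3 f_A04pm_011_s1 t 35 63 1 = true :=
  ⟨(a (c (b (l 702072335) (a (b (l 17263744) (l 675164175)) (l 692467215))) (b (a (b (l 651098895) (l 639137551)) (l 655149327)) (a (b (b (l 16968024) (l 16964576)) (a (b (l 16919560) (l 16798064)) (b (l 17060184) (l 16949400)))) (b (l 638481679) (b (l 17139216) (l 16958008)))))) (b (a (l 683059215) (l 17178280)) (b (l 17099864) (b (l 17313688) (l 17169264))))), by decide +kernel⟩

def k11_A04pm_011_s1 : ∃ t, chk3 f_A04pm_011_s1 t 9 31 1 = true :=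
  ⟨(a (b (a (a (l 685439759) (l 681701135)) (l 675360527)) (a (a (b (l 17259960) (c (l 17622824) (l 662955279))) (l 685330191)) (l 681504015))) (b (l 661932047) (a (l 17816464) (l 17932768)))), by decide +kernel⟩

def k12_A04pm_011_s1 : ∃ t, chk3 f_A04pm_011_s1 t 5 15 1 = true :=
  ⟨(a (b (a (l 637849871) (l 626769679)) (a (l 647734799) (l 17888128))) (b (a (l 17856288) (l 17859240)) (l 18258872))), by decide +kernel⟩

def k13_A04pm_011_s1 : ∃ t, chk3 f_A04pm_011_s1 t 3 7 1 = true :=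
  ⟨(a (b (a (b (l 598409743) (l 17862432)) (l 18059432)) (b (l 18628728) (l 18657384))) (b (a (l 17773944) (l 17789848)) (l 18644256))), by decide +kernel⟩

theorem t14_A04pm_011_s1 : ∃ t, chk3 f_A04pm_011_s1 t 34 63 1 = true := ex3_b k8_A04pm_011_s1 k9_A04pm_011_s1

theorem t15_A04pm_011_s1 : ∃ t, chk3 f_A04pm_011_s1 t 17 63 1 = true := ex3_a t14_A04pm_011_s1 k10_A04pm_011_s1

theorem t16_A04pm_011_s1 : ∃ t, chk3 f_A04pm_011_s1 t 16 127 1 = true := ex3_a k6_A04pm_011_s1 k7_A04pm_011_s1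

theorem t17_A04pm_011_s1 : ∃ t, chk3 f_A04pm_011_s1 t 16 63 1 = true := ex3_b k5_A04pm_011_s1 t16_A04pm_011_s1

theorem t18_A04pm_011_s1 : ∃ t, chk3 f_A04pm_011_s1 t 8 63 1 = true := ex3_a t17_A04pm_011_s1 t15_A04pm_011_s1

theorem t19_A04pm_011_s1 : ∃ t, chk3 f_A04pm_011_s1 t 8 31 1 = true := ex3_b k4_A04pm_011_s1 t18_A04pm_011_s1

theorem t20_A04pm_011_s1 : ∃ t, chk3 f_A04pm_011_s1 t 4 31 1 = true := ex3_a t19_A04pm_011_s1 k11_A04pm_011_s1

theorem t21_A04pm_011_s1 : ∃ t, chk3 f_A04pm_011_s1 t 4 15 1 = true := ex3_b k3_A04pm_011_s1 t20_A04pm_011_s1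

theorem t22_A04pm_011_s1 : ∃ t, chk3 f_A04pm_011_s1 t 2 15 1 = true := ex3_a t21_A04pm_011_s1 k12_A04pm_011_s1

theorem t23_A04pm_011_s1 : ∃ t, chk3 f_A04pm_011_s1 t 2 7 1 = true := ex3_b k2_A04pm_011_s1 t22_A04pm_011_s1

theorem t24_A04pm_011_s1 : ∃ t, chk3 f_A04pm_011_s1 t 1 7 1 = true := ex3_a t23_A04pm_011_s1 k13_A04pm_011_s1

theorem t25_A04pm_011_s1 : ∃ t, chk3 f_A04pm_011_s1 t 1 3 1 = true := ex3_b k1_A04pm_011_s1 t24_A04pm_011_s1

theorem t26_A04pm_011_s1 : ∃ t, chk3 f_A04pm_011_s1 t 1 1 1 = true := ex3_b k0_A04pm_011_s1 t25_A04pm_011_s1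

theorem c_A04pm_011_s1 : CertF 0 536870912 536870912 536870912 33554432 16777216 true true false .pnn 0 1 1
    ndF0q0 ndF4q1 pcF1 cut_A04pm_011_s1 xt_A04pm_011_s1 :=
  certFK1 (fam := true) (s1 := true) (s2 := false) (a := 0) (b := 1) (c := 1) (cn := .pnn) (n1 := ndF0q0) (n2 := ndF4q1) (pc := pcF1) (cut := cut_A04pm_011_s1) (xt := xt_A04pm_011_s1) (P1 := 0) (W1 := 536870912) (P2 := 536870912) (W2 := 536870912) (P3 := 33554432) (W3 := 16777216)
    rfl rfl rfl (fun _ => rfl) t26_A04pm_011_s1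

theorem s_A04pm_011_s1 {κ x : ℝ} (hκ : κ * h0 = ken x) (hx : ((33554432 : ℕ) : ℝ) / S ≤ x)
    (hx' : x ≤ (((33554432 : ℕ) : ℝ) + (16777216 : ℕ)) / S)
    (H : CutA (VF κ) PP tKF tL pcF (Cut.of [[⟨0, 0, 0, 16777216⟩, ⟨1, 1, 0, 16777216⟩, ⟨2, 1, 0, 16777216⟩]]) 0 1 1 0 4 (sgb true) (sgb false) x) :
    AltA (VF κ) PP tKF tL pcF [⟨3, 0, 0, 1449551462⟩] 0 1 1 0 4 (sgb true) (sgb false) x :=
  strip_altA (m := 1449551462) true rfl hκ covF00 covF41 hx hx' c_A04pm_011_s1 H ((okx hx hx').extA (T := tt) (sideF hx hx') hκ rfl rfl (.O 0 true) (.N 1 false) (Or.inr rfl))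

noncomputable def cut_A04pm_012_s1 : Cut := Cut.of [[⟨4, 0, 0, 1449551462⟩], [⟨0, 0, 0, 33554432⟩, ⟨1, 1, 0, 33554432⟩, ⟨2, 1, 0, 33554432⟩]]

noncomputable def f_A04pm_012_s1 : ℕ → ℕ → ℕ → ℕ → Bool := onCell 1073741824 536870912 536870912 536870912 33554432 16777216
    (rowFK 2 true true false .pnp 0 1 2 (qsf 0 536870912 536870912 536870912 2) ndF0q0 ndF4q1 pcF2 cut_A04pm_012_s1 Ext.none)

def k0_A04pm_012_s1 : ∃ t, chk3 f_A04pm_012_s1 t 2 2 1 = true :=
  ⟨(a (a (a (a (a (b (l 18615896) (l 18811680)) (b (l 18649248) (l 18858640))) (b (l 18676120) (l 18919528))) (b (l 18737472) (l 18985184))) (b (l 6) (l 19287400))) (b (l 6) (l 6))), by decide +kernel⟩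

def k1_A04pm_012_s1 : ∃ t, chk3 f_A04pm_012_s1 t 4 6 1 = true :=
  ⟨(a (a (a (a (b (l 18652808) (l 18447408)) (l 19178776)) (l 19335792)) (b (l 19098144) (l 19084968))) (b (l 19380888) (l 19504200))), by decide +kernel⟩

def k2_A04pm_012_s1 : ∃ t, chk3 f_A04pm_012_s1 t 64 14 1 = true :=
  ⟨(b (l 18219208) (b (l 18028240) (a (b (l 17817552) (l 17607416)) (l 17905440)))), by decide +kernel⟩

def k3_A04pm_012_s1 : ∃ t, chk3 f_A04pm_012_s1 t 64 30 1 = true :=
  ⟨(b (a (a (c (b (l 17635552) (l 17191928)) (b (l 17173160) (b (l 16918592) (a (l 16843832) (l 16972000))))) (b (l 17405776) (c (l 17541488) (b (l 17256968) (l 16956048))))) (b (l 17532288) (c (l 17686896) (a (l 16947408) (l 17289448))))) (b (a (a (c (b (a (l 17061552) (l 17197792)) (a (b (l 16946880) (l 16777208)) (a (l 16945848) (l 16973400)))) (a (a (b (l 16755448) (l 16758456)) (l 16749264)) (a (l 16751328) (l 16732856)))) (c (b (l 17277104) (a (l 17015128)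 (l 17071296))) (b (a (l 16858992) (l 16906920)) (a (l 16753632) (l 16803896))))) (a (b (c (l 17467048) (l 16896200)) (c (l 17156048) (l 16755656))) (c (l 17256288) (b (l 17079200) (l 16819976))))) (a (a (a (a (b (a (l 16763136) (l 16761984)) (a (l 16767104) (l 16765968))) (b (l 16760256) (l 16764256))) (b (b (l 16762984) (l 16757800)) (b (l 16759816) (l 16761816)))) (a (b (l 16760672) (a (b (l 16777336) (l 16779360)) (c (l 16784080) (l 16776008)))) (b (l 16774952) (a (c (l 16773968) (b (l 16772688) (l 16774736))) (b (l 16771528) (l 16773760)))))) (a (a (b (l 16790632) (l 16771648)) (b (c (l 17011512) (l 16808024)) (l 16770448))) (b (c (l 16935632) (l 16773656)) (a (l 16752672) (l 16734800))))))), by decide +kernel⟩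

def k4_A04pm_012_s1 : ∃ t, chk3 f_A04pm_012_s1 t 64 31 1 = true :=
  ⟨(b (a (b (b (b (a (a (a (l 16758992) (l 16767216)) (l 16763808)) (a (a (l 16781368) (l 16779088)) (a (b (l 16776288) (l 16777312)) (l 16775984)))) (a (a (l 14) (a (l 14) (l 16764656))) (a (a (l 16762392) (l 16781096)) (a (b (l 16778432) (l 16779552)) (l 16778216))))) (a (l 14) (a (l 14) (b (a (l 14) (l 16780448)) (l 14))))) (l 14)) (b (a (b (a (b (l 16774960) (l 16777168)) (b (l 16773728) (l 16775904))) (a (b (l 16758408) (l 14)) (b (l 16757112) (l 16759296)))) (b (a (l 16763096) (l 16772352)) (a (b (l 16734872) (l 16737024)) (b (l 16733592) (l 16735712))))) (b (a (l 14) (b (a (l 14) (l 16737840)) (l 14))) (l 14)))) (l 14)), by decide +kernel⟩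

def k5_A04pm_012_s1 : ∃ t, chk3 f_A04pm_012_s1 t 65 7 1 = true :=
  ⟨(b (b (l 18413320) (b (l 18268568) (l 18116792))) (b (b (b (l 17693648) (a (a (l 17478816) (l 17654136)) (l 17788072))) (b (c (a (l 17334432) (l 17878864)) (a (b (l 17061816) (a (l 16928248) (l 17120872))) (b (l 17511880) (l 17114688)))) (b (c (a (a (l 17226032) (l 17515200)) (l 17692792)) (a (a (l 16808080) (l 16843672)) (a (l 16962760) (l 17164344)))) (c (a (a (a (l 16997936) (l 17065536)) (l 17082352)) (a (l 17382288) (l 17595152))) (a (a (l 16765880) (l 16771728)) (a (l 16821280) (l 16869400))))))) (b (b (a (b (a (a (l 16770880) (l 16769344)) (b (l 16775096) (l 16726144))) (a (b (l 16752264) (a (l 16734176) (l 16732576))) (b (l 16770112) (l 16751168)))) (b (a (c (c (l 17410976) (l 16843288)) (l 16722032)) (c (l 17063240) (l 16772128))) (a (b (l 16725104) (l 16727080)) (a (l 16745472) (l 16747216))))) (a (b (a (b (a (l 16736272) (l 16734640))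 (a (l 14) (l 16736704))) (b (a (l 16733024) (l 16731424)) (a (l 16735064) (l 16733432)))) (a (l 14) (b (a (l 14) (l 16735440)) (l 14)))) (b (a (b (l 16750024) (a (l 16731816) (l 16730216))) (b (l 16746904) (a (l 16728640) (l 16727064)))) (a (b (a (l 16733800) (l 16732168)) (a (l 14) (l 16734120))) (b (a (l 16730560) (l 16728960)) (a (l 16732480) (l 16730856))))))) (a (l 14) (b (b (a (l 14) (b (a (l 14) (l 16732744)) (l 14))) (l 14)) (l 14)))))), by decide +kernel⟩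

def k6_A04pm_012_s1 : ∃ t, chk3 f_A04pm_012_s1 t 33 14 1 = true :=
  ⟨(b (l 18673800) (b (l 18588424) (l 18495168))), by decide +kernel⟩

def k7_A04pm_012_s1 : ∃ t, chk3 f_A04pm_012_s1 t 33 30 1 = true :=
  ⟨(b (a (b (l 18247552) (l 18125112)) (l 18477456)) (a (c (b (l 18170648) (a (l 17601856) (l 18074808))) (b (a (l 17558496) (l 17832784)) (a (b (l 17252648) (l 16810816)) (b (l 17639960) (l 17308008))))) (c (l 18285944) (b (l 18098600) (a (l 17695848) (l 17982712)))))), by decide +kernel⟩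

def k8_A04pm_012_s1 : ∃ t, chk3 f_A04pm_012_s1 t 33 62 1 = true :=
  ⟨(a (b (b (c (a (l 17189352) (l 17870800)) (a (a (l 16836400) (l 16896736)) (l 16769120))) (c (a (c (a (l 17483760) (l 17637648)) (a (l 16880944) (l 17124624))) (l 17268432)) (a (a (l 16720168) (l 16774536)) (a (l 16769504) (l 16842080))))) (b (a (a (b (l 16723128) (l 16724984)) (b (l 16799736) (l 16722456))) (c (c (a (l 17474240) (l 17721464)) (a (l 16836592) (l 17176784))) (a (l 16718952) (l 16737272)))) (a (b (a (l 16726840) (l 16724256)) (a (l 16728688) (l 16726048))) (b (a (l 16721792) (l 16731544)) (a (l 16723536) (l 16721136)))))) (b (b (c (l 18224440) (a (l 17364888) (l 17773064))) (c (l 17837400) (a (c (l 17393848) (l 16819512)) (l 17423304)))) (a (c (b (a (l 17524392) (l 17842904)) (c (l 17218760) (b (l 17217208) (l 16805168)))) (a (b (l 16788656) (l 16717744)) (b (l 16873312) (l 16744304)))) (a (b (c (l 17985616) (l 17033448)) (c (l 17519128)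 (l 16726088))) (c (l 17527800) (b (l 17269416) (a (l 16862424) (l 16950000)))))))), by decide +kernel⟩

def k9_A04pm_012_s1 : ∃ t, chk3 f_A04pm_012_s1 t 33 63 1 = true :=
  ⟨(b (a (b (a (b (a (l 16730536) (l 16727840)) (a (l 16735000) (l 16729624))) (b (a (l 16725264) (l 16722808)) (a (l 16726992) (l 16724480)))) (a (b (a (l 14) (b (l 16730960) (l 14))) (l 14)) (b (a (l 16731336) (l 16726144)) (a (b (l 16730000) (l 14)) (b (l 16727392) (l 16728216)))))) (b (a (b (b (l 16735368) (l 16752208)) (a (l 16722088) (l 16719800))) (c (c (b (l 17872320) (l 17648504)) (b (l 17188960) (a (l 16995520) (l 17287032)))) (b (l 16751128) (l 16716224)))) (a (b (a (l 16723696) (l 16721360)) (b (l 16723688) (l 16727096))) (b (a (l 16719128) (c (c (l 17672504) (l 16931128)) (l 16716640))) (b (l 16719152) (l 16719888)))))) (b (a (a (l 14) (b (a (l 14) (b (l 16729048) (l 14))) (l 14))) (b (a (b (l 16727880) (a (l 16727288) (l 16724824)))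 (b (l 16720608) (l 16723952))) (a (b (a (l 16728080) (l 16725584)) (a (l 14) (l 16726352))) (b (l 16724680) (a (l 16723936) (l 16721640)))))) (a (l 14) (a (b (b (a (l 14) (b (l 16726920) (l 14))) (l 14)) (l 14)) (b (b (b (l 16725936) (l 16726288)) (b (l 16726648) (a (l 16725584) (l 16723216)))) (b (b (a (l 16725944) (l 16723568)) (a (l 14) (c (l 16724272) (l 16723560)))) (a (l 14) (b (b (l 16724176) (a (l 14) (l 16723760))) (a (l 14) (a (b (l 16724224) (l 14)) (b (l 16723640) (c (l 16724176) (l 16723448))))))))))))), by decide +kernel⟩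

def k10_A04pm_012_s1 : ∃ t, chk3 f_A04pm_012_s1 t 17 14 1 = true :=
  ⟨(b (l 19089832) (l 19089480)), by decide +kernel⟩

def k11_A04pm_012_s1 : ∃ t, chk3 f_A04pm_012_s1 t 34 30 1 = true :=
  ⟨(b (l 18845296) (a (l 18224624) (l 18846472))), by decide +kernel⟩

def k12_A04pm_012_s1 : ∃ t, chk3 f_A04pm_012_s1 t 34 62 1 = true :=
  ⟨(c (a (b (l 18586224) (b (l 18427832) (l 18031624))) (l 18877656)) (a (b (a (l 17754288) (l 18137040)) (b (a (l 17399368) (l 17911520)) (a (c (l 17426416) (b (l 17296432) (l 16981424))) (l 17460840)))) (b (l 18425672) (b (l 18255656) (l 17939200))))), by decide +kernel⟩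

def k13_A04pm_012_s1 : ∃ t, chk3 f_A04pm_012_s1 t 68 63 1 = true :=
  ⟨(b (c (c (a (b (l 18143872) (b (l 17960904) (l 17729032))) (l 18096576)) (a (b (l 17390344) (b (l 17162680) (a (l 16867296) (l 17256032)))) (b (l 18046936) (l 17294672)))) (b (a (c (b (l 17219008) (l 16887888)) (b (l 16814288) (l 16707544))) (c (l 17403264) (b (l 17254280) (l 16931072)))) (a (b (l 16709840) (l 16714960)) (c (b (l 17184736) (a (l 16990968) (l 17280752))) (b (l 16754152) (l 16709136)))))) (b (a (b (a (l 16717752) (c (c (l 17748720) (c (l 17270880) (l 16840480))) (l 16715304))) (b (l 16717728) (l 16721016))) (c (a (c (l 17538992) (b (l 17283232) (a (l 16763304) (l 17053448)))) (c (l 18074024) (b (l 17660248) (l 17227048)))) (b (l 16712808) (b (l 16713328) (l 16713944))))) (a (b (b (a (l 16720120) (l 16718008)) (b (l 16722168) (l 16722496))) (a (b (b (l 16721296) (c (l 16722016) (l 16721240))) (a (b (l 16722528) (b (l 16722776) (c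 (c (l 16723512) (l 16723136)) (l 16722568)))) (b (l 16721408) (b (l 16721656) (c (l 16722208) (l 16721424)))))) (b (b (l 16719136) (l 16719456)) (b (a (l 16720312) (l 16719240)) (c (b (l 16720432) (a (l 16721120) (l 16720064))) (b (l 16719592) (a (l 16720304) (l 16719208)))))))) (b (a (b (l 16715544) (l 16716616)) (c (c (l 17826864) (c (l 17070912) (b (l 17017424) (l 16813072)))) (b (l 16713592) (l 16714184)))) (b (b (b (l 16716008) (l 16716160)) (a (l 16717384) (l 16717880))) (a (a (b (l 16718200) (b (l 16718432) (c (l 16719024) (l 16718144)))) (b (l 16717184) (b (l 16717408) (a (l 16717808) (l 16717304))))) (b (b (l 16715624) (l 16715776)) (a (b (l 16716408) (a (l 16716800) (l 16716312))) (b (l 16715432) (l 16715576)))))))))), by decide +kernel⟩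

def k14_A04pm_012_s1 : ∃ t, chk3 f_A04pm_012_s1 t 69 63 1 = true :=
  ⟨(c (b (b (l 18635624) (l 18230920)) (b (c (l 18505744) (a (b (l 17944080) (l 17626136)) (l 18218552))) (b (c (l 18247656) (a (c (l 17666328) (a (l 17121344) (l 17598536))) (l 18022752))) (c (a (l 17643912) (l 18381448)) (a (a (c (b (l 17488232) (l 17207816)) (b (l 16953104) (b (l 16861072) (b (l 16812896) (a (l 16750672) (l 17017168)))))) (b (l 17502336) (l 17147336))) (l 17530144)))))) (b (c (a (b (l 17959856) (l 17381752)) (l 17969936)) (b (a (l 17423336) (l 17881328)) (a (b (l 17213880) (l 16882608)) (l 17394208)))) (a (b (c (b (l 17152296) (a (c (l 17235736) (l 16734992)) (l 17160488))) (b (a (l 16755360) (l 16884352)) (b (l 16706288) (l 16717520)))) (b (b (c (a (l 16778792) (l 17014640)) (l 16710568)) (b (l 16718496) (l 16717664))) (b (b (l 16711808) (l 16712088)) (a (b (l 16713288) (b (l 16713496) (l 16713640))) (b (l 16711456) (b (l 16711656)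 (l 16711784))))))) (c (a (b (l 17439712) (b (l 17101048) (c (b (l 17416536) (l 17144160)) (b (l 16905936) (b (l 16821208) (b (l 16777040) (l 16725920))))))) (b (l 17867856) (b (l 17641352) (b (l 17425024) (l 17160640))))) (b (b (l 17175208) (a (l 16816832) (l 17186824))) (b (a (b (l 16831776) (l 16720680)) (a (l 16737368) (l 16970840))) (b (a (l 16706272) (c (l 16968904) (l 16720752))) (b (l 16709344) (b (l 16709784) (a (l 16709728) (l 16707024))))))))))), by decide +kernel⟩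

def k15_A04pm_012_s1 : ∃ t, chk3 f_A04pm_012_s1 t 35 15 1 = true :=
  ⟨(b (l 19225304) (b (a (l 18605136) (l 19224688)) (b (c (l 19203728) (a (b (l 18417544) (l 18092544)) (l 18767064))) (b (c (l 19077000) (a (c (l 18256912) (a (l 17198824) (l 18013448))) (l 18583448))) (c (a (l 18350888) (l 19186848)) (a (c (a (b (l 17919288) (l 17517352)) (l 18186256)) (a (a (b (l 17124504) (a (b (l 17014368) (b (l 16852848) (l 16714912))) (b (l 17205608) (l 16855352)))) (b (l 17567664) (a (l 17011288) (l 17280688)))) (b (l 17829352) (l 17434088)))) (l 18082464))))))), by decide +kernel⟩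

def k16_A04pm_012_s1 : ∃ t, chk3 f_A04pm_012_s1 t 9 7 1 = true :=
  ⟨(b (a (l 19533016) (l 19820160)) (b (a (l 19694984) (l 20089960)) (a (a (b (l 19567760) (b (l 19514952) (l 19178544))) (l 19928528)) (l 20308424)))), by decide +kernel⟩

def k17_A04pm_012_s1 : ∃ t, chk3 f_A04pm_012_s1 t 5 3 1 = true :=
  ⟨(b (a (l 19742072) (l 6)) (b (l 20633944) (a (l 20923264) (l 20593144)))), by decide +kernel⟩

def k18_A04pm_012_s1 : ∃ t, chk3 f_A04pm_012_s1 t 3 1 1 = true :=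
  ⟨(b (l 6) (l 6)), by decide +kernel⟩

theorem t19_A04pm_012_s1 : ∃ t, chk3 f_A04pm_012_s1 t 34 63 1 = true := ex3_a k13_A04pm_012_s1 k14_A04pm_012_s1

theorem t20_A04pm_012_s1 : ∃ t, chk3 f_A04pm_012_s1 t 34 31 1 = true := ex3_b k12_A04pm_012_s1 t19_A04pm_012_s1

theorem t21_A04pm_012_s1 : ∃ t, chk3 f_A04pm_012_s1 t 34 15 1 = true := ex3_b k11_A04pm_012_s1 t20_A04pm_012_s1

theorem t22_A04pm_012_s1 : ∃ t, chk3 f_A04pm_012_s1 t 17 15 1 = true := ex3_a t21_A04pm_012_s1 k15_A04pm_012_s1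

theorem t23_A04pm_012_s1 : ∃ t, chk3 f_A04pm_012_s1 t 17 7 1 = true := ex3_b k10_A04pm_012_s1 t22_A04pm_012_s1

theorem t24_A04pm_012_s1 : ∃ t, chk3 f_A04pm_012_s1 t 33 31 1 = true := ex3_b k8_A04pm_012_s1 k9_A04pm_012_s1

theorem t25_A04pm_012_s1 : ∃ t, chk3 f_A04pm_012_s1 t 33 15 1 = true := ex3_b k7_A04pm_012_s1 t24_A04pm_012_s1

theorem t26_A04pm_012_s1 : ∃ t, chk3 f_A04pm_012_s1 t 33 7 1 = true := ex3_b k6_A04pm_012_s1 t25_A04pm_012_s1

theorem t27_A04pm_012_s1 : ∃ t, chk3 f_A04pm_012_s1 t 64 15 1 = true := ex3_b k3_A04pm_012_s1 k4_A04pm_012_s1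

theorem t28_A04pm_012_s1 : ∃ t, chk3 f_A04pm_012_s1 t 64 7 1 = true := ex3_b k2_A04pm_012_s1 t27_A04pm_012_s1

theorem t29_A04pm_012_s1 : ∃ t, chk3 f_A04pm_012_s1 t 32 7 1 = true := ex3_a t28_A04pm_012_s1 k5_A04pm_012_s1

theorem t30_A04pm_012_s1 : ∃ t, chk3 f_A04pm_012_s1 t 16 7 1 = true := ex3_a t29_A04pm_012_s1 t26_A04pm_012_s1

theorem t31_A04pm_012_s1 : ∃ t, chk3 f_A04pm_012_s1 t 8 7 1 = true := ex3_a t30_A04pm_012_s1 t23_A04pm_012_s1

theorem t32_A04pm_012_s1 : ∃ t, chk3 f_A04pm_012_s1 t 4 7 1 = true := ex3_a t31_A04pm_012_s1 k16_A04pm_012_s1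

theorem t33_A04pm_012_s1 : ∃ t, chk3 f_A04pm_012_s1 t 4 3 1 = true := ex3_b k1_A04pm_012_s1 t32_A04pm_012_s1

theorem t34_A04pm_012_s1 : ∃ t, chk3 f_A04pm_012_s1 t 2 3 1 = true := ex3_a t33_A04pm_012_s1 k17_A04pm_012_s1

theorem t35_A04pm_012_s1 : ∃ t, chk3 f_A04pm_012_s1 t 2 1 1 = true := ex3_b k0_A04pm_012_s1 t34_A04pm_012_s1

theorem t36_A04pm_012_s1 : ∃ t, chk3 f_A04pm_012_s1 t 1 1 1 = true := ex3_a t35_A04pm_012_s1 k18_A04pm_012_s1

theorem c_A04pm_012_s1 : CertF 0 536870912 536870912 536870912 33554432 16777216 true true false .pnp 0 1 2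
    ndF0q0 ndF4q1 pcF2 cut_A04pm_012_s1 Ext.none :=
  certFK2 (fam := true) (s1 := true) (s2 := false) (a := 0) (b := 1) (c := 2) (cn := .pnp) (n1 := ndF0q0) (n2 := ndF4q1) (pc := pcF2) (cut := cut_A04pm_012_s1) (xt := Ext.none) (P1 := 0) (W1 := 536870912) (P2 := 536870912) (W2 := 536870912) (P3 := 33554432) (W3 := 16777216)
    rfl rfl rfl (fun _ => rfl) t36_A04pm_012_s1

theorem s_A04pm_012_s1 {κ x : ℝ} (hκ : κ * h0 = ken x) (hx : ((33554432 : ℕ) : ℝ) / S ≤ x)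
    (hx' : x ≤ (((33554432 : ℕ) : ℝ) + (16777216 : ℕ)) / S)
    (H : CutA (VF κ) PP tKF tL pcF (Cut.of [[⟨0, 0, 0, 33554432⟩, ⟨1, 1, 0, 33554432⟩, ⟨2, 1, 0, 33554432⟩]]) 0 1 2 0 4 (sgb true) (sgb false) x) :
    AltA (VF κ) PP tKF tL pcF [⟨3, 0, 0, 1449551462⟩] 0 1 2 0 4 (sgb true) (sgb false) x :=
  strip_altA (m := 1449551462) true rfl hκ covF00 covF41 hx hx' c_A04pm_012_s1 H (noExt_A)

noncomputable def cut_A04pm_022_s1 : Cut := Cut.of [[⟨4, 0, 0, 1449551462⟩], [⟨0, 0, 0, 33554432⟩, ⟨1, 1, 0, 33554432⟩, ⟨2, 1, 0, 33554432⟩]]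

noncomputable def f_A04pm_022_s1 : ℕ → ℕ → ℕ → ℕ → Bool := onCell 1073741824 536870912 1073741824 536870912 33554432 16777216
    (rowFK 2 true true false .pp 0 2 2 (qsf 0 536870912 1073741824 536870912 2) ndF0q0 ndF4q2 pcF2 cut_A04pm_022_s1 Ext.none)

def k0_A04pm_022_s1 : ∃ t, chk3 f_A04pm_022_s1 t 16 4 1 = true :=
  ⟨(b (b (b (a (l 14) (a (l 14) (a (l 14) (a (l 14) (a (l 14) (a (l 14) (b (b (b (b (b (c (l 16724072) (l 16723352)) (l 16723336)) (l 16722768)) (l 16721648)) (b (l 16720136) (l 16718600))) (b (l 16716272) (l 16713136))))))))) (b (a (l 14) (a (l 14) (a (l 14) (a (l 14) (b (l 16753040) (l 16749960)))))) (a (l 1) (b (a (l 14) (a (l 14) (a (l 14) (b (a (l 14) (l 16791840)) (l 16757488))))) (a (l 1) (b (a (l 14) (a (l 14) (l 16762840))) (a (l 1) (a (l 168074064551) (a (b (l 14) (l 162705345527)) (l 46741222743)))))))))) (a (l 1) (b (a (l 1) (b (a (l 1) (b (a (l 1) (b (l 167537187383) (l 1))) (l 1))) (l 1)))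 (l 1)))) (l 1)), by decide +kernel⟩

def k1_A04pm_022_s1 : ∃ t, chk3 f_A04pm_022_s1 t 34 32 1 = true :=
  ⟨(b (b (a (b (a (a (b (b (c (b (a (l 16723312) (l 16722192)) (l 16722560)) (b (a (l 16722560) (l 16721408)) (l 16721800))) (c (l 16722264) (l 16721520))) (b (l 16721520) (l 16721112))) (b (b (c (b (a (l 16721104) (l 16720040)) (l 16720368)) (a (b (l 16720288) (l 16720096)) (l 16719096))) (l 16719664)) (b (l 16719272) (l 16718872)))) (b (b (a (a (c (l 16718768) (l 16718024)) (c (c (l 17040904) (l 16717656)) (l 16716976))) (b (a (l 16716528) (l 16715544)) (l 16715824))) (a (l 16717536) (l 16715520))) (b (l 16718728) (l 16718336)))) (a (b (a (l 16720552) (l 16718272)) (l 16718608)) (b (l 16717664) (l 16714216)))) (a (c (c (l 17526576) (a (b (c (l 17139600) (b (b (b (l 16762448) (l 16760936)) (l 16842576)) (l 16838144))) (l 16808752)) (b (l 17167448) (l 17317848)))) (b (b (b (a (b (l 16713600) (l 16713400)) (l 16711640))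 (l 16714760)) (l 16711512)) (b (l 16710656) (l 16709776)))) (c (a (l 17580120) (l 18119104)) (a (b (b (a (b (l 16715560) (l 16734376)) (c (l 16927136) (l 16708936))) (l 16713664)) (l 16706880)) (c (b (l 17101504) (l 17253480)) (b (b (b (l 16711576) (l 16751152)) (l 16747664)) (l 16740936))))))) (a (b (a (b (l 16717816) (l 16717016)) (l 16712936)) (a (l 16715808) (l 16711208))) (c (a (c (l 17814752) (a (l 16789328) (l 17292960))) (l 17719024)) (b (b (l 16712224) (l 16706056)) (l 16709896))))) (b (a (a (b (l 16714176) (l 16712544)) (b (l 16709448) (l 16707680))) (c (c (l 17477056) (a (l 16806960) (l 17674560))) (b (l 16708000) (l 16700840)))) (a (a (b (l 16710888) (l 16709232)) (b (l 16705896) (l 16704096))) (c (a (c (l 17727424) (l 16950040)) (l 17795544)) (a (l 16700096) (l 16827216)))))), by decide +kernel⟩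

def k2_A04pm_022_s1 : ∃ t, chk3 f_A04pm_022_s1 t 34 33 1 = true :=
  ⟨(b (a (a (b (a (l 16708160) (l 16705360)) (a (l 16746864) (l 16701960))) (b (l 16743328) (l 16739704))) (a (b (l 16758088) (l 16747984)) (c (l 17481496) (b (l 16898392) (l 16888368))))) (a (a (b (a (a (b (l 16787424) (l 16792904)) (b (l 16785608) (a (l 16789616) (l 16787408)))) (a (l 16783240) (l 16781712))) (a (b (l 16796168) (l 16801568)) (b (a (l 16789624) (l 16785216)) (l 16792928)))) (c (b (l 16771480) (l 16767000)) (a (b (l 16779440) (b (l 16778528) (l 16784112))) (l 16711832)))) (a (b (l 16740736) (l 16820208)) (c (l 17490344) (b (l 16881048) (l 16876408)))))), by decide +kernel⟩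

def k3_A04pm_022_s1 : ∃ t, chk3 f_A04pm_022_s1 t 35 16 1 = true :=
  ⟨(a (c (b (a (b (l 18364608) (l 18257584)) (l 18619344)) (b (l 18227544) (l 18130912))) (a (b (c (b (b (l 17330528) (l 17628368)) (l 17408056)) (b (a (b (b (a (b (l 16768080) (l 16846144)) (l 16880752)) (l 16895376)) (l 16878208)) (b (b (l 17045336) (l 17198512)) (l 17261344))) (b (l 17048344) (l 17111008)))) (b (l 16795352) (l 17006600))) (b (b (c (l 18014032) (b (l 17337144) (l 17554296))) (l 17465896)) (b (l 17566632) (l 17591904))))) (a (b (c (l 18885448) (b (l 18123120) (l 18036944))) (l 17869528)) (b (l 18571136) (l 18533848)))), by decide +kernel⟩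

def k4_A04pm_022_s1 : ∃ t, chk3 f_A04pm_022_s1 t 17 17 1 = true :=
  ⟨(b (b (a (a (a (b (a (b (a (b (l 16726432) (l 164315951975)) (l 46741216391)) (l 168610922967)) (b (l 16798376) (a (l 104186400935) (l 47278081015)))) (a (l 1) (l 172369018439))) (b (a (l 16792464) (b (l 16780904) (l 16786512))) (a (b (a (l 104723265607) (l 16717248)) (l 168610910647)) (b (l 16708176) (a (l 104723259431) (l 16714136)))))) (a (b (l 16734672) (l 16735680)) (c (l 17340592) (b (l 16874392) (l 16874952))))) (a (c (l 17958120) (a (l 16975640) (l 17541752))) (l 18031000))) (a (b (a (a (l 1) (a (l 1) (l 171832135367))) (a (b (a (a (l 100965250119) (l 16754664)) (l 16913552)) (a (l 169684846663) (c (b (l 17136072) (l 176128433079)) (l 74658481975)))) (c (l 17632488) (l 16877984)))) (a (l 1) (a (l 180422469687) (a (b (c (l 126735775927) (a (l 102038980551) (l 16839688))) (l 213172096999)) (c (l 17431912) (b (l 16965048) (l 87543474455)))))))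 (a (c (l 17792808) (a (l 16953784) (l 17499848))) (l 17951016)))) (b (a (a (l 1) (a (l 1) (c (l 255585800807) (l 179348697047)))) (a (b (a (c (l 173444289063) (a (b (l 16704288) (l 206192686743)) (b (l 17268880) (l 110629271031)))) (l 17624576)) (c (l 240554135607) (a (l 213172167703) (a (l 148210503063) (l 17524360))))) (l 17793528))) (a (l 1) (a (l 258270257319) (a (b (l 173981129047) (l 292630605319)) (l 18003248)))))), by decide +kernel⟩

def k5_A04pm_022_s1 : ∃ t, chk3 f_A04pm_022_s1 t 17 9 1 = true :=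
  ⟨(b (a (l 1) (b (a (l 1) (l 299610150263)) (l 1))) (l 1)), by decide +kernel⟩

def k6_A04pm_022_s1 : ∃ t, chk3 f_A04pm_022_s1 t 9 4 1 = true :=
  ⟨(a (b (b (a (a (b (l 19064520) (l 18850168)) (l 19303360)) (l 19701888)) (a (a (b (l 18657200) (l 18486064)) (l 18902704)) (l 19301416))) (a (b (b (a (a (l 291557540119) (l 97746667015)) (l 18665056)) (l 328602055351)) (l 1)) (b (b (l 19038832) (l 18927136)) (l 355446365175)))) (b (a (l 19880736) (l 20154488)) (b (l 19516664) (l 337730466919)))), by decide +kernel⟩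

def k7_A04pm_022_s1 : ∃ t, chk3 f_A04pm_022_s1 t 4 5 1 = true :=
  ⟨(a (l 1) (b (a (l 1) (a (l 1) (l 381754139319))) (l 1))), by decide +kernel⟩

def k8_A04pm_022_s1 : ∃ t, chk3 f_A04pm_022_s1 t 5 2 1 = true :=
  ⟨(b (a (b (l 20528064) (l 19993296)) (b (l 20705376) (l 20302016))) (a (b (a (l 375312810247) (l 19713864)) (a (l 1) (l 19543160))) (l 116004803591))), by decide +kernel⟩

def k9_A04pm_022_s1 : ∃ t, chk3 f_A04pm_022_s1 t 2 3 1 = true :=
  ⟨(a (l 1) (a (l 1) (b (a (l 1) (l 19594680)) (l 1)))), by decide +kernel⟩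

def k10_A04pm_022_s1 : ∃ t, chk3 f_A04pm_022_s1 t 3 1 1 = true :=
  ⟨(a (a (b (b (l 6) (l 19919360)) (b (l 19913712) (l 1))) (b (l 6) (b (l 6) (l 19116024)))) (b (l 6) (l 6))), by decide +kernel⟩

theorem t11_A04pm_022_s1 : ∃ t, chk3 f_A04pm_022_s1 t 34 16 1 = true := ex3_b k1_A04pm_022_s1 k2_A04pm_022_s1

theorem t12_A04pm_022_s1 : ∃ t, chk3 f_A04pm_022_s1 t 17 16 1 = true := ex3_a t11_A04pm_022_s1 k3_A04pm_022_s1

theorem t13_A04pm_022_s1 : ∃ t, chk3 f_A04pm_022_s1 t 17 8 1 = true := ex3_b t12_A04pm_022_s1 k4_A04pm_022_s1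

theorem t14_A04pm_022_s1 : ∃ t, chk3 f_A04pm_022_s1 t 17 4 1 = true := ex3_b t13_A04pm_022_s1 k5_A04pm_022_s1

theorem t15_A04pm_022_s1 : ∃ t, chk3 f_A04pm_022_s1 t 8 4 1 = true := ex3_a k0_A04pm_022_s1 t14_A04pm_022_s1

theorem t16_A04pm_022_s1 : ∃ t, chk3 f_A04pm_022_s1 t 4 4 1 = true := ex3_a t15_A04pm_022_s1 k6_A04pm_022_s1

theorem t17_A04pm_022_s1 : ∃ t, chk3 f_A04pm_022_s1 t 4 2 1 = true := ex3_b t16_A04pm_022_s1 k7_A04pm_022_s1

theorem t18_A04pm_022_s1 : ∃ t, chk3 f_A04pm_022_s1 t 2 2 1 = true := ex3_a t17_A04pm_022_s1 k8_A04pm_022_s1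

theorem t19_A04pm_022_s1 : ∃ t, chk3 f_A04pm_022_s1 t 2 1 1 = true := ex3_b t18_A04pm_022_s1 k9_A04pm_022_s1

theorem t20_A04pm_022_s1 : ∃ t, chk3 f_A04pm_022_s1 t 1 1 1 = true := ex3_a t19_A04pm_022_s1 k10_A04pm_022_s1

theorem c_A04pm_022_s1 : CertF 0 536870912 1073741824 536870912 33554432 16777216 true true false .pp 0 2 2
    ndF0q0 ndF4q2 pcF2 cut_A04pm_022_s1 Ext.none :=
  certFK2 (fam := true) (s1 := true) (s2 := false) (a := 0) (b := 2) (c := 2) (cn := .pp) (n1 := ndF0q0) (n2 := ndF4q2) (pc := pcF2) (cut := cut_A04pm_022_s1) (xt := Ext.none) (P1 := 0) (W1 := 536870912) (P2 := 1073741824) (W2 := 536870912) (P3 := 33554432) (W3 := 16777216)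
    rfl rfl rfl (fun _ => rfl) t20_A04pm_022_s1

theorem s_A04pm_022_s1 {κ x : ℝ} (hκ : κ * h0 = ken x) (hx : ((33554432 : ℕ) : ℝ) / S ≤ x)
    (hx' : x ≤ (((33554432 : ℕ) : ℝ) + (16777216 : ℕ)) / S)
    (H : CutA (VF κ) PP tKF tL pcF (Cut.of [[⟨0, 0, 0, 33554432⟩, ⟨1, 1, 0, 33554432⟩, ⟨2, 1, 0, 33554432⟩]]) 0 2 2 0 4 (sgb true) (sgb false) x) :
    AltA (VF κ) PP tKF tL pcF [⟨3, 0, 0, 1449551462⟩] 0 2 2 0 4 (sgb true) (sgb false) x :=
  strip_altA (m := 1449551462) true rfl hκ covF00 covF42 hx hx' c_A04pm_022_s1 H (noExt_A)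

noncomputable def cut_A04pm_023_s1 : Cut := Cut.of [[⟨4, 0, 0, 1449551462⟩]]

noncomputable def f_A04pm_023_s1 : ℕ → ℕ → ℕ → ℕ → Bool := onCell 1610612736 536870912 1073741824 536870912 33554432 16777216
    (rowFK 2 true true false .up 0 2 3 (qsf 0 536870912 1073741824 536870912 3) ndF0q0 ndF4q2 pcF3 cut_A04pm_023_s1 Ext.none)

def k0_A04pm_023_s1 : ∃ t, chk3 f_A04pm_023_s1 t 1 1 1 = true :=
  ⟨(a (l 6) (l 6)), by decide +kernel⟩

theorem c_A04pm_023_s1 : CertF 0 536870912 1073741824 536870912 33554432 16777216 true true false .up 0 2 3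
    ndF0q0 ndF4q2 pcF3 cut_A04pm_023_s1 Ext.none :=
  certFK2 (fam := true) (s1 := true) (s2 := false) (a := 0) (b := 2) (c := 3) (cn := .up) (n1 := ndF0q0) (n2 := ndF4q2) (pc := pcF3) (cut := cut_A04pm_023_s1) (xt := Ext.none) (P1 := 0) (W1 := 536870912) (P2 := 1073741824) (W2 := 536870912) (P3 := 33554432) (W3 := 16777216)
    rfl rfl rfl (fun _ => rfl) k0_A04pm_023_s1

theorem s_A04pm_023_s1 {κ x : ℝ} (hκ : κ * h0 = ken x) (hx : ((33554432 : ℕ) : ℝ) / S ≤ x)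
    (hx' : x ≤ (((33554432 : ℕ) : ℝ) + (16777216 : ℕ)) / S) :
    AltA (VF κ) PP tKF tL pcF [⟨3, 0, 0, 1449551462⟩] 0 2 3 0 4 (sgb true) (sgb false) x :=
  strip_altA (m := 1449551462) true rfl hκ covF00 covF42 hx hx' c_A04pm_023_s1 cutA_nil (noExt_A)

noncomputable def cut_A04pm_033_s1 : Cut := Cut.of [[⟨4, 0, 0, 1449551462⟩]]

noncomputable def f_A04pm_033_s1 : ℕ → ℕ → ℕ → ℕ → Bool := onCell 1610612736 536870912 0 1230186008 33554432 16777216
    (rowFK 2 true true false .pnn 0 3 3 (qsf 0 536870912 0 1230186008 3) ndF0q0 ndF4q3 pcF3 cut_A04pm_033_s1 Ext.none)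

def k0_A04pm_033_s1 : ∃ t, chk3 f_A04pm_033_s1 t 1 1 1 = true :=
  ⟨(b (l 6) (l 6)), by decide +kernel⟩

theorem c_A04pm_033_s1 : CertF 0 536870912 0 1230186008 33554432 16777216 true true false .pnn 0 3 3
    ndF0q0 ndF4q3 pcF3 cut_A04pm_033_s1 Ext.none :=
  certFK2 (fam := true) (s1 := true) (s2 := false) (a := 0) (b := 3) (c := 3) (cn := .pnn) (n1 := ndF0q0) (n2 := ndF4q3) (pc := pcF3) (cut := cut_A04pm_033_s1) (xt := Ext.none) (P1 := 0) (W1 := 536870912) (P2 := 0) (W2 := 1230186008) (P3 := 33554432) (W3 := 16777216)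
    rfl rfl rfl (fun _ => rfl) k0_A04pm_033_s1

theorem s_A04pm_033_s1 {κ x : ℝ} (hκ : κ * h0 = ken x) (hx : ((33554432 : ℕ) : ℝ) / S ≤ x)
    (hx' : x ≤ (((33554432 : ℕ) : ℝ) + (16777216 : ℕ)) / S) :
    AltA (VF κ) PP tKF tL pcF [⟨3, 0, 0, 1449551462⟩] 0 3 3 0 4 (sgb true) (sgb false) x :=
  strip_altA (m := 1449551462) true rfl hκ covF00 covF43 hx hx' c_A04pm_033_s1 cutA_nil (noExt_A)

noncomputable def cut_A04pm_101_s1 : Cut := Cut.of [[⟨4, 0, 0, 1449551462⟩]]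

noncomputable def xt_A04pm_101_s1 : Ext := strExt dd true true false .u0 .s0m .u0m .npn 1 0 1 rfl rfl gf1 vv ndF0q1 ndF4q0

noncomputable def f_A04pm_101_s1 : ℕ → ℕ → ℕ → ℕ → Bool := onCell 536870912 536870912 536870912 536870912 33554432 16777216
    (rowFK 1 true true false .npn 1 0 1 (qsf 536870912 536870912 0 536870912 1) ndF0q1 ndF4q0 pcF1 cut_A04pm_101_s1 xt_A04pm_101_s1)

def k0_A04pm_101_s1 : ∃ t, chk3 f_A04pm_101_s1 t 1 1 1 = true :=
  ⟨(a (b (b (a (b (l 572125455) (l 569411599)) (b (l 1) (b (l 1) (l 237332679815)))) (a (b (b (l 567418127) (l 564872207)) (a (b (l 560566543) (l 16975800)) (l 17370576))) (b (a (l 17461344) (l 17637704)) (l 17931240)))) (b (a (b (a (l 17297440) (l 17559672)) (a (l 17612568) (l 17854808))) (b (l 18015832) (l 18105568))) (a (a (b (l 17938256) (l 18249024)) (l 18451248)) (a (l 18458912) (l 6))))) (b (a (b (l 1) (b (l 1) (l 18267120))) (l 1)) (a (b (a (l 6) (l 6)) (l 6)) (l 6)))),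 by decide +kernel⟩

theorem c_A04pm_101_s1 : CertF 536870912 536870912 0 536870912 33554432 16777216 true true false .npn 1 0 1
    ndF0q1 ndF4q0 pcF1 cut_A04pm_101_s1 xt_A04pm_101_s1 :=
  certFK1 (fam := true) (s1 := true) (s2 := false) (a := 1) (b := 0) (c := 1) (cn := .npn) (n1 := ndF0q1) (n2 := ndF4q0) (pc := pcF1) (cut := cut_A04pm_101_s1) (xt := xt_A04pm_101_s1) (P1 := 536870912) (W1 := 536870912) (P2 := 0) (W2 := 536870912) (P3 := 33554432) (W3 := 16777216)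
    rfl rfl rfl (fun _ => rfl) k0_A04pm_101_s1

theorem s_A04pm_101_s1 {κ x : ℝ} (hκ : κ * h0 = ken x) (hx : ((33554432 : ℕ) : ℝ) / S ≤ x)
    (hx' : x ≤ (((33554432 : ℕ) : ℝ) + (16777216 : ℕ)) / S) :
    AltA (VF κ) PP tKF tL pcF [⟨3, 0, 0, 1449551462⟩] 1 0 1 0 4 (sgb true) (sgb false) x :=
  strip_altA (m := 1449551462) true rfl hκ covF01 covF40 hx hx' c_A04pm_101_s1 cutA_nil ((okx hx hx').extA (T := tt) (sideF hx hx') hκ rfl rfl (.O 1 true) (.N 0 false) (Or.inr rfl))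

noncomputable def cut_A04pm_102_s1 : Cut := Cut.of [[⟨4, 0, 0, 1449551462⟩]]

noncomputable def f_A04pm_102_s1 : ℕ → ℕ → ℕ → ℕ → Bool := onCell 536870912 536870912 1073741824 536870912 33554432 16777216
    (rowFK 1 true true false .npp 1 0 2 (qsf 536870912 536870912 0 536870912 2) ndF0q1 ndF4q0 pcF2 cut_A04pm_102_s1 Ext.none)

def k0_A04pm_102_s1 : ∃ t, chk3 f_A04pm_102_s1 t 1 1 1 = true :=
  ⟨(a (b (a (b (b (b (b (b (l 18615752) (l 6)) (l 6)) (l 6)) (l 6)) (l 6)) (l 6)) (l 6)) (l 6)), by decide +kernel⟩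

theorem c_A04pm_102_s1 : CertF 536870912 536870912 0 536870912 33554432 16777216 true true false .npp 1 0 2
    ndF0q1 ndF4q0 pcF2 cut_A04pm_102_s1 Ext.none :=
  certFK1 (fam := true) (s1 := true) (s2 := false) (a := 1) (b := 0) (c := 2) (cn := .npp) (n1 := ndF0q1) (n2 := ndF4q0) (pc := pcF2) (cut := cut_A04pm_102_s1) (xt := Ext.none) (P1 := 536870912) (W1 := 536870912) (P2 := 0) (W2 := 536870912) (P3 := 33554432) (W3 := 16777216)
    rfl rfl rfl (fun _ => rfl) k0_A04pm_102_s1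

theorem s_A04pm_102_s1 {κ x : ℝ} (hκ : κ * h0 = ken x) (hx : ((33554432 : ℕ) : ℝ) / S ≤ x)
    (hx' : x ≤ (((33554432 : ℕ) : ℝ) + (16777216 : ℕ)) / S) :
    AltA (VF κ) PP tKF tL pcF [⟨3, 0, 0, 1449551462⟩] 1 0 2 0 4 (sgb true) (sgb false) x :=
  strip_altA (m := 1449551462) true rfl hκ covF01 covF40 hx hx' c_A04pm_102_s1 cutA_nil (noExt_A)

noncomputable def cut_A04pm_112_s1 : Cut := Cut.of [[⟨4, 0, 0, 1449551462⟩]]

noncomputable def f_A04pm_112_s1 : ℕ → ℕ → ℕ → ℕ → Bool := onCell 536870912 536870912 536870912 536870912 33554432 16777216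
    (rowFK 0 true true false .dn 1 1 2 (qsf 536870912 536870912 536870912 536870912 2) ndF0q1 ndF4q1 pcF2 cut_A04pm_112_s1 Ext.none)

def k0_A04pm_112_s1 : ∃ t, chk3 f_A04pm_112_s1 t 1 1 1 = true :=
  ⟨(a (b (a (b (a (b (a (b (l 6) (l 6)) (l 6)) (l 6)) (l 6)) (l 6)) (l 6)) (l 6)) (l 6)), by decide +kernel⟩

theorem c_A04pm_112_s1 : CertF 536870912 536870912 536870912 536870912 33554432 16777216 true true false .dn 1 1 2
    ndF0q1 ndF4q1 pcF2 cut_A04pm_112_s1 Ext.none :=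
  certFK0 (fam := true) (s1 := true) (s2 := false) (a := 1) (b := 1) (c := 2) (cn := .dn) (n1 := ndF0q1) (n2 := ndF4q1) (pc := pcF2) (cut := cut_A04pm_112_s1) (xt := Ext.none) (P1 := 536870912) (W1 := 536870912) (P2 := 536870912) (W2 := 536870912) (P3 := 33554432) (W3 := 16777216)
    rfl rfl rfl k0_A04pm_112_s1

theorem s_A04pm_112_s1 {κ x : ℝ} (hκ : κ * h0 = ken x) (hx : ((33554432 : ℕ) : ℝ) / S ≤ x)
    (hx' : x ≤ (((33554432 : ℕ) : ℝ) + (16777216 : ℕ)) / S) :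
    AltA (VF κ) PP tKF tL pcF [⟨3, 0, 0, 1449551462⟩] 1 1 2 0 4 (sgb true) (sgb false) x :=
  strip_altA (m := 1449551462) true rfl hκ covF01 covF41 hx hx' c_A04pm_112_s1 cutA_nil (noExt_A)

noncomputable def cut_A04pm_113_s1 : Cut := Cut.of [[⟨4, 0, 0, 1449551462⟩]]

noncomputable def f_A04pm_113_s1 : ℕ → ℕ → ℕ → ℕ → Bool := onCell 536870912 536870912 1610612736 536870912 33554432 16777216
    (rowFK 1 true true false .nn 1 1 3 (qsf 536870912 536870912 536870912 536870912 3) ndF0q1 ndF4q1 pcF3 cut_A04pm_113_s1 Ext.none)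

def k0_A04pm_113_s1 : ∃ t, chk3 f_A04pm_113_s1 t 1 1 1 = true :=
  ⟨(l 6), by decide +kernel⟩

theorem c_A04pm_113_s1 : CertF 536870912 536870912 536870912 536870912 33554432 16777216 true true false .nn 1 1 3
    ndF0q1 ndF4q1 pcF3 cut_A04pm_113_s1 Ext.none :=
  certFK1 (fam := true) (s1 := true) (s2 := false) (a := 1) (b := 1) (c := 3) (cn := .nn) (n1 := ndF0q1) (n2 := ndF4q1) (pc := pcF3) (cut := cut_A04pm_113_s1) (xt := Ext.none) (P1 := 536870912) (W1 := 536870912) (P2 := 536870912) (W2 := 536870912) (P3 := 33554432) (W3 := 16777216)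
    rfl rfl rfl (fun _ => rfl) k0_A04pm_113_s1

theorem s_A04pm_113_s1 {κ x : ℝ} (hκ : κ * h0 = ken x) (hx : ((33554432 : ℕ) : ℝ) / S ≤ x)
    (hx' : x ≤ (((33554432 : ℕ) : ℝ) + (16777216 : ℕ)) / S) :
    AltA (VF κ) PP tKF tL pcF [⟨3, 0, 0, 1449551462⟩] 1 1 3 0 4 (sgb true) (sgb false) x :=
  strip_altA (m := 1449551462) true rfl hκ covF01 covF41 hx hx' c_A04pm_113_s1 cutA_nil (noExt_A)

noncomputable def cut_A04pm_123_s1 : Cut := Cut.of [[⟨4, 0, 0, 1449551462⟩]]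

noncomputable def f_A04pm_123_s1 : ℕ → ℕ → ℕ → ℕ → Bool := onCell 536870912 536870912 1073741824 536870912 33554432 16777216
    (rowFK 0 true true false .npn 1 2 3 (qsf 536870912 536870912 1073741824 536870912 3) ndF0q1 ndF4q2 pcF3 cut_A04pm_123_s1 Ext.none)

def k0_A04pm_123_s1 : ∃ t, chk3 f_A04pm_123_s1 t 1 1 1 = true :=
  ⟨(l 6), by decide +kernel⟩

theorem c_A04pm_123_s1 : CertF 536870912 536870912 1073741824 536870912 33554432 16777216 true true false .npn 1 2 3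
    ndF0q1 ndF4q2 pcF3 cut_A04pm_123_s1 Ext.none :=
  certFK0 (fam := true) (s1 := true) (s2 := false) (a := 1) (b := 2) (c := 3) (cn := .npn) (n1 := ndF0q1) (n2 := ndF4q2) (pc := pcF3) (cut := cut_A04pm_123_s1) (xt := Ext.none) (P1 := 536870912) (W1 := 536870912) (P2 := 1073741824) (W2 := 536870912) (P3 := 33554432) (W3 := 16777216)
    rfl rfl rfl k0_A04pm_123_s1

theorem s_A04pm_123_s1 {κ x : ℝ} (hκ : κ * h0 = ken x) (hx : ((33554432 : ℕ) : ℝ) / S ≤ x)
    (hx' : x ≤ (((33554432 : ℕ) : ℝ) + (16777216 : ℕ)) / S) :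
    AltA (VF κ) PP tKF tL pcF [⟨3, 0, 0, 1449551462⟩] 1 2 3 0 4 (sgb true) (sgb false) x :=
  strip_altA (m := 1449551462) true rfl hκ covF01 covF42 hx hx' c_A04pm_123_s1 cutA_nil (noExt_A)

noncomputable def cut_A04pm_133_s1 : Cut := Cut.of [[⟨4, 0, 0, 1449551462⟩]]

noncomputable def f_A04pm_133_s1 : ℕ → ℕ → ℕ → ℕ → Bool := onCell 536870912 536870912 0 1230186008 33554432 16777216
    (rowFK 0 true true false .dn 1 3 3 (qsf 536870912 536870912 0 1230186008 3) ndF0q1 ndF4q3 pcF3 cut_A04pm_133_s1 Ext.none)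

def k0_A04pm_133_s1 : ∃ t, chk3 f_A04pm_133_s1 t 1 1 1 = true :=
  ⟨(l 6), by decide +kernel⟩

theorem c_A04pm_133_s1 : CertF 536870912 536870912 0 1230186008 33554432 16777216 true true false .dn 1 3 3
    ndF0q1 ndF4q3 pcF3 cut_A04pm_133_s1 Ext.none :=
  certFK0 (fam := true) (s1 := true) (s2 := false) (a := 1) (b := 3) (c := 3) (cn := .dn) (n1 := ndF0q1) (n2 := ndF4q3) (pc := pcF3) (cut := cut_A04pm_133_s1) (xt := Ext.none) (P1 := 536870912) (W1 := 536870912) (P2 := 0) (W2 := 1230186008) (P3 := 33554432) (W3 := 16777216)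
    rfl rfl rfl k0_A04pm_133_s1

theorem s_A04pm_133_s1 {κ x : ℝ} (hκ : κ * h0 = ken x) (hx : ((33554432 : ℕ) : ℝ) / S ≤ x)
    (hx' : x ≤ (((33554432 : ℕ) : ℝ) + (16777216 : ℕ)) / S) :
    AltA (VF κ) PP tKF tL pcF [⟨3, 0, 0, 1449551462⟩] 1 3 3 0 4 (sgb true) (sgb false) x :=
  strip_altA (m := 1449551462) true rfl hκ covF01 covF43 hx hx' c_A04pm_133_s1 cutA_nil (noExt_A)

noncomputable def cut_A04pm_202_s1 : Cut := Cut.of [[⟨4, 0, 0, 1449551462⟩]]

noncomputable def f_A04pm_202_s1 : ℕ → ℕ → ℕ → ℕ → Bool := onCell 0 536870912 0 536870912 33554432 16777216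
    (rowFK 0 true true false .pp 2 0 2 (qsf 0 536870912 0 536870912 2) ndF0q2 ndF4q0 pcF2 cut_A04pm_202_s1 Ext.none)

def k0_A04pm_202_s1 : ∃ t, chk3 f_A04pm_202_s1 t 1 1 1 = true :=
  ⟨(l 6), by decide +kernel⟩

theorem c_A04pm_202_s1 : CertF 0 536870912 0 536870912 33554432 16777216 true true false .pp 2 0 2
    ndF0q2 ndF4q0 pcF2 cut_A04pm_202_s1 Ext.none :=
  certFK0 (fam := true) (s1 := true) (s2 := false) (a := 2) (b := 0) (c := 2) (cn := .pp) (n1 := ndF0q2) (n2 := ndF4q0) (pc := pcF2) (cut := cut_A04pm_202_s1) (xt := Ext.none) (P1 := 0) (W1 := 536870912) (P2 := 0) (W2 := 536870912) (P3 := 33554432) (W3 := 16777216)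
    rfl rfl rfl k0_A04pm_202_s1

theorem s_A04pm_202_s1 {κ x : ℝ} (hκ : κ * h0 = ken x) (hx : ((33554432 : ℕ) : ℝ) / S ≤ x)
    (hx' : x ≤ (((33554432 : ℕ) : ℝ) + (16777216 : ℕ)) / S) :
    AltA (VF κ) PP tKF tL pcF [⟨3, 0, 0, 1449551462⟩] 2 0 2 0 4 (sgb true) (sgb false) x :=
  strip_altA (m := 1449551462) true rfl hκ covF02 covF40 hx hx' c_A04pm_202_s1 cutA_nil (noExt_A)

noncomputable def cut_A04pm_203_s1 : Cut := Cut.of [[⟨4, 0, 0, 1449551462⟩]]

noncomputable def f_A04pm_203_s1 : ℕ → ℕ → ℕ → ℕ → Bool := onCell 0 536870912 0 536870912 33554432 16777216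
    (rowFK 0 true true false .up 2 0 3 (qsf 0 536870912 0 536870912 3) ndF0q2 ndF4q0 pcF3 cut_A04pm_203_s1 Ext.none)

def k0_A04pm_203_s1 : ∃ t, chk3 f_A04pm_203_s1 t 1 1 1 = true :=
  ⟨(l 6), by decide +kernel⟩

theorem c_A04pm_203_s1 : CertF 0 536870912 0 536870912 33554432 16777216 true true false .up 2 0 3
    ndF0q2 ndF4q0 pcF3 cut_A04pm_203_s1 Ext.none :=
  certFK0 (fam := true) (s1 := true) (s2 := false) (a := 2) (b := 0) (c := 3) (cn := .up) (n1 := ndF0q2) (n2 := ndF4q0) (pc := pcF3) (cut := cut_A04pm_203_s1) (xt := Ext.none) (P1 := 0) (W1 := 536870912) (P2 := 0) (W2 := 536870912) (P3 := 33554432) (W3 := 16777216)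
    rfl rfl rfl k0_A04pm_203_s1

theorem s_A04pm_203_s1 {κ x : ℝ} (hκ : κ * h0 = ken x) (hx : ((33554432 : ℕ) : ℝ) / S ≤ x)
    (hx' : x ≤ (((33554432 : ℕ) : ℝ) + (16777216 : ℕ)) / S) :
    AltA (VF κ) PP tKF tL pcF [⟨3, 0, 0, 1449551462⟩] 2 0 3 0 4 (sgb true) (sgb false) x :=
  strip_altA (m := 1449551462) true rfl hκ covF02 covF40 hx hx' c_A04pm_203_s1 cutA_nil (noExt_A)

noncomputable def cut_A04pm_213_s1 : Cut := Cut.of [[⟨4, 0, 0, 1449551462⟩]]

noncomputable def f_A04pm_213_s1 : ℕ → ℕ → ℕ → ℕ → Bool := onCell 0 536870912 536870912 536870912 33554432 16777216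
    (rowFK 0 true true false .pnn 2 1 3 (qsf 0 536870912 536870912 536870912 3) ndF0q2 ndF4q1 pcF3 cut_A04pm_213_s1 Ext.none)

def k0_A04pm_213_s1 : ∃ t, chk3 f_A04pm_213_s1 t 1 1 1 = true :=
  ⟨(l 6), by decide +kernel⟩

theorem c_A04pm_213_s1 : CertF 0 536870912 536870912 536870912 33554432 16777216 true true false .pnn 2 1 3
    ndF0q2 ndF4q1 pcF3 cut_A04pm_213_s1 Ext.none :=
  certFK0 (fam := true) (s1 := true) (s2 := false) (a := 2) (b := 1) (c := 3) (cn := .pnn) (n1 := ndF0q2) (n2 := ndF4q1) (pc := pcF3) (cut := cut_A04pm_213_s1) (xt := Ext.none) (P1 := 0) (W1 := 536870912) (P2 := 536870912) (W2 := 536870912) (P3 := 33554432) (W3 := 16777216)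
    rfl rfl rfl k0_A04pm_213_s1

theorem s_A04pm_213_s1 {κ x : ℝ} (hκ : κ * h0 = ken x) (hx : ((33554432 : ℕ) : ℝ) / S ≤ x)
    (hx' : x ≤ (((33554432 : ℕ) : ℝ) + (16777216 : ℕ)) / S) :
    AltA (VF κ) PP tKF tL pcF [⟨3, 0, 0, 1449551462⟩] 2 1 3 0 4 (sgb true) (sgb false) x :=
  strip_altA (m := 1449551462) true rfl hκ covF02 covF41 hx hx' c_A04pm_213_s1 cutA_nil (noExt_A)

noncomputable def cut_A04mm_001_s1 : Cut := Cut.of [[⟨4, 0, 0, 1449551462⟩]]

noncomputable def f_A04mm_001_s1 : ℕ → ℕ → ℕ → ℕ → Bool := onCell 0 536870912 0 536870912 33554432 16777216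
    (rowFK 0 true false false .up 0 0 1 (qsf 0 536870912 0 536870912 1) ndF0q0 ndF4q0 pcF1 cut_A04mm_001_s1 Ext.none)

def k0_A04mm_001_s1 : ∃ t, chk3 f_A04mm_001_s1 t 1 1 1 = true :=
  ⟨(l 4), by decide +kernel⟩

theorem c_A04mm_001_s1 : CertF 0 536870912 0 536870912 33554432 16777216 true false false .up 0 0 1
    ndF0q0 ndF4q0 pcF1 cut_A04mm_001_s1 Ext.none :=
  certFK0 (fam := true) (s1 := false) (s2 := false) (a := 0) (b := 0) (c := 1) (cn := .up) (n1 := ndF0q0) (n2 := ndF4q0) (pc := pcF1) (cut := cut_A04mm_001_s1) (xt := Ext.none) (P1 := 0) (W1 := 536870912) (P2 := 0) (W2 := 536870912) (P3 := 33554432) (W3 := 16777216)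
    rfl rfl rfl k0_A04mm_001_s1

theorem s_A04mm_001_s1 {κ x : ℝ} (hκ : κ * h0 = ken x) (hx : ((33554432 : ℕ) : ℝ) / S ≤ x)
    (hx' : x ≤ (((33554432 : ℕ) : ℝ) + (16777216 : ℕ)) / S) :
    AltA (VF κ) PP tKF tL pcF [⟨3, 0, 0, 1449551462⟩] 0 0 1 0 4 (sgb false) (sgb false) x :=
  strip_altA (m := 1449551462) true rfl hκ covF00 covF40 hx hx' c_A04mm_001_s1 cutA_nil (noExt_A)

noncomputable def cut_A04mm_011_s1 : Cut := Cut.of [[⟨4, 0, 0, 1449551462⟩]]

noncomputable def f_A04mm_011_s1 : ℕ → ℕ → ℕ → ℕ → Bool := onCell 0 536870912 536870912 536870912 33554432 16777216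
    (rowFK 0 true false false .pnn 0 1 1 (qsf 0 536870912 536870912 536870912 1) ndF0q0 ndF4q1 pcF1 cut_A04mm_011_s1 Ext.none)

def k0_A04mm_011_s1 : ∃ t, chk3 f_A04mm_011_s1 t 1 1 1 = true :=
  ⟨(l 4), by decide +kernel⟩

theorem c_A04mm_011_s1 : CertF 0 536870912 536870912 536870912 33554432 16777216 true false false .pnn 0 1 1
    ndF0q0 ndF4q1 pcF1 cut_A04mm_011_s1 Ext.none :=
  certFK0 (fam := true) (s1 := false) (s2 := false) (a := 0) (b := 1) (c := 1) (cn := .pnn) (n1 := ndF0q0) (n2 := ndF4q1) (pc := pcF1) (cut := cut_A04mm_011_s1) (xt := Ext.none) (P1 := 0) (W1 := 536870912) (P2 := 536870912) (W2 := 536870912) (P3 := 33554432) (W3 := 16777216)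
    rfl rfl rfl k0_A04mm_011_s1

theorem s_A04mm_011_s1 {κ x : ℝ} (hκ : κ * h0 = ken x) (hx : ((33554432 : ℕ) : ℝ) / S ≤ x)
    (hx' : x ≤ (((33554432 : ℕ) : ℝ) + (16777216 : ℕ)) / S) :
    AltA (VF κ) PP tKF tL pcF [⟨3, 0, 0, 1449551462⟩] 0 1 1 0 4 (sgb false) (sgb false) x :=
  strip_altA (m := 1449551462) true rfl hκ covF00 covF41 hx hx' c_A04mm_011_s1 cutA_nil (noExt_A)

noncomputable def cut_A04mm_012_s1 : Cut := Cut.of [[⟨4, 0, 0, 1449551462⟩]]

noncomputable def f_A04mm_012_s1 : ℕ → ℕ → ℕ → ℕ → Bool := onCell 0 536870912 536870912 536870912 33554432 16777216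
    (rowFK 0 true false false .pnp 0 1 2 (qsf 0 536870912 536870912 536870912 2) ndF0q0 ndF4q1 pcF2 cut_A04mm_012_s1 Ext.none)

def k0_A04mm_012_s1 : ∃ t, chk3 f_A04mm_012_s1 t 1 1 1 = true :=
  ⟨(l 4), by decide +kernel⟩

theorem c_A04mm_012_s1 : CertF 0 536870912 536870912 536870912 33554432 16777216 true false false .pnp 0 1 2
    ndF0q0 ndF4q1 pcF2 cut_A04mm_012_s1 Ext.none :=
  certFK0 (fam := true) (s1 := false) (s2 := false) (a := 0) (b := 1) (c := 2) (cn := .pnp) (n1 := ndF0q0) (n2 := ndF4q1) (pc := pcF2) (cut := cut_A04mm_012_s1) (xt := Ext.none) (P1 := 0) (W1 := 536870912) (P2 := 536870912) (W2 := 536870912) (P3 := 33554432) (W3 := 16777216)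
    rfl rfl rfl k0_A04mm_012_s1

theorem s_A04mm_012_s1 {κ x : ℝ} (hκ : κ * h0 = ken x) (hx : ((33554432 : ℕ) : ℝ) / S ≤ x)
    (hx' : x ≤ (((33554432 : ℕ) : ℝ) + (16777216 : ℕ)) / S) :
    AltA (VF κ) PP tKF tL pcF [⟨3, 0, 0, 1449551462⟩] 0 1 2 0 4 (sgb false) (sgb false) x :=
  strip_altA (m := 1449551462) true rfl hκ covF00 covF41 hx hx' c_A04mm_012_s1 cutA_nil (noExt_A)

noncomputable def cut_A04mm_022_s1 : Cut := Cut.of [[⟨4, 0, 0, 1449551462⟩]]

noncomputable def f_A04mm_022_s1 : ℕ → ℕ → ℕ → ℕ → Bool := onCell 0 536870912 1073741824 536870912 33554432 16777216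
    (rowFK 0 true false false .pp 0 2 2 (qsf 0 536870912 1073741824 536870912 2) ndF0q0 ndF4q2 pcF2 cut_A04mm_022_s1 Ext.none)

def k0_A04mm_022_s1 : ∃ t, chk3 f_A04mm_022_s1 t 1 1 1 = true :=
  ⟨(l 4), by decide +kernel⟩

theorem c_A04mm_022_s1 : CertF 0 536870912 1073741824 536870912 33554432 16777216 true false false .pp 0 2 2
    ndF0q0 ndF4q2 pcF2 cut_A04mm_022_s1 Ext.none :=
  certFK0 (fam := true) (s1 := false) (s2 := false) (a := 0) (b := 2) (c := 2) (cn := .pp) (n1 := ndF0q0) (n2 := ndF4q2) (pc := pcF2) (cut := cut_A04mm_022_s1) (xt := Ext.none) (P1 := 0) (W1 := 536870912) (P2 := 1073741824) (W2 := 536870912) (P3 := 33554432) (W3 := 16777216)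
    rfl rfl rfl k0_A04mm_022_s1

theorem s_A04mm_022_s1 {κ x : ℝ} (hκ : κ * h0 = ken x) (hx : ((33554432 : ℕ) : ℝ) / S ≤ x)
    (hx' : x ≤ (((33554432 : ℕ) : ℝ) + (16777216 : ℕ)) / S) :
    AltA (VF κ) PP tKF tL pcF [⟨3, 0, 0, 1449551462⟩] 0 2 2 0 4 (sgb false) (sgb false) x :=
  strip_altA (m := 1449551462) true rfl hκ covF00 covF42 hx hx' c_A04mm_022_s1 cutA_nil (noExt_A)

noncomputable def cut_A04mm_023_s1 : Cut := Cut.of [[⟨4, 0, 0, 1449551462⟩]]

noncomputable def f_A04mm_023_s1 : ℕ → ℕ → ℕ → ℕ → Bool := onCell 0 536870912 1073741824 536870912 33554432 16777216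
    (rowFK 0 true false false .up 0 2 3 (qsf 0 536870912 1073741824 536870912 3) ndF0q0 ndF4q2 pcF3 cut_A04mm_023_s1 Ext.none)

def k0_A04mm_023_s1 : ∃ t, chk3 f_A04mm_023_s1 t 1 1 1 = true :=
  ⟨(l 4), by decide +kernel⟩

theorem c_A04mm_023_s1 : CertF 0 536870912 1073741824 536870912 33554432 16777216 true false false .up 0 2 3
    ndF0q0 ndF4q2 pcF3 cut_A04mm_023_s1 Ext.none :=
  certFK0 (fam := true) (s1 := false) (s2 := false) (a := 0) (b := 2) (c := 3) (cn := .up) (n1 := ndF0q0) (n2 := ndF4q2) (pc := pcF3) (cut := cut_A04mm_023_s1) (xt := Ext.none) (P1 := 0) (W1 := 536870912) (P2 := 1073741824) (W2 := 536870912) (P3 := 33554432) (W3 := 16777216)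
    rfl rfl rfl k0_A04mm_023_s1

theorem s_A04mm_023_s1 {κ x : ℝ} (hκ : κ * h0 = ken x) (hx : ((33554432 : ℕ) : ℝ) / S ≤ x)
    (hx' : x ≤ (((33554432 : ℕ) : ℝ) + (16777216 : ℕ)) / S) :
    AltA (VF κ) PP tKF tL pcF [⟨3, 0, 0, 1449551462⟩] 0 2 3 0 4 (sgb false) (sgb false) x :=
  strip_altA (m := 1449551462) true rfl hκ covF00 covF42 hx hx' c_A04mm_023_s1 cutA_nil (noExt_A)

noncomputable def cut_A04mm_033_s1 : Cut := Cut.of [[⟨4, 0, 0, 1449551462⟩]]

noncomputable def f_A04mm_033_s1 : ℕ → ℕ → ℕ → ℕ → Bool := onCell 0 536870912 0 1230186008 33554432 16777216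
    (rowFK 0 true false false .pnn 0 3 3 (qsf 0 536870912 0 1230186008 3) ndF0q0 ndF4q3 pcF3 cut_A04mm_033_s1 Ext.none)

def k0_A04mm_033_s1 : ∃ t, chk3 f_A04mm_033_s1 t 1 1 1 = true :=
  ⟨(l 4), by decide +kernel⟩

theorem c_A04mm_033_s1 : CertF 0 536870912 0 1230186008 33554432 16777216 true false false .pnn 0 3 3
    ndF0q0 ndF4q3 pcF3 cut_A04mm_033_s1 Ext.none :=
  certFK0 (fam := true) (s1 := false) (s2 := false) (a := 0) (b := 3) (c := 3) (cn := .pnn) (n1 := ndF0q0) (n2 := ndF4q3) (pc := pcF3) (cut := cut_A04mm_033_s1) (xt := Ext.none) (P1 := 0) (W1 := 536870912) (P2 := 0) (W2 := 1230186008) (P3 := 33554432) (W3 := 16777216)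
    rfl rfl rfl k0_A04mm_033_s1

theorem s_A04mm_033_s1 {κ x : ℝ} (hκ : κ * h0 = ken x) (hx : ((33554432 : ℕ) : ℝ) / S ≤ x)
    (hx' : x ≤ (((33554432 : ℕ) : ℝ) + (16777216 : ℕ)) / S) :
    AltA (VF κ) PP tKF tL pcF [⟨3, 0, 0, 1449551462⟩] 0 3 3 0 4 (sgb false) (sgb false) x :=
  strip_altA (m := 1449551462) true rfl hκ covF00 covF43 hx hx' c_A04mm_033_s1 cutA_nil (noExt_A)

noncomputable def cut_A04mm_101_s1 : Cut := Cut.of [[⟨4, 0, 0, 1449551462⟩]]

noncomputable def f_A04mm_101_s1 : ℕ → ℕ → ℕ → ℕ → Bool := onCell 536870912 536870912 0 536870912 33554432 16777216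
    (rowFK 0 true false false .npn 1 0 1 (qsf 536870912 536870912 0 536870912 1) ndF0q1 ndF4q0 pcF1 cut_A04mm_101_s1 Ext.none)

def k0_A04mm_101_s1 : ∃ t, chk3 f_A04mm_101_s1 t 1 1 1 = true :=
  ⟨(l 4), by decide +kernel⟩

theorem c_A04mm_101_s1 : CertF 536870912 536870912 0 536870912 33554432 16777216 true false false .npn 1 0 1
    ndF0q1 ndF4q0 pcF1 cut_A04mm_101_s1 Ext.none :=
  certFK0 (fam := true) (s1 := false) (s2 := false) (a := 1) (b := 0) (c := 1) (cn := .npn) (n1 := ndF0q1) (n2 := ndF4q0) (pc := pcF1) (cut := cut_A04mm_101_s1) (xt := Ext.none) (P1 := 536870912) (W1 := 536870912) (P2 := 0) (W2 := 536870912) (P3 := 33554432) (W3 := 16777216)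
    rfl rfl rfl k0_A04mm_101_s1

theorem s_A04mm_101_s1 {κ x : ℝ} (hκ : κ * h0 = ken x) (hx : ((33554432 : ℕ) : ℝ) / S ≤ x)
    (hx' : x ≤ (((33554432 : ℕ) : ℝ) + (16777216 : ℕ)) / S) :
    AltA (VF κ) PP tKF tL pcF [⟨3, 0, 0, 1449551462⟩] 1 0 1 0 4 (sgb false) (sgb false) x :=
  strip_altA (m := 1449551462) true rfl hκ covF01 covF40 hx hx' c_A04mm_101_s1 cutA_nil (noExt_A)

noncomputable def cut_A04mm_102_s1 : Cut := Cut.of [[⟨4, 0, 0, 1449551462⟩]]

noncomputable def f_A04mm_102_s1 : ℕ → ℕ → ℕ → ℕ → Bool := onCell 536870912 536870912 0 536870912 33554432 16777216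
    (rowFK 0 true false false .npp 1 0 2 (qsf 536870912 536870912 0 536870912 2) ndF0q1 ndF4q0 pcF2 cut_A04mm_102_s1 Ext.none)

def k0_A04mm_102_s1 : ∃ t, chk3 f_A04mm_102_s1 t 1 1 1 = true :=
  ⟨(l 4), by decide +kernel⟩

theorem c_A04mm_102_s1 : CertF 536870912 536870912 0 536870912 33554432 16777216 true false false .npp 1 0 2
    ndF0q1 ndF4q0 pcF2 cut_A04mm_102_s1 Ext.none :=
  certFK0 (fam := true) (s1 := false) (s2 := false) (a := 1) (b := 0) (c := 2) (cn := .npp) (n1 := ndF0q1) (n2 := ndF4q0) (pc := pcF2) (cut := cut_A04mm_102_s1) (xt := Ext.none) (P1 := 536870912) (W1 := 536870912) (P2 := 0) (W2 := 536870912) (P3 := 33554432) (W3 := 16777216)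
    rfl rfl rfl k0_A04mm_102_s1

theorem s_A04mm_102_s1 {κ x : ℝ} (hκ : κ * h0 = ken x) (hx : ((33554432 : ℕ) : ℝ) / S ≤ x)
    (hx' : x ≤ (((33554432 : ℕ) : ℝ) + (16777216 : ℕ)) / S) :
    AltA (VF κ) PP tKF tL pcF [⟨3, 0, 0, 1449551462⟩] 1 0 2 0 4 (sgb false) (sgb false) x :=
  strip_altA (m := 1449551462) true rfl hκ covF01 covF40 hx hx' c_A04mm_102_s1 cutA_nil (noExt_A)

noncomputable def cut_A04mm_112_s1 : Cut := Cut.of [[⟨4, 0, 0, 1449551462⟩]]

noncomputable def f_A04mm_112_s1 : ℕ → ℕ → ℕ → ℕ → Bool := onCell 536870912 536870912 536870912 536870912 33554432 16777216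
    (rowFK 0 true false false .dn 1 1 2 (qsf 536870912 536870912 536870912 536870912 2) ndF0q1 ndF4q1 pcF2 cut_A04mm_112_s1 Ext.none)

def k0_A04mm_112_s1 : ∃ t, chk3 f_A04mm_112_s1 t 1 1 1 = true :=
  ⟨(l 4), by decide +kernel⟩

theorem c_A04mm_112_s1 : CertF 536870912 536870912 536870912 536870912 33554432 16777216 true false false .dn 1 1 2
    ndF0q1 ndF4q1 pcF2 cut_A04mm_112_s1 Ext.none :=
  certFK0 (fam := true) (s1 := false) (s2 := false) (a := 1) (b := 1) (c := 2) (cn := .dn) (n1 := ndF0q1) (n2 := ndF4q1) (pc := pcF2) (cut := cut_A04mm_112_s1) (xt := Ext.none) (P1 := 536870912) (W1 := 536870912) (P2 := 536870912) (W2 := 536870912) (P3 := 33554432) (W3 := 16777216)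
    rfl rfl rfl k0_A04mm_112_s1

theorem s_A04mm_112_s1 {κ x : ℝ} (hκ : κ * h0 = ken x) (hx : ((33554432 : ℕ) : ℝ) / S ≤ x)
    (hx' : x ≤ (((33554432 : ℕ) : ℝ) + (16777216 : ℕ)) / S) :
    AltA (VF κ) PP tKF tL pcF [⟨3, 0, 0, 1449551462⟩] 1 1 2 0 4 (sgb false) (sgb false) x :=
  strip_altA (m := 1449551462) true rfl hκ covF01 covF41 hx hx' c_A04mm_112_s1 cutA_nil (noExt_A)

noncomputable def cut_A04mm_113_s1 : Cut := Cut.of [[⟨4, 0, 0, 1449551462⟩]]

noncomputable def f_A04mm_113_s1 : ℕ → ℕ → ℕ → ℕ → Bool := onCell 536870912 536870912 536870912 536870912 33554432 16777216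
    (rowFK 0 true false false .nn 1 1 3 (qsf 536870912 536870912 536870912 536870912 3) ndF0q1 ndF4q1 pcF3 cut_A04mm_113_s1 Ext.none)

def k0_A04mm_113_s1 : ∃ t, chk3 f_A04mm_113_s1 t 1 1 1 = true :=
  ⟨(l 4), by decide +kernel⟩

theorem c_A04mm_113_s1 : CertF 536870912 536870912 536870912 536870912 33554432 16777216 true false false .nn 1 1 3
    ndF0q1 ndF4q1 pcF3 cut_A04mm_113_s1 Ext.none :=
  certFK0 (fam := true) (s1 := false) (s2 := false) (a := 1) (b := 1) (c := 3) (cn := .nn) (n1 := ndF0q1) (n2 := ndF4q1) (pc := pcF3) (cut := cut_A04mm_113_s1) (xt := Ext.none) (P1 := 536870912) (W1 := 536870912) (P2 := 536870912) (W2 := 536870912) (P3 := 33554432) (W3 := 16777216)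
    rfl rfl rfl k0_A04mm_113_s1

theorem s_A04mm_113_s1 {κ x : ℝ} (hκ : κ * h0 = ken x) (hx : ((33554432 : ℕ) : ℝ) / S ≤ x)
    (hx' : x ≤ (((33554432 : ℕ) : ℝ) + (16777216 : ℕ)) / S) :
    AltA (VF κ) PP tKF tL pcF [⟨3, 0, 0, 1449551462⟩] 1 1 3 0 4 (sgb false) (sgb false) x :=
  strip_altA (m := 1449551462) true rfl hκ covF01 covF41 hx hx' c_A04mm_113_s1 cutA_nil (noExt_A)

noncomputable def cut_A04mm_123_s1 : Cut := Cut.of [[⟨4, 0, 0, 1449551462⟩]]

noncomputable def f_A04mm_123_s1 : ℕ → ℕ → ℕ → ℕ → Bool := onCell 536870912 536870912 1073741824 536870912 33554432 16777216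
    (rowFK 0 true false false .npn 1 2 3 (qsf 536870912 536870912 1073741824 536870912 3) ndF0q1 ndF4q2 pcF3 cut_A04mm_123_s1 Ext.none)

def k0_A04mm_123_s1 : ∃ t, chk3 f_A04mm_123_s1 t 1 1 1 = true :=
  ⟨(l 4), by decide +kernel⟩

theorem c_A04mm_123_s1 : CertF 536870912 536870912 1073741824 536870912 33554432 16777216 true false false .npn 1 2 3
    ndF0q1 ndF4q2 pcF3 cut_A04mm_123_s1 Ext.none :=
  certFK0 (fam := true) (s1 := false) (s2 := false) (a := 1) (b := 2) (c := 3) (cn := .npn) (n1 := ndF0q1) (n2 := ndF4q2) (pc := pcF3) (cut := cut_A04mm_123_s1) (xt := Ext.none) (P1 := 536870912) (W1 := 536870912) (P2 := 1073741824) (W2 := 536870912) (P3 := 33554432) (W3 := 16777216)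
    rfl rfl rfl k0_A04mm_123_s1

theorem s_A04mm_123_s1 {κ x : ℝ} (hκ : κ * h0 = ken x) (hx : ((33554432 : ℕ) : ℝ) / S ≤ x)
    (hx' : x ≤ (((33554432 : ℕ) : ℝ) + (16777216 : ℕ)) / S) :
    AltA (VF κ) PP tKF tL pcF [⟨3, 0, 0, 1449551462⟩] 1 2 3 0 4 (sgb false) (sgb false) x :=
  strip_altA (m := 1449551462) true rfl hκ covF01 covF42 hx hx' c_A04mm_123_s1 cutA_nil (noExt_A)

noncomputable def cut_A04mm_133_s1 : Cut := Cut.of [[⟨4, 0, 0, 1449551462⟩]]

noncomputable def f_A04mm_133_s1 : ℕ → ℕ → ℕ → ℕ → Bool := onCell 536870912 536870912 0 1230186008 33554432 16777216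
    (rowFK 0 true false false .dn 1 3 3 (qsf 536870912 536870912 0 1230186008 3) ndF0q1 ndF4q3 pcF3 cut_A04mm_133_s1 Ext.none)

def k0_A04mm_133_s1 : ∃ t, chk3 f_A04mm_133_s1 t 1 1 1 = true :=
  ⟨(l 4), by decide +kernel⟩

theorem c_A04mm_133_s1 : CertF 536870912 536870912 0 1230186008 33554432 16777216 true false false .dn 1 3 3
    ndF0q1 ndF4q3 pcF3 cut_A04mm_133_s1 Ext.none :=
  certFK0 (fam := true) (s1 := false) (s2 := false) (a := 1) (b := 3) (c := 3) (cn := .dn) (n1 := ndF0q1) (n2 := ndF4q3) (pc := pcF3) (cut := cut_A04mm_133_s1) (xt := Ext.none) (P1 := 536870912) (W1 := 536870912) (P2 := 0) (W2 := 1230186008) (P3 := 33554432) (W3 := 16777216)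
    rfl rfl rfl k0_A04mm_133_s1

theorem s_A04mm_133_s1 {κ x : ℝ} (hκ : κ * h0 = ken x) (hx : ((33554432 : ℕ) : ℝ) / S ≤ x)
    (hx' : x ≤ (((33554432 : ℕ) : ℝ) + (16777216 : ℕ)) / S) :
    AltA (VF κ) PP tKF tL pcF [⟨3, 0, 0, 1449551462⟩] 1 3 3 0 4 (sgb false) (sgb false) x :=
  strip_altA (m := 1449551462) true rfl hκ covF01 covF43 hx hx' c_A04mm_133_s1 cutA_nil (noExt_A)

noncomputable def cut_A04mm_202_s1 : Cut := Cut.of [[⟨4, 0, 0, 1449551462⟩]]

noncomputable def f_A04mm_202_s1 : ℕ → ℕ → ℕ → ℕ → Bool := onCell 0 536870912 0 536870912 33554432 16777216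
    (rowFK 0 true false false .pp 2 0 2 (qsf 0 536870912 0 536870912 2) ndF0q2 ndF4q0 pcF2 cut_A04mm_202_s1 Ext.none)

def k0_A04mm_202_s1 : ∃ t, chk3 f_A04mm_202_s1 t 1 1 1 = true :=
  ⟨(l 4), by decide +kernel⟩

theorem c_A04mm_202_s1 : CertF 0 536870912 0 536870912 33554432 16777216 true false false .pp 2 0 2
    ndF0q2 ndF4q0 pcF2 cut_A04mm_202_s1 Ext.none :=
  certFK0 (fam := true) (s1 := false) (s2 := false) (a := 2) (b := 0) (c := 2) (cn := .pp) (n1 := ndF0q2) (n2 := ndF4q0) (pc := pcF2) (cut := cut_A04mm_202_s1) (xt := Ext.none) (P1 := 0) (W1 := 536870912) (P2 := 0) (W2 := 536870912) (P3 := 33554432) (W3 := 16777216)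
    rfl rfl rfl k0_A04mm_202_s1

theorem s_A04mm_202_s1 {κ x : ℝ} (hκ : κ * h0 = ken x) (hx : ((33554432 : ℕ) : ℝ) / S ≤ x)
    (hx' : x ≤ (((33554432 : ℕ) : ℝ) + (16777216 : ℕ)) / S) :
    AltA (VF κ) PP tKF tL pcF [⟨3, 0, 0, 1449551462⟩] 2 0 2 0 4 (sgb false) (sgb false) x :=
  strip_altA (m := 1449551462) true rfl hκ covF02 covF40 hx hx' c_A04mm_202_s1 cutA_nil (noExt_A)

noncomputable def cut_A04mm_203_s1 : Cut := Cut.of [[⟨4, 0, 0, 1449551462⟩]]

noncomputable def f_A04mm_203_s1 : ℕ → ℕ → ℕ → ℕ → Bool := onCell 0 536870912 0 536870912 33554432 16777216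
    (rowFK 0 true false false .up 2 0 3 (qsf 0 536870912 0 536870912 3) ndF0q2 ndF4q0 pcF3 cut_A04mm_203_s1 Ext.none)

def k0_A04mm_203_s1 : ∃ t, chk3 f_A04mm_203_s1 t 1 1 1 = true :=
  ⟨(l 4), by decide +kernel⟩

theorem c_A04mm_203_s1 : CertF 0 536870912 0 536870912 33554432 16777216 true false false .up 2 0 3
    ndF0q2 ndF4q0 pcF3 cut_A04mm_203_s1 Ext.none :=
  certFK0 (fam := true) (s1 := false) (s2 := false) (a := 2) (b := 0) (c := 3) (cn := .up) (n1 := ndF0q2) (n2 := ndF4q0) (pc := pcF3) (cut := cut_A04mm_203_s1) (xt := Ext.none) (P1 := 0) (W1 := 536870912) (P2 := 0) (W2 := 536870912) (P3 := 33554432) (W3 := 16777216)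
    rfl rfl rfl k0_A04mm_203_s1

theorem s_A04mm_203_s1 {κ x : ℝ} (hκ : κ * h0 = ken x) (hx : ((33554432 : ℕ) : ℝ) / S ≤ x)
    (hx' : x ≤ (((33554432 : ℕ) : ℝ) + (16777216 : ℕ)) / S) :
    AltA (VF κ) PP tKF tL pcF [⟨3, 0, 0, 1449551462⟩] 2 0 3 0 4 (sgb false) (sgb false) x :=
  strip_altA (m := 1449551462) true rfl hκ covF02 covF40 hx hx' c_A04mm_203_s1 cutA_nil (noExt_A)

noncomputable def cut_A04mm_213_s1 : Cut := Cut.of [[⟨4, 0, 0, 1449551462⟩]]

noncomputable def f_A04mm_213_s1 : ℕ → ℕ → ℕ → ℕ → Bool := onCell 0 536870912 536870912 536870912 33554432 16777216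
    (rowFK 0 true false false .pnn 2 1 3 (qsf 0 536870912 536870912 536870912 3) ndF0q2 ndF4q1 pcF3 cut_A04mm_213_s1 Ext.none)

def k0_A04mm_213_s1 : ∃ t, chk3 f_A04mm_213_s1 t 1 1 1 = true :=
  ⟨(l 4), by decide +kernel⟩

theorem c_A04mm_213_s1 : CertF 0 536870912 536870912 536870912 33554432 16777216 true false false .pnn 2 1 3
    ndF0q2 ndF4q1 pcF3 cut_A04mm_213_s1 Ext.none :=
  certFK0 (fam := true) (s1 := false) (s2 := false) (a := 2) (b := 1) (c := 3) (cn := .pnn) (n1 := ndF0q2) (n2 := ndF4q1) (pc := pcF3) (cut := cut_A04mm_213_s1) (xt := Ext.none) (P1 := 0) (W1 := 536870912) (P2 := 536870912) (W2 := 536870912) (P3 := 33554432) (W3 := 16777216)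
    rfl rfl rfl k0_A04mm_213_s1

theorem s_A04mm_213_s1 {κ x : ℝ} (hκ : κ * h0 = ken x) (hx : ((33554432 : ℕ) : ℝ) / S ≤ x)
    (hx' : x ≤ (((33554432 : ℕ) : ℝ) + (16777216 : ℕ)) / S) :
    AltA (VF κ) PP tKF tL pcF [⟨3, 0, 0, 1449551462⟩] 2 1 3 0 4 (sgb false) (sgb false) x :=
  strip_altA (m := 1449551462) true rfl hκ covF02 covF41 hx hx' c_A04mm_213_s1 cutA_nil (noExt_A)

noncomputable def cut_B00pp_001_s1 : Cut := Cut.of [[⟨4, 0, 0, 1449551462⟩]]

noncomputable def f_B00pp_001_s1 : ℕ → ℕ → ℕ → ℕ → Bool := onCell 0 536870912 0 536870912 33554432 16777216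
    (rowFK 1 false true true .up 0 0 1 (qsf 0 536870912 536870912 536870912 0) ndF0q0 ndF0q1 pcF0 cut_B00pp_001_s1 Ext.none)

def k0_B00pp_001_s1 : ∃ t, chk3 f_B00pp_001_s1 t 1 1 1 = true :=
  ⟨(l 3), by decide +kernel⟩

theorem c_B00pp_001_s1 : CertF 0 536870912 536870912 536870912 33554432 16777216 false true true .up 0 0 1
    ndF0q0 ndF0q1 pcF0 cut_B00pp_001_s1 Ext.none :=
  certFK1 (fam := false) (s1 := true) (s2 := true) (a := 0) (b := 0) (c := 1) (cn := .up) (n1 := ndF0q0) (n2 := ndF0q1) (pc := pcF0) (cut := cut_B00pp_001_s1) (xt := Ext.none) (P1 := 0) (W1 := 536870912) (P2 := 536870912) (W2 := 536870912) (P3 := 33554432) (W3 := 16777216)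
    rfl rfl rfl (fun _ => rfl) k0_B00pp_001_s1

theorem s_B00pp_001_s1 {κ x : ℝ} (hκ : κ * h0 = ken x) (hx : ((33554432 : ℕ) : ℝ) / S ≤ x)
    (hx' : x ≤ (((33554432 : ℕ) : ℝ) + (16777216 : ℕ)) / S) :
    AltB (VF κ) PP tKF tL pcF [⟨3, 0, 0, 1449551462⟩] 0 0 1 0 0 (sgb true) (sgb true) x :=
  strip_altB (m := 1449551462) true rfl hκ covF00 covF01 hx hx' c_B00pp_001_s1 cutB_nil (noExt_B)

noncomputable def cut_B00pp_001_s3 : Cut := Cut.of [[⟨3, 0, 0, 2845415833⟩]]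

noncomputable def f_B00pp_001_s3 : ℕ → ℕ → ℕ → ℕ → Bool := onCell 0 536870912 536870912 536870912 33554432 16777216
    (rowFK 0 false true true .up 0 0 1 (qsf 0 536870912 536870912 536870912 0) ndF0q0 ndF0q1 pcF0 cut_B00pp_001_s3 Ext.none)

def k0_B00pp_001_s3 : ∃ t, chk3 f_B00pp_001_s3 t 1 1 1 = true :=
  ⟨(l 6), by decide +kernel⟩

theorem c_B00pp_001_s3 : CertF 0 536870912 536870912 536870912 33554432 16777216 false true true .up 0 0 1
    ndF0q0 ndF0q1 pcF0 cut_B00pp_001_s3 Ext.none :=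
  certFK0 (fam := false) (s1 := true) (s2 := true) (a := 0) (b := 0) (c := 1) (cn := .up) (n1 := ndF0q0) (n2 := ndF0q1) (pc := pcF0) (cut := cut_B00pp_001_s3) (xt := Ext.none) (P1 := 0) (W1 := 536870912) (P2 := 536870912) (W2 := 536870912) (P3 := 33554432) (W3 := 16777216)
    rfl rfl rfl k0_B00pp_001_s3

theorem s_B00pp_001_s3 {κ x : ℝ} (hκ : κ * h0 = ken x) (hx : ((33554432 : ℕ) : ℝ) / S ≤ x)
    (hx' : x ≤ (((33554432 : ℕ) : ℝ) + (16777216 : ℕ)) / S) :
    AltB (VF κ) PP tKF tL pcF [⟨4, 0, 0, 2845415833⟩] 0 0 1 0 0 (sgb true) (sgb true) x :=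
  strip_altB (m := 2845415833) false rfl hκ covF00 covF01 hx hx' c_B00pp_001_s3 cutB_nil (noExt_B)

noncomputable def cut_B00pp_011_s1 : Cut := Cut.of [[⟨4, 0, 0, 1449551462⟩], [⟨0, 0, 0, 33554432⟩, ⟨1, 1, 0, 33554432⟩, ⟨2, 1, 0, 33554432⟩]]

noncomputable def f_B00pp_011_s1 : ℕ → ℕ → ℕ → ℕ → Bool := onCell 536870912 536870912 536870912 536870912 33554432 16777216
    (rowFK 2 false true true .pnn 0 1 1 (qsf 0 536870912 536870912 536870912 1) ndF0q0 ndF0q1 pcF1 cut_B00pp_011_s1 Ext.none)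

def k0_B00pp_011_s1 : ∃ t, chk3 f_B00pp_011_s1 t 1 1 1 = true :=
  ⟨(a (l 3) (b (l 3) (a (l 3) (b (l 3) (a (l 3) (b (l 3) (b (l 3) (a (l 3) (b (l 3) (a (l 3) (l 14))))))))))), by decide +kernel⟩

theorem c_B00pp_011_s1 : CertF 0 536870912 536870912 536870912 33554432 16777216 false true true .pnn 0 1 1
    ndF0q0 ndF0q1 pcF1 cut_B00pp_011_s1 Ext.none :=
  certFK2 (fam := false) (s1 := true) (s2 := true) (a := 0) (b := 1) (c := 1) (cn := .pnn) (n1 := ndF0q0) (n2 := ndF0q1) (pc := pcF1) (cut := cut_B00pp_011_s1) (xt := Ext.none) (P1 := 0) (W1 := 536870912) (P2 := 536870912) (W2 := 536870912) (P3 := 33554432) (W3 := 16777216)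
    rfl rfl rfl (fun _ => rfl) k0_B00pp_011_s1

theorem s_B00pp_011_s1 {κ x : ℝ} (hκ : κ * h0 = ken x) (hx : ((33554432 : ℕ) : ℝ) / S ≤ x)
    (hx' : x ≤ (((33554432 : ℕ) : ℝ) + (16777216 : ℕ)) / S)
    (H : CutB (VF κ) PP tKF tL pcF (Cut.of [[⟨0, 0, 0, 33554432⟩, ⟨1, 1, 0, 33554432⟩, ⟨2, 1, 0, 33554432⟩]]) 0 1 1 0 0 (sgb true) (sgb true) x) :
    AltB (VF κ) PP tKF tL pcF [⟨3, 0, 0, 1449551462⟩] 0 1 1 0 0 (sgb true) (sgb true) x :=
  strip_altB (m := 1449551462) true rfl hκ covF00 covF01 hx hx' c_B00pp_011_s1 H (noExt_B)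

noncomputable def cut_B00pp_011_s3 : Cut := Cut.of [[⟨3, 0, 0, 2845415833⟩], [⟨0, 0, 0, 33554432⟩, ⟨1, 1, 0, 33554432⟩, ⟨2, 1, 0, 33554432⟩]]

noncomputable def f_B00pp_011_s3 : ℕ → ℕ → ℕ → ℕ → Bool := onCell 0 536870912 536870912 536870912 33554432 16777216
    (rowFK 0 false true true .pnn 0 1 1 (qsf 0 536870912 536870912 536870912 1) ndF0q0 ndF0q1 pcF1 cut_B00pp_011_s3 Ext.none)

def k0_B00pp_011_s3 : ∃ t, chk3 f_B00pp_011_s3 t 1 1 1 = true :=
  ⟨(l 6), by decide +kernel⟩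

theorem c_B00pp_011_s3 : CertF 0 536870912 536870912 536870912 33554432 16777216 false true true .pnn 0 1 1
    ndF0q0 ndF0q1 pcF1 cut_B00pp_011_s3 Ext.none :=
  certFK0 (fam := false) (s1 := true) (s2 := true) (a := 0) (b := 1) (c := 1) (cn := .pnn) (n1 := ndF0q0) (n2 := ndF0q1) (pc := pcF1) (cut := cut_B00pp_011_s3) (xt := Ext.none) (P1 := 0) (W1 := 536870912) (P2 := 536870912) (W2 := 536870912) (P3 := 33554432) (W3 := 16777216)
    rfl rfl rfl k0_B00pp_011_s3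

theorem s_B00pp_011_s3 {κ x : ℝ} (hκ : κ * h0 = ken x) (hx : ((33554432 : ℕ) : ℝ) / S ≤ x)
    (hx' : x ≤ (((33554432 : ℕ) : ℝ) + (16777216 : ℕ)) / S)
    (H : CutB (VF κ) PP tKF tL pcF (Cut.of [[⟨0, 0, 0, 33554432⟩, ⟨1, 1, 0, 33554432⟩, ⟨2, 1, 0, 33554432⟩]]) 0 1 1 0 0 (sgb true) (sgb true) x) :
    AltB (VF κ) PP tKF tL pcF [⟨4, 0, 0, 2845415833⟩] 0 1 1 0 0 (sgb true) (sgb true) x :=
  strip_altB (m := 2845415833) false rfl hκ covF00 covF01 hx hx' c_B00pp_011_s3 H (noExt_B)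

noncomputable def cut_B00pp_012_s1 : Cut := Cut.of [[⟨4, 0, 0, 1449551462⟩], [⟨0, 0, 0, 12582912⟩, ⟨1, 1, 0, 12582912⟩, ⟨2, 1, 0, 12582912⟩]]

noncomputable def xt_B00pp_012_s1 : Ext := strExt dd false true true .u0 .u2 .u0m .pnp 0 1 2 rfl rfl gf1 vv ndF0q0 ndF0q2

noncomputable def f_B00pp_012_s1 : ℕ → ℕ → ℕ → ℕ → Bool := onCell 0 536870912 0 536870912 33554432 16777216
    (rowFK 0 false true true .pnp 0 1 2 (qsf 0 536870912 0 536870912 1) ndF0q0 ndF0q2 pcF1 cut_B00pp_012_s1 xt_B00pp_012_s1)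

def k0_B00pp_012_s1 : ∃ t, chk3 f_B00pp_012_s1 t 2 2 1 = true :=
  ⟨(a (a (l 2) (b (l 2) (b (l 2) (a (l 2) (a (l 2) (l 18442472)))))) (a (b (l 6) (a (b (l 6) (b (l 18427928) (l 18265616))) (b (l 18291296) (l 17927464)))) (b (a (l 6) (l 18009192)) (b (a (l 17985000) (l 17732864)) (a (b (l 17802384) (l 17635248)) (l 560797199)))))), by decide +kernel⟩

def k1_B00pp_012_s1 : ∃ t, chk3 f_B00pp_012_s1 t 2 6 1 = true :=
  ⟨(a (a (l 2) (b (a (l 2) (b (l 571338767) (a (l 18159984) (l 18060840)))) (a (a (b (l 2) (a (l 2) (l 577831951))) (b (l 576338959) (l 578927887))) (b (a (l 17941144) (l 17752304)) (a (l 578048783) (l 576432143)))))) (a (b (a (b (l 18044000) (l 570901263)) (b (l 17710120) (l 568698383))) (a (b (a (l 17482080) (l 17227352)) (a (l 574769423) (l 573311759))) (b (l 570308879) (l 571738383)))) (b (a (b (l 565238031) (l 567233039)) (l 564982031)) (a (b (l 569535503) (l 570643727)) (l 569573903))))), by decide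 +kernel⟩

def k2_B00pp_012_s1 : ∃ t, chk3 f_B00pp_012_s1 t 4 14 1 = true :=
  ⟨(a (a (l 2) (b (a (l 2) (a (l 2) (b (l 2) (l 574687759)))) (a (b (l 2) (a (a (l 2) (b (l 2) (l 535150607))) (a (b (l 540359951) (l 540990479)) (c (l 569865999) (l 539533839))))) (a (b (c (l 578403087) (a (l 550265359) (l 558784783))) (c (l 579938319) (a (l 551473935) (l 559954959)))) (b (l 576149263) (l 577404175)))))) (a (b (a (a (c (l 585363727) (l 571819791)) (l 580614159)) (b (l 580701199) (l 581827343))) (a (b (a (l 580597007) (l 582425359)) (a (l 581737743) (l 583525391))) (b (l 582912527) (l 583954959)))) (b (a (a (l 580370447) (l 579547407)) (l 578227727)) (a (c (l 585136911) (l 578905103)) (l 580048911))))), by decide +kernel⟩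

def k3_B00pp_012_s1 : ∃ t, chk3 f_B00pp_012_s1 t 16 15 1 = true :=
  ⟨(a (b (l 2) (a (b (l 2) (l 14)) (a (b (b (l 2) (b (l 2) (a (l 2) (a (b (l 2) (l 14)) (a (l 533945871) (l 533917711)))))) (a (l 14) (a (l 14) (a (l 14) (b (b (l 533676559) (l 533431823)) (l 3)))))) (b (b (a (l 2) (a (l 2) (b (l 2) (l 534167055)))) (a (a (a (b (l 2) (l 533621263)) (l 534246415)) (a (l 534218511) (l 533922319))) (a (b (l 534266127) (l 534034703)) (a (l 533840399) (l 533813519))))) (b (a (a (b (a (l 533649679) (l 533622799)) (a (l 533405967) (l 533380111))) (b (l 534119951) (l 533878543))) (a (b (l 533799183) (l 533559823)) (b (l 533748239) (l 533519375)))) (l 3)))))) (b (a (a (l 2) (b (l 2) (b (l 2) (a (b (l 2) (l 534551311)) (l 534807055))))) (a (b (l 2) (a (b (l 534807311) (l 534429967)) (b (l 534426639) (l 534055695)))) (b (b (l 2) (a (l 2) (l 534552079))) (a (b (l 534317327) (l 533952527)) (b (l 534210575) (l 533851663)))))) (b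 (a (a (a (a (b (l 534621455) (l 534041615)) (b (a (l 533908751) (l 533880847)) (l 533989391))) (b (b (a (l 533946895) (l 533891343)) (l 534779151)) (a (l 533937423) (l 533886223)))) (a (b (a (l 533998863) (l 533945615)) (b (l 534189583) (l 533969423))) (b (l 534403343) (l 533979151)))) (a (a (b (l 534032399) (l 533883151)) (b (l 533932815) (l 533574927))) (a (b (l 533835535) (l 533658639)) (a (l 533565967) (l 533606927))))) (b (b (a (a (a (b (l 534536975) (l 534419983)) (l 534109455)) (a (l 533841679) (l 3))) (l 3)) (l 3)) (l 3))))), by decide +kernel⟩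

def k4_B00pp_012_s1 : ∃ t, chk3 f_B00pp_012_s1 t 17 15 1 = true :=
  ⟨(b (a (a (a (a (b (b (l 2) (l 534173711)) (l 534465551)) (b (b (l 534414095) (l 534066703)) (l 534367247))) (b (b (a (l 534037519) (l 533932047)) (l 534714639)) (b (l 534123791) (l 534054159)))) (b (b (a (l 541490959) (c (l 570866959) (l 540163599))) (a (l 540519183) (c (l 571426063) (l 540441359)))) (a (b (l 542111503) (l 542254607)) (c (l 572116495) (l 540126223))))) (a (b (c (a (l 578454799) (l 583279375)) (a (b (l 552132367) (l 552457231)) (l 560818703))) (a (c (l 579474447) (l 552791055)) (c (l 584338447) (l 561403663)))) (a (b (l 576656911) (a (l 576501007) (l 578420239))) (b (l 579819791) (l 580722191))))) (b (b (a (a (a (l 534138895) (l 533972495)) (a (l 542276367) (l 3))) (l 3)) (l 3)) (l 3))), by decide +kernel⟩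

def k5_B00pp_012_s1 : ∃ t, chk3 f_B00pp_012_s1 t 9 15 1 = true :=
  ⟨(a (b (b (a (a (l 582781455) (l 584549391)) (l 584940303)) (l 3)) (l 3)) (l 3)), by decide +kernel⟩

def k6_B00pp_012_s1 : ∃ t, chk3 f_B00pp_012_s1 t 5 7 1 = true :=
  ⟨(a (b (b (a (l 575745551) (l 573285903)) (l 3)) (l 3)) (l 3)), by decide +kernel⟩

def k7_B00pp_012_s1 : ∃ t, chk3 f_B00pp_012_s1 t 3 1 1 = true :=
  ⟨(b (a (a (b (b (l 17824808) (l 17537416)) (b (a (l 17513584) (l 17396712)) (a (l 559267343) (l 557697039)))) (b (a (l 17468752) (l 549414671)) (b (a (l 552587535) (l 550918159)) (a (l 555511055) (l 553551631))))) (b (a (a (l 549358351) (l 548874511)) (l 551647503)) (a (b (a (l 548558351) (l 547764239)) (a (l 551655439) (l 3))) (b (l 549530895) (l 3))))) (b (a (b (a (a (l 563490063) (l 561492239)) (l 3)) (l 3)) (l 3)) (l 3))), by decide +kernel⟩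

theorem t8_B00pp_012_s1 : ∃ t, chk3 f_B00pp_012_s1 t 8 15 1 = true := ex3_a k3_B00pp_012_s1 k4_B00pp_012_s1

theorem t9_B00pp_012_s1 : ∃ t, chk3 f_B00pp_012_s1 t 4 15 1 = true := ex3_a t8_B00pp_012_s1 k5_B00pp_012_s1

theorem t10_B00pp_012_s1 : ∃ t, chk3 f_B00pp_012_s1 t 4 7 1 = true := ex3_b k2_B00pp_012_s1 t9_B00pp_012_s1

theorem t11_B00pp_012_s1 : ∃ t, chk3 f_B00pp_012_s1 t 2 7 1 = true := ex3_a t10_B00pp_012_s1 k6_B00pp_012_s1

theorem t12_B00pp_012_s1 : ∃ t, chk3 f_B00pp_012_s1 t 2 3 1 = true := ex3_b k1_B00pp_012_s1 t11_B00pp_012_s1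

theorem t13_B00pp_012_s1 : ∃ t, chk3 f_B00pp_012_s1 t 2 1 1 = true := ex3_b k0_B00pp_012_s1 t12_B00pp_012_s1

theorem t14_B00pp_012_s1 : ∃ t, chk3 f_B00pp_012_s1 t 1 1 1 = true := ex3_a t13_B00pp_012_s1 k7_B00pp_012_s1

theorem c_B00pp_012_s1 : CertF 0 536870912 0 536870912 33554432 16777216 false true true .pnp 0 1 2
    ndF0q0 ndF0q2 pcF1 cut_B00pp_012_s1 xt_B00pp_012_s1 :=
  certFK0 (fam := false) (s1 := true) (s2 := true) (a := 0) (b := 1) (c := 2) (cn := .pnp) (n1 := ndF0q0) (n2 := ndF0q2) (pc := pcF1) (cut := cut_B00pp_012_s1) (xt := xt_B00pp_012_s1) (P1 := 0) (W1 := 536870912) (P2 := 0) (W2 := 536870912) (P3 := 33554432) (W3 := 16777216)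
    rfl rfl rfl t14_B00pp_012_s1

theorem s_B00pp_012_s1 {κ x : ℝ} (hκ : κ * h0 = ken x) (hx : ((33554432 : ℕ) : ℝ) / S ≤ x)
    (hx' : x ≤ (((33554432 : ℕ) : ℝ) + (16777216 : ℕ)) / S)
    (H : CutB (VF κ) PP tKF tL pcF (Cut.of [[⟨0, 0, 0, 12582912⟩, ⟨1, 1, 0, 12582912⟩, ⟨2, 1, 0, 12582912⟩]]) 0 1 2 0 0 (sgb true) (sgb true) x) :
    AltB (VF κ) PP tKF tL pcF [⟨3, 0, 0, 1449551462⟩] 0 1 2 0 0 (sgb true) (sgb true) x :=
  strip_altB (m := 1449551462) true rfl hκ covF00 covF02 hx hx' c_B00pp_012_s1 H ((okx hx hx').extB (T := tt) (sideF hx hx') hκ rfl rfl (.O 0 true) (.O 2 true) (Or.inr rfl))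

noncomputable def cut_B00pp_012_s3 : Cut := Cut.of [[⟨3, 0, 0, 2845415833⟩], [⟨0, 0, 0, 12582912⟩, ⟨1, 1, 0, 12582912⟩, ⟨2, 1, 0, 12582912⟩]]

noncomputable def f_B00pp_012_s3 : ℕ → ℕ → ℕ → ℕ → Bool := onCell 0 536870912 0 536870912 33554432 16777216
    (rowFK 0 false true true .pnp 0 1 2 (qsf 0 536870912 0 536870912 1) ndF0q0 ndF0q2 pcF1 cut_B00pp_012_s3 Ext.none)

def k0_B00pp_012_s3 : ∃ t, chk3 f_B00pp_012_s3 t 1 1 1 = true :=
  ⟨(l 6), by decide +kernel⟩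

theorem c_B00pp_012_s3 : CertF 0 536870912 0 536870912 33554432 16777216 false true true .pnp 0 1 2
    ndF0q0 ndF0q2 pcF1 cut_B00pp_012_s3 Ext.none :=
  certFK0 (fam := false) (s1 := true) (s2 := true) (a := 0) (b := 1) (c := 2) (cn := .pnp) (n1 := ndF0q0) (n2 := ndF0q2) (pc := pcF1) (cut := cut_B00pp_012_s3) (xt := Ext.none) (P1 := 0) (W1 := 536870912) (P2 := 0) (W2 := 536870912) (P3 := 33554432) (W3 := 16777216)
    rfl rfl rfl k0_B00pp_012_s3

theorem s_B00pp_012_s3 {κ x : ℝ} (hκ : κ * h0 = ken x) (hx : ((33554432 : ℕ) : ℝ) / S ≤ x)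
    (hx' : x ≤ (((33554432 : ℕ) : ℝ) + (16777216 : ℕ)) / S)
    (H : CutB (VF κ) PP tKF tL pcF (Cut.of [[⟨0, 0, 0, 12582912⟩, ⟨1, 1, 0, 12582912⟩, ⟨2, 1, 0, 12582912⟩]]) 0 1 2 0 0 (sgb true) (sgb true) x) :
    AltB (VF κ) PP tKF tL pcF [⟨4, 0, 0, 2845415833⟩] 0 1 2 0 0 (sgb true) (sgb true) x :=
  strip_altB (m := 2845415833) false rfl hκ covF00 covF02 hx hx' c_B00pp_012_s3 H (noExt_B)

noncomputable def cut_B00pp_022_s1 : Cut := Cut.of [[⟨4, 0, 0, 1449551462⟩], [⟨0, 0, 0, 33554432⟩, ⟨1, 1, 0, 33554432⟩, ⟨2, 1, 0, 33554432⟩]]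

noncomputable def f_B00pp_022_s1 : ℕ → ℕ → ℕ → ℕ → Bool := onCell 1073741824 536870912 0 536870912 33554432 16777216
    (rowFK 2 false true true .pp 0 2 2 (qsf 0 536870912 0 536870912 2) ndF0q0 ndF0q2 pcF2 cut_B00pp_022_s1 Ext.none)

def k0_B00pp_022_s1 : ∃ t, chk3 f_B00pp_022_s1 t 2 2 1 = true :=
  ⟨(b (l 6) (a (a (a (a (a (l 18772184) (l 18802384)) (l 18850336)) (l 6)) (l 6)) (l 6))), by decide +kernel⟩

def k1_B00pp_022_s1 : ∃ t, chk3 f_B00pp_022_s1 t 2 6 1 = true :=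
  ⟨(a (a (a (a (a (b (l 18441656) (b (l 18188712) (l 17968056))) (b (l 18489144) (b (l 18249488) (l 18035712)))) (b (l 18563264) (b (l 18344064) (l 17974560)))) (b (l 18717376) (b (l 18544040) (b (l 18422224) (l 18146704))))) (b (a (l 18938864) (l 6)) (a (b (l 18823904) (a (l 18608512) (l 18705416))) (l 151972982055)))) (l 1)), by decide +kernel⟩

def k2_B00pp_022_s1 : ∃ t, chk3 f_B00pp_022_s1 t 8 28 1 = true :=
  ⟨(b (a (a (a (l 17750856) (l 17735792)) (a (l 17892152) (l 17967544))) (a (l 18002928) (l 18256296))) (a (a (a (a (l 17209224) (l 17323648)) (a (l 17271728) (b (l 17695928) (l 17414192)))) (a (b (l 17748808) (l 17296520)) (a (l 17494720) (l 17615888)))) (a (a (l 17422128) (l 17586688)) (a (l 17670920) (a (l 17814880) (l 18093968)))))), by decide +kernel⟩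

def k3_B00pp_022_s1 : ∃ t, chk3 f_B00pp_022_s1 t 8 29 1 = true :=
  ⟨(a (a (a (b (c (b (l 17560144) (a (l 17409792) (l 17441448))) (a (b (l 17104656) (a (l 16943784) (l 16947072))) (b (l 17119864) (l 16868688)))) (b (a (b (c (l 17293920) (l 16805568)) (l 16785544)) (c (l 17108176) (l 16770008))) (a (a (l 16768256) (l 16786248)) (a (l 16741760) (l 16739688))))) (b (c (b (l 17634720) (c (l 17602512) (l 17298064))) (b (a (l 17136832) (l 16987896)) (a (l 16794016) (a (l 16886232) (l 16808416))))) (b (c (a (l 17134864) (l 16995792)) (a (b (l 16889016) (l 16768816)) (a (l 16746240) (l 16746672)))) (a (a (l 16738480) (l 16737960)) (a (l 16737984) (b (l 16727168) (l 16745240))))))) (b (c (a (b (l 17714200) (l 17480824)) (b (l 17797960) (l 17642288))) (b (a (a (l 17175744) (l 17197144)) (l 17064280)) (a (a (a (l 16898704) (l 16989360)) (l 16832560)) (a (l 16932608) (l 17034392))))) (b (c (a (a (l 17193640) (l 17225176)) (b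 (l 17498264) (l 17300960))) (a (a (b (l 16813304) (l 16763096)) (l 16751760)) (a (l 16757496) (l 16765256)))) (a (a (b (l 16731944) (l 16743488)) (b (l 16740112) (l 16743160))) (a (l 16729808) (l 16738360)))))) (a (a (b (b (l 17207472) (c (l 17725120) (a (l 17053960) (l 17075144)))) (b (b (c (l 17573976) (l 16859288)) (l 16781552)) (a (l 16728008) (b (l 16877176) (l 16722392))))) (b (b (l 17366152) (b (l 17306296) (b (l 17307016) (l 17162696)))) (b (c (a (l 17489976) (a (l 17516560) (l 17612336))) (a (l 16799904) (b (l 16731856) (l 16722208)))) (a (b (l 16726024) (l 16732040)) (l 1))))) (b (a (a (b (l 17592824) (c (l 17871904) (a (l 17055664) (l 17232464)))) (b (l 17458496) (l 17566792))) (l 17620840)) (a (b (l 17103000) (l 1)) (l 1))))), by decide +kernel⟩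

def k4_B00pp_022_s1 : ∃ t, chk3 f_B00pp_022_s1 t 8 15 1 = true :=
  ⟨(b (b (a (a (a (a (a (b (l 16756432) (b (l 16756368) (l 16760560))) (b (l 16759464) (b (l 16751592) (l 16753216)))) (b (a (l 16754456) (l 16749240)) (b (a (l 16746656) (l 16741504)) (a (l 16748328) (l 16764192))))) (b (b (a (l 16751656) (a (l 16765824) (l 16764744))) (a (a (l 16734928) (l 16772352)) (a (l 16767880) (l 16746888)))) (a (a (b (l 16757752) (l 16759528)) (b (l 16753288) (l 16755120))) (b (a (l 16749496) (l 16739608)) (a (l 16752872) (a (l 16732288) (l 16732520))))))) (a (b (a (b (l 16745288) (l 16748264)) (b (l 16726488) (l 16729280))) (a (b (l 16735600) (a (l 16733056) (l 16733888))) (b (l 16732152) (l 16735088)))) (b (a (b (l 16728568) (l 16731168)) (l 16734336)) (a (b (l 16733840) (l 16736568)) (b (l 16735376) (a (l 16737576) (l 16738184))))))) (a (a (b (a (b (l 16732280) (a (l 16734096) (l 16734832))) (b (a (l 16733472) (l 16734200))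 (l 16735824))) (a (b (a (l 16736400) (l 16737024)) (l 16739016)) (l 1))) (l 1)) (l 1))) (a (a (l 14) (a (l 14) (a (l 14) (a (l 14) (a (l 14) (l 1)))))) (l 1))) (a (a (l 14) (a (l 14) (l 1))) (l 1))), by decide +kernel⟩

def k5_B00pp_022_s1 : ∃ t, chk3 f_B00pp_022_s1 t 9 7 1 = true :=
  ⟨(a (b (b (a (b (l 18386168) (l 18123864)) (l 1)) (l 1)) (l 1)) (l 1)), by decide +kernel⟩

def k6_B00pp_022_s1 : ∃ t, chk3 f_B00pp_022_s1 t 5 7 1 = true :=
  ⟨(l 1), by decide +kernel⟩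

def k7_B00pp_022_s1 : ∃ t, chk3 f_B00pp_022_s1 t 3 1 1 = true :=
  ⟨(l 1), by decide +kernel⟩

theorem t8_B00pp_022_s1 : ∃ t, chk3 f_B00pp_022_s1 t 8 14 1 = true := ex3_b k2_B00pp_022_s1 k3_B00pp_022_s1

theorem t9_B00pp_022_s1 : ∃ t, chk3 f_B00pp_022_s1 t 8 7 1 = true := ex3_b t8_B00pp_022_s1 k4_B00pp_022_s1

theorem t10_B00pp_022_s1 : ∃ t, chk3 f_B00pp_022_s1 t 4 7 1 = true := ex3_a t9_B00pp_022_s1 k5_B00pp_022_s1

theorem t11_B00pp_022_s1 : ∃ t, chk3 f_B00pp_022_s1 t 2 7 1 = true := ex3_a t10_B00pp_022_s1 k6_B00pp_022_s1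

theorem t12_B00pp_022_s1 : ∃ t, chk3 f_B00pp_022_s1 t 2 3 1 = true := ex3_b k1_B00pp_022_s1 t11_B00pp_022_s1

theorem t13_B00pp_022_s1 : ∃ t, chk3 f_B00pp_022_s1 t 2 1 1 = true := ex3_b k0_B00pp_022_s1 t12_B00pp_022_s1

theorem t14_B00pp_022_s1 : ∃ t, chk3 f_B00pp_022_s1 t 1 1 1 = true := ex3_a t13_B00pp_022_s1 k7_B00pp_022_s1

theorem c_B00pp_022_s1 : CertF 0 536870912 0 536870912 33554432 16777216 false true true .pp 0 2 2
    ndF0q0 ndF0q2 pcF2 cut_B00pp_022_s1 Ext.none :=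
  certFK2 (fam := false) (s1 := true) (s2 := true) (a := 0) (b := 2) (c := 2) (cn := .pp) (n1 := ndF0q0) (n2 := ndF0q2) (pc := pcF2) (cut := cut_B00pp_022_s1) (xt := Ext.none) (P1 := 0) (W1 := 536870912) (P2 := 0) (W2 := 536870912) (P3 := 33554432) (W3 := 16777216)
    rfl rfl rfl (fun _ => rfl) t14_B00pp_022_s1

theorem s_B00pp_022_s1 {κ x : ℝ} (hκ : κ * h0 = ken x) (hx : ((33554432 : ℕ) : ℝ) / S ≤ x)
    (hx' : x ≤ (((33554432 : ℕ) : ℝ) + (16777216 : ℕ)) / S)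
    (H : CutB (VF κ) PP tKF tL pcF (Cut.of [[⟨0, 0, 0, 33554432⟩, ⟨1, 1, 0, 33554432⟩, ⟨2, 1, 0, 33554432⟩]]) 0 2 2 0 0 (sgb true) (sgb true) x) :
    AltB (VF κ) PP tKF tL pcF [⟨3, 0, 0, 1449551462⟩] 0 2 2 0 0 (sgb true) (sgb true) x :=
  strip_altB (m := 1449551462) true rfl hκ covF00 covF02 hx hx' c_B00pp_022_s1 H (noExt_B)

noncomputable def cut_B00pp_022_s3 : Cut := Cut.of [[⟨3, 0, 0, 2845415833⟩], [⟨0, 0, 0, 33554432⟩, ⟨1, 1, 0, 33554432⟩, ⟨2, 1, 0, 33554432⟩]]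

noncomputable def f_B00pp_022_s3 : ℕ → ℕ → ℕ → ℕ → Bool := onCell 0 536870912 0 536870912 33554432 16777216
    (rowFK 0 false true true .pp 0 2 2 (qsf 0 536870912 0 536870912 2) ndF0q0 ndF0q2 pcF2 cut_B00pp_022_s3 Ext.none)

def k0_B00pp_022_s3 : ∃ t, chk3 f_B00pp_022_s3 t 1 1 1 = true :=
  ⟨(l 6), by decide +kernel⟩

theorem c_B00pp_022_s3 : CertF 0 536870912 0 536870912 33554432 16777216 false true true .pp 0 2 2
    ndF0q0 ndF0q2 pcF2 cut_B00pp_022_s3 Ext.none :=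
  certFK0 (fam := false) (s1 := true) (s2 := true) (a := 0) (b := 2) (c := 2) (cn := .pp) (n1 := ndF0q0) (n2 := ndF0q2) (pc := pcF2) (cut := cut_B00pp_022_s3) (xt := Ext.none) (P1 := 0) (W1 := 536870912) (P2 := 0) (W2 := 536870912) (P3 := 33554432) (W3 := 16777216)
    rfl rfl rfl k0_B00pp_022_s3

theorem s_B00pp_022_s3 {κ x : ℝ} (hκ : κ * h0 = ken x) (hx : ((33554432 : ℕ) : ℝ) / S ≤ x)
    (hx' : x ≤ (((33554432 : ℕ) : ℝ) + (16777216 : ℕ)) / S)
    (H : CutB (VF κ) PP tKF tL pcF (Cut.of [[⟨0, 0, 0, 33554432⟩, ⟨1, 1, 0, 33554432⟩, ⟨2, 1, 0, 33554432⟩]]) 0 2 2 0 0 (sgb true) (sgb true) x) :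
    AltB (VF κ) PP tKF tL pcF [⟨4, 0, 0, 2845415833⟩] 0 2 2 0 0 (sgb true) (sgb true) x :=
  strip_altB (m := 2845415833) false rfl hκ covF00 covF02 hx hx' c_B00pp_022_s3 H (noExt_B)

noncomputable def cut_B00pp_101_s1 : Cut := Cut.of [[⟨4, 0, 0, 1449551462⟩]]

noncomputable def f_B00pp_101_s1 : ℕ → ℕ → ℕ → ℕ → Bool := onCell 536870912 536870912 536870912 536870912 33554432 16777216
    (rowFK 0 false true true .npn 1 0 1 (qsf 536870912 536870912 536870912 536870912 0) ndF0q1 ndF0q1 pcF0 cut_B00pp_101_s1 Ext.none)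

def k0_B00pp_101_s1 : ∃ t, chk3 f_B00pp_101_s1 t 1 1 1 = true :=
  ⟨(l 3), by decide +kernel⟩

theorem c_B00pp_101_s1 : CertF 536870912 536870912 536870912 536870912 33554432 16777216 false true true .npn 1 0 1
    ndF0q1 ndF0q1 pcF0 cut_B00pp_101_s1 Ext.none :=
  certFK0 (fam := false) (s1 := true) (s2 := true) (a := 1) (b := 0) (c := 1) (cn := .npn) (n1 := ndF0q1) (n2 := ndF0q1) (pc := pcF0) (cut := cut_B00pp_101_s1) (xt := Ext.none) (P1 := 536870912) (W1 := 536870912) (P2 := 536870912) (W2 := 536870912) (P3 := 33554432) (W3 := 16777216)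
    rfl rfl rfl k0_B00pp_101_s1

theorem s_B00pp_101_s1 {κ x : ℝ} (hκ : κ * h0 = ken x) (hx : ((33554432 : ℕ) : ℝ) / S ≤ x)
    (hx' : x ≤ (((33554432 : ℕ) : ℝ) + (16777216 : ℕ)) / S) :
    AltB (VF κ) PP tKF tL pcF [⟨3, 0, 0, 1449551462⟩] 1 0 1 0 0 (sgb true) (sgb true) x :=
  strip_altB (m := 1449551462) true rfl hκ covF01 covF01 hx hx' c_B00pp_101_s1 cutB_nil (noExt_B)

noncomputable def cut_B00pp_101_s3 : Cut := Cut.of [[⟨3, 0, 0, 2845415833⟩]]

noncomputable def f_B00pp_101_s3 : ℕ → ℕ → ℕ → ℕ → Bool := onCell 536870912 536870912 536870912 536870912 33554432 16777216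
    (rowFK 0 false true true .npn 1 0 1 (qsf 536870912 536870912 536870912 536870912 0) ndF0q1 ndF0q1 pcF0 cut_B00pp_101_s3 Ext.none)

def k0_B00pp_101_s3 : ∃ t, chk3 f_B00pp_101_s3 t 1 1 1 = true :=
  ⟨(l 3), by decide +kernel⟩

theorem c_B00pp_101_s3 : CertF 536870912 536870912 536870912 536870912 33554432 16777216 false true true .npn 1 0 1
    ndF0q1 ndF0q1 pcF0 cut_B00pp_101_s3 Ext.none :=
  certFK0 (fam := false) (s1 := true) (s2 := true) (a := 1) (b := 0) (c := 1) (cn := .npn) (n1 := ndF0q1) (n2 := ndF0q1) (pc := pcF0) (cut := cut_B00pp_101_s3) (xt := Ext.none) (P1 := 536870912) (W1 := 536870912) (P2 := 536870912) (W2 := 536870912) (P3 := 33554432) (W3 := 16777216)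
    rfl rfl rfl k0_B00pp_101_s3

theorem s_B00pp_101_s3 {κ x : ℝ} (hκ : κ * h0 = ken x) (hx : ((33554432 : ℕ) : ℝ) / S ≤ x)
    (hx' : x ≤ (((33554432 : ℕ) : ℝ) + (16777216 : ℕ)) / S) :
    AltB (VF κ) PP tKF tL pcF [⟨4, 0, 0, 2845415833⟩] 1 0 1 0 0 (sgb true) (sgb true) x :=
  strip_altB (m := 2845415833) false rfl hκ covF01 covF01 hx hx' c_B00pp_101_s3 cutB_nil (noExt_B)

noncomputable def cut_B00pp_102_s1 : Cut := Cut.of [[⟨4, 0, 0, 1449551462⟩]]

noncomputable def f_B00pp_102_s1 : ℕ → ℕ → ℕ → ℕ → Bool := onCell 0 536870912 0 536870912 33554432 16777216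
    (rowFK 2 false true true .npp 1 0 2 (qsf 536870912 536870912 0 536870912 0) ndF0q1 ndF0q2 pcF0 cut_B00pp_102_s1 Ext.none)

def k0_B00pp_102_s1 : ∃ t, chk3 f_B00pp_102_s1 t 1 1 1 = true :=
  ⟨(a (b (l 3) (l 3)) (l 3)), by decide +kernel⟩

theorem c_B00pp_102_s1 : CertF 536870912 536870912 0 536870912 33554432 16777216 false true true .npp 1 0 2
    ndF0q1 ndF0q2 pcF0 cut_B00pp_102_s1 Ext.none :=
  certFK2 (fam := false) (s1 := true) (s2 := true) (a := 1) (b := 0) (c := 2) (cn := .npp) (n1 := ndF0q1) (n2 := ndF0q2) (pc := pcF0) (cut := cut_B00pp_102_s1) (xt := Ext.none) (P1 := 536870912) (W1 := 536870912) (P2 := 0) (W2 := 536870912) (P3 := 33554432) (W3 := 16777216)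
    rfl rfl rfl (fun _ => rfl) k0_B00pp_102_s1

theorem s_B00pp_102_s1 {κ x : ℝ} (hκ : κ * h0 = ken x) (hx : ((33554432 : ℕ) : ℝ) / S ≤ x)
    (hx' : x ≤ (((33554432 : ℕ) : ℝ) + (16777216 : ℕ)) / S) :
    AltB (VF κ) PP tKF tL pcF [⟨3, 0, 0, 1449551462⟩] 1 0 2 0 0 (sgb true) (sgb true) x :=
  strip_altB (m := 1449551462) true rfl hκ covF01 covF02 hx hx' c_B00pp_102_s1 cutB_nil (noExt_B)

noncomputable def cut_B00pp_102_s3 : Cut := Cut.of [[⟨3, 0, 0, 2845415833⟩]]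

noncomputable def f_B00pp_102_s3 : ℕ → ℕ → ℕ → ℕ → Bool := onCell 536870912 536870912 0 536870912 33554432 16777216
    (rowFK 0 false true true .npp 1 0 2 (qsf 536870912 536870912 0 536870912 0) ndF0q1 ndF0q2 pcF0 cut_B00pp_102_s3 Ext.none)

def k0_B00pp_102_s3 : ∃ t, chk3 f_B00pp_102_s3 t 1 1 1 = true :=
  ⟨(l 6), by decide +kernel⟩

theorem c_B00pp_102_s3 : CertF 536870912 536870912 0 536870912 33554432 16777216 false true true .npp 1 0 2
    ndF0q1 ndF0q2 pcF0 cut_B00pp_102_s3 Ext.none :=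
  certFK0 (fam := false) (s1 := true) (s2 := true) (a := 1) (b := 0) (c := 2) (cn := .npp) (n1 := ndF0q1) (n2 := ndF0q2) (pc := pcF0) (cut := cut_B00pp_102_s3) (xt := Ext.none) (P1 := 536870912) (W1 := 536870912) (P2 := 0) (W2 := 536870912) (P3 := 33554432) (W3 := 16777216)
    rfl rfl rfl k0_B00pp_102_s3

theorem s_B00pp_102_s3 {κ x : ℝ} (hκ : κ * h0 = ken x) (hx : ((33554432 : ℕ) : ℝ) / S ≤ x)
    (hx' : x ≤ (((33554432 : ℕ) : ℝ) + (16777216 : ℕ)) / S) :
    AltB (VF κ) PP tKF tL pcF [⟨4, 0, 0, 2845415833⟩] 1 0 2 0 0 (sgb true) (sgb true) x :=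
  strip_altB (m := 2845415833) false rfl hκ covF01 covF02 hx hx' c_B00pp_102_s3 cutB_nil (noExt_B)

noncomputable def cut_B00pp_112_s1 : Cut := Cut.of [[⟨4, 0, 0, 1449551462⟩]]

noncomputable def xt_B00pp_112_s1 : Ext := strExt dd false true true .u0 .u2 .u0m .dn 1 1 2 rfl rfl gf1 vv ndF0q1 ndF0q2

noncomputable def f_B00pp_112_s1 : ℕ → ℕ → ℕ → ℕ → Bool := onCell 536870912 536870912 0 536870912 33554432 16777216
    (rowFK 0 false true true .dn 1 1 2 (qsf 536870912 536870912 0 536870912 1) ndF0q1 ndF0q2 pcF1 cut_B00pp_112_s1 xt_B00pp_112_s1)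

def k0_B00pp_112_s1 : ∃ t, chk3 f_B00pp_112_s1 t 1 1 1 = true :=
  ⟨(b (a (b (a (a (l 554001679) (l 555210511)) (l 3)) (l 3)) (l 1)) (l 3)), by decide +kernel⟩

theorem c_B00pp_112_s1 : CertF 536870912 536870912 0 536870912 33554432 16777216 false true true .dn 1 1 2
    ndF0q1 ndF0q2 pcF1 cut_B00pp_112_s1 xt_B00pp_112_s1 :=
  certFK0 (fam := false) (s1 := true) (s2 := true) (a := 1) (b := 1) (c := 2) (cn := .dn) (n1 := ndF0q1) (n2 := ndF0q2) (pc := pcF1) (cut := cut_B00pp_112_s1) (xt := xt_B00pp_112_s1) (P1 := 536870912) (W1 := 536870912) (P2 := 0) (W2 := 536870912) (P3 := 33554432) (W3 := 16777216)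
    rfl rfl rfl k0_B00pp_112_s1

theorem s_B00pp_112_s1 {κ x : ℝ} (hκ : κ * h0 = ken x) (hx : ((33554432 : ℕ) : ℝ) / S ≤ x)
    (hx' : x ≤ (((33554432 : ℕ) : ℝ) + (16777216 : ℕ)) / S) :
    AltB (VF κ) PP tKF tL pcF [⟨3, 0, 0, 1449551462⟩] 1 1 2 0 0 (sgb true) (sgb true) x :=
  strip_altB (m := 1449551462) true rfl hκ covF01 covF02 hx hx' c_B00pp_112_s1 cutB_nil ((okx hx hx').extB (T := tt) (sideF hx hx') hκ rfl rfl (.O 1 true) (.O 2 true) (Or.inr rfl))

noncomputable def cut_B00pp_112_s3 : Cut := Cut.of [[⟨3, 0, 0, 2845415833⟩]]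

noncomputable def f_B00pp_112_s3 : ℕ → ℕ → ℕ → ℕ → Bool := onCell 536870912 536870912 0 536870912 33554432 16777216
    (rowFK 0 false true true .dn 1 1 2 (qsf 536870912 536870912 0 536870912 1) ndF0q1 ndF0q2 pcF1 cut_B00pp_112_s3 Ext.none)

def k0_B00pp_112_s3 : ∃ t, chk3 f_B00pp_112_s3 t 1 1 1 = true :=
  ⟨(l 6), by decide +kernel⟩

theorem c_B00pp_112_s3 : CertF 536870912 536870912 0 536870912 33554432 16777216 false true true .dn 1 1 2
    ndF0q1 ndF0q2 pcF1 cut_B00pp_112_s3 Ext.none :=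
  certFK0 (fam := false) (s1 := true) (s2 := true) (a := 1) (b := 1) (c := 2) (cn := .dn) (n1 := ndF0q1) (n2 := ndF0q2) (pc := pcF1) (cut := cut_B00pp_112_s3) (xt := Ext.none) (P1 := 536870912) (W1 := 536870912) (P2 := 0) (W2 := 536870912) (P3 := 33554432) (W3 := 16777216)
    rfl rfl rfl k0_B00pp_112_s3

theorem s_B00pp_112_s3 {κ x : ℝ} (hκ : κ * h0 = ken x) (hx : ((33554432 : ℕ) : ℝ) / S ≤ x)
    (hx' : x ≤ (((33554432 : ℕ) : ℝ) + (16777216 : ℕ)) / S) :
    AltB (VF κ) PP tKF tL pcF [⟨4, 0, 0, 2845415833⟩] 1 1 2 0 0 (sgb true) (sgb true) x :=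
  strip_altB (m := 2845415833) false rfl hκ covF01 covF02 hx hx' c_B00pp_112_s3 cutB_nil (noExt_B)

noncomputable def cut_B00pp_202_s1 : Cut := Cut.of [[⟨4, 0, 0, 1449551462⟩]]

noncomputable def f_B00pp_202_s1 : ℕ → ℕ → ℕ → ℕ → Bool := onCell 0 536870912 0 536870912 33554432 16777216
    (rowFK 0 false true true .pp 2 0 2 (qsf 0 536870912 0 536870912 0) ndF0q2 ndF0q2 pcF0 cut_B00pp_202_s1 Ext.none)

def k0_B00pp_202_s1 : ∃ t, chk3 f_B00pp_202_s1 t 1 1 1 = true :=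
  ⟨(l 3), by decide +kernel⟩

theorem c_B00pp_202_s1 : CertF 0 536870912 0 536870912 33554432 16777216 false true true .pp 2 0 2
    ndF0q2 ndF0q2 pcF0 cut_B00pp_202_s1 Ext.none :=
  certFK0 (fam := false) (s1 := true) (s2 := true) (a := 2) (b := 0) (c := 2) (cn := .pp) (n1 := ndF0q2) (n2 := ndF0q2) (pc := pcF0) (cut := cut_B00pp_202_s1) (xt := Ext.none) (P1 := 0) (W1 := 536870912) (P2 := 0) (W2 := 536870912) (P3 := 33554432) (W3 := 16777216)
    rfl rfl rfl k0_B00pp_202_s1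

theorem s_B00pp_202_s1 {κ x : ℝ} (hκ : κ * h0 = ken x) (hx : ((33554432 : ℕ) : ℝ) / S ≤ x)
    (hx' : x ≤ (((33554432 : ℕ) : ℝ) + (16777216 : ℕ)) / S) :
    AltB (VF κ) PP tKF tL pcF [⟨3, 0, 0, 1449551462⟩] 2 0 2 0 0 (sgb true) (sgb true) x :=
  strip_altB (m := 1449551462) true rfl hκ covF02 covF02 hx hx' c_B00pp_202_s1 cutB_nil (noExt_B)

noncomputable def cut_B00pp_202_s3 : Cut := Cut.of [[⟨3, 0, 0, 2845415833⟩]]

noncomputable def f_B00pp_202_s3 : ℕ → ℕ → ℕ → ℕ → Bool := onCell 0 536870912 0 536870912 33554432 16777216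
    (rowFK 0 false true true .pp 2 0 2 (qsf 0 536870912 0 536870912 0) ndF0q2 ndF0q2 pcF0 cut_B00pp_202_s3 Ext.none)

def k0_B00pp_202_s3 : ∃ t, chk3 f_B00pp_202_s3 t 1 1 1 = true :=
  ⟨(l 3), by decide +kernel⟩

theorem c_B00pp_202_s3 : CertF 0 536870912 0 536870912 33554432 16777216 false true true .pp 2 0 2
    ndF0q2 ndF0q2 pcF0 cut_B00pp_202_s3 Ext.none :=
  certFK0 (fam := false) (s1 := true) (s2 := true) (a := 2) (b := 0) (c := 2) (cn := .pp) (n1 := ndF0q2) (n2 := ndF0q2) (pc := pcF0) (cut := cut_B00pp_202_s3) (xt := Ext.none) (P1 := 0) (W1 := 536870912) (P2 := 0) (W2 := 536870912) (P3 := 33554432) (W3 := 16777216)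
    rfl rfl rfl k0_B00pp_202_s3

theorem s_B00pp_202_s3 {κ x : ℝ} (hκ : κ * h0 = ken x) (hx : ((33554432 : ℕ) : ℝ) / S ≤ x)
    (hx' : x ≤ (((33554432 : ℕ) : ℝ) + (16777216 : ℕ)) / S) :
    AltB (VF κ) PP tKF tL pcF [⟨4, 0, 0, 2845415833⟩] 2 0 2 0 0 (sgb true) (sgb true) x :=
  strip_altB (m := 2845415833) false rfl hκ covF02 covF02 hx hx' c_B00pp_202_s3 cutB_nil (noExt_B)

noncomputable def cut_B00pm_001_s1 : Cut := Cut.of [[⟨4, 0, 0, 1449551462⟩]]

noncomputable def f_B00pm_001_s1 : ℕ → ℕ → ℕ → ℕ → Bool := onCell 0 536870912 536870912 536870912 33554432 16777216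
    (rowFK 0 false true false .up 0 0 1 (qsf 0 536870912 536870912 536870912 0) ndF0q0 ndF0q1 pcF0 cut_B00pm_001_s1 Ext.none)

def k0_B00pm_001_s1 : ∃ t, chk3 f_B00pm_001_s1 t 1 1 1 = true :=
  ⟨(l 6), by decide +kernel⟩

theorem c_B00pm_001_s1 : CertF 0 536870912 536870912 536870912 33554432 16777216 false true false .up 0 0 1
    ndF0q0 ndF0q1 pcF0 cut_B00pm_001_s1 Ext.none :=
  certFK0 (fam := false) (s1 := true) (s2 := false) (a := 0) (b := 0) (c := 1) (cn := .up) (n1 := ndF0q0) (n2 := ndF0q1) (pc := pcF0) (cut := cut_B00pm_001_s1) (xt := Ext.none) (P1 := 0) (W1 := 536870912) (P2 := 536870912) (W2 := 536870912) (P3 := 33554432) (W3 := 16777216)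
    rfl rfl rfl k0_B00pm_001_s1

theorem s_B00pm_001_s1 {κ x : ℝ} (hκ : κ * h0 = ken x) (hx : ((33554432 : ℕ) : ℝ) / S ≤ x)
    (hx' : x ≤ (((33554432 : ℕ) : ℝ) + (16777216 : ℕ)) / S) :
    AltB (VF κ) PP tKF tL pcF [⟨3, 0, 0, 1449551462⟩] 0 0 1 0 0 (sgb true) (sgb false) x :=
  strip_altB (m := 1449551462) true rfl hκ covF00 covF01 hx hx' c_B00pm_001_s1 cutB_nil (noExt_B)

noncomputable def cut_B00pm_001_s3 : Cut := Cut.of [[⟨3, 0, 0, 2845415833⟩]]

noncomputable def xt_B00pm_001_s3 : Ext := strExt dd false true false .u0 .u0m .s0m .up 0 0 1 rfl rfl gl0 vv ndF0q0 ndF0q1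

noncomputable def f_B00pm_001_s3 : ℕ → ℕ → ℕ → ℕ → Bool := onCell 0 536870912 536870912 536870912 33554432 16777216
    (rowFK 0 false true false .up 0 0 1 (qsf 0 536870912 536870912 536870912 0) ndF0q0 ndF0q1 pcF0 cut_B00pm_001_s3 xt_B00pm_001_s3)

def k0_B00pm_001_s3 : ∃ t, chk3 f_B00pm_001_s3 t 2 1 1 = true :=
  ⟨(b (l 4) (b (b (l 4) (l 2)) (l 2))), by decide +kernel⟩

def k1_B00pm_001_s3 : ∃ t, chk3 f_B00pm_001_s3 t 3 2 1 = true :=
  ⟨(b (l 4) (a (l 4) (b (a (l 4) (b (a (l 4) (c (l 548632079) (l 546451215))) (c (c (l 547027215) (l 544412431)) (c (l 543016719) (l 542330383))))) (b (a (a (l 4) (a (l 4) (b (l 4) (c (l 546068751) (l 540837391))))) (c (c (l 548740367) (l 542989839)) (c (l 541115151) (c (l 540439567) (l 542047759))))) (c (a (b (a (l 545807119) (c (l 549853711) (l 543708431))) (a (l 545745423) (a (l 545464847) (l 17028816)))) (a (b (l 546501903) (l 17176856)) (l 17406512))) (a (a (c (l 540687119) (l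 542470159)) (a (b (c (l 539133711) (l 543619855)) (c (l 539707663) (l 543007247))) (c (l 540016911) (l 544684303)))) (a (b (c (l 16886744) (l 541831951)) (l 17061088)) (l 17177120)))))))), by decide +kernel⟩

def k2_B00pm_001_s3 : ∃ t, chk3 f_B00pm_001_s3 t 3 3 1 = true :=
  ⟨(a (a (b (b (b (l 4) (a (l 4) (c (l 554180367) (l 552133903)))) (b (b (a (l 2) (a (l 2) (l 554569743))) (l 2)) (l 2))) (l 2)) (b (b (a (b (l 4) (c (l 552035599) (l 548733967))) (c (b (c (l 549580559) (l 546252559)) (c (l 551064591) (l 548453903))) (b (c (l 544539663) (c (l 543723535) (l 544480783))) (c (l 546348303) (c (l 545197327) (l 546651151)))))) (b (a (c (l 555146767) (a (l 551295503) (l 550241551))) (c (l 553950223) (a (l 548959759) (l 548257807)))) (b (c (l 99960547911) (a (l 150962404183) (l 17350136))) (c (l 95128964183) (l 94054834295))))) (b (b (b (c (l 130562698423) (l 137004635351)) (l 2)) (l 2)) (l 2)))) (a (b (b (b (a (c (c (l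 547920911) (l 544550671)) (c (l 542553359) (l 543146767))) (c (c (b (l 17091192) (l 17144192)) (l 17037032)) (c (l 17002352) (c (l 17014160) (l 547039503))))) (c (a (c (l 549711375) (l 17118624)) (l 17368968)) (a (c (l 17077072) (b (l 17039760) (l 17084808))) (l 17317864)))) (b (c (c (l 17768408) (l 17485264)) (c (l 17303112) (b (l 17421456) (l 17483232)))) (c (c (l 18053424) (l 17703584)) (a (l 17649344) (l 17636024))))) (b (b (c (a (c (l 18063608) (l 17566336)) (l 18269472)) (c (l 17515072) (c (l 17687696) (c (l 17849544) (l 18042728))))) (a (a (l 2) (l 6)) (l 6))) (l 6))) (b (a (b (b (c (l 17401440) (l 17253448)) (c (l 17435152) (l 17321368))) (b (b (l 17603488) (l 17691272)) (c (l 17907496) (l 17624808)))) (b (b (c (l 17413712) (l 17204968)) (c (l 17540224) (l 17353216))) (c (b (l 17756608) (l 18026672)) (b (l 17450368) (l 17644752))))) (b (l 6) (l 6))))), by decide +kernel⟩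

theorem t3_B00pm_001_s3 : ∃ t, chk3 f_B00pm_001_s3 t 3 1 1 = true := ex3_b k1_B00pm_001_s3 k2_B00pm_001_s3

theorem t4_B00pm_001_s3 : ∃ t, chk3 f_B00pm_001_s3 t 1 1 1 = true := ex3_a k0_B00pm_001_s3 t3_B00pm_001_s3

theorem c_B00pm_001_s3 : CertF 0 536870912 536870912 536870912 33554432 16777216 false true false .up 0 0 1
    ndF0q0 ndF0q1 pcF0 cut_B00pm_001_s3 xt_B00pm_001_s3 :=
  certFK0 (fam := false) (s1 := true) (s2 := false) (a := 0) (b := 0) (c := 1) (cn := .up) (n1 := ndF0q0) (n2 := ndF0q1) (pc := pcF0) (cut := cut_B00pm_001_s3) (xt := xt_B00pm_001_s3) (P1 := 0) (W1 := 536870912) (P2 := 536870912) (W2 := 536870912) (P3 := 33554432) (W3 := 16777216)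
    rfl rfl rfl t4_B00pm_001_s3

theorem s_B00pm_001_s3 {κ x : ℝ} (hκ : κ * h0 = ken x) (hx : ((33554432 : ℕ) : ℝ) / S ≤ x)
    (hx' : x ≤ (((33554432 : ℕ) : ℝ) + (16777216 : ℕ)) / S) :
    AltB (VF κ) PP tKF tL pcF [⟨4, 0, 0, 2845415833⟩] 0 0 1 0 0 (sgb true) (sgb false) x :=
  strip_altB (m := 2845415833) false rfl hκ covF00 covF01 hx hx' c_B00pm_001_s3 cutB_nil ((okx hx hx').extB (T := tt) (sideF hx hx') hκ rfl rfl (.O 0 true) (.O 1 false) (Or.inl rfl))

noncomputable def cut_B00pm_011_s1 : Cut := Cut.of [[⟨4, 0, 0, 1449551462⟩], [⟨0, 0, 0, 16777216⟩, ⟨1, 1, 0, 16777216⟩, ⟨2, 1, 0, 16777216⟩], [⟨0, 0, 1, 16777216⟩, ⟨1, 1, 2, 16777216⟩, ⟨2, 1, 0, 6291456⟩, ⟨0, 0, 0, 67108864⟩, ⟨0, 1, 0, 1056964608⟩, ⟨1, 0, 0, 1056964608⟩, ⟨1, 1, 0, 67108864⟩]]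

noncomputable def f_B00pm_011_s1 : ℕ → ℕ → ℕ → ℕ → Bool := onCell 0 536870912 536870912 536870912 33554432 16777216
    (rowFK 0 false true false .pnn 0 1 1 (qsf 0 536870912 536870912 536870912 1) ndF0q0 ndF0q1 pcF1 cut_B00pm_011_s1 Ext.none)

def k0_B00pm_011_s1 : ∃ t, chk3 f_B00pm_011_s1 t 1 1 1 = true :=
  ⟨(l 6), by decide +kernel⟩

theorem c_B00pm_011_s1 : CertF 0 536870912 536870912 536870912 33554432 16777216 false true false .pnn 0 1 1
    ndF0q0 ndF0q1 pcF1 cut_B00pm_011_s1 Ext.none :=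
  certFK0 (fam := false) (s1 := true) (s2 := false) (a := 0) (b := 1) (c := 1) (cn := .pnn) (n1 := ndF0q0) (n2 := ndF0q1) (pc := pcF1) (cut := cut_B00pm_011_s1) (xt := Ext.none) (P1 := 0) (W1 := 536870912) (P2 := 536870912) (W2 := 536870912) (P3 := 33554432) (W3 := 16777216)
    rfl rfl rfl k0_B00pm_011_s1

theorem s_B00pm_011_s1 {κ x : ℝ} (hκ : κ * h0 = ken x) (hx : ((33554432 : ℕ) : ℝ) / S ≤ x)
    (hx' : x ≤ (((33554432 : ℕ) : ℝ) + (16777216 : ℕ)) / S)
    (H : CutB (VF κ) PP tKF tL pcF (Cut.of [[⟨0, 0, 0, 16777216⟩, ⟨1, 1, 0, 16777216⟩, ⟨2, 1, 0, 16777216⟩], [⟨0, 0, 1, 16777216⟩, ⟨1, 1, 2, 16777216⟩, ⟨2, 1, 0, 6291456⟩, ⟨0, 0, 0, 67108864⟩, ⟨0, 1, 0, 1056964608⟩, ⟨1, 0, 0, 1056964608⟩, ⟨1, 1, 0, 67108864⟩]]) 0 1 1 0 0 (sgb true) (sgb false) x) :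
    AltB (VF κ) PP tKF tL pcF [⟨3, 0, 0, 1449551462⟩] 0 1 1 0 0 (sgb true) (sgb false) x :=
  strip_altB (m := 1449551462) true rfl hκ covF00 covF01 hx hx' c_B00pm_011_s1 H (noExt_B)

end Pool.Agent.Strip051.G.I1_32_3_64.Tab.St.C
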