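import Pool.Agent.Strip051.G.I1_32_3_64.Tab
import Pool.Agent.Strip051.PB.RowK

/-! # Certificates F0 (generated) -/

set_option linter.all false
set_option maxRecDepth 100000

namespace Pool.Agent.Strip051.G.I1_32_3_64.Tab.C.FA00

open Pool.Agent.Strip051.PB Pool.Agent.Strip051.PB.T
open Pool.Agent.Strip051.G.I1_32_3_64.Tab

noncomputable def cut_pp_001 : Cut := Cut.of [[⟨3, 0, 0, 1449551462⟩], [⟨4, 0, 0, 2845415833⟩]]

noncomputable def f_pp_001 : ℕ → ℕ → ℕ → ℕ → Bool := onCell 0 536870912 0 536870912 33554432 16777216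
    (rowFK 0 true true true .up 0 0 1 (qsf 0 536870912 0 536870912 1) ndF0q0 ndF0q0 pcF1 cut_pp_001 Ext.none)

def k0_pp_001 : ∃ t, chk3 f_pp_001 t 1 1 1 = true :=
  ⟨(l 4), by decide +kernel⟩

theorem c_pp_001 : CertF 0 536870912 0 536870912 33554432 16777216 true true true .up 0 0 1
    ndF0q0 ndF0q0 pcF1 cut_pp_001 Ext.none :=
  certFK0 (fam := true) (s1 := true) (s2 := true) (a := 0) (b := 0) (c := 1) (cn := .up) (n1 := ndF0q0) (n2 := ndF0q0) (pc := pcF1) (cut := cut_pp_001) (xt := Ext.none) (P1 := 0) (W1 := 536870912) (P2 := 0) (W2 := 536870912) (P3 := 33554432) (W3 := 16777216)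
    rfl rfl rfl k0_pp_001

noncomputable def cut_pp_011 : Cut := Cut.of [[⟨3, 0, 0, 1449551462⟩], [⟨4, 0, 0, 2845415833⟩], [⟨0, 0, 0, 33554432⟩, ⟨1, 1, 0, 33554432⟩, ⟨2, 1, 0, 33554432⟩]]

noncomputable def f_pp_011 : ℕ → ℕ → ℕ → ℕ → Bool := onCell 0 536870912 536870912 536870912 33554432 16777216
    (rowFK 0 true true true .pnn 0 1 1 (qsf 0 536870912 536870912 536870912 1) ndF0q0 ndF0q1 pcF1 cut_pp_011 Ext.none)

def k0_pp_011 : ∃ t, chk3 f_pp_011 t 1 1 1 = true :=
  ⟨(l 14), by decide +kernel⟩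

theorem c_pp_011 : CertF 0 536870912 536870912 536870912 33554432 16777216 true true true .pnn 0 1 1
    ndF0q0 ndF0q1 pcF1 cut_pp_011 Ext.none :=
  certFK0 (fam := true) (s1 := true) (s2 := true) (a := 0) (b := 1) (c := 1) (cn := .pnn) (n1 := ndF0q0) (n2 := ndF0q1) (pc := pcF1) (cut := cut_pp_011) (xt := Ext.none) (P1 := 0) (W1 := 536870912) (P2 := 536870912) (W2 := 536870912) (P3 := 33554432) (W3 := 16777216)
    rfl rfl rfl k0_pp_011

noncomputable def cut_pp_012 : Cut := Cut.of [[⟨3, 0, 0, 1449551462⟩], [⟨4, 0, 0, 2845415833⟩], [⟨0, 0, 0, 33554432⟩, ⟨1, 1, 0, 33554432⟩, ⟨2, 1, 0, 33554432⟩]]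

noncomputable def f_pp_012 : ℕ → ℕ → ℕ → ℕ → Bool := onCell 0 536870912 536870912 536870912 33554432 16777216
    (rowFK 0 true true true .pnp 0 1 2 (qsf 0 536870912 536870912 536870912 2) ndF0q0 ndF0q1 pcF2 cut_pp_012 Ext.none)

def k0_pp_012 : ∃ t, chk3 f_pp_012 t 1 1 1 = true :=
  ⟨(l 14), by decide +kernel⟩

theorem c_pp_012 : CertF 0 536870912 536870912 536870912 33554432 16777216 true true true .pnp 0 1 2
    ndF0q0 ndF0q1 pcF2 cut_pp_012 Ext.none :=
  certFK0 (fam := true) (s1 := true) (s2 := true) (a := 0) (b := 1) (c := 2) (cn := .pnp) (n1 := ndF0q0) (n2 := ndF0q1) (pc := pcF2) (cut := cut_pp_012) (xt := Ext.none) (P1 := 0) (W1 := 536870912) (P2 := 536870912) (W2 := 536870912) (P3 := 33554432) (W3 := 16777216)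
    rfl rfl rfl k0_pp_012

noncomputable def cut_pp_022 : Cut := Cut.of [[⟨3, 0, 0, 1449551462⟩], [⟨4, 0, 0, 2845415833⟩], [⟨0, 0, 0, 16777216⟩, ⟨1, 1, 0, 16777216⟩, ⟨2, 1, 0, 16777216⟩]]

noncomputable def f_pp_022 : ℕ → ℕ → ℕ → ℕ → Bool := onCell 0 536870912 0 536870912 33554432 16777216
    (rowFK 0 true true true .pp 0 2 2 (qsf 0 536870912 0 536870912 2) ndF0q0 ndF0q2 pcF2 cut_pp_022 Ext.none)

def k0_pp_022 : ∃ t, chk3 f_pp_022 t 1 1 1 = true :=
  ⟨(a (b (a (a (b (l 19056480) (a (l 19194640) (l 18767872))) (b (l 18410688) (b (l 18314184) (l 18204632)))) (b (a (l 17923120) (l 17517576)) (a (b (l 17807048) (l 17793744)) (b (l 17384952) (l 14))))) (a (b (a (b (a (l 18968664) (l 18507392)) (a (b (a (l 18850600) (l 14)) (l 14)) (l 14))) (b (a (l 18125624) (l 14)) (l 14))) (l 14)) (l 14))) (b (b (a (a (l 17142368) (l 17050424)) (l 2)) (l 14)) (l 14))), by decide +kernel⟩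

theorem c_pp_022 : CertF 0 536870912 0 536870912 33554432 16777216 true true true .pp 0 2 2
    ndF0q0 ndF0q2 pcF2 cut_pp_022 Ext.none :=
  certFK0 (fam := true) (s1 := true) (s2 := true) (a := 0) (b := 2) (c := 2) (cn := .pp) (n1 := ndF0q0) (n2 := ndF0q2) (pc := pcF2) (cut := cut_pp_022) (xt := Ext.none) (P1 := 0) (W1 := 536870912) (P2 := 0) (W2 := 536870912) (P3 := 33554432) (W3 := 16777216)
    rfl rfl rfl k0_pp_022

noncomputable def cut_pp_023 : Cut := Cut.of [[⟨3, 0, 0, 1449551462⟩], [⟨4, 0, 0, 2845415833⟩]]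

noncomputable def f_pp_023 : ℕ → ℕ → ℕ → ℕ → Bool := onCell 1610612736 536870912 0 536870912 33554432 16777216
    (rowFK 2 true true true .up 0 2 3 (qsf 0 536870912 0 536870912 3) ndF0q0 ndF0q2 pcF3 cut_pp_023 Ext.none)

def k0_pp_023 : ∃ t, chk3 f_pp_023 t 1 1 1 = true :=
  ⟨(a (b (a (b (a (b (l 17062088) (l 14)) (l 14)) (l 14)) (l 14)) (l 4)) (l 2)), by decide +kernel⟩

theorem c_pp_023 : CertF 0 536870912 0 536870912 33554432 16777216 true true true .up 0 2 3
    ndF0q0 ndF0q2 pcF3 cut_pp_023 Ext.none :=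
  certFK2 (fam := true) (s1 := true) (s2 := true) (a := 0) (b := 2) (c := 3) (cn := .up) (n1 := ndF0q0) (n2 := ndF0q2) (pc := pcF3) (cut := cut_pp_023) (xt := Ext.none) (P1 := 0) (W1 := 536870912) (P2 := 0) (W2 := 536870912) (P3 := 33554432) (W3 := 16777216)
    rfl rfl rfl (fun _ => rfl) k0_pp_023

noncomputable def cut_pp_101 : Cut := Cut.of [[⟨3, 0, 0, 1449551462⟩], [⟨4, 0, 0, 2845415833⟩]]

noncomputable def f_pp_101 : ℕ → ℕ → ℕ → ℕ → Bool := onCell 536870912 536870912 0 536870912 33554432 16777216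
    (rowFK 0 true true true .npn 1 0 1 (qsf 536870912 536870912 0 536870912 1) ndF0q1 ndF0q0 pcF1 cut_pp_101 Ext.none)

def k0_pp_101 : ∃ t, chk3 f_pp_101 t 1 1 1 = true :=
  ⟨(l 14), by decide +kernel⟩

theorem c_pp_101 : CertF 536870912 536870912 0 536870912 33554432 16777216 true true true .npn 1 0 1
    ndF0q1 ndF0q0 pcF1 cut_pp_101 Ext.none :=
  certFK0 (fam := true) (s1 := true) (s2 := true) (a := 1) (b := 0) (c := 1) (cn := .npn) (n1 := ndF0q1) (n2 := ndF0q0) (pc := pcF1) (cut := cut_pp_101) (xt := Ext.none) (P1 := 536870912) (W1 := 536870912) (P2 := 0) (W2 := 536870912) (P3 := 33554432) (W3 := 16777216)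
    rfl rfl rfl k0_pp_101

noncomputable def cut_pp_102 : Cut := Cut.of [[⟨3, 0, 0, 1449551462⟩], [⟨4, 0, 0, 2845415833⟩]]

noncomputable def f_pp_102 : ℕ → ℕ → ℕ → ℕ → Bool := onCell 536870912 536870912 0 536870912 33554432 16777216
    (rowFK 0 true true true .npp 1 0 2 (qsf 536870912 536870912 0 536870912 2) ndF0q1 ndF0q0 pcF2 cut_pp_102 Ext.none)

def k0_pp_102 : ∃ t, chk3 f_pp_102 t 1 1 1 = true :=
  ⟨(l 14), by decide +kernel⟩

theorem c_pp_102 : CertF 536870912 536870912 0 536870912 33554432 16777216 true true true .npp 1 0 2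
    ndF0q1 ndF0q0 pcF2 cut_pp_102 Ext.none :=
  certFK0 (fam := true) (s1 := true) (s2 := true) (a := 1) (b := 0) (c := 2) (cn := .npp) (n1 := ndF0q1) (n2 := ndF0q0) (pc := pcF2) (cut := cut_pp_102) (xt := Ext.none) (P1 := 536870912) (W1 := 536870912) (P2 := 0) (W2 := 536870912) (P3 := 33554432) (W3 := 16777216)
    rfl rfl rfl k0_pp_102

noncomputable def cut_pp_112 : Cut := Cut.of [[⟨3, 0, 0, 1449551462⟩], [⟨4, 0, 0, 2845415833⟩]]

noncomputable def f_pp_112 : ℕ → ℕ → ℕ → ℕ → Bool := onCell 536870912 536870912 536870912 536870912 33554432 16777216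
    (rowFK 0 true true true .dn 1 1 2 (qsf 536870912 536870912 536870912 536870912 2) ndF0q1 ndF0q1 pcF2 cut_pp_112 Ext.none)

def k0_pp_112 : ∃ t, chk3 f_pp_112 t 1 1 1 = true :=
  ⟨(l 4), by decide +kernel⟩

theorem c_pp_112 : CertF 536870912 536870912 536870912 536870912 33554432 16777216 true true true .dn 1 1 2
    ndF0q1 ndF0q1 pcF2 cut_pp_112 Ext.none :=
  certFK0 (fam := true) (s1 := true) (s2 := true) (a := 1) (b := 1) (c := 2) (cn := .dn) (n1 := ndF0q1) (n2 := ndF0q1) (pc := pcF2) (cut := cut_pp_112) (xt := Ext.none) (P1 := 536870912) (W1 := 536870912) (P2 := 536870912) (W2 := 536870912) (P3 := 33554432) (W3 := 16777216)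
    rfl rfl rfl k0_pp_112

noncomputable def cut_pp_113 : Cut := Cut.of [[⟨3, 0, 0, 1449551462⟩], [⟨4, 0, 0, 2845415833⟩]]

noncomputable def f_pp_113 : ℕ → ℕ → ℕ → ℕ → Bool := onCell 536870912 536870912 536870912 536870912 33554432 16777216
    (rowFK 0 true true true .nn 1 1 3 (qsf 536870912 536870912 536870912 536870912 3) ndF0q1 ndF0q1 pcF3 cut_pp_113 Ext.none)

def k0_pp_113 : ∃ t, chk3 f_pp_113 t 1 1 1 = true :=
  ⟨(l 4), by decide +kernel⟩

theorem c_pp_113 : CertF 536870912 536870912 536870912 536870912 33554432 16777216 true true true .nn 1 1 3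
    ndF0q1 ndF0q1 pcF3 cut_pp_113 Ext.none :=
  certFK0 (fam := true) (s1 := true) (s2 := true) (a := 1) (b := 1) (c := 3) (cn := .nn) (n1 := ndF0q1) (n2 := ndF0q1) (pc := pcF3) (cut := cut_pp_113) (xt := Ext.none) (P1 := 536870912) (W1 := 536870912) (P2 := 536870912) (W2 := 536870912) (P3 := 33554432) (W3 := 16777216)
    rfl rfl rfl k0_pp_113

noncomputable def cut_pp_123 : Cut := Cut.of [[⟨3, 0, 0, 1449551462⟩], [⟨4, 0, 0, 2845415833⟩]]

noncomputable def f_pp_123 : ℕ → ℕ → ℕ → ℕ → Bool := onCell 536870912 536870912 0 536870912 33554432 16777216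
    (rowFK 0 true true true .npn 1 2 3 (qsf 536870912 536870912 0 536870912 3) ndF0q1 ndF0q2 pcF3 cut_pp_123 Ext.none)

def k0_pp_123 : ∃ t, chk3 f_pp_123 t 1 1 1 = true :=
  ⟨(a (l 14) (l 4)), by decide +kernel⟩

theorem c_pp_123 : CertF 536870912 536870912 0 536870912 33554432 16777216 true true true .npn 1 2 3
    ndF0q1 ndF0q2 pcF3 cut_pp_123 Ext.none :=
  certFK0 (fam := true) (s1 := true) (s2 := true) (a := 1) (b := 2) (c := 3) (cn := .npn) (n1 := ndF0q1) (n2 := ndF0q2) (pc := pcF3) (cut := cut_pp_123) (xt := Ext.none) (P1 := 536870912) (W1 := 536870912) (P2 := 0) (W2 := 536870912) (P3 := 33554432) (W3 := 16777216)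
    rfl rfl rfl k0_pp_123

noncomputable def cut_pp_202 : Cut := Cut.of [[⟨3, 0, 0, 1449551462⟩], [⟨4, 0, 0, 2845415833⟩]]

noncomputable def f_pp_202 : ℕ → ℕ → ℕ → ℕ → Bool := onCell 0 536870912 0 536870912 33554432 16777216
    (rowFK 0 true true true .pp 2 0 2 (qsf 0 536870912 0 536870912 2) ndF0q2 ndF0q0 pcF2 cut_pp_202 Ext.none)

def k0_pp_202 : ∃ t, chk3 f_pp_202 t 1 1 1 = true :=
  ⟨(l 5), by decide +kernel⟩

theorem c_pp_202 : CertF 0 536870912 0 536870912 33554432 16777216 true true true .pp 2 0 2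
    ndF0q2 ndF0q0 pcF2 cut_pp_202 Ext.none :=
  certFK0 (fam := true) (s1 := true) (s2 := true) (a := 2) (b := 0) (c := 2) (cn := .pp) (n1 := ndF0q2) (n2 := ndF0q0) (pc := pcF2) (cut := cut_pp_202) (xt := Ext.none) (P1 := 0) (W1 := 536870912) (P2 := 0) (W2 := 536870912) (P3 := 33554432) (W3 := 16777216)
    rfl rfl rfl k0_pp_202

noncomputable def cut_pp_203 : Cut := Cut.of [[⟨3, 0, 0, 1449551462⟩], [⟨4, 0, 0, 2845415833⟩]]

noncomputable def f_pp_203 : ℕ → ℕ → ℕ → ℕ → Bool := onCell 0 536870912 0 536870912 33554432 16777216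
    (rowFK 0 true true true .up 2 0 3 (qsf 0 536870912 0 536870912 3) ndF0q2 ndF0q0 pcF3 cut_pp_203 Ext.none)

def k0_pp_203 : ∃ t, chk3 f_pp_203 t 1 1 1 = true :=
  ⟨(l 5), by decide +kernel⟩

theorem c_pp_203 : CertF 0 536870912 0 536870912 33554432 16777216 true true true .up 2 0 3
    ndF0q2 ndF0q0 pcF3 cut_pp_203 Ext.none :=
  certFK0 (fam := true) (s1 := true) (s2 := true) (a := 2) (b := 0) (c := 3) (cn := .up) (n1 := ndF0q2) (n2 := ndF0q0) (pc := pcF3) (cut := cut_pp_203) (xt := Ext.none) (P1 := 0) (W1 := 536870912) (P2 := 0) (W2 := 536870912) (P3 := 33554432) (W3 := 16777216)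
    rfl rfl rfl k0_pp_203

noncomputable def cut_pp_213 : Cut := Cut.of [[⟨3, 0, 0, 1449551462⟩], [⟨4, 0, 0, 2845415833⟩]]

noncomputable def f_pp_213 : ℕ → ℕ → ℕ → ℕ → Bool := onCell 0 536870912 536870912 536870912 33554432 16777216
    (rowFK 0 true true true .pnn 2 1 3 (qsf 0 536870912 536870912 536870912 3) ndF0q2 ndF0q1 pcF3 cut_pp_213 Ext.none)

def k0_pp_213 : ∃ t, chk3 f_pp_213 t 1 1 1 = true :=
  ⟨(a (l 5) (l 4)), by decide +kernel⟩

theorem c_pp_213 : CertF 0 536870912 536870912 536870912 33554432 16777216 true true true .pnn 2 1 3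
    ndF0q2 ndF0q1 pcF3 cut_pp_213 Ext.none :=
  certFK0 (fam := true) (s1 := true) (s2 := true) (a := 2) (b := 1) (c := 3) (cn := .pnn) (n1 := ndF0q2) (n2 := ndF0q1) (pc := pcF3) (cut := cut_pp_213) (xt := Ext.none) (P1 := 0) (W1 := 536870912) (P2 := 536870912) (W2 := 536870912) (P3 := 33554432) (W3 := 16777216)
    rfl rfl rfl k0_pp_213

noncomputable def cut_pm_001 : Cut := Cut.of [[⟨3, 0, 0, 1449551462⟩], [⟨4, 0, 0, 2845415833⟩]]

noncomputable def f_pm_001 : ℕ → ℕ → ℕ → ℕ → Bool := onCell 0 536870912 0 536870912 33554432 16777216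
    (rowFK 0 true true false .up 0 0 1 (qsf 0 536870912 0 536870912 1) ndF0q0 ndF0q0 pcF1 cut_pm_001 Ext.none)

def k0_pm_001 : ∃ t, chk3 f_pm_001 t 1 1 1 = true :=
  ⟨(l 3), by decide +kernel⟩

theorem c_pm_001 : CertF 0 536870912 0 536870912 33554432 16777216 true true false .up 0 0 1
    ndF0q0 ndF0q0 pcF1 cut_pm_001 Ext.none :=
  certFK0 (fam := true) (s1 := true) (s2 := false) (a := 0) (b := 0) (c := 1) (cn := .up) (n1 := ndF0q0) (n2 := ndF0q0) (pc := pcF1) (cut := cut_pm_001) (xt := Ext.none) (P1 := 0) (W1 := 536870912) (P2 := 0) (W2 := 536870912) (P3 := 33554432) (W3 := 16777216)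
    rfl rfl rfl k0_pm_001

noncomputable def cut_pm_011 : Cut := Cut.of [[⟨3, 0, 0, 1449551462⟩], [⟨4, 0, 0, 2845415833⟩], [⟨0, 0, 0, 33554432⟩, ⟨1, 1, 0, 33554432⟩, ⟨2, 1, 0, 33554432⟩]]

noncomputable def f_pm_011 : ℕ → ℕ → ℕ → ℕ → Bool := onCell 0 536870912 536870912 536870912 33554432 16777216
    (rowFK 1 true true false .pnn 0 1 1 (qsf 0 536870912 536870912 536870912 1) ndF0q0 ndF0q1 pcF1 cut_pm_011 Ext.none)

def k0_pm_011 : ∃ t, chk3 f_pm_011 t 1 1 1 = true :=
  ⟨(l 6), by decide +kernel⟩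

theorem c_pm_011 : CertF 0 536870912 536870912 536870912 33554432 16777216 true true false .pnn 0 1 1
    ndF0q0 ndF0q1 pcF1 cut_pm_011 Ext.none :=
  certFK1 (fam := true) (s1 := true) (s2 := false) (a := 0) (b := 1) (c := 1) (cn := .pnn) (n1 := ndF0q0) (n2 := ndF0q1) (pc := pcF1) (cut := cut_pm_011) (xt := Ext.none) (P1 := 0) (W1 := 536870912) (P2 := 536870912) (W2 := 536870912) (P3 := 33554432) (W3 := 16777216)
    rfl rfl rfl (fun _ => rfl) k0_pm_011

noncomputable def cut_pm_012 : Cut := Cut.of [[⟨3, 0, 0, 1449551462⟩], [⟨4, 0, 0, 2845415833⟩], [⟨0, 0, 0, 12582912⟩, ⟨1, 1, 0, 12582912⟩, ⟨2, 1, 0, 12582912⟩], [⟨0, 0, 1, 16777216⟩, ⟨1, 1, 0, 6291456⟩, ⟨2, 1, 1, 16777216⟩, ⟨0, 0, 0, 67108864⟩, ⟨0, 1, 0, 1056964608⟩, ⟨2, 1, 0, 67108864⟩, ⟨2, 2, 0, 1056964608⟩]]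

noncomputable def f_pm_012 : ℕ → ℕ → ℕ → ℕ → Bool := onCell 0 536870912 536870912 536870912 33554432 16777216
    (rowFK 0 true true false .pnp 0 1 2 (qsf 0 536870912 536870912 536870912 2) ndF0q0 ndF0q1 pcF2 cut_pm_012 Ext.none)

def k0_pm_012 : ∃ t, chk3 f_pm_012 t 1 1 1 = true :=
  ⟨(b (l 6) (a (a (l 6) (b (l 6) (a (l 6) (b (l 6) (b (l 6) (l 17881400)))))) (a (b (l 6) (b (a (l 6) (l 17322560)) (a (b (l 17562424) (l 17719288)) (l 17591632)))) (b (b (l 6) (a (l 17227192) (l 17126184))) (b (a (l 17364944) (l 17412872)) (l 17708200)))))), by decide +kernel⟩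

theorem c_pm_012 : CertF 0 536870912 536870912 536870912 33554432 16777216 true true false .pnp 0 1 2
    ndF0q0 ndF0q1 pcF2 cut_pm_012 Ext.none :=
  certFK0 (fam := true) (s1 := true) (s2 := false) (a := 0) (b := 1) (c := 2) (cn := .pnp) (n1 := ndF0q0) (n2 := ndF0q1) (pc := pcF2) (cut := cut_pm_012) (xt := Ext.none) (P1 := 0) (W1 := 536870912) (P2 := 536870912) (W2 := 536870912) (P3 := 33554432) (W3 := 16777216)
    rfl rfl rfl k0_pm_012

noncomputable def cut_pm_022 : Cut := Cut.of [[⟨3, 0, 0, 1449551462⟩], [⟨4, 0, 0, 2845415833⟩], [⟨0, 0, 0, 33554432⟩, ⟨1, 1, 0, 33554432⟩, ⟨2, 1, 0, 33554432⟩], [⟨0, 0, 1, 16777216⟩, ⟨1, 1, 0, 6291456⟩, ⟨2, 1, 1, 16777216⟩, ⟨0, 0, 0, 67108864⟩, ⟨0, 1, 0, 1056964608⟩, ⟨2, 1, 0, 67108864⟩, ⟨2, 2, 0, 1056964608⟩]]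

noncomputable def f_pm_022 : ℕ → ℕ → ℕ → ℕ → Bool := onCell 0 536870912 0 536870912 33554432 16777216
    (rowFK 0 true true false .pp 0 2 2 (qsf 0 536870912 0 536870912 2) ndF0q0 ndF0q2 pcF2 cut_pm_022 Ext.none)

def k0_pm_022 : ∃ t, chk3 f_pm_022 t 1 1 1 = true :=
  ⟨(a (b (a (a (b (l 19121168) (l 19029472)) (b (l 18560160) (l 18537392))) (b (a (l 18113608) (l 17696320)) (a (l 18132672) (l 17737496)))) (b (a (a (b (l 18923736) (a (b (l 18906488) (a (l 6) (l 18741104))) (l 18729696))) (l 18632880)) (a (l 18212696) (l 17877904))) (a (b (a (a (l 6) (b (l 18557912) (l 6))) (a (l 18458648) (l 18399848))) (l 6)) (a (b (l 18261296) (b (l 18201344) (l 18121264))) (b (l 18009480) (l 18006752)))))) (b (a (b (a (l 17335688) (l 17107776)) (a (l 17382624) (l 17150088))) (b (l 2) (a (l 17107840) (l 2)))) (a (b (l 17610152) (a (l 17891632) (l 17655416))) (b (l 17361136) (l 17753064))))), by decide +kernel⟩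

theorem c_pm_022 : CertF 0 536870912 0 536870912 33554432 16777216 true true false .pp 0 2 2
    ndF0q0 ndF0q2 pcF2 cut_pm_022 Ext.none :=
  certFK0 (fam := true) (s1 := true) (s2 := false) (a := 0) (b := 2) (c := 2) (cn := .pp) (n1 := ndF0q0) (n2 := ndF0q2) (pc := pcF2) (cut := cut_pm_022) (xt := Ext.none) (P1 := 0) (W1 := 536870912) (P2 := 0) (W2 := 536870912) (P3 := 33554432) (W3 := 16777216)
    rfl rfl rfl k0_pm_022

noncomputable def cut_pm_023 : Cut := Cut.of [[⟨3, 0, 0, 1449551462⟩], [⟨4, 0, 0, 2845415833⟩]]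

noncomputable def f_pm_023 : ℕ → ℕ → ℕ → ℕ → Bool := onCell 0 536870912 0 536870912 33554432 16777216
    (rowFK 0 true true false .up 0 2 3 (qsf 0 536870912 0 536870912 3) ndF0q0 ndF0q2 pcF3 cut_pm_023 Ext.none)

def k0_pm_023 : ∃ t, chk3 f_pm_023 t 1 1 1 = true :=
  ⟨(a (l 1) (b (a (a (l 1) (b (l 17370520) (l 17518608))) (b (a (l 17270696) (b (l 17145672) (l 17277064))) (a (l 17458752) (l 17536432)))) (b (a (l 1) (a (l 17539208) (l 17529792))) (a (l 1) (b (l 17576272) (a (l 1) (l 17536264))))))), by decide +kernel⟩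

theorem c_pm_023 : CertF 0 536870912 0 536870912 33554432 16777216 true true false .up 0 2 3
    ndF0q0 ndF0q2 pcF3 cut_pm_023 Ext.none :=
  certFK0 (fam := true) (s1 := true) (s2 := false) (a := 0) (b := 2) (c := 3) (cn := .up) (n1 := ndF0q0) (n2 := ndF0q2) (pc := pcF3) (cut := cut_pm_023) (xt := Ext.none) (P1 := 0) (W1 := 536870912) (P2 := 0) (W2 := 536870912) (P3 := 33554432) (W3 := 16777216)
    rfl rfl rfl k0_pm_023

noncomputable def cut_pm_101 : Cut := Cut.of [[⟨3, 0, 0, 1449551462⟩], [⟨4, 0, 0, 2845415833⟩], [⟨0, 1, 0, 33554432⟩, ⟨1, 0, 0, 33554432⟩, ⟨2, 1, 0, 33554432⟩]]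

noncomputable def f_pm_101 : ℕ → ℕ → ℕ → ℕ → Bool := onCell 536870912 536870912 536870912 536870912 33554432 16777216
    (rowFK 1 true true false .npn 1 0 1 (qsf 536870912 536870912 0 536870912 1) ndF0q1 ndF0q0 pcF1 cut_pm_101 Ext.none)

def k0_pm_101 : ∃ t, chk3 f_pm_101 t 1 1 1 = true :=
  ⟨(l 6), by decide +kernel⟩

theorem c_pm_101 : CertF 536870912 536870912 0 536870912 33554432 16777216 true true false .npn 1 0 1
    ndF0q1 ndF0q0 pcF1 cut_pm_101 Ext.none :=
  certFK1 (fam := true) (s1 := true) (s2 := false) (a := 1) (b := 0) (c := 1) (cn := .npn) (n1 := ndF0q1) (n2 := ndF0q0) (pc := pcF1) (cut := cut_pm_101) (xt := Ext.none) (P1 := 536870912) (W1 := 536870912) (P2 := 0) (W2 := 536870912) (P3 := 33554432) (W3 := 16777216)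
    rfl rfl rfl (fun _ => rfl) k0_pm_101

noncomputable def cut_pm_102 : Cut := Cut.of [[⟨3, 0, 0, 1449551462⟩], [⟨4, 0, 0, 2845415833⟩], [⟨0, 1, 0, 12582912⟩, ⟨1, 0, 0, 12582912⟩, ⟨2, 1, 0, 12582912⟩], [⟨0, 1, 0, 6291456⟩, ⟨1, 0, 1, 16777216⟩, ⟨2, 1, 1, 16777216⟩, ⟨1, 0, 0, 67108864⟩, ⟨1, 1, 0, 1056964608⟩, ⟨2, 1, 0, 67108864⟩, ⟨2, 2, 0, 1056964608⟩]]

noncomputable def f_pm_102 : ℕ → ℕ → ℕ → ℕ → Bool := onCell 536870912 536870912 0 536870912 33554432 16777216
    (rowFK 0 true true false .npp 1 0 2 (qsf 536870912 536870912 0 536870912 2) ndF0q1 ndF0q0 pcF2 cut_pm_102 Ext.none)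

def k0_pm_102 : ∃ t, chk3 f_pm_102 t 1 1 1 = true :=
  ⟨(a (l 6) (b (a (l 6) (b (l 6) (a (l 6) (b (l 6) (a (l 6) (l 17860432)))))) (a (b (l 6) (a (l 6) (b (l 17227192) (l 17126184)))) (b (a (b (l 6) (l 17322560)) (b (a (l 17562424) (l 17719288)) (l 17591632))) (a (b (l 17364944) (l 17412872)) (l 17708200)))))), by decide +kernel⟩

theorem c_pm_102 : CertF 536870912 536870912 0 536870912 33554432 16777216 true true false .npp 1 0 2
    ndF0q1 ndF0q0 pcF2 cut_pm_102 Ext.none :=
  certFK0 (fam := true) (s1 := true) (s2 := false) (a := 1) (b := 0) (c := 2) (cn := .npp) (n1 := ndF0q1) (n2 := ndF0q0) (pc := pcF2) (cut := cut_pm_102) (xt := Ext.none) (P1 := 536870912) (W1 := 536870912) (P2 := 0) (W2 := 536870912) (P3 := 33554432) (W3 := 16777216)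
    rfl rfl rfl k0_pm_102

noncomputable def cut_pm_112 : Cut := Cut.of [[⟨3, 0, 0, 1449551462⟩], [⟨4, 0, 0, 2845415833⟩]]

noncomputable def f_pm_112 : ℕ → ℕ → ℕ → ℕ → Bool := onCell 536870912 536870912 536870912 536870912 33554432 16777216
    (rowFK 0 true true false .dn 1 1 2 (qsf 536870912 536870912 536870912 536870912 2) ndF0q1 ndF0q1 pcF2 cut_pm_112 Ext.none)

def k0_pm_112 : ∃ t, chk3 f_pm_112 t 1 1 1 = true :=
  ⟨(a (b (a (b (l 6) (b (l 6) (a (l 6) (l 16979344)))) (b (a (l 6) (b (l 6) (l 16979344))) (b (a (l 17031464) (l 17053224)) (a (l 17053224) (l 17017320))))) (b (a (b (a (l 16945640) (l 17002080)) (l 17358088)) (a (l 17299272) (l 17302240))) (a (b (l 17455352) (l 17622728)) (b (l 17426912) (l 2))))) (b (a (b (a (b (l 16945640) (l 17002080)) (l 17358088)) (b (l 17299272) (l 17302240))) (b (a (l 17455352) (l 17622728)) (a (l 17426912) (l 2)))) (a (b (b (l 17283576) (l 2)) (l 2)) (l 2)))), by decide +kernel⟩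

theorem c_pm_112 : CertF 536870912 536870912 536870912 536870912 33554432 16777216 true true false .dn 1 1 2
    ndF0q1 ndF0q1 pcF2 cut_pm_112 Ext.none :=
  certFK0 (fam := true) (s1 := true) (s2 := false) (a := 1) (b := 1) (c := 2) (cn := .dn) (n1 := ndF0q1) (n2 := ndF0q1) (pc := pcF2) (cut := cut_pm_112) (xt := Ext.none) (P1 := 536870912) (W1 := 536870912) (P2 := 536870912) (W2 := 536870912) (P3 := 33554432) (W3 := 16777216)
    rfl rfl rfl k0_pm_112

noncomputable def cut_pm_113 : Cut := Cut.of [[⟨3, 0, 0, 1449551462⟩], [⟨4, 0, 0, 2845415833⟩], [⟨0, 1, 0, 7061502⟩, ⟨1, 1, 0, 7061502⟩, ⟨2, 2, 0, 184626⟩]]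

noncomputable def f_pm_113 : ℕ → ℕ → ℕ → ℕ → Bool := onCell 536870912 536870912 536870912 536870912 33554432 16777216
    (rowFK 0 true true false .nn 1 1 3 (qsf 536870912 536870912 536870912 536870912 3) ndF0q1 ndF0q1 pcF3 cut_pm_113 Ext.none)

def k0_pm_113 : ∃ t, chk3 f_pm_113 t 2 1 1 = true :=
  ⟨(b (a (l 1) (b (l 1) (a (l 1) (b (l 1) (l 17038288))))) (b (a (b (l 1) (a (l 1) (c (l 18098816) (l 105263325399)))) (b (a (l 17488184) (l 17232824)) (a (l 18092336) (b (l 17562960) (l 17857312))))) (a (b (a (l 18383416) (b (l 18277672) (l 18066424))) (a (b (l 17810504) (l 74123597351)) (b (l 17735536) (b (l 17417256) (l 17397448))))) (b (a (b (l 18359112) (l 18110912)) (b (l 18225248) (b (l 18305912) (l 18169256)))) (b (a (l 17866992) (b (l 17926912) (l 17693480))) (a (b (l 17314992) (l 17463784)) (b (l 17384624) (b (l 17172928) (l 17393888))))))))), by decide +kernel⟩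

def k1_pm_113 : ∃ t, chk3 f_pm_113 t 3 2 1 = true :=
  ⟨(a (b (a (l 1) (b (l 1) (c (l 18098816) (l 105263325399)))) (a (b (l 17488184) (l 17232824)) (b (l 18092336) (a (l 17562960) (l 17857312))))) (b (a (b (l 18383416) (a (l 18277672) (l 18066424))) (b (a (l 17810504) (l 74123597351)) (a (l 17735536) (a (l 17417256) (l 17397448))))) (a (b (a (l 18359112) (l 18110912)) (a (l 18225248) (a (l 18305912) (l 18169256)))) (a (b (l 17866992) (a (l 17926912) (l 17693480))) (b (a (l 17314992) (l 17463784)) (a (l 17384624) (a (l 17172928) (l 17393888)))))))), by decide +kernel⟩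

def k2_pm_113 : ∃ t, chk3 f_pm_113 t 3 3 1 = true :=
  ⟨(a (b (b (a (l 17148928) (a (l 17306128) (l 17643576))) (a (b (l 17306128) (l 17643576)) (a (l 17283680) (l 17322968)))) (b (a (b (l 17932344) (a (l 18254416) (l 18240544))) (b (a (l 17599592) (l 17307144)) (a (l 17933864) (l 17633952)))) (a (b (b (l 18282608) (l 17833056)) (b (l 17604408) (b (l 17168440) (l 17354672)))) (b (a (b (l 18068736) (l 17802608)) (b (l 17959464) (b (l 17876928) (l 17709152)))) (b (b (l 17645880) (a (l 17303648) (l 17272584))) (b (l 17287200) (a (l 17174536) (l 17238080)))))))) (b (a (b (a (l 17932344) (a (l 18169240) (l 18358024))) (a (b (l 17599592) (l 17307144)) (b (l 17933864) (l 17633952)))) (b (a (a (l 18282608) (l 17833056)) (a (l 17604408) (a (l 17168440) (l 17354672)))) (a (b (a (l 18068736) (l 17802608)) (a (l 17959464) (a (l 17876928) (l 17709152)))) (a (a (l 17645880) (b (l 17303648) (l 17272584))) (a (l 17287200) (b (l 17174536) (l 17238080))))))) (a (a (b (b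 (l 16997008) (l 17440784)) (b (b (l 17538560) (c (l 17719136) (l 17901640))) (b (b (l 17605360) (b (l 17318576) (l 17195480))) (b (l 17088048) (b (l 16988360) (l 17246064)))))) (b (b (l 17440784) (l 17101424)) (b (a (l 17478360) (l 17355368)) (b (b (a (l 17520896) (l 14)) (l 14)) (l 14))))) (b (b (a (a (l 17538560) (c (l 17719136) (l 17901640))) (a (a (l 17605360) (a (l 17318576) (l 17195480))) (a (l 17088048) (a (l 16988360) (l 17246064))))) (a (b (l 17478360) (l 17355368)) (a (a (b (l 17520896) (l 14)) (l 14)) (l 14)))) (a (b (a (l 17142552) (l 14)) (l 14)) (l 14)))))), by decide +kernel⟩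

theorem s3_pm_113 : ∃ t, chk3 f_pm_113 t 3 1 1 = true := ex3_b k1_pm_113 k2_pm_113

theorem s4_pm_113 : ∃ t, chk3 f_pm_113 t 1 1 1 = true := ex3_a k0_pm_113 s3_pm_113

theorem c_pm_113 : CertF 536870912 536870912 536870912 536870912 33554432 16777216 true true false .nn 1 1 3
    ndF0q1 ndF0q1 pcF3 cut_pm_113 Ext.none :=
  certFK0 (fam := true) (s1 := true) (s2 := false) (a := 1) (b := 1) (c := 3) (cn := .nn) (n1 := ndF0q1) (n2 := ndF0q1) (pc := pcF3) (cut := cut_pm_113) (xt := Ext.none) (P1 := 536870912) (W1 := 536870912) (P2 := 536870912) (W2 := 536870912) (P3 := 33554432) (W3 := 16777216)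
    rfl rfl rfl s4_pm_113

noncomputable def cut_pm_123 : Cut := Cut.of [[⟨3, 0, 0, 1449551462⟩], [⟨4, 0, 0, 2845415833⟩], [⟨0, 1, 0, 7061502⟩, ⟨1, 1, 0, 7061502⟩, ⟨2, 2, 0, 184626⟩]]

noncomputable def f_pm_123 : ℕ → ℕ → ℕ → ℕ → Bool := onCell 1610612736 536870912 0 536870912 33554432 16777216
    (rowFK 2 true true false .npn 1 2 3 (qsf 536870912 536870912 0 536870912 3) ndF0q1 ndF0q2 pcF3 cut_pm_123 Ext.none)

def k0_pm_123 : ∃ t, chk3 f_pm_123 t 1 1 1 = true :=
  ⟨(a (b (a (b (l 1) (a (l 1) (l 17569952))) (b (a (b (l 14) (l 17231800)) (l 14)) (a (b (l 17274640) (l 17354680)) (b (l 17080600) (l 17158376))))) (a (b (a (l 1) (l 17715056)) (b (a (l 17527488) (l 17394416)) (a (b (l 17428000) (l 17462176)) (b (l 17239792) (l 17383776))))) (b (a (b (l 17383552) (l 17338496)) (b (a (l 17286496) (l 17214456)) (l 17216128))) (b (a (l 17322416) (l 17263560)) (a (b (l 17196664) (l 17492272)) (b (l 17200736) (a (l 17310632) (l 17229960)))))))) (a (b (a (b (l 14)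 (b (l 14) (l 17121008))) (l 14)) (b (a (b (a (l 17149848) (l 17144032)) (l 17411456)) (b (l 14) (a (l 17297928) (l 14)))) (b (a (l 17340616) (a (l 17226160) (l 17304072))) (a (b (l 17235968) (a (l 17229928) (l 17241536))) (b (l 17203736) (a (l 17302904) (b (l 17033272) (l 17253528)))))))) (a (b (l 14) (b (l 14) (l 14))) (l 14)))), by decide +kernel⟩

theorem c_pm_123 : CertF 536870912 536870912 0 536870912 33554432 16777216 true true false .npn 1 2 3
    ndF0q1 ndF0q2 pcF3 cut_pm_123 Ext.none :=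
  certFK2 (fam := true) (s1 := true) (s2 := false) (a := 1) (b := 2) (c := 3) (cn := .npn) (n1 := ndF0q1) (n2 := ndF0q2) (pc := pcF3) (cut := cut_pm_123) (xt := Ext.none) (P1 := 536870912) (W1 := 536870912) (P2 := 0) (W2 := 536870912) (P3 := 33554432) (W3 := 16777216)
    rfl rfl rfl (fun _ => rfl) k0_pm_123

noncomputable def cut_pm_202 : Cut := Cut.of [[⟨3, 0, 0, 1449551462⟩], [⟨4, 0, 0, 2845415833⟩], [⟨0, 1, 0, 33554432⟩, ⟨1, 0, 0, 33554432⟩, ⟨2, 1, 0, 33554432⟩], [⟨0, 1, 0, 6291456⟩, ⟨1, 0, 1, 16777216⟩, ⟨2, 1, 1, 16777216⟩, ⟨1, 0, 0, 67108864⟩, ⟨1, 1, 0, 1056964608⟩, ⟨2, 1, 0, 67108864⟩, ⟨2, 2, 0, 1056964608⟩]]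

noncomputable def f_pm_202 : ℕ → ℕ → ℕ → ℕ → Bool := onCell 0 536870912 0 536870912 33554432 16777216
    (rowFK 0 true true false .pp 2 0 2 (qsf 0 536870912 0 536870912 2) ndF0q2 ndF0q0 pcF2 cut_pm_202 Ext.none)

def k0_pm_202 : ∃ t, chk3 f_pm_202 t 1 1 1 = true :=
  ⟨(a (b (b (b (a (l 19119760) (l 19214992)) (a (l 18560160) (l 18537392))) (a (b (l 18113608) (l 17696320)) (b (l 18132672) (l 17737496)))) (b (a (b (l 17335688) (l 17107776)) (b (l 17382624) (l 17150088))) (a (l 2) (b (l 17107840) (l 2))))) (b (a (b (b (a (b (l 19037944) (l 18818520)) (b (a (l 18906328) (b (l 6) (l 18741104))) (l 18729696))) (l 18674824)) (b (l 18212696) (l 17877904))) (b (a (b (b (l 6) (a (l 18557912) (l 6))) (b (l 18458648) (l 18399848))) (l 6)) (b (a (l 18261296) (l 18398400)) (a (l 18009480) (l 18006808))))) (b (a (l 17610152) (b (l 17891800) (l 17634528))) (a (l 17361136) (l 17732160))))), by decide +kernel⟩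

theorem c_pm_202 : CertF 0 536870912 0 536870912 33554432 16777216 true true false .pp 2 0 2
    ndF0q2 ndF0q0 pcF2 cut_pm_202 Ext.none :=
  certFK0 (fam := true) (s1 := true) (s2 := false) (a := 2) (b := 0) (c := 2) (cn := .pp) (n1 := ndF0q2) (n2 := ndF0q0) (pc := pcF2) (cut := cut_pm_202) (xt := Ext.none) (P1 := 0) (W1 := 536870912) (P2 := 0) (W2 := 536870912) (P3 := 33554432) (W3 := 16777216)
    rfl rfl rfl k0_pm_202

noncomputable def cut_pm_203 : Cut := Cut.of [[⟨3, 0, 0, 1449551462⟩], [⟨4, 0, 0, 2845415833⟩]]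

noncomputable def f_pm_203 : ℕ → ℕ → ℕ → ℕ → Bool := onCell 0 536870912 0 536870912 33554432 16777216
    (rowFK 0 true true false .up 2 0 3 (qsf 0 536870912 0 536870912 3) ndF0q2 ndF0q0 pcF3 cut_pm_203 Ext.none)

def k0_pm_203 : ∃ t, chk3 f_pm_203 t 1 1 1 = true :=
  ⟨(b (l 1) (a (b (b (l 1) (a (l 17370520) (l 17518608))) (a (b (l 17270696) (a (l 17145672) (l 17277064))) (b (l 17458752) (l 17536432)))) (a (b (l 1) (b (l 17539208) (l 17529792))) (b (l 1) (a (l 17576272) (b (l 1) (l 17536264))))))), by decide +kernel⟩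

theorem c_pm_203 : CertF 0 536870912 0 536870912 33554432 16777216 true true false .up 2 0 3
    ndF0q2 ndF0q0 pcF3 cut_pm_203 Ext.none :=
  certFK0 (fam := true) (s1 := true) (s2 := false) (a := 2) (b := 0) (c := 3) (cn := .up) (n1 := ndF0q2) (n2 := ndF0q0) (pc := pcF3) (cut := cut_pm_203) (xt := Ext.none) (P1 := 0) (W1 := 536870912) (P2 := 0) (W2 := 536870912) (P3 := 33554432) (W3 := 16777216)
    rfl rfl rfl k0_pm_203

noncomputable def cut_pm_213 : Cut := Cut.of [[⟨3, 0, 0, 1449551462⟩], [⟨4, 0, 0, 2845415833⟩], [⟨0, 1, 0, 7061502⟩, ⟨1, 1, 0, 7061502⟩, ⟨2, 2, 0, 184626⟩]]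

noncomputable def f_pm_213 : ℕ → ℕ → ℕ → ℕ → Bool := onCell 0 536870912 1610612736 536870912 33554432 16777216
    (rowFK 1 true true false .pnn 2 1 3 (qsf 0 536870912 536870912 536870912 3) ndF0q2 ndF0q1 pcF3 cut_pm_213 Ext.none)

def k0_pm_213 : ∃ t, chk3 f_pm_213 t 1 1 1 = true :=
  ⟨(b (a (b (a (l 1) (b (l 1) (l 17569952))) (a (b (a (l 14) (l 17231800)) (l 14)) (b (a (l 17274640) (l 17354680)) (a (l 17080600) (l 17158376))))) (b (a (b (l 1) (l 17715056)) (a (b (l 17527488) (l 17394416)) (b (a (l 17428000) (l 17462176)) (a (l 17239792) (l 17383776))))) (a (b (a (l 17383552) (l 17338496)) (a (b (l 17286496) (l 17214456)) (l 17216128))) (a (b (l 17322416) (l 17263560)) (b (a (l 17196664) (l 17492272)) (a (l 17200736) (b (l 17310632) (l 17229960)))))))) (b (a (b (a (l 14) (a (l 14) (l 17121008))) (l 14)) (a (b (a (b (l 17149848) (l 17144032)) (l 17411456)) (a (l 14) (b (l 17297928) (l 14)))) (a (b (l 17340616) (b (l 17226160) (l 17304072))) (b (a (l 17235968)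 (b (l 17229928) (l 17241536))) (a (l 17203736) (b (l 17302904) (a (l 17033272) (l 17253528)))))))) (b (a (l 14) (a (l 14) (l 14))) (l 14)))), by decide +kernel⟩

theorem c_pm_213 : CertF 0 536870912 536870912 536870912 33554432 16777216 true true false .pnn 2 1 3
    ndF0q2 ndF0q1 pcF3 cut_pm_213 Ext.none :=
  certFK1 (fam := true) (s1 := true) (s2 := false) (a := 2) (b := 1) (c := 3) (cn := .pnn) (n1 := ndF0q2) (n2 := ndF0q1) (pc := pcF3) (cut := cut_pm_213) (xt := Ext.none) (P1 := 0) (W1 := 536870912) (P2 := 536870912) (W2 := 536870912) (P3 := 33554432) (W3 := 16777216)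
    rfl rfl rfl (fun _ => rfl) k0_pm_213

noncomputable def cut_mm_001 : Cut := Cut.of [[⟨3, 0, 0, 1449551462⟩], [⟨4, 0, 0, 2845415833⟩]]

noncomputable def f_mm_001 : ℕ → ℕ → ℕ → ℕ → Bool := onCell 0 536870912 0 536870912 33554432 16777216
    (rowFK 0 true false false .up 0 0 1 (qsf 0 536870912 0 536870912 1) ndF0q0 ndF0q0 pcF1 cut_mm_001 Ext.none)

def k0_mm_001 : ∃ t, chk3 f_mm_001 t 1 1 1 = true :=
  ⟨(l 4), by decide +kernel⟩

theorem c_mm_001 : CertF 0 536870912 0 536870912 33554432 16777216 true false false .up 0 0 1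
    ndF0q0 ndF0q0 pcF1 cut_mm_001 Ext.none :=
  certFK0 (fam := true) (s1 := false) (s2 := false) (a := 0) (b := 0) (c := 1) (cn := .up) (n1 := ndF0q0) (n2 := ndF0q0) (pc := pcF1) (cut := cut_mm_001) (xt := Ext.none) (P1 := 0) (W1 := 536870912) (P2 := 0) (W2 := 536870912) (P3 := 33554432) (W3 := 16777216)
    rfl rfl rfl k0_mm_001

noncomputable def cut_mm_011 : Cut := Cut.of [[⟨3, 0, 0, 1449551462⟩], [⟨4, 0, 0, 2845415833⟩]]

noncomputable def f_mm_011 : ℕ → ℕ → ℕ → ℕ → Bool := onCell 0 536870912 536870912 536870912 33554432 16777216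
    (rowFK 0 true false false .pnn 0 1 1 (qsf 0 536870912 536870912 536870912 1) ndF0q0 ndF0q1 pcF1 cut_mm_011 Ext.none)

def k0_mm_011 : ∃ t, chk3 f_mm_011 t 1 1 1 = true :=
  ⟨(l 14), by decide +kernel⟩

theorem c_mm_011 : CertF 0 536870912 536870912 536870912 33554432 16777216 true false false .pnn 0 1 1
    ndF0q0 ndF0q1 pcF1 cut_mm_011 Ext.none :=
  certFK0 (fam := true) (s1 := false) (s2 := false) (a := 0) (b := 1) (c := 1) (cn := .pnn) (n1 := ndF0q0) (n2 := ndF0q1) (pc := pcF1) (cut := cut_mm_011) (xt := Ext.none) (P1 := 0) (W1 := 536870912) (P2 := 536870912) (W2 := 536870912) (P3 := 33554432) (W3 := 16777216)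
    rfl rfl rfl k0_mm_011

noncomputable def cut_mm_012 : Cut := Cut.of [[⟨3, 0, 0, 1449551462⟩], [⟨4, 0, 0, 2845415833⟩]]

noncomputable def f_mm_012 : ℕ → ℕ → ℕ → ℕ → Bool := onCell 0 536870912 536870912 536870912 33554432 16777216
    (rowFK 0 true false false .pnp 0 1 2 (qsf 0 536870912 536870912 536870912 2) ndF0q0 ndF0q1 pcF2 cut_mm_012 Ext.none)

def k0_mm_012 : ∃ t, chk3 f_mm_012 t 1 1 1 = true :=
  ⟨(l 14), by decide +kernel⟩

theorem c_mm_012 : CertF 0 536870912 536870912 536870912 33554432 16777216 true false false .pnp 0 1 2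
    ndF0q0 ndF0q1 pcF2 cut_mm_012 Ext.none :=
  certFK0 (fam := true) (s1 := false) (s2 := false) (a := 0) (b := 1) (c := 2) (cn := .pnp) (n1 := ndF0q0) (n2 := ndF0q1) (pc := pcF2) (cut := cut_mm_012) (xt := Ext.none) (P1 := 0) (W1 := 536870912) (P2 := 536870912) (W2 := 536870912) (P3 := 33554432) (W3 := 16777216)
    rfl rfl rfl k0_mm_012

noncomputable def cut_mm_022 : Cut := Cut.of [[⟨3, 0, 0, 1449551462⟩], [⟨4, 0, 0, 2845415833⟩]]

noncomputable def f_mm_022 : ℕ → ℕ → ℕ → ℕ → Bool := onCell 0 536870912 0 536870912 33554432 16777216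
    (rowFK 0 true false false .pp 0 2 2 (qsf 0 536870912 0 536870912 2) ndF0q0 ndF0q2 pcF2 cut_mm_022 Ext.none)

def k0_mm_022 : ∃ t, chk3 f_mm_022 t 1 1 1 = true :=
  ⟨(l 5), by decide +kernel⟩

theorem c_mm_022 : CertF 0 536870912 0 536870912 33554432 16777216 true false false .pp 0 2 2
    ndF0q0 ndF0q2 pcF2 cut_mm_022 Ext.none :=
  certFK0 (fam := true) (s1 := false) (s2 := false) (a := 0) (b := 2) (c := 2) (cn := .pp) (n1 := ndF0q0) (n2 := ndF0q2) (pc := pcF2) (cut := cut_mm_022) (xt := Ext.none) (P1 := 0) (W1 := 536870912) (P2 := 0) (W2 := 536870912) (P3 := 33554432) (W3 := 16777216)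
    rfl rfl rfl k0_mm_022

noncomputable def cut_mm_023 : Cut := Cut.of [[⟨3, 0, 0, 1449551462⟩], [⟨4, 0, 0, 2845415833⟩]]

noncomputable def f_mm_023 : ℕ → ℕ → ℕ → ℕ → Bool := onCell 0 536870912 0 536870912 33554432 16777216
    (rowFK 0 true false false .up 0 2 3 (qsf 0 536870912 0 536870912 3) ndF0q0 ndF0q2 pcF3 cut_mm_023 Ext.none)

def k0_mm_023 : ∃ t, chk3 f_mm_023 t 1 1 1 = true :=
  ⟨(l 5), by decide +kernel⟩

theorem c_mm_023 : CertF 0 536870912 0 536870912 33554432 16777216 true false false .up 0 2 3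
    ndF0q0 ndF0q2 pcF3 cut_mm_023 Ext.none :=
  certFK0 (fam := true) (s1 := false) (s2 := false) (a := 0) (b := 2) (c := 3) (cn := .up) (n1 := ndF0q0) (n2 := ndF0q2) (pc := pcF3) (cut := cut_mm_023) (xt := Ext.none) (P1 := 0) (W1 := 536870912) (P2 := 0) (W2 := 536870912) (P3 := 33554432) (W3 := 16777216)
    rfl rfl rfl k0_mm_023

noncomputable def cut_mm_101 : Cut := Cut.of [[⟨3, 0, 0, 1449551462⟩], [⟨4, 0, 0, 2845415833⟩], [⟨0, 1, 0, 33554432⟩, ⟨1, 0, 0, 33554432⟩, ⟨2, 1, 0, 33554432⟩]]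

noncomputable def f_mm_101 : ℕ → ℕ → ℕ → ℕ → Bool := onCell 536870912 536870912 0 536870912 33554432 16777216
    (rowFK 0 true false false .npn 1 0 1 (qsf 536870912 536870912 0 536870912 1) ndF0q1 ndF0q0 pcF1 cut_mm_101 Ext.none)

def k0_mm_101 : ∃ t, chk3 f_mm_101 t 1 1 1 = true :=
  ⟨(l 14), by decide +kernel⟩

theorem c_mm_101 : CertF 536870912 536870912 0 536870912 33554432 16777216 true false false .npn 1 0 1
    ndF0q1 ndF0q0 pcF1 cut_mm_101 Ext.none :=
  certFK0 (fam := true) (s1 := false) (s2 := false) (a := 1) (b := 0) (c := 1) (cn := .npn) (n1 := ndF0q1) (n2 := ndF0q0) (pc := pcF1) (cut := cut_mm_101) (xt := Ext.none) (P1 := 536870912) (W1 := 536870912) (P2 := 0) (W2 := 536870912) (P3 := 33554432) (W3 := 16777216)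
    rfl rfl rfl k0_mm_101

noncomputable def cut_mm_102 : Cut := Cut.of [[⟨3, 0, 0, 1449551462⟩], [⟨4, 0, 0, 2845415833⟩], [⟨0, 1, 0, 33554432⟩, ⟨1, 0, 0, 33554432⟩, ⟨2, 1, 0, 33554432⟩]]

noncomputable def f_mm_102 : ℕ → ℕ → ℕ → ℕ → Bool := onCell 536870912 536870912 0 536870912 33554432 16777216
    (rowFK 0 true false false .npp 1 0 2 (qsf 536870912 536870912 0 536870912 2) ndF0q1 ndF0q0 pcF2 cut_mm_102 Ext.none)

def k0_mm_102 : ∃ t, chk3 f_mm_102 t 1 1 1 = true :=
  ⟨(l 14), by decide +kernel⟩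

theorem c_mm_102 : CertF 536870912 536870912 0 536870912 33554432 16777216 true false false .npp 1 0 2
    ndF0q1 ndF0q0 pcF2 cut_mm_102 Ext.none :=
  certFK0 (fam := true) (s1 := false) (s2 := false) (a := 1) (b := 0) (c := 2) (cn := .npp) (n1 := ndF0q1) (n2 := ndF0q0) (pc := pcF2) (cut := cut_mm_102) (xt := Ext.none) (P1 := 536870912) (W1 := 536870912) (P2 := 0) (W2 := 536870912) (P3 := 33554432) (W3 := 16777216)
    rfl rfl rfl k0_mm_102

noncomputable def cut_mm_112 : Cut := Cut.of [[⟨3, 0, 0, 1449551462⟩], [⟨4, 0, 0, 2845415833⟩]]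

noncomputable def f_mm_112 : ℕ → ℕ → ℕ → ℕ → Bool := onCell 536870912 536870912 536870912 536870912 33554432 16777216
    (rowFK 0 true false false .dn 1 1 2 (qsf 536870912 536870912 536870912 536870912 2) ndF0q1 ndF0q1 pcF2 cut_mm_112 Ext.none)

def k0_mm_112 : ∃ t, chk3 f_mm_112 t 1 1 1 = true :=
  ⟨(l 4), by decide +kernel⟩

theorem c_mm_112 : CertF 536870912 536870912 536870912 536870912 33554432 16777216 true false false .dn 1 1 2
    ndF0q1 ndF0q1 pcF2 cut_mm_112 Ext.none :=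
  certFK0 (fam := true) (s1 := false) (s2 := false) (a := 1) (b := 1) (c := 2) (cn := .dn) (n1 := ndF0q1) (n2 := ndF0q1) (pc := pcF2) (cut := cut_mm_112) (xt := Ext.none) (P1 := 536870912) (W1 := 536870912) (P2 := 536870912) (W2 := 536870912) (P3 := 33554432) (W3 := 16777216)
    rfl rfl rfl k0_mm_112

noncomputable def cut_mm_113 : Cut := Cut.of [[⟨3, 0, 0, 1449551462⟩], [⟨4, 0, 0, 2845415833⟩]]

noncomputable def f_mm_113 : ℕ → ℕ → ℕ → ℕ → Bool := onCell 536870912 536870912 536870912 536870912 33554432 16777216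
    (rowFK 0 true false false .nn 1 1 3 (qsf 536870912 536870912 536870912 536870912 3) ndF0q1 ndF0q1 pcF3 cut_mm_113 Ext.none)

def k0_mm_113 : ∃ t, chk3 f_mm_113 t 1 1 1 = true :=
  ⟨(l 4), by decide +kernel⟩

theorem c_mm_113 : CertF 536870912 536870912 536870912 536870912 33554432 16777216 true false false .nn 1 1 3
    ndF0q1 ndF0q1 pcF3 cut_mm_113 Ext.none :=
  certFK0 (fam := true) (s1 := false) (s2 := false) (a := 1) (b := 1) (c := 3) (cn := .nn) (n1 := ndF0q1) (n2 := ndF0q1) (pc := pcF3) (cut := cut_mm_113) (xt := Ext.none) (P1 := 536870912) (W1 := 536870912) (P2 := 536870912) (W2 := 536870912) (P3 := 33554432) (W3 := 16777216)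
    rfl rfl rfl k0_mm_113

noncomputable def cut_mm_123 : Cut := Cut.of [[⟨3, 0, 0, 1449551462⟩], [⟨4, 0, 0, 2845415833⟩]]

noncomputable def f_mm_123 : ℕ → ℕ → ℕ → ℕ → Bool := onCell 536870912 536870912 0 536870912 33554432 16777216
    (rowFK 0 true false false .npn 1 2 3 (qsf 536870912 536870912 0 536870912 3) ndF0q1 ndF0q2 pcF3 cut_mm_123 Ext.none)

def k0_mm_123 : ∃ t, chk3 f_mm_123 t 1 1 1 = true :=
  ⟨(a (l 5) (l 4)), by decide +kernel⟩

theorem c_mm_123 : CertF 536870912 536870912 0 536870912 33554432 16777216 true false false .npn 1 2 3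
    ndF0q1 ndF0q2 pcF3 cut_mm_123 Ext.none :=
  certFK0 (fam := true) (s1 := false) (s2 := false) (a := 1) (b := 2) (c := 3) (cn := .npn) (n1 := ndF0q1) (n2 := ndF0q2) (pc := pcF3) (cut := cut_mm_123) (xt := Ext.none) (P1 := 536870912) (W1 := 536870912) (P2 := 0) (W2 := 536870912) (P3 := 33554432) (W3 := 16777216)
    rfl rfl rfl k0_mm_123

noncomputable def cut_mm_202 : Cut := Cut.of [[⟨3, 0, 0, 1449551462⟩], [⟨4, 0, 0, 2845415833⟩], [⟨0, 1, 0, 16777216⟩, ⟨1, 0, 0, 16777216⟩, ⟨2, 1, 0, 16777216⟩]]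

noncomputable def f_mm_202 : ℕ → ℕ → ℕ → ℕ → Bool := onCell 0 536870912 0 536870912 33554432 16777216
    (rowFK 0 true false false .pp 2 0 2 (qsf 0 536870912 0 536870912 2) ndF0q2 ndF0q0 pcF2 cut_mm_202 Ext.none)

def k0_mm_202 : ∃ t, chk3 f_mm_202 t 1 1 1 = true :=
  ⟨(b (a (b (b (a (l 19054864) (b (l 19377624) (l 18767872))) (a (l 18410688) (a (l 18314184) (l 18204632)))) (a (b (l 17923120) (l 17538544)) (b (a (l 17807048) (l 17793744)) (a (l 17384952) (l 14))))) (b (a (b (a (b (l 18967096) (l 18507392)) (b (a (b (l 18850256) (l 14)) (l 14)) (l 14))) (a (b (l 18125624) (l 14)) (l 14))) (l 14)) (l 14))) (a (a (b (b (l 17142368) (l 17050424)) (l 2)) (l 14)) (l 14))), by decide +kernel⟩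

theorem c_mm_202 : CertF 0 536870912 0 536870912 33554432 16777216 true false false .pp 2 0 2
    ndF0q2 ndF0q0 pcF2 cut_mm_202 Ext.none :=
  certFK0 (fam := true) (s1 := false) (s2 := false) (a := 2) (b := 0) (c := 2) (cn := .pp) (n1 := ndF0q2) (n2 := ndF0q0) (pc := pcF2) (cut := cut_mm_202) (xt := Ext.none) (P1 := 0) (W1 := 536870912) (P2 := 0) (W2 := 536870912) (P3 := 33554432) (W3 := 16777216)
    rfl rfl rfl k0_mm_202

noncomputable def cut_mm_203 : Cut := Cut.of [[⟨3, 0, 0, 1449551462⟩], [⟨4, 0, 0, 2845415833⟩]]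

noncomputable def f_mm_203 : ℕ → ℕ → ℕ → ℕ → Bool := onCell 0 536870912 1610612736 536870912 33554432 16777216
    (rowFK 1 true false false .up 2 0 3 (qsf 0 536870912 0 536870912 3) ndF0q2 ndF0q0 pcF3 cut_mm_203 Ext.none)

def k0_mm_203 : ∃ t, chk3 f_mm_203 t 1 1 1 = true :=
  ⟨(a (b (b (a (b (a (l 17062088) (l 14)) (l 14)) (l 14)) (l 14)) (l 2)) (l 14)), by decide +kernel⟩

theorem c_mm_203 : CertF 0 536870912 0 536870912 33554432 16777216 true false false .up 2 0 3
    ndF0q2 ndF0q0 pcF3 cut_mm_203 Ext.none :=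
  certFK1 (fam := true) (s1 := false) (s2 := false) (a := 2) (b := 0) (c := 3) (cn := .up) (n1 := ndF0q2) (n2 := ndF0q0) (pc := pcF3) (cut := cut_mm_203) (xt := Ext.none) (P1 := 0) (W1 := 536870912) (P2 := 0) (W2 := 536870912) (P3 := 33554432) (W3 := 16777216)
    rfl rfl rfl (fun _ => rfl) k0_mm_203

noncomputable def cut_mm_213 : Cut := Cut.of [[⟨3, 0, 0, 1449551462⟩], [⟨4, 0, 0, 2845415833⟩]]

noncomputable def f_mm_213 : ℕ → ℕ → ℕ → ℕ → Bool := onCell 0 536870912 536870912 536870912 33554432 16777216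
    (rowFK 0 true false false .pnn 2 1 3 (qsf 0 536870912 536870912 536870912 3) ndF0q2 ndF0q1 pcF3 cut_mm_213 Ext.none)

def k0_mm_213 : ∃ t, chk3 f_mm_213 t 1 1 1 = true :=
  ⟨(a (l 14) (l 4)), by decide +kernel⟩

theorem c_mm_213 : CertF 0 536870912 536870912 536870912 33554432 16777216 true false false .pnn 2 1 3
    ndF0q2 ndF0q1 pcF3 cut_mm_213 Ext.none :=
  certFK0 (fam := true) (s1 := false) (s2 := false) (a := 2) (b := 1) (c := 3) (cn := .pnn) (n1 := ndF0q2) (n2 := ndF0q1) (pc := pcF3) (cut := cut_mm_213) (xt := Ext.none) (P1 := 0) (W1 := 536870912) (P2 := 536870912) (W2 := 536870912) (P3 := 33554432) (W3 := 16777216)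
    rfl rfl rfl k0_mm_213

end Pool.Agent.Strip051.G.I1_32_3_64.Tab.C.FA00

namespace Pool.Agent.Strip051.G.I1_32_3_64.Tab.C.FA01

open Pool.Agent.Strip051.PB Pool.Agent.Strip051.PB.T
open Pool.Agent.Strip051.G.I1_32_3_64.Tab

noncomputable def f_pp_001 : ℕ → ℕ → ℕ → ℕ → Bool := onCell 0 536870912 0 536870912 33554432 16777216
    (rowFK 0 true true true .up 0 0 1 (qsf 0 536870912 0 536870912 1) ndF0q0 ndF1q0 pcF1 Cut.none Ext.none)

def k0_pp_001 : ∃ t, chk3 f_pp_001 t 1 1 1 = true :=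
  ⟨(l 4), by decide +kernel⟩

theorem c_pp_001 : CertF 0 536870912 0 536870912 33554432 16777216 true true true .up 0 0 1
    ndF0q0 ndF1q0 pcF1 Cut.none Ext.none :=
  certFK0 (fam := true) (s1 := true) (s2 := true) (a := 0) (b := 0) (c := 1) (cn := .up) (n1 := ndF0q0) (n2 := ndF1q0) (pc := pcF1) (cut := Cut.none) (xt := Ext.none) (P1 := 0) (W1 := 536870912) (P2 := 0) (W2 := 536870912) (P3 := 33554432) (W3 := 16777216)
    rfl rfl rfl k0_pp_001

noncomputable def f_pp_011 : ℕ → ℕ → ℕ → ℕ → Bool := onCell 0 536870912 536870912 536870912 33554432 16777216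
    (rowFK 0 true true true .pnn 0 1 1 (qsf 0 536870912 536870912 536870912 1) ndF0q0 ndF1q1 pcF1 Cut.none Ext.none)

def k0_pp_011 : ∃ t, chk3 f_pp_011 t 1 1 1 = true :=
  ⟨(l 4), by decide +kernel⟩

theorem c_pp_011 : CertF 0 536870912 536870912 536870912 33554432 16777216 true true true .pnn 0 1 1
    ndF0q0 ndF1q1 pcF1 Cut.none Ext.none :=
  certFK0 (fam := true) (s1 := true) (s2 := true) (a := 0) (b := 1) (c := 1) (cn := .pnn) (n1 := ndF0q0) (n2 := ndF1q1) (pc := pcF1) (cut := Cut.none) (xt := Ext.none) (P1 := 0) (W1 := 536870912) (P2 := 536870912) (W2 := 536870912) (P3 := 33554432) (W3 := 16777216)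
    rfl rfl rfl k0_pp_011

noncomputable def f_pp_012 : ℕ → ℕ → ℕ → ℕ → Bool := onCell 0 536870912 536870912 536870912 33554432 16777216
    (rowFK 0 true true true .pnp 0 1 2 (qsf 0 536870912 536870912 536870912 2) ndF0q0 ndF1q1 pcF2 Cut.none Ext.none)

def k0_pp_012 : ∃ t, chk3 f_pp_012 t 1 1 1 = true :=
  ⟨(l 4), by decide +kernel⟩

theorem c_pp_012 : CertF 0 536870912 536870912 536870912 33554432 16777216 true true true .pnp 0 1 2
    ndF0q0 ndF1q1 pcF2 Cut.none Ext.none :=
  certFK0 (fam := true) (s1 := true) (s2 := true) (a := 0) (b := 1) (c := 2) (cn := .pnp) (n1 := ndF0q0) (n2 := ndF1q1) (pc := pcF2) (cut := Cut.none) (xt := Ext.none) (P1 := 0) (W1 := 536870912) (P2 := 536870912) (W2 := 536870912) (P3 := 33554432) (W3 := 16777216)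
    rfl rfl rfl k0_pp_012

noncomputable def cut_pp_022_a : Cut := Cut.of [[⟨0, 0, 0, 33554432⟩, ⟨1, 1, 0, 33554432⟩, ⟨2, 1, 0, 33554432⟩]]

noncomputable def f_pp_022_a : ℕ → ℕ → ℕ → ℕ → Bool := onCell 0 536870912 0 536870912 33554432 16777216
    (rowFK 0 true true true .pp 0 2 2 (qsf 0 536870912 0 536870912 2) ndF0q0 ndF1q2a pcF2 cut_pp_022_a Ext.none)

def k0_pp_022_a : ∃ t, chk3 f_pp_022_a t 4 2 1 = true :=
  ⟨(a (a (l 19142672) (l 18643280)) (a (l 18381744) (l 48556015255))), by decide +kernel⟩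

def k1_pp_022_a : ∃ t, chk3 f_pp_022_a t 4 6 1 = true :=
  ⟨(a (a (b (l 18877840) (a (b (l 18818552) (l 18584216)) (l 18429728))) (b (l 18329664) (a (l 18157840) (l 17910248)))) (b (a (l 17890544) (l 17542744)) (a (b (l 17681376) (l 83450803975)) (l 4)))), by decide +kernel⟩

def k2_pp_022_a : ∃ t, chk3 f_pp_022_a t 8 14 1 = true :=
  ⟨(a (b (a (b (a (l 18368160) (l 18291368)) (a (a (l 17937712) (l 18115384)) (l 18088424))) (b (l 18122720) (l 17956040))) (b (a (a (c (a (b (l 18114816) (l 17915816)) (l 18041984)) (b (a (l 17435984) (l 17657088)) (a (a (l 17083600) (l 17320200)) (l 17335928)))) (a (c (l 18032704) (l 17523592)) (l 17830560))) (a (l 17795832) (l 17712352))) (b (a (a (c (a (a (l 17475872) (l 17704256)) (l 17762176)) (a (a (b (l 16982600) (l 16873768)) (l 16879960)) (a (l 17023640) (l 17187616)))) (a (b (l 17539248) (l 17298904)) (l 17527528))) (a (l 17504904) (l 17550776))) (a (a (a (a (b (c (l 17247720) (l 16721680)) (l 16770800)) (c (c (l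 17597640) (l 17073976)) (l 16760344))) (c (a (l 17357176) (l 17556848)) (a (l 16800144) (l 16851840)))) (a (c (l 17605848) (a (l 16963008) (l 17096192))) (b (l 17403128) (l 17188304)))) (a (a (l 17342936) (l 17467296)) (l 17432688)))))) (b (a (l 17800336) (l 17565272)) (b (a (l 17553696) (l 4)) (l 4)))), by decide +kernel⟩

def k3_pp_022_a : ∃ t, chk3 f_pp_022_a t 8 15 1 = true :=
  ⟨(a (b (a (a (b (a (a (b (b (l 16726840) (l 16729432)) (b (l 16732112) (l 16734888))) (b (l 16729488) (b (l 16733416) (l 16736152)))) (a (a (b (l 16786576) (l 16735720)) (b (l 16794832) (l 16736336))) (b (c (b (l 17368504) (l 17123680)) (l 16731920)) (b (l 16770872) (l 16738576))))) (b (a (a (a (l 6) (l 16742160)) (b (l 16738976) (l 6))) (a (b (l 16740168) (l 16743048)) (b (l 16741320) (l 16744160)))) (a (l 6) (a (l 6) (b (l 16748408) (l 6)))))) (b (a (a (b (c (l 17154056) (l 16767416)) (l 16741560)) (b (c (l 17366656) (l 16804960)) (b (l 16851168) (l 16803920)))) (b (c (l 17322336)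 (a (l 16862120) (l 16984992))) (b (c (l 17214312) (l 16741920)) (a (l 16831024) (l 16877048))))) (b (a (a (b (l 16742432) (l 16745232)) (b (l 16743520) (l 16746272))) (a (b (l 16795016) (l 16747288)) (b (l 16813360) (l 16790072)))) (a (a (b (l 16748128) (a (l 6) (l 16751368))) (b (l 16749128) (a (l 16751848) (l 16752512)))) (b (a (b (l 16749496) (l 16751280)) (l 16768872)) (a (b (l 16753320) (l 4)) (l 4))))))) (a (a (b (b (b (l 17265904) (l 17077552)) (c (b (l 17335296) (l 17245672)) (b (l 16856816) (l 16748208)))) (a (b (b (l 16852200) (l 4)) (l 4)) (l 4))) (b (b (l 17115320) (c (l 17296672) (l 34057985207))) (l 4))) (l 4))) (a (b (a (l 6) (b (a (b (a (l 6) (b (l 16757560) (l 6))) (l 6)) (l 4)) (l 6))) (l 6)) (l 4))) (l 4)), by decide +kernel⟩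

def k4_pp_022_a : ∃ t, chk3 f_pp_022_a t 9 7 1 = true :=
  ⟨(l 4), by decide +kernel⟩

def k5_pp_022_a : ∃ t, chk3 f_pp_022_a t 5 1 1 = true :=
  ⟨(b (a (b (l 17601480) (a (l 17525904) (l 17372864))) (b (l 17298488) (l 4))) (l 4)), by decide +kernel⟩

def k6_pp_022_a : ∃ t, chk3 f_pp_022_a t 3 1 1 = true :=
  ⟨(b (a (a (b (a (l 17037440) (l 4)) (l 4)) (l 4)) (l 4)) (l 4)), by decide +kernel⟩

theorem s7_pp_022_a : ∃ t, chk3 f_pp_022_a t 8 7 1 = true := ex3_b k2_pp_022_a k3_pp_022_a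

theorem s8_pp_022_a : ∃ t, chk3 f_pp_022_a t 4 7 1 = true := ex3_a s7_pp_022_a k4_pp_022_a

theorem s9_pp_022_a : ∃ t, chk3 f_pp_022_a t 4 3 1 = true := ex3_b k1_pp_022_a s8_pp_022_a

theorem s10_pp_022_a : ∃ t, chk3 f_pp_022_a t 4 1 1 = true := ex3_b k0_pp_022_a s9_pp_022_a

theorem s11_pp_022_a : ∃ t, chk3 f_pp_022_a t 2 1 1 = true := ex3_a s10_pp_022_a k5_pp_022_a

theorem s12_pp_022_a : ∃ t, chk3 f_pp_022_a t 1 1 1 = true := ex3_a s11_pp_022_a k6_pp_022_a

theorem c_pp_022_a : CertF 0 536870912 0 536870912 33554432 16777216 true true true .pp 0 2 2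
    ndF0q0 ndF1q2a pcF2 cut_pp_022_a Ext.none :=
  certFK0 (fam := true) (s1 := true) (s2 := true) (a := 0) (b := 2) (c := 2) (cn := .pp) (n1 := ndF0q0) (n2 := ndF1q2a) (pc := pcF2) (cut := cut_pp_022_a) (xt := Ext.none) (P1 := 0) (W1 := 536870912) (P2 := 0) (W2 := 536870912) (P3 := 33554432) (W3 := 16777216)
    rfl rfl rfl s12_pp_022_a

noncomputable def cut_pp_022_b : Cut := Cut.of [[⟨0, 0, 0, 33554432⟩, ⟨1, 1, 0, 33554432⟩, ⟨2, 1, 0, 33554432⟩]]

noncomputable def f_pp_022_b : ℕ → ℕ → ℕ → ℕ → Bool := onCell 0 536870912 1239849684 370763052 33554432 16777216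
    (rowFK 0 true true true .pp 0 2 2 (qsf 0 536870912 1239849684 370763052 2) ndF0q0 ndF1q2b pcF2 cut_pp_022_b Ext.none)

def k0_pp_022_b : ∃ t, chk3 f_pp_022_b t 1 1 1 = true :=
  ⟨(a (b (a (b (a (a (l 19339168) (l 18906072)) (b (l 18301824) (l 18417864))) (a (l 19138760) (l 18508912))) (b (a (b (l 17757392) (l 17883560)) (b (l 17400920) (l 17437376))) (a (l 17972328) (l 4)))) (a (b (a (l 18998512) (l 18421192)) (a (l 18816848) (l 4))) (l 4))) (b (a (b (a (b (l 54996643799) (l 4)) (l 4)) (l 4)) (l 2)) (l 2))), by decide +kernel⟩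

theorem c_pp_022_b : CertF 0 536870912 1239849684 370763052 33554432 16777216 true true true .pp 0 2 2
    ndF0q0 ndF1q2b pcF2 cut_pp_022_b Ext.none :=
  certFK0 (fam := true) (s1 := true) (s2 := true) (a := 0) (b := 2) (c := 2) (cn := .pp) (n1 := ndF0q0) (n2 := ndF1q2b) (pc := pcF2) (cut := cut_pp_022_b) (xt := Ext.none) (P1 := 0) (W1 := 536870912) (P2 := 1239849684) (W2 := 370763052) (P3 := 33554432) (W3 := 16777216)
    rfl rfl rfl k0_pp_022_b

noncomputable def f_pp_023_a : ℕ → ℕ → ℕ → ℕ → Bool := onCell 1610612736 536870912 0 536870912 33554432 16777216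
    (rowFK 2 true true true .up 0 2 3 (qsf 0 536870912 0 536870912 3) ndF0q0 ndF1q2a pcF3 Cut.none Ext.none)

def k0_pp_023_a : ∃ t, chk3 f_pp_023_a t 1 1 1 = true :=
  ⟨(a (l 4) (l 2)), by decide +kernel⟩

theorem c_pp_023_a : CertF 0 536870912 0 536870912 33554432 16777216 true true true .up 0 2 3
    ndF0q0 ndF1q2a pcF3 Cut.none Ext.none :=
  certFK2 (fam := true) (s1 := true) (s2 := true) (a := 0) (b := 2) (c := 3) (cn := .up) (n1 := ndF0q0) (n2 := ndF1q2a) (pc := pcF3) (cut := Cut.none) (xt := Ext.none) (P1 := 0) (W1 := 536870912) (P2 := 0) (W2 := 536870912) (P3 := 33554432) (W3 := 16777216)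
    rfl rfl rfl (fun _ => rfl) k0_pp_023_a

noncomputable def f_pp_023_b : ℕ → ℕ → ℕ → ℕ → Bool := onCell 1610612736 536870912 1239849684 370763052 33554432 16777216
    (rowFK 2 true true true .up 0 2 3 (qsf 0 536870912 1239849684 370763052 3) ndF0q0 ndF1q2b pcF3 Cut.none Ext.none)

def k0_pp_023_b : ∃ t, chk3 f_pp_023_b t 1 1 1 = true :=
  ⟨(a (l 4) (l 4)), by decide +kernel⟩

theorem c_pp_023_b : CertF 0 536870912 1239849684 370763052 33554432 16777216 true true true .up 0 2 3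
    ndF0q0 ndF1q2b pcF3 Cut.none Ext.none :=
  certFK2 (fam := true) (s1 := true) (s2 := true) (a := 0) (b := 2) (c := 3) (cn := .up) (n1 := ndF0q0) (n2 := ndF1q2b) (pc := pcF3) (cut := Cut.none) (xt := Ext.none) (P1 := 0) (W1 := 536870912) (P2 := 1239849684) (W2 := 370763052) (P3 := 33554432) (W3 := 16777216)
    rfl rfl rfl (fun _ => rfl) k0_pp_023_b

noncomputable def f_pp_033 : ℕ → ℕ → ℕ → ℕ → Bool := onCell 0 536870912 1610612736 536870912 33554432 16777216
    (rowFK 0 true true true .pnn 0 3 3 (qsf 0 536870912 1610612736 536870912 3) ndF0q0 ndF1q3 pcF3 Cut.none Ext.none)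

def k0_pp_033 : ∃ t, chk3 f_pp_033 t 1 1 1 = true :=
  ⟨(a (b (l 4) (l 4)) (l 4)), by decide +kernel⟩

theorem c_pp_033 : CertF 0 536870912 1610612736 536870912 33554432 16777216 true true true .pnn 0 3 3
    ndF0q0 ndF1q3 pcF3 Cut.none Ext.none :=
  certFK0 (fam := true) (s1 := true) (s2 := true) (a := 0) (b := 3) (c := 3) (cn := .pnn) (n1 := ndF0q0) (n2 := ndF1q3) (pc := pcF3) (cut := Cut.none) (xt := Ext.none) (P1 := 0) (W1 := 536870912) (P2 := 1610612736) (W2 := 536870912) (P3 := 33554432) (W3 := 16777216)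
    rfl rfl rfl k0_pp_033

noncomputable def f_pp_101 : ℕ → ℕ → ℕ → ℕ → Bool := onCell 536870912 536870912 0 536870912 33554432 16777216
    (rowFK 0 true true true .npn 1 0 1 (qsf 536870912 536870912 0 536870912 1) ndF0q1 ndF1q0 pcF1 Cut.none Ext.none)

def k0_pp_101 : ∃ t, chk3 f_pp_101 t 1 1 1 = true :=
  ⟨(l 5), by decide +kernel⟩

theorem c_pp_101 : CertF 536870912 536870912 0 536870912 33554432 16777216 true true true .npn 1 0 1
    ndF0q1 ndF1q0 pcF1 Cut.none Ext.none :=
  certFK0 (fam := true) (s1 := true) (s2 := true) (a := 1) (b := 0) (c := 1) (cn := .npn) (n1 := ndF0q1) (n2 := ndF1q0) (pc := pcF1) (cut := Cut.none) (xt := Ext.none) (P1 := 536870912) (W1 := 536870912) (P2 := 0) (W2 := 536870912) (P3 := 33554432) (W3 := 16777216)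
    rfl rfl rfl k0_pp_101

noncomputable def f_pp_102 : ℕ → ℕ → ℕ → ℕ → Bool := onCell 536870912 536870912 0 536870912 33554432 16777216
    (rowFK 0 true true true .npp 1 0 2 (qsf 536870912 536870912 0 536870912 2) ndF0q1 ndF1q0 pcF2 Cut.none Ext.none)

def k0_pp_102 : ∃ t, chk3 f_pp_102 t 1 1 1 = true :=
  ⟨(l 5), by decide +kernel⟩

theorem c_pp_102 : CertF 536870912 536870912 0 536870912 33554432 16777216 true true true .npp 1 0 2
    ndF0q1 ndF1q0 pcF2 Cut.none Ext.none :=
  certFK0 (fam := true) (s1 := true) (s2 := true) (a := 1) (b := 0) (c := 2) (cn := .npp) (n1 := ndF0q1) (n2 := ndF1q0) (pc := pcF2) (cut := Cut.none) (xt := Ext.none) (P1 := 536870912) (W1 := 536870912) (P2 := 0) (W2 := 536870912) (P3 := 33554432) (W3 := 16777216)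
    rfl rfl rfl k0_pp_102

noncomputable def f_pp_112 : ℕ → ℕ → ℕ → ℕ → Bool := onCell 536870912 536870912 536870912 536870912 33554432 16777216
    (rowFK 0 true true true .dn 1 1 2 (qsf 536870912 536870912 536870912 536870912 2) ndF0q1 ndF1q1 pcF2 Cut.none Ext.none)

def k0_pp_112 : ∃ t, chk3 f_pp_112 t 1 1 1 = true :=
  ⟨(l 4), by decide +kernel⟩

theorem c_pp_112 : CertF 536870912 536870912 536870912 536870912 33554432 16777216 true true true .dn 1 1 2
    ndF0q1 ndF1q1 pcF2 Cut.none Ext.none :=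
  certFK0 (fam := true) (s1 := true) (s2 := true) (a := 1) (b := 1) (c := 2) (cn := .dn) (n1 := ndF0q1) (n2 := ndF1q1) (pc := pcF2) (cut := Cut.none) (xt := Ext.none) (P1 := 536870912) (W1 := 536870912) (P2 := 536870912) (W2 := 536870912) (P3 := 33554432) (W3 := 16777216)
    rfl rfl rfl k0_pp_112

noncomputable def f_pp_113 : ℕ → ℕ → ℕ → ℕ → Bool := onCell 536870912 536870912 536870912 536870912 33554432 16777216
    (rowFK 0 true true true .nn 1 1 3 (qsf 536870912 536870912 536870912 536870912 3) ndF0q1 ndF1q1 pcF3 Cut.none Ext.none)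

def k0_pp_113 : ∃ t, chk3 f_pp_113 t 1 1 1 = true :=
  ⟨(l 4), by decide +kernel⟩

theorem c_pp_113 : CertF 536870912 536870912 536870912 536870912 33554432 16777216 true true true .nn 1 1 3
    ndF0q1 ndF1q1 pcF3 Cut.none Ext.none :=
  certFK0 (fam := true) (s1 := true) (s2 := true) (a := 1) (b := 1) (c := 3) (cn := .nn) (n1 := ndF0q1) (n2 := ndF1q1) (pc := pcF3) (cut := Cut.none) (xt := Ext.none) (P1 := 536870912) (W1 := 536870912) (P2 := 536870912) (W2 := 536870912) (P3 := 33554432) (W3 := 16777216)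
    rfl rfl rfl k0_pp_113

noncomputable def f_pp_123_a : ℕ → ℕ → ℕ → ℕ → Bool := onCell 536870912 536870912 0 536870912 33554432 16777216
    (rowFK 0 true true true .npn 1 2 3 (qsf 536870912 536870912 0 536870912 3) ndF0q1 ndF1q2a pcF3 Cut.none Ext.none)

def k0_pp_123_a : ∃ t, chk3 f_pp_123_a t 1 1 1 = true :=
  ⟨(l 4), by decide +kernel⟩

theorem c_pp_123_a : CertF 536870912 536870912 0 536870912 33554432 16777216 true true true .npn 1 2 3
    ndF0q1 ndF1q2a pcF3 Cut.none Ext.none :=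
  certFK0 (fam := true) (s1 := true) (s2 := true) (a := 1) (b := 2) (c := 3) (cn := .npn) (n1 := ndF0q1) (n2 := ndF1q2a) (pc := pcF3) (cut := Cut.none) (xt := Ext.none) (P1 := 536870912) (W1 := 536870912) (P2 := 0) (W2 := 536870912) (P3 := 33554432) (W3 := 16777216)
    rfl rfl rfl k0_pp_123_a

noncomputable def f_pp_123_b : ℕ → ℕ → ℕ → ℕ → Bool := onCell 536870912 536870912 1239849684 370763052 33554432 16777216
    (rowFK 0 true true true .npn 1 2 3 (qsf 536870912 536870912 1239849684 370763052 3) ndF0q1 ndF1q2b pcF3 Cut.none Ext.none)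

def k0_pp_123_b : ∃ t, chk3 f_pp_123_b t 1 1 1 = true :=
  ⟨(l 4), by decide +kernel⟩

theorem c_pp_123_b : CertF 536870912 536870912 1239849684 370763052 33554432 16777216 true true true .npn 1 2 3
    ndF0q1 ndF1q2b pcF3 Cut.none Ext.none :=
  certFK0 (fam := true) (s1 := true) (s2 := true) (a := 1) (b := 2) (c := 3) (cn := .npn) (n1 := ndF0q1) (n2 := ndF1q2b) (pc := pcF3) (cut := Cut.none) (xt := Ext.none) (P1 := 536870912) (W1 := 536870912) (P2 := 1239849684) (W2 := 370763052) (P3 := 33554432) (W3 := 16777216)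
    rfl rfl rfl k0_pp_123_b

noncomputable def f_pp_133 : ℕ → ℕ → ℕ → ℕ → Bool := onCell 536870912 536870912 1610612736 536870912 33554432 16777216
    (rowFK 0 true true true .dn 1 3 3 (qsf 536870912 536870912 1610612736 536870912 3) ndF0q1 ndF1q3 pcF3 Cut.none Ext.none)

def k0_pp_133 : ∃ t, chk3 f_pp_133 t 1 1 1 = true :=
  ⟨(l 4), by decide +kernel⟩

theorem c_pp_133 : CertF 536870912 536870912 1610612736 536870912 33554432 16777216 true true true .dn 1 3 3
    ndF0q1 ndF1q3 pcF3 Cut.none Ext.none :=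
  certFK0 (fam := true) (s1 := true) (s2 := true) (a := 1) (b := 3) (c := 3) (cn := .dn) (n1 := ndF0q1) (n2 := ndF1q3) (pc := pcF3) (cut := Cut.none) (xt := Ext.none) (P1 := 536870912) (W1 := 536870912) (P2 := 1610612736) (W2 := 536870912) (P3 := 33554432) (W3 := 16777216)
    rfl rfl rfl k0_pp_133

noncomputable def f_pp_202 : ℕ → ℕ → ℕ → ℕ → Bool := onCell 0 536870912 0 536870912 33554432 16777216
    (rowFK 0 true true true .pp 2 0 2 (qsf 0 536870912 0 536870912 2) ndF0q2 ndF1q0 pcF2 Cut.none Ext.none)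

def k0_pp_202 : ∃ t, chk3 f_pp_202 t 1 1 1 = true :=
  ⟨(l 5), by decide +kernel⟩

theorem c_pp_202 : CertF 0 536870912 0 536870912 33554432 16777216 true true true .pp 2 0 2
    ndF0q2 ndF1q0 pcF2 Cut.none Ext.none :=
  certFK0 (fam := true) (s1 := true) (s2 := true) (a := 2) (b := 0) (c := 2) (cn := .pp) (n1 := ndF0q2) (n2 := ndF1q0) (pc := pcF2) (cut := Cut.none) (xt := Ext.none) (P1 := 0) (W1 := 536870912) (P2 := 0) (W2 := 536870912) (P3 := 33554432) (W3 := 16777216)
    rfl rfl rfl k0_pp_202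

noncomputable def f_pp_203 : ℕ → ℕ → ℕ → ℕ → Bool := onCell 0 536870912 0 536870912 33554432 16777216
    (rowFK 0 true true true .up 2 0 3 (qsf 0 536870912 0 536870912 3) ndF0q2 ndF1q0 pcF3 Cut.none Ext.none)

def k0_pp_203 : ∃ t, chk3 f_pp_203 t 1 1 1 = true :=
  ⟨(l 5), by decide +kernel⟩

theorem c_pp_203 : CertF 0 536870912 0 536870912 33554432 16777216 true true true .up 2 0 3
    ndF0q2 ndF1q0 pcF3 Cut.none Ext.none :=
  certFK0 (fam := true) (s1 := true) (s2 := true) (a := 2) (b := 0) (c := 3) (cn := .up) (n1 := ndF0q2) (n2 := ndF1q0) (pc := pcF3) (cut := Cut.none) (xt := Ext.none) (P1 := 0) (W1 := 536870912) (P2 := 0) (W2 := 536870912) (P3 := 33554432) (W3 := 16777216)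
    rfl rfl rfl k0_pp_203

noncomputable def f_pp_213 : ℕ → ℕ → ℕ → ℕ → Bool := onCell 0 536870912 536870912 536870912 33554432 16777216
    (rowFK 0 true true true .pnn 2 1 3 (qsf 0 536870912 536870912 536870912 3) ndF0q2 ndF1q1 pcF3 Cut.none Ext.none)

def k0_pp_213 : ∃ t, chk3 f_pp_213 t 1 1 1 = true :=
  ⟨(l 4), by decide +kernel⟩

theorem c_pp_213 : CertF 0 536870912 536870912 536870912 33554432 16777216 true true true .pnn 2 1 3
    ndF0q2 ndF1q1 pcF3 Cut.none Ext.none :=
  certFK0 (fam := true) (s1 := true) (s2 := true) (a := 2) (b := 1) (c := 3) (cn := .pnn) (n1 := ndF0q2) (n2 := ndF1q1) (pc := pcF3) (cut := Cut.none) (xt := Ext.none) (P1 := 0) (W1 := 536870912) (P2 := 536870912) (W2 := 536870912) (P3 := 33554432) (W3 := 16777216)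
    rfl rfl rfl k0_pp_213

noncomputable def f_pm_001 : ℕ → ℕ → ℕ → ℕ → Bool := onCell 0 536870912 0 536870912 33554432 16777216
    (rowFK 0 true true false .up 0 0 1 (qsf 0 536870912 0 536870912 1) ndF0q0 ndF1q0 pcF1 Cut.none Ext.none)

def k0_pm_001 : ∃ t, chk3 f_pm_001 t 1 1 1 = true :=
  ⟨(l 3), by decide +kernel⟩

theorem c_pm_001 : CertF 0 536870912 0 536870912 33554432 16777216 true true false .up 0 0 1
    ndF0q0 ndF1q0 pcF1 Cut.none Ext.none :=
  certFK0 (fam := true) (s1 := true) (s2 := false) (a := 0) (b := 0) (c := 1) (cn := .up) (n1 := ndF0q0) (n2 := ndF1q0) (pc := pcF1) (cut := Cut.none) (xt := Ext.none) (P1 := 0) (W1 := 536870912) (P2 := 0) (W2 := 536870912) (P3 := 33554432) (W3 := 16777216)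
    rfl rfl rfl k0_pm_001

noncomputable def f_pm_011 : ℕ → ℕ → ℕ → ℕ → Bool := onCell 0 536870912 536870912 536870912 33554432 16777216
    (rowFK 1 true true false .pnn 0 1 1 (qsf 0 536870912 536870912 536870912 1) ndF0q0 ndF1q1 pcF1 Cut.none Ext.none)

def k0_pm_011 : ∃ t, chk3 f_pm_011 t 1 1 1 = true :=
  ⟨(l 3), by decide +kernel⟩

theorem c_pm_011 : CertF 0 536870912 536870912 536870912 33554432 16777216 true true false .pnn 0 1 1
    ndF0q0 ndF1q1 pcF1 Cut.none Ext.none :=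
  certFK1 (fam := true) (s1 := true) (s2 := false) (a := 0) (b := 1) (c := 1) (cn := .pnn) (n1 := ndF0q0) (n2 := ndF1q1) (pc := pcF1) (cut := Cut.none) (xt := Ext.none) (P1 := 0) (W1 := 536870912) (P2 := 536870912) (W2 := 536870912) (P3 := 33554432) (W3 := 16777216)
    rfl rfl rfl (fun _ => rfl) k0_pm_011

noncomputable def f_pm_012 : ℕ → ℕ → ℕ → ℕ → Bool := onCell 1073741824 536870912 536870912 536870912 33554432 16777216
    (rowFK 2 true true false .pnp 0 1 2 (qsf 0 536870912 536870912 536870912 2) ndF0q0 ndF1q1 pcF2 Cut.none Ext.none)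

def k0_pm_012 : ∃ t, chk3 f_pm_012 t 1 1 1 = true :=
  ⟨(a (b (a (a (l 3) (a (l 3) (b (b (l 2) (l 17971976)) (l 135462104551)))) (a (b (a (a (l 18112112) (l 2)) (l 2)) (a (a (l 18012088) (a (l 18070928) (a (l 18106904) (l 18158160)))) (l 18156856))) (b (l 2) (l 18203800)))) (a (l 3) (a (b (a (a (l 18036584) (a (l 18090992) (a (l 18143192) (l 18176688)))) (l 18191760)) (a (a (l 3) (a (b (l 3) (l 3)) (b (a (l 18299520) (l 18314136)) (a (l 3) (l 18706576))))) (b (l 18353888) (l 18693928)))) (b (l 18268120) (b (l 18409968) (l 18694488)))))) (b (a (b (l 2) (a (l 18258608) (l 2))) (l 2)) (b (a (a (l 18317624) (l 18342176)) (b (l 2) (l 18310064))) (a (b (l 18450528) (a (l 18611272) (l 18565688))) (b (l 18416976) (l 18476224)))))), by decide +kernel⟩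

theorem c_pm_012 : CertF 0 536870912 536870912 536870912 33554432 16777216 true true false .pnp 0 1 2
    ndF0q0 ndF1q1 pcF2 Cut.none Ext.none :=
  certFK2 (fam := true) (s1 := true) (s2 := false) (a := 0) (b := 1) (c := 2) (cn := .pnp) (n1 := ndF0q0) (n2 := ndF1q1) (pc := pcF2) (cut := Cut.none) (xt := Ext.none) (P1 := 0) (W1 := 536870912) (P2 := 536870912) (W2 := 536870912) (P3 := 33554432) (W3 := 16777216)
    rfl rfl rfl (fun _ => rfl) k0_pm_012

noncomputable def cut_pm_022_a : Cut := Cut.of [[⟨0, 0, 0, 33554432⟩, ⟨1, 1, 0, 33554432⟩, ⟨2, 1, 0, 33554432⟩], [⟨0, 0, 1, 25165824⟩, ⟨1, 1, 0, 16777216⟩, ⟨2, 1, 1, 25165824⟩, ⟨0, 0, 0, 67108864⟩, ⟨0, 1, 0, 1056964608⟩, ⟨2, 1, 0, 67108864⟩, ⟨2, 2, 0, 1056964608⟩]]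

noncomputable def f_pm_022_a : ℕ → ℕ → ℕ → ℕ → Bool := onCell 0 536870912 0 536870912 33554432 16777216
    (rowFK 0 true true false .pp 0 2 2 (qsf 0 536870912 0 536870912 2) ndF0q0 ndF1q2a pcF2 cut_pm_022_a Ext.none)

def k0_pm_022_a : ∃ t, chk3 f_pm_022_a t 8 2 1 = true :=
  ⟨(l 19222368), by decide +kernel⟩

def k1_pm_022_a : ∃ t, chk3 f_pm_022_a t 8 6 1 = true :=
  ⟨(a (b (l 19147280) (a (l 18868408) (l 18882968))) (l 18928688)), by decide +kernel⟩

def k2_pm_022_a : ∃ t, chk3 f_pm_022_a t 8 14 1 = true :=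
  ⟨(a (b (a (b (l 18505168) (c (l 18503072) (a (l 17761080) (l 18139456)))) (l 18553424)) (a (b (a (c (a (l 18063192) (l 18182048)) (a (b (l 17546976) (b (l 17302248) (l 17040200))) (a (l 17481760) (l 17687224)))) (c (l 18312056) (l 17599352))) (a (c (b (a (c (l 17881928) (l 17335232)) (l 17888736)) (a (a (c (l 17450920) (a (l 16963784) (l 17104952))) (c (l 17654488) (l 17170104))) (c (l 17803920) (l 17332008)))) (a (b (c (a (l 16950888) (l 17230040)) (l 16719024)) (l 16723184)) (b (c (l 17398896) (l 16932552)) (l 16760488)))) (c (b (l 18078944) (l 17740744)) (b (a (l 17404816) (l 17645336)) (a (c (l 17362424) (l 16969240)) (l 17371096)))))) (b (l 18286600) (c (l 18241512) (a (b (l 17825016) (l 17613416)) (l 17929648)))))) (b (l 18621760) (a (l 18340944) (l 18418512)))), by decide +kernel⟩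

def k3_pm_022_a : ∃ t, chk3 f_pm_022_a t 8 30 1 = true :=
  ⟨(a (a (a (b (b (a (a (l 16728904) (l 16723992)) (b (c (c (l 17594272) (l 17077880)) (l 16722752)) (l 16758320))) (a (a (l 16733712) (b (l 16727472) (l 16729904))) (b (l 16726448) (l 16728800)))) (b (a (a (a (l 6) (l 16735640)) (l 16736360)) (a (l 16733800) (l 16731200))) (a (l 6) (a (l 6) (l 16737720))))) (a (b (b (c (c (l 17722592) (l 17262416)) (l 16771416)) (a (l 16794544) (b (c (l 17380696) (l 16752640)) (l 16858464)))) (b (a (l 16746912) (l 16744232)) (b (l 16730960) (l 16734880)))) (b (c (b (l 17740296) (c (l 17638384) (l 17169032))) (b (l 16953232) (l 16779600))) (a (b (l 16771624) (b (l 16724152) (l 16726680))) (b (l 16819216) (l 16743520)))))) (b (a (c (b (l 17932360) (l 17482848)) (b (a (l 17292920) (l 17531280)) (a (l 16937512) (l 17233656)))) (c (l 18030792) (b (l 17710568) (l 17411328)))) (a (b (c (a (c (l 17551768) (l 17031560)) (l 17540088)) (a (l 16765072) (l 16878224))) (a (b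 (l 16810872) (l 16740376)) (b (c (l 17330816) (l 16850112)) (c (l 17064696) (l 16734440))))) (c (b (l 17777616) (a (l 17374416) (l 17638984))) (b (a (l 17130920) (l 17410000)) (a (l 16818192) (l 17006328))))))) (a (b (a (l 17986712) (l 18096208)) (a (c (l 17879728) (b (l 17589944) (a (l 17326704) (l 17473240)))) (l 17708952))) (l 17862168))), by decide +kernel⟩

def k4_pm_022_a : ∃ t, chk3 f_pm_022_a t 8 31 1 = true :=
  ⟨(a (a (a (l 6) (b (b (b (a (a (l 6) (l 16753192)) (a (l 16750272) (l 16747320))) (a (l 6) (a (l 16753008) (b (l 16749312) (l 16750672))))) (l 6)) (l 6))) (a (a (b (a (b (b (l 16744344) (b (l 16746288) (l 16749208))) (b (b (l 16752872) (l 16756528)) (l 6))) (b (b (l 16741336) (l 16746528)) (b (l 16753888) (l 16761248)))) (l 6)) (b (b (b (l 16785728) (b (c (l 16870432) (l 16743392)) (l 16747152))) (c (l 14) (b (l 16742152) (l 16743000)))) (b (b (a (l 16749536) (l 16748848)) (l 6)) (l 6)))) (b (a (b (b (c (l 17185136) (l 16792704)) (l 16798200))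 (b (l 16742040) (b (l 16735880) (l 16739624)))) (b (c (l 17165840) (b (l 16949904) (l 16858960))) (l 14))) (a (a (b (b (l 16756048) (c (l 14) (l 16755296))) (l 6)) (l 14)) (l 14))))) (b (b (a (a (c (l 17469768) (a (b (l 17168816) (l 16991544)) (l 17159120))) (c (l 17803576) (l 17339376))) (l 17849480)) (a (a (l 14) (c (l 17638464) (l 14))) (a (l 17480808) (l 17783232)))) (a (b (a (l 14) (c (c (l 17500896) (l 14)) (l 14))) (l 14)) (b (c (l 17510488) (a (a (l 14) (l 17368864)) (l 17520216))) (a (c (b (l 17519600) (a (l 14) (l 17478656))) (l 14)) (c (l 17640880) (b (l 17411456) (a (l 14) (l 17379856))))))))), by decide +kernel⟩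

def k5_pm_022_a : ∃ t, chk3 f_pm_022_a t 9 1 1 = true :=
  ⟨(b (l 18821352) (b (l 18736704) (b (l 18512752) (b (a (l 18246328) (l 18295464)) (a (b (l 18031576) (a (b (l 17819480) (a (l 17584328) (l 17754016))) (l 17916344))) (l 18101224)))))), by decide +kernel⟩

def k6_pm_022_a : ∃ t, chk3 f_pm_022_a t 5 1 1 = true :=
  ⟨(b (l 18271976) (b (l 18369736) (a (b (l 18360064) (l 18324512)) (l 18083008)))), by decide +kernel⟩

def k7_pm_022_a : ∃ t, chk3 f_pm_022_a t 3 1 1 = true :=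
  ⟨(b (a (l 17612880) (a (l 17416040) (l 2))) (a (a (l 17925248) (l 17666928)) (l 17703800))), by decide +kernel⟩

theorem s8_pm_022_a : ∃ t, chk3 f_pm_022_a t 8 15 1 = true := ex3_b k3_pm_022_a k4_pm_022_a

theorem s9_pm_022_a : ∃ t, chk3 f_pm_022_a t 8 7 1 = true := ex3_b k2_pm_022_a s8_pm_022_a

theorem s10_pm_022_a : ∃ t, chk3 f_pm_022_a t 8 3 1 = true := ex3_b k1_pm_022_a s9_pm_022_a

theorem s11_pm_022_a : ∃ t, chk3 f_pm_022_a t 8 1 1 = true := ex3_b k0_pm_022_a s10_pm_022_a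

theorem s12_pm_022_a : ∃ t, chk3 f_pm_022_a t 4 1 1 = true := ex3_a s11_pm_022_a k5_pm_022_a

theorem s13_pm_022_a : ∃ t, chk3 f_pm_022_a t 2 1 1 = true := ex3_a s12_pm_022_a k6_pm_022_a

theorem s14_pm_022_a : ∃ t, chk3 f_pm_022_a t 1 1 1 = true := ex3_a s13_pm_022_a k7_pm_022_a

theorem c_pm_022_a : CertF 0 536870912 0 536870912 33554432 16777216 true true false .pp 0 2 2
    ndF0q0 ndF1q2a pcF2 cut_pm_022_a Ext.none :=
  certFK0 (fam := true) (s1 := true) (s2 := false) (a := 0) (b := 2) (c := 2) (cn := .pp) (n1 := ndF0q0) (n2 := ndF1q2a) (pc := pcF2) (cut := cut_pm_022_a) (xt := Ext.none) (P1 := 0) (W1 := 536870912) (P2 := 0) (W2 := 536870912) (P3 := 33554432) (W3 := 16777216)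
    rfl rfl rfl s14_pm_022_a

noncomputable def cut_pm_022_b : Cut := Cut.of [[⟨0, 0, 0, 33554432⟩, ⟨1, 1, 0, 33554432⟩, ⟨2, 1, 0, 33554432⟩], [⟨0, 0, 1, 25165824⟩, ⟨1, 1, 0, 16777216⟩, ⟨2, 1, 1, 25165824⟩, ⟨0, 0, 0, 67108864⟩, ⟨0, 1, 0, 1056964608⟩, ⟨2, 1, 0, 67108864⟩, ⟨2, 2, 0, 1056964608⟩]]

noncomputable def f_pm_022_b : ℕ → ℕ → ℕ → ℕ → Bool := onCell 0 536870912 1073741824 536870912 33554432 16777216
    (rowFK 1 true true false .pp 0 2 2 (qsf 0 536870912 1239849684 370763052 2) ndF0q0 ndF1q2b pcF2 cut_pm_022_b Ext.none)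

def k0_pm_022_b : ∃ t, chk3 f_pm_022_b t 1 1 1 = true :=
  ⟨(a (b (b (l 1) (a (a (l 258810717175) (b (l 1) (l 18673672))) (l 1))) (a (b (l 19189648) (l 19208200)) (a (l 256124997271) (l 224985375863)))) (b (l 1) (a (b (l 1) (l 225521209303)) (l 1)))), by decide +kernel⟩

theorem c_pm_022_b : CertF 0 536870912 1239849684 370763052 33554432 16777216 true true false .pp 0 2 2
    ndF0q0 ndF1q2b pcF2 cut_pm_022_b Ext.none :=
  certFK1 (fam := true) (s1 := true) (s2 := false) (a := 0) (b := 2) (c := 2) (cn := .pp) (n1 := ndF0q0) (n2 := ndF1q2b) (pc := pcF2) (cut := cut_pm_022_b) (xt := Ext.none) (P1 := 0) (W1 := 536870912) (P2 := 1239849684) (W2 := 370763052) (P3 := 33554432) (W3 := 16777216)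
    rfl rfl rfl (fun _ => rfl) k0_pm_022_b

noncomputable def f_pm_023_a : ℕ → ℕ → ℕ → ℕ → Bool := onCell 0 536870912 0 536870912 33554432 16777216
    (rowFK 0 true true false .up 0 2 3 (qsf 0 536870912 0 536870912 3) ndF0q0 ndF1q2a pcF3 Cut.none Ext.none)

def k0_pm_023_a : ∃ t, chk3 f_pm_023_a t 1 1 1 = true :=
  ⟨(a (l 1) (b (a (l 17839744) (l 17872088)) (a (b (l 1) (l 1)) (b (l 17623144) (a (l 17808808) (l 55333320455)))))), by decide +kernel⟩

theorem c_pm_023_a : CertF 0 536870912 0 536870912 33554432 16777216 true true false .up 0 2 3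
    ndF0q0 ndF1q2a pcF3 Cut.none Ext.none :=
  certFK0 (fam := true) (s1 := true) (s2 := false) (a := 0) (b := 2) (c := 3) (cn := .up) (n1 := ndF0q0) (n2 := ndF1q2a) (pc := pcF3) (cut := Cut.none) (xt := Ext.none) (P1 := 0) (W1 := 536870912) (P2 := 0) (W2 := 536870912) (P3 := 33554432) (W3 := 16777216)
    rfl rfl rfl k0_pm_023_a

noncomputable def f_pm_023_b : ℕ → ℕ → ℕ → ℕ → Bool := onCell 0 536870912 1610612736 536870912 33554432 16777216
    (rowFK 1 true true false .up 0 2 3 (qsf 0 536870912 1239849684 370763052 3) ndF0q0 ndF1q2b pcF3 Cut.none Ext.none)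

def k0_pm_023_b : ∃ t, chk3 f_pm_023_b t 1 1 1 = true :=
  ⟨(b (a (b (a (l 18522448) (l 18150888)) (a (l 18595192) (l 18115368))) (b (a (l 17912352) (a (l 17671424) (l 288334938167))) (a (l 17584640) (b (l 17675312) (l 17480984))))) (b (a (a (l 2) (l 18077896)) (a (b (l 17517392) (l 17448096)) (b (l 17414576) (l 17364800)))) (b (l 4) (l 4)))), by decide +kernel⟩

theorem c_pm_023_b : CertF 0 536870912 1239849684 370763052 33554432 16777216 true true false .up 0 2 3
    ndF0q0 ndF1q2b pcF3 Cut.none Ext.none :=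
  certFK1 (fam := true) (s1 := true) (s2 := false) (a := 0) (b := 2) (c := 3) (cn := .up) (n1 := ndF0q0) (n2 := ndF1q2b) (pc := pcF3) (cut := Cut.none) (xt := Ext.none) (P1 := 0) (W1 := 536870912) (P2 := 1239849684) (W2 := 370763052) (P3 := 33554432) (W3 := 16777216)
    rfl rfl rfl (fun _ => rfl) k0_pm_023_b

noncomputable def f_pm_033 : ℕ → ℕ → ℕ → ℕ → Bool := onCell 1610612736 536870912 1610612736 536870912 33554432 16777216
    (rowFK 2 true true false .pnn 0 3 3 (qsf 0 536870912 1610612736 536870912 3) ndF0q0 ndF1q3 pcF3 Cut.none Ext.none)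

def k0_pm_033 : ∃ t, chk3 f_pm_033 t 1 1 1 = true :=
  ⟨(a (b (a (b (l 18067856) (a (l 1) (l 17721016))) (b (a (l 17559856) (l 17501536)) (a (l 17780904) (l 17616224)))) (a (l 1) (b (a (l 1) (l 18030192)) (l 1)))) (a (b (a (b (l 17489520) (l 17322240)) (l 4)) (l 4)) (l 4))), by decide +kernel⟩

theorem c_pm_033 : CertF 0 536870912 1610612736 536870912 33554432 16777216 true true false .pnn 0 3 3
    ndF0q0 ndF1q3 pcF3 Cut.none Ext.none :=
  certFK2 (fam := true) (s1 := true) (s2 := false) (a := 0) (b := 3) (c := 3) (cn := .pnn) (n1 := ndF0q0) (n2 := ndF1q3) (pc := pcF3) (cut := Cut.none) (xt := Ext.none) (P1 := 0) (W1 := 536870912) (P2 := 1610612736) (W2 := 536870912) (P3 := 33554432) (W3 := 16777216)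
    rfl rfl rfl (fun _ => rfl) k0_pm_033

noncomputable def cut_pm_101 : Cut := Cut.of [[⟨0, 1, 0, 33554432⟩, ⟨1, 0, 0, 33554432⟩, ⟨2, 1, 0, 33554432⟩]]

noncomputable def f_pm_101 : ℕ → ℕ → ℕ → ℕ → Bool := onCell 536870912 536870912 0 536870912 33554432 16777216
    (rowFK 2 true true false .npn 1 0 1 (qsf 536870912 536870912 0 536870912 1) ndF0q1 ndF1q0 pcF1 cut_pm_101 Ext.none)

def k0_pm_101 : ∃ t, chk3 f_pm_101 t 1 1 1 = true :=
  ⟨(a (l 3) (b (a (l 3) (b (a (l 3) (b (a (l 3) (a (l 3) (b (a (l 3) (b (l 6) (l 3))) (l 3)))) (l 3))) (l 3))) (l 3))), by decide +kernel⟩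

theorem c_pm_101 : CertF 536870912 536870912 0 536870912 33554432 16777216 true true false .npn 1 0 1
    ndF0q1 ndF1q0 pcF1 cut_pm_101 Ext.none :=
  certFK2 (fam := true) (s1 := true) (s2 := false) (a := 1) (b := 0) (c := 1) (cn := .npn) (n1 := ndF0q1) (n2 := ndF1q0) (pc := pcF1) (cut := cut_pm_101) (xt := Ext.none) (P1 := 536870912) (W1 := 536870912) (P2 := 0) (W2 := 536870912) (P3 := 33554432) (W3 := 16777216)
    rfl rfl rfl (fun _ => rfl) k0_pm_101

noncomputable def cut_pm_102 : Cut := Cut.of [[⟨0, 1, 0, 33554432⟩, ⟨1, 0, 0, 33554432⟩, ⟨2, 1, 0, 33554432⟩]]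

noncomputable def f_pm_102 : ℕ → ℕ → ℕ → ℕ → Bool := onCell 536870912 536870912 1073741824 536870912 33554432 16777216
    (rowFK 1 true true false .npp 1 0 2 (qsf 536870912 536870912 0 536870912 2) ndF0q1 ndF1q0 pcF2 cut_pm_102 Ext.none)

def k0_pm_102 : ∃ t, chk3 f_pm_102 t 1 1 1 = true :=
  ⟨(a (b (b (b (l 3) (a (b (l 3) (l 18025960)) (b (l 142440924679) (l 7149411111)))) (b (a (b (b (l 17815208) (l 2)) (l 2)) (b (b (l 17683112) (b (l 17599432) (l 17587776))) (l 17557088))) (a (l 2) (l 17481728)))) (a (l 2) (a (l 2) (l 17201488)))) (b (a (b (b (b (l 3) (a (l 17672240) (b (l 17478664) (l 17497952)))) (b (a (l 17591096) (l 17506352)) (a (l 17580936) (l 17336856)))) (a (l 17462312) (l 17241312))) (b (b (b (a (a (l 152639958087) (l 154250289943)) (a (b (l 156397543335) (a (l 16950704) (l 16918336))) (b (b (a (l 16895448) (l 6)) (a (l 16868424) (a (l 16848344) (l 6)))) (a (l 16907696) (a (l 16845712) (l 16799912)))))) (a (l 17345000) (a (a (l 17016408) (l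 16967768)) (a (l 17062648) (l 16919240))))) (a (b (a (l 17145592) (l 16997720)) (l 17022032)) (b (a (l 17135760) (a (l 17431120) (l 17637024))) (l 17552744)))) (a (l 17285392) (a (l 17724960) (l 18048456))))) (a (a (l 17194240) (l 17260880)) (a (l 17647944) (l 18067472))))), by decide +kernel⟩

theorem c_pm_102 : CertF 536870912 536870912 0 536870912 33554432 16777216 true true false .npp 1 0 2
    ndF0q1 ndF1q0 pcF2 cut_pm_102 Ext.none :=
  certFK1 (fam := true) (s1 := true) (s2 := false) (a := 1) (b := 0) (c := 2) (cn := .npp) (n1 := ndF0q1) (n2 := ndF1q0) (pc := pcF2) (cut := cut_pm_102) (xt := Ext.none) (P1 := 536870912) (W1 := 536870912) (P2 := 0) (W2 := 536870912) (P3 := 33554432) (W3 := 16777216)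
    rfl rfl rfl (fun _ => rfl) k0_pm_102

noncomputable def f_pm_112 : ℕ → ℕ → ℕ → ℕ → Bool := onCell 536870912 536870912 1073741824 536870912 33554432 16777216
    (rowFK 1 true true false .dn 1 1 2 (qsf 536870912 536870912 536870912 536870912 2) ndF0q1 ndF1q1 pcF2 Cut.none Ext.none)

def k0_pm_112 : ∃ t, chk3 f_pm_112 t 1 1 1 = true :=
  ⟨(a (b (b (b (l 3) (a (b (l 3) (l 18207312)) (b (l 1) (l 18417016)))) (b (a (b (b (l 18049376) (b (l 18118264) (b (l 18134120) (l 18137528)))) (l 18155800)) (b (b (l 18201320) (b (l 18216696) (l 18217976))) (l 18223600))) (a (l 18203016) (l 18238360)))) (a (l 18288528) (l 18236000))) (b (a (b (l 1) (l 18290864)) (l 1)) (a (l 18235648) (l 18309064)))), by decide +kernel⟩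

theorem c_pm_112 : CertF 536870912 536870912 536870912 536870912 33554432 16777216 true true false .dn 1 1 2
    ndF0q1 ndF1q1 pcF2 Cut.none Ext.none :=
  certFK1 (fam := true) (s1 := true) (s2 := false) (a := 1) (b := 1) (c := 2) (cn := .dn) (n1 := ndF0q1) (n2 := ndF1q1) (pc := pcF2) (cut := Cut.none) (xt := Ext.none) (P1 := 536870912) (W1 := 536870912) (P2 := 536870912) (W2 := 536870912) (P3 := 33554432) (W3 := 16777216)
    rfl rfl rfl (fun _ => rfl) k0_pm_112

noncomputable def f_pm_113 : ℕ → ℕ → ℕ → ℕ → Bool := onCell 536870912 536870912 536870912 536870912 33554432 16777216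
    (rowFK 0 true true false .nn 1 1 3 (qsf 536870912 536870912 536870912 536870912 3) ndF0q1 ndF1q1 pcF3 Cut.none Ext.none)

def k0_pm_113 : ∃ t, chk3 f_pm_113 t 1 1 1 = true :=
  ⟨(a (b (a (l 1) (a (l 1) (l 202973341111))) (a (b (a (l 1) (l 17578008)) (a (l 17638928) (b (l 17594208) (l 17499744)))) (b (a (l 17585376) (l 17998560)) (a (b (l 17465264) (l 17499856)) (l 17967936))))) (b (a (b (a (l 1) (l 18242656)) (a (l 18351128) (l 18253352))) (b (l 230890696567) (a (l 17858584) (b (l 17460184) (l 17331240))))) (a (b (a (b (l 18422632) (l 18443192)) (l 18132456)) (a (a (l 18455952) (l 18355888)) (l 17865264))) (b (a (b (l 17654448) (l 17483088)) (b (l 17247632) (a (l 17177432) (l 17191352)))) (a (b (a (l 17447552) (l 17208536)) (a (l 17288256) (l 17295144))) (b (a (l 17179296) (l 17147752)) (a (b (l 17146120) (l 17109384)) (b (l 17111928) (l 4))))))))), by decide +kernel⟩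

theorem c_pm_113 : CertF 536870912 536870912 536870912 536870912 33554432 16777216 true true false .nn 1 1 3
    ndF0q1 ndF1q1 pcF3 Cut.none Ext.none :=
  certFK0 (fam := true) (s1 := true) (s2 := false) (a := 1) (b := 1) (c := 3) (cn := .nn) (n1 := ndF0q1) (n2 := ndF1q1) (pc := pcF3) (cut := Cut.none) (xt := Ext.none) (P1 := 536870912) (W1 := 536870912) (P2 := 536870912) (W2 := 536870912) (P3 := 33554432) (W3 := 16777216)
    rfl rfl rfl k0_pm_113

noncomputable def cut_pm_123_a : Cut := Cut.of [[⟨0, 1, 0, 7061502⟩, ⟨1, 1, 0, 7061502⟩, ⟨2, 2, 0, 184626⟩]]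

noncomputable def f_pm_123_a : ℕ → ℕ → ℕ → ℕ → Bool := onCell 1610612736 536870912 0 536870912 33554432 16777216
    (rowFK 2 true true false .npn 1 2 3 (qsf 536870912 536870912 0 536870912 3) ndF0q1 ndF1q2a pcF3 cut_pm_123_a Ext.none)

def k0_pm_123_a : ∃ t, chk3 f_pm_123_a t 2 1 1 = true :=
  ⟨(a (b (a (l 1) (l 17637888)) (b (a (l 1) (l 17547376)) (a (b (l 17515696) (l 17612928)) (b (l 17368224) (l 17497408))))) (b (a (l 17749040) (b (l 17454120) (l 17430256))) (b (a (l 17411368) (l 17274840)) (b (a (l 17241992) (l 17188832)) (a (b (l 17265800) (l 17433384)) (b (l 17205816) (l 17517920))))))), by decide +kernel⟩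

def k1_pm_123_a : ∃ t, chk3 f_pm_123_a t 6 1 1 = true :=
  ⟨(b (a (b (l 17269920) (l 17319504)) (b (a (l 17157320) (l 17116952)) (a (l 17288120) (l 17265080)))) (b (a (l 17429816) (b (l 17336912) (l 17234672))) (b (a (l 17202992) (l 17201784)) (a (b (l 17188608) (b (l 17118248) (l 17333456))) (b (l 17125504) (a (l 17221416) (b (l 17061624) (l 17223056)))))))), by decide +kernel⟩

def k2_pm_123_a : ∃ t, chk3 f_pm_123_a t 7 1 1 = true :=
  ⟨(a (b (a (b (l 17077664) (l 17232304)) (b (l 17104296) (l 17146944))) (b (a (b (l 17302080) (l 17216752)) (b (l 17199768) (b (l 17185608) (l 17119824)))) (b (a (l 17035192) (l 17027120)) (b (l 17195376) (b (l 17239472) (a (l 17302960) (c (b (l 17061952) (l 17150520)) (l 17338696)))))))) (a (b (b (a (l 17003464) (l 4)) (a (l 17073576) (l 17012584))) (b (b (a (l 17093608) (l 17018688)) (l 17262976)) (b (a (l 16921360) (l 16939552)) (b (l 16982952) (b (a (l 16978320) (l 16925992)) (b (l 17011104) (a (l 17083208) (a (l 16996832)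 (l 17003136))))))))) (a (b (l 129084653511) (b (l 17059520) (b (a (l 16874712) (l 16872992)) (b (l 16872952) (b (l 16883720) (b (l 16910144) (b (l 16902920) (l 17135808)))))))) (b (l 4) (a (b (l 16960760) (b (l 16976000) (b (l 16920344) (b (l 16811552) (a (l 17026240) (l 16972224)))))) (b (l 4) (a (b (l 16837424) (b (l 16882640) (b (l 16807008) (a (l 16920872) (b (l 16795640) (l 16877064)))))) (b (a (l 16807784) (l 4)) (a (b (l 16845336) (b (l 16835536) (b (l 16785616) (a (l 16850784) (b (l 16788504) (l 16827912)))))) (b (a (l 16798752) (a (l 16791368) (l 4))) (a (b (l 16827808) (b (l 16778696) (b (l 16782936) (a (l 16814584) (a (l 16802672) (l 16799768)))))) (b (a (l 16819616) (a (l 16801040) (a (l 16786912) (l 4)))) (a (b (l 16806048) (b (l 16778928) (b (l 16780608) (a (l 16796088) (a (l 16790104) (l 16788304)))))) (a (b (l 16802232) (b (l 16778064) (b (l 16778448) (b (l 16779088) (a (l 16786712) (a (l 16783712) (l 16782808))))))) (a (b (l 16798464) (b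 (l 16801960) (b (l 16777416) (b (l 16777952) (b (l 16778208) (a (l 16781984) (a (l 16780480) (l 6)))))))) (b (l 16825952) (l 6))))))))))))))))), by decide +kernel⟩

theorem s3_pm_123_a : ∃ t, chk3 f_pm_123_a t 3 1 1 = true := ex3_a k1_pm_123_a k2_pm_123_a

theorem s4_pm_123_a : ∃ t, chk3 f_pm_123_a t 1 1 1 = true := ex3_a k0_pm_123_a s3_pm_123_a

theorem c_pm_123_a : CertF 536870912 536870912 0 536870912 33554432 16777216 true true false .npn 1 2 3
    ndF0q1 ndF1q2a pcF3 cut_pm_123_a Ext.none :=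
  certFK2 (fam := true) (s1 := true) (s2 := false) (a := 1) (b := 2) (c := 3) (cn := .npn) (n1 := ndF0q1) (n2 := ndF1q2a) (pc := pcF3) (cut := cut_pm_123_a) (xt := Ext.none) (P1 := 536870912) (W1 := 536870912) (P2 := 0) (W2 := 536870912) (P3 := 33554432) (W3 := 16777216)
    rfl rfl rfl (fun _ => rfl) s4_pm_123_a

noncomputable def cut_pm_123_b : Cut := Cut.of [[⟨0, 1, 0, 7061502⟩, ⟨1, 1, 0, 7061502⟩, ⟨2, 2, 0, 184626⟩]]

noncomputable def f_pm_123_b : ℕ → ℕ → ℕ → ℕ → Bool := onCell 1610612736 536870912 1239849684 370763052 33554432 16777216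
    (rowFK 2 true true false .npn 1 2 3 (qsf 536870912 536870912 1239849684 370763052 3) ndF0q1 ndF1q2b pcF3 cut_pm_123_b Ext.none)

def k0_pm_123_b : ∃ t, chk3 f_pm_123_b t 1 1 1 = true :=
  ⟨(a (b (a (l 1) (b (a (l 17744232) (b (l 17446120) (l 17487336))) (a (l 1) (l 17485776)))) (l 1)) (a (b (a (b (b (l 17269544) (l 17316328)) (l 17402848)) (b (b (l 17172200) (l 17094920)) (l 17365696))) (a (l 1) (b (l 17302400) (l 1)))) (a (b (b (b (a (l 16990504) (l 17123672)) (l 68955430343)) (a (l 17055976) (l 4))) (l 4)) (l 4)))), by decide +kernel⟩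

theorem c_pm_123_b : CertF 536870912 536870912 1239849684 370763052 33554432 16777216 true true false .npn 1 2 3
    ndF0q1 ndF1q2b pcF3 cut_pm_123_b Ext.none :=
  certFK2 (fam := true) (s1 := true) (s2 := false) (a := 1) (b := 2) (c := 3) (cn := .npn) (n1 := ndF0q1) (n2 := ndF1q2b) (pc := pcF3) (cut := cut_pm_123_b) (xt := Ext.none) (P1 := 536870912) (W1 := 536870912) (P2 := 1239849684) (W2 := 370763052) (P3 := 33554432) (W3 := 16777216)
    rfl rfl rfl (fun _ => rfl) k0_pm_123_b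

noncomputable def f_pm_133 : ℕ → ℕ → ℕ → ℕ → Bool := onCell 536870912 536870912 1610612736 536870912 33554432 16777216
    (rowFK 0 true true false .dn 1 3 3 (qsf 536870912 536870912 1610612736 536870912 3) ndF0q1 ndF1q3 pcF3 Cut.none Ext.none)

def k0_pm_133 : ∃ t, chk3 f_pm_133 t 1 1 1 = true :=
  ⟨(l 4), by decide +kernel⟩

theorem c_pm_133 : CertF 536870912 536870912 1610612736 536870912 33554432 16777216 true true false .dn 1 3 3
    ndF0q1 ndF1q3 pcF3 Cut.none Ext.none :=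
  certFK0 (fam := true) (s1 := true) (s2 := false) (a := 1) (b := 3) (c := 3) (cn := .dn) (n1 := ndF0q1) (n2 := ndF1q3) (pc := pcF3) (cut := Cut.none) (xt := Ext.none) (P1 := 536870912) (W1 := 536870912) (P2 := 1610612736) (W2 := 536870912) (P3 := 33554432) (W3 := 16777216)
    rfl rfl rfl k0_pm_133

noncomputable def cut_pm_202 : Cut := Cut.of [[⟨0, 1, 0, 33554432⟩, ⟨1, 0, 0, 33554432⟩, ⟨2, 1, 0, 33554432⟩]]

noncomputable def f_pm_202 : ℕ → ℕ → ℕ → ℕ → Bool := onCell 0 536870912 0 536870912 33554432 16777216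
    (rowFK 0 true true false .pp 2 0 2 (qsf 0 536870912 0 536870912 2) ndF0q2 ndF1q0 pcF2 cut_pm_202 Ext.none)

def k0_pm_202 : ∃ t, chk3 f_pm_202 t 1 1 1 = true :=
  ⟨(a (b (b (b (a (l 19200312) (l 19103520)) (a (l 18785032) (l 18756632))) (a (l 18382112) (l 18399464))) (b (a (l 18135544) (l 18142184)) (a (l 2) (l 17984392)))) (b (a (b (b (b (a (l 19075784) (b (a (l 18950800) (l 18746488)) (l 18864608))) (l 18884464)) (l 18724456)) (l 18469592)) (b (a (b (b (b (a (b (a (l 18457944) (b (l 18091520) (l 18248072))) (l 18457672)) (b (a (b (a (l 17716400) (c (l 17965640) (l 17226480))) (l 17924960)) (b (b (c (a (l 17668816) (l 17203040)) (l 16748368)) (l 17145768)) (l 17447648))) (a (l 18091920) (l 17734440)))) (a (l 18561976) (l 18185008))) (l 18536840)) (l 18585688)) (b (b (a (b (b (b (a (a (l 16734408) (l 16739856)) (b (a (l 16740928) (l 6)) (l 16742648))) (a (l 16789080) (l 16742232))) (a (l 17227872) (l 16741632))) (b (l 17362952) (l 17661336))) (b (a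 (b (l 6) (l 16755400)) (l 6)) (a (l 16748568) (b (l 16771208) (l 16758912))))) (a (l 18053816) (a (l 17644976) (l 17279408)))) (b (l 18155320) (l 18292584)))) (l 18489616))) (b (a (l 18242240) (l 18375096)) (a (l 18096192) (l 18451864))))), by decide +kernel⟩

theorem c_pm_202 : CertF 0 536870912 0 536870912 33554432 16777216 true true false .pp 2 0 2
    ndF0q2 ndF1q0 pcF2 cut_pm_202 Ext.none :=
  certFK0 (fam := true) (s1 := true) (s2 := false) (a := 2) (b := 0) (c := 2) (cn := .pp) (n1 := ndF0q2) (n2 := ndF1q0) (pc := pcF2) (cut := cut_pm_202) (xt := Ext.none) (P1 := 0) (W1 := 536870912) (P2 := 0) (W2 := 536870912) (P3 := 33554432) (W3 := 16777216)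
    rfl rfl rfl k0_pm_202

noncomputable def f_pm_203 : ℕ → ℕ → ℕ → ℕ → Bool := onCell 0 536870912 1610612736 536870912 33554432 16777216
    (rowFK 1 true true false .up 2 0 3 (qsf 0 536870912 0 536870912 3) ndF0q2 ndF1q0 pcF3 Cut.none Ext.none)

def k0_pm_203 : ∃ t, chk3 f_pm_203 t 1 1 1 = true :=
  ⟨(b (a (b (a (l 18037112) (l 18167408)) (a (l 4) (l 18087440))) (b (a (l 18481744) (l 18781696)) (a (l 2) (l 2)))) (l 2)), by decide +kernel⟩

theorem c_pm_203 : CertF 0 536870912 0 536870912 33554432 16777216 true true false .up 2 0 3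
    ndF0q2 ndF1q0 pcF3 Cut.none Ext.none :=
  certFK1 (fam := true) (s1 := true) (s2 := false) (a := 2) (b := 0) (c := 3) (cn := .up) (n1 := ndF0q2) (n2 := ndF1q0) (pc := pcF3) (cut := Cut.none) (xt := Ext.none) (P1 := 0) (W1 := 536870912) (P2 := 0) (W2 := 536870912) (P3 := 33554432) (W3 := 16777216)
    rfl rfl rfl (fun _ => rfl) k0_pm_203

noncomputable def f_pm_213 : ℕ → ℕ → ℕ → ℕ → Bool := onCell 0 536870912 1610612736 536870912 33554432 16777216
    (rowFK 1 true true false .pnn 2 1 3 (qsf 0 536870912 536870912 536870912 3) ndF0q2 ndF1q1 pcF3 Cut.none Ext.none)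

def k0_pm_213 : ∃ t, chk3 f_pm_213 t 1 1 1 = true :=
  ⟨(a (b (b (b (l 1) (l 17716992)) (b (l 17509976) (l 17519760))) (l 4)) (b (b (a (l 17377792) (l 17357760)) (a (l 17696544) (l 17502816))) (b (a (b (l 17522568) (l 4)) (b (l 17312608) (l 17242656))) (b (a (l 4) (l 17237192)) (l 4))))), by decide +kernel⟩

theorem c_pm_213 : CertF 0 536870912 536870912 536870912 33554432 16777216 true true false .pnn 2 1 3
    ndF0q2 ndF1q1 pcF3 Cut.none Ext.none :=
  certFK1 (fam := true) (s1 := true) (s2 := false) (a := 2) (b := 1) (c := 3) (cn := .pnn) (n1 := ndF0q2) (n2 := ndF1q1) (pc := pcF3) (cut := Cut.none) (xt := Ext.none) (P1 := 0) (W1 := 536870912) (P2 := 536870912) (W2 := 536870912) (P3 := 33554432) (W3 := 16777216)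
    rfl rfl rfl (fun _ => rfl) k0_pm_213

noncomputable def f_mm_001 : ℕ → ℕ → ℕ → ℕ → Bool := onCell 0 536870912 0 536870912 33554432 16777216
    (rowFK 0 true false false .up 0 0 1 (qsf 0 536870912 0 536870912 1) ndF0q0 ndF1q0 pcF1 Cut.none Ext.none)

def k0_mm_001 : ∃ t, chk3 f_mm_001 t 1 1 1 = true :=
  ⟨(l 4), by decide +kernel⟩

theorem c_mm_001 : CertF 0 536870912 0 536870912 33554432 16777216 true false false .up 0 0 1
    ndF0q0 ndF1q0 pcF1 Cut.none Ext.none :=
  certFK0 (fam := true) (s1 := false) (s2 := false) (a := 0) (b := 0) (c := 1) (cn := .up) (n1 := ndF0q0) (n2 := ndF1q0) (pc := pcF1) (cut := Cut.none) (xt := Ext.none) (P1 := 0) (W1 := 536870912) (P2 := 0) (W2 := 536870912) (P3 := 33554432) (W3 := 16777216)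
    rfl rfl rfl k0_mm_001

noncomputable def f_mm_011 : ℕ → ℕ → ℕ → ℕ → Bool := onCell 0 536870912 536870912 536870912 33554432 16777216
    (rowFK 0 true false false .pnn 0 1 1 (qsf 0 536870912 536870912 536870912 1) ndF0q0 ndF1q1 pcF1 Cut.none Ext.none)

def k0_mm_011 : ∃ t, chk3 f_mm_011 t 1 1 1 = true :=
  ⟨(l 4), by decide +kernel⟩

theorem c_mm_011 : CertF 0 536870912 536870912 536870912 33554432 16777216 true false false .pnn 0 1 1
    ndF0q0 ndF1q1 pcF1 Cut.none Ext.none :=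
  certFK0 (fam := true) (s1 := false) (s2 := false) (a := 0) (b := 1) (c := 1) (cn := .pnn) (n1 := ndF0q0) (n2 := ndF1q1) (pc := pcF1) (cut := Cut.none) (xt := Ext.none) (P1 := 0) (W1 := 536870912) (P2 := 536870912) (W2 := 536870912) (P3 := 33554432) (W3 := 16777216)
    rfl rfl rfl k0_mm_011

noncomputable def f_mm_012 : ℕ → ℕ → ℕ → ℕ → Bool := onCell 0 536870912 536870912 536870912 33554432 16777216
    (rowFK 0 true false false .pnp 0 1 2 (qsf 0 536870912 536870912 536870912 2) ndF0q0 ndF1q1 pcF2 Cut.none Ext.none)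

def k0_mm_012 : ∃ t, chk3 f_mm_012 t 1 1 1 = true :=
  ⟨(l 4), by decide +kernel⟩

theorem c_mm_012 : CertF 0 536870912 536870912 536870912 33554432 16777216 true false false .pnp 0 1 2
    ndF0q0 ndF1q1 pcF2 Cut.none Ext.none :=
  certFK0 (fam := true) (s1 := false) (s2 := false) (a := 0) (b := 1) (c := 2) (cn := .pnp) (n1 := ndF0q0) (n2 := ndF1q1) (pc := pcF2) (cut := Cut.none) (xt := Ext.none) (P1 := 0) (W1 := 536870912) (P2 := 536870912) (W2 := 536870912) (P3 := 33554432) (W3 := 16777216)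
    rfl rfl rfl k0_mm_012

noncomputable def f_mm_022_a : ℕ → ℕ → ℕ → ℕ → Bool := onCell 0 536870912 0 536870912 33554432 16777216
    (rowFK 0 true false false .pp 0 2 2 (qsf 0 536870912 0 536870912 2) ndF0q0 ndF1q2a pcF2 Cut.none Ext.none)

def k0_mm_022_a : ∃ t, chk3 f_mm_022_a t 1 1 1 = true :=
  ⟨(l 5), by decide +kernel⟩

theorem c_mm_022_a : CertF 0 536870912 0 536870912 33554432 16777216 true false false .pp 0 2 2
    ndF0q0 ndF1q2a pcF2 Cut.none Ext.none :=
  certFK0 (fam := true) (s1 := false) (s2 := false) (a := 0) (b := 2) (c := 2) (cn := .pp) (n1 := ndF0q0) (n2 := ndF1q2a) (pc := pcF2) (cut := Cut.none) (xt := Ext.none) (P1 := 0) (W1 := 536870912) (P2 := 0) (W2 := 536870912) (P3 := 33554432) (W3 := 16777216)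
    rfl rfl rfl k0_mm_022_a

noncomputable def f_mm_022_b : ℕ → ℕ → ℕ → ℕ → Bool := onCell 0 536870912 1239849684 370763052 33554432 16777216
    (rowFK 0 true false false .pp 0 2 2 (qsf 0 536870912 1239849684 370763052 2) ndF0q0 ndF1q2b pcF2 Cut.none Ext.none)

def k0_mm_022_b : ∃ t, chk3 f_mm_022_b t 1 1 1 = true :=
  ⟨(l 5), by decide +kernel⟩

theorem c_mm_022_b : CertF 0 536870912 1239849684 370763052 33554432 16777216 true false false .pp 0 2 2
    ndF0q0 ndF1q2b pcF2 Cut.none Ext.none :=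
  certFK0 (fam := true) (s1 := false) (s2 := false) (a := 0) (b := 2) (c := 2) (cn := .pp) (n1 := ndF0q0) (n2 := ndF1q2b) (pc := pcF2) (cut := Cut.none) (xt := Ext.none) (P1 := 0) (W1 := 536870912) (P2 := 1239849684) (W2 := 370763052) (P3 := 33554432) (W3 := 16777216)
    rfl rfl rfl k0_mm_022_b

noncomputable def f_mm_023_a : ℕ → ℕ → ℕ → ℕ → Bool := onCell 0 536870912 0 536870912 33554432 16777216
    (rowFK 0 true false false .up 0 2 3 (qsf 0 536870912 0 536870912 3) ndF0q0 ndF1q2a pcF3 Cut.none Ext.none)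

def k0_mm_023_a : ∃ t, chk3 f_mm_023_a t 1 1 1 = true :=
  ⟨(l 5), by decide +kernel⟩

theorem c_mm_023_a : CertF 0 536870912 0 536870912 33554432 16777216 true false false .up 0 2 3
    ndF0q0 ndF1q2a pcF3 Cut.none Ext.none :=
  certFK0 (fam := true) (s1 := false) (s2 := false) (a := 0) (b := 2) (c := 3) (cn := .up) (n1 := ndF0q0) (n2 := ndF1q2a) (pc := pcF3) (cut := Cut.none) (xt := Ext.none) (P1 := 0) (W1 := 536870912) (P2 := 0) (W2 := 536870912) (P3 := 33554432) (W3 := 16777216)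
    rfl rfl rfl k0_mm_023_a

noncomputable def f_mm_023_b : ℕ → ℕ → ℕ → ℕ → Bool := onCell 0 536870912 1239849684 370763052 33554432 16777216
    (rowFK 0 true false false .up 0 2 3 (qsf 0 536870912 1239849684 370763052 3) ndF0q0 ndF1q2b pcF3 Cut.none Ext.none)

def k0_mm_023_b : ∃ t, chk3 f_mm_023_b t 1 1 1 = true :=
  ⟨(l 5), by decide +kernel⟩

theorem c_mm_023_b : CertF 0 536870912 1239849684 370763052 33554432 16777216 true false false .up 0 2 3
    ndF0q0 ndF1q2b pcF3 Cut.none Ext.none :=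
  certFK0 (fam := true) (s1 := false) (s2 := false) (a := 0) (b := 2) (c := 3) (cn := .up) (n1 := ndF0q0) (n2 := ndF1q2b) (pc := pcF3) (cut := Cut.none) (xt := Ext.none) (P1 := 0) (W1 := 536870912) (P2 := 1239849684) (W2 := 370763052) (P3 := 33554432) (W3 := 16777216)
    rfl rfl rfl k0_mm_023_b

noncomputable def f_mm_033 : ℕ → ℕ → ℕ → ℕ → Bool := onCell 0 536870912 1610612736 536870912 33554432 16777216
    (rowFK 0 true false false .pnn 0 3 3 (qsf 0 536870912 1610612736 536870912 3) ndF0q0 ndF1q3 pcF3 Cut.none Ext.none)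

def k0_mm_033 : ∃ t, chk3 f_mm_033 t 1 1 1 = true :=
  ⟨(l 5), by decide +kernel⟩

theorem c_mm_033 : CertF 0 536870912 1610612736 536870912 33554432 16777216 true false false .pnn 0 3 3
    ndF0q0 ndF1q3 pcF3 Cut.none Ext.none :=
  certFK0 (fam := true) (s1 := false) (s2 := false) (a := 0) (b := 3) (c := 3) (cn := .pnn) (n1 := ndF0q0) (n2 := ndF1q3) (pc := pcF3) (cut := Cut.none) (xt := Ext.none) (P1 := 0) (W1 := 536870912) (P2 := 1610612736) (W2 := 536870912) (P3 := 33554432) (W3 := 16777216)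
    rfl rfl rfl k0_mm_033

noncomputable def cut_mm_101 : Cut := Cut.of [[⟨0, 1, 0, 33554432⟩, ⟨1, 0, 0, 33554432⟩, ⟨2, 1, 0, 33554432⟩]]

noncomputable def f_mm_101 : ℕ → ℕ → ℕ → ℕ → Bool := onCell 536870912 536870912 0 536870912 33554432 16777216
    (rowFK 0 true false false .npn 1 0 1 (qsf 536870912 536870912 0 536870912 1) ndF0q1 ndF1q0 pcF1 cut_mm_101 Ext.none)

def k0_mm_101 : ∃ t, chk3 f_mm_101 t 1 1 1 = true :=
  ⟨(a (l 4) (b (a (l 4) (b (a (l 4) (b (a (l 4) (a (l 4) (b (b (l 6) (l 4)) (l 2)))) (l 4))) (l 4))) (l 4))), by decide +kernel⟩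

theorem c_mm_101 : CertF 536870912 536870912 0 536870912 33554432 16777216 true false false .npn 1 0 1
    ndF0q1 ndF1q0 pcF1 cut_mm_101 Ext.none :=
  certFK0 (fam := true) (s1 := false) (s2 := false) (a := 1) (b := 0) (c := 1) (cn := .npn) (n1 := ndF0q1) (n2 := ndF1q0) (pc := pcF1) (cut := cut_mm_101) (xt := Ext.none) (P1 := 536870912) (W1 := 536870912) (P2 := 0) (W2 := 536870912) (P3 := 33554432) (W3 := 16777216)
    rfl rfl rfl k0_mm_101

noncomputable def cut_mm_102 : Cut := Cut.of [[⟨0, 1, 0, 33554432⟩, ⟨1, 0, 0, 33554432⟩, ⟨2, 1, 0, 33554432⟩]]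

noncomputable def f_mm_102 : ℕ → ℕ → ℕ → ℕ → Bool := onCell 536870912 536870912 0 536870912 33554432 16777216
    (rowFK 0 true false false .npp 1 0 2 (qsf 536870912 536870912 0 536870912 2) ndF0q1 ndF1q0 pcF2 cut_mm_102 Ext.none)

def k0_mm_102 : ∃ t, chk3 f_mm_102 t 1 1 1 = true :=
  ⟨(a (l 4) (b (a (l 4) (b (a (l 4) (b (a (l 4) (a (l 4) (b (b (l 6) (l 4)) (l 4)))) (l 4))) (l 4))) (l 4))), by decide +kernel⟩

theorem c_mm_102 : CertF 536870912 536870912 0 536870912 33554432 16777216 true false false .npp 1 0 2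
    ndF0q1 ndF1q0 pcF2 cut_mm_102 Ext.none :=
  certFK0 (fam := true) (s1 := false) (s2 := false) (a := 1) (b := 0) (c := 2) (cn := .npp) (n1 := ndF0q1) (n2 := ndF1q0) (pc := pcF2) (cut := cut_mm_102) (xt := Ext.none) (P1 := 536870912) (W1 := 536870912) (P2 := 0) (W2 := 536870912) (P3 := 33554432) (W3 := 16777216)
    rfl rfl rfl k0_mm_102

noncomputable def f_mm_112 : ℕ → ℕ → ℕ → ℕ → Bool := onCell 536870912 536870912 536870912 536870912 33554432 16777216
    (rowFK 0 true false false .dn 1 1 2 (qsf 536870912 536870912 536870912 536870912 2) ndF0q1 ndF1q1 pcF2 Cut.none Ext.none)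

def k0_mm_112 : ∃ t, chk3 f_mm_112 t 1 1 1 = true :=
  ⟨(l 4), by decide +kernel⟩

theorem c_mm_112 : CertF 536870912 536870912 536870912 536870912 33554432 16777216 true false false .dn 1 1 2
    ndF0q1 ndF1q1 pcF2 Cut.none Ext.none :=
  certFK0 (fam := true) (s1 := false) (s2 := false) (a := 1) (b := 1) (c := 2) (cn := .dn) (n1 := ndF0q1) (n2 := ndF1q1) (pc := pcF2) (cut := Cut.none) (xt := Ext.none) (P1 := 536870912) (W1 := 536870912) (P2 := 536870912) (W2 := 536870912) (P3 := 33554432) (W3 := 16777216)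
    rfl rfl rfl k0_mm_112

noncomputable def f_mm_113 : ℕ → ℕ → ℕ → ℕ → Bool := onCell 536870912 536870912 536870912 536870912 33554432 16777216
    (rowFK 0 true false false .nn 1 1 3 (qsf 536870912 536870912 536870912 536870912 3) ndF0q1 ndF1q1 pcF3 Cut.none Ext.none)

def k0_mm_113 : ∃ t, chk3 f_mm_113 t 1 1 1 = true :=
  ⟨(l 4), by decide +kernel⟩

theorem c_mm_113 : CertF 536870912 536870912 536870912 536870912 33554432 16777216 true false false .nn 1 1 3
    ndF0q1 ndF1q1 pcF3 Cut.none Ext.none :=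
  certFK0 (fam := true) (s1 := false) (s2 := false) (a := 1) (b := 1) (c := 3) (cn := .nn) (n1 := ndF0q1) (n2 := ndF1q1) (pc := pcF3) (cut := Cut.none) (xt := Ext.none) (P1 := 536870912) (W1 := 536870912) (P2 := 536870912) (W2 := 536870912) (P3 := 33554432) (W3 := 16777216)
    rfl rfl rfl k0_mm_113

noncomputable def f_mm_123_a : ℕ → ℕ → ℕ → ℕ → Bool := onCell 536870912 536870912 0 536870912 33554432 16777216
    (rowFK 0 true false false .npn 1 2 3 (qsf 536870912 536870912 0 536870912 3) ndF0q1 ndF1q2a pcF3 Cut.none Ext.none)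

def k0_mm_123_a : ∃ t, chk3 f_mm_123_a t 1 1 1 = true :=
  ⟨(l 4), by decide +kernel⟩

theorem c_mm_123_a : CertF 536870912 536870912 0 536870912 33554432 16777216 true false false .npn 1 2 3
    ndF0q1 ndF1q2a pcF3 Cut.none Ext.none :=
  certFK0 (fam := true) (s1 := false) (s2 := false) (a := 1) (b := 2) (c := 3) (cn := .npn) (n1 := ndF0q1) (n2 := ndF1q2a) (pc := pcF3) (cut := Cut.none) (xt := Ext.none) (P1 := 536870912) (W1 := 536870912) (P2 := 0) (W2 := 536870912) (P3 := 33554432) (W3 := 16777216)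
    rfl rfl rfl k0_mm_123_a

noncomputable def f_mm_123_b : ℕ → ℕ → ℕ → ℕ → Bool := onCell 536870912 536870912 1239849684 370763052 33554432 16777216
    (rowFK 0 true false false .npn 1 2 3 (qsf 536870912 536870912 1239849684 370763052 3) ndF0q1 ndF1q2b pcF3 Cut.none Ext.none)

def k0_mm_123_b : ∃ t, chk3 f_mm_123_b t 1 1 1 = true :=
  ⟨(l 4), by decide +kernel⟩

theorem c_mm_123_b : CertF 536870912 536870912 1239849684 370763052 33554432 16777216 true false false .npn 1 2 3
    ndF0q1 ndF1q2b pcF3 Cut.none Ext.none :=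
  certFK0 (fam := true) (s1 := false) (s2 := false) (a := 1) (b := 2) (c := 3) (cn := .npn) (n1 := ndF0q1) (n2 := ndF1q2b) (pc := pcF3) (cut := Cut.none) (xt := Ext.none) (P1 := 536870912) (W1 := 536870912) (P2 := 1239849684) (W2 := 370763052) (P3 := 33554432) (W3 := 16777216)
    rfl rfl rfl k0_mm_123_b

noncomputable def f_mm_133 : ℕ → ℕ → ℕ → ℕ → Bool := onCell 536870912 536870912 1610612736 536870912 33554432 16777216
    (rowFK 0 true false false .dn 1 3 3 (qsf 536870912 536870912 1610612736 536870912 3) ndF0q1 ndF1q3 pcF3 Cut.none Ext.none)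

def k0_mm_133 : ∃ t, chk3 f_mm_133 t 1 1 1 = true :=
  ⟨(l 4), by decide +kernel⟩

theorem c_mm_133 : CertF 536870912 536870912 1610612736 536870912 33554432 16777216 true false false .dn 1 3 3
    ndF0q1 ndF1q3 pcF3 Cut.none Ext.none :=
  certFK0 (fam := true) (s1 := false) (s2 := false) (a := 1) (b := 3) (c := 3) (cn := .dn) (n1 := ndF0q1) (n2 := ndF1q3) (pc := pcF3) (cut := Cut.none) (xt := Ext.none) (P1 := 536870912) (W1 := 536870912) (P2 := 1610612736) (W2 := 536870912) (P3 := 33554432) (W3 := 16777216)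
    rfl rfl rfl k0_mm_133

noncomputable def cut_mm_202 : Cut := Cut.of [[⟨0, 1, 0, 33554432⟩, ⟨1, 0, 0, 33554432⟩, ⟨2, 1, 0, 33554432⟩]]

noncomputable def f_mm_202 : ℕ → ℕ → ℕ → ℕ → Bool := onCell 0 536870912 0 536870912 33554432 16777216
    (rowFK 0 true false false .pp 2 0 2 (qsf 0 536870912 0 536870912 2) ndF0q2 ndF1q0 pcF2 cut_mm_202 Ext.none)

def k0_mm_202 : ∃ t, chk3 f_mm_202 t 1 1 1 = true :=
  ⟨(b (a (b (b (a (l 19137720) (b (l 19314960) (l 18885912))) (a (l 18636704) (l 18475416))) (a (l 18191024) (b (l 18117448) (l 17935408)))) (b (a (b (a (b (l 19006664) (l 18617560)) (b (b (a (l 18869096) (b (l 18660168) (l 18576160))) (l 18544392)) (l 18236384))) (a (l 18163608) (b (l 17893136) (l 17637504)))) (b (a (b (a (b (b (a (l 18382664) (b (c (l 18364168) (l 17802936)) (l 18135400))) (l 18233352)) (l 18119448)) (b (b (a (b (c (a (l 18125160) (l 17927656)) (b (a (l 17541568) (b (l 17073120) (l 17312320))) (l 17495600))) (l 17800456)) (b (b (b (a (c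 (l 17532624) (l 16733928)) (a (c (l 17256632) (l 16742704)) (l 16745352))) (c (a (l 17673848) (l 17331240)) (l 16745512))) (a (l 17266280) (l 17028672))) (a (l 17516744) (l 17267128)))) (a (l 17865648) (l 17304920))) (b (l 17719000) (l 17670128)))) (a (l 17933080) (b (l 17550896) (l 17373936)))) (a (b (b (b (a (b (b (a (b (a (l 16747240) (l 16749240)) (l 16749256)) (b (b (a (l 16750936) (l 16752816)) (l 16752360)) (l 16753096))) (l 16752632)) (l 16755192)) (a (b (b (b (l 6) (l 16756880)) (l 16758336)) (l 16761344)) (b (l 6) (l 16765192)))) (a (b (l 17034048) (l 17172720)) (b (l 16767400) (l 16771784)))) (a (b (l 17269200) (l 17284400)) (l 16878120))) (b (l 17033616) (l 4))) (b (b (a (b (l 6) (a (b (l 16773096) (l 16778896)) (l 6))) (l 6)) (a (b (l 16827304) (l 4)) (l 4))) (l 4)))) (a (a (l 17585096) (l 4)) (l 4)))) (a (b (a (l 17795088) (l 4)) (l 4)) (l 4)))) (a (b (a (l 18006392) (b (l 17862880) (l 4))) (l 4)) (l 4))), by decide +kernel⟩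

theorem c_mm_202 : CertF 0 536870912 0 536870912 33554432 16777216 true false false .pp 2 0 2
    ndF0q2 ndF1q0 pcF2 cut_mm_202 Ext.none :=
  certFK0 (fam := true) (s1 := false) (s2 := false) (a := 2) (b := 0) (c := 2) (cn := .pp) (n1 := ndF0q2) (n2 := ndF1q0) (pc := pcF2) (cut := cut_mm_202) (xt := Ext.none) (P1 := 0) (W1 := 536870912) (P2 := 0) (W2 := 536870912) (P3 := 33554432) (W3 := 16777216)
    rfl rfl rfl k0_mm_202

noncomputable def f_mm_203 : ℕ → ℕ → ℕ → ℕ → Bool := onCell 0 536870912 1610612736 536870912 33554432 16777216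
    (rowFK 1 true false false .up 2 0 3 (qsf 0 536870912 0 536870912 3) ndF0q2 ndF1q0 pcF3 Cut.none Ext.none)

def k0_mm_203 : ∃ t, chk3 f_mm_203 t 1 1 1 = true :=
  ⟨(b (a (b (a (l 43187125511) (l 4)) (l 4)) (l 4)) (l 2)), by decide +kernel⟩

theorem c_mm_203 : CertF 0 536870912 0 536870912 33554432 16777216 true false false .up 2 0 3
    ndF0q2 ndF1q0 pcF3 Cut.none Ext.none :=
  certFK1 (fam := true) (s1 := false) (s2 := false) (a := 2) (b := 0) (c := 3) (cn := .up) (n1 := ndF0q2) (n2 := ndF1q0) (pc := pcF3) (cut := Cut.none) (xt := Ext.none) (P1 := 0) (W1 := 536870912) (P2 := 0) (W2 := 536870912) (P3 := 33554432) (W3 := 16777216)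
    rfl rfl rfl (fun _ => rfl) k0_mm_203

noncomputable def f_mm_213 : ℕ → ℕ → ℕ → ℕ → Bool := onCell 0 536870912 536870912 536870912 33554432 16777216
    (rowFK 0 true false false .pnn 2 1 3 (qsf 0 536870912 536870912 536870912 3) ndF0q2 ndF1q1 pcF3 Cut.none Ext.none)

def k0_mm_213 : ∃ t, chk3 f_mm_213 t 1 1 1 = true :=
  ⟨(l 4), by decide +kernel⟩

theorem c_mm_213 : CertF 0 536870912 536870912 536870912 33554432 16777216 true false false .pnn 2 1 3
    ndF0q2 ndF1q1 pcF3 Cut.none Ext.none :=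
  certFK0 (fam := true) (s1 := false) (s2 := false) (a := 2) (b := 1) (c := 3) (cn := .pnn) (n1 := ndF0q2) (n2 := ndF1q1) (pc := pcF3) (cut := Cut.none) (xt := Ext.none) (P1 := 0) (W1 := 536870912) (P2 := 536870912) (W2 := 536870912) (P3 := 33554432) (W3 := 16777216)
    rfl rfl rfl k0_mm_213

end Pool.Agent.Strip051.G.I1_32_3_64.Tab.C.FA01

namespace Pool.Agent.Strip051.G.I1_32_3_64.Tab.C.FA02

open Pool.Agent.Strip051.PB Pool.Agent.Strip051.PB.T
open Pool.Agent.Strip051.G.I1_32_3_64.Tab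

noncomputable def f_pp_001 : ℕ → ℕ → ℕ → ℕ → Bool := onCell 0 536870912 0 536870912 33554432 16777216
    (rowFK 0 true true true .up 0 0 1 (qsf 0 536870912 0 536870912 1) ndF0q0 ndF2q0 pcF1 Cut.none Ext.none)

def k0_pp_001 : ∃ t, chk3 f_pp_001 t 1 1 1 = true :=
  ⟨(l 4), by decide +kernel⟩

theorem c_pp_001 : CertF 0 536870912 0 536870912 33554432 16777216 true true true .up 0 0 1
    ndF0q0 ndF2q0 pcF1 Cut.none Ext.none :=
  certFK0 (fam := true) (s1 := true) (s2 := true) (a := 0) (b := 0) (c := 1) (cn := .up) (n1 := ndF0q0) (n2 := ndF2q0) (pc := pcF1) (cut := Cut.none) (xt := Ext.none) (P1 := 0) (W1 := 536870912) (P2 := 0) (W2 := 536870912) (P3 := 33554432) (W3 := 16777216)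
    rfl rfl rfl k0_pp_001

noncomputable def f_pp_011 : ℕ → ℕ → ℕ → ℕ → Bool := onCell 0 536870912 536870912 536870912 33554432 16777216
    (rowFK 0 true true true .pnn 0 1 1 (qsf 0 536870912 536870912 536870912 1) ndF0q0 ndF2q1 pcF1 Cut.none Ext.none)

def k0_pp_011 : ∃ t, chk3 f_pp_011 t 1 1 1 = true :=
  ⟨(l 4), by decide +kernel⟩

theorem c_pp_011 : CertF 0 536870912 536870912 536870912 33554432 16777216 true true true .pnn 0 1 1
    ndF0q0 ndF2q1 pcF1 Cut.none Ext.none :=
  certFK0 (fam := true) (s1 := true) (s2 := true) (a := 0) (b := 1) (c := 1) (cn := .pnn) (n1 := ndF0q0) (n2 := ndF2q1) (pc := pcF1) (cut := Cut.none) (xt := Ext.none) (P1 := 0) (W1 := 536870912) (P2 := 536870912) (W2 := 536870912) (P3 := 33554432) (W3 := 16777216)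
    rfl rfl rfl k0_pp_011

noncomputable def f_pp_012 : ℕ → ℕ → ℕ → ℕ → Bool := onCell 0 536870912 536870912 536870912 33554432 16777216
    (rowFK 0 true true true .pnp 0 1 2 (qsf 0 536870912 536870912 536870912 2) ndF0q0 ndF2q1 pcF2 Cut.none Ext.none)

def k0_pp_012 : ∃ t, chk3 f_pp_012 t 1 1 1 = true :=
  ⟨(l 4), by decide +kernel⟩

theorem c_pp_012 : CertF 0 536870912 536870912 536870912 33554432 16777216 true true true .pnp 0 1 2
    ndF0q0 ndF2q1 pcF2 Cut.none Ext.none :=
  certFK0 (fam := true) (s1 := true) (s2 := true) (a := 0) (b := 1) (c := 2) (cn := .pnp) (n1 := ndF0q0) (n2 := ndF2q1) (pc := pcF2) (cut := Cut.none) (xt := Ext.none) (P1 := 0) (W1 := 536870912) (P2 := 536870912) (W2 := 536870912) (P3 := 33554432) (W3 := 16777216)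
    rfl rfl rfl k0_pp_012

noncomputable def cut_pp_022_a : Cut := Cut.of [[⟨0, 0, 0, 33554432⟩, ⟨1, 1, 0, 33554432⟩, ⟨2, 1, 0, 33554432⟩]]

noncomputable def f_pp_022_a : ℕ → ℕ → ℕ → ℕ → Bool := onCell 0 536870912 0 536870912 33554432 16777216
    (rowFK 0 true true true .pp 0 2 2 (qsf 0 536870912 0 536870912 2) ndF0q0 ndF2q2a pcF2 cut_pp_022_a Ext.none)

def k0_pp_022_a : ∃ t, chk3 f_pp_022_a t 1 1 1 = true :=
  ⟨(a (b (l 4) (a (b (l 4) (b (l 4) (b (l 4) (b (l 4) (a (a (a (l 6) (l 4)) (l 4)) (l 4)))))) (l 4))) (l 4)), by decide +kernel⟩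

theorem c_pp_022_a : CertF 0 536870912 0 536870912 33554432 16777216 true true true .pp 0 2 2
    ndF0q0 ndF2q2a pcF2 cut_pp_022_a Ext.none :=
  certFK0 (fam := true) (s1 := true) (s2 := true) (a := 0) (b := 2) (c := 2) (cn := .pp) (n1 := ndF0q0) (n2 := ndF2q2a) (pc := pcF2) (cut := cut_pp_022_a) (xt := Ext.none) (P1 := 0) (W1 := 536870912) (P2 := 0) (W2 := 536870912) (P3 := 33554432) (W3 := 16777216)
    rfl rfl rfl k0_pp_022_a

noncomputable def cut_pp_022_b : Cut := Cut.of [[⟨0, 0, 0, 33554432⟩, ⟨1, 1, 0, 33554432⟩, ⟨2, 1, 0, 33554432⟩]]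

noncomputable def f_pp_022_b : ℕ → ℕ → ℕ → ℕ → Bool := onCell 0 536870912 1239849684 370763052 33554432 16777216
    (rowFK 0 true true true .pp 0 2 2 (qsf 0 536870912 1239849684 370763052 2) ndF0q0 ndF2q2b pcF2 cut_pp_022_b Ext.none)

def k0_pp_022_b : ∃ t, chk3 f_pp_022_b t 1 1 1 = true :=
  ⟨(l 4), by decide +kernel⟩

theorem c_pp_022_b : CertF 0 536870912 1239849684 370763052 33554432 16777216 true true true .pp 0 2 2
    ndF0q0 ndF2q2b pcF2 cut_pp_022_b Ext.none :=
  certFK0 (fam := true) (s1 := true) (s2 := true) (a := 0) (b := 2) (c := 2) (cn := .pp) (n1 := ndF0q0) (n2 := ndF2q2b) (pc := pcF2) (cut := cut_pp_022_b) (xt := Ext.none) (P1 := 0) (W1 := 536870912) (P2 := 1239849684) (W2 := 370763052) (P3 := 33554432) (W3 := 16777216)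
    rfl rfl rfl k0_pp_022_b

noncomputable def f_pp_023_a : ℕ → ℕ → ℕ → ℕ → Bool := onCell 1610612736 536870912 0 536870912 33554432 16777216
    (rowFK 2 true true true .up 0 2 3 (qsf 0 536870912 0 536870912 3) ndF0q0 ndF2q2a pcF3 Cut.none Ext.none)

def k0_pp_023_a : ∃ t, chk3 f_pp_023_a t 1 1 1 = true :=
  ⟨(l 4), by decide +kernel⟩

theorem c_pp_023_a : CertF 0 536870912 0 536870912 33554432 16777216 true true true .up 0 2 3
    ndF0q0 ndF2q2a pcF3 Cut.none Ext.none :=
  certFK2 (fam := true) (s1 := true) (s2 := true) (a := 0) (b := 2) (c := 3) (cn := .up) (n1 := ndF0q0) (n2 := ndF2q2a) (pc := pcF3) (cut := Cut.none) (xt := Ext.none) (P1 := 0) (W1 := 536870912) (P2 := 0) (W2 := 536870912) (P3 := 33554432) (W3 := 16777216)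
    rfl rfl rfl (fun _ => rfl) k0_pp_023_a

noncomputable def f_pp_023_b : ℕ → ℕ → ℕ → ℕ → Bool := onCell 0 536870912 1239849684 370763052 33554432 16777216
    (rowFK 0 true true true .up 0 2 3 (qsf 0 536870912 1239849684 370763052 3) ndF0q0 ndF2q2b pcF3 Cut.none Ext.none)

def k0_pp_023_b : ∃ t, chk3 f_pp_023_b t 1 1 1 = true :=
  ⟨(l 4), by decide +kernel⟩

theorem c_pp_023_b : CertF 0 536870912 1239849684 370763052 33554432 16777216 true true true .up 0 2 3
    ndF0q0 ndF2q2b pcF3 Cut.none Ext.none :=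
  certFK0 (fam := true) (s1 := true) (s2 := true) (a := 0) (b := 2) (c := 3) (cn := .up) (n1 := ndF0q0) (n2 := ndF2q2b) (pc := pcF3) (cut := Cut.none) (xt := Ext.none) (P1 := 0) (W1 := 536870912) (P2 := 1239849684) (W2 := 370763052) (P3 := 33554432) (W3 := 16777216)
    rfl rfl rfl k0_pp_023_b

noncomputable def f_pp_033 : ℕ → ℕ → ℕ → ℕ → Bool := onCell 0 536870912 1610612736 536870912 33554432 16777216
    (rowFK 0 true true true .pnn 0 3 3 (qsf 0 536870912 1610612736 536870912 3) ndF0q0 ndF2q3 pcF3 Cut.none Ext.none)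

def k0_pp_033 : ∃ t, chk3 f_pp_033 t 1 1 1 = true :=
  ⟨(l 4), by decide +kernel⟩

theorem c_pp_033 : CertF 0 536870912 1610612736 536870912 33554432 16777216 true true true .pnn 0 3 3
    ndF0q0 ndF2q3 pcF3 Cut.none Ext.none :=
  certFK0 (fam := true) (s1 := true) (s2 := true) (a := 0) (b := 3) (c := 3) (cn := .pnn) (n1 := ndF0q0) (n2 := ndF2q3) (pc := pcF3) (cut := Cut.none) (xt := Ext.none) (P1 := 0) (W1 := 536870912) (P2 := 1610612736) (W2 := 536870912) (P3 := 33554432) (W3 := 16777216)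
    rfl rfl rfl k0_pp_033

noncomputable def f_pp_101 : ℕ → ℕ → ℕ → ℕ → Bool := onCell 536870912 536870912 0 536870912 33554432 16777216
    (rowFK 0 true true true .npn 1 0 1 (qsf 536870912 536870912 0 536870912 1) ndF0q1 ndF2q0 pcF1 Cut.none Ext.none)

def k0_pp_101 : ∃ t, chk3 f_pp_101 t 1 1 1 = true :=
  ⟨(l 5), by decide +kernel⟩

theorem c_pp_101 : CertF 536870912 536870912 0 536870912 33554432 16777216 true true true .npn 1 0 1
    ndF0q1 ndF2q0 pcF1 Cut.none Ext.none :=
  certFK0 (fam := true) (s1 := true) (s2 := true) (a := 1) (b := 0) (c := 1) (cn := .npn) (n1 := ndF0q1) (n2 := ndF2q0) (pc := pcF1) (cut := Cut.none) (xt := Ext.none) (P1 := 536870912) (W1 := 536870912) (P2 := 0) (W2 := 536870912) (P3 := 33554432) (W3 := 16777216)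
    rfl rfl rfl k0_pp_101

noncomputable def f_pp_102 : ℕ → ℕ → ℕ → ℕ → Bool := onCell 536870912 536870912 0 536870912 33554432 16777216
    (rowFK 0 true true true .npp 1 0 2 (qsf 536870912 536870912 0 536870912 2) ndF0q1 ndF2q0 pcF2 Cut.none Ext.none)

def k0_pp_102 : ∃ t, chk3 f_pp_102 t 1 1 1 = true :=
  ⟨(l 5), by decide +kernel⟩

theorem c_pp_102 : CertF 536870912 536870912 0 536870912 33554432 16777216 true true true .npp 1 0 2
    ndF0q1 ndF2q0 pcF2 Cut.none Ext.none :=
  certFK0 (fam := true) (s1 := true) (s2 := true) (a := 1) (b := 0) (c := 2) (cn := .npp) (n1 := ndF0q1) (n2 := ndF2q0) (pc := pcF2) (cut := Cut.none) (xt := Ext.none) (P1 := 536870912) (W1 := 536870912) (P2 := 0) (W2 := 536870912) (P3 := 33554432) (W3 := 16777216)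
    rfl rfl rfl k0_pp_102

noncomputable def f_pp_112 : ℕ → ℕ → ℕ → ℕ → Bool := onCell 536870912 536870912 536870912 536870912 33554432 16777216
    (rowFK 0 true true true .dn 1 1 2 (qsf 536870912 536870912 536870912 536870912 2) ndF0q1 ndF2q1 pcF2 Cut.none Ext.none)

def k0_pp_112 : ∃ t, chk3 f_pp_112 t 1 1 1 = true :=
  ⟨(l 4), by decide +kernel⟩

theorem c_pp_112 : CertF 536870912 536870912 536870912 536870912 33554432 16777216 true true true .dn 1 1 2
    ndF0q1 ndF2q1 pcF2 Cut.none Ext.none :=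
  certFK0 (fam := true) (s1 := true) (s2 := true) (a := 1) (b := 1) (c := 2) (cn := .dn) (n1 := ndF0q1) (n2 := ndF2q1) (pc := pcF2) (cut := Cut.none) (xt := Ext.none) (P1 := 536870912) (W1 := 536870912) (P2 := 536870912) (W2 := 536870912) (P3 := 33554432) (W3 := 16777216)
    rfl rfl rfl k0_pp_112

noncomputable def f_pp_113 : ℕ → ℕ → ℕ → ℕ → Bool := onCell 536870912 536870912 536870912 536870912 33554432 16777216
    (rowFK 0 true true true .nn 1 1 3 (qsf 536870912 536870912 536870912 536870912 3) ndF0q1 ndF2q1 pcF3 Cut.none Ext.none)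

def k0_pp_113 : ∃ t, chk3 f_pp_113 t 1 1 1 = true :=
  ⟨(l 4), by decide +kernel⟩

theorem c_pp_113 : CertF 536870912 536870912 536870912 536870912 33554432 16777216 true true true .nn 1 1 3
    ndF0q1 ndF2q1 pcF3 Cut.none Ext.none :=
  certFK0 (fam := true) (s1 := true) (s2 := true) (a := 1) (b := 1) (c := 3) (cn := .nn) (n1 := ndF0q1) (n2 := ndF2q1) (pc := pcF3) (cut := Cut.none) (xt := Ext.none) (P1 := 536870912) (W1 := 536870912) (P2 := 536870912) (W2 := 536870912) (P3 := 33554432) (W3 := 16777216)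
    rfl rfl rfl k0_pp_113

noncomputable def f_pp_123_a : ℕ → ℕ → ℕ → ℕ → Bool := onCell 536870912 536870912 0 536870912 33554432 16777216
    (rowFK 0 true true true .npn 1 2 3 (qsf 536870912 536870912 0 536870912 3) ndF0q1 ndF2q2a pcF3 Cut.none Ext.none)

def k0_pp_123_a : ∃ t, chk3 f_pp_123_a t 1 1 1 = true :=
  ⟨(l 4), by decide +kernel⟩

theorem c_pp_123_a : CertF 536870912 536870912 0 536870912 33554432 16777216 true true true .npn 1 2 3
    ndF0q1 ndF2q2a pcF3 Cut.none Ext.none :=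
  certFK0 (fam := true) (s1 := true) (s2 := true) (a := 1) (b := 2) (c := 3) (cn := .npn) (n1 := ndF0q1) (n2 := ndF2q2a) (pc := pcF3) (cut := Cut.none) (xt := Ext.none) (P1 := 536870912) (W1 := 536870912) (P2 := 0) (W2 := 536870912) (P3 := 33554432) (W3 := 16777216)
    rfl rfl rfl k0_pp_123_a

noncomputable def f_pp_123_b : ℕ → ℕ → ℕ → ℕ → Bool := onCell 536870912 536870912 1239849684 370763052 33554432 16777216
    (rowFK 0 true true true .npn 1 2 3 (qsf 536870912 536870912 1239849684 370763052 3) ndF0q1 ndF2q2b pcF3 Cut.none Ext.none)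

def k0_pp_123_b : ∃ t, chk3 f_pp_123_b t 1 1 1 = true :=
  ⟨(l 4), by decide +kernel⟩

theorem c_pp_123_b : CertF 536870912 536870912 1239849684 370763052 33554432 16777216 true true true .npn 1 2 3
    ndF0q1 ndF2q2b pcF3 Cut.none Ext.none :=
  certFK0 (fam := true) (s1 := true) (s2 := true) (a := 1) (b := 2) (c := 3) (cn := .npn) (n1 := ndF0q1) (n2 := ndF2q2b) (pc := pcF3) (cut := Cut.none) (xt := Ext.none) (P1 := 536870912) (W1 := 536870912) (P2 := 1239849684) (W2 := 370763052) (P3 := 33554432) (W3 := 16777216)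
    rfl rfl rfl k0_pp_123_b

noncomputable def f_pp_133 : ℕ → ℕ → ℕ → ℕ → Bool := onCell 536870912 536870912 1610612736 536870912 33554432 16777216
    (rowFK 0 true true true .dn 1 3 3 (qsf 536870912 536870912 1610612736 536870912 3) ndF0q1 ndF2q3 pcF3 Cut.none Ext.none)

def k0_pp_133 : ∃ t, chk3 f_pp_133 t 1 1 1 = true :=
  ⟨(l 4), by decide +kernel⟩

theorem c_pp_133 : CertF 536870912 536870912 1610612736 536870912 33554432 16777216 true true true .dn 1 3 3
    ndF0q1 ndF2q3 pcF3 Cut.none Ext.none :=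
  certFK0 (fam := true) (s1 := true) (s2 := true) (a := 1) (b := 3) (c := 3) (cn := .dn) (n1 := ndF0q1) (n2 := ndF2q3) (pc := pcF3) (cut := Cut.none) (xt := Ext.none) (P1 := 536870912) (W1 := 536870912) (P2 := 1610612736) (W2 := 536870912) (P3 := 33554432) (W3 := 16777216)
    rfl rfl rfl k0_pp_133

noncomputable def f_pp_202 : ℕ → ℕ → ℕ → ℕ → Bool := onCell 0 536870912 0 536870912 33554432 16777216
    (rowFK 0 true true true .pp 2 0 2 (qsf 0 536870912 0 536870912 2) ndF0q2 ndF2q0 pcF2 Cut.none Ext.none)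

def k0_pp_202 : ∃ t, chk3 f_pp_202 t 1 1 1 = true :=
  ⟨(l 5), by decide +kernel⟩

theorem c_pp_202 : CertF 0 536870912 0 536870912 33554432 16777216 true true true .pp 2 0 2
    ndF0q2 ndF2q0 pcF2 Cut.none Ext.none :=
  certFK0 (fam := true) (s1 := true) (s2 := true) (a := 2) (b := 0) (c := 2) (cn := .pp) (n1 := ndF0q2) (n2 := ndF2q0) (pc := pcF2) (cut := Cut.none) (xt := Ext.none) (P1 := 0) (W1 := 536870912) (P2 := 0) (W2 := 536870912) (P3 := 33554432) (W3 := 16777216)
    rfl rfl rfl k0_pp_202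

noncomputable def f_pp_203 : ℕ → ℕ → ℕ → ℕ → Bool := onCell 0 536870912 0 536870912 33554432 16777216
    (rowFK 0 true true true .up 2 0 3 (qsf 0 536870912 0 536870912 3) ndF0q2 ndF2q0 pcF3 Cut.none Ext.none)

def k0_pp_203 : ∃ t, chk3 f_pp_203 t 1 1 1 = true :=
  ⟨(l 5), by decide +kernel⟩

theorem c_pp_203 : CertF 0 536870912 0 536870912 33554432 16777216 true true true .up 2 0 3
    ndF0q2 ndF2q0 pcF3 Cut.none Ext.none :=
  certFK0 (fam := true) (s1 := true) (s2 := true) (a := 2) (b := 0) (c := 3) (cn := .up) (n1 := ndF0q2) (n2 := ndF2q0) (pc := pcF3) (cut := Cut.none) (xt := Ext.none) (P1 := 0) (W1 := 536870912) (P2 := 0) (W2 := 536870912) (P3 := 33554432) (W3 := 16777216)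
    rfl rfl rfl k0_pp_203

noncomputable def f_pp_213 : ℕ → ℕ → ℕ → ℕ → Bool := onCell 0 536870912 536870912 536870912 33554432 16777216
    (rowFK 0 true true true .pnn 2 1 3 (qsf 0 536870912 536870912 536870912 3) ndF0q2 ndF2q1 pcF3 Cut.none Ext.none)

def k0_pp_213 : ∃ t, chk3 f_pp_213 t 1 1 1 = true :=
  ⟨(l 4), by decide +kernel⟩

theorem c_pp_213 : CertF 0 536870912 536870912 536870912 33554432 16777216 true true true .pnn 2 1 3
    ndF0q2 ndF2q1 pcF3 Cut.none Ext.none :=
  certFK0 (fam := true) (s1 := true) (s2 := true) (a := 2) (b := 1) (c := 3) (cn := .pnn) (n1 := ndF0q2) (n2 := ndF2q1) (pc := pcF3) (cut := Cut.none) (xt := Ext.none) (P1 := 0) (W1 := 536870912) (P2 := 536870912) (W2 := 536870912) (P3 := 33554432) (W3 := 16777216)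
    rfl rfl rfl k0_pp_213

noncomputable def f_pm_001 : ℕ → ℕ → ℕ → ℕ → Bool := onCell 0 536870912 536870912 536870912 33554432 16777216
    (rowFK 1 true true false .up 0 0 1 (qsf 0 536870912 0 536870912 1) ndF0q0 ndF2q0 pcF1 Cut.none Ext.none)

def k0_pm_001 : ∃ t, chk3 f_pm_001 t 1 1 1 = true :=
  ⟨(b (l 3) (b (l 3) (a (l 2) (b (l 3) (a (l 2) (l 173580477575)))))), by decide +kernel⟩

theorem c_pm_001 : CertF 0 536870912 0 536870912 33554432 16777216 true true false .up 0 0 1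
    ndF0q0 ndF2q0 pcF1 Cut.none Ext.none :=
  certFK1 (fam := true) (s1 := true) (s2 := false) (a := 0) (b := 0) (c := 1) (cn := .up) (n1 := ndF0q0) (n2 := ndF2q0) (pc := pcF1) (cut := Cut.none) (xt := Ext.none) (P1 := 0) (W1 := 536870912) (P2 := 0) (W2 := 536870912) (P3 := 33554432) (W3 := 16777216)
    rfl rfl rfl (fun _ => rfl) k0_pm_001

noncomputable def cut_pm_011 : Cut := Cut.of [[⟨0, 0, 0, 33554432⟩, ⟨1, 1, 0, 33554432⟩, ⟨2, 1, 0, 33554432⟩], [⟨0, 0, 1, 25165824⟩, ⟨1, 1, 2, 25165824⟩, ⟨2, 1, 0, 16777216⟩, ⟨0, 0, 0, 67108864⟩, ⟨0, 1, 0, 1056964608⟩, ⟨1, 0, 0, 1056964608⟩, ⟨1, 1, 0, 67108864⟩]]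

noncomputable def f_pm_011 : ℕ → ℕ → ℕ → ℕ → Bool := onCell 0 536870912 536870912 536870912 33554432 16777216
    (rowFK 1 true true false .pnn 0 1 1 (qsf 0 536870912 536870912 536870912 1) ndF0q0 ndF2q1 pcF1 cut_pm_011 Ext.none)

def k0_pm_011 : ∃ t, chk3 f_pm_011 t 1 1 1 = true :=
  ⟨(b (l 3) (b (l 3) (b (l 3) (b (l 3) (a (b (l 3) (a (b (l 3) (b (l 3) (b (l 3) (a (b (l 3) (a (a (l 6) (a (l 6) (a (l 6) (l 14)))) (a (l 14) (c (a (l 17316688) (l 17553376)) (a (l 14) (l 17169088)))))) (a (a (l 17554216) (l 17803768)) (l 17994448)))))) (a (l 88753892279) (l 18368064)))) (a (l 160696273911) (l 18764568))))))), by decide +kernel⟩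

theorem c_pm_011 : CertF 0 536870912 536870912 536870912 33554432 16777216 true true false .pnn 0 1 1
    ndF0q0 ndF2q1 pcF1 cut_pm_011 Ext.none :=
  certFK1 (fam := true) (s1 := true) (s2 := false) (a := 0) (b := 1) (c := 1) (cn := .pnn) (n1 := ndF0q0) (n2 := ndF2q1) (pc := pcF1) (cut := cut_pm_011) (xt := Ext.none) (P1 := 0) (W1 := 536870912) (P2 := 536870912) (W2 := 536870912) (P3 := 33554432) (W3 := 16777216)
    rfl rfl rfl (fun _ => rfl) k0_pm_011

noncomputable def cut_pm_012 : Cut := Cut.of [[⟨0, 0, 0, 33554432⟩, ⟨1, 1, 0, 33554432⟩, ⟨2, 1, 0, 33554432⟩], [⟨0, 0, 1, 25165824⟩, ⟨1, 1, 2, 25165824⟩, ⟨2, 1, 0, 16777216⟩, ⟨0, 0, 0, 67108864⟩, ⟨0, 1, 0, 1056964608⟩, ⟨1, 0, 0, 1056964608⟩, ⟨1, 1, 0, 67108864⟩]]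

noncomputable def f_pm_012 : ℕ → ℕ → ℕ → ℕ → Bool := onCell 1073741824 536870912 536870912 536870912 33554432 16777216
    (rowFK 2 true true false .pnp 0 1 2 (qsf 0 536870912 536870912 536870912 2) ndF0q0 ndF2q1 pcF2 cut_pm_012 Ext.none)

def k0_pm_012 : ∃ t, chk3 f_pm_012 t 2 2 1 = true :=
  ⟨(a (a (a (a (a (b (l 18786520) (l 18831024)) (b (l 18827224) (l 18884392))) (b (l 18863704) (l 18957736))) (b (l 18939752) (l 19037592))) (b (l 18991576) (l 19343424))) (b (a (l 19110480) (l 2)) (a (l 19321480) (l 19363416)))), by decide +kernel⟩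

def k1_pm_012 : ∃ t, chk3 f_pm_012 t 4 6 1 = true :=
  ⟨(a (a (a (a (b (l 18573296) (l 18344880)) (b (l 18677040) (l 18487168))) (b (l 18815856) (l 18684792))) (b (l 19045456) (l 18997816))) (b (l 19345776) (l 19426376))), by decide +kernel⟩

def k2_pm_012 : ∃ t, chk3 f_pm_012 t 8 14 1 = true :=
  ⟨(a (a (a (b (l 18128248) (b (l 17957000) (a (b (l 17764704) (l 17569776)) (l 17853880)))) (b (l 18322472) (b (l 18192952) (l 18057816)))) (b (l 18582800) (b (l 18507440) (l 18424728)))) (b (l 18997696) (l 19002656))), by decide +kernel⟩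

def k3_pm_012 : ∃ t, chk3 f_pm_012 t 16 30 1 = true :=
  ⟨(a (a (b (b (a (c (l 17649056) (a (b (l 17379432) (l 14)) (l 17389312))) (l 17460768)) (a (c (a (b (l 17480024) (l 14)) (l 17523744)) (l 14)) (c (l 17641448) (b (l 17212168) (l 14))))) (a (l 14) (b (c (b (l 17317576) (l 14)) (l 14)) (l 14)))) (b (c (b (l 18055544) (l 17890208)) (b (l 17648616) (a (b (l 17546304) (l 17354256)) (l 17664448)))) (b (c (a (b (l 17706784) (l 17485328)) (l 17853408)) (a (l 14) (b (l 17414800) (a (l 14) (l 17368184))))) (a (l 14) (a (l 14) (a (l 14) (c (l 17586512) (b (l 17167608) (l 16860192))))))))) (b (a (b (l 18195112) (l 18001800)) (l 18422432)) (b (a (c (l 18136776) (a (b (l 17683240) (l 17560752)) (l 17809312))) (l 18270856)) (a (c (a (b (l 17895904) (l 17764480)) (l 18050256)) (a (a (b (l 17251224) (a (l 16965008) (l 17048160))) (b (l 17465456) (l 17077152))) (b (l 17624432) (a (l 17322672) (l 17522728))))) (c (l 18345984) (a (l 17551768) (l 17960048))))))), by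 decide +kernel⟩

def k4_pm_012 : ∃ t, chk3 f_pm_012 t 32 31 1 = true :=
  ⟨(a (b (b (b (l 14) (b (l 14) (a (l 6) (a (a (l 6) (l 16747952)) (c (l 14) (l 16743392)))))) (a (l 6) (a (l 6) (a (l 6) (b (c (l 14) (l 16740104)) (l 6)))))) (l 6)) (b (a (b (c (l 14) (b (l 14) (b (l 14) (a (l 16732960) (l 16730568))))) (b (c (l 14) (a (a (l 16734960) (l 16730536)) (a (b (l 16744064) (a (l 16745952) (l 16744488))) (b (a (l 16740712) (l 16739688)) (l 16743272))))) (a (l 6) (b (c (l 14) (l 16729568)) (l 6))))) (b (b (a (l 14) (a (l 14) (c (l 17196056) (l 16751120)))) (a (b (l 14) (a (c (l 14) (l 16735328)) (l 16733816))) (a (b (l 14) (l 16732304)) (a (l 16749968) (l 16749624))))) (b (a (c (l 14) (b (l 16727240) (l 16725136))) (b (a (l 16735440) (l 16733920)) (a (l 16738552) (l 16737000)))) (a (a (b (l 16744840) (l 6)) (b (l 16743232) (l 16735832))) (a (b (l 16741632) (l 16744688)) (b (l 16740056) (a (l 16722512) (l 16721712)))))))) (b (b (a (l 6) (a (l 6) (a (l 6) (a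 (l 6) (b (l 16724816) (l 6)))))) (l 6)) (l 6)))), by decide +kernel⟩

def k5_pm_012 : ∃ t, chk3 f_pm_012 t 33 62 1 = true :=
  ⟨(a (b (c (a (a (b (l 17320192) (c (l 17370720) (b (l 17156352) (l 16930728)))) (b (l 17642344) (c (l 17626824) (b (l 17349072) (l 17178064))))) (b (l 17854160) (a (l 17394792) (l 17745808)))) (a (a (b (b (l 16883192) (l 16809736)) (b (l 16725696) (l 16728784))) (b (c (l 17045136) (l 16765840)) (b (l 16834176) (l 16705408)))) (a (b (c (l 17347552) (l 16904584)) (b (l 16903520) (l 16838440))) (b (l 17101016) (c (l 17065216) (l 16758288)))))) (b (a (a (b (l 16731912) (l 16734944)) (b (c (c (l 17448248) (l 16945808)) (l 16708408)) (l 16732464))) (c (c (a (l 17444520) (l 17710664)) (a (b (l 17221464) (l 16961688)) (b (l 17405304) (l 17223648)))) (b (a (l 16706064) (l 16822512)) (a (l 16708984) (l 16706704))))) (a (a (a (b (l 16717640) (l 16720632)) (b (l 16716336) (l 16719304))) (b (l 16735416) (c (l 16742400) (l 16717240)))) (b (a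 (l 16712024) (c (c (l 17518216) (l 16957376)) (l 16709536))) (a (l 16735856) (l 16712528)))))) (a (b (c (b (l 18090904) (l 17945784)) (b (c (l 17663680) (l 17253040)) (c (l 17237528) (a (l 16929984) (l 17158432))))) (c (a (b (l 17450816) (c (l 17520960) (b (l 17247512) (l 16974824)))) (b (l 17830496) (c (l 17796920) (b (l 17464176) (l 17272096))))) (b (b (c (l 17118704) (l 16791248)) (l 16727736)) (b (l 16709152) (l 16711576))))) (b (c (l 18253112) (b (l 17757416) (c (l 17732424) (l 17300928)))) (c (b (l 18039360) (a (l 17509184) (l 17917336))) (b (c (l 17294912) (b (l 17186712) (l 16944544))) (a (a (l 16759768) (l 16788944)) (b (l 17060760) (l 16904032)))))))), by decide +kernel⟩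

def k6_pm_012 : ∃ t, chk3 f_pm_012 t 33 63 1 = true :=
  ⟨(a (b (b (a (b (a (a (l 16723720) (l 16722360)) (c (l 16723128) (l 16720240))) (a (a (l 6) (l 16725520)) (a (l 16724160) (l 16722824)))) (b (a (c (l 16720624) (l 16717672)) (l 16736384)) (a (l 16723512) (l 16721032)))) (a (a (l 6) (a (l 6) (b (l 16725976) (l 6)))) (b (a (a (l 16724640) (l 16723344)) (a (l 16722072) (l 16720832))) (b (a (l 16726344) (l 16723752)) (a (l 6) (l 16725304)))))) (b (a (l 6) (a (l 6) (b (b (l 16728064) (l 6)) (l 6)))) (l 6))) (b (b (a (a (b (l 16713104) (l 16716040)) (b (c (c (l 17590976) (l 16951136)) (l 16710656)) (l 16713792))) (c (c (b (l 17863224) (l 17620352)) (b (a (l 17276448) (l 17525680)) (a (l 16949256) (l 17281576)))) (b (l 16706520) (l 16712920)))) (a (a (b (l 16721640) (a (l 16722648) (l 16721432))) (b (l 16716712) (l 16722288))) (b (a (l 16714512) (c (c (l 17666712) (b (l 17165384) (l 17022664))) (l 16712072))) (a (l 16720032) (l 16715256))))) (a (b (b (a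 (a (l 16726696) (l 16725448)) (a (l 16722920) (l 16721728))) (b (a (l 16726360) (l 16723880)) (a (l 6) (l 16724928)))) (a (l 6) (a (l 6) (b (b (l 16725368) (l 6)) (l 6))))) (a (b (b (a (l 16720568) (l 16719440)) (b (l 16721512) (l 16722528))) (b (b (l 16724864) (a (l 16725184) (l 16723984))) (b (b (l 16726672) (l 6)) (l 6)))) (b (b (l 16720408) (a (l 16721616) (l 16720512))) (b (b (l 16721232) (a (l 16722808) (l 16721664))) (b (b (l 16722992) (c (l 16725160) (l 16723144))) (b (a (c (l 16724944) (l 16724256)) (l 16724736)) (a (l 6) (b (l 16724792) (c (c (l 16724608) (l 16724240)) (l 16724032)))))))))))), by decide +kernel⟩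

def k7_pm_012 : ∃ t, chk3 f_pm_012 t 17 30 1 = true :=
  ⟨(a (b (l 18780112) (a (b (l 18571456) (l 18460616)) (l 18803088))) (l 19163264)), by decide +kernel⟩

def k8_pm_012 : ∃ t, chk3 f_pm_012 t 17 62 1 = true :=
  ⟨(a (a (b (c (l 18560296) (a (l 17695304) (l 18116992))) (c (b (l 18409320) (l 18017592)) (a (b (c (l 17803168) (l 17351048)) (c (l 17333608) (b (l 17205600) (l 16933992)))) (b (l 17897816) (c (l 17875856) (l 17361392)))))) (c (l 18831672) (b (l 18401864) (b (l 18238632) (l 17926256))))) (b (l 19097200) (l 18785280))), by decide +kernel⟩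

def k9_pm_012 : ∃ t, chk3 f_pm_012 t 17 126 1 = true :=
  ⟨(a (a (c (b (a (c (l 18133824) (b (l 17782728) (l 17606552))) (l 18232312)) (a (c (b (l 17953944) (l 17682112)) (b (a (l 17266496) (l 17590008)) (a (b (l 17145856) (l 16978784)) (l 17252176)))) (c (l 18235760) (b (l 17860320) (l 17635160))))) (b (a (c (b (l 17170616) (a (l 16994272) (l 17292656))) (b (l 16768224) (l 16704704))) (c (b (l 17710120) (l 17580152)) (b (l 17205960) (a (l 17022472) (l 17267336))))) (a (b (l 16712536) (a (l 16712824) (l 16710848))) (c (b (a (l 17273992) (l 17522480)) (a (l 16903976) (l 17256048))) (b (a (l 16837416) (l 16996008)) (l 16707032)))))) (c (b (l 18622968) (l 18264888)) (b (a (c (l 17950600) (l 17353024)) (l 18045456)) (a (c (b (l 17777592) (l 17578504)) (b (l 17187984) (a (l 16949296) (l 17246216)))) (c (l 18027480) (b (l 17704016) (l 17552088))))))) (c (l 19190944) (a (b (l 18405944) (l 18085296)) (l 18756032)))), by decide +kernel⟩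

def k10_pm_012 : ∃ t, chk3 f_pm_012 t 68 127 1 = true :=
  ⟨(b (a (b (b (c (c (l 17513744) (a (l 16865800) (l 17127072))) (l 16713800)) (l 16715600)) (b (l 16718696) (a (l 16718064) (l 16715984)))) (c (c (b (l 18047008) (l 17745664)) (b (a (l 17217416) (l 17656888)) (a (c (l 17189512) (b (l 17101336) (l 16900960))) (c (l 17606192) (l 17199952))))) (b (b (l 16726032) (l 16715296)) (b (l 16711712) (l 16712592))))) (b (a (a (b (l 16719024) (l 16721304)) (b (l 16716920) (l 16719168))) (a (b (l 16714600) (l 16715824)) (c (c (l 17825152) (c (b (l 17458488) (l 17307496)) (b (l 17058016) (a (l 16849600) (l 17066712))))) (b (l 16712520) (l 16713408))))) (b (b (a (a (l 16720728) (l 16718568)) (b (l 16715408) (l 16716944))) (a (a (l 16722528) (l 16719048)) (a (l 16716976) (l 16714872)))) (b (a (a (a (l 16723584) (l 16722464)) (a (l 16720064) (l 16718992))) (a (a (l 16717952) (l 16716936)) (l 16716768))) (a (a (b (a (l 16723968) (l 16721528)) (a (c (l 16723936) (l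 16722528)) (c (l 16722168) (l 16721384)))) (b (c (l 16721616) (l 16719472)) (a (c (l 16721080) (l 16720264)) (c (l 16720016) (l 16719168))))) (b (a (a (l 16718304) (l 16717280)) (l 16717104)) (a (a (c (l 16718976) (l 16718096)) (l 16718168)) (a (l 16717168) (l 16715536))))))))), by decide +kernel⟩

def k11_pm_012 : ∃ t, chk3 f_pm_012 t 69 127 1 = true :=
  ⟨(c (b (c (l 18501312) (a (b (l 17940120) (l 17665384)) (l 18214624))) (a (c (b (l 18141168) (a (l 17824088) (l 18086400))) (b (a (c (l 17639240) (l 17120008)) (l 17725080)) (a (c (b (l 17487488) (l 17207568)) (b (a (l 17013080) (l 17267808)) (b (l 16860760) (a (c (l 16989888) (l 16713320)) (l 16991120))))) (c (l 17672888) (b (l 17450152) (l 17195344)))))) (c (l 18443848) (b (l 18020888) (a (l 17718072) (l 17965680)))))) (b (a (c (a (b (l 17217600) (b (l 17097160) (l 16930920))) (b (l 17580568) (l 17200288))) (b (a (l 16753560) (l 16882096)) (b (l 16725800) (l 16716408)))) (c (b (l 17847136) (l 17599288))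 (b (a (l 17225912) (l 17513920)) (a (c (l 17181560) (l 16784128)) (l 17184768))))) (a (b (b (c (a (l 16777600) (l 17055160)) (l 16709512)) (l 16712416)) (b (a (l 16712392) (l 16710832)) (b (a (l 16713048) (l 16711216)) (b (a (l 16713376) (l 16711536)) (a (l 16713600) (l 16711744)))))) (c (b (a (c (l 17558008) (l 17123664)) (l 17639800)) (b (c (l 17463416) (a (l 16947272) (l 17384128))) (a (c (l 17164896) (b (l 16883824) (a (l 16739400) (l 16992728)))) (l 17160392)))) (b (a (b (l 16809648) (l 16740856)) (c (l 17118224) (b (l 17058600) (l 16851144)))) (a (b (l 16708432) (b (l 16709176) (l 16709584))) (a (b (l 16743440) (l 16707760)) (b (l 16839032) (l 16707800))))))))), by decide +kernel⟩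

def k12_pm_012 : ∃ t, chk3 f_pm_012 t 35 127 1 = true :=
  ⟨(a (c (b (l 18842632) (a (l 18534648) (l 18824208))) (b (c (l 18252936) (a (b (l 17765480) (l 17544520)) (l 18009904))) (a (c (b (l 17917520) (l 17516776)) (b (a (l 17123184) (l 17566184)) (b (a (c (l 17354776) (l 16969872)) (l 17420976)) (a (c (l 17152896) (b (l 16891768) (a (l 16778136) (l 16979328)))) (l 17121200))))) (c (l 18184912) (b (l 17827656) (l 17454512)))))) (c (l 19231704) (b (l 18578928) (a (l 18278720) (l 18545552))))), by decide +kernel⟩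

def k13_pm_012 : ∃ t, chk3 f_pm_012 t 9 7 1 = true :=
  ⟨(b (a (l 19440728) (l 19726160)) (b (a (l 19624848) (l 20014016)) (b (a (l 19720832) (l 20220672)) (b (a (l 19731320) (l 20325600)) (a (a (l 19216464) (l 19930096)) (l 20390232)))))), by decide +kernel⟩

def k14_pm_012 : ∃ t, chk3 f_pm_012 t 5 3 1 = true :=
  ⟨(b (a (l 19628488) (l 19700024)) (b (a (l 19959288) (l 20054160)) (b (l 20370320) (b (l 20628528) (b (l 20772856) (l 20868736)))))), by decide +kernel⟩

def k15_pm_012 : ∃ t, chk3 f_pm_012 t 3 1 1 = true :=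
  ⟨(b (a (b (l 2) (a (l 19381552) (l 2))) (l 2)) (a (b (a (l 19717208) (l 19703192)) (b (l 20058376) (b (l 20313376) (b (l 20471328) (b (l 20572416) (l 20643304)))))) (b (b (l 2) (l 19678416)) (b (l 19942992) (b (l 20127384) (b (l 20304808) (b (l 20386480) (l 20454224)))))))), by decide +kernel⟩

theorem s16_pm_012 : ∃ t, chk3 f_pm_012 t 34 127 1 = true := ex3_a k10_pm_012 k11_pm_012

theorem s17_pm_012 : ∃ t, chk3 f_pm_012 t 17 127 1 = true := ex3_a s16_pm_012 k12_pm_012

theorem s18_pm_012 : ∃ t, chk3 f_pm_012 t 17 63 1 = true := ex3_b k9_pm_012 s17_pm_012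

theorem s19_pm_012 : ∃ t, chk3 f_pm_012 t 17 31 1 = true := ex3_b k8_pm_012 s18_pm_012

theorem s20_pm_012 : ∃ t, chk3 f_pm_012 t 17 15 1 = true := ex3_b k7_pm_012 s19_pm_012

theorem s21_pm_012 : ∃ t, chk3 f_pm_012 t 33 31 1 = true := ex3_b k5_pm_012 k6_pm_012

theorem s22_pm_012 : ∃ t, chk3 f_pm_012 t 16 31 1 = true := ex3_a k4_pm_012 s21_pm_012

theorem s23_pm_012 : ∃ t, chk3 f_pm_012 t 16 15 1 = true := ex3_b k3_pm_012 s22_pm_012

theorem s24_pm_012 : ∃ t, chk3 f_pm_012 t 8 15 1 = true := ex3_a s23_pm_012 s20_pm_012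

theorem s25_pm_012 : ∃ t, chk3 f_pm_012 t 8 7 1 = true := ex3_b k2_pm_012 s24_pm_012

theorem s26_pm_012 : ∃ t, chk3 f_pm_012 t 4 7 1 = true := ex3_a s25_pm_012 k13_pm_012

theorem s27_pm_012 : ∃ t, chk3 f_pm_012 t 4 3 1 = true := ex3_b k1_pm_012 s26_pm_012

theorem s28_pm_012 : ∃ t, chk3 f_pm_012 t 2 3 1 = true := ex3_a s27_pm_012 k14_pm_012

theorem s29_pm_012 : ∃ t, chk3 f_pm_012 t 2 1 1 = true := ex3_b k0_pm_012 s28_pm_012

theorem s30_pm_012 : ∃ t, chk3 f_pm_012 t 1 1 1 = true := ex3_a s29_pm_012 k15_pm_012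

theorem c_pm_012 : CertF 0 536870912 536870912 536870912 33554432 16777216 true true false .pnp 0 1 2
    ndF0q0 ndF2q1 pcF2 cut_pm_012 Ext.none :=
  certFK2 (fam := true) (s1 := true) (s2 := false) (a := 0) (b := 1) (c := 2) (cn := .pnp) (n1 := ndF0q0) (n2 := ndF2q1) (pc := pcF2) (cut := cut_pm_012) (xt := Ext.none) (P1 := 0) (W1 := 536870912) (P2 := 536870912) (W2 := 536870912) (P3 := 33554432) (W3 := 16777216)
    rfl rfl rfl (fun _ => rfl) s30_pm_012

noncomputable def cut_pm_022_a : Cut := Cut.of [[⟨0, 0, 0, 33554432⟩, ⟨1, 1, 0, 33554432⟩, ⟨2, 1, 0, 33554432⟩], [⟨0, 0, 1, 25165824⟩, ⟨1, 1, 0, 16777216⟩, ⟨2, 1, 1, 25165824⟩, ⟨0, 0, 0, 67108864⟩, ⟨0, 1, 0, 1056964608⟩, ⟨2, 1, 0, 67108864⟩, ⟨2, 2, 0, 1056964608⟩]]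

noncomputable def f_pm_022_a : ℕ → ℕ → ℕ → ℕ → Bool := onCell 0 536870912 0 536870912 33554432 16777216
    (rowFK 0 true true false .pp 0 2 2 (qsf 0 536870912 0 536870912 2) ndF0q0 ndF2q2a pcF2 cut_pm_022_a Ext.none)

def k0_pm_022_a : ∃ t, chk3 f_pm_022_a t 2 2 1 = true :=
  ⟨(a (a (l 19326904) (l 19028136)) (l 18556248)), by decide +kernel⟩

def k1_pm_022_a : ∃ t, chk3 f_pm_022_a t 2 6 1 = true :=
  ⟨(a (a (a (b (l 19181336) (a (l 18880248) (l 18915368))) (l 18998208)) (l 18846672)) (l 18456560)), by decide +kernel⟩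

def k2_pm_022_a : ∃ t, chk3 f_pm_022_a t 4 14 1 = true :=
  ⟨(a (a (b (a (b (l 18471528) (c (l 18511024) (a (a (l 17703784) (l 18011512)) (l 18149328)))) (l 18575080)) (a (b (a (c (a (l 17898456) (l 18187704)) (a (b (c (l 17735512) (a (l 17294680) (l 17497800))) (c (a (l 17297472) (l 17548664)) (a (b (l 16948200) (a (a (l 16745568) (l 16864816)) (l 16936808))) (b (l 17315280) (l 17074032))))) (b (l 17754992) (c (l 17683400) (l 17238736))))) (c (l 18322208) (a (l 17692920) (l 17914440)))) (a (a (b (a (c (c (l 17837488) (l 17259080)) (a (a (b (c (l 17046928) (l 16720112)) (l 16722232)) (c (b (l 17144192) (l 16827752)) (l 16722240))) (c (b (l 17235600) (l 16883824)) (l 16721856)))) (c (l 17680960) (c (b (l 17348592) (l 17008864)) (b (l 16777280) (l 16727112))))) (c (c (b (l 17676576) (a (l 17303056) (l 17579536))) (a (a (a (b (l 16999080) (b (l 16811272) (l 16727248))) (b (l 17120840) (c (l 17091496) (l 16766472)))) (b (l 17196128) (c (l 17172328) (l 16789696))))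 (b (l 17359392) (a (l 17006736) (l 17205280))))) (a (a (a (b (l 16724584) (a (l 16726336) (l 16724752))) (b (l 16722736) (l 16724336))) (b (l 16727896) (l 16723504))) (a (l 16724216) (l 16728360))))) (c (b (l 17893376) (c (l 17807960) (a (l 17277952) (l 17535544)))) (b (c (a (l 17328456) (l 17494488)) (a (b (l 17093976) (l 16881152)) (l 17056696))) (c (a (b (l 17044496) (l 16814048)) (l 16988680)) (a (l 16720608) (l 16756392)))))) (a (c (l 17720360) (b (c (l 17627896) (l 17233592)) (c (l 17156664) (a (l 16868904) (l 17071248))))) (c (l 18051824) (b (l 17652424) (c (l 17569336) (l 17204384))))))) (b (l 18283296) (c (l 18258104) (a (b (l 17835736) (l 17496408)) (l 17944512)))))) (b (l 18661768) (a (l 18367696) (l 18454216)))) (l 18571488)), by decide +kernel⟩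

def k3_pm_022_a : ∃ t, chk3 f_pm_022_a t 32 60 1 = true :=
  ⟨(b (a (a (a (b (a (a (b (l 16727072) (l 16728040)) (l 16727600)) (l 16726744)) (a (a (a (b (l 16729016) (l 16729968)) (l 16729528)) (l 16729424)) (l 16728880))) (a (a (l 16726768) (l 16726184)) (l 16726080))) (a (b (c (c (l 17539520) (l 16968168)) (l 16721152)) (l 16724512)) (c (c (l 17576712) (b (l 17312928) (l 16975576))) (l 16719608)))) (a (a (c (c (l 17680888) (l 17230152)) (l 16742784)) (c (l 17535040) (c (l 16971880) (l 16792176)))) (c (l 17726312) (c (l 17096456) (a (l 16881960) (l 17040960)))))) (b (a (a (b (a (a (a (b (l 16730568) (l 16731072)) (l 16729568)) (l 16728680)) (l 16728200)) (a (a (a (a (c (l 16731520) (l 16731152)) (l 16731040)) (l 16730592)) (l 16729688)) (l 16729184))) (a (l 16726248) (l 16745784))) (c (a (c (l 17514552) (a (l 16982192) (l 17242104))) (l 17456264)) (a (l 16721104) (l 16777616)))) (a (a (a (b (a (a (a (b (l 16732784) (l 16733328)) (l 16732096)) (l 16731648))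 (l 16732048)) (a (a (l 6) (l 16733400)) (l 16733128))) (a (l 16731352) (l 16728800))) (a (l 16729544) (l 16724384))) (a (a (l 16734968) (c (c (l 17414056) (l 16967160)) (l 16719056))) (c (c (l 17576240) (l 17119224)) (l 16737784)))))), by decide +kernel⟩

def k4_pm_022_a : ∃ t, chk3 f_pm_022_a t 32 61 1 = true :=
  ⟨(a (a (b (b (a (b (a (l 6) (l 16734256)) (l 6)) (a (l 16733568) (l 16730992))) (l 6)) (l 6)) (b (b (a (l 16731688) (l 16736952)) (a (a (l 16732032) (l 16730712)) (l 16731336))) (a (l 6) (b (l 16733752) (l 6))))) (b (b (a (a (l 16723840) (l 16721168)) (c (c (l 17365672) (a (l 16951592) (l 17168664))) (l 16737960))) (a (a (l 16736504) (l 16723296)) (a (l 16720536) (l 16771512)))) (b (a (a (l 16731000) (l 16746560)) (a (l 16743744) (l 16740896))) (a (a (l 16733528) (l 16738544)) (a (l 16746152) (l 16743240)))))), by decide +kernel⟩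

def k5_pm_022_a : ∃ t, chk3 f_pm_022_a t 33 30 1 = true :=
  ⟨(b (a (c (b (l 17943416) (a (l 17606872) (l 17808912))) (b (a (l 17151560) (l 17539152)) (a (c (l 17012728) (b (l 17022240) (l 16879624))) (c (l 17444448) (l 17075648))))) (c (l 18046032) (b (l 17722144) (l 17294592)))) (a (b (c (a (c (l 17516192) (b (l 17338256) (l 17023528))) (l 17463936)) (a (b (l 16783152) (l 16744464)) (a (l 16846800) (l 16933064)))) (a (b (c (c (l 17235416) (l 16778056)) (l 16736512)) (a (l 16740304) (l 16767552))) (c (c (l 17301832) (b (l 17220320) (l 16926632))) (b (l 16787832) (a (l 16734320) (l 16757040)))))) (a (c (b (l 17729880) (l 17276984)) (a (b (l 17070936) (l 16787040)) (b (l 17240984) (l 16851176)))) (c (l 17559504) (b (l 17375648) (c (l 17270104) (l 16835960))))))), by decide +kernel⟩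

def k6_pm_022_a : ∃ t, chk3 f_pm_022_a t 17 30 1 = true :=
  ⟨(a (b (a (l 18004264) (l 18118064)) (a (c (l 17852176) (b (l 17600912) (a (l 17249792) (l 17482288)))) (l 17661848))) (b (l 18231048) (l 18038032))), by decide +kernel⟩

def k7_pm_022_a : ∃ t, chk3 f_pm_022_a t 9 30 1 = true :=
  ⟨(a (l 18278320) (l 18334104)), by decide +kernel⟩

def k8_pm_022_a : ∃ t, chk3 f_pm_022_a t 4 31 1 = true :=
  ⟨(a (b (b (a (a (a (l 6) (a (b (a (l 6) (l 16733344)) (l 6)) (a (b (b (l 16748080) (l 16749424)) (b (l 6) (l 6))) (b (l 16745776) (b (b (l 16747456) (a (l 16748912) (l 16747960))) (l 16750904)))))) (b (a (a (b (a (l 16742144) (l 16739136)) (a (b (l 16743104) (l 16743752)) (l 16741696))) (a (l 16734592) (l 16790976))) (c (a (c (l 17446976) (l 17080528)) (l 17483672)) (a (l 16772024) (l 16868648)))) (a (a (b (a (l 16746336) (l 16745408)) (a (l 16749976) (l 16749064))) (b (l 16744064) (l 16747760))) (c (a (c (l 17246952) (l 16808856)) (l 17215968)) (a (l 16744200)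 (l 16776312)))))) (a (a (c (l 17416320) (a (b (l 17110688) (l 16910992)) (l 17060256))) (c (l 17816280) (l 17243112))) (l 17822256))) (a (a (l 6) (a (a (b (b (l 16734592) (l 16737960)) (a (l 6) (l 16742616))) (c (l 14) (b (l 16735856) (l 16743336)))) (a (a (b (l 16751744) (l 16758648)) (l 14)) (l 14)))) (a (a (l 14) (c (l 17646776) (l 14))) (a (l 17468768) (l 17794056))))) (a (a (l 6) (a (a (l 6) (b (b (a (l 16749936) (l 16747904)) (l 6)) (l 6))) (a (a (b (b (l 16747200) (c (l 14) (l 16755680))) (l 6)) (l 14)) (l 14)))) (a (b (a (l 14) (c (c (l 17505288) (l 14)) (l 14))) (l 14)) (b (c (l 17516424) (a (a (l 14) (l 17372408)) (l 17524792))) (a (c (b (l 17522272) (l 17221632)) (l 14)) (c (l 17643128) (a (b (l 17368552) (l 14)) (l 17418424)))))))) (b (a (l 18048928) (l 18177392)) (a (a (b (l 17826536) (a (l 17628560) (l 17756640))) (l 17922192)) (l 18047624)))), by decide +kernel⟩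

def k9_pm_022_a : ∃ t, chk3 f_pm_022_a t 5 7 1 = true :=
  ⟨(b (l 18509720) (b (l 18464112) (b (a (l 18192592) (l 18051512)) (a (l 18109000) (l 18000944))))), by decide +kernel⟩

def k10_pm_022_a : ∃ t, chk3 f_pm_022_a t 3 1 1 = true :=
  ⟨(b (a (l 17934224) (l 17726176)) (b (a (l 17892488) (l 17711272)) (b (a (l 17834440) (l 17686840)) (b (a (l 17792368) (l 17672384)) (b (a (l 17759520) (l 17657784)) (a (l 17731728) (l 17643872))))))), by decide +kernel⟩

theorem s11_pm_022_a : ∃ t, chk3 f_pm_022_a t 32 30 1 = true := ex3_b k3_pm_022_a k4_pm_022_a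

theorem s12_pm_022_a : ∃ t, chk3 f_pm_022_a t 16 30 1 = true := ex3_a s11_pm_022_a k5_pm_022_a

theorem s13_pm_022_a : ∃ t, chk3 f_pm_022_a t 8 30 1 = true := ex3_a s12_pm_022_a k6_pm_022_a

theorem s14_pm_022_a : ∃ t, chk3 f_pm_022_a t 4 30 1 = true := ex3_a s13_pm_022_a k7_pm_022_a

theorem s15_pm_022_a : ∃ t, chk3 f_pm_022_a t 4 15 1 = true := ex3_b s14_pm_022_a k8_pm_022_a

theorem s16_pm_022_a : ∃ t, chk3 f_pm_022_a t 4 7 1 = true := ex3_b k2_pm_022_a s15_pm_022_a

theorem s17_pm_022_a : ∃ t, chk3 f_pm_022_a t 2 7 1 = true := ex3_a s16_pm_022_a k9_pm_022_a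

theorem s18_pm_022_a : ∃ t, chk3 f_pm_022_a t 2 3 1 = true := ex3_b k1_pm_022_a s17_pm_022_a

theorem s19_pm_022_a : ∃ t, chk3 f_pm_022_a t 2 1 1 = true := ex3_b k0_pm_022_a s18_pm_022_a

theorem s20_pm_022_a : ∃ t, chk3 f_pm_022_a t 1 1 1 = true := ex3_a s19_pm_022_a k10_pm_022_a

theorem c_pm_022_a : CertF 0 536870912 0 536870912 33554432 16777216 true true false .pp 0 2 2
    ndF0q0 ndF2q2a pcF2 cut_pm_022_a Ext.none :=
  certFK0 (fam := true) (s1 := true) (s2 := false) (a := 0) (b := 2) (c := 2) (cn := .pp) (n1 := ndF0q0) (n2 := ndF2q2a) (pc := pcF2) (cut := cut_pm_022_a) (xt := Ext.none) (P1 := 0) (W1 := 536870912) (P2 := 0) (W2 := 536870912) (P3 := 33554432) (W3 := 16777216)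
    rfl rfl rfl s20_pm_022_a

noncomputable def cut_pm_022_b : Cut := Cut.of [[⟨0, 0, 0, 33554432⟩, ⟨1, 1, 0, 33554432⟩, ⟨2, 1, 0, 33554432⟩], [⟨0, 0, 1, 25165824⟩, ⟨1, 1, 0, 16777216⟩, ⟨2, 1, 1, 25165824⟩, ⟨0, 0, 0, 67108864⟩, ⟨0, 1, 0, 1056964608⟩, ⟨2, 1, 0, 67108864⟩, ⟨2, 2, 0, 1056964608⟩]]

noncomputable def f_pm_022_b : ℕ → ℕ → ℕ → ℕ → Bool := onCell 0 536870912 1239849684 370763052 33554432 16777216
    (rowFK 0 true true false .pp 0 2 2 (qsf 0 536870912 1239849684 370763052 2) ndF0q0 ndF2q2b pcF2 cut_pm_022_b Ext.none)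

def k0_pm_022_b : ∃ t, chk3 f_pm_022_b t 1 1 1 = true :=
  ⟨(a (b (a (a (l 19522448) (l 19180152)) (l 18639608)) (a (l 19286128) (b (l 18600848) (l 2)))) (b (a (l 17948928) (l 2)) (l 2))), by decide +kernel⟩

theorem c_pm_022_b : CertF 0 536870912 1239849684 370763052 33554432 16777216 true true false .pp 0 2 2
    ndF0q0 ndF2q2b pcF2 cut_pm_022_b Ext.none :=
  certFK0 (fam := true) (s1 := true) (s2 := false) (a := 0) (b := 2) (c := 2) (cn := .pp) (n1 := ndF0q0) (n2 := ndF2q2b) (pc := pcF2) (cut := cut_pm_022_b) (xt := Ext.none) (P1 := 0) (W1 := 536870912) (P2 := 1239849684) (W2 := 370763052) (P3 := 33554432) (W3 := 16777216)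
    rfl rfl rfl k0_pm_022_b

noncomputable def f_pm_023_a : ℕ → ℕ → ℕ → ℕ → Bool := onCell 0 536870912 0 536870912 33554432 16777216
    (rowFK 0 true true false .up 0 2 3 (qsf 0 536870912 0 536870912 3) ndF0q0 ndF2q2a pcF3 Cut.none Ext.none)

def k0_pm_023_a : ∃ t, chk3 f_pm_023_a t 1 1 1 = true :=
  ⟨(a (l 1) (a (b (l 17924096) (b (l 1) (l 1))) (b (l 17655808) (b (l 17601896) (b (l 17547496) (b (l 17541128) (b (l 17564176) (l 17742088)))))))), by decide +kernel⟩

theorem c_pm_023_a : CertF 0 536870912 0 536870912 33554432 16777216 true true false .up 0 2 3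
    ndF0q0 ndF2q2a pcF3 Cut.none Ext.none :=
  certFK0 (fam := true) (s1 := true) (s2 := false) (a := 0) (b := 2) (c := 3) (cn := .up) (n1 := ndF0q0) (n2 := ndF2q2a) (pc := pcF3) (cut := Cut.none) (xt := Ext.none) (P1 := 0) (W1 := 536870912) (P2 := 0) (W2 := 536870912) (P3 := 33554432) (W3 := 16777216)
    rfl rfl rfl k0_pm_023_a

noncomputable def f_pm_023_b : ℕ → ℕ → ℕ → ℕ → Bool := onCell 0 536870912 1239849684 370763052 33554432 16777216
    (rowFK 0 true true false .up 0 2 3 (qsf 0 536870912 1239849684 370763052 3) ndF0q0 ndF2q2b pcF3 Cut.none Ext.none)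

def k0_pm_023_b : ∃ t, chk3 f_pm_023_b t 1 1 1 = true :=
  ⟨(a (b (a (l 1) (l 18666256)) (a (l 19089696) (b (l 18528704) (l 18347280)))) (b (a (l 18036696) (b (l 17704528) (l 17721240))) (a (b (a (l 17982376) (l 17741216)) (a (l 17827728) (l 17843776))) (b (a (l 17664304) (b (l 17673112) (l 17590512))) (a (b (l 17572024) (l 17512320)) (b (l 17541624) (a (l 17497424) (l 4)))))))), by decide +kernel⟩

theorem c_pm_023_b : CertF 0 536870912 1239849684 370763052 33554432 16777216 true true false .up 0 2 3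
    ndF0q0 ndF2q2b pcF3 Cut.none Ext.none :=
  certFK0 (fam := true) (s1 := true) (s2 := false) (a := 0) (b := 2) (c := 3) (cn := .up) (n1 := ndF0q0) (n2 := ndF2q2b) (pc := pcF3) (cut := Cut.none) (xt := Ext.none) (P1 := 0) (W1 := 536870912) (P2 := 1239849684) (W2 := 370763052) (P3 := 33554432) (W3 := 16777216)
    rfl rfl rfl k0_pm_023_b

noncomputable def f_pm_033 : ℕ → ℕ → ℕ → ℕ → Bool := onCell 0 536870912 1610612736 536870912 33554432 16777216
    (rowFK 1 true true false .pnn 0 3 3 (qsf 0 536870912 1610612736 536870912 3) ndF0q0 ndF2q3 pcF3 Cut.none Ext.none)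

def k0_pm_033 : ∃ t, chk3 f_pm_033 t 1 1 1 = true :=
  ⟨(a (a (b (b (l 19138248) (b (l 18970096) (l 18971336))) (b (b (l 19021264) (l 18899896)) (l 4))) (b (b (l 18556768) (l 279746804663)) (b (b (l 18541584) (l 18536856)) (l 4)))) (b (b (l 1) (a (l 17900184) (l 1))) (b (a (b (l 17922096) (l 17956904)) (b (l 1) (l 17705144))) (b (a (l 17976144) (l 17744528)) (l 4))))), by decide +kernel⟩

theorem c_pm_033 : CertF 0 536870912 1610612736 536870912 33554432 16777216 true true false .pnn 0 3 3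
    ndF0q0 ndF2q3 pcF3 Cut.none Ext.none :=
  certFK1 (fam := true) (s1 := true) (s2 := false) (a := 0) (b := 3) (c := 3) (cn := .pnn) (n1 := ndF0q0) (n2 := ndF2q3) (pc := pcF3) (cut := Cut.none) (xt := Ext.none) (P1 := 0) (W1 := 536870912) (P2 := 1610612736) (W2 := 536870912) (P3 := 33554432) (W3 := 16777216)
    rfl rfl rfl (fun _ => rfl) k0_pm_033

noncomputable def cut_pm_101 : Cut := Cut.of [[⟨0, 1, 0, 33554432⟩, ⟨1, 0, 0, 33554432⟩, ⟨2, 1, 0, 33554432⟩]]

noncomputable def f_pm_101 : ℕ → ℕ → ℕ → ℕ → Bool := onCell 536870912 536870912 0 536870912 33554432 16777216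
    (rowFK 2 true true false .npn 1 0 1 (qsf 536870912 536870912 0 536870912 1) ndF0q1 ndF2q0 pcF1 cut_pm_101 Ext.none)

def k0_pm_101 : ∃ t, chk3 f_pm_101 t 1 1 1 = true :=
  ⟨(a (l 3) (a (l 3) (a (b (l 3) (l 3)) (a (b (l 3) (l 3)) (a (b (b (l 3) (l 3)) (l 3)) (b (b (a (l 3) (b (b (b (l 6) (l 16923424)) (l 16992992)) (l 17311864))) (b (l 17550816) (l 17807848))) (b (l 18150224) (l 18298904)))))))), by decide +kernel⟩

theorem c_pm_101 : CertF 536870912 536870912 0 536870912 33554432 16777216 true true false .npn 1 0 1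
    ndF0q1 ndF2q0 pcF1 cut_pm_101 Ext.none :=
  certFK2 (fam := true) (s1 := true) (s2 := false) (a := 1) (b := 0) (c := 1) (cn := .npn) (n1 := ndF0q1) (n2 := ndF2q0) (pc := pcF1) (cut := cut_pm_101) (xt := Ext.none) (P1 := 536870912) (W1 := 536870912) (P2 := 0) (W2 := 536870912) (P3 := 33554432) (W3 := 16777216)
    rfl rfl rfl (fun _ => rfl) k0_pm_101

noncomputable def cut_pm_102 : Cut := Cut.of [[⟨0, 1, 0, 33554432⟩, ⟨1, 0, 0, 33554432⟩, ⟨2, 1, 0, 33554432⟩]]

noncomputable def f_pm_102 : ℕ → ℕ → ℕ → ℕ → Bool := onCell 536870912 536870912 1073741824 536870912 33554432 16777216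
    (rowFK 1 true true false .npp 1 0 2 (qsf 536870912 536870912 0 536870912 2) ndF0q1 ndF2q0 pcF2 cut_pm_102 Ext.none)

def k0_pm_102 : ∃ t, chk3 f_pm_102 t 1 1 1 = true :=
  ⟨(a (b (b (b (b (b (b (a (l 18216912) (l 17921824)) (a (l 18206944) (l 17913704))) (a (l 18191720) (l 17901528))) (a (l 18160720) (l 17877968))) (a (l 18094440) (l 17821912))) (a (l 17952240) (l 17696872))) (a (l 2) (l 17417504))) (b (a (b (b (b (b (b (a (l 17769984) (l 17496288)) (a (l 17763592) (l 17491112))) (a (l 17754096) (l 17483488))) (l 17840672)) (a (l 17689552) (l 17429488))) (a (l 17579352) (l 17331040))) (b (b (b (b (b (a (l 17200624) (a (l 16947464) (a (l 16859144) (l 6)))) (a (l 17154904) (a (l 16944872) (a (l 16857184) (a (l 16815224) (l 6)))))) (a (l 17149368) (a (l 16941232) (a (l 16854784) (l 16783920))))) (a (l 17141040) (a (l 16937328) (b (l 16977384) (l 17230600))))) (a (l 17107528) (b (l 17263392) (l 17520912)))) (a (l 17194352) (l 17939584)))) (a (b (l 17289128)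 (l 17133264)) (b (l 17736072) (l 17880264))))), by decide +kernel⟩

theorem c_pm_102 : CertF 536870912 536870912 0 536870912 33554432 16777216 true true false .npp 1 0 2
    ndF0q1 ndF2q0 pcF2 cut_pm_102 Ext.none :=
  certFK1 (fam := true) (s1 := true) (s2 := false) (a := 1) (b := 0) (c := 2) (cn := .npp) (n1 := ndF0q1) (n2 := ndF2q0) (pc := pcF2) (cut := cut_pm_102) (xt := Ext.none) (P1 := 536870912) (W1 := 536870912) (P2 := 0) (W2 := 536870912) (P3 := 33554432) (W3 := 16777216)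
    rfl rfl rfl (fun _ => rfl) k0_pm_102

noncomputable def f_pm_112 : ℕ → ℕ → ℕ → ℕ → Bool := onCell 536870912 536870912 1073741824 536870912 33554432 16777216
    (rowFK 1 true true false .dn 1 1 2 (qsf 536870912 536870912 536870912 536870912 2) ndF0q1 ndF2q1 pcF2 Cut.none Ext.none)

def k0_pm_112 : ∃ t, chk3 f_pm_112 t 1 1 1 = true :=
  ⟨(a (a (b (b (b (b (b (b (l 18734672) (l 18756600)) (l 18787680)) (l 18843504)) (l 18968616)) (l 19214816)) (b (l 19520312) (a (b (l 19870976) (a (b (l 20061152) (a (b (l 20210968) (a (b (l 20294888) (a (l 20344136) (l 20315376))) (l 20253912))) (l 20128552))) (l 19939944))) (l 19719312)))) (b (b (b (l 1) (l 18855776)) (l 19024344)) (l 19307312))) (b (b (l 1) (a (l 18854960) (l 1))) (a (l 19070400) (b (l 18898440) (l 18867600))))), by decide +kernel⟩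

theorem c_pm_112 : CertF 536870912 536870912 536870912 536870912 33554432 16777216 true true false .dn 1 1 2
    ndF0q1 ndF2q1 pcF2 Cut.none Ext.none :=
  certFK1 (fam := true) (s1 := true) (s2 := false) (a := 1) (b := 1) (c := 2) (cn := .dn) (n1 := ndF0q1) (n2 := ndF2q1) (pc := pcF2) (cut := Cut.none) (xt := Ext.none) (P1 := 536870912) (W1 := 536870912) (P2 := 536870912) (W2 := 536870912) (P3 := 33554432) (W3 := 16777216)
    rfl rfl rfl (fun _ => rfl) k0_pm_112

noncomputable def f_pm_113 : ℕ → ℕ → ℕ → ℕ → Bool := onCell 536870912 536870912 536870912 536870912 33554432 16777216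
    (rowFK 0 true true false .nn 1 1 3 (qsf 536870912 536870912 536870912 536870912 3) ndF0q1 ndF2q1 pcF3 Cut.none Ext.none)

def k0_pm_113 : ∃ t, chk3 f_pm_113 t 1 1 1 = true :=
  ⟨(a (b (a (l 1) (l 333434578535)) (a (b (l 19205920) (b (l 19405264) (b (l 19506192) (b (l 19583392) (b (l 19618808) (l 19639752)))))) (b (a (l 18907232) (l 18689680)) (b (l 18913416) (b (l 19006232) (b (l 19108184) (b (l 19154384) (l 19186608)))))))) (b (a (b (l 346318858103) (a (l 18425392) (l 18283152))) (b (a (l 18132336) (l 18154472)) (a (l 18287832) (b (l 18311560) (l 18205224))))) (a (b (a (l 18607760) (b (l 18495264) (l 18690640))) (b (a (l 18886040) (l 18645976)) (b (l 18817952) (b (l 18895216) (b (l 18955104) (l 18984584)))))) (b (a (b (l 18514152) (l 18365280)) (b (l 18183928) (l 4))) (a (b (l 18427968) (l 4)) (l 4)))))), by decide +kernel⟩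

theorem c_pm_113 : CertF 536870912 536870912 536870912 536870912 33554432 16777216 true true false .nn 1 1 3
    ndF0q1 ndF2q1 pcF3 Cut.none Ext.none :=
  certFK0 (fam := true) (s1 := true) (s2 := false) (a := 1) (b := 1) (c := 3) (cn := .nn) (n1 := ndF0q1) (n2 := ndF2q1) (pc := pcF3) (cut := Cut.none) (xt := Ext.none) (P1 := 536870912) (W1 := 536870912) (P2 := 536870912) (W2 := 536870912) (P3 := 33554432) (W3 := 16777216)
    rfl rfl rfl k0_pm_113

noncomputable def cut_pm_123_a : Cut := Cut.of [[⟨0, 1, 0, 7061502⟩, ⟨1, 1, 0, 7061502⟩, ⟨2, 2, 0, 184626⟩]]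

noncomputable def f_pm_123_a : ℕ → ℕ → ℕ → ℕ → Bool := onCell 1610612736 536870912 0 536870912 33554432 16777216
    (rowFK 2 true true false .npn 1 2 3 (qsf 536870912 536870912 0 536870912 3) ndF0q1 ndF2q2a pcF3 cut_pm_123_a Ext.none)

def k0_pm_123_a : ∃ t, chk3 f_pm_123_a t 2 1 1 = true :=
  ⟨(b (a (l 54796722887) (a (l 17527584) (l 17364952))) (a (b (a (l 1) (l 17497136)) (b (a (l 17478656) (l 17316720)) (b (a (l 17387120) (l 17285032)) (b (a (l 17320000) (l 17332976)) (a (l 17281872) (l 17365224)))))) (b (a (l 17335768) (l 17179160)) (b (a (l 17249944) (l 17225104)) (b (a (l 17335984) (l 17275264)) (b (a (l 17383016) (l 17309368)) (a (l 17411584) (l 17365344)))))))), by decide +kernel⟩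

def k1_pm_123_a : ∃ t, chk3 f_pm_123_a t 3 1 1 = true :=
  ⟨(b (a (a (l 17237256) (l 17238264)) (a (l 17427024) (a (l 17258720) (a (l 17179872) (a (l 17101848) (l 4)))))) (a (b (a (l 17278152) (l 17292552)) (b (a (l 17136816) (l 17102352)) (b (a (l 17149864) (l 17080112)) (b (a (l 17150968) (l 17091112)) (a (l 17283344) (a (l 17148152) (l 17171664))))))) (b (a (l 17298688) (a (l 17128088) (a (l 17100848) (a (l 16939384) (a (l 16918960) (a (l 16882432) (l 4))))))) (a (b (a (l 16963792) (l 16923120)) (b (l 17138024) (b (l 17220768) (b (l 17200448) (a (l 17164104) (l 17199016)))))) (b (a (l 16970664) (a (l 16853144) (a (l 16861272) (a (l 16833968) (a (l 16826832) (b (l 4) (a (l 16806280) (l 4)))))))) (a (b (l 16909640) (b (l 16968224) (a (b (l 17027904) (l 17045728)) (l 17176248)))) (b (a (l 16828928) (a (l 16795848) (a (l 16817120) (a (l 16810592) (a (l 16800416) (a (l 16796568) (a (l 16787504) (b (l 4) (l 4))))))))) (a (b (l 16871544) (a (l 17040992) (b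 (l 16875104) (l 16988672)))) (b (a (l 16815728) (a (l 16786992) (a (l 16786792) (a (l 16796792) (a (l 16792640) (a (l 16787328) (a (l 16785096) (l 16799888)))))))) (a (a (l 17028312) (l 16973680)) (a (a (l 16921824) (a (l 16874848) (l 16871520))) (a (b (l 16786008) (a (l 16850792) (a (l 16827056) (l 16825224)))) (a (b (l 16779216) (b (l 16782528) (a (l 16814432) (a (l 16802488) (l 16801528))))) (a (b (l 16781328) (b (l 16778256) (a (l 16794824) (c (l 16789040) (l 16790184))))) (a (b (l 16785856) (b (l 16778952) (b (l 16777984) (a (l 16786024) (c (l 16783192) (l 16783936)))))) (a (b (l 16783584) (b (l 16779520) (b (l 16777920) (b (l 16777688) (a (l 16781648) (a (l 16780640) (l 6))))))) (b (l 16819528) (l 6)))))))))))))))))), by decide +kernel⟩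

theorem s2_pm_123_a : ∃ t, chk3 f_pm_123_a t 1 1 1 = true := ex3_a k0_pm_123_a k1_pm_123_a

theorem c_pm_123_a : CertF 536870912 536870912 0 536870912 33554432 16777216 true true false .npn 1 2 3
    ndF0q1 ndF2q2a pcF3 cut_pm_123_a Ext.none :=
  certFK2 (fam := true) (s1 := true) (s2 := false) (a := 1) (b := 2) (c := 3) (cn := .npn) (n1 := ndF0q1) (n2 := ndF2q2a) (pc := pcF3) (cut := cut_pm_123_a) (xt := Ext.none) (P1 := 536870912) (W1 := 536870912) (P2 := 0) (W2 := 536870912) (P3 := 33554432) (W3 := 16777216)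
    rfl rfl rfl (fun _ => rfl) s2_pm_123_a

noncomputable def cut_pm_123_b : Cut := Cut.of [[⟨0, 1, 0, 7061502⟩, ⟨1, 1, 0, 7061502⟩, ⟨2, 2, 0, 184626⟩]]

noncomputable def f_pm_123_b : ℕ → ℕ → ℕ → ℕ → Bool := onCell 1610612736 536870912 1239849684 370763052 33554432 16777216
    (rowFK 2 true true false .npn 1 2 3 (qsf 536870912 536870912 1239849684 370763052 3) ndF0q1 ndF2q2b pcF3 cut_pm_123_b Ext.none)

def k0_pm_123_b : ∃ t, chk3 f_pm_123_b t 1 1 1 = true :=
  ⟨(a (b (a (l 1) (b (a (l 17646040) (l 17585056)) (l 37080190327))) (l 1)) (a (b (b (a (l 17438984) (l 17335224)) (a (l 17666576) (l 17554680))) (a (l 1) (b (l 17569872) (l 1)))) (a (b (b (b (l 17340160) (l 17355856)) (l 17504792)) (b (l 17486896) (l 17487488))) (a (b (b (l 17494720) (l 17299504)) (b (l 17314808) (l 4))) (b (a (b (l 17268792) (l 17217072)) (a (b (l 17219352) (l 4)) (l 4))) (l 4)))))), by decide +kernel⟩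

theorem c_pm_123_b : CertF 536870912 536870912 1239849684 370763052 33554432 16777216 true true false .npn 1 2 3
    ndF0q1 ndF2q2b pcF3 cut_pm_123_b Ext.none :=
  certFK2 (fam := true) (s1 := true) (s2 := false) (a := 1) (b := 2) (c := 3) (cn := .npn) (n1 := ndF0q1) (n2 := ndF2q2b) (pc := pcF3) (cut := cut_pm_123_b) (xt := Ext.none) (P1 := 536870912) (W1 := 536870912) (P2 := 1239849684) (W2 := 370763052) (P3 := 33554432) (W3 := 16777216)
    rfl rfl rfl (fun _ => rfl) k0_pm_123_b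

noncomputable def f_pm_133 : ℕ → ℕ → ℕ → ℕ → Bool := onCell 536870912 536870912 1610612736 536870912 33554432 16777216
    (rowFK 0 true true false .dn 1 3 3 (qsf 536870912 536870912 1610612736 536870912 3) ndF0q1 ndF2q3 pcF3 Cut.none Ext.none)

def k0_pm_133 : ∃ t, chk3 f_pm_133 t 1 1 1 = true :=
  ⟨(a (l 4) (l 2)), by decide +kernel⟩

theorem c_pm_133 : CertF 536870912 536870912 1610612736 536870912 33554432 16777216 true true false .dn 1 3 3
    ndF0q1 ndF2q3 pcF3 Cut.none Ext.none :=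
  certFK0 (fam := true) (s1 := true) (s2 := false) (a := 1) (b := 3) (c := 3) (cn := .dn) (n1 := ndF0q1) (n2 := ndF2q3) (pc := pcF3) (cut := Cut.none) (xt := Ext.none) (P1 := 536870912) (W1 := 536870912) (P2 := 1610612736) (W2 := 536870912) (P3 := 33554432) (W3 := 16777216)
    rfl rfl rfl k0_pm_133

noncomputable def cut_pm_202 : Cut := Cut.of [[⟨0, 1, 0, 33554432⟩, ⟨1, 0, 0, 33554432⟩, ⟨2, 1, 0, 33554432⟩]]

noncomputable def f_pm_202 : ℕ → ℕ → ℕ → ℕ → Bool := onCell 0 536870912 0 536870912 33554432 16777216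
    (rowFK 0 true true false .pp 2 0 2 (qsf 0 536870912 0 536870912 2) ndF0q2 ndF2q0 pcF2 cut_pm_202 Ext.none)

def k0_pm_202 : ∃ t, chk3 f_pm_202 t 1 1 1 = true :=
  ⟨(a (b (b (b (a (l 19251128) (b (l 19243464) (l 19080464))) (a (l 18896928) (l 18861808))) (a (l 18543760) (l 18564472))) (b (b (l 18315512) (l 18239256)) (a (l 2) (l 18207384)))) (b (a (b (b (b (a (l 19100208) (b (a (l 18962688) (l 18757256)) (l 18895904))) (l 18942720)) (l 18815440)) (l 18787800)) (b (a (b (b (b (b (a (b (a (l 18429576) (l 18093632)) (l 18380216)) (b (a (c (l 18072120) (a (l 17602640) (l 17227672))) (a (c (l 17659600) (l 16905120)) (b (l 16862824) (l 17127376)))) (l 17592488))) (a (l 18471192) (l 17934168))) (l 18413744)) (l 18578416)) (l 18651832)) (b (b (a (b (b (b (a (a (l 16734992) (l 16740456)) (b (a (l 16741240) (l 6)) (l 16743592))) (l 16751016)) (l 16886336)) (l 17537920)) (b (a (b (l 6) (l 16754040)) (l 6)) (a (l 16756056) (l 16768040)))) (a (l 18077560) (l 17486224)))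 (l 18482296))) (l 18752152))) (b (a (l 18450032) (l 18485056)) (a (l 18363040) (b (l 18484944) (l 18490472)))))), by decide +kernel⟩

theorem c_pm_202 : CertF 0 536870912 0 536870912 33554432 16777216 true true false .pp 2 0 2
    ndF0q2 ndF2q0 pcF2 cut_pm_202 Ext.none :=
  certFK0 (fam := true) (s1 := true) (s2 := false) (a := 2) (b := 0) (c := 2) (cn := .pp) (n1 := ndF0q2) (n2 := ndF2q0) (pc := pcF2) (cut := cut_pm_202) (xt := Ext.none) (P1 := 0) (W1 := 536870912) (P2 := 0) (W2 := 536870912) (P3 := 33554432) (W3 := 16777216)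
    rfl rfl rfl k0_pm_202

noncomputable def f_pm_203 : ℕ → ℕ → ℕ → ℕ → Bool := onCell 0 536870912 1610612736 536870912 33554432 16777216
    (rowFK 1 true true false .up 2 0 3 (qsf 0 536870912 0 536870912 3) ndF0q2 ndF2q0 pcF3 Cut.none Ext.none)

def k0_pm_203 : ∃ t, chk3 f_pm_203 t 1 1 1 = true :=
  ⟨(b (a (b (l 18433856) (l 4)) (b (a (l 18450608) (l 18724848)) (a (l 2) (l 2)))) (l 2)), by decide +kernel⟩

theorem c_pm_203 : CertF 0 536870912 0 536870912 33554432 16777216 true true false .up 2 0 3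
    ndF0q2 ndF2q0 pcF3 Cut.none Ext.none :=
  certFK1 (fam := true) (s1 := true) (s2 := false) (a := 2) (b := 0) (c := 3) (cn := .up) (n1 := ndF0q2) (n2 := ndF2q0) (pc := pcF3) (cut := Cut.none) (xt := Ext.none) (P1 := 0) (W1 := 536870912) (P2 := 0) (W2 := 536870912) (P3 := 33554432) (W3 := 16777216)
    rfl rfl rfl (fun _ => rfl) k0_pm_203

noncomputable def f_pm_213 : ℕ → ℕ → ℕ → ℕ → Bool := onCell 0 536870912 1610612736 536870912 33554432 16777216
    (rowFK 1 true true false .pnn 2 1 3 (qsf 0 536870912 536870912 536870912 3) ndF0q2 ndF2q1 pcF3 Cut.none Ext.none)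

def k0_pm_213 : ∃ t, chk3 f_pm_213 t 1 1 1 = true :=
  ⟨(b (a (b (l 17817320) (l 4)) (b (a (l 18212696) (l 18195912)) (a (l 4) (l 18098400)))) (l 4)), by decide +kernel⟩

theorem c_pm_213 : CertF 0 536870912 536870912 536870912 33554432 16777216 true true false .pnn 2 1 3
    ndF0q2 ndF2q1 pcF3 Cut.none Ext.none :=
  certFK1 (fam := true) (s1 := true) (s2 := false) (a := 2) (b := 1) (c := 3) (cn := .pnn) (n1 := ndF0q2) (n2 := ndF2q1) (pc := pcF3) (cut := Cut.none) (xt := Ext.none) (P1 := 0) (W1 := 536870912) (P2 := 536870912) (W2 := 536870912) (P3 := 33554432) (W3 := 16777216)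
    rfl rfl rfl (fun _ => rfl) k0_pm_213

noncomputable def f_mm_001 : ℕ → ℕ → ℕ → ℕ → Bool := onCell 0 536870912 0 536870912 33554432 16777216
    (rowFK 0 true false false .up 0 0 1 (qsf 0 536870912 0 536870912 1) ndF0q0 ndF2q0 pcF1 Cut.none Ext.none)

def k0_mm_001 : ∃ t, chk3 f_mm_001 t 1 1 1 = true :=
  ⟨(l 4), by decide +kernel⟩

theorem c_mm_001 : CertF 0 536870912 0 536870912 33554432 16777216 true false false .up 0 0 1
    ndF0q0 ndF2q0 pcF1 Cut.none Ext.none :=
  certFK0 (fam := true) (s1 := false) (s2 := false) (a := 0) (b := 0) (c := 1) (cn := .up) (n1 := ndF0q0) (n2 := ndF2q0) (pc := pcF1) (cut := Cut.none) (xt := Ext.none) (P1 := 0) (W1 := 536870912) (P2 := 0) (W2 := 536870912) (P3 := 33554432) (W3 := 16777216)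
    rfl rfl rfl k0_mm_001

noncomputable def f_mm_011 : ℕ → ℕ → ℕ → ℕ → Bool := onCell 0 536870912 536870912 536870912 33554432 16777216
    (rowFK 0 true false false .pnn 0 1 1 (qsf 0 536870912 536870912 536870912 1) ndF0q0 ndF2q1 pcF1 Cut.none Ext.none)

def k0_mm_011 : ∃ t, chk3 f_mm_011 t 1 1 1 = true :=
  ⟨(l 4), by decide +kernel⟩

theorem c_mm_011 : CertF 0 536870912 536870912 536870912 33554432 16777216 true false false .pnn 0 1 1
    ndF0q0 ndF2q1 pcF1 Cut.none Ext.none :=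
  certFK0 (fam := true) (s1 := false) (s2 := false) (a := 0) (b := 1) (c := 1) (cn := .pnn) (n1 := ndF0q0) (n2 := ndF2q1) (pc := pcF1) (cut := Cut.none) (xt := Ext.none) (P1 := 0) (W1 := 536870912) (P2 := 536870912) (W2 := 536870912) (P3 := 33554432) (W3 := 16777216)
    rfl rfl rfl k0_mm_011

noncomputable def f_mm_012 : ℕ → ℕ → ℕ → ℕ → Bool := onCell 0 536870912 536870912 536870912 33554432 16777216
    (rowFK 0 true false false .pnp 0 1 2 (qsf 0 536870912 536870912 536870912 2) ndF0q0 ndF2q1 pcF2 Cut.none Ext.none)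

def k0_mm_012 : ∃ t, chk3 f_mm_012 t 1 1 1 = true :=
  ⟨(l 4), by decide +kernel⟩

theorem c_mm_012 : CertF 0 536870912 536870912 536870912 33554432 16777216 true false false .pnp 0 1 2
    ndF0q0 ndF2q1 pcF2 Cut.none Ext.none :=
  certFK0 (fam := true) (s1 := false) (s2 := false) (a := 0) (b := 1) (c := 2) (cn := .pnp) (n1 := ndF0q0) (n2 := ndF2q1) (pc := pcF2) (cut := Cut.none) (xt := Ext.none) (P1 := 0) (W1 := 536870912) (P2 := 536870912) (W2 := 536870912) (P3 := 33554432) (W3 := 16777216)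
    rfl rfl rfl k0_mm_012

noncomputable def f_mm_022_a : ℕ → ℕ → ℕ → ℕ → Bool := onCell 0 536870912 0 536870912 33554432 16777216
    (rowFK 0 true false false .pp 0 2 2 (qsf 0 536870912 0 536870912 2) ndF0q0 ndF2q2a pcF2 Cut.none Ext.none)

def k0_mm_022_a : ∃ t, chk3 f_mm_022_a t 1 1 1 = true :=
  ⟨(l 5), by decide +kernel⟩

theorem c_mm_022_a : CertF 0 536870912 0 536870912 33554432 16777216 true false false .pp 0 2 2
    ndF0q0 ndF2q2a pcF2 Cut.none Ext.none :=
  certFK0 (fam := true) (s1 := false) (s2 := false) (a := 0) (b := 2) (c := 2) (cn := .pp) (n1 := ndF0q0) (n2 := ndF2q2a) (pc := pcF2) (cut := Cut.none) (xt := Ext.none) (P1 := 0) (W1 := 536870912) (P2 := 0) (W2 := 536870912) (P3 := 33554432) (W3 := 16777216)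
    rfl rfl rfl k0_mm_022_a

noncomputable def f_mm_022_b : ℕ → ℕ → ℕ → ℕ → Bool := onCell 0 536870912 1239849684 370763052 33554432 16777216
    (rowFK 0 true false false .pp 0 2 2 (qsf 0 536870912 1239849684 370763052 2) ndF0q0 ndF2q2b pcF2 Cut.none Ext.none)

def k0_mm_022_b : ∃ t, chk3 f_mm_022_b t 1 1 1 = true :=
  ⟨(l 4), by decide +kernel⟩

theorem c_mm_022_b : CertF 0 536870912 1239849684 370763052 33554432 16777216 true false false .pp 0 2 2
    ndF0q0 ndF2q2b pcF2 Cut.none Ext.none :=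
  certFK0 (fam := true) (s1 := false) (s2 := false) (a := 0) (b := 2) (c := 2) (cn := .pp) (n1 := ndF0q0) (n2 := ndF2q2b) (pc := pcF2) (cut := Cut.none) (xt := Ext.none) (P1 := 0) (W1 := 536870912) (P2 := 1239849684) (W2 := 370763052) (P3 := 33554432) (W3 := 16777216)
    rfl rfl rfl k0_mm_022_b

noncomputable def f_mm_023_a : ℕ → ℕ → ℕ → ℕ → Bool := onCell 0 536870912 0 536870912 33554432 16777216
    (rowFK 0 true false false .up 0 2 3 (qsf 0 536870912 0 536870912 3) ndF0q0 ndF2q2a pcF3 Cut.none Ext.none)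

def k0_mm_023_a : ∃ t, chk3 f_mm_023_a t 1 1 1 = true :=
  ⟨(l 5), by decide +kernel⟩

theorem c_mm_023_a : CertF 0 536870912 0 536870912 33554432 16777216 true false false .up 0 2 3
    ndF0q0 ndF2q2a pcF3 Cut.none Ext.none :=
  certFK0 (fam := true) (s1 := false) (s2 := false) (a := 0) (b := 2) (c := 3) (cn := .up) (n1 := ndF0q0) (n2 := ndF2q2a) (pc := pcF3) (cut := Cut.none) (xt := Ext.none) (P1 := 0) (W1 := 536870912) (P2 := 0) (W2 := 536870912) (P3 := 33554432) (W3 := 16777216)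
    rfl rfl rfl k0_mm_023_a

noncomputable def f_mm_023_b : ℕ → ℕ → ℕ → ℕ → Bool := onCell 0 536870912 1239849684 370763052 33554432 16777216
    (rowFK 0 true false false .up 0 2 3 (qsf 0 536870912 1239849684 370763052 3) ndF0q0 ndF2q2b pcF3 Cut.none Ext.none)

def k0_mm_023_b : ∃ t, chk3 f_mm_023_b t 1 1 1 = true :=
  ⟨(l 4), by decide +kernel⟩

theorem c_mm_023_b : CertF 0 536870912 1239849684 370763052 33554432 16777216 true false false .up 0 2 3
    ndF0q0 ndF2q2b pcF3 Cut.none Ext.none :=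
  certFK0 (fam := true) (s1 := false) (s2 := false) (a := 0) (b := 2) (c := 3) (cn := .up) (n1 := ndF0q0) (n2 := ndF2q2b) (pc := pcF3) (cut := Cut.none) (xt := Ext.none) (P1 := 0) (W1 := 536870912) (P2 := 1239849684) (W2 := 370763052) (P3 := 33554432) (W3 := 16777216)
    rfl rfl rfl k0_mm_023_b

noncomputable def f_mm_033 : ℕ → ℕ → ℕ → ℕ → Bool := onCell 0 536870912 1610612736 536870912 33554432 16777216
    (rowFK 0 true false false .pnn 0 3 3 (qsf 0 536870912 1610612736 536870912 3) ndF0q0 ndF2q3 pcF3 Cut.none Ext.none)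

def k0_mm_033 : ∃ t, chk3 f_mm_033 t 1 1 1 = true :=
  ⟨(l 4), by decide +kernel⟩

theorem c_mm_033 : CertF 0 536870912 1610612736 536870912 33554432 16777216 true false false .pnn 0 3 3
    ndF0q0 ndF2q3 pcF3 Cut.none Ext.none :=
  certFK0 (fam := true) (s1 := false) (s2 := false) (a := 0) (b := 3) (c := 3) (cn := .pnn) (n1 := ndF0q0) (n2 := ndF2q3) (pc := pcF3) (cut := Cut.none) (xt := Ext.none) (P1 := 0) (W1 := 536870912) (P2 := 1610612736) (W2 := 536870912) (P3 := 33554432) (W3 := 16777216)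
    rfl rfl rfl k0_mm_033

noncomputable def cut_mm_101 : Cut := Cut.of [[⟨0, 1, 0, 33554432⟩, ⟨1, 0, 0, 33554432⟩, ⟨2, 1, 0, 33554432⟩]]

noncomputable def f_mm_101 : ℕ → ℕ → ℕ → ℕ → Bool := onCell 536870912 536870912 0 536870912 33554432 16777216
    (rowFK 0 true false false .npn 1 0 1 (qsf 536870912 536870912 0 536870912 1) ndF0q1 ndF2q0 pcF1 cut_mm_101 Ext.none)

def k0_mm_101 : ∃ t, chk3 f_mm_101 t 1 1 1 = true :=
  ⟨(a (l 4) (b (a (l 4) (b (a (l 4) (b (a (l 4) (a (l 4) (b (b (l 6) (l 4)) (l 2)))) (l 4))) (l 4))) (l 4))), by decide +kernel⟩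

theorem c_mm_101 : CertF 536870912 536870912 0 536870912 33554432 16777216 true false false .npn 1 0 1
    ndF0q1 ndF2q0 pcF1 cut_mm_101 Ext.none :=
  certFK0 (fam := true) (s1 := false) (s2 := false) (a := 1) (b := 0) (c := 1) (cn := .npn) (n1 := ndF0q1) (n2 := ndF2q0) (pc := pcF1) (cut := cut_mm_101) (xt := Ext.none) (P1 := 536870912) (W1 := 536870912) (P2 := 0) (W2 := 536870912) (P3 := 33554432) (W3 := 16777216)
    rfl rfl rfl k0_mm_101

noncomputable def cut_mm_102 : Cut := Cut.of [[⟨0, 1, 0, 33554432⟩, ⟨1, 0, 0, 33554432⟩, ⟨2, 1, 0, 33554432⟩]]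

noncomputable def f_mm_102 : ℕ → ℕ → ℕ → ℕ → Bool := onCell 536870912 536870912 0 536870912 33554432 16777216
    (rowFK 0 true false false .npp 1 0 2 (qsf 536870912 536870912 0 536870912 2) ndF0q1 ndF2q0 pcF2 cut_mm_102 Ext.none)

def k0_mm_102 : ∃ t, chk3 f_mm_102 t 1 1 1 = true :=
  ⟨(a (l 4) (b (a (l 4) (b (a (l 4) (b (a (l 4) (a (l 4) (b (b (l 6) (l 4)) (l 4)))) (l 4))) (l 4))) (l 4))), by decide +kernel⟩

theorem c_mm_102 : CertF 536870912 536870912 0 536870912 33554432 16777216 true false false .npp 1 0 2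
    ndF0q1 ndF2q0 pcF2 cut_mm_102 Ext.none :=
  certFK0 (fam := true) (s1 := false) (s2 := false) (a := 1) (b := 0) (c := 2) (cn := .npp) (n1 := ndF0q1) (n2 := ndF2q0) (pc := pcF2) (cut := cut_mm_102) (xt := Ext.none) (P1 := 536870912) (W1 := 536870912) (P2 := 0) (W2 := 536870912) (P3 := 33554432) (W3 := 16777216)
    rfl rfl rfl k0_mm_102

noncomputable def f_mm_112 : ℕ → ℕ → ℕ → ℕ → Bool := onCell 536870912 536870912 536870912 536870912 33554432 16777216
    (rowFK 0 true false false .dn 1 1 2 (qsf 536870912 536870912 536870912 536870912 2) ndF0q1 ndF2q1 pcF2 Cut.none Ext.none)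

def k0_mm_112 : ∃ t, chk3 f_mm_112 t 1 1 1 = true :=
  ⟨(l 4), by decide +kernel⟩

theorem c_mm_112 : CertF 536870912 536870912 536870912 536870912 33554432 16777216 true false false .dn 1 1 2
    ndF0q1 ndF2q1 pcF2 Cut.none Ext.none :=
  certFK0 (fam := true) (s1 := false) (s2 := false) (a := 1) (b := 1) (c := 2) (cn := .dn) (n1 := ndF0q1) (n2 := ndF2q1) (pc := pcF2) (cut := Cut.none) (xt := Ext.none) (P1 := 536870912) (W1 := 536870912) (P2 := 536870912) (W2 := 536870912) (P3 := 33554432) (W3 := 16777216)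
    rfl rfl rfl k0_mm_112

noncomputable def f_mm_113 : ℕ → ℕ → ℕ → ℕ → Bool := onCell 536870912 536870912 536870912 536870912 33554432 16777216
    (rowFK 0 true false false .nn 1 1 3 (qsf 536870912 536870912 536870912 536870912 3) ndF0q1 ndF2q1 pcF3 Cut.none Ext.none)

def k0_mm_113 : ∃ t, chk3 f_mm_113 t 1 1 1 = true :=
  ⟨(l 4), by decide +kernel⟩

theorem c_mm_113 : CertF 536870912 536870912 536870912 536870912 33554432 16777216 true false false .nn 1 1 3
    ndF0q1 ndF2q1 pcF3 Cut.none Ext.none :=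
  certFK0 (fam := true) (s1 := false) (s2 := false) (a := 1) (b := 1) (c := 3) (cn := .nn) (n1 := ndF0q1) (n2 := ndF2q1) (pc := pcF3) (cut := Cut.none) (xt := Ext.none) (P1 := 536870912) (W1 := 536870912) (P2 := 536870912) (W2 := 536870912) (P3 := 33554432) (W3 := 16777216)
    rfl rfl rfl k0_mm_113

noncomputable def f_mm_123_a : ℕ → ℕ → ℕ → ℕ → Bool := onCell 536870912 536870912 0 536870912 33554432 16777216
    (rowFK 0 true false false .npn 1 2 3 (qsf 536870912 536870912 0 536870912 3) ndF0q1 ndF2q2a pcF3 Cut.none Ext.none)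

def k0_mm_123_a : ∃ t, chk3 f_mm_123_a t 1 1 1 = true :=
  ⟨(l 4), by decide +kernel⟩

theorem c_mm_123_a : CertF 536870912 536870912 0 536870912 33554432 16777216 true false false .npn 1 2 3
    ndF0q1 ndF2q2a pcF3 Cut.none Ext.none :=
  certFK0 (fam := true) (s1 := false) (s2 := false) (a := 1) (b := 2) (c := 3) (cn := .npn) (n1 := ndF0q1) (n2 := ndF2q2a) (pc := pcF3) (cut := Cut.none) (xt := Ext.none) (P1 := 536870912) (W1 := 536870912) (P2 := 0) (W2 := 536870912) (P3 := 33554432) (W3 := 16777216)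
    rfl rfl rfl k0_mm_123_a

noncomputable def f_mm_123_b : ℕ → ℕ → ℕ → ℕ → Bool := onCell 536870912 536870912 1239849684 370763052 33554432 16777216
    (rowFK 0 true false false .npn 1 2 3 (qsf 536870912 536870912 1239849684 370763052 3) ndF0q1 ndF2q2b pcF3 Cut.none Ext.none)

def k0_mm_123_b : ∃ t, chk3 f_mm_123_b t 1 1 1 = true :=
  ⟨(l 4), by decide +kernel⟩

theorem c_mm_123_b : CertF 536870912 536870912 1239849684 370763052 33554432 16777216 true false false .npn 1 2 3
    ndF0q1 ndF2q2b pcF3 Cut.none Ext.none :=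
  certFK0 (fam := true) (s1 := false) (s2 := false) (a := 1) (b := 2) (c := 3) (cn := .npn) (n1 := ndF0q1) (n2 := ndF2q2b) (pc := pcF3) (cut := Cut.none) (xt := Ext.none) (P1 := 536870912) (W1 := 536870912) (P2 := 1239849684) (W2 := 370763052) (P3 := 33554432) (W3 := 16777216)
    rfl rfl rfl k0_mm_123_b

noncomputable def f_mm_133 : ℕ → ℕ → ℕ → ℕ → Bool := onCell 536870912 536870912 1610612736 536870912 33554432 16777216
    (rowFK 0 true false false .dn 1 3 3 (qsf 536870912 536870912 1610612736 536870912 3) ndF0q1 ndF2q3 pcF3 Cut.none Ext.none)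

def k0_mm_133 : ∃ t, chk3 f_mm_133 t 1 1 1 = true :=
  ⟨(l 4), by decide +kernel⟩

theorem c_mm_133 : CertF 536870912 536870912 1610612736 536870912 33554432 16777216 true false false .dn 1 3 3
    ndF0q1 ndF2q3 pcF3 Cut.none Ext.none :=
  certFK0 (fam := true) (s1 := false) (s2 := false) (a := 1) (b := 3) (c := 3) (cn := .dn) (n1 := ndF0q1) (n2 := ndF2q3) (pc := pcF3) (cut := Cut.none) (xt := Ext.none) (P1 := 536870912) (W1 := 536870912) (P2 := 1610612736) (W2 := 536870912) (P3 := 33554432) (W3 := 16777216)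
    rfl rfl rfl k0_mm_133

noncomputable def cut_mm_202 : Cut := Cut.of [[⟨0, 1, 0, 33554432⟩, ⟨1, 0, 0, 33554432⟩, ⟨2, 1, 0, 33554432⟩]]

noncomputable def f_mm_202 : ℕ → ℕ → ℕ → ℕ → Bool := onCell 0 536870912 0 536870912 33554432 16777216
    (rowFK 0 true false false .pp 2 0 2 (qsf 0 536870912 0 536870912 2) ndF0q2 ndF2q0 pcF2 cut_mm_202 Ext.none)

def k0_mm_202 : ∃ t, chk3 f_mm_202 t 1 1 1 = true :=
  ⟨(b (a (b (b (a (l 19190408) (b (l 19301664) (l 18956280))) (a (l 18747864) (l 18580936))) (b (l 35135297799) (l 40503752199))) (b (a (b (a (b (l 19033056) (l 18682248)) (b (b (a (l 18881696) (b (l 18665744) (l 18592640))) (l 18577368)) (l 18291768))) (a (l 18259304) (l 17845080))) (b (a (a (b (b (b (b (a (l 18389264) (b (l 18001584) (l 18125688))) (l 18267200)) (l 18246560)) (l 18145592)) (l 17874112)) (b (b (a (b (b (b (c (l 17995096) (a (l 17541920) (b (l 17073160) (l 17312544)))) (l 17770392)) (l 17825528)) (l 17875216)) (b (b (b (a (b (c (l 17532840)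 (l 16733824)) (l 17281512)) (b (a (c (l 17256744) (l 16742504)) (l 16745200)) (l 17010752))) (l 17122656)) (l 17398024)) (l 17541816))) (l 17718808)) (l 17607000))) (b (a (b (b (b (b (a (b (a (a (l 16747048) (l 16749048)) (b (a (l 16750832) (l 16752720)) (l 16752064))) (l 16750536)) (a (b (l 6) (l 16756296)) (l 6))) (a (l 16751464) (l 16759136))) (a (l 16795696) (l 16760976))) (a (l 17114872) (l 16790680))) (l 16934664)) (b (a (b (l 6) (l 16834272)) (l 6)) (l 4))) (l 4))) (l 4))) (l 4))) (a (l 4) (l 4))), by decide +kernel⟩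

theorem c_mm_202 : CertF 0 536870912 0 536870912 33554432 16777216 true false false .pp 2 0 2
    ndF0q2 ndF2q0 pcF2 cut_mm_202 Ext.none :=
  certFK0 (fam := true) (s1 := false) (s2 := false) (a := 2) (b := 0) (c := 2) (cn := .pp) (n1 := ndF0q2) (n2 := ndF2q0) (pc := pcF2) (cut := cut_mm_202) (xt := Ext.none) (P1 := 0) (W1 := 536870912) (P2 := 0) (W2 := 536870912) (P3 := 33554432) (W3 := 16777216)
    rfl rfl rfl k0_mm_202

noncomputable def f_mm_203 : ℕ → ℕ → ℕ → ℕ → Bool := onCell 0 536870912 1610612736 536870912 33554432 16777216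
    (rowFK 1 true false false .up 2 0 3 (qsf 0 536870912 0 536870912 3) ndF0q2 ndF2q0 pcF3 Cut.none Ext.none)

def k0_mm_203 : ∃ t, chk3 f_mm_203 t 1 1 1 = true :=
  ⟨(l 4), by decide +kernel⟩

theorem c_mm_203 : CertF 0 536870912 0 536870912 33554432 16777216 true false false .up 2 0 3
    ndF0q2 ndF2q0 pcF3 Cut.none Ext.none :=
  certFK1 (fam := true) (s1 := false) (s2 := false) (a := 2) (b := 0) (c := 3) (cn := .up) (n1 := ndF0q2) (n2 := ndF2q0) (pc := pcF3) (cut := Cut.none) (xt := Ext.none) (P1 := 0) (W1 := 536870912) (P2 := 0) (W2 := 536870912) (P3 := 33554432) (W3 := 16777216)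
    rfl rfl rfl (fun _ => rfl) k0_mm_203

noncomputable def f_mm_213 : ℕ → ℕ → ℕ → ℕ → Bool := onCell 0 536870912 536870912 536870912 33554432 16777216
    (rowFK 0 true false false .pnn 2 1 3 (qsf 0 536870912 536870912 536870912 3) ndF0q2 ndF2q1 pcF3 Cut.none Ext.none)

def k0_mm_213 : ∃ t, chk3 f_mm_213 t 1 1 1 = true :=
  ⟨(l 4), by decide +kernel⟩

theorem c_mm_213 : CertF 0 536870912 536870912 536870912 33554432 16777216 true false false .pnn 2 1 3
    ndF0q2 ndF2q1 pcF3 Cut.none Ext.none :=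
  certFK0 (fam := true) (s1 := false) (s2 := false) (a := 2) (b := 1) (c := 3) (cn := .pnn) (n1 := ndF0q2) (n2 := ndF2q1) (pc := pcF3) (cut := Cut.none) (xt := Ext.none) (P1 := 0) (W1 := 536870912) (P2 := 536870912) (W2 := 536870912) (P3 := 33554432) (W3 := 16777216)
    rfl rfl rfl k0_mm_213

end Pool.Agent.Strip051.G.I1_32_3_64.Tab.C.FA02

namespace Pool.Agent.Strip051.G.I1_32_3_64.Tab.C.FA03

open Pool.Agent.Strip051.PB Pool.Agent.Strip051.PB.T
open Pool.Agent.Strip051.G.I1_32_3_64.Tab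

noncomputable def f_pp_001 : ℕ → ℕ → ℕ → ℕ → Bool := onCell 0 536870912 0 536870912 33554432 16777216
    (rowFK 0 true true true .up 0 0 1 (qsf 0 536870912 0 536870912 1) ndF0q0 ndF3q0 pcF1 Cut.none Ext.none)

def k0_pp_001 : ∃ t, chk3 f_pp_001 t 1 1 1 = true :=
  ⟨(l 4), by decide +kernel⟩

theorem c_pp_001 : CertF 0 536870912 0 536870912 33554432 16777216 true true true .up 0 0 1
    ndF0q0 ndF3q0 pcF1 Cut.none Ext.none :=
  certFK0 (fam := true) (s1 := true) (s2 := true) (a := 0) (b := 0) (c := 1) (cn := .up) (n1 := ndF0q0) (n2 := ndF3q0) (pc := pcF1) (cut := Cut.none) (xt := Ext.none) (P1 := 0) (W1 := 536870912) (P2 := 0) (W2 := 536870912) (P3 := 33554432) (W3 := 16777216)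
    rfl rfl rfl k0_pp_001

noncomputable def f_pp_011 : ℕ → ℕ → ℕ → ℕ → Bool := onCell 0 536870912 536870912 536870912 33554432 16777216
    (rowFK 0 true true true .pnn 0 1 1 (qsf 0 536870912 536870912 536870912 1) ndF0q0 ndF3q1 pcF1 Cut.none Ext.none)

def k0_pp_011 : ∃ t, chk3 f_pp_011 t 1 1 1 = true :=
  ⟨(l 4), by decide +kernel⟩

theorem c_pp_011 : CertF 0 536870912 536870912 536870912 33554432 16777216 true true true .pnn 0 1 1
    ndF0q0 ndF3q1 pcF1 Cut.none Ext.none :=
  certFK0 (fam := true) (s1 := true) (s2 := true) (a := 0) (b := 1) (c := 1) (cn := .pnn) (n1 := ndF0q0) (n2 := ndF3q1) (pc := pcF1) (cut := Cut.none) (xt := Ext.none) (P1 := 0) (W1 := 536870912) (P2 := 536870912) (W2 := 536870912) (P3 := 33554432) (W3 := 16777216)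
    rfl rfl rfl k0_pp_011

noncomputable def f_pp_012 : ℕ → ℕ → ℕ → ℕ → Bool := onCell 0 536870912 536870912 536870912 33554432 16777216
    (rowFK 0 true true true .pnp 0 1 2 (qsf 0 536870912 536870912 536870912 2) ndF0q0 ndF3q1 pcF2 Cut.none Ext.none)

def k0_pp_012 : ∃ t, chk3 f_pp_012 t 1 1 1 = true :=
  ⟨(l 4), by decide +kernel⟩

theorem c_pp_012 : CertF 0 536870912 536870912 536870912 33554432 16777216 true true true .pnp 0 1 2
    ndF0q0 ndF3q1 pcF2 Cut.none Ext.none :=
  certFK0 (fam := true) (s1 := true) (s2 := true) (a := 0) (b := 1) (c := 2) (cn := .pnp) (n1 := ndF0q0) (n2 := ndF3q1) (pc := pcF2) (cut := Cut.none) (xt := Ext.none) (P1 := 0) (W1 := 536870912) (P2 := 536870912) (W2 := 536870912) (P3 := 33554432) (W3 := 16777216)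
    rfl rfl rfl k0_pp_012

noncomputable def f_pp_022 : ℕ → ℕ → ℕ → ℕ → Bool := onCell 0 536870912 1073741824 536870912 33554432 16777216
    (rowFK 0 true true true .pp 0 2 2 (qsf 0 536870912 1073741824 536870912 2) ndF0q0 ndF3q2 pcF2 Cut.none Ext.none)

def k0_pp_022 : ∃ t, chk3 f_pp_022 t 1 1 1 = true :=
  ⟨(l 4), by decide +kernel⟩

theorem c_pp_022 : CertF 0 536870912 1073741824 536870912 33554432 16777216 true true true .pp 0 2 2
    ndF0q0 ndF3q2 pcF2 Cut.none Ext.none :=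
  certFK0 (fam := true) (s1 := true) (s2 := true) (a := 0) (b := 2) (c := 2) (cn := .pp) (n1 := ndF0q0) (n2 := ndF3q2) (pc := pcF2) (cut := Cut.none) (xt := Ext.none) (P1 := 0) (W1 := 536870912) (P2 := 1073741824) (W2 := 536870912) (P3 := 33554432) (W3 := 16777216)
    rfl rfl rfl k0_pp_022

noncomputable def f_pp_023 : ℕ → ℕ → ℕ → ℕ → Bool := onCell 0 536870912 1073741824 536870912 33554432 16777216
    (rowFK 0 true true true .up 0 2 3 (qsf 0 536870912 1073741824 536870912 3) ndF0q0 ndF3q2 pcF3 Cut.none Ext.none)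

def k0_pp_023 : ∃ t, chk3 f_pp_023 t 1 1 1 = true :=
  ⟨(l 4), by decide +kernel⟩

theorem c_pp_023 : CertF 0 536870912 1073741824 536870912 33554432 16777216 true true true .up 0 2 3
    ndF0q0 ndF3q2 pcF3 Cut.none Ext.none :=
  certFK0 (fam := true) (s1 := true) (s2 := true) (a := 0) (b := 2) (c := 3) (cn := .up) (n1 := ndF0q0) (n2 := ndF3q2) (pc := pcF3) (cut := Cut.none) (xt := Ext.none) (P1 := 0) (W1 := 536870912) (P2 := 1073741824) (W2 := 536870912) (P3 := 33554432) (W3 := 16777216)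
    rfl rfl rfl k0_pp_023

noncomputable def f_pp_033 : ℕ → ℕ → ℕ → ℕ → Bool := onCell 0 536870912 0 1230186008 33554432 16777216
    (rowFK 0 true true true .pnn 0 3 3 (qsf 0 536870912 0 1230186008 3) ndF0q0 ndF3q3 pcF3 Cut.none Ext.none)

def k0_pp_033 : ∃ t, chk3 f_pp_033 t 1 1 1 = true :=
  ⟨(b (l 4) (l 4)), by decide +kernel⟩

theorem c_pp_033 : CertF 0 536870912 0 1230186008 33554432 16777216 true true true .pnn 0 3 3
    ndF0q0 ndF3q3 pcF3 Cut.none Ext.none :=
  certFK0 (fam := true) (s1 := true) (s2 := true) (a := 0) (b := 3) (c := 3) (cn := .pnn) (n1 := ndF0q0) (n2 := ndF3q3) (pc := pcF3) (cut := Cut.none) (xt := Ext.none) (P1 := 0) (W1 := 536870912) (P2 := 0) (W2 := 1230186008) (P3 := 33554432) (W3 := 16777216)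
    rfl rfl rfl k0_pp_033

noncomputable def f_pp_101 : ℕ → ℕ → ℕ → ℕ → Bool := onCell 536870912 536870912 0 536870912 33554432 16777216
    (rowFK 0 true true true .npn 1 0 1 (qsf 536870912 536870912 0 536870912 1) ndF0q1 ndF3q0 pcF1 Cut.none Ext.none)

def k0_pp_101 : ∃ t, chk3 f_pp_101 t 1 1 1 = true :=
  ⟨(l 4), by decide +kernel⟩

theorem c_pp_101 : CertF 536870912 536870912 0 536870912 33554432 16777216 true true true .npn 1 0 1
    ndF0q1 ndF3q0 pcF1 Cut.none Ext.none :=
  certFK0 (fam := true) (s1 := true) (s2 := true) (a := 1) (b := 0) (c := 1) (cn := .npn) (n1 := ndF0q1) (n2 := ndF3q0) (pc := pcF1) (cut := Cut.none) (xt := Ext.none) (P1 := 536870912) (W1 := 536870912) (P2 := 0) (W2 := 536870912) (P3 := 33554432) (W3 := 16777216)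
    rfl rfl rfl k0_pp_101

noncomputable def f_pp_102 : ℕ → ℕ → ℕ → ℕ → Bool := onCell 536870912 536870912 0 536870912 33554432 16777216
    (rowFK 0 true true true .npp 1 0 2 (qsf 536870912 536870912 0 536870912 2) ndF0q1 ndF3q0 pcF2 Cut.none Ext.none)

def k0_pp_102 : ∃ t, chk3 f_pp_102 t 1 1 1 = true :=
  ⟨(l 4), by decide +kernel⟩

theorem c_pp_102 : CertF 536870912 536870912 0 536870912 33554432 16777216 true true true .npp 1 0 2
    ndF0q1 ndF3q0 pcF2 Cut.none Ext.none :=
  certFK0 (fam := true) (s1 := true) (s2 := true) (a := 1) (b := 0) (c := 2) (cn := .npp) (n1 := ndF0q1) (n2 := ndF3q0) (pc := pcF2) (cut := Cut.none) (xt := Ext.none) (P1 := 536870912) (W1 := 536870912) (P2 := 0) (W2 := 536870912) (P3 := 33554432) (W3 := 16777216)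
    rfl rfl rfl k0_pp_102

noncomputable def f_pp_112 : ℕ → ℕ → ℕ → ℕ → Bool := onCell 536870912 536870912 536870912 536870912 33554432 16777216
    (rowFK 0 true true true .dn 1 1 2 (qsf 536870912 536870912 536870912 536870912 2) ndF0q1 ndF3q1 pcF2 Cut.none Ext.none)

def k0_pp_112 : ∃ t, chk3 f_pp_112 t 1 1 1 = true :=
  ⟨(l 4), by decide +kernel⟩

theorem c_pp_112 : CertF 536870912 536870912 536870912 536870912 33554432 16777216 true true true .dn 1 1 2
    ndF0q1 ndF3q1 pcF2 Cut.none Ext.none :=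
  certFK0 (fam := true) (s1 := true) (s2 := true) (a := 1) (b := 1) (c := 2) (cn := .dn) (n1 := ndF0q1) (n2 := ndF3q1) (pc := pcF2) (cut := Cut.none) (xt := Ext.none) (P1 := 536870912) (W1 := 536870912) (P2 := 536870912) (W2 := 536870912) (P3 := 33554432) (W3 := 16777216)
    rfl rfl rfl k0_pp_112

noncomputable def f_pp_113 : ℕ → ℕ → ℕ → ℕ → Bool := onCell 536870912 536870912 536870912 536870912 33554432 16777216
    (rowFK 0 true true true .nn 1 1 3 (qsf 536870912 536870912 536870912 536870912 3) ndF0q1 ndF3q1 pcF3 Cut.none Ext.none)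

def k0_pp_113 : ∃ t, chk3 f_pp_113 t 1 1 1 = true :=
  ⟨(l 4), by decide +kernel⟩

theorem c_pp_113 : CertF 536870912 536870912 536870912 536870912 33554432 16777216 true true true .nn 1 1 3
    ndF0q1 ndF3q1 pcF3 Cut.none Ext.none :=
  certFK0 (fam := true) (s1 := true) (s2 := true) (a := 1) (b := 1) (c := 3) (cn := .nn) (n1 := ndF0q1) (n2 := ndF3q1) (pc := pcF3) (cut := Cut.none) (xt := Ext.none) (P1 := 536870912) (W1 := 536870912) (P2 := 536870912) (W2 := 536870912) (P3 := 33554432) (W3 := 16777216)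
    rfl rfl rfl k0_pp_113

noncomputable def f_pp_123 : ℕ → ℕ → ℕ → ℕ → Bool := onCell 536870912 536870912 1073741824 536870912 33554432 16777216
    (rowFK 0 true true true .npn 1 2 3 (qsf 536870912 536870912 1073741824 536870912 3) ndF0q1 ndF3q2 pcF3 Cut.none Ext.none)

def k0_pp_123 : ∃ t, chk3 f_pp_123 t 1 1 1 = true :=
  ⟨(l 4), by decide +kernel⟩

theorem c_pp_123 : CertF 536870912 536870912 1073741824 536870912 33554432 16777216 true true true .npn 1 2 3
    ndF0q1 ndF3q2 pcF3 Cut.none Ext.none :=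
  certFK0 (fam := true) (s1 := true) (s2 := true) (a := 1) (b := 2) (c := 3) (cn := .npn) (n1 := ndF0q1) (n2 := ndF3q2) (pc := pcF3) (cut := Cut.none) (xt := Ext.none) (P1 := 536870912) (W1 := 536870912) (P2 := 1073741824) (W2 := 536870912) (P3 := 33554432) (W3 := 16777216)
    rfl rfl rfl k0_pp_123

noncomputable def f_pp_133 : ℕ → ℕ → ℕ → ℕ → Bool := onCell 536870912 536870912 0 1230186008 33554432 16777216
    (rowFK 0 true true true .dn 1 3 3 (qsf 536870912 536870912 0 1230186008 3) ndF0q1 ndF3q3 pcF3 Cut.none Ext.none)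

def k0_pp_133 : ∃ t, chk3 f_pp_133 t 1 1 1 = true :=
  ⟨(l 4), by decide +kernel⟩

theorem c_pp_133 : CertF 536870912 536870912 0 1230186008 33554432 16777216 true true true .dn 1 3 3
    ndF0q1 ndF3q3 pcF3 Cut.none Ext.none :=
  certFK0 (fam := true) (s1 := true) (s2 := true) (a := 1) (b := 3) (c := 3) (cn := .dn) (n1 := ndF0q1) (n2 := ndF3q3) (pc := pcF3) (cut := Cut.none) (xt := Ext.none) (P1 := 536870912) (W1 := 536870912) (P2 := 0) (W2 := 1230186008) (P3 := 33554432) (W3 := 16777216)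
    rfl rfl rfl k0_pp_133

noncomputable def f_pp_202 : ℕ → ℕ → ℕ → ℕ → Bool := onCell 0 536870912 0 536870912 33554432 16777216
    (rowFK 0 true true true .pp 2 0 2 (qsf 0 536870912 0 536870912 2) ndF0q2 ndF3q0 pcF2 Cut.none Ext.none)

def k0_pp_202 : ∃ t, chk3 f_pp_202 t 1 1 1 = true :=
  ⟨(l 5), by decide +kernel⟩

theorem c_pp_202 : CertF 0 536870912 0 536870912 33554432 16777216 true true true .pp 2 0 2
    ndF0q2 ndF3q0 pcF2 Cut.none Ext.none :=
  certFK0 (fam := true) (s1 := true) (s2 := true) (a := 2) (b := 0) (c := 2) (cn := .pp) (n1 := ndF0q2) (n2 := ndF3q0) (pc := pcF2) (cut := Cut.none) (xt := Ext.none) (P1 := 0) (W1 := 536870912) (P2 := 0) (W2 := 536870912) (P3 := 33554432) (W3 := 16777216)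
    rfl rfl rfl k0_pp_202

noncomputable def f_pp_203 : ℕ → ℕ → ℕ → ℕ → Bool := onCell 0 536870912 0 536870912 33554432 16777216
    (rowFK 0 true true true .up 2 0 3 (qsf 0 536870912 0 536870912 3) ndF0q2 ndF3q0 pcF3 Cut.none Ext.none)

def k0_pp_203 : ∃ t, chk3 f_pp_203 t 1 1 1 = true :=
  ⟨(l 5), by decide +kernel⟩

theorem c_pp_203 : CertF 0 536870912 0 536870912 33554432 16777216 true true true .up 2 0 3
    ndF0q2 ndF3q0 pcF3 Cut.none Ext.none :=
  certFK0 (fam := true) (s1 := true) (s2 := true) (a := 2) (b := 0) (c := 3) (cn := .up) (n1 := ndF0q2) (n2 := ndF3q0) (pc := pcF3) (cut := Cut.none) (xt := Ext.none) (P1 := 0) (W1 := 536870912) (P2 := 0) (W2 := 536870912) (P3 := 33554432) (W3 := 16777216)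
    rfl rfl rfl k0_pp_203

noncomputable def f_pp_213 : ℕ → ℕ → ℕ → ℕ → Bool := onCell 0 536870912 536870912 536870912 33554432 16777216
    (rowFK 0 true true true .pnn 2 1 3 (qsf 0 536870912 536870912 536870912 3) ndF0q2 ndF3q1 pcF3 Cut.none Ext.none)

def k0_pp_213 : ∃ t, chk3 f_pp_213 t 1 1 1 = true :=
  ⟨(l 4), by decide +kernel⟩

theorem c_pp_213 : CertF 0 536870912 536870912 536870912 33554432 16777216 true true true .pnn 2 1 3
    ndF0q2 ndF3q1 pcF3 Cut.none Ext.none :=
  certFK0 (fam := true) (s1 := true) (s2 := true) (a := 2) (b := 1) (c := 3) (cn := .pnn) (n1 := ndF0q2) (n2 := ndF3q1) (pc := pcF3) (cut := Cut.none) (xt := Ext.none) (P1 := 0) (W1 := 536870912) (P2 := 536870912) (W2 := 536870912) (P3 := 33554432) (W3 := 16777216)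
    rfl rfl rfl k0_pp_213

noncomputable def f_pm_001 : ℕ → ℕ → ℕ → ℕ → Bool := onCell 0 536870912 536870912 536870912 33554432 16777216
    (rowFK 1 true true false .up 0 0 1 (qsf 0 536870912 0 536870912 1) ndF0q0 ndF3q0 pcF1 Cut.none Ext.none)

def k0_pm_001 : ∃ t, chk3 f_pm_001 t 1 1 1 = true :=
  ⟨(b (l 3) (b (l 3) (a (l 2) (b (a (b (l 3) (l 2)) (a (b (l 3) (c (c (c (b (l 350747327191) (l 18388720)) (l 18180144)) (l 17852792)) (c (l 17440928) (c (l 17686648) (l 200422692503))))) (c (c (b (c (l 254110762199) (l 363632465511)) (l 18650584)) (b (l 17946192) (l 17932632))) (c (l 161230827447) (c (l 196664190391) (b (l 402822754023) (l 17758368))))))) (a (l 2) (c (a (c (l 105868016759) (l 18076816)) (c (l 18764088) (l 18152864))) (c (l 107477062215) (a (l 134320672535) (l 17730032))))))))), by decide +kernel⟩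

theorem c_pm_001 : CertF 0 536870912 0 536870912 33554432 16777216 true true false .up 0 0 1
    ndF0q0 ndF3q0 pcF1 Cut.none Ext.none :=
  certFK1 (fam := true) (s1 := true) (s2 := false) (a := 0) (b := 0) (c := 1) (cn := .up) (n1 := ndF0q0) (n2 := ndF3q0) (pc := pcF1) (cut := Cut.none) (xt := Ext.none) (P1 := 0) (W1 := 536870912) (P2 := 0) (W2 := 536870912) (P3 := 33554432) (W3 := 16777216)
    rfl rfl rfl (fun _ => rfl) k0_pm_001

noncomputable def cut_pm_011 : Cut := Cut.of [[⟨0, 0, 0, 33554432⟩, ⟨1, 1, 0, 33554432⟩, ⟨2, 1, 0, 33554432⟩]]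

noncomputable def f_pm_011 : ℕ → ℕ → ℕ → ℕ → Bool := onCell 536870912 536870912 536870912 536870912 33554432 16777216
    (rowFK 2 true true false .pnn 0 1 1 (qsf 0 536870912 536870912 536870912 1) ndF0q0 ndF3q1 pcF1 cut_pm_011 Ext.none)

def k0_pm_011 : ∃ t, chk3 f_pm_011 t 2 1 1 = true :=
  ⟨(l 3), by decide +kernel⟩

def k1_pm_011 : ∃ t, chk3 f_pm_011 t 3 2 1 = true :=
  ⟨(a (l 3) (b (a (a (l 3) (b (l 227267584935) (a (l 3) (l 18147544)))) (a (b (l 18563272) (l 18545064)) (l 19060448))) (b (a (l 3) (a (a (l 146736055127) (l 18487808)) (l 18846032))) (a (l 3) (a (a (b (l 17789752) (l 3)) (b (l 18264976) (l 18073992))) (a (l 18486312) (l 18784984))))))), by decide +kernel⟩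

def k2_pm_011 : ∃ t, chk3 f_pm_011 t 6 3 1 = true :=
  ⟨(l 3), by decide +kernel⟩

def k3_pm_011 : ∃ t, chk3 f_pm_011 t 7 6 1 = true :=
  ⟨(a (l 3) (b (a (a (l 3) (b (l 17695392) (l 177873757479))) (a (b (l 18222056) (l 18026832)) (l 18493128))) (b (a (l 3) (a (l 82310597623) (l 18244288))) (a (l 3) (a (a (l 250887838135) (l 17674824)) (a (l 17936936) (l 18174544))))))), by decide +kernel⟩

def k4_pm_011 : ∃ t, chk3 f_pm_011 t 14 7 1 = true :=
  ⟨(l 3), by decide +kernel⟩

def k5_pm_011 : ∃ t, chk3 f_pm_011 t 30 7 1 = true :=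
  ⟨(l 3), by decide +kernel⟩

def k6_pm_011 : ∃ t, chk3 f_pm_011 t 31 14 1 = true :=
  ⟨(a (a (l 3) (b (b (l 17383784) (a (l 3) (l 17354232))) (b (l 3) (l 3)))) (b (a (b (l 17753592) (l 17543488)) (b (l 18015328) (l 17883304))) (a (a (b (b (l 17405456) (l 17244888)) (b (c (l 17236248) (l 76940834391)) (l 3))) (b (l 17418984) (b (l 17220864) (a (a (l 17028264) (l 17105160)) (l 17094360))))) (b (a (l 17647296) (l 17790336)) (b (a (l 17490712) (l 17633720)) (a (a (l 17226608) (l 17337696)) (a (l 17427584) (l 17475144)))))))), by decide +kernel⟩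

def k7_pm_011 : ∃ t, chk3 f_pm_011 t 62 15 1 = true :=
  ⟨(l 3), by decide +kernel⟩

def k8_pm_011 : ∃ t, chk3 f_pm_011 t 126 60 1 = true :=
  ⟨(a (l 3) (a (b (c (l 97878704967) (b (l 64055693927) (l 3))) (l 3)) (b (c (l 17105136) (b (l 17016336) (b (l 16962856) (a (l 16915648) (l 16957880))))) (c (b (l 16994552) (b (l 16978328) (l 54928849671))) (b (b (a (a (l 3) (l 16884400)) (a (l 16893888) (l 16903296))) (a (l 3) (b (l 4462850455) (a (l 16824968) (l 16853616))))) (a (l 3) (b (b (c (l 16936664) (a (l 10905225735) (l 16788528))) (a (l 3) (a (l 16785520) (l 16793744)))) (a (l 3) (a (b (l 4999618487) (l 3)) (b (l 16780376) (a (l 16779520) (l 16779224)))))))))))), by decide +kernel⟩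

def k9_pm_011 : ∃ t, chk3 f_pm_011 t 127 60 1 = true :=
  ⟨(b (b (a (a (l 17101064) (l 17186648)) (a (l 17271992) (l 17315080))) (c (a (l 17266304) (l 17437240)) (a (a (b (l 17051056) (l 16947616)) (b (l 17118056) (l 17031600))) (a (l 17014080) (b (l 17209296) (l 17114840)))))) (a (a (c (b (l 17149240) (b (l 17085944) (l 16958104))) (a (b (b (l 16896408) (c (l 16986968) (b (l 16879784) (l 16816560)))) (a (b (c (l 16940096) (b (l 16813864) (l 16782176))) (b (a (l 16786136) (l 16778120)) (b (l 16781800) (l 16778928)))) (b (b (l 16826112) (l 16804088)) (b (l 16781832) (a (l 16779352) (l 16781296)))))) (b (b (l 16936112) (a (l 16866648) (l 16874616))) (b (a (a (l 16798920) (l 16802088)) (a (l 16805256) (l 16808424))) (a (b (l 16786760) (l 16778960)) (a (l 16778328) (l 16780528))))))) (c (b (l 17240648) (b (l 17172088) (l 17060688))) (a (b (b (l 16954784) (c (l 17028096) (l 16828864))) (a (b (l 16792184) (a (l 16782720) (l 16784904))) (b (l 16819456) (l 16775072))))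 (b (b (l 16994368) (l 16881400)) (a (b (l 16825736) (l 16771552)) (b (l 16832000) (l 16775880))))))) (a (c (b (l 17310832) (l 17085072)) (b (b (l 16938256) (a (l 16897168) (l 16933816))) (a (a (b (l 16838248) (l 16780184)) (a (l 16776888) (l 16774288))) (b (l 16811824) (a (l 16809712) (l 16813952)))))) (a (c (l 17186464) (b (c (l 17138040) (l 16862064)) (b (l 16824136) (l 16778328)))) (c (l 17135664) (a (b (l 16970824) (l 16778136)) (b (l 16937328) (b (l 16881336) (l 16809696))))))))), by decide +kernel⟩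

def k10_pm_011 : ∃ t, chk3 f_pm_011 t 126 61 1 = true :=
  ⟨(b (l 3) (l 3)), by decide +kernel⟩

def k11_pm_011 : ∃ t, chk3 f_pm_011 t 254 244 1 = true :=
  ⟨(c (a (a (b (l 16898984) (a (l 30769531703) (a (l 16856992) (l 16884032)))) (b (l 16947584) (a (l 16851152) (l 16884208)))) (a (b (l 16996104) (a (l 16896272) (l 16929296))) (b (l 17044568) (l 16863448)))) (a (a (a (b (b (a (a (l 4462742247) (l 16778168)) (c (l 16824792) (l 16777760))) (a (b (l 16778232) (l 3)) (b (l 16778536) (l 16776760)))) (b (a (l 3) (b (l 16776824) (l 2852126535))) (l 3))) (b (a (b (l 16777960) (a (l 16776248) (l 16776616))) (b (l 16779328) (l 16775864))) (b (a (a (l 16776200) (l 16775864)) (l 16775360)) (a (b (l 16776064) (l 16776432)) (a (l 16775552) (l 16775216)))))) (a (b (b (l 16776128) (a (l 16777920) (l 16778656))) (a (b (l 16774736) (l 16774712)) (b (l 16774792) (l 16774040)))) (b (b (l 16773600) (l 16774512)) (b (l 16773552) (l 16773696))))) (a (a (b (a (l 16773048)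 (l 16774088)) (b (l 16774944) (l 16771720))) (a (b (l 16775120) (l 16770744)) (b (l 16776152) (l 16770096)))) (a (a (b (l 16777184) (l 16769448)) (b (l 16778200) (l 16768808))) (b (l 16774480) (c (l 16772184) (l 16767776))))))), by decide +kernel⟩

def k12_pm_011 : ∃ t, chk3 f_pm_011 t 254 245 1 = true :=
  ⟨(a (a (a (l 3) (b (b (a (b (l 2315254551) (l 3)) (b (l 16775416) (l 2852123527))) (a (l 3) (c (l 11442095607) (b (l 2315252919) (l 2852124055))))) (l 3))) (a (b (b (a (a (l 16774800) (l 16774432)) (l 16774528)) (a (b (l 16775184) (l 16774648)) (c (l 16812960) (l 16774104)))) (a (b (b (l 2852122775) (c (l 16777328) (l 2852122727))) (b (c (l 16785840) (l 3388993863)) (l 3))) (b (a (l 16774384) (l 16773560)) (b (l 16774376) (l 2852121463))))) (b (a (b (l 16775088) (l 16773912)) (b (l 16774336) (l 16773728))) (a (b (c (l 16791640) (l 16773480)) (a (l 16773880) (l 16773536))) (b (l 16772800) (l 16773032)))))) (a (a (b (b (c (l 16877472) (l 16771736)) (c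 (l 16808384) (l 16773080))) (a (b (l 16773104) (l 16772352)) (b (l 16773408) (l 16771680)))) (b (b (c (l 16887984) (l 16770424)) (l 16772400)) (b (l 16772552) (c (l 16772416) (l 16771840))))) (a (b (a (c (l 16839408) (l 16769464)) (l 16772544)) (b (l 16771816) (l 16771976))) (a (b (l 16771400) (l 16771552)) (b (l 16772872) (l 16771064)))))), by decide +kernel⟩

def k13_pm_011 : ∃ t, chk3 f_pm_011 t 254 246 1 = true :=
  ⟨(a (a (l 3) (a (b (b (a (l 3) (b (c (l 16774184) (l 2852121575)) (c (l 16777008) (l 2852121815)))) (l 3)) (l 3)) (b (b (a (b (l 16773760) (l 16773792)) (c (l 16774136) (l 16772936))) (a (b (l 2315249399) (c (l 16776256) (l 1778378711))) (a (l 16773336) (l 16773000)))) (b (a (b (c (l 16774656) (l 2852120151)) (l 3)) (b (l 16773232) (l 2315248455))) (a (l 3) (b (c (l 16773512) (l 1778377655)) (c (l 16773608) (l 2852119095)))))))) (a (a (b (a (b (l 16772416) (c (l 16773136) (l 16772336))) (b (l 16771736) (l 16771808))) (a (b (a (l 16772744)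 (l 16772400)) (b (l 16772648) (l 16772696))) (b (l 16772216) (a (l 16772152) (l 16771816))))) (b (b (a (l 16771064) (l 16770400)) (a (l 16771136) (l 16770464))) (a (b (l 16771208) (l 16771792)) (b (l 16770536) (l 16771936))))) (a (b (b (l 16771368) (c (l 16771288) (l 16769320))) (b (a (l 16769864) (l 16769200)) (a (l 16769952) (l 16769280)))) (b (b (l 16770712) (l 16770760)) (b (l 16771152) (a (l 16768608) (l 16767944))))))), by decide +kernel⟩

def k14_pm_011 : ∃ t, chk3 f_pm_011 t 254 247 1 = true :=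
  ⟨(a (l 3) (b (b (a (b (a (a (c (l 16772896) (l 16772624)) (l 16772064)) (c (l 16772480) (l 16772224))) (a (a (c (l 16772984) (l 2315247639)) (l 16772120)) (c (l 16771872) (l 16771624)))) (a (a (l 16771360) (l 16769368)) (a (l 16768704) (l 16768032)))) (a (a (a (b (c (l 16773576) (l 2852118103)) (l 3)) (b (l 16772184) (c (l 16772384) (l 16772792)))) (a (a (l 16772024) (l 16771352)) (a (l 16771008) (l 16770672)))) (a (b (l 16771096) (l 16771160)) (a (l 16768808) (l 16768136))))) (a (a (a (l 3) (b (b (c (l 16772800) (l 1241504839)) (a (l 3) (l 16772248))) (l 3))) (b (a (b (l 16771624) (l 16772352)) (a (l 16771472) (l 16770800))) (a (b (c (l 16772216) (l 16772320)) (c (l 2315246183) (l 1241503911))) (b (l 16771072) (l 16771808))))) (a (a (b (a (l 16770456) (l 16770112)) (a (l 16770920) (l 16770248))) (b (c (l 16771016) (l 16769496)) (a (l 16769904) (l 16769568)))) (b (a (l 16770232) (l 16768248)) (b (l 16769992) (l 16769568))))))), by decide +kernel⟩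

def k15_pm_011 : ∃ t, chk3 f_pm_011 t 255 122 1 = true :=
  ⟨(a (b (c (b (l 17001776) (a (l 16929384) (l 16953296))) (b (b (a (l 16777736) (l 16782888)) (a (l 16777016) (l 16769184))) (b (a (l 16769824) (l 16774976)) (a (l 16771208) (l 16773984))))) (a (a (b (a (l 16774336) (l 16775800)) (a (l 16770896) (l 16768096))) (b (c (l 16850584) (l 16765328)) (a (l 16767920) (l 16767728)))) (b (b (c (l 16924496) (l 16773960)) (l 16769896)) (a (a (l 16767536) (l 16767344)) (l 16769656))))) (b (b (b (c (l 17177056) (a (l 16787952) (l 16771936))) (c (l 17081976) (a (l 16771744) (l 16774192)))) (c (a (l 16998096) (l 16958904)) (a (a (l 16761712) (l 16760528)) (a (l 16759360) (l 16758208))))) (a (b (b (c (l 16945240) (l 16761064)) (l 16767496)) (a (l 16766600) (l 16766136))) (a (a (l 16769112) (l 16769720)) (a (l 16770312) (a (l 16770760) (l 16771056))))))), by decide +kernel⟩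

def k16_pm_011 : ∃ t, chk3 f_pm_011 t 255 123 1 = true :=
  ⟨(b (a (a (a (b (b (l 16772032) (l 16772072)) (b (l 16769512) (l 16769576))) (b (a (l 16771088) (l 16770440)) (b (l 16770832) (l 16770896)))) (b (a (a (l 16764568) (l 16763936)) (c (l 16770040) (l 16762880))) (a (a (l 16769896) (l 16769256)) (a (l 16763376) (l 16762744))))) (a (a (b (l 16769616) (a (l 16762120) (l 16761496))) (b (l 16765768) (a (l 16760872) (l 16760256)))) (a (b (l 16769792) (l 16764584)) (a (l 16767592) (a (l 16757968) (l 16768152)))))) (a (b (b (a (a (c (l 16769768) (l 16766936)) (l 16768344)) (a (l 16769672) (l 16763144))) (a (a (a (l 16767464) (l 16766800)) (l 16769744)) (a (l 16769752) (l 16763224)))) (a (a (b (a (l 16767576) (l 16766912)) (a (l 16767704) (l 16767032))) (b (a (l 16766248) (l 16765584)) (a (l 16766360) (l 16765696)))) (a (b (l 16769848) (l 16765696)) (b (l 16768552) (l 16768648))))) (a (b (a (a (l 16762232) (l 16761600)) (a (l 16760968) (l 16760352))) (a (a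 (l 16767632) (l 16761752)) (a (l 16761120) (l 16760488)))) (a (a (b (l 16759728) (l 16759864)) (b (l 16759112) (l 16759240))) (a (a (l 16758712) (l 16758400)) (b (l 16757896) (l 16763256))))))), by decide +kernel⟩

def k17_pm_011 : ∃ t, chk3 f_pm_011 t 63 31 1 = true :=
  ⟨(a (l 3) (b (b (b (b (b (b (b (b (b (a (a (l 3) (a (a (l 3) (c (l 16772336) (l 704633047))) (a (l 16771472) (l 16768792)))) (a (a (a (l 16767440) (l 16766104)) (l 16769368)) (a (l 16766784) (l 16769512)))) (l 6)) (l 6)) (l 6)) (l 6)) (l 6)) (l 6)) (l 6)) (l 6)) (l 6))), by decide +kernel⟩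

theorem s18_pm_011 : ∃ t, chk3 f_pm_011 t 255 61 1 = true := ex3_b k15_pm_011 k16_pm_011

theorem s19_pm_011 : ∃ t, chk3 f_pm_011 t 254 123 1 = true := ex3_b k13_pm_011 k14_pm_011

theorem s20_pm_011 : ∃ t, chk3 f_pm_011 t 254 122 1 = true := ex3_b k11_pm_011 k12_pm_011

theorem s21_pm_011 : ∃ t, chk3 f_pm_011 t 254 61 1 = true := ex3_b s20_pm_011 s19_pm_011

theorem s22_pm_011 : ∃ t, chk3 f_pm_011 t 127 61 1 = true := ex3_a s21_pm_011 s18_pm_011

theorem s23_pm_011 : ∃ t, chk3 f_pm_011 t 63 61 1 = true := ex3_a k10_pm_011 s22_pm_011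

theorem s24_pm_011 : ∃ t, chk3 f_pm_011 t 63 60 1 = true := ex3_a k8_pm_011 k9_pm_011

theorem s25_pm_011 : ∃ t, chk3 f_pm_011 t 63 30 1 = true := ex3_b s24_pm_011 s23_pm_011

theorem s26_pm_011 : ∃ t, chk3 f_pm_011 t 63 15 1 = true := ex3_b s25_pm_011 k17_pm_011

theorem s27_pm_011 : ∃ t, chk3 f_pm_011 t 31 15 1 = true := ex3_a k7_pm_011 s26_pm_011

theorem s28_pm_011 : ∃ t, chk3 f_pm_011 t 31 7 1 = true := ex3_b k6_pm_011 s27_pm_011

theorem s29_pm_011 : ∃ t, chk3 f_pm_011 t 15 7 1 = true := ex3_a k5_pm_011 s28_pm_011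

theorem s30_pm_011 : ∃ t, chk3 f_pm_011 t 7 7 1 = true := ex3_a k4_pm_011 s29_pm_011

theorem s31_pm_011 : ∃ t, chk3 f_pm_011 t 7 3 1 = true := ex3_b k3_pm_011 s30_pm_011

theorem s32_pm_011 : ∃ t, chk3 f_pm_011 t 3 3 1 = true := ex3_a k2_pm_011 s31_pm_011

theorem s33_pm_011 : ∃ t, chk3 f_pm_011 t 3 1 1 = true := ex3_b k1_pm_011 s32_pm_011

theorem s34_pm_011 : ∃ t, chk3 f_pm_011 t 1 1 1 = true := ex3_a k0_pm_011 s33_pm_011

theorem c_pm_011 : CertF 0 536870912 536870912 536870912 33554432 16777216 true true false .pnn 0 1 1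
    ndF0q0 ndF3q1 pcF1 cut_pm_011 Ext.none :=
  certFK2 (fam := true) (s1 := true) (s2 := false) (a := 0) (b := 1) (c := 1) (cn := .pnn) (n1 := ndF0q0) (n2 := ndF3q1) (pc := pcF1) (cut := cut_pm_011) (xt := Ext.none) (P1 := 0) (W1 := 536870912) (P2 := 536870912) (W2 := 536870912) (P3 := 33554432) (W3 := 16777216)
    rfl rfl rfl (fun _ => rfl) s34_pm_011

noncomputable def cut_pm_012 : Cut := Cut.of [[⟨0, 0, 0, 33554432⟩, ⟨1, 1, 0, 33554432⟩, ⟨2, 1, 0, 33554432⟩]]

noncomputable def f_pm_012 : ℕ → ℕ → ℕ → ℕ → Bool := onCell 1073741824 536870912 536870912 536870912 33554432 16777216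
    (rowFK 2 true true false .pnp 0 1 2 (qsf 0 536870912 536870912 536870912 2) ndF0q0 ndF3q1 pcF2 cut_pm_012 Ext.none)

def k0_pm_012 : ∃ t, chk3 f_pm_012 t 2 2 1 = true :=
  ⟨(a (a (a (a (a (b (l 19115016) (l 19087704)) (b (l 19155672) (l 19144224))) (b (l 19192304) (l 19217504))) (b (l 19269552) (l 19300944))) (b (l 19318472) (l 19461552))) (b (a (l 19429712) (l 2)) (a (l 19584024) (l 19621360)))), by decide +kernel⟩

def k1_pm_012 : ∃ t, chk3 f_pm_012 t 4 6 1 = true :=
  ⟨(a (a (a (a (b (l 18763816) (l 18481696)) (b (l 18870920) (l 18629896))) (b (l 19014040) (l 18834976))) (b (l 19250688) (l 19159200))) (b (l 19557424) (l 19599200))), by decide +kernel⟩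

def k2_pm_012 : ∃ t, chk3 f_pm_012 t 64 14 1 = true :=
  ⟨(b (l 18213840) (b (l 18009488) (a (a (l 17460744) (l 17748784)) (l 17842496)))), by decide +kernel⟩

def k3_pm_012 : ∃ t, chk3 f_pm_012 t 256 30 1 = true :=
  ⟨(b (c (b (l 17609720) (b (l 17471824) (l 17215408))) (a (b (l 17098088) (b (b (l 17064224) (l 16896832)) (a (b (l 16839208) (l 16787408)) (b (l 16903784) (l 16810288))))) (b (l 17266456) (b (l 17015280) (b (l 16917128) (a (l 16854392) (l 16877744))))))) (a (b (b (c (b (l 17178600) (l 16961296)) (a (a (a (l 16773168) (l 16768392)) (l 16771776)) (b (l 16794600) (l 16771432)))) (b (c (c (l 17195592) (a (l 16852760) (l 16942080))) (a (a (l 16772352) (l 16751024)) (l 16771464))) (a (a (l 16771096) (l 16768056)) (l 16771600)))) (a (b (a (a (a (l 16768016) (l 16773168)) (l 16767792)) (a (l 16767608) (l 16767424))) (a (a (a (l 16768720) (l 16763376)) (a (l 16763280) (l 16763192))) (b (l 16762768) (l 16763152)))) (a (b (c (l 16769608) (l 16751288))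 (b (l 16762392) (l 16762768))) (a (b (l 16772120) (l 16767528)) (b (l 16771936) (l 16762104)))))) (b (b (c (l 17092872) (b (l 16772144) (c (l 16801488) (l 16770160)))) (a (b (c (l 17009216) (l 16749792)) (l 16771512)) (c (c (l 17228808) (l 16847736)) (l 16767536)))) (a (b (b (l 16771352) (l 16769008)) (a (a (l 16761912) (l 16761720)) (a (l 16761536) (l 16761344)))) (b (a (l 16768320) (l 16770584)) (b (l 16765952) (a (l 16750768) (l 16750384)))))))), by decide +kernel⟩

def k4_pm_012 : ∃ t, chk3 f_pm_012 t 257 30 1 = true :=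
  ⟨(b (c (b (l 17701648) (l 17477816)) (b (l 17309456) (b (l 17041040) (b (l 16881872) (a (l 16892160) (l 16981824)))))) (b (c (b (l 17131976) (c (l 17218016) (a (b (l 17099520) (l 16907152)) (l 16965840)))) (b (b (a (l 16793808) (l 16863504)) (a (l 16771880) (l 16800704))) (a (b (l 16762368) (l 16769192)) (b (l 16792344) (l 16746824))))) (b (a (a (a (l 16770224) (l 16769864)) (a (l 16771720) (l 16764984))) (a (a (l 16758344) (l 16772776)) (a (l 16766328) (l 16759968)))) (a (a (b (l 16770456) (l 16760304)) (b (l 16769720) (l 16759560))) (a (a (l 16766696) (l 16763712)) (a (l 16763344) (l 16757736))))))), by decide +kernel⟩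

def k5_pm_012 : ∃ t, chk3 f_pm_012 t 129 30 1 = true :=
  ⟨(a (b (b (l 17509208) (c (l 17619392) (b (l 17278536) (a (l 17044224) (l 17133800))))) (b (c (b (l 17428808) (a (l 17090648) (l 17231992))) (b (c (b (l 17183536) (l 17043200)) (a (l 16771560) (l 16862920))) (a (b (l 16802344) (l 16786104)) (l 16765072)))) (b (a (b (c (a (l 16989552) (l 17061720)) (l 16745704)) (l 16766208)) (c (c (l 17289192) (b (l 17091920) (l 16927392))) (b (l 16744576) (l 16744760)))) (b (a (a (l 16746608) (l 16746024)) (l 16766128)) (a (c (l 16764192) (l 16746440)) (l 16761128)))))) (b (c (l 17804616) (b (l 17562248) (a (l 17161584) (l 17291904)))) (a (b (c (l 17255800) (b (l 16931456) (l 16798272))) (b (c (c (l 17352072) (l 16935864)) (l 16764512)) (a (l 16765368) (l 16758680)))) (b (c (l 17394856) (b (l 17045232) (l 16831936))) (b (c (c (l 17414784) (l 17081104)) (l 16769344)) (a (l 16771064) (l 16762640))))))), by decide +kernel⟩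

def k6_pm_012 : ∃ t, chk3 f_pm_012 t 64 31 1 = true :=
  ⟨(b (b (b (b (a (a (a (a (a (a (l 16753832) (l 16753640)) (l 16763832)) (a (l 16752952) (l 16752568))) (a (a (l 16752176) (l 16751792)) (a (l 16751408) (l 16751024)))) (a (a (l 16760928) (l 16760168)) (a (l 16748920) (l 16748160)))) (a (a (a (l 16747456) (l 16746840)) (c (l 16753904) (l 16745776))) (a (l 16765696) (l 16743520)))) (a (a (b (a (l 6) (a (l 6) (l 16751904))) (l 6)) (a (a (l 16761840) (l 16750576)) (a (l 16749800) (l 16749032)))) (a (a (a (l 16748312) (l 16747680)) (a (l 16747056) (l 16746440))) (a (l 16756000) (l 16744280))))) (b (a (a (l 6) (a (l 6) (a (l 6) (l 16749944)))) (a (a (a (l 16749208) (l 16748568)) (a (l 16747928) (l 16747288))) (a (l 16747656) (l 16745088)))) (a (l 6) (a (a (l 6) (c (l 16749952) (l 16748400))) (a (a (l 16747552) (l 16746912)) (l 16745936)))))) (a (l 6) (b (a (l 6) (a (l 6) (b (l 16748160) (l 6)))) (l 6)))) (l 6)), by decide +kernel⟩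

def k7_pm_012 : ∃ t, chk3 f_pm_012 t 65 14 1 = true :=
  ⟨(b (l 18418480) (b (l 18260608) (l 18019448))), by decide +kernel⟩

def k8_pm_012 : ∃ t, chk3 f_pm_012 t 65 30 1 = true :=
  ⟨(b (b (a (l 17847888) (l 18010792)) (c (l 17828880) (a (b (l 17546112) (l 17285928)) (l 17652152)))) (b (c (a (b (l 17715376) (l 17446664)) (l 17868536)) (a (a (b (l 17058976) (a (l 16886992) (l 16942192))) (b (l 17286648) (c (l 17306800) (l 16931632)))) (b (l 17353280) (a (l 17155184) (l 17346848))))) (b (c (a (c (l 17549248) (a (l 17110440) (l 17379336))) (l 17537512)) (a (a (b (l 16809152) (l 16780984)) (a (l 16824312) (l 16863704))) (a (a (l 16902872) (l 16983640)) (a (l 17063968) (l 17143760))))) (a (c (c (a (l 17142072) (l 17466432)) (a (b (l 16980736) (l 16780608)) (b (l 17238168) (l 17024576)))) (a (b (l 16740504) (l 16740672)) (b (l 16786488) (l 16737704)))) (c (c (l 17663960) (a (l 17213880) (l 17449176))) (a (b (l 16833072) (l 16792184)) (a (l 16830368) (l 16833280)))))))),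 by decide +kernel⟩

def k9_pm_012 : ∃ t, chk3 f_pm_012 t 65 31 1 = true :=
  ⟨(b (b (a (b (a (a (a (l 16758552) (l 16763032)) (a (l 16762264) (l 16761504))) (a (a (l 16739784) (l 16760904)) (a (l 16757152) (l 16753304)))) (a (b (a (l 16743584) (l 16742024)) (a (l 16744408) (l 16742816))) (a (b (l 16740472) (l 16741240)) (b (l 16738936) (l 16739672))))) (a (b (c (c (l 17237472) (b (l 17068544) (l 16854896))) (b (l 16735136) (l 16735768))) (a (b (l 16737416) (l 16738128)) (a (l 16737928) (l 16735864)))) (b (c (c (l 17550208) (b (l 17295296) (l 17007840))) (a (l 16733240) (l 16742712))) (a (b (l 16783888) (l 16735072)) (a (l 16734464) (l 16744928)))))) (a (b (a (a (b (l 16745288) (l 6)) (b (l 16743664) (l 16744632))) (a (b (l 16742064) (l 16743000)) (b (l 16740472) (l 16741376)))) (a (l 6) (a (l 6) (b (l 16742344) (l 6))))) (b (a (a (b (l 16738896) (l 16739768)) (b (l 16737328) (l 16738184))) (a (b (l 16735784) (l 16736608)) (b (l 16734248) (l 16735048))))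 (a (a (b (l 16740712) (l 6)) (b (l 16739088) (l 16740048))) (b (a (l 16737488) (l 16735896)) (a (l 16738408) (l 16738104))))))) (b (a (l 6) (b (a (l 6) (b (a (l 6) (c (l 16739248) (l 16737560))) (l 6))) (l 6))) (l 6))), by decide +kernel⟩

def k10_pm_012 : ∃ t, chk3 f_pm_012 t 33 14 1 = true :=
  ⟨(b (l 18691120) (b (l 18592176) (l 18492400))), by decide +kernel⟩

def k11_pm_012 : ∃ t, chk3 f_pm_012 t 33 30 1 = true :=
  ⟨(b (a (b (l 18239192) (l 17969496)) (l 18472888)) (b (a (c (l 18162832) (a (b (l 17693984) (l 17546184)) (l 17825560))) (l 18281064)) (a (c (a (b (l 17911168) (l 17733448)) (l 18069264)) (a (a (b (l 17230744) (c (l 17257576) (l 16834336))) (b (l 17470056) (c (l 17425024) (l 17046496)))) (b (l 17634480) (a (l 17285624) (l 17530848))))) (c (l 18372040) (a (b (l 17842032) (l 17702376)) (l 17979296)))))), by decide +kernel⟩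

def k12_pm_012 : ∃ t, chk3 f_pm_012 t 33 62 1 = true :=
  ⟨(a (b (c (b (a (a (l 17283792) (l 17630056)) (l 17845952)) (a (c (a (l 17333648) (l 17634536)) (a (b (l 17136064) (l 16888224)) (b (l 17352976) (l 17159672)))) (a (l 17360984) (l 17714360)))) (a (a (b (a (l 16775104) (l 16806520)) (b (l 16730712) (l 16731312))) (b (b (l 16976296) (l 16870048)) (b (l 16810176) (l 16728880)))) (a (b (b (l 17153680) (l 16994248)) (b (l 16882816) (l 16816744))) (b (c (l 17484912) (l 17062872)) (b (l 16991520) (l 16874944)))))) (b (a (a (b (l 16732224) (l 16732976)) (b (c (c (l 17453712) (l 16905280)) (l 16729488)) (l 16730472))) (c (c (a (l 17409712) (l 17719864)) (a (b (l 17183608) (l 16922720)) (b (l 17411736) (l 17186920)))) (a (b (l 16727120) (l 16727784)) (b (l 16802704) (l 16725472))))) (a (b (a (l 16735096) (l 16731224)) (a (c (l 16736168) (l 16734416)) (l 16732016))) (b (a (l 16728776) (c (c (l 17525320) (l 16898608)) (l 16726128))) (a (l 16729520) (l 16727136))))))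 (b (c (a (b (l 18108184) (l 17959360)) (l 18272032)) (a (b (c (l 17674848) (l 17176240)) (c (a (l 17384440) (l 17545800)) (a (l 16849472) (l 17080336)))) (b (l 17771048) (c (l 17744600) (l 17226008))))) (c (a (b (c (l 17948632) (a (l 17423488) (l 17662528))) (c (b (l 17784664) (l 17527632)) (a (b (l 17211576) (l 16916840)) (b (l 17471824) (l 17236608))))) (c (l 17911056) (b (l 17880120) (b (l 17717440) (l 17505184))))) (b (b (a (c (l 17041096) (l 16731416)) (c (l 17592184) (l 17109944))) (a (a (l 16810016) (l 16881216)) (c (l 17431952) (a (l 17014896) (l 17198672))))) (a (b (l 16725104) (a (l 16724528) (l 16722336))) (c (b (l 17087864) (a (l 16967488) (l 17234224))) (b (l 16730928) (l 16720344)))))))), by decide +kernel⟩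

def k13_pm_012 : ∃ t, chk3 f_pm_012 t 33 63 1 = true :=
  ⟨(b (a (b (a (b (a (a (l 16736240) (l 16734864)) (l 16735160)) (b (a (l 16736296) (l 16733568)) (a (l 6) (l 16734048)))) (b (a (l 16730312) (l 16727880)) (a (c (l 16732760) (l 16730928)) (l 16730008)))) (a (a (l 6) (a (l 6) (b (l 16734112) (l 6)))) (b (b (a (l 16731880) (l 16729336)) (a (l 16732352) (l 16729784))) (b (a (l 16732840) (l 16730240)) (a (l 6) (l 16730704)))))) (b (a (b (a (l 16725552) (c (c (l 17598360) (l 16914536)) (l 16722976))) (a (l 16726312) (l 16724048))) (c (c (b (l 17872192) (l 17606816)) (b (a (l 17241056) (l 17533304)) (a (b (l 17149440) (l 17009544)) (l 17245920)))) (b (l 16721336) (l 16723064)))) (a (a (b (l 16727120) (a (l 16728584) (l 16727368))) (b (l 16724792) (l 16726896))) (b (a (l 16722584) (c (c (l 17672976) (b (l 17149720) (l 16985376))) (l 16720064))) (a (l 16723320) (l 16721152)))))) (b (a (a (l 6) (a (l 6) (b (b (l 16731184) (l 6)) (l 6)))) (b (a (a (a (l 16730808)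 (l 16728248)) (a (l 16727032) (l 16725840))) (a (a (l 16724672) (l 16723536)) (l 16723680))) (a (b (a (l 16729584) (l 16727096)) (a (l 6) (l 16727552))) (b (a (l 16724720) (l 16722456)) (a (l 16725144) (l 16722856)))))) (a (l 6) (a (a (l 6) (a (l 6) (b (b (l 16727400) (l 6)) (l 6)))) (a (b (b (l 16726896) (a (l 16726640) (l 16725432))) (b (b (l 16727688) (l 6)) (l 6))) (b (b (l 16723264) (a (l 16724256) (l 16723112))) (b (b (l 16724000) (c (l 16725888) (l 16723864))) (b (b (l 16725616) (c (l 16726168) (l 16724144))) (a (l 6) (b (c (l 16724384) (l 16723664)) (c (c (l 16724680) (l 16724320)) (l 16723776)))))))))))), by decide +kernel⟩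

def k14_pm_012 : ∃ t, chk3 f_pm_012 t 17 14 1 = true :=
  ⟨(b (l 19123008) (l 19102552)), by decide +kernel⟩

def k15_pm_012 : ∃ t, chk3 f_pm_012 t 17 30 1 = true :=
  ⟨(a (b (l 18844816) (a (b (l 18611264) (l 18489760)) (l 18843608))) (l 19226392)), by decide +kernel⟩

def k16_pm_012 : ∃ t, chk3 f_pm_012 t 17 62 1 = true :=
  ⟨(a (a (b (b (l 18255360) (c (l 18537384) (l 17705792))) (c (b (l 18426248) (a (l 18147176) (l 18409976))) (a (b (c (l 17815352) (l 17276896)) (c (b (l 17655080) (l 17488184)) (b (l 17129608) (a (l 16999896) (l 17235600))))) (b (l 17911272) (c (l 17887216) (l 17287056)))))) (c (l 18854480) (b (l 18424152) (b (l 18255088) (l 17897280))))) (b (l 19126760) (l 18784296))), by decide +kernel⟩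

def k17_pm_012 : ∃ t, chk3 f_pm_012 t 34 126 1 = true :=
  ⟨(a (c (b (a (c (l 18143616) (b (l 17791752) (l 17572120))) (l 18242696)) (a (c (b (l 17961112) (l 17687528)) (a (b (l 17251200) (a (l 16915128) (l 17093032))) (b (l 17596312) (l 17235936)))) (c (l 18242944) (b (l 17867432) (l 17619560))))) (b (a (c (b (a (l 17256000) (l 17474600)) (a (l 16937032) (l 17257208))) (b (a (l 16845488) (l 16992968)) (l 16714632))) (c (b (l 17719208) (l 17545776)) (b (l 17150640) (a (l 16986456) (l 17253016))))) (a (b (l 16716784) (a (l 16718664) (l 16716672))) (c (b (a (l 17237832) (l 17528808)) (a (b (l 17145192) (l 16984168)) (l 17239824))) (b (a (l 16821144) (l 16959368)) (l 16715976)))))) (c (b (l 18634960) (l 18272712)) (b (a (a (l 17449120) (l 17828248)) (l 18055584)) (a (c (b (l 17784648) (l 17583832)) (b (l 17131176) (a (l 16911720) (l 17230000)))) (c (l 18034416) (b (l 17711024) (l 17536392))))))), by decide +kernel⟩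

def k18_pm_012 : ∃ t, chk3 f_pm_012 t 34 254 1 = true :=
  ⟨(a (a (b (b (c (c (l 17517888) (a (l 16848024) (l 17109688))) (l 16718144)) (l 16720824)) (b (l 16721880) (a (l 16720664) (l 16718584)))) (c (c (b (l 18051472) (l 17727880)) (b (a (l 17221088) (l 17660864)) (a (c (l 17192256) (b (l 17083128) (l 16882256))) (c (l 17609144) (l 17181712))))) (b (a (l 16715352) (a (l 16752304) (c (l 17064336) (l 16753688)))) (b (l 16714856) (l 16715160))))) (c (c (l 18505728) (a (b (l 17944488) (l 17668512)) (l 18218752))) (a (c (a (b (l 17221256) (b (l 17079064) (l 16891336))) (b (l 17584496) (l 17182128))) (b (a (l 16735656) (b (l 17120624) (l 16963272))) (b (l 16728336) (l 16708000)))) (c (b (l 17851424) (l 17602352)) (a (b (l 17208576) (a (l 16848552) (l 17016464))) (b (l 17517800) (l 17166576))))))), by decide +kernel⟩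

def k19_pm_012 : ∃ t, chk3 f_pm_012 t 34 510 1 = true :=
  ⟨(a (a (a (b (l 16721048) (l 16723240)) (b (l 16718936) (l 16720608))) (a (b (l 16716288) (l 16717264)) (c (c (l 17827136) (c (b (l 17460568) (l 17288016)) (b (l 17038976) (a (l 16829992) (l 17047152))))) (b (l 16714520) (l 16714832))))) (c (a (c (l 18143304) (a (a (l 17197568) (l 17501160)) (l 17727024))) (l 18200800)) (b (a (a (l 16726368) (c (l 17036168) (l 16742368))) (c (l 17438320) (a (l 16790504) (l 17050744)))) (a (b (l 16713856) (l 16712936)) (c (c (l 17618616) (l 17164056)) (a (l 16721200) (c (l 17218248) (l 16831536)))))))), by decide +kernel⟩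

def k20_pm_012 : ∃ t, chk3 f_pm_012 t 34 511 1 = true :=
  ⟨(a (b (b (a (a (l 16721736) (l 16719576)) (b (l 16716488) (l 16717880))) (a (a (l 16723248) (l 16721080)) (a (l 16717696) (l 16715552)))) (b (a (a (a (l 16723696) (l 16722248)) (a (l 16720496) (l 16719424))) (a (a (l 16718384) (l 16717368)) (a (l 16716376) (l 16714336)))) (a (a (b (a (l 16723528) (l 16721744)) (a (c (l 16724008) (l 16722600)) (c (l 16722240) (l 16721456)))) (b (c (l 16721832) (l 16719680)) (a (c (l 16721152) (l 16720336)) (c (l 16720088) (l 16719240))))) (b (a (a (l 16718520) (l 16717496)) (l 16716664)) (a (a (c (l 16719048) (l 16718168)) (l 16718240)) (a (l 16717240) (l 16715608))))))) (a (c (c (a (l 17824792) (l 18087136)) (a (c (b (l 17488448) (l 17207896)) (b (a (l 17013968) (l 17268728)) (b (a (l 16897680) (l 17179608)) (a (c (l 16990040) (l 16713464)) (l 16991280))))) (c (l 17673568) (b (l 17451104) (l 17195664))))) (b (a (l 16713248) (l 16711640)) (b (a (l 16713472) (l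 16711640)) (b (a (l 16713592) (l 16711744)) (a (l 16713664) (l 16711816)))))) (c (c (l 18381480) (a (l 17718760) (l 17966400))) (b (c (c (l 17443408) (a (l 16948152) (l 17385064))) (a (l 16709240) (c (l 16948216) (l 16705344)))) (c (a (c (l 17165216) (b (l 16863304) (a (l 16739552) (l 16992880)))) (l 17160720)) (b (a (l 16709600) (l 16718368)) (a (l 16709728) (a (l 16711400) (l 16721080))))))))), by decide +kernel⟩

def k21_pm_012 : ∃ t, chk3 f_pm_012 t 35 63 1 = true :=
  ⟨(b (c (l 19202640) (a (b (l 18417448) (l 18071808)) (l 18766664))) (a (c (b (l 18847416) (a (l 18536216) (l 18825856))) (b (c (l 18257120) (a (b (l 17769688) (l 17547528)) (l 18013840))) (a (c (b (l 17919544) (l 17517464)) (b (a (c (l 17490096) (l 17095360)) (l 17568048)) (b (a (c (l 17355704) (l 16949768)) (l 17421912)) (a (c (l 17153208) (b (l 16892208) (a (l 16778280) (l 16979472)))) (l 17121512))))) (c (l 18186368) (b (l 17829640) (l 17455176)))))) (c (l 19235200) (b (l 18583448)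 (a (l 18280200) (l 18547104)))))), by decide +kernel⟩

def k22_pm_012 : ∃ t, chk3 f_pm_012 t 9 7 1 = true :=
  ⟨(b (a (l 19565568) (l 19858368)) (b (a (l 19697656) (l 20093488)) (a (a (b (l 19565112) (b (l 19513592) (l 19220072))) (l 19926288)) (l 20305616)))), by decide +kernel⟩

def k23_pm_012 : ∃ t, chk3 f_pm_012 t 5 3 1 = true :=
  ⟨(b (a (l 19803624) (l 19895784)) (b (a (l 20097000) (l 20194384)) (a (b (l 20383592) (l 20660864)) (l 20592960)))), by decide +kernel⟩

def k24_pm_012 : ∃ t, chk3 f_pm_012 t 3 1 1 = true :=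
  ⟨(b (a (b (l 2) (l 19786248)) (l 2)) (a (b (a (l 19910992) (l 19894104)) (b (l 20198376) (l 20496464))) (b (a (l 19809128) (l 2)) (a (l 20216424) (l 20149272))))), by decide +kernel⟩

theorem s25_pm_012 : ∃ t, chk3 f_pm_012 t 34 255 1 = true := ex3_b k19_pm_012 k20_pm_012

theorem s26_pm_012 : ∃ t, chk3 f_pm_012 t 34 127 1 = true := ex3_b k18_pm_012 s25_pm_012

theorem s27_pm_012 : ∃ t, chk3 f_pm_012 t 34 63 1 = true := ex3_b k17_pm_012 s26_pm_012

theorem s28_pm_012 : ∃ t, chk3 f_pm_012 t 17 63 1 = true := ex3_a s27_pm_012 k21_pm_012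

theorem s29_pm_012 : ∃ t, chk3 f_pm_012 t 17 31 1 = true := ex3_b k16_pm_012 s28_pm_012

theorem s30_pm_012 : ∃ t, chk3 f_pm_012 t 17 15 1 = true := ex3_b k15_pm_012 s29_pm_012

theorem s31_pm_012 : ∃ t, chk3 f_pm_012 t 17 7 1 = true := ex3_b k14_pm_012 s30_pm_012

theorem s32_pm_012 : ∃ t, chk3 f_pm_012 t 33 31 1 = true := ex3_b k12_pm_012 k13_pm_012

theorem s33_pm_012 : ∃ t, chk3 f_pm_012 t 33 15 1 = true := ex3_b k11_pm_012 s32_pm_012

theorem s34_pm_012 : ∃ t, chk3 f_pm_012 t 33 7 1 = true := ex3_b k10_pm_012 s33_pm_012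

theorem s35_pm_012 : ∃ t, chk3 f_pm_012 t 65 15 1 = true := ex3_b k8_pm_012 k9_pm_012

theorem s36_pm_012 : ∃ t, chk3 f_pm_012 t 65 7 1 = true := ex3_b k7_pm_012 s35_pm_012

theorem s37_pm_012 : ∃ t, chk3 f_pm_012 t 128 30 1 = true := ex3_a k3_pm_012 k4_pm_012

theorem s38_pm_012 : ∃ t, chk3 f_pm_012 t 64 30 1 = true := ex3_a s37_pm_012 k5_pm_012

theorem s39_pm_012 : ∃ t, chk3 f_pm_012 t 64 15 1 = true := ex3_b s38_pm_012 k6_pm_012

theorem s40_pm_012 : ∃ t, chk3 f_pm_012 t 64 7 1 = true := ex3_b k2_pm_012 s39_pm_012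

theorem s41_pm_012 : ∃ t, chk3 f_pm_012 t 32 7 1 = true := ex3_a s40_pm_012 s36_pm_012

theorem s42_pm_012 : ∃ t, chk3 f_pm_012 t 16 7 1 = true := ex3_a s41_pm_012 s34_pm_012

theorem s43_pm_012 : ∃ t, chk3 f_pm_012 t 8 7 1 = true := ex3_a s42_pm_012 s31_pm_012

theorem s44_pm_012 : ∃ t, chk3 f_pm_012 t 4 7 1 = true := ex3_a s43_pm_012 k22_pm_012

theorem s45_pm_012 : ∃ t, chk3 f_pm_012 t 4 3 1 = true := ex3_b k1_pm_012 s44_pm_012

theorem s46_pm_012 : ∃ t, chk3 f_pm_012 t 2 3 1 = true := ex3_a s45_pm_012 k23_pm_012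

theorem s47_pm_012 : ∃ t, chk3 f_pm_012 t 2 1 1 = true := ex3_b k0_pm_012 s46_pm_012

theorem s48_pm_012 : ∃ t, chk3 f_pm_012 t 1 1 1 = true := ex3_a s47_pm_012 k24_pm_012

theorem c_pm_012 : CertF 0 536870912 536870912 536870912 33554432 16777216 true true false .pnp 0 1 2
    ndF0q0 ndF3q1 pcF2 cut_pm_012 Ext.none :=
  certFK2 (fam := true) (s1 := true) (s2 := false) (a := 0) (b := 1) (c := 2) (cn := .pnp) (n1 := ndF0q0) (n2 := ndF3q1) (pc := pcF2) (cut := cut_pm_012) (xt := Ext.none) (P1 := 0) (W1 := 536870912) (P2 := 536870912) (W2 := 536870912) (P3 := 33554432) (W3 := 16777216)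
    rfl rfl rfl (fun _ => rfl) s48_pm_012

noncomputable def f_pm_022 : ℕ → ℕ → ℕ → ℕ → Bool := onCell 0 536870912 1073741824 536870912 33554432 16777216
    (rowFK 1 true true false .pp 0 2 2 (qsf 0 536870912 1073741824 536870912 2) ndF0q0 ndF3q2 pcF2 Cut.none Ext.none)

def k0_pm_022 : ∃ t, chk3 f_pm_022 t 1 1 1 = true :=
  ⟨(b (b (l 3) (a (b (b (b (l 3) (b (l 3) (b (l 3) (a (a (l 19405488) (l 19278184)) (a (l 19209384) (l 1)))))) (a (l 19400968) (l 19282392))) (a (l 19495944) (l 19247472))) (b (l 1) (a (l 384438161111) (l 1))))) (a (a (l 19474728) (l 19355936)) (a (l 220692058023) (l 296390955831)))), by decide +kernel⟩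

theorem c_pm_022 : CertF 0 536870912 1073741824 536870912 33554432 16777216 true true false .pp 0 2 2
    ndF0q0 ndF3q2 pcF2 Cut.none Ext.none :=
  certFK1 (fam := true) (s1 := true) (s2 := false) (a := 0) (b := 2) (c := 2) (cn := .pp) (n1 := ndF0q0) (n2 := ndF3q2) (pc := pcF2) (cut := Cut.none) (xt := Ext.none) (P1 := 0) (W1 := 536870912) (P2 := 1073741824) (W2 := 536870912) (P3 := 33554432) (W3 := 16777216)
    rfl rfl rfl (fun _ => rfl) k0_pm_022

noncomputable def f_pm_023 : ℕ → ℕ → ℕ → ℕ → Bool := onCell 0 536870912 1073741824 536870912 33554432 16777216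
    (rowFK 0 true true false .up 0 2 3 (qsf 0 536870912 1073741824 536870912 3) ndF0q0 ndF3q2 pcF3 Cut.none Ext.none)

def k0_pm_023 : ∃ t, chk3 f_pm_023 t 1 1 1 = true :=
  ⟨(a (b (a (l 1) (l 246462681399)) (b (a (l 19173576) (l 18834576)) (a (l 18728120) (b (l 18504560) (l 18396672))))) (b (a (l 18786848) (l 18408144)) (b (a (l 18344472) (l 18173256)) (a (b (l 18075832) (a (l 18084472) (l 17951864))) (b (a (l 17967112) (l 17942032)) (a (l 17848288) (a (l 17815592) (b (l 17796504) (b (l 17752568) (a (l 17736376) (b (l 17712704) (a (l 17705792) (b (l 17692000) (a (l 17688736) (b (l 17681160) (a (l 17679704) (l 4))))))))))))))))), by decide +kernel⟩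

theorem c_pm_023 : CertF 0 536870912 1073741824 536870912 33554432 16777216 true true false .up 0 2 3
    ndF0q0 ndF3q2 pcF3 Cut.none Ext.none :=
  certFK0 (fam := true) (s1 := true) (s2 := false) (a := 0) (b := 2) (c := 3) (cn := .up) (n1 := ndF0q0) (n2 := ndF3q2) (pc := pcF3) (cut := Cut.none) (xt := Ext.none) (P1 := 0) (W1 := 536870912) (P2 := 1073741824) (W2 := 536870912) (P3 := 33554432) (W3 := 16777216)
    rfl rfl rfl k0_pm_023

noncomputable def f_pm_033 : ℕ → ℕ → ℕ → ℕ → Bool := onCell 1610612736 536870912 0 1230186008 33554432 16777216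
    (rowFK 2 true true false .pnn 0 3 3 (qsf 0 536870912 0 1230186008 3) ndF0q0 ndF3q3 pcF3 Cut.none Ext.none)

def k0_pm_033 : ∃ t, chk3 f_pm_033 t 1 1 1 = true :=
  ⟨(a (b (l 1) (b (a (l 1) (b (l 1) (l 18523712))) (b (a (l 1) (a (b (l 18901720) (l 18870680)) (l 18502464))) (a (b (l 18472056) (l 17915456)) (b (a (l 18503176) (l 18232904)) (a (l 17844312) (l 17695384))))))) (a (b (l 1) (a (b (b (l 1) (l 18098208)) (b (l 18060216) (b (l 17828408) (b (l 17556224) (l 17284776))))) (b (l 18155752) (b (l 17625512) (b (l 17343424) (b (l 17131112) (l 17087096))))))) (b (a (l 18414896) (l 4)) (a (b (l 17874744) (b (l 17327880) (b (l 16938392) (l 16832920)))) (a (b (l 17679320) (b (l 17057608) (l 16950720))) (b (l 4) (a (b (l 16946560) (l 16962944)) (b (l 4) (a (l 16975416) (b (l 4) (a (l 16940696) (l 4)))))))))))), by decide +kernel⟩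

theorem c_pm_033 : CertF 0 536870912 0 1230186008 33554432 16777216 true true false .pnn 0 3 3
    ndF0q0 ndF3q3 pcF3 Cut.none Ext.none :=
  certFK2 (fam := true) (s1 := true) (s2 := false) (a := 0) (b := 3) (c := 3) (cn := .pnn) (n1 := ndF0q0) (n2 := ndF3q3) (pc := pcF3) (cut := Cut.none) (xt := Ext.none) (P1 := 0) (W1 := 536870912) (P2 := 0) (W2 := 1230186008) (P3 := 33554432) (W3 := 16777216)
    rfl rfl rfl (fun _ => rfl) k0_pm_033

noncomputable def f_pm_101 : ℕ → ℕ → ℕ → ℕ → Bool := onCell 536870912 536870912 536870912 536870912 33554432 16777216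
    (rowFK 1 true true false .npn 1 0 1 (qsf 536870912 536870912 0 536870912 1) ndF0q1 ndF3q0 pcF1 Cut.none Ext.none)

def k0_pm_101 : ∃ t, chk3 f_pm_101 t 2 1 1 = true :=
  ⟨(b (a (l 3) (b (a (b (l 1) (l 3)) (l 1)) (l 3))) (b (b (l 3) (b (l 3) (a (l 3) (c (c (a (l 193446322535) (l 19363368)) (a (l 18386584) (l 18549760))) (a (c (l 17921168) (l 243371666199)) (c (l 17875648) (l 17455640))))))) (a (b (c (a (c (b (l 119894008791) (l 18814664)) (b (l 18156984) (l 18203912))) (c (b (l 146201462263) (l 19142536)) (l 18630616))) (a (c (l 142440722503) (c (l 162841119335) (a (l 17762312) (l 17642344)))) (c (l 18090616) (l 155325130407)))) (c (c (a (l 19007184) (l 19395144)) (a (l 18418904) (l 18727464))) (a (l 17833368) (l 17916472)))) (c (b (c (a (b (l 19453272) (l 19504856)) (l 19883968)) (a (l 18815616) (l 18882784))) (a (l 19572776) (l 19593544))) (b (a (c (l 18180712) (l 17664280)) (c (l 18160416) (l 17680432))) (c (a (l 18294584) (l 18399288)) (a (l 17598136)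 (l 17632272)))))))), by decide +kernel⟩

def k1_pm_101 : ∃ t, chk3 f_pm_101 t 3 1 1 = true :=
  ⟨(b (a (b (l 1) (a (b (l 1) (l 3)) (l 1))) (l 1)) (a (b (b (l 3) (b (a (l 3) (c (c (c (l 120970062823) (l 123116770439)) (l 123115629351)) (c (l 169821930679) (c (l 17726320) (l 137607949495))))) (c (a (c (l 19481792) (l 18699992)) (c (l 29031133607) (l 18998792))) (a (c (l 17970680) (l 17490960)) (c (l 18244336) (c (l 17662680) (l 17426096))))))) (c (b (c (a (l 20082448) (b (l 20095168) (l 20338104))) (a (l 19042864) (l 19355440))) (a (l 19833128) (l 20310616))) (b (a (c (l 18259680) (l 17716872)) (c (l 18517704) (c (l 17906976) (l 17572040)))) (c (a (l 18498968) (l 18758368)) (a (l 17665880) (l 17862536)))))) (a (b (a (b (l 1) (a (b (l 1) (c (l 416651577847) (l 398394768519))) (l 1))) (l 1)) (c (b (c (l 262034798375) (l 19759256)) (l 20579664)) (b (c (l 18810920) (b (l 17912216) (l 18007264))) (c (l 19052960) (l 18102600))))) (b (l 1) (b (a (c (l 376924562407)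 (l 382289623719)) (l 1)) (c (l 21004848) (l 18893896))))))), by decide +kernel⟩

theorem s2_pm_101 : ∃ t, chk3 f_pm_101 t 1 1 1 = true := ex3_a k0_pm_101 k1_pm_101

theorem c_pm_101 : CertF 536870912 536870912 0 536870912 33554432 16777216 true true false .npn 1 0 1
    ndF0q1 ndF3q0 pcF1 Cut.none Ext.none :=
  certFK1 (fam := true) (s1 := true) (s2 := false) (a := 1) (b := 0) (c := 1) (cn := .npn) (n1 := ndF0q1) (n2 := ndF3q0) (pc := pcF1) (cut := Cut.none) (xt := Ext.none) (P1 := 536870912) (W1 := 536870912) (P2 := 0) (W2 := 536870912) (P3 := 33554432) (W3 := 16777216)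
    rfl rfl rfl (fun _ => rfl) s2_pm_101

noncomputable def f_pm_102 : ℕ → ℕ → ℕ → ℕ → Bool := onCell 536870912 536870912 1073741824 536870912 33554432 16777216
    (rowFK 1 true true false .npp 1 0 2 (qsf 536870912 536870912 0 536870912 2) ndF0q1 ndF3q0 pcF2 Cut.none Ext.none)

def k0_pm_102 : ∃ t, chk3 f_pm_102 t 1 1 1 = true :=
  ⟨(a (b (a (b (b (b (b (b (c (a (l 18901216) (l 19255744)) (a (l 17715200) (l 17910144))) (c (a (l 18882704) (l 19232960)) (l 70433374647))) (c (a (l 18853304) (l 19196984)) (l 74728280247))) (c (a (l 18788488) (l 19118752)) (l 83318124871))) (c (a (l 18664936) (l 18966008)) (l 17974432))) (c (l 63455416631) (l 17879120))) (b (b (b (b (b (c (l 19702352) (c (l 18496928) (l 17732408))) (c (l 19656544) (c (l 18481432) (l 17724056)))) (c (l 19617128) (c (l 18456952) (l 17710536)))) (c (l 19573728) (c (l 18403832) (l 17679920)))) (c (l 19487592) (l 18172152))) (c (l 19254224) (l 17891752)))) (a (l 2) (b (l 63991365767) (l 2)))) (b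 (a (b (b (b (b (b (c (l 20251536) (c (l 18843056) (l 17942384))) (c (l 20205136) (c (l 18825568) (l 17930792)))) (c (l 20185256) (c (l 18797984) (l 17912472)))) (c (l 20180592) (c (l 18738912) (l 17872896)))) (c (l 20146584) (c (l 18624072) (l 17800152)))) (c (a (l 19344696) (l 19657288)) (c (l 18382832) (l 17652432)))) (b (b (b (b (b (c (l 20945248) (a (l 18780928) (l 18975432))) (c (l 20917272) (a (l 18762472) (l 18956672)))) (c (l 20914760) (a (l 18733776) (l 18927320)))) (c (l 20925792) (a (l 18673480) (l 18865688)))) (c (a (l 20434464) (l 20737680)) (a (l 18555152) (l 18741600)))) (c (a (l 20006624) (l 20300624)) (a (l 18311120) (l 18505680))))) (a (b (c (l 19118384) (l 17741800)) (b (l 17992728) (l 2))) (b (c (a (l 19352288) (l 19617208)) (a (l 17930432) (l 18064440))) (c (l 18866496) (b (l 17607480) (l 17328952))))))), by decide +kernel⟩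

theorem c_pm_102 : CertF 536870912 536870912 0 536870912 33554432 16777216 true true false .npp 1 0 2
    ndF0q1 ndF3q0 pcF2 Cut.none Ext.none :=
  certFK1 (fam := true) (s1 := true) (s2 := false) (a := 1) (b := 0) (c := 2) (cn := .npp) (n1 := ndF0q1) (n2 := ndF3q0) (pc := pcF2) (cut := Cut.none) (xt := Ext.none) (P1 := 536870912) (W1 := 536870912) (P2 := 0) (W2 := 536870912) (P3 := 33554432) (W3 := 16777216)
    rfl rfl rfl (fun _ => rfl) k0_pm_102

noncomputable def f_pm_112 : ℕ → ℕ → ℕ → ℕ → Bool := onCell 536870912 536870912 1073741824 536870912 33554432 16777216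
    (rowFK 1 true true false .dn 1 1 2 (qsf 536870912 536870912 536870912 536870912 2) ndF0q1 ndF3q1 pcF2 Cut.none Ext.none)

def k0_pm_112 : ∃ t, chk3 f_pm_112 t 1 1 1 = true :=
  ⟨(a (a (b (b (b (b (b (b (l 19120592) (l 19138360)) (l 19163696)) (l 19209680)) (l 19310072)) (l 19505008)) (l 19849200)) (b (b (b (l 1) (l 19246832)) (l 19364344)) (l 19551440))) (b (b (l 1) (a (l 19235088) (l 1))) (a (b (l 19317688) (l 19330968)) (b (l 19215352) (l 19026888))))), by decide +kernel⟩

theorem c_pm_112 : CertF 536870912 536870912 536870912 536870912 33554432 16777216 true true false .dn 1 1 2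
    ndF0q1 ndF3q1 pcF2 Cut.none Ext.none :=
  certFK1 (fam := true) (s1 := true) (s2 := false) (a := 1) (b := 1) (c := 2) (cn := .dn) (n1 := ndF0q1) (n2 := ndF3q1) (pc := pcF2) (cut := Cut.none) (xt := Ext.none) (P1 := 536870912) (W1 := 536870912) (P2 := 536870912) (W2 := 536870912) (P3 := 33554432) (W3 := 16777216)
    rfl rfl rfl (fun _ => rfl) k0_pm_112

noncomputable def f_pm_113 : ℕ → ℕ → ℕ → ℕ → Bool := onCell 536870912 536870912 1610612736 536870912 33554432 16777216
    (rowFK 1 true true false .nn 1 1 3 (qsf 536870912 536870912 536870912 536870912 3) ndF0q1 ndF3q1 pcF3 Cut.none Ext.none)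

def k0_pm_113 : ∃ t, chk3 f_pm_113 t 1 1 1 = true :=
  ⟨(a (b (b (a (l 19684104) (l 18937152)) (a (l 19934664) (l 19245200))) (b (a (l 2) (l 152041161959)) (l 2))) (b (b (a (l 18647952) (l 18556704)) (a (l 18950520) (l 18443744))) (b (a (l 19019472) (l 4)) (l 4)))), by decide +kernel⟩

theorem c_pm_113 : CertF 536870912 536870912 536870912 536870912 33554432 16777216 true true false .nn 1 1 3
    ndF0q1 ndF3q1 pcF3 Cut.none Ext.none :=
  certFK1 (fam := true) (s1 := true) (s2 := false) (a := 1) (b := 1) (c := 3) (cn := .nn) (n1 := ndF0q1) (n2 := ndF3q1) (pc := pcF3) (cut := Cut.none) (xt := Ext.none) (P1 := 536870912) (W1 := 536870912) (P2 := 536870912) (W2 := 536870912) (P3 := 33554432) (W3 := 16777216)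
    rfl rfl rfl (fun _ => rfl) k0_pm_113

end Pool.Agent.Strip051.G.I1_32_3_64.Tab.C.FA03

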