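import Pool.Agent.Strip051.G.I1_32_3_64.Tab
import Pool.Agent.Strip051.PB.RowK

/-! # Certificates F1 (generated) -/

set_option linter.all false
set_option maxRecDepth 100000

namespace Pool.Agent.Strip051.G.I1_32_3_64.Tab.C.FA03

open Pool.Agent.Strip051.PB Pool.Agent.Strip051.PB.T
open Pool.Agent.Strip051.G.I1_32_3_64.Tab

noncomputable def f_pm_123 : ℕ → ℕ → ℕ → ℕ → Bool := onCell 536870912 536870912 1610612736 536870912 33554432 16777216
    (rowFK 1 true true false .npn 1 2 3 (qsf 536870912 536870912 1073741824 536870912 3) ndF0q1 ndF3q2 pcF3 Cut.none Ext.none)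

def k0_pm_123 : ∃ t, chk3 f_pm_123 t 1 1 1 = true :=
  ⟨(b (a (a (a (l 18082768) (l 17676248)) (a (b (l 338264289239) (l 17681064)) (b (l 1) (l 18059408)))) (a (b (l 1) (a (b (l 1) (l 18836728)) (l 1))) (l 1))) (b (a (a (l 17883240) (a (a (l 17550264) (l 17729272)) (b (l 18187640) (l 18045848)))) (a (a (b (b (l 18683408) (l 18522976)) (l 18245528)) (l 18152432)) (b (l 1) (a (l 17579056) (l 1))))) (b (a (a (a (l 17844904) (l 17713808)) (a (l 17628800) (l 17821424))) (a (l 17963048) (a (l 17571656) (l 17414384)))) (a (b (a (l 17716864) (l 17605952)) (b (a (l 17673528) (l 17600696)) (a (b (l 17648416) (b (l 17634584) (a (l 17644296) (l 17617192)))) (b (l 17579288) (b (l 17565720) (b (l 17564096) (l 17569728))))))) (b (a (l 17627200) (l 17372976)) (b (a (l 17583312) (l 17362488)) (a (b (l 17554592) (b (l 17565240) (l 4))) (l 4)))))))), by decide +kernel⟩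

theorem c_pm_123 : CertF 536870912 536870912 1073741824 536870912 33554432 16777216 true true false .npn 1 2 3
    ndF0q1 ndF3q2 pcF3 Cut.none Ext.none :=
  certFK1 (fam := true) (s1 := true) (s2 := false) (a := 1) (b := 2) (c := 3) (cn := .npn) (n1 := ndF0q1) (n2 := ndF3q2) (pc := pcF3) (cut := Cut.none) (xt := Ext.none) (P1 := 536870912) (W1 := 536870912) (P2 := 1073741824) (W2 := 536870912) (P3 := 33554432) (W3 := 16777216)
    rfl rfl rfl (fun _ => rfl) k0_pm_123

noncomputable def f_pm_133 : ℕ → ℕ → ℕ → ℕ → Bool := onCell 536870912 536870912 0 1230186008 33554432 16777216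
    (rowFK 0 true true false .dn 1 3 3 (qsf 536870912 536870912 0 1230186008 3) ndF0q1 ndF3q3 pcF3 Cut.none Ext.none)

def k0_pm_133 : ∃ t, chk3 f_pm_133 t 1 1 1 = true :=
  ⟨(b (l 2) (b (l 2) (a (b (l 2) (a (b (l 2) (l 4)) (l 2))) (l 2)))), by decide +kernel⟩

theorem c_pm_133 : CertF 536870912 536870912 0 1230186008 33554432 16777216 true true false .dn 1 3 3
    ndF0q1 ndF3q3 pcF3 Cut.none Ext.none :=
  certFK0 (fam := true) (s1 := true) (s2 := false) (a := 1) (b := 3) (c := 3) (cn := .dn) (n1 := ndF0q1) (n2 := ndF3q3) (pc := pcF3) (cut := Cut.none) (xt := Ext.none) (P1 := 536870912) (W1 := 536870912) (P2 := 0) (W2 := 1230186008) (P3 := 33554432) (W3 := 16777216)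
    rfl rfl rfl k0_pm_133

noncomputable def f_pm_202 : ℕ → ℕ → ℕ → ℕ → Bool := onCell 0 536870912 1073741824 536870912 33554432 16777216
    (rowFK 1 true true false .pp 2 0 2 (qsf 0 536870912 0 536870912 2) ndF0q2 ndF3q0 pcF2 Cut.none Ext.none)

def k0_pm_202 : ∃ t, chk3 f_pm_202 t 1 1 1 = true :=
  ⟨(a (b (b (b (l 1) (a (l 1) (c (l 20785960) (l 18782792)))) (c (b (l 20637064) (l 20397296)) (a (b (l 18682232) (l 18472880)) (b (l 18577536) (l 18407984))))) (b (b (c (l 20020952) (a (l 18143120) (l 18151400))) (c (l 19557384) (l 17729592))) (b (c (l 19102800) (l 17397816)) (l 4)))) (b (a (b (b (l 1) (c (l 20816560) (l 18872784))) (c (l 20539856) (b (l 18603600) (l 18440896)))) (b (b (b (b (b (c (l 21161136) (l 19027328)) (c (l 21141496) (l 18953624))) (c (l 21108328) (l 18935384))) (c (l 21037376) (l 18896704))) (c (l 20886368) (a (l 18789184) (l 18815464)))) (c (l 20487680) (b (l 18659320) (l 18490960))))) (b (a (c (l 19859040) (b (l 18205216) (l 17891416)))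 (c (l 19810544) (b (l 18261720) (l 17968944)))) (a (b (l 18505088) (l 17974400)) (c (l 18885576) (l 17675624)))))), by decide +kernel⟩

theorem c_pm_202 : CertF 0 536870912 0 536870912 33554432 16777216 true true false .pp 2 0 2
    ndF0q2 ndF3q0 pcF2 Cut.none Ext.none :=
  certFK1 (fam := true) (s1 := true) (s2 := false) (a := 2) (b := 0) (c := 2) (cn := .pp) (n1 := ndF0q2) (n2 := ndF3q0) (pc := pcF2) (cut := Cut.none) (xt := Ext.none) (P1 := 0) (W1 := 536870912) (P2 := 0) (W2 := 536870912) (P3 := 33554432) (W3 := 16777216)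
    rfl rfl rfl (fun _ => rfl) k0_pm_202

noncomputable def f_pm_203 : ℕ → ℕ → ℕ → ℕ → Bool := onCell 0 536870912 1610612736 536870912 33554432 16777216
    (rowFK 1 true true false .up 2 0 3 (qsf 0 536870912 0 536870912 3) ndF0q2 ndF3q0 pcF3 Cut.none Ext.none)

def k0_pm_203 : ∃ t, chk3 f_pm_203 t 1 1 1 = true :=
  ⟨(b (a (l 4) (b (a (l 4) (b (l 17584744) (l 17403848))) (l 4))) (l 2)), by decide +kernel⟩

theorem c_pm_203 : CertF 0 536870912 0 536870912 33554432 16777216 true true false .up 2 0 3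
    ndF0q2 ndF3q0 pcF3 Cut.none Ext.none :=
  certFK1 (fam := true) (s1 := true) (s2 := false) (a := 2) (b := 0) (c := 3) (cn := .up) (n1 := ndF0q2) (n2 := ndF3q0) (pc := pcF3) (cut := Cut.none) (xt := Ext.none) (P1 := 0) (W1 := 536870912) (P2 := 0) (W2 := 536870912) (P3 := 33554432) (W3 := 16777216)
    rfl rfl rfl (fun _ => rfl) k0_pm_203

noncomputable def f_pm_213 : ℕ → ℕ → ℕ → ℕ → Bool := onCell 0 536870912 1610612736 536870912 33554432 16777216
    (rowFK 1 true true false .pnn 2 1 3 (qsf 0 536870912 536870912 536870912 3) ndF0q2 ndF3q1 pcF3 Cut.none Ext.none)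

def k0_pm_213 : ∃ t, chk3 f_pm_213 t 1 1 1 = true :=
  ⟨(b (a (l 4) (b (a (l 4) (l 18545328)) (l 4))) (l 4)), by decide +kernel⟩

theorem c_pm_213 : CertF 0 536870912 536870912 536870912 33554432 16777216 true true false .pnn 2 1 3
    ndF0q2 ndF3q1 pcF3 Cut.none Ext.none :=
  certFK1 (fam := true) (s1 := true) (s2 := false) (a := 2) (b := 1) (c := 3) (cn := .pnn) (n1 := ndF0q2) (n2 := ndF3q1) (pc := pcF3) (cut := Cut.none) (xt := Ext.none) (P1 := 0) (W1 := 536870912) (P2 := 536870912) (W2 := 536870912) (P3 := 33554432) (W3 := 16777216)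
    rfl rfl rfl (fun _ => rfl) k0_pm_213

noncomputable def f_mm_001 : ℕ → ℕ → ℕ → ℕ → Bool := onCell 0 536870912 0 536870912 33554432 16777216
    (rowFK 0 true false false .up 0 0 1 (qsf 0 536870912 0 536870912 1) ndF0q0 ndF3q0 pcF1 Cut.none Ext.none)

def k0_mm_001 : ∃ t, chk3 f_mm_001 t 1 1 1 = true :=
  ⟨(l 4), by decide +kernel⟩

theorem c_mm_001 : CertF 0 536870912 0 536870912 33554432 16777216 true false false .up 0 0 1
    ndF0q0 ndF3q0 pcF1 Cut.none Ext.none :=
  certFK0 (fam := true) (s1 := false) (s2 := false) (a := 0) (b := 0) (c := 1) (cn := .up) (n1 := ndF0q0) (n2 := ndF3q0) (pc := pcF1) (cut := Cut.none) (xt := Ext.none) (P1 := 0) (W1 := 536870912) (P2 := 0) (W2 := 536870912) (P3 := 33554432) (W3 := 16777216)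
    rfl rfl rfl k0_mm_001

noncomputable def f_mm_011 : ℕ → ℕ → ℕ → ℕ → Bool := onCell 0 536870912 536870912 536870912 33554432 16777216
    (rowFK 0 true false false .pnn 0 1 1 (qsf 0 536870912 536870912 536870912 1) ndF0q0 ndF3q1 pcF1 Cut.none Ext.none)

def k0_mm_011 : ∃ t, chk3 f_mm_011 t 1 1 1 = true :=
  ⟨(l 4), by decide +kernel⟩

theorem c_mm_011 : CertF 0 536870912 536870912 536870912 33554432 16777216 true false false .pnn 0 1 1
    ndF0q0 ndF3q1 pcF1 Cut.none Ext.none :=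
  certFK0 (fam := true) (s1 := false) (s2 := false) (a := 0) (b := 1) (c := 1) (cn := .pnn) (n1 := ndF0q0) (n2 := ndF3q1) (pc := pcF1) (cut := Cut.none) (xt := Ext.none) (P1 := 0) (W1 := 536870912) (P2 := 536870912) (W2 := 536870912) (P3 := 33554432) (W3 := 16777216)
    rfl rfl rfl k0_mm_011

noncomputable def f_mm_012 : ℕ → ℕ → ℕ → ℕ → Bool := onCell 0 536870912 536870912 536870912 33554432 16777216
    (rowFK 0 true false false .pnp 0 1 2 (qsf 0 536870912 536870912 536870912 2) ndF0q0 ndF3q1 pcF2 Cut.none Ext.none)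

def k0_mm_012 : ∃ t, chk3 f_mm_012 t 1 1 1 = true :=
  ⟨(l 4), by decide +kernel⟩

theorem c_mm_012 : CertF 0 536870912 536870912 536870912 33554432 16777216 true false false .pnp 0 1 2
    ndF0q0 ndF3q1 pcF2 Cut.none Ext.none :=
  certFK0 (fam := true) (s1 := false) (s2 := false) (a := 0) (b := 1) (c := 2) (cn := .pnp) (n1 := ndF0q0) (n2 := ndF3q1) (pc := pcF2) (cut := Cut.none) (xt := Ext.none) (P1 := 0) (W1 := 536870912) (P2 := 536870912) (W2 := 536870912) (P3 := 33554432) (W3 := 16777216)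
    rfl rfl rfl k0_mm_012

noncomputable def f_mm_022 : ℕ → ℕ → ℕ → ℕ → Bool := onCell 0 536870912 1073741824 536870912 33554432 16777216
    (rowFK 0 true false false .pp 0 2 2 (qsf 0 536870912 1073741824 536870912 2) ndF0q0 ndF3q2 pcF2 Cut.none Ext.none)

def k0_mm_022 : ∃ t, chk3 f_mm_022 t 1 1 1 = true :=
  ⟨(l 4), by decide +kernel⟩

theorem c_mm_022 : CertF 0 536870912 1073741824 536870912 33554432 16777216 true false false .pp 0 2 2
    ndF0q0 ndF3q2 pcF2 Cut.none Ext.none :=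
  certFK0 (fam := true) (s1 := false) (s2 := false) (a := 0) (b := 2) (c := 2) (cn := .pp) (n1 := ndF0q0) (n2 := ndF3q2) (pc := pcF2) (cut := Cut.none) (xt := Ext.none) (P1 := 0) (W1 := 536870912) (P2 := 1073741824) (W2 := 536870912) (P3 := 33554432) (W3 := 16777216)
    rfl rfl rfl k0_mm_022

noncomputable def f_mm_023 : ℕ → ℕ → ℕ → ℕ → Bool := onCell 0 536870912 1073741824 536870912 33554432 16777216
    (rowFK 0 true false false .up 0 2 3 (qsf 0 536870912 1073741824 536870912 3) ndF0q0 ndF3q2 pcF3 Cut.none Ext.none)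

def k0_mm_023 : ∃ t, chk3 f_mm_023 t 1 1 1 = true :=
  ⟨(l 4), by decide +kernel⟩

theorem c_mm_023 : CertF 0 536870912 1073741824 536870912 33554432 16777216 true false false .up 0 2 3
    ndF0q0 ndF3q2 pcF3 Cut.none Ext.none :=
  certFK0 (fam := true) (s1 := false) (s2 := false) (a := 0) (b := 2) (c := 3) (cn := .up) (n1 := ndF0q0) (n2 := ndF3q2) (pc := pcF3) (cut := Cut.none) (xt := Ext.none) (P1 := 0) (W1 := 536870912) (P2 := 1073741824) (W2 := 536870912) (P3 := 33554432) (W3 := 16777216)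
    rfl rfl rfl k0_mm_023

noncomputable def f_mm_033 : ℕ → ℕ → ℕ → ℕ → Bool := onCell 0 536870912 0 1230186008 33554432 16777216
    (rowFK 0 true false false .pnn 0 3 3 (qsf 0 536870912 0 1230186008 3) ndF0q0 ndF3q3 pcF3 Cut.none Ext.none)

def k0_mm_033 : ∃ t, chk3 f_mm_033 t 1 1 1 = true :=
  ⟨(l 5), by decide +kernel⟩

theorem c_mm_033 : CertF 0 536870912 0 1230186008 33554432 16777216 true false false .pnn 0 3 3
    ndF0q0 ndF3q3 pcF3 Cut.none Ext.none :=
  certFK0 (fam := true) (s1 := false) (s2 := false) (a := 0) (b := 3) (c := 3) (cn := .pnn) (n1 := ndF0q0) (n2 := ndF3q3) (pc := pcF3) (cut := Cut.none) (xt := Ext.none) (P1 := 0) (W1 := 536870912) (P2 := 0) (W2 := 1230186008) (P3 := 33554432) (W3 := 16777216)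
    rfl rfl rfl k0_mm_033

noncomputable def f_mm_101 : ℕ → ℕ → ℕ → ℕ → Bool := onCell 536870912 536870912 0 536870912 33554432 16777216
    (rowFK 0 true false false .npn 1 0 1 (qsf 536870912 536870912 0 536870912 1) ndF0q1 ndF3q0 pcF1 Cut.none Ext.none)

def k0_mm_101 : ∃ t, chk3 f_mm_101 t 1 1 1 = true :=
  ⟨(l 4), by decide +kernel⟩

theorem c_mm_101 : CertF 536870912 536870912 0 536870912 33554432 16777216 true false false .npn 1 0 1
    ndF0q1 ndF3q0 pcF1 Cut.none Ext.none :=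
  certFK0 (fam := true) (s1 := false) (s2 := false) (a := 1) (b := 0) (c := 1) (cn := .npn) (n1 := ndF0q1) (n2 := ndF3q0) (pc := pcF1) (cut := Cut.none) (xt := Ext.none) (P1 := 536870912) (W1 := 536870912) (P2 := 0) (W2 := 536870912) (P3 := 33554432) (W3 := 16777216)
    rfl rfl rfl k0_mm_101

noncomputable def f_mm_102 : ℕ → ℕ → ℕ → ℕ → Bool := onCell 536870912 536870912 0 536870912 33554432 16777216
    (rowFK 0 true false false .npp 1 0 2 (qsf 536870912 536870912 0 536870912 2) ndF0q1 ndF3q0 pcF2 Cut.none Ext.none)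

def k0_mm_102 : ∃ t, chk3 f_mm_102 t 1 1 1 = true :=
  ⟨(l 4), by decide +kernel⟩

theorem c_mm_102 : CertF 536870912 536870912 0 536870912 33554432 16777216 true false false .npp 1 0 2
    ndF0q1 ndF3q0 pcF2 Cut.none Ext.none :=
  certFK0 (fam := true) (s1 := false) (s2 := false) (a := 1) (b := 0) (c := 2) (cn := .npp) (n1 := ndF0q1) (n2 := ndF3q0) (pc := pcF2) (cut := Cut.none) (xt := Ext.none) (P1 := 536870912) (W1 := 536870912) (P2 := 0) (W2 := 536870912) (P3 := 33554432) (W3 := 16777216)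
    rfl rfl rfl k0_mm_102

noncomputable def f_mm_112 : ℕ → ℕ → ℕ → ℕ → Bool := onCell 536870912 536870912 536870912 536870912 33554432 16777216
    (rowFK 0 true false false .dn 1 1 2 (qsf 536870912 536870912 536870912 536870912 2) ndF0q1 ndF3q1 pcF2 Cut.none Ext.none)

def k0_mm_112 : ∃ t, chk3 f_mm_112 t 1 1 1 = true :=
  ⟨(l 4), by decide +kernel⟩

theorem c_mm_112 : CertF 536870912 536870912 536870912 536870912 33554432 16777216 true false false .dn 1 1 2
    ndF0q1 ndF3q1 pcF2 Cut.none Ext.none :=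
  certFK0 (fam := true) (s1 := false) (s2 := false) (a := 1) (b := 1) (c := 2) (cn := .dn) (n1 := ndF0q1) (n2 := ndF3q1) (pc := pcF2) (cut := Cut.none) (xt := Ext.none) (P1 := 536870912) (W1 := 536870912) (P2 := 536870912) (W2 := 536870912) (P3 := 33554432) (W3 := 16777216)
    rfl rfl rfl k0_mm_112

noncomputable def f_mm_113 : ℕ → ℕ → ℕ → ℕ → Bool := onCell 536870912 536870912 536870912 536870912 33554432 16777216
    (rowFK 0 true false false .nn 1 1 3 (qsf 536870912 536870912 536870912 536870912 3) ndF0q1 ndF3q1 pcF3 Cut.none Ext.none)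

def k0_mm_113 : ∃ t, chk3 f_mm_113 t 1 1 1 = true :=
  ⟨(l 4), by decide +kernel⟩

theorem c_mm_113 : CertF 536870912 536870912 536870912 536870912 33554432 16777216 true false false .nn 1 1 3
    ndF0q1 ndF3q1 pcF3 Cut.none Ext.none :=
  certFK0 (fam := true) (s1 := false) (s2 := false) (a := 1) (b := 1) (c := 3) (cn := .nn) (n1 := ndF0q1) (n2 := ndF3q1) (pc := pcF3) (cut := Cut.none) (xt := Ext.none) (P1 := 536870912) (W1 := 536870912) (P2 := 536870912) (W2 := 536870912) (P3 := 33554432) (W3 := 16777216)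
    rfl rfl rfl k0_mm_113

noncomputable def f_mm_123 : ℕ → ℕ → ℕ → ℕ → Bool := onCell 536870912 536870912 1073741824 536870912 33554432 16777216
    (rowFK 0 true false false .npn 1 2 3 (qsf 536870912 536870912 1073741824 536870912 3) ndF0q1 ndF3q2 pcF3 Cut.none Ext.none)

def k0_mm_123 : ∃ t, chk3 f_mm_123 t 1 1 1 = true :=
  ⟨(l 4), by decide +kernel⟩

theorem c_mm_123 : CertF 536870912 536870912 1073741824 536870912 33554432 16777216 true false false .npn 1 2 3
    ndF0q1 ndF3q2 pcF3 Cut.none Ext.none :=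
  certFK0 (fam := true) (s1 := false) (s2 := false) (a := 1) (b := 2) (c := 3) (cn := .npn) (n1 := ndF0q1) (n2 := ndF3q2) (pc := pcF3) (cut := Cut.none) (xt := Ext.none) (P1 := 536870912) (W1 := 536870912) (P2 := 1073741824) (W2 := 536870912) (P3 := 33554432) (W3 := 16777216)
    rfl rfl rfl k0_mm_123

noncomputable def f_mm_133 : ℕ → ℕ → ℕ → ℕ → Bool := onCell 536870912 536870912 0 1230186008 33554432 16777216
    (rowFK 0 true false false .dn 1 3 3 (qsf 536870912 536870912 0 1230186008 3) ndF0q1 ndF3q3 pcF3 Cut.none Ext.none)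

def k0_mm_133 : ∃ t, chk3 f_mm_133 t 1 1 1 = true :=
  ⟨(l 4), by decide +kernel⟩

theorem c_mm_133 : CertF 536870912 536870912 0 1230186008 33554432 16777216 true false false .dn 1 3 3
    ndF0q1 ndF3q3 pcF3 Cut.none Ext.none :=
  certFK0 (fam := true) (s1 := false) (s2 := false) (a := 1) (b := 3) (c := 3) (cn := .dn) (n1 := ndF0q1) (n2 := ndF3q3) (pc := pcF3) (cut := Cut.none) (xt := Ext.none) (P1 := 536870912) (W1 := 536870912) (P2 := 0) (W2 := 1230186008) (P3 := 33554432) (W3 := 16777216)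
    rfl rfl rfl k0_mm_133

noncomputable def f_mm_202 : ℕ → ℕ → ℕ → ℕ → Bool := onCell 0 536870912 0 536870912 33554432 16777216
    (rowFK 0 true false false .pp 2 0 2 (qsf 0 536870912 0 536870912 2) ndF0q2 ndF3q0 pcF2 Cut.none Ext.none)

def k0_mm_202 : ∃ t, chk3 f_mm_202 t 1 1 1 = true :=
  ⟨(b (a (b (b (a (c (l 20612784) (l 18534496)) (l 4)) (l 4)) (l 4)) (l 4)) (l 4)), by decide +kernel⟩

theorem c_mm_202 : CertF 0 536870912 0 536870912 33554432 16777216 true false false .pp 2 0 2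
    ndF0q2 ndF3q0 pcF2 Cut.none Ext.none :=
  certFK0 (fam := true) (s1 := false) (s2 := false) (a := 2) (b := 0) (c := 2) (cn := .pp) (n1 := ndF0q2) (n2 := ndF3q0) (pc := pcF2) (cut := Cut.none) (xt := Ext.none) (P1 := 0) (W1 := 536870912) (P2 := 0) (W2 := 536870912) (P3 := 33554432) (W3 := 16777216)
    rfl rfl rfl k0_mm_202

noncomputable def f_mm_203 : ℕ → ℕ → ℕ → ℕ → Bool := onCell 0 536870912 1610612736 536870912 33554432 16777216
    (rowFK 1 true false false .up 2 0 3 (qsf 0 536870912 0 536870912 3) ndF0q2 ndF3q0 pcF3 Cut.none Ext.none)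

def k0_mm_203 : ∃ t, chk3 f_mm_203 t 1 1 1 = true :=
  ⟨(l 4), by decide +kernel⟩

theorem c_mm_203 : CertF 0 536870912 0 536870912 33554432 16777216 true false false .up 2 0 3
    ndF0q2 ndF3q0 pcF3 Cut.none Ext.none :=
  certFK1 (fam := true) (s1 := false) (s2 := false) (a := 2) (b := 0) (c := 3) (cn := .up) (n1 := ndF0q2) (n2 := ndF3q0) (pc := pcF3) (cut := Cut.none) (xt := Ext.none) (P1 := 0) (W1 := 536870912) (P2 := 0) (W2 := 536870912) (P3 := 33554432) (W3 := 16777216)
    rfl rfl rfl (fun _ => rfl) k0_mm_203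

noncomputable def f_mm_213 : ℕ → ℕ → ℕ → ℕ → Bool := onCell 0 536870912 536870912 536870912 33554432 16777216
    (rowFK 0 true false false .pnn 2 1 3 (qsf 0 536870912 536870912 536870912 3) ndF0q2 ndF3q1 pcF3 Cut.none Ext.none)

def k0_mm_213 : ∃ t, chk3 f_mm_213 t 1 1 1 = true :=
  ⟨(l 4), by decide +kernel⟩

theorem c_mm_213 : CertF 0 536870912 536870912 536870912 33554432 16777216 true false false .pnn 2 1 3
    ndF0q2 ndF3q1 pcF3 Cut.none Ext.none :=
  certFK0 (fam := true) (s1 := false) (s2 := false) (a := 2) (b := 1) (c := 3) (cn := .pnn) (n1 := ndF0q2) (n2 := ndF3q1) (pc := pcF3) (cut := Cut.none) (xt := Ext.none) (P1 := 0) (W1 := 536870912) (P2 := 536870912) (W2 := 536870912) (P3 := 33554432) (W3 := 16777216)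
    rfl rfl rfl k0_mm_213

end Pool.Agent.Strip051.G.I1_32_3_64.Tab.C.FA03

namespace Pool.Agent.Strip051.G.I1_32_3_64.Tab.C.FA04

open Pool.Agent.Strip051.PB Pool.Agent.Strip051.PB.T
open Pool.Agent.Strip051.G.I1_32_3_64.Tab

noncomputable def cut_pp_001 : Cut := Cut.of [[⟨3, 0, 0, 1449551462⟩]]

noncomputable def f_pp_001 : ℕ → ℕ → ℕ → ℕ → Bool := onCell 0 536870912 0 536870912 33554432 16777216
    (rowFK 0 true true true .up 0 0 1 (qsf 0 536870912 0 536870912 1) ndF0q0 ndF4q0 pcF1 cut_pp_001 Ext.none)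

def k0_pp_001 : ∃ t, chk3 f_pp_001 t 1 1 1 = true :=
  ⟨(l 4), by decide +kernel⟩

theorem c_pp_001 : CertF 0 536870912 0 536870912 33554432 16777216 true true true .up 0 0 1
    ndF0q0 ndF4q0 pcF1 cut_pp_001 Ext.none :=
  certFK0 (fam := true) (s1 := true) (s2 := true) (a := 0) (b := 0) (c := 1) (cn := .up) (n1 := ndF0q0) (n2 := ndF4q0) (pc := pcF1) (cut := cut_pp_001) (xt := Ext.none) (P1 := 0) (W1 := 536870912) (P2 := 0) (W2 := 536870912) (P3 := 33554432) (W3 := 16777216)
    rfl rfl rfl k0_pp_001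

noncomputable def cut_pp_011 : Cut := Cut.of [[⟨3, 0, 0, 1449551462⟩]]

noncomputable def f_pp_011 : ℕ → ℕ → ℕ → ℕ → Bool := onCell 0 536870912 536870912 536870912 33554432 16777216
    (rowFK 0 true true true .pnn 0 1 1 (qsf 0 536870912 536870912 536870912 1) ndF0q0 ndF4q1 pcF1 cut_pp_011 Ext.none)

def k0_pp_011 : ∃ t, chk3 f_pp_011 t 1 1 1 = true :=
  ⟨(l 4), by decide +kernel⟩

theorem c_pp_011 : CertF 0 536870912 536870912 536870912 33554432 16777216 true true true .pnn 0 1 1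
    ndF0q0 ndF4q1 pcF1 cut_pp_011 Ext.none :=
  certFK0 (fam := true) (s1 := true) (s2 := true) (a := 0) (b := 1) (c := 1) (cn := .pnn) (n1 := ndF0q0) (n2 := ndF4q1) (pc := pcF1) (cut := cut_pp_011) (xt := Ext.none) (P1 := 0) (W1 := 536870912) (P2 := 536870912) (W2 := 536870912) (P3 := 33554432) (W3 := 16777216)
    rfl rfl rfl k0_pp_011

noncomputable def cut_pp_012 : Cut := Cut.of [[⟨3, 0, 0, 1449551462⟩]]

noncomputable def f_pp_012 : ℕ → ℕ → ℕ → ℕ → Bool := onCell 0 536870912 536870912 536870912 33554432 16777216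
    (rowFK 0 true true true .pnp 0 1 2 (qsf 0 536870912 536870912 536870912 2) ndF0q0 ndF4q1 pcF2 cut_pp_012 Ext.none)

def k0_pp_012 : ∃ t, chk3 f_pp_012 t 1 1 1 = true :=
  ⟨(l 4), by decide +kernel⟩

theorem c_pp_012 : CertF 0 536870912 536870912 536870912 33554432 16777216 true true true .pnp 0 1 2
    ndF0q0 ndF4q1 pcF2 cut_pp_012 Ext.none :=
  certFK0 (fam := true) (s1 := true) (s2 := true) (a := 0) (b := 1) (c := 2) (cn := .pnp) (n1 := ndF0q0) (n2 := ndF4q1) (pc := pcF2) (cut := cut_pp_012) (xt := Ext.none) (P1 := 0) (W1 := 536870912) (P2 := 536870912) (W2 := 536870912) (P3 := 33554432) (W3 := 16777216)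
    rfl rfl rfl k0_pp_012

noncomputable def cut_pp_022 : Cut := Cut.of [[⟨3, 0, 0, 1449551462⟩]]

noncomputable def f_pp_022 : ℕ → ℕ → ℕ → ℕ → Bool := onCell 0 536870912 1073741824 536870912 33554432 16777216
    (rowFK 0 true true true .pp 0 2 2 (qsf 0 536870912 1073741824 536870912 2) ndF0q0 ndF4q2 pcF2 cut_pp_022 Ext.none)

def k0_pp_022 : ∃ t, chk3 f_pp_022 t 1 1 1 = true :=
  ⟨(l 4), by decide +kernel⟩

theorem c_pp_022 : CertF 0 536870912 1073741824 536870912 33554432 16777216 true true true .pp 0 2 2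
    ndF0q0 ndF4q2 pcF2 cut_pp_022 Ext.none :=
  certFK0 (fam := true) (s1 := true) (s2 := true) (a := 0) (b := 2) (c := 2) (cn := .pp) (n1 := ndF0q0) (n2 := ndF4q2) (pc := pcF2) (cut := cut_pp_022) (xt := Ext.none) (P1 := 0) (W1 := 536870912) (P2 := 1073741824) (W2 := 536870912) (P3 := 33554432) (W3 := 16777216)
    rfl rfl rfl k0_pp_022

noncomputable def cut_pp_023 : Cut := Cut.of [[⟨3, 0, 0, 1449551462⟩]]

noncomputable def f_pp_023 : ℕ → ℕ → ℕ → ℕ → Bool := onCell 0 536870912 1073741824 536870912 33554432 16777216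
    (rowFK 0 true true true .up 0 2 3 (qsf 0 536870912 1073741824 536870912 3) ndF0q0 ndF4q2 pcF3 cut_pp_023 Ext.none)

def k0_pp_023 : ∃ t, chk3 f_pp_023 t 1 1 1 = true :=
  ⟨(l 4), by decide +kernel⟩

theorem c_pp_023 : CertF 0 536870912 1073741824 536870912 33554432 16777216 true true true .up 0 2 3
    ndF0q0 ndF4q2 pcF3 cut_pp_023 Ext.none :=
  certFK0 (fam := true) (s1 := true) (s2 := true) (a := 0) (b := 2) (c := 3) (cn := .up) (n1 := ndF0q0) (n2 := ndF4q2) (pc := pcF3) (cut := cut_pp_023) (xt := Ext.none) (P1 := 0) (W1 := 536870912) (P2 := 1073741824) (W2 := 536870912) (P3 := 33554432) (W3 := 16777216)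
    rfl rfl rfl k0_pp_023

noncomputable def cut_pp_033 : Cut := Cut.of [[⟨3, 0, 0, 1449551462⟩]]

noncomputable def f_pp_033 : ℕ → ℕ → ℕ → ℕ → Bool := onCell 0 536870912 0 1230186008 33554432 16777216
    (rowFK 0 true true true .pnn 0 3 3 (qsf 0 536870912 0 1230186008 3) ndF0q0 ndF4q3 pcF3 cut_pp_033 Ext.none)

def k0_pp_033 : ∃ t, chk3 f_pp_033 t 1 1 1 = true :=
  ⟨(l 4), by decide +kernel⟩

theorem c_pp_033 : CertF 0 536870912 0 1230186008 33554432 16777216 true true true .pnn 0 3 3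
    ndF0q0 ndF4q3 pcF3 cut_pp_033 Ext.none :=
  certFK0 (fam := true) (s1 := true) (s2 := true) (a := 0) (b := 3) (c := 3) (cn := .pnn) (n1 := ndF0q0) (n2 := ndF4q3) (pc := pcF3) (cut := cut_pp_033) (xt := Ext.none) (P1 := 0) (W1 := 536870912) (P2 := 0) (W2 := 1230186008) (P3 := 33554432) (W3 := 16777216)
    rfl rfl rfl k0_pp_033

noncomputable def cut_pp_101 : Cut := Cut.of [[⟨3, 0, 0, 1449551462⟩]]

noncomputable def f_pp_101 : ℕ → ℕ → ℕ → ℕ → Bool := onCell 536870912 536870912 0 536870912 33554432 16777216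
    (rowFK 0 true true true .npn 1 0 1 (qsf 536870912 536870912 0 536870912 1) ndF0q1 ndF4q0 pcF1 cut_pp_101 Ext.none)

def k0_pp_101 : ∃ t, chk3 f_pp_101 t 1 1 1 = true :=
  ⟨(l 4), by decide +kernel⟩

theorem c_pp_101 : CertF 536870912 536870912 0 536870912 33554432 16777216 true true true .npn 1 0 1
    ndF0q1 ndF4q0 pcF1 cut_pp_101 Ext.none :=
  certFK0 (fam := true) (s1 := true) (s2 := true) (a := 1) (b := 0) (c := 1) (cn := .npn) (n1 := ndF0q1) (n2 := ndF4q0) (pc := pcF1) (cut := cut_pp_101) (xt := Ext.none) (P1 := 536870912) (W1 := 536870912) (P2 := 0) (W2 := 536870912) (P3 := 33554432) (W3 := 16777216)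
    rfl rfl rfl k0_pp_101

noncomputable def cut_pp_102 : Cut := Cut.of [[⟨3, 0, 0, 1449551462⟩]]

noncomputable def f_pp_102 : ℕ → ℕ → ℕ → ℕ → Bool := onCell 536870912 536870912 0 536870912 33554432 16777216
    (rowFK 0 true true true .npp 1 0 2 (qsf 536870912 536870912 0 536870912 2) ndF0q1 ndF4q0 pcF2 cut_pp_102 Ext.none)

def k0_pp_102 : ∃ t, chk3 f_pp_102 t 1 1 1 = true :=
  ⟨(l 4), by decide +kernel⟩

theorem c_pp_102 : CertF 536870912 536870912 0 536870912 33554432 16777216 true true true .npp 1 0 2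
    ndF0q1 ndF4q0 pcF2 cut_pp_102 Ext.none :=
  certFK0 (fam := true) (s1 := true) (s2 := true) (a := 1) (b := 0) (c := 2) (cn := .npp) (n1 := ndF0q1) (n2 := ndF4q0) (pc := pcF2) (cut := cut_pp_102) (xt := Ext.none) (P1 := 536870912) (W1 := 536870912) (P2 := 0) (W2 := 536870912) (P3 := 33554432) (W3 := 16777216)
    rfl rfl rfl k0_pp_102

noncomputable def cut_pp_112 : Cut := Cut.of [[⟨3, 0, 0, 1449551462⟩]]

noncomputable def f_pp_112 : ℕ → ℕ → ℕ → ℕ → Bool := onCell 536870912 536870912 536870912 536870912 33554432 16777216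
    (rowFK 0 true true true .dn 1 1 2 (qsf 536870912 536870912 536870912 536870912 2) ndF0q1 ndF4q1 pcF2 cut_pp_112 Ext.none)

def k0_pp_112 : ∃ t, chk3 f_pp_112 t 1 1 1 = true :=
  ⟨(l 4), by decide +kernel⟩

theorem c_pp_112 : CertF 536870912 536870912 536870912 536870912 33554432 16777216 true true true .dn 1 1 2
    ndF0q1 ndF4q1 pcF2 cut_pp_112 Ext.none :=
  certFK0 (fam := true) (s1 := true) (s2 := true) (a := 1) (b := 1) (c := 2) (cn := .dn) (n1 := ndF0q1) (n2 := ndF4q1) (pc := pcF2) (cut := cut_pp_112) (xt := Ext.none) (P1 := 536870912) (W1 := 536870912) (P2 := 536870912) (W2 := 536870912) (P3 := 33554432) (W3 := 16777216)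
    rfl rfl rfl k0_pp_112

noncomputable def cut_pp_113 : Cut := Cut.of [[⟨3, 0, 0, 1449551462⟩]]

noncomputable def f_pp_113 : ℕ → ℕ → ℕ → ℕ → Bool := onCell 536870912 536870912 536870912 536870912 33554432 16777216
    (rowFK 0 true true true .nn 1 1 3 (qsf 536870912 536870912 536870912 536870912 3) ndF0q1 ndF4q1 pcF3 cut_pp_113 Ext.none)

def k0_pp_113 : ∃ t, chk3 f_pp_113 t 1 1 1 = true :=
  ⟨(l 4), by decide +kernel⟩

theorem c_pp_113 : CertF 536870912 536870912 536870912 536870912 33554432 16777216 true true true .nn 1 1 3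
    ndF0q1 ndF4q1 pcF3 cut_pp_113 Ext.none :=
  certFK0 (fam := true) (s1 := true) (s2 := true) (a := 1) (b := 1) (c := 3) (cn := .nn) (n1 := ndF0q1) (n2 := ndF4q1) (pc := pcF3) (cut := cut_pp_113) (xt := Ext.none) (P1 := 536870912) (W1 := 536870912) (P2 := 536870912) (W2 := 536870912) (P3 := 33554432) (W3 := 16777216)
    rfl rfl rfl k0_pp_113

noncomputable def cut_pp_123 : Cut := Cut.of [[⟨3, 0, 0, 1449551462⟩]]

noncomputable def f_pp_123 : ℕ → ℕ → ℕ → ℕ → Bool := onCell 536870912 536870912 1073741824 536870912 33554432 16777216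
    (rowFK 0 true true true .npn 1 2 3 (qsf 536870912 536870912 1073741824 536870912 3) ndF0q1 ndF4q2 pcF3 cut_pp_123 Ext.none)

def k0_pp_123 : ∃ t, chk3 f_pp_123 t 1 1 1 = true :=
  ⟨(l 4), by decide +kernel⟩

theorem c_pp_123 : CertF 536870912 536870912 1073741824 536870912 33554432 16777216 true true true .npn 1 2 3
    ndF0q1 ndF4q2 pcF3 cut_pp_123 Ext.none :=
  certFK0 (fam := true) (s1 := true) (s2 := true) (a := 1) (b := 2) (c := 3) (cn := .npn) (n1 := ndF0q1) (n2 := ndF4q2) (pc := pcF3) (cut := cut_pp_123) (xt := Ext.none) (P1 := 536870912) (W1 := 536870912) (P2 := 1073741824) (W2 := 536870912) (P3 := 33554432) (W3 := 16777216)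
    rfl rfl rfl k0_pp_123

noncomputable def cut_pp_133 : Cut := Cut.of [[⟨3, 0, 0, 1449551462⟩]]

noncomputable def f_pp_133 : ℕ → ℕ → ℕ → ℕ → Bool := onCell 536870912 536870912 0 1230186008 33554432 16777216
    (rowFK 0 true true true .dn 1 3 3 (qsf 536870912 536870912 0 1230186008 3) ndF0q1 ndF4q3 pcF3 cut_pp_133 Ext.none)

def k0_pp_133 : ∃ t, chk3 f_pp_133 t 1 1 1 = true :=
  ⟨(l 4), by decide +kernel⟩

theorem c_pp_133 : CertF 536870912 536870912 0 1230186008 33554432 16777216 true true true .dn 1 3 3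
    ndF0q1 ndF4q3 pcF3 cut_pp_133 Ext.none :=
  certFK0 (fam := true) (s1 := true) (s2 := true) (a := 1) (b := 3) (c := 3) (cn := .dn) (n1 := ndF0q1) (n2 := ndF4q3) (pc := pcF3) (cut := cut_pp_133) (xt := Ext.none) (P1 := 536870912) (W1 := 536870912) (P2 := 0) (W2 := 1230186008) (P3 := 33554432) (W3 := 16777216)
    rfl rfl rfl k0_pp_133

noncomputable def cut_pp_202 : Cut := Cut.of [[⟨3, 0, 0, 1449551462⟩]]

noncomputable def f_pp_202 : ℕ → ℕ → ℕ → ℕ → Bool := onCell 0 536870912 0 536870912 33554432 16777216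
    (rowFK 0 true true true .pp 2 0 2 (qsf 0 536870912 0 536870912 2) ndF0q2 ndF4q0 pcF2 cut_pp_202 Ext.none)

def k0_pp_202 : ∃ t, chk3 f_pp_202 t 1 1 1 = true :=
  ⟨(l 4), by decide +kernel⟩

theorem c_pp_202 : CertF 0 536870912 0 536870912 33554432 16777216 true true true .pp 2 0 2
    ndF0q2 ndF4q0 pcF2 cut_pp_202 Ext.none :=
  certFK0 (fam := true) (s1 := true) (s2 := true) (a := 2) (b := 0) (c := 2) (cn := .pp) (n1 := ndF0q2) (n2 := ndF4q0) (pc := pcF2) (cut := cut_pp_202) (xt := Ext.none) (P1 := 0) (W1 := 536870912) (P2 := 0) (W2 := 536870912) (P3 := 33554432) (W3 := 16777216)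
    rfl rfl rfl k0_pp_202

noncomputable def cut_pp_203 : Cut := Cut.of [[⟨3, 0, 0, 1449551462⟩]]

noncomputable def f_pp_203 : ℕ → ℕ → ℕ → ℕ → Bool := onCell 0 536870912 0 536870912 33554432 16777216
    (rowFK 0 true true true .up 2 0 3 (qsf 0 536870912 0 536870912 3) ndF0q2 ndF4q0 pcF3 cut_pp_203 Ext.none)

def k0_pp_203 : ∃ t, chk3 f_pp_203 t 1 1 1 = true :=
  ⟨(l 4), by decide +kernel⟩

theorem c_pp_203 : CertF 0 536870912 0 536870912 33554432 16777216 true true true .up 2 0 3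
    ndF0q2 ndF4q0 pcF3 cut_pp_203 Ext.none :=
  certFK0 (fam := true) (s1 := true) (s2 := true) (a := 2) (b := 0) (c := 3) (cn := .up) (n1 := ndF0q2) (n2 := ndF4q0) (pc := pcF3) (cut := cut_pp_203) (xt := Ext.none) (P1 := 0) (W1 := 536870912) (P2 := 0) (W2 := 536870912) (P3 := 33554432) (W3 := 16777216)
    rfl rfl rfl k0_pp_203

noncomputable def cut_pp_213 : Cut := Cut.of [[⟨3, 0, 0, 1449551462⟩]]

noncomputable def f_pp_213 : ℕ → ℕ → ℕ → ℕ → Bool := onCell 0 536870912 536870912 536870912 33554432 16777216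
    (rowFK 0 true true true .pnn 2 1 3 (qsf 0 536870912 536870912 536870912 3) ndF0q2 ndF4q1 pcF3 cut_pp_213 Ext.none)

def k0_pp_213 : ∃ t, chk3 f_pp_213 t 1 1 1 = true :=
  ⟨(l 4), by decide +kernel⟩

theorem c_pp_213 : CertF 0 536870912 536870912 536870912 33554432 16777216 true true true .pnn 2 1 3
    ndF0q2 ndF4q1 pcF3 cut_pp_213 Ext.none :=
  certFK0 (fam := true) (s1 := true) (s2 := true) (a := 2) (b := 1) (c := 3) (cn := .pnn) (n1 := ndF0q2) (n2 := ndF4q1) (pc := pcF3) (cut := cut_pp_213) (xt := Ext.none) (P1 := 0) (W1 := 536870912) (P2 := 536870912) (W2 := 536870912) (P3 := 33554432) (W3 := 16777216)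
    rfl rfl rfl k0_pp_213

noncomputable def cut_pm_001 : Cut := Cut.of [[⟨3, 0, 0, 1449551462⟩]]

noncomputable def f_pm_001 : ℕ → ℕ → ℕ → ℕ → Bool := onCell 0 536870912 536870912 536870912 33554432 16777216
    (rowFK 1 true true false .up 0 0 1 (qsf 0 536870912 0 536870912 1) ndF0q0 ndF4q0 pcF1 cut_pm_001 Ext.none)

def k0_pm_001 : ∃ t, chk3 f_pm_001 t 1 1 1 = true :=
  ⟨(a (l 6) (b (l 6) (b (l 6) (a (l 6) (b (l 6) (a (l 6) (l 18193696))))))), by decide +kernel⟩

theorem c_pm_001 : CertF 0 536870912 0 536870912 33554432 16777216 true true false .up 0 0 1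
    ndF0q0 ndF4q0 pcF1 cut_pm_001 Ext.none :=
  certFK1 (fam := true) (s1 := true) (s2 := false) (a := 0) (b := 0) (c := 1) (cn := .up) (n1 := ndF0q0) (n2 := ndF4q0) (pc := pcF1) (cut := cut_pm_001) (xt := Ext.none) (P1 := 0) (W1 := 536870912) (P2 := 0) (W2 := 536870912) (P3 := 33554432) (W3 := 16777216)
    rfl rfl rfl (fun _ => rfl) k0_pm_001

noncomputable def cut_pm_011 : Cut := Cut.of [[⟨3, 0, 0, 1449551462⟩], [⟨0, 0, 0, 16777216⟩, ⟨1, 1, 0, 16777216⟩, ⟨2, 1, 0, 16777216⟩]]

noncomputable def f_pm_011 : ℕ → ℕ → ℕ → ℕ → Bool := onCell 0 536870912 536870912 536870912 33554432 16777216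
    (rowFK 1 true true false .pnn 0 1 1 (qsf 0 536870912 536870912 536870912 1) ndF0q0 ndF4q1 pcF1 cut_pm_011 Ext.none)

def k0_pm_011 : ∃ t, chk3 f_pm_011 t 1 1 1 = true :=
  ⟨(b (l 6) (a (l 6) (b (l 6) (a (l 6) (b (l 6) (a (l 6) (l 18184160))))))), by decide +kernel⟩

theorem c_pm_011 : CertF 0 536870912 536870912 536870912 33554432 16777216 true true false .pnn 0 1 1
    ndF0q0 ndF4q1 pcF1 cut_pm_011 Ext.none :=
  certFK1 (fam := true) (s1 := true) (s2 := false) (a := 0) (b := 1) (c := 1) (cn := .pnn) (n1 := ndF0q0) (n2 := ndF4q1) (pc := pcF1) (cut := cut_pm_011) (xt := Ext.none) (P1 := 0) (W1 := 536870912) (P2 := 536870912) (W2 := 536870912) (P3 := 33554432) (W3 := 16777216)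
    rfl rfl rfl (fun _ => rfl) k0_pm_011

noncomputable def cut_pm_012 : Cut := Cut.of [[⟨3, 0, 0, 1449551462⟩], [⟨0, 0, 0, 33554432⟩, ⟨1, 1, 0, 33554432⟩, ⟨2, 1, 0, 33554432⟩]]

noncomputable def f_pm_012 : ℕ → ℕ → ℕ → ℕ → Bool := onCell 0 536870912 1073741824 536870912 33554432 16777216
    (rowFK 1 true true false .pnp 0 1 2 (qsf 0 536870912 536870912 536870912 2) ndF0q0 ndF4q1 pcF2 cut_pm_012 Ext.none)

def k0_pm_012 : ∃ t, chk3 f_pm_012 t 1 1 1 = true :=
  ⟨(a (b (b (l 6) (b (a (l 6) (a (l 6) (l 20256992))) (a (l 2) (a (a (l 2) (l 20970048)) (l 20765008))))) (a (l 2) (b (a (l 2) (b (l 20991584) (l 2))) (l 2)))) (a (b (b (b (l 6) (l 19381264)) (a (l 20119360) (l 19823064))) (b (a (l 20751552) (l 20427536)) (a (l 2) (l 20677144)))) (b (b (b (b (b (b (l 18621440) (l 18650952)) (l 18696240)) (l 18798112)) (l 19012112)) (l 19449120)) (b (l 20011392) (l 20426912))))), by decide +kernel⟩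

theorem c_pm_012 : CertF 0 536870912 536870912 536870912 33554432 16777216 true true false .pnp 0 1 2
    ndF0q0 ndF4q1 pcF2 cut_pm_012 Ext.none :=
  certFK1 (fam := true) (s1 := true) (s2 := false) (a := 0) (b := 1) (c := 2) (cn := .pnp) (n1 := ndF0q0) (n2 := ndF4q1) (pc := pcF2) (cut := cut_pm_012) (xt := Ext.none) (P1 := 0) (W1 := 536870912) (P2 := 536870912) (W2 := 536870912) (P3 := 33554432) (W3 := 16777216)
    rfl rfl rfl (fun _ => rfl) k0_pm_012

noncomputable def cut_pm_022 : Cut := Cut.of [[⟨3, 0, 0, 1449551462⟩], [⟨0, 0, 0, 33554432⟩, ⟨1, 1, 0, 33554432⟩, ⟨2, 1, 0, 33554432⟩]]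

noncomputable def f_pm_022 : ℕ → ℕ → ℕ → ℕ → Bool := onCell 0 536870912 1073741824 536870912 33554432 16777216
    (rowFK 0 true true false .pp 0 2 2 (qsf 0 536870912 1073741824 536870912 2) ndF0q0 ndF4q2 pcF2 cut_pm_022 Ext.none)

def k0_pm_022 : ∃ t, chk3 f_pm_022 t 1 1 1 = true :=
  ⟨(a (b (a (b (a (l 6) (b (l 6) (l 20202272))) (b (l 20208376) (l 19789568))) (b (b (l 20855440) (l 20323424)) (l 19816816))) (a (b (l 19427112) (l 18947976)) (b (l 19114648) (l 18511744)))) (b (a (b (l 20189552) (l 19384400)) (b (l 20023544) (l 19215472))) (a (b (l 18590896) (l 2)) (l 2)))), by decide +kernel⟩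

theorem c_pm_022 : CertF 0 536870912 1073741824 536870912 33554432 16777216 true true false .pp 0 2 2
    ndF0q0 ndF4q2 pcF2 cut_pm_022 Ext.none :=
  certFK0 (fam := true) (s1 := true) (s2 := false) (a := 0) (b := 2) (c := 2) (cn := .pp) (n1 := ndF0q0) (n2 := ndF4q2) (pc := pcF2) (cut := cut_pm_022) (xt := Ext.none) (P1 := 0) (W1 := 536870912) (P2 := 1073741824) (W2 := 536870912) (P3 := 33554432) (W3 := 16777216)
    rfl rfl rfl k0_pm_022

noncomputable def cut_pm_023 : Cut := Cut.of [[⟨3, 0, 0, 1449551462⟩]]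

noncomputable def f_pm_023 : ℕ → ℕ → ℕ → ℕ → Bool := onCell 0 536870912 1073741824 536870912 33554432 16777216
    (rowFK 0 true true false .up 0 2 3 (qsf 0 536870912 1073741824 536870912 3) ndF0q0 ndF4q2 pcF3 cut_pm_023 Ext.none)

def k0_pm_023 : ∃ t, chk3 f_pm_023 t 1 1 1 = true :=
  ⟨(a (b (a (l 1) (b (l 1) (l 19860632))) (b (a (l 19849592) (l 19260976)) (a (b (l 19675512) (l 19575576)) (a (l 19033720) (l 18522480))))) (b (a (b (l 20113208) (l 19596048)) (b (l 19878008) (l 19197160))) (a (b (a (l 18688872) (l 18512360)) (b (a (l 18153984) (l 17923728)) (a (l 17961656) (l 17694688)))) (b (l 18396872) (a (l 17739536) (b (l 17818504) (a (l 17603960) (b (l 17597424) (b (l 17529576) (a (l 17511832) (a (l 17485360) (b (l 17473624) (l 4))))))))))))), by decide +kernel⟩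

theorem c_pm_023 : CertF 0 536870912 1073741824 536870912 33554432 16777216 true true false .up 0 2 3
    ndF0q0 ndF4q2 pcF3 cut_pm_023 Ext.none :=
  certFK0 (fam := true) (s1 := true) (s2 := false) (a := 0) (b := 2) (c := 3) (cn := .up) (n1 := ndF0q0) (n2 := ndF4q2) (pc := pcF3) (cut := cut_pm_023) (xt := Ext.none) (P1 := 0) (W1 := 536870912) (P2 := 1073741824) (W2 := 536870912) (P3 := 33554432) (W3 := 16777216)
    rfl rfl rfl k0_pm_023

noncomputable def cut_pm_033 : Cut := Cut.of [[⟨3, 0, 0, 1449551462⟩]]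

noncomputable def f_pm_033 : ℕ → ℕ → ℕ → ℕ → Bool := onCell 1610612736 536870912 0 1230186008 33554432 16777216
    (rowFK 2 true true false .pnn 0 3 3 (qsf 0 536870912 0 1230186008 3) ndF0q0 ndF4q3 pcF3 cut_pm_033 Ext.none)

def k0_pm_033 : ∃ t, chk3 f_pm_033 t 1 1 1 = true :=
  ⟨(a (b (l 1) (b (b (l 1) (a (l 1) (b (l 1) (l 60166053447)))) (b (a (l 1) (b (a (l 18119176) (l 18086000)) (l 18632120))) (a (b (l 19325056) (l 19505192)) (b (l 18931512) (a (l 19078936) (l 18704216))))))) (a (b (l 1) (b (b (a (l 1) (l 18500416)) (a (l 18999272) (l 18467848))) (b (b (a (l 18033368) (l 18050832)) (l 18177200)) (b (a (l 18525272) (l 18073088)) (a (l 18205968) (l 17990400)))))) (b (b (l 4) (a (l 18343544) (a (l 18261552) (l 4)))) (a (b (b (l 18283912) (l 18107872)) (b (b (l 17885720) (l 17853568)) (b (l 17733184) (l 17575680)))) (b (a (b (l 18055168) (l 17870984)) (a (l 17912560) (b (l 4) (a (l 17699736) (b (l 4) (l 17612920)))))) (a (b (l 17620776) (l 17548048)) (a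 (b (l 17507512) (l 17482328)) (b (a (l 17468232) (b (l 17509040) (a (l 17454768) (l 17442096)))) (a (l 17467784) (b (l 17465352) (l 17474776))))))))))), by decide +kernel⟩

theorem c_pm_033 : CertF 0 536870912 0 1230186008 33554432 16777216 true true false .pnn 0 3 3
    ndF0q0 ndF4q3 pcF3 cut_pm_033 Ext.none :=
  certFK2 (fam := true) (s1 := true) (s2 := false) (a := 0) (b := 3) (c := 3) (cn := .pnn) (n1 := ndF0q0) (n2 := ndF4q3) (pc := pcF3) (cut := cut_pm_033) (xt := Ext.none) (P1 := 0) (W1 := 536870912) (P2 := 0) (W2 := 1230186008) (P3 := 33554432) (W3 := 16777216)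
    rfl rfl rfl (fun _ => rfl) k0_pm_033

noncomputable def cut_pm_101 : Cut := Cut.of [[⟨3, 0, 0, 1449551462⟩]]

noncomputable def f_pm_101 : ℕ → ℕ → ℕ → ℕ → Bool := onCell 536870912 536870912 536870912 536870912 33554432 16777216
    (rowFK 1 true true false .npn 1 0 1 (qsf 536870912 536870912 0 536870912 1) ndF0q1 ndF4q0 pcF1 cut_pm_101 Ext.none)

def k0_pm_101 : ∃ t, chk3 f_pm_101 t 1 1 1 = true :=
  ⟨(a (b (b (l 6) (a (l 6) (b (l 6) (l 17931240)))) (b (a (l 6) (a (l 18202072) (l 18065840))) (a (b (a (l 6) (l 18151000)) (l 18397040)) (a (l 18458912) (l 18505912))))) (b (a (b (l 1) (a (l 17926616) (l 1))) (l 1)) (a (b (a (l 18196552) (l 18538384)) (b (l 18629160) (b (l 18754856) (b (l 18824416) (b (l 18858448) (l 18884472)))))) (b (l 143920247271) (b (l 19293680) (b (l 19404424) (b (l 19473776) (b (l 19513064) (l 19542304))))))))), by decide +kernel⟩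

theorem c_pm_101 : CertF 536870912 536870912 0 536870912 33554432 16777216 true true false .npn 1 0 1
    ndF0q1 ndF4q0 pcF1 cut_pm_101 Ext.none :=
  certFK1 (fam := true) (s1 := true) (s2 := false) (a := 1) (b := 0) (c := 1) (cn := .npn) (n1 := ndF0q1) (n2 := ndF4q0) (pc := pcF1) (cut := cut_pm_101) (xt := Ext.none) (P1 := 536870912) (W1 := 536870912) (P2 := 0) (W2 := 536870912) (P3 := 33554432) (W3 := 16777216)
    rfl rfl rfl (fun _ => rfl) k0_pm_101

noncomputable def cut_pm_102 : Cut := Cut.of [[⟨3, 0, 0, 1449551462⟩]]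

noncomputable def f_pm_102 : ℕ → ℕ → ℕ → ℕ → Bool := onCell 536870912 536870912 1073741824 536870912 33554432 16777216
    (rowFK 1 true true false .npp 1 0 2 (qsf 536870912 536870912 0 536870912 2) ndF0q1 ndF4q0 pcF2 cut_pm_102 Ext.none)

def k0_pm_102 : ∃ t, chk3 f_pm_102 t 1 1 1 = true :=
  ⟨(a (b (a (b (b (b (b (b (l 18615752) (l 18621784)) (l 18633912)) (l 18665032)) (l 18758272)) (a (l 2) (l 18981896))) (b (b (b (b (b (l 18858680) (l 18847552)) (l 18833232)) (l 18807016)) (l 18753384)) (l 18842352))) (a (l 2) (b (l 321691480983) (l 2)))) (b (a (b (b (b (b (b (l 19127576) (l 19122024)) (l 19103904)) (l 19051320)) (l 18973704)) (l 18887592)) (b (l 19581224) (l 19168592))) (a (b (l 18680168) (l 367324913687)) (b (l 18703240) (b (l 18275864) (l 18150680)))))), by decide +kernel⟩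

theorem c_pm_102 : CertF 536870912 536870912 0 536870912 33554432 16777216 true true false .npp 1 0 2
    ndF0q1 ndF4q0 pcF2 cut_pm_102 Ext.none :=
  certFK1 (fam := true) (s1 := true) (s2 := false) (a := 1) (b := 0) (c := 2) (cn := .npp) (n1 := ndF0q1) (n2 := ndF4q0) (pc := pcF2) (cut := cut_pm_102) (xt := Ext.none) (P1 := 536870912) (W1 := 536870912) (P2 := 0) (W2 := 536870912) (P3 := 33554432) (W3 := 16777216)
    rfl rfl rfl (fun _ => rfl) k0_pm_102

noncomputable def cut_pm_112 : Cut := Cut.of [[⟨3, 0, 0, 1449551462⟩]]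

noncomputable def f_pm_112 : ℕ → ℕ → ℕ → ℕ → Bool := onCell 536870912 536870912 1073741824 536870912 33554432 16777216
    (rowFK 1 true true false .dn 1 1 2 (qsf 536870912 536870912 536870912 536870912 2) ndF0q1 ndF4q1 pcF2 cut_pm_112 Ext.none)

def k0_pm_112 : ∃ t, chk3 f_pm_112 t 1 1 1 = true :=
  ⟨(a (a (b (b (b (b (b (b (l 18605184) (l 18611048)) (l 18621496)) (l 18648504)) (l 18728944)) (l 19020184)) (b (l 19460120) (l 19866352))) (b (b (b (l 1) (l 18732056)) (l 18750184)) (b (l 18989632) (l 19297656)))) (b (a (b (l 1) (l 18786360)) (l 1)) (a (b (l 18629288) (l 18691760)) (b (l 18643720) (l 18182272))))), by decide +kernel⟩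

theorem c_pm_112 : CertF 536870912 536870912 536870912 536870912 33554432 16777216 true true false .dn 1 1 2
    ndF0q1 ndF4q1 pcF2 cut_pm_112 Ext.none :=
  certFK1 (fam := true) (s1 := true) (s2 := false) (a := 1) (b := 1) (c := 2) (cn := .dn) (n1 := ndF0q1) (n2 := ndF4q1) (pc := pcF2) (cut := cut_pm_112) (xt := Ext.none) (P1 := 536870912) (W1 := 536870912) (P2 := 536870912) (W2 := 536870912) (P3 := 33554432) (W3 := 16777216)
    rfl rfl rfl (fun _ => rfl) k0_pm_112

noncomputable def cut_pm_113 : Cut := Cut.of [[⟨3, 0, 0, 1449551462⟩]]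

noncomputable def f_pm_113 : ℕ → ℕ → ℕ → ℕ → Bool := onCell 536870912 536870912 1610612736 536870912 33554432 16777216
    (rowFK 1 true true false .nn 1 1 3 (qsf 536870912 536870912 536870912 536870912 3) ndF0q1 ndF4q1 pcF3 cut_pm_113 Ext.none)

def k0_pm_113 : ∃ t, chk3 f_pm_113 t 1 1 1 = true :=
  ⟨(a (b (b (a (l 19660928) (l 18815008)) (a (l 20059288) (l 19222352))) (b (a (l 2) (b (l 19356872) (l 2))) (l 2))) (a (b (b (l 18427920) (l 18846840)) (b (b (l 18916456) (l 19033016)) (l 4))) (b (b (l 18193056) (l 18325872)) (l 4)))), by decide +kernel⟩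

theorem c_pm_113 : CertF 536870912 536870912 536870912 536870912 33554432 16777216 true true false .nn 1 1 3
    ndF0q1 ndF4q1 pcF3 cut_pm_113 Ext.none :=
  certFK1 (fam := true) (s1 := true) (s2 := false) (a := 1) (b := 1) (c := 3) (cn := .nn) (n1 := ndF0q1) (n2 := ndF4q1) (pc := pcF3) (cut := cut_pm_113) (xt := Ext.none) (P1 := 536870912) (W1 := 536870912) (P2 := 536870912) (W2 := 536870912) (P3 := 33554432) (W3 := 16777216)
    rfl rfl rfl (fun _ => rfl) k0_pm_113

noncomputable def cut_pm_123 : Cut := Cut.of [[⟨3, 0, 0, 1449551462⟩]]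

noncomputable def f_pm_123 : ℕ → ℕ → ℕ → ℕ → Bool := onCell 536870912 536870912 1610612736 536870912 33554432 16777216
    (rowFK 1 true true false .npn 1 2 3 (qsf 536870912 536870912 1073741824 536870912 3) ndF0q1 ndF4q2 pcF3 cut_pm_123 Ext.none)

def k0_pm_123 : ∃ t, chk3 f_pm_123 t 1 1 1 = true :=
  ⟨(a (a (b (b (l 19672824) (l 19060592)) (b (b (l 18550808) (l 18228296)) (b (l 17907400) (b (l 17626152) (b (l 17528600) (l 4)))))) (b (b (l 19468864) (l 19360080)) (b (b (l 18849008) (l 18560440)) (b (l 18256632) (l 4))))) (a (b (b (l 1) (b (l 1) (l 19484208))) (b (b (l 19096912) (l 18866504)) (l 4))) (b (l 1) (l 4)))), by decide +kernel⟩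

theorem c_pm_123 : CertF 536870912 536870912 1073741824 536870912 33554432 16777216 true true false .npn 1 2 3
    ndF0q1 ndF4q2 pcF3 cut_pm_123 Ext.none :=
  certFK1 (fam := true) (s1 := true) (s2 := false) (a := 1) (b := 2) (c := 3) (cn := .npn) (n1 := ndF0q1) (n2 := ndF4q2) (pc := pcF3) (cut := cut_pm_123) (xt := Ext.none) (P1 := 536870912) (W1 := 536870912) (P2 := 1073741824) (W2 := 536870912) (P3 := 33554432) (W3 := 16777216)
    rfl rfl rfl (fun _ => rfl) k0_pm_123

noncomputable def cut_pm_133 : Cut := Cut.of [[⟨3, 0, 0, 1449551462⟩]]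

noncomputable def f_pm_133 : ℕ → ℕ → ℕ → ℕ → Bool := onCell 536870912 536870912 0 1230186008 33554432 16777216
    (rowFK 0 true true false .dn 1 3 3 (qsf 536870912 536870912 0 1230186008 3) ndF0q1 ndF4q3 pcF3 cut_pm_133 Ext.none)

def k0_pm_133 : ∃ t, chk3 f_pm_133 t 1 1 1 = true :=
  ⟨(b (l 2) (b (l 2) (a (b (l 2) (l 4)) (l 2)))), by decide +kernel⟩

theorem c_pm_133 : CertF 536870912 536870912 0 1230186008 33554432 16777216 true true false .dn 1 3 3
    ndF0q1 ndF4q3 pcF3 cut_pm_133 Ext.none :=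
  certFK0 (fam := true) (s1 := true) (s2 := false) (a := 1) (b := 3) (c := 3) (cn := .dn) (n1 := ndF0q1) (n2 := ndF4q3) (pc := pcF3) (cut := cut_pm_133) (xt := Ext.none) (P1 := 536870912) (W1 := 536870912) (P2 := 0) (W2 := 1230186008) (P3 := 33554432) (W3 := 16777216)
    rfl rfl rfl k0_pm_133

noncomputable def cut_pm_202 : Cut := Cut.of [[⟨3, 0, 0, 1449551462⟩]]

noncomputable def f_pm_202 : ℕ → ℕ → ℕ → ℕ → Bool := onCell 0 536870912 0 536870912 33554432 16777216
    (rowFK 0 true true false .pp 2 0 2 (qsf 0 536870912 0 536870912 2) ndF0q2 ndF4q0 pcF2 cut_pm_202 Ext.none)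

def k0_pm_202 : ∃ t, chk3 f_pm_202 t 1 1 1 = true :=
  ⟨(a (l 4) (a (b (b (l 19438344) (l 18828136)) (l 4)) (b (b (l 19684160) (l 19290160)) (b (b (l 18632808) (l 18236920)) (a (l 4) (l 17944672)))))), by decide +kernel⟩

theorem c_pm_202 : CertF 0 536870912 0 536870912 33554432 16777216 true true false .pp 2 0 2
    ndF0q2 ndF4q0 pcF2 cut_pm_202 Ext.none :=
  certFK0 (fam := true) (s1 := true) (s2 := false) (a := 2) (b := 0) (c := 2) (cn := .pp) (n1 := ndF0q2) (n2 := ndF4q0) (pc := pcF2) (cut := cut_pm_202) (xt := Ext.none) (P1 := 0) (W1 := 536870912) (P2 := 0) (W2 := 536870912) (P3 := 33554432) (W3 := 16777216)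
    rfl rfl rfl k0_pm_202

noncomputable def cut_pm_203 : Cut := Cut.of [[⟨3, 0, 0, 1449551462⟩]]

noncomputable def f_pm_203 : ℕ → ℕ → ℕ → ℕ → Bool := onCell 0 536870912 1610612736 536870912 33554432 16777216
    (rowFK 1 true true false .up 2 0 3 (qsf 0 536870912 0 536870912 3) ndF0q2 ndF4q0 pcF3 cut_pm_203 Ext.none)

def k0_pm_203 : ∃ t, chk3 f_pm_203 t 1 1 1 = true :=
  ⟨(a (l 4) (b (l 4) (l 2))), by decide +kernel⟩

theorem c_pm_203 : CertF 0 536870912 0 536870912 33554432 16777216 true true false .up 2 0 3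
    ndF0q2 ndF4q0 pcF3 cut_pm_203 Ext.none :=
  certFK1 (fam := true) (s1 := true) (s2 := false) (a := 2) (b := 0) (c := 3) (cn := .up) (n1 := ndF0q2) (n2 := ndF4q0) (pc := pcF3) (cut := cut_pm_203) (xt := Ext.none) (P1 := 0) (W1 := 536870912) (P2 := 0) (W2 := 536870912) (P3 := 33554432) (W3 := 16777216)
    rfl rfl rfl (fun _ => rfl) k0_pm_203

noncomputable def cut_pm_213 : Cut := Cut.of [[⟨3, 0, 0, 1449551462⟩]]

noncomputable def f_pm_213 : ℕ → ℕ → ℕ → ℕ → Bool := onCell 0 536870912 536870912 536870912 33554432 16777216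
    (rowFK 0 true true false .pnn 2 1 3 (qsf 0 536870912 536870912 536870912 3) ndF0q2 ndF4q1 pcF3 cut_pm_213 Ext.none)

def k0_pm_213 : ∃ t, chk3 f_pm_213 t 1 1 1 = true :=
  ⟨(a (l 4) (b (l 4) (l 4))), by decide +kernel⟩

theorem c_pm_213 : CertF 0 536870912 536870912 536870912 33554432 16777216 true true false .pnn 2 1 3
    ndF0q2 ndF4q1 pcF3 cut_pm_213 Ext.none :=
  certFK0 (fam := true) (s1 := true) (s2 := false) (a := 2) (b := 1) (c := 3) (cn := .pnn) (n1 := ndF0q2) (n2 := ndF4q1) (pc := pcF3) (cut := cut_pm_213) (xt := Ext.none) (P1 := 0) (W1 := 536870912) (P2 := 536870912) (W2 := 536870912) (P3 := 33554432) (W3 := 16777216)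
    rfl rfl rfl k0_pm_213

noncomputable def cut_mm_001 : Cut := Cut.of [[⟨3, 0, 0, 1449551462⟩]]

noncomputable def f_mm_001 : ℕ → ℕ → ℕ → ℕ → Bool := onCell 0 536870912 0 536870912 33554432 16777216
    (rowFK 0 true false false .up 0 0 1 (qsf 0 536870912 0 536870912 1) ndF0q0 ndF4q0 pcF1 cut_mm_001 Ext.none)

def k0_mm_001 : ∃ t, chk3 f_mm_001 t 1 1 1 = true :=
  ⟨(l 4), by decide +kernel⟩

theorem c_mm_001 : CertF 0 536870912 0 536870912 33554432 16777216 true false false .up 0 0 1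
    ndF0q0 ndF4q0 pcF1 cut_mm_001 Ext.none :=
  certFK0 (fam := true) (s1 := false) (s2 := false) (a := 0) (b := 0) (c := 1) (cn := .up) (n1 := ndF0q0) (n2 := ndF4q0) (pc := pcF1) (cut := cut_mm_001) (xt := Ext.none) (P1 := 0) (W1 := 536870912) (P2 := 0) (W2 := 536870912) (P3 := 33554432) (W3 := 16777216)
    rfl rfl rfl k0_mm_001

noncomputable def cut_mm_011 : Cut := Cut.of [[⟨3, 0, 0, 1449551462⟩]]

noncomputable def f_mm_011 : ℕ → ℕ → ℕ → ℕ → Bool := onCell 0 536870912 536870912 536870912 33554432 16777216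
    (rowFK 0 true false false .pnn 0 1 1 (qsf 0 536870912 536870912 536870912 1) ndF0q0 ndF4q1 pcF1 cut_mm_011 Ext.none)

def k0_mm_011 : ∃ t, chk3 f_mm_011 t 1 1 1 = true :=
  ⟨(l 4), by decide +kernel⟩

theorem c_mm_011 : CertF 0 536870912 536870912 536870912 33554432 16777216 true false false .pnn 0 1 1
    ndF0q0 ndF4q1 pcF1 cut_mm_011 Ext.none :=
  certFK0 (fam := true) (s1 := false) (s2 := false) (a := 0) (b := 1) (c := 1) (cn := .pnn) (n1 := ndF0q0) (n2 := ndF4q1) (pc := pcF1) (cut := cut_mm_011) (xt := Ext.none) (P1 := 0) (W1 := 536870912) (P2 := 536870912) (W2 := 536870912) (P3 := 33554432) (W3 := 16777216)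
    rfl rfl rfl k0_mm_011

noncomputable def cut_mm_012 : Cut := Cut.of [[⟨3, 0, 0, 1449551462⟩]]

noncomputable def f_mm_012 : ℕ → ℕ → ℕ → ℕ → Bool := onCell 0 536870912 536870912 536870912 33554432 16777216
    (rowFK 0 true false false .pnp 0 1 2 (qsf 0 536870912 536870912 536870912 2) ndF0q0 ndF4q1 pcF2 cut_mm_012 Ext.none)

def k0_mm_012 : ∃ t, chk3 f_mm_012 t 1 1 1 = true :=
  ⟨(l 4), by decide +kernel⟩

theorem c_mm_012 : CertF 0 536870912 536870912 536870912 33554432 16777216 true false false .pnp 0 1 2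
    ndF0q0 ndF4q1 pcF2 cut_mm_012 Ext.none :=
  certFK0 (fam := true) (s1 := false) (s2 := false) (a := 0) (b := 1) (c := 2) (cn := .pnp) (n1 := ndF0q0) (n2 := ndF4q1) (pc := pcF2) (cut := cut_mm_012) (xt := Ext.none) (P1 := 0) (W1 := 536870912) (P2 := 536870912) (W2 := 536870912) (P3 := 33554432) (W3 := 16777216)
    rfl rfl rfl k0_mm_012

noncomputable def cut_mm_022 : Cut := Cut.of [[⟨3, 0, 0, 1449551462⟩]]

noncomputable def f_mm_022 : ℕ → ℕ → ℕ → ℕ → Bool := onCell 0 536870912 1073741824 536870912 33554432 16777216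
    (rowFK 0 true false false .pp 0 2 2 (qsf 0 536870912 1073741824 536870912 2) ndF0q0 ndF4q2 pcF2 cut_mm_022 Ext.none)

def k0_mm_022 : ∃ t, chk3 f_mm_022 t 1 1 1 = true :=
  ⟨(l 4), by decide +kernel⟩

theorem c_mm_022 : CertF 0 536870912 1073741824 536870912 33554432 16777216 true false false .pp 0 2 2
    ndF0q0 ndF4q2 pcF2 cut_mm_022 Ext.none :=
  certFK0 (fam := true) (s1 := false) (s2 := false) (a := 0) (b := 2) (c := 2) (cn := .pp) (n1 := ndF0q0) (n2 := ndF4q2) (pc := pcF2) (cut := cut_mm_022) (xt := Ext.none) (P1 := 0) (W1 := 536870912) (P2 := 1073741824) (W2 := 536870912) (P3 := 33554432) (W3 := 16777216)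
    rfl rfl rfl k0_mm_022

noncomputable def cut_mm_023 : Cut := Cut.of [[⟨3, 0, 0, 1449551462⟩]]

noncomputable def f_mm_023 : ℕ → ℕ → ℕ → ℕ → Bool := onCell 0 536870912 1073741824 536870912 33554432 16777216
    (rowFK 0 true false false .up 0 2 3 (qsf 0 536870912 1073741824 536870912 3) ndF0q0 ndF4q2 pcF3 cut_mm_023 Ext.none)

def k0_mm_023 : ∃ t, chk3 f_mm_023 t 1 1 1 = true :=
  ⟨(l 4), by decide +kernel⟩

theorem c_mm_023 : CertF 0 536870912 1073741824 536870912 33554432 16777216 true false false .up 0 2 3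
    ndF0q0 ndF4q2 pcF3 cut_mm_023 Ext.none :=
  certFK0 (fam := true) (s1 := false) (s2 := false) (a := 0) (b := 2) (c := 3) (cn := .up) (n1 := ndF0q0) (n2 := ndF4q2) (pc := pcF3) (cut := cut_mm_023) (xt := Ext.none) (P1 := 0) (W1 := 536870912) (P2 := 1073741824) (W2 := 536870912) (P3 := 33554432) (W3 := 16777216)
    rfl rfl rfl k0_mm_023

noncomputable def cut_mm_033 : Cut := Cut.of [[⟨3, 0, 0, 1449551462⟩]]

noncomputable def f_mm_033 : ℕ → ℕ → ℕ → ℕ → Bool := onCell 0 536870912 0 1230186008 33554432 16777216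
    (rowFK 0 true false false .pnn 0 3 3 (qsf 0 536870912 0 1230186008 3) ndF0q0 ndF4q3 pcF3 cut_mm_033 Ext.none)

def k0_mm_033 : ∃ t, chk3 f_mm_033 t 1 1 1 = true :=
  ⟨(l 4), by decide +kernel⟩

theorem c_mm_033 : CertF 0 536870912 0 1230186008 33554432 16777216 true false false .pnn 0 3 3
    ndF0q0 ndF4q3 pcF3 cut_mm_033 Ext.none :=
  certFK0 (fam := true) (s1 := false) (s2 := false) (a := 0) (b := 3) (c := 3) (cn := .pnn) (n1 := ndF0q0) (n2 := ndF4q3) (pc := pcF3) (cut := cut_mm_033) (xt := Ext.none) (P1 := 0) (W1 := 536870912) (P2 := 0) (W2 := 1230186008) (P3 := 33554432) (W3 := 16777216)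
    rfl rfl rfl k0_mm_033

noncomputable def cut_mm_101 : Cut := Cut.of [[⟨3, 0, 0, 1449551462⟩]]

noncomputable def f_mm_101 : ℕ → ℕ → ℕ → ℕ → Bool := onCell 536870912 536870912 0 536870912 33554432 16777216
    (rowFK 0 true false false .npn 1 0 1 (qsf 536870912 536870912 0 536870912 1) ndF0q1 ndF4q0 pcF1 cut_mm_101 Ext.none)

def k0_mm_101 : ∃ t, chk3 f_mm_101 t 1 1 1 = true :=
  ⟨(l 4), by decide +kernel⟩

theorem c_mm_101 : CertF 536870912 536870912 0 536870912 33554432 16777216 true false false .npn 1 0 1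
    ndF0q1 ndF4q0 pcF1 cut_mm_101 Ext.none :=
  certFK0 (fam := true) (s1 := false) (s2 := false) (a := 1) (b := 0) (c := 1) (cn := .npn) (n1 := ndF0q1) (n2 := ndF4q0) (pc := pcF1) (cut := cut_mm_101) (xt := Ext.none) (P1 := 536870912) (W1 := 536870912) (P2 := 0) (W2 := 536870912) (P3 := 33554432) (W3 := 16777216)
    rfl rfl rfl k0_mm_101

noncomputable def cut_mm_102 : Cut := Cut.of [[⟨3, 0, 0, 1449551462⟩]]

noncomputable def f_mm_102 : ℕ → ℕ → ℕ → ℕ → Bool := onCell 536870912 536870912 0 536870912 33554432 16777216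
    (rowFK 0 true false false .npp 1 0 2 (qsf 536870912 536870912 0 536870912 2) ndF0q1 ndF4q0 pcF2 cut_mm_102 Ext.none)

def k0_mm_102 : ∃ t, chk3 f_mm_102 t 1 1 1 = true :=
  ⟨(l 4), by decide +kernel⟩

theorem c_mm_102 : CertF 536870912 536870912 0 536870912 33554432 16777216 true false false .npp 1 0 2
    ndF0q1 ndF4q0 pcF2 cut_mm_102 Ext.none :=
  certFK0 (fam := true) (s1 := false) (s2 := false) (a := 1) (b := 0) (c := 2) (cn := .npp) (n1 := ndF0q1) (n2 := ndF4q0) (pc := pcF2) (cut := cut_mm_102) (xt := Ext.none) (P1 := 536870912) (W1 := 536870912) (P2 := 0) (W2 := 536870912) (P3 := 33554432) (W3 := 16777216)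
    rfl rfl rfl k0_mm_102

noncomputable def cut_mm_112 : Cut := Cut.of [[⟨3, 0, 0, 1449551462⟩]]

noncomputable def f_mm_112 : ℕ → ℕ → ℕ → ℕ → Bool := onCell 536870912 536870912 536870912 536870912 33554432 16777216
    (rowFK 0 true false false .dn 1 1 2 (qsf 536870912 536870912 536870912 536870912 2) ndF0q1 ndF4q1 pcF2 cut_mm_112 Ext.none)

def k0_mm_112 : ∃ t, chk3 f_mm_112 t 1 1 1 = true :=
  ⟨(l 4), by decide +kernel⟩

theorem c_mm_112 : CertF 536870912 536870912 536870912 536870912 33554432 16777216 true false false .dn 1 1 2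
    ndF0q1 ndF4q1 pcF2 cut_mm_112 Ext.none :=
  certFK0 (fam := true) (s1 := false) (s2 := false) (a := 1) (b := 1) (c := 2) (cn := .dn) (n1 := ndF0q1) (n2 := ndF4q1) (pc := pcF2) (cut := cut_mm_112) (xt := Ext.none) (P1 := 536870912) (W1 := 536870912) (P2 := 536870912) (W2 := 536870912) (P3 := 33554432) (W3 := 16777216)
    rfl rfl rfl k0_mm_112

noncomputable def cut_mm_113 : Cut := Cut.of [[⟨3, 0, 0, 1449551462⟩]]

noncomputable def f_mm_113 : ℕ → ℕ → ℕ → ℕ → Bool := onCell 536870912 536870912 536870912 536870912 33554432 16777216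
    (rowFK 0 true false false .nn 1 1 3 (qsf 536870912 536870912 536870912 536870912 3) ndF0q1 ndF4q1 pcF3 cut_mm_113 Ext.none)

def k0_mm_113 : ∃ t, chk3 f_mm_113 t 1 1 1 = true :=
  ⟨(l 4), by decide +kernel⟩

theorem c_mm_113 : CertF 536870912 536870912 536870912 536870912 33554432 16777216 true false false .nn 1 1 3
    ndF0q1 ndF4q1 pcF3 cut_mm_113 Ext.none :=
  certFK0 (fam := true) (s1 := false) (s2 := false) (a := 1) (b := 1) (c := 3) (cn := .nn) (n1 := ndF0q1) (n2 := ndF4q1) (pc := pcF3) (cut := cut_mm_113) (xt := Ext.none) (P1 := 536870912) (W1 := 536870912) (P2 := 536870912) (W2 := 536870912) (P3 := 33554432) (W3 := 16777216)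
    rfl rfl rfl k0_mm_113

noncomputable def cut_mm_123 : Cut := Cut.of [[⟨3, 0, 0, 1449551462⟩]]

noncomputable def f_mm_123 : ℕ → ℕ → ℕ → ℕ → Bool := onCell 536870912 536870912 1073741824 536870912 33554432 16777216
    (rowFK 0 true false false .npn 1 2 3 (qsf 536870912 536870912 1073741824 536870912 3) ndF0q1 ndF4q2 pcF3 cut_mm_123 Ext.none)

def k0_mm_123 : ∃ t, chk3 f_mm_123 t 1 1 1 = true :=
  ⟨(l 4), by decide +kernel⟩

theorem c_mm_123 : CertF 536870912 536870912 1073741824 536870912 33554432 16777216 true false false .npn 1 2 3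
    ndF0q1 ndF4q2 pcF3 cut_mm_123 Ext.none :=
  certFK0 (fam := true) (s1 := false) (s2 := false) (a := 1) (b := 2) (c := 3) (cn := .npn) (n1 := ndF0q1) (n2 := ndF4q2) (pc := pcF3) (cut := cut_mm_123) (xt := Ext.none) (P1 := 536870912) (W1 := 536870912) (P2 := 1073741824) (W2 := 536870912) (P3 := 33554432) (W3 := 16777216)
    rfl rfl rfl k0_mm_123

noncomputable def cut_mm_133 : Cut := Cut.of [[⟨3, 0, 0, 1449551462⟩]]

noncomputable def f_mm_133 : ℕ → ℕ → ℕ → ℕ → Bool := onCell 536870912 536870912 0 1230186008 33554432 16777216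
    (rowFK 0 true false false .dn 1 3 3 (qsf 536870912 536870912 0 1230186008 3) ndF0q1 ndF4q3 pcF3 cut_mm_133 Ext.none)

def k0_mm_133 : ∃ t, chk3 f_mm_133 t 1 1 1 = true :=
  ⟨(l 4), by decide +kernel⟩

theorem c_mm_133 : CertF 536870912 536870912 0 1230186008 33554432 16777216 true false false .dn 1 3 3
    ndF0q1 ndF4q3 pcF3 cut_mm_133 Ext.none :=
  certFK0 (fam := true) (s1 := false) (s2 := false) (a := 1) (b := 3) (c := 3) (cn := .dn) (n1 := ndF0q1) (n2 := ndF4q3) (pc := pcF3) (cut := cut_mm_133) (xt := Ext.none) (P1 := 536870912) (W1 := 536870912) (P2 := 0) (W2 := 1230186008) (P3 := 33554432) (W3 := 16777216)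
    rfl rfl rfl k0_mm_133

noncomputable def cut_mm_202 : Cut := Cut.of [[⟨3, 0, 0, 1449551462⟩]]

noncomputable def f_mm_202 : ℕ → ℕ → ℕ → ℕ → Bool := onCell 0 536870912 0 536870912 33554432 16777216
    (rowFK 0 true false false .pp 2 0 2 (qsf 0 536870912 0 536870912 2) ndF0q2 ndF4q0 pcF2 cut_mm_202 Ext.none)

def k0_mm_202 : ∃ t, chk3 f_mm_202 t 1 1 1 = true :=
  ⟨(l 4), by decide +kernel⟩

theorem c_mm_202 : CertF 0 536870912 0 536870912 33554432 16777216 true false false .pp 2 0 2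
    ndF0q2 ndF4q0 pcF2 cut_mm_202 Ext.none :=
  certFK0 (fam := true) (s1 := false) (s2 := false) (a := 2) (b := 0) (c := 2) (cn := .pp) (n1 := ndF0q2) (n2 := ndF4q0) (pc := pcF2) (cut := cut_mm_202) (xt := Ext.none) (P1 := 0) (W1 := 536870912) (P2 := 0) (W2 := 536870912) (P3 := 33554432) (W3 := 16777216)
    rfl rfl rfl k0_mm_202

noncomputable def cut_mm_203 : Cut := Cut.of [[⟨3, 0, 0, 1449551462⟩]]

noncomputable def f_mm_203 : ℕ → ℕ → ℕ → ℕ → Bool := onCell 0 536870912 0 536870912 33554432 16777216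
    (rowFK 0 true false false .up 2 0 3 (qsf 0 536870912 0 536870912 3) ndF0q2 ndF4q0 pcF3 cut_mm_203 Ext.none)

def k0_mm_203 : ∃ t, chk3 f_mm_203 t 1 1 1 = true :=
  ⟨(l 4), by decide +kernel⟩

theorem c_mm_203 : CertF 0 536870912 0 536870912 33554432 16777216 true false false .up 2 0 3
    ndF0q2 ndF4q0 pcF3 cut_mm_203 Ext.none :=
  certFK0 (fam := true) (s1 := false) (s2 := false) (a := 2) (b := 0) (c := 3) (cn := .up) (n1 := ndF0q2) (n2 := ndF4q0) (pc := pcF3) (cut := cut_mm_203) (xt := Ext.none) (P1 := 0) (W1 := 536870912) (P2 := 0) (W2 := 536870912) (P3 := 33554432) (W3 := 16777216)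
    rfl rfl rfl k0_mm_203

noncomputable def cut_mm_213 : Cut := Cut.of [[⟨3, 0, 0, 1449551462⟩]]

noncomputable def f_mm_213 : ℕ → ℕ → ℕ → ℕ → Bool := onCell 0 536870912 536870912 536870912 33554432 16777216
    (rowFK 0 true false false .pnn 2 1 3 (qsf 0 536870912 536870912 536870912 3) ndF0q2 ndF4q1 pcF3 cut_mm_213 Ext.none)

def k0_mm_213 : ∃ t, chk3 f_mm_213 t 1 1 1 = true :=
  ⟨(l 4), by decide +kernel⟩

theorem c_mm_213 : CertF 0 536870912 536870912 536870912 33554432 16777216 true false false .pnn 2 1 3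
    ndF0q2 ndF4q1 pcF3 cut_mm_213 Ext.none :=
  certFK0 (fam := true) (s1 := false) (s2 := false) (a := 2) (b := 1) (c := 3) (cn := .pnn) (n1 := ndF0q2) (n2 := ndF4q1) (pc := pcF3) (cut := cut_mm_213) (xt := Ext.none) (P1 := 0) (W1 := 536870912) (P2 := 536870912) (W2 := 536870912) (P3 := 33554432) (W3 := 16777216)
    rfl rfl rfl k0_mm_213

end Pool.Agent.Strip051.G.I1_32_3_64.Tab.C.FA04

namespace Pool.Agent.Strip051.G.I1_32_3_64.Tab.C.FA11

open Pool.Agent.Strip051.PB Pool.Agent.Strip051.PB.T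
open Pool.Agent.Strip051.G.I1_32_3_64.Tab

noncomputable def f_pp_001 : ℕ → ℕ → ℕ → ℕ → Bool := onCell 0 536870912 0 536870912 33554432 16777216
    (rowFK 0 true true true .up 0 0 1 (qsf 0 536870912 0 536870912 1) ndF1q0 ndF1q0 pcF1 Cut.none Ext.none)

def k0_pp_001 : ∃ t, chk3 f_pp_001 t 1 1 1 = true :=
  ⟨(l 4), by decide +kernel⟩

theorem c_pp_001 : CertF 0 536870912 0 536870912 33554432 16777216 true true true .up 0 0 1
    ndF1q0 ndF1q0 pcF1 Cut.none Ext.none :=
  certFK0 (fam := true) (s1 := true) (s2 := true) (a := 0) (b := 0) (c := 1) (cn := .up) (n1 := ndF1q0) (n2 := ndF1q0) (pc := pcF1) (cut := Cut.none) (xt := Ext.none) (P1 := 0) (W1 := 536870912) (P2 := 0) (W2 := 536870912) (P3 := 33554432) (W3 := 16777216)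
    rfl rfl rfl k0_pp_001

noncomputable def f_pp_011 : ℕ → ℕ → ℕ → ℕ → Bool := onCell 0 536870912 536870912 536870912 33554432 16777216
    (rowFK 0 true true true .pnn 0 1 1 (qsf 0 536870912 536870912 536870912 1) ndF1q0 ndF1q1 pcF1 Cut.none Ext.none)

def k0_pp_011 : ∃ t, chk3 f_pp_011 t 1 1 1 = true :=
  ⟨(l 4), by decide +kernel⟩

theorem c_pp_011 : CertF 0 536870912 536870912 536870912 33554432 16777216 true true true .pnn 0 1 1
    ndF1q0 ndF1q1 pcF1 Cut.none Ext.none :=
  certFK0 (fam := true) (s1 := true) (s2 := true) (a := 0) (b := 1) (c := 1) (cn := .pnn) (n1 := ndF1q0) (n2 := ndF1q1) (pc := pcF1) (cut := Cut.none) (xt := Ext.none) (P1 := 0) (W1 := 536870912) (P2 := 536870912) (W2 := 536870912) (P3 := 33554432) (W3 := 16777216)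
    rfl rfl rfl k0_pp_011

noncomputable def f_pp_012 : ℕ → ℕ → ℕ → ℕ → Bool := onCell 0 536870912 536870912 536870912 33554432 16777216
    (rowFK 0 true true true .pnp 0 1 2 (qsf 0 536870912 536870912 536870912 2) ndF1q0 ndF1q1 pcF2 Cut.none Ext.none)

def k0_pp_012 : ∃ t, chk3 f_pp_012 t 1 1 1 = true :=
  ⟨(l 4), by decide +kernel⟩

theorem c_pp_012 : CertF 0 536870912 536870912 536870912 33554432 16777216 true true true .pnp 0 1 2
    ndF1q0 ndF1q1 pcF2 Cut.none Ext.none :=
  certFK0 (fam := true) (s1 := true) (s2 := true) (a := 0) (b := 1) (c := 2) (cn := .pnp) (n1 := ndF1q0) (n2 := ndF1q1) (pc := pcF2) (cut := Cut.none) (xt := Ext.none) (P1 := 0) (W1 := 536870912) (P2 := 536870912) (W2 := 536870912) (P3 := 33554432) (W3 := 16777216)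
    rfl rfl rfl k0_pp_012

noncomputable def cut_pp_022_a : Cut := Cut.of [[⟨0, 0, 0, 33554432⟩, ⟨1, 1, 0, 33554432⟩, ⟨2, 1, 0, 33554432⟩]]

noncomputable def f_pp_022_a : ℕ → ℕ → ℕ → ℕ → Bool := onCell 0 536870912 0 536870912 33554432 16777216
    (rowFK 0 true true true .pp 0 2 2 (qsf 0 536870912 0 536870912 2) ndF1q0 ndF1q2a pcF2 cut_pp_022_a Ext.none)

def k0_pp_022_a : ∃ t, chk3 f_pp_022_a t 1 1 1 = true :=
  ⟨(a (b (a (a (a (l 19185504) (l 18762408)) (b (l 18380448) (l 18185768))) (a (l 17997448) (l 4))) (a (a (a (b (b (l 18917512) (a (b (l 18837408) (l 18601384)) (l 18481736))) (a (a (b (b (b (l 18375768) (a (l 17940992) (l 18125536))) (a (b (c (l 17770000) (a (b (l 17530176) (l 17084456)) (l 17483464))) (a (a (b (c (l 17583864) (l 16882992)) (l 16787616)) (c (l 17287152) (l 16821008))) (c (l 17492440) (l 16933312)))) (b (l 17810440) (a (l 17346176) (l 17416312))))) (b (a (b (a (b (l 16731120) (a (l 16733344) (l 16734392))) (l 16733288)) (b (a (a (l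 6) (l 16740120)) (l 16741648)) (l 6))) (b (l 16741984) (a (l 16757936) (l 16752880)))) (l 6))) (b (b (l 18215760) (b (l 17851496) (l 17398520))) (b (b (a (l 17026096) (l 4)) (l 4)) (l 4)))) (b (b (l 18085200) (l 4)) (l 4)))) (b (b (l 18437128) (l 18126664)) (l 4))) (l 4)) (l 4))) (l 4)), by decide +kernel⟩

theorem c_pp_022_a : CertF 0 536870912 0 536870912 33554432 16777216 true true true .pp 0 2 2
    ndF1q0 ndF1q2a pcF2 cut_pp_022_a Ext.none :=
  certFK0 (fam := true) (s1 := true) (s2 := true) (a := 0) (b := 2) (c := 2) (cn := .pp) (n1 := ndF1q0) (n2 := ndF1q2a) (pc := pcF2) (cut := cut_pp_022_a) (xt := Ext.none) (P1 := 0) (W1 := 536870912) (P2 := 0) (W2 := 536870912) (P3 := 33554432) (W3 := 16777216)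
    rfl rfl rfl k0_pp_022_a

noncomputable def cut_pp_022_b : Cut := Cut.of [[⟨0, 0, 0, 33554432⟩, ⟨1, 1, 0, 33554432⟩, ⟨2, 1, 0, 33554432⟩]]

noncomputable def f_pp_022_b : ℕ → ℕ → ℕ → ℕ → Bool := onCell 0 536870912 1239849684 370763052 33554432 16777216
    (rowFK 0 true true true .pp 0 2 2 (qsf 0 536870912 1239849684 370763052 2) ndF1q0 ndF1q2b pcF2 cut_pp_022_b Ext.none)

def k0_pp_022_b : ∃ t, chk3 f_pp_022_b t 1 1 1 = true :=
  ⟨(a (b (a (b (a (a (l 19383472) (l 19031960)) (b (l 18534520) (l 18652008))) (a (l 19427088) (l 18696032))) (b (a (l 18275024) (l 4)) (l 4))) (a (a (b (l 19216768) (l 18889040)) (l 4)) (l 4))) (l 4)), by decide +kernel⟩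

theorem c_pp_022_b : CertF 0 536870912 1239849684 370763052 33554432 16777216 true true true .pp 0 2 2
    ndF1q0 ndF1q2b pcF2 cut_pp_022_b Ext.none :=
  certFK0 (fam := true) (s1 := true) (s2 := true) (a := 0) (b := 2) (c := 2) (cn := .pp) (n1 := ndF1q0) (n2 := ndF1q2b) (pc := pcF2) (cut := cut_pp_022_b) (xt := Ext.none) (P1 := 0) (W1 := 536870912) (P2 := 1239849684) (W2 := 370763052) (P3 := 33554432) (W3 := 16777216)
    rfl rfl rfl k0_pp_022_b

noncomputable def f_pp_023_a : ℕ → ℕ → ℕ → ℕ → Bool := onCell 1610612736 536870912 0 536870912 33554432 16777216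
    (rowFK 2 true true true .up 0 2 3 (qsf 0 536870912 0 536870912 3) ndF1q0 ndF1q2a pcF3 Cut.none Ext.none)

def k0_pp_023_a : ∃ t, chk3 f_pp_023_a t 1 1 1 = true :=
  ⟨(l 4), by decide +kernel⟩

theorem c_pp_023_a : CertF 0 536870912 0 536870912 33554432 16777216 true true true .up 0 2 3
    ndF1q0 ndF1q2a pcF3 Cut.none Ext.none :=
  certFK2 (fam := true) (s1 := true) (s2 := true) (a := 0) (b := 2) (c := 3) (cn := .up) (n1 := ndF1q0) (n2 := ndF1q2a) (pc := pcF3) (cut := Cut.none) (xt := Ext.none) (P1 := 0) (W1 := 536870912) (P2 := 0) (W2 := 536870912) (P3 := 33554432) (W3 := 16777216)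
    rfl rfl rfl (fun _ => rfl) k0_pp_023_a

noncomputable def f_pp_023_b : ℕ → ℕ → ℕ → ℕ → Bool := onCell 1610612736 536870912 1239849684 370763052 33554432 16777216
    (rowFK 2 true true true .up 0 2 3 (qsf 0 536870912 1239849684 370763052 3) ndF1q0 ndF1q2b pcF3 Cut.none Ext.none)

def k0_pp_023_b : ∃ t, chk3 f_pp_023_b t 1 1 1 = true :=
  ⟨(a (l 4) (l 4)), by decide +kernel⟩

theorem c_pp_023_b : CertF 0 536870912 1239849684 370763052 33554432 16777216 true true true .up 0 2 3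
    ndF1q0 ndF1q2b pcF3 Cut.none Ext.none :=
  certFK2 (fam := true) (s1 := true) (s2 := true) (a := 0) (b := 2) (c := 3) (cn := .up) (n1 := ndF1q0) (n2 := ndF1q2b) (pc := pcF3) (cut := Cut.none) (xt := Ext.none) (P1 := 0) (W1 := 536870912) (P2 := 1239849684) (W2 := 370763052) (P3 := 33554432) (W3 := 16777216)
    rfl rfl rfl (fun _ => rfl) k0_pp_023_b

noncomputable def f_pp_033 : ℕ → ℕ → ℕ → ℕ → Bool := onCell 0 536870912 1610612736 536870912 33554432 16777216
    (rowFK 0 true true true .pnn 0 3 3 (qsf 0 536870912 1610612736 536870912 3) ndF1q0 ndF1q3 pcF3 Cut.none Ext.none)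

def k0_pp_033 : ∃ t, chk3 f_pp_033 t 1 1 1 = true :=
  ⟨(a (b (l 4) (l 4)) (l 4)), by decide +kernel⟩

theorem c_pp_033 : CertF 0 536870912 1610612736 536870912 33554432 16777216 true true true .pnn 0 3 3
    ndF1q0 ndF1q3 pcF3 Cut.none Ext.none :=
  certFK0 (fam := true) (s1 := true) (s2 := true) (a := 0) (b := 3) (c := 3) (cn := .pnn) (n1 := ndF1q0) (n2 := ndF1q3) (pc := pcF3) (cut := Cut.none) (xt := Ext.none) (P1 := 0) (W1 := 536870912) (P2 := 1610612736) (W2 := 536870912) (P3 := 33554432) (W3 := 16777216)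
    rfl rfl rfl k0_pp_033

noncomputable def f_pp_101 : ℕ → ℕ → ℕ → ℕ → Bool := onCell 536870912 536870912 0 536870912 33554432 16777216
    (rowFK 0 true true true .npn 1 0 1 (qsf 536870912 536870912 0 536870912 1) ndF1q1 ndF1q0 pcF1 Cut.none Ext.none)

def k0_pp_101 : ∃ t, chk3 f_pp_101 t 1 1 1 = true :=
  ⟨(l 4), by decide +kernel⟩

theorem c_pp_101 : CertF 536870912 536870912 0 536870912 33554432 16777216 true true true .npn 1 0 1
    ndF1q1 ndF1q0 pcF1 Cut.none Ext.none :=
  certFK0 (fam := true) (s1 := true) (s2 := true) (a := 1) (b := 0) (c := 1) (cn := .npn) (n1 := ndF1q1) (n2 := ndF1q0) (pc := pcF1) (cut := Cut.none) (xt := Ext.none) (P1 := 536870912) (W1 := 536870912) (P2 := 0) (W2 := 536870912) (P3 := 33554432) (W3 := 16777216)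
    rfl rfl rfl k0_pp_101

noncomputable def f_pp_102 : ℕ → ℕ → ℕ → ℕ → Bool := onCell 536870912 536870912 0 536870912 33554432 16777216
    (rowFK 0 true true true .npp 1 0 2 (qsf 536870912 536870912 0 536870912 2) ndF1q1 ndF1q0 pcF2 Cut.none Ext.none)

def k0_pp_102 : ∃ t, chk3 f_pp_102 t 1 1 1 = true :=
  ⟨(l 4), by decide +kernel⟩

theorem c_pp_102 : CertF 536870912 536870912 0 536870912 33554432 16777216 true true true .npp 1 0 2
    ndF1q1 ndF1q0 pcF2 Cut.none Ext.none :=
  certFK0 (fam := true) (s1 := true) (s2 := true) (a := 1) (b := 0) (c := 2) (cn := .npp) (n1 := ndF1q1) (n2 := ndF1q0) (pc := pcF2) (cut := Cut.none) (xt := Ext.none) (P1 := 536870912) (W1 := 536870912) (P2 := 0) (W2 := 536870912) (P3 := 33554432) (W3 := 16777216)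
    rfl rfl rfl k0_pp_102

noncomputable def f_pp_112 : ℕ → ℕ → ℕ → ℕ → Bool := onCell 536870912 536870912 536870912 536870912 33554432 16777216
    (rowFK 0 true true true .dn 1 1 2 (qsf 536870912 536870912 536870912 536870912 2) ndF1q1 ndF1q1 pcF2 Cut.none Ext.none)

def k0_pp_112 : ∃ t, chk3 f_pp_112 t 1 1 1 = true :=
  ⟨(l 4), by decide +kernel⟩

theorem c_pp_112 : CertF 536870912 536870912 536870912 536870912 33554432 16777216 true true true .dn 1 1 2
    ndF1q1 ndF1q1 pcF2 Cut.none Ext.none :=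
  certFK0 (fam := true) (s1 := true) (s2 := true) (a := 1) (b := 1) (c := 2) (cn := .dn) (n1 := ndF1q1) (n2 := ndF1q1) (pc := pcF2) (cut := Cut.none) (xt := Ext.none) (P1 := 536870912) (W1 := 536870912) (P2 := 536870912) (W2 := 536870912) (P3 := 33554432) (W3 := 16777216)
    rfl rfl rfl k0_pp_112

noncomputable def f_pp_113 : ℕ → ℕ → ℕ → ℕ → Bool := onCell 536870912 536870912 536870912 536870912 33554432 16777216
    (rowFK 0 true true true .nn 1 1 3 (qsf 536870912 536870912 536870912 536870912 3) ndF1q1 ndF1q1 pcF3 Cut.none Ext.none)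

def k0_pp_113 : ∃ t, chk3 f_pp_113 t 1 1 1 = true :=
  ⟨(l 4), by decide +kernel⟩

theorem c_pp_113 : CertF 536870912 536870912 536870912 536870912 33554432 16777216 true true true .nn 1 1 3
    ndF1q1 ndF1q1 pcF3 Cut.none Ext.none :=
  certFK0 (fam := true) (s1 := true) (s2 := true) (a := 1) (b := 1) (c := 3) (cn := .nn) (n1 := ndF1q1) (n2 := ndF1q1) (pc := pcF3) (cut := Cut.none) (xt := Ext.none) (P1 := 536870912) (W1 := 536870912) (P2 := 536870912) (W2 := 536870912) (P3 := 33554432) (W3 := 16777216)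
    rfl rfl rfl k0_pp_113

noncomputable def f_pp_123_a : ℕ → ℕ → ℕ → ℕ → Bool := onCell 536870912 536870912 0 536870912 33554432 16777216
    (rowFK 0 true true true .npn 1 2 3 (qsf 536870912 536870912 0 536870912 3) ndF1q1 ndF1q2a pcF3 Cut.none Ext.none)

def k0_pp_123_a : ∃ t, chk3 f_pp_123_a t 1 1 1 = true :=
  ⟨(l 4), by decide +kernel⟩

theorem c_pp_123_a : CertF 536870912 536870912 0 536870912 33554432 16777216 true true true .npn 1 2 3
    ndF1q1 ndF1q2a pcF3 Cut.none Ext.none :=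
  certFK0 (fam := true) (s1 := true) (s2 := true) (a := 1) (b := 2) (c := 3) (cn := .npn) (n1 := ndF1q1) (n2 := ndF1q2a) (pc := pcF3) (cut := Cut.none) (xt := Ext.none) (P1 := 536870912) (W1 := 536870912) (P2 := 0) (W2 := 536870912) (P3 := 33554432) (W3 := 16777216)
    rfl rfl rfl k0_pp_123_a

noncomputable def f_pp_123_b : ℕ → ℕ → ℕ → ℕ → Bool := onCell 536870912 536870912 1239849684 370763052 33554432 16777216
    (rowFK 0 true true true .npn 1 2 3 (qsf 536870912 536870912 1239849684 370763052 3) ndF1q1 ndF1q2b pcF3 Cut.none Ext.none)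

def k0_pp_123_b : ∃ t, chk3 f_pp_123_b t 1 1 1 = true :=
  ⟨(l 4), by decide +kernel⟩

theorem c_pp_123_b : CertF 536870912 536870912 1239849684 370763052 33554432 16777216 true true true .npn 1 2 3
    ndF1q1 ndF1q2b pcF3 Cut.none Ext.none :=
  certFK0 (fam := true) (s1 := true) (s2 := true) (a := 1) (b := 2) (c := 3) (cn := .npn) (n1 := ndF1q1) (n2 := ndF1q2b) (pc := pcF3) (cut := Cut.none) (xt := Ext.none) (P1 := 536870912) (W1 := 536870912) (P2 := 1239849684) (W2 := 370763052) (P3 := 33554432) (W3 := 16777216)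
    rfl rfl rfl k0_pp_123_b

noncomputable def f_pp_133 : ℕ → ℕ → ℕ → ℕ → Bool := onCell 536870912 536870912 1610612736 536870912 33554432 16777216
    (rowFK 0 true true true .dn 1 3 3 (qsf 536870912 536870912 1610612736 536870912 3) ndF1q1 ndF1q3 pcF3 Cut.none Ext.none)

def k0_pp_133 : ∃ t, chk3 f_pp_133 t 1 1 1 = true :=
  ⟨(l 4), by decide +kernel⟩

theorem c_pp_133 : CertF 536870912 536870912 1610612736 536870912 33554432 16777216 true true true .dn 1 3 3
    ndF1q1 ndF1q3 pcF3 Cut.none Ext.none :=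
  certFK0 (fam := true) (s1 := true) (s2 := true) (a := 1) (b := 3) (c := 3) (cn := .dn) (n1 := ndF1q1) (n2 := ndF1q3) (pc := pcF3) (cut := Cut.none) (xt := Ext.none) (P1 := 536870912) (W1 := 536870912) (P2 := 1610612736) (W2 := 536870912) (P3 := 33554432) (W3 := 16777216)
    rfl rfl rfl k0_pp_133

noncomputable def f_pp_202_a : ℕ → ℕ → ℕ → ℕ → Bool := onCell 0 536870912 0 536870912 33554432 16777216
    (rowFK 0 true true true .pp 2 0 2 (qsf 0 536870912 0 536870912 2) ndF1q2a ndF1q0 pcF2 Cut.none Ext.none)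

def k0_pp_202_a : ∃ t, chk3 f_pp_202_a t 1 1 1 = true :=
  ⟨(l 5), by decide +kernel⟩

theorem c_pp_202_a : CertF 0 536870912 0 536870912 33554432 16777216 true true true .pp 2 0 2
    ndF1q2a ndF1q0 pcF2 Cut.none Ext.none :=
  certFK0 (fam := true) (s1 := true) (s2 := true) (a := 2) (b := 0) (c := 2) (cn := .pp) (n1 := ndF1q2a) (n2 := ndF1q0) (pc := pcF2) (cut := Cut.none) (xt := Ext.none) (P1 := 0) (W1 := 536870912) (P2 := 0) (W2 := 536870912) (P3 := 33554432) (W3 := 16777216)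
    rfl rfl rfl k0_pp_202_a

noncomputable def f_pp_202_b : ℕ → ℕ → ℕ → ℕ → Bool := onCell 1239849684 370763052 0 536870912 33554432 16777216
    (rowFK 0 true true true .pp 2 0 2 (qsf 1239849684 370763052 0 536870912 2) ndF1q2b ndF1q0 pcF2 Cut.none Ext.none)

def k0_pp_202_b : ∃ t, chk3 f_pp_202_b t 1 1 1 = true :=
  ⟨(l 5), by decide +kernel⟩

theorem c_pp_202_b : CertF 1239849684 370763052 0 536870912 33554432 16777216 true true true .pp 2 0 2
    ndF1q2b ndF1q0 pcF2 Cut.none Ext.none :=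
  certFK0 (fam := true) (s1 := true) (s2 := true) (a := 2) (b := 0) (c := 2) (cn := .pp) (n1 := ndF1q2b) (n2 := ndF1q0) (pc := pcF2) (cut := Cut.none) (xt := Ext.none) (P1 := 1239849684) (W1 := 370763052) (P2 := 0) (W2 := 536870912) (P3 := 33554432) (W3 := 16777216)
    rfl rfl rfl k0_pp_202_b

noncomputable def f_pp_203_a : ℕ → ℕ → ℕ → ℕ → Bool := onCell 0 536870912 0 536870912 33554432 16777216
    (rowFK 0 true true true .up 2 0 3 (qsf 0 536870912 0 536870912 3) ndF1q2a ndF1q0 pcF3 Cut.none Ext.none)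

def k0_pp_203_a : ∃ t, chk3 f_pp_203_a t 1 1 1 = true :=
  ⟨(l 5), by decide +kernel⟩

theorem c_pp_203_a : CertF 0 536870912 0 536870912 33554432 16777216 true true true .up 2 0 3
    ndF1q2a ndF1q0 pcF3 Cut.none Ext.none :=
  certFK0 (fam := true) (s1 := true) (s2 := true) (a := 2) (b := 0) (c := 3) (cn := .up) (n1 := ndF1q2a) (n2 := ndF1q0) (pc := pcF3) (cut := Cut.none) (xt := Ext.none) (P1 := 0) (W1 := 536870912) (P2 := 0) (W2 := 536870912) (P3 := 33554432) (W3 := 16777216)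
    rfl rfl rfl k0_pp_203_a

noncomputable def f_pp_203_b : ℕ → ℕ → ℕ → ℕ → Bool := onCell 1239849684 370763052 0 536870912 33554432 16777216
    (rowFK 0 true true true .up 2 0 3 (qsf 1239849684 370763052 0 536870912 3) ndF1q2b ndF1q0 pcF3 Cut.none Ext.none)

def k0_pp_203_b : ∃ t, chk3 f_pp_203_b t 1 1 1 = true :=
  ⟨(l 5), by decide +kernel⟩

theorem c_pp_203_b : CertF 1239849684 370763052 0 536870912 33554432 16777216 true true true .up 2 0 3
    ndF1q2b ndF1q0 pcF3 Cut.none Ext.none :=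
  certFK0 (fam := true) (s1 := true) (s2 := true) (a := 2) (b := 0) (c := 3) (cn := .up) (n1 := ndF1q2b) (n2 := ndF1q0) (pc := pcF3) (cut := Cut.none) (xt := Ext.none) (P1 := 1239849684) (W1 := 370763052) (P2 := 0) (W2 := 536870912) (P3 := 33554432) (W3 := 16777216)
    rfl rfl rfl k0_pp_203_b

noncomputable def f_pp_213_a : ℕ → ℕ → ℕ → ℕ → Bool := onCell 0 536870912 536870912 536870912 33554432 16777216
    (rowFK 0 true true true .pnn 2 1 3 (qsf 0 536870912 536870912 536870912 3) ndF1q2a ndF1q1 pcF3 Cut.none Ext.none)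

def k0_pp_213_a : ∃ t, chk3 f_pp_213_a t 1 1 1 = true :=
  ⟨(l 4), by decide +kernel⟩

theorem c_pp_213_a : CertF 0 536870912 536870912 536870912 33554432 16777216 true true true .pnn 2 1 3
    ndF1q2a ndF1q1 pcF3 Cut.none Ext.none :=
  certFK0 (fam := true) (s1 := true) (s2 := true) (a := 2) (b := 1) (c := 3) (cn := .pnn) (n1 := ndF1q2a) (n2 := ndF1q1) (pc := pcF3) (cut := Cut.none) (xt := Ext.none) (P1 := 0) (W1 := 536870912) (P2 := 536870912) (W2 := 536870912) (P3 := 33554432) (W3 := 16777216)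
    rfl rfl rfl k0_pp_213_a

noncomputable def f_pp_213_b : ℕ → ℕ → ℕ → ℕ → Bool := onCell 1239849684 370763052 536870912 536870912 33554432 16777216
    (rowFK 0 true true true .pnn 2 1 3 (qsf 1239849684 370763052 536870912 536870912 3) ndF1q2b ndF1q1 pcF3 Cut.none Ext.none)

def k0_pp_213_b : ∃ t, chk3 f_pp_213_b t 1 1 1 = true :=
  ⟨(l 4), by decide +kernel⟩

theorem c_pp_213_b : CertF 1239849684 370763052 536870912 536870912 33554432 16777216 true true true .pnn 2 1 3
    ndF1q2b ndF1q1 pcF3 Cut.none Ext.none :=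
  certFK0 (fam := true) (s1 := true) (s2 := true) (a := 2) (b := 1) (c := 3) (cn := .pnn) (n1 := ndF1q2b) (n2 := ndF1q1) (pc := pcF3) (cut := Cut.none) (xt := Ext.none) (P1 := 1239849684) (W1 := 370763052) (P2 := 536870912) (W2 := 536870912) (P3 := 33554432) (W3 := 16777216)
    rfl rfl rfl k0_pp_213_b

noncomputable def f_pp_303 : ℕ → ℕ → ℕ → ℕ → Bool := onCell 1610612736 536870912 0 536870912 33554432 16777216
    (rowFK 0 true true true .npn 3 0 3 (qsf 1610612736 536870912 0 536870912 3) ndF1q3 ndF1q0 pcF3 Cut.none Ext.none)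

def k0_pp_303 : ∃ t, chk3 f_pp_303 t 1 1 1 = true :=
  ⟨(l 5), by decide +kernel⟩

theorem c_pp_303 : CertF 1610612736 536870912 0 536870912 33554432 16777216 true true true .npn 3 0 3
    ndF1q3 ndF1q0 pcF3 Cut.none Ext.none :=
  certFK0 (fam := true) (s1 := true) (s2 := true) (a := 3) (b := 0) (c := 3) (cn := .npn) (n1 := ndF1q3) (n2 := ndF1q0) (pc := pcF3) (cut := Cut.none) (xt := Ext.none) (P1 := 1610612736) (W1 := 536870912) (P2 := 0) (W2 := 536870912) (P3 := 33554432) (W3 := 16777216)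
    rfl rfl rfl k0_pp_303

noncomputable def f_pp_313 : ℕ → ℕ → ℕ → ℕ → Bool := onCell 1610612736 536870912 536870912 536870912 33554432 16777216
    (rowFK 0 true true true .dn 3 1 3 (qsf 1610612736 536870912 536870912 536870912 3) ndF1q3 ndF1q1 pcF3 Cut.none Ext.none)

def k0_pp_313 : ∃ t, chk3 f_pp_313 t 1 1 1 = true :=
  ⟨(l 4), by decide +kernel⟩

theorem c_pp_313 : CertF 1610612736 536870912 536870912 536870912 33554432 16777216 true true true .dn 3 1 3
    ndF1q3 ndF1q1 pcF3 Cut.none Ext.none :=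
  certFK0 (fam := true) (s1 := true) (s2 := true) (a := 3) (b := 1) (c := 3) (cn := .dn) (n1 := ndF1q3) (n2 := ndF1q1) (pc := pcF3) (cut := Cut.none) (xt := Ext.none) (P1 := 1610612736) (W1 := 536870912) (P2 := 536870912) (W2 := 536870912) (P3 := 33554432) (W3 := 16777216)
    rfl rfl rfl k0_pp_313

noncomputable def f_pm_001 : ℕ → ℕ → ℕ → ℕ → Bool := onCell 0 536870912 0 536870912 33554432 16777216
    (rowFK 0 true true false .up 0 0 1 (qsf 0 536870912 0 536870912 1) ndF1q0 ndF1q0 pcF1 Cut.none Ext.none)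

def k0_pm_001 : ∃ t, chk3 f_pm_001 t 1 1 1 = true :=
  ⟨(l 3), by decide +kernel⟩

theorem c_pm_001 : CertF 0 536870912 0 536870912 33554432 16777216 true true false .up 0 0 1
    ndF1q0 ndF1q0 pcF1 Cut.none Ext.none :=
  certFK0 (fam := true) (s1 := true) (s2 := false) (a := 0) (b := 0) (c := 1) (cn := .up) (n1 := ndF1q0) (n2 := ndF1q0) (pc := pcF1) (cut := Cut.none) (xt := Ext.none) (P1 := 0) (W1 := 536870912) (P2 := 0) (W2 := 536870912) (P3 := 33554432) (W3 := 16777216)
    rfl rfl rfl k0_pm_001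

noncomputable def f_pm_011 : ℕ → ℕ → ℕ → ℕ → Bool := onCell 0 536870912 536870912 536870912 33554432 16777216
    (rowFK 1 true true false .pnn 0 1 1 (qsf 0 536870912 536870912 536870912 1) ndF1q0 ndF1q1 pcF1 Cut.none Ext.none)

def k0_pm_011 : ∃ t, chk3 f_pm_011 t 1 1 1 = true :=
  ⟨(l 3), by decide +kernel⟩

theorem c_pm_011 : CertF 0 536870912 536870912 536870912 33554432 16777216 true true false .pnn 0 1 1
    ndF1q0 ndF1q1 pcF1 Cut.none Ext.none :=
  certFK1 (fam := true) (s1 := true) (s2 := false) (a := 0) (b := 1) (c := 1) (cn := .pnn) (n1 := ndF1q0) (n2 := ndF1q1) (pc := pcF1) (cut := Cut.none) (xt := Ext.none) (P1 := 0) (W1 := 536870912) (P2 := 536870912) (W2 := 536870912) (P3 := 33554432) (W3 := 16777216)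
    rfl rfl rfl (fun _ => rfl) k0_pm_011

noncomputable def f_pm_012 : ℕ → ℕ → ℕ → ℕ → Bool := onCell 1073741824 536870912 536870912 536870912 33554432 16777216
    (rowFK 2 true true false .pnp 0 1 2 (qsf 0 536870912 536870912 536870912 2) ndF1q0 ndF1q1 pcF2 Cut.none Ext.none)

def k0_pm_012 : ∃ t, chk3 f_pm_012 t 1 1 1 = true :=
  ⟨(a (a (l 3) (a (a (a (l 3) (b (a (l 3) (l 17402944)) (a (l 3) (b (l 17786424) (b (l 18256704) (l 18794864)))))) (b (l 17410632) (b (l 17869928) (l 18552880)))) (b (l 17552832) (b (l 18029264) (l 18685440))))) (b (l 17850632) (b (l 18292576) (l 18794792)))), by decide +kernel⟩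

theorem c_pm_012 : CertF 0 536870912 536870912 536870912 33554432 16777216 true true false .pnp 0 1 2
    ndF1q0 ndF1q1 pcF2 Cut.none Ext.none :=
  certFK2 (fam := true) (s1 := true) (s2 := false) (a := 0) (b := 1) (c := 2) (cn := .pnp) (n1 := ndF1q0) (n2 := ndF1q1) (pc := pcF2) (cut := Cut.none) (xt := Ext.none) (P1 := 0) (W1 := 536870912) (P2 := 536870912) (W2 := 536870912) (P3 := 33554432) (W3 := 16777216)
    rfl rfl rfl (fun _ => rfl) k0_pm_012

noncomputable def cut_pm_022_a : Cut := Cut.of [[⟨0, 0, 0, 33554432⟩, ⟨1, 1, 0, 33554432⟩, ⟨2, 1, 0, 33554432⟩]]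

noncomputable def f_pm_022_a : ℕ → ℕ → ℕ → ℕ → Bool := onCell 0 536870912 0 536870912 33554432 16777216
    (rowFK 0 true true false .pp 0 2 2 (qsf 0 536870912 0 536870912 2) ndF1q0 ndF1q2a pcF2 cut_pm_022_a Ext.none)

def k0_pm_022_a : ∃ t, chk3 f_pm_022_a t 1 1 1 = true :=
  ⟨(a (b (a (a (l 19300256) (l 19040920)) (l 18737672)) (a (b (a (a (b (l 19184928) (a (l 18885936) (l 18933920))) (l 19031128)) (l 18930536)) (a (b (a (a (b (a (b (l 18460256) (a (l 18002672) (l 18250656))) (l 18473376)) (a (a (b (c (l 18066704) (a (b (l 17543976) (c (l 17442688) (l 17103248))) (l 17522336))) (a (c (b (l 17495320) (c (l 17452400) (a (l 16964408) (l 17190720)))) (a (l 16724992) (l 16823280))) (c (l 17608392) (l 16944368)))) (b (l 17924760) (l 17361536))) (b (l 18100408) (l 17739136)))) (b (l 18596952) (l 18205352))) (l 18588480)) (a (b (a (a (a (b (a (b (l 16727344) (l 16734776)) (l 16729576)) (a (b (l 16740624) (l 6)) (l 16739760))) (l 16744760)) (l 16746696)) (a (l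 17368240) (l 17672520))) (a (b (a (l 6) (l 16754704)) (l 6)) (b (l 16747792) (a (l 16752952) (l 16758984))))) (b (l 18076728) (a (b (l 17444880) (l 16979584)) (l 17656632))))) (b (l 18665816) (a (l 18177168) (l 18319680))))) (b (l 18730600) (l 18555640)))) (b (a (l 18463584) (l 18264320)) (a (b (l 18509464) (l 18447616)) (b (l 18335064) (l 18325072))))), by decide +kernel⟩

theorem c_pm_022_a : CertF 0 536870912 0 536870912 33554432 16777216 true true false .pp 0 2 2
    ndF1q0 ndF1q2a pcF2 cut_pm_022_a Ext.none :=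
  certFK0 (fam := true) (s1 := true) (s2 := false) (a := 0) (b := 2) (c := 2) (cn := .pp) (n1 := ndF1q0) (n2 := ndF1q2a) (pc := pcF2) (cut := cut_pm_022_a) (xt := Ext.none) (P1 := 0) (W1 := 536870912) (P2 := 0) (W2 := 536870912) (P3 := 33554432) (W3 := 16777216)
    rfl rfl rfl k0_pm_022_a

noncomputable def cut_pm_022_b : Cut := Cut.of [[⟨0, 0, 0, 33554432⟩, ⟨1, 1, 0, 33554432⟩, ⟨2, 1, 0, 33554432⟩]]

noncomputable def f_pm_022_b : ℕ → ℕ → ℕ → ℕ → Bool := onCell 0 536870912 1073741824 536870912 33554432 16777216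
    (rowFK 1 true true false .pp 0 2 2 (qsf 0 536870912 1239849684 370763052 2) ndF1q0 ndF1q2b pcF2 cut_pm_022_b Ext.none)

def k0_pm_022_b : ∃ t, chk3 f_pm_022_b t 1 1 1 = true :=
  ⟨(a (b (b (l 1) (a (a (l 19296136) (b (l 1) (l 18886384))) (l 1))) (b (a (l 19350928) (l 18694136)) (l 19309192))) (b (l 1) (b (l 1) (b (l 278672433303) (l 18154040))))), by decide +kernel⟩

theorem c_pm_022_b : CertF 0 536870912 1239849684 370763052 33554432 16777216 true true false .pp 0 2 2
    ndF1q0 ndF1q2b pcF2 cut_pm_022_b Ext.none :=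
  certFK1 (fam := true) (s1 := true) (s2 := false) (a := 0) (b := 2) (c := 2) (cn := .pp) (n1 := ndF1q0) (n2 := ndF1q2b) (pc := pcF2) (cut := cut_pm_022_b) (xt := Ext.none) (P1 := 0) (W1 := 536870912) (P2 := 1239849684) (W2 := 370763052) (P3 := 33554432) (W3 := 16777216)
    rfl rfl rfl (fun _ => rfl) k0_pm_022_b

noncomputable def f_pm_023_a : ℕ → ℕ → ℕ → ℕ → Bool := onCell 1610612736 536870912 0 536870912 33554432 16777216
    (rowFK 2 true true false .up 0 2 3 (qsf 0 536870912 0 536870912 3) ndF1q0 ndF1q2a pcF3 Cut.none Ext.none)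

def k0_pm_023_a : ∃ t, chk3 f_pm_023_a t 1 1 1 = true :=
  ⟨(a (a (b (l 18612456) (l 18790200)) (b (l 18364952) (a (l 18647896) (l 2)))) (l 2)), by decide +kernel⟩

theorem c_pm_023_a : CertF 0 536870912 0 536870912 33554432 16777216 true true false .up 0 2 3
    ndF1q0 ndF1q2a pcF3 Cut.none Ext.none :=
  certFK2 (fam := true) (s1 := true) (s2 := false) (a := 0) (b := 2) (c := 3) (cn := .up) (n1 := ndF1q0) (n2 := ndF1q2a) (pc := pcF3) (cut := Cut.none) (xt := Ext.none) (P1 := 0) (W1 := 536870912) (P2 := 0) (W2 := 536870912) (P3 := 33554432) (W3 := 16777216)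
    rfl rfl rfl (fun _ => rfl) k0_pm_023_a

noncomputable def f_pm_023_b : ℕ → ℕ → ℕ → ℕ → Bool := onCell 1610612736 536870912 1239849684 370763052 33554432 16777216
    (rowFK 2 true true false .up 0 2 3 (qsf 0 536870912 1239849684 370763052 3) ndF1q0 ndF1q2b pcF3 Cut.none Ext.none)

def k0_pm_023_b : ∃ t, chk3 f_pm_023_b t 1 1 1 = true :=
  ⟨(a (a (l 18756088) (a (l 18515120) (l 18395384))) (a (l 4) (l 4))), by decide +kernel⟩

theorem c_pm_023_b : CertF 0 536870912 1239849684 370763052 33554432 16777216 true true false .up 0 2 3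
    ndF1q0 ndF1q2b pcF3 Cut.none Ext.none :=
  certFK2 (fam := true) (s1 := true) (s2 := false) (a := 0) (b := 2) (c := 3) (cn := .up) (n1 := ndF1q0) (n2 := ndF1q2b) (pc := pcF3) (cut := Cut.none) (xt := Ext.none) (P1 := 0) (W1 := 536870912) (P2 := 1239849684) (W2 := 370763052) (P3 := 33554432) (W3 := 16777216)
    rfl rfl rfl (fun _ => rfl) k0_pm_023_b

noncomputable def f_pm_033 : ℕ → ℕ → ℕ → ℕ → Bool := onCell 0 536870912 1610612736 536870912 33554432 16777216
    (rowFK 1 true true false .pnn 0 3 3 (qsf 0 536870912 1610612736 536870912 3) ndF1q0 ndF1q3 pcF3 Cut.none Ext.none)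

def k0_pm_033 : ∃ t, chk3 f_pm_033 t 1 1 1 = true :=
  ⟨(b (b (a (b (l 18005992) (l 17725480)) (l 1)) (a (b (l 17652088) (l 17600984)) (l 349001627431))) (b (l 4) (l 4))), by decide +kernel⟩

theorem c_pm_033 : CertF 0 536870912 1610612736 536870912 33554432 16777216 true true false .pnn 0 3 3
    ndF1q0 ndF1q3 pcF3 Cut.none Ext.none :=
  certFK1 (fam := true) (s1 := true) (s2 := false) (a := 0) (b := 3) (c := 3) (cn := .pnn) (n1 := ndF1q0) (n2 := ndF1q3) (pc := pcF3) (cut := Cut.none) (xt := Ext.none) (P1 := 0) (W1 := 536870912) (P2 := 1610612736) (W2 := 536870912) (P3 := 33554432) (W3 := 16777216)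
    rfl rfl rfl (fun _ => rfl) k0_pm_033

noncomputable def f_pm_101 : ℕ → ℕ → ℕ → ℕ → Bool := onCell 536870912 536870912 0 536870912 33554432 16777216
    (rowFK 2 true true false .npn 1 0 1 (qsf 536870912 536870912 0 536870912 1) ndF1q1 ndF1q0 pcF1 Cut.none Ext.none)

def k0_pm_101 : ∃ t, chk3 f_pm_101 t 1 1 1 = true :=
  ⟨(l 3), by decide +kernel⟩

theorem c_pm_101 : CertF 536870912 536870912 0 536870912 33554432 16777216 true true false .npn 1 0 1
    ndF1q1 ndF1q0 pcF1 Cut.none Ext.none :=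
  certFK2 (fam := true) (s1 := true) (s2 := false) (a := 1) (b := 0) (c := 1) (cn := .npn) (n1 := ndF1q1) (n2 := ndF1q0) (pc := pcF1) (cut := Cut.none) (xt := Ext.none) (P1 := 536870912) (W1 := 536870912) (P2 := 0) (W2 := 536870912) (P3 := 33554432) (W3 := 16777216)
    rfl rfl rfl (fun _ => rfl) k0_pm_101

noncomputable def f_pm_102 : ℕ → ℕ → ℕ → ℕ → Bool := onCell 536870912 536870912 1073741824 536870912 33554432 16777216
    (rowFK 1 true true false .npp 1 0 2 (qsf 536870912 536870912 0 536870912 2) ndF1q1 ndF1q0 pcF2 Cut.none Ext.none)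

def k0_pm_102 : ∃ t, chk3 f_pm_102 t 1 1 1 = true :=
  ⟨(b (b (l 3) (b (b (b (l 3) (a (b (l 3) (l 17402944)) (b (l 3) (a (l 17786424) (a (l 18256704) (l 18794864)))))) (a (l 17410632) (a (l 17869928) (l 18552880)))) (a (l 17552832) (a (l 18029264) (l 18685440))))) (a (l 17850632) (a (l 18292576) (l 18794792)))), by decide +kernel⟩

theorem c_pm_102 : CertF 536870912 536870912 0 536870912 33554432 16777216 true true false .npp 1 0 2
    ndF1q1 ndF1q0 pcF2 Cut.none Ext.none :=
  certFK1 (fam := true) (s1 := true) (s2 := false) (a := 1) (b := 0) (c := 2) (cn := .npp) (n1 := ndF1q1) (n2 := ndF1q0) (pc := pcF2) (cut := Cut.none) (xt := Ext.none) (P1 := 536870912) (W1 := 536870912) (P2 := 0) (W2 := 536870912) (P3 := 33554432) (W3 := 16777216)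
    rfl rfl rfl (fun _ => rfl) k0_pm_102

noncomputable def f_pm_112 : ℕ → ℕ → ℕ → ℕ → Bool := onCell 1073741824 536870912 536870912 536870912 33554432 16777216
    (rowFK 2 true true false .dn 1 1 2 (qsf 536870912 536870912 536870912 536870912 2) ndF1q1 ndF1q1 pcF2 Cut.none Ext.none)

def k0_pm_112 : ∃ t, chk3 f_pm_112 t 1 1 1 = true :=
  ⟨(a (a (l 3) (a (a (a (l 3) (b (a (l 3) (l 18290744)) (l 1))) (l 18238976)) (l 18164888))) (l 20437316071)), by decide +kernel⟩

theorem c_pm_112 : CertF 536870912 536870912 536870912 536870912 33554432 16777216 true true false .dn 1 1 2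
    ndF1q1 ndF1q1 pcF2 Cut.none Ext.none :=
  certFK2 (fam := true) (s1 := true) (s2 := false) (a := 1) (b := 1) (c := 2) (cn := .dn) (n1 := ndF1q1) (n2 := ndF1q1) (pc := pcF2) (cut := Cut.none) (xt := Ext.none) (P1 := 536870912) (W1 := 536870912) (P2 := 536870912) (W2 := 536870912) (P3 := 33554432) (W3 := 16777216)
    rfl rfl rfl (fun _ => rfl) k0_pm_112

noncomputable def f_pm_113 : ℕ → ℕ → ℕ → ℕ → Bool := onCell 536870912 536870912 536870912 536870912 33554432 16777216
    (rowFK 0 true true false .nn 1 1 3 (qsf 536870912 536870912 536870912 536870912 3) ndF1q1 ndF1q1 pcF3 Cut.none Ext.none)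

def k0_pm_113 : ∃ t, chk3 f_pm_113 t 1 1 1 = true :=
  ⟨(a (b (l 315716810727) (l 300147155031)) (b (l 279209189463) (a (b (l 17417072) (a (l 17646968) (l 17440176))) (b (b (l 17646968) (l 17440176)) (a (b (l 17085648) (b (l 17188752) (l 17123560))) (b (a (l 17188752) (l 17123560)) (a (l 16931608) (b (l 16984744) (a (l 16855840) (b (l 16887104) (a (l 16817008) (b (l 16833952) (b (l 16797248) (a (l 16806072) (b (l 16787272) (l 16889776)))))))))))))))), by decide +kernel⟩

theorem c_pm_113 : CertF 536870912 536870912 536870912 536870912 33554432 16777216 true true false .nn 1 1 3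
    ndF1q1 ndF1q1 pcF3 Cut.none Ext.none :=
  certFK0 (fam := true) (s1 := true) (s2 := false) (a := 1) (b := 1) (c := 3) (cn := .nn) (n1 := ndF1q1) (n2 := ndF1q1) (pc := pcF3) (cut := Cut.none) (xt := Ext.none) (P1 := 536870912) (W1 := 536870912) (P2 := 536870912) (W2 := 536870912) (P3 := 33554432) (W3 := 16777216)
    rfl rfl rfl k0_pm_113

noncomputable def f_pm_123_a : ℕ → ℕ → ℕ → ℕ → Bool := onCell 1610612736 536870912 0 536870912 33554432 16777216
    (rowFK 2 true true false .npn 1 2 3 (qsf 536870912 536870912 0 536870912 3) ndF1q1 ndF1q2a pcF3 Cut.none Ext.none)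

def k0_pm_123_a : ∃ t, chk3 f_pm_123_a t 1 1 1 = true :=
  ⟨(a (a (b (l 17330568) (l 17426288)) (b (l 17458232) (a (l 17288400) (l 17301856)))) (a (a (l 17322640) (l 17414064)) (a (l 17495120) (l 4)))), by decide +kernel⟩

theorem c_pm_123_a : CertF 536870912 536870912 0 536870912 33554432 16777216 true true false .npn 1 2 3
    ndF1q1 ndF1q2a pcF3 Cut.none Ext.none :=
  certFK2 (fam := true) (s1 := true) (s2 := false) (a := 1) (b := 2) (c := 3) (cn := .npn) (n1 := ndF1q1) (n2 := ndF1q2a) (pc := pcF3) (cut := Cut.none) (xt := Ext.none) (P1 := 536870912) (W1 := 536870912) (P2 := 0) (W2 := 536870912) (P3 := 33554432) (W3 := 16777216)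
    rfl rfl rfl (fun _ => rfl) k0_pm_123_a

noncomputable def f_pm_123_b : ℕ → ℕ → ℕ → ℕ → Bool := onCell 1610612736 536870912 1239849684 370763052 33554432 16777216
    (rowFK 2 true true false .npn 1 2 3 (qsf 536870912 536870912 1239849684 370763052 3) ndF1q1 ndF1q2b pcF3 Cut.none Ext.none)

def k0_pm_123_b : ∃ t, chk3 f_pm_123_b t 1 1 1 = true :=
  ⟨(a (a (l 1) (a (l 17368992) (l 17377280))) (a (l 4) (l 4))), by decide +kernel⟩

theorem c_pm_123_b : CertF 536870912 536870912 1239849684 370763052 33554432 16777216 true true false .npn 1 2 3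
    ndF1q1 ndF1q2b pcF3 Cut.none Ext.none :=
  certFK2 (fam := true) (s1 := true) (s2 := false) (a := 1) (b := 2) (c := 3) (cn := .npn) (n1 := ndF1q1) (n2 := ndF1q2b) (pc := pcF3) (cut := Cut.none) (xt := Ext.none) (P1 := 536870912) (W1 := 536870912) (P2 := 1239849684) (W2 := 370763052) (P3 := 33554432) (W3 := 16777216)
    rfl rfl rfl (fun _ => rfl) k0_pm_123_b

noncomputable def f_pm_133 : ℕ → ℕ → ℕ → ℕ → Bool := onCell 536870912 536870912 1610612736 536870912 33554432 16777216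
    (rowFK 0 true true false .dn 1 3 3 (qsf 536870912 536870912 1610612736 536870912 3) ndF1q1 ndF1q3 pcF3 Cut.none Ext.none)

def k0_pm_133 : ∃ t, chk3 f_pm_133 t 1 1 1 = true :=
  ⟨(l 4), by decide +kernel⟩

theorem c_pm_133 : CertF 536870912 536870912 1610612736 536870912 33554432 16777216 true true false .dn 1 3 3
    ndF1q1 ndF1q3 pcF3 Cut.none Ext.none :=
  certFK0 (fam := true) (s1 := true) (s2 := false) (a := 1) (b := 3) (c := 3) (cn := .dn) (n1 := ndF1q1) (n2 := ndF1q3) (pc := pcF3) (cut := Cut.none) (xt := Ext.none) (P1 := 536870912) (W1 := 536870912) (P2 := 1610612736) (W2 := 536870912) (P3 := 33554432) (W3 := 16777216)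
    rfl rfl rfl k0_pm_133

noncomputable def cut_pm_202_a : Cut := Cut.of [[⟨0, 1, 0, 33554432⟩, ⟨1, 0, 0, 33554432⟩, ⟨2, 1, 0, 33554432⟩]]

noncomputable def f_pm_202_a : ℕ → ℕ → ℕ → ℕ → Bool := onCell 0 536870912 0 536870912 33554432 16777216
    (rowFK 0 true true false .pp 2 0 2 (qsf 0 536870912 0 536870912 2) ndF1q2a ndF1q0 pcF2 cut_pm_202_a Ext.none)

def k0_pm_202_a : ∃ t, chk3 f_pm_202_a t 1 1 1 = true :=
  ⟨(a (b (b (b (l 19430488) (l 19040920)) (l 18737672)) (b (l 18463584) (l 18264320))) (b (b (a (b (b (a (l 19184176) (b (l 18884552) (l 18933920))) (l 19031128)) (l 18930536)) (b (a (b (b (a (b (a (l 18460224) (b (l 17981664) (l 18250656))) (l 18473376)) (b (b (a (c (l 18024712) (a (l 17528936) (a (l 17304960) (l 17021784)))) (b (c (a (l 17474344) (c (l 17431416) (b (l 16943440) (l 17190720)))) (b (l 16724992) (l 16823280))) (c (l 17587424) (l 16944368)))) (a (l 17924760) (l 17361536))) (a (l 18100408) (l 17739136)))) (a (l 18596952) (l 18205352)))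 (l 18588480)) (b (a (b (b (b (a (b (a (l 16727344) (l 16734776)) (l 16729576)) (b (b (l 6) (l 16750520)) (l 16739760))) (l 16747384)) (l 16746696)) (b (l 17368240) (l 17672520))) (b (a (b (l 6) (l 16754704)) (l 6)) (a (l 16747792) (b (l 16771296) (l 16758984))))) (a (l 18076728) (a (l 17654728) (l 17281640))))) (a (l 18665816) (b (l 18177624) (l 18319888))))) (a (l 18730600) (l 18556872))) (b (a (l 18509464) (l 18447888)) (a (l 18335064) (l 18325160))))), by decide +kernel⟩

theorem c_pm_202_a : CertF 0 536870912 0 536870912 33554432 16777216 true true false .pp 2 0 2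
    ndF1q2a ndF1q0 pcF2 cut_pm_202_a Ext.none :=
  certFK0 (fam := true) (s1 := true) (s2 := false) (a := 2) (b := 0) (c := 2) (cn := .pp) (n1 := ndF1q2a) (n2 := ndF1q0) (pc := pcF2) (cut := cut_pm_202_a) (xt := Ext.none) (P1 := 0) (W1 := 536870912) (P2 := 0) (W2 := 536870912) (P3 := 33554432) (W3 := 16777216)
    rfl rfl rfl k0_pm_202_a

noncomputable def cut_pm_202_b : Cut := Cut.of [[⟨0, 1, 0, 33554432⟩, ⟨1, 0, 0, 33554432⟩, ⟨2, 1, 0, 33554432⟩]]

noncomputable def f_pm_202_b : ℕ → ℕ → ℕ → ℕ → Bool := onCell 1073741824 536870912 0 536870912 33554432 16777216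
    (rowFK 2 true true false .pp 2 0 2 (qsf 1239849684 370763052 0 536870912 2) ndF1q2b ndF1q0 pcF2 cut_pm_202_b Ext.none)

def k0_pm_202_b : ∃ t, chk3 f_pm_202_b t 1 1 1 = true :=
  ⟨(a (a (l 1) (b (b (b (l 19526824) (a (l 1) (l 18886384))) (l 1)) (l 1))) (a (b (b (l 19350928) (l 18694136)) (l 1)) (b (l 39767149767) (b (l 18311032) (l 1))))), by decide +kernel⟩

theorem c_pm_202_b : CertF 1239849684 370763052 0 536870912 33554432 16777216 true true false .pp 2 0 2
    ndF1q2b ndF1q0 pcF2 cut_pm_202_b Ext.none :=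
  certFK2 (fam := true) (s1 := true) (s2 := false) (a := 2) (b := 0) (c := 2) (cn := .pp) (n1 := ndF1q2b) (n2 := ndF1q0) (pc := pcF2) (cut := cut_pm_202_b) (xt := Ext.none) (P1 := 1239849684) (W1 := 370763052) (P2 := 0) (W2 := 536870912) (P3 := 33554432) (W3 := 16777216)
    rfl rfl rfl (fun _ => rfl) k0_pm_202_b

noncomputable def f_pm_203_a : ℕ → ℕ → ℕ → ℕ → Bool := onCell 0 536870912 1610612736 536870912 33554432 16777216
    (rowFK 1 true true false .up 2 0 3 (qsf 0 536870912 0 536870912 3) ndF1q2a ndF1q0 pcF3 Cut.none Ext.none)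

def k0_pm_203_a : ∃ t, chk3 f_pm_203_a t 1 1 1 = true :=
  ⟨(b (b (a (l 18612456) (l 18790200)) (a (l 18364952) (b (l 18647896) (l 2)))) (l 2)), by decide +kernel⟩

theorem c_pm_203_a : CertF 0 536870912 0 536870912 33554432 16777216 true true false .up 2 0 3
    ndF1q2a ndF1q0 pcF3 Cut.none Ext.none :=
  certFK1 (fam := true) (s1 := true) (s2 := false) (a := 2) (b := 0) (c := 3) (cn := .up) (n1 := ndF1q2a) (n2 := ndF1q0) (pc := pcF3) (cut := Cut.none) (xt := Ext.none) (P1 := 0) (W1 := 536870912) (P2 := 0) (W2 := 536870912) (P3 := 33554432) (W3 := 16777216)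
    rfl rfl rfl (fun _ => rfl) k0_pm_203_a

noncomputable def f_pm_203_b : ℕ → ℕ → ℕ → ℕ → Bool := onCell 1239849684 370763052 1610612736 536870912 33554432 16777216
    (rowFK 1 true true false .up 2 0 3 (qsf 1239849684 370763052 0 536870912 3) ndF1q2b ndF1q0 pcF3 Cut.none Ext.none)

def k0_pm_203_b : ∃ t, chk3 f_pm_203_b t 1 1 1 = true :=
  ⟨(b (b (l 18756088) (b (l 18515120) (l 18395384))) (b (l 4) (l 4))), by decide +kernel⟩

theorem c_pm_203_b : CertF 1239849684 370763052 0 536870912 33554432 16777216 true true false .up 2 0 3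
    ndF1q2b ndF1q0 pcF3 Cut.none Ext.none :=
  certFK1 (fam := true) (s1 := true) (s2 := false) (a := 2) (b := 0) (c := 3) (cn := .up) (n1 := ndF1q2b) (n2 := ndF1q0) (pc := pcF3) (cut := Cut.none) (xt := Ext.none) (P1 := 1239849684) (W1 := 370763052) (P2 := 0) (W2 := 536870912) (P3 := 33554432) (W3 := 16777216)
    rfl rfl rfl (fun _ => rfl) k0_pm_203_b

noncomputable def f_pm_213_a : ℕ → ℕ → ℕ → ℕ → Bool := onCell 0 536870912 1610612736 536870912 33554432 16777216
    (rowFK 1 true true false .pnn 2 1 3 (qsf 0 536870912 536870912 536870912 3) ndF1q2a ndF1q1 pcF3 Cut.none Ext.none)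

def k0_pm_213_a : ∃ t, chk3 f_pm_213_a t 1 1 1 = true :=
  ⟨(b (b (a (l 17330568) (l 17426288)) (a (l 17458232) (b (l 17288392) (l 17301848)))) (b (b (l 17322536) (l 17414064)) (b (l 17495120) (l 4)))), by decide +kernel⟩

theorem c_pm_213_a : CertF 0 536870912 536870912 536870912 33554432 16777216 true true false .pnn 2 1 3
    ndF1q2a ndF1q1 pcF3 Cut.none Ext.none :=
  certFK1 (fam := true) (s1 := true) (s2 := false) (a := 2) (b := 1) (c := 3) (cn := .pnn) (n1 := ndF1q2a) (n2 := ndF1q1) (pc := pcF3) (cut := Cut.none) (xt := Ext.none) (P1 := 0) (W1 := 536870912) (P2 := 536870912) (W2 := 536870912) (P3 := 33554432) (W3 := 16777216)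
    rfl rfl rfl (fun _ => rfl) k0_pm_213_a

noncomputable def f_pm_213_b : ℕ → ℕ → ℕ → ℕ → Bool := onCell 1239849684 370763052 1610612736 536870912 33554432 16777216
    (rowFK 1 true true false .pnn 2 1 3 (qsf 1239849684 370763052 536870912 536870912 3) ndF1q2b ndF1q1 pcF3 Cut.none Ext.none)

def k0_pm_213_b : ∃ t, chk3 f_pm_213_b t 1 1 1 = true :=
  ⟨(b (b (l 1) (b (l 17368992) (l 17377280))) (b (l 4) (l 4))), by decide +kernel⟩

theorem c_pm_213_b : CertF 1239849684 370763052 536870912 536870912 33554432 16777216 true true false .pnn 2 1 3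
    ndF1q2b ndF1q1 pcF3 Cut.none Ext.none :=
  certFK1 (fam := true) (s1 := true) (s2 := false) (a := 2) (b := 1) (c := 3) (cn := .pnn) (n1 := ndF1q2b) (n2 := ndF1q1) (pc := pcF3) (cut := Cut.none) (xt := Ext.none) (P1 := 1239849684) (W1 := 370763052) (P2 := 536870912) (W2 := 536870912) (P3 := 33554432) (W3 := 16777216)
    rfl rfl rfl (fun _ => rfl) k0_pm_213_b

noncomputable def f_pm_303 : ℕ → ℕ → ℕ → ℕ → Bool := onCell 1610612736 536870912 0 536870912 33554432 16777216
    (rowFK 2 true true false .npn 3 0 3 (qsf 1610612736 536870912 0 536870912 3) ndF1q3 ndF1q0 pcF3 Cut.none Ext.none)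

def k0_pm_303 : ∃ t, chk3 f_pm_303 t 1 1 1 = true :=
  ⟨(a (a (b (a (l 18005992) (l 17725480)) (l 1)) (b (a (l 17652088) (l 17600984)) (l 349001627431))) (a (l 4) (l 4))), by decide +kernel⟩

theorem c_pm_303 : CertF 1610612736 536870912 0 536870912 33554432 16777216 true true false .npn 3 0 3
    ndF1q3 ndF1q0 pcF3 Cut.none Ext.none :=
  certFK2 (fam := true) (s1 := true) (s2 := false) (a := 3) (b := 0) (c := 3) (cn := .npn) (n1 := ndF1q3) (n2 := ndF1q0) (pc := pcF3) (cut := Cut.none) (xt := Ext.none) (P1 := 1610612736) (W1 := 536870912) (P2 := 0) (W2 := 536870912) (P3 := 33554432) (W3 := 16777216)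
    rfl rfl rfl (fun _ => rfl) k0_pm_303

noncomputable def f_pm_313 : ℕ → ℕ → ℕ → ℕ → Bool := onCell 1610612736 536870912 536870912 536870912 33554432 16777216
    (rowFK 0 true true false .dn 3 1 3 (qsf 1610612736 536870912 536870912 536870912 3) ndF1q3 ndF1q1 pcF3 Cut.none Ext.none)

def k0_pm_313 : ∃ t, chk3 f_pm_313 t 1 1 1 = true :=
  ⟨(l 4), by decide +kernel⟩

theorem c_pm_313 : CertF 1610612736 536870912 536870912 536870912 33554432 16777216 true true false .dn 3 1 3
    ndF1q3 ndF1q1 pcF3 Cut.none Ext.none :=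
  certFK0 (fam := true) (s1 := true) (s2 := false) (a := 3) (b := 1) (c := 3) (cn := .dn) (n1 := ndF1q3) (n2 := ndF1q1) (pc := pcF3) (cut := Cut.none) (xt := Ext.none) (P1 := 1610612736) (W1 := 536870912) (P2 := 536870912) (W2 := 536870912) (P3 := 33554432) (W3 := 16777216)
    rfl rfl rfl k0_pm_313

noncomputable def f_mm_001 : ℕ → ℕ → ℕ → ℕ → Bool := onCell 0 536870912 0 536870912 33554432 16777216
    (rowFK 0 true false false .up 0 0 1 (qsf 0 536870912 0 536870912 1) ndF1q0 ndF1q0 pcF1 Cut.none Ext.none)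

def k0_mm_001 : ∃ t, chk3 f_mm_001 t 1 1 1 = true :=
  ⟨(l 4), by decide +kernel⟩

theorem c_mm_001 : CertF 0 536870912 0 536870912 33554432 16777216 true false false .up 0 0 1
    ndF1q0 ndF1q0 pcF1 Cut.none Ext.none :=
  certFK0 (fam := true) (s1 := false) (s2 := false) (a := 0) (b := 0) (c := 1) (cn := .up) (n1 := ndF1q0) (n2 := ndF1q0) (pc := pcF1) (cut := Cut.none) (xt := Ext.none) (P1 := 0) (W1 := 536870912) (P2 := 0) (W2 := 536870912) (P3 := 33554432) (W3 := 16777216)
    rfl rfl rfl k0_mm_001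

noncomputable def f_mm_011 : ℕ → ℕ → ℕ → ℕ → Bool := onCell 0 536870912 536870912 536870912 33554432 16777216
    (rowFK 0 true false false .pnn 0 1 1 (qsf 0 536870912 536870912 536870912 1) ndF1q0 ndF1q1 pcF1 Cut.none Ext.none)

def k0_mm_011 : ∃ t, chk3 f_mm_011 t 1 1 1 = true :=
  ⟨(l 4), by decide +kernel⟩

theorem c_mm_011 : CertF 0 536870912 536870912 536870912 33554432 16777216 true false false .pnn 0 1 1
    ndF1q0 ndF1q1 pcF1 Cut.none Ext.none :=
  certFK0 (fam := true) (s1 := false) (s2 := false) (a := 0) (b := 1) (c := 1) (cn := .pnn) (n1 := ndF1q0) (n2 := ndF1q1) (pc := pcF1) (cut := Cut.none) (xt := Ext.none) (P1 := 0) (W1 := 536870912) (P2 := 536870912) (W2 := 536870912) (P3 := 33554432) (W3 := 16777216)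
    rfl rfl rfl k0_mm_011

noncomputable def f_mm_012 : ℕ → ℕ → ℕ → ℕ → Bool := onCell 0 536870912 536870912 536870912 33554432 16777216
    (rowFK 0 true false false .pnp 0 1 2 (qsf 0 536870912 536870912 536870912 2) ndF1q0 ndF1q1 pcF2 Cut.none Ext.none)

def k0_mm_012 : ∃ t, chk3 f_mm_012 t 1 1 1 = true :=
  ⟨(l 4), by decide +kernel⟩

theorem c_mm_012 : CertF 0 536870912 536870912 536870912 33554432 16777216 true false false .pnp 0 1 2
    ndF1q0 ndF1q1 pcF2 Cut.none Ext.none :=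
  certFK0 (fam := true) (s1 := false) (s2 := false) (a := 0) (b := 1) (c := 2) (cn := .pnp) (n1 := ndF1q0) (n2 := ndF1q1) (pc := pcF2) (cut := Cut.none) (xt := Ext.none) (P1 := 0) (W1 := 536870912) (P2 := 536870912) (W2 := 536870912) (P3 := 33554432) (W3 := 16777216)
    rfl rfl rfl k0_mm_012

noncomputable def f_mm_022_a : ℕ → ℕ → ℕ → ℕ → Bool := onCell 0 536870912 0 536870912 33554432 16777216
    (rowFK 0 true false false .pp 0 2 2 (qsf 0 536870912 0 536870912 2) ndF1q0 ndF1q2a pcF2 Cut.none Ext.none)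

def k0_mm_022_a : ∃ t, chk3 f_mm_022_a t 1 1 1 = true :=
  ⟨(l 5), by decide +kernel⟩

theorem c_mm_022_a : CertF 0 536870912 0 536870912 33554432 16777216 true false false .pp 0 2 2
    ndF1q0 ndF1q2a pcF2 Cut.none Ext.none :=
  certFK0 (fam := true) (s1 := false) (s2 := false) (a := 0) (b := 2) (c := 2) (cn := .pp) (n1 := ndF1q0) (n2 := ndF1q2a) (pc := pcF2) (cut := Cut.none) (xt := Ext.none) (P1 := 0) (W1 := 536870912) (P2 := 0) (W2 := 536870912) (P3 := 33554432) (W3 := 16777216)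
    rfl rfl rfl k0_mm_022_a

noncomputable def f_mm_022_b : ℕ → ℕ → ℕ → ℕ → Bool := onCell 0 536870912 1239849684 370763052 33554432 16777216
    (rowFK 0 true false false .pp 0 2 2 (qsf 0 536870912 1239849684 370763052 2) ndF1q0 ndF1q2b pcF2 Cut.none Ext.none)

def k0_mm_022_b : ∃ t, chk3 f_mm_022_b t 1 1 1 = true :=
  ⟨(l 5), by decide +kernel⟩

theorem c_mm_022_b : CertF 0 536870912 1239849684 370763052 33554432 16777216 true false false .pp 0 2 2
    ndF1q0 ndF1q2b pcF2 Cut.none Ext.none :=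
  certFK0 (fam := true) (s1 := false) (s2 := false) (a := 0) (b := 2) (c := 2) (cn := .pp) (n1 := ndF1q0) (n2 := ndF1q2b) (pc := pcF2) (cut := Cut.none) (xt := Ext.none) (P1 := 0) (W1 := 536870912) (P2 := 1239849684) (W2 := 370763052) (P3 := 33554432) (W3 := 16777216)
    rfl rfl rfl k0_mm_022_b

noncomputable def f_mm_023_a : ℕ → ℕ → ℕ → ℕ → Bool := onCell 0 536870912 0 536870912 33554432 16777216
    (rowFK 0 true false false .up 0 2 3 (qsf 0 536870912 0 536870912 3) ndF1q0 ndF1q2a pcF3 Cut.none Ext.none)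

def k0_mm_023_a : ∃ t, chk3 f_mm_023_a t 1 1 1 = true :=
  ⟨(l 5), by decide +kernel⟩

theorem c_mm_023_a : CertF 0 536870912 0 536870912 33554432 16777216 true false false .up 0 2 3
    ndF1q0 ndF1q2a pcF3 Cut.none Ext.none :=
  certFK0 (fam := true) (s1 := false) (s2 := false) (a := 0) (b := 2) (c := 3) (cn := .up) (n1 := ndF1q0) (n2 := ndF1q2a) (pc := pcF3) (cut := Cut.none) (xt := Ext.none) (P1 := 0) (W1 := 536870912) (P2 := 0) (W2 := 536870912) (P3 := 33554432) (W3 := 16777216)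
    rfl rfl rfl k0_mm_023_a

noncomputable def f_mm_023_b : ℕ → ℕ → ℕ → ℕ → Bool := onCell 0 536870912 1239849684 370763052 33554432 16777216
    (rowFK 0 true false false .up 0 2 3 (qsf 0 536870912 1239849684 370763052 3) ndF1q0 ndF1q2b pcF3 Cut.none Ext.none)

def k0_mm_023_b : ∃ t, chk3 f_mm_023_b t 1 1 1 = true :=
  ⟨(l 5), by decide +kernel⟩

theorem c_mm_023_b : CertF 0 536870912 1239849684 370763052 33554432 16777216 true false false .up 0 2 3
    ndF1q0 ndF1q2b pcF3 Cut.none Ext.none :=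
  certFK0 (fam := true) (s1 := false) (s2 := false) (a := 0) (b := 2) (c := 3) (cn := .up) (n1 := ndF1q0) (n2 := ndF1q2b) (pc := pcF3) (cut := Cut.none) (xt := Ext.none) (P1 := 0) (W1 := 536870912) (P2 := 1239849684) (W2 := 370763052) (P3 := 33554432) (W3 := 16777216)
    rfl rfl rfl k0_mm_023_b

noncomputable def f_mm_033 : ℕ → ℕ → ℕ → ℕ → Bool := onCell 0 536870912 1610612736 536870912 33554432 16777216
    (rowFK 0 true false false .pnn 0 3 3 (qsf 0 536870912 1610612736 536870912 3) ndF1q0 ndF1q3 pcF3 Cut.none Ext.none)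

def k0_mm_033 : ∃ t, chk3 f_mm_033 t 1 1 1 = true :=
  ⟨(l 5), by decide +kernel⟩

theorem c_mm_033 : CertF 0 536870912 1610612736 536870912 33554432 16777216 true false false .pnn 0 3 3
    ndF1q0 ndF1q3 pcF3 Cut.none Ext.none :=
  certFK0 (fam := true) (s1 := false) (s2 := false) (a := 0) (b := 3) (c := 3) (cn := .pnn) (n1 := ndF1q0) (n2 := ndF1q3) (pc := pcF3) (cut := Cut.none) (xt := Ext.none) (P1 := 0) (W1 := 536870912) (P2 := 1610612736) (W2 := 536870912) (P3 := 33554432) (W3 := 16777216)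
    rfl rfl rfl k0_mm_033

noncomputable def f_mm_101 : ℕ → ℕ → ℕ → ℕ → Bool := onCell 536870912 536870912 0 536870912 33554432 16777216
    (rowFK 0 true false false .npn 1 0 1 (qsf 536870912 536870912 0 536870912 1) ndF1q1 ndF1q0 pcF1 Cut.none Ext.none)

def k0_mm_101 : ∃ t, chk3 f_mm_101 t 1 1 1 = true :=
  ⟨(l 4), by decide +kernel⟩

theorem c_mm_101 : CertF 536870912 536870912 0 536870912 33554432 16777216 true false false .npn 1 0 1
    ndF1q1 ndF1q0 pcF1 Cut.none Ext.none :=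
  certFK0 (fam := true) (s1 := false) (s2 := false) (a := 1) (b := 0) (c := 1) (cn := .npn) (n1 := ndF1q1) (n2 := ndF1q0) (pc := pcF1) (cut := Cut.none) (xt := Ext.none) (P1 := 536870912) (W1 := 536870912) (P2 := 0) (W2 := 536870912) (P3 := 33554432) (W3 := 16777216)
    rfl rfl rfl k0_mm_101

noncomputable def f_mm_102 : ℕ → ℕ → ℕ → ℕ → Bool := onCell 536870912 536870912 0 536870912 33554432 16777216
    (rowFK 0 true false false .npp 1 0 2 (qsf 536870912 536870912 0 536870912 2) ndF1q1 ndF1q0 pcF2 Cut.none Ext.none)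

def k0_mm_102 : ∃ t, chk3 f_mm_102 t 1 1 1 = true :=
  ⟨(l 4), by decide +kernel⟩

theorem c_mm_102 : CertF 536870912 536870912 0 536870912 33554432 16777216 true false false .npp 1 0 2
    ndF1q1 ndF1q0 pcF2 Cut.none Ext.none :=
  certFK0 (fam := true) (s1 := false) (s2 := false) (a := 1) (b := 0) (c := 2) (cn := .npp) (n1 := ndF1q1) (n2 := ndF1q0) (pc := pcF2) (cut := Cut.none) (xt := Ext.none) (P1 := 536870912) (W1 := 536870912) (P2 := 0) (W2 := 536870912) (P3 := 33554432) (W3 := 16777216)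
    rfl rfl rfl k0_mm_102

noncomputable def f_mm_112 : ℕ → ℕ → ℕ → ℕ → Bool := onCell 536870912 536870912 536870912 536870912 33554432 16777216
    (rowFK 0 true false false .dn 1 1 2 (qsf 536870912 536870912 536870912 536870912 2) ndF1q1 ndF1q1 pcF2 Cut.none Ext.none)

def k0_mm_112 : ∃ t, chk3 f_mm_112 t 1 1 1 = true :=
  ⟨(l 4), by decide +kernel⟩

theorem c_mm_112 : CertF 536870912 536870912 536870912 536870912 33554432 16777216 true false false .dn 1 1 2
    ndF1q1 ndF1q1 pcF2 Cut.none Ext.none :=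
  certFK0 (fam := true) (s1 := false) (s2 := false) (a := 1) (b := 1) (c := 2) (cn := .dn) (n1 := ndF1q1) (n2 := ndF1q1) (pc := pcF2) (cut := Cut.none) (xt := Ext.none) (P1 := 536870912) (W1 := 536870912) (P2 := 536870912) (W2 := 536870912) (P3 := 33554432) (W3 := 16777216)
    rfl rfl rfl k0_mm_112

noncomputable def f_mm_113 : ℕ → ℕ → ℕ → ℕ → Bool := onCell 536870912 536870912 536870912 536870912 33554432 16777216
    (rowFK 0 true false false .nn 1 1 3 (qsf 536870912 536870912 536870912 536870912 3) ndF1q1 ndF1q1 pcF3 Cut.none Ext.none)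

def k0_mm_113 : ∃ t, chk3 f_mm_113 t 1 1 1 = true :=
  ⟨(l 4), by decide +kernel⟩

theorem c_mm_113 : CertF 536870912 536870912 536870912 536870912 33554432 16777216 true false false .nn 1 1 3
    ndF1q1 ndF1q1 pcF3 Cut.none Ext.none :=
  certFK0 (fam := true) (s1 := false) (s2 := false) (a := 1) (b := 1) (c := 3) (cn := .nn) (n1 := ndF1q1) (n2 := ndF1q1) (pc := pcF3) (cut := Cut.none) (xt := Ext.none) (P1 := 536870912) (W1 := 536870912) (P2 := 536870912) (W2 := 536870912) (P3 := 33554432) (W3 := 16777216)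
    rfl rfl rfl k0_mm_113

noncomputable def f_mm_123_a : ℕ → ℕ → ℕ → ℕ → Bool := onCell 536870912 536870912 0 536870912 33554432 16777216
    (rowFK 0 true false false .npn 1 2 3 (qsf 536870912 536870912 0 536870912 3) ndF1q1 ndF1q2a pcF3 Cut.none Ext.none)

def k0_mm_123_a : ∃ t, chk3 f_mm_123_a t 1 1 1 = true :=
  ⟨(l 4), by decide +kernel⟩

theorem c_mm_123_a : CertF 536870912 536870912 0 536870912 33554432 16777216 true false false .npn 1 2 3
    ndF1q1 ndF1q2a pcF3 Cut.none Ext.none :=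
  certFK0 (fam := true) (s1 := false) (s2 := false) (a := 1) (b := 2) (c := 3) (cn := .npn) (n1 := ndF1q1) (n2 := ndF1q2a) (pc := pcF3) (cut := Cut.none) (xt := Ext.none) (P1 := 536870912) (W1 := 536870912) (P2 := 0) (W2 := 536870912) (P3 := 33554432) (W3 := 16777216)
    rfl rfl rfl k0_mm_123_a

noncomputable def f_mm_123_b : ℕ → ℕ → ℕ → ℕ → Bool := onCell 536870912 536870912 1239849684 370763052 33554432 16777216
    (rowFK 0 true false false .npn 1 2 3 (qsf 536870912 536870912 1239849684 370763052 3) ndF1q1 ndF1q2b pcF3 Cut.none Ext.none)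

def k0_mm_123_b : ∃ t, chk3 f_mm_123_b t 1 1 1 = true :=
  ⟨(l 4), by decide +kernel⟩

theorem c_mm_123_b : CertF 536870912 536870912 1239849684 370763052 33554432 16777216 true false false .npn 1 2 3
    ndF1q1 ndF1q2b pcF3 Cut.none Ext.none :=
  certFK0 (fam := true) (s1 := false) (s2 := false) (a := 1) (b := 2) (c := 3) (cn := .npn) (n1 := ndF1q1) (n2 := ndF1q2b) (pc := pcF3) (cut := Cut.none) (xt := Ext.none) (P1 := 536870912) (W1 := 536870912) (P2 := 1239849684) (W2 := 370763052) (P3 := 33554432) (W3 := 16777216)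
    rfl rfl rfl k0_mm_123_b

noncomputable def f_mm_133 : ℕ → ℕ → ℕ → ℕ → Bool := onCell 536870912 536870912 1610612736 536870912 33554432 16777216
    (rowFK 0 true false false .dn 1 3 3 (qsf 536870912 536870912 1610612736 536870912 3) ndF1q1 ndF1q3 pcF3 Cut.none Ext.none)

def k0_mm_133 : ∃ t, chk3 f_mm_133 t 1 1 1 = true :=
  ⟨(l 4), by decide +kernel⟩

theorem c_mm_133 : CertF 536870912 536870912 1610612736 536870912 33554432 16777216 true false false .dn 1 3 3
    ndF1q1 ndF1q3 pcF3 Cut.none Ext.none :=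
  certFK0 (fam := true) (s1 := false) (s2 := false) (a := 1) (b := 3) (c := 3) (cn := .dn) (n1 := ndF1q1) (n2 := ndF1q3) (pc := pcF3) (cut := Cut.none) (xt := Ext.none) (P1 := 536870912) (W1 := 536870912) (P2 := 1610612736) (W2 := 536870912) (P3 := 33554432) (W3 := 16777216)
    rfl rfl rfl k0_mm_133

noncomputable def cut_mm_202_a : Cut := Cut.of [[⟨0, 1, 0, 33554432⟩, ⟨1, 0, 0, 33554432⟩, ⟨2, 1, 0, 33554432⟩]]

noncomputable def f_mm_202_a : ℕ → ℕ → ℕ → ℕ → Bool := onCell 0 536870912 0 536870912 33554432 16777216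
    (rowFK 0 true false false .pp 2 0 2 (qsf 0 536870912 0 536870912 2) ndF1q2a ndF1q0 pcF2 cut_mm_202_a Ext.none)

def k0_mm_202_a : ∃ t, chk3 f_mm_202_a t 1 1 1 = true :=
  ⟨(b (a (b (b (a (l 19032920) (b (l 19128520) (l 18687928))) (a (l 18380448) (l 18248680))) (b (l 18144248) (l 4))) (b (b (b (a (a (l 18915768) (b (a (l 18837032) (b (l 18651104) (l 18549760))) (l 18481736))) (b (b (a (a (a (l 18375680) (b (c (l 18359200) (l 17858136)) (l 18125536))) (a (b (b (c (l 18007632) (a (l 17530160) (l 17021536))) (l 17590608)) (l 17810440)) (a (b (b (c (l 17414152) (b (l 16841048) (l 16997240))) (l 17336984)) (l 17504552)) (b (b (b (l 16766640) (l 16972832)) (l 17097320)) (l 17254208))))) (a (b (a (b (a (l 16732592) (b (l 16733344) (l 16734392))) (l 16733288)) (a (a (b (l 16740760) (l 16740192)) (l 6)) (l 6))) (a (l 16741984) (b (l 16757936) (l 16752880)))) (l 6))) (a (a (l 18215760) (a (l 17851496) (l 17335608))) (a (a (b (l 17026096) (l 4)) (l 4)) (l 4)))) (a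 (a (l 18085200) (l 4)) (l 4)))) (a (a (l 18437128) (l 18126664)) (l 4))) (l 4)) (l 4))) (l 4)), by decide +kernel⟩

theorem c_mm_202_a : CertF 0 536870912 0 536870912 33554432 16777216 true false false .pp 2 0 2
    ndF1q2a ndF1q0 pcF2 cut_mm_202_a Ext.none :=
  certFK0 (fam := true) (s1 := false) (s2 := false) (a := 2) (b := 0) (c := 2) (cn := .pp) (n1 := ndF1q2a) (n2 := ndF1q0) (pc := pcF2) (cut := cut_mm_202_a) (xt := Ext.none) (P1 := 0) (W1 := 536870912) (P2 := 0) (W2 := 536870912) (P3 := 33554432) (W3 := 16777216)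
    rfl rfl rfl k0_mm_202_a

noncomputable def cut_mm_202_b : Cut := Cut.of [[⟨0, 1, 0, 33554432⟩, ⟨1, 0, 0, 33554432⟩, ⟨2, 1, 0, 33554432⟩]]

noncomputable def f_mm_202_b : ℕ → ℕ → ℕ → ℕ → Bool := onCell 1239849684 370763052 0 536870912 33554432 16777216
    (rowFK 0 true false false .pp 2 0 2 (qsf 1239849684 370763052 0 536870912 2) ndF1q2b ndF1q0 pcF2 cut_mm_202_b Ext.none)

def k0_mm_202_b : ∃ t, chk3 f_mm_202_b t 1 1 1 = true :=
  ⟨(b (a (b (a (b (b (l 19383472) (l 19031960)) (a (l 18534520) (l 18652008))) (b (a (l 19224648) (l 19162592)) (l 18696032))) (a (b (l 18275024) (l 4)) (l 4))) (b (b (a (l 18986080) (l 18889040)) (l 4)) (l 4))) (l 4)), by decide +kernel⟩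

theorem c_mm_202_b : CertF 1239849684 370763052 0 536870912 33554432 16777216 true false false .pp 2 0 2
    ndF1q2b ndF1q0 pcF2 cut_mm_202_b Ext.none :=
  certFK0 (fam := true) (s1 := false) (s2 := false) (a := 2) (b := 0) (c := 2) (cn := .pp) (n1 := ndF1q2b) (n2 := ndF1q0) (pc := pcF2) (cut := cut_mm_202_b) (xt := Ext.none) (P1 := 1239849684) (W1 := 370763052) (P2 := 0) (W2 := 536870912) (P3 := 33554432) (W3 := 16777216)
    rfl rfl rfl k0_mm_202_b

noncomputable def f_mm_203_a : ℕ → ℕ → ℕ → ℕ → Bool := onCell 0 536870912 1610612736 536870912 33554432 16777216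
    (rowFK 1 true false false .up 2 0 3 (qsf 0 536870912 0 536870912 3) ndF1q2a ndF1q0 pcF3 Cut.none Ext.none)

def k0_mm_203_a : ∃ t, chk3 f_mm_203_a t 1 1 1 = true :=
  ⟨(l 4), by decide +kernel⟩

theorem c_mm_203_a : CertF 0 536870912 0 536870912 33554432 16777216 true false false .up 2 0 3
    ndF1q2a ndF1q0 pcF3 Cut.none Ext.none :=
  certFK1 (fam := true) (s1 := false) (s2 := false) (a := 2) (b := 0) (c := 3) (cn := .up) (n1 := ndF1q2a) (n2 := ndF1q0) (pc := pcF3) (cut := Cut.none) (xt := Ext.none) (P1 := 0) (W1 := 536870912) (P2 := 0) (W2 := 536870912) (P3 := 33554432) (W3 := 16777216)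
    rfl rfl rfl (fun _ => rfl) k0_mm_203_a

noncomputable def f_mm_203_b : ℕ → ℕ → ℕ → ℕ → Bool := onCell 1239849684 370763052 1610612736 536870912 33554432 16777216
    (rowFK 1 true false false .up 2 0 3 (qsf 1239849684 370763052 0 536870912 3) ndF1q2b ndF1q0 pcF3 Cut.none Ext.none)

def k0_mm_203_b : ∃ t, chk3 f_mm_203_b t 1 1 1 = true :=
  ⟨(b (l 4) (l 4)), by decide +kernel⟩

theorem c_mm_203_b : CertF 1239849684 370763052 0 536870912 33554432 16777216 true false false .up 2 0 3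
    ndF1q2b ndF1q0 pcF3 Cut.none Ext.none :=
  certFK1 (fam := true) (s1 := false) (s2 := false) (a := 2) (b := 0) (c := 3) (cn := .up) (n1 := ndF1q2b) (n2 := ndF1q0) (pc := pcF3) (cut := Cut.none) (xt := Ext.none) (P1 := 1239849684) (W1 := 370763052) (P2 := 0) (W2 := 536870912) (P3 := 33554432) (W3 := 16777216)
    rfl rfl rfl (fun _ => rfl) k0_mm_203_b

noncomputable def f_mm_213_a : ℕ → ℕ → ℕ → ℕ → Bool := onCell 0 536870912 536870912 536870912 33554432 16777216
    (rowFK 0 true false false .pnn 2 1 3 (qsf 0 536870912 536870912 536870912 3) ndF1q2a ndF1q1 pcF3 Cut.none Ext.none)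

def k0_mm_213_a : ∃ t, chk3 f_mm_213_a t 1 1 1 = true :=
  ⟨(l 4), by decide +kernel⟩

theorem c_mm_213_a : CertF 0 536870912 536870912 536870912 33554432 16777216 true false false .pnn 2 1 3
    ndF1q2a ndF1q1 pcF3 Cut.none Ext.none :=
  certFK0 (fam := true) (s1 := false) (s2 := false) (a := 2) (b := 1) (c := 3) (cn := .pnn) (n1 := ndF1q2a) (n2 := ndF1q1) (pc := pcF3) (cut := Cut.none) (xt := Ext.none) (P1 := 0) (W1 := 536870912) (P2 := 536870912) (W2 := 536870912) (P3 := 33554432) (W3 := 16777216)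
    rfl rfl rfl k0_mm_213_a

noncomputable def f_mm_213_b : ℕ → ℕ → ℕ → ℕ → Bool := onCell 1239849684 370763052 536870912 536870912 33554432 16777216
    (rowFK 0 true false false .pnn 2 1 3 (qsf 1239849684 370763052 536870912 536870912 3) ndF1q2b ndF1q1 pcF3 Cut.none Ext.none)

def k0_mm_213_b : ∃ t, chk3 f_mm_213_b t 1 1 1 = true :=
  ⟨(l 4), by decide +kernel⟩

theorem c_mm_213_b : CertF 1239849684 370763052 536870912 536870912 33554432 16777216 true false false .pnn 2 1 3
    ndF1q2b ndF1q1 pcF3 Cut.none Ext.none :=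
  certFK0 (fam := true) (s1 := false) (s2 := false) (a := 2) (b := 1) (c := 3) (cn := .pnn) (n1 := ndF1q2b) (n2 := ndF1q1) (pc := pcF3) (cut := Cut.none) (xt := Ext.none) (P1 := 1239849684) (W1 := 370763052) (P2 := 536870912) (W2 := 536870912) (P3 := 33554432) (W3 := 16777216)
    rfl rfl rfl k0_mm_213_b

noncomputable def f_mm_303 : ℕ → ℕ → ℕ → ℕ → Bool := onCell 1610612736 536870912 0 536870912 33554432 16777216
    (rowFK 0 true false false .npn 3 0 3 (qsf 1610612736 536870912 0 536870912 3) ndF1q3 ndF1q0 pcF3 Cut.none Ext.none)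

def k0_mm_303 : ∃ t, chk3 f_mm_303 t 1 1 1 = true :=
  ⟨(a (b (l 4) (l 4)) (l 4)), by decide +kernel⟩

theorem c_mm_303 : CertF 1610612736 536870912 0 536870912 33554432 16777216 true false false .npn 3 0 3
    ndF1q3 ndF1q0 pcF3 Cut.none Ext.none :=
  certFK0 (fam := true) (s1 := false) (s2 := false) (a := 3) (b := 0) (c := 3) (cn := .npn) (n1 := ndF1q3) (n2 := ndF1q0) (pc := pcF3) (cut := Cut.none) (xt := Ext.none) (P1 := 1610612736) (W1 := 536870912) (P2 := 0) (W2 := 536870912) (P3 := 33554432) (W3 := 16777216)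
    rfl rfl rfl k0_mm_303

noncomputable def f_mm_313 : ℕ → ℕ → ℕ → ℕ → Bool := onCell 1610612736 536870912 536870912 536870912 33554432 16777216
    (rowFK 0 true false false .dn 3 1 3 (qsf 1610612736 536870912 536870912 536870912 3) ndF1q3 ndF1q1 pcF3 Cut.none Ext.none)

def k0_mm_313 : ∃ t, chk3 f_mm_313 t 1 1 1 = true :=
  ⟨(l 4), by decide +kernel⟩

theorem c_mm_313 : CertF 1610612736 536870912 536870912 536870912 33554432 16777216 true false false .dn 3 1 3
    ndF1q3 ndF1q1 pcF3 Cut.none Ext.none :=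
  certFK0 (fam := true) (s1 := false) (s2 := false) (a := 3) (b := 1) (c := 3) (cn := .dn) (n1 := ndF1q3) (n2 := ndF1q1) (pc := pcF3) (cut := Cut.none) (xt := Ext.none) (P1 := 1610612736) (W1 := 536870912) (P2 := 536870912) (W2 := 536870912) (P3 := 33554432) (W3 := 16777216)
    rfl rfl rfl k0_mm_313

end Pool.Agent.Strip051.G.I1_32_3_64.Tab.C.FA11

namespace Pool.Agent.Strip051.G.I1_32_3_64.Tab.C.FA12

open Pool.Agent.Strip051.PB Pool.Agent.Strip051.PB.T
open Pool.Agent.Strip051.G.I1_32_3_64.Tab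

noncomputable def f_pp_001 : ℕ → ℕ → ℕ → ℕ → Bool := onCell 0 536870912 0 536870912 33554432 16777216
    (rowFK 0 true true true .up 0 0 1 (qsf 0 536870912 0 536870912 1) ndF1q0 ndF2q0 pcF1 Cut.none Ext.none)

def k0_pp_001 : ∃ t, chk3 f_pp_001 t 1 1 1 = true :=
  ⟨(l 4), by decide +kernel⟩

theorem c_pp_001 : CertF 0 536870912 0 536870912 33554432 16777216 true true true .up 0 0 1
    ndF1q0 ndF2q0 pcF1 Cut.none Ext.none :=
  certFK0 (fam := true) (s1 := true) (s2 := true) (a := 0) (b := 0) (c := 1) (cn := .up) (n1 := ndF1q0) (n2 := ndF2q0) (pc := pcF1) (cut := Cut.none) (xt := Ext.none) (P1 := 0) (W1 := 536870912) (P2 := 0) (W2 := 536870912) (P3 := 33554432) (W3 := 16777216)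
    rfl rfl rfl k0_pp_001

noncomputable def f_pp_011 : ℕ → ℕ → ℕ → ℕ → Bool := onCell 0 536870912 536870912 536870912 33554432 16777216
    (rowFK 0 true true true .pnn 0 1 1 (qsf 0 536870912 536870912 536870912 1) ndF1q0 ndF2q1 pcF1 Cut.none Ext.none)

def k0_pp_011 : ∃ t, chk3 f_pp_011 t 1 1 1 = true :=
  ⟨(l 4), by decide +kernel⟩

theorem c_pp_011 : CertF 0 536870912 536870912 536870912 33554432 16777216 true true true .pnn 0 1 1
    ndF1q0 ndF2q1 pcF1 Cut.none Ext.none :=
  certFK0 (fam := true) (s1 := true) (s2 := true) (a := 0) (b := 1) (c := 1) (cn := .pnn) (n1 := ndF1q0) (n2 := ndF2q1) (pc := pcF1) (cut := Cut.none) (xt := Ext.none) (P1 := 0) (W1 := 536870912) (P2 := 536870912) (W2 := 536870912) (P3 := 33554432) (W3 := 16777216)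
    rfl rfl rfl k0_pp_011

noncomputable def f_pp_012 : ℕ → ℕ → ℕ → ℕ → Bool := onCell 0 536870912 536870912 536870912 33554432 16777216
    (rowFK 0 true true true .pnp 0 1 2 (qsf 0 536870912 536870912 536870912 2) ndF1q0 ndF2q1 pcF2 Cut.none Ext.none)

def k0_pp_012 : ∃ t, chk3 f_pp_012 t 1 1 1 = true :=
  ⟨(l 4), by decide +kernel⟩

theorem c_pp_012 : CertF 0 536870912 536870912 536870912 33554432 16777216 true true true .pnp 0 1 2
    ndF1q0 ndF2q1 pcF2 Cut.none Ext.none :=
  certFK0 (fam := true) (s1 := true) (s2 := true) (a := 0) (b := 1) (c := 2) (cn := .pnp) (n1 := ndF1q0) (n2 := ndF2q1) (pc := pcF2) (cut := Cut.none) (xt := Ext.none) (P1 := 0) (W1 := 536870912) (P2 := 536870912) (W2 := 536870912) (P3 := 33554432) (W3 := 16777216)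
    rfl rfl rfl k0_pp_012

noncomputable def cut_pp_022_a : Cut := Cut.of [[⟨0, 0, 0, 33554432⟩, ⟨1, 1, 0, 33554432⟩, ⟨2, 1, 0, 33554432⟩]]

noncomputable def f_pp_022_a : ℕ → ℕ → ℕ → ℕ → Bool := onCell 0 536870912 0 536870912 33554432 16777216
    (rowFK 0 true true true .pp 0 2 2 (qsf 0 536870912 0 536870912 2) ndF1q0 ndF2q2a pcF2 cut_pp_022_a Ext.none)

def k0_pp_022_a : ∃ t, chk3 f_pp_022_a t 1 1 1 = true :=
  ⟨(a (b (l 4) (a (b (l 4) (b (l 4) (b (l 4) (b (l 4) (a (a (a (l 6) (l 4)) (l 4)) (l 4)))))) (l 4))) (l 4)), by decide +kernel⟩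

theorem c_pp_022_a : CertF 0 536870912 0 536870912 33554432 16777216 true true true .pp 0 2 2
    ndF1q0 ndF2q2a pcF2 cut_pp_022_a Ext.none :=
  certFK0 (fam := true) (s1 := true) (s2 := true) (a := 0) (b := 2) (c := 2) (cn := .pp) (n1 := ndF1q0) (n2 := ndF2q2a) (pc := pcF2) (cut := cut_pp_022_a) (xt := Ext.none) (P1 := 0) (W1 := 536870912) (P2 := 0) (W2 := 536870912) (P3 := 33554432) (W3 := 16777216)
    rfl rfl rfl k0_pp_022_a

noncomputable def cut_pp_022_b : Cut := Cut.of [[⟨0, 0, 0, 33554432⟩, ⟨1, 1, 0, 33554432⟩, ⟨2, 1, 0, 33554432⟩]]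

noncomputable def f_pp_022_b : ℕ → ℕ → ℕ → ℕ → Bool := onCell 0 536870912 1239849684 370763052 33554432 16777216
    (rowFK 0 true true true .pp 0 2 2 (qsf 0 536870912 1239849684 370763052 2) ndF1q0 ndF2q2b pcF2 cut_pp_022_b Ext.none)

def k0_pp_022_b : ∃ t, chk3 f_pp_022_b t 1 1 1 = true :=
  ⟨(l 4), by decide +kernel⟩

theorem c_pp_022_b : CertF 0 536870912 1239849684 370763052 33554432 16777216 true true true .pp 0 2 2
    ndF1q0 ndF2q2b pcF2 cut_pp_022_b Ext.none :=
  certFK0 (fam := true) (s1 := true) (s2 := true) (a := 0) (b := 2) (c := 2) (cn := .pp) (n1 := ndF1q0) (n2 := ndF2q2b) (pc := pcF2) (cut := cut_pp_022_b) (xt := Ext.none) (P1 := 0) (W1 := 536870912) (P2 := 1239849684) (W2 := 370763052) (P3 := 33554432) (W3 := 16777216)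
    rfl rfl rfl k0_pp_022_b

noncomputable def f_pp_023_a : ℕ → ℕ → ℕ → ℕ → Bool := onCell 1610612736 536870912 0 536870912 33554432 16777216
    (rowFK 2 true true true .up 0 2 3 (qsf 0 536870912 0 536870912 3) ndF1q0 ndF2q2a pcF3 Cut.none Ext.none)

def k0_pp_023_a : ∃ t, chk3 f_pp_023_a t 1 1 1 = true :=
  ⟨(l 4), by decide +kernel⟩

theorem c_pp_023_a : CertF 0 536870912 0 536870912 33554432 16777216 true true true .up 0 2 3
    ndF1q0 ndF2q2a pcF3 Cut.none Ext.none :=
  certFK2 (fam := true) (s1 := true) (s2 := true) (a := 0) (b := 2) (c := 3) (cn := .up) (n1 := ndF1q0) (n2 := ndF2q2a) (pc := pcF3) (cut := Cut.none) (xt := Ext.none) (P1 := 0) (W1 := 536870912) (P2 := 0) (W2 := 536870912) (P3 := 33554432) (W3 := 16777216)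
    rfl rfl rfl (fun _ => rfl) k0_pp_023_a

noncomputable def f_pp_023_b : ℕ → ℕ → ℕ → ℕ → Bool := onCell 0 536870912 1239849684 370763052 33554432 16777216
    (rowFK 0 true true true .up 0 2 3 (qsf 0 536870912 1239849684 370763052 3) ndF1q0 ndF2q2b pcF3 Cut.none Ext.none)

def k0_pp_023_b : ∃ t, chk3 f_pp_023_b t 1 1 1 = true :=
  ⟨(l 4), by decide +kernel⟩

theorem c_pp_023_b : CertF 0 536870912 1239849684 370763052 33554432 16777216 true true true .up 0 2 3
    ndF1q0 ndF2q2b pcF3 Cut.none Ext.none :=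
  certFK0 (fam := true) (s1 := true) (s2 := true) (a := 0) (b := 2) (c := 3) (cn := .up) (n1 := ndF1q0) (n2 := ndF2q2b) (pc := pcF3) (cut := Cut.none) (xt := Ext.none) (P1 := 0) (W1 := 536870912) (P2 := 1239849684) (W2 := 370763052) (P3 := 33554432) (W3 := 16777216)
    rfl rfl rfl k0_pp_023_b

noncomputable def f_pp_033 : ℕ → ℕ → ℕ → ℕ → Bool := onCell 0 536870912 1610612736 536870912 33554432 16777216
    (rowFK 0 true true true .pnn 0 3 3 (qsf 0 536870912 1610612736 536870912 3) ndF1q0 ndF2q3 pcF3 Cut.none Ext.none)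

def k0_pp_033 : ∃ t, chk3 f_pp_033 t 1 1 1 = true :=
  ⟨(l 4), by decide +kernel⟩

theorem c_pp_033 : CertF 0 536870912 1610612736 536870912 33554432 16777216 true true true .pnn 0 3 3
    ndF1q0 ndF2q3 pcF3 Cut.none Ext.none :=
  certFK0 (fam := true) (s1 := true) (s2 := true) (a := 0) (b := 3) (c := 3) (cn := .pnn) (n1 := ndF1q0) (n2 := ndF2q3) (pc := pcF3) (cut := Cut.none) (xt := Ext.none) (P1 := 0) (W1 := 536870912) (P2 := 1610612736) (W2 := 536870912) (P3 := 33554432) (W3 := 16777216)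
    rfl rfl rfl k0_pp_033

noncomputable def f_pp_101 : ℕ → ℕ → ℕ → ℕ → Bool := onCell 536870912 536870912 0 536870912 33554432 16777216
    (rowFK 0 true true true .npn 1 0 1 (qsf 536870912 536870912 0 536870912 1) ndF1q1 ndF2q0 pcF1 Cut.none Ext.none)

def k0_pp_101 : ∃ t, chk3 f_pp_101 t 1 1 1 = true :=
  ⟨(l 4), by decide +kernel⟩

theorem c_pp_101 : CertF 536870912 536870912 0 536870912 33554432 16777216 true true true .npn 1 0 1
    ndF1q1 ndF2q0 pcF1 Cut.none Ext.none :=
  certFK0 (fam := true) (s1 := true) (s2 := true) (a := 1) (b := 0) (c := 1) (cn := .npn) (n1 := ndF1q1) (n2 := ndF2q0) (pc := pcF1) (cut := Cut.none) (xt := Ext.none) (P1 := 536870912) (W1 := 536870912) (P2 := 0) (W2 := 536870912) (P3 := 33554432) (W3 := 16777216)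
    rfl rfl rfl k0_pp_101

noncomputable def f_pp_102 : ℕ → ℕ → ℕ → ℕ → Bool := onCell 536870912 536870912 0 536870912 33554432 16777216
    (rowFK 0 true true true .npp 1 0 2 (qsf 536870912 536870912 0 536870912 2) ndF1q1 ndF2q0 pcF2 Cut.none Ext.none)

def k0_pp_102 : ∃ t, chk3 f_pp_102 t 1 1 1 = true :=
  ⟨(l 4), by decide +kernel⟩

theorem c_pp_102 : CertF 536870912 536870912 0 536870912 33554432 16777216 true true true .npp 1 0 2
    ndF1q1 ndF2q0 pcF2 Cut.none Ext.none :=
  certFK0 (fam := true) (s1 := true) (s2 := true) (a := 1) (b := 0) (c := 2) (cn := .npp) (n1 := ndF1q1) (n2 := ndF2q0) (pc := pcF2) (cut := Cut.none) (xt := Ext.none) (P1 := 536870912) (W1 := 536870912) (P2 := 0) (W2 := 536870912) (P3 := 33554432) (W3 := 16777216)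
    rfl rfl rfl k0_pp_102

noncomputable def f_pp_112 : ℕ → ℕ → ℕ → ℕ → Bool := onCell 536870912 536870912 536870912 536870912 33554432 16777216
    (rowFK 0 true true true .dn 1 1 2 (qsf 536870912 536870912 536870912 536870912 2) ndF1q1 ndF2q1 pcF2 Cut.none Ext.none)

def k0_pp_112 : ∃ t, chk3 f_pp_112 t 1 1 1 = true :=
  ⟨(l 4), by decide +kernel⟩

theorem c_pp_112 : CertF 536870912 536870912 536870912 536870912 33554432 16777216 true true true .dn 1 1 2
    ndF1q1 ndF2q1 pcF2 Cut.none Ext.none :=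
  certFK0 (fam := true) (s1 := true) (s2 := true) (a := 1) (b := 1) (c := 2) (cn := .dn) (n1 := ndF1q1) (n2 := ndF2q1) (pc := pcF2) (cut := Cut.none) (xt := Ext.none) (P1 := 536870912) (W1 := 536870912) (P2 := 536870912) (W2 := 536870912) (P3 := 33554432) (W3 := 16777216)
    rfl rfl rfl k0_pp_112

noncomputable def f_pp_113 : ℕ → ℕ → ℕ → ℕ → Bool := onCell 536870912 536870912 536870912 536870912 33554432 16777216
    (rowFK 0 true true true .nn 1 1 3 (qsf 536870912 536870912 536870912 536870912 3) ndF1q1 ndF2q1 pcF3 Cut.none Ext.none)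

def k0_pp_113 : ∃ t, chk3 f_pp_113 t 1 1 1 = true :=
  ⟨(l 4), by decide +kernel⟩

theorem c_pp_113 : CertF 536870912 536870912 536870912 536870912 33554432 16777216 true true true .nn 1 1 3
    ndF1q1 ndF2q1 pcF3 Cut.none Ext.none :=
  certFK0 (fam := true) (s1 := true) (s2 := true) (a := 1) (b := 1) (c := 3) (cn := .nn) (n1 := ndF1q1) (n2 := ndF2q1) (pc := pcF3) (cut := Cut.none) (xt := Ext.none) (P1 := 536870912) (W1 := 536870912) (P2 := 536870912) (W2 := 536870912) (P3 := 33554432) (W3 := 16777216)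
    rfl rfl rfl k0_pp_113

noncomputable def f_pp_123_a : ℕ → ℕ → ℕ → ℕ → Bool := onCell 536870912 536870912 0 536870912 33554432 16777216
    (rowFK 0 true true true .npn 1 2 3 (qsf 536870912 536870912 0 536870912 3) ndF1q1 ndF2q2a pcF3 Cut.none Ext.none)

def k0_pp_123_a : ∃ t, chk3 f_pp_123_a t 1 1 1 = true :=
  ⟨(l 4), by decide +kernel⟩

theorem c_pp_123_a : CertF 536870912 536870912 0 536870912 33554432 16777216 true true true .npn 1 2 3
    ndF1q1 ndF2q2a pcF3 Cut.none Ext.none :=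
  certFK0 (fam := true) (s1 := true) (s2 := true) (a := 1) (b := 2) (c := 3) (cn := .npn) (n1 := ndF1q1) (n2 := ndF2q2a) (pc := pcF3) (cut := Cut.none) (xt := Ext.none) (P1 := 536870912) (W1 := 536870912) (P2 := 0) (W2 := 536870912) (P3 := 33554432) (W3 := 16777216)
    rfl rfl rfl k0_pp_123_a

noncomputable def f_pp_123_b : ℕ → ℕ → ℕ → ℕ → Bool := onCell 536870912 536870912 1239849684 370763052 33554432 16777216
    (rowFK 0 true true true .npn 1 2 3 (qsf 536870912 536870912 1239849684 370763052 3) ndF1q1 ndF2q2b pcF3 Cut.none Ext.none)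

def k0_pp_123_b : ∃ t, chk3 f_pp_123_b t 1 1 1 = true :=
  ⟨(l 4), by decide +kernel⟩

theorem c_pp_123_b : CertF 536870912 536870912 1239849684 370763052 33554432 16777216 true true true .npn 1 2 3
    ndF1q1 ndF2q2b pcF3 Cut.none Ext.none :=
  certFK0 (fam := true) (s1 := true) (s2 := true) (a := 1) (b := 2) (c := 3) (cn := .npn) (n1 := ndF1q1) (n2 := ndF2q2b) (pc := pcF3) (cut := Cut.none) (xt := Ext.none) (P1 := 536870912) (W1 := 536870912) (P2 := 1239849684) (W2 := 370763052) (P3 := 33554432) (W3 := 16777216)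
    rfl rfl rfl k0_pp_123_b

noncomputable def f_pp_133 : ℕ → ℕ → ℕ → ℕ → Bool := onCell 536870912 536870912 1610612736 536870912 33554432 16777216
    (rowFK 0 true true true .dn 1 3 3 (qsf 536870912 536870912 1610612736 536870912 3) ndF1q1 ndF2q3 pcF3 Cut.none Ext.none)

def k0_pp_133 : ∃ t, chk3 f_pp_133 t 1 1 1 = true :=
  ⟨(l 4), by decide +kernel⟩

theorem c_pp_133 : CertF 536870912 536870912 1610612736 536870912 33554432 16777216 true true true .dn 1 3 3
    ndF1q1 ndF2q3 pcF3 Cut.none Ext.none :=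
  certFK0 (fam := true) (s1 := true) (s2 := true) (a := 1) (b := 3) (c := 3) (cn := .dn) (n1 := ndF1q1) (n2 := ndF2q3) (pc := pcF3) (cut := Cut.none) (xt := Ext.none) (P1 := 536870912) (W1 := 536870912) (P2 := 1610612736) (W2 := 536870912) (P3 := 33554432) (W3 := 16777216)
    rfl rfl rfl k0_pp_133

noncomputable def f_pp_202_a : ℕ → ℕ → ℕ → ℕ → Bool := onCell 0 536870912 0 536870912 33554432 16777216
    (rowFK 0 true true true .pp 2 0 2 (qsf 0 536870912 0 536870912 2) ndF1q2a ndF2q0 pcF2 Cut.none Ext.none)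

def k0_pp_202_a : ∃ t, chk3 f_pp_202_a t 1 1 1 = true :=
  ⟨(l 5), by decide +kernel⟩

theorem c_pp_202_a : CertF 0 536870912 0 536870912 33554432 16777216 true true true .pp 2 0 2
    ndF1q2a ndF2q0 pcF2 Cut.none Ext.none :=
  certFK0 (fam := true) (s1 := true) (s2 := true) (a := 2) (b := 0) (c := 2) (cn := .pp) (n1 := ndF1q2a) (n2 := ndF2q0) (pc := pcF2) (cut := Cut.none) (xt := Ext.none) (P1 := 0) (W1 := 536870912) (P2 := 0) (W2 := 536870912) (P3 := 33554432) (W3 := 16777216)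
    rfl rfl rfl k0_pp_202_a

noncomputable def f_pp_202_b : ℕ → ℕ → ℕ → ℕ → Bool := onCell 1239849684 370763052 0 536870912 33554432 16777216
    (rowFK 0 true true true .pp 2 0 2 (qsf 1239849684 370763052 0 536870912 2) ndF1q2b ndF2q0 pcF2 Cut.none Ext.none)

def k0_pp_202_b : ∃ t, chk3 f_pp_202_b t 1 1 1 = true :=
  ⟨(l 5), by decide +kernel⟩

theorem c_pp_202_b : CertF 1239849684 370763052 0 536870912 33554432 16777216 true true true .pp 2 0 2
    ndF1q2b ndF2q0 pcF2 Cut.none Ext.none :=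
  certFK0 (fam := true) (s1 := true) (s2 := true) (a := 2) (b := 0) (c := 2) (cn := .pp) (n1 := ndF1q2b) (n2 := ndF2q0) (pc := pcF2) (cut := Cut.none) (xt := Ext.none) (P1 := 1239849684) (W1 := 370763052) (P2 := 0) (W2 := 536870912) (P3 := 33554432) (W3 := 16777216)
    rfl rfl rfl k0_pp_202_b

noncomputable def f_pp_203_a : ℕ → ℕ → ℕ → ℕ → Bool := onCell 0 536870912 0 536870912 33554432 16777216
    (rowFK 0 true true true .up 2 0 3 (qsf 0 536870912 0 536870912 3) ndF1q2a ndF2q0 pcF3 Cut.none Ext.none)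

def k0_pp_203_a : ∃ t, chk3 f_pp_203_a t 1 1 1 = true :=
  ⟨(l 5), by decide +kernel⟩

theorem c_pp_203_a : CertF 0 536870912 0 536870912 33554432 16777216 true true true .up 2 0 3
    ndF1q2a ndF2q0 pcF3 Cut.none Ext.none :=
  certFK0 (fam := true) (s1 := true) (s2 := true) (a := 2) (b := 0) (c := 3) (cn := .up) (n1 := ndF1q2a) (n2 := ndF2q0) (pc := pcF3) (cut := Cut.none) (xt := Ext.none) (P1 := 0) (W1 := 536870912) (P2 := 0) (W2 := 536870912) (P3 := 33554432) (W3 := 16777216)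
    rfl rfl rfl k0_pp_203_a

noncomputable def f_pp_203_b : ℕ → ℕ → ℕ → ℕ → Bool := onCell 1239849684 370763052 0 536870912 33554432 16777216
    (rowFK 0 true true true .up 2 0 3 (qsf 1239849684 370763052 0 536870912 3) ndF1q2b ndF2q0 pcF3 Cut.none Ext.none)

def k0_pp_203_b : ∃ t, chk3 f_pp_203_b t 1 1 1 = true :=
  ⟨(l 5), by decide +kernel⟩

theorem c_pp_203_b : CertF 1239849684 370763052 0 536870912 33554432 16777216 true true true .up 2 0 3
    ndF1q2b ndF2q0 pcF3 Cut.none Ext.none :=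
  certFK0 (fam := true) (s1 := true) (s2 := true) (a := 2) (b := 0) (c := 3) (cn := .up) (n1 := ndF1q2b) (n2 := ndF2q0) (pc := pcF3) (cut := Cut.none) (xt := Ext.none) (P1 := 1239849684) (W1 := 370763052) (P2 := 0) (W2 := 536870912) (P3 := 33554432) (W3 := 16777216)
    rfl rfl rfl k0_pp_203_b

noncomputable def f_pp_213_a : ℕ → ℕ → ℕ → ℕ → Bool := onCell 0 536870912 536870912 536870912 33554432 16777216
    (rowFK 0 true true true .pnn 2 1 3 (qsf 0 536870912 536870912 536870912 3) ndF1q2a ndF2q1 pcF3 Cut.none Ext.none)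

def k0_pp_213_a : ∃ t, chk3 f_pp_213_a t 1 1 1 = true :=
  ⟨(l 4), by decide +kernel⟩

theorem c_pp_213_a : CertF 0 536870912 536870912 536870912 33554432 16777216 true true true .pnn 2 1 3
    ndF1q2a ndF2q1 pcF3 Cut.none Ext.none :=
  certFK0 (fam := true) (s1 := true) (s2 := true) (a := 2) (b := 1) (c := 3) (cn := .pnn) (n1 := ndF1q2a) (n2 := ndF2q1) (pc := pcF3) (cut := Cut.none) (xt := Ext.none) (P1 := 0) (W1 := 536870912) (P2 := 536870912) (W2 := 536870912) (P3 := 33554432) (W3 := 16777216)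
    rfl rfl rfl k0_pp_213_a

noncomputable def f_pp_213_b : ℕ → ℕ → ℕ → ℕ → Bool := onCell 1239849684 370763052 536870912 536870912 33554432 16777216
    (rowFK 0 true true true .pnn 2 1 3 (qsf 1239849684 370763052 536870912 536870912 3) ndF1q2b ndF2q1 pcF3 Cut.none Ext.none)

def k0_pp_213_b : ∃ t, chk3 f_pp_213_b t 1 1 1 = true :=
  ⟨(l 4), by decide +kernel⟩

theorem c_pp_213_b : CertF 1239849684 370763052 536870912 536870912 33554432 16777216 true true true .pnn 2 1 3
    ndF1q2b ndF2q1 pcF3 Cut.none Ext.none :=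
  certFK0 (fam := true) (s1 := true) (s2 := true) (a := 2) (b := 1) (c := 3) (cn := .pnn) (n1 := ndF1q2b) (n2 := ndF2q1) (pc := pcF3) (cut := Cut.none) (xt := Ext.none) (P1 := 1239849684) (W1 := 370763052) (P2 := 536870912) (W2 := 536870912) (P3 := 33554432) (W3 := 16777216)
    rfl rfl rfl k0_pp_213_b

noncomputable def f_pp_303 : ℕ → ℕ → ℕ → ℕ → Bool := onCell 1610612736 536870912 0 536870912 33554432 16777216
    (rowFK 0 true true true .npn 3 0 3 (qsf 1610612736 536870912 0 536870912 3) ndF1q3 ndF2q0 pcF3 Cut.none Ext.none)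

def k0_pp_303 : ∃ t, chk3 f_pp_303 t 1 1 1 = true :=
  ⟨(l 5), by decide +kernel⟩

theorem c_pp_303 : CertF 1610612736 536870912 0 536870912 33554432 16777216 true true true .npn 3 0 3
    ndF1q3 ndF2q0 pcF3 Cut.none Ext.none :=
  certFK0 (fam := true) (s1 := true) (s2 := true) (a := 3) (b := 0) (c := 3) (cn := .npn) (n1 := ndF1q3) (n2 := ndF2q0) (pc := pcF3) (cut := Cut.none) (xt := Ext.none) (P1 := 1610612736) (W1 := 536870912) (P2 := 0) (W2 := 536870912) (P3 := 33554432) (W3 := 16777216)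
    rfl rfl rfl k0_pp_303

noncomputable def f_pp_313 : ℕ → ℕ → ℕ → ℕ → Bool := onCell 1610612736 536870912 536870912 536870912 33554432 16777216
    (rowFK 0 true true true .dn 3 1 3 (qsf 1610612736 536870912 536870912 536870912 3) ndF1q3 ndF2q1 pcF3 Cut.none Ext.none)

def k0_pp_313 : ∃ t, chk3 f_pp_313 t 1 1 1 = true :=
  ⟨(l 4), by decide +kernel⟩

theorem c_pp_313 : CertF 1610612736 536870912 536870912 536870912 33554432 16777216 true true true .dn 3 1 3
    ndF1q3 ndF2q1 pcF3 Cut.none Ext.none :=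
  certFK0 (fam := true) (s1 := true) (s2 := true) (a := 3) (b := 1) (c := 3) (cn := .dn) (n1 := ndF1q3) (n2 := ndF2q1) (pc := pcF3) (cut := Cut.none) (xt := Ext.none) (P1 := 1610612736) (W1 := 536870912) (P2 := 536870912) (W2 := 536870912) (P3 := 33554432) (W3 := 16777216)
    rfl rfl rfl k0_pp_313

noncomputable def f_pm_001 : ℕ → ℕ → ℕ → ℕ → Bool := onCell 0 536870912 0 536870912 33554432 16777216
    (rowFK 0 true true false .up 0 0 1 (qsf 0 536870912 0 536870912 1) ndF1q0 ndF2q0 pcF1 Cut.none Ext.none)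

def k0_pm_001 : ∃ t, chk3 f_pm_001 t 1 1 1 = true :=
  ⟨(a (l 3) (l 3)), by decide +kernel⟩

theorem c_pm_001 : CertF 0 536870912 0 536870912 33554432 16777216 true true false .up 0 0 1
    ndF1q0 ndF2q0 pcF1 Cut.none Ext.none :=
  certFK0 (fam := true) (s1 := true) (s2 := false) (a := 0) (b := 0) (c := 1) (cn := .up) (n1 := ndF1q0) (n2 := ndF2q0) (pc := pcF1) (cut := Cut.none) (xt := Ext.none) (P1 := 0) (W1 := 536870912) (P2 := 0) (W2 := 536870912) (P3 := 33554432) (W3 := 16777216)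
    rfl rfl rfl k0_pm_001

noncomputable def cut_pm_011 : Cut := Cut.of [[⟨0, 0, 0, 33554432⟩, ⟨1, 1, 0, 33554432⟩, ⟨2, 1, 0, 33554432⟩]]

noncomputable def f_pm_011 : ℕ → ℕ → ℕ → ℕ → Bool := onCell 0 536870912 536870912 536870912 33554432 16777216
    (rowFK 1 true true false .pnn 0 1 1 (qsf 0 536870912 536870912 536870912 1) ndF1q0 ndF2q1 pcF1 cut_pm_011 Ext.none)

def k0_pm_011 : ∃ t, chk3 f_pm_011 t 1 1 1 = true :=
  ⟨(b (l 3) (a (b (l 3) (a (b (l 3) (a (b (l 3) (a (b (l 3) (a (a (l 6) (l 3)) (l 3))) (l 3))) (l 3))) (l 3))) (l 3))), by decide +kernel⟩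

theorem c_pm_011 : CertF 0 536870912 536870912 536870912 33554432 16777216 true true false .pnn 0 1 1
    ndF1q0 ndF2q1 pcF1 cut_pm_011 Ext.none :=
  certFK1 (fam := true) (s1 := true) (s2 := false) (a := 0) (b := 1) (c := 1) (cn := .pnn) (n1 := ndF1q0) (n2 := ndF2q1) (pc := pcF1) (cut := cut_pm_011) (xt := Ext.none) (P1 := 0) (W1 := 536870912) (P2 := 536870912) (W2 := 536870912) (P3 := 33554432) (W3 := 16777216)
    rfl rfl rfl (fun _ => rfl) k0_pm_011

noncomputable def cut_pm_012 : Cut := Cut.of [[⟨0, 0, 0, 33554432⟩, ⟨1, 1, 0, 33554432⟩, ⟨2, 1, 0, 33554432⟩]]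

noncomputable def f_pm_012 : ℕ → ℕ → ℕ → ℕ → Bool := onCell 1073741824 536870912 536870912 536870912 33554432 16777216
    (rowFK 2 true true false .pnp 0 1 2 (qsf 0 536870912 536870912 536870912 2) ndF1q0 ndF2q1 pcF2 cut_pm_012 Ext.none)

def k0_pm_012 : ∃ t, chk3 f_pm_012 t 1 1 1 = true :=
  ⟨(a (b (a (a (l 3) (a (l 18114280) (l 18216496))) (a (a (a (l 18339632) (a (l 18412224) (l 18527144))) (l 18505336)) (l 18628848))) (a (b (a (a (l 3) (l 18492040)) (a (l 18772568) (l 18987016))) (a (b (a (l 3) (l 18830912)) (b (a (a (l 3) (l 18135376)) (l 18910568)) (a (b (a (a (l 3) (l 16763440)) (a (l 17052008) (l 17647720))) (b (a (a (l 6) (l 16772176)) (l 16747688)) (a (l 6) (a (l 16730096) (l 16694616))))) (b (a (l 18356040) (l 19040000)) (b (a (l 17851472) (l 18851856)) (a (l 17181024) (l 18595712))))))) (b (a (l 19286120) (l 19597664)) (b (a (l 19586048) (l 20003920)) (b (a (l 19714208) (l 20249048)) (b (a (l 19732224) (l 20368024)) (l 20127600))))))) (b (a (a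 (a (l 19153496) (l 19234144)) (l 19333768)) (l 19486312)) (b (a (l 19914592) (l 20149112)) (b (l 20521216) (b (l 20826848) (b (l 20990728) (l 21095864)))))))) (b (l 18845240) (b (l 19680576) (b (l 20286568) (b (l 20691064) (b (l 20951128) (b (l 21086936) (l 21175288)))))))), by decide +kernel⟩

theorem c_pm_012 : CertF 0 536870912 536870912 536870912 33554432 16777216 true true false .pnp 0 1 2
    ndF1q0 ndF2q1 pcF2 cut_pm_012 Ext.none :=
  certFK2 (fam := true) (s1 := true) (s2 := false) (a := 0) (b := 1) (c := 2) (cn := .pnp) (n1 := ndF1q0) (n2 := ndF2q1) (pc := pcF2) (cut := cut_pm_012) (xt := Ext.none) (P1 := 0) (W1 := 536870912) (P2 := 536870912) (W2 := 536870912) (P3 := 33554432) (W3 := 16777216)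
    rfl rfl rfl (fun _ => rfl) k0_pm_012

noncomputable def cut_pm_022_a : Cut := Cut.of [[⟨0, 0, 0, 33554432⟩, ⟨1, 1, 0, 33554432⟩, ⟨2, 1, 0, 33554432⟩]]

noncomputable def f_pm_022_a : ℕ → ℕ → ℕ → ℕ → Bool := onCell 0 536870912 0 536870912 33554432 16777216
    (rowFK 0 true true false .pp 0 2 2 (qsf 0 536870912 0 536870912 2) ndF1q0 ndF2q2a pcF2 cut_pm_022_a Ext.none)

def k0_pm_022_a : ∃ t, chk3 f_pm_022_a t 1 1 1 = true :=
  ⟨(a (b (a (l 19313296) (l 19021256)) (b (a (a (a (b (l 19218968) (a (l 18897776) (l 18966304))) (l 19100576)) (l 19040352)) (l 18880424)) (a (b (a (a (a (b (a (c (l 18574664) (a (b (l 18199248) (l 17707072)) (l 18161208))) (l 18484728)) (a (a (b (c (l 17901968) (a (b (c (l 17694272) (l 17296048)) (c (l 17298888) (a (a (b (l 17069320) (l 16745864)) (l 17110960)) (l 17160088)))) (l 17526200))) (a (c (b (c (l 17839144) (l 17281496)) (a (c (l 17315272) (a (b (l 16999408) (b (l 16811576) (l 16727536))) (l 17070248))) (l 17276512))) (a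 (a (a (b (b (c (l 17059288) (l 16720576)) (l 16721480)) (b (l 16723536) (l 16725808))) (l 16726216)) (l 16760080)) (l 16825288))) (c (l 17527120) (l 16946400)))) (b (l 17930080) (l 17302016))) (b (l 18109512) (l 17745736)))) (b (l 18618648) (l 18221560))) (l 18624696)) (l 18724680)) (b (a (a (a (a (a (b (a (a (a (b (b (b (l 16727000) (l 16728056)) (a (b (l 16728496) (l 16730104)) (l 16728944))) (a (b (b (c (l 16730632) (l 16730248)) (b (l 16731208) (l 16731728))) (b (b (l 16732264) (l 16732808)) (l 6))) (l 16731968))) (l 16740376)) (l 16729816)) (l 16729688)) (a (a (l 6) (l 16744120)) (l 16738576))) (l 16749248)) (l 16747112)) (a (l 17373504) (l 17682776))) (l 18097568)) (l 18427584)) (a (b (a (a (a (l 6) (l 16758896)) (l 16746648)) (l 17664720)) (a (a (l 6) (a (b (l 16757488) (l 6)) (l 16759192))) (a (l 16980296) (l 17492376)))) (b (l 18206752) (l 18026224))))) (b (l 18689408) (b (l 18532392) (b (l 18421928) (l 18336176))))))) (b (a (l 18766840) (l 18544024))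 (b (l 18578784) (b (l 18490072) (b (l 18426448) (b (l 18381112) (l 18345880))))))), by decide +kernel⟩

theorem c_pm_022_a : CertF 0 536870912 0 536870912 33554432 16777216 true true false .pp 0 2 2
    ndF1q0 ndF2q2a pcF2 cut_pm_022_a Ext.none :=
  certFK0 (fam := true) (s1 := true) (s2 := false) (a := 0) (b := 2) (c := 2) (cn := .pp) (n1 := ndF1q0) (n2 := ndF2q2a) (pc := pcF2) (cut := cut_pm_022_a) (xt := Ext.none) (P1 := 0) (W1 := 536870912) (P2 := 0) (W2 := 536870912) (P3 := 33554432) (W3 := 16777216)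
    rfl rfl rfl k0_pm_022_a

noncomputable def cut_pm_022_b : Cut := Cut.of [[⟨0, 0, 0, 33554432⟩, ⟨1, 1, 0, 33554432⟩, ⟨2, 1, 0, 33554432⟩]]

noncomputable def f_pm_022_b : ℕ → ℕ → ℕ → ℕ → Bool := onCell 0 536870912 1239849684 370763052 33554432 16777216
    (rowFK 0 true true false .pp 0 2 2 (qsf 0 536870912 1239849684 370763052 2) ndF1q0 ndF2q2b pcF2 cut_pm_022_b Ext.none)

def k0_pm_022_b : ∃ t, chk3 f_pm_022_b t 1 1 1 = true :=
  ⟨(a (a (a (l 19836720) (l 19421904)) (b (l 19154368) (b (l 19137088) (l 2)))) (b (a (b (l 18829728) (l 18854784)) (l 2)) (l 2))), by decide +kernel⟩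

theorem c_pm_022_b : CertF 0 536870912 1239849684 370763052 33554432 16777216 true true false .pp 0 2 2
    ndF1q0 ndF2q2b pcF2 cut_pm_022_b Ext.none :=
  certFK0 (fam := true) (s1 := true) (s2 := false) (a := 0) (b := 2) (c := 2) (cn := .pp) (n1 := ndF1q0) (n2 := ndF2q2b) (pc := pcF2) (cut := cut_pm_022_b) (xt := Ext.none) (P1 := 0) (W1 := 536870912) (P2 := 1239849684) (W2 := 370763052) (P3 := 33554432) (W3 := 16777216)
    rfl rfl rfl k0_pm_022_b

noncomputable def f_pm_023_a : ℕ → ℕ → ℕ → ℕ → Bool := onCell 0 536870912 0 536870912 33554432 16777216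
    (rowFK 0 true true false .up 0 2 3 (qsf 0 536870912 0 536870912 3) ndF1q0 ndF2q2a pcF3 Cut.none Ext.none)

def k0_pm_023_a : ∃ t, chk3 f_pm_023_a t 1 1 1 = true :=
  ⟨(a (l 1) (b (a (l 18962440) (l 18879344)) (b (l 18894168) (b (l 18863536) (b (l 18845808) (b (l 18829904) (l 18815488))))))), by decide +kernel⟩

theorem c_pm_023_a : CertF 0 536870912 0 536870912 33554432 16777216 true true false .up 0 2 3
    ndF1q0 ndF2q2a pcF3 Cut.none Ext.none :=
  certFK0 (fam := true) (s1 := true) (s2 := false) (a := 0) (b := 2) (c := 3) (cn := .up) (n1 := ndF1q0) (n2 := ndF2q2a) (pc := pcF3) (cut := Cut.none) (xt := Ext.none) (P1 := 0) (W1 := 536870912) (P2 := 0) (W2 := 536870912) (P3 := 33554432) (W3 := 16777216)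
    rfl rfl rfl k0_pm_023_a

noncomputable def f_pm_023_b : ℕ → ℕ → ℕ → ℕ → Bool := onCell 1610612736 536870912 1239849684 370763052 33554432 16777216
    (rowFK 2 true true false .up 0 2 3 (qsf 0 536870912 1239849684 370763052 3) ndF1q0 ndF2q2b pcF3 Cut.none Ext.none)

def k0_pm_023_b : ∃ t, chk3 f_pm_023_b t 1 1 1 = true :=
  ⟨(a (a (b (l 18922088) (l 18937304)) (l 18740400)) (a (a (l 18579008) (l 18468856)) (a (l 18333432) (l 4)))), by decide +kernel⟩

theorem c_pm_023_b : CertF 0 536870912 1239849684 370763052 33554432 16777216 true true false .up 0 2 3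
    ndF1q0 ndF2q2b pcF3 Cut.none Ext.none :=
  certFK2 (fam := true) (s1 := true) (s2 := false) (a := 0) (b := 2) (c := 3) (cn := .up) (n1 := ndF1q0) (n2 := ndF2q2b) (pc := pcF3) (cut := Cut.none) (xt := Ext.none) (P1 := 0) (W1 := 536870912) (P2 := 1239849684) (W2 := 370763052) (P3 := 33554432) (W3 := 16777216)
    rfl rfl rfl (fun _ => rfl) k0_pm_023_b

noncomputable def f_pm_033 : ℕ → ℕ → ℕ → ℕ → Bool := onCell 0 536870912 1610612736 536870912 33554432 16777216
    (rowFK 1 true true false .pnn 0 3 3 (qsf 0 536870912 1610612736 536870912 3) ndF1q0 ndF2q3 pcF3 Cut.none Ext.none)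

def k0_pm_033 : ∃ t, chk3 f_pm_033 t 1 1 1 = true :=
  ⟨(b (b (a (a (l 19197824) (l 18978232)) (l 1)) (a (l 19190256) (l 18650192))) (b (b (a (l 19150504) (l 18728968)) (l 19159160)) (b (l 19101424) (l 4)))), by decide +kernel⟩

theorem c_pm_033 : CertF 0 536870912 1610612736 536870912 33554432 16777216 true true false .pnn 0 3 3
    ndF1q0 ndF2q3 pcF3 Cut.none Ext.none :=
  certFK1 (fam := true) (s1 := true) (s2 := false) (a := 0) (b := 3) (c := 3) (cn := .pnn) (n1 := ndF1q0) (n2 := ndF2q3) (pc := pcF3) (cut := Cut.none) (xt := Ext.none) (P1 := 0) (W1 := 536870912) (P2 := 1610612736) (W2 := 536870912) (P3 := 33554432) (W3 := 16777216)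
    rfl rfl rfl (fun _ => rfl) k0_pm_033

noncomputable def f_pm_101 : ℕ → ℕ → ℕ → ℕ → Bool := onCell 536870912 536870912 0 536870912 33554432 16777216
    (rowFK 2 true true false .npn 1 0 1 (qsf 536870912 536870912 0 536870912 1) ndF1q1 ndF2q0 pcF1 Cut.none Ext.none)

def k0_pm_101 : ∃ t, chk3 f_pm_101 t 1 1 1 = true :=
  ⟨(a (l 3) (l 3)), by decide +kernel⟩

theorem c_pm_101 : CertF 536870912 536870912 0 536870912 33554432 16777216 true true false .npn 1 0 1
    ndF1q1 ndF2q0 pcF1 Cut.none Ext.none :=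
  certFK2 (fam := true) (s1 := true) (s2 := false) (a := 1) (b := 0) (c := 1) (cn := .npn) (n1 := ndF1q1) (n2 := ndF2q0) (pc := pcF1) (cut := Cut.none) (xt := Ext.none) (P1 := 536870912) (W1 := 536870912) (P2 := 0) (W2 := 536870912) (P3 := 33554432) (W3 := 16777216)
    rfl rfl rfl (fun _ => rfl) k0_pm_101

noncomputable def f_pm_102 : ℕ → ℕ → ℕ → ℕ → Bool := onCell 536870912 536870912 1073741824 536870912 33554432 16777216
    (rowFK 1 true true false .npp 1 0 2 (qsf 536870912 536870912 0 536870912 2) ndF1q1 ndF2q0 pcF2 Cut.none Ext.none)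

def k0_pm_102 : ∃ t, chk3 f_pm_102 t 1 1 1 = true :=
  ⟨(b (b (b (a (l 3) (l 3)) (a (l 201495573271) (a (l 1384222345751) (l 3)))) (b (b (b (a (l 17042240) (a (l 17501808) (l 18323576))) (a (b (l 17012208) (l 17143600)) (b (a (l 17479120) (l 18362152)) (a (l 17489736) (l 18369208))))) (a (l 16964096) (a (l 17576992) (l 18445384)))) (a (l 17071320) (a (l 17747184) (l 18580136))))) (a (l 17411088) (a (l 18048560) (l 18704072)))), by decide +kernel⟩

theorem c_pm_102 : CertF 536870912 536870912 0 536870912 33554432 16777216 true true false .npp 1 0 2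
    ndF1q1 ndF2q0 pcF2 Cut.none Ext.none :=
  certFK1 (fam := true) (s1 := true) (s2 := false) (a := 1) (b := 0) (c := 2) (cn := .npp) (n1 := ndF1q1) (n2 := ndF2q0) (pc := pcF2) (cut := Cut.none) (xt := Ext.none) (P1 := 536870912) (W1 := 536870912) (P2 := 0) (W2 := 536870912) (P3 := 33554432) (W3 := 16777216)
    rfl rfl rfl (fun _ => rfl) k0_pm_102

noncomputable def f_pm_112 : ℕ → ℕ → ℕ → ℕ → Bool := onCell 1073741824 536870912 536870912 536870912 33554432 16777216
    (rowFK 2 true true false .dn 1 1 2 (qsf 536870912 536870912 536870912 536870912 2) ndF1q1 ndF2q1 pcF2 Cut.none Ext.none)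

def k0_pm_112 : ∃ t, chk3 f_pm_112 t 1 1 1 = true :=
  ⟨(a (b (a (a (l 3) (l 19336040)) (a (a (a (l 19288168) (l 19294664)) (l 19254472)) (l 19172872))) (a (l 1) (b (a (l 1) (l 19459400)) (l 1)))) (b (l 18892832) (b (l 19149352) (b (l 19275992) (b (l 19366496) (b (l 19445064) (b (l 19482832) (l 19506584)))))))), by decide +kernel⟩

theorem c_pm_112 : CertF 536870912 536870912 536870912 536870912 33554432 16777216 true true false .dn 1 1 2
    ndF1q1 ndF2q1 pcF2 Cut.none Ext.none :=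
  certFK2 (fam := true) (s1 := true) (s2 := false) (a := 1) (b := 1) (c := 2) (cn := .dn) (n1 := ndF1q1) (n2 := ndF2q1) (pc := pcF2) (cut := Cut.none) (xt := Ext.none) (P1 := 536870912) (W1 := 536870912) (P2 := 536870912) (W2 := 536870912) (P3 := 33554432) (W3 := 16777216)
    rfl rfl rfl (fun _ => rfl) k0_pm_112

noncomputable def f_pm_113 : ℕ → ℕ → ℕ → ℕ → Bool := onCell 1610612736 536870912 536870912 536870912 33554432 16777216
    (rowFK 2 true true false .nn 1 1 3 (qsf 536870912 536870912 536870912 536870912 3) ndF1q1 ndF2q1 pcF3 Cut.none Ext.none)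

def k0_pm_113 : ∃ t, chk3 f_pm_113 t 1 1 1 = true :=
  ⟨(a (b (a (a (l 18713560) (b (l 18406896) (l 18767552))) (b (l 17973416) (l 18131416))) (a (b (l 18940880) (b (l 19066144) (b (l 19144664) (b (l 19214808) (b (l 19247784) (l 19267904)))))) (b (l 18545688) (b (l 18757216) (b (l 18876736) (b (l 18967504) (b (l 19010856) (l 19037624)))))))) (b (a (a (l 17832968) (l 2)) (l 2)) (a (b (l 18070904) (b (l 18151432) (b (l 18230168) (b (l 18303840) (b (l 18339360) (l 18361688)))))) (b (a (l 17884912) (l 2)) (a (b (l 17913320) (b (l 17972312) (b (l 18036560) (b (l 18067384) (l 18086424))))) (b (l 4) (l 4))))))), by decide +kernel⟩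

theorem c_pm_113 : CertF 536870912 536870912 536870912 536870912 33554432 16777216 true true false .nn 1 1 3
    ndF1q1 ndF2q1 pcF3 Cut.none Ext.none :=
  certFK2 (fam := true) (s1 := true) (s2 := false) (a := 1) (b := 1) (c := 3) (cn := .nn) (n1 := ndF1q1) (n2 := ndF2q1) (pc := pcF3) (cut := Cut.none) (xt := Ext.none) (P1 := 536870912) (W1 := 536870912) (P2 := 536870912) (W2 := 536870912) (P3 := 33554432) (W3 := 16777216)
    rfl rfl rfl (fun _ => rfl) k0_pm_113

noncomputable def f_pm_123_a : ℕ → ℕ → ℕ → ℕ → Bool := onCell 1610612736 536870912 0 536870912 33554432 16777216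
    (rowFK 2 true true false .npn 1 2 3 (qsf 536870912 536870912 0 536870912 3) ndF1q1 ndF2q2a pcF3 Cut.none Ext.none)

def k0_pm_123_a : ∃ t, chk3 f_pm_123_a t 1 1 1 = true :=
  ⟨(a (b (a (l 17330528) (l 17150080)) (b (a (l 17371720) (l 17175304)) (b (a (l 17407688) (l 17193736)) (b (a (l 17429280) (l 17200600)) (b (a (l 17441048) (l 17204656)) (a (l 17449648) (l 17208720))))))) (b (a (l 17354576) (l 4)) (a (b (l 17458728) (b (l 17301264) (b (l 17230944) (b (l 17227320) (l 17225200))))) (a (b (l 17166448) (b (l 17167408) (b (l 17157336) (b (l 17153016) (l 17150960))))) (l 4))))), by decide +kernel⟩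

theorem c_pm_123_a : CertF 536870912 536870912 0 536870912 33554432 16777216 true true false .npn 1 2 3
    ndF1q1 ndF2q2a pcF3 Cut.none Ext.none :=
  certFK2 (fam := true) (s1 := true) (s2 := false) (a := 1) (b := 2) (c := 3) (cn := .npn) (n1 := ndF1q1) (n2 := ndF2q2a) (pc := pcF3) (cut := Cut.none) (xt := Ext.none) (P1 := 536870912) (W1 := 536870912) (P2 := 0) (W2 := 536870912) (P3 := 33554432) (W3 := 16777216)
    rfl rfl rfl (fun _ => rfl) k0_pm_123_a

noncomputable def f_pm_123_b : ℕ → ℕ → ℕ → ℕ → Bool := onCell 1610612736 536870912 1239849684 370763052 33554432 16777216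
    (rowFK 2 true true false .npn 1 2 3 (qsf 536870912 536870912 1239849684 370763052 3) ndF1q1 ndF2q2b pcF3 Cut.none Ext.none)

def k0_pm_123_b : ∃ t, chk3 f_pm_123_b t 1 1 1 = true :=
  ⟨(a (a (l 1) (a (l 16995624) (l 17054200))) (a (a (l 17102104) (l 17054584)) (a (l 17086800) (l 4)))), by decide +kernel⟩

theorem c_pm_123_b : CertF 536870912 536870912 1239849684 370763052 33554432 16777216 true true false .npn 1 2 3
    ndF1q1 ndF2q2b pcF3 Cut.none Ext.none :=
  certFK2 (fam := true) (s1 := true) (s2 := false) (a := 1) (b := 2) (c := 3) (cn := .npn) (n1 := ndF1q1) (n2 := ndF2q2b) (pc := pcF3) (cut := Cut.none) (xt := Ext.none) (P1 := 536870912) (W1 := 536870912) (P2 := 1239849684) (W2 := 370763052) (P3 := 33554432) (W3 := 16777216)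
    rfl rfl rfl (fun _ => rfl) k0_pm_123_b

noncomputable def f_pm_133 : ℕ → ℕ → ℕ → ℕ → Bool := onCell 536870912 536870912 1610612736 536870912 33554432 16777216
    (rowFK 0 true true false .dn 1 3 3 (qsf 536870912 536870912 1610612736 536870912 3) ndF1q1 ndF2q3 pcF3 Cut.none Ext.none)

def k0_pm_133 : ∃ t, chk3 f_pm_133 t 1 1 1 = true :=
  ⟨(l 4), by decide +kernel⟩

theorem c_pm_133 : CertF 536870912 536870912 1610612736 536870912 33554432 16777216 true true false .dn 1 3 3
    ndF1q1 ndF2q3 pcF3 Cut.none Ext.none :=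
  certFK0 (fam := true) (s1 := true) (s2 := false) (a := 1) (b := 3) (c := 3) (cn := .dn) (n1 := ndF1q1) (n2 := ndF2q3) (pc := pcF3) (cut := Cut.none) (xt := Ext.none) (P1 := 536870912) (W1 := 536870912) (P2 := 1610612736) (W2 := 536870912) (P3 := 33554432) (W3 := 16777216)
    rfl rfl rfl k0_pm_133

noncomputable def cut_pm_202_a : Cut := Cut.of [[⟨0, 1, 0, 33554432⟩, ⟨1, 0, 0, 33554432⟩, ⟨2, 1, 0, 33554432⟩]]

noncomputable def f_pm_202_a : ℕ → ℕ → ℕ → ℕ → Bool := onCell 0 536870912 0 536870912 33554432 16777216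
    (rowFK 0 true true false .pp 2 0 2 (qsf 0 536870912 0 536870912 2) ndF1q2a ndF2q0 pcF2 cut_pm_202_a Ext.none)

def k0_pm_202_a : ∃ t, chk3 f_pm_202_a t 1 1 1 = true :=
  ⟨(a (b (b (b (l 19478200) (l 19149336)) (l 18933552)) (b (l 18697344) (l 18530296))) (b (b (a (b (b (b (a (l 19209696) (l 18895880)) (l 19096216)) (l 19089208)) (l 19021208)) (a (b (b (b (b (a (b (a (l 18427304) (l 17983776)) (l 18384592)) (b (a (c (l 18026744) (a (l 17530408) (a (l 17306232) (l 17022896)))) (b (b (c (a (l 17530496) (c (l 17503040) (l 16943688))) (l 16725136)) (c (l 17543400) (l 16823752))) (l 17288520))) (l 17612144))) (a (l 18486888) (l 17940656))) (l 18440784)) (l 18629992)) (l 18731872)) (b (b (a (b (b (b (b (a (a (l 16727640) (l 16735080)) (b (l 6) (l 16740504))) (l 16745992)) (l 16736088)) (l 16885320)) (l 17546224)) (b (a (b (l 6) (l 16753344)) (l 6)) (a (l 16755280) (l 16768128)))) (a (l 18100456) (l 17491608))) (l 18318168)))) (a (l 18852024) (l 18634400))) (b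 (a (l 18693992) (l 18547064)) (a (l 18621048) (l 18529872))))), by decide +kernel⟩

theorem c_pm_202_a : CertF 0 536870912 0 536870912 33554432 16777216 true true false .pp 2 0 2
    ndF1q2a ndF2q0 pcF2 cut_pm_202_a Ext.none :=
  certFK0 (fam := true) (s1 := true) (s2 := false) (a := 2) (b := 0) (c := 2) (cn := .pp) (n1 := ndF1q2a) (n2 := ndF2q0) (pc := pcF2) (cut := cut_pm_202_a) (xt := Ext.none) (P1 := 0) (W1 := 536870912) (P2 := 0) (W2 := 536870912) (P3 := 33554432) (W3 := 16777216)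
    rfl rfl rfl k0_pm_202_a

noncomputable def cut_pm_202_b : Cut := Cut.of [[⟨0, 1, 0, 33554432⟩, ⟨1, 0, 0, 33554432⟩, ⟨2, 1, 0, 33554432⟩]]

noncomputable def f_pm_202_b : ℕ → ℕ → ℕ → ℕ → Bool := onCell 1073741824 536870912 0 536870912 33554432 16777216
    (rowFK 2 true true false .pp 2 0 2 (qsf 1239849684 370763052 0 536870912 2) ndF1q2b ndF2q0 pcF2 cut_pm_202_b Ext.none)

def k0_pm_202_b : ∃ t, chk3 f_pm_202_b t 1 1 1 = true :=
  ⟨(a (b (a (l 1) (b (b (l 266864036615) (a (l 1) (l 18989056))) (l 1))) (l 1)) (a (b (b (l 19441448) (l 18945368)) (l 1)) (b (b (l 19429360) (l 19035384)) (a (l 18207784) (l 18440488))))), by decide +kernel⟩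

theorem c_pm_202_b : CertF 1239849684 370763052 0 536870912 33554432 16777216 true true false .pp 2 0 2
    ndF1q2b ndF2q0 pcF2 cut_pm_202_b Ext.none :=
  certFK2 (fam := true) (s1 := true) (s2 := false) (a := 2) (b := 0) (c := 2) (cn := .pp) (n1 := ndF1q2b) (n2 := ndF2q0) (pc := pcF2) (cut := cut_pm_202_b) (xt := Ext.none) (P1 := 1239849684) (W1 := 370763052) (P2 := 0) (W2 := 536870912) (P3 := 33554432) (W3 := 16777216)
    rfl rfl rfl (fun _ => rfl) k0_pm_202_b

noncomputable def f_pm_203_a : ℕ → ℕ → ℕ → ℕ → Bool := onCell 0 536870912 1610612736 536870912 33554432 16777216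
    (rowFK 1 true true false .up 2 0 3 (qsf 0 536870912 0 536870912 3) ndF1q2a ndF2q0 pcF3 Cut.none Ext.none)

def k0_pm_203_a : ∃ t, chk3 f_pm_203_a t 1 1 1 = true :=
  ⟨(b (b (a (l 18658256) (l 18790272)) (l 18867656)) (l 2)), by decide +kernel⟩

theorem c_pm_203_a : CertF 0 536870912 0 536870912 33554432 16777216 true true false .up 2 0 3
    ndF1q2a ndF2q0 pcF3 Cut.none Ext.none :=
  certFK1 (fam := true) (s1 := true) (s2 := false) (a := 2) (b := 0) (c := 3) (cn := .up) (n1 := ndF1q2a) (n2 := ndF2q0) (pc := pcF3) (cut := Cut.none) (xt := Ext.none) (P1 := 0) (W1 := 536870912) (P2 := 0) (W2 := 536870912) (P3 := 33554432) (W3 := 16777216)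
    rfl rfl rfl (fun _ => rfl) k0_pm_203_a

noncomputable def f_pm_203_b : ℕ → ℕ → ℕ → ℕ → Bool := onCell 1239849684 370763052 1610612736 536870912 33554432 16777216
    (rowFK 1 true true false .up 2 0 3 (qsf 1239849684 370763052 0 536870912 3) ndF1q2b ndF2q0 pcF3 Cut.none Ext.none)

def k0_pm_203_b : ∃ t, chk3 f_pm_203_b t 1 1 1 = true :=
  ⟨(b (b (a (l 18811960) (l 18899840)) (l 18714464)) (l 4)), by decide +kernel⟩

theorem c_pm_203_b : CertF 1239849684 370763052 0 536870912 33554432 16777216 true true false .up 2 0 3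
    ndF1q2b ndF2q0 pcF3 Cut.none Ext.none :=
  certFK1 (fam := true) (s1 := true) (s2 := false) (a := 2) (b := 0) (c := 3) (cn := .up) (n1 := ndF1q2b) (n2 := ndF2q0) (pc := pcF3) (cut := Cut.none) (xt := Ext.none) (P1 := 1239849684) (W1 := 370763052) (P2 := 0) (W2 := 536870912) (P3 := 33554432) (W3 := 16777216)
    rfl rfl rfl (fun _ => rfl) k0_pm_203_b

noncomputable def f_pm_213_a : ℕ → ℕ → ℕ → ℕ → Bool := onCell 0 536870912 1610612736 536870912 33554432 16777216
    (rowFK 1 true true false .pnn 2 1 3 (qsf 0 536870912 536870912 536870912 3) ndF1q2a ndF2q1 pcF3 Cut.none Ext.none)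

def k0_pm_213_a : ∃ t, chk3 f_pm_213_a t 1 1 1 = true :=
  ⟨(b (b (l 18092504) (a (l 4) (l 18037056))) (l 4)), by decide +kernel⟩

theorem c_pm_213_a : CertF 0 536870912 536870912 536870912 33554432 16777216 true true false .pnn 2 1 3
    ndF1q2a ndF2q1 pcF3 Cut.none Ext.none :=
  certFK1 (fam := true) (s1 := true) (s2 := false) (a := 2) (b := 1) (c := 3) (cn := .pnn) (n1 := ndF1q2a) (n2 := ndF2q1) (pc := pcF3) (cut := Cut.none) (xt := Ext.none) (P1 := 0) (W1 := 536870912) (P2 := 536870912) (W2 := 536870912) (P3 := 33554432) (W3 := 16777216)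
    rfl rfl rfl (fun _ => rfl) k0_pm_213_a

noncomputable def f_pm_213_b : ℕ → ℕ → ℕ → ℕ → Bool := onCell 1239849684 370763052 536870912 536870912 33554432 16777216
    (rowFK 0 true true false .pnn 2 1 3 (qsf 1239849684 370763052 536870912 536870912 3) ndF1q2b ndF2q1 pcF3 Cut.none Ext.none)

def k0_pm_213_b : ∃ t, chk3 f_pm_213_b t 1 1 1 = true :=
  ⟨(l 4), by decide +kernel⟩

theorem c_pm_213_b : CertF 1239849684 370763052 536870912 536870912 33554432 16777216 true true false .pnn 2 1 3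
    ndF1q2b ndF2q1 pcF3 Cut.none Ext.none :=
  certFK0 (fam := true) (s1 := true) (s2 := false) (a := 2) (b := 1) (c := 3) (cn := .pnn) (n1 := ndF1q2b) (n2 := ndF2q1) (pc := pcF3) (cut := Cut.none) (xt := Ext.none) (P1 := 1239849684) (W1 := 370763052) (P2 := 536870912) (W2 := 536870912) (P3 := 33554432) (W3 := 16777216)
    rfl rfl rfl k0_pm_213_b

noncomputable def f_pm_303 : ℕ → ℕ → ℕ → ℕ → Bool := onCell 1610612736 536870912 0 536870912 33554432 16777216
    (rowFK 2 true true false .npn 3 0 3 (qsf 1610612736 536870912 0 536870912 3) ndF1q3 ndF2q0 pcF3 Cut.none Ext.none)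

def k0_pm_303 : ∃ t, chk3 f_pm_303 t 1 1 1 = true :=
  ⟨(a (a (b (b (l 17806776) (l 17974984)) (l 1)) (b (a (b (l 17799440) (l 17849648)) (l 17612896)) (l 4))) (a (b (l 4) (l 4)) (l 4))), by decide +kernel⟩

theorem c_pm_303 : CertF 1610612736 536870912 0 536870912 33554432 16777216 true true false .npn 3 0 3
    ndF1q3 ndF2q0 pcF3 Cut.none Ext.none :=
  certFK2 (fam := true) (s1 := true) (s2 := false) (a := 3) (b := 0) (c := 3) (cn := .npn) (n1 := ndF1q3) (n2 := ndF2q0) (pc := pcF3) (cut := Cut.none) (xt := Ext.none) (P1 := 1610612736) (W1 := 536870912) (P2 := 0) (W2 := 536870912) (P3 := 33554432) (W3 := 16777216)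
    rfl rfl rfl (fun _ => rfl) k0_pm_303

noncomputable def f_pm_313 : ℕ → ℕ → ℕ → ℕ → Bool := onCell 1610612736 536870912 536870912 536870912 33554432 16777216
    (rowFK 0 true true false .dn 3 1 3 (qsf 1610612736 536870912 536870912 536870912 3) ndF1q3 ndF2q1 pcF3 Cut.none Ext.none)

def k0_pm_313 : ∃ t, chk3 f_pm_313 t 1 1 1 = true :=
  ⟨(l 4), by decide +kernel⟩

theorem c_pm_313 : CertF 1610612736 536870912 536870912 536870912 33554432 16777216 true true false .dn 3 1 3
    ndF1q3 ndF2q1 pcF3 Cut.none Ext.none :=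
  certFK0 (fam := true) (s1 := true) (s2 := false) (a := 3) (b := 1) (c := 3) (cn := .dn) (n1 := ndF1q3) (n2 := ndF2q1) (pc := pcF3) (cut := Cut.none) (xt := Ext.none) (P1 := 1610612736) (W1 := 536870912) (P2 := 536870912) (W2 := 536870912) (P3 := 33554432) (W3 := 16777216)
    rfl rfl rfl k0_pm_313

noncomputable def f_mm_001 : ℕ → ℕ → ℕ → ℕ → Bool := onCell 0 536870912 0 536870912 33554432 16777216
    (rowFK 0 true false false .up 0 0 1 (qsf 0 536870912 0 536870912 1) ndF1q0 ndF2q0 pcF1 Cut.none Ext.none)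

def k0_mm_001 : ∃ t, chk3 f_mm_001 t 1 1 1 = true :=
  ⟨(l 4), by decide +kernel⟩

theorem c_mm_001 : CertF 0 536870912 0 536870912 33554432 16777216 true false false .up 0 0 1
    ndF1q0 ndF2q0 pcF1 Cut.none Ext.none :=
  certFK0 (fam := true) (s1 := false) (s2 := false) (a := 0) (b := 0) (c := 1) (cn := .up) (n1 := ndF1q0) (n2 := ndF2q0) (pc := pcF1) (cut := Cut.none) (xt := Ext.none) (P1 := 0) (W1 := 536870912) (P2 := 0) (W2 := 536870912) (P3 := 33554432) (W3 := 16777216)
    rfl rfl rfl k0_mm_001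

noncomputable def f_mm_011 : ℕ → ℕ → ℕ → ℕ → Bool := onCell 0 536870912 536870912 536870912 33554432 16777216
    (rowFK 0 true false false .pnn 0 1 1 (qsf 0 536870912 536870912 536870912 1) ndF1q0 ndF2q1 pcF1 Cut.none Ext.none)

def k0_mm_011 : ∃ t, chk3 f_mm_011 t 1 1 1 = true :=
  ⟨(l 4), by decide +kernel⟩

theorem c_mm_011 : CertF 0 536870912 536870912 536870912 33554432 16777216 true false false .pnn 0 1 1
    ndF1q0 ndF2q1 pcF1 Cut.none Ext.none :=
  certFK0 (fam := true) (s1 := false) (s2 := false) (a := 0) (b := 1) (c := 1) (cn := .pnn) (n1 := ndF1q0) (n2 := ndF2q1) (pc := pcF1) (cut := Cut.none) (xt := Ext.none) (P1 := 0) (W1 := 536870912) (P2 := 536870912) (W2 := 536870912) (P3 := 33554432) (W3 := 16777216)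
    rfl rfl rfl k0_mm_011

noncomputable def f_mm_012 : ℕ → ℕ → ℕ → ℕ → Bool := onCell 0 536870912 536870912 536870912 33554432 16777216
    (rowFK 0 true false false .pnp 0 1 2 (qsf 0 536870912 536870912 536870912 2) ndF1q0 ndF2q1 pcF2 Cut.none Ext.none)

def k0_mm_012 : ∃ t, chk3 f_mm_012 t 1 1 1 = true :=
  ⟨(l 4), by decide +kernel⟩

theorem c_mm_012 : CertF 0 536870912 536870912 536870912 33554432 16777216 true false false .pnp 0 1 2
    ndF1q0 ndF2q1 pcF2 Cut.none Ext.none :=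
  certFK0 (fam := true) (s1 := false) (s2 := false) (a := 0) (b := 1) (c := 2) (cn := .pnp) (n1 := ndF1q0) (n2 := ndF2q1) (pc := pcF2) (cut := Cut.none) (xt := Ext.none) (P1 := 0) (W1 := 536870912) (P2 := 536870912) (W2 := 536870912) (P3 := 33554432) (W3 := 16777216)
    rfl rfl rfl k0_mm_012

noncomputable def f_mm_022_a : ℕ → ℕ → ℕ → ℕ → Bool := onCell 0 536870912 0 536870912 33554432 16777216
    (rowFK 0 true false false .pp 0 2 2 (qsf 0 536870912 0 536870912 2) ndF1q0 ndF2q2a pcF2 Cut.none Ext.none)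

def k0_mm_022_a : ∃ t, chk3 f_mm_022_a t 1 1 1 = true :=
  ⟨(l 5), by decide +kernel⟩

theorem c_mm_022_a : CertF 0 536870912 0 536870912 33554432 16777216 true false false .pp 0 2 2
    ndF1q0 ndF2q2a pcF2 Cut.none Ext.none :=
  certFK0 (fam := true) (s1 := false) (s2 := false) (a := 0) (b := 2) (c := 2) (cn := .pp) (n1 := ndF1q0) (n2 := ndF2q2a) (pc := pcF2) (cut := Cut.none) (xt := Ext.none) (P1 := 0) (W1 := 536870912) (P2 := 0) (W2 := 536870912) (P3 := 33554432) (W3 := 16777216)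
    rfl rfl rfl k0_mm_022_a

noncomputable def f_mm_022_b : ℕ → ℕ → ℕ → ℕ → Bool := onCell 0 536870912 1239849684 370763052 33554432 16777216
    (rowFK 0 true false false .pp 0 2 2 (qsf 0 536870912 1239849684 370763052 2) ndF1q0 ndF2q2b pcF2 Cut.none Ext.none)

def k0_mm_022_b : ∃ t, chk3 f_mm_022_b t 1 1 1 = true :=
  ⟨(l 4), by decide +kernel⟩

theorem c_mm_022_b : CertF 0 536870912 1239849684 370763052 33554432 16777216 true false false .pp 0 2 2
    ndF1q0 ndF2q2b pcF2 Cut.none Ext.none :=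
  certFK0 (fam := true) (s1 := false) (s2 := false) (a := 0) (b := 2) (c := 2) (cn := .pp) (n1 := ndF1q0) (n2 := ndF2q2b) (pc := pcF2) (cut := Cut.none) (xt := Ext.none) (P1 := 0) (W1 := 536870912) (P2 := 1239849684) (W2 := 370763052) (P3 := 33554432) (W3 := 16777216)
    rfl rfl rfl k0_mm_022_b

noncomputable def f_mm_023_a : ℕ → ℕ → ℕ → ℕ → Bool := onCell 0 536870912 0 536870912 33554432 16777216
    (rowFK 0 true false false .up 0 2 3 (qsf 0 536870912 0 536870912 3) ndF1q0 ndF2q2a pcF3 Cut.none Ext.none)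

def k0_mm_023_a : ∃ t, chk3 f_mm_023_a t 1 1 1 = true :=
  ⟨(l 5), by decide +kernel⟩

theorem c_mm_023_a : CertF 0 536870912 0 536870912 33554432 16777216 true false false .up 0 2 3
    ndF1q0 ndF2q2a pcF3 Cut.none Ext.none :=
  certFK0 (fam := true) (s1 := false) (s2 := false) (a := 0) (b := 2) (c := 3) (cn := .up) (n1 := ndF1q0) (n2 := ndF2q2a) (pc := pcF3) (cut := Cut.none) (xt := Ext.none) (P1 := 0) (W1 := 536870912) (P2 := 0) (W2 := 536870912) (P3 := 33554432) (W3 := 16777216)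
    rfl rfl rfl k0_mm_023_a

noncomputable def f_mm_023_b : ℕ → ℕ → ℕ → ℕ → Bool := onCell 0 536870912 1239849684 370763052 33554432 16777216
    (rowFK 0 true false false .up 0 2 3 (qsf 0 536870912 1239849684 370763052 3) ndF1q0 ndF2q2b pcF3 Cut.none Ext.none)

def k0_mm_023_b : ∃ t, chk3 f_mm_023_b t 1 1 1 = true :=
  ⟨(l 4), by decide +kernel⟩

theorem c_mm_023_b : CertF 0 536870912 1239849684 370763052 33554432 16777216 true false false .up 0 2 3
    ndF1q0 ndF2q2b pcF3 Cut.none Ext.none :=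
  certFK0 (fam := true) (s1 := false) (s2 := false) (a := 0) (b := 2) (c := 3) (cn := .up) (n1 := ndF1q0) (n2 := ndF2q2b) (pc := pcF3) (cut := Cut.none) (xt := Ext.none) (P1 := 0) (W1 := 536870912) (P2 := 1239849684) (W2 := 370763052) (P3 := 33554432) (W3 := 16777216)
    rfl rfl rfl k0_mm_023_b

noncomputable def f_mm_033 : ℕ → ℕ → ℕ → ℕ → Bool := onCell 0 536870912 1610612736 536870912 33554432 16777216
    (rowFK 0 true false false .pnn 0 3 3 (qsf 0 536870912 1610612736 536870912 3) ndF1q0 ndF2q3 pcF3 Cut.none Ext.none)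

def k0_mm_033 : ∃ t, chk3 f_mm_033 t 1 1 1 = true :=
  ⟨(l 4), by decide +kernel⟩

theorem c_mm_033 : CertF 0 536870912 1610612736 536870912 33554432 16777216 true false false .pnn 0 3 3
    ndF1q0 ndF2q3 pcF3 Cut.none Ext.none :=
  certFK0 (fam := true) (s1 := false) (s2 := false) (a := 0) (b := 3) (c := 3) (cn := .pnn) (n1 := ndF1q0) (n2 := ndF2q3) (pc := pcF3) (cut := Cut.none) (xt := Ext.none) (P1 := 0) (W1 := 536870912) (P2 := 1610612736) (W2 := 536870912) (P3 := 33554432) (W3 := 16777216)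
    rfl rfl rfl k0_mm_033

noncomputable def f_mm_101 : ℕ → ℕ → ℕ → ℕ → Bool := onCell 536870912 536870912 0 536870912 33554432 16777216
    (rowFK 0 true false false .npn 1 0 1 (qsf 536870912 536870912 0 536870912 1) ndF1q1 ndF2q0 pcF1 Cut.none Ext.none)

def k0_mm_101 : ∃ t, chk3 f_mm_101 t 1 1 1 = true :=
  ⟨(l 4), by decide +kernel⟩

theorem c_mm_101 : CertF 536870912 536870912 0 536870912 33554432 16777216 true false false .npn 1 0 1
    ndF1q1 ndF2q0 pcF1 Cut.none Ext.none :=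
  certFK0 (fam := true) (s1 := false) (s2 := false) (a := 1) (b := 0) (c := 1) (cn := .npn) (n1 := ndF1q1) (n2 := ndF2q0) (pc := pcF1) (cut := Cut.none) (xt := Ext.none) (P1 := 536870912) (W1 := 536870912) (P2 := 0) (W2 := 536870912) (P3 := 33554432) (W3 := 16777216)
    rfl rfl rfl k0_mm_101

noncomputable def f_mm_102 : ℕ → ℕ → ℕ → ℕ → Bool := onCell 536870912 536870912 0 536870912 33554432 16777216
    (rowFK 0 true false false .npp 1 0 2 (qsf 536870912 536870912 0 536870912 2) ndF1q1 ndF2q0 pcF2 Cut.none Ext.none)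

def k0_mm_102 : ∃ t, chk3 f_mm_102 t 1 1 1 = true :=
  ⟨(l 4), by decide +kernel⟩

theorem c_mm_102 : CertF 536870912 536870912 0 536870912 33554432 16777216 true false false .npp 1 0 2
    ndF1q1 ndF2q0 pcF2 Cut.none Ext.none :=
  certFK0 (fam := true) (s1 := false) (s2 := false) (a := 1) (b := 0) (c := 2) (cn := .npp) (n1 := ndF1q1) (n2 := ndF2q0) (pc := pcF2) (cut := Cut.none) (xt := Ext.none) (P1 := 536870912) (W1 := 536870912) (P2 := 0) (W2 := 536870912) (P3 := 33554432) (W3 := 16777216)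
    rfl rfl rfl k0_mm_102

noncomputable def f_mm_112 : ℕ → ℕ → ℕ → ℕ → Bool := onCell 536870912 536870912 536870912 536870912 33554432 16777216
    (rowFK 0 true false false .dn 1 1 2 (qsf 536870912 536870912 536870912 536870912 2) ndF1q1 ndF2q1 pcF2 Cut.none Ext.none)

def k0_mm_112 : ∃ t, chk3 f_mm_112 t 1 1 1 = true :=
  ⟨(l 4), by decide +kernel⟩

theorem c_mm_112 : CertF 536870912 536870912 536870912 536870912 33554432 16777216 true false false .dn 1 1 2
    ndF1q1 ndF2q1 pcF2 Cut.none Ext.none :=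
  certFK0 (fam := true) (s1 := false) (s2 := false) (a := 1) (b := 1) (c := 2) (cn := .dn) (n1 := ndF1q1) (n2 := ndF2q1) (pc := pcF2) (cut := Cut.none) (xt := Ext.none) (P1 := 536870912) (W1 := 536870912) (P2 := 536870912) (W2 := 536870912) (P3 := 33554432) (W3 := 16777216)
    rfl rfl rfl k0_mm_112

noncomputable def f_mm_113 : ℕ → ℕ → ℕ → ℕ → Bool := onCell 536870912 536870912 536870912 536870912 33554432 16777216
    (rowFK 0 true false false .nn 1 1 3 (qsf 536870912 536870912 536870912 536870912 3) ndF1q1 ndF2q1 pcF3 Cut.none Ext.none)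

def k0_mm_113 : ∃ t, chk3 f_mm_113 t 1 1 1 = true :=
  ⟨(l 4), by decide +kernel⟩

theorem c_mm_113 : CertF 536870912 536870912 536870912 536870912 33554432 16777216 true false false .nn 1 1 3
    ndF1q1 ndF2q1 pcF3 Cut.none Ext.none :=
  certFK0 (fam := true) (s1 := false) (s2 := false) (a := 1) (b := 1) (c := 3) (cn := .nn) (n1 := ndF1q1) (n2 := ndF2q1) (pc := pcF3) (cut := Cut.none) (xt := Ext.none) (P1 := 536870912) (W1 := 536870912) (P2 := 536870912) (W2 := 536870912) (P3 := 33554432) (W3 := 16777216)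
    rfl rfl rfl k0_mm_113

noncomputable def f_mm_123_a : ℕ → ℕ → ℕ → ℕ → Bool := onCell 536870912 536870912 0 536870912 33554432 16777216
    (rowFK 0 true false false .npn 1 2 3 (qsf 536870912 536870912 0 536870912 3) ndF1q1 ndF2q2a pcF3 Cut.none Ext.none)

def k0_mm_123_a : ∃ t, chk3 f_mm_123_a t 1 1 1 = true :=
  ⟨(l 4), by decide +kernel⟩

theorem c_mm_123_a : CertF 536870912 536870912 0 536870912 33554432 16777216 true false false .npn 1 2 3
    ndF1q1 ndF2q2a pcF3 Cut.none Ext.none :=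
  certFK0 (fam := true) (s1 := false) (s2 := false) (a := 1) (b := 2) (c := 3) (cn := .npn) (n1 := ndF1q1) (n2 := ndF2q2a) (pc := pcF3) (cut := Cut.none) (xt := Ext.none) (P1 := 536870912) (W1 := 536870912) (P2 := 0) (W2 := 536870912) (P3 := 33554432) (W3 := 16777216)
    rfl rfl rfl k0_mm_123_a

noncomputable def f_mm_123_b : ℕ → ℕ → ℕ → ℕ → Bool := onCell 536870912 536870912 1239849684 370763052 33554432 16777216
    (rowFK 0 true false false .npn 1 2 3 (qsf 536870912 536870912 1239849684 370763052 3) ndF1q1 ndF2q2b pcF3 Cut.none Ext.none)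

def k0_mm_123_b : ∃ t, chk3 f_mm_123_b t 1 1 1 = true :=
  ⟨(l 4), by decide +kernel⟩

theorem c_mm_123_b : CertF 536870912 536870912 1239849684 370763052 33554432 16777216 true false false .npn 1 2 3
    ndF1q1 ndF2q2b pcF3 Cut.none Ext.none :=
  certFK0 (fam := true) (s1 := false) (s2 := false) (a := 1) (b := 2) (c := 3) (cn := .npn) (n1 := ndF1q1) (n2 := ndF2q2b) (pc := pcF3) (cut := Cut.none) (xt := Ext.none) (P1 := 536870912) (W1 := 536870912) (P2 := 1239849684) (W2 := 370763052) (P3 := 33554432) (W3 := 16777216)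
    rfl rfl rfl k0_mm_123_b

noncomputable def f_mm_133 : ℕ → ℕ → ℕ → ℕ → Bool := onCell 536870912 536870912 1610612736 536870912 33554432 16777216
    (rowFK 0 true false false .dn 1 3 3 (qsf 536870912 536870912 1610612736 536870912 3) ndF1q1 ndF2q3 pcF3 Cut.none Ext.none)

def k0_mm_133 : ∃ t, chk3 f_mm_133 t 1 1 1 = true :=
  ⟨(l 4), by decide +kernel⟩

theorem c_mm_133 : CertF 536870912 536870912 1610612736 536870912 33554432 16777216 true false false .dn 1 3 3
    ndF1q1 ndF2q3 pcF3 Cut.none Ext.none :=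
  certFK0 (fam := true) (s1 := false) (s2 := false) (a := 1) (b := 3) (c := 3) (cn := .dn) (n1 := ndF1q1) (n2 := ndF2q3) (pc := pcF3) (cut := Cut.none) (xt := Ext.none) (P1 := 536870912) (W1 := 536870912) (P2 := 1610612736) (W2 := 536870912) (P3 := 33554432) (W3 := 16777216)
    rfl rfl rfl k0_mm_133

noncomputable def cut_mm_202_a : Cut := Cut.of [[⟨0, 1, 0, 33554432⟩, ⟨1, 0, 0, 33554432⟩, ⟨2, 1, 0, 33554432⟩]]

noncomputable def f_mm_202_a : ℕ → ℕ → ℕ → ℕ → Bool := onCell 0 536870912 0 536870912 33554432 16777216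
    (rowFK 0 true false false .pp 2 0 2 (qsf 0 536870912 0 536870912 2) ndF1q2a ndF2q0 pcF2 cut_mm_202_a Ext.none)

def k0_mm_202_a : ∃ t, chk3 f_mm_202_a t 1 1 1 = true :=
  ⟨(b (b (b (a (b (a (l 19279208) (l 19157104)) (l 18996368)) (a (b (a (l 18940736) (b (a (l 18849624) (b (l 18656680) (l 18566128))) (l 18511416))) (l 91506571159)) (b (b (b (a (a (b (a (l 18385216) (b (l 18058920) (l 18118576))) (l 18257472)) (b (a (b (c (l 18008424) (a (l 17530520) (l 17042632))) (l 17760160)) (b (b (a (c (l 17563096) (l 16840944)) (l 16766528)) (l 17001704)) (l 17234264))) (a (l 17814552) (l 17386216)))) (a (a (b (b (b (a (l 16727768) (l 16733152)) (l 16731088)) (l 16732120)) (l 16786176)) (b (b (b (l 6) (l 16747816)) (l 16754928)) (l 16777936))) (l 6))) (a (a (l 18229312) (l 85598711479)) (l 4))) (l 4)) (l 4)))) (a (l 38893342103) (l 4))) (l 4)) (l 4)), by decide +kernel⟩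

theorem c_mm_202_a : CertF 0 536870912 0 536870912 33554432 16777216 true false false .pp 2 0 2
    ndF1q2a ndF2q0 pcF2 cut_mm_202_a Ext.none :=
  certFK0 (fam := true) (s1 := false) (s2 := false) (a := 2) (b := 0) (c := 2) (cn := .pp) (n1 := ndF1q2a) (n2 := ndF2q0) (pc := pcF2) (cut := cut_mm_202_a) (xt := Ext.none) (P1 := 0) (W1 := 536870912) (P2 := 0) (W2 := 536870912) (P3 := 33554432) (W3 := 16777216)
    rfl rfl rfl k0_mm_202_a

noncomputable def cut_mm_202_b : Cut := Cut.of [[⟨0, 1, 0, 33554432⟩, ⟨1, 0, 0, 33554432⟩, ⟨2, 1, 0, 33554432⟩]]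

noncomputable def f_mm_202_b : ℕ → ℕ → ℕ → ℕ → Bool := onCell 1239849684 370763052 0 536870912 33554432 16777216
    (rowFK 0 true false false .pp 2 0 2 (qsf 1239849684 370763052 0 536870912 2) ndF1q2b ndF2q0 pcF2 cut_mm_202_b Ext.none)

def k0_mm_202_b : ∃ t, chk3 f_mm_202_b t 1 1 1 = true :=
  ⟨(b (b (b (a (a (b (l 19413824) (l 19107040)) (b (l 19386368) (l 19119272))) (a (l 19047312) (l 18971656))) (a (a (b (l 18832104) (l 4)) (l 4)) (l 4))) (l 4)) (l 4)), by decide +kernel⟩

theorem c_mm_202_b : CertF 1239849684 370763052 0 536870912 33554432 16777216 true false false .pp 2 0 2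
    ndF1q2b ndF2q0 pcF2 cut_mm_202_b Ext.none :=
  certFK0 (fam := true) (s1 := false) (s2 := false) (a := 2) (b := 0) (c := 2) (cn := .pp) (n1 := ndF1q2b) (n2 := ndF2q0) (pc := pcF2) (cut := cut_mm_202_b) (xt := Ext.none) (P1 := 1239849684) (W1 := 370763052) (P2 := 0) (W2 := 536870912) (P3 := 33554432) (W3 := 16777216)
    rfl rfl rfl k0_mm_202_b

noncomputable def f_mm_203_a : ℕ → ℕ → ℕ → ℕ → Bool := onCell 0 536870912 1610612736 536870912 33554432 16777216
    (rowFK 1 true false false .up 2 0 3 (qsf 0 536870912 0 536870912 3) ndF1q2a ndF2q0 pcF3 Cut.none Ext.none)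

def k0_mm_203_a : ∃ t, chk3 f_mm_203_a t 1 1 1 = true :=
  ⟨(l 4), by decide +kernel⟩

theorem c_mm_203_a : CertF 0 536870912 0 536870912 33554432 16777216 true false false .up 2 0 3
    ndF1q2a ndF2q0 pcF3 Cut.none Ext.none :=
  certFK1 (fam := true) (s1 := false) (s2 := false) (a := 2) (b := 0) (c := 3) (cn := .up) (n1 := ndF1q2a) (n2 := ndF2q0) (pc := pcF3) (cut := Cut.none) (xt := Ext.none) (P1 := 0) (W1 := 536870912) (P2 := 0) (W2 := 536870912) (P3 := 33554432) (W3 := 16777216)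
    rfl rfl rfl (fun _ => rfl) k0_mm_203_a

noncomputable def f_mm_203_b : ℕ → ℕ → ℕ → ℕ → Bool := onCell 1239849684 370763052 1610612736 536870912 33554432 16777216
    (rowFK 1 true false false .up 2 0 3 (qsf 1239849684 370763052 0 536870912 3) ndF1q2b ndF2q0 pcF3 Cut.none Ext.none)

def k0_mm_203_b : ∃ t, chk3 f_mm_203_b t 1 1 1 = true :=
  ⟨(b (b (l 4) (l 4)) (l 4)), by decide +kernel⟩

theorem c_mm_203_b : CertF 1239849684 370763052 0 536870912 33554432 16777216 true false false .up 2 0 3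
    ndF1q2b ndF2q0 pcF3 Cut.none Ext.none :=
  certFK1 (fam := true) (s1 := false) (s2 := false) (a := 2) (b := 0) (c := 3) (cn := .up) (n1 := ndF1q2b) (n2 := ndF2q0) (pc := pcF3) (cut := Cut.none) (xt := Ext.none) (P1 := 1239849684) (W1 := 370763052) (P2 := 0) (W2 := 536870912) (P3 := 33554432) (W3 := 16777216)
    rfl rfl rfl (fun _ => rfl) k0_mm_203_b

noncomputable def f_mm_213_a : ℕ → ℕ → ℕ → ℕ → Bool := onCell 0 536870912 536870912 536870912 33554432 16777216
    (rowFK 0 true false false .pnn 2 1 3 (qsf 0 536870912 536870912 536870912 3) ndF1q2a ndF2q1 pcF3 Cut.none Ext.none)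

def k0_mm_213_a : ∃ t, chk3 f_mm_213_a t 1 1 1 = true :=
  ⟨(l 4), by decide +kernel⟩

theorem c_mm_213_a : CertF 0 536870912 536870912 536870912 33554432 16777216 true false false .pnn 2 1 3
    ndF1q2a ndF2q1 pcF3 Cut.none Ext.none :=
  certFK0 (fam := true) (s1 := false) (s2 := false) (a := 2) (b := 1) (c := 3) (cn := .pnn) (n1 := ndF1q2a) (n2 := ndF2q1) (pc := pcF3) (cut := Cut.none) (xt := Ext.none) (P1 := 0) (W1 := 536870912) (P2 := 536870912) (W2 := 536870912) (P3 := 33554432) (W3 := 16777216)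
    rfl rfl rfl k0_mm_213_a

noncomputable def f_mm_213_b : ℕ → ℕ → ℕ → ℕ → Bool := onCell 1239849684 370763052 536870912 536870912 33554432 16777216
    (rowFK 0 true false false .pnn 2 1 3 (qsf 1239849684 370763052 536870912 536870912 3) ndF1q2b ndF2q1 pcF3 Cut.none Ext.none)

def k0_mm_213_b : ∃ t, chk3 f_mm_213_b t 1 1 1 = true :=
  ⟨(l 4), by decide +kernel⟩

theorem c_mm_213_b : CertF 1239849684 370763052 536870912 536870912 33554432 16777216 true false false .pnn 2 1 3
    ndF1q2b ndF2q1 pcF3 Cut.none Ext.none :=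
  certFK0 (fam := true) (s1 := false) (s2 := false) (a := 2) (b := 1) (c := 3) (cn := .pnn) (n1 := ndF1q2b) (n2 := ndF2q1) (pc := pcF3) (cut := Cut.none) (xt := Ext.none) (P1 := 1239849684) (W1 := 370763052) (P2 := 536870912) (W2 := 536870912) (P3 := 33554432) (W3 := 16777216)
    rfl rfl rfl k0_mm_213_b

noncomputable def f_mm_303 : ℕ → ℕ → ℕ → ℕ → Bool := onCell 1610612736 536870912 0 536870912 33554432 16777216
    (rowFK 0 true false false .npn 3 0 3 (qsf 1610612736 536870912 0 536870912 3) ndF1q3 ndF2q0 pcF3 Cut.none Ext.none)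

def k0_mm_303 : ∃ t, chk3 f_mm_303 t 1 1 1 = true :=
  ⟨(a (b (l 4) (l 4)) (l 4)), by decide +kernel⟩

theorem c_mm_303 : CertF 1610612736 536870912 0 536870912 33554432 16777216 true false false .npn 3 0 3
    ndF1q3 ndF2q0 pcF3 Cut.none Ext.none :=
  certFK0 (fam := true) (s1 := false) (s2 := false) (a := 3) (b := 0) (c := 3) (cn := .npn) (n1 := ndF1q3) (n2 := ndF2q0) (pc := pcF3) (cut := Cut.none) (xt := Ext.none) (P1 := 1610612736) (W1 := 536870912) (P2 := 0) (W2 := 536870912) (P3 := 33554432) (W3 := 16777216)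
    rfl rfl rfl k0_mm_303

noncomputable def f_mm_313 : ℕ → ℕ → ℕ → ℕ → Bool := onCell 1610612736 536870912 536870912 536870912 33554432 16777216
    (rowFK 0 true false false .dn 3 1 3 (qsf 1610612736 536870912 536870912 536870912 3) ndF1q3 ndF2q1 pcF3 Cut.none Ext.none)

def k0_mm_313 : ∃ t, chk3 f_mm_313 t 1 1 1 = true :=
  ⟨(l 4), by decide +kernel⟩

theorem c_mm_313 : CertF 1610612736 536870912 536870912 536870912 33554432 16777216 true false false .dn 3 1 3
    ndF1q3 ndF2q1 pcF3 Cut.none Ext.none :=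
  certFK0 (fam := true) (s1 := false) (s2 := false) (a := 3) (b := 1) (c := 3) (cn := .dn) (n1 := ndF1q3) (n2 := ndF2q1) (pc := pcF3) (cut := Cut.none) (xt := Ext.none) (P1 := 1610612736) (W1 := 536870912) (P2 := 536870912) (W2 := 536870912) (P3 := 33554432) (W3 := 16777216)
    rfl rfl rfl k0_mm_313

end Pool.Agent.Strip051.G.I1_32_3_64.Tab.C.FA12

namespace Pool.Agent.Strip051.G.I1_32_3_64.Tab.C.FA13

open Pool.Agent.Strip051.PB Pool.Agent.Strip051.PB.T
open Pool.Agent.Strip051.G.I1_32_3_64.Tab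

noncomputable def f_pp_001 : ℕ → ℕ → ℕ → ℕ → Bool := onCell 0 536870912 0 536870912 33554432 16777216
    (rowFK 0 true true true .up 0 0 1 (qsf 0 536870912 0 536870912 1) ndF1q0 ndF3q0 pcF1 Cut.none Ext.none)

def k0_pp_001 : ∃ t, chk3 f_pp_001 t 1 1 1 = true :=
  ⟨(l 4), by decide +kernel⟩

theorem c_pp_001 : CertF 0 536870912 0 536870912 33554432 16777216 true true true .up 0 0 1
    ndF1q0 ndF3q0 pcF1 Cut.none Ext.none :=
  certFK0 (fam := true) (s1 := true) (s2 := true) (a := 0) (b := 0) (c := 1) (cn := .up) (n1 := ndF1q0) (n2 := ndF3q0) (pc := pcF1) (cut := Cut.none) (xt := Ext.none) (P1 := 0) (W1 := 536870912) (P2 := 0) (W2 := 536870912) (P3 := 33554432) (W3 := 16777216)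
    rfl rfl rfl k0_pp_001

noncomputable def f_pp_011 : ℕ → ℕ → ℕ → ℕ → Bool := onCell 0 536870912 536870912 536870912 33554432 16777216
    (rowFK 0 true true true .pnn 0 1 1 (qsf 0 536870912 536870912 536870912 1) ndF1q0 ndF3q1 pcF1 Cut.none Ext.none)

def k0_pp_011 : ∃ t, chk3 f_pp_011 t 1 1 1 = true :=
  ⟨(l 4), by decide +kernel⟩

theorem c_pp_011 : CertF 0 536870912 536870912 536870912 33554432 16777216 true true true .pnn 0 1 1
    ndF1q0 ndF3q1 pcF1 Cut.none Ext.none :=
  certFK0 (fam := true) (s1 := true) (s2 := true) (a := 0) (b := 1) (c := 1) (cn := .pnn) (n1 := ndF1q0) (n2 := ndF3q1) (pc := pcF1) (cut := Cut.none) (xt := Ext.none) (P1 := 0) (W1 := 536870912) (P2 := 536870912) (W2 := 536870912) (P3 := 33554432) (W3 := 16777216)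
    rfl rfl rfl k0_pp_011

noncomputable def f_pp_012 : ℕ → ℕ → ℕ → ℕ → Bool := onCell 0 536870912 536870912 536870912 33554432 16777216
    (rowFK 0 true true true .pnp 0 1 2 (qsf 0 536870912 536870912 536870912 2) ndF1q0 ndF3q1 pcF2 Cut.none Ext.none)

def k0_pp_012 : ∃ t, chk3 f_pp_012 t 1 1 1 = true :=
  ⟨(l 4), by decide +kernel⟩

theorem c_pp_012 : CertF 0 536870912 536870912 536870912 33554432 16777216 true true true .pnp 0 1 2
    ndF1q0 ndF3q1 pcF2 Cut.none Ext.none :=
  certFK0 (fam := true) (s1 := true) (s2 := true) (a := 0) (b := 1) (c := 2) (cn := .pnp) (n1 := ndF1q0) (n2 := ndF3q1) (pc := pcF2) (cut := Cut.none) (xt := Ext.none) (P1 := 0) (W1 := 536870912) (P2 := 536870912) (W2 := 536870912) (P3 := 33554432) (W3 := 16777216)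
    rfl rfl rfl k0_pp_012

noncomputable def f_pp_022 : ℕ → ℕ → ℕ → ℕ → Bool := onCell 0 536870912 1073741824 536870912 33554432 16777216
    (rowFK 0 true true true .pp 0 2 2 (qsf 0 536870912 1073741824 536870912 2) ndF1q0 ndF3q2 pcF2 Cut.none Ext.none)

def k0_pp_022 : ∃ t, chk3 f_pp_022 t 1 1 1 = true :=
  ⟨(l 4), by decide +kernel⟩

theorem c_pp_022 : CertF 0 536870912 1073741824 536870912 33554432 16777216 true true true .pp 0 2 2
    ndF1q0 ndF3q2 pcF2 Cut.none Ext.none :=
  certFK0 (fam := true) (s1 := true) (s2 := true) (a := 0) (b := 2) (c := 2) (cn := .pp) (n1 := ndF1q0) (n2 := ndF3q2) (pc := pcF2) (cut := Cut.none) (xt := Ext.none) (P1 := 0) (W1 := 536870912) (P2 := 1073741824) (W2 := 536870912) (P3 := 33554432) (W3 := 16777216)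
    rfl rfl rfl k0_pp_022

noncomputable def f_pp_023 : ℕ → ℕ → ℕ → ℕ → Bool := onCell 0 536870912 1073741824 536870912 33554432 16777216
    (rowFK 0 true true true .up 0 2 3 (qsf 0 536870912 1073741824 536870912 3) ndF1q0 ndF3q2 pcF3 Cut.none Ext.none)

def k0_pp_023 : ∃ t, chk3 f_pp_023 t 1 1 1 = true :=
  ⟨(l 4), by decide +kernel⟩

theorem c_pp_023 : CertF 0 536870912 1073741824 536870912 33554432 16777216 true true true .up 0 2 3
    ndF1q0 ndF3q2 pcF3 Cut.none Ext.none :=
  certFK0 (fam := true) (s1 := true) (s2 := true) (a := 0) (b := 2) (c := 3) (cn := .up) (n1 := ndF1q0) (n2 := ndF3q2) (pc := pcF3) (cut := Cut.none) (xt := Ext.none) (P1 := 0) (W1 := 536870912) (P2 := 1073741824) (W2 := 536870912) (P3 := 33554432) (W3 := 16777216)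
    rfl rfl rfl k0_pp_023

noncomputable def f_pp_033 : ℕ → ℕ → ℕ → ℕ → Bool := onCell 0 536870912 0 1230186008 33554432 16777216
    (rowFK 0 true true true .pnn 0 3 3 (qsf 0 536870912 0 1230186008 3) ndF1q0 ndF3q3 pcF3 Cut.none Ext.none)

def k0_pp_033 : ∃ t, chk3 f_pp_033 t 1 1 1 = true :=
  ⟨(b (l 4) (l 4)), by decide +kernel⟩

theorem c_pp_033 : CertF 0 536870912 0 1230186008 33554432 16777216 true true true .pnn 0 3 3
    ndF1q0 ndF3q3 pcF3 Cut.none Ext.none :=
  certFK0 (fam := true) (s1 := true) (s2 := true) (a := 0) (b := 3) (c := 3) (cn := .pnn) (n1 := ndF1q0) (n2 := ndF3q3) (pc := pcF3) (cut := Cut.none) (xt := Ext.none) (P1 := 0) (W1 := 536870912) (P2 := 0) (W2 := 1230186008) (P3 := 33554432) (W3 := 16777216)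
    rfl rfl rfl k0_pp_033

noncomputable def f_pp_101 : ℕ → ℕ → ℕ → ℕ → Bool := onCell 536870912 536870912 0 536870912 33554432 16777216
    (rowFK 0 true true true .npn 1 0 1 (qsf 536870912 536870912 0 536870912 1) ndF1q1 ndF3q0 pcF1 Cut.none Ext.none)

def k0_pp_101 : ∃ t, chk3 f_pp_101 t 1 1 1 = true :=
  ⟨(l 4), by decide +kernel⟩

theorem c_pp_101 : CertF 536870912 536870912 0 536870912 33554432 16777216 true true true .npn 1 0 1
    ndF1q1 ndF3q0 pcF1 Cut.none Ext.none :=
  certFK0 (fam := true) (s1 := true) (s2 := true) (a := 1) (b := 0) (c := 1) (cn := .npn) (n1 := ndF1q1) (n2 := ndF3q0) (pc := pcF1) (cut := Cut.none) (xt := Ext.none) (P1 := 536870912) (W1 := 536870912) (P2 := 0) (W2 := 536870912) (P3 := 33554432) (W3 := 16777216)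
    rfl rfl rfl k0_pp_101

noncomputable def f_pp_102 : ℕ → ℕ → ℕ → ℕ → Bool := onCell 536870912 536870912 0 536870912 33554432 16777216
    (rowFK 0 true true true .npp 1 0 2 (qsf 536870912 536870912 0 536870912 2) ndF1q1 ndF3q0 pcF2 Cut.none Ext.none)

def k0_pp_102 : ∃ t, chk3 f_pp_102 t 1 1 1 = true :=
  ⟨(l 4), by decide +kernel⟩

theorem c_pp_102 : CertF 536870912 536870912 0 536870912 33554432 16777216 true true true .npp 1 0 2
    ndF1q1 ndF3q0 pcF2 Cut.none Ext.none :=
  certFK0 (fam := true) (s1 := true) (s2 := true) (a := 1) (b := 0) (c := 2) (cn := .npp) (n1 := ndF1q1) (n2 := ndF3q0) (pc := pcF2) (cut := Cut.none) (xt := Ext.none) (P1 := 536870912) (W1 := 536870912) (P2 := 0) (W2 := 536870912) (P3 := 33554432) (W3 := 16777216)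
    rfl rfl rfl k0_pp_102

noncomputable def f_pp_112 : ℕ → ℕ → ℕ → ℕ → Bool := onCell 536870912 536870912 536870912 536870912 33554432 16777216
    (rowFK 0 true true true .dn 1 1 2 (qsf 536870912 536870912 536870912 536870912 2) ndF1q1 ndF3q1 pcF2 Cut.none Ext.none)

def k0_pp_112 : ∃ t, chk3 f_pp_112 t 1 1 1 = true :=
  ⟨(l 4), by decide +kernel⟩

theorem c_pp_112 : CertF 536870912 536870912 536870912 536870912 33554432 16777216 true true true .dn 1 1 2
    ndF1q1 ndF3q1 pcF2 Cut.none Ext.none :=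
  certFK0 (fam := true) (s1 := true) (s2 := true) (a := 1) (b := 1) (c := 2) (cn := .dn) (n1 := ndF1q1) (n2 := ndF3q1) (pc := pcF2) (cut := Cut.none) (xt := Ext.none) (P1 := 536870912) (W1 := 536870912) (P2 := 536870912) (W2 := 536870912) (P3 := 33554432) (W3 := 16777216)
    rfl rfl rfl k0_pp_112

noncomputable def f_pp_113 : ℕ → ℕ → ℕ → ℕ → Bool := onCell 536870912 536870912 536870912 536870912 33554432 16777216
    (rowFK 0 true true true .nn 1 1 3 (qsf 536870912 536870912 536870912 536870912 3) ndF1q1 ndF3q1 pcF3 Cut.none Ext.none)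

def k0_pp_113 : ∃ t, chk3 f_pp_113 t 1 1 1 = true :=
  ⟨(l 4), by decide +kernel⟩

theorem c_pp_113 : CertF 536870912 536870912 536870912 536870912 33554432 16777216 true true true .nn 1 1 3
    ndF1q1 ndF3q1 pcF3 Cut.none Ext.none :=
  certFK0 (fam := true) (s1 := true) (s2 := true) (a := 1) (b := 1) (c := 3) (cn := .nn) (n1 := ndF1q1) (n2 := ndF3q1) (pc := pcF3) (cut := Cut.none) (xt := Ext.none) (P1 := 536870912) (W1 := 536870912) (P2 := 536870912) (W2 := 536870912) (P3 := 33554432) (W3 := 16777216)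
    rfl rfl rfl k0_pp_113

noncomputable def f_pp_123 : ℕ → ℕ → ℕ → ℕ → Bool := onCell 536870912 536870912 1073741824 536870912 33554432 16777216
    (rowFK 0 true true true .npn 1 2 3 (qsf 536870912 536870912 1073741824 536870912 3) ndF1q1 ndF3q2 pcF3 Cut.none Ext.none)

def k0_pp_123 : ∃ t, chk3 f_pp_123 t 1 1 1 = true :=
  ⟨(l 4), by decide +kernel⟩

theorem c_pp_123 : CertF 536870912 536870912 1073741824 536870912 33554432 16777216 true true true .npn 1 2 3
    ndF1q1 ndF3q2 pcF3 Cut.none Ext.none :=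
  certFK0 (fam := true) (s1 := true) (s2 := true) (a := 1) (b := 2) (c := 3) (cn := .npn) (n1 := ndF1q1) (n2 := ndF3q2) (pc := pcF3) (cut := Cut.none) (xt := Ext.none) (P1 := 536870912) (W1 := 536870912) (P2 := 1073741824) (W2 := 536870912) (P3 := 33554432) (W3 := 16777216)
    rfl rfl rfl k0_pp_123

noncomputable def f_pp_133 : ℕ → ℕ → ℕ → ℕ → Bool := onCell 536870912 536870912 0 1230186008 33554432 16777216
    (rowFK 0 true true true .dn 1 3 3 (qsf 536870912 536870912 0 1230186008 3) ndF1q1 ndF3q3 pcF3 Cut.none Ext.none)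

def k0_pp_133 : ∃ t, chk3 f_pp_133 t 1 1 1 = true :=
  ⟨(l 4), by decide +kernel⟩

theorem c_pp_133 : CertF 536870912 536870912 0 1230186008 33554432 16777216 true true true .dn 1 3 3
    ndF1q1 ndF3q3 pcF3 Cut.none Ext.none :=
  certFK0 (fam := true) (s1 := true) (s2 := true) (a := 1) (b := 3) (c := 3) (cn := .dn) (n1 := ndF1q1) (n2 := ndF3q3) (pc := pcF3) (cut := Cut.none) (xt := Ext.none) (P1 := 536870912) (W1 := 536870912) (P2 := 0) (W2 := 1230186008) (P3 := 33554432) (W3 := 16777216)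
    rfl rfl rfl k0_pp_133

noncomputable def f_pp_202_a : ℕ → ℕ → ℕ → ℕ → Bool := onCell 0 536870912 0 536870912 33554432 16777216
    (rowFK 0 true true true .pp 2 0 2 (qsf 0 536870912 0 536870912 2) ndF1q2a ndF3q0 pcF2 Cut.none Ext.none)

def k0_pp_202_a : ∃ t, chk3 f_pp_202_a t 1 1 1 = true :=
  ⟨(l 4), by decide +kernel⟩

theorem c_pp_202_a : CertF 0 536870912 0 536870912 33554432 16777216 true true true .pp 2 0 2
    ndF1q2a ndF3q0 pcF2 Cut.none Ext.none :=
  certFK0 (fam := true) (s1 := true) (s2 := true) (a := 2) (b := 0) (c := 2) (cn := .pp) (n1 := ndF1q2a) (n2 := ndF3q0) (pc := pcF2) (cut := Cut.none) (xt := Ext.none) (P1 := 0) (W1 := 536870912) (P2 := 0) (W2 := 536870912) (P3 := 33554432) (W3 := 16777216)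
    rfl rfl rfl k0_pp_202_a

noncomputable def f_pp_202_b : ℕ → ℕ → ℕ → ℕ → Bool := onCell 1239849684 370763052 0 536870912 33554432 16777216
    (rowFK 0 true true true .pp 2 0 2 (qsf 1239849684 370763052 0 536870912 2) ndF1q2b ndF3q0 pcF2 Cut.none Ext.none)

def k0_pp_202_b : ∃ t, chk3 f_pp_202_b t 1 1 1 = true :=
  ⟨(l 4), by decide +kernel⟩

theorem c_pp_202_b : CertF 1239849684 370763052 0 536870912 33554432 16777216 true true true .pp 2 0 2
    ndF1q2b ndF3q0 pcF2 Cut.none Ext.none :=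
  certFK0 (fam := true) (s1 := true) (s2 := true) (a := 2) (b := 0) (c := 2) (cn := .pp) (n1 := ndF1q2b) (n2 := ndF3q0) (pc := pcF2) (cut := Cut.none) (xt := Ext.none) (P1 := 1239849684) (W1 := 370763052) (P2 := 0) (W2 := 536870912) (P3 := 33554432) (W3 := 16777216)
    rfl rfl rfl k0_pp_202_b

noncomputable def f_pp_203_a : ℕ → ℕ → ℕ → ℕ → Bool := onCell 0 536870912 0 536870912 33554432 16777216
    (rowFK 0 true true true .up 2 0 3 (qsf 0 536870912 0 536870912 3) ndF1q2a ndF3q0 pcF3 Cut.none Ext.none)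

def k0_pp_203_a : ∃ t, chk3 f_pp_203_a t 1 1 1 = true :=
  ⟨(l 4), by decide +kernel⟩

theorem c_pp_203_a : CertF 0 536870912 0 536870912 33554432 16777216 true true true .up 2 0 3
    ndF1q2a ndF3q0 pcF3 Cut.none Ext.none :=
  certFK0 (fam := true) (s1 := true) (s2 := true) (a := 2) (b := 0) (c := 3) (cn := .up) (n1 := ndF1q2a) (n2 := ndF3q0) (pc := pcF3) (cut := Cut.none) (xt := Ext.none) (P1 := 0) (W1 := 536870912) (P2 := 0) (W2 := 536870912) (P3 := 33554432) (W3 := 16777216)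
    rfl rfl rfl k0_pp_203_a

noncomputable def f_pp_203_b : ℕ → ℕ → ℕ → ℕ → Bool := onCell 1239849684 370763052 0 536870912 33554432 16777216
    (rowFK 0 true true true .up 2 0 3 (qsf 1239849684 370763052 0 536870912 3) ndF1q2b ndF3q0 pcF3 Cut.none Ext.none)

def k0_pp_203_b : ∃ t, chk3 f_pp_203_b t 1 1 1 = true :=
  ⟨(l 4), by decide +kernel⟩

theorem c_pp_203_b : CertF 1239849684 370763052 0 536870912 33554432 16777216 true true true .up 2 0 3
    ndF1q2b ndF3q0 pcF3 Cut.none Ext.none :=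
  certFK0 (fam := true) (s1 := true) (s2 := true) (a := 2) (b := 0) (c := 3) (cn := .up) (n1 := ndF1q2b) (n2 := ndF3q0) (pc := pcF3) (cut := Cut.none) (xt := Ext.none) (P1 := 1239849684) (W1 := 370763052) (P2 := 0) (W2 := 536870912) (P3 := 33554432) (W3 := 16777216)
    rfl rfl rfl k0_pp_203_b

noncomputable def f_pp_213_a : ℕ → ℕ → ℕ → ℕ → Bool := onCell 0 536870912 536870912 536870912 33554432 16777216
    (rowFK 0 true true true .pnn 2 1 3 (qsf 0 536870912 536870912 536870912 3) ndF1q2a ndF3q1 pcF3 Cut.none Ext.none)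

def k0_pp_213_a : ∃ t, chk3 f_pp_213_a t 1 1 1 = true :=
  ⟨(l 4), by decide +kernel⟩

theorem c_pp_213_a : CertF 0 536870912 536870912 536870912 33554432 16777216 true true true .pnn 2 1 3
    ndF1q2a ndF3q1 pcF3 Cut.none Ext.none :=
  certFK0 (fam := true) (s1 := true) (s2 := true) (a := 2) (b := 1) (c := 3) (cn := .pnn) (n1 := ndF1q2a) (n2 := ndF3q1) (pc := pcF3) (cut := Cut.none) (xt := Ext.none) (P1 := 0) (W1 := 536870912) (P2 := 536870912) (W2 := 536870912) (P3 := 33554432) (W3 := 16777216)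
    rfl rfl rfl k0_pp_213_a

noncomputable def f_pp_213_b : ℕ → ℕ → ℕ → ℕ → Bool := onCell 1239849684 370763052 536870912 536870912 33554432 16777216
    (rowFK 0 true true true .pnn 2 1 3 (qsf 1239849684 370763052 536870912 536870912 3) ndF1q2b ndF3q1 pcF3 Cut.none Ext.none)

def k0_pp_213_b : ∃ t, chk3 f_pp_213_b t 1 1 1 = true :=
  ⟨(l 4), by decide +kernel⟩

theorem c_pp_213_b : CertF 1239849684 370763052 536870912 536870912 33554432 16777216 true true true .pnn 2 1 3
    ndF1q2b ndF3q1 pcF3 Cut.none Ext.none :=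
  certFK0 (fam := true) (s1 := true) (s2 := true) (a := 2) (b := 1) (c := 3) (cn := .pnn) (n1 := ndF1q2b) (n2 := ndF3q1) (pc := pcF3) (cut := Cut.none) (xt := Ext.none) (P1 := 1239849684) (W1 := 370763052) (P2 := 536870912) (W2 := 536870912) (P3 := 33554432) (W3 := 16777216)
    rfl rfl rfl k0_pp_213_b

noncomputable def f_pp_303 : ℕ → ℕ → ℕ → ℕ → Bool := onCell 1610612736 536870912 0 536870912 33554432 16777216
    (rowFK 0 true true true .npn 3 0 3 (qsf 1610612736 536870912 0 536870912 3) ndF1q3 ndF3q0 pcF3 Cut.none Ext.none)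

def k0_pp_303 : ∃ t, chk3 f_pp_303 t 1 1 1 = true :=
  ⟨(l 4), by decide +kernel⟩

theorem c_pp_303 : CertF 1610612736 536870912 0 536870912 33554432 16777216 true true true .npn 3 0 3
    ndF1q3 ndF3q0 pcF3 Cut.none Ext.none :=
  certFK0 (fam := true) (s1 := true) (s2 := true) (a := 3) (b := 0) (c := 3) (cn := .npn) (n1 := ndF1q3) (n2 := ndF3q0) (pc := pcF3) (cut := Cut.none) (xt := Ext.none) (P1 := 1610612736) (W1 := 536870912) (P2 := 0) (W2 := 536870912) (P3 := 33554432) (W3 := 16777216)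
    rfl rfl rfl k0_pp_303

noncomputable def f_pp_313 : ℕ → ℕ → ℕ → ℕ → Bool := onCell 1610612736 536870912 536870912 536870912 33554432 16777216
    (rowFK 0 true true true .dn 3 1 3 (qsf 1610612736 536870912 536870912 536870912 3) ndF1q3 ndF3q1 pcF3 Cut.none Ext.none)

def k0_pp_313 : ∃ t, chk3 f_pp_313 t 1 1 1 = true :=
  ⟨(l 4), by decide +kernel⟩

theorem c_pp_313 : CertF 1610612736 536870912 536870912 536870912 33554432 16777216 true true true .dn 3 1 3
    ndF1q3 ndF3q1 pcF3 Cut.none Ext.none :=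
  certFK0 (fam := true) (s1 := true) (s2 := true) (a := 3) (b := 1) (c := 3) (cn := .dn) (n1 := ndF1q3) (n2 := ndF3q1) (pc := pcF3) (cut := Cut.none) (xt := Ext.none) (P1 := 1610612736) (W1 := 536870912) (P2 := 536870912) (W2 := 536870912) (P3 := 33554432) (W3 := 16777216)
    rfl rfl rfl k0_pp_313

noncomputable def f_pm_001 : ℕ → ℕ → ℕ → ℕ → Bool := onCell 0 536870912 0 536870912 33554432 16777216
    (rowFK 0 true true false .up 0 0 1 (qsf 0 536870912 0 536870912 1) ndF1q0 ndF3q0 pcF1 Cut.none Ext.none)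

def k0_pm_001 : ∃ t, chk3 f_pm_001 t 1 1 1 = true :=
  ⟨(a (l 3) (l 3)), by decide +kernel⟩

theorem c_pm_001 : CertF 0 536870912 0 536870912 33554432 16777216 true true false .up 0 0 1
    ndF1q0 ndF3q0 pcF1 Cut.none Ext.none :=
  certFK0 (fam := true) (s1 := true) (s2 := false) (a := 0) (b := 0) (c := 1) (cn := .up) (n1 := ndF1q0) (n2 := ndF3q0) (pc := pcF1) (cut := Cut.none) (xt := Ext.none) (P1 := 0) (W1 := 536870912) (P2 := 0) (W2 := 536870912) (P3 := 33554432) (W3 := 16777216)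
    rfl rfl rfl k0_pm_001

noncomputable def cut_pm_011 : Cut := Cut.of [[⟨0, 0, 0, 33554432⟩, ⟨1, 1, 0, 33554432⟩, ⟨2, 1, 0, 33554432⟩]]

noncomputable def f_pm_011 : ℕ → ℕ → ℕ → ℕ → Bool := onCell 0 536870912 536870912 536870912 33554432 16777216
    (rowFK 1 true true false .pnn 0 1 1 (qsf 0 536870912 536870912 536870912 1) ndF1q0 ndF3q1 pcF1 cut_pm_011 Ext.none)

def k0_pm_011 : ∃ t, chk3 f_pm_011 t 1 1 1 = true :=
  ⟨(b (l 3) (b (l 3) (a (b (l 3) (a (a (b (l 3) (a (b (l 3) (a (b (l 3) (l 6)) (l 3))) (l 3))) (l 3)) (l 3))) (l 3)))), by decide +kernel⟩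

theorem c_pm_011 : CertF 0 536870912 536870912 536870912 33554432 16777216 true true false .pnn 0 1 1
    ndF1q0 ndF3q1 pcF1 cut_pm_011 Ext.none :=
  certFK1 (fam := true) (s1 := true) (s2 := false) (a := 0) (b := 1) (c := 1) (cn := .pnn) (n1 := ndF1q0) (n2 := ndF3q1) (pc := pcF1) (cut := cut_pm_011) (xt := Ext.none) (P1 := 0) (W1 := 536870912) (P2 := 536870912) (W2 := 536870912) (P3 := 33554432) (W3 := 16777216)
    rfl rfl rfl (fun _ => rfl) k0_pm_011

noncomputable def cut_pm_012 : Cut := Cut.of [[⟨0, 0, 0, 33554432⟩, ⟨1, 1, 0, 33554432⟩, ⟨2, 1, 0, 33554432⟩]]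

noncomputable def f_pm_012 : ℕ → ℕ → ℕ → ℕ → Bool := onCell 1073741824 536870912 536870912 536870912 33554432 16777216
    (rowFK 2 true true false .pnp 0 1 2 (qsf 0 536870912 536870912 536870912 2) ndF1q0 ndF3q1 pcF2 cut_pm_012 Ext.none)

def k0_pm_012 : ∃ t, chk3 f_pm_012 t 1 1 1 = true :=
  ⟨(a (b (a (a (l 18226888) (a (l 18505432) (l 18607072))) (l 18875720)) (a (a (b (a (l 3) (l 18692656)) (a (b (a (l 3) (l 18460808)) (b (a (a (l 3) (l 17649456)) (l 18169360)) (a (a (b (l 3) (l 6)) (b (l 16742192) (b (l 16753480) (l 6)))) (b (a (l 17053248) (l 17657800)) (a (b (l 16718024) (l 16727608)) (l 16703192)))))) (b (l 18946880) (b (l 19226144) (a (b (l 18374760) (b (l 17859248) (l 17183016))) (b (l 19064328) (l 18745384))))))) (b (a (l 19015632) (l 19224568)) (b (a (l 19415744) (l 19737024)) (a (b (l 19657312) (l 19733936)) (l 20204184))))) (b (l 19603680) (b (l 20198024) (l 20723744))))) (b (l 19127008) (b (l 19877264) (l 20621688)))), by decide +kernel⟩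

theorem c_pm_012 : CertF 0 536870912 536870912 536870912 33554432 16777216 true true false .pnp 0 1 2
    ndF1q0 ndF3q1 pcF2 cut_pm_012 Ext.none :=
  certFK2 (fam := true) (s1 := true) (s2 := false) (a := 0) (b := 1) (c := 2) (cn := .pnp) (n1 := ndF1q0) (n2 := ndF3q1) (pc := pcF2) (cut := cut_pm_012) (xt := Ext.none) (P1 := 0) (W1 := 536870912) (P2 := 536870912) (W2 := 536870912) (P3 := 33554432) (W3 := 16777216)
    rfl rfl rfl (fun _ => rfl) k0_pm_012

noncomputable def f_pm_022 : ℕ → ℕ → ℕ → ℕ → Bool := onCell 0 536870912 1073741824 536870912 33554432 16777216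
    (rowFK 1 true true false .pp 0 2 2 (qsf 0 536870912 1073741824 536870912 2) ndF1q0 ndF3q2 pcF2 Cut.none Ext.none)

def k0_pm_022 : ∃ t, chk3 f_pm_022 t 1 1 1 = true :=
  ⟨(b (b (l 3) (a (b (b (b (l 3) (b (l 5280298899255) (a (b (l 19444328) (l 146739430407)) (b (l 19309864) (l 19333216))))) (a (l 19538488) (l 19535944))) (l 19834616)) (b (l 1) (l 19624600)))) (a (b (l 19629504) (l 19572040)) (l 19650760))), by decide +kernel⟩

theorem c_pm_022 : CertF 0 536870912 1073741824 536870912 33554432 16777216 true true false .pp 0 2 2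
    ndF1q0 ndF3q2 pcF2 Cut.none Ext.none :=
  certFK1 (fam := true) (s1 := true) (s2 := false) (a := 0) (b := 2) (c := 2) (cn := .pp) (n1 := ndF1q0) (n2 := ndF3q2) (pc := pcF2) (cut := Cut.none) (xt := Ext.none) (P1 := 0) (W1 := 536870912) (P2 := 1073741824) (W2 := 536870912) (P3 := 33554432) (W3 := 16777216)
    rfl rfl rfl (fun _ => rfl) k0_pm_022

noncomputable def f_pm_023 : ℕ → ℕ → ℕ → ℕ → Bool := onCell 1610612736 536870912 1073741824 536870912 33554432 16777216
    (rowFK 2 true true false .up 0 2 3 (qsf 0 536870912 1073741824 536870912 3) ndF1q0 ndF3q2 pcF3 Cut.none Ext.none)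

def k0_pm_023 : ∃ t, chk3 f_pm_023 t 1 1 1 = true :=
  ⟨(b (a (a (b (l 20014384) (l 19667648)) (b (l 19766640) (l 19317640))) (a (b (l 2) (l 18841144)) (l 2))) (a (a (b (l 19318320) (l 19085056)) (b (l 19144840) (l 19196736))) (a (l 18904416) (a (l 18725112) (a (l 18633488) (a (l 18592280) (a (l 18557088) (l 4)))))))), by decide +kernel⟩

theorem c_pm_023 : CertF 0 536870912 1073741824 536870912 33554432 16777216 true true false .up 0 2 3
    ndF1q0 ndF3q2 pcF3 Cut.none Ext.none :=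
  certFK2 (fam := true) (s1 := true) (s2 := false) (a := 0) (b := 2) (c := 3) (cn := .up) (n1 := ndF1q0) (n2 := ndF3q2) (pc := pcF3) (cut := Cut.none) (xt := Ext.none) (P1 := 0) (W1 := 536870912) (P2 := 1073741824) (W2 := 536870912) (P3 := 33554432) (W3 := 16777216)
    rfl rfl rfl (fun _ => rfl) k0_pm_023

noncomputable def f_pm_033 : ℕ → ℕ → ℕ → ℕ → Bool := onCell 1610612736 536870912 0 1230186008 33554432 16777216
    (rowFK 2 true true false .pnn 0 3 3 (qsf 0 536870912 0 1230186008 3) ndF1q0 ndF3q3 pcF3 Cut.none Ext.none)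

def k0_pm_033 : ∃ t, chk3 f_pm_033 t 1 1 1 = true :=
  ⟨(a (b (l 1) (b (b (l 1) (a (l 1) (a (l 1) (l 18545688)))) (a (b (l 1) (a (b (l 1) (l 17809408)) (l 18315384))) (b (a (a (l 572879629239) (l 18834632)) (l 18507664)) (a (l 18585264) (l 18386360)))))) (a (b (l 1) (b (b (l 623880966391) (l 18253224)) (a (l 18165944) (l 17986992)))) (a (b (l 18210280) (b (l 18084672) (l 17878984))) (b (l 4) (a (l 17893488) (b (l 4) (l 4))))))), by decide +kernel⟩

theorem c_pm_033 : CertF 0 536870912 0 1230186008 33554432 16777216 true true false .pnn 0 3 3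
    ndF1q0 ndF3q3 pcF3 Cut.none Ext.none :=
  certFK2 (fam := true) (s1 := true) (s2 := false) (a := 0) (b := 3) (c := 3) (cn := .pnn) (n1 := ndF1q0) (n2 := ndF3q3) (pc := pcF3) (cut := Cut.none) (xt := Ext.none) (P1 := 0) (W1 := 536870912) (P2 := 0) (W2 := 1230186008) (P3 := 33554432) (W3 := 16777216)
    rfl rfl rfl (fun _ => rfl) k0_pm_033

noncomputable def f_pm_101 : ℕ → ℕ → ℕ → ℕ → Bool := onCell 536870912 536870912 0 536870912 33554432 16777216
    (rowFK 2 true true false .npn 1 0 1 (qsf 536870912 536870912 0 536870912 1) ndF1q1 ndF3q0 pcF1 Cut.none Ext.none)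

def k0_pm_101 : ∃ t, chk3 f_pm_101 t 1 1 1 = true :=
  ⟨(a (l 3) (a (l 3) (l 3))), by decide +kernel⟩

theorem c_pm_101 : CertF 536870912 536870912 0 536870912 33554432 16777216 true true false .npn 1 0 1
    ndF1q1 ndF3q0 pcF1 Cut.none Ext.none :=
  certFK2 (fam := true) (s1 := true) (s2 := false) (a := 1) (b := 0) (c := 1) (cn := .npn) (n1 := ndF1q1) (n2 := ndF3q0) (pc := pcF1) (cut := Cut.none) (xt := Ext.none) (P1 := 536870912) (W1 := 536870912) (P2 := 0) (W2 := 536870912) (P3 := 33554432) (W3 := 16777216)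
    rfl rfl rfl (fun _ => rfl) k0_pm_101

noncomputable def f_pm_102 : ℕ → ℕ → ℕ → ℕ → Bool := onCell 536870912 536870912 1073741824 536870912 33554432 16777216
    (rowFK 1 true true false .npp 1 0 2 (qsf 536870912 536870912 0 536870912 2) ndF1q1 ndF3q0 pcF2 Cut.none Ext.none)

def k0_pm_102 : ∃ t, chk3 f_pm_102 t 1 1 1 = true :=
  ⟨(a (b (b (b (c (l 237470952951) (l 247131943271)) (b (c (l 19386904) (l 18066928)) (c (l 19207848) (l 17998152)))) (c (l 18766840) (l 17810312))) (b (c (l 18008896) (l 17307160)) (l 2))) (b (b (b (c (a (l 20492080) (l 232104233879)) (a (l 18692832) (l 235321397751))) (c (b (a (l 20065056) (l 20482536)) (a (l 19915312) (l 20286080))) (a (b (l 18330088) (l 18246896)) (b (l 18666728) (l 18494360))))) (c (a (l 19487440) (l 20180392)) (c (l 18482544) (l 17951024)))) (a (b (l 18312240) (l 17567824)) (c (l 19076376) (l 17970464))))), by decide +kernel⟩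

theorem c_pm_102 : CertF 536870912 536870912 0 536870912 33554432 16777216 true true false .npp 1 0 2
    ndF1q1 ndF3q0 pcF2 Cut.none Ext.none :=
  certFK1 (fam := true) (s1 := true) (s2 := false) (a := 1) (b := 0) (c := 2) (cn := .npp) (n1 := ndF1q1) (n2 := ndF3q0) (pc := pcF2) (cut := Cut.none) (xt := Ext.none) (P1 := 536870912) (W1 := 536870912) (P2 := 0) (W2 := 536870912) (P3 := 33554432) (W3 := 16777216)
    rfl rfl rfl (fun _ => rfl) k0_pm_102

noncomputable def f_pm_112 : ℕ → ℕ → ℕ → ℕ → Bool := onCell 1073741824 536870912 536870912 536870912 33554432 16777216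
    (rowFK 2 true true false .dn 1 1 2 (qsf 536870912 536870912 536870912 536870912 2) ndF1q1 ndF3q1 pcF2 Cut.none Ext.none)

def k0_pm_112 : ∃ t, chk3 f_pm_112 t 1 1 1 = true :=
  ⟨(a (a (a (b (l 19723672) (l 1)) (l 140163467447)) (l 19676664)) (l 19314816)), by decide +kernel⟩

theorem c_pm_112 : CertF 536870912 536870912 536870912 536870912 33554432 16777216 true true false .dn 1 1 2
    ndF1q1 ndF3q1 pcF2 Cut.none Ext.none :=
  certFK2 (fam := true) (s1 := true) (s2 := false) (a := 1) (b := 1) (c := 2) (cn := .dn) (n1 := ndF1q1) (n2 := ndF3q1) (pc := pcF2) (cut := Cut.none) (xt := Ext.none) (P1 := 536870912) (W1 := 536870912) (P2 := 536870912) (W2 := 536870912) (P3 := 33554432) (W3 := 16777216)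
    rfl rfl rfl (fun _ => rfl) k0_pm_112

noncomputable def f_pm_113 : ℕ → ℕ → ℕ → ℕ → Bool := onCell 536870912 536870912 1610612736 536870912 33554432 16777216
    (rowFK 1 true true false .nn 1 1 3 (qsf 536870912 536870912 536870912 536870912 3) ndF1q1 ndF3q1 pcF3 Cut.none Ext.none)

def k0_pm_113 : ∃ t, chk3 f_pm_113 t 1 1 1 = true :=
  ⟨(b (b (a (l 19197448) (a (l 19006240) (l 18658992))) (a (a (l 19282112) (l 19085928)) (l 18541944))) (b (a (l 18699792) (l 18317816)) (b (l 18583544) (b (l 18386536) (b (l 18380400) (a (l 2) (l 4))))))), by decide +kernel⟩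

theorem c_pm_113 : CertF 536870912 536870912 536870912 536870912 33554432 16777216 true true false .nn 1 1 3
    ndF1q1 ndF3q1 pcF3 Cut.none Ext.none :=
  certFK1 (fam := true) (s1 := true) (s2 := false) (a := 1) (b := 1) (c := 3) (cn := .nn) (n1 := ndF1q1) (n2 := ndF3q1) (pc := pcF3) (cut := Cut.none) (xt := Ext.none) (P1 := 536870912) (W1 := 536870912) (P2 := 536870912) (W2 := 536870912) (P3 := 33554432) (W3 := 16777216)
    rfl rfl rfl (fun _ => rfl) k0_pm_113

noncomputable def f_pm_123 : ℕ → ℕ → ℕ → ℕ → Bool := onCell 1610612736 536870912 1073741824 536870912 33554432 16777216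
    (rowFK 2 true true false .npn 1 2 3 (qsf 536870912 536870912 1073741824 536870912 3) ndF1q1 ndF3q2 pcF3 Cut.none Ext.none)

def k0_pm_123 : ∃ t, chk3 f_pm_123 t 1 1 1 = true :=
  ⟨(a (b (a (b (l 18175752) (l 17722104)) (b (l 17971560) (l 17430184))) (a (l 1) (b (l 301756978663) (l 1)))) (a (b (b (b (l 17745280) (a (l 17454944) (l 17101968))) (a (l 17387544) (l 17226256))) (a (b (l 17390048) (l 1)) (l 17199064))) (a (b (b (b (b (l 17447584) (l 17029360)) (l 16955576)) (l 16938120)) (l 16934032)) (a (b (b (l 17103528) (l 16906928)) (l 16831224)) (a (b (l 17012024) (l 16910120)) (b (a (l 16965144) (b (a (l 16986000) (l 17048656)) (l 16915480))) (a (l 16937736) (l 4)))))))), by decide +kernel⟩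

theorem c_pm_123 : CertF 536870912 536870912 1073741824 536870912 33554432 16777216 true true false .npn 1 2 3
    ndF1q1 ndF3q2 pcF3 Cut.none Ext.none :=
  certFK2 (fam := true) (s1 := true) (s2 := false) (a := 1) (b := 2) (c := 3) (cn := .npn) (n1 := ndF1q1) (n2 := ndF3q2) (pc := pcF3) (cut := Cut.none) (xt := Ext.none) (P1 := 536870912) (W1 := 536870912) (P2 := 1073741824) (W2 := 536870912) (P3 := 33554432) (W3 := 16777216)
    rfl rfl rfl (fun _ => rfl) k0_pm_123

noncomputable def f_pm_133 : ℕ → ℕ → ℕ → ℕ → Bool := onCell 536870912 536870912 0 1230186008 33554432 16777216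
    (rowFK 0 true true false .dn 1 3 3 (qsf 536870912 536870912 0 1230186008 3) ndF1q1 ndF3q3 pcF3 Cut.none Ext.none)

def k0_pm_133 : ∃ t, chk3 f_pm_133 t 1 1 1 = true :=
  ⟨(b (l 2) (b (l 2) (a (l 4) (l 2)))), by decide +kernel⟩

theorem c_pm_133 : CertF 536870912 536870912 0 1230186008 33554432 16777216 true true false .dn 1 3 3
    ndF1q1 ndF3q3 pcF3 Cut.none Ext.none :=
  certFK0 (fam := true) (s1 := true) (s2 := false) (a := 1) (b := 3) (c := 3) (cn := .dn) (n1 := ndF1q1) (n2 := ndF3q3) (pc := pcF3) (cut := Cut.none) (xt := Ext.none) (P1 := 536870912) (W1 := 536870912) (P2 := 0) (W2 := 1230186008) (P3 := 33554432) (W3 := 16777216)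
    rfl rfl rfl k0_pm_133

noncomputable def f_pm_202_a : ℕ → ℕ → ℕ → ℕ → Bool := onCell 0 536870912 1073741824 536870912 33554432 16777216
    (rowFK 1 true true false .pp 2 0 2 (qsf 0 536870912 0 536870912 2) ndF1q2a ndF3q0 pcF2 Cut.none Ext.none)

def k0_pm_202_a : ∃ t, chk3 f_pm_202_a t 1 1 1 = true :=
  ⟨(a (b (b (b (l 1) (c (l 20864704) (l 398932912679))) (c (l 20635680) (b (l 18613160) (l 18508760)))) (b (c (l 19991808) (b (l 18270816) (l 17954776))) (b (l 18449760) (l 18057056)))) (c (b (b (b (b (b (b (l 21291752) (l 21242936)) (l 21073024)) (l 21015328)) (l 20884568)) (b (l 20668336) (l 20408200))) (b (l 20102680) (l 19193672))) (a (b (b (b (l 1) (l 18746512)) (l 18698000)) (b (l 18166168) (l 17505856))) (b (b (b (b (b (b (l 18975840) (l 18964752)) (l 18945976)) (l 18904048)) (l 18814496)) (l 18667696)) (b (l 18151976) (l 17511832)))))), by decide +kernel⟩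

theorem c_pm_202_a : CertF 0 536870912 0 536870912 33554432 16777216 true true false .pp 2 0 2
    ndF1q2a ndF3q0 pcF2 Cut.none Ext.none :=
  certFK1 (fam := true) (s1 := true) (s2 := false) (a := 2) (b := 0) (c := 2) (cn := .pp) (n1 := ndF1q2a) (n2 := ndF3q0) (pc := pcF2) (cut := Cut.none) (xt := Ext.none) (P1 := 0) (W1 := 536870912) (P2 := 0) (W2 := 536870912) (P3 := 33554432) (W3 := 16777216)
    rfl rfl rfl (fun _ => rfl) k0_pm_202_a

noncomputable def f_pm_202_b : ℕ → ℕ → ℕ → ℕ → Bool := onCell 1073741824 536870912 0 536870912 33554432 16777216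
    (rowFK 2 true true false .pp 2 0 2 (qsf 1239849684 370763052 0 536870912 2) ndF1q2b ndF3q0 pcF2 Cut.none Ext.none)

def k0_pm_202_b : ∃ t, chk3 f_pm_202_b t 1 1 1 = true :=
  ⟨(a (a (l 1) (b (c (l 447255146999) (b (a (l 18684552) (l 18502184)) (l 1))) (l 1))) (a (b (a (c (l 20183768) (b (l 18275552) (l 18246128))) (b (l 19033376) (l 157341319479))) (l 1)) (b (a (c (l 19503912) (l 44059207783)) (l 100633248327)) (a (c (l 19000776) (l 485903694983)) (l 4))))), by decide +kernel⟩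

theorem c_pm_202_b : CertF 1239849684 370763052 0 536870912 33554432 16777216 true true false .pp 2 0 2
    ndF1q2b ndF3q0 pcF2 Cut.none Ext.none :=
  certFK2 (fam := true) (s1 := true) (s2 := false) (a := 2) (b := 0) (c := 2) (cn := .pp) (n1 := ndF1q2b) (n2 := ndF3q0) (pc := pcF2) (cut := Cut.none) (xt := Ext.none) (P1 := 1239849684) (W1 := 370763052) (P2 := 0) (W2 := 536870912) (P3 := 33554432) (W3 := 16777216)
    rfl rfl rfl (fun _ => rfl) k0_pm_202_b

noncomputable def f_pm_203_a : ℕ → ℕ → ℕ → ℕ → Bool := onCell 0 536870912 1610612736 536870912 33554432 16777216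
    (rowFK 1 true true false .up 2 0 3 (qsf 0 536870912 0 536870912 3) ndF1q2a ndF3q0 pcF3 Cut.none Ext.none)

def k0_pm_203_a : ∃ t, chk3 f_pm_203_a t 1 1 1 = true :=
  ⟨(b (b (a (b (l 17803736) (l 4)) (b (l 17837896) (l 17535376))) (l 4)) (l 2)), by decide +kernel⟩

theorem c_pm_203_a : CertF 0 536870912 0 536870912 33554432 16777216 true true false .up 2 0 3
    ndF1q2a ndF3q0 pcF3 Cut.none Ext.none :=
  certFK1 (fam := true) (s1 := true) (s2 := false) (a := 2) (b := 0) (c := 3) (cn := .up) (n1 := ndF1q2a) (n2 := ndF3q0) (pc := pcF3) (cut := Cut.none) (xt := Ext.none) (P1 := 0) (W1 := 536870912) (P2 := 0) (W2 := 536870912) (P3 := 33554432) (W3 := 16777216)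
    rfl rfl rfl (fun _ => rfl) k0_pm_203_a

noncomputable def f_pm_203_b : ℕ → ℕ → ℕ → ℕ → Bool := onCell 1239849684 370763052 1610612736 536870912 33554432 16777216
    (rowFK 1 true true false .up 2 0 3 (qsf 1239849684 370763052 0 536870912 3) ndF1q2b ndF3q0 pcF3 Cut.none Ext.none)

def k0_pm_203_b : ∃ t, chk3 f_pm_203_b t 1 1 1 = true :=
  ⟨(b (b (l 4) (l 4)) (l 4)), by decide +kernel⟩

theorem c_pm_203_b : CertF 1239849684 370763052 0 536870912 33554432 16777216 true true false .up 2 0 3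
    ndF1q2b ndF3q0 pcF3 Cut.none Ext.none :=
  certFK1 (fam := true) (s1 := true) (s2 := false) (a := 2) (b := 0) (c := 3) (cn := .up) (n1 := ndF1q2b) (n2 := ndF3q0) (pc := pcF3) (cut := Cut.none) (xt := Ext.none) (P1 := 1239849684) (W1 := 370763052) (P2 := 0) (W2 := 536870912) (P3 := 33554432) (W3 := 16777216)
    rfl rfl rfl (fun _ => rfl) k0_pm_203_b

noncomputable def f_pm_213_a : ℕ → ℕ → ℕ → ℕ → Bool := onCell 0 536870912 1610612736 536870912 33554432 16777216
    (rowFK 1 true true false .pnn 2 1 3 (qsf 0 536870912 536870912 536870912 3) ndF1q2a ndF3q1 pcF3 Cut.none Ext.none)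

def k0_pm_213_a : ∃ t, chk3 f_pm_213_a t 1 1 1 = true :=
  ⟨(b (b (l 18096568) (l 4)) (l 4)), by decide +kernel⟩

theorem c_pm_213_a : CertF 0 536870912 536870912 536870912 33554432 16777216 true true false .pnn 2 1 3
    ndF1q2a ndF3q1 pcF3 Cut.none Ext.none :=
  certFK1 (fam := true) (s1 := true) (s2 := false) (a := 2) (b := 1) (c := 3) (cn := .pnn) (n1 := ndF1q2a) (n2 := ndF3q1) (pc := pcF3) (cut := Cut.none) (xt := Ext.none) (P1 := 0) (W1 := 536870912) (P2 := 536870912) (W2 := 536870912) (P3 := 33554432) (W3 := 16777216)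
    rfl rfl rfl (fun _ => rfl) k0_pm_213_a

noncomputable def f_pm_213_b : ℕ → ℕ → ℕ → ℕ → Bool := onCell 1239849684 370763052 536870912 536870912 33554432 16777216
    (rowFK 0 true true false .pnn 2 1 3 (qsf 1239849684 370763052 536870912 536870912 3) ndF1q2b ndF3q1 pcF3 Cut.none Ext.none)

def k0_pm_213_b : ∃ t, chk3 f_pm_213_b t 1 1 1 = true :=
  ⟨(l 4), by decide +kernel⟩

theorem c_pm_213_b : CertF 1239849684 370763052 536870912 536870912 33554432 16777216 true true false .pnn 2 1 3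
    ndF1q2b ndF3q1 pcF3 Cut.none Ext.none :=
  certFK0 (fam := true) (s1 := true) (s2 := false) (a := 2) (b := 1) (c := 3) (cn := .pnn) (n1 := ndF1q2b) (n2 := ndF3q1) (pc := pcF3) (cut := Cut.none) (xt := Ext.none) (P1 := 1239849684) (W1 := 370763052) (P2 := 536870912) (W2 := 536870912) (P3 := 33554432) (W3 := 16777216)
    rfl rfl rfl k0_pm_213_b

noncomputable def f_pm_303 : ℕ → ℕ → ℕ → ℕ → Bool := onCell 1610612736 536870912 0 536870912 33554432 16777216
    (rowFK 2 true true false .npn 3 0 3 (qsf 1610612736 536870912 0 536870912 3) ndF1q3 ndF3q0 pcF3 Cut.none Ext.none)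

def k0_pm_303 : ∃ t, chk3 f_pm_303 t 1 1 1 = true :=
  ⟨(a (b (l 4) (l 4)) (l 4)), by decide +kernel⟩

theorem c_pm_303 : CertF 1610612736 536870912 0 536870912 33554432 16777216 true true false .npn 3 0 3
    ndF1q3 ndF3q0 pcF3 Cut.none Ext.none :=
  certFK2 (fam := true) (s1 := true) (s2 := false) (a := 3) (b := 0) (c := 3) (cn := .npn) (n1 := ndF1q3) (n2 := ndF3q0) (pc := pcF3) (cut := Cut.none) (xt := Ext.none) (P1 := 1610612736) (W1 := 536870912) (P2 := 0) (W2 := 536870912) (P3 := 33554432) (W3 := 16777216)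
    rfl rfl rfl (fun _ => rfl) k0_pm_303

noncomputable def f_pm_313 : ℕ → ℕ → ℕ → ℕ → Bool := onCell 1610612736 536870912 536870912 536870912 33554432 16777216
    (rowFK 0 true true false .dn 3 1 3 (qsf 1610612736 536870912 536870912 536870912 3) ndF1q3 ndF3q1 pcF3 Cut.none Ext.none)

def k0_pm_313 : ∃ t, chk3 f_pm_313 t 1 1 1 = true :=
  ⟨(l 4), by decide +kernel⟩

theorem c_pm_313 : CertF 1610612736 536870912 536870912 536870912 33554432 16777216 true true false .dn 3 1 3
    ndF1q3 ndF3q1 pcF3 Cut.none Ext.none :=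
  certFK0 (fam := true) (s1 := true) (s2 := false) (a := 3) (b := 1) (c := 3) (cn := .dn) (n1 := ndF1q3) (n2 := ndF3q1) (pc := pcF3) (cut := Cut.none) (xt := Ext.none) (P1 := 1610612736) (W1 := 536870912) (P2 := 536870912) (W2 := 536870912) (P3 := 33554432) (W3 := 16777216)
    rfl rfl rfl k0_pm_313

noncomputable def f_mm_001 : ℕ → ℕ → ℕ → ℕ → Bool := onCell 0 536870912 0 536870912 33554432 16777216
    (rowFK 0 true false false .up 0 0 1 (qsf 0 536870912 0 536870912 1) ndF1q0 ndF3q0 pcF1 Cut.none Ext.none)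

def k0_mm_001 : ∃ t, chk3 f_mm_001 t 1 1 1 = true :=
  ⟨(l 4), by decide +kernel⟩

theorem c_mm_001 : CertF 0 536870912 0 536870912 33554432 16777216 true false false .up 0 0 1
    ndF1q0 ndF3q0 pcF1 Cut.none Ext.none :=
  certFK0 (fam := true) (s1 := false) (s2 := false) (a := 0) (b := 0) (c := 1) (cn := .up) (n1 := ndF1q0) (n2 := ndF3q0) (pc := pcF1) (cut := Cut.none) (xt := Ext.none) (P1 := 0) (W1 := 536870912) (P2 := 0) (W2 := 536870912) (P3 := 33554432) (W3 := 16777216)
    rfl rfl rfl k0_mm_001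

noncomputable def f_mm_011 : ℕ → ℕ → ℕ → ℕ → Bool := onCell 0 536870912 536870912 536870912 33554432 16777216
    (rowFK 0 true false false .pnn 0 1 1 (qsf 0 536870912 536870912 536870912 1) ndF1q0 ndF3q1 pcF1 Cut.none Ext.none)

def k0_mm_011 : ∃ t, chk3 f_mm_011 t 1 1 1 = true :=
  ⟨(l 4), by decide +kernel⟩

theorem c_mm_011 : CertF 0 536870912 536870912 536870912 33554432 16777216 true false false .pnn 0 1 1
    ndF1q0 ndF3q1 pcF1 Cut.none Ext.none :=
  certFK0 (fam := true) (s1 := false) (s2 := false) (a := 0) (b := 1) (c := 1) (cn := .pnn) (n1 := ndF1q0) (n2 := ndF3q1) (pc := pcF1) (cut := Cut.none) (xt := Ext.none) (P1 := 0) (W1 := 536870912) (P2 := 536870912) (W2 := 536870912) (P3 := 33554432) (W3 := 16777216)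
    rfl rfl rfl k0_mm_011

noncomputable def f_mm_012 : ℕ → ℕ → ℕ → ℕ → Bool := onCell 0 536870912 536870912 536870912 33554432 16777216
    (rowFK 0 true false false .pnp 0 1 2 (qsf 0 536870912 536870912 536870912 2) ndF1q0 ndF3q1 pcF2 Cut.none Ext.none)

def k0_mm_012 : ∃ t, chk3 f_mm_012 t 1 1 1 = true :=
  ⟨(l 4), by decide +kernel⟩

theorem c_mm_012 : CertF 0 536870912 536870912 536870912 33554432 16777216 true false false .pnp 0 1 2
    ndF1q0 ndF3q1 pcF2 Cut.none Ext.none :=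
  certFK0 (fam := true) (s1 := false) (s2 := false) (a := 0) (b := 1) (c := 2) (cn := .pnp) (n1 := ndF1q0) (n2 := ndF3q1) (pc := pcF2) (cut := Cut.none) (xt := Ext.none) (P1 := 0) (W1 := 536870912) (P2 := 536870912) (W2 := 536870912) (P3 := 33554432) (W3 := 16777216)
    rfl rfl rfl k0_mm_012

noncomputable def f_mm_022 : ℕ → ℕ → ℕ → ℕ → Bool := onCell 0 536870912 1073741824 536870912 33554432 16777216
    (rowFK 0 true false false .pp 0 2 2 (qsf 0 536870912 1073741824 536870912 2) ndF1q0 ndF3q2 pcF2 Cut.none Ext.none)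

def k0_mm_022 : ∃ t, chk3 f_mm_022 t 1 1 1 = true :=
  ⟨(l 4), by decide +kernel⟩

theorem c_mm_022 : CertF 0 536870912 1073741824 536870912 33554432 16777216 true false false .pp 0 2 2
    ndF1q0 ndF3q2 pcF2 Cut.none Ext.none :=
  certFK0 (fam := true) (s1 := false) (s2 := false) (a := 0) (b := 2) (c := 2) (cn := .pp) (n1 := ndF1q0) (n2 := ndF3q2) (pc := pcF2) (cut := Cut.none) (xt := Ext.none) (P1 := 0) (W1 := 536870912) (P2 := 1073741824) (W2 := 536870912) (P3 := 33554432) (W3 := 16777216)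
    rfl rfl rfl k0_mm_022

noncomputable def f_mm_023 : ℕ → ℕ → ℕ → ℕ → Bool := onCell 0 536870912 1073741824 536870912 33554432 16777216
    (rowFK 0 true false false .up 0 2 3 (qsf 0 536870912 1073741824 536870912 3) ndF1q0 ndF3q2 pcF3 Cut.none Ext.none)

def k0_mm_023 : ∃ t, chk3 f_mm_023 t 1 1 1 = true :=
  ⟨(l 4), by decide +kernel⟩

theorem c_mm_023 : CertF 0 536870912 1073741824 536870912 33554432 16777216 true false false .up 0 2 3
    ndF1q0 ndF3q2 pcF3 Cut.none Ext.none :=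
  certFK0 (fam := true) (s1 := false) (s2 := false) (a := 0) (b := 2) (c := 3) (cn := .up) (n1 := ndF1q0) (n2 := ndF3q2) (pc := pcF3) (cut := Cut.none) (xt := Ext.none) (P1 := 0) (W1 := 536870912) (P2 := 1073741824) (W2 := 536870912) (P3 := 33554432) (W3 := 16777216)
    rfl rfl rfl k0_mm_023

noncomputable def f_mm_033 : ℕ → ℕ → ℕ → ℕ → Bool := onCell 0 536870912 0 1230186008 33554432 16777216
    (rowFK 0 true false false .pnn 0 3 3 (qsf 0 536870912 0 1230186008 3) ndF1q0 ndF3q3 pcF3 Cut.none Ext.none)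

def k0_mm_033 : ∃ t, chk3 f_mm_033 t 1 1 1 = true :=
  ⟨(l 5), by decide +kernel⟩

theorem c_mm_033 : CertF 0 536870912 0 1230186008 33554432 16777216 true false false .pnn 0 3 3
    ndF1q0 ndF3q3 pcF3 Cut.none Ext.none :=
  certFK0 (fam := true) (s1 := false) (s2 := false) (a := 0) (b := 3) (c := 3) (cn := .pnn) (n1 := ndF1q0) (n2 := ndF3q3) (pc := pcF3) (cut := Cut.none) (xt := Ext.none) (P1 := 0) (W1 := 536870912) (P2 := 0) (W2 := 1230186008) (P3 := 33554432) (W3 := 16777216)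
    rfl rfl rfl k0_mm_033

noncomputable def f_mm_101 : ℕ → ℕ → ℕ → ℕ → Bool := onCell 536870912 536870912 0 536870912 33554432 16777216
    (rowFK 0 true false false .npn 1 0 1 (qsf 536870912 536870912 0 536870912 1) ndF1q1 ndF3q0 pcF1 Cut.none Ext.none)

def k0_mm_101 : ∃ t, chk3 f_mm_101 t 1 1 1 = true :=
  ⟨(l 4), by decide +kernel⟩

theorem c_mm_101 : CertF 536870912 536870912 0 536870912 33554432 16777216 true false false .npn 1 0 1
    ndF1q1 ndF3q0 pcF1 Cut.none Ext.none :=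
  certFK0 (fam := true) (s1 := false) (s2 := false) (a := 1) (b := 0) (c := 1) (cn := .npn) (n1 := ndF1q1) (n2 := ndF3q0) (pc := pcF1) (cut := Cut.none) (xt := Ext.none) (P1 := 536870912) (W1 := 536870912) (P2 := 0) (W2 := 536870912) (P3 := 33554432) (W3 := 16777216)
    rfl rfl rfl k0_mm_101

noncomputable def f_mm_102 : ℕ → ℕ → ℕ → ℕ → Bool := onCell 536870912 536870912 0 536870912 33554432 16777216
    (rowFK 0 true false false .npp 1 0 2 (qsf 536870912 536870912 0 536870912 2) ndF1q1 ndF3q0 pcF2 Cut.none Ext.none)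

def k0_mm_102 : ∃ t, chk3 f_mm_102 t 1 1 1 = true :=
  ⟨(l 4), by decide +kernel⟩

theorem c_mm_102 : CertF 536870912 536870912 0 536870912 33554432 16777216 true false false .npp 1 0 2
    ndF1q1 ndF3q0 pcF2 Cut.none Ext.none :=
  certFK0 (fam := true) (s1 := false) (s2 := false) (a := 1) (b := 0) (c := 2) (cn := .npp) (n1 := ndF1q1) (n2 := ndF3q0) (pc := pcF2) (cut := Cut.none) (xt := Ext.none) (P1 := 536870912) (W1 := 536870912) (P2 := 0) (W2 := 536870912) (P3 := 33554432) (W3 := 16777216)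
    rfl rfl rfl k0_mm_102

noncomputable def f_mm_112 : ℕ → ℕ → ℕ → ℕ → Bool := onCell 536870912 536870912 536870912 536870912 33554432 16777216
    (rowFK 0 true false false .dn 1 1 2 (qsf 536870912 536870912 536870912 536870912 2) ndF1q1 ndF3q1 pcF2 Cut.none Ext.none)

def k0_mm_112 : ∃ t, chk3 f_mm_112 t 1 1 1 = true :=
  ⟨(l 4), by decide +kernel⟩

theorem c_mm_112 : CertF 536870912 536870912 536870912 536870912 33554432 16777216 true false false .dn 1 1 2
    ndF1q1 ndF3q1 pcF2 Cut.none Ext.none :=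
  certFK0 (fam := true) (s1 := false) (s2 := false) (a := 1) (b := 1) (c := 2) (cn := .dn) (n1 := ndF1q1) (n2 := ndF3q1) (pc := pcF2) (cut := Cut.none) (xt := Ext.none) (P1 := 536870912) (W1 := 536870912) (P2 := 536870912) (W2 := 536870912) (P3 := 33554432) (W3 := 16777216)
    rfl rfl rfl k0_mm_112

noncomputable def f_mm_113 : ℕ → ℕ → ℕ → ℕ → Bool := onCell 536870912 536870912 536870912 536870912 33554432 16777216
    (rowFK 0 true false false .nn 1 1 3 (qsf 536870912 536870912 536870912 536870912 3) ndF1q1 ndF3q1 pcF3 Cut.none Ext.none)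

def k0_mm_113 : ∃ t, chk3 f_mm_113 t 1 1 1 = true :=
  ⟨(l 4), by decide +kernel⟩

theorem c_mm_113 : CertF 536870912 536870912 536870912 536870912 33554432 16777216 true false false .nn 1 1 3
    ndF1q1 ndF3q1 pcF3 Cut.none Ext.none :=
  certFK0 (fam := true) (s1 := false) (s2 := false) (a := 1) (b := 1) (c := 3) (cn := .nn) (n1 := ndF1q1) (n2 := ndF3q1) (pc := pcF3) (cut := Cut.none) (xt := Ext.none) (P1 := 536870912) (W1 := 536870912) (P2 := 536870912) (W2 := 536870912) (P3 := 33554432) (W3 := 16777216)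
    rfl rfl rfl k0_mm_113

noncomputable def f_mm_123 : ℕ → ℕ → ℕ → ℕ → Bool := onCell 536870912 536870912 1073741824 536870912 33554432 16777216
    (rowFK 0 true false false .npn 1 2 3 (qsf 536870912 536870912 1073741824 536870912 3) ndF1q1 ndF3q2 pcF3 Cut.none Ext.none)

def k0_mm_123 : ∃ t, chk3 f_mm_123 t 1 1 1 = true :=
  ⟨(l 4), by decide +kernel⟩

theorem c_mm_123 : CertF 536870912 536870912 1073741824 536870912 33554432 16777216 true false false .npn 1 2 3
    ndF1q1 ndF3q2 pcF3 Cut.none Ext.none :=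
  certFK0 (fam := true) (s1 := false) (s2 := false) (a := 1) (b := 2) (c := 3) (cn := .npn) (n1 := ndF1q1) (n2 := ndF3q2) (pc := pcF3) (cut := Cut.none) (xt := Ext.none) (P1 := 536870912) (W1 := 536870912) (P2 := 1073741824) (W2 := 536870912) (P3 := 33554432) (W3 := 16777216)
    rfl rfl rfl k0_mm_123

noncomputable def f_mm_133 : ℕ → ℕ → ℕ → ℕ → Bool := onCell 536870912 536870912 0 1230186008 33554432 16777216
    (rowFK 0 true false false .dn 1 3 3 (qsf 536870912 536870912 0 1230186008 3) ndF1q1 ndF3q3 pcF3 Cut.none Ext.none)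

def k0_mm_133 : ∃ t, chk3 f_mm_133 t 1 1 1 = true :=
  ⟨(l 4), by decide +kernel⟩

theorem c_mm_133 : CertF 536870912 536870912 0 1230186008 33554432 16777216 true false false .dn 1 3 3
    ndF1q1 ndF3q3 pcF3 Cut.none Ext.none :=
  certFK0 (fam := true) (s1 := false) (s2 := false) (a := 1) (b := 3) (c := 3) (cn := .dn) (n1 := ndF1q1) (n2 := ndF3q3) (pc := pcF3) (cut := Cut.none) (xt := Ext.none) (P1 := 536870912) (W1 := 536870912) (P2 := 0) (W2 := 1230186008) (P3 := 33554432) (W3 := 16777216)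
    rfl rfl rfl k0_mm_133

noncomputable def f_mm_202_a : ℕ → ℕ → ℕ → ℕ → Bool := onCell 0 536870912 0 536870912 33554432 16777216
    (rowFK 0 true false false .pp 2 0 2 (qsf 0 536870912 0 536870912 2) ndF1q2a ndF3q0 pcF2 Cut.none Ext.none)

def k0_mm_202_a : ∃ t, chk3 f_mm_202_a t 1 1 1 = true :=
  ⟨(l 4), by decide +kernel⟩

theorem c_mm_202_a : CertF 0 536870912 0 536870912 33554432 16777216 true false false .pp 2 0 2
    ndF1q2a ndF3q0 pcF2 Cut.none Ext.none :=
  certFK0 (fam := true) (s1 := false) (s2 := false) (a := 2) (b := 0) (c := 2) (cn := .pp) (n1 := ndF1q2a) (n2 := ndF3q0) (pc := pcF2) (cut := Cut.none) (xt := Ext.none) (P1 := 0) (W1 := 536870912) (P2 := 0) (W2 := 536870912) (P3 := 33554432) (W3 := 16777216)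
    rfl rfl rfl k0_mm_202_a

noncomputable def f_mm_202_b : ℕ → ℕ → ℕ → ℕ → Bool := onCell 1239849684 370763052 0 536870912 33554432 16777216
    (rowFK 0 true false false .pp 2 0 2 (qsf 1239849684 370763052 0 536870912 2) ndF1q2b ndF3q0 pcF2 Cut.none Ext.none)

def k0_mm_202_b : ∃ t, chk3 f_mm_202_b t 1 1 1 = true :=
  ⟨(l 4), by decide +kernel⟩

theorem c_mm_202_b : CertF 1239849684 370763052 0 536870912 33554432 16777216 true false false .pp 2 0 2
    ndF1q2b ndF3q0 pcF2 Cut.none Ext.none :=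
  certFK0 (fam := true) (s1 := false) (s2 := false) (a := 2) (b := 0) (c := 2) (cn := .pp) (n1 := ndF1q2b) (n2 := ndF3q0) (pc := pcF2) (cut := Cut.none) (xt := Ext.none) (P1 := 1239849684) (W1 := 370763052) (P2 := 0) (W2 := 536870912) (P3 := 33554432) (W3 := 16777216)
    rfl rfl rfl k0_mm_202_b

noncomputable def f_mm_203_a : ℕ → ℕ → ℕ → ℕ → Bool := onCell 0 536870912 0 536870912 33554432 16777216
    (rowFK 0 true false false .up 2 0 3 (qsf 0 536870912 0 536870912 3) ndF1q2a ndF3q0 pcF3 Cut.none Ext.none)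

def k0_mm_203_a : ∃ t, chk3 f_mm_203_a t 1 1 1 = true :=
  ⟨(l 4), by decide +kernel⟩

theorem c_mm_203_a : CertF 0 536870912 0 536870912 33554432 16777216 true false false .up 2 0 3
    ndF1q2a ndF3q0 pcF3 Cut.none Ext.none :=
  certFK0 (fam := true) (s1 := false) (s2 := false) (a := 2) (b := 0) (c := 3) (cn := .up) (n1 := ndF1q2a) (n2 := ndF3q0) (pc := pcF3) (cut := Cut.none) (xt := Ext.none) (P1 := 0) (W1 := 536870912) (P2 := 0) (W2 := 536870912) (P3 := 33554432) (W3 := 16777216)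
    rfl rfl rfl k0_mm_203_a

noncomputable def f_mm_203_b : ℕ → ℕ → ℕ → ℕ → Bool := onCell 1239849684 370763052 0 536870912 33554432 16777216
    (rowFK 0 true false false .up 2 0 3 (qsf 1239849684 370763052 0 536870912 3) ndF1q2b ndF3q0 pcF3 Cut.none Ext.none)

def k0_mm_203_b : ∃ t, chk3 f_mm_203_b t 1 1 1 = true :=
  ⟨(l 4), by decide +kernel⟩

theorem c_mm_203_b : CertF 1239849684 370763052 0 536870912 33554432 16777216 true false false .up 2 0 3
    ndF1q2b ndF3q0 pcF3 Cut.none Ext.none :=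
  certFK0 (fam := true) (s1 := false) (s2 := false) (a := 2) (b := 0) (c := 3) (cn := .up) (n1 := ndF1q2b) (n2 := ndF3q0) (pc := pcF3) (cut := Cut.none) (xt := Ext.none) (P1 := 1239849684) (W1 := 370763052) (P2 := 0) (W2 := 536870912) (P3 := 33554432) (W3 := 16777216)
    rfl rfl rfl k0_mm_203_b

noncomputable def f_mm_213_a : ℕ → ℕ → ℕ → ℕ → Bool := onCell 0 536870912 536870912 536870912 33554432 16777216
    (rowFK 0 true false false .pnn 2 1 3 (qsf 0 536870912 536870912 536870912 3) ndF1q2a ndF3q1 pcF3 Cut.none Ext.none)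

def k0_mm_213_a : ∃ t, chk3 f_mm_213_a t 1 1 1 = true :=
  ⟨(l 4), by decide +kernel⟩

theorem c_mm_213_a : CertF 0 536870912 536870912 536870912 33554432 16777216 true false false .pnn 2 1 3
    ndF1q2a ndF3q1 pcF3 Cut.none Ext.none :=
  certFK0 (fam := true) (s1 := false) (s2 := false) (a := 2) (b := 1) (c := 3) (cn := .pnn) (n1 := ndF1q2a) (n2 := ndF3q1) (pc := pcF3) (cut := Cut.none) (xt := Ext.none) (P1 := 0) (W1 := 536870912) (P2 := 536870912) (W2 := 536870912) (P3 := 33554432) (W3 := 16777216)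
    rfl rfl rfl k0_mm_213_a

noncomputable def f_mm_213_b : ℕ → ℕ → ℕ → ℕ → Bool := onCell 1239849684 370763052 536870912 536870912 33554432 16777216
    (rowFK 0 true false false .pnn 2 1 3 (qsf 1239849684 370763052 536870912 536870912 3) ndF1q2b ndF3q1 pcF3 Cut.none Ext.none)

def k0_mm_213_b : ∃ t, chk3 f_mm_213_b t 1 1 1 = true :=
  ⟨(l 4), by decide +kernel⟩

theorem c_mm_213_b : CertF 1239849684 370763052 536870912 536870912 33554432 16777216 true false false .pnn 2 1 3
    ndF1q2b ndF3q1 pcF3 Cut.none Ext.none :=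
  certFK0 (fam := true) (s1 := false) (s2 := false) (a := 2) (b := 1) (c := 3) (cn := .pnn) (n1 := ndF1q2b) (n2 := ndF3q1) (pc := pcF3) (cut := Cut.none) (xt := Ext.none) (P1 := 1239849684) (W1 := 370763052) (P2 := 536870912) (W2 := 536870912) (P3 := 33554432) (W3 := 16777216)
    rfl rfl rfl k0_mm_213_b

noncomputable def f_mm_303 : ℕ → ℕ → ℕ → ℕ → Bool := onCell 1610612736 536870912 0 536870912 33554432 16777216
    (rowFK 0 true false false .npn 3 0 3 (qsf 1610612736 536870912 0 536870912 3) ndF1q3 ndF3q0 pcF3 Cut.none Ext.none)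

def k0_mm_303 : ∃ t, chk3 f_mm_303 t 1 1 1 = true :=
  ⟨(l 4), by decide +kernel⟩

theorem c_mm_303 : CertF 1610612736 536870912 0 536870912 33554432 16777216 true false false .npn 3 0 3
    ndF1q3 ndF3q0 pcF3 Cut.none Ext.none :=
  certFK0 (fam := true) (s1 := false) (s2 := false) (a := 3) (b := 0) (c := 3) (cn := .npn) (n1 := ndF1q3) (n2 := ndF3q0) (pc := pcF3) (cut := Cut.none) (xt := Ext.none) (P1 := 1610612736) (W1 := 536870912) (P2 := 0) (W2 := 536870912) (P3 := 33554432) (W3 := 16777216)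
    rfl rfl rfl k0_mm_303

noncomputable def f_mm_313 : ℕ → ℕ → ℕ → ℕ → Bool := onCell 1610612736 536870912 536870912 536870912 33554432 16777216
    (rowFK 0 true false false .dn 3 1 3 (qsf 1610612736 536870912 536870912 536870912 3) ndF1q3 ndF3q1 pcF3 Cut.none Ext.none)

def k0_mm_313 : ∃ t, chk3 f_mm_313 t 1 1 1 = true :=
  ⟨(l 4), by decide +kernel⟩

theorem c_mm_313 : CertF 1610612736 536870912 536870912 536870912 33554432 16777216 true false false .dn 3 1 3
    ndF1q3 ndF3q1 pcF3 Cut.none Ext.none :=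
  certFK0 (fam := true) (s1 := false) (s2 := false) (a := 3) (b := 1) (c := 3) (cn := .dn) (n1 := ndF1q3) (n2 := ndF3q1) (pc := pcF3) (cut := Cut.none) (xt := Ext.none) (P1 := 1610612736) (W1 := 536870912) (P2 := 536870912) (W2 := 536870912) (P3 := 33554432) (W3 := 16777216)
    rfl rfl rfl k0_mm_313

end Pool.Agent.Strip051.G.I1_32_3_64.Tab.C.FA13

namespace Pool.Agent.Strip051.G.I1_32_3_64.Tab.C.FA14

open Pool.Agent.Strip051.PB Pool.Agent.Strip051.PB.T
open Pool.Agent.Strip051.G.I1_32_3_64.Tab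

noncomputable def f_pp_001 : ℕ → ℕ → ℕ → ℕ → Bool := onCell 0 536870912 0 536870912 33554432 16777216
    (rowFK 0 true true true .up 0 0 1 (qsf 0 536870912 0 536870912 1) ndF1q0 ndF4q0 pcF1 Cut.none Ext.none)

def k0_pp_001 : ∃ t, chk3 f_pp_001 t 1 1 1 = true :=
  ⟨(l 4), by decide +kernel⟩

theorem c_pp_001 : CertF 0 536870912 0 536870912 33554432 16777216 true true true .up 0 0 1
    ndF1q0 ndF4q0 pcF1 Cut.none Ext.none :=
  certFK0 (fam := true) (s1 := true) (s2 := true) (a := 0) (b := 0) (c := 1) (cn := .up) (n1 := ndF1q0) (n2 := ndF4q0) (pc := pcF1) (cut := Cut.none) (xt := Ext.none) (P1 := 0) (W1 := 536870912) (P2 := 0) (W2 := 536870912) (P3 := 33554432) (W3 := 16777216)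
    rfl rfl rfl k0_pp_001

noncomputable def f_pp_011 : ℕ → ℕ → ℕ → ℕ → Bool := onCell 0 536870912 536870912 536870912 33554432 16777216
    (rowFK 0 true true true .pnn 0 1 1 (qsf 0 536870912 536870912 536870912 1) ndF1q0 ndF4q1 pcF1 Cut.none Ext.none)

def k0_pp_011 : ∃ t, chk3 f_pp_011 t 1 1 1 = true :=
  ⟨(l 4), by decide +kernel⟩

theorem c_pp_011 : CertF 0 536870912 536870912 536870912 33554432 16777216 true true true .pnn 0 1 1
    ndF1q0 ndF4q1 pcF1 Cut.none Ext.none :=
  certFK0 (fam := true) (s1 := true) (s2 := true) (a := 0) (b := 1) (c := 1) (cn := .pnn) (n1 := ndF1q0) (n2 := ndF4q1) (pc := pcF1) (cut := Cut.none) (xt := Ext.none) (P1 := 0) (W1 := 536870912) (P2 := 536870912) (W2 := 536870912) (P3 := 33554432) (W3 := 16777216)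
    rfl rfl rfl k0_pp_011

noncomputable def f_pp_012 : ℕ → ℕ → ℕ → ℕ → Bool := onCell 0 536870912 536870912 536870912 33554432 16777216
    (rowFK 0 true true true .pnp 0 1 2 (qsf 0 536870912 536870912 536870912 2) ndF1q0 ndF4q1 pcF2 Cut.none Ext.none)

def k0_pp_012 : ∃ t, chk3 f_pp_012 t 1 1 1 = true :=
  ⟨(l 4), by decide +kernel⟩

theorem c_pp_012 : CertF 0 536870912 536870912 536870912 33554432 16777216 true true true .pnp 0 1 2
    ndF1q0 ndF4q1 pcF2 Cut.none Ext.none :=
  certFK0 (fam := true) (s1 := true) (s2 := true) (a := 0) (b := 1) (c := 2) (cn := .pnp) (n1 := ndF1q0) (n2 := ndF4q1) (pc := pcF2) (cut := Cut.none) (xt := Ext.none) (P1 := 0) (W1 := 536870912) (P2 := 536870912) (W2 := 536870912) (P3 := 33554432) (W3 := 16777216)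
    rfl rfl rfl k0_pp_012

noncomputable def f_pp_022 : ℕ → ℕ → ℕ → ℕ → Bool := onCell 0 536870912 1073741824 536870912 33554432 16777216
    (rowFK 0 true true true .pp 0 2 2 (qsf 0 536870912 1073741824 536870912 2) ndF1q0 ndF4q2 pcF2 Cut.none Ext.none)

def k0_pp_022 : ∃ t, chk3 f_pp_022 t 1 1 1 = true :=
  ⟨(l 4), by decide +kernel⟩

theorem c_pp_022 : CertF 0 536870912 1073741824 536870912 33554432 16777216 true true true .pp 0 2 2
    ndF1q0 ndF4q2 pcF2 Cut.none Ext.none :=
  certFK0 (fam := true) (s1 := true) (s2 := true) (a := 0) (b := 2) (c := 2) (cn := .pp) (n1 := ndF1q0) (n2 := ndF4q2) (pc := pcF2) (cut := Cut.none) (xt := Ext.none) (P1 := 0) (W1 := 536870912) (P2 := 1073741824) (W2 := 536870912) (P3 := 33554432) (W3 := 16777216)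
    rfl rfl rfl k0_pp_022

noncomputable def f_pp_023 : ℕ → ℕ → ℕ → ℕ → Bool := onCell 0 536870912 1073741824 536870912 33554432 16777216
    (rowFK 0 true true true .up 0 2 3 (qsf 0 536870912 1073741824 536870912 3) ndF1q0 ndF4q2 pcF3 Cut.none Ext.none)

def k0_pp_023 : ∃ t, chk3 f_pp_023 t 1 1 1 = true :=
  ⟨(l 4), by decide +kernel⟩

theorem c_pp_023 : CertF 0 536870912 1073741824 536870912 33554432 16777216 true true true .up 0 2 3
    ndF1q0 ndF4q2 pcF3 Cut.none Ext.none :=
  certFK0 (fam := true) (s1 := true) (s2 := true) (a := 0) (b := 2) (c := 3) (cn := .up) (n1 := ndF1q0) (n2 := ndF4q2) (pc := pcF3) (cut := Cut.none) (xt := Ext.none) (P1 := 0) (W1 := 536870912) (P2 := 1073741824) (W2 := 536870912) (P3 := 33554432) (W3 := 16777216)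
    rfl rfl rfl k0_pp_023

noncomputable def f_pp_033 : ℕ → ℕ → ℕ → ℕ → Bool := onCell 0 536870912 0 1230186008 33554432 16777216
    (rowFK 0 true true true .pnn 0 3 3 (qsf 0 536870912 0 1230186008 3) ndF1q0 ndF4q3 pcF3 Cut.none Ext.none)

def k0_pp_033 : ∃ t, chk3 f_pp_033 t 1 1 1 = true :=
  ⟨(l 4), by decide +kernel⟩

theorem c_pp_033 : CertF 0 536870912 0 1230186008 33554432 16777216 true true true .pnn 0 3 3
    ndF1q0 ndF4q3 pcF3 Cut.none Ext.none :=
  certFK0 (fam := true) (s1 := true) (s2 := true) (a := 0) (b := 3) (c := 3) (cn := .pnn) (n1 := ndF1q0) (n2 := ndF4q3) (pc := pcF3) (cut := Cut.none) (xt := Ext.none) (P1 := 0) (W1 := 536870912) (P2 := 0) (W2 := 1230186008) (P3 := 33554432) (W3 := 16777216)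
    rfl rfl rfl k0_pp_033

noncomputable def f_pp_101 : ℕ → ℕ → ℕ → ℕ → Bool := onCell 536870912 536870912 0 536870912 33554432 16777216
    (rowFK 0 true true true .npn 1 0 1 (qsf 536870912 536870912 0 536870912 1) ndF1q1 ndF4q0 pcF1 Cut.none Ext.none)

def k0_pp_101 : ∃ t, chk3 f_pp_101 t 1 1 1 = true :=
  ⟨(l 4), by decide +kernel⟩

theorem c_pp_101 : CertF 536870912 536870912 0 536870912 33554432 16777216 true true true .npn 1 0 1
    ndF1q1 ndF4q0 pcF1 Cut.none Ext.none :=
  certFK0 (fam := true) (s1 := true) (s2 := true) (a := 1) (b := 0) (c := 1) (cn := .npn) (n1 := ndF1q1) (n2 := ndF4q0) (pc := pcF1) (cut := Cut.none) (xt := Ext.none) (P1 := 536870912) (W1 := 536870912) (P2 := 0) (W2 := 536870912) (P3 := 33554432) (W3 := 16777216)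
    rfl rfl rfl k0_pp_101

noncomputable def f_pp_102 : ℕ → ℕ → ℕ → ℕ → Bool := onCell 536870912 536870912 0 536870912 33554432 16777216
    (rowFK 0 true true true .npp 1 0 2 (qsf 536870912 536870912 0 536870912 2) ndF1q1 ndF4q0 pcF2 Cut.none Ext.none)

def k0_pp_102 : ∃ t, chk3 f_pp_102 t 1 1 1 = true :=
  ⟨(l 4), by decide +kernel⟩

theorem c_pp_102 : CertF 536870912 536870912 0 536870912 33554432 16777216 true true true .npp 1 0 2
    ndF1q1 ndF4q0 pcF2 Cut.none Ext.none :=
  certFK0 (fam := true) (s1 := true) (s2 := true) (a := 1) (b := 0) (c := 2) (cn := .npp) (n1 := ndF1q1) (n2 := ndF4q0) (pc := pcF2) (cut := Cut.none) (xt := Ext.none) (P1 := 536870912) (W1 := 536870912) (P2 := 0) (W2 := 536870912) (P3 := 33554432) (W3 := 16777216)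
    rfl rfl rfl k0_pp_102

noncomputable def f_pp_112 : ℕ → ℕ → ℕ → ℕ → Bool := onCell 536870912 536870912 536870912 536870912 33554432 16777216
    (rowFK 0 true true true .dn 1 1 2 (qsf 536870912 536870912 536870912 536870912 2) ndF1q1 ndF4q1 pcF2 Cut.none Ext.none)

def k0_pp_112 : ∃ t, chk3 f_pp_112 t 1 1 1 = true :=
  ⟨(l 4), by decide +kernel⟩

theorem c_pp_112 : CertF 536870912 536870912 536870912 536870912 33554432 16777216 true true true .dn 1 1 2
    ndF1q1 ndF4q1 pcF2 Cut.none Ext.none :=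
  certFK0 (fam := true) (s1 := true) (s2 := true) (a := 1) (b := 1) (c := 2) (cn := .dn) (n1 := ndF1q1) (n2 := ndF4q1) (pc := pcF2) (cut := Cut.none) (xt := Ext.none) (P1 := 536870912) (W1 := 536870912) (P2 := 536870912) (W2 := 536870912) (P3 := 33554432) (W3 := 16777216)
    rfl rfl rfl k0_pp_112

noncomputable def f_pp_113 : ℕ → ℕ → ℕ → ℕ → Bool := onCell 536870912 536870912 536870912 536870912 33554432 16777216
    (rowFK 0 true true true .nn 1 1 3 (qsf 536870912 536870912 536870912 536870912 3) ndF1q1 ndF4q1 pcF3 Cut.none Ext.none)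

def k0_pp_113 : ∃ t, chk3 f_pp_113 t 1 1 1 = true :=
  ⟨(l 4), by decide +kernel⟩

theorem c_pp_113 : CertF 536870912 536870912 536870912 536870912 33554432 16777216 true true true .nn 1 1 3
    ndF1q1 ndF4q1 pcF3 Cut.none Ext.none :=
  certFK0 (fam := true) (s1 := true) (s2 := true) (a := 1) (b := 1) (c := 3) (cn := .nn) (n1 := ndF1q1) (n2 := ndF4q1) (pc := pcF3) (cut := Cut.none) (xt := Ext.none) (P1 := 536870912) (W1 := 536870912) (P2 := 536870912) (W2 := 536870912) (P3 := 33554432) (W3 := 16777216)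
    rfl rfl rfl k0_pp_113

noncomputable def f_pp_123 : ℕ → ℕ → ℕ → ℕ → Bool := onCell 536870912 536870912 1073741824 536870912 33554432 16777216
    (rowFK 0 true true true .npn 1 2 3 (qsf 536870912 536870912 1073741824 536870912 3) ndF1q1 ndF4q2 pcF3 Cut.none Ext.none)

def k0_pp_123 : ∃ t, chk3 f_pp_123 t 1 1 1 = true :=
  ⟨(l 4), by decide +kernel⟩

theorem c_pp_123 : CertF 536870912 536870912 1073741824 536870912 33554432 16777216 true true true .npn 1 2 3
    ndF1q1 ndF4q2 pcF3 Cut.none Ext.none :=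
  certFK0 (fam := true) (s1 := true) (s2 := true) (a := 1) (b := 2) (c := 3) (cn := .npn) (n1 := ndF1q1) (n2 := ndF4q2) (pc := pcF3) (cut := Cut.none) (xt := Ext.none) (P1 := 536870912) (W1 := 536870912) (P2 := 1073741824) (W2 := 536870912) (P3 := 33554432) (W3 := 16777216)
    rfl rfl rfl k0_pp_123

noncomputable def f_pp_133 : ℕ → ℕ → ℕ → ℕ → Bool := onCell 536870912 536870912 0 1230186008 33554432 16777216
    (rowFK 0 true true true .dn 1 3 3 (qsf 536870912 536870912 0 1230186008 3) ndF1q1 ndF4q3 pcF3 Cut.none Ext.none)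

def k0_pp_133 : ∃ t, chk3 f_pp_133 t 1 1 1 = true :=
  ⟨(l 4), by decide +kernel⟩

theorem c_pp_133 : CertF 536870912 536870912 0 1230186008 33554432 16777216 true true true .dn 1 3 3
    ndF1q1 ndF4q3 pcF3 Cut.none Ext.none :=
  certFK0 (fam := true) (s1 := true) (s2 := true) (a := 1) (b := 3) (c := 3) (cn := .dn) (n1 := ndF1q1) (n2 := ndF4q3) (pc := pcF3) (cut := Cut.none) (xt := Ext.none) (P1 := 536870912) (W1 := 536870912) (P2 := 0) (W2 := 1230186008) (P3 := 33554432) (W3 := 16777216)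
    rfl rfl rfl k0_pp_133

noncomputable def f_pp_202_a : ℕ → ℕ → ℕ → ℕ → Bool := onCell 0 536870912 0 536870912 33554432 16777216
    (rowFK 0 true true true .pp 2 0 2 (qsf 0 536870912 0 536870912 2) ndF1q2a ndF4q0 pcF2 Cut.none Ext.none)

def k0_pp_202_a : ∃ t, chk3 f_pp_202_a t 1 1 1 = true :=
  ⟨(l 4), by decide +kernel⟩

theorem c_pp_202_a : CertF 0 536870912 0 536870912 33554432 16777216 true true true .pp 2 0 2
    ndF1q2a ndF4q0 pcF2 Cut.none Ext.none :=
  certFK0 (fam := true) (s1 := true) (s2 := true) (a := 2) (b := 0) (c := 2) (cn := .pp) (n1 := ndF1q2a) (n2 := ndF4q0) (pc := pcF2) (cut := Cut.none) (xt := Ext.none) (P1 := 0) (W1 := 536870912) (P2 := 0) (W2 := 536870912) (P3 := 33554432) (W3 := 16777216)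
    rfl rfl rfl k0_pp_202_a

noncomputable def f_pp_202_b : ℕ → ℕ → ℕ → ℕ → Bool := onCell 1239849684 370763052 0 536870912 33554432 16777216
    (rowFK 0 true true true .pp 2 0 2 (qsf 1239849684 370763052 0 536870912 2) ndF1q2b ndF4q0 pcF2 Cut.none Ext.none)

def k0_pp_202_b : ∃ t, chk3 f_pp_202_b t 1 1 1 = true :=
  ⟨(l 4), by decide +kernel⟩

theorem c_pp_202_b : CertF 1239849684 370763052 0 536870912 33554432 16777216 true true true .pp 2 0 2
    ndF1q2b ndF4q0 pcF2 Cut.none Ext.none :=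
  certFK0 (fam := true) (s1 := true) (s2 := true) (a := 2) (b := 0) (c := 2) (cn := .pp) (n1 := ndF1q2b) (n2 := ndF4q0) (pc := pcF2) (cut := Cut.none) (xt := Ext.none) (P1 := 1239849684) (W1 := 370763052) (P2 := 0) (W2 := 536870912) (P3 := 33554432) (W3 := 16777216)
    rfl rfl rfl k0_pp_202_b

noncomputable def f_pp_203_a : ℕ → ℕ → ℕ → ℕ → Bool := onCell 0 536870912 0 536870912 33554432 16777216
    (rowFK 0 true true true .up 2 0 3 (qsf 0 536870912 0 536870912 3) ndF1q2a ndF4q0 pcF3 Cut.none Ext.none)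

def k0_pp_203_a : ∃ t, chk3 f_pp_203_a t 1 1 1 = true :=
  ⟨(l 4), by decide +kernel⟩

theorem c_pp_203_a : CertF 0 536870912 0 536870912 33554432 16777216 true true true .up 2 0 3
    ndF1q2a ndF4q0 pcF3 Cut.none Ext.none :=
  certFK0 (fam := true) (s1 := true) (s2 := true) (a := 2) (b := 0) (c := 3) (cn := .up) (n1 := ndF1q2a) (n2 := ndF4q0) (pc := pcF3) (cut := Cut.none) (xt := Ext.none) (P1 := 0) (W1 := 536870912) (P2 := 0) (W2 := 536870912) (P3 := 33554432) (W3 := 16777216)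
    rfl rfl rfl k0_pp_203_a

noncomputable def f_pp_203_b : ℕ → ℕ → ℕ → ℕ → Bool := onCell 1239849684 370763052 0 536870912 33554432 16777216
    (rowFK 0 true true true .up 2 0 3 (qsf 1239849684 370763052 0 536870912 3) ndF1q2b ndF4q0 pcF3 Cut.none Ext.none)

def k0_pp_203_b : ∃ t, chk3 f_pp_203_b t 1 1 1 = true :=
  ⟨(l 4), by decide +kernel⟩

theorem c_pp_203_b : CertF 1239849684 370763052 0 536870912 33554432 16777216 true true true .up 2 0 3
    ndF1q2b ndF4q0 pcF3 Cut.none Ext.none :=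
  certFK0 (fam := true) (s1 := true) (s2 := true) (a := 2) (b := 0) (c := 3) (cn := .up) (n1 := ndF1q2b) (n2 := ndF4q0) (pc := pcF3) (cut := Cut.none) (xt := Ext.none) (P1 := 1239849684) (W1 := 370763052) (P2 := 0) (W2 := 536870912) (P3 := 33554432) (W3 := 16777216)
    rfl rfl rfl k0_pp_203_b

noncomputable def f_pp_213_a : ℕ → ℕ → ℕ → ℕ → Bool := onCell 0 536870912 536870912 536870912 33554432 16777216
    (rowFK 0 true true true .pnn 2 1 3 (qsf 0 536870912 536870912 536870912 3) ndF1q2a ndF4q1 pcF3 Cut.none Ext.none)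

def k0_pp_213_a : ∃ t, chk3 f_pp_213_a t 1 1 1 = true :=
  ⟨(l 4), by decide +kernel⟩

theorem c_pp_213_a : CertF 0 536870912 536870912 536870912 33554432 16777216 true true true .pnn 2 1 3
    ndF1q2a ndF4q1 pcF3 Cut.none Ext.none :=
  certFK0 (fam := true) (s1 := true) (s2 := true) (a := 2) (b := 1) (c := 3) (cn := .pnn) (n1 := ndF1q2a) (n2 := ndF4q1) (pc := pcF3) (cut := Cut.none) (xt := Ext.none) (P1 := 0) (W1 := 536870912) (P2 := 536870912) (W2 := 536870912) (P3 := 33554432) (W3 := 16777216)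
    rfl rfl rfl k0_pp_213_a

noncomputable def f_pp_213_b : ℕ → ℕ → ℕ → ℕ → Bool := onCell 1239849684 370763052 536870912 536870912 33554432 16777216
    (rowFK 0 true true true .pnn 2 1 3 (qsf 1239849684 370763052 536870912 536870912 3) ndF1q2b ndF4q1 pcF3 Cut.none Ext.none)

def k0_pp_213_b : ∃ t, chk3 f_pp_213_b t 1 1 1 = true :=
  ⟨(l 4), by decide +kernel⟩

theorem c_pp_213_b : CertF 1239849684 370763052 536870912 536870912 33554432 16777216 true true true .pnn 2 1 3
    ndF1q2b ndF4q1 pcF3 Cut.none Ext.none :=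
  certFK0 (fam := true) (s1 := true) (s2 := true) (a := 2) (b := 1) (c := 3) (cn := .pnn) (n1 := ndF1q2b) (n2 := ndF4q1) (pc := pcF3) (cut := Cut.none) (xt := Ext.none) (P1 := 1239849684) (W1 := 370763052) (P2 := 536870912) (W2 := 536870912) (P3 := 33554432) (W3 := 16777216)
    rfl rfl rfl k0_pp_213_b

noncomputable def f_pp_303 : ℕ → ℕ → ℕ → ℕ → Bool := onCell 1610612736 536870912 0 536870912 33554432 16777216
    (rowFK 0 true true true .npn 3 0 3 (qsf 1610612736 536870912 0 536870912 3) ndF1q3 ndF4q0 pcF3 Cut.none Ext.none)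

def k0_pp_303 : ∃ t, chk3 f_pp_303 t 1 1 1 = true :=
  ⟨(l 4), by decide +kernel⟩

theorem c_pp_303 : CertF 1610612736 536870912 0 536870912 33554432 16777216 true true true .npn 3 0 3
    ndF1q3 ndF4q0 pcF3 Cut.none Ext.none :=
  certFK0 (fam := true) (s1 := true) (s2 := true) (a := 3) (b := 0) (c := 3) (cn := .npn) (n1 := ndF1q3) (n2 := ndF4q0) (pc := pcF3) (cut := Cut.none) (xt := Ext.none) (P1 := 1610612736) (W1 := 536870912) (P2 := 0) (W2 := 536870912) (P3 := 33554432) (W3 := 16777216)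
    rfl rfl rfl k0_pp_303

noncomputable def f_pp_313 : ℕ → ℕ → ℕ → ℕ → Bool := onCell 1610612736 536870912 536870912 536870912 33554432 16777216
    (rowFK 0 true true true .dn 3 1 3 (qsf 1610612736 536870912 536870912 536870912 3) ndF1q3 ndF4q1 pcF3 Cut.none Ext.none)

def k0_pp_313 : ∃ t, chk3 f_pp_313 t 1 1 1 = true :=
  ⟨(l 4), by decide +kernel⟩

theorem c_pp_313 : CertF 1610612736 536870912 536870912 536870912 33554432 16777216 true true true .dn 3 1 3
    ndF1q3 ndF4q1 pcF3 Cut.none Ext.none :=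
  certFK0 (fam := true) (s1 := true) (s2 := true) (a := 3) (b := 1) (c := 3) (cn := .dn) (n1 := ndF1q3) (n2 := ndF4q1) (pc := pcF3) (cut := Cut.none) (xt := Ext.none) (P1 := 1610612736) (W1 := 536870912) (P2 := 536870912) (W2 := 536870912) (P3 := 33554432) (W3 := 16777216)
    rfl rfl rfl k0_pp_313

noncomputable def f_pm_001 : ℕ → ℕ → ℕ → ℕ → Bool := onCell 0 536870912 536870912 536870912 33554432 16777216
    (rowFK 1 true true false .up 0 0 1 (qsf 0 536870912 0 536870912 1) ndF1q0 ndF4q0 pcF1 Cut.none Ext.none)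

def k0_pm_001 : ∃ t, chk3 f_pm_001 t 1 1 1 = true :=
  ⟨(b (l 3) (b (l 3) (a (l 2) (b (l 3) (a (l 2) (l 17334528)))))), by decide +kernel⟩

theorem c_pm_001 : CertF 0 536870912 0 536870912 33554432 16777216 true true false .up 0 0 1
    ndF1q0 ndF4q0 pcF1 Cut.none Ext.none :=
  certFK1 (fam := true) (s1 := true) (s2 := false) (a := 0) (b := 0) (c := 1) (cn := .up) (n1 := ndF1q0) (n2 := ndF4q0) (pc := pcF1) (cut := Cut.none) (xt := Ext.none) (P1 := 0) (W1 := 536870912) (P2 := 0) (W2 := 536870912) (P3 := 33554432) (W3 := 16777216)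
    rfl rfl rfl (fun _ => rfl) k0_pm_001

noncomputable def cut_pm_011 : Cut := Cut.of [[⟨0, 0, 0, 33554432⟩, ⟨1, 1, 0, 33554432⟩, ⟨2, 1, 0, 33554432⟩]]

noncomputable def f_pm_011 : ℕ → ℕ → ℕ → ℕ → Bool := onCell 0 536870912 536870912 536870912 33554432 16777216
    (rowFK 1 true true false .pnn 0 1 1 (qsf 0 536870912 536870912 536870912 1) ndF1q0 ndF4q1 pcF1 cut_pm_011 Ext.none)

def k0_pm_011 : ∃ t, chk3 f_pm_011 t 1 1 1 = true :=
  ⟨(b (l 3) (b (l 3) (b (l 3) (a (a (a (b (l 3) (a (b (l 3) (a (b (l 3) (l 6)) (l 3))) (l 3))) (l 3)) (l 3)) (a (l 1733188371751) (l 17363312)))))), by decide +kernel⟩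

theorem c_pm_011 : CertF 0 536870912 536870912 536870912 33554432 16777216 true true false .pnn 0 1 1
    ndF1q0 ndF4q1 pcF1 cut_pm_011 Ext.none :=
  certFK1 (fam := true) (s1 := true) (s2 := false) (a := 0) (b := 1) (c := 1) (cn := .pnn) (n1 := ndF1q0) (n2 := ndF4q1) (pc := pcF1) (cut := cut_pm_011) (xt := Ext.none) (P1 := 0) (W1 := 536870912) (P2 := 536870912) (W2 := 536870912) (P3 := 33554432) (W3 := 16777216)
    rfl rfl rfl (fun _ => rfl) k0_pm_011

noncomputable def cut_pm_012 : Cut := Cut.of [[⟨0, 0, 0, 33554432⟩, ⟨1, 1, 0, 33554432⟩, ⟨2, 1, 0, 33554432⟩]]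

noncomputable def f_pm_012 : ℕ → ℕ → ℕ → ℕ → Bool := onCell 1073741824 536870912 536870912 536870912 33554432 16777216
    (rowFK 2 true true false .pnp 0 1 2 (qsf 0 536870912 536870912 536870912 2) ndF1q0 ndF4q1 pcF2 cut_pm_012 Ext.none)

def k0_pm_012 : ∃ t, chk3 f_pm_012 t 1 1 1 = true :=
  ⟨(a (b (a (a (a (a (a (l 17715704) (l 17745480)) (l 17800648)) (l 18080208)) (b (l 17884272) (l 18395488))) (l 18550440)) (b (a (a (a (a (l 18136976) (l 18341272)) (l 18612760)) (l 19016120)) (l 19476232)) (a (a (a (b (a (l 18094704) (l 18466440)) (a (a (b (l 344839903175) (b (a (l 3) (l 16771016)) (l 6))) (b (l 17668008) (b (l 16754360) (b (l 16757312) (l 6))))) (b (l 18178024) (b (a (l 17054848) (l 17659336)) (a (b (l 16721552) (l 16728656)) (l 16694760)))))) (b (l 18934600) (b (l 18971640) (a (b (l 18376296) (b (l 17858864) (l 17182424))) (b (l 19066416) (l 18745696)))))) (b (l 19562344) (b (l 19893640) (a (l 19735960) (l 20345784))))) (b (l 20162696) (l 20725960)))))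 (b (b (l 2) (l 18944544)) (b (l 19720128) (l 20597144)))), by decide +kernel⟩

theorem c_pm_012 : CertF 0 536870912 536870912 536870912 33554432 16777216 true true false .pnp 0 1 2
    ndF1q0 ndF4q1 pcF2 cut_pm_012 Ext.none :=
  certFK2 (fam := true) (s1 := true) (s2 := false) (a := 0) (b := 1) (c := 2) (cn := .pnp) (n1 := ndF1q0) (n2 := ndF4q1) (pc := pcF2) (cut := cut_pm_012) (xt := Ext.none) (P1 := 0) (W1 := 536870912) (P2 := 536870912) (W2 := 536870912) (P3 := 33554432) (W3 := 16777216)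
    rfl rfl rfl (fun _ => rfl) k0_pm_012

noncomputable def cut_pm_022 : Cut := Cut.of [[⟨0, 0, 0, 33554432⟩, ⟨1, 1, 0, 33554432⟩, ⟨2, 1, 0, 33554432⟩]]

noncomputable def f_pm_022 : ℕ → ℕ → ℕ → ℕ → Bool := onCell 0 536870912 1073741824 536870912 33554432 16777216
    (rowFK 0 true true false .pp 0 2 2 (qsf 0 536870912 1073741824 536870912 2) ndF1q0 ndF4q2 pcF2 cut_pm_022 Ext.none)

def k0_pm_022 : ∃ t, chk3 f_pm_022 t 1 1 1 = true :=
  ⟨(a (b (a (b (a (b (b (a (b (a (b (l 6) (a (l 6) (l 16740896))) (a (l 16761896) (l 16697224))) (a (a (a (b (l 6) (a (b (l 6) (l 16745568)) (l 16742424))) (l 16742000)) (l 16730736)) (a (l 17135040) (l 17869952)))) (a (b (b (l 17200856) (l 17969472)) (l 18668392)) (l 19157272))) (a (a (a (b (a (a (a (a (a (l 16724496) (l 16749328)) (l 16786296)) (l 16796288)) (l 16833120)) (b (l 16908064) (l 17523696))) (a (b (c (l 18095384) (a (l 17254064) (l 17534848))) (l 18083640)) (l 18104416))) (b (a (l 17529448) (l 17883280)) (l 18506184)))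 (b (l 18404616) (l 18996664))) (a (l 19358264) (l 19774704)))) (a (b (a (b (a (l 18657880) (l 18942752)) (l 19112088)) (l 19406016)) (l 19537128)) (b (l 19870304) (l 19978640)))) (b (b (a (l 19955760) (l 20536592)) (a (l 20205624) (l 20564456))) (l 20394328))) (a (b (a (l 19721632) (l 19998728)) (l 19814392)) (l 20162176))) (b (b (a (l 20901672) (l 21086448)) (l 20740728)) (l 20311840))) (b (l 19649216) (l 19100024))) (b (b (l 20849032) (l 20166680)) (b (l 19417288) (l 2)))), by decide +kernel⟩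

theorem c_pm_022 : CertF 0 536870912 1073741824 536870912 33554432 16777216 true true false .pp 0 2 2
    ndF1q0 ndF4q2 pcF2 cut_pm_022 Ext.none :=
  certFK0 (fam := true) (s1 := true) (s2 := false) (a := 0) (b := 2) (c := 2) (cn := .pp) (n1 := ndF1q0) (n2 := ndF4q2) (pc := pcF2) (cut := cut_pm_022) (xt := Ext.none) (P1 := 0) (W1 := 536870912) (P2 := 1073741824) (W2 := 536870912) (P3 := 33554432) (W3 := 16777216)
    rfl rfl rfl k0_pm_022

noncomputable def f_pm_023 : ℕ → ℕ → ℕ → ℕ → Bool := onCell 0 536870912 1073741824 536870912 33554432 16777216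
    (rowFK 0 true true false .up 0 2 3 (qsf 0 536870912 1073741824 536870912 3) ndF1q0 ndF4q2 pcF3 Cut.none Ext.none)

def k0_pm_023 : ∃ t, chk3 f_pm_023 t 1 1 1 = true :=
  ⟨(a (b (a (l 1) (l 411284654327)) (b (a (l 539059044391) (l 19886040)) (a (l 476781270855) (l 19335264)))) (b (b (l 20623480) (l 489129991431)) (b (a (l 19530864) (l 19221624)) (a (l 18970960) (b (l 18749496) (a (l 18609064) (a (l 18497008) (b (l 18465480) (a (l 18400328) (b (l 18383056) (a (l 18355904) (b (l 18346816) (a (l 18334432) (l 18325768)))))))))))))), by decide +kernel⟩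

theorem c_pm_023 : CertF 0 536870912 1073741824 536870912 33554432 16777216 true true false .up 0 2 3
    ndF1q0 ndF4q2 pcF3 Cut.none Ext.none :=
  certFK0 (fam := true) (s1 := true) (s2 := false) (a := 0) (b := 2) (c := 3) (cn := .up) (n1 := ndF1q0) (n2 := ndF4q2) (pc := pcF3) (cut := Cut.none) (xt := Ext.none) (P1 := 0) (W1 := 536870912) (P2 := 1073741824) (W2 := 536870912) (P3 := 33554432) (W3 := 16777216)
    rfl rfl rfl k0_pm_023

noncomputable def f_pm_033 : ℕ → ℕ → ℕ → ℕ → Bool := onCell 1610612736 536870912 0 1230186008 33554432 16777216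
    (rowFK 2 true true false .pnn 0 3 3 (qsf 0 536870912 0 1230186008 3) ndF1q0 ndF4q3 pcF3 Cut.none Ext.none)

def k0_pm_033 : ∃ t, chk3 f_pm_033 t 1 1 1 = true :=
  ⟨(a (b (l 1) (b (b (l 1) (a (l 1) (a (l 1) (a (l 1) (l 18004096))))) (b (a (l 1) (a (l 18610528) (b (l 18108152) (l 18455816)))) (a (b (l 19749560) (l 19493768)) (l 18968040))))) (a (b (l 1) (b (b (a (l 1) (l 18501176)) (a (l 301222488871) (l 18560296))) (b (a (l 18573312) (l 18497792)) (b (l 18647312) (l 18688840))))) (b (b (a (l 1) (l 4)) (a (l 18263232) (a (l 18297424) (l 4)))) (a (b (l 18429720) (b (l 18571376) (l 18534392))) (a (b (l 18359736) (b (l 18450320) (l 18458608))) (b (a (l 18310720) (b (l 4) (l 4))) (a (b (l 18404192) (l 18413648)) (a (l 18305520) (b (l 18391608) (l 18382448)))))))))), by decide +kernel⟩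

theorem c_pm_033 : CertF 0 536870912 0 1230186008 33554432 16777216 true true false .pnn 0 3 3
    ndF1q0 ndF4q3 pcF3 Cut.none Ext.none :=
  certFK2 (fam := true) (s1 := true) (s2 := false) (a := 0) (b := 3) (c := 3) (cn := .pnn) (n1 := ndF1q0) (n2 := ndF4q3) (pc := pcF3) (cut := Cut.none) (xt := Ext.none) (P1 := 0) (W1 := 536870912) (P2 := 0) (W2 := 1230186008) (P3 := 33554432) (W3 := 16777216)
    rfl rfl rfl (fun _ => rfl) k0_pm_033

noncomputable def f_pm_101 : ℕ → ℕ → ℕ → ℕ → Bool := onCell 536870912 536870912 536870912 536870912 33554432 16777216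
    (rowFK 1 true true false .npn 1 0 1 (qsf 536870912 536870912 0 536870912 1) ndF1q1 ndF4q0 pcF1 Cut.none Ext.none)

def k0_pm_101 : ∃ t, chk3 f_pm_101 t 1 1 1 = true :=
  ⟨(b (l 3) (b (a (l 3) (b (l 18592680) (l 18728232))) (a (b (l 437721981063) (l 19265192)) (b (l 19038008) (l 19279024))))), by decide +kernel⟩

theorem c_pm_101 : CertF 536870912 536870912 0 536870912 33554432 16777216 true true false .npn 1 0 1
    ndF1q1 ndF4q0 pcF1 Cut.none Ext.none :=
  certFK1 (fam := true) (s1 := true) (s2 := false) (a := 1) (b := 0) (c := 1) (cn := .npn) (n1 := ndF1q1) (n2 := ndF4q0) (pc := pcF1) (cut := Cut.none) (xt := Ext.none) (P1 := 536870912) (W1 := 536870912) (P2 := 0) (W2 := 536870912) (P3 := 33554432) (W3 := 16777216)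
    rfl rfl rfl (fun _ => rfl) k0_pm_101

noncomputable def f_pm_102 : ℕ → ℕ → ℕ → ℕ → Bool := onCell 1073741824 536870912 0 536870912 33554432 16777216
    (rowFK 2 true true false .npp 1 0 2 (qsf 536870912 536870912 0 536870912 2) ndF1q1 ndF4q0 pcF2 Cut.none Ext.none)

def k0_pm_102 : ∃ t, chk3 f_pm_102 t 1 1 1 = true :=
  ⟨(a (b (a (a (a (a (a (l 19418104) (l 19398952)) (l 19369640)) (l 19307936)) (l 19198696)) (l 19028136)) (a (a (a (a (a (l 19209176) (l 19192584)) (l 19166632)) (l 19109056)) (l 19006488)) (l 18804224))) (b (a (b (l 2) (l 18587512)) (l 2)) (a (b (l 18543704) (l 18447472)) (b (a (l 18261592) (l 2)) (l 18161760))))), by decide +kernel⟩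

theorem c_pm_102 : CertF 536870912 536870912 0 536870912 33554432 16777216 true true false .npp 1 0 2
    ndF1q1 ndF4q0 pcF2 Cut.none Ext.none :=
  certFK2 (fam := true) (s1 := true) (s2 := false) (a := 1) (b := 0) (c := 2) (cn := .npp) (n1 := ndF1q1) (n2 := ndF4q0) (pc := pcF2) (cut := Cut.none) (xt := Ext.none) (P1 := 536870912) (W1 := 536870912) (P2 := 0) (W2 := 536870912) (P3 := 33554432) (W3 := 16777216)
    rfl rfl rfl (fun _ => rfl) k0_pm_102

noncomputable def f_pm_112 : ℕ → ℕ → ℕ → ℕ → Bool := onCell 1073741824 536870912 536870912 536870912 33554432 16777216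
    (rowFK 2 true true false .dn 1 1 2 (qsf 536870912 536870912 536870912 536870912 2) ndF1q1 ndF4q1 pcF2 Cut.none Ext.none)

def k0_pm_112 : ∃ t, chk3 f_pm_112 t 1 1 1 = true :=
  ⟨(a (b (a (a (a (a (a (l 19326864) (l 19323000)) (l 19314368)) (l 19287096)) (l 19220432)) (l 19052576)) (a (l 1) (l 19701744))) (b (l 18655024) (l 19320616))), by decide +kernel⟩

theorem c_pm_112 : CertF 536870912 536870912 536870912 536870912 33554432 16777216 true true false .dn 1 1 2
    ndF1q1 ndF4q1 pcF2 Cut.none Ext.none :=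
  certFK2 (fam := true) (s1 := true) (s2 := false) (a := 1) (b := 1) (c := 2) (cn := .dn) (n1 := ndF1q1) (n2 := ndF4q1) (pc := pcF2) (cut := Cut.none) (xt := Ext.none) (P1 := 536870912) (W1 := 536870912) (P2 := 536870912) (W2 := 536870912) (P3 := 33554432) (W3 := 16777216)
    rfl rfl rfl (fun _ => rfl) k0_pm_112

noncomputable def f_pm_113 : ℕ → ℕ → ℕ → ℕ → Bool := onCell 1610612736 536870912 536870912 536870912 33554432 16777216
    (rowFK 2 true true false .nn 1 1 3 (qsf 536870912 536870912 536870912 536870912 3) ndF1q1 ndF4q1 pcF3 Cut.none Ext.none)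

def k0_pm_113 : ∃ t, chk3 f_pm_113 t 1 1 1 = true :=
  ⟨(b (a (a (b (l 17602040) (l 18097792)) (b (a (l 17340440) (l 2)) (l 17768864))) (a (a (l 17252744) (l 2)) (l 2))) (a (a (b (l 18783088) (l 19139384)) (b (l 18196640) (l 18780896))) (a (a (l 18170512) (l 18081504)) (a (l 17966952) (a (l 17939384) (l 4)))))), by decide +kernel⟩

theorem c_pm_113 : CertF 536870912 536870912 536870912 536870912 33554432 16777216 true true false .nn 1 1 3
    ndF1q1 ndF4q1 pcF3 Cut.none Ext.none :=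
  certFK2 (fam := true) (s1 := true) (s2 := false) (a := 1) (b := 1) (c := 3) (cn := .nn) (n1 := ndF1q1) (n2 := ndF4q1) (pc := pcF3) (cut := Cut.none) (xt := Ext.none) (P1 := 536870912) (W1 := 536870912) (P2 := 536870912) (W2 := 536870912) (P3 := 33554432) (W3 := 16777216)
    rfl rfl rfl (fun _ => rfl) k0_pm_113

noncomputable def f_pm_123 : ℕ → ℕ → ℕ → ℕ → Bool := onCell 536870912 536870912 1610612736 536870912 33554432 16777216
    (rowFK 1 true true false .npn 1 2 3 (qsf 536870912 536870912 1073741824 536870912 3) ndF1q1 ndF4q2 pcF3 Cut.none Ext.none)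

def k0_pm_123 : ∃ t, chk3 f_pm_123 t 1 1 1 = true :=
  ⟨(b (a (b (a (l 19267456) (l 19765480)) (a (l 18458000) (l 19074616))) (b (l 1) (a (l 19020456) (l 1)))) (b (a (a (b (l 17827320) (l 17386848)) (l 18178800)) (a (l 18377088) (l 18651632))) (b (a (a (l 16977072) (l 17458944)) (l 18130632)) (b (a (a (l 17151032) (l 17181120)) (l 17846688)) (a (b (a (l 17143280) (l 17041328)) (a (b (l 17108904) (l 17115536)) (b (l 16965728) (l 16944008)))) (b (l 17761952) (b (l 17735840) (l 4)))))))), by decide +kernel⟩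

theorem c_pm_123 : CertF 536870912 536870912 1073741824 536870912 33554432 16777216 true true false .npn 1 2 3
    ndF1q1 ndF4q2 pcF3 Cut.none Ext.none :=
  certFK1 (fam := true) (s1 := true) (s2 := false) (a := 1) (b := 2) (c := 3) (cn := .npn) (n1 := ndF1q1) (n2 := ndF4q2) (pc := pcF3) (cut := Cut.none) (xt := Ext.none) (P1 := 536870912) (W1 := 536870912) (P2 := 1073741824) (W2 := 536870912) (P3 := 33554432) (W3 := 16777216)
    rfl rfl rfl (fun _ => rfl) k0_pm_123

noncomputable def f_pm_133 : ℕ → ℕ → ℕ → ℕ → Bool := onCell 536870912 536870912 0 1230186008 33554432 16777216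
    (rowFK 0 true true false .dn 1 3 3 (qsf 536870912 536870912 0 1230186008 3) ndF1q1 ndF4q3 pcF3 Cut.none Ext.none)

def k0_pm_133 : ∃ t, chk3 f_pm_133 t 1 1 1 = true :=
  ⟨(b (l 2) (b (l 2) (a (b (l 2) (a (b (l 2) (a (b (l 2) (l 17312936)) (l 2))) (l 2))) (l 2)))), by decide +kernel⟩

theorem c_pm_133 : CertF 536870912 536870912 0 1230186008 33554432 16777216 true true false .dn 1 3 3
    ndF1q1 ndF4q3 pcF3 Cut.none Ext.none :=
  certFK0 (fam := true) (s1 := true) (s2 := false) (a := 1) (b := 3) (c := 3) (cn := .dn) (n1 := ndF1q1) (n2 := ndF4q3) (pc := pcF3) (cut := Cut.none) (xt := Ext.none) (P1 := 536870912) (W1 := 536870912) (P2 := 0) (W2 := 1230186008) (P3 := 33554432) (W3 := 16777216)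
    rfl rfl rfl k0_pm_133

noncomputable def f_pm_202_a : ℕ → ℕ → ℕ → ℕ → Bool := onCell 0 536870912 1073741824 536870912 33554432 16777216
    (rowFK 1 true true false .pp 2 0 2 (qsf 0 536870912 0 536870912 2) ndF1q2a ndF4q0 pcF2 Cut.none Ext.none)

def k0_pm_202_a : ∃ t, chk3 f_pm_202_a t 1 1 1 = true :=
  ⟨(b (b (a (l 19881864) (l 19848592)) (a (l 19242832) (l 19362824))) (b (a (l 18537680) (l 18922224)) (a (l 4) (b (l 18112392) (l 17844592))))), by decide +kernel⟩

theorem c_pm_202_a : CertF 0 536870912 0 536870912 33554432 16777216 true true false .pp 2 0 2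
    ndF1q2a ndF4q0 pcF2 Cut.none Ext.none :=
  certFK1 (fam := true) (s1 := true) (s2 := false) (a := 2) (b := 0) (c := 2) (cn := .pp) (n1 := ndF1q2a) (n2 := ndF4q0) (pc := pcF2) (cut := Cut.none) (xt := Ext.none) (P1 := 0) (W1 := 536870912) (P2 := 0) (W2 := 536870912) (P3 := 33554432) (W3 := 16777216)
    rfl rfl rfl (fun _ => rfl) k0_pm_202_a

noncomputable def f_pm_202_b : ℕ → ℕ → ℕ → ℕ → Bool := onCell 1239849684 370763052 0 536870912 33554432 16777216
    (rowFK 0 true true false .pp 2 0 2 (qsf 1239849684 370763052 0 536870912 2) ndF1q2b ndF4q0 pcF2 Cut.none Ext.none)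

def k0_pm_202_b : ∃ t, chk3 f_pm_202_b t 1 1 1 = true :=
  ⟨(l 4), by decide +kernel⟩

theorem c_pm_202_b : CertF 1239849684 370763052 0 536870912 33554432 16777216 true true false .pp 2 0 2
    ndF1q2b ndF4q0 pcF2 Cut.none Ext.none :=
  certFK0 (fam := true) (s1 := true) (s2 := false) (a := 2) (b := 0) (c := 2) (cn := .pp) (n1 := ndF1q2b) (n2 := ndF4q0) (pc := pcF2) (cut := Cut.none) (xt := Ext.none) (P1 := 1239849684) (W1 := 370763052) (P2 := 0) (W2 := 536870912) (P3 := 33554432) (W3 := 16777216)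
    rfl rfl rfl k0_pm_202_b

noncomputable def f_pm_203_a : ℕ → ℕ → ℕ → ℕ → Bool := onCell 0 536870912 1610612736 536870912 33554432 16777216
    (rowFK 1 true true false .up 2 0 3 (qsf 0 536870912 0 536870912 3) ndF1q2a ndF4q0 pcF3 Cut.none Ext.none)

def k0_pm_203_a : ∃ t, chk3 f_pm_203_a t 1 1 1 = true :=
  ⟨(a (l 4) (b (l 4) (l 2))), by decide +kernel⟩

theorem c_pm_203_a : CertF 0 536870912 0 536870912 33554432 16777216 true true false .up 2 0 3
    ndF1q2a ndF4q0 pcF3 Cut.none Ext.none :=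
  certFK1 (fam := true) (s1 := true) (s2 := false) (a := 2) (b := 0) (c := 3) (cn := .up) (n1 := ndF1q2a) (n2 := ndF4q0) (pc := pcF3) (cut := Cut.none) (xt := Ext.none) (P1 := 0) (W1 := 536870912) (P2 := 0) (W2 := 536870912) (P3 := 33554432) (W3 := 16777216)
    rfl rfl rfl (fun _ => rfl) k0_pm_203_a

noncomputable def f_pm_203_b : ℕ → ℕ → ℕ → ℕ → Bool := onCell 1239849684 370763052 0 536870912 33554432 16777216
    (rowFK 0 true true false .up 2 0 3 (qsf 1239849684 370763052 0 536870912 3) ndF1q2b ndF4q0 pcF3 Cut.none Ext.none)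

def k0_pm_203_b : ∃ t, chk3 f_pm_203_b t 1 1 1 = true :=
  ⟨(l 4), by decide +kernel⟩

theorem c_pm_203_b : CertF 1239849684 370763052 0 536870912 33554432 16777216 true true false .up 2 0 3
    ndF1q2b ndF4q0 pcF3 Cut.none Ext.none :=
  certFK0 (fam := true) (s1 := true) (s2 := false) (a := 2) (b := 0) (c := 3) (cn := .up) (n1 := ndF1q2b) (n2 := ndF4q0) (pc := pcF3) (cut := Cut.none) (xt := Ext.none) (P1 := 1239849684) (W1 := 370763052) (P2 := 0) (W2 := 536870912) (P3 := 33554432) (W3 := 16777216)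
    rfl rfl rfl k0_pm_203_b

noncomputable def f_pm_213_a : ℕ → ℕ → ℕ → ℕ → Bool := onCell 0 536870912 536870912 536870912 33554432 16777216
    (rowFK 0 true true false .pnn 2 1 3 (qsf 0 536870912 536870912 536870912 3) ndF1q2a ndF4q1 pcF3 Cut.none Ext.none)

def k0_pm_213_a : ∃ t, chk3 f_pm_213_a t 1 1 1 = true :=
  ⟨(a (l 4) (b (l 4) (l 4))), by decide +kernel⟩

theorem c_pm_213_a : CertF 0 536870912 536870912 536870912 33554432 16777216 true true false .pnn 2 1 3
    ndF1q2a ndF4q1 pcF3 Cut.none Ext.none :=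
  certFK0 (fam := true) (s1 := true) (s2 := false) (a := 2) (b := 1) (c := 3) (cn := .pnn) (n1 := ndF1q2a) (n2 := ndF4q1) (pc := pcF3) (cut := Cut.none) (xt := Ext.none) (P1 := 0) (W1 := 536870912) (P2 := 536870912) (W2 := 536870912) (P3 := 33554432) (W3 := 16777216)
    rfl rfl rfl k0_pm_213_a

noncomputable def f_pm_213_b : ℕ → ℕ → ℕ → ℕ → Bool := onCell 1239849684 370763052 536870912 536870912 33554432 16777216
    (rowFK 0 true true false .pnn 2 1 3 (qsf 1239849684 370763052 536870912 536870912 3) ndF1q2b ndF4q1 pcF3 Cut.none Ext.none)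

def k0_pm_213_b : ∃ t, chk3 f_pm_213_b t 1 1 1 = true :=
  ⟨(l 4), by decide +kernel⟩

theorem c_pm_213_b : CertF 1239849684 370763052 536870912 536870912 33554432 16777216 true true false .pnn 2 1 3
    ndF1q2b ndF4q1 pcF3 Cut.none Ext.none :=
  certFK0 (fam := true) (s1 := true) (s2 := false) (a := 2) (b := 1) (c := 3) (cn := .pnn) (n1 := ndF1q2b) (n2 := ndF4q1) (pc := pcF3) (cut := Cut.none) (xt := Ext.none) (P1 := 1239849684) (W1 := 370763052) (P2 := 536870912) (W2 := 536870912) (P3 := 33554432) (W3 := 16777216)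
    rfl rfl rfl k0_pm_213_b

noncomputable def f_pm_303 : ℕ → ℕ → ℕ → ℕ → Bool := onCell 1610612736 536870912 0 536870912 33554432 16777216
    (rowFK 0 true true false .npn 3 0 3 (qsf 1610612736 536870912 0 536870912 3) ndF1q3 ndF4q0 pcF3 Cut.none Ext.none)

def k0_pm_303 : ∃ t, chk3 f_pm_303 t 1 1 1 = true :=
  ⟨(l 4), by decide +kernel⟩

theorem c_pm_303 : CertF 1610612736 536870912 0 536870912 33554432 16777216 true true false .npn 3 0 3
    ndF1q3 ndF4q0 pcF3 Cut.none Ext.none :=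
  certFK0 (fam := true) (s1 := true) (s2 := false) (a := 3) (b := 0) (c := 3) (cn := .npn) (n1 := ndF1q3) (n2 := ndF4q0) (pc := pcF3) (cut := Cut.none) (xt := Ext.none) (P1 := 1610612736) (W1 := 536870912) (P2 := 0) (W2 := 536870912) (P3 := 33554432) (W3 := 16777216)
    rfl rfl rfl k0_pm_303

noncomputable def f_pm_313 : ℕ → ℕ → ℕ → ℕ → Bool := onCell 1610612736 536870912 536870912 536870912 33554432 16777216
    (rowFK 0 true true false .dn 3 1 3 (qsf 1610612736 536870912 536870912 536870912 3) ndF1q3 ndF4q1 pcF3 Cut.none Ext.none)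

def k0_pm_313 : ∃ t, chk3 f_pm_313 t 1 1 1 = true :=
  ⟨(l 4), by decide +kernel⟩

theorem c_pm_313 : CertF 1610612736 536870912 536870912 536870912 33554432 16777216 true true false .dn 3 1 3
    ndF1q3 ndF4q1 pcF3 Cut.none Ext.none :=
  certFK0 (fam := true) (s1 := true) (s2 := false) (a := 3) (b := 1) (c := 3) (cn := .dn) (n1 := ndF1q3) (n2 := ndF4q1) (pc := pcF3) (cut := Cut.none) (xt := Ext.none) (P1 := 1610612736) (W1 := 536870912) (P2 := 536870912) (W2 := 536870912) (P3 := 33554432) (W3 := 16777216)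
    rfl rfl rfl k0_pm_313

noncomputable def f_mm_001 : ℕ → ℕ → ℕ → ℕ → Bool := onCell 0 536870912 0 536870912 33554432 16777216
    (rowFK 0 true false false .up 0 0 1 (qsf 0 536870912 0 536870912 1) ndF1q0 ndF4q0 pcF1 Cut.none Ext.none)

def k0_mm_001 : ∃ t, chk3 f_mm_001 t 1 1 1 = true :=
  ⟨(l 4), by decide +kernel⟩

theorem c_mm_001 : CertF 0 536870912 0 536870912 33554432 16777216 true false false .up 0 0 1
    ndF1q0 ndF4q0 pcF1 Cut.none Ext.none :=
  certFK0 (fam := true) (s1 := false) (s2 := false) (a := 0) (b := 0) (c := 1) (cn := .up) (n1 := ndF1q0) (n2 := ndF4q0) (pc := pcF1) (cut := Cut.none) (xt := Ext.none) (P1 := 0) (W1 := 536870912) (P2 := 0) (W2 := 536870912) (P3 := 33554432) (W3 := 16777216)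
    rfl rfl rfl k0_mm_001

noncomputable def f_mm_011 : ℕ → ℕ → ℕ → ℕ → Bool := onCell 0 536870912 536870912 536870912 33554432 16777216
    (rowFK 0 true false false .pnn 0 1 1 (qsf 0 536870912 536870912 536870912 1) ndF1q0 ndF4q1 pcF1 Cut.none Ext.none)

def k0_mm_011 : ∃ t, chk3 f_mm_011 t 1 1 1 = true :=
  ⟨(l 4), by decide +kernel⟩

theorem c_mm_011 : CertF 0 536870912 536870912 536870912 33554432 16777216 true false false .pnn 0 1 1
    ndF1q0 ndF4q1 pcF1 Cut.none Ext.none :=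
  certFK0 (fam := true) (s1 := false) (s2 := false) (a := 0) (b := 1) (c := 1) (cn := .pnn) (n1 := ndF1q0) (n2 := ndF4q1) (pc := pcF1) (cut := Cut.none) (xt := Ext.none) (P1 := 0) (W1 := 536870912) (P2 := 536870912) (W2 := 536870912) (P3 := 33554432) (W3 := 16777216)
    rfl rfl rfl k0_mm_011

noncomputable def f_mm_012 : ℕ → ℕ → ℕ → ℕ → Bool := onCell 0 536870912 536870912 536870912 33554432 16777216
    (rowFK 0 true false false .pnp 0 1 2 (qsf 0 536870912 536870912 536870912 2) ndF1q0 ndF4q1 pcF2 Cut.none Ext.none)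

def k0_mm_012 : ∃ t, chk3 f_mm_012 t 1 1 1 = true :=
  ⟨(l 4), by decide +kernel⟩

theorem c_mm_012 : CertF 0 536870912 536870912 536870912 33554432 16777216 true false false .pnp 0 1 2
    ndF1q0 ndF4q1 pcF2 Cut.none Ext.none :=
  certFK0 (fam := true) (s1 := false) (s2 := false) (a := 0) (b := 1) (c := 2) (cn := .pnp) (n1 := ndF1q0) (n2 := ndF4q1) (pc := pcF2) (cut := Cut.none) (xt := Ext.none) (P1 := 0) (W1 := 536870912) (P2 := 536870912) (W2 := 536870912) (P3 := 33554432) (W3 := 16777216)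
    rfl rfl rfl k0_mm_012

noncomputable def f_mm_022 : ℕ → ℕ → ℕ → ℕ → Bool := onCell 0 536870912 1073741824 536870912 33554432 16777216
    (rowFK 0 true false false .pp 0 2 2 (qsf 0 536870912 1073741824 536870912 2) ndF1q0 ndF4q2 pcF2 Cut.none Ext.none)

def k0_mm_022 : ∃ t, chk3 f_mm_022 t 1 1 1 = true :=
  ⟨(l 4), by decide +kernel⟩

theorem c_mm_022 : CertF 0 536870912 1073741824 536870912 33554432 16777216 true false false .pp 0 2 2
    ndF1q0 ndF4q2 pcF2 Cut.none Ext.none :=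
  certFK0 (fam := true) (s1 := false) (s2 := false) (a := 0) (b := 2) (c := 2) (cn := .pp) (n1 := ndF1q0) (n2 := ndF4q2) (pc := pcF2) (cut := Cut.none) (xt := Ext.none) (P1 := 0) (W1 := 536870912) (P2 := 1073741824) (W2 := 536870912) (P3 := 33554432) (W3 := 16777216)
    rfl rfl rfl k0_mm_022

noncomputable def f_mm_023 : ℕ → ℕ → ℕ → ℕ → Bool := onCell 0 536870912 1073741824 536870912 33554432 16777216
    (rowFK 0 true false false .up 0 2 3 (qsf 0 536870912 1073741824 536870912 3) ndF1q0 ndF4q2 pcF3 Cut.none Ext.none)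

def k0_mm_023 : ∃ t, chk3 f_mm_023 t 1 1 1 = true :=
  ⟨(l 4), by decide +kernel⟩

theorem c_mm_023 : CertF 0 536870912 1073741824 536870912 33554432 16777216 true false false .up 0 2 3
    ndF1q0 ndF4q2 pcF3 Cut.none Ext.none :=
  certFK0 (fam := true) (s1 := false) (s2 := false) (a := 0) (b := 2) (c := 3) (cn := .up) (n1 := ndF1q0) (n2 := ndF4q2) (pc := pcF3) (cut := Cut.none) (xt := Ext.none) (P1 := 0) (W1 := 536870912) (P2 := 1073741824) (W2 := 536870912) (P3 := 33554432) (W3 := 16777216)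
    rfl rfl rfl k0_mm_023

noncomputable def f_mm_033 : ℕ → ℕ → ℕ → ℕ → Bool := onCell 0 536870912 0 1230186008 33554432 16777216
    (rowFK 0 true false false .pnn 0 3 3 (qsf 0 536870912 0 1230186008 3) ndF1q0 ndF4q3 pcF3 Cut.none Ext.none)

def k0_mm_033 : ∃ t, chk3 f_mm_033 t 1 1 1 = true :=
  ⟨(l 4), by decide +kernel⟩

theorem c_mm_033 : CertF 0 536870912 0 1230186008 33554432 16777216 true false false .pnn 0 3 3
    ndF1q0 ndF4q3 pcF3 Cut.none Ext.none :=
  certFK0 (fam := true) (s1 := false) (s2 := false) (a := 0) (b := 3) (c := 3) (cn := .pnn) (n1 := ndF1q0) (n2 := ndF4q3) (pc := pcF3) (cut := Cut.none) (xt := Ext.none) (P1 := 0) (W1 := 536870912) (P2 := 0) (W2 := 1230186008) (P3 := 33554432) (W3 := 16777216)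
    rfl rfl rfl k0_mm_033

noncomputable def f_mm_101 : ℕ → ℕ → ℕ → ℕ → Bool := onCell 536870912 536870912 0 536870912 33554432 16777216
    (rowFK 0 true false false .npn 1 0 1 (qsf 536870912 536870912 0 536870912 1) ndF1q1 ndF4q0 pcF1 Cut.none Ext.none)

def k0_mm_101 : ∃ t, chk3 f_mm_101 t 1 1 1 = true :=
  ⟨(l 4), by decide +kernel⟩

theorem c_mm_101 : CertF 536870912 536870912 0 536870912 33554432 16777216 true false false .npn 1 0 1
    ndF1q1 ndF4q0 pcF1 Cut.none Ext.none :=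
  certFK0 (fam := true) (s1 := false) (s2 := false) (a := 1) (b := 0) (c := 1) (cn := .npn) (n1 := ndF1q1) (n2 := ndF4q0) (pc := pcF1) (cut := Cut.none) (xt := Ext.none) (P1 := 536870912) (W1 := 536870912) (P2 := 0) (W2 := 536870912) (P3 := 33554432) (W3 := 16777216)
    rfl rfl rfl k0_mm_101

noncomputable def f_mm_102 : ℕ → ℕ → ℕ → ℕ → Bool := onCell 536870912 536870912 0 536870912 33554432 16777216
    (rowFK 0 true false false .npp 1 0 2 (qsf 536870912 536870912 0 536870912 2) ndF1q1 ndF4q0 pcF2 Cut.none Ext.none)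

def k0_mm_102 : ∃ t, chk3 f_mm_102 t 1 1 1 = true :=
  ⟨(l 4), by decide +kernel⟩

theorem c_mm_102 : CertF 536870912 536870912 0 536870912 33554432 16777216 true false false .npp 1 0 2
    ndF1q1 ndF4q0 pcF2 Cut.none Ext.none :=
  certFK0 (fam := true) (s1 := false) (s2 := false) (a := 1) (b := 0) (c := 2) (cn := .npp) (n1 := ndF1q1) (n2 := ndF4q0) (pc := pcF2) (cut := Cut.none) (xt := Ext.none) (P1 := 536870912) (W1 := 536870912) (P2 := 0) (W2 := 536870912) (P3 := 33554432) (W3 := 16777216)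
    rfl rfl rfl k0_mm_102

noncomputable def f_mm_112 : ℕ → ℕ → ℕ → ℕ → Bool := onCell 536870912 536870912 536870912 536870912 33554432 16777216
    (rowFK 0 true false false .dn 1 1 2 (qsf 536870912 536870912 536870912 536870912 2) ndF1q1 ndF4q1 pcF2 Cut.none Ext.none)

def k0_mm_112 : ∃ t, chk3 f_mm_112 t 1 1 1 = true :=
  ⟨(l 4), by decide +kernel⟩

theorem c_mm_112 : CertF 536870912 536870912 536870912 536870912 33554432 16777216 true false false .dn 1 1 2
    ndF1q1 ndF4q1 pcF2 Cut.none Ext.none :=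
  certFK0 (fam := true) (s1 := false) (s2 := false) (a := 1) (b := 1) (c := 2) (cn := .dn) (n1 := ndF1q1) (n2 := ndF4q1) (pc := pcF2) (cut := Cut.none) (xt := Ext.none) (P1 := 536870912) (W1 := 536870912) (P2 := 536870912) (W2 := 536870912) (P3 := 33554432) (W3 := 16777216)
    rfl rfl rfl k0_mm_112

noncomputable def f_mm_113 : ℕ → ℕ → ℕ → ℕ → Bool := onCell 536870912 536870912 536870912 536870912 33554432 16777216
    (rowFK 0 true false false .nn 1 1 3 (qsf 536870912 536870912 536870912 536870912 3) ndF1q1 ndF4q1 pcF3 Cut.none Ext.none)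

def k0_mm_113 : ∃ t, chk3 f_mm_113 t 1 1 1 = true :=
  ⟨(l 4), by decide +kernel⟩

theorem c_mm_113 : CertF 536870912 536870912 536870912 536870912 33554432 16777216 true false false .nn 1 1 3
    ndF1q1 ndF4q1 pcF3 Cut.none Ext.none :=
  certFK0 (fam := true) (s1 := false) (s2 := false) (a := 1) (b := 1) (c := 3) (cn := .nn) (n1 := ndF1q1) (n2 := ndF4q1) (pc := pcF3) (cut := Cut.none) (xt := Ext.none) (P1 := 536870912) (W1 := 536870912) (P2 := 536870912) (W2 := 536870912) (P3 := 33554432) (W3 := 16777216)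
    rfl rfl rfl k0_mm_113

noncomputable def f_mm_123 : ℕ → ℕ → ℕ → ℕ → Bool := onCell 536870912 536870912 1073741824 536870912 33554432 16777216
    (rowFK 0 true false false .npn 1 2 3 (qsf 536870912 536870912 1073741824 536870912 3) ndF1q1 ndF4q2 pcF3 Cut.none Ext.none)

def k0_mm_123 : ∃ t, chk3 f_mm_123 t 1 1 1 = true :=
  ⟨(l 4), by decide +kernel⟩

theorem c_mm_123 : CertF 536870912 536870912 1073741824 536870912 33554432 16777216 true false false .npn 1 2 3
    ndF1q1 ndF4q2 pcF3 Cut.none Ext.none :=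
  certFK0 (fam := true) (s1 := false) (s2 := false) (a := 1) (b := 2) (c := 3) (cn := .npn) (n1 := ndF1q1) (n2 := ndF4q2) (pc := pcF3) (cut := Cut.none) (xt := Ext.none) (P1 := 536870912) (W1 := 536870912) (P2 := 1073741824) (W2 := 536870912) (P3 := 33554432) (W3 := 16777216)
    rfl rfl rfl k0_mm_123

noncomputable def f_mm_133 : ℕ → ℕ → ℕ → ℕ → Bool := onCell 536870912 536870912 0 1230186008 33554432 16777216
    (rowFK 0 true false false .dn 1 3 3 (qsf 536870912 536870912 0 1230186008 3) ndF1q1 ndF4q3 pcF3 Cut.none Ext.none)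

def k0_mm_133 : ∃ t, chk3 f_mm_133 t 1 1 1 = true :=
  ⟨(l 4), by decide +kernel⟩

theorem c_mm_133 : CertF 536870912 536870912 0 1230186008 33554432 16777216 true false false .dn 1 3 3
    ndF1q1 ndF4q3 pcF3 Cut.none Ext.none :=
  certFK0 (fam := true) (s1 := false) (s2 := false) (a := 1) (b := 3) (c := 3) (cn := .dn) (n1 := ndF1q1) (n2 := ndF4q3) (pc := pcF3) (cut := Cut.none) (xt := Ext.none) (P1 := 536870912) (W1 := 536870912) (P2 := 0) (W2 := 1230186008) (P3 := 33554432) (W3 := 16777216)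
    rfl rfl rfl k0_mm_133

noncomputable def f_mm_202_a : ℕ → ℕ → ℕ → ℕ → Bool := onCell 0 536870912 0 536870912 33554432 16777216
    (rowFK 0 true false false .pp 2 0 2 (qsf 0 536870912 0 536870912 2) ndF1q2a ndF4q0 pcF2 Cut.none Ext.none)

def k0_mm_202_a : ∃ t, chk3 f_mm_202_a t 1 1 1 = true :=
  ⟨(l 4), by decide +kernel⟩

theorem c_mm_202_a : CertF 0 536870912 0 536870912 33554432 16777216 true false false .pp 2 0 2
    ndF1q2a ndF4q0 pcF2 Cut.none Ext.none :=
  certFK0 (fam := true) (s1 := false) (s2 := false) (a := 2) (b := 0) (c := 2) (cn := .pp) (n1 := ndF1q2a) (n2 := ndF4q0) (pc := pcF2) (cut := Cut.none) (xt := Ext.none) (P1 := 0) (W1 := 536870912) (P2 := 0) (W2 := 536870912) (P3 := 33554432) (W3 := 16777216)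
    rfl rfl rfl k0_mm_202_a

noncomputable def f_mm_202_b : ℕ → ℕ → ℕ → ℕ → Bool := onCell 1239849684 370763052 0 536870912 33554432 16777216
    (rowFK 0 true false false .pp 2 0 2 (qsf 1239849684 370763052 0 536870912 2) ndF1q2b ndF4q0 pcF2 Cut.none Ext.none)

def k0_mm_202_b : ∃ t, chk3 f_mm_202_b t 1 1 1 = true :=
  ⟨(l 4), by decide +kernel⟩

theorem c_mm_202_b : CertF 1239849684 370763052 0 536870912 33554432 16777216 true false false .pp 2 0 2
    ndF1q2b ndF4q0 pcF2 Cut.none Ext.none :=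
  certFK0 (fam := true) (s1 := false) (s2 := false) (a := 2) (b := 0) (c := 2) (cn := .pp) (n1 := ndF1q2b) (n2 := ndF4q0) (pc := pcF2) (cut := Cut.none) (xt := Ext.none) (P1 := 1239849684) (W1 := 370763052) (P2 := 0) (W2 := 536870912) (P3 := 33554432) (W3 := 16777216)
    rfl rfl rfl k0_mm_202_b

noncomputable def f_mm_203_a : ℕ → ℕ → ℕ → ℕ → Bool := onCell 0 536870912 0 536870912 33554432 16777216
    (rowFK 0 true false false .up 2 0 3 (qsf 0 536870912 0 536870912 3) ndF1q2a ndF4q0 pcF3 Cut.none Ext.none)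

def k0_mm_203_a : ∃ t, chk3 f_mm_203_a t 1 1 1 = true :=
  ⟨(l 4), by decide +kernel⟩

theorem c_mm_203_a : CertF 0 536870912 0 536870912 33554432 16777216 true false false .up 2 0 3
    ndF1q2a ndF4q0 pcF3 Cut.none Ext.none :=
  certFK0 (fam := true) (s1 := false) (s2 := false) (a := 2) (b := 0) (c := 3) (cn := .up) (n1 := ndF1q2a) (n2 := ndF4q0) (pc := pcF3) (cut := Cut.none) (xt := Ext.none) (P1 := 0) (W1 := 536870912) (P2 := 0) (W2 := 536870912) (P3 := 33554432) (W3 := 16777216)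
    rfl rfl rfl k0_mm_203_a

noncomputable def f_mm_203_b : ℕ → ℕ → ℕ → ℕ → Bool := onCell 1239849684 370763052 0 536870912 33554432 16777216
    (rowFK 0 true false false .up 2 0 3 (qsf 1239849684 370763052 0 536870912 3) ndF1q2b ndF4q0 pcF3 Cut.none Ext.none)

def k0_mm_203_b : ∃ t, chk3 f_mm_203_b t 1 1 1 = true :=
  ⟨(l 4), by decide +kernel⟩

theorem c_mm_203_b : CertF 1239849684 370763052 0 536870912 33554432 16777216 true false false .up 2 0 3
    ndF1q2b ndF4q0 pcF3 Cut.none Ext.none :=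
  certFK0 (fam := true) (s1 := false) (s2 := false) (a := 2) (b := 0) (c := 3) (cn := .up) (n1 := ndF1q2b) (n2 := ndF4q0) (pc := pcF3) (cut := Cut.none) (xt := Ext.none) (P1 := 1239849684) (W1 := 370763052) (P2 := 0) (W2 := 536870912) (P3 := 33554432) (W3 := 16777216)
    rfl rfl rfl k0_mm_203_b

noncomputable def f_mm_213_a : ℕ → ℕ → ℕ → ℕ → Bool := onCell 0 536870912 536870912 536870912 33554432 16777216
    (rowFK 0 true false false .pnn 2 1 3 (qsf 0 536870912 536870912 536870912 3) ndF1q2a ndF4q1 pcF3 Cut.none Ext.none)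

def k0_mm_213_a : ∃ t, chk3 f_mm_213_a t 1 1 1 = true :=
  ⟨(l 4), by decide +kernel⟩

theorem c_mm_213_a : CertF 0 536870912 536870912 536870912 33554432 16777216 true false false .pnn 2 1 3
    ndF1q2a ndF4q1 pcF3 Cut.none Ext.none :=
  certFK0 (fam := true) (s1 := false) (s2 := false) (a := 2) (b := 1) (c := 3) (cn := .pnn) (n1 := ndF1q2a) (n2 := ndF4q1) (pc := pcF3) (cut := Cut.none) (xt := Ext.none) (P1 := 0) (W1 := 536870912) (P2 := 536870912) (W2 := 536870912) (P3 := 33554432) (W3 := 16777216)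
    rfl rfl rfl k0_mm_213_a

noncomputable def f_mm_213_b : ℕ → ℕ → ℕ → ℕ → Bool := onCell 1239849684 370763052 536870912 536870912 33554432 16777216
    (rowFK 0 true false false .pnn 2 1 3 (qsf 1239849684 370763052 536870912 536870912 3) ndF1q2b ndF4q1 pcF3 Cut.none Ext.none)

def k0_mm_213_b : ∃ t, chk3 f_mm_213_b t 1 1 1 = true :=
  ⟨(l 4), by decide +kernel⟩

theorem c_mm_213_b : CertF 1239849684 370763052 536870912 536870912 33554432 16777216 true false false .pnn 2 1 3
    ndF1q2b ndF4q1 pcF3 Cut.none Ext.none :=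
  certFK0 (fam := true) (s1 := false) (s2 := false) (a := 2) (b := 1) (c := 3) (cn := .pnn) (n1 := ndF1q2b) (n2 := ndF4q1) (pc := pcF3) (cut := Cut.none) (xt := Ext.none) (P1 := 1239849684) (W1 := 370763052) (P2 := 536870912) (W2 := 536870912) (P3 := 33554432) (W3 := 16777216)
    rfl rfl rfl k0_mm_213_b

noncomputable def f_mm_303 : ℕ → ℕ → ℕ → ℕ → Bool := onCell 1610612736 536870912 0 536870912 33554432 16777216
    (rowFK 0 true false false .npn 3 0 3 (qsf 1610612736 536870912 0 536870912 3) ndF1q3 ndF4q0 pcF3 Cut.none Ext.none)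

def k0_mm_303 : ∃ t, chk3 f_mm_303 t 1 1 1 = true :=
  ⟨(l 4), by decide +kernel⟩

theorem c_mm_303 : CertF 1610612736 536870912 0 536870912 33554432 16777216 true false false .npn 3 0 3
    ndF1q3 ndF4q0 pcF3 Cut.none Ext.none :=
  certFK0 (fam := true) (s1 := false) (s2 := false) (a := 3) (b := 0) (c := 3) (cn := .npn) (n1 := ndF1q3) (n2 := ndF4q0) (pc := pcF3) (cut := Cut.none) (xt := Ext.none) (P1 := 1610612736) (W1 := 536870912) (P2 := 0) (W2 := 536870912) (P3 := 33554432) (W3 := 16777216)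
    rfl rfl rfl k0_mm_303

noncomputable def f_mm_313 : ℕ → ℕ → ℕ → ℕ → Bool := onCell 1610612736 536870912 536870912 536870912 33554432 16777216
    (rowFK 0 true false false .dn 3 1 3 (qsf 1610612736 536870912 536870912 536870912 3) ndF1q3 ndF4q1 pcF3 Cut.none Ext.none)

def k0_mm_313 : ∃ t, chk3 f_mm_313 t 1 1 1 = true :=
  ⟨(l 4), by decide +kernel⟩

theorem c_mm_313 : CertF 1610612736 536870912 536870912 536870912 33554432 16777216 true false false .dn 3 1 3
    ndF1q3 ndF4q1 pcF3 Cut.none Ext.none :=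
  certFK0 (fam := true) (s1 := false) (s2 := false) (a := 3) (b := 1) (c := 3) (cn := .dn) (n1 := ndF1q3) (n2 := ndF4q1) (pc := pcF3) (cut := Cut.none) (xt := Ext.none) (P1 := 1610612736) (W1 := 536870912) (P2 := 536870912) (W2 := 536870912) (P3 := 33554432) (W3 := 16777216)
    rfl rfl rfl k0_mm_313

end Pool.Agent.Strip051.G.I1_32_3_64.Tab.C.FA14

namespace Pool.Agent.Strip051.G.I1_32_3_64.Tab.C.FA22

open Pool.Agent.Strip051.PB Pool.Agent.Strip051.PB.T
open Pool.Agent.Strip051.G.I1_32_3_64.Tab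

noncomputable def f_pp_001 : ℕ → ℕ → ℕ → ℕ → Bool := onCell 0 536870912 0 536870912 33554432 16777216
    (rowFK 0 true true true .up 0 0 1 (qsf 0 536870912 0 536870912 1) ndF2q0 ndF2q0 pcF1 Cut.none Ext.none)

def k0_pp_001 : ∃ t, chk3 f_pp_001 t 1 1 1 = true :=
  ⟨(l 4), by decide +kernel⟩

theorem c_pp_001 : CertF 0 536870912 0 536870912 33554432 16777216 true true true .up 0 0 1
    ndF2q0 ndF2q0 pcF1 Cut.none Ext.none :=
  certFK0 (fam := true) (s1 := true) (s2 := true) (a := 0) (b := 0) (c := 1) (cn := .up) (n1 := ndF2q0) (n2 := ndF2q0) (pc := pcF1) (cut := Cut.none) (xt := Ext.none) (P1 := 0) (W1 := 536870912) (P2 := 0) (W2 := 536870912) (P3 := 33554432) (W3 := 16777216)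
    rfl rfl rfl k0_pp_001

noncomputable def f_pp_011 : ℕ → ℕ → ℕ → ℕ → Bool := onCell 0 536870912 536870912 536870912 33554432 16777216
    (rowFK 0 true true true .pnn 0 1 1 (qsf 0 536870912 536870912 536870912 1) ndF2q0 ndF2q1 pcF1 Cut.none Ext.none)

def k0_pp_011 : ∃ t, chk3 f_pp_011 t 1 1 1 = true :=
  ⟨(l 4), by decide +kernel⟩

theorem c_pp_011 : CertF 0 536870912 536870912 536870912 33554432 16777216 true true true .pnn 0 1 1
    ndF2q0 ndF2q1 pcF1 Cut.none Ext.none :=
  certFK0 (fam := true) (s1 := true) (s2 := true) (a := 0) (b := 1) (c := 1) (cn := .pnn) (n1 := ndF2q0) (n2 := ndF2q1) (pc := pcF1) (cut := Cut.none) (xt := Ext.none) (P1 := 0) (W1 := 536870912) (P2 := 536870912) (W2 := 536870912) (P3 := 33554432) (W3 := 16777216)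
    rfl rfl rfl k0_pp_011

noncomputable def f_pp_012 : ℕ → ℕ → ℕ → ℕ → Bool := onCell 0 536870912 536870912 536870912 33554432 16777216
    (rowFK 0 true true true .pnp 0 1 2 (qsf 0 536870912 536870912 536870912 2) ndF2q0 ndF2q1 pcF2 Cut.none Ext.none)

def k0_pp_012 : ∃ t, chk3 f_pp_012 t 1 1 1 = true :=
  ⟨(l 4), by decide +kernel⟩

theorem c_pp_012 : CertF 0 536870912 536870912 536870912 33554432 16777216 true true true .pnp 0 1 2
    ndF2q0 ndF2q1 pcF2 Cut.none Ext.none :=
  certFK0 (fam := true) (s1 := true) (s2 := true) (a := 0) (b := 1) (c := 2) (cn := .pnp) (n1 := ndF2q0) (n2 := ndF2q1) (pc := pcF2) (cut := Cut.none) (xt := Ext.none) (P1 := 0) (W1 := 536870912) (P2 := 536870912) (W2 := 536870912) (P3 := 33554432) (W3 := 16777216)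
    rfl rfl rfl k0_pp_012

noncomputable def cut_pp_022_a : Cut := Cut.of [[⟨0, 0, 0, 33554432⟩, ⟨1, 1, 0, 33554432⟩, ⟨2, 1, 0, 33554432⟩]]

noncomputable def f_pp_022_a : ℕ → ℕ → ℕ → ℕ → Bool := onCell 0 536870912 0 536870912 33554432 16777216
    (rowFK 0 true true true .pp 0 2 2 (qsf 0 536870912 0 536870912 2) ndF2q0 ndF2q2a pcF2 cut_pp_022_a Ext.none)

def k0_pp_022_a : ∃ t, chk3 f_pp_022_a t 1 1 1 = true :=
  ⟨(a (b (l 4) (a (b (l 4) (b (l 4) (b (l 4) (b (l 4) (a (a (a (l 6) (l 4)) (l 4)) (l 4)))))) (l 4))) (l 4)), by decide +kernel⟩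

theorem c_pp_022_a : CertF 0 536870912 0 536870912 33554432 16777216 true true true .pp 0 2 2
    ndF2q0 ndF2q2a pcF2 cut_pp_022_a Ext.none :=
  certFK0 (fam := true) (s1 := true) (s2 := true) (a := 0) (b := 2) (c := 2) (cn := .pp) (n1 := ndF2q0) (n2 := ndF2q2a) (pc := pcF2) (cut := cut_pp_022_a) (xt := Ext.none) (P1 := 0) (W1 := 536870912) (P2 := 0) (W2 := 536870912) (P3 := 33554432) (W3 := 16777216)
    rfl rfl rfl k0_pp_022_a

noncomputable def cut_pp_022_b : Cut := Cut.of [[⟨0, 0, 0, 33554432⟩, ⟨1, 1, 0, 33554432⟩, ⟨2, 1, 0, 33554432⟩]]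

noncomputable def f_pp_022_b : ℕ → ℕ → ℕ → ℕ → Bool := onCell 0 536870912 1239849684 370763052 33554432 16777216
    (rowFK 0 true true true .pp 0 2 2 (qsf 0 536870912 1239849684 370763052 2) ndF2q0 ndF2q2b pcF2 cut_pp_022_b Ext.none)

def k0_pp_022_b : ∃ t, chk3 f_pp_022_b t 1 1 1 = true :=
  ⟨(a (l 4) (l 4)), by decide +kernel⟩

theorem c_pp_022_b : CertF 0 536870912 1239849684 370763052 33554432 16777216 true true true .pp 0 2 2
    ndF2q0 ndF2q2b pcF2 cut_pp_022_b Ext.none :=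
  certFK0 (fam := true) (s1 := true) (s2 := true) (a := 0) (b := 2) (c := 2) (cn := .pp) (n1 := ndF2q0) (n2 := ndF2q2b) (pc := pcF2) (cut := cut_pp_022_b) (xt := Ext.none) (P1 := 0) (W1 := 536870912) (P2 := 1239849684) (W2 := 370763052) (P3 := 33554432) (W3 := 16777216)
    rfl rfl rfl k0_pp_022_b

noncomputable def f_pp_023_a : ℕ → ℕ → ℕ → ℕ → Bool := onCell 1610612736 536870912 0 536870912 33554432 16777216
    (rowFK 2 true true true .up 0 2 3 (qsf 0 536870912 0 536870912 3) ndF2q0 ndF2q2a pcF3 Cut.none Ext.none)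

def k0_pp_023_a : ∃ t, chk3 f_pp_023_a t 1 1 1 = true :=
  ⟨(l 4), by decide +kernel⟩

theorem c_pp_023_a : CertF 0 536870912 0 536870912 33554432 16777216 true true true .up 0 2 3
    ndF2q0 ndF2q2a pcF3 Cut.none Ext.none :=
  certFK2 (fam := true) (s1 := true) (s2 := true) (a := 0) (b := 2) (c := 3) (cn := .up) (n1 := ndF2q0) (n2 := ndF2q2a) (pc := pcF3) (cut := Cut.none) (xt := Ext.none) (P1 := 0) (W1 := 536870912) (P2 := 0) (W2 := 536870912) (P3 := 33554432) (W3 := 16777216)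
    rfl rfl rfl (fun _ => rfl) k0_pp_023_a

noncomputable def f_pp_023_b : ℕ → ℕ → ℕ → ℕ → Bool := onCell 1610612736 536870912 1239849684 370763052 33554432 16777216
    (rowFK 2 true true true .up 0 2 3 (qsf 0 536870912 1239849684 370763052 3) ndF2q0 ndF2q2b pcF3 Cut.none Ext.none)

def k0_pp_023_b : ∃ t, chk3 f_pp_023_b t 1 1 1 = true :=
  ⟨(l 4), by decide +kernel⟩

theorem c_pp_023_b : CertF 0 536870912 1239849684 370763052 33554432 16777216 true true true .up 0 2 3
    ndF2q0 ndF2q2b pcF3 Cut.none Ext.none :=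
  certFK2 (fam := true) (s1 := true) (s2 := true) (a := 0) (b := 2) (c := 3) (cn := .up) (n1 := ndF2q0) (n2 := ndF2q2b) (pc := pcF3) (cut := Cut.none) (xt := Ext.none) (P1 := 0) (W1 := 536870912) (P2 := 1239849684) (W2 := 370763052) (P3 := 33554432) (W3 := 16777216)
    rfl rfl rfl (fun _ => rfl) k0_pp_023_b

noncomputable def f_pp_033 : ℕ → ℕ → ℕ → ℕ → Bool := onCell 0 536870912 1610612736 536870912 33554432 16777216
    (rowFK 0 true true true .pnn 0 3 3 (qsf 0 536870912 1610612736 536870912 3) ndF2q0 ndF2q3 pcF3 Cut.none Ext.none)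

def k0_pp_033 : ∃ t, chk3 f_pp_033 t 1 1 1 = true :=
  ⟨(l 4), by decide +kernel⟩

theorem c_pp_033 : CertF 0 536870912 1610612736 536870912 33554432 16777216 true true true .pnn 0 3 3
    ndF2q0 ndF2q3 pcF3 Cut.none Ext.none :=
  certFK0 (fam := true) (s1 := true) (s2 := true) (a := 0) (b := 3) (c := 3) (cn := .pnn) (n1 := ndF2q0) (n2 := ndF2q3) (pc := pcF3) (cut := Cut.none) (xt := Ext.none) (P1 := 0) (W1 := 536870912) (P2 := 1610612736) (W2 := 536870912) (P3 := 33554432) (W3 := 16777216)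
    rfl rfl rfl k0_pp_033

noncomputable def f_pp_101 : ℕ → ℕ → ℕ → ℕ → Bool := onCell 536870912 536870912 0 536870912 33554432 16777216
    (rowFK 0 true true true .npn 1 0 1 (qsf 536870912 536870912 0 536870912 1) ndF2q1 ndF2q0 pcF1 Cut.none Ext.none)

def k0_pp_101 : ∃ t, chk3 f_pp_101 t 1 1 1 = true :=
  ⟨(l 4), by decide +kernel⟩

theorem c_pp_101 : CertF 536870912 536870912 0 536870912 33554432 16777216 true true true .npn 1 0 1
    ndF2q1 ndF2q0 pcF1 Cut.none Ext.none :=
  certFK0 (fam := true) (s1 := true) (s2 := true) (a := 1) (b := 0) (c := 1) (cn := .npn) (n1 := ndF2q1) (n2 := ndF2q0) (pc := pcF1) (cut := Cut.none) (xt := Ext.none) (P1 := 536870912) (W1 := 536870912) (P2 := 0) (W2 := 536870912) (P3 := 33554432) (W3 := 16777216)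
    rfl rfl rfl k0_pp_101

noncomputable def f_pp_102 : ℕ → ℕ → ℕ → ℕ → Bool := onCell 536870912 536870912 0 536870912 33554432 16777216
    (rowFK 0 true true true .npp 1 0 2 (qsf 536870912 536870912 0 536870912 2) ndF2q1 ndF2q0 pcF2 Cut.none Ext.none)

def k0_pp_102 : ∃ t, chk3 f_pp_102 t 1 1 1 = true :=
  ⟨(l 4), by decide +kernel⟩

theorem c_pp_102 : CertF 536870912 536870912 0 536870912 33554432 16777216 true true true .npp 1 0 2
    ndF2q1 ndF2q0 pcF2 Cut.none Ext.none :=
  certFK0 (fam := true) (s1 := true) (s2 := true) (a := 1) (b := 0) (c := 2) (cn := .npp) (n1 := ndF2q1) (n2 := ndF2q0) (pc := pcF2) (cut := Cut.none) (xt := Ext.none) (P1 := 536870912) (W1 := 536870912) (P2 := 0) (W2 := 536870912) (P3 := 33554432) (W3 := 16777216)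
    rfl rfl rfl k0_pp_102

noncomputable def f_pp_112 : ℕ → ℕ → ℕ → ℕ → Bool := onCell 536870912 536870912 536870912 536870912 33554432 16777216
    (rowFK 0 true true true .dn 1 1 2 (qsf 536870912 536870912 536870912 536870912 2) ndF2q1 ndF2q1 pcF2 Cut.none Ext.none)

def k0_pp_112 : ∃ t, chk3 f_pp_112 t 1 1 1 = true :=
  ⟨(l 4), by decide +kernel⟩

theorem c_pp_112 : CertF 536870912 536870912 536870912 536870912 33554432 16777216 true true true .dn 1 1 2
    ndF2q1 ndF2q1 pcF2 Cut.none Ext.none :=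
  certFK0 (fam := true) (s1 := true) (s2 := true) (a := 1) (b := 1) (c := 2) (cn := .dn) (n1 := ndF2q1) (n2 := ndF2q1) (pc := pcF2) (cut := Cut.none) (xt := Ext.none) (P1 := 536870912) (W1 := 536870912) (P2 := 536870912) (W2 := 536870912) (P3 := 33554432) (W3 := 16777216)
    rfl rfl rfl k0_pp_112

noncomputable def f_pp_113 : ℕ → ℕ → ℕ → ℕ → Bool := onCell 536870912 536870912 536870912 536870912 33554432 16777216
    (rowFK 0 true true true .nn 1 1 3 (qsf 536870912 536870912 536870912 536870912 3) ndF2q1 ndF2q1 pcF3 Cut.none Ext.none)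

def k0_pp_113 : ∃ t, chk3 f_pp_113 t 1 1 1 = true :=
  ⟨(l 4), by decide +kernel⟩

theorem c_pp_113 : CertF 536870912 536870912 536870912 536870912 33554432 16777216 true true true .nn 1 1 3
    ndF2q1 ndF2q1 pcF3 Cut.none Ext.none :=
  certFK0 (fam := true) (s1 := true) (s2 := true) (a := 1) (b := 1) (c := 3) (cn := .nn) (n1 := ndF2q1) (n2 := ndF2q1) (pc := pcF3) (cut := Cut.none) (xt := Ext.none) (P1 := 536870912) (W1 := 536870912) (P2 := 536870912) (W2 := 536870912) (P3 := 33554432) (W3 := 16777216)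
    rfl rfl rfl k0_pp_113

noncomputable def f_pp_123_a : ℕ → ℕ → ℕ → ℕ → Bool := onCell 536870912 536870912 0 536870912 33554432 16777216
    (rowFK 0 true true true .npn 1 2 3 (qsf 536870912 536870912 0 536870912 3) ndF2q1 ndF2q2a pcF3 Cut.none Ext.none)

def k0_pp_123_a : ∃ t, chk3 f_pp_123_a t 1 1 1 = true :=
  ⟨(l 4), by decide +kernel⟩

theorem c_pp_123_a : CertF 536870912 536870912 0 536870912 33554432 16777216 true true true .npn 1 2 3
    ndF2q1 ndF2q2a pcF3 Cut.none Ext.none :=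
  certFK0 (fam := true) (s1 := true) (s2 := true) (a := 1) (b := 2) (c := 3) (cn := .npn) (n1 := ndF2q1) (n2 := ndF2q2a) (pc := pcF3) (cut := Cut.none) (xt := Ext.none) (P1 := 536870912) (W1 := 536870912) (P2 := 0) (W2 := 536870912) (P3 := 33554432) (W3 := 16777216)
    rfl rfl rfl k0_pp_123_a

noncomputable def f_pp_123_b : ℕ → ℕ → ℕ → ℕ → Bool := onCell 536870912 536870912 1239849684 370763052 33554432 16777216
    (rowFK 0 true true true .npn 1 2 3 (qsf 536870912 536870912 1239849684 370763052 3) ndF2q1 ndF2q2b pcF3 Cut.none Ext.none)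

def k0_pp_123_b : ∃ t, chk3 f_pp_123_b t 1 1 1 = true :=
  ⟨(l 4), by decide +kernel⟩

theorem c_pp_123_b : CertF 536870912 536870912 1239849684 370763052 33554432 16777216 true true true .npn 1 2 3
    ndF2q1 ndF2q2b pcF3 Cut.none Ext.none :=
  certFK0 (fam := true) (s1 := true) (s2 := true) (a := 1) (b := 2) (c := 3) (cn := .npn) (n1 := ndF2q1) (n2 := ndF2q2b) (pc := pcF3) (cut := Cut.none) (xt := Ext.none) (P1 := 536870912) (W1 := 536870912) (P2 := 1239849684) (W2 := 370763052) (P3 := 33554432) (W3 := 16777216)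
    rfl rfl rfl k0_pp_123_b

noncomputable def f_pp_133 : ℕ → ℕ → ℕ → ℕ → Bool := onCell 536870912 536870912 1610612736 536870912 33554432 16777216
    (rowFK 0 true true true .dn 1 3 3 (qsf 536870912 536870912 1610612736 536870912 3) ndF2q1 ndF2q3 pcF3 Cut.none Ext.none)

def k0_pp_133 : ∃ t, chk3 f_pp_133 t 1 1 1 = true :=
  ⟨(l 4), by decide +kernel⟩

theorem c_pp_133 : CertF 536870912 536870912 1610612736 536870912 33554432 16777216 true true true .dn 1 3 3
    ndF2q1 ndF2q3 pcF3 Cut.none Ext.none :=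
  certFK0 (fam := true) (s1 := true) (s2 := true) (a := 1) (b := 3) (c := 3) (cn := .dn) (n1 := ndF2q1) (n2 := ndF2q3) (pc := pcF3) (cut := Cut.none) (xt := Ext.none) (P1 := 536870912) (W1 := 536870912) (P2 := 1610612736) (W2 := 536870912) (P3 := 33554432) (W3 := 16777216)
    rfl rfl rfl k0_pp_133

noncomputable def f_pp_202_a : ℕ → ℕ → ℕ → ℕ → Bool := onCell 0 536870912 0 536870912 33554432 16777216
    (rowFK 0 true true true .pp 2 0 2 (qsf 0 536870912 0 536870912 2) ndF2q2a ndF2q0 pcF2 Cut.none Ext.none)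

def k0_pp_202_a : ∃ t, chk3 f_pp_202_a t 1 1 1 = true :=
  ⟨(l 5), by decide +kernel⟩

theorem c_pp_202_a : CertF 0 536870912 0 536870912 33554432 16777216 true true true .pp 2 0 2
    ndF2q2a ndF2q0 pcF2 Cut.none Ext.none :=
  certFK0 (fam := true) (s1 := true) (s2 := true) (a := 2) (b := 0) (c := 2) (cn := .pp) (n1 := ndF2q2a) (n2 := ndF2q0) (pc := pcF2) (cut := Cut.none) (xt := Ext.none) (P1 := 0) (W1 := 536870912) (P2 := 0) (W2 := 536870912) (P3 := 33554432) (W3 := 16777216)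
    rfl rfl rfl k0_pp_202_a

noncomputable def f_pp_202_b : ℕ → ℕ → ℕ → ℕ → Bool := onCell 1239849684 370763052 0 536870912 33554432 16777216
    (rowFK 0 true true true .pp 2 0 2 (qsf 1239849684 370763052 0 536870912 2) ndF2q2b ndF2q0 pcF2 Cut.none Ext.none)

def k0_pp_202_b : ∃ t, chk3 f_pp_202_b t 1 1 1 = true :=
  ⟨(l 5), by decide +kernel⟩

theorem c_pp_202_b : CertF 1239849684 370763052 0 536870912 33554432 16777216 true true true .pp 2 0 2
    ndF2q2b ndF2q0 pcF2 Cut.none Ext.none :=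
  certFK0 (fam := true) (s1 := true) (s2 := true) (a := 2) (b := 0) (c := 2) (cn := .pp) (n1 := ndF2q2b) (n2 := ndF2q0) (pc := pcF2) (cut := Cut.none) (xt := Ext.none) (P1 := 1239849684) (W1 := 370763052) (P2 := 0) (W2 := 536870912) (P3 := 33554432) (W3 := 16777216)
    rfl rfl rfl k0_pp_202_b

noncomputable def f_pp_203_a : ℕ → ℕ → ℕ → ℕ → Bool := onCell 0 536870912 0 536870912 33554432 16777216
    (rowFK 0 true true true .up 2 0 3 (qsf 0 536870912 0 536870912 3) ndF2q2a ndF2q0 pcF3 Cut.none Ext.none)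

def k0_pp_203_a : ∃ t, chk3 f_pp_203_a t 1 1 1 = true :=
  ⟨(l 5), by decide +kernel⟩

theorem c_pp_203_a : CertF 0 536870912 0 536870912 33554432 16777216 true true true .up 2 0 3
    ndF2q2a ndF2q0 pcF3 Cut.none Ext.none :=
  certFK0 (fam := true) (s1 := true) (s2 := true) (a := 2) (b := 0) (c := 3) (cn := .up) (n1 := ndF2q2a) (n2 := ndF2q0) (pc := pcF3) (cut := Cut.none) (xt := Ext.none) (P1 := 0) (W1 := 536870912) (P2 := 0) (W2 := 536870912) (P3 := 33554432) (W3 := 16777216)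
    rfl rfl rfl k0_pp_203_a

noncomputable def f_pp_203_b : ℕ → ℕ → ℕ → ℕ → Bool := onCell 1239849684 370763052 0 536870912 33554432 16777216
    (rowFK 0 true true true .up 2 0 3 (qsf 1239849684 370763052 0 536870912 3) ndF2q2b ndF2q0 pcF3 Cut.none Ext.none)

def k0_pp_203_b : ∃ t, chk3 f_pp_203_b t 1 1 1 = true :=
  ⟨(l 5), by decide +kernel⟩

theorem c_pp_203_b : CertF 1239849684 370763052 0 536870912 33554432 16777216 true true true .up 2 0 3
    ndF2q2b ndF2q0 pcF3 Cut.none Ext.none :=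
  certFK0 (fam := true) (s1 := true) (s2 := true) (a := 2) (b := 0) (c := 3) (cn := .up) (n1 := ndF2q2b) (n2 := ndF2q0) (pc := pcF3) (cut := Cut.none) (xt := Ext.none) (P1 := 1239849684) (W1 := 370763052) (P2 := 0) (W2 := 536870912) (P3 := 33554432) (W3 := 16777216)
    rfl rfl rfl k0_pp_203_b

noncomputable def f_pp_213_a : ℕ → ℕ → ℕ → ℕ → Bool := onCell 0 536870912 536870912 536870912 33554432 16777216
    (rowFK 0 true true true .pnn 2 1 3 (qsf 0 536870912 536870912 536870912 3) ndF2q2a ndF2q1 pcF3 Cut.none Ext.none)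

def k0_pp_213_a : ∃ t, chk3 f_pp_213_a t 1 1 1 = true :=
  ⟨(l 4), by decide +kernel⟩

theorem c_pp_213_a : CertF 0 536870912 536870912 536870912 33554432 16777216 true true true .pnn 2 1 3
    ndF2q2a ndF2q1 pcF3 Cut.none Ext.none :=
  certFK0 (fam := true) (s1 := true) (s2 := true) (a := 2) (b := 1) (c := 3) (cn := .pnn) (n1 := ndF2q2a) (n2 := ndF2q1) (pc := pcF3) (cut := Cut.none) (xt := Ext.none) (P1 := 0) (W1 := 536870912) (P2 := 536870912) (W2 := 536870912) (P3 := 33554432) (W3 := 16777216)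
    rfl rfl rfl k0_pp_213_a

noncomputable def f_pp_213_b : ℕ → ℕ → ℕ → ℕ → Bool := onCell 1239849684 370763052 536870912 536870912 33554432 16777216
    (rowFK 0 true true true .pnn 2 1 3 (qsf 1239849684 370763052 536870912 536870912 3) ndF2q2b ndF2q1 pcF3 Cut.none Ext.none)

def k0_pp_213_b : ∃ t, chk3 f_pp_213_b t 1 1 1 = true :=
  ⟨(l 4), by decide +kernel⟩

theorem c_pp_213_b : CertF 1239849684 370763052 536870912 536870912 33554432 16777216 true true true .pnn 2 1 3
    ndF2q2b ndF2q1 pcF3 Cut.none Ext.none :=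
  certFK0 (fam := true) (s1 := true) (s2 := true) (a := 2) (b := 1) (c := 3) (cn := .pnn) (n1 := ndF2q2b) (n2 := ndF2q1) (pc := pcF3) (cut := Cut.none) (xt := Ext.none) (P1 := 1239849684) (W1 := 370763052) (P2 := 536870912) (W2 := 536870912) (P3 := 33554432) (W3 := 16777216)
    rfl rfl rfl k0_pp_213_b

noncomputable def f_pp_303 : ℕ → ℕ → ℕ → ℕ → Bool := onCell 1610612736 536870912 0 536870912 33554432 16777216
    (rowFK 0 true true true .npn 3 0 3 (qsf 1610612736 536870912 0 536870912 3) ndF2q3 ndF2q0 pcF3 Cut.none Ext.none)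

def k0_pp_303 : ∃ t, chk3 f_pp_303 t 1 1 1 = true :=
  ⟨(l 4), by decide +kernel⟩

theorem c_pp_303 : CertF 1610612736 536870912 0 536870912 33554432 16777216 true true true .npn 3 0 3
    ndF2q3 ndF2q0 pcF3 Cut.none Ext.none :=
  certFK0 (fam := true) (s1 := true) (s2 := true) (a := 3) (b := 0) (c := 3) (cn := .npn) (n1 := ndF2q3) (n2 := ndF2q0) (pc := pcF3) (cut := Cut.none) (xt := Ext.none) (P1 := 1610612736) (W1 := 536870912) (P2 := 0) (W2 := 536870912) (P3 := 33554432) (W3 := 16777216)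
    rfl rfl rfl k0_pp_303

noncomputable def f_pp_313 : ℕ → ℕ → ℕ → ℕ → Bool := onCell 1610612736 536870912 536870912 536870912 33554432 16777216
    (rowFK 0 true true true .dn 3 1 3 (qsf 1610612736 536870912 536870912 536870912 3) ndF2q3 ndF2q1 pcF3 Cut.none Ext.none)

def k0_pp_313 : ∃ t, chk3 f_pp_313 t 1 1 1 = true :=
  ⟨(l 4), by decide +kernel⟩

theorem c_pp_313 : CertF 1610612736 536870912 536870912 536870912 33554432 16777216 true true true .dn 3 1 3
    ndF2q3 ndF2q1 pcF3 Cut.none Ext.none :=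
  certFK0 (fam := true) (s1 := true) (s2 := true) (a := 3) (b := 1) (c := 3) (cn := .dn) (n1 := ndF2q3) (n2 := ndF2q1) (pc := pcF3) (cut := Cut.none) (xt := Ext.none) (P1 := 1610612736) (W1 := 536870912) (P2 := 536870912) (W2 := 536870912) (P3 := 33554432) (W3 := 16777216)
    rfl rfl rfl k0_pp_313

noncomputable def f_pm_001 : ℕ → ℕ → ℕ → ℕ → Bool := onCell 0 536870912 0 536870912 33554432 16777216
    (rowFK 0 true true false .up 0 0 1 (qsf 0 536870912 0 536870912 1) ndF2q0 ndF2q0 pcF1 Cut.none Ext.none)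

def k0_pm_001 : ∃ t, chk3 f_pm_001 t 1 1 1 = true :=
  ⟨(a (l 3) (l 3)), by decide +kernel⟩

theorem c_pm_001 : CertF 0 536870912 0 536870912 33554432 16777216 true true false .up 0 0 1
    ndF2q0 ndF2q0 pcF1 Cut.none Ext.none :=
  certFK0 (fam := true) (s1 := true) (s2 := false) (a := 0) (b := 0) (c := 1) (cn := .up) (n1 := ndF2q0) (n2 := ndF2q0) (pc := pcF1) (cut := Cut.none) (xt := Ext.none) (P1 := 0) (W1 := 536870912) (P2 := 0) (W2 := 536870912) (P3 := 33554432) (W3 := 16777216)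
    rfl rfl rfl k0_pm_001

noncomputable def cut_pm_011 : Cut := Cut.of [[⟨0, 0, 0, 33554432⟩, ⟨1, 1, 0, 33554432⟩, ⟨2, 1, 0, 33554432⟩]]

noncomputable def f_pm_011 : ℕ → ℕ → ℕ → ℕ → Bool := onCell 0 536870912 536870912 536870912 33554432 16777216
    (rowFK 1 true true false .pnn 0 1 1 (qsf 0 536870912 536870912 536870912 1) ndF2q0 ndF2q1 pcF1 cut_pm_011 Ext.none)

def k0_pm_011 : ∃ t, chk3 f_pm_011 t 1 1 1 = true :=
  ⟨(a (b (l 3) (b (l 3) (a (b (l 3) (a (b (l 3) (a (b (l 3) (a (a (l 6) (l 3)) (l 3))) (l 3))) (l 3))) (l 3)))) (l 3)), by decide +kernel⟩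

theorem c_pm_011 : CertF 0 536870912 536870912 536870912 33554432 16777216 true true false .pnn 0 1 1
    ndF2q0 ndF2q1 pcF1 cut_pm_011 Ext.none :=
  certFK1 (fam := true) (s1 := true) (s2 := false) (a := 0) (b := 1) (c := 1) (cn := .pnn) (n1 := ndF2q0) (n2 := ndF2q1) (pc := pcF1) (cut := cut_pm_011) (xt := Ext.none) (P1 := 0) (W1 := 536870912) (P2 := 536870912) (W2 := 536870912) (P3 := 33554432) (W3 := 16777216)
    rfl rfl rfl (fun _ => rfl) k0_pm_011

noncomputable def cut_pm_012 : Cut := Cut.of [[⟨0, 0, 0, 33554432⟩, ⟨1, 1, 0, 33554432⟩, ⟨2, 1, 0, 33554432⟩]]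

noncomputable def f_pm_012 : ℕ → ℕ → ℕ → ℕ → Bool := onCell 1073741824 536870912 536870912 536870912 33554432 16777216
    (rowFK 2 true true false .pnp 0 1 2 (qsf 0 536870912 536870912 536870912 2) ndF2q0 ndF2q1 pcF2 cut_pm_012 Ext.none)

def k0_pm_012 : ∃ t, chk3 f_pm_012 t 1 1 1 = true :=
  ⟨(a (b (a (l 3) (a (a (a (l 3) (l 17936152)) (l 18001632)) (l 18144136))) (a (b (a (l 3) (l 18562384)) (a (b (l 3) (b (l 3) (b (a (l 3) (l 18701920)) (b (a (l 3) (l 18401176)) (a (a (l 6) (l 16731216)) (l 17982928)))))) (b (l 455439777335) (b (l 579994729703) (b (a (l 19666296) (l 20184248)) (b (a (l 19710624) (l 20335328)) (a (l 19696512) (l 20425800)))))))) (b (a (a (a (l 18793736) (l 18944968)) (l 19047056)) (l 19210000)) (b (a (a (a (l 19556664) (l 19722128)) (l 19840080)) (l 20006000)) (b (a (a (a (l 20112760) (l 20254480)) (l 20381192)) (l 20544856)) (b (a (a (a (l 20452800) (l 20589704)) (l 20724272)) (l 20886808)) (b (a (a (a (l 20626312) (l 20766848)) (l 20906872))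 (l 21068552)) (a (a (a (l 20741688) (l 20886104)) (l 21031240)) (l 21191792))))))))) (b (l 18409696) (b (l 19438208) (b (l 20160560) (b (l 20630192) (b (l 20924704) (b (l 21078224) (l 21177848)))))))), by decide +kernel⟩

theorem c_pm_012 : CertF 0 536870912 536870912 536870912 33554432 16777216 true true false .pnp 0 1 2
    ndF2q0 ndF2q1 pcF2 cut_pm_012 Ext.none :=
  certFK2 (fam := true) (s1 := true) (s2 := false) (a := 0) (b := 1) (c := 2) (cn := .pnp) (n1 := ndF2q0) (n2 := ndF2q1) (pc := pcF2) (cut := cut_pm_012) (xt := Ext.none) (P1 := 0) (W1 := 536870912) (P2 := 536870912) (W2 := 536870912) (P3 := 33554432) (W3 := 16777216)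
    rfl rfl rfl (fun _ => rfl) k0_pm_012

noncomputable def cut_pm_022_a : Cut := Cut.of [[⟨0, 0, 0, 33554432⟩, ⟨1, 1, 0, 33554432⟩, ⟨2, 1, 0, 33554432⟩]]

noncomputable def f_pm_022_a : ℕ → ℕ → ℕ → ℕ → Bool := onCell 0 536870912 0 536870912 33554432 16777216
    (rowFK 0 true true false .pp 0 2 2 (qsf 0 536870912 0 536870912 2) ndF2q0 ndF2q2a pcF2 cut_pm_022_a Ext.none)

def k0_pm_022_a : ∃ t, chk3 f_pm_022_a t 1 1 1 = true :=
  ⟨(a (b (a (l 19539392) (l 19168768)) (b (a (a (a (a (b (l 19230128) (l 18909112)) (l 19136008)) (l 19158640)) (l 19130992)) (l 19002992)) (a (b (a (a (a (a (b (a (c (l 18542656) (b (l 18201416) (l 17687912))) (l 18390912)) (a (a (b (c (l 17991680) (a (b (c (l 17671520) (l 17353192)) (a (c (l 17381216) (b (l 17069448) (l 16745968))) (l 17271592))) (l 17450264))) (a (c (b (c (l 17814024) (l 17355616)) (a (c (l 17361000) (b (l 16999544) (b (l 16811696) (l 16727640)))) (l 17243704))) (a (a (b (b (c (l 17059352) (l 16720616)) (l 16721520))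 (b (l 16723576) (l 16725848))) (l 16726320)) (l 16760296))) (c (l 17482488) (l 16825760)))) (b (l 17818112) (l 17269880))) (l 17616624))) (b (l 18498240) (l 17948632))) (l 18460096)) (l 18666216)) (l 18790744)) (b (a (a (a (a (a (a (a (b (a (a (b (b (b (l 16726720) (l 16727608)) (b (l 16729184) (l 16730144))) (b (b (c (l 16730672) (l 16730280)) (b (l 16731248) (l 16731768))) (b (b (l 16732304) (l 16732848)) (l 6)))) (l 16740528)) (l 16730120)) (l 6)) (l 16749624)) (l 16745280)) (l 16756304)) (l 16885736)) (l 17554016)) (l 18121296)) (l 18470576)) (a (b (a (a (a (l 6) (l 16752288)) (l 16754136)) (l 17674344)) (a (a (l 6) (a (l 16767720) (l 16768376))) (l 17281240))) (b (l 18233080) (l 18039328))))) (b (l 18780128) (b (l 18596568) (b (l 18468464) (l 18369456))))))) (b (a (l 18947072) (l 18802280)) (a (b (l 18823672) (b (l 18669232) (b (l 18555056) (b (l 18478168) (l 18418240))))) (b (l 18721312) (b (l 18607952) (b (l 18540336) (b (l 18483472) (l 18437640)))))))),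 by decide +kernel⟩

theorem c_pm_022_a : CertF 0 536870912 0 536870912 33554432 16777216 true true false .pp 0 2 2
    ndF2q0 ndF2q2a pcF2 cut_pm_022_a Ext.none :=
  certFK0 (fam := true) (s1 := true) (s2 := false) (a := 0) (b := 2) (c := 2) (cn := .pp) (n1 := ndF2q0) (n2 := ndF2q2a) (pc := pcF2) (cut := cut_pm_022_a) (xt := Ext.none) (P1 := 0) (W1 := 536870912) (P2 := 0) (W2 := 536870912) (P3 := 33554432) (W3 := 16777216)
    rfl rfl rfl k0_pm_022_a

noncomputable def cut_pm_022_b : Cut := Cut.of [[⟨0, 0, 0, 33554432⟩, ⟨1, 1, 0, 33554432⟩, ⟨2, 1, 0, 33554432⟩]]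

noncomputable def f_pm_022_b : ℕ → ℕ → ℕ → ℕ → Bool := onCell 0 536870912 1239849684 370763052 33554432 16777216
    (rowFK 0 true true false .pp 0 2 2 (qsf 0 536870912 1239849684 370763052 2) ndF2q0 ndF2q2b pcF2 cut_pm_022_b Ext.none)

def k0_pm_022_b : ∃ t, chk3 f_pm_022_b t 1 1 1 = true :=
  ⟨(a (b (a (l 19651984) (b (l 19288416) (l 19350456))) (a (a (l 19605840) (b (l 19541048) (l 19448240))) (b (a (l 19399816) (l 2)) (l 2)))) (b (a (b (l 19038200) (l 19077728)) (l 2)) (l 2))), by decide +kernel⟩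

theorem c_pm_022_b : CertF 0 536870912 1239849684 370763052 33554432 16777216 true true false .pp 0 2 2
    ndF2q0 ndF2q2b pcF2 cut_pm_022_b Ext.none :=
  certFK0 (fam := true) (s1 := true) (s2 := false) (a := 0) (b := 2) (c := 2) (cn := .pp) (n1 := ndF2q0) (n2 := ndF2q2b) (pc := pcF2) (cut := cut_pm_022_b) (xt := Ext.none) (P1 := 0) (W1 := 536870912) (P2 := 1239849684) (W2 := 370763052) (P3 := 33554432) (W3 := 16777216)
    rfl rfl rfl k0_pm_022_b

noncomputable def f_pm_023_a : ℕ → ℕ → ℕ → ℕ → Bool := onCell 0 536870912 0 536870912 33554432 16777216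
    (rowFK 0 true true false .up 0 2 3 (qsf 0 536870912 0 536870912 3) ndF2q0 ndF2q2a pcF3 Cut.none Ext.none)

def k0_pm_023_a : ∃ t, chk3 f_pm_023_a t 1 1 1 = true :=
  ⟨(a (l 1) (b (a (l 19296856) (l 19038888)) (a (b (l 1) (l 1)) (b (l 19109192) (b (l 19168192) (b (l 19239088) (b (l 19255656) (l 19261600)))))))), by decide +kernel⟩

theorem c_pm_023_a : CertF 0 536870912 0 536870912 33554432 16777216 true true false .up 0 2 3
    ndF2q0 ndF2q2a pcF3 Cut.none Ext.none :=
  certFK0 (fam := true) (s1 := true) (s2 := false) (a := 0) (b := 2) (c := 3) (cn := .up) (n1 := ndF2q0) (n2 := ndF2q2a) (pc := pcF3) (cut := Cut.none) (xt := Ext.none) (P1 := 0) (W1 := 536870912) (P2 := 0) (W2 := 536870912) (P3 := 33554432) (W3 := 16777216)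
    rfl rfl rfl k0_pm_023_a

noncomputable def f_pm_023_b : ℕ → ℕ → ℕ → ℕ → Bool := onCell 1610612736 536870912 1239849684 370763052 33554432 16777216
    (rowFK 2 true true false .up 0 2 3 (qsf 0 536870912 1239849684 370763052 3) ndF2q0 ndF2q2b pcF3 Cut.none Ext.none)

def k0_pm_023_b : ∃ t, chk3 f_pm_023_b t 1 1 1 = true :=
  ⟨(a (a (b (l 19148184) (l 19141928)) (l 18960984)) (a (l 18763016) (l 4))), by decide +kernel⟩

theorem c_pm_023_b : CertF 0 536870912 1239849684 370763052 33554432 16777216 true true false .up 0 2 3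
    ndF2q0 ndF2q2b pcF3 Cut.none Ext.none :=
  certFK2 (fam := true) (s1 := true) (s2 := false) (a := 0) (b := 2) (c := 3) (cn := .up) (n1 := ndF2q0) (n2 := ndF2q2b) (pc := pcF3) (cut := Cut.none) (xt := Ext.none) (P1 := 0) (W1 := 536870912) (P2 := 1239849684) (W2 := 370763052) (P3 := 33554432) (W3 := 16777216)
    rfl rfl rfl (fun _ => rfl) k0_pm_023_b

noncomputable def f_pm_033 : ℕ → ℕ → ℕ → ℕ → Bool := onCell 0 536870912 1610612736 536870912 33554432 16777216
    (rowFK 1 true true false .pnn 0 3 3 (qsf 0 536870912 1610612736 536870912 3) ndF2q0 ndF2q3 pcF3 Cut.none Ext.none)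

def k0_pm_033 : ∃ t, chk3 f_pm_033 t 1 1 1 = true :=
  ⟨(b (b (a (a (l 19236024) (l 19130360)) (l 1)) (a (b (l 19249088) (l 19266064)) (l 18871400))) (b (a (b (l 19216856) (l 4)) (l 4)) (l 4))), by decide +kernel⟩

theorem c_pm_033 : CertF 0 536870912 1610612736 536870912 33554432 16777216 true true false .pnn 0 3 3
    ndF2q0 ndF2q3 pcF3 Cut.none Ext.none :=
  certFK1 (fam := true) (s1 := true) (s2 := false) (a := 0) (b := 3) (c := 3) (cn := .pnn) (n1 := ndF2q0) (n2 := ndF2q3) (pc := pcF3) (cut := Cut.none) (xt := Ext.none) (P1 := 0) (W1 := 536870912) (P2 := 1610612736) (W2 := 536870912) (P3 := 33554432) (W3 := 16777216)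
    rfl rfl rfl (fun _ => rfl) k0_pm_033

noncomputable def cut_pm_101 : Cut := Cut.of [[⟨0, 1, 0, 33554432⟩, ⟨1, 0, 0, 33554432⟩, ⟨2, 1, 0, 33554432⟩]]

noncomputable def f_pm_101 : ℕ → ℕ → ℕ → ℕ → Bool := onCell 536870912 536870912 0 536870912 33554432 16777216
    (rowFK 2 true true false .npn 1 0 1 (qsf 536870912 536870912 0 536870912 1) ndF2q1 ndF2q0 pcF1 cut_pm_101 Ext.none)

def k0_pm_101 : ∃ t, chk3 f_pm_101 t 1 1 1 = true :=
  ⟨(a (l 3) (b (a (l 3) (b (a (l 3) (b (a (l 3) (b (a (l 3) (b (b (l 6) (l 3)) (l 3))) (l 3))) (l 3))) (l 3))) (l 3))), by decide +kernel⟩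

theorem c_pm_101 : CertF 536870912 536870912 0 536870912 33554432 16777216 true true false .npn 1 0 1
    ndF2q1 ndF2q0 pcF1 cut_pm_101 Ext.none :=
  certFK2 (fam := true) (s1 := true) (s2 := false) (a := 1) (b := 0) (c := 1) (cn := .npn) (n1 := ndF2q1) (n2 := ndF2q0) (pc := pcF1) (cut := cut_pm_101) (xt := Ext.none) (P1 := 536870912) (W1 := 536870912) (P2 := 0) (W2 := 536870912) (P3 := 33554432) (W3 := 16777216)
    rfl rfl rfl (fun _ => rfl) k0_pm_101

noncomputable def cut_pm_102 : Cut := Cut.of [[⟨0, 1, 0, 33554432⟩, ⟨1, 0, 0, 33554432⟩, ⟨2, 1, 0, 33554432⟩]]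

noncomputable def f_pm_102 : ℕ → ℕ → ℕ → ℕ → Bool := onCell 536870912 536870912 1073741824 536870912 33554432 16777216
    (rowFK 1 true true false .npp 1 0 2 (qsf 536870912 536870912 0 536870912 2) ndF2q1 ndF2q0 pcF2 cut_pm_102 Ext.none)

def k0_pm_102 : ∃ t, chk3 f_pm_102 t 1 1 1 = true :=
  ⟨(a (b (b (l 3) (b (b (b (l 3) (l 17936152)) (l 18001632)) (l 18144136))) (l 18409696)) (b (a (b (b (l 3) (l 18562384)) (b (b (b (l 18793736) (l 18944968)) (l 19047056)) (l 19210000))) (b (a (b (l 3) (l 455439777335)) (b (a (l 3) (a (b (l 3) (l 18701920)) (a (b (l 3) (l 18401176)) (b (b (l 6) (l 16731216)) (l 17982928))))) (a (l 579994729703) (a (b (l 19666296) (l 20184248)) (a (b (l 19710624) (l 20335328)) (b (l 19696512) (l 20425800))))))) (a (b (b (b (l 19556664) (l 19722128)) (l 19840080)) (l 20006000)) (a (b (b (b (l 20112760) (l 20254480)) (l 20381192)) (l 20544856)) (a (b (b (b (l 20452800) (l 20589704)) (l 20724272)) (l 20886808)) (a (b (b (b (l 20626312) (l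 20766848)) (l 20906872)) (l 21068552)) (b (b (b (l 20741688) (l 20886104)) (l 21031240)) (l 21191792)))))))) (a (l 19438208) (a (l 20160560) (a (l 20630192) (a (l 20924704) (a (l 21078224) (l 21177848)))))))), by decide +kernel⟩

theorem c_pm_102 : CertF 536870912 536870912 0 536870912 33554432 16777216 true true false .npp 1 0 2
    ndF2q1 ndF2q0 pcF2 cut_pm_102 Ext.none :=
  certFK1 (fam := true) (s1 := true) (s2 := false) (a := 1) (b := 0) (c := 2) (cn := .npp) (n1 := ndF2q1) (n2 := ndF2q0) (pc := pcF2) (cut := cut_pm_102) (xt := Ext.none) (P1 := 536870912) (W1 := 536870912) (P2 := 0) (W2 := 536870912) (P3 := 33554432) (W3 := 16777216)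
    rfl rfl rfl (fun _ => rfl) k0_pm_102

noncomputable def f_pm_112 : ℕ → ℕ → ℕ → ℕ → Bool := onCell 536870912 536870912 1073741824 536870912 33554432 16777216
    (rowFK 1 true true false .dn 1 1 2 (qsf 536870912 536870912 536870912 536870912 2) ndF2q1 ndF2q1 pcF2 Cut.none Ext.none)

def k0_pm_112 : ∃ t, chk3 f_pm_112 t 1 1 1 = true :=
  ⟨(a (b (b (l 3) (b (b (b (l 3) (l 19251936)) (l 19184832)) (l 19044736))) (b (l 18795840) (a (b (l 18687624) (a (b (l 18562728) (a (a (b (l 18575832) (a (b (l 18579648) (a (l 18578160) (l 18567536))) (l 18554152))) (l 18522720)) (l 18470568))) (l 18469200))) (l 18452872)))) (b (a (b (l 1) (b (l 1) (l 19239136))) (l 1)) (a (l 18728456) (a (l 18825304) (a (l 18906736) (a (l 18982448) (a (l 19019256) (l 19042536)))))))), by decide +kernel⟩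

theorem c_pm_112 : CertF 536870912 536870912 536870912 536870912 33554432 16777216 true true false .dn 1 1 2
    ndF2q1 ndF2q1 pcF2 Cut.none Ext.none :=
  certFK1 (fam := true) (s1 := true) (s2 := false) (a := 1) (b := 1) (c := 2) (cn := .dn) (n1 := ndF2q1) (n2 := ndF2q1) (pc := pcF2) (cut := Cut.none) (xt := Ext.none) (P1 := 536870912) (W1 := 536870912) (P2 := 536870912) (W2 := 536870912) (P3 := 33554432) (W3 := 16777216)
    rfl rfl rfl (fun _ => rfl) k0_pm_112

noncomputable def f_pm_113 : ℕ → ℕ → ℕ → ℕ → Bool := onCell 536870912 536870912 536870912 536870912 33554432 16777216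
    (rowFK 0 true true false .nn 1 1 3 (qsf 536870912 536870912 536870912 536870912 3) ndF2q1 ndF2q1 pcF3 Cut.none Ext.none)

def k0_pm_113 : ∃ t, chk3 f_pm_113 t 1 1 1 = true :=
  ⟨(a (b (l 19177856) (b (l 18574048) (b (l 18387384) (b (l 18282216) (b (l 18220072) (b (l 18187712) (l 18165872))))))) (b (a (l 18574048) (a (l 18387384) (a (l 18282216) (a (l 18220072) (a (l 18187712) (l 18165872)))))) (a (b (l 17895096) (b (l 17675960) (b (l 17539424) (b (l 17447456) (b (l 17400896) (l 17384840)))))) (b (a (l 17675960) (a (l 17539424) (a (l 17447456) (a (l 17400896) (l 17384840))))) (a (b (l 17340872) (b (l 17213176) (b (l 17186776) (b (l 17173264) (l 17163040))))) (b (a (l 17213176) (a (l 17186776) (a (l 17173264) (l 17163040)))) (a (b (l 17062784) (b (l 17034840) (b (l 17020632) (l 17009984)))) (b (a (l 17034840) (a (l 17020632) (l 17009984))) (a (b (l 16922576) (b (l 16907120) (l 16895656))) (b (a (l 16907120) (l 16895656)) (a (b (l 16850472) (l 16838632))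 (b (l 16838632) (b (l 16810536) (l 16798384)))))))))))))), by decide +kernel⟩

theorem c_pm_113 : CertF 536870912 536870912 536870912 536870912 33554432 16777216 true true false .nn 1 1 3
    ndF2q1 ndF2q1 pcF3 Cut.none Ext.none :=
  certFK0 (fam := true) (s1 := true) (s2 := false) (a := 1) (b := 1) (c := 3) (cn := .nn) (n1 := ndF2q1) (n2 := ndF2q1) (pc := pcF3) (cut := Cut.none) (xt := Ext.none) (P1 := 536870912) (W1 := 536870912) (P2 := 536870912) (W2 := 536870912) (P3 := 33554432) (W3 := 16777216)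
    rfl rfl rfl k0_pm_113

noncomputable def f_pm_123_a : ℕ → ℕ → ℕ → ℕ → Bool := onCell 536870912 536870912 0 536870912 33554432 16777216
    (rowFK 0 true true false .npn 1 2 3 (qsf 536870912 536870912 0 536870912 3) ndF2q1 ndF2q2a pcF3 Cut.none Ext.none)

def k0_pm_123_a : ∃ t, chk3 f_pm_123_a t 1 1 1 = true :=
  ⟨(a (b (a (l 17917056) (l 4)) (a (b (l 17949232) (b (l 18149320) (b (l 18178688) (b (l 18177456) (l 18175984))))) (b (l 4) (b (l 18024488) (b (l 18078784) (b (l 18331112) (l 18359584))))))) (l 4)), by decide +kernel⟩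

theorem c_pm_123_a : CertF 536870912 536870912 0 536870912 33554432 16777216 true true false .npn 1 2 3
    ndF2q1 ndF2q2a pcF3 Cut.none Ext.none :=
  certFK0 (fam := true) (s1 := true) (s2 := false) (a := 1) (b := 2) (c := 3) (cn := .npn) (n1 := ndF2q1) (n2 := ndF2q2a) (pc := pcF3) (cut := Cut.none) (xt := Ext.none) (P1 := 536870912) (W1 := 536870912) (P2 := 0) (W2 := 536870912) (P3 := 33554432) (W3 := 16777216)
    rfl rfl rfl k0_pm_123_a

noncomputable def f_pm_123_b : ℕ → ℕ → ℕ → ℕ → Bool := onCell 1610612736 536870912 1239849684 370763052 33554432 16777216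
    (rowFK 2 true true false .npn 1 2 3 (qsf 536870912 536870912 1239849684 370763052 3) ndF2q1 ndF2q2b pcF3 Cut.none Ext.none)

def k0_pm_123_b : ∃ t, chk3 f_pm_123_b t 1 1 1 = true :=
  ⟨(a (a (l 1) (a (l 17531456) (l 17620664))) (b (l 4) (l 4))), by decide +kernel⟩

theorem c_pm_123_b : CertF 536870912 536870912 1239849684 370763052 33554432 16777216 true true false .npn 1 2 3
    ndF2q1 ndF2q2b pcF3 Cut.none Ext.none :=
  certFK2 (fam := true) (s1 := true) (s2 := false) (a := 1) (b := 2) (c := 3) (cn := .npn) (n1 := ndF2q1) (n2 := ndF2q2b) (pc := pcF3) (cut := Cut.none) (xt := Ext.none) (P1 := 536870912) (W1 := 536870912) (P2 := 1239849684) (W2 := 370763052) (P3 := 33554432) (W3 := 16777216)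
    rfl rfl rfl (fun _ => rfl) k0_pm_123_b

noncomputable def f_pm_133 : ℕ → ℕ → ℕ → ℕ → Bool := onCell 536870912 536870912 1610612736 536870912 33554432 16777216
    (rowFK 0 true true false .dn 1 3 3 (qsf 536870912 536870912 1610612736 536870912 3) ndF2q1 ndF2q3 pcF3 Cut.none Ext.none)

def k0_pm_133 : ∃ t, chk3 f_pm_133 t 1 1 1 = true :=
  ⟨(l 4), by decide +kernel⟩

theorem c_pm_133 : CertF 536870912 536870912 1610612736 536870912 33554432 16777216 true true false .dn 1 3 3
    ndF2q1 ndF2q3 pcF3 Cut.none Ext.none :=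
  certFK0 (fam := true) (s1 := true) (s2 := false) (a := 1) (b := 3) (c := 3) (cn := .dn) (n1 := ndF2q1) (n2 := ndF2q3) (pc := pcF3) (cut := Cut.none) (xt := Ext.none) (P1 := 536870912) (W1 := 536870912) (P2 := 1610612736) (W2 := 536870912) (P3 := 33554432) (W3 := 16777216)
    rfl rfl rfl k0_pm_133

noncomputable def cut_pm_202_a : Cut := Cut.of [[⟨0, 1, 0, 33554432⟩, ⟨1, 0, 0, 33554432⟩, ⟨2, 1, 0, 33554432⟩]]

noncomputable def f_pm_202_a : ℕ → ℕ → ℕ → ℕ → Bool := onCell 0 536870912 0 536870912 33554432 16777216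
    (rowFK 0 true true false .pp 2 0 2 (qsf 0 536870912 0 536870912 2) ndF2q2a ndF2q0 pcF2 cut_pm_202_a Ext.none)

def k0_pm_202_a : ∃ t, chk3 f_pm_202_a t 1 1 1 = true :=
  ⟨(a (b (b (b (l 19439448) (l 19354696)) (l 19168768)) (b (l 18947072) (l 18802280))) (b (a (b (b (b (b (a (l 19229416) (l 18907864)) (l 19136008)) (l 19158640)) (l 19130992)) (l 19002992)) (b (a (b (b (b (b (a (b (c (l 18542344) (a (l 18201392) (l 17645944))) (l 18390912)) (b (b (a (c (l 17970664) (b (a (c (l 17671520) (l 17332216)) (c (l 17354216) (a (l 17043840) (a (l 16909024) (l 16723368))))) (l 17450264))) (b (c (a (c (l 17814016) (l 17334640)) (c (l 17294656) (b (a (l 16978568) (a (l 16790728) (a (l 16754536) (l 16742304)))) (l 17133544)))) (b (b (a (a (c (l 17059352) (l 16720616)) (l 16721520)) (a (l 16723576) (l 16725848))) (l 16726320)) (l 16760296))) (c (l 17461520) (l 16825760)))) (a (l 17818112) (l 17269880))) (l 17553712))) (a (l 18498240) (l 17948632))) (l 18460096)) (l 18666216))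 (l 18790744)) (a (b (b (b (b (b (b (a (b (b (b (a (a (a (l 16726720) (l 16727608)) (a (l 16729184) (l 16730144))) (a (a (c (l 16730672) (l 16730280)) (c (l 16731688) (l 16731320))) (a (c (l 16733400) (l 16732400)) (l 6)))) (l 16735288)) (l 16730120)) (l 16730264)) (b (l 6) (l 16739344))) (l 16745280)) (l 16745824)) (l 16885736)) (l 17554016)) (l 18121296)) (l 18470576)) (b (a (b (b (b (l 6) (l 16752288)) (l 16754136)) (l 17674344)) (b (b (l 6) (l 16768344)) (l 17281256))) (a (l 18233080) (l 18039336))))) (a (l 18780128) (a (l 18596568) (a (l 18468464) (l 18369464)))))) (a (b (l 18823672) (l 18721312)) (b (a (l 18669232) (a (l 18555056) (a (l 18478168) (l 18418240)))) (a (l 18607952) (a (l 18540336) (a (l 18483472) (l 18437640)))))))), by decide +kernel⟩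

theorem c_pm_202_a : CertF 0 536870912 0 536870912 33554432 16777216 true true false .pp 2 0 2
    ndF2q2a ndF2q0 pcF2 cut_pm_202_a Ext.none :=
  certFK0 (fam := true) (s1 := true) (s2 := false) (a := 2) (b := 0) (c := 2) (cn := .pp) (n1 := ndF2q2a) (n2 := ndF2q0) (pc := pcF2) (cut := cut_pm_202_a) (xt := Ext.none) (P1 := 0) (W1 := 536870912) (P2 := 0) (W2 := 536870912) (P3 := 33554432) (W3 := 16777216)
    rfl rfl rfl k0_pm_202_a

noncomputable def cut_pm_202_b : Cut := Cut.of [[⟨0, 1, 0, 33554432⟩, ⟨1, 0, 0, 33554432⟩, ⟨2, 1, 0, 33554432⟩]]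

noncomputable def f_pm_202_b : ℕ → ℕ → ℕ → ℕ → Bool := onCell 1239849684 370763052 0 536870912 33554432 16777216
    (rowFK 0 true true false .pp 2 0 2 (qsf 1239849684 370763052 0 536870912 2) ndF2q2b ndF2q0 pcF2 cut_pm_202_b Ext.none)

def k0_pm_202_b : ∃ t, chk3 f_pm_202_b t 1 1 1 = true :=
  ⟨(b (a (b (b (l 19659952) (l 19550496)) (a (l 19288416) (l 19350456))) (b (b (l 19605840) (a (l 19541048) (l 19448240))) (a (b (l 19399816) (l 2)) (l 2)))) (a (b (a (l 19038200) (l 19077728)) (l 2)) (l 2))), by decide +kernel⟩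

theorem c_pm_202_b : CertF 1239849684 370763052 0 536870912 33554432 16777216 true true false .pp 2 0 2
    ndF2q2b ndF2q0 pcF2 cut_pm_202_b Ext.none :=
  certFK0 (fam := true) (s1 := true) (s2 := false) (a := 2) (b := 0) (c := 2) (cn := .pp) (n1 := ndF2q2b) (n2 := ndF2q0) (pc := pcF2) (cut := cut_pm_202_b) (xt := Ext.none) (P1 := 1239849684) (W1 := 370763052) (P2 := 0) (W2 := 536870912) (P3 := 33554432) (W3 := 16777216)
    rfl rfl rfl k0_pm_202_b

noncomputable def f_pm_203_a : ℕ → ℕ → ℕ → ℕ → Bool := onCell 0 536870912 0 536870912 33554432 16777216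
    (rowFK 0 true true false .up 2 0 3 (qsf 0 536870912 0 536870912 3) ndF2q2a ndF2q0 pcF3 Cut.none Ext.none)

def k0_pm_203_a : ∃ t, chk3 f_pm_203_a t 1 1 1 = true :=
  ⟨(b (l 1) (a (b (l 19296856) (l 19038888)) (a (b (l 1) (l 19109192)) (b (l 1) (a (l 19168192) (a (l 19239088) (a (l 19255656) (l 19261600)))))))), by decide +kernel⟩

theorem c_pm_203_a : CertF 0 536870912 0 536870912 33554432 16777216 true true false .up 2 0 3
    ndF2q2a ndF2q0 pcF3 Cut.none Ext.none :=
  certFK0 (fam := true) (s1 := true) (s2 := false) (a := 2) (b := 0) (c := 3) (cn := .up) (n1 := ndF2q2a) (n2 := ndF2q0) (pc := pcF3) (cut := Cut.none) (xt := Ext.none) (P1 := 0) (W1 := 536870912) (P2 := 0) (W2 := 536870912) (P3 := 33554432) (W3 := 16777216)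
    rfl rfl rfl k0_pm_203_a

noncomputable def f_pm_203_b : ℕ → ℕ → ℕ → ℕ → Bool := onCell 1239849684 370763052 1610612736 536870912 33554432 16777216
    (rowFK 1 true true false .up 2 0 3 (qsf 1239849684 370763052 0 536870912 3) ndF2q2b ndF2q0 pcF3 Cut.none Ext.none)

def k0_pm_203_b : ∃ t, chk3 f_pm_203_b t 1 1 1 = true :=
  ⟨(b (b (a (l 19148184) (l 19141928)) (l 18960984)) (b (l 18763016) (l 4))), by decide +kernel⟩

theorem c_pm_203_b : CertF 1239849684 370763052 0 536870912 33554432 16777216 true true false .up 2 0 3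
    ndF2q2b ndF2q0 pcF3 Cut.none Ext.none :=
  certFK1 (fam := true) (s1 := true) (s2 := false) (a := 2) (b := 0) (c := 3) (cn := .up) (n1 := ndF2q2b) (n2 := ndF2q0) (pc := pcF3) (cut := Cut.none) (xt := Ext.none) (P1 := 1239849684) (W1 := 370763052) (P2 := 0) (W2 := 536870912) (P3 := 33554432) (W3 := 16777216)
    rfl rfl rfl (fun _ => rfl) k0_pm_203_b

noncomputable def f_pm_213_a : ℕ → ℕ → ℕ → ℕ → Bool := onCell 0 536870912 536870912 536870912 33554432 16777216
    (rowFK 0 true true false .pnn 2 1 3 (qsf 0 536870912 536870912 536870912 3) ndF2q2a ndF2q1 pcF3 Cut.none Ext.none)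

def k0_pm_213_a : ∃ t, chk3 f_pm_213_a t 1 1 1 = true :=
  ⟨(b (a (b (l 17938024) (l 4)) (a (b (l 17949232) (l 4)) (b (a (l 18149320) (a (l 18178688) (a (l 18177456) (l 18175984)))) (a (l 18024488) (a (l 18078784) (a (l 18331112) (l 18359584))))))) (l 4)), by decide +kernel⟩

theorem c_pm_213_a : CertF 0 536870912 536870912 536870912 33554432 16777216 true true false .pnn 2 1 3
    ndF2q2a ndF2q1 pcF3 Cut.none Ext.none :=
  certFK0 (fam := true) (s1 := true) (s2 := false) (a := 2) (b := 1) (c := 3) (cn := .pnn) (n1 := ndF2q2a) (n2 := ndF2q1) (pc := pcF3) (cut := Cut.none) (xt := Ext.none) (P1 := 0) (W1 := 536870912) (P2 := 536870912) (W2 := 536870912) (P3 := 33554432) (W3 := 16777216)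
    rfl rfl rfl k0_pm_213_a

noncomputable def f_pm_213_b : ℕ → ℕ → ℕ → ℕ → Bool := onCell 1239849684 370763052 1610612736 536870912 33554432 16777216
    (rowFK 1 true true false .pnn 2 1 3 (qsf 1239849684 370763052 536870912 536870912 3) ndF2q2b ndF2q1 pcF3 Cut.none Ext.none)

def k0_pm_213_b : ∃ t, chk3 f_pm_213_b t 1 1 1 = true :=
  ⟨(a (b (b (l 1) (l 17643272)) (l 4)) (b (l 1) (l 4))), by decide +kernel⟩

theorem c_pm_213_b : CertF 1239849684 370763052 536870912 536870912 33554432 16777216 true true false .pnn 2 1 3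
    ndF2q2b ndF2q1 pcF3 Cut.none Ext.none :=
  certFK1 (fam := true) (s1 := true) (s2 := false) (a := 2) (b := 1) (c := 3) (cn := .pnn) (n1 := ndF2q2b) (n2 := ndF2q1) (pc := pcF3) (cut := Cut.none) (xt := Ext.none) (P1 := 1239849684) (W1 := 370763052) (P2 := 536870912) (W2 := 536870912) (P3 := 33554432) (W3 := 16777216)
    rfl rfl rfl (fun _ => rfl) k0_pm_213_b

noncomputable def f_pm_303 : ℕ → ℕ → ℕ → ℕ → Bool := onCell 1610612736 536870912 0 536870912 33554432 16777216
    (rowFK 2 true true false .npn 3 0 3 (qsf 1610612736 536870912 0 536870912 3) ndF2q3 ndF2q0 pcF3 Cut.none Ext.none)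

def k0_pm_303 : ∃ t, chk3 f_pm_303 t 1 1 1 = true :=
  ⟨(a (a (b (b (l 19236024) (l 19130360)) (l 1)) (b (a (l 19249088) (l 19266064)) (l 18871400))) (a (b (a (l 19216856) (l 4)) (l 4)) (l 4))), by decide +kernel⟩

theorem c_pm_303 : CertF 1610612736 536870912 0 536870912 33554432 16777216 true true false .npn 3 0 3
    ndF2q3 ndF2q0 pcF3 Cut.none Ext.none :=
  certFK2 (fam := true) (s1 := true) (s2 := false) (a := 3) (b := 0) (c := 3) (cn := .npn) (n1 := ndF2q3) (n2 := ndF2q0) (pc := pcF3) (cut := Cut.none) (xt := Ext.none) (P1 := 1610612736) (W1 := 536870912) (P2 := 0) (W2 := 536870912) (P3 := 33554432) (W3 := 16777216)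
    rfl rfl rfl (fun _ => rfl) k0_pm_303

noncomputable def f_pm_313 : ℕ → ℕ → ℕ → ℕ → Bool := onCell 1610612736 536870912 536870912 536870912 33554432 16777216
    (rowFK 0 true true false .dn 3 1 3 (qsf 1610612736 536870912 536870912 536870912 3) ndF2q3 ndF2q1 pcF3 Cut.none Ext.none)

def k0_pm_313 : ∃ t, chk3 f_pm_313 t 1 1 1 = true :=
  ⟨(l 4), by decide +kernel⟩

theorem c_pm_313 : CertF 1610612736 536870912 536870912 536870912 33554432 16777216 true true false .dn 3 1 3
    ndF2q3 ndF2q1 pcF3 Cut.none Ext.none :=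
  certFK0 (fam := true) (s1 := true) (s2 := false) (a := 3) (b := 1) (c := 3) (cn := .dn) (n1 := ndF2q3) (n2 := ndF2q1) (pc := pcF3) (cut := Cut.none) (xt := Ext.none) (P1 := 1610612736) (W1 := 536870912) (P2 := 536870912) (W2 := 536870912) (P3 := 33554432) (W3 := 16777216)
    rfl rfl rfl k0_pm_313

noncomputable def f_mm_001 : ℕ → ℕ → ℕ → ℕ → Bool := onCell 0 536870912 0 536870912 33554432 16777216
    (rowFK 0 true false false .up 0 0 1 (qsf 0 536870912 0 536870912 1) ndF2q0 ndF2q0 pcF1 Cut.none Ext.none)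

def k0_mm_001 : ∃ t, chk3 f_mm_001 t 1 1 1 = true :=
  ⟨(l 4), by decide +kernel⟩

theorem c_mm_001 : CertF 0 536870912 0 536870912 33554432 16777216 true false false .up 0 0 1
    ndF2q0 ndF2q0 pcF1 Cut.none Ext.none :=
  certFK0 (fam := true) (s1 := false) (s2 := false) (a := 0) (b := 0) (c := 1) (cn := .up) (n1 := ndF2q0) (n2 := ndF2q0) (pc := pcF1) (cut := Cut.none) (xt := Ext.none) (P1 := 0) (W1 := 536870912) (P2 := 0) (W2 := 536870912) (P3 := 33554432) (W3 := 16777216)
    rfl rfl rfl k0_mm_001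

noncomputable def f_mm_011 : ℕ → ℕ → ℕ → ℕ → Bool := onCell 0 536870912 536870912 536870912 33554432 16777216
    (rowFK 0 true false false .pnn 0 1 1 (qsf 0 536870912 536870912 536870912 1) ndF2q0 ndF2q1 pcF1 Cut.none Ext.none)

def k0_mm_011 : ∃ t, chk3 f_mm_011 t 1 1 1 = true :=
  ⟨(l 4), by decide +kernel⟩

theorem c_mm_011 : CertF 0 536870912 536870912 536870912 33554432 16777216 true false false .pnn 0 1 1
    ndF2q0 ndF2q1 pcF1 Cut.none Ext.none :=
  certFK0 (fam := true) (s1 := false) (s2 := false) (a := 0) (b := 1) (c := 1) (cn := .pnn) (n1 := ndF2q0) (n2 := ndF2q1) (pc := pcF1) (cut := Cut.none) (xt := Ext.none) (P1 := 0) (W1 := 536870912) (P2 := 536870912) (W2 := 536870912) (P3 := 33554432) (W3 := 16777216)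
    rfl rfl rfl k0_mm_011

noncomputable def f_mm_012 : ℕ → ℕ → ℕ → ℕ → Bool := onCell 0 536870912 536870912 536870912 33554432 16777216
    (rowFK 0 true false false .pnp 0 1 2 (qsf 0 536870912 536870912 536870912 2) ndF2q0 ndF2q1 pcF2 Cut.none Ext.none)

def k0_mm_012 : ∃ t, chk3 f_mm_012 t 1 1 1 = true :=
  ⟨(l 4), by decide +kernel⟩

theorem c_mm_012 : CertF 0 536870912 536870912 536870912 33554432 16777216 true false false .pnp 0 1 2
    ndF2q0 ndF2q1 pcF2 Cut.none Ext.none :=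
  certFK0 (fam := true) (s1 := false) (s2 := false) (a := 0) (b := 1) (c := 2) (cn := .pnp) (n1 := ndF2q0) (n2 := ndF2q1) (pc := pcF2) (cut := Cut.none) (xt := Ext.none) (P1 := 0) (W1 := 536870912) (P2 := 536870912) (W2 := 536870912) (P3 := 33554432) (W3 := 16777216)
    rfl rfl rfl k0_mm_012

noncomputable def f_mm_022_a : ℕ → ℕ → ℕ → ℕ → Bool := onCell 0 536870912 0 536870912 33554432 16777216
    (rowFK 0 true false false .pp 0 2 2 (qsf 0 536870912 0 536870912 2) ndF2q0 ndF2q2a pcF2 Cut.none Ext.none)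

def k0_mm_022_a : ∃ t, chk3 f_mm_022_a t 1 1 1 = true :=
  ⟨(l 5), by decide +kernel⟩

theorem c_mm_022_a : CertF 0 536870912 0 536870912 33554432 16777216 true false false .pp 0 2 2
    ndF2q0 ndF2q2a pcF2 Cut.none Ext.none :=
  certFK0 (fam := true) (s1 := false) (s2 := false) (a := 0) (b := 2) (c := 2) (cn := .pp) (n1 := ndF2q0) (n2 := ndF2q2a) (pc := pcF2) (cut := Cut.none) (xt := Ext.none) (P1 := 0) (W1 := 536870912) (P2 := 0) (W2 := 536870912) (P3 := 33554432) (W3 := 16777216)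
    rfl rfl rfl k0_mm_022_a

noncomputable def f_mm_022_b : ℕ → ℕ → ℕ → ℕ → Bool := onCell 0 536870912 1239849684 370763052 33554432 16777216
    (rowFK 0 true false false .pp 0 2 2 (qsf 0 536870912 1239849684 370763052 2) ndF2q0 ndF2q2b pcF2 Cut.none Ext.none)

def k0_mm_022_b : ∃ t, chk3 f_mm_022_b t 1 1 1 = true :=
  ⟨(l 5), by decide +kernel⟩

theorem c_mm_022_b : CertF 0 536870912 1239849684 370763052 33554432 16777216 true false false .pp 0 2 2
    ndF2q0 ndF2q2b pcF2 Cut.none Ext.none :=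
  certFK0 (fam := true) (s1 := false) (s2 := false) (a := 0) (b := 2) (c := 2) (cn := .pp) (n1 := ndF2q0) (n2 := ndF2q2b) (pc := pcF2) (cut := Cut.none) (xt := Ext.none) (P1 := 0) (W1 := 536870912) (P2 := 1239849684) (W2 := 370763052) (P3 := 33554432) (W3 := 16777216)
    rfl rfl rfl k0_mm_022_b

noncomputable def f_mm_023_a : ℕ → ℕ → ℕ → ℕ → Bool := onCell 0 536870912 0 536870912 33554432 16777216
    (rowFK 0 true false false .up 0 2 3 (qsf 0 536870912 0 536870912 3) ndF2q0 ndF2q2a pcF3 Cut.none Ext.none)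

def k0_mm_023_a : ∃ t, chk3 f_mm_023_a t 1 1 1 = true :=
  ⟨(l 5), by decide +kernel⟩

theorem c_mm_023_a : CertF 0 536870912 0 536870912 33554432 16777216 true false false .up 0 2 3
    ndF2q0 ndF2q2a pcF3 Cut.none Ext.none :=
  certFK0 (fam := true) (s1 := false) (s2 := false) (a := 0) (b := 2) (c := 3) (cn := .up) (n1 := ndF2q0) (n2 := ndF2q2a) (pc := pcF3) (cut := Cut.none) (xt := Ext.none) (P1 := 0) (W1 := 536870912) (P2 := 0) (W2 := 536870912) (P3 := 33554432) (W3 := 16777216)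
    rfl rfl rfl k0_mm_023_a

noncomputable def f_mm_023_b : ℕ → ℕ → ℕ → ℕ → Bool := onCell 0 536870912 1239849684 370763052 33554432 16777216
    (rowFK 0 true false false .up 0 2 3 (qsf 0 536870912 1239849684 370763052 3) ndF2q0 ndF2q2b pcF3 Cut.none Ext.none)

def k0_mm_023_b : ∃ t, chk3 f_mm_023_b t 1 1 1 = true :=
  ⟨(l 5), by decide +kernel⟩

theorem c_mm_023_b : CertF 0 536870912 1239849684 370763052 33554432 16777216 true false false .up 0 2 3
    ndF2q0 ndF2q2b pcF3 Cut.none Ext.none :=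
  certFK0 (fam := true) (s1 := false) (s2 := false) (a := 0) (b := 2) (c := 3) (cn := .up) (n1 := ndF2q0) (n2 := ndF2q2b) (pc := pcF3) (cut := Cut.none) (xt := Ext.none) (P1 := 0) (W1 := 536870912) (P2 := 1239849684) (W2 := 370763052) (P3 := 33554432) (W3 := 16777216)
    rfl rfl rfl k0_mm_023_b

noncomputable def f_mm_033 : ℕ → ℕ → ℕ → ℕ → Bool := onCell 0 536870912 1610612736 536870912 33554432 16777216
    (rowFK 0 true false false .pnn 0 3 3 (qsf 0 536870912 1610612736 536870912 3) ndF2q0 ndF2q3 pcF3 Cut.none Ext.none)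

def k0_mm_033 : ∃ t, chk3 f_mm_033 t 1 1 1 = true :=
  ⟨(l 4), by decide +kernel⟩

theorem c_mm_033 : CertF 0 536870912 1610612736 536870912 33554432 16777216 true false false .pnn 0 3 3
    ndF2q0 ndF2q3 pcF3 Cut.none Ext.none :=
  certFK0 (fam := true) (s1 := false) (s2 := false) (a := 0) (b := 3) (c := 3) (cn := .pnn) (n1 := ndF2q0) (n2 := ndF2q3) (pc := pcF3) (cut := Cut.none) (xt := Ext.none) (P1 := 0) (W1 := 536870912) (P2 := 1610612736) (W2 := 536870912) (P3 := 33554432) (W3 := 16777216)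
    rfl rfl rfl k0_mm_033

noncomputable def f_mm_101 : ℕ → ℕ → ℕ → ℕ → Bool := onCell 536870912 536870912 0 536870912 33554432 16777216
    (rowFK 0 true false false .npn 1 0 1 (qsf 536870912 536870912 0 536870912 1) ndF2q1 ndF2q0 pcF1 Cut.none Ext.none)

def k0_mm_101 : ∃ t, chk3 f_mm_101 t 1 1 1 = true :=
  ⟨(l 4), by decide +kernel⟩

theorem c_mm_101 : CertF 536870912 536870912 0 536870912 33554432 16777216 true false false .npn 1 0 1
    ndF2q1 ndF2q0 pcF1 Cut.none Ext.none :=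
  certFK0 (fam := true) (s1 := false) (s2 := false) (a := 1) (b := 0) (c := 1) (cn := .npn) (n1 := ndF2q1) (n2 := ndF2q0) (pc := pcF1) (cut := Cut.none) (xt := Ext.none) (P1 := 536870912) (W1 := 536870912) (P2 := 0) (W2 := 536870912) (P3 := 33554432) (W3 := 16777216)
    rfl rfl rfl k0_mm_101

noncomputable def f_mm_102 : ℕ → ℕ → ℕ → ℕ → Bool := onCell 536870912 536870912 0 536870912 33554432 16777216
    (rowFK 0 true false false .npp 1 0 2 (qsf 536870912 536870912 0 536870912 2) ndF2q1 ndF2q0 pcF2 Cut.none Ext.none)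

def k0_mm_102 : ∃ t, chk3 f_mm_102 t 1 1 1 = true :=
  ⟨(l 4), by decide +kernel⟩

theorem c_mm_102 : CertF 536870912 536870912 0 536870912 33554432 16777216 true false false .npp 1 0 2
    ndF2q1 ndF2q0 pcF2 Cut.none Ext.none :=
  certFK0 (fam := true) (s1 := false) (s2 := false) (a := 1) (b := 0) (c := 2) (cn := .npp) (n1 := ndF2q1) (n2 := ndF2q0) (pc := pcF2) (cut := Cut.none) (xt := Ext.none) (P1 := 536870912) (W1 := 536870912) (P2 := 0) (W2 := 536870912) (P3 := 33554432) (W3 := 16777216)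
    rfl rfl rfl k0_mm_102

noncomputable def f_mm_112 : ℕ → ℕ → ℕ → ℕ → Bool := onCell 536870912 536870912 536870912 536870912 33554432 16777216
    (rowFK 0 true false false .dn 1 1 2 (qsf 536870912 536870912 536870912 536870912 2) ndF2q1 ndF2q1 pcF2 Cut.none Ext.none)

def k0_mm_112 : ∃ t, chk3 f_mm_112 t 1 1 1 = true :=
  ⟨(l 4), by decide +kernel⟩

theorem c_mm_112 : CertF 536870912 536870912 536870912 536870912 33554432 16777216 true false false .dn 1 1 2
    ndF2q1 ndF2q1 pcF2 Cut.none Ext.none :=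
  certFK0 (fam := true) (s1 := false) (s2 := false) (a := 1) (b := 1) (c := 2) (cn := .dn) (n1 := ndF2q1) (n2 := ndF2q1) (pc := pcF2) (cut := Cut.none) (xt := Ext.none) (P1 := 536870912) (W1 := 536870912) (P2 := 536870912) (W2 := 536870912) (P3 := 33554432) (W3 := 16777216)
    rfl rfl rfl k0_mm_112

noncomputable def f_mm_113 : ℕ → ℕ → ℕ → ℕ → Bool := onCell 536870912 536870912 536870912 536870912 33554432 16777216
    (rowFK 0 true false false .nn 1 1 3 (qsf 536870912 536870912 536870912 536870912 3) ndF2q1 ndF2q1 pcF3 Cut.none Ext.none)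

def k0_mm_113 : ∃ t, chk3 f_mm_113 t 1 1 1 = true :=
  ⟨(l 4), by decide +kernel⟩

theorem c_mm_113 : CertF 536870912 536870912 536870912 536870912 33554432 16777216 true false false .nn 1 1 3
    ndF2q1 ndF2q1 pcF3 Cut.none Ext.none :=
  certFK0 (fam := true) (s1 := false) (s2 := false) (a := 1) (b := 1) (c := 3) (cn := .nn) (n1 := ndF2q1) (n2 := ndF2q1) (pc := pcF3) (cut := Cut.none) (xt := Ext.none) (P1 := 536870912) (W1 := 536870912) (P2 := 536870912) (W2 := 536870912) (P3 := 33554432) (W3 := 16777216)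
    rfl rfl rfl k0_mm_113

noncomputable def f_mm_123_a : ℕ → ℕ → ℕ → ℕ → Bool := onCell 536870912 536870912 0 536870912 33554432 16777216
    (rowFK 0 true false false .npn 1 2 3 (qsf 536870912 536870912 0 536870912 3) ndF2q1 ndF2q2a pcF3 Cut.none Ext.none)

def k0_mm_123_a : ∃ t, chk3 f_mm_123_a t 1 1 1 = true :=
  ⟨(l 4), by decide +kernel⟩

theorem c_mm_123_a : CertF 536870912 536870912 0 536870912 33554432 16777216 true false false .npn 1 2 3
    ndF2q1 ndF2q2a pcF3 Cut.none Ext.none :=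
  certFK0 (fam := true) (s1 := false) (s2 := false) (a := 1) (b := 2) (c := 3) (cn := .npn) (n1 := ndF2q1) (n2 := ndF2q2a) (pc := pcF3) (cut := Cut.none) (xt := Ext.none) (P1 := 536870912) (W1 := 536870912) (P2 := 0) (W2 := 536870912) (P3 := 33554432) (W3 := 16777216)
    rfl rfl rfl k0_mm_123_a

noncomputable def f_mm_123_b : ℕ → ℕ → ℕ → ℕ → Bool := onCell 536870912 536870912 1239849684 370763052 33554432 16777216
    (rowFK 0 true false false .npn 1 2 3 (qsf 536870912 536870912 1239849684 370763052 3) ndF2q1 ndF2q2b pcF3 Cut.none Ext.none)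

def k0_mm_123_b : ∃ t, chk3 f_mm_123_b t 1 1 1 = true :=
  ⟨(l 4), by decide +kernel⟩

theorem c_mm_123_b : CertF 536870912 536870912 1239849684 370763052 33554432 16777216 true false false .npn 1 2 3
    ndF2q1 ndF2q2b pcF3 Cut.none Ext.none :=
  certFK0 (fam := true) (s1 := false) (s2 := false) (a := 1) (b := 2) (c := 3) (cn := .npn) (n1 := ndF2q1) (n2 := ndF2q2b) (pc := pcF3) (cut := Cut.none) (xt := Ext.none) (P1 := 536870912) (W1 := 536870912) (P2 := 1239849684) (W2 := 370763052) (P3 := 33554432) (W3 := 16777216)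
    rfl rfl rfl k0_mm_123_b

noncomputable def f_mm_133 : ℕ → ℕ → ℕ → ℕ → Bool := onCell 536870912 536870912 1610612736 536870912 33554432 16777216
    (rowFK 0 true false false .dn 1 3 3 (qsf 536870912 536870912 1610612736 536870912 3) ndF2q1 ndF2q3 pcF3 Cut.none Ext.none)

def k0_mm_133 : ∃ t, chk3 f_mm_133 t 1 1 1 = true :=
  ⟨(l 4), by decide +kernel⟩

theorem c_mm_133 : CertF 536870912 536870912 1610612736 536870912 33554432 16777216 true false false .dn 1 3 3
    ndF2q1 ndF2q3 pcF3 Cut.none Ext.none :=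
  certFK0 (fam := true) (s1 := false) (s2 := false) (a := 1) (b := 3) (c := 3) (cn := .dn) (n1 := ndF2q1) (n2 := ndF2q3) (pc := pcF3) (cut := Cut.none) (xt := Ext.none) (P1 := 536870912) (W1 := 536870912) (P2 := 1610612736) (W2 := 536870912) (P3 := 33554432) (W3 := 16777216)
    rfl rfl rfl k0_mm_133

noncomputable def cut_mm_202_a : Cut := Cut.of [[⟨0, 1, 0, 33554432⟩, ⟨1, 0, 0, 33554432⟩, ⟨2, 1, 0, 33554432⟩]]

noncomputable def f_mm_202_a : ℕ → ℕ → ℕ → ℕ → Bool := onCell 0 536870912 0 536870912 33554432 16777216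
    (rowFK 0 true false false .pp 2 0 2 (qsf 0 536870912 0 536870912 2) ndF2q2a ndF2q0 pcF2 cut_mm_202_a Ext.none)

def k0_mm_202_a : ∃ t, chk3 f_mm_202_a t 1 1 1 = true :=
  ⟨(b (a (l 4) (a (l 4) (b (a (l 4) (a (l 4) (a (l 4) (b (b (b (l 6) (l 4)) (l 4)) (l 4))))) (l 4)))) (l 4)), by decide +kernel⟩

theorem c_mm_202_a : CertF 0 536870912 0 536870912 33554432 16777216 true false false .pp 2 0 2
    ndF2q2a ndF2q0 pcF2 cut_mm_202_a Ext.none :=
  certFK0 (fam := true) (s1 := false) (s2 := false) (a := 2) (b := 0) (c := 2) (cn := .pp) (n1 := ndF2q2a) (n2 := ndF2q0) (pc := pcF2) (cut := cut_mm_202_a) (xt := Ext.none) (P1 := 0) (W1 := 536870912) (P2 := 0) (W2 := 536870912) (P3 := 33554432) (W3 := 16777216)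
    rfl rfl rfl k0_mm_202_a

noncomputable def cut_mm_202_b : Cut := Cut.of [[⟨0, 1, 0, 33554432⟩, ⟨1, 0, 0, 33554432⟩, ⟨2, 1, 0, 33554432⟩]]

noncomputable def f_mm_202_b : ℕ → ℕ → ℕ → ℕ → Bool := onCell 1239849684 370763052 0 536870912 33554432 16777216
    (rowFK 0 true false false .pp 2 0 2 (qsf 1239849684 370763052 0 536870912 2) ndF2q2b ndF2q0 pcF2 cut_mm_202_b Ext.none)

def k0_mm_202_b : ∃ t, chk3 f_mm_202_b t 1 1 1 = true :=
  ⟨(b (l 4) (l 4)), by decide +kernel⟩

theorem c_mm_202_b : CertF 1239849684 370763052 0 536870912 33554432 16777216 true false false .pp 2 0 2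
    ndF2q2b ndF2q0 pcF2 cut_mm_202_b Ext.none :=
  certFK0 (fam := true) (s1 := false) (s2 := false) (a := 2) (b := 0) (c := 2) (cn := .pp) (n1 := ndF2q2b) (n2 := ndF2q0) (pc := pcF2) (cut := cut_mm_202_b) (xt := Ext.none) (P1 := 1239849684) (W1 := 370763052) (P2 := 0) (W2 := 536870912) (P3 := 33554432) (W3 := 16777216)
    rfl rfl rfl k0_mm_202_b

noncomputable def f_mm_203_a : ℕ → ℕ → ℕ → ℕ → Bool := onCell 0 536870912 1610612736 536870912 33554432 16777216
    (rowFK 1 true false false .up 2 0 3 (qsf 0 536870912 0 536870912 3) ndF2q2a ndF2q0 pcF3 Cut.none Ext.none)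

def k0_mm_203_a : ∃ t, chk3 f_mm_203_a t 1 1 1 = true :=
  ⟨(l 4), by decide +kernel⟩

theorem c_mm_203_a : CertF 0 536870912 0 536870912 33554432 16777216 true false false .up 2 0 3
    ndF2q2a ndF2q0 pcF3 Cut.none Ext.none :=
  certFK1 (fam := true) (s1 := false) (s2 := false) (a := 2) (b := 0) (c := 3) (cn := .up) (n1 := ndF2q2a) (n2 := ndF2q0) (pc := pcF3) (cut := Cut.none) (xt := Ext.none) (P1 := 0) (W1 := 536870912) (P2 := 0) (W2 := 536870912) (P3 := 33554432) (W3 := 16777216)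
    rfl rfl rfl (fun _ => rfl) k0_mm_203_a

noncomputable def f_mm_203_b : ℕ → ℕ → ℕ → ℕ → Bool := onCell 1239849684 370763052 1610612736 536870912 33554432 16777216
    (rowFK 1 true false false .up 2 0 3 (qsf 1239849684 370763052 0 536870912 3) ndF2q2b ndF2q0 pcF3 Cut.none Ext.none)

def k0_mm_203_b : ∃ t, chk3 f_mm_203_b t 1 1 1 = true :=
  ⟨(l 4), by decide +kernel⟩

theorem c_mm_203_b : CertF 1239849684 370763052 0 536870912 33554432 16777216 true false false .up 2 0 3
    ndF2q2b ndF2q0 pcF3 Cut.none Ext.none :=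
  certFK1 (fam := true) (s1 := false) (s2 := false) (a := 2) (b := 0) (c := 3) (cn := .up) (n1 := ndF2q2b) (n2 := ndF2q0) (pc := pcF3) (cut := Cut.none) (xt := Ext.none) (P1 := 1239849684) (W1 := 370763052) (P2 := 0) (W2 := 536870912) (P3 := 33554432) (W3 := 16777216)
    rfl rfl rfl (fun _ => rfl) k0_mm_203_b

noncomputable def f_mm_213_a : ℕ → ℕ → ℕ → ℕ → Bool := onCell 0 536870912 536870912 536870912 33554432 16777216
    (rowFK 0 true false false .pnn 2 1 3 (qsf 0 536870912 536870912 536870912 3) ndF2q2a ndF2q1 pcF3 Cut.none Ext.none)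

def k0_mm_213_a : ∃ t, chk3 f_mm_213_a t 1 1 1 = true :=
  ⟨(l 4), by decide +kernel⟩

theorem c_mm_213_a : CertF 0 536870912 536870912 536870912 33554432 16777216 true false false .pnn 2 1 3
    ndF2q2a ndF2q1 pcF3 Cut.none Ext.none :=
  certFK0 (fam := true) (s1 := false) (s2 := false) (a := 2) (b := 1) (c := 3) (cn := .pnn) (n1 := ndF2q2a) (n2 := ndF2q1) (pc := pcF3) (cut := Cut.none) (xt := Ext.none) (P1 := 0) (W1 := 536870912) (P2 := 536870912) (W2 := 536870912) (P3 := 33554432) (W3 := 16777216)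
    rfl rfl rfl k0_mm_213_a

noncomputable def f_mm_213_b : ℕ → ℕ → ℕ → ℕ → Bool := onCell 1239849684 370763052 536870912 536870912 33554432 16777216
    (rowFK 0 true false false .pnn 2 1 3 (qsf 1239849684 370763052 536870912 536870912 3) ndF2q2b ndF2q1 pcF3 Cut.none Ext.none)

def k0_mm_213_b : ∃ t, chk3 f_mm_213_b t 1 1 1 = true :=
  ⟨(l 4), by decide +kernel⟩

theorem c_mm_213_b : CertF 1239849684 370763052 536870912 536870912 33554432 16777216 true false false .pnn 2 1 3
    ndF2q2b ndF2q1 pcF3 Cut.none Ext.none :=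
  certFK0 (fam := true) (s1 := false) (s2 := false) (a := 2) (b := 1) (c := 3) (cn := .pnn) (n1 := ndF2q2b) (n2 := ndF2q1) (pc := pcF3) (cut := Cut.none) (xt := Ext.none) (P1 := 1239849684) (W1 := 370763052) (P2 := 536870912) (W2 := 536870912) (P3 := 33554432) (W3 := 16777216)
    rfl rfl rfl k0_mm_213_b

noncomputable def f_mm_303 : ℕ → ℕ → ℕ → ℕ → Bool := onCell 1610612736 536870912 0 536870912 33554432 16777216
    (rowFK 0 true false false .npn 3 0 3 (qsf 1610612736 536870912 0 536870912 3) ndF2q3 ndF2q0 pcF3 Cut.none Ext.none)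

def k0_mm_303 : ∃ t, chk3 f_mm_303 t 1 1 1 = true :=
  ⟨(l 4), by decide +kernel⟩

theorem c_mm_303 : CertF 1610612736 536870912 0 536870912 33554432 16777216 true false false .npn 3 0 3
    ndF2q3 ndF2q0 pcF3 Cut.none Ext.none :=
  certFK0 (fam := true) (s1 := false) (s2 := false) (a := 3) (b := 0) (c := 3) (cn := .npn) (n1 := ndF2q3) (n2 := ndF2q0) (pc := pcF3) (cut := Cut.none) (xt := Ext.none) (P1 := 1610612736) (W1 := 536870912) (P2 := 0) (W2 := 536870912) (P3 := 33554432) (W3 := 16777216)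
    rfl rfl rfl k0_mm_303

noncomputable def f_mm_313 : ℕ → ℕ → ℕ → ℕ → Bool := onCell 1610612736 536870912 536870912 536870912 33554432 16777216
    (rowFK 0 true false false .dn 3 1 3 (qsf 1610612736 536870912 536870912 536870912 3) ndF2q3 ndF2q1 pcF3 Cut.none Ext.none)

def k0_mm_313 : ∃ t, chk3 f_mm_313 t 1 1 1 = true :=
  ⟨(l 4), by decide +kernel⟩

theorem c_mm_313 : CertF 1610612736 536870912 536870912 536870912 33554432 16777216 true false false .dn 3 1 3
    ndF2q3 ndF2q1 pcF3 Cut.none Ext.none :=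
  certFK0 (fam := true) (s1 := false) (s2 := false) (a := 3) (b := 1) (c := 3) (cn := .dn) (n1 := ndF2q3) (n2 := ndF2q1) (pc := pcF3) (cut := Cut.none) (xt := Ext.none) (P1 := 1610612736) (W1 := 536870912) (P2 := 536870912) (W2 := 536870912) (P3 := 33554432) (W3 := 16777216)
    rfl rfl rfl k0_mm_313

end Pool.Agent.Strip051.G.I1_32_3_64.Tab.C.FA22

namespace Pool.Agent.Strip051.G.I1_32_3_64.Tab.C.FA23

open Pool.Agent.Strip051.PB Pool.Agent.Strip051.PB.T
open Pool.Agent.Strip051.G.I1_32_3_64.Tab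

noncomputable def f_pp_001 : ℕ → ℕ → ℕ → ℕ → Bool := onCell 0 536870912 0 536870912 33554432 16777216
    (rowFK 0 true true true .up 0 0 1 (qsf 0 536870912 0 536870912 1) ndF2q0 ndF3q0 pcF1 Cut.none Ext.none)

def k0_pp_001 : ∃ t, chk3 f_pp_001 t 1 1 1 = true :=
  ⟨(l 4), by decide +kernel⟩

theorem c_pp_001 : CertF 0 536870912 0 536870912 33554432 16777216 true true true .up 0 0 1
    ndF2q0 ndF3q0 pcF1 Cut.none Ext.none :=
  certFK0 (fam := true) (s1 := true) (s2 := true) (a := 0) (b := 0) (c := 1) (cn := .up) (n1 := ndF2q0) (n2 := ndF3q0) (pc := pcF1) (cut := Cut.none) (xt := Ext.none) (P1 := 0) (W1 := 536870912) (P2 := 0) (W2 := 536870912) (P3 := 33554432) (W3 := 16777216)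
    rfl rfl rfl k0_pp_001

noncomputable def f_pp_011 : ℕ → ℕ → ℕ → ℕ → Bool := onCell 0 536870912 536870912 536870912 33554432 16777216
    (rowFK 0 true true true .pnn 0 1 1 (qsf 0 536870912 536870912 536870912 1) ndF2q0 ndF3q1 pcF1 Cut.none Ext.none)

def k0_pp_011 : ∃ t, chk3 f_pp_011 t 1 1 1 = true :=
  ⟨(l 4), by decide +kernel⟩

theorem c_pp_011 : CertF 0 536870912 536870912 536870912 33554432 16777216 true true true .pnn 0 1 1
    ndF2q0 ndF3q1 pcF1 Cut.none Ext.none :=
  certFK0 (fam := true) (s1 := true) (s2 := true) (a := 0) (b := 1) (c := 1) (cn := .pnn) (n1 := ndF2q0) (n2 := ndF3q1) (pc := pcF1) (cut := Cut.none) (xt := Ext.none) (P1 := 0) (W1 := 536870912) (P2 := 536870912) (W2 := 536870912) (P3 := 33554432) (W3 := 16777216)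
    rfl rfl rfl k0_pp_011

noncomputable def f_pp_012 : ℕ → ℕ → ℕ → ℕ → Bool := onCell 0 536870912 536870912 536870912 33554432 16777216
    (rowFK 0 true true true .pnp 0 1 2 (qsf 0 536870912 536870912 536870912 2) ndF2q0 ndF3q1 pcF2 Cut.none Ext.none)

def k0_pp_012 : ∃ t, chk3 f_pp_012 t 1 1 1 = true :=
  ⟨(l 4), by decide +kernel⟩

theorem c_pp_012 : CertF 0 536870912 536870912 536870912 33554432 16777216 true true true .pnp 0 1 2
    ndF2q0 ndF3q1 pcF2 Cut.none Ext.none :=
  certFK0 (fam := true) (s1 := true) (s2 := true) (a := 0) (b := 1) (c := 2) (cn := .pnp) (n1 := ndF2q0) (n2 := ndF3q1) (pc := pcF2) (cut := Cut.none) (xt := Ext.none) (P1 := 0) (W1 := 536870912) (P2 := 536870912) (W2 := 536870912) (P3 := 33554432) (W3 := 16777216)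
    rfl rfl rfl k0_pp_012

noncomputable def f_pp_022 : ℕ → ℕ → ℕ → ℕ → Bool := onCell 0 536870912 1073741824 536870912 33554432 16777216
    (rowFK 0 true true true .pp 0 2 2 (qsf 0 536870912 1073741824 536870912 2) ndF2q0 ndF3q2 pcF2 Cut.none Ext.none)

def k0_pp_022 : ∃ t, chk3 f_pp_022 t 1 1 1 = true :=
  ⟨(l 4), by decide +kernel⟩

theorem c_pp_022 : CertF 0 536870912 1073741824 536870912 33554432 16777216 true true true .pp 0 2 2
    ndF2q0 ndF3q2 pcF2 Cut.none Ext.none :=
  certFK0 (fam := true) (s1 := true) (s2 := true) (a := 0) (b := 2) (c := 2) (cn := .pp) (n1 := ndF2q0) (n2 := ndF3q2) (pc := pcF2) (cut := Cut.none) (xt := Ext.none) (P1 := 0) (W1 := 536870912) (P2 := 1073741824) (W2 := 536870912) (P3 := 33554432) (W3 := 16777216)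
    rfl rfl rfl k0_pp_022

noncomputable def f_pp_023 : ℕ → ℕ → ℕ → ℕ → Bool := onCell 0 536870912 1073741824 536870912 33554432 16777216
    (rowFK 0 true true true .up 0 2 3 (qsf 0 536870912 1073741824 536870912 3) ndF2q0 ndF3q2 pcF3 Cut.none Ext.none)

def k0_pp_023 : ∃ t, chk3 f_pp_023 t 1 1 1 = true :=
  ⟨(l 4), by decide +kernel⟩

theorem c_pp_023 : CertF 0 536870912 1073741824 536870912 33554432 16777216 true true true .up 0 2 3
    ndF2q0 ndF3q2 pcF3 Cut.none Ext.none :=
  certFK0 (fam := true) (s1 := true) (s2 := true) (a := 0) (b := 2) (c := 3) (cn := .up) (n1 := ndF2q0) (n2 := ndF3q2) (pc := pcF3) (cut := Cut.none) (xt := Ext.none) (P1 := 0) (W1 := 536870912) (P2 := 1073741824) (W2 := 536870912) (P3 := 33554432) (W3 := 16777216)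
    rfl rfl rfl k0_pp_023

noncomputable def f_pp_033 : ℕ → ℕ → ℕ → ℕ → Bool := onCell 0 536870912 0 1230186008 33554432 16777216
    (rowFK 0 true true true .pnn 0 3 3 (qsf 0 536870912 0 1230186008 3) ndF2q0 ndF3q3 pcF3 Cut.none Ext.none)

def k0_pp_033 : ∃ t, chk3 f_pp_033 t 1 1 1 = true :=
  ⟨(b (l 4) (l 4)), by decide +kernel⟩

theorem c_pp_033 : CertF 0 536870912 0 1230186008 33554432 16777216 true true true .pnn 0 3 3
    ndF2q0 ndF3q3 pcF3 Cut.none Ext.none :=
  certFK0 (fam := true) (s1 := true) (s2 := true) (a := 0) (b := 3) (c := 3) (cn := .pnn) (n1 := ndF2q0) (n2 := ndF3q3) (pc := pcF3) (cut := Cut.none) (xt := Ext.none) (P1 := 0) (W1 := 536870912) (P2 := 0) (W2 := 1230186008) (P3 := 33554432) (W3 := 16777216)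
    rfl rfl rfl k0_pp_033

noncomputable def f_pp_101 : ℕ → ℕ → ℕ → ℕ → Bool := onCell 536870912 536870912 0 536870912 33554432 16777216
    (rowFK 0 true true true .npn 1 0 1 (qsf 536870912 536870912 0 536870912 1) ndF2q1 ndF3q0 pcF1 Cut.none Ext.none)

def k0_pp_101 : ∃ t, chk3 f_pp_101 t 1 1 1 = true :=
  ⟨(l 4), by decide +kernel⟩

theorem c_pp_101 : CertF 536870912 536870912 0 536870912 33554432 16777216 true true true .npn 1 0 1
    ndF2q1 ndF3q0 pcF1 Cut.none Ext.none :=
  certFK0 (fam := true) (s1 := true) (s2 := true) (a := 1) (b := 0) (c := 1) (cn := .npn) (n1 := ndF2q1) (n2 := ndF3q0) (pc := pcF1) (cut := Cut.none) (xt := Ext.none) (P1 := 536870912) (W1 := 536870912) (P2 := 0) (W2 := 536870912) (P3 := 33554432) (W3 := 16777216)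
    rfl rfl rfl k0_pp_101

noncomputable def f_pp_102 : ℕ → ℕ → ℕ → ℕ → Bool := onCell 536870912 536870912 0 536870912 33554432 16777216
    (rowFK 0 true true true .npp 1 0 2 (qsf 536870912 536870912 0 536870912 2) ndF2q1 ndF3q0 pcF2 Cut.none Ext.none)

def k0_pp_102 : ∃ t, chk3 f_pp_102 t 1 1 1 = true :=
  ⟨(l 4), by decide +kernel⟩

theorem c_pp_102 : CertF 536870912 536870912 0 536870912 33554432 16777216 true true true .npp 1 0 2
    ndF2q1 ndF3q0 pcF2 Cut.none Ext.none :=
  certFK0 (fam := true) (s1 := true) (s2 := true) (a := 1) (b := 0) (c := 2) (cn := .npp) (n1 := ndF2q1) (n2 := ndF3q0) (pc := pcF2) (cut := Cut.none) (xt := Ext.none) (P1 := 536870912) (W1 := 536870912) (P2 := 0) (W2 := 536870912) (P3 := 33554432) (W3 := 16777216)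
    rfl rfl rfl k0_pp_102

noncomputable def f_pp_112 : ℕ → ℕ → ℕ → ℕ → Bool := onCell 536870912 536870912 536870912 536870912 33554432 16777216
    (rowFK 0 true true true .dn 1 1 2 (qsf 536870912 536870912 536870912 536870912 2) ndF2q1 ndF3q1 pcF2 Cut.none Ext.none)

def k0_pp_112 : ∃ t, chk3 f_pp_112 t 1 1 1 = true :=
  ⟨(l 4), by decide +kernel⟩

theorem c_pp_112 : CertF 536870912 536870912 536870912 536870912 33554432 16777216 true true true .dn 1 1 2
    ndF2q1 ndF3q1 pcF2 Cut.none Ext.none :=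
  certFK0 (fam := true) (s1 := true) (s2 := true) (a := 1) (b := 1) (c := 2) (cn := .dn) (n1 := ndF2q1) (n2 := ndF3q1) (pc := pcF2) (cut := Cut.none) (xt := Ext.none) (P1 := 536870912) (W1 := 536870912) (P2 := 536870912) (W2 := 536870912) (P3 := 33554432) (W3 := 16777216)
    rfl rfl rfl k0_pp_112

noncomputable def f_pp_113 : ℕ → ℕ → ℕ → ℕ → Bool := onCell 536870912 536870912 536870912 536870912 33554432 16777216
    (rowFK 0 true true true .nn 1 1 3 (qsf 536870912 536870912 536870912 536870912 3) ndF2q1 ndF3q1 pcF3 Cut.none Ext.none)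

def k0_pp_113 : ∃ t, chk3 f_pp_113 t 1 1 1 = true :=
  ⟨(l 4), by decide +kernel⟩

theorem c_pp_113 : CertF 536870912 536870912 536870912 536870912 33554432 16777216 true true true .nn 1 1 3
    ndF2q1 ndF3q1 pcF3 Cut.none Ext.none :=
  certFK0 (fam := true) (s1 := true) (s2 := true) (a := 1) (b := 1) (c := 3) (cn := .nn) (n1 := ndF2q1) (n2 := ndF3q1) (pc := pcF3) (cut := Cut.none) (xt := Ext.none) (P1 := 536870912) (W1 := 536870912) (P2 := 536870912) (W2 := 536870912) (P3 := 33554432) (W3 := 16777216)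
    rfl rfl rfl k0_pp_113

noncomputable def f_pp_123 : ℕ → ℕ → ℕ → ℕ → Bool := onCell 536870912 536870912 1073741824 536870912 33554432 16777216
    (rowFK 0 true true true .npn 1 2 3 (qsf 536870912 536870912 1073741824 536870912 3) ndF2q1 ndF3q2 pcF3 Cut.none Ext.none)

def k0_pp_123 : ∃ t, chk3 f_pp_123 t 1 1 1 = true :=
  ⟨(l 4), by decide +kernel⟩

theorem c_pp_123 : CertF 536870912 536870912 1073741824 536870912 33554432 16777216 true true true .npn 1 2 3
    ndF2q1 ndF3q2 pcF3 Cut.none Ext.none :=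
  certFK0 (fam := true) (s1 := true) (s2 := true) (a := 1) (b := 2) (c := 3) (cn := .npn) (n1 := ndF2q1) (n2 := ndF3q2) (pc := pcF3) (cut := Cut.none) (xt := Ext.none) (P1 := 536870912) (W1 := 536870912) (P2 := 1073741824) (W2 := 536870912) (P3 := 33554432) (W3 := 16777216)
    rfl rfl rfl k0_pp_123

noncomputable def f_pp_133 : ℕ → ℕ → ℕ → ℕ → Bool := onCell 536870912 536870912 0 1230186008 33554432 16777216
    (rowFK 0 true true true .dn 1 3 3 (qsf 536870912 536870912 0 1230186008 3) ndF2q1 ndF3q3 pcF3 Cut.none Ext.none)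

def k0_pp_133 : ∃ t, chk3 f_pp_133 t 1 1 1 = true :=
  ⟨(l 4), by decide +kernel⟩

theorem c_pp_133 : CertF 536870912 536870912 0 1230186008 33554432 16777216 true true true .dn 1 3 3
    ndF2q1 ndF3q3 pcF3 Cut.none Ext.none :=
  certFK0 (fam := true) (s1 := true) (s2 := true) (a := 1) (b := 3) (c := 3) (cn := .dn) (n1 := ndF2q1) (n2 := ndF3q3) (pc := pcF3) (cut := Cut.none) (xt := Ext.none) (P1 := 536870912) (W1 := 536870912) (P2 := 0) (W2 := 1230186008) (P3 := 33554432) (W3 := 16777216)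
    rfl rfl rfl k0_pp_133

noncomputable def f_pp_202_a : ℕ → ℕ → ℕ → ℕ → Bool := onCell 0 536870912 0 536870912 33554432 16777216
    (rowFK 0 true true true .pp 2 0 2 (qsf 0 536870912 0 536870912 2) ndF2q2a ndF3q0 pcF2 Cut.none Ext.none)

def k0_pp_202_a : ∃ t, chk3 f_pp_202_a t 1 1 1 = true :=
  ⟨(l 4), by decide +kernel⟩

theorem c_pp_202_a : CertF 0 536870912 0 536870912 33554432 16777216 true true true .pp 2 0 2
    ndF2q2a ndF3q0 pcF2 Cut.none Ext.none :=
  certFK0 (fam := true) (s1 := true) (s2 := true) (a := 2) (b := 0) (c := 2) (cn := .pp) (n1 := ndF2q2a) (n2 := ndF3q0) (pc := pcF2) (cut := Cut.none) (xt := Ext.none) (P1 := 0) (W1 := 536870912) (P2 := 0) (W2 := 536870912) (P3 := 33554432) (W3 := 16777216)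
    rfl rfl rfl k0_pp_202_a

noncomputable def f_pp_202_b : ℕ → ℕ → ℕ → ℕ → Bool := onCell 1239849684 370763052 0 536870912 33554432 16777216
    (rowFK 0 true true true .pp 2 0 2 (qsf 1239849684 370763052 0 536870912 2) ndF2q2b ndF3q0 pcF2 Cut.none Ext.none)

def k0_pp_202_b : ∃ t, chk3 f_pp_202_b t 1 1 1 = true :=
  ⟨(l 4), by decide +kernel⟩

theorem c_pp_202_b : CertF 1239849684 370763052 0 536870912 33554432 16777216 true true true .pp 2 0 2
    ndF2q2b ndF3q0 pcF2 Cut.none Ext.none :=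
  certFK0 (fam := true) (s1 := true) (s2 := true) (a := 2) (b := 0) (c := 2) (cn := .pp) (n1 := ndF2q2b) (n2 := ndF3q0) (pc := pcF2) (cut := Cut.none) (xt := Ext.none) (P1 := 1239849684) (W1 := 370763052) (P2 := 0) (W2 := 536870912) (P3 := 33554432) (W3 := 16777216)
    rfl rfl rfl k0_pp_202_b

noncomputable def f_pp_203_a : ℕ → ℕ → ℕ → ℕ → Bool := onCell 0 536870912 0 536870912 33554432 16777216
    (rowFK 0 true true true .up 2 0 3 (qsf 0 536870912 0 536870912 3) ndF2q2a ndF3q0 pcF3 Cut.none Ext.none)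

def k0_pp_203_a : ∃ t, chk3 f_pp_203_a t 1 1 1 = true :=
  ⟨(l 4), by decide +kernel⟩

theorem c_pp_203_a : CertF 0 536870912 0 536870912 33554432 16777216 true true true .up 2 0 3
    ndF2q2a ndF3q0 pcF3 Cut.none Ext.none :=
  certFK0 (fam := true) (s1 := true) (s2 := true) (a := 2) (b := 0) (c := 3) (cn := .up) (n1 := ndF2q2a) (n2 := ndF3q0) (pc := pcF3) (cut := Cut.none) (xt := Ext.none) (P1 := 0) (W1 := 536870912) (P2 := 0) (W2 := 536870912) (P3 := 33554432) (W3 := 16777216)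
    rfl rfl rfl k0_pp_203_a

noncomputable def f_pp_203_b : ℕ → ℕ → ℕ → ℕ → Bool := onCell 1239849684 370763052 0 536870912 33554432 16777216
    (rowFK 0 true true true .up 2 0 3 (qsf 1239849684 370763052 0 536870912 3) ndF2q2b ndF3q0 pcF3 Cut.none Ext.none)

def k0_pp_203_b : ∃ t, chk3 f_pp_203_b t 1 1 1 = true :=
  ⟨(l 4), by decide +kernel⟩

theorem c_pp_203_b : CertF 1239849684 370763052 0 536870912 33554432 16777216 true true true .up 2 0 3
    ndF2q2b ndF3q0 pcF3 Cut.none Ext.none :=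
  certFK0 (fam := true) (s1 := true) (s2 := true) (a := 2) (b := 0) (c := 3) (cn := .up) (n1 := ndF2q2b) (n2 := ndF3q0) (pc := pcF3) (cut := Cut.none) (xt := Ext.none) (P1 := 1239849684) (W1 := 370763052) (P2 := 0) (W2 := 536870912) (P3 := 33554432) (W3 := 16777216)
    rfl rfl rfl k0_pp_203_b

noncomputable def f_pp_213_a : ℕ → ℕ → ℕ → ℕ → Bool := onCell 0 536870912 536870912 536870912 33554432 16777216
    (rowFK 0 true true true .pnn 2 1 3 (qsf 0 536870912 536870912 536870912 3) ndF2q2a ndF3q1 pcF3 Cut.none Ext.none)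

def k0_pp_213_a : ∃ t, chk3 f_pp_213_a t 1 1 1 = true :=
  ⟨(l 4), by decide +kernel⟩

theorem c_pp_213_a : CertF 0 536870912 536870912 536870912 33554432 16777216 true true true .pnn 2 1 3
    ndF2q2a ndF3q1 pcF3 Cut.none Ext.none :=
  certFK0 (fam := true) (s1 := true) (s2 := true) (a := 2) (b := 1) (c := 3) (cn := .pnn) (n1 := ndF2q2a) (n2 := ndF3q1) (pc := pcF3) (cut := Cut.none) (xt := Ext.none) (P1 := 0) (W1 := 536870912) (P2 := 536870912) (W2 := 536870912) (P3 := 33554432) (W3 := 16777216)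
    rfl rfl rfl k0_pp_213_a

noncomputable def f_pp_213_b : ℕ → ℕ → ℕ → ℕ → Bool := onCell 1239849684 370763052 536870912 536870912 33554432 16777216
    (rowFK 0 true true true .pnn 2 1 3 (qsf 1239849684 370763052 536870912 536870912 3) ndF2q2b ndF3q1 pcF3 Cut.none Ext.none)

def k0_pp_213_b : ∃ t, chk3 f_pp_213_b t 1 1 1 = true :=
  ⟨(l 4), by decide +kernel⟩

theorem c_pp_213_b : CertF 1239849684 370763052 536870912 536870912 33554432 16777216 true true true .pnn 2 1 3
    ndF2q2b ndF3q1 pcF3 Cut.none Ext.none :=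
  certFK0 (fam := true) (s1 := true) (s2 := true) (a := 2) (b := 1) (c := 3) (cn := .pnn) (n1 := ndF2q2b) (n2 := ndF3q1) (pc := pcF3) (cut := Cut.none) (xt := Ext.none) (P1 := 1239849684) (W1 := 370763052) (P2 := 536870912) (W2 := 536870912) (P3 := 33554432) (W3 := 16777216)
    rfl rfl rfl k0_pp_213_b

noncomputable def f_pp_303 : ℕ → ℕ → ℕ → ℕ → Bool := onCell 1610612736 536870912 0 536870912 33554432 16777216
    (rowFK 0 true true true .npn 3 0 3 (qsf 1610612736 536870912 0 536870912 3) ndF2q3 ndF3q0 pcF3 Cut.none Ext.none)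

def k0_pp_303 : ∃ t, chk3 f_pp_303 t 1 1 1 = true :=
  ⟨(l 4), by decide +kernel⟩

theorem c_pp_303 : CertF 1610612736 536870912 0 536870912 33554432 16777216 true true true .npn 3 0 3
    ndF2q3 ndF3q0 pcF3 Cut.none Ext.none :=
  certFK0 (fam := true) (s1 := true) (s2 := true) (a := 3) (b := 0) (c := 3) (cn := .npn) (n1 := ndF2q3) (n2 := ndF3q0) (pc := pcF3) (cut := Cut.none) (xt := Ext.none) (P1 := 1610612736) (W1 := 536870912) (P2 := 0) (W2 := 536870912) (P3 := 33554432) (W3 := 16777216)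
    rfl rfl rfl k0_pp_303

noncomputable def f_pp_313 : ℕ → ℕ → ℕ → ℕ → Bool := onCell 1610612736 536870912 536870912 536870912 33554432 16777216
    (rowFK 0 true true true .dn 3 1 3 (qsf 1610612736 536870912 536870912 536870912 3) ndF2q3 ndF3q1 pcF3 Cut.none Ext.none)

def k0_pp_313 : ∃ t, chk3 f_pp_313 t 1 1 1 = true :=
  ⟨(l 4), by decide +kernel⟩

theorem c_pp_313 : CertF 1610612736 536870912 536870912 536870912 33554432 16777216 true true true .dn 3 1 3
    ndF2q3 ndF3q1 pcF3 Cut.none Ext.none :=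
  certFK0 (fam := true) (s1 := true) (s2 := true) (a := 3) (b := 1) (c := 3) (cn := .dn) (n1 := ndF2q3) (n2 := ndF3q1) (pc := pcF3) (cut := Cut.none) (xt := Ext.none) (P1 := 1610612736) (W1 := 536870912) (P2 := 536870912) (W2 := 536870912) (P3 := 33554432) (W3 := 16777216)
    rfl rfl rfl k0_pp_313

noncomputable def f_pm_001 : ℕ → ℕ → ℕ → ℕ → Bool := onCell 0 536870912 0 536870912 33554432 16777216
    (rowFK 0 true true false .up 0 0 1 (qsf 0 536870912 0 536870912 1) ndF2q0 ndF3q0 pcF1 Cut.none Ext.none)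

def k0_pm_001 : ∃ t, chk3 f_pm_001 t 1 1 1 = true :=
  ⟨(a (l 3) (l 3)), by decide +kernel⟩

theorem c_pm_001 : CertF 0 536870912 0 536870912 33554432 16777216 true true false .up 0 0 1
    ndF2q0 ndF3q0 pcF1 Cut.none Ext.none :=
  certFK0 (fam := true) (s1 := true) (s2 := false) (a := 0) (b := 0) (c := 1) (cn := .up) (n1 := ndF2q0) (n2 := ndF3q0) (pc := pcF1) (cut := Cut.none) (xt := Ext.none) (P1 := 0) (W1 := 536870912) (P2 := 0) (W2 := 536870912) (P3 := 33554432) (W3 := 16777216)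
    rfl rfl rfl k0_pm_001

noncomputable def cut_pm_011 : Cut := Cut.of [[⟨0, 0, 0, 33554432⟩, ⟨1, 1, 0, 33554432⟩, ⟨2, 1, 0, 33554432⟩]]

noncomputable def f_pm_011 : ℕ → ℕ → ℕ → ℕ → Bool := onCell 0 536870912 536870912 536870912 33554432 16777216
    (rowFK 1 true true false .pnn 0 1 1 (qsf 0 536870912 536870912 536870912 1) ndF2q0 ndF3q1 pcF1 cut_pm_011 Ext.none)

def k0_pm_011 : ∃ t, chk3 f_pm_011 t 1 1 1 = true :=
  ⟨(b (l 3) (b (l 3) (a (b (l 3) (a (a (b (l 3) (a (a (b (l 3) (a (l 6) (l 3))) (l 3)) (l 3))) (l 3)) (l 3))) (l 3)))), by decide +kernel⟩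

theorem c_pm_011 : CertF 0 536870912 536870912 536870912 33554432 16777216 true true false .pnn 0 1 1
    ndF2q0 ndF3q1 pcF1 cut_pm_011 Ext.none :=
  certFK1 (fam := true) (s1 := true) (s2 := false) (a := 0) (b := 1) (c := 1) (cn := .pnn) (n1 := ndF2q0) (n2 := ndF3q1) (pc := pcF1) (cut := cut_pm_011) (xt := Ext.none) (P1 := 0) (W1 := 536870912) (P2 := 536870912) (W2 := 536870912) (P3 := 33554432) (W3 := 16777216)
    rfl rfl rfl (fun _ => rfl) k0_pm_011

noncomputable def cut_pm_012 : Cut := Cut.of [[⟨0, 0, 0, 33554432⟩, ⟨1, 1, 0, 33554432⟩, ⟨2, 1, 0, 33554432⟩]]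

noncomputable def f_pm_012 : ℕ → ℕ → ℕ → ℕ → Bool := onCell 1073741824 536870912 536870912 536870912 33554432 16777216
    (rowFK 2 true true false .pnp 0 1 2 (qsf 0 536870912 536870912 536870912 2) ndF2q0 ndF3q1 pcF2 cut_pm_012 Ext.none)

def k0_pm_012 : ∃ t, chk3 f_pm_012 t 1 1 1 = true :=
  ⟨(a (b (a (a (l 3) (l 17966608)) (a (a (a (l 18118088) (l 18250880)) (l 18328712)) (l 18464320))) (a (a (b (l 3) (b (l 3) (b (a (l 3) (l 3)) (b (a (l 3) (l 18724344)) (b (a (l 3) (l 18410592)) (a (a (l 6) (l 16729144)) (l 17985152))))))) (b (l 18769920) (b (l 487115428855) (a (b (l 19568528) (l 19705744)) (l 20115528))))) (a (a (b (a (l 18974736) (l 19148808)) (a (l 20039584) (a (l 20146576) (l 20220272)))) (b (l 19257416) (l 20296240))) (b (l 19419688) (l 20455432))))) (b (l 18703672) (b (l 19639760) (l 20531440)))), by decide +kernel⟩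

theorem c_pm_012 : CertF 0 536870912 536870912 536870912 33554432 16777216 true true false .pnp 0 1 2
    ndF2q0 ndF3q1 pcF2 cut_pm_012 Ext.none :=
  certFK2 (fam := true) (s1 := true) (s2 := false) (a := 0) (b := 1) (c := 2) (cn := .pnp) (n1 := ndF2q0) (n2 := ndF3q1) (pc := pcF2) (cut := cut_pm_012) (xt := Ext.none) (P1 := 0) (W1 := 536870912) (P2 := 536870912) (W2 := 536870912) (P3 := 33554432) (W3 := 16777216)
    rfl rfl rfl (fun _ => rfl) k0_pm_012

noncomputable def f_pm_022 : ℕ → ℕ → ℕ → ℕ → Bool := onCell 0 536870912 1073741824 536870912 33554432 16777216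
    (rowFK 1 true true false .pp 0 2 2 (qsf 0 536870912 1073741824 536870912 2) ndF2q0 ndF3q2 pcF2 Cut.none Ext.none)

def k0_pm_022 : ∃ t, chk3 f_pm_022 t 1 1 1 = true :=
  ⟨(b (a (a (b (l 3) (b (b (b (l 1866336784871) (b (l 19474088) (a (b (l 19511936) (l 19532248)) (l 19493128)))) (l 19612720)) (l 19735272))) (b (a (l 3) (l 1)) (b (b (b (l 19370608) (b (l 19276272) (b (l 19310896) (l 19336864)))) (l 19683232)) (l 19639544)))) (b (l 1) (b (l 1) (l 19844632)))) (a (a (l 19742232) (l 19785624)) (l 19880208))), by decide +kernel⟩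

theorem c_pm_022 : CertF 0 536870912 1073741824 536870912 33554432 16777216 true true false .pp 0 2 2
    ndF2q0 ndF3q2 pcF2 Cut.none Ext.none :=
  certFK1 (fam := true) (s1 := true) (s2 := false) (a := 0) (b := 2) (c := 2) (cn := .pp) (n1 := ndF2q0) (n2 := ndF3q2) (pc := pcF2) (cut := Cut.none) (xt := Ext.none) (P1 := 0) (W1 := 536870912) (P2 := 1073741824) (W2 := 536870912) (P3 := 33554432) (W3 := 16777216)
    rfl rfl rfl (fun _ => rfl) k0_pm_022

noncomputable def f_pm_023 : ℕ → ℕ → ℕ → ℕ → Bool := onCell 1610612736 536870912 1073741824 536870912 33554432 16777216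
    (rowFK 2 true true false .up 0 2 3 (qsf 0 536870912 1073741824 536870912 3) ndF2q0 ndF3q2 pcF3 Cut.none Ext.none)

def k0_pm_023 : ∃ t, chk3 f_pm_023 t 1 1 1 = true :=
  ⟨(a (b (a (a (l 19418208) (l 19282408)) (l 19274904)) (a (b (l 19589688) (a (l 19384448) (l 19649192))) (l 19380696))) (a (b (l 19216280) (l 19156032)) (a (l 18970800) (l 4)))), by decide +kernel⟩

theorem c_pm_023 : CertF 0 536870912 1073741824 536870912 33554432 16777216 true true false .up 0 2 3
    ndF2q0 ndF3q2 pcF3 Cut.none Ext.none :=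
  certFK2 (fam := true) (s1 := true) (s2 := false) (a := 0) (b := 2) (c := 3) (cn := .up) (n1 := ndF2q0) (n2 := ndF3q2) (pc := pcF3) (cut := Cut.none) (xt := Ext.none) (P1 := 0) (W1 := 536870912) (P2 := 1073741824) (W2 := 536870912) (P3 := 33554432) (W3 := 16777216)
    rfl rfl rfl (fun _ => rfl) k0_pm_023

noncomputable def f_pm_033 : ℕ → ℕ → ℕ → ℕ → Bool := onCell 1610612736 536870912 0 1230186008 33554432 16777216
    (rowFK 2 true true false .pnn 0 3 3 (qsf 0 536870912 0 1230186008 3) ndF2q0 ndF3q3 pcF3 Cut.none Ext.none)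

def k0_pm_033 : ∃ t, chk3 f_pm_033 t 1 1 1 = true :=
  ⟨(a (b (l 1) (a (b (l 1) (b (l 1) (a (b (l 1) (a (l 551402664647) (l 18049880))) (b (a (l 18023312) (l 18643776)) (l 18611312))))) (a (b (l 1) (b (b (a (l 1) (l 18812992)) (l 928824182007)) (a (l 18731368) (l 18597120)))) (b (b (l 1) (a (l 1) (l 18476736))) (l 18423976))))) (a (b (l 1) (b (b (a (l 1) (l 18083536)) (l 522412373735)) (a (l 18143928) (l 18104088)))) (a (b (b (l 1) (l 18167864)) (l 18299464)) (b (l 4) (a (l 4) (l 4)))))), by decide +kernel⟩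

theorem c_pm_033 : CertF 0 536870912 0 1230186008 33554432 16777216 true true false .pnn 0 3 3
    ndF2q0 ndF3q3 pcF3 Cut.none Ext.none :=
  certFK2 (fam := true) (s1 := true) (s2 := false) (a := 0) (b := 3) (c := 3) (cn := .pnn) (n1 := ndF2q0) (n2 := ndF3q3) (pc := pcF3) (cut := Cut.none) (xt := Ext.none) (P1 := 0) (W1 := 536870912) (P2 := 0) (W2 := 1230186008) (P3 := 33554432) (W3 := 16777216)
    rfl rfl rfl (fun _ => rfl) k0_pm_033

noncomputable def f_pm_101 : ℕ → ℕ → ℕ → ℕ → Bool := onCell 536870912 536870912 0 536870912 33554432 16777216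
    (rowFK 2 true true false .npn 1 0 1 (qsf 536870912 536870912 0 536870912 1) ndF2q1 ndF3q0 pcF1 Cut.none Ext.none)

def k0_pm_101 : ∃ t, chk3 f_pm_101 t 1 1 1 = true :=
  ⟨(a (l 3) (l 3)), by decide +kernel⟩

theorem c_pm_101 : CertF 536870912 536870912 0 536870912 33554432 16777216 true true false .npn 1 0 1
    ndF2q1 ndF3q0 pcF1 Cut.none Ext.none :=
  certFK2 (fam := true) (s1 := true) (s2 := false) (a := 1) (b := 0) (c := 1) (cn := .npn) (n1 := ndF2q1) (n2 := ndF3q0) (pc := pcF1) (cut := Cut.none) (xt := Ext.none) (P1 := 536870912) (W1 := 536870912) (P2 := 0) (W2 := 536870912) (P3 := 33554432) (W3 := 16777216)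
    rfl rfl rfl (fun _ => rfl) k0_pm_101

noncomputable def f_pm_102 : ℕ → ℕ → ℕ → ℕ → Bool := onCell 536870912 536870912 1073741824 536870912 33554432 16777216
    (rowFK 1 true true false .npp 1 0 2 (qsf 536870912 536870912 0 536870912 2) ndF2q1 ndF3q0 pcF2 Cut.none Ext.none)

def k0_pm_102 : ∃ t, chk3 f_pm_102 t 1 1 1 = true :=
  ⟨(a (b (b (l 3) (b (b (b (l 3) (a (l 2) (b (l 3) (l 19029920)))) (l 18716848)) (l 18638760))) (a (l 2) (l 18533832))) (b (b (l 3) (b (b (b (l 3) (b (l 3) (a (c (l 19766440) (l 18924424)) (a (c (l 20124968) (l 19269872)) (a (l 356119076903) (a (l 19744416) (a (l 19721280) (l 19787824)))))))) (a (l 19115832) (a (l 19269520) (a (l 19368112) (a (l 19454504) (a (l 19495144) (l 19520432))))))) (a (l 19004160) (a (l 19150184) (a (l 19180800) (a (l 19204488) (a (l 19246504) (l 19272960)))))))) (a (l 18842376) (a (l 18994408) (a (l 19057152) (a (l 19107704) (a (l 19127208) (l 19138496)))))))), by decide +kernel⟩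

theorem c_pm_102 : CertF 536870912 536870912 0 536870912 33554432 16777216 true true false .npp 1 0 2
    ndF2q1 ndF3q0 pcF2 Cut.none Ext.none :=
  certFK1 (fam := true) (s1 := true) (s2 := false) (a := 1) (b := 0) (c := 2) (cn := .npp) (n1 := ndF2q1) (n2 := ndF3q0) (pc := pcF2) (cut := Cut.none) (xt := Ext.none) (P1 := 536870912) (W1 := 536870912) (P2 := 0) (W2 := 536870912) (P3 := 33554432) (W3 := 16777216)
    rfl rfl rfl (fun _ => rfl) k0_pm_102

noncomputable def f_pm_112 : ℕ → ℕ → ℕ → ℕ → Bool := onCell 536870912 536870912 1073741824 536870912 33554432 16777216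
    (rowFK 1 true true false .dn 1 1 2 (qsf 536870912 536870912 536870912 536870912 2) ndF2q1 ndF3q1 pcF2 Cut.none Ext.none)

def k0_pm_112 : ∃ t, chk3 f_pm_112 t 1 1 1 = true :=
  ⟨(a (b (b (l 3) (b (b (b (l 3) (l 19476160)) (l 19418744)) (l 19304144))) (l 18870072)) (b (a (b (l 1) (b (l 1) (l 19208408))) (l 1)) (a (l 18793152) (a (l 18756960) (a (l 18747224) (a (l 18754232) (a (l 18757872) (l 18759656)))))))), by decide +kernel⟩

theorem c_pm_112 : CertF 536870912 536870912 536870912 536870912 33554432 16777216 true true false .dn 1 1 2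
    ndF2q1 ndF3q1 pcF2 Cut.none Ext.none :=
  certFK1 (fam := true) (s1 := true) (s2 := false) (a := 1) (b := 1) (c := 2) (cn := .dn) (n1 := ndF2q1) (n2 := ndF3q1) (pc := pcF2) (cut := Cut.none) (xt := Ext.none) (P1 := 536870912) (W1 := 536870912) (P2 := 536870912) (W2 := 536870912) (P3 := 33554432) (W3 := 16777216)
    rfl rfl rfl (fun _ => rfl) k0_pm_112

noncomputable def f_pm_113 : ℕ → ℕ → ℕ → ℕ → Bool := onCell 536870912 536870912 536870912 536870912 33554432 16777216
    (rowFK 0 true true false .nn 1 1 3 (qsf 536870912 536870912 536870912 536870912 3) ndF2q1 ndF3q1 pcF3 Cut.none Ext.none)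

def k0_pm_113 : ∃ t, chk3 f_pm_113 t 1 1 1 = true :=
  ⟨(a (l 572342670407) (a (l 18249064) (a (l 17932216) (b (a (l 18226120) (a (l 18204256) (a (l 18192512) (l 18183280)))) (a (l 17409080) (a (l 17382136) (a (b (l 17624536) (l 17112248)) (b (l 17614776) (b (l 17253248) (b (l 17043104) (b (l 16921232) (b (l 16853648) (b (l 16819088) (l 16796968)))))))))))))), by decide +kernel⟩

theorem c_pm_113 : CertF 536870912 536870912 536870912 536870912 33554432 16777216 true true false .nn 1 1 3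
    ndF2q1 ndF3q1 pcF3 Cut.none Ext.none :=
  certFK0 (fam := true) (s1 := true) (s2 := false) (a := 1) (b := 1) (c := 3) (cn := .nn) (n1 := ndF2q1) (n2 := ndF3q1) (pc := pcF3) (cut := Cut.none) (xt := Ext.none) (P1 := 536870912) (W1 := 536870912) (P2 := 536870912) (W2 := 536870912) (P3 := 33554432) (W3 := 16777216)
    rfl rfl rfl k0_pm_113

noncomputable def f_pm_123 : ℕ → ℕ → ℕ → ℕ → Bool := onCell 1610612736 536870912 1073741824 536870912 33554432 16777216
    (rowFK 2 true true false .npn 1 2 3 (qsf 536870912 536870912 1073741824 536870912 3) ndF2q1 ndF3q2 pcF3 Cut.none Ext.none)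

def k0_pm_123 : ∃ t, chk3 f_pm_123 t 1 1 1 = true :=
  ⟨(a (b (a (a (l 18424392) (l 18404536)) (l 18014264)) (a (l 1) (l 17734792))) (a (b (a (l 17564392) (l 17528608)) (l 17565808)) (a (b (b (l 17686712) (l 17509824)) (l 17301880)) (l 4)))), by decide +kernel⟩

theorem c_pm_123 : CertF 536870912 536870912 1073741824 536870912 33554432 16777216 true true false .npn 1 2 3
    ndF2q1 ndF3q2 pcF3 Cut.none Ext.none :=
  certFK2 (fam := true) (s1 := true) (s2 := false) (a := 1) (b := 2) (c := 3) (cn := .npn) (n1 := ndF2q1) (n2 := ndF3q2) (pc := pcF3) (cut := Cut.none) (xt := Ext.none) (P1 := 536870912) (W1 := 536870912) (P2 := 1073741824) (W2 := 536870912) (P3 := 33554432) (W3 := 16777216)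
    rfl rfl rfl (fun _ => rfl) k0_pm_123

noncomputable def f_pm_133 : ℕ → ℕ → ℕ → ℕ → Bool := onCell 536870912 536870912 0 1230186008 33554432 16777216
    (rowFK 0 true true false .dn 1 3 3 (qsf 536870912 536870912 0 1230186008 3) ndF2q1 ndF3q3 pcF3 Cut.none Ext.none)

def k0_pm_133 : ∃ t, chk3 f_pm_133 t 1 1 1 = true :=
  ⟨(b (l 2) (b (l 2) (l 4))), by decide +kernel⟩

theorem c_pm_133 : CertF 536870912 536870912 0 1230186008 33554432 16777216 true true false .dn 1 3 3
    ndF2q1 ndF3q3 pcF3 Cut.none Ext.none :=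
  certFK0 (fam := true) (s1 := true) (s2 := false) (a := 1) (b := 3) (c := 3) (cn := .dn) (n1 := ndF2q1) (n2 := ndF3q3) (pc := pcF3) (cut := Cut.none) (xt := Ext.none) (P1 := 536870912) (W1 := 536870912) (P2 := 0) (W2 := 1230186008) (P3 := 33554432) (W3 := 16777216)
    rfl rfl rfl k0_pm_133

noncomputable def f_pm_202_a : ℕ → ℕ → ℕ → ℕ → Bool := onCell 0 536870912 0 536870912 33554432 16777216
    (rowFK 0 true true false .pp 2 0 2 (qsf 0 536870912 0 536870912 2) ndF2q2a ndF3q0 pcF2 Cut.none Ext.none)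

def k0_pm_202_a : ∃ t, chk3 f_pm_202_a t 1 1 1 = true :=
  ⟨(a (b (b (b (c (l 20678608) (l 18672064)) (l 19608512)) (c (l 19960808) (l 18305080))) (b (b (l 18488016) (l 18120864)) (b (l 17813592) (l 2)))) (b (a (b (c (l 20689152) (b (l 18730032) (l 18565232))) (c (l 20124080) (l 18386040))) (b (a (c (l 20805056) (b (l 18807016) (l 18661648))) (a (c (l 20881384) (l 18950040)) (a (c (l 20925440) (l 18993368)) (b (b (b (b (b (l 20322312) (l 20291112)) (l 20317144)) (c (l 21104536) (l 18973304))) (c (l 21015848) (l 18914344))) (c (l 20827128) (l 18793856)))))) (a (c (l 20242192) (l 18385640)) (a (c (l 20331896) (l 18467720)) (a (c (l 20376392) (l 18508416)) (c (l 20405992) (l 18535648))))))) (a (b (c (l 19311360) (l 17834616)) (b (l 17946048) (l 2))) (b (a (c (l 19495640) (l 17896736)) (a (c (l 19607416) (l 18000032)) (a (c (l 19667304) (l 18055544)) (c (l 19707848) (l 18093184))))) (a (b (l 18102928) (l 17770864)) (a (c (l 18698824) (l 17392624)) (a (c (l 18756920)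 (l 17444048)) (c (l 18799432) (l 17482000))))))))), by decide +kernel⟩

theorem c_pm_202_a : CertF 0 536870912 0 536870912 33554432 16777216 true true false .pp 2 0 2
    ndF2q2a ndF3q0 pcF2 Cut.none Ext.none :=
  certFK0 (fam := true) (s1 := true) (s2 := false) (a := 2) (b := 0) (c := 2) (cn := .pp) (n1 := ndF2q2a) (n2 := ndF3q0) (pc := pcF2) (cut := Cut.none) (xt := Ext.none) (P1 := 0) (W1 := 536870912) (P2 := 0) (W2 := 536870912) (P3 := 33554432) (W3 := 16777216)
    rfl rfl rfl k0_pm_202_a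

noncomputable def f_pm_202_b : ℕ → ℕ → ℕ → ℕ → Bool := onCell 1073741824 536870912 0 536870912 33554432 16777216
    (rowFK 2 true true false .pp 2 0 2 (qsf 1239849684 370763052 0 536870912 2) ndF2q2b ndF3q0 pcF2 Cut.none Ext.none)

def k0_pm_202_b : ∃ t, chk3 f_pm_202_b t 1 1 1 = true :=
  ⟨(a (b (a (l 1) (b (b (a (c (l 20732040) (l 18705888)) (l 19490424)) (a (l 1) (l 459064077351))) (l 1))) (l 1)) (b (a (b (c (l 20218336) (l 18406456)) (a (b (l 19299064) (l 1)) (b (l 19004128) (l 18926320)))) (b (l 18931792) (l 18752016))) (a (l 1) (b (a (b (l 18561176) (l 1)) (l 92915683703)) (l 1))))), by decide +kernel⟩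

theorem c_pm_202_b : CertF 1239849684 370763052 0 536870912 33554432 16777216 true true false .pp 2 0 2
    ndF2q2b ndF3q0 pcF2 Cut.none Ext.none :=
  certFK2 (fam := true) (s1 := true) (s2 := false) (a := 2) (b := 0) (c := 2) (cn := .pp) (n1 := ndF2q2b) (n2 := ndF3q0) (pc := pcF2) (cut := Cut.none) (xt := Ext.none) (P1 := 1239849684) (W1 := 370763052) (P2 := 0) (W2 := 536870912) (P3 := 33554432) (W3 := 16777216)
    rfl rfl rfl (fun _ => rfl) k0_pm_202_b

noncomputable def f_pm_203_a : ℕ → ℕ → ℕ → ℕ → Bool := onCell 0 536870912 1610612736 536870912 33554432 16777216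
    (rowFK 1 true true false .up 2 0 3 (qsf 0 536870912 0 536870912 3) ndF2q2a ndF3q0 pcF3 Cut.none Ext.none)

def k0_pm_203_a : ∃ t, chk3 f_pm_203_a t 1 1 1 = true :=
  ⟨(b (b (a (l 17719536) (a (l 17539824) (a (l 17470992) (a (l 17426536) (a (l 17401536) (l 17383576)))))) (l 4)) (l 2)), by decide +kernel⟩

theorem c_pm_203_a : CertF 0 536870912 0 536870912 33554432 16777216 true true false .up 2 0 3
    ndF2q2a ndF3q0 pcF3 Cut.none Ext.none :=
  certFK1 (fam := true) (s1 := true) (s2 := false) (a := 2) (b := 0) (c := 3) (cn := .up) (n1 := ndF2q2a) (n2 := ndF3q0) (pc := pcF3) (cut := Cut.none) (xt := Ext.none) (P1 := 0) (W1 := 536870912) (P2 := 0) (W2 := 536870912) (P3 := 33554432) (W3 := 16777216)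
    rfl rfl rfl (fun _ => rfl) k0_pm_203_a

noncomputable def f_pm_203_b : ℕ → ℕ → ℕ → ℕ → Bool := onCell 1239849684 370763052 1610612736 536870912 33554432 16777216
    (rowFK 1 true true false .up 2 0 3 (qsf 1239849684 370763052 0 536870912 3) ndF2q2b ndF3q0 pcF3 Cut.none Ext.none)

def k0_pm_203_b : ∃ t, chk3 f_pm_203_b t 1 1 1 = true :=
  ⟨(b (b (a (c (l 18547384) (l 17555648)) (c (l 18910992) (l 17487016))) (b (l 4) (l 4))) (l 4)), by decide +kernel⟩

theorem c_pm_203_b : CertF 1239849684 370763052 0 536870912 33554432 16777216 true true false .up 2 0 3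
    ndF2q2b ndF3q0 pcF3 Cut.none Ext.none :=
  certFK1 (fam := true) (s1 := true) (s2 := false) (a := 2) (b := 0) (c := 3) (cn := .up) (n1 := ndF2q2b) (n2 := ndF3q0) (pc := pcF3) (cut := Cut.none) (xt := Ext.none) (P1 := 1239849684) (W1 := 370763052) (P2 := 0) (W2 := 536870912) (P3 := 33554432) (W3 := 16777216)
    rfl rfl rfl (fun _ => rfl) k0_pm_203_b

noncomputable def f_pm_213_a : ℕ → ℕ → ℕ → ℕ → Bool := onCell 0 536870912 536870912 536870912 33554432 16777216
    (rowFK 0 true true false .pnn 2 1 3 (qsf 0 536870912 536870912 536870912 3) ndF2q2a ndF3q1 pcF3 Cut.none Ext.none)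

def k0_pm_213_a : ∃ t, chk3 f_pm_213_a t 1 1 1 = true :=
  ⟨(b (a (l 4) (b (a (l 18123240) (a (l 18463616) (a (l 18545872) (a (l 18568344) (l 18577496))))) (l 4))) (l 4)), by decide +kernel⟩

theorem c_pm_213_a : CertF 0 536870912 536870912 536870912 33554432 16777216 true true false .pnn 2 1 3
    ndF2q2a ndF3q1 pcF3 Cut.none Ext.none :=
  certFK0 (fam := true) (s1 := true) (s2 := false) (a := 2) (b := 1) (c := 3) (cn := .pnn) (n1 := ndF2q2a) (n2 := ndF3q1) (pc := pcF3) (cut := Cut.none) (xt := Ext.none) (P1 := 0) (W1 := 536870912) (P2 := 536870912) (W2 := 536870912) (P3 := 33554432) (W3 := 16777216)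
    rfl rfl rfl k0_pm_213_a

noncomputable def f_pm_213_b : ℕ → ℕ → ℕ → ℕ → Bool := onCell 1239849684 370763052 536870912 536870912 33554432 16777216
    (rowFK 0 true true false .pnn 2 1 3 (qsf 1239849684 370763052 536870912 536870912 3) ndF2q2b ndF3q1 pcF3 Cut.none Ext.none)

def k0_pm_213_b : ∃ t, chk3 f_pm_213_b t 1 1 1 = true :=
  ⟨(b (l 4) (l 4)), by decide +kernel⟩

theorem c_pm_213_b : CertF 1239849684 370763052 536870912 536870912 33554432 16777216 true true false .pnn 2 1 3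
    ndF2q2b ndF3q1 pcF3 Cut.none Ext.none :=
  certFK0 (fam := true) (s1 := true) (s2 := false) (a := 2) (b := 1) (c := 3) (cn := .pnn) (n1 := ndF2q2b) (n2 := ndF3q1) (pc := pcF3) (cut := Cut.none) (xt := Ext.none) (P1 := 1239849684) (W1 := 370763052) (P2 := 536870912) (W2 := 536870912) (P3 := 33554432) (W3 := 16777216)
    rfl rfl rfl k0_pm_213_b

noncomputable def f_pm_303 : ℕ → ℕ → ℕ → ℕ → Bool := onCell 1610612736 536870912 0 536870912 33554432 16777216
    (rowFK 2 true true false .npn 3 0 3 (qsf 1610612736 536870912 0 536870912 3) ndF2q3 ndF3q0 pcF3 Cut.none Ext.none)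

def k0_pm_303 : ∃ t, chk3 f_pm_303 t 1 1 1 = true :=
  ⟨(a (a (b (b (l 18245824) (l 17961696)) (l 1)) (b (l 4) (l 4))) (l 4)), by decide +kernel⟩

theorem c_pm_303 : CertF 1610612736 536870912 0 536870912 33554432 16777216 true true false .npn 3 0 3
    ndF2q3 ndF3q0 pcF3 Cut.none Ext.none :=
  certFK2 (fam := true) (s1 := true) (s2 := false) (a := 3) (b := 0) (c := 3) (cn := .npn) (n1 := ndF2q3) (n2 := ndF3q0) (pc := pcF3) (cut := Cut.none) (xt := Ext.none) (P1 := 1610612736) (W1 := 536870912) (P2 := 0) (W2 := 536870912) (P3 := 33554432) (W3 := 16777216)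
    rfl rfl rfl (fun _ => rfl) k0_pm_303

noncomputable def f_pm_313 : ℕ → ℕ → ℕ → ℕ → Bool := onCell 1610612736 536870912 536870912 536870912 33554432 16777216
    (rowFK 0 true true false .dn 3 1 3 (qsf 1610612736 536870912 536870912 536870912 3) ndF2q3 ndF3q1 pcF3 Cut.none Ext.none)

def k0_pm_313 : ∃ t, chk3 f_pm_313 t 1 1 1 = true :=
  ⟨(l 4), by decide +kernel⟩

theorem c_pm_313 : CertF 1610612736 536870912 536870912 536870912 33554432 16777216 true true false .dn 3 1 3
    ndF2q3 ndF3q1 pcF3 Cut.none Ext.none :=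
  certFK0 (fam := true) (s1 := true) (s2 := false) (a := 3) (b := 1) (c := 3) (cn := .dn) (n1 := ndF2q3) (n2 := ndF3q1) (pc := pcF3) (cut := Cut.none) (xt := Ext.none) (P1 := 1610612736) (W1 := 536870912) (P2 := 536870912) (W2 := 536870912) (P3 := 33554432) (W3 := 16777216)
    rfl rfl rfl k0_pm_313

noncomputable def f_mm_001 : ℕ → ℕ → ℕ → ℕ → Bool := onCell 0 536870912 0 536870912 33554432 16777216
    (rowFK 0 true false false .up 0 0 1 (qsf 0 536870912 0 536870912 1) ndF2q0 ndF3q0 pcF1 Cut.none Ext.none)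

def k0_mm_001 : ∃ t, chk3 f_mm_001 t 1 1 1 = true :=
  ⟨(l 4), by decide +kernel⟩

theorem c_mm_001 : CertF 0 536870912 0 536870912 33554432 16777216 true false false .up 0 0 1
    ndF2q0 ndF3q0 pcF1 Cut.none Ext.none :=
  certFK0 (fam := true) (s1 := false) (s2 := false) (a := 0) (b := 0) (c := 1) (cn := .up) (n1 := ndF2q0) (n2 := ndF3q0) (pc := pcF1) (cut := Cut.none) (xt := Ext.none) (P1 := 0) (W1 := 536870912) (P2 := 0) (W2 := 536870912) (P3 := 33554432) (W3 := 16777216)
    rfl rfl rfl k0_mm_001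

noncomputable def f_mm_011 : ℕ → ℕ → ℕ → ℕ → Bool := onCell 0 536870912 536870912 536870912 33554432 16777216
    (rowFK 0 true false false .pnn 0 1 1 (qsf 0 536870912 536870912 536870912 1) ndF2q0 ndF3q1 pcF1 Cut.none Ext.none)

def k0_mm_011 : ∃ t, chk3 f_mm_011 t 1 1 1 = true :=
  ⟨(l 4), by decide +kernel⟩

theorem c_mm_011 : CertF 0 536870912 536870912 536870912 33554432 16777216 true false false .pnn 0 1 1
    ndF2q0 ndF3q1 pcF1 Cut.none Ext.none :=
  certFK0 (fam := true) (s1 := false) (s2 := false) (a := 0) (b := 1) (c := 1) (cn := .pnn) (n1 := ndF2q0) (n2 := ndF3q1) (pc := pcF1) (cut := Cut.none) (xt := Ext.none) (P1 := 0) (W1 := 536870912) (P2 := 536870912) (W2 := 536870912) (P3 := 33554432) (W3 := 16777216)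
    rfl rfl rfl k0_mm_011

noncomputable def f_mm_012 : ℕ → ℕ → ℕ → ℕ → Bool := onCell 0 536870912 536870912 536870912 33554432 16777216
    (rowFK 0 true false false .pnp 0 1 2 (qsf 0 536870912 536870912 536870912 2) ndF2q0 ndF3q1 pcF2 Cut.none Ext.none)

def k0_mm_012 : ∃ t, chk3 f_mm_012 t 1 1 1 = true :=
  ⟨(l 4), by decide +kernel⟩

theorem c_mm_012 : CertF 0 536870912 536870912 536870912 33554432 16777216 true false false .pnp 0 1 2
    ndF2q0 ndF3q1 pcF2 Cut.none Ext.none :=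
  certFK0 (fam := true) (s1 := false) (s2 := false) (a := 0) (b := 1) (c := 2) (cn := .pnp) (n1 := ndF2q0) (n2 := ndF3q1) (pc := pcF2) (cut := Cut.none) (xt := Ext.none) (P1 := 0) (W1 := 536870912) (P2 := 536870912) (W2 := 536870912) (P3 := 33554432) (W3 := 16777216)
    rfl rfl rfl k0_mm_012

noncomputable def f_mm_022 : ℕ → ℕ → ℕ → ℕ → Bool := onCell 0 536870912 1073741824 536870912 33554432 16777216
    (rowFK 0 true false false .pp 0 2 2 (qsf 0 536870912 1073741824 536870912 2) ndF2q0 ndF3q2 pcF2 Cut.none Ext.none)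

def k0_mm_022 : ∃ t, chk3 f_mm_022 t 1 1 1 = true :=
  ⟨(l 4), by decide +kernel⟩

theorem c_mm_022 : CertF 0 536870912 1073741824 536870912 33554432 16777216 true false false .pp 0 2 2
    ndF2q0 ndF3q2 pcF2 Cut.none Ext.none :=
  certFK0 (fam := true) (s1 := false) (s2 := false) (a := 0) (b := 2) (c := 2) (cn := .pp) (n1 := ndF2q0) (n2 := ndF3q2) (pc := pcF2) (cut := Cut.none) (xt := Ext.none) (P1 := 0) (W1 := 536870912) (P2 := 1073741824) (W2 := 536870912) (P3 := 33554432) (W3 := 16777216)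
    rfl rfl rfl k0_mm_022

noncomputable def f_mm_023 : ℕ → ℕ → ℕ → ℕ → Bool := onCell 0 536870912 1073741824 536870912 33554432 16777216
    (rowFK 0 true false false .up 0 2 3 (qsf 0 536870912 1073741824 536870912 3) ndF2q0 ndF3q2 pcF3 Cut.none Ext.none)

def k0_mm_023 : ∃ t, chk3 f_mm_023 t 1 1 1 = true :=
  ⟨(l 4), by decide +kernel⟩

theorem c_mm_023 : CertF 0 536870912 1073741824 536870912 33554432 16777216 true false false .up 0 2 3
    ndF2q0 ndF3q2 pcF3 Cut.none Ext.none :=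
  certFK0 (fam := true) (s1 := false) (s2 := false) (a := 0) (b := 2) (c := 3) (cn := .up) (n1 := ndF2q0) (n2 := ndF3q2) (pc := pcF3) (cut := Cut.none) (xt := Ext.none) (P1 := 0) (W1 := 536870912) (P2 := 1073741824) (W2 := 536870912) (P3 := 33554432) (W3 := 16777216)
    rfl rfl rfl k0_mm_023

noncomputable def f_mm_033 : ℕ → ℕ → ℕ → ℕ → Bool := onCell 0 536870912 0 1230186008 33554432 16777216
    (rowFK 0 true false false .pnn 0 3 3 (qsf 0 536870912 0 1230186008 3) ndF2q0 ndF3q3 pcF3 Cut.none Ext.none)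

def k0_mm_033 : ∃ t, chk3 f_mm_033 t 1 1 1 = true :=
  ⟨(l 5), by decide +kernel⟩

theorem c_mm_033 : CertF 0 536870912 0 1230186008 33554432 16777216 true false false .pnn 0 3 3
    ndF2q0 ndF3q3 pcF3 Cut.none Ext.none :=
  certFK0 (fam := true) (s1 := false) (s2 := false) (a := 0) (b := 3) (c := 3) (cn := .pnn) (n1 := ndF2q0) (n2 := ndF3q3) (pc := pcF3) (cut := Cut.none) (xt := Ext.none) (P1 := 0) (W1 := 536870912) (P2 := 0) (W2 := 1230186008) (P3 := 33554432) (W3 := 16777216)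
    rfl rfl rfl k0_mm_033

noncomputable def f_mm_101 : ℕ → ℕ → ℕ → ℕ → Bool := onCell 536870912 536870912 0 536870912 33554432 16777216
    (rowFK 0 true false false .npn 1 0 1 (qsf 536870912 536870912 0 536870912 1) ndF2q1 ndF3q0 pcF1 Cut.none Ext.none)

def k0_mm_101 : ∃ t, chk3 f_mm_101 t 1 1 1 = true :=
  ⟨(l 4), by decide +kernel⟩

theorem c_mm_101 : CertF 536870912 536870912 0 536870912 33554432 16777216 true false false .npn 1 0 1
    ndF2q1 ndF3q0 pcF1 Cut.none Ext.none :=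
  certFK0 (fam := true) (s1 := false) (s2 := false) (a := 1) (b := 0) (c := 1) (cn := .npn) (n1 := ndF2q1) (n2 := ndF3q0) (pc := pcF1) (cut := Cut.none) (xt := Ext.none) (P1 := 536870912) (W1 := 536870912) (P2 := 0) (W2 := 536870912) (P3 := 33554432) (W3 := 16777216)
    rfl rfl rfl k0_mm_101

noncomputable def f_mm_102 : ℕ → ℕ → ℕ → ℕ → Bool := onCell 536870912 536870912 0 536870912 33554432 16777216
    (rowFK 0 true false false .npp 1 0 2 (qsf 536870912 536870912 0 536870912 2) ndF2q1 ndF3q0 pcF2 Cut.none Ext.none)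

def k0_mm_102 : ∃ t, chk3 f_mm_102 t 1 1 1 = true :=
  ⟨(l 4), by decide +kernel⟩

theorem c_mm_102 : CertF 536870912 536870912 0 536870912 33554432 16777216 true false false .npp 1 0 2
    ndF2q1 ndF3q0 pcF2 Cut.none Ext.none :=
  certFK0 (fam := true) (s1 := false) (s2 := false) (a := 1) (b := 0) (c := 2) (cn := .npp) (n1 := ndF2q1) (n2 := ndF3q0) (pc := pcF2) (cut := Cut.none) (xt := Ext.none) (P1 := 536870912) (W1 := 536870912) (P2 := 0) (W2 := 536870912) (P3 := 33554432) (W3 := 16777216)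
    rfl rfl rfl k0_mm_102

noncomputable def f_mm_112 : ℕ → ℕ → ℕ → ℕ → Bool := onCell 536870912 536870912 536870912 536870912 33554432 16777216
    (rowFK 0 true false false .dn 1 1 2 (qsf 536870912 536870912 536870912 536870912 2) ndF2q1 ndF3q1 pcF2 Cut.none Ext.none)

def k0_mm_112 : ∃ t, chk3 f_mm_112 t 1 1 1 = true :=
  ⟨(l 4), by decide +kernel⟩

theorem c_mm_112 : CertF 536870912 536870912 536870912 536870912 33554432 16777216 true false false .dn 1 1 2
    ndF2q1 ndF3q1 pcF2 Cut.none Ext.none :=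
  certFK0 (fam := true) (s1 := false) (s2 := false) (a := 1) (b := 1) (c := 2) (cn := .dn) (n1 := ndF2q1) (n2 := ndF3q1) (pc := pcF2) (cut := Cut.none) (xt := Ext.none) (P1 := 536870912) (W1 := 536870912) (P2 := 536870912) (W2 := 536870912) (P3 := 33554432) (W3 := 16777216)
    rfl rfl rfl k0_mm_112

noncomputable def f_mm_113 : ℕ → ℕ → ℕ → ℕ → Bool := onCell 536870912 536870912 536870912 536870912 33554432 16777216
    (rowFK 0 true false false .nn 1 1 3 (qsf 536870912 536870912 536870912 536870912 3) ndF2q1 ndF3q1 pcF3 Cut.none Ext.none)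

def k0_mm_113 : ∃ t, chk3 f_mm_113 t 1 1 1 = true :=
  ⟨(l 4), by decide +kernel⟩

theorem c_mm_113 : CertF 536870912 536870912 536870912 536870912 33554432 16777216 true false false .nn 1 1 3
    ndF2q1 ndF3q1 pcF3 Cut.none Ext.none :=
  certFK0 (fam := true) (s1 := false) (s2 := false) (a := 1) (b := 1) (c := 3) (cn := .nn) (n1 := ndF2q1) (n2 := ndF3q1) (pc := pcF3) (cut := Cut.none) (xt := Ext.none) (P1 := 536870912) (W1 := 536870912) (P2 := 536870912) (W2 := 536870912) (P3 := 33554432) (W3 := 16777216)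
    rfl rfl rfl k0_mm_113

noncomputable def f_mm_123 : ℕ → ℕ → ℕ → ℕ → Bool := onCell 536870912 536870912 1073741824 536870912 33554432 16777216
    (rowFK 0 true false false .npn 1 2 3 (qsf 536870912 536870912 1073741824 536870912 3) ndF2q1 ndF3q2 pcF3 Cut.none Ext.none)

def k0_mm_123 : ∃ t, chk3 f_mm_123 t 1 1 1 = true :=
  ⟨(l 4), by decide +kernel⟩

theorem c_mm_123 : CertF 536870912 536870912 1073741824 536870912 33554432 16777216 true false false .npn 1 2 3
    ndF2q1 ndF3q2 pcF3 Cut.none Ext.none :=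
  certFK0 (fam := true) (s1 := false) (s2 := false) (a := 1) (b := 2) (c := 3) (cn := .npn) (n1 := ndF2q1) (n2 := ndF3q2) (pc := pcF3) (cut := Cut.none) (xt := Ext.none) (P1 := 536870912) (W1 := 536870912) (P2 := 1073741824) (W2 := 536870912) (P3 := 33554432) (W3 := 16777216)
    rfl rfl rfl k0_mm_123

noncomputable def f_mm_133 : ℕ → ℕ → ℕ → ℕ → Bool := onCell 536870912 536870912 0 1230186008 33554432 16777216
    (rowFK 0 true false false .dn 1 3 3 (qsf 536870912 536870912 0 1230186008 3) ndF2q1 ndF3q3 pcF3 Cut.none Ext.none)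

def k0_mm_133 : ∃ t, chk3 f_mm_133 t 1 1 1 = true :=
  ⟨(l 4), by decide +kernel⟩

theorem c_mm_133 : CertF 536870912 536870912 0 1230186008 33554432 16777216 true false false .dn 1 3 3
    ndF2q1 ndF3q3 pcF3 Cut.none Ext.none :=
  certFK0 (fam := true) (s1 := false) (s2 := false) (a := 1) (b := 3) (c := 3) (cn := .dn) (n1 := ndF2q1) (n2 := ndF3q3) (pc := pcF3) (cut := Cut.none) (xt := Ext.none) (P1 := 536870912) (W1 := 536870912) (P2 := 0) (W2 := 1230186008) (P3 := 33554432) (W3 := 16777216)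
    rfl rfl rfl k0_mm_133

noncomputable def f_mm_202_a : ℕ → ℕ → ℕ → ℕ → Bool := onCell 0 536870912 0 536870912 33554432 16777216
    (rowFK 0 true false false .pp 2 0 2 (qsf 0 536870912 0 536870912 2) ndF2q2a ndF3q0 pcF2 Cut.none Ext.none)

def k0_mm_202_a : ∃ t, chk3 f_mm_202_a t 1 1 1 = true :=
  ⟨(l 4), by decide +kernel⟩

theorem c_mm_202_a : CertF 0 536870912 0 536870912 33554432 16777216 true false false .pp 2 0 2
    ndF2q2a ndF3q0 pcF2 Cut.none Ext.none :=
  certFK0 (fam := true) (s1 := false) (s2 := false) (a := 2) (b := 0) (c := 2) (cn := .pp) (n1 := ndF2q2a) (n2 := ndF3q0) (pc := pcF2) (cut := Cut.none) (xt := Ext.none) (P1 := 0) (W1 := 536870912) (P2 := 0) (W2 := 536870912) (P3 := 33554432) (W3 := 16777216)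
    rfl rfl rfl k0_mm_202_a

noncomputable def f_mm_202_b : ℕ → ℕ → ℕ → ℕ → Bool := onCell 1239849684 370763052 0 536870912 33554432 16777216
    (rowFK 0 true false false .pp 2 0 2 (qsf 1239849684 370763052 0 536870912 2) ndF2q2b ndF3q0 pcF2 Cut.none Ext.none)

def k0_mm_202_b : ∃ t, chk3 f_mm_202_b t 1 1 1 = true :=
  ⟨(l 4), by decide +kernel⟩

theorem c_mm_202_b : CertF 1239849684 370763052 0 536870912 33554432 16777216 true false false .pp 2 0 2
    ndF2q2b ndF3q0 pcF2 Cut.none Ext.none :=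
  certFK0 (fam := true) (s1 := false) (s2 := false) (a := 2) (b := 0) (c := 2) (cn := .pp) (n1 := ndF2q2b) (n2 := ndF3q0) (pc := pcF2) (cut := Cut.none) (xt := Ext.none) (P1 := 1239849684) (W1 := 370763052) (P2 := 0) (W2 := 536870912) (P3 := 33554432) (W3 := 16777216)
    rfl rfl rfl k0_mm_202_b

noncomputable def f_mm_203_a : ℕ → ℕ → ℕ → ℕ → Bool := onCell 0 536870912 0 536870912 33554432 16777216
    (rowFK 0 true false false .up 2 0 3 (qsf 0 536870912 0 536870912 3) ndF2q2a ndF3q0 pcF3 Cut.none Ext.none)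

def k0_mm_203_a : ∃ t, chk3 f_mm_203_a t 1 1 1 = true :=
  ⟨(l 4), by decide +kernel⟩

theorem c_mm_203_a : CertF 0 536870912 0 536870912 33554432 16777216 true false false .up 2 0 3
    ndF2q2a ndF3q0 pcF3 Cut.none Ext.none :=
  certFK0 (fam := true) (s1 := false) (s2 := false) (a := 2) (b := 0) (c := 3) (cn := .up) (n1 := ndF2q2a) (n2 := ndF3q0) (pc := pcF3) (cut := Cut.none) (xt := Ext.none) (P1 := 0) (W1 := 536870912) (P2 := 0) (W2 := 536870912) (P3 := 33554432) (W3 := 16777216)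
    rfl rfl rfl k0_mm_203_a

noncomputable def f_mm_203_b : ℕ → ℕ → ℕ → ℕ → Bool := onCell 1239849684 370763052 0 536870912 33554432 16777216
    (rowFK 0 true false false .up 2 0 3 (qsf 1239849684 370763052 0 536870912 3) ndF2q2b ndF3q0 pcF3 Cut.none Ext.none)

def k0_mm_203_b : ∃ t, chk3 f_mm_203_b t 1 1 1 = true :=
  ⟨(l 4), by decide +kernel⟩

theorem c_mm_203_b : CertF 1239849684 370763052 0 536870912 33554432 16777216 true false false .up 2 0 3
    ndF2q2b ndF3q0 pcF3 Cut.none Ext.none :=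
  certFK0 (fam := true) (s1 := false) (s2 := false) (a := 2) (b := 0) (c := 3) (cn := .up) (n1 := ndF2q2b) (n2 := ndF3q0) (pc := pcF3) (cut := Cut.none) (xt := Ext.none) (P1 := 1239849684) (W1 := 370763052) (P2 := 0) (W2 := 536870912) (P3 := 33554432) (W3 := 16777216)
    rfl rfl rfl k0_mm_203_b

noncomputable def f_mm_213_a : ℕ → ℕ → ℕ → ℕ → Bool := onCell 0 536870912 536870912 536870912 33554432 16777216
    (rowFK 0 true false false .pnn 2 1 3 (qsf 0 536870912 536870912 536870912 3) ndF2q2a ndF3q1 pcF3 Cut.none Ext.none)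

def k0_mm_213_a : ∃ t, chk3 f_mm_213_a t 1 1 1 = true :=
  ⟨(l 4), by decide +kernel⟩

theorem c_mm_213_a : CertF 0 536870912 536870912 536870912 33554432 16777216 true false false .pnn 2 1 3
    ndF2q2a ndF3q1 pcF3 Cut.none Ext.none :=
  certFK0 (fam := true) (s1 := false) (s2 := false) (a := 2) (b := 1) (c := 3) (cn := .pnn) (n1 := ndF2q2a) (n2 := ndF3q1) (pc := pcF3) (cut := Cut.none) (xt := Ext.none) (P1 := 0) (W1 := 536870912) (P2 := 536870912) (W2 := 536870912) (P3 := 33554432) (W3 := 16777216)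
    rfl rfl rfl k0_mm_213_a

noncomputable def f_mm_213_b : ℕ → ℕ → ℕ → ℕ → Bool := onCell 1239849684 370763052 536870912 536870912 33554432 16777216
    (rowFK 0 true false false .pnn 2 1 3 (qsf 1239849684 370763052 536870912 536870912 3) ndF2q2b ndF3q1 pcF3 Cut.none Ext.none)

def k0_mm_213_b : ∃ t, chk3 f_mm_213_b t 1 1 1 = true :=
  ⟨(l 4), by decide +kernel⟩

theorem c_mm_213_b : CertF 1239849684 370763052 536870912 536870912 33554432 16777216 true false false .pnn 2 1 3
    ndF2q2b ndF3q1 pcF3 Cut.none Ext.none :=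
  certFK0 (fam := true) (s1 := false) (s2 := false) (a := 2) (b := 1) (c := 3) (cn := .pnn) (n1 := ndF2q2b) (n2 := ndF3q1) (pc := pcF3) (cut := Cut.none) (xt := Ext.none) (P1 := 1239849684) (W1 := 370763052) (P2 := 536870912) (W2 := 536870912) (P3 := 33554432) (W3 := 16777216)
    rfl rfl rfl k0_mm_213_b

noncomputable def f_mm_303 : ℕ → ℕ → ℕ → ℕ → Bool := onCell 1610612736 536870912 0 536870912 33554432 16777216
    (rowFK 0 true false false .npn 3 0 3 (qsf 1610612736 536870912 0 536870912 3) ndF2q3 ndF3q0 pcF3 Cut.none Ext.none)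

def k0_mm_303 : ∃ t, chk3 f_mm_303 t 1 1 1 = true :=
  ⟨(l 4), by decide +kernel⟩

theorem c_mm_303 : CertF 1610612736 536870912 0 536870912 33554432 16777216 true false false .npn 3 0 3
    ndF2q3 ndF3q0 pcF3 Cut.none Ext.none :=
  certFK0 (fam := true) (s1 := false) (s2 := false) (a := 3) (b := 0) (c := 3) (cn := .npn) (n1 := ndF2q3) (n2 := ndF3q0) (pc := pcF3) (cut := Cut.none) (xt := Ext.none) (P1 := 1610612736) (W1 := 536870912) (P2 := 0) (W2 := 536870912) (P3 := 33554432) (W3 := 16777216)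
    rfl rfl rfl k0_mm_303

noncomputable def f_mm_313 : ℕ → ℕ → ℕ → ℕ → Bool := onCell 1610612736 536870912 536870912 536870912 33554432 16777216
    (rowFK 0 true false false .dn 3 1 3 (qsf 1610612736 536870912 536870912 536870912 3) ndF2q3 ndF3q1 pcF3 Cut.none Ext.none)

def k0_mm_313 : ∃ t, chk3 f_mm_313 t 1 1 1 = true :=
  ⟨(l 4), by decide +kernel⟩

theorem c_mm_313 : CertF 1610612736 536870912 536870912 536870912 33554432 16777216 true false false .dn 3 1 3
    ndF2q3 ndF3q1 pcF3 Cut.none Ext.none :=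
  certFK0 (fam := true) (s1 := false) (s2 := false) (a := 3) (b := 1) (c := 3) (cn := .dn) (n1 := ndF2q3) (n2 := ndF3q1) (pc := pcF3) (cut := Cut.none) (xt := Ext.none) (P1 := 1610612736) (W1 := 536870912) (P2 := 536870912) (W2 := 536870912) (P3 := 33554432) (W3 := 16777216)
    rfl rfl rfl k0_mm_313

end Pool.Agent.Strip051.G.I1_32_3_64.Tab.C.FA23

namespace Pool.Agent.Strip051.G.I1_32_3_64.Tab.C.FA24

open Pool.Agent.Strip051.PB Pool.Agent.Strip051.PB.T
open Pool.Agent.Strip051.G.I1_32_3_64.Tab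

noncomputable def f_pp_001 : ℕ → ℕ → ℕ → ℕ → Bool := onCell 0 536870912 0 536870912 33554432 16777216
    (rowFK 0 true true true .up 0 0 1 (qsf 0 536870912 0 536870912 1) ndF2q0 ndF4q0 pcF1 Cut.none Ext.none)

def k0_pp_001 : ∃ t, chk3 f_pp_001 t 1 1 1 = true :=
  ⟨(l 4), by decide +kernel⟩

theorem c_pp_001 : CertF 0 536870912 0 536870912 33554432 16777216 true true true .up 0 0 1
    ndF2q0 ndF4q0 pcF1 Cut.none Ext.none :=
  certFK0 (fam := true) (s1 := true) (s2 := true) (a := 0) (b := 0) (c := 1) (cn := .up) (n1 := ndF2q0) (n2 := ndF4q0) (pc := pcF1) (cut := Cut.none) (xt := Ext.none) (P1 := 0) (W1 := 536870912) (P2 := 0) (W2 := 536870912) (P3 := 33554432) (W3 := 16777216)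
    rfl rfl rfl k0_pp_001

noncomputable def f_pp_011 : ℕ → ℕ → ℕ → ℕ → Bool := onCell 0 536870912 536870912 536870912 33554432 16777216
    (rowFK 0 true true true .pnn 0 1 1 (qsf 0 536870912 536870912 536870912 1) ndF2q0 ndF4q1 pcF1 Cut.none Ext.none)

def k0_pp_011 : ∃ t, chk3 f_pp_011 t 1 1 1 = true :=
  ⟨(l 4), by decide +kernel⟩

theorem c_pp_011 : CertF 0 536870912 536870912 536870912 33554432 16777216 true true true .pnn 0 1 1
    ndF2q0 ndF4q1 pcF1 Cut.none Ext.none :=
  certFK0 (fam := true) (s1 := true) (s2 := true) (a := 0) (b := 1) (c := 1) (cn := .pnn) (n1 := ndF2q0) (n2 := ndF4q1) (pc := pcF1) (cut := Cut.none) (xt := Ext.none) (P1 := 0) (W1 := 536870912) (P2 := 536870912) (W2 := 536870912) (P3 := 33554432) (W3 := 16777216)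
    rfl rfl rfl k0_pp_011

noncomputable def f_pp_012 : ℕ → ℕ → ℕ → ℕ → Bool := onCell 0 536870912 536870912 536870912 33554432 16777216
    (rowFK 0 true true true .pnp 0 1 2 (qsf 0 536870912 536870912 536870912 2) ndF2q0 ndF4q1 pcF2 Cut.none Ext.none)

def k0_pp_012 : ∃ t, chk3 f_pp_012 t 1 1 1 = true :=
  ⟨(l 4), by decide +kernel⟩

theorem c_pp_012 : CertF 0 536870912 536870912 536870912 33554432 16777216 true true true .pnp 0 1 2
    ndF2q0 ndF4q1 pcF2 Cut.none Ext.none :=
  certFK0 (fam := true) (s1 := true) (s2 := true) (a := 0) (b := 1) (c := 2) (cn := .pnp) (n1 := ndF2q0) (n2 := ndF4q1) (pc := pcF2) (cut := Cut.none) (xt := Ext.none) (P1 := 0) (W1 := 536870912) (P2 := 536870912) (W2 := 536870912) (P3 := 33554432) (W3 := 16777216)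
    rfl rfl rfl k0_pp_012

noncomputable def f_pp_022 : ℕ → ℕ → ℕ → ℕ → Bool := onCell 0 536870912 1073741824 536870912 33554432 16777216
    (rowFK 0 true true true .pp 0 2 2 (qsf 0 536870912 1073741824 536870912 2) ndF2q0 ndF4q2 pcF2 Cut.none Ext.none)

def k0_pp_022 : ∃ t, chk3 f_pp_022 t 1 1 1 = true :=
  ⟨(l 4), by decide +kernel⟩

theorem c_pp_022 : CertF 0 536870912 1073741824 536870912 33554432 16777216 true true true .pp 0 2 2
    ndF2q0 ndF4q2 pcF2 Cut.none Ext.none :=
  certFK0 (fam := true) (s1 := true) (s2 := true) (a := 0) (b := 2) (c := 2) (cn := .pp) (n1 := ndF2q0) (n2 := ndF4q2) (pc := pcF2) (cut := Cut.none) (xt := Ext.none) (P1 := 0) (W1 := 536870912) (P2 := 1073741824) (W2 := 536870912) (P3 := 33554432) (W3 := 16777216)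
    rfl rfl rfl k0_pp_022

noncomputable def f_pp_023 : ℕ → ℕ → ℕ → ℕ → Bool := onCell 0 536870912 1073741824 536870912 33554432 16777216
    (rowFK 0 true true true .up 0 2 3 (qsf 0 536870912 1073741824 536870912 3) ndF2q0 ndF4q2 pcF3 Cut.none Ext.none)

def k0_pp_023 : ∃ t, chk3 f_pp_023 t 1 1 1 = true :=
  ⟨(l 4), by decide +kernel⟩

theorem c_pp_023 : CertF 0 536870912 1073741824 536870912 33554432 16777216 true true true .up 0 2 3
    ndF2q0 ndF4q2 pcF3 Cut.none Ext.none :=
  certFK0 (fam := true) (s1 := true) (s2 := true) (a := 0) (b := 2) (c := 3) (cn := .up) (n1 := ndF2q0) (n2 := ndF4q2) (pc := pcF3) (cut := Cut.none) (xt := Ext.none) (P1 := 0) (W1 := 536870912) (P2 := 1073741824) (W2 := 536870912) (P3 := 33554432) (W3 := 16777216)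
    rfl rfl rfl k0_pp_023

noncomputable def f_pp_033 : ℕ → ℕ → ℕ → ℕ → Bool := onCell 0 536870912 0 1230186008 33554432 16777216
    (rowFK 0 true true true .pnn 0 3 3 (qsf 0 536870912 0 1230186008 3) ndF2q0 ndF4q3 pcF3 Cut.none Ext.none)

def k0_pp_033 : ∃ t, chk3 f_pp_033 t 1 1 1 = true :=
  ⟨(b (l 4) (l 4)), by decide +kernel⟩

theorem c_pp_033 : CertF 0 536870912 0 1230186008 33554432 16777216 true true true .pnn 0 3 3
    ndF2q0 ndF4q3 pcF3 Cut.none Ext.none :=
  certFK0 (fam := true) (s1 := true) (s2 := true) (a := 0) (b := 3) (c := 3) (cn := .pnn) (n1 := ndF2q0) (n2 := ndF4q3) (pc := pcF3) (cut := Cut.none) (xt := Ext.none) (P1 := 0) (W1 := 536870912) (P2 := 0) (W2 := 1230186008) (P3 := 33554432) (W3 := 16777216)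
    rfl rfl rfl k0_pp_033

noncomputable def f_pp_101 : ℕ → ℕ → ℕ → ℕ → Bool := onCell 536870912 536870912 0 536870912 33554432 16777216
    (rowFK 0 true true true .npn 1 0 1 (qsf 536870912 536870912 0 536870912 1) ndF2q1 ndF4q0 pcF1 Cut.none Ext.none)

def k0_pp_101 : ∃ t, chk3 f_pp_101 t 1 1 1 = true :=
  ⟨(l 4), by decide +kernel⟩

theorem c_pp_101 : CertF 536870912 536870912 0 536870912 33554432 16777216 true true true .npn 1 0 1
    ndF2q1 ndF4q0 pcF1 Cut.none Ext.none :=
  certFK0 (fam := true) (s1 := true) (s2 := true) (a := 1) (b := 0) (c := 1) (cn := .npn) (n1 := ndF2q1) (n2 := ndF4q0) (pc := pcF1) (cut := Cut.none) (xt := Ext.none) (P1 := 536870912) (W1 := 536870912) (P2 := 0) (W2 := 536870912) (P3 := 33554432) (W3 := 16777216)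
    rfl rfl rfl k0_pp_101

noncomputable def f_pp_102 : ℕ → ℕ → ℕ → ℕ → Bool := onCell 536870912 536870912 0 536870912 33554432 16777216
    (rowFK 0 true true true .npp 1 0 2 (qsf 536870912 536870912 0 536870912 2) ndF2q1 ndF4q0 pcF2 Cut.none Ext.none)

def k0_pp_102 : ∃ t, chk3 f_pp_102 t 1 1 1 = true :=
  ⟨(l 4), by decide +kernel⟩

theorem c_pp_102 : CertF 536870912 536870912 0 536870912 33554432 16777216 true true true .npp 1 0 2
    ndF2q1 ndF4q0 pcF2 Cut.none Ext.none :=
  certFK0 (fam := true) (s1 := true) (s2 := true) (a := 1) (b := 0) (c := 2) (cn := .npp) (n1 := ndF2q1) (n2 := ndF4q0) (pc := pcF2) (cut := Cut.none) (xt := Ext.none) (P1 := 536870912) (W1 := 536870912) (P2 := 0) (W2 := 536870912) (P3 := 33554432) (W3 := 16777216)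
    rfl rfl rfl k0_pp_102

noncomputable def f_pp_112 : ℕ → ℕ → ℕ → ℕ → Bool := onCell 536870912 536870912 536870912 536870912 33554432 16777216
    (rowFK 0 true true true .dn 1 1 2 (qsf 536870912 536870912 536870912 536870912 2) ndF2q1 ndF4q1 pcF2 Cut.none Ext.none)

def k0_pp_112 : ∃ t, chk3 f_pp_112 t 1 1 1 = true :=
  ⟨(l 4), by decide +kernel⟩

theorem c_pp_112 : CertF 536870912 536870912 536870912 536870912 33554432 16777216 true true true .dn 1 1 2
    ndF2q1 ndF4q1 pcF2 Cut.none Ext.none :=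
  certFK0 (fam := true) (s1 := true) (s2 := true) (a := 1) (b := 1) (c := 2) (cn := .dn) (n1 := ndF2q1) (n2 := ndF4q1) (pc := pcF2) (cut := Cut.none) (xt := Ext.none) (P1 := 536870912) (W1 := 536870912) (P2 := 536870912) (W2 := 536870912) (P3 := 33554432) (W3 := 16777216)
    rfl rfl rfl k0_pp_112

noncomputable def f_pp_113 : ℕ → ℕ → ℕ → ℕ → Bool := onCell 536870912 536870912 536870912 536870912 33554432 16777216
    (rowFK 0 true true true .nn 1 1 3 (qsf 536870912 536870912 536870912 536870912 3) ndF2q1 ndF4q1 pcF3 Cut.none Ext.none)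

def k0_pp_113 : ∃ t, chk3 f_pp_113 t 1 1 1 = true :=
  ⟨(l 4), by decide +kernel⟩

theorem c_pp_113 : CertF 536870912 536870912 536870912 536870912 33554432 16777216 true true true .nn 1 1 3
    ndF2q1 ndF4q1 pcF3 Cut.none Ext.none :=
  certFK0 (fam := true) (s1 := true) (s2 := true) (a := 1) (b := 1) (c := 3) (cn := .nn) (n1 := ndF2q1) (n2 := ndF4q1) (pc := pcF3) (cut := Cut.none) (xt := Ext.none) (P1 := 536870912) (W1 := 536870912) (P2 := 536870912) (W2 := 536870912) (P3 := 33554432) (W3 := 16777216)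
    rfl rfl rfl k0_pp_113

noncomputable def f_pp_123 : ℕ → ℕ → ℕ → ℕ → Bool := onCell 536870912 536870912 1073741824 536870912 33554432 16777216
    (rowFK 0 true true true .npn 1 2 3 (qsf 536870912 536870912 1073741824 536870912 3) ndF2q1 ndF4q2 pcF3 Cut.none Ext.none)

def k0_pp_123 : ∃ t, chk3 f_pp_123 t 1 1 1 = true :=
  ⟨(l 4), by decide +kernel⟩

theorem c_pp_123 : CertF 536870912 536870912 1073741824 536870912 33554432 16777216 true true true .npn 1 2 3
    ndF2q1 ndF4q2 pcF3 Cut.none Ext.none :=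
  certFK0 (fam := true) (s1 := true) (s2 := true) (a := 1) (b := 2) (c := 3) (cn := .npn) (n1 := ndF2q1) (n2 := ndF4q2) (pc := pcF3) (cut := Cut.none) (xt := Ext.none) (P1 := 536870912) (W1 := 536870912) (P2 := 1073741824) (W2 := 536870912) (P3 := 33554432) (W3 := 16777216)
    rfl rfl rfl k0_pp_123

noncomputable def f_pp_133 : ℕ → ℕ → ℕ → ℕ → Bool := onCell 536870912 536870912 0 1230186008 33554432 16777216
    (rowFK 0 true true true .dn 1 3 3 (qsf 536870912 536870912 0 1230186008 3) ndF2q1 ndF4q3 pcF3 Cut.none Ext.none)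

def k0_pp_133 : ∃ t, chk3 f_pp_133 t 1 1 1 = true :=
  ⟨(l 4), by decide +kernel⟩

theorem c_pp_133 : CertF 536870912 536870912 0 1230186008 33554432 16777216 true true true .dn 1 3 3
    ndF2q1 ndF4q3 pcF3 Cut.none Ext.none :=
  certFK0 (fam := true) (s1 := true) (s2 := true) (a := 1) (b := 3) (c := 3) (cn := .dn) (n1 := ndF2q1) (n2 := ndF4q3) (pc := pcF3) (cut := Cut.none) (xt := Ext.none) (P1 := 536870912) (W1 := 536870912) (P2 := 0) (W2 := 1230186008) (P3 := 33554432) (W3 := 16777216)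
    rfl rfl rfl k0_pp_133

noncomputable def f_pp_202_a : ℕ → ℕ → ℕ → ℕ → Bool := onCell 0 536870912 0 536870912 33554432 16777216
    (rowFK 0 true true true .pp 2 0 2 (qsf 0 536870912 0 536870912 2) ndF2q2a ndF4q0 pcF2 Cut.none Ext.none)

def k0_pp_202_a : ∃ t, chk3 f_pp_202_a t 1 1 1 = true :=
  ⟨(l 4), by decide +kernel⟩

theorem c_pp_202_a : CertF 0 536870912 0 536870912 33554432 16777216 true true true .pp 2 0 2
    ndF2q2a ndF4q0 pcF2 Cut.none Ext.none :=
  certFK0 (fam := true) (s1 := true) (s2 := true) (a := 2) (b := 0) (c := 2) (cn := .pp) (n1 := ndF2q2a) (n2 := ndF4q0) (pc := pcF2) (cut := Cut.none) (xt := Ext.none) (P1 := 0) (W1 := 536870912) (P2 := 0) (W2 := 536870912) (P3 := 33554432) (W3 := 16777216)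
    rfl rfl rfl k0_pp_202_a

noncomputable def f_pp_202_b : ℕ → ℕ → ℕ → ℕ → Bool := onCell 1239849684 370763052 0 536870912 33554432 16777216
    (rowFK 0 true true true .pp 2 0 2 (qsf 1239849684 370763052 0 536870912 2) ndF2q2b ndF4q0 pcF2 Cut.none Ext.none)

def k0_pp_202_b : ∃ t, chk3 f_pp_202_b t 1 1 1 = true :=
  ⟨(l 4), by decide +kernel⟩

theorem c_pp_202_b : CertF 1239849684 370763052 0 536870912 33554432 16777216 true true true .pp 2 0 2
    ndF2q2b ndF4q0 pcF2 Cut.none Ext.none :=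
  certFK0 (fam := true) (s1 := true) (s2 := true) (a := 2) (b := 0) (c := 2) (cn := .pp) (n1 := ndF2q2b) (n2 := ndF4q0) (pc := pcF2) (cut := Cut.none) (xt := Ext.none) (P1 := 1239849684) (W1 := 370763052) (P2 := 0) (W2 := 536870912) (P3 := 33554432) (W3 := 16777216)
    rfl rfl rfl k0_pp_202_b

noncomputable def f_pp_203_a : ℕ → ℕ → ℕ → ℕ → Bool := onCell 0 536870912 0 536870912 33554432 16777216
    (rowFK 0 true true true .up 2 0 3 (qsf 0 536870912 0 536870912 3) ndF2q2a ndF4q0 pcF3 Cut.none Ext.none)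

def k0_pp_203_a : ∃ t, chk3 f_pp_203_a t 1 1 1 = true :=
  ⟨(l 4), by decide +kernel⟩

theorem c_pp_203_a : CertF 0 536870912 0 536870912 33554432 16777216 true true true .up 2 0 3
    ndF2q2a ndF4q0 pcF3 Cut.none Ext.none :=
  certFK0 (fam := true) (s1 := true) (s2 := true) (a := 2) (b := 0) (c := 3) (cn := .up) (n1 := ndF2q2a) (n2 := ndF4q0) (pc := pcF3) (cut := Cut.none) (xt := Ext.none) (P1 := 0) (W1 := 536870912) (P2 := 0) (W2 := 536870912) (P3 := 33554432) (W3 := 16777216)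
    rfl rfl rfl k0_pp_203_a

noncomputable def f_pp_203_b : ℕ → ℕ → ℕ → ℕ → Bool := onCell 1239849684 370763052 0 536870912 33554432 16777216
    (rowFK 0 true true true .up 2 0 3 (qsf 1239849684 370763052 0 536870912 3) ndF2q2b ndF4q0 pcF3 Cut.none Ext.none)

def k0_pp_203_b : ∃ t, chk3 f_pp_203_b t 1 1 1 = true :=
  ⟨(l 4), by decide +kernel⟩

theorem c_pp_203_b : CertF 1239849684 370763052 0 536870912 33554432 16777216 true true true .up 2 0 3
    ndF2q2b ndF4q0 pcF3 Cut.none Ext.none :=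
  certFK0 (fam := true) (s1 := true) (s2 := true) (a := 2) (b := 0) (c := 3) (cn := .up) (n1 := ndF2q2b) (n2 := ndF4q0) (pc := pcF3) (cut := Cut.none) (xt := Ext.none) (P1 := 1239849684) (W1 := 370763052) (P2 := 0) (W2 := 536870912) (P3 := 33554432) (W3 := 16777216)
    rfl rfl rfl k0_pp_203_b

noncomputable def f_pp_213_a : ℕ → ℕ → ℕ → ℕ → Bool := onCell 0 536870912 536870912 536870912 33554432 16777216
    (rowFK 0 true true true .pnn 2 1 3 (qsf 0 536870912 536870912 536870912 3) ndF2q2a ndF4q1 pcF3 Cut.none Ext.none)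

def k0_pp_213_a : ∃ t, chk3 f_pp_213_a t 1 1 1 = true :=
  ⟨(l 4), by decide +kernel⟩

theorem c_pp_213_a : CertF 0 536870912 536870912 536870912 33554432 16777216 true true true .pnn 2 1 3
    ndF2q2a ndF4q1 pcF3 Cut.none Ext.none :=
  certFK0 (fam := true) (s1 := true) (s2 := true) (a := 2) (b := 1) (c := 3) (cn := .pnn) (n1 := ndF2q2a) (n2 := ndF4q1) (pc := pcF3) (cut := Cut.none) (xt := Ext.none) (P1 := 0) (W1 := 536870912) (P2 := 536870912) (W2 := 536870912) (P3 := 33554432) (W3 := 16777216)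
    rfl rfl rfl k0_pp_213_a

noncomputable def f_pp_213_b : ℕ → ℕ → ℕ → ℕ → Bool := onCell 1239849684 370763052 536870912 536870912 33554432 16777216
    (rowFK 0 true true true .pnn 2 1 3 (qsf 1239849684 370763052 536870912 536870912 3) ndF2q2b ndF4q1 pcF3 Cut.none Ext.none)

def k0_pp_213_b : ∃ t, chk3 f_pp_213_b t 1 1 1 = true :=
  ⟨(l 4), by decide +kernel⟩

theorem c_pp_213_b : CertF 1239849684 370763052 536870912 536870912 33554432 16777216 true true true .pnn 2 1 3
    ndF2q2b ndF4q1 pcF3 Cut.none Ext.none :=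
  certFK0 (fam := true) (s1 := true) (s2 := true) (a := 2) (b := 1) (c := 3) (cn := .pnn) (n1 := ndF2q2b) (n2 := ndF4q1) (pc := pcF3) (cut := Cut.none) (xt := Ext.none) (P1 := 1239849684) (W1 := 370763052) (P2 := 536870912) (W2 := 536870912) (P3 := 33554432) (W3 := 16777216)
    rfl rfl rfl k0_pp_213_b

noncomputable def f_pp_303 : ℕ → ℕ → ℕ → ℕ → Bool := onCell 1610612736 536870912 0 536870912 33554432 16777216
    (rowFK 0 true true true .npn 3 0 3 (qsf 1610612736 536870912 0 536870912 3) ndF2q3 ndF4q0 pcF3 Cut.none Ext.none)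

def k0_pp_303 : ∃ t, chk3 f_pp_303 t 1 1 1 = true :=
  ⟨(l 4), by decide +kernel⟩

theorem c_pp_303 : CertF 1610612736 536870912 0 536870912 33554432 16777216 true true true .npn 3 0 3
    ndF2q3 ndF4q0 pcF3 Cut.none Ext.none :=
  certFK0 (fam := true) (s1 := true) (s2 := true) (a := 3) (b := 0) (c := 3) (cn := .npn) (n1 := ndF2q3) (n2 := ndF4q0) (pc := pcF3) (cut := Cut.none) (xt := Ext.none) (P1 := 1610612736) (W1 := 536870912) (P2 := 0) (W2 := 536870912) (P3 := 33554432) (W3 := 16777216)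
    rfl rfl rfl k0_pp_303

noncomputable def f_pp_313 : ℕ → ℕ → ℕ → ℕ → Bool := onCell 1610612736 536870912 536870912 536870912 33554432 16777216
    (rowFK 0 true true true .dn 3 1 3 (qsf 1610612736 536870912 536870912 536870912 3) ndF2q3 ndF4q1 pcF3 Cut.none Ext.none)

def k0_pp_313 : ∃ t, chk3 f_pp_313 t 1 1 1 = true :=
  ⟨(l 4), by decide +kernel⟩

theorem c_pp_313 : CertF 1610612736 536870912 536870912 536870912 33554432 16777216 true true true .dn 3 1 3
    ndF2q3 ndF4q1 pcF3 Cut.none Ext.none :=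
  certFK0 (fam := true) (s1 := true) (s2 := true) (a := 3) (b := 1) (c := 3) (cn := .dn) (n1 := ndF2q3) (n2 := ndF4q1) (pc := pcF3) (cut := Cut.none) (xt := Ext.none) (P1 := 1610612736) (W1 := 536870912) (P2 := 536870912) (W2 := 536870912) (P3 := 33554432) (W3 := 16777216)
    rfl rfl rfl k0_pp_313

noncomputable def f_pm_001 : ℕ → ℕ → ℕ → ℕ → Bool := onCell 0 536870912 0 536870912 33554432 16777216
    (rowFK 0 true true false .up 0 0 1 (qsf 0 536870912 0 536870912 1) ndF2q0 ndF4q0 pcF1 Cut.none Ext.none)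

def k0_pm_001 : ∃ t, chk3 f_pm_001 t 1 1 1 = true :=
  ⟨(l 3), by decide +kernel⟩

theorem c_pm_001 : CertF 0 536870912 0 536870912 33554432 16777216 true true false .up 0 0 1
    ndF2q0 ndF4q0 pcF1 Cut.none Ext.none :=
  certFK0 (fam := true) (s1 := true) (s2 := false) (a := 0) (b := 0) (c := 1) (cn := .up) (n1 := ndF2q0) (n2 := ndF4q0) (pc := pcF1) (cut := Cut.none) (xt := Ext.none) (P1 := 0) (W1 := 536870912) (P2 := 0) (W2 := 536870912) (P3 := 33554432) (W3 := 16777216)
    rfl rfl rfl k0_pm_001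

noncomputable def cut_pm_011 : Cut := Cut.of [[⟨0, 0, 0, 33554432⟩, ⟨1, 1, 0, 33554432⟩, ⟨2, 1, 0, 33554432⟩]]

noncomputable def f_pm_011 : ℕ → ℕ → ℕ → ℕ → Bool := onCell 0 536870912 536870912 536870912 33554432 16777216
    (rowFK 1 true true false .pnn 0 1 1 (qsf 0 536870912 536870912 536870912 1) ndF2q0 ndF4q1 pcF1 cut_pm_011 Ext.none)

def k0_pm_011 : ∃ t, chk3 f_pm_011 t 1 1 1 = true :=
  ⟨(b (l 3) (a (b (l 3) (a (b (l 3) (a (b (l 3) (a (a (b (l 3) (a (l 6) (l 3))) (l 3)) (l 3))) (l 3))) (l 3))) (l 3))), by decide +kernel⟩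

theorem c_pm_011 : CertF 0 536870912 536870912 536870912 33554432 16777216 true true false .pnn 0 1 1
    ndF2q0 ndF4q1 pcF1 cut_pm_011 Ext.none :=
  certFK1 (fam := true) (s1 := true) (s2 := false) (a := 0) (b := 1) (c := 1) (cn := .pnn) (n1 := ndF2q0) (n2 := ndF4q1) (pc := pcF1) (cut := cut_pm_011) (xt := Ext.none) (P1 := 0) (W1 := 536870912) (P2 := 536870912) (W2 := 536870912) (P3 := 33554432) (W3 := 16777216)
    rfl rfl rfl (fun _ => rfl) k0_pm_011

noncomputable def cut_pm_012 : Cut := Cut.of [[⟨0, 0, 0, 33554432⟩, ⟨1, 1, 0, 33554432⟩, ⟨2, 1, 0, 33554432⟩]]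

noncomputable def f_pm_012 : ℕ → ℕ → ℕ → ℕ → Bool := onCell 1073741824 536870912 536870912 536870912 33554432 16777216
    (rowFK 2 true true false .pnp 0 1 2 (qsf 0 536870912 536870912 536870912 2) ndF2q0 ndF4q1 pcF2 cut_pm_012 Ext.none)

def k0_pm_012 : ∃ t, chk3 f_pm_012 t 1 1 1 = true :=
  ⟨(a (b (a (a (l 3) (b (l 17284184) (l 17897872))) (a (a (a (l 17689880) (b (l 2) (l 18184632))) (l 17904072)) (l 18021288))) (a (a (b (l 3) (b (l 3) (b (a (l 3) (l 18905040)) (b (a (l 3) (l 18726968)) (b (a (l 2632982664967) (l 18410696)) (a (a (l 6) (l 16730624)) (l 17984736))))))) (b (l 18900416) (b (l 513958926119) (a (b (l 19569768) (l 19707696)) (l 20130784))))) (a (b (a (a (l 18897872) (l 19035112)) (l 19134864)) (a (a (l 20033896) (a (l 20133032) (l 20307992))) (l 20277768))) (b (l 19289240) (l 20436456))))) (b (l 18214040) (b (l 19489424) (l 20508920)))), by decide +kernel⟩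

theorem c_pm_012 : CertF 0 536870912 536870912 536870912 33554432 16777216 true true false .pnp 0 1 2
    ndF2q0 ndF4q1 pcF2 cut_pm_012 Ext.none :=
  certFK2 (fam := true) (s1 := true) (s2 := false) (a := 0) (b := 1) (c := 2) (cn := .pnp) (n1 := ndF2q0) (n2 := ndF4q1) (pc := pcF2) (cut := cut_pm_012) (xt := Ext.none) (P1 := 0) (W1 := 536870912) (P2 := 536870912) (W2 := 536870912) (P3 := 33554432) (W3 := 16777216)
    rfl rfl rfl (fun _ => rfl) k0_pm_012

noncomputable def cut_pm_022 : Cut := Cut.of [[⟨0, 0, 0, 33554432⟩, ⟨1, 1, 0, 33554432⟩, ⟨2, 1, 0, 33554432⟩]]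

noncomputable def f_pm_022 : ℕ → ℕ → ℕ → ℕ → Bool := onCell 0 536870912 1073741824 536870912 33554432 16777216
    (rowFK 1 true true false .pp 0 2 2 (qsf 0 536870912 1073741824 536870912 2) ndF2q0 ndF4q2 pcF2 cut_pm_022 Ext.none)

def k0_pm_022 : ∃ t, chk3 f_pm_022 t 1 1 1 = true :=
  ⟨(a (b (a (a (b (b (a (b (a (b (l 6) (b (l 6) (a (a (a (a (l 16735552) (l 16729048)) (l 16727176)) (l 16744288)) (l 16716720)))) (b (l 16774104) (l 16734184))) (a (a (b (a (a (b (a (l 16738600) (l 16716320)) (b (l 16886472) (c (l 17614768) (l 16883344)))) (l 16728984)) (l 16725064)) (a (b (c (l 17993512) (a (l 17252552) (l 17345888))) (l 18083472)) (l 17930376))) (b (l 16717240) (l 17988800))) (b (l 16702296) (l 18103920)))) (b (b (l 1) (l 16724000)) (b (l 16669680) (a (l 18255016) (l 18362600))))) (b (a (a (b (a (l 18549400) (l 18649648)) (l 18986696)) (l 19019672)) (b (l 19083048) (l 19486136))) (a (l 19428728) (l 19806736)))) (b (b (l 19829416) (l 19908704)) (l 19918928)))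 (b (b (a (b (l 1) (b (l 1) (l 18410024))) (l 1)) (b (a (b (l 19329408) (l 19823744)) (l 19362688)) (a (l 20156000) (l 20401592)))) (b (b (b (l 20444544) (l 20480544)) (l 20493496)) (l 20440368)))) (b (b (l 1) (b (l 1) (a (l 20179344) (l 1)))) (b (b (b (l 20486520) (b (l 20970064) (a (l 20942760) (l 1)))) (l 20734432)) (l 21042080)))) (a (b (a (l 19700392) (l 20158904)) (a (l 19255728) (l 19642168))) (b (l 20740104) (l 20172168)))) (b (a (b (l 1) (b (l 1) (l 21042712))) (l 1)) (b (a (l 21065088) (l 21161832)) (a (l 20737168) (l 21121120))))), by decide +kernel⟩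

theorem c_pm_022 : CertF 0 536870912 1073741824 536870912 33554432 16777216 true true false .pp 0 2 2
    ndF2q0 ndF4q2 pcF2 cut_pm_022 Ext.none :=
  certFK1 (fam := true) (s1 := true) (s2 := false) (a := 0) (b := 2) (c := 2) (cn := .pp) (n1 := ndF2q0) (n2 := ndF4q2) (pc := pcF2) (cut := cut_pm_022) (xt := Ext.none) (P1 := 0) (W1 := 536870912) (P2 := 1073741824) (W2 := 536870912) (P3 := 33554432) (W3 := 16777216)
    rfl rfl rfl (fun _ => rfl) k0_pm_022

noncomputable def f_pm_023 : ℕ → ℕ → ℕ → ℕ → Bool := onCell 1610612736 536870912 1073741824 536870912 33554432 16777216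
    (rowFK 2 true true false .up 0 2 3 (qsf 0 536870912 1073741824 536870912 3) ndF2q0 ndF4q2 pcF3 Cut.none Ext.none)

def k0_pm_023 : ∃ t, chk3 f_pm_023 t 1 1 1 = true :=
  ⟨(b (a (l 20237648) (a (b (l 2) (l 19928752)) (l 2))) (a (b (l 19726712) (l 387659885271)) (a (b (l 19480856) (l 18974688)) (a (l 19056040) (a (l 18919264) (a (l 18868456) (a (l 18836504) (l 279411970311)))))))), by decide +kernel⟩

theorem c_pm_023 : CertF 0 536870912 1073741824 536870912 33554432 16777216 true true false .up 0 2 3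
    ndF2q0 ndF4q2 pcF3 Cut.none Ext.none :=
  certFK2 (fam := true) (s1 := true) (s2 := false) (a := 0) (b := 2) (c := 3) (cn := .up) (n1 := ndF2q0) (n2 := ndF4q2) (pc := pcF3) (cut := Cut.none) (xt := Ext.none) (P1 := 0) (W1 := 536870912) (P2 := 1073741824) (W2 := 536870912) (P3 := 33554432) (W3 := 16777216)
    rfl rfl rfl (fun _ => rfl) k0_pm_023

noncomputable def f_pm_033 : ℕ → ℕ → ℕ → ℕ → Bool := onCell 1610612736 536870912 0 1230186008 33554432 16777216
    (rowFK 2 true true false .pnn 0 3 3 (qsf 0 536870912 0 1230186008 3) ndF2q0 ndF4q3 pcF3 Cut.none Ext.none)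

def k0_pm_033 : ∃ t, chk3 f_pm_033 t 1 1 1 = true :=
  ⟨(a (b (l 1) (b (a (l 1) (a (l 1) (a (l 1) (b (l 1) (l 1028143794535))))) (b (a (l 1) (a (l 1078074869095) (a (l 18291320) (l 18195216)))) (a (a (b (l 1) (l 19639224)) (l 19294336)) (a (l 18919984) (l 18692968)))))) (a (b (l 1) (b (b (a (l 1) (l 18479544)) (b (l 901980682151) (l 18665272))) (b (b (l 18762080) (l 18877664)) (a (l 18762440) (l 18931912))))) (b (b (a (l 1) (l 4)) (a (l 986269017255) (l 4))) (a (b (l 18521152) (b (l 18720056) (l 18790392))) (a (b (l 18448984) (l 18580088)) (b (l 4) (a (l 18533936) (b (l 4) (l 4))))))))), by decide +kernel⟩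

theorem c_pm_033 : CertF 0 536870912 0 1230186008 33554432 16777216 true true false .pnn 0 3 3
    ndF2q0 ndF4q3 pcF3 Cut.none Ext.none :=
  certFK2 (fam := true) (s1 := true) (s2 := false) (a := 0) (b := 3) (c := 3) (cn := .pnn) (n1 := ndF2q0) (n2 := ndF4q3) (pc := pcF3) (cut := Cut.none) (xt := Ext.none) (P1 := 0) (W1 := 536870912) (P2 := 0) (W2 := 1230186008) (P3 := 33554432) (W3 := 16777216)
    rfl rfl rfl (fun _ => rfl) k0_pm_033

noncomputable def f_pm_101 : ℕ → ℕ → ℕ → ℕ → Bool := onCell 536870912 536870912 536870912 536870912 33554432 16777216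
    (rowFK 1 true true false .npn 1 0 1 (qsf 536870912 536870912 0 536870912 1) ndF2q1 ndF4q0 pcF1 Cut.none Ext.none)

def k0_pm_101 : ∃ t, chk3 f_pm_101 t 1 1 1 = true :=
  ⟨(l 3), by decide +kernel⟩

theorem c_pm_101 : CertF 536870912 536870912 0 536870912 33554432 16777216 true true false .npn 1 0 1
    ndF2q1 ndF4q0 pcF1 Cut.none Ext.none :=
  certFK1 (fam := true) (s1 := true) (s2 := false) (a := 1) (b := 0) (c := 1) (cn := .npn) (n1 := ndF2q1) (n2 := ndF4q0) (pc := pcF1) (cut := Cut.none) (xt := Ext.none) (P1 := 536870912) (W1 := 536870912) (P2 := 0) (W2 := 536870912) (P3 := 33554432) (W3 := 16777216)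
    rfl rfl rfl (fun _ => rfl) k0_pm_101

noncomputable def f_pm_102 : ℕ → ℕ → ℕ → ℕ → Bool := onCell 536870912 536870912 1073741824 536870912 33554432 16777216
    (rowFK 1 true true false .npp 1 0 2 (qsf 536870912 536870912 0 536870912 2) ndF2q1 ndF4q0 pcF2 Cut.none Ext.none)

def k0_pm_102 : ∃ t, chk3 f_pm_102 t 1 1 1 = true :=
  ⟨(b (b (b (l 3) (a (b (l 3) (l 18956832)) (a (l 19236920) (a (l 19409544) (a (l 19520000) (a (l 19607064) (a (l 19651072) (l 19680240)))))))) (a (b (b (b (l 18888200) (b (l 18917320) (l 18923792))) (l 18946424)) (a (l 2) (l 18707808))) (a (b (b (b (l 19031840) (l 19036600)) (l 18938920)) (l 18801952)) (a (b (b (b (l 19222344) (l 19226664)) (l 19117928)) (l 18989768)) (b (a (b (b (l 19333352) (l 19336264)) (l 19234320)) (a (b (b (l 19419112) (l 19417688)) (l 19314880)) (a (b (b (l 19461848) (l 19457784)) (l 19354240)) (b (b (l 19492408) (l 19483568)) (l 19379504))))) (a (l 19111152) (a (l 19203240) (a (l 19249472) (l 19278872)))))))))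 (a (a (l 2) (b (l 18650648) (l 2))) (a (b (l 18689264) (l 18416752)) (a (l 18768072) (a (l 18885048) (a (l 18988992) (a (l 19043240) (l 19076344)))))))), by decide +kernel⟩

theorem c_pm_102 : CertF 536870912 536870912 0 536870912 33554432 16777216 true true false .npp 1 0 2
    ndF2q1 ndF4q0 pcF2 Cut.none Ext.none :=
  certFK1 (fam := true) (s1 := true) (s2 := false) (a := 1) (b := 0) (c := 2) (cn := .npp) (n1 := ndF2q1) (n2 := ndF4q0) (pc := pcF2) (cut := Cut.none) (xt := Ext.none) (P1 := 536870912) (W1 := 536870912) (P2 := 0) (W2 := 536870912) (P3 := 33554432) (W3 := 16777216)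
    rfl rfl rfl (fun _ => rfl) k0_pm_102

noncomputable def f_pm_112 : ℕ → ℕ → ℕ → ℕ → Bool := onCell 536870912 536870912 1073741824 536870912 33554432 16777216
    (rowFK 1 true true false .dn 1 1 2 (qsf 536870912 536870912 536870912 536870912 2) ndF2q1 ndF4q1 pcF2 Cut.none Ext.none)

def k0_pm_112 : ∃ t, chk3 f_pm_112 t 1 1 1 = true :=
  ⟨(a (b (b (b (l 3) (l 18945960)) (b (b (b (l 18829984) (b (l 18859448) (l 18863688))) (l 18865120)) (l 18789728))) (b (l 18667832) (l 18478456))) (b (a (b (l 1) (b (l 1) (l 18799376))) (l 1)) (a (l 18584008) (a (l 18804184) (a (l 18919200) (a (l 19022512) (a (l 19076504) (l 19109760)))))))), by decide +kernel⟩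

theorem c_pm_112 : CertF 536870912 536870912 536870912 536870912 33554432 16777216 true true false .dn 1 1 2
    ndF2q1 ndF4q1 pcF2 Cut.none Ext.none :=
  certFK1 (fam := true) (s1 := true) (s2 := false) (a := 1) (b := 1) (c := 2) (cn := .dn) (n1 := ndF2q1) (n2 := ndF4q1) (pc := pcF2) (cut := Cut.none) (xt := Ext.none) (P1 := 536870912) (W1 := 536870912) (P2 := 536870912) (W2 := 536870912) (P3 := 33554432) (W3 := 16777216)
    rfl rfl rfl (fun _ => rfl) k0_pm_112

noncomputable def f_pm_113 : ℕ → ℕ → ℕ → ℕ → Bool := onCell 536870912 536870912 536870912 536870912 33554432 16777216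
    (rowFK 0 true true false .nn 1 1 3 (qsf 536870912 536870912 536870912 536870912 3) ndF2q1 ndF4q1 pcF3 Cut.none Ext.none)

def k0_pm_113 : ∃ t, chk3 f_pm_113 t 1 1 1 = true :=
  ⟨(a (b (b (l 1) (l 19202240)) (l 18858208)) (b (a (l 19227128) (a (l 19221336) (a (l 19250696) (a (l 19300752) (a (l 19324864) (l 19339496)))))) (a (l 18142880) (a (l 17866408) (a (l 17767368) (a (l 17755096) (a (b (l 18192392) (l 17293224)) (b (l 18190784) (b (l 17530160) (b (l 17167408) (b (l 16977544) (b (l 16881168) (b (l 16832704) (l 16797368)))))))))))))), by decide +kernel⟩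

theorem c_pm_113 : CertF 536870912 536870912 536870912 536870912 33554432 16777216 true true false .nn 1 1 3
    ndF2q1 ndF4q1 pcF3 Cut.none Ext.none :=
  certFK0 (fam := true) (s1 := true) (s2 := false) (a := 1) (b := 1) (c := 3) (cn := .nn) (n1 := ndF2q1) (n2 := ndF4q1) (pc := pcF3) (cut := Cut.none) (xt := Ext.none) (P1 := 536870912) (W1 := 536870912) (P2 := 536870912) (W2 := 536870912) (P3 := 33554432) (W3 := 16777216)
    rfl rfl rfl k0_pm_113

noncomputable def f_pm_123 : ℕ → ℕ → ℕ → ℕ → Bool := onCell 1610612736 536870912 1073741824 536870912 33554432 16777216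
    (rowFK 2 true true false .npn 1 2 3 (qsf 536870912 536870912 1073741824 536870912 3) ndF2q1 ndF4q2 pcF3 Cut.none Ext.none)

def k0_pm_123 : ∃ t, chk3 f_pm_123 t 1 1 1 = true :=
  ⟨(a (b (b (l 18113480) (l 17981288)) (b (l 17824872) (l 1))) (b (a (b (l 17444536) (l 17408592)) (b (a (b (l 17208920) (l 17188544)) (a (l 16991336) (a (l 16909984) (a (l 16854512) (a (l 16828224) (b (b (b (b (l 16793752) (l 16795592)) (l 16806896)) (l 16821672)) (l 16790776))))))) (a (l 17013712) (a (l 17116448) (a (l 16979464) (a (l 16941720) (l 16960712))))))) (a (b (a (l 17179768) (l 17046792)) (a (l 1) (l 17593072))) (a (b (l 17444832) (l 17535256)) (a (l 17387416) (a (l 17385608) (a (l 17424344) (l 1489516648551)))))))), by decide +kernel⟩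

theorem c_pm_123 : CertF 536870912 536870912 1073741824 536870912 33554432 16777216 true true false .npn 1 2 3
    ndF2q1 ndF4q2 pcF3 Cut.none Ext.none :=
  certFK2 (fam := true) (s1 := true) (s2 := false) (a := 1) (b := 2) (c := 3) (cn := .npn) (n1 := ndF2q1) (n2 := ndF4q2) (pc := pcF3) (cut := Cut.none) (xt := Ext.none) (P1 := 536870912) (W1 := 536870912) (P2 := 1073741824) (W2 := 536870912) (P3 := 33554432) (W3 := 16777216)
    rfl rfl rfl (fun _ => rfl) k0_pm_123

noncomputable def f_pm_133 : ℕ → ℕ → ℕ → ℕ → Bool := onCell 536870912 536870912 0 1230186008 33554432 16777216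
    (rowFK 0 true true false .dn 1 3 3 (qsf 536870912 536870912 0 1230186008 3) ndF2q1 ndF4q3 pcF3 Cut.none Ext.none)

def k0_pm_133 : ∃ t, chk3 f_pm_133 t 1 1 1 = true :=
  ⟨(b (l 2) (b (l 2) (a (b (l 2) (l 4)) (l 2)))), by decide +kernel⟩

theorem c_pm_133 : CertF 536870912 536870912 0 1230186008 33554432 16777216 true true false .dn 1 3 3
    ndF2q1 ndF4q3 pcF3 Cut.none Ext.none :=
  certFK0 (fam := true) (s1 := true) (s2 := false) (a := 1) (b := 3) (c := 3) (cn := .dn) (n1 := ndF2q1) (n2 := ndF4q3) (pc := pcF3) (cut := Cut.none) (xt := Ext.none) (P1 := 536870912) (W1 := 536870912) (P2 := 0) (W2 := 1230186008) (P3 := 33554432) (W3 := 16777216)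
    rfl rfl rfl k0_pm_133

noncomputable def f_pm_202_a : ℕ → ℕ → ℕ → ℕ → Bool := onCell 0 536870912 1073741824 536870912 33554432 16777216
    (rowFK 1 true true false .pp 2 0 2 (qsf 0 536870912 0 536870912 2) ndF2q2a ndF4q0 pcF2 Cut.none Ext.none)

def k0_pm_202_a : ∃ t, chk3 f_pm_202_a t 1 1 1 = true :=
  ⟨(a (b (b (l 19820064) (l 19272528)) (b (l 18670144) (l 17970232))) (b (a (b (l 19783088) (l 19290272)) (a (b (l 19770160) (l 19292032)) (a (b (l 19779024) (l 19303776)) (a (l 154658581047) (b (l 19788008) (l 19310056)))))) (a (b (l 18669888) (l 17979960)) (b (a (l 18686664) (a (l 18692744) (a (l 18692520) (l 18692296)))) (a (l 17983816) (a (l 18004240) (a (l 18018080) (l 18030528)))))))), by decide +kernel⟩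

theorem c_pm_202_a : CertF 0 536870912 0 536870912 33554432 16777216 true true false .pp 2 0 2
    ndF2q2a ndF4q0 pcF2 Cut.none Ext.none :=
  certFK1 (fam := true) (s1 := true) (s2 := false) (a := 2) (b := 0) (c := 2) (cn := .pp) (n1 := ndF2q2a) (n2 := ndF4q0) (pc := pcF2) (cut := Cut.none) (xt := Ext.none) (P1 := 0) (W1 := 536870912) (P2 := 0) (W2 := 536870912) (P3 := 33554432) (W3 := 16777216)
    rfl rfl rfl (fun _ => rfl) k0_pm_202_a

noncomputable def f_pm_202_b : ℕ → ℕ → ℕ → ℕ → Bool := onCell 1239849684 370763052 1073741824 536870912 33554432 16777216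
    (rowFK 1 true true false .pp 2 0 2 (qsf 1239849684 370763052 0 536870912 2) ndF2q2b ndF4q0 pcF2 Cut.none Ext.none)

def k0_pm_202_b : ∃ t, chk3 f_pm_202_b t 1 1 1 = true :=
  ⟨(b (b (l 1) (a (l 19338744) (l 1))) (b (a (l 18650200) (l 18760032)) (a (l 17936144) (l 4)))), by decide +kernel⟩

theorem c_pm_202_b : CertF 1239849684 370763052 0 536870912 33554432 16777216 true true false .pp 2 0 2
    ndF2q2b ndF4q0 pcF2 Cut.none Ext.none :=
  certFK1 (fam := true) (s1 := true) (s2 := false) (a := 2) (b := 0) (c := 2) (cn := .pp) (n1 := ndF2q2b) (n2 := ndF4q0) (pc := pcF2) (cut := Cut.none) (xt := Ext.none) (P1 := 1239849684) (W1 := 370763052) (P2 := 0) (W2 := 536870912) (P3 := 33554432) (W3 := 16777216)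
    rfl rfl rfl (fun _ => rfl) k0_pm_202_b

noncomputable def f_pm_203_a : ℕ → ℕ → ℕ → ℕ → Bool := onCell 0 536870912 1610612736 536870912 33554432 16777216
    (rowFK 1 true true false .up 2 0 3 (qsf 0 536870912 0 536870912 3) ndF2q2a ndF4q0 pcF3 Cut.none Ext.none)

def k0_pm_203_a : ∃ t, chk3 f_pm_203_a t 1 1 1 = true :=
  ⟨(b (l 4) (l 2)), by decide +kernel⟩

theorem c_pm_203_a : CertF 0 536870912 0 536870912 33554432 16777216 true true false .up 2 0 3
    ndF2q2a ndF4q0 pcF3 Cut.none Ext.none :=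
  certFK1 (fam := true) (s1 := true) (s2 := false) (a := 2) (b := 0) (c := 3) (cn := .up) (n1 := ndF2q2a) (n2 := ndF4q0) (pc := pcF3) (cut := Cut.none) (xt := Ext.none) (P1 := 0) (W1 := 536870912) (P2 := 0) (W2 := 536870912) (P3 := 33554432) (W3 := 16777216)
    rfl rfl rfl (fun _ => rfl) k0_pm_203_a

noncomputable def f_pm_203_b : ℕ → ℕ → ℕ → ℕ → Bool := onCell 1239849684 370763052 1610612736 536870912 33554432 16777216
    (rowFK 1 true true false .up 2 0 3 (qsf 1239849684 370763052 0 536870912 3) ndF2q2b ndF4q0 pcF3 Cut.none Ext.none)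

def k0_pm_203_b : ∃ t, chk3 f_pm_203_b t 1 1 1 = true :=
  ⟨(b (l 4) (l 4)), by decide +kernel⟩

theorem c_pm_203_b : CertF 1239849684 370763052 0 536870912 33554432 16777216 true true false .up 2 0 3
    ndF2q2b ndF4q0 pcF3 Cut.none Ext.none :=
  certFK1 (fam := true) (s1 := true) (s2 := false) (a := 2) (b := 0) (c := 3) (cn := .up) (n1 := ndF2q2b) (n2 := ndF4q0) (pc := pcF3) (cut := Cut.none) (xt := Ext.none) (P1 := 1239849684) (W1 := 370763052) (P2 := 0) (W2 := 536870912) (P3 := 33554432) (W3 := 16777216)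
    rfl rfl rfl (fun _ => rfl) k0_pm_203_b

noncomputable def f_pm_213_a : ℕ → ℕ → ℕ → ℕ → Bool := onCell 0 536870912 1610612736 536870912 33554432 16777216
    (rowFK 1 true true false .pnn 2 1 3 (qsf 0 536870912 536870912 536870912 3) ndF2q2a ndF4q1 pcF3 Cut.none Ext.none)

def k0_pm_213_a : ∃ t, chk3 f_pm_213_a t 1 1 1 = true :=
  ⟨(b (l 4) (l 4)), by decide +kernel⟩

theorem c_pm_213_a : CertF 0 536870912 536870912 536870912 33554432 16777216 true true false .pnn 2 1 3
    ndF2q2a ndF4q1 pcF3 Cut.none Ext.none :=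
  certFK1 (fam := true) (s1 := true) (s2 := false) (a := 2) (b := 1) (c := 3) (cn := .pnn) (n1 := ndF2q2a) (n2 := ndF4q1) (pc := pcF3) (cut := Cut.none) (xt := Ext.none) (P1 := 0) (W1 := 536870912) (P2 := 536870912) (W2 := 536870912) (P3 := 33554432) (W3 := 16777216)
    rfl rfl rfl (fun _ => rfl) k0_pm_213_a

noncomputable def f_pm_213_b : ℕ → ℕ → ℕ → ℕ → Bool := onCell 1239849684 370763052 536870912 536870912 33554432 16777216
    (rowFK 0 true true false .pnn 2 1 3 (qsf 1239849684 370763052 536870912 536870912 3) ndF2q2b ndF4q1 pcF3 Cut.none Ext.none)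

def k0_pm_213_b : ∃ t, chk3 f_pm_213_b t 1 1 1 = true :=
  ⟨(l 4), by decide +kernel⟩

theorem c_pm_213_b : CertF 1239849684 370763052 536870912 536870912 33554432 16777216 true true false .pnn 2 1 3
    ndF2q2b ndF4q1 pcF3 Cut.none Ext.none :=
  certFK0 (fam := true) (s1 := true) (s2 := false) (a := 2) (b := 1) (c := 3) (cn := .pnn) (n1 := ndF2q2b) (n2 := ndF4q1) (pc := pcF3) (cut := Cut.none) (xt := Ext.none) (P1 := 1239849684) (W1 := 370763052) (P2 := 536870912) (W2 := 536870912) (P3 := 33554432) (W3 := 16777216)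
    rfl rfl rfl k0_pm_213_b

noncomputable def f_pm_303 : ℕ → ℕ → ℕ → ℕ → Bool := onCell 1610612736 536870912 0 536870912 33554432 16777216
    (rowFK 0 true true false .npn 3 0 3 (qsf 1610612736 536870912 0 536870912 3) ndF2q3 ndF4q0 pcF3 Cut.none Ext.none)

def k0_pm_303 : ∃ t, chk3 f_pm_303 t 1 1 1 = true :=
  ⟨(l 4), by decide +kernel⟩

theorem c_pm_303 : CertF 1610612736 536870912 0 536870912 33554432 16777216 true true false .npn 3 0 3
    ndF2q3 ndF4q0 pcF3 Cut.none Ext.none :=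
  certFK0 (fam := true) (s1 := true) (s2 := false) (a := 3) (b := 0) (c := 3) (cn := .npn) (n1 := ndF2q3) (n2 := ndF4q0) (pc := pcF3) (cut := Cut.none) (xt := Ext.none) (P1 := 1610612736) (W1 := 536870912) (P2 := 0) (W2 := 536870912) (P3 := 33554432) (W3 := 16777216)
    rfl rfl rfl k0_pm_303

noncomputable def f_pm_313 : ℕ → ℕ → ℕ → ℕ → Bool := onCell 1610612736 536870912 536870912 536870912 33554432 16777216
    (rowFK 0 true true false .dn 3 1 3 (qsf 1610612736 536870912 536870912 536870912 3) ndF2q3 ndF4q1 pcF3 Cut.none Ext.none)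

def k0_pm_313 : ∃ t, chk3 f_pm_313 t 1 1 1 = true :=
  ⟨(l 4), by decide +kernel⟩

theorem c_pm_313 : CertF 1610612736 536870912 536870912 536870912 33554432 16777216 true true false .dn 3 1 3
    ndF2q3 ndF4q1 pcF3 Cut.none Ext.none :=
  certFK0 (fam := true) (s1 := true) (s2 := false) (a := 3) (b := 1) (c := 3) (cn := .dn) (n1 := ndF2q3) (n2 := ndF4q1) (pc := pcF3) (cut := Cut.none) (xt := Ext.none) (P1 := 1610612736) (W1 := 536870912) (P2 := 536870912) (W2 := 536870912) (P3 := 33554432) (W3 := 16777216)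
    rfl rfl rfl k0_pm_313

noncomputable def f_mm_001 : ℕ → ℕ → ℕ → ℕ → Bool := onCell 0 536870912 0 536870912 33554432 16777216
    (rowFK 0 true false false .up 0 0 1 (qsf 0 536870912 0 536870912 1) ndF2q0 ndF4q0 pcF1 Cut.none Ext.none)

def k0_mm_001 : ∃ t, chk3 f_mm_001 t 1 1 1 = true :=
  ⟨(l 4), by decide +kernel⟩

theorem c_mm_001 : CertF 0 536870912 0 536870912 33554432 16777216 true false false .up 0 0 1
    ndF2q0 ndF4q0 pcF1 Cut.none Ext.none :=
  certFK0 (fam := true) (s1 := false) (s2 := false) (a := 0) (b := 0) (c := 1) (cn := .up) (n1 := ndF2q0) (n2 := ndF4q0) (pc := pcF1) (cut := Cut.none) (xt := Ext.none) (P1 := 0) (W1 := 536870912) (P2 := 0) (W2 := 536870912) (P3 := 33554432) (W3 := 16777216)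
    rfl rfl rfl k0_mm_001

noncomputable def f_mm_011 : ℕ → ℕ → ℕ → ℕ → Bool := onCell 0 536870912 536870912 536870912 33554432 16777216
    (rowFK 0 true false false .pnn 0 1 1 (qsf 0 536870912 536870912 536870912 1) ndF2q0 ndF4q1 pcF1 Cut.none Ext.none)

def k0_mm_011 : ∃ t, chk3 f_mm_011 t 1 1 1 = true :=
  ⟨(l 4), by decide +kernel⟩

theorem c_mm_011 : CertF 0 536870912 536870912 536870912 33554432 16777216 true false false .pnn 0 1 1
    ndF2q0 ndF4q1 pcF1 Cut.none Ext.none :=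
  certFK0 (fam := true) (s1 := false) (s2 := false) (a := 0) (b := 1) (c := 1) (cn := .pnn) (n1 := ndF2q0) (n2 := ndF4q1) (pc := pcF1) (cut := Cut.none) (xt := Ext.none) (P1 := 0) (W1 := 536870912) (P2 := 536870912) (W2 := 536870912) (P3 := 33554432) (W3 := 16777216)
    rfl rfl rfl k0_mm_011

noncomputable def f_mm_012 : ℕ → ℕ → ℕ → ℕ → Bool := onCell 0 536870912 536870912 536870912 33554432 16777216
    (rowFK 0 true false false .pnp 0 1 2 (qsf 0 536870912 536870912 536870912 2) ndF2q0 ndF4q1 pcF2 Cut.none Ext.none)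

def k0_mm_012 : ∃ t, chk3 f_mm_012 t 1 1 1 = true :=
  ⟨(l 4), by decide +kernel⟩

theorem c_mm_012 : CertF 0 536870912 536870912 536870912 33554432 16777216 true false false .pnp 0 1 2
    ndF2q0 ndF4q1 pcF2 Cut.none Ext.none :=
  certFK0 (fam := true) (s1 := false) (s2 := false) (a := 0) (b := 1) (c := 2) (cn := .pnp) (n1 := ndF2q0) (n2 := ndF4q1) (pc := pcF2) (cut := Cut.none) (xt := Ext.none) (P1 := 0) (W1 := 536870912) (P2 := 536870912) (W2 := 536870912) (P3 := 33554432) (W3 := 16777216)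
    rfl rfl rfl k0_mm_012

noncomputable def f_mm_022 : ℕ → ℕ → ℕ → ℕ → Bool := onCell 0 536870912 1073741824 536870912 33554432 16777216
    (rowFK 0 true false false .pp 0 2 2 (qsf 0 536870912 1073741824 536870912 2) ndF2q0 ndF4q2 pcF2 Cut.none Ext.none)

def k0_mm_022 : ∃ t, chk3 f_mm_022 t 1 1 1 = true :=
  ⟨(l 4), by decide +kernel⟩

theorem c_mm_022 : CertF 0 536870912 1073741824 536870912 33554432 16777216 true false false .pp 0 2 2
    ndF2q0 ndF4q2 pcF2 Cut.none Ext.none :=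
  certFK0 (fam := true) (s1 := false) (s2 := false) (a := 0) (b := 2) (c := 2) (cn := .pp) (n1 := ndF2q0) (n2 := ndF4q2) (pc := pcF2) (cut := Cut.none) (xt := Ext.none) (P1 := 0) (W1 := 536870912) (P2 := 1073741824) (W2 := 536870912) (P3 := 33554432) (W3 := 16777216)
    rfl rfl rfl k0_mm_022

noncomputable def f_mm_023 : ℕ → ℕ → ℕ → ℕ → Bool := onCell 0 536870912 1073741824 536870912 33554432 16777216
    (rowFK 0 true false false .up 0 2 3 (qsf 0 536870912 1073741824 536870912 3) ndF2q0 ndF4q2 pcF3 Cut.none Ext.none)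

def k0_mm_023 : ∃ t, chk3 f_mm_023 t 1 1 1 = true :=
  ⟨(l 4), by decide +kernel⟩

theorem c_mm_023 : CertF 0 536870912 1073741824 536870912 33554432 16777216 true false false .up 0 2 3
    ndF2q0 ndF4q2 pcF3 Cut.none Ext.none :=
  certFK0 (fam := true) (s1 := false) (s2 := false) (a := 0) (b := 2) (c := 3) (cn := .up) (n1 := ndF2q0) (n2 := ndF4q2) (pc := pcF3) (cut := Cut.none) (xt := Ext.none) (P1 := 0) (W1 := 536870912) (P2 := 1073741824) (W2 := 536870912) (P3 := 33554432) (W3 := 16777216)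
    rfl rfl rfl k0_mm_023

noncomputable def f_mm_033 : ℕ → ℕ → ℕ → ℕ → Bool := onCell 0 536870912 0 1230186008 33554432 16777216
    (rowFK 0 true false false .pnn 0 3 3 (qsf 0 536870912 0 1230186008 3) ndF2q0 ndF4q3 pcF3 Cut.none Ext.none)

def k0_mm_033 : ∃ t, chk3 f_mm_033 t 1 1 1 = true :=
  ⟨(l 5), by decide +kernel⟩

theorem c_mm_033 : CertF 0 536870912 0 1230186008 33554432 16777216 true false false .pnn 0 3 3
    ndF2q0 ndF4q3 pcF3 Cut.none Ext.none :=
  certFK0 (fam := true) (s1 := false) (s2 := false) (a := 0) (b := 3) (c := 3) (cn := .pnn) (n1 := ndF2q0) (n2 := ndF4q3) (pc := pcF3) (cut := Cut.none) (xt := Ext.none) (P1 := 0) (W1 := 536870912) (P2 := 0) (W2 := 1230186008) (P3 := 33554432) (W3 := 16777216)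
    rfl rfl rfl k0_mm_033

noncomputable def f_mm_101 : ℕ → ℕ → ℕ → ℕ → Bool := onCell 536870912 536870912 0 536870912 33554432 16777216
    (rowFK 0 true false false .npn 1 0 1 (qsf 536870912 536870912 0 536870912 1) ndF2q1 ndF4q0 pcF1 Cut.none Ext.none)

def k0_mm_101 : ∃ t, chk3 f_mm_101 t 1 1 1 = true :=
  ⟨(l 4), by decide +kernel⟩

theorem c_mm_101 : CertF 536870912 536870912 0 536870912 33554432 16777216 true false false .npn 1 0 1
    ndF2q1 ndF4q0 pcF1 Cut.none Ext.none :=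
  certFK0 (fam := true) (s1 := false) (s2 := false) (a := 1) (b := 0) (c := 1) (cn := .npn) (n1 := ndF2q1) (n2 := ndF4q0) (pc := pcF1) (cut := Cut.none) (xt := Ext.none) (P1 := 536870912) (W1 := 536870912) (P2 := 0) (W2 := 536870912) (P3 := 33554432) (W3 := 16777216)
    rfl rfl rfl k0_mm_101

noncomputable def f_mm_102 : ℕ → ℕ → ℕ → ℕ → Bool := onCell 536870912 536870912 0 536870912 33554432 16777216
    (rowFK 0 true false false .npp 1 0 2 (qsf 536870912 536870912 0 536870912 2) ndF2q1 ndF4q0 pcF2 Cut.none Ext.none)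

def k0_mm_102 : ∃ t, chk3 f_mm_102 t 1 1 1 = true :=
  ⟨(l 4), by decide +kernel⟩

theorem c_mm_102 : CertF 536870912 536870912 0 536870912 33554432 16777216 true false false .npp 1 0 2
    ndF2q1 ndF4q0 pcF2 Cut.none Ext.none :=
  certFK0 (fam := true) (s1 := false) (s2 := false) (a := 1) (b := 0) (c := 2) (cn := .npp) (n1 := ndF2q1) (n2 := ndF4q0) (pc := pcF2) (cut := Cut.none) (xt := Ext.none) (P1 := 536870912) (W1 := 536870912) (P2 := 0) (W2 := 536870912) (P3 := 33554432) (W3 := 16777216)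
    rfl rfl rfl k0_mm_102

noncomputable def f_mm_112 : ℕ → ℕ → ℕ → ℕ → Bool := onCell 536870912 536870912 536870912 536870912 33554432 16777216
    (rowFK 0 true false false .dn 1 1 2 (qsf 536870912 536870912 536870912 536870912 2) ndF2q1 ndF4q1 pcF2 Cut.none Ext.none)

def k0_mm_112 : ∃ t, chk3 f_mm_112 t 1 1 1 = true :=
  ⟨(l 4), by decide +kernel⟩

theorem c_mm_112 : CertF 536870912 536870912 536870912 536870912 33554432 16777216 true false false .dn 1 1 2
    ndF2q1 ndF4q1 pcF2 Cut.none Ext.none :=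
  certFK0 (fam := true) (s1 := false) (s2 := false) (a := 1) (b := 1) (c := 2) (cn := .dn) (n1 := ndF2q1) (n2 := ndF4q1) (pc := pcF2) (cut := Cut.none) (xt := Ext.none) (P1 := 536870912) (W1 := 536870912) (P2 := 536870912) (W2 := 536870912) (P3 := 33554432) (W3 := 16777216)
    rfl rfl rfl k0_mm_112

noncomputable def f_mm_113 : ℕ → ℕ → ℕ → ℕ → Bool := onCell 536870912 536870912 536870912 536870912 33554432 16777216
    (rowFK 0 true false false .nn 1 1 3 (qsf 536870912 536870912 536870912 536870912 3) ndF2q1 ndF4q1 pcF3 Cut.none Ext.none)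

def k0_mm_113 : ∃ t, chk3 f_mm_113 t 1 1 1 = true :=
  ⟨(l 4), by decide +kernel⟩

theorem c_mm_113 : CertF 536870912 536870912 536870912 536870912 33554432 16777216 true false false .nn 1 1 3
    ndF2q1 ndF4q1 pcF3 Cut.none Ext.none :=
  certFK0 (fam := true) (s1 := false) (s2 := false) (a := 1) (b := 1) (c := 3) (cn := .nn) (n1 := ndF2q1) (n2 := ndF4q1) (pc := pcF3) (cut := Cut.none) (xt := Ext.none) (P1 := 536870912) (W1 := 536870912) (P2 := 536870912) (W2 := 536870912) (P3 := 33554432) (W3 := 16777216)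
    rfl rfl rfl k0_mm_113

noncomputable def f_mm_123 : ℕ → ℕ → ℕ → ℕ → Bool := onCell 536870912 536870912 1073741824 536870912 33554432 16777216
    (rowFK 0 true false false .npn 1 2 3 (qsf 536870912 536870912 1073741824 536870912 3) ndF2q1 ndF4q2 pcF3 Cut.none Ext.none)

def k0_mm_123 : ∃ t, chk3 f_mm_123 t 1 1 1 = true :=
  ⟨(l 4), by decide +kernel⟩

theorem c_mm_123 : CertF 536870912 536870912 1073741824 536870912 33554432 16777216 true false false .npn 1 2 3
    ndF2q1 ndF4q2 pcF3 Cut.none Ext.none :=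
  certFK0 (fam := true) (s1 := false) (s2 := false) (a := 1) (b := 2) (c := 3) (cn := .npn) (n1 := ndF2q1) (n2 := ndF4q2) (pc := pcF3) (cut := Cut.none) (xt := Ext.none) (P1 := 536870912) (W1 := 536870912) (P2 := 1073741824) (W2 := 536870912) (P3 := 33554432) (W3 := 16777216)
    rfl rfl rfl k0_mm_123

noncomputable def f_mm_133 : ℕ → ℕ → ℕ → ℕ → Bool := onCell 536870912 536870912 0 1230186008 33554432 16777216
    (rowFK 0 true false false .dn 1 3 3 (qsf 536870912 536870912 0 1230186008 3) ndF2q1 ndF4q3 pcF3 Cut.none Ext.none)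

def k0_mm_133 : ∃ t, chk3 f_mm_133 t 1 1 1 = true :=
  ⟨(l 4), by decide +kernel⟩

theorem c_mm_133 : CertF 536870912 536870912 0 1230186008 33554432 16777216 true false false .dn 1 3 3
    ndF2q1 ndF4q3 pcF3 Cut.none Ext.none :=
  certFK0 (fam := true) (s1 := false) (s2 := false) (a := 1) (b := 3) (c := 3) (cn := .dn) (n1 := ndF2q1) (n2 := ndF4q3) (pc := pcF3) (cut := Cut.none) (xt := Ext.none) (P1 := 536870912) (W1 := 536870912) (P2 := 0) (W2 := 1230186008) (P3 := 33554432) (W3 := 16777216)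
    rfl rfl rfl k0_mm_133

noncomputable def f_mm_202_a : ℕ → ℕ → ℕ → ℕ → Bool := onCell 0 536870912 0 536870912 33554432 16777216
    (rowFK 0 true false false .pp 2 0 2 (qsf 0 536870912 0 536870912 2) ndF2q2a ndF4q0 pcF2 Cut.none Ext.none)

def k0_mm_202_a : ∃ t, chk3 f_mm_202_a t 1 1 1 = true :=
  ⟨(l 4), by decide +kernel⟩

theorem c_mm_202_a : CertF 0 536870912 0 536870912 33554432 16777216 true false false .pp 2 0 2
    ndF2q2a ndF4q0 pcF2 Cut.none Ext.none :=
  certFK0 (fam := true) (s1 := false) (s2 := false) (a := 2) (b := 0) (c := 2) (cn := .pp) (n1 := ndF2q2a) (n2 := ndF4q0) (pc := pcF2) (cut := Cut.none) (xt := Ext.none) (P1 := 0) (W1 := 536870912) (P2 := 0) (W2 := 536870912) (P3 := 33554432) (W3 := 16777216)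
    rfl rfl rfl k0_mm_202_a

noncomputable def f_mm_202_b : ℕ → ℕ → ℕ → ℕ → Bool := onCell 1239849684 370763052 0 536870912 33554432 16777216
    (rowFK 0 true false false .pp 2 0 2 (qsf 1239849684 370763052 0 536870912 2) ndF2q2b ndF4q0 pcF2 Cut.none Ext.none)

def k0_mm_202_b : ∃ t, chk3 f_mm_202_b t 1 1 1 = true :=
  ⟨(l 4), by decide +kernel⟩

theorem c_mm_202_b : CertF 1239849684 370763052 0 536870912 33554432 16777216 true false false .pp 2 0 2
    ndF2q2b ndF4q0 pcF2 Cut.none Ext.none :=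
  certFK0 (fam := true) (s1 := false) (s2 := false) (a := 2) (b := 0) (c := 2) (cn := .pp) (n1 := ndF2q2b) (n2 := ndF4q0) (pc := pcF2) (cut := Cut.none) (xt := Ext.none) (P1 := 1239849684) (W1 := 370763052) (P2 := 0) (W2 := 536870912) (P3 := 33554432) (W3 := 16777216)
    rfl rfl rfl k0_mm_202_b

noncomputable def f_mm_203_a : ℕ → ℕ → ℕ → ℕ → Bool := onCell 0 536870912 0 536870912 33554432 16777216
    (rowFK 0 true false false .up 2 0 3 (qsf 0 536870912 0 536870912 3) ndF2q2a ndF4q0 pcF3 Cut.none Ext.none)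

def k0_mm_203_a : ∃ t, chk3 f_mm_203_a t 1 1 1 = true :=
  ⟨(l 4), by decide +kernel⟩

theorem c_mm_203_a : CertF 0 536870912 0 536870912 33554432 16777216 true false false .up 2 0 3
    ndF2q2a ndF4q0 pcF3 Cut.none Ext.none :=
  certFK0 (fam := true) (s1 := false) (s2 := false) (a := 2) (b := 0) (c := 3) (cn := .up) (n1 := ndF2q2a) (n2 := ndF4q0) (pc := pcF3) (cut := Cut.none) (xt := Ext.none) (P1 := 0) (W1 := 536870912) (P2 := 0) (W2 := 536870912) (P3 := 33554432) (W3 := 16777216)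
    rfl rfl rfl k0_mm_203_a

noncomputable def f_mm_203_b : ℕ → ℕ → ℕ → ℕ → Bool := onCell 1239849684 370763052 0 536870912 33554432 16777216
    (rowFK 0 true false false .up 2 0 3 (qsf 1239849684 370763052 0 536870912 3) ndF2q2b ndF4q0 pcF3 Cut.none Ext.none)

def k0_mm_203_b : ∃ t, chk3 f_mm_203_b t 1 1 1 = true :=
  ⟨(l 4), by decide +kernel⟩

theorem c_mm_203_b : CertF 1239849684 370763052 0 536870912 33554432 16777216 true false false .up 2 0 3
    ndF2q2b ndF4q0 pcF3 Cut.none Ext.none :=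
  certFK0 (fam := true) (s1 := false) (s2 := false) (a := 2) (b := 0) (c := 3) (cn := .up) (n1 := ndF2q2b) (n2 := ndF4q0) (pc := pcF3) (cut := Cut.none) (xt := Ext.none) (P1 := 1239849684) (W1 := 370763052) (P2 := 0) (W2 := 536870912) (P3 := 33554432) (W3 := 16777216)
    rfl rfl rfl k0_mm_203_b

noncomputable def f_mm_213_a : ℕ → ℕ → ℕ → ℕ → Bool := onCell 0 536870912 536870912 536870912 33554432 16777216
    (rowFK 0 true false false .pnn 2 1 3 (qsf 0 536870912 536870912 536870912 3) ndF2q2a ndF4q1 pcF3 Cut.none Ext.none)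

def k0_mm_213_a : ∃ t, chk3 f_mm_213_a t 1 1 1 = true :=
  ⟨(l 4), by decide +kernel⟩

theorem c_mm_213_a : CertF 0 536870912 536870912 536870912 33554432 16777216 true false false .pnn 2 1 3
    ndF2q2a ndF4q1 pcF3 Cut.none Ext.none :=
  certFK0 (fam := true) (s1 := false) (s2 := false) (a := 2) (b := 1) (c := 3) (cn := .pnn) (n1 := ndF2q2a) (n2 := ndF4q1) (pc := pcF3) (cut := Cut.none) (xt := Ext.none) (P1 := 0) (W1 := 536870912) (P2 := 536870912) (W2 := 536870912) (P3 := 33554432) (W3 := 16777216)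
    rfl rfl rfl k0_mm_213_a

noncomputable def f_mm_213_b : ℕ → ℕ → ℕ → ℕ → Bool := onCell 1239849684 370763052 536870912 536870912 33554432 16777216
    (rowFK 0 true false false .pnn 2 1 3 (qsf 1239849684 370763052 536870912 536870912 3) ndF2q2b ndF4q1 pcF3 Cut.none Ext.none)

def k0_mm_213_b : ∃ t, chk3 f_mm_213_b t 1 1 1 = true :=
  ⟨(l 4), by decide +kernel⟩

theorem c_mm_213_b : CertF 1239849684 370763052 536870912 536870912 33554432 16777216 true false false .pnn 2 1 3
    ndF2q2b ndF4q1 pcF3 Cut.none Ext.none :=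
  certFK0 (fam := true) (s1 := false) (s2 := false) (a := 2) (b := 1) (c := 3) (cn := .pnn) (n1 := ndF2q2b) (n2 := ndF4q1) (pc := pcF3) (cut := Cut.none) (xt := Ext.none) (P1 := 1239849684) (W1 := 370763052) (P2 := 536870912) (W2 := 536870912) (P3 := 33554432) (W3 := 16777216)
    rfl rfl rfl k0_mm_213_b

noncomputable def f_mm_303 : ℕ → ℕ → ℕ → ℕ → Bool := onCell 1610612736 536870912 0 536870912 33554432 16777216
    (rowFK 0 true false false .npn 3 0 3 (qsf 1610612736 536870912 0 536870912 3) ndF2q3 ndF4q0 pcF3 Cut.none Ext.none)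

def k0_mm_303 : ∃ t, chk3 f_mm_303 t 1 1 1 = true :=
  ⟨(l 4), by decide +kernel⟩

theorem c_mm_303 : CertF 1610612736 536870912 0 536870912 33554432 16777216 true false false .npn 3 0 3
    ndF2q3 ndF4q0 pcF3 Cut.none Ext.none :=
  certFK0 (fam := true) (s1 := false) (s2 := false) (a := 3) (b := 0) (c := 3) (cn := .npn) (n1 := ndF2q3) (n2 := ndF4q0) (pc := pcF3) (cut := Cut.none) (xt := Ext.none) (P1 := 1610612736) (W1 := 536870912) (P2 := 0) (W2 := 536870912) (P3 := 33554432) (W3 := 16777216)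
    rfl rfl rfl k0_mm_303

noncomputable def f_mm_313 : ℕ → ℕ → ℕ → ℕ → Bool := onCell 1610612736 536870912 536870912 536870912 33554432 16777216
    (rowFK 0 true false false .dn 3 1 3 (qsf 1610612736 536870912 536870912 536870912 3) ndF2q3 ndF4q1 pcF3 Cut.none Ext.none)

def k0_mm_313 : ∃ t, chk3 f_mm_313 t 1 1 1 = true :=
  ⟨(l 4), by decide +kernel⟩

theorem c_mm_313 : CertF 1610612736 536870912 536870912 536870912 33554432 16777216 true false false .dn 3 1 3
    ndF2q3 ndF4q1 pcF3 Cut.none Ext.none :=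
  certFK0 (fam := true) (s1 := false) (s2 := false) (a := 3) (b := 1) (c := 3) (cn := .dn) (n1 := ndF2q3) (n2 := ndF4q1) (pc := pcF3) (cut := Cut.none) (xt := Ext.none) (P1 := 1610612736) (W1 := 536870912) (P2 := 536870912) (W2 := 536870912) (P3 := 33554432) (W3 := 16777216)
    rfl rfl rfl k0_mm_313

end Pool.Agent.Strip051.G.I1_32_3_64.Tab.C.FA24

namespace Pool.Agent.Strip051.G.I1_32_3_64.Tab.C.FA33

open Pool.Agent.Strip051.PB Pool.Agent.Strip051.PB.T
open Pool.Agent.Strip051.G.I1_32_3_64.Tab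

noncomputable def f_pp_001 : ℕ → ℕ → ℕ → ℕ → Bool := onCell 0 536870912 0 536870912 33554432 16777216
    (rowFK 0 true true true .up 0 0 1 (qsf 0 536870912 0 536870912 1) ndF3q0 ndF3q0 pcF1 Cut.none Ext.none)

def k0_pp_001 : ∃ t, chk3 f_pp_001 t 1 1 1 = true :=
  ⟨(l 4), by decide +kernel⟩

theorem c_pp_001 : CertF 0 536870912 0 536870912 33554432 16777216 true true true .up 0 0 1
    ndF3q0 ndF3q0 pcF1 Cut.none Ext.none :=
  certFK0 (fam := true) (s1 := true) (s2 := true) (a := 0) (b := 0) (c := 1) (cn := .up) (n1 := ndF3q0) (n2 := ndF3q0) (pc := pcF1) (cut := Cut.none) (xt := Ext.none) (P1 := 0) (W1 := 536870912) (P2 := 0) (W2 := 536870912) (P3 := 33554432) (W3 := 16777216)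
    rfl rfl rfl k0_pp_001

noncomputable def f_pp_011 : ℕ → ℕ → ℕ → ℕ → Bool := onCell 0 536870912 536870912 536870912 33554432 16777216
    (rowFK 0 true true true .pnn 0 1 1 (qsf 0 536870912 536870912 536870912 1) ndF3q0 ndF3q1 pcF1 Cut.none Ext.none)

def k0_pp_011 : ∃ t, chk3 f_pp_011 t 1 1 1 = true :=
  ⟨(l 4), by decide +kernel⟩

theorem c_pp_011 : CertF 0 536870912 536870912 536870912 33554432 16777216 true true true .pnn 0 1 1
    ndF3q0 ndF3q1 pcF1 Cut.none Ext.none :=
  certFK0 (fam := true) (s1 := true) (s2 := true) (a := 0) (b := 1) (c := 1) (cn := .pnn) (n1 := ndF3q0) (n2 := ndF3q1) (pc := pcF1) (cut := Cut.none) (xt := Ext.none) (P1 := 0) (W1 := 536870912) (P2 := 536870912) (W2 := 536870912) (P3 := 33554432) (W3 := 16777216)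
    rfl rfl rfl k0_pp_011

noncomputable def f_pp_012 : ℕ → ℕ → ℕ → ℕ → Bool := onCell 0 536870912 536870912 536870912 33554432 16777216
    (rowFK 0 true true true .pnp 0 1 2 (qsf 0 536870912 536870912 536870912 2) ndF3q0 ndF3q1 pcF2 Cut.none Ext.none)

def k0_pp_012 : ∃ t, chk3 f_pp_012 t 1 1 1 = true :=
  ⟨(l 4), by decide +kernel⟩

theorem c_pp_012 : CertF 0 536870912 536870912 536870912 33554432 16777216 true true true .pnp 0 1 2
    ndF3q0 ndF3q1 pcF2 Cut.none Ext.none :=
  certFK0 (fam := true) (s1 := true) (s2 := true) (a := 0) (b := 1) (c := 2) (cn := .pnp) (n1 := ndF3q0) (n2 := ndF3q1) (pc := pcF2) (cut := Cut.none) (xt := Ext.none) (P1 := 0) (W1 := 536870912) (P2 := 536870912) (W2 := 536870912) (P3 := 33554432) (W3 := 16777216)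
    rfl rfl rfl k0_pp_012

noncomputable def f_pp_022 : ℕ → ℕ → ℕ → ℕ → Bool := onCell 0 536870912 1073741824 536870912 33554432 16777216
    (rowFK 0 true true true .pp 0 2 2 (qsf 0 536870912 1073741824 536870912 2) ndF3q0 ndF3q2 pcF2 Cut.none Ext.none)

def k0_pp_022 : ∃ t, chk3 f_pp_022 t 1 1 1 = true :=
  ⟨(l 4), by decide +kernel⟩

theorem c_pp_022 : CertF 0 536870912 1073741824 536870912 33554432 16777216 true true true .pp 0 2 2
    ndF3q0 ndF3q2 pcF2 Cut.none Ext.none :=
  certFK0 (fam := true) (s1 := true) (s2 := true) (a := 0) (b := 2) (c := 2) (cn := .pp) (n1 := ndF3q0) (n2 := ndF3q2) (pc := pcF2) (cut := Cut.none) (xt := Ext.none) (P1 := 0) (W1 := 536870912) (P2 := 1073741824) (W2 := 536870912) (P3 := 33554432) (W3 := 16777216)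
    rfl rfl rfl k0_pp_022

noncomputable def f_pp_023 : ℕ → ℕ → ℕ → ℕ → Bool := onCell 0 536870912 1073741824 536870912 33554432 16777216
    (rowFK 0 true true true .up 0 2 3 (qsf 0 536870912 1073741824 536870912 3) ndF3q0 ndF3q2 pcF3 Cut.none Ext.none)

def k0_pp_023 : ∃ t, chk3 f_pp_023 t 1 1 1 = true :=
  ⟨(l 4), by decide +kernel⟩

theorem c_pp_023 : CertF 0 536870912 1073741824 536870912 33554432 16777216 true true true .up 0 2 3
    ndF3q0 ndF3q2 pcF3 Cut.none Ext.none :=
  certFK0 (fam := true) (s1 := true) (s2 := true) (a := 0) (b := 2) (c := 3) (cn := .up) (n1 := ndF3q0) (n2 := ndF3q2) (pc := pcF3) (cut := Cut.none) (xt := Ext.none) (P1 := 0) (W1 := 536870912) (P2 := 1073741824) (W2 := 536870912) (P3 := 33554432) (W3 := 16777216)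
    rfl rfl rfl k0_pp_023

noncomputable def f_pp_033 : ℕ → ℕ → ℕ → ℕ → Bool := onCell 0 536870912 0 1230186008 33554432 16777216
    (rowFK 0 true true true .pnn 0 3 3 (qsf 0 536870912 0 1230186008 3) ndF3q0 ndF3q3 pcF3 Cut.none Ext.none)

def k0_pp_033 : ∃ t, chk3 f_pp_033 t 1 1 1 = true :=
  ⟨(l 4), by decide +kernel⟩

theorem c_pp_033 : CertF 0 536870912 0 1230186008 33554432 16777216 true true true .pnn 0 3 3
    ndF3q0 ndF3q3 pcF3 Cut.none Ext.none :=
  certFK0 (fam := true) (s1 := true) (s2 := true) (a := 0) (b := 3) (c := 3) (cn := .pnn) (n1 := ndF3q0) (n2 := ndF3q3) (pc := pcF3) (cut := Cut.none) (xt := Ext.none) (P1 := 0) (W1 := 536870912) (P2 := 0) (W2 := 1230186008) (P3 := 33554432) (W3 := 16777216)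
    rfl rfl rfl k0_pp_033

noncomputable def f_pp_101 : ℕ → ℕ → ℕ → ℕ → Bool := onCell 536870912 536870912 0 536870912 33554432 16777216
    (rowFK 0 true true true .npn 1 0 1 (qsf 536870912 536870912 0 536870912 1) ndF3q1 ndF3q0 pcF1 Cut.none Ext.none)

def k0_pp_101 : ∃ t, chk3 f_pp_101 t 1 1 1 = true :=
  ⟨(l 4), by decide +kernel⟩

theorem c_pp_101 : CertF 536870912 536870912 0 536870912 33554432 16777216 true true true .npn 1 0 1
    ndF3q1 ndF3q0 pcF1 Cut.none Ext.none :=
  certFK0 (fam := true) (s1 := true) (s2 := true) (a := 1) (b := 0) (c := 1) (cn := .npn) (n1 := ndF3q1) (n2 := ndF3q0) (pc := pcF1) (cut := Cut.none) (xt := Ext.none) (P1 := 536870912) (W1 := 536870912) (P2 := 0) (W2 := 536870912) (P3 := 33554432) (W3 := 16777216)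
    rfl rfl rfl k0_pp_101

noncomputable def f_pp_102 : ℕ → ℕ → ℕ → ℕ → Bool := onCell 536870912 536870912 0 536870912 33554432 16777216
    (rowFK 0 true true true .npp 1 0 2 (qsf 536870912 536870912 0 536870912 2) ndF3q1 ndF3q0 pcF2 Cut.none Ext.none)

def k0_pp_102 : ∃ t, chk3 f_pp_102 t 1 1 1 = true :=
  ⟨(l 4), by decide +kernel⟩

theorem c_pp_102 : CertF 536870912 536870912 0 536870912 33554432 16777216 true true true .npp 1 0 2
    ndF3q1 ndF3q0 pcF2 Cut.none Ext.none :=
  certFK0 (fam := true) (s1 := true) (s2 := true) (a := 1) (b := 0) (c := 2) (cn := .npp) (n1 := ndF3q1) (n2 := ndF3q0) (pc := pcF2) (cut := Cut.none) (xt := Ext.none) (P1 := 536870912) (W1 := 536870912) (P2 := 0) (W2 := 536870912) (P3 := 33554432) (W3 := 16777216)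
    rfl rfl rfl k0_pp_102

noncomputable def f_pp_112 : ℕ → ℕ → ℕ → ℕ → Bool := onCell 536870912 536870912 536870912 536870912 33554432 16777216
    (rowFK 0 true true true .dn 1 1 2 (qsf 536870912 536870912 536870912 536870912 2) ndF3q1 ndF3q1 pcF2 Cut.none Ext.none)

def k0_pp_112 : ∃ t, chk3 f_pp_112 t 1 1 1 = true :=
  ⟨(l 4), by decide +kernel⟩

theorem c_pp_112 : CertF 536870912 536870912 536870912 536870912 33554432 16777216 true true true .dn 1 1 2
    ndF3q1 ndF3q1 pcF2 Cut.none Ext.none :=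
  certFK0 (fam := true) (s1 := true) (s2 := true) (a := 1) (b := 1) (c := 2) (cn := .dn) (n1 := ndF3q1) (n2 := ndF3q1) (pc := pcF2) (cut := Cut.none) (xt := Ext.none) (P1 := 536870912) (W1 := 536870912) (P2 := 536870912) (W2 := 536870912) (P3 := 33554432) (W3 := 16777216)
    rfl rfl rfl k0_pp_112

noncomputable def f_pp_113 : ℕ → ℕ → ℕ → ℕ → Bool := onCell 536870912 536870912 536870912 536870912 33554432 16777216
    (rowFK 0 true true true .nn 1 1 3 (qsf 536870912 536870912 536870912 536870912 3) ndF3q1 ndF3q1 pcF3 Cut.none Ext.none)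

def k0_pp_113 : ∃ t, chk3 f_pp_113 t 1 1 1 = true :=
  ⟨(l 4), by decide +kernel⟩

theorem c_pp_113 : CertF 536870912 536870912 536870912 536870912 33554432 16777216 true true true .nn 1 1 3
    ndF3q1 ndF3q1 pcF3 Cut.none Ext.none :=
  certFK0 (fam := true) (s1 := true) (s2 := true) (a := 1) (b := 1) (c := 3) (cn := .nn) (n1 := ndF3q1) (n2 := ndF3q1) (pc := pcF3) (cut := Cut.none) (xt := Ext.none) (P1 := 536870912) (W1 := 536870912) (P2 := 536870912) (W2 := 536870912) (P3 := 33554432) (W3 := 16777216)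
    rfl rfl rfl k0_pp_113

noncomputable def f_pp_123 : ℕ → ℕ → ℕ → ℕ → Bool := onCell 536870912 536870912 1073741824 536870912 33554432 16777216
    (rowFK 0 true true true .npn 1 2 3 (qsf 536870912 536870912 1073741824 536870912 3) ndF3q1 ndF3q2 pcF3 Cut.none Ext.none)

def k0_pp_123 : ∃ t, chk3 f_pp_123 t 1 1 1 = true :=
  ⟨(l 4), by decide +kernel⟩

theorem c_pp_123 : CertF 536870912 536870912 1073741824 536870912 33554432 16777216 true true true .npn 1 2 3
    ndF3q1 ndF3q2 pcF3 Cut.none Ext.none :=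
  certFK0 (fam := true) (s1 := true) (s2 := true) (a := 1) (b := 2) (c := 3) (cn := .npn) (n1 := ndF3q1) (n2 := ndF3q2) (pc := pcF3) (cut := Cut.none) (xt := Ext.none) (P1 := 536870912) (W1 := 536870912) (P2 := 1073741824) (W2 := 536870912) (P3 := 33554432) (W3 := 16777216)
    rfl rfl rfl k0_pp_123

noncomputable def f_pp_133 : ℕ → ℕ → ℕ → ℕ → Bool := onCell 536870912 536870912 0 1230186008 33554432 16777216
    (rowFK 0 true true true .dn 1 3 3 (qsf 536870912 536870912 0 1230186008 3) ndF3q1 ndF3q3 pcF3 Cut.none Ext.none)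

def k0_pp_133 : ∃ t, chk3 f_pp_133 t 1 1 1 = true :=
  ⟨(l 4), by decide +kernel⟩

theorem c_pp_133 : CertF 536870912 536870912 0 1230186008 33554432 16777216 true true true .dn 1 3 3
    ndF3q1 ndF3q3 pcF3 Cut.none Ext.none :=
  certFK0 (fam := true) (s1 := true) (s2 := true) (a := 1) (b := 3) (c := 3) (cn := .dn) (n1 := ndF3q1) (n2 := ndF3q3) (pc := pcF3) (cut := Cut.none) (xt := Ext.none) (P1 := 536870912) (W1 := 536870912) (P2 := 0) (W2 := 1230186008) (P3 := 33554432) (W3 := 16777216)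
    rfl rfl rfl k0_pp_133

noncomputable def f_pp_202 : ℕ → ℕ → ℕ → ℕ → Bool := onCell 1073741824 536870912 0 536870912 33554432 16777216
    (rowFK 0 true true true .pp 2 0 2 (qsf 1073741824 536870912 0 536870912 2) ndF3q2 ndF3q0 pcF2 Cut.none Ext.none)

def k0_pp_202 : ∃ t, chk3 f_pp_202 t 1 1 1 = true :=
  ⟨(l 4), by decide +kernel⟩

theorem c_pp_202 : CertF 1073741824 536870912 0 536870912 33554432 16777216 true true true .pp 2 0 2
    ndF3q2 ndF3q0 pcF2 Cut.none Ext.none :=
  certFK0 (fam := true) (s1 := true) (s2 := true) (a := 2) (b := 0) (c := 2) (cn := .pp) (n1 := ndF3q2) (n2 := ndF3q0) (pc := pcF2) (cut := Cut.none) (xt := Ext.none) (P1 := 1073741824) (W1 := 536870912) (P2 := 0) (W2 := 536870912) (P3 := 33554432) (W3 := 16777216)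
    rfl rfl rfl k0_pp_202

noncomputable def f_pp_203 : ℕ → ℕ → ℕ → ℕ → Bool := onCell 1073741824 536870912 0 536870912 33554432 16777216
    (rowFK 0 true true true .up 2 0 3 (qsf 1073741824 536870912 0 536870912 3) ndF3q2 ndF3q0 pcF3 Cut.none Ext.none)

def k0_pp_203 : ∃ t, chk3 f_pp_203 t 1 1 1 = true :=
  ⟨(l 4), by decide +kernel⟩

theorem c_pp_203 : CertF 1073741824 536870912 0 536870912 33554432 16777216 true true true .up 2 0 3
    ndF3q2 ndF3q0 pcF3 Cut.none Ext.none :=
  certFK0 (fam := true) (s1 := true) (s2 := true) (a := 2) (b := 0) (c := 3) (cn := .up) (n1 := ndF3q2) (n2 := ndF3q0) (pc := pcF3) (cut := Cut.none) (xt := Ext.none) (P1 := 1073741824) (W1 := 536870912) (P2 := 0) (W2 := 536870912) (P3 := 33554432) (W3 := 16777216)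
    rfl rfl rfl k0_pp_203

noncomputable def f_pp_213 : ℕ → ℕ → ℕ → ℕ → Bool := onCell 1073741824 536870912 536870912 536870912 33554432 16777216
    (rowFK 0 true true true .pnn 2 1 3 (qsf 1073741824 536870912 536870912 536870912 3) ndF3q2 ndF3q1 pcF3 Cut.none Ext.none)

def k0_pp_213 : ∃ t, chk3 f_pp_213 t 1 1 1 = true :=
  ⟨(l 4), by decide +kernel⟩

theorem c_pp_213 : CertF 1073741824 536870912 536870912 536870912 33554432 16777216 true true true .pnn 2 1 3
    ndF3q2 ndF3q1 pcF3 Cut.none Ext.none :=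
  certFK0 (fam := true) (s1 := true) (s2 := true) (a := 2) (b := 1) (c := 3) (cn := .pnn) (n1 := ndF3q2) (n2 := ndF3q1) (pc := pcF3) (cut := Cut.none) (xt := Ext.none) (P1 := 1073741824) (W1 := 536870912) (P2 := 536870912) (W2 := 536870912) (P3 := 33554432) (W3 := 16777216)
    rfl rfl rfl k0_pp_213

noncomputable def f_pp_303 : ℕ → ℕ → ℕ → ℕ → Bool := onCell 0 1230186008 0 536870912 33554432 16777216
    (rowFK 0 true true true .npn 3 0 3 (qsf 0 1230186008 0 536870912 3) ndF3q3 ndF3q0 pcF3 Cut.none Ext.none)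

def k0_pp_303 : ∃ t, chk3 f_pp_303 t 1 1 1 = true :=
  ⟨(l 4), by decide +kernel⟩

theorem c_pp_303 : CertF 0 1230186008 0 536870912 33554432 16777216 true true true .npn 3 0 3
    ndF3q3 ndF3q0 pcF3 Cut.none Ext.none :=
  certFK0 (fam := true) (s1 := true) (s2 := true) (a := 3) (b := 0) (c := 3) (cn := .npn) (n1 := ndF3q3) (n2 := ndF3q0) (pc := pcF3) (cut := Cut.none) (xt := Ext.none) (P1 := 0) (W1 := 1230186008) (P2 := 0) (W2 := 536870912) (P3 := 33554432) (W3 := 16777216)
    rfl rfl rfl k0_pp_303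

noncomputable def f_pp_313 : ℕ → ℕ → ℕ → ℕ → Bool := onCell 0 1230186008 536870912 536870912 33554432 16777216
    (rowFK 0 true true true .dn 3 1 3 (qsf 0 1230186008 536870912 536870912 3) ndF3q3 ndF3q1 pcF3 Cut.none Ext.none)

def k0_pp_313 : ∃ t, chk3 f_pp_313 t 1 1 1 = true :=
  ⟨(l 4), by decide +kernel⟩

theorem c_pp_313 : CertF 0 1230186008 536870912 536870912 33554432 16777216 true true true .dn 3 1 3
    ndF3q3 ndF3q1 pcF3 Cut.none Ext.none :=
  certFK0 (fam := true) (s1 := true) (s2 := true) (a := 3) (b := 1) (c := 3) (cn := .dn) (n1 := ndF3q3) (n2 := ndF3q1) (pc := pcF3) (cut := Cut.none) (xt := Ext.none) (P1 := 0) (W1 := 1230186008) (P2 := 536870912) (W2 := 536870912) (P3 := 33554432) (W3 := 16777216)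
    rfl rfl rfl k0_pp_313

noncomputable def f_pm_001 : ℕ → ℕ → ℕ → ℕ → Bool := onCell 0 536870912 0 536870912 33554432 16777216
    (rowFK 0 true true false .up 0 0 1 (qsf 0 536870912 0 536870912 1) ndF3q0 ndF3q0 pcF1 Cut.none Ext.none)

def k0_pm_001 : ∃ t, chk3 f_pm_001 t 1 1 1 = true :=
  ⟨(l 3), by decide +kernel⟩

theorem c_pm_001 : CertF 0 536870912 0 536870912 33554432 16777216 true true false .up 0 0 1
    ndF3q0 ndF3q0 pcF1 Cut.none Ext.none :=
  certFK0 (fam := true) (s1 := true) (s2 := false) (a := 0) (b := 0) (c := 1) (cn := .up) (n1 := ndF3q0) (n2 := ndF3q0) (pc := pcF1) (cut := Cut.none) (xt := Ext.none) (P1 := 0) (W1 := 536870912) (P2 := 0) (W2 := 536870912) (P3 := 33554432) (W3 := 16777216)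
    rfl rfl rfl k0_pm_001

noncomputable def f_pm_011 : ℕ → ℕ → ℕ → ℕ → Bool := onCell 0 536870912 536870912 536870912 33554432 16777216
    (rowFK 1 true true false .pnn 0 1 1 (qsf 0 536870912 536870912 536870912 1) ndF3q0 ndF3q1 pcF1 Cut.none Ext.none)

def k0_pm_011 : ∃ t, chk3 f_pm_011 t 1 1 1 = true :=
  ⟨(l 3), by decide +kernel⟩

theorem c_pm_011 : CertF 0 536870912 536870912 536870912 33554432 16777216 true true false .pnn 0 1 1
    ndF3q0 ndF3q1 pcF1 Cut.none Ext.none :=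
  certFK1 (fam := true) (s1 := true) (s2 := false) (a := 0) (b := 1) (c := 1) (cn := .pnn) (n1 := ndF3q0) (n2 := ndF3q1) (pc := pcF1) (cut := Cut.none) (xt := Ext.none) (P1 := 0) (W1 := 536870912) (P2 := 536870912) (W2 := 536870912) (P3 := 33554432) (W3 := 16777216)
    rfl rfl rfl (fun _ => rfl) k0_pm_011

noncomputable def f_pm_012 : ℕ → ℕ → ℕ → ℕ → Bool := onCell 1073741824 536870912 536870912 536870912 33554432 16777216
    (rowFK 2 true true false .pnp 0 1 2 (qsf 0 536870912 536870912 536870912 2) ndF3q0 ndF3q1 pcF2 Cut.none Ext.none)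

def k0_pm_012 : ∃ t, chk3 f_pm_012 t 1 1 1 = true :=
  ⟨(a (a (l 3) (a (a (a (l 3) (a (l 3) (a (b (l 3) (l 3)) (b (l 18963768) (c (l 20043592) (l 19319336)))))) (b (l 18826304) (b (l 19312320) (l 19641560)))) (b (l 18754120) (b (l 19205648) (l 19531944))))) (b (l 18683264) (b (l 19042152) (a (l 19210544) (l 19155040))))), by decide +kernel⟩

theorem c_pm_012 : CertF 0 536870912 536870912 536870912 33554432 16777216 true true false .pnp 0 1 2
    ndF3q0 ndF3q1 pcF2 Cut.none Ext.none :=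
  certFK2 (fam := true) (s1 := true) (s2 := false) (a := 0) (b := 1) (c := 2) (cn := .pnp) (n1 := ndF3q0) (n2 := ndF3q1) (pc := pcF2) (cut := Cut.none) (xt := Ext.none) (P1 := 0) (W1 := 536870912) (P2 := 536870912) (W2 := 536870912) (P3 := 33554432) (W3 := 16777216)
    rfl rfl rfl (fun _ => rfl) k0_pm_012

noncomputable def f_pm_022 : ℕ → ℕ → ℕ → ℕ → Bool := onCell 0 536870912 1073741824 536870912 33554432 16777216
    (rowFK 1 true true false .pp 0 2 2 (qsf 0 536870912 1073741824 536870912 2) ndF3q0 ndF3q2 pcF2 Cut.none Ext.none)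

def k0_pm_022 : ∃ t, chk3 f_pm_022 t 1 1 1 = true :=
  ⟨(b (b (a (a (b (c (l 21226192) (l 259481371255)) (b (c (l 20875184) (l 19141240)) (c (l 20742576) (a (l 18814464) (l 18721768))))) (b (l 1) (b (l 1) (c (l 20493248) (l 18904432))))) (l 1)) (a (c (l 20619880) (a (l 18581320) (l 18718840))) (c (l 19888096) (l 540130713895)))) (a (c (l 19991256) (a (l 18345512) (l 18353600))) (c (l 19409048) (b (l 18844976) (l 18163680))))), by decide +kernel⟩

theorem c_pm_022 : CertF 0 536870912 1073741824 536870912 33554432 16777216 true true false .pp 0 2 2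
    ndF3q0 ndF3q2 pcF2 Cut.none Ext.none :=
  certFK1 (fam := true) (s1 := true) (s2 := false) (a := 0) (b := 2) (c := 2) (cn := .pp) (n1 := ndF3q0) (n2 := ndF3q2) (pc := pcF2) (cut := Cut.none) (xt := Ext.none) (P1 := 0) (W1 := 536870912) (P2 := 1073741824) (W2 := 536870912) (P3 := 33554432) (W3 := 16777216)
    rfl rfl rfl (fun _ => rfl) k0_pm_022

noncomputable def f_pm_023 : ℕ → ℕ → ℕ → ℕ → Bool := onCell 1610612736 536870912 1073741824 536870912 33554432 16777216
    (rowFK 2 true true false .up 0 2 3 (qsf 0 536870912 1073741824 536870912 3) ndF3q0 ndF3q2 pcF3 Cut.none Ext.none)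

def k0_pm_023 : ∃ t, chk3 f_pm_023 t 1 1 1 = true :=
  ⟨(a (a (b (c (l 18100336) (l 18225912)) (c (l 18749568) (l 17806600))) (b (b (l 18134744) (l 17706176)) (c (l 17963056) (l 17768184)))) (a (b (a (l 18063784) (l 2)) (a (l 17114816) (l 17184576))) (a (b (l 2) (l 4)) (l 4)))), by decide +kernel⟩

theorem c_pm_023 : CertF 0 536870912 1073741824 536870912 33554432 16777216 true true false .up 0 2 3
    ndF3q0 ndF3q2 pcF3 Cut.none Ext.none :=
  certFK2 (fam := true) (s1 := true) (s2 := false) (a := 0) (b := 2) (c := 3) (cn := .up) (n1 := ndF3q0) (n2 := ndF3q2) (pc := pcF3) (cut := Cut.none) (xt := Ext.none) (P1 := 0) (W1 := 536870912) (P2 := 1073741824) (W2 := 536870912) (P3 := 33554432) (W3 := 16777216)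
    rfl rfl rfl (fun _ => rfl) k0_pm_023

noncomputable def f_pm_033 : ℕ → ℕ → ℕ → ℕ → Bool := onCell 1610612736 536870912 0 1230186008 33554432 16777216
    (rowFK 2 true true false .pnn 0 3 3 (qsf 0 536870912 0 1230186008 3) ndF3q0 ndF3q3 pcF3 Cut.none Ext.none)

def k0_pm_033 : ∃ t, chk3 f_pm_033 t 1 1 1 = true :=
  ⟨(a (b (l 1) (b (b (l 1) (a (l 1) (a (l 1) (l 17724872)))) (b (a (l 1) (a (l 17788344) (l 17711192))) (a (a (l 229816067703) (l 17577144)) (l 51575519271))))) (a (b (l 1) (b (a (l 201362976951) (l 4)) (a (l 17825832) (l 17892672)))) (b (b (l 4) (l 4)) (b (l 4) (l 4))))), by decide +kernel⟩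

theorem c_pm_033 : CertF 0 536870912 0 1230186008 33554432 16777216 true true false .pnn 0 3 3
    ndF3q0 ndF3q3 pcF3 Cut.none Ext.none :=
  certFK2 (fam := true) (s1 := true) (s2 := false) (a := 0) (b := 3) (c := 3) (cn := .pnn) (n1 := ndF3q0) (n2 := ndF3q3) (pc := pcF3) (cut := Cut.none) (xt := Ext.none) (P1 := 0) (W1 := 536870912) (P2 := 0) (W2 := 1230186008) (P3 := 33554432) (W3 := 16777216)
    rfl rfl rfl (fun _ => rfl) k0_pm_033

noncomputable def f_pm_101 : ℕ → ℕ → ℕ → ℕ → Bool := onCell 536870912 536870912 0 536870912 33554432 16777216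
    (rowFK 2 true true false .npn 1 0 1 (qsf 536870912 536870912 0 536870912 1) ndF3q1 ndF3q0 pcF1 Cut.none Ext.none)

def k0_pm_101 : ∃ t, chk3 f_pm_101 t 1 1 1 = true :=
  ⟨(l 3), by decide +kernel⟩

theorem c_pm_101 : CertF 536870912 536870912 0 536870912 33554432 16777216 true true false .npn 1 0 1
    ndF3q1 ndF3q0 pcF1 Cut.none Ext.none :=
  certFK2 (fam := true) (s1 := true) (s2 := false) (a := 1) (b := 0) (c := 1) (cn := .npn) (n1 := ndF3q1) (n2 := ndF3q0) (pc := pcF1) (cut := Cut.none) (xt := Ext.none) (P1 := 536870912) (W1 := 536870912) (P2 := 0) (W2 := 536870912) (P3 := 33554432) (W3 := 16777216)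
    rfl rfl rfl (fun _ => rfl) k0_pm_101

noncomputable def f_pm_102 : ℕ → ℕ → ℕ → ℕ → Bool := onCell 536870912 536870912 1073741824 536870912 33554432 16777216
    (rowFK 1 true true false .npp 1 0 2 (qsf 536870912 536870912 0 536870912 2) ndF3q1 ndF3q0 pcF2 Cut.none Ext.none)

def k0_pm_102 : ∃ t, chk3 f_pm_102 t 1 1 1 = true :=
  ⟨(b (b (l 3) (b (b (b (l 3) (b (l 3) (a (a (l 2) (l 19057688)) (b (l 3) (c (l 20043592) (l 19319336)))))) (a (l 18826304) (a (l 19312320) (l 19578648)))) (a (l 18754120) (a (l 19205648) (l 19448056))))) (a (l 18683264) (a (l 19042152) (b (l 19189576) (l 19155040))))), by decide +kernel⟩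

theorem c_pm_102 : CertF 536870912 536870912 0 536870912 33554432 16777216 true true false .npp 1 0 2
    ndF3q1 ndF3q0 pcF2 Cut.none Ext.none :=
  certFK1 (fam := true) (s1 := true) (s2 := false) (a := 1) (b := 0) (c := 2) (cn := .npp) (n1 := ndF3q1) (n2 := ndF3q0) (pc := pcF2) (cut := Cut.none) (xt := Ext.none) (P1 := 536870912) (W1 := 536870912) (P2 := 0) (W2 := 536870912) (P3 := 33554432) (W3 := 16777216)
    rfl rfl rfl (fun _ => rfl) k0_pm_102

noncomputable def f_pm_112 : ℕ → ℕ → ℕ → ℕ → Bool := onCell 536870912 536870912 1073741824 536870912 33554432 16777216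
    (rowFK 1 true true false .dn 1 1 2 (qsf 536870912 536870912 536870912 536870912 2) ndF3q1 ndF3q1 pcF2 Cut.none Ext.none)

def k0_pm_112 : ∃ t, chk3 f_pm_112 t 1 1 1 = true :=
  ⟨(b (b (l 3) (b (b (b (l 3) (l 19681128)) (l 19418768)) (l 19268832))) (l 18777048)), by decide +kernel⟩

theorem c_pm_112 : CertF 536870912 536870912 536870912 536870912 33554432 16777216 true true false .dn 1 1 2
    ndF3q1 ndF3q1 pcF2 Cut.none Ext.none :=
  certFK1 (fam := true) (s1 := true) (s2 := false) (a := 1) (b := 1) (c := 2) (cn := .dn) (n1 := ndF3q1) (n2 := ndF3q1) (pc := pcF2) (cut := Cut.none) (xt := Ext.none) (P1 := 536870912) (W1 := 536870912) (P2 := 536870912) (W2 := 536870912) (P3 := 33554432) (W3 := 16777216)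
    rfl rfl rfl (fun _ => rfl) k0_pm_112

noncomputable def f_pm_113 : ℕ → ℕ → ℕ → ℕ → Bool := onCell 536870912 536870912 536870912 536870912 33554432 16777216
    (rowFK 0 true true false .nn 1 1 3 (qsf 536870912 536870912 536870912 536870912 3) ndF3q1 ndF3q1 pcF3 Cut.none Ext.none)

def k0_pm_113 : ∃ t, chk3 f_pm_113 t 1 1 1 = true :=
  ⟨(b (l 484295672375) (b (l 18189000) (b (l 17904872) (a (l 18217048) (a (l 17635536) (a (l 17269160) (a (l 17057240) (b (l 17042808) (a (l 16920680) (b (l 16917072) (a (l 16849408) (b (l 16848056) (b (l 16813432) (l 16798200)))))))))))))), by decide +kernel⟩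

theorem c_pm_113 : CertF 536870912 536870912 536870912 536870912 33554432 16777216 true true false .nn 1 1 3
    ndF3q1 ndF3q1 pcF3 Cut.none Ext.none :=
  certFK0 (fam := true) (s1 := true) (s2 := false) (a := 1) (b := 1) (c := 3) (cn := .nn) (n1 := ndF3q1) (n2 := ndF3q1) (pc := pcF3) (cut := Cut.none) (xt := Ext.none) (P1 := 536870912) (W1 := 536870912) (P2 := 536870912) (W2 := 536870912) (P3 := 33554432) (W3 := 16777216)
    rfl rfl rfl k0_pm_113

noncomputable def f_pm_123 : ℕ → ℕ → ℕ → ℕ → Bool := onCell 1610612736 536870912 1073741824 536870912 33554432 16777216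
    (rowFK 2 true true false .npn 1 2 3 (qsf 536870912 536870912 1073741824 536870912 3) ndF3q1 ndF3q2 pcF3 Cut.none Ext.none)

def k0_pm_123 : ∃ t, chk3 f_pm_123 t 1 1 1 = true :=
  ⟨(a (a (b (l 18183104) (l 1)) (b (l 17833432) (l 17414912))) (a (b (l 18129048) (l 17441736)) (a (l 17601264) (l 4)))), by decide +kernel⟩

theorem c_pm_123 : CertF 536870912 536870912 1073741824 536870912 33554432 16777216 true true false .npn 1 2 3
    ndF3q1 ndF3q2 pcF3 Cut.none Ext.none :=
  certFK2 (fam := true) (s1 := true) (s2 := false) (a := 1) (b := 2) (c := 3) (cn := .npn) (n1 := ndF3q1) (n2 := ndF3q2) (pc := pcF3) (cut := Cut.none) (xt := Ext.none) (P1 := 536870912) (W1 := 536870912) (P2 := 1073741824) (W2 := 536870912) (P3 := 33554432) (W3 := 16777216)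
    rfl rfl rfl (fun _ => rfl) k0_pm_123

noncomputable def f_pm_133 : ℕ → ℕ → ℕ → ℕ → Bool := onCell 536870912 536870912 0 1230186008 33554432 16777216
    (rowFK 0 true true false .dn 1 3 3 (qsf 536870912 536870912 0 1230186008 3) ndF3q1 ndF3q3 pcF3 Cut.none Ext.none)

def k0_pm_133 : ∃ t, chk3 f_pm_133 t 1 1 1 = true :=
  ⟨(b (l 2) (l 4)), by decide +kernel⟩

theorem c_pm_133 : CertF 536870912 536870912 0 1230186008 33554432 16777216 true true false .dn 1 3 3
    ndF3q1 ndF3q3 pcF3 Cut.none Ext.none :=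
  certFK0 (fam := true) (s1 := true) (s2 := false) (a := 1) (b := 3) (c := 3) (cn := .dn) (n1 := ndF3q1) (n2 := ndF3q3) (pc := pcF3) (cut := Cut.none) (xt := Ext.none) (P1 := 536870912) (W1 := 536870912) (P2 := 0) (W2 := 1230186008) (P3 := 33554432) (W3 := 16777216)
    rfl rfl rfl k0_pm_133

noncomputable def f_pm_202 : ℕ → ℕ → ℕ → ℕ → Bool := onCell 1073741824 536870912 0 536870912 33554432 16777216
    (rowFK 2 true true false .pp 2 0 2 (qsf 1073741824 536870912 0 536870912 2) ndF3q2 ndF3q0 pcF2 Cut.none Ext.none)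

def k0_pm_202 : ∃ t, chk3 f_pm_202 t 1 1 1 = true :=
  ⟨(a (a (b (b (a (c (l 21226192) (l 259481371255)) (a (c (l 20875184) (l 19141240)) (c (l 20742576) (b (l 18814464) (l 18721768))))) (a (l 1) (a (l 1) (c (l 20493248) (l 18904432))))) (l 1)) (b (c (l 20619880) (b (l 18581320) (l 18718840))) (c (l 19888096) (l 540130713895)))) (b (c (l 19991256) (b (l 18408424) (l 18353600))) (c (l 19409048) (a (l 18844976) (l 18163680))))), by decide +kernel⟩

theorem c_pm_202 : CertF 1073741824 536870912 0 536870912 33554432 16777216 true true false .pp 2 0 2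
    ndF3q2 ndF3q0 pcF2 Cut.none Ext.none :=
  certFK2 (fam := true) (s1 := true) (s2 := false) (a := 2) (b := 0) (c := 2) (cn := .pp) (n1 := ndF3q2) (n2 := ndF3q0) (pc := pcF2) (cut := Cut.none) (xt := Ext.none) (P1 := 1073741824) (W1 := 536870912) (P2 := 0) (W2 := 536870912) (P3 := 33554432) (W3 := 16777216)
    rfl rfl rfl (fun _ => rfl) k0_pm_202

noncomputable def f_pm_203 : ℕ → ℕ → ℕ → ℕ → Bool := onCell 1073741824 536870912 1610612736 536870912 33554432 16777216
    (rowFK 1 true true false .up 2 0 3 (qsf 1073741824 536870912 0 536870912 3) ndF3q2 ndF3q0 pcF3 Cut.none Ext.none)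

def k0_pm_203 : ∃ t, chk3 f_pm_203 t 1 1 1 = true :=
  ⟨(b (b (a (c (l 18100336) (l 18225912)) (c (l 18749568) (l 17806600))) (a (a (l 18134744) (l 17706176)) (c (l 17963056) (l 17768184)))) (b (a (b (l 18063784) (l 2)) (b (l 17114816) (l 17184576))) (b (a (l 2) (l 4)) (l 4)))), by decide +kernel⟩

theorem c_pm_203 : CertF 1073741824 536870912 0 536870912 33554432 16777216 true true false .up 2 0 3
    ndF3q2 ndF3q0 pcF3 Cut.none Ext.none :=
  certFK1 (fam := true) (s1 := true) (s2 := false) (a := 2) (b := 0) (c := 3) (cn := .up) (n1 := ndF3q2) (n2 := ndF3q0) (pc := pcF3) (cut := Cut.none) (xt := Ext.none) (P1 := 1073741824) (W1 := 536870912) (P2 := 0) (W2 := 536870912) (P3 := 33554432) (W3 := 16777216)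
    rfl rfl rfl (fun _ => rfl) k0_pm_203

noncomputable def f_pm_213 : ℕ → ℕ → ℕ → ℕ → Bool := onCell 1073741824 536870912 1610612736 536870912 33554432 16777216
    (rowFK 1 true true false .pnn 2 1 3 (qsf 1073741824 536870912 536870912 536870912 3) ndF3q2 ndF3q1 pcF3 Cut.none Ext.none)

def k0_pm_213 : ∃ t, chk3 f_pm_213 t 1 1 1 = true :=
  ⟨(b (b (a (l 18183104) (l 1)) (a (l 17833432) (l 17414912))) (b (a (l 18129048) (l 17441736)) (b (l 17601264) (l 4)))), by decide +kernel⟩

theorem c_pm_213 : CertF 1073741824 536870912 536870912 536870912 33554432 16777216 true true false .pnn 2 1 3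
    ndF3q2 ndF3q1 pcF3 Cut.none Ext.none :=
  certFK1 (fam := true) (s1 := true) (s2 := false) (a := 2) (b := 1) (c := 3) (cn := .pnn) (n1 := ndF3q2) (n2 := ndF3q1) (pc := pcF3) (cut := Cut.none) (xt := Ext.none) (P1 := 1073741824) (W1 := 536870912) (P2 := 536870912) (W2 := 536870912) (P3 := 33554432) (W3 := 16777216)
    rfl rfl rfl (fun _ => rfl) k0_pm_213

noncomputable def f_pm_303 : ℕ → ℕ → ℕ → ℕ → Bool := onCell 0 1230186008 1610612736 536870912 33554432 16777216
    (rowFK 1 true true false .npn 3 0 3 (qsf 0 1230186008 0 536870912 3) ndF3q3 ndF3q0 pcF3 Cut.none Ext.none)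

def k0_pm_303 : ∃ t, chk3 f_pm_303 t 1 1 1 = true :=
  ⟨(b (a (l 1) (a (a (l 1) (b (l 1) (b (l 1) (l 17724872)))) (a (b (l 1) (b (l 17788344) (l 17711208))) (b (b (l 230352938615) (l 17577144)) (l 52112390199))))) (b (a (l 1) (a (b (l 201362976951) (l 4)) (b (l 17825840) (l 17892672)))) (a (a (l 4) (l 4)) (a (l 4) (l 4))))), by decide +kernel⟩

theorem c_pm_303 : CertF 0 1230186008 0 536870912 33554432 16777216 true true false .npn 3 0 3
    ndF3q3 ndF3q0 pcF3 Cut.none Ext.none :=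
  certFK1 (fam := true) (s1 := true) (s2 := false) (a := 3) (b := 0) (c := 3) (cn := .npn) (n1 := ndF3q3) (n2 := ndF3q0) (pc := pcF3) (cut := Cut.none) (xt := Ext.none) (P1 := 0) (W1 := 1230186008) (P2 := 0) (W2 := 536870912) (P3 := 33554432) (W3 := 16777216)
    rfl rfl rfl (fun _ => rfl) k0_pm_303

noncomputable def f_pm_313 : ℕ → ℕ → ℕ → ℕ → Bool := onCell 0 1230186008 536870912 536870912 33554432 16777216
    (rowFK 0 true true false .dn 3 1 3 (qsf 0 1230186008 536870912 536870912 3) ndF3q3 ndF3q1 pcF3 Cut.none Ext.none)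

def k0_pm_313 : ∃ t, chk3 f_pm_313 t 1 1 1 = true :=
  ⟨(a (l 2) (l 4)), by decide +kernel⟩

theorem c_pm_313 : CertF 0 1230186008 536870912 536870912 33554432 16777216 true true false .dn 3 1 3
    ndF3q3 ndF3q1 pcF3 Cut.none Ext.none :=
  certFK0 (fam := true) (s1 := true) (s2 := false) (a := 3) (b := 1) (c := 3) (cn := .dn) (n1 := ndF3q3) (n2 := ndF3q1) (pc := pcF3) (cut := Cut.none) (xt := Ext.none) (P1 := 0) (W1 := 1230186008) (P2 := 536870912) (W2 := 536870912) (P3 := 33554432) (W3 := 16777216)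
    rfl rfl rfl k0_pm_313

noncomputable def f_mm_001 : ℕ → ℕ → ℕ → ℕ → Bool := onCell 0 536870912 0 536870912 33554432 16777216
    (rowFK 0 true false false .up 0 0 1 (qsf 0 536870912 0 536870912 1) ndF3q0 ndF3q0 pcF1 Cut.none Ext.none)

def k0_mm_001 : ∃ t, chk3 f_mm_001 t 1 1 1 = true :=
  ⟨(l 4), by decide +kernel⟩

theorem c_mm_001 : CertF 0 536870912 0 536870912 33554432 16777216 true false false .up 0 0 1
    ndF3q0 ndF3q0 pcF1 Cut.none Ext.none :=
  certFK0 (fam := true) (s1 := false) (s2 := false) (a := 0) (b := 0) (c := 1) (cn := .up) (n1 := ndF3q0) (n2 := ndF3q0) (pc := pcF1) (cut := Cut.none) (xt := Ext.none) (P1 := 0) (W1 := 536870912) (P2 := 0) (W2 := 536870912) (P3 := 33554432) (W3 := 16777216)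
    rfl rfl rfl k0_mm_001

noncomputable def f_mm_011 : ℕ → ℕ → ℕ → ℕ → Bool := onCell 0 536870912 536870912 536870912 33554432 16777216
    (rowFK 0 true false false .pnn 0 1 1 (qsf 0 536870912 536870912 536870912 1) ndF3q0 ndF3q1 pcF1 Cut.none Ext.none)

def k0_mm_011 : ∃ t, chk3 f_mm_011 t 1 1 1 = true :=
  ⟨(l 4), by decide +kernel⟩

theorem c_mm_011 : CertF 0 536870912 536870912 536870912 33554432 16777216 true false false .pnn 0 1 1
    ndF3q0 ndF3q1 pcF1 Cut.none Ext.none :=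
  certFK0 (fam := true) (s1 := false) (s2 := false) (a := 0) (b := 1) (c := 1) (cn := .pnn) (n1 := ndF3q0) (n2 := ndF3q1) (pc := pcF1) (cut := Cut.none) (xt := Ext.none) (P1 := 0) (W1 := 536870912) (P2 := 536870912) (W2 := 536870912) (P3 := 33554432) (W3 := 16777216)
    rfl rfl rfl k0_mm_011

noncomputable def f_mm_012 : ℕ → ℕ → ℕ → ℕ → Bool := onCell 0 536870912 536870912 536870912 33554432 16777216
    (rowFK 0 true false false .pnp 0 1 2 (qsf 0 536870912 536870912 536870912 2) ndF3q0 ndF3q1 pcF2 Cut.none Ext.none)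

def k0_mm_012 : ∃ t, chk3 f_mm_012 t 1 1 1 = true :=
  ⟨(l 4), by decide +kernel⟩

theorem c_mm_012 : CertF 0 536870912 536870912 536870912 33554432 16777216 true false false .pnp 0 1 2
    ndF3q0 ndF3q1 pcF2 Cut.none Ext.none :=
  certFK0 (fam := true) (s1 := false) (s2 := false) (a := 0) (b := 1) (c := 2) (cn := .pnp) (n1 := ndF3q0) (n2 := ndF3q1) (pc := pcF2) (cut := Cut.none) (xt := Ext.none) (P1 := 0) (W1 := 536870912) (P2 := 536870912) (W2 := 536870912) (P3 := 33554432) (W3 := 16777216)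
    rfl rfl rfl k0_mm_012

noncomputable def f_mm_022 : ℕ → ℕ → ℕ → ℕ → Bool := onCell 0 536870912 1073741824 536870912 33554432 16777216
    (rowFK 0 true false false .pp 0 2 2 (qsf 0 536870912 1073741824 536870912 2) ndF3q0 ndF3q2 pcF2 Cut.none Ext.none)

def k0_mm_022 : ∃ t, chk3 f_mm_022 t 1 1 1 = true :=
  ⟨(l 4), by decide +kernel⟩

theorem c_mm_022 : CertF 0 536870912 1073741824 536870912 33554432 16777216 true false false .pp 0 2 2
    ndF3q0 ndF3q2 pcF2 Cut.none Ext.none :=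
  certFK0 (fam := true) (s1 := false) (s2 := false) (a := 0) (b := 2) (c := 2) (cn := .pp) (n1 := ndF3q0) (n2 := ndF3q2) (pc := pcF2) (cut := Cut.none) (xt := Ext.none) (P1 := 0) (W1 := 536870912) (P2 := 1073741824) (W2 := 536870912) (P3 := 33554432) (W3 := 16777216)
    rfl rfl rfl k0_mm_022

noncomputable def f_mm_023 : ℕ → ℕ → ℕ → ℕ → Bool := onCell 0 536870912 1073741824 536870912 33554432 16777216
    (rowFK 0 true false false .up 0 2 3 (qsf 0 536870912 1073741824 536870912 3) ndF3q0 ndF3q2 pcF3 Cut.none Ext.none)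

def k0_mm_023 : ∃ t, chk3 f_mm_023 t 1 1 1 = true :=
  ⟨(l 4), by decide +kernel⟩

theorem c_mm_023 : CertF 0 536870912 1073741824 536870912 33554432 16777216 true false false .up 0 2 3
    ndF3q0 ndF3q2 pcF3 Cut.none Ext.none :=
  certFK0 (fam := true) (s1 := false) (s2 := false) (a := 0) (b := 2) (c := 3) (cn := .up) (n1 := ndF3q0) (n2 := ndF3q2) (pc := pcF3) (cut := Cut.none) (xt := Ext.none) (P1 := 0) (W1 := 536870912) (P2 := 1073741824) (W2 := 536870912) (P3 := 33554432) (W3 := 16777216)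
    rfl rfl rfl k0_mm_023

noncomputable def f_mm_033 : ℕ → ℕ → ℕ → ℕ → Bool := onCell 0 536870912 0 1230186008 33554432 16777216
    (rowFK 0 true false false .pnn 0 3 3 (qsf 0 536870912 0 1230186008 3) ndF3q0 ndF3q3 pcF3 Cut.none Ext.none)

def k0_mm_033 : ∃ t, chk3 f_mm_033 t 1 1 1 = true :=
  ⟨(l 4), by decide +kernel⟩

theorem c_mm_033 : CertF 0 536870912 0 1230186008 33554432 16777216 true false false .pnn 0 3 3
    ndF3q0 ndF3q3 pcF3 Cut.none Ext.none :=
  certFK0 (fam := true) (s1 := false) (s2 := false) (a := 0) (b := 3) (c := 3) (cn := .pnn) (n1 := ndF3q0) (n2 := ndF3q3) (pc := pcF3) (cut := Cut.none) (xt := Ext.none) (P1 := 0) (W1 := 536870912) (P2 := 0) (W2 := 1230186008) (P3 := 33554432) (W3 := 16777216)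
    rfl rfl rfl k0_mm_033

noncomputable def f_mm_101 : ℕ → ℕ → ℕ → ℕ → Bool := onCell 536870912 536870912 0 536870912 33554432 16777216
    (rowFK 0 true false false .npn 1 0 1 (qsf 536870912 536870912 0 536870912 1) ndF3q1 ndF3q0 pcF1 Cut.none Ext.none)

def k0_mm_101 : ∃ t, chk3 f_mm_101 t 1 1 1 = true :=
  ⟨(l 4), by decide +kernel⟩

theorem c_mm_101 : CertF 536870912 536870912 0 536870912 33554432 16777216 true false false .npn 1 0 1
    ndF3q1 ndF3q0 pcF1 Cut.none Ext.none :=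
  certFK0 (fam := true) (s1 := false) (s2 := false) (a := 1) (b := 0) (c := 1) (cn := .npn) (n1 := ndF3q1) (n2 := ndF3q0) (pc := pcF1) (cut := Cut.none) (xt := Ext.none) (P1 := 536870912) (W1 := 536870912) (P2 := 0) (W2 := 536870912) (P3 := 33554432) (W3 := 16777216)
    rfl rfl rfl k0_mm_101

noncomputable def f_mm_102 : ℕ → ℕ → ℕ → ℕ → Bool := onCell 536870912 536870912 0 536870912 33554432 16777216
    (rowFK 0 true false false .npp 1 0 2 (qsf 536870912 536870912 0 536870912 2) ndF3q1 ndF3q0 pcF2 Cut.none Ext.none)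

def k0_mm_102 : ∃ t, chk3 f_mm_102 t 1 1 1 = true :=
  ⟨(l 4), by decide +kernel⟩

theorem c_mm_102 : CertF 536870912 536870912 0 536870912 33554432 16777216 true false false .npp 1 0 2
    ndF3q1 ndF3q0 pcF2 Cut.none Ext.none :=
  certFK0 (fam := true) (s1 := false) (s2 := false) (a := 1) (b := 0) (c := 2) (cn := .npp) (n1 := ndF3q1) (n2 := ndF3q0) (pc := pcF2) (cut := Cut.none) (xt := Ext.none) (P1 := 536870912) (W1 := 536870912) (P2 := 0) (W2 := 536870912) (P3 := 33554432) (W3 := 16777216)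
    rfl rfl rfl k0_mm_102

noncomputable def f_mm_112 : ℕ → ℕ → ℕ → ℕ → Bool := onCell 536870912 536870912 536870912 536870912 33554432 16777216
    (rowFK 0 true false false .dn 1 1 2 (qsf 536870912 536870912 536870912 536870912 2) ndF3q1 ndF3q1 pcF2 Cut.none Ext.none)

def k0_mm_112 : ∃ t, chk3 f_mm_112 t 1 1 1 = true :=
  ⟨(l 4), by decide +kernel⟩

theorem c_mm_112 : CertF 536870912 536870912 536870912 536870912 33554432 16777216 true false false .dn 1 1 2
    ndF3q1 ndF3q1 pcF2 Cut.none Ext.none :=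
  certFK0 (fam := true) (s1 := false) (s2 := false) (a := 1) (b := 1) (c := 2) (cn := .dn) (n1 := ndF3q1) (n2 := ndF3q1) (pc := pcF2) (cut := Cut.none) (xt := Ext.none) (P1 := 536870912) (W1 := 536870912) (P2 := 536870912) (W2 := 536870912) (P3 := 33554432) (W3 := 16777216)
    rfl rfl rfl k0_mm_112

noncomputable def f_mm_113 : ℕ → ℕ → ℕ → ℕ → Bool := onCell 536870912 536870912 536870912 536870912 33554432 16777216
    (rowFK 0 true false false .nn 1 1 3 (qsf 536870912 536870912 536870912 536870912 3) ndF3q1 ndF3q1 pcF3 Cut.none Ext.none)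

def k0_mm_113 : ∃ t, chk3 f_mm_113 t 1 1 1 = true :=
  ⟨(l 4), by decide +kernel⟩

theorem c_mm_113 : CertF 536870912 536870912 536870912 536870912 33554432 16777216 true false false .nn 1 1 3
    ndF3q1 ndF3q1 pcF3 Cut.none Ext.none :=
  certFK0 (fam := true) (s1 := false) (s2 := false) (a := 1) (b := 1) (c := 3) (cn := .nn) (n1 := ndF3q1) (n2 := ndF3q1) (pc := pcF3) (cut := Cut.none) (xt := Ext.none) (P1 := 536870912) (W1 := 536870912) (P2 := 536870912) (W2 := 536870912) (P3 := 33554432) (W3 := 16777216)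
    rfl rfl rfl k0_mm_113

noncomputable def f_mm_123 : ℕ → ℕ → ℕ → ℕ → Bool := onCell 536870912 536870912 1073741824 536870912 33554432 16777216
    (rowFK 0 true false false .npn 1 2 3 (qsf 536870912 536870912 1073741824 536870912 3) ndF3q1 ndF3q2 pcF3 Cut.none Ext.none)

def k0_mm_123 : ∃ t, chk3 f_mm_123 t 1 1 1 = true :=
  ⟨(l 4), by decide +kernel⟩

theorem c_mm_123 : CertF 536870912 536870912 1073741824 536870912 33554432 16777216 true false false .npn 1 2 3
    ndF3q1 ndF3q2 pcF3 Cut.none Ext.none :=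
  certFK0 (fam := true) (s1 := false) (s2 := false) (a := 1) (b := 2) (c := 3) (cn := .npn) (n1 := ndF3q1) (n2 := ndF3q2) (pc := pcF3) (cut := Cut.none) (xt := Ext.none) (P1 := 536870912) (W1 := 536870912) (P2 := 1073741824) (W2 := 536870912) (P3 := 33554432) (W3 := 16777216)
    rfl rfl rfl k0_mm_123

noncomputable def f_mm_133 : ℕ → ℕ → ℕ → ℕ → Bool := onCell 536870912 536870912 0 1230186008 33554432 16777216
    (rowFK 0 true false false .dn 1 3 3 (qsf 536870912 536870912 0 1230186008 3) ndF3q1 ndF3q3 pcF3 Cut.none Ext.none)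

def k0_mm_133 : ∃ t, chk3 f_mm_133 t 1 1 1 = true :=
  ⟨(l 4), by decide +kernel⟩

theorem c_mm_133 : CertF 536870912 536870912 0 1230186008 33554432 16777216 true false false .dn 1 3 3
    ndF3q1 ndF3q3 pcF3 Cut.none Ext.none :=
  certFK0 (fam := true) (s1 := false) (s2 := false) (a := 1) (b := 3) (c := 3) (cn := .dn) (n1 := ndF3q1) (n2 := ndF3q3) (pc := pcF3) (cut := Cut.none) (xt := Ext.none) (P1 := 536870912) (W1 := 536870912) (P2 := 0) (W2 := 1230186008) (P3 := 33554432) (W3 := 16777216)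
    rfl rfl rfl k0_mm_133

noncomputable def f_mm_202 : ℕ → ℕ → ℕ → ℕ → Bool := onCell 1073741824 536870912 0 536870912 33554432 16777216
    (rowFK 0 true false false .pp 2 0 2 (qsf 1073741824 536870912 0 536870912 2) ndF3q2 ndF3q0 pcF2 Cut.none Ext.none)

def k0_mm_202 : ∃ t, chk3 f_mm_202 t 1 1 1 = true :=
  ⟨(l 4), by decide +kernel⟩

theorem c_mm_202 : CertF 1073741824 536870912 0 536870912 33554432 16777216 true false false .pp 2 0 2
    ndF3q2 ndF3q0 pcF2 Cut.none Ext.none :=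
  certFK0 (fam := true) (s1 := false) (s2 := false) (a := 2) (b := 0) (c := 2) (cn := .pp) (n1 := ndF3q2) (n2 := ndF3q0) (pc := pcF2) (cut := Cut.none) (xt := Ext.none) (P1 := 1073741824) (W1 := 536870912) (P2 := 0) (W2 := 536870912) (P3 := 33554432) (W3 := 16777216)
    rfl rfl rfl k0_mm_202

noncomputable def f_mm_203 : ℕ → ℕ → ℕ → ℕ → Bool := onCell 1073741824 536870912 0 536870912 33554432 16777216
    (rowFK 0 true false false .up 2 0 3 (qsf 1073741824 536870912 0 536870912 3) ndF3q2 ndF3q0 pcF3 Cut.none Ext.none)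

def k0_mm_203 : ∃ t, chk3 f_mm_203 t 1 1 1 = true :=
  ⟨(l 4), by decide +kernel⟩

theorem c_mm_203 : CertF 1073741824 536870912 0 536870912 33554432 16777216 true false false .up 2 0 3
    ndF3q2 ndF3q0 pcF3 Cut.none Ext.none :=
  certFK0 (fam := true) (s1 := false) (s2 := false) (a := 2) (b := 0) (c := 3) (cn := .up) (n1 := ndF3q2) (n2 := ndF3q0) (pc := pcF3) (cut := Cut.none) (xt := Ext.none) (P1 := 1073741824) (W1 := 536870912) (P2 := 0) (W2 := 536870912) (P3 := 33554432) (W3 := 16777216)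
    rfl rfl rfl k0_mm_203

noncomputable def f_mm_213 : ℕ → ℕ → ℕ → ℕ → Bool := onCell 1073741824 536870912 536870912 536870912 33554432 16777216
    (rowFK 0 true false false .pnn 2 1 3 (qsf 1073741824 536870912 536870912 536870912 3) ndF3q2 ndF3q1 pcF3 Cut.none Ext.none)

def k0_mm_213 : ∃ t, chk3 f_mm_213 t 1 1 1 = true :=
  ⟨(l 4), by decide +kernel⟩

theorem c_mm_213 : CertF 1073741824 536870912 536870912 536870912 33554432 16777216 true false false .pnn 2 1 3
    ndF3q2 ndF3q1 pcF3 Cut.none Ext.none :=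
  certFK0 (fam := true) (s1 := false) (s2 := false) (a := 2) (b := 1) (c := 3) (cn := .pnn) (n1 := ndF3q2) (n2 := ndF3q1) (pc := pcF3) (cut := Cut.none) (xt := Ext.none) (P1 := 1073741824) (W1 := 536870912) (P2 := 536870912) (W2 := 536870912) (P3 := 33554432) (W3 := 16777216)
    rfl rfl rfl k0_mm_213

noncomputable def f_mm_303 : ℕ → ℕ → ℕ → ℕ → Bool := onCell 0 1230186008 0 536870912 33554432 16777216
    (rowFK 0 true false false .npn 3 0 3 (qsf 0 1230186008 0 536870912 3) ndF3q3 ndF3q0 pcF3 Cut.none Ext.none)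

def k0_mm_303 : ∃ t, chk3 f_mm_303 t 1 1 1 = true :=
  ⟨(l 4), by decide +kernel⟩

theorem c_mm_303 : CertF 0 1230186008 0 536870912 33554432 16777216 true false false .npn 3 0 3
    ndF3q3 ndF3q0 pcF3 Cut.none Ext.none :=
  certFK0 (fam := true) (s1 := false) (s2 := false) (a := 3) (b := 0) (c := 3) (cn := .npn) (n1 := ndF3q3) (n2 := ndF3q0) (pc := pcF3) (cut := Cut.none) (xt := Ext.none) (P1 := 0) (W1 := 1230186008) (P2 := 0) (W2 := 536870912) (P3 := 33554432) (W3 := 16777216)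
    rfl rfl rfl k0_mm_303

noncomputable def f_mm_313 : ℕ → ℕ → ℕ → ℕ → Bool := onCell 0 1230186008 536870912 536870912 33554432 16777216
    (rowFK 0 true false false .dn 3 1 3 (qsf 0 1230186008 536870912 536870912 3) ndF3q3 ndF3q1 pcF3 Cut.none Ext.none)

def k0_mm_313 : ∃ t, chk3 f_mm_313 t 1 1 1 = true :=
  ⟨(l 4), by decide +kernel⟩

theorem c_mm_313 : CertF 0 1230186008 536870912 536870912 33554432 16777216 true false false .dn 3 1 3
    ndF3q3 ndF3q1 pcF3 Cut.none Ext.none :=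
  certFK0 (fam := true) (s1 := false) (s2 := false) (a := 3) (b := 1) (c := 3) (cn := .dn) (n1 := ndF3q3) (n2 := ndF3q1) (pc := pcF3) (cut := Cut.none) (xt := Ext.none) (P1 := 0) (W1 := 1230186008) (P2 := 536870912) (W2 := 536870912) (P3 := 33554432) (W3 := 16777216)
    rfl rfl rfl k0_mm_313

end Pool.Agent.Strip051.G.I1_32_3_64.Tab.C.FA33

namespace Pool.Agent.Strip051.G.I1_32_3_64.Tab.C.FA34

open Pool.Agent.Strip051.PB Pool.Agent.Strip051.PB.T
open Pool.Agent.Strip051.G.I1_32_3_64.Tab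

noncomputable def f_pp_001 : ℕ → ℕ → ℕ → ℕ → Bool := onCell 0 536870912 0 536870912 33554432 16777216
    (rowFK 0 true true true .up 0 0 1 (qsf 0 536870912 0 536870912 1) ndF3q0 ndF4q0 pcF1 Cut.none Ext.none)

def k0_pp_001 : ∃ t, chk3 f_pp_001 t 1 1 1 = true :=
  ⟨(l 4), by decide +kernel⟩

theorem c_pp_001 : CertF 0 536870912 0 536870912 33554432 16777216 true true true .up 0 0 1
    ndF3q0 ndF4q0 pcF1 Cut.none Ext.none :=
  certFK0 (fam := true) (s1 := true) (s2 := true) (a := 0) (b := 0) (c := 1) (cn := .up) (n1 := ndF3q0) (n2 := ndF4q0) (pc := pcF1) (cut := Cut.none) (xt := Ext.none) (P1 := 0) (W1 := 536870912) (P2 := 0) (W2 := 536870912) (P3 := 33554432) (W3 := 16777216)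
    rfl rfl rfl k0_pp_001

noncomputable def f_pp_011 : ℕ → ℕ → ℕ → ℕ → Bool := onCell 0 536870912 536870912 536870912 33554432 16777216
    (rowFK 0 true true true .pnn 0 1 1 (qsf 0 536870912 536870912 536870912 1) ndF3q0 ndF4q1 pcF1 Cut.none Ext.none)

def k0_pp_011 : ∃ t, chk3 f_pp_011 t 1 1 1 = true :=
  ⟨(l 4), by decide +kernel⟩

theorem c_pp_011 : CertF 0 536870912 536870912 536870912 33554432 16777216 true true true .pnn 0 1 1
    ndF3q0 ndF4q1 pcF1 Cut.none Ext.none :=
  certFK0 (fam := true) (s1 := true) (s2 := true) (a := 0) (b := 1) (c := 1) (cn := .pnn) (n1 := ndF3q0) (n2 := ndF4q1) (pc := pcF1) (cut := Cut.none) (xt := Ext.none) (P1 := 0) (W1 := 536870912) (P2 := 536870912) (W2 := 536870912) (P3 := 33554432) (W3 := 16777216)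
    rfl rfl rfl k0_pp_011

noncomputable def f_pp_012 : ℕ → ℕ → ℕ → ℕ → Bool := onCell 0 536870912 536870912 536870912 33554432 16777216
    (rowFK 0 true true true .pnp 0 1 2 (qsf 0 536870912 536870912 536870912 2) ndF3q0 ndF4q1 pcF2 Cut.none Ext.none)

def k0_pp_012 : ∃ t, chk3 f_pp_012 t 1 1 1 = true :=
  ⟨(l 4), by decide +kernel⟩

theorem c_pp_012 : CertF 0 536870912 536870912 536870912 33554432 16777216 true true true .pnp 0 1 2
    ndF3q0 ndF4q1 pcF2 Cut.none Ext.none :=
  certFK0 (fam := true) (s1 := true) (s2 := true) (a := 0) (b := 1) (c := 2) (cn := .pnp) (n1 := ndF3q0) (n2 := ndF4q1) (pc := pcF2) (cut := Cut.none) (xt := Ext.none) (P1 := 0) (W1 := 536870912) (P2 := 536870912) (W2 := 536870912) (P3 := 33554432) (W3 := 16777216)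
    rfl rfl rfl k0_pp_012

noncomputable def f_pp_022 : ℕ → ℕ → ℕ → ℕ → Bool := onCell 0 536870912 1073741824 536870912 33554432 16777216
    (rowFK 0 true true true .pp 0 2 2 (qsf 0 536870912 1073741824 536870912 2) ndF3q0 ndF4q2 pcF2 Cut.none Ext.none)

def k0_pp_022 : ∃ t, chk3 f_pp_022 t 1 1 1 = true :=
  ⟨(l 4), by decide +kernel⟩

theorem c_pp_022 : CertF 0 536870912 1073741824 536870912 33554432 16777216 true true true .pp 0 2 2
    ndF3q0 ndF4q2 pcF2 Cut.none Ext.none :=
  certFK0 (fam := true) (s1 := true) (s2 := true) (a := 0) (b := 2) (c := 2) (cn := .pp) (n1 := ndF3q0) (n2 := ndF4q2) (pc := pcF2) (cut := Cut.none) (xt := Ext.none) (P1 := 0) (W1 := 536870912) (P2 := 1073741824) (W2 := 536870912) (P3 := 33554432) (W3 := 16777216)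
    rfl rfl rfl k0_pp_022

noncomputable def f_pp_023 : ℕ → ℕ → ℕ → ℕ → Bool := onCell 0 536870912 1073741824 536870912 33554432 16777216
    (rowFK 0 true true true .up 0 2 3 (qsf 0 536870912 1073741824 536870912 3) ndF3q0 ndF4q2 pcF3 Cut.none Ext.none)

def k0_pp_023 : ∃ t, chk3 f_pp_023 t 1 1 1 = true :=
  ⟨(l 4), by decide +kernel⟩

theorem c_pp_023 : CertF 0 536870912 1073741824 536870912 33554432 16777216 true true true .up 0 2 3
    ndF3q0 ndF4q2 pcF3 Cut.none Ext.none :=
  certFK0 (fam := true) (s1 := true) (s2 := true) (a := 0) (b := 2) (c := 3) (cn := .up) (n1 := ndF3q0) (n2 := ndF4q2) (pc := pcF3) (cut := Cut.none) (xt := Ext.none) (P1 := 0) (W1 := 536870912) (P2 := 1073741824) (W2 := 536870912) (P3 := 33554432) (W3 := 16777216)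
    rfl rfl rfl k0_pp_023

noncomputable def f_pp_033 : ℕ → ℕ → ℕ → ℕ → Bool := onCell 0 536870912 0 1230186008 33554432 16777216
    (rowFK 0 true true true .pnn 0 3 3 (qsf 0 536870912 0 1230186008 3) ndF3q0 ndF4q3 pcF3 Cut.none Ext.none)

def k0_pp_033 : ∃ t, chk3 f_pp_033 t 1 1 1 = true :=
  ⟨(l 4), by decide +kernel⟩

theorem c_pp_033 : CertF 0 536870912 0 1230186008 33554432 16777216 true true true .pnn 0 3 3
    ndF3q0 ndF4q3 pcF3 Cut.none Ext.none :=
  certFK0 (fam := true) (s1 := true) (s2 := true) (a := 0) (b := 3) (c := 3) (cn := .pnn) (n1 := ndF3q0) (n2 := ndF4q3) (pc := pcF3) (cut := Cut.none) (xt := Ext.none) (P1 := 0) (W1 := 536870912) (P2 := 0) (W2 := 1230186008) (P3 := 33554432) (W3 := 16777216)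
    rfl rfl rfl k0_pp_033

noncomputable def f_pp_101 : ℕ → ℕ → ℕ → ℕ → Bool := onCell 536870912 536870912 0 536870912 33554432 16777216
    (rowFK 0 true true true .npn 1 0 1 (qsf 536870912 536870912 0 536870912 1) ndF3q1 ndF4q0 pcF1 Cut.none Ext.none)

def k0_pp_101 : ∃ t, chk3 f_pp_101 t 1 1 1 = true :=
  ⟨(l 4), by decide +kernel⟩

theorem c_pp_101 : CertF 536870912 536870912 0 536870912 33554432 16777216 true true true .npn 1 0 1
    ndF3q1 ndF4q0 pcF1 Cut.none Ext.none :=
  certFK0 (fam := true) (s1 := true) (s2 := true) (a := 1) (b := 0) (c := 1) (cn := .npn) (n1 := ndF3q1) (n2 := ndF4q0) (pc := pcF1) (cut := Cut.none) (xt := Ext.none) (P1 := 536870912) (W1 := 536870912) (P2 := 0) (W2 := 536870912) (P3 := 33554432) (W3 := 16777216)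
    rfl rfl rfl k0_pp_101

noncomputable def f_pp_102 : ℕ → ℕ → ℕ → ℕ → Bool := onCell 536870912 536870912 0 536870912 33554432 16777216
    (rowFK 0 true true true .npp 1 0 2 (qsf 536870912 536870912 0 536870912 2) ndF3q1 ndF4q0 pcF2 Cut.none Ext.none)

def k0_pp_102 : ∃ t, chk3 f_pp_102 t 1 1 1 = true :=
  ⟨(l 4), by decide +kernel⟩

theorem c_pp_102 : CertF 536870912 536870912 0 536870912 33554432 16777216 true true true .npp 1 0 2
    ndF3q1 ndF4q0 pcF2 Cut.none Ext.none :=
  certFK0 (fam := true) (s1 := true) (s2 := true) (a := 1) (b := 0) (c := 2) (cn := .npp) (n1 := ndF3q1) (n2 := ndF4q0) (pc := pcF2) (cut := Cut.none) (xt := Ext.none) (P1 := 536870912) (W1 := 536870912) (P2 := 0) (W2 := 536870912) (P3 := 33554432) (W3 := 16777216)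
    rfl rfl rfl k0_pp_102

noncomputable def f_pp_112 : ℕ → ℕ → ℕ → ℕ → Bool := onCell 536870912 536870912 536870912 536870912 33554432 16777216
    (rowFK 0 true true true .dn 1 1 2 (qsf 536870912 536870912 536870912 536870912 2) ndF3q1 ndF4q1 pcF2 Cut.none Ext.none)

def k0_pp_112 : ∃ t, chk3 f_pp_112 t 1 1 1 = true :=
  ⟨(l 4), by decide +kernel⟩

theorem c_pp_112 : CertF 536870912 536870912 536870912 536870912 33554432 16777216 true true true .dn 1 1 2
    ndF3q1 ndF4q1 pcF2 Cut.none Ext.none :=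
  certFK0 (fam := true) (s1 := true) (s2 := true) (a := 1) (b := 1) (c := 2) (cn := .dn) (n1 := ndF3q1) (n2 := ndF4q1) (pc := pcF2) (cut := Cut.none) (xt := Ext.none) (P1 := 536870912) (W1 := 536870912) (P2 := 536870912) (W2 := 536870912) (P3 := 33554432) (W3 := 16777216)
    rfl rfl rfl k0_pp_112

noncomputable def f_pp_113 : ℕ → ℕ → ℕ → ℕ → Bool := onCell 536870912 536870912 536870912 536870912 33554432 16777216
    (rowFK 0 true true true .nn 1 1 3 (qsf 536870912 536870912 536870912 536870912 3) ndF3q1 ndF4q1 pcF3 Cut.none Ext.none)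

def k0_pp_113 : ∃ t, chk3 f_pp_113 t 1 1 1 = true :=
  ⟨(l 4), by decide +kernel⟩

theorem c_pp_113 : CertF 536870912 536870912 536870912 536870912 33554432 16777216 true true true .nn 1 1 3
    ndF3q1 ndF4q1 pcF3 Cut.none Ext.none :=
  certFK0 (fam := true) (s1 := true) (s2 := true) (a := 1) (b := 1) (c := 3) (cn := .nn) (n1 := ndF3q1) (n2 := ndF4q1) (pc := pcF3) (cut := Cut.none) (xt := Ext.none) (P1 := 536870912) (W1 := 536870912) (P2 := 536870912) (W2 := 536870912) (P3 := 33554432) (W3 := 16777216)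
    rfl rfl rfl k0_pp_113

noncomputable def f_pp_123 : ℕ → ℕ → ℕ → ℕ → Bool := onCell 536870912 536870912 1073741824 536870912 33554432 16777216
    (rowFK 0 true true true .npn 1 2 3 (qsf 536870912 536870912 1073741824 536870912 3) ndF3q1 ndF4q2 pcF3 Cut.none Ext.none)

def k0_pp_123 : ∃ t, chk3 f_pp_123 t 1 1 1 = true :=
  ⟨(l 4), by decide +kernel⟩

theorem c_pp_123 : CertF 536870912 536870912 1073741824 536870912 33554432 16777216 true true true .npn 1 2 3
    ndF3q1 ndF4q2 pcF3 Cut.none Ext.none :=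
  certFK0 (fam := true) (s1 := true) (s2 := true) (a := 1) (b := 2) (c := 3) (cn := .npn) (n1 := ndF3q1) (n2 := ndF4q2) (pc := pcF3) (cut := Cut.none) (xt := Ext.none) (P1 := 536870912) (W1 := 536870912) (P2 := 1073741824) (W2 := 536870912) (P3 := 33554432) (W3 := 16777216)
    rfl rfl rfl k0_pp_123

noncomputable def f_pp_133 : ℕ → ℕ → ℕ → ℕ → Bool := onCell 536870912 536870912 0 1230186008 33554432 16777216
    (rowFK 0 true true true .dn 1 3 3 (qsf 536870912 536870912 0 1230186008 3) ndF3q1 ndF4q3 pcF3 Cut.none Ext.none)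

def k0_pp_133 : ∃ t, chk3 f_pp_133 t 1 1 1 = true :=
  ⟨(l 4), by decide +kernel⟩

theorem c_pp_133 : CertF 536870912 536870912 0 1230186008 33554432 16777216 true true true .dn 1 3 3
    ndF3q1 ndF4q3 pcF3 Cut.none Ext.none :=
  certFK0 (fam := true) (s1 := true) (s2 := true) (a := 1) (b := 3) (c := 3) (cn := .dn) (n1 := ndF3q1) (n2 := ndF4q3) (pc := pcF3) (cut := Cut.none) (xt := Ext.none) (P1 := 536870912) (W1 := 536870912) (P2 := 0) (W2 := 1230186008) (P3 := 33554432) (W3 := 16777216)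
    rfl rfl rfl k0_pp_133

noncomputable def f_pp_202 : ℕ → ℕ → ℕ → ℕ → Bool := onCell 1073741824 536870912 0 536870912 33554432 16777216
    (rowFK 0 true true true .pp 2 0 2 (qsf 1073741824 536870912 0 536870912 2) ndF3q2 ndF4q0 pcF2 Cut.none Ext.none)

def k0_pp_202 : ∃ t, chk3 f_pp_202 t 1 1 1 = true :=
  ⟨(l 4), by decide +kernel⟩

theorem c_pp_202 : CertF 1073741824 536870912 0 536870912 33554432 16777216 true true true .pp 2 0 2
    ndF3q2 ndF4q0 pcF2 Cut.none Ext.none :=
  certFK0 (fam := true) (s1 := true) (s2 := true) (a := 2) (b := 0) (c := 2) (cn := .pp) (n1 := ndF3q2) (n2 := ndF4q0) (pc := pcF2) (cut := Cut.none) (xt := Ext.none) (P1 := 1073741824) (W1 := 536870912) (P2 := 0) (W2 := 536870912) (P3 := 33554432) (W3 := 16777216)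
    rfl rfl rfl k0_pp_202

noncomputable def f_pp_203 : ℕ → ℕ → ℕ → ℕ → Bool := onCell 1073741824 536870912 0 536870912 33554432 16777216
    (rowFK 0 true true true .up 2 0 3 (qsf 1073741824 536870912 0 536870912 3) ndF3q2 ndF4q0 pcF3 Cut.none Ext.none)

def k0_pp_203 : ∃ t, chk3 f_pp_203 t 1 1 1 = true :=
  ⟨(l 4), by decide +kernel⟩

theorem c_pp_203 : CertF 1073741824 536870912 0 536870912 33554432 16777216 true true true .up 2 0 3
    ndF3q2 ndF4q0 pcF3 Cut.none Ext.none :=
  certFK0 (fam := true) (s1 := true) (s2 := true) (a := 2) (b := 0) (c := 3) (cn := .up) (n1 := ndF3q2) (n2 := ndF4q0) (pc := pcF3) (cut := Cut.none) (xt := Ext.none) (P1 := 1073741824) (W1 := 536870912) (P2 := 0) (W2 := 536870912) (P3 := 33554432) (W3 := 16777216)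
    rfl rfl rfl k0_pp_203

noncomputable def f_pp_213 : ℕ → ℕ → ℕ → ℕ → Bool := onCell 1073741824 536870912 536870912 536870912 33554432 16777216
    (rowFK 0 true true true .pnn 2 1 3 (qsf 1073741824 536870912 536870912 536870912 3) ndF3q2 ndF4q1 pcF3 Cut.none Ext.none)

def k0_pp_213 : ∃ t, chk3 f_pp_213 t 1 1 1 = true :=
  ⟨(l 4), by decide +kernel⟩

theorem c_pp_213 : CertF 1073741824 536870912 536870912 536870912 33554432 16777216 true true true .pnn 2 1 3
    ndF3q2 ndF4q1 pcF3 Cut.none Ext.none :=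
  certFK0 (fam := true) (s1 := true) (s2 := true) (a := 2) (b := 1) (c := 3) (cn := .pnn) (n1 := ndF3q2) (n2 := ndF4q1) (pc := pcF3) (cut := Cut.none) (xt := Ext.none) (P1 := 1073741824) (W1 := 536870912) (P2 := 536870912) (W2 := 536870912) (P3 := 33554432) (W3 := 16777216)
    rfl rfl rfl k0_pp_213

noncomputable def f_pp_303 : ℕ → ℕ → ℕ → ℕ → Bool := onCell 0 1230186008 0 536870912 33554432 16777216
    (rowFK 0 true true true .npn 3 0 3 (qsf 0 1230186008 0 536870912 3) ndF3q3 ndF4q0 pcF3 Cut.none Ext.none)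

def k0_pp_303 : ∃ t, chk3 f_pp_303 t 1 1 1 = true :=
  ⟨(l 4), by decide +kernel⟩

theorem c_pp_303 : CertF 0 1230186008 0 536870912 33554432 16777216 true true true .npn 3 0 3
    ndF3q3 ndF4q0 pcF3 Cut.none Ext.none :=
  certFK0 (fam := true) (s1 := true) (s2 := true) (a := 3) (b := 0) (c := 3) (cn := .npn) (n1 := ndF3q3) (n2 := ndF4q0) (pc := pcF3) (cut := Cut.none) (xt := Ext.none) (P1 := 0) (W1 := 1230186008) (P2 := 0) (W2 := 536870912) (P3 := 33554432) (W3 := 16777216)
    rfl rfl rfl k0_pp_303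

noncomputable def f_pp_313 : ℕ → ℕ → ℕ → ℕ → Bool := onCell 0 1230186008 536870912 536870912 33554432 16777216
    (rowFK 0 true true true .dn 3 1 3 (qsf 0 1230186008 536870912 536870912 3) ndF3q3 ndF4q1 pcF3 Cut.none Ext.none)

def k0_pp_313 : ∃ t, chk3 f_pp_313 t 1 1 1 = true :=
  ⟨(l 4), by decide +kernel⟩

theorem c_pp_313 : CertF 0 1230186008 536870912 536870912 33554432 16777216 true true true .dn 3 1 3
    ndF3q3 ndF4q1 pcF3 Cut.none Ext.none :=
  certFK0 (fam := true) (s1 := true) (s2 := true) (a := 3) (b := 1) (c := 3) (cn := .dn) (n1 := ndF3q3) (n2 := ndF4q1) (pc := pcF3) (cut := Cut.none) (xt := Ext.none) (P1 := 0) (W1 := 1230186008) (P2 := 536870912) (W2 := 536870912) (P3 := 33554432) (W3 := 16777216)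
    rfl rfl rfl k0_pp_313

noncomputable def f_pm_001 : ℕ → ℕ → ℕ → ℕ → Bool := onCell 0 536870912 0 536870912 33554432 16777216
    (rowFK 0 true true false .up 0 0 1 (qsf 0 536870912 0 536870912 1) ndF3q0 ndF4q0 pcF1 Cut.none Ext.none)

def k0_pm_001 : ∃ t, chk3 f_pm_001 t 1 1 1 = true :=
  ⟨(l 3), by decide +kernel⟩

theorem c_pm_001 : CertF 0 536870912 0 536870912 33554432 16777216 true true false .up 0 0 1
    ndF3q0 ndF4q0 pcF1 Cut.none Ext.none :=
  certFK0 (fam := true) (s1 := true) (s2 := false) (a := 0) (b := 0) (c := 1) (cn := .up) (n1 := ndF3q0) (n2 := ndF4q0) (pc := pcF1) (cut := Cut.none) (xt := Ext.none) (P1 := 0) (W1 := 536870912) (P2 := 0) (W2 := 536870912) (P3 := 33554432) (W3 := 16777216)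
    rfl rfl rfl k0_pm_001

noncomputable def f_pm_011 : ℕ → ℕ → ℕ → ℕ → Bool := onCell 0 536870912 536870912 536870912 33554432 16777216
    (rowFK 1 true true false .pnn 0 1 1 (qsf 0 536870912 536870912 536870912 1) ndF3q0 ndF4q1 pcF1 Cut.none Ext.none)

def k0_pm_011 : ∃ t, chk3 f_pm_011 t 1 1 1 = true :=
  ⟨(l 3), by decide +kernel⟩

theorem c_pm_011 : CertF 0 536870912 536870912 536870912 33554432 16777216 true true false .pnn 0 1 1
    ndF3q0 ndF4q1 pcF1 Cut.none Ext.none :=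
  certFK1 (fam := true) (s1 := true) (s2 := false) (a := 0) (b := 1) (c := 1) (cn := .pnn) (n1 := ndF3q0) (n2 := ndF4q1) (pc := pcF1) (cut := Cut.none) (xt := Ext.none) (P1 := 0) (W1 := 536870912) (P2 := 536870912) (W2 := 536870912) (P3 := 33554432) (W3 := 16777216)
    rfl rfl rfl (fun _ => rfl) k0_pm_011

noncomputable def f_pm_012 : ℕ → ℕ → ℕ → ℕ → Bool := onCell 1073741824 536870912 536870912 536870912 33554432 16777216
    (rowFK 2 true true false .pnp 0 1 2 (qsf 0 536870912 536870912 536870912 2) ndF3q0 ndF4q1 pcF2 Cut.none Ext.none)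

def k0_pm_012 : ∃ t, chk3 f_pm_012 t 1 1 1 = true :=
  ⟨(a (a (l 3) (b (a (a (a (l 3) (b (l 2) (a (l 18659256) (l 324442217463)))) (b (l 2) (l 18640336))) (b (l 2) (l 18558536))) (a (a (a (l 3) (a (l 3) (b (c (l 19600840) (l 18974536)) (c (l 20243496) (l 19497384))))) (b (l 19156032) (c (l 20114016) (l 19506424)))) (b (l 19052984) (c (l 19796776) (l 19515088)))))) (b (b (l 2) (l 18411816)) (b (l 18885928) (a (l 19292424) (l 19130200))))), by decide +kernel⟩

theorem c_pm_012 : CertF 0 536870912 536870912 536870912 33554432 16777216 true true false .pnp 0 1 2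
    ndF3q0 ndF4q1 pcF2 Cut.none Ext.none :=
  certFK2 (fam := true) (s1 := true) (s2 := false) (a := 0) (b := 1) (c := 2) (cn := .pnp) (n1 := ndF3q0) (n2 := ndF4q1) (pc := pcF2) (cut := Cut.none) (xt := Ext.none) (P1 := 0) (W1 := 536870912) (P2 := 536870912) (W2 := 536870912) (P3 := 33554432) (W3 := 16777216)
    rfl rfl rfl (fun _ => rfl) k0_pm_012

noncomputable def f_pm_022 : ℕ → ℕ → ℕ → ℕ → Bool := onCell 0 536870912 1073741824 536870912 33554432 16777216
    (rowFK 1 true true false .pp 0 2 2 (qsf 0 536870912 1073741824 536870912 2) ndF3q0 ndF4q2 pcF2 Cut.none Ext.none)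

def k0_pm_022 : ∃ t, chk3 f_pm_022 t 1 1 1 = true :=
  ⟨(b (b (l 3) (a (b (b (b (l 3) (b (l 3) (a (c (l 20740800) (b (l 3) (l 19193552))) (c (l 20409624) (l 19918712))))) (a (c (l 20669296) (l 19131240)) (l 19664712))) (a (c (l 20483776) (l 18950672)) (c (l 20207328) (l 19633328)))) (b (l 1) (a (l 19472176) (l 1))))) (a (b (a (c (l 20226848) (b (l 18675568) (l 18393376))) (c (l 19885008) (l 19202816))) (a (a (l 18437480) (l 18516680)) (c (l 19421584) (l 18576808)))) (a (b (c (l 19455696) (l 19776912)) (c (l 19055728) (l 19181984))) (b (l 19585088) (l 19176968))))), by decide +kernel⟩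

theorem c_pm_022 : CertF 0 536870912 1073741824 536870912 33554432 16777216 true true false .pp 0 2 2
    ndF3q0 ndF4q2 pcF2 Cut.none Ext.none :=
  certFK1 (fam := true) (s1 := true) (s2 := false) (a := 0) (b := 2) (c := 2) (cn := .pp) (n1 := ndF3q0) (n2 := ndF4q2) (pc := pcF2) (cut := Cut.none) (xt := Ext.none) (P1 := 0) (W1 := 536870912) (P2 := 1073741824) (W2 := 536870912) (P3 := 33554432) (W3 := 16777216)
    rfl rfl rfl (fun _ => rfl) k0_pm_022

noncomputable def f_pm_023 : ℕ → ℕ → ℕ → ℕ → Bool := onCell 1610612736 536870912 1073741824 536870912 33554432 16777216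
    (rowFK 2 true true false .up 0 2 3 (qsf 0 536870912 1073741824 536870912 3) ndF3q0 ndF4q2 pcF3 Cut.none Ext.none)

def k0_pm_023 : ∃ t, chk3 f_pm_023 t 1 1 1 = true :=
  ⟨(b (a (b (l 19318256) (a (l 18411920) (a (l 18606128) (l 18671904)))) (a (b (l 2) (a (l 18642176) (l 2))) (l 2))) (b (a (a (c (l 17995064) (l 18070008)) (a (l 17454296) (l 17510048))) (a (c (l 17303424) (l 18142712)) (a (l 17669208) (l 2)))) (a (a (a (c (l 18324704) (l 17039528)) (l 17461576)) (a (l 17805360) (b (l 17849816) (l 17999184)))) (a (a (l 17575232) (l 17102872)) (a (l 16878512) (a (l 16935392) (a (l 16958864) (l 4)))))))), by decide +kernel⟩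

theorem c_pm_023 : CertF 0 536870912 1073741824 536870912 33554432 16777216 true true false .up 0 2 3
    ndF3q0 ndF4q2 pcF3 Cut.none Ext.none :=
  certFK2 (fam := true) (s1 := true) (s2 := false) (a := 0) (b := 2) (c := 3) (cn := .up) (n1 := ndF3q0) (n2 := ndF4q2) (pc := pcF3) (cut := Cut.none) (xt := Ext.none) (P1 := 0) (W1 := 536870912) (P2 := 1073741824) (W2 := 536870912) (P3 := 33554432) (W3 := 16777216)
    rfl rfl rfl (fun _ => rfl) k0_pm_023

noncomputable def f_pm_033 : ℕ → ℕ → ℕ → ℕ → Bool := onCell 1610612736 536870912 0 1230186008 33554432 16777216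
    (rowFK 2 true true false .pnn 0 3 3 (qsf 0 536870912 0 1230186008 3) ndF3q0 ndF4q3 pcF3 Cut.none Ext.none)

def k0_pm_033 : ∃ t, chk3 f_pm_033 t 1 1 1 = true :=
  ⟨(a (b (l 1) (b (b (l 1) (a (l 1) (a (l 1) (c (l 18545856) (l 17058464))))) (b (a (l 1) (b (l 17983320) (l 18009280))) (a (a (b (l 1) (l 17480504)) (b (l 18176008) (l 17938464))) (a (b (l 18283448) (l 18223184)) (l 17961400)))))) (a (b (l 1) (b (b (a (l 1) (l 17835672)) (a (l 17699136) (l 17730840))) (b (a (l 17446680) (l 17461760)) (a (l 17511688) (l 17267448))))) (b (b (l 4) (l 4)) (b (a (b (l 4) (l 17757544)) (l 4)) (a (b (l 17440216) (l 17112720)) (a (b (l 4) (l 17133104)) (l 4))))))), by decide +kernel⟩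

theorem c_pm_033 : CertF 0 536870912 0 1230186008 33554432 16777216 true true false .pnn 0 3 3
    ndF3q0 ndF4q3 pcF3 Cut.none Ext.none :=
  certFK2 (fam := true) (s1 := true) (s2 := false) (a := 0) (b := 3) (c := 3) (cn := .pnn) (n1 := ndF3q0) (n2 := ndF4q3) (pc := pcF3) (cut := Cut.none) (xt := Ext.none) (P1 := 0) (W1 := 536870912) (P2 := 0) (W2 := 1230186008) (P3 := 33554432) (W3 := 16777216)
    rfl rfl rfl (fun _ => rfl) k0_pm_033

noncomputable def f_pm_101 : ℕ → ℕ → ℕ → ℕ → Bool := onCell 536870912 536870912 536870912 536870912 33554432 16777216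
    (rowFK 1 true true false .npn 1 0 1 (qsf 536870912 536870912 0 536870912 1) ndF3q1 ndF4q0 pcF1 Cut.none Ext.none)

def k0_pm_101 : ∃ t, chk3 f_pm_101 t 1 1 1 = true :=
  ⟨(l 3), by decide +kernel⟩

theorem c_pm_101 : CertF 536870912 536870912 0 536870912 33554432 16777216 true true false .npn 1 0 1
    ndF3q1 ndF4q0 pcF1 Cut.none Ext.none :=
  certFK1 (fam := true) (s1 := true) (s2 := false) (a := 1) (b := 0) (c := 1) (cn := .npn) (n1 := ndF3q1) (n2 := ndF4q0) (pc := pcF1) (cut := Cut.none) (xt := Ext.none) (P1 := 536870912) (W1 := 536870912) (P2 := 0) (W2 := 536870912) (P3 := 33554432) (W3 := 16777216)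
    rfl rfl rfl (fun _ => rfl) k0_pm_101

noncomputable def f_pm_102 : ℕ → ℕ → ℕ → ℕ → Bool := onCell 1073741824 536870912 0 536870912 33554432 16777216
    (rowFK 2 true true false .npp 1 0 2 (qsf 536870912 536870912 0 536870912 2) ndF3q1 ndF4q0 pcF2 Cut.none Ext.none)

def k0_pm_102 : ∃ t, chk3 f_pm_102 t 1 1 1 = true :=
  ⟨(a (b (a (a (l 3) (l 19683832)) (a (a (a (l 19628200) (a (l 19621632) (l 19621784))) (l 19649344)) (l 19754840))) (a (l 3) (a (a (a (l 19088032) (a (l 19071928) (l 19048160))) (l 19040768)) (l 19042952)))) (b (l 20153376) (b (l 19708344) (l 19083616)))), by decide +kernel⟩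

theorem c_pm_102 : CertF 536870912 536870912 0 536870912 33554432 16777216 true true false .npp 1 0 2
    ndF3q1 ndF4q0 pcF2 Cut.none Ext.none :=
  certFK2 (fam := true) (s1 := true) (s2 := false) (a := 1) (b := 0) (c := 2) (cn := .npp) (n1 := ndF3q1) (n2 := ndF4q0) (pc := pcF2) (cut := Cut.none) (xt := Ext.none) (P1 := 536870912) (W1 := 536870912) (P2 := 0) (W2 := 536870912) (P3 := 33554432) (W3 := 16777216)
    rfl rfl rfl (fun _ => rfl) k0_pm_102

noncomputable def f_pm_112 : ℕ → ℕ → ℕ → ℕ → Bool := onCell 1073741824 536870912 536870912 536870912 33554432 16777216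
    (rowFK 2 true true false .dn 1 1 2 (qsf 536870912 536870912 536870912 536870912 2) ndF3q1 ndF4q1 pcF2 Cut.none Ext.none)

def k0_pm_112 : ∃ t, chk3 f_pm_112 t 1 1 1 = true :=
  ⟨(a (a (l 3) (b (a (a (a (l 3) (l 19233560)) (l 18936584)) (l 18879560)) (a (l 1) (l 19181320)))) (b (l 18697800) (l 18693392))), by decide +kernel⟩

theorem c_pm_112 : CertF 536870912 536870912 536870912 536870912 33554432 16777216 true true false .dn 1 1 2
    ndF3q1 ndF4q1 pcF2 Cut.none Ext.none :=
  certFK2 (fam := true) (s1 := true) (s2 := false) (a := 1) (b := 1) (c := 2) (cn := .dn) (n1 := ndF3q1) (n2 := ndF4q1) (pc := pcF2) (cut := Cut.none) (xt := Ext.none) (P1 := 536870912) (W1 := 536870912) (P2 := 536870912) (W2 := 536870912) (P3 := 33554432) (W3 := 16777216)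
    rfl rfl rfl (fun _ => rfl) k0_pm_112

noncomputable def f_pm_113 : ℕ → ℕ → ℕ → ℕ → Bool := onCell 536870912 536870912 536870912 536870912 33554432 16777216
    (rowFK 0 true true false .nn 1 1 3 (qsf 536870912 536870912 536870912 536870912 3) ndF3q1 ndF4q1 pcF3 Cut.none Ext.none)

def k0_pm_113 : ∃ t, chk3 f_pm_113 t 1 1 1 = true :=
  ⟨(a (b (l 19175472) (l 18439280)) (b (l 19219008) (b (l 18278208) (a (l 17574488) (b (l 17575656) (a (l 17195864) (b (l 17177168) (a (l 17007440) (b (l 16976248) (a (l 16899280) (b (l 16876808) (a (l 16839096) (b (l 16827048) (l 16799392)))))))))))))), by decide +kernel⟩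

theorem c_pm_113 : CertF 536870912 536870912 536870912 536870912 33554432 16777216 true true false .nn 1 1 3
    ndF3q1 ndF4q1 pcF3 Cut.none Ext.none :=
  certFK0 (fam := true) (s1 := true) (s2 := false) (a := 1) (b := 1) (c := 3) (cn := .nn) (n1 := ndF3q1) (n2 := ndF4q1) (pc := pcF3) (cut := Cut.none) (xt := Ext.none) (P1 := 536870912) (W1 := 536870912) (P2 := 536870912) (W2 := 536870912) (P3 := 33554432) (W3 := 16777216)
    rfl rfl rfl k0_pm_113

noncomputable def f_pm_123 : ℕ → ℕ → ℕ → ℕ → Bool := onCell 1610612736 536870912 1073741824 536870912 33554432 16777216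
    (rowFK 2 true true false .npn 1 2 3 (qsf 536870912 536870912 1073741824 536870912 3) ndF3q1 ndF4q2 pcF3 Cut.none Ext.none)

def k0_pm_123 : ∃ t, chk3 f_pm_123 t 1 1 1 = true :=
  ⟨(a (b (b (l 18162528) (a (l 17969520) (l 471945273991))) (b (a (l 1) (a (l 1) (l 17672448))) (l 1))) (a (b (b (b (l 17673680) (l 17524408)) (a (l 17327232) (l 17618848))) (b (l 17671424) (l 17624640))) (a (b (b (l 17062280) (l 17399848)) (l 17567704)) (a (b (l 17190544) (l 17524552)) (b (a (l 16965456) (a (l 16958464) (b (l 16849920) (l 17094256)))) (a (l 17547872) (a (l 17589432) (l 17628704)))))))), by decide +kernel⟩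

theorem c_pm_123 : CertF 536870912 536870912 1073741824 536870912 33554432 16777216 true true false .npn 1 2 3
    ndF3q1 ndF4q2 pcF3 Cut.none Ext.none :=
  certFK2 (fam := true) (s1 := true) (s2 := false) (a := 1) (b := 2) (c := 3) (cn := .npn) (n1 := ndF3q1) (n2 := ndF4q2) (pc := pcF3) (cut := Cut.none) (xt := Ext.none) (P1 := 536870912) (W1 := 536870912) (P2 := 1073741824) (W2 := 536870912) (P3 := 33554432) (W3 := 16777216)
    rfl rfl rfl (fun _ => rfl) k0_pm_123

noncomputable def f_pm_133 : ℕ → ℕ → ℕ → ℕ → Bool := onCell 536870912 536870912 0 1230186008 33554432 16777216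
    (rowFK 0 true true false .dn 1 3 3 (qsf 536870912 536870912 0 1230186008 3) ndF3q1 ndF4q3 pcF3 Cut.none Ext.none)

def k0_pm_133 : ∃ t, chk3 f_pm_133 t 1 1 1 = true :=
  ⟨(b (l 2) (b (l 2) (a (l 4) (l 2)))), by decide +kernel⟩

theorem c_pm_133 : CertF 536870912 536870912 0 1230186008 33554432 16777216 true true false .dn 1 3 3
    ndF3q1 ndF4q3 pcF3 Cut.none Ext.none :=
  certFK0 (fam := true) (s1 := true) (s2 := false) (a := 1) (b := 3) (c := 3) (cn := .dn) (n1 := ndF3q1) (n2 := ndF4q3) (pc := pcF3) (cut := Cut.none) (xt := Ext.none) (P1 := 536870912) (W1 := 536870912) (P2 := 0) (W2 := 1230186008) (P3 := 33554432) (W3 := 16777216)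
    rfl rfl rfl k0_pm_133

noncomputable def f_pm_202 : ℕ → ℕ → ℕ → ℕ → Bool := onCell 1073741824 536870912 0 536870912 33554432 16777216
    (rowFK 2 true true false .pp 2 0 2 (qsf 1073741824 536870912 0 536870912 2) ndF3q2 ndF4q0 pcF2 Cut.none Ext.none)

def k0_pm_202 : ∃ t, chk3 f_pm_202 t 1 1 1 = true :=
  ⟨(a (b (a (a (a (a (a (l 19759936) (l 19734160)) (l 19694656)) (l 19612816)) (l 19459488)) (l 19160248)) (a (l 1) (l 632472582135))) (a (b (l 18766536) (l 18690048)) (b (l 18331400) (l 18274096)))), by decide +kernel⟩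

theorem c_pm_202 : CertF 1073741824 536870912 0 536870912 33554432 16777216 true true false .pp 2 0 2
    ndF3q2 ndF4q0 pcF2 Cut.none Ext.none :=
  certFK2 (fam := true) (s1 := true) (s2 := false) (a := 2) (b := 0) (c := 2) (cn := .pp) (n1 := ndF3q2) (n2 := ndF4q0) (pc := pcF2) (cut := Cut.none) (xt := Ext.none) (P1 := 1073741824) (W1 := 536870912) (P2 := 0) (W2 := 536870912) (P3 := 33554432) (W3 := 16777216)
    rfl rfl rfl (fun _ => rfl) k0_pm_202

noncomputable def f_pm_203 : ℕ → ℕ → ℕ → ℕ → Bool := onCell 1610612736 536870912 0 536870912 33554432 16777216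
    (rowFK 2 true true false .up 2 0 3 (qsf 1073741824 536870912 0 536870912 3) ndF3q2 ndF4q0 pcF3 Cut.none Ext.none)

def k0_pm_203 : ∃ t, chk3 f_pm_203 t 1 1 1 = true :=
  ⟨(b (a (a (l 17426904) (l 17088936)) (a (l 4) (l 2))) (a (a (l 17705976) (l 17405488)) (a (l 17232456) (l 4)))), by decide +kernel⟩

theorem c_pm_203 : CertF 1073741824 536870912 0 536870912 33554432 16777216 true true false .up 2 0 3
    ndF3q2 ndF4q0 pcF3 Cut.none Ext.none :=
  certFK2 (fam := true) (s1 := true) (s2 := false) (a := 2) (b := 0) (c := 3) (cn := .up) (n1 := ndF3q2) (n2 := ndF4q0) (pc := pcF3) (cut := Cut.none) (xt := Ext.none) (P1 := 1073741824) (W1 := 536870912) (P2 := 0) (W2 := 536870912) (P3 := 33554432) (W3 := 16777216)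
    rfl rfl rfl (fun _ => rfl) k0_pm_203

noncomputable def f_pm_213 : ℕ → ℕ → ℕ → ℕ → Bool := onCell 1610612736 536870912 536870912 536870912 33554432 16777216
    (rowFK 2 true true false .pnn 2 1 3 (qsf 1073741824 536870912 536870912 536870912 3) ndF3q2 ndF4q1 pcF3 Cut.none Ext.none)

def k0_pm_213 : ∃ t, chk3 f_pm_213 t 1 1 1 = true :=
  ⟨(b (a (a (b (l 17783064) (l 17936272)) (b (l 17480656) (l 17473376))) (a (a (l 17124704) (l 17024392)) (l 4))) (a (a (l 1) (b (l 17957456) (l 1))) (a (b (l 17921192) (l 622806968599)) (a (l 17691360) (l 4))))), by decide +kernel⟩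

theorem c_pm_213 : CertF 1073741824 536870912 536870912 536870912 33554432 16777216 true true false .pnn 2 1 3
    ndF3q2 ndF4q1 pcF3 Cut.none Ext.none :=
  certFK2 (fam := true) (s1 := true) (s2 := false) (a := 2) (b := 1) (c := 3) (cn := .pnn) (n1 := ndF3q2) (n2 := ndF4q1) (pc := pcF3) (cut := Cut.none) (xt := Ext.none) (P1 := 1073741824) (W1 := 536870912) (P2 := 536870912) (W2 := 536870912) (P3 := 33554432) (W3 := 16777216)
    rfl rfl rfl (fun _ => rfl) k0_pm_213

noncomputable def f_pm_303 : ℕ → ℕ → ℕ → ℕ → Bool := onCell 0 1230186008 0 536870912 33554432 16777216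
    (rowFK 0 true true false .npn 3 0 3 (qsf 0 1230186008 0 536870912 3) ndF3q3 ndF4q0 pcF3 Cut.none Ext.none)

def k0_pm_303 : ∃ t, chk3 f_pm_303 t 1 1 1 = true :=
  ⟨(a (l 4) (a (l 4) (b (a (l 4) (b (a (l 17305928) (b (l 17013440) (l 17052336))) (a (l 4) (l 17416304)))) (l 4)))), by decide +kernel⟩

theorem c_pm_303 : CertF 0 1230186008 0 536870912 33554432 16777216 true true false .npn 3 0 3
    ndF3q3 ndF4q0 pcF3 Cut.none Ext.none :=
  certFK0 (fam := true) (s1 := true) (s2 := false) (a := 3) (b := 0) (c := 3) (cn := .npn) (n1 := ndF3q3) (n2 := ndF4q0) (pc := pcF3) (cut := Cut.none) (xt := Ext.none) (P1 := 0) (W1 := 1230186008) (P2 := 0) (W2 := 536870912) (P3 := 33554432) (W3 := 16777216)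
    rfl rfl rfl k0_pm_303

noncomputable def f_pm_313 : ℕ → ℕ → ℕ → ℕ → Bool := onCell 0 1230186008 536870912 536870912 33554432 16777216
    (rowFK 0 true true false .dn 3 1 3 (qsf 0 1230186008 536870912 536870912 3) ndF3q3 ndF4q1 pcF3 Cut.none Ext.none)

def k0_pm_313 : ∃ t, chk3 f_pm_313 t 1 1 1 = true :=
  ⟨(a (l 2) (l 4)), by decide +kernel⟩

theorem c_pm_313 : CertF 0 1230186008 536870912 536870912 33554432 16777216 true true false .dn 3 1 3
    ndF3q3 ndF4q1 pcF3 Cut.none Ext.none :=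
  certFK0 (fam := true) (s1 := true) (s2 := false) (a := 3) (b := 1) (c := 3) (cn := .dn) (n1 := ndF3q3) (n2 := ndF4q1) (pc := pcF3) (cut := Cut.none) (xt := Ext.none) (P1 := 0) (W1 := 1230186008) (P2 := 536870912) (W2 := 536870912) (P3 := 33554432) (W3 := 16777216)
    rfl rfl rfl k0_pm_313

noncomputable def f_mm_001 : ℕ → ℕ → ℕ → ℕ → Bool := onCell 0 536870912 0 536870912 33554432 16777216
    (rowFK 0 true false false .up 0 0 1 (qsf 0 536870912 0 536870912 1) ndF3q0 ndF4q0 pcF1 Cut.none Ext.none)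

def k0_mm_001 : ∃ t, chk3 f_mm_001 t 1 1 1 = true :=
  ⟨(l 4), by decide +kernel⟩

theorem c_mm_001 : CertF 0 536870912 0 536870912 33554432 16777216 true false false .up 0 0 1
    ndF3q0 ndF4q0 pcF1 Cut.none Ext.none :=
  certFK0 (fam := true) (s1 := false) (s2 := false) (a := 0) (b := 0) (c := 1) (cn := .up) (n1 := ndF3q0) (n2 := ndF4q0) (pc := pcF1) (cut := Cut.none) (xt := Ext.none) (P1 := 0) (W1 := 536870912) (P2 := 0) (W2 := 536870912) (P3 := 33554432) (W3 := 16777216)
    rfl rfl rfl k0_mm_001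

noncomputable def f_mm_011 : ℕ → ℕ → ℕ → ℕ → Bool := onCell 0 536870912 536870912 536870912 33554432 16777216
    (rowFK 0 true false false .pnn 0 1 1 (qsf 0 536870912 536870912 536870912 1) ndF3q0 ndF4q1 pcF1 Cut.none Ext.none)

def k0_mm_011 : ∃ t, chk3 f_mm_011 t 1 1 1 = true :=
  ⟨(l 4), by decide +kernel⟩

theorem c_mm_011 : CertF 0 536870912 536870912 536870912 33554432 16777216 true false false .pnn 0 1 1
    ndF3q0 ndF4q1 pcF1 Cut.none Ext.none :=
  certFK0 (fam := true) (s1 := false) (s2 := false) (a := 0) (b := 1) (c := 1) (cn := .pnn) (n1 := ndF3q0) (n2 := ndF4q1) (pc := pcF1) (cut := Cut.none) (xt := Ext.none) (P1 := 0) (W1 := 536870912) (P2 := 536870912) (W2 := 536870912) (P3 := 33554432) (W3 := 16777216)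
    rfl rfl rfl k0_mm_011

noncomputable def f_mm_012 : ℕ → ℕ → ℕ → ℕ → Bool := onCell 0 536870912 536870912 536870912 33554432 16777216
    (rowFK 0 true false false .pnp 0 1 2 (qsf 0 536870912 536870912 536870912 2) ndF3q0 ndF4q1 pcF2 Cut.none Ext.none)

def k0_mm_012 : ∃ t, chk3 f_mm_012 t 1 1 1 = true :=
  ⟨(l 4), by decide +kernel⟩

theorem c_mm_012 : CertF 0 536870912 536870912 536870912 33554432 16777216 true false false .pnp 0 1 2
    ndF3q0 ndF4q1 pcF2 Cut.none Ext.none :=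
  certFK0 (fam := true) (s1 := false) (s2 := false) (a := 0) (b := 1) (c := 2) (cn := .pnp) (n1 := ndF3q0) (n2 := ndF4q1) (pc := pcF2) (cut := Cut.none) (xt := Ext.none) (P1 := 0) (W1 := 536870912) (P2 := 536870912) (W2 := 536870912) (P3 := 33554432) (W3 := 16777216)
    rfl rfl rfl k0_mm_012

noncomputable def f_mm_022 : ℕ → ℕ → ℕ → ℕ → Bool := onCell 0 536870912 1073741824 536870912 33554432 16777216
    (rowFK 0 true false false .pp 0 2 2 (qsf 0 536870912 1073741824 536870912 2) ndF3q0 ndF4q2 pcF2 Cut.none Ext.none)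

def k0_mm_022 : ∃ t, chk3 f_mm_022 t 1 1 1 = true :=
  ⟨(l 4), by decide +kernel⟩

theorem c_mm_022 : CertF 0 536870912 1073741824 536870912 33554432 16777216 true false false .pp 0 2 2
    ndF3q0 ndF4q2 pcF2 Cut.none Ext.none :=
  certFK0 (fam := true) (s1 := false) (s2 := false) (a := 0) (b := 2) (c := 2) (cn := .pp) (n1 := ndF3q0) (n2 := ndF4q2) (pc := pcF2) (cut := Cut.none) (xt := Ext.none) (P1 := 0) (W1 := 536870912) (P2 := 1073741824) (W2 := 536870912) (P3 := 33554432) (W3 := 16777216)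
    rfl rfl rfl k0_mm_022

noncomputable def f_mm_023 : ℕ → ℕ → ℕ → ℕ → Bool := onCell 0 536870912 1073741824 536870912 33554432 16777216
    (rowFK 0 true false false .up 0 2 3 (qsf 0 536870912 1073741824 536870912 3) ndF3q0 ndF4q2 pcF3 Cut.none Ext.none)

def k0_mm_023 : ∃ t, chk3 f_mm_023 t 1 1 1 = true :=
  ⟨(l 4), by decide +kernel⟩

theorem c_mm_023 : CertF 0 536870912 1073741824 536870912 33554432 16777216 true false false .up 0 2 3
    ndF3q0 ndF4q2 pcF3 Cut.none Ext.none :=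
  certFK0 (fam := true) (s1 := false) (s2 := false) (a := 0) (b := 2) (c := 3) (cn := .up) (n1 := ndF3q0) (n2 := ndF4q2) (pc := pcF3) (cut := Cut.none) (xt := Ext.none) (P1 := 0) (W1 := 536870912) (P2 := 1073741824) (W2 := 536870912) (P3 := 33554432) (W3 := 16777216)
    rfl rfl rfl k0_mm_023

noncomputable def f_mm_033 : ℕ → ℕ → ℕ → ℕ → Bool := onCell 0 536870912 0 1230186008 33554432 16777216
    (rowFK 0 true false false .pnn 0 3 3 (qsf 0 536870912 0 1230186008 3) ndF3q0 ndF4q3 pcF3 Cut.none Ext.none)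

def k0_mm_033 : ∃ t, chk3 f_mm_033 t 1 1 1 = true :=
  ⟨(l 4), by decide +kernel⟩

theorem c_mm_033 : CertF 0 536870912 0 1230186008 33554432 16777216 true false false .pnn 0 3 3
    ndF3q0 ndF4q3 pcF3 Cut.none Ext.none :=
  certFK0 (fam := true) (s1 := false) (s2 := false) (a := 0) (b := 3) (c := 3) (cn := .pnn) (n1 := ndF3q0) (n2 := ndF4q3) (pc := pcF3) (cut := Cut.none) (xt := Ext.none) (P1 := 0) (W1 := 536870912) (P2 := 0) (W2 := 1230186008) (P3 := 33554432) (W3 := 16777216)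
    rfl rfl rfl k0_mm_033

noncomputable def f_mm_101 : ℕ → ℕ → ℕ → ℕ → Bool := onCell 536870912 536870912 0 536870912 33554432 16777216
    (rowFK 0 true false false .npn 1 0 1 (qsf 536870912 536870912 0 536870912 1) ndF3q1 ndF4q0 pcF1 Cut.none Ext.none)

def k0_mm_101 : ∃ t, chk3 f_mm_101 t 1 1 1 = true :=
  ⟨(l 4), by decide +kernel⟩

theorem c_mm_101 : CertF 536870912 536870912 0 536870912 33554432 16777216 true false false .npn 1 0 1
    ndF3q1 ndF4q0 pcF1 Cut.none Ext.none :=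
  certFK0 (fam := true) (s1 := false) (s2 := false) (a := 1) (b := 0) (c := 1) (cn := .npn) (n1 := ndF3q1) (n2 := ndF4q0) (pc := pcF1) (cut := Cut.none) (xt := Ext.none) (P1 := 536870912) (W1 := 536870912) (P2 := 0) (W2 := 536870912) (P3 := 33554432) (W3 := 16777216)
    rfl rfl rfl k0_mm_101

noncomputable def f_mm_102 : ℕ → ℕ → ℕ → ℕ → Bool := onCell 536870912 536870912 0 536870912 33554432 16777216
    (rowFK 0 true false false .npp 1 0 2 (qsf 536870912 536870912 0 536870912 2) ndF3q1 ndF4q0 pcF2 Cut.none Ext.none)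

def k0_mm_102 : ∃ t, chk3 f_mm_102 t 1 1 1 = true :=
  ⟨(l 4), by decide +kernel⟩

theorem c_mm_102 : CertF 536870912 536870912 0 536870912 33554432 16777216 true false false .npp 1 0 2
    ndF3q1 ndF4q0 pcF2 Cut.none Ext.none :=
  certFK0 (fam := true) (s1 := false) (s2 := false) (a := 1) (b := 0) (c := 2) (cn := .npp) (n1 := ndF3q1) (n2 := ndF4q0) (pc := pcF2) (cut := Cut.none) (xt := Ext.none) (P1 := 536870912) (W1 := 536870912) (P2 := 0) (W2 := 536870912) (P3 := 33554432) (W3 := 16777216)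
    rfl rfl rfl k0_mm_102

noncomputable def f_mm_112 : ℕ → ℕ → ℕ → ℕ → Bool := onCell 536870912 536870912 536870912 536870912 33554432 16777216
    (rowFK 0 true false false .dn 1 1 2 (qsf 536870912 536870912 536870912 536870912 2) ndF3q1 ndF4q1 pcF2 Cut.none Ext.none)

def k0_mm_112 : ∃ t, chk3 f_mm_112 t 1 1 1 = true :=
  ⟨(l 4), by decide +kernel⟩

theorem c_mm_112 : CertF 536870912 536870912 536870912 536870912 33554432 16777216 true false false .dn 1 1 2
    ndF3q1 ndF4q1 pcF2 Cut.none Ext.none :=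
  certFK0 (fam := true) (s1 := false) (s2 := false) (a := 1) (b := 1) (c := 2) (cn := .dn) (n1 := ndF3q1) (n2 := ndF4q1) (pc := pcF2) (cut := Cut.none) (xt := Ext.none) (P1 := 536870912) (W1 := 536870912) (P2 := 536870912) (W2 := 536870912) (P3 := 33554432) (W3 := 16777216)
    rfl rfl rfl k0_mm_112

noncomputable def f_mm_113 : ℕ → ℕ → ℕ → ℕ → Bool := onCell 536870912 536870912 536870912 536870912 33554432 16777216
    (rowFK 0 true false false .nn 1 1 3 (qsf 536870912 536870912 536870912 536870912 3) ndF3q1 ndF4q1 pcF3 Cut.none Ext.none)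

def k0_mm_113 : ∃ t, chk3 f_mm_113 t 1 1 1 = true :=
  ⟨(l 4), by decide +kernel⟩

theorem c_mm_113 : CertF 536870912 536870912 536870912 536870912 33554432 16777216 true false false .nn 1 1 3
    ndF3q1 ndF4q1 pcF3 Cut.none Ext.none :=
  certFK0 (fam := true) (s1 := false) (s2 := false) (a := 1) (b := 1) (c := 3) (cn := .nn) (n1 := ndF3q1) (n2 := ndF4q1) (pc := pcF3) (cut := Cut.none) (xt := Ext.none) (P1 := 536870912) (W1 := 536870912) (P2 := 536870912) (W2 := 536870912) (P3 := 33554432) (W3 := 16777216)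
    rfl rfl rfl k0_mm_113

noncomputable def f_mm_123 : ℕ → ℕ → ℕ → ℕ → Bool := onCell 536870912 536870912 1073741824 536870912 33554432 16777216
    (rowFK 0 true false false .npn 1 2 3 (qsf 536870912 536870912 1073741824 536870912 3) ndF3q1 ndF4q2 pcF3 Cut.none Ext.none)

def k0_mm_123 : ∃ t, chk3 f_mm_123 t 1 1 1 = true :=
  ⟨(l 4), by decide +kernel⟩

theorem c_mm_123 : CertF 536870912 536870912 1073741824 536870912 33554432 16777216 true false false .npn 1 2 3
    ndF3q1 ndF4q2 pcF3 Cut.none Ext.none :=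
  certFK0 (fam := true) (s1 := false) (s2 := false) (a := 1) (b := 2) (c := 3) (cn := .npn) (n1 := ndF3q1) (n2 := ndF4q2) (pc := pcF3) (cut := Cut.none) (xt := Ext.none) (P1 := 536870912) (W1 := 536870912) (P2 := 1073741824) (W2 := 536870912) (P3 := 33554432) (W3 := 16777216)
    rfl rfl rfl k0_mm_123

noncomputable def f_mm_133 : ℕ → ℕ → ℕ → ℕ → Bool := onCell 536870912 536870912 0 1230186008 33554432 16777216
    (rowFK 0 true false false .dn 1 3 3 (qsf 536870912 536870912 0 1230186008 3) ndF3q1 ndF4q3 pcF3 Cut.none Ext.none)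

def k0_mm_133 : ∃ t, chk3 f_mm_133 t 1 1 1 = true :=
  ⟨(l 4), by decide +kernel⟩

theorem c_mm_133 : CertF 536870912 536870912 0 1230186008 33554432 16777216 true false false .dn 1 3 3
    ndF3q1 ndF4q3 pcF3 Cut.none Ext.none :=
  certFK0 (fam := true) (s1 := false) (s2 := false) (a := 1) (b := 3) (c := 3) (cn := .dn) (n1 := ndF3q1) (n2 := ndF4q3) (pc := pcF3) (cut := Cut.none) (xt := Ext.none) (P1 := 536870912) (W1 := 536870912) (P2 := 0) (W2 := 1230186008) (P3 := 33554432) (W3 := 16777216)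
    rfl rfl rfl k0_mm_133

noncomputable def f_mm_202 : ℕ → ℕ → ℕ → ℕ → Bool := onCell 1073741824 536870912 0 536870912 33554432 16777216
    (rowFK 0 true false false .pp 2 0 2 (qsf 1073741824 536870912 0 536870912 2) ndF3q2 ndF4q0 pcF2 Cut.none Ext.none)

def k0_mm_202 : ∃ t, chk3 f_mm_202 t 1 1 1 = true :=
  ⟨(l 4), by decide +kernel⟩

theorem c_mm_202 : CertF 1073741824 536870912 0 536870912 33554432 16777216 true false false .pp 2 0 2
    ndF3q2 ndF4q0 pcF2 Cut.none Ext.none :=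
  certFK0 (fam := true) (s1 := false) (s2 := false) (a := 2) (b := 0) (c := 2) (cn := .pp) (n1 := ndF3q2) (n2 := ndF4q0) (pc := pcF2) (cut := Cut.none) (xt := Ext.none) (P1 := 1073741824) (W1 := 536870912) (P2 := 0) (W2 := 536870912) (P3 := 33554432) (W3 := 16777216)
    rfl rfl rfl k0_mm_202

noncomputable def f_mm_203 : ℕ → ℕ → ℕ → ℕ → Bool := onCell 1073741824 536870912 0 536870912 33554432 16777216
    (rowFK 0 true false false .up 2 0 3 (qsf 1073741824 536870912 0 536870912 3) ndF3q2 ndF4q0 pcF3 Cut.none Ext.none)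

def k0_mm_203 : ∃ t, chk3 f_mm_203 t 1 1 1 = true :=
  ⟨(l 4), by decide +kernel⟩

theorem c_mm_203 : CertF 1073741824 536870912 0 536870912 33554432 16777216 true false false .up 2 0 3
    ndF3q2 ndF4q0 pcF3 Cut.none Ext.none :=
  certFK0 (fam := true) (s1 := false) (s2 := false) (a := 2) (b := 0) (c := 3) (cn := .up) (n1 := ndF3q2) (n2 := ndF4q0) (pc := pcF3) (cut := Cut.none) (xt := Ext.none) (P1 := 1073741824) (W1 := 536870912) (P2 := 0) (W2 := 536870912) (P3 := 33554432) (W3 := 16777216)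
    rfl rfl rfl k0_mm_203

noncomputable def f_mm_213 : ℕ → ℕ → ℕ → ℕ → Bool := onCell 1073741824 536870912 536870912 536870912 33554432 16777216
    (rowFK 0 true false false .pnn 2 1 3 (qsf 1073741824 536870912 536870912 536870912 3) ndF3q2 ndF4q1 pcF3 Cut.none Ext.none)

def k0_mm_213 : ∃ t, chk3 f_mm_213 t 1 1 1 = true :=
  ⟨(l 4), by decide +kernel⟩

theorem c_mm_213 : CertF 1073741824 536870912 536870912 536870912 33554432 16777216 true false false .pnn 2 1 3
    ndF3q2 ndF4q1 pcF3 Cut.none Ext.none :=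
  certFK0 (fam := true) (s1 := false) (s2 := false) (a := 2) (b := 1) (c := 3) (cn := .pnn) (n1 := ndF3q2) (n2 := ndF4q1) (pc := pcF3) (cut := Cut.none) (xt := Ext.none) (P1 := 1073741824) (W1 := 536870912) (P2 := 536870912) (W2 := 536870912) (P3 := 33554432) (W3 := 16777216)
    rfl rfl rfl k0_mm_213

noncomputable def f_mm_303 : ℕ → ℕ → ℕ → ℕ → Bool := onCell 0 1230186008 0 536870912 33554432 16777216
    (rowFK 0 true false false .npn 3 0 3 (qsf 0 1230186008 0 536870912 3) ndF3q3 ndF4q0 pcF3 Cut.none Ext.none)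

def k0_mm_303 : ∃ t, chk3 f_mm_303 t 1 1 1 = true :=
  ⟨(l 4), by decide +kernel⟩

theorem c_mm_303 : CertF 0 1230186008 0 536870912 33554432 16777216 true false false .npn 3 0 3
    ndF3q3 ndF4q0 pcF3 Cut.none Ext.none :=
  certFK0 (fam := true) (s1 := false) (s2 := false) (a := 3) (b := 0) (c := 3) (cn := .npn) (n1 := ndF3q3) (n2 := ndF4q0) (pc := pcF3) (cut := Cut.none) (xt := Ext.none) (P1 := 0) (W1 := 1230186008) (P2 := 0) (W2 := 536870912) (P3 := 33554432) (W3 := 16777216)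
    rfl rfl rfl k0_mm_303

noncomputable def f_mm_313 : ℕ → ℕ → ℕ → ℕ → Bool := onCell 0 1230186008 536870912 536870912 33554432 16777216
    (rowFK 0 true false false .dn 3 1 3 (qsf 0 1230186008 536870912 536870912 3) ndF3q3 ndF4q1 pcF3 Cut.none Ext.none)

def k0_mm_313 : ∃ t, chk3 f_mm_313 t 1 1 1 = true :=
  ⟨(l 4), by decide +kernel⟩

theorem c_mm_313 : CertF 0 1230186008 536870912 536870912 33554432 16777216 true false false .dn 3 1 3
    ndF3q3 ndF4q1 pcF3 Cut.none Ext.none :=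
  certFK0 (fam := true) (s1 := false) (s2 := false) (a := 3) (b := 1) (c := 3) (cn := .dn) (n1 := ndF3q3) (n2 := ndF4q1) (pc := pcF3) (cut := Cut.none) (xt := Ext.none) (P1 := 0) (W1 := 1230186008) (P2 := 536870912) (W2 := 536870912) (P3 := 33554432) (W3 := 16777216)
    rfl rfl rfl k0_mm_313

end Pool.Agent.Strip051.G.I1_32_3_64.Tab.C.FA34

namespace Pool.Agent.Strip051.G.I1_32_3_64.Tab.C.FA44

open Pool.Agent.Strip051.PB Pool.Agent.Strip051.PB.T
open Pool.Agent.Strip051.G.I1_32_3_64.Tab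

noncomputable def f_pp_001 : ℕ → ℕ → ℕ → ℕ → Bool := onCell 0 536870912 0 536870912 33554432 16777216
    (rowFK 0 true true true .up 0 0 1 (qsf 0 536870912 0 536870912 1) ndF4q0 ndF4q0 pcF1 Cut.none Ext.none)

def k0_pp_001 : ∃ t, chk3 f_pp_001 t 1 1 1 = true :=
  ⟨(l 4), by decide +kernel⟩

theorem c_pp_001 : CertF 0 536870912 0 536870912 33554432 16777216 true true true .up 0 0 1
    ndF4q0 ndF4q0 pcF1 Cut.none Ext.none :=
  certFK0 (fam := true) (s1 := true) (s2 := true) (a := 0) (b := 0) (c := 1) (cn := .up) (n1 := ndF4q0) (n2 := ndF4q0) (pc := pcF1) (cut := Cut.none) (xt := Ext.none) (P1 := 0) (W1 := 536870912) (P2 := 0) (W2 := 536870912) (P3 := 33554432) (W3 := 16777216)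
    rfl rfl rfl k0_pp_001

noncomputable def f_pp_011 : ℕ → ℕ → ℕ → ℕ → Bool := onCell 0 536870912 536870912 536870912 33554432 16777216
    (rowFK 0 true true true .pnn 0 1 1 (qsf 0 536870912 536870912 536870912 1) ndF4q0 ndF4q1 pcF1 Cut.none Ext.none)

def k0_pp_011 : ∃ t, chk3 f_pp_011 t 1 1 1 = true :=
  ⟨(l 4), by decide +kernel⟩

theorem c_pp_011 : CertF 0 536870912 536870912 536870912 33554432 16777216 true true true .pnn 0 1 1
    ndF4q0 ndF4q1 pcF1 Cut.none Ext.none :=
  certFK0 (fam := true) (s1 := true) (s2 := true) (a := 0) (b := 1) (c := 1) (cn := .pnn) (n1 := ndF4q0) (n2 := ndF4q1) (pc := pcF1) (cut := Cut.none) (xt := Ext.none) (P1 := 0) (W1 := 536870912) (P2 := 536870912) (W2 := 536870912) (P3 := 33554432) (W3 := 16777216)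
    rfl rfl rfl k0_pp_011

noncomputable def f_pp_012 : ℕ → ℕ → ℕ → ℕ → Bool := onCell 0 536870912 536870912 536870912 33554432 16777216
    (rowFK 0 true true true .pnp 0 1 2 (qsf 0 536870912 536870912 536870912 2) ndF4q0 ndF4q1 pcF2 Cut.none Ext.none)

def k0_pp_012 : ∃ t, chk3 f_pp_012 t 1 1 1 = true :=
  ⟨(l 4), by decide +kernel⟩

theorem c_pp_012 : CertF 0 536870912 536870912 536870912 33554432 16777216 true true true .pnp 0 1 2
    ndF4q0 ndF4q1 pcF2 Cut.none Ext.none :=
  certFK0 (fam := true) (s1 := true) (s2 := true) (a := 0) (b := 1) (c := 2) (cn := .pnp) (n1 := ndF4q0) (n2 := ndF4q1) (pc := pcF2) (cut := Cut.none) (xt := Ext.none) (P1 := 0) (W1 := 536870912) (P2 := 536870912) (W2 := 536870912) (P3 := 33554432) (W3 := 16777216)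
    rfl rfl rfl k0_pp_012

noncomputable def f_pp_022 : ℕ → ℕ → ℕ → ℕ → Bool := onCell 0 536870912 1073741824 536870912 33554432 16777216
    (rowFK 0 true true true .pp 0 2 2 (qsf 0 536870912 1073741824 536870912 2) ndF4q0 ndF4q2 pcF2 Cut.none Ext.none)

def k0_pp_022 : ∃ t, chk3 f_pp_022 t 1 1 1 = true :=
  ⟨(l 4), by decide +kernel⟩

theorem c_pp_022 : CertF 0 536870912 1073741824 536870912 33554432 16777216 true true true .pp 0 2 2
    ndF4q0 ndF4q2 pcF2 Cut.none Ext.none :=
  certFK0 (fam := true) (s1 := true) (s2 := true) (a := 0) (b := 2) (c := 2) (cn := .pp) (n1 := ndF4q0) (n2 := ndF4q2) (pc := pcF2) (cut := Cut.none) (xt := Ext.none) (P1 := 0) (W1 := 536870912) (P2 := 1073741824) (W2 := 536870912) (P3 := 33554432) (W3 := 16777216)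
    rfl rfl rfl k0_pp_022

noncomputable def f_pp_023 : ℕ → ℕ → ℕ → ℕ → Bool := onCell 0 536870912 1073741824 536870912 33554432 16777216
    (rowFK 0 true true true .up 0 2 3 (qsf 0 536870912 1073741824 536870912 3) ndF4q0 ndF4q2 pcF3 Cut.none Ext.none)

def k0_pp_023 : ∃ t, chk3 f_pp_023 t 1 1 1 = true :=
  ⟨(l 4), by decide +kernel⟩

theorem c_pp_023 : CertF 0 536870912 1073741824 536870912 33554432 16777216 true true true .up 0 2 3
    ndF4q0 ndF4q2 pcF3 Cut.none Ext.none :=
  certFK0 (fam := true) (s1 := true) (s2 := true) (a := 0) (b := 2) (c := 3) (cn := .up) (n1 := ndF4q0) (n2 := ndF4q2) (pc := pcF3) (cut := Cut.none) (xt := Ext.none) (P1 := 0) (W1 := 536870912) (P2 := 1073741824) (W2 := 536870912) (P3 := 33554432) (W3 := 16777216)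
    rfl rfl rfl k0_pp_023

noncomputable def f_pp_033 : ℕ → ℕ → ℕ → ℕ → Bool := onCell 0 536870912 0 1230186008 33554432 16777216
    (rowFK 0 true true true .pnn 0 3 3 (qsf 0 536870912 0 1230186008 3) ndF4q0 ndF4q3 pcF3 Cut.none Ext.none)

def k0_pp_033 : ∃ t, chk3 f_pp_033 t 1 1 1 = true :=
  ⟨(l 4), by decide +kernel⟩

theorem c_pp_033 : CertF 0 536870912 0 1230186008 33554432 16777216 true true true .pnn 0 3 3
    ndF4q0 ndF4q3 pcF3 Cut.none Ext.none :=
  certFK0 (fam := true) (s1 := true) (s2 := true) (a := 0) (b := 3) (c := 3) (cn := .pnn) (n1 := ndF4q0) (n2 := ndF4q3) (pc := pcF3) (cut := Cut.none) (xt := Ext.none) (P1 := 0) (W1 := 536870912) (P2 := 0) (W2 := 1230186008) (P3 := 33554432) (W3 := 16777216)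
    rfl rfl rfl k0_pp_033

noncomputable def f_pp_101 : ℕ → ℕ → ℕ → ℕ → Bool := onCell 536870912 536870912 0 536870912 33554432 16777216
    (rowFK 0 true true true .npn 1 0 1 (qsf 536870912 536870912 0 536870912 1) ndF4q1 ndF4q0 pcF1 Cut.none Ext.none)

def k0_pp_101 : ∃ t, chk3 f_pp_101 t 1 1 1 = true :=
  ⟨(l 4), by decide +kernel⟩

theorem c_pp_101 : CertF 536870912 536870912 0 536870912 33554432 16777216 true true true .npn 1 0 1
    ndF4q1 ndF4q0 pcF1 Cut.none Ext.none :=
  certFK0 (fam := true) (s1 := true) (s2 := true) (a := 1) (b := 0) (c := 1) (cn := .npn) (n1 := ndF4q1) (n2 := ndF4q0) (pc := pcF1) (cut := Cut.none) (xt := Ext.none) (P1 := 536870912) (W1 := 536870912) (P2 := 0) (W2 := 536870912) (P3 := 33554432) (W3 := 16777216)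
    rfl rfl rfl k0_pp_101

noncomputable def f_pp_102 : ℕ → ℕ → ℕ → ℕ → Bool := onCell 536870912 536870912 0 536870912 33554432 16777216
    (rowFK 0 true true true .npp 1 0 2 (qsf 536870912 536870912 0 536870912 2) ndF4q1 ndF4q0 pcF2 Cut.none Ext.none)

def k0_pp_102 : ∃ t, chk3 f_pp_102 t 1 1 1 = true :=
  ⟨(l 4), by decide +kernel⟩

theorem c_pp_102 : CertF 536870912 536870912 0 536870912 33554432 16777216 true true true .npp 1 0 2
    ndF4q1 ndF4q0 pcF2 Cut.none Ext.none :=
  certFK0 (fam := true) (s1 := true) (s2 := true) (a := 1) (b := 0) (c := 2) (cn := .npp) (n1 := ndF4q1) (n2 := ndF4q0) (pc := pcF2) (cut := Cut.none) (xt := Ext.none) (P1 := 536870912) (W1 := 536870912) (P2 := 0) (W2 := 536870912) (P3 := 33554432) (W3 := 16777216)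
    rfl rfl rfl k0_pp_102

noncomputable def f_pp_112 : ℕ → ℕ → ℕ → ℕ → Bool := onCell 536870912 536870912 536870912 536870912 33554432 16777216
    (rowFK 0 true true true .dn 1 1 2 (qsf 536870912 536870912 536870912 536870912 2) ndF4q1 ndF4q1 pcF2 Cut.none Ext.none)

def k0_pp_112 : ∃ t, chk3 f_pp_112 t 1 1 1 = true :=
  ⟨(l 4), by decide +kernel⟩

theorem c_pp_112 : CertF 536870912 536870912 536870912 536870912 33554432 16777216 true true true .dn 1 1 2
    ndF4q1 ndF4q1 pcF2 Cut.none Ext.none :=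
  certFK0 (fam := true) (s1 := true) (s2 := true) (a := 1) (b := 1) (c := 2) (cn := .dn) (n1 := ndF4q1) (n2 := ndF4q1) (pc := pcF2) (cut := Cut.none) (xt := Ext.none) (P1 := 536870912) (W1 := 536870912) (P2 := 536870912) (W2 := 536870912) (P3 := 33554432) (W3 := 16777216)
    rfl rfl rfl k0_pp_112

noncomputable def f_pp_113 : ℕ → ℕ → ℕ → ℕ → Bool := onCell 536870912 536870912 536870912 536870912 33554432 16777216
    (rowFK 0 true true true .nn 1 1 3 (qsf 536870912 536870912 536870912 536870912 3) ndF4q1 ndF4q1 pcF3 Cut.none Ext.none)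

def k0_pp_113 : ∃ t, chk3 f_pp_113 t 1 1 1 = true :=
  ⟨(l 4), by decide +kernel⟩

theorem c_pp_113 : CertF 536870912 536870912 536870912 536870912 33554432 16777216 true true true .nn 1 1 3
    ndF4q1 ndF4q1 pcF3 Cut.none Ext.none :=
  certFK0 (fam := true) (s1 := true) (s2 := true) (a := 1) (b := 1) (c := 3) (cn := .nn) (n1 := ndF4q1) (n2 := ndF4q1) (pc := pcF3) (cut := Cut.none) (xt := Ext.none) (P1 := 536870912) (W1 := 536870912) (P2 := 536870912) (W2 := 536870912) (P3 := 33554432) (W3 := 16777216)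
    rfl rfl rfl k0_pp_113

noncomputable def f_pp_123 : ℕ → ℕ → ℕ → ℕ → Bool := onCell 536870912 536870912 1073741824 536870912 33554432 16777216
    (rowFK 0 true true true .npn 1 2 3 (qsf 536870912 536870912 1073741824 536870912 3) ndF4q1 ndF4q2 pcF3 Cut.none Ext.none)

def k0_pp_123 : ∃ t, chk3 f_pp_123 t 1 1 1 = true :=
  ⟨(l 4), by decide +kernel⟩

theorem c_pp_123 : CertF 536870912 536870912 1073741824 536870912 33554432 16777216 true true true .npn 1 2 3
    ndF4q1 ndF4q2 pcF3 Cut.none Ext.none :=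
  certFK0 (fam := true) (s1 := true) (s2 := true) (a := 1) (b := 2) (c := 3) (cn := .npn) (n1 := ndF4q1) (n2 := ndF4q2) (pc := pcF3) (cut := Cut.none) (xt := Ext.none) (P1 := 536870912) (W1 := 536870912) (P2 := 1073741824) (W2 := 536870912) (P3 := 33554432) (W3 := 16777216)
    rfl rfl rfl k0_pp_123

noncomputable def f_pp_133 : ℕ → ℕ → ℕ → ℕ → Bool := onCell 536870912 536870912 0 1230186008 33554432 16777216
    (rowFK 0 true true true .dn 1 3 3 (qsf 536870912 536870912 0 1230186008 3) ndF4q1 ndF4q3 pcF3 Cut.none Ext.none)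

def k0_pp_133 : ∃ t, chk3 f_pp_133 t 1 1 1 = true :=
  ⟨(l 4), by decide +kernel⟩

theorem c_pp_133 : CertF 536870912 536870912 0 1230186008 33554432 16777216 true true true .dn 1 3 3
    ndF4q1 ndF4q3 pcF3 Cut.none Ext.none :=
  certFK0 (fam := true) (s1 := true) (s2 := true) (a := 1) (b := 3) (c := 3) (cn := .dn) (n1 := ndF4q1) (n2 := ndF4q3) (pc := pcF3) (cut := Cut.none) (xt := Ext.none) (P1 := 536870912) (W1 := 536870912) (P2 := 0) (W2 := 1230186008) (P3 := 33554432) (W3 := 16777216)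
    rfl rfl rfl k0_pp_133

noncomputable def f_pp_202 : ℕ → ℕ → ℕ → ℕ → Bool := onCell 1073741824 536870912 0 536870912 33554432 16777216
    (rowFK 0 true true true .pp 2 0 2 (qsf 1073741824 536870912 0 536870912 2) ndF4q2 ndF4q0 pcF2 Cut.none Ext.none)

def k0_pp_202 : ∃ t, chk3 f_pp_202 t 1 1 1 = true :=
  ⟨(l 4), by decide +kernel⟩

theorem c_pp_202 : CertF 1073741824 536870912 0 536870912 33554432 16777216 true true true .pp 2 0 2
    ndF4q2 ndF4q0 pcF2 Cut.none Ext.none :=
  certFK0 (fam := true) (s1 := true) (s2 := true) (a := 2) (b := 0) (c := 2) (cn := .pp) (n1 := ndF4q2) (n2 := ndF4q0) (pc := pcF2) (cut := Cut.none) (xt := Ext.none) (P1 := 1073741824) (W1 := 536870912) (P2 := 0) (W2 := 536870912) (P3 := 33554432) (W3 := 16777216)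
    rfl rfl rfl k0_pp_202

noncomputable def f_pp_203 : ℕ → ℕ → ℕ → ℕ → Bool := onCell 1073741824 536870912 0 536870912 33554432 16777216
    (rowFK 0 true true true .up 2 0 3 (qsf 1073741824 536870912 0 536870912 3) ndF4q2 ndF4q0 pcF3 Cut.none Ext.none)

def k0_pp_203 : ∃ t, chk3 f_pp_203 t 1 1 1 = true :=
  ⟨(l 4), by decide +kernel⟩

theorem c_pp_203 : CertF 1073741824 536870912 0 536870912 33554432 16777216 true true true .up 2 0 3
    ndF4q2 ndF4q0 pcF3 Cut.none Ext.none :=
  certFK0 (fam := true) (s1 := true) (s2 := true) (a := 2) (b := 0) (c := 3) (cn := .up) (n1 := ndF4q2) (n2 := ndF4q0) (pc := pcF3) (cut := Cut.none) (xt := Ext.none) (P1 := 1073741824) (W1 := 536870912) (P2 := 0) (W2 := 536870912) (P3 := 33554432) (W3 := 16777216)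
    rfl rfl rfl k0_pp_203

noncomputable def f_pp_213 : ℕ → ℕ → ℕ → ℕ → Bool := onCell 1073741824 536870912 536870912 536870912 33554432 16777216
    (rowFK 0 true true true .pnn 2 1 3 (qsf 1073741824 536870912 536870912 536870912 3) ndF4q2 ndF4q1 pcF3 Cut.none Ext.none)

def k0_pp_213 : ∃ t, chk3 f_pp_213 t 1 1 1 = true :=
  ⟨(l 4), by decide +kernel⟩

theorem c_pp_213 : CertF 1073741824 536870912 536870912 536870912 33554432 16777216 true true true .pnn 2 1 3
    ndF4q2 ndF4q1 pcF3 Cut.none Ext.none :=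
  certFK0 (fam := true) (s1 := true) (s2 := true) (a := 2) (b := 1) (c := 3) (cn := .pnn) (n1 := ndF4q2) (n2 := ndF4q1) (pc := pcF3) (cut := Cut.none) (xt := Ext.none) (P1 := 1073741824) (W1 := 536870912) (P2 := 536870912) (W2 := 536870912) (P3 := 33554432) (W3 := 16777216)
    rfl rfl rfl k0_pp_213

noncomputable def f_pp_303 : ℕ → ℕ → ℕ → ℕ → Bool := onCell 0 1230186008 0 536870912 33554432 16777216
    (rowFK 0 true true true .npn 3 0 3 (qsf 0 1230186008 0 536870912 3) ndF4q3 ndF4q0 pcF3 Cut.none Ext.none)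

def k0_pp_303 : ∃ t, chk3 f_pp_303 t 1 1 1 = true :=
  ⟨(l 4), by decide +kernel⟩

theorem c_pp_303 : CertF 0 1230186008 0 536870912 33554432 16777216 true true true .npn 3 0 3
    ndF4q3 ndF4q0 pcF3 Cut.none Ext.none :=
  certFK0 (fam := true) (s1 := true) (s2 := true) (a := 3) (b := 0) (c := 3) (cn := .npn) (n1 := ndF4q3) (n2 := ndF4q0) (pc := pcF3) (cut := Cut.none) (xt := Ext.none) (P1 := 0) (W1 := 1230186008) (P2 := 0) (W2 := 536870912) (P3 := 33554432) (W3 := 16777216)
    rfl rfl rfl k0_pp_303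

noncomputable def f_pp_313 : ℕ → ℕ → ℕ → ℕ → Bool := onCell 0 1230186008 536870912 536870912 33554432 16777216
    (rowFK 0 true true true .dn 3 1 3 (qsf 0 1230186008 536870912 536870912 3) ndF4q3 ndF4q1 pcF3 Cut.none Ext.none)

def k0_pp_313 : ∃ t, chk3 f_pp_313 t 1 1 1 = true :=
  ⟨(l 4), by decide +kernel⟩

theorem c_pp_313 : CertF 0 1230186008 536870912 536870912 33554432 16777216 true true true .dn 3 1 3
    ndF4q3 ndF4q1 pcF3 Cut.none Ext.none :=
  certFK0 (fam := true) (s1 := true) (s2 := true) (a := 3) (b := 1) (c := 3) (cn := .dn) (n1 := ndF4q3) (n2 := ndF4q1) (pc := pcF3) (cut := Cut.none) (xt := Ext.none) (P1 := 0) (W1 := 1230186008) (P2 := 536870912) (W2 := 536870912) (P3 := 33554432) (W3 := 16777216)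
    rfl rfl rfl k0_pp_313

noncomputable def f_pm_001 : ℕ → ℕ → ℕ → ℕ → Bool := onCell 0 536870912 0 536870912 33554432 16777216
    (rowFK 0 true true false .up 0 0 1 (qsf 0 536870912 0 536870912 1) ndF4q0 ndF4q0 pcF1 Cut.none Ext.none)

def k0_pm_001 : ∃ t, chk3 f_pm_001 t 1 1 1 = true :=
  ⟨(l 3), by decide +kernel⟩

theorem c_pm_001 : CertF 0 536870912 0 536870912 33554432 16777216 true true false .up 0 0 1
    ndF4q0 ndF4q0 pcF1 Cut.none Ext.none :=
  certFK0 (fam := true) (s1 := true) (s2 := false) (a := 0) (b := 0) (c := 1) (cn := .up) (n1 := ndF4q0) (n2 := ndF4q0) (pc := pcF1) (cut := Cut.none) (xt := Ext.none) (P1 := 0) (W1 := 536870912) (P2 := 0) (W2 := 536870912) (P3 := 33554432) (W3 := 16777216)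
    rfl rfl rfl k0_pm_001

noncomputable def f_pm_011 : ℕ → ℕ → ℕ → ℕ → Bool := onCell 0 536870912 536870912 536870912 33554432 16777216
    (rowFK 1 true true false .pnn 0 1 1 (qsf 0 536870912 536870912 536870912 1) ndF4q0 ndF4q1 pcF1 Cut.none Ext.none)

def k0_pm_011 : ∃ t, chk3 f_pm_011 t 1 1 1 = true :=
  ⟨(l 3), by decide +kernel⟩

theorem c_pm_011 : CertF 0 536870912 536870912 536870912 33554432 16777216 true true false .pnn 0 1 1
    ndF4q0 ndF4q1 pcF1 Cut.none Ext.none :=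
  certFK1 (fam := true) (s1 := true) (s2 := false) (a := 0) (b := 1) (c := 1) (cn := .pnn) (n1 := ndF4q0) (n2 := ndF4q1) (pc := pcF1) (cut := Cut.none) (xt := Ext.none) (P1 := 0) (W1 := 536870912) (P2 := 536870912) (W2 := 536870912) (P3 := 33554432) (W3 := 16777216)
    rfl rfl rfl (fun _ => rfl) k0_pm_011

noncomputable def f_pm_012 : ℕ → ℕ → ℕ → ℕ → Bool := onCell 0 536870912 1073741824 536870912 33554432 16777216
    (rowFK 1 true true false .pnp 0 1 2 (qsf 0 536870912 536870912 536870912 2) ndF4q0 ndF4q1 pcF2 Cut.none Ext.none)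

def k0_pm_012 : ∃ t, chk3 f_pm_012 t 1 1 1 = true :=
  ⟨(a (b (b (b (l 3) (l 19902648)) (b (b (b (l 19606744) (b (l 19615488) (l 19609272))) (l 19613936)) (l 19637240))) (a (l 2) (b (l 19627144) (l 2)))) (b (b (l 3) (b (b (b (l 18873880) (a (l 18987448) (l 18595096))) (l 18814096)) (l 18980456))) (a (l 19608016) (l 19054304)))), by decide +kernel⟩

theorem c_pm_012 : CertF 0 536870912 536870912 536870912 33554432 16777216 true true false .pnp 0 1 2
    ndF4q0 ndF4q1 pcF2 Cut.none Ext.none :=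
  certFK1 (fam := true) (s1 := true) (s2 := false) (a := 0) (b := 1) (c := 2) (cn := .pnp) (n1 := ndF4q0) (n2 := ndF4q1) (pc := pcF2) (cut := Cut.none) (xt := Ext.none) (P1 := 0) (W1 := 536870912) (P2 := 536870912) (W2 := 536870912) (P3 := 33554432) (W3 := 16777216)
    rfl rfl rfl (fun _ => rfl) k0_pm_012

noncomputable def f_pm_022 : ℕ → ℕ → ℕ → ℕ → Bool := onCell 0 536870912 1073741824 536870912 33554432 16777216
    (rowFK 1 true true false .pp 0 2 2 (qsf 0 536870912 1073741824 536870912 2) ndF4q0 ndF4q2 pcF2 Cut.none Ext.none)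

def k0_pm_022 : ∃ t, chk3 f_pm_022 t 1 1 1 = true :=
  ⟨(a (b (b (b (l 3) (a (l 19805760) (l 19965040))) (b (b (b (l 19718496) (b (l 19683248) (a (l 19592064) (l 19515736)))) (l 19567360)) (l 19343816))) (a (b (l 18846128) (l 18169712)) (b (l 18992904) (l 18411928)))) (b (b (l 1) (b (l 1) (l 19761160))) (a (l 532614870423) (l 341489415255)))), by decide +kernel⟩

theorem c_pm_022 : CertF 0 536870912 1073741824 536870912 33554432 16777216 true true false .pp 0 2 2
    ndF4q0 ndF4q2 pcF2 Cut.none Ext.none :=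
  certFK1 (fam := true) (s1 := true) (s2 := false) (a := 0) (b := 2) (c := 2) (cn := .pp) (n1 := ndF4q0) (n2 := ndF4q2) (pc := pcF2) (cut := Cut.none) (xt := Ext.none) (P1 := 0) (W1 := 536870912) (P2 := 1073741824) (W2 := 536870912) (P3 := 33554432) (W3 := 16777216)
    rfl rfl rfl (fun _ => rfl) k0_pm_022

noncomputable def f_pm_023 : ℕ → ℕ → ℕ → ℕ → Bool := onCell 1610612736 536870912 1073741824 536870912 33554432 16777216
    (rowFK 2 true true false .up 0 2 3 (qsf 0 536870912 1073741824 536870912 3) ndF4q0 ndF4q2 pcF3 Cut.none Ext.none)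

def k0_pm_023 : ∃ t, chk3 f_pm_023 t 1 1 1 = true :=
  ⟨(a (b (b (a (l 19271464) (l 18635464)) (a (l 18363304) (l 125194570647))) (a (b (l 18066704) (l 17515496)) (b (l 17639808) (l 17140768)))) (b (a (b (l 2) (b (l 2) (l 17408328))) (l 2)) (b (a (l 17351000) (a (l 16991584) (l 2))) (a (l 16958992) (a (l 16801840) (a (l 16953264) (l 4))))))), by decide +kernel⟩

theorem c_pm_023 : CertF 0 536870912 1073741824 536870912 33554432 16777216 true true false .up 0 2 3
    ndF4q0 ndF4q2 pcF3 Cut.none Ext.none :=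
  certFK2 (fam := true) (s1 := true) (s2 := false) (a := 0) (b := 2) (c := 3) (cn := .up) (n1 := ndF4q0) (n2 := ndF4q2) (pc := pcF3) (cut := Cut.none) (xt := Ext.none) (P1 := 0) (W1 := 536870912) (P2 := 1073741824) (W2 := 536870912) (P3 := 33554432) (W3 := 16777216)
    rfl rfl rfl (fun _ => rfl) k0_pm_023

noncomputable def f_pm_033 : ℕ → ℕ → ℕ → ℕ → Bool := onCell 1610612736 536870912 0 1230186008 33554432 16777216
    (rowFK 2 true true false .pnn 0 3 3 (qsf 0 536870912 0 1230186008 3) ndF4q0 ndF4q3 pcF3 Cut.none Ext.none)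

def k0_pm_033 : ∃ t, chk3 f_pm_033 t 1 1 1 = true :=
  ⟨(b (a (l 1) (l 4)) (b (a (a (l 1) (b (l 1) (l 17082232))) (l 4)) (a (a (b (l 1) (l 16946248)) (b (l 16808120) (l 17024784))) (a (b (l 16961224) (l 16802424)) (a (b (l 4) (l 16913432)) (l 4)))))), by decide +kernel⟩

theorem c_pm_033 : CertF 0 536870912 0 1230186008 33554432 16777216 true true false .pnn 0 3 3
    ndF4q0 ndF4q3 pcF3 Cut.none Ext.none :=
  certFK2 (fam := true) (s1 := true) (s2 := false) (a := 0) (b := 3) (c := 3) (cn := .pnn) (n1 := ndF4q0) (n2 := ndF4q3) (pc := pcF3) (cut := Cut.none) (xt := Ext.none) (P1 := 0) (W1 := 536870912) (P2 := 0) (W2 := 1230186008) (P3 := 33554432) (W3 := 16777216)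
    rfl rfl rfl (fun _ => rfl) k0_pm_033

noncomputable def f_pm_101 : ℕ → ℕ → ℕ → ℕ → Bool := onCell 536870912 536870912 536870912 536870912 33554432 16777216
    (rowFK 1 true true false .npn 1 0 1 (qsf 536870912 536870912 0 536870912 1) ndF4q1 ndF4q0 pcF1 Cut.none Ext.none)

def k0_pm_101 : ∃ t, chk3 f_pm_101 t 1 1 1 = true :=
  ⟨(l 3), by decide +kernel⟩

theorem c_pm_101 : CertF 536870912 536870912 0 536870912 33554432 16777216 true true false .npn 1 0 1
    ndF4q1 ndF4q0 pcF1 Cut.none Ext.none :=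
  certFK1 (fam := true) (s1 := true) (s2 := false) (a := 1) (b := 0) (c := 1) (cn := .npn) (n1 := ndF4q1) (n2 := ndF4q0) (pc := pcF1) (cut := Cut.none) (xt := Ext.none) (P1 := 536870912) (W1 := 536870912) (P2 := 0) (W2 := 536870912) (P3 := 33554432) (W3 := 16777216)
    rfl rfl rfl (fun _ => rfl) k0_pm_101

noncomputable def f_pm_102 : ℕ → ℕ → ℕ → ℕ → Bool := onCell 1073741824 536870912 0 536870912 33554432 16777216
    (rowFK 2 true true false .npp 1 0 2 (qsf 536870912 536870912 0 536870912 2) ndF4q1 ndF4q0 pcF2 Cut.none Ext.none)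

def k0_pm_102 : ∃ t, chk3 f_pm_102 t 1 1 1 = true :=
  ⟨(a (b (a (a (l 3) (l 19902648)) (a (a (a (l 19606744) (a (l 19615488) (l 19609272))) (l 19613936)) (l 19637240))) (a (l 3) (a (a (a (l 18873880) (b (l 18987448) (l 18595096))) (l 18814096)) (l 18980456)))) (b (b (l 2) (a (l 19627144) (l 2))) (b (l 19608016) (l 19054304)))), by decide +kernel⟩

theorem c_pm_102 : CertF 536870912 536870912 0 536870912 33554432 16777216 true true false .npp 1 0 2
    ndF4q1 ndF4q0 pcF2 Cut.none Ext.none :=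
  certFK2 (fam := true) (s1 := true) (s2 := false) (a := 1) (b := 0) (c := 2) (cn := .npp) (n1 := ndF4q1) (n2 := ndF4q0) (pc := pcF2) (cut := Cut.none) (xt := Ext.none) (P1 := 536870912) (W1 := 536870912) (P2 := 0) (W2 := 536870912) (P3 := 33554432) (W3 := 16777216)
    rfl rfl rfl (fun _ => rfl) k0_pm_102

noncomputable def f_pm_112 : ℕ → ℕ → ℕ → ℕ → Bool := onCell 536870912 536870912 1073741824 536870912 33554432 16777216
    (rowFK 1 true true false .dn 1 1 2 (qsf 536870912 536870912 536870912 536870912 2) ndF4q1 ndF4q1 pcF2 Cut.none Ext.none)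

def k0_pm_112 : ∃ t, chk3 f_pm_112 t 1 1 1 = true :=
  ⟨(a (b (b (l 3) (b (b (b (l 3) (a (l 18328816) (l 18525648))) (l 18414896)) (l 18394952))) (a (l 18568184) (l 18307032))) (b (b (l 1) (b (l 1) (l 19008960))) (a (l 18624040) (l 18950320)))), by decide +kernel⟩

theorem c_pm_112 : CertF 536870912 536870912 536870912 536870912 33554432 16777216 true true false .dn 1 1 2
    ndF4q1 ndF4q1 pcF2 Cut.none Ext.none :=
  certFK1 (fam := true) (s1 := true) (s2 := false) (a := 1) (b := 1) (c := 2) (cn := .dn) (n1 := ndF4q1) (n2 := ndF4q1) (pc := pcF2) (cut := Cut.none) (xt := Ext.none) (P1 := 536870912) (W1 := 536870912) (P2 := 536870912) (W2 := 536870912) (P3 := 33554432) (W3 := 16777216)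
    rfl rfl rfl (fun _ => rfl) k0_pm_112

noncomputable def f_pm_113 : ℕ → ℕ → ℕ → ℕ → Bool := onCell 536870912 536870912 536870912 536870912 33554432 16777216
    (rowFK 0 true true false .nn 1 1 3 (qsf 536870912 536870912 536870912 536870912 3) ndF4q1 ndF4q1 pcF3 Cut.none Ext.none)

def k0_pm_113 : ∃ t, chk3 f_pm_113 t 1 1 1 = true :=
  ⟨(a (b (l 382289335335) (l 481074748423)) (b (l 344172665863) (a (l 17952504) (b (l 18054432) (a (l 17407152) (b (l 17461328) (a (l 17099960) (b (l 17129872) (a (l 16939912) (b (l 16955352) (a (l 16858776) (b (l 16866608) (b (l 16818032) (l 16801104)))))))))))))), by decide +kernel⟩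

theorem c_pm_113 : CertF 536870912 536870912 536870912 536870912 33554432 16777216 true true false .nn 1 1 3
    ndF4q1 ndF4q1 pcF3 Cut.none Ext.none :=
  certFK0 (fam := true) (s1 := true) (s2 := false) (a := 1) (b := 1) (c := 3) (cn := .nn) (n1 := ndF4q1) (n2 := ndF4q1) (pc := pcF3) (cut := Cut.none) (xt := Ext.none) (P1 := 536870912) (W1 := 536870912) (P2 := 536870912) (W2 := 536870912) (P3 := 33554432) (W3 := 16777216)
    rfl rfl rfl k0_pm_113

noncomputable def f_pm_123 : ℕ → ℕ → ℕ → ℕ → Bool := onCell 1610612736 536870912 1073741824 536870912 33554432 16777216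
    (rowFK 2 true true false .npn 1 2 3 (qsf 536870912 536870912 1073741824 536870912 3) ndF4q1 ndF4q2 pcF3 Cut.none Ext.none)

def k0_pm_123 : ∃ t, chk3 f_pm_123 t 1 1 1 = true :=
  ⟨(a (b (b (a (l 19319144) (l 18738320)) (a (l 18397984) (l 18055248))) (a (l 1) (b (l 17673648) (l 1)))) (a (b (b (b (l 18107920) (l 17551048)) (l 17671192)) (b (l 17399832) (l 16993696))) (a (b (b (l 17317752) (l 17130088)) (b (l 17033416) (l 16826416))) (a (b (b (l 17033344) (l 16911248)) (l 16801704)) (b (a (l 17014448) (b (a (l 16830680) (l 16805064)) (l 16939112))) (a (l 16952848) (a (l 17017616) (l 4)))))))), by decide +kernel⟩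

theorem c_pm_123 : CertF 536870912 536870912 1073741824 536870912 33554432 16777216 true true false .npn 1 2 3
    ndF4q1 ndF4q2 pcF3 Cut.none Ext.none :=
  certFK2 (fam := true) (s1 := true) (s2 := false) (a := 1) (b := 2) (c := 3) (cn := .npn) (n1 := ndF4q1) (n2 := ndF4q2) (pc := pcF3) (cut := Cut.none) (xt := Ext.none) (P1 := 536870912) (W1 := 536870912) (P2 := 1073741824) (W2 := 536870912) (P3 := 33554432) (W3 := 16777216)
    rfl rfl rfl (fun _ => rfl) k0_pm_123

noncomputable def f_pm_133 : ℕ → ℕ → ℕ → ℕ → Bool := onCell 536870912 536870912 0 1230186008 33554432 16777216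
    (rowFK 0 true true false .dn 1 3 3 (qsf 536870912 536870912 0 1230186008 3) ndF4q1 ndF4q3 pcF3 Cut.none Ext.none)

def k0_pm_133 : ∃ t, chk3 f_pm_133 t 1 1 1 = true :=
  ⟨(b (l 2) (b (l 2) (l 4))), by decide +kernel⟩

theorem c_pm_133 : CertF 536870912 536870912 0 1230186008 33554432 16777216 true true false .dn 1 3 3
    ndF4q1 ndF4q3 pcF3 Cut.none Ext.none :=
  certFK0 (fam := true) (s1 := true) (s2 := false) (a := 1) (b := 3) (c := 3) (cn := .dn) (n1 := ndF4q1) (n2 := ndF4q3) (pc := pcF3) (cut := Cut.none) (xt := Ext.none) (P1 := 536870912) (W1 := 536870912) (P2 := 0) (W2 := 1230186008) (P3 := 33554432) (W3 := 16777216)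
    rfl rfl rfl k0_pm_133

noncomputable def f_pm_202 : ℕ → ℕ → ℕ → ℕ → Bool := onCell 1073741824 536870912 0 536870912 33554432 16777216
    (rowFK 2 true true false .pp 2 0 2 (qsf 1073741824 536870912 0 536870912 2) ndF4q2 ndF4q0 pcF2 Cut.none Ext.none)

def k0_pm_202 : ∃ t, chk3 f_pm_202 t 1 1 1 = true :=
  ⟨(a (b (a (a (l 3) (b (l 19805760) (l 19965040))) (a (a (a (l 19718496) (a (l 19683248) (b (l 19592064) (l 19515736)))) (l 19567360)) (l 19343816))) (a (l 1) (a (l 1) (l 19761160)))) (b (b (a (l 18846128) (l 18169712)) (a (l 18992904) (l 18411928))) (b (l 528856774039) (l 341489415255)))), by decide +kernel⟩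

theorem c_pm_202 : CertF 1073741824 536870912 0 536870912 33554432 16777216 true true false .pp 2 0 2
    ndF4q2 ndF4q0 pcF2 Cut.none Ext.none :=
  certFK2 (fam := true) (s1 := true) (s2 := false) (a := 2) (b := 0) (c := 2) (cn := .pp) (n1 := ndF4q2) (n2 := ndF4q0) (pc := pcF2) (cut := Cut.none) (xt := Ext.none) (P1 := 1073741824) (W1 := 536870912) (P2 := 0) (W2 := 536870912) (P3 := 33554432) (W3 := 16777216)
    rfl rfl rfl (fun _ => rfl) k0_pm_202

noncomputable def f_pm_203 : ℕ → ℕ → ℕ → ℕ → Bool := onCell 1073741824 536870912 1610612736 536870912 33554432 16777216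
    (rowFK 1 true true false .up 2 0 3 (qsf 1073741824 536870912 0 536870912 3) ndF4q2 ndF4q0 pcF3 Cut.none Ext.none)

def k0_pm_203 : ∃ t, chk3 f_pm_203 t 1 1 1 = true :=
  ⟨(a (b (a (b (l 19271464) (l 18635464)) (b (l 18363304) (l 125194570647))) (a (l 2) (b (a (l 2) (l 17408328)) (l 2)))) (a (b (b (l 18066704) (l 17639808)) (b (l 17351000) (b (l 16991584) (l 2)))) (b (b (l 17515496) (l 17140768)) (b (l 16958992) (b (l 16801840) (b (l 16953264) (l 4))))))), by decide +kernel⟩

theorem c_pm_203 : CertF 1073741824 536870912 0 536870912 33554432 16777216 true true false .up 2 0 3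
    ndF4q2 ndF4q0 pcF3 Cut.none Ext.none :=
  certFK1 (fam := true) (s1 := true) (s2 := false) (a := 2) (b := 0) (c := 3) (cn := .up) (n1 := ndF4q2) (n2 := ndF4q0) (pc := pcF3) (cut := Cut.none) (xt := Ext.none) (P1 := 1073741824) (W1 := 536870912) (P2 := 0) (W2 := 536870912) (P3 := 33554432) (W3 := 16777216)
    rfl rfl rfl (fun _ => rfl) k0_pm_203

noncomputable def f_pm_213 : ℕ → ℕ → ℕ → ℕ → Bool := onCell 1073741824 536870912 1610612736 536870912 33554432 16777216
    (rowFK 1 true true false .pnn 2 1 3 (qsf 1073741824 536870912 536870912 536870912 3) ndF4q2 ndF4q1 pcF3 Cut.none Ext.none)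

def k0_pm_213 : ∃ t, chk3 f_pm_213 t 1 1 1 = true :=
  ⟨(b (a (a (b (l 19319144) (l 18738320)) (b (l 18397984) (l 18055248))) (b (l 1) (a (l 17673648) (l 1)))) (b (a (a (a (l 18107920) (l 17551048)) (l 17671192)) (a (l 17399832) (l 16993696))) (b (a (a (l 17317752) (l 17130088)) (a (l 17033416) (l 16826416))) (b (a (a (l 17033344) (l 16911248)) (l 16801704)) (a (b (l 17014448) (a (b (l 16830680) (l 16805064)) (l 16918144))) (b (l 16952848) (b (l 17017616) (l 4)))))))), by decide +kernel⟩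

theorem c_pm_213 : CertF 1073741824 536870912 536870912 536870912 33554432 16777216 true true false .pnn 2 1 3
    ndF4q2 ndF4q1 pcF3 Cut.none Ext.none :=
  certFK1 (fam := true) (s1 := true) (s2 := false) (a := 2) (b := 1) (c := 3) (cn := .pnn) (n1 := ndF4q2) (n2 := ndF4q1) (pc := pcF3) (cut := Cut.none) (xt := Ext.none) (P1 := 1073741824) (W1 := 536870912) (P2 := 536870912) (W2 := 536870912) (P3 := 33554432) (W3 := 16777216)
    rfl rfl rfl (fun _ => rfl) k0_pm_213

noncomputable def f_pm_303 : ℕ → ℕ → ℕ → ℕ → Bool := onCell 0 1230186008 1610612736 536870912 33554432 16777216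
    (rowFK 1 true true false .npn 3 0 3 (qsf 0 1230186008 0 536870912 3) ndF4q3 ndF4q0 pcF3 Cut.none Ext.none)

def k0_pm_303 : ∃ t, chk3 f_pm_303 t 1 1 1 = true :=
  ⟨(a (b (l 1) (l 4)) (a (b (b (l 1) (a (l 1) (l 17082232))) (l 4)) (b (b (a (l 1) (l 16946248)) (a (l 16808120) (l 17024712))) (b (a (l 16961224) (l 16802424)) (b (a (l 4) (l 16913432)) (l 4)))))), by decide +kernel⟩

theorem c_pm_303 : CertF 0 1230186008 0 536870912 33554432 16777216 true true false .npn 3 0 3
    ndF4q3 ndF4q0 pcF3 Cut.none Ext.none :=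
  certFK1 (fam := true) (s1 := true) (s2 := false) (a := 3) (b := 0) (c := 3) (cn := .npn) (n1 := ndF4q3) (n2 := ndF4q0) (pc := pcF3) (cut := Cut.none) (xt := Ext.none) (P1 := 0) (W1 := 1230186008) (P2 := 0) (W2 := 536870912) (P3 := 33554432) (W3 := 16777216)
    rfl rfl rfl (fun _ => rfl) k0_pm_303

noncomputable def f_pm_313 : ℕ → ℕ → ℕ → ℕ → Bool := onCell 0 1230186008 536870912 536870912 33554432 16777216
    (rowFK 0 true true false .dn 3 1 3 (qsf 0 1230186008 536870912 536870912 3) ndF4q3 ndF4q1 pcF3 Cut.none Ext.none)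

def k0_pm_313 : ∃ t, chk3 f_pm_313 t 1 1 1 = true :=
  ⟨(a (l 2) (a (l 2) (l 4))), by decide +kernel⟩

theorem c_pm_313 : CertF 0 1230186008 536870912 536870912 33554432 16777216 true true false .dn 3 1 3
    ndF4q3 ndF4q1 pcF3 Cut.none Ext.none :=
  certFK0 (fam := true) (s1 := true) (s2 := false) (a := 3) (b := 1) (c := 3) (cn := .dn) (n1 := ndF4q3) (n2 := ndF4q1) (pc := pcF3) (cut := Cut.none) (xt := Ext.none) (P1 := 0) (W1 := 1230186008) (P2 := 536870912) (W2 := 536870912) (P3 := 33554432) (W3 := 16777216)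
    rfl rfl rfl k0_pm_313

noncomputable def f_mm_001 : ℕ → ℕ → ℕ → ℕ → Bool := onCell 0 536870912 0 536870912 33554432 16777216
    (rowFK 0 true false false .up 0 0 1 (qsf 0 536870912 0 536870912 1) ndF4q0 ndF4q0 pcF1 Cut.none Ext.none)

def k0_mm_001 : ∃ t, chk3 f_mm_001 t 1 1 1 = true :=
  ⟨(l 4), by decide +kernel⟩

theorem c_mm_001 : CertF 0 536870912 0 536870912 33554432 16777216 true false false .up 0 0 1
    ndF4q0 ndF4q0 pcF1 Cut.none Ext.none :=
  certFK0 (fam := true) (s1 := false) (s2 := false) (a := 0) (b := 0) (c := 1) (cn := .up) (n1 := ndF4q0) (n2 := ndF4q0) (pc := pcF1) (cut := Cut.none) (xt := Ext.none) (P1 := 0) (W1 := 536870912) (P2 := 0) (W2 := 536870912) (P3 := 33554432) (W3 := 16777216)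
    rfl rfl rfl k0_mm_001

noncomputable def f_mm_011 : ℕ → ℕ → ℕ → ℕ → Bool := onCell 0 536870912 536870912 536870912 33554432 16777216
    (rowFK 0 true false false .pnn 0 1 1 (qsf 0 536870912 536870912 536870912 1) ndF4q0 ndF4q1 pcF1 Cut.none Ext.none)

def k0_mm_011 : ∃ t, chk3 f_mm_011 t 1 1 1 = true :=
  ⟨(l 4), by decide +kernel⟩

theorem c_mm_011 : CertF 0 536870912 536870912 536870912 33554432 16777216 true false false .pnn 0 1 1
    ndF4q0 ndF4q1 pcF1 Cut.none Ext.none :=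
  certFK0 (fam := true) (s1 := false) (s2 := false) (a := 0) (b := 1) (c := 1) (cn := .pnn) (n1 := ndF4q0) (n2 := ndF4q1) (pc := pcF1) (cut := Cut.none) (xt := Ext.none) (P1 := 0) (W1 := 536870912) (P2 := 536870912) (W2 := 536870912) (P3 := 33554432) (W3 := 16777216)
    rfl rfl rfl k0_mm_011

noncomputable def f_mm_012 : ℕ → ℕ → ℕ → ℕ → Bool := onCell 0 536870912 536870912 536870912 33554432 16777216
    (rowFK 0 true false false .pnp 0 1 2 (qsf 0 536870912 536870912 536870912 2) ndF4q0 ndF4q1 pcF2 Cut.none Ext.none)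

def k0_mm_012 : ∃ t, chk3 f_mm_012 t 1 1 1 = true :=
  ⟨(l 4), by decide +kernel⟩

theorem c_mm_012 : CertF 0 536870912 536870912 536870912 33554432 16777216 true false false .pnp 0 1 2
    ndF4q0 ndF4q1 pcF2 Cut.none Ext.none :=
  certFK0 (fam := true) (s1 := false) (s2 := false) (a := 0) (b := 1) (c := 2) (cn := .pnp) (n1 := ndF4q0) (n2 := ndF4q1) (pc := pcF2) (cut := Cut.none) (xt := Ext.none) (P1 := 0) (W1 := 536870912) (P2 := 536870912) (W2 := 536870912) (P3 := 33554432) (W3 := 16777216)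
    rfl rfl rfl k0_mm_012

noncomputable def f_mm_022 : ℕ → ℕ → ℕ → ℕ → Bool := onCell 0 536870912 1073741824 536870912 33554432 16777216
    (rowFK 0 true false false .pp 0 2 2 (qsf 0 536870912 1073741824 536870912 2) ndF4q0 ndF4q2 pcF2 Cut.none Ext.none)

def k0_mm_022 : ∃ t, chk3 f_mm_022 t 1 1 1 = true :=
  ⟨(l 4), by decide +kernel⟩

theorem c_mm_022 : CertF 0 536870912 1073741824 536870912 33554432 16777216 true false false .pp 0 2 2
    ndF4q0 ndF4q2 pcF2 Cut.none Ext.none :=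
  certFK0 (fam := true) (s1 := false) (s2 := false) (a := 0) (b := 2) (c := 2) (cn := .pp) (n1 := ndF4q0) (n2 := ndF4q2) (pc := pcF2) (cut := Cut.none) (xt := Ext.none) (P1 := 0) (W1 := 536870912) (P2 := 1073741824) (W2 := 536870912) (P3 := 33554432) (W3 := 16777216)
    rfl rfl rfl k0_mm_022

noncomputable def f_mm_023 : ℕ → ℕ → ℕ → ℕ → Bool := onCell 0 536870912 1073741824 536870912 33554432 16777216
    (rowFK 0 true false false .up 0 2 3 (qsf 0 536870912 1073741824 536870912 3) ndF4q0 ndF4q2 pcF3 Cut.none Ext.none)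

def k0_mm_023 : ∃ t, chk3 f_mm_023 t 1 1 1 = true :=
  ⟨(l 4), by decide +kernel⟩

theorem c_mm_023 : CertF 0 536870912 1073741824 536870912 33554432 16777216 true false false .up 0 2 3
    ndF4q0 ndF4q2 pcF3 Cut.none Ext.none :=
  certFK0 (fam := true) (s1 := false) (s2 := false) (a := 0) (b := 2) (c := 3) (cn := .up) (n1 := ndF4q0) (n2 := ndF4q2) (pc := pcF3) (cut := Cut.none) (xt := Ext.none) (P1 := 0) (W1 := 536870912) (P2 := 1073741824) (W2 := 536870912) (P3 := 33554432) (W3 := 16777216)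
    rfl rfl rfl k0_mm_023

noncomputable def f_mm_033 : ℕ → ℕ → ℕ → ℕ → Bool := onCell 0 536870912 0 1230186008 33554432 16777216
    (rowFK 0 true false false .pnn 0 3 3 (qsf 0 536870912 0 1230186008 3) ndF4q0 ndF4q3 pcF3 Cut.none Ext.none)

def k0_mm_033 : ∃ t, chk3 f_mm_033 t 1 1 1 = true :=
  ⟨(l 4), by decide +kernel⟩

theorem c_mm_033 : CertF 0 536870912 0 1230186008 33554432 16777216 true false false .pnn 0 3 3
    ndF4q0 ndF4q3 pcF3 Cut.none Ext.none :=
  certFK0 (fam := true) (s1 := false) (s2 := false) (a := 0) (b := 3) (c := 3) (cn := .pnn) (n1 := ndF4q0) (n2 := ndF4q3) (pc := pcF3) (cut := Cut.none) (xt := Ext.none) (P1 := 0) (W1 := 536870912) (P2 := 0) (W2 := 1230186008) (P3 := 33554432) (W3 := 16777216)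
    rfl rfl rfl k0_mm_033

noncomputable def f_mm_101 : ℕ → ℕ → ℕ → ℕ → Bool := onCell 536870912 536870912 0 536870912 33554432 16777216
    (rowFK 0 true false false .npn 1 0 1 (qsf 536870912 536870912 0 536870912 1) ndF4q1 ndF4q0 pcF1 Cut.none Ext.none)

def k0_mm_101 : ∃ t, chk3 f_mm_101 t 1 1 1 = true :=
  ⟨(l 4), by decide +kernel⟩

theorem c_mm_101 : CertF 536870912 536870912 0 536870912 33554432 16777216 true false false .npn 1 0 1
    ndF4q1 ndF4q0 pcF1 Cut.none Ext.none :=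
  certFK0 (fam := true) (s1 := false) (s2 := false) (a := 1) (b := 0) (c := 1) (cn := .npn) (n1 := ndF4q1) (n2 := ndF4q0) (pc := pcF1) (cut := Cut.none) (xt := Ext.none) (P1 := 536870912) (W1 := 536870912) (P2 := 0) (W2 := 536870912) (P3 := 33554432) (W3 := 16777216)
    rfl rfl rfl k0_mm_101

noncomputable def f_mm_102 : ℕ → ℕ → ℕ → ℕ → Bool := onCell 536870912 536870912 0 536870912 33554432 16777216
    (rowFK 0 true false false .npp 1 0 2 (qsf 536870912 536870912 0 536870912 2) ndF4q1 ndF4q0 pcF2 Cut.none Ext.none)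

def k0_mm_102 : ∃ t, chk3 f_mm_102 t 1 1 1 = true :=
  ⟨(l 4), by decide +kernel⟩

theorem c_mm_102 : CertF 536870912 536870912 0 536870912 33554432 16777216 true false false .npp 1 0 2
    ndF4q1 ndF4q0 pcF2 Cut.none Ext.none :=
  certFK0 (fam := true) (s1 := false) (s2 := false) (a := 1) (b := 0) (c := 2) (cn := .npp) (n1 := ndF4q1) (n2 := ndF4q0) (pc := pcF2) (cut := Cut.none) (xt := Ext.none) (P1 := 536870912) (W1 := 536870912) (P2 := 0) (W2 := 536870912) (P3 := 33554432) (W3 := 16777216)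
    rfl rfl rfl k0_mm_102

noncomputable def f_mm_112 : ℕ → ℕ → ℕ → ℕ → Bool := onCell 536870912 536870912 536870912 536870912 33554432 16777216
    (rowFK 0 true false false .dn 1 1 2 (qsf 536870912 536870912 536870912 536870912 2) ndF4q1 ndF4q1 pcF2 Cut.none Ext.none)

def k0_mm_112 : ∃ t, chk3 f_mm_112 t 1 1 1 = true :=
  ⟨(l 4), by decide +kernel⟩

theorem c_mm_112 : CertF 536870912 536870912 536870912 536870912 33554432 16777216 true false false .dn 1 1 2
    ndF4q1 ndF4q1 pcF2 Cut.none Ext.none :=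
  certFK0 (fam := true) (s1 := false) (s2 := false) (a := 1) (b := 1) (c := 2) (cn := .dn) (n1 := ndF4q1) (n2 := ndF4q1) (pc := pcF2) (cut := Cut.none) (xt := Ext.none) (P1 := 536870912) (W1 := 536870912) (P2 := 536870912) (W2 := 536870912) (P3 := 33554432) (W3 := 16777216)
    rfl rfl rfl k0_mm_112

noncomputable def f_mm_113 : ℕ → ℕ → ℕ → ℕ → Bool := onCell 536870912 536870912 536870912 536870912 33554432 16777216
    (rowFK 0 true false false .nn 1 1 3 (qsf 536870912 536870912 536870912 536870912 3) ndF4q1 ndF4q1 pcF3 Cut.none Ext.none)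

def k0_mm_113 : ∃ t, chk3 f_mm_113 t 1 1 1 = true :=
  ⟨(l 4), by decide +kernel⟩

theorem c_mm_113 : CertF 536870912 536870912 536870912 536870912 33554432 16777216 true false false .nn 1 1 3
    ndF4q1 ndF4q1 pcF3 Cut.none Ext.none :=
  certFK0 (fam := true) (s1 := false) (s2 := false) (a := 1) (b := 1) (c := 3) (cn := .nn) (n1 := ndF4q1) (n2 := ndF4q1) (pc := pcF3) (cut := Cut.none) (xt := Ext.none) (P1 := 536870912) (W1 := 536870912) (P2 := 536870912) (W2 := 536870912) (P3 := 33554432) (W3 := 16777216)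
    rfl rfl rfl k0_mm_113

noncomputable def f_mm_123 : ℕ → ℕ → ℕ → ℕ → Bool := onCell 536870912 536870912 1073741824 536870912 33554432 16777216
    (rowFK 0 true false false .npn 1 2 3 (qsf 536870912 536870912 1073741824 536870912 3) ndF4q1 ndF4q2 pcF3 Cut.none Ext.none)

def k0_mm_123 : ∃ t, chk3 f_mm_123 t 1 1 1 = true :=
  ⟨(l 4), by decide +kernel⟩

theorem c_mm_123 : CertF 536870912 536870912 1073741824 536870912 33554432 16777216 true false false .npn 1 2 3
    ndF4q1 ndF4q2 pcF3 Cut.none Ext.none :=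
  certFK0 (fam := true) (s1 := false) (s2 := false) (a := 1) (b := 2) (c := 3) (cn := .npn) (n1 := ndF4q1) (n2 := ndF4q2) (pc := pcF3) (cut := Cut.none) (xt := Ext.none) (P1 := 536870912) (W1 := 536870912) (P2 := 1073741824) (W2 := 536870912) (P3 := 33554432) (W3 := 16777216)
    rfl rfl rfl k0_mm_123

noncomputable def f_mm_133 : ℕ → ℕ → ℕ → ℕ → Bool := onCell 536870912 536870912 0 1230186008 33554432 16777216
    (rowFK 0 true false false .dn 1 3 3 (qsf 536870912 536870912 0 1230186008 3) ndF4q1 ndF4q3 pcF3 Cut.none Ext.none)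

def k0_mm_133 : ∃ t, chk3 f_mm_133 t 1 1 1 = true :=
  ⟨(l 4), by decide +kernel⟩

theorem c_mm_133 : CertF 536870912 536870912 0 1230186008 33554432 16777216 true false false .dn 1 3 3
    ndF4q1 ndF4q3 pcF3 Cut.none Ext.none :=
  certFK0 (fam := true) (s1 := false) (s2 := false) (a := 1) (b := 3) (c := 3) (cn := .dn) (n1 := ndF4q1) (n2 := ndF4q3) (pc := pcF3) (cut := Cut.none) (xt := Ext.none) (P1 := 536870912) (W1 := 536870912) (P2 := 0) (W2 := 1230186008) (P3 := 33554432) (W3 := 16777216)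
    rfl rfl rfl k0_mm_133

noncomputable def f_mm_202 : ℕ → ℕ → ℕ → ℕ → Bool := onCell 1073741824 536870912 0 536870912 33554432 16777216
    (rowFK 0 true false false .pp 2 0 2 (qsf 1073741824 536870912 0 536870912 2) ndF4q2 ndF4q0 pcF2 Cut.none Ext.none)

def k0_mm_202 : ∃ t, chk3 f_mm_202 t 1 1 1 = true :=
  ⟨(l 4), by decide +kernel⟩

theorem c_mm_202 : CertF 1073741824 536870912 0 536870912 33554432 16777216 true false false .pp 2 0 2
    ndF4q2 ndF4q0 pcF2 Cut.none Ext.none :=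
  certFK0 (fam := true) (s1 := false) (s2 := false) (a := 2) (b := 0) (c := 2) (cn := .pp) (n1 := ndF4q2) (n2 := ndF4q0) (pc := pcF2) (cut := Cut.none) (xt := Ext.none) (P1 := 1073741824) (W1 := 536870912) (P2 := 0) (W2 := 536870912) (P3 := 33554432) (W3 := 16777216)
    rfl rfl rfl k0_mm_202

noncomputable def f_mm_203 : ℕ → ℕ → ℕ → ℕ → Bool := onCell 1073741824 536870912 0 536870912 33554432 16777216
    (rowFK 0 true false false .up 2 0 3 (qsf 1073741824 536870912 0 536870912 3) ndF4q2 ndF4q0 pcF3 Cut.none Ext.none)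

def k0_mm_203 : ∃ t, chk3 f_mm_203 t 1 1 1 = true :=
  ⟨(l 4), by decide +kernel⟩

theorem c_mm_203 : CertF 1073741824 536870912 0 536870912 33554432 16777216 true false false .up 2 0 3
    ndF4q2 ndF4q0 pcF3 Cut.none Ext.none :=
  certFK0 (fam := true) (s1 := false) (s2 := false) (a := 2) (b := 0) (c := 3) (cn := .up) (n1 := ndF4q2) (n2 := ndF4q0) (pc := pcF3) (cut := Cut.none) (xt := Ext.none) (P1 := 1073741824) (W1 := 536870912) (P2 := 0) (W2 := 536870912) (P3 := 33554432) (W3 := 16777216)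
    rfl rfl rfl k0_mm_203

noncomputable def f_mm_213 : ℕ → ℕ → ℕ → ℕ → Bool := onCell 1073741824 536870912 536870912 536870912 33554432 16777216
    (rowFK 0 true false false .pnn 2 1 3 (qsf 1073741824 536870912 536870912 536870912 3) ndF4q2 ndF4q1 pcF3 Cut.none Ext.none)

def k0_mm_213 : ∃ t, chk3 f_mm_213 t 1 1 1 = true :=
  ⟨(l 4), by decide +kernel⟩

theorem c_mm_213 : CertF 1073741824 536870912 536870912 536870912 33554432 16777216 true false false .pnn 2 1 3
    ndF4q2 ndF4q1 pcF3 Cut.none Ext.none :=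
  certFK0 (fam := true) (s1 := false) (s2 := false) (a := 2) (b := 1) (c := 3) (cn := .pnn) (n1 := ndF4q2) (n2 := ndF4q1) (pc := pcF3) (cut := Cut.none) (xt := Ext.none) (P1 := 1073741824) (W1 := 536870912) (P2 := 536870912) (W2 := 536870912) (P3 := 33554432) (W3 := 16777216)
    rfl rfl rfl k0_mm_213

noncomputable def f_mm_303 : ℕ → ℕ → ℕ → ℕ → Bool := onCell 0 1230186008 0 536870912 33554432 16777216
    (rowFK 0 true false false .npn 3 0 3 (qsf 0 1230186008 0 536870912 3) ndF4q3 ndF4q0 pcF3 Cut.none Ext.none)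

def k0_mm_303 : ∃ t, chk3 f_mm_303 t 1 1 1 = true :=
  ⟨(l 4), by decide +kernel⟩

theorem c_mm_303 : CertF 0 1230186008 0 536870912 33554432 16777216 true false false .npn 3 0 3
    ndF4q3 ndF4q0 pcF3 Cut.none Ext.none :=
  certFK0 (fam := true) (s1 := false) (s2 := false) (a := 3) (b := 0) (c := 3) (cn := .npn) (n1 := ndF4q3) (n2 := ndF4q0) (pc := pcF3) (cut := Cut.none) (xt := Ext.none) (P1 := 0) (W1 := 1230186008) (P2 := 0) (W2 := 536870912) (P3 := 33554432) (W3 := 16777216)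
    rfl rfl rfl k0_mm_303

noncomputable def f_mm_313 : ℕ → ℕ → ℕ → ℕ → Bool := onCell 0 1230186008 536870912 536870912 33554432 16777216
    (rowFK 0 true false false .dn 3 1 3 (qsf 0 1230186008 536870912 536870912 3) ndF4q3 ndF4q1 pcF3 Cut.none Ext.none)

def k0_mm_313 : ∃ t, chk3 f_mm_313 t 1 1 1 = true :=
  ⟨(l 4), by decide +kernel⟩

theorem c_mm_313 : CertF 0 1230186008 536870912 536870912 33554432 16777216 true false false .dn 3 1 3
    ndF4q3 ndF4q1 pcF3 Cut.none Ext.none :=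
  certFK0 (fam := true) (s1 := false) (s2 := false) (a := 3) (b := 1) (c := 3) (cn := .dn) (n1 := ndF4q3) (n2 := ndF4q1) (pc := pcF3) (cut := Cut.none) (xt := Ext.none) (P1 := 0) (W1 := 1230186008) (P2 := 536870912) (W2 := 536870912) (P3 := 33554432) (W3 := 16777216)
    rfl rfl rfl k0_mm_313

end Pool.Agent.Strip051.G.I1_32_3_64.Tab.C.FA44

namespace Pool.Agent.Strip051.G.I1_32_3_64.Tab.C.FB00

open Pool.Agent.Strip051.PB Pool.Agent.Strip051.PB.T
open Pool.Agent.Strip051.G.I1_32_3_64.Tab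

noncomputable def cut_pp_001 : Cut := Cut.of [[⟨3, 0, 0, 1449551462⟩], [⟨4, 0, 0, 2845415833⟩]]

noncomputable def f_pp_001 : ℕ → ℕ → ℕ → ℕ → Bool := onCell 0 536870912 536870912 536870912 33554432 16777216
    (rowFK 0 false true true .up 0 0 1 (qsf 0 536870912 536870912 536870912 0) ndF0q0 ndF0q1 pcF0 cut_pp_001 Ext.none)

def k0_pp_001 : ∃ t, chk3 f_pp_001 t 1 1 1 = true :=
  ⟨(l 6), by decide +kernel⟩

theorem c_pp_001 : CertF 0 536870912 536870912 536870912 33554432 16777216 false true true .up 0 0 1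
    ndF0q0 ndF0q1 pcF0 cut_pp_001 Ext.none :=
  certFK0 (fam := false) (s1 := true) (s2 := true) (a := 0) (b := 0) (c := 1) (cn := .up) (n1 := ndF0q0) (n2 := ndF0q1) (pc := pcF0) (cut := cut_pp_001) (xt := Ext.none) (P1 := 0) (W1 := 536870912) (P2 := 536870912) (W2 := 536870912) (P3 := 33554432) (W3 := 16777216)
    rfl rfl rfl k0_pp_001

noncomputable def cut_pp_011 : Cut := Cut.of [[⟨3, 0, 0, 1449551462⟩], [⟨4, 0, 0, 2845415833⟩], [⟨0, 0, 0, 33554432⟩, ⟨1, 1, 0, 33554432⟩, ⟨2, 1, 0, 33554432⟩]]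

noncomputable def f_pp_011 : ℕ → ℕ → ℕ → ℕ → Bool := onCell 0 536870912 536870912 536870912 33554432 16777216
    (rowFK 0 false true true .pnn 0 1 1 (qsf 0 536870912 536870912 536870912 1) ndF0q0 ndF0q1 pcF1 cut_pp_011 Ext.none)

def k0_pp_011 : ∃ t, chk3 f_pp_011 t 1 1 1 = true :=
  ⟨(l 6), by decide +kernel⟩

theorem c_pp_011 : CertF 0 536870912 536870912 536870912 33554432 16777216 false true true .pnn 0 1 1
    ndF0q0 ndF0q1 pcF1 cut_pp_011 Ext.none :=
  certFK0 (fam := false) (s1 := true) (s2 := true) (a := 0) (b := 1) (c := 1) (cn := .pnn) (n1 := ndF0q0) (n2 := ndF0q1) (pc := pcF1) (cut := cut_pp_011) (xt := Ext.none) (P1 := 0) (W1 := 536870912) (P2 := 536870912) (W2 := 536870912) (P3 := 33554432) (W3 := 16777216)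
    rfl rfl rfl k0_pp_011

noncomputable def cut_pp_012 : Cut := Cut.of [[⟨3, 0, 0, 1449551462⟩], [⟨4, 0, 0, 2845415833⟩], [⟨0, 0, 0, 12582912⟩, ⟨1, 1, 0, 12582912⟩, ⟨2, 1, 0, 12582912⟩]]

noncomputable def f_pp_012 : ℕ → ℕ → ℕ → ℕ → Bool := onCell 536870912 536870912 0 536870912 33554432 16777216
    (rowFK 2 false true true .pnp 0 1 2 (qsf 0 536870912 0 536870912 1) ndF0q0 ndF0q2 pcF1 cut_pp_012 Ext.none)

def k0_pp_012 : ∃ t, chk3 f_pp_012 t 1 1 1 = true :=
  ⟨(a (l 6) (b (b (b (a (a (l 17482520) (l 17678472)) (a (l 18019408) (l 18524792))) (a (a (l 6) (l 17482864)) (a (l 17861400) (l 18417464)))) (a (l 6) (a (a (l 6) (b (l 17856272) (l 6))) (a (b (l 18133960) (l 6)) (b (l 18472328) (l 18339736)))))) (l 6))), by decide +kernel⟩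

theorem c_pp_012 : CertF 0 536870912 0 536870912 33554432 16777216 false true true .pnp 0 1 2
    ndF0q0 ndF0q2 pcF1 cut_pp_012 Ext.none :=
  certFK2 (fam := false) (s1 := true) (s2 := true) (a := 0) (b := 1) (c := 2) (cn := .pnp) (n1 := ndF0q0) (n2 := ndF0q2) (pc := pcF1) (cut := cut_pp_012) (xt := Ext.none) (P1 := 0) (W1 := 536870912) (P2 := 0) (W2 := 536870912) (P3 := 33554432) (W3 := 16777216)
    rfl rfl rfl (fun _ => rfl) k0_pp_012

noncomputable def cut_pp_022 : Cut := Cut.of [[⟨3, 0, 0, 1449551462⟩], [⟨4, 0, 0, 2845415833⟩], [⟨0, 0, 0, 33554432⟩, ⟨1, 1, 0, 33554432⟩, ⟨2, 1, 0, 33554432⟩]]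

noncomputable def f_pp_022 : ℕ → ℕ → ℕ → ℕ → Bool := onCell 1073741824 536870912 0 536870912 33554432 16777216
    (rowFK 2 false true true .pp 0 2 2 (qsf 0 536870912 0 536870912 2) ndF0q0 ndF0q2 pcF2 cut_pp_022 Ext.none)

def k0_pp_022 : ∃ t, chk3 f_pp_022 t 1 1 1 = true :=
  ⟨(a (b (a (a (a (a (a (b (l 19050224) (l 18772184)) (b (l 19070504) (l 18802384))) (b (l 19103360) (l 18850336))) (b (l 19172128) (l 18948184))) (b (l 19311528) (l 19352616))) (a (b (l 19476616) (l 19375360)) (l 1))) (b (a (b (a (a (a (l 6) (l 18563264)) (l 18717376)) (a (l 18938864) (l 19126896))) (a (l 6) (a (b (l 18823904) (l 6)) (l 147677763111)))) (l 1)) (a (l 6) (l 1)))) (l 1)), by decide +kernel⟩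

theorem c_pp_022 : CertF 0 536870912 0 536870912 33554432 16777216 false true true .pp 0 2 2
    ndF0q0 ndF0q2 pcF2 cut_pp_022 Ext.none :=
  certFK2 (fam := false) (s1 := true) (s2 := true) (a := 0) (b := 2) (c := 2) (cn := .pp) (n1 := ndF0q0) (n2 := ndF0q2) (pc := pcF2) (cut := cut_pp_022) (xt := Ext.none) (P1 := 0) (W1 := 536870912) (P2 := 0) (W2 := 536870912) (P3 := 33554432) (W3 := 16777216)
    rfl rfl rfl (fun _ => rfl) k0_pp_022

noncomputable def cut_pp_101 : Cut := Cut.of [[⟨3, 0, 0, 1449551462⟩], [⟨4, 0, 0, 2845415833⟩]]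

noncomputable def f_pp_101 : ℕ → ℕ → ℕ → ℕ → Bool := onCell 536870912 536870912 536870912 536870912 33554432 16777216
    (rowFK 0 false true true .npn 1 0 1 (qsf 536870912 536870912 536870912 536870912 0) ndF0q1 ndF0q1 pcF0 cut_pp_101 Ext.none)

def k0_pp_101 : ∃ t, chk3 f_pp_101 t 1 1 1 = true :=
  ⟨(l 3), by decide +kernel⟩

theorem c_pp_101 : CertF 536870912 536870912 536870912 536870912 33554432 16777216 false true true .npn 1 0 1
    ndF0q1 ndF0q1 pcF0 cut_pp_101 Ext.none :=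
  certFK0 (fam := false) (s1 := true) (s2 := true) (a := 1) (b := 0) (c := 1) (cn := .npn) (n1 := ndF0q1) (n2 := ndF0q1) (pc := pcF0) (cut := cut_pp_101) (xt := Ext.none) (P1 := 536870912) (W1 := 536870912) (P2 := 536870912) (W2 := 536870912) (P3 := 33554432) (W3 := 16777216)
    rfl rfl rfl k0_pp_101

noncomputable def cut_pp_102 : Cut := Cut.of [[⟨3, 0, 0, 1449551462⟩], [⟨4, 0, 0, 2845415833⟩]]

noncomputable def f_pp_102 : ℕ → ℕ → ℕ → ℕ → Bool := onCell 536870912 536870912 0 536870912 33554432 16777216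
    (rowFK 0 false true true .npp 1 0 2 (qsf 536870912 536870912 0 536870912 0) ndF0q1 ndF0q2 pcF0 cut_pp_102 Ext.none)

def k0_pp_102 : ∃ t, chk3 f_pp_102 t 1 1 1 = true :=
  ⟨(a (l 6) (l 3)), by decide +kernel⟩

theorem c_pp_102 : CertF 536870912 536870912 0 536870912 33554432 16777216 false true true .npp 1 0 2
    ndF0q1 ndF0q2 pcF0 cut_pp_102 Ext.none :=
  certFK0 (fam := false) (s1 := true) (s2 := true) (a := 1) (b := 0) (c := 2) (cn := .npp) (n1 := ndF0q1) (n2 := ndF0q2) (pc := pcF0) (cut := cut_pp_102) (xt := Ext.none) (P1 := 536870912) (W1 := 536870912) (P2 := 0) (W2 := 536870912) (P3 := 33554432) (W3 := 16777216)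
    rfl rfl rfl k0_pp_102

noncomputable def cut_pp_112 : Cut := Cut.of [[⟨3, 0, 0, 1449551462⟩], [⟨4, 0, 0, 2845415833⟩]]

noncomputable def f_pp_112 : ℕ → ℕ → ℕ → ℕ → Bool := onCell 536870912 536870912 0 536870912 33554432 16777216
    (rowFK 0 false true true .dn 1 1 2 (qsf 536870912 536870912 0 536870912 1) ndF0q1 ndF0q2 pcF1 cut_pp_112 Ext.none)

def k0_pp_112 : ∃ t, chk3 f_pp_112 t 1 1 1 = true :=
  ⟨(a (l 6) (l 1)), by decide +kernel⟩

theorem c_pp_112 : CertF 536870912 536870912 0 536870912 33554432 16777216 false true true .dn 1 1 2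
    ndF0q1 ndF0q2 pcF1 cut_pp_112 Ext.none :=
  certFK0 (fam := false) (s1 := true) (s2 := true) (a := 1) (b := 1) (c := 2) (cn := .dn) (n1 := ndF0q1) (n2 := ndF0q2) (pc := pcF1) (cut := cut_pp_112) (xt := Ext.none) (P1 := 536870912) (W1 := 536870912) (P2 := 0) (W2 := 536870912) (P3 := 33554432) (W3 := 16777216)
    rfl rfl rfl k0_pp_112

noncomputable def cut_pp_202 : Cut := Cut.of [[⟨3, 0, 0, 1449551462⟩], [⟨4, 0, 0, 2845415833⟩]]

noncomputable def f_pp_202 : ℕ → ℕ → ℕ → ℕ → Bool := onCell 0 536870912 0 536870912 33554432 16777216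
    (rowFK 0 false true true .pp 2 0 2 (qsf 0 536870912 0 536870912 0) ndF0q2 ndF0q2 pcF0 cut_pp_202 Ext.none)

def k0_pp_202 : ∃ t, chk3 f_pp_202 t 1 1 1 = true :=
  ⟨(l 3), by decide +kernel⟩

theorem c_pp_202 : CertF 0 536870912 0 536870912 33554432 16777216 false true true .pp 2 0 2
    ndF0q2 ndF0q2 pcF0 cut_pp_202 Ext.none :=
  certFK0 (fam := false) (s1 := true) (s2 := true) (a := 2) (b := 0) (c := 2) (cn := .pp) (n1 := ndF0q2) (n2 := ndF0q2) (pc := pcF0) (cut := cut_pp_202) (xt := Ext.none) (P1 := 0) (W1 := 536870912) (P2 := 0) (W2 := 536870912) (P3 := 33554432) (W3 := 16777216)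
    rfl rfl rfl k0_pp_202

noncomputable def cut_pm_001 : Cut := Cut.of [[⟨3, 0, 0, 1449551462⟩], [⟨4, 0, 0, 2845415833⟩]]

noncomputable def f_pm_001 : ℕ → ℕ → ℕ → ℕ → Bool := onCell 0 536870912 536870912 536870912 33554432 16777216
    (rowFK 0 false true false .up 0 0 1 (qsf 0 536870912 536870912 536870912 0) ndF0q0 ndF0q1 pcF0 cut_pm_001 Ext.none)

def k0_pm_001 : ∃ t, chk3 f_pm_001 t 1 1 1 = true :=
  ⟨(b (l 14) (b (a (l 14) (a (l 14) (b (l 14) (a (a (l 14) (a (l 14) (b (l 14) (c (l 17718704) (c (l 17211184) (l 17400280)))))) (b (a (l 14) (c (c (l 17577856) (l 17312072)) (c (l 17115936) (l 17285832)))) (c (c (a (l 17723336) (l 17847952)) (l 17678152)) (c (l 17301864) (a (a (l 17416184) (l 17400624)) (l 17471944))))))))) (a (l 2) (b (a (b (l 14) (l 2)) (a (b (a (c (c (l 18063608) (l 17566336)) (c (l 17347704) (b (l 17528472) (l 63990089303)))) (c (c (l 18129120) (l 17619664)) (c (l 17350456) (b (l 17546672) (c (l 17324840) (l 17635488)))))) (b (c (c (a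 (l 94056060727) (l 18369024)) (l 80633782775)) (c (l 87075481127) (c (l 84391266807) (a (l 17887184) (l 17845936))))) (a (l 2) (c (b (l 18076176) (l 17965648)) (c (l 17345624) (c (l 17594864) (l 17839648))))))) (b (b (c (c (l 18153424) (l 17670960)) (c (l 17347664) (a (l 17547200) (l 17547320)))) (c (c (a (l 18125184) (l 18440816)) (l 18020712)) (c (l 17518792) (c (l 17550488) (a (l 17601264) (l 17680760)))))) (c (b (c (a (l 18359568) (l 18295256)) (a (l 17777768) (l 17815016))) (c (l 18086200) (l 17713840))) (c (b (l 17608512) (l 17472072)) (c (b (l 17665312) (l 17578904)) (a (l 17972376) (l 17886080)))))))) (a (l 2) (a (a (l 2) (b (c (b (l 115530139623) (l 2)) (c (l 17768976) (l 18083512))) (l 2))) (b (c (b (c (l 17953336) (l 17458176)) (c (l 17549824) (l 17486480))) (c (l 77412309431) (l 54327435319))) (b (c (l 17953128) (l 18071264)) (l 18469304))))))))), by decide +kernel⟩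

theorem c_pm_001 : CertF 0 536870912 536870912 536870912 33554432 16777216 false true false .up 0 0 1
    ndF0q0 ndF0q1 pcF0 cut_pm_001 Ext.none :=
  certFK0 (fam := false) (s1 := true) (s2 := false) (a := 0) (b := 0) (c := 1) (cn := .up) (n1 := ndF0q0) (n2 := ndF0q1) (pc := pcF0) (cut := cut_pm_001) (xt := Ext.none) (P1 := 0) (W1 := 536870912) (P2 := 536870912) (W2 := 536870912) (P3 := 33554432) (W3 := 16777216)
    rfl rfl rfl k0_pm_001

noncomputable def cut_pm_011 : Cut := Cut.of [[⟨3, 0, 0, 1449551462⟩], [⟨4, 0, 0, 2845415833⟩], [⟨0, 0, 0, 16777216⟩, ⟨1, 1, 0, 16777216⟩, ⟨2, 1, 0, 16777216⟩], [⟨0, 0, 1, 16777216⟩, ⟨1, 1, 2, 16777216⟩, ⟨2, 1, 0, 6291456⟩, ⟨0, 0, 0, 67108864⟩, ⟨0, 1, 0, 1056964608⟩, ⟨1, 0, 0, 1056964608⟩, ⟨1, 1, 0, 67108864⟩]]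

noncomputable def f_pm_011 : ℕ → ℕ → ℕ → ℕ → Bool := onCell 0 536870912 536870912 536870912 33554432 16777216
    (rowFK 0 false true false .pnn 0 1 1 (qsf 0 536870912 536870912 536870912 1) ndF0q0 ndF0q1 pcF1 cut_pm_011 Ext.none)

def k0_pm_011 : ∃ t, chk3 f_pm_011 t 1 1 1 = true :=
  ⟨(b (l 14) (a (a (l 14) (b (l 14) (b (l 14) (a (l 14) (b (l 14) (b (l 14) (l 18407800))))))) (b (a (l 14) (a (a (l 14) (l 1)) (l 1))) (a (b (b (l 14) (a (l 14) (b (l 18024368) (l 18230432)))) (b (a (b (a (l 14) (l 18245024)) (l 18339472)) (l 18446816)) (a (l 18570072) (l 18715960)))) (b (b (a (l 17844360) (l 1)) (a (l 18231456) (l 18200552))) (a (l 18581936) (l 18525952))))))), by decide +kernel⟩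

theorem c_pm_011 : CertF 0 536870912 536870912 536870912 33554432 16777216 false true false .pnn 0 1 1
    ndF0q0 ndF0q1 pcF1 cut_pm_011 Ext.none :=
  certFK0 (fam := false) (s1 := true) (s2 := false) (a := 0) (b := 1) (c := 1) (cn := .pnn) (n1 := ndF0q0) (n2 := ndF0q1) (pc := pcF1) (cut := cut_pm_011) (xt := Ext.none) (P1 := 0) (W1 := 536870912) (P2 := 536870912) (W2 := 536870912) (P3 := 33554432) (W3 := 16777216)
    rfl rfl rfl k0_pm_011

noncomputable def cut_pm_012 : Cut := Cut.of [[⟨3, 0, 0, 1449551462⟩], [⟨4, 0, 0, 2845415833⟩], [⟨0, 0, 0, 33554432⟩, ⟨1, 1, 0, 33554432⟩, ⟨2, 1, 0, 33554432⟩], [⟨0, 0, 1, 16777216⟩, ⟨1, 1, 2, 16777216⟩, ⟨2, 1, 0, 6291456⟩, ⟨0, 0, 0, 67108864⟩, ⟨0, 1, 0, 1056964608⟩, ⟨1, 0, 0, 1056964608⟩, ⟨1, 1, 0, 67108864⟩]]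

noncomputable def f_pm_012 : ℕ → ℕ → ℕ → ℕ → Bool := onCell 536870912 536870912 0 536870912 33554432 16777216
    (rowFK 2 false true false .pnp 0 1 2 (qsf 0 536870912 0 536870912 1) ndF0q0 ndF0q2 pcF1 cut_pm_012 Ext.none)

def k0_pm_012 : ∃ t, chk3 f_pm_012 t 1 1 1 = true :=
  ⟨(a (b (a (a (l 2) (b (l 2) (l 364638172167))) (b (a (b (l 6) (l 17488008)) (l 17809960)) (a (b (l 17678824) (l 17867392)) (l 17983312)))) (a (b (a (l 2) (b (l 18004808) (l 18295216))) (b (l 18738960) (a (l 18663320) (l 18741824)))) (b (a (l 18267632) (l 18417336)) (b (l 18892352) (a (l 18835744) (l 18801296)))))) (b (a (b (a (l 17820192) (l 17987320)) (a (l 18100008) (l 18274576))) (a (b (l 18315648) (l 18561032)) (a (b (l 18619832) (l 18935192)) (a (b (l 18860072) (l 19189064)) (a (b (l 18997288) (l 19333768)) (b (l 19095120) (l 19428016))))))) (b (a (a (l 18511112) (l 18747328)) (a (b (l 18781384) (l 18893056)) (a (b (l 19124584) (l 19158008)) (a (b (l 19352424) (l 19306680)) (a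 (b (l 19476536) (l 19363728)) (b (l 19556296) (l 19376128))))))) (b (b (a (l 18725640) (a (l 18865096) (a (l 19011792) (a (l 19019024) (a (l 18939936) (b (l 18958344) (l 14))))))) (a (l 18780952) (a (l 18919224) (a (a (l 18764968) (l 18558408)) (l 14))))) (a (a (b (l 18702888) (l 18603112)) (b (l 18607728) (b (l 18469216) (l 14)))) (a (b (a (l 18553200) (l 14)) (l 14)) (l 14))))))), by decide +kernel⟩

theorem c_pm_012 : CertF 0 536870912 0 536870912 33554432 16777216 false true false .pnp 0 1 2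
    ndF0q0 ndF0q2 pcF1 cut_pm_012 Ext.none :=
  certFK2 (fam := false) (s1 := true) (s2 := false) (a := 0) (b := 1) (c := 2) (cn := .pnp) (n1 := ndF0q0) (n2 := ndF0q2) (pc := pcF1) (cut := cut_pm_012) (xt := Ext.none) (P1 := 0) (W1 := 536870912) (P2 := 0) (W2 := 536870912) (P3 := 33554432) (W3 := 16777216)
    rfl rfl rfl (fun _ => rfl) k0_pm_012

noncomputable def cut_pm_022 : Cut := Cut.of [[⟨3, 0, 0, 1449551462⟩], [⟨4, 0, 0, 2845415833⟩], [⟨0, 0, 0, 33554432⟩, ⟨1, 1, 0, 33554432⟩, ⟨2, 1, 0, 33554432⟩]]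

noncomputable def f_pm_022 : ℕ → ℕ → ℕ → ℕ → Bool := onCell 1073741824 536870912 0 536870912 33554432 16777216
    (rowFK 2 false true false .pp 0 2 2 (qsf 0 536870912 0 536870912 2) ndF0q0 ndF0q2 pcF2 cut_pm_022 Ext.none)

def k0_pm_022 : ∃ t, chk3 f_pm_022 t 1 1 1 = true :=
  ⟨(a (b (a (b (a (a (a (a (l 19379464) (l 19385864)) (l 19394848)) (l 19413240)) (l 19445920)) (a (b (l 19571312) (l 19616512)) (l 19503368))) (a (b (l 19491928) (l 345247513079)) (l 1))) (a (b (a (b (a (l 19634672) (l 19486640)) (a (b (l 19459464) (a (l 19239656) (l 19104520))) (b (l 19242736) (l 18664448)))) (b (a (l 19349576) (l 19258520)) (a (b (l 19053464) (l 14)) (l 310886019319)))) (a (b (a (b (b (a (l 18722256) (l 14)) (l 14)) (l 14)) (l 14)) (l 14)) (l 14))) (b (l 1) (l 1)))) (l 1)), by decide +kernel⟩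

theorem c_pm_022 : CertF 0 536870912 0 536870912 33554432 16777216 false true false .pp 0 2 2
    ndF0q0 ndF0q2 pcF2 cut_pm_022 Ext.none :=
  certFK2 (fam := false) (s1 := true) (s2 := false) (a := 0) (b := 2) (c := 2) (cn := .pp) (n1 := ndF0q0) (n2 := ndF0q2) (pc := pcF2) (cut := cut_pm_022) (xt := Ext.none) (P1 := 0) (W1 := 536870912) (P2 := 0) (W2 := 536870912) (P3 := 33554432) (W3 := 16777216)
    rfl rfl rfl (fun _ => rfl) k0_pm_022

noncomputable def cut_pm_101 : Cut := Cut.of [[⟨3, 0, 0, 1449551462⟩], [⟨4, 0, 0, 2845415833⟩], [⟨0, 1, 0, 33554432⟩, ⟨1, 0, 0, 33554432⟩, ⟨2, 1, 0, 33554432⟩]]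

noncomputable def f_pm_101 : ℕ → ℕ → ℕ → ℕ → Bool := onCell 536870912 536870912 536870912 536870912 33554432 16777216
    (rowFK 0 false true false .npn 1 0 1 (qsf 536870912 536870912 536870912 536870912 0) ndF0q1 ndF0q1 pcF0 cut_pm_101 Ext.none)

def k0_pm_101 : ∃ t, chk3 f_pm_101 t 2 2 1 = true :=
  ⟨(a (b (l 14) (b (l 14) (a (l 14) (c (b (a (l 14) (l 17389568)) (a (l 17502240) (l 17553832))) (c (l 17377568) (l 17313944)))))) (b (a (l 14) (l 1)) (b (a (c (b (l 17569776) (l 17634416)) (a (l 17428104) (l 17450448))) (a (b (l 1) (l 47280014471)) (l 1))) (a (c (b (l 17743224) (c (l 17815136) (l 17557736))) (c (l 17468072) (l 17415488))) (c (b (l 17848112) (l 18029248)) (c (l 17412568) (l 17393736))))))), by decide +kernel⟩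

def k1_pm_101 : ∃ t, chk3 f_pm_101 t 2 6 1 = true :=
  ⟨(a (b (b (a (a (l 14) (c (l 17577184) (l 17144656))) (c (c (l 17822792) (l 17432712)) (l 17325432))) (a (c (c (a (l 17533688) (l 17649344)) (l 17482672)) (a (c (l 17073544) (l 17152880)) (l 17245712))) (c (c (l 18061112) (l 17594616)) (l 17425304)))) (b (a (c (c (a (l 17732648) (l 17906160)) (l 17636888)) (c (l 17245472) (a (l 17262968) (l 17194240)))) (a (c (l 18166312) (l 17370312)) (c (l 18334624) (l 17445504)))) (a (c (c (c (l 18384272) (l 18036968)) (l 17853392)) (c (l 17455872) (a (l 17419376) (l 17357048)))) (c (c (l 18768016) (l 18062368)) (a (l 17596472) (l 17650472)))))) (b (a (c (c (b (l 18048176) (l 18332960)) (l 17966840)) (c (b (l 17404096) (l 17539736)) (l 17397360))) (c (c (b (l 18166200) (l 18494192)) (l 18021824)) (c (l 17621032) (l 17397712)))) (a (c (b (c (l 18709840) (l 18083512)) (c (b (l 18855688) (l 19275648)) (b (l 18286984) (l 18401528)))) (b (c (l 17653592) (l 17303168)) (c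 (b (l 17750080) (l 17937952)) (a (l 17368112) (l 17371912))))) (c (b (c (l 18919400) (l 18246336)) (c (b (l 19282632) (l 19272656)) (l 18650808))) (b (c (l 17708248) (l 17314328)) (a (c (l 17840304) (l 17363264)) (c (l 17840928) (l 17375336)))))))), by decide +kernel⟩

def k2_pm_101 : ∃ t, chk3 f_pm_101 t 4 7 1 = true :=
  ⟨(b (a (b (a (c (c (b (l 18310168) (l 18457160)) (l 18019136)) (c (l 17465192) (c (l 17384048) (c (l 17476720) (l 17680168))))) (c (c (b (l 18672696) (l 18578512)) (l 18089368)) (c (l 17575184) (c (l 17311320) (l 17642496))))) (c (c (b (l 18455456) (l 18114544)) (b (l 17890624) (l 17739096))) (c (l 17657232) (a (c (l 17410648) (l 17726600)) (l 17694144))))) (b (c (c (b (l 19034920) (l 18749224)) (b (l 18216496) (l 18165232))) (c (c (l 17878336) (l 17587136)) (c (l 17452752) (a (l 17493096) (l 17387720))))) (c (c (l 18625792) (l 18090992)) (c (l 17535160) (c (l 17344528) (l 17557296)))))) (b (c (a (b (c (l 17974656) (l 17501760)) (c (l 17522568)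 (l 17431336))) (b (c (l 17929200) (l 17586416)) (l 17597032))) (a (c (a (l 17633136) (l 17544272)) (c (l 17828304) (l 17894936))) (c (b (l 17257432) (l 17390520)) (l 17838664)))) (a (b (c (a (l 17646352) (l 17533600)) (l 18041640)) (l 16746920039)) (b (c (l 17623904) (c (l 17663944) (l 17841200))) (b (l 17859344) (l 18025608)))))), by decide +kernel⟩

def k3_pm_101 : ∃ t, chk3 f_pm_101 t 5 7 1 = true :=
  ⟨(b (a (b (c (c (b (l 19109880) (l 18842832)) (l 18555808)) (c (a (l 17852200) (l 17793248)) (a (l 17498224) (l 17317392)))) (c (c (l 18671784) (l 18119352)) (c (l 17647896) (c (l 17281432) (l 17373688))))) (c (b (c (l 19065392) (l 18413920)) (c (l 18625888) (l 18102568))) (b (c (l 17912680) (c (l 17346064) (l 17272736))) (c (l 17721280) (c (l 17216504) (l 17283040)))))) (b (a (c (b (c (l 18011064) (l 17655192)) (l 17636112)) (c (b (l 17311456) (l 17279840)) (l 17668472))) (c (b (a (l 17865008) (l 17868424)) (l 17680304)) (c (b (l 17268064) (l 17200576))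 (l 17550544)))) (a (b (c (b (l 17234664) (l 17332352)) (l 17747112)) (b (a (l 17700648) (l 17628160)) (l 17850120))) (b (c (b (l 17187336) (l 17272584)) (l 17669144)) (b (l 17772600) (l 17771880)))))), by decide +kernel⟩

def k4_pm_101 : ∃ t, chk3 f_pm_101 t 3 2 1 = true :=
  ⟨(a (b (l 1) (a (a (b (l 1) (c (l 22048014279) (l 17579520))) (l 1)) (l 1))) (l 1)), by decide +kernel⟩

def k5_pm_101 : ∃ t, chk3 f_pm_101 t 6 3 1 = true :=
  ⟨(b (b (a (c (c (b (l 18396800) (l 18784312)) (l 18258096)) (c (l 17753256) (l 17404776))) (a (c (c (l 49430119239) (l 18265960)) (c (l 17743736) (l 17394984))) (l 1))) (b (a (c (c (l 19276392) (l 18398736)) (c (l 17781832) (l 17329592))) (c (b (a (l 19093128) (l 1)) (c (a (l 19602912) (l 19794464)) (l 82179315143))) (c (a (l 17935784) (l 18116920)) (a (l 17491416) (l 133179314615))))) (a (a (c (c (l 19385624) (l 18531872)) (c (l 17855576) (l 17385800))) (c (c (l 19470472) (l 18601352)) (c (l 17907496) (l 17417000)))) (a (c (c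 (l 19624712) (l 18745792)) (c (l 17997384) (l 17532192))) (c (c (l 63927364023) (l 18850792)) (c (l 18113488) (l 86471590967))))))) (b (a (c (b (c (l 19144992) (l 18416864)) (c (l 18686688) (l 18131408))) (b (c (l 17920136) (c (l 17317856) (l 17225832))) (c (l 17737552) (c (l 17201120) (l 17284280))))) (c (b (c (a (l 19097088) (l 19265264)) (l 18784432)) (c (a (l 18585688) (l 18769272)) (a (l 18085504) (l 18200400)))) (b (c (a (l 17851960) (l 17964416)) (c (l 17695560) (l 17360936))) (c (b (l 17858520) (l 17802552)) (a (l 17252008) (l 17394376)))))) (b (a (c (b (b (l 17945408) (l 17840904)) (c (l 17727584) (l 17300440))) (c (b (l 17233184) (l 17213624)) (b (l 17330064) (l 17451128)))) (a (c (b (l 18003248) (c (l 17652928) (l 17368008))) (c (l 17377128) (l 17323392))) (c (b (l 18136232) (l 17869960)) (b (l 17492216) (l 17305416))))) (a (b (c (b (l 17234504) (l 17305040)) (c (l 17402632) (l 17522512))) (b (c (l 17504824) (l 17582720)) (l 17806448))) (b (c (a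 (l 17295488) (b (l 17428696) (l 17137776))) (a (l 17416336) (l 17310328))) (a (b (l 17537824) (l 17514952)) (b (c (l 17125408) (l 17272096)) (a (l 17368328) (l 17319960))))))))), by decide +kernel⟩

def k6_pm_101 : ∃ t, chk3 f_pm_101 t 7 3 1 = true :=
  ⟨(b (a (a (b (l 1) (a (b (l 1) (b (l 1) (c (l 19404392) (l 120295381191)))) (l 1))) (l 1)) (l 1)) (b (a (c (b (c (a (l 19527472) (l 146068505255)) (a (l 18714888) (l 19066808))) (c (a (l 19004064) (a (l 19002376) (l 19197984))) (a (l 18324608) (l 18642936)))) (b (c (a (l 18086080) (l 18214888)) (a (l 17706088) (l 17758536))) (c (a (l 17845392) (l 18008752)) (a (l 17567384) (l 17659248))))) (a (a (b (l 1) (a (b (l 1) (c (l 18840536) (l 17877336))) (l 1))) (l 1)) (l 1))) (a (b (c (b (a (l 18299808) (c (l 18410728) (l 18018576))) (c (a (l 17883616) (l 18026888)) (a (l 17591456) (l 17689200)))) (c (b (l 17838960) (a (l 17410088) (l 17441080))) (a (l 17330744) (l 76270637591)))) (b (b (c (a (l 17544864) (l 17620968))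 (a (l 17128328) (l 17282440))) (a (c (l 17357680) (l 17104600)) (l 6))) (a (b (c (l 17091728) (l 17135952)) (l 17374928)) (l 6)))) (b (b (a (a (a (c (l 18470640) (l 17718072)) (l 6)) (l 6)) (l 1)) (l 6)) (l 6))))), by decide +kernel⟩

theorem s7_pm_101 : ∃ t, chk3 f_pm_101 t 3 3 1 = true := ex3_a k5_pm_101 k6_pm_101

theorem s8_pm_101 : ∃ t, chk3 f_pm_101 t 3 1 1 = true := ex3_b k4_pm_101 s7_pm_101

theorem s9_pm_101 : ∃ t, chk3 f_pm_101 t 2 7 1 = true := ex3_a k2_pm_101 k3_pm_101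

theorem s10_pm_101 : ∃ t, chk3 f_pm_101 t 2 3 1 = true := ex3_b k1_pm_101 s9_pm_101

theorem s11_pm_101 : ∃ t, chk3 f_pm_101 t 2 1 1 = true := ex3_b k0_pm_101 s10_pm_101

theorem s12_pm_101 : ∃ t, chk3 f_pm_101 t 1 1 1 = true := ex3_a s11_pm_101 s8_pm_101

theorem c_pm_101 : CertF 536870912 536870912 536870912 536870912 33554432 16777216 false true false .npn 1 0 1
    ndF0q1 ndF0q1 pcF0 cut_pm_101 Ext.none :=
  certFK0 (fam := false) (s1 := true) (s2 := false) (a := 1) (b := 0) (c := 1) (cn := .npn) (n1 := ndF0q1) (n2 := ndF0q1) (pc := pcF0) (cut := cut_pm_101) (xt := Ext.none) (P1 := 536870912) (W1 := 536870912) (P2 := 536870912) (W2 := 536870912) (P3 := 33554432) (W3 := 16777216)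
    rfl rfl rfl s12_pm_101

noncomputable def cut_pm_102 : Cut := Cut.of [[⟨3, 0, 0, 1449551462⟩], [⟨4, 0, 0, 2845415833⟩], [⟨0, 1, 0, 12582912⟩, ⟨1, 0, 0, 12582912⟩, ⟨2, 1, 0, 12582912⟩]]

noncomputable def f_pm_102 : ℕ → ℕ → ℕ → ℕ → Bool := onCell 536870912 536870912 0 536870912 33554432 16777216
    (rowFK 0 false true false .npp 1 0 2 (qsf 536870912 536870912 0 536870912 0) ndF0q1 ndF0q2 pcF0 cut_pm_102 Ext.none)

def k0_pm_102 : ∃ t, chk3 f_pm_102 t 1 1 1 = true :=
  ⟨(a (b (a (b (l 2) (a (l 2) (b (l 2) (l 17497576)))) (a (b (l 6) (b (l 6) (a (l 17334568) (l 6)))) (l 6))) (a (b (a (l 2) (b (l 17718320) (l 17850088))) (b (l 18044392) (a (l 18346456) (l 18125656)))) (b (a (b (l 17683880) (l 17682032)) (b (a (l 17362632) (l 6)) (l 17832920))) (b (a (l 17785760) (l 17724232)) (a (l 18082216) (l 18030960)))))) (b (l 6) (a (b (a (b (l 6) (a (l 17589648) (l 6))) (l 6)) (b (a (b (l 17788576) (l 17666328)) (a (b (l 6) (l 17474880)) (l 6))) (a (b (l 17704536) (l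 17733576)) (a (l 17775736) (b (l 17358544) (l 17387560)))))) (a (b (l 6) (l 6)) (l 6))))), by decide +kernel⟩

theorem c_pm_102 : CertF 536870912 536870912 0 536870912 33554432 16777216 false true false .npp 1 0 2
    ndF0q1 ndF0q2 pcF0 cut_pm_102 Ext.none :=
  certFK0 (fam := false) (s1 := true) (s2 := false) (a := 1) (b := 0) (c := 2) (cn := .npp) (n1 := ndF0q1) (n2 := ndF0q2) (pc := pcF0) (cut := cut_pm_102) (xt := Ext.none) (P1 := 536870912) (W1 := 536870912) (P2 := 0) (W2 := 536870912) (P3 := 33554432) (W3 := 16777216)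
    rfl rfl rfl k0_pm_102

noncomputable def cut_pm_112 : Cut := Cut.of [[⟨3, 0, 0, 1449551462⟩], [⟨4, 0, 0, 2845415833⟩]]

noncomputable def f_pm_112 : ℕ → ℕ → ℕ → ℕ → Bool := onCell 536870912 536870912 0 536870912 33554432 16777216
    (rowFK 2 false true false .dn 1 1 2 (qsf 536870912 536870912 0 536870912 1) ndF0q1 ndF0q2 pcF1 cut_pm_112 Ext.none)

def k0_pm_112 : ∃ t, chk3 f_pm_112 t 1 1 1 = true :=
  ⟨(a (a (b (b (l 6) (a (b (a (l 6) (l 17364296)) (l 17596368)) (b (l 17507864) (l 17748016)))) (b (b (a (l 17946016) (l 18004712)) (l 18260720)) (a (l 18606960) (l 61241107591)))) (b (a (b (b (l 6) (l 17487904)) (b (l 17678648) (l 17867072))) (l 1)) (b (l 1) (l 1)))) (l 1)), by decide +kernel⟩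

theorem c_pm_112 : CertF 536870912 536870912 0 536870912 33554432 16777216 false true false .dn 1 1 2
    ndF0q1 ndF0q2 pcF1 cut_pm_112 Ext.none :=
  certFK2 (fam := false) (s1 := true) (s2 := false) (a := 1) (b := 1) (c := 2) (cn := .dn) (n1 := ndF0q1) (n2 := ndF0q2) (pc := pcF1) (cut := cut_pm_112) (xt := Ext.none) (P1 := 536870912) (W1 := 536870912) (P2 := 0) (W2 := 536870912) (P3 := 33554432) (W3 := 16777216)
    rfl rfl rfl (fun _ => rfl) k0_pm_112

noncomputable def cut_pm_202 : Cut := Cut.of [[⟨3, 0, 0, 1449551462⟩], [⟨4, 0, 0, 2845415833⟩], [⟨0, 1, 0, 33554432⟩, ⟨1, 0, 0, 33554432⟩, ⟨2, 1, 0, 33554432⟩]]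

noncomputable def f_pm_202 : ℕ → ℕ → ℕ → ℕ → Bool := onCell 0 536870912 0 536870912 33554432 16777216
    (rowFK 0 false true false .pp 2 0 2 (qsf 0 536870912 0 536870912 0) ndF0q2 ndF0q2 pcF0 cut_pm_202 Ext.none)

def k0_pm_202 : ∃ t, chk3 f_pm_202 t 1 1 1 = true :=
  ⟨(l 6), by decide +kernel⟩

theorem c_pm_202 : CertF 0 536870912 0 536870912 33554432 16777216 false true false .pp 2 0 2
    ndF0q2 ndF0q2 pcF0 cut_pm_202 Ext.none :=
  certFK0 (fam := false) (s1 := true) (s2 := false) (a := 2) (b := 0) (c := 2) (cn := .pp) (n1 := ndF0q2) (n2 := ndF0q2) (pc := pcF0) (cut := cut_pm_202) (xt := Ext.none) (P1 := 0) (W1 := 536870912) (P2 := 0) (W2 := 536870912) (P3 := 33554432) (W3 := 16777216)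
    rfl rfl rfl k0_pm_202

noncomputable def cut_mm_001 : Cut := Cut.of [[⟨3, 0, 0, 1449551462⟩], [⟨4, 0, 0, 2845415833⟩]]

noncomputable def f_mm_001 : ℕ → ℕ → ℕ → ℕ → Bool := onCell 0 536870912 536870912 536870912 33554432 16777216
    (rowFK 0 false false false .up 0 0 1 (qsf 0 536870912 536870912 536870912 0) ndF0q0 ndF0q1 pcF0 cut_mm_001 Ext.none)

def k0_mm_001 : ∃ t, chk3 f_mm_001 t 1 1 1 = true :=
  ⟨(l 6), by decide +kernel⟩

theorem c_mm_001 : CertF 0 536870912 536870912 536870912 33554432 16777216 false false false .up 0 0 1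
    ndF0q0 ndF0q1 pcF0 cut_mm_001 Ext.none :=
  certFK0 (fam := false) (s1 := false) (s2 := false) (a := 0) (b := 0) (c := 1) (cn := .up) (n1 := ndF0q0) (n2 := ndF0q1) (pc := pcF0) (cut := cut_mm_001) (xt := Ext.none) (P1 := 0) (W1 := 536870912) (P2 := 536870912) (W2 := 536870912) (P3 := 33554432) (W3 := 16777216)
    rfl rfl rfl k0_mm_001

noncomputable def cut_mm_011 : Cut := Cut.of [[⟨3, 0, 0, 1449551462⟩], [⟨4, 0, 0, 2845415833⟩]]

noncomputable def f_mm_011 : ℕ → ℕ → ℕ → ℕ → Bool := onCell 0 536870912 536870912 536870912 33554432 16777216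
    (rowFK 0 false false false .pnn 0 1 1 (qsf 0 536870912 536870912 536870912 1) ndF0q0 ndF0q1 pcF1 cut_mm_011 Ext.none)

def k0_mm_011 : ∃ t, chk3 f_mm_011 t 1 1 1 = true :=
  ⟨(l 6), by decide +kernel⟩

theorem c_mm_011 : CertF 0 536870912 536870912 536870912 33554432 16777216 false false false .pnn 0 1 1
    ndF0q0 ndF0q1 pcF1 cut_mm_011 Ext.none :=
  certFK0 (fam := false) (s1 := false) (s2 := false) (a := 0) (b := 1) (c := 1) (cn := .pnn) (n1 := ndF0q0) (n2 := ndF0q1) (pc := pcF1) (cut := cut_mm_011) (xt := Ext.none) (P1 := 0) (W1 := 536870912) (P2 := 536870912) (W2 := 536870912) (P3 := 33554432) (W3 := 16777216)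
    rfl rfl rfl k0_mm_011

noncomputable def cut_mm_012 : Cut := Cut.of [[⟨3, 0, 0, 1449551462⟩], [⟨4, 0, 0, 2845415833⟩]]

noncomputable def f_mm_012 : ℕ → ℕ → ℕ → ℕ → Bool := onCell 0 536870912 0 536870912 33554432 16777216
    (rowFK 0 false false false .pnp 0 1 2 (qsf 0 536870912 0 536870912 1) ndF0q0 ndF0q2 pcF1 cut_mm_012 Ext.none)

def k0_mm_012 : ∃ t, chk3 f_mm_012 t 1 1 1 = true :=
  ⟨(l 5), by decide +kernel⟩

theorem c_mm_012 : CertF 0 536870912 0 536870912 33554432 16777216 false false false .pnp 0 1 2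
    ndF0q0 ndF0q2 pcF1 cut_mm_012 Ext.none :=
  certFK0 (fam := false) (s1 := false) (s2 := false) (a := 0) (b := 1) (c := 2) (cn := .pnp) (n1 := ndF0q0) (n2 := ndF0q2) (pc := pcF1) (cut := cut_mm_012) (xt := Ext.none) (P1 := 0) (W1 := 536870912) (P2 := 0) (W2 := 536870912) (P3 := 33554432) (W3 := 16777216)
    rfl rfl rfl k0_mm_012

noncomputable def cut_mm_022 : Cut := Cut.of [[⟨3, 0, 0, 1449551462⟩], [⟨4, 0, 0, 2845415833⟩]]

noncomputable def f_mm_022 : ℕ → ℕ → ℕ → ℕ → Bool := onCell 0 536870912 0 536870912 33554432 16777216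
    (rowFK 0 false false false .pp 0 2 2 (qsf 0 536870912 0 536870912 2) ndF0q0 ndF0q2 pcF2 cut_mm_022 Ext.none)

def k0_mm_022 : ∃ t, chk3 f_mm_022 t 1 1 1 = true :=
  ⟨(l 5), by decide +kernel⟩

theorem c_mm_022 : CertF 0 536870912 0 536870912 33554432 16777216 false false false .pp 0 2 2
    ndF0q0 ndF0q2 pcF2 cut_mm_022 Ext.none :=
  certFK0 (fam := false) (s1 := false) (s2 := false) (a := 0) (b := 2) (c := 2) (cn := .pp) (n1 := ndF0q0) (n2 := ndF0q2) (pc := pcF2) (cut := cut_mm_022) (xt := Ext.none) (P1 := 0) (W1 := 536870912) (P2 := 0) (W2 := 536870912) (P3 := 33554432) (W3 := 16777216)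
    rfl rfl rfl k0_mm_022

noncomputable def cut_mm_101 : Cut := Cut.of [[⟨3, 0, 0, 1449551462⟩], [⟨4, 0, 0, 2845415833⟩]]

noncomputable def f_mm_101 : ℕ → ℕ → ℕ → ℕ → Bool := onCell 536870912 536870912 536870912 536870912 33554432 16777216
    (rowFK 0 false false false .npn 1 0 1 (qsf 536870912 536870912 536870912 536870912 0) ndF0q1 ndF0q1 pcF0 cut_mm_101 Ext.none)

def k0_mm_101 : ∃ t, chk3 f_mm_101 t 1 1 1 = true :=
  ⟨(l 3), by decide +kernel⟩

theorem c_mm_101 : CertF 536870912 536870912 536870912 536870912 33554432 16777216 false false false .npn 1 0 1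
    ndF0q1 ndF0q1 pcF0 cut_mm_101 Ext.none :=
  certFK0 (fam := false) (s1 := false) (s2 := false) (a := 1) (b := 0) (c := 1) (cn := .npn) (n1 := ndF0q1) (n2 := ndF0q1) (pc := pcF0) (cut := cut_mm_101) (xt := Ext.none) (P1 := 536870912) (W1 := 536870912) (P2 := 536870912) (W2 := 536870912) (P3 := 33554432) (W3 := 16777216)
    rfl rfl rfl k0_mm_101

noncomputable def cut_mm_102 : Cut := Cut.of [[⟨3, 0, 0, 1449551462⟩], [⟨4, 0, 0, 2845415833⟩]]

noncomputable def f_mm_102 : ℕ → ℕ → ℕ → ℕ → Bool := onCell 536870912 536870912 0 536870912 33554432 16777216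
    (rowFK 0 false false false .npp 1 0 2 (qsf 536870912 536870912 0 536870912 0) ndF0q1 ndF0q2 pcF0 cut_mm_102 Ext.none)

def k0_mm_102 : ∃ t, chk3 f_mm_102 t 1 1 1 = true :=
  ⟨(a (l 5) (l 3)), by decide +kernel⟩

theorem c_mm_102 : CertF 536870912 536870912 0 536870912 33554432 16777216 false false false .npp 1 0 2
    ndF0q1 ndF0q2 pcF0 cut_mm_102 Ext.none :=
  certFK0 (fam := false) (s1 := false) (s2 := false) (a := 1) (b := 0) (c := 2) (cn := .npp) (n1 := ndF0q1) (n2 := ndF0q2) (pc := pcF0) (cut := cut_mm_102) (xt := Ext.none) (P1 := 536870912) (W1 := 536870912) (P2 := 0) (W2 := 536870912) (P3 := 33554432) (W3 := 16777216)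
    rfl rfl rfl k0_mm_102

noncomputable def cut_mm_112 : Cut := Cut.of [[⟨3, 0, 0, 1449551462⟩], [⟨4, 0, 0, 2845415833⟩]]

noncomputable def f_mm_112 : ℕ → ℕ → ℕ → ℕ → Bool := onCell 536870912 536870912 0 536870912 33554432 16777216
    (rowFK 2 false false false .dn 1 1 2 (qsf 536870912 536870912 0 536870912 1) ndF0q1 ndF0q2 pcF1 cut_mm_112 Ext.none)

def k0_mm_112 : ∃ t, chk3 f_mm_112 t 1 1 1 = true :=
  ⟨(l 5), by decide +kernel⟩

theorem c_mm_112 : CertF 536870912 536870912 0 536870912 33554432 16777216 false false false .dn 1 1 2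
    ndF0q1 ndF0q2 pcF1 cut_mm_112 Ext.none :=
  certFK2 (fam := false) (s1 := false) (s2 := false) (a := 1) (b := 1) (c := 2) (cn := .dn) (n1 := ndF0q1) (n2 := ndF0q2) (pc := pcF1) (cut := cut_mm_112) (xt := Ext.none) (P1 := 536870912) (W1 := 536870912) (P2 := 0) (W2 := 536870912) (P3 := 33554432) (W3 := 16777216)
    rfl rfl rfl (fun _ => rfl) k0_mm_112

noncomputable def cut_mm_202 : Cut := Cut.of [[⟨3, 0, 0, 1449551462⟩], [⟨4, 0, 0, 2845415833⟩]]

noncomputable def f_mm_202 : ℕ → ℕ → ℕ → ℕ → Bool := onCell 0 536870912 0 536870912 33554432 16777216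
    (rowFK 0 false false false .pp 2 0 2 (qsf 0 536870912 0 536870912 0) ndF0q2 ndF0q2 pcF0 cut_mm_202 Ext.none)

def k0_mm_202 : ∃ t, chk3 f_mm_202 t 1 1 1 = true :=
  ⟨(l 3), by decide +kernel⟩

theorem c_mm_202 : CertF 0 536870912 0 536870912 33554432 16777216 false false false .pp 2 0 2
    ndF0q2 ndF0q2 pcF0 cut_mm_202 Ext.none :=
  certFK0 (fam := false) (s1 := false) (s2 := false) (a := 2) (b := 0) (c := 2) (cn := .pp) (n1 := ndF0q2) (n2 := ndF0q2) (pc := pcF0) (cut := cut_mm_202) (xt := Ext.none) (P1 := 0) (W1 := 536870912) (P2 := 0) (W2 := 536870912) (P3 := 33554432) (W3 := 16777216)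
    rfl rfl rfl k0_mm_202

end Pool.Agent.Strip051.G.I1_32_3_64.Tab.C.FB00

namespace Pool.Agent.Strip051.G.I1_32_3_64.Tab.C.FB01

open Pool.Agent.Strip051.PB Pool.Agent.Strip051.PB.T
open Pool.Agent.Strip051.G.I1_32_3_64.Tab

noncomputable def f_pp_001 : ℕ → ℕ → ℕ → ℕ → Bool := onCell 0 536870912 536870912 536870912 33554432 16777216
    (rowFK 0 false true true .up 0 0 1 (qsf 0 536870912 536870912 536870912 0) ndF0q0 ndF1q1 pcF0 Cut.none Ext.none)

def k0_pp_001 : ∃ t, chk3 f_pp_001 t 1 1 1 = true :=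
  ⟨(l 3), by decide +kernel⟩

theorem c_pp_001 : CertF 0 536870912 536870912 536870912 33554432 16777216 false true true .up 0 0 1
    ndF0q0 ndF1q1 pcF0 Cut.none Ext.none :=
  certFK0 (fam := false) (s1 := true) (s2 := true) (a := 0) (b := 0) (c := 1) (cn := .up) (n1 := ndF0q0) (n2 := ndF1q1) (pc := pcF0) (cut := Cut.none) (xt := Ext.none) (P1 := 0) (W1 := 536870912) (P2 := 536870912) (W2 := 536870912) (P3 := 33554432) (W3 := 16777216)
    rfl rfl rfl k0_pp_001

noncomputable def f_pp_011 : ℕ → ℕ → ℕ → ℕ → Bool := onCell 0 536870912 536870912 536870912 33554432 16777216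
    (rowFK 0 false true true .pnn 0 1 1 (qsf 0 536870912 536870912 536870912 1) ndF0q0 ndF1q1 pcF1 Cut.none Ext.none)

def k0_pp_011 : ∃ t, chk3 f_pp_011 t 1 1 1 = true :=
  ⟨(l 3), by decide +kernel⟩

theorem c_pp_011 : CertF 0 536870912 536870912 536870912 33554432 16777216 false true true .pnn 0 1 1
    ndF0q0 ndF1q1 pcF1 Cut.none Ext.none :=
  certFK0 (fam := false) (s1 := true) (s2 := true) (a := 0) (b := 1) (c := 1) (cn := .pnn) (n1 := ndF0q0) (n2 := ndF1q1) (pc := pcF1) (cut := Cut.none) (xt := Ext.none) (P1 := 0) (W1 := 536870912) (P2 := 536870912) (W2 := 536870912) (P3 := 33554432) (W3 := 16777216)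
    rfl rfl rfl k0_pp_011

end Pool.Agent.Strip051.G.I1_32_3_64.Tab.C.FB01

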