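import Pool.Agent.Strip051.G.I1_32_3_64.Gn
import Pool.Agent.Strip051.PB.Corns
import Pool.Agent.Strip051.PB.CornK

/-! # Certificates of the aligned corners (generated) -/

set_option linter.all false

namespace Pool.Agent.Strip051.G.I1_32_3_64.Tab.CF

open Pool.Agent.Strip051.PB

def B102E_010_22_1369_4 :
    ∃ t, chk3 (onCell 0 33554432 0 1073741824 33554432 16777216 (corTK [] true 1 c0F cB102E gF0q1 gF1q2 gF0q0 gF1q0 true true)) t 22 1369 4 = true :=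
  ⟨(T.c (T.b (T.a (T.c (T.b (T.a (T.c (T.b (T.l 1) (T.a (T.a (T.l 476) (T.c (T.b (T.l 1) (T.l 460)) (T.b (T.l 1) (T.l 460)))) (T.l 1))) (T.b (T.l 1) (T.a (T.a (T.l 476) (T.c (T.b (T.l 1) (T.l 460)) (T.b (T.l 1) (T.l 460)))) (T.l 1)))) (T.l 1)) (T.a (T.l 476) (T.c (T.b (T.a (T.c (T.b (T.l 1) (T.a (T.l 460) (T.l 476))) (T.b (T.l 1) (T.a (T.l 460) (T.l 476)))) (T.l 1)) (T.a (T.l 460) (T.a (T.l 476) (T.c (T.b (T.l 1) (T.l 460)) (T.b (T.l 1) (T.l 460)))))) (T.b (T.a (T.c (T.b (T.l 1) (T.a (T.l 460) (T.l 476))) (T.b (T.l 1) (T.a (T.l 460) (T.l 476)))) (T.l 1)) (T.a (T.l 460) (T.a (T.l 476) (T.c (T.b (T.l 1) (T.l 460)) (T.b (T.l 1) (T.l 460))))))))) (T.b (T.a (T.c (T.b (T.l 1) (T.a (T.a (T.l 476) (T.c (T.b (T.l 1) (T.l 460)) (T.b (T.l 1) (T.l 460)))) (T.l 1))) (T.b (T.l 1) (T.a (T.a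 (T.l 476) (T.c (T.b (T.l 1) (T.l 460)) (T.b (T.l 1) (T.l 460)))) (T.l 1)))) (T.l 1)) (T.a (T.l 476) (T.c (T.b (T.a (T.c (T.b (T.l 1) (T.a (T.l 460) (T.l 476))) (T.b (T.l 1) (T.l 476))) (T.l 1)) (T.a (T.l 460) (T.a (T.l 460) (T.c (T.b (T.l 1) (T.l 460)) (T.b (T.l 1) (T.l 460)))))) (T.b (T.a (T.c (T.b (T.l 1) (T.l 476)) (T.b (T.l 1) (T.l 476))) (T.l 1)) (T.a (T.l 460) (T.a (T.l 460) (T.c (T.b (T.l 1) (T.l 460)) (T.b (T.l 1) (T.l 460)))))))))) (T.a (T.a (T.a (T.c (T.b (T.l 1) (T.a (T.c (T.b (T.l 1) (T.c (T.b (T.l 1) (T.l 460)) (T.b (T.l 1) (T.l 460)))) (T.b (T.l 1) (T.c (T.b (T.l 1) (T.l 460)) (T.b (T.l 1) (T.l 460))))) (T.l 1))) (T.b (T.l 1) (T.a (T.c (T.b (T.l 1) (T.c (T.b (T.l 1) (T.l 460)) (T.b (T.l 1) (T.l 460)))) (T.b (T.l 1) (T.c (T.b (T.l 1) (T.l 460)) (T.b (T.l 1) (T.l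 460))))) (T.l 1)))) (T.l 1)) (T.l 1)) (T.l 1))) (T.a (T.l 460) (T.c (T.b (T.a (T.a (T.l 460) (T.c (T.b (T.c (T.b (T.l 1) (T.l 476)) (T.b (T.l 1) (T.l 476))) (T.l 460)) (T.b (T.c (T.b (T.l 1) (T.l 476)) (T.b (T.l 1) (T.l 476))) (T.l 460)))) (T.c (T.b (T.l 1) (T.a (T.a (T.l 460) (T.c (T.b (T.l 1) (T.l 460)) (T.a (T.l 476) (T.l 476)))) (T.a (T.c (T.b (T.l 1) (T.l 476)) (T.b (T.l 1) (T.l 476))) (T.l 1)))) (T.b (T.l 1) (T.a (T.a (T.l 460) (T.l 476)) (T.c (T.b (T.l 1) (T.a (T.l 476) (T.l 1))) (T.b (T.l 1) (T.a (T.l 476) (T.l 1)))))))) (T.l 476)) (T.b (T.a (T.a (T.l 460) (T.c (T.b (T.c (T.b (T.l 1) (T.l 476)) (T.b (T.l 1) (T.l 476))) (T.l 460)) (T.b (T.c (T.b (T.l 1) (T.l 476)) (T.b (T.l 1) (T.l 476))) (T.l 460)))) (T.c (T.b (T.l 1) (T.a (T.a (T.l 460) (T.l 476)) (T.c (T.b (T.l 1)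 (T.a (T.l 476) (T.l 1))) (T.b (T.l 1) (T.a (T.l 476) (T.l 1)))))) (T.b (T.l 1) (T.a (T.a (T.l 460) (T.l 476)) (T.c (T.b (T.l 1) (T.a (T.l 476) (T.l 1))) (T.b (T.l 1) (T.a (T.l 476) (T.l 1)))))))) (T.l 476))))) (T.b (T.a (T.c (T.b (T.a (T.c (T.b (T.l 1) (T.a (T.a (T.l 476) (T.c (T.b (T.l 1) (T.l 460)) (T.b (T.l 1) (T.l 460)))) (T.l 1))) (T.b (T.l 1) (T.a (T.a (T.l 476) (T.c (T.b (T.l 1) (T.l 460)) (T.b (T.l 1) (T.l 460)))) (T.l 1)))) (T.l 1)) (T.a (T.l 476) (T.c (T.b (T.a (T.c (T.b (T.l 1) (T.l 476)) (T.b (T.l 1) (T.l 476))) (T.l 1)) (T.a (T.l 460) (T.a (T.l 460) (T.c (T.b (T.l 1) (T.l 460)) (T.b (T.l 1) (T.l 460)))))) (T.b (T.a (T.c (T.b (T.l 1) (T.l 476)) (T.b (T.l 1) (T.l 476))) (T.l 1)) (T.a (T.l 460) (T.a (T.l 460) (T.c (T.b (T.l 1) (T.l 460)) (T.b (T.l 1) (T.l 460)))))))))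 (T.b (T.a (T.c (T.b (T.l 1) (T.a (T.a (T.l 476) (T.c (T.b (T.l 1) (T.l 460)) (T.b (T.l 1) (T.l 460)))) (T.l 1))) (T.b (T.l 1) (T.a (T.a (T.l 476) (T.c (T.b (T.l 1) (T.l 460)) (T.b (T.l 1) (T.l 460)))) (T.l 1)))) (T.l 1)) (T.a (T.l 476) (T.c (T.b (T.a (T.c (T.b (T.l 1) (T.l 476)) (T.b (T.l 1) (T.l 476))) (T.l 1)) (T.a (T.l 460) (T.a (T.l 460) (T.c (T.b (T.l 1) (T.l 460)) (T.b (T.l 1) (T.l 460)))))) (T.b (T.a (T.c (T.b (T.l 1) (T.l 476)) (T.b (T.l 1) (T.l 476))) (T.l 1)) (T.a (T.l 460) (T.a (T.l 460) (T.c (T.b (T.l 1) (T.l 460)) (T.b (T.l 1) (T.l 460)))))))))) (T.a (T.a (T.a (T.c (T.b (T.l 1) (T.a (T.c (T.b (T.l 1) (T.c (T.b (T.l 1) (T.l 460)) (T.b (T.l 1) (T.l 460)))) (T.b (T.l 1) (T.c (T.b (T.l 1) (T.l 460)) (T.b (T.l 1) (T.l 460))))) (T.l 1))) (T.b (T.l 1) (T.a (T.c (T.b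 (T.l 1) (T.c (T.b (T.l 1) (T.l 460)) (T.b (T.l 1) (T.l 460)))) (T.b (T.l 1) (T.c (T.b (T.l 1) (T.l 460)) (T.b (T.l 1) (T.l 460))))) (T.l 1)))) (T.l 1)) (T.l 1)) (T.l 1))) (T.a (T.l 460) (T.c (T.b (T.a (T.a (T.l 460) (T.c (T.b (T.c (T.b (T.l 1) (T.l 476)) (T.b (T.l 1) (T.l 476))) (T.l 460)) (T.b (T.c (T.b (T.l 1) (T.l 476)) (T.b (T.l 1) (T.l 476))) (T.l 460)))) (T.c (T.b (T.l 1) (T.a (T.l 476) (T.c (T.b (T.l 1) (T.a (T.l 476) (T.l 1))) (T.b (T.l 1) (T.a (T.l 476) (T.l 1)))))) (T.b (T.l 1) (T.a (T.l 476) (T.c (T.b (T.l 1) (T.a (T.l 476) (T.l 1))) (T.b (T.l 1) (T.a (T.l 476) (T.l 1)))))))) (T.l 476)) (T.b (T.a (T.a (T.l 460) (T.c (T.b (T.c (T.b (T.l 1) (T.l 476)) (T.b (T.l 1) (T.l 476))) (T.l 460)) (T.b (T.c (T.b (T.l 1) (T.l 476)) (T.b (T.l 1) (T.l 476))) (T.l 460)))) (T.c (T.b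 (T.l 1) (T.a (T.l 476) (T.c (T.b (T.l 1) (T.a (T.l 460) (T.l 1))) (T.b (T.l 1) (T.a (T.l 460) (T.l 1)))))) (T.b (T.l 1) (T.a (T.l 476) (T.c (T.b (T.l 1) (T.a (T.l 460) (T.l 1))) (T.b (T.l 1) (T.a (T.l 460) (T.l 1)))))))) (T.l 476)))))), by decide +kernel⟩

def B102E_010_23_1369_4 :
    ∃ t, chk3 (onCell 0 33554432 0 1073741824 33554432 16777216 (corTK [] true 1 c0F cB102E gF0q1 gF1q2 gF0q0 gF1q0 true true)) t 23 1369 4 = true :=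
  ⟨(T.a (T.c (T.b (T.l 1) (T.c (T.b (T.l 1) (T.a (T.c (T.b (T.a (T.c (T.b (T.l 1) (T.l 476)) (T.b (T.l 1) (T.l 476))) (T.l 1)) (T.l 476)) (T.b (T.a (T.c (T.b (T.l 1) (T.l 476)) (T.b (T.l 1) (T.l 476))) (T.l 1)) (T.l 476))) (T.a (T.a (T.c (T.b (T.l 1) (T.c (T.b (T.l 1) (T.l 460)) (T.b (T.l 1) (T.l 460)))) (T.b (T.l 1) (T.c (T.b (T.l 1) (T.l 460)) (T.b (T.l 1) (T.l 460))))) (T.l 1)) (T.l 1)))) (T.b (T.l 1) (T.a (T.c (T.b (T.a (T.c (T.b (T.l 1) (T.l 476)) (T.b (T.l 1) (T.l 476))) (T.l 1)) (T.l 476)) (T.b (T.a (T.c (T.b (T.l 1) (T.l 476)) (T.b (T.l 1) (T.l 476))) (T.l 1)) (T.l 476))) (T.a (T.a (T.c (T.b (T.l 1) (T.c (T.b (T.l 1) (T.l 460)) (T.b (T.l 1) (T.l 460)))) (T.b (T.l 1) (T.c (T.b (T.l 1) (T.l 460)) (T.b (T.l 1) (T.l 460))))) (T.l 1)) (T.l 1)))))) (T.b (T.l 1) (T.c (T.b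 (T.l 1) (T.a (T.c (T.b (T.a (T.c (T.b (T.l 1) (T.l 460)) (T.b (T.l 1) (T.l 460))) (T.l 1)) (T.l 476)) (T.b (T.a (T.c (T.b (T.l 1) (T.l 460)) (T.b (T.l 1) (T.l 460))) (T.l 1)) (T.l 476))) (T.a (T.a (T.c (T.b (T.l 1) (T.c (T.b (T.l 1) (T.l 460)) (T.b (T.l 1) (T.l 460)))) (T.b (T.l 1) (T.c (T.b (T.l 1) (T.l 460)) (T.b (T.l 1) (T.l 460))))) (T.l 1)) (T.l 1)))) (T.b (T.l 1) (T.a (T.c (T.b (T.a (T.c (T.b (T.l 1) (T.l 460)) (T.b (T.l 1) (T.l 460))) (T.l 1)) (T.l 476)) (T.b (T.a (T.c (T.b (T.l 1) (T.l 460)) (T.b (T.l 1) (T.l 460))) (T.l 1)) (T.l 476))) (T.a (T.a (T.c (T.b (T.l 1) (T.c (T.b (T.l 1) (T.l 460)) (T.b (T.l 1) (T.l 460)))) (T.b (T.l 1) (T.c (T.b (T.l 1) (T.l 460)) (T.a (T.l 476) (T.l 1))))) (T.l 1)) (T.l 1))))))) (T.l 1)), by decide +kernel⟩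

def B102E_010_11_1368_5 :
    ∃ t, chk3 (onCell 0 33554432 0 1073741824 33554432 16777216 (corTK [] true 1 c0F cB102E gF0q1 gF1q2 gF0q0 gF1q0 true true)) t 11 1368 5 = true :=
  ⟨(T.l 1), by decide +kernel⟩

def B102E_010_22_1369_5 :
    ∃ t, chk3 (onCell 0 33554432 0 1073741824 33554432 16777216 (corTK [] true 1 c0F cB102E gF0q1 gF1q2 gF0q0 gF1q0 true true)) t 22 1369 5 = true :=
  ⟨(T.c (T.b (T.a (T.c (T.b (T.a (T.c (T.b (T.l 1) (T.a (T.a (T.l 476) (T.c (T.b (T.l 1) (T.l 460)) (T.b (T.l 1) (T.l 460)))) (T.l 1))) (T.b (T.l 1) (T.a (T.a (T.l 476) (T.c (T.b (T.l 1) (T.l 460)) (T.b (T.l 1) (T.l 460)))) (T.l 1)))) (T.l 1)) (T.a (T.l 476) (T.c (T.b (T.a (T.c (T.b (T.l 1) (T.l 476)) (T.b (T.l 1) (T.l 476))) (T.l 1)) (T.a (T.l 460) (T.a (T.l 460) (T.c (T.b (T.l 1) (T.l 460)) (T.b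 (T.l 1) (T.l 460)))))) (T.b (T.a (T.c (T.b (T.l 1) (T.l 476)) (T.b (T.l 1) (T.l 476))) (T.l 1)) (T.a (T.l 460) (T.a (T.l 460) (T.c (T.b (T.l 1) (T.l 460)) (T.b (T.l 1) (T.l 460))))))))) (T.b (T.a (T.c (T.b (T.l 1) (T.a (T.a (T.l 476) (T.c (T.b (T.l 1) (T.l 460)) (T.b (T.l 1) (T.l 460)))) (T.l 1))) (T.b (T.l 1) (T.a (T.a (T.l 460) (T.c (T.b (T.l 1) (T.l 460)) (T.b (T.l 1) (T.l 460)))) (T.l 1)))) (T.l 1)) (T.a (T.l 460) (T.c (T.b (T.a (T.c (T.b (T.l 1) (T.l 476)) (T.b (T.l 1) (T.l 476))) (T.l 1)) (T.a (T.l 460) (T.a (T.l 460) (T.c (T.b (T.l 1) (T.l 460)) (T.b (T.l 1) (T.l 460)))))) (T.b (T.a (T.c (T.b (T.l 1) (T.l 476)) (T.b (T.l 1) (T.l 476))) (T.l 1)) (T.a (T.l 460) (T.a (T.l 460) (T.c (T.b (T.l 1) (T.l 460)) (T.b (T.l 1) (T.l 460)))))))))) (T.a (T.a (T.a (T.c (T.b (T.l 1)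 (T.a (T.c (T.b (T.l 1) (T.c (T.b (T.l 1) (T.l 460)) (T.b (T.l 1) (T.l 460)))) (T.b (T.l 1) (T.c (T.b (T.l 1) (T.l 460)) (T.b (T.l 1) (T.l 460))))) (T.l 1))) (T.b (T.l 1) (T.a (T.c (T.b (T.l 1) (T.c (T.b (T.l 1) (T.l 460)) (T.b (T.l 1) (T.l 460)))) (T.b (T.l 1) (T.c (T.b (T.l 1) (T.l 460)) (T.b (T.l 1) (T.l 460))))) (T.l 1)))) (T.l 1)) (T.l 1)) (T.l 1))) (T.a (T.l 460) (T.c (T.b (T.a (T.a (T.l 460) (T.a (T.l 476) (T.c (T.b (T.c (T.b (T.l 1) (T.l 460)) (T.b (T.l 1) (T.l 460))) (T.l 460)) (T.b (T.c (T.b (T.l 1) (T.l 460)) (T.b (T.l 1) (T.l 460))) (T.l 460))))) (T.c (T.b (T.l 1) (T.a (T.l 476) (T.c (T.b (T.l 1) (T.a (T.l 460) (T.l 1))) (T.b (T.l 1) (T.a (T.l 460) (T.l 1)))))) (T.b (T.l 1) (T.a (T.l 476) (T.c (T.b (T.l 1) (T.a (T.l 460) (T.l 1))) (T.b (T.l 1) (T.a (T.l 460) (T.l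 1)))))))) (T.l 476)) (T.b (T.a (T.a (T.l 460) (T.a (T.l 476) (T.c (T.b (T.c (T.b (T.l 1) (T.l 460)) (T.b (T.l 1) (T.l 460))) (T.l 460)) (T.b (T.c (T.b (T.l 1) (T.l 460)) (T.b (T.l 1) (T.l 460))) (T.l 460))))) (T.c (T.b (T.l 1) (T.a (T.l 476) (T.c (T.b (T.l 1) (T.a (T.l 460) (T.l 1))) (T.b (T.l 1) (T.a (T.l 460) (T.l 1)))))) (T.b (T.l 1) (T.a (T.l 476) (T.c (T.b (T.l 1) (T.a (T.l 460) (T.l 1))) (T.b (T.l 1) (T.a (T.l 460) (T.l 1)))))))) (T.l 476))))) (T.b (T.a (T.c (T.b (T.a (T.c (T.b (T.l 1) (T.a (T.a (T.l 460) (T.c (T.b (T.l 1) (T.l 460)) (T.b (T.l 1) (T.l 460)))) (T.l 1))) (T.b (T.l 1) (T.a (T.a (T.l 460) (T.c (T.b (T.l 1) (T.l 460)) (T.b (T.l 1) (T.l 460)))) (T.l 1)))) (T.l 1)) (T.a (T.l 460) (T.c (T.b (T.a (T.c (T.b (T.l 1) (T.l 476)) (T.b (T.l 1) (T.l 476))) (T.l 1))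 (T.a (T.l 460) (T.a (T.l 460) (T.c (T.b (T.l 1) (T.l 460)) (T.b (T.l 1) (T.l 460)))))) (T.b (T.a (T.c (T.b (T.l 1) (T.l 476)) (T.b (T.l 1) (T.l 476))) (T.l 1)) (T.a (T.l 460) (T.a (T.l 460) (T.c (T.b (T.l 1) (T.l 460)) (T.b (T.l 1) (T.l 460))))))))) (T.b (T.a (T.c (T.b (T.l 1) (T.a (T.a (T.l 460) (T.c (T.b (T.l 1) (T.l 460)) (T.b (T.l 1) (T.l 460)))) (T.l 1))) (T.b (T.l 1) (T.a (T.a (T.l 460) (T.c (T.b (T.l 1) (T.l 460)) (T.b (T.l 1) (T.l 460)))) (T.l 1)))) (T.l 1)) (T.a (T.l 460) (T.c (T.b (T.a (T.c (T.b (T.l 1) (T.l 476)) (T.b (T.l 1) (T.l 460))) (T.l 1)) (T.a (T.l 460) (T.a (T.l 460) (T.c (T.b (T.l 1) (T.l 460)) (T.b (T.l 1) (T.l 460)))))) (T.b (T.a (T.c (T.b (T.l 1) (T.l 460)) (T.b (T.l 1) (T.l 460))) (T.l 1)) (T.a (T.l 460) (T.a (T.l 460) (T.c (T.b (T.l 1) (T.l 460))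 (T.b (T.l 1) (T.l 460)))))))))) (T.a (T.a (T.a (T.c (T.b (T.l 1) (T.a (T.c (T.b (T.l 1) (T.c (T.b (T.l 1) (T.l 460)) (T.b (T.l 1) (T.l 460)))) (T.b (T.l 1) (T.c (T.b (T.l 1) (T.l 460)) (T.b (T.l 1) (T.l 460))))) (T.l 1))) (T.b (T.l 1) (T.a (T.c (T.b (T.l 1) (T.c (T.b (T.l 1) (T.l 460)) (T.b (T.l 1) (T.l 460)))) (T.b (T.l 1) (T.c (T.b (T.l 1) (T.l 460)) (T.b (T.l 1) (T.l 460))))) (T.l 1)))) (T.l 1)) (T.l 1)) (T.l 1))) (T.a (T.l 460) (T.c (T.b (T.a (T.a (T.l 460) (T.a (T.l 476) (T.c (T.b (T.c (T.b (T.l 1) (T.l 460)) (T.b (T.l 1) (T.l 460))) (T.l 460)) (T.b (T.c (T.b (T.l 1) (T.l 460)) (T.b (T.l 1) (T.l 460))) (T.l 460))))) (T.c (T.b (T.l 1) (T.a (T.l 476) (T.c (T.b (T.l 1) (T.a (T.l 460) (T.l 1))) (T.b (T.l 1) (T.a (T.l 460) (T.l 1)))))) (T.b (T.l 1) (T.a (T.l 476) (T.c (T.b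 (T.l 1) (T.a (T.l 460) (T.l 1))) (T.b (T.l 1) (T.a (T.l 460) (T.l 1)))))))) (T.l 476)) (T.b (T.a (T.a (T.l 460) (T.a (T.l 476) (T.c (T.b (T.c (T.b (T.l 1) (T.l 460)) (T.b (T.l 1) (T.l 460))) (T.l 460)) (T.b (T.c (T.b (T.l 1) (T.l 460)) (T.b (T.l 1) (T.l 460))) (T.l 460))))) (T.c (T.b (T.l 1) (T.a (T.l 476) (T.c (T.b (T.l 1) (T.a (T.l 460) (T.l 1))) (T.b (T.l 1) (T.l 476))))) (T.b (T.l 1) (T.a (T.l 476) (T.c (T.b (T.l 1) (T.l 476)) (T.b (T.l 1) (T.l 476))))))) (T.l 476)))))), by decide +kernel⟩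

def B102E_010_23_1369_5 :
    ∃ t, chk3 (onCell 0 33554432 0 1073741824 33554432 16777216 (corTK [] true 1 c0F cB102E gF0q1 gF1q2 gF0q0 gF1q0 true true)) t 23 1369 5 = true :=
  ⟨(T.a (T.c (T.b (T.l 1) (T.c (T.b (T.l 1) (T.a (T.c (T.b (T.a (T.c (T.b (T.l 1) (T.l 460)) (T.b (T.l 1) (T.l 460))) (T.l 1)) (T.l 476)) (T.b (T.a (T.c (T.b (T.l 1) (T.l 460)) (T.b (T.l 1) (T.l 460))) (T.l 1)) (T.l 476))) (T.a (T.a (T.c (T.b (T.l 1) (T.a (T.l 476) (T.l 1))) (T.b (T.l 1) (T.a (T.l 476) (T.l 1)))) (T.l 1)) (T.l 1)))) (T.b (T.l 1) (T.a (T.c (T.b (T.a (T.c (T.b (T.l 1) (T.l 460)) (T.b (T.l 1) (T.l 460))) (T.l 1)) (T.l 476)) (T.b (T.a (T.c (T.b (T.l 1) (T.l 460)) (T.b (T.l 1) (T.l 460))) (T.l 1)) (T.l 476))) (T.a (T.a (T.c (T.b (T.l 1) (T.a (T.l 476) (T.l 1))) (T.b (T.l 1) (T.a (T.l 476)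 (T.l 1)))) (T.l 1)) (T.l 1)))))) (T.b (T.l 1) (T.c (T.b (T.l 1) (T.a (T.c (T.b (T.a (T.c (T.b (T.l 1) (T.l 460)) (T.b (T.l 1) (T.l 460))) (T.l 1)) (T.l 476)) (T.b (T.a (T.c (T.b (T.l 1) (T.l 460)) (T.b (T.l 1) (T.l 460))) (T.l 1)) (T.l 476))) (T.a (T.a (T.c (T.b (T.l 1) (T.a (T.l 476) (T.l 1))) (T.b (T.l 1) (T.a (T.l 476) (T.l 1)))) (T.l 1)) (T.l 1)))) (T.b (T.l 1) (T.a (T.c (T.b (T.a (T.c (T.b (T.l 1) (T.l 460)) (T.b (T.l 1) (T.l 460))) (T.l 1)) (T.l 476)) (T.b (T.a (T.c (T.b (T.l 1) (T.l 460)) (T.b (T.l 1) (T.l 460))) (T.l 1)) (T.l 476))) (T.a (T.a (T.c (T.b (T.l 1) (T.a (T.l 476) (T.l 1))) (T.b (T.l 1) (T.a (T.l 476) (T.l 1)))) (T.l 1)) (T.l 1))))))) (T.l 1)), by decide +kernel⟩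

def B102E_010_11_685_2 :
    ∃ t, chk3 (onCell 0 33554432 0 1073741824 33554432 16777216 (corTK [] true 1 c0F cB102E gF0q1 gF1q2 gF0q0 gF1q0 true true)) t 11 685 2 = true :=
  ⟨(T.a (T.c (T.l 460) (T.l 460)) (T.c (T.b (T.a (T.a (T.l 460) (T.a (T.l 460) (T.c (T.b (T.a (T.l 476) (T.c (T.b (T.c (T.b (T.c (T.b (T.l 1) (T.l 460)) (T.b (T.l 1) (T.l 460))) (T.l 460)) (T.b (T.c (T.b (T.l 1) (T.l 460)) (T.b (T.l 1) (T.l 460))) (T.l 460))) (T.l 460)) (T.b (T.c (T.b (T.c (T.b (T.l 1) (T.l 460)) (T.b (T.l 1) (T.l 460))) (T.l 460)) (T.b (T.c (T.b (T.l 1) (T.l 460)) (T.b (T.l 1) (T.l 460))) (T.l 460))) (T.l 460)))) (T.l 204)) (T.b (T.a (T.l 476) (T.c (T.b (T.c (T.b (T.c (T.b (T.l 1) (T.l 460)) (T.a (T.l 476) (T.l 1))) (T.l 460)) (T.a (T.l 476) (T.b (T.l 1) (T.l 460)))) (T.l 460)) (T.b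 (T.a (T.l 476) (T.c (T.b (T.l 1) (T.l 460)) (T.b (T.l 1) (T.l 460)))) (T.l 460)))) (T.l 204))))) (T.c (T.b (T.c (T.b (T.a (T.c (T.b (T.l 1) (T.a (T.l 476) (T.c (T.b (T.l 1) (T.a (T.l 460) (T.l 1))) (T.b (T.l 1) (T.a (T.l 460) (T.l 1)))))) (T.b (T.l 1) (T.a (T.l 476) (T.c (T.b (T.l 1) (T.a (T.l 460) (T.l 1))) (T.b (T.l 1) (T.a (T.l 460) (T.l 1))))))) (T.l 1)) (T.a (T.l 460) (T.c (T.b (T.a (T.c (T.b (T.a (T.l 476) (T.l 1)) (T.l 460)) (T.b (T.a (T.l 476) (T.l 1)) (T.l 460))) (T.l 1)) (T.l 476)) (T.b (T.a (T.c (T.b (T.a (T.l 476) (T.l 1)) (T.l 460)) (T.b (T.a (T.l 476) (T.l 1)) (T.l 460))) (T.l 1)) (T.l 476))))) (T.b (T.a (T.c (T.b (T.l 1) (T.a (T.l 476) (T.c (T.b (T.l 1) (T.a (T.l 460) (T.l 1))) (T.b (T.l 1) (T.a (T.l 460) (T.l 1)))))) (T.b (T.l 1) (T.a (T.l 476) (T.c (T.b (T.l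 1) (T.a (T.l 460) (T.l 1))) (T.b (T.l 1) (T.l 476)))))) (T.l 1)) (T.a (T.l 460) (T.c (T.b (T.a (T.c (T.b (T.a (T.l 476) (T.l 1)) (T.l 460)) (T.b (T.a (T.l 476) (T.l 1)) (T.l 460))) (T.l 1)) (T.l 476)) (T.b (T.a (T.c (T.b (T.a (T.l 476) (T.l 1)) (T.l 460)) (T.b (T.a (T.l 476) (T.l 1)) (T.l 460))) (T.l 1)) (T.l 476)))))) (T.l 460)) (T.b (T.c (T.b (T.a (T.c (T.b (T.l 1) (T.a (T.l 476) (T.c (T.b (T.l 1) (T.l 476)) (T.b (T.l 1) (T.l 476))))) (T.b (T.l 1) (T.a (T.l 476) (T.c (T.b (T.l 1) (T.l 476)) (T.b (T.l 1) (T.l 476)))))) (T.l 1)) (T.a (T.l 460) (T.c (T.b (T.a (T.c (T.b (T.a (T.l 476) (T.l 1)) (T.l 460)) (T.b (T.a (T.l 476) (T.l 1)) (T.l 460))) (T.l 1)) (T.l 476)) (T.b (T.a (T.c (T.b (T.a (T.l 476) (T.l 1)) (T.l 460)) (T.b (T.a (T.l 476) (T.l 1)) (T.l 460))) (T.l 1)) (T.l 476)))))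 (T.b (T.a (T.c (T.b (T.l 1) (T.a (T.l 476) (T.c (T.b (T.l 1) (T.l 476)) (T.b (T.l 1) (T.l 476))))) (T.b (T.l 1) (T.a (T.l 476) (T.c (T.b (T.l 1) (T.l 476)) (T.b (T.l 1) (T.l 476)))))) (T.l 1)) (T.a (T.l 460) (T.c (T.b (T.a (T.c (T.b (T.a (T.l 460) (T.l 1)) (T.l 460)) (T.b (T.a (T.l 460) (T.l 1)) (T.l 460))) (T.l 1)) (T.l 476)) (T.b (T.a (T.c (T.b (T.a (T.l 460) (T.l 1)) (T.l 460)) (T.b (T.a (T.l 460) (T.l 1)) (T.l 460))) (T.l 1)) (T.l 476)))))) (T.l 460)))) (T.l 204)) (T.b (T.a (T.a (T.l 460) (T.a (T.l 460) (T.c (T.b (T.a (T.l 476) (T.c (T.b (T.a (T.l 476) (T.c (T.b (T.l 1) (T.l 460)) (T.b (T.l 1) (T.l 460)))) (T.l 460)) (T.b (T.a (T.l 476) (T.c (T.b (T.l 1) (T.l 460)) (T.b (T.l 1) (T.l 460)))) (T.l 460)))) (T.l 204)) (T.b (T.a (T.l 476) (T.c (T.b (T.a (T.l 476) (T.c (T.b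 (T.l 1) (T.l 460)) (T.b (T.l 1) (T.l 460)))) (T.l 460)) (T.b (T.a (T.l 476) (T.c (T.b (T.l 1) (T.l 460)) (T.b (T.l 1) (T.l 460)))) (T.l 460)))) (T.l 204))))) (T.c (T.b (T.c (T.b (T.a (T.c (T.b (T.l 1) (T.a (T.l 476) (T.c (T.b (T.l 1) (T.l 476)) (T.b (T.l 1) (T.l 476))))) (T.b (T.l 1) (T.a (T.l 476) (T.c (T.b (T.l 1) (T.l 476)) (T.b (T.l 1) (T.l 476)))))) (T.l 1)) (T.a (T.l 460) (T.c (T.b (T.a (T.c (T.b (T.a (T.l 460) (T.l 1)) (T.l 460)) (T.b (T.a (T.l 460) (T.l 1)) (T.l 460))) (T.l 1)) (T.l 476)) (T.b (T.a (T.c (T.b (T.a (T.l 460) (T.l 1)) (T.l 460)) (T.b (T.a (T.l 460) (T.l 1)) (T.l 460))) (T.l 1)) (T.l 476))))) (T.b (T.a (T.c (T.b (T.l 1) (T.a (T.l 476) (T.c (T.b (T.l 1) (T.l 476)) (T.b (T.l 1) (T.l 476))))) (T.b (T.l 1) (T.a (T.l 460) (T.c (T.b (T.l 1) (T.l 476)) (T.b (T.l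 1) (T.l 476)))))) (T.l 1)) (T.a (T.l 460) (T.c (T.b (T.a (T.c (T.b (T.a (T.l 460) (T.l 1)) (T.l 460)) (T.b (T.a (T.l 460) (T.l 1)) (T.l 460))) (T.l 1)) (T.l 476)) (T.b (T.a (T.c (T.b (T.a (T.l 460) (T.l 1)) (T.l 460)) (T.b (T.a (T.l 460) (T.l 1)) (T.l 460))) (T.l 1)) (T.l 476)))))) (T.l 460)) (T.b (T.c (T.b (T.a (T.c (T.b (T.l 1) (T.a (T.l 460) (T.c (T.b (T.l 1) (T.l 476)) (T.b (T.l 1) (T.l 476))))) (T.b (T.l 1) (T.a (T.l 460) (T.c (T.b (T.l 1) (T.l 476)) (T.b (T.l 1) (T.l 476)))))) (T.l 1)) (T.a (T.l 460) (T.c (T.b (T.a (T.c (T.b (T.a (T.l 460) (T.l 1)) (T.l 460)) (T.a (T.l 460) (T.b (T.l 1) (T.l 460)))) (T.l 1)) (T.l 460)) (T.b (T.a (T.a (T.l 460) (T.c (T.b (T.l 1) (T.l 460)) (T.b (T.l 1) (T.l 460)))) (T.l 1)) (T.l 460))))) (T.b (T.a (T.c (T.b (T.l 1) (T.a (T.l 460) (T.c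 (T.b (T.l 1) (T.l 476)) (T.b (T.l 1) (T.l 476))))) (T.b (T.l 1) (T.a (T.l 460) (T.c (T.b (T.l 1) (T.l 476)) (T.a (T.l 476) (T.l 1)))))) (T.l 1)) (T.a (T.l 460) (T.c (T.b (T.a (T.a (T.l 460) (T.c (T.b (T.l 1) (T.l 460)) (T.b (T.l 1) (T.l 460)))) (T.l 1)) (T.l 460)) (T.b (T.a (T.a (T.l 460) (T.a (T.l 476) (T.l 476))) (T.l 1)) (T.l 460)))))) (T.l 460)))) (T.l 204)))), by decide +kernel⟩

def B102E_010_11_684_6 :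
    ∃ t, chk3 (onCell 0 33554432 0 1073741824 33554432 16777216 (corTK [] true 1 c0F cB102E gF0q1 gF1q2 gF0q0 gF1q0 true true)) t 11 684 6 = true :=
  ⟨(T.b (T.l 1) (T.a (T.c (T.b (T.a (T.c (T.b (T.a (T.c (T.b (T.l 1) (T.a (T.a (T.l 460) (T.c (T.b (T.l 1) (T.l 460)) (T.b (T.l 1) (T.l 460)))) (T.l 1))) (T.b (T.l 1) (T.a (T.a (T.l 460) (T.c (T.b (T.l 1) (T.l 460)) (T.b (T.l 1) (T.l 460)))) (T.l 1)))) (T.l 1)) (T.a (T.l 460) (T.c (T.b (T.a (T.c (T.b (T.l 1) (T.l 460)) (T.b (T.l 1) (T.l 460))) (T.l 1)) (T.a (T.l 460) (T.a (T.l 460) (T.c (T.b (T.l 1) (T.l 460)) (T.b (T.l 1) (T.l 460)))))) (T.b (T.a (T.c (T.b (T.l 1) (T.l 460)) (T.b (T.l 1) (T.l 460))) (T.l 1)) (T.a (T.l 460) (T.a (T.l 460) (T.a (T.l 460) (T.l 476)))))))) (T.b (T.a (T.c (T.b (T.l 1) (T.a (T.a (T.l 460) (T.c (T.b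 (T.l 1) (T.l 460)) (T.b (T.l 1) (T.l 460)))) (T.l 1))) (T.b (T.l 1) (T.a (T.a (T.l 460) (T.c (T.b (T.l 1) (T.l 460)) (T.b (T.l 1) (T.l 460)))) (T.l 1)))) (T.l 1)) (T.a (T.l 460) (T.c (T.b (T.a (T.c (T.b (T.l 1) (T.l 460)) (T.b (T.l 1) (T.l 460))) (T.l 1)) (T.a (T.l 460) (T.a (T.l 460) (T.l 476)))) (T.b (T.a (T.c (T.b (T.l 1) (T.l 460)) (T.b (T.l 1) (T.l 460))) (T.l 1)) (T.a (T.l 460) (T.l 476))))))) (T.a (T.a (T.a (T.c (T.b (T.l 1) (T.a (T.c (T.b (T.l 1) (T.c (T.b (T.l 1) (T.l 460)) (T.b (T.l 1) (T.l 460)))) (T.b (T.l 1) (T.c (T.b (T.l 1) (T.l 460)) (T.b (T.l 1) (T.l 460))))) (T.l 1))) (T.b (T.l 1) (T.a (T.c (T.b (T.l 1) (T.c (T.b (T.l 1) (T.l 460)) (T.b (T.l 1) (T.l 460)))) (T.b (T.l 1) (T.c (T.b (T.l 1) (T.l 460)) (T.b (T.l 1) (T.l 460))))) (T.l 1)))) (T.l 1)) (T.l 1)) (T.l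 1))) (T.a (T.l 460) (T.c (T.b (T.a (T.a (T.l 460) (T.a (T.l 476) (T.c (T.b (T.c (T.b (T.l 1) (T.l 460)) (T.b (T.l 1) (T.l 460))) (T.l 460)) (T.b (T.c (T.b (T.l 1) (T.l 460)) (T.b (T.l 1) (T.l 460))) (T.l 460))))) (T.c (T.b (T.l 1) (T.a (T.l 476) (T.c (T.b (T.l 1) (T.l 476)) (T.b (T.l 1) (T.l 476))))) (T.b (T.l 1) (T.a (T.l 476) (T.c (T.b (T.l 1) (T.l 476)) (T.b (T.l 1) (T.l 476))))))) (T.l 476)) (T.b (T.a (T.a (T.l 460) (T.a (T.l 476) (T.c (T.b (T.c (T.b (T.l 1) (T.l 460)) (T.b (T.l 1) (T.l 460))) (T.l 460)) (T.b (T.c (T.b (T.l 1) (T.l 460)) (T.b (T.l 1) (T.l 460))) (T.l 460))))) (T.c (T.b (T.l 1) (T.a (T.l 476) (T.c (T.b (T.l 1) (T.l 476)) (T.b (T.l 1) (T.l 476))))) (T.b (T.l 1) (T.a (T.l 476) (T.c (T.b (T.l 1) (T.l 476)) (T.b (T.l 1) (T.l 476))))))) (T.l 460))))) (T.b (T.a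 (T.c (T.b (T.a (T.c (T.b (T.l 1) (T.a (T.a (T.l 460) (T.c (T.b (T.l 1) (T.l 460)) (T.b (T.l 1) (T.l 460)))) (T.l 1))) (T.b (T.l 1) (T.a (T.a (T.l 460) (T.c (T.b (T.l 1) (T.l 460)) (T.b (T.l 1) (T.l 460)))) (T.l 1)))) (T.l 1)) (T.a (T.l 460) (T.c (T.b (T.a (T.c (T.b (T.l 1) (T.l 460)) (T.b (T.l 1) (T.l 460))) (T.l 1)) (T.a (T.l 460) (T.l 476))) (T.b (T.a (T.c (T.b (T.l 1) (T.l 460)) (T.b (T.l 1) (T.l 460))) (T.l 1)) (T.a (T.l 460) (T.l 476)))))) (T.b (T.a (T.c (T.b (T.l 1) (T.a (T.a (T.l 460) (T.c (T.b (T.l 1) (T.l 460)) (T.b (T.l 1) (T.l 460)))) (T.l 1))) (T.b (T.l 1) (T.a (T.a (T.l 460) (T.c (T.b (T.l 1) (T.l 460)) (T.b (T.l 1) (T.l 460)))) (T.l 1)))) (T.l 1)) (T.a (T.l 460) (T.c (T.b (T.a (T.c (T.b (T.l 1) (T.l 460)) (T.b (T.l 1) (T.l 460))) (T.l 1)) (T.a (T.l 460) (T.l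 460))) (T.b (T.a (T.c (T.b (T.l 1) (T.l 460)) (T.b (T.l 1) (T.l 460))) (T.l 1)) (T.l 476)))))) (T.a (T.a (T.a (T.c (T.b (T.l 1) (T.a (T.c (T.b (T.l 1) (T.c (T.b (T.l 1) (T.l 460)) (T.b (T.l 1) (T.l 460)))) (T.b (T.l 1) (T.c (T.b (T.l 1) (T.l 460)) (T.b (T.l 1) (T.l 460))))) (T.l 1))) (T.b (T.l 1) (T.a (T.c (T.b (T.l 1) (T.c (T.b (T.l 1) (T.l 460)) (T.b (T.l 1) (T.l 460)))) (T.b (T.l 1) (T.c (T.b (T.l 1) (T.l 460)) (T.b (T.l 1) (T.l 460))))) (T.l 1)))) (T.l 1)) (T.l 1)) (T.l 1))) (T.a (T.l 460) (T.c (T.b (T.a (T.a (T.l 460) (T.a (T.l 460) (T.c (T.b (T.c (T.b (T.l 1) (T.l 460)) (T.b (T.l 1) (T.l 460))) (T.l 460)) (T.b (T.c (T.b (T.l 1) (T.l 460)) (T.a (T.l 476) (T.l 1))) (T.l 460))))) (T.c (T.b (T.l 1) (T.a (T.l 460) (T.c (T.b (T.l 1) (T.l 476)) (T.b (T.l 1) (T.l 476))))) (T.b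 (T.l 1) (T.a (T.l 460) (T.c (T.b (T.l 1) (T.l 476)) (T.b (T.l 1) (T.l 476))))))) (T.l 460)) (T.b (T.a (T.a (T.l 460) (T.a (T.l 460) (T.c (T.b (T.a (T.l 476) (T.l 1)) (T.l 460)) (T.a (T.l 476) (T.b (T.l 1) (T.l 460)))))) (T.c (T.b (T.l 1) (T.a (T.l 460) (T.c (T.b (T.l 1) (T.l 476)) (T.b (T.l 1) (T.l 476))))) (T.b (T.l 1) (T.a (T.l 460) (T.c (T.b (T.l 1) (T.l 476)) (T.b (T.l 1) (T.l 476))))))) (T.l 460)))))) (T.a (T.c (T.b (T.l 1) (T.c (T.b (T.l 1) (T.a (T.c (T.b (T.a (T.c (T.b (T.l 1) (T.l 460)) (T.b (T.l 1) (T.l 460))) (T.l 1)) (T.l 476)) (T.b (T.a (T.c (T.b (T.l 1) (T.l 460)) (T.b (T.l 1) (T.l 460))) (T.l 1)) (T.l 476))) (T.a (T.a (T.c (T.b (T.l 1) (T.a (T.l 476) (T.l 1))) (T.b (T.l 1) (T.a (T.l 476) (T.l 1)))) (T.l 1)) (T.l 1)))) (T.b (T.l 1) (T.a (T.c (T.b (T.a (T.c (T.b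 (T.l 1) (T.l 460)) (T.b (T.l 1) (T.l 460))) (T.l 1)) (T.l 476)) (T.b (T.a (T.c (T.b (T.l 1) (T.l 460)) (T.b (T.l 1) (T.l 460))) (T.l 1)) (T.l 460))) (T.a (T.a (T.c (T.b (T.l 1) (T.a (T.l 476) (T.l 1))) (T.b (T.l 1) (T.l 476))) (T.l 1)) (T.l 1)))))) (T.b (T.l 1) (T.c (T.b (T.l 1) (T.a (T.c (T.b (T.a (T.c (T.b (T.l 1) (T.l 460)) (T.b (T.l 1) (T.l 460))) (T.l 1)) (T.l 460)) (T.b (T.a (T.c (T.b (T.l 1) (T.l 460)) (T.b (T.l 1) (T.l 460))) (T.l 1)) (T.l 460))) (T.a (T.a (T.c (T.b (T.l 1) (T.l 476)) (T.b (T.l 1) (T.l 476))) (T.l 1)) (T.l 1)))) (T.b (T.l 1) (T.a (T.c (T.b (T.a (T.c (T.b (T.l 1) (T.l 460)) (T.a (T.l 460) (T.l 476))) (T.l 1)) (T.l 460)) (T.b (T.a (T.a (T.l 460) (T.l 476)) (T.l 1)) (T.l 460))) (T.a (T.a (T.c (T.b (T.l 1) (T.l 476)) (T.b (T.l 1) (T.l 476))) (T.l 1)) (T.l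 1))))))) (T.l 1)))), by decide +kernel⟩

def B102E_010_11_684_7 :
    ∃ t, chk3 (onCell 0 33554432 0 1073741824 33554432 16777216 (corTK [] true 1 c0F cB102E gF0q1 gF1q2 gF0q0 gF1q0 true true)) t 11 684 7 = true :=
  ⟨(T.b (T.l 1) (T.a (T.c (T.b (T.a (T.c (T.b (T.a (T.c (T.b (T.l 1) (T.a (T.a (T.l 460) (T.c (T.b (T.l 1) (T.l 460)) (T.b (T.l 1) (T.l 460)))) (T.l 1))) (T.b (T.l 1) (T.a (T.a (T.l 460) (T.c (T.b (T.l 1) (T.l 460)) (T.b (T.l 1) (T.l 460)))) (T.l 1)))) (T.l 1)) (T.a (T.l 460) (T.c (T.b (T.a (T.c (T.b (T.l 1) (T.l 460)) (T.b (T.l 1) (T.l 460))) (T.l 1)) (T.l 460)) (T.b (T.a (T.c (T.b (T.l 1) (T.l 460)) (T.b (T.l 1) (T.l 460))) (T.l 1)) (T.l 460))))) (T.b (T.a (T.c (T.b (T.l 1) (T.a (T.a (T.l 460) (T.c (T.b (T.l 1) (T.l 460)) (T.b (T.l 1) (T.l 460)))) (T.l 1))) (T.b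 (T.l 1) (T.a (T.a (T.l 460) (T.c (T.b (T.l 1) (T.l 460)) (T.b (T.l 1) (T.l 460)))) (T.l 1)))) (T.l 1)) (T.a (T.l 460) (T.c (T.b (T.a (T.c (T.b (T.l 1) (T.l 460)) (T.b (T.l 1) (T.l 460))) (T.l 1)) (T.l 460)) (T.b (T.a (T.c (T.b (T.l 1) (T.l 460)) (T.b (T.l 1) (T.l 460))) (T.l 1)) (T.l 460)))))) (T.a (T.a (T.a (T.c (T.b (T.l 1) (T.a (T.c (T.b (T.l 1) (T.a (T.l 476) (T.l 1))) (T.b (T.l 1) (T.a (T.l 476) (T.l 1)))) (T.l 1))) (T.b (T.l 1) (T.a (T.c (T.b (T.l 1) (T.a (T.l 460) (T.l 1))) (T.b (T.l 1) (T.a (T.l 460) (T.l 1)))) (T.l 1)))) (T.l 1)) (T.l 1)) (T.l 1))) (T.a (T.l 460) (T.c (T.b (T.a (T.a (T.l 460) (T.a (T.l 460) (T.a (T.l 476) (T.c (T.b (T.l 1) (T.l 460)) (T.b (T.l 1) (T.l 460)))))) (T.c (T.b (T.l 1) (T.a (T.l 460) (T.c (T.b (T.l 1) (T.l 476)) (T.b (T.l 1) (T.l 476)))))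 (T.b (T.l 1) (T.a (T.l 460) (T.c (T.b (T.l 1) (T.l 476)) (T.b (T.l 1) (T.l 476))))))) (T.l 460)) (T.b (T.a (T.a (T.l 460) (T.a (T.l 460) (T.a (T.l 476) (T.c (T.b (T.l 1) (T.l 460)) (T.b (T.l 1) (T.l 460)))))) (T.c (T.b (T.l 1) (T.a (T.l 460) (T.c (T.b (T.l 1) (T.l 476)) (T.a (T.l 476) (T.l 1))))) (T.b (T.l 1) (T.a (T.l 460) (T.a (T.l 476) (T.l 1)))))) (T.l 460))))) (T.b (T.a (T.c (T.b (T.a (T.c (T.b (T.l 1) (T.a (T.a (T.l 460) (T.c (T.b (T.l 1) (T.l 460)) (T.b (T.l 1) (T.l 460)))) (T.l 1))) (T.b (T.l 1) (T.a (T.a (T.l 460) (T.c (T.b (T.l 1) (T.l 460)) (T.b (T.l 1) (T.l 460)))) (T.l 1)))) (T.l 1)) (T.a (T.l 460) (T.c (T.b (T.a (T.c (T.b (T.l 1) (T.l 460)) (T.b (T.l 1) (T.l 460))) (T.l 1)) (T.l 460)) (T.b (T.a (T.c (T.b (T.l 1) (T.l 460)) (T.b (T.l 1) (T.l 460))) (T.l 1)) (T.l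 460))))) (T.b (T.a (T.c (T.b (T.l 1) (T.a (T.a (T.l 460) (T.c (T.b (T.l 1) (T.l 460)) (T.b (T.l 1) (T.l 460)))) (T.l 1))) (T.b (T.l 1) (T.a (T.a (T.l 460) (T.c (T.b (T.l 1) (T.l 460)) (T.b (T.l 1) (T.l 460)))) (T.l 1)))) (T.l 1)) (T.a (T.l 460) (T.c (T.b (T.a (T.c (T.b (T.l 1) (T.l 460)) (T.b (T.l 1) (T.l 460))) (T.l 1)) (T.l 460)) (T.b (T.a (T.c (T.b (T.l 1) (T.l 460)) (T.b (T.l 1) (T.l 460))) (T.l 1)) (T.l 460)))))) (T.a (T.a (T.a (T.c (T.b (T.l 1) (T.a (T.c (T.b (T.l 1) (T.a (T.l 460) (T.l 1))) (T.b (T.l 1) (T.a (T.l 460) (T.l 1)))) (T.l 1))) (T.b (T.l 1) (T.a (T.c (T.b (T.l 1) (T.l 460)) (T.b (T.l 1) (T.l 460))) (T.l 1)))) (T.l 1)) (T.l 1)) (T.l 1))) (T.a (T.l 460) (T.c (T.b (T.a (T.a (T.l 460) (T.a (T.l 460) (T.a (T.l 460) (T.c (T.b (T.l 1) (T.l 460)) (T.b (T.l 1) (T.l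 460)))))) (T.c (T.b (T.l 1) (T.a (T.l 460) (T.a (T.l 476) (T.l 1)))) (T.b (T.l 1) (T.a (T.l 460) (T.a (T.l 476) (T.l 1)))))) (T.l 460)) (T.b (T.a (T.a (T.l 460) (T.a (T.l 460) (T.a (T.l 460) (T.c (T.b (T.l 1) (T.l 460)) (T.b (T.l 1) (T.l 460)))))) (T.c (T.b (T.l 1) (T.a (T.l 460) (T.a (T.l 476) (T.l 1)))) (T.b (T.l 1) (T.a (T.l 460) (T.a (T.l 476) (T.l 1)))))) (T.l 460)))))) (T.a (T.c (T.b (T.l 1) (T.c (T.b (T.l 1) (T.a (T.a (T.l 476) (T.c (T.b (T.l 1) (T.l 460)) (T.b (T.l 1) (T.l 460)))) (T.a (T.a (T.c (T.b (T.l 1) (T.l 476)) (T.b (T.l 1) (T.l 476))) (T.l 1)) (T.l 1)))) (T.b (T.l 1) (T.a (T.a (T.l 476) (T.c (T.b (T.l 1) (T.l 460)) (T.b (T.l 1) (T.l 460)))) (T.a (T.c (T.b (T.l 1) (T.a (T.l 476) (T.l 1))) (T.b (T.l 1) (T.a (T.l 476) (T.l 1)))) (T.l 1)))))) (T.b (T.l 1) (T.c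 (T.b (T.l 1) (T.a (T.a (T.l 476) (T.c (T.b (T.l 1) (T.l 460)) (T.b (T.l 1) (T.l 460)))) (T.a (T.c (T.b (T.l 1) (T.a (T.l 476) (T.l 1))) (T.b (T.l 1) (T.a (T.l 476) (T.l 1)))) (T.l 1)))) (T.b (T.l 1) (T.a (T.a (T.l 476) (T.c (T.b (T.l 1) (T.l 460)) (T.b (T.l 1) (T.l 460)))) (T.a (T.c (T.b (T.l 1) (T.a (T.l 476) (T.l 1))) (T.b (T.l 1) (T.a (T.l 476) (T.l 1)))) (T.l 1))))))) (T.l 1)))), by decide +kernel⟩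

def B102E_010_11_685_3 :
    ∃ t, chk3 (onCell 0 33554432 0 1073741824 33554432 16777216 (corTK [] true 1 c0F cB102E gF0q1 gF1q2 gF0q0 gF1q0 true true)) t 11 685 3 = true :=
  ⟨(T.a (T.c (T.l 460) (T.l 460)) (T.c (T.b (T.a (T.a (T.l 460) (T.a (T.l 460) (T.c (T.b (T.a (T.l 460) (T.c (T.c (T.b (T.a (T.l 476) (T.b (T.l 1) (T.l 460))) (T.l 460)) (T.l 476)) (T.l 476))) (T.l 204)) (T.l 476)))) (T.c (T.b (T.c (T.b (T.a (T.c (T.b (T.l 1) (T.a (T.l 460) (T.a (T.l 476) (T.l 1)))) (T.b (T.l 1) (T.a (T.l 460) (T.a (T.l 476) (T.l 1))))) (T.l 1)) (T.a (T.l 460) (T.c (T.b (T.a (T.a (T.l 460) (T.l 476)) (T.l 1)) (T.l 460)) (T.a (T.l 476) (T.b (T.l 1) (T.l 460)))))) (T.b (T.a (T.c (T.b (T.l 1) (T.a (T.l 460) (T.a (T.l 476) (T.l 1)))) (T.b (T.l 1) (T.a (T.l 460) (T.a (T.l 476) (T.l 1)))))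 (T.l 1)) (T.a (T.l 460) (T.a (T.l 476) (T.c (T.b (T.l 1) (T.l 460)) (T.b (T.l 1) (T.l 460))))))) (T.l 460)) (T.b (T.c (T.b (T.a (T.c (T.b (T.l 1) (T.a (T.l 460) (T.a (T.l 476) (T.l 1)))) (T.b (T.l 1) (T.a (T.l 460) (T.a (T.l 476) (T.l 1))))) (T.l 1)) (T.a (T.l 460) (T.a (T.l 476) (T.c (T.b (T.l 1) (T.l 460)) (T.b (T.l 1) (T.l 460)))))) (T.b (T.a (T.c (T.b (T.l 1) (T.a (T.l 460) (T.a (T.l 476) (T.l 1)))) (T.b (T.l 1) (T.a (T.l 460) (T.a (T.l 476) (T.l 1))))) (T.l 1)) (T.a (T.l 460) (T.a (T.l 476) (T.c (T.b (T.l 1) (T.l 460)) (T.b (T.l 1) (T.l 460))))))) (T.l 460)))) (T.l 204)) (T.b (T.a (T.a (T.l 460) (T.a (T.l 460) (T.l 476))) (T.c (T.b (T.c (T.b (T.a (T.c (T.b (T.l 1) (T.a (T.l 460) (T.a (T.l 476) (T.l 1)))) (T.b (T.l 1) (T.a (T.l 460) (T.a (T.l 476) (T.l 1))))) (T.l 1))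 (T.a (T.l 460) (T.a (T.l 476) (T.c (T.b (T.l 1) (T.l 460)) (T.b (T.l 1) (T.l 460)))))) (T.b (T.a (T.c (T.b (T.l 1) (T.a (T.l 460) (T.a (T.l 476) (T.l 1)))) (T.b (T.l 1) (T.a (T.l 460) (T.a (T.l 476) (T.l 1))))) (T.l 1)) (T.a (T.l 460) (T.a (T.l 476) (T.c (T.b (T.l 1) (T.l 460)) (T.b (T.l 1) (T.l 460))))))) (T.l 460)) (T.b (T.c (T.b (T.a (T.c (T.b (T.l 1) (T.a (T.l 460) (T.a (T.l 476) (T.l 1)))) (T.b (T.l 1) (T.a (T.l 460) (T.a (T.l 476) (T.l 1))))) (T.l 1)) (T.a (T.l 460) (T.a (T.l 476) (T.c (T.b (T.l 1) (T.l 460)) (T.b (T.l 1) (T.l 460)))))) (T.b (T.a (T.c (T.b (T.l 1) (T.a (T.l 460) (T.a (T.l 476) (T.l 1)))) (T.b (T.l 1) (T.a (T.l 460) (T.a (T.l 460) (T.l 1))))) (T.l 1)) (T.a (T.l 460) (T.a (T.l 476) (T.c (T.b (T.l 1) (T.l 460)) (T.b (T.l 1) (T.l 460))))))) (T.l 460))))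 (T.l 204)))), by decide +kernel⟩

def B102E_010_11_343_1 :
    ∃ t, chk3 (onCell 0 33554432 0 1073741824 33554432 16777216 (corTK [] true 1 c0F cB102E gF0q1 gF1q2 gF0q0 gF1q0 true true)) t 11 343 1 = true :=
  ⟨(T.c (T.l 460) (T.l 476)), by decide +kernel⟩

def B102E_010_6_684_2 :
    ∃ t, chk3 (onCell 0 33554432 0 1073741824 33554432 16777216 (corTK [] true 1 c0F cB102E gF0q1 gF1q2 gF0q0 gF1q0 true true)) t 6 684 2 = true :=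
  ⟨(T.l 1), by decide +kernel⟩

def B102E_010_12_1370_4 :
    ∃ t, chk3 (onCell 0 33554432 0 1073741824 33554432 16777216 (corTK [] true 1 c0F cB102E gF0q1 gF1q2 gF0q0 gF1q0 true true)) t 12 1370 4 = true :=
  ⟨(T.a (T.c (T.b (T.a (T.a (T.a (T.a (T.c (T.b (T.l 1) (T.c (T.b (T.l 1) (T.c (T.b (T.l 1) (T.l 460)) (T.b (T.l 1) (T.l 460)))) (T.b (T.l 1) (T.c (T.b (T.l 1) (T.l 460)) (T.b (T.l 1) (T.l 460)))))) (T.b (T.l 1) (T.c (T.b (T.l 1) (T.c (T.b (T.l 1) (T.l 460)) (T.b (T.l 1) (T.l 460)))) (T.b (T.l 1) (T.c (T.b (T.l 1) (T.l 460)) (T.b (T.l 1) (T.l 460))))))) (T.l 1)) (T.l 1)) (T.l 1)) (T.l 1)) (T.a (T.c (T.b (T.a (T.a (T.l 460) (T.a (T.l 476) (T.c (T.b (T.c (T.b (T.l 1) (T.l 460)) (T.b (T.l 1) (T.l 460))) (T.l 460)) (T.a (T.l 476) (T.b (T.c (T.b (T.l 1) (T.l 460)) (T.b (T.l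 1) (T.l 460))) (T.l 460)))))) (T.c (T.b (T.l 1) (T.a (T.l 476) (T.c (T.b (T.l 1) (T.a (T.l 460) (T.l 1))) (T.b (T.l 1) (T.l 476))))) (T.b (T.l 1) (T.a (T.l 460) (T.c (T.b (T.l 1) (T.l 476)) (T.b (T.l 1) (T.l 476))))))) (T.l 460)) (T.b (T.a (T.a (T.l 460) (T.a (T.l 460) (T.a (T.l 476) (T.c (T.b (T.c (T.b (T.l 1) (T.l 460)) (T.b (T.l 1) (T.l 460))) (T.l 460)) (T.b (T.c (T.b (T.l 1) (T.l 460)) (T.b (T.l 1) (T.l 460))) (T.l 460)))))) (T.c (T.b (T.l 1) (T.a (T.l 460) (T.c (T.b (T.l 1) (T.l 476)) (T.b (T.l 1) (T.l 476))))) (T.b (T.l 1) (T.a (T.l 460) (T.c (T.b (T.l 1) (T.l 476)) (T.b (T.l 1) (T.l 476))))))) (T.l 460))) (T.c (T.b (T.l 1) (T.a (T.c (T.b (T.a (T.a (T.l 460) (T.c (T.b (T.l 1) (T.l 460)) (T.b (T.l 1) (T.l 460)))) (T.l 1)) (T.l 476)) (T.b (T.a (T.a (T.l 460) (T.c (T.b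 (T.l 1) (T.l 460)) (T.b (T.l 1) (T.l 460)))) (T.l 1)) (T.l 476))) (T.a (T.c (T.b (T.l 1) (T.c (T.b (T.l 1) (T.l 476)) (T.b (T.l 1) (T.l 476)))) (T.b (T.l 1) (T.c (T.b (T.l 1) (T.l 476)) (T.b (T.l 1) (T.l 476))))) (T.l 1)))) (T.b (T.l 1) (T.a (T.c (T.b (T.a (T.a (T.l 460) (T.c (T.b (T.l 1) (T.l 460)) (T.b (T.l 1) (T.l 460)))) (T.l 1)) (T.l 476)) (T.b (T.a (T.a (T.l 460) (T.c (T.b (T.l 1) (T.l 460)) (T.b (T.l 1) (T.l 460)))) (T.l 1)) (T.l 476))) (T.a (T.c (T.b (T.l 1) (T.c (T.b (T.l 1) (T.l 476)) (T.b (T.l 1) (T.l 476)))) (T.b (T.l 1) (T.c (T.b (T.l 1) (T.l 476)) (T.b (T.l 1) (T.l 476))))) (T.l 1))))))) (T.b (T.a (T.a (T.a (T.a (T.c (T.b (T.l 1) (T.c (T.b (T.l 1) (T.c (T.b (T.l 1) (T.l 460)) (T.b (T.l 1) (T.l 460)))) (T.b (T.l 1) (T.c (T.b (T.l 1) (T.l 460)) (T.b (T.l 1) (T.l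 460)))))) (T.b (T.l 1) (T.c (T.b (T.l 1) (T.c (T.b (T.l 1) (T.l 460)) (T.b (T.l 1) (T.l 460)))) (T.b (T.l 1) (T.c (T.b (T.l 1) (T.l 460)) (T.b (T.l 1) (T.l 460))))))) (T.l 1)) (T.l 1)) (T.l 1)) (T.l 1)) (T.a (T.c (T.b (T.a (T.a (T.l 460) (T.a (T.l 460) (T.a (T.l 476) (T.c (T.b (T.c (T.b (T.l 1) (T.l 460)) (T.b (T.l 1) (T.l 460))) (T.l 460)) (T.b (T.c (T.b (T.l 1) (T.l 460)) (T.b (T.l 1) (T.l 460))) (T.l 460)))))) (T.c (T.b (T.l 1) (T.a (T.l 460) (T.c (T.b (T.l 1) (T.l 476)) (T.b (T.l 1) (T.l 476))))) (T.b (T.l 1) (T.a (T.l 460) (T.c (T.b (T.l 1) (T.l 476)) (T.b (T.l 1) (T.l 476))))))) (T.l 460)) (T.b (T.a (T.a (T.l 460) (T.a (T.l 460) (T.a (T.l 476) (T.c (T.b (T.c (T.b (T.l 1) (T.l 460)) (T.b (T.l 1) (T.l 460))) (T.l 460)) (T.b (T.c (T.b (T.l 1) (T.l 460)) (T.b (T.l 1) (T.l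 460))) (T.l 460)))))) (T.c (T.b (T.l 1) (T.a (T.l 460) (T.c (T.b (T.l 1) (T.l 476)) (T.b (T.l 1) (T.l 476))))) (T.b (T.l 1) (T.a (T.l 460) (T.c (T.b (T.l 1) (T.l 476)) (T.b (T.l 1) (T.l 476))))))) (T.l 460))) (T.c (T.b (T.l 1) (T.a (T.c (T.b (T.a (T.a (T.l 460) (T.c (T.b (T.l 1) (T.l 460)) (T.b (T.l 1) (T.l 460)))) (T.l 1)) (T.l 476)) (T.b (T.a (T.a (T.l 460) (T.c (T.b (T.l 1) (T.l 460)) (T.b (T.l 1) (T.l 460)))) (T.l 1)) (T.l 476))) (T.a (T.c (T.b (T.l 1) (T.c (T.b (T.l 1) (T.l 476)) (T.b (T.l 1) (T.l 476)))) (T.b (T.l 1) (T.c (T.b (T.l 1) (T.l 476)) (T.b (T.l 1) (T.l 476))))) (T.l 1)))) (T.b (T.l 1) (T.a (T.c (T.b (T.a (T.a (T.l 460) (T.c (T.b (T.l 1) (T.l 460)) (T.b (T.l 1) (T.l 460)))) (T.l 1)) (T.l 460)) (T.b (T.a (T.a (T.l 460) (T.c (T.b (T.l 1) (T.l 460)) (T.b (T.l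 1) (T.l 460)))) (T.l 1)) (T.l 460))) (T.a (T.c (T.b (T.l 1) (T.c (T.b (T.l 1) (T.l 476)) (T.b (T.l 1) (T.l 476)))) (T.b (T.l 1) (T.c (T.b (T.l 1) (T.l 476)) (T.b (T.l 1) (T.l 476))))) (T.l 1)))))))) (T.l 1)), by decide +kernel⟩

def B102E_010_12_1371_4 :
    ∃ t, chk3 (onCell 0 33554432 0 1073741824 33554432 16777216 (corTK [] true 1 c0F cB102E gF0q1 gF1q2 gF0q0 gF1q0 true true)) t 12 1371 4 = true :=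
  ⟨(T.a (T.a (T.l 460) (T.a (T.l 460) (T.a (T.l 460) (T.c (T.b (T.a (T.l 476) (T.c (T.b (T.a (T.l 476) (T.c (T.b (T.c (T.b (T.l 1) (T.l 460)) (T.b (T.l 1) (T.l 460))) (T.l 460)) (T.b (T.c (T.b (T.l 1) (T.l 460)) (T.b (T.l 1) (T.l 460))) (T.l 460)))) (T.l 460)) (T.b (T.a (T.l 476) (T.c (T.b (T.c (T.b (T.l 1) (T.l 460)) (T.b (T.l 1) (T.l 460))) (T.l 460)) (T.b (T.c (T.b (T.l 1) (T.l 460)) (T.b (T.l 1) (T.l 460))) (T.l 460)))) (T.l 460)))) (T.l 204)) (T.b (T.a (T.l 460) (T.c (T.b (T.a (T.l 476) (T.c (T.b (T.c (T.b (T.l 1) (T.l 460)) (T.b (T.l 1) (T.l 460))) (T.l 460)) (T.b (T.c (T.b (T.l 1) (T.l 460)) (T.b (T.l 1) (T.l 460))) (T.l 460)))) (T.l 460)) (T.b (T.a (T.l 476) (T.c (T.b (T.c (T.b (T.l 1) (T.l 460)) (T.b (T.l 1) (T.l 460))) (T.l 460)) (T.b (T.c (T.b (T.l 1) (T.l 460))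 (T.b (T.l 1) (T.l 460))) (T.l 460)))) (T.l 460)))) (T.l 204)))))) (T.c (T.b (T.a (T.c (T.b (T.a (T.c (T.b (T.l 1) (T.a (T.l 476) (T.c (T.b (T.l 1) (T.l 476)) (T.b (T.l 1) (T.l 476))))) (T.b (T.l 1) (T.a (T.l 476) (T.c (T.b (T.l 1) (T.l 476)) (T.b (T.l 1) (T.l 476)))))) (T.l 1)) (T.a (T.l 460) (T.c (T.b (T.a (T.a (T.l 476) (T.c (T.b (T.l 1) (T.l 460)) (T.b (T.l 1) (T.l 460)))) (T.l 1)) (T.l 476)) (T.b (T.a (T.a (T.l 476) (T.c (T.b (T.l 1) (T.l 460)) (T.b (T.l 1) (T.l 460)))) (T.l 1)) (T.l 476))))) (T.b (T.a (T.c (T.b (T.l 1) (T.a (T.l 460) (T.c (T.b (T.l 1) (T.l 476)) (T.b (T.l 1) (T.l 476))))) (T.b (T.l 1) (T.a (T.l 460) (T.c (T.b (T.l 1) (T.l 476)) (T.b (T.l 1) (T.l 476)))))) (T.l 1)) (T.a (T.l 460) (T.c (T.b (T.a (T.a (T.l 476) (T.c (T.b (T.l 1) (T.l 460)) (T.b (T.l 1) (T.l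 460)))) (T.l 1)) (T.l 476)) (T.b (T.a (T.a (T.l 460) (T.c (T.b (T.l 1) (T.l 460)) (T.b (T.l 1) (T.l 460)))) (T.l 1)) (T.l 476)))))) (T.a (T.a (T.a (T.c (T.b (T.l 1) (T.c (T.b (T.l 1) (T.c (T.b (T.l 1) (T.l 460)) (T.b (T.l 1) (T.l 460)))) (T.b (T.l 1) (T.c (T.b (T.l 1) (T.l 460)) (T.b (T.l 1) (T.l 460)))))) (T.b (T.l 1) (T.c (T.b (T.l 1) (T.c (T.b (T.l 1) (T.l 460)) (T.b (T.l 1) (T.l 460)))) (T.b (T.l 1) (T.c (T.b (T.l 1) (T.l 460)) (T.b (T.l 1) (T.l 460))))))) (T.l 1)) (T.l 1)) (T.l 1))) (T.a (T.l 460) (T.c (T.b (T.a (T.a (T.l 460) (T.a (T.l 476) (T.a (T.l 476) (T.l 476)))) (T.c (T.b (T.l 1) (T.a (T.l 476) (T.a (T.l 476) (T.l 1)))) (T.b (T.l 1) (T.a (T.l 476) (T.a (T.l 476) (T.l 1)))))) (T.l 476)) (T.b (T.a (T.a (T.l 460) (T.a (T.l 476) (T.c (T.l 476) (T.l 476)))) (T.c (T.b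 (T.l 1) (T.a (T.l 476) (T.a (T.l 476) (T.l 1)))) (T.b (T.l 1) (T.a (T.l 476) (T.a (T.l 476) (T.l 1)))))) (T.l 476))))) (T.b (T.a (T.c (T.b (T.a (T.c (T.b (T.l 1) (T.a (T.l 460) (T.c (T.b (T.l 1) (T.l 476)) (T.b (T.l 1) (T.l 476))))) (T.b (T.l 1) (T.a (T.l 460) (T.c (T.b (T.l 1) (T.l 476)) (T.b (T.l 1) (T.l 476)))))) (T.l 1)) (T.a (T.l 460) (T.c (T.b (T.a (T.a (T.l 460) (T.c (T.b (T.l 1) (T.l 460)) (T.b (T.l 1) (T.l 460)))) (T.l 1)) (T.l 476)) (T.b (T.a (T.a (T.l 460) (T.c (T.b (T.l 1) (T.l 460)) (T.b (T.l 1) (T.l 460)))) (T.l 1)) (T.l 476))))) (T.b (T.a (T.c (T.b (T.l 1) (T.a (T.l 460) (T.c (T.b (T.l 1) (T.l 476)) (T.b (T.l 1) (T.l 476))))) (T.b (T.l 1) (T.a (T.l 460) (T.c (T.b (T.l 1) (T.l 476)) (T.b (T.l 1) (T.l 476)))))) (T.l 1)) (T.a (T.l 460) (T.c (T.b (T.a (T.a (T.l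 460) (T.c (T.b (T.l 1) (T.l 460)) (T.b (T.l 1) (T.l 460)))) (T.l 1)) (T.l 476)) (T.b (T.a (T.a (T.l 460) (T.c (T.b (T.l 1) (T.l 460)) (T.b (T.l 1) (T.l 460)))) (T.l 1)) (T.l 476)))))) (T.a (T.a (T.a (T.c (T.b (T.l 1) (T.c (T.b (T.l 1) (T.c (T.b (T.l 1) (T.l 460)) (T.b (T.l 1) (T.l 460)))) (T.b (T.l 1) (T.c (T.b (T.l 1) (T.l 460)) (T.b (T.l 1) (T.l 460)))))) (T.b (T.l 1) (T.c (T.b (T.l 1) (T.c (T.b (T.l 1) (T.l 460)) (T.b (T.l 1) (T.l 460)))) (T.b (T.l 1) (T.c (T.b (T.l 1) (T.l 460)) (T.a (T.l 476) (T.l 476))))))) (T.l 1)) (T.l 1)) (T.l 1))) (T.a (T.l 460) (T.c (T.b (T.a (T.a (T.l 460) (T.a (T.l 476) (T.l 476))) (T.c (T.b (T.l 1) (T.a (T.l 476) (T.a (T.l 476) (T.l 1)))) (T.b (T.l 1) (T.a (T.l 476) (T.a (T.l 476) (T.l 1)))))) (T.l 476)) (T.b (T.a (T.a (T.l 460) (T.c (T.l 476)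 (T.l 476))) (T.c (T.b (T.l 1) (T.a (T.l 476) (T.a (T.l 476) (T.l 1)))) (T.b (T.l 1) (T.a (T.l 476) (T.a (T.l 476) (T.l 1)))))) (T.l 476))))))), by decide +kernel⟩

def B102E_010_12_1370_5 :
    ∃ t, chk3 (onCell 0 33554432 0 1073741824 33554432 16777216 (corTK [] true 1 c0F cB102E gF0q1 gF1q2 gF0q0 gF1q0 true true)) t 12 1370 5 = true :=
  ⟨(T.a (T.c (T.b (T.a (T.a (T.a (T.a (T.c (T.b (T.l 1) (T.c (T.b (T.l 1) (T.c (T.b (T.l 1) (T.l 460)) (T.b (T.l 1) (T.l 460)))) (T.b (T.l 1) (T.c (T.b (T.l 1) (T.l 460)) (T.b (T.l 1) (T.l 460)))))) (T.b (T.l 1) (T.c (T.b (T.l 1) (T.c (T.b (T.l 1) (T.l 460)) (T.b (T.l 1) (T.l 460)))) (T.b (T.l 1) (T.c (T.b (T.l 1) (T.l 460)) (T.b (T.l 1) (T.l 460))))))) (T.l 1)) (T.l 1)) (T.l 1)) (T.l 1)) (T.a (T.c (T.b (T.a (T.a (T.l 460) (T.a (T.l 460) (T.a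 (T.l 476) (T.c (T.b (T.a (T.l 476) (T.l 1)) (T.l 460)) (T.b (T.a (T.l 476) (T.l 1)) (T.l 460)))))) (T.c (T.b (T.l 1) (T.a (T.l 460) (T.c (T.b (T.l 1) (T.l 476)) (T.b (T.l 1) (T.l 476))))) (T.b (T.l 1) (T.a (T.l 460) (T.c (T.b (T.l 1) (T.l 476)) (T.b (T.l 1) (T.l 476))))))) (T.l 460)) (T.b (T.a (T.a (T.l 460) (T.a (T.l 460) (T.a (T.l 476) (T.c (T.b (T.a (T.l 476) (T.l 1)) (T.l 460)) (T.b (T.a (T.l 476) (T.l 1)) (T.l 460)))))) (T.c (T.b (T.l 1) (T.a (T.l 460) (T.c (T.b (T.l 1) (T.l 476)) (T.b (T.l 1) (T.l 476))))) (T.b (T.l 1) (T.a (T.l 460) (T.c (T.b (T.l 1) (T.l 476)) (T.b (T.l 1) (T.l 476))))))) (T.l 460))) (T.c (T.b (T.l 1) (T.a (T.c (T.b (T.a (T.a (T.l 460) (T.c (T.b (T.l 1) (T.l 460)) (T.b (T.l 1) (T.l 460)))) (T.l 1)) (T.l 460)) (T.b (T.a (T.a (T.l 460) (T.c (T.b (T.l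 1) (T.l 460)) (T.b (T.l 1) (T.l 460)))) (T.l 1)) (T.l 460))) (T.a (T.c (T.b (T.l 1) (T.c (T.b (T.l 1) (T.l 476)) (T.b (T.l 1) (T.l 476)))) (T.b (T.l 1) (T.c (T.b (T.l 1) (T.l 476)) (T.b (T.l 1) (T.l 476))))) (T.l 1)))) (T.b (T.l 1) (T.a (T.c (T.b (T.a (T.a (T.l 460) (T.c (T.b (T.l 1) (T.l 460)) (T.b (T.l 1) (T.l 460)))) (T.l 1)) (T.l 460)) (T.b (T.a (T.a (T.l 460) (T.c (T.b (T.l 1) (T.l 460)) (T.b (T.l 1) (T.l 460)))) (T.l 1)) (T.l 460))) (T.a (T.c (T.b (T.l 1) (T.c (T.b (T.l 1) (T.l 476)) (T.b (T.l 1) (T.l 476)))) (T.b (T.l 1) (T.c (T.b (T.l 1) (T.l 476)) (T.b (T.l 1) (T.l 476))))) (T.l 1))))))) (T.b (T.a (T.a (T.a (T.a (T.c (T.b (T.l 1) (T.c (T.b (T.l 1) (T.c (T.b (T.l 1) (T.l 460)) (T.b (T.l 1) (T.l 460)))) (T.b (T.l 1) (T.c (T.b (T.l 1) (T.l 460)) (T.b (T.l 1) (T.l 460))))))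 (T.b (T.l 1) (T.c (T.b (T.l 1) (T.c (T.b (T.l 1) (T.l 460)) (T.a (T.l 476) (T.l 476)))) (T.b (T.l 1) (T.l 476))))) (T.l 1)) (T.l 1)) (T.l 1)) (T.l 1)) (T.a (T.c (T.b (T.a (T.a (T.l 460) (T.a (T.l 460) (T.a (T.l 476) (T.c (T.b (T.a (T.l 476) (T.l 1)) (T.l 460)) (T.b (T.a (T.l 476) (T.l 1)) (T.l 460)))))) (T.c (T.b (T.l 1) (T.a (T.l 460) (T.c (T.b (T.l 1) (T.l 476)) (T.b (T.l 1) (T.l 476))))) (T.b (T.l 1) (T.a (T.l 460) (T.c (T.b (T.l 1) (T.l 476)) (T.b (T.l 1) (T.l 476))))))) (T.l 460)) (T.b (T.a (T.a (T.l 460) (T.a (T.l 460) (T.c (T.c (T.a (T.l 476) (T.c (T.a (T.l 476) (T.l 476)) (T.l 476))) (T.l 476)) (T.l 476)))) (T.c (T.b (T.l 1) (T.a (T.l 460) (T.c (T.b (T.l 1) (T.l 476)) (T.a (T.l 476) (T.l 1))))) (T.b (T.l 1) (T.a (T.l 460) (T.a (T.l 476) (T.l 1)))))) (T.l 460))) (T.c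 (T.b (T.l 1) (T.a (T.c (T.b (T.a (T.a (T.l 460) (T.c (T.b (T.l 1) (T.l 460)) (T.b (T.l 1) (T.l 460)))) (T.l 1)) (T.l 460)) (T.b (T.a (T.a (T.l 460) (T.c (T.b (T.l 1) (T.l 460)) (T.b (T.l 1) (T.l 460)))) (T.l 1)) (T.l 460))) (T.a (T.c (T.b (T.l 1) (T.c (T.b (T.l 1) (T.l 476)) (T.b (T.l 1) (T.l 476)))) (T.b (T.l 1) (T.c (T.b (T.l 1) (T.l 476)) (T.a (T.l 476) (T.l 1))))) (T.l 1)))) (T.b (T.l 1) (T.a (T.c (T.b (T.a (T.a (T.l 460) (T.l 476)) (T.l 1)) (T.l 460)) (T.b (T.a (T.a (T.l 460) (T.l 476)) (T.l 1)) (T.l 460))) (T.a (T.c (T.b (T.l 1) (T.a (T.l 476) (T.l 1))) (T.b (T.l 1) (T.a (T.l 476) (T.l 1)))) (T.l 1)))))))) (T.l 1)), by decide +kernel⟩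

def B102E_010_12_1371_5 :
    ∃ t, chk3 (onCell 0 33554432 0 1073741824 33554432 16777216 (corTK [] true 1 c0F cB102E gF0q1 gF1q2 gF0q0 gF1q0 true true)) t 12 1371 5 = true :=
  ⟨(T.a (T.a (T.l 460) (T.a (T.l 460) (T.a (T.l 460) (T.c (T.b (T.a (T.l 460) (T.c (T.b (T.a (T.l 476) (T.c (T.b (T.c (T.b (T.l 1) (T.l 460)) (T.b (T.l 1) (T.l 460))) (T.l 460)) (T.b (T.c (T.b (T.l 1) (T.l 460)) (T.b (T.l 1) (T.l 460))) (T.l 460)))) (T.l 460)) (T.b (T.a (T.l 476) (T.c (T.b (T.c (T.b (T.l 1) (T.l 460)) (T.b (T.l 1) (T.l 460))) (T.l 460)) (T.b (T.c (T.b (T.l 1) (T.l 460)) (T.b (T.l 1) (T.l 460))) (T.l 460)))) (T.l 460)))) (T.l 204)) (T.b (T.a (T.l 460) (T.c (T.b (T.a (T.l 476) (T.c (T.b (T.c (T.b (T.l 1) (T.l 460)) (T.b (T.l 1) (T.l 460))) (T.l 460)) (T.l 476))) (T.l 460)) (T.l 476)))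 (T.l 204)))))) (T.c (T.b (T.a (T.c (T.b (T.a (T.c (T.b (T.l 1) (T.a (T.l 460) (T.c (T.b (T.l 1) (T.l 476)) (T.b (T.l 1) (T.l 476))))) (T.b (T.l 1) (T.a (T.l 460) (T.c (T.b (T.l 1) (T.l 476)) (T.b (T.l 1) (T.l 476)))))) (T.l 1)) (T.a (T.l 460) (T.c (T.b (T.a (T.a (T.l 460) (T.c (T.b (T.l 1) (T.l 460)) (T.b (T.l 1) (T.l 460)))) (T.l 1)) (T.l 476)) (T.b (T.a (T.a (T.l 460) (T.c (T.b (T.l 1) (T.l 460)) (T.b (T.l 1) (T.l 460)))) (T.l 1)) (T.l 476))))) (T.b (T.a (T.c (T.b (T.l 1) (T.a (T.l 460) (T.c (T.b (T.l 1) (T.l 476)) (T.b (T.l 1) (T.l 476))))) (T.b (T.l 1) (T.a (T.l 460) (T.c (T.b (T.l 1) (T.l 476)) (T.b (T.l 1) (T.l 476)))))) (T.l 1)) (T.a (T.l 460) (T.c (T.b (T.a (T.a (T.l 460) (T.c (T.b (T.l 1) (T.l 460)) (T.a (T.l 476) (T.l 476)))) (T.l 1)) (T.l 476)) (T.b (T.a (T.a (T.l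 460) (T.l 476)) (T.l 1)) (T.l 460)))))) (T.a (T.a (T.a (T.c (T.b (T.l 1) (T.c (T.b (T.l 1) (T.c (T.l 476) (T.l 476))) (T.b (T.l 1) (T.l 476)))) (T.b (T.l 1) (T.c (T.b (T.l 1) (T.l 476)) (T.b (T.l 1) (T.l 476))))) (T.l 1)) (T.l 1)) (T.l 1))) (T.a (T.l 460) (T.c (T.b (T.a (T.a (T.l 460) (T.l 476)) (T.c (T.b (T.l 1) (T.a (T.l 476) (T.a (T.l 476) (T.l 1)))) (T.b (T.l 1) (T.a (T.l 476) (T.a (T.l 476) (T.l 1)))))) (T.l 460)) (T.b (T.a (T.a (T.l 460) (T.l 476)) (T.c (T.b (T.l 1) (T.a (T.l 476) (T.a (T.l 476) (T.l 1)))) (T.b (T.l 1) (T.a (T.l 476) (T.a (T.l 476) (T.l 1)))))) (T.l 460))))) (T.b (T.a (T.c (T.b (T.a (T.c (T.b (T.l 1) (T.a (T.l 460) (T.c (T.b (T.l 1) (T.l 476)) (T.a (T.l 476) (T.l 1))))) (T.b (T.l 1) (T.a (T.l 460) (T.a (T.l 476) (T.l 1))))) (T.l 1)) (T.a (T.l 460) (T.c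 (T.b (T.a (T.a (T.l 460) (T.l 476)) (T.l 1)) (T.l 460)) (T.a (T.l 476) (T.b (T.l 1) (T.l 460)))))) (T.b (T.a (T.c (T.b (T.l 1) (T.a (T.l 460) (T.a (T.l 476) (T.l 1)))) (T.b (T.l 1) (T.a (T.l 460) (T.a (T.l 476) (T.l 1))))) (T.l 1)) (T.a (T.l 460) (T.a (T.l 476) (T.c (T.b (T.l 1) (T.l 460)) (T.b (T.l 1) (T.l 460))))))) (T.a (T.a (T.a (T.c (T.b (T.l 1) (T.c (T.b (T.l 1) (T.l 476)) (T.b (T.l 1) (T.l 476)))) (T.b (T.l 1) (T.c (T.b (T.l 1) (T.l 476)) (T.b (T.l 1) (T.l 476))))) (T.l 1)) (T.l 1)) (T.l 1))) (T.a (T.l 460) (T.c (T.b (T.a (T.a (T.l 460) (T.l 476)) (T.c (T.b (T.l 1) (T.a (T.l 476) (T.a (T.l 476) (T.l 1)))) (T.b (T.l 1) (T.a (T.l 460) (T.a (T.l 476) (T.l 1)))))) (T.l 460)) (T.b (T.a (T.a (T.l 460) (T.l 476)) (T.c (T.b (T.l 1) (T.a (T.l 460) (T.a (T.l 476) (T.l 1)))) (T.b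 (T.l 1) (T.a (T.l 460) (T.a (T.l 476) (T.l 1)))))) (T.l 460))))))), by decide +kernel⟩

end Pool.Agent.Strip051.G.I1_32_3_64.Tab.CF
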