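import Pool.Agent.Strip051.G.I1_32_3_64.Gn
import Pool.Agent.Strip051.PB.Corns
import Pool.Agent.Strip051.PB.CornK

/-! # Certificates of the aligned corners (generated) -/

set_option linter.all false

namespace Pool.Agent.Strip051.G.I1_32_3_64.Tab.CF

open Pool.Agent.Strip051.PB

def B102E_010_14_687_3 :
    ∃ t, chk3 (onCell 0 33554432 0 1073741824 33554432 16777216 (corTK [] true 1 c0F cB102E gF0q1 gF1q2 gF0q0 gF1q0 true true)) t 14 687 3 = true :=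
  ⟨(T.a (T.l 460) (T.c (T.b (T.c (T.b (T.a (T.a (T.l 460) (T.a (T.l 476) (T.a (T.l 476) (T.c (T.c (T.l 476) (T.b (T.c (T.l 476) (T.a (T.l 476) (T.b (T.a (T.l 476) (T.l 1)) (T.l 476)))) (T.l 460))) (T.b (T.a (T.l 476) (T.c (T.b (T.a (T.l 476) (T.l 1)) (T.l 476)) (T.b (T.a (T.l 476) (T.l 1)) (T.l 476)))) (T.l 460)))))) (T.c (T.b (T.a (T.c (T.b (T.l 1) (T.a (T.l 476) (T.a (T.l 476) (T.l 1)))) (T.b (T.l 1) (T.a (T.l 476) (T.c (T.a (T.l 476) (T.l 1)) (T.b (T.l 1) (T.l 476)))))) (T.l 1)) (T.a (T.l 476) (T.a (T.l 476) (T.c (T.b (T.l 1) (T.l 476)) (T.b (T.l 1) (T.l 476)))))) (T.b (T.a (T.c (T.b (T.l 1) (T.a (T.l 476) (T.c (T.b (T.l 1) (T.l 476)) (T.b (T.l 1) (T.l 476))))) (T.b (T.l 1) (T.a (T.l 476) (T.c (T.b (T.l 1) (T.l 476)) (T.b (T.l 1) (T.l 476)))))) (T.l 1)) (T.a (T.l 476) (T.c (T.b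 (T.a (T.a (T.l 476) (T.c (T.l 476) (T.b (T.l 1) (T.l 476)))) (T.l 1)) (T.l 476)) (T.b (T.a (T.a (T.l 476) (T.c (T.b (T.l 1) (T.l 476)) (T.b (T.l 1) (T.l 476)))) (T.l 1)) (T.l 476))))))) (T.l 476)) (T.b (T.a (T.a (T.l 460) (T.a (T.l 476) (T.a (T.l 476) (T.c (T.b (T.a (T.l 476) (T.c (T.b (T.a (T.l 476) (T.l 1)) (T.l 476)) (T.b (T.a (T.l 476) (T.l 1)) (T.l 476)))) (T.l 460)) (T.b (T.a (T.l 476) (T.c (T.b (T.c (T.a (T.l 476) (T.l 1)) (T.b (T.l 1) (T.l 476))) (T.l 476)) (T.b (T.c (T.b (T.l 1) (T.l 476)) (T.b (T.l 1) (T.l 476))) (T.l 476)))) (T.l 460)))))) (T.c (T.b (T.a (T.c (T.b (T.l 1) (T.a (T.l 476) (T.c (T.b (T.l 1) (T.l 476)) (T.b (T.l 1) (T.l 476))))) (T.b (T.l 1) (T.a (T.l 476) (T.c (T.b (T.l 1) (T.l 476)) (T.b (T.l 1) (T.l 476)))))) (T.l 1)) (T.a (T.l 476) (T.c (T.b (T.a (T.a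 (T.l 476) (T.c (T.b (T.l 1) (T.l 476)) (T.b (T.l 1) (T.l 476)))) (T.l 1)) (T.l 476)) (T.b (T.a (T.a (T.l 476) (T.c (T.b (T.l 1) (T.l 476)) (T.b (T.l 1) (T.l 476)))) (T.l 1)) (T.l 476))))) (T.b (T.a (T.c (T.b (T.l 1) (T.a (T.l 476) (T.c (T.b (T.l 1) (T.l 476)) (T.b (T.l 1) (T.l 476))))) (T.b (T.l 1) (T.a (T.l 476) (T.c (T.b (T.l 1) (T.l 476)) (T.b (T.l 1) (T.l 476)))))) (T.l 1)) (T.a (T.l 476) (T.c (T.b (T.a (T.a (T.l 476) (T.c (T.b (T.l 1) (T.l 476)) (T.b (T.l 1) (T.l 476)))) (T.l 1)) (T.l 476)) (T.b (T.a (T.a (T.l 476) (T.c (T.b (T.l 1) (T.l 476)) (T.b (T.l 1) (T.l 476)))) (T.l 1)) (T.l 476))))))) (T.l 476))) (T.l 460)) (T.b (T.c (T.b (T.a (T.a (T.l 460) (T.a (T.l 476) (T.a (T.l 476) (T.c (T.b (T.a (T.l 476) (T.c (T.b (T.c (T.b (T.l 1) (T.l 476)) (T.b (T.l 1) (T.l 476))) (T.l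 476)) (T.b (T.c (T.b (T.l 1) (T.l 476)) (T.b (T.l 1) (T.l 476))) (T.l 476)))) (T.l 460)) (T.b (T.a (T.l 476) (T.c (T.b (T.c (T.b (T.l 1) (T.l 476)) (T.b (T.l 1) (T.l 476))) (T.l 476)) (T.b (T.c (T.b (T.l 1) (T.l 476)) (T.b (T.l 1) (T.l 476))) (T.l 476)))) (T.l 460)))))) (T.c (T.b (T.a (T.c (T.b (T.l 1) (T.a (T.l 476) (T.c (T.b (T.l 1) (T.l 476)) (T.b (T.l 1) (T.l 476))))) (T.b (T.l 1) (T.a (T.l 476) (T.c (T.b (T.l 1) (T.l 476)) (T.b (T.l 1) (T.l 476)))))) (T.l 1)) (T.a (T.l 476) (T.c (T.b (T.a (T.a (T.l 476) (T.c (T.b (T.l 1) (T.l 476)) (T.b (T.l 1) (T.l 476)))) (T.l 1)) (T.l 476)) (T.b (T.a (T.c (T.a (T.l 476) (T.b (T.l 1) (T.l 476))) (T.b (T.a (T.l 476) (T.l 1)) (T.l 476))) (T.l 1)) (T.l 476))))) (T.b (T.a (T.c (T.b (T.l 1) (T.a (T.l 476) (T.c (T.b (T.l 1) (T.l 476)) (T.b (T.l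 1) (T.l 476))))) (T.b (T.l 1) (T.a (T.l 476) (T.c (T.b (T.l 1) (T.l 476)) (T.b (T.l 1) (T.a (T.l 476) (T.l 1))))))) (T.l 1)) (T.a (T.l 476) (T.c (T.b (T.a (T.c (T.b (T.a (T.l 476) (T.l 1)) (T.l 476)) (T.b (T.a (T.l 476) (T.l 1)) (T.l 476))) (T.l 1)) (T.l 476)) (T.b (T.a (T.c (T.b (T.a (T.l 476) (T.l 1)) (T.l 476)) (T.b (T.a (T.l 476) (T.l 1)) (T.l 476))) (T.l 1)) (T.l 476))))))) (T.l 476)) (T.b (T.a (T.a (T.l 460) (T.a (T.l 476) (T.a (T.l 476) (T.c (T.b (T.c (T.b (T.c (T.b (T.l 1) (T.l 476)) (T.b (T.l 1) (T.l 476))) (T.l 476)) (T.b (T.c (T.b (T.l 1) (T.l 476)) (T.b (T.l 1) (T.l 476))) (T.l 476))) (T.l 460)) (T.b (T.c (T.b (T.c (T.b (T.l 1) (T.l 476)) (T.b (T.l 1) (T.l 476))) (T.l 476)) (T.b (T.c (T.b (T.l 1) (T.l 476)) (T.b (T.l 1) (T.l 476))) (T.l 476))) (T.l 460)))))) (T.c (T.b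 (T.a (T.c (T.b (T.l 1) (T.a (T.l 476) (T.c (T.b (T.l 1) (T.a (T.l 476) (T.l 1))) (T.b (T.l 1) (T.a (T.l 476) (T.l 1)))))) (T.b (T.l 1) (T.a (T.l 476) (T.c (T.b (T.l 1) (T.a (T.l 476) (T.l 1))) (T.b (T.l 1) (T.a (T.l 476) (T.l 1))))))) (T.l 1)) (T.a (T.l 476) (T.c (T.b (T.a (T.c (T.b (T.a (T.l 476) (T.l 1)) (T.l 476)) (T.b (T.a (T.l 476) (T.l 1)) (T.l 476))) (T.l 1)) (T.l 476)) (T.b (T.a (T.c (T.b (T.a (T.l 476) (T.l 1)) (T.l 476)) (T.b (T.a (T.l 476) (T.l 1)) (T.l 476))) (T.l 1)) (T.l 476))))) (T.b (T.a (T.c (T.b (T.l 1) (T.a (T.l 476) (T.c (T.b (T.l 1) (T.a (T.l 476) (T.l 1))) (T.b (T.l 1) (T.a (T.l 476) (T.l 1)))))) (T.b (T.l 1) (T.a (T.l 476) (T.c (T.b (T.l 1) (T.a (T.l 476) (T.l 1))) (T.b (T.l 1) (T.a (T.l 476) (T.l 1))))))) (T.l 1)) (T.a (T.l 476) (T.c (T.b (T.a (T.c (T.b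 (T.a (T.l 476) (T.l 1)) (T.l 476)) (T.b (T.a (T.l 476) (T.l 1)) (T.l 476))) (T.l 1)) (T.l 476)) (T.b (T.a (T.c (T.b (T.a (T.l 476) (T.l 1)) (T.l 476)) (T.b (T.a (T.l 476) (T.l 1)) (T.l 476))) (T.l 1)) (T.l 476))))))) (T.l 476))) (T.l 460)))), by decide +kernel⟩

def B102E_010_15_687_6 :
    ∃ t, chk3 (onCell 0 33554432 0 1073741824 33554432 16777216 (corTK [] true 1 c0F cB102E gF0q1 gF1q2 gF0q0 gF1q0 true true)) t 15 687 6 = true :=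
  ⟨(T.b (T.a (T.c (T.b (T.a (T.a (T.a (T.a (T.c (T.b (T.l 1) (T.c (T.b (T.l 1) (T.l 476)) (T.b (T.l 1) (T.l 476)))) (T.b (T.l 1) (T.c (T.b (T.l 1) (T.l 476)) (T.b (T.l 1) (T.c (T.l 476) (T.b (T.l 1) (T.l 476))))))) (T.l 1)) (T.l 1)) (T.l 1)) (T.l 1)) (T.a (T.c (T.a (T.l 476) (T.b (T.c (T.b (T.l 1) (T.a (T.l 476) (T.a (T.l 476) (T.l 1)))) (T.b (T.l 1) (T.a (T.l 476) (T.a (T.l 476) (T.l 1))))) (T.l 476))) (T.b (T.a (T.a (T.l 476) (T.l 476)) (T.c (T.b (T.l 1) (T.a (T.l 476) (T.a (T.l 476) (T.l 1)))) (T.b (T.l 1) (T.a (T.l 476) (T.a (T.l 476) (T.l 1)))))) (T.l 476))) (T.c (T.b (T.l 1) (T.a (T.a (T.l 476) (T.c (T.b (T.l 1) (T.l 476)) (T.b (T.l 1) (T.l 476)))) (T.a (T.c (T.b (T.l 1) (T.a (T.l 476) (T.l 1))) (T.b (T.l 1) (T.a (T.l 476) (T.l 1)))) (T.l 1)))) (T.b (T.l 1) (T.a (T.a (T.l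 476) (T.c (T.b (T.l 1) (T.l 476)) (T.b (T.l 1) (T.l 476)))) (T.a (T.c (T.b (T.l 1) (T.a (T.l 476) (T.l 1))) (T.b (T.l 1) (T.a (T.l 476) (T.l 1)))) (T.l 1))))))) (T.b (T.a (T.a (T.a (T.a (T.c (T.b (T.l 1) (T.c (T.b (T.l 1) (T.c (T.b (T.l 1) (T.l 476)) (T.b (T.l 1) (T.l 476)))) (T.b (T.l 1) (T.c (T.b (T.l 1) (T.l 476)) (T.b (T.l 1) (T.l 476)))))) (T.b (T.l 1) (T.c (T.b (T.l 1) (T.c (T.b (T.l 1) (T.l 476)) (T.b (T.l 1) (T.l 476)))) (T.b (T.l 1) (T.c (T.b (T.l 1) (T.l 476)) (T.b (T.l 1) (T.l 476))))))) (T.l 1)) (T.l 1)) (T.l 1)) (T.l 1)) (T.a (T.c (T.b (T.a (T.a (T.l 476) (T.a (T.l 476) (T.a (T.l 476) (T.c (T.c (T.l 476) (T.b (T.a (T.l 476) (T.l 1)) (T.l 476))) (T.b (T.a (T.l 476) (T.l 1)) (T.l 476)))))) (T.c (T.b (T.l 1) (T.a (T.l 476) (T.a (T.l 476) (T.l 1)))) (T.b (T.l 1) (T.a (T.l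 476) (T.a (T.l 476) (T.l 1)))))) (T.l 476)) (T.b (T.a (T.a (T.l 476) (T.a (T.l 476) (T.a (T.l 476) (T.c (T.b (T.a (T.l 476) (T.l 1)) (T.l 476)) (T.b (T.a (T.l 476) (T.l 1)) (T.l 476)))))) (T.c (T.b (T.l 1) (T.a (T.l 476) (T.c (T.b (T.l 1) (T.l 476)) (T.b (T.l 1) (T.l 476))))) (T.b (T.l 1) (T.a (T.l 476) (T.c (T.b (T.l 1) (T.l 476)) (T.b (T.l 1) (T.l 476))))))) (T.l 476))) (T.c (T.b (T.l 1) (T.a (T.a (T.l 476) (T.c (T.b (T.l 1) (T.l 476)) (T.b (T.l 1) (T.l 476)))) (T.a (T.a (T.c (T.b (T.l 1) (T.l 476)) (T.b (T.l 1) (T.l 476))) (T.l 1)) (T.l 1)))) (T.b (T.l 1) (T.a (T.c (T.a (T.l 476) (T.b (T.l 1) (T.l 476))) (T.b (T.a (T.c (T.a (T.l 476) (T.l 476)) (T.b (T.l 1) (T.l 476))) (T.l 1)) (T.l 476))) (T.a (T.a (T.c (T.b (T.l 1) (T.l 476)) (T.b (T.l 1) (T.l 476))) (T.l 1)) (T.l 1))))))))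 (T.l 1)) (T.a (T.a (T.l 460) (T.c (T.l 476) (T.a (T.l 476) (T.l 476)))) (T.c (T.b (T.a (T.c (T.b (T.a (T.c (T.b (T.l 1) (T.a (T.l 476) (T.a (T.l 476) (T.l 1)))) (T.b (T.l 1) (T.a (T.l 476) (T.a (T.l 476) (T.l 1))))) (T.l 1)) (T.a (T.l 476) (T.a (T.l 476) (T.c (T.b (T.l 1) (T.l 476)) (T.b (T.l 1) (T.l 476)))))) (T.b (T.a (T.c (T.b (T.l 1) (T.a (T.l 476) (T.a (T.l 476) (T.l 1)))) (T.b (T.l 1) (T.a (T.l 476) (T.a (T.l 476) (T.l 1))))) (T.l 1)) (T.a (T.l 476) (T.a (T.l 476) (T.c (T.b (T.l 1) (T.l 476)) (T.b (T.l 1) (T.l 476))))))) (T.a (T.a (T.a (T.c (T.b (T.l 1) (T.c (T.b (T.l 1) (T.l 476)) (T.b (T.l 1) (T.l 476)))) (T.b (T.l 1) (T.c (T.b (T.l 1) (T.l 476)) (T.b (T.l 1) (T.l 476))))) (T.l 1)) (T.l 1)) (T.l 1))) (T.a (T.l 476) (T.a (T.l 476) (T.c (T.b (T.c (T.b (T.l 1) (T.l 476)) (T.b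 (T.l 1) (T.l 476))) (T.l 476)) (T.b (T.c (T.b (T.l 1) (T.l 476)) (T.b (T.l 1) (T.l 476))) (T.l 476)))))) (T.b (T.a (T.c (T.b (T.a (T.c (T.b (T.l 1) (T.a (T.l 476) (T.a (T.l 476) (T.l 1)))) (T.b (T.l 1) (T.a (T.l 476) (T.a (T.l 476) (T.l 1))))) (T.l 1)) (T.a (T.l 476) (T.a (T.l 476) (T.c (T.b (T.l 1) (T.l 476)) (T.b (T.l 1) (T.l 476)))))) (T.b (T.a (T.c (T.b (T.l 1) (T.a (T.l 476) (T.a (T.l 476) (T.l 1)))) (T.b (T.l 1) (T.a (T.l 476) (T.a (T.l 476) (T.l 1))))) (T.l 1)) (T.a (T.l 476) (T.a (T.l 476) (T.c (T.b (T.l 1) (T.l 476)) (T.b (T.l 1) (T.l 476))))))) (T.a (T.a (T.a (T.c (T.b (T.l 1) (T.c (T.b (T.l 1) (T.l 476)) (T.b (T.l 1) (T.l 476)))) (T.b (T.l 1) (T.c (T.b (T.l 1) (T.l 476)) (T.b (T.l 1) (T.l 476))))) (T.l 1)) (T.l 1)) (T.l 1))) (T.a (T.l 476) (T.a (T.l 476) (T.c (T.b (T.c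 (T.b (T.l 1) (T.l 476)) (T.b (T.l 1) (T.l 476))) (T.l 476)) (T.b (T.c (T.b (T.l 1) (T.l 476)) (T.b (T.l 1) (T.l 476))) (T.l 476))))))))), by decide +kernel⟩

def B102E_010_15_687_7 :
    ∃ t, chk3 (onCell 0 33554432 0 1073741824 33554432 16777216 (corTK [] true 1 c0F cB102E gF0q1 gF1q2 gF0q0 gF1q0 true true)) t 15 687 7 = true :=
  ⟨(T.b (T.a (T.c (T.b (T.a (T.a (T.a (T.a (T.c (T.b (T.l 1) (T.c (T.b (T.l 1) (T.c (T.b (T.l 1) (T.l 476)) (T.b (T.l 1) (T.l 476)))) (T.b (T.l 1) (T.c (T.b (T.l 1) (T.l 476)) (T.b (T.l 1) (T.l 476)))))) (T.b (T.l 1) (T.c (T.b (T.l 1) (T.c (T.b (T.l 1) (T.l 476)) (T.b (T.l 1) (T.l 476)))) (T.b (T.l 1) (T.c (T.b (T.l 1) (T.l 476)) (T.b (T.l 1) (T.l 476))))))) (T.l 1)) (T.l 1)) (T.l 1)) (T.l 1)) (T.a (T.c (T.b (T.a (T.a (T.l 476) (T.a (T.l 476) (T.a (T.l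 476) (T.c (T.b (T.a (T.l 476) (T.l 1)) (T.l 476)) (T.b (T.c (T.b (T.l 1) (T.l 476)) (T.b (T.l 1) (T.l 476))) (T.l 476)))))) (T.c (T.b (T.l 1) (T.a (T.l 476) (T.c (T.b (T.l 1) (T.l 476)) (T.b (T.l 1) (T.l 476))))) (T.b (T.l 1) (T.a (T.l 476) (T.c (T.b (T.l 1) (T.l 476)) (T.b (T.l 1) (T.l 476))))))) (T.l 476)) (T.b (T.a (T.a (T.l 476) (T.a (T.l 476) (T.a (T.l 476) (T.c (T.b (T.c (T.b (T.l 1) (T.l 476)) (T.b (T.l 1) (T.l 476))) (T.l 476)) (T.b (T.c (T.b (T.l 1) (T.l 476)) (T.b (T.l 1) (T.l 476))) (T.l 476)))))) (T.c (T.b (T.l 1) (T.a (T.l 476) (T.c (T.b (T.l 1) (T.l 476)) (T.b (T.l 1) (T.l 476))))) (T.b (T.l 1) (T.a (T.l 476) (T.c (T.b (T.l 1) (T.l 476)) (T.b (T.l 1) (T.l 476))))))) (T.l 476))) (T.c (T.b (T.l 1) (T.a (T.c (T.b (T.a (T.c (T.b (T.l 1) (T.l 476)) (T.b (T.l 1) (T.l 476)))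 (T.l 1)) (T.l 476)) (T.b (T.a (T.c (T.b (T.l 1) (T.l 476)) (T.b (T.l 1) (T.l 476))) (T.l 1)) (T.l 476))) (T.a (T.a (T.c (T.b (T.l 1) (T.l 476)) (T.b (T.l 1) (T.a (T.l 476) (T.l 1)))) (T.l 1)) (T.l 1)))) (T.b (T.l 1) (T.a (T.c (T.b (T.a (T.c (T.b (T.l 1) (T.l 476)) (T.b (T.l 1) (T.l 476))) (T.l 1)) (T.l 476)) (T.b (T.a (T.c (T.b (T.l 1) (T.l 476)) (T.b (T.l 1) (T.l 476))) (T.l 1)) (T.l 476))) (T.a (T.a (T.c (T.b (T.l 1) (T.a (T.l 476) (T.l 1))) (T.b (T.l 1) (T.a (T.l 476) (T.l 1)))) (T.l 1)) (T.l 1))))))) (T.b (T.a (T.a (T.a (T.a (T.c (T.b (T.l 1) (T.c (T.b (T.l 1) (T.c (T.b (T.l 1) (T.l 476)) (T.b (T.l 1) (T.l 476)))) (T.b (T.l 1) (T.c (T.b (T.l 1) (T.l 476)) (T.b (T.l 1) (T.l 476)))))) (T.b (T.l 1) (T.c (T.b (T.l 1) (T.c (T.b (T.l 1) (T.l 476)) (T.b (T.l 1) (T.l 476)))) (T.b (T.l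 1) (T.c (T.b (T.l 1) (T.l 476)) (T.b (T.l 1) (T.l 476))))))) (T.l 1)) (T.l 1)) (T.l 1)) (T.l 1)) (T.a (T.c (T.b (T.a (T.a (T.l 476) (T.a (T.l 476) (T.c (T.a (T.l 476) (T.b (T.c (T.b (T.l 1) (T.l 476)) (T.b (T.l 1) (T.l 476))) (T.l 476))) (T.b (T.c (T.b (T.l 1) (T.l 476)) (T.b (T.l 1) (T.l 476))) (T.l 476))))) (T.c (T.b (T.l 1) (T.a (T.l 476) (T.c (T.b (T.l 1) (T.l 476)) (T.b (T.l 1) (T.l 476))))) (T.b (T.l 1) (T.a (T.l 476) (T.c (T.b (T.l 1) (T.l 476)) (T.b (T.l 1) (T.l 476))))))) (T.l 476)) (T.b (T.a (T.a (T.l 476) (T.a (T.l 476) (T.c (T.b (T.c (T.b (T.l 1) (T.l 476)) (T.b (T.l 1) (T.l 476))) (T.l 476)) (T.b (T.c (T.b (T.l 1) (T.l 476)) (T.b (T.l 1) (T.l 476))) (T.l 476))))) (T.c (T.b (T.l 1) (T.a (T.l 476) (T.c (T.b (T.l 1) (T.l 476)) (T.b (T.l 1) (T.a (T.l 476) (T.l 1))))))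 (T.b (T.l 1) (T.a (T.l 476) (T.c (T.b (T.l 1) (T.a (T.l 476) (T.l 1))) (T.b (T.l 1) (T.a (T.l 476) (T.l 1)))))))) (T.l 476))) (T.c (T.b (T.l 1) (T.a (T.c (T.b (T.a (T.c (T.b (T.l 1) (T.l 476)) (T.b (T.l 1) (T.l 476))) (T.l 1)) (T.l 476)) (T.b (T.a (T.c (T.b (T.l 1) (T.l 476)) (T.b (T.l 1) (T.l 476))) (T.l 1)) (T.l 476))) (T.a (T.a (T.c (T.b (T.l 1) (T.a (T.l 476) (T.l 1))) (T.b (T.l 1) (T.a (T.l 476) (T.l 1)))) (T.l 1)) (T.l 1)))) (T.b (T.l 1) (T.a (T.c (T.b (T.a (T.c (T.b (T.l 1) (T.l 476)) (T.b (T.l 1) (T.l 476))) (T.l 1)) (T.l 476)) (T.b (T.a (T.c (T.b (T.l 1) (T.l 476)) (T.b (T.l 1) (T.l 476))) (T.l 1)) (T.l 476))) (T.a (T.a (T.c (T.b (T.l 1) (T.a (T.l 476) (T.l 1))) (T.b (T.l 1) (T.a (T.l 476) (T.l 1)))) (T.l 1)) (T.l 1)))))))) (T.l 1)) (T.a (T.a (T.l 460) (T.a (T.l 476) (T.a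 (T.l 476) (T.c (T.c (T.l 476) (T.b (T.a (T.l 476) (T.c (T.l 476) (T.b (T.a (T.l 476) (T.b (T.l 1) (T.l 476))) (T.l 460)))) (T.l 460))) (T.b (T.a (T.l 476) (T.c (T.b (T.a (T.l 476) (T.c (T.b (T.l 1) (T.l 476)) (T.b (T.l 1) (T.l 476)))) (T.l 460)) (T.b (T.a (T.l 476) (T.c (T.b (T.l 1) (T.l 476)) (T.b (T.l 1) (T.l 476)))) (T.l 460)))) (T.l 460)))))) (T.c (T.b (T.a (T.c (T.b (T.a (T.c (T.b (T.l 1) (T.a (T.l 476) (T.a (T.l 476) (T.l 1)))) (T.b (T.l 1) (T.a (T.l 476) (T.a (T.l 476) (T.l 1))))) (T.l 1)) (T.a (T.l 476) (T.a (T.l 476) (T.c (T.b (T.l 1) (T.l 476)) (T.b (T.l 1) (T.l 476)))))) (T.b (T.a (T.c (T.b (T.l 1) (T.a (T.l 476) (T.a (T.l 476) (T.l 1)))) (T.b (T.l 1) (T.a (T.l 476) (T.a (T.l 476) (T.l 1))))) (T.l 1)) (T.a (T.l 476) (T.a (T.l 476) (T.c (T.b (T.l 1) (T.l 476)) (T.b (T.l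 1) (T.l 476))))))) (T.a (T.a (T.a (T.c (T.b (T.l 1) (T.c (T.b (T.l 1) (T.l 476)) (T.b (T.l 1) (T.l 476)))) (T.b (T.l 1) (T.c (T.b (T.l 1) (T.l 476)) (T.b (T.l 1) (T.l 476))))) (T.l 1)) (T.l 1)) (T.l 1))) (T.a (T.l 476) (T.a (T.l 476) (T.c (T.b (T.c (T.b (T.l 1) (T.l 476)) (T.b (T.l 1) (T.a (T.l 476) (T.l 1)))) (T.l 476)) (T.b (T.c (T.b (T.l 1) (T.a (T.l 476) (T.l 1))) (T.b (T.l 1) (T.a (T.l 476) (T.l 1)))) (T.l 476)))))) (T.b (T.a (T.c (T.b (T.a (T.c (T.b (T.l 1) (T.a (T.l 476) (T.a (T.l 476) (T.l 1)))) (T.b (T.l 1) (T.a (T.l 476) (T.c (T.b (T.l 1) (T.l 476)) (T.b (T.l 1) (T.l 476)))))) (T.l 1)) (T.a (T.l 476) (T.a (T.l 476) (T.c (T.b (T.l 1) (T.l 476)) (T.b (T.l 1) (T.l 476)))))) (T.b (T.a (T.c (T.b (T.l 1) (T.a (T.l 476) (T.c (T.b (T.l 1) (T.l 476)) (T.b (T.l 1) (T.l 476)))))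 (T.b (T.l 1) (T.a (T.l 476) (T.c (T.b (T.l 1) (T.l 476)) (T.b (T.l 1) (T.l 476)))))) (T.l 1)) (T.a (T.l 476) (T.c (T.b (T.a (T.a (T.l 476) (T.l 476)) (T.l 1)) (T.l 476)) (T.b (T.a (T.c (T.b (T.l 1) (T.l 476)) (T.b (T.l 1) (T.l 476))) (T.l 1)) (T.l 476)))))) (T.a (T.a (T.a (T.c (T.b (T.l 1) (T.c (T.b (T.l 1) (T.l 476)) (T.b (T.l 1) (T.l 476)))) (T.b (T.l 1) (T.c (T.b (T.l 1) (T.l 476)) (T.b (T.l 1) (T.l 476))))) (T.l 1)) (T.l 1)) (T.l 1))) (T.a (T.l 476) (T.a (T.l 476) (T.c (T.b (T.c (T.b (T.l 1) (T.a (T.l 476) (T.l 1))) (T.b (T.l 1) (T.a (T.l 476) (T.l 1)))) (T.l 476)) (T.b (T.c (T.b (T.l 1) (T.a (T.l 476) (T.l 1))) (T.b (T.l 1) (T.a (T.l 476) (T.l 1)))) (T.l 476))))))))), by decide +kernel⟩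

def B102E_010_1_43_1 :
    ∃ t, chk3 (onCell 0 33554432 0 1073741824 33554432 16777216 (corTK [] true 1 c0F cB102E gF0q1 gF1q2 gF0q0 gF1q0 true true)) t 1 43 1 = true :=
  ⟨(T.a (T.a (T.l 0) (T.a (T.l 0) (T.l 0))) (T.a (T.a (T.l 0) (T.l 0)) (T.b (T.a (T.l 460) (T.a (T.l 460) (T.b (T.l 476) (T.l 204)))) (T.l 0)))), by decide +kernel⟩

def B102E_010_1_11_1 :
    ∃ t, chk3 (onCell 0 33554432 0 1073741824 33554432 16777216 (corTK [] true 1 c0F cB102E gF0q1 gF1q2 gF0q0 gF1q0 true true)) t 1 11 1 = true :=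
  ⟨(T.a (T.a (T.l 0) (T.b (T.l 0) (T.l 0))) (T.a (T.l 0) (T.l 0))), by decide +kernel⟩

def B102E_010_1_3_1 :
    ∃ t, chk3 (onCell 0 33554432 0 1073741824 33554432 16777216 (corTK [] true 1 c0F cB102E gF0q1 gF1q2 gF0q0 gF1q0 true true)) t 1 3 1 = true :=
  ⟨(T.b (T.b (T.a (T.a (T.l 816) (T.l 0)) (T.l 0)) (T.b (T.a (T.a (T.l 816) (T.l 816)) (T.l 0)) (T.l 2))) (T.l 2)), by decide +kernel⟩

end Pool.Agent.Strip051.G.I1_32_3_64.Tab.CF
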