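import Pool.Agent.Strip051.G.I1_32_3_64.Gn
import Pool.Agent.Strip051.PB.Corns
import Pool.Agent.Strip051.PB.CornK
import Pool.Agent.Strip051.G.I1_32_3_64.CFB_0
import Pool.Agent.Strip051.G.I1_32_3_64.CFB_1
import Pool.Agent.Strip051.G.I1_32_3_64.CFB_2
import Pool.Agent.Strip051.G.I1_32_3_64.CFB_3

/-! # Certificates of the aligned corners (generated) -/

set_option linter.all false

namespace Pool.Agent.Strip051.G.I1_32_3_64.Tab.CF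

open Pool.Agent.Strip051.PB

def B101L_200_1_2_1 :
    ∃ t, chk3 (onCell 0 33554432 0 1073741824 33554432 16777216 (corTK [[⟨0, 1, 2, 25165824⟩, ⟨1, 0, 1, 25165824⟩, ⟨2, 1, 0, 7864320⟩, ⟨0, 0, 0, 1056964608⟩, ⟨0, 1, 0, 67108864⟩, ⟨1, 0, 0, 67108864⟩, ⟨1, 1, 0, 1056964608⟩]] true 1 c0F cB101L gF2q1 gF0q1 gF0q0 gF1q0 true true)) t 1 2 1 = true :=
  ⟨(T.l 1), by decide +kernel⟩

def B101L_200_1_6_1 :
    ∃ t, chk3 (onCell 0 33554432 0 1073741824 33554432 16777216 (corTK [[⟨0, 1, 2, 25165824⟩, ⟨1, 0, 1, 25165824⟩, ⟨2, 1, 0, 7864320⟩, ⟨0, 0, 0, 1056964608⟩, ⟨0, 1, 0, 67108864⟩, ⟨1, 0, 0, 67108864⟩, ⟨1, 1, 0, 1056964608⟩]] true 1 c0F cB101L gF2q1 gF0q1 gF0q0 gF1q0 true true)) t 1 6 1 = true :=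
  ⟨(T.l 1), by decide +kernel⟩

def B101L_200_1_14_1 :
    ∃ t, chk3 (onCell 0 33554432 0 1073741824 33554432 16777216 (corTK [[⟨0, 1, 2, 25165824⟩, ⟨1, 0, 1, 25165824⟩, ⟨2, 1, 0, 7864320⟩, ⟨0, 0, 0, 1056964608⟩, ⟨0, 1, 0, 67108864⟩, ⟨1, 0, 0, 67108864⟩, ⟨1, 1, 0, 1056964608⟩]] true 1 c0F cB101L gF2q1 gF0q1 gF0q0 gF1q0 true true)) t 1 14 1 = true :=
  ⟨(T.l 1), by decide +kernel⟩

def B101L_200_1_30_1 :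
    ∃ t, chk3 (onCell 0 33554432 0 1073741824 33554432 16777216 (corTK [[⟨0, 1, 2, 25165824⟩, ⟨1, 0, 1, 25165824⟩, ⟨2, 1, 0, 7864320⟩, ⟨0, 0, 0, 1056964608⟩, ⟨0, 1, 0, 67108864⟩, ⟨1, 0, 0, 67108864⟩, ⟨1, 1, 0, 1056964608⟩]] true 1 c0F cB101L gF2q1 gF0q1 gF0q0 gF1q0 true true)) t 1 30 1 = true :=
  ⟨(T.l 1), by decide +kernel⟩

def B101L_200_1_62_1 :
    ∃ t, chk3 (onCell 0 33554432 0 1073741824 33554432 16777216 (corTK [[⟨0, 1, 2, 25165824⟩, ⟨1, 0, 1, 25165824⟩, ⟨2, 1, 0, 7864320⟩, ⟨0, 0, 0, 1056964608⟩, ⟨0, 1, 0, 67108864⟩, ⟨1, 0, 0, 67108864⟩, ⟨1, 1, 0, 1056964608⟩]] true 1 c0F cB101L gF2q1 gF0q1 gF0q0 gF1q0 true true)) t 1 62 1 = true :=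
  ⟨(T.l 1), by decide +kernel⟩

def B101L_200_1_126_1 :
    ∃ t, chk3 (onCell 0 33554432 0 1073741824 33554432 16777216 (corTK [[⟨0, 1, 2, 25165824⟩, ⟨1, 0, 1, 25165824⟩, ⟨2, 1, 0, 7864320⟩, ⟨0, 0, 0, 1056964608⟩, ⟨0, 1, 0, 67108864⟩, ⟨1, 0, 0, 67108864⟩, ⟨1, 1, 0, 1056964608⟩]] true 1 c0F cB101L gF2q1 gF0q1 gF0q0 gF1q0 true true)) t 1 126 1 = true :=
  ⟨(T.l 1), by decide +kernel⟩

def B101L_200_1_254_1 :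
    ∃ t, chk3 (onCell 0 33554432 0 1073741824 33554432 16777216 (corTK [[⟨0, 1, 2, 25165824⟩, ⟨1, 0, 1, 25165824⟩, ⟨2, 1, 0, 7864320⟩, ⟨0, 0, 0, 1056964608⟩, ⟨0, 1, 0, 67108864⟩, ⟨1, 0, 0, 67108864⟩, ⟨1, 1, 0, 1056964608⟩]] true 1 c0F cB101L gF2q1 gF0q1 gF0q0 gF1q0 true true)) t 1 254 1 = true :=
  ⟨(T.l 1), by decide +kernel⟩

def B101L_200_1_510_1 :
    ∃ t, chk3 (onCell 0 33554432 0 1073741824 33554432 16777216 (corTK [[⟨0, 1, 2, 25165824⟩, ⟨1, 0, 1, 25165824⟩, ⟨2, 1, 0, 7864320⟩, ⟨0, 0, 0, 1056964608⟩, ⟨0, 1, 0, 67108864⟩, ⟨1, 0, 0, 67108864⟩, ⟨1, 1, 0, 1056964608⟩]] true 1 c0F cB101L gF2q1 gF0q1 gF0q0 gF1q0 true true)) t 1 510 1 = true :=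
  ⟨(T.l 1), by decide +kernel⟩

def B101L_200_2_1022_2 :
    ∃ t, chk3 (onCell 0 33554432 0 1073741824 33554432 16777216 (corTK [[⟨0, 1, 2, 25165824⟩, ⟨1, 0, 1, 25165824⟩, ⟨2, 1, 0, 7864320⟩, ⟨0, 0, 0, 1056964608⟩, ⟨0, 1, 0, 67108864⟩, ⟨1, 0, 0, 67108864⟩, ⟨1, 1, 0, 1056964608⟩]] true 1 c0F cB101L gF2q1 gF0q1 gF0q0 gF1q0 true true)) t 2 1022 2 = true :=
  ⟨(T.l 1), by decide +kernel⟩

def B101L_200_4_1023_2 :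
    ∃ t, chk3 (onCell 0 33554432 0 1073741824 33554432 16777216 (corTK [[⟨0, 1, 2, 25165824⟩, ⟨1, 0, 1, 25165824⟩, ⟨2, 1, 0, 7864320⟩, ⟨0, 0, 0, 1056964608⟩, ⟨0, 1, 0, 67108864⟩, ⟨1, 0, 0, 67108864⟩, ⟨1, 1, 0, 1056964608⟩]] true 1 c0F cB101L gF2q1 gF0q1 gF0q0 gF1q0 true true)) t 4 1023 2 = true :=
  ⟨(T.c (T.b (T.l 1) (T.a (T.c (T.b (T.l 1) (T.l 816)) (T.b (T.l 1) (T.l 816))) (T.c (T.b (T.l 1) (T.a (T.a (T.a (T.l 816) (T.l 816)) (T.l 816)) (T.a (T.l 816) (T.l 816)))) (T.b (T.l 1) (T.a (T.a (T.l 816) (T.l 816)) (T.a (T.l 816) (T.l 816))))))) (T.b (T.l 1) (T.a (T.a (T.l 816) (T.l 816)) (T.c (T.b (T.l 1) (T.a (T.a (T.l 816) (T.l 816)) (T.a (T.l 816) (T.l 816)))) (T.b (T.l 1) (T.a (T.a (T.l 816) (T.l 816)) (T.a (T.l 816) (T.l 816)))))))), by decide +kernel⟩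

def B101L_200_5_1023_4 :
    ∃ t, chk3 (onCell 0 33554432 0 1073741824 33554432 16777216 (corTK [[⟨0, 1, 2, 25165824⟩, ⟨1, 0, 1, 25165824⟩, ⟨2, 1, 0, 7864320⟩, ⟨0, 0, 0, 1056964608⟩, ⟨0, 1, 0, 67108864⟩, ⟨1, 0, 0, 67108864⟩, ⟨1, 1, 0, 1056964608⟩]] true 1 c0F cB101L gF2q1 gF0q1 gF0q0 gF1q0 true true)) t 5 1023 4 = true :=
  ⟨(T.b (T.l 1) (T.a (T.c (T.b (T.l 1) (T.a (T.a (T.l 816) (T.a (T.l 816) (T.l 816))) (T.c (T.b (T.l 1) (T.a (T.l 816) (T.c (T.b (T.l 1) (T.l 816)) (T.a (T.l 816) (T.l 880))))) (T.b (T.l 1) (T.a (T.l 816) (T.a (T.l 816) (T.l 816))))))) (T.b (T.l 1) (T.a (T.a (T.l 816) (T.l 816)) (T.c (T.b (T.l 1) (T.a (T.l 816) (T.a (T.l 816) (T.l 816)))) (T.b (T.l 1) (T.a (T.l 816) (T.l 816))))))) (T.c (T.b (T.l 1) (T.a (T.c (T.b (T.l 1) (T.a (T.c (T.b (T.l 1) (T.a (T.l 816) (T.l 880))) (T.b (T.l 1)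 (T.a (T.l 816) (T.l 816)))) (T.c (T.b (T.l 1) (T.a (T.l 880) (T.c (T.b (T.l 1) (T.l 880)) (T.b (T.l 1) (T.l 880))))) (T.b (T.l 1) (T.a (T.l 880) (T.c (T.b (T.l 1) (T.l 880)) (T.a (T.l 880) (T.l 880)))))))) (T.b (T.l 1) (T.a (T.c (T.b (T.l 1) (T.l 880)) (T.b (T.l 1) (T.l 880))) (T.c (T.b (T.l 1) (T.a (T.l 880) (T.a (T.l 880) (T.l 880)))) (T.b (T.l 1) (T.a (T.l 880) (T.a (T.l 880) (T.l 880)))))))) (T.c (T.b (T.l 1) (T.a (T.c (T.b (T.l 1) (T.a (T.c (T.b (T.l 1) (T.l 880)) (T.b (T.l 1) (T.l 880))) (T.c (T.b (T.l 1) (T.a (T.l 880) (T.l 884))) (T.b (T.l 1) (T.a (T.l 880) (T.l 884)))))) (T.b (T.l 1) (T.a (T.c (T.b (T.l 1) (T.l 880)) (T.b (T.l 1) (T.l 880))) (T.c (T.b (T.l 1) (T.l 884)) (T.b (T.l 1) (T.l 884)))))) (T.c (T.b (T.l 1) (T.a (T.c (T.b (T.l 1) (T.a (T.a (T.l 884) (T.l 884)) (T.c (T.b (T.l 1) (T.l 884))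 (T.b (T.l 1) (T.l 884))))) (T.b (T.l 1) (T.a (T.l 884) (T.c (T.b (T.l 1) (T.l 884)) (T.b (T.l 1) (T.l 884)))))) (T.c (T.b (T.l 1) (T.a (T.c (T.b (T.l 1) (T.l 884)) (T.b (T.l 1) (T.l 884))) (T.c (T.b (T.l 1) (T.l 884)) (T.b (T.l 1) (T.l 884))))) (T.b (T.l 1) (T.a (T.c (T.b (T.l 1) (T.l 884)) (T.b (T.l 1) (T.l 884))) (T.c (T.b (T.l 1) (T.l 884)) (T.b (T.l 1) (T.l 884)))))))) (T.b (T.l 1) (T.a (T.c (T.b (T.l 1) (T.a (T.l 884) (T.c (T.b (T.l 1) (T.l 884)) (T.b (T.l 1) (T.l 884))))) (T.b (T.l 1) (T.a (T.l 884) (T.a (T.l 884) (T.l 884))))) (T.c (T.b (T.l 1) (T.a (T.c (T.b (T.l 1) (T.l 884)) (T.b (T.l 1) (T.l 884))) (T.c (T.b (T.l 1) (T.l 884)) (T.b (T.l 1) (T.l 884))))) (T.b (T.l 1) (T.a (T.c (T.b (T.l 1) (T.l 884)) (T.b (T.l 1) (T.l 884))) (T.c (T.b (T.l 1) (T.l 884)) (T.b (T.l 1) (T.l 884))))))))))) (T.b (T.l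 1) (T.a (T.c (T.b (T.l 1) (T.a (T.c (T.b (T.l 1) (T.l 880)) (T.b (T.l 1) (T.l 880))) (T.c (T.b (T.l 1) (T.l 884)) (T.b (T.l 1) (T.l 884))))) (T.b (T.l 1) (T.a (T.c (T.b (T.l 1) (T.l 880)) (T.b (T.l 1) (T.l 880))) (T.c (T.b (T.l 1) (T.l 884)) (T.b (T.l 1) (T.l 884)))))) (T.c (T.b (T.l 1) (T.a (T.c (T.b (T.l 1) (T.a (T.l 884) (T.l 884))) (T.b (T.l 1) (T.a (T.l 884) (T.l 884)))) (T.c (T.b (T.l 1) (T.a (T.c (T.b (T.l 1) (T.l 884)) (T.b (T.l 1) (T.l 884))) (T.c (T.b (T.l 1) (T.l 884)) (T.b (T.l 1) (T.l 884))))) (T.b (T.l 1) (T.a (T.c (T.b (T.l 1) (T.l 884)) (T.b (T.l 1) (T.l 884))) (T.c (T.b (T.l 1) (T.l 884)) (T.b (T.l 1) (T.l 884)))))))) (T.b (T.l 1) (T.a (T.c (T.b (T.l 1) (T.a (T.l 884) (T.l 884))) (T.b (T.l 1) (T.a (T.l 884) (T.l 884)))) (T.c (T.b (T.l 1) (T.a (T.c (T.b (T.l 1) (T.l 884)) (T.b (T.l 1) (T.l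 884))) (T.c (T.b (T.l 1) (T.l 884)) (T.b (T.l 1) (T.l 884))))) (T.b (T.l 1) (T.a (T.c (T.b (T.l 1) (T.l 884)) (T.a (T.l 884) (T.l 884))) (T.c (T.b (T.l 1) (T.l 884)) (T.b (T.l 1) (T.l 884)))))))))))))) (T.b (T.l 1) (T.a (T.c (T.b (T.l 1) (T.a (T.c (T.b (T.l 1) (T.l 880)) (T.b (T.l 1) (T.l 816))) (T.c (T.b (T.l 1) (T.a (T.l 816) (T.l 884))) (T.b (T.l 1) (T.a (T.l 816) (T.l 884)))))) (T.b (T.l 1) (T.a (T.c (T.a (T.l 816) (T.l 884)) (T.a (T.l 816) (T.l 884))) (T.c (T.b (T.l 1) (T.a (T.l 816) (T.l 884))) (T.b (T.l 1) (T.a (T.l 816) (T.l 884))))))) (T.c (T.b (T.l 1) (T.a (T.c (T.b (T.l 1) (T.a (T.c (T.b (T.l 1) (T.l 880)) (T.a (T.l 884) (T.l 884))) (T.c (T.b (T.l 1) (T.l 884)) (T.b (T.l 1) (T.l 884))))) (T.b (T.l 1) (T.a (T.a (T.l 884) (T.l 884)) (T.c (T.b (T.l 1) (T.l 884)) (T.b (T.l 1) (T.l 884)))))) (T.c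 (T.b (T.l 1) (T.a (T.c (T.b (T.l 1) (T.a (T.l 884) (T.l 884))) (T.b (T.l 1) (T.l 884))) (T.c (T.b (T.l 1) (T.a (T.a (T.l 884) (T.l 884)) (T.c (T.b (T.l 1) (T.l 884)) (T.b (T.l 1) (T.l 884))))) (T.b (T.l 1) (T.a (T.a (T.l 884) (T.l 884)) (T.c (T.b (T.l 1) (T.l 884)) (T.b (T.l 1) (T.l 884)))))))) (T.b (T.l 1) (T.a (T.c (T.b (T.l 1) (T.l 884)) (T.b (T.l 1) (T.l 884))) (T.c (T.b (T.l 1) (T.a (T.l 884) (T.c (T.b (T.l 1) (T.l 884)) (T.b (T.l 1) (T.l 884))))) (T.b (T.l 1) (T.a (T.l 884) (T.c (T.b (T.l 1) (T.l 884)) (T.b (T.l 1) (T.l 884))))))))))) (T.b (T.l 1) (T.a (T.c (T.b (T.l 1) (T.a (T.a (T.l 884) (T.l 884)) (T.c (T.b (T.l 1) (T.l 884)) (T.b (T.l 1) (T.l 884))))) (T.b (T.l 1) (T.a (T.l 884) (T.c (T.b (T.l 1) (T.l 884)) (T.b (T.l 1) (T.l 884)))))) (T.c (T.b (T.l 1) (T.a (T.c (T.b (T.l 1) (T.l 884)) (T.b (T.l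 1) (T.l 884))) (T.c (T.b (T.l 1) (T.a (T.l 884) (T.c (T.b (T.l 1) (T.l 884)) (T.b (T.l 1) (T.l 884))))) (T.b (T.l 1) (T.a (T.l 884) (T.c (T.b (T.l 1) (T.l 884)) (T.b (T.l 1) (T.l 884)))))))) (T.b (T.l 1) (T.a (T.c (T.b (T.l 1) (T.l 884)) (T.b (T.l 1) (T.l 884))) (T.c (T.b (T.l 1) (T.a (T.l 884) (T.a (T.l 884) (T.l 884)))) (T.b (T.l 1) (T.a (T.l 884) (T.a (T.l 884) (T.l 884)))))))))))))))), by decide +kernel⟩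

def B101L_200_5_1023_5 :
    ∃ t, chk3 (onCell 0 33554432 0 1073741824 33554432 16777216 (corTK [[⟨0, 1, 2, 25165824⟩, ⟨1, 0, 1, 25165824⟩, ⟨2, 1, 0, 7864320⟩, ⟨0, 0, 0, 1056964608⟩, ⟨0, 1, 0, 67108864⟩, ⟨1, 0, 0, 67108864⟩, ⟨1, 1, 0, 1056964608⟩]] true 1 c0F cB101L gF2q1 gF0q1 gF0q0 gF1q0 true true)) t 5 1023 5 = true :=
  ⟨(T.b (T.l 1) (T.a (T.c (T.b (T.l 1) (T.a (T.a (T.l 816) (T.l 816)) (T.c (T.b (T.l 1) (T.a (T.l 816) (T.l 816))) (T.a (T.l 820) (T.b (T.l 1) (T.l 816)))))) (T.b (T.l 1) (T.a (T.a (T.l 816) (T.l 816)) (T.c (T.a (T.l 820) (T.b (T.l 1) (T.l 816))) (T.a (T.l 820) (T.b (T.l 1) (T.l 816))))))) (T.c (T.b (T.l 1) (T.a (T.c (T.b (T.l 1) (T.a (T.a (T.l 816) (T.l 884)) (T.c (T.b (T.l 1) (T.a (T.l 816) (T.l 816))) (T.b (T.l 1) (T.a (T.l 816) (T.l 816)))))) (T.b (T.l 1) (T.a (T.a (T.l 816) (T.l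 820)) (T.c (T.b (T.l 1) (T.a (T.l 816) (T.l 816))) (T.b (T.l 1) (T.a (T.l 816) (T.l 816))))))) (T.c (T.b (T.l 1) (T.a (T.c (T.b (T.l 1) (T.a (T.l 884) (T.c (T.b (T.l 1) (T.l 884)) (T.b (T.l 1) (T.l 884))))) (T.b (T.l 1) (T.a (T.l 884) (T.c (T.b (T.l 1) (T.l 820)) (T.b (T.l 1) (T.l 820)))))) (T.c (T.b (T.l 1) (T.a (T.c (T.b (T.l 1) (T.l 884)) (T.b (T.l 1) (T.l 884))) (T.c (T.b (T.l 1) (T.a (T.l 884) (T.a (T.l 884) (T.l 884)))) (T.b (T.l 1) (T.a (T.l 884) (T.l 884)))))) (T.b (T.l 1) (T.a (T.c (T.b (T.l 1) (T.l 884)) (T.b (T.l 1) (T.l 884))) (T.c (T.b (T.l 1) (T.a (T.l 884) (T.l 884))) (T.b (T.l 1) (T.a (T.l 884) (T.l 884))))))))) (T.b (T.l 1) (T.a (T.c (T.b (T.l 1) (T.a (T.l 884) (T.c (T.b (T.l 1) (T.l 820)) (T.b (T.l 1) (T.l 820))))) (T.b (T.l 1) (T.a (T.l 884) (T.c (T.b (T.l 1) (T.l 820)) (T.a (T.l 884)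 (T.l 884)))))) (T.c (T.b (T.l 1) (T.a (T.c (T.b (T.l 1) (T.l 884)) (T.b (T.l 1) (T.l 884))) (T.c (T.b (T.l 1) (T.a (T.l 884) (T.l 884))) (T.b (T.l 1) (T.a (T.l 884) (T.l 884)))))) (T.b (T.l 1) (T.a (T.c (T.b (T.l 1) (T.l 884)) (T.b (T.l 1) (T.l 884))) (T.c (T.b (T.l 1) (T.a (T.l 884) (T.l 884))) (T.b (T.l 1) (T.a (T.l 884) (T.l 884)))))))))))) (T.b (T.l 1) (T.a (T.c (T.b (T.l 1) (T.a (T.a (T.l 816) (T.l 820)) (T.c (T.b (T.l 1) (T.a (T.l 816) (T.l 816))) (T.b (T.l 1) (T.a (T.l 816) (T.l 816)))))) (T.b (T.l 1) (T.a (T.a (T.l 816) (T.l 816)) (T.c (T.b (T.l 1) (T.a (T.l 816) (T.l 816))) (T.b (T.l 1) (T.a (T.l 816) (T.l 816))))))) (T.c (T.b (T.l 1) (T.a (T.c (T.b (T.l 1) (T.a (T.l 820) (T.a (T.l 884) (T.l 884)))) (T.b (T.l 1) (T.a (T.l 820) (T.a (T.l 820) (T.l 884))))) (T.c (T.b (T.l 1) (T.a (T.c (T.b (T.l 1)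 (T.l 884)) (T.b (T.l 1) (T.l 884))) (T.c (T.b (T.l 1) (T.a (T.l 884) (T.l 884))) (T.b (T.l 1) (T.a (T.l 884) (T.l 884)))))) (T.b (T.l 1) (T.a (T.c (T.b (T.l 1) (T.l 884)) (T.b (T.l 1) (T.l 884))) (T.c (T.b (T.l 1) (T.a (T.l 884) (T.l 884))) (T.b (T.l 1) (T.l 884)))))))) (T.b (T.l 1) (T.a (T.c (T.b (T.l 1) (T.a (T.l 820) (T.a (T.l 820) (T.l 884)))) (T.b (T.l 1) (T.a (T.l 820) (T.a (T.l 820) (T.l 820))))) (T.c (T.b (T.l 1) (T.a (T.c (T.b (T.l 1) (T.l 884)) (T.b (T.l 1) (T.l 884))) (T.c (T.b (T.l 1) (T.l 884)) (T.b (T.l 1) (T.l 884))))) (T.b (T.l 1) (T.a (T.c (T.b (T.l 1) (T.l 820)) (T.b (T.l 1) (T.l 820))) (T.c (T.b (T.l 1) (T.l 884)) (T.b (T.l 1) (T.l 884)))))))))))))), by decide +kernel⟩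

def B101L_200_2_511_3 :
    ∃ t, chk3 (onCell 0 33554432 0 1073741824 33554432 16777216 (corTK [[⟨0, 1, 2, 25165824⟩, ⟨1, 0, 1, 25165824⟩, ⟨2, 1, 0, 7864320⟩, ⟨0, 0, 0, 1056964608⟩, ⟨0, 1, 0, 67108864⟩, ⟨1, 0, 0, 67108864⟩, ⟨1, 1, 0, 1056964608⟩]] true 1 c0F cB101L gF2q1 gF0q1 gF0q0 gF1q0 true true)) t 2 511 3 = true :=
  ⟨(T.b (T.l 1) (T.a (T.c (T.b (T.l 1) (T.a (T.l 816) (T.c (T.b (T.l 1) (T.a (T.a (T.l 816) (T.l 816)) (T.a (T.l 816) (T.l 816)))) (T.b (T.l 1) (T.a (T.a (T.l 816) (T.l 816)) (T.a (T.l 816) (T.l 816))))))) (T.b (T.l 1) (T.a (T.l 816) (T.c (T.b (T.l 1) (T.a (T.a (T.l 816) (T.l 816)) (T.a (T.l 816) (T.l 816)))) (T.b (T.l 1) (T.a (T.a (T.l 816) (T.l 816)) (T.a (T.l 816) (T.l 816)))))))) (T.c (T.b (T.l 1) (T.a (T.c (T.b (T.l 1) (T.a (T.a (T.l 816) (T.l 816)) (T.c (T.a (T.l 820) (T.b (T.l 1)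 (T.l 816))) (T.a (T.l 820) (T.b (T.l 1) (T.l 816)))))) (T.b (T.l 1) (T.a (T.a (T.l 816) (T.l 816)) (T.c (T.a (T.l 820) (T.b (T.l 1) (T.l 816))) (T.a (T.l 820) (T.b (T.l 1) (T.l 816))))))) (T.c (T.b (T.l 1) (T.a (T.c (T.b (T.l 1) (T.a (T.a (T.l 816) (T.l 816)) (T.c (T.b (T.l 1) (T.a (T.l 816) (T.l 816))) (T.b (T.l 1) (T.a (T.l 816) (T.l 816)))))) (T.b (T.l 1) (T.a (T.a (T.l 816) (T.l 816)) (T.c (T.b (T.l 1) (T.a (T.l 816) (T.l 816))) (T.a (T.l 820) (T.b (T.l 1) (T.l 816))))))) (T.c (T.b (T.l 1) (T.a (T.c (T.b (T.l 1) (T.a (T.l 820) (T.a (T.l 820) (T.l 820)))) (T.b (T.l 1) (T.a (T.l 820) (T.l 820)))) (T.c (T.b (T.l 1) (T.a (T.c (T.b (T.l 1) (T.l 820)) (T.b (T.l 1) (T.l 820))) (T.c (T.b (T.l 1) (T.l 884)) (T.b (T.l 1) (T.l 884))))) (T.b (T.l 1) (T.a (T.c (T.b (T.l 1) (T.l 820)) (T.b (T.l 1) (T.l 820))) (T.c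 (T.b (T.l 1) (T.l 884)) (T.b (T.l 1) (T.l 884)))))))) (T.b (T.l 1) (T.a (T.c (T.b (T.l 1) (T.a (T.l 820) (T.l 820))) (T.b (T.l 1) (T.a (T.l 820) (T.l 820)))) (T.c (T.b (T.l 1) (T.a (T.c (T.b (T.l 1) (T.l 820)) (T.a (T.l 820) (T.l 884))) (T.c (T.b (T.l 1) (T.l 884)) (T.b (T.l 1) (T.l 884))))) (T.b (T.l 1) (T.a (T.a (T.l 820) (T.l 884)) (T.c (T.b (T.l 1) (T.l 884)) (T.b (T.l 1) (T.l 884))))))))))) (T.b (T.l 1) (T.a (T.c (T.b (T.l 1) (T.a (T.a (T.l 816) (T.l 816)) (T.a (T.l 820) (T.c (T.b (T.l 1) (T.l 816)) (T.b (T.l 1) (T.l 816)))))) (T.b (T.l 1) (T.a (T.a (T.l 816) (T.l 816)) (T.a (T.l 820) (T.c (T.b (T.l 1) (T.l 816)) (T.b (T.l 1) (T.l 816))))))) (T.c (T.b (T.l 1) (T.a (T.c (T.b (T.l 1) (T.a (T.l 820) (T.l 820))) (T.b (T.l 1) (T.a (T.l 820) (T.l 820)))) (T.c (T.b (T.l 1) (T.a (T.a (T.l 820) (T.l 884)) (T.c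 (T.b (T.l 1) (T.l 884)) (T.b (T.l 1) (T.l 884))))) (T.b (T.l 1) (T.a (T.a (T.l 820) (T.l 884)) (T.c (T.b (T.l 1) (T.l 884)) (T.b (T.l 1) (T.l 884)))))))) (T.b (T.l 1) (T.a (T.c (T.b (T.l 1) (T.a (T.l 820) (T.l 820))) (T.b (T.l 1) (T.a (T.l 816) (T.l 820)))) (T.c (T.b (T.l 1) (T.a (T.a (T.l 820) (T.l 884)) (T.c (T.b (T.l 1) (T.l 884)) (T.b (T.l 1) (T.l 884))))) (T.b (T.l 1) (T.a (T.l 884) (T.a (T.l 884) (T.l 884))))))))))))) (T.b (T.l 1) (T.a (T.c (T.b (T.l 1) (T.a (T.a (T.l 816) (T.l 816)) (T.c (T.a (T.l 820) (T.b (T.l 1) (T.l 816))) (T.a (T.l 820) (T.b (T.l 1) (T.l 816)))))) (T.b (T.l 1) (T.a (T.a (T.l 816) (T.l 816)) (T.a (T.l 820) (T.c (T.b (T.l 1) (T.l 816)) (T.b (T.l 1) (T.l 816))))))) (T.c (T.b (T.l 1) (T.a (T.c (T.b (T.l 1) (T.a (T.a (T.l 816) (T.l 816)) (T.a (T.l 820) (T.c (T.b (T.l 1) (T.l 816))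 (T.b (T.l 1) (T.l 816)))))) (T.b (T.l 1) (T.a (T.a (T.l 816) (T.l 816)) (T.a (T.l 820) (T.c (T.b (T.l 1) (T.l 816)) (T.b (T.l 1) (T.l 816))))))) (T.c (T.b (T.l 1) (T.a (T.c (T.b (T.l 1) (T.a (T.l 816) (T.l 820))) (T.b (T.l 1) (T.a (T.l 816) (T.l 820)))) (T.c (T.b (T.l 1) (T.a (T.l 884) (T.a (T.l 884) (T.l 884)))) (T.b (T.l 1) (T.a (T.l 820) (T.a (T.l 884) (T.l 884))))))) (T.b (T.l 1) (T.a (T.c (T.b (T.l 1) (T.a (T.l 816) (T.l 820))) (T.b (T.l 1) (T.a (T.l 816) (T.l 820)))) (T.c (T.b (T.l 1) (T.a (T.l 820) (T.a (T.l 884) (T.l 884)))) (T.b (T.l 1) (T.a (T.l 820) (T.a (T.l 884) (T.l 884)))))))))) (T.b (T.l 1) (T.a (T.c (T.b (T.l 1) (T.a (T.a (T.l 816) (T.l 816)) (T.c (T.b (T.l 1) (T.l 820)) (T.b (T.l 1) (T.l 820))))) (T.b (T.l 1) (T.a (T.l 820) (T.c (T.b (T.l 1) (T.l 820)) (T.b (T.l 1) (T.l 820)))))) (T.c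 (T.b (T.l 1) (T.a (T.c (T.b (T.l 1) (T.a (T.l 816) (T.l 820))) (T.b (T.l 1) (T.a (T.l 816) (T.l 820)))) (T.c (T.b (T.l 1) (T.a (T.l 820) (T.l 884))) (T.b (T.l 1) (T.a (T.l 820) (T.l 884)))))) (T.b (T.l 1) (T.a (T.c (T.b (T.l 1) (T.a (T.l 816) (T.l 816))) (T.b (T.l 1) (T.a (T.l 816) (T.l 816)))) (T.c (T.b (T.l 1) (T.a (T.l 820) (T.l 884))) (T.b (T.l 1) (T.a (T.l 820) (T.l 884))))))))))))))), by decide +kernel⟩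

def B101L_200_3_511_2 :
    ∃ t, chk3 (onCell 0 33554432 0 1073741824 33554432 16777216 (corTK [[⟨0, 1, 2, 25165824⟩, ⟨1, 0, 1, 25165824⟩, ⟨2, 1, 0, 7864320⟩, ⟨0, 0, 0, 1056964608⟩, ⟨0, 1, 0, 67108864⟩, ⟨1, 0, 0, 67108864⟩, ⟨1, 1, 0, 1056964608⟩]] true 1 c0F cB101L gF2q1 gF0q1 gF0q0 gF1q0 true true)) t 3 511 2 = true :=
  ⟨(T.a (T.a (T.a (T.b (T.l 1) (T.a (T.c (T.b (T.l 1) (T.a (T.a (T.c (T.b (T.l 1) (T.a (T.c (T.b (T.l 1) (T.a (T.c (T.b (T.l 1) (T.a (T.c (T.b (T.l 1) (T.c (T.b (T.l 1) (T.l 884)) (T.b (T.l 1) (T.l 884)))) (T.b (T.l 1) (T.c (T.b (T.l 1) (T.l 884)) (T.b (T.l 1) (T.l 884))))) (T.l 1024))) (T.b (T.l 1) (T.a (T.c (T.b (T.l 1) (T.c (T.b (T.l 1) (T.l 884)) (T.b (T.l 1) (T.l 884)))) (T.b (T.l 1) (T.c (T.b (T.l 1) (T.l 884)) (T.b (T.l 1) (T.l 884))))) (T.l 1024)))) (T.l 1024))) (T.b (T.l 1) (T.a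 (T.c (T.b (T.l 1) (T.a (T.c (T.b (T.l 1) (T.c (T.b (T.l 1) (T.l 884)) (T.b (T.l 1) (T.l 884)))) (T.b (T.l 1) (T.c (T.b (T.l 1) (T.l 884)) (T.b (T.l 1) (T.l 884))))) (T.l 1024))) (T.b (T.l 1) (T.a (T.c (T.b (T.l 1) (T.c (T.b (T.l 1) (T.l 884)) (T.b (T.l 1) (T.l 884)))) (T.b (T.l 1) (T.c (T.b (T.l 1) (T.l 884)) (T.b (T.l 1) (T.l 884))))) (T.l 1024)))) (T.l 1024)))) (T.l 1024))) (T.b (T.l 1) (T.a (T.c (T.b (T.l 1) (T.a (T.c (T.b (T.l 1) (T.a (T.c (T.b (T.l 1) (T.c (T.b (T.l 1) (T.l 884)) (T.b (T.l 1) (T.l 884)))) (T.b (T.l 1) (T.c (T.b (T.l 1) (T.l 884)) (T.b (T.l 1) (T.l 884))))) (T.l 1024))) (T.b (T.l 1) (T.a (T.c (T.b (T.l 1) (T.c (T.b (T.l 1) (T.l 884)) (T.b (T.l 1) (T.l 884)))) (T.b (T.l 1) (T.c (T.b (T.l 1) (T.l 884)) (T.b (T.l 1) (T.l 884))))) (T.l 1024)))) (T.l 1024))) (T.b (T.l 1) (T.a (T.c (T.b (T.l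 1) (T.a (T.c (T.b (T.l 1) (T.c (T.b (T.l 1) (T.l 884)) (T.b (T.l 1) (T.l 884)))) (T.b (T.l 1) (T.l 884))) (T.l 1024))) (T.b (T.l 1) (T.c (T.b (T.l 1) (T.l 884)) (T.b (T.l 1) (T.l 884))))) (T.l 1024)))) (T.l 1024)))) (T.l 1024)) (T.l 1024))) (T.b (T.l 1) (T.a (T.a (T.c (T.b (T.l 1) (T.a (T.c (T.b (T.l 1) (T.a (T.c (T.b (T.l 1) (T.c (T.b (T.l 1) (T.l 884)) (T.b (T.l 1) (T.l 884)))) (T.b (T.l 1) (T.c (T.b (T.l 1) (T.l 884)) (T.b (T.l 1) (T.l 884))))) (T.l 1024))) (T.b (T.l 1) (T.a (T.c (T.b (T.l 1) (T.c (T.b (T.l 1) (T.l 884)) (T.b (T.l 1) (T.l 884)))) (T.b (T.l 1) (T.c (T.b (T.l 1) (T.l 884)) (T.b (T.l 1) (T.l 884))))) (T.l 1024)))) (T.l 1024))) (T.b (T.l 1) (T.a (T.c (T.b (T.l 1) (T.a (T.c (T.b (T.l 1) (T.c (T.b (T.l 1) (T.l 884)) (T.b (T.l 1) (T.l 884)))) (T.b (T.l 1) (T.c (T.b (T.l 1) (T.l 884)) (T.b (T.l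 1) (T.l 884))))) (T.l 1024))) (T.b (T.l 1) (T.a (T.c (T.b (T.l 1) (T.c (T.b (T.l 1) (T.l 884)) (T.b (T.l 1) (T.l 884)))) (T.b (T.l 1) (T.c (T.b (T.l 1) (T.l 884)) (T.b (T.l 1) (T.l 884))))) (T.l 1024)))) (T.l 1024)))) (T.l 1024)) (T.l 1024)))) (T.l 1024))) (T.l 1024)) (T.l 1024)) (T.l 1024)), by decide +kernel⟩

def B101L_200_3_1022_3 :
    ∃ t, chk3 (onCell 0 33554432 0 1073741824 33554432 16777216 (corTK [[⟨0, 1, 2, 25165824⟩, ⟨1, 0, 1, 25165824⟩, ⟨2, 1, 0, 7864320⟩, ⟨0, 0, 0, 1056964608⟩, ⟨0, 1, 0, 67108864⟩, ⟨1, 0, 0, 67108864⟩, ⟨1, 1, 0, 1056964608⟩]] true 1 c0F cB101L gF2q1 gF0q1 gF0q0 gF1q0 true true)) t 3 1022 3 = true :=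
  ⟨(T.l 1), by decide +kernel⟩

def B101L_200_6_1023_6 :
    ∃ t, chk3 (onCell 0 33554432 0 1073741824 33554432 16777216 (corTK [[⟨0, 1, 2, 25165824⟩, ⟨1, 0, 1, 25165824⟩, ⟨2, 1, 0, 7864320⟩, ⟨0, 0, 0, 1056964608⟩, ⟨0, 1, 0, 67108864⟩, ⟨1, 0, 0, 67108864⟩, ⟨1, 1, 0, 1056964608⟩]] true 1 c0F cB101L gF2q1 gF0q1 gF0q0 gF1q0 true true)) t 6 1023 6 = true :=
  ⟨(T.b (T.l 1) (T.a (T.c (T.b (T.l 1) (T.a (T.c (T.b (T.l 1) (T.a (T.c (T.b (T.l 1) (T.a (T.c (T.b (T.l 1) (T.l 884)) (T.b (T.l 1) (T.l 884))) (T.c (T.l 1024) (T.b (T.l 1) (T.l 884))))) (T.b (T.l 1) (T.a (T.c (T.b (T.l 1) (T.l 884)) (T.b (T.l 1) (T.l 884))) (T.c (T.b (T.l 1) (T.l 884)) (T.b (T.l 1) (T.l 884)))))) (T.a (T.a (T.c (T.l 1024) (T.a (T.c (T.l 1024) (T.a (T.b (T.l 1) (T.b (T.l 1) (T.l 884))) (T.l 1024))) (T.l 1024))) (T.l 1024)) (T.l 1024))))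 (T.b (T.l 1) (T.a (T.c (T.b (T.l 1) (T.a (T.c (T.b (T.l 1) (T.l 884)) (T.b (T.l 1) (T.l 884))) (T.c (T.b (T.l 1) (T.l 884)) (T.b (T.l 1) (T.l 884))))) (T.b (T.l 1) (T.a (T.c (T.b (T.l 1) (T.l 884)) (T.b (T.l 1) (T.l 884))) (T.c (T.b (T.l 1) (T.l 884)) (T.b (T.l 1) (T.l 884)))))) (T.c (T.b (T.l 1) (T.a (T.c (T.b (T.l 1) (T.l 884)) (T.b (T.l 1) (T.l 884))) (T.c (T.l 1024) (T.b (T.l 1) (T.l 884))))) (T.b (T.l 1) (T.a (T.c (T.b (T.l 1) (T.l 884)) (T.b (T.l 1) (T.l 884))) (T.c (T.b (T.l 1) (T.l 884)) (T.b (T.l 1) (T.l 884))))))))) (T.a (T.a (T.c (T.l 1024) (T.a (T.c (T.l 1024) (T.a (T.b (T.l 1) (T.c (T.l 1024) (T.a (T.b (T.l 1) (T.b (T.l 1) (T.l 884))) (T.l 1024)))) (T.l 1024))) (T.l 1024))) (T.l 1024)) (T.l 1024)))) (T.b (T.l 1) (T.a (T.c (T.b (T.l 1) (T.a (T.c (T.b (T.l 1) (T.a (T.c (T.b (T.l 1) (T.l 884))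 (T.b (T.l 1) (T.l 884))) (T.c (T.b (T.l 1) (T.l 884)) (T.b (T.l 1) (T.l 884))))) (T.b (T.l 1) (T.a (T.c (T.b (T.l 1) (T.l 884)) (T.b (T.l 1) (T.l 884))) (T.c (T.b (T.l 1) (T.l 884)) (T.b (T.l 1) (T.l 884)))))) (T.c (T.b (T.l 1) (T.a (T.c (T.b (T.l 1) (T.l 884)) (T.b (T.l 1) (T.l 884))) (T.c (T.b (T.l 1) (T.l 884)) (T.b (T.l 1) (T.l 884))))) (T.b (T.l 1) (T.a (T.c (T.b (T.l 1) (T.l 884)) (T.b (T.l 1) (T.l 884))) (T.c (T.b (T.l 1) (T.l 884)) (T.b (T.l 1) (T.l 884)))))))) (T.b (T.l 1) (T.a (T.c (T.b (T.l 1) (T.a (T.c (T.b (T.l 1) (T.l 884)) (T.b (T.l 1) (T.l 884))) (T.c (T.b (T.l 1) (T.l 884)) (T.b (T.l 1) (T.l 884))))) (T.b (T.l 1) (T.a (T.c (T.b (T.l 1) (T.l 884)) (T.a (T.l 884) (T.l 884))) (T.c (T.b (T.l 1) (T.l 884)) (T.b (T.l 1) (T.l 884)))))) (T.c (T.b (T.l 1) (T.a (T.c (T.b (T.l 1) (T.l 884)) (T.b (T.l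 1) (T.l 884))) (T.c (T.b (T.l 1) (T.l 884)) (T.b (T.l 1) (T.l 884))))) (T.b (T.l 1) (T.a (T.c (T.b (T.l 1) (T.l 884)) (T.b (T.l 1) (T.l 884))) (T.c (T.b (T.l 1) (T.l 884)) (T.b (T.l 1) (T.l 884))))))))) (T.c (T.b (T.l 1) (T.a (T.c (T.b (T.l 1) (T.a (T.c (T.b (T.l 1) (T.l 884)) (T.b (T.l 1) (T.l 884))) (T.c (T.l 1024) (T.b (T.l 1) (T.l 884))))) (T.b (T.l 1) (T.a (T.c (T.b (T.l 1) (T.l 884)) (T.b (T.l 1) (T.l 884))) (T.c (T.b (T.l 1) (T.l 884)) (T.b (T.l 1) (T.l 884)))))) (T.a (T.a (T.c (T.l 1024) (T.a (T.c (T.l 1024) (T.b (T.l 1) (T.b (T.l 1) (T.l 884)))) (T.l 1024))) (T.l 1024)) (T.l 1024)))) (T.b (T.l 1) (T.a (T.c (T.b (T.l 1) (T.a (T.c (T.b (T.l 1) (T.l 884)) (T.b (T.l 1) (T.l 884))) (T.c (T.b (T.l 1) (T.l 884)) (T.b (T.l 1) (T.l 884))))) (T.b (T.l 1) (T.a (T.c (T.b (T.l 1) (T.l 884)) (T.b (T.l 1) (T.l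 884))) (T.c (T.b (T.l 1) (T.l 884)) (T.b (T.l 1) (T.l 884)))))) (T.c (T.b (T.l 1) (T.a (T.c (T.b (T.l 1) (T.l 884)) (T.b (T.l 1) (T.l 884))) (T.c (T.l 1024) (T.b (T.l 1) (T.l 884))))) (T.b (T.l 1) (T.a (T.c (T.b (T.l 1) (T.l 884)) (T.b (T.l 1) (T.l 884))) (T.c (T.b (T.l 1) (T.l 884)) (T.b (T.l 1) (T.l 884)))))))))))) (T.a (T.a (T.c (T.l 1024) (T.a (T.c (T.l 1024) (T.a (T.b (T.l 1) (T.c (T.l 1024) (T.a (T.b (T.l 1) (T.c (T.l 1024) (T.a (T.b (T.l 1) (T.b (T.l 1) (T.l 884))) (T.l 1024)))) (T.l 1024)))) (T.l 1024))) (T.l 1024))) (T.l 1024)) (T.l 1024)))), by decide +kernel⟩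

def B101L_200_6_2046_7 :
    ∃ t, chk3 (onCell 0 33554432 0 1073741824 33554432 16777216 (corTK [[⟨0, 1, 2, 25165824⟩, ⟨1, 0, 1, 25165824⟩, ⟨2, 1, 0, 7864320⟩, ⟨0, 0, 0, 1056964608⟩, ⟨0, 1, 0, 67108864⟩, ⟨1, 0, 0, 67108864⟩, ⟨1, 1, 0, 1056964608⟩]] true 1 c0F cB101L gF2q1 gF0q1 gF0q0 gF1q0 true true)) t 6 2046 7 = true :=
  ⟨(T.l 1), by decide +kernel⟩

def B101L_200_12_2047_7 :
    ∃ t, chk3 (onCell 0 33554432 0 1073741824 33554432 16777216 (corTK [[⟨0, 1, 2, 25165824⟩, ⟨1, 0, 1, 25165824⟩, ⟨2, 1, 0, 7864320⟩, ⟨0, 0, 0, 1056964608⟩, ⟨0, 1, 0, 67108864⟩, ⟨1, 0, 0, 67108864⟩, ⟨1, 1, 0, 1056964608⟩]] true 1 c0F cB101L gF2q1 gF0q1 gF0q0 gF1q0 true true)) t 12 2047 7 = true :=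
  ⟨(T.c (T.b (T.l 1) (T.a (T.c (T.b (T.l 1) (T.a (T.c (T.b (T.l 1) (T.a (T.a (T.l 884) (T.l 884)) (T.c (T.b (T.l 1) (T.l 884)) (T.a (T.l 884) (T.l 884))))) (T.b (T.l 1) (T.a (T.a (T.l 884) (T.l 884)) (T.a (T.l 884) (T.l 884))))) (T.c (T.b (T.l 1) (T.a (T.c (T.b (T.l 1) (T.l 884)) (T.b (T.l 1) (T.l 884))) (T.c (T.b (T.l 1) (T.l 884)) (T.b (T.l 1) (T.l 884))))) (T.b (T.l 1) (T.a (T.c (T.a (T.l 884) (T.l 884)) (T.a (T.l 884) (T.l 884))) (T.c (T.b (T.l 1) (T.l 884)) (T.b (T.l 1) (T.l 884)))))))) (T.b (T.l 1) (T.a (T.c (T.b (T.l 1) (T.a (T.a (T.l 884) (T.l 884)) (T.a (T.l 884) (T.l 884)))) (T.b (T.l 1) (T.a (T.a (T.l 884) (T.l 884)) (T.a (T.l 884) (T.l 884))))) (T.c (T.b (T.l 1) (T.a (T.a (T.l 884) (T.l 884)) (T.a (T.l 884) (T.l 884)))) (T.b (T.l 1) (T.a (T.a (T.l 884) (T.l 884)) (T.a (T.l 884) (T.l 884))))))))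 (T.c (T.b (T.l 1) (T.a (T.c (T.b (T.l 1) (T.a (T.c (T.b (T.l 1) (T.l 884)) (T.b (T.l 1) (T.l 884))) (T.c (T.b (T.l 1) (T.l 884)) (T.b (T.l 1) (T.l 884))))) (T.b (T.l 1) (T.a (T.c (T.b (T.l 1) (T.l 884)) (T.b (T.l 1) (T.l 884))) (T.c (T.b (T.l 1) (T.l 884)) (T.b (T.l 1) (T.l 884)))))) (T.c (T.b (T.l 1) (T.a (T.c (T.b (T.l 1) (T.l 884)) (T.b (T.l 1) (T.l 884))) (T.c (T.b (T.l 1) (T.l 884)) (T.b (T.l 1) (T.l 884))))) (T.b (T.l 1) (T.a (T.c (T.b (T.l 1) (T.l 884)) (T.b (T.l 1) (T.l 884))) (T.c (T.b (T.l 1) (T.l 884)) (T.b (T.l 1) (T.l 884)))))))) (T.b (T.l 1) (T.a (T.c (T.b (T.l 1) (T.a (T.c (T.b (T.l 1) (T.l 884)) (T.b (T.l 1) (T.l 884))) (T.c (T.b (T.l 1) (T.l 884)) (T.b (T.l 1) (T.l 884))))) (T.b (T.l 1) (T.a (T.a (T.l 884) (T.l 884)) (T.c (T.b (T.l 1) (T.l 884)) (T.b (T.l 1) (T.l 884)))))) (T.c (T.b (T.l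 1) (T.a (T.c (T.b (T.l 1) (T.l 884)) (T.b (T.l 1) (T.l 884))) (T.c (T.b (T.l 1) (T.l 884)) (T.b (T.l 1) (T.l 884))))) (T.b (T.l 1) (T.a (T.c (T.b (T.l 1) (T.l 884)) (T.b (T.l 1) (T.l 884))) (T.c (T.b (T.l 1) (T.l 884)) (T.b (T.l 1) (T.l 884))))))))))) (T.b (T.l 1) (T.a (T.c (T.b (T.l 1) (T.a (T.c (T.b (T.l 1) (T.a (T.l 884) (T.a (T.l 884) (T.l 884)))) (T.b (T.l 1) (T.a (T.l 884) (T.l 884)))) (T.c (T.b (T.l 1) (T.a (T.a (T.l 884) (T.l 884)) (T.a (T.l 884) (T.l 884)))) (T.b (T.l 1) (T.a (T.l 884) (T.a (T.l 884) (T.l 884))))))) (T.b (T.l 1) (T.a (T.c (T.b (T.l 1) (T.a (T.l 884) (T.l 884))) (T.b (T.l 1) (T.a (T.l 884) (T.l 884)))) (T.c (T.b (T.l 1) (T.a (T.l 884) (T.l 884))) (T.b (T.l 1) (T.a (T.l 884) (T.l 884))))))) (T.c (T.b (T.l 1) (T.a (T.c (T.b (T.l 1) (T.a (T.a (T.l 884) (T.l 884)) (T.a (T.l 884) (T.l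 884)))) (T.b (T.l 1) (T.a (T.a (T.l 884) (T.l 884)) (T.a (T.l 884) (T.l 884))))) (T.c (T.b (T.l 1) (T.a (T.c (T.b (T.l 1) (T.l 884)) (T.b (T.l 1) (T.l 884))) (T.c (T.b (T.l 1) (T.l 884)) (T.b (T.l 1) (T.l 884))))) (T.b (T.l 1) (T.a (T.a (T.l 884) (T.l 884)) (T.c (T.b (T.l 1) (T.l 884)) (T.b (T.l 1) (T.l 884)))))))) (T.b (T.l 1) (T.a (T.c (T.b (T.l 1) (T.a (T.a (T.l 884) (T.l 884)) (T.a (T.l 884) (T.l 884)))) (T.b (T.l 1) (T.a (T.l 884) (T.a (T.l 884) (T.l 884))))) (T.c (T.b (T.l 1) (T.a (T.a (T.l 884) (T.l 884)) (T.a (T.l 884) (T.l 884)))) (T.b (T.l 1) (T.a (T.a (T.l 884) (T.l 884)) (T.a (T.l 884) (T.l 884))))))))))), by decide +kernel⟩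

def B101L_200_13_2047_7 :
    ∃ t, chk3 (onCell 0 33554432 0 1073741824 33554432 16777216 (corTK [[⟨0, 1, 2, 25165824⟩, ⟨1, 0, 1, 25165824⟩, ⟨2, 1, 0, 7864320⟩, ⟨0, 0, 0, 1056964608⟩, ⟨0, 1, 0, 67108864⟩, ⟨1, 0, 0, 67108864⟩, ⟨1, 1, 0, 1056964608⟩]] true 1 c0F cB101L gF2q1 gF0q1 gF0q0 gF1q0 true true)) t 13 2047 7 = true :=
  ⟨(T.c (T.b (T.l 1) (T.a (T.c (T.b (T.l 1) (T.a (T.c (T.b (T.l 1) (T.a (T.c (T.b (T.l 1) (T.l 884)) (T.b (T.l 1) (T.l 884))) (T.c (T.l 1024) (T.b (T.l 1) (T.l 884))))) (T.b (T.l 1) (T.a (T.c (T.b (T.l 1) (T.l 884)) (T.b (T.l 1) (T.l 884))) (T.c (T.b (T.l 1) (T.l 884)) (T.b (T.l 1) (T.l 884)))))) (T.a (T.a (T.c (T.l 1024) (T.a (T.c (T.l 1024) (T.a (T.b (T.l 1) (T.b (T.l 1) (T.l 884))) (T.l 1024))) (T.l 1024))) (T.l 1024)) (T.l 1024)))) (T.b (T.l 1) (T.a (T.c (T.b (T.l 1) (T.a (T.c (T.b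 (T.l 1) (T.l 884)) (T.b (T.l 1) (T.l 884))) (T.c (T.b (T.l 1) (T.l 884)) (T.b (T.l 1) (T.l 884))))) (T.b (T.l 1) (T.a (T.c (T.b (T.l 1) (T.l 884)) (T.b (T.l 1) (T.l 884))) (T.c (T.b (T.l 1) (T.l 884)) (T.b (T.l 1) (T.l 884)))))) (T.c (T.b (T.l 1) (T.a (T.c (T.b (T.l 1) (T.l 884)) (T.b (T.l 1) (T.l 884))) (T.c (T.l 1024) (T.b (T.l 1) (T.l 884))))) (T.b (T.l 1) (T.a (T.c (T.b (T.l 1) (T.l 884)) (T.b (T.l 1) (T.l 884))) (T.c (T.b (T.l 1) (T.l 884)) (T.b (T.l 1) (T.l 884))))))))) (T.a (T.a (T.c (T.l 1024) (T.a (T.c (T.l 1024) (T.a (T.b (T.l 1) (T.c (T.l 1024) (T.a (T.b (T.l 1) (T.b (T.l 1) (T.l 884))) (T.l 1024)))) (T.l 1024))) (T.l 1024))) (T.l 1024)) (T.l 1024)))) (T.b (T.l 1) (T.a (T.c (T.b (T.l 1) (T.a (T.c (T.b (T.l 1) (T.a (T.c (T.b (T.l 1) (T.l 884)) (T.b (T.l 1) (T.l 884))) (T.c (T.b (T.l 1) (T.l 884))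 (T.b (T.l 1) (T.l 884))))) (T.b (T.l 1) (T.a (T.c (T.b (T.l 1) (T.l 884)) (T.b (T.l 1) (T.l 884))) (T.c (T.b (T.l 1) (T.l 884)) (T.b (T.l 1) (T.l 884)))))) (T.c (T.b (T.l 1) (T.a (T.c (T.b (T.l 1) (T.l 884)) (T.b (T.l 1) (T.l 884))) (T.c (T.b (T.l 1) (T.l 884)) (T.b (T.l 1) (T.l 884))))) (T.b (T.l 1) (T.a (T.c (T.b (T.l 1) (T.l 884)) (T.b (T.l 1) (T.l 884))) (T.c (T.b (T.l 1) (T.l 884)) (T.b (T.l 1) (T.l 884)))))))) (T.b (T.l 1) (T.a (T.c (T.b (T.l 1) (T.a (T.c (T.b (T.l 1) (T.l 884)) (T.a (T.l 884) (T.l 884))) (T.c (T.b (T.l 1) (T.l 884)) (T.b (T.l 1) (T.l 884))))) (T.b (T.l 1) (T.a (T.a (T.l 884) (T.l 884)) (T.c (T.b (T.l 1) (T.l 884)) (T.a (T.l 884) (T.l 884)))))) (T.c (T.b (T.l 1) (T.a (T.c (T.b (T.l 1) (T.l 884)) (T.b (T.l 1) (T.l 884))) (T.c (T.b (T.l 1) (T.l 884)) (T.b (T.l 1) (T.l 884))))) (T.b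 (T.l 1) (T.a (T.c (T.b (T.l 1) (T.l 884)) (T.b (T.l 1) (T.l 884))) (T.c (T.b (T.l 1) (T.l 884)) (T.b (T.l 1) (T.l 884))))))))) (T.c (T.b (T.l 1) (T.a (T.c (T.b (T.l 1) (T.a (T.c (T.b (T.l 1) (T.l 884)) (T.b (T.l 1) (T.l 884))) (T.c (T.l 1024) (T.b (T.l 1) (T.l 884))))) (T.b (T.l 1) (T.a (T.c (T.b (T.l 1) (T.l 884)) (T.b (T.l 1) (T.l 884))) (T.c (T.b (T.l 1) (T.l 884)) (T.b (T.l 1) (T.l 884)))))) (T.a (T.a (T.c (T.l 1024) (T.a (T.c (T.l 1024) (T.a (T.b (T.l 1) (T.b (T.l 1) (T.l 884))) (T.l 1024))) (T.l 1024))) (T.l 1024)) (T.l 1024)))) (T.b (T.l 1) (T.a (T.c (T.b (T.l 1) (T.a (T.c (T.b (T.l 1) (T.l 884)) (T.b (T.l 1) (T.l 884))) (T.c (T.b (T.l 1) (T.l 884)) (T.b (T.l 1) (T.l 884))))) (T.b (T.l 1) (T.a (T.c (T.b (T.l 1) (T.l 884)) (T.b (T.l 1) (T.l 884))) (T.c (T.b (T.l 1) (T.l 884)) (T.b (T.l 1) (T.l 884))))))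 (T.c (T.b (T.l 1) (T.a (T.c (T.b (T.l 1) (T.l 884)) (T.b (T.l 1) (T.l 884))) (T.c (T.l 1024) (T.b (T.l 1) (T.l 884))))) (T.b (T.l 1) (T.a (T.c (T.b (T.l 1) (T.l 884)) (T.b (T.l 1) (T.l 884))) (T.c (T.b (T.l 1) (T.l 884)) (T.b (T.l 1) (T.l 884)))))))))))), by decide +kernel⟩

def B101L_200_7_1023_3 :
    ∃ t, chk3 (onCell 0 33554432 0 1073741824 33554432 16777216 (corTK [[⟨0, 1, 2, 25165824⟩, ⟨1, 0, 1, 25165824⟩, ⟨2, 1, 0, 7864320⟩, ⟨0, 0, 0, 1056964608⟩, ⟨0, 1, 0, 67108864⟩, ⟨1, 0, 0, 67108864⟩, ⟨1, 1, 0, 1056964608⟩]] true 1 c0F cB101L gF2q1 gF0q1 gF0q0 gF1q0 true true)) t 7 1023 3 = true :=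
  ⟨(T.a (T.a (T.c (T.l 1024) (T.a (T.c (T.l 1024) (T.b (T.l 1) (T.a (T.c (T.l 1024) (T.a (T.b (T.l 1) (T.c (T.l 1024) (T.a (T.b (T.l 1) (T.c (T.l 1024) (T.a (T.b (T.l 1) (T.b (T.l 1) (T.l 884))) (T.l 1024)))) (T.l 1024)))) (T.l 1024))) (T.l 1024)))) (T.l 1024))) (T.l 1024)) (T.l 1024)), by decide +kernel⟩

theorem B101L_200_6_2047_7 :
    ∃ t, chk3 (onCell 0 33554432 0 1073741824 33554432 16777216 (corTK [[⟨0, 1, 2, 25165824⟩, ⟨1, 0, 1, 25165824⟩, ⟨2, 1, 0, 7864320⟩, ⟨0, 0, 0, 1056964608⟩, ⟨0, 1, 0, 67108864⟩, ⟨1, 0, 0, 67108864⟩, ⟨1, 1, 0, 1056964608⟩]] true 1 c0F cB101L gF2q1 gF0q1 gF0q0 gF1q0 true true)) t 6 2047 7 = true :=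
  ex3_a B101L_200_12_2047_7 B101L_200_13_2047_7
theorem B101L_200_6_1023_7 :
    ∃ t, chk3 (onCell 0 33554432 0 1073741824 33554432 16777216 (corTK [[⟨0, 1, 2, 25165824⟩, ⟨1, 0, 1, 25165824⟩, ⟨2, 1, 0, 7864320⟩, ⟨0, 0, 0, 1056964608⟩, ⟨0, 1, 0, 67108864⟩, ⟨1, 0, 0, 67108864⟩, ⟨1, 1, 0, 1056964608⟩]] true 1 c0F cB101L gF2q1 gF0q1 gF0q0 gF1q0 true true)) t 6 1023 7 = true :=
  ex3_b B101L_200_6_2046_7 B101L_200_6_2047_7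
theorem B101L_200_6_1023_3 :
    ∃ t, chk3 (onCell 0 33554432 0 1073741824 33554432 16777216 (corTK [[⟨0, 1, 2, 25165824⟩, ⟨1, 0, 1, 25165824⟩, ⟨2, 1, 0, 7864320⟩, ⟨0, 0, 0, 1056964608⟩, ⟨0, 1, 0, 67108864⟩, ⟨1, 0, 0, 67108864⟩, ⟨1, 1, 0, 1056964608⟩]] true 1 c0F cB101L gF2q1 gF0q1 gF0q0 gF1q0 true true)) t 6 1023 3 = true :=
  ex3_c B101L_200_6_1023_6 B101L_200_6_1023_7
theorem B101L_200_3_1023_3 :
    ∃ t, chk3 (onCell 0 33554432 0 1073741824 33554432 16777216 (corTK [[⟨0, 1, 2, 25165824⟩, ⟨1, 0, 1, 25165824⟩, ⟨2, 1, 0, 7864320⟩, ⟨0, 0, 0, 1056964608⟩, ⟨0, 1, 0, 67108864⟩, ⟨1, 0, 0, 67108864⟩, ⟨1, 1, 0, 1056964608⟩]] true 1 c0F cB101L gF2q1 gF0q1 gF0q0 gF1q0 true true)) t 3 1023 3 = true :=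
  ex3_a B101L_200_6_1023_3 B101L_200_7_1023_3
theorem B101L_200_3_511_3 :
    ∃ t, chk3 (onCell 0 33554432 0 1073741824 33554432 16777216 (corTK [[⟨0, 1, 2, 25165824⟩, ⟨1, 0, 1, 25165824⟩, ⟨2, 1, 0, 7864320⟩, ⟨0, 0, 0, 1056964608⟩, ⟨0, 1, 0, 67108864⟩, ⟨1, 0, 0, 67108864⟩, ⟨1, 1, 0, 1056964608⟩]] true 1 c0F cB101L gF2q1 gF0q1 gF0q0 gF1q0 true true)) t 3 511 3 = true :=
  ex3_b B101L_200_3_1022_3 B101L_200_3_1023_3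
theorem B101L_200_3_511_1 :
    ∃ t, chk3 (onCell 0 33554432 0 1073741824 33554432 16777216 (corTK [[⟨0, 1, 2, 25165824⟩, ⟨1, 0, 1, 25165824⟩, ⟨2, 1, 0, 7864320⟩, ⟨0, 0, 0, 1056964608⟩, ⟨0, 1, 0, 67108864⟩, ⟨1, 0, 0, 67108864⟩, ⟨1, 1, 0, 1056964608⟩]] true 1 c0F cB101L gF2q1 gF0q1 gF0q0 gF1q0 true true)) t 3 511 1 = true :=
  ex3_c B101L_200_3_511_2 B101L_200_3_511_3
theorem B101L_200_5_1023_2 :
    ∃ t, chk3 (onCell 0 33554432 0 1073741824 33554432 16777216 (corTK [[⟨0, 1, 2, 25165824⟩, ⟨1, 0, 1, 25165824⟩, ⟨2, 1, 0, 7864320⟩, ⟨0, 0, 0, 1056964608⟩, ⟨0, 1, 0, 67108864⟩, ⟨1, 0, 0, 67108864⟩, ⟨1, 1, 0, 1056964608⟩]] true 1 c0F cB101L gF2q1 gF0q1 gF0q0 gF1q0 true true)) t 5 1023 2 = true :=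
  ex3_c B101L_200_5_1023_4 B101L_200_5_1023_5
theorem B101L_200_2_1023_2 :
    ∃ t, chk3 (onCell 0 33554432 0 1073741824 33554432 16777216 (corTK [[⟨0, 1, 2, 25165824⟩, ⟨1, 0, 1, 25165824⟩, ⟨2, 1, 0, 7864320⟩, ⟨0, 0, 0, 1056964608⟩, ⟨0, 1, 0, 67108864⟩, ⟨1, 0, 0, 67108864⟩, ⟨1, 1, 0, 1056964608⟩]] true 1 c0F cB101L gF2q1 gF0q1 gF0q0 gF1q0 true true)) t 2 1023 2 = true :=
  ex3_a B101L_200_4_1023_2 B101L_200_5_1023_2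
theorem B101L_200_2_511_2 :
    ∃ t, chk3 (onCell 0 33554432 0 1073741824 33554432 16777216 (corTK [[⟨0, 1, 2, 25165824⟩, ⟨1, 0, 1, 25165824⟩, ⟨2, 1, 0, 7864320⟩, ⟨0, 0, 0, 1056964608⟩, ⟨0, 1, 0, 67108864⟩, ⟨1, 0, 0, 67108864⟩, ⟨1, 1, 0, 1056964608⟩]] true 1 c0F cB101L gF2q1 gF0q1 gF0q0 gF1q0 true true)) t 2 511 2 = true :=
  ex3_b B101L_200_2_1022_2 B101L_200_2_1023_2
theorem B101L_200_2_511_1 :
    ∃ t, chk3 (onCell 0 33554432 0 1073741824 33554432 16777216 (corTK [[⟨0, 1, 2, 25165824⟩, ⟨1, 0, 1, 25165824⟩, ⟨2, 1, 0, 7864320⟩, ⟨0, 0, 0, 1056964608⟩, ⟨0, 1, 0, 67108864⟩, ⟨1, 0, 0, 67108864⟩, ⟨1, 1, 0, 1056964608⟩]] true 1 c0F cB101L gF2q1 gF0q1 gF0q0 gF1q0 true true)) t 2 511 1 = true :=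
  ex3_c B101L_200_2_511_2 B101L_200_2_511_3
theorem B101L_200_1_511_1 :
    ∃ t, chk3 (onCell 0 33554432 0 1073741824 33554432 16777216 (corTK [[⟨0, 1, 2, 25165824⟩, ⟨1, 0, 1, 25165824⟩, ⟨2, 1, 0, 7864320⟩, ⟨0, 0, 0, 1056964608⟩, ⟨0, 1, 0, 67108864⟩, ⟨1, 0, 0, 67108864⟩, ⟨1, 1, 0, 1056964608⟩]] true 1 c0F cB101L gF2q1 gF0q1 gF0q0 gF1q0 true true)) t 1 511 1 = true :=
  ex3_a B101L_200_2_511_1 B101L_200_3_511_1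
theorem B101L_200_1_255_1 :
    ∃ t, chk3 (onCell 0 33554432 0 1073741824 33554432 16777216 (corTK [[⟨0, 1, 2, 25165824⟩, ⟨1, 0, 1, 25165824⟩, ⟨2, 1, 0, 7864320⟩, ⟨0, 0, 0, 1056964608⟩, ⟨0, 1, 0, 67108864⟩, ⟨1, 0, 0, 67108864⟩, ⟨1, 1, 0, 1056964608⟩]] true 1 c0F cB101L gF2q1 gF0q1 gF0q0 gF1q0 true true)) t 1 255 1 = true :=
  ex3_b B101L_200_1_510_1 B101L_200_1_511_1
theorem B101L_200_1_127_1 :
    ∃ t, chk3 (onCell 0 33554432 0 1073741824 33554432 16777216 (corTK [[⟨0, 1, 2, 25165824⟩, ⟨1, 0, 1, 25165824⟩, ⟨2, 1, 0, 7864320⟩, ⟨0, 0, 0, 1056964608⟩, ⟨0, 1, 0, 67108864⟩, ⟨1, 0, 0, 67108864⟩, ⟨1, 1, 0, 1056964608⟩]] true 1 c0F cB101L gF2q1 gF0q1 gF0q0 gF1q0 true true)) t 1 127 1 = true :=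
  ex3_b B101L_200_1_254_1 B101L_200_1_255_1
theorem B101L_200_1_63_1 :
    ∃ t, chk3 (onCell 0 33554432 0 1073741824 33554432 16777216 (corTK [[⟨0, 1, 2, 25165824⟩, ⟨1, 0, 1, 25165824⟩, ⟨2, 1, 0, 7864320⟩, ⟨0, 0, 0, 1056964608⟩, ⟨0, 1, 0, 67108864⟩, ⟨1, 0, 0, 67108864⟩, ⟨1, 1, 0, 1056964608⟩]] true 1 c0F cB101L gF2q1 gF0q1 gF0q0 gF1q0 true true)) t 1 63 1 = true :=
  ex3_b B101L_200_1_126_1 B101L_200_1_127_1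
theorem B101L_200_1_31_1 :
    ∃ t, chk3 (onCell 0 33554432 0 1073741824 33554432 16777216 (corTK [[⟨0, 1, 2, 25165824⟩, ⟨1, 0, 1, 25165824⟩, ⟨2, 1, 0, 7864320⟩, ⟨0, 0, 0, 1056964608⟩, ⟨0, 1, 0, 67108864⟩, ⟨1, 0, 0, 67108864⟩, ⟨1, 1, 0, 1056964608⟩]] true 1 c0F cB101L gF2q1 gF0q1 gF0q0 gF1q0 true true)) t 1 31 1 = true :=
  ex3_b B101L_200_1_62_1 B101L_200_1_63_1
theorem B101L_200_1_15_1 :
    ∃ t, chk3 (onCell 0 33554432 0 1073741824 33554432 16777216 (corTK [[⟨0, 1, 2, 25165824⟩, ⟨1, 0, 1, 25165824⟩, ⟨2, 1, 0, 7864320⟩, ⟨0, 0, 0, 1056964608⟩, ⟨0, 1, 0, 67108864⟩, ⟨1, 0, 0, 67108864⟩, ⟨1, 1, 0, 1056964608⟩]] true 1 c0F cB101L gF2q1 gF0q1 gF0q0 gF1q0 true true)) t 1 15 1 = true :=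
  ex3_b B101L_200_1_30_1 B101L_200_1_31_1
theorem B101L_200_1_7_1 :
    ∃ t, chk3 (onCell 0 33554432 0 1073741824 33554432 16777216 (corTK [[⟨0, 1, 2, 25165824⟩, ⟨1, 0, 1, 25165824⟩, ⟨2, 1, 0, 7864320⟩, ⟨0, 0, 0, 1056964608⟩, ⟨0, 1, 0, 67108864⟩, ⟨1, 0, 0, 67108864⟩, ⟨1, 1, 0, 1056964608⟩]] true 1 c0F cB101L gF2q1 gF0q1 gF0q0 gF1q0 true true)) t 1 7 1 = true :=
  ex3_b B101L_200_1_14_1 B101L_200_1_15_1
theorem B101L_200_1_3_1 :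
    ∃ t, chk3 (onCell 0 33554432 0 1073741824 33554432 16777216 (corTK [[⟨0, 1, 2, 25165824⟩, ⟨1, 0, 1, 25165824⟩, ⟨2, 1, 0, 7864320⟩, ⟨0, 0, 0, 1056964608⟩, ⟨0, 1, 0, 67108864⟩, ⟨1, 0, 0, 67108864⟩, ⟨1, 1, 0, 1056964608⟩]] true 1 c0F cB101L gF2q1 gF0q1 gF0q0 gF1q0 true true)) t 1 3 1 = true :=
  ex3_b B101L_200_1_6_1 B101L_200_1_7_1
theorem B101L_200 :
    ∃ t, chk3 (onCell 0 33554432 0 1073741824 33554432 16777216 (corTK [[⟨0, 1, 2, 25165824⟩, ⟨1, 0, 1, 25165824⟩, ⟨2, 1, 0, 7864320⟩, ⟨0, 0, 0, 1056964608⟩, ⟨0, 1, 0, 67108864⟩, ⟨1, 0, 0, 67108864⟩, ⟨1, 1, 0, 1056964608⟩]] true 1 c0F cB101L gF2q1 gF0q1 gF0q0 gF1q0 true true)) t 1 1 1 = true :=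
  ex3_b B101L_200_1_2_1 B101L_200_1_3_1

def B101L_201 :
    ∃ t, chk3 (onCell 0 33554432 0 1073741824 33554432 16777216 (corTK [[⟨0, 1, 2, 25165824⟩, ⟨1, 0, 1, 25165824⟩, ⟨2, 1, 0, 7864320⟩, ⟨0, 0, 0, 1056964608⟩, ⟨0, 1, 0, 67108864⟩, ⟨1, 0, 0, 67108864⟩, ⟨1, 1, 0, 1056964608⟩]] true 1 c0F cB101L gF2q1 gF0q1 gF1q0 gF2q0 true true)) t 1 1 1 = true :=
  ⟨(T.l 1), by decide +kernel⟩

def B101L_202 :
    ∃ t, chk3 (onCell 0 33554432 0 1073741824 33554432 16777216 (corTK [[⟨0, 1, 2, 25165824⟩, ⟨1, 0, 1, 25165824⟩, ⟨2, 1, 0, 7864320⟩, ⟨0, 0, 0, 1056964608⟩, ⟨0, 1, 0, 67108864⟩, ⟨1, 0, 0, 67108864⟩, ⟨1, 1, 0, 1056964608⟩]] true 1 c0F cB101L gF2q1 gF0q1 gF2q0 gF3q0 true false)) t 1 1 1 = true :=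
  ⟨(T.l 1), by decide +kernel⟩

def B101L_300 :
    ∃ t, chk3 (onCell 0 33554432 0 1073741824 33554432 16777216 (corTK [] true 1 c0F cB101L gF3q1 gF0q1 gF0q0 gF1q0 true true)) t 1 1 1 = true :=
  ⟨(T.b (T.l 1) (T.b (T.l 1) (T.b (T.b (T.l 1) (T.b (T.b (T.l 1) (T.b (T.b (T.l 1) (T.a (T.c (T.b (T.a (T.c (T.b (T.l 1) (T.a (T.l 204) (T.a (T.l 204) (T.a (T.l 460) (T.l 460))))) (T.a (T.l 204) (T.a (T.l 460) (T.b (T.l 1) (T.l 460))))) (T.c (T.b (T.l 1) (T.a (T.a (T.a (T.l 460) (T.l 460)) (T.a (T.l 460) (T.c (T.l 460) (T.l 460)))) (T.a (T.c (T.b (T.c (T.b (T.l 1) (T.l 460)) (T.a (T.l 460) (T.l 460))) (T.l 460)) (T.l 460)) (T.c (T.b (T.c (T.b (T.l 1) (T.l 460)) (T.a (T.l 460) (T.l 460))) (T.l 460)) (T.l 460))))) (T.b (T.l 1) (T.a (T.a (T.l 460) (T.l 460)) (T.a (T.l 460) (T.l 476)))))) (T.a (T.a (T.l 204) (T.a (T.l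 204) (T.l 204))) (T.a (T.a (T.l 204) (T.l 204)) (T.a (T.l 460) (T.l 460))))) (T.b (T.a (T.a (T.l 204) (T.a (T.l 204) (T.a (T.l 204) (T.l 460)))) (T.c (T.b (T.l 1) (T.a (T.l 476) (T.l 476))) (T.b (T.l 1) (T.a (T.l 220) (T.a (T.l 220) (T.l 220)))))) (T.a (T.a (T.l 204) (T.a (T.l 204) (T.l 204))) (T.a (T.l 204) (T.l 220))))) (T.c (T.b (T.a (T.c (T.b (T.l 1) (T.a (T.a (T.c (T.b (T.c (T.b (T.l 1) (T.l 476)) (T.a (T.l 476) (T.l 476))) (T.l 460)) (T.l 476)) (T.c (T.b (T.c (T.b (T.l 1) (T.l 476)) (T.a (T.l 476) (T.l 476))) (T.l 476)) (T.a (T.l 476) (T.l 476)))) (T.a (T.c (T.b (T.c (T.b (T.l 1) (T.l 476)) (T.a (T.l 476) (T.l 476))) (T.l 476)) (T.a (T.l 476) (T.l 476))) (T.c (T.b (T.c (T.b (T.l 1) (T.l 476)) (T.a (T.l 476) (T.l 476))) (T.l 476)) (T.a (T.l 476) (T.l 476)))))) (T.b (T.l 1) (T.a (T.a (T.l 476) (T.l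 476)) (T.a (T.l 476) (T.a (T.l 476) (T.l 476)))))) (T.c (T.b (T.l 1) (T.a (T.c (T.b (T.a (T.c (T.b (T.l 1) (T.l 476)) (T.b (T.l 1) (T.l 476))) (T.l 1)) (T.a (T.l 476) (T.l 476))) (T.b (T.a (T.a (T.l 476) (T.l 1)) (T.l 1)) (T.a (T.l 476) (T.l 476)))) (T.c (T.b (T.l 1) (T.a (T.l 476) (T.l 476))) (T.b (T.l 1) (T.a (T.l 476) (T.l 476)))))) (T.b (T.l 1) (T.a (T.c (T.b (T.a (T.a (T.l 476) (T.l 1)) (T.l 1)) (T.a (T.l 476) (T.l 476))) (T.b (T.a (T.a (T.l 476) (T.l 1)) (T.l 1)) (T.a (T.l 476) (T.l 476)))) (T.c (T.b (T.l 1) (T.a (T.l 476) (T.l 476))) (T.b (T.l 1) (T.a (T.l 476) (T.l 476)))))))) (T.a (T.a (T.a (T.l 460) (T.l 476)) (T.a (T.l 476) (T.l 476))) (T.a (T.l 476) (T.l 476)))) (T.b (T.a (T.c (T.b (T.l 1) (T.a (T.a (T.l 476) (T.l 476)) (T.a (T.l 476) (T.a (T.l 476) (T.l 476))))) (T.b (T.l 1) (T.a (T.a (T.l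 220) (T.l 476)) (T.a (T.a (T.l 476) (T.l 476)) (T.a (T.l 476) (T.l 476)))))) (T.c (T.b (T.l 1) (T.a (T.c (T.b (T.a (T.a (T.l 476) (T.l 1)) (T.l 1)) (T.a (T.l 476) (T.l 476))) (T.b (T.a (T.a (T.l 476) (T.l 1)) (T.l 1)) (T.a (T.l 476) (T.l 476)))) (T.c (T.b (T.l 1) (T.a (T.l 476) (T.l 476))) (T.b (T.l 1) (T.a (T.l 476) (T.l 476)))))) (T.b (T.l 1) (T.a (T.c (T.b (T.a (T.a (T.l 476) (T.l 1)) (T.l 1)) (T.a (T.l 476) (T.l 476))) (T.b (T.a (T.a (T.l 476) (T.l 1)) (T.l 1)) (T.a (T.l 476) (T.l 476)))) (T.c (T.b (T.l 1) (T.a (T.l 476) (T.l 476))) (T.b (T.l 1) (T.a (T.l 476) (T.l 476)))))))) (T.a (T.a (T.a (T.l 204) (T.l 476)) (T.a (T.l 476) (T.l 476))) (T.a (T.l 476) (T.l 476))))))) (T.b (T.a (T.a (T.a (T.l 204) (T.a (T.l 204) (T.l 204))) (T.a (T.l 204) (T.l 204))) (T.a (T.a (T.l 476) (T.l 476)) (T.a (T.l 476) (T.l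 476)))) (T.a (T.a (T.a (T.l 204) (T.l 0)) (T.a (T.l 204) (T.l 204))) (T.a (T.a (T.l 204) (T.l 204)) (T.l 476)))))) (T.a (T.a (T.a (T.l 0) (T.l 0)) (T.a (T.l 0) (T.l 204))) (T.a (T.b (T.l 256) (T.l 0)) (T.l 204))))) (T.a (T.a (T.a (T.l 0) (T.l 0)) (T.b (T.l 0) (T.l 0))) (T.a (T.l 0) (T.l 0)))))), by decide +kernel⟩

def B101L_301 :
    ∃ t, chk3 (onCell 0 33554432 0 1073741824 33554432 16777216 (corTK [] true 1 c0F cB101L gF3q1 gF0q1 gF1q0 gF2q0 true true)) t 1 1 1 = true :=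
  ⟨(T.l 1), by decide +kernel⟩

def B101L_302 :
    ∃ t, chk3 (onCell 0 33554432 0 1073741824 33554432 16777216 (corTK [] true 1 c0F cB101L gF3q1 gF0q1 gF2q0 gF3q0 true false)) t 1 1 1 = true :=
  ⟨(T.l 1), by decide +kernel⟩

def B101L_400 :
    ∃ t, chk3 (onCell 0 16777216 0 1073741824 33554432 16777216 (corXK [] 1 c0F cB101L tB101L gF4q1 gF0q1 gF0q0 gF1q0 gF0q0 true true)) t 1 1 1 = true :=
  ⟨(T.b (T.l 1) (T.a (T.l 819) (T.b (T.b (T.l 1) (T.l 819)) (T.b (T.l 816) (T.l 0))))), by decide +kernel⟩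

def B101L_401 :
    ∃ t, chk3 (onCell 0 16777216 0 1073741824 33554432 16777216 (corTK [] true 1 c0F cB101L gF4q1 gF0q1 gF1q0 gF2q0 true true)) t 1 1 1 = true :=
  ⟨(T.l 1), by decide +kernel⟩

def B101L_402 :
    ∃ t, chk3 (onCell 0 16777216 0 1073741824 33554432 16777216 (corTK [] true 1 c0F cB101L gF4q1 gF0q1 gF2q0 gF3q0 true false)) t 1 1 1 = true :=
  ⟨(T.l 1), by decide +kernel⟩

def B101R_020 :
    ∃ t, chk3 (onCell 0 33554432 0 1073741824 33554432 16777216 (corTK [] true 1 c0F cB101R gF0q1 gF2q1 gF0q0 gF1q0 true true)) t 1 1 1 = true :=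
  ⟨(T.l 1), by decide +kernel⟩

def B101R_021 :
    ∃ t, chk3 (onCell 0 33554432 0 1073741824 33554432 16777216 (corTK [] true 1 c0F cB101R gF0q1 gF2q1 gF1q0 gF2q0 true true)) t 1 1 1 = true :=
  ⟨(T.l 1), by decide +kernel⟩

def B101R_022 :
    ∃ t, chk3 (onCell 0 33554432 0 1073741824 33554432 16777216 (corTK [] true 1 c0F cB101R gF0q1 gF2q1 gF2q0 gF3q0 true false)) t 1 1 1 = true :=
  ⟨(T.l 1), by decide +kernel⟩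

def B101R_030 :
    ∃ t, chk3 (onCell 0 33554432 0 1073741824 33554432 16777216 (corTK [] true 1 c0F cB101R gF0q1 gF3q1 gF0q0 gF1q0 true true)) t 1 1 1 = true :=
  ⟨(T.l 1), by decide +kernel⟩

def B101R_031 :
    ∃ t, chk3 (onCell 0 33554432 0 1073741824 33554432 16777216 (corTK [] true 1 c0F cB101R gF0q1 gF3q1 gF1q0 gF2q0 true true)) t 1 1 1 = true :=
  ⟨(T.l 1), by decide +kernel⟩

def B101R_032 :
    ∃ t, chk3 (onCell 0 33554432 0 1073741824 33554432 16777216 (corTK [] true 1 c0F cB101R gF0q1 gF3q1 gF2q0 gF3q0 true false)) t 1 1 1 = true :=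
  ⟨(T.l 1), by decide +kernel⟩

def B101R_040 :
    ∃ t, chk3 (onCell 0 33554432 0 1073741824 33554432 16777216 (corTK [] true 1 c0F cB101R gF0q1 gF4q1 gF0q0 gF1q0 true true)) t 1 1 1 = true :=
  ⟨(T.l 1), by decide +kernel⟩

def B101R_041 :
    ∃ t, chk3 (onCell 0 33554432 0 1073741824 33554432 16777216 (corTK [] true 1 c0F cB101R gF0q1 gF4q1 gF1q0 gF2q0 true true)) t 1 1 1 = true :=
  ⟨(T.l 1), by decide +kernel⟩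

def B101R_042 :
    ∃ t, chk3 (onCell 0 33554432 0 1073741824 33554432 16777216 (corTK [] true 1 c0F cB101R gF0q1 gF4q1 gF2q0 gF3q0 true false)) t 1 1 1 = true :=
  ⟨(T.l 1), by decide +kernel⟩

def B102E_000 :
    ∃ t, chk3 (onCell 0 12582912 0 1073741824 33554432 16777216 (corXK [] 1 c0F cB102E tB102E gF0q1 gF0q2 gF0q0 gF1q0 gF0q0 true true)) t 1 1 1 = true :=
  ⟨(T.b (T.b (T.l 1) (T.a (T.l 819) (T.l 1))) (T.a (T.b (T.l 819) (T.l 816)) (T.b (T.b (T.b (T.b (T.l 819) (T.l 816)) (T.l 816)) (T.l 0)) (T.l 0)))), by decide +kernel⟩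

def B102E_001 :
    ∃ t, chk3 (onCell 0 12582912 0 1073741824 33554432 16777216 (corTK [] true 1 c0F cB102E gF0q1 gF0q2 gF1q0 gF2q0 true true)) t 1 1 1 = true :=
  ⟨(T.b (T.l 1) (T.a (T.b (T.b (T.l 1) (T.l 816)) (T.l 816)) (T.b (T.b (T.l 1) (T.l 816)) (T.l 0)))), by decide +kernel⟩

def B102E_002 :
    ∃ t, chk3 (onCell 0 12582912 0 1073741824 33554432 16777216 (corTK [] true 1 c0F cB102E gF0q1 gF0q2 gF2q0 gF3q0 true false)) t 1 1 1 = true :=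
  ⟨(T.b (T.l 1) (T.b (T.l 1) (T.b (T.l 1) (T.a (T.l 0) (T.l 0))))), by decide +kernel⟩

theorem B102E_010_15_687_3 :
    ∃ t, chk3 (onCell 0 33554432 0 1073741824 33554432 16777216 (corTK [] true 1 c0F cB102E gF0q1 gF1q2 gF0q0 gF1q0 true true)) t 15 687 3 = true :=
  ex3_c B102E_010_15_687_6 B102E_010_15_687_7
theorem B102E_010_7_687_3 :
    ∃ t, chk3 (onCell 0 33554432 0 1073741824 33554432 16777216 (corTK [] true 1 c0F cB102E gF0q1 gF1q2 gF0q0 gF1q0 true true)) t 7 687 3 = true :=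
  ex3_a B102E_010_14_687_3 B102E_010_15_687_3
theorem B102E_010_14_686_3 :
    ∃ t, chk3 (onCell 0 33554432 0 1073741824 33554432 16777216 (corTK [] true 1 c0F cB102E gF0q1 gF1q2 gF0q0 gF1q0 true true)) t 14 686 3 = true :=
  ex3_c B102E_010_14_686_6 B102E_010_14_686_7
theorem B102E_010_7_686_3 :
    ∃ t, chk3 (onCell 0 33554432 0 1073741824 33554432 16777216 (corTK [] true 1 c0F cB102E gF0q1 gF1q2 gF0q0 gF1q0 true true)) t 7 686 3 = true :=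
  ex3_a B102E_010_14_686_3 B102E_010_15_686_3
theorem B102E_010_7_343_3 :
    ∃ t, chk3 (onCell 0 33554432 0 1073741824 33554432 16777216 (corTK [] true 1 c0F cB102E gF0q1 gF1q2 gF0q0 gF1q0 true true)) t 7 343 3 = true :=
  ex3_b B102E_010_7_686_3 B102E_010_7_687_3
theorem B102E_010_7_687_2 :
    ∃ t, chk3 (onCell 0 33554432 0 1073741824 33554432 16777216 (corTK [] true 1 c0F cB102E gF0q1 gF1q2 gF0q0 gF1q0 true true)) t 7 687 2 = true :=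
  ex3_a B102E_010_14_687_2 B102E_010_15_687_2
theorem B102E_010_7_343_2 :
    ∃ t, chk3 (onCell 0 33554432 0 1073741824 33554432 16777216 (corTK [] true 1 c0F cB102E gF0q1 gF1q2 gF0q0 gF1q0 true true)) t 7 343 2 = true :=
  ex3_b B102E_010_7_686_2 B102E_010_7_687_2
theorem B102E_010_7_343_1 :
    ∃ t, chk3 (onCell 0 33554432 0 1073741824 33554432 16777216 (corTK [] true 1 c0F cB102E gF0q1 gF1q2 gF0q0 gF1q0 true true)) t 7 343 1 = true :=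
  ex3_c B102E_010_7_343_2 B102E_010_7_343_3
theorem B102E_010_13_343_1 :
    ∃ t, chk3 (onCell 0 33554432 0 1073741824 33554432 16777216 (corTK [] true 1 c0F cB102E gF0q1 gF1q2 gF0q0 gF1q0 true true)) t 13 343 1 = true :=
  ex3_c B102E_010_13_343_2 B102E_010_13_343_3
theorem B102E_010_6_343_1 :
    ∃ t, chk3 (onCell 0 33554432 0 1073741824 33554432 16777216 (corTK [] true 1 c0F cB102E gF0q1 gF1q2 gF0q0 gF1q0 true true)) t 6 343 1 = true :=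
  ex3_a B102E_010_12_343_1 B102E_010_13_343_1
theorem B102E_010_3_343_1 :
    ∃ t, chk3 (onCell 0 33554432 0 1073741824 33554432 16777216 (corTK [] true 1 c0F cB102E gF0q1 gF1q2 gF0q0 gF1q0 true true)) t 3 343 1 = true :=
  ex3_a B102E_010_6_343_1 B102E_010_7_343_1
theorem B102E_010_12_685_3 :
    ∃ t, chk3 (onCell 0 33554432 0 1073741824 33554432 16777216 (corTK [] true 1 c0F cB102E gF0q1 gF1q2 gF0q0 gF1q0 true true)) t 12 685 3 = true :=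
  ex3_c B102E_010_12_685_6 B102E_010_12_685_7
theorem B102E_010_6_685_3 :
    ∃ t, chk3 (onCell 0 33554432 0 1073741824 33554432 16777216 (corTK [] true 1 c0F cB102E gF0q1 gF1q2 gF0q0 gF1q0 true true)) t 6 685 3 = true :=
  ex3_a B102E_010_12_685_3 B102E_010_13_685_3
theorem B102E_010_6_342_3 :
    ∃ t, chk3 (onCell 0 33554432 0 1073741824 33554432 16777216 (corTK [] true 1 c0F cB102E gF0q1 gF1q2 gF0q0 gF1q0 true true)) t 6 342 3 = true :=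
  ex3_b B102E_010_6_684_3 B102E_010_6_685_3
theorem B102E_010_12_685_5 :
    ∃ t, chk3 (onCell 0 33554432 0 1073741824 33554432 16777216 (corTK [] true 1 c0F cB102E gF0q1 gF1q2 gF0q0 gF1q0 true true)) t 12 685 5 = true :=
  ex3_b B102E_010_12_1370_5 B102E_010_12_1371_5
theorem B102E_010_12_685_4 :
    ∃ t, chk3 (onCell 0 33554432 0 1073741824 33554432 16777216 (corTK [] true 1 c0F cB102E gF0q1 gF1q2 gF0q0 gF1q0 true true)) t 12 685 4 = true :=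
  ex3_b B102E_010_12_1370_4 B102E_010_12_1371_4
theorem B102E_010_12_685_2 :
    ∃ t, chk3 (onCell 0 33554432 0 1073741824 33554432 16777216 (corTK [] true 1 c0F cB102E gF0q1 gF1q2 gF0q0 gF1q0 true true)) t 12 685 2 = true :=
  ex3_c B102E_010_12_685_4 B102E_010_12_685_5
theorem B102E_010_6_685_2 :
    ∃ t, chk3 (onCell 0 33554432 0 1073741824 33554432 16777216 (corTK [] true 1 c0F cB102E gF0q1 gF1q2 gF0q0 gF1q0 true true)) t 6 685 2 = true :=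
  ex3_a B102E_010_12_685_2 B102E_010_13_685_2
theorem B102E_010_6_342_2 :
    ∃ t, chk3 (onCell 0 33554432 0 1073741824 33554432 16777216 (corTK [] true 1 c0F cB102E gF0q1 gF1q2 gF0q0 gF1q0 true true)) t 6 342 2 = true :=
  ex3_b B102E_010_6_684_2 B102E_010_6_685_2
theorem B102E_010_6_342_1 :
    ∃ t, chk3 (onCell 0 33554432 0 1073741824 33554432 16777216 (corTK [] true 1 c0F cB102E gF0q1 gF1q2 gF0q0 gF1q0 true true)) t 6 342 1 = true :=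
  ex3_c B102E_010_6_342_2 B102E_010_6_342_3
theorem B102E_010_3_342_1 :
    ∃ t, chk3 (onCell 0 33554432 0 1073741824 33554432 16777216 (corTK [] true 1 c0F cB102E gF0q1 gF1q2 gF0q0 gF1q0 true true)) t 3 342 1 = true :=
  ex3_a B102E_010_6_342_1 B102E_010_7_342_1
theorem B102E_010_3_171_1 :
    ∃ t, chk3 (onCell 0 33554432 0 1073741824 33554432 16777216 (corTK [] true 1 c0F cB102E gF0q1 gF1q2 gF0q0 gF1q0 true true)) t 3 171 1 = true :=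
  ex3_b B102E_010_3_342_1 B102E_010_3_343_1
theorem B102E_010_11_684_3 :
    ∃ t, chk3 (onCell 0 33554432 0 1073741824 33554432 16777216 (corTK [] true 1 c0F cB102E gF0q1 gF1q2 gF0q0 gF1q0 true true)) t 11 684 3 = true :=
  ex3_c B102E_010_11_684_6 B102E_010_11_684_7
theorem B102E_010_11_342_3 :
    ∃ t, chk3 (onCell 0 33554432 0 1073741824 33554432 16777216 (corTK [] true 1 c0F cB102E gF0q1 gF1q2 gF0q0 gF1q0 true true)) t 11 342 3 = true :=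
  ex3_b B102E_010_11_684_3 B102E_010_11_685_3
theorem B102E_010_11_1369_5 :
    ∃ t, chk3 (onCell 0 33554432 0 1073741824 33554432 16777216 (corTK [] true 1 c0F cB102E gF0q1 gF1q2 gF0q0 gF1q0 true true)) t 11 1369 5 = true :=
  ex3_a B102E_010_22_1369_5 B102E_010_23_1369_5
theorem B102E_010_11_684_5 :
    ∃ t, chk3 (onCell 0 33554432 0 1073741824 33554432 16777216 (corTK [] true 1 c0F cB102E gF0q1 gF1q2 gF0q0 gF1q0 true true)) t 11 684 5 = true :=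
  ex3_b B102E_010_11_1368_5 B102E_010_11_1369_5
theorem B102E_010_11_1369_4 :
    ∃ t, chk3 (onCell 0 33554432 0 1073741824 33554432 16777216 (corTK [] true 1 c0F cB102E gF0q1 gF1q2 gF0q0 gF1q0 true true)) t 11 1369 4 = true :=
  ex3_a B102E_010_22_1369_4 B102E_010_23_1369_4
theorem B102E_010_11_684_4 :
    ∃ t, chk3 (onCell 0 33554432 0 1073741824 33554432 16777216 (corTK [] true 1 c0F cB102E gF0q1 gF1q2 gF0q0 gF1q0 true true)) t 11 684 4 = true :=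
  ex3_b B102E_010_11_1368_4 B102E_010_11_1369_4
theorem B102E_010_11_684_2 :
    ∃ t, chk3 (onCell 0 33554432 0 1073741824 33554432 16777216 (corTK [] true 1 c0F cB102E gF0q1 gF1q2 gF0q0 gF1q0 true true)) t 11 684 2 = true :=
  ex3_c B102E_010_11_684_4 B102E_010_11_684_5
theorem B102E_010_11_342_2 :
    ∃ t, chk3 (onCell 0 33554432 0 1073741824 33554432 16777216 (corTK [] true 1 c0F cB102E gF0q1 gF1q2 gF0q0 gF1q0 true true)) t 11 342 2 = true :=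
  ex3_b B102E_010_11_684_2 B102E_010_11_685_2
theorem B102E_010_11_342_1 :
    ∃ t, chk3 (onCell 0 33554432 0 1073741824 33554432 16777216 (corTK [] true 1 c0F cB102E gF0q1 gF1q2 gF0q0 gF1q0 true true)) t 11 342 1 = true :=
  ex3_c B102E_010_11_342_2 B102E_010_11_342_3
theorem B102E_010_11_171_1 :
    ∃ t, chk3 (onCell 0 33554432 0 1073741824 33554432 16777216 (corTK [] true 1 c0F cB102E gF0q1 gF1q2 gF0q0 gF1q0 true true)) t 11 171 1 = true :=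
  ex3_b B102E_010_11_342_1 B102E_010_11_343_1
theorem B102E_010_21_684_6 :
    ∃ t, chk3 (onCell 0 33554432 0 1073741824 33554432 16777216 (corTK [] true 1 c0F cB102E gF0q1 gF1q2 gF0q0 gF1q0 true true)) t 21 684 6 = true :=
  ex3_b B102E_010_21_1368_6 B102E_010_21_1369_6
theorem B102E_010_21_684_3 :
    ∃ t, chk3 (onCell 0 33554432 0 1073741824 33554432 16777216 (corTK [] true 1 c0F cB102E gF0q1 gF1q2 gF0q0 gF1q0 true true)) t 21 684 3 = true :=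
  ex3_c B102E_010_21_684_6 B102E_010_21_684_7
theorem B102E_010_21_342_3 :
    ∃ t, chk3 (onCell 0 33554432 0 1073741824 33554432 16777216 (corTK [] true 1 c0F cB102E gF0q1 gF1q2 gF0q0 gF1q0 true true)) t 21 342 3 = true :=
  ex3_b B102E_010_21_684_3 B102E_010_21_685_3
theorem B102E_010_21_684_5 :
    ∃ t, chk3 (onCell 0 33554432 0 1073741824 33554432 16777216 (corTK [] true 1 c0F cB102E gF0q1 gF1q2 gF0q0 gF1q0 true true)) t 21 684 5 = true :=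
  ex3_b B102E_010_21_1368_5 B102E_010_21_1369_5
theorem B102E_010_21_684_4 :
    ∃ t, chk3 (onCell 0 33554432 0 1073741824 33554432 16777216 (corTK [] true 1 c0F cB102E gF0q1 gF1q2 gF0q0 gF1q0 true true)) t 21 684 4 = true :=
  ex3_b B102E_010_21_1368_4 B102E_010_21_1369_4
theorem B102E_010_21_684_2 :
    ∃ t, chk3 (onCell 0 33554432 0 1073741824 33554432 16777216 (corTK [] true 1 c0F cB102E gF0q1 gF1q2 gF0q0 gF1q0 true true)) t 21 684 2 = true :=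
  ex3_c B102E_010_21_684_4 B102E_010_21_684_5
theorem B102E_010_21_342_2 :
    ∃ t, chk3 (onCell 0 33554432 0 1073741824 33554432 16777216 (corTK [] true 1 c0F cB102E gF0q1 gF1q2 gF0q0 gF1q0 true true)) t 21 342 2 = true :=
  ex3_b B102E_010_21_684_2 B102E_010_21_685_2
theorem B102E_010_21_342_1 :
    ∃ t, chk3 (onCell 0 33554432 0 1073741824 33554432 16777216 (corTK [] true 1 c0F cB102E gF0q1 gF1q2 gF0q0 gF1q0 true true)) t 21 342 1 = true :=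
  ex3_c B102E_010_21_342_2 B102E_010_21_342_3
theorem B102E_010_20_342_1 :
    ∃ t, chk3 (onCell 0 33554432 0 1073741824 33554432 16777216 (corTK [] true 1 c0F cB102E gF0q1 gF1q2 gF0q0 gF1q0 true true)) t 20 342 1 = true :=
  ex3_c B102E_010_20_342_2 B102E_010_20_342_3
theorem B102E_010_10_342_1 :
    ∃ t, chk3 (onCell 0 33554432 0 1073741824 33554432 16777216 (corTK [] true 1 c0F cB102E gF0q1 gF1q2 gF0q0 gF1q0 true true)) t 10 342 1 = true :=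
  ex3_a B102E_010_20_342_1 B102E_010_21_342_1
theorem B102E_010_10_171_1 :
    ∃ t, chk3 (onCell 0 33554432 0 1073741824 33554432 16777216 (corTK [] true 1 c0F cB102E gF0q1 gF1q2 gF0q0 gF1q0 true true)) t 10 171 1 = true :=
  ex3_b B102E_010_10_342_1 B102E_010_10_343_1
theorem B102E_010_5_171_1 :
    ∃ t, chk3 (onCell 0 33554432 0 1073741824 33554432 16777216 (corTK [] true 1 c0F cB102E gF0q1 gF1q2 gF0q0 gF1q0 true true)) t 5 171 1 = true :=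
  ex3_a B102E_010_10_171_1 B102E_010_11_171_1
theorem B102E_010_2_171_1 :
    ∃ t, chk3 (onCell 0 33554432 0 1073741824 33554432 16777216 (corTK [] true 1 c0F cB102E gF0q1 gF1q2 gF0q0 gF1q0 true true)) t 2 171 1 = true :=
  ex3_a B102E_010_4_171_1 B102E_010_5_171_1
theorem B102E_010_1_171_1 :
    ∃ t, chk3 (onCell 0 33554432 0 1073741824 33554432 16777216 (corTK [] true 1 c0F cB102E gF0q1 gF1q2 gF0q0 gF1q0 true true)) t 1 171 1 = true :=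
  ex3_a B102E_010_2_171_1 B102E_010_3_171_1
theorem B102E_010_4_341_1 :
    ∃ t, chk3 (onCell 0 33554432 0 1073741824 33554432 16777216 (corTK [] true 1 c0F cB102E gF0q1 gF1q2 gF0q0 gF1q0 true true)) t 4 341 1 = true :=
  ex3_c B102E_010_4_341_2 B102E_010_4_341_3
theorem B102E_010_2_341_1 :
    ∃ t, chk3 (onCell 0 33554432 0 1073741824 33554432 16777216 (corTK [] true 1 c0F cB102E gF0q1 gF1q2 gF0q0 gF1q0 true true)) t 2 341 1 = true :=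
  ex3_a B102E_010_4_341_1 B102E_010_5_341_1
theorem B102E_010_2_170_1 :
    ∃ t, chk3 (onCell 0 33554432 0 1073741824 33554432 16777216 (corTK [] true 1 c0F cB102E gF0q1 gF1q2 gF0q0 gF1q0 true true)) t 2 170 1 = true :=
  ex3_b B102E_010_2_340_1 B102E_010_2_341_1
theorem B102E_010_1_170_1 :
    ∃ t, chk3 (onCell 0 33554432 0 1073741824 33554432 16777216 (corTK [] true 1 c0F cB102E gF0q1 gF1q2 gF0q0 gF1q0 true true)) t 1 170 1 = true :=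
  ex3_a B102E_010_2_170_1 B102E_010_3_170_1
theorem B102E_010_1_85_1 :
    ∃ t, chk3 (onCell 0 33554432 0 1073741824 33554432 16777216 (corTK [] true 1 c0F cB102E gF0q1 gF1q2 gF0q0 gF1q0 true true)) t 1 85 1 = true :=
  ex3_b B102E_010_1_170_1 B102E_010_1_171_1
theorem B102E_010_1_42_1 :
    ∃ t, chk3 (onCell 0 33554432 0 1073741824 33554432 16777216 (corTK [] true 1 c0F cB102E gF0q1 gF1q2 gF0q0 gF1q0 true true)) t 1 42 1 = true :=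
  ex3_b B102E_010_1_84_1 B102E_010_1_85_1
theorem B102E_010_1_21_1 :
    ∃ t, chk3 (onCell 0 33554432 0 1073741824 33554432 16777216 (corTK [] true 1 c0F cB102E gF0q1 gF1q2 gF0q0 gF1q0 true true)) t 1 21 1 = true :=
  ex3_b B102E_010_1_42_1 B102E_010_1_43_1
theorem B102E_010_1_10_1 :
    ∃ t, chk3 (onCell 0 33554432 0 1073741824 33554432 16777216 (corTK [] true 1 c0F cB102E gF0q1 gF1q2 gF0q0 gF1q0 true true)) t 1 10 1 = true :=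
  ex3_b B102E_010_1_20_1 B102E_010_1_21_1
theorem B102E_010_1_5_1 :
    ∃ t, chk3 (onCell 0 33554432 0 1073741824 33554432 16777216 (corTK [] true 1 c0F cB102E gF0q1 gF1q2 gF0q0 gF1q0 true true)) t 1 5 1 = true :=
  ex3_b B102E_010_1_10_1 B102E_010_1_11_1
theorem B102E_010_1_2_1 :
    ∃ t, chk3 (onCell 0 33554432 0 1073741824 33554432 16777216 (corTK [] true 1 c0F cB102E gF0q1 gF1q2 gF0q0 gF1q0 true true)) t 1 2 1 = true :=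
  ex3_b B102E_010_1_4_1 B102E_010_1_5_1
theorem B102E_010 :
    ∃ t, chk3 (onCell 0 33554432 0 1073741824 33554432 16777216 (corTK [] true 1 c0F cB102E gF0q1 gF1q2 gF0q0 gF1q0 true true)) t 1 1 1 = true :=
  ex3_b B102E_010_1_2_1 B102E_010_1_3_1

def B102E_011 :
    ∃ t, chk3 (onCell 0 33554432 0 1073741824 33554432 16777216 (corTK [] true 1 c0F cB102E gF0q1 gF1q2 gF1q0 gF2q0 true true)) t 1 1 1 = true :=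
  ⟨(T.b (T.l 1) (T.b (T.b (T.l 1) (T.a (T.a (T.l 816) (T.l 816)) (T.l 0))) (T.b (T.a (T.a (T.l 816) (T.l 816)) (T.l 0)) (T.a (T.a (T.a (T.l 816) (T.l 816)) (T.l 816)) (T.l 816))))), by decide +kernel⟩

def B102E_012 :
    ∃ t, chk3 (onCell 0 33554432 0 1073741824 33554432 16777216 (corTK [] true 1 c0F cB102E gF0q1 gF1q2 gF2q0 gF3q0 true false)) t 1 1 1 = true :=
  ⟨(T.b (T.l 1) (T.b (T.l 1) (T.b (T.l 1) (T.a (T.b (T.l 1) (T.a (T.a (T.l 816) (T.l 816)) (T.l 816))) (T.l 0))))), by decide +kernel⟩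

def B102E_020 :
    ∃ t, chk3 (onCell 0 33554432 0 1073741824 33554432 16777216 (corTK [[⟨0, 1, 0, 6291456⟩, ⟨1, 0, 1, 16777216⟩, ⟨2, 1, 1, 16777216⟩, ⟨1, 0, 0, 67108864⟩, ⟨1, 1, 0, 1056964608⟩, ⟨2, 1, 0, 67108864⟩, ⟨2, 2, 0, 1056964608⟩]] true 1 c0F cB102E gF0q1 gF2q2 gF0q0 gF1q0 true true)) t 1 1 1 = true :=
  ⟨(T.b (T.b (T.b (T.a (T.a (T.a (T.b (T.b (T.b (T.b (T.a (T.l 204) (T.c (T.b (T.l 204) (T.l 204)) (T.l 204))) (T.l 204)) (T.l 204)) (T.l 204)) (T.l 204)) (T.b (T.b (T.b (T.b (T.a (T.b (T.c (T.b (T.a (T.a (T.a (T.c (T.l 220) (T.l 204)) (T.l 204)) (T.l 204)) (T.c (T.l 204) (T.l 204))) (T.l 204)) (T.b (T.a (T.a (T.a (T.c (T.l 204) (T.l 204)) (T.l 204)) (T.l 204)) (T.c (T.l 204) (T.l 204))) (T.l 204))) (T.l 204)) (T.b (T.c (T.b (T.c (T.a (T.l 204) (T.a (T.l 204) (T.l 204))) (T.a (T.l 204) (T.a (T.l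 204) (T.l 204)))) (T.l 204)) (T.b (T.a (T.l 220) (T.a (T.l 204) (T.c (T.l 204) (T.l 204)))) (T.l 204))) (T.l 204))) (T.l 204)) (T.l 204)) (T.l 204)) (T.l 0))) (T.b (T.b (T.a (T.b (T.b (T.b (T.c (T.b (T.a (T.c (T.a (T.l 204) (T.l 204)) (T.a (T.l 204) (T.l 204))) (T.c (T.a (T.l 204) (T.l 204)) (T.a (T.l 204) (T.l 204)))) (T.l 204)) (T.b (T.a (T.a (T.c (T.l 204) (T.l 204)) (T.l 220)) (T.a (T.l 204) (T.l 220))) (T.l 204))) (T.l 204)) (T.l 204)) (T.l 204)) (T.b (T.b (T.b (T.a (T.c (T.b (T.c (T.a (T.l 220) (T.a (T.l 204) (T.l 220))) (T.a (T.l 204) (T.c (T.l 220) (T.l 220)))) (T.l 204)) (T.b (T.a (T.l 220) (T.a (T.l 204) (T.l 220))) (T.l 204))) (T.c (T.b (T.c (T.b (T.c (T.b (T.a (T.a (T.l 220) (T.l 220)) (T.a (T.l 220) (T.l 476))) (T.l 204)) (T.b (T.a (T.a (T.l 204) (T.l 220)) (T.a (T.l 220) (T.l 476))) (T.l 204)))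 (T.l 204)) (T.b (T.c (T.a (T.l 220) (T.a (T.l 220) (T.l 476))) (T.a (T.l 220) (T.a (T.l 204) (T.l 476)))) (T.l 204))) (T.l 204)) (T.b (T.c (T.b (T.a (T.l 220) (T.a (T.l 204) (T.l 476))) (T.l 204)) (T.a (T.l 220) (T.c (T.l 476) (T.l 476)))) (T.l 204)))) (T.l 204)) (T.l 204)) (T.l 204))) (T.l 0)) (T.l 0))) (T.b (T.b (T.a (T.b (T.b (T.a (T.b (T.c (T.b (T.a (T.c (T.b (T.c (T.b (T.c (T.b (T.a (T.a (T.l 476) (T.l 476)) (T.a (T.l 476) (T.l 1024))) (T.l 476)) (T.b (T.a (T.a (T.l 476) (T.l 476)) (T.a (T.l 476) (T.l 476))) (T.l 476))) (T.l 204)) (T.b (T.c (T.b (T.a (T.a (T.l 476) (T.l 476)) (T.a (T.l 476) (T.l 476))) (T.l 476)) (T.b (T.a (T.a (T.l 476) (T.l 476)) (T.a (T.l 476) (T.l 476))) (T.l 476))) (T.l 204))) (T.l 204)) (T.b (T.c (T.b (T.c (T.b (T.a (T.a (T.l 476) (T.l 476)) (T.l 476)) (T.l 476)) (T.a (T.l 476)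 (T.l 476))) (T.l 204)) (T.b (T.c (T.a (T.l 476) (T.l 476)) (T.a (T.l 476) (T.l 476))) (T.l 204))) (T.l 204))) (T.c (T.b (T.c (T.a (T.a (T.l 476) (T.l 1024)) (T.l 1024)) (T.b (T.c (T.b (T.a (T.a (T.l 476) (T.l 476)) (T.a (T.l 476) (T.l 1024))) (T.l 204)) (T.b (T.a (T.a (T.l 476) (T.l 476)) (T.a (T.l 476) (T.l 476))) (T.l 204))) (T.l 204))) (T.l 204)) (T.b (T.c (T.b (T.c (T.b (T.a (T.a (T.l 476) (T.l 476)) (T.a (T.l 476) (T.l 476))) (T.l 204)) (T.a (T.l 476) (T.l 476))) (T.l 204)) (T.b (T.c (T.a (T.l 476) (T.l 476)) (T.a (T.l 476) (T.l 476))) (T.l 204))) (T.l 204)))) (T.l 204)) (T.b (T.a (T.c (T.b (T.c (T.a (T.l 476) (T.l 476)) (T.a (T.l 476) (T.l 476))) (T.l 204)) (T.a (T.c (T.l 476) (T.l 476)) (T.l 476))) (T.c (T.b (T.c (T.a (T.l 476) (T.l 476)) (T.a (T.l 476) (T.l 476))) (T.l 204)) (T.a (T.l 476) (T.l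 476)))) (T.l 204))) (T.l 204)) (T.b (T.c (T.b (T.c (T.a (T.a (T.c (T.l 1024) (T.a (T.l 476) (T.l 1024))) (T.l 1024)) (T.l 1024)) (T.b (T.a (T.c (T.b (T.c (T.b (T.a (T.a (T.l 476) (T.l 476)) (T.a (T.l 476) (T.l 1024))) (T.l 204)) (T.a (T.l 476) (T.a (T.l 476) (T.l 476)))) (T.l 204)) (T.b (T.c (T.a (T.l 476) (T.l 476)) (T.a (T.l 476) (T.l 476))) (T.l 204))) (T.c (T.a (T.a (T.l 476) (T.l 1024)) (T.l 1024)) (T.b (T.c (T.a (T.l 476) (T.a (T.l 476) (T.l 1024))) (T.a (T.l 476) (T.l 476))) (T.l 204)))) (T.l 204))) (T.l 204)) (T.b (T.c (T.b (T.a (T.c (T.a (T.l 476) (T.l 476)) (T.a (T.l 476) (T.l 476))) (T.c (T.a (T.l 476) (T.a (T.l 476) (T.l 476))) (T.a (T.l 476) (T.l 476)))) (T.l 204)) (T.b (T.a (T.a (T.l 476) (T.l 476)) (T.a (T.l 476) (T.l 476))) (T.l 204))) (T.l 204))) (T.l 204))) (T.l 204)) (T.l 204)) (T.b (T.b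 (T.b (T.a (T.c (T.a (T.a (T.c (T.l 1024) (T.c (T.l 1024) (T.a (T.l 476) (T.l 1024)))) (T.l 1024)) (T.l 1024)) (T.b (T.c (T.b (T.a (T.c (T.b (T.c (T.a (T.l 476) (T.l 476)) (T.a (T.l 476) (T.l 476))) (T.l 204)) (T.a (T.l 476) (T.l 476))) (T.c (T.a (T.a (T.l 476) (T.l 1024)) (T.l 1024)) (T.a (T.l 476) (T.a (T.l 476) (T.l 476))))) (T.l 204)) (T.b (T.a (T.a (T.l 476) (T.l 476)) (T.c (T.a (T.l 476) (T.l 476)) (T.a (T.l 476) (T.l 476)))) (T.l 204))) (T.l 204))) (T.c (T.l 1024) (T.b (T.c (T.a (T.a (T.c (T.l 1024) (T.a (T.l 476) (T.l 1024))) (T.l 1024)) (T.l 1024)) (T.b (T.c (T.b (T.a (T.a (T.l 476) (T.l 476)) (T.a (T.l 476) (T.l 1024))) (T.l 476)) (T.b (T.a (T.a (T.l 476) (T.l 476)) (T.a (T.l 476) (T.l 476))) (T.l 476))) (T.l 204))) (T.l 204)))) (T.l 204)) (T.l 204)) (T.l 204))) (T.l 0)) (T.l 0))) (T.a (T.a (T.a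 (T.l 0) (T.l 0)) (T.l 0)) (T.b (T.l 0) (T.l 0)))) (T.a (T.a (T.a (T.l 816) (T.l 0)) (T.l 0)) (T.b (T.l 0) (T.l 0)))) (T.b (T.b (T.b (T.a (T.a (T.l 816) (T.l 2)) (T.l 2)) (T.l 2)) (T.l 2)) (T.l 2))), by decide +kernel⟩

def B102E_021 :
    ∃ t, chk3 (onCell 0 33554432 0 1073741824 33554432 16777216 (corTK [[⟨0, 1, 0, 6291456⟩, ⟨1, 0, 1, 16777216⟩, ⟨2, 1, 1, 16777216⟩, ⟨1, 0, 0, 67108864⟩, ⟨1, 1, 0, 1056964608⟩, ⟨2, 1, 0, 67108864⟩, ⟨2, 2, 0, 1056964608⟩]] true 1 c0F cB102E gF0q1 gF2q2 gF1q0 gF2q0 true true)) t 1 1 1 = true :=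
  ⟨(T.b (T.b (T.l 1) (T.b (T.l 1) (T.a (T.a (T.a (T.l 816) (T.l 816)) (T.l 0)) (T.l 0)))) (T.b (T.a (T.a (T.l 816) (T.l 0)) (T.l 0)) (T.b (T.a (T.a (T.l 816) (T.l 816)) (T.l 816)) (T.a (T.a (T.a (T.l 816) (T.l 816)) (T.l 816)) (T.l 816))))), by decide +kernel⟩

def B102E_022 :
    ∃ t, chk3 (onCell 0 33554432 0 1073741824 33554432 16777216 (corTK [[⟨0, 1, 0, 6291456⟩, ⟨1, 0, 1, 16777216⟩, ⟨2, 1, 1, 16777216⟩, ⟨1, 0, 0, 67108864⟩, ⟨1, 1, 0, 1056964608⟩, ⟨2, 1, 0, 67108864⟩, ⟨2, 2, 0, 1056964608⟩]] true 1 c0F cB102E gF0q1 gF2q2 gF2q0 gF3q0 true false)) t 1 1 1 = true :=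
  ⟨(T.b (T.l 1) (T.b (T.l 1) (T.b (T.l 1) (T.a (T.b (T.l 1) (T.a (T.a (T.l 816) (T.l 816)) (T.l 816))) (T.l 816))))), by decide +kernel⟩

def B102L_200 :
    ∃ t, chk3 (onCell 0 33554432 0 1073741824 33554432 16777216 (corTK [[⟨0, 1, 2, 25165824⟩, ⟨1, 0, 1, 25165824⟩, ⟨2, 1, 0, 7864320⟩, ⟨0, 0, 0, 1056964608⟩, ⟨0, 1, 0, 67108864⟩, ⟨1, 0, 0, 67108864⟩, ⟨1, 1, 0, 1056964608⟩]] true 1 c0F cB102L gF2q1 gF0q2 gF0q0 gF1q0 true true)) t 1 1 1 = true :=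
  ⟨(T.b (T.b (T.l 2) (T.b (T.l 2) (T.b (T.l 2) (T.a (T.a (T.l 816) (T.l 2)) (T.l 2))))) (T.b (T.b (T.a (T.a (T.a (T.l 816) (T.l 816)) (T.l 0)) (T.l 0)) (T.a (T.a (T.a (T.l 816) (T.l 816)) (T.l 0)) (T.b (T.l 0) (T.l 0)))) (T.b (T.b (T.a (T.a (T.a (T.l 816) (T.l 816)) (T.l 0)) (T.l 0)) (T.a (T.a (T.a (T.l 816) (T.l 816)) (T.l 0)) (T.l 0))) (T.a (T.a (T.a (T.b (T.l 816) (T.b (T.l 816) (T.l 816))) (T.b (T.l 816) (T.b (T.l 816) (T.b (T.l 880) (T.a (T.b (T.l 816) (T.a (T.a (T.l 816) (T.l 816)) (T.l 816))) (T.a (T.l 816) (T.l 816))))))) (T.b (T.l 0) (T.a (T.b (T.l 816) (T.b (T.l 816) (T.b (T.l 816) (T.a (T.a (T.l 880) (T.c (T.l 816) (T.l 816))) (T.b (T.l 816) (T.c (T.a (T.l 816) (T.c (T.l 880) (T.l 816))) (T.a (T.l 816) (T.l 816)))))))) (T.b (T.l 816) (T.b (T.l 816) (T.b (T.l 816) (T.a (T.b (T.l 816) (T.c (T.b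 (T.l 816) (T.c (T.b (T.l 816) (T.a (T.c (T.l 880) (T.l 816)) (T.a (T.l 816) (T.l 880)))) (T.a (T.l 816) (T.c (T.l 884) (T.l 820))))) (T.a (T.l 816) (T.a (T.l 816) (T.l 816))))) (T.b (T.l 816) (T.c (T.b (T.l 816) (T.c (T.b (T.l 816) (T.a (T.a (T.l 880) (T.l 884)) (T.c (T.a (T.l 884) (T.c (T.l 884) (T.l 884))) (T.a (T.l 884) (T.l 884))))) (T.b (T.l 816) (T.a (T.a (T.l 816) (T.l 816)) (T.a (T.l 884) (T.l 884)))))) (T.b (T.l 816) (T.c (T.b (T.l 816) (T.a (T.a (T.l 816) (T.l 816)) (T.a (T.l 816) (T.l 884)))) (T.b (T.l 816) (T.a (T.c (T.l 820) (T.l 820)) (T.a (T.l 816) (T.l 816))))))))))))))) (T.a (T.b (T.l 816) (T.b (T.l 816) (T.b (T.l 816) (T.a (T.b (T.l 816) (T.b (T.l 816) (T.a (T.c (T.a (T.a (T.b (T.l 816) (T.a (T.c (T.l 884) (T.l 884)) (T.l 1024))) (T.l 1024)) (T.l 1024)) (T.b (T.l 816) (T.c (T.b (T.l 816)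 (T.a (T.a (T.l 884) (T.l 884)) (T.a (T.l 884) (T.l 884)))) (T.b (T.l 816) (T.c (T.b (T.l 820) (T.a (T.a (T.l 816) (T.l 816)) (T.a (T.l 816) (T.l 816)))) (T.a (T.a (T.l 816) (T.l 816)) (T.l 884))))))) (T.c (T.l 1024) (T.b (T.l 816) (T.c (T.b (T.l 816) (T.c (T.a (T.a (T.l 884) (T.l 1024)) (T.l 1024)) (T.b (T.l 816) (T.a (T.a (T.l 884) (T.l 884)) (T.a (T.l 884) (T.l 884)))))) (T.b (T.l 816) (T.c (T.b (T.l 816) (T.a (T.a (T.l 816) (T.l 884)) (T.a (T.l 884) (T.l 884)))) (T.a (T.l 884) (T.l 884)))))))))) (T.c (T.l 1024) (T.b (T.l 816) (T.b (T.l 816) (T.b (T.l 816) (T.a (T.c (T.a (T.a (T.l 884) (T.l 1024)) (T.l 1024)) (T.b (T.l 816) (T.c (T.b (T.l 816) (T.a (T.a (T.l 884) (T.l 884)) (T.a (T.l 884) (T.l 884)))) (T.a (T.l 884) (T.l 884))))) (T.c (T.l 1024) (T.b (T.l 816) (T.c (T.a (T.a (T.l 884) (T.l 1024)) (T.l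 1024)) (T.a (T.l 884) (T.a (T.l 884) (T.l 884))))))))))))))) (T.b (T.l 816) (T.a (T.b (T.l 816) (T.a (T.b (T.l 816) (T.a (T.c (T.l 1024) (T.b (T.l 816) (T.c (T.l 1024) (T.b (T.l 816) (T.a (T.l 884) (T.l 1024)))))) (T.l 1024))) (T.l 1024))) (T.l 1024)))))))), by decide +kernel⟩

def B102L_201 :
    ∃ t, chk3 (onCell 0 33554432 0 1073741824 33554432 16777216 (corTK [[⟨0, 1, 2, 25165824⟩, ⟨1, 0, 1, 25165824⟩, ⟨2, 1, 0, 7864320⟩, ⟨0, 0, 0, 1056964608⟩, ⟨0, 1, 0, 67108864⟩, ⟨1, 0, 0, 67108864⟩, ⟨1, 1, 0, 1056964608⟩]] true 1 c0F cB102L gF2q1 gF0q2 gF1q0 gF2q0 true true)) t 1 1 1 = true :=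
  ⟨(T.b (T.b (T.b (T.a (T.a (T.a (T.l 816) (T.l 0)) (T.l 0)) (T.l 0)) (T.a (T.a (T.a (T.l 816) (T.l 816)) (T.l 0)) (T.l 0))) (T.b (T.a (T.a (T.l 816) (T.l 0)) (T.l 0)) (T.a (T.a (T.l 816) (T.l 0)) (T.l 0)))) (T.b (T.b (T.a (T.a (T.a (T.l 816) (T.l 816)) (T.l 0)) (T.l 0)) (T.l 1)) (T.l 1))), by decide +kernel⟩

def B102L_202 :
    ∃ t, chk3 (onCell 0 33554432 0 1073741824 33554432 16777216 (corTK [[⟨0, 1, 2, 25165824⟩, ⟨1, 0, 1, 25165824⟩, ⟨2, 1, 0, 7864320⟩, ⟨0, 0, 0, 1056964608⟩, ⟨0, 1, 0, 67108864⟩, ⟨1, 0, 0, 67108864⟩, ⟨1, 1, 0, 1056964608⟩]] true 1 c0F cB102L gF2q1 gF0q2 gF2q0 gF3q0 true false)) t 1 1 1 = true :=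
  ⟨(T.b (T.b (T.b (T.a (T.a (T.a (T.l 0) (T.l 0)) (T.l 0)) (T.l 0)) (T.l 1)) (T.l 1)) (T.l 1)), by decide +kernel⟩

def B102L_210 :
    ∃ t, chk3 (onCell 0 33554432 0 1073741824 33554432 16777216 (corTK [[⟨0, 1, 2, 25165824⟩, ⟨1, 0, 1, 25165824⟩, ⟨2, 1, 0, 16777216⟩, ⟨0, 0, 0, 1056964608⟩, ⟨0, 1, 0, 67108864⟩, ⟨1, 0, 0, 67108864⟩, ⟨1, 1, 0, 1056964608⟩]] true 1 c0F cB102L gF2q1 gF1q2 gF0q0 gF1q0 true true)) t 1 1 1 = true :=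
  ⟨(T.b (T.b (T.b (T.a (T.a (T.a (T.l 816) (T.l 0)) (T.l 0)) (T.l 0)) (T.a (T.a (T.l 816) (T.l 0)) (T.l 0))) (T.a (T.a (T.l 816) (T.b (T.l 0) (T.l 0))) (T.b (T.l 0) (T.l 0)))) (T.b (T.a (T.a (T.a (T.l 816) (T.l 0)) (T.b (T.l 0) (T.l 0))) (T.a (T.b (T.l 0) (T.l 0)) (T.l 0))) (T.b (T.a (T.a (T.a (T.l 816) (T.l 0)) (T.l 0)) (T.b (T.l 0) (T.l 0))) (T.b (T.a (T.a (T.a (T.l 816) (T.l 816)) (T.a (T.l 816) (T.l 816))) (T.a (T.l 816) (T.l 816))) (T.b (T.a (T.a (T.a (T.l 816) (T.b (T.l 816) (T.l 816))) (T.a (T.l 816) (T.l 816))) (T.a (T.l 816) (T.l 816))) (T.b (T.b (T.b (T.a (T.a (T.a (T.l 816) (T.l 816)) (T.a (T.l 816) (T.l 816))) (T.a (T.l 816) (T.l 816))) (T.a (T.a (T.a (T.l 816) (T.c (T.l 816) (T.l 816))) (T.a (T.l 816) (T.l 816))) (T.a (T.l 816) (T.l 816)))) (T.b (T.a (T.a (T.a (T.l 816) (T.a (T.l 816) (T.l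 816))) (T.a (T.l 816) (T.l 816))) (T.a (T.a (T.l 816) (T.l 816)) (T.l 816))) (T.a (T.c (T.a (T.a (T.l 816) (T.a (T.l 816) (T.l 816))) (T.a (T.l 816) (T.l 816))) (T.b (T.a (T.a (T.l 816) (T.a (T.l 816) (T.l 816))) (T.a (T.l 816) (T.l 816))) (T.a (T.a (T.l 816) (T.a (T.l 816) (T.l 816))) (T.a (T.l 816) (T.l 816))))) (T.a (T.a (T.l 816) (T.l 816)) (T.l 816))))) (T.b (T.b (T.a (T.c (T.b (T.a (T.a (T.l 816) (T.a (T.l 816) (T.l 816))) (T.a (T.l 816) (T.l 816))) (T.a (T.a (T.l 816) (T.a (T.l 816) (T.l 816))) (T.a (T.l 816) (T.l 816)))) (T.b (T.a (T.a (T.l 816) (T.a (T.l 816) (T.l 816))) (T.a (T.l 816) (T.l 816))) (T.a (T.a (T.l 816) (T.a (T.l 816) (T.l 816))) (T.a (T.l 816) (T.l 816))))) (T.a (T.a (T.l 816) (T.l 816)) (T.l 816))) (T.a (T.c (T.b (T.a (T.a (T.l 816) (T.a (T.l 816) (T.l 816))) (T.a (T.l 816) (T.l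 816))) (T.a (T.a (T.l 816) (T.a (T.l 816) (T.l 816))) (T.a (T.a (T.l 816) (T.l 816)) (T.l 816)))) (T.b (T.a (T.a (T.l 816) (T.a (T.l 816) (T.l 816))) (T.a (T.l 816) (T.l 816))) (T.a (T.a (T.l 816) (T.a (T.l 816) (T.l 816))) (T.a (T.a (T.l 816) (T.l 816)) (T.l 816))))) (T.a (T.a (T.l 816) (T.l 816)) (T.a (T.l 816) (T.l 1024))))) (T.b (T.a (T.c (T.b (T.a (T.a (T.l 816) (T.a (T.l 816) (T.l 816))) (T.a (T.a (T.l 816) (T.l 816)) (T.a (T.l 816) (T.l 816)))) (T.a (T.a (T.l 816) (T.a (T.c (T.l 816) (T.l 816)) (T.l 816))) (T.a (T.a (T.l 816) (T.l 816)) (T.a (T.l 816) (T.l 816))))) (T.b (T.a (T.a (T.l 816) (T.a (T.l 816) (T.l 816))) (T.a (T.a (T.l 816) (T.l 816)) (T.a (T.l 816) (T.l 816)))) (T.a (T.a (T.l 816) (T.a (T.l 816) (T.l 816))) (T.a (T.a (T.l 816) (T.l 816)) (T.a (T.l 816) (T.l 816)))))) (T.a (T.a (T.a (T.l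 816) (T.l 816)) (T.c (T.l 1024) (T.l 816))) (T.a (T.l 816) (T.l 1024)))) (T.a (T.c (T.b (T.a (T.a (T.l 816) (T.a (T.a (T.l 816) (T.l 816)) (T.l 816))) (T.a (T.a (T.l 816) (T.l 816)) (T.a (T.l 816) (T.l 816)))) (T.a (T.a (T.l 816) (T.a (T.a (T.c (T.l 816) (T.l 816)) (T.l 816)) (T.a (T.l 816) (T.l 816)))) (T.c (T.b (T.a (T.a (T.a (T.l 816) (T.l 816)) (T.a (T.l 816) (T.l 816))) (T.a (T.a (T.l 816) (T.l 816)) (T.a (T.l 816) (T.l 816)))) (T.a (T.a (T.a (T.l 816) (T.l 816)) (T.a (T.l 816) (T.l 816))) (T.a (T.a (T.c (T.l 880) (T.l 816)) (T.a (T.l 816) (T.l 880))) (T.a (T.a (T.l 880) (T.l 884)) (T.c (T.a (T.l 884) (T.c (T.l 884) (T.l 884))) (T.a (T.l 884) (T.l 884))))))) (T.b (T.a (T.a (T.l 816) (T.l 816)) (T.a (T.a (T.l 816) (T.l 816)) (T.a (T.l 816) (T.l 816)))) (T.a (T.a (T.a (T.l 816) (T.l 816)) (T.a (T.l 816)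 (T.l 816))) (T.a (T.a (T.l 816) (T.c (T.l 884) (T.l 820))) (T.a (T.a (T.l 816) (T.l 816)) (T.a (T.l 884) (T.l 884))))))))) (T.b (T.a (T.a (T.l 816) (T.a (T.a (T.l 816) (T.l 816)) (T.l 816))) (T.a (T.a (T.l 816) (T.l 816)) (T.a (T.l 816) (T.l 816)))) (T.a (T.a (T.l 816) (T.a (T.a (T.l 816) (T.l 816)) (T.a (T.l 816) (T.l 816)))) (T.c (T.b (T.a (T.a (T.l 816) (T.l 816)) (T.a (T.a (T.l 816) (T.l 816)) (T.a (T.l 816) (T.l 816)))) (T.a (T.a (T.a (T.l 816) (T.l 816)) (T.a (T.l 816) (T.l 816))) (T.a (T.a (T.l 816) (T.c (T.l 820) (T.l 816))) (T.a (T.a (T.l 816) (T.l 816)) (T.a (T.l 816) (T.l 884)))))) (T.b (T.a (T.a (T.l 816) (T.l 816)) (T.a (T.a (T.l 816) (T.l 816)) (T.a (T.l 816) (T.l 816)))) (T.a (T.a (T.a (T.l 816) (T.l 816)) (T.a (T.l 816) (T.l 816))) (T.a (T.a (T.l 816) (T.l 820)) (T.a (T.c (T.l 820) (T.l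 820)) (T.a (T.l 816) (T.l 816)))))))))) (T.c (T.a (T.a (T.a (T.a (T.a (T.b (T.l 816) (T.a (T.c (T.l 884) (T.l 884)) (T.l 1024))) (T.l 1024)) (T.l 1024)) (T.l 1024)) (T.l 1024)) (T.l 1024)) (T.b (T.a (T.a (T.a (T.l 816) (T.l 816)) (T.a (T.l 816) (T.l 816))) (T.a (T.a (T.l 816) (T.l 1024)) (T.l 1024))) (T.a (T.c (T.b (T.a (T.a (T.l 884) (T.l 816)) (T.a (T.l 816) (T.l 1024))) (T.a (T.a (T.a (T.a (T.l 884) (T.l 884)) (T.a (T.l 884) (T.l 884))) (T.a (T.a (T.l 884) (T.l 884)) (T.a (T.l 884) (T.l 884)))) (T.a (T.a (T.a (T.l 884) (T.l 1024)) (T.l 1024)) (T.l 1024)))) (T.b (T.a (T.a (T.l 884) (T.l 816)) (T.a (T.l 816) (T.l 816))) (T.a (T.a (T.a (T.a (T.l 816) (T.l 816)) (T.a (T.l 816) (T.l 884))) (T.a (T.a (T.l 884) (T.l 884)) (T.a (T.l 884) (T.l 884)))) (T.a (T.a (T.a (T.l 884) (T.l 884)) (T.a (T.l 884) (T.l 884)))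 (T.a (T.a (T.l 884) (T.l 884)) (T.a (T.l 884) (T.l 884))))))) (T.a (T.a (T.a (T.c (T.l 1024) (T.a (T.l 884) (T.l 1024))) (T.l 1024)) (T.l 1024)) (T.l 1024)))))))))))))), by decide +kernel⟩

def B102L_211 :
    ∃ t, chk3 (onCell 0 33554432 0 1073741824 33554432 16777216 (corTK [[⟨0, 1, 2, 25165824⟩, ⟨1, 0, 1, 25165824⟩, ⟨2, 1, 0, 16777216⟩, ⟨0, 0, 0, 1056964608⟩, ⟨0, 1, 0, 67108864⟩, ⟨1, 0, 0, 67108864⟩, ⟨1, 1, 0, 1056964608⟩]] true 1 c0F cB102L gF2q1 gF1q2 gF1q0 gF2q0 true true)) t 1 1 1 = true :=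
  ⟨(T.b (T.b (T.b (T.a (T.a (T.a (T.l 816) (T.l 0)) (T.l 0)) (T.l 0)) (T.l 1)) (T.l 1)) (T.l 1)), by decide +kernel⟩

def B102L_212 :
    ∃ t, chk3 (onCell 0 33554432 0 1073741824 33554432 16777216 (corTK [[⟨0, 1, 2, 25165824⟩, ⟨1, 0, 1, 25165824⟩, ⟨2, 1, 0, 16777216⟩, ⟨0, 0, 0, 1056964608⟩, ⟨0, 1, 0, 67108864⟩, ⟨1, 0, 0, 67108864⟩, ⟨1, 1, 0, 1056964608⟩]] true 1 c0F cB102L gF2q1 gF1q2 gF2q0 gF3q0 true false)) t 1 1 1 = true :=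
  ⟨(T.l 1), by decide +kernel⟩

end Pool.Agent.Strip051.G.I1_32_3_64.Tab.CF
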