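import Pool.Agent.Strip051.G.I1_32_3_64.Gn
import Pool.Agent.Strip051.PB.Corns
import Pool.Agent.Strip051.PB.CornK

/-! # Certificates of the aligned corners (generated) -/

set_option linter.all false

namespace Pool.Agent.Strip051.G.I1_32_3_64.Tab.CF

open Pool.Agent.Strip051.PB

def B202E_020_4_512_4 :
    ∃ t, chk3 (onCell 0 33554432 0 1073741824 33554432 16777216 (corTK [[⟨0, 1, 0, 6291456⟩, ⟨1, 0, 1, 16777216⟩, ⟨2, 1, 1, 16777216⟩, ⟨1, 0, 0, 67108864⟩, ⟨1, 1, 0, 1056964608⟩, ⟨2, 1, 0, 67108864⟩, ⟨2, 2, 0, 1056964608⟩]] true 1 c0F cB202E gF0q2 gF2q2 gF0q0 gF1q0 true true)) t 4 512 4 = true :=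
  ⟨(T.b (T.a (T.c (T.b (T.a (T.c (T.b (T.l 204) (T.l 1)) (T.b (T.l 204) (T.l 1))) (T.c (T.b (T.a (T.l 204) (T.c (T.b (T.a (T.l 204) (T.c (T.b (T.l 204) (T.l 1)) (T.b (T.l 204) (T.l 1)))) (T.l 1)) (T.b (T.a (T.l 204) (T.c (T.b (T.l 204) (T.l 1)) (T.b (T.l 204) (T.l 1)))) (T.l 1)))) (T.l 1)) (T.b (T.a (T.l 204) (T.c (T.b (T.a (T.l 204) (T.c (T.b (T.l 204) (T.l 1)) (T.b (T.l 204) (T.l 1)))) (T.l 1)) (T.b (T.a (T.l 204) (T.c (T.b (T.l 204) (T.l 1)) (T.b (T.l 204) (T.l 1)))) (T.l 1)))) (T.l 1)))) (T.l 1)) (T.b (T.a (T.c (T.b (T.l 204) (T.l 1)) (T.b (T.l 204) (T.l 1))) (T.c (T.b (T.a (T.l 204) (T.c (T.b (T.a (T.l 204) (T.c (T.b (T.l 204) (T.l 1)) (T.b (T.l 204) (T.l 1)))) (T.l 1)) (T.b (T.a (T.l 204) (T.c (T.b (T.l 204) (T.l 1)) (T.b (T.l 204) (T.l 1)))) (T.l 1))))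 (T.l 1)) (T.b (T.a (T.l 204) (T.c (T.b (T.a (T.l 204) (T.c (T.b (T.l 204) (T.l 1)) (T.b (T.l 204) (T.l 1)))) (T.l 1)) (T.b (T.a (T.l 204) (T.c (T.b (T.l 204) (T.l 1)) (T.b (T.l 204) (T.l 1)))) (T.l 1)))) (T.l 1)))) (T.l 1))) (T.c (T.b (T.a (T.c (T.b (T.a (T.c (T.b (T.a (T.c (T.b (T.a (T.a (T.l 204) (T.l 204)) (T.l 204)) (T.l 1)) (T.b (T.a (T.a (T.l 204) (T.l 204)) (T.l 204)) (T.l 1))) (T.l 220)) (T.l 1)) (T.b (T.a (T.c (T.b (T.a (T.a (T.l 204) (T.l 204)) (T.l 204)) (T.l 1)) (T.b (T.a (T.a (T.l 204) (T.l 204)) (T.l 204)) (T.l 1))) (T.l 220)) (T.l 1))) (T.c (T.b (T.a (T.l 204) (T.l 204)) (T.l 1)) (T.b (T.a (T.l 204) (T.l 204)) (T.l 1)))) (T.l 1)) (T.b (T.a (T.c (T.b (T.a (T.c (T.b (T.a (T.a (T.l 204) (T.l 204)) (T.l 204)) (T.l 1)) (T.b (T.a (T.a (T.l 204) (T.l 204))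 (T.l 204)) (T.l 1))) (T.l 220)) (T.l 1)) (T.b (T.a (T.c (T.b (T.a (T.a (T.l 204) (T.l 204)) (T.l 204)) (T.l 1)) (T.b (T.a (T.a (T.l 204) (T.l 204)) (T.l 204)) (T.l 1))) (T.l 220)) (T.l 1))) (T.c (T.b (T.a (T.l 204) (T.l 204)) (T.l 1)) (T.b (T.a (T.l 204) (T.l 204)) (T.l 1)))) (T.l 1))) (T.c (T.b (T.a (T.c (T.b (T.l 220) (T.l 1)) (T.b (T.l 220) (T.l 1))) (T.c (T.b (T.a (T.l 204) (T.c (T.b (T.l 220) (T.l 1)) (T.b (T.l 220) (T.l 1)))) (T.l 1)) (T.b (T.a (T.l 204) (T.c (T.b (T.l 220) (T.l 1)) (T.b (T.l 220) (T.l 1)))) (T.l 1)))) (T.l 1)) (T.b (T.a (T.c (T.b (T.l 220) (T.l 1)) (T.b (T.l 220) (T.l 1))) (T.c (T.b (T.a (T.l 204) (T.c (T.b (T.l 220) (T.l 1)) (T.b (T.l 220) (T.l 1)))) (T.l 1)) (T.b (T.a (T.l 204) (T.c (T.b (T.l 220) (T.l 1)) (T.b (T.l 204) (T.l 1)))) (T.l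 1)))) (T.l 1)))) (T.l 1)) (T.b (T.a (T.c (T.b (T.a (T.c (T.b (T.a (T.c (T.b (T.a (T.a (T.l 204) (T.l 204)) (T.l 204)) (T.l 1)) (T.b (T.a (T.a (T.l 204) (T.l 204)) (T.l 204)) (T.l 1))) (T.l 220)) (T.l 1)) (T.b (T.a (T.c (T.b (T.a (T.a (T.l 204) (T.l 204)) (T.l 204)) (T.l 1)) (T.b (T.a (T.a (T.l 204) (T.l 204)) (T.l 204)) (T.l 1))) (T.l 204)) (T.l 1))) (T.c (T.b (T.a (T.l 204) (T.l 204)) (T.l 1)) (T.b (T.a (T.l 204) (T.l 204)) (T.l 1)))) (T.l 1)) (T.b (T.a (T.c (T.b (T.a (T.c (T.b (T.a (T.a (T.l 204) (T.l 204)) (T.l 204)) (T.l 1)) (T.b (T.a (T.a (T.l 204) (T.l 204)) (T.l 204)) (T.l 1))) (T.l 204)) (T.l 1)) (T.b (T.a (T.c (T.b (T.a (T.a (T.l 204) (T.l 204)) (T.l 204)) (T.l 1)) (T.b (T.a (T.a (T.l 204) (T.l 204)) (T.l 204)) (T.l 1))) (T.l 204)) (T.l 1))) (T.c (T.b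 (T.a (T.l 204) (T.l 204)) (T.l 1)) (T.b (T.a (T.l 204) (T.l 204)) (T.l 1)))) (T.l 1))) (T.c (T.b (T.a (T.c (T.b (T.l 220) (T.l 1)) (T.b (T.l 204) (T.l 1))) (T.c (T.b (T.a (T.l 204) (T.c (T.b (T.l 204) (T.l 1)) (T.b (T.l 204) (T.l 1)))) (T.l 1)) (T.b (T.a (T.l 204) (T.c (T.b (T.l 204) (T.l 1)) (T.b (T.l 204) (T.l 1)))) (T.l 1)))) (T.l 1)) (T.b (T.a (T.c (T.b (T.l 204) (T.l 1)) (T.b (T.l 204) (T.l 1))) (T.c (T.b (T.a (T.l 204) (T.c (T.b (T.l 204) (T.l 1)) (T.b (T.l 204) (T.l 1)))) (T.l 1)) (T.b (T.a (T.l 204) (T.c (T.b (T.l 204) (T.l 1)) (T.b (T.l 204) (T.l 1)))) (T.l 1)))) (T.l 1)))) (T.l 1)))) (T.l 1)), by decide +kernel⟩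

def B202E_020_4_512_5 :
    ∃ t, chk3 (onCell 0 33554432 0 1073741824 33554432 16777216 (corTK [[⟨0, 1, 0, 6291456⟩, ⟨1, 0, 1, 16777216⟩, ⟨2, 1, 1, 16777216⟩, ⟨1, 0, 0, 67108864⟩, ⟨1, 1, 0, 1056964608⟩, ⟨2, 1, 0, 67108864⟩, ⟨2, 2, 0, 1056964608⟩]] true 1 c0F cB202E gF0q2 gF2q2 gF0q0 gF1q0 true true)) t 4 512 5 = true :=
  ⟨(T.b (T.a (T.c (T.b (T.a (T.c (T.b (T.l 204) (T.l 1)) (T.b (T.l 204) (T.l 1))) (T.c (T.b (T.a (T.l 204) (T.c (T.b (T.a (T.l 204) (T.c (T.b (T.l 204) (T.l 1)) (T.b (T.l 204) (T.l 1)))) (T.l 1)) (T.b (T.a (T.l 204) (T.c (T.b (T.l 204) (T.l 1)) (T.b (T.l 204) (T.l 1)))) (T.l 1)))) (T.l 1)) (T.b (T.a (T.l 204) (T.c (T.b (T.a (T.l 204) (T.c (T.b (T.l 204) (T.l 1)) (T.b (T.l 204) (T.l 1)))) (T.l 1)) (T.b (T.a (T.l 204) (T.c (T.b (T.l 204) (T.l 1))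 (T.b (T.l 204) (T.l 1)))) (T.l 1)))) (T.l 1)))) (T.l 1)) (T.b (T.a (T.c (T.b (T.l 204) (T.l 1)) (T.b (T.l 204) (T.l 1))) (T.c (T.b (T.a (T.l 204) (T.c (T.b (T.a (T.l 204) (T.c (T.b (T.l 204) (T.l 1)) (T.b (T.l 204) (T.l 1)))) (T.l 1)) (T.b (T.a (T.l 204) (T.c (T.b (T.l 204) (T.l 1)) (T.b (T.l 204) (T.l 1)))) (T.l 1)))) (T.l 1)) (T.b (T.a (T.l 204) (T.c (T.b (T.a (T.l 204) (T.c (T.b (T.l 204) (T.l 1)) (T.b (T.l 204) (T.l 1)))) (T.l 1)) (T.b (T.a (T.l 204) (T.c (T.b (T.l 204) (T.l 1)) (T.b (T.l 204) (T.l 1)))) (T.l 1)))) (T.l 1)))) (T.l 1))) (T.c (T.b (T.a (T.c (T.b (T.a (T.c (T.b (T.a (T.c (T.b (T.a (T.a (T.l 204) (T.l 204)) (T.l 204)) (T.l 1)) (T.b (T.a (T.a (T.l 204) (T.l 204)) (T.l 204)) (T.l 1))) (T.l 204)) (T.l 1)) (T.b (T.a (T.c (T.b (T.a (T.a (T.l 204) (T.l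 204)) (T.l 204)) (T.l 1)) (T.b (T.a (T.a (T.l 204) (T.l 204)) (T.l 204)) (T.l 1))) (T.l 204)) (T.l 1))) (T.c (T.b (T.a (T.l 204) (T.l 204)) (T.l 1)) (T.b (T.l 220) (T.l 1)))) (T.l 1)) (T.b (T.a (T.c (T.b (T.a (T.c (T.b (T.a (T.a (T.l 204) (T.l 204)) (T.l 204)) (T.l 1)) (T.b (T.a (T.a (T.l 204) (T.l 204)) (T.l 204)) (T.l 1))) (T.l 204)) (T.l 1)) (T.b (T.a (T.c (T.b (T.a (T.a (T.l 204) (T.l 204)) (T.l 204)) (T.l 1)) (T.b (T.a (T.a (T.l 204) (T.l 204)) (T.l 204)) (T.l 1))) (T.l 204)) (T.l 1))) (T.c (T.b (T.l 220) (T.l 1)) (T.b (T.l 220) (T.l 1)))) (T.l 1))) (T.c (T.b (T.a (T.c (T.b (T.l 204) (T.l 1)) (T.b (T.l 204) (T.l 1))) (T.c (T.b (T.a (T.l 204) (T.c (T.b (T.l 204) (T.l 1)) (T.b (T.l 204) (T.l 1)))) (T.l 1)) (T.b (T.a (T.l 204) (T.c (T.b (T.l 204) (T.l 1)) (T.b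 (T.l 204) (T.l 1)))) (T.l 1)))) (T.l 1)) (T.b (T.a (T.c (T.b (T.l 204) (T.l 1)) (T.b (T.l 204) (T.l 1))) (T.c (T.b (T.a (T.l 204) (T.c (T.b (T.l 204) (T.l 1)) (T.b (T.l 204) (T.l 1)))) (T.l 1)) (T.b (T.a (T.l 204) (T.c (T.b (T.l 204) (T.l 1)) (T.b (T.l 204) (T.l 1)))) (T.l 1)))) (T.l 1)))) (T.l 1)) (T.b (T.a (T.c (T.b (T.a (T.c (T.b (T.a (T.c (T.b (T.a (T.a (T.l 204) (T.l 204)) (T.l 204)) (T.l 1)) (T.b (T.a (T.a (T.l 204) (T.l 204)) (T.l 204)) (T.l 1))) (T.l 204)) (T.l 1)) (T.b (T.a (T.c (T.b (T.a (T.a (T.l 204) (T.l 204)) (T.l 204)) (T.l 1)) (T.b (T.a (T.a (T.l 204) (T.l 204)) (T.l 204)) (T.l 1))) (T.l 204)) (T.l 1))) (T.c (T.b (T.l 220) (T.l 1)) (T.b (T.l 220) (T.l 1)))) (T.l 1)) (T.b (T.a (T.c (T.b (T.a (T.c (T.b (T.a (T.a (T.l 204) (T.l 204)) (T.l 204)) (T.l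 1)) (T.b (T.a (T.a (T.l 204) (T.l 204)) (T.l 204)) (T.l 1))) (T.l 204)) (T.l 1)) (T.b (T.a (T.c (T.b (T.a (T.a (T.l 204) (T.l 204)) (T.l 204)) (T.l 1)) (T.b (T.a (T.a (T.l 204) (T.l 204)) (T.l 204)) (T.l 1))) (T.l 204)) (T.l 1))) (T.c (T.b (T.l 220) (T.l 1)) (T.b (T.l 220) (T.l 1)))) (T.l 1))) (T.c (T.b (T.a (T.c (T.b (T.l 204) (T.l 1)) (T.b (T.l 204) (T.l 1))) (T.c (T.b (T.a (T.l 204) (T.c (T.b (T.l 204) (T.l 1)) (T.b (T.l 204) (T.l 1)))) (T.l 1)) (T.b (T.a (T.l 204) (T.c (T.b (T.l 204) (T.l 1)) (T.b (T.l 204) (T.l 1)))) (T.l 1)))) (T.l 1)) (T.b (T.a (T.c (T.b (T.l 204) (T.l 1)) (T.b (T.l 204) (T.l 1))) (T.c (T.b (T.a (T.l 204) (T.c (T.b (T.l 204) (T.l 1)) (T.b (T.l 204) (T.l 1)))) (T.l 1)) (T.b (T.a (T.l 204) (T.c (T.b (T.l 204) (T.l 1)) (T.b (T.l 204) (T.l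 1)))) (T.l 1)))) (T.l 1)))) (T.l 1)))) (T.l 1)), by decide +kernel⟩

def B202E_020_10_1024_4 :
    ∃ t, chk3 (onCell 0 33554432 0 1073741824 33554432 16777216 (corTK [[⟨0, 1, 0, 6291456⟩, ⟨1, 0, 1, 16777216⟩, ⟨2, 1, 1, 16777216⟩, ⟨1, 0, 0, 67108864⟩, ⟨1, 1, 0, 1056964608⟩, ⟨2, 1, 0, 67108864⟩, ⟨2, 2, 0, 1056964608⟩]] true 1 c0F cB202E gF0q2 gF2q2 gF0q0 gF1q0 true true)) t 10 1024 4 = true :=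
  ⟨(T.c (T.b (T.a (T.c (T.b (T.a (T.c (T.b (T.a (T.l 220) (T.l 204)) (T.l 1)) (T.b (T.a (T.l 220) (T.l 204)) (T.l 1))) (T.c (T.b (T.a (T.l 204) (T.l 220)) (T.l 1)) (T.b (T.a (T.l 204) (T.l 220)) (T.l 1)))) (T.l 1)) (T.b (T.a (T.c (T.b (T.a (T.l 220) (T.l 204)) (T.l 1)) (T.b (T.a (T.l 220) (T.l 204)) (T.l 1))) (T.c (T.b (T.a (T.l 204) (T.l 204)) (T.l 1)) (T.b (T.a (T.l 204) (T.l 204)) (T.l 1)))) (T.l 1))) (T.c (T.b (T.a (T.c (T.b (T.a (T.l 220) (T.l 220)) (T.l 1)) (T.b (T.a (T.l 220) (T.l 220)) (T.l 1))) (T.c (T.b (T.a (T.a (T.l 220) (T.l 220)) (T.c (T.b (T.l 204) (T.l 1)) (T.b (T.l 204) (T.l 1)))) (T.l 1)) (T.b (T.a (T.a (T.l 220) (T.l 220)) (T.c (T.b (T.l 204) (T.l 1)) (T.b (T.l 204) (T.l 1)))) (T.l 1)))) (T.l 1)) (T.b (T.a (T.c (T.b (T.a (T.l 220) (T.l 220))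 (T.l 1)) (T.b (T.a (T.l 220) (T.l 220)) (T.l 1))) (T.c (T.b (T.a (T.l 220) (T.c (T.b (T.l 204) (T.l 1)) (T.b (T.l 204) (T.l 1)))) (T.l 1)) (T.b (T.a (T.l 220) (T.c (T.b (T.l 204) (T.l 1)) (T.a (T.l 220) (T.l 220)))) (T.l 1)))) (T.l 1)))) (T.l 1)) (T.b (T.a (T.c (T.b (T.a (T.c (T.b (T.a (T.l 204) (T.l 204)) (T.l 1)) (T.b (T.a (T.l 204) (T.l 204)) (T.l 1))) (T.c (T.b (T.a (T.l 204) (T.l 204)) (T.l 1)) (T.b (T.l 220) (T.l 1)))) (T.l 1)) (T.b (T.a (T.c (T.b (T.a (T.l 204) (T.l 204)) (T.l 1)) (T.b (T.a (T.l 204) (T.l 204)) (T.l 1))) (T.c (T.b (T.l 220) (T.l 1)) (T.b (T.l 220) (T.l 1)))) (T.l 1))) (T.c (T.b (T.a (T.c (T.b (T.a (T.l 220) (T.l 220)) (T.l 1)) (T.b (T.a (T.l 204) (T.l 220)) (T.l 1))) (T.c (T.b (T.a (T.l 220) (T.a (T.l 220) (T.l 220))) (T.l 1)) (T.b (T.a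 (T.l 220) (T.a (T.l 220) (T.l 220))) (T.l 1)))) (T.l 1)) (T.b (T.a (T.c (T.b (T.a (T.l 204) (T.l 220)) (T.l 1)) (T.b (T.a (T.l 204) (T.l 220)) (T.l 1))) (T.c (T.b (T.a (T.l 220) (T.l 220)) (T.l 1)) (T.b (T.a (T.l 220) (T.l 220)) (T.l 1)))) (T.l 1)))) (T.l 1))), by decide +kernel⟩

def B202E_020_11_1024_8 :
    ∃ t, chk3 (onCell 0 33554432 0 1073741824 33554432 16777216 (corTK [[⟨0, 1, 0, 6291456⟩, ⟨1, 0, 1, 16777216⟩, ⟨2, 1, 1, 16777216⟩, ⟨1, 0, 0, 67108864⟩, ⟨1, 1, 0, 1056964608⟩, ⟨2, 1, 0, 67108864⟩, ⟨2, 2, 0, 1056964608⟩]] true 1 c0F cB202E gF0q2 gF2q2 gF0q0 gF1q0 true true)) t 11 1024 8 = true :=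
  ⟨(T.b (T.a (T.c (T.b (T.a (T.c (T.b (T.a (T.c (T.b (T.l 204) (T.l 1)) (T.b (T.l 204) (T.l 1))) (T.c (T.b (T.l 220) (T.l 1)) (T.b (T.l 220) (T.l 1)))) (T.l 1)) (T.b (T.a (T.c (T.b (T.l 204) (T.l 1)) (T.b (T.l 204) (T.l 1))) (T.c (T.b (T.l 220) (T.l 1)) (T.b (T.l 220) (T.l 1)))) (T.l 1))) (T.c (T.b (T.a (T.c (T.b (T.l 220) (T.l 1)) (T.b (T.l 220) (T.l 1))) (T.c (T.b (T.a (T.l 220) (T.l 220)) (T.l 1)) (T.b (T.a (T.l 220) (T.l 220)) (T.l 1)))) (T.l 1)) (T.b (T.a (T.c (T.b (T.l 220) (T.l 1)) (T.b (T.l 220) (T.l 1))) (T.c (T.b (T.a (T.l 220) (T.l 220)) (T.l 1)) (T.b (T.a (T.l 220) (T.l 220)) (T.l 1)))) (T.l 1)))) (T.l 1)) (T.b (T.a (T.c (T.b (T.a (T.c (T.b (T.l 204) (T.l 1)) (T.b (T.l 204) (T.l 1))) (T.c (T.b (T.l 220) (T.l 1)) (T.b (T.l 220) (T.l 1)))) (T.l 1)) (T.b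 (T.a (T.c (T.b (T.l 204) (T.l 1)) (T.b (T.l 204) (T.l 1))) (T.c (T.b (T.l 220) (T.l 1)) (T.b (T.l 204) (T.l 1)))) (T.l 1))) (T.c (T.b (T.a (T.c (T.b (T.l 220) (T.l 1)) (T.b (T.l 220) (T.l 1))) (T.c (T.b (T.l 220) (T.l 1)) (T.b (T.l 220) (T.l 1)))) (T.l 1)) (T.b (T.a (T.c (T.b (T.l 220) (T.l 1)) (T.b (T.l 220) (T.l 1))) (T.c (T.b (T.l 220) (T.l 1)) (T.b (T.l 220) (T.l 1)))) (T.l 1)))) (T.l 1))) (T.c (T.b (T.a (T.c (T.b (T.a (T.c (T.b (T.a (T.a (T.l 220) (T.l 220)) (T.c (T.b (T.l 220) (T.l 1)) (T.b (T.l 220) (T.l 1)))) (T.l 1)) (T.b (T.a (T.l 220) (T.c (T.b (T.l 220) (T.l 1)) (T.b (T.l 220) (T.l 1)))) (T.l 1))) (T.c (T.b (T.a (T.c (T.b (T.l 220) (T.l 1)) (T.b (T.l 220) (T.l 1))) (T.c (T.b (T.l 220) (T.l 1)) (T.b (T.l 220) (T.l 1)))) (T.l 1)) (T.b (T.a (T.c (T.b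 (T.l 220) (T.l 1)) (T.b (T.l 220) (T.l 1))) (T.c (T.b (T.l 220) (T.l 1)) (T.b (T.l 220) (T.l 1)))) (T.l 1)))) (T.l 1)) (T.b (T.a (T.c (T.b (T.a (T.l 220) (T.a (T.l 220) (T.l 220))) (T.l 1)) (T.b (T.a (T.l 220) (T.a (T.l 220) (T.l 220))) (T.l 1))) (T.c (T.b (T.a (T.c (T.b (T.l 220) (T.l 1)) (T.b (T.l 220) (T.l 1))) (T.c (T.b (T.l 220) (T.l 1)) (T.b (T.l 220) (T.l 1)))) (T.l 1)) (T.b (T.a (T.c (T.b (T.l 220) (T.l 1)) (T.b (T.l 220) (T.l 1))) (T.c (T.b (T.l 220) (T.l 1)) (T.b (T.l 220) (T.l 1)))) (T.l 1)))) (T.l 1))) (T.c (T.b (T.a (T.c (T.b (T.a (T.c (T.b (T.l 220) (T.l 1)) (T.b (T.l 220) (T.l 1))) (T.c (T.b (T.l 220) (T.l 1)) (T.b (T.l 220) (T.l 1)))) (T.l 1)) (T.b (T.a (T.c (T.b (T.l 220) (T.l 1)) (T.b (T.l 220) (T.l 1))) (T.c (T.b (T.l 220) (T.l 1)) (T.b (T.l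 220) (T.l 1)))) (T.l 1))) (T.c (T.b (T.a (T.c (T.b (T.l 476) (T.l 1)) (T.b (T.l 476) (T.l 1))) (T.c (T.b (T.l 476) (T.l 1)) (T.b (T.l 476) (T.l 1)))) (T.l 1)) (T.b (T.a (T.c (T.b (T.l 476) (T.l 1)) (T.b (T.l 476) (T.l 1))) (T.c (T.b (T.l 476) (T.l 1)) (T.b (T.l 476) (T.l 1)))) (T.l 1)))) (T.l 1)) (T.b (T.a (T.c (T.b (T.a (T.c (T.b (T.l 220) (T.l 1)) (T.b (T.l 220) (T.l 1))) (T.c (T.b (T.l 220) (T.l 1)) (T.b (T.l 220) (T.l 1)))) (T.l 1)) (T.b (T.a (T.c (T.b (T.l 220) (T.l 1)) (T.b (T.l 220) (T.l 1))) (T.c (T.b (T.l 220) (T.l 1)) (T.b (T.l 220) (T.l 1)))) (T.l 1))) (T.c (T.b (T.a (T.c (T.b (T.l 476) (T.l 1)) (T.b (T.l 476) (T.l 1))) (T.c (T.b (T.l 476) (T.l 1)) (T.b (T.l 476) (T.l 1)))) (T.l 1)) (T.b (T.a (T.c (T.b (T.l 476) (T.l 1)) (T.b (T.l 220) (T.l 1))) (T.c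 (T.b (T.l 476) (T.l 1)) (T.b (T.l 476) (T.l 1)))) (T.l 1)))) (T.l 1)))) (T.l 1)) (T.b (T.a (T.c (T.b (T.a (T.c (T.b (T.a (T.l 220) (T.l 220)) (T.l 1)) (T.b (T.a (T.l 220) (T.l 220)) (T.l 1))) (T.c (T.b (T.a (T.c (T.a (T.l 220) (T.l 220)) (T.a (T.l 220) (T.l 220))) (T.c (T.b (T.l 220) (T.l 1)) (T.b (T.l 220) (T.l 1)))) (T.l 1)) (T.b (T.a (T.a (T.l 220) (T.l 220)) (T.c (T.b (T.l 220) (T.l 1)) (T.b (T.l 220) (T.l 1)))) (T.l 1)))) (T.l 1)) (T.b (T.a (T.c (T.b (T.a (T.l 220) (T.l 220)) (T.l 1)) (T.b (T.a (T.l 220) (T.l 220)) (T.l 1))) (T.c (T.b (T.a (T.l 220) (T.c (T.b (T.l 220) (T.l 1)) (T.a (T.l 220) (T.l 220)))) (T.l 1)) (T.b (T.a (T.l 220) (T.a (T.l 220) (T.l 220))) (T.l 1)))) (T.l 1))) (T.c (T.b (T.a (T.c (T.b (T.a (T.c (T.b (T.l 220) (T.l 1)) (T.b (T.l 220) (T.l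 1))) (T.c (T.b (T.l 220) (T.l 1)) (T.b (T.l 220) (T.l 1)))) (T.l 1)) (T.b (T.a (T.c (T.b (T.l 220) (T.l 1)) (T.b (T.l 220) (T.l 1))) (T.c (T.b (T.l 220) (T.l 1)) (T.b (T.l 220) (T.l 1)))) (T.l 1))) (T.c (T.b (T.a (T.c (T.b (T.l 220) (T.l 1)) (T.b (T.l 220) (T.l 1))) (T.c (T.b (T.l 476) (T.l 1)) (T.b (T.l 476) (T.l 1)))) (T.l 1)) (T.b (T.a (T.c (T.b (T.l 220) (T.l 1)) (T.b (T.l 220) (T.l 1))) (T.c (T.b (T.l 476) (T.l 1)) (T.b (T.l 476) (T.l 1)))) (T.l 1)))) (T.l 1)) (T.b (T.a (T.c (T.b (T.a (T.c (T.b (T.l 220) (T.l 1)) (T.b (T.l 220) (T.l 1))) (T.c (T.b (T.l 220) (T.l 1)) (T.b (T.l 220) (T.l 1)))) (T.l 1)) (T.b (T.a (T.c (T.b (T.l 220) (T.l 1)) (T.b (T.l 220) (T.l 1))) (T.c (T.b (T.l 220) (T.l 1)) (T.b (T.l 220) (T.l 1)))) (T.l 1))) (T.c (T.b (T.a (T.c (T.b (T.l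 220) (T.l 1)) (T.b (T.l 220) (T.l 1))) (T.c (T.b (T.l 476) (T.l 1)) (T.b (T.l 476) (T.l 1)))) (T.l 1)) (T.b (T.a (T.c (T.b (T.l 220) (T.l 1)) (T.b (T.l 220) (T.l 1))) (T.c (T.b (T.l 476) (T.l 1)) (T.b (T.l 476) (T.l 1)))) (T.l 1)))) (T.l 1)))) (T.l 1)))) (T.l 1)), by decide +kernel⟩

def B202E_020_11_1024_9 :
    ∃ t, chk3 (onCell 0 33554432 0 1073741824 33554432 16777216 (corTK [[⟨0, 1, 0, 6291456⟩, ⟨1, 0, 1, 16777216⟩, ⟨2, 1, 1, 16777216⟩, ⟨1, 0, 0, 67108864⟩, ⟨1, 1, 0, 1056964608⟩, ⟨2, 1, 0, 67108864⟩, ⟨2, 2, 0, 1056964608⟩]] true 1 c0F cB202E gF0q2 gF2q2 gF0q0 gF1q0 true true)) t 11 1024 9 = true :=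
  ⟨(T.b (T.a (T.c (T.b (T.a (T.c (T.b (T.a (T.c (T.b (T.l 204) (T.l 1)) (T.b (T.l 204) (T.l 1))) (T.c (T.b (T.l 204) (T.l 1)) (T.b (T.l 204) (T.l 1)))) (T.l 1)) (T.b (T.a (T.c (T.b (T.l 204) (T.l 1)) (T.b (T.l 204) (T.l 1))) (T.c (T.b (T.l 204) (T.l 1)) (T.b (T.l 204) (T.l 1)))) (T.l 1))) (T.c (T.b (T.a (T.c (T.b (T.l 220) (T.l 1)) (T.b (T.l 220) (T.l 1))) (T.c (T.b (T.l 220) (T.l 1)) (T.b (T.l 220) (T.l 1)))) (T.l 1)) (T.b (T.a (T.c (T.b (T.l 220) (T.l 1)) (T.b (T.l 220) (T.l 1))) (T.c (T.b (T.l 220) (T.l 1)) (T.b (T.l 220) (T.l 1)))) (T.l 1)))) (T.l 1)) (T.b (T.a (T.c (T.b (T.a (T.c (T.b (T.l 204) (T.l 1)) (T.b (T.l 204) (T.l 1))) (T.c (T.b (T.l 204) (T.l 1)) (T.b (T.l 204) (T.l 1)))) (T.l 1)) (T.b (T.a (T.a (T.l 220) (T.l 220)) (T.c (T.b (T.l 204) (T.l 1))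 (T.b (T.l 204) (T.l 1)))) (T.l 1))) (T.c (T.b (T.a (T.c (T.b (T.l 220) (T.l 1)) (T.b (T.l 220) (T.l 1))) (T.c (T.b (T.l 220) (T.l 1)) (T.b (T.l 220) (T.l 1)))) (T.l 1)) (T.b (T.a (T.c (T.b (T.l 220) (T.l 1)) (T.b (T.l 220) (T.l 1))) (T.c (T.b (T.l 220) (T.l 1)) (T.b (T.l 220) (T.l 1)))) (T.l 1)))) (T.l 1))) (T.c (T.b (T.a (T.c (T.b (T.a (T.c (T.b (T.l 220) (T.l 1)) (T.b (T.l 220) (T.l 1))) (T.c (T.b (T.a (T.l 220) (T.l 220)) (T.l 1)) (T.b (T.a (T.l 220) (T.l 220)) (T.l 1)))) (T.l 1)) (T.b (T.a (T.c (T.b (T.l 220) (T.l 1)) (T.b (T.l 220) (T.l 1))) (T.c (T.b (T.a (T.l 220) (T.l 220)) (T.l 1)) (T.b (T.a (T.l 220) (T.l 220)) (T.l 1)))) (T.l 1))) (T.c (T.b (T.a (T.c (T.b (T.a (T.a (T.l 220) (T.l 220)) (T.c (T.b (T.l 220) (T.l 1)) (T.b (T.l 220) (T.l 1)))) (T.l 1))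 (T.b (T.a (T.l 220) (T.c (T.a (T.l 220) (T.l 220)) (T.a (T.l 220) (T.l 220)))) (T.l 1))) (T.c (T.b (T.a (T.c (T.b (T.l 220) (T.l 1)) (T.b (T.l 220) (T.l 1))) (T.c (T.b (T.l 476) (T.l 1)) (T.b (T.l 476) (T.l 1)))) (T.l 1)) (T.b (T.a (T.c (T.b (T.l 220) (T.l 1)) (T.b (T.l 220) (T.l 1))) (T.c (T.b (T.l 476) (T.l 1)) (T.b (T.l 476) (T.l 1)))) (T.l 1)))) (T.l 1)) (T.b (T.a (T.c (T.b (T.a (T.l 220) (T.a (T.l 220) (T.l 220))) (T.l 1)) (T.b (T.a (T.l 220) (T.l 220)) (T.l 1))) (T.c (T.b (T.a (T.c (T.b (T.l 220) (T.l 1)) (T.b (T.l 220) (T.l 1))) (T.c (T.b (T.l 476) (T.l 1)) (T.b (T.l 476) (T.l 1)))) (T.l 1)) (T.b (T.a (T.a (T.l 220) (T.l 476)) (T.c (T.b (T.l 476) (T.l 1)) (T.b (T.l 476) (T.l 1)))) (T.l 1)))) (T.l 1)))) (T.l 1)) (T.b (T.a (T.c (T.b (T.a (T.c (T.b (T.l 220)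 (T.l 1)) (T.b (T.l 220) (T.l 1))) (T.c (T.b (T.l 220) (T.l 1)) (T.b (T.l 220) (T.l 1)))) (T.l 1)) (T.b (T.a (T.c (T.b (T.l 220) (T.l 1)) (T.b (T.l 220) (T.l 1))) (T.c (T.b (T.l 220) (T.l 1)) (T.b (T.l 220) (T.l 1)))) (T.l 1))) (T.c (T.b (T.a (T.c (T.b (T.a (T.l 220) (T.l 220)) (T.l 1)) (T.b (T.a (T.l 220) (T.l 220)) (T.l 1))) (T.c (T.b (T.a (T.a (T.l 220) (T.l 476)) (T.c (T.b (T.l 476) (T.l 1)) (T.a (T.l 476) (T.l 476)))) (T.l 1)) (T.b (T.a (T.l 476) (T.a (T.l 476) (T.l 476))) (T.l 1)))) (T.l 1)) (T.b (T.a (T.c (T.b (T.a (T.l 220) (T.l 220)) (T.l 1)) (T.b (T.l 220) (T.l 1))) (T.c (T.b (T.a (T.l 476) (T.a (T.l 476) (T.l 476))) (T.l 1)) (T.b (T.a (T.l 476) (T.l 476)) (T.l 1)))) (T.l 1)))) (T.l 1)))) (T.l 1)), by decide +kernel⟩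

def B202E_020_5_1025_4 :
    ∃ t, chk3 (onCell 0 33554432 0 1073741824 33554432 16777216 (corTK [[⟨0, 1, 0, 6291456⟩, ⟨1, 0, 1, 16777216⟩, ⟨2, 1, 1, 16777216⟩, ⟨1, 0, 0, 67108864⟩, ⟨1, 1, 0, 1056964608⟩, ⟨2, 1, 0, 67108864⟩, ⟨2, 2, 0, 1056964608⟩]] true 1 c0F cB202E gF0q2 gF2q2 gF0q0 gF1q0 true true)) t 5 1025 4 = true :=
  ⟨(T.l 1), by decide +kernel⟩

def B202E_020_5_512_5 :
    ∃ t, chk3 (onCell 0 33554432 0 1073741824 33554432 16777216 (corTK [[⟨0, 1, 0, 6291456⟩, ⟨1, 0, 1, 16777216⟩, ⟨2, 1, 1, 16777216⟩, ⟨1, 0, 0, 67108864⟩, ⟨1, 1, 0, 1056964608⟩, ⟨2, 1, 0, 67108864⟩, ⟨2, 2, 0, 1056964608⟩]] true 1 c0F cB202E gF0q2 gF2q2 gF0q0 gF1q0 true true)) t 5 512 5 = true :=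
  ⟨(T.b (T.a (T.c (T.b (T.a (T.c (T.b (T.a (T.c (T.b (T.a (T.l 204) (T.l 204)) (T.l 1)) (T.b (T.a (T.l 204) (T.l 204)) (T.l 1))) (T.c (T.b (T.l 220) (T.l 1)) (T.b (T.l 220) (T.l 1)))) (T.l 1)) (T.b (T.a (T.c (T.b (T.a (T.l 204) (T.l 204)) (T.l 1)) (T.b (T.a (T.l 204) (T.l 204)) (T.l 1))) (T.c (T.b (T.l 220) (T.l 1)) (T.b (T.l 220) (T.l 1)))) (T.l 1))) (T.c (T.b (T.a (T.c (T.b (T.l 220) (T.l 1)) (T.b (T.l 220) (T.l 1))) (T.c (T.b (T.a (T.l 220) (T.l 220)) (T.l 1)) (T.b (T.a (T.l 220) (T.l 220)) (T.l 1)))) (T.l 1)) (T.b (T.a (T.c (T.b (T.l 220) (T.l 1)) (T.b (T.l 220) (T.l 1))) (T.c (T.b (T.a (T.l 220) (T.l 220)) (T.l 1)) (T.b (T.a (T.l 220) (T.l 220)) (T.l 1)))) (T.l 1)))) (T.l 1)) (T.b (T.a (T.c (T.b (T.a (T.c (T.b (T.a (T.l 204) (T.l 204)) (T.l 1)) (T.b (T.a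 (T.l 204) (T.l 204)) (T.l 1))) (T.c (T.b (T.l 220) (T.l 1)) (T.b (T.l 204) (T.l 1)))) (T.l 1)) (T.b (T.a (T.c (T.b (T.a (T.l 204) (T.l 204)) (T.l 1)) (T.b (T.a (T.l 204) (T.l 204)) (T.l 1))) (T.c (T.b (T.l 204) (T.l 1)) (T.b (T.l 204) (T.l 1)))) (T.l 1))) (T.c (T.b (T.a (T.c (T.b (T.l 220) (T.l 1)) (T.b (T.l 220) (T.l 1))) (T.c (T.b (T.l 220) (T.l 1)) (T.b (T.l 220) (T.l 1)))) (T.l 1)) (T.b (T.a (T.c (T.b (T.l 220) (T.l 1)) (T.b (T.l 220) (T.l 1))) (T.c (T.b (T.l 220) (T.l 1)) (T.b (T.l 220) (T.l 1)))) (T.l 1)))) (T.l 1))) (T.c (T.b (T.a (T.c (T.b (T.a (T.c (T.b (T.a (T.a (T.l 220) (T.l 220)) (T.c (T.b (T.l 204) (T.l 1)) (T.b (T.l 204) (T.l 1)))) (T.l 1)) (T.b (T.a (T.l 220) (T.c (T.b (T.l 204) (T.l 1)) (T.b (T.l 204) (T.l 1)))) (T.l 1))) (T.c (T.b (T.a (T.c (T.b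 (T.l 204) (T.l 1)) (T.b (T.l 204) (T.l 1))) (T.c (T.b (T.l 220) (T.l 1)) (T.b (T.l 220) (T.l 1)))) (T.l 1)) (T.b (T.a (T.c (T.b (T.l 204) (T.l 1)) (T.b (T.l 204) (T.l 1))) (T.c (T.b (T.l 220) (T.l 1)) (T.b (T.l 220) (T.l 1)))) (T.l 1)))) (T.l 1)) (T.b (T.a (T.c (T.b (T.a (T.l 220) (T.c (T.a (T.l 220) (T.l 220)) (T.a (T.l 220) (T.l 220)))) (T.l 1)) (T.b (T.a (T.l 220) (T.a (T.l 220) (T.l 220))) (T.l 1))) (T.c (T.b (T.a (T.c (T.b (T.l 204) (T.l 1)) (T.b (T.l 204) (T.l 1))) (T.c (T.b (T.l 220) (T.l 1)) (T.b (T.l 220) (T.l 1)))) (T.l 1)) (T.b (T.a (T.c (T.b (T.l 204) (T.l 1)) (T.b (T.l 204) (T.l 1))) (T.c (T.b (T.l 220) (T.l 1)) (T.b (T.l 220) (T.l 1)))) (T.l 1)))) (T.l 1))) (T.c (T.b (T.a (T.c (T.b (T.a (T.c (T.b (T.l 220) (T.l 1)) (T.b (T.l 220) (T.l 1))) (T.c (T.b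 (T.l 220) (T.l 1)) (T.b (T.l 220) (T.l 1)))) (T.l 1)) (T.b (T.a (T.c (T.b (T.l 220) (T.l 1)) (T.b (T.l 220) (T.l 1))) (T.c (T.b (T.l 220) (T.l 1)) (T.b (T.l 220) (T.l 1)))) (T.l 1))) (T.c (T.b (T.a (T.c (T.b (T.l 220) (T.l 1)) (T.b (T.l 220) (T.l 1))) (T.c (T.b (T.a (T.l 476) (T.l 476)) (T.l 1)) (T.b (T.a (T.l 220) (T.l 476)) (T.l 1)))) (T.l 1)) (T.b (T.a (T.c (T.b (T.l 220) (T.l 1)) (T.b (T.l 220) (T.l 1))) (T.c (T.b (T.a (T.l 220) (T.l 476)) (T.l 1)) (T.b (T.a (T.l 220) (T.l 476)) (T.l 1)))) (T.l 1)))) (T.l 1)) (T.b (T.a (T.c (T.b (T.a (T.c (T.b (T.l 220) (T.l 1)) (T.b (T.l 220) (T.l 1))) (T.c (T.b (T.l 220) (T.l 1)) (T.b (T.l 220) (T.l 1)))) (T.l 1)) (T.b (T.a (T.c (T.b (T.l 220) (T.l 1)) (T.b (T.l 220) (T.l 1))) (T.c (T.b (T.l 220) (T.l 1)) (T.b (T.l 220)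 (T.l 1)))) (T.l 1))) (T.c (T.b (T.a (T.c (T.b (T.l 220) (T.l 1)) (T.b (T.l 220) (T.l 1))) (T.c (T.b (T.a (T.l 220) (T.l 476)) (T.l 1)) (T.b (T.a (T.l 220) (T.l 476)) (T.l 1)))) (T.l 1)) (T.b (T.a (T.c (T.b (T.l 220) (T.l 1)) (T.b (T.l 220) (T.l 1))) (T.c (T.b (T.l 476) (T.l 1)) (T.b (T.l 476) (T.l 1)))) (T.l 1)))) (T.l 1)))) (T.l 1)) (T.b (T.a (T.c (T.b (T.a (T.c (T.b (T.a (T.l 220) (T.l 220)) (T.l 1)) (T.b (T.a (T.l 220) (T.l 220)) (T.l 1))) (T.c (T.b (T.a (T.c (T.b (T.l 204) (T.l 1)) (T.b (T.l 204) (T.l 1))) (T.c (T.b (T.l 220) (T.l 1)) (T.b (T.l 220) (T.l 1)))) (T.l 1)) (T.b (T.a (T.c (T.a (T.l 220) (T.l 220)) (T.a (T.l 220) (T.l 220))) (T.c (T.b (T.l 220) (T.l 1)) (T.b (T.l 220) (T.l 1)))) (T.l 1)))) (T.l 1)) (T.b (T.a (T.c (T.b (T.a (T.l 220) (T.l 220)) (T.l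 1)) (T.b (T.a (T.l 220) (T.l 220)) (T.l 1))) (T.c (T.b (T.a (T.a (T.l 220) (T.l 220)) (T.c (T.b (T.l 220) (T.l 1)) (T.b (T.l 204) (T.l 1)))) (T.l 1)) (T.b (T.a (T.l 220) (T.c (T.b (T.l 204) (T.l 1)) (T.b (T.l 204) (T.l 1)))) (T.l 1)))) (T.l 1))) (T.c (T.b (T.a (T.c (T.b (T.a (T.c (T.b (T.l 220) (T.l 1)) (T.b (T.l 220) (T.l 1))) (T.c (T.b (T.l 220) (T.l 1)) (T.b (T.l 220) (T.l 1)))) (T.l 1)) (T.b (T.a (T.c (T.b (T.l 220) (T.l 1)) (T.b (T.l 220) (T.l 1))) (T.c (T.b (T.l 220) (T.l 1)) (T.b (T.l 220) (T.l 1)))) (T.l 1))) (T.c (T.b (T.a (T.c (T.b (T.l 220) (T.l 1)) (T.b (T.l 220) (T.l 1))) (T.c (T.b (T.l 476) (T.l 1)) (T.b (T.l 476) (T.l 1)))) (T.l 1)) (T.b (T.a (T.c (T.b (T.l 220) (T.l 1)) (T.b (T.l 220) (T.l 1))) (T.c (T.b (T.l 476) (T.l 1)) (T.b (T.l 476) (T.l 1))))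 (T.l 1)))) (T.l 1)) (T.b (T.a (T.c (T.b (T.a (T.c (T.b (T.l 220) (T.l 1)) (T.b (T.l 220) (T.l 1))) (T.c (T.b (T.l 220) (T.l 1)) (T.b (T.l 220) (T.l 1)))) (T.l 1)) (T.b (T.a (T.c (T.b (T.l 220) (T.l 1)) (T.b (T.l 220) (T.l 1))) (T.c (T.b (T.l 220) (T.l 1)) (T.b (T.l 220) (T.l 1)))) (T.l 1))) (T.c (T.b (T.a (T.c (T.b (T.l 220) (T.l 1)) (T.b (T.l 220) (T.l 1))) (T.c (T.b (T.l 476) (T.l 1)) (T.b (T.l 476) (T.l 1)))) (T.l 1)) (T.b (T.a (T.c (T.b (T.l 220) (T.l 1)) (T.b (T.l 220) (T.l 1))) (T.c (T.b (T.l 476) (T.l 1)) (T.b (T.l 476) (T.l 1)))) (T.l 1)))) (T.l 1)))) (T.l 1)))) (T.l 1)), by decide +kernel⟩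

def B202E_020_2_513_2 :
    ∃ t, chk3 (onCell 0 33554432 0 1073741824 33554432 16777216 (corTK [[⟨0, 1, 0, 6291456⟩, ⟨1, 0, 1, 16777216⟩, ⟨2, 1, 1, 16777216⟩, ⟨1, 0, 0, 67108864⟩, ⟨1, 1, 0, 1056964608⟩, ⟨2, 1, 0, 67108864⟩, ⟨2, 2, 0, 1056964608⟩]] true 1 c0F cB202E gF0q2 gF2q2 gF0q0 gF1q0 true true)) t 2 513 2 = true :=
  ⟨(T.l 1), by decide +kernel⟩

def B202E_020_4_512_3 :
    ∃ t, chk3 (onCell 0 33554432 0 1073741824 33554432 16777216 (corTK [[⟨0, 1, 0, 6291456⟩, ⟨1, 0, 1, 16777216⟩, ⟨2, 1, 1, 16777216⟩, ⟨1, 0, 0, 67108864⟩, ⟨1, 1, 0, 1056964608⟩, ⟨2, 1, 0, 67108864⟩, ⟨2, 2, 0, 1056964608⟩]] true 1 c0F cB202E gF0q2 gF2q2 gF0q0 gF1q0 true true)) t 4 512 3 = true :=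
  ⟨(T.c (T.b (T.a (T.c (T.b (T.a (T.c (T.b (T.l 204) (T.l 1)) (T.b (T.l 204) (T.l 1))) (T.c (T.b (T.a (T.l 204) (T.c (T.b (T.a (T.l 204) (T.c (T.b (T.l 204) (T.l 1)) (T.b (T.l 204) (T.l 1)))) (T.l 1)) (T.b (T.a (T.l 204) (T.c (T.b (T.l 204) (T.l 1)) (T.b (T.l 204) (T.l 1)))) (T.l 1)))) (T.l 1)) (T.b (T.a (T.l 204) (T.c (T.b (T.a (T.l 204) (T.c (T.b (T.l 204) (T.l 1)) (T.l 220))) (T.l 1)) (T.b (T.a (T.l 204) (T.l 220)) (T.l 1)))) (T.l 1)))) (T.l 1)) (T.b (T.a (T.c (T.b (T.l 204) (T.l 1)) (T.b (T.l 204) (T.l 1))) (T.c (T.b (T.a (T.l 204) (T.c (T.b (T.l 220) (T.l 1)) (T.b (T.l 220) (T.l 1)))) (T.l 1)) (T.b (T.a (T.l 204) (T.c (T.b (T.l 204) (T.l 1)) (T.b (T.l 204) (T.l 1)))) (T.l 1)))) (T.l 1))) (T.c (T.b (T.a (T.c (T.b (T.a (T.c (T.b (T.a (T.c (T.b (T.a (T.a (T.l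 204) (T.l 204)) (T.l 204)) (T.l 1)) (T.a (T.b (T.a (T.l 204) (T.l 204)) (T.l 1)) (T.l 220))) (T.l 204)) (T.l 1)) (T.b (T.a (T.c (T.a (T.b (T.a (T.l 204) (T.l 204)) (T.l 1)) (T.l 220)) (T.a (T.b (T.a (T.l 204) (T.l 204)) (T.l 1)) (T.l 220))) (T.l 204)) (T.l 1))) (T.c (T.b (T.l 220) (T.l 1)) (T.b (T.l 220) (T.l 1)))) (T.l 1)) (T.b (T.a (T.c (T.b (T.a (T.a (T.c (T.b (T.a (T.l 204) (T.l 204)) (T.l 1)) (T.b (T.a (T.l 204) (T.l 204)) (T.l 1))) (T.l 220)) (T.l 204)) (T.l 1)) (T.b (T.a (T.a (T.c (T.b (T.a (T.l 204) (T.l 204)) (T.l 1)) (T.b (T.a (T.l 204) (T.l 204)) (T.l 1))) (T.l 220)) (T.l 204)) (T.l 1))) (T.c (T.b (T.l 204) (T.l 1)) (T.b (T.l 204) (T.l 1)))) (T.l 1))) (T.c (T.b (T.a (T.c (T.b (T.l 204) (T.l 1)) (T.b (T.l 204) (T.l 1))) (T.c (T.b (T.a (T.l 204) (T.c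 (T.b (T.l 204) (T.l 1)) (T.b (T.l 204) (T.l 1)))) (T.l 1)) (T.b (T.a (T.l 204) (T.c (T.a (T.l 220) (T.l 204)) (T.a (T.l 220) (T.l 204)))) (T.l 1)))) (T.l 1)) (T.b (T.a (T.c (T.b (T.l 204) (T.l 1)) (T.b (T.l 204) (T.l 1))) (T.c (T.b (T.a (T.l 204) (T.a (T.l 220) (T.l 204))) (T.l 1)) (T.b (T.a (T.l 204) (T.a (T.l 220) (T.l 204))) (T.l 1)))) (T.l 1)))) (T.l 1)) (T.b (T.a (T.c (T.b (T.a (T.c (T.b (T.a (T.a (T.c (T.b (T.a (T.l 204) (T.l 204)) (T.l 1)) (T.b (T.a (T.l 204) (T.l 204)) (T.l 1))) (T.l 204)) (T.l 204)) (T.l 1)) (T.b (T.a (T.a (T.c (T.b (T.a (T.l 204) (T.l 204)) (T.l 1)) (T.b (T.a (T.l 204) (T.l 204)) (T.l 1))) (T.l 204)) (T.l 204)) (T.l 1))) (T.c (T.b (T.l 204) (T.l 1)) (T.b (T.l 204) (T.l 1)))) (T.l 1)) (T.b (T.a (T.c (T.b (T.a (T.a (T.c (T.b (T.a (T.l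 204) (T.l 204)) (T.l 1)) (T.b (T.a (T.l 204) (T.l 204)) (T.l 1))) (T.l 204)) (T.l 204)) (T.l 1)) (T.b (T.a (T.a (T.c (T.b (T.l 220) (T.l 1)) (T.b (T.l 220) (T.l 1))) (T.l 204)) (T.l 204)) (T.l 1))) (T.c (T.b (T.l 204) (T.l 1)) (T.b (T.l 204) (T.l 1)))) (T.l 1))) (T.c (T.b (T.a (T.c (T.b (T.l 204) (T.l 1)) (T.b (T.l 204) (T.l 1))) (T.c (T.b (T.a (T.l 204) (T.a (T.l 220) (T.l 204))) (T.l 1)) (T.b (T.a (T.l 204) (T.a (T.l 220) (T.l 204))) (T.l 1)))) (T.l 1)) (T.b (T.a (T.c (T.b (T.l 204) (T.l 1)) (T.b (T.l 204) (T.l 1))) (T.c (T.b (T.a (T.l 204) (T.a (T.l 220) (T.l 204))) (T.l 1)) (T.b (T.a (T.l 204) (T.a (T.l 220) (T.l 204))) (T.l 1)))) (T.l 1)))) (T.l 1)))) (T.l 1)) (T.b (T.a (T.c (T.b (T.a (T.c (T.b (T.l 204) (T.l 1)) (T.b (T.l 204) (T.l 1))) (T.c (T.b (T.a (T.l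 204) (T.c (T.b (T.l 204) (T.l 1)) (T.b (T.l 204) (T.l 1)))) (T.l 1)) (T.b (T.a (T.l 204) (T.c (T.b (T.l 204) (T.l 1)) (T.b (T.l 204) (T.l 1)))) (T.l 1)))) (T.l 1)) (T.b (T.a (T.c (T.b (T.l 204) (T.l 1)) (T.a (T.l 204) (T.l 204))) (T.c (T.b (T.a (T.l 204) (T.c (T.b (T.l 204) (T.l 1)) (T.b (T.l 204) (T.l 1)))) (T.l 1)) (T.b (T.a (T.l 204) (T.c (T.b (T.l 204) (T.l 1)) (T.b (T.l 204) (T.l 1)))) (T.l 1)))) (T.l 1))) (T.c (T.b (T.a (T.c (T.b (T.a (T.c (T.b (T.a (T.a (T.c (T.b (T.l 220) (T.l 1)) (T.b (T.l 220) (T.l 1))) (T.l 204)) (T.l 204)) (T.l 1)) (T.b (T.a (T.a (T.c (T.b (T.l 220) (T.l 1)) (T.b (T.l 220) (T.l 1))) (T.l 204)) (T.l 204)) (T.l 1))) (T.c (T.b (T.l 204) (T.l 1)) (T.b (T.l 204) (T.l 1)))) (T.l 1)) (T.b (T.a (T.c (T.b (T.a (T.a (T.c (T.b (T.l 220) (T.l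 1)) (T.b (T.l 204) (T.l 1))) (T.l 204)) (T.l 204)) (T.l 1)) (T.b (T.a (T.a (T.c (T.b (T.l 204) (T.l 1)) (T.b (T.l 204) (T.l 1))) (T.l 204)) (T.l 204)) (T.l 1))) (T.c (T.b (T.l 204) (T.l 1)) (T.b (T.l 204) (T.l 1)))) (T.l 1))) (T.c (T.b (T.a (T.c (T.b (T.l 204) (T.l 1)) (T.b (T.l 204) (T.l 1))) (T.c (T.b (T.a (T.l 204) (T.a (T.l 220) (T.l 204))) (T.l 1)) (T.b (T.a (T.l 204) (T.a (T.l 220) (T.l 204))) (T.l 1)))) (T.l 1)) (T.b (T.a (T.c (T.b (T.l 204) (T.l 1)) (T.b (T.l 204) (T.l 1))) (T.c (T.b (T.a (T.l 204) (T.a (T.l 204) (T.l 204))) (T.l 1)) (T.b (T.a (T.l 204) (T.a (T.l 204) (T.l 204))) (T.l 1)))) (T.l 1)))) (T.l 1)) (T.b (T.a (T.c (T.b (T.a (T.c (T.b (T.a (T.a (T.c (T.b (T.l 204) (T.l 1)) (T.b (T.l 204) (T.l 1))) (T.l 204)) (T.l 204)) (T.l 1)) (T.b (T.a (T.a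 (T.c (T.b (T.l 204) (T.l 1)) (T.b (T.l 204) (T.l 1))) (T.l 204)) (T.l 204)) (T.l 1))) (T.c (T.b (T.l 204) (T.l 1)) (T.b (T.l 204) (T.l 1)))) (T.l 1)) (T.b (T.a (T.c (T.b (T.a (T.a (T.c (T.b (T.l 204) (T.l 1)) (T.b (T.l 204) (T.l 1))) (T.l 204)) (T.l 204)) (T.l 1)) (T.b (T.a (T.a (T.c (T.b (T.l 204) (T.l 1)) (T.b (T.l 204) (T.l 1))) (T.l 204)) (T.l 204)) (T.l 1))) (T.c (T.b (T.l 204) (T.l 1)) (T.b (T.l 204) (T.l 1)))) (T.l 1))) (T.c (T.b (T.a (T.c (T.b (T.l 204) (T.l 1)) (T.b (T.l 204) (T.l 1))) (T.c (T.b (T.a (T.l 204) (T.a (T.l 204) (T.l 204))) (T.l 1)) (T.b (T.a (T.l 204) (T.a (T.l 204) (T.l 204))) (T.l 1)))) (T.l 1)) (T.b (T.a (T.c (T.b (T.l 204) (T.l 1)) (T.b (T.l 204) (T.l 1))) (T.c (T.b (T.a (T.l 204) (T.a (T.l 204) (T.l 204))) (T.l 1)) (T.b (T.a (T.l 204)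 (T.a (T.l 204) (T.l 204))) (T.l 1)))) (T.l 1)))) (T.l 1)))) (T.l 1))), by decide +kernel⟩

def B202E_020_5_512_6 :
    ∃ t, chk3 (onCell 0 33554432 0 1073741824 33554432 16777216 (corTK [[⟨0, 1, 0, 6291456⟩, ⟨1, 0, 1, 16777216⟩, ⟨2, 1, 1, 16777216⟩, ⟨1, 0, 0, 67108864⟩, ⟨1, 1, 0, 1056964608⟩, ⟨2, 1, 0, 67108864⟩, ⟨2, 2, 0, 1056964608⟩]] true 1 c0F cB202E gF0q2 gF2q2 gF0q0 gF1q0 true true)) t 5 512 6 = true :=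
  ⟨(T.b (T.a (T.c (T.b (T.a (T.c (T.b (T.a (T.c (T.b (T.a (T.l 204) (T.l 204)) (T.l 1)) (T.b (T.a (T.l 204) (T.l 204)) (T.l 1))) (T.c (T.b (T.l 204) (T.l 1)) (T.b (T.l 204) (T.l 1)))) (T.l 1)) (T.b (T.a (T.c (T.b (T.a (T.l 204) (T.l 204)) (T.l 1)) (T.b (T.a (T.l 204) (T.l 204)) (T.l 1))) (T.c (T.b (T.l 204) (T.l 1)) (T.b (T.l 204) (T.l 1)))) (T.l 1))) (T.c (T.b (T.a (T.c (T.b (T.l 204) (T.l 1)) (T.b (T.l 204) (T.l 1))) (T.c (T.b (T.l 220) (T.l 1)) (T.b (T.l 220) (T.l 1)))) (T.l 1)) (T.b (T.a (T.c (T.b (T.l 204) (T.l 1)) (T.b (T.l 204) (T.l 1))) (T.c (T.b (T.l 220) (T.l 1)) (T.b (T.l 220) (T.l 1)))) (T.l 1)))) (T.l 1)) (T.b (T.a (T.c (T.b (T.a (T.c (T.b (T.l 220) (T.l 1)) (T.b (T.l 220) (T.l 1))) (T.c (T.b (T.l 204) (T.l 1)) (T.b (T.l 204) (T.l 1)))) (T.l 1)) (T.b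 (T.a (T.c (T.b (T.l 220) (T.l 1)) (T.b (T.l 220) (T.l 1))) (T.c (T.b (T.l 204) (T.l 1)) (T.b (T.l 204) (T.l 1)))) (T.l 1))) (T.c (T.b (T.a (T.c (T.b (T.l 204) (T.l 1)) (T.b (T.l 204) (T.l 1))) (T.c (T.b (T.l 204) (T.l 1)) (T.b (T.l 204) (T.l 1)))) (T.l 1)) (T.b (T.a (T.c (T.b (T.l 204) (T.l 1)) (T.b (T.l 204) (T.l 1))) (T.c (T.b (T.l 204) (T.l 1)) (T.b (T.l 204) (T.l 1)))) (T.l 1)))) (T.l 1))) (T.c (T.b (T.a (T.c (T.b (T.a (T.c (T.b (T.a (T.l 220) (T.l 220)) (T.l 1)) (T.b (T.l 220) (T.l 1))) (T.c (T.b (T.a (T.l 220) (T.c (T.b (T.l 204) (T.l 1)) (T.a (T.l 220) (T.l 220)))) (T.l 1)) (T.b (T.a (T.l 220) (T.a (T.l 220) (T.l 220))) (T.l 1)))) (T.l 1)) (T.b (T.a (T.c (T.b (T.l 220) (T.l 1)) (T.b (T.l 220) (T.l 1))) (T.c (T.b (T.a (T.l 220) (T.a (T.l 220) (T.l 220)))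 (T.l 1)) (T.b (T.a (T.l 220) (T.a (T.l 220) (T.l 220))) (T.l 1)))) (T.l 1))) (T.c (T.b (T.a (T.c (T.b (T.a (T.c (T.b (T.l 220) (T.l 1)) (T.b (T.l 220) (T.l 1))) (T.c (T.b (T.l 220) (T.l 1)) (T.b (T.l 220) (T.l 1)))) (T.l 1)) (T.b (T.a (T.c (T.b (T.l 204) (T.l 1)) (T.b (T.l 204) (T.l 1))) (T.c (T.b (T.l 220) (T.l 1)) (T.b (T.l 220) (T.l 1)))) (T.l 1))) (T.c (T.b (T.a (T.c (T.b (T.l 220) (T.l 1)) (T.b (T.l 220) (T.l 1))) (T.c (T.b (T.l 476) (T.l 1)) (T.b (T.l 476) (T.l 1)))) (T.l 1)) (T.b (T.a (T.c (T.b (T.l 220) (T.l 1)) (T.b (T.l 220) (T.l 1))) (T.c (T.b (T.l 476) (T.l 1)) (T.b (T.l 476) (T.l 1)))) (T.l 1)))) (T.l 1)) (T.b (T.a (T.c (T.b (T.a (T.c (T.b (T.l 204) (T.l 1)) (T.a (T.l 220) (T.l 220))) (T.c (T.b (T.l 220) (T.l 1)) (T.b (T.l 220) (T.l 1)))) (T.l 1))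 (T.b (T.a (T.a (T.l 220) (T.l 220)) (T.c (T.b (T.l 204) (T.l 1)) (T.a (T.l 220) (T.l 220)))) (T.l 1))) (T.c (T.b (T.a (T.c (T.b (T.l 220) (T.l 1)) (T.b (T.l 220) (T.l 1))) (T.c (T.b (T.l 476) (T.l 1)) (T.b (T.l 476) (T.l 1)))) (T.l 1)) (T.b (T.a (T.c (T.b (T.l 220) (T.l 1)) (T.b (T.l 220) (T.l 1))) (T.c (T.b (T.l 476) (T.l 1)) (T.b (T.l 476) (T.l 1)))) (T.l 1)))) (T.l 1)))) (T.l 1)) (T.b (T.a (T.c (T.b (T.a (T.c (T.b (T.l 220) (T.l 1)) (T.b (T.l 220) (T.l 1))) (T.c (T.b (T.a (T.l 220) (T.l 220)) (T.l 1)) (T.b (T.a (T.l 220) (T.l 220)) (T.l 1)))) (T.l 1)) (T.b (T.a (T.c (T.b (T.l 220) (T.l 1)) (T.b (T.l 220) (T.l 1))) (T.c (T.b (T.a (T.l 220) (T.l 220)) (T.l 1)) (T.b (T.a (T.l 220) (T.l 220)) (T.l 1)))) (T.l 1))) (T.c (T.b (T.a (T.c (T.b (T.a (T.a (T.l 220) (T.l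 220)) (T.a (T.l 220) (T.l 220))) (T.l 1)) (T.b (T.a (T.l 220) (T.a (T.l 220) (T.l 220))) (T.l 1))) (T.c (T.b (T.a (T.c (T.b (T.l 220) (T.l 1)) (T.a (T.l 220) (T.l 220))) (T.c (T.b (T.l 476) (T.l 1)) (T.b (T.l 476) (T.l 1)))) (T.l 1)) (T.b (T.a (T.a (T.l 220) (T.l 220)) (T.c (T.b (T.l 476) (T.l 1)) (T.b (T.l 476) (T.l 1)))) (T.l 1)))) (T.l 1)) (T.b (T.a (T.c (T.b (T.a (T.l 220) (T.l 220)) (T.l 1)) (T.b (T.a (T.l 220) (T.l 220)) (T.l 1))) (T.c (T.b (T.a (T.a (T.l 220) (T.l 220)) (T.a (T.l 220) (T.l 476))) (T.l 1)) (T.b (T.a (T.l 220) (T.a (T.l 220) (T.l 476))) (T.l 1)))) (T.l 1)))) (T.l 1)))) (T.l 1)), by decide +kernel⟩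

def B202E_020_5_512_7 :
    ∃ t, chk3 (onCell 0 33554432 0 1073741824 33554432 16777216 (corTK [[⟨0, 1, 0, 6291456⟩, ⟨1, 0, 1, 16777216⟩, ⟨2, 1, 1, 16777216⟩, ⟨1, 0, 0, 67108864⟩, ⟨1, 1, 0, 1056964608⟩, ⟨2, 1, 0, 67108864⟩, ⟨2, 2, 0, 1056964608⟩]] true 1 c0F cB202E gF0q2 gF2q2 gF0q0 gF1q0 true true)) t 5 512 7 = true :=
  ⟨(T.b (T.a (T.c (T.b (T.a (T.c (T.b (T.a (T.c (T.b (T.l 220) (T.l 1)) (T.b (T.l 220) (T.l 1))) (T.c (T.b (T.l 204) (T.l 1)) (T.b (T.l 204) (T.l 1)))) (T.l 1)) (T.b (T.a (T.c (T.b (T.l 220) (T.l 1)) (T.b (T.l 204) (T.l 1))) (T.c (T.b (T.l 204) (T.l 1)) (T.b (T.l 204) (T.l 1)))) (T.l 1))) (T.c (T.b (T.a (T.c (T.b (T.l 204) (T.l 1)) (T.b (T.l 204) (T.l 1))) (T.c (T.b (T.l 204) (T.l 1)) (T.b (T.l 204) (T.l 1)))) (T.l 1)) (T.b (T.a (T.c (T.b (T.l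 204) (T.l 1)) (T.b (T.l 204) (T.l 1))) (T.c (T.b (T.l 204) (T.l 1)) (T.b (T.l 204) (T.l 1)))) (T.l 1)))) (T.l 1)) (T.b (T.a (T.c (T.b (T.a (T.c (T.b (T.l 204) (T.l 1)) (T.b (T.l 204) (T.l 1))) (T.c (T.b (T.l 204) (T.l 1)) (T.b (T.l 204) (T.l 1)))) (T.l 1)) (T.b (T.a (T.c (T.b (T.l 204) (T.l 1)) (T.b (T.l 204) (T.l 1))) (T.c (T.b (T.l 204) (T.l 1)) (T.b (T.l 204) (T.l 1)))) (T.l 1))) (T.c (T.b (T.a (T.c (T.b (T.l 204) (T.l 1)) (T.b (T.l 204) (T.l 1))) (T.c (T.b (T.l 204) (T.l 1)) (T.b (T.l 204) (T.l 1)))) (T.l 1)) (T.b (T.a (T.c (T.b (T.l 204) (T.l 1)) (T.b (T.l 204) (T.l 1))) (T.c (T.b (T.l 204) (T.l 1)) (T.b (T.l 204) (T.l 1)))) (T.l 1)))) (T.l 1))) (T.c (T.b (T.a (T.c (T.b (T.a (T.c (T.b (T.l 220) (T.l 1)) (T.b (T.l 204) (T.l 1))) (T.c (T.b (T.a (T.l 204) (T.l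 220)) (T.l 1)) (T.b (T.a (T.l 204) (T.l 220)) (T.l 1)))) (T.l 1)) (T.b (T.a (T.c (T.b (T.l 204) (T.l 1)) (T.b (T.l 204) (T.l 1))) (T.c (T.b (T.a (T.l 204) (T.l 220)) (T.l 1)) (T.b (T.a (T.l 204) (T.l 220)) (T.l 1)))) (T.l 1))) (T.c (T.b (T.a (T.c (T.b (T.a (T.l 220) (T.l 220)) (T.l 1)) (T.b (T.a (T.l 220) (T.l 220)) (T.l 1))) (T.c (T.b (T.a (T.l 220) (T.a (T.l 220) (T.l 476))) (T.l 1)) (T.b (T.a (T.l 220) (T.a (T.l 220) (T.l 476))) (T.l 1)))) (T.l 1)) (T.b (T.a (T.c (T.b (T.a (T.l 220) (T.l 220)) (T.l 1)) (T.b (T.a (T.l 220) (T.l 220)) (T.l 1))) (T.c (T.b (T.a (T.l 220) (T.l 476)) (T.l 1)) (T.b (T.a (T.l 220) (T.l 476)) (T.l 1)))) (T.l 1)))) (T.l 1)) (T.b (T.a (T.c (T.b (T.a (T.c (T.b (T.l 204) (T.l 1)) (T.b (T.l 204) (T.l 1))) (T.c (T.b (T.a (T.l 204) (T.l 220))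 (T.l 1)) (T.b (T.l 220) (T.l 1)))) (T.l 1)) (T.b (T.a (T.c (T.b (T.l 204) (T.l 1)) (T.b (T.l 204) (T.l 1))) (T.c (T.b (T.l 220) (T.l 1)) (T.b (T.l 220) (T.l 1)))) (T.l 1))) (T.c (T.b (T.a (T.c (T.b (T.a (T.l 220) (T.l 220)) (T.l 1)) (T.b (T.l 220) (T.l 1))) (T.c (T.b (T.a (T.l 220) (T.l 476)) (T.l 1)) (T.b (T.a (T.l 220) (T.l 476)) (T.l 1)))) (T.l 1)) (T.b (T.a (T.c (T.b (T.l 220) (T.l 1)) (T.b (T.l 220) (T.l 1))) (T.c (T.b (T.a (T.l 220) (T.l 476)) (T.l 1)) (T.b (T.a (T.l 220) (T.l 476)) (T.l 1)))) (T.l 1)))) (T.l 1)))) (T.l 1)), by decide +kernel⟩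

def B202E_020_2_513_3 :
    ∃ t, chk3 (onCell 0 33554432 0 1073741824 33554432 16777216 (corTK [[⟨0, 1, 0, 6291456⟩, ⟨1, 0, 1, 16777216⟩, ⟨2, 1, 1, 16777216⟩, ⟨1, 0, 0, 67108864⟩, ⟨1, 1, 0, 1056964608⟩, ⟨2, 1, 0, 67108864⟩, ⟨2, 2, 0, 1056964608⟩]] true 1 c0F cB202E gF0q2 gF2q2 gF0q0 gF1q0 true true)) t 2 513 3 = true :=
  ⟨(T.l 1), by decide +kernel⟩

def B202E_020_12_1024_8 :
    ∃ t, chk3 (onCell 0 33554432 0 1073741824 33554432 16777216 (corTK [[⟨0, 1, 0, 6291456⟩, ⟨1, 0, 1, 16777216⟩, ⟨2, 1, 1, 16777216⟩, ⟨1, 0, 0, 67108864⟩, ⟨1, 1, 0, 1056964608⟩, ⟨2, 1, 0, 67108864⟩, ⟨2, 2, 0, 1056964608⟩]] true 1 c0F cB202E gF0q2 gF2q2 gF0q0 gF1q0 true true)) t 12 1024 8 = true :=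
  ⟨(T.b (T.a (T.c (T.b (T.a (T.c (T.b (T.a (T.c (T.b (T.a (T.c (T.b (T.l 476) (T.l 1)) (T.b (T.l 476) (T.l 1))) (T.c (T.l 1024) (T.b (T.l 476) (T.l 1)))) (T.l 1)) (T.b (T.a (T.c (T.b (T.l 476) (T.l 1)) (T.b (T.l 476) (T.l 1))) (T.c (T.b (T.l 476) (T.l 1)) (T.b (T.l 476) (T.l 1)))) (T.l 1))) (T.a (T.a (T.c (T.l 1024) (T.a (T.c (T.l 1024) (T.a (T.b (T.b (T.l 476) (T.l 1)) (T.l 1)) (T.l 1024))) (T.l 1024))) (T.l 1024)) (T.l 1024))) (T.l 1)) (T.b (T.a (T.c (T.b (T.a (T.c (T.b (T.l 476) (T.l 1)) (T.b (T.l 476) (T.l 1))) (T.c (T.b (T.l 476) (T.l 1)) (T.b (T.l 476) (T.l 1)))) (T.l 1)) (T.b (T.a (T.c (T.b (T.l 476) (T.l 1)) (T.b (T.l 476) (T.l 1))) (T.c (T.b (T.l 476) (T.l 1)) (T.b (T.l 476) (T.l 1)))) (T.l 1))) (T.c (T.b (T.a (T.c (T.b (T.l 476) (T.l 1)) (T.b (T.l 476)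 (T.l 1))) (T.c (T.l 1024) (T.b (T.l 476) (T.l 1)))) (T.l 1)) (T.b (T.a (T.c (T.b (T.l 476) (T.l 1)) (T.b (T.l 476) (T.l 1))) (T.c (T.b (T.l 476) (T.l 1)) (T.b (T.l 476) (T.l 1)))) (T.l 1)))) (T.l 1))) (T.a (T.a (T.c (T.l 1024) (T.a (T.c (T.l 1024) (T.b (T.a (T.c (T.l 1024) (T.a (T.b (T.b (T.l 476) (T.l 1)) (T.l 1)) (T.l 1024))) (T.l 1024)) (T.l 1))) (T.l 1024))) (T.l 1024)) (T.l 1024))) (T.l 1)) (T.b (T.a (T.c (T.b (T.a (T.c (T.b (T.a (T.c (T.b (T.l 476) (T.l 1)) (T.b (T.l 476) (T.l 1))) (T.c (T.b (T.l 476) (T.l 1)) (T.b (T.l 476) (T.l 1)))) (T.l 1)) (T.b (T.a (T.c (T.b (T.l 476) (T.l 1)) (T.b (T.l 476) (T.l 1))) (T.c (T.b (T.l 476) (T.l 1)) (T.b (T.l 476) (T.l 1)))) (T.l 1))) (T.c (T.b (T.a (T.c (T.b (T.l 476) (T.l 1)) (T.b (T.l 476) (T.l 1))) (T.c (T.b (T.l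 476) (T.l 1)) (T.b (T.l 476) (T.l 1)))) (T.l 1)) (T.b (T.a (T.c (T.b (T.l 476) (T.l 1)) (T.b (T.l 476) (T.l 1))) (T.c (T.b (T.l 476) (T.l 1)) (T.b (T.l 476) (T.l 1)))) (T.l 1)))) (T.l 1)) (T.b (T.a (T.c (T.b (T.a (T.c (T.b (T.l 476) (T.l 1)) (T.b (T.l 476) (T.l 1))) (T.c (T.b (T.l 476) (T.l 1)) (T.b (T.l 476) (T.l 1)))) (T.l 1)) (T.b (T.a (T.c (T.b (T.l 476) (T.l 1)) (T.b (T.l 476) (T.l 1))) (T.c (T.b (T.l 476) (T.l 1)) (T.b (T.l 476) (T.l 1)))) (T.l 1))) (T.c (T.b (T.a (T.c (T.b (T.l 476) (T.l 1)) (T.b (T.l 476) (T.l 1))) (T.c (T.b (T.l 476) (T.l 1)) (T.b (T.l 476) (T.l 1)))) (T.l 1)) (T.b (T.a (T.c (T.b (T.l 476) (T.l 1)) (T.b (T.l 476) (T.l 1))) (T.c (T.b (T.l 476) (T.l 1)) (T.b (T.l 476) (T.l 1)))) (T.l 1)))) (T.l 1))) (T.c (T.b (T.a (T.c (T.b (T.a (T.c (T.b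 (T.l 476) (T.l 1)) (T.b (T.l 476) (T.l 1))) (T.c (T.l 1024) (T.b (T.l 476) (T.l 1)))) (T.l 1)) (T.b (T.a (T.c (T.b (T.l 476) (T.l 1)) (T.b (T.l 476) (T.l 1))) (T.c (T.b (T.l 476) (T.l 1)) (T.b (T.l 476) (T.l 1)))) (T.l 1))) (T.a (T.a (T.c (T.l 1024) (T.a (T.c (T.l 1024) (T.a (T.b (T.b (T.l 476) (T.l 1)) (T.l 1)) (T.l 1024))) (T.l 1024))) (T.l 1024)) (T.l 1024))) (T.l 1)) (T.b (T.a (T.c (T.b (T.a (T.c (T.b (T.l 476) (T.l 1)) (T.b (T.l 476) (T.l 1))) (T.c (T.b (T.l 476) (T.l 1)) (T.b (T.l 476) (T.l 1)))) (T.l 1)) (T.b (T.a (T.c (T.b (T.l 476) (T.l 1)) (T.b (T.l 476) (T.l 1))) (T.c (T.b (T.l 476) (T.l 1)) (T.b (T.l 476) (T.l 1)))) (T.l 1))) (T.c (T.b (T.a (T.c (T.b (T.l 476) (T.l 1)) (T.b (T.l 476) (T.l 1))) (T.c (T.l 1024) (T.b (T.l 476) (T.l 1)))) (T.l 1)) (T.b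 (T.a (T.c (T.b (T.l 476) (T.l 1)) (T.b (T.l 476) (T.l 1))) (T.c (T.b (T.l 476) (T.l 1)) (T.b (T.l 476) (T.l 1)))) (T.l 1)))) (T.l 1)))) (T.l 1))) (T.a (T.a (T.c (T.l 1024) (T.a (T.c (T.l 1024) (T.b (T.a (T.c (T.l 1024) (T.b (T.a (T.c (T.l 1024) (T.a (T.b (T.b (T.l 476) (T.l 1)) (T.l 1)) (T.l 1024))) (T.l 1024)) (T.l 1))) (T.l 1024)) (T.l 1))) (T.l 1024))) (T.l 1024)) (T.l 1024))) (T.l 1)), by decide +kernel⟩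

def B202E_020_24_2048_9 :
    ∃ t, chk3 (onCell 0 33554432 0 1073741824 33554432 16777216 (corTK [[⟨0, 1, 0, 6291456⟩, ⟨1, 0, 1, 16777216⟩, ⟨2, 1, 1, 16777216⟩, ⟨1, 0, 0, 67108864⟩, ⟨1, 1, 0, 1056964608⟩, ⟨2, 1, 0, 67108864⟩, ⟨2, 2, 0, 1056964608⟩]] true 1 c0F cB202E gF0q2 gF2q2 gF0q0 gF1q0 true true)) t 24 2048 9 = true :=
  ⟨(T.c (T.b (T.a (T.c (T.b (T.a (T.c (T.b (T.a (T.c (T.b (T.l 476) (T.l 1)) (T.b (T.l 476) (T.l 1))) (T.c (T.b (T.l 476) (T.l 1)) (T.b (T.l 476) (T.l 1)))) (T.l 1)) (T.b (T.a (T.c (T.b (T.l 476) (T.l 1)) (T.b (T.l 476) (T.l 1))) (T.c (T.b (T.l 476) (T.l 1)) (T.b (T.l 476) (T.l 1)))) (T.l 1))) (T.c (T.b (T.a (T.c (T.b (T.l 476) (T.l 1)) (T.b (T.l 476) (T.l 1))) (T.c (T.b (T.l 476) (T.l 1)) (T.b (T.l 476) (T.l 1)))) (T.l 1)) (T.b (T.a (T.c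 (T.b (T.l 476) (T.l 1)) (T.b (T.l 476) (T.l 1))) (T.c (T.b (T.l 476) (T.l 1)) (T.b (T.l 476) (T.l 1)))) (T.l 1)))) (T.l 1)) (T.b (T.a (T.c (T.b (T.a (T.c (T.b (T.l 476) (T.l 1)) (T.b (T.l 476) (T.l 1))) (T.c (T.b (T.l 476) (T.l 1)) (T.b (T.l 476) (T.l 1)))) (T.l 1)) (T.b (T.a (T.c (T.b (T.l 476) (T.l 1)) (T.b (T.l 476) (T.l 1))) (T.c (T.b (T.l 476) (T.l 1)) (T.b (T.l 476) (T.l 1)))) (T.l 1))) (T.c (T.b (T.a (T.c (T.b (T.l 476) (T.l 1)) (T.b (T.l 476) (T.l 1))) (T.c (T.b (T.l 476) (T.l 1)) (T.b (T.l 476) (T.l 1)))) (T.l 1)) (T.b (T.a (T.c (T.b (T.l 476) (T.l 1)) (T.b (T.l 476) (T.l 1))) (T.c (T.b (T.l 476) (T.l 1)) (T.b (T.l 476) (T.l 1)))) (T.l 1)))) (T.l 1))) (T.c (T.b (T.a (T.c (T.b (T.a (T.c (T.b (T.l 476) (T.l 1)) (T.b (T.l 476) (T.l 1))) (T.c (T.b (T.l 476)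 (T.l 1)) (T.b (T.l 476) (T.l 1)))) (T.l 1)) (T.b (T.a (T.c (T.b (T.l 476) (T.l 1)) (T.b (T.l 476) (T.l 1))) (T.c (T.b (T.l 476) (T.l 1)) (T.b (T.l 476) (T.l 1)))) (T.l 1))) (T.c (T.b (T.a (T.c (T.b (T.l 476) (T.l 1)) (T.b (T.l 476) (T.l 1))) (T.c (T.b (T.l 476) (T.l 1)) (T.b (T.l 476) (T.l 1)))) (T.l 1)) (T.b (T.a (T.c (T.b (T.l 476) (T.l 1)) (T.b (T.l 476) (T.l 1))) (T.c (T.b (T.l 476) (T.l 1)) (T.b (T.l 476) (T.l 1)))) (T.l 1)))) (T.l 1)) (T.b (T.a (T.c (T.b (T.a (T.c (T.b (T.l 476) (T.l 1)) (T.b (T.l 476) (T.l 1))) (T.c (T.b (T.l 476) (T.l 1)) (T.b (T.l 476) (T.l 1)))) (T.l 1)) (T.b (T.a (T.c (T.b (T.l 476) (T.l 1)) (T.b (T.l 476) (T.l 1))) (T.c (T.b (T.l 476) (T.l 1)) (T.b (T.l 476) (T.l 1)))) (T.l 1))) (T.c (T.b (T.a (T.c (T.b (T.l 476) (T.l 1)) (T.b (T.l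 476) (T.l 1))) (T.c (T.b (T.l 476) (T.l 1)) (T.b (T.l 476) (T.l 1)))) (T.l 1)) (T.b (T.a (T.c (T.b (T.l 476) (T.l 1)) (T.b (T.l 476) (T.l 1))) (T.c (T.b (T.l 476) (T.l 1)) (T.b (T.l 476) (T.l 1)))) (T.l 1)))) (T.l 1)))) (T.l 1)) (T.b (T.a (T.c (T.b (T.a (T.c (T.b (T.a (T.c (T.b (T.l 476) (T.l 1)) (T.b (T.l 476) (T.l 1))) (T.c (T.b (T.l 476) (T.l 1)) (T.b (T.l 476) (T.l 1)))) (T.l 1)) (T.b (T.a (T.a (T.l 476) (T.l 476)) (T.c (T.b (T.l 476) (T.l 1)) (T.b (T.l 476) (T.l 1)))) (T.l 1))) (T.c (T.b (T.a (T.c (T.b (T.l 476) (T.l 1)) (T.b (T.l 476) (T.l 1))) (T.c (T.b (T.l 476) (T.l 1)) (T.b (T.l 476) (T.l 1)))) (T.l 1)) (T.b (T.a (T.c (T.b (T.l 476) (T.l 1)) (T.b (T.l 476) (T.l 1))) (T.c (T.b (T.l 476) (T.l 1)) (T.b (T.l 476) (T.l 1)))) (T.l 1)))) (T.l 1)) (T.b (T.a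 (T.c (T.b (T.a (T.a (T.l 476) (T.l 476)) (T.a (T.l 476) (T.l 476))) (T.l 1)) (T.b (T.a (T.l 476) (T.a (T.l 476) (T.l 476))) (T.l 1))) (T.c (T.b (T.a (T.c (T.b (T.l 476) (T.l 1)) (T.b (T.l 476) (T.l 1))) (T.c (T.b (T.l 476) (T.l 1)) (T.b (T.l 476) (T.l 1)))) (T.l 1)) (T.b (T.a (T.a (T.l 476) (T.l 476)) (T.c (T.b (T.l 476) (T.l 1)) (T.a (T.l 476) (T.l 476)))) (T.l 1)))) (T.l 1))) (T.c (T.b (T.a (T.c (T.b (T.a (T.c (T.b (T.l 476) (T.l 1)) (T.b (T.l 476) (T.l 1))) (T.c (T.b (T.l 476) (T.l 1)) (T.b (T.l 476) (T.l 1)))) (T.l 1)) (T.b (T.a (T.c (T.b (T.l 476) (T.l 1)) (T.b (T.l 476) (T.l 1))) (T.c (T.b (T.l 476) (T.l 1)) (T.b (T.l 476) (T.l 1)))) (T.l 1))) (T.c (T.b (T.a (T.c (T.b (T.l 476) (T.l 1)) (T.b (T.l 476) (T.l 1))) (T.c (T.b (T.l 476) (T.l 1)) (T.b (T.l 476)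 (T.l 1)))) (T.l 1)) (T.b (T.a (T.c (T.b (T.l 476) (T.l 1)) (T.b (T.l 476) (T.l 1))) (T.c (T.b (T.l 476) (T.l 1)) (T.b (T.l 476) (T.l 1)))) (T.l 1)))) (T.l 1)) (T.b (T.a (T.c (T.b (T.a (T.c (T.b (T.l 476) (T.l 1)) (T.b (T.l 476) (T.l 1))) (T.c (T.b (T.l 476) (T.l 1)) (T.b (T.l 476) (T.l 1)))) (T.l 1)) (T.b (T.a (T.c (T.b (T.l 476) (T.l 1)) (T.b (T.l 476) (T.l 1))) (T.c (T.b (T.l 476) (T.l 1)) (T.b (T.l 476) (T.l 1)))) (T.l 1))) (T.c (T.b (T.a (T.c (T.b (T.l 476) (T.l 1)) (T.b (T.l 476) (T.l 1))) (T.c (T.b (T.l 476) (T.l 1)) (T.b (T.l 476) (T.l 1)))) (T.l 1)) (T.b (T.a (T.c (T.b (T.l 476) (T.l 1)) (T.b (T.l 476) (T.l 1))) (T.c (T.b (T.l 476) (T.l 1)) (T.b (T.l 476) (T.l 1)))) (T.l 1)))) (T.l 1)))) (T.l 1))), by decide +kernel⟩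

def B202E_020_25_2048_9 :
    ∃ t, chk3 (onCell 0 33554432 0 1073741824 33554432 16777216 (corTK [[⟨0, 1, 0, 6291456⟩, ⟨1, 0, 1, 16777216⟩, ⟨2, 1, 1, 16777216⟩, ⟨1, 0, 0, 67108864⟩, ⟨1, 1, 0, 1056964608⟩, ⟨2, 1, 0, 67108864⟩, ⟨2, 2, 0, 1056964608⟩]] true 1 c0F cB202E gF0q2 gF2q2 gF0q0 gF1q0 true true)) t 25 2048 9 = true :=
  ⟨(T.c (T.b (T.a (T.c (T.b (T.a (T.c (T.b (T.a (T.c (T.b (T.l 476) (T.l 1)) (T.b (T.l 476) (T.l 1))) (T.c (T.l 1024) (T.b (T.l 476) (T.l 1)))) (T.l 1)) (T.b (T.a (T.c (T.b (T.l 476) (T.l 1)) (T.b (T.l 476) (T.l 1))) (T.c (T.b (T.l 476) (T.l 1)) (T.b (T.l 476) (T.l 1)))) (T.l 1))) (T.a (T.a (T.c (T.l 1024) (T.a (T.c (T.l 1024) (T.a (T.b (T.b (T.l 476) (T.l 1)) (T.l 1)) (T.l 1024))) (T.l 1024))) (T.l 1024)) (T.l 1024))) (T.l 1)) (T.b (T.a (T.c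 (T.b (T.a (T.c (T.b (T.l 476) (T.l 1)) (T.b (T.l 476) (T.l 1))) (T.c (T.b (T.l 476) (T.l 1)) (T.b (T.l 476) (T.l 1)))) (T.l 1)) (T.b (T.a (T.c (T.b (T.l 476) (T.l 1)) (T.b (T.l 476) (T.l 1))) (T.c (T.b (T.l 476) (T.l 1)) (T.b (T.l 476) (T.l 1)))) (T.l 1))) (T.c (T.b (T.a (T.c (T.b (T.l 476) (T.l 1)) (T.b (T.l 476) (T.l 1))) (T.c (T.l 1024) (T.b (T.l 476) (T.l 1)))) (T.l 1)) (T.b (T.a (T.c (T.b (T.l 476) (T.l 1)) (T.b (T.l 476) (T.l 1))) (T.c (T.b (T.l 476) (T.l 1)) (T.b (T.l 476) (T.l 1)))) (T.l 1)))) (T.l 1))) (T.a (T.a (T.c (T.l 1024) (T.a (T.c (T.l 1024) (T.b (T.a (T.c (T.l 1024) (T.a (T.b (T.b (T.l 476) (T.l 1)) (T.l 1)) (T.l 1024))) (T.l 1024)) (T.l 1))) (T.l 1024))) (T.l 1024)) (T.l 1024))) (T.l 1)) (T.b (T.a (T.c (T.b (T.a (T.c (T.b (T.a (T.c (T.b (T.l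 476) (T.l 1)) (T.b (T.l 476) (T.l 1))) (T.c (T.b (T.l 476) (T.l 1)) (T.b (T.l 476) (T.l 1)))) (T.l 1)) (T.b (T.a (T.c (T.b (T.l 476) (T.l 1)) (T.b (T.l 476) (T.l 1))) (T.c (T.b (T.l 476) (T.l 1)) (T.b (T.l 476) (T.l 1)))) (T.l 1))) (T.c (T.b (T.a (T.c (T.b (T.l 476) (T.l 1)) (T.b (T.l 476) (T.l 1))) (T.c (T.b (T.l 476) (T.l 1)) (T.b (T.l 476) (T.l 1)))) (T.l 1)) (T.b (T.a (T.c (T.b (T.l 476) (T.l 1)) (T.b (T.l 476) (T.l 1))) (T.c (T.b (T.l 476) (T.l 1)) (T.b (T.l 476) (T.l 1)))) (T.l 1)))) (T.l 1)) (T.b (T.a (T.c (T.b (T.a (T.c (T.b (T.l 476) (T.l 1)) (T.b (T.l 476) (T.l 1))) (T.c (T.b (T.l 476) (T.l 1)) (T.b (T.l 476) (T.l 1)))) (T.l 1)) (T.b (T.a (T.c (T.b (T.l 476) (T.l 1)) (T.b (T.l 476) (T.l 1))) (T.c (T.b (T.l 476) (T.l 1)) (T.b (T.l 476) (T.l 1)))) (T.l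 1))) (T.c (T.b (T.a (T.c (T.b (T.l 476) (T.l 1)) (T.b (T.l 476) (T.l 1))) (T.c (T.b (T.l 476) (T.l 1)) (T.b (T.l 476) (T.l 1)))) (T.l 1)) (T.b (T.a (T.c (T.b (T.l 476) (T.l 1)) (T.b (T.l 476) (T.l 1))) (T.c (T.b (T.l 476) (T.l 1)) (T.b (T.l 476) (T.l 1)))) (T.l 1)))) (T.l 1))) (T.c (T.b (T.a (T.c (T.b (T.a (T.c (T.b (T.l 476) (T.l 1)) (T.b (T.l 476) (T.l 1))) (T.c (T.l 1024) (T.b (T.l 476) (T.l 1)))) (T.l 1)) (T.b (T.a (T.c (T.b (T.l 476) (T.l 1)) (T.b (T.l 476) (T.l 1))) (T.c (T.b (T.l 476) (T.l 1)) (T.b (T.l 476) (T.l 1)))) (T.l 1))) (T.a (T.a (T.c (T.l 1024) (T.a (T.c (T.l 1024) (T.a (T.b (T.b (T.l 476) (T.l 1)) (T.l 1)) (T.l 1024))) (T.l 1024))) (T.l 1024)) (T.l 1024))) (T.l 1)) (T.b (T.a (T.c (T.b (T.a (T.c (T.b (T.l 476) (T.l 1)) (T.b (T.l 476) (T.l 1)))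 (T.c (T.b (T.l 476) (T.l 1)) (T.b (T.l 476) (T.l 1)))) (T.l 1)) (T.b (T.a (T.c (T.b (T.l 476) (T.l 1)) (T.b (T.l 476) (T.l 1))) (T.c (T.b (T.l 476) (T.l 1)) (T.b (T.l 476) (T.l 1)))) (T.l 1))) (T.c (T.b (T.a (T.c (T.b (T.l 476) (T.l 1)) (T.b (T.l 476) (T.l 1))) (T.c (T.l 1024) (T.b (T.l 476) (T.l 1)))) (T.l 1)) (T.b (T.a (T.c (T.b (T.l 476) (T.l 1)) (T.b (T.l 476) (T.l 1))) (T.c (T.b (T.l 476) (T.l 1)) (T.b (T.l 476) (T.l 1)))) (T.l 1)))) (T.l 1)))) (T.l 1))), by decide +kernel⟩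

def B202E_020_12_2049_9 :
    ∃ t, chk3 (onCell 0 33554432 0 1073741824 33554432 16777216 (corTK [[⟨0, 1, 0, 6291456⟩, ⟨1, 0, 1, 16777216⟩, ⟨2, 1, 1, 16777216⟩, ⟨1, 0, 0, 67108864⟩, ⟨1, 1, 0, 1056964608⟩, ⟨2, 1, 0, 67108864⟩, ⟨2, 2, 0, 1056964608⟩]] true 1 c0F cB202E gF0q2 gF2q2 gF0q0 gF1q0 true true)) t 12 2049 9 = true :=
  ⟨(T.l 1), by decide +kernel⟩

end Pool.Agent.Strip051.G.I1_32_3_64.Tab.CF
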