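import Pool.Agent.Strip051.G.I1_32_3_64.Gn
import Pool.Agent.Strip051.PB.Corns
import Pool.Agent.Strip051.PB.CornK

/-! # Certificates of the aligned corners (generated) -/

set_option linter.all false

namespace Pool.Agent.Strip051.G.I1_32_3_64.Tab.CF

open Pool.Agent.Strip051.PB

def B202E_020_13_1024_4 :
    ∃ t, chk3 (onCell 0 33554432 0 1073741824 33554432 16777216 (corTK [[⟨0, 1, 0, 6291456⟩, ⟨1, 0, 1, 16777216⟩, ⟨2, 1, 1, 16777216⟩, ⟨1, 0, 0, 67108864⟩, ⟨1, 1, 0, 1056964608⟩, ⟨2, 1, 0, 67108864⟩, ⟨2, 2, 0, 1056964608⟩]] true 1 c0F cB202E gF0q2 gF2q2 gF0q0 gF1q0 true true)) t 13 1024 4 = true :=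
  ⟨(T.a (T.a (T.c (T.l 1024) (T.a (T.c (T.l 1024) (T.b (T.a (T.c (T.l 1024) (T.b (T.a (T.c (T.l 1024) (T.a (T.b (T.c (T.l 1024) (T.a (T.b (T.b (T.l 476) (T.l 1)) (T.l 1)) (T.l 1024))) (T.l 1)) (T.l 1024))) (T.l 1024)) (T.l 1))) (T.l 1024)) (T.l 1))) (T.l 1024))) (T.l 1024)) (T.l 1024)), by decide +kernel⟩

def B202E_020_6_1025_4 :
    ∃ t, chk3 (onCell 0 33554432 0 1073741824 33554432 16777216 (corTK [[⟨0, 1, 0, 6291456⟩, ⟨1, 0, 1, 16777216⟩, ⟨2, 1, 1, 16777216⟩, ⟨1, 0, 0, 67108864⟩, ⟨1, 1, 0, 1056964608⟩, ⟨2, 1, 0, 67108864⟩, ⟨2, 2, 0, 1056964608⟩]] true 1 c0F cB202E gF0q2 gF2q2 gF0q0 gF1q0 true true)) t 6 1025 4 = true :=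
  ⟨(T.l 1), by decide +kernel⟩

def B202E_020_24_2048_10 :
    ∃ t, chk3 (onCell 0 33554432 0 1073741824 33554432 16777216 (corTK [[⟨0, 1, 0, 6291456⟩, ⟨1, 0, 1, 16777216⟩, ⟨2, 1, 1, 16777216⟩, ⟨1, 0, 0, 67108864⟩, ⟨1, 1, 0, 1056964608⟩, ⟨2, 1, 0, 67108864⟩, ⟨2, 2, 0, 1056964608⟩]] true 1 c0F cB202E gF0q2 gF2q2 gF0q0 gF1q0 true true)) t 24 2048 10 = true :=
  ⟨(T.c (T.b (T.a (T.c (T.b (T.a (T.c (T.b (T.a (T.l 476) (T.l 476)) (T.l 1)) (T.b (T.a (T.l 476) (T.l 476)) (T.l 1))) (T.c (T.b (T.a (T.a (T.l 476) (T.l 476)) (T.a (T.l 476) (T.l 476))) (T.l 1)) (T.b (T.a (T.l 476) (T.a (T.l 476) (T.l 476))) (T.l 1)))) (T.l 1)) (T.b (T.a (T.c (T.b (T.a (T.l 476) (T.l 476)) (T.l 1)) (T.b (T.a (T.l 476) (T.l 476)) (T.l 1))) (T.c (T.b (T.a (T.l 476) (T.l 476)) (T.l 1)) (T.b (T.a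 (T.l 476) (T.l 476)) (T.l 1)))) (T.l 1))) (T.c (T.b (T.a (T.c (T.b (T.a (T.c (T.b (T.l 476) (T.l 1)) (T.a (T.l 476) (T.l 476))) (T.c (T.b (T.l 476) (T.l 1)) (T.b (T.l 476) (T.l 1)))) (T.l 1)) (T.b (T.a (T.a (T.l 476) (T.l 476)) (T.c (T.b (T.l 476) (T.l 1)) (T.a (T.l 476) (T.l 476)))) (T.l 1))) (T.c (T.b (T.a (T.c (T.b (T.l 476) (T.l 1)) (T.b (T.l 476) (T.l 1))) (T.c (T.b (T.l 476) (T.l 1)) (T.b (T.l 476) (T.l 1)))) (T.l 1)) (T.b (T.a (T.c (T.b (T.l 476) (T.l 1)) (T.b (T.l 476) (T.l 1))) (T.c (T.b (T.l 476) (T.l 1)) (T.b (T.l 476) (T.l 1)))) (T.l 1)))) (T.l 1)) (T.b (T.a (T.c (T.b (T.a (T.l 476) (T.a (T.l 476) (T.l 476))) (T.l 1)) (T.b (T.a (T.l 476) (T.l 476)) (T.l 1))) (T.c (T.b (T.a (T.c (T.b (T.l 476) (T.l 1)) (T.a (T.l 476) (T.l 476))) (T.c (T.b (T.l 476)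 (T.l 1)) (T.b (T.l 476) (T.l 1)))) (T.l 1)) (T.b (T.a (T.a (T.l 476) (T.l 476)) (T.c (T.b (T.l 476) (T.l 1)) (T.a (T.l 476) (T.l 476)))) (T.l 1)))) (T.l 1)))) (T.l 1)) (T.b (T.a (T.c (T.b (T.a (T.c (T.b (T.a (T.l 476) (T.l 476)) (T.l 1)) (T.b (T.a (T.l 476) (T.l 476)) (T.l 1))) (T.c (T.b (T.a (T.l 476) (T.l 476)) (T.l 1)) (T.b (T.a (T.l 476) (T.l 476)) (T.l 1)))) (T.l 1)) (T.b (T.a (T.c (T.b (T.l 476) (T.l 1)) (T.b (T.l 476) (T.l 1))) (T.c (T.b (T.a (T.l 476) (T.l 476)) (T.l 1)) (T.b (T.l 476) (T.l 1)))) (T.l 1))) (T.c (T.b (T.a (T.c (T.b (T.a (T.l 476) (T.l 476)) (T.l 1)) (T.b (T.a (T.l 476) (T.l 476)) (T.l 1))) (T.c (T.b (T.a (T.l 476) (T.a (T.l 476) (T.l 476))) (T.l 1)) (T.b (T.a (T.l 476) (T.l 476)) (T.l 1)))) (T.l 1)) (T.b (T.a (T.c (T.b (T.a (T.l 476) (T.l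 476)) (T.l 1)) (T.b (T.a (T.l 476) (T.l 476)) (T.l 1))) (T.c (T.b (T.a (T.l 476) (T.l 476)) (T.l 1)) (T.b (T.a (T.l 476) (T.l 476)) (T.l 1)))) (T.l 1)))) (T.l 1))), by decide +kernel⟩

def B202E_020_25_2048_10 :
    ∃ t, chk3 (onCell 0 33554432 0 1073741824 33554432 16777216 (corTK [[⟨0, 1, 0, 6291456⟩, ⟨1, 0, 1, 16777216⟩, ⟨2, 1, 1, 16777216⟩, ⟨1, 0, 0, 67108864⟩, ⟨1, 1, 0, 1056964608⟩, ⟨2, 1, 0, 67108864⟩, ⟨2, 2, 0, 1056964608⟩]] true 1 c0F cB202E gF0q2 gF2q2 gF0q0 gF1q0 true true)) t 25 2048 10 = true :=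
  ⟨(T.c (T.b (T.a (T.c (T.b (T.a (T.c (T.b (T.a (T.c (T.b (T.l 476) (T.l 1)) (T.b (T.l 476) (T.l 1))) (T.c (T.b (T.l 476) (T.l 1)) (T.b (T.l 476) (T.l 1)))) (T.l 1)) (T.b (T.a (T.c (T.b (T.l 476) (T.l 1)) (T.b (T.l 476) (T.l 1))) (T.c (T.b (T.l 476) (T.l 1)) (T.b (T.l 476) (T.l 1)))) (T.l 1))) (T.c (T.b (T.a (T.c (T.b (T.l 476) (T.l 1)) (T.b (T.l 476) (T.l 1))) (T.c (T.b (T.l 476) (T.l 1)) (T.b (T.l 476) (T.l 1)))) (T.l 1)) (T.b (T.a (T.c (T.b (T.l 476) (T.l 1)) (T.b (T.l 476) (T.l 1))) (T.c (T.b (T.l 476) (T.l 1)) (T.b (T.l 476) (T.l 1)))) (T.l 1)))) (T.l 1)) (T.b (T.a (T.c (T.b (T.a (T.c (T.b (T.l 476) (T.l 1)) (T.b (T.l 476) (T.l 1))) (T.c (T.b (T.l 476) (T.l 1)) (T.b (T.l 476) (T.l 1)))) (T.l 1)) (T.b (T.a (T.c (T.b (T.l 476) (T.l 1)) (T.b (T.l 476) (T.l 1)))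 (T.c (T.b (T.l 476) (T.l 1)) (T.b (T.l 476) (T.l 1)))) (T.l 1))) (T.c (T.b (T.a (T.c (T.b (T.l 476) (T.l 1)) (T.b (T.l 476) (T.l 1))) (T.c (T.b (T.l 476) (T.l 1)) (T.b (T.l 476) (T.l 1)))) (T.l 1)) (T.b (T.a (T.c (T.b (T.l 476) (T.l 1)) (T.b (T.l 476) (T.l 1))) (T.c (T.b (T.l 476) (T.l 1)) (T.b (T.l 476) (T.l 1)))) (T.l 1)))) (T.l 1))) (T.c (T.b (T.a (T.c (T.b (T.a (T.c (T.b (T.l 476) (T.l 1)) (T.b (T.l 476) (T.l 1))) (T.c (T.b (T.l 476) (T.l 1)) (T.b (T.l 476) (T.l 1)))) (T.l 1)) (T.b (T.a (T.c (T.b (T.l 476) (T.l 1)) (T.b (T.l 476) (T.l 1))) (T.c (T.b (T.l 476) (T.l 1)) (T.b (T.l 476) (T.l 1)))) (T.l 1))) (T.c (T.b (T.a (T.c (T.b (T.l 476) (T.l 1)) (T.b (T.l 476) (T.l 1))) (T.c (T.b (T.l 476) (T.l 1)) (T.b (T.l 476) (T.l 1)))) (T.l 1)) (T.b (T.a (T.c (T.b (T.l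 476) (T.l 1)) (T.b (T.l 476) (T.l 1))) (T.c (T.b (T.l 476) (T.l 1)) (T.b (T.l 476) (T.l 1)))) (T.l 1)))) (T.l 1)) (T.b (T.a (T.c (T.b (T.a (T.c (T.b (T.l 476) (T.l 1)) (T.b (T.l 476) (T.l 1))) (T.c (T.b (T.l 476) (T.l 1)) (T.b (T.l 476) (T.l 1)))) (T.l 1)) (T.b (T.a (T.c (T.b (T.l 476) (T.l 1)) (T.b (T.l 476) (T.l 1))) (T.c (T.b (T.l 476) (T.l 1)) (T.b (T.l 476) (T.l 1)))) (T.l 1))) (T.c (T.b (T.a (T.c (T.b (T.l 476) (T.l 1)) (T.b (T.l 476) (T.l 1))) (T.c (T.b (T.l 476) (T.l 1)) (T.b (T.l 476) (T.l 1)))) (T.l 1)) (T.b (T.a (T.c (T.b (T.l 476) (T.l 1)) (T.b (T.l 476) (T.l 1))) (T.c (T.b (T.l 476) (T.l 1)) (T.b (T.l 476) (T.l 1)))) (T.l 1)))) (T.l 1)))) (T.l 1)) (T.b (T.a (T.c (T.b (T.a (T.c (T.b (T.a (T.c (T.b (T.l 476) (T.l 1)) (T.a (T.l 476) (T.l 476))) (T.c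 (T.b (T.l 476) (T.l 1)) (T.b (T.l 476) (T.l 1)))) (T.l 1)) (T.b (T.a (T.a (T.l 476) (T.l 476)) (T.c (T.b (T.l 476) (T.l 1)) (T.a (T.l 476) (T.l 476)))) (T.l 1))) (T.c (T.b (T.a (T.c (T.b (T.l 476) (T.l 1)) (T.b (T.l 476) (T.l 1))) (T.c (T.b (T.l 476) (T.l 1)) (T.b (T.l 476) (T.l 1)))) (T.l 1)) (T.b (T.a (T.c (T.b (T.l 476) (T.l 1)) (T.b (T.l 476) (T.l 1))) (T.c (T.b (T.l 476) (T.l 1)) (T.b (T.l 476) (T.l 1)))) (T.l 1)))) (T.l 1)) (T.b (T.a (T.c (T.b (T.a (T.l 476) (T.a (T.l 476) (T.l 476))) (T.l 1)) (T.b (T.a (T.l 476) (T.l 476)) (T.l 1))) (T.c (T.b (T.a (T.c (T.b (T.l 476) (T.l 1)) (T.a (T.l 476) (T.l 476))) (T.c (T.b (T.l 476) (T.l 1)) (T.b (T.l 476) (T.l 1)))) (T.l 1)) (T.b (T.a (T.a (T.l 476) (T.l 476)) (T.c (T.b (T.l 476) (T.l 1)) (T.a (T.l 476) (T.l 476))))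 (T.l 1)))) (T.l 1))) (T.c (T.b (T.a (T.c (T.b (T.a (T.c (T.b (T.l 476) (T.l 1)) (T.b (T.l 476) (T.l 1))) (T.c (T.b (T.l 476) (T.l 1)) (T.b (T.l 476) (T.l 1)))) (T.l 1)) (T.b (T.a (T.c (T.b (T.l 476) (T.l 1)) (T.b (T.l 476) (T.l 1))) (T.c (T.b (T.l 476) (T.l 1)) (T.b (T.l 476) (T.l 1)))) (T.l 1))) (T.c (T.b (T.a (T.c (T.b (T.l 476) (T.l 1)) (T.b (T.l 476) (T.l 1))) (T.c (T.b (T.l 476) (T.l 1)) (T.b (T.l 476) (T.l 1)))) (T.l 1)) (T.b (T.a (T.c (T.b (T.l 476) (T.l 1)) (T.b (T.l 476) (T.l 1))) (T.c (T.b (T.l 476) (T.l 1)) (T.b (T.l 476) (T.l 1)))) (T.l 1)))) (T.l 1)) (T.b (T.a (T.c (T.b (T.a (T.c (T.b (T.l 476) (T.l 1)) (T.b (T.l 476) (T.l 1))) (T.c (T.b (T.l 476) (T.l 1)) (T.b (T.l 476) (T.l 1)))) (T.l 1)) (T.b (T.a (T.c (T.b (T.l 476) (T.l 1)) (T.b (T.l 476) (T.l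 1))) (T.c (T.b (T.l 476) (T.l 1)) (T.b (T.l 476) (T.l 1)))) (T.l 1))) (T.c (T.b (T.a (T.c (T.b (T.l 476) (T.l 1)) (T.b (T.l 476) (T.l 1))) (T.c (T.b (T.l 476) (T.l 1)) (T.b (T.l 476) (T.l 1)))) (T.l 1)) (T.b (T.a (T.c (T.b (T.l 476) (T.l 1)) (T.b (T.l 476) (T.l 1))) (T.c (T.b (T.l 476) (T.l 1)) (T.b (T.l 476) (T.l 1)))) (T.l 1)))) (T.l 1)))) (T.l 1))), by decide +kernel⟩

def B202E_020_12_2049_10 :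
    ∃ t, chk3 (onCell 0 33554432 0 1073741824 33554432 16777216 (corTK [[⟨0, 1, 0, 6291456⟩, ⟨1, 0, 1, 16777216⟩, ⟨2, 1, 1, 16777216⟩, ⟨1, 0, 0, 67108864⟩, ⟨1, 1, 0, 1056964608⟩, ⟨2, 1, 0, 67108864⟩, ⟨2, 2, 0, 1056964608⟩]] true 1 c0F cB202E gF0q2 gF2q2 gF0q0 gF1q0 true true)) t 12 2049 10 = true :=
  ⟨(T.l 1), by decide +kernel⟩

def B202E_020_12_1024_11 :
    ∃ t, chk3 (onCell 0 33554432 0 1073741824 33554432 16777216 (corTK [[⟨0, 1, 0, 6291456⟩, ⟨1, 0, 1, 16777216⟩, ⟨2, 1, 1, 16777216⟩, ⟨1, 0, 0, 67108864⟩, ⟨1, 1, 0, 1056964608⟩, ⟨2, 1, 0, 67108864⟩, ⟨2, 2, 0, 1056964608⟩]] true 1 c0F cB202E gF0q2 gF2q2 gF0q0 gF1q0 true true)) t 12 1024 11 = true :=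
  ⟨(T.b (T.a (T.c (T.b (T.a (T.c (T.b (T.a (T.c (T.b (T.l 476) (T.l 1)) (T.b (T.l 476) (T.l 1))) (T.c (T.b (T.l 476) (T.l 1)) (T.b (T.l 476) (T.l 1)))) (T.l 1)) (T.b (T.a (T.c (T.b (T.l 476) (T.l 1)) (T.b (T.l 476) (T.l 1))) (T.c (T.b (T.l 476) (T.l 1)) (T.b (T.l 476) (T.l 1)))) (T.l 1))) (T.c (T.b (T.a (T.c (T.b (T.a (T.l 476) (T.l 476)) (T.l 1)) (T.b (T.l 476) (T.l 1))) (T.c (T.b (T.a (T.l 476) (T.l 476)) (T.l 1)) (T.b (T.a (T.l 476) (T.l 476)) (T.l 1)))) (T.l 1)) (T.b (T.a (T.c (T.b (T.l 476) (T.l 1)) (T.b (T.l 476) (T.l 1))) (T.c (T.b (T.l 476) (T.l 1)) (T.b (T.l 476) (T.l 1)))) (T.l 1)))) (T.l 1)) (T.b (T.a (T.c (T.b (T.a (T.c (T.b (T.l 476) (T.l 1)) (T.b (T.l 476) (T.l 1))) (T.c (T.b (T.l 476) (T.l 1)) (T.b (T.l 476) (T.l 1)))) (T.l 1)) (T.b (T.a (T.c (T.b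 (T.l 476) (T.l 1)) (T.b (T.l 476) (T.l 1))) (T.c (T.b (T.l 476) (T.l 1)) (T.b (T.l 476) (T.l 1)))) (T.l 1))) (T.c (T.b (T.a (T.c (T.b (T.l 476) (T.l 1)) (T.b (T.l 476) (T.l 1))) (T.c (T.b (T.l 476) (T.l 1)) (T.b (T.l 476) (T.l 1)))) (T.l 1)) (T.b (T.a (T.c (T.b (T.l 476) (T.l 1)) (T.b (T.l 476) (T.l 1))) (T.c (T.b (T.l 476) (T.l 1)) (T.b (T.l 476) (T.l 1)))) (T.l 1)))) (T.l 1))) (T.c (T.b (T.a (T.c (T.b (T.a (T.c (T.b (T.a (T.l 476) (T.l 476)) (T.l 1)) (T.b (T.a (T.l 476) (T.l 476)) (T.l 1))) (T.c (T.b (T.a (T.l 476) (T.a (T.l 476) (T.l 476))) (T.l 1)) (T.b (T.a (T.l 476) (T.l 476)) (T.l 1)))) (T.l 1)) (T.b (T.a (T.c (T.b (T.a (T.l 476) (T.l 476)) (T.l 1)) (T.b (T.a (T.l 476) (T.l 476)) (T.l 1))) (T.c (T.b (T.a (T.l 476) (T.l 476)) (T.l 1)) (T.b (T.a (T.l 476)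 (T.l 476)) (T.l 1)))) (T.l 1))) (T.c (T.b (T.a (T.c (T.b (T.a (T.c (T.a (T.l 476) (T.l 476)) (T.a (T.l 476) (T.l 476))) (T.c (T.b (T.l 476) (T.l 1)) (T.b (T.l 476) (T.l 1)))) (T.l 1)) (T.b (T.a (T.a (T.l 476) (T.l 476)) (T.c (T.a (T.l 476) (T.l 476)) (T.a (T.l 476) (T.l 476)))) (T.l 1))) (T.c (T.b (T.a (T.c (T.b (T.l 476) (T.l 1)) (T.b (T.l 476) (T.l 1))) (T.c (T.b (T.l 476) (T.l 1)) (T.b (T.l 476) (T.l 1)))) (T.l 1)) (T.b (T.a (T.c (T.b (T.l 476) (T.l 1)) (T.b (T.l 476) (T.l 1))) (T.c (T.b (T.l 476) (T.l 1)) (T.b (T.l 476) (T.l 1)))) (T.l 1)))) (T.l 1)) (T.b (T.a (T.c (T.b (T.a (T.l 476) (T.a (T.l 476) (T.l 476))) (T.l 1)) (T.b (T.a (T.l 476) (T.l 476)) (T.l 1))) (T.c (T.b (T.a (T.a (T.l 476) (T.l 476)) (T.c (T.b (T.l 476) (T.l 1)) (T.b (T.l 476) (T.l 1)))) (T.l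 1)) (T.b (T.a (T.a (T.l 476) (T.l 476)) (T.a (T.l 476) (T.l 476))) (T.l 1)))) (T.l 1)))) (T.l 1)) (T.b (T.a (T.c (T.b (T.a (T.c (T.b (T.l 476) (T.l 1)) (T.b (T.l 476) (T.l 1))) (T.c (T.b (T.a (T.l 476) (T.l 476)) (T.l 1)) (T.b (T.a (T.l 476) (T.l 476)) (T.l 1)))) (T.l 1)) (T.b (T.a (T.c (T.b (T.l 476) (T.l 1)) (T.b (T.l 476) (T.l 1))) (T.c (T.b (T.l 476) (T.l 1)) (T.b (T.l 476) (T.l 1)))) (T.l 1))) (T.c (T.b (T.a (T.c (T.b (T.a (T.l 476) (T.l 476)) (T.l 1)) (T.b (T.a (T.l 476) (T.l 476)) (T.l 1))) (T.c (T.b (T.a (T.l 476) (T.a (T.l 476) (T.l 476))) (T.l 1)) (T.b (T.a (T.l 476) (T.l 476)) (T.l 1)))) (T.l 1)) (T.b (T.a (T.c (T.b (T.a (T.l 476) (T.l 476)) (T.l 1)) (T.b (T.l 476) (T.l 1))) (T.c (T.b (T.a (T.l 476) (T.l 476)) (T.l 1)) (T.b (T.a (T.l 476) (T.l 476))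 (T.l 1)))) (T.l 1)))) (T.l 1)))) (T.l 1)), by decide +kernel⟩

def B202E_020_13_1024_10 :
    ∃ t, chk3 (onCell 0 33554432 0 1073741824 33554432 16777216 (corTK [[⟨0, 1, 0, 6291456⟩, ⟨1, 0, 1, 16777216⟩, ⟨2, 1, 1, 16777216⟩, ⟨1, 0, 0, 67108864⟩, ⟨1, 1, 0, 1056964608⟩, ⟨2, 1, 0, 67108864⟩, ⟨2, 2, 0, 1056964608⟩]] true 1 c0F cB202E gF0q2 gF2q2 gF0q0 gF1q0 true true)) t 13 1024 10 = true :=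
  ⟨(T.b (T.a (T.c (T.b (T.a (T.c (T.b (T.a (T.c (T.b (T.a (T.c (T.b (T.l 476) (T.l 1)) (T.b (T.l 476) (T.l 1))) (T.c (T.l 1024) (T.b (T.l 476) (T.l 1)))) (T.l 1)) (T.b (T.a (T.c (T.b (T.l 476) (T.l 1)) (T.b (T.l 476) (T.l 1))) (T.c (T.b (T.l 476) (T.l 1)) (T.b (T.l 476) (T.l 1)))) (T.l 1))) (T.a (T.a (T.c (T.l 1024) (T.a (T.c (T.l 1024) (T.a (T.b (T.b (T.l 476) (T.l 1)) (T.l 1)) (T.l 1024))) (T.l 1024))) (T.l 1024)) (T.l 1024))) (T.l 1)) (T.b (T.a (T.c (T.b (T.a (T.c (T.b (T.l 476) (T.l 1)) (T.b (T.l 476) (T.l 1))) (T.c (T.b (T.l 476) (T.l 1)) (T.b (T.l 476) (T.l 1)))) (T.l 1)) (T.b (T.a (T.c (T.b (T.l 476) (T.l 1)) (T.b (T.l 476) (T.l 1))) (T.c (T.b (T.l 476) (T.l 1)) (T.b (T.l 476) (T.l 1)))) (T.l 1))) (T.c (T.b (T.a (T.c (T.b (T.l 476) (T.l 1)) (T.b (T.l 476)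 (T.l 1))) (T.c (T.l 1024) (T.b (T.l 476) (T.l 1)))) (T.l 1)) (T.b (T.a (T.c (T.b (T.l 476) (T.l 1)) (T.b (T.l 476) (T.l 1))) (T.c (T.b (T.l 476) (T.l 1)) (T.b (T.l 476) (T.l 1)))) (T.l 1)))) (T.l 1))) (T.a (T.a (T.c (T.l 1024) (T.a (T.c (T.l 1024) (T.b (T.a (T.c (T.l 1024) (T.a (T.b (T.b (T.l 476) (T.l 1)) (T.l 1)) (T.l 1024))) (T.l 1024)) (T.l 1))) (T.l 1024))) (T.l 1024)) (T.l 1024))) (T.l 1)) (T.b (T.a (T.c (T.b (T.a (T.c (T.b (T.a (T.c (T.b (T.l 476) (T.l 1)) (T.b (T.l 476) (T.l 1))) (T.c (T.b (T.l 476) (T.l 1)) (T.b (T.l 476) (T.l 1)))) (T.l 1)) (T.b (T.a (T.c (T.b (T.l 476) (T.l 1)) (T.b (T.l 476) (T.l 1))) (T.c (T.b (T.l 476) (T.l 1)) (T.b (T.l 476) (T.l 1)))) (T.l 1))) (T.c (T.b (T.a (T.c (T.b (T.l 476) (T.l 1)) (T.b (T.l 476) (T.l 1))) (T.c (T.b (T.l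 476) (T.l 1)) (T.b (T.l 476) (T.l 1)))) (T.l 1)) (T.b (T.a (T.c (T.b (T.l 476) (T.l 1)) (T.b (T.l 476) (T.l 1))) (T.c (T.b (T.l 476) (T.l 1)) (T.b (T.l 476) (T.l 1)))) (T.l 1)))) (T.l 1)) (T.b (T.a (T.c (T.b (T.a (T.c (T.b (T.l 476) (T.l 1)) (T.b (T.l 476) (T.l 1))) (T.c (T.b (T.l 476) (T.l 1)) (T.b (T.l 476) (T.l 1)))) (T.l 1)) (T.b (T.a (T.c (T.b (T.l 476) (T.l 1)) (T.b (T.l 476) (T.l 1))) (T.c (T.b (T.l 476) (T.l 1)) (T.b (T.l 476) (T.l 1)))) (T.l 1))) (T.c (T.b (T.a (T.c (T.b (T.l 476) (T.l 1)) (T.b (T.l 476) (T.l 1))) (T.c (T.b (T.l 476) (T.l 1)) (T.b (T.l 476) (T.l 1)))) (T.l 1)) (T.b (T.a (T.c (T.b (T.l 476) (T.l 1)) (T.b (T.l 476) (T.l 1))) (T.c (T.b (T.l 476) (T.l 1)) (T.b (T.l 476) (T.l 1)))) (T.l 1)))) (T.l 1))) (T.c (T.b (T.a (T.c (T.b (T.a (T.c (T.b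 (T.l 476) (T.l 1)) (T.b (T.l 476) (T.l 1))) (T.c (T.l 1024) (T.b (T.l 476) (T.l 1)))) (T.l 1)) (T.b (T.a (T.c (T.b (T.l 476) (T.l 1)) (T.b (T.l 476) (T.l 1))) (T.c (T.b (T.l 476) (T.l 1)) (T.b (T.l 476) (T.l 1)))) (T.l 1))) (T.a (T.a (T.c (T.l 1024) (T.a (T.c (T.l 1024) (T.a (T.b (T.b (T.l 476) (T.l 1)) (T.l 1)) (T.l 1024))) (T.l 1024))) (T.l 1024)) (T.l 1024))) (T.l 1)) (T.b (T.a (T.c (T.b (T.a (T.c (T.b (T.l 476) (T.l 1)) (T.b (T.l 476) (T.l 1))) (T.c (T.b (T.l 476) (T.l 1)) (T.b (T.l 476) (T.l 1)))) (T.l 1)) (T.b (T.a (T.c (T.b (T.l 476) (T.l 1)) (T.b (T.l 476) (T.l 1))) (T.c (T.b (T.l 476) (T.l 1)) (T.b (T.l 476) (T.l 1)))) (T.l 1))) (T.c (T.b (T.a (T.c (T.b (T.l 476) (T.l 1)) (T.b (T.l 476) (T.l 1))) (T.c (T.l 1024) (T.b (T.l 476) (T.l 1)))) (T.l 1)) (T.b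 (T.a (T.c (T.b (T.l 476) (T.l 1)) (T.b (T.l 476) (T.l 1))) (T.c (T.b (T.l 476) (T.l 1)) (T.b (T.l 476) (T.l 1)))) (T.l 1)))) (T.l 1)))) (T.l 1))) (T.a (T.a (T.c (T.l 1024) (T.a (T.c (T.l 1024) (T.b (T.a (T.c (T.l 1024) (T.b (T.a (T.c (T.l 1024) (T.b (T.b (T.l 476) (T.l 1)) (T.l 1))) (T.l 1024)) (T.l 1))) (T.l 1024)) (T.l 1))) (T.l 1024))) (T.l 1024)) (T.l 1024))) (T.l 1)), by decide +kernel⟩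

def B202E_020_26_2048_11 :
    ∃ t, chk3 (onCell 0 33554432 0 1073741824 33554432 16777216 (corTK [[⟨0, 1, 0, 6291456⟩, ⟨1, 0, 1, 16777216⟩, ⟨2, 1, 1, 16777216⟩, ⟨1, 0, 0, 67108864⟩, ⟨1, 1, 0, 1056964608⟩, ⟨2, 1, 0, 67108864⟩, ⟨2, 2, 0, 1056964608⟩]] true 1 c0F cB202E gF0q2 gF2q2 gF0q0 gF1q0 true true)) t 26 2048 11 = true :=
  ⟨(T.c (T.b (T.a (T.c (T.b (T.a (T.c (T.b (T.a (T.c (T.b (T.l 476) (T.l 1)) (T.b (T.l 476) (T.l 1))) (T.c (T.b (T.l 476) (T.l 1)) (T.b (T.l 476) (T.l 1)))) (T.l 1)) (T.b (T.a (T.c (T.b (T.l 476) (T.l 1)) (T.b (T.l 476) (T.l 1))) (T.c (T.b (T.l 476) (T.l 1)) (T.b (T.l 476) (T.l 1)))) (T.l 1))) (T.c (T.b (T.a (T.c (T.b (T.l 476) (T.l 1)) (T.b (T.l 476) (T.l 1))) (T.c (T.b (T.l 476) (T.l 1)) (T.b (T.l 476) (T.l 1)))) (T.l 1)) (T.b (T.a (T.c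 (T.b (T.l 476) (T.l 1)) (T.b (T.l 476) (T.l 1))) (T.c (T.b (T.l 476) (T.l 1)) (T.b (T.l 476) (T.l 1)))) (T.l 1)))) (T.l 1)) (T.b (T.a (T.c (T.b (T.a (T.c (T.b (T.l 476) (T.l 1)) (T.b (T.l 476) (T.l 1))) (T.c (T.b (T.l 476) (T.l 1)) (T.b (T.l 476) (T.l 1)))) (T.l 1)) (T.b (T.a (T.c (T.b (T.l 476) (T.l 1)) (T.b (T.l 476) (T.l 1))) (T.c (T.b (T.l 476) (T.l 1)) (T.b (T.l 476) (T.l 1)))) (T.l 1))) (T.c (T.b (T.a (T.c (T.b (T.l 476) (T.l 1)) (T.b (T.l 476) (T.l 1))) (T.c (T.b (T.l 476) (T.l 1)) (T.b (T.l 476) (T.l 1)))) (T.l 1)) (T.b (T.a (T.c (T.b (T.l 476) (T.l 1)) (T.b (T.l 476) (T.l 1))) (T.c (T.b (T.l 476) (T.l 1)) (T.b (T.l 476) (T.l 1)))) (T.l 1)))) (T.l 1))) (T.c (T.b (T.a (T.c (T.b (T.a (T.c (T.b (T.l 476) (T.l 1)) (T.b (T.l 476) (T.l 1))) (T.c (T.b (T.l 476)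 (T.l 1)) (T.b (T.l 476) (T.l 1)))) (T.l 1)) (T.b (T.a (T.c (T.b (T.l 476) (T.l 1)) (T.b (T.l 476) (T.l 1))) (T.c (T.b (T.l 476) (T.l 1)) (T.b (T.l 476) (T.l 1)))) (T.l 1))) (T.c (T.b (T.a (T.c (T.b (T.l 476) (T.l 1)) (T.b (T.l 476) (T.l 1))) (T.c (T.b (T.l 476) (T.l 1)) (T.b (T.l 476) (T.l 1)))) (T.l 1)) (T.b (T.a (T.c (T.b (T.l 476) (T.l 1)) (T.b (T.l 476) (T.l 1))) (T.c (T.b (T.l 476) (T.l 1)) (T.b (T.l 476) (T.l 1)))) (T.l 1)))) (T.l 1)) (T.b (T.a (T.c (T.b (T.a (T.c (T.b (T.l 476) (T.l 1)) (T.b (T.l 476) (T.l 1))) (T.c (T.b (T.l 476) (T.l 1)) (T.b (T.l 476) (T.l 1)))) (T.l 1)) (T.b (T.a (T.c (T.b (T.l 476) (T.l 1)) (T.b (T.l 476) (T.l 1))) (T.c (T.b (T.l 476) (T.l 1)) (T.b (T.l 476) (T.l 1)))) (T.l 1))) (T.c (T.b (T.a (T.c (T.b (T.l 476) (T.l 1)) (T.b (T.l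 476) (T.l 1))) (T.c (T.b (T.l 476) (T.l 1)) (T.b (T.l 476) (T.l 1)))) (T.l 1)) (T.b (T.a (T.c (T.b (T.l 476) (T.l 1)) (T.b (T.l 476) (T.l 1))) (T.c (T.b (T.l 476) (T.l 1)) (T.b (T.l 476) (T.l 1)))) (T.l 1)))) (T.l 1)))) (T.l 1)) (T.b (T.a (T.c (T.b (T.a (T.c (T.b (T.a (T.a (T.l 476) (T.l 476)) (T.c (T.b (T.l 476) (T.l 1)) (T.b (T.l 476) (T.l 1)))) (T.l 1)) (T.b (T.a (T.a (T.l 476) (T.l 476)) (T.a (T.l 476) (T.l 476))) (T.l 1))) (T.c (T.b (T.a (T.c (T.b (T.l 476) (T.l 1)) (T.b (T.l 476) (T.l 1))) (T.c (T.b (T.l 476) (T.l 1)) (T.b (T.l 476) (T.l 1)))) (T.l 1)) (T.b (T.a (T.c (T.b (T.l 476) (T.l 1)) (T.b (T.l 476) (T.l 1))) (T.c (T.b (T.l 476) (T.l 1)) (T.b (T.l 476) (T.l 1)))) (T.l 1)))) (T.l 1)) (T.b (T.a (T.c (T.b (T.a (T.l 476) (T.l 476)) (T.l 1)) (T.b (T.a (T.l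 476) (T.l 476)) (T.l 1))) (T.c (T.b (T.a (T.a (T.l 476) (T.l 476)) (T.c (T.b (T.l 476) (T.l 1)) (T.b (T.l 476) (T.l 1)))) (T.l 1)) (T.b (T.a (T.l 476) (T.a (T.l 476) (T.l 476))) (T.l 1)))) (T.l 1))) (T.c (T.b (T.a (T.c (T.b (T.a (T.c (T.b (T.l 476) (T.l 1)) (T.b (T.l 476) (T.l 1))) (T.c (T.b (T.l 476) (T.l 1)) (T.b (T.l 476) (T.l 1)))) (T.l 1)) (T.b (T.a (T.c (T.b (T.l 476) (T.l 1)) (T.b (T.l 476) (T.l 1))) (T.c (T.b (T.l 476) (T.l 1)) (T.b (T.l 476) (T.l 1)))) (T.l 1))) (T.c (T.b (T.a (T.c (T.b (T.l 476) (T.l 1)) (T.b (T.l 476) (T.l 1))) (T.c (T.b (T.l 476) (T.l 1)) (T.b (T.l 476) (T.l 1)))) (T.l 1)) (T.b (T.a (T.c (T.b (T.l 476) (T.l 1)) (T.b (T.l 476) (T.l 1))) (T.c (T.b (T.l 476) (T.l 1)) (T.b (T.l 476) (T.l 1)))) (T.l 1)))) (T.l 1)) (T.b (T.a (T.c (T.b (T.a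 (T.c (T.b (T.l 476) (T.l 1)) (T.b (T.l 476) (T.l 1))) (T.c (T.b (T.l 476) (T.l 1)) (T.b (T.l 476) (T.l 1)))) (T.l 1)) (T.b (T.a (T.c (T.b (T.l 476) (T.l 1)) (T.b (T.l 476) (T.l 1))) (T.c (T.b (T.l 476) (T.l 1)) (T.b (T.l 476) (T.l 1)))) (T.l 1))) (T.c (T.b (T.a (T.c (T.b (T.l 476) (T.l 1)) (T.b (T.l 476) (T.l 1))) (T.c (T.b (T.l 476) (T.l 1)) (T.b (T.l 476) (T.l 1)))) (T.l 1)) (T.b (T.a (T.c (T.b (T.l 476) (T.l 1)) (T.b (T.l 476) (T.l 1))) (T.c (T.b (T.l 476) (T.l 1)) (T.b (T.l 476) (T.l 1)))) (T.l 1)))) (T.l 1)))) (T.l 1))), by decide +kernel⟩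

def B202E_020_27_2048_11 :
    ∃ t, chk3 (onCell 0 33554432 0 1073741824 33554432 16777216 (corTK [[⟨0, 1, 0, 6291456⟩, ⟨1, 0, 1, 16777216⟩, ⟨2, 1, 1, 16777216⟩, ⟨1, 0, 0, 67108864⟩, ⟨1, 1, 0, 1056964608⟩, ⟨2, 1, 0, 67108864⟩, ⟨2, 2, 0, 1056964608⟩]] true 1 c0F cB202E gF0q2 gF2q2 gF0q0 gF1q0 true true)) t 27 2048 11 = true :=
  ⟨(T.c (T.b (T.a (T.c (T.b (T.a (T.c (T.b (T.a (T.c (T.b (T.l 476) (T.l 1)) (T.b (T.l 476) (T.l 1))) (T.c (T.l 1024) (T.b (T.l 476) (T.l 1)))) (T.l 1)) (T.b (T.a (T.c (T.b (T.l 476) (T.l 1)) (T.b (T.l 476) (T.l 1))) (T.c (T.b (T.l 476) (T.l 1)) (T.b (T.l 476) (T.l 1)))) (T.l 1))) (T.a (T.a (T.c (T.l 1024) (T.a (T.c (T.l 1024) (T.b (T.b (T.l 476) (T.l 1)) (T.l 1))) (T.l 1024))) (T.l 1024)) (T.l 1024))) (T.l 1)) (T.b (T.a (T.c (T.b (T.a (T.c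 (T.b (T.l 476) (T.l 1)) (T.b (T.l 476) (T.l 1))) (T.c (T.b (T.l 476) (T.l 1)) (T.b (T.l 476) (T.l 1)))) (T.l 1)) (T.b (T.a (T.c (T.b (T.l 476) (T.l 1)) (T.b (T.l 476) (T.l 1))) (T.c (T.b (T.l 476) (T.l 1)) (T.b (T.l 476) (T.l 1)))) (T.l 1))) (T.c (T.b (T.a (T.c (T.b (T.l 476) (T.l 1)) (T.b (T.l 476) (T.l 1))) (T.c (T.l 1024) (T.b (T.l 476) (T.l 1)))) (T.l 1)) (T.b (T.a (T.c (T.b (T.l 476) (T.l 1)) (T.b (T.l 476) (T.l 1))) (T.c (T.b (T.l 476) (T.l 1)) (T.b (T.l 476) (T.l 1)))) (T.l 1)))) (T.l 1))) (T.a (T.a (T.c (T.l 1024) (T.a (T.c (T.l 1024) (T.b (T.a (T.c (T.l 1024) (T.a (T.b (T.b (T.l 476) (T.l 1)) (T.l 1)) (T.l 1024))) (T.l 1024)) (T.l 1))) (T.l 1024))) (T.l 1024)) (T.l 1024))) (T.l 1)) (T.b (T.a (T.c (T.b (T.a (T.c (T.b (T.a (T.c (T.b (T.l 476) (T.l 1)) (T.b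 (T.l 476) (T.l 1))) (T.c (T.b (T.l 476) (T.l 1)) (T.b (T.l 476) (T.l 1)))) (T.l 1)) (T.b (T.a (T.c (T.b (T.l 476) (T.l 1)) (T.b (T.l 476) (T.l 1))) (T.c (T.b (T.l 476) (T.l 1)) (T.b (T.l 476) (T.l 1)))) (T.l 1))) (T.c (T.b (T.a (T.c (T.b (T.l 476) (T.l 1)) (T.b (T.l 476) (T.l 1))) (T.c (T.b (T.l 476) (T.l 1)) (T.b (T.l 476) (T.l 1)))) (T.l 1)) (T.b (T.a (T.c (T.b (T.l 476) (T.l 1)) (T.b (T.l 476) (T.l 1))) (T.c (T.b (T.l 476) (T.l 1)) (T.b (T.l 476) (T.l 1)))) (T.l 1)))) (T.l 1)) (T.b (T.a (T.c (T.b (T.a (T.c (T.b (T.l 476) (T.l 1)) (T.b (T.l 476) (T.l 1))) (T.c (T.b (T.l 476) (T.l 1)) (T.b (T.l 476) (T.l 1)))) (T.l 1)) (T.b (T.a (T.c (T.b (T.l 476) (T.l 1)) (T.b (T.l 476) (T.l 1))) (T.c (T.b (T.l 476) (T.l 1)) (T.b (T.l 476) (T.l 1)))) (T.l 1))) (T.c (T.b (T.a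 (T.c (T.b (T.l 476) (T.l 1)) (T.b (T.l 476) (T.l 1))) (T.c (T.b (T.l 476) (T.l 1)) (T.b (T.l 476) (T.l 1)))) (T.l 1)) (T.b (T.a (T.c (T.b (T.l 476) (T.l 1)) (T.b (T.l 476) (T.l 1))) (T.c (T.b (T.l 476) (T.l 1)) (T.b (T.l 476) (T.l 1)))) (T.l 1)))) (T.l 1))) (T.c (T.b (T.a (T.c (T.b (T.a (T.c (T.b (T.l 476) (T.l 1)) (T.b (T.l 476) (T.l 1))) (T.c (T.l 1024) (T.b (T.l 476) (T.l 1)))) (T.l 1)) (T.b (T.a (T.c (T.b (T.l 476) (T.l 1)) (T.b (T.l 476) (T.l 1))) (T.c (T.b (T.l 476) (T.l 1)) (T.b (T.l 476) (T.l 1)))) (T.l 1))) (T.a (T.a (T.c (T.l 1024) (T.a (T.c (T.l 1024) (T.a (T.b (T.b (T.l 476) (T.l 1)) (T.l 1)) (T.l 1024))) (T.l 1024))) (T.l 1024)) (T.l 1024))) (T.l 1)) (T.b (T.a (T.c (T.b (T.a (T.c (T.b (T.l 476) (T.l 1)) (T.b (T.l 476) (T.l 1))) (T.c (T.b (T.l 476)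 (T.l 1)) (T.b (T.l 476) (T.l 1)))) (T.l 1)) (T.b (T.a (T.c (T.b (T.l 476) (T.l 1)) (T.b (T.l 476) (T.l 1))) (T.c (T.b (T.l 476) (T.l 1)) (T.b (T.l 476) (T.l 1)))) (T.l 1))) (T.c (T.b (T.a (T.c (T.b (T.l 476) (T.l 1)) (T.b (T.l 476) (T.l 1))) (T.c (T.l 1024) (T.b (T.l 476) (T.l 1)))) (T.l 1)) (T.b (T.a (T.c (T.b (T.l 476) (T.l 1)) (T.b (T.l 476) (T.l 1))) (T.c (T.b (T.l 476) (T.l 1)) (T.b (T.l 476) (T.l 1)))) (T.l 1)))) (T.l 1)))) (T.l 1))), by decide +kernel⟩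

def B202E_020_13_2049_11 :
    ∃ t, chk3 (onCell 0 33554432 0 1073741824 33554432 16777216 (corTK [[⟨0, 1, 0, 6291456⟩, ⟨1, 0, 1, 16777216⟩, ⟨2, 1, 1, 16777216⟩, ⟨1, 0, 0, 67108864⟩, ⟨1, 1, 0, 1056964608⟩, ⟨2, 1, 0, 67108864⟩, ⟨2, 2, 0, 1056964608⟩]] true 1 c0F cB202E gF0q2 gF2q2 gF0q0 gF1q0 true true)) t 13 2049 11 = true :=
  ⟨(T.l 1), by decide +kernel⟩

def B202E_020_6_1025_5 :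
    ∃ t, chk3 (onCell 0 33554432 0 1073741824 33554432 16777216 (corTK [[⟨0, 1, 0, 6291456⟩, ⟨1, 0, 1, 16777216⟩, ⟨2, 1, 1, 16777216⟩, ⟨1, 0, 0, 67108864⟩, ⟨1, 1, 0, 1056964608⟩, ⟨2, 1, 0, 67108864⟩, ⟨2, 2, 0, 1056964608⟩]] true 1 c0F cB202E gF0q2 gF2q2 gF0q0 gF1q0 true true)) t 6 1025 5 = true :=
  ⟨(T.l 1), by decide +kernel⟩

def B202E_020_7_512_2 :
    ∃ t, chk3 (onCell 0 33554432 0 1073741824 33554432 16777216 (corTK [[⟨0, 1, 0, 6291456⟩, ⟨1, 0, 1, 16777216⟩, ⟨2, 1, 1, 16777216⟩, ⟨1, 0, 0, 67108864⟩, ⟨1, 1, 0, 1056964608⟩, ⟨2, 1, 0, 67108864⟩, ⟨2, 2, 0, 1056964608⟩]] true 1 c0F cB202E gF0q2 gF2q2 gF0q0 gF1q0 true true)) t 7 512 2 = true :=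
  ⟨(T.a (T.a (T.c (T.l 1024) (T.a (T.c (T.l 1024) (T.b (T.a (T.c (T.l 1024) (T.b (T.a (T.c (T.l 1024) (T.b (T.a (T.c (T.l 1024) (T.b (T.a (T.c (T.l 1024) (T.a (T.b (T.b (T.l 476) (T.l 1)) (T.l 1)) (T.l 1024))) (T.l 1024)) (T.l 1))) (T.l 1024)) (T.l 1))) (T.l 1024)) (T.l 1))) (T.l 1024)) (T.l 1))) (T.l 1024))) (T.l 1024)) (T.l 1024)), by decide +kernel⟩

def B202E_020_3_513_2 :
    ∃ t, chk3 (onCell 0 33554432 0 1073741824 33554432 16777216 (corTK [[⟨0, 1, 0, 6291456⟩, ⟨1, 0, 1, 16777216⟩, ⟨2, 1, 1, 16777216⟩, ⟨1, 0, 0, 67108864⟩, ⟨1, 1, 0, 1056964608⟩, ⟨2, 1, 0, 67108864⟩, ⟨2, 2, 0, 1056964608⟩]] true 1 c0F cB202E gF0q2 gF2q2 gF0q0 gF1q0 true true)) t 3 513 2 = true :=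
  ⟨(T.l 1), by decide +kernel⟩

def B202E_020_12_1024_6 :
    ∃ t, chk3 (onCell 0 33554432 0 1073741824 33554432 16777216 (corTK [[⟨0, 1, 0, 6291456⟩, ⟨1, 0, 1, 16777216⟩, ⟨2, 1, 1, 16777216⟩, ⟨1, 0, 0, 67108864⟩, ⟨1, 1, 0, 1056964608⟩, ⟨2, 1, 0, 67108864⟩, ⟨2, 2, 0, 1056964608⟩]] true 1 c0F cB202E gF0q2 gF2q2 gF0q0 gF1q0 true true)) t 12 1024 6 = true :=
  ⟨(T.c (T.b (T.a (T.c (T.b (T.a (T.c (T.b (T.a (T.c (T.b (T.l 476) (T.l 1)) (T.b (T.l 476) (T.l 1))) (T.c (T.b (T.l 476) (T.l 1)) (T.b (T.l 476) (T.l 1)))) (T.l 1)) (T.b (T.a (T.c (T.b (T.l 476) (T.l 1)) (T.b (T.l 476) (T.l 1))) (T.c (T.b (T.l 476) (T.l 1)) (T.b (T.l 476) (T.l 1)))) (T.l 1))) (T.c (T.b (T.a (T.c (T.b (T.l 476) (T.l 1)) (T.b (T.l 476) (T.l 1))) (T.c (T.b (T.l 476) (T.l 1)) (T.b (T.l 476) (T.l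 1)))) (T.l 1)) (T.b (T.a (T.c (T.b (T.l 476) (T.l 1)) (T.b (T.l 476) (T.l 1))) (T.c (T.b (T.l 476) (T.l 1)) (T.b (T.l 476) (T.l 1)))) (T.l 1)))) (T.l 1)) (T.b (T.a (T.c (T.b (T.a (T.c (T.b (T.l 476) (T.l 1)) (T.b (T.l 476) (T.l 1))) (T.c (T.b (T.l 476) (T.l 1)) (T.b (T.l 476) (T.l 1)))) (T.l 1)) (T.b (T.a (T.c (T.b (T.l 476) (T.l 1)) (T.b (T.l 476) (T.l 1))) (T.c (T.b (T.l 476) (T.l 1)) (T.b (T.l 476) (T.l 1)))) (T.l 1))) (T.c (T.b (T.a (T.c (T.b (T.l 476) (T.l 1)) (T.b (T.l 476) (T.l 1))) (T.c (T.b (T.l 476) (T.l 1)) (T.b (T.l 476) (T.l 1)))) (T.l 1)) (T.b (T.a (T.c (T.b (T.l 476) (T.l 1)) (T.b (T.l 476) (T.l 1))) (T.c (T.b (T.l 476) (T.l 1)) (T.b (T.l 476) (T.l 1)))) (T.l 1)))) (T.l 1))) (T.c (T.b (T.a (T.c (T.b (T.a (T.c (T.b (T.l 476) (T.l 1)) (T.b (T.l 476)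 (T.l 1))) (T.c (T.b (T.l 476) (T.l 1)) (T.b (T.l 476) (T.l 1)))) (T.l 1)) (T.b (T.a (T.c (T.b (T.l 476) (T.l 1)) (T.b (T.l 476) (T.l 1))) (T.c (T.b (T.l 476) (T.l 1)) (T.b (T.l 476) (T.l 1)))) (T.l 1))) (T.c (T.b (T.a (T.c (T.b (T.l 476) (T.l 1)) (T.b (T.l 476) (T.l 1))) (T.c (T.b (T.a (T.l 476) (T.l 476)) (T.l 1)) (T.b (T.l 476) (T.l 1)))) (T.l 1)) (T.b (T.a (T.c (T.b (T.l 476) (T.l 1)) (T.b (T.l 476) (T.l 1))) (T.c (T.b (T.l 476) (T.l 1)) (T.b (T.l 476) (T.l 1)))) (T.l 1)))) (T.l 1)) (T.b (T.a (T.c (T.b (T.a (T.c (T.b (T.l 476) (T.l 1)) (T.b (T.l 476) (T.l 1))) (T.c (T.b (T.l 476) (T.l 1)) (T.b (T.l 476) (T.l 1)))) (T.l 1)) (T.b (T.a (T.c (T.b (T.l 476) (T.l 1)) (T.b (T.l 476) (T.l 1))) (T.c (T.b (T.l 476) (T.l 1)) (T.b (T.l 476) (T.l 1)))) (T.l 1))) (T.c (T.b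 (T.a (T.c (T.b (T.l 476) (T.l 1)) (T.b (T.l 476) (T.l 1))) (T.c (T.b (T.l 476) (T.l 1)) (T.b (T.l 476) (T.l 1)))) (T.l 1)) (T.b (T.a (T.c (T.b (T.l 476) (T.l 1)) (T.b (T.l 476) (T.l 1))) (T.c (T.b (T.l 476) (T.l 1)) (T.b (T.l 476) (T.l 1)))) (T.l 1)))) (T.l 1)))) (T.l 1)) (T.b (T.a (T.c (T.b (T.a (T.c (T.b (T.a (T.c (T.b (T.l 476) (T.l 1)) (T.b (T.l 476) (T.l 1))) (T.c (T.b (T.l 476) (T.l 1)) (T.b (T.l 476) (T.l 1)))) (T.l 1)) (T.b (T.a (T.c (T.b (T.l 476) (T.l 1)) (T.b (T.l 476) (T.l 1))) (T.c (T.b (T.l 476) (T.l 1)) (T.b (T.l 476) (T.l 1)))) (T.l 1))) (T.c (T.b (T.a (T.c (T.b (T.l 476) (T.l 1)) (T.b (T.l 476) (T.l 1))) (T.c (T.b (T.l 476) (T.l 1)) (T.b (T.l 476) (T.l 1)))) (T.l 1)) (T.b (T.a (T.c (T.b (T.l 476) (T.l 1)) (T.b (T.l 476) (T.l 1))) (T.c (T.b (T.l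 476) (T.l 1)) (T.b (T.l 476) (T.l 1)))) (T.l 1)))) (T.l 1)) (T.b (T.a (T.c (T.b (T.a (T.c (T.b (T.l 476) (T.l 1)) (T.a (T.l 476) (T.l 476))) (T.c (T.b (T.l 476) (T.l 1)) (T.b (T.l 476) (T.l 1)))) (T.l 1)) (T.b (T.a (T.a (T.l 476) (T.l 476)) (T.c (T.b (T.l 476) (T.l 1)) (T.a (T.l 476) (T.l 476)))) (T.l 1))) (T.c (T.b (T.a (T.c (T.b (T.l 476) (T.l 1)) (T.b (T.l 476) (T.l 1))) (T.c (T.b (T.l 476) (T.l 1)) (T.b (T.l 476) (T.l 1)))) (T.l 1)) (T.b (T.a (T.c (T.b (T.l 476) (T.l 1)) (T.b (T.l 476) (T.l 1))) (T.c (T.b (T.l 476) (T.l 1)) (T.b (T.l 476) (T.l 1)))) (T.l 1)))) (T.l 1))) (T.c (T.b (T.a (T.c (T.b (T.a (T.c (T.b (T.l 476) (T.l 1)) (T.b (T.l 476) (T.l 1))) (T.c (T.b (T.l 476) (T.l 1)) (T.b (T.l 476) (T.l 1)))) (T.l 1)) (T.b (T.a (T.c (T.b (T.l 476) (T.l 1)) (T.b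 (T.l 476) (T.l 1))) (T.c (T.b (T.l 476) (T.l 1)) (T.b (T.l 476) (T.l 1)))) (T.l 1))) (T.c (T.b (T.a (T.c (T.b (T.l 476) (T.l 1)) (T.b (T.l 476) (T.l 1))) (T.c (T.b (T.l 476) (T.l 1)) (T.b (T.l 476) (T.l 1)))) (T.l 1)) (T.b (T.a (T.c (T.b (T.l 476) (T.l 1)) (T.b (T.l 476) (T.l 1))) (T.c (T.b (T.l 476) (T.l 1)) (T.b (T.l 476) (T.l 1)))) (T.l 1)))) (T.l 1)) (T.b (T.a (T.c (T.b (T.a (T.c (T.b (T.l 476) (T.l 1)) (T.b (T.l 476) (T.l 1))) (T.c (T.b (T.l 476) (T.l 1)) (T.b (T.l 476) (T.l 1)))) (T.l 1)) (T.b (T.a (T.c (T.b (T.l 476) (T.l 1)) (T.b (T.l 476) (T.l 1))) (T.c (T.b (T.l 476) (T.l 1)) (T.b (T.l 476) (T.l 1)))) (T.l 1))) (T.c (T.b (T.a (T.c (T.b (T.l 476) (T.l 1)) (T.b (T.l 476) (T.l 1))) (T.c (T.b (T.l 476) (T.l 1)) (T.b (T.l 476) (T.l 1)))) (T.l 1)) (T.b (T.a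 (T.c (T.b (T.l 476) (T.l 1)) (T.b (T.l 476) (T.l 1))) (T.c (T.b (T.l 476) (T.l 1)) (T.b (T.l 476) (T.l 1)))) (T.l 1)))) (T.l 1)))) (T.l 1))), by decide +kernel⟩

def B202E_020_13_1024_12 :
    ∃ t, chk3 (onCell 0 33554432 0 1073741824 33554432 16777216 (corTK [[⟨0, 1, 0, 6291456⟩, ⟨1, 0, 1, 16777216⟩, ⟨2, 1, 1, 16777216⟩, ⟨1, 0, 0, 67108864⟩, ⟨1, 1, 0, 1056964608⟩, ⟨2, 1, 0, 67108864⟩, ⟨2, 2, 0, 1056964608⟩]] true 1 c0F cB202E gF0q2 gF2q2 gF0q0 gF1q0 true true)) t 13 1024 12 = true :=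
  ⟨(T.b (T.a (T.c (T.b (T.a (T.c (T.b (T.a (T.c (T.b (T.a (T.l 476) (T.l 476)) (T.l 1)) (T.b (T.a (T.l 476) (T.l 476)) (T.l 1))) (T.c (T.b (T.a (T.l 476) (T.l 476)) (T.l 1)) (T.b (T.a (T.l 476) (T.l 476)) (T.l 1)))) (T.l 1)) (T.b (T.a (T.c (T.b (T.a (T.l 476) (T.l 476)) (T.l 1)) (T.b (T.l 476) (T.l 1))) (T.c (T.b (T.a (T.l 476) (T.l 476)) (T.l 1)) (T.b (T.a (T.l 476) (T.l 476)) (T.l 1)))) (T.l 1))) (T.c (T.b (T.a (T.c (T.b (T.a (T.a (T.l 476) (T.l 476)) (T.c (T.b (T.l 476) (T.l 1)) (T.b (T.l 476) (T.l 1)))) (T.l 1)) (T.b (T.a (T.l 476) (T.a (T.l 476) (T.l 476))) (T.l 1))) (T.c (T.b (T.a (T.c (T.b (T.l 476) (T.l 1)) (T.b (T.l 476) (T.l 1))) (T.c (T.b (T.l 476) (T.l 1)) (T.b (T.l 476) (T.l 1)))) (T.l 1)) (T.b (T.a (T.c (T.b (T.l 476) (T.l 1)) (T.b (T.l 476) (T.l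 1))) (T.c (T.b (T.l 476) (T.l 1)) (T.b (T.l 476) (T.l 1)))) (T.l 1)))) (T.l 1)) (T.b (T.a (T.c (T.b (T.a (T.l 476) (T.l 476)) (T.l 1)) (T.b (T.a (T.l 476) (T.l 476)) (T.l 1))) (T.c (T.b (T.a (T.a (T.l 476) (T.l 476)) (T.c (T.b (T.l 476) (T.l 1)) (T.b (T.l 476) (T.l 1)))) (T.l 1)) (T.b (T.a (T.l 476) (T.a (T.l 476) (T.l 476))) (T.l 1)))) (T.l 1)))) (T.l 1)) (T.b (T.a (T.c (T.b (T.a (T.c (T.b (T.l 476) (T.l 1)) (T.b (T.l 476) (T.l 1))) (T.c (T.b (T.l 476) (T.l 1)) (T.b (T.l 476) (T.l 1)))) (T.l 1)) (T.b (T.a (T.c (T.b (T.l 476) (T.l 1)) (T.b (T.l 476) (T.l 1))) (T.c (T.b (T.l 476) (T.l 1)) (T.b (T.l 476) (T.l 1)))) (T.l 1))) (T.c (T.b (T.a (T.c (T.b (T.a (T.l 476) (T.l 476)) (T.l 1)) (T.b (T.a (T.l 476) (T.l 476)) (T.l 1))) (T.c (T.b (T.a (T.l 476) (T.l 476)) (T.l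 1)) (T.b (T.a (T.l 476) (T.l 476)) (T.l 1)))) (T.l 1)) (T.b (T.a (T.c (T.b (T.l 476) (T.l 1)) (T.b (T.l 476) (T.l 1))) (T.c (T.b (T.a (T.l 476) (T.l 476)) (T.l 1)) (T.b (T.a (T.l 476) (T.l 476)) (T.l 1)))) (T.l 1)))) (T.l 1))) (T.c (T.b (T.a (T.c (T.b (T.a (T.c (T.b (T.a (T.c (T.b (T.l 476) (T.l 1)) (T.b (T.l 476) (T.l 1))) (T.c (T.b (T.l 476) (T.l 1)) (T.b (T.l 476) (T.l 1)))) (T.l 1)) (T.b (T.a (T.c (T.b (T.l 476) (T.l 1)) (T.b (T.l 476) (T.l 1))) (T.c (T.b (T.l 476) (T.l 1)) (T.b (T.l 476) (T.l 1)))) (T.l 1))) (T.c (T.b (T.a (T.c (T.b (T.l 476) (T.l 1)) (T.b (T.l 476) (T.l 1))) (T.c (T.b (T.l 476) (T.l 1)) (T.b (T.l 476) (T.l 1)))) (T.l 1)) (T.b (T.a (T.c (T.b (T.l 476) (T.l 1)) (T.b (T.l 476) (T.l 1))) (T.c (T.b (T.l 476) (T.l 1)) (T.b (T.l 476) (T.l 1))))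 (T.l 1)))) (T.l 1)) (T.b (T.a (T.c (T.b (T.a (T.c (T.b (T.l 476) (T.l 1)) (T.b (T.l 476) (T.l 1))) (T.c (T.b (T.l 476) (T.l 1)) (T.b (T.l 476) (T.l 1)))) (T.l 1)) (T.b (T.a (T.c (T.b (T.l 476) (T.l 1)) (T.b (T.l 476) (T.l 1))) (T.c (T.b (T.l 476) (T.l 1)) (T.b (T.l 476) (T.l 1)))) (T.l 1))) (T.c (T.b (T.a (T.c (T.b (T.l 476) (T.l 1)) (T.b (T.l 476) (T.l 1))) (T.c (T.b (T.l 476) (T.l 1)) (T.b (T.l 476) (T.l 1)))) (T.l 1)) (T.b (T.a (T.c (T.b (T.l 476) (T.l 1)) (T.b (T.l 476) (T.l 1))) (T.c (T.b (T.l 476) (T.l 1)) (T.b (T.l 476) (T.l 1)))) (T.l 1)))) (T.l 1))) (T.c (T.b (T.a (T.c (T.b (T.a (T.c (T.b (T.l 476) (T.l 1)) (T.b (T.l 476) (T.l 1))) (T.c (T.b (T.l 476) (T.l 1)) (T.b (T.l 476) (T.l 1)))) (T.l 1)) (T.b (T.a (T.c (T.b (T.l 476) (T.l 1)) (T.b (T.l 476) (T.l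 1))) (T.c (T.b (T.l 476) (T.l 1)) (T.b (T.l 476) (T.l 1)))) (T.l 1))) (T.c (T.b (T.a (T.c (T.b (T.l 476) (T.l 1)) (T.b (T.l 476) (T.l 1))) (T.c (T.b (T.l 476) (T.l 1)) (T.b (T.l 476) (T.l 1)))) (T.l 1)) (T.b (T.a (T.c (T.b (T.l 476) (T.l 1)) (T.b (T.l 476) (T.l 1))) (T.c (T.b (T.l 476) (T.l 1)) (T.b (T.l 476) (T.l 1)))) (T.l 1)))) (T.l 1)) (T.b (T.a (T.c (T.b (T.a (T.c (T.b (T.l 476) (T.l 1)) (T.b (T.l 476) (T.l 1))) (T.c (T.b (T.l 476) (T.l 1)) (T.b (T.l 476) (T.l 1)))) (T.l 1)) (T.b (T.a (T.c (T.b (T.l 476) (T.l 1)) (T.b (T.l 476) (T.l 1))) (T.c (T.b (T.l 476) (T.l 1)) (T.b (T.l 476) (T.l 1)))) (T.l 1))) (T.c (T.b (T.a (T.c (T.b (T.l 476) (T.l 1)) (T.b (T.l 476) (T.l 1))) (T.c (T.b (T.l 476) (T.l 1)) (T.b (T.l 476) (T.l 1)))) (T.l 1)) (T.b (T.a (T.c (T.b (T.l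 476) (T.l 1)) (T.b (T.l 476) (T.l 1))) (T.c (T.b (T.l 476) (T.l 1)) (T.b (T.l 476) (T.l 1)))) (T.l 1)))) (T.l 1)))) (T.l 1)) (T.b (T.a (T.c (T.b (T.a (T.c (T.b (T.a (T.a (T.l 476) (T.l 476)) (T.c (T.b (T.l 476) (T.l 1)) (T.a (T.l 476) (T.l 476)))) (T.l 1)) (T.b (T.a (T.l 476) (T.a (T.l 476) (T.l 476))) (T.l 1))) (T.c (T.b (T.a (T.c (T.b (T.l 476) (T.l 1)) (T.b (T.l 476) (T.l 1))) (T.c (T.b (T.l 476) (T.l 1)) (T.b (T.l 476) (T.l 1)))) (T.l 1)) (T.b (T.a (T.c (T.b (T.l 476) (T.l 1)) (T.a (T.l 476) (T.l 476))) (T.c (T.b (T.l 476) (T.l 1)) (T.b (T.l 476) (T.l 1)))) (T.l 1)))) (T.l 1)) (T.b (T.a (T.c (T.b (T.a (T.l 476) (T.l 476)) (T.l 1)) (T.b (T.a (T.l 476) (T.l 476)) (T.l 1))) (T.c (T.b (T.a (T.a (T.l 476) (T.l 476)) (T.c (T.b (T.l 476) (T.l 1)) (T.a (T.l 476) (T.l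 476)))) (T.l 1)) (T.b (T.a (T.l 476) (T.a (T.l 476) (T.l 476))) (T.l 1)))) (T.l 1))) (T.c (T.b (T.a (T.c (T.b (T.a (T.c (T.b (T.l 476) (T.l 1)) (T.b (T.l 476) (T.l 1))) (T.c (T.b (T.l 476) (T.l 1)) (T.b (T.l 476) (T.l 1)))) (T.l 1)) (T.b (T.a (T.c (T.b (T.l 476) (T.l 1)) (T.b (T.l 476) (T.l 1))) (T.c (T.b (T.l 476) (T.l 1)) (T.b (T.l 476) (T.l 1)))) (T.l 1))) (T.c (T.b (T.a (T.c (T.b (T.l 476) (T.l 1)) (T.b (T.l 476) (T.l 1))) (T.c (T.b (T.l 476) (T.l 1)) (T.b (T.l 476) (T.l 1)))) (T.l 1)) (T.b (T.a (T.c (T.b (T.l 476) (T.l 1)) (T.b (T.l 476) (T.l 1))) (T.c (T.b (T.l 476) (T.l 1)) (T.b (T.l 476) (T.l 1)))) (T.l 1)))) (T.l 1)) (T.b (T.a (T.c (T.b (T.a (T.c (T.b (T.l 476) (T.l 1)) (T.b (T.l 476) (T.l 1))) (T.c (T.b (T.l 476) (T.l 1)) (T.b (T.l 476) (T.l 1)))) (T.l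 1)) (T.b (T.a (T.c (T.b (T.l 476) (T.l 1)) (T.a (T.l 476) (T.l 476))) (T.c (T.b (T.l 476) (T.l 1)) (T.b (T.l 476) (T.l 1)))) (T.l 1))) (T.c (T.b (T.a (T.c (T.b (T.l 476) (T.l 1)) (T.b (T.l 476) (T.l 1))) (T.c (T.b (T.l 476) (T.l 1)) (T.b (T.l 476) (T.l 1)))) (T.l 1)) (T.b (T.a (T.c (T.b (T.l 476) (T.l 1)) (T.b (T.l 476) (T.l 1))) (T.c (T.b (T.l 476) (T.l 1)) (T.b (T.l 476) (T.l 1)))) (T.l 1)))) (T.l 1)))) (T.l 1)))) (T.l 1)), by decide +kernel⟩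

def B202E_020_13_1024_13 :
    ∃ t, chk3 (onCell 0 33554432 0 1073741824 33554432 16777216 (corTK [[⟨0, 1, 0, 6291456⟩, ⟨1, 0, 1, 16777216⟩, ⟨2, 1, 1, 16777216⟩, ⟨1, 0, 0, 67108864⟩, ⟨1, 1, 0, 1056964608⟩, ⟨2, 1, 0, 67108864⟩, ⟨2, 2, 0, 1056964608⟩]] true 1 c0F cB202E gF0q2 gF2q2 gF0q0 gF1q0 true true)) t 13 1024 13 = true :=
  ⟨(T.b (T.a (T.c (T.b (T.a (T.c (T.b (T.a (T.c (T.b (T.l 476) (T.l 1)) (T.b (T.l 476) (T.l 1))) (T.c (T.b (T.l 476) (T.l 1)) (T.b (T.l 476) (T.l 1)))) (T.l 1)) (T.b (T.a (T.c (T.b (T.l 476) (T.l 1)) (T.b (T.l 476) (T.l 1))) (T.c (T.b (T.l 476) (T.l 1)) (T.b (T.l 476) (T.l 1)))) (T.l 1))) (T.c (T.b (T.a (T.c (T.b (T.l 476) (T.l 1)) (T.b (T.l 476) (T.l 1))) (T.c (T.b (T.l 476) (T.l 1)) (T.b (T.l 476) (T.l 1)))) (T.l 1)) (T.b (T.a (T.c (T.b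 (T.l 476) (T.l 1)) (T.b (T.l 476) (T.l 1))) (T.c (T.b (T.l 476) (T.l 1)) (T.b (T.l 476) (T.l 1)))) (T.l 1)))) (T.l 1)) (T.b (T.a (T.c (T.b (T.a (T.c (T.b (T.l 476) (T.l 1)) (T.b (T.l 476) (T.l 1))) (T.c (T.b (T.l 476) (T.l 1)) (T.b (T.l 476) (T.l 1)))) (T.l 1)) (T.b (T.a (T.c (T.b (T.l 476) (T.l 1)) (T.b (T.l 476) (T.l 1))) (T.c (T.b (T.l 476) (T.l 1)) (T.b (T.l 476) (T.l 1)))) (T.l 1))) (T.c (T.b (T.a (T.c (T.b (T.l 476) (T.l 1)) (T.b (T.l 476) (T.l 1))) (T.c (T.b (T.l 476) (T.l 1)) (T.b (T.l 476) (T.l 1)))) (T.l 1)) (T.b (T.a (T.c (T.b (T.l 476) (T.l 1)) (T.b (T.l 476) (T.l 1))) (T.c (T.b (T.l 476) (T.l 1)) (T.b (T.l 476) (T.l 1)))) (T.l 1)))) (T.l 1))) (T.c (T.b (T.a (T.c (T.b (T.a (T.c (T.b (T.a (T.l 476) (T.l 476)) (T.l 1)) (T.b (T.a (T.l 476) (T.l 476))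 (T.l 1))) (T.c (T.b (T.a (T.l 476) (T.l 476)) (T.l 1)) (T.b (T.a (T.l 476) (T.l 476)) (T.l 1)))) (T.l 1)) (T.b (T.a (T.c (T.b (T.l 476) (T.l 1)) (T.b (T.l 476) (T.l 1))) (T.c (T.b (T.a (T.l 476) (T.l 476)) (T.l 1)) (T.b (T.l 476) (T.l 1)))) (T.l 1))) (T.c (T.b (T.a (T.c (T.b (T.a (T.a (T.l 476) (T.l 476)) (T.c (T.b (T.l 476) (T.l 1)) (T.a (T.l 476) (T.l 476)))) (T.l 1)) (T.b (T.a (T.l 476) (T.a (T.l 476) (T.l 476))) (T.l 1))) (T.c (T.b (T.a (T.c (T.b (T.l 476) (T.l 1)) (T.b (T.l 476) (T.l 1))) (T.c (T.b (T.l 476) (T.l 1)) (T.b (T.l 476) (T.l 1)))) (T.l 1)) (T.b (T.a (T.c (T.b (T.l 476) (T.l 1)) (T.a (T.l 476) (T.l 476))) (T.c (T.b (T.l 476) (T.l 1)) (T.b (T.l 476) (T.l 1)))) (T.l 1)))) (T.l 1)) (T.b (T.a (T.c (T.b (T.a (T.l 476) (T.l 476)) (T.l 1)) (T.b (T.a (T.l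 476) (T.l 476)) (T.l 1))) (T.c (T.b (T.a (T.a (T.l 476) (T.l 476)) (T.c (T.b (T.l 476) (T.l 1)) (T.a (T.l 476) (T.l 476)))) (T.l 1)) (T.b (T.a (T.l 476) (T.a (T.l 476) (T.l 476))) (T.l 1)))) (T.l 1)))) (T.l 1)) (T.b (T.a (T.c (T.b (T.a (T.c (T.b (T.l 476) (T.l 1)) (T.b (T.l 476) (T.l 1))) (T.c (T.b (T.l 476) (T.l 1)) (T.b (T.l 476) (T.l 1)))) (T.l 1)) (T.b (T.a (T.c (T.b (T.l 476) (T.l 1)) (T.b (T.l 476) (T.l 1))) (T.c (T.b (T.l 476) (T.l 1)) (T.b (T.l 476) (T.l 1)))) (T.l 1))) (T.c (T.b (T.a (T.c (T.b (T.a (T.l 476) (T.l 476)) (T.l 1)) (T.b (T.l 476) (T.l 1))) (T.c (T.b (T.a (T.l 476) (T.l 476)) (T.l 1)) (T.b (T.a (T.l 476) (T.l 476)) (T.l 1)))) (T.l 1)) (T.b (T.a (T.c (T.b (T.l 476) (T.l 1)) (T.b (T.l 476) (T.l 1))) (T.c (T.b (T.a (T.l 476) (T.l 476)) (T.l 1))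 (T.b (T.l 476) (T.l 1)))) (T.l 1)))) (T.l 1)))) (T.l 1)), by decide +kernel⟩

def B202E_020_6_1025_6 :
    ∃ t, chk3 (onCell 0 33554432 0 1073741824 33554432 16777216 (corTK [[⟨0, 1, 0, 6291456⟩, ⟨1, 0, 1, 16777216⟩, ⟨2, 1, 1, 16777216⟩, ⟨1, 0, 0, 67108864⟩, ⟨1, 1, 0, 1056964608⟩, ⟨2, 1, 0, 67108864⟩, ⟨2, 2, 0, 1056964608⟩]] true 1 c0F cB202E gF0q2 gF2q2 gF0q0 gF1q0 true true)) t 6 1025 6 = true :=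
  ⟨(T.l 1), by decide +kernel⟩

def B202E_020_12_1024_7 :
    ∃ t, chk3 (onCell 0 33554432 0 1073741824 33554432 16777216 (corTK [[⟨0, 1, 0, 6291456⟩, ⟨1, 0, 1, 16777216⟩, ⟨2, 1, 1, 16777216⟩, ⟨1, 0, 0, 67108864⟩, ⟨1, 1, 0, 1056964608⟩, ⟨2, 1, 0, 67108864⟩, ⟨2, 2, 0, 1056964608⟩]] true 1 c0F cB202E gF0q2 gF2q2 gF0q0 gF1q0 true true)) t 12 1024 7 = true :=
  ⟨(T.c (T.b (T.a (T.c (T.b (T.a (T.c (T.b (T.a (T.a (T.l 476) (T.l 476)) (T.a (T.l 476) (T.l 476))) (T.l 1)) (T.b (T.a (T.a (T.l 476) (T.l 476)) (T.a (T.l 476) (T.l 476))) (T.l 1))) (T.c (T.b (T.a (T.c (T.b (T.l 476) (T.l 1)) (T.a (T.l 476) (T.l 476))) (T.c (T.b (T.l 476) (T.l 1)) (T.b (T.l 476) (T.l 1)))) (T.l 1)) (T.b (T.a (T.a (T.l 476) (T.l 476)) (T.c (T.a (T.l 476) (T.l 476)) (T.a (T.l 476) (T.l 476))))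 (T.l 1)))) (T.l 1)) (T.b (T.a (T.c (T.b (T.a (T.l 476) (T.l 476)) (T.l 1)) (T.b (T.a (T.l 476) (T.l 476)) (T.l 1))) (T.c (T.b (T.a (T.a (T.l 476) (T.l 476)) (T.a (T.l 476) (T.l 476))) (T.l 1)) (T.b (T.a (T.l 476) (T.a (T.l 476) (T.l 476))) (T.l 1)))) (T.l 1))) (T.c (T.b (T.a (T.c (T.b (T.a (T.c (T.b (T.l 476) (T.l 1)) (T.b (T.l 476) (T.l 1))) (T.c (T.b (T.l 476) (T.l 1)) (T.b (T.l 476) (T.l 1)))) (T.l 1)) (T.b (T.a (T.c (T.b (T.l 476) (T.l 1)) (T.b (T.l 476) (T.l 1))) (T.c (T.b (T.l 476) (T.l 1)) (T.b (T.l 476) (T.l 1)))) (T.l 1))) (T.c (T.b (T.a (T.c (T.b (T.l 476) (T.l 1)) (T.b (T.l 476) (T.l 1))) (T.c (T.b (T.l 476) (T.l 1)) (T.b (T.l 476) (T.l 1)))) (T.l 1)) (T.b (T.a (T.c (T.b (T.l 476) (T.l 1)) (T.b (T.l 476) (T.l 1))) (T.c (T.b (T.l 476) (T.l 1)) (T.b (T.l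 476) (T.l 1)))) (T.l 1)))) (T.l 1)) (T.b (T.a (T.c (T.b (T.a (T.c (T.a (T.l 476) (T.l 476)) (T.a (T.l 476) (T.l 476))) (T.c (T.b (T.l 476) (T.l 1)) (T.b (T.l 476) (T.l 1)))) (T.l 1)) (T.b (T.a (T.a (T.l 476) (T.l 476)) (T.a (T.l 476) (T.l 476))) (T.l 1))) (T.c (T.b (T.a (T.c (T.b (T.l 476) (T.l 1)) (T.b (T.l 476) (T.l 1))) (T.c (T.b (T.l 476) (T.l 1)) (T.b (T.l 476) (T.l 1)))) (T.l 1)) (T.b (T.a (T.c (T.b (T.l 476) (T.l 1)) (T.b (T.l 476) (T.l 1))) (T.c (T.b (T.l 476) (T.l 1)) (T.b (T.l 476) (T.l 1)))) (T.l 1)))) (T.l 1)))) (T.l 1)) (T.b (T.a (T.c (T.b (T.a (T.c (T.b (T.a (T.l 476) (T.l 476)) (T.l 1)) (T.b (T.a (T.l 476) (T.l 476)) (T.l 1))) (T.c (T.b (T.a (T.l 476) (T.l 476)) (T.l 1)) (T.b (T.a (T.l 476) (T.l 476)) (T.l 1)))) (T.l 1)) (T.b (T.a (T.c (T.b (T.a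 (T.l 476) (T.l 476)) (T.l 1)) (T.b (T.a (T.l 476) (T.l 476)) (T.l 1))) (T.c (T.b (T.a (T.l 476) (T.l 476)) (T.l 1)) (T.b (T.a (T.l 476) (T.l 476)) (T.l 1)))) (T.l 1))) (T.c (T.b (T.a (T.c (T.b (T.a (T.a (T.l 476) (T.l 476)) (T.a (T.l 476) (T.l 476))) (T.l 1)) (T.b (T.a (T.l 476) (T.a (T.l 476) (T.l 476))) (T.l 1))) (T.c (T.b (T.a (T.a (T.l 476) (T.l 476)) (T.c (T.b (T.l 476) (T.l 1)) (T.b (T.l 476) (T.l 1)))) (T.l 1)) (T.b (T.a (T.a (T.l 476) (T.l 476)) (T.a (T.l 476) (T.l 476))) (T.l 1)))) (T.l 1)) (T.b (T.a (T.c (T.b (T.a (T.l 476) (T.l 476)) (T.l 1)) (T.b (T.a (T.l 476) (T.l 476)) (T.l 1))) (T.c (T.b (T.a (T.l 476) (T.a (T.l 476) (T.l 476))) (T.l 1)) (T.b (T.a (T.l 476) (T.l 476)) (T.l 1)))) (T.l 1)))) (T.l 1))), by decide +kernel⟩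

def B202E_020_13_1024_7 :
    ∃ t, chk3 (onCell 0 33554432 0 1073741824 33554432 16777216 (corTK [[⟨0, 1, 0, 6291456⟩, ⟨1, 0, 1, 16777216⟩, ⟨2, 1, 1, 16777216⟩, ⟨1, 0, 0, 67108864⟩, ⟨1, 1, 0, 1056964608⟩, ⟨2, 1, 0, 67108864⟩, ⟨2, 2, 0, 1056964608⟩]] true 1 c0F cB202E gF0q2 gF2q2 gF0q0 gF1q0 true true)) t 13 1024 7 = true :=
  ⟨(T.c (T.b (T.a (T.c (T.b (T.a (T.c (T.b (T.a (T.c (T.b (T.l 476) (T.l 1)) (T.b (T.l 476) (T.l 1))) (T.c (T.b (T.l 476) (T.l 1)) (T.b (T.l 476) (T.l 1)))) (T.l 1)) (T.b (T.a (T.c (T.b (T.l 476) (T.l 1)) (T.b (T.l 476) (T.l 1))) (T.c (T.b (T.l 476) (T.l 1)) (T.b (T.l 476) (T.l 1)))) (T.l 1))) (T.c (T.b (T.a (T.c (T.b (T.l 476) (T.l 1)) (T.b (T.l 476) (T.l 1))) (T.c (T.b (T.l 476) (T.l 1)) (T.b (T.l 476) (T.l 1)))) (T.l 1)) (T.b (T.a (T.c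 (T.b (T.l 476) (T.l 1)) (T.b (T.l 476) (T.l 1))) (T.c (T.b (T.l 476) (T.l 1)) (T.b (T.l 476) (T.l 1)))) (T.l 1)))) (T.l 1)) (T.b (T.a (T.c (T.b (T.a (T.c (T.b (T.l 476) (T.l 1)) (T.b (T.l 476) (T.l 1))) (T.c (T.b (T.l 476) (T.l 1)) (T.b (T.l 476) (T.l 1)))) (T.l 1)) (T.b (T.a (T.c (T.b (T.l 476) (T.l 1)) (T.b (T.l 476) (T.l 1))) (T.c (T.b (T.l 476) (T.l 1)) (T.b (T.l 476) (T.l 1)))) (T.l 1))) (T.c (T.b (T.a (T.c (T.b (T.l 476) (T.l 1)) (T.b (T.l 476) (T.l 1))) (T.c (T.b (T.l 476) (T.l 1)) (T.b (T.l 476) (T.l 1)))) (T.l 1)) (T.b (T.a (T.c (T.b (T.l 476) (T.l 1)) (T.b (T.l 476) (T.l 1))) (T.c (T.b (T.l 476) (T.l 1)) (T.b (T.l 476) (T.l 1)))) (T.l 1)))) (T.l 1))) (T.c (T.b (T.a (T.c (T.b (T.a (T.c (T.b (T.l 476) (T.l 1)) (T.b (T.l 476) (T.l 1))) (T.c (T.b (T.l 476)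 (T.l 1)) (T.b (T.l 476) (T.l 1)))) (T.l 1)) (T.b (T.a (T.c (T.b (T.l 476) (T.l 1)) (T.b (T.l 476) (T.l 1))) (T.c (T.b (T.l 476) (T.l 1)) (T.b (T.l 476) (T.l 1)))) (T.l 1))) (T.c (T.b (T.a (T.c (T.b (T.l 476) (T.l 1)) (T.b (T.l 476) (T.l 1))) (T.c (T.b (T.l 476) (T.l 1)) (T.b (T.l 476) (T.l 1)))) (T.l 1)) (T.b (T.a (T.c (T.b (T.l 476) (T.l 1)) (T.b (T.l 476) (T.l 1))) (T.c (T.b (T.l 476) (T.l 1)) (T.b (T.l 476) (T.l 1)))) (T.l 1)))) (T.l 1)) (T.b (T.a (T.c (T.b (T.a (T.c (T.b (T.l 476) (T.l 1)) (T.b (T.l 476) (T.l 1))) (T.c (T.b (T.l 476) (T.l 1)) (T.b (T.l 476) (T.l 1)))) (T.l 1)) (T.b (T.a (T.c (T.b (T.l 476) (T.l 1)) (T.b (T.l 476) (T.l 1))) (T.c (T.b (T.l 476) (T.l 1)) (T.b (T.l 476) (T.l 1)))) (T.l 1))) (T.c (T.b (T.a (T.c (T.b (T.l 476) (T.l 1)) (T.b (T.l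 476) (T.l 1))) (T.c (T.b (T.l 476) (T.l 1)) (T.b (T.l 476) (T.l 1)))) (T.l 1)) (T.b (T.a (T.c (T.b (T.l 476) (T.l 1)) (T.b (T.l 476) (T.l 1))) (T.c (T.b (T.l 476) (T.l 1)) (T.b (T.l 476) (T.l 1)))) (T.l 1)))) (T.l 1)))) (T.l 1)) (T.b (T.a (T.c (T.b (T.a (T.c (T.b (T.a (T.c (T.b (T.l 476) (T.l 1)) (T.b (T.l 476) (T.l 1))) (T.c (T.b (T.l 476) (T.l 1)) (T.b (T.l 476) (T.l 1)))) (T.l 1)) (T.b (T.a (T.c (T.b (T.l 476) (T.l 1)) (T.b (T.l 476) (T.l 1))) (T.c (T.b (T.l 476) (T.l 1)) (T.b (T.l 476) (T.l 1)))) (T.l 1))) (T.c (T.b (T.a (T.c (T.b (T.l 476) (T.l 1)) (T.b (T.l 476) (T.l 1))) (T.c (T.b (T.l 476) (T.l 1)) (T.b (T.l 476) (T.l 1)))) (T.l 1)) (T.b (T.a (T.c (T.b (T.l 476) (T.l 1)) (T.b (T.l 476) (T.l 1))) (T.c (T.b (T.l 476) (T.l 1)) (T.b (T.l 476) (T.l 1)))) (T.l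 1)))) (T.l 1)) (T.b (T.a (T.c (T.b (T.a (T.a (T.l 476) (T.l 476)) (T.c (T.b (T.l 476) (T.l 1)) (T.b (T.l 476) (T.l 1)))) (T.l 1)) (T.b (T.a (T.a (T.l 476) (T.l 476)) (T.a (T.l 476) (T.l 476))) (T.l 1))) (T.c (T.b (T.a (T.c (T.b (T.l 476) (T.l 1)) (T.b (T.l 476) (T.l 1))) (T.c (T.b (T.l 476) (T.l 1)) (T.b (T.l 476) (T.l 1)))) (T.l 1)) (T.b (T.a (T.c (T.b (T.l 476) (T.l 1)) (T.b (T.l 476) (T.l 1))) (T.c (T.b (T.l 476) (T.l 1)) (T.b (T.l 476) (T.l 1)))) (T.l 1)))) (T.l 1))) (T.c (T.b (T.a (T.c (T.b (T.a (T.c (T.b (T.l 476) (T.l 1)) (T.b (T.l 476) (T.l 1))) (T.c (T.b (T.l 476) (T.l 1)) (T.b (T.l 476) (T.l 1)))) (T.l 1)) (T.b (T.a (T.c (T.b (T.l 476) (T.l 1)) (T.b (T.l 476) (T.l 1))) (T.c (T.b (T.l 476) (T.l 1)) (T.b (T.l 476) (T.l 1)))) (T.l 1))) (T.c (T.b (T.a (T.c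 (T.b (T.l 476) (T.l 1)) (T.b (T.l 476) (T.l 1))) (T.c (T.b (T.l 476) (T.l 1)) (T.b (T.l 476) (T.l 1)))) (T.l 1)) (T.b (T.a (T.c (T.b (T.l 476) (T.l 1)) (T.b (T.l 476) (T.l 1))) (T.c (T.b (T.l 476) (T.l 1)) (T.b (T.l 476) (T.l 1)))) (T.l 1)))) (T.l 1)) (T.b (T.a (T.c (T.b (T.a (T.c (T.b (T.l 476) (T.l 1)) (T.b (T.l 476) (T.l 1))) (T.c (T.b (T.l 476) (T.l 1)) (T.b (T.l 476) (T.l 1)))) (T.l 1)) (T.b (T.a (T.c (T.b (T.l 476) (T.l 1)) (T.b (T.l 476) (T.l 1))) (T.c (T.b (T.l 476) (T.l 1)) (T.b (T.l 476) (T.l 1)))) (T.l 1))) (T.c (T.b (T.a (T.c (T.b (T.l 476) (T.l 1)) (T.b (T.l 476) (T.l 1))) (T.c (T.b (T.l 476) (T.l 1)) (T.b (T.l 476) (T.l 1)))) (T.l 1)) (T.b (T.a (T.c (T.b (T.l 476) (T.l 1)) (T.b (T.l 476) (T.l 1))) (T.c (T.b (T.l 476) (T.l 1)) (T.b (T.l 476) (T.l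 1)))) (T.l 1)))) (T.l 1)))) (T.l 1))), by decide +kernel⟩

def B202E_020_6_1025_7 :
    ∃ t, chk3 (onCell 0 33554432 0 1073741824 33554432 16777216 (corTK [[⟨0, 1, 0, 6291456⟩, ⟨1, 0, 1, 16777216⟩, ⟨2, 1, 1, 16777216⟩, ⟨1, 0, 0, 67108864⟩, ⟨1, 1, 0, 1056964608⟩, ⟨2, 1, 0, 67108864⟩, ⟨2, 2, 0, 1056964608⟩]] true 1 c0F cB202E gF0q2 gF2q2 gF0q0 gF1q0 true true)) t 6 1025 7 = true :=
  ⟨(T.l 1), by decide +kernel⟩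

def B202E_020_14_1024_12 :
    ∃ t, chk3 (onCell 0 33554432 0 1073741824 33554432 16777216 (corTK [[⟨0, 1, 0, 6291456⟩, ⟨1, 0, 1, 16777216⟩, ⟨2, 1, 1, 16777216⟩, ⟨1, 0, 0, 67108864⟩, ⟨1, 1, 0, 1056964608⟩, ⟨2, 1, 0, 67108864⟩, ⟨2, 2, 0, 1056964608⟩]] true 1 c0F cB202E gF0q2 gF2q2 gF0q0 gF1q0 true true)) t 14 1024 12 = true :=
  ⟨(T.b (T.a (T.c (T.b (T.a (T.c (T.b (T.a (T.c (T.b (T.a (T.c (T.b (T.l 476) (T.l 1)) (T.b (T.l 476) (T.l 1))) (T.c (T.l 1024) (T.b (T.l 476) (T.l 1)))) (T.l 1)) (T.b (T.a (T.c (T.b (T.l 476) (T.l 1)) (T.b (T.l 476) (T.l 1))) (T.c (T.b (T.l 476) (T.l 1)) (T.b (T.l 476) (T.l 1)))) (T.l 1))) (T.a (T.a (T.c (T.l 1024) (T.a (T.c (T.l 1024) (T.a (T.b (T.b (T.l 476) (T.l 1)) (T.l 1)) (T.l 1024))) (T.l 1024))) (T.l 1024)) (T.l 1024))) (T.l 1))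 (T.b (T.a (T.c (T.b (T.a (T.c (T.b (T.l 476) (T.l 1)) (T.b (T.l 476) (T.l 1))) (T.c (T.b (T.l 476) (T.l 1)) (T.b (T.l 476) (T.l 1)))) (T.l 1)) (T.b (T.a (T.c (T.b (T.l 476) (T.l 1)) (T.b (T.l 476) (T.l 1))) (T.c (T.b (T.l 476) (T.l 1)) (T.b (T.l 476) (T.l 1)))) (T.l 1))) (T.c (T.b (T.a (T.c (T.b (T.l 476) (T.l 1)) (T.b (T.l 476) (T.l 1))) (T.c (T.l 1024) (T.b (T.l 476) (T.l 1)))) (T.l 1)) (T.b (T.a (T.c (T.b (T.l 476) (T.l 1)) (T.b (T.l 476) (T.l 1))) (T.c (T.b (T.l 476) (T.l 1)) (T.b (T.l 476) (T.l 1)))) (T.l 1)))) (T.l 1))) (T.a (T.a (T.c (T.l 1024) (T.a (T.c (T.l 1024) (T.b (T.a (T.c (T.l 1024) (T.a (T.b (T.b (T.l 476) (T.l 1)) (T.l 1)) (T.l 1024))) (T.l 1024)) (T.l 1))) (T.l 1024))) (T.l 1024)) (T.l 1024))) (T.l 1)) (T.b (T.a (T.c (T.b (T.a (T.c (T.b (T.a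 (T.c (T.b (T.l 476) (T.l 1)) (T.b (T.l 476) (T.l 1))) (T.c (T.b (T.l 476) (T.l 1)) (T.b (T.l 476) (T.l 1)))) (T.l 1)) (T.b (T.a (T.c (T.b (T.l 476) (T.l 1)) (T.b (T.l 476) (T.l 1))) (T.c (T.b (T.l 476) (T.l 1)) (T.b (T.l 476) (T.l 1)))) (T.l 1))) (T.c (T.b (T.a (T.c (T.b (T.l 476) (T.l 1)) (T.b (T.l 476) (T.l 1))) (T.c (T.b (T.l 476) (T.l 1)) (T.b (T.l 476) (T.l 1)))) (T.l 1)) (T.b (T.a (T.c (T.b (T.l 476) (T.l 1)) (T.b (T.l 476) (T.l 1))) (T.c (T.b (T.l 476) (T.l 1)) (T.b (T.l 476) (T.l 1)))) (T.l 1)))) (T.l 1)) (T.b (T.a (T.c (T.b (T.a (T.c (T.b (T.l 476) (T.l 1)) (T.b (T.l 476) (T.l 1))) (T.c (T.b (T.l 476) (T.l 1)) (T.b (T.l 476) (T.l 1)))) (T.l 1)) (T.b (T.a (T.c (T.b (T.l 476) (T.l 1)) (T.b (T.l 476) (T.l 1))) (T.c (T.b (T.l 476) (T.l 1)) (T.b (T.l 476)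 (T.l 1)))) (T.l 1))) (T.c (T.b (T.a (T.c (T.b (T.l 476) (T.l 1)) (T.b (T.l 476) (T.l 1))) (T.c (T.b (T.l 476) (T.l 1)) (T.b (T.l 476) (T.l 1)))) (T.l 1)) (T.b (T.a (T.c (T.b (T.l 476) (T.l 1)) (T.b (T.l 476) (T.l 1))) (T.c (T.b (T.l 476) (T.l 1)) (T.b (T.l 476) (T.l 1)))) (T.l 1)))) (T.l 1))) (T.c (T.b (T.a (T.c (T.b (T.a (T.c (T.b (T.l 476) (T.l 1)) (T.b (T.l 476) (T.l 1))) (T.c (T.l 1024) (T.b (T.l 476) (T.l 1)))) (T.l 1)) (T.b (T.a (T.c (T.b (T.l 476) (T.l 1)) (T.b (T.l 476) (T.l 1))) (T.c (T.b (T.l 476) (T.l 1)) (T.b (T.l 476) (T.l 1)))) (T.l 1))) (T.a (T.a (T.c (T.l 1024) (T.a (T.c (T.l 1024) (T.a (T.b (T.b (T.l 476) (T.l 1)) (T.l 1)) (T.l 1024))) (T.l 1024))) (T.l 1024)) (T.l 1024))) (T.l 1)) (T.b (T.a (T.c (T.b (T.a (T.c (T.b (T.l 476) (T.l 1)) (T.b (T.l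 476) (T.l 1))) (T.c (T.b (T.l 476) (T.l 1)) (T.b (T.l 476) (T.l 1)))) (T.l 1)) (T.b (T.a (T.c (T.b (T.l 476) (T.l 1)) (T.b (T.l 476) (T.l 1))) (T.c (T.b (T.l 476) (T.l 1)) (T.b (T.l 476) (T.l 1)))) (T.l 1))) (T.c (T.b (T.a (T.c (T.b (T.l 476) (T.l 1)) (T.b (T.l 476) (T.l 1))) (T.c (T.l 1024) (T.b (T.l 476) (T.l 1)))) (T.l 1)) (T.b (T.a (T.c (T.b (T.l 476) (T.l 1)) (T.b (T.l 476) (T.l 1))) (T.c (T.b (T.l 476) (T.l 1)) (T.b (T.l 476) (T.l 1)))) (T.l 1)))) (T.l 1)))) (T.l 1))) (T.a (T.a (T.c (T.l 1024) (T.a (T.c (T.l 1024) (T.b (T.a (T.c (T.l 1024) (T.b (T.a (T.c (T.l 1024) (T.a (T.b (T.b (T.l 476) (T.l 1)) (T.l 1)) (T.l 1024))) (T.l 1024)) (T.l 1))) (T.l 1024)) (T.l 1))) (T.l 1024))) (T.l 1024)) (T.l 1024))) (T.l 1)), by decide +kernel⟩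

end Pool.Agent.Strip051.G.I1_32_3_64.Tab.CF
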