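import Pool.Agent.Strip051.G.I1_32_3_64.Gn
import Pool.Agent.Strip051.PB.Corns
import Pool.Agent.Strip051.PB.CornK

/-! # Certificates of the aligned corners (generated) -/

set_option linter.all false

namespace Pool.Agent.Strip051.G.I1_32_3_64.Tab.CF

open Pool.Agent.Strip051.PB

def B202E_020_28_2048_13 :
    ∃ t, chk3 (onCell 0 33554432 0 1073741824 33554432 16777216 (corTK [[⟨0, 1, 0, 6291456⟩, ⟨1, 0, 1, 16777216⟩, ⟨2, 1, 1, 16777216⟩, ⟨1, 0, 0, 67108864⟩, ⟨1, 1, 0, 1056964608⟩, ⟨2, 1, 0, 67108864⟩, ⟨2, 2, 0, 1056964608⟩]] true 1 c0F cB202E gF0q2 gF2q2 gF0q0 gF1q0 true true)) t 28 2048 13 = true :=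
  ⟨(T.c (T.b (T.a (T.c (T.b (T.a (T.c (T.b (T.a (T.c (T.b (T.l 476) (T.l 1)) (T.b (T.l 476) (T.l 1))) (T.c (T.b (T.l 476) (T.l 1)) (T.b (T.l 476) (T.l 1)))) (T.l 1)) (T.b (T.a (T.c (T.b (T.l 476) (T.l 1)) (T.b (T.l 476) (T.l 1))) (T.c (T.b (T.l 476) (T.l 1)) (T.b (T.l 476) (T.l 1)))) (T.l 1))) (T.c (T.b (T.a (T.c (T.b (T.l 476) (T.l 1)) (T.b (T.l 476) (T.l 1))) (T.c (T.b (T.l 476) (T.l 1)) (T.b (T.l 476) (T.l 1)))) (T.l 1)) (T.b (T.a (T.c (T.b (T.l 476) (T.l 1)) (T.b (T.l 476) (T.l 1))) (T.c (T.b (T.l 476) (T.l 1)) (T.b (T.l 476) (T.l 1)))) (T.l 1)))) (T.l 1)) (T.b (T.a (T.c (T.b (T.a (T.c (T.b (T.l 476) (T.l 1)) (T.b (T.l 476) (T.l 1))) (T.c (T.b (T.l 476) (T.l 1)) (T.b (T.l 476) (T.l 1)))) (T.l 1)) (T.b (T.a (T.c (T.b (T.l 476) (T.l 1)) (T.a (T.l 476) (T.l 476)))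 (T.c (T.b (T.l 476) (T.l 1)) (T.b (T.l 476) (T.l 1)))) (T.l 1))) (T.c (T.b (T.a (T.c (T.b (T.l 476) (T.l 1)) (T.b (T.l 476) (T.l 1))) (T.c (T.b (T.l 476) (T.l 1)) (T.b (T.l 476) (T.l 1)))) (T.l 1)) (T.b (T.a (T.c (T.b (T.l 476) (T.l 1)) (T.b (T.l 476) (T.l 1))) (T.c (T.b (T.l 476) (T.l 1)) (T.b (T.l 476) (T.l 1)))) (T.l 1)))) (T.l 1))) (T.c (T.b (T.a (T.c (T.b (T.a (T.c (T.b (T.l 476) (T.l 1)) (T.b (T.l 476) (T.l 1))) (T.c (T.b (T.l 476) (T.l 1)) (T.b (T.l 476) (T.l 1)))) (T.l 1)) (T.b (T.a (T.c (T.b (T.l 476) (T.l 1)) (T.b (T.l 476) (T.l 1))) (T.c (T.b (T.l 476) (T.l 1)) (T.b (T.l 476) (T.l 1)))) (T.l 1))) (T.c (T.b (T.a (T.c (T.b (T.l 476) (T.l 1)) (T.b (T.l 476) (T.l 1))) (T.c (T.b (T.l 476) (T.l 1)) (T.b (T.l 476) (T.l 1)))) (T.l 1)) (T.b (T.a (T.c (T.b (T.l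 476) (T.l 1)) (T.b (T.l 476) (T.l 1))) (T.c (T.b (T.l 476) (T.l 1)) (T.b (T.l 476) (T.l 1)))) (T.l 1)))) (T.l 1)) (T.b (T.a (T.c (T.b (T.a (T.c (T.b (T.l 476) (T.l 1)) (T.b (T.l 476) (T.l 1))) (T.c (T.b (T.l 476) (T.l 1)) (T.b (T.l 476) (T.l 1)))) (T.l 1)) (T.b (T.a (T.c (T.b (T.l 476) (T.l 1)) (T.b (T.l 476) (T.l 1))) (T.c (T.b (T.l 476) (T.l 1)) (T.b (T.l 476) (T.l 1)))) (T.l 1))) (T.c (T.b (T.a (T.c (T.b (T.l 476) (T.l 1)) (T.b (T.l 476) (T.l 1))) (T.c (T.b (T.l 476) (T.l 1)) (T.b (T.l 476) (T.l 1)))) (T.l 1)) (T.b (T.a (T.c (T.b (T.l 476) (T.l 1)) (T.b (T.l 476) (T.l 1))) (T.c (T.b (T.l 476) (T.l 1)) (T.b (T.l 476) (T.l 1)))) (T.l 1)))) (T.l 1)))) (T.l 1)) (T.b (T.a (T.c (T.b (T.a (T.c (T.b (T.a (T.a (T.l 476) (T.l 476)) (T.c (T.b (T.l 476) (T.l 1)) (T.a (T.l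 476) (T.l 476)))) (T.l 1)) (T.b (T.a (T.l 476) (T.a (T.l 476) (T.l 476))) (T.l 1))) (T.c (T.b (T.a (T.c (T.b (T.l 476) (T.l 1)) (T.b (T.l 476) (T.l 1))) (T.c (T.b (T.l 476) (T.l 1)) (T.b (T.l 476) (T.l 1)))) (T.l 1)) (T.b (T.a (T.c (T.b (T.l 476) (T.l 1)) (T.a (T.l 476) (T.l 476))) (T.c (T.b (T.l 476) (T.l 1)) (T.b (T.l 476) (T.l 1)))) (T.l 1)))) (T.l 1)) (T.b (T.a (T.c (T.b (T.a (T.l 476) (T.l 476)) (T.l 1)) (T.b (T.a (T.l 476) (T.l 476)) (T.l 1))) (T.c (T.b (T.a (T.l 476) (T.c (T.b (T.l 476) (T.l 1)) (T.a (T.l 476) (T.l 476)))) (T.l 1)) (T.b (T.a (T.l 476) (T.l 476)) (T.l 1)))) (T.l 1))) (T.c (T.b (T.a (T.c (T.b (T.a (T.c (T.b (T.l 476) (T.l 1)) (T.b (T.l 476) (T.l 1))) (T.c (T.b (T.l 476) (T.l 1)) (T.b (T.l 476) (T.l 1)))) (T.l 1)) (T.b (T.a (T.c (T.b (T.l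 476) (T.l 1)) (T.b (T.l 476) (T.l 1))) (T.c (T.b (T.l 476) (T.l 1)) (T.b (T.l 476) (T.l 1)))) (T.l 1))) (T.c (T.b (T.a (T.c (T.b (T.l 476) (T.l 1)) (T.b (T.l 476) (T.l 1))) (T.c (T.b (T.l 476) (T.l 1)) (T.b (T.l 476) (T.l 1)))) (T.l 1)) (T.b (T.a (T.c (T.b (T.l 476) (T.l 1)) (T.b (T.l 476) (T.l 1))) (T.c (T.b (T.l 476) (T.l 1)) (T.b (T.l 476) (T.l 1)))) (T.l 1)))) (T.l 1)) (T.b (T.a (T.c (T.b (T.a (T.c (T.b (T.l 476) (T.l 1)) (T.b (T.l 476) (T.l 1))) (T.c (T.b (T.l 476) (T.l 1)) (T.b (T.l 476) (T.l 1)))) (T.l 1)) (T.b (T.a (T.c (T.b (T.l 476) (T.l 1)) (T.a (T.l 476) (T.l 476))) (T.c (T.b (T.l 476) (T.l 1)) (T.b (T.l 476) (T.l 1)))) (T.l 1))) (T.c (T.b (T.a (T.c (T.b (T.l 476) (T.l 1)) (T.b (T.l 476) (T.l 1))) (T.c (T.b (T.l 476) (T.l 1)) (T.b (T.l 476) (T.l 1))))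 (T.l 1)) (T.b (T.a (T.c (T.b (T.l 476) (T.l 1)) (T.b (T.l 476) (T.l 1))) (T.c (T.b (T.l 476) (T.l 1)) (T.b (T.l 476) (T.l 1)))) (T.l 1)))) (T.l 1)))) (T.l 1))), by decide +kernel⟩

def B202E_020_29_2048_13 :
    ∃ t, chk3 (onCell 0 33554432 0 1073741824 33554432 16777216 (corTK [[⟨0, 1, 0, 6291456⟩, ⟨1, 0, 1, 16777216⟩, ⟨2, 1, 1, 16777216⟩, ⟨1, 0, 0, 67108864⟩, ⟨1, 1, 0, 1056964608⟩, ⟨2, 1, 0, 67108864⟩, ⟨2, 2, 0, 1056964608⟩]] true 1 c0F cB202E gF0q2 gF2q2 gF0q0 gF1q0 true true)) t 29 2048 13 = true :=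
  ⟨(T.c (T.b (T.a (T.c (T.b (T.a (T.c (T.b (T.a (T.c (T.b (T.l 476) (T.l 1)) (T.b (T.l 476) (T.l 1))) (T.c (T.l 1024) (T.b (T.l 476) (T.l 1)))) (T.l 1)) (T.b (T.a (T.c (T.b (T.l 476) (T.l 1)) (T.b (T.l 476) (T.l 1))) (T.c (T.b (T.l 476) (T.l 1)) (T.b (T.l 476) (T.l 1)))) (T.l 1))) (T.a (T.a (T.c (T.l 1024) (T.a (T.c (T.l 1024) (T.a (T.b (T.b (T.l 476) (T.l 1)) (T.l 1)) (T.l 1024))) (T.l 1024))) (T.l 1024)) (T.l 1024))) (T.l 1)) (T.b (T.a (T.c (T.b (T.a (T.c (T.b (T.l 476) (T.l 1)) (T.b (T.l 476) (T.l 1))) (T.c (T.b (T.l 476) (T.l 1)) (T.b (T.l 476) (T.l 1)))) (T.l 1)) (T.b (T.a (T.c (T.b (T.l 476) (T.l 1)) (T.b (T.l 476) (T.l 1))) (T.c (T.b (T.l 476) (T.l 1)) (T.b (T.l 476) (T.l 1)))) (T.l 1))) (T.c (T.b (T.a (T.c (T.b (T.l 476) (T.l 1)) (T.b (T.l 476) (T.l 1)))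 (T.c (T.l 1024) (T.b (T.l 476) (T.l 1)))) (T.l 1)) (T.b (T.a (T.c (T.b (T.l 476) (T.l 1)) (T.b (T.l 476) (T.l 1))) (T.c (T.b (T.l 476) (T.l 1)) (T.b (T.l 476) (T.l 1)))) (T.l 1)))) (T.l 1))) (T.a (T.a (T.c (T.l 1024) (T.a (T.c (T.l 1024) (T.b (T.a (T.c (T.l 1024) (T.a (T.b (T.b (T.l 476) (T.l 1)) (T.l 1)) (T.l 1024))) (T.l 1024)) (T.l 1))) (T.l 1024))) (T.l 1024)) (T.l 1024))) (T.l 1)) (T.b (T.a (T.c (T.b (T.a (T.c (T.b (T.a (T.c (T.b (T.l 476) (T.l 1)) (T.b (T.l 476) (T.l 1))) (T.c (T.b (T.l 476) (T.l 1)) (T.b (T.l 476) (T.l 1)))) (T.l 1)) (T.b (T.a (T.c (T.b (T.l 476) (T.l 1)) (T.b (T.l 476) (T.l 1))) (T.c (T.b (T.l 476) (T.l 1)) (T.b (T.l 476) (T.l 1)))) (T.l 1))) (T.c (T.b (T.a (T.c (T.b (T.l 476) (T.l 1)) (T.b (T.l 476) (T.l 1))) (T.c (T.b (T.l 476) (T.l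 1)) (T.b (T.l 476) (T.l 1)))) (T.l 1)) (T.b (T.a (T.c (T.b (T.l 476) (T.l 1)) (T.b (T.l 476) (T.l 1))) (T.c (T.b (T.l 476) (T.l 1)) (T.b (T.l 476) (T.l 1)))) (T.l 1)))) (T.l 1)) (T.b (T.a (T.c (T.b (T.a (T.c (T.b (T.l 476) (T.l 1)) (T.b (T.l 476) (T.l 1))) (T.c (T.b (T.l 476) (T.l 1)) (T.b (T.l 476) (T.l 1)))) (T.l 1)) (T.b (T.a (T.c (T.b (T.l 476) (T.l 1)) (T.b (T.l 476) (T.l 1))) (T.c (T.b (T.l 476) (T.l 1)) (T.b (T.l 476) (T.l 1)))) (T.l 1))) (T.c (T.b (T.a (T.c (T.b (T.l 476) (T.l 1)) (T.b (T.l 476) (T.l 1))) (T.c (T.b (T.l 476) (T.l 1)) (T.b (T.l 476) (T.l 1)))) (T.l 1)) (T.b (T.a (T.c (T.b (T.l 476) (T.l 1)) (T.b (T.l 476) (T.l 1))) (T.c (T.b (T.l 476) (T.l 1)) (T.b (T.l 476) (T.l 1)))) (T.l 1)))) (T.l 1))) (T.c (T.b (T.a (T.c (T.b (T.a (T.c (T.b (T.l 476)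 (T.l 1)) (T.b (T.l 476) (T.l 1))) (T.c (T.l 1024) (T.b (T.l 476) (T.l 1)))) (T.l 1)) (T.b (T.a (T.c (T.b (T.l 476) (T.l 1)) (T.b (T.l 476) (T.l 1))) (T.c (T.b (T.l 476) (T.l 1)) (T.b (T.l 476) (T.l 1)))) (T.l 1))) (T.a (T.a (T.c (T.l 1024) (T.a (T.c (T.l 1024) (T.a (T.b (T.b (T.l 476) (T.l 1)) (T.l 1)) (T.l 1024))) (T.l 1024))) (T.l 1024)) (T.l 1024))) (T.l 1)) (T.b (T.a (T.c (T.b (T.a (T.c (T.b (T.l 476) (T.l 1)) (T.b (T.l 476) (T.l 1))) (T.c (T.b (T.l 476) (T.l 1)) (T.b (T.l 476) (T.l 1)))) (T.l 1)) (T.b (T.a (T.c (T.b (T.l 476) (T.l 1)) (T.b (T.l 476) (T.l 1))) (T.c (T.b (T.l 476) (T.l 1)) (T.b (T.l 476) (T.l 1)))) (T.l 1))) (T.c (T.b (T.a (T.c (T.b (T.l 476) (T.l 1)) (T.b (T.l 476) (T.l 1))) (T.c (T.l 1024) (T.b (T.l 476) (T.l 1)))) (T.l 1)) (T.b (T.a (T.c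 (T.b (T.l 476) (T.l 1)) (T.b (T.l 476) (T.l 1))) (T.c (T.b (T.l 476) (T.l 1)) (T.b (T.l 476) (T.l 1)))) (T.l 1)))) (T.l 1)))) (T.l 1))), by decide +kernel⟩

def B202E_020_14_2049_13 :
    ∃ t, chk3 (onCell 0 33554432 0 1073741824 33554432 16777216 (corTK [[⟨0, 1, 0, 6291456⟩, ⟨1, 0, 1, 16777216⟩, ⟨2, 1, 1, 16777216⟩, ⟨1, 0, 0, 67108864⟩, ⟨1, 1, 0, 1056964608⟩, ⟨2, 1, 0, 67108864⟩, ⟨2, 2, 0, 1056964608⟩]] true 1 c0F cB202E gF0q2 gF2q2 gF0q0 gF1q0 true true)) t 14 2049 13 = true :=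
  ⟨(T.l 1), by decide +kernel⟩

def B202E_020_15_1024_6 :
    ∃ t, chk3 (onCell 0 33554432 0 1073741824 33554432 16777216 (corTK [[⟨0, 1, 0, 6291456⟩, ⟨1, 0, 1, 16777216⟩, ⟨2, 1, 1, 16777216⟩, ⟨1, 0, 0, 67108864⟩, ⟨1, 1, 0, 1056964608⟩, ⟨2, 1, 0, 67108864⟩, ⟨2, 2, 0, 1056964608⟩]] true 1 c0F cB202E gF0q2 gF2q2 gF0q0 gF1q0 true true)) t 15 1024 6 = true :=
  ⟨(T.a (T.a (T.c (T.l 1024) (T.a (T.c (T.l 1024) (T.b (T.a (T.c (T.l 1024) (T.b (T.a (T.c (T.l 1024) (T.b (T.a (T.c (T.l 1024) (T.b (T.b (T.l 476) (T.l 1)) (T.l 1))) (T.l 1024)) (T.l 1))) (T.l 1024)) (T.l 1))) (T.l 1024)) (T.l 1))) (T.l 1024))) (T.l 1024)) (T.l 1024)), by decide +kernel⟩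

def B202E_020_7_1025_6 :
    ∃ t, chk3 (onCell 0 33554432 0 1073741824 33554432 16777216 (corTK [[⟨0, 1, 0, 6291456⟩, ⟨1, 0, 1, 16777216⟩, ⟨2, 1, 1, 16777216⟩, ⟨1, 0, 0, 67108864⟩, ⟨1, 1, 0, 1056964608⟩, ⟨2, 1, 0, 67108864⟩, ⟨2, 2, 0, 1056964608⟩]] true 1 c0F cB202E gF0q2 gF2q2 gF0q0 gF1q0 true true)) t 7 1025 6 = true :=
  ⟨(T.l 1), by decide +kernel⟩

def B202E_020_14_1024_14 :
    ∃ t, chk3 (onCell 0 33554432 0 1073741824 33554432 16777216 (corTK [[⟨0, 1, 0, 6291456⟩, ⟨1, 0, 1, 16777216⟩, ⟨2, 1, 1, 16777216⟩, ⟨1, 0, 0, 67108864⟩, ⟨1, 1, 0, 1056964608⟩, ⟨2, 1, 0, 67108864⟩, ⟨2, 2, 0, 1056964608⟩]] true 1 c0F cB202E gF0q2 gF2q2 gF0q0 gF1q0 true true)) t 14 1024 14 = true :=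
  ⟨(T.b (T.a (T.c (T.b (T.a (T.c (T.b (T.a (T.c (T.b (T.a (T.l 476) (T.l 476)) (T.l 1)) (T.b (T.l 476) (T.l 1))) (T.c (T.b (T.a (T.l 476) (T.l 476)) (T.l 1)) (T.b (T.a (T.l 476) (T.l 476)) (T.l 1)))) (T.l 1)) (T.b (T.a (T.c (T.b (T.l 476) (T.l 1)) (T.b (T.l 476) (T.l 1))) (T.c (T.b (T.a (T.l 476) (T.l 476)) (T.l 1)) (T.b (T.l 476) (T.l 1)))) (T.l 1))) (T.c (T.b (T.a (T.c (T.b (T.a (T.l 476) (T.c (T.b (T.l 476) (T.l 1)) (T.a (T.l 476) (T.l 476)))) (T.l 1)) (T.b (T.a (T.l 476) (T.l 476)) (T.l 1))) (T.c (T.b (T.a (T.c (T.b (T.l 476) (T.l 1)) (T.b (T.l 476) (T.l 1))) (T.c (T.b (T.l 476) (T.l 1)) (T.b (T.l 476) (T.l 1)))) (T.l 1)) (T.b (T.a (T.c (T.b (T.l 476) (T.l 1)) (T.a (T.l 476) (T.l 476))) (T.c (T.b (T.l 476) (T.l 1)) (T.b (T.l 476) (T.l 1)))) (T.l 1)))) (T.l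 1)) (T.b (T.a (T.c (T.b (T.a (T.l 476) (T.l 476)) (T.l 1)) (T.b (T.a (T.l 476) (T.l 476)) (T.l 1))) (T.c (T.b (T.a (T.l 476) (T.c (T.a (T.l 476) (T.l 476)) (T.a (T.l 476) (T.l 476)))) (T.l 1)) (T.b (T.a (T.l 476) (T.l 476)) (T.l 1)))) (T.l 1)))) (T.l 1)) (T.b (T.a (T.c (T.b (T.a (T.c (T.b (T.l 476) (T.l 1)) (T.b (T.l 476) (T.l 1))) (T.c (T.b (T.l 476) (T.l 1)) (T.b (T.l 476) (T.l 1)))) (T.l 1)) (T.b (T.a (T.c (T.b (T.l 476) (T.l 1)) (T.b (T.l 476) (T.l 1))) (T.c (T.b (T.l 476) (T.l 1)) (T.b (T.l 476) (T.l 1)))) (T.l 1))) (T.c (T.b (T.a (T.c (T.b (T.l 476) (T.l 1)) (T.b (T.l 476) (T.l 1))) (T.c (T.b (T.a (T.l 476) (T.l 476)) (T.l 1)) (T.b (T.a (T.l 476) (T.l 476)) (T.l 1)))) (T.l 1)) (T.b (T.a (T.c (T.b (T.l 476) (T.l 1)) (T.b (T.l 476) (T.l 1))) (T.c (T.b (T.l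 476) (T.l 1)) (T.b (T.l 476) (T.l 1)))) (T.l 1)))) (T.l 1))) (T.c (T.b (T.a (T.c (T.b (T.a (T.c (T.b (T.a (T.c (T.b (T.l 476) (T.l 1)) (T.b (T.l 476) (T.l 1))) (T.c (T.b (T.l 476) (T.l 1)) (T.b (T.l 476) (T.l 1)))) (T.l 1)) (T.b (T.a (T.c (T.b (T.l 476) (T.l 1)) (T.b (T.l 476) (T.l 1))) (T.c (T.b (T.l 476) (T.l 1)) (T.b (T.l 476) (T.l 1)))) (T.l 1))) (T.c (T.b (T.a (T.c (T.b (T.l 476) (T.l 1)) (T.b (T.l 476) (T.l 1))) (T.c (T.b (T.l 476) (T.l 1)) (T.b (T.l 476) (T.l 1)))) (T.l 1)) (T.b (T.a (T.c (T.b (T.l 476) (T.l 1)) (T.b (T.l 476) (T.l 1))) (T.c (T.b (T.l 476) (T.l 1)) (T.b (T.l 476) (T.l 1)))) (T.l 1)))) (T.l 1)) (T.b (T.a (T.c (T.b (T.a (T.c (T.b (T.l 476) (T.l 1)) (T.b (T.l 476) (T.l 1))) (T.c (T.b (T.l 476) (T.l 1)) (T.b (T.l 476) (T.l 1)))) (T.l 1)) (T.b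 (T.a (T.a (T.l 476) (T.l 476)) (T.c (T.b (T.l 476) (T.l 1)) (T.b (T.l 476) (T.l 1)))) (T.l 1))) (T.c (T.b (T.a (T.c (T.b (T.l 476) (T.l 1)) (T.b (T.l 476) (T.l 1))) (T.c (T.b (T.l 476) (T.l 1)) (T.b (T.l 476) (T.l 1)))) (T.l 1)) (T.b (T.a (T.c (T.b (T.l 476) (T.l 1)) (T.b (T.l 476) (T.l 1))) (T.c (T.b (T.l 476) (T.l 1)) (T.b (T.l 476) (T.l 1)))) (T.l 1)))) (T.l 1))) (T.c (T.b (T.a (T.c (T.b (T.a (T.c (T.b (T.l 476) (T.l 1)) (T.b (T.l 476) (T.l 1))) (T.c (T.b (T.l 476) (T.l 1)) (T.b (T.l 476) (T.l 1)))) (T.l 1)) (T.b (T.a (T.c (T.b (T.l 476) (T.l 1)) (T.b (T.l 476) (T.l 1))) (T.c (T.b (T.l 476) (T.l 1)) (T.b (T.l 476) (T.l 1)))) (T.l 1))) (T.c (T.b (T.a (T.c (T.b (T.l 476) (T.l 1)) (T.b (T.l 476) (T.l 1))) (T.c (T.b (T.l 476) (T.l 1)) (T.b (T.l 476) (T.l 1))))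 (T.l 1)) (T.b (T.a (T.c (T.b (T.l 476) (T.l 1)) (T.b (T.l 476) (T.l 1))) (T.c (T.b (T.l 476) (T.l 1)) (T.b (T.l 476) (T.l 1)))) (T.l 1)))) (T.l 1)) (T.b (T.a (T.c (T.b (T.a (T.c (T.b (T.l 476) (T.l 1)) (T.b (T.l 476) (T.l 1))) (T.c (T.b (T.l 476) (T.l 1)) (T.b (T.l 476) (T.l 1)))) (T.l 1)) (T.b (T.a (T.c (T.b (T.l 476) (T.l 1)) (T.b (T.l 476) (T.l 1))) (T.c (T.b (T.l 476) (T.l 1)) (T.b (T.l 476) (T.l 1)))) (T.l 1))) (T.c (T.b (T.a (T.c (T.b (T.l 476) (T.l 1)) (T.b (T.l 476) (T.l 1))) (T.c (T.b (T.l 476) (T.l 1)) (T.b (T.l 476) (T.l 1)))) (T.l 1)) (T.b (T.a (T.c (T.b (T.l 476) (T.l 1)) (T.b (T.l 476) (T.l 1))) (T.c (T.b (T.l 476) (T.l 1)) (T.b (T.l 476) (T.l 1)))) (T.l 1)))) (T.l 1)))) (T.l 1)) (T.b (T.a (T.c (T.b (T.a (T.c (T.b (T.a (T.l 476) (T.a (T.l 476) (T.l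 476))) (T.l 1)) (T.b (T.a (T.l 476) (T.l 476)) (T.l 1))) (T.c (T.b (T.a (T.c (T.b (T.l 476) (T.l 1)) (T.b (T.l 476) (T.l 1))) (T.c (T.b (T.l 476) (T.l 1)) (T.b (T.l 476) (T.l 1)))) (T.l 1)) (T.b (T.a (T.a (T.l 476) (T.l 476)) (T.c (T.b (T.l 476) (T.l 1)) (T.b (T.l 476) (T.l 1)))) (T.l 1)))) (T.l 1)) (T.b (T.a (T.c (T.b (T.a (T.l 476) (T.l 476)) (T.l 1)) (T.b (T.a (T.l 476) (T.l 476)) (T.l 1))) (T.c (T.b (T.a (T.l 476) (T.a (T.l 476) (T.l 476))) (T.l 1)) (T.b (T.a (T.l 476) (T.l 476)) (T.l 1)))) (T.l 1))) (T.c (T.b (T.a (T.c (T.b (T.a (T.c (T.b (T.l 476) (T.l 1)) (T.b (T.l 476) (T.l 1))) (T.c (T.b (T.l 476) (T.l 1)) (T.b (T.l 476) (T.l 1)))) (T.l 1)) (T.b (T.a (T.c (T.b (T.l 476) (T.l 1)) (T.b (T.l 476) (T.l 1))) (T.c (T.b (T.l 476) (T.l 1)) (T.b (T.l 476) (T.l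 1)))) (T.l 1))) (T.c (T.b (T.a (T.c (T.b (T.l 476) (T.l 1)) (T.b (T.l 476) (T.l 1))) (T.c (T.b (T.l 476) (T.l 1)) (T.b (T.l 476) (T.l 1)))) (T.l 1)) (T.b (T.a (T.c (T.b (T.l 476) (T.l 1)) (T.b (T.l 476) (T.l 1))) (T.c (T.b (T.l 476) (T.l 1)) (T.b (T.l 476) (T.l 1)))) (T.l 1)))) (T.l 1)) (T.b (T.a (T.c (T.b (T.a (T.c (T.b (T.l 476) (T.l 1)) (T.b (T.l 476) (T.l 1))) (T.c (T.b (T.l 476) (T.l 1)) (T.b (T.l 476) (T.l 1)))) (T.l 1)) (T.b (T.a (T.a (T.l 476) (T.l 476)) (T.c (T.b (T.l 476) (T.l 1)) (T.b (T.l 476) (T.l 1)))) (T.l 1))) (T.c (T.b (T.a (T.c (T.b (T.l 476) (T.l 1)) (T.b (T.l 476) (T.l 1))) (T.c (T.b (T.l 476) (T.l 1)) (T.b (T.l 476) (T.l 1)))) (T.l 1)) (T.b (T.a (T.c (T.b (T.l 476) (T.l 1)) (T.b (T.l 476) (T.l 1))) (T.c (T.b (T.l 476) (T.l 1)) (T.b (T.l 476)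 (T.l 1)))) (T.l 1)))) (T.l 1)))) (T.l 1)))) (T.l 1)), by decide +kernel⟩

def B202E_020_14_1024_15 :
    ∃ t, chk3 (onCell 0 33554432 0 1073741824 33554432 16777216 (corTK [[⟨0, 1, 0, 6291456⟩, ⟨1, 0, 1, 16777216⟩, ⟨2, 1, 1, 16777216⟩, ⟨1, 0, 0, 67108864⟩, ⟨1, 1, 0, 1056964608⟩, ⟨2, 1, 0, 67108864⟩, ⟨2, 2, 0, 1056964608⟩]] true 1 c0F cB202E gF0q2 gF2q2 gF0q0 gF1q0 true true)) t 14 1024 15 = true :=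
  ⟨(T.b (T.a (T.c (T.b (T.a (T.c (T.b (T.a (T.c (T.b (T.l 476) (T.l 1)) (T.b (T.l 476) (T.l 1))) (T.c (T.b (T.l 476) (T.l 1)) (T.b (T.l 476) (T.l 1)))) (T.l 1)) (T.b (T.a (T.c (T.b (T.l 476) (T.l 1)) (T.b (T.l 476) (T.l 1))) (T.c (T.b (T.l 476) (T.l 1)) (T.b (T.l 476) (T.l 1)))) (T.l 1))) (T.c (T.b (T.a (T.c (T.b (T.l 476) (T.l 1)) (T.b (T.l 476) (T.l 1))) (T.c (T.b (T.l 476) (T.l 1)) (T.b (T.l 476) (T.l 1)))) (T.l 1)) (T.b (T.a (T.c (T.b (T.l 476) (T.l 1)) (T.b (T.l 476) (T.l 1))) (T.c (T.b (T.l 476) (T.l 1)) (T.b (T.l 476) (T.l 1)))) (T.l 1)))) (T.l 1)) (T.b (T.a (T.c (T.b (T.a (T.c (T.b (T.l 476) (T.l 1)) (T.b (T.l 476) (T.l 1))) (T.c (T.b (T.l 476) (T.l 1)) (T.b (T.l 476) (T.l 1)))) (T.l 1)) (T.b (T.a (T.c (T.b (T.l 476) (T.l 1)) (T.b (T.l 476) (T.l 1))) (T.c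 (T.b (T.l 476) (T.l 1)) (T.b (T.l 476) (T.l 1)))) (T.l 1))) (T.c (T.b (T.a (T.c (T.b (T.l 476) (T.l 1)) (T.b (T.l 476) (T.l 1))) (T.c (T.b (T.l 476) (T.l 1)) (T.b (T.l 476) (T.l 1)))) (T.l 1)) (T.b (T.a (T.c (T.b (T.l 476) (T.l 1)) (T.b (T.l 476) (T.l 1))) (T.c (T.b (T.l 476) (T.l 1)) (T.b (T.l 476) (T.l 1)))) (T.l 1)))) (T.l 1))) (T.c (T.b (T.a (T.c (T.b (T.a (T.c (T.b (T.l 476) (T.l 1)) (T.b (T.l 476) (T.l 1))) (T.c (T.b (T.a (T.l 476) (T.l 476)) (T.l 1)) (T.b (T.a (T.l 476) (T.l 476)) (T.l 1)))) (T.l 1)) (T.b (T.a (T.c (T.b (T.l 476) (T.l 1)) (T.b (T.l 476) (T.l 1))) (T.c (T.b (T.l 476) (T.l 1)) (T.b (T.l 476) (T.l 1)))) (T.l 1))) (T.c (T.b (T.a (T.c (T.b (T.a (T.l 476) (T.a (T.l 476) (T.l 476))) (T.l 1)) (T.b (T.a (T.l 476) (T.l 476)) (T.l 1))) (T.c (T.b (T.a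 (T.c (T.b (T.l 476) (T.l 1)) (T.b (T.l 476) (T.l 1))) (T.c (T.b (T.l 476) (T.l 1)) (T.b (T.l 476) (T.l 1)))) (T.l 1)) (T.b (T.a (T.a (T.l 476) (T.l 476)) (T.c (T.b (T.l 476) (T.l 1)) (T.b (T.l 476) (T.l 1)))) (T.l 1)))) (T.l 1)) (T.b (T.a (T.c (T.b (T.a (T.l 476) (T.l 476)) (T.l 1)) (T.b (T.a (T.l 476) (T.l 476)) (T.l 1))) (T.c (T.b (T.a (T.l 476) (T.a (T.l 476) (T.l 476))) (T.l 1)) (T.b (T.a (T.l 476) (T.l 476)) (T.l 1)))) (T.l 1)))) (T.l 1)) (T.b (T.a (T.c (T.b (T.a (T.c (T.b (T.l 476) (T.l 1)) (T.b (T.l 476) (T.l 1))) (T.c (T.b (T.l 476) (T.l 1)) (T.b (T.l 476) (T.l 1)))) (T.l 1)) (T.b (T.a (T.c (T.b (T.l 476) (T.l 1)) (T.b (T.l 476) (T.l 1))) (T.c (T.b (T.l 476) (T.l 1)) (T.b (T.l 476) (T.l 1)))) (T.l 1))) (T.c (T.b (T.a (T.c (T.b (T.l 476) (T.l 1)) (T.b (T.l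 476) (T.l 1))) (T.c (T.b (T.a (T.l 476) (T.l 476)) (T.l 1)) (T.b (T.a (T.l 476) (T.l 476)) (T.l 1)))) (T.l 1)) (T.b (T.a (T.c (T.b (T.l 476) (T.l 1)) (T.b (T.l 476) (T.l 1))) (T.c (T.b (T.l 476) (T.l 1)) (T.b (T.l 476) (T.l 1)))) (T.l 1)))) (T.l 1)))) (T.l 1)), by decide +kernel⟩

def B202E_020_15_1024_14 :
    ∃ t, chk3 (onCell 0 33554432 0 1073741824 33554432 16777216 (corTK [[⟨0, 1, 0, 6291456⟩, ⟨1, 0, 1, 16777216⟩, ⟨2, 1, 1, 16777216⟩, ⟨1, 0, 0, 67108864⟩, ⟨1, 1, 0, 1056964608⟩, ⟨2, 1, 0, 67108864⟩, ⟨2, 2, 0, 1056964608⟩]] true 1 c0F cB202E gF0q2 gF2q2 gF0q0 gF1q0 true true)) t 15 1024 14 = true :=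
  ⟨(T.b (T.a (T.c (T.b (T.a (T.c (T.b (T.a (T.c (T.b (T.a (T.c (T.b (T.l 476) (T.l 1)) (T.b (T.l 476) (T.l 1))) (T.c (T.l 1024) (T.b (T.l 476) (T.l 1)))) (T.l 1)) (T.b (T.a (T.c (T.b (T.l 476) (T.l 1)) (T.b (T.l 476) (T.l 1))) (T.c (T.b (T.l 476) (T.l 1)) (T.b (T.l 476) (T.l 1)))) (T.l 1))) (T.a (T.a (T.c (T.l 1024) (T.a (T.c (T.l 1024) (T.b (T.b (T.l 476) (T.l 1)) (T.l 1))) (T.l 1024))) (T.l 1024)) (T.l 1024))) (T.l 1)) (T.b (T.a (T.c (T.b (T.a (T.c (T.b (T.l 476) (T.l 1)) (T.b (T.l 476) (T.l 1))) (T.c (T.b (T.l 476) (T.l 1)) (T.b (T.l 476) (T.l 1)))) (T.l 1)) (T.b (T.a (T.c (T.b (T.l 476) (T.l 1)) (T.b (T.l 476) (T.l 1))) (T.c (T.b (T.l 476) (T.l 1)) (T.b (T.l 476) (T.l 1)))) (T.l 1))) (T.c (T.b (T.a (T.c (T.b (T.l 476) (T.l 1)) (T.b (T.l 476) (T.l 1))) (T.c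 (T.l 1024) (T.b (T.l 476) (T.l 1)))) (T.l 1)) (T.b (T.a (T.c (T.b (T.l 476) (T.l 1)) (T.b (T.l 476) (T.l 1))) (T.c (T.b (T.l 476) (T.l 1)) (T.b (T.l 476) (T.l 1)))) (T.l 1)))) (T.l 1))) (T.a (T.a (T.c (T.l 1024) (T.a (T.c (T.l 1024) (T.b (T.a (T.c (T.l 1024) (T.a (T.b (T.b (T.l 476) (T.l 1)) (T.l 1)) (T.l 1024))) (T.l 1024)) (T.l 1))) (T.l 1024))) (T.l 1024)) (T.l 1024))) (T.l 1)) (T.b (T.a (T.c (T.b (T.a (T.c (T.b (T.a (T.c (T.b (T.l 476) (T.l 1)) (T.b (T.l 476) (T.l 1))) (T.c (T.b (T.l 476) (T.l 1)) (T.b (T.l 476) (T.l 1)))) (T.l 1)) (T.b (T.a (T.c (T.b (T.l 476) (T.l 1)) (T.b (T.l 476) (T.l 1))) (T.c (T.b (T.l 476) (T.l 1)) (T.b (T.l 476) (T.l 1)))) (T.l 1))) (T.c (T.b (T.a (T.c (T.b (T.l 476) (T.l 1)) (T.b (T.l 476) (T.l 1))) (T.c (T.b (T.l 476) (T.l 1)) (T.b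 (T.l 476) (T.l 1)))) (T.l 1)) (T.b (T.a (T.c (T.b (T.l 476) (T.l 1)) (T.b (T.l 476) (T.l 1))) (T.c (T.b (T.l 476) (T.l 1)) (T.b (T.l 476) (T.l 1)))) (T.l 1)))) (T.l 1)) (T.b (T.a (T.c (T.b (T.a (T.c (T.b (T.l 476) (T.l 1)) (T.b (T.l 476) (T.l 1))) (T.c (T.b (T.l 476) (T.l 1)) (T.b (T.l 476) (T.l 1)))) (T.l 1)) (T.b (T.a (T.c (T.b (T.l 476) (T.l 1)) (T.b (T.l 476) (T.l 1))) (T.c (T.b (T.l 476) (T.l 1)) (T.b (T.l 476) (T.l 1)))) (T.l 1))) (T.c (T.b (T.a (T.c (T.b (T.l 476) (T.l 1)) (T.b (T.l 476) (T.l 1))) (T.c (T.b (T.l 476) (T.l 1)) (T.b (T.l 476) (T.l 1)))) (T.l 1)) (T.b (T.a (T.c (T.b (T.l 476) (T.l 1)) (T.b (T.l 476) (T.l 1))) (T.c (T.b (T.l 476) (T.l 1)) (T.b (T.l 476) (T.l 1)))) (T.l 1)))) (T.l 1))) (T.c (T.b (T.a (T.c (T.b (T.a (T.c (T.b (T.l 476) (T.l 1))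 (T.b (T.l 476) (T.l 1))) (T.c (T.l 1024) (T.b (T.l 476) (T.l 1)))) (T.l 1)) (T.b (T.a (T.c (T.b (T.l 476) (T.l 1)) (T.b (T.l 476) (T.l 1))) (T.c (T.b (T.l 476) (T.l 1)) (T.b (T.l 476) (T.l 1)))) (T.l 1))) (T.a (T.a (T.c (T.l 1024) (T.a (T.c (T.l 1024) (T.a (T.b (T.b (T.l 476) (T.l 1)) (T.l 1)) (T.l 1024))) (T.l 1024))) (T.l 1024)) (T.l 1024))) (T.l 1)) (T.b (T.a (T.c (T.b (T.a (T.c (T.b (T.l 476) (T.l 1)) (T.b (T.l 476) (T.l 1))) (T.c (T.b (T.l 476) (T.l 1)) (T.b (T.l 476) (T.l 1)))) (T.l 1)) (T.b (T.a (T.c (T.b (T.l 476) (T.l 1)) (T.b (T.l 476) (T.l 1))) (T.c (T.b (T.l 476) (T.l 1)) (T.b (T.l 476) (T.l 1)))) (T.l 1))) (T.c (T.b (T.a (T.c (T.b (T.l 476) (T.l 1)) (T.b (T.l 476) (T.l 1))) (T.c (T.l 1024) (T.b (T.l 476) (T.l 1)))) (T.l 1)) (T.b (T.a (T.c (T.b (T.l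 476) (T.l 1)) (T.b (T.l 476) (T.l 1))) (T.c (T.b (T.l 476) (T.l 1)) (T.b (T.l 476) (T.l 1)))) (T.l 1)))) (T.l 1)))) (T.l 1))) (T.a (T.a (T.c (T.l 1024) (T.a (T.c (T.l 1024) (T.b (T.a (T.c (T.l 1024) (T.b (T.a (T.c (T.l 1024) (T.a (T.b (T.b (T.l 476) (T.l 1)) (T.l 1)) (T.l 1024))) (T.l 1024)) (T.l 1))) (T.l 1024)) (T.l 1))) (T.l 1024))) (T.l 1024)) (T.l 1024))) (T.l 1)), by decide +kernel⟩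

def B202E_020_30_2048_15 :
    ∃ t, chk3 (onCell 0 33554432 0 1073741824 33554432 16777216 (corTK [[⟨0, 1, 0, 6291456⟩, ⟨1, 0, 1, 16777216⟩, ⟨2, 1, 1, 16777216⟩, ⟨1, 0, 0, 67108864⟩, ⟨1, 1, 0, 1056964608⟩, ⟨2, 1, 0, 67108864⟩, ⟨2, 2, 0, 1056964608⟩]] true 1 c0F cB202E gF0q2 gF2q2 gF0q0 gF1q0 true true)) t 30 2048 15 = true :=
  ⟨(T.c (T.b (T.a (T.c (T.b (T.a (T.c (T.b (T.a (T.c (T.b (T.l 476) (T.l 1)) (T.b (T.l 476) (T.l 1))) (T.c (T.b (T.l 476) (T.l 1)) (T.b (T.l 476) (T.l 1)))) (T.l 1)) (T.b (T.a (T.c (T.b (T.l 476) (T.l 1)) (T.b (T.l 476) (T.l 1))) (T.c (T.b (T.l 476) (T.l 1)) (T.b (T.l 476) (T.l 1)))) (T.l 1))) (T.c (T.b (T.a (T.c (T.b (T.l 476) (T.l 1)) (T.b (T.l 476) (T.l 1))) (T.c (T.b (T.l 476) (T.l 1)) (T.b (T.l 476) (T.l 1)))) (T.l 1)) (T.b (T.a (T.c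 (T.b (T.l 476) (T.l 1)) (T.b (T.l 476) (T.l 1))) (T.c (T.b (T.l 476) (T.l 1)) (T.b (T.l 476) (T.l 1)))) (T.l 1)))) (T.l 1)) (T.b (T.a (T.c (T.b (T.a (T.c (T.b (T.l 476) (T.l 1)) (T.b (T.l 476) (T.l 1))) (T.c (T.b (T.l 476) (T.l 1)) (T.b (T.l 476) (T.l 1)))) (T.l 1)) (T.b (T.a (T.a (T.l 476) (T.l 476)) (T.c (T.b (T.l 476) (T.l 1)) (T.b (T.l 476) (T.l 1)))) (T.l 1))) (T.c (T.b (T.a (T.c (T.b (T.l 476) (T.l 1)) (T.b (T.l 476) (T.l 1))) (T.c (T.b (T.l 476) (T.l 1)) (T.b (T.l 476) (T.l 1)))) (T.l 1)) (T.b (T.a (T.c (T.b (T.l 476) (T.l 1)) (T.b (T.l 476) (T.l 1))) (T.c (T.b (T.l 476) (T.l 1)) (T.b (T.l 476) (T.l 1)))) (T.l 1)))) (T.l 1))) (T.c (T.b (T.a (T.c (T.b (T.a (T.c (T.b (T.l 476) (T.l 1)) (T.b (T.l 476) (T.l 1))) (T.c (T.b (T.l 476) (T.l 1)) (T.b (T.l 476) (T.l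 1)))) (T.l 1)) (T.b (T.a (T.c (T.b (T.l 476) (T.l 1)) (T.b (T.l 476) (T.l 1))) (T.c (T.b (T.l 476) (T.l 1)) (T.b (T.l 476) (T.l 1)))) (T.l 1))) (T.c (T.b (T.a (T.c (T.b (T.l 476) (T.l 1)) (T.b (T.l 476) (T.l 1))) (T.c (T.b (T.l 476) (T.l 1)) (T.b (T.l 476) (T.l 1)))) (T.l 1)) (T.b (T.a (T.c (T.b (T.l 476) (T.l 1)) (T.b (T.l 476) (T.l 1))) (T.c (T.b (T.l 476) (T.l 1)) (T.b (T.l 476) (T.l 1)))) (T.l 1)))) (T.l 1)) (T.b (T.a (T.c (T.b (T.a (T.c (T.b (T.l 476) (T.l 1)) (T.b (T.l 476) (T.l 1))) (T.c (T.b (T.l 476) (T.l 1)) (T.b (T.l 476) (T.l 1)))) (T.l 1)) (T.b (T.a (T.c (T.b (T.l 476) (T.l 1)) (T.b (T.l 476) (T.l 1))) (T.c (T.b (T.l 476) (T.l 1)) (T.b (T.l 476) (T.l 1)))) (T.l 1))) (T.c (T.b (T.a (T.c (T.b (T.l 476) (T.l 1)) (T.b (T.l 476) (T.l 1))) (T.c (T.b (T.l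 476) (T.l 1)) (T.b (T.l 476) (T.l 1)))) (T.l 1)) (T.b (T.a (T.c (T.b (T.l 476) (T.l 1)) (T.b (T.l 476) (T.l 1))) (T.c (T.b (T.l 476) (T.l 1)) (T.b (T.l 476) (T.l 1)))) (T.l 1)))) (T.l 1)))) (T.l 1)) (T.b (T.a (T.c (T.b (T.a (T.c (T.b (T.a (T.l 476) (T.a (T.l 476) (T.l 476))) (T.l 1)) (T.b (T.a (T.l 476) (T.l 476)) (T.l 1))) (T.c (T.b (T.a (T.c (T.b (T.l 476) (T.l 1)) (T.b (T.l 476) (T.l 1))) (T.c (T.b (T.l 476) (T.l 1)) (T.b (T.l 476) (T.l 1)))) (T.l 1)) (T.b (T.a (T.a (T.l 476) (T.l 476)) (T.c (T.b (T.l 476) (T.l 1)) (T.b (T.l 476) (T.l 1)))) (T.l 1)))) (T.l 1)) (T.b (T.a (T.c (T.b (T.a (T.l 476) (T.l 476)) (T.l 1)) (T.b (T.l 476) (T.l 1))) (T.c (T.b (T.a (T.l 476) (T.a (T.l 476) (T.l 476))) (T.l 1)) (T.b (T.a (T.l 476) (T.l 476)) (T.l 1)))) (T.l 1))) (T.c (T.b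 (T.a (T.c (T.b (T.a (T.c (T.b (T.l 476) (T.l 1)) (T.b (T.l 476) (T.l 1))) (T.c (T.b (T.l 476) (T.l 1)) (T.b (T.l 476) (T.l 1)))) (T.l 1)) (T.b (T.a (T.c (T.b (T.l 476) (T.l 1)) (T.b (T.l 476) (T.l 1))) (T.c (T.b (T.l 476) (T.l 1)) (T.b (T.l 476) (T.l 1)))) (T.l 1))) (T.c (T.b (T.a (T.c (T.b (T.l 476) (T.l 1)) (T.b (T.l 476) (T.l 1))) (T.c (T.b (T.l 476) (T.l 1)) (T.b (T.l 476) (T.l 1)))) (T.l 1)) (T.b (T.a (T.c (T.b (T.l 476) (T.l 1)) (T.b (T.l 476) (T.l 1))) (T.c (T.b (T.l 476) (T.l 1)) (T.b (T.l 476) (T.l 1)))) (T.l 1)))) (T.l 1)) (T.b (T.a (T.c (T.b (T.a (T.c (T.b (T.l 476) (T.l 1)) (T.b (T.l 476) (T.l 1))) (T.c (T.b (T.l 476) (T.l 1)) (T.b (T.l 476) (T.l 1)))) (T.l 1)) (T.b (T.a (T.a (T.l 476) (T.l 476)) (T.c (T.b (T.l 476) (T.l 1)) (T.b (T.l 476) (T.l 1))))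 (T.l 1))) (T.c (T.b (T.a (T.c (T.b (T.l 476) (T.l 1)) (T.b (T.l 476) (T.l 1))) (T.c (T.b (T.l 476) (T.l 1)) (T.b (T.l 476) (T.l 1)))) (T.l 1)) (T.b (T.a (T.c (T.b (T.l 476) (T.l 1)) (T.b (T.l 476) (T.l 1))) (T.c (T.b (T.l 476) (T.l 1)) (T.b (T.l 476) (T.l 1)))) (T.l 1)))) (T.l 1)))) (T.l 1))), by decide +kernel⟩

def B202E_020_31_2048_15 :
    ∃ t, chk3 (onCell 0 33554432 0 1073741824 33554432 16777216 (corTK [[⟨0, 1, 0, 6291456⟩, ⟨1, 0, 1, 16777216⟩, ⟨2, 1, 1, 16777216⟩, ⟨1, 0, 0, 67108864⟩, ⟨1, 1, 0, 1056964608⟩, ⟨2, 1, 0, 67108864⟩, ⟨2, 2, 0, 1056964608⟩]] true 1 c0F cB202E gF0q2 gF2q2 gF0q0 gF1q0 true true)) t 31 2048 15 = true :=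
  ⟨(T.c (T.b (T.a (T.c (T.b (T.a (T.c (T.b (T.a (T.c (T.b (T.l 476) (T.l 1)) (T.b (T.l 476) (T.l 1))) (T.c (T.l 1024) (T.b (T.l 476) (T.l 1)))) (T.l 1)) (T.b (T.a (T.c (T.b (T.l 476) (T.l 1)) (T.b (T.l 476) (T.l 1))) (T.c (T.b (T.l 476) (T.l 1)) (T.b (T.l 476) (T.l 1)))) (T.l 1))) (T.a (T.a (T.c (T.l 1024) (T.a (T.c (T.l 1024) (T.a (T.b (T.b (T.l 476) (T.l 1)) (T.l 1)) (T.l 1024))) (T.l 1024))) (T.l 1024)) (T.l 1024))) (T.l 1)) (T.b (T.a (T.c (T.b (T.a (T.c (T.b (T.l 476) (T.l 1)) (T.b (T.l 476) (T.l 1))) (T.c (T.b (T.l 476) (T.l 1)) (T.b (T.l 476) (T.l 1)))) (T.l 1)) (T.b (T.a (T.c (T.b (T.l 476) (T.l 1)) (T.b (T.l 476) (T.l 1))) (T.c (T.b (T.l 476) (T.l 1)) (T.b (T.l 476) (T.l 1)))) (T.l 1))) (T.c (T.b (T.a (T.c (T.b (T.l 476) (T.l 1)) (T.b (T.l 476) (T.l 1)))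 (T.c (T.l 1024) (T.b (T.l 476) (T.l 1)))) (T.l 1)) (T.b (T.a (T.c (T.b (T.l 476) (T.l 1)) (T.b (T.l 476) (T.l 1))) (T.c (T.b (T.l 476) (T.l 1)) (T.b (T.l 476) (T.l 1)))) (T.l 1)))) (T.l 1))) (T.a (T.a (T.c (T.l 1024) (T.a (T.c (T.l 1024) (T.b (T.a (T.c (T.l 1024) (T.a (T.b (T.b (T.l 476) (T.l 1)) (T.l 1)) (T.l 1024))) (T.l 1024)) (T.l 1))) (T.l 1024))) (T.l 1024)) (T.l 1024))) (T.l 1)) (T.b (T.a (T.c (T.b (T.a (T.c (T.b (T.a (T.c (T.b (T.l 476) (T.l 1)) (T.b (T.l 476) (T.l 1))) (T.c (T.b (T.l 476) (T.l 1)) (T.b (T.l 476) (T.l 1)))) (T.l 1)) (T.b (T.a (T.c (T.b (T.l 476) (T.l 1)) (T.b (T.l 476) (T.l 1))) (T.c (T.b (T.l 476) (T.l 1)) (T.b (T.l 476) (T.l 1)))) (T.l 1))) (T.c (T.b (T.a (T.c (T.b (T.l 476) (T.l 1)) (T.b (T.l 476) (T.l 1))) (T.c (T.b (T.l 476) (T.l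 1)) (T.b (T.l 476) (T.l 1)))) (T.l 1)) (T.b (T.a (T.c (T.b (T.l 476) (T.l 1)) (T.b (T.l 476) (T.l 1))) (T.c (T.b (T.l 476) (T.l 1)) (T.b (T.l 476) (T.l 1)))) (T.l 1)))) (T.l 1)) (T.b (T.a (T.c (T.b (T.a (T.c (T.b (T.l 476) (T.l 1)) (T.b (T.l 476) (T.l 1))) (T.c (T.b (T.l 476) (T.l 1)) (T.b (T.l 476) (T.l 1)))) (T.l 1)) (T.b (T.a (T.c (T.b (T.l 476) (T.l 1)) (T.b (T.l 476) (T.l 1))) (T.c (T.b (T.l 476) (T.l 1)) (T.b (T.l 476) (T.l 1)))) (T.l 1))) (T.c (T.b (T.a (T.c (T.b (T.l 476) (T.l 1)) (T.b (T.l 476) (T.l 1))) (T.c (T.b (T.l 476) (T.l 1)) (T.b (T.l 476) (T.l 1)))) (T.l 1)) (T.b (T.a (T.c (T.b (T.l 476) (T.l 1)) (T.b (T.l 476) (T.l 1))) (T.c (T.b (T.l 476) (T.l 1)) (T.b (T.l 476) (T.l 1)))) (T.l 1)))) (T.l 1))) (T.c (T.b (T.a (T.c (T.b (T.a (T.c (T.b (T.l 476)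 (T.l 1)) (T.b (T.l 476) (T.l 1))) (T.c (T.l 1024) (T.b (T.l 476) (T.l 1)))) (T.l 1)) (T.b (T.a (T.c (T.b (T.l 476) (T.l 1)) (T.b (T.l 476) (T.l 1))) (T.c (T.b (T.l 476) (T.l 1)) (T.b (T.l 476) (T.l 1)))) (T.l 1))) (T.a (T.a (T.c (T.l 1024) (T.a (T.c (T.l 1024) (T.a (T.b (T.b (T.l 476) (T.l 1)) (T.l 1)) (T.l 1024))) (T.l 1024))) (T.l 1024)) (T.l 1024))) (T.l 1)) (T.b (T.a (T.c (T.b (T.a (T.c (T.b (T.l 476) (T.l 1)) (T.b (T.l 476) (T.l 1))) (T.c (T.b (T.l 476) (T.l 1)) (T.b (T.l 476) (T.l 1)))) (T.l 1)) (T.b (T.a (T.c (T.b (T.l 476) (T.l 1)) (T.b (T.l 476) (T.l 1))) (T.c (T.b (T.l 476) (T.l 1)) (T.b (T.l 476) (T.l 1)))) (T.l 1))) (T.c (T.b (T.a (T.c (T.b (T.l 476) (T.l 1)) (T.b (T.l 476) (T.l 1))) (T.c (T.l 1024) (T.b (T.l 476) (T.l 1)))) (T.l 1)) (T.b (T.a (T.c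 (T.b (T.l 476) (T.l 1)) (T.b (T.l 476) (T.l 1))) (T.c (T.b (T.l 476) (T.l 1)) (T.b (T.l 476) (T.l 1)))) (T.l 1)))) (T.l 1)))) (T.l 1))), by decide +kernel⟩

def B202E_020_15_2049_15 :
    ∃ t, chk3 (onCell 0 33554432 0 1073741824 33554432 16777216 (corTK [[⟨0, 1, 0, 6291456⟩, ⟨1, 0, 1, 16777216⟩, ⟨2, 1, 1, 16777216⟩, ⟨1, 0, 0, 67108864⟩, ⟨1, 1, 0, 1056964608⟩, ⟨2, 1, 0, 67108864⟩, ⟨2, 2, 0, 1056964608⟩]] true 1 c0F cB202E gF0q2 gF2q2 gF0q0 gF1q0 true true)) t 15 2049 15 = true :=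
  ⟨(T.l 1), by decide +kernel⟩

def B202E_020_7_1025_7 :
    ∃ t, chk3 (onCell 0 33554432 0 1073741824 33554432 16777216 (corTK [[⟨0, 1, 0, 6291456⟩, ⟨1, 0, 1, 16777216⟩, ⟨2, 1, 1, 16777216⟩, ⟨1, 0, 0, 67108864⟩, ⟨1, 1, 0, 1056964608⟩, ⟨2, 1, 0, 67108864⟩, ⟨2, 2, 0, 1056964608⟩]] true 1 c0F cB202E gF0q2 gF2q2 gF0q0 gF1q0 true true)) t 7 1025 7 = true :=
  ⟨(T.l 1), by decide +kernel⟩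

def B202E_020_3_513_3 :
    ∃ t, chk3 (onCell 0 33554432 0 1073741824 33554432 16777216 (corTK [[⟨0, 1, 0, 6291456⟩, ⟨1, 0, 1, 16777216⟩, ⟨2, 1, 1, 16777216⟩, ⟨1, 0, 0, 67108864⟩, ⟨1, 1, 0, 1056964608⟩, ⟨2, 1, 0, 67108864⟩, ⟨2, 2, 0, 1056964608⟩]] true 1 c0F cB202E gF0q2 gF2q2 gF0q0 gF1q0 true true)) t 3 513 3 = true :=
  ⟨(T.l 1), by decide +kernel⟩

def B202E_020_1_257_1 :
    ∃ t, chk3 (onCell 0 33554432 0 1073741824 33554432 16777216 (corTK [[⟨0, 1, 0, 6291456⟩, ⟨1, 0, 1, 16777216⟩, ⟨2, 1, 1, 16777216⟩, ⟨1, 0, 0, 67108864⟩, ⟨1, 1, 0, 1056964608⟩, ⟨2, 1, 0, 67108864⟩, ⟨2, 2, 0, 1056964608⟩]] true 1 c0F cB202E gF0q2 gF2q2 gF0q0 gF1q0 true true)) t 1 257 1 = true :=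
  ⟨(T.l 1), by decide +kernel⟩

def B202E_020_1_129_1 :
    ∃ t, chk3 (onCell 0 33554432 0 1073741824 33554432 16777216 (corTK [[⟨0, 1, 0, 6291456⟩, ⟨1, 0, 1, 16777216⟩, ⟨2, 1, 1, 16777216⟩, ⟨1, 0, 0, 67108864⟩, ⟨1, 1, 0, 1056964608⟩, ⟨2, 1, 0, 67108864⟩, ⟨2, 2, 0, 1056964608⟩]] true 1 c0F cB202E gF0q2 gF2q2 gF0q0 gF1q0 true true)) t 1 129 1 = true :=
  ⟨(T.l 1), by decide +kernel⟩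

def B202E_020_1_65_1 :
    ∃ t, chk3 (onCell 0 33554432 0 1073741824 33554432 16777216 (corTK [[⟨0, 1, 0, 6291456⟩, ⟨1, 0, 1, 16777216⟩, ⟨2, 1, 1, 16777216⟩, ⟨1, 0, 0, 67108864⟩, ⟨1, 1, 0, 1056964608⟩, ⟨2, 1, 0, 67108864⟩, ⟨2, 2, 0, 1056964608⟩]] true 1 c0F cB202E gF0q2 gF2q2 gF0q0 gF1q0 true true)) t 1 65 1 = true :=
  ⟨(T.l 1), by decide +kernel⟩

def B202E_020_1_33_1 :
    ∃ t, chk3 (onCell 0 33554432 0 1073741824 33554432 16777216 (corTK [[⟨0, 1, 0, 6291456⟩, ⟨1, 0, 1, 16777216⟩, ⟨2, 1, 1, 16777216⟩, ⟨1, 0, 0, 67108864⟩, ⟨1, 1, 0, 1056964608⟩, ⟨2, 1, 0, 67108864⟩, ⟨2, 2, 0, 1056964608⟩]] true 1 c0F cB202E gF0q2 gF2q2 gF0q0 gF1q0 true true)) t 1 33 1 = true :=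
  ⟨(T.l 1), by decide +kernel⟩

def B202E_020_1_17_1 :
    ∃ t, chk3 (onCell 0 33554432 0 1073741824 33554432 16777216 (corTK [[⟨0, 1, 0, 6291456⟩, ⟨1, 0, 1, 16777216⟩, ⟨2, 1, 1, 16777216⟩, ⟨1, 0, 0, 67108864⟩, ⟨1, 1, 0, 1056964608⟩, ⟨2, 1, 0, 67108864⟩, ⟨2, 2, 0, 1056964608⟩]] true 1 c0F cB202E gF0q2 gF2q2 gF0q0 gF1q0 true true)) t 1 17 1 = true :=
  ⟨(T.l 1), by decide +kernel⟩

def B202E_020_1_9_1 :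
    ∃ t, chk3 (onCell 0 33554432 0 1073741824 33554432 16777216 (corTK [[⟨0, 1, 0, 6291456⟩, ⟨1, 0, 1, 16777216⟩, ⟨2, 1, 1, 16777216⟩, ⟨1, 0, 0, 67108864⟩, ⟨1, 1, 0, 1056964608⟩, ⟨2, 1, 0, 67108864⟩, ⟨2, 2, 0, 1056964608⟩]] true 1 c0F cB202E gF0q2 gF2q2 gF0q0 gF1q0 true true)) t 1 9 1 = true :=
  ⟨(T.l 1), by decide +kernel⟩

def B202E_020_1_5_1 :
    ∃ t, chk3 (onCell 0 33554432 0 1073741824 33554432 16777216 (corTK [[⟨0, 1, 0, 6291456⟩, ⟨1, 0, 1, 16777216⟩, ⟨2, 1, 1, 16777216⟩, ⟨1, 0, 0, 67108864⟩, ⟨1, 1, 0, 1056964608⟩, ⟨2, 1, 0, 67108864⟩, ⟨2, 2, 0, 1056964608⟩]] true 1 c0F cB202E gF0q2 gF2q2 gF0q0 gF1q0 true true)) t 1 5 1 = true :=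
  ⟨(T.l 1), by decide +kernel⟩

def B202E_020_1_3_1 :
    ∃ t, chk3 (onCell 0 33554432 0 1073741824 33554432 16777216 (corTK [[⟨0, 1, 0, 6291456⟩, ⟨1, 0, 1, 16777216⟩, ⟨2, 1, 1, 16777216⟩, ⟨1, 0, 0, 67108864⟩, ⟨1, 1, 0, 1056964608⟩, ⟨2, 1, 0, 67108864⟩, ⟨2, 2, 0, 1056964608⟩]] true 1 c0F cB202E gF0q2 gF2q2 gF0q0 gF1q0 true true)) t 1 3 1 = true :=
  ⟨(T.l 1), by decide +kernel⟩

end Pool.Agent.Strip051.G.I1_32_3_64.Tab.CF
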