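import Pool.Agent.Strip051.G.I1_32_3_64.StF

/-! # Unit strips 9 (generated) -/

set_option linter.all false
set_option maxRecDepth 100000

namespace Pool.Agent.Strip051.G.I1_32_3_64.Tab.St.C

open Pool.Agent.Strip051.PB Pool.Agent.Strip051.PB.T Pool.Agent.StripNear Pool.Agent.Strip051.LC
open Pool.Agent.Strip051.G.I1_32_3_64.Tab Pool.Agent.Strip051.G.I1_32_3_64.Tab.St

noncomputable def cut_B00pm_011_s3 : Cut := Cut.of [[⟨3, 0, 0, 2845415833⟩], [⟨0, 0, 0, 16777216⟩, ⟨1, 1, 0, 16777216⟩, ⟨2, 1, 0, 16777216⟩], [⟨0, 0, 1, 16777216⟩, ⟨1, 1, 2, 16777216⟩, ⟨2, 1, 0, 6291456⟩, ⟨0, 0, 0, 67108864⟩, ⟨0, 1, 0, 1056964608⟩, ⟨1, 0, 0, 1056964608⟩, ⟨1, 1, 0, 67108864⟩]]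

noncomputable def xt_B00pm_011_s3 : Ext := strExt dd false true false .u0 .u0m .s0m .pnn 0 1 1 rfl rfl gl1 vv ndF0q0 ndF0q1

noncomputable def f_B00pm_011_s3 : ℕ → ℕ → ℕ → ℕ → Bool := onCell 0 536870912 536870912 536870912 33554432 16777216
    (rowFK 0 false true false .pnn 0 1 1 (qsf 0 536870912 536870912 536870912 1) ndF0q0 ndF0q1 pcF1 cut_B00pm_011_s3 xt_B00pm_011_s3)

def k0_B00pm_011_s3 : ∃ t, chk3 f_B00pm_011_s3 t 2 2 1 = true :=
  ⟨(l 4), by decide +kernel⟩

def k1_B00pm_011_s3 : ∃ t, chk3 f_B00pm_011_s3 t 4 6 1 = true :=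
  ⟨(l 4), by decide +kernel⟩

def k2_B00pm_011_s3 : ∃ t, chk3 f_B00pm_011_s3 t 4 14 1 = true :=
  ⟨(a (l 4) (a (l 4) (b (l 4) (a (l 4) (l 574550543))))), by decide +kernel⟩

def k3_B00pm_011_s3 : ∃ t, chk3 f_B00pm_011_s3 t 4 30 1 = true :=
  ⟨(a (a (l 4) (a (l 4) (a (l 4) (b (l 4) (l 588322575))))) (a (a (b (l 4) (l 586504463)) (b (l 581533967) (l 583647759))) (b (l 578259471) (a (l 581030927) (l 578725391))))), by decide +kernel⟩

def k4_B00pm_011_s3 : ∃ t, chk3 f_B00pm_011_s3 t 8 62 1 = true :=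
  ⟨(a (b (l 4) (b (l 4) (b (l 4) (b (l 4) (a (l 4) (a (l 4) (a (l 4) (a (l 4) (a (l 4) (b (l 4) (c (l 577420303) (c (l 553873423) (l 538176271))))))))))))) (a (a (b (l 4) (b (a (l 4) (a (l 4) (c (l 592269839) (l 572692239)))) (a (a (b (l 4) (c (l 581485327) (a (b (l 4) (c (l 557352207) (c (l 546152975) (l 537881871)))) (c (l 561091343) (b (c (l 551929359) (l 544749839)) (c (l 549066511) (l 540275727))))))) (c (l 585645327) (c (b (l 568319247) (l 563221775)) (b (a (l 4) (l 556968719)) (c (a (l 553094927) (l 555459087)) (a (b (l 547737103) (l 544296719)) (b (l 550245391) (l 547550735)))))))) (c (l 588588815) (c (a (b (l 571390735) (l 567954959)) (l 572558607)) (b (a (c (l 562731279) (l 556958479)) (l 563175183)) (c (a (l 558664463) (l 562364943)) (a (a (l 550258703) (l 553557775)) (l 556050959))))))))) (a (b (l 4) (c (l 592418319) (a (b (l 574633487) (b (l 571077391) (l 568213519))) (b (l 576273423) (l 572008207))))) (b (l 588536079) (b (l 586258959) (a (a (l 582601743)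 (l 583493391)) (l 584325903)))))) (a (b (l 589119247) (a (a (l 586276879) (l 586852879)) (l 587500815))) (b (l 588827151) (a (l 587971855) (l 588132111)))))), by decide +kernel⟩

def k5_B00pm_011_s3 : ∃ t, chk3 f_B00pm_011_s3 t 32 126 1 = true :=
  ⟨(b (l 4) (a (l 4) (a (l 4) (a (l 4) (b (l 4) (a (l 4) (a (l 4) (a (l 4) (b (l 4) (l 534928399)))))))))), by decide +kernel⟩

def k6_B00pm_011_s3 : ∃ t, chk3 f_B00pm_011_s3 t 33 252 1 = true :=
  ⟨(b (a (l 4) (a (b (l 4) (b (l 4) (a (l 4) (a (l 4) (c (c (l 571003663) (c (l 555707407) (l 545241871))) (l 536151311)))))) (c (c (a (l 577465615) (l 581901071)) (a (a (b (l 4) (c (l 560304399) (l 549069071))) (b (l 562268943) (l 557609487))) (c (l 569240079) (a (l 559320847) (l 562196239))))) (b (a (a (l 4) (a (l 536378639) (l 536868111))) (a (a (l 537500687) (c (l 548001295) (l 536520463))) (c (c (l 555532815) (l 547440911)) (l 536784143)))) (a (a (a (l 536235791) (l 536281871)) (a (l 536327439) (l 536372239))) (a (a (l 536416783)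 (l 536693775)) (a (l 537325583) (c (l 547285519) (l 536558095))))))))) (b (a (l 4) (a (a (a (l 4) (a (l 4) (l 535967759))) (a (a (l 536018703) (l 536068623)) (a (l 536118031) (l 536312591)))) (c (c (a (l 573148687) (l 578380559)) (a (a (c (l 556524815) (a (l 545373455) (l 547498255))) (a (l 552775439) (l 556202511))) (a (l 557155599) (l 561900559)))) (a (a (a (l 536181007) (l 536228111)) (a (l 536274703) (l 536320527))) (a (a (l 536366095) (l 536410895)) (a (l 536455183) (l 536516623))))))) (a (a (l 4) (a (l 4) (a (l 4) (a (l 4) (l 535688207))))) (a (a (a (a (l 535743503) (l 535798031)) (a (l 535851535) (l 535904527))) (a (a (l 535956751) (l 536007951)) (a (l 536058639) (l 536108815)))) (a (a (a (l 536157967) (l 536132367)) (c (c (l 571442703) (c (l 556336399) (a (l 545189903) (l 547313679)))) (a (l 536220431) (l 536267535)))) (c (c (l 575710735) (c (a (l 559928591) (l 563175439)) (a (c (l 552715535) (l 547907087)) (l 553981199)))) (a (a (l 536313871) (l 536359695))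 (a (l 536405007) (l 536449807))))))))), by decide +kernel⟩

def k7_B00pm_011_s3 : ∃ t, chk3 f_B00pm_011_s3 t 66 253 1 = true :=
  ⟨(a (a (b (l 4) (b (a (l 4) (a (l 4) (a (l 4) (l 534978831)))) (b (a (a (l 4) (l 534870031)) (a (l 534908431) (l 534946063))) (a (a (l 534948879) (l 534987791)) (a (l 534892303) (l 534930447)))))) (b (a (l 4) (b (l 4) (a (l 4) (l 535276815)))) (a (b (a (a (l 534997263) (l 535015695)) (a (l 535033871) (l 535052047))) (a (a (l 534967055) (l 534985743)) (a (l 535004175) (l 535022607)))) (b (a (a (l 535069967) (l 535087887)) (a (l 535105807) (l 535123471))) (a (a (l 535041039) (l 535059215)) (a (l 535077391) (l 535095567))))))) (a (b (a (b (l 4) (a (l 535311631) (l 535346191))) (b (a (l 4) (l 535378191)) (a (l 535385359) (l 535434255)))) (a (b (a (c (l 535275791) (l 535125519)) (c (l 535277583) (l 535160335))) (a (a (l 535113487) (l 535131407)) (a (l 535149327) (l 535166991)))) (b (a (l 535354383) (l 535321615)) (a (a (l 535184655) (l 535202063))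 (a (l 535219727) (l 535237135)))))) (b (a (b (a (l 535439119) (l 535499279)) (a (l 535626767) (l 535420175))) (b (a (l 535558159) (l 535616015)) (a (l 535481103) (l 535541007)))) (a (b (a (l 535428111) (l 535476751)) (a (c (l 535356175) (l 535237647)) (l 535398159))) (b (a (l 535669007) (l 535730959)) (a (l 535470863) (l 535519759))))))), by decide +kernel⟩

def k8_B00pm_011_s3 : ∃ t, chk3 f_B00pm_011_s3 t 67 253 1 = true :=
  ⟨(a (a (b (a (b (a (l 535673103) (l 535729167)) (a (l 535599887) (l 535657743))) (b (a (l 535784463) (l 535838735)) (a (l 535714575) (l 535770639)))) (a (b (a (l 535523343) (l 535583247)) (a (l 535577615) (l 535773711))) (b (a (l 535641871) (l 535699727)) (a (l 535834383) (l 535625743))))) (b (a (b (a (l 535892495) (l 535945231)) (a (l 535825935) (l 535880207))) (b (a (l 535997199) (l 536048655)) (a (l 535933711) (l 535986191)))) (a (b (a (l 535756559) (l 535812367)) (a (l 535684367) (l 535741967))) (b (a (l 535867407) (l 535921679)) (a (l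 535798799) (l 535854607)))))) (a (b (a (b (a (l 536099087) (l 536149007)) (a (l 536038159) (l 536089359))) (a (b (l 536198159) (a (l 536127247) (l 536152335))) (b (l 536217103) (a (l 536177167) (l 536201999))))) (a (b (a (l 535975183) (b (l 536042767) (l 536011535))) (a (l 535909647) (b (l 535979535) (l 535946767)))) (b (b (a (l 536094479) (l 536145167)) (a (l 536063759) (l 536115215))) (a (b (l 536032271) (l 536000527)) (a (l 536056335) (l 536082447)))))) (a (b (b (c (c (l 571244815) (c (l 556144655) (a (l 545003023) (l 547126031)))) (a (l 536260367) (l 536307215))) (a (a (l 536226575) (l 536250895)) (a (l 536229647) (l 536360207)))) (a (a (b (l 536168463) (l 536108303)) (b (l 536193295) (l 536133903))) (a (b (l 536218127) (l 536159503)) (b (l 536242959) (l 536184847))))) (b (c (c (l 572640015) (c (b (l 559736335) (l 555950095)) (b (c (l 552526095) (l 547719183)) (a (l 544812815) (l 546935055))))) (b (a (l 536353551) (l 536399375)) (a (l 536300303) (l 536347151))))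 (a (a (b (l 536267535) (l 536209935)) (b (l 536291855) (l 536234767))) (a (b (l 536307983) (l 536259599)) (b (l 536169743) (l 536284431)))))))), by decide +kernel⟩

def k9_B00pm_011_s3 : ∃ t, chk3 f_B00pm_011_s3 t 32 508 1 = true :=
  ⟨(a (l 4) (a (b (l 4) (b (l 4) (a (l 4) (a (l 4) (a (l 4) (a (l 4) (l 534450703))))))) (a (a (b (l 4) (b (a (l 4) (a (l 4) (l 534533903))) (a (a (l 534468623) (l 534486543)) (a (l 534504207) (l 534521871))))) (b (a (l 4) (a (l 4) (a (l 534616591) (l 534625039)))) (a (a (b (l 534551311) (l 534539279)) (b (l 534568463) (l 534556687))) (a (b (l 534585871) (l 534574095)) (b (l 534602767) (l 534591247)))))) (a (b (a (c (b (l 4) (l 534794255)) (l 534626575)) (c (b (l 534839055) (l 534828047)) (l 534659599))) (a (a (b (l 534619919) (l 534608655)) (b (l 534636815) (l 534625551))) (a (a (l 534644751) (l 534653199)) (a (l 534661647) (l 534670095))))) (b (a (b (l 534853391) (l 534840847)) (c (b (l 534912783) (l 534896399)) (l 534729743))) (a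 (c (b (l 534850831) (c (l 534850063) (l 534695183))) (l 534805519)) (c (b (l 534884111) (l 534873359)) (l 534704143)))))))), by decide +kernel⟩

def k10_B00pm_011_s3 : ∃ t, chk3 f_B00pm_011_s3 t 64 509 1 = true :=
  ⟨(l 14), by decide +kernel⟩

def k11_B00pm_011_s3 : ∃ t, chk3 f_B00pm_011_s3 t 130 509 1 = true :=
  ⟨(a (b (b (l 4) (l 14)) (l 14)) (a (a (b (b (l 4) (b (a (l 4) (l 534315791)) (l 14))) (l 14)) (a (b (b (l 4) (a (l 534326799) (l 534336271))) (l 14)) (b (b (l 534498831) (a (l 534345743) (l 534354959))) (a (l 14) (b (l 534340879) (l 14)))))) (b (a (b (a (l 534517263) (l 534535695)) (c (a (l 534521103) (l 534540047)) (l 534629647))) (a (b (l 534553871) (a (l 534401551) (l 534410767))) (b (l 534437903) (l 534558991)))) (b (b (a (a (l 534358287) (l 534376975)) (a (l 534395663) (l 534414351))) (a (a (l 534351119) (l 534370063)) (a (l 534388751) (l 534407439)))) (b (a (a (l 14) (l 534363151)) (a (l 534381839) (l 534400783))) (a (l 14) (a (l 534374927) (l 534393871)))))))),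 by decide +kernel⟩

def k12_B00pm_011_s3 : ∃ t, chk3 f_B00pm_011_s3 t 131 509 1 = true :=
  ⟨(a (b (a (a (a (b (l 534456079) (l 534577167)) (b (l 534473999) (l 534595343))) (a (b (l 534491919) (l 534479119)) (b (l 534509583) (l 534497039)))) (a (a (b (l 534527247) (l 534514959)) (b (l 534544911) (l 534532623))) (a (b (l 534562319) (l 534550287)) (b (l 534579727) (l 534567951))))) (b (a (a (c (a (l 534582287) (l 534466575)) (l 534689551)) (a (l 534567183) (l 534618895))) (a (a (l 534636815) (l 534520591)) (a (l 534538255) (l 534555919)))) (a (a (a (a (l 534411535) (l 534421007)) (a (l 534430223) (l 534439439))) (c (a (l 534539023) (l 534624527)) (l 534713103))) (a (c (a (l 534508559) (l 534526991)) (l 534480655)) (a (l 534626831) (l 534678031)))))) (a (b (a (a (b (l 534597135) (l 534585359)) (b (l 534614287) (l 534602767))) (a (b (l 534631439) (l 534620175)) (b (l 534648335) (l 534637327)))) (a (a (b (l 534573583) (l 534695951)) (b (l 534591247) (l 534579471))) (a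 (b (l 534608655) (l 534597135)) (b (l 534626063) (l 534614543))))) (b (a (a (b (l 534665487) (l 534654479)) (b (l 534682383) (l 534671375))) (a (b (l 534699279) (l 534688271)) (b (l 534715919) (l 534705167)))) (a (a (b (l 534643215) (l 534631951)) (b (l 534660367) (l 534649103))) (a (b (l 534677519) (l 534666511)) (b (l 534694415) (l 534683663))))))), by decide +kernel⟩

def k13_B00pm_011_s3 : ∃ t, chk3 f_B00pm_011_s3 t 64 255 1 = true :=
  ⟨(l 14), by decide +kernel⟩

def k14_B00pm_011_s3 : ∃ t, chk3 f_B00pm_011_s3 t 130 510 1 = true :=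
  ⟨(b (b (b (a (l 14) (a (l 14) (a (l 14) (a (l 14) (l 534386703))))) (l 14)) (l 14)) (l 14)), by decide +kernel⟩

def k15_B00pm_011_s3 : ∃ t, chk3 f_B00pm_011_s3 t 131 1020 1 = true :=
  ⟨(b (a (a (a (a (a (l 534397967) (l 534407183)) (a (l 534416655) (l 534426127))) (a (a (l 534435343) (l 534444559)) (a (l 534454031) (l 534463247)))) (a (a (a (l 534472463) (l 534481423)) (a (l 534490639) (l 534499855))) (c (a (l 534599439) (l 534617871)) (l 534504207)))) (a (a (c (a (l 534568719) (l 534586895)) (l 534539791)) (a (a (l 534580751) (l 534589455)) (l 534670095))) (a (a (l 534754575) (l 534772239)) (a (l 534655247) (l 534672655))))) (a (a (a (a (l 14) (a (l 14) (l 534479375))) (a (a (l 534488847) (l 534498319)) (a (l 534440463) (l 534449935)))) (a (a (a (l 534459151) (l 534468367)) (a (l 534477839) (l 534487055))) (a (a (l 534496271) (l 534505231)) (a (l 534514447) (l 534523663))))) (a (a (a (a (l 534532623) (l 534541583)) (a (l 534550799) (l 534559759))) (c (a (l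 534659855) (l 534677775)) (l 534697487))) (a (b (a (l 534611471) (l 534628879)) (b (c (l 534769679) (l 16772256)) (b (a (l 16772248) (l 16772104)) (c (c (a (l 16772168) (l 16771888)) (l 16771968)) (l 16771904))))) (a (b (l 534646543) (b (c (l 16772176) (l 16772088)) (b (a (l 16771952) (l 16771776)) (l 16771416)))) (b (l 534663951) (b (b (l 16772080) (a (l 16771968) (l 16771824))) (b (l 16771464) (l 16771008))))))))), by decide +kernel⟩

def k16_B00pm_011_s3 : ∃ t, chk3 f_B00pm_011_s3 t 262 1021 1 = true :=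
  ⟨(a (a (l 14) (a (l 14) (b (b (l 534434831) (l 14)) (l 14)))) (a (b (b (a (l 534453519) (l 534472207)) (a (b (b (l 16772648) (l 14)) (l 14)) (b (b (l 16772528) (c (a (l 16772448) (l 16772296)) (l 16772296))) (b (a (l 16772016) (l 16771808)) (c (l 16771496) (l 16771440)))))) (b (b (a (l 14) (b (l 16771024) (l 14))) (l 14)) (l 14))) (b (b (a (l 534490895) (b (l 16772584) (b (l 16772472) (a (l 16772392) (l 16772288))))) (b (b (b (a (l 16772408) (l 16772112)) (a (a (l 16772376) (l 16772192)) (l 16771880))) (a (a (l 16772056) (l 16771848)) (c (l 16771576) (l 16771512)))) (b (a (c (l 16771536) (l 16771472)) (l 16771096)) (a (l 16771056) (l 16770648))))) (b (b (a (b (l 16770608) (l 16770160)) (l 16772600)) (b (l 16772136) (a (l 16769272) (l 16768856)))) (b (b (a (l 16768832) (l 16768416)) (a (l 14) (a (l 16768072) (l 16767864)))) (a (l 14) (l 16772544))))))), by decide +kernel⟩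

def k17_B00pm_011_s3 : ∃ t, chk3 f_B00pm_011_s3 t 263 1021 1 = true :=
  ⟨(a (b (b (b (a (a (l 16772472) (a (l 16772392) (l 16772320))) (a (b (l 16772288) (a (l 16772176) (l 16772032))) (a (b (l 16772176) (l 16771824)) (b (l 16772056) (l 16771624))))) (a (b (a (c (l 16772360) (l 16772280)) (a (l 16772168) (l 16771984))) (a (a (l 16772144) (l 16771936)) (c (l 16771664) (l 16771592)))) (b (a (c (l 16771712) (l 16771640)) (l 16771272)) (a (l 16771224) (l 16770816))))) (a (b (b (a (c (l 16771624) (l 16771552)) (l 16771176)) (a (l 16771136) (l 16770728))) (a (b (l 16770688) (l 16770240)) (l 16772672))) (b (b (a (l 16770768) (l 16770360)) (a (l 16770320) (l 16769912))) (a (l 16772264) (l 16771856))))) (a (b (b (b (l 16772208) (l 16771760)) (b (a (l 16768896) (l 16768480)) (a (l 16768448) (l 16768032)))) (b (a (b (l 16770624) (l 16772800)) (c (l 16772616) (l 16772592))) (a (l 16772216) (l 16772120)))) (b (b (b (c (l 16771400) (l 16768744)) (a (l 16768520) (l 16768104)))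 (c (a (b (l 16768080) (l 16767632)) (l 16772688)) (l 16772864))) (b (a (l 16772192) (l 16771776)) (a (l 16772024) (l 16771928)))))) (b (b (b (b (a (a (a (l 16771872) (l 16771672)) (l 16771368)) (a (l 16770960) (l 16770552))) (a (a (l 16771312) (l 16770912)) (a (l 16770504) (l 16770096)))) (a (a (b (l 16770864) (l 16770408)) (c (l 16772880) (l 16770192))) (a (l 16772440) (l 16772032)))) (a (b (a (l 16772344) (l 16771936)) (b (l 16771464) (a (l 16768592) (l 16768184)))) (b (a (l 16771528) (l 16771120)) (b (a (l 16768224) (l 16767816)) (a (l 16767768) (l 16767360)))))) (a (b (b (c (a (a (l 16768040) (l 16773072)) (l 16772760)) (l 16772936)) (a (l 16772256) (l 16771848))) (b (l 16771384) (l 16766536))) (b (b (a (l 16772336) (l 16771920)) (l 16771224)) (b (l 16771192) (l 16766344)))))), by decide +kernel⟩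

def k18_B00pm_011_s3 : ∃ t, chk3 f_B00pm_011_s3 t 65 511 1 = true :=
  ⟨(b (a (l 14) (a (b (b (b (a (l 14) (a (l 14) (a (l 14) (a (l 14) (l 16767424))))) (l 14)) (l 14)) (l 14)) (b (a (b (b (a (l 16767312) (l 16767120)) (c (l 16767600) (l 16767584))) (a (l 16768256) (l 16768072))) (a (b (l 16769744) (l 16767888)) (b (l 16766936) (l 16767712)))) (a (a (b (l 16768992) (l 14)) (b (l 16768832) (a (l 16769608) (l 16769536)))) (b (a (l 16768656) (l 16768480)) (b (l 16769136) (l 16769512))))))) (a (l 14) (a (l 14) (b (b (a (a (l 14) (a (l 14) (l 16770264))) (c (b (l 16769944) (l 16770320)) (l 16770016))) (a (l 14) (a (b (l 16770704) (l 16771064)) (b (l 16770552) (l 16770920))))) (a (l 14) (b (b (c (a (l 16771488) (l 16771368)) (l 16771280)) (a (l 14) (b (l 16771560) (a (l 16771776) (l 16771712))))) (a (l 14) (b (b (c (l 16772008) (l 16771832)) (c (c (l 16772232) (l 16772144)) (l 16772008))) (a (l 14) (c (a (b (l 16772352) (l 14)) (b (l 16772328) (b (l 16772464) (b (l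 16772528) (c (c (l 16772648) (l 16772600)) (l 16772528)))))) (b (l 16772160) (b (l 16772288) (c (l 16772424) (l 16772328)))))))))))))), by decide +kernel⟩

def k19_B00pm_011_s3 : ∃ t, chk3 f_B00pm_011_s3 t 66 508 1 = true :=
  ⟨(b (b (a (a (a (a (l 534931471) (l 534971151)) (a (l 535010063) (l 534914575))) (a (a (l 534952463) (l 534990351)) (a (l 535027471) (l 535064335)))) (a (a (a (l 535100943) (l 535137039)) (a (l 535172623) (l 535208207))) (a (a (l 535243279) (l 535277839)) (a (l 535312399) (l 535346447))))) (a (a (a (a (l 534913807) (l 534953743)) (a (l 534993423) (l 535032335))) (a (a (l 535070991) (l 534974735)) (a (l 535012367) (l 535049487)))) (a (a (a (l 535086351) (l 535122959)) (a (l 535158799) (l 535194639))) (a (a (l 535229967) (l 535265039)) (a (l 535299599) (l 535334159)))))) (b (a (a (a (a (l 534897935) (l 534936335)) (a (l 534976271) (l 535015695))) (a (a (l 535054607) (l 535093263)) (a (l 535131151) (l 535034639)))) (a (a (a (l 535071759) (l 535108623))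 (a (l 535144975) (l 535181071))) (a (a (l 535216655) (l 535251983)) (a (l 535287055) (l 535321615))))) (a (a (a (a (c (l 534906895) (l 534730767)) (c (l 534941967) (l 534765071))) (a (l 534958863) (l 534998799))) (a (a (l 535038223) (l 535077135)) (a (l 535115535) (l 535153423)))) (a (a (a (l 535056911) (l 535094031)) (a (l 535130639) (l 535166991))) (a (a (l 535203087) (l 535238671)) (a (l 535273999) (l 535308815))))))), by decide +kernel⟩

def k20_B00pm_011_s3 : ∃ t, chk3 f_B00pm_011_s3 t 66 1018 1 = true :=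
  ⟨(b (a (a (c (a (a (l 534896399) (l 534929935)) (a (l 534964751) (l 535003151))) (a (a (l 534720271) (l 534753295)) (a (l 534787599) (l 534825487)))) (a (a (l 535021327) (l 535060751)) (a (l 535099663) (l 535138063)))) (a (a (a (l 535175951) (l 535213583)) (a (l 535116303) (l 535153167))) (a (a (l 535189263) (l 535225359)) (a (l 535260943) (l 535296015))))) (a (a (a (a (a (l 534722063) (l 534738959)) (a (l 534755599) (l 534772239))) (a (c (l 534952975) (l 534775823)) (c (l 534987791) (l 534810127)))) (a (a (c (l 535026191) (l 534848015)) (c (l 534932239) (l 534887439))) (a (l 535083279) (l 535122191)))) (a (a (a (l 535160591) (l 535198479)) (a (l 535235855) (l 535272975))) (a (a (l 535175439) (l 535211791)) (a (l 535247631) (l 535283215)))))), by decide +kernel⟩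

def k21_B00pm_011_s3 : ∃ t, chk3 f_B00pm_011_s3 t 132 1019 1 = true :=
  ⟨(a (a (a (a (b (l 534711311) (l 534700559)) (b (l 534728207) (l 534717711))) (a (b (l 534745103) (l 534734607)) (b (l 534761743) (l 534751503)))) (a (a (b (l 534778639) (l 534768399)) (b (l 534795279) (l 534785039))) (a (b (l 534811663) (l 534801679)) (b (l 534828303) (l 534818319))))) (a (a (a (b (l 534845199) (l 534834703)) (b (l 534863119) (l 534851343))) (c (b (l 535049231) (l 535034127)) (b (l 534870799) (l 534855951)))) (a (c (b (l 535089423) (l 535072527)) (b (l 534910223) (l 534893583))) (c (b (l 534994959) (l 535112463)) (b (l 534949135) (l 534933007)))))), by decide +kernel⟩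

def k22_B00pm_011_s3 : ∃ t, chk3 f_B00pm_011_s3 t 133 1019 1 = true :=
  ⟨(a (b (a (a (c (l 535033871) (l 534987535)) (l 535183375)) (a (l 535221263) (l 535258639))) (b (a (a (l 534998543) (l 535037199)) (a (a (l 16771720) (b (l 16771728) (l 16771552))) (b (l 16771632) (a (a (l 16771456) (l 16771352)) (a (l 16771208) (l 16771024)))))) (a (b (a (l 16771728) (a (l 16771624) (c (l 16771560) (l 16771416)))) (b (a (l 16771600) (a (l 16771360) (l 16770984))) (a (a (l 16771536) (l 16771288)) (c (l 16770760) (l 16770632))))) (a (b (a (a (l 16771360) (l 16771216)) (c (l 16771000) (l 16770864))) (c (l 16772840) (l 16770088))) (a (l 16772672) (l 16772280)))))) (a (a (b (l 535295503) (b (b (a (l 16771480) (a (l 16771352) (l 16771216))) (c (l 16773232) (l 16770456))) (b (l 16772176) (l 16771200)))) (b (b (l 16771872) (b (l 16771704) (a (l 16771552) (a (l 16771464) (l 16771360))))) (b (b (a (l 16770936) (l 16770536)) (l 16772368)) (b (l 16771392) (c (l 16773096) (l 16767736))))))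 (b (a (b (l 16771784) (b (a (l 16771616) (l 16771496)) (a (c (l 16771216) (l 16771048)) (l 16770744)))) (b (a (l 16771728) (l 16771640)) (b (a (c (l 16771376) (l 16771208)) (l 16770960)) (l 16772776)))) (b (b (a (l 16772568) (l 16771792)) (a (l 16771584) (l 16770800))) (b (a (c (l 16773288) (l 16767920)) (l 16772432)) (a (l 16772240) (l 16771448))))))), by decide +kernel⟩

def k23_B00pm_011_s3 : ∃ t, chk3 f_B00pm_011_s3 t 67 508 1 = true :=
  ⟨(a (a (b (a (a (b (l 535387919) (l 535368207)) (l 535563023)) (a (l 535620879) (l 535682575))) (b (a (a (l 535355919) (l 535389967)) (a (l 535431439) (l 535487247))) (a (a (l 535343631) (l 535377935)) (a (l 535411727) (l 535453199))))) (b (a (a (l 535743247) (l 535668495)) (a (l 535727119) (l 535784719))) (a (b (a (l 535549455) (l 535610639)) (a (l 535509007) (l 535571215))) (b (a (l 535670543) (l 535729679)) (a (l 535632399) (l 535692303)))))) (a (b (a (a (l 535841295) (a (l 535883023) (l 535910671))) (a (b (l 535968015)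 (l 535934735)) (b (l 536021775) (l 535989263)))) (a (b (a (l 535787791) (l 535844879)) (a (l 535751183) (l 535809295))) (b (a (l 535900943) (l 535956239)) (a (l 535866383) (l 535922447))))) (b (b (a (a (l 536074511) (l 536126479)) (a (l 536177935) (l 536228623))) (a (a (l 536042767) (l 536095759)) (a (l 536147727) (l 536198927)))) (b (a (a (l 536010511) (l 536064271)) (a (l 536117007) (l 536168975))) (b (a (a (l 16773392) (l 16773520)) (b (a (l 16773704) (l 16773840)) (a (l 16773568) (a (l 16773552) (l 16773376))))) (b (a (a (l 16773256) (a (l 16773344) (l 16773320))) (a (a (a (l 16773272) (l 16773184)) (l 16772960)) (l 16772448))) (a (b (a (l 16773152) (l 16772944)) (a (l 16772944) (l 16772408))) (a (a (l 16772184) (l 16771848)) (l 16773968))))))))), by decide +kernel⟩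

def k24_B00pm_011_s3 : ∃ t, chk3 f_B00pm_011_s3 t 134 1018 1 = true :=
  ⟨(a (b (a (a (l 535331087) (l 535365647)) (a (l 535399951) (l 535433743))) (a (a (l 535318287) (l 535353103)) (b (a (l 16771928) (l 16771872)) (c (l 22) (a (a (l 16771592) (b (l 16771664) (l 16771384))) (a (b (l 16771616) (l 16771128)) (b (l 16771504) (l 16770744)))))))) (a (b (a (l 535542287) (l 535597839)) (c (l 22) (a (b (a (l 16771728) (l 16771656)) (b (b (c (l 16771408) (l 16771304)) (l 16770920)) (l 16770168))) (b (b (l 16771744) (b (a (l 16771624) (l 16771496)) (l 16771176))) (a (l 16772712) (l 16772336)))))) (b (a (l 535660047) (b (l 16772448) (b (l 16772280) (a (l 16772088) (a (l 16772064) (l 16772000)))))) (b (b (b (a (l 16771904) (l 16771536)) (a (a (l 16771760) (l 16771496)) (l 16771000))) (a (a (l 16771040) (l 16770704)) (l 16772832))) (b (a (l 16772440) (l 16771776)) (c (l 22) (l 16770968))))))), by decide +kernel⟩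

def k25_B00pm_011_s3 : ∃ t, chk3 f_B00pm_011_s3 t 135 1018 1 = true :=
  ⟨(a (b (a (b (a (l 16772544) (a (l 16772624) (l 16772624))) (c (l 22) (b (a (a (l 16772216) (l 16772176)) (b (l 16772152) (l 16771688))) (a (a (l 16771712) (l 16771384)) (l 16770888))))) (a (b (b (l 16772792) (b (l 16772592) (l 16772224))) (a (a (l 16773752) (l 16773584)) (l 16773328))) (b (b (a (l 16772800) (l 16772680)) (a (l 16772000) (l 16771664))) (b (l 16773368) (l 16772288))))) (c (l 22) (a (b (b (a (l 16770496) (l 16769824)) (l 16771728)) (a (a (l 16773272) (l 16772936)) (l 16772424))) (a (b (b (l 16769160) (l 16768096)) (l 16771744)) (b (l 16773192) (l 16771056)))))) (b (b (b (a (a (a (l 16772424) (l 16772088)) (l 16774208)) (a (l 16773536) (l 16772856))) (a (a (l 16773784) (l 16773112)) (a (a (l 16769984) (l 16769648)) (l 16774376)))) (a (c (l 22) (b (l 16772240) (c (l 22) (l 16771104)))) (a (l 16773416) (l 16772728)))) (c (l 22) (b (a (a (l 16772512) (l 16771824)) (l 16770784))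 (a (l 16770024) (l 16768624)))))), by decide +kernel⟩

def k26_B00pm_011_s3 : ∃ t, chk3 f_B00pm_011_s3 t 67 1019 1 = true :=
  ⟨(a (a (a (b (a (b (b (l 16771672) (a (l 16771424) (l 16771168))) (a (l 16772688) (l 16772296))) (b (b (a (l 16771536) (a (l 16771424) (l 16771288))) (a (l 16770784) (l 16770392))) (b (l 16772208) (l 16771208)))) (b (a (b (l 16771000) (l 16772632)) (c (l 22) (l 16772272))) (a (l 16771152) (l 16770360)))) (c (l 22) (b (b (b (a (a (l 16770920) (l 16770520)) (l 16769944)) (a (l 16769720) (l 16768944))) (b (a (l 16768728) (l 16767944)) (a (l 16767728) (l 16766944)))) (b (a (l 16771488) (l 16770696)) (l 16769112))))) (c (l 22) (a (b (b (b (a (l 16769160) (l 16768384)) (a (l 16768160) (l 16767376))) (a (l 16771904) (l 16771112))) (b (l 16769512) (l 16767520))) (b (a (b (a (l 16772552) (l 16772200)) (l 16770336)) (b (l 16771688) (l 16769616))) (b (l 16767944) (a (l 16771560) (l 16770768))))))) (c (l 22) (b (b (a (a (a (l 16771008) (l 16770320))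 (l 16769280)) (a (l 16767888) (l 16766472))) (a (a (l 16768576) (l 16767176)) (a (l 16765760) (l 16769576)))) (a (b (a (l 16766496) (a (l 16770680) (l 16769968))) (a (l 16769672) (l 16768240))) (b (a (l 16768888) (l 16767440)) (a (l 16766784) (l 16765320))))))), by decide +kernel⟩

def k27_B00pm_011_s3 : ∃ t, chk3 f_B00pm_011_s3 t 264 1020 1 = true :=
  ⟨(a (a (a (b (l 534689807) (b (l 534681359) (b (b (a (l 16771976) (l 16771856)) (l 16771520)) (b (l 16771056) (l 16770600))))) (b (l 534706959) (b (b (l 16772152) (b (l 16772048) (l 16771912))) (b (b (l 16771576) (l 16771112)) (c (l 16773088) (l 16770384)))))) (a (b (l 534724111) (b (b (l 16772056) (b (l 16771912) (a (l 16771728) (l 16771528)))) (b (b (l 16771168) (l 16770704)) (l 16772640)))) (b (l 534741007) (b (b (l 16771944) (b (c (l 16771728) (l 16771624)) (l 16771224))) (b (c (l 16773192) (l 16770488)) (l 16772232)))))) (a (a (b (l 534757903) (b (b (b (l 16771904) (l 16771704)) (b (l 16771280) (l 16770816)))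 (b (l 16772744) (l 16771824)))) (b (l 534774799) (b (b (b (l 16771728) (l 16771344)) (c (l 16773312) (l 16770600))) (b (l 16772336) (l 16771416))))) (b (b (l 534936591) (b (l 16771936) (a (c (l 16771840) (l 16771728)) (b (l 16771752) (l 16771472))))) (b (b (a (b (l 16771408) (l 16770936)) (c (l 16773440) (l 16770720))) (a (l 16772864) (l 16772456))) (b (l 16771728) (a (l 16768384) (l 16767976))))))), by decide +kernel⟩

def k28_B00pm_011_s3 : ∃ t, chk3 f_B00pm_011_s3 t 265 1020 1 = true :=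
  ⟨(a (b (a (b (l 534835471) (a (b (l 16771784) (b (l 16771520) (l 16771064))) (b (a (l 16771688) (l 16771592)) (c (l 16773568) (l 16770840))))) (a (b (l 16771840) (b (b (l 16771584) (l 16771192)) (l 16773112))) (b (b (l 16771824) (l 16771640)) (b (c (l 16773712) (l 16770976)) (l 16772704))))) (b (b (a (a (l 16772984) (l 16772576)) (l 16771968)) (a (l 16771848) (a (l 16768616) (l 16768208)))) (b (a (a (l 16768496) (l 16768088)) (a (l 16767680) (l 16767272))) (a (a (l 16767568) (l 16767160)) (l 16771784))))) (b (b (b (a (l 16771696) (a (c (l 16771584) (l 16771456)) (a (l 16771384) (l 16771240)))) (a (a (a (l 16771528) (l 16771416)) (a (l 16771264) (l 16771080))) (c (l 16773264) (a (l 16770720) (l 16770328))))) (b (a (c (l 16773096) (a (l 16770568) (l 16770168))) (l 16772248)) (a (l 16772096) (l 16771296)))) (b (b (a (l 16771160) (a (l 16767928) (l 16767528))) (a (a (l 16767800) (l 16767392)) (l 16772024))) (a (a (l 16771640) (l 16771224)) (c (l 16770640) (l 16770584)))))),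 by decide +kernel⟩

def k29_B00pm_011_s3 : ∃ t, chk3 f_B00pm_011_s3 t 132 1021 1 = true :=
  ⟨(a (a (b (a (b (b (a (l 16772536) (l 16772128)) (a (l 16771616) (l 16771208))) (b (b (l 16770728) (a (l 16767856) (l 16767448))) (a (l 16772416) (l 16772000)))) (b (b (a (l 16771720) (l 16771312)) (b (l 16770824) (l 16770368))) (b (a (l 16772504) (l 16772096)) (l 16771384)))) (b (b (a (a (l 16771504) (l 16771096)) (l 16770472)) (a (l 16770600) (l 16770400))) (b (a (l 16765752) (l 16765560)) (l 16766056)))) (a (b (b (a (b (l 16770896) (l 16772600)) (b (l 16770488) (l 16772192))) (b (l 16771472) (a (l 16770768) (l 16770352)))) (b (a (l 16770048) (l 16769952)) (l 16768192))) (b (b (b (a (l 16772704) (l 16772288)) (l 16771568)) (b (l 16770648) (a (l 16769936) (l 16769520)))) (b (a (l 16769856) (l 16769752)) (l 16765384))))) (b (a (a (b (a (l 16771416) (l 16771008)) (b (a (l 16770032) (l 16769616)) (a (l 16769104) (l 16768936)))) (b (a (l 16770592) (l 16770184)) (b (a (l 16769200)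 (l 16768792)) (l 16768784)))) (a (b (b (l 16770032) (l 16769096)) (a (l 16768432) (l 16768328))) (b (b (l 16769208) (b (l 16768504) (l 16768040))) (l 16768184)))) (a (a (b (l 16769608) (l 16765192)) (b (l 16769416) (l 16765008))) (a (b (l 16769224) (l 16764816)) (b (l 16763792) (l 16764632)))))), by decide +kernel⟩

def k30_B00pm_011_s3 : ∃ t, chk3 f_B00pm_011_s3 t 133 1020 1 = true :=
  ⟨(b (a (a (b (b (a (a (a (l 16771056) (l 16770856)) (l 16770560)) (l 16772592)) (a (l 16772416) (l 16771632))) (b (a (l 16771464) (a (l 16768248) (l 16767856))) (a (a (l 16768088) (l 16767688)) (l 16772336)))) (b (b (a (l 16771808) (l 16771016)) (a (a (l 16768416) (l 16768024)) (l 16772672))) (a (a (l 16772216) (l 16771824)) (a (l 16771424) (l 16771024))))) (a (a (b (a (l 16772560) (l 16772168)) (a (l 16770624) (l 16770224))) (b (a (l 16771768) (l 16771376)) (l 16769624))) (b (a (a (l 16770976) (l 16770576)) (l 16769976)) (a (l 16768824) (l 16768024))))) (a (a (a (b (a (l 16771896)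 (l 16771504)) (l 16769800)) (b (a (l 16771104) (l 16770704)) (a (l 16769200) (l 16768792)))) (b (a (c (l 16770128) (l 16770072)) (l 16769296)) (b (a (l 16768664) (l 16767864)) (a (l 16767712) (a (l 16772352) (l 16771944)))))) (a (a (b (l 16768496) (b (l 16767048) (l 16771336))) (b (a (l 16767888) (l 16767488)) (a (l 16771208) (l 16770800)))) (b (b (a (l 16767368) (l 16771800)) (a (l 16771640) (l 16770832))) (a (a (l 16770392) (l 16770104)) (a (l 16769992) (l 16769888))))))), by decide +kernel⟩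

def k31_B00pm_011_s3 : ∃ t, chk3 f_B00pm_011_s3 t 133 1021 1 = true :=
  ⟨(a (b (a (b (b (a (l 16768384) (a (l 16767776) (l 16772616))) (a (a (l 16767648) (l 16772528)) (l 16767120))) (a (l 16767984) (l 16767776))) (b (b (a (a (l 16772208) (l 16771800)) (l 16771488)) (l 16766800)) (a (l 16767568) (l 16767360)))) (a (a (b (l 16763600) (l 16764448)) (b (l 16763408) (l 16764264))) (a (b (l 16763208) (l 16764072)) (b (l 16763000) (l 16763880))))) (b (a (b (b (l 16765920) (l 16766376)) (a (l 16761912) (l 16761712))) (a (b (l 16765832) (l 16761504)) (b (l 16765624) (l 16761304)))) (a (a (b (l 16762808) (l 16763688)) (b (l 16762608) (l 16763496))) (a (b (l 16762408) (l 16763304)) (b (l 16762216) (l 16763120)))))), by decide +kernel⟩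

def k32_B00pm_011_s3 : ∃ t, chk3 f_B00pm_011_s3 t 66 1022 1 = true :=
  ⟨(a (b (a (a (b (a (l 16766744) (l 16766560)) (a (l 16767528) (l 16767352))) (a (b (l 16766376) (l 16767176)) (b (l 16766192) (l 16766992)))) (b (a (a (l 16766008) (l 16765824)) (a (l 16765648) (l 16765464))) (a (a (l 16766816) (l 16766640)) (a (l 16766472) (l 16766296))))) (b (b (a (a (l 16768024) (l 16767680)) (a (l 16767336) (l 16766992))) (a (a (l 16768416) (l 16768072)) (a (l 16767736) (l 16767400)))) (b (a (a (l 16768800) (l 16768464)) (a (l 16768136) (l 16767808))) (a (a (l 16769184) (l 16768856)) (a (l 16768528) (l 16768208)))))) (a (a (a (b (b (l 16765288) (l 16766120)) (b (l 16766952) (l 16767768))) (b (b (l 16765112) (l 16765952)) (b (l 16766784) (l 16767608)))) (b (a (b (l 16764928) (l 16765776)) (b (l 16764744) (l 16765608))) (b (a (l 16766616) (l 16766456)) (b (l 16767160) (l 16767576))))) (c (c (l 22) (b (b (a (l 16764496) (l 16764128)) (a (l 16765368) (l 16765016))) (b (a (l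 16766232) (l 16765896)) (a (l 16767088) (l 16766768))))) (a (b (b (l 16764424) (l 16765280)) (b (l 16766128) (l 16766960))) (b (b (l 16764048) (l 16764920)) (b (l 16765784) (l 16766632))))))), by decide +kernel⟩

def k33_B00pm_011_s3 : ∃ t, chk3 f_B00pm_011_s3 t 132 2046 1 = true :=
  ⟨(b (c (b (a (a (l 16769624) (l 16769304)) (a (l 16768992) (l 16768688))) (a (a (l 16770008) (l 16769696)) (a (l 16769392) (l 16769088)))) (a (a (l 16769688) (l 16769368)) (a (l 16769048) (l 16768728)))) (a (b (a (a (l 16770400) (l 16770240)) (a (l 16770088) (l 16769936))) (a (a (l 16770768) (l 16770616)) (a (l 16770464) (l 16770320)))) (a (b (a (l 16769784) (l 16769632)) (a (l 16770168) (l 16770016))) (b (c (l 16769488) (l 16769312)) (a (l 16769872) (l 16769728)))))), by decide +kernel⟩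

def k34_B00pm_011_s3 : ∃ t, chk3 f_B00pm_011_s3 t 528 2047 1 = true :=
  ⟨(b (b (c (a (l 16771216) (l 16771072)) (l 16770984)) (b (a (l 16771416) (l 16771272)) (c (a (l 16771688) (l 16771544)) (l 16771440)))) (b (b (c (a (l 16771872) (l 16771736)) (l 16771624)) (a (c (a (l 16772096) (l 16772024)) (l 16771872)) (c (a (l 16771952) (l 16771888)) (l 16771728)))) (a (b (c (b (l 16772200) (a (l 16772328) (l 16772256))) (l 16772056)) (b (c (c (a (l 16772464) (l 16772400)) (l 16772336)) (l 16772192)) (b (c (c (c (l 16772528) (l 16772472)) (l 16772400)) (l 16772256)) (a (c (c (c (a (l 16772624) (l 16772584)) (l 16772552)) (l 16772480)) (l 16772336)) (c (c (l 16772512) (l 16772416)) (l 16772264)))))) (b (c (b (l 16772064) (a (l 16772192) (l 16772120))) (l 16771912)) (b (c (c (c (l 16772320) (l 16772272)) (l 16772200)) (l 16772048)) (a (c (c (c (l 16772448) (l 16772400)) (l 16772328)) (l 16772176)) (c (c (c (l 16772384) (l 16772336)) (l 16772256)) (l 16772104)))))))), by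 decide +kernel⟩

def k35_B00pm_011_s3 : ∃ t, chk3 f_B00pm_011_s3 t 529 2047 1 = true :=
  ⟨(c (b (a (b (l 16770928) (a (l 16771344) (l 16771272))) (b (l 16770784) (a (l 16771208) (l 16771136)))) (b (a (b (l 16771592) (c (l 16771832) (l 16771736))) (b (l 16771456) (c (l 16771696) (l 16771600)))) (a (b (b (l 16771928) (a (l 16772056) (l 16771984))) (b (c (a (l 16772200) (l 16772128)) (l 16772064)) (a (c (c (l 16772320) (l 16772264)) (l 16772192)) (c (a (l 16772240) (l 16772208)) (l 16772120))))) (b (b (l 16771792) (a (l 16771920) (l 16771848))) (b (c (c (l 16772056) (l 16772008)) (l 16771928)) (a (c (a (l 16772176) (l 16772144)) (l 16772056)) (c (a (l 16772112) (l 16772080)) (l 16771992)))))))) (b (b (l 16770680) (c (l 16771104) (l 16771008))) (a (b (l 16771496) (b (l 16771768) (b (l 16771904) (c (l 16772048) (l 16771944))))) (b (l 16771352) (b (l 16771632) (b (l 16771768) (c (l 16771912) (l 16771808)))))))), by decide +kernel⟩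

def k36_B00pm_011_s3 : ∃ t, chk3 f_B00pm_011_s3 t 265 2047 1 = true :=
  ⟨(b (b (c (a (a (l 16770640) (l 16770504)) (a (l 16770360) (l 16770216))) (a (l 16770384) (l 16770088))) (b (a (a (l 16770840) (l 16770696)) (a (l 16770552) (l 16770408))) (a (c (a (l 16771128) (l 16770992)) (l 16770856)) (c (a (l 16770848) (l 16770712)) (l 16770568))))) (a (a (b (c (b (l 16771320) (c (l 16771568) (l 16771464))) (l 16771208)) (b (c (c (a (l 16771792) (l 16771728)) (l 16771648)) (l 16771488)) (b (c (c (a (l 16771936) (l 16771872)) (l 16771792)) (l 16771632)) (a (c (c (a (l 16772048) (l 16772016)) (l 16771920)) (l 16771760)) (c (c (c (l 22) (l 16771936)) (l 16771856)) (l 16771688)))))) (c (b (b (l 16771184) (a (l 16771408) (l 16771344))) (c (c (l 22) (b (l 16771600) (b (l 16771744) (a (l 16771872) (l 16771808))))) (b (l 16771512) (b (l 16771656) (a (l 16771792) (l 16771720)))))) (b (l 16771072) (b (l 16771352) (b (l 16771488) (c (l 16771640) (l 16771528))))))) (c (c (c (l 22)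 (b (b (l 16771008) (a (l 16771272) (l 16771136))) (b (a (l 16771464) (l 16771336)) (a (b (l 16771616) (a (l 16771744) (l 16771680))) (b (l 16771480) (a (l 16771616) (l 16771552))))))) (b (b (l 16770928) (c (l 16771152) (l 16771096))) (a (b (l 16771384) (b (l 16771528) (a (l 16771656) (l 16771592)))) (b (l 16771248) (b (l 16771392) (a (l 16771528) (l 16771456))))))) (a (b (l 16770928) (b (l 16771216) (b (l 16771352) (c (l 16771504) (l 16771392))))) (b (l 16770784) (b (l 16771072) (b (l 16771216) (c (l 16771376) (l 16771256))))))))), by decide +kernel⟩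

def k37_B00pm_011_s3 : ∃ t, chk3 f_B00pm_011_s3 t 266 1023 1 = true :=
  ⟨(a (b (b (b (l 16768296) (a (l 16768776) (l 16768624))) (b (c (l 16769200) (l 16769008)) (a (l 16769576) (l 16769432)))) (c (c (a (a (a (c (l 22) (b (l 16770360) (b (l 16770960) (b (l 16771256) (c (l 22) (l 16771440)))))) (l 22)) (l 22)) (l 22)) (b (b (l 16769952) (a (l 16770424) (l 16770288))) (b (b (l 16770656) (c (l 16770880) (l 16770824))) (a (b (l 16771112) (b (l 16771264) (a (l 16771392) (l 16771328)))) (b (l 16770984) (b (l 16771136) (a (l 16771264) (l 16771200)))))))) (b (b (l 16769800) (c (l 16770248) (l 16770136))) (a (b (l 16770648) (b (l 16770936) (b (l 16771080) (c (l 16771240) (l 16771120))))) (b (l 16770512) (b (l 16770800) (b (l 16770944) (c (l 16771104) (l 16770984))))))))) (c (c (l 22) (b (b (l 16768240) (b (l 16768856) (l 16769272))) (b (b (l 16769672) (a (l 16770152) (l 16770016))) (b (b (l 16770384) (c (l 16770616) (l 16770552))) (a (b (l 16770856) (b (l 16771000) (a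 (l 16771136) (l 16771072)))) (b (l 16770720) (b (l 16770872) (a (l 16771008) (a (l 16770960) (l 16770928)))))))))) (b (b (l 16768104) (c (l 16768960) (l 16768856))) (b (b (l 16769512) (c (l 16769968) (l 16769848))) (b (a (l 16770368) (l 16770232)) (b (a (l 16770664) (l 16770528)) (b (a (l 16770808) (l 16770680)) (a (a (l 16770944) (l 16770872)) (a (l 16770808) (l 16770744)))))))))), by decide +kernel⟩

def k38_B00pm_011_s3 : ∃ t, chk3 f_B00pm_011_s3 t 267 1023 1 = true :=
  ⟨(c (c (l 22) (b (b (a (b (l 16767728) (l 16768152)) (l 16767632)) (a (b (l 16768568) (l 16768984)) (b (l 16768272) (l 16768696)))) (c (a (a (a (a (b (l 16769752) (b (l 16770368) (b (l 16770672) (l 16770880)))) (l 22)) (l 22)) (l 22)) (l 22)) (b (a (b (l 16769368) (l 16769776)) (b (l 16769088) (l 16769504))) (b (a (b (l 16770088) (l 16770288)) (b (l 16769824) (l 16770024))) (b (a (a (l 16770560) (l 16770432)) (a (l 16770296) (l 16770168))) (a (a (a (l 16770792) (l 16770728)) (b (l 16770584) (c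 (l 16770704) (l 16770664)))) (a (b (l 16770456) (a (l 16770592) (l 16770528))) (c (l 22) (b (l 16770304) (l 16770408))))))))))) (b (b (a (l 16767792) (l 16767480)) (a (a (l 16768688) (l 16768536)) (a (l 16768392) (l 16768240)))) (b (a (b (l 16769224) (c (l 16769688) (l 16769568))) (b (l 16768936) (a (l 16769416) (l 16769280)))) (a (b (b (l 16769928) (a (l 16770192) (l 16770064))) (a (b (l 16770392) (a (c (l 16770696) (l 16770560)) (c (l 16770632) (l 16770496)))) (b (c (l 16770328) (l 16770192)) (a (c (l 16770560) (l 16770424)) (c (a (l 16770512) (l 16770480)) (l 16770360)))))) (b (b (l 16769656) (a (l 16769928) (l 16769792))) (b (a (l 16770128) (l 16769992)) (b (c (a (l 16770352) (l 16770216)) (l 16770144)) (a (c (a (l 16770480) (l 16770416)) (l 16770312)) (c (c (l 16770360) (l 16770288)) (l 16770176)))))))))), by decide +kernel⟩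

def k39_B00pm_011_s3 : ∃ t, chk3 f_B00pm_011_s3 t 134 255 2 = true :=
  ⟨(c (l 22) (a (a (a (a (c (l 22) (b (b (b (b (l 16769392) (l 16772672)) (l 16769736)) (b (l 16765936) (l 16762536))) (b (b (l 16764344) (l 16766112)) (b (b (l 16767416) (l 16768280)) (b (l 16769128) (b (l 16769760) (b (l 16770072) (c (l 22) (l 16770264))))))))) (l 22)) (l 22)) (l 22)) (l 22))), by decide +kernel⟩

def k40_B00pm_011_s3 : ∃ t, chk3 f_B00pm_011_s3 t 268 255 3 = true :=
  ⟨(b (b (b (b (a (l 16768736) (l 16767144)) (a (a (l 16767184) (l 16771624)) (a (l 16770824) (l 16770016)))) (a (a (b (l 16770488) (l 16769736)) (l 16769048)) (b (l 16768464) (l 16769200)))) (b (a (a (l 16765872) (l 16765664)) (b (l 16759648) (l 16760584))) (b (a (l 16761888) (l 16761504)) (l 16762600)))) (a (b (b (b (l 16763680) (l 16764568)) (b (l 16765440) (l 16766312))) (b (b (l 16767168) (a (l 16768096) (l 16767944))) (b (b (l 16768648) (a (l 16769136) (l 16769000))) (b (b (l 16769384) (a (l 16769656) (l 16769520)))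 (b (c (a (l 16769936) (l 16769800)) (l 16769720)) (b (c (a (l 16770088) (l 16769960)) (l 16769880)) (a (c (c (l 16770232) (l 16770160)) (l 16770048)) (c (c (l 16770104) (l 16770024)) (l 16769912))))))))) (b (b (b (l 16763320) (l 16764224)) (b (l 16765112) (l 16765992))) (b (b (l 16766864) (a (l 16767800) (l 16767656))) (b (b (l 16768368) (a (l 16768864) (l 16768728))) (b (b (l 16769112) (c (l 16769400) (l 16769248))) (b (a (c (l 16769672) (l 16769528)) (c (l 16769544) (l 16769392))) (b (c (a (l 16769832) (l 16769704)) (l 16769616)) (a (c (a (l 16769968) (l 16769904)) (l 16769784)) (c (a (l 16769840) (l 16769784)) (l 16769656))))))))))), by decide +kernel⟩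

def k41_B00pm_011_s3 : ∃ t, chk3 f_B00pm_011_s3 t 269 255 3 = true :=
  ⟨(b (b (b (b (a (a (l 16771184) (l 16770376)) (l 16769168)) (a (a (l 16769208) (l 16768400)) (l 16767184))) (a (a (l 16768408) (l 16768192)) (a (l 16767984) (l 16767776)))) (b (a (b (l 16759240) (l 16760184)) (b (l 16758840) (l 16759792))) (b (l 16760928) (l 16761864)))) (b (a (b (b (l 16762968) (l 16763880)) (b (l 16764776) (l 16765672))) (b (b (l 16762616) (l 16763536)) (b (l 16764456) (l 16765360)))) (b (b (a (l 16766560) (l 16766264)) (a (a (l 16767512) (l 16767368)) (a (l 16767224) (l 16767080)))) (b (a (b (l 16768088) (a (l 16768592) (l 16768456))) (b (l 16767816) (a (l 16768320) (l 16768192)))) (b (b (a (l 16768848) (l 16768584)) (a (a (l 16769128) (l 16769000)) (a (l 16768864) (l 16768736)))) (b (b (c (a (l 16769304) (l 16769048)) (a (l 16769144) (l 16768880))) (a (a (l 16769392) (l 16769264)) (a (l 16769136) (l 16769008)))) (b (c (a (a (l 16769576) (l 16769456)) (a (l 16769328) (l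 16769200))) (a (c (l 16769392) (l 16769312)) (c (l 16769144) (l 16769056)))) (c (a (a (a (l 16769720) (l 16769656)) (a (l 16769592) (l 16769528))) (c (l 22) (a (l 16769392) (l 16769272)))) (a (a (l 16769528) (l 16769400)) (a (l 16769272) (l 16769144))))))))))), by decide +kernel⟩

def k42_B00pm_011_s3 : ∃ t, chk3 f_B00pm_011_s3 t 135 255 2 = true :=
  ⟨(l 22), by decide +kernel⟩

def k43_B00pm_011_s3 : ∃ t, chk3 f_B00pm_011_s3 t 135 255 6 = true :=
  ⟨(c (l 22) (a (a (a (a (a (c (l 22) (b (b (b (l 16767264) (l 16767648)) (b (l 16759104) (l 16761016))) (b (b (l 16762896) (l 16764744)) (b (l 16766560) (b (l 16767904) (b (l 16768568) (l 16769008))))))) (l 22)) (l 22)) (l 22)) (l 22)) (l 22))), by decide +kernel⟩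

def k44_B00pm_011_s3 : ∃ t, chk3 f_B00pm_011_s3 t 135 255 7 = true :=
  ⟨(a (b (b (b (a (b (l 16767608) (l 16765944)) (b (a (l 16766520) (l 16765784)) (l 16765376))) (a (a (l 16767560) (l 16767336)) (l 16761688))) (b (a (l 16758904) (l 16758480)) (b (l 16760152) (l 16761104)))) (b (b (a (l 16762688) (l 16762352)) (b (l 16763920) (a (l 16764992) (l 16764688)))) (b (b (a (l 16765896) (l 16765608)) (a (l 16766800) (l 16766520))) (b (b (a (l 16767464) (l 16767192)) (a (l 16767912) (l 16767648))) (b (a (a (l 16768416) (l 16768288)) (a (l 16768160) (l 16768032))) (b (a (c (l 16768720) (l 16768640)) (a (l 16768488) (l 16768368))) (a (b (c (l 16768888) (l 16768800)) (a (l 16769016) (l 16768896))) (a (a (l 16768744) (l 16768680)) (a (l 16768616) (l 16768560)))))))))) (a (b (b (b (b (l 16764688) (l 16764800)) (l 16761144)) (b (l 16757984) (l 16760016))) (b (b (b (l 16761504) (l 16762472)) (b (l 16763432) (l 16764376))) (b (b (l 16765312) (l 16766240)) (a (b (l 16767224)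 (b (l 16767904) (b (l 16768240) (b (l 16768408) (a (l 16768552) (l 16768488)))))) (b (l 16767088) (b (l 16767776) (c (l 22) (b (l 16768072) (c (l 16768320) (l 16768272)))))))))) (c (l 22) (b (b (b (l 16763688) (l 16760608)) (b (l 16757480) (l 16759544))) (b (b (l 16761560) (b (l 16763040) (l 16764016))) (b (b (l 16764968) (l 16765912)) (b (b (l 16766616) (l 16767080)) (b (b (l 16767424) (l 16767656)) (a (b (l 16767944) (c (l 16768200) (l 16768152))) (b (l 16767824) (a (l 16768080) (l 16768016)))))))))))), by decide +kernel⟩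

def k45_B00pm_011_s3 : ∃ t, chk3 f_B00pm_011_s3 t 68 252 1 = true :=
  ⟨(c (a (a (c (l 583580687) (b (l 569910031) (c (l 568862735) (a (l 558951695) (l 561824527))))) (c (l 586762255) (b (l 573929743) (l 569530895)))) (c (l 590434319) (a (l 575476751) (l 578488591)))) (b (a (b (a (a (c (l 553649167) (a (l 538042127) (l 539773199))) (c (l 557168399) (c (l 545701647) (l 537699343)))) (c (l 560551951) (a (a (l 542940175) (l 544672783)) (a (l 546614799) (l 548500239))))) (c (a (a (a (l 550252303) (l 552070671)) (l 553196559)) (a (l 556982031) (l 559463951))) (a (a (l 536821775) (a (l 537861135) (l 539590415))) (a (c (l 545247503) (l 537245711)) (c (l 548693263) (a (l 540738831) (l 542271247))))))) (c (a (l 562579215) (l 567582479)) (a (c (a (l 552182799) (l 555082511)) (a (b (l 547362063) (l 543113999)) (b (l 549868559) (l 547170831)))) (a (a (l 552206863) (l 554649871)) (l 555416079))))) (a (a (b (b (c (a (c (l 552933647) (l 544589071)) (l 551933711)) (a (l 536586511)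 (l 536761359))) (a (l 536834575) (c (l 548950543) (l 536688143)))) (b (a (l 536527887) (c (c (l 552749071) (l 544406543)) (l 536624911))) (a (l 536503567) (l 536652815)))) (c (a (b (l 552741391) (a (l 549078287) (l 551698703))) (b (l 556793103) (l 552283407))) (a (b (a (l 537677327) (l 539404815)) (a (l 536717071) (l 536809231))) (b (c (l 544790799) (l 537057807)) (a (l 537490703) (l 538947855)))))) (a (a (c (c (l 561624847) (l 554035727)) (b (c (l 548502799) (a (l 540548879) (l 542080015))) (c (l 544331535) (l 537135631)))) (c (l 560338191) (b (a (l 545428495) (l 547312399)) (c (l 548309775) (a (l 540356367) (l 541886223)))))) (c (l 561927695) (c (a (l 550724367) (l 554696719)) (a (b (l 546977039) (c (l 545796879) (l 542071567))) (b (l 549481999) (l 546780687))))))))), by decide +kernel⟩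

def k46_B00pm_011_s3 : ∃ t, chk3 f_B00pm_011_s3 t 69 252 1 = true :=
  ⟨(a (c (l 587868687) (a (c (b (l 570662415) (l 567201551)) (a (b (l 558174735) (b (l 554895375) (l 552228879))) (b (l 559979535) (l 554223631)))) (c (l 571827983) (b (l 562437903) (a (l 557788687) (l 559595279)))))) (c (l 590519055) (a (b (l 570364431) (l 566665743)) (l 569953295)))), by decide +kernel⟩

def k47_B00pm_011_s3 : ∃ t, chk3 f_B00pm_011_s3 t 68 506 1 = true :=
  ⟨(c (c (a (a (l 576682767) (l 581122831)) (l 586229007)) (a (a (c (a (l 561302543) (l 564390415)) (a (b (l 553791759) (c (l 552333583) (l 547259919))) (b (l 557123343) (l 553599503)))) (c (l 568475407) (a (l 557766415) (l 561442319)))) (a (l 568336911) (l 573158671)))) (a (a (a (b (a (l 536444431) (l 536489231)) (a (l 536393487) (l 536439055))) (b (a (l 536533263) (l 536576783)) (a (l 536484111) (l 536528655)))) (a (a (b (l 536783119) (l 536572687)) (b (c (c (l 552513039) (l 544173839)) (l 536673295)) (l 536616207))) (a (b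 (c (l 548621583) (l 536755727)) (l 536864783)) (c (c (l 553949199) (b (l 547507471) (l 543984911))) (b (l 536847887) (l 536712463)))))) (a (a (c (c (l 555315471) (b (l 549819407) (l 545169423))) (b (a (l 537301263) (l 538756623)) (a (l 536794639) (l 536886799)))) (c (c (l 558792719) (b (l 552675599) (l 549625103))) (b (c (l 543869199) (l 537210639)) (a (l 537109007) (l 538562575))))) (c (a (a (l 555606031) (l 558186767)) (l 559141903)) (c (a (b (l 548114191) (l 543404303)) (b (l 550785295) (l 547915791))) (a (b (a (l 540161039) (l 541689871)) (a (l 537144335) (l 538371599))) (b (c (l 545599247) (l 541605135)) (a (l 539962639) (l 541490703))))))))), by decide +kernel⟩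

def k48_B00pm_011_s3 : ∃ t, chk3 f_B00pm_011_s3 t 68 507 1 = true :=
  ⟨(a (b (c (c (a (l 572347663) (l 16939432)) (a (c (a (l 555752463) (l 559342863)) (a (a (l 544619535) (l 546741263)) (b (l 16804728) (l 548713487)))) (c (l 564102671) (a (l 553404175) (l 556735759))))) (a (a (a (c (l 536358415) (l 536323343)) (l 536337167)) (a (l 536366607) (l 536479247))) (a (a (l 536524303) (l 536568847)) (a (l 536612623) (l 536656143))))) (a (a (a (a (l 536308751) (l 536333071)) (a (l 536382735) (l 536243983))) (a (b (c (l 16786328) (l 536394511)) (l 536517391)) (b (c (l 16796224) (l 536440847)) (c (l 16794528) (l 536414991))))) (c (a (b (l 16811176) (a (l 16805032) (l 16815576))) (b (l 16831280) (l 16831432))) (a (a (a (l 536462863) (l 536485647)) (c (l 536538127) (l 536434447))) (a (c (l 537858063) (l 536546319)) (l 536609039)))))) (a (b (a (c (l 16848016) (a (l 536674831) (c (c (l 552128527) (l 543524623)) (l 536751887)))) (c (l 16866968) (c (c (l 554399759) (b (l 16781424)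 (l 545447439))) (a (l 536834063) (l 536926223))))) (a (a (c (l 16846992) (l 536653071)) (c (l 16857336) (l 536696335))) (c (l 16872816) (b (a (l 537752079) (a (l 16776808) (l 16776248))) (a (l 16776480) (l 537117711)))))) (b (c (l 16895432) (c (c (l 558500879) (a (l 548622351) (l 552279823))) (a (a (l 537016847) (l 538365455)) (a (l 538941711) (a (l 540403983) (l 540910863)))))) (c (l 16903536) (c (c (a (l 554201359) (l 16889392)) (a (a (a (l 544077071) (l 545443343)) (l 545311503)) (b (l 16848912) (l 16801088)))) (a (b (l 536955663) (b (l 16777376) (l 536999439))) (b (l 537678863) (b (l 16778656) (l 537048591))))))))), by decide +kernel⟩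

def k49_B00pm_011_s3 : ∃ t, chk3 f_B00pm_011_s3 t 69 253 1 = true :=
  ⟨(a (b (c (l 584382223) (a (c (c (l 566478863) (l 559276303)) (c (b (l 554404623) (a (l 550585615) (l 16859840))) (a (b (l 546581775) (b (l 16792040) (l 542907919))) (b (l 549085711) (l 546111759))))) (a (b (l 16809568) (a (l 16805208) (l 16813392))) (b (l 16824776) (l 16825728))))) (c (a (a (l 16929336) (l 16948896)) (l 16978056)) (a (a (b (c (l 16808792) (c (l 546104079) (b (l 16779576) (l 539710991)))) (b (b (l 16785456) (l 16782624)) (b (l 16779528) (a (a (l 16779032) (b (l 16795472) (l 16783288))) (b (l 16782128) (l 16780736)))))) (b (b (l 16789696) (l 16781168)) (b (b (l 16783336) (l 16780976)) (a (b (l 16783928) (b (l 16781944) (l 16791448))) (b (b (l 16783968) (l 16782832)) (l 16781576)))))) (a (b (b (l 16807112) (l 16804624)) (b (a (l 16796496) (a (l 16803664) (l 16808456))) (b (a (b (l 16793904) (l 16793152)) (l 16803776)) (l 16797448)))) (b (a (l 16814104) (l 16828272)) (b (b (l 16821032)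 (a (l 16814928) (l 16824800))) (l 16808376))))))) (b (c (l 17083328) (c (l 571281935) (a (a (l 557393423) (l 559201807)) (l 561667087)))) (a (c (l 17100232) (b (a (l 16831152) (a (l 16855032) (l 16863968))) (a (b (b (l 16840024) (l 16839784)) (l 16839496)) (l 16859760)))) (c (l 17137776) (b (b (l 16885656) (l 16886896)) (l 16889480)))))), by decide +kernel⟩

def k50_B00pm_011_s3 : ∃ t, chk3 f_B00pm_011_s3 t 35 126 1 = true :=
  ⟨(a (a (a (b (c (l 17067800) (l 573270287)) (b (l 16897944) (b (l 16917448) (l 16930520)))) (b (l 583679247) (b (l 17014368) (l 16960312)))) (b (l 585041679) (b (a (l 17046432) (l 17161848)) (l 17012728)))) (a (b (l 17064472) (a (l 17044000) (l 17158872))) (b (l 17119680) (l 17203664)))), by decide +kernel⟩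

def k51_B00pm_011_s3 : ∃ t, chk3 f_B00pm_011_s3 t 136 508 1 = true :=
  ⟨(b (b (a (a (a (l 536278287) (l 536327695)) (a (l 536376079) (l 536418319))) (c (a (a (l 16802656) (l 16813776)) (a (l 16824912) (l 16836032))) (a (a (l 536435471) (l 536481807)) (a (l 536527375) (l 536572687))))) (a (a (a (l 536249615) (l 536299279)) (a (l 536348431) (l 536397071))) (a (a (l 536318735) (b (l 16775688) (l 16775488))) (c (b (l 16828976) (a (l 16800744) (l 16812744))) (b (a (l 16775376) (l 16775568)) (a (a (l 16775176) (b (l 16775344) (l 16775104))) (a (b (l 16775432) (l 16774944)) (b (l 16775440) (l 16774632))))))))) (a (a (a (b (l 536220175) (b (b (a (l 16773864) (a (l 16773824) (l 16773736))) (l 16772888)) (b (l 16771776) (l 16773288)))) (b (b (l 16774432) (a (l 16774200) (b (l 16774368) (a (l 16774160) (l 16774104))))) (b (b (a (l 16773512) (l 16773168)) (l 16772216)) (b (l 16773720) (c (l 16777040) (l 16769848)))))) (b (a (b (l 16774600) (b (a (l 16774440) (l 16774432))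 (a (l 16773944) (l 16773624)))) (b (a (l 16774728) (l 16774768)) (b (a (a (l 16774392) (l 16774312)) (l 16774088)) (l 16773120)))) (a (b (c (l 16774488) (l 16774568)) (a (a (l 16775360) (l 16775192)) (l 16774936))) (b (b (l 16771992) (l 16773488)) (c (l 16774648) (l 16774280)))))) (a (a (b (b (b (l 16774968) (a (a (l 16774736) (l 16774688)) (l 16774824))) (a (l 16775800) (l 16775464))) (b (b (l 16773936) (l 16775424)) (l 16773728))) (b (b (b (c (l 16787264) (a (l 16774840) (l 16774744))) (l 16773968)) (a (l 16774784) (l 16773504))) (b (l 16772736) (l 16772248)))) (a (b (b (b (a (l 16775336) (l 16776400)) (l 16776312)) (l 16772872)) (b (l 16773208) (l 16773176))) (b (b (a (l 16776448) (c (l 16836144) (l 16775536))) (b (l 16776544) (l 16774392))) (b (l 16770992) (l 16771400))))))), by decide +kernel⟩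

def k52_B00pm_011_s3 : ∃ t, chk3 f_B00pm_011_s3 t 137 508 1 = true :=
  ⟨(a (a (c (b (b (l 16852688) (b (l 16810192) (l 16809912))) (b (l 16809672) (a (l 16801824) (l 16857000)))) (b (b (a (l 536617231) (l 536661263)) (b (a (a (l 16775720) (l 16775776)) (b (l 16775984) (a (l 16775720) (l 16775568)))) (b (a (b (l 16775456) (l 16774992)) (l 16774600)) (a (l 16774128) (l 16773448))))) (b (b (b (l 16775264) (a (l 16771832) (l 16771152))) (a (l 16775360) (l 16774672))) (b (a (l 16773088) (l 16772392)) (l 16770464))))) (c (b (b (l 16874856) (l 16875712)) (a (l 16828440) (l 16883088))) (b (a (b (l 536704527) (b (b (b (l 16776152) (l 16775888)) (l 16775080)) (a (l 16773520) (l 16773176)))) (b (b (l 16777656) (a (l 16776400) (b (l 16776568) (l 16776352)))) (b (b (l 16775576) (l 16774408)) (l 16777912)))) (b (a (b (l 16776280) (l 16773984)) (b (l 16775592) (l 16773288))) (b (l 16771336) (c (l 16767384) (l 16768984))))))) (c (b (a (b (l 16896928) (l 16899304)) (l 16920728))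 (a (l 16860016) (l 16926696))) (a (b (b (b (a (l 16777776) (c (l 16803544) (b (l 16777288) (l 16777144)))) (b (a (a (l 16776312) (l 16776560)) (a (l 16776808) (l 16777120))) (a (a (l 16776360) (l 16779520)) (l 16777640)))) (a (b (l 16775920) (l 16773840)) (b (l 16774616) (l 16775552)))) (b (b (l 16772504) (l 16772616)) (b (c (l 16777984) (l 16769856)) (l 16772872)))) (a (b (b (b (b (l 16778912) (c (l 16813448) (b (l 16777600) (l 16777216)))) (l 16779440)) (a (l 16776168) (l 16776824))) (b (a (l 16772768) (l 16773816)) (l 16771416))) (b (b (b (b (b (l 16779384) (l 16778480)) (l 16777328)) (c (l 16781128) (l 16780504))) (b (l 16782168) (l 16778584))) (b (l 16772688) (c (l 16808936) (l 16772216)))))))), by decide +kernel⟩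

def k53_B00pm_011_s3 : ∃ t, chk3 f_B00pm_011_s3 t 69 508 1 = true :=
  ⟨(c (a (a (b (l 16954152) (l 16962800)) (l 17003760)) (l 17068224)) (a (b (a (b (a (a (b (l 16778552) (l 16775784)) (b (l 16779016) (l 16776528))) (a (l 16778368) (l 16778888))) (a (b (c (l 16796360) (l 16776448)) (l 16775424)) (a (l 16773496) (l 16774568)))) (b (a (a (l 16789856) (l 16800776)) (l 16796080)) (c (l 16852584) (a (b (l 16785784) (l 16782600)) (l 16786224))))) (a (b (a (b (l 16772048) (l 16773656)) (a (l 16778160) (l 16779832))) (a (b (l 16774992) (l 16770800)) (a (l 16771336) (l 16773640)))) (a (a (b (l 16781416) (l 16775832)) (b (l 16772424) (l 16777920))) (a (b (l 16805288) (l 16779896)) (b (l 16817096) (l 16771272)))))) (b (b (a (a (l 16838560) (l 16859808)) (l 16891168)) (a (a (l 16836944) (l 16859064)) (l 16891616))) (b (a (a (l 16792680) (l 16857664)) (l 16891480)) (a (a (a (l 16825456) (l 16837584)) (l 16855560)) (l 16848792)))))), by decide +kernel⟩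

def k54_B00pm_011_s3 : ∃ t, chk3 f_B00pm_011_s3 t 34 509 1 = true :=
  ⟨(a (b (b (b (b (a (a (a (a (l 16774800) (l 16774120)) (c (l 16775560) (l 16772960))) (a (l 16771696) (c (l 16779600) (l 16770176)))) (c (a (a (l 16849088) (l 16876144)) (l 16915744)) (a (a (l 16768760) (l 16772584)) (a (l 16771144) (l 16771600))))) (a (c (l 22) (a (a (l 16773232) (l 22)) (l 22))) (l 22))) (a (a (c (l 22) (a (l 16771584) (l 22))) (l 22)) (l 22))) (a (a (a (c (l 22) (b (l 16769392) (l 16767216))) (l 22)) (l 22)) (l 22))) (c (l 22) (a (a (a (a (a (b (l 16769752) (l 16765464)) (l 22)) (l 22)) (l 22)) (l 22)) (l 22)))) (c (a (a (b (l 16884808) (l 22)) (a (l 17009768) (l 17118960))) (a (l 17155704) (l 17202488))) (b (b (b (b (a (a (a (l 16767464) (l 16773144)) (a (l 16778344) (l 16783048))) (a (c (l 16980384) (l 16786688)) (l 16889936))) (l 22)) (l 22)) (l 22)) (l 22)))), by decide +kernel⟩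

def k55_B00pm_011_s3 : ∃ t, chk3 f_B00pm_011_s3 t 34 255 1 = true :=
  ⟨(c (a (l 22) (a (c (b (a (l 22) (l 17186864)) (l 22)) (l 22)) (b (a (l 17003528) (l 17224768)) (c (l 17288120) (l 22))))) (c (l 22) (c (l 22) (c (l 22) (a (a (a (a (a (a (b (b (b (l 16763336) (l 16755032)) (b (l 16757168) (l 16759256))) (b (l 16764920) (b (l 16765232) (b (l 16766656) (b (l 16767352) (b (l 16767704) (l 16767936))))))) (l 22)) (l 22)) (l 22)) (l 22)) (l 22)) (l 22)))))), by decide +kernel⟩

def k56_B00pm_011_s3 : ∃ t, chk3 f_B00pm_011_s3 t 35 127 1 = true :=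
  ⟨(b (a (a (a (c (l 17230536) (b (b (l 16932936) (l 16935672)) (b (l 16852360) (l 22)))) (b (l 16987848) (a (c (l 17278632) (l 16971360)) (l 17020944)))) (b (l 16960968) (a (l 17052592) (l 17176840)))) (a (a (l 17115248) (l 17234072)) (l 17367360))) (a (c (a (b (l 17298560) (l 17237816)) (l 17403848)) (b (a (a (l 22) (b (l 16982592) (l 22))) (b (l 17056136) (l 16974104))) (a (l 22) (c (l 17210296) (l 22))))) (a (b (l 17264344) (l 17080752)) (b (l 17422712) (l 17372280))))), by decide +kernel⟩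

def k57_B00pm_011_s3 : ∃ t, chk3 f_B00pm_011_s3 t 9 31 1 = true :=
  ⟨(a (b (a (b (c (l 591528719) (l 583751951)) (a (l 588020495) (l 587298319))) (b (l 585065487) (a (l 17243120) (l 17409616)))) (b (b (a (a (l 17114688) (l 17379664)) (l 17507976)) (a (a (l 17370968) (l 17470576)) (l 17599016))) (b (a (a (l 17457128) (l 17561168)) (l 17691152)) (a (b (l 17576368) (l 17366664)) (l 17783272))))) (b (b (a (l 17257664) (l 17485616)) (a (l 17521416) (l 17652352))) (b (l 17758136) (l 17929544)))), by decide +kernel⟩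

def k58_B00pm_011_s3 : ∃ t, chk3 f_B00pm_011_s3 t 5 3 1 = true :=
  ⟨(b (a (l 4) (b (l 4) (b (l 4) (a (l 566451727) (l 564938767))))) (b (a (b (a (l 4) (l 568826383)) (a (l 572563727) (l 570474255))) (b (a (l 568525839) (l 566935823)) (a (b (l 568752143) (l 569434895)) (l 568062223)))) (a (b (a (b (l 574539791) (l 576002575)) (b (l 571952655) (b (l 17613136) (l 17754096)))) (b (b (a (l 17671384) (l 17881392)) (l 17914856)) (a (l 18036776) (l 18195592)))) (b (b (a (l 17482688) (l 17884968)) (a (l 17817192) (l 18099416))) (b (l 18206032) (l 18407800)))))), by decide +kernel⟩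

def k59_B00pm_011_s3 : ∃ t, chk3 f_B00pm_011_s3 t 3 1 1 = true :=
  ⟨(a (b (b (l 1) (l 4)) (b (b (a (b (l 4) (l 557193743)) (b (l 1) (l 551834383))) (a (b (a (l 560563215) (l 558372111)) (a (l 563093775) (l 561196559))) (b (a (l 555911183) (l 553262863)) (a (l 558805775) (l 17487936))))) (b (a (b (a (l 565131791) (l 563396623)) (a (l 566587919) (l 18264512))) (b (a (l 17827424) (l 17765400)) (a (l 18245656) (l 18172392)))) (b (a (b (a (l 18086536) (l 18245024)) (l 18339472)) (l 18446816)) (a (l 18570072) (l 6)))))) (b (l 1) (b (b (l 1) (b (l 1) (a (l 17572144) (l 1)))) (b (a (b (l 17844360) (l 18294368)) (l 6)) (l 6))))), by decide +kernel⟩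

theorem t60_B00pm_011_s3 : ∃ t, chk3 f_B00pm_011_s3 t 68 508 1 = true := ex3_a k51_B00pm_011_s3 k52_B00pm_011_s3

theorem t61_B00pm_011_s3 : ∃ t, chk3 f_B00pm_011_s3 t 34 508 1 = true := ex3_a t60_B00pm_011_s3 k53_B00pm_011_s3

theorem t62_B00pm_011_s3 : ∃ t, chk3 f_B00pm_011_s3 t 34 254 1 = true := ex3_b t61_B00pm_011_s3 k54_B00pm_011_s3

theorem t63_B00pm_011_s3 : ∃ t, chk3 f_B00pm_011_s3 t 34 127 1 = true := ex3_b t62_B00pm_011_s3 k55_B00pm_011_s3

theorem t64_B00pm_011_s3 : ∃ t, chk3 f_B00pm_011_s3 t 17 127 1 = true := ex3_a t63_B00pm_011_s3 k56_B00pm_011_s3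

theorem t65_B00pm_011_s3 : ∃ t, chk3 f_B00pm_011_s3 t 68 253 1 = true := ex3_b k47_B00pm_011_s3 k48_B00pm_011_s3

theorem t66_B00pm_011_s3 : ∃ t, chk3 f_B00pm_011_s3 t 34 253 1 = true := ex3_a t65_B00pm_011_s3 k49_B00pm_011_s3

theorem t67_B00pm_011_s3 : ∃ t, chk3 f_B00pm_011_s3 t 34 252 1 = true := ex3_a k45_B00pm_011_s3 k46_B00pm_011_s3

theorem t68_B00pm_011_s3 : ∃ t, chk3 f_B00pm_011_s3 t 34 126 1 = true := ex3_b t67_B00pm_011_s3 t66_B00pm_011_s3

theorem t69_B00pm_011_s3 : ∃ t, chk3 f_B00pm_011_s3 t 17 126 1 = true := ex3_a t68_B00pm_011_s3 k50_B00pm_011_s3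

theorem t70_B00pm_011_s3 : ∃ t, chk3 f_B00pm_011_s3 t 17 63 1 = true := ex3_b t69_B00pm_011_s3 t64_B00pm_011_s3

theorem t71_B00pm_011_s3 : ∃ t, chk3 f_B00pm_011_s3 t 135 255 3 = true := ex3_c k43_B00pm_011_s3 k44_B00pm_011_s3

theorem t72_B00pm_011_s3 : ∃ t, chk3 f_B00pm_011_s3 t 135 255 1 = true := ex3_c k42_B00pm_011_s3 t71_B00pm_011_s3

theorem t73_B00pm_011_s3 : ∃ t, chk3 f_B00pm_011_s3 t 134 255 3 = true := ex3_a k40_B00pm_011_s3 k41_B00pm_011_s3

theorem t74_B00pm_011_s3 : ∃ t, chk3 f_B00pm_011_s3 t 134 255 1 = true := ex3_c k39_B00pm_011_s3 t73_B00pm_011_s3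

theorem t75_B00pm_011_s3 : ∃ t, chk3 f_B00pm_011_s3 t 67 255 1 = true := ex3_a t74_B00pm_011_s3 t72_B00pm_011_s3

theorem t76_B00pm_011_s3 : ∃ t, chk3 f_B00pm_011_s3 t 133 1023 1 = true := ex3_a k37_B00pm_011_s3 k38_B00pm_011_s3

theorem t77_B00pm_011_s3 : ∃ t, chk3 f_B00pm_011_s3 t 264 2047 1 = true := ex3_a k34_B00pm_011_s3 k35_B00pm_011_s3

theorem t78_B00pm_011_s3 : ∃ t, chk3 f_B00pm_011_s3 t 132 2047 1 = true := ex3_a t77_B00pm_011_s3 k36_B00pm_011_s3

theorem t79_B00pm_011_s3 : ∃ t, chk3 f_B00pm_011_s3 t 132 1023 1 = true := ex3_b k33_B00pm_011_s3 t78_B00pm_011_s3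

theorem t80_B00pm_011_s3 : ∃ t, chk3 f_B00pm_011_s3 t 66 1023 1 = true := ex3_a t79_B00pm_011_s3 t76_B00pm_011_s3

theorem t81_B00pm_011_s3 : ∃ t, chk3 f_B00pm_011_s3 t 66 511 1 = true := ex3_b k32_B00pm_011_s3 t80_B00pm_011_s3

theorem t82_B00pm_011_s3 : ∃ t, chk3 f_B00pm_011_s3 t 133 510 1 = true := ex3_b k30_B00pm_011_s3 k31_B00pm_011_s3

theorem t83_B00pm_011_s3 : ∃ t, chk3 f_B00pm_011_s3 t 132 1020 1 = true := ex3_a k27_B00pm_011_s3 k28_B00pm_011_s3

theorem t84_B00pm_011_s3 : ∃ t, chk3 f_B00pm_011_s3 t 132 510 1 = true := ex3_b t83_B00pm_011_s3 k29_B00pm_011_s3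

theorem t85_B00pm_011_s3 : ∃ t, chk3 f_B00pm_011_s3 t 66 510 1 = true := ex3_a t84_B00pm_011_s3 t82_B00pm_011_s3

theorem t86_B00pm_011_s3 : ∃ t, chk3 f_B00pm_011_s3 t 66 255 1 = true := ex3_b t85_B00pm_011_s3 t81_B00pm_011_s3

theorem t87_B00pm_011_s3 : ∃ t, chk3 f_B00pm_011_s3 t 33 255 1 = true := ex3_a t86_B00pm_011_s3 t75_B00pm_011_s3

theorem t88_B00pm_011_s3 : ∃ t, chk3 f_B00pm_011_s3 t 67 1018 1 = true := ex3_a k24_B00pm_011_s3 k25_B00pm_011_s3

theorem t89_B00pm_011_s3 : ∃ t, chk3 f_B00pm_011_s3 t 67 509 1 = true := ex3_b t88_B00pm_011_s3 k26_B00pm_011_s3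

theorem t90_B00pm_011_s3 : ∃ t, chk3 f_B00pm_011_s3 t 67 254 1 = true := ex3_b k23_B00pm_011_s3 t89_B00pm_011_s3

theorem t91_B00pm_011_s3 : ∃ t, chk3 f_B00pm_011_s3 t 66 1019 1 = true := ex3_a k21_B00pm_011_s3 k22_B00pm_011_s3

theorem t92_B00pm_011_s3 : ∃ t, chk3 f_B00pm_011_s3 t 66 509 1 = true := ex3_b k20_B00pm_011_s3 t91_B00pm_011_s3

theorem t93_B00pm_011_s3 : ∃ t, chk3 f_B00pm_011_s3 t 66 254 1 = true := ex3_b k19_B00pm_011_s3 t92_B00pm_011_s3

theorem t94_B00pm_011_s3 : ∃ t, chk3 f_B00pm_011_s3 t 33 254 1 = true := ex3_a t93_B00pm_011_s3 t90_B00pm_011_s3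

theorem t95_B00pm_011_s3 : ∃ t, chk3 f_B00pm_011_s3 t 33 127 1 = true := ex3_b t94_B00pm_011_s3 t87_B00pm_011_s3

theorem t96_B00pm_011_s3 : ∃ t, chk3 f_B00pm_011_s3 t 131 1021 1 = true := ex3_a k16_B00pm_011_s3 k17_B00pm_011_s3

theorem t97_B00pm_011_s3 : ∃ t, chk3 f_B00pm_011_s3 t 131 510 1 = true := ex3_b k15_B00pm_011_s3 t96_B00pm_011_s3

theorem t98_B00pm_011_s3 : ∃ t, chk3 f_B00pm_011_s3 t 65 510 1 = true := ex3_a k14_B00pm_011_s3 t97_B00pm_011_s3

theorem t99_B00pm_011_s3 : ∃ t, chk3 f_B00pm_011_s3 t 65 255 1 = true := ex3_b t98_B00pm_011_s3 k18_B00pm_011_s3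

theorem t100_B00pm_011_s3 : ∃ t, chk3 f_B00pm_011_s3 t 32 255 1 = true := ex3_a k13_B00pm_011_s3 t99_B00pm_011_s3

theorem t101_B00pm_011_s3 : ∃ t, chk3 f_B00pm_011_s3 t 65 509 1 = true := ex3_a k11_B00pm_011_s3 k12_B00pm_011_s3

theorem t102_B00pm_011_s3 : ∃ t, chk3 f_B00pm_011_s3 t 32 509 1 = true := ex3_a k10_B00pm_011_s3 t101_B00pm_011_s3

theorem t103_B00pm_011_s3 : ∃ t, chk3 f_B00pm_011_s3 t 32 254 1 = true := ex3_b k9_B00pm_011_s3 t102_B00pm_011_s3

theorem t104_B00pm_011_s3 : ∃ t, chk3 f_B00pm_011_s3 t 32 127 1 = true := ex3_b t103_B00pm_011_s3 t100_B00pm_011_s3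

theorem t105_B00pm_011_s3 : ∃ t, chk3 f_B00pm_011_s3 t 16 127 1 = true := ex3_a t104_B00pm_011_s3 t95_B00pm_011_s3

theorem t106_B00pm_011_s3 : ∃ t, chk3 f_B00pm_011_s3 t 33 253 1 = true := ex3_a k7_B00pm_011_s3 k8_B00pm_011_s3

theorem t107_B00pm_011_s3 : ∃ t, chk3 f_B00pm_011_s3 t 33 126 1 = true := ex3_b k6_B00pm_011_s3 t106_B00pm_011_s3

theorem t108_B00pm_011_s3 : ∃ t, chk3 f_B00pm_011_s3 t 16 126 1 = true := ex3_a k5_B00pm_011_s3 t107_B00pm_011_s3

theorem t109_B00pm_011_s3 : ∃ t, chk3 f_B00pm_011_s3 t 16 63 1 = true := ex3_b t108_B00pm_011_s3 t105_B00pm_011_s3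

theorem t110_B00pm_011_s3 : ∃ t, chk3 f_B00pm_011_s3 t 8 63 1 = true := ex3_a t109_B00pm_011_s3 t70_B00pm_011_s3

theorem t111_B00pm_011_s3 : ∃ t, chk3 f_B00pm_011_s3 t 8 31 1 = true := ex3_b k4_B00pm_011_s3 t110_B00pm_011_s3

theorem t112_B00pm_011_s3 : ∃ t, chk3 f_B00pm_011_s3 t 4 31 1 = true := ex3_a t111_B00pm_011_s3 k57_B00pm_011_s3

theorem t113_B00pm_011_s3 : ∃ t, chk3 f_B00pm_011_s3 t 4 15 1 = true := ex3_b k3_B00pm_011_s3 t112_B00pm_011_s3

theorem t114_B00pm_011_s3 : ∃ t, chk3 f_B00pm_011_s3 t 4 7 1 = true := ex3_b k2_B00pm_011_s3 t113_B00pm_011_s3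

theorem t115_B00pm_011_s3 : ∃ t, chk3 f_B00pm_011_s3 t 4 3 1 = true := ex3_b k1_B00pm_011_s3 t114_B00pm_011_s3

theorem t116_B00pm_011_s3 : ∃ t, chk3 f_B00pm_011_s3 t 2 3 1 = true := ex3_a t115_B00pm_011_s3 k58_B00pm_011_s3

theorem t117_B00pm_011_s3 : ∃ t, chk3 f_B00pm_011_s3 t 2 1 1 = true := ex3_b k0_B00pm_011_s3 t116_B00pm_011_s3

theorem t118_B00pm_011_s3 : ∃ t, chk3 f_B00pm_011_s3 t 1 1 1 = true := ex3_a t117_B00pm_011_s3 k59_B00pm_011_s3

theorem c_B00pm_011_s3 : CertF 0 536870912 536870912 536870912 33554432 16777216 false true false .pnn 0 1 1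
    ndF0q0 ndF0q1 pcF1 cut_B00pm_011_s3 xt_B00pm_011_s3 :=
  certFK0 (fam := false) (s1 := true) (s2 := false) (a := 0) (b := 1) (c := 1) (cn := .pnn) (n1 := ndF0q0) (n2 := ndF0q1) (pc := pcF1) (cut := cut_B00pm_011_s3) (xt := xt_B00pm_011_s3) (P1 := 0) (W1 := 536870912) (P2 := 536870912) (W2 := 536870912) (P3 := 33554432) (W3 := 16777216)
    rfl rfl rfl t118_B00pm_011_s3

theorem s_B00pm_011_s3 {κ x : ℝ} (hκ : κ * h0 = ken x) (hx : ((33554432 : ℕ) : ℝ) / S ≤ x)
    (hx' : x ≤ (((33554432 : ℕ) : ℝ) + (16777216 : ℕ)) / S)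
    (H : CutB (VF κ) PP tKF tL pcF (Cut.of [[⟨0, 0, 0, 16777216⟩, ⟨1, 1, 0, 16777216⟩, ⟨2, 1, 0, 16777216⟩], [⟨0, 0, 1, 16777216⟩, ⟨1, 1, 2, 16777216⟩, ⟨2, 1, 0, 6291456⟩, ⟨0, 0, 0, 67108864⟩, ⟨0, 1, 0, 1056964608⟩, ⟨1, 0, 0, 1056964608⟩, ⟨1, 1, 0, 67108864⟩]]) 0 1 1 0 0 (sgb true) (sgb false) x) :
    AltB (VF κ) PP tKF tL pcF [⟨4, 0, 0, 2845415833⟩] 0 1 1 0 0 (sgb true) (sgb false) x :=
  strip_altB (m := 2845415833) false rfl hκ covF00 covF01 hx hx' c_B00pm_011_s3 H ((okx hx hx').extB (T := tt) (sideF hx hx') hκ rfl rfl (.O 0 true) (.O 1 false) (Or.inr rfl))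

noncomputable def cut_B00pm_012_s1 : Cut := Cut.of [[⟨4, 0, 0, 1449551462⟩], [⟨0, 0, 0, 33554432⟩, ⟨1, 1, 0, 33554432⟩, ⟨2, 1, 0, 33554432⟩], [⟨0, 0, 1, 16777216⟩, ⟨1, 1, 2, 16777216⟩, ⟨2, 1, 0, 6291456⟩, ⟨0, 0, 0, 67108864⟩, ⟨0, 1, 0, 1056964608⟩, ⟨1, 0, 0, 1056964608⟩, ⟨1, 1, 0, 67108864⟩]]

noncomputable def f_B00pm_012_s1 : ℕ → ℕ → ℕ → ℕ → Bool := onCell 0 536870912 0 536870912 33554432 16777216
    (rowFK 0 false true false .pnp 0 1 2 (qsf 0 536870912 0 536870912 1) ndF0q0 ndF0q2 pcF1 cut_B00pm_012_s1 Ext.none)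

def k0_B00pm_012_s1 : ∃ t, chk3 f_B00pm_012_s1 t 1 1 1 = true :=
  ⟨(a (l 6) (b (a (b (a (l 6) (l 17932136)) (l 6)) (b (a (l 17892000) (b (l 17505744) (l 17558872))) (l 6))) (l 6))), by decide +kernel⟩

theorem c_B00pm_012_s1 : CertF 0 536870912 0 536870912 33554432 16777216 false true false .pnp 0 1 2
    ndF0q0 ndF0q2 pcF1 cut_B00pm_012_s1 Ext.none :=
  certFK0 (fam := false) (s1 := true) (s2 := false) (a := 0) (b := 1) (c := 2) (cn := .pnp) (n1 := ndF0q0) (n2 := ndF0q2) (pc := pcF1) (cut := cut_B00pm_012_s1) (xt := Ext.none) (P1 := 0) (W1 := 536870912) (P2 := 0) (W2 := 536870912) (P3 := 33554432) (W3 := 16777216)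
    rfl rfl rfl k0_B00pm_012_s1

theorem s_B00pm_012_s1 {κ x : ℝ} (hκ : κ * h0 = ken x) (hx : ((33554432 : ℕ) : ℝ) / S ≤ x)
    (hx' : x ≤ (((33554432 : ℕ) : ℝ) + (16777216 : ℕ)) / S)
    (H : CutB (VF κ) PP tKF tL pcF (Cut.of [[⟨0, 0, 0, 33554432⟩, ⟨1, 1, 0, 33554432⟩, ⟨2, 1, 0, 33554432⟩], [⟨0, 0, 1, 16777216⟩, ⟨1, 1, 2, 16777216⟩, ⟨2, 1, 0, 6291456⟩, ⟨0, 0, 0, 67108864⟩, ⟨0, 1, 0, 1056964608⟩, ⟨1, 0, 0, 1056964608⟩, ⟨1, 1, 0, 67108864⟩]]) 0 1 2 0 0 (sgb true) (sgb false) x) :
    AltB (VF κ) PP tKF tL pcF [⟨3, 0, 0, 1449551462⟩] 0 1 2 0 0 (sgb true) (sgb false) x :=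
  strip_altB (m := 1449551462) true rfl hκ covF00 covF02 hx hx' c_B00pm_012_s1 H (noExt_B)

noncomputable def cut_B00pm_012_s3 : Cut := Cut.of [[⟨3, 0, 0, 2845415833⟩], [⟨0, 0, 0, 33554432⟩, ⟨1, 1, 0, 33554432⟩, ⟨2, 1, 0, 33554432⟩], [⟨0, 0, 1, 16777216⟩, ⟨1, 1, 2, 16777216⟩, ⟨2, 1, 0, 6291456⟩, ⟨0, 0, 0, 67108864⟩, ⟨0, 1, 0, 1056964608⟩, ⟨1, 0, 0, 1056964608⟩, ⟨1, 1, 0, 67108864⟩]]

noncomputable def f_B00pm_012_s3 : ℕ → ℕ → ℕ → ℕ → Bool := onCell 536870912 536870912 0 536870912 33554432 16777216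
    (rowFK 2 false true false .pnp 0 1 2 (qsf 0 536870912 0 536870912 1) ndF0q0 ndF0q2 pcF1 cut_B00pm_012_s3 Ext.none)

def k0_B00pm_012_s3 : ∃ t, chk3 f_B00pm_012_s3 t 2 1 1 = true :=
  ⟨(b (l 6) (a (l 6) (l 6))), by decide +kernel⟩

def k1_B00pm_012_s3 : ∃ t, chk3 f_B00pm_012_s3 t 3 2 1 = true :=
  ⟨(l 6), by decide +kernel⟩

def k2_B00pm_012_s3 : ∃ t, chk3 f_B00pm_012_s3 t 6 3 1 = true :=
  ⟨(b (l 6) (b (l 6) (b (l 19155504) (a (l 18603112) (b (l 18469216) (l 18346336)))))), by decide +kernel⟩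

def k3_B00pm_012_s3 : ∃ t, chk3 f_B00pm_012_s3 t 14 3 1 = true :=
  ⟨(b (l 6) (b (b (l 6) (l 18919224)) (b (a (l 18553200) (b (l 18577440) (l 18404600))) (a (b (l 18336544) (l 18142040)) (b (a (l 18233016) (l 18122560)) (a (l 17812920) (b (l 17899880) (a (l 17781504) (l 17421640))))))))), by decide +kernel⟩

def k4_B00pm_012_s3 : ∃ t, chk3 f_B00pm_012_s3 t 15 6 1 = true :=
  ⟨(l 6), by decide +kernel⟩

def k5_B00pm_012_s3 : ∃ t, chk3 f_B00pm_012_s3 t 30 14 1 = true :=
  ⟨(b (l 19011792) (a (l 18764968) (l 18558408))), by decide +kernel⟩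

def k6_B00pm_012_s3 : ∃ t, chk3 f_B00pm_012_s3 t 30 30 1 = true :=
  ⟨(a (b (l 18498592) (l 18084272)) (a (b (l 18406672) (b (l 18179816) (l 18002120))) (b (l 18214376) (b (l 17770488) (a (l 17694208) (c (l 17988872) (l 17321960))))))), by decide +kernel⟩

def k7_B00pm_012_s3 : ∃ t, chk3 f_B00pm_012_s3 t 30 62 1 = true :=
  ⟨(a (a (l 17827536) (b (l 17963872) (l 17439736))) (c (a (b (l 18002232) (l 17612792)) (a (b (l 17860304) (b (l 17670584) (l 17450936))) (b (l 17650688) (b (l 17437864) (a (l 17330752) (l 17069688)))))) (a (b (a (l 17656672) (l 17455928)) (a (b (l 17497120) (l 17384680)) (b (l 17279936) (l 16988368)))) (b (a (b (l 17459168) (l 17248752)) (b (l 17205384) (l 16894256))) (b (a (l 16948312) (b (l 16949896) (l 16873072))) (a (a (l 16942384) (l 16843216)) (l 16744728))))))), by decide +kernel⟩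

def k8_B00pm_012_s3 : ∃ t, chk3 f_B00pm_012_s3 t 30 63 1 = true :=
  ⟨(a (b (a (l 17479664) (c (l 17735192) (a (l 17284888) (b (l 17396688) (l 17118568))))) (b (a (l 17416928) (c (l 17564376) (a (l 17128000) (a (l 17038680) (l 22))))) (c (a (l 17618496) (a (l 17493728) (l 17140480))) (a (a (l 17390992) (l 17045976)) (c (a (l 17097472) (l 22)) (l 22)))))) (b (b (a (c (l 17430400) (a (l 17016584) (a (l 16902616) (l 16816376)))) (b (c (c (l 17218560) (a (l 17310472) (l 16949968))) (a (l 16788080) (l 16746112))) (a (c (l 17188328) (l 16758472)) (a (c (l 17052752) (l 16748784)) (l 16757328))))) (a (b (c (l 17334416) (a (l 17011240) (a (l 16891320) (l 16800584)))) (c (l 17059192) (b (a (l 16966224) (l 16798264)) (l 22)))) (a (c (c (l 17194272) (b (l 16997080) (a (l 17137832) (l 16873560)))) (b (l 16749656) (b (l 16758968) (l 22)))) (b (b (l 16759272) (l 16760584)) (a (l 16763376) (l 16755352)))))) (c (a (b (a (l 17234144) (a (l 17049832) (l 22))) (c (a (l 17193664) (l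 22)) (l 22))) (l 22)) (c (l 22) (a (l 22) (a (l 22) (a (l 22) (a (l 22) (a (l 22) (b (b (l 16758248) (l 16761104)) (b (b (l 16763224) (l 16764624)) (b (l 16766016) (b (l 16767056) (b (l 16767576) (b (l 16767832) (c (l 22) (b (l 16767912) (l 16768000)))))))))))))))))), by decide +kernel⟩

def k9_B00pm_012_s3 : ∃ t, chk3 f_B00pm_012_s3 t 62 14 1 = true :=
  ⟨(b (l 19019024) (b (l 18713864) (a (l 18486888) (a (l 18367472) (l 17921856))))), by decide +kernel⟩

def k10_B00pm_012_s3 : ∃ t, chk3 f_B00pm_012_s3 t 62 30 1 = true :=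
  ⟨(b (c (a (l 18385160) (b (l 18289208) (a (l 18107080) (l 17940848)))) (a (b (l 17972608) (l 17498016)) (b (a (l 17753880) (l 17472712)) (a (l 17308416) (l 16975832))))) (a (c (b (l 18054272) (a (l 17862792) (l 17363992))) (b (a (l 17580984) (l 17140568)) (a (b (l 17378320) (l 17147608)) (b (l 17072656) (l 16900824))))) (a (c (b (l 17654480) (b (l 17407088) (l 17055856))) (b (l 16814952) (b (l 16870288) (l 16722528)))) (b (a (c (l 17496320) (l 16922712)) (c (l 17285744) (l 16742384))) (b (l 16815584) (l 16724176)))))), by decide +kernel⟩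

def k11_B00pm_012_s3 : ∃ t, chk3 f_B00pm_012_s3 t 62 31 1 = true :=
  ⟨(b (b (b (a (a (c (l 17650104) (l 16907472)) (c (l 17201544) (l 16800896))) (a (l 16733072) (l 16735200))) (a (a (c (l 17327704) (l 16741968)) (a (c (l 17166848) (l 16732192)) (l 16777240))) (a (b (l 16732600) (l 16735536)) (a (l 16735312) (l 16736168))))) (a (b (a (c (a (l 17215520) (l 17022968)) (l 16737016)) (b (l 16790536) (l 16739896))) (a (b (l 16774968) (l 16747392)) (b (l 16742848) (l 16745784)))) (a (b (b (l 16738464) (l 16741384)) (b (l 16746920) (a (l 16746840) (l 16747560)))) (b (a (l 16741112) (l 16744552)) (b (a (l 16745432) (l 14)) (l 14)))))) (b (a (b (a (b (l 16747416) (l 16752984)) (b (l 16751336) (a (l 16751296) (l 16751944)))) (a (b (a (l 16752992) (l 16753584)) (a (l 16755912) (b (l 16755760) (l 16757200)))) (b (a (l 16754200) (l 16754824)) (a (b (l 16756352) (l 16757784)) (b (l 16756960) (l 14)))))) (b (a (b (a (l 16749736) (l 16750432)) (a (l 16752608) (l 14))) (l 14))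 (l 14))) (a (a (c (l 22) (b (b (b (l 16758232) (a (l 16759376) (l 16759936))) (b (a (l 16760800) (l 16761352)) (a (l 16762224) (l 16762760)))) (b (b (a (l 16763632) (b (l 16763808) (l 16764504))) (a (b (l 16764680) (l 16765376)) (l 14))) (a (c (l 22) (b (b (l 16765984) (b (l 16766504) (l 16766848))) (a (c (l 22) (b (l 16767192) (a (b (l 16767648) (b (l 16767904) (b (l 16768032) (l 16768120)))) (l 14)))) (l 14)))) (l 14))))) (b (b (a (b (l 16759208) (l 16760632)) (l 14)) (l 14)) (l 14))) (l 14)))), by decide +kernel⟩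

def k12_B00pm_012_s3 : ∃ t, chk3 f_B00pm_012_s3 t 63 7 1 = true :=
  ⟨(a (b (b (l 18939936) (b (l 18070160) (c (b (l 18504240) (l 18170168)) (b (l 17562320) (a (l 17632808) (l 17287088)))))) (b (a (b (c (b (l 18054672) (l 17214872)) (b (l 17133536) (l 16734376))) (b (b (l 16815448) (l 16735640)) (b (l 16720144) (l 16731072)))) (b (b (c (l 17493192) (l 16882088)) (b (l 16897648) (l 16811784))) (b (b (l 16710544) (l 16716040)) (b (a (l 16721264) (l 16721944)) (a (l 16726896) (l 16727536)))))) (b (b (a (b (a (l 16731200) (l 16731904)) (a (l 16736944) (l 16737600))) (b (a (l 16732552) (l 14)) (l 14))) (l 14)) (l 14)))) (b (b (b (l 18958344) (l 18476336)) (b (b (l 17902424) (a (l 18069224) (a (l 17906232) (l 17607968)))) (a (c (b (l 18266032) (l 17765656)) (b (l 17435120) (l 16941256))) (b (c (l 17947208) (l 16993936)) (l 16752216))))) (b (b (b (a (l 16765968) (a (l 16696568) (l 16782064))) (a (a (l 16787808) (l 16789440)) (a (l 16791040) (b (l 16706080) (l 16711328)))))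 (a (b (a (b (l 16711944) (l 16717400)) (b (l 16713528) (l 16718952))) (b (a (l 16722912) (l 14)) (l 14))) (b (b (a (l 16715088) (l 16716600)) (l 14)) (l 14)))) (l 14)))), by decide +kernel⟩

theorem t13_B00pm_012_s3 : ∃ t, chk3 f_B00pm_012_s3 t 62 15 1 = true := ex3_b k10_B00pm_012_s3 k11_B00pm_012_s3

theorem t14_B00pm_012_s3 : ∃ t, chk3 f_B00pm_012_s3 t 62 7 1 = true := ex3_b k9_B00pm_012_s3 t13_B00pm_012_s3

theorem t15_B00pm_012_s3 : ∃ t, chk3 f_B00pm_012_s3 t 31 7 1 = true := ex3_a t14_B00pm_012_s3 k12_B00pm_012_s3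

theorem t16_B00pm_012_s3 : ∃ t, chk3 f_B00pm_012_s3 t 30 31 1 = true := ex3_b k7_B00pm_012_s3 k8_B00pm_012_s3

theorem t17_B00pm_012_s3 : ∃ t, chk3 f_B00pm_012_s3 t 30 15 1 = true := ex3_b k6_B00pm_012_s3 t16_B00pm_012_s3

theorem t18_B00pm_012_s3 : ∃ t, chk3 f_B00pm_012_s3 t 30 7 1 = true := ex3_b k5_B00pm_012_s3 t17_B00pm_012_s3

theorem t19_B00pm_012_s3 : ∃ t, chk3 f_B00pm_012_s3 t 15 7 1 = true := ex3_a t18_B00pm_012_s3 t15_B00pm_012_s3

theorem t20_B00pm_012_s3 : ∃ t, chk3 f_B00pm_012_s3 t 15 3 1 = true := ex3_b k4_B00pm_012_s3 t19_B00pm_012_s3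

theorem t21_B00pm_012_s3 : ∃ t, chk3 f_B00pm_012_s3 t 7 3 1 = true := ex3_a k3_B00pm_012_s3 t20_B00pm_012_s3

theorem t22_B00pm_012_s3 : ∃ t, chk3 f_B00pm_012_s3 t 3 3 1 = true := ex3_a k2_B00pm_012_s3 t21_B00pm_012_s3

theorem t23_B00pm_012_s3 : ∃ t, chk3 f_B00pm_012_s3 t 3 1 1 = true := ex3_b k1_B00pm_012_s3 t22_B00pm_012_s3

theorem t24_B00pm_012_s3 : ∃ t, chk3 f_B00pm_012_s3 t 1 1 1 = true := ex3_a k0_B00pm_012_s3 t23_B00pm_012_s3

theorem c_B00pm_012_s3 : CertF 0 536870912 0 536870912 33554432 16777216 false true false .pnp 0 1 2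
    ndF0q0 ndF0q2 pcF1 cut_B00pm_012_s3 Ext.none :=
  certFK2 (fam := false) (s1 := true) (s2 := false) (a := 0) (b := 1) (c := 2) (cn := .pnp) (n1 := ndF0q0) (n2 := ndF0q2) (pc := pcF1) (cut := cut_B00pm_012_s3) (xt := Ext.none) (P1 := 0) (W1 := 536870912) (P2 := 0) (W2 := 536870912) (P3 := 33554432) (W3 := 16777216)
    rfl rfl rfl (fun _ => rfl) t24_B00pm_012_s3

theorem s_B00pm_012_s3 {κ x : ℝ} (hκ : κ * h0 = ken x) (hx : ((33554432 : ℕ) : ℝ) / S ≤ x)
    (hx' : x ≤ (((33554432 : ℕ) : ℝ) + (16777216 : ℕ)) / S)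
    (H : CutB (VF κ) PP tKF tL pcF (Cut.of [[⟨0, 0, 0, 33554432⟩, ⟨1, 1, 0, 33554432⟩, ⟨2, 1, 0, 33554432⟩], [⟨0, 0, 1, 16777216⟩, ⟨1, 1, 2, 16777216⟩, ⟨2, 1, 0, 6291456⟩, ⟨0, 0, 0, 67108864⟩, ⟨0, 1, 0, 1056964608⟩, ⟨1, 0, 0, 1056964608⟩, ⟨1, 1, 0, 67108864⟩]]) 0 1 2 0 0 (sgb true) (sgb false) x) :
    AltB (VF κ) PP tKF tL pcF [⟨4, 0, 0, 2845415833⟩] 0 1 2 0 0 (sgb true) (sgb false) x :=
  strip_altB (m := 2845415833) false rfl hκ covF00 covF02 hx hx' c_B00pm_012_s3 H (noExt_B)

noncomputable def cut_B00pm_022_s1 : Cut := Cut.of [[⟨4, 0, 0, 1449551462⟩], [⟨0, 0, 0, 33554432⟩, ⟨1, 1, 0, 33554432⟩, ⟨2, 1, 0, 33554432⟩]]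

noncomputable def f_B00pm_022_s1 : ℕ → ℕ → ℕ → ℕ → Bool := onCell 1073741824 536870912 0 536870912 33554432 16777216
    (rowFK 2 false true false .pp 0 2 2 (qsf 0 536870912 0 536870912 2) ndF0q0 ndF0q2 pcF2 cut_B00pm_022_s1 Ext.none)

def k0_B00pm_022_s1 : ∃ t, chk3 f_B00pm_022_s1 t 1 1 1 = true :=
  ⟨(l 6), by decide +kernel⟩

theorem c_B00pm_022_s1 : CertF 0 536870912 0 536870912 33554432 16777216 false true false .pp 0 2 2
    ndF0q0 ndF0q2 pcF2 cut_B00pm_022_s1 Ext.none :=
  certFK2 (fam := false) (s1 := true) (s2 := false) (a := 0) (b := 2) (c := 2) (cn := .pp) (n1 := ndF0q0) (n2 := ndF0q2) (pc := pcF2) (cut := cut_B00pm_022_s1) (xt := Ext.none) (P1 := 0) (W1 := 536870912) (P2 := 0) (W2 := 536870912) (P3 := 33554432) (W3 := 16777216)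
    rfl rfl rfl (fun _ => rfl) k0_B00pm_022_s1

theorem s_B00pm_022_s1 {κ x : ℝ} (hκ : κ * h0 = ken x) (hx : ((33554432 : ℕ) : ℝ) / S ≤ x)
    (hx' : x ≤ (((33554432 : ℕ) : ℝ) + (16777216 : ℕ)) / S)
    (H : CutB (VF κ) PP tKF tL pcF (Cut.of [[⟨0, 0, 0, 33554432⟩, ⟨1, 1, 0, 33554432⟩, ⟨2, 1, 0, 33554432⟩]]) 0 2 2 0 0 (sgb true) (sgb false) x) :
    AltB (VF κ) PP tKF tL pcF [⟨3, 0, 0, 1449551462⟩] 0 2 2 0 0 (sgb true) (sgb false) x :=
  strip_altB (m := 1449551462) true rfl hκ covF00 covF02 hx hx' c_B00pm_022_s1 H (noExt_B)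

noncomputable def cut_B00pm_022_s3 : Cut := Cut.of [[⟨3, 0, 0, 2845415833⟩], [⟨0, 0, 0, 33554432⟩, ⟨1, 1, 0, 33554432⟩, ⟨2, 1, 0, 33554432⟩]]

noncomputable def f_B00pm_022_s3 : ℕ → ℕ → ℕ → ℕ → Bool := onCell 1073741824 536870912 0 536870912 33554432 16777216
    (rowFK 2 false true false .pp 0 2 2 (qsf 0 536870912 0 536870912 2) ndF0q0 ndF0q2 pcF2 cut_B00pm_022_s3 Ext.none)

def k0_B00pm_022_s3 : ∃ t, chk3 f_B00pm_022_s3 t 2 2 1 = true :=
  ⟨(a (l 6) (a (l 6) (l 1))), by decide +kernel⟩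

def k1_B00pm_022_s3 : ∃ t, chk3 f_B00pm_022_s3 t 4 6 1 = true :=
  ⟨(a (b (l 6) (b (a (l 6) (l 19242736)) (a (a (l 19239656) (l 19104520)) (l 18664448)))) (b (b (l 6) (l 19230400)) (a (b (l 19053464) (a (l 18754400) (l 257734800583))) (l 310886019319)))), by decide +kernel⟩

def k2_B00pm_022_s3 : ∃ t, chk3 f_B00pm_022_s3 t 16 14 1 = true :=
  ⟨(a (b (b (l 18701280) (c (l 18853976) (a (l 17988168) (l 17844816)))) (b (b (c (l 18510120) (a (l 17382456) (a (l 17681544) (l 17491112)))) (a (c (l 18254736) (a (l 17019296) (l 17000712))) (c (l 18179136) (a (l 16899792) (b (l 17147736) (l 16784824)))))) (a (a (b (c (l 17567608) (l 16659472)) (a (a (l 16705280) (l 16703128)) (l 16700128))) (b (c (l 17618192) (l 16714448)) (a (l 16696592) (a (l 16694272) (l 16692896))))) (b (a (c (l 17502448) (b (l 16828488) (l 16750512))) (c (c (l 18041552) (l 17322080)) (a (l 16705120) (b (l 16819448) (l 16708352))))) (b (c (c (l 17671376) (a (l 17169048) (a (l 17241512) (l 17150608))))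 (a (a (l 16751728) (l 16756344)) (a (l 16760952) (l 16702624)))) (a (a (l 16714336) (l 16714736)) (a (l 16715688) (a (l 16716776) (l 16717664))))))))) (b (b (l 18725848) (a (l 17966104) (l 18069024))) (b (a (c (l 17920016) (b (l 17375792) (a (l 16870520) (l 16858312)))) (c (l 17849832) (b (l 17506472) (b (l 17266184) (l 16920064))))) (b (b (c (a (l 17857696) (l 17801744)) (a (a (l 16815400) (l 16811624)) (l 16704504))) (c (a (l 17332656) (l 17453520)) (a (a (l 16751680) (l 16755288)) (a (l 16760888) (l 16768424))))) (b (c (a (a (l 17132480) (l 17113192)) (a (l 17179496) (l 17163568))) (a (a (l 16730456) (l 16718560)) (a (l 16706552) (l 16715392)))) (a (a (a (l 16719264) (l 16721872)) (a (l 16725032) (l 16728720))) (a (l 16724768) (l 16735280)))))))), by decide +kernel⟩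

def k3_B00pm_022_s3 : ∃ t, chk3 f_B00pm_022_s3 t 17 14 1 = true :=
  ⟨(b (a (b (l 18594176) (a (l 18008024) (l 17866800))) (b (l 18473608) (a (l 17728888) (a (b (l 18206176) (l 52648374311)) (l 239480639687))))) (a (a (b (c (l 17616328) (b (l 17474736) (b (l 17246312) (l 16910456)))) (b (c (b (l 17751232) (l 17412512)) (b (a (l 16978808) (l 16898112)) (a (l 16777824) (l 16788992)))) (b (c (a (l 17149216) (l 17136352)) (a (l 16724096) (l 16732632))) (a (l 16737272) (a (l 16747848) (b (l 16746416) (a (l 16742488) (l 46204392807)))))))) (b (c (b (l 18183120) (l 17925480)) (b (l 17448040) (b (l 17231984) (l 16822904)))) (a (b (c (b (l 17716592) (l 17469208)) (b (l 16902848) (l 16738912))) (b (a (c (b (l 17425184) (l 16997360)) (l 16744160)) (c (c (l 168075318711) (b (l 56405529527) (l 164316778663))) (b (l 56941804631) (l 114386993719)))) (b (a (a (l 44593767559) (c (c (l 17271352) (l 146599837335)) (l 108481414263))) (l 1)) (l 130493130983)))) (b (b (c (l 44058055959)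 (a (l 16907352) (c (b (l 17210064) (l 129956642199)) (l 81637864039)))) (a (c (c (l 17728472) (l 139620742087)) (b (l 63384233207) (a (l 93449024631) (l 1)))) (l 1))) (l 1))))) (a (a (b (c (b (l 18136104) (l 58553964439)) (b (l 17514872) (a (a (l 27413881175) (c (l 122440865431) (l 69289821319))) (b (l 54257909511) (l 186328538999))))) (b (c (l 241627173815) (l 157873894743)) (l 1))) (b (c (l 243238548167) (b (a (l 36004529495) (l 182571127959)) (l 195455510727))) (l 1))) (a (b (l 245385418247) (l 1)) (l 1))))), by decide +kernel⟩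

def k4_B00pm_022_s3 : ∃ t, chk3 f_B00pm_022_s3 t 32 30 1 = true :=
  ⟨(b (b (a (a (a (b (l 16753344) (b (l 16756992) (l 16717576))) (c (a (l 16742944) (l 16741456)) (b (b (l 16751232) (l 16755032)) (l 16718768)))) (b (a (b (c (l 16897104) (l 16755808)) (l 16759472)) (l 16720224)) (a (b (l 16721304) (l 16725064)) (l 16727736)))) (a (b (a (l 16724800) (l 16708392)) (a (c (l 16732208) (l 16732320)) (a (l 16735656) (l 16737912)))) (b (a (l 16712944) (a (l 16716336) (l 16708112))) (a (a (l 16719192) (l 16721440)) (a (l 16723680) (a (l 16725352) (l 16705496))))))) (b (a (a (b (a (a (l 16762336) (l 16762832)) (a (l 16765096) (l 16767360))) (a (b (l 16722584) (l 16724472)) (a (l 16726912) (l 16729168)))) (a (a (l 16729552) (l 16731808)) (c (l 16735120) (l 16735240)))) (a (a (a (l 16738552) (l 16740792)) (a (l 16722048) (l 16724280))) (a (a (l 16726504) (l 16728728)) (a (c (l 16730976) (l 16730912)) (a (l 16722112) (l 16733704)))))) (b (a (a (a (l 16727296) (l 16731784))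 (a (l 16736264) (l 16719752))) (a (a (l 16724208) (c (l 16749608) (l 16707664))) (a (c (l 16733072) (l 16733024)) (a (l 16736336) (a (l 16717008) (l 16718104)))))) (l 14)))) (l 14)), by decide +kernel⟩

def k5_B00pm_022_s3 : ∃ t, chk3 f_B00pm_022_s3 t 33 30 1 = true :=
  ⟨(b (a (b (b (a (a (l 16721984) (l 16726472)) (a (l 16730936) (l 16724880))) (a (a (l 16718768) (l 16723208)) (a (l 16727616) (b (l 16719736) (l 16723264))))) (b (a (a (b (l 16713688) (l 16738240)) (b (l 16718080) (l 16721632))) (a (b (l 16722448) (l 16725968)) (b (l 16726784) (l 16740760)))) (b (a (a (l 16731312) (l 16735648)) (a (l 16739960) (l 16738992))) (l 14)))) (b (b (a (a (l 16718800) (l 16723168)) (b (l 16727912) (l 16731384))) (a (a (l 16736336) (l 16740648)) (b (l 16740080) (l 16743512)))) (a (b (a (l 16738064) (l 16742312)) (b (a (l 16737984) (l 16742184)) (l 14))) (b (a (b (l 16739576) (l 16742968)) (b (l 16743752) (l 16747120))) (a (b (l 16746344) (l 14)) (b (a (l 16749432) (b (l 16750648)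 (a (l 14) (l 92912173399)))) (a (l 14) (b (l 110092044871) (l 1))))))))) (a (l 14) (a (l 14) (a (l 14) (a (l 14) (l 1)))))), by decide +kernel⟩

def k6_B00pm_022_s3 : ∃ t, chk3 f_B00pm_022_s3 t 16 31 1 = true :=
  ⟨(a (l 14) (a (l 14) (l 1))), by decide +kernel⟩

def k7_B00pm_022_s3 : ∃ t, chk3 f_B00pm_022_s3 t 17 15 1 = true :=
  ⟨(b (a (b (a (b (a (b (b (l 16736456) (l 16745112)) (a (l 16748104) (b (l 16745328) (a (l 19360853367) (b (l 59626168967) (l 110628908935)))))) (b (a (b (l 16742744) (a (l 16745080) (b (l 16746304) (l 91301550999)))) (b (a (b (l 16745016) (l 71437324679)) (l 121366321943)) (l 129956261127))) (a (b (a (b (l 48351877255) (l 100428359047)) (l 1)) (l 1)) (l 1)))) (a (b (a (b (a (l 16746864) (b (l 16748088) (a (l 16749240) (l 54257462647)))) (a (b (l 16749368) (a (l 16750520) (l 75732301671))) (b (a (l 67679236727) (l 123513813607)) (l 1)))) (b (a (b (a (l 16749624) (l 107944554615)) (l 120829458791)) (l 1)) (l 1))) (a (b (a (b (a (l 84322237543)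 (l 1)) (l 1)) (l 1)) (l 1)) (l 1))) (l 1))) (l 1)) (l 1)) (l 1)) (l 1)), by decide +kernel⟩

def k8_B00pm_022_s3 : ∃ t, chk3 f_B00pm_022_s3 t 9 7 1 = true :=
  ⟨(b (a (a (b (a (b (l 18238312) (l 272229781383)) (l 280283173527)) (l 1)) (l 1)) (l 1)) (l 1)), by decide +kernel⟩

def k9_B00pm_022_s3 : ∃ t, chk3 f_B00pm_022_s3 t 5 3 1 = true :=
  ⟨(b (l 1) (l 1)), by decide +kernel⟩

def k10_B00pm_022_s3 : ∃ t, chk3 f_B00pm_022_s3 t 3 1 1 = true :=
  ⟨(l 1), by decide +kernel⟩

theorem t11_B00pm_022_s3 : ∃ t, chk3 f_B00pm_022_s3 t 16 30 1 = true := ex3_a k4_B00pm_022_s3 k5_B00pm_022_s3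

theorem t12_B00pm_022_s3 : ∃ t, chk3 f_B00pm_022_s3 t 16 15 1 = true := ex3_b t11_B00pm_022_s3 k6_B00pm_022_s3

theorem t13_B00pm_022_s3 : ∃ t, chk3 f_B00pm_022_s3 t 8 15 1 = true := ex3_a t12_B00pm_022_s3 k7_B00pm_022_s3

theorem t14_B00pm_022_s3 : ∃ t, chk3 f_B00pm_022_s3 t 8 14 1 = true := ex3_a k2_B00pm_022_s3 k3_B00pm_022_s3

theorem t15_B00pm_022_s3 : ∃ t, chk3 f_B00pm_022_s3 t 8 7 1 = true := ex3_b t14_B00pm_022_s3 t13_B00pm_022_s3

theorem t16_B00pm_022_s3 : ∃ t, chk3 f_B00pm_022_s3 t 4 7 1 = true := ex3_a t15_B00pm_022_s3 k8_B00pm_022_s3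

theorem t17_B00pm_022_s3 : ∃ t, chk3 f_B00pm_022_s3 t 4 3 1 = true := ex3_b k1_B00pm_022_s3 t16_B00pm_022_s3

theorem t18_B00pm_022_s3 : ∃ t, chk3 f_B00pm_022_s3 t 2 3 1 = true := ex3_a t17_B00pm_022_s3 k9_B00pm_022_s3

theorem t19_B00pm_022_s3 : ∃ t, chk3 f_B00pm_022_s3 t 2 1 1 = true := ex3_b k0_B00pm_022_s3 t18_B00pm_022_s3

theorem t20_B00pm_022_s3 : ∃ t, chk3 f_B00pm_022_s3 t 1 1 1 = true := ex3_a t19_B00pm_022_s3 k10_B00pm_022_s3

theorem c_B00pm_022_s3 : CertF 0 536870912 0 536870912 33554432 16777216 false true false .pp 0 2 2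
    ndF0q0 ndF0q2 pcF2 cut_B00pm_022_s3 Ext.none :=
  certFK2 (fam := false) (s1 := true) (s2 := false) (a := 0) (b := 2) (c := 2) (cn := .pp) (n1 := ndF0q0) (n2 := ndF0q2) (pc := pcF2) (cut := cut_B00pm_022_s3) (xt := Ext.none) (P1 := 0) (W1 := 536870912) (P2 := 0) (W2 := 536870912) (P3 := 33554432) (W3 := 16777216)
    rfl rfl rfl (fun _ => rfl) t20_B00pm_022_s3

theorem s_B00pm_022_s3 {κ x : ℝ} (hκ : κ * h0 = ken x) (hx : ((33554432 : ℕ) : ℝ) / S ≤ x)
    (hx' : x ≤ (((33554432 : ℕ) : ℝ) + (16777216 : ℕ)) / S)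
    (H : CutB (VF κ) PP tKF tL pcF (Cut.of [[⟨0, 0, 0, 33554432⟩, ⟨1, 1, 0, 33554432⟩, ⟨2, 1, 0, 33554432⟩]]) 0 2 2 0 0 (sgb true) (sgb false) x) :
    AltB (VF κ) PP tKF tL pcF [⟨4, 0, 0, 2845415833⟩] 0 2 2 0 0 (sgb true) (sgb false) x :=
  strip_altB (m := 2845415833) false rfl hκ covF00 covF02 hx hx' c_B00pm_022_s3 H (noExt_B)

noncomputable def cut_B00pm_101_s1 : Cut := Cut.of [[⟨4, 0, 0, 1449551462⟩], [⟨0, 1, 0, 33554432⟩, ⟨1, 0, 0, 33554432⟩, ⟨2, 1, 0, 33554432⟩]]

noncomputable def f_B00pm_101_s1 : ℕ → ℕ → ℕ → ℕ → Bool := onCell 0 536870912 536870912 536870912 33554432 16777216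
    (rowFK 2 false true false .npn 1 0 1 (qsf 536870912 536870912 536870912 536870912 0) ndF0q1 ndF0q1 pcF0 cut_B00pm_101_s1 Ext.none)

def k0_B00pm_101_s1 : ∃ t, chk3 f_B00pm_101_s1 t 1 1 1 = true :=
  ⟨(a (b (l 6) (b (l 6) (a (a (b (l 6) (a (b (b (c (c (l 18592960) (l 18033648)) (l 17880224)) (c (c (l 18452224) (l 17987936)) (l 17721248))) (b (c (b (c (l 17868344) (l 17566960)) (a (c (l 17636928) (l 17392296)) (l 17527256))) (l 17615248)) (a (a (l 14) (b (c (c (l 17364408) (l 17181344)) (l 17119624)) (l 14))) (b (l 17448184) (l 17176584))))) (b (b (l 6) (c (l 18143928) (l 17652896))) (b (c (l 17836512) (l 17387392)) (b (l 17405064) (l 17291080)))))) (b (l 6) (b (l 6) (b (c (a (l 17744680) (l 17553464)) (a (l 17300536) (l 17349792))) (a (b (l 17330320) (l 17340544)) (b (l 17359272) (l 17418592))))))) (b (l 6) (b (l 6) (a (b (l 6) (a (l 17782280) (l 6))) (l 6))))))) (l 6)), by decide +kernel⟩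

theorem c_B00pm_101_s1 : CertF 536870912 536870912 536870912 536870912 33554432 16777216 false true false .npn 1 0 1
    ndF0q1 ndF0q1 pcF0 cut_B00pm_101_s1 Ext.none :=
  certFK2 (fam := false) (s1 := true) (s2 := false) (a := 1) (b := 0) (c := 1) (cn := .npn) (n1 := ndF0q1) (n2 := ndF0q1) (pc := pcF0) (cut := cut_B00pm_101_s1) (xt := Ext.none) (P1 := 536870912) (W1 := 536870912) (P2 := 536870912) (W2 := 536870912) (P3 := 33554432) (W3 := 16777216)
    rfl rfl rfl (fun _ => rfl) k0_B00pm_101_s1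

theorem s_B00pm_101_s1 {κ x : ℝ} (hκ : κ * h0 = ken x) (hx : ((33554432 : ℕ) : ℝ) / S ≤ x)
    (hx' : x ≤ (((33554432 : ℕ) : ℝ) + (16777216 : ℕ)) / S)
    (H : CutB (VF κ) PP tKF tL pcF (Cut.of [[⟨0, 1, 0, 33554432⟩, ⟨1, 0, 0, 33554432⟩, ⟨2, 1, 0, 33554432⟩]]) 1 0 1 0 0 (sgb true) (sgb false) x) :
    AltB (VF κ) PP tKF tL pcF [⟨3, 0, 0, 1449551462⟩] 1 0 1 0 0 (sgb true) (sgb false) x :=
  strip_altB (m := 1449551462) true rfl hκ covF01 covF01 hx hx' c_B00pm_101_s1 H (noExt_B)

noncomputable def cut_B00pm_101_s3 : Cut := Cut.of [[⟨3, 0, 0, 2845415833⟩], [⟨0, 1, 0, 33554432⟩, ⟨1, 0, 0, 33554432⟩, ⟨2, 1, 0, 33554432⟩]]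

noncomputable def xt_B00pm_101_s3 : Ext := strExt dd false true false .u0 .u0m .s0m .npn 1 0 1 rfl rfl gl0 vv ndF0q1 ndF0q1

noncomputable def f_B00pm_101_s3 : ℕ → ℕ → ℕ → ℕ → Bool := onCell 536870912 536870912 536870912 536870912 33554432 16777216
    (rowFK 0 false true false .npn 1 0 1 (qsf 536870912 536870912 536870912 536870912 0) ndF0q1 ndF0q1 pcF0 cut_B00pm_101_s3 xt_B00pm_101_s3)

def k0_B00pm_101_s3 : ∃ t, chk3 f_B00pm_101_s3 t 1 1 1 = true :=
  ⟨(a (b (a (a (b (b (l 4) (c (l 549253647) (l 547429391))) (b (c (b (l 549579791) (a (l 548046863) (l 17187192))) (b (a (l 547047439) (l 546858511)) (a (l 544861199) (l 17119968)))) (b (a (c (l 17319184) (l 17068816)) (l 17463984)) (c (c (l 17642136) (l 17331320)) (l 17370096))))) (b (b (l 548094991) (l 548057103)) (b (b (l 548051983) (a (l 17422968) (l 17442848))) (c (a (l 17786808) (l 17835000)) (l 17616448))))) (b (a (b (l 1) (a (l 145527108919) (l 1))) (l 1)) (b (a (c (a (l 17664080) (l 17682936)) (l 17714440))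 (c (c (l 18080448) (l 17786080)) (l 100430412103))) (a (c (c (l 18117208) (l 17766128)) (l 17764760)) (l 6))))) (b (a (a (b (c (c (a (l 17887160) (l 17938744)) (l 17741384)) (b (l 17478616) (l 17537648))) (a (b (c (l 17908800) (l 17510432)) (l 6)) (l 6))) (b (b (c (l 17961368) (l 17388352)) (l 6)) (l 6))) (l 6)) (l 6))) (b (a (b (l 1) (l 6)) (l 1)) (l 6))), by decide +kernel⟩

theorem c_B00pm_101_s3 : CertF 536870912 536870912 536870912 536870912 33554432 16777216 false true false .npn 1 0 1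
    ndF0q1 ndF0q1 pcF0 cut_B00pm_101_s3 xt_B00pm_101_s3 :=
  certFK0 (fam := false) (s1 := true) (s2 := false) (a := 1) (b := 0) (c := 1) (cn := .npn) (n1 := ndF0q1) (n2 := ndF0q1) (pc := pcF0) (cut := cut_B00pm_101_s3) (xt := xt_B00pm_101_s3) (P1 := 536870912) (W1 := 536870912) (P2 := 536870912) (W2 := 536870912) (P3 := 33554432) (W3 := 16777216)
    rfl rfl rfl k0_B00pm_101_s3

theorem s_B00pm_101_s3 {κ x : ℝ} (hκ : κ * h0 = ken x) (hx : ((33554432 : ℕ) : ℝ) / S ≤ x)
    (hx' : x ≤ (((33554432 : ℕ) : ℝ) + (16777216 : ℕ)) / S)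
    (H : CutB (VF κ) PP tKF tL pcF (Cut.of [[⟨0, 1, 0, 33554432⟩, ⟨1, 0, 0, 33554432⟩, ⟨2, 1, 0, 33554432⟩]]) 1 0 1 0 0 (sgb true) (sgb false) x) :
    AltB (VF κ) PP tKF tL pcF [⟨4, 0, 0, 2845415833⟩] 1 0 1 0 0 (sgb true) (sgb false) x :=
  strip_altB (m := 2845415833) false rfl hκ covF01 covF01 hx hx' c_B00pm_101_s3 H ((okx hx hx').extB (T := tt) (sideF hx hx') hκ rfl rfl (.O 1 true) (.O 1 false) (Or.inl rfl))

noncomputable def cut_B00pm_102_s1 : Cut := Cut.of [[⟨4, 0, 0, 1449551462⟩], [⟨0, 1, 0, 12582912⟩, ⟨1, 0, 0, 12582912⟩, ⟨2, 1, 0, 12582912⟩]]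

noncomputable def xt_B00pm_102_s1 : Ext := strExt dd false true false .u0 .u2 .u0m .npp 1 0 2 rfl rfl gf0 vv ndF0q1 ndF0q2

noncomputable def f_B00pm_102_s1 : ℕ → ℕ → ℕ → ℕ → Bool := onCell 536870912 536870912 0 536870912 33554432 16777216
    (rowFK 0 false true false .npp 1 0 2 (qsf 536870912 536870912 0 536870912 0) ndF0q1 ndF0q2 pcF0 cut_B00pm_102_s1 xt_B00pm_102_s1)

def k0_B00pm_102_s1 : ∃ t, chk3 f_B00pm_102_s1 t 2 1 1 = true :=
  ⟨(b (a (b (l 2) (a (l 2) (a (l 2) (l 17664456)))) (b (a (l 548797711) (a (l 549459215) (l 3))) (b (a (a (l 17268968) (l 549391887)) (a (l 549858575) (l 551609103))) (a (l 548851215) (a (l 549452047) (l 551362319)))))) (a (b (l 6) (l 6)) (b (a (b (l 17683880) (l 6)) (b (a (l 17362632) (l 17441312)) (l 17832920))) (l 6)))), by decide +kernel⟩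

def k1_B00pm_102_s1 : ∃ t, chk3 f_B00pm_102_s1 t 3 1 1 = true :=
  ⟨(b (a (b (l 3) (a (b (a (l 553443855) (l 3)) (a (l 552885519) (l 554247183))) (l 3))) (l 3)) (a (b (a (b (a (l 552277007) (l 553299471)) (a (l 17631584) (l 552930831))) (b (a (l 553712911) (l 553266703)) (a (b (l 553040399) (l 17374384)) (a (l 552256527) (l 552027151))))) (b (a (a (l 17665392) (l 17736312)) (a (b (l 17451272) (l 17474880)) (b (l 552042255) (l 17459320)))) (a (l 6) (a (l 17775736) (l 17775656))))) (b (a (b (l 3) (a (l 551882767) (b (l 3) (l 548925967)))) (l 3)) (b (a (a (b (l 550358287) (l 17333680)) (a (l 549082127) (l 548417039))) (a (a (l 547842831) (b (l 3) (l 547198735))) (l 3))) (a (b (a (l 17338200) (a (l 17129616) (b (l 16937832) (l 16990000)))) (b (l 17623648) (l 17560120))) (b (a (a (b (l 547522831) (l 16994968)) (a (l 547214863) (l 546961423))) (a (a (l 546826255) (a (l 546668559) (l 3))) (l 3))) (a (a (l 17187576) (b (l 17044176) (l 16990704))) (b (a (a (a (l 16922312)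 (l 546459919)) (a (l 546353679) (l 546240015))) (a (a (l 546122511) (a (l 545986063) (l 3))) (l 3))) (b (a (l 16925400) (a (a (a (l 16890792) (l 545854479)) (a (l 545782543) (l 545710607))) (a (a (a (l 545628687) (l 545594127)) (a (l 545561871) (l 3))) (l 3)))) (a (l 17014160) (b (a (l 16850240) (a (a (a (l 16833600) (l 545470223)) (l 14)) (l 14))) (a (l 16895200) (l 14))))))))))))), by decide +kernel⟩

theorem t2_B00pm_102_s1 : ∃ t, chk3 f_B00pm_102_s1 t 1 1 1 = true := ex3_a k0_B00pm_102_s1 k1_B00pm_102_s1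

theorem c_B00pm_102_s1 : CertF 536870912 536870912 0 536870912 33554432 16777216 false true false .npp 1 0 2
    ndF0q1 ndF0q2 pcF0 cut_B00pm_102_s1 xt_B00pm_102_s1 :=
  certFK0 (fam := false) (s1 := true) (s2 := false) (a := 1) (b := 0) (c := 2) (cn := .npp) (n1 := ndF0q1) (n2 := ndF0q2) (pc := pcF0) (cut := cut_B00pm_102_s1) (xt := xt_B00pm_102_s1) (P1 := 536870912) (W1 := 536870912) (P2 := 0) (W2 := 536870912) (P3 := 33554432) (W3 := 16777216)
    rfl rfl rfl t2_B00pm_102_s1

theorem s_B00pm_102_s1 {κ x : ℝ} (hκ : κ * h0 = ken x) (hx : ((33554432 : ℕ) : ℝ) / S ≤ x)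
    (hx' : x ≤ (((33554432 : ℕ) : ℝ) + (16777216 : ℕ)) / S)
    (H : CutB (VF κ) PP tKF tL pcF (Cut.of [[⟨0, 1, 0, 12582912⟩, ⟨1, 0, 0, 12582912⟩, ⟨2, 1, 0, 12582912⟩]]) 1 0 2 0 0 (sgb true) (sgb false) x) :
    AltB (VF κ) PP tKF tL pcF [⟨3, 0, 0, 1449551462⟩] 1 0 2 0 0 (sgb true) (sgb false) x :=
  strip_altB (m := 1449551462) true rfl hκ covF01 covF02 hx hx' c_B00pm_102_s1 H ((okx hx hx').extB (T := tt) (sideF hx hx') hκ rfl rfl (.O 1 true) (.O 2 false) (Or.inl rfl))

noncomputable def cut_B00pm_102_s3 : Cut := Cut.of [[⟨3, 0, 0, 2845415833⟩], [⟨0, 1, 0, 12582912⟩, ⟨1, 0, 0, 12582912⟩, ⟨2, 1, 0, 12582912⟩]]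

noncomputable def f_B00pm_102_s3 : ℕ → ℕ → ℕ → ℕ → Bool := onCell 536870912 536870912 0 536870912 33554432 16777216
    (rowFK 0 false true false .npp 1 0 2 (qsf 536870912 536870912 0 536870912 0) ndF0q1 ndF0q2 pcF0 cut_B00pm_102_s3 Ext.none)

def k0_B00pm_102_s3 : ∃ t, chk3 f_B00pm_102_s3 t 1 1 1 = true :=
  ⟨(l 6), by decide +kernel⟩

theorem c_B00pm_102_s3 : CertF 536870912 536870912 0 536870912 33554432 16777216 false true false .npp 1 0 2
    ndF0q1 ndF0q2 pcF0 cut_B00pm_102_s3 Ext.none :=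
  certFK0 (fam := false) (s1 := true) (s2 := false) (a := 1) (b := 0) (c := 2) (cn := .npp) (n1 := ndF0q1) (n2 := ndF0q2) (pc := pcF0) (cut := cut_B00pm_102_s3) (xt := Ext.none) (P1 := 536870912) (W1 := 536870912) (P2 := 0) (W2 := 536870912) (P3 := 33554432) (W3 := 16777216)
    rfl rfl rfl k0_B00pm_102_s3

theorem s_B00pm_102_s3 {κ x : ℝ} (hκ : κ * h0 = ken x) (hx : ((33554432 : ℕ) : ℝ) / S ≤ x)
    (hx' : x ≤ (((33554432 : ℕ) : ℝ) + (16777216 : ℕ)) / S)
    (H : CutB (VF κ) PP tKF tL pcF (Cut.of [[⟨0, 1, 0, 12582912⟩, ⟨1, 0, 0, 12582912⟩, ⟨2, 1, 0, 12582912⟩]]) 1 0 2 0 0 (sgb true) (sgb false) x) :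
    AltB (VF κ) PP tKF tL pcF [⟨4, 0, 0, 2845415833⟩] 1 0 2 0 0 (sgb true) (sgb false) x :=
  strip_altB (m := 2845415833) false rfl hκ covF01 covF02 hx hx' c_B00pm_102_s3 H (noExt_B)

noncomputable def cut_B00pm_112_s1 : Cut := Cut.of [[⟨4, 0, 0, 1449551462⟩]]

noncomputable def xt_B00pm_112_s1 : Ext := strExt dd false true false .u0 .u2 .u0m .dn 1 1 2 rfl rfl gf1 vv ndF0q1 ndF0q2

noncomputable def f_B00pm_112_s1 : ℕ → ℕ → ℕ → ℕ → Bool := onCell 536870912 536870912 0 536870912 33554432 16777216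
    (rowFK 0 false true false .dn 1 1 2 (qsf 536870912 536870912 0 536870912 1) ndF0q1 ndF0q2 pcF1 cut_B00pm_112_s1 xt_B00pm_112_s1)

def k0_B00pm_112_s1 : ∃ t, chk3 f_B00pm_112_s1 t 1 1 1 = true :=
  ⟨(a (b (a (b (a (l 551704591) (l 554502159)) (a (l 18173640) (b (l 550956047) (l 17600920)))) (a (b (b (l 556467471) (l 554167311)) (b (b (l 132642061303) (l 551496463)) (l 17825856))) (l 1))) (a (b (l 6) (l 6)) (b (l 1) (l 1)))) (l 1)), by decide +kernel⟩

theorem c_B00pm_112_s1 : CertF 536870912 536870912 0 536870912 33554432 16777216 false true false .dn 1 1 2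
    ndF0q1 ndF0q2 pcF1 cut_B00pm_112_s1 xt_B00pm_112_s1 :=
  certFK0 (fam := false) (s1 := true) (s2 := false) (a := 1) (b := 1) (c := 2) (cn := .dn) (n1 := ndF0q1) (n2 := ndF0q2) (pc := pcF1) (cut := cut_B00pm_112_s1) (xt := xt_B00pm_112_s1) (P1 := 536870912) (W1 := 536870912) (P2 := 0) (W2 := 536870912) (P3 := 33554432) (W3 := 16777216)
    rfl rfl rfl k0_B00pm_112_s1

theorem s_B00pm_112_s1 {κ x : ℝ} (hκ : κ * h0 = ken x) (hx : ((33554432 : ℕ) : ℝ) / S ≤ x)
    (hx' : x ≤ (((33554432 : ℕ) : ℝ) + (16777216 : ℕ)) / S) :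
    AltB (VF κ) PP tKF tL pcF [⟨3, 0, 0, 1449551462⟩] 1 1 2 0 0 (sgb true) (sgb false) x :=
  strip_altB (m := 1449551462) true rfl hκ covF01 covF02 hx hx' c_B00pm_112_s1 cutB_nil ((okx hx hx').extB (T := tt) (sideF hx hx') hκ rfl rfl (.O 1 true) (.O 2 false) (Or.inr rfl))

noncomputable def cut_B00pm_112_s3 : Cut := Cut.of [[⟨3, 0, 0, 2845415833⟩]]

noncomputable def f_B00pm_112_s3 : ℕ → ℕ → ℕ → ℕ → Bool := onCell 536870912 536870912 0 536870912 33554432 16777216
    (rowFK 0 false true false .dn 1 1 2 (qsf 536870912 536870912 0 536870912 1) ndF0q1 ndF0q2 pcF1 cut_B00pm_112_s3 Ext.none)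

def k0_B00pm_112_s3 : ∃ t, chk3 f_B00pm_112_s3 t 1 1 1 = true :=
  ⟨(l 6), by decide +kernel⟩

theorem c_B00pm_112_s3 : CertF 536870912 536870912 0 536870912 33554432 16777216 false true false .dn 1 1 2
    ndF0q1 ndF0q2 pcF1 cut_B00pm_112_s3 Ext.none :=
  certFK0 (fam := false) (s1 := true) (s2 := false) (a := 1) (b := 1) (c := 2) (cn := .dn) (n1 := ndF0q1) (n2 := ndF0q2) (pc := pcF1) (cut := cut_B00pm_112_s3) (xt := Ext.none) (P1 := 536870912) (W1 := 536870912) (P2 := 0) (W2 := 536870912) (P3 := 33554432) (W3 := 16777216)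
    rfl rfl rfl k0_B00pm_112_s3

theorem s_B00pm_112_s3 {κ x : ℝ} (hκ : κ * h0 = ken x) (hx : ((33554432 : ℕ) : ℝ) / S ≤ x)
    (hx' : x ≤ (((33554432 : ℕ) : ℝ) + (16777216 : ℕ)) / S) :
    AltB (VF κ) PP tKF tL pcF [⟨4, 0, 0, 2845415833⟩] 1 1 2 0 0 (sgb true) (sgb false) x :=
  strip_altB (m := 2845415833) false rfl hκ covF01 covF02 hx hx' c_B00pm_112_s3 cutB_nil (noExt_B)

end Pool.Agent.Strip051.G.I1_32_3_64.Tab.St.C
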