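import Pool.Agent.Strip051.G.I1_32_3_64.Tab
import Pool.Agent.Strip051.PB.RowK

/-! # Certificates F2 (generated) -/

set_option linter.all false
set_option maxRecDepth 100000

namespace Pool.Agent.Strip051.G.I1_32_3_64.Tab.C.FB01

open Pool.Agent.Strip051.PB Pool.Agent.Strip051.PB.T
open Pool.Agent.Strip051.G.I1_32_3_64.Tab

noncomputable def cut_pp_012_a : Cut := Cut.of [[⟨0, 0, 0, 33554432⟩, ⟨1, 1, 0, 33554432⟩, ⟨2, 1, 0, 33554432⟩]]

noncomputable def f_pp_012_a : ℕ → ℕ → ℕ → ℕ → Bool := onCell 536870912 536870912 0 536870912 33554432 16777216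
    (rowFK 2 false true true .pnp 0 1 2 (qsf 0 536870912 0 536870912 1) ndF0q0 ndF1q2a pcF1 cut_pp_012_a Ext.none)

def k0_pp_012_a : ∃ t, chk3 f_pp_012_a t 2 1 1 = true :=
  ⟨(l 3), by decide +kernel⟩

def k1_pp_012_a : ∃ t, chk3 f_pp_012_a t 6 1 1 = true :=
  ⟨(b (a (b (l 3) (l 3)) (b (a (l 87678231959) (l 62445728135)) (a (l 3) (l 93583886151)))) (l 3)), by decide +kernel⟩

def k2_pp_012_a : ∃ t, chk3 f_pp_012_a t 7 2 1 = true :=
  ⟨(a (b (a (l 17259592) (l 17524976)) (a (b (l 61908897527) (a (l 84456921655) (l 67814001559))) (b (l 17445384) (a (l 17311552) (l 17336984))))) (b (a (l 17831120) (l 18208760)) (a (a (l 17518608) (l 17740568)) (b (l 18098704) (l 18000840))))), by decide +kernel⟩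

def k3_pp_012_a : ∃ t, chk3 f_pp_012_a t 14 3 1 = true :=
  ⟨(b (a (l 3) (b (a (l 71572160455) (b (l 17224616) (l 17027352))) (b (a (l 3) (b (l 16946848) (l 3))) (l 3)))) (l 3)), by decide +kernel⟩

def k4_pp_012_a : ∃ t, chk3 f_pp_012_a t 15 6 1 = true :=
  ⟨(a (b (a (l 17245592) (l 17540296)) (a (b (l 9831995495) (a (l 3) (l 38822905255))) (b (l 17392032) (a (l 17211768) (l 17314928))))) (b (a (l 17752936) (l 17986000)) (a (b (l 17608400) (b (l 17514528) (l 17440928))) (b (l 17841544) (a (l 17646416) (l 17751464)))))), by decide +kernel⟩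

def k5_pp_012_a : ∃ t, chk3 f_pp_012_a t 30 7 1 = true :=
  ⟨(b (a (l 3) (b (a (b (l 17093624) (l 3)) (b (l 17197256) (l 17000640))) (b (a (l 3) (b (l 16966592) (l 3))) (l 3)))) (l 3)), by decide +kernel⟩

def k6_pp_012_a : ∃ t, chk3 f_pp_012_a t 31 14 1 = true :=
  ⟨(a (b (b (a (l 17303296) (l 17410248)) (a (l 17209768) (l 17310952))) (b (a (b (l 17131912) (l 16991992)) (b (l 17226896) (l 17102880))) (a (a (l 3) (b (l 17019152) (l 30232769895))) (b (a (l 17082312) (l 17033352)) (b (a (l 17033408) (l 17021960)) (a (l 16916104) (a (l 17000728) (l 16989896)))))))) (b (b (a (l 17512032) (l 17596424)) (a (l 17400280) (a (l 17448488) (l 17275192)))) (b (b (a (l 17239232) (a (l 17329448) (a (l 17305640) (l 17211032)))) (a (a (l 17216824) (l 17131264)) (a (a (l 17154568) (l 17085336)) (c (l 17359216) (a (l 16990240) (b (l 17068008) (l 16953048))))))) (a (b (a (a (l 17094632) (l 17061032)) (a (l 16980832) (b (l 17128592) (l 17017128)))) (c (a (l 17137616) (b (l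 17178384) (l 17107648))) (a (b (a (l 17005384) (l 16998568)) (a (l 16944264) (l 16891320))) (a (b (l 16963512) (l 16829960)) (b (l 16898528) (l 16779160)))))) (a (c (b (l 17152336) (a (l 17043288) (b (l 17165128) (l 17035824)))) (b (a (b (l 17045336) (l 16946336)) (b (l 16973184) (l 16866080))) (a (b (l 16822488) (l 16767856)) (b (l 16795688) (l 16761424))))) (a (c (b (l 17223144) (b (l 17099832) (l 16897312))) (b (l 16752072) (l 16756048))) (a (c (b (l 17207768) (l 16820976)) (b (l 16784512) (l 16750232))) (b (c (l 17130536) (l 16747784)) (l 16751000))))))))), by decide +kernel⟩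

def k7_pp_012_a : ∃ t, chk3 f_pp_012_a t 62 15 1 = true :=
  ⟨(b (a (l 3) (b (a (a (l 3) (b (b (l 16910728) (l 18958389735)) (l 3))) (a (b (b (l 16901720) (a (l 16274021943) (a (l 16866400) (l 16868016)))) (a (l 3) (b (b (l 16818768) (l 9294640087)) (l 3)))) (b (b (l 16851792) (b (l 16859384) (a (l 16860320) (l 16861112)))) (b (c (l 16972808) (a (b (l 16828224) (a (l 16812056) (l 16809392))) (b (l 16822768) (l 16788608)))) (b (a (b (l 1778410775) (l 7147106615)) (b (l 16786040) (l 16777696))) (a (l 3) (b (l 2852127559) (a (l 3) (l 16777280))))))))) (b (a (l 3) (a (l 3) (b (a (l 3) (a (l 3) (b (l 6610222423) (l 3)))) (l 3)))) (l 3)))) (l 3)), by decide +kernel⟩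

def k8_pp_012_a : ∃ t, chk3 f_pp_012_a t 63 60 1 = true :=
  ⟨(b (b (a (c (a (l 17072528) (a (l 17078016) (l 17051080))) (a (a (a (l 16906032) (l 16879296)) (b (l 16899200) (l 16834200))) (a (l 16767808) (l 16764224)))) (a (c (a (l 16971976) (a (l 16972408) (l 16932936))) (a (l 16761168) (l 16757896))) (a (l 16755416) (l 16754808)))) (a (a (a (b (l 16817552) (b (l 16843560) (l 16811936))) (c (l 17028792) (b (l 16810936) (l 16771800)))) (a (c (l 16983944) (a (l 16776104) (l 16777544))) (c (l 16845640) (l 16767248)))) (a (a (l 16764320) (l 16760568)) (a (l 16758904) (a (l 16753824) (l 16752136)))))) (a (b (a (c (a (l 16938056) (c (l 17021544) (l 16876096))) (a (a (a (l 16774808) (l 16774048)) (l 16774640)) (b (l 16771920) (l 16773384)))) (b (a (c (l 16964456) (l 16770336)) (l 16766904)) (a (l 16770296) (l 16768456)))) (a (a (b (c (l 16925640) (a (l 16776328) (l 16774008))) (a (b (l 16777896) (l 16777088)) (l 16775904))) (a (b (l 16783368) (l 16773464)) (a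 (l 16773144) (l 16772552)))) (a (a (a (l 16771064) (l 16769928)) (l 16770216)) (a (l 16769256) (l 16768296))))) (a (a (a (b (l 16772960) (l 16765576)) (b (l 16762928) (l 16764144))) (a (b (l 16761432) (l 16762672)) (b (l 16759904) (l 16761176)))) (a (b (l 16760184) (a (l 16759656) (l 16758104))) (a (a (l 16758848) (l 16758040)) (b (l 16753496) (l 16756208))))))), by decide +kernel⟩

def k9_pp_012_a : ∃ t, chk3 f_pp_012_a t 63 122 1 = true :=
  ⟨(a (a (a (a (b (b (a (a (l 4999610631) (l 5536480855)) (a (l 3388996151) (l 16776408))) (a (l 3) (b (l 3925867927) (l 3925867847)))) (l 3)) (b (a (b (l 16776312) (b (l 16776248) (l 2852125703))) (b (l 16775744) (a (l 16776088) (l 16775528)))) (a (b (b (l 3925867207) (l 3)) (l 3)) (b (b (c (l 16819232) (l 16776432)) (a (l 3388996343) (l 16776568))) (b (c (l 16776592) (l 2852125383)) (l 3)))))) (a (a (b (b (l 16777656) (l 16775592)) (b (b (l 16776840) (l 16776112)) (b (a (l 3388995943) (l 16776032)) (a (l 3) (l 2852124839)))))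 (b (b (l 16776096) (l 16774416)) (b (a (l 16775744) (l 16775016)) (b (l 16775584) (c (l 16777096) (l 2852124519)))))) (b (b (l 16773360) (a (l 16776192) (l 16776920))) (a (b (l 16774560) (a (l 16775272) (l 16774968))) (b (l 16773944) (l 16775168)))))) (a (a (b (b (l 16771000) (l 16772432)) (b (l 16773984) (a (l 16773896) (l 16773272)))) (b (a (l 16771184) (l 16770528)) (b (l 16771728) (l 16772984)))) (a (a (b (l 16769864) (l 16771720)) (b (l 16769192) (l 16771720))) (b (l 16769488) (a (l 16771064) (l 16769088)))))) (a (a (a (b (l 16768112) (a (l 16768416) (l 16767736))) (b (l 16766712) (l 16768344))) (a (b (l 16765280) (l 16766624)) (b (l 16763816) (l 16765200)))) (b (a (a (l 16762328) (l 16760808)) (a (l 16759256) (l 6))) (l 6)))), by decide +kernel⟩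

def k10_pp_012_a : ∃ t, chk3 f_pp_012_a t 63 123 1 = true :=
  ⟨(a (a (a (l 3) (a (a (l 3) (b (b (b (a (l 2852124647) (l 16775976)) (l 2315253831)) (l 3)) (l 3))) (b (b (a (b (l 16775552) (c (l 16776624) (l 2315253511))) (b (l 16774944) (l 16775240))) (a (b (l 2315253671) (l 3)) (b (l 16775536) (l 2315253383)))) (b (a (l 3) (b (l 4462736903) (l 3))) (l 3))))) (a (a (a (b (b (l 16774976) (b (l 16774944) (l 16775248))) (b (b (c (l 16775616) (l 2315253047)) (a (l 3) (l 4462736471))) (l 3))) (b (b (l 16773872) (a (l 16774640) (l 16774336))) (b (b (l 16774960) (a (l 16775416) (l 16775128))) (a (b (l 3925865447) (l 3)) (b (c (l 16775512) (l 2852123447)) (l 3925865271)))))) (b (a (b (l 16773256) (l 16773880)) (b (l 16772632) (l 16773264))) (b (a (b (l 16774352) (l 16774680)) (c (l 16774680) (l 16774448))) (a (b (a (l 16775152) (l 16774856)) (b (c (l 16775328) (l 2315252343)) (l 6))) (b (l 16774400) (l 6)))))) (a (b (b (l 16772336) (l 16773312)) (b (a (l 16773296)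 (l 16772672)) (l 6))) (b (b (l 16770392) (l 16772368)) (l 6))))) (a (a (b (a (a (l 16771056) (l 16770392)) (a (l 16769728) (l 6))) (l 6)) (l 6)) (l 6))), by decide +kernel⟩

def k11_pp_012_a : ∃ t, chk3 f_pp_012_a t 63 31 1 = true :=
  ⟨(b (a (a (l 3) (a (a (l 3) (l 6)) (l 6))) (l 6)) (l 6)), by decide +kernel⟩

theorem s12_pp_012_a : ∃ t, chk3 f_pp_012_a t 63 61 1 = true := ex3_b k9_pp_012_a k10_pp_012_a

theorem s13_pp_012_a : ∃ t, chk3 f_pp_012_a t 63 30 1 = true := ex3_b k8_pp_012_a s12_pp_012_a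

theorem s14_pp_012_a : ∃ t, chk3 f_pp_012_a t 63 15 1 = true := ex3_b s13_pp_012_a k11_pp_012_a

theorem s15_pp_012_a : ∃ t, chk3 f_pp_012_a t 31 15 1 = true := ex3_a k7_pp_012_a s14_pp_012_a

theorem s16_pp_012_a : ∃ t, chk3 f_pp_012_a t 31 7 1 = true := ex3_b k6_pp_012_a s15_pp_012_a

theorem s17_pp_012_a : ∃ t, chk3 f_pp_012_a t 15 7 1 = true := ex3_a k5_pp_012_a s16_pp_012_a

theorem s18_pp_012_a : ∃ t, chk3 f_pp_012_a t 15 3 1 = true := ex3_b k4_pp_012_a s17_pp_012_a

theorem s19_pp_012_a : ∃ t, chk3 f_pp_012_a t 7 3 1 = true := ex3_a k3_pp_012_a s18_pp_012_a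

theorem s20_pp_012_a : ∃ t, chk3 f_pp_012_a t 7 1 1 = true := ex3_b k2_pp_012_a s19_pp_012_a

theorem s21_pp_012_a : ∃ t, chk3 f_pp_012_a t 3 1 1 = true := ex3_a k1_pp_012_a s20_pp_012_a

theorem s22_pp_012_a : ∃ t, chk3 f_pp_012_a t 1 1 1 = true := ex3_a k0_pp_012_a s21_pp_012_a

theorem c_pp_012_a : CertF 0 536870912 0 536870912 33554432 16777216 false true true .pnp 0 1 2
    ndF0q0 ndF1q2a pcF1 cut_pp_012_a Ext.none :=
  certFK2 (fam := false) (s1 := true) (s2 := true) (a := 0) (b := 1) (c := 2) (cn := .pnp) (n1 := ndF0q0) (n2 := ndF1q2a) (pc := pcF1) (cut := cut_pp_012_a) (xt := Ext.none) (P1 := 0) (W1 := 536870912) (P2 := 0) (W2 := 536870912) (P3 := 33554432) (W3 := 16777216)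
    rfl rfl rfl (fun _ => rfl) s22_pp_012_a

noncomputable def cut_pp_012_b : Cut := Cut.of [[⟨0, 0, 0, 33554432⟩, ⟨1, 1, 0, 33554432⟩, ⟨2, 1, 0, 33554432⟩]]

noncomputable def f_pp_012_b : ℕ → ℕ → ℕ → ℕ → Bool := onCell 536870912 536870912 1239849684 370763052 33554432 16777216
    (rowFK 2 false true true .pnp 0 1 2 (qsf 0 536870912 1239849684 370763052 1) ndF0q0 ndF1q2b pcF1 cut_pp_012_b Ext.none)

def k0_pp_012_b : ∃ t, chk3 f_pp_012_b t 1 1 1 = true :=
  ⟨(a (b (l 3) (l 2)) (a (b (a (b (a (l 3) (b (l 3) (l 3))) (l 3)) (b (a (b (l 17065960) (l 17052640)) (l 17349640)) (a (l 17211808) (l 17232368)))) (a (l 2) (b (a (l 3) (l 17228488)) (l 2)))) (b (a (a (b (l 17505200) (l 17463072)) (b (l 17706872) (l 17682160))) (b (a (b (l 17933608) (l 17927344)) (b (l 18286528) (l 18244680))) (a (l 17867008) (l 18101496)))) (a (b (a (l 17445528) (l 17670424)) (l 128951619447)) (b (l 17910232) (l 17913448)))))), by decide +kernel⟩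

theorem c_pp_012_b : CertF 0 536870912 1239849684 370763052 33554432 16777216 false true true .pnp 0 1 2
    ndF0q0 ndF1q2b pcF1 cut_pp_012_b Ext.none :=
  certFK2 (fam := false) (s1 := true) (s2 := true) (a := 0) (b := 1) (c := 2) (cn := .pnp) (n1 := ndF0q0) (n2 := ndF1q2b) (pc := pcF1) (cut := cut_pp_012_b) (xt := Ext.none) (P1 := 0) (W1 := 536870912) (P2 := 1239849684) (W2 := 370763052) (P3 := 33554432) (W3 := 16777216)
    rfl rfl rfl (fun _ => rfl) k0_pp_012_b

noncomputable def cut_pp_022_a : Cut := Cut.of [[⟨0, 0, 0, 33554432⟩, ⟨1, 1, 0, 33554432⟩, ⟨2, 1, 0, 33554432⟩]]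

noncomputable def f_pp_022_a : ℕ → ℕ → ℕ → ℕ → Bool := onCell 1073741824 536870912 0 536870912 33554432 16777216
    (rowFK 2 false true true .pp 0 2 2 (qsf 0 536870912 0 536870912 2) ndF0q0 ndF1q2a pcF2 cut_pp_022_a Ext.none)

def k0_pp_022_a : ∃ t, chk3 f_pp_022_a t 2 2 1 = true :=
  ⟨(a (a (a (a (a (b (l 18569024) (l 18399056)) (l 18537448)) (l 18614928)) (b (l 18832344) (l 18718584))) (b (l 19136112) (l 19096456))) (a (b (l 19485584) (l 19420624)) (l 1))), by decide +kernel⟩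

def k1_pp_022_a : ∃ t, chk3 f_pp_022_a t 4 6 1 = true :=
  ⟨(a (a (a (a (b (l 18203408) (b (l 18040504) (l 17874232))) (b (l 18271800) (b (l 18115752) (l 17951568)))) (b (l 18377280) (b (l 18231640) (l 18072456)))) (b (l 18593128) (b (l 18473712) (a (l 18241448) (l 18420224))))) (b (a (l 18901664) (l 19149528)) (a (b (l 18810632) (a (l 18595472) (l 18695776))) (l 18860872)))), by decide +kernel⟩

def k2_pp_022_a : ∃ t, chk3 f_pp_022_a t 4 28 1 = true :=
  ⟨(a (a (a (a (b (l 17692368) (a (l 17318128) (l 17455424))) (b (l 17767432) (c (l 17761144) (l 17273528)))) (b (l 17865216) (a (l 17516136) (l 17718040)))) (b (a (l 18055856) (l 18238400)) (a (b (l 17917992) (l 17589376)) (a (l 17740920) (b (l 18138696) (c (l 18272832) (l 17653424))))))) (a (a (b (l 18374176) (l 18108136)) (l 1)) (l 1))), by decide +kernel⟩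

def k3_pp_022_a : ∃ t, chk3 f_pp_022_a t 16 29 1 = true :=
  ⟨(a (a (b (c (b (l 17525944) (a (l 17385192) (l 17418240))) (b (a (l 17116408) (l 17194176)) (a (a (b (l 17067856) (l 16924064)) (l 16968064)) (l 16909776)))) (b (c (a (b (l 17256144) (a (l 17126584) (l 17200592))) (l 17073552)) (a (a (b (l 16771904) (l 16762024)) (l 16761640)) (a (l 16821088) (l 16838984)))) (a (a (a (a (l 16764440) (l 16776488)) (l 16764472)) (a (l 16773048) (l 16792256))) (a (l 16768736) (l 16786744))))) (b (c (b (l 17604736) (l 17471088)) (b (l 17094008) (a (l 17043664) (l 17053832)))) (b (c (a (l 17205648) (l 17234928)) (a (l 16793952) (l 16812760))) (a (a (l 16805640) (l 16804256)) (a (l 16824384) (l 16824064)))))) (a (b (c (l 17453024) (b (l 17259160) (l 16946008))) (b (a (l 16902664) (l 16898544)) (a (l 16782512) (l 16784968)))) (b (c (l 17537624) (b (l 17304176) (l 16976056))) (b (b (a (l 17104784) (l 17085968)) (l 16818384)) (a (l 16768712) (b (l 16862416) (l 16745240))))))),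 by decide +kernel⟩

def k4_pp_022_a : ∃ t, chk3 f_pp_022_a t 17 29 1 = true :=
  ⟨(a (b (c (b (l 17916848) (a (l 17712368) (l 17803184))) (a (b (l 17355240) (b (l 17198496) (l 17054896))) (b (l 17412056) (b (l 17204032) (a (l 17104776) (l 17063088)))))) (a (b (c (b (l 17564032) (l 17298472)) (a (l 16789480) (b (l 16942088) (l 16776848)))) (a (b (l 16833520) (l 16749872)) (b (c (l 17133728) (l 16719768)) (b (l 16788128) (a (l 16723472) (l 16724248)))))) (a (b (c (b (l 17625888) (l 17417728)) (b (l 16914768) (a (l 16782904) (l 16787504)))) (b (c (a (c (l 17537688) (l 16988600)) (c (l 17552232) (a (l 17059568) (l 17168000)))) (a (l 16721024) (b (l 16721048) (l 16722536)))) (a (a (b (l 16752704) (l 16724792)) (l 16721696)) (l 1)))) (b (b (c (l 17476528) (a (l 16905848) (b (l 16828832) (a (l 16848592) (l 1))))) (a (c (l 17378952) (b (a (l 16837752) (l 16777464)) (a (l 16742976) (l 1)))) (l 1))) (l 1))))) (b (a (b (c (l 18060048) (a (l 17458064) (b (l 17540624)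 (l 17386432)))) (a (c (l 17863984) (b (a (l 17278536) (l 17185192)) (a (a (l 17013576) (l 17122352)) (l 17147120)))) (l 17471480))) (l 4329846551)) (a (a (a (b (l 17000584) (l 1)) (l 1)) (l 1)) (l 1)))), by decide +kernel⟩

def k5_pp_022_a : ∃ t, chk3 f_pp_022_a t 9 29 1 = true :=
  ⟨(l 1), by decide +kernel⟩

def k6_pp_022_a : ∃ t, chk3 f_pp_022_a t 4 15 1 = true :=
  ⟨(a (b (b (a (a (a (a (a (a (a (b (l 16766320) (c (l 16767352) (l 16765520))) (b (l 16763768) (l 16764560))) (b (l 16763224) (c (l 16764296) (l 16762496)))) (a (b (l 16759440) (l 16761632)) (b (l 16756984) (l 16759224)))) (b (a (b (l 16752872) (l 16753320)) (b (l 16747496) (l 16747992))) (a (a (l 16755408) (l 16752776)) (c (l 16751632) (l 16751304))))) (a (b (a (l 16763800) (l 16759152)) (a (l 16747328) (l 16742152))) (b (a (l 16754560) (l 16770984)) (a (l 16738336) (b (l 16751192) (l 16752072)))))) (b (a (a (a (l 16745288) (b (l 16739936) (l 16742544))) (b (l 16740112) (l 16743968))) (a (b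 (l 16721136) (l 16724800)) (b (l 16723000) (l 16729088)))) (a (a (b (l 16746056) (l 16731968)) (b (a (l 16726368) (l 16727208)) (a (l 16730152) (l 16730888)))) (a (b (a (l 16728008) (l 16728784)) (a (l 16731600) (l 16732264))) (b (a (l 16729512) (l 16730208)) (a (l 16732896) (a (b (l 16732512) (l 6)) (b (l 16732808) (l 16734408))))))))) (a (a (b (a (b (a (l 16724288) (l 16725096)) (a (l 16727608) (b (l 16727512) (a (l 16728936) (l 16729256))))) (b (a (b (l 16725056) (a (l 16726456) (l 16726808))) (b (a (l 16725608) (l 16725960)) (l 16727304))) (a (b (a (l 16728024) (l 1)) (l 1)) (l 1)))) (a (b (a (b (l 16730040) (a (l 16731496) (l 16731792))) (b (a (l 16730512) (l 1)) (l 1))) (a (b (l 16733224) (l 1)) (l 1))) (l 1))) (l 1)) (l 1))) (a (a (l 6) (a (l 6) (a (l 6) (a (l 6) (a (l 6) (l 1)))))) (l 1))) (a (a (l 6) (a (l 6) (l 1))) (l 1))) (l 1)), by decide +kernel⟩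

def k7_pp_022_a : ∃ t, chk3 f_pp_022_a t 5 3 1 = true :=
  ⟨(b (l 1) (l 1)), by decide +kernel⟩

def k8_pp_022_a : ∃ t, chk3 f_pp_022_a t 3 1 1 = true :=
  ⟨(l 1), by decide +kernel⟩

theorem s9_pp_022_a : ∃ t, chk3 f_pp_022_a t 8 29 1 = true := ex3_a k3_pp_022_a k4_pp_022_a

theorem s10_pp_022_a : ∃ t, chk3 f_pp_022_a t 4 29 1 = true := ex3_a s9_pp_022_a k5_pp_022_a

theorem s11_pp_022_a : ∃ t, chk3 f_pp_022_a t 4 14 1 = true := ex3_b k2_pp_022_a s10_pp_022_a

theorem s12_pp_022_a : ∃ t, chk3 f_pp_022_a t 4 7 1 = true := ex3_b s11_pp_022_a k6_pp_022_a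

theorem s13_pp_022_a : ∃ t, chk3 f_pp_022_a t 4 3 1 = true := ex3_b k1_pp_022_a s12_pp_022_a

theorem s14_pp_022_a : ∃ t, chk3 f_pp_022_a t 2 3 1 = true := ex3_a s13_pp_022_a k7_pp_022_a

theorem s15_pp_022_a : ∃ t, chk3 f_pp_022_a t 2 1 1 = true := ex3_b k0_pp_022_a s14_pp_022_a

theorem s16_pp_022_a : ∃ t, chk3 f_pp_022_a t 1 1 1 = true := ex3_a s15_pp_022_a k8_pp_022_a

theorem c_pp_022_a : CertF 0 536870912 0 536870912 33554432 16777216 false true true .pp 0 2 2
    ndF0q0 ndF1q2a pcF2 cut_pp_022_a Ext.none :=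
  certFK2 (fam := false) (s1 := true) (s2 := true) (a := 0) (b := 2) (c := 2) (cn := .pp) (n1 := ndF0q0) (n2 := ndF1q2a) (pc := pcF2) (cut := cut_pp_022_a) (xt := Ext.none) (P1 := 0) (W1 := 536870912) (P2 := 0) (W2 := 536870912) (P3 := 33554432) (W3 := 16777216)
    rfl rfl rfl (fun _ => rfl) s16_pp_022_a

noncomputable def cut_pp_022_b : Cut := Cut.of [[⟨0, 0, 0, 33554432⟩, ⟨1, 1, 0, 33554432⟩, ⟨2, 1, 0, 33554432⟩]]

noncomputable def f_pp_022_b : ℕ → ℕ → ℕ → ℕ → Bool := onCell 1073741824 536870912 1239849684 370763052 33554432 16777216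
    (rowFK 2 false true true .pp 0 2 2 (qsf 0 536870912 1239849684 370763052 2) ndF0q0 ndF1q2b pcF2 cut_pp_022_b Ext.none)

def k0_pp_022_b : ∃ t, chk3 f_pp_022_b t 1 1 1 = true :=
  ⟨(a (b (a (a (a (a (a (b (l 18623728) (l 18378648)) (b (l 18666048) (l 18416304))) (b (l 18728304) (l 18482152))) (b (l 18861048) (l 18599952))) (b (l 19108912) (l 18850416))) (b (a (l 19427656) (l 19347448)) (a (l 19162912) (l 19454384)))) (a (a (a (a (a (l 18151592) (l 18164744)) (l 18186712)) (b (l 18289736) (l 18159192))) (b (l 18488520) (l 18248064))) (b (a (l 18789152) (l 19092080)) (l 18634968)))) (b (a (b (l 1) (l 19854960)) (l 1)) (a (b (l 19469296) (l 19225864)) (b (l 19666776) (l 19495112))))), by decide +kernel⟩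

theorem c_pp_022_b : CertF 0 536870912 1239849684 370763052 33554432 16777216 false true true .pp 0 2 2
    ndF0q0 ndF1q2b pcF2 cut_pp_022_b Ext.none :=
  certFK2 (fam := false) (s1 := true) (s2 := true) (a := 0) (b := 2) (c := 2) (cn := .pp) (n1 := ndF0q0) (n2 := ndF1q2b) (pc := pcF2) (cut := cut_pp_022_b) (xt := Ext.none) (P1 := 0) (W1 := 536870912) (P2 := 1239849684) (W2 := 370763052) (P3 := 33554432) (W3 := 16777216)
    rfl rfl rfl (fun _ => rfl) k0_pp_022_b

noncomputable def f_pp_023 : ℕ → ℕ → ℕ → ℕ → Bool := onCell 0 536870912 1073741824 536870912 33554432 16777216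
    (rowFK 1 false true true .up 0 2 3 (qsf 0 536870912 1610612736 536870912 2) ndF0q0 ndF1q3 pcF2 Cut.none Ext.none)

def k0_pp_023 : ∃ t, chk3 f_pp_023 t 1 1 1 = true :=
  ⟨(a (b (b (l 1) (a (l 1) (l 18965144))) (a (l 326992316535) (b (l 18654480) (l 18336288)))) (a (b (b (b (l 1) (l 18867352)) (l 18611152)) (b (l 18272944) (l 17946560))) (b (b (b (b (b (b (l 19138976) (l 19114832)) (l 19077552)) (l 18999296)) (l 18851152)) (l 18560840)) (b (l 18201128) (l 17852696))))), by decide +kernel⟩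

theorem c_pp_023 : CertF 0 536870912 1610612736 536870912 33554432 16777216 false true true .up 0 2 3
    ndF0q0 ndF1q3 pcF2 Cut.none Ext.none :=
  certFK1 (fam := false) (s1 := true) (s2 := true) (a := 0) (b := 2) (c := 3) (cn := .up) (n1 := ndF0q0) (n2 := ndF1q3) (pc := pcF2) (cut := Cut.none) (xt := Ext.none) (P1 := 0) (W1 := 536870912) (P2 := 1610612736) (W2 := 536870912) (P3 := 33554432) (W3 := 16777216)
    rfl rfl rfl (fun _ => rfl) k0_pp_023

noncomputable def f_pp_033 : ℕ → ℕ → ℕ → ℕ → Bool := onCell 1610612736 536870912 1610612736 536870912 33554432 16777216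
    (rowFK 2 false true true .pnn 0 3 3 (qsf 0 536870912 1610612736 536870912 3) ndF0q0 ndF1q3 pcF3 Cut.none Ext.none)

def k0_pp_033 : ∃ t, chk3 f_pp_033 t 1 1 1 = true :=
  ⟨(a (b (a (b (l 17983936) (a (l 17704768) (l 17604912))) (b (a (l 17546920) (l 1)) (a (l 17711496) (l 17686112)))) (a (b (a (l 17430400) (l 17416720)) (a (l 17019896) (l 17237128))) (b (a (l 17631744) (l 17788072)) (a (l 17483792) (l 17645224))))) (a (b (a (b (l 1) (l 17444544)) (l 1)) (l 4)) (l 4))), by decide +kernel⟩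

theorem c_pp_033 : CertF 0 536870912 1610612736 536870912 33554432 16777216 false true true .pnn 0 3 3
    ndF0q0 ndF1q3 pcF3 Cut.none Ext.none :=
  certFK2 (fam := false) (s1 := true) (s2 := true) (a := 0) (b := 3) (c := 3) (cn := .pnn) (n1 := ndF0q0) (n2 := ndF1q3) (pc := pcF3) (cut := Cut.none) (xt := Ext.none) (P1 := 0) (W1 := 536870912) (P2 := 1610612736) (W2 := 536870912) (P3 := 33554432) (W3 := 16777216)
    rfl rfl rfl (fun _ => rfl) k0_pp_033

noncomputable def f_pp_101 : ℕ → ℕ → ℕ → ℕ → Bool := onCell 536870912 536870912 536870912 536870912 33554432 16777216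
    (rowFK 0 false true true .npn 1 0 1 (qsf 536870912 536870912 536870912 536870912 0) ndF0q1 ndF1q1 pcF0 Cut.none Ext.none)

def k0_pp_101 : ∃ t, chk3 f_pp_101 t 1 1 1 = true :=
  ⟨(l 3), by decide +kernel⟩

theorem c_pp_101 : CertF 536870912 536870912 536870912 536870912 33554432 16777216 false true true .npn 1 0 1
    ndF0q1 ndF1q1 pcF0 Cut.none Ext.none :=
  certFK0 (fam := false) (s1 := true) (s2 := true) (a := 1) (b := 0) (c := 1) (cn := .npn) (n1 := ndF0q1) (n2 := ndF1q1) (pc := pcF0) (cut := Cut.none) (xt := Ext.none) (P1 := 536870912) (W1 := 536870912) (P2 := 536870912) (W2 := 536870912) (P3 := 33554432) (W3 := 16777216)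
    rfl rfl rfl k0_pp_101

noncomputable def f_pp_102_a : ℕ → ℕ → ℕ → ℕ → Bool := onCell 536870912 536870912 0 536870912 33554432 16777216
    (rowFK 0 false true true .npp 1 0 2 (qsf 536870912 536870912 0 536870912 0) ndF0q1 ndF1q2a pcF0 Cut.none Ext.none)

def k0_pp_102_a : ∃ t, chk3 f_pp_102_a t 1 1 1 = true :=
  ⟨(l 3), by decide +kernel⟩

theorem c_pp_102_a : CertF 536870912 536870912 0 536870912 33554432 16777216 false true true .npp 1 0 2
    ndF0q1 ndF1q2a pcF0 Cut.none Ext.none :=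
  certFK0 (fam := false) (s1 := true) (s2 := true) (a := 1) (b := 0) (c := 2) (cn := .npp) (n1 := ndF0q1) (n2 := ndF1q2a) (pc := pcF0) (cut := Cut.none) (xt := Ext.none) (P1 := 536870912) (W1 := 536870912) (P2 := 0) (W2 := 536870912) (P3 := 33554432) (W3 := 16777216)
    rfl rfl rfl k0_pp_102_a

noncomputable def f_pp_102_b : ℕ → ℕ → ℕ → ℕ → Bool := onCell 536870912 536870912 0 536870912 33554432 16777216
    (rowFK 1 false true true .npp 1 0 2 (qsf 536870912 536870912 1239849684 370763052 0) ndF0q1 ndF1q2b pcF0 Cut.none Ext.none)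

def k0_pp_102_b : ∃ t, chk3 f_pp_102_b t 1 1 1 = true :=
  ⟨(l 3), by decide +kernel⟩

theorem c_pp_102_b : CertF 536870912 536870912 1239849684 370763052 33554432 16777216 false true true .npp 1 0 2
    ndF0q1 ndF1q2b pcF0 Cut.none Ext.none :=
  certFK1 (fam := false) (s1 := true) (s2 := true) (a := 1) (b := 0) (c := 2) (cn := .npp) (n1 := ndF0q1) (n2 := ndF1q2b) (pc := pcF0) (cut := Cut.none) (xt := Ext.none) (P1 := 536870912) (W1 := 536870912) (P2 := 1239849684) (W2 := 370763052) (P3 := 33554432) (W3 := 16777216)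
    rfl rfl rfl (fun _ => rfl) k0_pp_102_b

noncomputable def f_pp_112_a : ℕ → ℕ → ℕ → ℕ → Bool := onCell 536870912 536870912 0 536870912 33554432 16777216
    (rowFK 0 false true true .dn 1 1 2 (qsf 536870912 536870912 0 536870912 1) ndF0q1 ndF1q2a pcF1 Cut.none Ext.none)

def k0_pp_112_a : ∃ t, chk3 f_pp_112_a t 1 1 1 = true :=
  ⟨(l 3), by decide +kernel⟩

theorem c_pp_112_a : CertF 536870912 536870912 0 536870912 33554432 16777216 false true true .dn 1 1 2
    ndF0q1 ndF1q2a pcF1 Cut.none Ext.none :=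
  certFK0 (fam := false) (s1 := true) (s2 := true) (a := 1) (b := 1) (c := 2) (cn := .dn) (n1 := ndF0q1) (n2 := ndF1q2a) (pc := pcF1) (cut := Cut.none) (xt := Ext.none) (P1 := 536870912) (W1 := 536870912) (P2 := 0) (W2 := 536870912) (P3 := 33554432) (W3 := 16777216)
    rfl rfl rfl k0_pp_112_a

noncomputable def f_pp_112_b : ℕ → ℕ → ℕ → ℕ → Bool := onCell 536870912 536870912 1239849684 370763052 33554432 16777216
    (rowFK 0 false true true .dn 1 1 2 (qsf 536870912 536870912 1239849684 370763052 1) ndF0q1 ndF1q2b pcF1 Cut.none Ext.none)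

def k0_pp_112_b : ∃ t, chk3 f_pp_112_b t 1 1 1 = true :=
  ⟨(a (b (l 3) (a (b (a (b (l 123649004999) (a (l 17354376) (l 17110144))) (l 3)) (a (b (l 17738704) (l 17824128)) (b (l 99489967799) (l 17510696)))) (l 3))) (l 3)), by decide +kernel⟩

theorem c_pp_112_b : CertF 536870912 536870912 1239849684 370763052 33554432 16777216 false true true .dn 1 1 2
    ndF0q1 ndF1q2b pcF1 Cut.none Ext.none :=
  certFK0 (fam := false) (s1 := true) (s2 := true) (a := 1) (b := 1) (c := 2) (cn := .dn) (n1 := ndF0q1) (n2 := ndF1q2b) (pc := pcF1) (cut := Cut.none) (xt := Ext.none) (P1 := 536870912) (W1 := 536870912) (P2 := 1239849684) (W2 := 370763052) (P3 := 33554432) (W3 := 16777216)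
    rfl rfl rfl k0_pp_112_b

noncomputable def cut_pp_113 : Cut := Cut.of [[⟨0, 1, 0, 7061502⟩, ⟨1, 1, 0, 7061502⟩, ⟨2, 2, 0, 184626⟩]]

noncomputable def f_pp_113 : ℕ → ℕ → ℕ → ℕ → Bool := onCell 536870912 536870912 536870912 536870912 33554432 16777216
    (rowFK 1 false true true .nn 1 1 3 (qsf 536870912 536870912 1610612736 536870912 1) ndF0q1 ndF1q3 pcF1 cut_pp_113 Ext.none)

def k0_pp_113 : ∃ t, chk3 f_pp_113 t 1 1 1 = true :=
  ⟨(b (a (l 3) (l 3)) (a (b (a (b (l 1) (b (l 1) (l 284578608455))) (l 3)) (a (b (a (l 18596368) (l 18530912)) (l 18973168)) (b (b (l 137073514455) (l 18703960)) (a (l 18631040) (l 18542152))))) (b (l 3) (a (b (a (l 216530260567) (l 3)) (a (l 18408800) (l 145126000327))) (b (l 3) (a (a (l 145125327095) (b (l 361483402615) (l 17522896))) (b (l 3) (a (b (l 420538696231) (l 17343136)) (b (l 3) (b (a (l 490868298487) (l 3)) (a (l 17078608) (a (l 173040553447) (b (l 3) (a (l 175724746151) (a (l 177335309015) (b (l 3) (b (l 3) (a (l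 177872095991) (a (l 178945825239) (b (l 3) (b (l 3) (b (l 626696140423) (a (l 16785960) (b (l 626696133287) (b (l 627233003303) (a (l 16778864) (l 6))))))))))))))))))))))))))), by decide +kernel⟩

theorem c_pp_113 : CertF 536870912 536870912 1610612736 536870912 33554432 16777216 false true true .nn 1 1 3
    ndF0q1 ndF1q3 pcF1 cut_pp_113 Ext.none :=
  certFK1 (fam := false) (s1 := true) (s2 := true) (a := 1) (b := 1) (c := 3) (cn := .nn) (n1 := ndF0q1) (n2 := ndF1q3) (pc := pcF1) (cut := cut_pp_113) (xt := Ext.none) (P1 := 536870912) (W1 := 536870912) (P2 := 1610612736) (W2 := 536870912) (P3 := 33554432) (W3 := 16777216)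
    rfl rfl rfl (fun _ => rfl) k0_pp_113

noncomputable def cut_pp_123 : Cut := Cut.of [[⟨0, 1, 0, 7061502⟩, ⟨1, 1, 0, 7061502⟩, ⟨2, 2, 0, 184626⟩]]

noncomputable def f_pp_123 : ℕ → ℕ → ℕ → ℕ → Bool := onCell 1073741824 536870912 1610612736 536870912 33554432 16777216
    (rowFK 2 false true true .npn 1 2 3 (qsf 536870912 536870912 1610612736 536870912 2) ndF0q1 ndF1q3 pcF2 cut_pp_123 Ext.none)

def k0_pp_123 : ∃ t, chk3 f_pp_123 t 1 1 1 = true :=
  ⟨(a (b (a (b (a (a (a (a (l 19022392) (l 19012248)) (l 18996824)) (l 18955120)) (l 19042704)) (a (a (a (a (l 18713176) (l 18703776)) (l 18698600)) (l 18591944)) (b (l 18681872) (l 18455840)))) (b (a (l 18667568) (l 1)) (a (l 18555336) (l 18397688)))) (a (b (a (a (a (a (b (l 18464504) (l 18081504)) (l 18502592)) (b (l 18423296) (l 18128184))) (b (l 18388016) (l 18148000))) (b (l 18319760) (l 18121560))) (a (a (a (a (b (l 17653336) (b (l 17182240) (b (l 16986608) (b (l 16885744) (a (b (l 16831560) (a (b (l 16804344)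 (a (b (l 16790768) (b (l 16784320) (b (l 16781096) (b (l 16782104) (l 6))))) (l 16787816))) (l 16798520))) (l 16819744)))))) (b (l 17587824) (b (l 17194248) (l 17014136)))) (b (l 17618648) (b (l 17216328) (l 16949760)))) (b (l 17682448) (b (l 17275696) (l 16995088)))) (b (a (l 17768232) (l 17846424)) (b (l 17429320) (l 17135784))))) (b (b (l 18452824) (a (l 18070376) (l 18000520))) (b (a (l 17848936) (l 17829104)) (a (l 17480568) (l 17580696)))))) (b (a (b (l 1) (a (l 18303928) (l 1))) (l 1)) (b (a (a (l 18159288) (l 18043896)) (a (l 17984088) (l 1))) (a (b (l 17837416) (l 17718712)) (a (l 17811656) (l 17679408)))))), by decide +kernel⟩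

theorem c_pp_123 : CertF 536870912 536870912 1610612736 536870912 33554432 16777216 false true true .npn 1 2 3
    ndF0q1 ndF1q3 pcF2 cut_pp_123 Ext.none :=
  certFK2 (fam := false) (s1 := true) (s2 := true) (a := 1) (b := 2) (c := 3) (cn := .npn) (n1 := ndF0q1) (n2 := ndF1q3) (pc := pcF2) (cut := cut_pp_123) (xt := Ext.none) (P1 := 536870912) (W1 := 536870912) (P2 := 1610612736) (W2 := 536870912) (P3 := 33554432) (W3 := 16777216)
    rfl rfl rfl (fun _ => rfl) k0_pp_123

noncomputable def f_pp_133 : ℕ → ℕ → ℕ → ℕ → Bool := onCell 536870912 536870912 1610612736 536870912 33554432 16777216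
    (rowFK 0 false true true .dn 1 3 3 (qsf 536870912 536870912 1610612736 536870912 3) ndF0q1 ndF1q3 pcF3 Cut.none Ext.none)

def k0_pp_133 : ∃ t, chk3 f_pp_133 t 1 1 1 = true :=
  ⟨(a (b (l 1) (a (b (l 1) (a (l 402688267159) (l 1))) (l 1))) (l 1)), by decide +kernel⟩

theorem c_pp_133 : CertF 536870912 536870912 1610612736 536870912 33554432 16777216 false true true .dn 1 3 3
    ndF0q1 ndF1q3 pcF3 Cut.none Ext.none :=
  certFK0 (fam := false) (s1 := true) (s2 := true) (a := 1) (b := 3) (c := 3) (cn := .dn) (n1 := ndF0q1) (n2 := ndF1q3) (pc := pcF3) (cut := Cut.none) (xt := Ext.none) (P1 := 536870912) (W1 := 536870912) (P2 := 1610612736) (W2 := 536870912) (P3 := 33554432) (W3 := 16777216)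
    rfl rfl rfl k0_pp_133

noncomputable def f_pp_202_a : ℕ → ℕ → ℕ → ℕ → Bool := onCell 0 536870912 0 536870912 33554432 16777216
    (rowFK 0 false true true .pp 2 0 2 (qsf 0 536870912 0 536870912 0) ndF0q2 ndF1q2a pcF0 Cut.none Ext.none)

def k0_pp_202_a : ∃ t, chk3 f_pp_202_a t 1 1 1 = true :=
  ⟨(l 3), by decide +kernel⟩

theorem c_pp_202_a : CertF 0 536870912 0 536870912 33554432 16777216 false true true .pp 2 0 2
    ndF0q2 ndF1q2a pcF0 Cut.none Ext.none :=
  certFK0 (fam := false) (s1 := true) (s2 := true) (a := 2) (b := 0) (c := 2) (cn := .pp) (n1 := ndF0q2) (n2 := ndF1q2a) (pc := pcF0) (cut := Cut.none) (xt := Ext.none) (P1 := 0) (W1 := 536870912) (P2 := 0) (W2 := 536870912) (P3 := 33554432) (W3 := 16777216)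
    rfl rfl rfl k0_pp_202_a

noncomputable def f_pp_202_b : ℕ → ℕ → ℕ → ℕ → Bool := onCell 0 536870912 1239849684 370763052 33554432 16777216
    (rowFK 0 false true true .pp 2 0 2 (qsf 0 536870912 1239849684 370763052 0) ndF0q2 ndF1q2b pcF0 Cut.none Ext.none)

def k0_pp_202_b : ∃ t, chk3 f_pp_202_b t 1 1 1 = true :=
  ⟨(l 3), by decide +kernel⟩

theorem c_pp_202_b : CertF 0 536870912 1239849684 370763052 33554432 16777216 false true true .pp 2 0 2
    ndF0q2 ndF1q2b pcF0 Cut.none Ext.none :=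
  certFK0 (fam := false) (s1 := true) (s2 := true) (a := 2) (b := 0) (c := 2) (cn := .pp) (n1 := ndF0q2) (n2 := ndF1q2b) (pc := pcF0) (cut := Cut.none) (xt := Ext.none) (P1 := 0) (W1 := 536870912) (P2 := 1239849684) (W2 := 370763052) (P3 := 33554432) (W3 := 16777216)
    rfl rfl rfl k0_pp_202_b

noncomputable def f_pp_203 : ℕ → ℕ → ℕ → ℕ → Bool := onCell 0 536870912 0 536870912 33554432 16777216
    (rowFK 1 false true true .up 2 0 3 (qsf 0 536870912 1610612736 536870912 0) ndF0q2 ndF1q3 pcF0 Cut.none Ext.none)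

def k0_pp_203 : ∃ t, chk3 f_pp_203 t 1 1 1 = true :=
  ⟨(l 3), by decide +kernel⟩

theorem c_pp_203 : CertF 0 536870912 1610612736 536870912 33554432 16777216 false true true .up 2 0 3
    ndF0q2 ndF1q3 pcF0 Cut.none Ext.none :=
  certFK1 (fam := false) (s1 := true) (s2 := true) (a := 2) (b := 0) (c := 3) (cn := .up) (n1 := ndF0q2) (n2 := ndF1q3) (pc := pcF0) (cut := Cut.none) (xt := Ext.none) (P1 := 0) (W1 := 536870912) (P2 := 1610612736) (W2 := 536870912) (P3 := 33554432) (W3 := 16777216)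
    rfl rfl rfl (fun _ => rfl) k0_pp_203

noncomputable def cut_pp_213 : Cut := Cut.of [[⟨0, 1, 0, 7061502⟩, ⟨1, 1, 0, 7061502⟩, ⟨2, 2, 0, 184626⟩]]

noncomputable def f_pp_213 : ℕ → ℕ → ℕ → ℕ → Bool := onCell 0 536870912 1610612736 536870912 33554432 16777216
    (rowFK 0 false true true .pnn 2 1 3 (qsf 0 536870912 1610612736 536870912 1) ndF0q2 ndF1q3 pcF1 cut_pp_213 Ext.none)

def k0_pp_213 : ∃ t, chk3 f_pp_213 t 1 1 1 = true :=
  ⟨(b (l 3) (a (l 3) (b (l 3) (a (l 3) (b (l 3) (a (l 3) (b (l 3) (a (l 3) (b (l 3) (a (l 3) (b (l 3) (a (l 3) (b (l 3) (a (l 3) (b (l 3) (b (l 3) (b (l 3) (b (l 3) (b (l 3) (l 6)))))))))))))))))))), by decide +kernel⟩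

theorem c_pp_213 : CertF 0 536870912 1610612736 536870912 33554432 16777216 false true true .pnn 2 1 3
    ndF0q2 ndF1q3 pcF1 cut_pp_213 Ext.none :=
  certFK0 (fam := false) (s1 := true) (s2 := true) (a := 2) (b := 1) (c := 3) (cn := .pnn) (n1 := ndF0q2) (n2 := ndF1q3) (pc := pcF1) (cut := cut_pp_213) (xt := Ext.none) (P1 := 0) (W1 := 536870912) (P2 := 1610612736) (W2 := 536870912) (P3 := 33554432) (W3 := 16777216)
    rfl rfl rfl k0_pp_213

noncomputable def f_pm_001 : ℕ → ℕ → ℕ → ℕ → Bool := onCell 0 536870912 536870912 536870912 33554432 16777216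
    (rowFK 0 false true false .up 0 0 1 (qsf 0 536870912 536870912 536870912 0) ndF0q0 ndF1q1 pcF0 Cut.none Ext.none)

def k0_pm_001 : ∃ t, chk3 f_pm_001 t 1 1 1 = true :=
  ⟨(l 4), by decide +kernel⟩

theorem c_pm_001 : CertF 0 536870912 536870912 536870912 33554432 16777216 false true false .up 0 0 1
    ndF0q0 ndF1q1 pcF0 Cut.none Ext.none :=
  certFK0 (fam := false) (s1 := true) (s2 := false) (a := 0) (b := 0) (c := 1) (cn := .up) (n1 := ndF0q0) (n2 := ndF1q1) (pc := pcF0) (cut := Cut.none) (xt := Ext.none) (P1 := 0) (W1 := 536870912) (P2 := 536870912) (W2 := 536870912) (P3 := 33554432) (W3 := 16777216)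
    rfl rfl rfl k0_pm_001

noncomputable def f_pm_011 : ℕ → ℕ → ℕ → ℕ → Bool := onCell 0 536870912 536870912 536870912 33554432 16777216
    (rowFK 0 false true false .pnn 0 1 1 (qsf 0 536870912 536870912 536870912 1) ndF0q0 ndF1q1 pcF1 Cut.none Ext.none)

def k0_pm_011 : ∃ t, chk3 f_pm_011 t 1 1 1 = true :=
  ⟨(l 4), by decide +kernel⟩

theorem c_pm_011 : CertF 0 536870912 536870912 536870912 33554432 16777216 false true false .pnn 0 1 1
    ndF0q0 ndF1q1 pcF1 Cut.none Ext.none :=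
  certFK0 (fam := false) (s1 := true) (s2 := false) (a := 0) (b := 1) (c := 1) (cn := .pnn) (n1 := ndF0q0) (n2 := ndF1q1) (pc := pcF1) (cut := Cut.none) (xt := Ext.none) (P1 := 0) (W1 := 536870912) (P2 := 536870912) (W2 := 536870912) (P3 := 33554432) (W3 := 16777216)
    rfl rfl rfl k0_pm_011

noncomputable def cut_pm_012_a : Cut := Cut.of [[⟨0, 0, 0, 33554432⟩, ⟨1, 1, 0, 33554432⟩, ⟨2, 1, 0, 33554432⟩], [⟨0, 0, 1, 25165824⟩, ⟨1, 1, 2, 25165824⟩, ⟨2, 1, 0, 16777216⟩, ⟨0, 0, 0, 67108864⟩, ⟨0, 1, 0, 1056964608⟩, ⟨1, 0, 0, 1056964608⟩, ⟨1, 1, 0, 67108864⟩]]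

noncomputable def f_pm_012_a : ℕ → ℕ → ℕ → ℕ → Bool := onCell 536870912 536870912 0 536870912 33554432 16777216
    (rowFK 2 false true false .pnp 0 1 2 (qsf 0 536870912 0 536870912 1) ndF0q0 ndF1q2a pcF1 cut_pm_012_a Ext.none)

def k0_pm_012_a : ∃ t, chk3 f_pm_012_a t 2 1 1 = true :=
  ⟨(b (a (a (l 2) (l 18348160)) (a (l 18357824) (l 18517712))) (a (b (l 18565504) (a (l 18685952) (l 18774840))) (b (l 18978448) (a (l 19112696) (l 19129776))))), by decide +kernel⟩

def k1_pm_012_a : ∃ t, chk3 f_pm_012_a t 6 1 1 = true :=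
  ⟨(a (b (l 18687584) (b (l 18944288) (b (l 18914312) (l 18713016)))) (b (l 18864568) (b (l 19048544) (b (l 18907128) (b (l 18684144) (l 18437976)))))), by decide +kernel⟩

def k2_pm_012_a : ∃ t, chk3 f_pm_012_a t 7 2 1 = true :=
  ⟨(a (l 19140712) (a (l 19502568) (a (l 19750024) (a (l 19883432) (l 19948688))))), by decide +kernel⟩

def k3_pm_012_a : ∃ t, chk3 f_pm_012_a t 7 6 1 = true :=
  ⟨(a (l 19422408) (a (l 19600544) (a (l 19709280) (a (b (l 19908840) (l 19623616)) (b (l 19973496) (l 19623184)))))), by decide +kernel⟩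

def k4_pm_012_a : ∃ t, chk3 f_pm_012_a t 7 14 1 = true :=
  ⟨(a (a (l 18948840) (l 18995912)) (a (b (l 19186072) (a (l 18874024) (l 18659008))) (a (b (l 19175952) (a (b (l 18863304) (l 18563312)) (b (l 18760752) (c (l 18681832) (b (l 18202408) (l 17717552)))))) (a (b (l 19084976) (b (c (l 18906992) (b (l 18371200) (l 18057744))) (c (b (l 18584824) (a (l 18398120) (l 18225712))) (b (a (l 17970632) (l 17529584)) (a (c (l 17857984) (l 17414056)) (c (l 17405264) (a (l 17287632) (l 17080624)))))))) (a (b (l 18822888) (b (c (l 18750832) (b (l 18129928) (l 17690280))) (c (b (l 18340880) (c (l 18224648) (a (l 17832608) (l 17679656)))) (a (b (l 17373264) (l 16927384)) (b (a (l 17320512) (l 17194512)) (l 16830264)))))) (b (b (l 19074256) (l 18446656)) (b (c (l 18449848) (b (l 17802376) (c (l 17652256) (a (l 17415736) (l 17197456))))) (b (a (c (l 18169008) (c (l 17376752) (l 16946472))) (c (l 17777840) (l 16785336))) (a (c (c (l 18020160) (l 17249240)) (l 16722024))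 (b (c (b (l 17693664) (l 17467720)) (l 16660696)) (l 16778912))))))))))), by decide +kernel⟩

def k5_pm_012_a : ∃ t, chk3 f_pm_012_a t 14 30 1 = true :=
  ⟨(a (l 18622672) (b (l 18652224) (l 18452912))), by decide +kernel⟩

def k6_pm_012_a : ∃ t, chk3 f_pm_012_a t 30 30 1 = true :=
  ⟨(a (b (l 18563472) (l 18186208)) (b (a (l 18465144) (l 18225552)) (a (b (l 18218504) (l 17986816)) (c (b (l 18290616) (l 18068240)) (b (l 17778032) (a (l 17653104) (b (l 17568928) (l 17414568)))))))), by decide +kernel⟩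

def k7_pm_012_a : ∃ t, chk3 f_pm_012_a t 62 30 1 = true :=
  ⟨(b (a (c (l 18440136) (b (l 18017960) (a (l 17854800) (l 17677936)))) (c (b (l 18345048) (a (l 18149720) (l 17853896))) (b (a (l 17793168) (b (l 17669280) (l 17427240))) (a (b (l 17578848) (l 17316968)) (a (l 17087008) (l 16943040)))))) (a (c (b (l 18004192) (a (l 17885328) (b (l 17798232) (l 17510888)))) (b (a (l 17476008) (a (l 17356664) (l 17143280))) (a (b (l 17306472) (l 17028384)) (b (l 16933592) (l 16798192))))) (b (a (c (l 17599008) (b (l 17042816) (l 16860272))) (b (c (l 17533080) (l 16825216)) (c (a (l 17554192) (l 17269368)) (l 16730816)))) (a (c (c (b (l 17773240) (l 17588976)) (b (l 17329328) (a (l 17288912) (l 17099672)))) (b (l 16789360) (a (l 16751272) (l 16719144)))) (a (b (c (l 17186256) (l 16711736)) (l 16763928)) (b (l 16807104) (l 16720904))))))), by decide +kernel⟩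

def k8_pm_012_a : ∃ t, chk3 f_pm_012_a t 63 30 1 = true :=
  ⟨(a (a (b (b (c (l 18083960) (a (l 17193240) (l 17003320))) (c (c (l 17961864) (b (l 17642944) (l 17252736))) (b (l 16840048) (l 16781360)))) (a (b (b (c (l 17352208) (b (l 16724968) (l 16699384))) (l 16809256)) (b (l 16713480) (b (l 16719696) (l 16723872)))) (b (a (l 16777464) (l 16705824)) (b (b (l 16712232) (l 16716352)) (l 16722568))))) (a (b (b (c (l 17855320) (l 16896624)) (b (c (l 17516136) (l 16731808)) (l 16835528))) (b (b (l 16703728) (b (l 16707952) (l 16710816))) (b (b (b (l 16712984) (l 16714440)) (b (l 16716080) (l 16718136))) (b (l 16721232) (l 16725368))))) (b (b (c (c (l 18034624) (l 17492888)) (l 16806176)) (a (l 16780968) (l 16768456))) (b (b (b (l 16705192) (l 16708024)) (l 16712336)) (b (b (l 16716720) (l 16719688)) (b (b (l 16721936) (l 16723448)) (l 6))))))) (b (b (a (c (c (a (l 17895512) (l 17541920)) (b (a (l 17519488) (l 17329696)) (a (l 17259616) (l 17018488)))) (b (l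 16700400) (l 16677400))) (b (a (l 16804728) (l 16692728)) (a (l 16696304) (l 16698208)))) (b (a (a (l 16747792) (l 16699904)) (a (l 16701840) (a (l 16703320) (l 16704320)))) (a (a (l 16703528) (l 16705512)) (a (l 16707512) (a (l 16709040) (l 16710080)))))) (b (a (a (b (l 16709200) (b (l 16713536) (l 16716464))) (b (l 16711240) (c (l 16717360) (l 16716872)))) (b (a (l 16713320) (l 16698400)) (l 6))) (b (a (a (l 16720936) (l 6)) (l 6)) (l 6))))), by decide +kernel⟩

def k9_pm_012_a : ∃ t, chk3 f_pm_012_a t 14 31 1 = true :=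
  ⟨(a (b (l 18367336) (l 18150824)) (b (a (l 18259720) (l 18145280)) (a (l 17945928) (b (l 17909136) (a (l 17784168) (l 17486632)))))), by decide +kernel⟩

def k10_pm_012_a : ∃ t, chk3 f_pm_012_a t 15 31 1 = true :=
  ⟨(a (b (b (a (l 17795048) (a (c (l 18022776) (a (l 17669224) (l 17486720))) (b (c (l 17882744) (a (l 17468208) (l 17127064))) (c (l 17602752) (a (l 17211408) (a (l 17114824) (l 16987488))))))) (a (c (l 18022296) (a (l 17777936) (l 17424512))) (a (c (l 17581656) (l 14)) (l 14)))) (a (a (b (l 17570120) (c (l 17653152) (b (l 17446000) (a (l 17391264) (l 14))))) (b (c (l 17741600) (a (l 17308544) (l 14))) (c (b (l 17566448) (a (l 17494264) (l 14))) (l 14)))) (b (a (c (a (l 17428632) (l 14)) (l 14)) (l 14)) (l 14)))) (a (a (a (b (b (b (c (l 17663872) (l 16825224)) (c (l 17252312) (a (l 16888704) (l 16837120)))) (l 14)) (l 14)) (a (b (b (c (c (l 17551448) (b (l 17357672) (l 17113184))) (b (l 16874648) (l 16733704))) (l 14)) (l 14)) (b (b (b (c (l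 17236328) (l 16716272)) (l 16774984)) (b (l 16753672) (c (l 14) (l 16736272)))) (b (b (b (l 16737712) (l 16752664)) (b (l 16749200) (l 16753456))) (l 6))))) (a (b (b (b (a (l 16798528) (l 16722184)) (a (l 16735256) (l 16736096))) (c (l 14) (b (b (l 16726488) (l 16728208)) (a (l 16737016) (l 16737776))))) (b (b (a (b (l 16738408) (l 16745480)) (b (l 16749616) (l 6))) (l 6)) (l 6))) (b (b (b (a (l 16728400) (l 16729336)) (a (b (l 16713832) (l 16718128)) (l 16722120))) (b (a (l 16729856) (a (l 16746216) (l 16746640))) (a (c (l 14) (l 16738560)) (l 6)))) (l 6)))) (a (b (b (a (a (b (l 16730184) (l 16722272)) (b (b (l 16728824) (l 16733016)) (l 16723288))) (a (b (l 16715224) (l 6)) (l 6))) (l 6)) (l 6)) (l 6)))), by decide +kernel⟩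

theorem s11_pm_012_a : ∃ t, chk3 f_pm_012_a t 7 31 1 = true := ex3_a k9_pm_012_a k10_pm_012_a

theorem s12_pm_012_a : ∃ t, chk3 f_pm_012_a t 31 30 1 = true := ex3_a k7_pm_012_a k8_pm_012_a

theorem s13_pm_012_a : ∃ t, chk3 f_pm_012_a t 15 30 1 = true := ex3_a k6_pm_012_a s12_pm_012_a

theorem s14_pm_012_a : ∃ t, chk3 f_pm_012_a t 7 30 1 = true := ex3_a k5_pm_012_a s13_pm_012_a

theorem s15_pm_012_a : ∃ t, chk3 f_pm_012_a t 7 15 1 = true := ex3_b s14_pm_012_a s11_pm_012_a

theorem s16_pm_012_a : ∃ t, chk3 f_pm_012_a t 7 7 1 = true := ex3_b k4_pm_012_a s15_pm_012_a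

theorem s17_pm_012_a : ∃ t, chk3 f_pm_012_a t 7 3 1 = true := ex3_b k3_pm_012_a s16_pm_012_a

theorem s18_pm_012_a : ∃ t, chk3 f_pm_012_a t 7 1 1 = true := ex3_b k2_pm_012_a s17_pm_012_a

theorem s19_pm_012_a : ∃ t, chk3 f_pm_012_a t 3 1 1 = true := ex3_a k1_pm_012_a s18_pm_012_a

theorem s20_pm_012_a : ∃ t, chk3 f_pm_012_a t 1 1 1 = true := ex3_a k0_pm_012_a s19_pm_012_a

theorem c_pm_012_a : CertF 0 536870912 0 536870912 33554432 16777216 false true false .pnp 0 1 2
    ndF0q0 ndF1q2a pcF1 cut_pm_012_a Ext.none :=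
  certFK2 (fam := false) (s1 := true) (s2 := false) (a := 0) (b := 1) (c := 2) (cn := .pnp) (n1 := ndF0q0) (n2 := ndF1q2a) (pc := pcF1) (cut := cut_pm_012_a) (xt := Ext.none) (P1 := 0) (W1 := 536870912) (P2 := 0) (W2 := 536870912) (P3 := 33554432) (W3 := 16777216)
    rfl rfl rfl (fun _ => rfl) s20_pm_012_a

noncomputable def cut_pm_012_b : Cut := Cut.of [[⟨0, 0, 0, 33554432⟩, ⟨1, 1, 0, 33554432⟩, ⟨2, 1, 0, 33554432⟩], [⟨0, 0, 1, 25165824⟩, ⟨1, 1, 2, 25165824⟩, ⟨2, 1, 0, 16777216⟩, ⟨0, 0, 0, 67108864⟩, ⟨0, 1, 0, 1056964608⟩, ⟨1, 0, 0, 1056964608⟩, ⟨1, 1, 0, 67108864⟩]]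

noncomputable def f_pm_012_b : ℕ → ℕ → ℕ → ℕ → Bool := onCell 0 536870912 536870912 536870912 33554432 16777216
    (rowFK 1 false true false .pnp 0 1 2 (qsf 0 536870912 1239849684 370763052 1) ndF0q0 ndF1q2b pcF1 cut_pm_012_b Ext.none)

def k0_pm_012_b : ∃ t, chk3 f_pm_012_b t 1 1 1 = true :=
  ⟨(a (a (l 1) (b (l 1) (b (l 1) (b (a (l 1) (l 18848160)) (b (l 240020326135) (b (l 19570248) (b (l 19727064) (l 19825928)))))))) (b (a (l 1) (b (l 1) (a (l 235185810535) (l 18199384)))) (b (a (a (l 226596299591) (l 18551336)) (l 18541384)) (b (a (l 18961568) (l 18805376)) (b (a (l 19212064) (l 18949480)) (b (a (l 19344992) (l 19027352)) (b (a (l 19413576) (l 19068024)) (a (l 19458272) (l 19094744))))))))), by decide +kernel⟩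

theorem c_pm_012_b : CertF 0 536870912 1239849684 370763052 33554432 16777216 false true false .pnp 0 1 2
    ndF0q0 ndF1q2b pcF1 cut_pm_012_b Ext.none :=
  certFK1 (fam := false) (s1 := true) (s2 := false) (a := 0) (b := 1) (c := 2) (cn := .pnp) (n1 := ndF0q0) (n2 := ndF1q2b) (pc := pcF1) (cut := cut_pm_012_b) (xt := Ext.none) (P1 := 0) (W1 := 536870912) (P2 := 1239849684) (W2 := 370763052) (P3 := 33554432) (W3 := 16777216)
    rfl rfl rfl (fun _ => rfl) k0_pm_012_b

noncomputable def cut_pm_022_a : Cut := Cut.of [[⟨0, 0, 0, 33554432⟩, ⟨1, 1, 0, 33554432⟩, ⟨2, 1, 0, 33554432⟩]]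

noncomputable def f_pm_022_a : ℕ → ℕ → ℕ → ℕ → Bool := onCell 1073741824 536870912 0 536870912 33554432 16777216
    (rowFK 2 false true false .pp 0 2 2 (qsf 0 536870912 0 536870912 2) ndF0q0 ndF1q2a pcF2 cut_pm_022_a Ext.none)

def k0_pm_022_a : ∃ t, chk3 f_pm_022_a t 4 2 1 = true :=
  ⟨(a (b (l 19963696) (l 19992832)) (b (l 19721408) (l 19634952))), by decide +kernel⟩

def k1_pm_022_a : ∃ t, chk3 f_pm_022_a t 4 6 1 = true :=
  ⟨(a (a (b (l 19930096) (a (b (l 19732896) (l 19388120)) (l 19412704))) (b (l 19670656) (b (l 19352032) (l 18896344)))) (b (a (l 19423112) (l 19256248)) (a (b (l 19082928) (a (l 18771768) (l 314643796071))) (l 355446323799)))), by decide +kernel⟩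

def k2_pm_022_a : ∃ t, chk3 f_pm_022_a t 16 28 1 = true :=
  ⟨(b (a (l 18741568) (l 18800680)) (a (c (l 18941824) (b (l 18315528) (a (l 18084592) (l 18017440)))) (c (l 18749824) (a (l 18086432) (l 18024688))))), by decide +kernel⟩

def k3_pm_022_a : ∃ t, chk3 f_pm_022_a t 32 29 1 = true :=
  ⟨(b (b (c (l 18450800) (a (c (l 17979824) (b (l 17640024) (l 17288688))) (a (l 17595312) (l 17441960)))) (c (a (l 18208488) (l 18141872)) (a (a (c (l 17396408) (b (l 17117920) (a (l 16833736) (l 16930688)))) (c (l 17535648) (b (l 17244816) (l 16793784)))) (c (a (l 17550496) (l 17399096)) (a (b (l 17226472) (l 16906360)) (a (l 16984320) (b (l 17205824) (l 16955192)))))))) (b (c (c (a (l 18186848) (l 18098464)) (a (b (l 17784800) (a (l 17490712) (l 17544944))) (a (l 17439608) (b (l 17703544) (l 17448704))))) (a (b (c (a (a (l 17070824) (l 17164448)) (c (l 17397608) (l 17087904))) (a (a (b (l 16773664) (l 16724928)) (l 16724192)) (a (l 16782680) (l 16778712)))) (a (a (a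 (l 16707080) (l 16715112)) (c (l 16787064) (l 16674152))) (a (l 16707472) (l 16745720)))) (a (a (a (l 16726592) (l 16745160)) (b (l 16822152) (l 16760808))) (a (l 16695744) (a (l 16755912) (l 16712296)))))) (b (c (c (a (l 17754736) (l 17679152)) (a (a (a (c (l 17466504) (l 16974720)) (l 17103536)) (a (l 17154672) (l 17185304))) (a (c (l 17406120) (l 17079088)) (a (l 17238048) (l 17102784))))) (a (a (a (c (a (l 16720552) (l 16739224)) (l 16681904)) (c (l 16715040) (l 16678352))) (a (l 16698504) (l 16676552))) (a (a (l 16675552) (l 16674544)) (a (l 16673528) (l 16709200))))) (a (a (a (a (a (l 16716656) (l 16716896)) (a (l 16715856) (l 16714848))) (a (l 16716024) (l 16711592))) (a (a (l 16709912) (l 16729344)) (a (l 16727936) (l 16726672)))) (a (a (l 16714544) (l 16712840)) (a (l 16722184) (a (l 16721688) (l 16721536)))))))), by decide +kernel⟩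

def k4_pm_022_a : ∃ t, chk3 f_pm_022_a t 33 29 1 = true :=
  ⟨(a (b (c (b (l 18439120) (l 18143112)) (b (c (l 17850976) (l 17375000)) (c (b (l 17601648) (l 17415800)) (a (l 16884528) (l 16936672))))) (b (c (c (l 18015624) (b (l 17659432) (l 17223728))) (a (b (l 16824832) (l 16755416)) (b (l 16858904) (l 16755160)))) (a (b (c (c (l 17731624) (l 17194376)) (l 16691920)) (l 16721768)) (a (l 16729944) (l 16728976))))) (b (c (l 17983240) (b (l 17524360) (b (l 17275984) (l 16924568)))) (b (c (b (l 17815976) (l 17441184)) (a (l 16723048) (l 16743648))) (a (a (l 16749504) (l 16749576)) (a (l 16750160) (l 16751240)))))), by decide +kernel⟩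

def k5_pm_022_a : ∃ t, chk3 f_pm_022_a t 17 14 1 = true :=
  ⟨(a (b (b (l 18640904) (a (l 18039296) (l 17969856))) (b (c (b (l 18231160) (a (l 17993040) (l 17925184))) (b (a (l 17546168) (l 17510376)) (a (b (l 17331264) (l 17011536)) (b (l 17308552) (l 16999968))))) (a (b (c (b (l 17754504) (l 17431680)) (a (l 16745144) (l 16748456))) (a (b (l 16823248) (l 16743480)) (a (l 16757384) (b (l 16865520) (l 16726544))))) (a (a (b (c (l 17551360) (l 16835960)) (b (c (l 18287799287) (l 16717440)) (a (l 74121643287) (l 117071389447)))) (b (c (l 17413096) (l 16718312)) (b (c (b (l 59090111479) (l 179886266839)) (l 85932800087)) (l 1)))) (b (b (c (l 46205688055) (a (l 16974456) (c (b (l 17194456) (l 126735381767)) (l 79490338375)))) (a (b (c (l 17529640) (l 16718272)) (c (l 191697898231) (l 100965181207))) (l 1))) (l 1)))))) (b (b (l 18492896) (a (c (l 18445376) (l 17865928)) (a (b (l 18209064) (l 56943835751)) (l 248070566055)))) (b (b (a (c (l 18124936) (a (l 17507720)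 (a (l 37078586471) (l 185255459063)))) (l 257196786791)) (a (a (c (l 62312276039) (a (b (l 17297088) (a (l 16912688) (l 147136877063))) (b (l 56942403607) (l 187402245655)))) (l 231426438743)) (l 1))) (a (b (c (l 236795319143) (a (l 154652624455) (l 1))) (l 1)) (l 1))))), by decide +kernel⟩

def k6_pm_022_a : ∃ t, chk3 f_pm_022_a t 32 30 1 = true :=
  ⟨(b (b (b (a (a (a (a (a (a (l 16720160) (l 16709568)) (l 16719896)) (a (l 16719680) (l 16708984))) (a (a (l 16708768) (l 16708552)) (l 16718712))) (a (a (l 16707792) (l 16707352)) (a (l 16706904) (l 16706456)))) (a (a (a (l 16706008) (l 16705552)) (l 16720600)) (a (l 16724928) (a (l 16703272) (l 16702808))))) (a (a (c (a (a (a (l 16724816) (l 16714128)) (l 16724304)) (a (l 16713408) (l 16712992))) (a (a (l 16692768) (l 16692384)) (l 16694424))) (a (a (l 16712376) (l 16711968)) (c (l 16722000) (l 16690216)))) (a (a (c (l 16710648) (l 16689408)) (c (l 16709784) (l 16688592))) (a (l 16724560) (a (l 16708200) (l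 16707776)))))) (b (a (a (a (a (c (a (l 16729384) (l 16718712)) (l 16697392)) (a (l 16728800) (l 16718128))) (c (a (l 16718048) (l 16717664)) (l 16699128))) (a (a (l 16727592) (l 16716728)) (a (l 16716352) (l 16715968)))) (a (a (c (l 16715512) (l 16694312)) (c (l 16714720) (l 16714536))) (a (c (l 16713920) (l 16713792)) (a (l 16713280) (b (l 16711600) (a (l 16714296) (l 16714856))))))) (b (a (a (a (c (a (l 16702672) (l 16701008)) (l 16700784)) (a (l 16721440) (l 16700128))) (a (c (l 16699752) (l 16699448)) (c (l 16699016) (l 16698768)))) (a (a (c (l 16698280) (l 16698080)) (l 16718440)) (a (l 16717728) (a (l 16717192) (l 16718488))))) (l 6)))) (l 6)), by decide +kernel⟩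

def k7_pm_022_a : ∃ t, chk3 f_pm_022_a t 33 30 1 = true :=
  ⟨(b (a (b (a (b (b (a (l 16700888) (l 16701664)) (a (l 16703360) (a (a (l 16704008) (l 16705184)) (l 16706936)))) (b (c (l 16744840) (a (l 16705832) (l 16709888))) (a (b (l 16708336) (l 16710416)) (l 16713992)))) (b (a (b (l 16706360) (l 16710424)) (l 16713048)) (a (l 16716552) (l 16721128)))) (b (a (a (b (l 16713536) (b (l 16716664) (l 16718752))) (b (l 16718120) (l 16722256))) (a (l 16724736) (l 16729240))) (b (a (a (l 16721896) (l 16726408)) (l 16718696)) (l 6)))) (b (a (b (l 16719968) (l 16727944)) (b (l 16729088) (l 16736904))) (a (b (a (l 16733720) (l 16738160)) (l 16730856)) (b (a (l 16742560) (l 16725952)) (a (l 16750456) (b (l 31171985351) (a (l 6) (l 121903170567)))))))) (a (l 6) (a (l 6) (a (l 6) (a (l 6) (l 1)))))), by decide +kernel⟩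

def k8_pm_022_a : ∃ t, chk3 f_pm_022_a t 16 31 1 = true :=
  ⟨(a (l 6) (a (l 6) (l 1))), by decide +kernel⟩

def k9_pm_022_a : ∃ t, chk3 f_pm_022_a t 17 15 1 = true :=
  ⟨(b (a (b (a (b (a (b (l 16738056) (a (l 16722552) (b (l 16725000) (a (l 16727736) (l 79490361319))))) (b (a (b (l 16721808) (l 42446261719)) (b (l 84859061719) (l 129956220519))) (a (b (l 95059615351) (l 1)) (l 1)))) (a (b (a (b (l 16728336) (a (l 16731120) (l 100965197991))) (b (l 106333905847) (l 1))) (a (l 125124408967) (l 1))) (l 1))) (l 1)) (l 1)) (l 1)) (l 1)), by decide +kernel⟩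

def k10_pm_022_a : ∃ t, chk3 f_pm_022_a t 9 7 1 = true :=
  ⟨(b (a (a (b (a (b (l 18240624) (l 283504057527)) (l 295852421975)) (l 1)) (l 1)) (l 1)) (l 1)), by decide +kernel⟩

def k11_pm_022_a : ∃ t, chk3 f_pm_022_a t 5 1 1 = true :=
  ⟨(b (a (b (l 19532600) (l 355984813287)) (l 1)) (b (l 1) (l 1))), by decide +kernel⟩

def k12_pm_022_a : ∃ t, chk3 f_pm_022_a t 3 1 1 = true :=
  ⟨(l 1), by decide +kernel⟩

theorem s13_pm_022_a : ∃ t, chk3 f_pm_022_a t 16 30 1 = true := ex3_a k6_pm_022_a k7_pm_022_a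

theorem s14_pm_022_a : ∃ t, chk3 f_pm_022_a t 16 15 1 = true := ex3_b s13_pm_022_a k8_pm_022_a

theorem s15_pm_022_a : ∃ t, chk3 f_pm_022_a t 8 15 1 = true := ex3_a s14_pm_022_a k9_pm_022_a

theorem s16_pm_022_a : ∃ t, chk3 f_pm_022_a t 16 29 1 = true := ex3_a k3_pm_022_a k4_pm_022_a

theorem s17_pm_022_a : ∃ t, chk3 f_pm_022_a t 16 14 1 = true := ex3_b k2_pm_022_a s16_pm_022_a

theorem s18_pm_022_a : ∃ t, chk3 f_pm_022_a t 8 14 1 = true := ex3_a s17_pm_022_a k5_pm_022_a

theorem s19_pm_022_a : ∃ t, chk3 f_pm_022_a t 8 7 1 = true := ex3_b s18_pm_022_a s15_pm_022_a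

theorem s20_pm_022_a : ∃ t, chk3 f_pm_022_a t 4 7 1 = true := ex3_a s19_pm_022_a k10_pm_022_a

theorem s21_pm_022_a : ∃ t, chk3 f_pm_022_a t 4 3 1 = true := ex3_b k1_pm_022_a s20_pm_022_a

theorem s22_pm_022_a : ∃ t, chk3 f_pm_022_a t 4 1 1 = true := ex3_b k0_pm_022_a s21_pm_022_a

theorem s23_pm_022_a : ∃ t, chk3 f_pm_022_a t 2 1 1 = true := ex3_a s22_pm_022_a k11_pm_022_a

theorem s24_pm_022_a : ∃ t, chk3 f_pm_022_a t 1 1 1 = true := ex3_a s23_pm_022_a k12_pm_022_a

theorem c_pm_022_a : CertF 0 536870912 0 536870912 33554432 16777216 false true false .pp 0 2 2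
    ndF0q0 ndF1q2a pcF2 cut_pm_022_a Ext.none :=
  certFK2 (fam := false) (s1 := true) (s2 := false) (a := 0) (b := 2) (c := 2) (cn := .pp) (n1 := ndF0q0) (n2 := ndF1q2a) (pc := pcF2) (cut := cut_pm_022_a) (xt := Ext.none) (P1 := 0) (W1 := 536870912) (P2 := 0) (W2 := 536870912) (P3 := 33554432) (W3 := 16777216)
    rfl rfl rfl (fun _ => rfl) s24_pm_022_a

noncomputable def cut_pm_022_b : Cut := Cut.of [[⟨0, 0, 0, 33554432⟩, ⟨1, 1, 0, 33554432⟩, ⟨2, 1, 0, 33554432⟩]]

noncomputable def f_pm_022_b : ℕ → ℕ → ℕ → ℕ → Bool := onCell 1073741824 536870912 1239849684 370763052 33554432 16777216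
    (rowFK 2 false true false .pp 0 2 2 (qsf 0 536870912 1239849684 370763052 2) ndF0q0 ndF1q2b pcF2 cut_pm_022_b Ext.none)

def k0_pm_022_b : ∃ t, chk3 f_pm_022_b t 1 1 1 = true :=
  ⟨(a (b (a (b (a (l 19961384) (l 19858240)) (l 20005472)) (b (a (l 19738880) (l 336658421735)) (l 19744864))) (a (b (l 19661672) (l 19347160)) (b (l 19528104) (l 19202376)))) (a (b (b (l 1) (a (l 19589328) (l 19412960))) (b (l 19447904) (l 19252752))) (b (l 1) (a (l 19183760) (l 1165249838663))))), by decide +kernel⟩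

theorem c_pm_022_b : CertF 0 536870912 1239849684 370763052 33554432 16777216 false true false .pp 0 2 2
    ndF0q0 ndF1q2b pcF2 cut_pm_022_b Ext.none :=
  certFK2 (fam := false) (s1 := true) (s2 := false) (a := 0) (b := 2) (c := 2) (cn := .pp) (n1 := ndF0q0) (n2 := ndF1q2b) (pc := pcF2) (cut := cut_pm_022_b) (xt := Ext.none) (P1 := 0) (W1 := 536870912) (P2 := 1239849684) (W2 := 370763052) (P3 := 33554432) (W3 := 16777216)
    rfl rfl rfl (fun _ => rfl) k0_pm_022_b

noncomputable def f_pm_023 : ℕ → ℕ → ℕ → ℕ → Bool := onCell 0 536870912 1073741824 536870912 33554432 16777216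
    (rowFK 1 false true false .up 0 2 3 (qsf 0 536870912 1610612736 536870912 2) ndF0q0 ndF1q3 pcF2 Cut.none Ext.none)

def k0_pm_023 : ∃ t, chk3 f_pm_023 t 1 1 1 = true :=
  ⟨(a (b (a (l 1) (l 379607439367)) (b (a (l 20057456) (l 19367216)) (a (l 19756872) (l 18994992)))) (b (a (l 272231683255) (l 219617318359)) (a (b (l 18536752) (l 18170624)) (b (l 18106200) (l 17814704))))), by decide +kernel⟩

theorem c_pm_023 : CertF 0 536870912 1610612736 536870912 33554432 16777216 false true false .up 0 2 3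
    ndF0q0 ndF1q3 pcF2 Cut.none Ext.none :=
  certFK1 (fam := false) (s1 := true) (s2 := false) (a := 0) (b := 2) (c := 3) (cn := .up) (n1 := ndF0q0) (n2 := ndF1q3) (pc := pcF2) (cut := Cut.none) (xt := Ext.none) (P1 := 0) (W1 := 536870912) (P2 := 1610612736) (W2 := 536870912) (P3 := 33554432) (W3 := 16777216)
    rfl rfl rfl (fun _ => rfl) k0_pm_023

noncomputable def f_pm_033 : ℕ → ℕ → ℕ → ℕ → Bool := onCell 1610612736 536870912 1610612736 536870912 33554432 16777216
    (rowFK 2 false true false .pnn 0 3 3 (qsf 0 536870912 1610612736 536870912 3) ndF0q0 ndF1q3 pcF3 Cut.none Ext.none)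

def k0_pm_033 : ∃ t, chk3 f_pm_033 t 1 1 1 = true :=
  ⟨(a (b (a (b (l 4) (a (l 18976288) (l 4))) (l 4)) (a (b (a (l 18055808) (l 18484128)) (a (l 17275728) (l 17577272))) (b (l 4) (a (l 17835560) (l 4))))) (l 4)), by decide +kernel⟩

theorem c_pm_033 : CertF 0 536870912 1610612736 536870912 33554432 16777216 false true false .pnn 0 3 3
    ndF0q0 ndF1q3 pcF3 Cut.none Ext.none :=
  certFK2 (fam := false) (s1 := true) (s2 := false) (a := 0) (b := 3) (c := 3) (cn := .pnn) (n1 := ndF0q0) (n2 := ndF1q3) (pc := pcF3) (cut := Cut.none) (xt := Ext.none) (P1 := 0) (W1 := 536870912) (P2 := 1610612736) (W2 := 536870912) (P3 := 33554432) (W3 := 16777216)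
    rfl rfl rfl (fun _ => rfl) k0_pm_033

noncomputable def f_pm_101 : ℕ → ℕ → ℕ → ℕ → Bool := onCell 536870912 536870912 536870912 536870912 33554432 16777216
    (rowFK 0 false true false .npn 1 0 1 (qsf 536870912 536870912 536870912 536870912 0) ndF0q1 ndF1q1 pcF0 Cut.none Ext.none)

def k0_pm_101 : ∃ t, chk3 f_pm_101 t 1 1 1 = true :=
  ⟨(a (l 4) (b (a (l 4) (l 1)) (a (b (a (l 4) (b (l 4) (l 18846000))) (a (b (l 4) (l 18858216)) (b (l 19000888) (a (l 18806824) (l 18963744))))) (b (a (b (l 1) (a (l 18885104) (l 1))) (l 1)) (a (b (l 19067840) (l 19230744)) (b (c (l 19638600) (l 19055424)) (c (l 19990672) (l 19043080)))))))), by decide +kernel⟩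

theorem c_pm_101 : CertF 536870912 536870912 536870912 536870912 33554432 16777216 false true false .npn 1 0 1
    ndF0q1 ndF1q1 pcF0 Cut.none Ext.none :=
  certFK0 (fam := false) (s1 := true) (s2 := false) (a := 1) (b := 0) (c := 1) (cn := .npn) (n1 := ndF0q1) (n2 := ndF1q1) (pc := pcF0) (cut := Cut.none) (xt := Ext.none) (P1 := 536870912) (W1 := 536870912) (P2 := 536870912) (W2 := 536870912) (P3 := 33554432) (W3 := 16777216)
    rfl rfl rfl k0_pm_101

noncomputable def cut_pm_102_a : Cut := Cut.of [[⟨0, 1, 0, 33554432⟩, ⟨1, 0, 0, 33554432⟩, ⟨2, 1, 0, 33554432⟩]]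

noncomputable def f_pm_102_a : ℕ → ℕ → ℕ → ℕ → Bool := onCell 536870912 536870912 0 536870912 33554432 16777216
    (rowFK 0 false true false .npp 1 0 2 (qsf 536870912 536870912 0 536870912 0) ndF0q1 ndF1q2a pcF0 cut_pm_102_a Ext.none)

def k0_pm_102_a : ∃ t, chk3 f_pm_102_a t 2 1 1 = true :=
  ⟨(b (a (a (l 2) (b (l 2) (l 17753976))) (a (b (l 17407048) (l 17584968)) (b (a (l 17270208) (l 17177720)) (l 17584568)))) (a (b (l 17972272) (b (l 18085040) (a (l 18226960) (l 18045576)))) (b (a (l 17717152) (l 17682992)) (b (l 17807024) (a (l 17874048) (l 17799760)))))), by decide +kernel⟩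

def k1_pm_102_a : ∃ t, chk3 f_pm_102_a t 6 1 1 = true :=
  ⟨(b (a (a (b (l 17040784) (l 17329608)) (b (a (l 16903168) (l 16991232)) (l 17223680))) (b (a (b (a (l 119353509031) (l 123648532567)) (l 17051936)) (b (l 3) (l 129017368343))) (a (l 17113680) (b (a (l 16936040) (l 105931775639)) (l 16969776))))) (b (a (a (l 17589520) (l 17673968)) (a (b (l 17227456) (l 17404040)) (b (l 17060824) (l 17324136)))) (a (b (l 17670000) (l 17879920)) (b (a (l 17492784) (l 17314824)) (a (l 17538712) (l 17495928)))))), by decide +kernel⟩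

def k2_pm_102_a : ∃ t, chk3 f_pm_102_a t 7 2 1 = true :=
  ⟨(a (b (l 3) (a (b (l 133312418247) (a (l 16989744) (l 115595560455))) (b (l 3) (a (l 122038248967) (l 3))))) (l 3)), by decide +kernel⟩

def k3_pm_102_a : ∃ t, chk3 f_pm_102_a t 7 6 1 = true :=
  ⟨(a (a (b (l 17044368) (l 17098520)) (b (a (b (l 17180888) (l 16993720)) (b (l 122575203191) (l 122038182407))) (a (l 16883824) (b (l 17100656) (l 16916424))))) (a (b (l 3) (a (b (a (l 109153318471) (l 128480832567)) (a (l 17034576) (l 107542636775))) (b (l 3) (a (l 129554519303) (l 3))))) (l 3))), by decide +kernel⟩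

def k4_pm_102_a : ∃ t, chk3 f_pm_102_a t 14 7 1 = true :=
  ⟨(b (a (b (l 17107208) (l 17158680)) (b (l 16951832) (a (l 17032896) (l 16946240)))) (a (b (l 17193752) (l 17257904)) (b (l 17073032) (b (l 17057760) (l 17110304))))), by decide +kernel⟩

def k5_pm_102_a : ∃ t, chk3 f_pm_102_a t 15 14 1 = true :=
  ⟨(a (a (b (l 16925200) (l 16862976)) (b (a (b (l 103247713367) (l 17014000)) (b (l 130628233415) (l 131701805703))) (a (l 16867672) (b (a (l 16986816) (l 17033408)) (l 16902104))))) (a (b (l 3) (a (b (a (l 113448139991) (l 135996809287)) (a (l 16968224) (b (l 132775414279) (l 16980040)))) (b (l 3) (a (b (l 3) (b (l 138144107319) (a (l 110226738407) (l 139217799047)))) (l 3))))) (l 3))), by decide +kernel⟩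

def k6_pm_102_a : ∃ t, chk3 f_pm_102_a t 30 15 1 = true :=
  ⟨(a (a (l 17186664) (c (l 17116856) (l 17097008))) (b (l 17004264) (l 17073832))), by decide +kernel⟩

def k7_pm_102_a : ∃ t, chk3 f_pm_102_a t 62 30 1 = true :=
  ⟨(b (a (l 16869760) (a (b (a (l 16942744) (b (a (l 113447920903) (l 138143912071)) (l 122574539527))) (l 16884144)) (a (b (b (l 3) (a (b (l 138680741399) (l 118279569271)) (b (l 3) (l 140291283639)))) (b (a (l 16911712) (c (l 116132262391) (b (a (l 125258888407) (l 138680616999)) (l 130090607191)))) (l 16877920))) (b (l 3) (c (b (l 139754599799) (a (l 118816548775) (b (l 139754542263) (l 138143888071)))) (b (a (b (l 3) (a (b (l 138680587687) (l 128480023095)) (l 140291165719))) (l 3)) (a (b (a (l 16836784) (b (l 137606784951) (l 132238017479))) (l 16818528)) (b (a (l 138143598167) (l 3)) (a (b (l 130090539607) (l 16808584)) (b (l 139217346615) (l 136532984775))))))))))) (a (l 16797888) (a (l 16781832) (b (a (l 16829104) (b (a (l 16842400)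 (b (a (l 16848880) (b (c (l 16886944) (l 132774887527)) (l 16842008))) (l 16829512))) (l 16807128))) (l 16782936))))), by decide +kernel⟩

def k8_pm_102_a : ∃ t, chk3 f_pm_102_a t 63 30 1 = true :=
  ⟨(a (b (l 3) (a (b (a (b (a (b (c (l 139217484951) (a (b (l 136532984599) (a (l 16782104) (l 133848632679))) (b (l 3) (l 138143596071)))) (a (l 16803776) (b (c (l 138143773527) (a (l 133848628967) (l 135996111911))) (l 133848628679)))) (b (l 3) (a (b (l 3) (c (l 138680578199) (a (l 135459240503) (l 137069853671)))) (l 3)))) (a (l 16795072) (b (a (a (l 16776680) (b (b (l 136532981287) (l 134385498903)) (l 16789872))) (a (b (l 137069854119) (b (l 133848626887) (l 16784200))) (b (l 3) (b (l 138143597703) (l 135996111959))))) (a (l 16777376) (a (l 16774568) (b (l 134385498567) (l 16774728))))))) (b (l 3) (a (b (l 3) (a (a (b (b (l 136532982119) (l 135459240439)) (l 16775376)) (b (l 137069853127) (b (l 135996110759) (l 134922369015)))) (a (b (l 3) (l 136532981863))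 (l 3)))) (l 3)))) (a (l 16779376) (b (a (b (a (l 16774232) (a (b (b (l 135459240071) (l 16775448)) (l 16774720)) (b (b (l 138143594471) (l 136532981303)) (l 134922368759)))) (l 16772960)) (b (a (b (l 3) (a (a (l 135996110007) (l 136532981271)) (l 138143594231))) (l 3)) (a (a (l 16774568) (b (l 135996110967) (l 16774736))) (a (b (l 137069852103) (l 134922368663)) (b (l 3) (l 136532980839)))))) (a (l 16770168) (b (a (l 16773016) (b (l 133311755527) (l 16773824))) (l 16771832)))))) (b (l 3) (a (b (l 3) (a (b (a (a (b (b (l 136532980775) (l 133848626487)) (l 16774768)) (b (l 137606722727) (b (l 135996109495) (l 133848625959)))) (a (b (l 3) (a (l 136532980583) (l 137606722567))) (l 3))) (a (l 16773720) (a (b (b (l 134385497143) (l 16774880)) (l 16774208)) (b (b (l 137606722391) (l 135996109255)) (b (l 133848625911) (l 16774608)))))) (b (l 3) (b (l 3) (b (a (a (l 136532980295) (l 3)) (l 3)) (l 6)))))) (l 3))))) (l 3)), by decide +kernel⟩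

def k9_pm_102_a : ∃ t, chk3 f_pm_102_a t 31 31 1 = true :=
  ⟨(a (b (a (l 16849856) (l 16879312)) (b (l 16886736) (l 16918408))) (b (a (b (a (l 16802624) (a (b (a (l 16792680) (l 6)) (l 6)) (l 6))) (l 6)) (l 6)) (l 6))), by decide +kernel⟩

theorem s10_pm_102_a : ∃ t, chk3 f_pm_102_a t 31 30 1 = true := ex3_a k7_pm_102_a k8_pm_102_a

theorem s11_pm_102_a : ∃ t, chk3 f_pm_102_a t 31 15 1 = true := ex3_b s10_pm_102_a k9_pm_102_a

theorem s12_pm_102_a : ∃ t, chk3 f_pm_102_a t 15 15 1 = true := ex3_a k6_pm_102_a s11_pm_102_a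

theorem s13_pm_102_a : ∃ t, chk3 f_pm_102_a t 15 7 1 = true := ex3_b k5_pm_102_a s12_pm_102_a

theorem s14_pm_102_a : ∃ t, chk3 f_pm_102_a t 7 7 1 = true := ex3_a k4_pm_102_a s13_pm_102_a

theorem s15_pm_102_a : ∃ t, chk3 f_pm_102_a t 7 3 1 = true := ex3_b k3_pm_102_a s14_pm_102_a

theorem s16_pm_102_a : ∃ t, chk3 f_pm_102_a t 7 1 1 = true := ex3_b k2_pm_102_a s15_pm_102_a

theorem s17_pm_102_a : ∃ t, chk3 f_pm_102_a t 3 1 1 = true := ex3_a k1_pm_102_a s16_pm_102_a

theorem s18_pm_102_a : ∃ t, chk3 f_pm_102_a t 1 1 1 = true := ex3_a k0_pm_102_a s17_pm_102_a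

theorem c_pm_102_a : CertF 536870912 536870912 0 536870912 33554432 16777216 false true false .npp 1 0 2
    ndF0q1 ndF1q2a pcF0 cut_pm_102_a Ext.none :=
  certFK0 (fam := false) (s1 := true) (s2 := false) (a := 1) (b := 0) (c := 2) (cn := .npp) (n1 := ndF0q1) (n2 := ndF1q2a) (pc := pcF0) (cut := cut_pm_102_a) (xt := Ext.none) (P1 := 536870912) (W1 := 536870912) (P2 := 0) (W2 := 536870912) (P3 := 33554432) (W3 := 16777216)
    rfl rfl rfl s18_pm_102_a

noncomputable def cut_pm_102_b : Cut := Cut.of [[⟨0, 1, 0, 33554432⟩, ⟨1, 0, 0, 33554432⟩, ⟨2, 1, 0, 33554432⟩]]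

noncomputable def f_pm_102_b : ℕ → ℕ → ℕ → ℕ → Bool := onCell 536870912 536870912 0 536870912 33554432 16777216
    (rowFK 1 false true false .npp 1 0 2 (qsf 536870912 536870912 1239849684 370763052 0) ndF0q1 ndF1q2b pcF0 cut_pm_102_b Ext.none)

def k0_pm_102_b : ∃ t, chk3 f_pm_102_b t 1 1 1 = true :=
  ⟨(b (a (l 1) (a (l 1) (l 3))) (a (b (l 1) (a (l 1) (a (b (l 1) (l 17470296)) (b (l 217467031879) (l 17093480))))) (a (b (a (b (l 1) (a (l 267932473287) (a (l 205118446023) (l 176664523543)))) (b (l 3) (a (b (l 408190139207) (l 17086896)) (l 3)))) (a (b (l 75196084135) (l 16909184)) (b (a (b (l 17007488) (l 16990144)) (l 3)) (l 17321296)))) (l 3)))), by decide +kernel⟩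

theorem c_pm_102_b : CertF 536870912 536870912 1239849684 370763052 33554432 16777216 false true false .npp 1 0 2
    ndF0q1 ndF1q2b pcF0 cut_pm_102_b Ext.none :=
  certFK1 (fam := false) (s1 := true) (s2 := false) (a := 1) (b := 0) (c := 2) (cn := .npp) (n1 := ndF0q1) (n2 := ndF1q2b) (pc := pcF0) (cut := cut_pm_102_b) (xt := Ext.none) (P1 := 536870912) (W1 := 536870912) (P2 := 1239849684) (W2 := 370763052) (P3 := 33554432) (W3 := 16777216)
    rfl rfl rfl (fun _ => rfl) k0_pm_102_b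

noncomputable def f_pm_112_a : ℕ → ℕ → ℕ → ℕ → Bool := onCell 536870912 536870912 0 536870912 33554432 16777216
    (rowFK 0 false true false .dn 1 1 2 (qsf 536870912 536870912 0 536870912 1) ndF0q1 ndF1q2a pcF1 Cut.none Ext.none)

def k0_pm_112_a : ∃ t, chk3 f_pm_112_a t 1 1 1 = true :=
  ⟨(a (a (b (a (l 18417280) (b (l 18094120) (l 18321880))) (l 31176364359)) (b (a (b (l 17933040) (l 18241184)) (l 1)) (b (l 1) (l 1)))) (l 1)), by decide +kernel⟩

theorem c_pm_112_a : CertF 536870912 536870912 0 536870912 33554432 16777216 false true false .dn 1 1 2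
    ndF0q1 ndF1q2a pcF1 Cut.none Ext.none :=
  certFK0 (fam := false) (s1 := true) (s2 := false) (a := 1) (b := 1) (c := 2) (cn := .dn) (n1 := ndF0q1) (n2 := ndF1q2a) (pc := pcF1) (cut := Cut.none) (xt := Ext.none) (P1 := 536870912) (W1 := 536870912) (P2 := 0) (W2 := 536870912) (P3 := 33554432) (W3 := 16777216)
    rfl rfl rfl k0_pm_112_a

noncomputable def f_pm_112_b : ℕ → ℕ → ℕ → ℕ → Bool := onCell 536870912 536870912 536870912 536870912 33554432 16777216
    (rowFK 1 false true false .dn 1 1 2 (qsf 536870912 536870912 1239849684 370763052 1) ndF0q1 ndF1q2b pcF1 Cut.none Ext.none)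

def k0_pm_112_b : ∃ t, chk3 f_pm_112_b t 1 1 1 = true :=
  ⟨(a (a (b (b (b (l 205657469479) (l 18113464)) (l 18400912)) (b (l 18383432) (b (l 18440616) (b (l 18505312) (b (l 18544616) (b (l 18565544) (l 18578944))))))) (b (b (a (l 17867752) (l 17764032)) (b (l 17839008) (l 17872160))) (b (l 18004432) (b (l 18024600) (l 2))))) (a (b (b (b (a (l 17315712) (l 17273896)) (l 17537296)) (b (l 17483056) (l 17408456))) (b (a (l 17639400) (l 2)) (l 2))) (b (a (b (b (l 3) (l 266994045143)) (b (l 17446776) (l 2))) (l 3)) (l 2)))), by decide +kernel⟩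

theorem c_pm_112_b : CertF 536870912 536870912 1239849684 370763052 33554432 16777216 false true false .dn 1 1 2
    ndF0q1 ndF1q2b pcF1 Cut.none Ext.none :=
  certFK1 (fam := false) (s1 := true) (s2 := false) (a := 1) (b := 1) (c := 2) (cn := .dn) (n1 := ndF0q1) (n2 := ndF1q2b) (pc := pcF1) (cut := Cut.none) (xt := Ext.none) (P1 := 536870912) (W1 := 536870912) (P2 := 1239849684) (W2 := 370763052) (P3 := 33554432) (W3 := 16777216)
    rfl rfl rfl (fun _ => rfl) k0_pm_112_b

noncomputable def cut_pm_113 : Cut := Cut.of [[⟨0, 1, 0, 7061502⟩, ⟨1, 1, 0, 7061502⟩, ⟨2, 2, 0, 184626⟩]]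

noncomputable def f_pm_113 : ℕ → ℕ → ℕ → ℕ → Bool := onCell 536870912 536870912 536870912 536870912 33554432 16777216
    (rowFK 1 false true false .nn 1 1 3 (qsf 536870912 536870912 1610612736 536870912 1) ndF0q1 ndF1q3 pcF1 cut_pm_113 Ext.none)

def k0_pm_113 : ∃ t, chk3 f_pm_113 t 1 1 1 = true :=
  ⟨(a (b (b (l 1) (a (l 1) (l 198141363799))) (b (a (a (l 1) (l 17719096)) (a (l 17789112) (l 17758912))) (b (a (l 17655808) (l 17667272)) (b (a (l 17633608) (l 17605840)) (b (a (l 17616584) (l 17568224)) (b (a (l 17606368) (l 17548520)) (a (l 17598688) (l 17535136)))))))) (a (b (b (a (l 1) (b (l 1) (l 18170096))) (a (l 17976152) (b (l 18087944) (l 18057272)))) (b (a (l 17779904) (b (l 17990584) (l 17819576))) (b (a (l 17548256) (l 17596176)) (l 17616984)))) (a (b (b (b (l 3) (l 221898905015)) (b (l 170359129863) (l 178949458823))) (b (b (l 18428088) (l 18165616)) (b (l 17792296) (l 17530112)))) (b (l 3) (b (b (l 246594784375) (a (l 254647216007) (l 3))) (b (a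 (l 17878720) (b (l 301354222359) (l 313164894823))) (a (b (l 17342104) (l 17139240)) (b (a (l 17305304) (a (l 330881242327) (l 3))) (a (b (l 17094960) (l 16958104)) (a (l 17121784) (b (l 355039993415) (a (l 16963720) (b (l 364703410071) (a (l 16871432) (b (l 369535094327) (a (l 16824568) (b (l 371682521303) (b (l 369535012295) (b (l 367387516103) (a (l 16784328) (a (l 16802776) (a (l 16791024) (b (l 393157291815) (b (l 393157286679) (b (l 393157284439) (a (l 16778112) (l 6))))))))))))))))))))))))))), by decide +kernel⟩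

theorem c_pm_113 : CertF 536870912 536870912 1610612736 536870912 33554432 16777216 false true false .nn 1 1 3
    ndF0q1 ndF1q3 pcF1 cut_pm_113 Ext.none :=
  certFK1 (fam := false) (s1 := true) (s2 := false) (a := 1) (b := 1) (c := 3) (cn := .nn) (n1 := ndF0q1) (n2 := ndF1q3) (pc := pcF1) (cut := cut_pm_113) (xt := Ext.none) (P1 := 536870912) (W1 := 536870912) (P2 := 1610612736) (W2 := 536870912) (P3 := 33554432) (W3 := 16777216)
    rfl rfl rfl (fun _ => rfl) k0_pm_113

noncomputable def cut_pm_123 : Cut := Cut.of [[⟨0, 1, 0, 7061502⟩, ⟨1, 1, 0, 7061502⟩, ⟨2, 2, 0, 184626⟩]]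

noncomputable def f_pm_123 : ℕ → ℕ → ℕ → ℕ → Bool := onCell 1073741824 536870912 1610612736 536870912 33554432 16777216
    (rowFK 2 false true false .npn 1 2 3 (qsf 536870912 536870912 1610612736 536870912 2) ndF0q1 ndF1q3 pcF2 cut_pm_123 Ext.none)

def k0_pm_123 : ∃ t, chk3 f_pm_123 t 1 1 1 = true :=
  ⟨(a (b (a (b (a (l 17897048) (l 18155344)) (a (a (a (a (l 17445584) (l 17440168)) (l 17422440)) (l 17479448)) (b (l 17769472) (l 17453360)))) (b (b (l 1) (l 18384024)) (a (l 17935792) (l 18094800)))) (a (b (a (a (a (a (l 17253128) (l 17143912)) (b (l 17215472) (l 17075256))) (b (l 17212216) (l 17098280))) (b (l 17323592) (l 17229560))) (a (a (a (a (b (l 17102816) (b (l 16985968) (b (l 16890696) (b (l 16834496) (b (l 16804200) (a (b (l 16791064) (b (l 16782880) (b (l 16799712) (b (l 16799528) (b (l 16784456) (l 6)))))) (l 16780136))))))) (b (l 17078368) (b (l 16970656) (l 16881560)))) (b (l 17038144) (b (l 16943424) (l 16839280)))) (b (l 16954184) (b (l 16872944)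 (l 16833400)))) (b (l 17127648) (b (l 17041544) (l 16993096))))) (b (b (l 17850072) (a (l 17387464) (l 17520376))) (b (a (l 17322552) (l 17438208)) (a (l 17262120) (l 17410032)))))) (b (a (b (l 1) (a (l 18260104) (l 1))) (l 1)) (a (b (a (l 17878992) (l 17910088)) (b (l 17653192) (l 17719568))) (b (a (l 17960304) (l 1)) (a (l 17707944) (l 17637080)))))), by decide +kernel⟩

theorem c_pm_123 : CertF 536870912 536870912 1610612736 536870912 33554432 16777216 false true false .npn 1 2 3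
    ndF0q1 ndF1q3 pcF2 cut_pm_123 Ext.none :=
  certFK2 (fam := false) (s1 := true) (s2 := false) (a := 1) (b := 2) (c := 3) (cn := .npn) (n1 := ndF0q1) (n2 := ndF1q3) (pc := pcF2) (cut := cut_pm_123) (xt := Ext.none) (P1 := 536870912) (W1 := 536870912) (P2 := 1610612736) (W2 := 536870912) (P3 := 33554432) (W3 := 16777216)
    rfl rfl rfl (fun _ => rfl) k0_pm_123

noncomputable def f_pm_133 : ℕ → ℕ → ℕ → ℕ → Bool := onCell 536870912 536870912 1610612736 536870912 33554432 16777216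
    (rowFK 0 false true false .dn 1 3 3 (qsf 536870912 536870912 1610612736 536870912 3) ndF0q1 ndF1q3 pcF3 Cut.none Ext.none)

def k0_pm_133 : ∃ t, chk3 f_pm_133 t 1 1 1 = true :=
  ⟨(a (b (l 1) (a (b (l 1) (a (l 17072816) (l 1))) (l 1))) (l 1)), by decide +kernel⟩

theorem c_pm_133 : CertF 536870912 536870912 1610612736 536870912 33554432 16777216 false true false .dn 1 3 3
    ndF0q1 ndF1q3 pcF3 Cut.none Ext.none :=
  certFK0 (fam := false) (s1 := true) (s2 := false) (a := 1) (b := 3) (c := 3) (cn := .dn) (n1 := ndF0q1) (n2 := ndF1q3) (pc := pcF3) (cut := Cut.none) (xt := Ext.none) (P1 := 536870912) (W1 := 536870912) (P2 := 1610612736) (W2 := 536870912) (P3 := 33554432) (W3 := 16777216)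
    rfl rfl rfl k0_pm_133

noncomputable def cut_pm_202_a : Cut := Cut.of [[⟨0, 1, 0, 33554432⟩, ⟨1, 0, 0, 33554432⟩, ⟨2, 1, 0, 33554432⟩]]

noncomputable def f_pm_202_a : ℕ → ℕ → ℕ → ℕ → Bool := onCell 0 536870912 0 536870912 33554432 16777216
    (rowFK 0 false true false .pp 2 0 2 (qsf 0 536870912 0 536870912 0) ndF0q2 ndF1q2a pcF0 cut_pm_202_a Ext.none)

def k0_pm_202_a : ∃ t, chk3 f_pm_202_a t 1 1 1 = true :=
  ⟨(a (l 3) (a (l 3) (b (l 3) (b (l 3) (a (l 3) (b (l 3) (a (l 3) (b (l 3) (l 6))))))))), by decide +kernel⟩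

theorem c_pm_202_a : CertF 0 536870912 0 536870912 33554432 16777216 false true false .pp 2 0 2
    ndF0q2 ndF1q2a pcF0 cut_pm_202_a Ext.none :=
  certFK0 (fam := false) (s1 := true) (s2 := false) (a := 2) (b := 0) (c := 2) (cn := .pp) (n1 := ndF0q2) (n2 := ndF1q2a) (pc := pcF0) (cut := cut_pm_202_a) (xt := Ext.none) (P1 := 0) (W1 := 536870912) (P2 := 0) (W2 := 536870912) (P3 := 33554432) (W3 := 16777216)
    rfl rfl rfl k0_pm_202_a

noncomputable def cut_pm_202_b : Cut := Cut.of [[⟨0, 1, 0, 33554432⟩, ⟨1, 0, 0, 33554432⟩, ⟨2, 1, 0, 33554432⟩]]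

noncomputable def f_pm_202_b : ℕ → ℕ → ℕ → ℕ → Bool := onCell 0 536870912 1239849684 370763052 33554432 16777216
    (rowFK 0 false true false .pp 2 0 2 (qsf 0 536870912 1239849684 370763052 0) ndF0q2 ndF1q2b pcF0 cut_pm_202_b Ext.none)

def k0_pm_202_b : ∃ t, chk3 f_pm_202_b t 1 1 1 = true :=
  ⟨(l 3), by decide +kernel⟩

theorem c_pm_202_b : CertF 0 536870912 1239849684 370763052 33554432 16777216 false true false .pp 2 0 2
    ndF0q2 ndF1q2b pcF0 cut_pm_202_b Ext.none :=
  certFK0 (fam := false) (s1 := true) (s2 := false) (a := 2) (b := 0) (c := 2) (cn := .pp) (n1 := ndF0q2) (n2 := ndF1q2b) (pc := pcF0) (cut := cut_pm_202_b) (xt := Ext.none) (P1 := 0) (W1 := 536870912) (P2 := 1239849684) (W2 := 370763052) (P3 := 33554432) (W3 := 16777216)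
    rfl rfl rfl k0_pm_202_b

noncomputable def f_pm_203 : ℕ → ℕ → ℕ → ℕ → Bool := onCell 0 536870912 0 536870912 33554432 16777216
    (rowFK 1 false true false .up 2 0 3 (qsf 0 536870912 1610612736 536870912 0) ndF0q2 ndF1q3 pcF0 Cut.none Ext.none)

def k0_pm_203 : ∃ t, chk3 f_pm_203 t 1 1 1 = true :=
  ⟨(l 3), by decide +kernel⟩

theorem c_pm_203 : CertF 0 536870912 1610612736 536870912 33554432 16777216 false true false .up 2 0 3
    ndF0q2 ndF1q3 pcF0 Cut.none Ext.none :=
  certFK1 (fam := false) (s1 := true) (s2 := false) (a := 2) (b := 0) (c := 3) (cn := .up) (n1 := ndF0q2) (n2 := ndF1q3) (pc := pcF0) (cut := Cut.none) (xt := Ext.none) (P1 := 0) (W1 := 536870912) (P2 := 1610612736) (W2 := 536870912) (P3 := 33554432) (W3 := 16777216)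
    rfl rfl rfl (fun _ => rfl) k0_pm_203

noncomputable def cut_pm_213 : Cut := Cut.of [[⟨0, 1, 0, 7061502⟩, ⟨1, 1, 0, 7061502⟩, ⟨2, 2, 0, 184626⟩]]

noncomputable def f_pm_213 : ℕ → ℕ → ℕ → ℕ → Bool := onCell 0 536870912 1610612736 536870912 33554432 16777216
    (rowFK 0 false true false .pnn 2 1 3 (qsf 0 536870912 1610612736 536870912 1) ndF0q2 ndF1q3 pcF1 cut_pm_213 Ext.none)

def k0_pm_213 : ∃ t, chk3 f_pm_213 t 1 1 1 = true :=
  ⟨(b (l 3) (a (l 3) (b (l 3) (a (l 3) (b (l 3) (a (l 3) (a (l 3) (b (l 3) (a (l 3) (b (l 3) (a (l 3) (b (l 3) (a (l 3) (b (l 3) (a (l 3) (b (l 3) (b (l 3) (b (l 3) (b (l 3) (b (l 3) (l 6))))))))))))))))))))), by decide +kernel⟩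

theorem c_pm_213 : CertF 0 536870912 1610612736 536870912 33554432 16777216 false true false .pnn 2 1 3
    ndF0q2 ndF1q3 pcF1 cut_pm_213 Ext.none :=
  certFK0 (fam := false) (s1 := true) (s2 := false) (a := 2) (b := 1) (c := 3) (cn := .pnn) (n1 := ndF0q2) (n2 := ndF1q3) (pc := pcF1) (cut := cut_pm_213) (xt := Ext.none) (P1 := 0) (W1 := 536870912) (P2 := 1610612736) (W2 := 536870912) (P3 := 33554432) (W3 := 16777216)
    rfl rfl rfl k0_pm_213

noncomputable def f_mm_001 : ℕ → ℕ → ℕ → ℕ → Bool := onCell 0 536870912 536870912 536870912 33554432 16777216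
    (rowFK 0 false false false .up 0 0 1 (qsf 0 536870912 536870912 536870912 0) ndF0q0 ndF1q1 pcF0 Cut.none Ext.none)

def k0_mm_001 : ∃ t, chk3 f_mm_001 t 1 1 1 = true :=
  ⟨(l 3), by decide +kernel⟩

theorem c_mm_001 : CertF 0 536870912 536870912 536870912 33554432 16777216 false false false .up 0 0 1
    ndF0q0 ndF1q1 pcF0 Cut.none Ext.none :=
  certFK0 (fam := false) (s1 := false) (s2 := false) (a := 0) (b := 0) (c := 1) (cn := .up) (n1 := ndF0q0) (n2 := ndF1q1) (pc := pcF0) (cut := Cut.none) (xt := Ext.none) (P1 := 0) (W1 := 536870912) (P2 := 536870912) (W2 := 536870912) (P3 := 33554432) (W3 := 16777216)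
    rfl rfl rfl k0_mm_001

noncomputable def f_mm_011 : ℕ → ℕ → ℕ → ℕ → Bool := onCell 0 536870912 536870912 536870912 33554432 16777216
    (rowFK 0 false false false .pnn 0 1 1 (qsf 0 536870912 536870912 536870912 1) ndF0q0 ndF1q1 pcF1 Cut.none Ext.none)

def k0_mm_011 : ∃ t, chk3 f_mm_011 t 1 1 1 = true :=
  ⟨(l 3), by decide +kernel⟩

theorem c_mm_011 : CertF 0 536870912 536870912 536870912 33554432 16777216 false false false .pnn 0 1 1
    ndF0q0 ndF1q1 pcF1 Cut.none Ext.none :=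
  certFK0 (fam := false) (s1 := false) (s2 := false) (a := 0) (b := 1) (c := 1) (cn := .pnn) (n1 := ndF0q0) (n2 := ndF1q1) (pc := pcF1) (cut := Cut.none) (xt := Ext.none) (P1 := 0) (W1 := 536870912) (P2 := 536870912) (W2 := 536870912) (P3 := 33554432) (W3 := 16777216)
    rfl rfl rfl k0_mm_011

noncomputable def f_mm_012_a : ℕ → ℕ → ℕ → ℕ → Bool := onCell 0 536870912 0 536870912 33554432 16777216
    (rowFK 0 false false false .pnp 0 1 2 (qsf 0 536870912 0 536870912 1) ndF0q0 ndF1q2a pcF1 Cut.none Ext.none)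

def k0_mm_012_a : ∃ t, chk3 f_mm_012_a t 1 1 1 = true :=
  ⟨(l 5), by decide +kernel⟩

theorem c_mm_012_a : CertF 0 536870912 0 536870912 33554432 16777216 false false false .pnp 0 1 2
    ndF0q0 ndF1q2a pcF1 Cut.none Ext.none :=
  certFK0 (fam := false) (s1 := false) (s2 := false) (a := 0) (b := 1) (c := 2) (cn := .pnp) (n1 := ndF0q0) (n2 := ndF1q2a) (pc := pcF1) (cut := Cut.none) (xt := Ext.none) (P1 := 0) (W1 := 536870912) (P2 := 0) (W2 := 536870912) (P3 := 33554432) (W3 := 16777216)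
    rfl rfl rfl k0_mm_012_a

noncomputable def f_mm_012_b : ℕ → ℕ → ℕ → ℕ → Bool := onCell 0 536870912 1239849684 370763052 33554432 16777216
    (rowFK 0 false false false .pnp 0 1 2 (qsf 0 536870912 1239849684 370763052 1) ndF0q0 ndF1q2b pcF1 Cut.none Ext.none)

def k0_mm_012_b : ∃ t, chk3 f_mm_012_b t 1 1 1 = true :=
  ⟨(l 5), by decide +kernel⟩

theorem c_mm_012_b : CertF 0 536870912 1239849684 370763052 33554432 16777216 false false false .pnp 0 1 2
    ndF0q0 ndF1q2b pcF1 Cut.none Ext.none :=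
  certFK0 (fam := false) (s1 := false) (s2 := false) (a := 0) (b := 1) (c := 2) (cn := .pnp) (n1 := ndF0q0) (n2 := ndF1q2b) (pc := pcF1) (cut := Cut.none) (xt := Ext.none) (P1 := 0) (W1 := 536870912) (P2 := 1239849684) (W2 := 370763052) (P3 := 33554432) (W3 := 16777216)
    rfl rfl rfl k0_mm_012_b

noncomputable def f_mm_022_a : ℕ → ℕ → ℕ → ℕ → Bool := onCell 0 536870912 0 536870912 33554432 16777216
    (rowFK 0 false false false .pp 0 2 2 (qsf 0 536870912 0 536870912 2) ndF0q0 ndF1q2a pcF2 Cut.none Ext.none)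

def k0_mm_022_a : ∃ t, chk3 f_mm_022_a t 1 1 1 = true :=
  ⟨(l 5), by decide +kernel⟩

theorem c_mm_022_a : CertF 0 536870912 0 536870912 33554432 16777216 false false false .pp 0 2 2
    ndF0q0 ndF1q2a pcF2 Cut.none Ext.none :=
  certFK0 (fam := false) (s1 := false) (s2 := false) (a := 0) (b := 2) (c := 2) (cn := .pp) (n1 := ndF0q0) (n2 := ndF1q2a) (pc := pcF2) (cut := Cut.none) (xt := Ext.none) (P1 := 0) (W1 := 536870912) (P2 := 0) (W2 := 536870912) (P3 := 33554432) (W3 := 16777216)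
    rfl rfl rfl k0_mm_022_a

noncomputable def f_mm_022_b : ℕ → ℕ → ℕ → ℕ → Bool := onCell 0 536870912 1239849684 370763052 33554432 16777216
    (rowFK 0 false false false .pp 0 2 2 (qsf 0 536870912 1239849684 370763052 2) ndF0q0 ndF1q2b pcF2 Cut.none Ext.none)

def k0_mm_022_b : ∃ t, chk3 f_mm_022_b t 1 1 1 = true :=
  ⟨(l 5), by decide +kernel⟩

theorem c_mm_022_b : CertF 0 536870912 1239849684 370763052 33554432 16777216 false false false .pp 0 2 2
    ndF0q0 ndF1q2b pcF2 Cut.none Ext.none :=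
  certFK0 (fam := false) (s1 := false) (s2 := false) (a := 0) (b := 2) (c := 2) (cn := .pp) (n1 := ndF0q0) (n2 := ndF1q2b) (pc := pcF2) (cut := Cut.none) (xt := Ext.none) (P1 := 0) (W1 := 536870912) (P2 := 1239849684) (W2 := 370763052) (P3 := 33554432) (W3 := 16777216)
    rfl rfl rfl k0_mm_022_b

noncomputable def f_mm_023 : ℕ → ℕ → ℕ → ℕ → Bool := onCell 0 536870912 1610612736 536870912 33554432 16777216
    (rowFK 0 false false false .up 0 2 3 (qsf 0 536870912 1610612736 536870912 2) ndF0q0 ndF1q3 pcF2 Cut.none Ext.none)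

def k0_mm_023 : ∃ t, chk3 f_mm_023 t 1 1 1 = true :=
  ⟨(l 5), by decide +kernel⟩

theorem c_mm_023 : CertF 0 536870912 1610612736 536870912 33554432 16777216 false false false .up 0 2 3
    ndF0q0 ndF1q3 pcF2 Cut.none Ext.none :=
  certFK0 (fam := false) (s1 := false) (s2 := false) (a := 0) (b := 2) (c := 3) (cn := .up) (n1 := ndF0q0) (n2 := ndF1q3) (pc := pcF2) (cut := Cut.none) (xt := Ext.none) (P1 := 0) (W1 := 536870912) (P2 := 1610612736) (W2 := 536870912) (P3 := 33554432) (W3 := 16777216)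
    rfl rfl rfl k0_mm_023

noncomputable def f_mm_033 : ℕ → ℕ → ℕ → ℕ → Bool := onCell 0 536870912 1610612736 536870912 33554432 16777216
    (rowFK 0 false false false .pnn 0 3 3 (qsf 0 536870912 1610612736 536870912 3) ndF0q0 ndF1q3 pcF3 Cut.none Ext.none)

def k0_mm_033 : ∃ t, chk3 f_mm_033 t 1 1 1 = true :=
  ⟨(l 5), by decide +kernel⟩

theorem c_mm_033 : CertF 0 536870912 1610612736 536870912 33554432 16777216 false false false .pnn 0 3 3
    ndF0q0 ndF1q3 pcF3 Cut.none Ext.none :=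
  certFK0 (fam := false) (s1 := false) (s2 := false) (a := 0) (b := 3) (c := 3) (cn := .pnn) (n1 := ndF0q0) (n2 := ndF1q3) (pc := pcF3) (cut := Cut.none) (xt := Ext.none) (P1 := 0) (W1 := 536870912) (P2 := 1610612736) (W2 := 536870912) (P3 := 33554432) (W3 := 16777216)
    rfl rfl rfl k0_mm_033

noncomputable def f_mm_101 : ℕ → ℕ → ℕ → ℕ → Bool := onCell 536870912 536870912 536870912 536870912 33554432 16777216
    (rowFK 0 false false false .npn 1 0 1 (qsf 536870912 536870912 536870912 536870912 0) ndF0q1 ndF1q1 pcF0 Cut.none Ext.none)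

def k0_mm_101 : ∃ t, chk3 f_mm_101 t 1 1 1 = true :=
  ⟨(l 3), by decide +kernel⟩

theorem c_mm_101 : CertF 536870912 536870912 536870912 536870912 33554432 16777216 false false false .npn 1 0 1
    ndF0q1 ndF1q1 pcF0 Cut.none Ext.none :=
  certFK0 (fam := false) (s1 := false) (s2 := false) (a := 1) (b := 0) (c := 1) (cn := .npn) (n1 := ndF0q1) (n2 := ndF1q1) (pc := pcF0) (cut := Cut.none) (xt := Ext.none) (P1 := 536870912) (W1 := 536870912) (P2 := 536870912) (W2 := 536870912) (P3 := 33554432) (W3 := 16777216)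
    rfl rfl rfl k0_mm_101

noncomputable def f_mm_102_a : ℕ → ℕ → ℕ → ℕ → Bool := onCell 536870912 536870912 0 536870912 33554432 16777216
    (rowFK 0 false false false .npp 1 0 2 (qsf 536870912 536870912 0 536870912 0) ndF0q1 ndF1q2a pcF0 Cut.none Ext.none)

def k0_mm_102_a : ∃ t, chk3 f_mm_102_a t 1 1 1 = true :=
  ⟨(l 3), by decide +kernel⟩

theorem c_mm_102_a : CertF 536870912 536870912 0 536870912 33554432 16777216 false false false .npp 1 0 2
    ndF0q1 ndF1q2a pcF0 Cut.none Ext.none :=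
  certFK0 (fam := false) (s1 := false) (s2 := false) (a := 1) (b := 0) (c := 2) (cn := .npp) (n1 := ndF0q1) (n2 := ndF1q2a) (pc := pcF0) (cut := Cut.none) (xt := Ext.none) (P1 := 536870912) (W1 := 536870912) (P2 := 0) (W2 := 536870912) (P3 := 33554432) (W3 := 16777216)
    rfl rfl rfl k0_mm_102_a

noncomputable def f_mm_102_b : ℕ → ℕ → ℕ → ℕ → Bool := onCell 536870912 536870912 1239849684 370763052 33554432 16777216
    (rowFK 0 false false false .npp 1 0 2 (qsf 536870912 536870912 1239849684 370763052 0) ndF0q1 ndF1q2b pcF0 Cut.none Ext.none)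

def k0_mm_102_b : ∃ t, chk3 f_mm_102_b t 1 1 1 = true :=
  ⟨(l 5), by decide +kernel⟩

theorem c_mm_102_b : CertF 536870912 536870912 1239849684 370763052 33554432 16777216 false false false .npp 1 0 2
    ndF0q1 ndF1q2b pcF0 Cut.none Ext.none :=
  certFK0 (fam := false) (s1 := false) (s2 := false) (a := 1) (b := 0) (c := 2) (cn := .npp) (n1 := ndF0q1) (n2 := ndF1q2b) (pc := pcF0) (cut := Cut.none) (xt := Ext.none) (P1 := 536870912) (W1 := 536870912) (P2 := 1239849684) (W2 := 370763052) (P3 := 33554432) (W3 := 16777216)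
    rfl rfl rfl k0_mm_102_b

noncomputable def f_mm_112_a : ℕ → ℕ → ℕ → ℕ → Bool := onCell 536870912 536870912 0 536870912 33554432 16777216
    (rowFK 0 false false false .dn 1 1 2 (qsf 536870912 536870912 0 536870912 1) ndF0q1 ndF1q2a pcF1 Cut.none Ext.none)

def k0_mm_112_a : ∃ t, chk3 f_mm_112_a t 1 1 1 = true :=
  ⟨(l 3), by decide +kernel⟩

theorem c_mm_112_a : CertF 536870912 536870912 0 536870912 33554432 16777216 false false false .dn 1 1 2
    ndF0q1 ndF1q2a pcF1 Cut.none Ext.none :=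
  certFK0 (fam := false) (s1 := false) (s2 := false) (a := 1) (b := 1) (c := 2) (cn := .dn) (n1 := ndF0q1) (n2 := ndF1q2a) (pc := pcF1) (cut := Cut.none) (xt := Ext.none) (P1 := 536870912) (W1 := 536870912) (P2 := 0) (W2 := 536870912) (P3 := 33554432) (W3 := 16777216)
    rfl rfl rfl k0_mm_112_a

noncomputable def f_mm_112_b : ℕ → ℕ → ℕ → ℕ → Bool := onCell 536870912 536870912 1239849684 370763052 33554432 16777216
    (rowFK 0 false false false .dn 1 1 2 (qsf 536870912 536870912 1239849684 370763052 1) ndF0q1 ndF1q2b pcF1 Cut.none Ext.none)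

def k0_mm_112_b : ∃ t, chk3 f_mm_112_b t 1 1 1 = true :=
  ⟨(l 5), by decide +kernel⟩

theorem c_mm_112_b : CertF 536870912 536870912 1239849684 370763052 33554432 16777216 false false false .dn 1 1 2
    ndF0q1 ndF1q2b pcF1 Cut.none Ext.none :=
  certFK0 (fam := false) (s1 := false) (s2 := false) (a := 1) (b := 1) (c := 2) (cn := .dn) (n1 := ndF0q1) (n2 := ndF1q2b) (pc := pcF1) (cut := Cut.none) (xt := Ext.none) (P1 := 536870912) (W1 := 536870912) (P2 := 1239849684) (W2 := 370763052) (P3 := 33554432) (W3 := 16777216)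
    rfl rfl rfl k0_mm_112_b

noncomputable def f_mm_113 : ℕ → ℕ → ℕ → ℕ → Bool := onCell 536870912 536870912 1610612736 536870912 33554432 16777216
    (rowFK 0 false false false .nn 1 1 3 (qsf 536870912 536870912 1610612736 536870912 1) ndF0q1 ndF1q3 pcF1 Cut.none Ext.none)

def k0_mm_113 : ∃ t, chk3 f_mm_113 t 1 1 1 = true :=
  ⟨(l 5), by decide +kernel⟩

theorem c_mm_113 : CertF 536870912 536870912 1610612736 536870912 33554432 16777216 false false false .nn 1 1 3
    ndF0q1 ndF1q3 pcF1 Cut.none Ext.none :=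
  certFK0 (fam := false) (s1 := false) (s2 := false) (a := 1) (b := 1) (c := 3) (cn := .nn) (n1 := ndF0q1) (n2 := ndF1q3) (pc := pcF1) (cut := Cut.none) (xt := Ext.none) (P1 := 536870912) (W1 := 536870912) (P2 := 1610612736) (W2 := 536870912) (P3 := 33554432) (W3 := 16777216)
    rfl rfl rfl k0_mm_113

noncomputable def f_mm_123 : ℕ → ℕ → ℕ → ℕ → Bool := onCell 536870912 536870912 1610612736 536870912 33554432 16777216
    (rowFK 0 false false false .npn 1 2 3 (qsf 536870912 536870912 1610612736 536870912 2) ndF0q1 ndF1q3 pcF2 Cut.none Ext.none)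

def k0_mm_123 : ∃ t, chk3 f_mm_123 t 1 1 1 = true :=
  ⟨(l 5), by decide +kernel⟩

theorem c_mm_123 : CertF 536870912 536870912 1610612736 536870912 33554432 16777216 false false false .npn 1 2 3
    ndF0q1 ndF1q3 pcF2 Cut.none Ext.none :=
  certFK0 (fam := false) (s1 := false) (s2 := false) (a := 1) (b := 2) (c := 3) (cn := .npn) (n1 := ndF0q1) (n2 := ndF1q3) (pc := pcF2) (cut := Cut.none) (xt := Ext.none) (P1 := 536870912) (W1 := 536870912) (P2 := 1610612736) (W2 := 536870912) (P3 := 33554432) (W3 := 16777216)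
    rfl rfl rfl k0_mm_123

noncomputable def f_mm_133 : ℕ → ℕ → ℕ → ℕ → Bool := onCell 536870912 536870912 1610612736 536870912 33554432 16777216
    (rowFK 0 false false false .dn 1 3 3 (qsf 536870912 536870912 1610612736 536870912 3) ndF0q1 ndF1q3 pcF3 Cut.none Ext.none)

def k0_mm_133 : ∃ t, chk3 f_mm_133 t 1 1 1 = true :=
  ⟨(l 5), by decide +kernel⟩

theorem c_mm_133 : CertF 536870912 536870912 1610612736 536870912 33554432 16777216 false false false .dn 1 3 3
    ndF0q1 ndF1q3 pcF3 Cut.none Ext.none :=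
  certFK0 (fam := false) (s1 := false) (s2 := false) (a := 1) (b := 3) (c := 3) (cn := .dn) (n1 := ndF0q1) (n2 := ndF1q3) (pc := pcF3) (cut := Cut.none) (xt := Ext.none) (P1 := 536870912) (W1 := 536870912) (P2 := 1610612736) (W2 := 536870912) (P3 := 33554432) (W3 := 16777216)
    rfl rfl rfl k0_mm_133

noncomputable def f_mm_202_a : ℕ → ℕ → ℕ → ℕ → Bool := onCell 0 536870912 0 536870912 33554432 16777216
    (rowFK 0 false false false .pp 2 0 2 (qsf 0 536870912 0 536870912 0) ndF0q2 ndF1q2a pcF0 Cut.none Ext.none)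

def k0_mm_202_a : ∃ t, chk3 f_mm_202_a t 1 1 1 = true :=
  ⟨(l 3), by decide +kernel⟩

theorem c_mm_202_a : CertF 0 536870912 0 536870912 33554432 16777216 false false false .pp 2 0 2
    ndF0q2 ndF1q2a pcF0 Cut.none Ext.none :=
  certFK0 (fam := false) (s1 := false) (s2 := false) (a := 2) (b := 0) (c := 2) (cn := .pp) (n1 := ndF0q2) (n2 := ndF1q2a) (pc := pcF0) (cut := Cut.none) (xt := Ext.none) (P1 := 0) (W1 := 536870912) (P2 := 0) (W2 := 536870912) (P3 := 33554432) (W3 := 16777216)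
    rfl rfl rfl k0_mm_202_a

noncomputable def f_mm_202_b : ℕ → ℕ → ℕ → ℕ → Bool := onCell 0 536870912 1239849684 370763052 33554432 16777216
    (rowFK 0 false false false .pp 2 0 2 (qsf 0 536870912 1239849684 370763052 0) ndF0q2 ndF1q2b pcF0 Cut.none Ext.none)

def k0_mm_202_b : ∃ t, chk3 f_mm_202_b t 1 1 1 = true :=
  ⟨(l 3), by decide +kernel⟩

theorem c_mm_202_b : CertF 0 536870912 1239849684 370763052 33554432 16777216 false false false .pp 2 0 2
    ndF0q2 ndF1q2b pcF0 Cut.none Ext.none :=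
  certFK0 (fam := false) (s1 := false) (s2 := false) (a := 2) (b := 0) (c := 2) (cn := .pp) (n1 := ndF0q2) (n2 := ndF1q2b) (pc := pcF0) (cut := Cut.none) (xt := Ext.none) (P1 := 0) (W1 := 536870912) (P2 := 1239849684) (W2 := 370763052) (P3 := 33554432) (W3 := 16777216)
    rfl rfl rfl k0_mm_202_b

noncomputable def f_mm_203 : ℕ → ℕ → ℕ → ℕ → Bool := onCell 0 536870912 0 536870912 33554432 16777216
    (rowFK 1 false false false .up 2 0 3 (qsf 0 536870912 1610612736 536870912 0) ndF0q2 ndF1q3 pcF0 Cut.none Ext.none)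

def k0_mm_203 : ∃ t, chk3 f_mm_203 t 1 1 1 = true :=
  ⟨(l 3), by decide +kernel⟩

theorem c_mm_203 : CertF 0 536870912 1610612736 536870912 33554432 16777216 false false false .up 2 0 3
    ndF0q2 ndF1q3 pcF0 Cut.none Ext.none :=
  certFK1 (fam := false) (s1 := false) (s2 := false) (a := 2) (b := 0) (c := 3) (cn := .up) (n1 := ndF0q2) (n2 := ndF1q3) (pc := pcF0) (cut := Cut.none) (xt := Ext.none) (P1 := 0) (W1 := 536870912) (P2 := 1610612736) (W2 := 536870912) (P3 := 33554432) (W3 := 16777216)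
    rfl rfl rfl (fun _ => rfl) k0_mm_203

noncomputable def f_mm_213 : ℕ → ℕ → ℕ → ℕ → Bool := onCell 0 536870912 1610612736 536870912 33554432 16777216
    (rowFK 0 false false false .pnn 2 1 3 (qsf 0 536870912 1610612736 536870912 1) ndF0q2 ndF1q3 pcF1 Cut.none Ext.none)

def k0_mm_213 : ∃ t, chk3 f_mm_213 t 1 1 1 = true :=
  ⟨(a (l 3) (l 5)), by decide +kernel⟩

theorem c_mm_213 : CertF 0 536870912 1610612736 536870912 33554432 16777216 false false false .pnn 2 1 3
    ndF0q2 ndF1q3 pcF1 Cut.none Ext.none :=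
  certFK0 (fam := false) (s1 := false) (s2 := false) (a := 2) (b := 1) (c := 3) (cn := .pnn) (n1 := ndF0q2) (n2 := ndF1q3) (pc := pcF1) (cut := Cut.none) (xt := Ext.none) (P1 := 0) (W1 := 536870912) (P2 := 1610612736) (W2 := 536870912) (P3 := 33554432) (W3 := 16777216)
    rfl rfl rfl k0_mm_213

end Pool.Agent.Strip051.G.I1_32_3_64.Tab.C.FB01

namespace Pool.Agent.Strip051.G.I1_32_3_64.Tab.C.FB02

open Pool.Agent.Strip051.PB Pool.Agent.Strip051.PB.T
open Pool.Agent.Strip051.G.I1_32_3_64.Tab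

noncomputable def f_pp_001 : ℕ → ℕ → ℕ → ℕ → Bool := onCell 0 536870912 0 536870912 33554432 16777216
    (rowFK 1 false true true .up 0 0 1 (qsf 0 536870912 536870912 536870912 0) ndF0q0 ndF2q1 pcF0 Cut.none Ext.none)

def k0_pp_001 : ∃ t, chk3 f_pp_001 t 1 1 1 = true :=
  ⟨(l 3), by decide +kernel⟩

theorem c_pp_001 : CertF 0 536870912 536870912 536870912 33554432 16777216 false true true .up 0 0 1
    ndF0q0 ndF2q1 pcF0 Cut.none Ext.none :=
  certFK1 (fam := false) (s1 := true) (s2 := true) (a := 0) (b := 0) (c := 1) (cn := .up) (n1 := ndF0q0) (n2 := ndF2q1) (pc := pcF0) (cut := Cut.none) (xt := Ext.none) (P1 := 0) (W1 := 536870912) (P2 := 536870912) (W2 := 536870912) (P3 := 33554432) (W3 := 16777216)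
    rfl rfl rfl (fun _ => rfl) k0_pp_001

noncomputable def cut_pp_011 : Cut := Cut.of [[⟨0, 0, 0, 33554432⟩, ⟨1, 1, 0, 33554432⟩, ⟨2, 1, 0, 33554432⟩]]

noncomputable def f_pp_011 : ℕ → ℕ → ℕ → ℕ → Bool := onCell 0 536870912 536870912 536870912 33554432 16777216
    (rowFK 0 false true true .pnn 0 1 1 (qsf 0 536870912 536870912 536870912 1) ndF0q0 ndF2q1 pcF1 cut_pp_011 Ext.none)

def k0_pp_011 : ∃ t, chk3 f_pp_011 t 1 1 1 = true :=
  ⟨(a (b (l 3) (a (b (l 3) (b (l 3) (b (l 3) (b (l 3) (b (l 3) (a (a (a (l 6) (l 3)) (l 3)) (l 3))))))) (l 3))) (l 3)), by decide +kernel⟩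

theorem c_pp_011 : CertF 0 536870912 536870912 536870912 33554432 16777216 false true true .pnn 0 1 1
    ndF0q0 ndF2q1 pcF1 cut_pp_011 Ext.none :=
  certFK0 (fam := false) (s1 := true) (s2 := true) (a := 0) (b := 1) (c := 1) (cn := .pnn) (n1 := ndF0q0) (n2 := ndF2q1) (pc := pcF1) (cut := cut_pp_011) (xt := Ext.none) (P1 := 0) (W1 := 536870912) (P2 := 536870912) (W2 := 536870912) (P3 := 33554432) (W3 := 16777216)
    rfl rfl rfl k0_pp_011

noncomputable def cut_pp_012_a : Cut := Cut.of [[⟨0, 0, 0, 33554432⟩, ⟨1, 1, 0, 33554432⟩, ⟨2, 1, 0, 33554432⟩], [⟨0, 0, 1, 25165824⟩, ⟨1, 1, 0, 16777216⟩, ⟨2, 1, 1, 25165824⟩, ⟨0, 0, 0, 67108864⟩, ⟨0, 1, 0, 1056964608⟩, ⟨2, 1, 0, 67108864⟩, ⟨2, 2, 0, 1056964608⟩]]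

noncomputable def f_pp_012_a : ℕ → ℕ → ℕ → ℕ → Bool := onCell 536870912 536870912 0 536870912 33554432 16777216
    (rowFK 2 false true true .pnp 0 1 2 (qsf 0 536870912 0 536870912 1) ndF0q0 ndF2q2a pcF1 cut_pp_012_a Ext.none)

def k0_pp_012_a : ∃ t, chk3 f_pp_012_a t 1 1 1 = true :=
  ⟨(a (l 3) (a (l 3) (a (l 3) (a (l 3) (a (l 3) (b (b (l 17924480) (l 52783300167)) (a (l 3) (b (b (l 17891808) (b (l 17794400) (l 5001123175))) (a (l 3) (a (l 3) (a (l 3) (b (b (b (l 17581552) (c (l 17568392) (l 17163008))) (b (c (l 17223848) (l 14)) (l 14))) (b (b (l 14) (l 6)) (l 6)))))))))))))), by decide +kernel⟩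

theorem c_pp_012_a : CertF 0 536870912 0 536870912 33554432 16777216 false true true .pnp 0 1 2
    ndF0q0 ndF2q2a pcF1 cut_pp_012_a Ext.none :=
  certFK2 (fam := false) (s1 := true) (s2 := true) (a := 0) (b := 1) (c := 2) (cn := .pnp) (n1 := ndF0q0) (n2 := ndF2q2a) (pc := pcF1) (cut := cut_pp_012_a) (xt := Ext.none) (P1 := 0) (W1 := 536870912) (P2 := 0) (W2 := 536870912) (P3 := 33554432) (W3 := 16777216)
    rfl rfl rfl (fun _ => rfl) k0_pp_012_a

noncomputable def cut_pp_012_b : Cut := Cut.of [[⟨0, 0, 0, 33554432⟩, ⟨1, 1, 0, 33554432⟩, ⟨2, 1, 0, 33554432⟩], [⟨0, 0, 1, 25165824⟩, ⟨1, 1, 0, 16777216⟩, ⟨2, 1, 1, 25165824⟩, ⟨0, 0, 0, 67108864⟩, ⟨0, 1, 0, 1056964608⟩, ⟨2, 1, 0, 67108864⟩, ⟨2, 2, 0, 1056964608⟩]]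

noncomputable def f_pp_012_b : ℕ → ℕ → ℕ → ℕ → Bool := onCell 536870912 536870912 1239849684 370763052 33554432 16777216
    (rowFK 2 false true true .pnp 0 1 2 (qsf 0 536870912 1239849684 370763052 1) ndF0q0 ndF2q2b pcF1 cut_pp_012_b Ext.none)

def k0_pp_012_b : ∃ t, chk3 f_pp_012_b t 1 1 1 = true :=
  ⟨(a (l 3) (a (l 3) (a (l 3) (a (l 3) (b (b (b (l 112376348071) (l 17943488)) (l 87143052359)) (b (l 17542664) (l 17511032))))))), by decide +kernel⟩

theorem c_pp_012_b : CertF 0 536870912 1239849684 370763052 33554432 16777216 false true true .pnp 0 1 2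
    ndF0q0 ndF2q2b pcF1 cut_pp_012_b Ext.none :=
  certFK2 (fam := false) (s1 := true) (s2 := true) (a := 0) (b := 1) (c := 2) (cn := .pnp) (n1 := ndF0q0) (n2 := ndF2q2b) (pc := pcF1) (cut := cut_pp_012_b) (xt := Ext.none) (P1 := 0) (W1 := 536870912) (P2 := 1239849684) (W2 := 370763052) (P3 := 33554432) (W3 := 16777216)
    rfl rfl rfl (fun _ => rfl) k0_pp_012_b

noncomputable def cut_pp_022_a : Cut := Cut.of [[⟨0, 0, 0, 33554432⟩, ⟨1, 1, 0, 33554432⟩, ⟨2, 1, 0, 33554432⟩], [⟨0, 0, 1, 25165824⟩, ⟨1, 1, 0, 16777216⟩, ⟨2, 1, 1, 25165824⟩, ⟨0, 0, 0, 67108864⟩, ⟨0, 1, 0, 1056964608⟩, ⟨2, 1, 0, 67108864⟩, ⟨2, 2, 0, 1056964608⟩]]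

noncomputable def f_pp_022_a : ℕ → ℕ → ℕ → ℕ → Bool := onCell 0 536870912 0 536870912 33554432 16777216
    (rowFK 0 false true true .pp 0 2 2 (qsf 0 536870912 0 536870912 2) ndF0q0 ndF2q2a pcF2 cut_pp_022_a Ext.none)

def k0_pp_022_a : ∃ t, chk3 f_pp_022_a t 2 2 1 = true :=
  ⟨(a (a (a (l 19319768) (l 18995200)) (b (l 18606104) (a (l 18594392) (b (l 18354304) (a (l 18282840) (b (l 18173072) (a (l 18114016) (l 18046984)))))))) (a (a (b (a (l 18238056) (b (l 18117200) (l 18088776))) (a (b (a (l 18164616) (l 18096704)) (l 253439329783)) (b (l 18044328) (l 1)))) (b (l 266860869575) (l 1))) (l 1))), by decide +kernel⟩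

def k1_pp_022_a : ∃ t, chk3 f_pp_022_a t 4 6 1 = true :=
  ⟨(a (a (b (l 19016296) (b (l 18761488) (a (l 18588600) (l 18381680)))) (b (l 18641368) (b (l 18367272) (a (l 18183144) (b (l 18075144) (l 17721336)))))) (b (a (a (l 18373576) (l 18201776)) (a (b (a (l 18152880) (b (l 18104936) (l 18034600))) (l 128348085159)) (b (l 241091049607) (l 1)))) (a (b (a (l 18091872) (a (a (l 17981184) (l 17938144)) (l 206194076935))) (a (a (b (l 17938784) (l 17777240)) (b (l 17850208) (a (l 93450581159) (l 213710026055)))) (b (a (l 201898811799) (l 1)) (l 1)))) (b (a (l 242164510535) (l 1)) (l 1))))), by decide +kernel⟩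

def k2_pp_022_a : ∃ t, chk3 f_pp_022_a t 32 14 1 = true :=
  ⟨(b (b (l 18135008) (c (l 18246072) (a (b (l 17871752) (l 17683904)) (l 17573840)))) (a (b (c (b (l 18044144) (l 17743496)) (b (a (c (l 17627304) (l 17121408)) (l 17319432)) (c (a (b (l 17439728) (l 17277664)) (l 17296856)) (a (b (a (l 17005056) (l 17098440)) (a (a (b (l 16912808) (l 16767424)) (l 16825616)) (l 16840096))) (b (l 17081888) (l 16764856)))))) (b (c (c (l 17715152) (a (b (l 17486200) (l 17245800)) (l 17227496))) (a (b (c (a (b (l 17189816) (l 17002080)) (l 17073600)) (a (a (l 16721240) (l 16737480)) (l 16733528))) (a (a (b (l 16721920) (l 16722800)) (l 16727512)) (l 16723784))) (a (l 16719952) (l 16740024)))) (b (c (c (a (l 17533880) (l 17490832)) (a (a (b (l 17186744) (l 16904536)) (l 17001496)) (a (l 17072536) (l 17102080)))) (a (a (a (a (l 16724104) (l 16723264)) (l 16722976)) (l 16722384)) (a (l 16721544) (l 16720656)))) (a (a (a (a (a (a (a (l 16726176) (l 16726032)) (l 16725816))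 (l 16725392)) (l 16725864)) (l 16725552)) (a (l 16726120) (l 16734680))) (a (l 16732032) (l 16749944)))))) (a (b (c (l 17841184) (b (l 17349592) (b (l 17143752) (l 16922136)))) (b (c (l 17270648) (b (l 16792120) (l 16751816))) (a (b (c (l 17117560) (l 16719728)) (l 16747432)) (l 16734832)))) (b (c (l 17769704) (b (l 17360104) (b (l 17181504) (l 16986224)))) (b (c (l 17251696) (b (l 16841792) (l 16767624))) (a (l 16720264) (l 16737704))))))), by decide +kernel⟩

def k3_pp_022_a : ∃ t, chk3 f_pp_022_a t 33 14 1 = true :=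
  ⟨(b (b (l 18058456) (b (l 17692536) (a (l 17643168) (l 17535944)))) (b (b (b (a (l 17466176) (l 17324088)) (c (l 17717840) (a (l 17240648) (l 17064928)))) (c (a (l 17615408) (l 17360112)) (a (a (l 16885824) (l 16887632)) (a (b (l 17115936) (l 16937664)) (b (l 17076568) (l 16925232)))))) (a (b (c (a (l 17213368) (b (l 17446976) (l 17239952))) (a (l 16714944) (b (l 16842184) (l 16763792)))) (a (b (c (l 16986688) (l 16736064)) (a (l 16743128) (l 16743536))) (b (a (l 16797712) (l 16793888)) (a (l 16744552) (b (l 16785536) (l 16745288)))))) (a (b (c (b (l 17409368) (l 17228784)) (b (l 16813984) (l 16765232))) (b (a (l 16790608) (a (a (l 16767864) (l 16746232)) (a (l 16745600) (l 16744992)))) (a (c (b (l 16879552) (l 16807592)) (b (l 16746976) (l 16750136))) (l 14)))) (b (b (c (l 17268472) (a (l 16893792) (b (l 16900088) (l 16820056)))) (a (c (l 17121912) (b (l 16800088) (l 16735048))) (l 14))) (l 14)))))), by decide +kernel⟩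

def k4_pp_022_a : ∃ t, chk3 f_pp_022_a t 17 14 1 = true :=
  ⟨(b (a (b (a (l 17935776) (l 17844376)) (c (a (l 17867448) (l 17641520)) (a (b (l 17558360) (l 17342568)) (b (l 17449400) (a (l 17257648) (l 17251328)))))) (b (a (c (l 17904456) (l 17419000)) (b (l 17723112) (l 17617632))) (a (c (b (l 17733912) (l 17606136)) (b (l 17302784) (l 14))) (a (b (l 17439216) (c (l 95061028871) (l 14))) (b (b (l 47816041079) (a (l 86470651431) (l 219078259399))) (c (l 228742083767) (b (l 207803620695) (l 1)))))))) (a (b (b (c (a (l 17620624) (l 17447424)) (a (a (l 17120288) (b (l 17267336) (a (l 17163280) (l 17132496)))) (a (b (l 17202160) (l 14)) (l 14)))) (a (c (a (l 17298056) (l 17300096)) (a (b (a (l 17105856) (l 16972096)) (a (l 16770312) (l 16786336))) (b (a (l 16964480) (l 14)) (l 14)))) (l 14))) (a (a (a (b (b (c (l 17347192) (l 16753664)) (l 14)) (l 14)) (l 14)) (l 14)) (l 14))) (b (a (c (c (b (a (l 17569064) (l 95598006167)) (a (l 14) (l 218004432327))) (l 14))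 (l 14)) (b (a (c (l 220151971239) (l 14)) (l 1)) (l 1))) (a (a (l 14) (l 1)) (l 1))))), by decide +kernel⟩

def k5_pp_022_a : ∃ t, chk3 f_pp_022_a t 32 30 1 = true :=
  ⟨(b (b (a (a (a (b (a (a (b (l 16727264) (l 16728232)) (l 16727536)) (l 16727928)) (a (a (a (b (l 16729120) (l 16730080)) (l 16729840)) (l 16730048)) (c (l 16729344) (l 16728304)))) (a (a (l 16729248) (l 16728408)) (l 16729448))) (b (a (l 16725296) (l 16724480)) (a (l 16727264) (l 16726496)))) (a (b (a (l 16723624) (l 16722728)) (a (l 16725696) (l 16724864))) (b (a (l 16721808) (l 16741824)) (a (l 16744968) (l 16744088))))) (b (a (a (a (a (a (b (c (l 16731224) (a (l 16730224) (l 16730152))) (a (b (l 16731184) (l 16731712)) (l 16731376))) (c (l 16732232) (l 16731880))) (a (l 16731904) (l 16730440))) (a (l 16730208) (l 16729880))) (a (l 16730688) (l 16728672))) (a (a (a (l 16728112) (l 16727736)) (c (l 16743600) (l 16727096))) (a (l 16747328) (b (l 16745880) (l 16747136))))) (b (b (a (a (a (a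 (a (c (l 16732384) (l 16732040)) (l 16732072)) (l 16731856)) (l 16731408)) (a (l 16730776) (l 16730104))) (a (a (l 16729400) (l 16728672)) (l 16730496))) (l 6)) (l 6)))) (l 6)), by decide +kernel⟩

def k6_pp_022_a : ∃ t, chk3 f_pp_022_a t 33 30 1 = true :=
  ⟨(b (a (b (a (b (b (l 16739800) (a (l 16741416) (c (l 16848976) (l 16741856)))) (a (b (l 16742584) (a (l 16744008) (l 16744896))) (b (a (a (a (l 16743056) (l 16743688)) (l 16744632)) (l 16746512)) (a (l 16747392) (l 16749808))))) (b (a (b (a (l 16742280) (l 16744832)) (c (l 16783896) (l 16746864))) (c (b (l 16758088) (l 16761304)) (b (l 16748496) (l 16751648)))) (a (a (b (l 16748968) (l 16752128)) (b (l 16751312) (l 16754416))) (c (l 14) (l 16745792))))) (b (a (a (b (a (l 16745816) (l 16748280)) (a (b (l 16748360) (l 16750032)) (c (l 16751560) (l 16751520)))) (a (b (l 16750664) (l 16753800)) (b (l 16752952) (l 16756064)))) (c (l 14) (a (l 16742152) (l 16746736)))) (b (b (a (a (c (l 16742304) (l 16742264))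 (l 16757264)) (a (l 16761808) (l 16755920))) (l 6)) (l 6)))) (c (l 14) (a (a (b (b (l 16754752) (l 16745192)) (b (c (l 14) (l 16751384)) (b (l 16755000) (l 6)))) (l 14)) (l 14)))) (a (l 6) (a (l 6) (b (l 14) (l 1))))), by decide +kernel⟩

def k7_pp_022_a : ∃ t, chk3 f_pp_022_a t 17 30 1 = true :=
  ⟨(a (b (a (l 14) (l 1)) (l 1)) (l 1)), by decide +kernel⟩

def k8_pp_022_a : ∃ t, chk3 f_pp_022_a t 8 31 1 = true :=
  ⟨(a (a (l 6) (a (l 6) (l 1))) (l 1)), by decide +kernel⟩

def k9_pp_022_a : ∃ t, chk3 f_pp_022_a t 9 7 1 = true :=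
  ⟨(b (a (b (a (b (a (a (b (l 17659704) (a (l 17444264) (l 191161164215))) (b (l 103114052391) (l 226057768791))) (b (l 235184700487) (l 1))) (a (a (b (l 225520754343) (l 1)) (l 1)) (l 1))) (l 1)) (l 1)) (l 1)) (l 1)), by decide +kernel⟩

def k10_pp_022_a : ∃ t, chk3 f_pp_022_a t 5 3 1 = true :=
  ⟨(b (l 1) (l 1)), by decide +kernel⟩

def k11_pp_022_a : ∃ t, chk3 f_pp_022_a t 3 1 1 = true :=
  ⟨(l 1), by decide +kernel⟩

theorem s12_pp_022_a : ∃ t, chk3 f_pp_022_a t 16 30 1 = true := ex3_a k5_pp_022_a k6_pp_022_a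

theorem s13_pp_022_a : ∃ t, chk3 f_pp_022_a t 8 30 1 = true := ex3_a s12_pp_022_a k7_pp_022_a

theorem s14_pp_022_a : ∃ t, chk3 f_pp_022_a t 8 15 1 = true := ex3_b s13_pp_022_a k8_pp_022_a

theorem s15_pp_022_a : ∃ t, chk3 f_pp_022_a t 16 14 1 = true := ex3_a k2_pp_022_a k3_pp_022_a

theorem s16_pp_022_a : ∃ t, chk3 f_pp_022_a t 8 14 1 = true := ex3_a s15_pp_022_a k4_pp_022_a

theorem s17_pp_022_a : ∃ t, chk3 f_pp_022_a t 8 7 1 = true := ex3_b s16_pp_022_a s14_pp_022_a

theorem s18_pp_022_a : ∃ t, chk3 f_pp_022_a t 4 7 1 = true := ex3_a s17_pp_022_a k9_pp_022_a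

theorem s19_pp_022_a : ∃ t, chk3 f_pp_022_a t 4 3 1 = true := ex3_b k1_pp_022_a s18_pp_022_a

theorem s20_pp_022_a : ∃ t, chk3 f_pp_022_a t 2 3 1 = true := ex3_a s19_pp_022_a k10_pp_022_a

theorem s21_pp_022_a : ∃ t, chk3 f_pp_022_a t 2 1 1 = true := ex3_b k0_pp_022_a s20_pp_022_a

theorem s22_pp_022_a : ∃ t, chk3 f_pp_022_a t 1 1 1 = true := ex3_a s21_pp_022_a k11_pp_022_a

theorem c_pp_022_a : CertF 0 536870912 0 536870912 33554432 16777216 false true true .pp 0 2 2
    ndF0q0 ndF2q2a pcF2 cut_pp_022_a Ext.none :=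
  certFK0 (fam := false) (s1 := true) (s2 := true) (a := 0) (b := 2) (c := 2) (cn := .pp) (n1 := ndF0q0) (n2 := ndF2q2a) (pc := pcF2) (cut := cut_pp_022_a) (xt := Ext.none) (P1 := 0) (W1 := 536870912) (P2 := 0) (W2 := 536870912) (P3 := 33554432) (W3 := 16777216)
    rfl rfl rfl s22_pp_022_a

noncomputable def cut_pp_022_b : Cut := Cut.of [[⟨0, 0, 0, 33554432⟩, ⟨1, 1, 0, 33554432⟩, ⟨2, 1, 0, 33554432⟩], [⟨0, 0, 1, 25165824⟩, ⟨1, 1, 0, 16777216⟩, ⟨2, 1, 1, 25165824⟩, ⟨0, 0, 0, 67108864⟩, ⟨0, 1, 0, 1056964608⟩, ⟨2, 1, 0, 67108864⟩, ⟨2, 2, 0, 1056964608⟩]]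

noncomputable def f_pp_022_b : ℕ → ℕ → ℕ → ℕ → Bool := onCell 0 536870912 1073741824 536870912 33554432 16777216
    (rowFK 1 false true true .pp 0 2 2 (qsf 0 536870912 1239849684 370763052 2) ndF0q0 ndF2q2b pcF2 cut_pp_022_b Ext.none)

def k0_pp_022_b : ∃ t, chk3 f_pp_022_b t 1 1 1 = true :=
  ⟨(a (b (b (a (a (b (l 1) (a (l 235724368551) (l 18992760))) (b (b (b (l 1) (l 216395553335)) (l 148750628167)) (l 18854832))) (b (b (b (b (l 67682476839) (l 68219363111)) (l 67145834231)) (l 18558416)) (l 18633624))) (a (a (l 19466192) (l 19161920)) (l 18679544))) (a (l 19354880) (l 18721680))) (b (b (b (b (b (b (a (l 17730152) (l 17645256)) (a (l 17754896) (l 17662504))) (a (l 17793280) (l 17685784))) (a (l 17849896) (l 17720688))) (a (l 17925712) (l 17787312))) (a (l 18058376) (l 17870200))) (b (a (l 18086152) (l 2)) (l 2)))), by decide +kernel⟩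

theorem c_pp_022_b : CertF 0 536870912 1239849684 370763052 33554432 16777216 false true true .pp 0 2 2
    ndF0q0 ndF2q2b pcF2 cut_pp_022_b Ext.none :=
  certFK1 (fam := false) (s1 := true) (s2 := true) (a := 0) (b := 2) (c := 2) (cn := .pp) (n1 := ndF0q0) (n2 := ndF2q2b) (pc := pcF2) (cut := cut_pp_022_b) (xt := Ext.none) (P1 := 0) (W1 := 536870912) (P2 := 1239849684) (W2 := 370763052) (P3 := 33554432) (W3 := 16777216)
    rfl rfl rfl (fun _ => rfl) k0_pp_022_b

noncomputable def f_pp_023 : ℕ → ℕ → ℕ → ℕ → Bool := onCell 0 536870912 1073741824 536870912 33554432 16777216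
    (rowFK 1 false true true .up 0 2 3 (qsf 0 536870912 1610612736 536870912 2) ndF0q0 ndF2q3 pcF2 Cut.none Ext.none)

def k0_pp_023 : ∃ t, chk3 f_pp_023 t 1 1 1 = true :=
  ⟨(a (b (b (l 1) (a (l 1) (l 18680424))) (a (l 19481608) (l 18848944))) (a (b (b (b (l 1) (l 18046832)) (l 18006176)) (b (l 18105408) (l 18129536))) (b (b (b (b (b (b (l 17629568) (l 17597640)) (l 17569768)) (l 17529272)) (l 17589976)) (l 17710872)) (b (l 17823144) (l 17818968))))), by decide +kernel⟩

theorem c_pp_023 : CertF 0 536870912 1610612736 536870912 33554432 16777216 false true true .up 0 2 3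
    ndF0q0 ndF2q3 pcF2 Cut.none Ext.none :=
  certFK1 (fam := false) (s1 := true) (s2 := true) (a := 0) (b := 2) (c := 3) (cn := .up) (n1 := ndF0q0) (n2 := ndF2q3) (pc := pcF2) (cut := Cut.none) (xt := Ext.none) (P1 := 0) (W1 := 536870912) (P2 := 1610612736) (W2 := 536870912) (P3 := 33554432) (W3 := 16777216)
    rfl rfl rfl (fun _ => rfl) k0_pp_023

noncomputable def f_pp_033 : ℕ → ℕ → ℕ → ℕ → Bool := onCell 1610612736 536870912 1610612736 536870912 33554432 16777216
    (rowFK 2 false true true .pnn 0 3 3 (qsf 0 536870912 1610612736 536870912 3) ndF0q0 ndF2q3 pcF3 Cut.none Ext.none)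

def k0_pp_033 : ∃ t, chk3 f_pp_033 t 1 1 1 = true :=
  ⟨(b (a (a (b (l 19401368) (a (l 18350600) (l 18583400))) (b (a (l 19436944) (l 1)) (a (l 18939936) (l 19286656)))) (a (a (b (l 1) (l 19480848)) (l 1)) (l 1))) (a (a (b (a (l 17393928) (l 17813120)) (a (l 17007400) (l 17312792))) (b (a (l 18264608) (l 18715656)) (a (l 17652432) (l 17936000)))) (a (a (b (l 18996328) (l 17992056)) (b (l 19133504) (l 4))) (l 4)))), by decide +kernel⟩

theorem c_pp_033 : CertF 0 536870912 1610612736 536870912 33554432 16777216 false true true .pnn 0 3 3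
    ndF0q0 ndF2q3 pcF3 Cut.none Ext.none :=
  certFK2 (fam := false) (s1 := true) (s2 := true) (a := 0) (b := 3) (c := 3) (cn := .pnn) (n1 := ndF0q0) (n2 := ndF2q3) (pc := pcF3) (cut := Cut.none) (xt := Ext.none) (P1 := 0) (W1 := 536870912) (P2 := 1610612736) (W2 := 536870912) (P3 := 33554432) (W3 := 16777216)
    rfl rfl rfl (fun _ => rfl) k0_pp_033

noncomputable def f_pp_101 : ℕ → ℕ → ℕ → ℕ → Bool := onCell 536870912 536870912 536870912 536870912 33554432 16777216
    (rowFK 0 false true true .npn 1 0 1 (qsf 536870912 536870912 536870912 536870912 0) ndF0q1 ndF2q1 pcF0 Cut.none Ext.none)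

def k0_pp_101 : ∃ t, chk3 f_pp_101 t 1 1 1 = true :=
  ⟨(a (l 3) (l 5)), by decide +kernel⟩

theorem c_pp_101 : CertF 536870912 536870912 536870912 536870912 33554432 16777216 false true true .npn 1 0 1
    ndF0q1 ndF2q1 pcF0 Cut.none Ext.none :=
  certFK0 (fam := false) (s1 := true) (s2 := true) (a := 1) (b := 0) (c := 1) (cn := .npn) (n1 := ndF0q1) (n2 := ndF2q1) (pc := pcF0) (cut := Cut.none) (xt := Ext.none) (P1 := 536870912) (W1 := 536870912) (P2 := 536870912) (W2 := 536870912) (P3 := 33554432) (W3 := 16777216)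
    rfl rfl rfl k0_pp_101

noncomputable def f_pp_102_a : ℕ → ℕ → ℕ → ℕ → Bool := onCell 536870912 536870912 0 536870912 33554432 16777216
    (rowFK 0 false true true .npp 1 0 2 (qsf 536870912 536870912 0 536870912 0) ndF0q1 ndF2q2a pcF0 Cut.none Ext.none)

def k0_pp_102_a : ∃ t, chk3 f_pp_102_a t 1 1 1 = true :=
  ⟨(l 3), by decide +kernel⟩

theorem c_pp_102_a : CertF 536870912 536870912 0 536870912 33554432 16777216 false true true .npp 1 0 2
    ndF0q1 ndF2q2a pcF0 Cut.none Ext.none :=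
  certFK0 (fam := false) (s1 := true) (s2 := true) (a := 1) (b := 0) (c := 2) (cn := .npp) (n1 := ndF0q1) (n2 := ndF2q2a) (pc := pcF0) (cut := Cut.none) (xt := Ext.none) (P1 := 536870912) (W1 := 536870912) (P2 := 0) (W2 := 536870912) (P3 := 33554432) (W3 := 16777216)
    rfl rfl rfl k0_pp_102_a

noncomputable def f_pp_102_b : ℕ → ℕ → ℕ → ℕ → Bool := onCell 536870912 536870912 0 536870912 33554432 16777216
    (rowFK 1 false true true .npp 1 0 2 (qsf 536870912 536870912 1239849684 370763052 0) ndF0q1 ndF2q2b pcF0 Cut.none Ext.none)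

def k0_pp_102_b : ∃ t, chk3 f_pp_102_b t 1 1 1 = true :=
  ⟨(l 3), by decide +kernel⟩

theorem c_pp_102_b : CertF 536870912 536870912 1239849684 370763052 33554432 16777216 false true true .npp 1 0 2
    ndF0q1 ndF2q2b pcF0 Cut.none Ext.none :=
  certFK1 (fam := false) (s1 := true) (s2 := true) (a := 1) (b := 0) (c := 2) (cn := .npp) (n1 := ndF0q1) (n2 := ndF2q2b) (pc := pcF0) (cut := Cut.none) (xt := Ext.none) (P1 := 536870912) (W1 := 536870912) (P2 := 1239849684) (W2 := 370763052) (P3 := 33554432) (W3 := 16777216)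
    rfl rfl rfl (fun _ => rfl) k0_pp_102_b

noncomputable def f_pp_112_a : ℕ → ℕ → ℕ → ℕ → Bool := onCell 536870912 536870912 0 536870912 33554432 16777216
    (rowFK 0 false true true .dn 1 1 2 (qsf 536870912 536870912 0 536870912 1) ndF0q1 ndF2q2a pcF1 Cut.none Ext.none)

def k0_pp_112_a : ∃ t, chk3 f_pp_112_a t 1 1 1 = true :=
  ⟨(l 3), by decide +kernel⟩

theorem c_pp_112_a : CertF 536870912 536870912 0 536870912 33554432 16777216 false true true .dn 1 1 2
    ndF0q1 ndF2q2a pcF1 Cut.none Ext.none :=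
  certFK0 (fam := false) (s1 := true) (s2 := true) (a := 1) (b := 1) (c := 2) (cn := .dn) (n1 := ndF0q1) (n2 := ndF2q2a) (pc := pcF1) (cut := Cut.none) (xt := Ext.none) (P1 := 536870912) (W1 := 536870912) (P2 := 0) (W2 := 536870912) (P3 := 33554432) (W3 := 16777216)
    rfl rfl rfl k0_pp_112_a

noncomputable def f_pp_112_b : ℕ → ℕ → ℕ → ℕ → Bool := onCell 536870912 536870912 1239849684 370763052 33554432 16777216
    (rowFK 2 false true true .dn 1 1 2 (qsf 536870912 536870912 1239849684 370763052 1) ndF0q1 ndF2q2b pcF1 Cut.none Ext.none)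

def k0_pp_112_b : ∃ t, chk3 f_pp_112_b t 1 1 1 = true :=
  ⟨(a (l 3) (a (l 3) (b (l 1) (a (l 3) (b (l 1) (l 124723685207)))))), by decide +kernel⟩

theorem c_pp_112_b : CertF 536870912 536870912 1239849684 370763052 33554432 16777216 false true true .dn 1 1 2
    ndF0q1 ndF2q2b pcF1 Cut.none Ext.none :=
  certFK2 (fam := false) (s1 := true) (s2 := true) (a := 1) (b := 1) (c := 2) (cn := .dn) (n1 := ndF0q1) (n2 := ndF2q2b) (pc := pcF1) (cut := Cut.none) (xt := Ext.none) (P1 := 536870912) (W1 := 536870912) (P2 := 1239849684) (W2 := 370763052) (P3 := 33554432) (W3 := 16777216)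
    rfl rfl rfl (fun _ => rfl) k0_pp_112_b

noncomputable def cut_pp_113 : Cut := Cut.of [[⟨0, 1, 0, 7061502⟩, ⟨1, 1, 0, 7061502⟩, ⟨2, 2, 0, 184626⟩]]

noncomputable def f_pp_113 : ℕ → ℕ → ℕ → ℕ → Bool := onCell 536870912 536870912 536870912 536870912 33554432 16777216
    (rowFK 1 false true true .nn 1 1 3 (qsf 536870912 536870912 1610612736 536870912 1) ndF0q1 ndF2q3 pcF1 cut_pp_113 Ext.none)

def k0_pp_113 : ∃ t, chk3 f_pp_113 t 1 1 1 = true :=
  ⟨(b (l 3) (b (l 3) (b (a (l 3) (l 3)) (b (a (l 3) (l 3)) (a (a (a (l 17386496) (l 17399992)) (a (l 17477544) (l 198811272295))) (a (a (l 207937922583) (b (l 3) (l 17351304))) (b (l 3) (b (l 3) (a (l 17349000) (a (l 200421265687) (b (l 3) (a (l 205252815015) (b (l 3) (a (l 208473873031) (b (l 3) (a (l 210084405527) (b (l 3) (b (l 3) (b (l 3) (b (l 3) (b (l 3) (a (l 16796840) (a (l 16787192) (a (l 16787544) (a (l 16782456) (a (l 189683208519) (l 6))))))))))))))))))))))))))), by decide +kernel⟩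

theorem c_pp_113 : CertF 536870912 536870912 1610612736 536870912 33554432 16777216 false true true .nn 1 1 3
    ndF0q1 ndF2q3 pcF1 cut_pp_113 Ext.none :=
  certFK1 (fam := false) (s1 := true) (s2 := true) (a := 1) (b := 1) (c := 3) (cn := .nn) (n1 := ndF0q1) (n2 := ndF2q3) (pc := pcF1) (cut := cut_pp_113) (xt := Ext.none) (P1 := 536870912) (W1 := 536870912) (P2 := 1610612736) (W2 := 536870912) (P3 := 33554432) (W3 := 16777216)
    rfl rfl rfl (fun _ => rfl) k0_pp_113

noncomputable def cut_pp_123 : Cut := Cut.of [[⟨0, 1, 0, 7061502⟩, ⟨1, 1, 0, 7061502⟩, ⟨2, 2, 0, 184626⟩]]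

noncomputable def f_pp_123 : ℕ → ℕ → ℕ → ℕ → Bool := onCell 536870912 536870912 1073741824 536870912 33554432 16777216
    (rowFK 1 false true true .npn 1 2 3 (qsf 536870912 536870912 1610612736 536870912 2) ndF0q1 ndF2q3 pcF2 cut_pp_123 Ext.none)

def k0_pp_123 : ∃ t, chk3 f_pp_123 t 1 1 1 = true :=
  ⟨(a (b (a (b (b (b (b (b (a (l 17297016) (l 17381568)) (a (l 17293704) (l 17374656))) (a (l 17287920) (l 17363384))) (a (l 17302560) (l 17338600))) (a (l 17374648) (l 17271304))) (l 17468136)) (b (b (b (b (b (a (l 17424176) (l 17327976)) (a (l 17413048) (l 17311832))) (a (l 17395304) (l 17286320))) (a (l 17357464) (l 17232568))) (a (l 17257736) (l 17093600))) (a (l 17229000) (l 17271232)))) (a (b (l 17605568) (b (l 17623032) (l 17541256))) (b (b (l 17468344) (l 17761560)) (a (b (l 17461784) (l 2)) (l 2))))) (b (a (b (b (b (b (b (a (l 17191912) (l 17236064)) (a (l 17169536) (l 17142704))) (a (l 17134280) (l 17094672))) (a (l 17060184) (l 16993296))) (a (l 17075656)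 (l 17023120))) (a (l 17396208) (b (l 17272984) (l 17610296)))) (b (b (b (b (b (a (l 17240936) (a (l 17064256) (b (a (l 16944320) (a (l 16878168) (b (a (l 16828760) (b (a (l 16813760) (a (l 16804080) (a (l 16788688) (b (a (l 16782960) (a (l 16780448) (b (b (l 6) (l 16778032)) (l 2)))) (l 16780472))))) (l 16799440))) (l 16821448)))) (l 16985888)))) (a (l 17157928) (a (l 16949880) (l 16908040)))) (a (l 17050752) (l 119823479111))) (a (l 16974288) (l 189616905159))) (a (l 17066104) (b (l 17363328) (l 2)))) (a (b (l 17420888) (l 2)) (l 2)))) (a (b (a (b (l 17732392) (l 2)) (l 2)) (l 2)) (l 2)))), by decide +kernel⟩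

theorem c_pp_123 : CertF 536870912 536870912 1610612736 536870912 33554432 16777216 false true true .npn 1 2 3
    ndF0q1 ndF2q3 pcF2 cut_pp_123 Ext.none :=
  certFK1 (fam := false) (s1 := true) (s2 := true) (a := 1) (b := 2) (c := 3) (cn := .npn) (n1 := ndF0q1) (n2 := ndF2q3) (pc := pcF2) (cut := cut_pp_123) (xt := Ext.none) (P1 := 536870912) (W1 := 536870912) (P2 := 1610612736) (W2 := 536870912) (P3 := 33554432) (W3 := 16777216)
    rfl rfl rfl (fun _ => rfl) k0_pp_123

noncomputable def f_pp_133 : ℕ → ℕ → ℕ → ℕ → Bool := onCell 1610612736 536870912 1610612736 536870912 33554432 16777216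
    (rowFK 2 false true true .dn 1 3 3 (qsf 536870912 536870912 1610612736 536870912 3) ndF0q1 ndF2q3 pcF3 Cut.none Ext.none)

def k0_pp_133 : ∃ t, chk3 f_pp_133 t 1 1 1 = true :=
  ⟨(a (b (l 1) (a (b (l 1) (a (l 17127784) (l 1))) (l 1))) (l 1)), by decide +kernel⟩

theorem c_pp_133 : CertF 536870912 536870912 1610612736 536870912 33554432 16777216 false true true .dn 1 3 3
    ndF0q1 ndF2q3 pcF3 Cut.none Ext.none :=
  certFK2 (fam := false) (s1 := true) (s2 := true) (a := 1) (b := 3) (c := 3) (cn := .dn) (n1 := ndF0q1) (n2 := ndF2q3) (pc := pcF3) (cut := Cut.none) (xt := Ext.none) (P1 := 536870912) (W1 := 536870912) (P2 := 1610612736) (W2 := 536870912) (P3 := 33554432) (W3 := 16777216)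
    rfl rfl rfl (fun _ => rfl) k0_pp_133

noncomputable def f_pp_202_a : ℕ → ℕ → ℕ → ℕ → Bool := onCell 0 536870912 0 536870912 33554432 16777216
    (rowFK 0 false true true .pp 2 0 2 (qsf 0 536870912 0 536870912 0) ndF0q2 ndF2q2a pcF0 Cut.none Ext.none)

def k0_pp_202_a : ∃ t, chk3 f_pp_202_a t 1 1 1 = true :=
  ⟨(l 3), by decide +kernel⟩

theorem c_pp_202_a : CertF 0 536870912 0 536870912 33554432 16777216 false true true .pp 2 0 2
    ndF0q2 ndF2q2a pcF0 Cut.none Ext.none :=
  certFK0 (fam := false) (s1 := true) (s2 := true) (a := 2) (b := 0) (c := 2) (cn := .pp) (n1 := ndF0q2) (n2 := ndF2q2a) (pc := pcF0) (cut := Cut.none) (xt := Ext.none) (P1 := 0) (W1 := 536870912) (P2 := 0) (W2 := 536870912) (P3 := 33554432) (W3 := 16777216)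
    rfl rfl rfl k0_pp_202_a

noncomputable def f_pp_202_b : ℕ → ℕ → ℕ → ℕ → Bool := onCell 0 536870912 1239849684 370763052 33554432 16777216
    (rowFK 0 false true true .pp 2 0 2 (qsf 0 536870912 1239849684 370763052 0) ndF0q2 ndF2q2b pcF0 Cut.none Ext.none)

def k0_pp_202_b : ∃ t, chk3 f_pp_202_b t 1 1 1 = true :=
  ⟨(l 3), by decide +kernel⟩

theorem c_pp_202_b : CertF 0 536870912 1239849684 370763052 33554432 16777216 false true true .pp 2 0 2
    ndF0q2 ndF2q2b pcF0 Cut.none Ext.none :=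
  certFK0 (fam := false) (s1 := true) (s2 := true) (a := 2) (b := 0) (c := 2) (cn := .pp) (n1 := ndF0q2) (n2 := ndF2q2b) (pc := pcF0) (cut := Cut.none) (xt := Ext.none) (P1 := 0) (W1 := 536870912) (P2 := 1239849684) (W2 := 370763052) (P3 := 33554432) (W3 := 16777216)
    rfl rfl rfl k0_pp_202_b

noncomputable def f_pp_203 : ℕ → ℕ → ℕ → ℕ → Bool := onCell 0 536870912 0 536870912 33554432 16777216
    (rowFK 1 false true true .up 2 0 3 (qsf 0 536870912 1610612736 536870912 0) ndF0q2 ndF2q3 pcF0 Cut.none Ext.none)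

def k0_pp_203 : ∃ t, chk3 f_pp_203 t 1 1 1 = true :=
  ⟨(l 3), by decide +kernel⟩

theorem c_pp_203 : CertF 0 536870912 1610612736 536870912 33554432 16777216 false true true .up 2 0 3
    ndF0q2 ndF2q3 pcF0 Cut.none Ext.none :=
  certFK1 (fam := false) (s1 := true) (s2 := true) (a := 2) (b := 0) (c := 3) (cn := .up) (n1 := ndF0q2) (n2 := ndF2q3) (pc := pcF0) (cut := Cut.none) (xt := Ext.none) (P1 := 0) (W1 := 536870912) (P2 := 1610612736) (W2 := 536870912) (P3 := 33554432) (W3 := 16777216)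
    rfl rfl rfl (fun _ => rfl) k0_pp_203

noncomputable def cut_pp_213 : Cut := Cut.of [[⟨0, 1, 0, 7061502⟩, ⟨1, 1, 0, 7061502⟩, ⟨2, 2, 0, 184626⟩]]

noncomputable def f_pp_213 : ℕ → ℕ → ℕ → ℕ → Bool := onCell 0 536870912 1610612736 536870912 33554432 16777216
    (rowFK 0 false true true .pnn 2 1 3 (qsf 0 536870912 1610612736 536870912 1) ndF0q2 ndF2q3 pcF1 cut_pp_213 Ext.none)

def k0_pp_213 : ∃ t, chk3 f_pp_213 t 1 1 1 = true :=
  ⟨(b (l 3) (a (l 3) (b (l 3) (a (l 3) (b (l 3) (a (l 3) (b (l 3) (a (l 3) (b (l 3) (a (l 3) (b (l 3) (a (l 3) (b (l 3) (a (l 3) (b (l 3) (b (l 3) (b (l 3) (b (l 3) (b (l 3) (l 6)))))))))))))))))))), by decide +kernel⟩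

theorem c_pp_213 : CertF 0 536870912 1610612736 536870912 33554432 16777216 false true true .pnn 2 1 3
    ndF0q2 ndF2q3 pcF1 cut_pp_213 Ext.none :=
  certFK0 (fam := false) (s1 := true) (s2 := true) (a := 2) (b := 1) (c := 3) (cn := .pnn) (n1 := ndF0q2) (n2 := ndF2q3) (pc := pcF1) (cut := cut_pp_213) (xt := Ext.none) (P1 := 0) (W1 := 536870912) (P2 := 1610612736) (W2 := 536870912) (P3 := 33554432) (W3 := 16777216)
    rfl rfl rfl k0_pp_213

noncomputable def f_pm_001 : ℕ → ℕ → ℕ → ℕ → Bool := onCell 0 536870912 536870912 536870912 33554432 16777216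
    (rowFK 0 false true false .up 0 0 1 (qsf 0 536870912 536870912 536870912 0) ndF0q0 ndF2q1 pcF0 Cut.none Ext.none)

def k0_pm_001 : ∃ t, chk3 f_pm_001 t 1 1 1 = true :=
  ⟨(l 4), by decide +kernel⟩

theorem c_pm_001 : CertF 0 536870912 536870912 536870912 33554432 16777216 false true false .up 0 0 1
    ndF0q0 ndF2q1 pcF0 Cut.none Ext.none :=
  certFK0 (fam := false) (s1 := true) (s2 := false) (a := 0) (b := 0) (c := 1) (cn := .up) (n1 := ndF0q0) (n2 := ndF2q1) (pc := pcF0) (cut := Cut.none) (xt := Ext.none) (P1 := 0) (W1 := 536870912) (P2 := 536870912) (W2 := 536870912) (P3 := 33554432) (W3 := 16777216)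
    rfl rfl rfl k0_pm_001

noncomputable def f_pm_011 : ℕ → ℕ → ℕ → ℕ → Bool := onCell 0 536870912 536870912 536870912 33554432 16777216
    (rowFK 0 false true false .pnn 0 1 1 (qsf 0 536870912 536870912 536870912 1) ndF0q0 ndF2q1 pcF1 Cut.none Ext.none)

def k0_pm_011 : ∃ t, chk3 f_pm_011 t 1 1 1 = true :=
  ⟨(l 4), by decide +kernel⟩

theorem c_pm_011 : CertF 0 536870912 536870912 536870912 33554432 16777216 false true false .pnn 0 1 1
    ndF0q0 ndF2q1 pcF1 Cut.none Ext.none :=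
  certFK0 (fam := false) (s1 := true) (s2 := false) (a := 0) (b := 1) (c := 1) (cn := .pnn) (n1 := ndF0q0) (n2 := ndF2q1) (pc := pcF1) (cut := Cut.none) (xt := Ext.none) (P1 := 0) (W1 := 536870912) (P2 := 536870912) (W2 := 536870912) (P3 := 33554432) (W3 := 16777216)
    rfl rfl rfl k0_pm_011

noncomputable def cut_pm_012_a : Cut := Cut.of [[⟨0, 0, 0, 33554432⟩, ⟨1, 1, 0, 33554432⟩, ⟨2, 1, 0, 33554432⟩], [⟨0, 0, 1, 25165824⟩, ⟨1, 1, 2, 25165824⟩, ⟨2, 1, 0, 16777216⟩, ⟨0, 0, 0, 67108864⟩, ⟨0, 1, 0, 1056964608⟩, ⟨1, 0, 0, 1056964608⟩, ⟨1, 1, 0, 67108864⟩]]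

noncomputable def f_pm_012_a : ℕ → ℕ → ℕ → ℕ → Bool := onCell 536870912 536870912 0 536870912 33554432 16777216
    (rowFK 2 false true false .pnp 0 1 2 (qsf 0 536870912 0 536870912 1) ndF0q0 ndF2q2a pcF1 cut_pm_012_a Ext.none)

def k0_pm_012_a : ∃ t, chk3 f_pm_012_a t 2 1 1 = true :=
  ⟨(b (a (l 18870528) (l 19118560)) (b (a (l 18852632) (l 19090584)) (b (a (l 18891408) (l 19013552)) (b (a (l 18844600) (l 18960984)) (b (a (l 18818912) (l 18895072)) (a (l 18784096) (l 18835680))))))), by decide +kernel⟩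

def k1_pm_012_a : ∃ t, chk3 f_pm_012_a t 3 2 1 = true :=
  ⟨(a (l 19447824) (a (l 19814016) (a (l 20173824) (a (l 20422784) (a (l 20557352) (l 20622512)))))), by decide +kernel⟩

def k2_pm_012_a : ∃ t, chk3 f_pm_012_a t 6 3 1 = true :=
  ⟨(b (a (l 19270272) (l 19371712)) (b (a (l 19067384) (l 19055680)) (b (a (l 18860880) (l 18757400)) (b (a (l 18710792) (l 18540360)) (a (l 18587504) (l 18367152)))))), by decide +kernel⟩

def k3_pm_012_a : ∃ t, chk3 f_pm_012_a t 7 6 1 = true :=
  ⟨(a (l 19693680) (a (l 19841680) (a (l 20009000) (a (b (l 20271656) (l 19858736)) (b (l 20335240) (l 19856968)))))), by decide +kernel⟩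

def k4_pm_012_a : ∃ t, chk3 f_pm_012_a t 14 7 1 = true :=
  ⟨(b (a (l 19089680) (l 19128344)) (b (a (l 18689184) (b (l 18722456) (l 18499992))) (b (a (l 18398464) (a (l 18286752) (l 18168336))) (a (l 18159464) (a (l 17952976) (b (l 17917776) (a (l 17786928) (l 17488808)))))))), by decide +kernel⟩

def k5_pm_012_a : ∃ t, chk3 f_pm_012_a t 30 14 1 = true :=
  ⟨(b (l 19337168) (a (l 18972488) (l 18688568))), by decide +kernel⟩

def k6_pm_012_a : ∃ t, chk3 f_pm_012_a t 62 14 1 = true :=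
  ⟨(b (l 19319688) (a (b (l 18964544) (l 18636184)) (b (l 18858544) (c (l 18758840) (b (l 18269096) (a (l 18098424) (l 17934544))))))), by decide +kernel⟩

def k7_pm_012_a : ∃ t, chk3 f_pm_012_a t 126 14 1 = true :=
  ⟨(b (l 19016056) (b (c (l 19011152) (a (l 18415504) (b (l 18393112) (l 18129632)))) (c (b (l 18665648) (a (l 18464368) (l 18226960))) (b (a (l 18033712) (c (l 18014792) (a (l 17691368) (l 17454832)))) (a (c (l 17910416) (b (l 17626072) (l 17327584))) (c (a (l 17732560) (l 17361744)) (a (b (l 17425552) (l 17144464)) (b (l 17142968) (l 16842032))))))))), by decide +kernel⟩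

def k8_pm_012_a : ∃ t, chk3 f_pm_012_a t 127 28 1 = true :=
  ⟨(c (l 19426192) (b (l 18944904) (a (l 18599744) (b (l 18569360) (l 18307240))))), by decide +kernel⟩

def k9_pm_012_a : ∃ t, chk3 f_pm_012_a t 127 58 1 = true :=
  ⟨(c (a (l 18853568) (b (l 18843608) (l 18543648))) (b (a (l 18221136) (c (l 18209392) (a (l 17854040) (l 17483992)))) (a (c (l 18114832) (a (l 17775536) (l 17535032))) (c (a (l 17928720) (b (l 17880656) (l 17636008))) (a (b (l 17584312) (c (l 17495880) (l 17122936))) (b (a (l 17461816) (l 17163320)) (a (c (l 17363344) (l 16958224)) (b (l 16952128) (a (l 16942424) (l 16804960)))))))))), by decide +kernel⟩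

def k10_pm_012_a : ∃ t, chk3 f_pm_012_a t 127 59 1 = true :=
  ⟨(c (b (a (l 18419528) (c (l 18429184) (b (l 18034392) (a (l 17902896) (l 17608456))))) (a (c (l 18291864) (b (l 17920248) (a (l 17787816) (l 17517840)))) (c (b (l 18058136) (a (l 17972120) (c (l 17936040) (l 17516968)))) (b (a (l 17595216) (c (l 17581032) (a (l 17378264) (b (l 17357520) (l 17070496))))) (a (c (l 17544336) (a (l 17347808) (l 17049472))) (c (a (l 17343992) (b (l 17363632) (l 16983152))) (a (b (l 17108744) (l 16813664)) (b (a (l 17016616) (l 16784192)) (a (l 16777160) (l 16712560)))))))))) (a (b (c (a (l 17833384) (l 17479760)) (a (b (l 17507680) (l 17140424)) (b (l 17157368) (a (l 17048096) (l 16887744))))) (c (a (b (l 17539392) (a (l 17342968) (l 17145520))) (a (b (l 17389840) (l 16962000)) (b (l 17170224) (l 16812728)))) (a (b (a (l 17052896) (l 16914912)) (l 16723312)) (b (l 16705344) (l 16707888))))) (a (a (b (c (l 17315832) (b (l 17021192) (l 16783320))) (b (c (c (l 17342872)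 (l 16942472)) (l 16708872)) (l 16709488))) (b (c (b (l 17590640) (l 17172848)) (b (c (l 17210000) (l 16823416)) (l 16713208))) (a (l 16710784) (l 16712128)))) (a (b (c (b (l 17438248) (b (l 17196480) (l 16943176))) (b (c (l 16919400) (l 16702816)) (l 16708184))) (b (l 16709136) (l 16712616))) (a (b (c (b (l 17324776) (c (l 17310856) (l 16792232))) (b (l 16710832) (l 16707344))) (b (l 16709752) (l 16711992))) (b (b (c (l 17169984) (l 16706952)) (b (c (l 16936184) (l 16707264)) (l 16712488))) (a (b (l 16710088) (l 16712336)) (b (l 16710312) (l 16713880))))))))), by decide +kernel⟩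

def k11_pm_012_a : ∃ t, chk3 f_pm_012_a t 30 15 1 = true :=
  ⟨(b (a (b (l 18624608) (l 18182304)) (a (b (l 18520600) (b (l 18255952) (l 17971192))) (b (l 18192448) (c (b (l 18329344) (l 18095032)) (b (l 17698864) (a (l 17669592) (b (l 17584640) (l 17362208)))))))) (b (a (a (l 17907280) (b (l 18004736) (a (l 17838112) (l 17606424)))) (a (c (b (l 18043624) (l 17592632)) (b (a (l 17682112) (l 17433952)) (l 14))) (b (b (c (l 17901280) (a (l 17477488) (a (l 17327592) (l 17145064)))) (c (l 17553304) (a (l 17153504) (a (l 17054360) (l 16904200))))) (l 14)))) (a (a (b (l 17576120) (c (l 17655272) (b (l 17447280) (a (l 17391640) (l 14))))) (b (c (l 17747416) (a (l 17331680) (l 14))) (c (b (l 17568544) (a (l 17494888) (l 14))) (l 14)))) (b (a (c (a (l 17453440) (l 14)) (l 14)) (l 14)) (l 14))))), by decide +kernel⟩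

def k12_pm_012_a : ∃ t, chk3 f_pm_012_a t 62 30 1 = true :=
  ⟨(b (a (c (l 18493224) (b (l 18062152) (a (l 17887576) (l 17581416)))) (a (c (l 18225472) (b (l 17769632) (c (l 17672272) (b (l 17444032) (l 17128768))))) (c (b (l 18329664) (l 17766920)) (b (c (l 17803016) (b (l 17536096) (l 17239384))) (c (b (l 17549024) (a (l 17430920) (l 17267272))) (b (a (l 17252816) (l 17082960)) (a (l 17041080) (l 16895128)))))))) (a (c (b (l 17932472) (a (l 17907712) (b (l 17820288) (l 17443056)))) (b (a (l 17370704) (c (l 17414120) (b (l 17350848) (l 17018008)))) (b (a (l 17192632) (c (l 17187376) (l 16758440))) (a (c (l 17392008) (l 16866944)) (a (l 16891512) (l 16830912)))))) (b (b (c (a (l 17961888) (c (l 17946816) (l 17385264))) (a (a (l 17207256) (l 17010352)) (a (l 16878816) (l 16809280)))) (c (a (l 17688520) (c (l 17754672) (a (l 17421272) (l 17120264)))) (a (a (l 16984136) (l 16855056)) (a (l 16788488) (l 16707248))))) (a (c (b (a (l 17648336) (l 17360920)) (c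 (l 17499912) (a (l 17256592) (l 16960328)))) (b (a (l 16831976) (l 16789600)) (a (l 16750128) (l 16707256)))) (b (a (c (c (l 17615040) (l 17039904)) (l 16707240)) (l 16728336)) (a (l 16744272) (b (l 16712464) (l 16713984)))))))), by decide +kernel⟩

def k13_pm_012_a : ∃ t, chk3 f_pm_012_a t 126 30 1 = true :=
  ⟨(b (c (b (a (l 18009000) (c (l 18148984) (b (l 17779912) (a (l 17667680) (l 17380632))))) (a (c (l 17897096) (b (l 17593976) (a (l 17544904) (l 17261128)))) (c (b (l 17671376) (a (l 17688416) (c (l 17643600) (l 17213512)))) (b (a (l 17321056) (a (l 17205280) (l 16999912))) (a (b (l 17161648) (l 16970544)) (a (l 16877160) (l 16802456))))))) (a (b (c (b (l 17655000) (a (l 17536280) (l 17390224))) (b (a (l 17340120) (l 17124360)) (a (l 17103784) (l 16889976)))) (a (c (b (l 17339336) (l 16977864)) (l 16706112)) (b (l 16789408) (l 16710800)))) (b (b (c (a (l 17440680) (l 17019216)) (a (l 16887192) (l 16750584))) (a (c (l 17033696) (l 16777192)) (l 16726984)))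 (a (b (l 16750296) (l 16710512)) (b (l 16710840) (l 16713400)))))) (a (a (b (c (c (b (l 17763696) (l 17521568)) (b (l 17180120) (l 16836336))) (b (l 16707384) (l 16710080))) (b (b (l 16712440) (l 16713904)) (b (l 16715408) (l 16716968)))) (b (b (c (c (l 17615544) (b (l 17124224) (l 16955480))) (l 16710256)) (l 16715896)) (b (l 16718792) (a (l 16718488) (l 16720040))))) (b (a (b (l 16716096) (l 16718880)) (a (b (l 16715688) (l 16718528)) (b (l 16717176) (l 16720048)))) (a (a (b (l 16718456) (l 16721600)) (b (l 16719992) (l 16723168))) (a (b (l 16721544) (l 16727376)) (b (l 16723096) (l 6))))))), by decide +kernel⟩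

def k14_pm_012_a : ∃ t, chk3 f_pm_012_a t 127 30 1 = true :=
  ⟨(b (b (b (a (c (c (l 17898720) (a (l 17460376) (c (l 17485544) (a (l 17295312) (l 17061240))))) (a (l 16708488) (l 16710392))) (a (c (c (l 17491040) (a (b (l 17112904) (l 16906480)) (c (b (l 17307512) (l 17053768)) (l 16711824)))) (a (l 16711776) (l 16712712))) (b (a (l 16713472) (a (l 16714240) (a (l 16714592) (l 16715488)))) (a (l 16716032) (a (l 16715440) (a (l 16715800) (l 16716696))))))) (a (a (c (c (l 17832560) (a (l 17242320) (l 17035456))) (l 16710888)) (a (b (c (c (l 17764176) (l 17100104)) (l 16711704)) (l 16744416)) (l 16720352))) (a (a (l 16714640) (l 16717568)) (b (a (l 16717256) (a (l 16716680) (a (l 16717048) (l 16717944)))) (a (l 16718520) (a (l 16717952) (a (l 16718328) (l 16719888)))))))) (a (a (a (a (l 16716024) (l 16717416)) (b (l 16714248) (l 16716848))) (a (b (l 16715216) (l 16717848)) (b (l 16716192) (l 16718856)))) (a (a (b (l 16718488) (l 16721184)) (a (b (l 16717928)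 (l 16720648)) (b (l 16718424) (l 16721160)))) (a (b (a (l 16720240) (c (l 16721136) (l 16719040))) (a (l 16723648) (a (l 16723384) (l 16724304)))) (b (a (b (l 16720576) (l 16721928)) (a (b (l 16719648) (l 16722320)) (b (c (l 16720304) (l 16719496)) (c (l 16722304) (l 16720880))))) (a (b (l 16723328) (c (l 16723800) (l 16723104))) (b (a (l 16723720) (c (l 16723696) (l 16722304))) (l 6)))))))) (a (b (a (a (b (l 16718560) (l 16721464)) (b (l 16719608) (l 16722552))) (a (b (l 16720648) (l 16726240)) (b (l 16724312) (c (l 16727600) (l 16724416))))) (a (b (a (l 16727176) (l 16728296)) (l 6)) (l 6))) (b (b (a (b (a (l 16722008) (l 16723064)) (a (l 16723488) (l 6))) (b (b (a (l 16725064) (l 6)) (l 6)) (l 6))) (l 6)) (l 6)))), by decide +kernel⟩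

def k15_pm_012_a : ∃ t, chk3 f_pm_012_a t 31 31 1 = true :=
  ⟨(a (a (a (b (b (a (c (l 17390280) (b (l 16971464) (l 16824408))) (b (c (l 17631768) (l 16867688)) (c (l 17314288) (l 16770704)))) (l 14)) (l 14)) (a (b (b (c (c (l 17479296) (b (l 17365840) (l 17032496))) (b (l 16810336) (l 16725264))) (l 14)) (l 14)) (b (b (b (c (b (l 17398376) (l 17218392)) (l 16712512)) (l 16741552)) (a (l 14) (b (l 16732904) (b (b (l 16735392) (l 16737072)) (b (l 16739896) (l 16742728)))))) (b (b (b (l 16746808) (l 16752488)) (b (l 16739984) (l 16746120))) (l 6))))) (a (b (b (b (a (c (c (l 17467112) (l 16881968)) (l 16707304)) (l 16741320)) (a (b (l 16736048) (l 16732376)) (b (l 16712816) (l 16735472)))) (c (l 14) (b (a (b (l 16734240) (l 16736248)) (l 16720680)) (b (a (l 16738288) (l 16741472)) (a (l 16741880) (b (l 16743048) (a (l 16743856) (l 16744912)))))))) (c (l 14) (b (b (b (a (l 16747512) (l 16748256)) (a (l 16753152) (l 6))) (l 6)) (l 6)))) (b (b (b (a (b (l 16712624)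 (l 16714208)) (a (l 16715632) (l 16717104))) (a (b (l 16715848) (l 16738536)) (a (l 16739952) (l 16723104)))) (b (a (c (l 14) (l 16723792)) (b (l 16743592) (l 16735200))) (a (b (l 16744672) (l 6)) (l 6)))) (l 6)))) (b (a (b (a (b (a (b (l 16718576) (l 16720232)) (a (l 16721752) (l 16725960))) (b (a (l 16742912) (l 6)) (a (l 16728976) (l 6)))) (a (a (b (l 16727560) (l 6)) (l 6)) (l 6))) (l 6)) (l 6)) (l 6))), by decide +kernel⟩

theorem s16_pm_012_a : ∃ t, chk3 f_pm_012_a t 63 30 1 = true := ex3_a k13_pm_012_a k14_pm_012_a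

theorem s17_pm_012_a : ∃ t, chk3 f_pm_012_a t 31 30 1 = true := ex3_a k12_pm_012_a s16_pm_012_a

theorem s18_pm_012_a : ∃ t, chk3 f_pm_012_a t 31 15 1 = true := ex3_b s17_pm_012_a k15_pm_012_a

theorem s19_pm_012_a : ∃ t, chk3 f_pm_012_a t 15 15 1 = true := ex3_a k11_pm_012_a s18_pm_012_a

theorem s20_pm_012_a : ∃ t, chk3 f_pm_012_a t 127 29 1 = true := ex3_b k9_pm_012_a k10_pm_012_a

theorem s21_pm_012_a : ∃ t, chk3 f_pm_012_a t 127 14 1 = true := ex3_b k8_pm_012_a s20_pm_012_a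

theorem s22_pm_012_a : ∃ t, chk3 f_pm_012_a t 63 14 1 = true := ex3_a k7_pm_012_a s21_pm_012_a

theorem s23_pm_012_a : ∃ t, chk3 f_pm_012_a t 31 14 1 = true := ex3_a k6_pm_012_a s22_pm_012_a

theorem s24_pm_012_a : ∃ t, chk3 f_pm_012_a t 15 14 1 = true := ex3_a k5_pm_012_a s23_pm_012_a

theorem s25_pm_012_a : ∃ t, chk3 f_pm_012_a t 15 7 1 = true := ex3_b s24_pm_012_a s19_pm_012_a

theorem s26_pm_012_a : ∃ t, chk3 f_pm_012_a t 7 7 1 = true := ex3_a k4_pm_012_a s25_pm_012_a

theorem s27_pm_012_a : ∃ t, chk3 f_pm_012_a t 7 3 1 = true := ex3_b k3_pm_012_a s26_pm_012_a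

theorem s28_pm_012_a : ∃ t, chk3 f_pm_012_a t 3 3 1 = true := ex3_a k2_pm_012_a s27_pm_012_a

theorem s29_pm_012_a : ∃ t, chk3 f_pm_012_a t 3 1 1 = true := ex3_b k1_pm_012_a s28_pm_012_a

theorem s30_pm_012_a : ∃ t, chk3 f_pm_012_a t 1 1 1 = true := ex3_a k0_pm_012_a s29_pm_012_a

theorem c_pm_012_a : CertF 0 536870912 0 536870912 33554432 16777216 false true false .pnp 0 1 2
    ndF0q0 ndF2q2a pcF1 cut_pm_012_a Ext.none :=
  certFK2 (fam := false) (s1 := true) (s2 := false) (a := 0) (b := 1) (c := 2) (cn := .pnp) (n1 := ndF0q0) (n2 := ndF2q2a) (pc := pcF1) (cut := cut_pm_012_a) (xt := Ext.none) (P1 := 0) (W1 := 536870912) (P2 := 0) (W2 := 536870912) (P3 := 33554432) (W3 := 16777216)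
    rfl rfl rfl (fun _ => rfl) s30_pm_012_a

noncomputable def cut_pm_012_b : Cut := Cut.of [[⟨0, 0, 0, 33554432⟩, ⟨1, 1, 0, 33554432⟩, ⟨2, 1, 0, 33554432⟩], [⟨0, 0, 1, 25165824⟩, ⟨1, 1, 2, 25165824⟩, ⟨2, 1, 0, 16777216⟩, ⟨0, 0, 0, 67108864⟩, ⟨0, 1, 0, 1056964608⟩, ⟨1, 0, 0, 1056964608⟩, ⟨1, 1, 0, 67108864⟩]]

noncomputable def f_pm_012_b : ℕ → ℕ → ℕ → ℕ → Bool := onCell 536870912 536870912 1239849684 370763052 33554432 16777216
    (rowFK 2 false true false .pnp 0 1 2 (qsf 0 536870912 1239849684 370763052 1) ndF0q0 ndF2q2b pcF1 cut_pm_012_b Ext.none)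

def k0_pm_012_b : ∃ t, chk3 f_pm_012_b t 1 1 1 = true :=
  ⟨(a (b (a (l 2) (b (l 19341376) (l 18921760))) (l 2)) (b (a (b (l 19613680) (l 19319344)) (a (b (l 19879720) (l 19771224)) (a (b (l 20252480) (l 20063600)) (a (l 20660744) (a (l 20560000) (l 20653208)))))) (a (b (l 19106736) (l 2)) (a (b (l 19542640) (l 19223192)) (a (l 19641224) (a (l 19795328) (a (l 19881432) (l 19968816)))))))), by decide +kernel⟩

theorem c_pm_012_b : CertF 0 536870912 1239849684 370763052 33554432 16777216 false true false .pnp 0 1 2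
    ndF0q0 ndF2q2b pcF1 cut_pm_012_b Ext.none :=
  certFK2 (fam := false) (s1 := true) (s2 := false) (a := 0) (b := 1) (c := 2) (cn := .pnp) (n1 := ndF0q0) (n2 := ndF2q2b) (pc := pcF1) (cut := cut_pm_012_b) (xt := Ext.none) (P1 := 0) (W1 := 536870912) (P2 := 1239849684) (W2 := 370763052) (P3 := 33554432) (W3 := 16777216)
    rfl rfl rfl (fun _ => rfl) k0_pm_012_b

noncomputable def cut_pm_022_a : Cut := Cut.of [[⟨0, 0, 0, 33554432⟩, ⟨1, 1, 0, 33554432⟩, ⟨2, 1, 0, 33554432⟩]]

noncomputable def f_pm_022_a : ℕ → ℕ → ℕ → ℕ → Bool := onCell 1073741824 536870912 0 536870912 33554432 16777216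
    (rowFK 2 false true false .pp 0 2 2 (qsf 0 536870912 0 536870912 2) ndF0q0 ndF2q2a pcF2 cut_pm_022_a Ext.none)

def k0_pm_022_a : ∃ t, chk3 f_pm_022_a t 16 2 1 = true :=
  ⟨(l 20558432), by decide +kernel⟩

def k1_pm_022_a : ∃ t, chk3 f_pm_022_a t 32 6 1 = true :=
  ⟨(b (l 20281920) (b (l 19934976) (l 19534816))), by decide +kernel⟩

def k2_pm_022_a : ∃ t, chk3 f_pm_022_a t 64 14 1 = true :=
  ⟨(b (c (l 19298192) (b (l 18786144) (b (l 18440136) (l 18137248)))) (a (b (c (l 18428896) (b (c (l 18066552) (b (l 17716560) (l 17524368))) (c (b (l 17785680) (l 17490232)) (b (a (c (l 17439072) (l 17075768)) (l 17243656)) (c (a (l 17021952) (l 17197896)) (a (a (b (l 16922576) (a (b (l 16871912) (l 16765272)) (l 16858392))) (l 16855320)) (l 16847912))))))) (b (b (c (l 18114248) (c (a (a (l 17099464) (l 17217928)) (l 17185792)) (a (a (a (a (b (l 16705384) (l 16707312)) (l 16709992)) (l 16713672)) (l 16721064)) (l 16714768)))) (c (c (l 18162912) (l 17432472)) (a (a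 (a (c (c (l 17143024) (b (l 16897440) (b (l 16770456) (l 16712944)))) (a (b (l 16708192) (l 16709208)) (l 16708600))) (l 16709024)) (l 16708648)) (a (l 16723040) (l 4))))) (b (c (c (l 17928560) (a (a (b (l 17418920) (l 17068832)) (l 17132056)) (l 17098872))) (a (a (a (a (a (b (l 16711208) (l 16712432)) (c (l 16711832) (l 16710760))) (c (l 16711096) (l 16710688))) (l 16712120)) (l 16712144)) (a (l 16709912) (l 4)))) (a (a (a (c (c (l 17683440) (c (l 17016424) (a (b (l 16792720) (a (l 16716160) (l 16733976))) (b (l 16875256) (l 16733192))))) (a (a (c (b (l 16712968) (l 16714088)) (b (l 16712456) (l 16713592))) (b (l 16712664) (l 16713792))) (c (l 16714712) (l 16712904)))) (a (a (l 16713952) (l 16714808)) (l 16714128))) (a (a (l 16713232) (l 16722824)) (l 16716256))) (a (a (l 16719664) (l 4)) (l 4)))))) (b (c (l 18519088) (l 523148823463)) (l 4)))), by decide +kernel⟩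

def k3_pm_022_a : ∃ t, chk3 f_pm_022_a t 128 120 1 = true :=
  ⟨(b (a (c (c (c (l 17535760) (b (l 17295768) (a (c (l 17215776) (l 16926152)) (l 17085464)))) (a (a (a (a (b (l 16715880) (l 16717544)) (b (l 16719296) (l 16716848))) (b (l 16718528) (l 16716776))) (l 16717432)) (l 16716296))) (a (a (a (a (c (b (l 16715240) (l 16716432)) (b (l 16714768) (l 16715976))) (b (l 16714960) (l 16716168))) (b (l 16714896) (l 16716104))) (c (l 16715592) (l 16715136))) (c (l 16715312) (l 16714872)))) (a (a (l 16714960) (l 4)) (l 4))) (a (a (a (b (a (a (c (c (c (l 17298048) (b (l 16857688) (l 16744624))) (l 16718840)) (a (a (l 16717544) (l 16717448)) (l 16717432))) (c (l 16719232) (l 16717408))) (c (l 16718528) (l 16717344))) (a (a (c (a (b (l 16719256) (l 16720216)) (l 16720200)) (a (b (l 16718408) (l 16719056)) (l 16718712))) (c (l 16720168) (l 16718680))) (c (l 16720104) (l 16718624)))) (a (c (l 16720048) (l 16717896)) (l 16719872))) (a (c (l 16718520) (l 16717696))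 (l 16719152))) (l 4))), by decide +kernel⟩

def k4_pm_022_a : ∃ t, chk3 f_pm_022_a t 128 121 1 = true :=
  ⟨(a (b (a (a (b (a (a (a (b (c (l 16720848) (l 16719712)) (c (l 16721664) (l 16720384))) (c (l 16721480) (l 16720032))) (c (l 16721456) (l 16720000))) (c (l 16721392) (l 16719944))) (c (a (c (a (b (l 16722016) (l 16722680)) (l 16722312)) (a (b (l 16721632) (l 16722304)) (l 16721928))) (c (l 16722248) (l 16721872))) (a (a (c (c (l 16721680) (l 16721488)) (l 16721288)) (l 16721360)) (l 16721304)))) (c (a (l 16722624) (l 16721232)) (b (l 16719832) (l 16721192)))) (a (c (l 16722416) (l 16720360)) (l 16721640))) (b (b (a (a (a (a (c (c (l 16723688) (l 16722992)) (c (l 16722624) (l 16722256))) (c (l 16723136) (l 16722408))) (c (l 16723080) (l 16722352))) (c (l 16722968) (l 16722248))) (a (l 16723432) (l 4))) (l 6)) (l 6))) (l 4)), by decide +kernel⟩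

def k5_pm_022_a : ∃ t, chk3 f_pm_022_a t 128 61 1 = true :=
  ⟨(l 6), by decide +kernel⟩

def k6_pm_022_a : ∃ t, chk3 f_pm_022_a t 128 31 1 = true :=
  ⟨(l 6), by decide +kernel⟩

def k7_pm_022_a : ∃ t, chk3 f_pm_022_a t 129 15 1 = true :=
  ⟨(l 4), by decide +kernel⟩

def k8_pm_022_a : ∃ t, chk3 f_pm_022_a t 65 7 1 = true :=
  ⟨(l 4), by decide +kernel⟩

def k9_pm_022_a : ∃ t, chk3 f_pm_022_a t 33 3 1 = true :=
  ⟨(b (l 807694373511) (l 4)), by decide +kernel⟩

def k10_pm_022_a : ∃ t, chk3 f_pm_022_a t 17 1 1 = true :=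
  ⟨(b (l 20274696) (l 4)), by decide +kernel⟩

def k11_pm_022_a : ∃ t, chk3 f_pm_022_a t 9 1 1 = true :=
  ⟨(l 4), by decide +kernel⟩

def k12_pm_022_a : ∃ t, chk3 f_pm_022_a t 5 1 1 = true :=
  ⟨(l 4), by decide +kernel⟩

def k13_pm_022_a : ∃ t, chk3 f_pm_022_a t 3 1 1 = true :=
  ⟨(l 1), by decide +kernel⟩

theorem s14_pm_022_a : ∃ t, chk3 f_pm_022_a t 128 60 1 = true := ex3_b k3_pm_022_a k4_pm_022_a

theorem s15_pm_022_a : ∃ t, chk3 f_pm_022_a t 128 30 1 = true := ex3_b s14_pm_022_a k5_pm_022_a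

theorem s16_pm_022_a : ∃ t, chk3 f_pm_022_a t 128 15 1 = true := ex3_b s15_pm_022_a k6_pm_022_a

theorem s17_pm_022_a : ∃ t, chk3 f_pm_022_a t 64 15 1 = true := ex3_a s16_pm_022_a k7_pm_022_a

theorem s18_pm_022_a : ∃ t, chk3 f_pm_022_a t 64 7 1 = true := ex3_b k2_pm_022_a s17_pm_022_a

theorem s19_pm_022_a : ∃ t, chk3 f_pm_022_a t 32 7 1 = true := ex3_a s18_pm_022_a k8_pm_022_a

theorem s20_pm_022_a : ∃ t, chk3 f_pm_022_a t 32 3 1 = true := ex3_b k1_pm_022_a s19_pm_022_a

theorem s21_pm_022_a : ∃ t, chk3 f_pm_022_a t 16 3 1 = true := ex3_a s20_pm_022_a k9_pm_022_a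

theorem s22_pm_022_a : ∃ t, chk3 f_pm_022_a t 16 1 1 = true := ex3_b k0_pm_022_a s21_pm_022_a

theorem s23_pm_022_a : ∃ t, chk3 f_pm_022_a t 8 1 1 = true := ex3_a s22_pm_022_a k10_pm_022_a

theorem s24_pm_022_a : ∃ t, chk3 f_pm_022_a t 4 1 1 = true := ex3_a s23_pm_022_a k11_pm_022_a

theorem s25_pm_022_a : ∃ t, chk3 f_pm_022_a t 2 1 1 = true := ex3_a s24_pm_022_a k12_pm_022_a

theorem s26_pm_022_a : ∃ t, chk3 f_pm_022_a t 1 1 1 = true := ex3_a s25_pm_022_a k13_pm_022_a

theorem c_pm_022_a : CertF 0 536870912 0 536870912 33554432 16777216 false true false .pp 0 2 2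
    ndF0q0 ndF2q2a pcF2 cut_pm_022_a Ext.none :=
  certFK2 (fam := false) (s1 := true) (s2 := false) (a := 0) (b := 2) (c := 2) (cn := .pp) (n1 := ndF0q0) (n2 := ndF2q2a) (pc := pcF2) (cut := cut_pm_022_a) (xt := Ext.none) (P1 := 0) (W1 := 536870912) (P2 := 0) (W2 := 536870912) (P3 := 33554432) (W3 := 16777216)
    rfl rfl rfl (fun _ => rfl) s26_pm_022_a

noncomputable def cut_pm_022_b : Cut := Cut.of [[⟨0, 0, 0, 33554432⟩, ⟨1, 1, 0, 33554432⟩, ⟨2, 1, 0, 33554432⟩]]

noncomputable def f_pm_022_b : ℕ → ℕ → ℕ → ℕ → Bool := onCell 1073741824 536870912 1239849684 370763052 33554432 16777216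
    (rowFK 2 false true false .pp 0 2 2 (qsf 0 536870912 1239849684 370763052 2) ndF0q0 ndF2q2b pcF2 cut_pm_022_b Ext.none)

def k0_pm_022_b : ∃ t, chk3 f_pm_022_b t 1 1 1 = true :=
  ⟨(a (b (a (b (a (l 20642128) (l 20245856)) (l 12053760903)) (l 4)) (a (b (l 20098064) (l 19790888)) (b (l 19795112) (l 19528776)))) (l 4)), by decide +kernel⟩

theorem c_pm_022_b : CertF 0 536870912 1239849684 370763052 33554432 16777216 false true false .pp 0 2 2
    ndF0q0 ndF2q2b pcF2 cut_pm_022_b Ext.none :=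
  certFK2 (fam := false) (s1 := true) (s2 := false) (a := 0) (b := 2) (c := 2) (cn := .pp) (n1 := ndF0q0) (n2 := ndF2q2b) (pc := pcF2) (cut := cut_pm_022_b) (xt := Ext.none) (P1 := 0) (W1 := 536870912) (P2 := 1239849684) (W2 := 370763052) (P3 := 33554432) (W3 := 16777216)
    rfl rfl rfl (fun _ => rfl) k0_pm_022_b

noncomputable def f_pm_023 : ℕ → ℕ → ℕ → ℕ → Bool := onCell 0 536870912 1073741824 536870912 33554432 16777216
    (rowFK 1 false true false .up 0 2 3 (qsf 0 536870912 1610612736 536870912 2) ndF0q0 ndF2q3 pcF2 Cut.none Ext.none)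

def k0_pm_023 : ∃ t, chk3 f_pm_023 t 1 1 1 = true :=
  ⟨(b (a (b (l 1) (a (l 1) (l 19812672))) (b (a (l 20050040) (l 19834464)) (a (l 19384320) (l 19152776)))) (a (b (l 4) (l 4)) (b (a (l 18579376) (l 18403952)) (a (l 17857608) (l 17777448))))), by decide +kernel⟩

theorem c_pm_023 : CertF 0 536870912 1610612736 536870912 33554432 16777216 false true false .up 0 2 3
    ndF0q0 ndF2q3 pcF2 Cut.none Ext.none :=
  certFK1 (fam := false) (s1 := true) (s2 := false) (a := 0) (b := 2) (c := 3) (cn := .up) (n1 := ndF0q0) (n2 := ndF2q3) (pc := pcF2) (cut := Cut.none) (xt := Ext.none) (P1 := 0) (W1 := 536870912) (P2 := 1610612736) (W2 := 536870912) (P3 := 33554432) (W3 := 16777216)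
    rfl rfl rfl (fun _ => rfl) k0_pm_023

noncomputable def f_pm_033 : ℕ → ℕ → ℕ → ℕ → Bool := onCell 1610612736 536870912 1610612736 536870912 33554432 16777216
    (rowFK 2 false true false .pnn 0 3 3 (qsf 0 536870912 1610612736 536870912 3) ndF0q0 ndF2q3 pcF3 Cut.none Ext.none)

def k0_pm_033 : ∃ t, chk3 f_pm_033 t 1 1 1 = true :=
  ⟨(a (b (l 4) (a (b (a (l 17714920) (l 4)) (a (l 17267744) (l 17445528))) (b (l 4) (a (l 17595904) (l 4))))) (l 4)), by decide +kernel⟩

theorem c_pm_033 : CertF 0 536870912 1610612736 536870912 33554432 16777216 false true false .pnn 0 3 3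
    ndF0q0 ndF2q3 pcF3 Cut.none Ext.none :=
  certFK2 (fam := false) (s1 := true) (s2 := false) (a := 0) (b := 3) (c := 3) (cn := .pnn) (n1 := ndF0q0) (n2 := ndF2q3) (pc := pcF3) (cut := Cut.none) (xt := Ext.none) (P1 := 0) (W1 := 536870912) (P2 := 1610612736) (W2 := 536870912) (P3 := 33554432) (W3 := 16777216)
    rfl rfl rfl (fun _ => rfl) k0_pm_033

noncomputable def f_pm_101 : ℕ → ℕ → ℕ → ℕ → Bool := onCell 536870912 536870912 536870912 536870912 33554432 16777216
    (rowFK 0 false true false .npn 1 0 1 (qsf 536870912 536870912 536870912 536870912 0) ndF0q1 ndF2q1 pcF0 Cut.none Ext.none)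

def k0_pm_101 : ∃ t, chk3 f_pm_101 t 1 1 1 = true :=
  ⟨(l 4), by decide +kernel⟩

theorem c_pm_101 : CertF 536870912 536870912 536870912 536870912 33554432 16777216 false true false .npn 1 0 1
    ndF0q1 ndF2q1 pcF0 Cut.none Ext.none :=
  certFK0 (fam := false) (s1 := true) (s2 := false) (a := 1) (b := 0) (c := 1) (cn := .npn) (n1 := ndF0q1) (n2 := ndF2q1) (pc := pcF0) (cut := Cut.none) (xt := Ext.none) (P1 := 536870912) (W1 := 536870912) (P2 := 536870912) (W2 := 536870912) (P3 := 33554432) (W3 := 16777216)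
    rfl rfl rfl k0_pm_101

noncomputable def cut_pm_102_a : Cut := Cut.of [[⟨0, 1, 0, 33554432⟩, ⟨1, 0, 0, 33554432⟩, ⟨2, 1, 0, 33554432⟩], [⟨0, 1, 0, 6291456⟩, ⟨1, 0, 1, 16777216⟩, ⟨2, 1, 1, 16777216⟩, ⟨1, 0, 0, 67108864⟩, ⟨1, 1, 0, 1056964608⟩, ⟨2, 1, 0, 67108864⟩, ⟨2, 2, 0, 1056964608⟩]]

noncomputable def f_pm_102_a : ℕ → ℕ → ℕ → ℕ → Bool := onCell 536870912 536870912 0 536870912 33554432 16777216
    (rowFK 0 false true false .npp 1 0 2 (qsf 536870912 536870912 0 536870912 0) ndF0q1 ndF2q2a pcF0 cut_pm_102_a Ext.none)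

def k0_pm_102_a : ∃ t, chk3 f_pm_102_a t 1 1 1 = true :=
  ⟨(a (b (a (l 17969520) (l 17700584)) (b (a (l 18053272) (l 17777504)) (b (a (l 18127064) (l 17843984)) (b (a (l 18171552) (l 17881296)) (b (a (l 18195936) (l 17902512)) (a (l 18369368) (a (l 17929120) (l 17851680)))))))) (b (a (a (l 17573248) (l 17318432)) (a (a (l 17087864) (l 17228944)) (a (l 17689744) (a (l 17773272) (b (l 17970552) (l 17939904)))))) (a (b (a (l 17643480) (l 17382944)) (b (a (l 17703072) (l 17437248)) (b (a (l 17734072) (l 17463728)) (b (a (l 17752392) (l 17479968)) (a (l 17761080) (l 17570552)))))) (b (a (a (l 17134304) (b (l 17050104) (l 16994432))) (a (b (l 17358248) (l 17188808)) (a (l 17778104) (a (l 17729840) (b (l 17908928) (a (l 17725320) (l 17735752))))))) (b (a (l 17108472) (a (l 17153064) (a (b (l 17276408) (l 17071792)) (a (b (l 17417472) (l 17162608)) (a (b (l 17476448) (l 17164032)) (b (a (l 17499968) (b (l 17578328) (b (l 17477648) (l 17270600)))) (a (l 16933200)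 (b (a (l 17248920) (c (l 17328864) (a (l 17074096) (b (l 17024640) (l 14))))) (b (b (c (l 17184456) (l 14)) (l 14)) (l 14)))))))))) (b (a (l 17129928) (a (a (l 16951888) (l 16890736)) (a (l 16926944) (a (l 16835616) (a (b (l 16776352) (l 16779440)) (a (b (l 16760840) (l 16763384)) (b (a (l 16764400) (a (l 16766128) (b (l 14) (c (l 14) (a (l 16767336) (b (l 14) (c (l 14) (a (l 16767928) (a (l 16768136) (b (b (b (l 14) (l 16768096)) (l 6)) (l 6))))))))))) (a (l 16766784) (l 6))))))))) (b (a (l 17143832) (a (l 16933832) (a (l 16851384) (a (l 16843296) (l 6))))) (a (a (l 17230128) (l 17092416)) (a (a (l 16972880) (l 16891080)) (a (l 16958616) (l 6))))))))))), by decide +kernel⟩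

theorem c_pm_102_a : CertF 536870912 536870912 0 536870912 33554432 16777216 false true false .npp 1 0 2
    ndF0q1 ndF2q2a pcF0 cut_pm_102_a Ext.none :=
  certFK0 (fam := false) (s1 := true) (s2 := false) (a := 1) (b := 0) (c := 2) (cn := .npp) (n1 := ndF0q1) (n2 := ndF2q2a) (pc := pcF0) (cut := cut_pm_102_a) (xt := Ext.none) (P1 := 536870912) (W1 := 536870912) (P2 := 0) (W2 := 536870912) (P3 := 33554432) (W3 := 16777216)
    rfl rfl rfl k0_pm_102_a

noncomputable def cut_pm_102_b : Cut := Cut.of [[⟨0, 1, 0, 33554432⟩, ⟨1, 0, 0, 33554432⟩, ⟨2, 1, 0, 33554432⟩], [⟨0, 1, 0, 6291456⟩, ⟨1, 0, 1, 16777216⟩, ⟨2, 1, 1, 16777216⟩, ⟨1, 0, 0, 67108864⟩, ⟨1, 1, 0, 1056964608⟩, ⟨2, 1, 0, 67108864⟩, ⟨2, 2, 0, 1056964608⟩]]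

noncomputable def f_pm_102_b : ℕ → ℕ → ℕ → ℕ → Bool := onCell 536870912 536870912 1239849684 370763052 33554432 16777216
    (rowFK 0 false true false .npp 1 0 2 (qsf 536870912 536870912 1239849684 370763052 0) ndF0q1 ndF2q2b pcF0 cut_pm_102_b Ext.none)

def k0_pm_102_b : ∃ t, chk3 f_pm_102_b t 1 1 1 = true :=
  ⟨(a (a (l 2) (a (l 17370832) (l 17329640))) (b (a (a (l 17417120) (b (a (l 17319744) (l 17191896)) (a (l 17190256) (l 17172488)))) (a (b (a (l 17185536) (l 17423784)) (l 17527968)) (b (a (l 17782968) (b (l 18066280) (l 17870864))) (a (l 17680584) (l 18014304))))) (a (a (l 2) (b (l 17195224) (l 2))) (a (b (l 17534328) (l 17550688)) (b (a (l 17690200) (l 17685640)) (a (l 17680936) (l 17646304))))))), by decide +kernel⟩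

theorem c_pm_102_b : CertF 536870912 536870912 1239849684 370763052 33554432 16777216 false true false .npp 1 0 2
    ndF0q1 ndF2q2b pcF0 cut_pm_102_b Ext.none :=
  certFK0 (fam := false) (s1 := true) (s2 := false) (a := 1) (b := 0) (c := 2) (cn := .npp) (n1 := ndF0q1) (n2 := ndF2q2b) (pc := pcF0) (cut := cut_pm_102_b) (xt := Ext.none) (P1 := 536870912) (W1 := 536870912) (P2 := 1239849684) (W2 := 370763052) (P3 := 33554432) (W3 := 16777216)
    rfl rfl rfl k0_pm_102_b

noncomputable def f_pm_112_a : ℕ → ℕ → ℕ → ℕ → Bool := onCell 536870912 536870912 0 536870912 33554432 16777216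
    (rowFK 0 false true false .dn 1 1 2 (qsf 536870912 536870912 0 536870912 1) ndF0q1 ndF2q2a pcF1 Cut.none Ext.none)

def k0_pm_112_a : ∃ t, chk3 f_pm_112_a t 1 1 1 = true :=
  ⟨(a (a (b (l 18886584) (b (l 18830440) (b (l 18781448) (b (l 18759480) (b (l 18743808) (l 18730728)))))) (b (l 18689512) (b (l 1) (l 1)))) (l 1)), by decide +kernel⟩

theorem c_pm_112_a : CertF 536870912 536870912 0 536870912 33554432 16777216 false true false .dn 1 1 2
    ndF0q1 ndF2q2a pcF1 Cut.none Ext.none :=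
  certFK0 (fam := false) (s1 := true) (s2 := false) (a := 1) (b := 1) (c := 2) (cn := .dn) (n1 := ndF0q1) (n2 := ndF2q2a) (pc := pcF1) (cut := Cut.none) (xt := Ext.none) (P1 := 536870912) (W1 := 536870912) (P2 := 0) (W2 := 536870912) (P3 := 33554432) (W3 := 16777216)
    rfl rfl rfl k0_pm_112_a

noncomputable def f_pm_112_b : ℕ → ℕ → ℕ → ℕ → Bool := onCell 536870912 536870912 1239849684 370763052 33554432 16777216
    (rowFK 2 false true false .dn 1 1 2 (qsf 536870912 536870912 1239849684 370763052 1) ndF0q1 ndF2q2b pcF1 Cut.none Ext.none)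

def k0_pm_112_b : ∃ t, chk3 f_pm_112_b t 1 1 1 = true :=
  ⟨(a (b (a (b (l 18840000) (l 18568456)) (b (l 19089264) (l 18921696))) (a (b (a (l 18155232) (l 18355032)) (a (b (l 17742232) (l 17615336)) (l 17946200))) (b (l 18660616) (a (l 18198464) (l 18416176))))) (b (a (b (l 1) (l 19341296)) (l 1)) (a (b (l 19106696) (l 18783392)) (a (l 242167998359) (a (l 19646504) (a (l 19802968) (a (l 19890344) (l 19979592)))))))), by decide +kernel⟩

theorem c_pm_112_b : CertF 536870912 536870912 1239849684 370763052 33554432 16777216 false true false .dn 1 1 2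
    ndF0q1 ndF2q2b pcF1 Cut.none Ext.none :=
  certFK2 (fam := false) (s1 := true) (s2 := false) (a := 1) (b := 1) (c := 2) (cn := .dn) (n1 := ndF0q1) (n2 := ndF2q2b) (pc := pcF1) (cut := Cut.none) (xt := Ext.none) (P1 := 536870912) (W1 := 536870912) (P2 := 1239849684) (W2 := 370763052) (P3 := 33554432) (W3 := 16777216)
    rfl rfl rfl (fun _ => rfl) k0_pm_112_b

noncomputable def cut_pm_113 : Cut := Cut.of [[⟨0, 1, 0, 7061502⟩, ⟨1, 1, 0, 7061502⟩, ⟨2, 2, 0, 184626⟩]]

noncomputable def f_pm_113 : ℕ → ℕ → ℕ → ℕ → Bool := onCell 536870912 536870912 536870912 536870912 33554432 16777216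
    (rowFK 1 false true false .nn 1 1 3 (qsf 536870912 536870912 1610612736 536870912 1) ndF0q1 ndF2q3 pcF1 cut_pm_113 Ext.none)

def k0_pm_113 : ∃ t, chk3 f_pm_113 t 1 1 1 = true :=
  ⟨(a (b (a (l 1) (l 173446889943)) (b (a (l 19132120) (l 18857232)) (b (a (l 19386504) (l 18935728)) (b (a (l 19512424) (l 18956416)) (b (a (l 19578432) (l 18963056)) (b (a (l 19611680) (l 18965152)) (a (l 19631960) (l 18964776)))))))) (b (b (a (a (l 1) (l 18234352)) (a (l 18084024) (b (l 17682888) (l 17584648)))) (a (a (l 18498088) (l 18269888)) (a (l 18107736) (b (l 17702824) (a (l 17644560) (l 17439736)))))) (a (b (a (l 18577520) (l 18256528)) (b (l 18480848) (b (l 18407224) (b (l 18323392) (b (l 18320912) (l 18256856)))))) (b (a (l 18100600) (b (a (l 17537816) (l 17314704)) (a (l 17513760) (a (l 17353400) (l 17347392))))) (a (b (l 17790952) (l 17645032)) (b (a (l 17472328) (a (l 17316088) (l 17334312))) (a (l 17338520) (b (a (l 17195000) (l 17186712)) (a (l 17054632) (a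 (l 16943056) (b (l 16987984) (a (l 16853248) (b (l 16887592) (b (l 16873104) (a (l 16814176) (a (l 16823184) (a (l 16817208) (b (l 16819648) (a (l 16807752) (b (l 16809008) (a (l 16792496) (b (l 16793136) (a (l 16784864) (b (l 16785184) (a (l 16781040) (b (l 16781200) (l 6))))))))))))))))))))))))))), by decide +kernel⟩

theorem c_pm_113 : CertF 536870912 536870912 1610612736 536870912 33554432 16777216 false true false .nn 1 1 3
    ndF0q1 ndF2q3 pcF1 cut_pm_113 Ext.none :=
  certFK1 (fam := false) (s1 := true) (s2 := false) (a := 1) (b := 1) (c := 3) (cn := .nn) (n1 := ndF0q1) (n2 := ndF2q3) (pc := pcF1) (cut := cut_pm_113) (xt := Ext.none) (P1 := 536870912) (W1 := 536870912) (P2 := 1610612736) (W2 := 536870912) (P3 := 33554432) (W3 := 16777216)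
    rfl rfl rfl (fun _ => rfl) k0_pm_113

noncomputable def cut_pm_123 : Cut := Cut.of [[⟨0, 1, 0, 7061502⟩, ⟨1, 1, 0, 7061502⟩, ⟨2, 2, 0, 184626⟩]]

noncomputable def f_pm_123 : ℕ → ℕ → ℕ → ℕ → Bool := onCell 1073741824 536870912 1610612736 536870912 33554432 16777216
    (rowFK 2 false true false .npn 1 2 3 (qsf 536870912 536870912 1610612736 536870912 2) ndF0q1 ndF2q3 pcF2 cut_pm_123 Ext.none)

def k0_pm_123 : ∃ t, chk3 f_pm_123 t 1 1 1 = true :=
  ⟨(a (b (a (b (a (l 19748944) (l 19557272)) (a (l 19183408) (l 19092184))) (b (a (l 19396048) (l 1)) (a (l 19067960) (l 18860848)))) (a (b (a (a (a (a (l 18472576) (l 18512464)) (l 18483176)) (l 18483640)) (b (l 18630280) (l 18325592))) (a (a (a (a (b (l 17666096) (b (l 17229488) (b (l 17009984) (b (l 16897368) (b (l 16840080) (a (b (l 16808624) (b (l 16794248) (b (l 16787064) (b (l 16783464) (b (l 16786912) (l 6)))))) (l 16804424))))))) (b (l 17685832) (b (l 17242256) (l 16945832)))) (b (l 17718976) (b (l 17265632)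 (l 16965792)))) (b (l 17789296) (b (l 17328632) (l 17012424)))) (b (l 17900208) (b (l 17485720) (l 17154352))))) (b (b (l 18580592) (l 18300056)) (b (a (l 17974208) (l 17956960)) (a (l 17519160) (l 17621120)))))) (b (a (b (l 1) (a (l 18649528) (l 1))) (l 1)) (a (b (a (l 18370104) (l 18127480)) (a (l 17954888) (l 17775328))) (b (a (l 17916656) (l 1)) (a (l 17776400) (l 17611360)))))), by decide +kernel⟩

theorem c_pm_123 : CertF 536870912 536870912 1610612736 536870912 33554432 16777216 false true false .npn 1 2 3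
    ndF0q1 ndF2q3 pcF2 cut_pm_123 Ext.none :=
  certFK2 (fam := false) (s1 := true) (s2 := false) (a := 1) (b := 2) (c := 3) (cn := .npn) (n1 := ndF0q1) (n2 := ndF2q3) (pc := pcF2) (cut := cut_pm_123) (xt := Ext.none) (P1 := 536870912) (W1 := 536870912) (P2 := 1610612736) (W2 := 536870912) (P3 := 33554432) (W3 := 16777216)
    rfl rfl rfl (fun _ => rfl) k0_pm_123

noncomputable def f_pm_133 : ℕ → ℕ → ℕ → ℕ → Bool := onCell 536870912 536870912 1610612736 536870912 33554432 16777216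
    (rowFK 0 false true false .dn 1 3 3 (qsf 536870912 536870912 1610612736 536870912 3) ndF0q1 ndF2q3 pcF3 Cut.none Ext.none)

def k0_pm_133 : ∃ t, chk3 f_pm_133 t 1 1 1 = true :=
  ⟨(a (b (l 1) (a (b (l 1) (a (l 17267664) (l 1))) (l 1))) (l 1)), by decide +kernel⟩

theorem c_pm_133 : CertF 536870912 536870912 1610612736 536870912 33554432 16777216 false true false .dn 1 3 3
    ndF0q1 ndF2q3 pcF3 Cut.none Ext.none :=
  certFK0 (fam := false) (s1 := true) (s2 := false) (a := 1) (b := 3) (c := 3) (cn := .dn) (n1 := ndF0q1) (n2 := ndF2q3) (pc := pcF3) (cut := Cut.none) (xt := Ext.none) (P1 := 536870912) (W1 := 536870912) (P2 := 1610612736) (W2 := 536870912) (P3 := 33554432) (W3 := 16777216)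
    rfl rfl rfl k0_pm_133

noncomputable def cut_pm_202_a : Cut := Cut.of [[⟨0, 1, 0, 33554432⟩, ⟨1, 0, 0, 33554432⟩, ⟨2, 1, 0, 33554432⟩], [⟨0, 1, 0, 6291456⟩, ⟨1, 0, 1, 16777216⟩, ⟨2, 1, 1, 16777216⟩, ⟨1, 0, 0, 67108864⟩, ⟨1, 1, 0, 1056964608⟩, ⟨2, 1, 0, 67108864⟩, ⟨2, 2, 0, 1056964608⟩]]

noncomputable def f_pm_202_a : ℕ → ℕ → ℕ → ℕ → Bool := onCell 0 536870912 0 536870912 33554432 16777216
    (rowFK 0 false true false .pp 2 0 2 (qsf 0 536870912 0 536870912 0) ndF0q2 ndF2q2a pcF0 cut_pm_202_a Ext.none)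

def k0_pm_202_a : ∃ t, chk3 f_pm_202_a t 1 1 1 = true :=
  ⟨(a (l 3) (a (l 3) (a (l 3) (a (l 3) (a (l 3) (b (l 107008208247) (a (l 3) (a (l 3) (b (b (l 17976088) (l 114523355639)) (a (l 3) (a (l 3) (b (b (c (l 17645072) (b (l 17471912) (l 131165318231))) (b (c (l 130091745863) (b (c (l 132775778839) (l 14)) (l 14))) (c (b (c (l 132239047111) (l 14)) (l 14)) (l 14)))) (b (b (a (l 3) (b (l 14) (c (l 14) (a (l 3) (b (l 14) (c (l 14) (a (l 3) (b (c (l 14) (a (l 3) (b (l 135459223575) (l 6)))) (l 6))))))))) (l 6)) (l 6)))))))))))))), by decide +kernel⟩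

theorem c_pm_202_a : CertF 0 536870912 0 536870912 33554432 16777216 false true false .pp 2 0 2
    ndF0q2 ndF2q2a pcF0 cut_pm_202_a Ext.none :=
  certFK0 (fam := false) (s1 := true) (s2 := false) (a := 2) (b := 0) (c := 2) (cn := .pp) (n1 := ndF0q2) (n2 := ndF2q2a) (pc := pcF0) (cut := cut_pm_202_a) (xt := Ext.none) (P1 := 0) (W1 := 536870912) (P2 := 0) (W2 := 536870912) (P3 := 33554432) (W3 := 16777216)
    rfl rfl rfl k0_pm_202_a

noncomputable def cut_pm_202_b : Cut := Cut.of [[⟨0, 1, 0, 33554432⟩, ⟨1, 0, 0, 33554432⟩, ⟨2, 1, 0, 33554432⟩], [⟨0, 1, 0, 6291456⟩, ⟨1, 0, 1, 16777216⟩, ⟨2, 1, 1, 16777216⟩, ⟨1, 0, 0, 67108864⟩, ⟨1, 1, 0, 1056964608⟩, ⟨2, 1, 0, 67108864⟩, ⟨2, 2, 0, 1056964608⟩]]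

noncomputable def f_pm_202_b : ℕ → ℕ → ℕ → ℕ → Bool := onCell 0 536870912 1239849684 370763052 33554432 16777216
    (rowFK 0 false true false .pp 2 0 2 (qsf 0 536870912 1239849684 370763052 0) ndF0q2 ndF2q2b pcF0 cut_pm_202_b Ext.none)

def k0_pm_202_b : ∃ t, chk3 f_pm_202_b t 1 1 1 = true :=
  ⟨(a (l 3) (a (l 3) (a (l 3) (a (l 3) (b (b (a (l 3) (l 18234808)) (l 133850830119)) (b (l 17619392) (l 17612344))))))), by decide +kernel⟩

theorem c_pm_202_b : CertF 0 536870912 1239849684 370763052 33554432 16777216 false true false .pp 2 0 2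
    ndF0q2 ndF2q2b pcF0 cut_pm_202_b Ext.none :=
  certFK0 (fam := false) (s1 := true) (s2 := false) (a := 2) (b := 0) (c := 2) (cn := .pp) (n1 := ndF0q2) (n2 := ndF2q2b) (pc := pcF0) (cut := cut_pm_202_b) (xt := Ext.none) (P1 := 0) (W1 := 536870912) (P2 := 1239849684) (W2 := 370763052) (P3 := 33554432) (W3 := 16777216)
    rfl rfl rfl k0_pm_202_b

noncomputable def f_pm_203 : ℕ → ℕ → ℕ → ℕ → Bool := onCell 0 536870912 0 536870912 33554432 16777216
    (rowFK 1 false true false .up 2 0 3 (qsf 0 536870912 1610612736 536870912 0) ndF0q2 ndF2q3 pcF0 Cut.none Ext.none)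

def k0_pm_203 : ∃ t, chk3 f_pm_203 t 1 1 1 = true :=
  ⟨(b (l 1) (a (l 3) (a (l 3) (a (l 3) (a (l 3) (b (l 1) (l 126334297687))))))), by decide +kernel⟩

theorem c_pm_203 : CertF 0 536870912 1610612736 536870912 33554432 16777216 false true false .up 2 0 3
    ndF0q2 ndF2q3 pcF0 Cut.none Ext.none :=
  certFK1 (fam := false) (s1 := true) (s2 := false) (a := 2) (b := 0) (c := 3) (cn := .up) (n1 := ndF0q2) (n2 := ndF2q3) (pc := pcF0) (cut := Cut.none) (xt := Ext.none) (P1 := 0) (W1 := 536870912) (P2 := 1610612736) (W2 := 536870912) (P3 := 33554432) (W3 := 16777216)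
    rfl rfl rfl (fun _ => rfl) k0_pm_203

noncomputable def cut_pm_213 : Cut := Cut.of [[⟨0, 1, 0, 7061502⟩, ⟨1, 1, 0, 7061502⟩, ⟨2, 2, 0, 184626⟩]]

noncomputable def f_pm_213 : ℕ → ℕ → ℕ → ℕ → Bool := onCell 0 536870912 1610612736 536870912 33554432 16777216
    (rowFK 0 false true false .pnn 2 1 3 (qsf 0 536870912 1610612736 536870912 1) ndF0q2 ndF2q3 pcF1 cut_pm_213 Ext.none)

def k0_pm_213 : ∃ t, chk3 f_pm_213 t 1 1 1 = true :=
  ⟨(a (l 3) (a (l 3) (a (b (l 3) (l 3)) (a (b (l 3) (l 3)) (b (b (b (l 17503456) (l 17374232)) (b (l 17553096) (l 190758296967))) (b (b (l 17434592) (l 226728546711)) (b (b (l 236928570743) (l 251424006551)) (a (l 3) (b (l 260550743239) (a (l 3) (b (l 262161067415) (a (l 3) (b (l 266455888135) (b (l 269140192487) (b (l 271287638759) (a (l 3) (b (l 271824492375) (a (l 3) (b (l 271824483559) (a (l 3) (b (l 272361339511) (b (c (l 271824460759) (l 272361331959)) (l 6))))))))))))))))))))))), by decide +kernel⟩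

theorem c_pm_213 : CertF 0 536870912 1610612736 536870912 33554432 16777216 false true false .pnn 2 1 3
    ndF0q2 ndF2q3 pcF1 cut_pm_213 Ext.none :=
  certFK0 (fam := false) (s1 := true) (s2 := false) (a := 2) (b := 1) (c := 3) (cn := .pnn) (n1 := ndF0q2) (n2 := ndF2q3) (pc := pcF1) (cut := cut_pm_213) (xt := Ext.none) (P1 := 0) (W1 := 536870912) (P2 := 1610612736) (W2 := 536870912) (P3 := 33554432) (W3 := 16777216)
    rfl rfl rfl k0_pm_213

noncomputable def f_mm_001 : ℕ → ℕ → ℕ → ℕ → Bool := onCell 0 536870912 0 536870912 33554432 16777216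
    (rowFK 1 false false false .up 0 0 1 (qsf 0 536870912 536870912 536870912 0) ndF0q0 ndF2q1 pcF0 Cut.none Ext.none)

def k0_mm_001 : ∃ t, chk3 f_mm_001 t 1 1 1 = true :=
  ⟨(l 3), by decide +kernel⟩

theorem c_mm_001 : CertF 0 536870912 536870912 536870912 33554432 16777216 false false false .up 0 0 1
    ndF0q0 ndF2q1 pcF0 Cut.none Ext.none :=
  certFK1 (fam := false) (s1 := false) (s2 := false) (a := 0) (b := 0) (c := 1) (cn := .up) (n1 := ndF0q0) (n2 := ndF2q1) (pc := pcF0) (cut := Cut.none) (xt := Ext.none) (P1 := 0) (W1 := 536870912) (P2 := 536870912) (W2 := 536870912) (P3 := 33554432) (W3 := 16777216)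
    rfl rfl rfl (fun _ => rfl) k0_mm_001

noncomputable def f_mm_011 : ℕ → ℕ → ℕ → ℕ → Bool := onCell 0 536870912 536870912 536870912 33554432 16777216
    (rowFK 1 false false false .pnn 0 1 1 (qsf 0 536870912 536870912 536870912 1) ndF0q0 ndF2q1 pcF1 Cut.none Ext.none)

def k0_mm_011 : ∃ t, chk3 f_mm_011 t 1 1 1 = true :=
  ⟨(l 5), by decide +kernel⟩

theorem c_mm_011 : CertF 0 536870912 536870912 536870912 33554432 16777216 false false false .pnn 0 1 1
    ndF0q0 ndF2q1 pcF1 Cut.none Ext.none :=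
  certFK1 (fam := false) (s1 := false) (s2 := false) (a := 0) (b := 1) (c := 1) (cn := .pnn) (n1 := ndF0q0) (n2 := ndF2q1) (pc := pcF1) (cut := Cut.none) (xt := Ext.none) (P1 := 0) (W1 := 536870912) (P2 := 536870912) (W2 := 536870912) (P3 := 33554432) (W3 := 16777216)
    rfl rfl rfl (fun _ => rfl) k0_mm_011

noncomputable def f_mm_012_a : ℕ → ℕ → ℕ → ℕ → Bool := onCell 0 536870912 0 536870912 33554432 16777216
    (rowFK 0 false false false .pnp 0 1 2 (qsf 0 536870912 0 536870912 1) ndF0q0 ndF2q2a pcF1 Cut.none Ext.none)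

def k0_mm_012_a : ∃ t, chk3 f_mm_012_a t 1 1 1 = true :=
  ⟨(l 5), by decide +kernel⟩

theorem c_mm_012_a : CertF 0 536870912 0 536870912 33554432 16777216 false false false .pnp 0 1 2
    ndF0q0 ndF2q2a pcF1 Cut.none Ext.none :=
  certFK0 (fam := false) (s1 := false) (s2 := false) (a := 0) (b := 1) (c := 2) (cn := .pnp) (n1 := ndF0q0) (n2 := ndF2q2a) (pc := pcF1) (cut := Cut.none) (xt := Ext.none) (P1 := 0) (W1 := 536870912) (P2 := 0) (W2 := 536870912) (P3 := 33554432) (W3 := 16777216)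
    rfl rfl rfl k0_mm_012_a

noncomputable def f_mm_012_b : ℕ → ℕ → ℕ → ℕ → Bool := onCell 0 536870912 1239849684 370763052 33554432 16777216
    (rowFK 0 false false false .pnp 0 1 2 (qsf 0 536870912 1239849684 370763052 1) ndF0q0 ndF2q2b pcF1 Cut.none Ext.none)

def k0_mm_012_b : ∃ t, chk3 f_mm_012_b t 1 1 1 = true :=
  ⟨(l 5), by decide +kernel⟩

theorem c_mm_012_b : CertF 0 536870912 1239849684 370763052 33554432 16777216 false false false .pnp 0 1 2
    ndF0q0 ndF2q2b pcF1 Cut.none Ext.none :=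
  certFK0 (fam := false) (s1 := false) (s2 := false) (a := 0) (b := 1) (c := 2) (cn := .pnp) (n1 := ndF0q0) (n2 := ndF2q2b) (pc := pcF1) (cut := Cut.none) (xt := Ext.none) (P1 := 0) (W1 := 536870912) (P2 := 1239849684) (W2 := 370763052) (P3 := 33554432) (W3 := 16777216)
    rfl rfl rfl k0_mm_012_b

noncomputable def f_mm_022_a : ℕ → ℕ → ℕ → ℕ → Bool := onCell 0 536870912 0 536870912 33554432 16777216
    (rowFK 0 false false false .pp 0 2 2 (qsf 0 536870912 0 536870912 2) ndF0q0 ndF2q2a pcF2 Cut.none Ext.none)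

def k0_mm_022_a : ∃ t, chk3 f_mm_022_a t 1 1 1 = true :=
  ⟨(l 5), by decide +kernel⟩

theorem c_mm_022_a : CertF 0 536870912 0 536870912 33554432 16777216 false false false .pp 0 2 2
    ndF0q0 ndF2q2a pcF2 Cut.none Ext.none :=
  certFK0 (fam := false) (s1 := false) (s2 := false) (a := 0) (b := 2) (c := 2) (cn := .pp) (n1 := ndF0q0) (n2 := ndF2q2a) (pc := pcF2) (cut := Cut.none) (xt := Ext.none) (P1 := 0) (W1 := 536870912) (P2 := 0) (W2 := 536870912) (P3 := 33554432) (W3 := 16777216)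
    rfl rfl rfl k0_mm_022_a

noncomputable def f_mm_022_b : ℕ → ℕ → ℕ → ℕ → Bool := onCell 0 536870912 1239849684 370763052 33554432 16777216
    (rowFK 0 false false false .pp 0 2 2 (qsf 0 536870912 1239849684 370763052 2) ndF0q0 ndF2q2b pcF2 Cut.none Ext.none)

def k0_mm_022_b : ∃ t, chk3 f_mm_022_b t 1 1 1 = true :=
  ⟨(l 5), by decide +kernel⟩

theorem c_mm_022_b : CertF 0 536870912 1239849684 370763052 33554432 16777216 false false false .pp 0 2 2
    ndF0q0 ndF2q2b pcF2 Cut.none Ext.none :=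
  certFK0 (fam := false) (s1 := false) (s2 := false) (a := 0) (b := 2) (c := 2) (cn := .pp) (n1 := ndF0q0) (n2 := ndF2q2b) (pc := pcF2) (cut := Cut.none) (xt := Ext.none) (P1 := 0) (W1 := 536870912) (P2 := 1239849684) (W2 := 370763052) (P3 := 33554432) (W3 := 16777216)
    rfl rfl rfl k0_mm_022_b

noncomputable def f_mm_023 : ℕ → ℕ → ℕ → ℕ → Bool := onCell 0 536870912 1610612736 536870912 33554432 16777216
    (rowFK 0 false false false .up 0 2 3 (qsf 0 536870912 1610612736 536870912 2) ndF0q0 ndF2q3 pcF2 Cut.none Ext.none)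

def k0_mm_023 : ∃ t, chk3 f_mm_023 t 1 1 1 = true :=
  ⟨(l 5), by decide +kernel⟩

theorem c_mm_023 : CertF 0 536870912 1610612736 536870912 33554432 16777216 false false false .up 0 2 3
    ndF0q0 ndF2q3 pcF2 Cut.none Ext.none :=
  certFK0 (fam := false) (s1 := false) (s2 := false) (a := 0) (b := 2) (c := 3) (cn := .up) (n1 := ndF0q0) (n2 := ndF2q3) (pc := pcF2) (cut := Cut.none) (xt := Ext.none) (P1 := 0) (W1 := 536870912) (P2 := 1610612736) (W2 := 536870912) (P3 := 33554432) (W3 := 16777216)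
    rfl rfl rfl k0_mm_023

noncomputable def f_mm_033 : ℕ → ℕ → ℕ → ℕ → Bool := onCell 0 536870912 1610612736 536870912 33554432 16777216
    (rowFK 0 false false false .pnn 0 3 3 (qsf 0 536870912 1610612736 536870912 3) ndF0q0 ndF2q3 pcF3 Cut.none Ext.none)

def k0_mm_033 : ∃ t, chk3 f_mm_033 t 1 1 1 = true :=
  ⟨(l 5), by decide +kernel⟩

theorem c_mm_033 : CertF 0 536870912 1610612736 536870912 33554432 16777216 false false false .pnn 0 3 3
    ndF0q0 ndF2q3 pcF3 Cut.none Ext.none :=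
  certFK0 (fam := false) (s1 := false) (s2 := false) (a := 0) (b := 3) (c := 3) (cn := .pnn) (n1 := ndF0q0) (n2 := ndF2q3) (pc := pcF3) (cut := Cut.none) (xt := Ext.none) (P1 := 0) (W1 := 536870912) (P2 := 1610612736) (W2 := 536870912) (P3 := 33554432) (W3 := 16777216)
    rfl rfl rfl k0_mm_033

noncomputable def cut_mm_101 : Cut := Cut.of [[⟨0, 1, 0, 33554432⟩, ⟨1, 0, 0, 33554432⟩, ⟨2, 1, 0, 33554432⟩]]

noncomputable def f_mm_101 : ℕ → ℕ → ℕ → ℕ → Bool := onCell 0 536870912 536870912 536870912 33554432 16777216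
    (rowFK 2 false false false .npn 1 0 1 (qsf 536870912 536870912 536870912 536870912 0) ndF0q1 ndF2q1 pcF0 cut_mm_101 Ext.none)

def k0_mm_101 : ∃ t, chk3 f_mm_101 t 1 1 1 = true :=
  ⟨(a (b (l 3) (a (b (l 3) (b (l 3) (b (l 3) (b (l 3) (b (l 3) (a (a (a (l 6) (l 3)) (l 3)) (l 3))))))) (l 3))) (l 3)), by decide +kernel⟩

theorem c_mm_101 : CertF 536870912 536870912 536870912 536870912 33554432 16777216 false false false .npn 1 0 1
    ndF0q1 ndF2q1 pcF0 cut_mm_101 Ext.none :=
  certFK2 (fam := false) (s1 := false) (s2 := false) (a := 1) (b := 0) (c := 1) (cn := .npn) (n1 := ndF0q1) (n2 := ndF2q1) (pc := pcF0) (cut := cut_mm_101) (xt := Ext.none) (P1 := 536870912) (W1 := 536870912) (P2 := 536870912) (W2 := 536870912) (P3 := 33554432) (W3 := 16777216)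
    rfl rfl rfl (fun _ => rfl) k0_mm_101

noncomputable def f_mm_102_a : ℕ → ℕ → ℕ → ℕ → Bool := onCell 536870912 536870912 0 536870912 33554432 16777216
    (rowFK 0 false false false .npp 1 0 2 (qsf 536870912 536870912 0 536870912 0) ndF0q1 ndF2q2a pcF0 Cut.none Ext.none)

def k0_mm_102_a : ∃ t, chk3 f_mm_102_a t 1 1 1 = true :=
  ⟨(l 3), by decide +kernel⟩

theorem c_mm_102_a : CertF 536870912 536870912 0 536870912 33554432 16777216 false false false .npp 1 0 2
    ndF0q1 ndF2q2a pcF0 Cut.none Ext.none :=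
  certFK0 (fam := false) (s1 := false) (s2 := false) (a := 1) (b := 0) (c := 2) (cn := .npp) (n1 := ndF0q1) (n2 := ndF2q2a) (pc := pcF0) (cut := Cut.none) (xt := Ext.none) (P1 := 536870912) (W1 := 536870912) (P2 := 0) (W2 := 536870912) (P3 := 33554432) (W3 := 16777216)
    rfl rfl rfl k0_mm_102_a

noncomputable def f_mm_102_b : ℕ → ℕ → ℕ → ℕ → Bool := onCell 536870912 536870912 0 536870912 33554432 16777216
    (rowFK 1 false false false .npp 1 0 2 (qsf 536870912 536870912 1239849684 370763052 0) ndF0q1 ndF2q2b pcF0 Cut.none Ext.none)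

def k0_mm_102_b : ∃ t, chk3 f_mm_102_b t 1 1 1 = true :=
  ⟨(l 3), by decide +kernel⟩

theorem c_mm_102_b : CertF 536870912 536870912 1239849684 370763052 33554432 16777216 false false false .npp 1 0 2
    ndF0q1 ndF2q2b pcF0 Cut.none Ext.none :=
  certFK1 (fam := false) (s1 := false) (s2 := false) (a := 1) (b := 0) (c := 2) (cn := .npp) (n1 := ndF0q1) (n2 := ndF2q2b) (pc := pcF0) (cut := Cut.none) (xt := Ext.none) (P1 := 536870912) (W1 := 536870912) (P2 := 1239849684) (W2 := 370763052) (P3 := 33554432) (W3 := 16777216)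
    rfl rfl rfl (fun _ => rfl) k0_mm_102_b

noncomputable def f_mm_112_a : ℕ → ℕ → ℕ → ℕ → Bool := onCell 536870912 536870912 0 536870912 33554432 16777216
    (rowFK 0 false false false .dn 1 1 2 (qsf 536870912 536870912 0 536870912 1) ndF0q1 ndF2q2a pcF1 Cut.none Ext.none)

def k0_mm_112_a : ∃ t, chk3 f_mm_112_a t 1 1 1 = true :=
  ⟨(l 3), by decide +kernel⟩

theorem c_mm_112_a : CertF 536870912 536870912 0 536870912 33554432 16777216 false false false .dn 1 1 2
    ndF0q1 ndF2q2a pcF1 Cut.none Ext.none :=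
  certFK0 (fam := false) (s1 := false) (s2 := false) (a := 1) (b := 1) (c := 2) (cn := .dn) (n1 := ndF0q1) (n2 := ndF2q2a) (pc := pcF1) (cut := Cut.none) (xt := Ext.none) (P1 := 536870912) (W1 := 536870912) (P2 := 0) (W2 := 536870912) (P3 := 33554432) (W3 := 16777216)
    rfl rfl rfl k0_mm_112_a

noncomputable def f_mm_112_b : ℕ → ℕ → ℕ → ℕ → Bool := onCell 536870912 536870912 536870912 536870912 33554432 16777216
    (rowFK 1 false false false .dn 1 1 2 (qsf 536870912 536870912 1239849684 370763052 1) ndF0q1 ndF2q2b pcF1 Cut.none Ext.none)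

def k0_mm_112_b : ∃ t, chk3 f_mm_112_b t 1 1 1 = true :=
  ⟨(l 5), by decide +kernel⟩

theorem c_mm_112_b : CertF 536870912 536870912 1239849684 370763052 33554432 16777216 false false false .dn 1 1 2
    ndF0q1 ndF2q2b pcF1 Cut.none Ext.none :=
  certFK1 (fam := false) (s1 := false) (s2 := false) (a := 1) (b := 1) (c := 2) (cn := .dn) (n1 := ndF0q1) (n2 := ndF2q2b) (pc := pcF1) (cut := Cut.none) (xt := Ext.none) (P1 := 536870912) (W1 := 536870912) (P2 := 1239849684) (W2 := 370763052) (P3 := 33554432) (W3 := 16777216)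
    rfl rfl rfl (fun _ => rfl) k0_mm_112_b

noncomputable def f_mm_113 : ℕ → ℕ → ℕ → ℕ → Bool := onCell 536870912 536870912 1610612736 536870912 33554432 16777216
    (rowFK 0 false false false .nn 1 1 3 (qsf 536870912 536870912 1610612736 536870912 1) ndF0q1 ndF2q3 pcF1 Cut.none Ext.none)

def k0_mm_113 : ∃ t, chk3 f_mm_113 t 1 1 1 = true :=
  ⟨(l 5), by decide +kernel⟩

theorem c_mm_113 : CertF 536870912 536870912 1610612736 536870912 33554432 16777216 false false false .nn 1 1 3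
    ndF0q1 ndF2q3 pcF1 Cut.none Ext.none :=
  certFK0 (fam := false) (s1 := false) (s2 := false) (a := 1) (b := 1) (c := 3) (cn := .nn) (n1 := ndF0q1) (n2 := ndF2q3) (pc := pcF1) (cut := Cut.none) (xt := Ext.none) (P1 := 536870912) (W1 := 536870912) (P2 := 1610612736) (W2 := 536870912) (P3 := 33554432) (W3 := 16777216)
    rfl rfl rfl k0_mm_113

noncomputable def f_mm_123 : ℕ → ℕ → ℕ → ℕ → Bool := onCell 536870912 536870912 1610612736 536870912 33554432 16777216
    (rowFK 0 false false false .npn 1 2 3 (qsf 536870912 536870912 1610612736 536870912 2) ndF0q1 ndF2q3 pcF2 Cut.none Ext.none)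

def k0_mm_123 : ∃ t, chk3 f_mm_123 t 1 1 1 = true :=
  ⟨(l 5), by decide +kernel⟩

theorem c_mm_123 : CertF 536870912 536870912 1610612736 536870912 33554432 16777216 false false false .npn 1 2 3
    ndF0q1 ndF2q3 pcF2 Cut.none Ext.none :=
  certFK0 (fam := false) (s1 := false) (s2 := false) (a := 1) (b := 2) (c := 3) (cn := .npn) (n1 := ndF0q1) (n2 := ndF2q3) (pc := pcF2) (cut := Cut.none) (xt := Ext.none) (P1 := 536870912) (W1 := 536870912) (P2 := 1610612736) (W2 := 536870912) (P3 := 33554432) (W3 := 16777216)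
    rfl rfl rfl k0_mm_123

noncomputable def f_mm_133 : ℕ → ℕ → ℕ → ℕ → Bool := onCell 536870912 536870912 1610612736 536870912 33554432 16777216
    (rowFK 0 false false false .dn 1 3 3 (qsf 536870912 536870912 1610612736 536870912 3) ndF0q1 ndF2q3 pcF3 Cut.none Ext.none)

def k0_mm_133 : ∃ t, chk3 f_mm_133 t 1 1 1 = true :=
  ⟨(l 5), by decide +kernel⟩

theorem c_mm_133 : CertF 536870912 536870912 1610612736 536870912 33554432 16777216 false false false .dn 1 3 3
    ndF0q1 ndF2q3 pcF3 Cut.none Ext.none :=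
  certFK0 (fam := false) (s1 := false) (s2 := false) (a := 1) (b := 3) (c := 3) (cn := .dn) (n1 := ndF0q1) (n2 := ndF2q3) (pc := pcF3) (cut := Cut.none) (xt := Ext.none) (P1 := 536870912) (W1 := 536870912) (P2 := 1610612736) (W2 := 536870912) (P3 := 33554432) (W3 := 16777216)
    rfl rfl rfl k0_mm_133

noncomputable def f_mm_202_a : ℕ → ℕ → ℕ → ℕ → Bool := onCell 0 536870912 0 536870912 33554432 16777216
    (rowFK 0 false false false .pp 2 0 2 (qsf 0 536870912 0 536870912 0) ndF0q2 ndF2q2a pcF0 Cut.none Ext.none)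

def k0_mm_202_a : ∃ t, chk3 f_mm_202_a t 1 1 1 = true :=
  ⟨(l 3), by decide +kernel⟩

theorem c_mm_202_a : CertF 0 536870912 0 536870912 33554432 16777216 false false false .pp 2 0 2
    ndF0q2 ndF2q2a pcF0 Cut.none Ext.none :=
  certFK0 (fam := false) (s1 := false) (s2 := false) (a := 2) (b := 0) (c := 2) (cn := .pp) (n1 := ndF0q2) (n2 := ndF2q2a) (pc := pcF0) (cut := Cut.none) (xt := Ext.none) (P1 := 0) (W1 := 536870912) (P2 := 0) (W2 := 536870912) (P3 := 33554432) (W3 := 16777216)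
    rfl rfl rfl k0_mm_202_a

noncomputable def f_mm_202_b : ℕ → ℕ → ℕ → ℕ → Bool := onCell 0 536870912 1239849684 370763052 33554432 16777216
    (rowFK 0 false false false .pp 2 0 2 (qsf 0 536870912 1239849684 370763052 0) ndF0q2 ndF2q2b pcF0 Cut.none Ext.none)

def k0_mm_202_b : ∃ t, chk3 f_mm_202_b t 1 1 1 = true :=
  ⟨(l 3), by decide +kernel⟩

theorem c_mm_202_b : CertF 0 536870912 1239849684 370763052 33554432 16777216 false false false .pp 2 0 2
    ndF0q2 ndF2q2b pcF0 Cut.none Ext.none :=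
  certFK0 (fam := false) (s1 := false) (s2 := false) (a := 2) (b := 0) (c := 2) (cn := .pp) (n1 := ndF0q2) (n2 := ndF2q2b) (pc := pcF0) (cut := Cut.none) (xt := Ext.none) (P1 := 0) (W1 := 536870912) (P2 := 1239849684) (W2 := 370763052) (P3 := 33554432) (W3 := 16777216)
    rfl rfl rfl k0_mm_202_b

noncomputable def f_mm_203 : ℕ → ℕ → ℕ → ℕ → Bool := onCell 0 536870912 0 536870912 33554432 16777216
    (rowFK 1 false false false .up 2 0 3 (qsf 0 536870912 1610612736 536870912 0) ndF0q2 ndF2q3 pcF0 Cut.none Ext.none)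

def k0_mm_203 : ∃ t, chk3 f_mm_203 t 1 1 1 = true :=
  ⟨(l 3), by decide +kernel⟩

theorem c_mm_203 : CertF 0 536870912 1610612736 536870912 33554432 16777216 false false false .up 2 0 3
    ndF0q2 ndF2q3 pcF0 Cut.none Ext.none :=
  certFK1 (fam := false) (s1 := false) (s2 := false) (a := 2) (b := 0) (c := 3) (cn := .up) (n1 := ndF0q2) (n2 := ndF2q3) (pc := pcF0) (cut := Cut.none) (xt := Ext.none) (P1 := 0) (W1 := 536870912) (P2 := 1610612736) (W2 := 536870912) (P3 := 33554432) (W3 := 16777216)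
    rfl rfl rfl (fun _ => rfl) k0_mm_203

noncomputable def f_mm_213 : ℕ → ℕ → ℕ → ℕ → Bool := onCell 0 536870912 1610612736 536870912 33554432 16777216
    (rowFK 0 false false false .pnn 2 1 3 (qsf 0 536870912 1610612736 536870912 1) ndF0q2 ndF2q3 pcF1 Cut.none Ext.none)

def k0_mm_213 : ∃ t, chk3 f_mm_213 t 1 1 1 = true :=
  ⟨(b (l 3) (a (l 3) (l 5))), by decide +kernel⟩

theorem c_mm_213 : CertF 0 536870912 1610612736 536870912 33554432 16777216 false false false .pnn 2 1 3
    ndF0q2 ndF2q3 pcF1 Cut.none Ext.none :=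
  certFK0 (fam := false) (s1 := false) (s2 := false) (a := 2) (b := 1) (c := 3) (cn := .pnn) (n1 := ndF0q2) (n2 := ndF2q3) (pc := pcF1) (cut := Cut.none) (xt := Ext.none) (P1 := 0) (W1 := 536870912) (P2 := 1610612736) (W2 := 536870912) (P3 := 33554432) (W3 := 16777216)
    rfl rfl rfl k0_mm_213

end Pool.Agent.Strip051.G.I1_32_3_64.Tab.C.FB02

namespace Pool.Agent.Strip051.G.I1_32_3_64.Tab.C.FB03

open Pool.Agent.Strip051.PB Pool.Agent.Strip051.PB.T
open Pool.Agent.Strip051.G.I1_32_3_64.Tab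

noncomputable def f_pp_001 : ℕ → ℕ → ℕ → ℕ → Bool := onCell 0 536870912 0 536870912 33554432 16777216
    (rowFK 1 false true true .up 0 0 1 (qsf 0 536870912 536870912 536870912 0) ndF0q0 ndF3q1 pcF0 Cut.none Ext.none)

def k0_pp_001 : ∃ t, chk3 f_pp_001 t 1 1 1 = true :=
  ⟨(l 3), by decide +kernel⟩

theorem c_pp_001 : CertF 0 536870912 536870912 536870912 33554432 16777216 false true true .up 0 0 1
    ndF0q0 ndF3q1 pcF0 Cut.none Ext.none :=
  certFK1 (fam := false) (s1 := true) (s2 := true) (a := 0) (b := 0) (c := 1) (cn := .up) (n1 := ndF0q0) (n2 := ndF3q1) (pc := pcF0) (cut := Cut.none) (xt := Ext.none) (P1 := 0) (W1 := 536870912) (P2 := 536870912) (W2 := 536870912) (P3 := 33554432) (W3 := 16777216)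
    rfl rfl rfl (fun _ => rfl) k0_pp_001

noncomputable def cut_pp_011 : Cut := Cut.of [[⟨0, 0, 0, 33554432⟩, ⟨1, 1, 0, 33554432⟩, ⟨2, 1, 0, 33554432⟩]]

noncomputable def f_pp_011 : ℕ → ℕ → ℕ → ℕ → Bool := onCell 0 536870912 536870912 536870912 33554432 16777216
    (rowFK 1 false true true .pnn 0 1 1 (qsf 0 536870912 536870912 536870912 1) ndF0q0 ndF3q1 pcF1 cut_pp_011 Ext.none)

def k0_pp_011 : ∃ t, chk3 f_pp_011 t 1 1 1 = true :=
  ⟨(b (l 3) (a (b (l 3) (a (b (l 3) (a (b (l 3) (a (b (l 3) (a (l 6) (l 3))) (l 3))) (l 3))) (l 3))) (l 3))), by decide +kernel⟩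

theorem c_pp_011 : CertF 0 536870912 536870912 536870912 33554432 16777216 false true true .pnn 0 1 1
    ndF0q0 ndF3q1 pcF1 cut_pp_011 Ext.none :=
  certFK1 (fam := false) (s1 := true) (s2 := true) (a := 0) (b := 1) (c := 1) (cn := .pnn) (n1 := ndF0q0) (n2 := ndF3q1) (pc := pcF1) (cut := cut_pp_011) (xt := Ext.none) (P1 := 0) (W1 := 536870912) (P2 := 536870912) (W2 := 536870912) (P3 := 33554432) (W3 := 16777216)
    rfl rfl rfl (fun _ => rfl) k0_pp_011

noncomputable def f_pp_012 : ℕ → ℕ → ℕ → ℕ → Bool := onCell 0 536870912 536870912 536870912 33554432 16777216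
    (rowFK 1 false true true .pnp 0 1 2 (qsf 0 536870912 1073741824 536870912 1) ndF0q0 ndF3q2 pcF1 Cut.none Ext.none)

def k0_pp_012 : ∃ t, chk3 f_pp_012 t 1 1 1 = true :=
  ⟨(l 3), by decide +kernel⟩

theorem c_pp_012 : CertF 0 536870912 1073741824 536870912 33554432 16777216 false true true .pnp 0 1 2
    ndF0q0 ndF3q2 pcF1 Cut.none Ext.none :=
  certFK1 (fam := false) (s1 := true) (s2 := true) (a := 0) (b := 1) (c := 2) (cn := .pnp) (n1 := ndF0q0) (n2 := ndF3q2) (pc := pcF1) (cut := Cut.none) (xt := Ext.none) (P1 := 0) (W1 := 536870912) (P2 := 1073741824) (W2 := 536870912) (P3 := 33554432) (W3 := 16777216)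
    rfl rfl rfl (fun _ => rfl) k0_pp_012

noncomputable def f_pp_022 : ℕ → ℕ → ℕ → ℕ → Bool := onCell 0 536870912 1073741824 536870912 33554432 16777216
    (rowFK 1 false true true .pp 0 2 2 (qsf 0 536870912 1073741824 536870912 2) ndF0q0 ndF3q2 pcF2 Cut.none Ext.none)

def k0_pp_022 : ∃ t, chk3 f_pp_022 t 1 1 1 = true :=
  ⟨(a (b (b (l 3) (b (b (b (l 3) (a (b (l 3) (b (l 19027328) (a (l 19128400) (l 18594944)))) (b (l 622403537863) (b (l 17994392) (a (l 18188696) (l 17811688)))))) (a (l 19140056) (l 18061856))) (a (l 19044248) (l 18206136)))) (a (l 19233632) (l 18689744))) (a (b (b (l 3) (b (b (b (l 17423216) (b (l 17299880) (b (l 17358272) (a (l 17485040) (l 17285752))))) (l 17429216)) (l 17551120))) (l 18043192)) (b (b (b (l 3) (b (l 3) (a (l 3) (l 2)))) (b (b (b (l 17347776) (l 2)) (l 2)) (l 2))) (l 2)))), by decide +kernel⟩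

theorem c_pp_022 : CertF 0 536870912 1073741824 536870912 33554432 16777216 false true true .pp 0 2 2
    ndF0q0 ndF3q2 pcF2 Cut.none Ext.none :=
  certFK1 (fam := false) (s1 := true) (s2 := true) (a := 0) (b := 2) (c := 2) (cn := .pp) (n1 := ndF0q0) (n2 := ndF3q2) (pc := pcF2) (cut := Cut.none) (xt := Ext.none) (P1 := 0) (W1 := 536870912) (P2 := 1073741824) (W2 := 536870912) (P3 := 33554432) (W3 := 16777216)
    rfl rfl rfl (fun _ => rfl) k0_pp_022

noncomputable def f_pp_023 : ℕ → ℕ → ℕ → ℕ → Bool := onCell 1073741824 536870912 0 1230186008 33554432 16777216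
    (rowFK 2 false true true .up 0 2 3 (qsf 0 536870912 0 1230186008 2) ndF0q0 ndF3q3 pcF2 Cut.none Ext.none)

def k0_pp_023 : ∃ t, chk3 f_pp_023 t 1 1 1 = true :=
  ⟨(a (b (l 2) (b (b (l 2) (a (l 2) (a (l 2) (l 17650632)))) (b (a (l 2) (a (a (a (l 17642248) (a (l 17557184) (b (l 2) (a (l 17619864) (l 17626504))))) (l 17614512)) (b (l 17642680) (l 17652176)))) (a (a (l 3) (a (l 3) (b (l 17693120) (l 3)))) (a (a (a (l 17769048) (a (l 17607136) (b (l 17861752) (l 17891872)))) (l 17748920)) (b (l 17648648) (l 17710224))))))) (b (a (l 2) (b (l 17604648) (a (l 17630328) (l 17629048)))) (b (a (b (l 281423069191) (a (l 17643208) (l 17656128))) (b (l 17596792) (l 17720712))) (b (a (a (l 17643736) (l 17707992)) (l 18181368)) (a (a (l 18065016) (l 18153376)) (b (l 18224448) (l 18409976))))))), by decide +kernel⟩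

theorem c_pp_023 : CertF 0 536870912 0 1230186008 33554432 16777216 false true true .up 0 2 3
    ndF0q0 ndF3q3 pcF2 Cut.none Ext.none :=
  certFK2 (fam := false) (s1 := true) (s2 := true) (a := 0) (b := 2) (c := 3) (cn := .up) (n1 := ndF0q0) (n2 := ndF3q3) (pc := pcF2) (cut := Cut.none) (xt := Ext.none) (P1 := 0) (W1 := 536870912) (P2 := 0) (W2 := 1230186008) (P3 := 33554432) (W3 := 16777216)
    rfl rfl rfl (fun _ => rfl) k0_pp_023

noncomputable def f_pp_033 : ℕ → ℕ → ℕ → ℕ → Bool := onCell 1610612736 536870912 0 1230186008 33554432 16777216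
    (rowFK 2 false true true .pnn 0 3 3 (qsf 0 536870912 0 1230186008 3) ndF0q0 ndF3q3 pcF3 Cut.none Ext.none)

def k0_pp_033 : ∃ t, chk3 f_pp_033 t 1 1 1 = true :=
  ⟨(b (a (a (b (l 17205088) (a (l 16972600) (l 16963592))) (b (l 17419168) (a (l 17194456) (l 17502000)))) (a (a (l 17719096) (l 18100664)) (a (l 18193848) (l 4)))) (b (a (a (b (l 17490520) (l 18052760)) (b (l 17672464) (l 18172824))) (a (a (l 18272672) (l 18363608)) (a (l 18166184) (l 1)))) (a (b (a (a (l 18354496) (l 18681112)) (a (b (l 18614240) (l 18853760)) (l 18668504))) (a (a (l 18019776) (l 18281792)) (a (l 18649632) (l 1)))) (l 1)))), by decide +kernel⟩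

theorem c_pp_033 : CertF 0 536870912 0 1230186008 33554432 16777216 false true true .pnn 0 3 3
    ndF0q0 ndF3q3 pcF3 Cut.none Ext.none :=
  certFK2 (fam := false) (s1 := true) (s2 := true) (a := 0) (b := 3) (c := 3) (cn := .pnn) (n1 := ndF0q0) (n2 := ndF3q3) (pc := pcF3) (cut := Cut.none) (xt := Ext.none) (P1 := 0) (W1 := 536870912) (P2 := 0) (W2 := 1230186008) (P3 := 33554432) (W3 := 16777216)
    rfl rfl rfl (fun _ => rfl) k0_pp_033

noncomputable def f_pp_101 : ℕ → ℕ → ℕ → ℕ → Bool := onCell 536870912 536870912 536870912 536870912 33554432 16777216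
    (rowFK 0 false true true .npn 1 0 1 (qsf 536870912 536870912 536870912 536870912 0) ndF0q1 ndF3q1 pcF0 Cut.none Ext.none)

def k0_pp_101 : ∃ t, chk3 f_pp_101 t 1 1 1 = true :=
  ⟨(a (l 3) (l 5)), by decide +kernel⟩

theorem c_pp_101 : CertF 536870912 536870912 536870912 536870912 33554432 16777216 false true true .npn 1 0 1
    ndF0q1 ndF3q1 pcF0 Cut.none Ext.none :=
  certFK0 (fam := false) (s1 := true) (s2 := true) (a := 1) (b := 0) (c := 1) (cn := .npn) (n1 := ndF0q1) (n2 := ndF3q1) (pc := pcF0) (cut := Cut.none) (xt := Ext.none) (P1 := 536870912) (W1 := 536870912) (P2 := 536870912) (W2 := 536870912) (P3 := 33554432) (W3 := 16777216)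
    rfl rfl rfl k0_pp_101

noncomputable def f_pp_102 : ℕ → ℕ → ℕ → ℕ → Bool := onCell 536870912 536870912 1073741824 536870912 33554432 16777216
    (rowFK 0 false true true .npp 1 0 2 (qsf 536870912 536870912 1073741824 536870912 0) ndF0q1 ndF3q2 pcF0 Cut.none Ext.none)

def k0_pp_102 : ∃ t, chk3 f_pp_102 t 1 1 1 = true :=
  ⟨(l 3), by decide +kernel⟩

theorem c_pp_102 : CertF 536870912 536870912 1073741824 536870912 33554432 16777216 false true true .npp 1 0 2
    ndF0q1 ndF3q2 pcF0 Cut.none Ext.none :=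
  certFK0 (fam := false) (s1 := true) (s2 := true) (a := 1) (b := 0) (c := 2) (cn := .npp) (n1 := ndF0q1) (n2 := ndF3q2) (pc := pcF0) (cut := Cut.none) (xt := Ext.none) (P1 := 536870912) (W1 := 536870912) (P2 := 1073741824) (W2 := 536870912) (P3 := 33554432) (W3 := 16777216)
    rfl rfl rfl k0_pp_102

noncomputable def f_pp_112 : ℕ → ℕ → ℕ → ℕ → Bool := onCell 536870912 536870912 1073741824 536870912 33554432 16777216
    (rowFK 0 false true true .dn 1 1 2 (qsf 536870912 536870912 1073741824 536870912 1) ndF0q1 ndF3q2 pcF1 Cut.none Ext.none)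

def k0_pp_112 : ∃ t, chk3 f_pp_112 t 1 1 1 = true :=
  ⟨(l 3), by decide +kernel⟩

theorem c_pp_112 : CertF 536870912 536870912 1073741824 536870912 33554432 16777216 false true true .dn 1 1 2
    ndF0q1 ndF3q2 pcF1 Cut.none Ext.none :=
  certFK0 (fam := false) (s1 := true) (s2 := true) (a := 1) (b := 1) (c := 2) (cn := .dn) (n1 := ndF0q1) (n2 := ndF3q2) (pc := pcF1) (cut := Cut.none) (xt := Ext.none) (P1 := 536870912) (W1 := 536870912) (P2 := 1073741824) (W2 := 536870912) (P3 := 33554432) (W3 := 16777216)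
    rfl rfl rfl k0_pp_112

noncomputable def cut_pp_113 : Cut := Cut.of [[⟨0, 1, 0, 7061502⟩, ⟨1, 1, 0, 7061502⟩, ⟨2, 2, 0, 184626⟩]]

noncomputable def f_pp_113 : ℕ → ℕ → ℕ → ℕ → Bool := onCell 536870912 536870912 0 1230186008 33554432 16777216
    (rowFK 2 false true true .nn 1 1 3 (qsf 536870912 536870912 0 1230186008 1) ndF0q1 ndF3q3 pcF1 cut_pp_113 Ext.none)

def k0_pp_113 : ∃ t, chk3 f_pp_113 t 1 1 1 = true :=
  ⟨(b (a (l 2) (a (l 2) (b (a (l 2) (a (l 2) (b (a (l 2) (b (a (l 2) (b (a (l 2) (b (l 6) (l 3))) (l 3))) (l 3))) (l 3)))) (l 3)))) (a (b (l 3) (a (b (l 2) (l 3)) (l 3))) (b (l 3) (l 3)))), by decide +kernel⟩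

theorem c_pp_113 : CertF 536870912 536870912 0 1230186008 33554432 16777216 false true true .nn 1 1 3
    ndF0q1 ndF3q3 pcF1 cut_pp_113 Ext.none :=
  certFK2 (fam := false) (s1 := true) (s2 := true) (a := 1) (b := 1) (c := 3) (cn := .nn) (n1 := ndF0q1) (n2 := ndF3q3) (pc := pcF1) (cut := cut_pp_113) (xt := Ext.none) (P1 := 536870912) (W1 := 536870912) (P2 := 0) (W2 := 1230186008) (P3 := 33554432) (W3 := 16777216)
    rfl rfl rfl (fun _ => rfl) k0_pp_113

noncomputable def cut_pp_123 : Cut := Cut.of [[⟨0, 1, 0, 7061502⟩, ⟨1, 1, 0, 7061502⟩, ⟨2, 2, 0, 184626⟩]]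

noncomputable def f_pp_123 : ℕ → ℕ → ℕ → ℕ → Bool := onCell 1073741824 536870912 0 1230186008 33554432 16777216
    (rowFK 2 false true true .npn 1 2 3 (qsf 536870912 536870912 0 1230186008 2) ndF0q1 ndF3q3 pcF2 cut_pp_123 Ext.none)

def k0_pp_123 : ∃ t, chk3 f_pp_123 t 1 2 1 = true :=
  ⟨(b (a (a (a (a (a (b (a (b (b (a (b (l 6) (a (l 3) (b (a (l 3) (b (l 6) (a (l 3) (a (l 3) (a (l 308868548455) (l 292762423079)))))) (l 3)))) (b (l 16784744) (a (b (a (b (l 6) (a (b (l 250349618471) (l 282025006887)) (l 267529494487))) (l 16780232)) (a (b (a (l 3) (b (l 267529497543) (l 307794806551))) (l 3)) (l 268603239223))) (b (l 16783104) (a (l 16786656) (l 16781256)))))) (a (l 3) (b (a (b (l 3) (l 3)) (b (c (l 272898212151) (l 272898212135)) (a (l 3) (b (l 300278626535) (l 3))))) (l 3)))) (l 3)) (b (b (l 16851680) (a (b (a (b (l 16781120) (l 248202158791)) (l 16784440)) (a (b (l 296520537415) (l 3)) (l 264308295479))) (b (l 16810392) (l 16827752)))) (b (a (b (l 314774167735)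 (l 3)) (b (a (l 259476447431) (l 247128488071)) (l 298668033271))) (l 3)))) (l 3)) (b (b (l 16907288) (a (a (b (l 246591644391) (l 282561904391)) (b (l 16814136) (l 224043040743))) (l 16885824))) (b (b (a (l 297594304007) (l 220284989559)) (l 280414496807)) (l 3)))) (b (b (l 16845984) (l 17052216)) (a (b (l 219748258871) (a (l 214379348247) (b (l 16873192) (l 16844488)))) (l 17012096)))) (a (b (l 16919488) (l 17046904)) (l 17058312))) (a (l 17242184) (l 17421024))) (a (l 17477016) (l 17604592))) (a (a (a (a (l 3) (b (a (b (a (l 3) (l 244444201703)) (l 3)) (b (l 181630720743) (l 232633280039))) (b (a (l 3) (l 233170229079)) (l 3)))) (a (b (a (a (l 17186912) (l 16997584)) (b (l 17022568) (l 17086544))) (a (b (l 17165928) (l 234781154775)) (l 17315632))) (b (l 17152480) (a (l 17277664) (l 17302696))))) (a (b (l 17321888) (l 17383208)) (b (l 17386688) (l 17386736)))) (a (a (l 17559968) (l 17506416)) (a (l 17630664) (l 17632552))))), by decide +kernel⟩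

def k1_pp_123 : ∃ t, chk3 f_pp_123 t 1 3 1 = true :=
  ⟨(b (a (a (a (l 3) (b (a (a (a (l 3) (l 246056037655)) (l 17445904)) (a (l 17357280) (l 17320696))) (a (l 3) (b (l 17427384) (l 17440768))))) (a (a (a (b (l 17335304) (b (l 17309392) (l 17348424))) (b (l 17336352) (a (l 17368376) (a (l 17379968) (l 17384720))))) (b (l 17366304) (l 17412200))) (b (l 17383712) (l 17671520)))) (a (b (a (l 17513784) (l 17638672)) (a (l 17644480) (l 17661792))) (b (l 17611144) (l 1)))) (a (a (a (l 3) (a (l 3) (b (b (l 17560320) (l 17682832)) (b (l 17714648) (l 1))))) (a (b (a (a (l 17642200) (a (l 17557208) (b (a (l 17517752) (l 17524384)) (l 3793888487)))) (l 17615112)) (a (a (b (l 17562744) (l 1)) (l 1)) (l 1))) (b (b (l 17643480) (l 1)) (l 1)))) (l 1))), by decide +kernel⟩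

theorem s2_pp_123 : ∃ t, chk3 f_pp_123 t 1 1 1 = true := ex3_b k0_pp_123 k1_pp_123

theorem c_pp_123 : CertF 536870912 536870912 0 1230186008 33554432 16777216 false true true .npn 1 2 3
    ndF0q1 ndF3q3 pcF2 cut_pp_123 Ext.none :=
  certFK2 (fam := false) (s1 := true) (s2 := true) (a := 1) (b := 2) (c := 3) (cn := .npn) (n1 := ndF0q1) (n2 := ndF3q3) (pc := pcF2) (cut := cut_pp_123) (xt := Ext.none) (P1 := 536870912) (W1 := 536870912) (P2 := 0) (W2 := 1230186008) (P3 := 33554432) (W3 := 16777216)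
    rfl rfl rfl (fun _ => rfl) s2_pp_123

noncomputable def f_pp_133 : ℕ → ℕ → ℕ → ℕ → Bool := onCell 1610612736 536870912 0 1230186008 33554432 16777216
    (rowFK 2 false true true .dn 1 3 3 (qsf 536870912 536870912 0 1230186008 3) ndF0q1 ndF3q3 pcF3 Cut.none Ext.none)

def k0_pp_133 : ∃ t, chk3 f_pp_133 t 1 1 1 = true :=
  ⟨(b (b (a (a (l 736621358823) (l 1)) (l 1)) (l 1)) (l 1)), by decide +kernel⟩

theorem c_pp_133 : CertF 536870912 536870912 0 1230186008 33554432 16777216 false true true .dn 1 3 3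
    ndF0q1 ndF3q3 pcF3 Cut.none Ext.none :=
  certFK2 (fam := false) (s1 := true) (s2 := true) (a := 1) (b := 3) (c := 3) (cn := .dn) (n1 := ndF0q1) (n2 := ndF3q3) (pc := pcF3) (cut := Cut.none) (xt := Ext.none) (P1 := 536870912) (W1 := 536870912) (P2 := 0) (W2 := 1230186008) (P3 := 33554432) (W3 := 16777216)
    rfl rfl rfl (fun _ => rfl) k0_pp_133

noncomputable def f_pp_202 : ℕ → ℕ → ℕ → ℕ → Bool := onCell 0 536870912 1073741824 536870912 33554432 16777216
    (rowFK 0 false true true .pp 2 0 2 (qsf 0 536870912 1073741824 536870912 0) ndF0q2 ndF3q2 pcF0 Cut.none Ext.none)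

def k0_pp_202 : ∃ t, chk3 f_pp_202 t 1 1 1 = true :=
  ⟨(a (l 5) (l 3)), by decide +kernel⟩

theorem c_pp_202 : CertF 0 536870912 1073741824 536870912 33554432 16777216 false true true .pp 2 0 2
    ndF0q2 ndF3q2 pcF0 Cut.none Ext.none :=
  certFK0 (fam := false) (s1 := true) (s2 := true) (a := 2) (b := 0) (c := 2) (cn := .pp) (n1 := ndF0q2) (n2 := ndF3q2) (pc := pcF0) (cut := Cut.none) (xt := Ext.none) (P1 := 0) (W1 := 536870912) (P2 := 1073741824) (W2 := 536870912) (P3 := 33554432) (W3 := 16777216)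
    rfl rfl rfl k0_pp_202

noncomputable def f_pp_203 : ℕ → ℕ → ℕ → ℕ → Bool := onCell 0 536870912 0 1230186008 33554432 16777216
    (rowFK 0 false true true .up 2 0 3 (qsf 0 536870912 0 1230186008 0) ndF0q2 ndF3q3 pcF0 Cut.none Ext.none)

def k0_pp_203 : ∃ t, chk3 f_pp_203 t 1 1 1 = true :=
  ⟨(b (l 2) (l 3)), by decide +kernel⟩

theorem c_pp_203 : CertF 0 536870912 0 1230186008 33554432 16777216 false true true .up 2 0 3
    ndF0q2 ndF3q3 pcF0 Cut.none Ext.none :=
  certFK0 (fam := false) (s1 := true) (s2 := true) (a := 2) (b := 0) (c := 3) (cn := .up) (n1 := ndF0q2) (n2 := ndF3q3) (pc := pcF0) (cut := Cut.none) (xt := Ext.none) (P1 := 0) (W1 := 536870912) (P2 := 0) (W2 := 1230186008) (P3 := 33554432) (W3 := 16777216)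
    rfl rfl rfl k0_pp_203

noncomputable def cut_pp_213 : Cut := Cut.of [[⟨0, 1, 0, 7061502⟩, ⟨1, 1, 0, 7061502⟩, ⟨2, 2, 0, 184626⟩]]

noncomputable def f_pp_213 : ℕ → ℕ → ℕ → ℕ → Bool := onCell 0 536870912 0 1230186008 33554432 16777216
    (rowFK 0 false true true .pnn 2 1 3 (qsf 0 536870912 0 1230186008 1) ndF0q2 ndF3q3 pcF1 cut_pp_213 Ext.none)

def k0_pp_213 : ∃ t, chk3 f_pp_213 t 1 1 1 = true :=
  ⟨(b (a (l 3) (b (a (l 3) (a (l 3) (b (a (l 3) (b (a (l 3) (b (a (l 3) (b (l 6) (l 3))) (l 3))) (l 3))) (l 3)))) (l 3))) (l 3)), by decide +kernel⟩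

theorem c_pp_213 : CertF 0 536870912 0 1230186008 33554432 16777216 false true true .pnn 2 1 3
    ndF0q2 ndF3q3 pcF1 cut_pp_213 Ext.none :=
  certFK0 (fam := false) (s1 := true) (s2 := true) (a := 2) (b := 1) (c := 3) (cn := .pnn) (n1 := ndF0q2) (n2 := ndF3q3) (pc := pcF1) (cut := cut_pp_213) (xt := Ext.none) (P1 := 0) (W1 := 536870912) (P2 := 0) (W2 := 1230186008) (P3 := 33554432) (W3 := 16777216)
    rfl rfl rfl k0_pp_213

noncomputable def f_pm_001 : ℕ → ℕ → ℕ → ℕ → Bool := onCell 0 536870912 536870912 536870912 33554432 16777216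
    (rowFK 0 false true false .up 0 0 1 (qsf 0 536870912 536870912 536870912 0) ndF0q0 ndF3q1 pcF0 Cut.none Ext.none)

def k0_pm_001 : ∃ t, chk3 f_pm_001 t 1 1 1 = true :=
  ⟨(l 4), by decide +kernel⟩

theorem c_pm_001 : CertF 0 536870912 536870912 536870912 33554432 16777216 false true false .up 0 0 1
    ndF0q0 ndF3q1 pcF0 Cut.none Ext.none :=
  certFK0 (fam := false) (s1 := true) (s2 := false) (a := 0) (b := 0) (c := 1) (cn := .up) (n1 := ndF0q0) (n2 := ndF3q1) (pc := pcF0) (cut := Cut.none) (xt := Ext.none) (P1 := 0) (W1 := 536870912) (P2 := 536870912) (W2 := 536870912) (P3 := 33554432) (W3 := 16777216)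
    rfl rfl rfl k0_pm_001

noncomputable def f_pm_011 : ℕ → ℕ → ℕ → ℕ → Bool := onCell 0 536870912 536870912 536870912 33554432 16777216
    (rowFK 0 false true false .pnn 0 1 1 (qsf 0 536870912 536870912 536870912 1) ndF0q0 ndF3q1 pcF1 Cut.none Ext.none)

def k0_pm_011 : ∃ t, chk3 f_pm_011 t 1 1 1 = true :=
  ⟨(l 4), by decide +kernel⟩

theorem c_pm_011 : CertF 0 536870912 536870912 536870912 33554432 16777216 false true false .pnn 0 1 1
    ndF0q0 ndF3q1 pcF1 Cut.none Ext.none :=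
  certFK0 (fam := false) (s1 := true) (s2 := false) (a := 0) (b := 1) (c := 1) (cn := .pnn) (n1 := ndF0q0) (n2 := ndF3q1) (pc := pcF1) (cut := Cut.none) (xt := Ext.none) (P1 := 0) (W1 := 536870912) (P2 := 536870912) (W2 := 536870912) (P3 := 33554432) (W3 := 16777216)
    rfl rfl rfl k0_pm_011

noncomputable def f_pm_012 : ℕ → ℕ → ℕ → ℕ → Bool := onCell 0 536870912 1073741824 536870912 33554432 16777216
    (rowFK 0 false true false .pnp 0 1 2 (qsf 0 536870912 1073741824 536870912 1) ndF0q0 ndF3q2 pcF1 Cut.none Ext.none)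

def k0_pm_012 : ∃ t, chk3 f_pm_012 t 1 1 1 = true :=
  ⟨(l 4), by decide +kernel⟩

theorem c_pm_012 : CertF 0 536870912 1073741824 536870912 33554432 16777216 false true false .pnp 0 1 2
    ndF0q0 ndF3q2 pcF1 Cut.none Ext.none :=
  certFK0 (fam := false) (s1 := true) (s2 := false) (a := 0) (b := 1) (c := 2) (cn := .pnp) (n1 := ndF0q0) (n2 := ndF3q2) (pc := pcF1) (cut := Cut.none) (xt := Ext.none) (P1 := 0) (W1 := 536870912) (P2 := 1073741824) (W2 := 536870912) (P3 := 33554432) (W3 := 16777216)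
    rfl rfl rfl k0_pm_012

noncomputable def f_pm_022 : ℕ → ℕ → ℕ → ℕ → Bool := onCell 0 536870912 1073741824 536870912 33554432 16777216
    (rowFK 0 false true false .pp 0 2 2 (qsf 0 536870912 1073741824 536870912 2) ndF0q0 ndF3q2 pcF2 Cut.none Ext.none)

def k0_pm_022 : ∃ t, chk3 f_pm_022 t 1 1 1 = true :=
  ⟨(l 4), by decide +kernel⟩

theorem c_pm_022 : CertF 0 536870912 1073741824 536870912 33554432 16777216 false true false .pp 0 2 2
    ndF0q0 ndF3q2 pcF2 Cut.none Ext.none :=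
  certFK0 (fam := false) (s1 := true) (s2 := false) (a := 0) (b := 2) (c := 2) (cn := .pp) (n1 := ndF0q0) (n2 := ndF3q2) (pc := pcF2) (cut := Cut.none) (xt := Ext.none) (P1 := 0) (W1 := 536870912) (P2 := 1073741824) (W2 := 536870912) (P3 := 33554432) (W3 := 16777216)
    rfl rfl rfl k0_pm_022

noncomputable def f_pm_023 : ℕ → ℕ → ℕ → ℕ → Bool := onCell 0 536870912 0 1230186008 33554432 16777216
    (rowFK 0 false true false .up 0 2 3 (qsf 0 536870912 0 1230186008 2) ndF0q0 ndF3q3 pcF2 Cut.none Ext.none)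

def k0_pm_023 : ∃ t, chk3 f_pm_023 t 1 1 1 = true :=
  ⟨(a (b (l 2) (l 4)) (b (a (l 2) (b (l 17569624) (a (l 17565536) (l 17625768)))) (b (a (l 4) (b (l 4) (l 4))) (l 4)))), by decide +kernel⟩

theorem c_pm_023 : CertF 0 536870912 0 1230186008 33554432 16777216 false true false .up 0 2 3
    ndF0q0 ndF3q3 pcF2 Cut.none Ext.none :=
  certFK0 (fam := false) (s1 := true) (s2 := false) (a := 0) (b := 2) (c := 3) (cn := .up) (n1 := ndF0q0) (n2 := ndF3q3) (pc := pcF2) (cut := Cut.none) (xt := Ext.none) (P1 := 0) (W1 := 536870912) (P2 := 0) (W2 := 1230186008) (P3 := 33554432) (W3 := 16777216)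
    rfl rfl rfl k0_pm_023

noncomputable def f_pm_033 : ℕ → ℕ → ℕ → ℕ → Bool := onCell 1610612736 536870912 0 1230186008 33554432 16777216
    (rowFK 2 false true false .pnn 0 3 3 (qsf 0 536870912 0 1230186008 3) ndF0q0 ndF3q3 pcF3 Cut.none Ext.none)

def k0_pm_033 : ∃ t, chk3 f_pm_033 t 1 1 1 = true :=
  ⟨(b (a (a (b (a (l 17211808) (l 17363552)) (a (l 17532312) (l 4))) (b (l 17309992) (l 4))) (l 4)) (l 4)), by decide +kernel⟩

theorem c_pm_033 : CertF 0 536870912 0 1230186008 33554432 16777216 false true false .pnn 0 3 3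
    ndF0q0 ndF3q3 pcF3 Cut.none Ext.none :=
  certFK2 (fam := false) (s1 := true) (s2 := false) (a := 0) (b := 3) (c := 3) (cn := .pnn) (n1 := ndF0q0) (n2 := ndF3q3) (pc := pcF3) (cut := Cut.none) (xt := Ext.none) (P1 := 0) (W1 := 536870912) (P2 := 0) (W2 := 1230186008) (P3 := 33554432) (W3 := 16777216)
    rfl rfl rfl (fun _ => rfl) k0_pm_033

noncomputable def f_pm_101 : ℕ → ℕ → ℕ → ℕ → Bool := onCell 536870912 536870912 536870912 536870912 33554432 16777216
    (rowFK 0 false true false .npn 1 0 1 (qsf 536870912 536870912 536870912 536870912 0) ndF0q1 ndF3q1 pcF0 Cut.none Ext.none)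

def k0_pm_101 : ∃ t, chk3 f_pm_101 t 1 1 1 = true :=
  ⟨(l 4), by decide +kernel⟩

theorem c_pm_101 : CertF 536870912 536870912 536870912 536870912 33554432 16777216 false true false .npn 1 0 1
    ndF0q1 ndF3q1 pcF0 Cut.none Ext.none :=
  certFK0 (fam := false) (s1 := true) (s2 := false) (a := 1) (b := 0) (c := 1) (cn := .npn) (n1 := ndF0q1) (n2 := ndF3q1) (pc := pcF0) (cut := Cut.none) (xt := Ext.none) (P1 := 536870912) (W1 := 536870912) (P2 := 536870912) (W2 := 536870912) (P3 := 33554432) (W3 := 16777216)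
    rfl rfl rfl k0_pm_101

noncomputable def f_pm_102 : ℕ → ℕ → ℕ → ℕ → Bool := onCell 536870912 536870912 0 536870912 33554432 16777216
    (rowFK 1 false true false .npp 1 0 2 (qsf 536870912 536870912 1073741824 536870912 0) ndF0q1 ndF3q2 pcF0 Cut.none Ext.none)

def k0_pm_102 : ∃ t, chk3 f_pm_102 t 1 1 1 = true :=
  ⟨(a (b (l 4) (b (l 4) (a (l 4) (a (l 4) (b (l 4) (l 18755408)))))) (b (a (b (a (l 1) (b (l 1) (l 19358312))) (a (a (l 4) (l 19067496)) (b (l 19244112) (l 19132344)))) (b (c (a (l 20025096) (b (l 20479896) (l 20424504))) (a (l 19319608) (l 136404089511))) (a (b (l 19448440) (l 19482944)) (b (c (l 20533208) (a (l 18847408) (l 18666128))) (c (c (l 20494608) (l 19514208)) (c (l 18756944) (l 18162296))))))) (a (b (a (b (l 18904264) (l 18781288)) (b (l 18994552) (l 18836728))) (b (a (l 18681448) (l 18735824)) (a (l 18604624) (a (l 18507840) (c (l 18878120) (l 17793552)))))) (b (c (b (a (l 19707552) (a (b (l 19862880) (l 19494768)) (b (l 19109480)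 (l 18543304)))) (a (a (l 19502464) (l 19523832)) (a (b (l 18956976) (l 18392944)) (b (l 17964032) (l 17446648))))) (a (b (l 18661816) (c (l 18426144) (l 17808800))) (b (a (l 18353048) (l 17761400)) (a (l 17600608) (l 17687936))))) (b (a (a (c (l 19136600) (l 17906600)) (c (b (l 18788552) (l 18227752)) (l 17497600))) (a (b (l 17603456) (l 17487976)) (l 18008392))) (a (a (b (c (l 18623136) (l 17565528)) (l 17649496)) (b (l 17347792) (l 17371776))) (a (l 17808768) (a (l 18121792) (l 18254144))))))))), by decide +kernel⟩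

theorem c_pm_102 : CertF 536870912 536870912 1073741824 536870912 33554432 16777216 false true false .npp 1 0 2
    ndF0q1 ndF3q2 pcF0 Cut.none Ext.none :=
  certFK1 (fam := false) (s1 := true) (s2 := false) (a := 1) (b := 0) (c := 2) (cn := .npp) (n1 := ndF0q1) (n2 := ndF3q2) (pc := pcF0) (cut := Cut.none) (xt := Ext.none) (P1 := 536870912) (W1 := 536870912) (P2 := 1073741824) (W2 := 536870912) (P3 := 33554432) (W3 := 16777216)
    rfl rfl rfl (fun _ => rfl) k0_pm_102

noncomputable def f_pm_112 : ℕ → ℕ → ℕ → ℕ → Bool := onCell 536870912 536870912 1073741824 536870912 33554432 16777216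
    (rowFK 2 false true false .dn 1 1 2 (qsf 536870912 536870912 1073741824 536870912 1) ndF0q1 ndF3q2 pcF1 Cut.none Ext.none)

def k0_pm_112 : ∃ t, chk3 f_pm_112 t 1 1 1 = true :=
  ⟨(a (b (a (b (l 4) (l 82381687751)) (l 4)) (a (b (a (l 19246504) (l 19222528)) (b (l 19125304) (l 18910552))) (b (l 19556240) (a (l 19271720) (l 19479800))))) (b (l 4) (a (b (l 4) (l 19901648)) (l 4)))), by decide +kernel⟩

theorem c_pm_112 : CertF 536870912 536870912 1073741824 536870912 33554432 16777216 false true false .dn 1 1 2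
    ndF0q1 ndF3q2 pcF1 Cut.none Ext.none :=
  certFK2 (fam := false) (s1 := true) (s2 := false) (a := 1) (b := 1) (c := 2) (cn := .dn) (n1 := ndF0q1) (n2 := ndF3q2) (pc := pcF1) (cut := Cut.none) (xt := Ext.none) (P1 := 536870912) (W1 := 536870912) (P2 := 1073741824) (W2 := 536870912) (P3 := 33554432) (W3 := 16777216)
    rfl rfl rfl (fun _ => rfl) k0_pm_112

noncomputable def cut_pm_113 : Cut := Cut.of [[⟨0, 1, 0, 7061502⟩, ⟨1, 1, 0, 7061502⟩, ⟨2, 2, 0, 184626⟩]]

noncomputable def f_pm_113 : ℕ → ℕ → ℕ → ℕ → Bool := onCell 536870912 536870912 0 1230186008 33554432 16777216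
    (rowFK 2 false true false .nn 1 1 3 (qsf 536870912 536870912 0 1230186008 1) ndF0q1 ndF3q3 pcF1 cut_pm_113 Ext.none)

def k0_pm_113 : ∃ t, chk3 f_pm_113 t 1 1 1 = true :=
  ⟨(a (b (l 2) (b (a (l 2) (b (l 2) (a (l 2) (b (l 2) (l 1019619999815))))) (a (b (l 2) (a (b (l 2) (b (l 17265744) (l 17499184))) (b (l 470400781079) (l 17637736)))) (a (b (b (a (l 2) (l 17222616)) (l 385574675255)) (b (l 17508912) (l 17910280))) (b (b (l 17107800) (l 17401816)) (l 18198088)))))) (a (b (l 2) (b (b (a (l 2) (b (l 1154374399303) (l 17088032))) (a (b (l 992776365431) (l 17063784)) (b (l 17024848) (l 17327296)))) (b (a (b (l 17339616) (l 17720584)) (l 17867536)) (b (l 18232376) (l 18559280))))) (a (b (b (l 2) (b (a (l 2) (l 1488307138855)) (a (l 1232757281831) (l 16931992)))) (b (b (l 534825089479) (l 17499808)) (b (l 18222784) (l 18823632)))) (b (b (a (l 2) (b (a (l 2) (b (a (l 2) (b (a (l 2) (b (l 6) (l 889158900375))) (l 883790198327))) (l 856409797287))) (l 796817162919)))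 (b (l 718971452983) (a (l 16904864) (l 17002328)))) (a (b (b (l 17200920) (l 17853648)) (b (l 18523440) (l 19000008))) (b (a (b (l 17337032) (l 18055784)) (a (l 17755472) (l 17822128))) (a (b (l 18666928) (l 19155800)) (b (a (l 18756656) (l 18802720)) (a (l 19256496) (l 19305264)))))))))), by decide +kernel⟩

theorem c_pm_113 : CertF 536870912 536870912 0 1230186008 33554432 16777216 false true false .nn 1 1 3
    ndF0q1 ndF3q3 pcF1 cut_pm_113 Ext.none :=
  certFK2 (fam := false) (s1 := true) (s2 := false) (a := 1) (b := 1) (c := 3) (cn := .nn) (n1 := ndF0q1) (n2 := ndF3q3) (pc := pcF1) (cut := cut_pm_113) (xt := Ext.none) (P1 := 536870912) (W1 := 536870912) (P2 := 0) (W2 := 1230186008) (P3 := 33554432) (W3 := 16777216)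
    rfl rfl rfl (fun _ => rfl) k0_pm_113

noncomputable def cut_pm_123 : Cut := Cut.of [[⟨0, 1, 0, 7061502⟩, ⟨1, 1, 0, 7061502⟩, ⟨2, 2, 0, 184626⟩]]

noncomputable def f_pm_123 : ℕ → ℕ → ℕ → ℕ → Bool := onCell 1073741824 536870912 0 1230186008 33554432 16777216
    (rowFK 2 false true false .npn 1 2 3 (qsf 536870912 536870912 0 1230186008 2) ndF0q1 ndF3q3 pcF2 cut_pm_123 Ext.none)

def k0_pm_123 : ∃ t, chk3 f_pm_123 t 1 1 1 = true :=
  ⟨(b (b (a (a (a (a (a (b (a (b (b (a (b (l 6) (l 16787160)) (l 16790024)) (l 16798656)) (l 16821512)) (l 16820712)) (a (l 16889608) (l 16905256))) (b (l 16840816) (l 16928864))) (l 16977416)) (b (l 17023696) (l 17139264))) (a (l 17339280) (l 17530056))) (a (l 17565592) (l 17584520))) (a (a (a (a (a (a (l 17162656) (l 17206080)) (l 17238368)) (l 17485712)) (b (l 17354232) (l 17659960))) (a (l 17682416) (l 17792208))) (a (a (l 17790880) (l 17719536)) (a (l 17679784) (l 17556336))))) (b (a (b (a (a (a (a (a (l 17753248) (l 17799096))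 (l 17866728)) (l 17965632)) (l 18053624)) (l 18198088)) (a (l 18484192) (l 18477296))) (a (b (l 18022744) (l 18333496)) (b (l 17715056) (l 1)))) (a (a (b (a (l 18917272) (l 18897936)) (a (l 4) (l 4))) (b (l 18914528) (l 4))) (l 1)))), by decide +kernel⟩

theorem c_pm_123 : CertF 536870912 536870912 0 1230186008 33554432 16777216 false true false .npn 1 2 3
    ndF0q1 ndF3q3 pcF2 cut_pm_123 Ext.none :=
  certFK2 (fam := false) (s1 := true) (s2 := false) (a := 1) (b := 2) (c := 3) (cn := .npn) (n1 := ndF0q1) (n2 := ndF3q3) (pc := pcF2) (cut := cut_pm_123) (xt := Ext.none) (P1 := 536870912) (W1 := 536870912) (P2 := 0) (W2 := 1230186008) (P3 := 33554432) (W3 := 16777216)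
    rfl rfl rfl (fun _ => rfl) k0_pm_123

noncomputable def f_pm_133 : ℕ → ℕ → ℕ → ℕ → Bool := onCell 536870912 536870912 0 1230186008 33554432 16777216
    (rowFK 0 false true false .dn 1 3 3 (qsf 536870912 536870912 0 1230186008 3) ndF0q1 ndF3q3 pcF3 Cut.none Ext.none)

def k0_pm_133 : ∃ t, chk3 f_pm_133 t 1 1 1 = true :=
  ⟨(b (b (a (a (a (l 16949632) (l 1)) (l 1)) (l 1)) (l 1)) (l 1)), by decide +kernel⟩

theorem c_pm_133 : CertF 536870912 536870912 0 1230186008 33554432 16777216 false true false .dn 1 3 3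
    ndF0q1 ndF3q3 pcF3 Cut.none Ext.none :=
  certFK0 (fam := false) (s1 := true) (s2 := false) (a := 1) (b := 3) (c := 3) (cn := .dn) (n1 := ndF0q1) (n2 := ndF3q3) (pc := pcF3) (cut := Cut.none) (xt := Ext.none) (P1 := 536870912) (W1 := 536870912) (P2 := 0) (W2 := 1230186008) (P3 := 33554432) (W3 := 16777216)
    rfl rfl rfl k0_pm_133

noncomputable def f_pm_202 : ℕ → ℕ → ℕ → ℕ → Bool := onCell 0 536870912 0 536870912 33554432 16777216
    (rowFK 1 false true false .pp 2 0 2 (qsf 0 536870912 1073741824 536870912 0) ndF0q2 ndF3q2 pcF0 Cut.none Ext.none)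

def k0_pm_202 : ∃ t, chk3 f_pm_202 t 1 1 1 = true :=
  ⟨(b (a (b (a (b (a (b (l 154791983655) (l 18904280)) (b (a (l 19244008) (l 19104560)) (l 19035432))) (l 159085234471)) (b (a (b (l 18691128) (l 18859752)) (c (b (a (l 18115400) (l 18353816)) (l 18169984)) (l 18503200))) (a (l 18716552) (l 18554208)))) (a (a (l 3) (b (l 18430936) (l 168210198503))) (b (a (l 18394736) (l 18464968)) (a (l 17893952) (l 18211968))))) (b (a (a (b (c (b (l 19029600) (l 18633384)) (c (l 18206904) (l 18374408))) (a (l 18391104) (b (l 18273896) (l 18091744)))) (b (c (b (l 20046120) (l 19512456)) (c (l 18576384) (l 18183440))) (c (b (l 18956992) (l 18553016)) (l 18150000)))) (a (b (c (b (l 20770608) (l 20512264)) (c (l 19156840) (l 18382800))) (c (b (l 20071920) (l 19527792)) (c (l 18613872) (l 18064512)))) (b (c (l 20749168) (l 19169880)) (c (l 20766224) (c (l 19154512) (l 18279280)))))) (a (b (a (l 18414688) (c (b (l 18055472) (l 18000304)) (l 18234240))) (a (l 18297464) (l 18359224)))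 (b (a (c (b (l 18969960) (l 18522104)) (l 17990240)) (c (b (l 20155784) (l 19634928)) (c (l 18680376) (l 17921472)))) (a (b (c (l 17987688) (l 18010168)) (l 18049528)) (c (b (l 19080768) (l 18657112)) (c (l 17959592) (l 17762432)))))))) (a (b (a (l 3) (b (a (l 17452144) (l 17779224)) (a (l 17352344) (l 17417112)))) (a (l 2) (a (l 2) (l 1515151503223)))) (a (b (b (l 18163040) (l 17987160)) (a (l 17623960) (l 17947960))) (a (b (b (l 18291688) (l 18363288)) (l 18091840)) (b (b (b (c (l 18138656) (l 17810952)) (l 17847888)) (l 18233168)) (b (a (l 18345944) (l 18310408)) (l 18283008))))))), by decide +kernel⟩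

theorem c_pm_202 : CertF 0 536870912 1073741824 536870912 33554432 16777216 false true false .pp 2 0 2
    ndF0q2 ndF3q2 pcF0 Cut.none Ext.none :=
  certFK1 (fam := false) (s1 := true) (s2 := false) (a := 2) (b := 0) (c := 2) (cn := .pp) (n1 := ndF0q2) (n2 := ndF3q2) (pc := pcF0) (cut := Cut.none) (xt := Ext.none) (P1 := 0) (W1 := 536870912) (P2 := 1073741824) (W2 := 536870912) (P3 := 33554432) (W3 := 16777216)
    rfl rfl rfl (fun _ => rfl) k0_pm_202

noncomputable def f_pm_203 : ℕ → ℕ → ℕ → ℕ → Bool := onCell 0 536870912 0 1230186008 33554432 16777216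
    (rowFK 0 false true false .up 2 0 3 (qsf 0 536870912 0 1230186008 0) ndF0q2 ndF3q3 pcF0 Cut.none Ext.none)

def k0_pm_203 : ∃ t, chk3 f_pm_203 t 1 1 1 = true :=
  ⟨(b (l 2) (b (l 2) (a (a (l 3) (b (a (l 3) (b (l 2) (l 243371499655))) (b (a (l 3) (l 190221840247)) (a (l 257330322359) (l 17699680))))) (b (l 2) (a (b (l 174049967191) (l 18575488)) (b (l 18779376) (l 18957248))))))), by decide +kernel⟩

theorem c_pm_203 : CertF 0 536870912 0 1230186008 33554432 16777216 false true false .up 2 0 3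
    ndF0q2 ndF3q3 pcF0 Cut.none Ext.none :=
  certFK0 (fam := false) (s1 := true) (s2 := false) (a := 2) (b := 0) (c := 3) (cn := .up) (n1 := ndF0q2) (n2 := ndF3q3) (pc := pcF0) (cut := Cut.none) (xt := Ext.none) (P1 := 0) (W1 := 536870912) (P2 := 0) (W2 := 1230186008) (P3 := 33554432) (W3 := 16777216)
    rfl rfl rfl k0_pm_203

noncomputable def cut_pm_213 : Cut := Cut.of [[⟨0, 1, 0, 7061502⟩, ⟨1, 1, 0, 7061502⟩, ⟨2, 2, 0, 184626⟩]]

noncomputable def f_pm_213 : ℕ → ℕ → ℕ → ℕ → Bool := onCell 0 536870912 0 1230186008 33554432 16777216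
    (rowFK 0 false true false .pnn 2 1 3 (qsf 0 536870912 0 1230186008 1) ndF0q2 ndF3q3 pcF1 cut_pm_213 Ext.none)

def k0_pm_213 : ∃ t, chk3 f_pm_213 t 1 1 1 = true :=
  ⟨(b (a (l 3) (a (a (l 3) (b (l 3) (b (l 3) (b (l 3) (l 263235289623))))) (b (a (b (l 3) (a (l 3) (b (l 3) (l 326048565751)))) (b (a (b (l 3) (a (l 3) (b (l 3) (l 310479215303)))) (b (a (b (l 3) (a (l 3) (b (l 3) (l 300278645111)))) (b (a (b (l 3) (a (l 3) (b (l 3) (a (l 3) (b (l 3) (l 290614943271)))))) (b (l 6) (a (b (b (l 6) (a (a (l 3) (l 287930585015)) (l 273435072471))) (a (l 276656298615) (l 16777944))) (l 16777936)))) (a (b (a (l 297057404247) (b (l 281488138455) (l 273435069543))) (l 273971953271)) (l 16779520)))) (a (b (a (l 304036728343) (l 278266927447)) (l 271824496631)) (l 16806480)))) (a (b (a (l 317458545463) (b (l 273435128103) (l 266455799639))) (a (l 272898316167) (l 16822128))) (b (l 16819696) (l 16819912))))) (a (b (a (b (l 3) (l 317995724007)) (b (l 277193402119) (l 262697972519)))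 (a (b (l 261087574615) (l 17137912)) (l 17127264))) (b (a (l 16919864) (l 16867928)) (l 17125184)))))) (b (a (l 3) (a (b (a (l 3) (a (l 322828185159) (l 229949585031))) (a (b (l 335176002951) (l 219748790407)) (b (l 17227952) (l 17205424)))) (b (a (b (l 17184624) (l 17227680)) (l 17109984)) (a (l 17232920) (l 17160168))))) (a (a (l 3) (b (a (l 3) (b (l 3) (l 258940790743))) (b (a (l 1) (l 17532840)) (l 1)))) (b (a (a (b (l 17311088) (l 17315608)) (l 17405432)) (a (l 17173864) (a (l 17138848) (l 17108440)))) (a (b (a (l 17315896) (l 17221744)) (l 1)) (b (a (l 17145936) (l 17206496)) (a (l 17161888) (l 17347856)))))))), by decide +kernel⟩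

theorem c_pm_213 : CertF 0 536870912 0 1230186008 33554432 16777216 false true false .pnn 2 1 3
    ndF0q2 ndF3q3 pcF1 cut_pm_213 Ext.none :=
  certFK0 (fam := false) (s1 := true) (s2 := false) (a := 2) (b := 1) (c := 3) (cn := .pnn) (n1 := ndF0q2) (n2 := ndF3q3) (pc := pcF1) (cut := cut_pm_213) (xt := Ext.none) (P1 := 0) (W1 := 536870912) (P2 := 0) (W2 := 1230186008) (P3 := 33554432) (W3 := 16777216)
    rfl rfl rfl k0_pm_213

noncomputable def f_mm_001 : ℕ → ℕ → ℕ → ℕ → Bool := onCell 0 536870912 0 536870912 33554432 16777216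
    (rowFK 1 false false false .up 0 0 1 (qsf 0 536870912 536870912 536870912 0) ndF0q0 ndF3q1 pcF0 Cut.none Ext.none)

def k0_mm_001 : ∃ t, chk3 f_mm_001 t 1 1 1 = true :=
  ⟨(l 3), by decide +kernel⟩

theorem c_mm_001 : CertF 0 536870912 536870912 536870912 33554432 16777216 false false false .up 0 0 1
    ndF0q0 ndF3q1 pcF0 Cut.none Ext.none :=
  certFK1 (fam := false) (s1 := false) (s2 := false) (a := 0) (b := 0) (c := 1) (cn := .up) (n1 := ndF0q0) (n2 := ndF3q1) (pc := pcF0) (cut := Cut.none) (xt := Ext.none) (P1 := 0) (W1 := 536870912) (P2 := 536870912) (W2 := 536870912) (P3 := 33554432) (W3 := 16777216)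
    rfl rfl rfl (fun _ => rfl) k0_mm_001

noncomputable def f_mm_011 : ℕ → ℕ → ℕ → ℕ → Bool := onCell 0 536870912 536870912 536870912 33554432 16777216
    (rowFK 1 false false false .pnn 0 1 1 (qsf 0 536870912 536870912 536870912 1) ndF0q0 ndF3q1 pcF1 Cut.none Ext.none)

def k0_mm_011 : ∃ t, chk3 f_mm_011 t 1 1 1 = true :=
  ⟨(l 5), by decide +kernel⟩

theorem c_mm_011 : CertF 0 536870912 536870912 536870912 33554432 16777216 false false false .pnn 0 1 1
    ndF0q0 ndF3q1 pcF1 Cut.none Ext.none :=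
  certFK1 (fam := false) (s1 := false) (s2 := false) (a := 0) (b := 1) (c := 1) (cn := .pnn) (n1 := ndF0q0) (n2 := ndF3q1) (pc := pcF1) (cut := Cut.none) (xt := Ext.none) (P1 := 0) (W1 := 536870912) (P2 := 536870912) (W2 := 536870912) (P3 := 33554432) (W3 := 16777216)
    rfl rfl rfl (fun _ => rfl) k0_mm_011

noncomputable def f_mm_012 : ℕ → ℕ → ℕ → ℕ → Bool := onCell 0 536870912 1073741824 536870912 33554432 16777216
    (rowFK 0 false false false .pnp 0 1 2 (qsf 0 536870912 1073741824 536870912 1) ndF0q0 ndF3q2 pcF1 Cut.none Ext.none)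

def k0_mm_012 : ∃ t, chk3 f_mm_012 t 1 1 1 = true :=
  ⟨(l 5), by decide +kernel⟩

theorem c_mm_012 : CertF 0 536870912 1073741824 536870912 33554432 16777216 false false false .pnp 0 1 2
    ndF0q0 ndF3q2 pcF1 Cut.none Ext.none :=
  certFK0 (fam := false) (s1 := false) (s2 := false) (a := 0) (b := 1) (c := 2) (cn := .pnp) (n1 := ndF0q0) (n2 := ndF3q2) (pc := pcF1) (cut := Cut.none) (xt := Ext.none) (P1 := 0) (W1 := 536870912) (P2 := 1073741824) (W2 := 536870912) (P3 := 33554432) (W3 := 16777216)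
    rfl rfl rfl k0_mm_012

noncomputable def f_mm_022 : ℕ → ℕ → ℕ → ℕ → Bool := onCell 0 536870912 1073741824 536870912 33554432 16777216
    (rowFK 0 false false false .pp 0 2 2 (qsf 0 536870912 1073741824 536870912 2) ndF0q0 ndF3q2 pcF2 Cut.none Ext.none)

def k0_mm_022 : ∃ t, chk3 f_mm_022 t 1 1 1 = true :=
  ⟨(l 5), by decide +kernel⟩

theorem c_mm_022 : CertF 0 536870912 1073741824 536870912 33554432 16777216 false false false .pp 0 2 2
    ndF0q0 ndF3q2 pcF2 Cut.none Ext.none :=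
  certFK0 (fam := false) (s1 := false) (s2 := false) (a := 0) (b := 2) (c := 2) (cn := .pp) (n1 := ndF0q0) (n2 := ndF3q2) (pc := pcF2) (cut := Cut.none) (xt := Ext.none) (P1 := 0) (W1 := 536870912) (P2 := 1073741824) (W2 := 536870912) (P3 := 33554432) (W3 := 16777216)
    rfl rfl rfl k0_mm_022

noncomputable def f_mm_023 : ℕ → ℕ → ℕ → ℕ → Bool := onCell 0 536870912 0 1230186008 33554432 16777216
    (rowFK 0 false false false .up 0 2 3 (qsf 0 536870912 0 1230186008 2) ndF0q0 ndF3q3 pcF2 Cut.none Ext.none)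

def k0_mm_023 : ∃ t, chk3 f_mm_023 t 1 1 1 = true :=
  ⟨(l 5), by decide +kernel⟩

theorem c_mm_023 : CertF 0 536870912 0 1230186008 33554432 16777216 false false false .up 0 2 3
    ndF0q0 ndF3q3 pcF2 Cut.none Ext.none :=
  certFK0 (fam := false) (s1 := false) (s2 := false) (a := 0) (b := 2) (c := 3) (cn := .up) (n1 := ndF0q0) (n2 := ndF3q3) (pc := pcF2) (cut := Cut.none) (xt := Ext.none) (P1 := 0) (W1 := 536870912) (P2 := 0) (W2 := 1230186008) (P3 := 33554432) (W3 := 16777216)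
    rfl rfl rfl k0_mm_023

noncomputable def f_mm_033 : ℕ → ℕ → ℕ → ℕ → Bool := onCell 0 536870912 0 1230186008 33554432 16777216
    (rowFK 0 false false false .pnn 0 3 3 (qsf 0 536870912 0 1230186008 3) ndF0q0 ndF3q3 pcF3 Cut.none Ext.none)

def k0_mm_033 : ∃ t, chk3 f_mm_033 t 1 1 1 = true :=
  ⟨(l 5), by decide +kernel⟩

theorem c_mm_033 : CertF 0 536870912 0 1230186008 33554432 16777216 false false false .pnn 0 3 3
    ndF0q0 ndF3q3 pcF3 Cut.none Ext.none :=
  certFK0 (fam := false) (s1 := false) (s2 := false) (a := 0) (b := 3) (c := 3) (cn := .pnn) (n1 := ndF0q0) (n2 := ndF3q3) (pc := pcF3) (cut := Cut.none) (xt := Ext.none) (P1 := 0) (W1 := 536870912) (P2 := 0) (W2 := 1230186008) (P3 := 33554432) (W3 := 16777216)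
    rfl rfl rfl k0_mm_033

noncomputable def cut_mm_101 : Cut := Cut.of [[⟨0, 1, 0, 33554432⟩, ⟨1, 0, 0, 33554432⟩, ⟨2, 1, 0, 33554432⟩]]

noncomputable def f_mm_101 : ℕ → ℕ → ℕ → ℕ → Bool := onCell 536870912 536870912 0 536870912 33554432 16777216
    (rowFK 1 false false false .npn 1 0 1 (qsf 536870912 536870912 536870912 536870912 0) ndF0q1 ndF3q1 pcF0 cut_mm_101 Ext.none)

def k0_mm_101 : ∃ t, chk3 f_mm_101 t 1 1 1 = true :=
  ⟨(a (l 3) (b (a (l 3) (b (b (a (l 3) (a (l 3) (b (a (l 3) (b (l 6) (l 3))) (l 3)))) (l 3)) (l 3))) (l 3))), by decide +kernel⟩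

theorem c_mm_101 : CertF 536870912 536870912 536870912 536870912 33554432 16777216 false false false .npn 1 0 1
    ndF0q1 ndF3q1 pcF0 cut_mm_101 Ext.none :=
  certFK1 (fam := false) (s1 := false) (s2 := false) (a := 1) (b := 0) (c := 1) (cn := .npn) (n1 := ndF0q1) (n2 := ndF3q1) (pc := pcF0) (cut := cut_mm_101) (xt := Ext.none) (P1 := 536870912) (W1 := 536870912) (P2 := 536870912) (W2 := 536870912) (P3 := 33554432) (W3 := 16777216)
    rfl rfl rfl (fun _ => rfl) k0_mm_101

noncomputable def f_mm_102 : ℕ → ℕ → ℕ → ℕ → Bool := onCell 536870912 536870912 1073741824 536870912 33554432 16777216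
    (rowFK 0 false false false .npp 1 0 2 (qsf 536870912 536870912 1073741824 536870912 0) ndF0q1 ndF3q2 pcF0 Cut.none Ext.none)

def k0_mm_102 : ∃ t, chk3 f_mm_102 t 1 1 1 = true :=
  ⟨(l 3), by decide +kernel⟩

theorem c_mm_102 : CertF 536870912 536870912 1073741824 536870912 33554432 16777216 false false false .npp 1 0 2
    ndF0q1 ndF3q2 pcF0 Cut.none Ext.none :=
  certFK0 (fam := false) (s1 := false) (s2 := false) (a := 1) (b := 0) (c := 2) (cn := .npp) (n1 := ndF0q1) (n2 := ndF3q2) (pc := pcF0) (cut := Cut.none) (xt := Ext.none) (P1 := 536870912) (W1 := 536870912) (P2 := 1073741824) (W2 := 536870912) (P3 := 33554432) (W3 := 16777216)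
    rfl rfl rfl k0_mm_102

noncomputable def f_mm_112 : ℕ → ℕ → ℕ → ℕ → Bool := onCell 536870912 536870912 1073741824 536870912 33554432 16777216
    (rowFK 0 false false false .dn 1 1 2 (qsf 536870912 536870912 1073741824 536870912 1) ndF0q1 ndF3q2 pcF1 Cut.none Ext.none)

def k0_mm_112 : ∃ t, chk3 f_mm_112 t 1 1 1 = true :=
  ⟨(l 3), by decide +kernel⟩

theorem c_mm_112 : CertF 536870912 536870912 1073741824 536870912 33554432 16777216 false false false .dn 1 1 2
    ndF0q1 ndF3q2 pcF1 Cut.none Ext.none :=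
  certFK0 (fam := false) (s1 := false) (s2 := false) (a := 1) (b := 1) (c := 2) (cn := .dn) (n1 := ndF0q1) (n2 := ndF3q2) (pc := pcF1) (cut := Cut.none) (xt := Ext.none) (P1 := 536870912) (W1 := 536870912) (P2 := 1073741824) (W2 := 536870912) (P3 := 33554432) (W3 := 16777216)
    rfl rfl rfl k0_mm_112

noncomputable def f_mm_113 : ℕ → ℕ → ℕ → ℕ → Bool := onCell 536870912 536870912 0 1230186008 33554432 16777216
    (rowFK 0 false false false .nn 1 1 3 (qsf 536870912 536870912 0 1230186008 1) ndF0q1 ndF3q3 pcF1 Cut.none Ext.none)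

def k0_mm_113 : ∃ t, chk3 f_mm_113 t 1 1 1 = true :=
  ⟨(b (l 5) (a (l 5) (b (l 5) (l 3)))), by decide +kernel⟩

theorem c_mm_113 : CertF 536870912 536870912 0 1230186008 33554432 16777216 false false false .nn 1 1 3
    ndF0q1 ndF3q3 pcF1 Cut.none Ext.none :=
  certFK0 (fam := false) (s1 := false) (s2 := false) (a := 1) (b := 1) (c := 3) (cn := .nn) (n1 := ndF0q1) (n2 := ndF3q3) (pc := pcF1) (cut := Cut.none) (xt := Ext.none) (P1 := 536870912) (W1 := 536870912) (P2 := 0) (W2 := 1230186008) (P3 := 33554432) (W3 := 16777216)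
    rfl rfl rfl k0_mm_113

noncomputable def f_mm_123 : ℕ → ℕ → ℕ → ℕ → Bool := onCell 1073741824 536870912 0 1230186008 33554432 16777216
    (rowFK 2 false false false .npn 1 2 3 (qsf 536870912 536870912 0 1230186008 2) ndF0q1 ndF3q3 pcF2 Cut.none Ext.none)

def k0_mm_123 : ∃ t, chk3 f_mm_123 t 1 1 1 = true :=
  ⟨(b (l 5) (l 5)), by decide +kernel⟩

theorem c_mm_123 : CertF 536870912 536870912 0 1230186008 33554432 16777216 false false false .npn 1 2 3
    ndF0q1 ndF3q3 pcF2 Cut.none Ext.none :=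
  certFK2 (fam := false) (s1 := false) (s2 := false) (a := 1) (b := 2) (c := 3) (cn := .npn) (n1 := ndF0q1) (n2 := ndF3q3) (pc := pcF2) (cut := Cut.none) (xt := Ext.none) (P1 := 536870912) (W1 := 536870912) (P2 := 0) (W2 := 1230186008) (P3 := 33554432) (W3 := 16777216)
    rfl rfl rfl (fun _ => rfl) k0_mm_123

noncomputable def f_mm_133 : ℕ → ℕ → ℕ → ℕ → Bool := onCell 1610612736 536870912 0 1230186008 33554432 16777216
    (rowFK 2 false false false .dn 1 3 3 (qsf 536870912 536870912 0 1230186008 3) ndF0q1 ndF3q3 pcF3 Cut.none Ext.none)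

def k0_mm_133 : ∃ t, chk3 f_mm_133 t 1 1 1 = true :=
  ⟨(l 5), by decide +kernel⟩

theorem c_mm_133 : CertF 536870912 536870912 0 1230186008 33554432 16777216 false false false .dn 1 3 3
    ndF0q1 ndF3q3 pcF3 Cut.none Ext.none :=
  certFK2 (fam := false) (s1 := false) (s2 := false) (a := 1) (b := 3) (c := 3) (cn := .dn) (n1 := ndF0q1) (n2 := ndF3q3) (pc := pcF3) (cut := Cut.none) (xt := Ext.none) (P1 := 536870912) (W1 := 536870912) (P2 := 0) (W2 := 1230186008) (P3 := 33554432) (W3 := 16777216)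
    rfl rfl rfl (fun _ => rfl) k0_mm_133

noncomputable def f_mm_202 : ℕ → ℕ → ℕ → ℕ → Bool := onCell 0 536870912 0 536870912 33554432 16777216
    (rowFK 1 false false false .pp 2 0 2 (qsf 0 536870912 1073741824 536870912 0) ndF0q2 ndF3q2 pcF0 Cut.none Ext.none)

def k0_mm_202 : ∃ t, chk3 f_mm_202 t 1 1 1 = true :=
  ⟨(b (l 3) (l 3)), by decide +kernel⟩

theorem c_mm_202 : CertF 0 536870912 1073741824 536870912 33554432 16777216 false false false .pp 2 0 2
    ndF0q2 ndF3q2 pcF0 Cut.none Ext.none :=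
  certFK1 (fam := false) (s1 := false) (s2 := false) (a := 2) (b := 0) (c := 2) (cn := .pp) (n1 := ndF0q2) (n2 := ndF3q2) (pc := pcF0) (cut := Cut.none) (xt := Ext.none) (P1 := 0) (W1 := 536870912) (P2 := 1073741824) (W2 := 536870912) (P3 := 33554432) (W3 := 16777216)
    rfl rfl rfl (fun _ => rfl) k0_mm_202

noncomputable def f_mm_203 : ℕ → ℕ → ℕ → ℕ → Bool := onCell 0 536870912 0 1230186008 33554432 16777216
    (rowFK 0 false false false .up 2 0 3 (qsf 0 536870912 0 1230186008 0) ndF0q2 ndF3q3 pcF0 Cut.none Ext.none)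

def k0_mm_203 : ∃ t, chk3 f_mm_203 t 1 1 1 = true :=
  ⟨(b (l 2) (l 3)), by decide +kernel⟩

theorem c_mm_203 : CertF 0 536870912 0 1230186008 33554432 16777216 false false false .up 2 0 3
    ndF0q2 ndF3q3 pcF0 Cut.none Ext.none :=
  certFK0 (fam := false) (s1 := false) (s2 := false) (a := 2) (b := 0) (c := 3) (cn := .up) (n1 := ndF0q2) (n2 := ndF3q3) (pc := pcF0) (cut := Cut.none) (xt := Ext.none) (P1 := 0) (W1 := 536870912) (P2 := 0) (W2 := 1230186008) (P3 := 33554432) (W3 := 16777216)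
    rfl rfl rfl k0_mm_203

noncomputable def f_mm_213 : ℕ → ℕ → ℕ → ℕ → Bool := onCell 0 536870912 0 1230186008 33554432 16777216
    (rowFK 0 false false false .pnn 2 1 3 (qsf 0 536870912 0 1230186008 1) ndF0q2 ndF3q3 pcF1 Cut.none Ext.none)

def k0_mm_213 : ∃ t, chk3 f_mm_213 t 1 1 1 = true :=
  ⟨(b (a (l 3) (l 5)) (l 3)), by decide +kernel⟩

theorem c_mm_213 : CertF 0 536870912 0 1230186008 33554432 16777216 false false false .pnn 2 1 3
    ndF0q2 ndF3q3 pcF1 Cut.none Ext.none :=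
  certFK0 (fam := false) (s1 := false) (s2 := false) (a := 2) (b := 1) (c := 3) (cn := .pnn) (n1 := ndF0q2) (n2 := ndF3q3) (pc := pcF1) (cut := Cut.none) (xt := Ext.none) (P1 := 0) (W1 := 536870912) (P2 := 0) (W2 := 1230186008) (P3 := 33554432) (W3 := 16777216)
    rfl rfl rfl k0_mm_213

end Pool.Agent.Strip051.G.I1_32_3_64.Tab.C.FB03

namespace Pool.Agent.Strip051.G.I1_32_3_64.Tab.C.FB04

open Pool.Agent.Strip051.PB Pool.Agent.Strip051.PB.T
open Pool.Agent.Strip051.G.I1_32_3_64.Tab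

noncomputable def cut_pp_001 : Cut := Cut.of [[⟨3, 0, 0, 1449551462⟩]]

noncomputable def f_pp_001 : ℕ → ℕ → ℕ → ℕ → Bool := onCell 0 536870912 536870912 536870912 33554432 16777216
    (rowFK 0 false true true .up 0 0 1 (qsf 0 536870912 536870912 536870912 0) ndF0q0 ndF4q1 pcF0 cut_pp_001 Ext.none)

def k0_pp_001 : ∃ t, chk3 f_pp_001 t 1 1 1 = true :=
  ⟨(l 6), by decide +kernel⟩

theorem c_pp_001 : CertF 0 536870912 536870912 536870912 33554432 16777216 false true true .up 0 0 1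
    ndF0q0 ndF4q1 pcF0 cut_pp_001 Ext.none :=
  certFK0 (fam := false) (s1 := true) (s2 := true) (a := 0) (b := 0) (c := 1) (cn := .up) (n1 := ndF0q0) (n2 := ndF4q1) (pc := pcF0) (cut := cut_pp_001) (xt := Ext.none) (P1 := 0) (W1 := 536870912) (P2 := 536870912) (W2 := 536870912) (P3 := 33554432) (W3 := 16777216)
    rfl rfl rfl k0_pp_001

noncomputable def cut_pp_011 : Cut := Cut.of [[⟨3, 0, 0, 1449551462⟩], [⟨0, 0, 0, 33554432⟩, ⟨1, 1, 0, 33554432⟩, ⟨2, 1, 0, 33554432⟩]]

noncomputable def f_pp_011 : ℕ → ℕ → ℕ → ℕ → Bool := onCell 0 536870912 536870912 536870912 33554432 16777216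
    (rowFK 0 false true true .pnn 0 1 1 (qsf 0 536870912 536870912 536870912 1) ndF0q0 ndF4q1 pcF1 cut_pp_011 Ext.none)

def k0_pp_011 : ∃ t, chk3 f_pp_011 t 1 1 1 = true :=
  ⟨(l 6), by decide +kernel⟩

theorem c_pp_011 : CertF 0 536870912 536870912 536870912 33554432 16777216 false true true .pnn 0 1 1
    ndF0q0 ndF4q1 pcF1 cut_pp_011 Ext.none :=
  certFK0 (fam := false) (s1 := true) (s2 := true) (a := 0) (b := 1) (c := 1) (cn := .pnn) (n1 := ndF0q0) (n2 := ndF4q1) (pc := pcF1) (cut := cut_pp_011) (xt := Ext.none) (P1 := 0) (W1 := 536870912) (P2 := 536870912) (W2 := 536870912) (P3 := 33554432) (W3 := 16777216)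
    rfl rfl rfl k0_pp_011

noncomputable def cut_pp_012 : Cut := Cut.of [[⟨3, 0, 0, 1449551462⟩], [⟨0, 0, 0, 33554432⟩, ⟨1, 1, 0, 33554432⟩, ⟨2, 1, 0, 33554432⟩]]

noncomputable def f_pp_012 : ℕ → ℕ → ℕ → ℕ → Bool := onCell 0 536870912 536870912 536870912 33554432 16777216
    (rowFK 1 false true true .pnp 0 1 2 (qsf 0 536870912 1073741824 536870912 1) ndF0q0 ndF4q2 pcF1 cut_pp_012 Ext.none)

def k0_pp_012 : ∃ t, chk3 f_pp_012 t 1 1 1 = true :=
  ⟨(l 6), by decide +kernel⟩

theorem c_pp_012 : CertF 0 536870912 1073741824 536870912 33554432 16777216 false true true .pnp 0 1 2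
    ndF0q0 ndF4q2 pcF1 cut_pp_012 Ext.none :=
  certFK1 (fam := false) (s1 := true) (s2 := true) (a := 0) (b := 1) (c := 2) (cn := .pnp) (n1 := ndF0q0) (n2 := ndF4q2) (pc := pcF1) (cut := cut_pp_012) (xt := Ext.none) (P1 := 0) (W1 := 536870912) (P2 := 1073741824) (W2 := 536870912) (P3 := 33554432) (W3 := 16777216)
    rfl rfl rfl (fun _ => rfl) k0_pp_012

noncomputable def cut_pp_022 : Cut := Cut.of [[⟨3, 0, 0, 1449551462⟩], [⟨0, 0, 0, 16777216⟩, ⟨1, 1, 0, 16777216⟩, ⟨2, 1, 0, 16777216⟩]]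

noncomputable def f_pp_022 : ℕ → ℕ → ℕ → ℕ → Bool := onCell 0 536870912 1073741824 536870912 33554432 16777216
    (rowFK 0 false true true .pp 0 2 2 (qsf 0 536870912 1073741824 536870912 2) ndF0q0 ndF4q2 pcF2 cut_pp_022 Ext.none)

def k0_pp_022 : ∃ t, chk3 f_pp_022 t 1 1 1 = true :=
  ⟨(a (b (l 6) (a (b (a (l 19149896) (b (l 6) (l 18400760))) (l 18812488)) (b (l 6) (a (l 18144000) (l 6))))) (l 6)), by decide +kernel⟩

theorem c_pp_022 : CertF 0 536870912 1073741824 536870912 33554432 16777216 false true true .pp 0 2 2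
    ndF0q0 ndF4q2 pcF2 cut_pp_022 Ext.none :=
  certFK0 (fam := false) (s1 := true) (s2 := true) (a := 0) (b := 2) (c := 2) (cn := .pp) (n1 := ndF0q0) (n2 := ndF4q2) (pc := pcF2) (cut := cut_pp_022) (xt := Ext.none) (P1 := 0) (W1 := 536870912) (P2 := 1073741824) (W2 := 536870912) (P3 := 33554432) (W3 := 16777216)
    rfl rfl rfl k0_pp_022

noncomputable def cut_pp_023 : Cut := Cut.of [[⟨3, 0, 0, 1449551462⟩]]

noncomputable def f_pp_023 : ℕ → ℕ → ℕ → ℕ → Bool := onCell 0 536870912 0 1230186008 33554432 16777216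
    (rowFK 0 false true true .up 0 2 3 (qsf 0 536870912 0 1230186008 2) ndF0q0 ndF4q3 pcF2 cut_pp_023 Ext.none)

def k0_pp_023 : ∃ t, chk3 f_pp_023 t 1 1 1 = true :=
  ⟨(a (b (l 2) (b (a (l 2) (l 18099368)) (a (b (l 2) (l 18691592)) (b (l 18082368) (a (l 18185448) (l 17759176)))))) (b (a (l 2) (b (b (l 17574536) (l 17597416)) (l 17540872))) (b (a (l 17745264) (b (l 17418248) (l 17309432))) (a (b (l 17380768) (a (l 17317272) (l 6))) (b (a (l 17110504) (l 6)) (l 6)))))), by decide +kernel⟩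

theorem c_pp_023 : CertF 0 536870912 0 1230186008 33554432 16777216 false true true .up 0 2 3
    ndF0q0 ndF4q3 pcF2 cut_pp_023 Ext.none :=
  certFK0 (fam := false) (s1 := true) (s2 := true) (a := 0) (b := 2) (c := 3) (cn := .up) (n1 := ndF0q0) (n2 := ndF4q3) (pc := pcF2) (cut := cut_pp_023) (xt := Ext.none) (P1 := 0) (W1 := 536870912) (P2 := 0) (W2 := 1230186008) (P3 := 33554432) (W3 := 16777216)
    rfl rfl rfl k0_pp_023

end Pool.Agent.Strip051.G.I1_32_3_64.Tab.C.FB04

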