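import Pool.Agent.Strip051.G.I1_32_3_64.Tab
import Pool.Agent.Strip051.PB.RowK

/-! # Certificates F3 (generated) -/

set_option linter.all false
set_option maxRecDepth 100000

namespace Pool.Agent.Strip051.G.I1_32_3_64.Tab.C.FB04

open Pool.Agent.Strip051.PB Pool.Agent.Strip051.PB.T
open Pool.Agent.Strip051.G.I1_32_3_64.Tab

noncomputable def cut_pp_033 : Cut := Cut.of [[⟨3, 0, 0, 1449551462⟩]]

noncomputable def f_pp_033 : ℕ → ℕ → ℕ → ℕ → Bool := onCell 1610612736 536870912 0 1230186008 33554432 16777216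
    (rowFK 2 false true true .pnn 0 3 3 (qsf 0 536870912 0 1230186008 3) ndF0q0 ndF4q3 pcF3 cut_pp_033 Ext.none)

def k0_pp_033 : ∃ t, chk3 f_pp_033 t 1 1 1 = true :=
  ⟨(b (b (a (a (b (l 16963240) (l 16893824)) (a (l 17192696) (l 17273232))) (a (l 16880233015) (l 4))) (a (a (b (l 17177248) (a (l 17608000) (l 17642808))) (a (b (l 17088576) (l 17718944)) (b (l 17323192) (l 17800704)))) (a (a (l 17905200) (l 18118136)) (a (l 18223536) (a (l 18348664) (l 4)))))) (b (a (a (b (b (a (l 17529728) (l 17957192)) (l 17549776)) (a (b (l 17354648) (l 17282136)) (b (l 17295344) (l 17224048)))) (b (a (b (l 18254656) (l 18342016)) (l 18293816)) (b (a (l 17920024) (l 18550488)) (a (l 17533624) (l 17958360))))) (a (b (a (l 18527008) (l 18445320)) (a (b (l 18725744) (l 18847480)) (l 153583243639))) (a (b (l 18511616) (l 1)) (l 1)))) (a (a (b (b (l 17641568) (l 18364328)) (b (l 19068048) (l 19724440))) (b (b (a (l 17939192) (l 18111392)) (l 18779880)) (b (l 19479128) (l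 1)))) (l 1)))), by decide +kernel⟩

theorem c_pp_033 : CertF 0 536870912 0 1230186008 33554432 16777216 false true true .pnn 0 3 3
    ndF0q0 ndF4q3 pcF3 cut_pp_033 Ext.none :=
  certFK2 (fam := false) (s1 := true) (s2 := true) (a := 0) (b := 3) (c := 3) (cn := .pnn) (n1 := ndF0q0) (n2 := ndF4q3) (pc := pcF3) (cut := cut_pp_033) (xt := Ext.none) (P1 := 0) (W1 := 536870912) (P2 := 0) (W2 := 1230186008) (P3 := 33554432) (W3 := 16777216)
    rfl rfl rfl (fun _ => rfl) k0_pp_033

noncomputable def cut_pp_101 : Cut := Cut.of [[⟨3, 0, 0, 1449551462⟩]]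

noncomputable def f_pp_101 : ℕ → ℕ → ℕ → ℕ → Bool := onCell 536870912 536870912 0 536870912 33554432 16777216
    (rowFK 1 false true true .npn 1 0 1 (qsf 536870912 536870912 536870912 536870912 0) ndF0q1 ndF4q1 pcF0 cut_pp_101 Ext.none)

def k0_pp_101 : ∃ t, chk3 f_pp_101 t 1 1 1 = true :=
  ⟨(l 6), by decide +kernel⟩

theorem c_pp_101 : CertF 536870912 536870912 536870912 536870912 33554432 16777216 false true true .npn 1 0 1
    ndF0q1 ndF4q1 pcF0 cut_pp_101 Ext.none :=
  certFK1 (fam := false) (s1 := true) (s2 := true) (a := 1) (b := 0) (c := 1) (cn := .npn) (n1 := ndF0q1) (n2 := ndF4q1) (pc := pcF0) (cut := cut_pp_101) (xt := Ext.none) (P1 := 536870912) (W1 := 536870912) (P2 := 536870912) (W2 := 536870912) (P3 := 33554432) (W3 := 16777216)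
    rfl rfl rfl (fun _ => rfl) k0_pp_101

noncomputable def cut_pp_102 : Cut := Cut.of [[⟨3, 0, 0, 1449551462⟩]]

noncomputable def f_pp_102 : ℕ → ℕ → ℕ → ℕ → Bool := onCell 536870912 536870912 1073741824 536870912 33554432 16777216
    (rowFK 0 false true true .npp 1 0 2 (qsf 536870912 536870912 1073741824 536870912 0) ndF0q1 ndF4q2 pcF0 cut_pp_102 Ext.none)

def k0_pp_102 : ∃ t, chk3 f_pp_102 t 1 1 1 = true :=
  ⟨(l 6), by decide +kernel⟩

theorem c_pp_102 : CertF 536870912 536870912 1073741824 536870912 33554432 16777216 false true true .npp 1 0 2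
    ndF0q1 ndF4q2 pcF0 cut_pp_102 Ext.none :=
  certFK0 (fam := false) (s1 := true) (s2 := true) (a := 1) (b := 0) (c := 2) (cn := .npp) (n1 := ndF0q1) (n2 := ndF4q2) (pc := pcF0) (cut := cut_pp_102) (xt := Ext.none) (P1 := 536870912) (W1 := 536870912) (P2 := 1073741824) (W2 := 536870912) (P3 := 33554432) (W3 := 16777216)
    rfl rfl rfl k0_pp_102

noncomputable def cut_pp_112 : Cut := Cut.of [[⟨3, 0, 0, 1449551462⟩]]

noncomputable def f_pp_112 : ℕ → ℕ → ℕ → ℕ → Bool := onCell 536870912 536870912 1073741824 536870912 33554432 16777216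
    (rowFK 0 false true true .dn 1 1 2 (qsf 536870912 536870912 1073741824 536870912 1) ndF0q1 ndF4q2 pcF1 cut_pp_112 Ext.none)

def k0_pp_112 : ∃ t, chk3 f_pp_112 t 1 1 1 = true :=
  ⟨(l 6), by decide +kernel⟩

theorem c_pp_112 : CertF 536870912 536870912 1073741824 536870912 33554432 16777216 false true true .dn 1 1 2
    ndF0q1 ndF4q2 pcF1 cut_pp_112 Ext.none :=
  certFK0 (fam := false) (s1 := true) (s2 := true) (a := 1) (b := 1) (c := 2) (cn := .dn) (n1 := ndF0q1) (n2 := ndF4q2) (pc := pcF1) (cut := cut_pp_112) (xt := Ext.none) (P1 := 536870912) (W1 := 536870912) (P2 := 1073741824) (W2 := 536870912) (P3 := 33554432) (W3 := 16777216)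
    rfl rfl rfl k0_pp_112

noncomputable def cut_pp_113 : Cut := Cut.of [[⟨3, 0, 0, 1449551462⟩], [⟨0, 1, 0, 7061502⟩, ⟨1, 1, 0, 7061502⟩, ⟨2, 2, 0, 184626⟩]]

noncomputable def f_pp_113 : ℕ → ℕ → ℕ → ℕ → Bool := onCell 536870912 536870912 0 1230186008 33554432 16777216
    (rowFK 0 false true true .nn 1 1 3 (qsf 536870912 536870912 0 1230186008 1) ndF0q1 ndF4q3 pcF1 cut_pp_113 Ext.none)

def k0_pp_113 : ∃ t, chk3 f_pp_113 t 1 1 1 = true :=
  ⟨(b (a (l 2) (a (l 2) (b (a (l 2) (l 6)) (l 6)))) (b (a (a (l 2) (l 6)) (l 6)) (l 6))), by decide +kernel⟩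

theorem c_pp_113 : CertF 536870912 536870912 0 1230186008 33554432 16777216 false true true .nn 1 1 3
    ndF0q1 ndF4q3 pcF1 cut_pp_113 Ext.none :=
  certFK0 (fam := false) (s1 := true) (s2 := true) (a := 1) (b := 1) (c := 3) (cn := .nn) (n1 := ndF0q1) (n2 := ndF4q3) (pc := pcF1) (cut := cut_pp_113) (xt := Ext.none) (P1 := 536870912) (W1 := 536870912) (P2 := 0) (W2 := 1230186008) (P3 := 33554432) (W3 := 16777216)
    rfl rfl rfl k0_pp_113

noncomputable def cut_pp_123 : Cut := Cut.of [[⟨3, 0, 0, 1449551462⟩], [⟨0, 1, 0, 7061502⟩, ⟨1, 1, 0, 7061502⟩, ⟨2, 2, 0, 184626⟩]]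

noncomputable def f_pp_123 : ℕ → ℕ → ℕ → ℕ → Bool := onCell 1073741824 536870912 0 1230186008 33554432 16777216
    (rowFK 2 false true true .npn 1 2 3 (qsf 536870912 536870912 0 1230186008 2) ndF0q1 ndF4q3 pcF2 cut_pp_123 Ext.none)

def k0_pp_123 : ∃ t, chk3 f_pp_123 t 1 1 1 = true :=
  ⟨(a (b (b (a (a (l 6) (a (l 6) (b (l 17022184) (l 6)))) (a (b (l 17213600) (l 17220936)) (l 17380024))) (b (a (l 6) (a (l 6) (l 17224360))) (l 6))) (l 6)) (b (b (a (a (l 17378448) (l 17400720)) (a (l 17508528) (l 17604896))) (a (b (a (l 17260136) (l 17311576)) (a (l 17127184) (l 17312976))) (b (l 17526000) (l 17423776)))) (b (a (b (a (l 17169664) (l 17330728)) (a (l 6) (l 17295272))) (b (l 17558872) (l 1))) (l 1)))), by decide +kernel⟩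

theorem c_pp_123 : CertF 536870912 536870912 0 1230186008 33554432 16777216 false true true .npn 1 2 3
    ndF0q1 ndF4q3 pcF2 cut_pp_123 Ext.none :=
  certFK2 (fam := false) (s1 := true) (s2 := true) (a := 1) (b := 2) (c := 3) (cn := .npn) (n1 := ndF0q1) (n2 := ndF4q3) (pc := pcF2) (cut := cut_pp_123) (xt := Ext.none) (P1 := 536870912) (W1 := 536870912) (P2 := 0) (W2 := 1230186008) (P3 := 33554432) (W3 := 16777216)
    rfl rfl rfl (fun _ => rfl) k0_pp_123

noncomputable def cut_pp_133 : Cut := Cut.of [[⟨3, 0, 0, 1449551462⟩]]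

noncomputable def f_pp_133 : ℕ → ℕ → ℕ → ℕ → Bool := onCell 536870912 536870912 0 1230186008 33554432 16777216
    (rowFK 0 false true true .dn 1 3 3 (qsf 536870912 536870912 0 1230186008 3) ndF0q1 ndF4q3 pcF3 cut_pp_133 Ext.none)

def k0_pp_133 : ∃ t, chk3 f_pp_133 t 1 1 1 = true :=
  ⟨(b (b (a (a (b (l 3582037089335) (l 1)) (l 1)) (l 1)) (l 1)) (l 1)), by decide +kernel⟩

theorem c_pp_133 : CertF 536870912 536870912 0 1230186008 33554432 16777216 false true true .dn 1 3 3
    ndF0q1 ndF4q3 pcF3 cut_pp_133 Ext.none :=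
  certFK0 (fam := false) (s1 := true) (s2 := true) (a := 1) (b := 3) (c := 3) (cn := .dn) (n1 := ndF0q1) (n2 := ndF4q3) (pc := pcF3) (cut := cut_pp_133) (xt := Ext.none) (P1 := 536870912) (W1 := 536870912) (P2 := 0) (W2 := 1230186008) (P3 := 33554432) (W3 := 16777216)
    rfl rfl rfl k0_pp_133

noncomputable def cut_pp_202 : Cut := Cut.of [[⟨3, 0, 0, 1449551462⟩]]

noncomputable def f_pp_202 : ℕ → ℕ → ℕ → ℕ → Bool := onCell 0 536870912 1073741824 536870912 33554432 16777216
    (rowFK 0 false true true .pp 2 0 2 (qsf 0 536870912 1073741824 536870912 0) ndF0q2 ndF4q2 pcF0 cut_pp_202 Ext.none)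

def k0_pp_202 : ∃ t, chk3 f_pp_202 t 1 1 1 = true :=
  ⟨(l 5), by decide +kernel⟩

theorem c_pp_202 : CertF 0 536870912 1073741824 536870912 33554432 16777216 false true true .pp 2 0 2
    ndF0q2 ndF4q2 pcF0 cut_pp_202 Ext.none :=
  certFK0 (fam := false) (s1 := true) (s2 := true) (a := 2) (b := 0) (c := 2) (cn := .pp) (n1 := ndF0q2) (n2 := ndF4q2) (pc := pcF0) (cut := cut_pp_202) (xt := Ext.none) (P1 := 0) (W1 := 536870912) (P2 := 1073741824) (W2 := 536870912) (P3 := 33554432) (W3 := 16777216)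
    rfl rfl rfl k0_pp_202

noncomputable def cut_pp_203 : Cut := Cut.of [[⟨3, 0, 0, 1449551462⟩]]

noncomputable def f_pp_203 : ℕ → ℕ → ℕ → ℕ → Bool := onCell 0 536870912 0 1230186008 33554432 16777216
    (rowFK 0 false true true .up 2 0 3 (qsf 0 536870912 0 1230186008 0) ndF0q2 ndF4q3 pcF0 cut_pp_203 Ext.none)

def k0_pp_203 : ∃ t, chk3 f_pp_203 t 1 1 1 = true :=
  ⟨(b (l 2) (a (l 5) (l 6))), by decide +kernel⟩

theorem c_pp_203 : CertF 0 536870912 0 1230186008 33554432 16777216 false true true .up 2 0 3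
    ndF0q2 ndF4q3 pcF0 cut_pp_203 Ext.none :=
  certFK0 (fam := false) (s1 := true) (s2 := true) (a := 2) (b := 0) (c := 3) (cn := .up) (n1 := ndF0q2) (n2 := ndF4q3) (pc := pcF0) (cut := cut_pp_203) (xt := Ext.none) (P1 := 0) (W1 := 536870912) (P2 := 0) (W2 := 1230186008) (P3 := 33554432) (W3 := 16777216)
    rfl rfl rfl k0_pp_203

noncomputable def cut_pp_213 : Cut := Cut.of [[⟨3, 0, 0, 1449551462⟩], [⟨0, 1, 0, 7061502⟩, ⟨1, 1, 0, 7061502⟩, ⟨2, 2, 0, 184626⟩]]

noncomputable def f_pp_213 : ℕ → ℕ → ℕ → ℕ → Bool := onCell 0 536870912 0 1230186008 33554432 16777216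
    (rowFK 0 false true true .pnn 2 1 3 (qsf 0 536870912 0 1230186008 1) ndF0q2 ndF4q3 pcF1 cut_pp_213 Ext.none)

def k0_pp_213 : ∃ t, chk3 f_pp_213 t 1 1 1 = true :=
  ⟨(b (l 6) (a (l 5) (l 6))), by decide +kernel⟩

theorem c_pp_213 : CertF 0 536870912 0 1230186008 33554432 16777216 false true true .pnn 2 1 3
    ndF0q2 ndF4q3 pcF1 cut_pp_213 Ext.none :=
  certFK0 (fam := false) (s1 := true) (s2 := true) (a := 2) (b := 1) (c := 3) (cn := .pnn) (n1 := ndF0q2) (n2 := ndF4q3) (pc := pcF1) (cut := cut_pp_213) (xt := Ext.none) (P1 := 0) (W1 := 536870912) (P2 := 0) (W2 := 1230186008) (P3 := 33554432) (W3 := 16777216)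
    rfl rfl rfl k0_pp_213

noncomputable def cut_pm_001 : Cut := Cut.of [[⟨3, 0, 0, 1449551462⟩]]

noncomputable def f_pm_001 : ℕ → ℕ → ℕ → ℕ → Bool := onCell 0 536870912 536870912 536870912 33554432 16777216
    (rowFK 0 false true false .up 0 0 1 (qsf 0 536870912 536870912 536870912 0) ndF0q0 ndF4q1 pcF0 cut_pm_001 Ext.none)

def k0_pm_001 : ∃ t, chk3 f_pm_001 t 1 1 1 = true :=
  ⟨(l 4), by decide +kernel⟩

theorem c_pm_001 : CertF 0 536870912 536870912 536870912 33554432 16777216 false true false .up 0 0 1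
    ndF0q0 ndF4q1 pcF0 cut_pm_001 Ext.none :=
  certFK0 (fam := false) (s1 := true) (s2 := false) (a := 0) (b := 0) (c := 1) (cn := .up) (n1 := ndF0q0) (n2 := ndF4q1) (pc := pcF0) (cut := cut_pm_001) (xt := Ext.none) (P1 := 0) (W1 := 536870912) (P2 := 536870912) (W2 := 536870912) (P3 := 33554432) (W3 := 16777216)
    rfl rfl rfl k0_pm_001

noncomputable def cut_pm_011 : Cut := Cut.of [[⟨3, 0, 0, 1449551462⟩]]

noncomputable def f_pm_011 : ℕ → ℕ → ℕ → ℕ → Bool := onCell 0 536870912 536870912 536870912 33554432 16777216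
    (rowFK 0 false true false .pnn 0 1 1 (qsf 0 536870912 536870912 536870912 1) ndF0q0 ndF4q1 pcF1 cut_pm_011 Ext.none)

def k0_pm_011 : ∃ t, chk3 f_pm_011 t 1 1 1 = true :=
  ⟨(l 4), by decide +kernel⟩

theorem c_pm_011 : CertF 0 536870912 536870912 536870912 33554432 16777216 false true false .pnn 0 1 1
    ndF0q0 ndF4q1 pcF1 cut_pm_011 Ext.none :=
  certFK0 (fam := false) (s1 := true) (s2 := false) (a := 0) (b := 1) (c := 1) (cn := .pnn) (n1 := ndF0q0) (n2 := ndF4q1) (pc := pcF1) (cut := cut_pm_011) (xt := Ext.none) (P1 := 0) (W1 := 536870912) (P2 := 536870912) (W2 := 536870912) (P3 := 33554432) (W3 := 16777216)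
    rfl rfl rfl k0_pm_011

noncomputable def cut_pm_012 : Cut := Cut.of [[⟨3, 0, 0, 1449551462⟩]]

noncomputable def f_pm_012 : ℕ → ℕ → ℕ → ℕ → Bool := onCell 0 536870912 1073741824 536870912 33554432 16777216
    (rowFK 0 false true false .pnp 0 1 2 (qsf 0 536870912 1073741824 536870912 1) ndF0q0 ndF4q2 pcF1 cut_pm_012 Ext.none)

def k0_pm_012 : ∃ t, chk3 f_pm_012 t 1 1 1 = true :=
  ⟨(l 4), by decide +kernel⟩

theorem c_pm_012 : CertF 0 536870912 1073741824 536870912 33554432 16777216 false true false .pnp 0 1 2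
    ndF0q0 ndF4q2 pcF1 cut_pm_012 Ext.none :=
  certFK0 (fam := false) (s1 := true) (s2 := false) (a := 0) (b := 1) (c := 2) (cn := .pnp) (n1 := ndF0q0) (n2 := ndF4q2) (pc := pcF1) (cut := cut_pm_012) (xt := Ext.none) (P1 := 0) (W1 := 536870912) (P2 := 1073741824) (W2 := 536870912) (P3 := 33554432) (W3 := 16777216)
    rfl rfl rfl k0_pm_012

noncomputable def cut_pm_022 : Cut := Cut.of [[⟨3, 0, 0, 1449551462⟩]]

noncomputable def f_pm_022 : ℕ → ℕ → ℕ → ℕ → Bool := onCell 0 536870912 1073741824 536870912 33554432 16777216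
    (rowFK 0 false true false .pp 0 2 2 (qsf 0 536870912 1073741824 536870912 2) ndF0q0 ndF4q2 pcF2 cut_pm_022 Ext.none)

def k0_pm_022 : ∃ t, chk3 f_pm_022 t 1 1 1 = true :=
  ⟨(l 4), by decide +kernel⟩

theorem c_pm_022 : CertF 0 536870912 1073741824 536870912 33554432 16777216 false true false .pp 0 2 2
    ndF0q0 ndF4q2 pcF2 cut_pm_022 Ext.none :=
  certFK0 (fam := false) (s1 := true) (s2 := false) (a := 0) (b := 2) (c := 2) (cn := .pp) (n1 := ndF0q0) (n2 := ndF4q2) (pc := pcF2) (cut := cut_pm_022) (xt := Ext.none) (P1 := 0) (W1 := 536870912) (P2 := 1073741824) (W2 := 536870912) (P3 := 33554432) (W3 := 16777216)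
    rfl rfl rfl k0_pm_022

noncomputable def cut_pm_023 : Cut := Cut.of [[⟨3, 0, 0, 1449551462⟩]]

noncomputable def f_pm_023 : ℕ → ℕ → ℕ → ℕ → Bool := onCell 0 536870912 0 1230186008 33554432 16777216
    (rowFK 0 false true false .up 0 2 3 (qsf 0 536870912 0 1230186008 2) ndF0q0 ndF4q3 pcF2 cut_pm_023 Ext.none)

def k0_pm_023 : ∃ t, chk3 f_pm_023 t 1 1 1 = true :=
  ⟨(b (a (l 2) (a (l 2) (b (l 17597320) (a (l 4) (l 4))))) (l 4)), by decide +kernel⟩

theorem c_pm_023 : CertF 0 536870912 0 1230186008 33554432 16777216 false true false .up 0 2 3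
    ndF0q0 ndF4q3 pcF2 cut_pm_023 Ext.none :=
  certFK0 (fam := false) (s1 := true) (s2 := false) (a := 0) (b := 2) (c := 3) (cn := .up) (n1 := ndF0q0) (n2 := ndF4q3) (pc := pcF2) (cut := cut_pm_023) (xt := Ext.none) (P1 := 0) (W1 := 536870912) (P2 := 0) (W2 := 1230186008) (P3 := 33554432) (W3 := 16777216)
    rfl rfl rfl k0_pm_023

noncomputable def cut_pm_033 : Cut := Cut.of [[⟨3, 0, 0, 1449551462⟩]]

noncomputable def f_pm_033 : ℕ → ℕ → ℕ → ℕ → Bool := onCell 1610612736 536870912 0 1230186008 33554432 16777216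
    (rowFK 2 false true false .pnn 0 3 3 (qsf 0 536870912 0 1230186008 3) ndF0q0 ndF4q3 pcF3 cut_pm_033 Ext.none)

def k0_pm_033 : ∃ t, chk3 f_pm_033 t 1 1 1 = true :=
  ⟨(b (a (b (a (a (l 17082688) (l 17123752)) (l 17541592)) (l 4)) (l 4)) (l 4)), by decide +kernel⟩

theorem c_pm_033 : CertF 0 536870912 0 1230186008 33554432 16777216 false true false .pnn 0 3 3
    ndF0q0 ndF4q3 pcF3 cut_pm_033 Ext.none :=
  certFK2 (fam := false) (s1 := true) (s2 := false) (a := 0) (b := 3) (c := 3) (cn := .pnn) (n1 := ndF0q0) (n2 := ndF4q3) (pc := pcF3) (cut := cut_pm_033) (xt := Ext.none) (P1 := 0) (W1 := 536870912) (P2 := 0) (W2 := 1230186008) (P3 := 33554432) (W3 := 16777216)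
    rfl rfl rfl (fun _ => rfl) k0_pm_033

noncomputable def cut_pm_101 : Cut := Cut.of [[⟨3, 0, 0, 1449551462⟩]]

noncomputable def f_pm_101 : ℕ → ℕ → ℕ → ℕ → Bool := onCell 536870912 536870912 536870912 536870912 33554432 16777216
    (rowFK 0 false true false .npn 1 0 1 (qsf 536870912 536870912 536870912 536870912 0) ndF0q1 ndF4q1 pcF0 cut_pm_101 Ext.none)

def k0_pm_101 : ∃ t, chk3 f_pm_101 t 1 1 1 = true :=
  ⟨(l 4), by decide +kernel⟩

theorem c_pm_101 : CertF 536870912 536870912 536870912 536870912 33554432 16777216 false true false .npn 1 0 1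
    ndF0q1 ndF4q1 pcF0 cut_pm_101 Ext.none :=
  certFK0 (fam := false) (s1 := true) (s2 := false) (a := 1) (b := 0) (c := 1) (cn := .npn) (n1 := ndF0q1) (n2 := ndF4q1) (pc := pcF0) (cut := cut_pm_101) (xt := Ext.none) (P1 := 536870912) (W1 := 536870912) (P2 := 536870912) (W2 := 536870912) (P3 := 33554432) (W3 := 16777216)
    rfl rfl rfl k0_pm_101

noncomputable def cut_pm_102 : Cut := Cut.of [[⟨3, 0, 0, 1449551462⟩]]

noncomputable def f_pm_102 : ℕ → ℕ → ℕ → ℕ → Bool := onCell 536870912 536870912 1073741824 536870912 33554432 16777216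
    (rowFK 0 false true false .npp 1 0 2 (qsf 536870912 536870912 1073741824 536870912 0) ndF0q1 ndF4q2 pcF0 cut_pm_102 Ext.none)

def k0_pm_102 : ∃ t, chk3 f_pm_102 t 1 1 1 = true :=
  ⟨(a (l 4) (b (l 4) (a (l 4) (b (l 4) (a (l 4) (b (l 4) (a (l 4) (l 17953592)))))))), by decide +kernel⟩

theorem c_pm_102 : CertF 536870912 536870912 1073741824 536870912 33554432 16777216 false true false .npp 1 0 2
    ndF0q1 ndF4q2 pcF0 cut_pm_102 Ext.none :=
  certFK0 (fam := false) (s1 := true) (s2 := false) (a := 1) (b := 0) (c := 2) (cn := .npp) (n1 := ndF0q1) (n2 := ndF4q2) (pc := pcF0) (cut := cut_pm_102) (xt := Ext.none) (P1 := 536870912) (W1 := 536870912) (P2 := 1073741824) (W2 := 536870912) (P3 := 33554432) (W3 := 16777216)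
    rfl rfl rfl k0_pm_102

noncomputable def cut_pm_112 : Cut := Cut.of [[⟨3, 0, 0, 1449551462⟩]]

noncomputable def f_pm_112 : ℕ → ℕ → ℕ → ℕ → Bool := onCell 536870912 536870912 1073741824 536870912 33554432 16777216
    (rowFK 0 false true false .dn 1 1 2 (qsf 536870912 536870912 1073741824 536870912 1) ndF0q1 ndF4q2 pcF1 cut_pm_112 Ext.none)

def k0_pm_112 : ∃ t, chk3 f_pm_112 t 1 1 1 = true :=
  ⟨(a (l 4) (b (l 4) (a (l 4) (b (l 4) (l 18531960))))), by decide +kernel⟩

theorem c_pm_112 : CertF 536870912 536870912 1073741824 536870912 33554432 16777216 false true false .dn 1 1 2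
    ndF0q1 ndF4q2 pcF1 cut_pm_112 Ext.none :=
  certFK0 (fam := false) (s1 := true) (s2 := false) (a := 1) (b := 1) (c := 2) (cn := .dn) (n1 := ndF0q1) (n2 := ndF4q2) (pc := pcF1) (cut := cut_pm_112) (xt := Ext.none) (P1 := 536870912) (W1 := 536870912) (P2 := 1073741824) (W2 := 536870912) (P3 := 33554432) (W3 := 16777216)
    rfl rfl rfl k0_pm_112

noncomputable def cut_pm_113 : Cut := Cut.of [[⟨3, 0, 0, 1449551462⟩], [⟨0, 1, 0, 7061502⟩, ⟨1, 1, 0, 7061502⟩, ⟨2, 2, 0, 184626⟩]]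

noncomputable def f_pm_113 : ℕ → ℕ → ℕ → ℕ → Bool := onCell 536870912 536870912 0 1230186008 33554432 16777216
    (rowFK 2 false true false .nn 1 1 3 (qsf 536870912 536870912 0 1230186008 1) ndF0q1 ndF4q3 pcF1 cut_pm_113 Ext.none)

def k0_pm_113 : ∃ t, chk3 f_pm_113 t 1 1 1 = true :=
  ⟨(b (a (l 2) (a (l 2) (a (b (l 2) (b (a (l 2) (l 17055232)) (l 640588851863))) (b (b (l 6) (a (l 2) (l 16848752))) (a (b (l 16914200) (l 17279448)) (a (b (l 16960528) (l 17396456)) (a (b (l 16984584) (l 17463432)) (l 17424024)))))))) (b (a (a (l 2) (b (l 2) (a (l 2) (b (l 2) (l 17726760))))) (a (b (a (l 2) (b (l 17230640) (l 17493752))) (a (b (l 17575600) (l 18020104)) (l 18124632))) (a (b (l 17635456) (l 18488080)) (a (b (l 17967072) (l 18823736)) (a (l 18804136) (a (l 18693624) (l 18744648))))))) (a (a (b (l 2) (b (a (l 2) (l 18471600)) (l 146133534647))) (b (a (b (l 17985648) (l 18355144)) (l 18328712)) (b (l 18804464) (l 18790464)))) (b (a (b (l 18641864) (l 19005480))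 (a (l 19206032) (l 4))) (l 4))))), by decide +kernel⟩

theorem c_pm_113 : CertF 536870912 536870912 0 1230186008 33554432 16777216 false true false .nn 1 1 3
    ndF0q1 ndF4q3 pcF1 cut_pm_113 Ext.none :=
  certFK2 (fam := false) (s1 := true) (s2 := false) (a := 1) (b := 1) (c := 3) (cn := .nn) (n1 := ndF0q1) (n2 := ndF4q3) (pc := pcF1) (cut := cut_pm_113) (xt := Ext.none) (P1 := 536870912) (W1 := 536870912) (P2 := 0) (W2 := 1230186008) (P3 := 33554432) (W3 := 16777216)
    rfl rfl rfl (fun _ => rfl) k0_pm_113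

noncomputable def cut_pm_123 : Cut := Cut.of [[⟨3, 0, 0, 1449551462⟩], [⟨0, 1, 0, 7061502⟩, ⟨1, 1, 0, 7061502⟩, ⟨2, 2, 0, 184626⟩]]

noncomputable def f_pm_123 : ℕ → ℕ → ℕ → ℕ → Bool := onCell 1073741824 536870912 0 1230186008 33554432 16777216
    (rowFK 2 false true false .npn 1 2 3 (qsf 536870912 536870912 0 1230186008 2) ndF0q1 ndF4q3 pcF2 cut_pm_123 Ext.none)

def k0_pm_123 : ∃ t, chk3 f_pm_123 t 1 1 1 = true :=
  ⟨(b (b (a (b (a (a (a (l 6) (l 16902384)) (l 17043792)) (l 17380808)) (a (a (a (a (a (l 16964808) (l 16980664)) (l 17004768)) (l 17056784)) (l 17222416)) (l 17646792))) (a (a (l 17558336) (l 17522200)) (l 17604392))) (a (a (a (a (a (a (l 17489800) (l 17528912)) (l 17555680)) (l 17798288)) (b (l 17572576) (l 18139024))) (b (l 17830024) (l 18254920))) (a (a (l 17832504) (l 17715992)) (a (l 17708288) (l 17638272))))) (b (a (a (b (a (l 18570200) (l 18642784)) (a (l 19103496) (l 18955520))) (b (l 18532192) (l 4))) (l 4)) (l 4))), by decide +kernel⟩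

theorem c_pm_123 : CertF 536870912 536870912 0 1230186008 33554432 16777216 false true false .npn 1 2 3
    ndF0q1 ndF4q3 pcF2 cut_pm_123 Ext.none :=
  certFK2 (fam := false) (s1 := true) (s2 := false) (a := 1) (b := 2) (c := 3) (cn := .npn) (n1 := ndF0q1) (n2 := ndF4q3) (pc := pcF2) (cut := cut_pm_123) (xt := Ext.none) (P1 := 536870912) (W1 := 536870912) (P2 := 0) (W2 := 1230186008) (P3 := 33554432) (W3 := 16777216)
    rfl rfl rfl (fun _ => rfl) k0_pm_123

noncomputable def cut_pm_133 : Cut := Cut.of [[⟨3, 0, 0, 1449551462⟩]]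

noncomputable def f_pm_133 : ℕ → ℕ → ℕ → ℕ → Bool := onCell 536870912 536870912 0 1230186008 33554432 16777216
    (rowFK 0 false true false .dn 1 3 3 (qsf 536870912 536870912 0 1230186008 3) ndF0q1 ndF4q3 pcF3 cut_pm_133 Ext.none)

def k0_pm_133 : ∃ t, chk3 f_pm_133 t 1 1 1 = true :=
  ⟨(b (b (a (a (a (l 17091552) (l 1)) (l 1)) (l 1)) (l 1)) (l 1)), by decide +kernel⟩

theorem c_pm_133 : CertF 536870912 536870912 0 1230186008 33554432 16777216 false true false .dn 1 3 3
    ndF0q1 ndF4q3 pcF3 cut_pm_133 Ext.none :=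
  certFK0 (fam := false) (s1 := true) (s2 := false) (a := 1) (b := 3) (c := 3) (cn := .dn) (n1 := ndF0q1) (n2 := ndF4q3) (pc := pcF3) (cut := cut_pm_133) (xt := Ext.none) (P1 := 536870912) (W1 := 536870912) (P2 := 0) (W2 := 1230186008) (P3 := 33554432) (W3 := 16777216)
    rfl rfl rfl k0_pm_133

noncomputable def cut_pm_202 : Cut := Cut.of [[⟨3, 0, 0, 1449551462⟩]]

noncomputable def f_pm_202 : ℕ → ℕ → ℕ → ℕ → Bool := onCell 0 536870912 1073741824 536870912 33554432 16777216
    (rowFK 0 false true false .pp 2 0 2 (qsf 0 536870912 1073741824 536870912 0) ndF0q2 ndF4q2 pcF0 cut_pm_202 Ext.none)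

def k0_pm_202 : ∃ t, chk3 f_pm_202 t 1 1 1 = true :=
  ⟨(a (a (b (b (l 1) (b (c (l 20405632) (l 18903184)) (c (a (l 20277000) (l 20260016)) (c (l 18856464) (l 18244584))))) (b (b (c (a (b (l 19407776) (l 18635792)) (b (l 20013480) (l 19489480))) (a (l 17764688) (c (l 18425976) (l 17781064)))) (c (b (l 18453880) (l 17605224)) (l 17755240))) (a (b (l 18149008) (l 18217168)) (b (b (l 17594432) (l 18063760)) (l 18230904))))) (b (b (b (l 1) (l 19643544)) (b (l 19473432) (c (l 19814496) (l 18696432)))) (b (b (a (c (l 19824416) (l 18183904)) (l 18963904)) (c (a (b (l 19424216) (l 18735136)) (l 19437592)) (a (l 17692160) (l 17782744)))) (b (a (c (l 17747680) (l 17609896)) (c (b (l 18862648) (l 18001320)) (l 17439768))) (a (l 18107616) (b (l 17306672) (l 17804048))))))) (b (b (a (b (l 1) (a (l 19628912) (l 4))) (l 4)) (a (b (a (l 19385592) (l 19471344)) (a (l 19148168) (l 19171968))) (a (b (l 4) (l 4)) (l 4)))) (b (a (b (l 19032208) (c (l 19040632) (l 18098992)))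 (b (a (l 18888504) (l 4)) (a (l 18503080) (l 18501800)))) (b (a (a (c (b (l 19030624) (l 18727568)) (l 17442216)) (l 18231976)) (a (l 18167672) (l 18136928))) (a (a (b (c (l 18136384) (l 17305568)) (l 17260160)) (c (b (l 18573328) (l 18196848)) (l 17338296))) (a (b (l 17966912) (l 17880336)) (l 17896032))))))), by decide +kernel⟩

theorem c_pm_202 : CertF 0 536870912 1073741824 536870912 33554432 16777216 false true false .pp 2 0 2
    ndF0q2 ndF4q2 pcF0 cut_pm_202 Ext.none :=
  certFK0 (fam := false) (s1 := true) (s2 := false) (a := 2) (b := 0) (c := 2) (cn := .pp) (n1 := ndF0q2) (n2 := ndF4q2) (pc := pcF0) (cut := cut_pm_202) (xt := Ext.none) (P1 := 0) (W1 := 536870912) (P2 := 1073741824) (W2 := 536870912) (P3 := 33554432) (W3 := 16777216)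
    rfl rfl rfl k0_pm_202

noncomputable def cut_pm_203 : Cut := Cut.of [[⟨3, 0, 0, 1449551462⟩]]

noncomputable def f_pm_203 : ℕ → ℕ → ℕ → ℕ → Bool := onCell 0 536870912 0 1230186008 33554432 16777216
    (rowFK 0 false true false .up 2 0 3 (qsf 0 536870912 0 1230186008 0) ndF0q2 ndF4q3 pcF0 cut_pm_203 Ext.none)

def k0_pm_203 : ∃ t, chk3 f_pm_203 t 1 1 1 = true :=
  ⟨(b (l 2) (b (l 2) (a (b (b (l 2) (a (l 17532000) (l 17842632))) (a (b (a (l 17574872) (l 17867944)) (l 18028920)) (b (l 18017016) (b (l 18197688) (a (l 18278856) (l 18165344)))))) (b (l 2) (b (a (a (l 18197104) (b (l 2) (l 18233288))) (a (b (l 2) (l 17839080)) (l 2))) (b (a (a (l 18181144) (l 17893280)) (a (c (l 17522208) (l 17646040)) (c (l 17919432) (l 17371176)))) (a (a (l 17833328) (l 17316624)) (a (c (l 18080264) (l 17395120)) (l 17734480))))))))), by decide +kernel⟩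

theorem c_pm_203 : CertF 0 536870912 0 1230186008 33554432 16777216 false true false .up 2 0 3
    ndF0q2 ndF4q3 pcF0 cut_pm_203 Ext.none :=
  certFK0 (fam := false) (s1 := true) (s2 := false) (a := 2) (b := 0) (c := 3) (cn := .up) (n1 := ndF0q2) (n2 := ndF4q3) (pc := pcF0) (cut := cut_pm_203) (xt := Ext.none) (P1 := 0) (W1 := 536870912) (P2 := 0) (W2 := 1230186008) (P3 := 33554432) (W3 := 16777216)
    rfl rfl rfl k0_pm_203

noncomputable def cut_pm_213 : Cut := Cut.of [[⟨3, 0, 0, 1449551462⟩], [⟨0, 1, 0, 7061502⟩, ⟨1, 1, 0, 7061502⟩, ⟨2, 2, 0, 184626⟩]]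

noncomputable def f_pm_213 : ℕ → ℕ → ℕ → ℕ → Bool := onCell 0 536870912 0 1230186008 33554432 16777216
    (rowFK 0 false true false .pnn 2 1 3 (qsf 0 536870912 0 1230186008 1) ndF0q2 ndF4q3 pcF1 cut_pm_213 Ext.none)

def k0_pm_213 : ∃ t, chk3 f_pm_213 t 1 1 1 = true :=
  ⟨(a (b (l 6) (b (b (l 6) (a (l 6) (b (a (l 6) (l 17182128)) (l 17269096)))) (b (b (a (l 6) (l 17501176)) (a (a (l 6) (l 17409640)) (l 17748800))) (b (a (l 1) (l 17945408)) (l 1))))) (b (b (a (l 6) (l 6)) (a (b (l 6) (a (l 6) (l 17077456))) (b (a (b (l 6) (l 16907184)) (l 16931656)) (a (l 17036440) (l 17208120))))) (b (a (b (a (l 17250944) (l 17154264)) (b (l 17362352) (l 17564624))) (b (a (l 17268064) (l 17354400)) (a (l 17586800) (l 17729416)))) (b (a (b (l 17784496) (l 18050728)) (l 18206568)) (a (l 18264840) (b (l 18421896) (l 18381272))))))), by decide +kernel⟩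

theorem c_pm_213 : CertF 0 536870912 0 1230186008 33554432 16777216 false true false .pnn 2 1 3
    ndF0q2 ndF4q3 pcF1 cut_pm_213 Ext.none :=
  certFK0 (fam := false) (s1 := true) (s2 := false) (a := 2) (b := 1) (c := 3) (cn := .pnn) (n1 := ndF0q2) (n2 := ndF4q3) (pc := pcF1) (cut := cut_pm_213) (xt := Ext.none) (P1 := 0) (W1 := 536870912) (P2 := 0) (W2 := 1230186008) (P3 := 33554432) (W3 := 16777216)
    rfl rfl rfl k0_pm_213

noncomputable def cut_mm_001 : Cut := Cut.of [[⟨3, 0, 0, 1449551462⟩]]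

noncomputable def f_mm_001 : ℕ → ℕ → ℕ → ℕ → Bool := onCell 0 536870912 536870912 536870912 33554432 16777216
    (rowFK 0 false false false .up 0 0 1 (qsf 0 536870912 536870912 536870912 0) ndF0q0 ndF4q1 pcF0 cut_mm_001 Ext.none)

def k0_mm_001 : ∃ t, chk3 f_mm_001 t 1 1 1 = true :=
  ⟨(l 6), by decide +kernel⟩

theorem c_mm_001 : CertF 0 536870912 536870912 536870912 33554432 16777216 false false false .up 0 0 1
    ndF0q0 ndF4q1 pcF0 cut_mm_001 Ext.none :=
  certFK0 (fam := false) (s1 := false) (s2 := false) (a := 0) (b := 0) (c := 1) (cn := .up) (n1 := ndF0q0) (n2 := ndF4q1) (pc := pcF0) (cut := cut_mm_001) (xt := Ext.none) (P1 := 0) (W1 := 536870912) (P2 := 536870912) (W2 := 536870912) (P3 := 33554432) (W3 := 16777216)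
    rfl rfl rfl k0_mm_001

noncomputable def cut_mm_011 : Cut := Cut.of [[⟨3, 0, 0, 1449551462⟩]]

noncomputable def f_mm_011 : ℕ → ℕ → ℕ → ℕ → Bool := onCell 0 536870912 536870912 536870912 33554432 16777216
    (rowFK 0 false false false .pnn 0 1 1 (qsf 0 536870912 536870912 536870912 1) ndF0q0 ndF4q1 pcF1 cut_mm_011 Ext.none)

def k0_mm_011 : ∃ t, chk3 f_mm_011 t 1 1 1 = true :=
  ⟨(l 6), by decide +kernel⟩

theorem c_mm_011 : CertF 0 536870912 536870912 536870912 33554432 16777216 false false false .pnn 0 1 1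
    ndF0q0 ndF4q1 pcF1 cut_mm_011 Ext.none :=
  certFK0 (fam := false) (s1 := false) (s2 := false) (a := 0) (b := 1) (c := 1) (cn := .pnn) (n1 := ndF0q0) (n2 := ndF4q1) (pc := pcF1) (cut := cut_mm_011) (xt := Ext.none) (P1 := 0) (W1 := 536870912) (P2 := 536870912) (W2 := 536870912) (P3 := 33554432) (W3 := 16777216)
    rfl rfl rfl k0_mm_011

noncomputable def cut_mm_012 : Cut := Cut.of [[⟨3, 0, 0, 1449551462⟩]]

noncomputable def f_mm_012 : ℕ → ℕ → ℕ → ℕ → Bool := onCell 0 536870912 1073741824 536870912 33554432 16777216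
    (rowFK 0 false false false .pnp 0 1 2 (qsf 0 536870912 1073741824 536870912 1) ndF0q0 ndF4q2 pcF1 cut_mm_012 Ext.none)

def k0_mm_012 : ∃ t, chk3 f_mm_012 t 1 1 1 = true :=
  ⟨(l 5), by decide +kernel⟩

theorem c_mm_012 : CertF 0 536870912 1073741824 536870912 33554432 16777216 false false false .pnp 0 1 2
    ndF0q0 ndF4q2 pcF1 cut_mm_012 Ext.none :=
  certFK0 (fam := false) (s1 := false) (s2 := false) (a := 0) (b := 1) (c := 2) (cn := .pnp) (n1 := ndF0q0) (n2 := ndF4q2) (pc := pcF1) (cut := cut_mm_012) (xt := Ext.none) (P1 := 0) (W1 := 536870912) (P2 := 1073741824) (W2 := 536870912) (P3 := 33554432) (W3 := 16777216)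
    rfl rfl rfl k0_mm_012

noncomputable def cut_mm_022 : Cut := Cut.of [[⟨3, 0, 0, 1449551462⟩]]

noncomputable def f_mm_022 : ℕ → ℕ → ℕ → ℕ → Bool := onCell 0 536870912 1073741824 536870912 33554432 16777216
    (rowFK 0 false false false .pp 0 2 2 (qsf 0 536870912 1073741824 536870912 2) ndF0q0 ndF4q2 pcF2 cut_mm_022 Ext.none)

def k0_mm_022 : ∃ t, chk3 f_mm_022 t 1 1 1 = true :=
  ⟨(l 5), by decide +kernel⟩

theorem c_mm_022 : CertF 0 536870912 1073741824 536870912 33554432 16777216 false false false .pp 0 2 2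
    ndF0q0 ndF4q2 pcF2 cut_mm_022 Ext.none :=
  certFK0 (fam := false) (s1 := false) (s2 := false) (a := 0) (b := 2) (c := 2) (cn := .pp) (n1 := ndF0q0) (n2 := ndF4q2) (pc := pcF2) (cut := cut_mm_022) (xt := Ext.none) (P1 := 0) (W1 := 536870912) (P2 := 1073741824) (W2 := 536870912) (P3 := 33554432) (W3 := 16777216)
    rfl rfl rfl k0_mm_022

noncomputable def cut_mm_023 : Cut := Cut.of [[⟨3, 0, 0, 1449551462⟩]]

noncomputable def f_mm_023 : ℕ → ℕ → ℕ → ℕ → Bool := onCell 0 536870912 0 1230186008 33554432 16777216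
    (rowFK 0 false false false .up 0 2 3 (qsf 0 536870912 0 1230186008 2) ndF0q0 ndF4q3 pcF2 cut_mm_023 Ext.none)

def k0_mm_023 : ∃ t, chk3 f_mm_023 t 1 1 1 = true :=
  ⟨(l 5), by decide +kernel⟩

theorem c_mm_023 : CertF 0 536870912 0 1230186008 33554432 16777216 false false false .up 0 2 3
    ndF0q0 ndF4q3 pcF2 cut_mm_023 Ext.none :=
  certFK0 (fam := false) (s1 := false) (s2 := false) (a := 0) (b := 2) (c := 3) (cn := .up) (n1 := ndF0q0) (n2 := ndF4q3) (pc := pcF2) (cut := cut_mm_023) (xt := Ext.none) (P1 := 0) (W1 := 536870912) (P2 := 0) (W2 := 1230186008) (P3 := 33554432) (W3 := 16777216)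
    rfl rfl rfl k0_mm_023

noncomputable def cut_mm_033 : Cut := Cut.of [[⟨3, 0, 0, 1449551462⟩]]

noncomputable def f_mm_033 : ℕ → ℕ → ℕ → ℕ → Bool := onCell 0 536870912 0 1230186008 33554432 16777216
    (rowFK 0 false false false .pnn 0 3 3 (qsf 0 536870912 0 1230186008 3) ndF0q0 ndF4q3 pcF3 cut_mm_033 Ext.none)

def k0_mm_033 : ∃ t, chk3 f_mm_033 t 1 1 1 = true :=
  ⟨(l 5), by decide +kernel⟩

theorem c_mm_033 : CertF 0 536870912 0 1230186008 33554432 16777216 false false false .pnn 0 3 3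
    ndF0q0 ndF4q3 pcF3 cut_mm_033 Ext.none :=
  certFK0 (fam := false) (s1 := false) (s2 := false) (a := 0) (b := 3) (c := 3) (cn := .pnn) (n1 := ndF0q0) (n2 := ndF4q3) (pc := pcF3) (cut := cut_mm_033) (xt := Ext.none) (P1 := 0) (W1 := 536870912) (P2 := 0) (W2 := 1230186008) (P3 := 33554432) (W3 := 16777216)
    rfl rfl rfl k0_mm_033

noncomputable def cut_mm_101 : Cut := Cut.of [[⟨3, 0, 0, 1449551462⟩], [⟨0, 1, 0, 33554432⟩, ⟨1, 0, 0, 33554432⟩, ⟨2, 1, 0, 33554432⟩]]

noncomputable def f_mm_101 : ℕ → ℕ → ℕ → ℕ → Bool := onCell 536870912 536870912 0 536870912 33554432 16777216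
    (rowFK 1 false false false .npn 1 0 1 (qsf 536870912 536870912 536870912 536870912 0) ndF0q1 ndF4q1 pcF0 cut_mm_101 Ext.none)

def k0_mm_101 : ∃ t, chk3 f_mm_101 t 1 1 1 = true :=
  ⟨(l 6), by decide +kernel⟩

theorem c_mm_101 : CertF 536870912 536870912 536870912 536870912 33554432 16777216 false false false .npn 1 0 1
    ndF0q1 ndF4q1 pcF0 cut_mm_101 Ext.none :=
  certFK1 (fam := false) (s1 := false) (s2 := false) (a := 1) (b := 0) (c := 1) (cn := .npn) (n1 := ndF0q1) (n2 := ndF4q1) (pc := pcF0) (cut := cut_mm_101) (xt := Ext.none) (P1 := 536870912) (W1 := 536870912) (P2 := 536870912) (W2 := 536870912) (P3 := 33554432) (W3 := 16777216)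
    rfl rfl rfl (fun _ => rfl) k0_mm_101

noncomputable def cut_mm_102 : Cut := Cut.of [[⟨3, 0, 0, 1449551462⟩], [⟨0, 1, 0, 33554432⟩, ⟨1, 0, 0, 33554432⟩, ⟨2, 1, 0, 33554432⟩]]

noncomputable def f_mm_102 : ℕ → ℕ → ℕ → ℕ → Bool := onCell 536870912 536870912 1073741824 536870912 33554432 16777216
    (rowFK 0 false false false .npp 1 0 2 (qsf 536870912 536870912 1073741824 536870912 0) ndF0q1 ndF4q2 pcF0 cut_mm_102 Ext.none)

def k0_mm_102 : ∃ t, chk3 f_mm_102 t 1 1 1 = true :=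
  ⟨(l 6), by decide +kernel⟩

theorem c_mm_102 : CertF 536870912 536870912 1073741824 536870912 33554432 16777216 false false false .npp 1 0 2
    ndF0q1 ndF4q2 pcF0 cut_mm_102 Ext.none :=
  certFK0 (fam := false) (s1 := false) (s2 := false) (a := 1) (b := 0) (c := 2) (cn := .npp) (n1 := ndF0q1) (n2 := ndF4q2) (pc := pcF0) (cut := cut_mm_102) (xt := Ext.none) (P1 := 536870912) (W1 := 536870912) (P2 := 1073741824) (W2 := 536870912) (P3 := 33554432) (W3 := 16777216)
    rfl rfl rfl k0_mm_102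

noncomputable def cut_mm_112 : Cut := Cut.of [[⟨3, 0, 0, 1449551462⟩]]

noncomputable def f_mm_112 : ℕ → ℕ → ℕ → ℕ → Bool := onCell 536870912 536870912 1073741824 536870912 33554432 16777216
    (rowFK 0 false false false .dn 1 1 2 (qsf 536870912 536870912 1073741824 536870912 1) ndF0q1 ndF4q2 pcF1 cut_mm_112 Ext.none)

def k0_mm_112 : ∃ t, chk3 f_mm_112 t 1 1 1 = true :=
  ⟨(l 6), by decide +kernel⟩

theorem c_mm_112 : CertF 536870912 536870912 1073741824 536870912 33554432 16777216 false false false .dn 1 1 2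
    ndF0q1 ndF4q2 pcF1 cut_mm_112 Ext.none :=
  certFK0 (fam := false) (s1 := false) (s2 := false) (a := 1) (b := 1) (c := 2) (cn := .dn) (n1 := ndF0q1) (n2 := ndF4q2) (pc := pcF1) (cut := cut_mm_112) (xt := Ext.none) (P1 := 536870912) (W1 := 536870912) (P2 := 1073741824) (W2 := 536870912) (P3 := 33554432) (W3 := 16777216)
    rfl rfl rfl k0_mm_112

noncomputable def cut_mm_113 : Cut := Cut.of [[⟨3, 0, 0, 1449551462⟩]]

noncomputable def f_mm_113 : ℕ → ℕ → ℕ → ℕ → Bool := onCell 536870912 536870912 0 1230186008 33554432 16777216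
    (rowFK 0 false false false .nn 1 1 3 (qsf 536870912 536870912 0 1230186008 1) ndF0q1 ndF4q3 pcF1 cut_mm_113 Ext.none)

def k0_mm_113 : ∃ t, chk3 f_mm_113 t 1 1 1 = true :=
  ⟨(a (l 5) (b (l 5) (l 6))), by decide +kernel⟩

theorem c_mm_113 : CertF 536870912 536870912 0 1230186008 33554432 16777216 false false false .nn 1 1 3
    ndF0q1 ndF4q3 pcF1 cut_mm_113 Ext.none :=
  certFK0 (fam := false) (s1 := false) (s2 := false) (a := 1) (b := 1) (c := 3) (cn := .nn) (n1 := ndF0q1) (n2 := ndF4q3) (pc := pcF1) (cut := cut_mm_113) (xt := Ext.none) (P1 := 536870912) (W1 := 536870912) (P2 := 0) (W2 := 1230186008) (P3 := 33554432) (W3 := 16777216)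
    rfl rfl rfl k0_mm_113

noncomputable def cut_mm_123 : Cut := Cut.of [[⟨3, 0, 0, 1449551462⟩]]

noncomputable def f_mm_123 : ℕ → ℕ → ℕ → ℕ → Bool := onCell 1073741824 536870912 0 1230186008 33554432 16777216
    (rowFK 2 false false false .npn 1 2 3 (qsf 536870912 536870912 0 1230186008 2) ndF0q1 ndF4q3 pcF2 cut_mm_123 Ext.none)

def k0_mm_123 : ∃ t, chk3 f_mm_123 t 1 1 1 = true :=
  ⟨(b (l 5) (l 5)), by decide +kernel⟩

theorem c_mm_123 : CertF 536870912 536870912 0 1230186008 33554432 16777216 false false false .npn 1 2 3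
    ndF0q1 ndF4q3 pcF2 cut_mm_123 Ext.none :=
  certFK2 (fam := false) (s1 := false) (s2 := false) (a := 1) (b := 2) (c := 3) (cn := .npn) (n1 := ndF0q1) (n2 := ndF4q3) (pc := pcF2) (cut := cut_mm_123) (xt := Ext.none) (P1 := 536870912) (W1 := 536870912) (P2 := 0) (W2 := 1230186008) (P3 := 33554432) (W3 := 16777216)
    rfl rfl rfl (fun _ => rfl) k0_mm_123

noncomputable def cut_mm_133 : Cut := Cut.of [[⟨3, 0, 0, 1449551462⟩]]

noncomputable def f_mm_133 : ℕ → ℕ → ℕ → ℕ → Bool := onCell 1610612736 536870912 0 1230186008 33554432 16777216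
    (rowFK 2 false false false .dn 1 3 3 (qsf 536870912 536870912 0 1230186008 3) ndF0q1 ndF4q3 pcF3 cut_mm_133 Ext.none)

def k0_mm_133 : ∃ t, chk3 f_mm_133 t 1 1 1 = true :=
  ⟨(l 5), by decide +kernel⟩

theorem c_mm_133 : CertF 536870912 536870912 0 1230186008 33554432 16777216 false false false .dn 1 3 3
    ndF0q1 ndF4q3 pcF3 cut_mm_133 Ext.none :=
  certFK2 (fam := false) (s1 := false) (s2 := false) (a := 1) (b := 3) (c := 3) (cn := .dn) (n1 := ndF0q1) (n2 := ndF4q3) (pc := pcF3) (cut := cut_mm_133) (xt := Ext.none) (P1 := 536870912) (W1 := 536870912) (P2 := 0) (W2 := 1230186008) (P3 := 33554432) (W3 := 16777216)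
    rfl rfl rfl (fun _ => rfl) k0_mm_133

noncomputable def cut_mm_202 : Cut := Cut.of [[⟨3, 0, 0, 1449551462⟩], [⟨0, 1, 0, 16777216⟩, ⟨1, 0, 0, 16777216⟩, ⟨2, 1, 0, 16777216⟩]]

noncomputable def f_mm_202 : ℕ → ℕ → ℕ → ℕ → Bool := onCell 0 536870912 0 536870912 33554432 16777216
    (rowFK 1 false false false .pp 2 0 2 (qsf 0 536870912 1073741824 536870912 0) ndF0q2 ndF4q2 pcF0 cut_mm_202 Ext.none)

def k0_mm_202 : ∃ t, chk3 f_mm_202 t 1 1 1 = true :=
  ⟨(b (a (b (b (b (a (c (a (l 20522904) (l 19999632)) (c (l 18870304) (l 18465512))) (c (a (l 19394248) (l 18839592)) (a (l 18404384) (l 18483424)))) (a (c (a (l 20052920) (l 19310896)) (c (l 18481592) (l 18316600))) (c (a (l 18680928) (l 18281016)) (l 18356168)))) (a (c (b (a (l 19341848) (l 18579136)) (a (l 18591496) (l 17816968))) (c (l 17979040) (l 18097608))) (b (a (c (l 18096352) (l 18186880)) (l 18191680)) (a (l 18058152) (l 18271160))))) (a (b (c (a (b (l 17804064) (l 17601288)) (l 18188472)) (l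 18168312)) (a (l 18125648) (l 17955128))) (b (a (l 18143040) (l 18031456)) (a (l 17864432) (l 6))))) (b (a (a (b (a (b (a (l 18556264) (l 18487968)) (l 18253568)) (l 6)) (l 6)) (l 6)) (l 6)) (l 6))) (a (a (b (b (b (l 17936736) (l 17919416)) (a (l 17839568) (l 6))) (l 2)) (l 6)) (l 6))), by decide +kernel⟩

theorem c_mm_202 : CertF 0 536870912 1073741824 536870912 33554432 16777216 false false false .pp 2 0 2
    ndF0q2 ndF4q2 pcF0 cut_mm_202 Ext.none :=
  certFK1 (fam := false) (s1 := false) (s2 := false) (a := 2) (b := 0) (c := 2) (cn := .pp) (n1 := ndF0q2) (n2 := ndF4q2) (pc := pcF0) (cut := cut_mm_202) (xt := Ext.none) (P1 := 0) (W1 := 536870912) (P2 := 1073741824) (W2 := 536870912) (P3 := 33554432) (W3 := 16777216)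
    rfl rfl rfl (fun _ => rfl) k0_mm_202

noncomputable def cut_mm_203 : Cut := Cut.of [[⟨3, 0, 0, 1449551462⟩]]

noncomputable def f_mm_203 : ℕ → ℕ → ℕ → ℕ → Bool := onCell 0 536870912 0 1230186008 33554432 16777216
    (rowFK 0 false false false .up 2 0 3 (qsf 0 536870912 0 1230186008 0) ndF0q2 ndF4q3 pcF0 cut_mm_203 Ext.none)

def k0_mm_203 : ∃ t, chk3 f_mm_203 t 1 1 1 = true :=
  ⟨(b (l 2) (b (l 2) (a (b (l 6) (b (l 6) (a (a (l 17608672) (l 6)) (l 6)))) (l 3)))), by decide +kernel⟩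

theorem c_mm_203 : CertF 0 536870912 0 1230186008 33554432 16777216 false false false .up 2 0 3
    ndF0q2 ndF4q3 pcF0 cut_mm_203 Ext.none :=
  certFK0 (fam := false) (s1 := false) (s2 := false) (a := 2) (b := 0) (c := 3) (cn := .up) (n1 := ndF0q2) (n2 := ndF4q3) (pc := pcF0) (cut := cut_mm_203) (xt := Ext.none) (P1 := 0) (W1 := 536870912) (P2 := 0) (W2 := 1230186008) (P3 := 33554432) (W3 := 16777216)
    rfl rfl rfl k0_mm_203

noncomputable def cut_mm_213 : Cut := Cut.of [[⟨3, 0, 0, 1449551462⟩]]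

noncomputable def f_mm_213 : ℕ → ℕ → ℕ → ℕ → Bool := onCell 0 536870912 0 1230186008 33554432 16777216
    (rowFK 0 false false false .pnn 2 1 3 (qsf 0 536870912 0 1230186008 1) ndF0q2 ndF4q3 pcF1 cut_mm_213 Ext.none)

def k0_mm_213 : ∃ t, chk3 f_mm_213 t 1 1 1 = true :=
  ⟨(b (l 6) (b (l 6) (a (b (l 6) (b (l 6) (l 1))) (l 3)))), by decide +kernel⟩

theorem c_mm_213 : CertF 0 536870912 0 1230186008 33554432 16777216 false false false .pnn 2 1 3
    ndF0q2 ndF4q3 pcF1 cut_mm_213 Ext.none :=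
  certFK0 (fam := false) (s1 := false) (s2 := false) (a := 2) (b := 1) (c := 3) (cn := .pnn) (n1 := ndF0q2) (n2 := ndF4q3) (pc := pcF1) (cut := cut_mm_213) (xt := Ext.none) (P1 := 0) (W1 := 536870912) (P2 := 0) (W2 := 1230186008) (P3 := 33554432) (W3 := 16777216)
    rfl rfl rfl k0_mm_213

end Pool.Agent.Strip051.G.I1_32_3_64.Tab.C.FB04

namespace Pool.Agent.Strip051.G.I1_32_3_64.Tab.C.FB10

open Pool.Agent.Strip051.PB Pool.Agent.Strip051.PB.T
open Pool.Agent.Strip051.G.I1_32_3_64.Tab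

noncomputable def f_pp_001 : ℕ → ℕ → ℕ → ℕ → Bool := onCell 0 536870912 0 536870912 33554432 16777216
    (rowFK 1 false true true .up 0 0 1 (qsf 0 536870912 536870912 536870912 0) ndF1q0 ndF0q1 pcF0 Cut.none Ext.none)

def k0_pp_001 : ∃ t, chk3 f_pp_001 t 1 1 1 = true :=
  ⟨(l 3), by decide +kernel⟩

theorem c_pp_001 : CertF 0 536870912 536870912 536870912 33554432 16777216 false true true .up 0 0 1
    ndF1q0 ndF0q1 pcF0 Cut.none Ext.none :=
  certFK1 (fam := false) (s1 := true) (s2 := true) (a := 0) (b := 0) (c := 1) (cn := .up) (n1 := ndF1q0) (n2 := ndF0q1) (pc := pcF0) (cut := Cut.none) (xt := Ext.none) (P1 := 0) (W1 := 536870912) (P2 := 536870912) (W2 := 536870912) (P3 := 33554432) (W3 := 16777216)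
    rfl rfl rfl (fun _ => rfl) k0_pp_001

noncomputable def cut_pp_011 : Cut := Cut.of [[⟨0, 0, 0, 33554432⟩, ⟨1, 1, 0, 33554432⟩, ⟨2, 1, 0, 33554432⟩]]

noncomputable def f_pp_011 : ℕ → ℕ → ℕ → ℕ → Bool := onCell 0 536870912 536870912 536870912 33554432 16777216
    (rowFK 0 false true true .pnn 0 1 1 (qsf 0 536870912 536870912 536870912 1) ndF1q0 ndF0q1 pcF1 cut_pp_011 Ext.none)

def k0_pp_011 : ∃ t, chk3 f_pp_011 t 1 1 1 = true :=
  ⟨(a (b (l 3) (b (l 3) (a (b (l 3) (a (b (l 3) (b (l 3) (a (b (l 3) (a (l 6) (l 3))) (l 3)))) (l 3))) (l 3)))) (l 3)), by decide +kernel⟩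

theorem c_pp_011 : CertF 0 536870912 536870912 536870912 33554432 16777216 false true true .pnn 0 1 1
    ndF1q0 ndF0q1 pcF1 cut_pp_011 Ext.none :=
  certFK0 (fam := false) (s1 := true) (s2 := true) (a := 0) (b := 1) (c := 1) (cn := .pnn) (n1 := ndF1q0) (n2 := ndF0q1) (pc := pcF1) (cut := cut_pp_011) (xt := Ext.none) (P1 := 0) (W1 := 536870912) (P2 := 536870912) (W2 := 536870912) (P3 := 33554432) (W3 := 16777216)
    rfl rfl rfl k0_pp_011

noncomputable def cut_pp_012 : Cut := Cut.of [[⟨0, 0, 0, 33554432⟩, ⟨1, 1, 0, 33554432⟩, ⟨2, 1, 0, 33554432⟩]]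

noncomputable def f_pp_012 : ℕ → ℕ → ℕ → ℕ → Bool := onCell 536870912 536870912 0 536870912 33554432 16777216
    (rowFK 2 false true true .pnp 0 1 2 (qsf 0 536870912 0 536870912 1) ndF1q0 ndF0q2 pcF1 cut_pp_012 Ext.none)

def k0_pp_012 : ∃ t, chk3 f_pp_012 t 1 1 1 = true :=
  ⟨(a (b (a (b (l 2) (a (l 2) (l 17402008))) (b (l 17268720) (a (l 17301248) (l 17277000)))) (a (b (a (l 2) (l 145661786407)) (l 3)) (a (b (l 131703346455) (l 3)) (b (l 17652672) (l 152104172487))))) (b (a (b (l 17710160) (a (l 17264424) (l 17477944))) (a (b (l 18259200) (l 17916992)) (b (a (l 18655192) (a (l 18896600) (a (l 19028176) (l 19117224)))) (a (l 18330776) (l 18645624))))) (a (b (a (l 17627216) (b (l 17299872) (l 17329880))) (a (b (l 140829670151) (l 3)) (b (b (l 17368360) (l 17524752)) (b (l 144050470551) (l 3))))) (b (a (b (l 17521696) (l 17128360)) (b (a (l 17954824) (l 18284064)) (a (l 17551096) (a (l 17811560) (l 17967888))))) (a (b (a (l 17154704) (l 17029712)) (a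 (l 140291900727) (l 139217864775))) (b (a (l 17072112) (a (l 17309936) (a (l 17387688) (a (l 17386856) (l 17349216))))) (b (a (l 16925400) (a (l 16878496) (b (a (l 16893440) (l 16820440)) (b (l 16821648) (l 16816384))))) (a (l 139217680039) (b (a (l 16850288) (a (l 16819856) (l 6))) (a (l 142975652135) (l 6))))))))))), by decide +kernel⟩

theorem c_pp_012 : CertF 0 536870912 0 536870912 33554432 16777216 false true true .pnp 0 1 2
    ndF1q0 ndF0q2 pcF1 cut_pp_012 Ext.none :=
  certFK2 (fam := false) (s1 := true) (s2 := true) (a := 0) (b := 1) (c := 2) (cn := .pnp) (n1 := ndF1q0) (n2 := ndF0q2) (pc := pcF1) (cut := cut_pp_012) (xt := Ext.none) (P1 := 0) (W1 := 536870912) (P2 := 0) (W2 := 536870912) (P3 := 33554432) (W3 := 16777216)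
    rfl rfl rfl (fun _ => rfl) k0_pp_012

noncomputable def cut_pp_022 : Cut := Cut.of [[⟨0, 0, 0, 33554432⟩, ⟨1, 1, 0, 33554432⟩, ⟨2, 1, 0, 33554432⟩]]

noncomputable def f_pp_022 : ℕ → ℕ → ℕ → ℕ → Bool := onCell 0 536870912 0 536870912 33554432 16777216
    (rowFK 0 false true true .pp 0 2 2 (qsf 0 536870912 0 536870912 2) ndF1q0 ndF0q2 pcF2 cut_pp_022 Ext.none)

def k0_pp_022 : ∃ t, chk3 f_pp_022 t 1 1 1 = true :=
  ⟨(a (b (a (b (l 19462856) (a (l 19282992) (b (l 19240320) (a (l 19081752) (b (l 19052240) (a (l 18935736) (a (l 18890120) (l 18862688)))))))) (a (a (b (b (l 19523288) (a (l 19337088) (l 19317072))) (b (a (a (l 19165528) (l 19148872)) (l 19134792)) (l 18906840))) (b (l 19405256) (l 1))) (l 1))) (a (b (b (a (l 19002144) (a (l 18764064) (b (a (b (l 18803256) (a (l 18718592) (l 18676664))) (l 18692968)) (l 18507776)))) (a (a (b (l 18838352) (l 18559024)) (l 18458176)) (a (b (a (l 18437760) (b (a (l 18427904) (l 18371464)) (l 18246152))) (a (a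 (l 18110800) (l 18051400)) (l 18009336))) (l 18125920)))) (a (b (a (b (a (a (b (l 18355640) (l 18040824)) (l 18143200)) (l 18031688)) (a (a (b (b (l 17623712) (b (l 17467160) (l 17228992))) (b (c (l 17515384) (l 16729952)) (l 16737392))) (b (l 17589384) (l 17025464))) (b (l 17493688) (l 16976056)))) (b (a (l 17882520) (b (l 17872256) (a (l 17619336) (l 17559808)))) (a (b (l 17365520) (a (b (l 17055616) (l 16791128)) (l 16899408))) (b (l 17274600) (l 16878312))))) (a (b (b (a (a (a (b (l 16735904) (l 16738936)) (l 16740488)) (l 16745576)) (a (l 16753104) (l 16761408))) (a (l 6) (a (l 6) (a (l 6) (l 16774328))))) (a (l 6) (a (l 6) (l 1)))) (b (a (a (b (l 16769768) (l 1)) (l 1)) (l 1)) (l 1)))) (b (a (b (l 17650168) (l 1)) (l 1)) (l 1)))) (b (l 1) (l 1)))) (l 1)), by decide +kernel⟩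

theorem c_pp_022 : CertF 0 536870912 0 536870912 33554432 16777216 false true true .pp 0 2 2
    ndF1q0 ndF0q2 pcF2 cut_pp_022 Ext.none :=
  certFK0 (fam := false) (s1 := true) (s2 := true) (a := 0) (b := 2) (c := 2) (cn := .pp) (n1 := ndF1q0) (n2 := ndF0q2) (pc := pcF2) (cut := cut_pp_022) (xt := Ext.none) (P1 := 0) (W1 := 536870912) (P2 := 0) (W2 := 536870912) (P3 := 33554432) (W3 := 16777216)
    rfl rfl rfl k0_pp_022

noncomputable def f_pp_101 : ℕ → ℕ → ℕ → ℕ → Bool := onCell 536870912 536870912 536870912 536870912 33554432 16777216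
    (rowFK 0 false true true .npn 1 0 1 (qsf 536870912 536870912 536870912 536870912 0) ndF1q1 ndF0q1 pcF0 Cut.none Ext.none)

def k0_pp_101 : ∃ t, chk3 f_pp_101 t 1 1 1 = true :=
  ⟨(l 3), by decide +kernel⟩

theorem c_pp_101 : CertF 536870912 536870912 536870912 536870912 33554432 16777216 false true true .npn 1 0 1
    ndF1q1 ndF0q1 pcF0 Cut.none Ext.none :=
  certFK0 (fam := false) (s1 := true) (s2 := true) (a := 1) (b := 0) (c := 1) (cn := .npn) (n1 := ndF1q1) (n2 := ndF0q1) (pc := pcF0) (cut := Cut.none) (xt := Ext.none) (P1 := 536870912) (W1 := 536870912) (P2 := 536870912) (W2 := 536870912) (P3 := 33554432) (W3 := 16777216)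
    rfl rfl rfl k0_pp_101

noncomputable def f_pp_102 : ℕ → ℕ → ℕ → ℕ → Bool := onCell 0 536870912 0 536870912 33554432 16777216
    (rowFK 2 false true true .npp 1 0 2 (qsf 536870912 536870912 0 536870912 0) ndF1q1 ndF0q2 pcF0 Cut.none Ext.none)

def k0_pp_102 : ∃ t, chk3 f_pp_102 t 1 1 1 = true :=
  ⟨(a (b (b (a (l 2) (a (a (l 164991374999) (l 149421994471)) (b (l 18450928) (l 147273893991)))) (l 3)) (l 3)) (b (a (b (a (l 18353016) (l 17964224)) (a (b (l 152642364279) (l 3)) (l 151031040855))) (b (l 17844456) (a (l 142978270183) (l 17823272)))) (a (l 3) (l 3)))), by decide +kernel⟩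

theorem c_pp_102 : CertF 536870912 536870912 0 536870912 33554432 16777216 false true true .npp 1 0 2
    ndF1q1 ndF0q2 pcF0 Cut.none Ext.none :=
  certFK2 (fam := false) (s1 := true) (s2 := true) (a := 1) (b := 0) (c := 2) (cn := .npp) (n1 := ndF1q1) (n2 := ndF0q2) (pc := pcF0) (cut := Cut.none) (xt := Ext.none) (P1 := 536870912) (W1 := 536870912) (P2 := 0) (W2 := 536870912) (P3 := 33554432) (W3 := 16777216)
    rfl rfl rfl (fun _ => rfl) k0_pp_102

noncomputable def f_pp_112 : ℕ → ℕ → ℕ → ℕ → Bool := onCell 536870912 536870912 0 536870912 33554432 16777216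
    (rowFK 2 false true true .dn 1 1 2 (qsf 536870912 536870912 0 536870912 1) ndF1q1 ndF0q2 pcF1 Cut.none Ext.none)

def k0_pp_112 : ∃ t, chk3 f_pp_112 t 1 1 1 = true :=
  ⟨(a (b (a (b (l 18223904) (a (l 18010168) (l 18077008))) (b (l 18271536) (l 18126088))) (a (b (b (l 93586239959) (l 3)) (l 3)) (b (l 1) (l 1)))) (l 1)), by decide +kernel⟩

theorem c_pp_112 : CertF 536870912 536870912 0 536870912 33554432 16777216 false true true .dn 1 1 2
    ndF1q1 ndF0q2 pcF1 Cut.none Ext.none :=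
  certFK2 (fam := false) (s1 := true) (s2 := true) (a := 1) (b := 1) (c := 2) (cn := .dn) (n1 := ndF1q1) (n2 := ndF0q2) (pc := pcF1) (cut := Cut.none) (xt := Ext.none) (P1 := 536870912) (W1 := 536870912) (P2 := 0) (W2 := 536870912) (P3 := 33554432) (W3 := 16777216)
    rfl rfl rfl (fun _ => rfl) k0_pp_112

noncomputable def f_pp_202_a : ℕ → ℕ → ℕ → ℕ → Bool := onCell 0 536870912 0 536870912 33554432 16777216
    (rowFK 0 false true true .pp 2 0 2 (qsf 0 536870912 0 536870912 0) ndF1q2a ndF0q2 pcF0 Cut.none Ext.none)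

def k0_pp_202_a : ∃ t, chk3 f_pp_202_a t 1 1 1 = true :=
  ⟨(l 3), by decide +kernel⟩

theorem c_pp_202_a : CertF 0 536870912 0 536870912 33554432 16777216 false true true .pp 2 0 2
    ndF1q2a ndF0q2 pcF0 Cut.none Ext.none :=
  certFK0 (fam := false) (s1 := true) (s2 := true) (a := 2) (b := 0) (c := 2) (cn := .pp) (n1 := ndF1q2a) (n2 := ndF0q2) (pc := pcF0) (cut := Cut.none) (xt := Ext.none) (P1 := 0) (W1 := 536870912) (P2 := 0) (W2 := 536870912) (P3 := 33554432) (W3 := 16777216)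
    rfl rfl rfl k0_pp_202_a

noncomputable def f_pp_202_b : ℕ → ℕ → ℕ → ℕ → Bool := onCell 1239849684 370763052 0 536870912 33554432 16777216
    (rowFK 0 false true true .pp 2 0 2 (qsf 1239849684 370763052 0 536870912 0) ndF1q2b ndF0q2 pcF0 Cut.none Ext.none)

def k0_pp_202_b : ∃ t, chk3 f_pp_202_b t 1 1 1 = true :=
  ⟨(l 3), by decide +kernel⟩

theorem c_pp_202_b : CertF 1239849684 370763052 0 536870912 33554432 16777216 false true true .pp 2 0 2
    ndF1q2b ndF0q2 pcF0 Cut.none Ext.none :=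
  certFK0 (fam := false) (s1 := true) (s2 := true) (a := 2) (b := 0) (c := 2) (cn := .pp) (n1 := ndF1q2b) (n2 := ndF0q2) (pc := pcF0) (cut := Cut.none) (xt := Ext.none) (P1 := 1239849684) (W1 := 370763052) (P2 := 0) (W2 := 536870912) (P3 := 33554432) (W3 := 16777216)
    rfl rfl rfl k0_pp_202_b

noncomputable def f_pm_001 : ℕ → ℕ → ℕ → ℕ → Bool := onCell 0 536870912 0 536870912 33554432 16777216
    (rowFK 1 false true false .up 0 0 1 (qsf 0 536870912 536870912 536870912 0) ndF1q0 ndF0q1 pcF0 Cut.none Ext.none)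

def k0_pm_001 : ∃ t, chk3 f_pm_001 t 1 1 1 = true :=
  ⟨(a (l 4) (b (l 4) (b (l 4) (a (l 4) (b (l 4) (a (l 4) (b (l 4) (a (l 4) (c (l 17329016) (l 17361912)))))))))), by decide +kernel⟩

theorem c_pm_001 : CertF 0 536870912 536870912 536870912 33554432 16777216 false true false .up 0 0 1
    ndF1q0 ndF0q1 pcF0 Cut.none Ext.none :=
  certFK1 (fam := false) (s1 := true) (s2 := false) (a := 0) (b := 0) (c := 1) (cn := .up) (n1 := ndF1q0) (n2 := ndF0q1) (pc := pcF0) (cut := Cut.none) (xt := Ext.none) (P1 := 0) (W1 := 536870912) (P2 := 536870912) (W2 := 536870912) (P3 := 33554432) (W3 := 16777216)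
    rfl rfl rfl (fun _ => rfl) k0_pm_001

noncomputable def cut_pm_011 : Cut := Cut.of [[⟨0, 0, 0, 33554432⟩, ⟨1, 1, 0, 33554432⟩, ⟨2, 1, 0, 33554432⟩]]

noncomputable def f_pm_011 : ℕ → ℕ → ℕ → ℕ → Bool := onCell 0 536870912 536870912 536870912 33554432 16777216
    (rowFK 0 false true false .pnn 0 1 1 (qsf 0 536870912 536870912 536870912 1) ndF1q0 ndF0q1 pcF1 cut_pm_011 Ext.none)

def k0_pm_011 : ∃ t, chk3 f_pm_011 t 1 1 1 = true :=
  ⟨(b (l 4) (b (l 4) (b (l 4) (b (a (l 4) (l 4)) (a (a (a (a (b (l 4) (a (a (l 6) (l 4)) (l 4))) (l 4)) (l 4)) (l 4)) (a (l 594016560871) (a (l 17379872) (l 17305312)))))))), by decide +kernel⟩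

theorem c_pm_011 : CertF 0 536870912 536870912 536870912 33554432 16777216 false true false .pnn 0 1 1
    ndF1q0 ndF0q1 pcF1 cut_pm_011 Ext.none :=
  certFK0 (fam := false) (s1 := true) (s2 := false) (a := 0) (b := 1) (c := 1) (cn := .pnn) (n1 := ndF1q0) (n2 := ndF0q1) (pc := pcF1) (cut := cut_pm_011) (xt := Ext.none) (P1 := 0) (W1 := 536870912) (P2 := 536870912) (W2 := 536870912) (P3 := 33554432) (W3 := 16777216)
    rfl rfl rfl k0_pm_011

noncomputable def cut_pm_012 : Cut := Cut.of [[⟨0, 0, 0, 33554432⟩, ⟨1, 1, 0, 33554432⟩, ⟨2, 1, 0, 33554432⟩]]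

noncomputable def f_pm_012 : ℕ → ℕ → ℕ → ℕ → Bool := onCell 536870912 536870912 0 536870912 33554432 16777216
    (rowFK 2 false true false .pnp 0 1 2 (qsf 0 536870912 0 536870912 1) ndF1q0 ndF0q2 pcF1 cut_pm_012 Ext.none)

def k0_pm_012 : ∃ t, chk3 f_pm_012 t 1 1 1 = true :=
  ⟨(a (b (a (b (l 2) (l 17751224)) (l 17782712)) (b (l 18246672) (a (b (l 18156176) (l 17761920)) (a (l 18210544) (l 18340544))))) (b (a (l 18204968) (a (l 18827000) (a (l 19155512) (a (l 19415112) (a (l 19551848) (l 19612264)))))) (a (b (l 18674296) (a (l 18665400) (b (l 18755352) (l 18415136)))) (a (b (l 19091896) (b (l 18946056) (b (l 18562432) (l 129087214567)))) (a (b (l 19420448) (b (l 19031960) (a (b (l 18443880) (l 17778232)) (b (l 18248480) (b (l 17593344) (l 17059408)))))) (a (b (l 19606968) (b (l 18927400) (b (b (l 18040856) (l 17453504)) (b (l 16811656) (b (l 16787752) (l 16785784)))))) (a (b (l 19693344) (b (l 18735416) (b (l 16888128) (b (l 16767328) (l 6))))) (b (l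 19714664) (b (b (l 18907832) (l 17909528)) (b (b (l 16713984) (l 16730528)) (l 6))))))))))), by decide +kernel⟩

theorem c_pm_012 : CertF 0 536870912 0 536870912 33554432 16777216 false true false .pnp 0 1 2
    ndF1q0 ndF0q2 pcF1 cut_pm_012 Ext.none :=
  certFK2 (fam := false) (s1 := true) (s2 := false) (a := 0) (b := 1) (c := 2) (cn := .pnp) (n1 := ndF1q0) (n2 := ndF0q2) (pc := pcF1) (cut := cut_pm_012) (xt := Ext.none) (P1 := 0) (W1 := 536870912) (P2 := 0) (W2 := 536870912) (P3 := 33554432) (W3 := 16777216)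
    rfl rfl rfl (fun _ => rfl) k0_pm_012

noncomputable def cut_pm_022 : Cut := Cut.of [[⟨0, 0, 0, 33554432⟩, ⟨1, 1, 0, 33554432⟩, ⟨2, 1, 0, 33554432⟩]]

noncomputable def f_pm_022 : ℕ → ℕ → ℕ → ℕ → Bool := onCell 0 536870912 0 536870912 33554432 16777216
    (rowFK 0 false true false .pp 0 2 2 (qsf 0 536870912 0 536870912 2) ndF1q0 ndF0q2 pcF2 cut_pm_022 Ext.none)

def k0_pm_022 : ∃ t, chk3 f_pm_022 t 1 1 1 = true :=
  ⟨(a (b (a (b (l 19626008) (a (l 19581592) (l 19847272))) (b (l 19820952) (a (l 20026968) (l 1)))) (a (b (a (a (b (l 19334264) (b (l 19103088) (a (l 18767064) (l 18912944)))) (b (l 19547912) (b (l 19372736) (l 19137728)))) (b (l 19843072) (a (l 19513832) (l 19635336)))) (a (b (a (a (b (a (c (l 18544056) (b (l 18177072) (l 17847832))) (l 18351824)) (a (a (b (c (l 18015368) (b (l 17510848) (a (l 17130880) (l 17238328)))) (b (c (l 17440440) (l 16738496)) (b (c (l 17151584) (l 16738800)) (l 16743232)))) (b (l 17699032) (l 17085520))) (b (l 17755296)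 (l 17088896)))) (b (l 18458088) (b (l 17830064) (a (l 17096608) (l 17107480))))) (b (a (l 18604304) (l 18744008)) (a (b (l 17936752) (l 17122392)) (b (l 18006840) (l 17118344))))) (a (a (b (b (a (a (a (a (b (a (l 16749952) (l 16746488)) (b (l 16749848) (l 16751744))) (l 16747120)) (l 16744624)) (l 16739680)) (l 16740512)) (l 6)) (l 6)) (b (b (a (l 16717768) (l 16706240)) (a (l 6) (b (l 16713424) (l 16718536)))) (a (l 6) (l 1)))) (b (a (a (l 16695440) (l 1)) (l 1)) (l 1)))) (b (a (b (l 18824232) (l 1)) (l 1)) (l 1)))) (b (l 1) (l 1)))) (l 1)), by decide +kernel⟩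

theorem c_pm_022 : CertF 0 536870912 0 536870912 33554432 16777216 false true false .pp 0 2 2
    ndF1q0 ndF0q2 pcF2 cut_pm_022 Ext.none :=
  certFK0 (fam := false) (s1 := true) (s2 := false) (a := 0) (b := 2) (c := 2) (cn := .pp) (n1 := ndF1q0) (n2 := ndF0q2) (pc := pcF2) (cut := cut_pm_022) (xt := Ext.none) (P1 := 0) (W1 := 536870912) (P2 := 0) (W2 := 536870912) (P3 := 33554432) (W3 := 16777216)
    rfl rfl rfl k0_pm_022

noncomputable def f_pm_101 : ℕ → ℕ → ℕ → ℕ → Bool := onCell 0 536870912 536870912 536870912 33554432 16777216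
    (rowFK 2 false true false .npn 1 0 1 (qsf 536870912 536870912 536870912 536870912 0) ndF1q1 ndF0q1 pcF0 Cut.none Ext.none)

def k0_pm_101 : ∃ t, chk3 f_pm_101 t 1 1 1 = true :=
  ⟨(b (l 4) (a (a (b (b (l 4) (a (l 18612152) (l 4))) (b (b (l 19088144) (l 19091512)) (c (l 19847512) (l 19008280)))) (b (l 4) (b (a (l 18972992) (l 18971000)) (c (l 19551544) (l 18984840))))) (b (l 4) (a (b (a (l 18951576) (l 4)) (b (a (l 19028896) (l 18947888)) (l 19164528))) (b (l 4) (b (a (l 18895848) (l 4)) (a (l 19036920) (l 19018000)))))))), by decide +kernel⟩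

theorem c_pm_101 : CertF 536870912 536870912 536870912 536870912 33554432 16777216 false true false .npn 1 0 1
    ndF1q1 ndF0q1 pcF0 Cut.none Ext.none :=
  certFK2 (fam := false) (s1 := true) (s2 := false) (a := 1) (b := 0) (c := 1) (cn := .npn) (n1 := ndF1q1) (n2 := ndF0q1) (pc := pcF0) (cut := Cut.none) (xt := Ext.none) (P1 := 536870912) (W1 := 536870912) (P2 := 536870912) (W2 := 536870912) (P3 := 33554432) (W3 := 16777216)
    rfl rfl rfl (fun _ => rfl) k0_pm_101

noncomputable def f_pm_102 : ℕ → ℕ → ℕ → ℕ → Bool := onCell 536870912 536870912 0 536870912 33554432 16777216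
    (rowFK 0 false true false .npp 1 0 2 (qsf 536870912 536870912 0 536870912 0) ndF1q1 ndF0q2 pcF0 Cut.none Ext.none)

def k0_pm_102 : ∃ t, chk3 f_pm_102 t 1 1 1 = true :=
  ⟨(a (b (a (b (l 2) (l 16973352)) (b (l 17361632) (b (l 17209728) (a (l 17031168) (l 17180248))))) (b (a (a (l 2) (b (b (l 16966440) (l 17003040)) (c (l 18438992) (l 17474408)))) (b (a (b (l 16941104) (l 17200256)) (b (l 17146160) (l 17385976))) (c (b (l 18348688) (l 19037984)) (b (l 17417088) (l 17833976))))) (a (a (b (c (l 19261672) (l 18112856)) (l 18965600)) (b (c (l 19292488) (l 18187776)) (l 19020704))) (b (b (c (l 19688016) (l 18197632)) (c (l 19679864) (l 18444512))) (c (l 19623464) (l 18746928)))))) (b (a (b (a (l 17628408) (l 17882624)) (b (l 17614600) (a (l 17399904) (l 17637768)))) (b (a (l 18215392) (a (l 18574168) (l 18873168))) (a (b (l 18147640) (l 17966936)) (b (a (l 18537688) (l 18846960)) (l 18390232))))) (a (b (b (a (c (l 17764032) (l 17251008)) (c (l 18064560)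 (l 17460192))) (c (b (l 18741112) (l 19446400)) (c (l 18118432) (l 17477856)))) (b (c (a (l 19939528) (l 20131672)) (c (l 19062256) (l 18226000))) (c (l 19996456) (l 18825272)))) (b (b (a (c (b (l 17903248) (l 18323552)) (l 17721448)) (c (b (l 18119192) (l 18458280)) (l 18088136))) (a (c (l 19356248) (l 18085520)) (c (l 19689608) (c (l 18306672) (l 17887720))))) (b (b (c (a (l 20280464) (l 20382320)) (a (l 18432504) (l 18650888))) (c (l 20468536) (l 18740008))) (c (l 20428616) (l 19090712))))))), by decide +kernel⟩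

theorem c_pm_102 : CertF 536870912 536870912 0 536870912 33554432 16777216 false true false .npp 1 0 2
    ndF1q1 ndF0q2 pcF0 Cut.none Ext.none :=
  certFK0 (fam := false) (s1 := true) (s2 := false) (a := 1) (b := 0) (c := 2) (cn := .npp) (n1 := ndF1q1) (n2 := ndF0q2) (pc := pcF0) (cut := Cut.none) (xt := Ext.none) (P1 := 536870912) (W1 := 536870912) (P2 := 0) (W2 := 536870912) (P3 := 33554432) (W3 := 16777216)
    rfl rfl rfl k0_pm_102

noncomputable def f_pm_112 : ℕ → ℕ → ℕ → ℕ → Bool := onCell 536870912 536870912 0 536870912 33554432 16777216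
    (rowFK 2 false true false .dn 1 1 2 (qsf 536870912 536870912 0 536870912 1) ndF1q1 ndF0q2 pcF1 Cut.none Ext.none)

def k0_pm_112 : ∃ t, chk3 f_pm_112 t 1 1 1 = true :=
  ⟨(a (b (a (b (l 18457872) (l 18820736)) (l 18642480)) (b (l 19275992) (a (l 19565904) (l 1)))) (l 1)), by decide +kernel⟩

theorem c_pm_112 : CertF 536870912 536870912 0 536870912 33554432 16777216 false true false .dn 1 1 2
    ndF1q1 ndF0q2 pcF1 Cut.none Ext.none :=
  certFK2 (fam := false) (s1 := true) (s2 := false) (a := 1) (b := 1) (c := 2) (cn := .dn) (n1 := ndF1q1) (n2 := ndF0q2) (pc := pcF1) (cut := Cut.none) (xt := Ext.none) (P1 := 536870912) (W1 := 536870912) (P2 := 0) (W2 := 536870912) (P3 := 33554432) (W3 := 16777216)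
    rfl rfl rfl (fun _ => rfl) k0_pm_112

noncomputable def cut_pm_202_a : Cut := Cut.of [[⟨0, 1, 0, 33554432⟩, ⟨1, 0, 0, 33554432⟩, ⟨2, 1, 0, 33554432⟩]]

noncomputable def f_pm_202_a : ℕ → ℕ → ℕ → ℕ → Bool := onCell 0 536870912 0 536870912 33554432 16777216
    (rowFK 0 false true false .pp 2 0 2 (qsf 0 536870912 0 536870912 0) ndF1q2a ndF0q2 pcF0 cut_pm_202_a Ext.none)

def k0_pm_202_a : ∃ t, chk3 f_pm_202_a t 1 1 1 = true :=
  ⟨(a (l 3) (b (l 3) (b (l 3) (b (l 3) (a (l 1) (a (l 3) (a (l 3) (b (l 3) (l 6))))))))), by decide +kernel⟩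

theorem c_pm_202_a : CertF 0 536870912 0 536870912 33554432 16777216 false true false .pp 2 0 2
    ndF1q2a ndF0q2 pcF0 cut_pm_202_a Ext.none :=
  certFK0 (fam := false) (s1 := true) (s2 := false) (a := 2) (b := 0) (c := 2) (cn := .pp) (n1 := ndF1q2a) (n2 := ndF0q2) (pc := pcF0) (cut := cut_pm_202_a) (xt := Ext.none) (P1 := 0) (W1 := 536870912) (P2 := 0) (W2 := 536870912) (P3 := 33554432) (W3 := 16777216)
    rfl rfl rfl k0_pm_202_a

noncomputable def cut_pm_202_b : Cut := Cut.of [[⟨0, 1, 0, 33554432⟩, ⟨1, 0, 0, 33554432⟩, ⟨2, 1, 0, 33554432⟩]]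

noncomputable def f_pm_202_b : ℕ → ℕ → ℕ → ℕ → Bool := onCell 1239849684 370763052 0 536870912 33554432 16777216
    (rowFK 0 false true false .pp 2 0 2 (qsf 1239849684 370763052 0 536870912 0) ndF1q2b ndF0q2 pcF0 cut_pm_202_b Ext.none)

def k0_pm_202_b : ∃ t, chk3 f_pm_202_b t 1 1 1 = true :=
  ⟨(l 3), by decide +kernel⟩

theorem c_pm_202_b : CertF 1239849684 370763052 0 536870912 33554432 16777216 false true false .pp 2 0 2
    ndF1q2b ndF0q2 pcF0 cut_pm_202_b Ext.none :=
  certFK0 (fam := false) (s1 := true) (s2 := false) (a := 2) (b := 0) (c := 2) (cn := .pp) (n1 := ndF1q2b) (n2 := ndF0q2) (pc := pcF0) (cut := cut_pm_202_b) (xt := Ext.none) (P1 := 1239849684) (W1 := 370763052) (P2 := 0) (W2 := 536870912) (P3 := 33554432) (W3 := 16777216)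
    rfl rfl rfl k0_pm_202_b

noncomputable def f_mm_001 : ℕ → ℕ → ℕ → ℕ → Bool := onCell 0 536870912 536870912 536870912 33554432 16777216
    (rowFK 0 false false false .up 0 0 1 (qsf 0 536870912 536870912 536870912 0) ndF1q0 ndF0q1 pcF0 Cut.none Ext.none)

def k0_mm_001 : ∃ t, chk3 f_mm_001 t 1 1 1 = true :=
  ⟨(l 5), by decide +kernel⟩

theorem c_mm_001 : CertF 0 536870912 536870912 536870912 33554432 16777216 false false false .up 0 0 1
    ndF1q0 ndF0q1 pcF0 Cut.none Ext.none :=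
  certFK0 (fam := false) (s1 := false) (s2 := false) (a := 0) (b := 0) (c := 1) (cn := .up) (n1 := ndF1q0) (n2 := ndF0q1) (pc := pcF0) (cut := Cut.none) (xt := Ext.none) (P1 := 0) (W1 := 536870912) (P2 := 536870912) (W2 := 536870912) (P3 := 33554432) (W3 := 16777216)
    rfl rfl rfl k0_mm_001

noncomputable def f_mm_011 : ℕ → ℕ → ℕ → ℕ → Bool := onCell 0 536870912 536870912 536870912 33554432 16777216
    (rowFK 0 false false false .pnn 0 1 1 (qsf 0 536870912 536870912 536870912 1) ndF1q0 ndF0q1 pcF1 Cut.none Ext.none)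

def k0_mm_011 : ∃ t, chk3 f_mm_011 t 1 1 1 = true :=
  ⟨(l 5), by decide +kernel⟩

theorem c_mm_011 : CertF 0 536870912 536870912 536870912 33554432 16777216 false false false .pnn 0 1 1
    ndF1q0 ndF0q1 pcF1 Cut.none Ext.none :=
  certFK0 (fam := false) (s1 := false) (s2 := false) (a := 0) (b := 1) (c := 1) (cn := .pnn) (n1 := ndF1q0) (n2 := ndF0q1) (pc := pcF1) (cut := Cut.none) (xt := Ext.none) (P1 := 0) (W1 := 536870912) (P2 := 536870912) (W2 := 536870912) (P3 := 33554432) (W3 := 16777216)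
    rfl rfl rfl k0_mm_011

noncomputable def f_mm_012 : ℕ → ℕ → ℕ → ℕ → Bool := onCell 0 536870912 0 536870912 33554432 16777216
    (rowFK 0 false false false .pnp 0 1 2 (qsf 0 536870912 0 536870912 1) ndF1q0 ndF0q2 pcF1 Cut.none Ext.none)

def k0_mm_012 : ∃ t, chk3 f_mm_012 t 1 1 1 = true :=
  ⟨(l 5), by decide +kernel⟩

theorem c_mm_012 : CertF 0 536870912 0 536870912 33554432 16777216 false false false .pnp 0 1 2
    ndF1q0 ndF0q2 pcF1 Cut.none Ext.none :=
  certFK0 (fam := false) (s1 := false) (s2 := false) (a := 0) (b := 1) (c := 2) (cn := .pnp) (n1 := ndF1q0) (n2 := ndF0q2) (pc := pcF1) (cut := Cut.none) (xt := Ext.none) (P1 := 0) (W1 := 536870912) (P2 := 0) (W2 := 536870912) (P3 := 33554432) (W3 := 16777216)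
    rfl rfl rfl k0_mm_012

noncomputable def f_mm_022 : ℕ → ℕ → ℕ → ℕ → Bool := onCell 0 536870912 0 536870912 33554432 16777216
    (rowFK 0 false false false .pp 0 2 2 (qsf 0 536870912 0 536870912 2) ndF1q0 ndF0q2 pcF2 Cut.none Ext.none)

def k0_mm_022 : ∃ t, chk3 f_mm_022 t 1 1 1 = true :=
  ⟨(l 5), by decide +kernel⟩

theorem c_mm_022 : CertF 0 536870912 0 536870912 33554432 16777216 false false false .pp 0 2 2
    ndF1q0 ndF0q2 pcF2 Cut.none Ext.none :=
  certFK0 (fam := false) (s1 := false) (s2 := false) (a := 0) (b := 2) (c := 2) (cn := .pp) (n1 := ndF1q0) (n2 := ndF0q2) (pc := pcF2) (cut := Cut.none) (xt := Ext.none) (P1 := 0) (W1 := 536870912) (P2 := 0) (W2 := 536870912) (P3 := 33554432) (W3 := 16777216)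
    rfl rfl rfl k0_mm_022

noncomputable def f_mm_101 : ℕ → ℕ → ℕ → ℕ → Bool := onCell 536870912 536870912 536870912 536870912 33554432 16777216
    (rowFK 0 false false false .npn 1 0 1 (qsf 536870912 536870912 536870912 536870912 0) ndF1q1 ndF0q1 pcF0 Cut.none Ext.none)

def k0_mm_101 : ∃ t, chk3 f_mm_101 t 1 1 1 = true :=
  ⟨(l 3), by decide +kernel⟩

theorem c_mm_101 : CertF 536870912 536870912 536870912 536870912 33554432 16777216 false false false .npn 1 0 1
    ndF1q1 ndF0q1 pcF0 Cut.none Ext.none :=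
  certFK0 (fam := false) (s1 := false) (s2 := false) (a := 1) (b := 0) (c := 1) (cn := .npn) (n1 := ndF1q1) (n2 := ndF0q1) (pc := pcF0) (cut := Cut.none) (xt := Ext.none) (P1 := 536870912) (W1 := 536870912) (P2 := 536870912) (W2 := 536870912) (P3 := 33554432) (W3 := 16777216)
    rfl rfl rfl k0_mm_101

noncomputable def f_mm_102 : ℕ → ℕ → ℕ → ℕ → Bool := onCell 536870912 536870912 0 536870912 33554432 16777216
    (rowFK 0 false false false .npp 1 0 2 (qsf 536870912 536870912 0 536870912 0) ndF1q1 ndF0q2 pcF0 Cut.none Ext.none)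

def k0_mm_102 : ∃ t, chk3 f_mm_102 t 1 1 1 = true :=
  ⟨(l 5), by decide +kernel⟩

theorem c_mm_102 : CertF 536870912 536870912 0 536870912 33554432 16777216 false false false .npp 1 0 2
    ndF1q1 ndF0q2 pcF0 Cut.none Ext.none :=
  certFK0 (fam := false) (s1 := false) (s2 := false) (a := 1) (b := 0) (c := 2) (cn := .npp) (n1 := ndF1q1) (n2 := ndF0q2) (pc := pcF0) (cut := Cut.none) (xt := Ext.none) (P1 := 536870912) (W1 := 536870912) (P2 := 0) (W2 := 536870912) (P3 := 33554432) (W3 := 16777216)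
    rfl rfl rfl k0_mm_102

noncomputable def f_mm_112 : ℕ → ℕ → ℕ → ℕ → Bool := onCell 536870912 536870912 0 536870912 33554432 16777216
    (rowFK 0 false false false .dn 1 1 2 (qsf 536870912 536870912 0 536870912 1) ndF1q1 ndF0q2 pcF1 Cut.none Ext.none)

def k0_mm_112 : ∃ t, chk3 f_mm_112 t 1 1 1 = true :=
  ⟨(l 5), by decide +kernel⟩

theorem c_mm_112 : CertF 536870912 536870912 0 536870912 33554432 16777216 false false false .dn 1 1 2
    ndF1q1 ndF0q2 pcF1 Cut.none Ext.none :=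
  certFK0 (fam := false) (s1 := false) (s2 := false) (a := 1) (b := 1) (c := 2) (cn := .dn) (n1 := ndF1q1) (n2 := ndF0q2) (pc := pcF1) (cut := Cut.none) (xt := Ext.none) (P1 := 536870912) (W1 := 536870912) (P2 := 0) (W2 := 536870912) (P3 := 33554432) (W3 := 16777216)
    rfl rfl rfl k0_mm_112

noncomputable def f_mm_202_a : ℕ → ℕ → ℕ → ℕ → Bool := onCell 0 536870912 0 536870912 33554432 16777216
    (rowFK 0 false false false .pp 2 0 2 (qsf 0 536870912 0 536870912 0) ndF1q2a ndF0q2 pcF0 Cut.none Ext.none)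

def k0_mm_202_a : ∃ t, chk3 f_mm_202_a t 1 1 1 = true :=
  ⟨(l 3), by decide +kernel⟩

theorem c_mm_202_a : CertF 0 536870912 0 536870912 33554432 16777216 false false false .pp 2 0 2
    ndF1q2a ndF0q2 pcF0 Cut.none Ext.none :=
  certFK0 (fam := false) (s1 := false) (s2 := false) (a := 2) (b := 0) (c := 2) (cn := .pp) (n1 := ndF1q2a) (n2 := ndF0q2) (pc := pcF0) (cut := Cut.none) (xt := Ext.none) (P1 := 0) (W1 := 536870912) (P2 := 0) (W2 := 536870912) (P3 := 33554432) (W3 := 16777216)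
    rfl rfl rfl k0_mm_202_a

noncomputable def f_mm_202_b : ℕ → ℕ → ℕ → ℕ → Bool := onCell 1239849684 370763052 0 536870912 33554432 16777216
    (rowFK 0 false false false .pp 2 0 2 (qsf 1239849684 370763052 0 536870912 0) ndF1q2b ndF0q2 pcF0 Cut.none Ext.none)

def k0_mm_202_b : ∃ t, chk3 f_mm_202_b t 1 1 1 = true :=
  ⟨(l 3), by decide +kernel⟩

theorem c_mm_202_b : CertF 1239849684 370763052 0 536870912 33554432 16777216 false false false .pp 2 0 2
    ndF1q2b ndF0q2 pcF0 Cut.none Ext.none :=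
  certFK0 (fam := false) (s1 := false) (s2 := false) (a := 2) (b := 0) (c := 2) (cn := .pp) (n1 := ndF1q2b) (n2 := ndF0q2) (pc := pcF0) (cut := Cut.none) (xt := Ext.none) (P1 := 1239849684) (W1 := 370763052) (P2 := 0) (W2 := 536870912) (P3 := 33554432) (W3 := 16777216)
    rfl rfl rfl k0_mm_202_b

end Pool.Agent.Strip051.G.I1_32_3_64.Tab.C.FB10

namespace Pool.Agent.Strip051.G.I1_32_3_64.Tab.C.FB11

open Pool.Agent.Strip051.PB Pool.Agent.Strip051.PB.T
open Pool.Agent.Strip051.G.I1_32_3_64.Tab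

noncomputable def f_pp_001 : ℕ → ℕ → ℕ → ℕ → Bool := onCell 0 536870912 536870912 536870912 33554432 16777216
    (rowFK 0 false true true .up 0 0 1 (qsf 0 536870912 536870912 536870912 0) ndF1q0 ndF1q1 pcF0 Cut.none Ext.none)

def k0_pp_001 : ∃ t, chk3 f_pp_001 t 1 1 1 = true :=
  ⟨(l 3), by decide +kernel⟩

theorem c_pp_001 : CertF 0 536870912 536870912 536870912 33554432 16777216 false true true .up 0 0 1
    ndF1q0 ndF1q1 pcF0 Cut.none Ext.none :=
  certFK0 (fam := false) (s1 := true) (s2 := true) (a := 0) (b := 0) (c := 1) (cn := .up) (n1 := ndF1q0) (n2 := ndF1q1) (pc := pcF0) (cut := Cut.none) (xt := Ext.none) (P1 := 0) (W1 := 536870912) (P2 := 536870912) (W2 := 536870912) (P3 := 33554432) (W3 := 16777216)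
    rfl rfl rfl k0_pp_001

noncomputable def f_pp_011 : ℕ → ℕ → ℕ → ℕ → Bool := onCell 0 536870912 536870912 536870912 33554432 16777216
    (rowFK 0 false true true .pnn 0 1 1 (qsf 0 536870912 536870912 536870912 1) ndF1q0 ndF1q1 pcF1 Cut.none Ext.none)

def k0_pp_011 : ∃ t, chk3 f_pp_011 t 1 1 1 = true :=
  ⟨(l 3), by decide +kernel⟩

theorem c_pp_011 : CertF 0 536870912 536870912 536870912 33554432 16777216 false true true .pnn 0 1 1
    ndF1q0 ndF1q1 pcF1 Cut.none Ext.none :=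
  certFK0 (fam := false) (s1 := true) (s2 := true) (a := 0) (b := 1) (c := 1) (cn := .pnn) (n1 := ndF1q0) (n2 := ndF1q1) (pc := pcF1) (cut := Cut.none) (xt := Ext.none) (P1 := 0) (W1 := 536870912) (P2 := 536870912) (W2 := 536870912) (P3 := 33554432) (W3 := 16777216)
    rfl rfl rfl k0_pp_011

noncomputable def cut_pp_012_a : Cut := Cut.of [[⟨0, 0, 0, 33554432⟩, ⟨1, 1, 0, 33554432⟩, ⟨2, 1, 0, 33554432⟩]]

noncomputable def f_pp_012_a : ℕ → ℕ → ℕ → ℕ → Bool := onCell 536870912 536870912 0 536870912 33554432 16777216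
    (rowFK 2 false true true .pnp 0 1 2 (qsf 0 536870912 0 536870912 1) ndF1q0 ndF1q2a pcF1 cut_pp_012_a Ext.none)

def k0_pp_012_a : ∃ t, chk3 f_pp_012_a t 1 1 1 = true :=
  ⟨(a (a (b (a (l 2) (l 17832008)) (l 3)) (a (b (l 17563032) (l 3)) (b (l 17448888) (l 202033090567)))) (a (b (a (l 17367344) (l 17202952)) (a (b (l 17572104) (l 3)) (b (l 17423864) (b (l 17585632) (l 3))))) (b (a (l 17667672) (b (l 18319504) (l 18285648))) (a (b (l 17217208) (a (l 196663317287) (b (l 17013496) (l 212232309415)))) (a (b (l 17612352) (b (l 16984824) (b (l 16917496) (l 216527048807)))) (a (b (l 17790152) (b (l 17245896) (b (l 16861592) (b (l 16845912) (l 213305746295))))) (b (l 17998688) (b (b (l 17520808) (a (l 17187000) (l 17132304))) (b (b (l 16810648) (b (l 16807768) (l 16805800))) (b (a (l 16813864) (l 6)) (l 6))))))))))), by decide +kernel⟩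

theorem c_pp_012_a : CertF 0 536870912 0 536870912 33554432 16777216 false true true .pnp 0 1 2
    ndF1q0 ndF1q2a pcF1 cut_pp_012_a Ext.none :=
  certFK2 (fam := false) (s1 := true) (s2 := true) (a := 0) (b := 1) (c := 2) (cn := .pnp) (n1 := ndF1q0) (n2 := ndF1q2a) (pc := pcF1) (cut := cut_pp_012_a) (xt := Ext.none) (P1 := 0) (W1 := 536870912) (P2 := 0) (W2 := 536870912) (P3 := 33554432) (W3 := 16777216)
    rfl rfl rfl (fun _ => rfl) k0_pp_012_a

noncomputable def cut_pp_012_b : Cut := Cut.of [[⟨0, 0, 0, 33554432⟩, ⟨1, 1, 0, 33554432⟩, ⟨2, 1, 0, 33554432⟩]]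

noncomputable def f_pp_012_b : ℕ → ℕ → ℕ → ℕ → Bool := onCell 536870912 536870912 1239849684 370763052 33554432 16777216
    (rowFK 2 false true true .pnp 0 1 2 (qsf 0 536870912 1239849684 370763052 1) ndF1q0 ndF1q2b pcF1 cut_pp_012_b Ext.none)

def k0_pp_012_b : ∃ t, chk3 f_pp_012_b t 1 1 1 = true :=
  ⟨(a (a (l 2) (b (a (l 17216064) (l 17149528)) (l 2))) (a (b (a (l 17252088) (l 17643064)) (l 17758512)) (b (a (l 18123104) (l 18639424)) (l 18574088)))), by decide +kernel⟩

theorem c_pp_012_b : CertF 0 536870912 1239849684 370763052 33554432 16777216 false true true .pnp 0 1 2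
    ndF1q0 ndF1q2b pcF1 cut_pp_012_b Ext.none :=
  certFK2 (fam := false) (s1 := true) (s2 := true) (a := 0) (b := 1) (c := 2) (cn := .pnp) (n1 := ndF1q0) (n2 := ndF1q2b) (pc := pcF1) (cut := cut_pp_012_b) (xt := Ext.none) (P1 := 0) (W1 := 536870912) (P2 := 1239849684) (W2 := 370763052) (P3 := 33554432) (W3 := 16777216)
    rfl rfl rfl (fun _ => rfl) k0_pp_012_b

noncomputable def cut_pp_022_a : Cut := Cut.of [[⟨0, 0, 0, 33554432⟩, ⟨1, 1, 0, 33554432⟩, ⟨2, 1, 0, 33554432⟩]]

noncomputable def f_pp_022_a : ℕ → ℕ → ℕ → ℕ → Bool := onCell 0 536870912 0 536870912 33554432 16777216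
    (rowFK 0 false true true .pp 0 2 2 (qsf 0 536870912 0 536870912 2) ndF1q0 ndF1q2a pcF2 cut_pp_022_a Ext.none)

def k0_pp_022_a : ∃ t, chk3 f_pp_022_a t 1 1 1 = true :=
  ⟨(a (b (a (b (l 19264984) (a (l 19244048) (a (l 18972888) (b (l 18891424) (a (l 18729680) (b (l 18693488) (a (l 18582624) (l 18537744)))))))) (a (a (b (a (l 18970168) (b (l 18959864) (l 18856496))) (b (a (a (l 18783064) (l 18744656)) (l 18723784)) (l 18574720))) (l 18772784)) (l 1))) (a (b (b (a (l 18958360) (a (l 18590416) (b (a (b (l 18547968) (a (l 18487240) (l 18424792))) (l 18425864)) (l 18310488)))) (a (a (b (l 18821856) (l 18536584)) (l 18386992)) (a (b (a (l 18317304) (b (a (l 18278472) (l 18208504)) (l 18113640))) (a (a (l 18024616) (l 17959480)) (l 17922040))) (l 18036496)))) (a (b (a (b (a (a (b (l 18345008) (l 17903616)) (l 18126152)) (l 18006376)) (a (a (b (a (c (l 17969496) (b (l 17479792) (l 17000400))) (l 17626640)) (a (a (b (c (l 17513032) (l 16821392)) (l 16762808))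 (l 17013056)) (l 17042848))) (b (l 17577216) (l 17019112))) (b (l 17479504) (l 16973000)))) (b (a (l 17846904) (b (l 17819392) (a (l 17584016) (l 17523320)))) (a (b (l 17349272) (a (b (l 17051576) (l 16796744)) (l 16903280))) (b (l 17261048) (l 16888936))))) (a (b (b (a (a (a (a (b (l 16728136) (l 16735672)) (l 16732096)) (l 16734456)) (l 16739672)) (a (l 16747408) (l 16755976))) (a (l 6) (a (l 6) (l 16751720)))) (a (l 6) (a (l 6) (l 1)))) (b (a (b (b (l 16765480) (l 16772448)) (l 1)) (l 1)) (l 1)))) (b (a (b (l 17615600) (l 1)) (l 1)) (l 1)))) (b (l 1) (l 1)))) (l 1)), by decide +kernel⟩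

theorem c_pp_022_a : CertF 0 536870912 0 536870912 33554432 16777216 false true true .pp 0 2 2
    ndF1q0 ndF1q2a pcF2 cut_pp_022_a Ext.none :=
  certFK0 (fam := false) (s1 := true) (s2 := true) (a := 0) (b := 2) (c := 2) (cn := .pp) (n1 := ndF1q0) (n2 := ndF1q2a) (pc := pcF2) (cut := cut_pp_022_a) (xt := Ext.none) (P1 := 0) (W1 := 536870912) (P2 := 0) (W2 := 536870912) (P3 := 33554432) (W3 := 16777216)
    rfl rfl rfl k0_pp_022_a

noncomputable def cut_pp_022_b : Cut := Cut.of [[⟨0, 0, 0, 33554432⟩, ⟨1, 1, 0, 33554432⟩, ⟨2, 1, 0, 33554432⟩]]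

noncomputable def f_pp_022_b : ℕ → ℕ → ℕ → ℕ → Bool := onCell 1073741824 536870912 1239849684 370763052 33554432 16777216
    (rowFK 2 false true true .pp 0 2 2 (qsf 0 536870912 1239849684 370763052 2) ndF1q0 ndF1q2b pcF2 cut_pp_022_b Ext.none)

def k0_pp_022_b : ∃ t, chk3 f_pp_022_b t 1 1 1 = true :=
  ⟨(a (a (a (a (a (a (l 19299216) (l 19312152)) (l 19332368)) (l 19369456)) (b (l 19433064) (l 19414544))) (b (b (l 163247849975) (l 19593504)) (l 19507208))) (b (a (b (l 1) (l 493423937607)) (l 1)) (a (l 19562632) (b (a (l 19553272) (l 1)) (l 19508216))))), by decide +kernel⟩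

theorem c_pp_022_b : CertF 0 536870912 1239849684 370763052 33554432 16777216 false true true .pp 0 2 2
    ndF1q0 ndF1q2b pcF2 cut_pp_022_b Ext.none :=
  certFK2 (fam := false) (s1 := true) (s2 := true) (a := 0) (b := 2) (c := 2) (cn := .pp) (n1 := ndF1q0) (n2 := ndF1q2b) (pc := pcF2) (cut := cut_pp_022_b) (xt := Ext.none) (P1 := 0) (W1 := 536870912) (P2 := 1239849684) (W2 := 370763052) (P3 := 33554432) (W3 := 16777216)
    rfl rfl rfl (fun _ => rfl) k0_pp_022_b

noncomputable def f_pp_023 : ℕ → ℕ → ℕ → ℕ → Bool := onCell 0 536870912 1073741824 536870912 33554432 16777216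
    (rowFK 1 false true true .up 0 2 3 (qsf 0 536870912 1610612736 536870912 2) ndF1q0 ndF1q3 pcF2 Cut.none Ext.none)

def k0_pp_023 : ∃ t, chk3 f_pp_023 t 1 1 1 = true :=
  ⟨(b (b (b (b (b (b (l 320551678231) (l 323236050151)) (l 322162325031)) (l 323236068071)) (l 329141554279)) (l 335584109335)) (b (a (l 390343607255) (l 19329344)) (a (l 18777096) (l 18783840)))), by decide +kernel⟩

theorem c_pp_023 : CertF 0 536870912 1610612736 536870912 33554432 16777216 false true true .up 0 2 3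
    ndF1q0 ndF1q3 pcF2 Cut.none Ext.none :=
  certFK1 (fam := false) (s1 := true) (s2 := true) (a := 0) (b := 2) (c := 3) (cn := .up) (n1 := ndF1q0) (n2 := ndF1q3) (pc := pcF2) (cut := Cut.none) (xt := Ext.none) (P1 := 0) (W1 := 536870912) (P2 := 1610612736) (W2 := 536870912) (P3 := 33554432) (W3 := 16777216)
    rfl rfl rfl (fun _ => rfl) k0_pp_023

noncomputable def f_pp_033 : ℕ → ℕ → ℕ → ℕ → Bool := onCell 0 536870912 1610612736 536870912 33554432 16777216
    (rowFK 1 false true true .pnn 0 3 3 (qsf 0 536870912 1610612736 536870912 3) ndF1q0 ndF1q3 pcF3 Cut.none Ext.none)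

def k0_pp_033 : ∃ t, chk3 f_pp_033 t 1 1 1 = true :=
  ⟨(a (b (b (a (l 17814712) (l 18185152)) (b (l 17928120) (l 17939592))) (a (b (l 4) (l 4)) (b (l 4) (a (b (l 4) (l 2)) (l 2))))) (b (b (b (l 18370120) (l 18138696)) (a (l 18434224) (a (b (l 4) (l 2)) (l 2)))) (a (b (a (b (l 4) (l 2)) (l 2)) (l 2)) (l 2)))), by decide +kernel⟩

theorem c_pp_033 : CertF 0 536870912 1610612736 536870912 33554432 16777216 false true true .pnn 0 3 3
    ndF1q0 ndF1q3 pcF3 Cut.none Ext.none :=
  certFK1 (fam := false) (s1 := true) (s2 := true) (a := 0) (b := 3) (c := 3) (cn := .pnn) (n1 := ndF1q0) (n2 := ndF1q3) (pc := pcF3) (cut := Cut.none) (xt := Ext.none) (P1 := 0) (W1 := 536870912) (P2 := 1610612736) (W2 := 536870912) (P3 := 33554432) (W3 := 16777216)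
    rfl rfl rfl (fun _ => rfl) k0_pp_033

noncomputable def f_pp_101 : ℕ → ℕ → ℕ → ℕ → Bool := onCell 536870912 536870912 536870912 536870912 33554432 16777216
    (rowFK 0 false true true .npn 1 0 1 (qsf 536870912 536870912 536870912 536870912 0) ndF1q1 ndF1q1 pcF0 Cut.none Ext.none)

def k0_pp_101 : ∃ t, chk3 f_pp_101 t 1 1 1 = true :=
  ⟨(l 3), by decide +kernel⟩

theorem c_pp_101 : CertF 536870912 536870912 536870912 536870912 33554432 16777216 false true true .npn 1 0 1
    ndF1q1 ndF1q1 pcF0 Cut.none Ext.none :=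
  certFK0 (fam := false) (s1 := true) (s2 := true) (a := 1) (b := 0) (c := 1) (cn := .npn) (n1 := ndF1q1) (n2 := ndF1q1) (pc := pcF0) (cut := Cut.none) (xt := Ext.none) (P1 := 536870912) (W1 := 536870912) (P2 := 536870912) (W2 := 536870912) (P3 := 33554432) (W3 := 16777216)
    rfl rfl rfl k0_pp_101

noncomputable def f_pp_102_a : ℕ → ℕ → ℕ → ℕ → Bool := onCell 0 536870912 0 536870912 33554432 16777216
    (rowFK 2 false true true .npp 1 0 2 (qsf 536870912 536870912 0 536870912 0) ndF1q1 ndF1q2a pcF0 Cut.none Ext.none)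

def k0_pp_102_a : ∃ t, chk3 f_pp_102_a t 1 1 1 = true :=
  ⟨(b (a (l 3) (a (l 3) (l 3))) (l 3)), by decide +kernel⟩

theorem c_pp_102_a : CertF 536870912 536870912 0 536870912 33554432 16777216 false true true .npp 1 0 2
    ndF1q1 ndF1q2a pcF0 Cut.none Ext.none :=
  certFK2 (fam := false) (s1 := true) (s2 := true) (a := 1) (b := 0) (c := 2) (cn := .npp) (n1 := ndF1q1) (n2 := ndF1q2a) (pc := pcF0) (cut := Cut.none) (xt := Ext.none) (P1 := 536870912) (W1 := 536870912) (P2 := 0) (W2 := 536870912) (P3 := 33554432) (W3 := 16777216)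
    rfl rfl rfl (fun _ => rfl) k0_pp_102_a

noncomputable def f_pp_102_b : ℕ → ℕ → ℕ → ℕ → Bool := onCell 0 536870912 1239849684 370763052 33554432 16777216
    (rowFK 2 false true true .npp 1 0 2 (qsf 536870912 536870912 1239849684 370763052 0) ndF1q1 ndF1q2b pcF0 Cut.none Ext.none)

def k0_pp_102_b : ∃ t, chk3 f_pp_102_b t 1 1 1 = true :=
  ⟨(a (l 3) (a (b (l 3) (l 3)) (b (a (l 3) (l 18312920)) (l 3)))), by decide +kernel⟩

theorem c_pp_102_b : CertF 536870912 536870912 1239849684 370763052 33554432 16777216 false true true .npp 1 0 2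
    ndF1q1 ndF1q2b pcF0 Cut.none Ext.none :=
  certFK2 (fam := false) (s1 := true) (s2 := true) (a := 1) (b := 0) (c := 2) (cn := .npp) (n1 := ndF1q1) (n2 := ndF1q2b) (pc := pcF0) (cut := Cut.none) (xt := Ext.none) (P1 := 536870912) (W1 := 536870912) (P2 := 1239849684) (W2 := 370763052) (P3 := 33554432) (W3 := 16777216)
    rfl rfl rfl (fun _ => rfl) k0_pp_102_b

noncomputable def f_pp_112_a : ℕ → ℕ → ℕ → ℕ → Bool := onCell 536870912 536870912 0 536870912 33554432 16777216
    (rowFK 0 false true true .dn 1 1 2 (qsf 536870912 536870912 0 536870912 1) ndF1q1 ndF1q2a pcF1 Cut.none Ext.none)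

def k0_pp_112_a : ∃ t, chk3 f_pp_112_a t 1 1 1 = true :=
  ⟨(a (b (a (a (l 127409578503) (l 138146401415)) (a (l 146199475079) (l 1))) (l 3)) (l 1)), by decide +kernel⟩

theorem c_pp_112_a : CertF 536870912 536870912 0 536870912 33554432 16777216 false true true .dn 1 1 2
    ndF1q1 ndF1q2a pcF1 Cut.none Ext.none :=
  certFK0 (fam := false) (s1 := true) (s2 := true) (a := 1) (b := 1) (c := 2) (cn := .dn) (n1 := ndF1q1) (n2 := ndF1q2a) (pc := pcF1) (cut := Cut.none) (xt := Ext.none) (P1 := 536870912) (W1 := 536870912) (P2 := 0) (W2 := 536870912) (P3 := 33554432) (W3 := 16777216)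
    rfl rfl rfl k0_pp_112_a

noncomputable def f_pp_112_b : ℕ → ℕ → ℕ → ℕ → Bool := onCell 536870912 536870912 1239849684 370763052 33554432 16777216
    (rowFK 2 false true true .dn 1 1 2 (qsf 536870912 536870912 1239849684 370763052 1) ndF1q1 ndF1q2b pcF1 Cut.none Ext.none)

def k0_pp_112_b : ∃ t, chk3 f_pp_112_b t 1 1 1 = true :=
  ⟨(a (a (a (b (l 18229592) (l 18432624)) (l 18211872)) (b (l 18191040) (l 18096992))) (a (l 290483880119) (l 333433570023))), by decide +kernel⟩

theorem c_pp_112_b : CertF 536870912 536870912 1239849684 370763052 33554432 16777216 false true true .dn 1 1 2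
    ndF1q1 ndF1q2b pcF1 Cut.none Ext.none :=
  certFK2 (fam := false) (s1 := true) (s2 := true) (a := 1) (b := 1) (c := 2) (cn := .dn) (n1 := ndF1q1) (n2 := ndF1q2b) (pc := pcF1) (cut := Cut.none) (xt := Ext.none) (P1 := 536870912) (W1 := 536870912) (P2 := 1239849684) (W2 := 370763052) (P3 := 33554432) (W3 := 16777216)
    rfl rfl rfl (fun _ => rfl) k0_pp_112_b

noncomputable def f_pp_113 : ℕ → ℕ → ℕ → ℕ → Bool := onCell 536870912 536870912 536870912 536870912 33554432 16777216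
    (rowFK 1 false true true .nn 1 1 3 (qsf 536870912 536870912 1610612736 536870912 1) ndF1q1 ndF1q3 pcF1 Cut.none Ext.none)

def k0_pp_113 : ∃ t, chk3 f_pp_113 t 1 1 1 = true :=
  ⟨(a (b (b (l 1) (l 354371329799)) (b (l 18363680) (l 18263720))) (b (b (b (l 110094260567) (l 17790288)) (b (l 17870672) (l 17894512))) (b (b (l 17887152) (l 17903360)) (b (l 17823808) (b (l 17681088) (b (l 17583112) (b (l 17539832) (l 17492872)))))))), by decide +kernel⟩

theorem c_pp_113 : CertF 536870912 536870912 1610612736 536870912 33554432 16777216 false true true .nn 1 1 3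
    ndF1q1 ndF1q3 pcF1 Cut.none Ext.none :=
  certFK1 (fam := false) (s1 := true) (s2 := true) (a := 1) (b := 1) (c := 3) (cn := .nn) (n1 := ndF1q1) (n2 := ndF1q3) (pc := pcF1) (cut := Cut.none) (xt := Ext.none) (P1 := 536870912) (W1 := 536870912) (P2 := 1610612736) (W2 := 536870912) (P3 := 33554432) (W3 := 16777216)
    rfl rfl rfl (fun _ => rfl) k0_pp_113

noncomputable def f_pp_123 : ℕ → ℕ → ℕ → ℕ → Bool := onCell 1073741824 536870912 1610612736 536870912 33554432 16777216
    (rowFK 2 false true true .npn 1 2 3 (qsf 536870912 536870912 1610612736 536870912 2) ndF1q1 ndF1q3 pcF2 Cut.none Ext.none)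

def k0_pp_123 : ∃ t, chk3 f_pp_123 t 1 1 1 = true :=
  ⟨(a (a (a (a (a (b (a (l 18418456) (l 18393704)) (a (l 17725200) (l 17714952))) (b (l 18355744) (l 17700720))) (b (l 18277600) (l 17673832))) (b (l 18120344) (l 17620112))) (b (l 17800704) (l 17478312))) (a (b (l 17336744) (l 17165528)) (b (l 1) (l 17083920)))), by decide +kernel⟩

theorem c_pp_123 : CertF 536870912 536870912 1610612736 536870912 33554432 16777216 false true true .npn 1 2 3
    ndF1q1 ndF1q3 pcF2 Cut.none Ext.none :=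
  certFK2 (fam := false) (s1 := true) (s2 := true) (a := 1) (b := 2) (c := 3) (cn := .npn) (n1 := ndF1q1) (n2 := ndF1q3) (pc := pcF2) (cut := Cut.none) (xt := Ext.none) (P1 := 536870912) (W1 := 536870912) (P2 := 1610612736) (W2 := 536870912) (P3 := 33554432) (W3 := 16777216)
    rfl rfl rfl (fun _ => rfl) k0_pp_123

noncomputable def f_pp_133 : ℕ → ℕ → ℕ → ℕ → Bool := onCell 1610612736 536870912 1610612736 536870912 33554432 16777216
    (rowFK 2 false true true .dn 1 3 3 (qsf 536870912 536870912 1610612736 536870912 3) ndF1q1 ndF1q3 pcF3 Cut.none Ext.none)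

def k0_pp_133 : ∃ t, chk3 f_pp_133 t 1 1 1 = true :=
  ⟨(a (b (l 1) (a (b (l 1) (l 17401512)) (l 1))) (l 1)), by decide +kernel⟩

theorem c_pp_133 : CertF 536870912 536870912 1610612736 536870912 33554432 16777216 false true true .dn 1 3 3
    ndF1q1 ndF1q3 pcF3 Cut.none Ext.none :=
  certFK2 (fam := false) (s1 := true) (s2 := true) (a := 1) (b := 3) (c := 3) (cn := .dn) (n1 := ndF1q1) (n2 := ndF1q3) (pc := pcF3) (cut := Cut.none) (xt := Ext.none) (P1 := 536870912) (W1 := 536870912) (P2 := 1610612736) (W2 := 536870912) (P3 := 33554432) (W3 := 16777216)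
    rfl rfl rfl (fun _ => rfl) k0_pp_133

noncomputable def f_pp_202_aa : ℕ → ℕ → ℕ → ℕ → Bool := onCell 0 536870912 0 536870912 33554432 16777216
    (rowFK 0 false true true .pp 2 0 2 (qsf 0 536870912 0 536870912 0) ndF1q2a ndF1q2a pcF0 Cut.none Ext.none)

def k0_pp_202_aa : ∃ t, chk3 f_pp_202_aa t 1 1 1 = true :=
  ⟨(l 3), by decide +kernel⟩

theorem c_pp_202_aa : CertF 0 536870912 0 536870912 33554432 16777216 false true true .pp 2 0 2
    ndF1q2a ndF1q2a pcF0 Cut.none Ext.none :=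
  certFK0 (fam := false) (s1 := true) (s2 := true) (a := 2) (b := 0) (c := 2) (cn := .pp) (n1 := ndF1q2a) (n2 := ndF1q2a) (pc := pcF0) (cut := Cut.none) (xt := Ext.none) (P1 := 0) (W1 := 536870912) (P2 := 0) (W2 := 536870912) (P3 := 33554432) (W3 := 16777216)
    rfl rfl rfl k0_pp_202_aa

noncomputable def f_pp_202_ab : ℕ → ℕ → ℕ → ℕ → Bool := onCell 0 536870912 1239849684 370763052 33554432 16777216
    (rowFK 0 false true true .pp 2 0 2 (qsf 0 536870912 1239849684 370763052 0) ndF1q2a ndF1q2b pcF0 Cut.none Ext.none)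

def k0_pp_202_ab : ∃ t, chk3 f_pp_202_ab t 1 1 1 = true :=
  ⟨(l 3), by decide +kernel⟩

theorem c_pp_202_ab : CertF 0 536870912 1239849684 370763052 33554432 16777216 false true true .pp 2 0 2
    ndF1q2a ndF1q2b pcF0 Cut.none Ext.none :=
  certFK0 (fam := false) (s1 := true) (s2 := true) (a := 2) (b := 0) (c := 2) (cn := .pp) (n1 := ndF1q2a) (n2 := ndF1q2b) (pc := pcF0) (cut := Cut.none) (xt := Ext.none) (P1 := 0) (W1 := 536870912) (P2 := 1239849684) (W2 := 370763052) (P3 := 33554432) (W3 := 16777216)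
    rfl rfl rfl k0_pp_202_ab

noncomputable def f_pp_202_ba : ℕ → ℕ → ℕ → ℕ → Bool := onCell 1239849684 370763052 0 536870912 33554432 16777216
    (rowFK 0 false true true .pp 2 0 2 (qsf 1239849684 370763052 0 536870912 0) ndF1q2b ndF1q2a pcF0 Cut.none Ext.none)

def k0_pp_202_ba : ∃ t, chk3 f_pp_202_ba t 1 1 1 = true :=
  ⟨(l 3), by decide +kernel⟩

theorem c_pp_202_ba : CertF 1239849684 370763052 0 536870912 33554432 16777216 false true true .pp 2 0 2
    ndF1q2b ndF1q2a pcF0 Cut.none Ext.none :=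
  certFK0 (fam := false) (s1 := true) (s2 := true) (a := 2) (b := 0) (c := 2) (cn := .pp) (n1 := ndF1q2b) (n2 := ndF1q2a) (pc := pcF0) (cut := Cut.none) (xt := Ext.none) (P1 := 1239849684) (W1 := 370763052) (P2 := 0) (W2 := 536870912) (P3 := 33554432) (W3 := 16777216)
    rfl rfl rfl k0_pp_202_ba

noncomputable def f_pp_202_bb : ℕ → ℕ → ℕ → ℕ → Bool := onCell 1239849684 370763052 1239849684 370763052 33554432 16777216
    (rowFK 0 false true true .pp 2 0 2 (qsf 1239849684 370763052 1239849684 370763052 0) ndF1q2b ndF1q2b pcF0 Cut.none Ext.none)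

def k0_pp_202_bb : ∃ t, chk3 f_pp_202_bb t 1 1 1 = true :=
  ⟨(l 3), by decide +kernel⟩

theorem c_pp_202_bb : CertF 1239849684 370763052 1239849684 370763052 33554432 16777216 false true true .pp 2 0 2
    ndF1q2b ndF1q2b pcF0 Cut.none Ext.none :=
  certFK0 (fam := false) (s1 := true) (s2 := true) (a := 2) (b := 0) (c := 2) (cn := .pp) (n1 := ndF1q2b) (n2 := ndF1q2b) (pc := pcF0) (cut := Cut.none) (xt := Ext.none) (P1 := 1239849684) (W1 := 370763052) (P2 := 1239849684) (W2 := 370763052) (P3 := 33554432) (W3 := 16777216)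
    rfl rfl rfl k0_pp_202_bb

noncomputable def f_pp_203_a : ℕ → ℕ → ℕ → ℕ → Bool := onCell 0 536870912 0 536870912 33554432 16777216
    (rowFK 1 false true true .up 2 0 3 (qsf 0 536870912 1610612736 536870912 0) ndF1q2a ndF1q3 pcF0 Cut.none Ext.none)

def k0_pp_203_a : ∃ t, chk3 f_pp_203_a t 1 1 1 = true :=
  ⟨(l 3), by decide +kernel⟩

theorem c_pp_203_a : CertF 0 536870912 1610612736 536870912 33554432 16777216 false true true .up 2 0 3
    ndF1q2a ndF1q3 pcF0 Cut.none Ext.none :=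
  certFK1 (fam := false) (s1 := true) (s2 := true) (a := 2) (b := 0) (c := 3) (cn := .up) (n1 := ndF1q2a) (n2 := ndF1q3) (pc := pcF0) (cut := Cut.none) (xt := Ext.none) (P1 := 0) (W1 := 536870912) (P2 := 1610612736) (W2 := 536870912) (P3 := 33554432) (W3 := 16777216)
    rfl rfl rfl (fun _ => rfl) k0_pp_203_a

noncomputable def f_pp_203_b : ℕ → ℕ → ℕ → ℕ → Bool := onCell 1239849684 370763052 1610612736 536870912 33554432 16777216
    (rowFK 0 false true true .up 2 0 3 (qsf 1239849684 370763052 1610612736 536870912 0) ndF1q2b ndF1q3 pcF0 Cut.none Ext.none)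

def k0_pp_203_b : ∃ t, chk3 f_pp_203_b t 1 1 1 = true :=
  ⟨(l 3), by decide +kernel⟩

theorem c_pp_203_b : CertF 1239849684 370763052 1610612736 536870912 33554432 16777216 false true true .up 2 0 3
    ndF1q2b ndF1q3 pcF0 Cut.none Ext.none :=
  certFK0 (fam := false) (s1 := true) (s2 := true) (a := 2) (b := 0) (c := 3) (cn := .up) (n1 := ndF1q2b) (n2 := ndF1q3) (pc := pcF0) (cut := Cut.none) (xt := Ext.none) (P1 := 1239849684) (W1 := 370763052) (P2 := 1610612736) (W2 := 536870912) (P3 := 33554432) (W3 := 16777216)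
    rfl rfl rfl k0_pp_203_b

noncomputable def cut_pp_213_a : Cut := Cut.of [[⟨0, 1, 0, 7061502⟩, ⟨1, 1, 0, 7061502⟩, ⟨2, 2, 0, 184626⟩]]

noncomputable def f_pp_213_a : ℕ → ℕ → ℕ → ℕ → Bool := onCell 0 536870912 1610612736 536870912 33554432 16777216
    (rowFK 0 false true true .pnn 2 1 3 (qsf 0 536870912 1610612736 536870912 1) ndF1q2a ndF1q3 pcF1 cut_pp_213_a Ext.none)

def k0_pp_213_a : ∃ t, chk3 f_pp_213_a t 1 1 1 = true :=
  ⟨(b (l 3) (a (l 3) (b (l 3) (a (l 3) (b (l 3) (a (l 3) (b (l 3) (a (l 3) (b (l 3) (b (l 3) (a (l 3) (b (l 3) (a (l 3) (b (l 3) (b (l 3) (b (l 3) (b (l 3) (b (l 3) (l 6))))))))))))))))))), by decide +kernel⟩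

theorem c_pp_213_a : CertF 0 536870912 1610612736 536870912 33554432 16777216 false true true .pnn 2 1 3
    ndF1q2a ndF1q3 pcF1 cut_pp_213_a Ext.none :=
  certFK0 (fam := false) (s1 := true) (s2 := true) (a := 2) (b := 1) (c := 3) (cn := .pnn) (n1 := ndF1q2a) (n2 := ndF1q3) (pc := pcF1) (cut := cut_pp_213_a) (xt := Ext.none) (P1 := 0) (W1 := 536870912) (P2 := 1610612736) (W2 := 536870912) (P3 := 33554432) (W3 := 16777216)
    rfl rfl rfl k0_pp_213_a

noncomputable def cut_pp_213_b : Cut := Cut.of [[⟨0, 1, 0, 7061502⟩, ⟨1, 1, 0, 7061502⟩, ⟨2, 2, 0, 184626⟩]]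

noncomputable def f_pp_213_b : ℕ → ℕ → ℕ → ℕ → Bool := onCell 1239849684 370763052 1610612736 536870912 33554432 16777216
    (rowFK 0 false true true .pnn 2 1 3 (qsf 1239849684 370763052 1610612736 536870912 1) ndF1q2b ndF1q3 pcF1 cut_pp_213_b Ext.none)

def k0_pp_213_b : ∃ t, chk3 f_pp_213_b t 1 1 1 = true :=
  ⟨(l 3), by decide +kernel⟩

theorem c_pp_213_b : CertF 1239849684 370763052 1610612736 536870912 33554432 16777216 false true true .pnn 2 1 3
    ndF1q2b ndF1q3 pcF1 cut_pp_213_b Ext.none :=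
  certFK0 (fam := false) (s1 := true) (s2 := true) (a := 2) (b := 1) (c := 3) (cn := .pnn) (n1 := ndF1q2b) (n2 := ndF1q3) (pc := pcF1) (cut := cut_pp_213_b) (xt := Ext.none) (P1 := 1239849684) (W1 := 370763052) (P2 := 1610612736) (W2 := 536870912) (P3 := 33554432) (W3 := 16777216)
    rfl rfl rfl k0_pp_213_b

noncomputable def f_pp_303 : ℕ → ℕ → ℕ → ℕ → Bool := onCell 1610612736 536870912 1610612736 536870912 33554432 16777216
    (rowFK 0 false true true .npn 3 0 3 (qsf 1610612736 536870912 1610612736 536870912 0) ndF1q3 ndF1q3 pcF0 Cut.none Ext.none)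

def k0_pp_303 : ∃ t, chk3 f_pp_303 t 1 1 1 = true :=
  ⟨(l 3), by decide +kernel⟩

theorem c_pp_303 : CertF 1610612736 536870912 1610612736 536870912 33554432 16777216 false true true .npn 3 0 3
    ndF1q3 ndF1q3 pcF0 Cut.none Ext.none :=
  certFK0 (fam := false) (s1 := true) (s2 := true) (a := 3) (b := 0) (c := 3) (cn := .npn) (n1 := ndF1q3) (n2 := ndF1q3) (pc := pcF0) (cut := Cut.none) (xt := Ext.none) (P1 := 1610612736) (W1 := 536870912) (P2 := 1610612736) (W2 := 536870912) (P3 := 33554432) (W3 := 16777216)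
    rfl rfl rfl k0_pp_303

noncomputable def f_pp_313 : ℕ → ℕ → ℕ → ℕ → Bool := onCell 1610612736 536870912 1610612736 536870912 33554432 16777216
    (rowFK 0 false true true .dn 3 1 3 (qsf 1610612736 536870912 1610612736 536870912 1) ndF1q3 ndF1q3 pcF1 Cut.none Ext.none)

def k0_pp_313 : ∃ t, chk3 f_pp_313 t 1 1 1 = true :=
  ⟨(l 3), by decide +kernel⟩

theorem c_pp_313 : CertF 1610612736 536870912 1610612736 536870912 33554432 16777216 false true true .dn 3 1 3
    ndF1q3 ndF1q3 pcF1 Cut.none Ext.none :=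
  certFK0 (fam := false) (s1 := true) (s2 := true) (a := 3) (b := 1) (c := 3) (cn := .dn) (n1 := ndF1q3) (n2 := ndF1q3) (pc := pcF1) (cut := Cut.none) (xt := Ext.none) (P1 := 1610612736) (W1 := 536870912) (P2 := 1610612736) (W2 := 536870912) (P3 := 33554432) (W3 := 16777216)
    rfl rfl rfl k0_pp_313

noncomputable def f_pm_001 : ℕ → ℕ → ℕ → ℕ → Bool := onCell 0 536870912 536870912 536870912 33554432 16777216
    (rowFK 0 false true false .up 0 0 1 (qsf 0 536870912 536870912 536870912 0) ndF1q0 ndF1q1 pcF0 Cut.none Ext.none)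

def k0_pm_001 : ∃ t, chk3 f_pm_001 t 1 1 1 = true :=
  ⟨(l 4), by decide +kernel⟩

theorem c_pm_001 : CertF 0 536870912 536870912 536870912 33554432 16777216 false true false .up 0 0 1
    ndF1q0 ndF1q1 pcF0 Cut.none Ext.none :=
  certFK0 (fam := false) (s1 := true) (s2 := false) (a := 0) (b := 0) (c := 1) (cn := .up) (n1 := ndF1q0) (n2 := ndF1q1) (pc := pcF0) (cut := Cut.none) (xt := Ext.none) (P1 := 0) (W1 := 536870912) (P2 := 536870912) (W2 := 536870912) (P3 := 33554432) (W3 := 16777216)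
    rfl rfl rfl k0_pm_001

noncomputable def f_pm_011 : ℕ → ℕ → ℕ → ℕ → Bool := onCell 0 536870912 536870912 536870912 33554432 16777216
    (rowFK 0 false true false .pnn 0 1 1 (qsf 0 536870912 536870912 536870912 1) ndF1q0 ndF1q1 pcF1 Cut.none Ext.none)

def k0_pm_011 : ∃ t, chk3 f_pm_011 t 1 1 1 = true :=
  ⟨(l 4), by decide +kernel⟩

theorem c_pm_011 : CertF 0 536870912 536870912 536870912 33554432 16777216 false true false .pnn 0 1 1
    ndF1q0 ndF1q1 pcF1 Cut.none Ext.none :=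
  certFK0 (fam := false) (s1 := true) (s2 := false) (a := 0) (b := 1) (c := 1) (cn := .pnn) (n1 := ndF1q0) (n2 := ndF1q1) (pc := pcF1) (cut := Cut.none) (xt := Ext.none) (P1 := 0) (W1 := 536870912) (P2 := 536870912) (W2 := 536870912) (P3 := 33554432) (W3 := 16777216)
    rfl rfl rfl k0_pm_011

noncomputable def cut_pm_012_a : Cut := Cut.of [[⟨0, 0, 0, 33554432⟩, ⟨1, 1, 0, 33554432⟩, ⟨2, 1, 0, 33554432⟩]]

noncomputable def f_pm_012_a : ℕ → ℕ → ℕ → ℕ → Bool := onCell 536870912 536870912 0 536870912 33554432 16777216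
    (rowFK 2 false true false .pnp 0 1 2 (qsf 0 536870912 0 536870912 1) ndF1q0 ndF1q2a pcF1 cut_pm_012_a Ext.none)

def k0_pm_012_a : ∃ t, chk3 f_pm_012_a t 1 1 1 = true :=
  ⟨(b (a (l 18386096) (a (l 19057104) (a (l 19557792) (a (l 19950480) (a (l 20195744) (a (l 20322536) (l 20373816))))))) (a (a (b (l 18342824) (l 17857328)) (b (l 18592104) (l 18483392))) (a (b (l 19037624) (a (l 18499168) (l 246662926215))) (a (b (l 19505512) (b (l 19077416) (b (l 18601176) (l 4)))) (a (b (l 19815584) (b (l 19173672) (b (l 18409040) (l 4)))) (a (b (l 19970736) (b (l 19047112) (b (l 349202497879) (l 4)))) (a (b (l 20035608) (b (l 18846808) (b (l 16900576) (b (l 16759376) (l 4))))) (b (l 20042456) (b (b (l 19043096) (l 17978448)) (b (l 16720768) (l 6))))))))))), by decide +kernel⟩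

theorem c_pm_012_a : CertF 0 536870912 0 536870912 33554432 16777216 false true false .pnp 0 1 2
    ndF1q0 ndF1q2a pcF1 cut_pm_012_a Ext.none :=
  certFK2 (fam := false) (s1 := true) (s2 := false) (a := 0) (b := 1) (c := 2) (cn := .pnp) (n1 := ndF1q0) (n2 := ndF1q2a) (pc := pcF1) (cut := cut_pm_012_a) (xt := Ext.none) (P1 := 0) (W1 := 536870912) (P2 := 0) (W2 := 536870912) (P3 := 33554432) (W3 := 16777216)
    rfl rfl rfl (fun _ => rfl) k0_pm_012_a

noncomputable def cut_pm_012_b : Cut := Cut.of [[⟨0, 0, 0, 33554432⟩, ⟨1, 1, 0, 33554432⟩, ⟨2, 1, 0, 33554432⟩]]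

noncomputable def f_pm_012_b : ℕ → ℕ → ℕ → ℕ → Bool := onCell 536870912 536870912 1239849684 370763052 33554432 16777216
    (rowFK 2 false true false .pnp 0 1 2 (qsf 0 536870912 1239849684 370763052 1) ndF1q0 ndF1q2b pcF1 cut_pm_012_b Ext.none)

def k0_pm_012_b : ∃ t, chk3 f_pm_012_b t 1 1 1 = true :=
  ⟨(a (b (l 18432136) (l 2)) (a (l 19220976) (a (l 19790400) (a (l 20181160) (a (l 20421992) (a (l 20556448) (l 20638936))))))), by decide +kernel⟩

theorem c_pm_012_b : CertF 0 536870912 1239849684 370763052 33554432 16777216 false true false .pnp 0 1 2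
    ndF1q0 ndF1q2b pcF1 cut_pm_012_b Ext.none :=
  certFK2 (fam := false) (s1 := true) (s2 := false) (a := 0) (b := 1) (c := 2) (cn := .pnp) (n1 := ndF1q0) (n2 := ndF1q2b) (pc := pcF1) (cut := cut_pm_012_b) (xt := Ext.none) (P1 := 0) (W1 := 536870912) (P2 := 1239849684) (W2 := 370763052) (P3 := 33554432) (W3 := 16777216)
    rfl rfl rfl (fun _ => rfl) k0_pm_012_b

noncomputable def cut_pm_022_a : Cut := Cut.of [[⟨0, 0, 0, 33554432⟩, ⟨1, 1, 0, 33554432⟩, ⟨2, 1, 0, 33554432⟩]]

noncomputable def f_pm_022_a : ℕ → ℕ → ℕ → ℕ → Bool := onCell 0 536870912 0 536870912 33554432 16777216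
    (rowFK 0 false true false .pp 0 2 2 (qsf 0 536870912 0 536870912 2) ndF1q0 ndF1q2a pcF2 cut_pm_022_a Ext.none)

def k0_pm_022_a : ∃ t, chk3 f_pm_022_a t 1 1 1 = true :=
  ⟨(a (b (a (b (l 19925296) (a (l 19679160) (l 20212704))) (a (l 20510200) (l 1))) (a (b (b (a (l 19522224) (l 20124328)) (a (a (a (l 18866512) (l 19105208)) (l 19377168)) (a (l 19684480) (l 19826656)))) (a (a (b (a (b (a (b (l 18427480) (l 17916960)) (l 18367648)) (a (a (b (c (l 18010808) (b (l 17501160) (l 17097584))) (b (c (l 17472912) (l 16757352)) (l 16725344))) (b (l 17716856) (l 17073904))) (b (l 17759712) (l 17083592)))) (b (l 18493120) (b (l 17850112) (a (l 17100032) (l 17119896))))) (a (b (b (a (a (a (a (l 16737064) (l 16727424)) (l 16724768)) (l 16719520)) (l 16719760)) (l 6)) (l 6)) (b (b (a (l 16717216) (l 16683984)) (a (l 6) (l 16698488))) (a (l 6) (l 1))))) (b (b (a (l 18665592) (l 18830496)) (a (b (l 17978352) (l 17148144)) (b (l 18066224) (l 17160008)))) (b (a (b (l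 16667112) (l 1)) (l 1)) (l 1)))) (a (b (b (l 18928712) (l 1)) (l 1)) (l 1)))) (b (l 1) (l 1)))) (l 1)), by decide +kernel⟩

theorem c_pm_022_a : CertF 0 536870912 0 536870912 33554432 16777216 false true false .pp 0 2 2
    ndF1q0 ndF1q2a pcF2 cut_pm_022_a Ext.none :=
  certFK0 (fam := false) (s1 := true) (s2 := false) (a := 0) (b := 2) (c := 2) (cn := .pp) (n1 := ndF1q0) (n2 := ndF1q2a) (pc := pcF2) (cut := cut_pm_022_a) (xt := Ext.none) (P1 := 0) (W1 := 536870912) (P2 := 0) (W2 := 536870912) (P3 := 33554432) (W3 := 16777216)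
    rfl rfl rfl k0_pm_022_a

noncomputable def cut_pm_022_b : Cut := Cut.of [[⟨0, 0, 0, 33554432⟩, ⟨1, 1, 0, 33554432⟩, ⟨2, 1, 0, 33554432⟩]]

noncomputable def f_pm_022_b : ℕ → ℕ → ℕ → ℕ → Bool := onCell 0 536870912 1073741824 536870912 33554432 16777216
    (rowFK 1 false true false .pp 0 2 2 (qsf 0 536870912 1239849684 370763052 2) ndF1q0 ndF1q2b pcF2 cut_pm_022_b Ext.none)

def k0_pm_022_b : ∃ t, chk3 f_pm_022_b t 1 1 1 = true :=
  ⟨(b (a (b (b (l 474097108759) (l 493424808551)) (a (l 266865543591) (l 20199552))) (b (l 20514704) (l 20034096))) (b (a (l 19742200) (l 19398088)) (a (l 19084104) (l 2)))), by decide +kernel⟩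

theorem c_pm_022_b : CertF 0 536870912 1239849684 370763052 33554432 16777216 false true false .pp 0 2 2
    ndF1q0 ndF1q2b pcF2 cut_pm_022_b Ext.none :=
  certFK1 (fam := false) (s1 := true) (s2 := false) (a := 0) (b := 2) (c := 2) (cn := .pp) (n1 := ndF1q0) (n2 := ndF1q2b) (pc := pcF2) (cut := cut_pm_022_b) (xt := Ext.none) (P1 := 0) (W1 := 536870912) (P2 := 1239849684) (W2 := 370763052) (P3 := 33554432) (W3 := 16777216)
    rfl rfl rfl (fun _ => rfl) k0_pm_022_b

noncomputable def f_pm_023 : ℕ → ℕ → ℕ → ℕ → Bool := onCell 0 536870912 1073741824 536870912 33554432 16777216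
    (rowFK 1 false true false .up 0 2 3 (qsf 0 536870912 1610612736 536870912 2) ndF1q0 ndF1q3 pcF2 Cut.none Ext.none)

def k0_pm_023 : ∃ t, chk3 f_pm_023 t 1 1 1 = true :=
  ⟨(b (a (a (l 1) (l 445643867655)) (l 460675254487)) (b (a (l 497183103255) (l 19316456)) (a (l 485908036791) (l 18826096)))), by decide +kernel⟩

theorem c_pm_023 : CertF 0 536870912 1610612736 536870912 33554432 16777216 false true false .up 0 2 3
    ndF1q0 ndF1q3 pcF2 Cut.none Ext.none :=
  certFK1 (fam := false) (s1 := true) (s2 := false) (a := 0) (b := 2) (c := 3) (cn := .up) (n1 := ndF1q0) (n2 := ndF1q3) (pc := pcF2) (cut := Cut.none) (xt := Ext.none) (P1 := 0) (W1 := 536870912) (P2 := 1610612736) (W2 := 536870912) (P3 := 33554432) (W3 := 16777216)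
    rfl rfl rfl (fun _ => rfl) k0_pm_023

noncomputable def f_pm_033 : ℕ → ℕ → ℕ → ℕ → Bool := onCell 0 536870912 1610612736 536870912 33554432 16777216
    (rowFK 0 false true false .pnn 0 3 3 (qsf 0 536870912 1610612736 536870912 3) ndF1q0 ndF1q3 pcF3 Cut.none Ext.none)

def k0_pm_033 : ∃ t, chk3 f_pm_033 t 1 1 1 = true :=
  ⟨(a (b (b (a (l 4) (a (l 384439412039) (l 1))) (l 4)) (l 4)) (b (a (b (l 1) (a (l 19282360) (l 1))) (l 1)) (b (a (l 4) (a (l 18851816) (l 1))) (a (l 4) (b (l 18593976) (l 18433416)))))), by decide +kernel⟩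

theorem c_pm_033 : CertF 0 536870912 1610612736 536870912 33554432 16777216 false true false .pnn 0 3 3
    ndF1q0 ndF1q3 pcF3 Cut.none Ext.none :=
  certFK0 (fam := false) (s1 := true) (s2 := false) (a := 0) (b := 3) (c := 3) (cn := .pnn) (n1 := ndF1q0) (n2 := ndF1q3) (pc := pcF3) (cut := Cut.none) (xt := Ext.none) (P1 := 0) (W1 := 536870912) (P2 := 1610612736) (W2 := 536870912) (P3 := 33554432) (W3 := 16777216)
    rfl rfl rfl k0_pm_033

noncomputable def f_pm_101 : ℕ → ℕ → ℕ → ℕ → Bool := onCell 536870912 536870912 536870912 536870912 33554432 16777216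
    (rowFK 0 false true false .npn 1 0 1 (qsf 536870912 536870912 536870912 536870912 0) ndF1q1 ndF1q1 pcF0 Cut.none Ext.none)

def k0_pm_101 : ∃ t, chk3 f_pm_101 t 1 1 1 = true :=
  ⟨(l 4), by decide +kernel⟩

theorem c_pm_101 : CertF 536870912 536870912 536870912 536870912 33554432 16777216 false true false .npn 1 0 1
    ndF1q1 ndF1q1 pcF0 Cut.none Ext.none :=
  certFK0 (fam := false) (s1 := true) (s2 := false) (a := 1) (b := 0) (c := 1) (cn := .npn) (n1 := ndF1q1) (n2 := ndF1q1) (pc := pcF0) (cut := Cut.none) (xt := Ext.none) (P1 := 536870912) (W1 := 536870912) (P2 := 536870912) (W2 := 536870912) (P3 := 33554432) (W3 := 16777216)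
    rfl rfl rfl k0_pm_101

noncomputable def f_pm_102_a : ℕ → ℕ → ℕ → ℕ → Bool := onCell 0 536870912 0 536870912 33554432 16777216
    (rowFK 2 false true false .npp 1 0 2 (qsf 536870912 536870912 0 536870912 0) ndF1q1 ndF1q2a pcF0 Cut.none Ext.none)

def k0_pm_102_a : ∃ t, chk3 f_pm_102_a t 1 1 1 = true :=
  ⟨(a (b (a (a (l 2) (a (l 2) (b (l 2) (c (l 18829216) (l 18266832))))) (b (a (l 18443048) (l 17990216)) (a (c (l 18901640) (l 18067112)) (c (l 18761992) (l 17767464))))) (a (b (a (l 2) (c (b (l 19847240) (l 20462736)) (b (l 18344096) (l 158481518135)))) (a (c (l 20522104) (l 18820032)) (c (l 20335728) (l 18806368)))) (b (a (c (b (l 19841464) (l 20292424)) (b (l 18171192) (l 18478632))) (c (l 19993584) (c (l 18700112) (l 17898888)))) (b (c (l 20125224) (l 18667000)) (c (l 19996248) (l 18872472)))))) (b (a (b (a (l 17688824) (l 17444712)) (c (b (l 18251624) (l 18912832)) (l 17773024))) (b (b (a (l 17217072) (l 17017536)) (l 17399288)) (b (l 17786304)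 (a (l 18148480) (l 18012520))))) (a (b (c (a (l 19771488) (l 19583768)) (a (l 18292368) (l 18191424))) (c (l 19674320) (l 18694232))) (b (b (c (l 19328824) (l 17978496)) (c (l 19382224) (l 18255496))) (c (l 19316440) (l 18716032)))))), by decide +kernel⟩

theorem c_pm_102_a : CertF 536870912 536870912 0 536870912 33554432 16777216 false true false .npp 1 0 2
    ndF1q1 ndF1q2a pcF0 Cut.none Ext.none :=
  certFK2 (fam := false) (s1 := true) (s2 := false) (a := 1) (b := 0) (c := 2) (cn := .npp) (n1 := ndF1q1) (n2 := ndF1q2a) (pc := pcF0) (cut := Cut.none) (xt := Ext.none) (P1 := 536870912) (W1 := 536870912) (P2 := 0) (W2 := 536870912) (P3 := 33554432) (W3 := 16777216)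
    rfl rfl rfl (fun _ => rfl) k0_pm_102_a

noncomputable def f_pm_102_b : ℕ → ℕ → ℕ → ℕ → Bool := onCell 536870912 536870912 1239849684 370763052 33554432 16777216
    (rowFK 0 false true false .npp 1 0 2 (qsf 536870912 536870912 1239849684 370763052 0) ndF1q1 ndF1q2b pcF0 Cut.none Ext.none)

def k0_pm_102_b : ∃ t, chk3 f_pm_102_b t 1 1 1 = true :=
  ⟨(b (a (a (l 2) (b (a (l 17145704) (l 17321568)) (l 17509136))) (a (b (a (l 17542360) (l 17827248)) (l 17969720)) (b (a (l 18197984) (l 18827304)) (l 18713368)))) (a (l 2) (l 18411040))), by decide +kernel⟩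

theorem c_pm_102_b : CertF 536870912 536870912 1239849684 370763052 33554432 16777216 false true false .npp 1 0 2
    ndF1q1 ndF1q2b pcF0 Cut.none Ext.none :=
  certFK0 (fam := false) (s1 := true) (s2 := false) (a := 1) (b := 0) (c := 2) (cn := .npp) (n1 := ndF1q1) (n2 := ndF1q2b) (pc := pcF0) (cut := Cut.none) (xt := Ext.none) (P1 := 536870912) (W1 := 536870912) (P2 := 1239849684) (W2 := 370763052) (P3 := 33554432) (W3 := 16777216)
    rfl rfl rfl k0_pm_102_b

noncomputable def f_pm_112_a : ℕ → ℕ → ℕ → ℕ → Bool := onCell 536870912 536870912 0 536870912 33554432 16777216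
    (rowFK 2 false true false .dn 1 1 2 (qsf 536870912 536870912 0 536870912 1) ndF1q1 ndF1q2a pcF1 Cut.none Ext.none)

def k0_pm_112_a : ∃ t, chk3 f_pm_112_a t 1 1 1 = true :=
  ⟨(a (b (l 19280768) (a (l 19618488) (l 386050043671))) (l 1)), by decide +kernel⟩

theorem c_pm_112_a : CertF 536870912 536870912 0 536870912 33554432 16777216 false true false .dn 1 1 2
    ndF1q1 ndF1q2a pcF1 Cut.none Ext.none :=
  certFK2 (fam := false) (s1 := true) (s2 := false) (a := 1) (b := 1) (c := 2) (cn := .dn) (n1 := ndF1q1) (n2 := ndF1q2a) (pc := pcF1) (cut := Cut.none) (xt := Ext.none) (P1 := 536870912) (W1 := 536870912) (P2 := 0) (W2 := 536870912) (P3 := 33554432) (W3 := 16777216)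
    rfl rfl rfl (fun _ => rfl) k0_pm_112_a

noncomputable def f_pm_112_b : ℕ → ℕ → ℕ → ℕ → Bool := onCell 536870912 536870912 1239849684 370763052 33554432 16777216
    (rowFK 2 false true false .dn 1 1 2 (qsf 536870912 536870912 1239849684 370763052 1) ndF1q1 ndF1q2b pcF1 Cut.none Ext.none)

def k0_pm_112_b : ∃ t, chk3 f_pm_112_b t 1 1 1 = true :=
  ⟨(a (l 18569264) (a (l 18817168) (a (l 18898928) (a (l 18962336) (a (l 19005648) (a (l 19029832) (l 19043936))))))), by decide +kernel⟩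

theorem c_pm_112_b : CertF 536870912 536870912 1239849684 370763052 33554432 16777216 false true false .dn 1 1 2
    ndF1q1 ndF1q2b pcF1 Cut.none Ext.none :=
  certFK2 (fam := false) (s1 := true) (s2 := false) (a := 1) (b := 1) (c := 2) (cn := .dn) (n1 := ndF1q1) (n2 := ndF1q2b) (pc := pcF1) (cut := Cut.none) (xt := Ext.none) (P1 := 536870912) (W1 := 536870912) (P2 := 1239849684) (W2 := 370763052) (P3 := 33554432) (W3 := 16777216)
    rfl rfl rfl (fun _ => rfl) k0_pm_112_b

noncomputable def f_pm_113 : ℕ → ℕ → ℕ → ℕ → Bool := onCell 536870912 536870912 536870912 536870912 33554432 16777216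
    (rowFK 1 false true false .nn 1 1 3 (qsf 536870912 536870912 1610612736 536870912 1) ndF1q1 ndF1q3 pcF1 Cut.none Ext.none)

def k0_pm_113 : ∃ t, chk3 f_pm_113 t 1 1 1 = true :=
  ⟨(a (b (l 353299031559) (b (l 18598104) (b (l 18481048) (b (l 18398368) (b (l 18348200) (b (l 18320680) (l 18301104))))))) (b (l 273841247575) (b (l 18076832) (b (l 17770048) (b (l 17582024) (b (l 17471136) (b (l 17411688) (l 17367616)))))))), by decide +kernel⟩

theorem c_pm_113 : CertF 536870912 536870912 1610612736 536870912 33554432 16777216 false true false .nn 1 1 3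
    ndF1q1 ndF1q3 pcF1 Cut.none Ext.none :=
  certFK1 (fam := false) (s1 := true) (s2 := false) (a := 1) (b := 1) (c := 3) (cn := .nn) (n1 := ndF1q1) (n2 := ndF1q3) (pc := pcF1) (cut := Cut.none) (xt := Ext.none) (P1 := 536870912) (W1 := 536870912) (P2 := 1610612736) (W2 := 536870912) (P3 := 33554432) (W3 := 16777216)
    rfl rfl rfl (fun _ => rfl) k0_pm_113

noncomputable def f_pm_123 : ℕ → ℕ → ℕ → ℕ → Bool := onCell 1073741824 536870912 1610612736 536870912 33554432 16777216
    (rowFK 2 false true false .npn 1 2 3 (qsf 536870912 536870912 1610612736 536870912 2) ndF1q1 ndF1q3 pcF2 Cut.none Ext.none)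

def k0_pm_123 : ∃ t, chk3 f_pm_123 t 1 1 1 = true :=
  ⟨(a (b (a (l 18327864) (l 18436640)) (a (a (a (a (a (l 17212968) (l 17212824)) (l 17216232)) (l 17225096)) (l 17249592)) (l 17328016))) (a (b (l 18464168) (l 17591256)) (b (l 1) (l 17747072)))), by decide +kernel⟩

theorem c_pm_123 : CertF 536870912 536870912 1610612736 536870912 33554432 16777216 false true false .npn 1 2 3
    ndF1q1 ndF1q3 pcF2 Cut.none Ext.none :=
  certFK2 (fam := false) (s1 := true) (s2 := false) (a := 1) (b := 2) (c := 3) (cn := .npn) (n1 := ndF1q1) (n2 := ndF1q3) (pc := pcF2) (cut := Cut.none) (xt := Ext.none) (P1 := 536870912) (W1 := 536870912) (P2 := 1610612736) (W2 := 536870912) (P3 := 33554432) (W3 := 16777216)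
    rfl rfl rfl (fun _ => rfl) k0_pm_123

noncomputable def f_pm_133 : ℕ → ℕ → ℕ → ℕ → Bool := onCell 1610612736 536870912 1610612736 536870912 33554432 16777216
    (rowFK 2 false true false .dn 1 3 3 (qsf 536870912 536870912 1610612736 536870912 3) ndF1q1 ndF1q3 pcF3 Cut.none Ext.none)

def k0_pm_133 : ∃ t, chk3 f_pm_133 t 1 1 1 = true :=
  ⟨(a (b (l 1) (a (b (l 1) (l 4)) (l 1))) (l 1)), by decide +kernel⟩

theorem c_pm_133 : CertF 536870912 536870912 1610612736 536870912 33554432 16777216 false true false .dn 1 3 3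
    ndF1q1 ndF1q3 pcF3 Cut.none Ext.none :=
  certFK2 (fam := false) (s1 := true) (s2 := false) (a := 1) (b := 3) (c := 3) (cn := .dn) (n1 := ndF1q1) (n2 := ndF1q3) (pc := pcF3) (cut := Cut.none) (xt := Ext.none) (P1 := 536870912) (W1 := 536870912) (P2 := 1610612736) (W2 := 536870912) (P3 := 33554432) (W3 := 16777216)
    rfl rfl rfl (fun _ => rfl) k0_pm_133

noncomputable def cut_pm_202_aa : Cut := Cut.of [[⟨0, 1, 0, 33554432⟩, ⟨1, 0, 0, 33554432⟩, ⟨2, 1, 0, 33554432⟩]]

noncomputable def f_pm_202_aa : ℕ → ℕ → ℕ → ℕ → Bool := onCell 0 536870912 0 536870912 33554432 16777216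
    (rowFK 0 false true false .pp 2 0 2 (qsf 0 536870912 0 536870912 0) ndF1q2a ndF1q2a pcF0 cut_pm_202_aa Ext.none)

def k0_pm_202_aa : ∃ t, chk3 f_pm_202_aa t 1 1 1 = true :=
  ⟨(b (l 3) (a (l 3) (b (l 3) (a (l 3) (b (l 3) (a (l 3) (a (l 3) (b (l 3) (l 6))))))))), by decide +kernel⟩

theorem c_pm_202_aa : CertF 0 536870912 0 536870912 33554432 16777216 false true false .pp 2 0 2
    ndF1q2a ndF1q2a pcF0 cut_pm_202_aa Ext.none :=
  certFK0 (fam := false) (s1 := true) (s2 := false) (a := 2) (b := 0) (c := 2) (cn := .pp) (n1 := ndF1q2a) (n2 := ndF1q2a) (pc := pcF0) (cut := cut_pm_202_aa) (xt := Ext.none) (P1 := 0) (W1 := 536870912) (P2 := 0) (W2 := 536870912) (P3 := 33554432) (W3 := 16777216)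
    rfl rfl rfl k0_pm_202_aa

noncomputable def cut_pm_202_ab : Cut := Cut.of [[⟨0, 1, 0, 33554432⟩, ⟨1, 0, 0, 33554432⟩, ⟨2, 1, 0, 33554432⟩]]

noncomputable def f_pm_202_ab : ℕ → ℕ → ℕ → ℕ → Bool := onCell 0 536870912 1239849684 370763052 33554432 16777216
    (rowFK 0 false true false .pp 2 0 2 (qsf 0 536870912 1239849684 370763052 0) ndF1q2a ndF1q2b pcF0 cut_pm_202_ab Ext.none)

def k0_pm_202_ab : ∃ t, chk3 f_pm_202_ab t 1 1 1 = true :=
  ⟨(l 3), by decide +kernel⟩

theorem c_pm_202_ab : CertF 0 536870912 1239849684 370763052 33554432 16777216 false true false .pp 2 0 2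
    ndF1q2a ndF1q2b pcF0 cut_pm_202_ab Ext.none :=
  certFK0 (fam := false) (s1 := true) (s2 := false) (a := 2) (b := 0) (c := 2) (cn := .pp) (n1 := ndF1q2a) (n2 := ndF1q2b) (pc := pcF0) (cut := cut_pm_202_ab) (xt := Ext.none) (P1 := 0) (W1 := 536870912) (P2 := 1239849684) (W2 := 370763052) (P3 := 33554432) (W3 := 16777216)
    rfl rfl rfl k0_pm_202_ab

noncomputable def cut_pm_202_ba : Cut := Cut.of [[⟨0, 1, 0, 33554432⟩, ⟨1, 0, 0, 33554432⟩, ⟨2, 1, 0, 33554432⟩]]

noncomputable def f_pm_202_ba : ℕ → ℕ → ℕ → ℕ → Bool := onCell 1239849684 370763052 0 536870912 33554432 16777216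
    (rowFK 0 false true false .pp 2 0 2 (qsf 1239849684 370763052 0 536870912 0) ndF1q2b ndF1q2a pcF0 cut_pm_202_ba Ext.none)

def k0_pm_202_ba : ∃ t, chk3 f_pm_202_ba t 1 1 1 = true :=
  ⟨(l 3), by decide +kernel⟩

theorem c_pm_202_ba : CertF 1239849684 370763052 0 536870912 33554432 16777216 false true false .pp 2 0 2
    ndF1q2b ndF1q2a pcF0 cut_pm_202_ba Ext.none :=
  certFK0 (fam := false) (s1 := true) (s2 := false) (a := 2) (b := 0) (c := 2) (cn := .pp) (n1 := ndF1q2b) (n2 := ndF1q2a) (pc := pcF0) (cut := cut_pm_202_ba) (xt := Ext.none) (P1 := 1239849684) (W1 := 370763052) (P2 := 0) (W2 := 536870912) (P3 := 33554432) (W3 := 16777216)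
    rfl rfl rfl k0_pm_202_ba

noncomputable def cut_pm_202_bb : Cut := Cut.of [[⟨0, 1, 0, 33554432⟩, ⟨1, 0, 0, 33554432⟩, ⟨2, 1, 0, 33554432⟩]]

noncomputable def f_pm_202_bb : ℕ → ℕ → ℕ → ℕ → Bool := onCell 1239849684 370763052 1239849684 370763052 33554432 16777216
    (rowFK 0 false true false .pp 2 0 2 (qsf 1239849684 370763052 1239849684 370763052 0) ndF1q2b ndF1q2b pcF0 cut_pm_202_bb Ext.none)

def k0_pm_202_bb : ∃ t, chk3 f_pm_202_bb t 1 1 1 = true :=
  ⟨(l 3), by decide +kernel⟩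

theorem c_pm_202_bb : CertF 1239849684 370763052 1239849684 370763052 33554432 16777216 false true false .pp 2 0 2
    ndF1q2b ndF1q2b pcF0 cut_pm_202_bb Ext.none :=
  certFK0 (fam := false) (s1 := true) (s2 := false) (a := 2) (b := 0) (c := 2) (cn := .pp) (n1 := ndF1q2b) (n2 := ndF1q2b) (pc := pcF0) (cut := cut_pm_202_bb) (xt := Ext.none) (P1 := 1239849684) (W1 := 370763052) (P2 := 1239849684) (W2 := 370763052) (P3 := 33554432) (W3 := 16777216)
    rfl rfl rfl k0_pm_202_bb

noncomputable def f_pm_203_a : ℕ → ℕ → ℕ → ℕ → Bool := onCell 0 536870912 0 536870912 33554432 16777216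
    (rowFK 1 false true false .up 2 0 3 (qsf 0 536870912 1610612736 536870912 0) ndF1q2a ndF1q3 pcF0 Cut.none Ext.none)

def k0_pm_203_a : ∃ t, chk3 f_pm_203_a t 1 1 1 = true :=
  ⟨(l 3), by decide +kernel⟩

theorem c_pm_203_a : CertF 0 536870912 1610612736 536870912 33554432 16777216 false true false .up 2 0 3
    ndF1q2a ndF1q3 pcF0 Cut.none Ext.none :=
  certFK1 (fam := false) (s1 := true) (s2 := false) (a := 2) (b := 0) (c := 3) (cn := .up) (n1 := ndF1q2a) (n2 := ndF1q3) (pc := pcF0) (cut := Cut.none) (xt := Ext.none) (P1 := 0) (W1 := 536870912) (P2 := 1610612736) (W2 := 536870912) (P3 := 33554432) (W3 := 16777216)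
    rfl rfl rfl (fun _ => rfl) k0_pm_203_a

noncomputable def f_pm_203_b : ℕ → ℕ → ℕ → ℕ → Bool := onCell 1239849684 370763052 1610612736 536870912 33554432 16777216
    (rowFK 0 false true false .up 2 0 3 (qsf 1239849684 370763052 1610612736 536870912 0) ndF1q2b ndF1q3 pcF0 Cut.none Ext.none)

def k0_pm_203_b : ∃ t, chk3 f_pm_203_b t 1 1 1 = true :=
  ⟨(l 3), by decide +kernel⟩

theorem c_pm_203_b : CertF 1239849684 370763052 1610612736 536870912 33554432 16777216 false true false .up 2 0 3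
    ndF1q2b ndF1q3 pcF0 Cut.none Ext.none :=
  certFK0 (fam := false) (s1 := true) (s2 := false) (a := 2) (b := 0) (c := 3) (cn := .up) (n1 := ndF1q2b) (n2 := ndF1q3) (pc := pcF0) (cut := Cut.none) (xt := Ext.none) (P1 := 1239849684) (W1 := 370763052) (P2 := 1610612736) (W2 := 536870912) (P3 := 33554432) (W3 := 16777216)
    rfl rfl rfl k0_pm_203_b

noncomputable def cut_pm_213_a : Cut := Cut.of [[⟨0, 1, 0, 7061502⟩, ⟨1, 1, 0, 7061502⟩, ⟨2, 2, 0, 184626⟩]]

noncomputable def f_pm_213_a : ℕ → ℕ → ℕ → ℕ → Bool := onCell 0 536870912 1610612736 536870912 33554432 16777216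
    (rowFK 0 false true false .pnn 2 1 3 (qsf 0 536870912 1610612736 536870912 1) ndF1q2a ndF1q3 pcF1 cut_pm_213_a Ext.none)

def k0_pm_213_a : ∃ t, chk3 f_pm_213_a t 1 1 1 = true :=
  ⟨(b (l 3) (a (l 3) (b (l 3) (a (l 3) (b (l 3) (a (l 3) (b (l 3) (a (l 3) (b (l 3) (a (l 3) (b (l 3) (a (l 3) (b (l 3) (a (l 3) (b (l 3) (b (l 3) (b (l 3) (b (l 3) (b (l 3) (l 6)))))))))))))))))))), by decide +kernel⟩

theorem c_pm_213_a : CertF 0 536870912 1610612736 536870912 33554432 16777216 false true false .pnn 2 1 3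
    ndF1q2a ndF1q3 pcF1 cut_pm_213_a Ext.none :=
  certFK0 (fam := false) (s1 := true) (s2 := false) (a := 2) (b := 1) (c := 3) (cn := .pnn) (n1 := ndF1q2a) (n2 := ndF1q3) (pc := pcF1) (cut := cut_pm_213_a) (xt := Ext.none) (P1 := 0) (W1 := 536870912) (P2 := 1610612736) (W2 := 536870912) (P3 := 33554432) (W3 := 16777216)
    rfl rfl rfl k0_pm_213_a

noncomputable def cut_pm_213_b : Cut := Cut.of [[⟨0, 1, 0, 7061502⟩, ⟨1, 1, 0, 7061502⟩, ⟨2, 2, 0, 184626⟩]]

noncomputable def f_pm_213_b : ℕ → ℕ → ℕ → ℕ → Bool := onCell 1239849684 370763052 1610612736 536870912 33554432 16777216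
    (rowFK 0 false true false .pnn 2 1 3 (qsf 1239849684 370763052 1610612736 536870912 1) ndF1q2b ndF1q3 pcF1 cut_pm_213_b Ext.none)

def k0_pm_213_b : ∃ t, chk3 f_pm_213_b t 1 1 1 = true :=
  ⟨(l 3), by decide +kernel⟩

theorem c_pm_213_b : CertF 1239849684 370763052 1610612736 536870912 33554432 16777216 false true false .pnn 2 1 3
    ndF1q2b ndF1q3 pcF1 cut_pm_213_b Ext.none :=
  certFK0 (fam := false) (s1 := true) (s2 := false) (a := 2) (b := 1) (c := 3) (cn := .pnn) (n1 := ndF1q2b) (n2 := ndF1q3) (pc := pcF1) (cut := cut_pm_213_b) (xt := Ext.none) (P1 := 1239849684) (W1 := 370763052) (P2 := 1610612736) (W2 := 536870912) (P3 := 33554432) (W3 := 16777216)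
    rfl rfl rfl k0_pm_213_b

noncomputable def f_pm_303 : ℕ → ℕ → ℕ → ℕ → Bool := onCell 1610612736 536870912 1610612736 536870912 33554432 16777216
    (rowFK 0 false true false .npn 3 0 3 (qsf 1610612736 536870912 1610612736 536870912 0) ndF1q3 ndF1q3 pcF0 Cut.none Ext.none)

def k0_pm_303 : ∃ t, chk3 f_pm_303 t 1 1 1 = true :=
  ⟨(l 3), by decide +kernel⟩

theorem c_pm_303 : CertF 1610612736 536870912 1610612736 536870912 33554432 16777216 false true false .npn 3 0 3
    ndF1q3 ndF1q3 pcF0 Cut.none Ext.none :=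
  certFK0 (fam := false) (s1 := true) (s2 := false) (a := 3) (b := 0) (c := 3) (cn := .npn) (n1 := ndF1q3) (n2 := ndF1q3) (pc := pcF0) (cut := Cut.none) (xt := Ext.none) (P1 := 1610612736) (W1 := 536870912) (P2 := 1610612736) (W2 := 536870912) (P3 := 33554432) (W3 := 16777216)
    rfl rfl rfl k0_pm_303

noncomputable def f_pm_313 : ℕ → ℕ → ℕ → ℕ → Bool := onCell 1610612736 536870912 1610612736 536870912 33554432 16777216
    (rowFK 0 false true false .dn 3 1 3 (qsf 1610612736 536870912 1610612736 536870912 1) ndF1q3 ndF1q3 pcF1 Cut.none Ext.none)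

def k0_pm_313 : ∃ t, chk3 f_pm_313 t 1 1 1 = true :=
  ⟨(l 3), by decide +kernel⟩

theorem c_pm_313 : CertF 1610612736 536870912 1610612736 536870912 33554432 16777216 false true false .dn 3 1 3
    ndF1q3 ndF1q3 pcF1 Cut.none Ext.none :=
  certFK0 (fam := false) (s1 := true) (s2 := false) (a := 3) (b := 1) (c := 3) (cn := .dn) (n1 := ndF1q3) (n2 := ndF1q3) (pc := pcF1) (cut := Cut.none) (xt := Ext.none) (P1 := 1610612736) (W1 := 536870912) (P2 := 1610612736) (W2 := 536870912) (P3 := 33554432) (W3 := 16777216)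
    rfl rfl rfl k0_pm_313

noncomputable def f_mm_001 : ℕ → ℕ → ℕ → ℕ → Bool := onCell 0 536870912 536870912 536870912 33554432 16777216
    (rowFK 0 false false false .up 0 0 1 (qsf 0 536870912 536870912 536870912 0) ndF1q0 ndF1q1 pcF0 Cut.none Ext.none)

def k0_mm_001 : ∃ t, chk3 f_mm_001 t 1 1 1 = true :=
  ⟨(l 3), by decide +kernel⟩

theorem c_mm_001 : CertF 0 536870912 536870912 536870912 33554432 16777216 false false false .up 0 0 1
    ndF1q0 ndF1q1 pcF0 Cut.none Ext.none :=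
  certFK0 (fam := false) (s1 := false) (s2 := false) (a := 0) (b := 0) (c := 1) (cn := .up) (n1 := ndF1q0) (n2 := ndF1q1) (pc := pcF0) (cut := Cut.none) (xt := Ext.none) (P1 := 0) (W1 := 536870912) (P2 := 536870912) (W2 := 536870912) (P3 := 33554432) (W3 := 16777216)
    rfl rfl rfl k0_mm_001

noncomputable def f_mm_011 : ℕ → ℕ → ℕ → ℕ → Bool := onCell 0 536870912 536870912 536870912 33554432 16777216
    (rowFK 0 false false false .pnn 0 1 1 (qsf 0 536870912 536870912 536870912 1) ndF1q0 ndF1q1 pcF1 Cut.none Ext.none)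

def k0_mm_011 : ∃ t, chk3 f_mm_011 t 1 1 1 = true :=
  ⟨(l 3), by decide +kernel⟩

theorem c_mm_011 : CertF 0 536870912 536870912 536870912 33554432 16777216 false false false .pnn 0 1 1
    ndF1q0 ndF1q1 pcF1 Cut.none Ext.none :=
  certFK0 (fam := false) (s1 := false) (s2 := false) (a := 0) (b := 1) (c := 1) (cn := .pnn) (n1 := ndF1q0) (n2 := ndF1q1) (pc := pcF1) (cut := Cut.none) (xt := Ext.none) (P1 := 0) (W1 := 536870912) (P2 := 536870912) (W2 := 536870912) (P3 := 33554432) (W3 := 16777216)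
    rfl rfl rfl k0_mm_011

noncomputable def f_mm_012_a : ℕ → ℕ → ℕ → ℕ → Bool := onCell 0 536870912 0 536870912 33554432 16777216
    (rowFK 0 false false false .pnp 0 1 2 (qsf 0 536870912 0 536870912 1) ndF1q0 ndF1q2a pcF1 Cut.none Ext.none)

def k0_mm_012_a : ∃ t, chk3 f_mm_012_a t 1 1 1 = true :=
  ⟨(l 5), by decide +kernel⟩

theorem c_mm_012_a : CertF 0 536870912 0 536870912 33554432 16777216 false false false .pnp 0 1 2
    ndF1q0 ndF1q2a pcF1 Cut.none Ext.none :=
  certFK0 (fam := false) (s1 := false) (s2 := false) (a := 0) (b := 1) (c := 2) (cn := .pnp) (n1 := ndF1q0) (n2 := ndF1q2a) (pc := pcF1) (cut := Cut.none) (xt := Ext.none) (P1 := 0) (W1 := 536870912) (P2 := 0) (W2 := 536870912) (P3 := 33554432) (W3 := 16777216)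
    rfl rfl rfl k0_mm_012_a

noncomputable def f_mm_012_b : ℕ → ℕ → ℕ → ℕ → Bool := onCell 0 536870912 1239849684 370763052 33554432 16777216
    (rowFK 0 false false false .pnp 0 1 2 (qsf 0 536870912 1239849684 370763052 1) ndF1q0 ndF1q2b pcF1 Cut.none Ext.none)

def k0_mm_012_b : ∃ t, chk3 f_mm_012_b t 1 1 1 = true :=
  ⟨(l 5), by decide +kernel⟩

theorem c_mm_012_b : CertF 0 536870912 1239849684 370763052 33554432 16777216 false false false .pnp 0 1 2
    ndF1q0 ndF1q2b pcF1 Cut.none Ext.none :=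
  certFK0 (fam := false) (s1 := false) (s2 := false) (a := 0) (b := 1) (c := 2) (cn := .pnp) (n1 := ndF1q0) (n2 := ndF1q2b) (pc := pcF1) (cut := Cut.none) (xt := Ext.none) (P1 := 0) (W1 := 536870912) (P2 := 1239849684) (W2 := 370763052) (P3 := 33554432) (W3 := 16777216)
    rfl rfl rfl k0_mm_012_b

noncomputable def f_mm_022_a : ℕ → ℕ → ℕ → ℕ → Bool := onCell 0 536870912 0 536870912 33554432 16777216
    (rowFK 0 false false false .pp 0 2 2 (qsf 0 536870912 0 536870912 2) ndF1q0 ndF1q2a pcF2 Cut.none Ext.none)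

def k0_mm_022_a : ∃ t, chk3 f_mm_022_a t 1 1 1 = true :=
  ⟨(l 5), by decide +kernel⟩

theorem c_mm_022_a : CertF 0 536870912 0 536870912 33554432 16777216 false false false .pp 0 2 2
    ndF1q0 ndF1q2a pcF2 Cut.none Ext.none :=
  certFK0 (fam := false) (s1 := false) (s2 := false) (a := 0) (b := 2) (c := 2) (cn := .pp) (n1 := ndF1q0) (n2 := ndF1q2a) (pc := pcF2) (cut := Cut.none) (xt := Ext.none) (P1 := 0) (W1 := 536870912) (P2 := 0) (W2 := 536870912) (P3 := 33554432) (W3 := 16777216)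
    rfl rfl rfl k0_mm_022_a

noncomputable def f_mm_022_b : ℕ → ℕ → ℕ → ℕ → Bool := onCell 0 536870912 1239849684 370763052 33554432 16777216
    (rowFK 0 false false false .pp 0 2 2 (qsf 0 536870912 1239849684 370763052 2) ndF1q0 ndF1q2b pcF2 Cut.none Ext.none)

def k0_mm_022_b : ∃ t, chk3 f_mm_022_b t 1 1 1 = true :=
  ⟨(l 5), by decide +kernel⟩

theorem c_mm_022_b : CertF 0 536870912 1239849684 370763052 33554432 16777216 false false false .pp 0 2 2
    ndF1q0 ndF1q2b pcF2 Cut.none Ext.none :=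
  certFK0 (fam := false) (s1 := false) (s2 := false) (a := 0) (b := 2) (c := 2) (cn := .pp) (n1 := ndF1q0) (n2 := ndF1q2b) (pc := pcF2) (cut := Cut.none) (xt := Ext.none) (P1 := 0) (W1 := 536870912) (P2 := 1239849684) (W2 := 370763052) (P3 := 33554432) (W3 := 16777216)
    rfl rfl rfl k0_mm_022_b

noncomputable def f_mm_023 : ℕ → ℕ → ℕ → ℕ → Bool := onCell 0 536870912 1610612736 536870912 33554432 16777216
    (rowFK 0 false false false .up 0 2 3 (qsf 0 536870912 1610612736 536870912 2) ndF1q0 ndF1q3 pcF2 Cut.none Ext.none)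

def k0_mm_023 : ∃ t, chk3 f_mm_023 t 1 1 1 = true :=
  ⟨(l 5), by decide +kernel⟩

theorem c_mm_023 : CertF 0 536870912 1610612736 536870912 33554432 16777216 false false false .up 0 2 3
    ndF1q0 ndF1q3 pcF2 Cut.none Ext.none :=
  certFK0 (fam := false) (s1 := false) (s2 := false) (a := 0) (b := 2) (c := 3) (cn := .up) (n1 := ndF1q0) (n2 := ndF1q3) (pc := pcF2) (cut := Cut.none) (xt := Ext.none) (P1 := 0) (W1 := 536870912) (P2 := 1610612736) (W2 := 536870912) (P3 := 33554432) (W3 := 16777216)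
    rfl rfl rfl k0_mm_023

noncomputable def f_mm_033 : ℕ → ℕ → ℕ → ℕ → Bool := onCell 0 536870912 1610612736 536870912 33554432 16777216
    (rowFK 0 false false false .pnn 0 3 3 (qsf 0 536870912 1610612736 536870912 3) ndF1q0 ndF1q3 pcF3 Cut.none Ext.none)

def k0_mm_033 : ∃ t, chk3 f_mm_033 t 1 1 1 = true :=
  ⟨(l 5), by decide +kernel⟩

theorem c_mm_033 : CertF 0 536870912 1610612736 536870912 33554432 16777216 false false false .pnn 0 3 3
    ndF1q0 ndF1q3 pcF3 Cut.none Ext.none :=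
  certFK0 (fam := false) (s1 := false) (s2 := false) (a := 0) (b := 3) (c := 3) (cn := .pnn) (n1 := ndF1q0) (n2 := ndF1q3) (pc := pcF3) (cut := Cut.none) (xt := Ext.none) (P1 := 0) (W1 := 536870912) (P2 := 1610612736) (W2 := 536870912) (P3 := 33554432) (W3 := 16777216)
    rfl rfl rfl k0_mm_033

noncomputable def f_mm_101 : ℕ → ℕ → ℕ → ℕ → Bool := onCell 536870912 536870912 536870912 536870912 33554432 16777216
    (rowFK 0 false false false .npn 1 0 1 (qsf 536870912 536870912 536870912 536870912 0) ndF1q1 ndF1q1 pcF0 Cut.none Ext.none)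

def k0_mm_101 : ∃ t, chk3 f_mm_101 t 1 1 1 = true :=
  ⟨(l 3), by decide +kernel⟩

theorem c_mm_101 : CertF 536870912 536870912 536870912 536870912 33554432 16777216 false false false .npn 1 0 1
    ndF1q1 ndF1q1 pcF0 Cut.none Ext.none :=
  certFK0 (fam := false) (s1 := false) (s2 := false) (a := 1) (b := 0) (c := 1) (cn := .npn) (n1 := ndF1q1) (n2 := ndF1q1) (pc := pcF0) (cut := Cut.none) (xt := Ext.none) (P1 := 536870912) (W1 := 536870912) (P2 := 536870912) (W2 := 536870912) (P3 := 33554432) (W3 := 16777216)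
    rfl rfl rfl k0_mm_101

noncomputable def f_mm_102_a : ℕ → ℕ → ℕ → ℕ → Bool := onCell 536870912 536870912 0 536870912 33554432 16777216
    (rowFK 0 false false false .npp 1 0 2 (qsf 536870912 536870912 0 536870912 0) ndF1q1 ndF1q2a pcF0 Cut.none Ext.none)

def k0_mm_102_a : ∃ t, chk3 f_mm_102_a t 1 1 1 = true :=
  ⟨(l 5), by decide +kernel⟩

theorem c_mm_102_a : CertF 536870912 536870912 0 536870912 33554432 16777216 false false false .npp 1 0 2
    ndF1q1 ndF1q2a pcF0 Cut.none Ext.none :=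
  certFK0 (fam := false) (s1 := false) (s2 := false) (a := 1) (b := 0) (c := 2) (cn := .npp) (n1 := ndF1q1) (n2 := ndF1q2a) (pc := pcF0) (cut := Cut.none) (xt := Ext.none) (P1 := 536870912) (W1 := 536870912) (P2 := 0) (W2 := 536870912) (P3 := 33554432) (W3 := 16777216)
    rfl rfl rfl k0_mm_102_a

noncomputable def f_mm_102_b : ℕ → ℕ → ℕ → ℕ → Bool := onCell 536870912 536870912 1239849684 370763052 33554432 16777216
    (rowFK 0 false false false .npp 1 0 2 (qsf 536870912 536870912 1239849684 370763052 0) ndF1q1 ndF1q2b pcF0 Cut.none Ext.none)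

def k0_mm_102_b : ∃ t, chk3 f_mm_102_b t 1 1 1 = true :=
  ⟨(l 5), by decide +kernel⟩

theorem c_mm_102_b : CertF 536870912 536870912 1239849684 370763052 33554432 16777216 false false false .npp 1 0 2
    ndF1q1 ndF1q2b pcF0 Cut.none Ext.none :=
  certFK0 (fam := false) (s1 := false) (s2 := false) (a := 1) (b := 0) (c := 2) (cn := .npp) (n1 := ndF1q1) (n2 := ndF1q2b) (pc := pcF0) (cut := Cut.none) (xt := Ext.none) (P1 := 536870912) (W1 := 536870912) (P2 := 1239849684) (W2 := 370763052) (P3 := 33554432) (W3 := 16777216)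
    rfl rfl rfl k0_mm_102_b

noncomputable def f_mm_112_a : ℕ → ℕ → ℕ → ℕ → Bool := onCell 536870912 536870912 0 536870912 33554432 16777216
    (rowFK 0 false false false .dn 1 1 2 (qsf 536870912 536870912 0 536870912 1) ndF1q1 ndF1q2a pcF1 Cut.none Ext.none)

def k0_mm_112_a : ∃ t, chk3 f_mm_112_a t 1 1 1 = true :=
  ⟨(l 5), by decide +kernel⟩

theorem c_mm_112_a : CertF 536870912 536870912 0 536870912 33554432 16777216 false false false .dn 1 1 2
    ndF1q1 ndF1q2a pcF1 Cut.none Ext.none :=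
  certFK0 (fam := false) (s1 := false) (s2 := false) (a := 1) (b := 1) (c := 2) (cn := .dn) (n1 := ndF1q1) (n2 := ndF1q2a) (pc := pcF1) (cut := Cut.none) (xt := Ext.none) (P1 := 536870912) (W1 := 536870912) (P2 := 0) (W2 := 536870912) (P3 := 33554432) (W3 := 16777216)
    rfl rfl rfl k0_mm_112_a

noncomputable def f_mm_112_b : ℕ → ℕ → ℕ → ℕ → Bool := onCell 536870912 536870912 1239849684 370763052 33554432 16777216
    (rowFK 0 false false false .dn 1 1 2 (qsf 536870912 536870912 1239849684 370763052 1) ndF1q1 ndF1q2b pcF1 Cut.none Ext.none)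

def k0_mm_112_b : ∃ t, chk3 f_mm_112_b t 1 1 1 = true :=
  ⟨(l 5), by decide +kernel⟩

theorem c_mm_112_b : CertF 536870912 536870912 1239849684 370763052 33554432 16777216 false false false .dn 1 1 2
    ndF1q1 ndF1q2b pcF1 Cut.none Ext.none :=
  certFK0 (fam := false) (s1 := false) (s2 := false) (a := 1) (b := 1) (c := 2) (cn := .dn) (n1 := ndF1q1) (n2 := ndF1q2b) (pc := pcF1) (cut := Cut.none) (xt := Ext.none) (P1 := 536870912) (W1 := 536870912) (P2 := 1239849684) (W2 := 370763052) (P3 := 33554432) (W3 := 16777216)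
    rfl rfl rfl k0_mm_112_b

noncomputable def f_mm_113 : ℕ → ℕ → ℕ → ℕ → Bool := onCell 536870912 536870912 1610612736 536870912 33554432 16777216
    (rowFK 0 false false false .nn 1 1 3 (qsf 536870912 536870912 1610612736 536870912 1) ndF1q1 ndF1q3 pcF1 Cut.none Ext.none)

def k0_mm_113 : ∃ t, chk3 f_mm_113 t 1 1 1 = true :=
  ⟨(l 5), by decide +kernel⟩

theorem c_mm_113 : CertF 536870912 536870912 1610612736 536870912 33554432 16777216 false false false .nn 1 1 3
    ndF1q1 ndF1q3 pcF1 Cut.none Ext.none :=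
  certFK0 (fam := false) (s1 := false) (s2 := false) (a := 1) (b := 1) (c := 3) (cn := .nn) (n1 := ndF1q1) (n2 := ndF1q3) (pc := pcF1) (cut := Cut.none) (xt := Ext.none) (P1 := 536870912) (W1 := 536870912) (P2 := 1610612736) (W2 := 536870912) (P3 := 33554432) (W3 := 16777216)
    rfl rfl rfl k0_mm_113

noncomputable def f_mm_123 : ℕ → ℕ → ℕ → ℕ → Bool := onCell 536870912 536870912 1610612736 536870912 33554432 16777216
    (rowFK 0 false false false .npn 1 2 3 (qsf 536870912 536870912 1610612736 536870912 2) ndF1q1 ndF1q3 pcF2 Cut.none Ext.none)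

def k0_mm_123 : ∃ t, chk3 f_mm_123 t 1 1 1 = true :=
  ⟨(l 5), by decide +kernel⟩

theorem c_mm_123 : CertF 536870912 536870912 1610612736 536870912 33554432 16777216 false false false .npn 1 2 3
    ndF1q1 ndF1q3 pcF2 Cut.none Ext.none :=
  certFK0 (fam := false) (s1 := false) (s2 := false) (a := 1) (b := 2) (c := 3) (cn := .npn) (n1 := ndF1q1) (n2 := ndF1q3) (pc := pcF2) (cut := Cut.none) (xt := Ext.none) (P1 := 536870912) (W1 := 536870912) (P2 := 1610612736) (W2 := 536870912) (P3 := 33554432) (W3 := 16777216)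
    rfl rfl rfl k0_mm_123

noncomputable def f_mm_133 : ℕ → ℕ → ℕ → ℕ → Bool := onCell 536870912 536870912 1610612736 536870912 33554432 16777216
    (rowFK 0 false false false .dn 1 3 3 (qsf 536870912 536870912 1610612736 536870912 3) ndF1q1 ndF1q3 pcF3 Cut.none Ext.none)

def k0_mm_133 : ∃ t, chk3 f_mm_133 t 1 1 1 = true :=
  ⟨(l 5), by decide +kernel⟩

theorem c_mm_133 : CertF 536870912 536870912 1610612736 536870912 33554432 16777216 false false false .dn 1 3 3
    ndF1q1 ndF1q3 pcF3 Cut.none Ext.none :=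
  certFK0 (fam := false) (s1 := false) (s2 := false) (a := 1) (b := 3) (c := 3) (cn := .dn) (n1 := ndF1q1) (n2 := ndF1q3) (pc := pcF3) (cut := Cut.none) (xt := Ext.none) (P1 := 536870912) (W1 := 536870912) (P2 := 1610612736) (W2 := 536870912) (P3 := 33554432) (W3 := 16777216)
    rfl rfl rfl k0_mm_133

noncomputable def f_mm_202_aa : ℕ → ℕ → ℕ → ℕ → Bool := onCell 0 536870912 0 536870912 33554432 16777216
    (rowFK 0 false false false .pp 2 0 2 (qsf 0 536870912 0 536870912 0) ndF1q2a ndF1q2a pcF0 Cut.none Ext.none)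

def k0_mm_202_aa : ∃ t, chk3 f_mm_202_aa t 1 1 1 = true :=
  ⟨(l 3), by decide +kernel⟩

theorem c_mm_202_aa : CertF 0 536870912 0 536870912 33554432 16777216 false false false .pp 2 0 2
    ndF1q2a ndF1q2a pcF0 Cut.none Ext.none :=
  certFK0 (fam := false) (s1 := false) (s2 := false) (a := 2) (b := 0) (c := 2) (cn := .pp) (n1 := ndF1q2a) (n2 := ndF1q2a) (pc := pcF0) (cut := Cut.none) (xt := Ext.none) (P1 := 0) (W1 := 536870912) (P2 := 0) (W2 := 536870912) (P3 := 33554432) (W3 := 16777216)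
    rfl rfl rfl k0_mm_202_aa

noncomputable def f_mm_202_ab : ℕ → ℕ → ℕ → ℕ → Bool := onCell 0 536870912 1239849684 370763052 33554432 16777216
    (rowFK 0 false false false .pp 2 0 2 (qsf 0 536870912 1239849684 370763052 0) ndF1q2a ndF1q2b pcF0 Cut.none Ext.none)

def k0_mm_202_ab : ∃ t, chk3 f_mm_202_ab t 1 1 1 = true :=
  ⟨(l 3), by decide +kernel⟩

theorem c_mm_202_ab : CertF 0 536870912 1239849684 370763052 33554432 16777216 false false false .pp 2 0 2
    ndF1q2a ndF1q2b pcF0 Cut.none Ext.none :=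
  certFK0 (fam := false) (s1 := false) (s2 := false) (a := 2) (b := 0) (c := 2) (cn := .pp) (n1 := ndF1q2a) (n2 := ndF1q2b) (pc := pcF0) (cut := Cut.none) (xt := Ext.none) (P1 := 0) (W1 := 536870912) (P2 := 1239849684) (W2 := 370763052) (P3 := 33554432) (W3 := 16777216)
    rfl rfl rfl k0_mm_202_ab

noncomputable def f_mm_202_ba : ℕ → ℕ → ℕ → ℕ → Bool := onCell 1239849684 370763052 0 536870912 33554432 16777216
    (rowFK 0 false false false .pp 2 0 2 (qsf 1239849684 370763052 0 536870912 0) ndF1q2b ndF1q2a pcF0 Cut.none Ext.none)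

def k0_mm_202_ba : ∃ t, chk3 f_mm_202_ba t 1 1 1 = true :=
  ⟨(l 3), by decide +kernel⟩

theorem c_mm_202_ba : CertF 1239849684 370763052 0 536870912 33554432 16777216 false false false .pp 2 0 2
    ndF1q2b ndF1q2a pcF0 Cut.none Ext.none :=
  certFK0 (fam := false) (s1 := false) (s2 := false) (a := 2) (b := 0) (c := 2) (cn := .pp) (n1 := ndF1q2b) (n2 := ndF1q2a) (pc := pcF0) (cut := Cut.none) (xt := Ext.none) (P1 := 1239849684) (W1 := 370763052) (P2 := 0) (W2 := 536870912) (P3 := 33554432) (W3 := 16777216)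
    rfl rfl rfl k0_mm_202_ba

noncomputable def f_mm_202_bb : ℕ → ℕ → ℕ → ℕ → Bool := onCell 1239849684 370763052 1239849684 370763052 33554432 16777216
    (rowFK 0 false false false .pp 2 0 2 (qsf 1239849684 370763052 1239849684 370763052 0) ndF1q2b ndF1q2b pcF0 Cut.none Ext.none)

def k0_mm_202_bb : ∃ t, chk3 f_mm_202_bb t 1 1 1 = true :=
  ⟨(l 3), by decide +kernel⟩

theorem c_mm_202_bb : CertF 1239849684 370763052 1239849684 370763052 33554432 16777216 false false false .pp 2 0 2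
    ndF1q2b ndF1q2b pcF0 Cut.none Ext.none :=
  certFK0 (fam := false) (s1 := false) (s2 := false) (a := 2) (b := 0) (c := 2) (cn := .pp) (n1 := ndF1q2b) (n2 := ndF1q2b) (pc := pcF0) (cut := Cut.none) (xt := Ext.none) (P1 := 1239849684) (W1 := 370763052) (P2 := 1239849684) (W2 := 370763052) (P3 := 33554432) (W3 := 16777216)
    rfl rfl rfl k0_mm_202_bb

noncomputable def f_mm_203_a : ℕ → ℕ → ℕ → ℕ → Bool := onCell 0 536870912 1610612736 536870912 33554432 16777216
    (rowFK 0 false false false .up 2 0 3 (qsf 0 536870912 1610612736 536870912 0) ndF1q2a ndF1q3 pcF0 Cut.none Ext.none)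

def k0_mm_203_a : ∃ t, chk3 f_mm_203_a t 1 1 1 = true :=
  ⟨(l 5), by decide +kernel⟩

theorem c_mm_203_a : CertF 0 536870912 1610612736 536870912 33554432 16777216 false false false .up 2 0 3
    ndF1q2a ndF1q3 pcF0 Cut.none Ext.none :=
  certFK0 (fam := false) (s1 := false) (s2 := false) (a := 2) (b := 0) (c := 3) (cn := .up) (n1 := ndF1q2a) (n2 := ndF1q3) (pc := pcF0) (cut := Cut.none) (xt := Ext.none) (P1 := 0) (W1 := 536870912) (P2 := 1610612736) (W2 := 536870912) (P3 := 33554432) (W3 := 16777216)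
    rfl rfl rfl k0_mm_203_a

noncomputable def f_mm_203_b : ℕ → ℕ → ℕ → ℕ → Bool := onCell 1239849684 370763052 1610612736 536870912 33554432 16777216
    (rowFK 0 false false false .up 2 0 3 (qsf 1239849684 370763052 1610612736 536870912 0) ndF1q2b ndF1q3 pcF0 Cut.none Ext.none)

def k0_mm_203_b : ∃ t, chk3 f_mm_203_b t 1 1 1 = true :=
  ⟨(l 3), by decide +kernel⟩

theorem c_mm_203_b : CertF 1239849684 370763052 1610612736 536870912 33554432 16777216 false false false .up 2 0 3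
    ndF1q2b ndF1q3 pcF0 Cut.none Ext.none :=
  certFK0 (fam := false) (s1 := false) (s2 := false) (a := 2) (b := 0) (c := 3) (cn := .up) (n1 := ndF1q2b) (n2 := ndF1q3) (pc := pcF0) (cut := Cut.none) (xt := Ext.none) (P1 := 1239849684) (W1 := 370763052) (P2 := 1610612736) (W2 := 536870912) (P3 := 33554432) (W3 := 16777216)
    rfl rfl rfl k0_mm_203_b

noncomputable def f_mm_213_a : ℕ → ℕ → ℕ → ℕ → Bool := onCell 0 536870912 1610612736 536870912 33554432 16777216
    (rowFK 0 false false false .pnn 2 1 3 (qsf 0 536870912 1610612736 536870912 1) ndF1q2a ndF1q3 pcF1 Cut.none Ext.none)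

def k0_mm_213_a : ∃ t, chk3 f_mm_213_a t 1 1 1 = true :=
  ⟨(l 5), by decide +kernel⟩

theorem c_mm_213_a : CertF 0 536870912 1610612736 536870912 33554432 16777216 false false false .pnn 2 1 3
    ndF1q2a ndF1q3 pcF1 Cut.none Ext.none :=
  certFK0 (fam := false) (s1 := false) (s2 := false) (a := 2) (b := 1) (c := 3) (cn := .pnn) (n1 := ndF1q2a) (n2 := ndF1q3) (pc := pcF1) (cut := Cut.none) (xt := Ext.none) (P1 := 0) (W1 := 536870912) (P2 := 1610612736) (W2 := 536870912) (P3 := 33554432) (W3 := 16777216)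
    rfl rfl rfl k0_mm_213_a

noncomputable def f_mm_213_b : ℕ → ℕ → ℕ → ℕ → Bool := onCell 1239849684 370763052 1610612736 536870912 33554432 16777216
    (rowFK 0 false false false .pnn 2 1 3 (qsf 1239849684 370763052 1610612736 536870912 1) ndF1q2b ndF1q3 pcF1 Cut.none Ext.none)

def k0_mm_213_b : ∃ t, chk3 f_mm_213_b t 1 1 1 = true :=
  ⟨(l 3), by decide +kernel⟩

theorem c_mm_213_b : CertF 1239849684 370763052 1610612736 536870912 33554432 16777216 false false false .pnn 2 1 3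
    ndF1q2b ndF1q3 pcF1 Cut.none Ext.none :=
  certFK0 (fam := false) (s1 := false) (s2 := false) (a := 2) (b := 1) (c := 3) (cn := .pnn) (n1 := ndF1q2b) (n2 := ndF1q3) (pc := pcF1) (cut := Cut.none) (xt := Ext.none) (P1 := 1239849684) (W1 := 370763052) (P2 := 1610612736) (W2 := 536870912) (P3 := 33554432) (W3 := 16777216)
    rfl rfl rfl k0_mm_213_b

noncomputable def f_mm_303 : ℕ → ℕ → ℕ → ℕ → Bool := onCell 1610612736 536870912 1610612736 536870912 33554432 16777216
    (rowFK 0 false false false .npn 3 0 3 (qsf 1610612736 536870912 1610612736 536870912 0) ndF1q3 ndF1q3 pcF0 Cut.none Ext.none)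

def k0_mm_303 : ∃ t, chk3 f_mm_303 t 1 1 1 = true :=
  ⟨(l 3), by decide +kernel⟩

theorem c_mm_303 : CertF 1610612736 536870912 1610612736 536870912 33554432 16777216 false false false .npn 3 0 3
    ndF1q3 ndF1q3 pcF0 Cut.none Ext.none :=
  certFK0 (fam := false) (s1 := false) (s2 := false) (a := 3) (b := 0) (c := 3) (cn := .npn) (n1 := ndF1q3) (n2 := ndF1q3) (pc := pcF0) (cut := Cut.none) (xt := Ext.none) (P1 := 1610612736) (W1 := 536870912) (P2 := 1610612736) (W2 := 536870912) (P3 := 33554432) (W3 := 16777216)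
    rfl rfl rfl k0_mm_303

noncomputable def f_mm_313 : ℕ → ℕ → ℕ → ℕ → Bool := onCell 1610612736 536870912 1610612736 536870912 33554432 16777216
    (rowFK 0 false false false .dn 3 1 3 (qsf 1610612736 536870912 1610612736 536870912 1) ndF1q3 ndF1q3 pcF1 Cut.none Ext.none)

def k0_mm_313 : ∃ t, chk3 f_mm_313 t 1 1 1 = true :=
  ⟨(l 3), by decide +kernel⟩

theorem c_mm_313 : CertF 1610612736 536870912 1610612736 536870912 33554432 16777216 false false false .dn 3 1 3
    ndF1q3 ndF1q3 pcF1 Cut.none Ext.none :=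
  certFK0 (fam := false) (s1 := false) (s2 := false) (a := 3) (b := 1) (c := 3) (cn := .dn) (n1 := ndF1q3) (n2 := ndF1q3) (pc := pcF1) (cut := Cut.none) (xt := Ext.none) (P1 := 1610612736) (W1 := 536870912) (P2 := 1610612736) (W2 := 536870912) (P3 := 33554432) (W3 := 16777216)
    rfl rfl rfl k0_mm_313

end Pool.Agent.Strip051.G.I1_32_3_64.Tab.C.FB11

namespace Pool.Agent.Strip051.G.I1_32_3_64.Tab.C.FB12

open Pool.Agent.Strip051.PB Pool.Agent.Strip051.PB.T
open Pool.Agent.Strip051.G.I1_32_3_64.Tab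

noncomputable def f_pp_001 : ℕ → ℕ → ℕ → ℕ → Bool := onCell 0 536870912 0 536870912 33554432 16777216
    (rowFK 1 false true true .up 0 0 1 (qsf 0 536870912 536870912 536870912 0) ndF1q0 ndF2q1 pcF0 Cut.none Ext.none)

def k0_pp_001 : ∃ t, chk3 f_pp_001 t 1 1 1 = true :=
  ⟨(l 3), by decide +kernel⟩

theorem c_pp_001 : CertF 0 536870912 536870912 536870912 33554432 16777216 false true true .up 0 0 1
    ndF1q0 ndF2q1 pcF0 Cut.none Ext.none :=
  certFK1 (fam := false) (s1 := true) (s2 := true) (a := 0) (b := 0) (c := 1) (cn := .up) (n1 := ndF1q0) (n2 := ndF2q1) (pc := pcF0) (cut := Cut.none) (xt := Ext.none) (P1 := 0) (W1 := 536870912) (P2 := 536870912) (W2 := 536870912) (P3 := 33554432) (W3 := 16777216)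
    rfl rfl rfl (fun _ => rfl) k0_pp_001

noncomputable def cut_pp_011 : Cut := Cut.of [[⟨0, 0, 0, 33554432⟩, ⟨1, 1, 0, 33554432⟩, ⟨2, 1, 0, 33554432⟩]]

noncomputable def f_pp_011 : ℕ → ℕ → ℕ → ℕ → Bool := onCell 0 536870912 536870912 536870912 33554432 16777216
    (rowFK 1 false true true .pnn 0 1 1 (qsf 0 536870912 536870912 536870912 1) ndF1q0 ndF2q1 pcF1 cut_pp_011 Ext.none)

def k0_pp_011 : ∃ t, chk3 f_pp_011 t 1 1 1 = true :=
  ⟨(a (b (l 3) (a (b (l 3) (a (b (l 3) (a (b (l 3) (a (b (l 3) (l 6)) (l 3))) (l 3))) (l 3))) (l 3))) (l 3)), by decide +kernel⟩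

theorem c_pp_011 : CertF 0 536870912 536870912 536870912 33554432 16777216 false true true .pnn 0 1 1
    ndF1q0 ndF2q1 pcF1 cut_pp_011 Ext.none :=
  certFK1 (fam := false) (s1 := true) (s2 := true) (a := 0) (b := 1) (c := 1) (cn := .pnn) (n1 := ndF1q0) (n2 := ndF2q1) (pc := pcF1) (cut := cut_pp_011) (xt := Ext.none) (P1 := 0) (W1 := 536870912) (P2 := 536870912) (W2 := 536870912) (P3 := 33554432) (W3 := 16777216)
    rfl rfl rfl (fun _ => rfl) k0_pp_011

noncomputable def cut_pp_012_a : Cut := Cut.of [[⟨0, 0, 0, 33554432⟩, ⟨1, 1, 0, 33554432⟩, ⟨2, 1, 0, 33554432⟩]]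

noncomputable def f_pp_012_a : ℕ → ℕ → ℕ → ℕ → Bool := onCell 536870912 536870912 0 536870912 33554432 16777216
    (rowFK 2 false true true .pnp 0 1 2 (qsf 0 536870912 0 536870912 1) ndF1q0 ndF2q2a pcF1 cut_pp_012_a Ext.none)

def k0_pp_012_a : ∃ t, chk3 f_pp_012_a t 1 1 1 = true :=
  ⟨(a (l 3) (b (a (l 3) (a (l 17105008) (a (l 17628144) (l 18124984)))) (a (l 3) (b (a (l 17203576) (a (l 17313152) (a (l 17640856) (l 17872176)))) (a (l 3) (a (b (l 16929008) (b (l 16915640) (l 3))) (b (b (l 17390960) (b (l 17215296) (l 17070464))) (b (a (l 16846792) (b (l 16807480) (b (l 16796504) (l 16796056)))) (b (a (l 16843048) (a (l 16807920) (l 6))) (a (l 3) (l 6))))))))))), by decide +kernel⟩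

theorem c_pp_012_a : CertF 0 536870912 0 536870912 33554432 16777216 false true true .pnp 0 1 2
    ndF1q0 ndF2q2a pcF1 cut_pp_012_a Ext.none :=
  certFK2 (fam := false) (s1 := true) (s2 := true) (a := 0) (b := 1) (c := 2) (cn := .pnp) (n1 := ndF1q0) (n2 := ndF2q2a) (pc := pcF1) (cut := cut_pp_012_a) (xt := Ext.none) (P1 := 0) (W1 := 536870912) (P2 := 0) (W2 := 536870912) (P3 := 33554432) (W3 := 16777216)
    rfl rfl rfl (fun _ => rfl) k0_pp_012_a

noncomputable def cut_pp_012_b : Cut := Cut.of [[⟨0, 0, 0, 33554432⟩, ⟨1, 1, 0, 33554432⟩, ⟨2, 1, 0, 33554432⟩]]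

noncomputable def f_pp_012_b : ℕ → ℕ → ℕ → ℕ → Bool := onCell 536870912 536870912 1239849684 370763052 33554432 16777216
    (rowFK 2 false true true .pnp 0 1 2 (qsf 0 536870912 1239849684 370763052 1) ndF1q0 ndF2q2b pcF1 cut_pp_012_b Ext.none)

def k0_pp_012_b : ∃ t, chk3 f_pp_012_b t 1 1 1 = true :=
  ⟨(a (l 3) (a (a (b (l 3) (l 2)) (b (l 587505569639) (l 17335624))) (b (a (b (l 17373824) (l 17654312)) (b (l 18074856) (l 18269704))) (a (l 17880544) (l 18392000))))), by decide +kernel⟩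

theorem c_pp_012_b : CertF 0 536870912 1239849684 370763052 33554432 16777216 false true true .pnp 0 1 2
    ndF1q0 ndF2q2b pcF1 cut_pp_012_b Ext.none :=
  certFK2 (fam := false) (s1 := true) (s2 := true) (a := 0) (b := 1) (c := 2) (cn := .pnp) (n1 := ndF1q0) (n2 := ndF2q2b) (pc := pcF1) (cut := cut_pp_012_b) (xt := Ext.none) (P1 := 0) (W1 := 536870912) (P2 := 1239849684) (W2 := 370763052) (P3 := 33554432) (W3 := 16777216)
    rfl rfl rfl (fun _ => rfl) k0_pp_012_b

noncomputable def cut_pp_022_a : Cut := Cut.of [[⟨0, 0, 0, 33554432⟩, ⟨1, 1, 0, 33554432⟩, ⟨2, 1, 0, 33554432⟩]]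

noncomputable def f_pp_022_a : ℕ → ℕ → ℕ → ℕ → Bool := onCell 0 536870912 0 536870912 33554432 16777216
    (rowFK 0 false true true .pp 0 2 2 (qsf 0 536870912 0 536870912 2) ndF1q0 ndF2q2a pcF2 cut_pp_022_a Ext.none)

def k0_pp_022_a : ∃ t, chk3 f_pp_022_a t 2 2 1 = true :=
  ⟨(a (a (l 19425672) (b (l 18844616) (a (l 18784096) (b (l 18607704) (a (l 18501664) (b (l 18420152) (a (l 18338344) (l 18279784)))))))) (a (a (b (a (l 18549056) (b (l 18459752) (l 18423032))) (b (a (a (l 18447952) (l 18391616)) (l 18361496)) (l 18295600))) (l 18383456)) (l 1))), by decide +kernel⟩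

def k1_pp_022_a : ∃ t, chk3 f_pp_022_a t 4 3 1 = true :=
  ⟨(b (b (a (l 18900248) (a (l 18443528) (b (a (b (l 18343040) (a (l 18299408) (l 18221952))) (l 18206688)) (l 18134864)))) (a (a (a (l 18751504) (l 18580264)) (l 18319232)) (a (b (a (l 18208016) (b (a (l 18146440) (l 18064568)) (l 17989072))) (a (a (l 17939104) (l 17866048)) (l 17824328))) (l 17920960)))) (a (b (a (b (a (a (b (l 18341888) (b (l 18132056) (l 17751536))) (l 18115952)) (l 17984472)) (a (a (a (b (c (l 17906800) (a (b (l 17321560) (c (l 17317232) (a (a (b (l 17072672) (l 16768568)) (l 17056544)) (l 17053536)))) (l 17346032))) (a (c (b (c (l 17775880) (l 17294384)) (c (l 17208400) (a (a (b (l 16999208) (b (l 16809568) (l 16729424))) (l 17025296)) (l 17063824)))) (a (a (a (b (b (c (l 17070624) (l 16720472)) (l 16723424)) (b (l 16723624) (l 16725904))) (l 16725656)) (l 16723288)) (l 16723784))) (l 16930248))) (b (l 17625272) (l 17043136))) (b (l 17571968) (l 17017912))) (b (l 17466768)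 (l 16969112)))) (b (a (l 17809784) (b (l 17762040) (a (l 17540856) (l 17474744)))) (a (b (l 17326936) (a (b (l 17041240) (l 16794800)) (l 16895832))) (b (l 17232168) (l 16881120))))) (a (a (b (b (a (a (a (a (a (a (b (b (b (l 16726784) (l 16727672)) (b (l 16728600) (l 16730208))) (b (b (a (l 16731160) (l 16730600)) (b (l 16731320) (l 16731848))) (b (b (l 16732376) (l 6)) (l 6)))) (b (l 16728320) (l 16732312))) (l 16741032)) (l 16731120)) (l 16732288)) (l 16734696)) (l 16740040)) (l 6)) (l 6)) (a (b (b (l 16747984) (l 6)) (l 6)) (b (b (l 16756800) (l 177200910535)) (l 1)))) (b (b (a (b (l 16767192) (l 16773224)) (l 1)) (l 1)) (l 1)))) (b (a (b (l 17618944) (l 1)) (l 1)) (l 1)))), by decide +kernel⟩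

def k2_pp_022_a : ∃ t, chk3 f_pp_022_a t 5 3 1 = true :=
  ⟨(b (l 1) (l 1)), by decide +kernel⟩

def k3_pp_022_a : ∃ t, chk3 f_pp_022_a t 3 1 1 = true :=
  ⟨(l 1), by decide +kernel⟩

theorem s4_pp_022_a : ∃ t, chk3 f_pp_022_a t 2 3 1 = true := ex3_a k1_pp_022_a k2_pp_022_a

theorem s5_pp_022_a : ∃ t, chk3 f_pp_022_a t 2 1 1 = true := ex3_b k0_pp_022_a s4_pp_022_a

theorem s6_pp_022_a : ∃ t, chk3 f_pp_022_a t 1 1 1 = true := ex3_a s5_pp_022_a k3_pp_022_a

theorem c_pp_022_a : CertF 0 536870912 0 536870912 33554432 16777216 false true true .pp 0 2 2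
    ndF1q0 ndF2q2a pcF2 cut_pp_022_a Ext.none :=
  certFK0 (fam := false) (s1 := true) (s2 := true) (a := 0) (b := 2) (c := 2) (cn := .pp) (n1 := ndF1q0) (n2 := ndF2q2a) (pc := pcF2) (cut := cut_pp_022_a) (xt := Ext.none) (P1 := 0) (W1 := 536870912) (P2 := 0) (W2 := 536870912) (P3 := 33554432) (W3 := 16777216)
    rfl rfl rfl s6_pp_022_a

noncomputable def cut_pp_022_b : Cut := Cut.of [[⟨0, 0, 0, 33554432⟩, ⟨1, 1, 0, 33554432⟩, ⟨2, 1, 0, 33554432⟩]]

noncomputable def f_pp_022_b : ℕ → ℕ → ℕ → ℕ → Bool := onCell 1073741824 536870912 1239849684 370763052 33554432 16777216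
    (rowFK 2 false true true .pp 0 2 2 (qsf 0 536870912 1239849684 370763052 2) ndF1q0 ndF2q2b pcF2 cut_pp_022_b Ext.none)

def k0_pp_022_b : ∃ t, chk3 f_pp_022_b t 1 1 1 = true :=
  ⟨(a (a (a (a (a (a (l 18752984) (l 18778896)) (l 18820936)) (l 18962104)) (b (l 19083776) (l 19015752))) (b (b (a (l 19426848) (l 385511815719)) (l 19418584)) (l 19232648))) (b (a (b (l 1) (l 437052503255)) (l 1)) (a (l 19453032) (b (a (l 19589760) (l 1)) (l 19507264))))), by decide +kernel⟩

theorem c_pp_022_b : CertF 0 536870912 1239849684 370763052 33554432 16777216 false true true .pp 0 2 2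
    ndF1q0 ndF2q2b pcF2 cut_pp_022_b Ext.none :=
  certFK2 (fam := false) (s1 := true) (s2 := true) (a := 0) (b := 2) (c := 2) (cn := .pp) (n1 := ndF1q0) (n2 := ndF2q2b) (pc := pcF2) (cut := cut_pp_022_b) (xt := Ext.none) (P1 := 0) (W1 := 536870912) (P2 := 1239849684) (W2 := 370763052) (P3 := 33554432) (W3 := 16777216)
    rfl rfl rfl (fun _ => rfl) k0_pp_022_b

noncomputable def f_pp_023 : ℕ → ℕ → ℕ → ℕ → Bool := onCell 0 536870912 1073741824 536870912 33554432 16777216
    (rowFK 1 false true true .up 0 2 3 (qsf 0 536870912 1610612736 536870912 2) ndF1q0 ndF2q3 pcF2 Cut.none Ext.none)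

def k0_pp_023 : ∃ t, chk3 f_pp_023 t 1 1 1 = true :=
  ⟨(a (b (b (l 1) (l 342562866663)) (b (l 19511712) (l 374775449111))) (b (b (b (b (b (b (l 18738864) (l 18751528)) (l 18769688)) (l 18800664)) (l 18866176)) (l 18980264)) (b (l 19059488) (l 18920384)))), by decide +kernel⟩

theorem c_pp_023 : CertF 0 536870912 1610612736 536870912 33554432 16777216 false true true .up 0 2 3
    ndF1q0 ndF2q3 pcF2 Cut.none Ext.none :=
  certFK1 (fam := false) (s1 := true) (s2 := true) (a := 0) (b := 2) (c := 3) (cn := .up) (n1 := ndF1q0) (n2 := ndF2q3) (pc := pcF2) (cut := Cut.none) (xt := Ext.none) (P1 := 0) (W1 := 536870912) (P2 := 1610612736) (W2 := 536870912) (P3 := 33554432) (W3 := 16777216)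
    rfl rfl rfl (fun _ => rfl) k0_pp_023

noncomputable def f_pp_033 : ℕ → ℕ → ℕ → ℕ → Bool := onCell 1610612736 536870912 1610612736 536870912 33554432 16777216
    (rowFK 2 false true true .pnn 0 3 3 (qsf 0 536870912 1610612736 536870912 3) ndF1q0 ndF2q3 pcF3 Cut.none Ext.none)

def k0_pp_033 : ∃ t, chk3 f_pp_033 t 1 1 1 = true :=
  ⟨(a (b (a (b (l 19355952) (l 18750000)) (b (a (b (l 1) (l 19360424)) (l 1)) (a (l 19029744) (l 19160992)))) (a (l 18357864) (a (l 18532744) (l 18599432)))) (b (a (b (l 1) (a (b (l 1) (l 19227960)) (l 1))) (l 1)) (a (a (l 18662472) (l 18733600)) (b (a (b (l 1) (l 4)) (l 1)) (l 4))))), by decide +kernel⟩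

theorem c_pp_033 : CertF 0 536870912 1610612736 536870912 33554432 16777216 false true true .pnn 0 3 3
    ndF1q0 ndF2q3 pcF3 Cut.none Ext.none :=
  certFK2 (fam := false) (s1 := true) (s2 := true) (a := 0) (b := 3) (c := 3) (cn := .pnn) (n1 := ndF1q0) (n2 := ndF2q3) (pc := pcF3) (cut := Cut.none) (xt := Ext.none) (P1 := 0) (W1 := 536870912) (P2 := 1610612736) (W2 := 536870912) (P3 := 33554432) (W3 := 16777216)
    rfl rfl rfl (fun _ => rfl) k0_pp_033

noncomputable def f_pp_101 : ℕ → ℕ → ℕ → ℕ → Bool := onCell 536870912 536870912 536870912 536870912 33554432 16777216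
    (rowFK 0 false true true .npn 1 0 1 (qsf 536870912 536870912 536870912 536870912 0) ndF1q1 ndF2q1 pcF0 Cut.none Ext.none)

def k0_pp_101 : ∃ t, chk3 f_pp_101 t 1 1 1 = true :=
  ⟨(l 3), by decide +kernel⟩

theorem c_pp_101 : CertF 536870912 536870912 536870912 536870912 33554432 16777216 false true true .npn 1 0 1
    ndF1q1 ndF2q1 pcF0 Cut.none Ext.none :=
  certFK0 (fam := false) (s1 := true) (s2 := true) (a := 1) (b := 0) (c := 1) (cn := .npn) (n1 := ndF1q1) (n2 := ndF2q1) (pc := pcF0) (cut := Cut.none) (xt := Ext.none) (P1 := 536870912) (W1 := 536870912) (P2 := 536870912) (W2 := 536870912) (P3 := 33554432) (W3 := 16777216)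
    rfl rfl rfl k0_pp_101

noncomputable def f_pp_102_a : ℕ → ℕ → ℕ → ℕ → Bool := onCell 536870912 536870912 0 536870912 33554432 16777216
    (rowFK 0 false true true .npp 1 0 2 (qsf 536870912 536870912 0 536870912 0) ndF1q1 ndF2q2a pcF0 Cut.none Ext.none)

def k0_pp_102_a : ∃ t, chk3 f_pp_102_a t 1 1 1 = true :=
  ⟨(l 3), by decide +kernel⟩

theorem c_pp_102_a : CertF 536870912 536870912 0 536870912 33554432 16777216 false true true .npp 1 0 2
    ndF1q1 ndF2q2a pcF0 Cut.none Ext.none :=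
  certFK0 (fam := false) (s1 := true) (s2 := true) (a := 1) (b := 0) (c := 2) (cn := .npp) (n1 := ndF1q1) (n2 := ndF2q2a) (pc := pcF0) (cut := Cut.none) (xt := Ext.none) (P1 := 536870912) (W1 := 536870912) (P2 := 0) (W2 := 536870912) (P3 := 33554432) (W3 := 16777216)
    rfl rfl rfl k0_pp_102_a

noncomputable def f_pp_102_b : ℕ → ℕ → ℕ → ℕ → Bool := onCell 536870912 536870912 0 536870912 33554432 16777216
    (rowFK 1 false true true .npp 1 0 2 (qsf 536870912 536870912 1239849684 370763052 0) ndF1q1 ndF2q2b pcF0 Cut.none Ext.none)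

def k0_pp_102_b : ∃ t, chk3 f_pp_102_b t 1 1 1 = true :=
  ⟨(l 3), by decide +kernel⟩

theorem c_pp_102_b : CertF 536870912 536870912 1239849684 370763052 33554432 16777216 false true true .npp 1 0 2
    ndF1q1 ndF2q2b pcF0 Cut.none Ext.none :=
  certFK1 (fam := false) (s1 := true) (s2 := true) (a := 1) (b := 0) (c := 2) (cn := .npp) (n1 := ndF1q1) (n2 := ndF2q2b) (pc := pcF0) (cut := Cut.none) (xt := Ext.none) (P1 := 536870912) (W1 := 536870912) (P2 := 1239849684) (W2 := 370763052) (P3 := 33554432) (W3 := 16777216)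
    rfl rfl rfl (fun _ => rfl) k0_pp_102_b

noncomputable def f_pp_112_a : ℕ → ℕ → ℕ → ℕ → Bool := onCell 536870912 536870912 0 536870912 33554432 16777216
    (rowFK 0 false true true .dn 1 1 2 (qsf 536870912 536870912 0 536870912 1) ndF1q1 ndF2q2a pcF1 Cut.none Ext.none)

def k0_pp_112_a : ∃ t, chk3 f_pp_112_a t 1 1 1 = true :=
  ⟨(l 3), by decide +kernel⟩

theorem c_pp_112_a : CertF 536870912 536870912 0 536870912 33554432 16777216 false true true .dn 1 1 2
    ndF1q1 ndF2q2a pcF1 Cut.none Ext.none :=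
  certFK0 (fam := false) (s1 := true) (s2 := true) (a := 1) (b := 1) (c := 2) (cn := .dn) (n1 := ndF1q1) (n2 := ndF2q2a) (pc := pcF1) (cut := Cut.none) (xt := Ext.none) (P1 := 536870912) (W1 := 536870912) (P2 := 0) (W2 := 536870912) (P3 := 33554432) (W3 := 16777216)
    rfl rfl rfl k0_pp_112_a

noncomputable def f_pp_112_b : ℕ → ℕ → ℕ → ℕ → Bool := onCell 536870912 536870912 1239849684 370763052 33554432 16777216
    (rowFK 2 false true true .dn 1 1 2 (qsf 536870912 536870912 1239849684 370763052 1) ndF1q1 ndF2q2b pcF1 Cut.none Ext.none)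

def k0_pp_112_b : ∃ t, chk3 f_pp_112_b t 1 1 1 = true :=
  ⟨(a (l 3) (a (b (l 226596673511) (l 18229184)) (b (l 1) (l 18173896)))), by decide +kernel⟩

theorem c_pp_112_b : CertF 536870912 536870912 1239849684 370763052 33554432 16777216 false true true .dn 1 1 2
    ndF1q1 ndF2q2b pcF1 Cut.none Ext.none :=
  certFK2 (fam := false) (s1 := true) (s2 := true) (a := 1) (b := 1) (c := 2) (cn := .dn) (n1 := ndF1q1) (n2 := ndF2q2b) (pc := pcF1) (cut := Cut.none) (xt := Ext.none) (P1 := 536870912) (W1 := 536870912) (P2 := 1239849684) (W2 := 370763052) (P3 := 33554432) (W3 := 16777216)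
    rfl rfl rfl (fun _ => rfl) k0_pp_112_b

noncomputable def f_pp_113 : ℕ → ℕ → ℕ → ℕ → Bool := onCell 536870912 536870912 536870912 536870912 33554432 16777216
    (rowFK 1 false true true .nn 1 1 3 (qsf 536870912 536870912 1610612736 536870912 1) ndF1q1 ndF2q3 pcF1 Cut.none Ext.none)

def k0_pp_113 : ∃ t, chk3 f_pp_113 t 1 1 1 = true :=
  ⟨(a (b (l 3) (b (b (l 18370768) (l 18374896)) (l 285115519479))) (b (b (l 3) (l 3)) (b (b (l 18535072) (l 18238712)) (b (l 17956592) (b (l 17707408) (b (l 17606760) (b (l 17552448) (l 17515304)))))))), by decide +kernel⟩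

theorem c_pp_113 : CertF 536870912 536870912 1610612736 536870912 33554432 16777216 false true true .nn 1 1 3
    ndF1q1 ndF2q3 pcF1 Cut.none Ext.none :=
  certFK1 (fam := false) (s1 := true) (s2 := true) (a := 1) (b := 1) (c := 3) (cn := .nn) (n1 := ndF1q1) (n2 := ndF2q3) (pc := pcF1) (cut := Cut.none) (xt := Ext.none) (P1 := 536870912) (W1 := 536870912) (P2 := 1610612736) (W2 := 536870912) (P3 := 33554432) (W3 := 16777216)
    rfl rfl rfl (fun _ => rfl) k0_pp_113

noncomputable def f_pp_123 : ℕ → ℕ → ℕ → ℕ → Bool := onCell 1073741824 536870912 1610612736 536870912 33554432 16777216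
    (rowFK 2 false true true .npn 1 2 3 (qsf 536870912 536870912 1610612736 536870912 2) ndF1q1 ndF2q3 pcF2 Cut.none Ext.none)

def k0_pp_123 : ∃ t, chk3 f_pp_123 t 1 1 1 = true :=
  ⟨(a (b (a (a (a (a (a (l 18173312) (l 18172368)) (l 18170800)) (l 18167648)) (l 18158504)) (l 18133904)) (a (a (a (a (a (l 17334544) (l 17334784)) (l 17335056)) (l 17337320)) (l 17342592)) (l 17379712))) (a (b (l 18091984) (l 17523808)) (b (l 1) (l 490198615447)))), by decide +kernel⟩

theorem c_pp_123 : CertF 536870912 536870912 1610612736 536870912 33554432 16777216 false true true .npn 1 2 3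
    ndF1q1 ndF2q3 pcF2 Cut.none Ext.none :=
  certFK2 (fam := false) (s1 := true) (s2 := true) (a := 1) (b := 2) (c := 3) (cn := .npn) (n1 := ndF1q1) (n2 := ndF2q3) (pc := pcF2) (cut := Cut.none) (xt := Ext.none) (P1 := 536870912) (W1 := 536870912) (P2 := 1610612736) (W2 := 536870912) (P3 := 33554432) (W3 := 16777216)
    rfl rfl rfl (fun _ => rfl) k0_pp_123

noncomputable def f_pp_133 : ℕ → ℕ → ℕ → ℕ → Bool := onCell 1610612736 536870912 1610612736 536870912 33554432 16777216
    (rowFK 2 false true true .dn 1 3 3 (qsf 536870912 536870912 1610612736 536870912 3) ndF1q1 ndF2q3 pcF3 Cut.none Ext.none)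

def k0_pp_133 : ∃ t, chk3 f_pp_133 t 1 1 1 = true :=
  ⟨(a (b (l 1) (a (l 443492001095) (l 1))) (l 1)), by decide +kernel⟩

theorem c_pp_133 : CertF 536870912 536870912 1610612736 536870912 33554432 16777216 false true true .dn 1 3 3
    ndF1q1 ndF2q3 pcF3 Cut.none Ext.none :=
  certFK2 (fam := false) (s1 := true) (s2 := true) (a := 1) (b := 3) (c := 3) (cn := .dn) (n1 := ndF1q1) (n2 := ndF2q3) (pc := pcF3) (cut := Cut.none) (xt := Ext.none) (P1 := 536870912) (W1 := 536870912) (P2 := 1610612736) (W2 := 536870912) (P3 := 33554432) (W3 := 16777216)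
    rfl rfl rfl (fun _ => rfl) k0_pp_133

noncomputable def f_pp_202_aa : ℕ → ℕ → ℕ → ℕ → Bool := onCell 0 536870912 0 536870912 33554432 16777216
    (rowFK 0 false true true .pp 2 0 2 (qsf 0 536870912 0 536870912 0) ndF1q2a ndF2q2a pcF0 Cut.none Ext.none)

def k0_pp_202_aa : ∃ t, chk3 f_pp_202_aa t 1 1 1 = true :=
  ⟨(l 3), by decide +kernel⟩

theorem c_pp_202_aa : CertF 0 536870912 0 536870912 33554432 16777216 false true true .pp 2 0 2
    ndF1q2a ndF2q2a pcF0 Cut.none Ext.none :=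
  certFK0 (fam := false) (s1 := true) (s2 := true) (a := 2) (b := 0) (c := 2) (cn := .pp) (n1 := ndF1q2a) (n2 := ndF2q2a) (pc := pcF0) (cut := Cut.none) (xt := Ext.none) (P1 := 0) (W1 := 536870912) (P2 := 0) (W2 := 536870912) (P3 := 33554432) (W3 := 16777216)
    rfl rfl rfl k0_pp_202_aa

noncomputable def f_pp_202_ab : ℕ → ℕ → ℕ → ℕ → Bool := onCell 0 536870912 1239849684 370763052 33554432 16777216
    (rowFK 0 false true true .pp 2 0 2 (qsf 0 536870912 1239849684 370763052 0) ndF1q2a ndF2q2b pcF0 Cut.none Ext.none)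

def k0_pp_202_ab : ∃ t, chk3 f_pp_202_ab t 1 1 1 = true :=
  ⟨(l 3), by decide +kernel⟩

theorem c_pp_202_ab : CertF 0 536870912 1239849684 370763052 33554432 16777216 false true true .pp 2 0 2
    ndF1q2a ndF2q2b pcF0 Cut.none Ext.none :=
  certFK0 (fam := false) (s1 := true) (s2 := true) (a := 2) (b := 0) (c := 2) (cn := .pp) (n1 := ndF1q2a) (n2 := ndF2q2b) (pc := pcF0) (cut := Cut.none) (xt := Ext.none) (P1 := 0) (W1 := 536870912) (P2 := 1239849684) (W2 := 370763052) (P3 := 33554432) (W3 := 16777216)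
    rfl rfl rfl k0_pp_202_ab

noncomputable def f_pp_202_ba : ℕ → ℕ → ℕ → ℕ → Bool := onCell 1239849684 370763052 0 536870912 33554432 16777216
    (rowFK 0 false true true .pp 2 0 2 (qsf 1239849684 370763052 0 536870912 0) ndF1q2b ndF2q2a pcF0 Cut.none Ext.none)

def k0_pp_202_ba : ∃ t, chk3 f_pp_202_ba t 1 1 1 = true :=
  ⟨(l 3), by decide +kernel⟩

theorem c_pp_202_ba : CertF 1239849684 370763052 0 536870912 33554432 16777216 false true true .pp 2 0 2
    ndF1q2b ndF2q2a pcF0 Cut.none Ext.none :=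
  certFK0 (fam := false) (s1 := true) (s2 := true) (a := 2) (b := 0) (c := 2) (cn := .pp) (n1 := ndF1q2b) (n2 := ndF2q2a) (pc := pcF0) (cut := Cut.none) (xt := Ext.none) (P1 := 1239849684) (W1 := 370763052) (P2 := 0) (W2 := 536870912) (P3 := 33554432) (W3 := 16777216)
    rfl rfl rfl k0_pp_202_ba

noncomputable def f_pp_202_bb : ℕ → ℕ → ℕ → ℕ → Bool := onCell 1239849684 370763052 1239849684 370763052 33554432 16777216
    (rowFK 0 false true true .pp 2 0 2 (qsf 1239849684 370763052 1239849684 370763052 0) ndF1q2b ndF2q2b pcF0 Cut.none Ext.none)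

def k0_pp_202_bb : ∃ t, chk3 f_pp_202_bb t 1 1 1 = true :=
  ⟨(l 3), by decide +kernel⟩

theorem c_pp_202_bb : CertF 1239849684 370763052 1239849684 370763052 33554432 16777216 false true true .pp 2 0 2
    ndF1q2b ndF2q2b pcF0 Cut.none Ext.none :=
  certFK0 (fam := false) (s1 := true) (s2 := true) (a := 2) (b := 0) (c := 2) (cn := .pp) (n1 := ndF1q2b) (n2 := ndF2q2b) (pc := pcF0) (cut := Cut.none) (xt := Ext.none) (P1 := 1239849684) (W1 := 370763052) (P2 := 1239849684) (W2 := 370763052) (P3 := 33554432) (W3 := 16777216)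
    rfl rfl rfl k0_pp_202_bb

noncomputable def f_pp_203_a : ℕ → ℕ → ℕ → ℕ → Bool := onCell 0 536870912 0 536870912 33554432 16777216
    (rowFK 1 false true true .up 2 0 3 (qsf 0 536870912 1610612736 536870912 0) ndF1q2a ndF2q3 pcF0 Cut.none Ext.none)

def k0_pp_203_a : ∃ t, chk3 f_pp_203_a t 1 1 1 = true :=
  ⟨(l 3), by decide +kernel⟩

theorem c_pp_203_a : CertF 0 536870912 1610612736 536870912 33554432 16777216 false true true .up 2 0 3
    ndF1q2a ndF2q3 pcF0 Cut.none Ext.none :=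
  certFK1 (fam := false) (s1 := true) (s2 := true) (a := 2) (b := 0) (c := 3) (cn := .up) (n1 := ndF1q2a) (n2 := ndF2q3) (pc := pcF0) (cut := Cut.none) (xt := Ext.none) (P1 := 0) (W1 := 536870912) (P2 := 1610612736) (W2 := 536870912) (P3 := 33554432) (W3 := 16777216)
    rfl rfl rfl (fun _ => rfl) k0_pp_203_a

noncomputable def f_pp_203_b : ℕ → ℕ → ℕ → ℕ → Bool := onCell 1239849684 370763052 1610612736 536870912 33554432 16777216
    (rowFK 0 false true true .up 2 0 3 (qsf 1239849684 370763052 1610612736 536870912 0) ndF1q2b ndF2q3 pcF0 Cut.none Ext.none)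

def k0_pp_203_b : ∃ t, chk3 f_pp_203_b t 1 1 1 = true :=
  ⟨(l 3), by decide +kernel⟩

theorem c_pp_203_b : CertF 1239849684 370763052 1610612736 536870912 33554432 16777216 false true true .up 2 0 3
    ndF1q2b ndF2q3 pcF0 Cut.none Ext.none :=
  certFK0 (fam := false) (s1 := true) (s2 := true) (a := 2) (b := 0) (c := 3) (cn := .up) (n1 := ndF1q2b) (n2 := ndF2q3) (pc := pcF0) (cut := Cut.none) (xt := Ext.none) (P1 := 1239849684) (W1 := 370763052) (P2 := 1610612736) (W2 := 536870912) (P3 := 33554432) (W3 := 16777216)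
    rfl rfl rfl k0_pp_203_b

noncomputable def cut_pp_213_a : Cut := Cut.of [[⟨0, 1, 0, 7061502⟩, ⟨1, 1, 0, 7061502⟩, ⟨2, 2, 0, 184626⟩]]

noncomputable def f_pp_213_a : ℕ → ℕ → ℕ → ℕ → Bool := onCell 0 536870912 1610612736 536870912 33554432 16777216
    (rowFK 0 false true true .pnn 2 1 3 (qsf 0 536870912 1610612736 536870912 1) ndF1q2a ndF2q3 pcF1 cut_pp_213_a Ext.none)

def k0_pp_213_a : ∃ t, chk3 f_pp_213_a t 1 1 1 = true :=
  ⟨(b (l 3) (a (l 3) (b (l 3) (a (l 3) (b (l 3) (a (l 3) (b (l 3) (b (l 3) (a (l 3) (b (l 3) (a (l 3) (b (l 3) (a (l 3) (b (l 3) (b (l 3) (b (l 3) (b (l 3) (b (l 3) (l 6))))))))))))))))))), by decide +kernel⟩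

theorem c_pp_213_a : CertF 0 536870912 1610612736 536870912 33554432 16777216 false true true .pnn 2 1 3
    ndF1q2a ndF2q3 pcF1 cut_pp_213_a Ext.none :=
  certFK0 (fam := false) (s1 := true) (s2 := true) (a := 2) (b := 1) (c := 3) (cn := .pnn) (n1 := ndF1q2a) (n2 := ndF2q3) (pc := pcF1) (cut := cut_pp_213_a) (xt := Ext.none) (P1 := 0) (W1 := 536870912) (P2 := 1610612736) (W2 := 536870912) (P3 := 33554432) (W3 := 16777216)
    rfl rfl rfl k0_pp_213_a

noncomputable def cut_pp_213_b : Cut := Cut.of [[⟨0, 1, 0, 7061502⟩, ⟨1, 1, 0, 7061502⟩, ⟨2, 2, 0, 184626⟩]]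

noncomputable def f_pp_213_b : ℕ → ℕ → ℕ → ℕ → Bool := onCell 1239849684 370763052 1610612736 536870912 33554432 16777216
    (rowFK 0 false true true .pnn 2 1 3 (qsf 1239849684 370763052 1610612736 536870912 1) ndF1q2b ndF2q3 pcF1 cut_pp_213_b Ext.none)

def k0_pp_213_b : ∃ t, chk3 f_pp_213_b t 1 1 1 = true :=
  ⟨(l 3), by decide +kernel⟩

theorem c_pp_213_b : CertF 1239849684 370763052 1610612736 536870912 33554432 16777216 false true true .pnn 2 1 3
    ndF1q2b ndF2q3 pcF1 cut_pp_213_b Ext.none :=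
  certFK0 (fam := false) (s1 := true) (s2 := true) (a := 2) (b := 1) (c := 3) (cn := .pnn) (n1 := ndF1q2b) (n2 := ndF2q3) (pc := pcF1) (cut := cut_pp_213_b) (xt := Ext.none) (P1 := 1239849684) (W1 := 370763052) (P2 := 1610612736) (W2 := 536870912) (P3 := 33554432) (W3 := 16777216)
    rfl rfl rfl k0_pp_213_b

noncomputable def f_pp_303 : ℕ → ℕ → ℕ → ℕ → Bool := onCell 1610612736 536870912 1610612736 536870912 33554432 16777216
    (rowFK 0 false true true .npn 3 0 3 (qsf 1610612736 536870912 1610612736 536870912 0) ndF1q3 ndF2q3 pcF0 Cut.none Ext.none)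

def k0_pp_303 : ∃ t, chk3 f_pp_303 t 1 1 1 = true :=
  ⟨(l 3), by decide +kernel⟩

theorem c_pp_303 : CertF 1610612736 536870912 1610612736 536870912 33554432 16777216 false true true .npn 3 0 3
    ndF1q3 ndF2q3 pcF0 Cut.none Ext.none :=
  certFK0 (fam := false) (s1 := true) (s2 := true) (a := 3) (b := 0) (c := 3) (cn := .npn) (n1 := ndF1q3) (n2 := ndF2q3) (pc := pcF0) (cut := Cut.none) (xt := Ext.none) (P1 := 1610612736) (W1 := 536870912) (P2 := 1610612736) (W2 := 536870912) (P3 := 33554432) (W3 := 16777216)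
    rfl rfl rfl k0_pp_303

noncomputable def f_pp_313 : ℕ → ℕ → ℕ → ℕ → Bool := onCell 1610612736 536870912 1610612736 536870912 33554432 16777216
    (rowFK 0 false true true .dn 3 1 3 (qsf 1610612736 536870912 1610612736 536870912 1) ndF1q3 ndF2q3 pcF1 Cut.none Ext.none)

def k0_pp_313 : ∃ t, chk3 f_pp_313 t 1 1 1 = true :=
  ⟨(l 3), by decide +kernel⟩

theorem c_pp_313 : CertF 1610612736 536870912 1610612736 536870912 33554432 16777216 false true true .dn 3 1 3
    ndF1q3 ndF2q3 pcF1 Cut.none Ext.none :=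
  certFK0 (fam := false) (s1 := true) (s2 := true) (a := 3) (b := 1) (c := 3) (cn := .dn) (n1 := ndF1q3) (n2 := ndF2q3) (pc := pcF1) (cut := Cut.none) (xt := Ext.none) (P1 := 1610612736) (W1 := 536870912) (P2 := 1610612736) (W2 := 536870912) (P3 := 33554432) (W3 := 16777216)
    rfl rfl rfl k0_pp_313

noncomputable def f_pm_001 : ℕ → ℕ → ℕ → ℕ → Bool := onCell 0 536870912 536870912 536870912 33554432 16777216
    (rowFK 0 false true false .up 0 0 1 (qsf 0 536870912 536870912 536870912 0) ndF1q0 ndF2q1 pcF0 Cut.none Ext.none)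

def k0_pm_001 : ∃ t, chk3 f_pm_001 t 1 1 1 = true :=
  ⟨(l 4), by decide +kernel⟩

theorem c_pm_001 : CertF 0 536870912 536870912 536870912 33554432 16777216 false true false .up 0 0 1
    ndF1q0 ndF2q1 pcF0 Cut.none Ext.none :=
  certFK0 (fam := false) (s1 := true) (s2 := false) (a := 0) (b := 0) (c := 1) (cn := .up) (n1 := ndF1q0) (n2 := ndF2q1) (pc := pcF0) (cut := Cut.none) (xt := Ext.none) (P1 := 0) (W1 := 536870912) (P2 := 536870912) (W2 := 536870912) (P3 := 33554432) (W3 := 16777216)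
    rfl rfl rfl k0_pm_001

noncomputable def f_pm_011 : ℕ → ℕ → ℕ → ℕ → Bool := onCell 0 536870912 536870912 536870912 33554432 16777216
    (rowFK 0 false true false .pnn 0 1 1 (qsf 0 536870912 536870912 536870912 1) ndF1q0 ndF2q1 pcF1 Cut.none Ext.none)

def k0_pm_011 : ∃ t, chk3 f_pm_011 t 1 1 1 = true :=
  ⟨(l 4), by decide +kernel⟩

theorem c_pm_011 : CertF 0 536870912 536870912 536870912 33554432 16777216 false true false .pnn 0 1 1
    ndF1q0 ndF2q1 pcF1 Cut.none Ext.none :=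
  certFK0 (fam := false) (s1 := true) (s2 := false) (a := 0) (b := 1) (c := 1) (cn := .pnn) (n1 := ndF1q0) (n2 := ndF2q1) (pc := pcF1) (cut := Cut.none) (xt := Ext.none) (P1 := 0) (W1 := 536870912) (P2 := 536870912) (W2 := 536870912) (P3 := 33554432) (W3 := 16777216)
    rfl rfl rfl k0_pm_011

noncomputable def cut_pm_012_a : Cut := Cut.of [[⟨0, 0, 0, 33554432⟩, ⟨1, 1, 0, 33554432⟩, ⟨2, 1, 0, 33554432⟩]]

noncomputable def f_pm_012_a : ℕ → ℕ → ℕ → ℕ → Bool := onCell 0 536870912 0 536870912 33554432 16777216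
    (rowFK 0 false true false .pnp 0 1 2 (qsf 0 536870912 0 536870912 1) ndF1q0 ndF2q2a pcF1 cut_pm_012_a Ext.none)

def k0_pm_012_a : ∃ t, chk3 f_pm_012_a t 1 1 1 = true :=
  ⟨(a (b (l 4) (a (b (l 4) (a (b (l 4) (a (b (l 4) (a (l 6) (l 4))) (l 4))) (l 4))) (l 4))) (b (a (l 4) (l 18898848)) (b (a (l 4) (l 285853780039)) (b (a (l 4) (l 17950344)) (b (a (l 4) (l 17745888)) (b (a (l 17967480) (l 17628800)) (a (l 17851184) (l 17554296)))))))), by decide +kernel⟩

theorem c_pm_012_a : CertF 0 536870912 0 536870912 33554432 16777216 false true false .pnp 0 1 2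
    ndF1q0 ndF2q2a pcF1 cut_pm_012_a Ext.none :=
  certFK0 (fam := false) (s1 := true) (s2 := false) (a := 0) (b := 1) (c := 2) (cn := .pnp) (n1 := ndF1q0) (n2 := ndF2q2a) (pc := pcF1) (cut := cut_pm_012_a) (xt := Ext.none) (P1 := 0) (W1 := 536870912) (P2 := 0) (W2 := 536870912) (P3 := 33554432) (W3 := 16777216)
    rfl rfl rfl k0_pm_012_a

noncomputable def cut_pm_012_b : Cut := Cut.of [[⟨0, 0, 0, 33554432⟩, ⟨1, 1, 0, 33554432⟩, ⟨2, 1, 0, 33554432⟩]]

noncomputable def f_pm_012_b : ℕ → ℕ → ℕ → ℕ → Bool := onCell 0 536870912 1239849684 370763052 33554432 16777216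
    (rowFK 0 false true false .pnp 0 1 2 (qsf 0 536870912 1239849684 370763052 1) ndF1q0 ndF2q2b pcF1 cut_pm_012_b Ext.none)

def k0_pm_012_b : ∃ t, chk3 f_pm_012_b t 1 1 1 = true :=
  ⟨(a (l 4) (b (a (l 4) (b (l 4) (l 4))) (l 4))), by decide +kernel⟩

theorem c_pm_012_b : CertF 0 536870912 1239849684 370763052 33554432 16777216 false true false .pnp 0 1 2
    ndF1q0 ndF2q2b pcF1 cut_pm_012_b Ext.none :=
  certFK0 (fam := false) (s1 := true) (s2 := false) (a := 0) (b := 1) (c := 2) (cn := .pnp) (n1 := ndF1q0) (n2 := ndF2q2b) (pc := pcF1) (cut := cut_pm_012_b) (xt := Ext.none) (P1 := 0) (W1 := 536870912) (P2 := 1239849684) (W2 := 370763052) (P3 := 33554432) (W3 := 16777216)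
    rfl rfl rfl k0_pm_012_b

noncomputable def cut_pm_022_a : Cut := Cut.of [[⟨0, 0, 0, 33554432⟩, ⟨1, 1, 0, 33554432⟩, ⟨2, 1, 0, 33554432⟩]]

noncomputable def f_pm_022_a : ℕ → ℕ → ℕ → ℕ → Bool := onCell 0 536870912 0 536870912 33554432 16777216
    (rowFK 0 false true false .pp 0 2 2 (qsf 0 536870912 0 536870912 2) ndF1q0 ndF2q2a pcF2 cut_pm_022_a Ext.none)

def k0_pm_022_a : ∃ t, chk3 f_pm_022_a t 1 1 1 = true :=
  ⟨(a (b (l 4) (a (b (l 4) (b (l 4) (a (a (a (b (l 4) (l 6)) (l 4)) (l 4)) (l 1)))) (l 4))) (l 1)), by decide +kernel⟩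

theorem c_pm_022_a : CertF 0 536870912 0 536870912 33554432 16777216 false true false .pp 0 2 2
    ndF1q0 ndF2q2a pcF2 cut_pm_022_a Ext.none :=
  certFK0 (fam := false) (s1 := true) (s2 := false) (a := 0) (b := 2) (c := 2) (cn := .pp) (n1 := ndF1q0) (n2 := ndF2q2a) (pc := pcF2) (cut := cut_pm_022_a) (xt := Ext.none) (P1 := 0) (W1 := 536870912) (P2 := 0) (W2 := 536870912) (P3 := 33554432) (W3 := 16777216)
    rfl rfl rfl k0_pm_022_a

noncomputable def cut_pm_022_b : Cut := Cut.of [[⟨0, 0, 0, 33554432⟩, ⟨1, 1, 0, 33554432⟩, ⟨2, 1, 0, 33554432⟩]]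

noncomputable def f_pm_022_b : ℕ → ℕ → ℕ → ℕ → Bool := onCell 0 536870912 1239849684 370763052 33554432 16777216
    (rowFK 0 false true false .pp 0 2 2 (qsf 0 536870912 1239849684 370763052 2) ndF1q0 ndF2q2b pcF2 cut_pm_022_b Ext.none)

def k0_pm_022_b : ∃ t, chk3 f_pm_022_b t 1 1 1 = true :=
  ⟨(a (l 4) (b (a (l 4) (l 1)) (l 4))), by decide +kernel⟩

theorem c_pm_022_b : CertF 0 536870912 1239849684 370763052 33554432 16777216 false true false .pp 0 2 2
    ndF1q0 ndF2q2b pcF2 cut_pm_022_b Ext.none :=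
  certFK0 (fam := false) (s1 := true) (s2 := false) (a := 0) (b := 2) (c := 2) (cn := .pp) (n1 := ndF1q0) (n2 := ndF2q2b) (pc := pcF2) (cut := cut_pm_022_b) (xt := Ext.none) (P1 := 0) (W1 := 536870912) (P2 := 1239849684) (W2 := 370763052) (P3 := 33554432) (W3 := 16777216)
    rfl rfl rfl k0_pm_022_b

noncomputable def f_pm_023 : ℕ → ℕ → ℕ → ℕ → Bool := onCell 0 536870912 1073741824 536870912 33554432 16777216
    (rowFK 1 false true false .up 0 2 3 (qsf 0 536870912 1610612736 536870912 2) ndF1q0 ndF2q3 pcF2 Cut.none Ext.none)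

def k0_pm_023 : ∃ t, chk3 f_pm_023 t 1 1 1 = true :=
  ⟨(b (b (l 439202246855) (l 1782116505431)) (b (l 843128210727) (l 408261516407))), by decide +kernel⟩

theorem c_pm_023 : CertF 0 536870912 1610612736 536870912 33554432 16777216 false true false .up 0 2 3
    ndF1q0 ndF2q3 pcF2 Cut.none Ext.none :=
  certFK1 (fam := false) (s1 := true) (s2 := false) (a := 0) (b := 2) (c := 3) (cn := .up) (n1 := ndF1q0) (n2 := ndF2q3) (pc := pcF2) (cut := Cut.none) (xt := Ext.none) (P1 := 0) (W1 := 536870912) (P2 := 1610612736) (W2 := 536870912) (P3 := 33554432) (W3 := 16777216)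
    rfl rfl rfl (fun _ => rfl) k0_pm_023

noncomputable def f_pm_033 : ℕ → ℕ → ℕ → ℕ → Bool := onCell 0 536870912 1610612736 536870912 33554432 16777216
    (rowFK 0 false true false .pnn 0 3 3 (qsf 0 536870912 1610612736 536870912 3) ndF1q0 ndF2q3 pcF3 Cut.none Ext.none)

def k0_pm_033 : ∃ t, chk3 f_pm_033 t 1 1 1 = true :=
  ⟨(a (l 4) (b (l 4) (b (l 4) (a (l 4) (l 4))))), by decide +kernel⟩

theorem c_pm_033 : CertF 0 536870912 1610612736 536870912 33554432 16777216 false true false .pnn 0 3 3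
    ndF1q0 ndF2q3 pcF3 Cut.none Ext.none :=
  certFK0 (fam := false) (s1 := true) (s2 := false) (a := 0) (b := 3) (c := 3) (cn := .pnn) (n1 := ndF1q0) (n2 := ndF2q3) (pc := pcF3) (cut := Cut.none) (xt := Ext.none) (P1 := 0) (W1 := 536870912) (P2 := 1610612736) (W2 := 536870912) (P3 := 33554432) (W3 := 16777216)
    rfl rfl rfl k0_pm_033

noncomputable def f_pm_101 : ℕ → ℕ → ℕ → ℕ → Bool := onCell 536870912 536870912 536870912 536870912 33554432 16777216
    (rowFK 0 false true false .npn 1 0 1 (qsf 536870912 536870912 536870912 536870912 0) ndF1q1 ndF2q1 pcF0 Cut.none Ext.none)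

def k0_pm_101 : ∃ t, chk3 f_pm_101 t 1 1 1 = true :=
  ⟨(l 4), by decide +kernel⟩

theorem c_pm_101 : CertF 536870912 536870912 536870912 536870912 33554432 16777216 false true false .npn 1 0 1
    ndF1q1 ndF2q1 pcF0 Cut.none Ext.none :=
  certFK0 (fam := false) (s1 := true) (s2 := false) (a := 1) (b := 0) (c := 1) (cn := .npn) (n1 := ndF1q1) (n2 := ndF2q1) (pc := pcF0) (cut := Cut.none) (xt := Ext.none) (P1 := 536870912) (W1 := 536870912) (P2 := 536870912) (W2 := 536870912) (P3 := 33554432) (W3 := 16777216)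
    rfl rfl rfl k0_pm_101

noncomputable def f_pm_102_a : ℕ → ℕ → ℕ → ℕ → Bool := onCell 536870912 536870912 0 536870912 33554432 16777216
    (rowFK 0 false true false .npp 1 0 2 (qsf 536870912 536870912 0 536870912 0) ndF1q1 ndF2q2a pcF0 Cut.none Ext.none)

def k0_pm_102_a : ∃ t, chk3 f_pm_102_a t 1 1 1 = true :=
  ⟨(a (b (a (a (l 2) (l 18821200)) (l 18760064)) (a (b (a (l 2) (l 18870056)) (b (l 18967592) (b (l 19019000) (b (l 19050512) (l 19074096))))) (b (l 18896880) (b (l 19045608) (b (l 19141992) (b (l 19194040) (l 19230192))))))) (b (a (c (l 19422992) (l 18453968)) (c (l 19889904) (l 18502608))) (a (b (l 19292192) (b (l 19250304) (b (l 19354672) (b (l 19404776) (l 19433992))))) (b (c (l 20017888) (l 18654184)) (b (c (l 20121088) (l 18805584)) (b (c (l 20194384) (l 18908896)) (b (l 19823136) (l 19832688)))))))), by decide +kernel⟩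

theorem c_pm_102_a : CertF 536870912 536870912 0 536870912 33554432 16777216 false true false .npp 1 0 2
    ndF1q1 ndF2q2a pcF0 Cut.none Ext.none :=
  certFK0 (fam := false) (s1 := true) (s2 := false) (a := 1) (b := 0) (c := 2) (cn := .npp) (n1 := ndF1q1) (n2 := ndF2q2a) (pc := pcF0) (cut := Cut.none) (xt := Ext.none) (P1 := 536870912) (W1 := 536870912) (P2 := 0) (W2 := 536870912) (P3 := 33554432) (W3 := 16777216)
    rfl rfl rfl k0_pm_102_a

noncomputable def f_pm_102_b : ℕ → ℕ → ℕ → ℕ → Bool := onCell 536870912 536870912 1239849684 370763052 33554432 16777216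
    (rowFK 0 false true false .npp 1 0 2 (qsf 536870912 536870912 1239849684 370763052 0) ndF1q1 ndF2q2b pcF0 Cut.none Ext.none)

def k0_pm_102_b : ∃ t, chk3 f_pm_102_b t 1 1 1 = true :=
  ⟨(a (b (a (l 2) (b (a (l 18636552) (l 18600832)) (a (l 2) (l 18328968)))) (l 2)) (b (a (b (a (l 18656704) (l 18813728)) (a (l 18319712) (b (l 18501272) (l 18299776)))) (b (a (c (l 19578872) (l 18246616)) (a (l 19236936) (c (l 19881920) (l 18305520)))) (a (c (l 19375720) (l 17842080)) (c (b (l 19447584) (l 18926376)) (c (l 18115808) (l 18046968)))))) (a (b (a (l 2) (b (l 18028376) (l 17687808))) (l 2)) (b (a (b (l 18162336) (l 17711456)) (c (l 18237776) (l 18150200))) (a (l 18032536) (l 18478600)))))), by decide +kernel⟩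

theorem c_pm_102_b : CertF 536870912 536870912 1239849684 370763052 33554432 16777216 false true false .npp 1 0 2
    ndF1q1 ndF2q2b pcF0 Cut.none Ext.none :=
  certFK0 (fam := false) (s1 := true) (s2 := false) (a := 1) (b := 0) (c := 2) (cn := .npp) (n1 := ndF1q1) (n2 := ndF2q2b) (pc := pcF0) (cut := Cut.none) (xt := Ext.none) (P1 := 536870912) (W1 := 536870912) (P2 := 1239849684) (W2 := 370763052) (P3 := 33554432) (W3 := 16777216)
    rfl rfl rfl k0_pm_102_b

noncomputable def f_pm_112_a : ℕ → ℕ → ℕ → ℕ → Bool := onCell 536870912 536870912 0 536870912 33554432 16777216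
    (rowFK 0 false true false .dn 1 1 2 (qsf 536870912 536870912 0 536870912 1) ndF1q1 ndF2q2a pcF1 Cut.none Ext.none)

def k0_pm_112_a : ∃ t, chk3 f_pm_112_a t 1 1 1 = true :=
  ⟨(a (b (a (l 19113776) (l 19066512)) (b (a (l 19108576) (l 1)) (b (a (l 19155272) (l 1)) (b (l 19261264) (b (l 19284560) (l 19300720)))))) (l 1)), by decide +kernel⟩

theorem c_pm_112_a : CertF 536870912 536870912 0 536870912 33554432 16777216 false true false .dn 1 1 2
    ndF1q1 ndF2q2a pcF1 Cut.none Ext.none :=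
  certFK0 (fam := false) (s1 := true) (s2 := false) (a := 1) (b := 1) (c := 2) (cn := .dn) (n1 := ndF1q1) (n2 := ndF2q2a) (pc := pcF1) (cut := Cut.none) (xt := Ext.none) (P1 := 536870912) (W1 := 536870912) (P2 := 0) (W2 := 536870912) (P3 := 33554432) (W3 := 16777216)
    rfl rfl rfl k0_pm_112_a

noncomputable def f_pm_112_b : ℕ → ℕ → ℕ → ℕ → Bool := onCell 536870912 536870912 1239849684 370763052 33554432 16777216
    (rowFK 2 false true false .dn 1 1 2 (qsf 536870912 536870912 1239849684 370763052 1) ndF1q1 ndF2q2b pcF1 Cut.none Ext.none)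

def k0_pm_112_b : ∃ t, chk3 f_pm_112_b t 1 1 1 = true :=
  ⟨(a (a (b (l 19068064) (l 18789432)) (l 19221600)) (a (l 19441344) (l 19621808))), by decide +kernel⟩

theorem c_pm_112_b : CertF 536870912 536870912 1239849684 370763052 33554432 16777216 false true false .dn 1 1 2
    ndF1q1 ndF2q2b pcF1 Cut.none Ext.none :=
  certFK2 (fam := false) (s1 := true) (s2 := false) (a := 1) (b := 1) (c := 2) (cn := .dn) (n1 := ndF1q1) (n2 := ndF2q2b) (pc := pcF1) (cut := Cut.none) (xt := Ext.none) (P1 := 536870912) (W1 := 536870912) (P2 := 1239849684) (W2 := 370763052) (P3 := 33554432) (W3 := 16777216)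
    rfl rfl rfl (fun _ => rfl) k0_pm_112_b

noncomputable def f_pm_113 : ℕ → ℕ → ℕ → ℕ → Bool := onCell 536870912 536870912 536870912 536870912 33554432 16777216
    (rowFK 1 false true false .nn 1 1 3 (qsf 536870912 536870912 1610612736 536870912 1) ndF1q1 ndF2q3 pcF1 Cut.none Ext.none)

def k0_pm_113 : ∃ t, chk3 f_pm_113 t 1 1 1 = true :=
  ⟨(a (b (b (l 1) (l 19175104)) (b (l 19273848) (b (l 19278232) (b (l 19268712) (b (l 19267336) (b (l 19267976) (l 19261808))))))) (b (b (l 255051782711) (l 18789488)) (b (l 18634352) (b (l 18291632) (b (l 18101592) (b (l 17998592) (b (l 17942848) (l 17899288)))))))), by decide +kernel⟩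

theorem c_pm_113 : CertF 536870912 536870912 1610612736 536870912 33554432 16777216 false true false .nn 1 1 3
    ndF1q1 ndF2q3 pcF1 Cut.none Ext.none :=
  certFK1 (fam := false) (s1 := true) (s2 := false) (a := 1) (b := 1) (c := 3) (cn := .nn) (n1 := ndF1q1) (n2 := ndF2q3) (pc := pcF1) (cut := Cut.none) (xt := Ext.none) (P1 := 536870912) (W1 := 536870912) (P2 := 1610612736) (W2 := 536870912) (P3 := 33554432) (W3 := 16777216)
    rfl rfl rfl (fun _ => rfl) k0_pm_113

noncomputable def f_pm_123 : ℕ → ℕ → ℕ → ℕ → Bool := onCell 1073741824 536870912 1610612736 536870912 33554432 16777216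
    (rowFK 2 false true false .npn 1 2 3 (qsf 536870912 536870912 1610612736 536870912 2) ndF1q1 ndF2q3 pcF2 Cut.none Ext.none)

def k0_pm_123 : ∃ t, chk3 f_pm_123 t 1 1 1 = true :=
  ⟨(b (a (a (l 18989856) (l 18351680)) (l 4)) (a (a (a (a (a (a (l 18030144) (l 18025720)) (l 18011904)) (l 17980768)) (l 17906832)) (l 17557568)) (a (l 17295544) (l 17002336)))), by decide +kernel⟩

theorem c_pm_123 : CertF 536870912 536870912 1610612736 536870912 33554432 16777216 false true false .npn 1 2 3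
    ndF1q1 ndF2q3 pcF2 Cut.none Ext.none :=
  certFK2 (fam := false) (s1 := true) (s2 := false) (a := 1) (b := 2) (c := 3) (cn := .npn) (n1 := ndF1q1) (n2 := ndF2q3) (pc := pcF2) (cut := Cut.none) (xt := Ext.none) (P1 := 536870912) (W1 := 536870912) (P2 := 1610612736) (W2 := 536870912) (P3 := 33554432) (W3 := 16777216)
    rfl rfl rfl (fun _ => rfl) k0_pm_123

noncomputable def f_pm_133 : ℕ → ℕ → ℕ → ℕ → Bool := onCell 1610612736 536870912 1610612736 536870912 33554432 16777216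
    (rowFK 2 false true false .dn 1 3 3 (qsf 536870912 536870912 1610612736 536870912 3) ndF1q1 ndF2q3 pcF3 Cut.none Ext.none)

def k0_pm_133 : ∃ t, chk3 f_pm_133 t 1 1 1 = true :=
  ⟨(a (b (l 1) (a (l 393025458743) (l 1))) (l 1)), by decide +kernel⟩

theorem c_pm_133 : CertF 536870912 536870912 1610612736 536870912 33554432 16777216 false true false .dn 1 3 3
    ndF1q1 ndF2q3 pcF3 Cut.none Ext.none :=
  certFK2 (fam := false) (s1 := true) (s2 := false) (a := 1) (b := 3) (c := 3) (cn := .dn) (n1 := ndF1q1) (n2 := ndF2q3) (pc := pcF3) (cut := Cut.none) (xt := Ext.none) (P1 := 536870912) (W1 := 536870912) (P2 := 1610612736) (W2 := 536870912) (P3 := 33554432) (W3 := 16777216)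
    rfl rfl rfl (fun _ => rfl) k0_pm_133

noncomputable def cut_pm_202_aa : Cut := Cut.of [[⟨0, 1, 0, 33554432⟩, ⟨1, 0, 0, 33554432⟩, ⟨2, 1, 0, 33554432⟩], [⟨0, 1, 0, 16777216⟩, ⟨1, 0, 1, 25165824⟩, ⟨2, 1, 1, 25165824⟩, ⟨1, 0, 0, 67108864⟩, ⟨1, 1, 0, 1056964608⟩, ⟨2, 1, 0, 67108864⟩, ⟨2, 2, 0, 1056964608⟩]]

noncomputable def f_pm_202_aa : ℕ → ℕ → ℕ → ℕ → Bool := onCell 0 536870912 0 536870912 33554432 16777216
    (rowFK 0 false true false .pp 2 0 2 (qsf 0 536870912 0 536870912 0) ndF1q2a ndF2q2a pcF0 cut_pm_202_aa Ext.none)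

def k0_pm_202_aa : ∃ t, chk3 f_pm_202_aa t 1 1 1 = true :=
  ⟨(a (l 3) (a (l 3) (a (l 3) (a (l 3) (b (l 64595502871) (a (l 3) (a (l 3) (b (b (l 17989728) (b (l 17887856) (l 111838891383))) (b (a (l 3) (a (l 3) (b (c (l 17649008) (b (l 17474544) (l 123112195783))) (b (c (l 120964862759) (l 14)) (l 14))))) (b (b (l 14) (l 6)) (l 6))))))))))), by decide +kernel⟩

theorem c_pm_202_aa : CertF 0 536870912 0 536870912 33554432 16777216 false true false .pp 2 0 2
    ndF1q2a ndF2q2a pcF0 cut_pm_202_aa Ext.none :=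
  certFK0 (fam := false) (s1 := true) (s2 := false) (a := 2) (b := 0) (c := 2) (cn := .pp) (n1 := ndF1q2a) (n2 := ndF2q2a) (pc := pcF0) (cut := cut_pm_202_aa) (xt := Ext.none) (P1 := 0) (W1 := 536870912) (P2 := 0) (W2 := 536870912) (P3 := 33554432) (W3 := 16777216)
    rfl rfl rfl k0_pm_202_aa

noncomputable def cut_pm_202_ab : Cut := Cut.of [[⟨0, 1, 0, 33554432⟩, ⟨1, 0, 0, 33554432⟩, ⟨2, 1, 0, 33554432⟩], [⟨0, 1, 0, 16777216⟩, ⟨1, 0, 1, 25165824⟩, ⟨2, 1, 1, 25165824⟩, ⟨1, 0, 0, 67108864⟩, ⟨1, 1, 0, 1056964608⟩, ⟨2, 1, 0, 67108864⟩, ⟨2, 2, 0, 1056964608⟩]]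

noncomputable def f_pm_202_ab : ℕ → ℕ → ℕ → ℕ → Bool := onCell 0 536870912 1239849684 370763052 33554432 16777216
    (rowFK 0 false true false .pp 2 0 2 (qsf 0 536870912 1239849684 370763052 0) ndF1q2a ndF2q2b pcF0 cut_pm_202_ab Ext.none)

def k0_pm_202_ab : ∃ t, chk3 f_pm_202_ab t 1 1 1 = true :=
  ⟨(a (l 3) (a (l 3) (a (l 3) (b (a (l 3) (b (l 59226698439) (l 17829664))) (b (l 17651152) (l 17624096)))))), by decide +kernel⟩

theorem c_pm_202_ab : CertF 0 536870912 1239849684 370763052 33554432 16777216 false true false .pp 2 0 2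
    ndF1q2a ndF2q2b pcF0 cut_pm_202_ab Ext.none :=
  certFK0 (fam := false) (s1 := true) (s2 := false) (a := 2) (b := 0) (c := 2) (cn := .pp) (n1 := ndF1q2a) (n2 := ndF2q2b) (pc := pcF0) (cut := cut_pm_202_ab) (xt := Ext.none) (P1 := 0) (W1 := 536870912) (P2 := 1239849684) (W2 := 370763052) (P3 := 33554432) (W3 := 16777216)
    rfl rfl rfl k0_pm_202_ab

noncomputable def cut_pm_202_ba : Cut := Cut.of [[⟨0, 1, 0, 33554432⟩, ⟨1, 0, 0, 33554432⟩, ⟨2, 1, 0, 33554432⟩], [⟨0, 1, 0, 16777216⟩, ⟨1, 0, 1, 25165824⟩, ⟨2, 1, 1, 25165824⟩, ⟨1, 0, 0, 67108864⟩, ⟨1, 1, 0, 1056964608⟩, ⟨2, 1, 0, 67108864⟩, ⟨2, 2, 0, 1056964608⟩]]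

noncomputable def f_pm_202_ba : ℕ → ℕ → ℕ → ℕ → Bool := onCell 1239849684 370763052 0 536870912 33554432 16777216
    (rowFK 0 false true false .pp 2 0 2 (qsf 1239849684 370763052 0 536870912 0) ndF1q2b ndF2q2a pcF0 cut_pm_202_ba Ext.none)

def k0_pm_202_ba : ∃ t, chk3 f_pm_202_ba t 1 1 1 = true :=
  ⟨(l 3), by decide +kernel⟩

theorem c_pm_202_ba : CertF 1239849684 370763052 0 536870912 33554432 16777216 false true false .pp 2 0 2
    ndF1q2b ndF2q2a pcF0 cut_pm_202_ba Ext.none :=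
  certFK0 (fam := false) (s1 := true) (s2 := false) (a := 2) (b := 0) (c := 2) (cn := .pp) (n1 := ndF1q2b) (n2 := ndF2q2a) (pc := pcF0) (cut := cut_pm_202_ba) (xt := Ext.none) (P1 := 1239849684) (W1 := 370763052) (P2 := 0) (W2 := 536870912) (P3 := 33554432) (W3 := 16777216)
    rfl rfl rfl k0_pm_202_ba

noncomputable def cut_pm_202_bb : Cut := Cut.of [[⟨0, 1, 0, 33554432⟩, ⟨1, 0, 0, 33554432⟩, ⟨2, 1, 0, 33554432⟩], [⟨0, 1, 0, 16777216⟩, ⟨1, 0, 1, 25165824⟩, ⟨2, 1, 1, 25165824⟩, ⟨1, 0, 0, 67108864⟩, ⟨1, 1, 0, 1056964608⟩, ⟨2, 1, 0, 67108864⟩, ⟨2, 2, 0, 1056964608⟩]]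

noncomputable def f_pm_202_bb : ℕ → ℕ → ℕ → ℕ → Bool := onCell 1239849684 370763052 1239849684 370763052 33554432 16777216
    (rowFK 0 false true false .pp 2 0 2 (qsf 1239849684 370763052 1239849684 370763052 0) ndF1q2b ndF2q2b pcF0 cut_pm_202_bb Ext.none)

def k0_pm_202_bb : ∃ t, chk3 f_pm_202_bb t 1 1 1 = true :=
  ⟨(l 3), by decide +kernel⟩

theorem c_pm_202_bb : CertF 1239849684 370763052 1239849684 370763052 33554432 16777216 false true false .pp 2 0 2
    ndF1q2b ndF2q2b pcF0 cut_pm_202_bb Ext.none :=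
  certFK0 (fam := false) (s1 := true) (s2 := false) (a := 2) (b := 0) (c := 2) (cn := .pp) (n1 := ndF1q2b) (n2 := ndF2q2b) (pc := pcF0) (cut := cut_pm_202_bb) (xt := Ext.none) (P1 := 1239849684) (W1 := 370763052) (P2 := 1239849684) (W2 := 370763052) (P3 := 33554432) (W3 := 16777216)
    rfl rfl rfl k0_pm_202_bb

noncomputable def f_pm_203_a : ℕ → ℕ → ℕ → ℕ → Bool := onCell 0 536870912 0 536870912 33554432 16777216
    (rowFK 1 false true false .up 2 0 3 (qsf 0 536870912 1610612736 536870912 0) ndF1q2a ndF2q3 pcF0 Cut.none Ext.none)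

def k0_pm_203_a : ∃ t, chk3 f_pm_203_a t 1 1 1 = true :=
  ⟨(a (l 3) (a (l 3) (b (l 1) (a (l 3) (b (l 1) (l 76405370567)))))), by decide +kernel⟩

theorem c_pm_203_a : CertF 0 536870912 1610612736 536870912 33554432 16777216 false true false .up 2 0 3
    ndF1q2a ndF2q3 pcF0 Cut.none Ext.none :=
  certFK1 (fam := false) (s1 := true) (s2 := false) (a := 2) (b := 0) (c := 3) (cn := .up) (n1 := ndF1q2a) (n2 := ndF2q3) (pc := pcF0) (cut := Cut.none) (xt := Ext.none) (P1 := 0) (W1 := 536870912) (P2 := 1610612736) (W2 := 536870912) (P3 := 33554432) (W3 := 16777216)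
    rfl rfl rfl (fun _ => rfl) k0_pm_203_a

noncomputable def f_pm_203_b : ℕ → ℕ → ℕ → ℕ → Bool := onCell 1239849684 370763052 1610612736 536870912 33554432 16777216
    (rowFK 0 false true false .up 2 0 3 (qsf 1239849684 370763052 1610612736 536870912 0) ndF1q2b ndF2q3 pcF0 Cut.none Ext.none)

def k0_pm_203_b : ∃ t, chk3 f_pm_203_b t 1 1 1 = true :=
  ⟨(l 3), by decide +kernel⟩

theorem c_pm_203_b : CertF 1239849684 370763052 1610612736 536870912 33554432 16777216 false true false .up 2 0 3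
    ndF1q2b ndF2q3 pcF0 Cut.none Ext.none :=
  certFK0 (fam := false) (s1 := true) (s2 := false) (a := 2) (b := 0) (c := 3) (cn := .up) (n1 := ndF1q2b) (n2 := ndF2q3) (pc := pcF0) (cut := Cut.none) (xt := Ext.none) (P1 := 1239849684) (W1 := 370763052) (P2 := 1610612736) (W2 := 536870912) (P3 := 33554432) (W3 := 16777216)
    rfl rfl rfl k0_pm_203_b

noncomputable def cut_pm_213_a : Cut := Cut.of [[⟨0, 1, 0, 7061502⟩, ⟨1, 1, 0, 7061502⟩, ⟨2, 2, 0, 184626⟩]]

noncomputable def f_pm_213_a : ℕ → ℕ → ℕ → ℕ → Bool := onCell 0 536870912 1610612736 536870912 33554432 16777216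
    (rowFK 0 false true false .pnn 2 1 3 (qsf 0 536870912 1610612736 536870912 1) ndF1q2a ndF2q3 pcF1 cut_pm_213_a Ext.none)

def k0_pm_213_a : ∃ t, chk3 f_pm_213_a t 1 1 1 = true :=
  ⟨(a (l 3) (a (b (l 3) (l 3)) (a (b (l 3) (l 3)) (b (b (b (l 122039041591) (l 17416920)) (b (l 17600896) (l 137608325591))) (a (b (l 3) (l 3)) (b (b (l 17290448) (l 17403968)) (a (l 3) (b (b (l 17162360) (l 17117456)) (b (l 177335731623) (b (l 175188012503) (a (l 3) (b (l 176798462663) (a (l 3) (a (l 3) (b (l 177335247751) (a (l 3) (b (l 182703941415) (b (l 179482675543) (b (l 179482686759) (b (l 178945800423) (b (a (l 3) (l 179482664071)) (l 6)))))))))))))))))))))), by decide +kernel⟩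

theorem c_pm_213_a : CertF 0 536870912 1610612736 536870912 33554432 16777216 false true false .pnn 2 1 3
    ndF1q2a ndF2q3 pcF1 cut_pm_213_a Ext.none :=
  certFK0 (fam := false) (s1 := true) (s2 := false) (a := 2) (b := 1) (c := 3) (cn := .pnn) (n1 := ndF1q2a) (n2 := ndF2q3) (pc := pcF1) (cut := cut_pm_213_a) (xt := Ext.none) (P1 := 0) (W1 := 536870912) (P2 := 1610612736) (W2 := 536870912) (P3 := 33554432) (W3 := 16777216)
    rfl rfl rfl k0_pm_213_a

noncomputable def cut_pm_213_b : Cut := Cut.of [[⟨0, 1, 0, 7061502⟩, ⟨1, 1, 0, 7061502⟩, ⟨2, 2, 0, 184626⟩]]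

noncomputable def f_pm_213_b : ℕ → ℕ → ℕ → ℕ → Bool := onCell 1239849684 370763052 1610612736 536870912 33554432 16777216
    (rowFK 0 false true false .pnn 2 1 3 (qsf 1239849684 370763052 1610612736 536870912 1) ndF1q2b ndF2q3 pcF1 cut_pm_213_b Ext.none)

def k0_pm_213_b : ∃ t, chk3 f_pm_213_b t 1 1 1 = true :=
  ⟨(l 3), by decide +kernel⟩

theorem c_pm_213_b : CertF 1239849684 370763052 1610612736 536870912 33554432 16777216 false true false .pnn 2 1 3
    ndF1q2b ndF2q3 pcF1 cut_pm_213_b Ext.none :=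
  certFK0 (fam := false) (s1 := true) (s2 := false) (a := 2) (b := 1) (c := 3) (cn := .pnn) (n1 := ndF1q2b) (n2 := ndF2q3) (pc := pcF1) (cut := cut_pm_213_b) (xt := Ext.none) (P1 := 1239849684) (W1 := 370763052) (P2 := 1610612736) (W2 := 536870912) (P3 := 33554432) (W3 := 16777216)
    rfl rfl rfl k0_pm_213_b

noncomputable def f_pm_303 : ℕ → ℕ → ℕ → ℕ → Bool := onCell 1610612736 536870912 1610612736 536870912 33554432 16777216
    (rowFK 0 false true false .npn 3 0 3 (qsf 1610612736 536870912 1610612736 536870912 0) ndF1q3 ndF2q3 pcF0 Cut.none Ext.none)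

def k0_pm_303 : ∃ t, chk3 f_pm_303 t 1 1 1 = true :=
  ⟨(l 3), by decide +kernel⟩

theorem c_pm_303 : CertF 1610612736 536870912 1610612736 536870912 33554432 16777216 false true false .npn 3 0 3
    ndF1q3 ndF2q3 pcF0 Cut.none Ext.none :=
  certFK0 (fam := false) (s1 := true) (s2 := false) (a := 3) (b := 0) (c := 3) (cn := .npn) (n1 := ndF1q3) (n2 := ndF2q3) (pc := pcF0) (cut := Cut.none) (xt := Ext.none) (P1 := 1610612736) (W1 := 536870912) (P2 := 1610612736) (W2 := 536870912) (P3 := 33554432) (W3 := 16777216)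
    rfl rfl rfl k0_pm_303

noncomputable def f_pm_313 : ℕ → ℕ → ℕ → ℕ → Bool := onCell 1610612736 536870912 1610612736 536870912 33554432 16777216
    (rowFK 0 false true false .dn 3 1 3 (qsf 1610612736 536870912 1610612736 536870912 1) ndF1q3 ndF2q3 pcF1 Cut.none Ext.none)

def k0_pm_313 : ∃ t, chk3 f_pm_313 t 1 1 1 = true :=
  ⟨(l 3), by decide +kernel⟩

theorem c_pm_313 : CertF 1610612736 536870912 1610612736 536870912 33554432 16777216 false true false .dn 3 1 3
    ndF1q3 ndF2q3 pcF1 Cut.none Ext.none :=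
  certFK0 (fam := false) (s1 := true) (s2 := false) (a := 3) (b := 1) (c := 3) (cn := .dn) (n1 := ndF1q3) (n2 := ndF2q3) (pc := pcF1) (cut := Cut.none) (xt := Ext.none) (P1 := 1610612736) (W1 := 536870912) (P2 := 1610612736) (W2 := 536870912) (P3 := 33554432) (W3 := 16777216)
    rfl rfl rfl k0_pm_313

noncomputable def f_mm_001 : ℕ → ℕ → ℕ → ℕ → Bool := onCell 0 536870912 0 536870912 33554432 16777216
    (rowFK 1 false false false .up 0 0 1 (qsf 0 536870912 536870912 536870912 0) ndF1q0 ndF2q1 pcF0 Cut.none Ext.none)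

def k0_mm_001 : ∃ t, chk3 f_mm_001 t 1 1 1 = true :=
  ⟨(l 3), by decide +kernel⟩

theorem c_mm_001 : CertF 0 536870912 536870912 536870912 33554432 16777216 false false false .up 0 0 1
    ndF1q0 ndF2q1 pcF0 Cut.none Ext.none :=
  certFK1 (fam := false) (s1 := false) (s2 := false) (a := 0) (b := 0) (c := 1) (cn := .up) (n1 := ndF1q0) (n2 := ndF2q1) (pc := pcF0) (cut := Cut.none) (xt := Ext.none) (P1 := 0) (W1 := 536870912) (P2 := 536870912) (W2 := 536870912) (P3 := 33554432) (W3 := 16777216)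
    rfl rfl rfl (fun _ => rfl) k0_mm_001

noncomputable def f_mm_011 : ℕ → ℕ → ℕ → ℕ → Bool := onCell 0 536870912 536870912 536870912 33554432 16777216
    (rowFK 1 false false false .pnn 0 1 1 (qsf 0 536870912 536870912 536870912 1) ndF1q0 ndF2q1 pcF1 Cut.none Ext.none)

def k0_mm_011 : ∃ t, chk3 f_mm_011 t 1 1 1 = true :=
  ⟨(l 5), by decide +kernel⟩

theorem c_mm_011 : CertF 0 536870912 536870912 536870912 33554432 16777216 false false false .pnn 0 1 1
    ndF1q0 ndF2q1 pcF1 Cut.none Ext.none :=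
  certFK1 (fam := false) (s1 := false) (s2 := false) (a := 0) (b := 1) (c := 1) (cn := .pnn) (n1 := ndF1q0) (n2 := ndF2q1) (pc := pcF1) (cut := Cut.none) (xt := Ext.none) (P1 := 0) (W1 := 536870912) (P2 := 536870912) (W2 := 536870912) (P3 := 33554432) (W3 := 16777216)
    rfl rfl rfl (fun _ => rfl) k0_mm_011

noncomputable def f_mm_012_a : ℕ → ℕ → ℕ → ℕ → Bool := onCell 0 536870912 0 536870912 33554432 16777216
    (rowFK 0 false false false .pnp 0 1 2 (qsf 0 536870912 0 536870912 1) ndF1q0 ndF2q2a pcF1 Cut.none Ext.none)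

def k0_mm_012_a : ∃ t, chk3 f_mm_012_a t 1 1 1 = true :=
  ⟨(l 5), by decide +kernel⟩

theorem c_mm_012_a : CertF 0 536870912 0 536870912 33554432 16777216 false false false .pnp 0 1 2
    ndF1q0 ndF2q2a pcF1 Cut.none Ext.none :=
  certFK0 (fam := false) (s1 := false) (s2 := false) (a := 0) (b := 1) (c := 2) (cn := .pnp) (n1 := ndF1q0) (n2 := ndF2q2a) (pc := pcF1) (cut := Cut.none) (xt := Ext.none) (P1 := 0) (W1 := 536870912) (P2 := 0) (W2 := 536870912) (P3 := 33554432) (W3 := 16777216)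
    rfl rfl rfl k0_mm_012_a

noncomputable def f_mm_012_b : ℕ → ℕ → ℕ → ℕ → Bool := onCell 0 536870912 1239849684 370763052 33554432 16777216
    (rowFK 0 false false false .pnp 0 1 2 (qsf 0 536870912 1239849684 370763052 1) ndF1q0 ndF2q2b pcF1 Cut.none Ext.none)

def k0_mm_012_b : ∃ t, chk3 f_mm_012_b t 1 1 1 = true :=
  ⟨(l 5), by decide +kernel⟩

theorem c_mm_012_b : CertF 0 536870912 1239849684 370763052 33554432 16777216 false false false .pnp 0 1 2
    ndF1q0 ndF2q2b pcF1 Cut.none Ext.none :=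
  certFK0 (fam := false) (s1 := false) (s2 := false) (a := 0) (b := 1) (c := 2) (cn := .pnp) (n1 := ndF1q0) (n2 := ndF2q2b) (pc := pcF1) (cut := Cut.none) (xt := Ext.none) (P1 := 0) (W1 := 536870912) (P2 := 1239849684) (W2 := 370763052) (P3 := 33554432) (W3 := 16777216)
    rfl rfl rfl k0_mm_012_b

noncomputable def f_mm_022_a : ℕ → ℕ → ℕ → ℕ → Bool := onCell 0 536870912 0 536870912 33554432 16777216
    (rowFK 0 false false false .pp 0 2 2 (qsf 0 536870912 0 536870912 2) ndF1q0 ndF2q2a pcF2 Cut.none Ext.none)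

def k0_mm_022_a : ∃ t, chk3 f_mm_022_a t 1 1 1 = true :=
  ⟨(l 5), by decide +kernel⟩

theorem c_mm_022_a : CertF 0 536870912 0 536870912 33554432 16777216 false false false .pp 0 2 2
    ndF1q0 ndF2q2a pcF2 Cut.none Ext.none :=
  certFK0 (fam := false) (s1 := false) (s2 := false) (a := 0) (b := 2) (c := 2) (cn := .pp) (n1 := ndF1q0) (n2 := ndF2q2a) (pc := pcF2) (cut := Cut.none) (xt := Ext.none) (P1 := 0) (W1 := 536870912) (P2 := 0) (W2 := 536870912) (P3 := 33554432) (W3 := 16777216)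
    rfl rfl rfl k0_mm_022_a

noncomputable def f_mm_022_b : ℕ → ℕ → ℕ → ℕ → Bool := onCell 0 536870912 1239849684 370763052 33554432 16777216
    (rowFK 0 false false false .pp 0 2 2 (qsf 0 536870912 1239849684 370763052 2) ndF1q0 ndF2q2b pcF2 Cut.none Ext.none)

def k0_mm_022_b : ∃ t, chk3 f_mm_022_b t 1 1 1 = true :=
  ⟨(l 5), by decide +kernel⟩

theorem c_mm_022_b : CertF 0 536870912 1239849684 370763052 33554432 16777216 false false false .pp 0 2 2
    ndF1q0 ndF2q2b pcF2 Cut.none Ext.none :=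
  certFK0 (fam := false) (s1 := false) (s2 := false) (a := 0) (b := 2) (c := 2) (cn := .pp) (n1 := ndF1q0) (n2 := ndF2q2b) (pc := pcF2) (cut := Cut.none) (xt := Ext.none) (P1 := 0) (W1 := 536870912) (P2 := 1239849684) (W2 := 370763052) (P3 := 33554432) (W3 := 16777216)
    rfl rfl rfl k0_mm_022_b

noncomputable def f_mm_023 : ℕ → ℕ → ℕ → ℕ → Bool := onCell 0 536870912 1610612736 536870912 33554432 16777216
    (rowFK 0 false false false .up 0 2 3 (qsf 0 536870912 1610612736 536870912 2) ndF1q0 ndF2q3 pcF2 Cut.none Ext.none)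

def k0_mm_023 : ∃ t, chk3 f_mm_023 t 1 1 1 = true :=
  ⟨(l 5), by decide +kernel⟩

theorem c_mm_023 : CertF 0 536870912 1610612736 536870912 33554432 16777216 false false false .up 0 2 3
    ndF1q0 ndF2q3 pcF2 Cut.none Ext.none :=
  certFK0 (fam := false) (s1 := false) (s2 := false) (a := 0) (b := 2) (c := 3) (cn := .up) (n1 := ndF1q0) (n2 := ndF2q3) (pc := pcF2) (cut := Cut.none) (xt := Ext.none) (P1 := 0) (W1 := 536870912) (P2 := 1610612736) (W2 := 536870912) (P3 := 33554432) (W3 := 16777216)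
    rfl rfl rfl k0_mm_023

noncomputable def f_mm_033 : ℕ → ℕ → ℕ → ℕ → Bool := onCell 0 536870912 1610612736 536870912 33554432 16777216
    (rowFK 0 false false false .pnn 0 3 3 (qsf 0 536870912 1610612736 536870912 3) ndF1q0 ndF2q3 pcF3 Cut.none Ext.none)

def k0_mm_033 : ∃ t, chk3 f_mm_033 t 1 1 1 = true :=
  ⟨(l 5), by decide +kernel⟩

theorem c_mm_033 : CertF 0 536870912 1610612736 536870912 33554432 16777216 false false false .pnn 0 3 3
    ndF1q0 ndF2q3 pcF3 Cut.none Ext.none :=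
  certFK0 (fam := false) (s1 := false) (s2 := false) (a := 0) (b := 3) (c := 3) (cn := .pnn) (n1 := ndF1q0) (n2 := ndF2q3) (pc := pcF3) (cut := Cut.none) (xt := Ext.none) (P1 := 0) (W1 := 536870912) (P2 := 1610612736) (W2 := 536870912) (P3 := 33554432) (W3 := 16777216)
    rfl rfl rfl k0_mm_033

noncomputable def f_mm_101 : ℕ → ℕ → ℕ → ℕ → Bool := onCell 536870912 536870912 536870912 536870912 33554432 16777216
    (rowFK 0 false false false .npn 1 0 1 (qsf 536870912 536870912 536870912 536870912 0) ndF1q1 ndF2q1 pcF0 Cut.none Ext.none)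

def k0_mm_101 : ∃ t, chk3 f_mm_101 t 1 1 1 = true :=
  ⟨(l 3), by decide +kernel⟩

theorem c_mm_101 : CertF 536870912 536870912 536870912 536870912 33554432 16777216 false false false .npn 1 0 1
    ndF1q1 ndF2q1 pcF0 Cut.none Ext.none :=
  certFK0 (fam := false) (s1 := false) (s2 := false) (a := 1) (b := 0) (c := 1) (cn := .npn) (n1 := ndF1q1) (n2 := ndF2q1) (pc := pcF0) (cut := Cut.none) (xt := Ext.none) (P1 := 536870912) (W1 := 536870912) (P2 := 536870912) (W2 := 536870912) (P3 := 33554432) (W3 := 16777216)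
    rfl rfl rfl k0_mm_101

noncomputable def f_mm_102_a : ℕ → ℕ → ℕ → ℕ → Bool := onCell 536870912 536870912 0 536870912 33554432 16777216
    (rowFK 0 false false false .npp 1 0 2 (qsf 536870912 536870912 0 536870912 0) ndF1q1 ndF2q2a pcF0 Cut.none Ext.none)

def k0_mm_102_a : ∃ t, chk3 f_mm_102_a t 1 1 1 = true :=
  ⟨(l 3), by decide +kernel⟩

theorem c_mm_102_a : CertF 536870912 536870912 0 536870912 33554432 16777216 false false false .npp 1 0 2
    ndF1q1 ndF2q2a pcF0 Cut.none Ext.none :=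
  certFK0 (fam := false) (s1 := false) (s2 := false) (a := 1) (b := 0) (c := 2) (cn := .npp) (n1 := ndF1q1) (n2 := ndF2q2a) (pc := pcF0) (cut := Cut.none) (xt := Ext.none) (P1 := 536870912) (W1 := 536870912) (P2 := 0) (W2 := 536870912) (P3 := 33554432) (W3 := 16777216)
    rfl rfl rfl k0_mm_102_a

noncomputable def f_mm_102_b : ℕ → ℕ → ℕ → ℕ → Bool := onCell 536870912 536870912 1239849684 370763052 33554432 16777216
    (rowFK 0 false false false .npp 1 0 2 (qsf 536870912 536870912 1239849684 370763052 0) ndF1q1 ndF2q2b pcF0 Cut.none Ext.none)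

def k0_mm_102_b : ∃ t, chk3 f_mm_102_b t 1 1 1 = true :=
  ⟨(l 5), by decide +kernel⟩

theorem c_mm_102_b : CertF 536870912 536870912 1239849684 370763052 33554432 16777216 false false false .npp 1 0 2
    ndF1q1 ndF2q2b pcF0 Cut.none Ext.none :=
  certFK0 (fam := false) (s1 := false) (s2 := false) (a := 1) (b := 0) (c := 2) (cn := .npp) (n1 := ndF1q1) (n2 := ndF2q2b) (pc := pcF0) (cut := Cut.none) (xt := Ext.none) (P1 := 536870912) (W1 := 536870912) (P2 := 1239849684) (W2 := 370763052) (P3 := 33554432) (W3 := 16777216)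
    rfl rfl rfl k0_mm_102_b

noncomputable def f_mm_112_a : ℕ → ℕ → ℕ → ℕ → Bool := onCell 536870912 536870912 0 536870912 33554432 16777216
    (rowFK 0 false false false .dn 1 1 2 (qsf 536870912 536870912 0 536870912 1) ndF1q1 ndF2q2a pcF1 Cut.none Ext.none)

def k0_mm_112_a : ∃ t, chk3 f_mm_112_a t 1 1 1 = true :=
  ⟨(l 3), by decide +kernel⟩

theorem c_mm_112_a : CertF 536870912 536870912 0 536870912 33554432 16777216 false false false .dn 1 1 2
    ndF1q1 ndF2q2a pcF1 Cut.none Ext.none :=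
  certFK0 (fam := false) (s1 := false) (s2 := false) (a := 1) (b := 1) (c := 2) (cn := .dn) (n1 := ndF1q1) (n2 := ndF2q2a) (pc := pcF1) (cut := Cut.none) (xt := Ext.none) (P1 := 536870912) (W1 := 536870912) (P2 := 0) (W2 := 536870912) (P3 := 33554432) (W3 := 16777216)
    rfl rfl rfl k0_mm_112_a

noncomputable def f_mm_112_b : ℕ → ℕ → ℕ → ℕ → Bool := onCell 536870912 536870912 1239849684 370763052 33554432 16777216
    (rowFK 0 false false false .dn 1 1 2 (qsf 536870912 536870912 1239849684 370763052 1) ndF1q1 ndF2q2b pcF1 Cut.none Ext.none)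

def k0_mm_112_b : ∃ t, chk3 f_mm_112_b t 1 1 1 = true :=
  ⟨(l 5), by decide +kernel⟩

theorem c_mm_112_b : CertF 536870912 536870912 1239849684 370763052 33554432 16777216 false false false .dn 1 1 2
    ndF1q1 ndF2q2b pcF1 Cut.none Ext.none :=
  certFK0 (fam := false) (s1 := false) (s2 := false) (a := 1) (b := 1) (c := 2) (cn := .dn) (n1 := ndF1q1) (n2 := ndF2q2b) (pc := pcF1) (cut := Cut.none) (xt := Ext.none) (P1 := 536870912) (W1 := 536870912) (P2 := 1239849684) (W2 := 370763052) (P3 := 33554432) (W3 := 16777216)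
    rfl rfl rfl k0_mm_112_b

noncomputable def f_mm_113 : ℕ → ℕ → ℕ → ℕ → Bool := onCell 536870912 536870912 1610612736 536870912 33554432 16777216
    (rowFK 0 false false false .nn 1 1 3 (qsf 536870912 536870912 1610612736 536870912 1) ndF1q1 ndF2q3 pcF1 Cut.none Ext.none)

def k0_mm_113 : ∃ t, chk3 f_mm_113 t 1 1 1 = true :=
  ⟨(l 5), by decide +kernel⟩

theorem c_mm_113 : CertF 536870912 536870912 1610612736 536870912 33554432 16777216 false false false .nn 1 1 3
    ndF1q1 ndF2q3 pcF1 Cut.none Ext.none :=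
  certFK0 (fam := false) (s1 := false) (s2 := false) (a := 1) (b := 1) (c := 3) (cn := .nn) (n1 := ndF1q1) (n2 := ndF2q3) (pc := pcF1) (cut := Cut.none) (xt := Ext.none) (P1 := 536870912) (W1 := 536870912) (P2 := 1610612736) (W2 := 536870912) (P3 := 33554432) (W3 := 16777216)
    rfl rfl rfl k0_mm_113

noncomputable def f_mm_123 : ℕ → ℕ → ℕ → ℕ → Bool := onCell 536870912 536870912 1610612736 536870912 33554432 16777216
    (rowFK 0 false false false .npn 1 2 3 (qsf 536870912 536870912 1610612736 536870912 2) ndF1q1 ndF2q3 pcF2 Cut.none Ext.none)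

def k0_mm_123 : ∃ t, chk3 f_mm_123 t 1 1 1 = true :=
  ⟨(l 5), by decide +kernel⟩

theorem c_mm_123 : CertF 536870912 536870912 1610612736 536870912 33554432 16777216 false false false .npn 1 2 3
    ndF1q1 ndF2q3 pcF2 Cut.none Ext.none :=
  certFK0 (fam := false) (s1 := false) (s2 := false) (a := 1) (b := 2) (c := 3) (cn := .npn) (n1 := ndF1q1) (n2 := ndF2q3) (pc := pcF2) (cut := Cut.none) (xt := Ext.none) (P1 := 536870912) (W1 := 536870912) (P2 := 1610612736) (W2 := 536870912) (P3 := 33554432) (W3 := 16777216)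
    rfl rfl rfl k0_mm_123

noncomputable def f_mm_133 : ℕ → ℕ → ℕ → ℕ → Bool := onCell 536870912 536870912 1610612736 536870912 33554432 16777216
    (rowFK 0 false false false .dn 1 3 3 (qsf 536870912 536870912 1610612736 536870912 3) ndF1q1 ndF2q3 pcF3 Cut.none Ext.none)

def k0_mm_133 : ∃ t, chk3 f_mm_133 t 1 1 1 = true :=
  ⟨(l 5), by decide +kernel⟩

theorem c_mm_133 : CertF 536870912 536870912 1610612736 536870912 33554432 16777216 false false false .dn 1 3 3
    ndF1q1 ndF2q3 pcF3 Cut.none Ext.none :=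
  certFK0 (fam := false) (s1 := false) (s2 := false) (a := 1) (b := 3) (c := 3) (cn := .dn) (n1 := ndF1q1) (n2 := ndF2q3) (pc := pcF3) (cut := Cut.none) (xt := Ext.none) (P1 := 536870912) (W1 := 536870912) (P2 := 1610612736) (W2 := 536870912) (P3 := 33554432) (W3 := 16777216)
    rfl rfl rfl k0_mm_133

noncomputable def f_mm_202_aa : ℕ → ℕ → ℕ → ℕ → Bool := onCell 0 536870912 0 536870912 33554432 16777216
    (rowFK 0 false false false .pp 2 0 2 (qsf 0 536870912 0 536870912 0) ndF1q2a ndF2q2a pcF0 Cut.none Ext.none)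

def k0_mm_202_aa : ∃ t, chk3 f_mm_202_aa t 1 1 1 = true :=
  ⟨(l 3), by decide +kernel⟩

theorem c_mm_202_aa : CertF 0 536870912 0 536870912 33554432 16777216 false false false .pp 2 0 2
    ndF1q2a ndF2q2a pcF0 Cut.none Ext.none :=
  certFK0 (fam := false) (s1 := false) (s2 := false) (a := 2) (b := 0) (c := 2) (cn := .pp) (n1 := ndF1q2a) (n2 := ndF2q2a) (pc := pcF0) (cut := Cut.none) (xt := Ext.none) (P1 := 0) (W1 := 536870912) (P2 := 0) (W2 := 536870912) (P3 := 33554432) (W3 := 16777216)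
    rfl rfl rfl k0_mm_202_aa

noncomputable def f_mm_202_ab : ℕ → ℕ → ℕ → ℕ → Bool := onCell 0 536870912 1239849684 370763052 33554432 16777216
    (rowFK 0 false false false .pp 2 0 2 (qsf 0 536870912 1239849684 370763052 0) ndF1q2a ndF2q2b pcF0 Cut.none Ext.none)

def k0_mm_202_ab : ∃ t, chk3 f_mm_202_ab t 1 1 1 = true :=
  ⟨(l 3), by decide +kernel⟩

theorem c_mm_202_ab : CertF 0 536870912 1239849684 370763052 33554432 16777216 false false false .pp 2 0 2
    ndF1q2a ndF2q2b pcF0 Cut.none Ext.none :=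
  certFK0 (fam := false) (s1 := false) (s2 := false) (a := 2) (b := 0) (c := 2) (cn := .pp) (n1 := ndF1q2a) (n2 := ndF2q2b) (pc := pcF0) (cut := Cut.none) (xt := Ext.none) (P1 := 0) (W1 := 536870912) (P2 := 1239849684) (W2 := 370763052) (P3 := 33554432) (W3 := 16777216)
    rfl rfl rfl k0_mm_202_ab

noncomputable def f_mm_202_ba : ℕ → ℕ → ℕ → ℕ → Bool := onCell 1239849684 370763052 0 536870912 33554432 16777216
    (rowFK 0 false false false .pp 2 0 2 (qsf 1239849684 370763052 0 536870912 0) ndF1q2b ndF2q2a pcF0 Cut.none Ext.none)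

def k0_mm_202_ba : ∃ t, chk3 f_mm_202_ba t 1 1 1 = true :=
  ⟨(l 3), by decide +kernel⟩

theorem c_mm_202_ba : CertF 1239849684 370763052 0 536870912 33554432 16777216 false false false .pp 2 0 2
    ndF1q2b ndF2q2a pcF0 Cut.none Ext.none :=
  certFK0 (fam := false) (s1 := false) (s2 := false) (a := 2) (b := 0) (c := 2) (cn := .pp) (n1 := ndF1q2b) (n2 := ndF2q2a) (pc := pcF0) (cut := Cut.none) (xt := Ext.none) (P1 := 1239849684) (W1 := 370763052) (P2 := 0) (W2 := 536870912) (P3 := 33554432) (W3 := 16777216)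
    rfl rfl rfl k0_mm_202_ba

noncomputable def f_mm_202_bb : ℕ → ℕ → ℕ → ℕ → Bool := onCell 1239849684 370763052 1239849684 370763052 33554432 16777216
    (rowFK 0 false false false .pp 2 0 2 (qsf 1239849684 370763052 1239849684 370763052 0) ndF1q2b ndF2q2b pcF0 Cut.none Ext.none)

def k0_mm_202_bb : ∃ t, chk3 f_mm_202_bb t 1 1 1 = true :=
  ⟨(l 3), by decide +kernel⟩

theorem c_mm_202_bb : CertF 1239849684 370763052 1239849684 370763052 33554432 16777216 false false false .pp 2 0 2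
    ndF1q2b ndF2q2b pcF0 Cut.none Ext.none :=
  certFK0 (fam := false) (s1 := false) (s2 := false) (a := 2) (b := 0) (c := 2) (cn := .pp) (n1 := ndF1q2b) (n2 := ndF2q2b) (pc := pcF0) (cut := Cut.none) (xt := Ext.none) (P1 := 1239849684) (W1 := 370763052) (P2 := 1239849684) (W2 := 370763052) (P3 := 33554432) (W3 := 16777216)
    rfl rfl rfl k0_mm_202_bb

noncomputable def f_mm_203_a : ℕ → ℕ → ℕ → ℕ → Bool := onCell 0 536870912 0 536870912 33554432 16777216
    (rowFK 1 false false false .up 2 0 3 (qsf 0 536870912 1610612736 536870912 0) ndF1q2a ndF2q3 pcF0 Cut.none Ext.none)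

def k0_mm_203_a : ∃ t, chk3 f_mm_203_a t 1 1 1 = true :=
  ⟨(l 3), by decide +kernel⟩

theorem c_mm_203_a : CertF 0 536870912 1610612736 536870912 33554432 16777216 false false false .up 2 0 3
    ndF1q2a ndF2q3 pcF0 Cut.none Ext.none :=
  certFK1 (fam := false) (s1 := false) (s2 := false) (a := 2) (b := 0) (c := 3) (cn := .up) (n1 := ndF1q2a) (n2 := ndF2q3) (pc := pcF0) (cut := Cut.none) (xt := Ext.none) (P1 := 0) (W1 := 536870912) (P2 := 1610612736) (W2 := 536870912) (P3 := 33554432) (W3 := 16777216)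
    rfl rfl rfl (fun _ => rfl) k0_mm_203_a

noncomputable def f_mm_203_b : ℕ → ℕ → ℕ → ℕ → Bool := onCell 1239849684 370763052 1610612736 536870912 33554432 16777216
    (rowFK 0 false false false .up 2 0 3 (qsf 1239849684 370763052 1610612736 536870912 0) ndF1q2b ndF2q3 pcF0 Cut.none Ext.none)

def k0_mm_203_b : ∃ t, chk3 f_mm_203_b t 1 1 1 = true :=
  ⟨(l 3), by decide +kernel⟩

theorem c_mm_203_b : CertF 1239849684 370763052 1610612736 536870912 33554432 16777216 false false false .up 2 0 3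
    ndF1q2b ndF2q3 pcF0 Cut.none Ext.none :=
  certFK0 (fam := false) (s1 := false) (s2 := false) (a := 2) (b := 0) (c := 3) (cn := .up) (n1 := ndF1q2b) (n2 := ndF2q3) (pc := pcF0) (cut := Cut.none) (xt := Ext.none) (P1 := 1239849684) (W1 := 370763052) (P2 := 1610612736) (W2 := 536870912) (P3 := 33554432) (W3 := 16777216)
    rfl rfl rfl k0_mm_203_b

noncomputable def f_mm_213_a : ℕ → ℕ → ℕ → ℕ → Bool := onCell 0 536870912 1610612736 536870912 33554432 16777216
    (rowFK 0 false false false .pnn 2 1 3 (qsf 0 536870912 1610612736 536870912 1) ndF1q2a ndF2q3 pcF1 Cut.none Ext.none)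

def k0_mm_213_a : ∃ t, chk3 f_mm_213_a t 1 1 1 = true :=
  ⟨(b (l 3) (l 5)), by decide +kernel⟩

theorem c_mm_213_a : CertF 0 536870912 1610612736 536870912 33554432 16777216 false false false .pnn 2 1 3
    ndF1q2a ndF2q3 pcF1 Cut.none Ext.none :=
  certFK0 (fam := false) (s1 := false) (s2 := false) (a := 2) (b := 1) (c := 3) (cn := .pnn) (n1 := ndF1q2a) (n2 := ndF2q3) (pc := pcF1) (cut := Cut.none) (xt := Ext.none) (P1 := 0) (W1 := 536870912) (P2 := 1610612736) (W2 := 536870912) (P3 := 33554432) (W3 := 16777216)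
    rfl rfl rfl k0_mm_213_a

noncomputable def f_mm_213_b : ℕ → ℕ → ℕ → ℕ → Bool := onCell 1239849684 370763052 1610612736 536870912 33554432 16777216
    (rowFK 0 false false false .pnn 2 1 3 (qsf 1239849684 370763052 1610612736 536870912 1) ndF1q2b ndF2q3 pcF1 Cut.none Ext.none)

def k0_mm_213_b : ∃ t, chk3 f_mm_213_b t 1 1 1 = true :=
  ⟨(l 3), by decide +kernel⟩

theorem c_mm_213_b : CertF 1239849684 370763052 1610612736 536870912 33554432 16777216 false false false .pnn 2 1 3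
    ndF1q2b ndF2q3 pcF1 Cut.none Ext.none :=
  certFK0 (fam := false) (s1 := false) (s2 := false) (a := 2) (b := 1) (c := 3) (cn := .pnn) (n1 := ndF1q2b) (n2 := ndF2q3) (pc := pcF1) (cut := Cut.none) (xt := Ext.none) (P1 := 1239849684) (W1 := 370763052) (P2 := 1610612736) (W2 := 536870912) (P3 := 33554432) (W3 := 16777216)
    rfl rfl rfl k0_mm_213_b

noncomputable def f_mm_303 : ℕ → ℕ → ℕ → ℕ → Bool := onCell 1610612736 536870912 1610612736 536870912 33554432 16777216
    (rowFK 0 false false false .npn 3 0 3 (qsf 1610612736 536870912 1610612736 536870912 0) ndF1q3 ndF2q3 pcF0 Cut.none Ext.none)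

def k0_mm_303 : ∃ t, chk3 f_mm_303 t 1 1 1 = true :=
  ⟨(l 3), by decide +kernel⟩

theorem c_mm_303 : CertF 1610612736 536870912 1610612736 536870912 33554432 16777216 false false false .npn 3 0 3
    ndF1q3 ndF2q3 pcF0 Cut.none Ext.none :=
  certFK0 (fam := false) (s1 := false) (s2 := false) (a := 3) (b := 0) (c := 3) (cn := .npn) (n1 := ndF1q3) (n2 := ndF2q3) (pc := pcF0) (cut := Cut.none) (xt := Ext.none) (P1 := 1610612736) (W1 := 536870912) (P2 := 1610612736) (W2 := 536870912) (P3 := 33554432) (W3 := 16777216)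
    rfl rfl rfl k0_mm_303

noncomputable def f_mm_313 : ℕ → ℕ → ℕ → ℕ → Bool := onCell 1610612736 536870912 1610612736 536870912 33554432 16777216
    (rowFK 0 false false false .dn 3 1 3 (qsf 1610612736 536870912 1610612736 536870912 1) ndF1q3 ndF2q3 pcF1 Cut.none Ext.none)

def k0_mm_313 : ∃ t, chk3 f_mm_313 t 1 1 1 = true :=
  ⟨(l 3), by decide +kernel⟩

theorem c_mm_313 : CertF 1610612736 536870912 1610612736 536870912 33554432 16777216 false false false .dn 3 1 3
    ndF1q3 ndF2q3 pcF1 Cut.none Ext.none :=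
  certFK0 (fam := false) (s1 := false) (s2 := false) (a := 3) (b := 1) (c := 3) (cn := .dn) (n1 := ndF1q3) (n2 := ndF2q3) (pc := pcF1) (cut := Cut.none) (xt := Ext.none) (P1 := 1610612736) (W1 := 536870912) (P2 := 1610612736) (W2 := 536870912) (P3 := 33554432) (W3 := 16777216)
    rfl rfl rfl k0_mm_313

end Pool.Agent.Strip051.G.I1_32_3_64.Tab.C.FB12

namespace Pool.Agent.Strip051.G.I1_32_3_64.Tab.C.FB13

open Pool.Agent.Strip051.PB Pool.Agent.Strip051.PB.T
open Pool.Agent.Strip051.G.I1_32_3_64.Tab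

noncomputable def f_pp_001 : ℕ → ℕ → ℕ → ℕ → Bool := onCell 0 536870912 0 536870912 33554432 16777216
    (rowFK 1 false true true .up 0 0 1 (qsf 0 536870912 536870912 536870912 0) ndF1q0 ndF3q1 pcF0 Cut.none Ext.none)

def k0_pp_001 : ∃ t, chk3 f_pp_001 t 1 1 1 = true :=
  ⟨(l 3), by decide +kernel⟩

theorem c_pp_001 : CertF 0 536870912 536870912 536870912 33554432 16777216 false true true .up 0 0 1
    ndF1q0 ndF3q1 pcF0 Cut.none Ext.none :=
  certFK1 (fam := false) (s1 := true) (s2 := true) (a := 0) (b := 0) (c := 1) (cn := .up) (n1 := ndF1q0) (n2 := ndF3q1) (pc := pcF0) (cut := Cut.none) (xt := Ext.none) (P1 := 0) (W1 := 536870912) (P2 := 536870912) (W2 := 536870912) (P3 := 33554432) (W3 := 16777216)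
    rfl rfl rfl (fun _ => rfl) k0_pp_001

noncomputable def cut_pp_011 : Cut := Cut.of [[⟨0, 0, 0, 33554432⟩, ⟨1, 1, 0, 33554432⟩, ⟨2, 1, 0, 33554432⟩]]

noncomputable def f_pp_011 : ℕ → ℕ → ℕ → ℕ → Bool := onCell 0 536870912 536870912 536870912 33554432 16777216
    (rowFK 1 false true true .pnn 0 1 1 (qsf 0 536870912 536870912 536870912 1) ndF1q0 ndF3q1 pcF1 cut_pp_011 Ext.none)

def k0_pp_011 : ∃ t, chk3 f_pp_011 t 1 1 1 = true :=
  ⟨(b (l 3) (b (l 3) (b (l 3) (a (b (l 3) (a (a (b (l 3) (a (a (l 6) (l 3)) (l 2))) (l 2)) (l 2))) (l 2))))), by decide +kernel⟩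

theorem c_pp_011 : CertF 0 536870912 536870912 536870912 33554432 16777216 false true true .pnn 0 1 1
    ndF1q0 ndF3q1 pcF1 cut_pp_011 Ext.none :=
  certFK1 (fam := false) (s1 := true) (s2 := true) (a := 0) (b := 1) (c := 1) (cn := .pnn) (n1 := ndF1q0) (n2 := ndF3q1) (pc := pcF1) (cut := cut_pp_011) (xt := Ext.none) (P1 := 0) (W1 := 536870912) (P2 := 536870912) (W2 := 536870912) (P3 := 33554432) (W3 := 16777216)
    rfl rfl rfl (fun _ => rfl) k0_pp_011

noncomputable def f_pp_012 : ℕ → ℕ → ℕ → ℕ → Bool := onCell 0 536870912 536870912 536870912 33554432 16777216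
    (rowFK 1 false true true .pnp 0 1 2 (qsf 0 536870912 1073741824 536870912 1) ndF1q0 ndF3q2 pcF1 Cut.none Ext.none)

def k0_pp_012 : ∃ t, chk3 f_pp_012 t 1 1 1 = true :=
  ⟨(l 3), by decide +kernel⟩

theorem c_pp_012 : CertF 0 536870912 1073741824 536870912 33554432 16777216 false true true .pnp 0 1 2
    ndF1q0 ndF3q2 pcF1 Cut.none Ext.none :=
  certFK1 (fam := false) (s1 := true) (s2 := true) (a := 0) (b := 1) (c := 2) (cn := .pnp) (n1 := ndF1q0) (n2 := ndF3q2) (pc := pcF1) (cut := Cut.none) (xt := Ext.none) (P1 := 0) (W1 := 536870912) (P2 := 1073741824) (W2 := 536870912) (P3 := 33554432) (W3 := 16777216)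
    rfl rfl rfl (fun _ => rfl) k0_pp_012

noncomputable def f_pp_022 : ℕ → ℕ → ℕ → ℕ → Bool := onCell 0 536870912 1073741824 536870912 33554432 16777216
    (rowFK 1 false true true .pp 0 2 2 (qsf 0 536870912 1073741824 536870912 2) ndF1q0 ndF3q2 pcF2 Cut.none Ext.none)

def k0_pp_022 : ∃ t, chk3 f_pp_022 t 1 1 1 = true :=
  ⟨(a (b (a (b (l 3) (b (b (b (l 1080356718183) (b (l 19127224) (b (l 19006352) (a (l 19222184) (l 18894016))))) (l 19099512)) (l 19236520))) (b (b (l 3) (b (l 3) (l 18362216))) (b (b (b (l 18490144) (b (l 18584144) (l 18641120))) (l 18719208)) (l 18863872)))) (a (l 19353008) (l 19077424))) (b (b (b (l 400139528215) (b (l 18221096) (l 18311512))) (b (b (b (l 18392568) (b (l 18449632) (l 18484920))) (l 18536600)) (l 18646896))) (b (l 18791104) (l 2)))), by decide +kernel⟩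

theorem c_pp_022 : CertF 0 536870912 1073741824 536870912 33554432 16777216 false true true .pp 0 2 2
    ndF1q0 ndF3q2 pcF2 Cut.none Ext.none :=
  certFK1 (fam := false) (s1 := true) (s2 := true) (a := 0) (b := 2) (c := 2) (cn := .pp) (n1 := ndF1q0) (n2 := ndF3q2) (pc := pcF2) (cut := Cut.none) (xt := Ext.none) (P1 := 0) (W1 := 536870912) (P2 := 1073741824) (W2 := 536870912) (P3 := 33554432) (W3 := 16777216)
    rfl rfl rfl (fun _ => rfl) k0_pp_022

noncomputable def f_pp_023 : ℕ → ℕ → ℕ → ℕ → Bool := onCell 1073741824 536870912 0 1230186008 33554432 16777216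
    (rowFK 2 false true true .up 0 2 3 (qsf 0 536870912 0 1230186008 2) ndF1q0 ndF3q3 pcF2 Cut.none Ext.none)

def k0_pp_023 : ∃ t, chk3 f_pp_023 t 1 1 1 = true :=
  ⟨(b (a (l 2) (a (l 2) (l 18592752))) (b (a (a (l 2) (l 18754520)) (b (l 18756744) (l 18788984))) (a (b (a (l 2) (l 18855768)) (a (a (b (l 2) (l 18892616)) (l 18874192)) (a (l 18897344) (l 18884504)))) (l 18752776)))), by decide +kernel⟩

theorem c_pp_023 : CertF 0 536870912 0 1230186008 33554432 16777216 false true true .up 0 2 3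
    ndF1q0 ndF3q3 pcF2 Cut.none Ext.none :=
  certFK2 (fam := false) (s1 := true) (s2 := true) (a := 0) (b := 2) (c := 3) (cn := .up) (n1 := ndF1q0) (n2 := ndF3q3) (pc := pcF2) (cut := Cut.none) (xt := Ext.none) (P1 := 0) (W1 := 536870912) (P2 := 0) (W2 := 1230186008) (P3 := 33554432) (W3 := 16777216)
    rfl rfl rfl (fun _ => rfl) k0_pp_023

noncomputable def f_pp_033 : ℕ → ℕ → ℕ → ℕ → Bool := onCell 1610612736 536870912 0 1230186008 33554432 16777216
    (rowFK 2 false true true .pnn 0 3 3 (qsf 0 536870912 0 1230186008 3) ndF1q0 ndF3q3 pcF3 Cut.none Ext.none)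

def k0_pp_033 : ∃ t, chk3 f_pp_033 t 1 1 1 = true :=
  ⟨(b (a (a (l 18102056) (l 18143408)) (a (a (l 18163944) (l 18220240)) (a (l 18296944) (l 4)))) (b (a (a (l 18317192) (b (l 18074256) (l 18216544))) (a (a (l 18244800) (l 18369936)) (b (a (l 18105696) (l 1)) (l 1)))) (a (b (b (l 18641552) (a (l 18885040) (a (l 18833720) (l 1)))) (a (b (l 18565768) (a (l 17883232) (b (l 17744792) (l 1)))) (b (a (b (l 18510288) (l 1)) (l 1)) (l 1)))) (l 1)))), by decide +kernel⟩

theorem c_pp_033 : CertF 0 536870912 0 1230186008 33554432 16777216 false true true .pnn 0 3 3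
    ndF1q0 ndF3q3 pcF3 Cut.none Ext.none :=
  certFK2 (fam := false) (s1 := true) (s2 := true) (a := 0) (b := 3) (c := 3) (cn := .pnn) (n1 := ndF1q0) (n2 := ndF3q3) (pc := pcF3) (cut := Cut.none) (xt := Ext.none) (P1 := 0) (W1 := 536870912) (P2 := 0) (W2 := 1230186008) (P3 := 33554432) (W3 := 16777216)
    rfl rfl rfl (fun _ => rfl) k0_pp_033

noncomputable def f_pp_101 : ℕ → ℕ → ℕ → ℕ → Bool := onCell 536870912 536870912 536870912 536870912 33554432 16777216
    (rowFK 0 false true true .npn 1 0 1 (qsf 536870912 536870912 536870912 536870912 0) ndF1q1 ndF3q1 pcF0 Cut.none Ext.none)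

def k0_pp_101 : ∃ t, chk3 f_pp_101 t 1 1 1 = true :=
  ⟨(l 3), by decide +kernel⟩

theorem c_pp_101 : CertF 536870912 536870912 536870912 536870912 33554432 16777216 false true true .npn 1 0 1
    ndF1q1 ndF3q1 pcF0 Cut.none Ext.none :=
  certFK0 (fam := false) (s1 := true) (s2 := true) (a := 1) (b := 0) (c := 1) (cn := .npn) (n1 := ndF1q1) (n2 := ndF3q1) (pc := pcF0) (cut := Cut.none) (xt := Ext.none) (P1 := 536870912) (W1 := 536870912) (P2 := 536870912) (W2 := 536870912) (P3 := 33554432) (W3 := 16777216)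
    rfl rfl rfl k0_pp_101

noncomputable def f_pp_102 : ℕ → ℕ → ℕ → ℕ → Bool := onCell 536870912 536870912 0 536870912 33554432 16777216
    (rowFK 1 false true true .npp 1 0 2 (qsf 536870912 536870912 1073741824 536870912 0) ndF1q1 ndF3q2 pcF0 Cut.none Ext.none)

def k0_pp_102 : ∃ t, chk3 f_pp_102 t 1 1 1 = true :=
  ⟨(l 3), by decide +kernel⟩

theorem c_pp_102 : CertF 536870912 536870912 1073741824 536870912 33554432 16777216 false true true .npp 1 0 2
    ndF1q1 ndF3q2 pcF0 Cut.none Ext.none :=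
  certFK1 (fam := false) (s1 := true) (s2 := true) (a := 1) (b := 0) (c := 2) (cn := .npp) (n1 := ndF1q1) (n2 := ndF3q2) (pc := pcF0) (cut := Cut.none) (xt := Ext.none) (P1 := 536870912) (W1 := 536870912) (P2 := 1073741824) (W2 := 536870912) (P3 := 33554432) (W3 := 16777216)
    rfl rfl rfl (fun _ => rfl) k0_pp_102

noncomputable def f_pp_112 : ℕ → ℕ → ℕ → ℕ → Bool := onCell 536870912 536870912 1073741824 536870912 33554432 16777216
    (rowFK 2 false true true .dn 1 1 2 (qsf 536870912 536870912 1073741824 536870912 1) ndF1q1 ndF3q2 pcF1 Cut.none Ext.none)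

def k0_pp_112 : ∃ t, chk3 f_pp_112 t 1 1 1 = true :=
  ⟨(l 3), by decide +kernel⟩

theorem c_pp_112 : CertF 536870912 536870912 1073741824 536870912 33554432 16777216 false true true .dn 1 1 2
    ndF1q1 ndF3q2 pcF1 Cut.none Ext.none :=
  certFK2 (fam := false) (s1 := true) (s2 := true) (a := 1) (b := 1) (c := 2) (cn := .dn) (n1 := ndF1q1) (n2 := ndF3q2) (pc := pcF1) (cut := Cut.none) (xt := Ext.none) (P1 := 536870912) (W1 := 536870912) (P2 := 1073741824) (W2 := 536870912) (P3 := 33554432) (W3 := 16777216)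
    rfl rfl rfl (fun _ => rfl) k0_pp_112

noncomputable def f_pp_113 : ℕ → ℕ → ℕ → ℕ → Bool := onCell 536870912 536870912 0 1230186008 33554432 16777216
    (rowFK 2 false true true .nn 1 1 3 (qsf 536870912 536870912 0 1230186008 1) ndF1q1 ndF3q3 pcF1 Cut.none Ext.none)

def k0_pp_113 : ∃ t, chk3 f_pp_113 t 1 1 1 = true :=
  ⟨(a (b (l 2) (b (l 3) (l 3))) (b (a (l 2) (a (b (l 2) (l 17005384)) (a (l 16850600) (a (l 16845240) (a (l 16844112) (l 16837512)))))) (a (b (a (l 3) (l 3)) (l 3)) (b (a (l 17189528) (l 17047832)) (a (l 3) (l 17224352)))))), by decide +kernel⟩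

theorem c_pp_113 : CertF 536870912 536870912 0 1230186008 33554432 16777216 false true true .nn 1 1 3
    ndF1q1 ndF3q3 pcF1 Cut.none Ext.none :=
  certFK2 (fam := false) (s1 := true) (s2 := true) (a := 1) (b := 1) (c := 3) (cn := .nn) (n1 := ndF1q1) (n2 := ndF3q3) (pc := pcF1) (cut := Cut.none) (xt := Ext.none) (P1 := 536870912) (W1 := 536870912) (P2 := 0) (W2 := 1230186008) (P3 := 33554432) (W3 := 16777216)
    rfl rfl rfl (fun _ => rfl) k0_pp_113

noncomputable def f_pp_123 : ℕ → ℕ → ℕ → ℕ → Bool := onCell 1073741824 536870912 0 1230186008 33554432 16777216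
    (rowFK 2 false true true .npn 1 2 3 (qsf 536870912 536870912 0 1230186008 2) ndF1q1 ndF3q3 pcF2 Cut.none Ext.none)

def k0_pp_123 : ∃ t, chk3 f_pp_123 t 1 1 1 = true :=
  ⟨(a (a (b (a (a (a (a (l 17028504) (l 17027688)) (l 17026664)) (l 17020888)) (l 17007264)) (a (a (b (a (a (l 17036344) (l 17031848)) (l 17024152)) (a (a (l 17192080) (l 17186000)) (l 17177776))) (b (l 17004784) (l 17161008))) (b (l 16978440) (b (l 17088352) (l 17146608))))) (b (b (l 16973264) (l 16931752)) (b (l 16931824) (a (b (l 17044808) (l 17087864)) (l 17021360))))) (b (a (b (l 16834520) (l 16851920)) (l 16869464)) (b (a (l 16866496) (l 16805664)) (l 1)))), by decide +kernel⟩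

theorem c_pp_123 : CertF 536870912 536870912 0 1230186008 33554432 16777216 false true true .npn 1 2 3
    ndF1q1 ndF3q3 pcF2 Cut.none Ext.none :=
  certFK2 (fam := false) (s1 := true) (s2 := true) (a := 1) (b := 2) (c := 3) (cn := .npn) (n1 := ndF1q1) (n2 := ndF3q3) (pc := pcF2) (cut := Cut.none) (xt := Ext.none) (P1 := 536870912) (W1 := 536870912) (P2 := 0) (W2 := 1230186008) (P3 := 33554432) (W3 := 16777216)
    rfl rfl rfl (fun _ => rfl) k0_pp_123

noncomputable def f_pp_133 : ℕ → ℕ → ℕ → ℕ → Bool := onCell 1610612736 536870912 0 1230186008 33554432 16777216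
    (rowFK 2 false true true .dn 1 3 3 (qsf 536870912 536870912 0 1230186008 3) ndF1q1 ndF3q3 pcF3 Cut.none Ext.none)

def k0_pp_133 : ∃ t, chk3 f_pp_133 t 1 1 1 = true :=
  ⟨(b (a (a (l 17434328) (l 1)) (l 1)) (l 1)), by decide +kernel⟩

theorem c_pp_133 : CertF 536870912 536870912 0 1230186008 33554432 16777216 false true true .dn 1 3 3
    ndF1q1 ndF3q3 pcF3 Cut.none Ext.none :=
  certFK2 (fam := false) (s1 := true) (s2 := true) (a := 1) (b := 3) (c := 3) (cn := .dn) (n1 := ndF1q1) (n2 := ndF3q3) (pc := pcF3) (cut := Cut.none) (xt := Ext.none) (P1 := 536870912) (W1 := 536870912) (P2 := 0) (W2 := 1230186008) (P3 := 33554432) (W3 := 16777216)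
    rfl rfl rfl (fun _ => rfl) k0_pp_133

noncomputable def f_pp_202_a : ℕ → ℕ → ℕ → ℕ → Bool := onCell 0 536870912 1073741824 536870912 33554432 16777216
    (rowFK 0 false true true .pp 2 0 2 (qsf 0 536870912 1073741824 536870912 0) ndF1q2a ndF3q2 pcF0 Cut.none Ext.none)

def k0_pp_202_a : ∃ t, chk3 f_pp_202_a t 1 1 1 = true :=
  ⟨(l 3), by decide +kernel⟩

theorem c_pp_202_a : CertF 0 536870912 1073741824 536870912 33554432 16777216 false true true .pp 2 0 2
    ndF1q2a ndF3q2 pcF0 Cut.none Ext.none :=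
  certFK0 (fam := false) (s1 := true) (s2 := true) (a := 2) (b := 0) (c := 2) (cn := .pp) (n1 := ndF1q2a) (n2 := ndF3q2) (pc := pcF0) (cut := Cut.none) (xt := Ext.none) (P1 := 0) (W1 := 536870912) (P2 := 1073741824) (W2 := 536870912) (P3 := 33554432) (W3 := 16777216)
    rfl rfl rfl k0_pp_202_a

noncomputable def f_pp_202_b : ℕ → ℕ → ℕ → ℕ → Bool := onCell 1239849684 370763052 1073741824 536870912 33554432 16777216
    (rowFK 0 false true true .pp 2 0 2 (qsf 1239849684 370763052 1073741824 536870912 0) ndF1q2b ndF3q2 pcF0 Cut.none Ext.none)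

def k0_pp_202_b : ∃ t, chk3 f_pp_202_b t 1 1 1 = true :=
  ⟨(l 3), by decide +kernel⟩

theorem c_pp_202_b : CertF 1239849684 370763052 1073741824 536870912 33554432 16777216 false true true .pp 2 0 2
    ndF1q2b ndF3q2 pcF0 Cut.none Ext.none :=
  certFK0 (fam := false) (s1 := true) (s2 := true) (a := 2) (b := 0) (c := 2) (cn := .pp) (n1 := ndF1q2b) (n2 := ndF3q2) (pc := pcF0) (cut := Cut.none) (xt := Ext.none) (P1 := 1239849684) (W1 := 370763052) (P2 := 1073741824) (W2 := 536870912) (P3 := 33554432) (W3 := 16777216)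
    rfl rfl rfl k0_pp_202_b

noncomputable def f_pp_203_a : ℕ → ℕ → ℕ → ℕ → Bool := onCell 0 536870912 0 1230186008 33554432 16777216
    (rowFK 0 false true true .up 2 0 3 (qsf 0 536870912 0 1230186008 0) ndF1q2a ndF3q3 pcF0 Cut.none Ext.none)

def k0_pp_203_a : ∃ t, chk3 f_pp_203_a t 1 1 1 = true :=
  ⟨(b (l 2) (l 3)), by decide +kernel⟩

theorem c_pp_203_a : CertF 0 536870912 0 1230186008 33554432 16777216 false true true .up 2 0 3
    ndF1q2a ndF3q3 pcF0 Cut.none Ext.none :=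
  certFK0 (fam := false) (s1 := true) (s2 := true) (a := 2) (b := 0) (c := 3) (cn := .up) (n1 := ndF1q2a) (n2 := ndF3q3) (pc := pcF0) (cut := Cut.none) (xt := Ext.none) (P1 := 0) (W1 := 536870912) (P2 := 0) (W2 := 1230186008) (P3 := 33554432) (W3 := 16777216)
    rfl rfl rfl k0_pp_203_a

noncomputable def f_pp_203_b : ℕ → ℕ → ℕ → ℕ → Bool := onCell 1239849684 370763052 0 1230186008 33554432 16777216
    (rowFK 0 false true true .up 2 0 3 (qsf 1239849684 370763052 0 1230186008 0) ndF1q2b ndF3q3 pcF0 Cut.none Ext.none)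

def k0_pp_203_b : ∃ t, chk3 f_pp_203_b t 1 1 1 = true :=
  ⟨(b (l 3) (l 3)), by decide +kernel⟩

theorem c_pp_203_b : CertF 1239849684 370763052 0 1230186008 33554432 16777216 false true true .up 2 0 3
    ndF1q2b ndF3q3 pcF0 Cut.none Ext.none :=
  certFK0 (fam := false) (s1 := true) (s2 := true) (a := 2) (b := 0) (c := 3) (cn := .up) (n1 := ndF1q2b) (n2 := ndF3q3) (pc := pcF0) (cut := Cut.none) (xt := Ext.none) (P1 := 1239849684) (W1 := 370763052) (P2 := 0) (W2 := 1230186008) (P3 := 33554432) (W3 := 16777216)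
    rfl rfl rfl k0_pp_203_b

noncomputable def cut_pp_213_a : Cut := Cut.of [[⟨0, 1, 0, 7061502⟩, ⟨1, 1, 0, 7061502⟩, ⟨2, 2, 0, 184626⟩]]

noncomputable def f_pp_213_a : ℕ → ℕ → ℕ → ℕ → Bool := onCell 0 536870912 0 1230186008 33554432 16777216
    (rowFK 0 false true true .pnn 2 1 3 (qsf 0 536870912 0 1230186008 1) ndF1q2a ndF3q3 pcF1 cut_pp_213_a Ext.none)

def k0_pp_213_a : ∃ t, chk3 f_pp_213_a t 1 1 1 = true :=
  ⟨(b (a (l 3) (b (a (l 3) (b (a (l 3) (b (a (l 3) (b (a (l 3) (b (a (l 3) (l 6)) (l 3))) (l 3))) (l 3))) (l 3))) (l 3))) (l 3)), by decide +kernel⟩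

theorem c_pp_213_a : CertF 0 536870912 0 1230186008 33554432 16777216 false true true .pnn 2 1 3
    ndF1q2a ndF3q3 pcF1 cut_pp_213_a Ext.none :=
  certFK0 (fam := false) (s1 := true) (s2 := true) (a := 2) (b := 1) (c := 3) (cn := .pnn) (n1 := ndF1q2a) (n2 := ndF3q3) (pc := pcF1) (cut := cut_pp_213_a) (xt := Ext.none) (P1 := 0) (W1 := 536870912) (P2 := 0) (W2 := 1230186008) (P3 := 33554432) (W3 := 16777216)
    rfl rfl rfl k0_pp_213_a

noncomputable def cut_pp_213_b : Cut := Cut.of [[⟨0, 1, 0, 7061502⟩, ⟨1, 1, 0, 7061502⟩, ⟨2, 2, 0, 184626⟩]]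

noncomputable def f_pp_213_b : ℕ → ℕ → ℕ → ℕ → Bool := onCell 1239849684 370763052 0 1230186008 33554432 16777216
    (rowFK 0 false true true .pnn 2 1 3 (qsf 1239849684 370763052 0 1230186008 1) ndF1q2b ndF3q3 pcF1 cut_pp_213_b Ext.none)

def k0_pp_213_b : ∃ t, chk3 f_pp_213_b t 1 1 1 = true :=
  ⟨(b (l 3) (l 3)), by decide +kernel⟩

theorem c_pp_213_b : CertF 1239849684 370763052 0 1230186008 33554432 16777216 false true true .pnn 2 1 3
    ndF1q2b ndF3q3 pcF1 cut_pp_213_b Ext.none :=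
  certFK0 (fam := false) (s1 := true) (s2 := true) (a := 2) (b := 1) (c := 3) (cn := .pnn) (n1 := ndF1q2b) (n2 := ndF3q3) (pc := pcF1) (cut := cut_pp_213_b) (xt := Ext.none) (P1 := 1239849684) (W1 := 370763052) (P2 := 0) (W2 := 1230186008) (P3 := 33554432) (W3 := 16777216)
    rfl rfl rfl k0_pp_213_b

noncomputable def f_pp_303 : ℕ → ℕ → ℕ → ℕ → Bool := onCell 1610612736 536870912 0 1230186008 33554432 16777216
    (rowFK 0 false true true .npn 3 0 3 (qsf 1610612736 536870912 0 1230186008 0) ndF1q3 ndF3q3 pcF0 Cut.none Ext.none)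

def k0_pp_303 : ∃ t, chk3 f_pp_303 t 1 1 1 = true :=
  ⟨(b (l 3) (l 3)), by decide +kernel⟩

theorem c_pp_303 : CertF 1610612736 536870912 0 1230186008 33554432 16777216 false true true .npn 3 0 3
    ndF1q3 ndF3q3 pcF0 Cut.none Ext.none :=
  certFK0 (fam := false) (s1 := true) (s2 := true) (a := 3) (b := 0) (c := 3) (cn := .npn) (n1 := ndF1q3) (n2 := ndF3q3) (pc := pcF0) (cut := Cut.none) (xt := Ext.none) (P1 := 1610612736) (W1 := 536870912) (P2 := 0) (W2 := 1230186008) (P3 := 33554432) (W3 := 16777216)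
    rfl rfl rfl k0_pp_303

noncomputable def f_pp_313 : ℕ → ℕ → ℕ → ℕ → Bool := onCell 1610612736 536870912 0 1230186008 33554432 16777216
    (rowFK 0 false true true .dn 3 1 3 (qsf 1610612736 536870912 0 1230186008 1) ndF1q3 ndF3q3 pcF1 Cut.none Ext.none)

def k0_pp_313 : ∃ t, chk3 f_pp_313 t 1 1 1 = true :=
  ⟨(b (l 3) (l 1)), by decide +kernel⟩

theorem c_pp_313 : CertF 1610612736 536870912 0 1230186008 33554432 16777216 false true true .dn 3 1 3
    ndF1q3 ndF3q3 pcF1 Cut.none Ext.none :=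
  certFK0 (fam := false) (s1 := true) (s2 := true) (a := 3) (b := 1) (c := 3) (cn := .dn) (n1 := ndF1q3) (n2 := ndF3q3) (pc := pcF1) (cut := Cut.none) (xt := Ext.none) (P1 := 1610612736) (W1 := 536870912) (P2 := 0) (W2 := 1230186008) (P3 := 33554432) (W3 := 16777216)
    rfl rfl rfl k0_pp_313

noncomputable def f_pm_001 : ℕ → ℕ → ℕ → ℕ → Bool := onCell 0 536870912 536870912 536870912 33554432 16777216
    (rowFK 0 false true false .up 0 0 1 (qsf 0 536870912 536870912 536870912 0) ndF1q0 ndF3q1 pcF0 Cut.none Ext.none)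

def k0_pm_001 : ∃ t, chk3 f_pm_001 t 1 1 1 = true :=
  ⟨(l 4), by decide +kernel⟩

theorem c_pm_001 : CertF 0 536870912 536870912 536870912 33554432 16777216 false true false .up 0 0 1
    ndF1q0 ndF3q1 pcF0 Cut.none Ext.none :=
  certFK0 (fam := false) (s1 := true) (s2 := false) (a := 0) (b := 0) (c := 1) (cn := .up) (n1 := ndF1q0) (n2 := ndF3q1) (pc := pcF0) (cut := Cut.none) (xt := Ext.none) (P1 := 0) (W1 := 536870912) (P2 := 536870912) (W2 := 536870912) (P3 := 33554432) (W3 := 16777216)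
    rfl rfl rfl k0_pm_001

noncomputable def f_pm_011 : ℕ → ℕ → ℕ → ℕ → Bool := onCell 0 536870912 536870912 536870912 33554432 16777216
    (rowFK 0 false true false .pnn 0 1 1 (qsf 0 536870912 536870912 536870912 1) ndF1q0 ndF3q1 pcF1 Cut.none Ext.none)

def k0_pm_011 : ∃ t, chk3 f_pm_011 t 1 1 1 = true :=
  ⟨(l 4), by decide +kernel⟩

theorem c_pm_011 : CertF 0 536870912 536870912 536870912 33554432 16777216 false true false .pnn 0 1 1
    ndF1q0 ndF3q1 pcF1 Cut.none Ext.none :=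
  certFK0 (fam := false) (s1 := true) (s2 := false) (a := 0) (b := 1) (c := 1) (cn := .pnn) (n1 := ndF1q0) (n2 := ndF3q1) (pc := pcF1) (cut := Cut.none) (xt := Ext.none) (P1 := 0) (W1 := 536870912) (P2 := 536870912) (W2 := 536870912) (P3 := 33554432) (W3 := 16777216)
    rfl rfl rfl k0_pm_011

noncomputable def f_pm_012 : ℕ → ℕ → ℕ → ℕ → Bool := onCell 0 536870912 1073741824 536870912 33554432 16777216
    (rowFK 0 false true false .pnp 0 1 2 (qsf 0 536870912 1073741824 536870912 1) ndF1q0 ndF3q2 pcF1 Cut.none Ext.none)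

def k0_pm_012 : ∃ t, chk3 f_pm_012 t 1 1 1 = true :=
  ⟨(l 4), by decide +kernel⟩

theorem c_pm_012 : CertF 0 536870912 1073741824 536870912 33554432 16777216 false true false .pnp 0 1 2
    ndF1q0 ndF3q2 pcF1 Cut.none Ext.none :=
  certFK0 (fam := false) (s1 := true) (s2 := false) (a := 0) (b := 1) (c := 2) (cn := .pnp) (n1 := ndF1q0) (n2 := ndF3q2) (pc := pcF1) (cut := Cut.none) (xt := Ext.none) (P1 := 0) (W1 := 536870912) (P2 := 1073741824) (W2 := 536870912) (P3 := 33554432) (W3 := 16777216)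
    rfl rfl rfl k0_pm_012

noncomputable def f_pm_022 : ℕ → ℕ → ℕ → ℕ → Bool := onCell 0 536870912 1073741824 536870912 33554432 16777216
    (rowFK 0 false true false .pp 0 2 2 (qsf 0 536870912 1073741824 536870912 2) ndF1q0 ndF3q2 pcF2 Cut.none Ext.none)

def k0_pm_022 : ∃ t, chk3 f_pm_022 t 1 1 1 = true :=
  ⟨(l 4), by decide +kernel⟩

theorem c_pm_022 : CertF 0 536870912 1073741824 536870912 33554432 16777216 false true false .pp 0 2 2
    ndF1q0 ndF3q2 pcF2 Cut.none Ext.none :=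
  certFK0 (fam := false) (s1 := true) (s2 := false) (a := 0) (b := 2) (c := 2) (cn := .pp) (n1 := ndF1q0) (n2 := ndF3q2) (pc := pcF2) (cut := Cut.none) (xt := Ext.none) (P1 := 0) (W1 := 536870912) (P2 := 1073741824) (W2 := 536870912) (P3 := 33554432) (W3 := 16777216)
    rfl rfl rfl k0_pm_022

noncomputable def f_pm_023 : ℕ → ℕ → ℕ → ℕ → Bool := onCell 0 536870912 0 1230186008 33554432 16777216
    (rowFK 0 false true false .up 0 2 3 (qsf 0 536870912 0 1230186008 2) ndF1q0 ndF3q3 pcF2 Cut.none Ext.none)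

def k0_pm_023 : ∃ t, chk3 f_pm_023 t 1 1 1 = true :=
  ⟨(b (b (a (l 2) (a (l 2) (l 18492408))) (l 4)) (l 4)), by decide +kernel⟩

theorem c_pm_023 : CertF 0 536870912 0 1230186008 33554432 16777216 false true false .up 0 2 3
    ndF1q0 ndF3q3 pcF2 Cut.none Ext.none :=
  certFK0 (fam := false) (s1 := true) (s2 := false) (a := 0) (b := 2) (c := 3) (cn := .up) (n1 := ndF1q0) (n2 := ndF3q3) (pc := pcF2) (cut := Cut.none) (xt := Ext.none) (P1 := 0) (W1 := 536870912) (P2 := 0) (W2 := 1230186008) (P3 := 33554432) (W3 := 16777216)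
    rfl rfl rfl k0_pm_023

noncomputable def f_pm_033 : ℕ → ℕ → ℕ → ℕ → Bool := onCell 0 536870912 0 1230186008 33554432 16777216
    (rowFK 0 false true false .pnn 0 3 3 (qsf 0 536870912 0 1230186008 3) ndF1q0 ndF3q3 pcF3 Cut.none Ext.none)

def k0_pm_033 : ∃ t, chk3 f_pm_033 t 1 1 1 = true :=
  ⟨(b (a (l 4) (a (l 4) (b (l 18017216) (l 4)))) (l 4)), by decide +kernel⟩

theorem c_pm_033 : CertF 0 536870912 0 1230186008 33554432 16777216 false true false .pnn 0 3 3
    ndF1q0 ndF3q3 pcF3 Cut.none Ext.none :=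
  certFK0 (fam := false) (s1 := true) (s2 := false) (a := 0) (b := 3) (c := 3) (cn := .pnn) (n1 := ndF1q0) (n2 := ndF3q3) (pc := pcF3) (cut := Cut.none) (xt := Ext.none) (P1 := 0) (W1 := 536870912) (P2 := 0) (W2 := 1230186008) (P3 := 33554432) (W3 := 16777216)
    rfl rfl rfl k0_pm_033

noncomputable def f_pm_101 : ℕ → ℕ → ℕ → ℕ → Bool := onCell 536870912 536870912 536870912 536870912 33554432 16777216
    (rowFK 0 false true false .npn 1 0 1 (qsf 536870912 536870912 536870912 536870912 0) ndF1q1 ndF3q1 pcF0 Cut.none Ext.none)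

def k0_pm_101 : ∃ t, chk3 f_pm_101 t 1 1 1 = true :=
  ⟨(l 4), by decide +kernel⟩

theorem c_pm_101 : CertF 536870912 536870912 536870912 536870912 33554432 16777216 false true false .npn 1 0 1
    ndF1q1 ndF3q1 pcF0 Cut.none Ext.none :=
  certFK0 (fam := false) (s1 := true) (s2 := false) (a := 1) (b := 0) (c := 1) (cn := .npn) (n1 := ndF1q1) (n2 := ndF3q1) (pc := pcF0) (cut := Cut.none) (xt := Ext.none) (P1 := 536870912) (W1 := 536870912) (P2 := 536870912) (W2 := 536870912) (P3 := 33554432) (W3 := 16777216)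
    rfl rfl rfl k0_pm_101

noncomputable def f_pm_102 : ℕ → ℕ → ℕ → ℕ → Bool := onCell 536870912 536870912 1073741824 536870912 33554432 16777216
    (rowFK 0 false true false .npp 1 0 2 (qsf 536870912 536870912 1073741824 536870912 0) ndF1q1 ndF3q2 pcF0 Cut.none Ext.none)

def k0_pm_102 : ∃ t, chk3 f_pm_102 t 1 1 1 = true :=
  ⟨(l 4), by decide +kernel⟩

theorem c_pm_102 : CertF 536870912 536870912 1073741824 536870912 33554432 16777216 false true false .npp 1 0 2
    ndF1q1 ndF3q2 pcF0 Cut.none Ext.none :=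
  certFK0 (fam := false) (s1 := true) (s2 := false) (a := 1) (b := 0) (c := 2) (cn := .npp) (n1 := ndF1q1) (n2 := ndF3q2) (pc := pcF0) (cut := Cut.none) (xt := Ext.none) (P1 := 536870912) (W1 := 536870912) (P2 := 1073741824) (W2 := 536870912) (P3 := 33554432) (W3 := 16777216)
    rfl rfl rfl k0_pm_102

noncomputable def f_pm_112 : ℕ → ℕ → ℕ → ℕ → Bool := onCell 536870912 536870912 1073741824 536870912 33554432 16777216
    (rowFK 0 false true false .dn 1 1 2 (qsf 536870912 536870912 1073741824 536870912 1) ndF1q1 ndF3q2 pcF1 Cut.none Ext.none)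

def k0_pm_112 : ∃ t, chk3 f_pm_112 t 1 1 1 = true :=
  ⟨(l 4), by decide +kernel⟩

theorem c_pm_112 : CertF 536870912 536870912 1073741824 536870912 33554432 16777216 false true false .dn 1 1 2
    ndF1q1 ndF3q2 pcF1 Cut.none Ext.none :=
  certFK0 (fam := false) (s1 := true) (s2 := false) (a := 1) (b := 1) (c := 2) (cn := .dn) (n1 := ndF1q1) (n2 := ndF3q2) (pc := pcF1) (cut := Cut.none) (xt := Ext.none) (P1 := 536870912) (W1 := 536870912) (P2 := 1073741824) (W2 := 536870912) (P3 := 33554432) (W3 := 16777216)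
    rfl rfl rfl k0_pm_112

noncomputable def f_pm_113 : ℕ → ℕ → ℕ → ℕ → Bool := onCell 536870912 536870912 0 1230186008 33554432 16777216
    (rowFK 2 false true false .nn 1 1 3 (qsf 536870912 536870912 0 1230186008 1) ndF1q1 ndF3q3 pcF1 Cut.none Ext.none)

def k0_pm_113 : ∃ t, chk3 f_pm_113 t 1 1 1 = true :=
  ⟨(b (a (l 2) (a (l 2) (a (b (l 2) (l 17172248)) (a (l 912245472919) (a (l 17211232) (a (l 17138368) (l 17208336))))))) (b (a (a (l 2) (a (l 2) (b (l 2) (l 17562168)))) (a (l 17549584) (a (l 17793496) (a (l 17898560) (a (l 17963672) (a (l 17995784) (l 18020264))))))) (a (a (b (l 2) (l 17693520)) (b (l 17756912) (l 4))) (l 18143736)))), by decide +kernel⟩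

theorem c_pm_113 : CertF 536870912 536870912 0 1230186008 33554432 16777216 false true false .nn 1 1 3
    ndF1q1 ndF3q3 pcF1 Cut.none Ext.none :=
  certFK2 (fam := false) (s1 := true) (s2 := false) (a := 1) (b := 1) (c := 3) (cn := .nn) (n1 := ndF1q1) (n2 := ndF3q3) (pc := pcF1) (cut := Cut.none) (xt := Ext.none) (P1 := 536870912) (W1 := 536870912) (P2 := 0) (W2 := 1230186008) (P3 := 33554432) (W3 := 16777216)
    rfl rfl rfl (fun _ => rfl) k0_pm_113

noncomputable def f_pm_123 : ℕ → ℕ → ℕ → ℕ → Bool := onCell 1073741824 536870912 0 1230186008 33554432 16777216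
    (rowFK 2 false true false .npn 1 2 3 (qsf 536870912 536870912 0 1230186008 2) ndF1q1 ndF3q3 pcF2 Cut.none Ext.none)

def k0_pm_123 : ∃ t, chk3 f_pm_123 t 1 1 1 = true :=
  ⟨(a (b (a (a (a (a (a (l 17362832) (l 17367208)) (l 17201120)) (l 17161000)) (l 17312080)) (l 17119344)) (a (b (l 17900624) (l 4)) (l 96873757255))) (b (a (l 16978296) (l 17188760)) (l 4))), by decide +kernel⟩

theorem c_pm_123 : CertF 536870912 536870912 0 1230186008 33554432 16777216 false true false .npn 1 2 3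
    ndF1q1 ndF3q3 pcF2 Cut.none Ext.none :=
  certFK2 (fam := false) (s1 := true) (s2 := false) (a := 1) (b := 2) (c := 3) (cn := .npn) (n1 := ndF1q1) (n2 := ndF3q3) (pc := pcF2) (cut := Cut.none) (xt := Ext.none) (P1 := 536870912) (W1 := 536870912) (P2 := 0) (W2 := 1230186008) (P3 := 33554432) (W3 := 16777216)
    rfl rfl rfl (fun _ => rfl) k0_pm_123

noncomputable def f_pm_133 : ℕ → ℕ → ℕ → ℕ → Bool := onCell 1610612736 536870912 0 1230186008 33554432 16777216
    (rowFK 2 false true false .dn 1 3 3 (qsf 536870912 536870912 0 1230186008 3) ndF1q1 ndF3q3 pcF3 Cut.none Ext.none)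

def k0_pm_133 : ∃ t, chk3 f_pm_133 t 1 1 1 = true :=
  ⟨(b (a (a (l 17603768) (l 1)) (l 1)) (l 1)), by decide +kernel⟩

theorem c_pm_133 : CertF 536870912 536870912 0 1230186008 33554432 16777216 false true false .dn 1 3 3
    ndF1q1 ndF3q3 pcF3 Cut.none Ext.none :=
  certFK2 (fam := false) (s1 := true) (s2 := false) (a := 1) (b := 3) (c := 3) (cn := .dn) (n1 := ndF1q1) (n2 := ndF3q3) (pc := pcF3) (cut := Cut.none) (xt := Ext.none) (P1 := 536870912) (W1 := 536870912) (P2 := 0) (W2 := 1230186008) (P3 := 33554432) (W3 := 16777216)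
    rfl rfl rfl (fun _ => rfl) k0_pm_133

noncomputable def f_pm_202_a : ℕ → ℕ → ℕ → ℕ → Bool := onCell 0 536870912 0 536870912 33554432 16777216
    (rowFK 1 false true false .pp 2 0 2 (qsf 0 536870912 1073741824 536870912 0) ndF1q2a ndF3q2 pcF0 Cut.none Ext.none)

def k0_pm_202_a : ∃ t, chk3 f_pm_202_a t 1 1 1 = true :=
  ⟨(b (a (b (b (c (a (b (l 18812184) (l 18291552)) (b (l 19726672) (l 19167680))) (a (l 18594952) (c (l 18451976) (l 18562144)))) (a (l 18784144) (c (b (l 18590512) (l 18101904)) (l 18424984)))) (b (a (l 18779448) (l 18719760)) (a (l 18556400) (l 18670288)))) (b (b (c (a (b (l 20592560) (l 20254960)) (l 20698016)) (a (c (l 18985816) (l 18541216)) (c (l 19387768) (l 18563888)))) (a (c (b (l 19738440) (l 19179984)) (c (l 18369616) (l 18300568))) (c (a (l 20467592) (l 20603824)) (c (l 19080104) (l 18528688))))) (b (a (c (b (l 18729640) (l 18274304)) (l 18160912)) (c (a (l 19429880) (b (l 20329496) (l 19863928))) (a (l 18050816) (c (l 18799872)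 (l 17990344))))) (a (a (l 18516624) (l 18228504)) (c (a (b (l 18509016) (l 17925328)) (b (l 19315352) (l 18749624))) (c (l 18033168) (l 17915896))))))) (a (b (b (l 18362080) (l 18304312)) (l 1303089214615)) (a (b (b (l 18514432) (l 18519536)) (l 18168936)) (b (b (a (l 18197384) (c (b (l 18169808) (l 17593392)) (l 17841240))) (a (l 18439816) (l 18175720))) (b (a (l 18422200) (l 18342184)) (l 18323600)))))), by decide +kernel⟩

theorem c_pm_202_a : CertF 0 536870912 1073741824 536870912 33554432 16777216 false true false .pp 2 0 2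
    ndF1q2a ndF3q2 pcF0 Cut.none Ext.none :=
  certFK1 (fam := false) (s1 := true) (s2 := false) (a := 2) (b := 0) (c := 2) (cn := .pp) (n1 := ndF1q2a) (n2 := ndF3q2) (pc := pcF0) (cut := Cut.none) (xt := Ext.none) (P1 := 0) (W1 := 536870912) (P2 := 1073741824) (W2 := 536870912) (P3 := 33554432) (W3 := 16777216)
    rfl rfl rfl (fun _ => rfl) k0_pm_202_a

noncomputable def f_pm_202_b : ℕ → ℕ → ℕ → ℕ → Bool := onCell 1239849684 370763052 0 536870912 33554432 16777216
    (rowFK 1 false true false .pp 2 0 2 (qsf 1239849684 370763052 1073741824 536870912 0) ndF1q2b ndF3q2 pcF0 Cut.none Ext.none)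

def k0_pm_202_b : ∃ t, chk3 f_pm_202_b t 1 1 1 = true :=
  ⟨(b (b (a (b (b (a (l 18572728) (l 18929632)) (l 19263992)) (a (l 19023960) (l 19171744))) (b (a (l 19556384) (l 19249984)) (l 19047936))) (a (b (l 18873344) (l 18548296)) (b (l 18614992) (l 2)))) (b (a (b (l 18095680) (l 18026208)) (l 2)) (l 2))), by decide +kernel⟩

theorem c_pm_202_b : CertF 1239849684 370763052 1073741824 536870912 33554432 16777216 false true false .pp 2 0 2
    ndF1q2b ndF3q2 pcF0 Cut.none Ext.none :=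
  certFK1 (fam := false) (s1 := true) (s2 := false) (a := 2) (b := 0) (c := 2) (cn := .pp) (n1 := ndF1q2b) (n2 := ndF3q2) (pc := pcF0) (cut := Cut.none) (xt := Ext.none) (P1 := 1239849684) (W1 := 370763052) (P2 := 1073741824) (W2 := 536870912) (P3 := 33554432) (W3 := 16777216)
    rfl rfl rfl (fun _ => rfl) k0_pm_202_b

noncomputable def f_pm_203_a : ℕ → ℕ → ℕ → ℕ → Bool := onCell 0 536870912 0 1230186008 33554432 16777216
    (rowFK 0 false true false .up 2 0 3 (qsf 0 536870912 0 1230186008 0) ndF1q2a ndF3q3 pcF0 Cut.none Ext.none)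

def k0_pm_203_a : ∃ t, chk3 f_pm_203_a t 1 1 1 = true :=
  ⟨(b (l 2) (b (l 2) (b (a (b (l 2) (a (l 17748608) (l 18062152))) (l 2)) (a (b (a (l 17938624) (l 18288360)) (a (l 18159256) (l 18562072))) (a (b (l 18658808) (l 18876184)) (b (l 18899784) (l 19073728))))))), by decide +kernel⟩

theorem c_pm_203_a : CertF 0 536870912 0 1230186008 33554432 16777216 false true false .up 2 0 3
    ndF1q2a ndF3q3 pcF0 Cut.none Ext.none :=
  certFK0 (fam := false) (s1 := true) (s2 := false) (a := 2) (b := 0) (c := 3) (cn := .up) (n1 := ndF1q2a) (n2 := ndF3q3) (pc := pcF0) (cut := Cut.none) (xt := Ext.none) (P1 := 0) (W1 := 536870912) (P2 := 0) (W2 := 1230186008) (P3 := 33554432) (W3 := 16777216)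
    rfl rfl rfl k0_pm_203_a

noncomputable def f_pm_203_b : ℕ → ℕ → ℕ → ℕ → Bool := onCell 0 536870912 0 1230186008 33554432 16777216
    (rowFK 2 false true false .up 2 0 3 (qsf 1239849684 370763052 0 1230186008 0) ndF1q2b ndF3q3 pcF0 Cut.none Ext.none)

def k0_pm_203_b : ∃ t, chk3 f_pm_203_b t 1 1 1 = true :=
  ⟨(b (l 3) (b (l 3) (a (a (l 138683671751) (a (l 18242176) (l 69963987415))) (a (a (l 57078922775) (b (l 3) (l 17767080))) (a (b (l 3) (l 17842720)) (b (l 17543096) (l 17952112))))))), by decide +kernel⟩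

theorem c_pm_203_b : CertF 1239849684 370763052 0 1230186008 33554432 16777216 false true false .up 2 0 3
    ndF1q2b ndF3q3 pcF0 Cut.none Ext.none :=
  certFK2 (fam := false) (s1 := true) (s2 := false) (a := 2) (b := 0) (c := 3) (cn := .up) (n1 := ndF1q2b) (n2 := ndF3q3) (pc := pcF0) (cut := Cut.none) (xt := Ext.none) (P1 := 1239849684) (W1 := 370763052) (P2 := 0) (W2 := 1230186008) (P3 := 33554432) (W3 := 16777216)
    rfl rfl rfl (fun _ => rfl) k0_pm_203_b

noncomputable def cut_pm_213_a : Cut := Cut.of [[⟨0, 1, 0, 7061502⟩, ⟨1, 1, 0, 7061502⟩, ⟨2, 2, 0, 184626⟩]]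

noncomputable def f_pm_213_a : ℕ → ℕ → ℕ → ℕ → Bool := onCell 0 536870912 0 1230186008 33554432 16777216
    (rowFK 0 false true false .pnn 2 1 3 (qsf 0 536870912 0 1230186008 1) ndF1q2a ndF3q3 pcF1 cut_pm_213_a Ext.none)

def k0_pm_213_a : ∃ t, chk3 f_pm_213_a t 1 1 1 = true :=
  ⟨(b (a (b (l 3) (b (l 3) (l 3))) (b (a (l 3) (a (b (l 3) (a (l 314237474919) (l 284709504135))) (b (a (l 306184344439) (b (b (a (l 3) (b (a (l 3) (l 6)) (l 191830715975))) (l 191830745527)) (l 16830784))) (b (l 175724797767) (l 16827592))))) (a (b (a (l 3) (a (l 313164097255) (l 295447257063))) (a (l 306722044983) (l 17315680))) (b (a (l 17175936) (l 16963712)) (a (l 17071840) (l 16979968)))))) (b (a (b (a (l 3) (l 327660144823)) (a (l 307259069879) (l 220823155415))) (a (b (a (l 17390008) (l 17266168)) (b (l 17241752) (l 17216432))) (b (a (l 17190016) (l 17103440)) (a (l 17182896) (l 17146608))))) (b (a (b (l 217064929335) (a (l 17549200) (l 17375696))) (a (b (l 17212904) (l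 17210632)) (b (l 17139528) (l 17108992)))) (a (b (l 1528506748103) (l 1)) (a (b (l 17155080) (l 1)) (b (l 17184272) (l 17331088))))))), by decide +kernel⟩

theorem c_pm_213_a : CertF 0 536870912 0 1230186008 33554432 16777216 false true false .pnn 2 1 3
    ndF1q2a ndF3q3 pcF1 cut_pm_213_a Ext.none :=
  certFK0 (fam := false) (s1 := true) (s2 := false) (a := 2) (b := 1) (c := 3) (cn := .pnn) (n1 := ndF1q2a) (n2 := ndF3q3) (pc := pcF1) (cut := cut_pm_213_a) (xt := Ext.none) (P1 := 0) (W1 := 536870912) (P2 := 0) (W2 := 1230186008) (P3 := 33554432) (W3 := 16777216)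
    rfl rfl rfl k0_pm_213_a

noncomputable def cut_pm_213_b : Cut := Cut.of [[⟨0, 1, 0, 7061502⟩, ⟨1, 1, 0, 7061502⟩, ⟨2, 2, 0, 184626⟩]]

noncomputable def f_pm_213_b : ℕ → ℕ → ℕ → ℕ → Bool := onCell 1239849684 370763052 0 1230186008 33554432 16777216
    (rowFK 0 false true false .pnn 2 1 3 (qsf 1239849684 370763052 0 1230186008 1) ndF1q2b ndF3q3 pcF1 cut_pm_213_b Ext.none)

def k0_pm_213_b : ∃ t, chk3 f_pm_213_b t 1 1 1 = true :=
  ⟨(b (l 3) (b (l 3) (a (b (a (b (l 3) (l 261089165063)) (l 1)) (l 1)) (l 1)))), by decide +kernel⟩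

theorem c_pm_213_b : CertF 1239849684 370763052 0 1230186008 33554432 16777216 false true false .pnn 2 1 3
    ndF1q2b ndF3q3 pcF1 cut_pm_213_b Ext.none :=
  certFK0 (fam := false) (s1 := true) (s2 := false) (a := 2) (b := 1) (c := 3) (cn := .pnn) (n1 := ndF1q2b) (n2 := ndF3q3) (pc := pcF1) (cut := cut_pm_213_b) (xt := Ext.none) (P1 := 1239849684) (W1 := 370763052) (P2 := 0) (W2 := 1230186008) (P3 := 33554432) (W3 := 16777216)
    rfl rfl rfl k0_pm_213_b

noncomputable def f_pm_303 : ℕ → ℕ → ℕ → ℕ → Bool := onCell 1610612736 536870912 0 1230186008 33554432 16777216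
    (rowFK 0 false true false .npn 3 0 3 (qsf 1610612736 536870912 0 1230186008 0) ndF1q3 ndF3q3 pcF0 Cut.none Ext.none)

def k0_pm_303 : ∃ t, chk3 f_pm_303 t 1 1 1 = true :=
  ⟨(b (l 3) (b (l 3) (a (b (l 3) (l 3)) (l 1)))), by decide +kernel⟩

theorem c_pm_303 : CertF 1610612736 536870912 0 1230186008 33554432 16777216 false true false .npn 3 0 3
    ndF1q3 ndF3q3 pcF0 Cut.none Ext.none :=
  certFK0 (fam := false) (s1 := true) (s2 := false) (a := 3) (b := 0) (c := 3) (cn := .npn) (n1 := ndF1q3) (n2 := ndF3q3) (pc := pcF0) (cut := Cut.none) (xt := Ext.none) (P1 := 1610612736) (W1 := 536870912) (P2 := 0) (W2 := 1230186008) (P3 := 33554432) (W3 := 16777216)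
    rfl rfl rfl k0_pm_303

noncomputable def f_pm_313 : ℕ → ℕ → ℕ → ℕ → Bool := onCell 1610612736 536870912 0 1230186008 33554432 16777216
    (rowFK 0 false true false .dn 3 1 3 (qsf 1610612736 536870912 0 1230186008 1) ndF1q3 ndF3q3 pcF1 Cut.none Ext.none)

def k0_pm_313 : ∃ t, chk3 f_pm_313 t 1 1 1 = true :=
  ⟨(b (l 3) (l 1)), by decide +kernel⟩

theorem c_pm_313 : CertF 1610612736 536870912 0 1230186008 33554432 16777216 false true false .dn 3 1 3
    ndF1q3 ndF3q3 pcF1 Cut.none Ext.none :=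
  certFK0 (fam := false) (s1 := true) (s2 := false) (a := 3) (b := 1) (c := 3) (cn := .dn) (n1 := ndF1q3) (n2 := ndF3q3) (pc := pcF1) (cut := Cut.none) (xt := Ext.none) (P1 := 1610612736) (W1 := 536870912) (P2 := 0) (W2 := 1230186008) (P3 := 33554432) (W3 := 16777216)
    rfl rfl rfl k0_pm_313

noncomputable def f_mm_001 : ℕ → ℕ → ℕ → ℕ → Bool := onCell 0 536870912 0 536870912 33554432 16777216
    (rowFK 1 false false false .up 0 0 1 (qsf 0 536870912 536870912 536870912 0) ndF1q0 ndF3q1 pcF0 Cut.none Ext.none)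

def k0_mm_001 : ∃ t, chk3 f_mm_001 t 1 1 1 = true :=
  ⟨(l 3), by decide +kernel⟩

theorem c_mm_001 : CertF 0 536870912 536870912 536870912 33554432 16777216 false false false .up 0 0 1
    ndF1q0 ndF3q1 pcF0 Cut.none Ext.none :=
  certFK1 (fam := false) (s1 := false) (s2 := false) (a := 0) (b := 0) (c := 1) (cn := .up) (n1 := ndF1q0) (n2 := ndF3q1) (pc := pcF0) (cut := Cut.none) (xt := Ext.none) (P1 := 0) (W1 := 536870912) (P2 := 536870912) (W2 := 536870912) (P3 := 33554432) (W3 := 16777216)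
    rfl rfl rfl (fun _ => rfl) k0_mm_001

noncomputable def f_mm_011 : ℕ → ℕ → ℕ → ℕ → Bool := onCell 0 536870912 536870912 536870912 33554432 16777216
    (rowFK 1 false false false .pnn 0 1 1 (qsf 0 536870912 536870912 536870912 1) ndF1q0 ndF3q1 pcF1 Cut.none Ext.none)

def k0_mm_011 : ∃ t, chk3 f_mm_011 t 1 1 1 = true :=
  ⟨(l 5), by decide +kernel⟩

theorem c_mm_011 : CertF 0 536870912 536870912 536870912 33554432 16777216 false false false .pnn 0 1 1
    ndF1q0 ndF3q1 pcF1 Cut.none Ext.none :=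
  certFK1 (fam := false) (s1 := false) (s2 := false) (a := 0) (b := 1) (c := 1) (cn := .pnn) (n1 := ndF1q0) (n2 := ndF3q1) (pc := pcF1) (cut := Cut.none) (xt := Ext.none) (P1 := 0) (W1 := 536870912) (P2 := 536870912) (W2 := 536870912) (P3 := 33554432) (W3 := 16777216)
    rfl rfl rfl (fun _ => rfl) k0_mm_011

noncomputable def f_mm_012 : ℕ → ℕ → ℕ → ℕ → Bool := onCell 0 536870912 1073741824 536870912 33554432 16777216
    (rowFK 0 false false false .pnp 0 1 2 (qsf 0 536870912 1073741824 536870912 1) ndF1q0 ndF3q2 pcF1 Cut.none Ext.none)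

def k0_mm_012 : ∃ t, chk3 f_mm_012 t 1 1 1 = true :=
  ⟨(l 5), by decide +kernel⟩

theorem c_mm_012 : CertF 0 536870912 1073741824 536870912 33554432 16777216 false false false .pnp 0 1 2
    ndF1q0 ndF3q2 pcF1 Cut.none Ext.none :=
  certFK0 (fam := false) (s1 := false) (s2 := false) (a := 0) (b := 1) (c := 2) (cn := .pnp) (n1 := ndF1q0) (n2 := ndF3q2) (pc := pcF1) (cut := Cut.none) (xt := Ext.none) (P1 := 0) (W1 := 536870912) (P2 := 1073741824) (W2 := 536870912) (P3 := 33554432) (W3 := 16777216)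
    rfl rfl rfl k0_mm_012

noncomputable def f_mm_022 : ℕ → ℕ → ℕ → ℕ → Bool := onCell 0 536870912 1073741824 536870912 33554432 16777216
    (rowFK 0 false false false .pp 0 2 2 (qsf 0 536870912 1073741824 536870912 2) ndF1q0 ndF3q2 pcF2 Cut.none Ext.none)

def k0_mm_022 : ∃ t, chk3 f_mm_022 t 1 1 1 = true :=
  ⟨(l 5), by decide +kernel⟩

theorem c_mm_022 : CertF 0 536870912 1073741824 536870912 33554432 16777216 false false false .pp 0 2 2
    ndF1q0 ndF3q2 pcF2 Cut.none Ext.none :=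
  certFK0 (fam := false) (s1 := false) (s2 := false) (a := 0) (b := 2) (c := 2) (cn := .pp) (n1 := ndF1q0) (n2 := ndF3q2) (pc := pcF2) (cut := Cut.none) (xt := Ext.none) (P1 := 0) (W1 := 536870912) (P2 := 1073741824) (W2 := 536870912) (P3 := 33554432) (W3 := 16777216)
    rfl rfl rfl k0_mm_022

noncomputable def f_mm_023 : ℕ → ℕ → ℕ → ℕ → Bool := onCell 0 536870912 0 1230186008 33554432 16777216
    (rowFK 0 false false false .up 0 2 3 (qsf 0 536870912 0 1230186008 2) ndF1q0 ndF3q3 pcF2 Cut.none Ext.none)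

def k0_mm_023 : ∃ t, chk3 f_mm_023 t 1 1 1 = true :=
  ⟨(l 5), by decide +kernel⟩

theorem c_mm_023 : CertF 0 536870912 0 1230186008 33554432 16777216 false false false .up 0 2 3
    ndF1q0 ndF3q3 pcF2 Cut.none Ext.none :=
  certFK0 (fam := false) (s1 := false) (s2 := false) (a := 0) (b := 2) (c := 3) (cn := .up) (n1 := ndF1q0) (n2 := ndF3q3) (pc := pcF2) (cut := Cut.none) (xt := Ext.none) (P1 := 0) (W1 := 536870912) (P2 := 0) (W2 := 1230186008) (P3 := 33554432) (W3 := 16777216)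
    rfl rfl rfl k0_mm_023

noncomputable def f_mm_033 : ℕ → ℕ → ℕ → ℕ → Bool := onCell 0 536870912 0 1230186008 33554432 16777216
    (rowFK 0 false false false .pnn 0 3 3 (qsf 0 536870912 0 1230186008 3) ndF1q0 ndF3q3 pcF3 Cut.none Ext.none)

def k0_mm_033 : ∃ t, chk3 f_mm_033 t 1 1 1 = true :=
  ⟨(l 5), by decide +kernel⟩

theorem c_mm_033 : CertF 0 536870912 0 1230186008 33554432 16777216 false false false .pnn 0 3 3
    ndF1q0 ndF3q3 pcF3 Cut.none Ext.none :=
  certFK0 (fam := false) (s1 := false) (s2 := false) (a := 0) (b := 3) (c := 3) (cn := .pnn) (n1 := ndF1q0) (n2 := ndF3q3) (pc := pcF3) (cut := Cut.none) (xt := Ext.none) (P1 := 0) (W1 := 536870912) (P2 := 0) (W2 := 1230186008) (P3 := 33554432) (W3 := 16777216)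
    rfl rfl rfl k0_mm_033

noncomputable def f_mm_101 : ℕ → ℕ → ℕ → ℕ → Bool := onCell 536870912 536870912 536870912 536870912 33554432 16777216
    (rowFK 0 false false false .npn 1 0 1 (qsf 536870912 536870912 536870912 536870912 0) ndF1q1 ndF3q1 pcF0 Cut.none Ext.none)

def k0_mm_101 : ∃ t, chk3 f_mm_101 t 1 1 1 = true :=
  ⟨(l 3), by decide +kernel⟩

theorem c_mm_101 : CertF 536870912 536870912 536870912 536870912 33554432 16777216 false false false .npn 1 0 1
    ndF1q1 ndF3q1 pcF0 Cut.none Ext.none :=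
  certFK0 (fam := false) (s1 := false) (s2 := false) (a := 1) (b := 0) (c := 1) (cn := .npn) (n1 := ndF1q1) (n2 := ndF3q1) (pc := pcF0) (cut := Cut.none) (xt := Ext.none) (P1 := 536870912) (W1 := 536870912) (P2 := 536870912) (W2 := 536870912) (P3 := 33554432) (W3 := 16777216)
    rfl rfl rfl k0_mm_101

noncomputable def f_mm_102 : ℕ → ℕ → ℕ → ℕ → Bool := onCell 536870912 536870912 0 536870912 33554432 16777216
    (rowFK 1 false false false .npp 1 0 2 (qsf 536870912 536870912 1073741824 536870912 0) ndF1q1 ndF3q2 pcF0 Cut.none Ext.none)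

def k0_mm_102 : ∃ t, chk3 f_mm_102 t 1 1 1 = true :=
  ⟨(l 3), by decide +kernel⟩

theorem c_mm_102 : CertF 536870912 536870912 1073741824 536870912 33554432 16777216 false false false .npp 1 0 2
    ndF1q1 ndF3q2 pcF0 Cut.none Ext.none :=
  certFK1 (fam := false) (s1 := false) (s2 := false) (a := 1) (b := 0) (c := 2) (cn := .npp) (n1 := ndF1q1) (n2 := ndF3q2) (pc := pcF0) (cut := Cut.none) (xt := Ext.none) (P1 := 536870912) (W1 := 536870912) (P2 := 1073741824) (W2 := 536870912) (P3 := 33554432) (W3 := 16777216)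
    rfl rfl rfl (fun _ => rfl) k0_mm_102

noncomputable def f_mm_112 : ℕ → ℕ → ℕ → ℕ → Bool := onCell 536870912 536870912 536870912 536870912 33554432 16777216
    (rowFK 1 false false false .dn 1 1 2 (qsf 536870912 536870912 1073741824 536870912 1) ndF1q1 ndF3q2 pcF1 Cut.none Ext.none)

def k0_mm_112 : ∃ t, chk3 f_mm_112 t 1 1 1 = true :=
  ⟨(l 5), by decide +kernel⟩

theorem c_mm_112 : CertF 536870912 536870912 1073741824 536870912 33554432 16777216 false false false .dn 1 1 2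
    ndF1q1 ndF3q2 pcF1 Cut.none Ext.none :=
  certFK1 (fam := false) (s1 := false) (s2 := false) (a := 1) (b := 1) (c := 2) (cn := .dn) (n1 := ndF1q1) (n2 := ndF3q2) (pc := pcF1) (cut := Cut.none) (xt := Ext.none) (P1 := 536870912) (W1 := 536870912) (P2 := 1073741824) (W2 := 536870912) (P3 := 33554432) (W3 := 16777216)
    rfl rfl rfl (fun _ => rfl) k0_mm_112

noncomputable def f_mm_113 : ℕ → ℕ → ℕ → ℕ → Bool := onCell 536870912 536870912 0 1230186008 33554432 16777216
    (rowFK 0 false false false .nn 1 1 3 (qsf 536870912 536870912 0 1230186008 1) ndF1q1 ndF3q3 pcF1 Cut.none Ext.none)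

def k0_mm_113 : ∃ t, chk3 f_mm_113 t 1 1 1 = true :=
  ⟨(l 5), by decide +kernel⟩

theorem c_mm_113 : CertF 536870912 536870912 0 1230186008 33554432 16777216 false false false .nn 1 1 3
    ndF1q1 ndF3q3 pcF1 Cut.none Ext.none :=
  certFK0 (fam := false) (s1 := false) (s2 := false) (a := 1) (b := 1) (c := 3) (cn := .nn) (n1 := ndF1q1) (n2 := ndF3q3) (pc := pcF1) (cut := Cut.none) (xt := Ext.none) (P1 := 536870912) (W1 := 536870912) (P2 := 0) (W2 := 1230186008) (P3 := 33554432) (W3 := 16777216)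
    rfl rfl rfl k0_mm_113

noncomputable def f_mm_123 : ℕ → ℕ → ℕ → ℕ → Bool := onCell 536870912 536870912 0 1230186008 33554432 16777216
    (rowFK 0 false false false .npn 1 2 3 (qsf 536870912 536870912 0 1230186008 2) ndF1q1 ndF3q3 pcF2 Cut.none Ext.none)

def k0_mm_123 : ∃ t, chk3 f_mm_123 t 1 1 1 = true :=
  ⟨(l 5), by decide +kernel⟩

theorem c_mm_123 : CertF 536870912 536870912 0 1230186008 33554432 16777216 false false false .npn 1 2 3
    ndF1q1 ndF3q3 pcF2 Cut.none Ext.none :=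
  certFK0 (fam := false) (s1 := false) (s2 := false) (a := 1) (b := 2) (c := 3) (cn := .npn) (n1 := ndF1q1) (n2 := ndF3q3) (pc := pcF2) (cut := Cut.none) (xt := Ext.none) (P1 := 536870912) (W1 := 536870912) (P2 := 0) (W2 := 1230186008) (P3 := 33554432) (W3 := 16777216)
    rfl rfl rfl k0_mm_123

noncomputable def f_mm_133 : ℕ → ℕ → ℕ → ℕ → Bool := onCell 536870912 536870912 0 1230186008 33554432 16777216
    (rowFK 0 false false false .dn 1 3 3 (qsf 536870912 536870912 0 1230186008 3) ndF1q1 ndF3q3 pcF3 Cut.none Ext.none)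

def k0_mm_133 : ∃ t, chk3 f_mm_133 t 1 1 1 = true :=
  ⟨(l 5), by decide +kernel⟩

theorem c_mm_133 : CertF 536870912 536870912 0 1230186008 33554432 16777216 false false false .dn 1 3 3
    ndF1q1 ndF3q3 pcF3 Cut.none Ext.none :=
  certFK0 (fam := false) (s1 := false) (s2 := false) (a := 1) (b := 3) (c := 3) (cn := .dn) (n1 := ndF1q1) (n2 := ndF3q3) (pc := pcF3) (cut := Cut.none) (xt := Ext.none) (P1 := 536870912) (W1 := 536870912) (P2 := 0) (W2 := 1230186008) (P3 := 33554432) (W3 := 16777216)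
    rfl rfl rfl k0_mm_133

noncomputable def f_mm_202_a : ℕ → ℕ → ℕ → ℕ → Bool := onCell 0 536870912 1073741824 536870912 33554432 16777216
    (rowFK 0 false false false .pp 2 0 2 (qsf 0 536870912 1073741824 536870912 0) ndF1q2a ndF3q2 pcF0 Cut.none Ext.none)

def k0_mm_202_a : ∃ t, chk3 f_mm_202_a t 1 1 1 = true :=
  ⟨(l 3), by decide +kernel⟩

theorem c_mm_202_a : CertF 0 536870912 1073741824 536870912 33554432 16777216 false false false .pp 2 0 2
    ndF1q2a ndF3q2 pcF0 Cut.none Ext.none :=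
  certFK0 (fam := false) (s1 := false) (s2 := false) (a := 2) (b := 0) (c := 2) (cn := .pp) (n1 := ndF1q2a) (n2 := ndF3q2) (pc := pcF0) (cut := Cut.none) (xt := Ext.none) (P1 := 0) (W1 := 536870912) (P2 := 1073741824) (W2 := 536870912) (P3 := 33554432) (W3 := 16777216)
    rfl rfl rfl k0_mm_202_a

noncomputable def f_mm_202_b : ℕ → ℕ → ℕ → ℕ → Bool := onCell 1239849684 370763052 1073741824 536870912 33554432 16777216
    (rowFK 0 false false false .pp 2 0 2 (qsf 1239849684 370763052 1073741824 536870912 0) ndF1q2b ndF3q2 pcF0 Cut.none Ext.none)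

def k0_mm_202_b : ∃ t, chk3 f_mm_202_b t 1 1 1 = true :=
  ⟨(l 3), by decide +kernel⟩

theorem c_mm_202_b : CertF 1239849684 370763052 1073741824 536870912 33554432 16777216 false false false .pp 2 0 2
    ndF1q2b ndF3q2 pcF0 Cut.none Ext.none :=
  certFK0 (fam := false) (s1 := false) (s2 := false) (a := 2) (b := 0) (c := 2) (cn := .pp) (n1 := ndF1q2b) (n2 := ndF3q2) (pc := pcF0) (cut := Cut.none) (xt := Ext.none) (P1 := 1239849684) (W1 := 370763052) (P2 := 1073741824) (W2 := 536870912) (P3 := 33554432) (W3 := 16777216)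
    rfl rfl rfl k0_mm_202_b

noncomputable def f_mm_203_a : ℕ → ℕ → ℕ → ℕ → Bool := onCell 0 536870912 0 1230186008 33554432 16777216
    (rowFK 0 false false false .up 2 0 3 (qsf 0 536870912 0 1230186008 0) ndF1q2a ndF3q3 pcF0 Cut.none Ext.none)

def k0_mm_203_a : ∃ t, chk3 f_mm_203_a t 1 1 1 = true :=
  ⟨(b (l 2) (l 3)), by decide +kernel⟩

theorem c_mm_203_a : CertF 0 536870912 0 1230186008 33554432 16777216 false false false .up 2 0 3
    ndF1q2a ndF3q3 pcF0 Cut.none Ext.none :=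
  certFK0 (fam := false) (s1 := false) (s2 := false) (a := 2) (b := 0) (c := 3) (cn := .up) (n1 := ndF1q2a) (n2 := ndF3q3) (pc := pcF0) (cut := Cut.none) (xt := Ext.none) (P1 := 0) (W1 := 536870912) (P2 := 0) (W2 := 1230186008) (P3 := 33554432) (W3 := 16777216)
    rfl rfl rfl k0_mm_203_a

noncomputable def f_mm_203_b : ℕ → ℕ → ℕ → ℕ → Bool := onCell 1239849684 370763052 0 1230186008 33554432 16777216
    (rowFK 0 false false false .up 2 0 3 (qsf 1239849684 370763052 0 1230186008 0) ndF1q2b ndF3q3 pcF0 Cut.none Ext.none)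

def k0_mm_203_b : ∃ t, chk3 f_mm_203_b t 1 1 1 = true :=
  ⟨(b (l 3) (l 3)), by decide +kernel⟩

theorem c_mm_203_b : CertF 1239849684 370763052 0 1230186008 33554432 16777216 false false false .up 2 0 3
    ndF1q2b ndF3q3 pcF0 Cut.none Ext.none :=
  certFK0 (fam := false) (s1 := false) (s2 := false) (a := 2) (b := 0) (c := 3) (cn := .up) (n1 := ndF1q2b) (n2 := ndF3q3) (pc := pcF0) (cut := Cut.none) (xt := Ext.none) (P1 := 1239849684) (W1 := 370763052) (P2 := 0) (W2 := 1230186008) (P3 := 33554432) (W3 := 16777216)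
    rfl rfl rfl k0_mm_203_b

noncomputable def f_mm_213_a : ℕ → ℕ → ℕ → ℕ → Bool := onCell 0 536870912 0 1230186008 33554432 16777216
    (rowFK 0 false false false .pnn 2 1 3 (qsf 0 536870912 0 1230186008 1) ndF1q2a ndF3q3 pcF1 Cut.none Ext.none)

def k0_mm_213_a : ∃ t, chk3 f_mm_213_a t 1 1 1 = true :=
  ⟨(b (a (l 3) (l 5)) (l 3)), by decide +kernel⟩

theorem c_mm_213_a : CertF 0 536870912 0 1230186008 33554432 16777216 false false false .pnn 2 1 3
    ndF1q2a ndF3q3 pcF1 Cut.none Ext.none :=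
  certFK0 (fam := false) (s1 := false) (s2 := false) (a := 2) (b := 1) (c := 3) (cn := .pnn) (n1 := ndF1q2a) (n2 := ndF3q3) (pc := pcF1) (cut := Cut.none) (xt := Ext.none) (P1 := 0) (W1 := 536870912) (P2 := 0) (W2 := 1230186008) (P3 := 33554432) (W3 := 16777216)
    rfl rfl rfl k0_mm_213_a

noncomputable def f_mm_213_b : ℕ → ℕ → ℕ → ℕ → Bool := onCell 1239849684 370763052 0 1230186008 33554432 16777216
    (rowFK 0 false false false .pnn 2 1 3 (qsf 1239849684 370763052 0 1230186008 1) ndF1q2b ndF3q3 pcF1 Cut.none Ext.none)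

def k0_mm_213_b : ∃ t, chk3 f_mm_213_b t 1 1 1 = true :=
  ⟨(b (l 3) (l 3)), by decide +kernel⟩

theorem c_mm_213_b : CertF 1239849684 370763052 0 1230186008 33554432 16777216 false false false .pnn 2 1 3
    ndF1q2b ndF3q3 pcF1 Cut.none Ext.none :=
  certFK0 (fam := false) (s1 := false) (s2 := false) (a := 2) (b := 1) (c := 3) (cn := .pnn) (n1 := ndF1q2b) (n2 := ndF3q3) (pc := pcF1) (cut := Cut.none) (xt := Ext.none) (P1 := 1239849684) (W1 := 370763052) (P2 := 0) (W2 := 1230186008) (P3 := 33554432) (W3 := 16777216)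
    rfl rfl rfl k0_mm_213_b

noncomputable def f_mm_303 : ℕ → ℕ → ℕ → ℕ → Bool := onCell 1610612736 536870912 0 1230186008 33554432 16777216
    (rowFK 0 false false false .npn 3 0 3 (qsf 1610612736 536870912 0 1230186008 0) ndF1q3 ndF3q3 pcF0 Cut.none Ext.none)

def k0_mm_303 : ∃ t, chk3 f_mm_303 t 1 1 1 = true :=
  ⟨(b (l 3) (l 3)), by decide +kernel⟩

theorem c_mm_303 : CertF 1610612736 536870912 0 1230186008 33554432 16777216 false false false .npn 3 0 3
    ndF1q3 ndF3q3 pcF0 Cut.none Ext.none :=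
  certFK0 (fam := false) (s1 := false) (s2 := false) (a := 3) (b := 0) (c := 3) (cn := .npn) (n1 := ndF1q3) (n2 := ndF3q3) (pc := pcF0) (cut := Cut.none) (xt := Ext.none) (P1 := 1610612736) (W1 := 536870912) (P2 := 0) (W2 := 1230186008) (P3 := 33554432) (W3 := 16777216)
    rfl rfl rfl k0_mm_303

noncomputable def f_mm_313 : ℕ → ℕ → ℕ → ℕ → Bool := onCell 1610612736 536870912 0 1230186008 33554432 16777216
    (rowFK 0 false false false .dn 3 1 3 (qsf 1610612736 536870912 0 1230186008 1) ndF1q3 ndF3q3 pcF1 Cut.none Ext.none)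

def k0_mm_313 : ∃ t, chk3 f_mm_313 t 1 1 1 = true :=
  ⟨(b (l 3) (l 1)), by decide +kernel⟩

theorem c_mm_313 : CertF 1610612736 536870912 0 1230186008 33554432 16777216 false false false .dn 3 1 3
    ndF1q3 ndF3q3 pcF1 Cut.none Ext.none :=
  certFK0 (fam := false) (s1 := false) (s2 := false) (a := 3) (b := 1) (c := 3) (cn := .dn) (n1 := ndF1q3) (n2 := ndF3q3) (pc := pcF1) (cut := Cut.none) (xt := Ext.none) (P1 := 1610612736) (W1 := 536870912) (P2 := 0) (W2 := 1230186008) (P3 := 33554432) (W3 := 16777216)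
    rfl rfl rfl k0_mm_313

end Pool.Agent.Strip051.G.I1_32_3_64.Tab.C.FB13

namespace Pool.Agent.Strip051.G.I1_32_3_64.Tab.C.FB14

open Pool.Agent.Strip051.PB Pool.Agent.Strip051.PB.T
open Pool.Agent.Strip051.G.I1_32_3_64.Tab

noncomputable def f_pp_001 : ℕ → ℕ → ℕ → ℕ → Bool := onCell 0 536870912 0 536870912 33554432 16777216
    (rowFK 1 false true true .up 0 0 1 (qsf 0 536870912 536870912 536870912 0) ndF1q0 ndF4q1 pcF0 Cut.none Ext.none)

def k0_pp_001 : ∃ t, chk3 f_pp_001 t 1 1 1 = true :=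
  ⟨(l 3), by decide +kernel⟩

theorem c_pp_001 : CertF 0 536870912 536870912 536870912 33554432 16777216 false true true .up 0 0 1
    ndF1q0 ndF4q1 pcF0 Cut.none Ext.none :=
  certFK1 (fam := false) (s1 := true) (s2 := true) (a := 0) (b := 0) (c := 1) (cn := .up) (n1 := ndF1q0) (n2 := ndF4q1) (pc := pcF0) (cut := Cut.none) (xt := Ext.none) (P1 := 0) (W1 := 536870912) (P2 := 536870912) (W2 := 536870912) (P3 := 33554432) (W3 := 16777216)
    rfl rfl rfl (fun _ => rfl) k0_pp_001

noncomputable def cut_pp_011 : Cut := Cut.of [[⟨0, 0, 0, 33554432⟩, ⟨1, 1, 0, 33554432⟩, ⟨2, 1, 0, 33554432⟩]]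

noncomputable def f_pp_011 : ℕ → ℕ → ℕ → ℕ → Bool := onCell 0 536870912 536870912 536870912 33554432 16777216
    (rowFK 1 false true true .pnn 0 1 1 (qsf 0 536870912 536870912 536870912 1) ndF1q0 ndF4q1 pcF1 cut_pp_011 Ext.none)

def k0_pp_011 : ∃ t, chk3 f_pp_011 t 1 1 1 = true :=
  ⟨(b (l 3) (b (l 3) (a (b (l 3) (a (b (l 3) (b (l 3) (a (a (a (l 6) (l 3)) (l 2)) (l 2)))) (l 2))) (l 2)))), by decide +kernel⟩

theorem c_pp_011 : CertF 0 536870912 536870912 536870912 33554432 16777216 false true true .pnn 0 1 1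
    ndF1q0 ndF4q1 pcF1 cut_pp_011 Ext.none :=
  certFK1 (fam := false) (s1 := true) (s2 := true) (a := 0) (b := 1) (c := 1) (cn := .pnn) (n1 := ndF1q0) (n2 := ndF4q1) (pc := pcF1) (cut := cut_pp_011) (xt := Ext.none) (P1 := 0) (W1 := 536870912) (P2 := 536870912) (W2 := 536870912) (P3 := 33554432) (W3 := 16777216)
    rfl rfl rfl (fun _ => rfl) k0_pp_011

noncomputable def cut_pp_012 : Cut := Cut.of [[⟨0, 0, 0, 33554432⟩, ⟨1, 1, 0, 33554432⟩, ⟨2, 1, 0, 33554432⟩]]

noncomputable def f_pp_012 : ℕ → ℕ → ℕ → ℕ → Bool := onCell 0 536870912 536870912 536870912 33554432 16777216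
    (rowFK 1 false true true .pnp 0 1 2 (qsf 0 536870912 1073741824 536870912 1) ndF1q0 ndF4q2 pcF1 cut_pp_012 Ext.none)

def k0_pp_012 : ∃ t, chk3 f_pp_012 t 1 1 1 = true :=
  ⟨(b (l 3) (a (b (l 3) (b (l 3) (a (b (l 3) (a (a (a (b (l 3) (l 6)) (l 3)) (l 3)) (l 3))) (l 3)))) (l 3))), by decide +kernel⟩

theorem c_pp_012 : CertF 0 536870912 1073741824 536870912 33554432 16777216 false true true .pnp 0 1 2
    ndF1q0 ndF4q2 pcF1 cut_pp_012 Ext.none :=
  certFK1 (fam := false) (s1 := true) (s2 := true) (a := 0) (b := 1) (c := 2) (cn := .pnp) (n1 := ndF1q0) (n2 := ndF4q2) (pc := pcF1) (cut := cut_pp_012) (xt := Ext.none) (P1 := 0) (W1 := 536870912) (P2 := 1073741824) (W2 := 536870912) (P3 := 33554432) (W3 := 16777216)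
    rfl rfl rfl (fun _ => rfl) k0_pp_012

noncomputable def cut_pp_022 : Cut := Cut.of [[⟨0, 0, 0, 33554432⟩, ⟨1, 1, 0, 33554432⟩, ⟨2, 1, 0, 33554432⟩]]

noncomputable def f_pp_022 : ℕ → ℕ → ℕ → ℕ → Bool := onCell 0 536870912 1073741824 536870912 33554432 16777216
    (rowFK 1 false true true .pp 0 2 2 (qsf 0 536870912 1073741824 536870912 2) ndF1q0 ndF4q2 pcF2 cut_pp_022 Ext.none)

def k0_pp_022 : ∃ t, chk3 f_pp_022 t 2 1 1 = true :=
  ⟨(b (a (b (b (a (b (a (a (b (b (l 6) (a (l 6) (a (l 6) (l 16781552)))) (b (a (a (l 6) (b (l 6) (l 16753280))) (a (l 16764368) (l 16771128))) (a (a (a (b (l 6) (l 16735184)) (l 16747872)) (l 16754328)) (l 16766728)))) (b (l 3) (a (l 16837336) (l 16970152)))) (l 3)) (a (b (a (a (a (a (a (a (a (l 16727720) (a (l 16744360) (l 16756952))) (l 16727312)) (l 16730696)) (b (l 16725128) (l 17082456))) (b (l 16861216) (l 17252376))) (b (a (l 17099824) (l 17225376)) (l 17516232))) (a (l 17366008) (l 17438504))) (a (a (b (a (c (l 17941152)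 (a (b (l 17230384) (l 17499160)) (l 17461432))) (l 17795200)) (a (l 17937304) (l 18105528))) (b (l 17841240) (l 18093872))) (a (l 17931184) (l 17857536)))) (a (b (l 17246760) (l 17727408)) (l 17243552)))) (b (l 3) (a (l 16986344) (l 3)))) (a (b (a (a (b (a (l 18368744) (l 18397160)) (l 18758608)) (b (l 18243944) (l 18511480))) (b (l 17943640) (l 18190816))) (a (b (l 18845104) (l 19006600)) (b (l 18387952) (l 18545104)))) (b (a (l 17993072) (l 17558880)) (b (l 17973200) (l 18142640))))) (b (b (b (a (a (l 19128232) (l 18672832)) (l 18248760)) (a (l 18979552) (b (l 18317352) (l 18513856)))) (a (l 19083288) (l 18476376))) (a (l 19175280) (l 18646568)))) (b (b (l 3) (b (l 3) (a (l 17794312) (l 3)))) (b (b (b (l 17935464) (b (l 17982184) (b (l 17999648) (l 18022048)))) (l 18119176)) (l 18312272)))) (a (b (a (b (l 19168160) (l 19063576)) (l 18755240)) (a (l 19122888) (l 18807984))) (b (b (l 18473648) (l 18577016)) (a (l 18711968) (l 2))))), by decide +kernel⟩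

def k1_pp_022 : ∃ t, chk3 f_pp_022 t 3 1 1 = true :=
  ⟨(b (a (b (l 3) (b (b (b (l 3) (b (l 17964144) (l 18018984))) (l 18057096)) (l 18218960))) (b (l 3) (b (b (b (l 17951232) (l 2)) (l 2)) (l 2)))) (a (b (b (l 18374272) (l 2)) (l 2)) (l 2))), by decide +kernel⟩

theorem s2_pp_022 : ∃ t, chk3 f_pp_022 t 1 1 1 = true := ex3_a k0_pp_022 k1_pp_022

theorem c_pp_022 : CertF 0 536870912 1073741824 536870912 33554432 16777216 false true true .pp 0 2 2
    ndF1q0 ndF4q2 pcF2 cut_pp_022 Ext.none :=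
  certFK1 (fam := false) (s1 := true) (s2 := true) (a := 0) (b := 2) (c := 2) (cn := .pp) (n1 := ndF1q0) (n2 := ndF4q2) (pc := pcF2) (cut := cut_pp_022) (xt := Ext.none) (P1 := 0) (W1 := 536870912) (P2 := 1073741824) (W2 := 536870912) (P3 := 33554432) (W3 := 16777216)
    rfl rfl rfl (fun _ => rfl) s2_pp_022

noncomputable def f_pp_023 : ℕ → ℕ → ℕ → ℕ → Bool := onCell 1073741824 536870912 0 1230186008 33554432 16777216
    (rowFK 2 false true true .up 0 2 3 (qsf 0 536870912 0 1230186008 2) ndF1q0 ndF4q3 pcF2 Cut.none Ext.none)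

def k0_pp_023 : ∃ t, chk3 f_pp_023 t 1 1 1 = true :=
  ⟨(a (b (l 2) (b (a (l 2) (a (l 2) (l 18336824))) (b (a (l 2) (a (a (a (l 17978544) (a (l 18046248) (l 18085760))) (l 18131784)) (l 18231568))) (a (l 3) (a (a (a (l 3) (a (l 17986728) (l 18010712))) (l 18068480)) (l 18203184)))))) (b (a (l 2) (b (l 18481592) (l 18552448))) (b (l 18490432) (b (l 18503472) (l 18567472))))), by decide +kernel⟩

theorem c_pp_023 : CertF 0 536870912 0 1230186008 33554432 16777216 false true true .up 0 2 3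
    ndF1q0 ndF4q3 pcF2 Cut.none Ext.none :=
  certFK2 (fam := false) (s1 := true) (s2 := true) (a := 0) (b := 2) (c := 3) (cn := .up) (n1 := ndF1q0) (n2 := ndF4q3) (pc := pcF2) (cut := Cut.none) (xt := Ext.none) (P1 := 0) (W1 := 536870912) (P2 := 0) (W2 := 1230186008) (P3 := 33554432) (W3 := 16777216)
    rfl rfl rfl (fun _ => rfl) k0_pp_023

noncomputable def f_pp_033 : ℕ → ℕ → ℕ → ℕ → Bool := onCell 0 536870912 0 1230186008 33554432 16777216
    (rowFK 0 false true true .pnn 0 3 3 (qsf 0 536870912 0 1230186008 3) ndF1q0 ndF4q3 pcF3 Cut.none Ext.none)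

def k0_pp_033 : ∃ t, chk3 f_pp_033 t 1 1 1 = true :=
  ⟨(a (b (a (b (l 4) (b (a (l 4) (l 18218752)) (a (l 18294232) (l 18385472)))) (b (l 92580004551) (b (l 18128160) (l 18498728)))) (b (a (a (b (l 18490264) (b (l 18749640) (l 18383976))) (b (l 18474256) (l 18715808))) (b (l 18617904) (b (l 18904856) (l 18301216)))) (b (b (a (a (l 18025240) (l 17867648)) (l 17752200)) (l 18201040)) (a (l 19071248) (l 18516440))))) (b (b (a (l 18103688) (l 17993688)) (a (b (l 18159048) (l 18091568)) (b (l 17802472) (l 18035800)))) (b (a (b (b (l 18473320) (l 18735568)) (b (l 18664568) (l 18083272))) (b (l 725349427303) (l 1))) (l 1)))), by decide +kernel⟩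

theorem c_pp_033 : CertF 0 536870912 0 1230186008 33554432 16777216 false true true .pnn 0 3 3
    ndF1q0 ndF4q3 pcF3 Cut.none Ext.none :=
  certFK0 (fam := false) (s1 := true) (s2 := true) (a := 0) (b := 3) (c := 3) (cn := .pnn) (n1 := ndF1q0) (n2 := ndF4q3) (pc := pcF3) (cut := Cut.none) (xt := Ext.none) (P1 := 0) (W1 := 536870912) (P2 := 0) (W2 := 1230186008) (P3 := 33554432) (W3 := 16777216)
    rfl rfl rfl k0_pp_033

noncomputable def f_pp_101 : ℕ → ℕ → ℕ → ℕ → Bool := onCell 536870912 536870912 536870912 536870912 33554432 16777216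
    (rowFK 0 false true true .npn 1 0 1 (qsf 536870912 536870912 536870912 536870912 0) ndF1q1 ndF4q1 pcF0 Cut.none Ext.none)

def k0_pp_101 : ∃ t, chk3 f_pp_101 t 1 1 1 = true :=
  ⟨(l 3), by decide +kernel⟩

theorem c_pp_101 : CertF 536870912 536870912 536870912 536870912 33554432 16777216 false true true .npn 1 0 1
    ndF1q1 ndF4q1 pcF0 Cut.none Ext.none :=
  certFK0 (fam := false) (s1 := true) (s2 := true) (a := 1) (b := 0) (c := 1) (cn := .npn) (n1 := ndF1q1) (n2 := ndF4q1) (pc := pcF0) (cut := Cut.none) (xt := Ext.none) (P1 := 536870912) (W1 := 536870912) (P2 := 536870912) (W2 := 536870912) (P3 := 33554432) (W3 := 16777216)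
    rfl rfl rfl k0_pp_101

noncomputable def f_pp_102 : ℕ → ℕ → ℕ → ℕ → Bool := onCell 536870912 536870912 1073741824 536870912 33554432 16777216
    (rowFK 0 false true true .npp 1 0 2 (qsf 536870912 536870912 1073741824 536870912 0) ndF1q1 ndF4q2 pcF0 Cut.none Ext.none)

def k0_pp_102 : ∃ t, chk3 f_pp_102 t 1 1 1 = true :=
  ⟨(l 3), by decide +kernel⟩

theorem c_pp_102 : CertF 536870912 536870912 1073741824 536870912 33554432 16777216 false true true .npp 1 0 2
    ndF1q1 ndF4q2 pcF0 Cut.none Ext.none :=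
  certFK0 (fam := false) (s1 := true) (s2 := true) (a := 1) (b := 0) (c := 2) (cn := .npp) (n1 := ndF1q1) (n2 := ndF4q2) (pc := pcF0) (cut := Cut.none) (xt := Ext.none) (P1 := 536870912) (W1 := 536870912) (P2 := 1073741824) (W2 := 536870912) (P3 := 33554432) (W3 := 16777216)
    rfl rfl rfl k0_pp_102

noncomputable def f_pp_112 : ℕ → ℕ → ℕ → ℕ → Bool := onCell 536870912 536870912 1073741824 536870912 33554432 16777216
    (rowFK 0 false true true .dn 1 1 2 (qsf 536870912 536870912 1073741824 536870912 1) ndF1q1 ndF4q2 pcF1 Cut.none Ext.none)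

def k0_pp_112 : ∃ t, chk3 f_pp_112 t 1 1 1 = true :=
  ⟨(l 3), by decide +kernel⟩

theorem c_pp_112 : CertF 536870912 536870912 1073741824 536870912 33554432 16777216 false true true .dn 1 1 2
    ndF1q1 ndF4q2 pcF1 Cut.none Ext.none :=
  certFK0 (fam := false) (s1 := true) (s2 := true) (a := 1) (b := 1) (c := 2) (cn := .dn) (n1 := ndF1q1) (n2 := ndF4q2) (pc := pcF1) (cut := Cut.none) (xt := Ext.none) (P1 := 536870912) (W1 := 536870912) (P2 := 1073741824) (W2 := 536870912) (P3 := 33554432) (W3 := 16777216)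
    rfl rfl rfl k0_pp_112

noncomputable def f_pp_113 : ℕ → ℕ → ℕ → ℕ → Bool := onCell 536870912 536870912 0 1230186008 33554432 16777216
    (rowFK 2 false true true .nn 1 1 3 (qsf 536870912 536870912 0 1230186008 1) ndF1q1 ndF4q3 pcF1 Cut.none Ext.none)

def k0_pp_113 : ∃ t, chk3 f_pp_113 t 1 1 1 = true :=
  ⟨(a (b (l 2) (l 3)) (b (a (l 2) (b (a (l 2) (a (l 2) (a (l 16795064) (a (l 16794832) (l 16795752))))) (a (l 316923106023) (l 17085944)))) (b (a (l 3) (b (l 3) (l 3))) (l 3)))), by decide +kernel⟩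

theorem c_pp_113 : CertF 536870912 536870912 0 1230186008 33554432 16777216 false true true .nn 1 1 3
    ndF1q1 ndF4q3 pcF1 Cut.none Ext.none :=
  certFK2 (fam := false) (s1 := true) (s2 := true) (a := 1) (b := 1) (c := 3) (cn := .nn) (n1 := ndF1q1) (n2 := ndF4q3) (pc := pcF1) (cut := Cut.none) (xt := Ext.none) (P1 := 536870912) (W1 := 536870912) (P2 := 0) (W2 := 1230186008) (P3 := 33554432) (W3 := 16777216)
    rfl rfl rfl (fun _ => rfl) k0_pp_113

noncomputable def f_pp_123 : ℕ → ℕ → ℕ → ℕ → Bool := onCell 1073741824 536870912 0 1230186008 33554432 16777216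
    (rowFK 2 false true true .npn 1 2 3 (qsf 536870912 536870912 0 1230186008 2) ndF1q1 ndF4q3 pcF2 Cut.none Ext.none)

def k0_pp_123 : ∃ t, chk3 f_pp_123 t 1 1 1 = true :=
  ⟨(b (b (a (a (a (a (a (a (l 16977648) (l 16977912)) (l 16978512)) (l 16974800)) (l 16963504)) (l 16925736)) (a (l 16840776) (l 17053848))) (a (a (a (a (a (a (l 16993344) (l 16994800)) (l 16997280)) (l 16992408)) (l 16980024)) (l 16947184)) (b (l 17145264) (l 16977640)))) (b (a (a (a (a (a (a (l 376516195847) (l 392622305303)) (l 355578190999)) (l 340545764231)) (b (l 17300480) (l 17469240))) (b (l 17217256) (a (a (a (l 17449304) (a (l 17423496) (l 17415296))) (l 17397904)) (l 17352064)))) (l 401614365463)) (a (b (a (a (l 3) (l 17984600)) (a (a (a (l 17732080) (l 311421064871)) (l 17665944)) (l 17606632))) (a (l 3) (a (a (a (l 3) (l 1)) (l 1)) (l 1)))) (l 1)))), by decide +kernel⟩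

theorem c_pp_123 : CertF 536870912 536870912 0 1230186008 33554432 16777216 false true true .npn 1 2 3
    ndF1q1 ndF4q3 pcF2 Cut.none Ext.none :=
  certFK2 (fam := false) (s1 := true) (s2 := true) (a := 1) (b := 2) (c := 3) (cn := .npn) (n1 := ndF1q1) (n2 := ndF4q3) (pc := pcF2) (cut := Cut.none) (xt := Ext.none) (P1 := 536870912) (W1 := 536870912) (P2 := 0) (W2 := 1230186008) (P3 := 33554432) (W3 := 16777216)
    rfl rfl rfl (fun _ => rfl) k0_pp_123

noncomputable def f_pp_133 : ℕ → ℕ → ℕ → ℕ → Bool := onCell 1610612736 536870912 0 1230186008 33554432 16777216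
    (rowFK 2 false true true .dn 1 3 3 (qsf 536870912 536870912 0 1230186008 3) ndF1q1 ndF4q3 pcF3 Cut.none Ext.none)

def k0_pp_133 : ∃ t, chk3 f_pp_133 t 1 1 1 = true :=
  ⟨(b (a (a (b (l 17574808) (l 1)) (l 1)) (l 1)) (l 1)), by decide +kernel⟩

theorem c_pp_133 : CertF 536870912 536870912 0 1230186008 33554432 16777216 false true true .dn 1 3 3
    ndF1q1 ndF4q3 pcF3 Cut.none Ext.none :=
  certFK2 (fam := false) (s1 := true) (s2 := true) (a := 1) (b := 3) (c := 3) (cn := .dn) (n1 := ndF1q1) (n2 := ndF4q3) (pc := pcF3) (cut := Cut.none) (xt := Ext.none) (P1 := 536870912) (W1 := 536870912) (P2 := 0) (W2 := 1230186008) (P3 := 33554432) (W3 := 16777216)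
    rfl rfl rfl (fun _ => rfl) k0_pp_133

noncomputable def f_pp_202_a : ℕ → ℕ → ℕ → ℕ → Bool := onCell 0 536870912 1073741824 536870912 33554432 16777216
    (rowFK 0 false true true .pp 2 0 2 (qsf 0 536870912 1073741824 536870912 0) ndF1q2a ndF4q2 pcF0 Cut.none Ext.none)

def k0_pp_202_a : ∃ t, chk3 f_pp_202_a t 1 1 1 = true :=
  ⟨(l 5), by decide +kernel⟩

theorem c_pp_202_a : CertF 0 536870912 1073741824 536870912 33554432 16777216 false true true .pp 2 0 2
    ndF1q2a ndF4q2 pcF0 Cut.none Ext.none :=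
  certFK0 (fam := false) (s1 := true) (s2 := true) (a := 2) (b := 0) (c := 2) (cn := .pp) (n1 := ndF1q2a) (n2 := ndF4q2) (pc := pcF0) (cut := Cut.none) (xt := Ext.none) (P1 := 0) (W1 := 536870912) (P2 := 1073741824) (W2 := 536870912) (P3 := 33554432) (W3 := 16777216)
    rfl rfl rfl k0_pp_202_a

noncomputable def f_pp_202_b : ℕ → ℕ → ℕ → ℕ → Bool := onCell 1239849684 370763052 1073741824 536870912 33554432 16777216
    (rowFK 0 false true true .pp 2 0 2 (qsf 1239849684 370763052 1073741824 536870912 0) ndF1q2b ndF4q2 pcF0 Cut.none Ext.none)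

def k0_pp_202_b : ∃ t, chk3 f_pp_202_b t 1 1 1 = true :=
  ⟨(l 5), by decide +kernel⟩

theorem c_pp_202_b : CertF 1239849684 370763052 1073741824 536870912 33554432 16777216 false true true .pp 2 0 2
    ndF1q2b ndF4q2 pcF0 Cut.none Ext.none :=
  certFK0 (fam := false) (s1 := true) (s2 := true) (a := 2) (b := 0) (c := 2) (cn := .pp) (n1 := ndF1q2b) (n2 := ndF4q2) (pc := pcF0) (cut := Cut.none) (xt := Ext.none) (P1 := 1239849684) (W1 := 370763052) (P2 := 1073741824) (W2 := 536870912) (P3 := 33554432) (W3 := 16777216)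
    rfl rfl rfl k0_pp_202_b

noncomputable def f_pp_203_a : ℕ → ℕ → ℕ → ℕ → Bool := onCell 0 536870912 0 1230186008 33554432 16777216
    (rowFK 0 false true true .up 2 0 3 (qsf 0 536870912 0 1230186008 0) ndF1q2a ndF4q3 pcF0 Cut.none Ext.none)

def k0_pp_203_a : ∃ t, chk3 f_pp_203_a t 1 1 1 = true :=
  ⟨(b (l 2) (b (l 2) (l 3))), by decide +kernel⟩

theorem c_pp_203_a : CertF 0 536870912 0 1230186008 33554432 16777216 false true true .up 2 0 3
    ndF1q2a ndF4q3 pcF0 Cut.none Ext.none :=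
  certFK0 (fam := false) (s1 := true) (s2 := true) (a := 2) (b := 0) (c := 3) (cn := .up) (n1 := ndF1q2a) (n2 := ndF4q3) (pc := pcF0) (cut := Cut.none) (xt := Ext.none) (P1 := 0) (W1 := 536870912) (P2 := 0) (W2 := 1230186008) (P3 := 33554432) (W3 := 16777216)
    rfl rfl rfl k0_pp_203_a

noncomputable def f_pp_203_b : ℕ → ℕ → ℕ → ℕ → Bool := onCell 1239849684 370763052 0 1230186008 33554432 16777216
    (rowFK 0 false true true .up 2 0 3 (qsf 1239849684 370763052 0 1230186008 0) ndF1q2b ndF4q3 pcF0 Cut.none Ext.none)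

def k0_pp_203_b : ∃ t, chk3 f_pp_203_b t 1 1 1 = true :=
  ⟨(b (l 3) (l 5)), by decide +kernel⟩

theorem c_pp_203_b : CertF 1239849684 370763052 0 1230186008 33554432 16777216 false true true .up 2 0 3
    ndF1q2b ndF4q3 pcF0 Cut.none Ext.none :=
  certFK0 (fam := false) (s1 := true) (s2 := true) (a := 2) (b := 0) (c := 3) (cn := .up) (n1 := ndF1q2b) (n2 := ndF4q3) (pc := pcF0) (cut := Cut.none) (xt := Ext.none) (P1 := 1239849684) (W1 := 370763052) (P2 := 0) (W2 := 1230186008) (P3 := 33554432) (W3 := 16777216)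
    rfl rfl rfl k0_pp_203_b

noncomputable def cut_pp_213_a : Cut := Cut.of [[⟨0, 1, 0, 7061502⟩, ⟨1, 1, 0, 7061502⟩, ⟨2, 2, 0, 184626⟩]]

noncomputable def f_pp_213_a : ℕ → ℕ → ℕ → ℕ → Bool := onCell 0 536870912 0 1230186008 33554432 16777216
    (rowFK 0 false true true .pnn 2 1 3 (qsf 0 536870912 0 1230186008 1) ndF1q2a ndF4q3 pcF1 cut_pp_213_a Ext.none)

def k0_pp_213_a : ∃ t, chk3 f_pp_213_a t 1 1 1 = true :=
  ⟨(b (a (l 3) (b (a (l 3) (b (a (l 3) (b (a (l 3) (a (l 3) (a (l 3) (b (b (l 6) (l 3)) (l 3))))) (l 3))) (l 3))) (l 3))) (b (l 3) (l 3))), by decide +kernel⟩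

theorem c_pp_213_a : CertF 0 536870912 0 1230186008 33554432 16777216 false true true .pnn 2 1 3
    ndF1q2a ndF4q3 pcF1 cut_pp_213_a Ext.none :=
  certFK0 (fam := false) (s1 := true) (s2 := true) (a := 2) (b := 1) (c := 3) (cn := .pnn) (n1 := ndF1q2a) (n2 := ndF4q3) (pc := pcF1) (cut := cut_pp_213_a) (xt := Ext.none) (P1 := 0) (W1 := 536870912) (P2 := 0) (W2 := 1230186008) (P3 := 33554432) (W3 := 16777216)
    rfl rfl rfl k0_pp_213_a

noncomputable def cut_pp_213_b : Cut := Cut.of [[⟨0, 1, 0, 7061502⟩, ⟨1, 1, 0, 7061502⟩, ⟨2, 2, 0, 184626⟩]]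

noncomputable def f_pp_213_b : ℕ → ℕ → ℕ → ℕ → Bool := onCell 1239849684 370763052 0 1230186008 33554432 16777216
    (rowFK 0 false true true .pnn 2 1 3 (qsf 1239849684 370763052 0 1230186008 1) ndF1q2b ndF4q3 pcF1 cut_pp_213_b Ext.none)

def k0_pp_213_b : ∃ t, chk3 f_pp_213_b t 1 1 1 = true :=
  ⟨(b (l 3) (l 5)), by decide +kernel⟩

theorem c_pp_213_b : CertF 1239849684 370763052 0 1230186008 33554432 16777216 false true true .pnn 2 1 3
    ndF1q2b ndF4q3 pcF1 cut_pp_213_b Ext.none :=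
  certFK0 (fam := false) (s1 := true) (s2 := true) (a := 2) (b := 1) (c := 3) (cn := .pnn) (n1 := ndF1q2b) (n2 := ndF4q3) (pc := pcF1) (cut := cut_pp_213_b) (xt := Ext.none) (P1 := 1239849684) (W1 := 370763052) (P2 := 0) (W2 := 1230186008) (P3 := 33554432) (W3 := 16777216)
    rfl rfl rfl k0_pp_213_b

noncomputable def f_pp_303 : ℕ → ℕ → ℕ → ℕ → Bool := onCell 1610612736 536870912 0 1230186008 33554432 16777216
    (rowFK 0 false true true .npn 3 0 3 (qsf 1610612736 536870912 0 1230186008 0) ndF1q3 ndF4q3 pcF0 Cut.none Ext.none)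

def k0_pp_303 : ∃ t, chk3 f_pp_303 t 1 1 1 = true :=
  ⟨(b (l 3) (l 5)), by decide +kernel⟩

theorem c_pp_303 : CertF 1610612736 536870912 0 1230186008 33554432 16777216 false true true .npn 3 0 3
    ndF1q3 ndF4q3 pcF0 Cut.none Ext.none :=
  certFK0 (fam := false) (s1 := true) (s2 := true) (a := 3) (b := 0) (c := 3) (cn := .npn) (n1 := ndF1q3) (n2 := ndF4q3) (pc := pcF0) (cut := Cut.none) (xt := Ext.none) (P1 := 1610612736) (W1 := 536870912) (P2 := 0) (W2 := 1230186008) (P3 := 33554432) (W3 := 16777216)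
    rfl rfl rfl k0_pp_303

noncomputable def f_pp_313 : ℕ → ℕ → ℕ → ℕ → Bool := onCell 1610612736 536870912 0 1230186008 33554432 16777216
    (rowFK 0 false true true .dn 3 1 3 (qsf 1610612736 536870912 0 1230186008 1) ndF1q3 ndF4q3 pcF1 Cut.none Ext.none)

def k0_pp_313 : ∃ t, chk3 f_pp_313 t 1 1 1 = true :=
  ⟨(b (l 3) (l 1)), by decide +kernel⟩

theorem c_pp_313 : CertF 1610612736 536870912 0 1230186008 33554432 16777216 false true true .dn 3 1 3
    ndF1q3 ndF4q3 pcF1 Cut.none Ext.none :=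
  certFK0 (fam := false) (s1 := true) (s2 := true) (a := 3) (b := 1) (c := 3) (cn := .dn) (n1 := ndF1q3) (n2 := ndF4q3) (pc := pcF1) (cut := Cut.none) (xt := Ext.none) (P1 := 1610612736) (W1 := 536870912) (P2 := 0) (W2 := 1230186008) (P3 := 33554432) (W3 := 16777216)
    rfl rfl rfl k0_pp_313

noncomputable def f_pm_001 : ℕ → ℕ → ℕ → ℕ → Bool := onCell 0 536870912 536870912 536870912 33554432 16777216
    (rowFK 0 false true false .up 0 0 1 (qsf 0 536870912 536870912 536870912 0) ndF1q0 ndF4q1 pcF0 Cut.none Ext.none)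

def k0_pm_001 : ∃ t, chk3 f_pm_001 t 1 1 1 = true :=
  ⟨(l 4), by decide +kernel⟩

theorem c_pm_001 : CertF 0 536870912 536870912 536870912 33554432 16777216 false true false .up 0 0 1
    ndF1q0 ndF4q1 pcF0 Cut.none Ext.none :=
  certFK0 (fam := false) (s1 := true) (s2 := false) (a := 0) (b := 0) (c := 1) (cn := .up) (n1 := ndF1q0) (n2 := ndF4q1) (pc := pcF0) (cut := Cut.none) (xt := Ext.none) (P1 := 0) (W1 := 536870912) (P2 := 536870912) (W2 := 536870912) (P3 := 33554432) (W3 := 16777216)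
    rfl rfl rfl k0_pm_001

noncomputable def f_pm_011 : ℕ → ℕ → ℕ → ℕ → Bool := onCell 0 536870912 536870912 536870912 33554432 16777216
    (rowFK 0 false true false .pnn 0 1 1 (qsf 0 536870912 536870912 536870912 1) ndF1q0 ndF4q1 pcF1 Cut.none Ext.none)

def k0_pm_011 : ∃ t, chk3 f_pm_011 t 1 1 1 = true :=
  ⟨(l 4), by decide +kernel⟩

theorem c_pm_011 : CertF 0 536870912 536870912 536870912 33554432 16777216 false true false .pnn 0 1 1
    ndF1q0 ndF4q1 pcF1 Cut.none Ext.none :=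
  certFK0 (fam := false) (s1 := true) (s2 := false) (a := 0) (b := 1) (c := 1) (cn := .pnn) (n1 := ndF1q0) (n2 := ndF4q1) (pc := pcF1) (cut := Cut.none) (xt := Ext.none) (P1 := 0) (W1 := 536870912) (P2 := 536870912) (W2 := 536870912) (P3 := 33554432) (W3 := 16777216)
    rfl rfl rfl k0_pm_011

noncomputable def f_pm_012 : ℕ → ℕ → ℕ → ℕ → Bool := onCell 0 536870912 1073741824 536870912 33554432 16777216
    (rowFK 0 false true false .pnp 0 1 2 (qsf 0 536870912 1073741824 536870912 1) ndF1q0 ndF4q2 pcF1 Cut.none Ext.none)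

def k0_pm_012 : ∃ t, chk3 f_pm_012 t 1 1 1 = true :=
  ⟨(l 4), by decide +kernel⟩

theorem c_pm_012 : CertF 0 536870912 1073741824 536870912 33554432 16777216 false true false .pnp 0 1 2
    ndF1q0 ndF4q2 pcF1 Cut.none Ext.none :=
  certFK0 (fam := false) (s1 := true) (s2 := false) (a := 0) (b := 1) (c := 2) (cn := .pnp) (n1 := ndF1q0) (n2 := ndF4q2) (pc := pcF1) (cut := Cut.none) (xt := Ext.none) (P1 := 0) (W1 := 536870912) (P2 := 1073741824) (W2 := 536870912) (P3 := 33554432) (W3 := 16777216)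
    rfl rfl rfl k0_pm_012

noncomputable def f_pm_022 : ℕ → ℕ → ℕ → ℕ → Bool := onCell 0 536870912 1073741824 536870912 33554432 16777216
    (rowFK 0 false true false .pp 0 2 2 (qsf 0 536870912 1073741824 536870912 2) ndF1q0 ndF4q2 pcF2 Cut.none Ext.none)

def k0_pm_022 : ∃ t, chk3 f_pm_022 t 1 1 1 = true :=
  ⟨(l 4), by decide +kernel⟩

theorem c_pm_022 : CertF 0 536870912 1073741824 536870912 33554432 16777216 false true false .pp 0 2 2
    ndF1q0 ndF4q2 pcF2 Cut.none Ext.none :=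
  certFK0 (fam := false) (s1 := true) (s2 := false) (a := 0) (b := 2) (c := 2) (cn := .pp) (n1 := ndF1q0) (n2 := ndF4q2) (pc := pcF2) (cut := Cut.none) (xt := Ext.none) (P1 := 0) (W1 := 536870912) (P2 := 1073741824) (W2 := 536870912) (P3 := 33554432) (W3 := 16777216)
    rfl rfl rfl k0_pm_022

noncomputable def f_pm_023 : ℕ → ℕ → ℕ → ℕ → Bool := onCell 0 536870912 0 1230186008 33554432 16777216
    (rowFK 0 false true false .up 0 2 3 (qsf 0 536870912 0 1230186008 2) ndF1q0 ndF4q3 pcF2 Cut.none Ext.none)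

def k0_pm_023 : ∃ t, chk3 f_pm_023 t 1 1 1 = true :=
  ⟨(b (b (a (l 2) (a (l 2) (l 18498936))) (l 4)) (l 4)), by decide +kernel⟩

theorem c_pm_023 : CertF 0 536870912 0 1230186008 33554432 16777216 false true false .up 0 2 3
    ndF1q0 ndF4q3 pcF2 Cut.none Ext.none :=
  certFK0 (fam := false) (s1 := true) (s2 := false) (a := 0) (b := 2) (c := 3) (cn := .up) (n1 := ndF1q0) (n2 := ndF4q3) (pc := pcF2) (cut := Cut.none) (xt := Ext.none) (P1 := 0) (W1 := 536870912) (P2 := 0) (W2 := 1230186008) (P3 := 33554432) (W3 := 16777216)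
    rfl rfl rfl k0_pm_023

noncomputable def f_pm_033 : ℕ → ℕ → ℕ → ℕ → Bool := onCell 0 536870912 0 1230186008 33554432 16777216
    (rowFK 0 false true false .pnn 0 3 3 (qsf 0 536870912 0 1230186008 3) ndF1q0 ndF4q3 pcF3 Cut.none Ext.none)

def k0_pm_033 : ∃ t, chk3 f_pm_033 t 1 1 1 = true :=
  ⟨(b (a (l 4) (b (a (l 4) (l 18023768)) (l 4))) (l 4)), by decide +kernel⟩

theorem c_pm_033 : CertF 0 536870912 0 1230186008 33554432 16777216 false true false .pnn 0 3 3
    ndF1q0 ndF4q3 pcF3 Cut.none Ext.none :=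
  certFK0 (fam := false) (s1 := true) (s2 := false) (a := 0) (b := 3) (c := 3) (cn := .pnn) (n1 := ndF1q0) (n2 := ndF4q3) (pc := pcF3) (cut := Cut.none) (xt := Ext.none) (P1 := 0) (W1 := 536870912) (P2 := 0) (W2 := 1230186008) (P3 := 33554432) (W3 := 16777216)
    rfl rfl rfl k0_pm_033

noncomputable def f_pm_101 : ℕ → ℕ → ℕ → ℕ → Bool := onCell 536870912 536870912 536870912 536870912 33554432 16777216
    (rowFK 0 false true false .npn 1 0 1 (qsf 536870912 536870912 536870912 536870912 0) ndF1q1 ndF4q1 pcF0 Cut.none Ext.none)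

def k0_pm_101 : ∃ t, chk3 f_pm_101 t 1 1 1 = true :=
  ⟨(l 4), by decide +kernel⟩

theorem c_pm_101 : CertF 536870912 536870912 536870912 536870912 33554432 16777216 false true false .npn 1 0 1
    ndF1q1 ndF4q1 pcF0 Cut.none Ext.none :=
  certFK0 (fam := false) (s1 := true) (s2 := false) (a := 1) (b := 0) (c := 1) (cn := .npn) (n1 := ndF1q1) (n2 := ndF4q1) (pc := pcF0) (cut := Cut.none) (xt := Ext.none) (P1 := 536870912) (W1 := 536870912) (P2 := 536870912) (W2 := 536870912) (P3 := 33554432) (W3 := 16777216)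
    rfl rfl rfl k0_pm_101

noncomputable def f_pm_102 : ℕ → ℕ → ℕ → ℕ → Bool := onCell 536870912 536870912 1073741824 536870912 33554432 16777216
    (rowFK 0 false true false .npp 1 0 2 (qsf 536870912 536870912 1073741824 536870912 0) ndF1q1 ndF4q2 pcF0 Cut.none Ext.none)

def k0_pm_102 : ∃ t, chk3 f_pm_102 t 1 1 1 = true :=
  ⟨(l 4), by decide +kernel⟩

theorem c_pm_102 : CertF 536870912 536870912 1073741824 536870912 33554432 16777216 false true false .npp 1 0 2
    ndF1q1 ndF4q2 pcF0 Cut.none Ext.none :=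
  certFK0 (fam := false) (s1 := true) (s2 := false) (a := 1) (b := 0) (c := 2) (cn := .npp) (n1 := ndF1q1) (n2 := ndF4q2) (pc := pcF0) (cut := Cut.none) (xt := Ext.none) (P1 := 536870912) (W1 := 536870912) (P2 := 1073741824) (W2 := 536870912) (P3 := 33554432) (W3 := 16777216)
    rfl rfl rfl k0_pm_102

noncomputable def f_pm_112 : ℕ → ℕ → ℕ → ℕ → Bool := onCell 536870912 536870912 1073741824 536870912 33554432 16777216
    (rowFK 0 false true false .dn 1 1 2 (qsf 536870912 536870912 1073741824 536870912 1) ndF1q1 ndF4q2 pcF1 Cut.none Ext.none)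

def k0_pm_112 : ∃ t, chk3 f_pm_112 t 1 1 1 = true :=
  ⟨(l 4), by decide +kernel⟩

theorem c_pm_112 : CertF 536870912 536870912 1073741824 536870912 33554432 16777216 false true false .dn 1 1 2
    ndF1q1 ndF4q2 pcF1 Cut.none Ext.none :=
  certFK0 (fam := false) (s1 := true) (s2 := false) (a := 1) (b := 1) (c := 2) (cn := .dn) (n1 := ndF1q1) (n2 := ndF4q2) (pc := pcF1) (cut := Cut.none) (xt := Ext.none) (P1 := 536870912) (W1 := 536870912) (P2 := 1073741824) (W2 := 536870912) (P3 := 33554432) (W3 := 16777216)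
    rfl rfl rfl k0_pm_112

noncomputable def f_pm_113 : ℕ → ℕ → ℕ → ℕ → Bool := onCell 536870912 536870912 0 1230186008 33554432 16777216
    (rowFK 2 false true false .nn 1 1 3 (qsf 536870912 536870912 0 1230186008 1) ndF1q1 ndF4q3 pcF1 Cut.none Ext.none)

def k0_pm_113 : ∃ t, chk3 f_pm_113 t 1 1 1 = true :=
  ⟨(a (b (l 2) (b (a (l 2) (b (l 2) (l 17895568))) (b (a (l 2) (l 4)) (l 4)))) (b (a (l 2) (b (a (l 2) (a (l 2) (a (l 17025096) (a (l 17055520) (l 17081736))))) (a (l 17634328) (a (l 17778560) (a (l 17850568) (a (l 17886424) (l 17903896))))))) (b (a (l 18005384) (l 18240416)) (l 4)))), by decide +kernel⟩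

theorem c_pm_113 : CertF 536870912 536870912 0 1230186008 33554432 16777216 false true false .nn 1 1 3
    ndF1q1 ndF4q3 pcF1 Cut.none Ext.none :=
  certFK2 (fam := false) (s1 := true) (s2 := false) (a := 1) (b := 1) (c := 3) (cn := .nn) (n1 := ndF1q1) (n2 := ndF4q3) (pc := pcF1) (cut := Cut.none) (xt := Ext.none) (P1 := 536870912) (W1 := 536870912) (P2 := 0) (W2 := 1230186008) (P3 := 33554432) (W3 := 16777216)
    rfl rfl rfl (fun _ => rfl) k0_pm_113

noncomputable def f_pm_123 : ℕ → ℕ → ℕ → ℕ → Bool := onCell 1073741824 536870912 0 1230186008 33554432 16777216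
    (rowFK 2 false true false .npn 1 2 3 (qsf 536870912 536870912 0 1230186008 2) ndF1q1 ndF4q3 pcF2 Cut.none Ext.none)

def k0_pm_123 : ∃ t, chk3 f_pm_123 t 1 1 1 = true :=
  ⟨(b (b (a (a (a (a (a (a (l 17272936) (l 17279184)) (l 17282648)) (l 17285744)) (l 17279664)) (l 17198800)) (a (l 16891776) (l 17134616))) (a (a (l 17369744) (l 17127536)) (l 4))) (a (l 4) (l 4))), by decide +kernel⟩

theorem c_pm_123 : CertF 536870912 536870912 0 1230186008 33554432 16777216 false true false .npn 1 2 3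
    ndF1q1 ndF4q3 pcF2 Cut.none Ext.none :=
  certFK2 (fam := false) (s1 := true) (s2 := false) (a := 1) (b := 2) (c := 3) (cn := .npn) (n1 := ndF1q1) (n2 := ndF4q3) (pc := pcF2) (cut := Cut.none) (xt := Ext.none) (P1 := 536870912) (W1 := 536870912) (P2 := 0) (W2 := 1230186008) (P3 := 33554432) (W3 := 16777216)
    rfl rfl rfl (fun _ => rfl) k0_pm_123

noncomputable def f_pm_133 : ℕ → ℕ → ℕ → ℕ → Bool := onCell 536870912 536870912 0 1230186008 33554432 16777216
    (rowFK 0 false true false .dn 1 3 3 (qsf 536870912 536870912 0 1230186008 3) ndF1q1 ndF4q3 pcF3 Cut.none Ext.none)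

def k0_pm_133 : ∃ t, chk3 f_pm_133 t 1 1 1 = true :=
  ⟨(b (b (a (a (l 17685104) (l 1)) (l 1)) (l 1)) (l 1)), by decide +kernel⟩

theorem c_pm_133 : CertF 536870912 536870912 0 1230186008 33554432 16777216 false true false .dn 1 3 3
    ndF1q1 ndF4q3 pcF3 Cut.none Ext.none :=
  certFK0 (fam := false) (s1 := true) (s2 := false) (a := 1) (b := 3) (c := 3) (cn := .dn) (n1 := ndF1q1) (n2 := ndF4q3) (pc := pcF3) (cut := Cut.none) (xt := Ext.none) (P1 := 536870912) (W1 := 536870912) (P2 := 0) (W2 := 1230186008) (P3 := 33554432) (W3 := 16777216)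
    rfl rfl rfl k0_pm_133

noncomputable def f_pm_202_a : ℕ → ℕ → ℕ → ℕ → Bool := onCell 0 536870912 1073741824 536870912 33554432 16777216
    (rowFK 0 false true false .pp 2 0 2 (qsf 0 536870912 1073741824 536870912 0) ndF1q2a ndF4q2 pcF0 Cut.none Ext.none)

def k0_pm_202_a : ∃ t, chk3 f_pm_202_a t 1 1 1 = true :=
  ⟨(a (a (b (b (l 1) (b (l 19479960) (l 19234840))) (b (b (l 18959608) (l 18701672)) (b (c (l 18950456) (l 17529832)) (c (b (l 18373552) (l 17582968)) (l 17597928))))) (b (b (l 4) (b (l 19516960) (l 19196480))) (b (b (l 18889808) (l 18580464)) (b (l 18283648) (c (l 18649848) (l 17382768)))))) (b (b (l 4) (a (b (l 4) (l 19238880)) (l 4))) (b (b (a (l 18879800) (l 4)) (a (l 18508424) (l 58220967431))) (a (b (l 18191888) (a (l 18108488) (l 17921352))) (b (a (l 18131000) (l 18130632)) (a (l 17889936) (l 17897248))))))), by decide +kernel⟩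

theorem c_pm_202_a : CertF 0 536870912 1073741824 536870912 33554432 16777216 false true false .pp 2 0 2
    ndF1q2a ndF4q2 pcF0 Cut.none Ext.none :=
  certFK0 (fam := false) (s1 := true) (s2 := false) (a := 2) (b := 0) (c := 2) (cn := .pp) (n1 := ndF1q2a) (n2 := ndF4q2) (pc := pcF0) (cut := Cut.none) (xt := Ext.none) (P1 := 0) (W1 := 536870912) (P2 := 1073741824) (W2 := 536870912) (P3 := 33554432) (W3 := 16777216)
    rfl rfl rfl k0_pm_202_a

noncomputable def f_pm_202_b : ℕ → ℕ → ℕ → ℕ → Bool := onCell 0 536870912 1073741824 536870912 33554432 16777216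
    (rowFK 2 false true false .pp 2 0 2 (qsf 1239849684 370763052 1073741824 536870912 0) ndF1q2b ndF4q2 pcF0 Cut.none Ext.none)

def k0_pm_202_b : ∃ t, chk3 f_pm_202_b t 1 1 1 = true :=
  ⟨(b (a (b (l 1) (a (l 19545440) (l 1))) (l 1)) (a (b (a (b (l 18971960) (l 18667944)) (b (l 19012136) (l 298001259751))) (a (a (b (l 18412224) (l 18153960)) (c (l 19042768) (l 17658272))) (b (c (l 19340240) (l 17762232)) (c (l 18311880) (l 17712352))))) (b (l 1) (a (a (b (b (l 434365745895) (l 17886528)) (l 17356864)) (b (l 1) (l 17438224))) (l 1))))), by decide +kernel⟩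

theorem c_pm_202_b : CertF 1239849684 370763052 1073741824 536870912 33554432 16777216 false true false .pp 2 0 2
    ndF1q2b ndF4q2 pcF0 Cut.none Ext.none :=
  certFK2 (fam := false) (s1 := true) (s2 := false) (a := 2) (b := 0) (c := 2) (cn := .pp) (n1 := ndF1q2b) (n2 := ndF4q2) (pc := pcF0) (cut := Cut.none) (xt := Ext.none) (P1 := 1239849684) (W1 := 370763052) (P2 := 1073741824) (W2 := 536870912) (P3 := 33554432) (W3 := 16777216)
    rfl rfl rfl (fun _ => rfl) k0_pm_202_b

noncomputable def f_pm_203_a : ℕ → ℕ → ℕ → ℕ → Bool := onCell 0 536870912 0 1230186008 33554432 16777216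
    (rowFK 0 false true false .up 2 0 3 (qsf 0 536870912 0 1230186008 0) ndF1q2a ndF4q3 pcF0 Cut.none Ext.none)

def k0_pm_203_a : ∃ t, chk3 f_pm_203_a t 1 1 1 = true :=
  ⟨(b (l 2) (b (l 2) (b (a (b (l 2) (l 18345680)) (l 2)) (a (a (a (b (l 18412608) (l 18225712)) (b (l 18409632) (l 18012008))) (b (b (l 18443496) (l 18314352)) (b (l 17808264) (l 17353224)))) (a (b (b (l 18295224) (l 17778536)) (b (c (l 17760248) (l 17637416)) (c (l 18198712) (l 17424232)))) (b (b (l 2) (a (l 17342624) (l 2))) (b (a (l 17514752) (l 17619240)) (l 17737784)))))))), by decide +kernel⟩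

theorem c_pm_203_a : CertF 0 536870912 0 1230186008 33554432 16777216 false true false .up 2 0 3
    ndF1q2a ndF4q3 pcF0 Cut.none Ext.none :=
  certFK0 (fam := false) (s1 := true) (s2 := false) (a := 2) (b := 0) (c := 3) (cn := .up) (n1 := ndF1q2a) (n2 := ndF4q3) (pc := pcF0) (cut := Cut.none) (xt := Ext.none) (P1 := 0) (W1 := 536870912) (P2 := 0) (W2 := 1230186008) (P3 := 33554432) (W3 := 16777216)
    rfl rfl rfl k0_pm_203_a

noncomputable def f_pm_203_b : ℕ → ℕ → ℕ → ℕ → Bool := onCell 0 536870912 0 1230186008 33554432 16777216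
    (rowFK 2 false true false .up 2 0 3 (qsf 1239849684 370763052 0 1230186008 0) ndF1q2b ndF4q3 pcF0 Cut.none Ext.none)

def k0_pm_203_b : ∃ t, chk3 f_pm_203_b t 1 1 1 = true :=
  ⟨(b (l 3) (a (b (a (l 2) (b (l 2) (l 18199680))) (b (a (l 2) (a (l 18669384) (l 18610488))) (a (a (b (l 2) (l 17505504)) (b (l 18043752) (l 17370128))) (b (l 18728216) (a (l 17619984) (l 17871944)))))) (b (a (b (l 3) (l 17947768)) (a (l 123650494695) (l 113449939079))) (b (a (l 18398712) (l 18295776)) (a (b (l 18599824) (a (l 18109096) (l 18319016))) (b (l 18395224) (a (l 18328504) (l 1)))))))), by decide +kernel⟩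

theorem c_pm_203_b : CertF 1239849684 370763052 0 1230186008 33554432 16777216 false true false .up 2 0 3
    ndF1q2b ndF4q3 pcF0 Cut.none Ext.none :=
  certFK2 (fam := false) (s1 := true) (s2 := false) (a := 2) (b := 0) (c := 3) (cn := .up) (n1 := ndF1q2b) (n2 := ndF4q3) (pc := pcF0) (cut := Cut.none) (xt := Ext.none) (P1 := 1239849684) (W1 := 370763052) (P2 := 0) (W2 := 1230186008) (P3 := 33554432) (W3 := 16777216)
    rfl rfl rfl (fun _ => rfl) k0_pm_203_b

noncomputable def cut_pm_213_a : Cut := Cut.of [[⟨0, 1, 0, 7061502⟩, ⟨1, 1, 0, 7061502⟩, ⟨2, 2, 0, 184626⟩]]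

noncomputable def f_pm_213_a : ℕ → ℕ → ℕ → ℕ → Bool := onCell 0 536870912 0 1230186008 33554432 16777216
    (rowFK 0 false true false .pnn 2 1 3 (qsf 0 536870912 0 1230186008 1) ndF1q2a ndF4q3 pcF1 cut_pm_213_a Ext.none)

def k0_pm_213_a : ∃ t, chk3 f_pm_213_a t 1 1 1 = true :=
  ⟨(b (b (a (b (l 3) (l 3)) (a (b (l 3) (a (l 294373415479) (b (l 289004524439) (l 16909904)))) (b (a (b (l 3) (l 283635752167)) (b (a (l 295983703591) (a (l 279340711687) (b (a (l 280951270535) (b (l 6) (l 16778720))) (l 16780352)))) (l 172503513111))) (a (b (l 16874024) (l 16798784)) (l 16882512))))) (a (b (a (l 365240584039) (b (l 291152327751) (l 269677436951))) (a (b (l 306184648679) (l 16910664)) (b (l 16924568) (l 16825968)))) (a (b (a (l 17104888) (l 16890616)) (l 17084752)) (b (a (l 16852136) (l 16907256)) (b (l 17032640) (l 17123816)))))) (b (a (b (a (l 17022416) (l 17038688)) (b (l 17232072) (l 17449864))) (b (a (l 17203944) (b (l 17263728) (l 17396008))) (a (l 17527064)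 (l 17710360)))) (a (b (b (l 17677088) (l 17960032)) (l 1072167850263)) (b (l 18161632) (b (l 18342176) (l 18328112)))))), by decide +kernel⟩

theorem c_pm_213_a : CertF 0 536870912 0 1230186008 33554432 16777216 false true false .pnn 2 1 3
    ndF1q2a ndF4q3 pcF1 cut_pm_213_a Ext.none :=
  certFK0 (fam := false) (s1 := true) (s2 := false) (a := 2) (b := 1) (c := 3) (cn := .pnn) (n1 := ndF1q2a) (n2 := ndF4q3) (pc := pcF1) (cut := cut_pm_213_a) (xt := Ext.none) (P1 := 0) (W1 := 536870912) (P2 := 0) (W2 := 1230186008) (P3 := 33554432) (W3 := 16777216)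
    rfl rfl rfl k0_pm_213_a

noncomputable def cut_pm_213_b : Cut := Cut.of [[⟨0, 1, 0, 7061502⟩, ⟨1, 1, 0, 7061502⟩, ⟨2, 2, 0, 184626⟩]]

noncomputable def f_pm_213_b : ℕ → ℕ → ℕ → ℕ → Bool := onCell 1239849684 370763052 0 1230186008 33554432 16777216
    (rowFK 0 false true false .pnn 2 1 3 (qsf 1239849684 370763052 0 1230186008 1) ndF1q2b ndF4q3 pcF1 cut_pm_213_b Ext.none)

def k0_pm_213_b : ∃ t, chk3 f_pm_213_b t 1 1 1 = true :=
  ⟨(b (a (b (l 3) (a (b (l 3) (b (l 3) (a (l 17018312) (l 16979000)))) (l 3))) (l 3)) (b (a (b (a (b (a (l 16853888) (l 16934000)) (l 16887136)) (b (l 17101672) (l 17095040))) (a (b (l 16971976) (l 17190184)) (b (l 16956680) (l 17000440)))) (b (a (b (l 3) (l 17289488)) (l 1)) (l 1))) (a (b (b (a (l 17512408) (l 1)) (l 17721400)) (l 1)) (l 1)))), by decide +kernel⟩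

theorem c_pm_213_b : CertF 1239849684 370763052 0 1230186008 33554432 16777216 false true false .pnn 2 1 3
    ndF1q2b ndF4q3 pcF1 cut_pm_213_b Ext.none :=
  certFK0 (fam := false) (s1 := true) (s2 := false) (a := 2) (b := 1) (c := 3) (cn := .pnn) (n1 := ndF1q2b) (n2 := ndF4q3) (pc := pcF1) (cut := cut_pm_213_b) (xt := Ext.none) (P1 := 1239849684) (W1 := 370763052) (P2 := 0) (W2 := 1230186008) (P3 := 33554432) (W3 := 16777216)
    rfl rfl rfl k0_pm_213_b

noncomputable def f_pm_303 : ℕ → ℕ → ℕ → ℕ → Bool := onCell 0 536870912 0 1230186008 33554432 16777216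
    (rowFK 2 false true false .npn 3 0 3 (qsf 1610612736 536870912 0 1230186008 0) ndF1q3 ndF4q3 pcF0 Cut.none Ext.none)

def k0_pm_303 : ∃ t, chk3 f_pm_303 t 1 1 1 = true :=
  ⟨(b (l 3) (a (b (b (l 3) (a (l 17376616) (a (l 17270432) (l 17389704)))) (b (a (b (a (l 17621072) (l 17619392)) (a (l 17297320) (l 17561520))) (a (l 17731272) (l 17508488))) (a (b (a (l 17410192) (l 17360632)) (a (l 17393304) (l 17315104))) (b (l 253438616663) (l 1))))) (b (a (b (l 3) (b (l 17552696) (l 17479824))) (b (b (l 3) (l 1)) (l 1))) (l 1)))), by decide +kernel⟩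

theorem c_pm_303 : CertF 1610612736 536870912 0 1230186008 33554432 16777216 false true false .npn 3 0 3
    ndF1q3 ndF4q3 pcF0 Cut.none Ext.none :=
  certFK2 (fam := false) (s1 := true) (s2 := false) (a := 3) (b := 0) (c := 3) (cn := .npn) (n1 := ndF1q3) (n2 := ndF4q3) (pc := pcF0) (cut := Cut.none) (xt := Ext.none) (P1 := 1610612736) (W1 := 536870912) (P2 := 0) (W2 := 1230186008) (P3 := 33554432) (W3 := 16777216)
    rfl rfl rfl (fun _ => rfl) k0_pm_303

noncomputable def f_pm_313 : ℕ → ℕ → ℕ → ℕ → Bool := onCell 1610612736 536870912 0 1230186008 33554432 16777216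
    (rowFK 0 false true false .dn 3 1 3 (qsf 1610612736 536870912 0 1230186008 1) ndF1q3 ndF4q3 pcF1 Cut.none Ext.none)

def k0_pm_313 : ∃ t, chk3 f_pm_313 t 1 1 1 = true :=
  ⟨(b (l 3) (l 1)), by decide +kernel⟩

theorem c_pm_313 : CertF 1610612736 536870912 0 1230186008 33554432 16777216 false true false .dn 3 1 3
    ndF1q3 ndF4q3 pcF1 Cut.none Ext.none :=
  certFK0 (fam := false) (s1 := true) (s2 := false) (a := 3) (b := 1) (c := 3) (cn := .dn) (n1 := ndF1q3) (n2 := ndF4q3) (pc := pcF1) (cut := Cut.none) (xt := Ext.none) (P1 := 1610612736) (W1 := 536870912) (P2 := 0) (W2 := 1230186008) (P3 := 33554432) (W3 := 16777216)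
    rfl rfl rfl k0_pm_313

noncomputable def f_mm_001 : ℕ → ℕ → ℕ → ℕ → Bool := onCell 0 536870912 0 536870912 33554432 16777216
    (rowFK 1 false false false .up 0 0 1 (qsf 0 536870912 536870912 536870912 0) ndF1q0 ndF4q1 pcF0 Cut.none Ext.none)

def k0_mm_001 : ∃ t, chk3 f_mm_001 t 1 1 1 = true :=
  ⟨(l 3), by decide +kernel⟩

theorem c_mm_001 : CertF 0 536870912 536870912 536870912 33554432 16777216 false false false .up 0 0 1
    ndF1q0 ndF4q1 pcF0 Cut.none Ext.none :=
  certFK1 (fam := false) (s1 := false) (s2 := false) (a := 0) (b := 0) (c := 1) (cn := .up) (n1 := ndF1q0) (n2 := ndF4q1) (pc := pcF0) (cut := Cut.none) (xt := Ext.none) (P1 := 0) (W1 := 536870912) (P2 := 536870912) (W2 := 536870912) (P3 := 33554432) (W3 := 16777216)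
    rfl rfl rfl (fun _ => rfl) k0_mm_001

noncomputable def f_mm_011 : ℕ → ℕ → ℕ → ℕ → Bool := onCell 0 536870912 536870912 536870912 33554432 16777216
    (rowFK 1 false false false .pnn 0 1 1 (qsf 0 536870912 536870912 536870912 1) ndF1q0 ndF4q1 pcF1 Cut.none Ext.none)

def k0_mm_011 : ∃ t, chk3 f_mm_011 t 1 1 1 = true :=
  ⟨(l 5), by decide +kernel⟩

theorem c_mm_011 : CertF 0 536870912 536870912 536870912 33554432 16777216 false false false .pnn 0 1 1
    ndF1q0 ndF4q1 pcF1 Cut.none Ext.none :=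
  certFK1 (fam := false) (s1 := false) (s2 := false) (a := 0) (b := 1) (c := 1) (cn := .pnn) (n1 := ndF1q0) (n2 := ndF4q1) (pc := pcF1) (cut := Cut.none) (xt := Ext.none) (P1 := 0) (W1 := 536870912) (P2 := 536870912) (W2 := 536870912) (P3 := 33554432) (W3 := 16777216)
    rfl rfl rfl (fun _ => rfl) k0_mm_011

noncomputable def f_mm_012 : ℕ → ℕ → ℕ → ℕ → Bool := onCell 0 536870912 1073741824 536870912 33554432 16777216
    (rowFK 0 false false false .pnp 0 1 2 (qsf 0 536870912 1073741824 536870912 1) ndF1q0 ndF4q2 pcF1 Cut.none Ext.none)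

def k0_mm_012 : ∃ t, chk3 f_mm_012 t 1 1 1 = true :=
  ⟨(l 5), by decide +kernel⟩

theorem c_mm_012 : CertF 0 536870912 1073741824 536870912 33554432 16777216 false false false .pnp 0 1 2
    ndF1q0 ndF4q2 pcF1 Cut.none Ext.none :=
  certFK0 (fam := false) (s1 := false) (s2 := false) (a := 0) (b := 1) (c := 2) (cn := .pnp) (n1 := ndF1q0) (n2 := ndF4q2) (pc := pcF1) (cut := Cut.none) (xt := Ext.none) (P1 := 0) (W1 := 536870912) (P2 := 1073741824) (W2 := 536870912) (P3 := 33554432) (W3 := 16777216)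
    rfl rfl rfl k0_mm_012

noncomputable def f_mm_022 : ℕ → ℕ → ℕ → ℕ → Bool := onCell 0 536870912 1073741824 536870912 33554432 16777216
    (rowFK 0 false false false .pp 0 2 2 (qsf 0 536870912 1073741824 536870912 2) ndF1q0 ndF4q2 pcF2 Cut.none Ext.none)

def k0_mm_022 : ∃ t, chk3 f_mm_022 t 1 1 1 = true :=
  ⟨(l 5), by decide +kernel⟩

theorem c_mm_022 : CertF 0 536870912 1073741824 536870912 33554432 16777216 false false false .pp 0 2 2
    ndF1q0 ndF4q2 pcF2 Cut.none Ext.none :=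
  certFK0 (fam := false) (s1 := false) (s2 := false) (a := 0) (b := 2) (c := 2) (cn := .pp) (n1 := ndF1q0) (n2 := ndF4q2) (pc := pcF2) (cut := Cut.none) (xt := Ext.none) (P1 := 0) (W1 := 536870912) (P2 := 1073741824) (W2 := 536870912) (P3 := 33554432) (W3 := 16777216)
    rfl rfl rfl k0_mm_022

noncomputable def f_mm_023 : ℕ → ℕ → ℕ → ℕ → Bool := onCell 0 536870912 0 1230186008 33554432 16777216
    (rowFK 0 false false false .up 0 2 3 (qsf 0 536870912 0 1230186008 2) ndF1q0 ndF4q3 pcF2 Cut.none Ext.none)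

def k0_mm_023 : ∃ t, chk3 f_mm_023 t 1 1 1 = true :=
  ⟨(l 5), by decide +kernel⟩

theorem c_mm_023 : CertF 0 536870912 0 1230186008 33554432 16777216 false false false .up 0 2 3
    ndF1q0 ndF4q3 pcF2 Cut.none Ext.none :=
  certFK0 (fam := false) (s1 := false) (s2 := false) (a := 0) (b := 2) (c := 3) (cn := .up) (n1 := ndF1q0) (n2 := ndF4q3) (pc := pcF2) (cut := Cut.none) (xt := Ext.none) (P1 := 0) (W1 := 536870912) (P2 := 0) (W2 := 1230186008) (P3 := 33554432) (W3 := 16777216)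
    rfl rfl rfl k0_mm_023

noncomputable def f_mm_033 : ℕ → ℕ → ℕ → ℕ → Bool := onCell 0 536870912 0 1230186008 33554432 16777216
    (rowFK 0 false false false .pnn 0 3 3 (qsf 0 536870912 0 1230186008 3) ndF1q0 ndF4q3 pcF3 Cut.none Ext.none)

def k0_mm_033 : ∃ t, chk3 f_mm_033 t 1 1 1 = true :=
  ⟨(l 5), by decide +kernel⟩

theorem c_mm_033 : CertF 0 536870912 0 1230186008 33554432 16777216 false false false .pnn 0 3 3
    ndF1q0 ndF4q3 pcF3 Cut.none Ext.none :=
  certFK0 (fam := false) (s1 := false) (s2 := false) (a := 0) (b := 3) (c := 3) (cn := .pnn) (n1 := ndF1q0) (n2 := ndF4q3) (pc := pcF3) (cut := Cut.none) (xt := Ext.none) (P1 := 0) (W1 := 536870912) (P2 := 0) (W2 := 1230186008) (P3 := 33554432) (W3 := 16777216)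
    rfl rfl rfl k0_mm_033

noncomputable def f_mm_101 : ℕ → ℕ → ℕ → ℕ → Bool := onCell 536870912 536870912 536870912 536870912 33554432 16777216
    (rowFK 0 false false false .npn 1 0 1 (qsf 536870912 536870912 536870912 536870912 0) ndF1q1 ndF4q1 pcF0 Cut.none Ext.none)

def k0_mm_101 : ∃ t, chk3 f_mm_101 t 1 1 1 = true :=
  ⟨(l 3), by decide +kernel⟩

theorem c_mm_101 : CertF 536870912 536870912 536870912 536870912 33554432 16777216 false false false .npn 1 0 1
    ndF1q1 ndF4q1 pcF0 Cut.none Ext.none :=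
  certFK0 (fam := false) (s1 := false) (s2 := false) (a := 1) (b := 0) (c := 1) (cn := .npn) (n1 := ndF1q1) (n2 := ndF4q1) (pc := pcF0) (cut := Cut.none) (xt := Ext.none) (P1 := 536870912) (W1 := 536870912) (P2 := 536870912) (W2 := 536870912) (P3 := 33554432) (W3 := 16777216)
    rfl rfl rfl k0_mm_101

noncomputable def f_mm_102 : ℕ → ℕ → ℕ → ℕ → Bool := onCell 536870912 536870912 1073741824 536870912 33554432 16777216
    (rowFK 0 false false false .npp 1 0 2 (qsf 536870912 536870912 1073741824 536870912 0) ndF1q1 ndF4q2 pcF0 Cut.none Ext.none)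

def k0_mm_102 : ∃ t, chk3 f_mm_102 t 1 1 1 = true :=
  ⟨(l 3), by decide +kernel⟩

theorem c_mm_102 : CertF 536870912 536870912 1073741824 536870912 33554432 16777216 false false false .npp 1 0 2
    ndF1q1 ndF4q2 pcF0 Cut.none Ext.none :=
  certFK0 (fam := false) (s1 := false) (s2 := false) (a := 1) (b := 0) (c := 2) (cn := .npp) (n1 := ndF1q1) (n2 := ndF4q2) (pc := pcF0) (cut := Cut.none) (xt := Ext.none) (P1 := 536870912) (W1 := 536870912) (P2 := 1073741824) (W2 := 536870912) (P3 := 33554432) (W3 := 16777216)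
    rfl rfl rfl k0_mm_102

noncomputable def f_mm_112 : ℕ → ℕ → ℕ → ℕ → Bool := onCell 536870912 536870912 1073741824 536870912 33554432 16777216
    (rowFK 0 false false false .dn 1 1 2 (qsf 536870912 536870912 1073741824 536870912 1) ndF1q1 ndF4q2 pcF1 Cut.none Ext.none)

def k0_mm_112 : ∃ t, chk3 f_mm_112 t 1 1 1 = true :=
  ⟨(l 3), by decide +kernel⟩

theorem c_mm_112 : CertF 536870912 536870912 1073741824 536870912 33554432 16777216 false false false .dn 1 1 2
    ndF1q1 ndF4q2 pcF1 Cut.none Ext.none :=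
  certFK0 (fam := false) (s1 := false) (s2 := false) (a := 1) (b := 1) (c := 2) (cn := .dn) (n1 := ndF1q1) (n2 := ndF4q2) (pc := pcF1) (cut := Cut.none) (xt := Ext.none) (P1 := 536870912) (W1 := 536870912) (P2 := 1073741824) (W2 := 536870912) (P3 := 33554432) (W3 := 16777216)
    rfl rfl rfl k0_mm_112

noncomputable def f_mm_113 : ℕ → ℕ → ℕ → ℕ → Bool := onCell 536870912 536870912 0 1230186008 33554432 16777216
    (rowFK 0 false false false .nn 1 1 3 (qsf 536870912 536870912 0 1230186008 1) ndF1q1 ndF4q3 pcF1 Cut.none Ext.none)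

def k0_mm_113 : ∃ t, chk3 f_mm_113 t 1 1 1 = true :=
  ⟨(l 5), by decide +kernel⟩

theorem c_mm_113 : CertF 536870912 536870912 0 1230186008 33554432 16777216 false false false .nn 1 1 3
    ndF1q1 ndF4q3 pcF1 Cut.none Ext.none :=
  certFK0 (fam := false) (s1 := false) (s2 := false) (a := 1) (b := 1) (c := 3) (cn := .nn) (n1 := ndF1q1) (n2 := ndF4q3) (pc := pcF1) (cut := Cut.none) (xt := Ext.none) (P1 := 536870912) (W1 := 536870912) (P2 := 0) (W2 := 1230186008) (P3 := 33554432) (W3 := 16777216)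
    rfl rfl rfl k0_mm_113

noncomputable def f_mm_123 : ℕ → ℕ → ℕ → ℕ → Bool := onCell 536870912 536870912 0 1230186008 33554432 16777216
    (rowFK 0 false false false .npn 1 2 3 (qsf 536870912 536870912 0 1230186008 2) ndF1q1 ndF4q3 pcF2 Cut.none Ext.none)

def k0_mm_123 : ∃ t, chk3 f_mm_123 t 1 1 1 = true :=
  ⟨(l 5), by decide +kernel⟩

theorem c_mm_123 : CertF 536870912 536870912 0 1230186008 33554432 16777216 false false false .npn 1 2 3
    ndF1q1 ndF4q3 pcF2 Cut.none Ext.none :=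
  certFK0 (fam := false) (s1 := false) (s2 := false) (a := 1) (b := 2) (c := 3) (cn := .npn) (n1 := ndF1q1) (n2 := ndF4q3) (pc := pcF2) (cut := Cut.none) (xt := Ext.none) (P1 := 536870912) (W1 := 536870912) (P2 := 0) (W2 := 1230186008) (P3 := 33554432) (W3 := 16777216)
    rfl rfl rfl k0_mm_123

noncomputable def f_mm_133 : ℕ → ℕ → ℕ → ℕ → Bool := onCell 536870912 536870912 0 1230186008 33554432 16777216
    (rowFK 0 false false false .dn 1 3 3 (qsf 536870912 536870912 0 1230186008 3) ndF1q1 ndF4q3 pcF3 Cut.none Ext.none)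

def k0_mm_133 : ∃ t, chk3 f_mm_133 t 1 1 1 = true :=
  ⟨(l 5), by decide +kernel⟩

theorem c_mm_133 : CertF 536870912 536870912 0 1230186008 33554432 16777216 false false false .dn 1 3 3
    ndF1q1 ndF4q3 pcF3 Cut.none Ext.none :=
  certFK0 (fam := false) (s1 := false) (s2 := false) (a := 1) (b := 3) (c := 3) (cn := .dn) (n1 := ndF1q1) (n2 := ndF4q3) (pc := pcF3) (cut := Cut.none) (xt := Ext.none) (P1 := 536870912) (W1 := 536870912) (P2 := 0) (W2 := 1230186008) (P3 := 33554432) (W3 := 16777216)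
    rfl rfl rfl k0_mm_133

noncomputable def cut_mm_202_a : Cut := Cut.of [[⟨0, 1, 0, 33554432⟩, ⟨1, 0, 0, 33554432⟩, ⟨2, 1, 0, 33554432⟩]]

noncomputable def f_mm_202_a : ℕ → ℕ → ℕ → ℕ → Bool := onCell 0 536870912 0 536870912 33554432 16777216
    (rowFK 1 false false false .pp 2 0 2 (qsf 0 536870912 1073741824 536870912 0) ndF1q2a ndF4q2 pcF0 cut_mm_202_a Ext.none)

def k0_mm_202_a : ∃ t, chk3 f_mm_202_a t 2 4 1 = true :=
  ⟨(b (a (b (l 18693960) (l 18751576)) (b (a (l 18765144) (l 18836016)) (a (l 18706232) (l 18644632)))) (a (b (l 18478864) (l 18230360)) (b (l 18290384) (l 241762456535)))), by decide +kernel⟩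

def k1_mm_202_a : ∃ t, chk3 f_mm_202_a t 3 4 1 = true :=
  ⟨(b (a (b (a (b (l 18809800) (l 18758888)) (b (b (l 18590240) (l 18609880)) (a (l 18572136) (l 18365376)))) (a (b (l 18544768) (l 18293656)) (a (l 18112400) (b (l 18084760) (l 17816616))))) (b (a (b (a (b (l 18145056) (l 18199536)) (b (a (b (l 17626232) (l 17776504)) (b (l 17115080) (l 17347344))) (a (l 17847352) (a (l 17610768) (l 17424680))))) (a (a (l 18154392) (l 17979168)) (a (b (l 17810104) (l 17718016)) (b (b (l 17550672) (l 94658071287)) (a (l 102711224151) (l 293837468711)))))) (b (a (a (b (b (a (l 16859096) (l 16854864)) (l 16801008)) (b (a (l 17151704) (l 16885064)) (a (l 17259600) (b (l 17016904) (l 16951064))))) (b (b (a (b (l 16828864) (l 16789416)) (l 6)) (a (l 16773408) (b (l 6) (l 16750376)))) (b (a (l 16748864) (b (l 16753432) (a (l 16749936) (b (l 16752312) (l 138680422215))))) (a (b (a (l 16837632) (l 16747952)) (a (l 135459225847) (l 131701150151))) (b (a (l 139754158327)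 (l 158544648727)) (a (l 166060832503) (l 3))))))) (b (l 6) (b (b (l 6) (b (l 6) (b (b (l 6) (l 3)) (l 3)))) (l 3)))) (b (a (a (a (a (a (l 100026569799) (l 102710846519)) (b (l 17247104) (l 103784858247))) (b (a (c (l 17336264) (l 119353384967)) (c (l 101100440535) (b (l 135459226455) (l 196662894119)))) (a (l 260551033815) (l 3)))) (a (b (a (b (c (l 231559862215) (l 166060959255)) (l 3)) (l 3)) (l 3)) (l 3))) (l 3)) (l 3)))) (a (a (b (a (l 17882808) (l 121502055895)) (l 330881811479)) (b (a (l 335176765927) (l 3)) (l 3))) (l 3)))) (a (a (b (l 236930640007) (l 286321476279)) (b (a (l 216528550615) (l 349672135303)) (l 3))) (l 3))), by decide +kernel⟩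

def k2_mm_202_a : ∃ t, chk3 f_mm_202_a t 1 5 1 = true :=
  ⟨(a (b (a (b (l 17961600) (l 17627928)) (b (a (l 17648616) (l 256793410183)) (l 240150076231))) (a (b (l 183242093015) (l 173040844279)) (l 3))) (l 3)), by decide +kernel⟩

def k3_mm_202_a : ∃ t, chk3 f_mm_202_a t 1 3 1 = true :=
  ⟨(b (a (b (a (b (l 222969593783) (l 3)) (l 3)) (l 3)) (l 3)) (l 3)), by decide +kernel⟩

theorem s4_mm_202_a : ∃ t, chk3 f_mm_202_a t 1 4 1 = true := ex3_a k0_mm_202_a k1_mm_202_a

theorem s5_mm_202_a : ∃ t, chk3 f_mm_202_a t 1 2 1 = true := ex3_b s4_mm_202_a k2_mm_202_a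

theorem s6_mm_202_a : ∃ t, chk3 f_mm_202_a t 1 1 1 = true := ex3_b s5_mm_202_a k3_mm_202_a

theorem c_mm_202_a : CertF 0 536870912 1073741824 536870912 33554432 16777216 false false false .pp 2 0 2
    ndF1q2a ndF4q2 pcF0 cut_mm_202_a Ext.none :=
  certFK1 (fam := false) (s1 := false) (s2 := false) (a := 2) (b := 0) (c := 2) (cn := .pp) (n1 := ndF1q2a) (n2 := ndF4q2) (pc := pcF0) (cut := cut_mm_202_a) (xt := Ext.none) (P1 := 0) (W1 := 536870912) (P2 := 1073741824) (W2 := 536870912) (P3 := 33554432) (W3 := 16777216)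
    rfl rfl rfl (fun _ => rfl) s6_mm_202_a

noncomputable def cut_mm_202_b : Cut := Cut.of [[⟨0, 1, 0, 33554432⟩, ⟨1, 0, 0, 33554432⟩, ⟨2, 1, 0, 33554432⟩]]

noncomputable def f_mm_202_b : ℕ → ℕ → ℕ → ℕ → Bool := onCell 1239849684 370763052 0 536870912 33554432 16777216
    (rowFK 1 false false false .pp 2 0 2 (qsf 1239849684 370763052 1073741824 536870912 0) ndF1q2b ndF4q2 pcF0 cut_mm_202_b Ext.none)

def k0_mm_202_b : ∃ t, chk3 f_mm_202_b t 1 1 1 = true :=
  ⟨(b (a (b (b (a (b (l 18799088) (l 18974768)) (b (l 18979080) (l 18988488))) (a (b (l 18690512) (l 18461592)) (l 18582376))) (b (a (b (l 18195512) (l 17849200)) (l 18161088)) (a (b (l 17558456) (l 17287672)) (l 3)))) (b (b (a (b (l 19270176) (l 18821288)) (l 218678418999)) (a (l 18428920) (l 3))) (l 3))) (a (a (a (b (b (l 230486285799) (l 3)) (l 2)) (l 3)) (l 3)) (l 2))), by decide +kernel⟩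

theorem c_mm_202_b : CertF 1239849684 370763052 1073741824 536870912 33554432 16777216 false false false .pp 2 0 2
    ndF1q2b ndF4q2 pcF0 cut_mm_202_b Ext.none :=
  certFK1 (fam := false) (s1 := false) (s2 := false) (a := 2) (b := 0) (c := 2) (cn := .pp) (n1 := ndF1q2b) (n2 := ndF4q2) (pc := pcF0) (cut := cut_mm_202_b) (xt := Ext.none) (P1 := 1239849684) (W1 := 370763052) (P2 := 1073741824) (W2 := 536870912) (P3 := 33554432) (W3 := 16777216)
    rfl rfl rfl (fun _ => rfl) k0_mm_202_b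

noncomputable def f_mm_203_a : ℕ → ℕ → ℕ → ℕ → Bool := onCell 0 536870912 0 1230186008 33554432 16777216
    (rowFK 0 false false false .up 2 0 3 (qsf 0 536870912 0 1230186008 0) ndF1q2a ndF4q3 pcF0 Cut.none Ext.none)

def k0_mm_203_a : ∃ t, chk3 f_mm_203_a t 1 1 1 = true :=
  ⟨(b (l 2) (b (l 2) (l 3))), by decide +kernel⟩

theorem c_mm_203_a : CertF 0 536870912 0 1230186008 33554432 16777216 false false false .up 2 0 3
    ndF1q2a ndF4q3 pcF0 Cut.none Ext.none :=
  certFK0 (fam := false) (s1 := false) (s2 := false) (a := 2) (b := 0) (c := 3) (cn := .up) (n1 := ndF1q2a) (n2 := ndF4q3) (pc := pcF0) (cut := Cut.none) (xt := Ext.none) (P1 := 0) (W1 := 536870912) (P2 := 0) (W2 := 1230186008) (P3 := 33554432) (W3 := 16777216)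
    rfl rfl rfl k0_mm_203_a

noncomputable def f_mm_203_b : ℕ → ℕ → ℕ → ℕ → Bool := onCell 1239849684 370763052 0 1230186008 33554432 16777216
    (rowFK 0 false false false .up 2 0 3 (qsf 1239849684 370763052 0 1230186008 0) ndF1q2b ndF4q3 pcF0 Cut.none Ext.none)

def k0_mm_203_b : ∃ t, chk3 f_mm_203_b t 1 1 1 = true :=
  ⟨(b (l 3) (b (l 3) (a (l 3) (l 3)))), by decide +kernel⟩

theorem c_mm_203_b : CertF 1239849684 370763052 0 1230186008 33554432 16777216 false false false .up 2 0 3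
    ndF1q2b ndF4q3 pcF0 Cut.none Ext.none :=
  certFK0 (fam := false) (s1 := false) (s2 := false) (a := 2) (b := 0) (c := 3) (cn := .up) (n1 := ndF1q2b) (n2 := ndF4q3) (pc := pcF0) (cut := Cut.none) (xt := Ext.none) (P1 := 1239849684) (W1 := 370763052) (P2 := 0) (W2 := 1230186008) (P3 := 33554432) (W3 := 16777216)
    rfl rfl rfl k0_mm_203_b

noncomputable def f_mm_213_a : ℕ → ℕ → ℕ → ℕ → Bool := onCell 0 536870912 0 1230186008 33554432 16777216
    (rowFK 0 false false false .pnn 2 1 3 (qsf 0 536870912 0 1230186008 1) ndF1q2a ndF4q3 pcF1 Cut.none Ext.none)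

def k0_mm_213_a : ∃ t, chk3 f_mm_213_a t 1 1 1 = true :=
  ⟨(b (a (l 3) (l 5)) (b (l 3) (l 3))), by decide +kernel⟩

theorem c_mm_213_a : CertF 0 536870912 0 1230186008 33554432 16777216 false false false .pnn 2 1 3
    ndF1q2a ndF4q3 pcF1 Cut.none Ext.none :=
  certFK0 (fam := false) (s1 := false) (s2 := false) (a := 2) (b := 1) (c := 3) (cn := .pnn) (n1 := ndF1q2a) (n2 := ndF4q3) (pc := pcF1) (cut := Cut.none) (xt := Ext.none) (P1 := 0) (W1 := 536870912) (P2 := 0) (W2 := 1230186008) (P3 := 33554432) (W3 := 16777216)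
    rfl rfl rfl k0_mm_213_a

noncomputable def f_mm_213_b : ℕ → ℕ → ℕ → ℕ → Bool := onCell 1239849684 370763052 0 1230186008 33554432 16777216
    (rowFK 0 false false false .pnn 2 1 3 (qsf 1239849684 370763052 0 1230186008 1) ndF1q2b ndF4q3 pcF1 Cut.none Ext.none)

def k0_mm_213_b : ∃ t, chk3 f_mm_213_b t 1 1 1 = true :=
  ⟨(b (l 3) (b (l 3) (a (l 3) (l 1)))), by decide +kernel⟩

theorem c_mm_213_b : CertF 1239849684 370763052 0 1230186008 33554432 16777216 false false false .pnn 2 1 3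
    ndF1q2b ndF4q3 pcF1 Cut.none Ext.none :=
  certFK0 (fam := false) (s1 := false) (s2 := false) (a := 2) (b := 1) (c := 3) (cn := .pnn) (n1 := ndF1q2b) (n2 := ndF4q3) (pc := pcF1) (cut := Cut.none) (xt := Ext.none) (P1 := 1239849684) (W1 := 370763052) (P2 := 0) (W2 := 1230186008) (P3 := 33554432) (W3 := 16777216)
    rfl rfl rfl k0_mm_213_b

noncomputable def f_mm_303 : ℕ → ℕ → ℕ → ℕ → Bool := onCell 0 536870912 0 1230186008 33554432 16777216
    (rowFK 2 false false false .npn 3 0 3 (qsf 1610612736 536870912 0 1230186008 0) ndF1q3 ndF4q3 pcF0 Cut.none Ext.none)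

def k0_mm_303 : ∃ t, chk3 f_mm_303 t 1 1 1 = true :=
  ⟨(b (l 3) (b (l 3) (a (l 3) (l 1)))), by decide +kernel⟩

theorem c_mm_303 : CertF 1610612736 536870912 0 1230186008 33554432 16777216 false false false .npn 3 0 3
    ndF1q3 ndF4q3 pcF0 Cut.none Ext.none :=
  certFK2 (fam := false) (s1 := false) (s2 := false) (a := 3) (b := 0) (c := 3) (cn := .npn) (n1 := ndF1q3) (n2 := ndF4q3) (pc := pcF0) (cut := Cut.none) (xt := Ext.none) (P1 := 1610612736) (W1 := 536870912) (P2 := 0) (W2 := 1230186008) (P3 := 33554432) (W3 := 16777216)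
    rfl rfl rfl (fun _ => rfl) k0_mm_303

noncomputable def f_mm_313 : ℕ → ℕ → ℕ → ℕ → Bool := onCell 1610612736 536870912 0 1230186008 33554432 16777216
    (rowFK 0 false false false .dn 3 1 3 (qsf 1610612736 536870912 0 1230186008 1) ndF1q3 ndF4q3 pcF1 Cut.none Ext.none)

def k0_mm_313 : ∃ t, chk3 f_mm_313 t 1 1 1 = true :=
  ⟨(b (l 3) (l 1)), by decide +kernel⟩

theorem c_mm_313 : CertF 1610612736 536870912 0 1230186008 33554432 16777216 false false false .dn 3 1 3
    ndF1q3 ndF4q3 pcF1 Cut.none Ext.none :=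
  certFK0 (fam := false) (s1 := false) (s2 := false) (a := 3) (b := 1) (c := 3) (cn := .dn) (n1 := ndF1q3) (n2 := ndF4q3) (pc := pcF1) (cut := Cut.none) (xt := Ext.none) (P1 := 1610612736) (W1 := 536870912) (P2 := 0) (W2 := 1230186008) (P3 := 33554432) (W3 := 16777216)
    rfl rfl rfl k0_mm_313

end Pool.Agent.Strip051.G.I1_32_3_64.Tab.C.FB14

namespace Pool.Agent.Strip051.G.I1_32_3_64.Tab.C.FB20

open Pool.Agent.Strip051.PB Pool.Agent.Strip051.PB.T
open Pool.Agent.Strip051.G.I1_32_3_64.Tab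

noncomputable def f_pp_001 : ℕ → ℕ → ℕ → ℕ → Bool := onCell 0 536870912 536870912 536870912 33554432 16777216
    (rowFK 2 false true true .up 0 0 1 (qsf 0 536870912 536870912 536870912 0) ndF2q0 ndF0q1 pcF0 Cut.none Ext.none)

def k0_pp_001 : ∃ t, chk3 f_pp_001 t 1 1 1 = true :=
  ⟨(b (l 3) (b (l 3) (a (l 2) (b (l 3) (a (l 2) (l 183244061991)))))), by decide +kernel⟩

theorem c_pp_001 : CertF 0 536870912 536870912 536870912 33554432 16777216 false true true .up 0 0 1
    ndF2q0 ndF0q1 pcF0 Cut.none Ext.none :=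
  certFK2 (fam := false) (s1 := true) (s2 := true) (a := 0) (b := 0) (c := 1) (cn := .up) (n1 := ndF2q0) (n2 := ndF0q1) (pc := pcF0) (cut := Cut.none) (xt := Ext.none) (P1 := 0) (W1 := 536870912) (P2 := 536870912) (W2 := 536870912) (P3 := 33554432) (W3 := 16777216)
    rfl rfl rfl (fun _ => rfl) k0_pp_001

noncomputable def cut_pp_011 : Cut := Cut.of [[⟨0, 0, 0, 33554432⟩, ⟨1, 1, 0, 33554432⟩, ⟨2, 1, 0, 33554432⟩]]

noncomputable def f_pp_011 : ℕ → ℕ → ℕ → ℕ → Bool := onCell 0 536870912 536870912 536870912 33554432 16777216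
    (rowFK 0 false true true .pnn 0 1 1 (qsf 0 536870912 536870912 536870912 1) ndF2q0 ndF0q1 pcF1 cut_pp_011 Ext.none)

def k0_pp_011 : ∃ t, chk3 f_pp_011 t 1 1 1 = true :=
  ⟨(b (l 3) (b (l 3) (b (l 3) (b (a (l 3) (l 3)) (b (a (a (l 3) (l 3)) (l 3)) (a (a (b (l 3) (a (a (a (l 6) (l 16923832)) (l 16993768)) (l 17313232))) (a (l 17617912) (l 17813368))) (a (l 148883899095) (l 18453592)))))))), by decide +kernel⟩

theorem c_pp_011 : CertF 0 536870912 536870912 536870912 33554432 16777216 false true true .pnn 0 1 1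
    ndF2q0 ndF0q1 pcF1 cut_pp_011 Ext.none :=
  certFK0 (fam := false) (s1 := true) (s2 := true) (a := 0) (b := 1) (c := 1) (cn := .pnn) (n1 := ndF2q0) (n2 := ndF0q1) (pc := pcF1) (cut := cut_pp_011) (xt := Ext.none) (P1 := 0) (W1 := 536870912) (P2 := 536870912) (W2 := 536870912) (P3 := 33554432) (W3 := 16777216)
    rfl rfl rfl k0_pp_011

noncomputable def cut_pp_012 : Cut := Cut.of [[⟨0, 0, 0, 33554432⟩, ⟨1, 1, 0, 33554432⟩, ⟨2, 1, 0, 33554432⟩]]

noncomputable def f_pp_012 : ℕ → ℕ → ℕ → ℕ → Bool := onCell 536870912 536870912 0 536870912 33554432 16777216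
    (rowFK 2 false true true .pnp 0 1 2 (qsf 0 536870912 0 536870912 1) ndF2q0 ndF0q2 pcF1 cut_pp_012 Ext.none)

def k0_pp_012 : ∃ t, chk3 f_pp_012 t 1 1 1 = true :=
  ⟨(a (b (a (l 17410888) (b (l 17692384) (l 17215720))) (a (a (b (l 2) (l 18139848)) (b (l 17277384) (l 17853240))) (b (a (l 17286280) (l 17308304)) (a (l 17776352) (l 17683528))))) (b (a (b (l 18077808) (l 17587400)) (a (l 18413600) (a (l 18884696) (a (l 19029368) (a (l 19142648) (l 19186400)))))) (a (b (a (l 17313680) (l 17254056)) (a (l 17767424) (b (l 17341024) (l 17442184)))) (b (a (l 17438720) (b (l 18230552) (l 17788336))) (a (b (l 17121992) (l 17311488)) (b (a (l 17132744) (b (l 17562280) (l 17217448))) (b (a (l 16962344) (a (l 16900040) (b (l 16858320) (l 16841504)))) (a (l 16952160) (a (b (l 16873976) (l 16864208)) (b (a (l 16838408) (l 6)) (l 6))))))))))), by decide +kernel⟩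

theorem c_pp_012 : CertF 0 536870912 0 536870912 33554432 16777216 false true true .pnp 0 1 2
    ndF2q0 ndF0q2 pcF1 cut_pp_012 Ext.none :=
  certFK2 (fam := false) (s1 := true) (s2 := true) (a := 0) (b := 1) (c := 2) (cn := .pnp) (n1 := ndF2q0) (n2 := ndF0q2) (pc := pcF1) (cut := cut_pp_012) (xt := Ext.none) (P1 := 0) (W1 := 536870912) (P2 := 0) (W2 := 536870912) (P3 := 33554432) (W3 := 16777216)
    rfl rfl rfl (fun _ => rfl) k0_pp_012

noncomputable def cut_pp_022 : Cut := Cut.of [[⟨0, 0, 0, 33554432⟩, ⟨1, 1, 0, 33554432⟩, ⟨2, 1, 0, 33554432⟩]]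

noncomputable def f_pp_022 : ℕ → ℕ → ℕ → ℕ → Bool := onCell 0 536870912 0 536870912 33554432 16777216
    (rowFK 0 false true true .pp 0 2 2 (qsf 0 536870912 0 536870912 2) ndF2q0 ndF0q2 pcF2 cut_pp_022 Ext.none)

def k0_pp_022 : ∃ t, chk3 f_pp_022 t 1 1 1 = true :=
  ⟨(a (b (a (b (a (l 19534008) (l 19629112)) (a (l 19336440) (a (l 19306136) (b (l 19380912) (b (l 19210624) (a (l 19080264) (a (l 19046296) (l 19026192)))))))) (b (l 19779528) (a (b (a (b (l 19420160) (b (l 19326040) (l 19266624))) (l 1)) (l 19087520)) (l 1)))) (a (b (b (a (l 19051064) (a (l 18873128) (b (a (b (l 18942272) (a (l 18849504) (l 18814656))) (l 18843448)) (l 18639192)))) (a (a (b (l 18861816) (l 18579752)) (l 18517256)) (a (b (a (l 18524560) (b (a (l 18527928) (l 18477544)) (l 18341032))) (a (a (l 18179120) (l 18124176)) (l 18087200))) (l 18224744)))) (a (b (a (a (b (a (b (l 18360416) (l 18023928)) (l 18155848)) (a (b (b (l 17627096) (b (l 17470120) (l 17231640))) (b (c (l 17518328)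 (l 16731216)) (l 16738624))) (l 17334928))) (b (l 18054784) (l 17259456))) (b (a (l 17916112) (b (l 17918656) (a (l 17651496) (l 17592760)))) (a (b (l 17381560) (a (b (l 17059504) (l 16784056)) (l 16892592))) (l 17094784)))) (a (b (b (a (a (a (b (l 16736488) (l 16739544)) (l 16742304)) (l 16749232)) (a (l 16759232) (l 16770016))) (a (l 6) (a (l 6) (l 16781104)))) (a (l 6) (a (l 6) (l 1)))) (a (b (b (l 16786368) (l 1)) (l 1)) (l 1)))) (b (a (b (l 17691792) (l 1)) (l 1)) (l 1)))) (b (l 1) (l 1)))) (l 1)), by decide +kernel⟩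

theorem c_pp_022 : CertF 0 536870912 0 536870912 33554432 16777216 false true true .pp 0 2 2
    ndF2q0 ndF0q2 pcF2 cut_pp_022 Ext.none :=
  certFK0 (fam := false) (s1 := true) (s2 := true) (a := 0) (b := 2) (c := 2) (cn := .pp) (n1 := ndF2q0) (n2 := ndF0q2) (pc := pcF2) (cut := cut_pp_022) (xt := Ext.none) (P1 := 0) (W1 := 536870912) (P2 := 0) (W2 := 536870912) (P3 := 33554432) (W3 := 16777216)
    rfl rfl rfl k0_pp_022

noncomputable def cut_pp_101 : Cut := Cut.of [[⟨0, 1, 0, 33554432⟩, ⟨1, 0, 0, 33554432⟩, ⟨2, 1, 0, 33554432⟩], [⟨0, 1, 2, 25165824⟩, ⟨1, 0, 1, 25165824⟩, ⟨2, 1, 0, 7864320⟩, ⟨0, 0, 0, 1056964608⟩, ⟨0, 1, 0, 67108864⟩, ⟨1, 0, 0, 67108864⟩, ⟨1, 1, 0, 1056964608⟩]]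

noncomputable def f_pp_101 : ℕ → ℕ → ℕ → ℕ → Bool := onCell 0 536870912 536870912 536870912 33554432 16777216
    (rowFK 2 false true true .npn 1 0 1 (qsf 536870912 536870912 536870912 536870912 0) ndF2q1 ndF0q1 pcF0 cut_pp_101 Ext.none)

def k0_pp_101 : ∃ t, chk3 f_pp_101 t 1 1 1 = true :=
  ⟨(b (l 3) (b (l 3) (b (l 3) (b (l 3) (a (b (l 3) (b (l 3) (a (b (l 3) (b (l 3) (a (b (l 3) (b (l 3) (a (a (l 6) (a (l 6) (a (l 6) (l 14)))) (a (l 14) (c (a (l 135997302215) (l 17559008)) (a (l 14) (l 134923324487))))))) (a (a (l 145661389063) (l 17806256)) (l 17997488))))) (a (l 171969132103) (l 18457640))))) (a (b (l 3) (l 187003234231)) (l 176265202711))))))), by decide +kernel⟩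

theorem c_pp_101 : CertF 536870912 536870912 536870912 536870912 33554432 16777216 false true true .npn 1 0 1
    ndF2q1 ndF0q1 pcF0 cut_pp_101 Ext.none :=
  certFK2 (fam := false) (s1 := true) (s2 := true) (a := 1) (b := 0) (c := 1) (cn := .npn) (n1 := ndF2q1) (n2 := ndF0q1) (pc := pcF0) (cut := cut_pp_101) (xt := Ext.none) (P1 := 536870912) (W1 := 536870912) (P2 := 536870912) (W2 := 536870912) (P3 := 33554432) (W3 := 16777216)
    rfl rfl rfl (fun _ => rfl) k0_pp_101

noncomputable def cut_pp_102 : Cut := Cut.of [[⟨0, 1, 0, 33554432⟩, ⟨1, 0, 0, 33554432⟩, ⟨2, 1, 0, 33554432⟩], [⟨0, 1, 2, 25165824⟩, ⟨1, 0, 1, 25165824⟩, ⟨2, 1, 0, 7864320⟩, ⟨0, 0, 0, 1056964608⟩, ⟨0, 1, 0, 67108864⟩, ⟨1, 0, 0, 67108864⟩, ⟨1, 1, 0, 1056964608⟩]]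

noncomputable def f_pp_102 : ℕ → ℕ → ℕ → ℕ → Bool := onCell 536870912 536870912 0 536870912 33554432 16777216
    (rowFK 0 false true true .npp 1 0 2 (qsf 536870912 536870912 0 536870912 0) ndF2q1 ndF0q2 pcF0 cut_pp_102 Ext.none)

def k0_pp_102 : ∃ t, chk3 f_pp_102 t 2 1 1 = true :=
  ⟨(b (a (b (l 2) (l 17887800)) (b (a (b (l 18163432) (l 18139384)) (b (l 18539520) (l 18403048))) (a (l 18129864) (b (l 18350840) (l 18330504))))) (a (b (b (l 18002672) (l 18211880)) (b (l 18524008) (b (l 18611440) (l 18895624)))) (b (b (l 18289664) (l 18411184)) (b (l 18654640) (b (l 18698496) (l 18998712)))))), by decide +kernel⟩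

def k1_pp_102 : ∃ t, chk3 f_pp_102 t 3 1 1 = true :=
  ⟨(b (a (b (a (l 18817624) (l 19383136)) (a (l 18635312) (l 18981872))) (b (a (b (c (l 19720952) (l 19293400)) (l 19374904)) (a (c (b (l 20090200) (l 19423488)) (l 19551904)) (a (c (l 19960784) (l 19698104)) (a (c (l 20064920) (l 19769848)) (c (l 20125624) (l 19816944)))))) (a (l 19629416) (a (l 19675184) (a (l 19839504) (a (l 19913768) (l 19958000))))))) (a (a (b (l 18673928) (b (l 18667792) (b (l 18638832) (l 18572080)))) (b (l 18915608) (b (l 18763464) (b (l 18592952) (b (l 18454184) (l 18337520)))))) (b (a (b (l 19323712) (l 19221040)) (a (b (l 19709312) (l 19556808)) (a (b (l 19925016) (l 19731224)) (a (b (l 20031000) (l 19793480)) (l 20001936))))) (b (a (b (l 19042960) (l 18844152)) (a (l 19075968) (a (l 19015944) (a (l 18850456) (l 18888528))))) (b (a (a (l 18573768) (l 18534480)) (a (b (l 18514432) (l 18194456)) (a (b (l 18059344) (l 17455904)) (a (l 16897608) (l 16882320))))) (b (a (a (l 18337336)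 (l 18194016)) (a (a (l 17953752) (l 17585680)) (a (a (l 16995168) (l 16769152)) (a (l 16759464) (l 6))))) (a (a (l 18139152) (b (l 17984656) (a (l 17907456) (b (l 17775592) (l 17476376))))) (b (a (a (l 17661648) (l 17160864)) (a (l 16781048) (l 6))) (a (a (b (l 17502680) (b (l 17273816) (c (a (l 17591496) (l 17247504)) (a (l 17132968) (l 14))))) (l 14)) (a (a (a (l 14) (b (l 16764584) (l 6))) (l 6)) (l 6))))))))))), by decide +kernel⟩

theorem s2_pp_102 : ∃ t, chk3 f_pp_102 t 1 1 1 = true := ex3_a k0_pp_102 k1_pp_102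

theorem c_pp_102 : CertF 536870912 536870912 0 536870912 33554432 16777216 false true true .npp 1 0 2
    ndF2q1 ndF0q2 pcF0 cut_pp_102 Ext.none :=
  certFK0 (fam := false) (s1 := true) (s2 := true) (a := 1) (b := 0) (c := 2) (cn := .npp) (n1 := ndF2q1) (n2 := ndF0q2) (pc := pcF0) (cut := cut_pp_102) (xt := Ext.none) (P1 := 536870912) (W1 := 536870912) (P2 := 0) (W2 := 536870912) (P3 := 33554432) (W3 := 16777216)
    rfl rfl rfl s2_pp_102

noncomputable def f_pp_112 : ℕ → ℕ → ℕ → ℕ → Bool := onCell 536870912 536870912 0 536870912 33554432 16777216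
    (rowFK 0 false true true .dn 1 1 2 (qsf 536870912 536870912 0 536870912 1) ndF2q1 ndF0q2 pcF1 Cut.none Ext.none)

def k0_pp_112 : ∃ t, chk3 f_pp_112 t 1 1 1 = true :=
  ⟨(a (b (b (l 19225560) (l 19255800)) (a (b (l 19379416) (b (l 19127928) (a (l 18877416) (l 1)))) (b (l 1) (l 1)))) (l 1)), by decide +kernel⟩

theorem c_pp_112 : CertF 536870912 536870912 0 536870912 33554432 16777216 false true true .dn 1 1 2
    ndF2q1 ndF0q2 pcF1 Cut.none Ext.none :=
  certFK0 (fam := false) (s1 := true) (s2 := true) (a := 1) (b := 1) (c := 2) (cn := .dn) (n1 := ndF2q1) (n2 := ndF0q2) (pc := pcF1) (cut := Cut.none) (xt := Ext.none) (P1 := 536870912) (W1 := 536870912) (P2 := 0) (W2 := 536870912) (P3 := 33554432) (W3 := 16777216)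
    rfl rfl rfl k0_pp_112

noncomputable def f_pp_202_a : ℕ → ℕ → ℕ → ℕ → Bool := onCell 0 536870912 0 536870912 33554432 16777216
    (rowFK 0 false true true .pp 2 0 2 (qsf 0 536870912 0 536870912 0) ndF2q2a ndF0q2 pcF0 Cut.none Ext.none)

def k0_pp_202_a : ∃ t, chk3 f_pp_202_a t 1 1 1 = true :=
  ⟨(l 3), by decide +kernel⟩

theorem c_pp_202_a : CertF 0 536870912 0 536870912 33554432 16777216 false true true .pp 2 0 2
    ndF2q2a ndF0q2 pcF0 Cut.none Ext.none :=
  certFK0 (fam := false) (s1 := true) (s2 := true) (a := 2) (b := 0) (c := 2) (cn := .pp) (n1 := ndF2q2a) (n2 := ndF0q2) (pc := pcF0) (cut := Cut.none) (xt := Ext.none) (P1 := 0) (W1 := 536870912) (P2 := 0) (W2 := 536870912) (P3 := 33554432) (W3 := 16777216)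
    rfl rfl rfl k0_pp_202_a

noncomputable def f_pp_202_b : ℕ → ℕ → ℕ → ℕ → Bool := onCell 1239849684 370763052 0 536870912 33554432 16777216
    (rowFK 0 false true true .pp 2 0 2 (qsf 1239849684 370763052 0 536870912 0) ndF2q2b ndF0q2 pcF0 Cut.none Ext.none)

def k0_pp_202_b : ∃ t, chk3 f_pp_202_b t 1 1 1 = true :=
  ⟨(l 3), by decide +kernel⟩

theorem c_pp_202_b : CertF 1239849684 370763052 0 536870912 33554432 16777216 false true true .pp 2 0 2
    ndF2q2b ndF0q2 pcF0 Cut.none Ext.none :=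
  certFK0 (fam := false) (s1 := true) (s2 := true) (a := 2) (b := 0) (c := 2) (cn := .pp) (n1 := ndF2q2b) (n2 := ndF0q2) (pc := pcF0) (cut := Cut.none) (xt := Ext.none) (P1 := 1239849684) (W1 := 370763052) (P2 := 0) (W2 := 536870912) (P3 := 33554432) (W3 := 16777216)
    rfl rfl rfl k0_pp_202_b

noncomputable def f_pm_001 : ℕ → ℕ → ℕ → ℕ → Bool := onCell 0 536870912 0 536870912 33554432 16777216
    (rowFK 1 false true false .up 0 0 1 (qsf 0 536870912 536870912 536870912 0) ndF2q0 ndF0q1 pcF0 Cut.none Ext.none)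

def k0_pm_001 : ∃ t, chk3 f_pm_001 t 1 1 1 = true :=
  ⟨(a (l 4) (l 4)), by decide +kernel⟩

theorem c_pm_001 : CertF 0 536870912 536870912 536870912 33554432 16777216 false true false .up 0 0 1
    ndF2q0 ndF0q1 pcF0 Cut.none Ext.none :=
  certFK1 (fam := false) (s1 := true) (s2 := false) (a := 0) (b := 0) (c := 1) (cn := .up) (n1 := ndF2q0) (n2 := ndF0q1) (pc := pcF0) (cut := Cut.none) (xt := Ext.none) (P1 := 0) (W1 := 536870912) (P2 := 536870912) (W2 := 536870912) (P3 := 33554432) (W3 := 16777216)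
    rfl rfl rfl (fun _ => rfl) k0_pm_001

noncomputable def cut_pm_011 : Cut := Cut.of [[⟨0, 0, 0, 33554432⟩, ⟨1, 1, 0, 33554432⟩, ⟨2, 1, 0, 33554432⟩]]

noncomputable def f_pm_011 : ℕ → ℕ → ℕ → ℕ → Bool := onCell 0 536870912 536870912 536870912 33554432 16777216
    (rowFK 0 false true false .pnn 0 1 1 (qsf 0 536870912 536870912 536870912 1) ndF2q0 ndF0q1 pcF1 cut_pm_011 Ext.none)

def k0_pm_011 : ∃ t, chk3 f_pm_011 t 1 1 1 = true :=
  ⟨(a (b (l 4) (a (b (l 4) (b (l 4) (a (b (l 4) (a (a (b (l 4) (a (l 6) (l 4))) (l 4)) (l 4))) (l 4)))) (l 4))) (l 4)), by decide +kernel⟩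

theorem c_pm_011 : CertF 0 536870912 536870912 536870912 33554432 16777216 false true false .pnn 0 1 1
    ndF2q0 ndF0q1 pcF1 cut_pm_011 Ext.none :=
  certFK0 (fam := false) (s1 := true) (s2 := false) (a := 0) (b := 1) (c := 1) (cn := .pnn) (n1 := ndF2q0) (n2 := ndF0q1) (pc := pcF1) (cut := cut_pm_011) (xt := Ext.none) (P1 := 0) (W1 := 536870912) (P2 := 536870912) (W2 := 536870912) (P3 := 33554432) (W3 := 16777216)
    rfl rfl rfl k0_pm_011

noncomputable def cut_pm_012 : Cut := Cut.of [[⟨0, 0, 0, 33554432⟩, ⟨1, 1, 0, 33554432⟩, ⟨2, 1, 0, 33554432⟩]]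

noncomputable def f_pm_012 : ℕ → ℕ → ℕ → ℕ → Bool := onCell 536870912 536870912 0 536870912 33554432 16777216
    (rowFK 2 false true false .pnp 0 1 2 (qsf 0 536870912 0 536870912 1) ndF2q0 ndF0q2 pcF1 cut_pm_012 Ext.none)

def k0_pm_012 : ∃ t, chk3 f_pm_012 t 1 1 1 = true :=
  ⟨(a (b (a (l 17648840) (l 18009480)) (b (a (l 17697808) (l 18148176)) (l 4))) (b (a (l 18548448) (a (l 19116384) (a (l 19491944) (a (l 19748632) (a (l 19882648) (l 19937416)))))) (a (b (l 18772696) (l 4)) (a (b (l 19301488) (b (l 4) (l 4))) (a (b (l 19653112) (b (l 19117352) (l 4))) (a (b (l 19832272) (b (l 19018248) (l 4))) (a (b (l 19906128) (b (l 18827680) (l 589719303767))) (b (l 19920488) (b (l 18551336) (b (l 16699464) (l 6))))))))))), by decide +kernel⟩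

theorem c_pm_012 : CertF 0 536870912 0 536870912 33554432 16777216 false true false .pnp 0 1 2
    ndF2q0 ndF0q2 pcF1 cut_pm_012 Ext.none :=
  certFK2 (fam := false) (s1 := true) (s2 := false) (a := 0) (b := 1) (c := 2) (cn := .pnp) (n1 := ndF2q0) (n2 := ndF0q2) (pc := pcF1) (cut := cut_pm_012) (xt := Ext.none) (P1 := 0) (W1 := 536870912) (P2 := 0) (W2 := 536870912) (P3 := 33554432) (W3 := 16777216)
    rfl rfl rfl (fun _ => rfl) k0_pm_012

noncomputable def cut_pm_022 : Cut := Cut.of [[⟨0, 0, 0, 33554432⟩, ⟨1, 1, 0, 33554432⟩, ⟨2, 1, 0, 33554432⟩]]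

noncomputable def f_pm_022 : ℕ → ℕ → ℕ → ℕ → Bool := onCell 0 536870912 0 536870912 33554432 16777216
    (rowFK 0 false true false .pp 0 2 2 (qsf 0 536870912 0 536870912 2) ndF2q0 ndF0q2 pcF2 cut_pm_022 Ext.none)

def k0_pm_022 : ∃ t, chk3 f_pm_022 t 1 1 1 = true :=
  ⟨(a (b (a (b (a (l 19620368) (l 19891192)) (a (a (l 19545112) (l 19744248)) (l 20033984))) (b (l 20194368) (l 20278536))) (a (b (a (a (b (l 19363304) (a (b (l 19049552) (l 18778272)) (l 19089336))) (b (l 19635496) (l 19343648))) (b (l 20019352) (a (l 19645112) (l 19824424)))) (a (a (b (a (a (b (a (b (l 18406632) (l 18048704)) (l 18306064)) (a (b (c (l 18016904) (a (b (l 17507632) (l 17109976)) (l 17382600))) (b (c (l 17420312) (l 16738056)) (b (c (l 17151992) (l 16738000)) (l 16745184)))) (l 17182456))) (b (l 18364272) (l 17458992))) (b (l 18484224) (a (l 17496056) (l 17537224)))) (b (b (a (a (a (a (a (a (b (l 16749856) (b (l 16750168) (l 16752064))) (l 16748088)) (l 16746528)) (l 16743432))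 (l 16737288)) (l 16725224)) (l 16682448)) (a (l 6) (a (l 6) (l 16708912)))) (a (l 6) (a (l 6) (l 1))))) (b (b (l 18730000) (a (l 17596624) (l 17640792))) (b (a (l 16695056) (l 1)) (l 1)))) (b (a (b (l 18931016) (l 1)) (l 1)) (l 1)))) (b (l 1) (l 1)))) (l 1)), by decide +kernel⟩

theorem c_pm_022 : CertF 0 536870912 0 536870912 33554432 16777216 false true false .pp 0 2 2
    ndF2q0 ndF0q2 pcF2 cut_pm_022 Ext.none :=
  certFK0 (fam := false) (s1 := true) (s2 := false) (a := 0) (b := 2) (c := 2) (cn := .pp) (n1 := ndF2q0) (n2 := ndF0q2) (pc := pcF2) (cut := cut_pm_022) (xt := Ext.none) (P1 := 0) (W1 := 536870912) (P2 := 0) (W2 := 536870912) (P3 := 33554432) (W3 := 16777216)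
    rfl rfl rfl k0_pm_022

noncomputable def f_pm_101 : ℕ → ℕ → ℕ → ℕ → Bool := onCell 536870912 536870912 536870912 536870912 33554432 16777216
    (rowFK 0 false true false .npn 1 0 1 (qsf 536870912 536870912 536870912 536870912 0) ndF2q1 ndF0q1 pcF0 Cut.none Ext.none)

def k0_pm_101 : ∃ t, chk3 f_pm_101 t 1 1 1 = true :=
  ⟨(l 4), by decide +kernel⟩

theorem c_pm_101 : CertF 536870912 536870912 536870912 536870912 33554432 16777216 false true false .npn 1 0 1
    ndF2q1 ndF0q1 pcF0 Cut.none Ext.none :=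
  certFK0 (fam := false) (s1 := true) (s2 := false) (a := 1) (b := 0) (c := 1) (cn := .npn) (n1 := ndF2q1) (n2 := ndF0q1) (pc := pcF0) (cut := Cut.none) (xt := Ext.none) (P1 := 536870912) (W1 := 536870912) (P2 := 536870912) (W2 := 536870912) (P3 := 33554432) (W3 := 16777216)
    rfl rfl rfl k0_pm_101

noncomputable def f_pm_102 : ℕ → ℕ → ℕ → ℕ → Bool := onCell 0 536870912 0 536870912 33554432 16777216
    (rowFK 2 false true false .npp 1 0 2 (qsf 536870912 536870912 0 536870912 0) ndF2q1 ndF0q2 pcF0 Cut.none Ext.none)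

def k0_pm_102 : ∃ t, chk3 f_pm_102 t 1 1 1 = true :=
  ⟨(a (b (a (b (l 2) (b (l 2) (l 19905024))) (a (b (a (l 19611744) (b (l 19525464) (l 19481176))) (a (b (a (l 19536920) (a (l 19496472) (l 19472320))) (a (b (l 19518168) (a (l 19520864) (l 19488168))) (l 19450712))) (l 19382856))) (b (l 19367648) (l 19266224)))) (l 4)) (b (a (b (b (c (l 19831976) (l 19002440)) (l 19141560)) (b (l 19095456) (l 19049112))) (b (a (c (l 19308624) (l 18648608)) (b (l 18660800) (l 18738808))) (b (l 18833784) (l 18824032)))) (a (l 4) (l 4)))), by decide +kernel⟩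

theorem c_pm_102 : CertF 536870912 536870912 0 536870912 33554432 16777216 false true false .npp 1 0 2
    ndF2q1 ndF0q2 pcF0 Cut.none Ext.none :=
  certFK2 (fam := false) (s1 := true) (s2 := false) (a := 1) (b := 0) (c := 2) (cn := .npp) (n1 := ndF2q1) (n2 := ndF0q2) (pc := pcF0) (cut := Cut.none) (xt := Ext.none) (P1 := 536870912) (W1 := 536870912) (P2 := 0) (W2 := 536870912) (P3 := 33554432) (W3 := 16777216)
    rfl rfl rfl (fun _ => rfl) k0_pm_102

noncomputable def f_pm_112 : ℕ → ℕ → ℕ → ℕ → Bool := onCell 536870912 536870912 0 536870912 33554432 16777216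
    (rowFK 2 false true false .dn 1 1 2 (qsf 536870912 536870912 0 536870912 1) ndF2q1 ndF0q2 pcF1 Cut.none Ext.none)

def k0_pm_112 : ∃ t, chk3 f_pm_112 t 1 1 1 = true :=
  ⟨(a (b (a (l 19207528) (l 19195384)) (b (l 164321966087) (l 4))) (l 1)), by decide +kernel⟩

theorem c_pm_112 : CertF 536870912 536870912 0 536870912 33554432 16777216 false true false .dn 1 1 2
    ndF2q1 ndF0q2 pcF1 Cut.none Ext.none :=
  certFK2 (fam := false) (s1 := true) (s2 := false) (a := 1) (b := 1) (c := 2) (cn := .dn) (n1 := ndF2q1) (n2 := ndF0q2) (pc := pcF1) (cut := Cut.none) (xt := Ext.none) (P1 := 536870912) (W1 := 536870912) (P2 := 0) (W2 := 536870912) (P3 := 33554432) (W3 := 16777216)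
    rfl rfl rfl (fun _ => rfl) k0_pm_112

noncomputable def cut_pm_202_a : Cut := Cut.of [[⟨0, 1, 0, 33554432⟩, ⟨1, 0, 0, 33554432⟩, ⟨2, 1, 0, 33554432⟩]]

noncomputable def f_pm_202_a : ℕ → ℕ → ℕ → ℕ → Bool := onCell 0 536870912 0 536870912 33554432 16777216
    (rowFK 0 false true false .pp 2 0 2 (qsf 0 536870912 0 536870912 0) ndF2q2a ndF0q2 pcF0 cut_pm_202_a Ext.none)

def k0_pm_202_a : ∃ t, chk3 f_pm_202_a t 1 1 1 = true :=
  ⟨(b (l 3) (b (l 3) (b (l 3) (b (l 3) (a (l 1) (a (l 1) (a (l 1) (a (b (l 3) (l 1)) (l 6))))))))), by decide +kernel⟩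

theorem c_pm_202_a : CertF 0 536870912 0 536870912 33554432 16777216 false true false .pp 2 0 2
    ndF2q2a ndF0q2 pcF0 cut_pm_202_a Ext.none :=
  certFK0 (fam := false) (s1 := true) (s2 := false) (a := 2) (b := 0) (c := 2) (cn := .pp) (n1 := ndF2q2a) (n2 := ndF0q2) (pc := pcF0) (cut := cut_pm_202_a) (xt := Ext.none) (P1 := 0) (W1 := 536870912) (P2 := 0) (W2 := 536870912) (P3 := 33554432) (W3 := 16777216)
    rfl rfl rfl k0_pm_202_a

noncomputable def cut_pm_202_b : Cut := Cut.of [[⟨0, 1, 0, 33554432⟩, ⟨1, 0, 0, 33554432⟩, ⟨2, 1, 0, 33554432⟩]]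

noncomputable def f_pm_202_b : ℕ → ℕ → ℕ → ℕ → Bool := onCell 1239849684 370763052 0 536870912 33554432 16777216
    (rowFK 0 false true false .pp 2 0 2 (qsf 1239849684 370763052 0 536870912 0) ndF2q2b ndF0q2 pcF0 cut_pm_202_b Ext.none)

def k0_pm_202_b : ∃ t, chk3 f_pm_202_b t 1 1 1 = true :=
  ⟨(b (l 3) (l 1)), by decide +kernel⟩

theorem c_pm_202_b : CertF 1239849684 370763052 0 536870912 33554432 16777216 false true false .pp 2 0 2
    ndF2q2b ndF0q2 pcF0 cut_pm_202_b Ext.none :=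
  certFK0 (fam := false) (s1 := true) (s2 := false) (a := 2) (b := 0) (c := 2) (cn := .pp) (n1 := ndF2q2b) (n2 := ndF0q2) (pc := pcF0) (cut := cut_pm_202_b) (xt := Ext.none) (P1 := 1239849684) (W1 := 370763052) (P2 := 0) (W2 := 536870912) (P3 := 33554432) (W3 := 16777216)
    rfl rfl rfl k0_pm_202_b

noncomputable def f_mm_001 : ℕ → ℕ → ℕ → ℕ → Bool := onCell 0 536870912 536870912 536870912 33554432 16777216
    (rowFK 0 false false false .up 0 0 1 (qsf 0 536870912 536870912 536870912 0) ndF2q0 ndF0q1 pcF0 Cut.none Ext.none)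

def k0_mm_001 : ∃ t, chk3 f_mm_001 t 1 1 1 = true :=
  ⟨(l 5), by decide +kernel⟩

theorem c_mm_001 : CertF 0 536870912 536870912 536870912 33554432 16777216 false false false .up 0 0 1
    ndF2q0 ndF0q1 pcF0 Cut.none Ext.none :=
  certFK0 (fam := false) (s1 := false) (s2 := false) (a := 0) (b := 0) (c := 1) (cn := .up) (n1 := ndF2q0) (n2 := ndF0q1) (pc := pcF0) (cut := Cut.none) (xt := Ext.none) (P1 := 0) (W1 := 536870912) (P2 := 536870912) (W2 := 536870912) (P3 := 33554432) (W3 := 16777216)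
    rfl rfl rfl k0_mm_001

noncomputable def f_mm_011 : ℕ → ℕ → ℕ → ℕ → Bool := onCell 0 536870912 536870912 536870912 33554432 16777216
    (rowFK 0 false false false .pnn 0 1 1 (qsf 0 536870912 536870912 536870912 1) ndF2q0 ndF0q1 pcF1 Cut.none Ext.none)

def k0_mm_011 : ∃ t, chk3 f_mm_011 t 1 1 1 = true :=
  ⟨(l 5), by decide +kernel⟩

theorem c_mm_011 : CertF 0 536870912 536870912 536870912 33554432 16777216 false false false .pnn 0 1 1
    ndF2q0 ndF0q1 pcF1 Cut.none Ext.none :=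
  certFK0 (fam := false) (s1 := false) (s2 := false) (a := 0) (b := 1) (c := 1) (cn := .pnn) (n1 := ndF2q0) (n2 := ndF0q1) (pc := pcF1) (cut := Cut.none) (xt := Ext.none) (P1 := 0) (W1 := 536870912) (P2 := 536870912) (W2 := 536870912) (P3 := 33554432) (W3 := 16777216)
    rfl rfl rfl k0_mm_011

noncomputable def f_mm_012 : ℕ → ℕ → ℕ → ℕ → Bool := onCell 0 536870912 0 536870912 33554432 16777216
    (rowFK 0 false false false .pnp 0 1 2 (qsf 0 536870912 0 536870912 1) ndF2q0 ndF0q2 pcF1 Cut.none Ext.none)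

def k0_mm_012 : ∃ t, chk3 f_mm_012 t 1 1 1 = true :=
  ⟨(l 5), by decide +kernel⟩

theorem c_mm_012 : CertF 0 536870912 0 536870912 33554432 16777216 false false false .pnp 0 1 2
    ndF2q0 ndF0q2 pcF1 Cut.none Ext.none :=
  certFK0 (fam := false) (s1 := false) (s2 := false) (a := 0) (b := 1) (c := 2) (cn := .pnp) (n1 := ndF2q0) (n2 := ndF0q2) (pc := pcF1) (cut := Cut.none) (xt := Ext.none) (P1 := 0) (W1 := 536870912) (P2 := 0) (W2 := 536870912) (P3 := 33554432) (W3 := 16777216)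
    rfl rfl rfl k0_mm_012

noncomputable def f_mm_022 : ℕ → ℕ → ℕ → ℕ → Bool := onCell 0 536870912 0 536870912 33554432 16777216
    (rowFK 0 false false false .pp 0 2 2 (qsf 0 536870912 0 536870912 2) ndF2q0 ndF0q2 pcF2 Cut.none Ext.none)

def k0_mm_022 : ∃ t, chk3 f_mm_022 t 1 1 1 = true :=
  ⟨(l 5), by decide +kernel⟩

theorem c_mm_022 : CertF 0 536870912 0 536870912 33554432 16777216 false false false .pp 0 2 2
    ndF2q0 ndF0q2 pcF2 Cut.none Ext.none :=
  certFK0 (fam := false) (s1 := false) (s2 := false) (a := 0) (b := 2) (c := 2) (cn := .pp) (n1 := ndF2q0) (n2 := ndF0q2) (pc := pcF2) (cut := Cut.none) (xt := Ext.none) (P1 := 0) (W1 := 536870912) (P2 := 0) (W2 := 536870912) (P3 := 33554432) (W3 := 16777216)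
    rfl rfl rfl k0_mm_022

noncomputable def f_mm_101 : ℕ → ℕ → ℕ → ℕ → Bool := onCell 536870912 536870912 0 536870912 33554432 16777216
    (rowFK 1 false false false .npn 1 0 1 (qsf 536870912 536870912 536870912 536870912 0) ndF2q1 ndF0q1 pcF0 Cut.none Ext.none)

def k0_mm_101 : ∃ t, chk3 f_mm_101 t 1 1 1 = true :=
  ⟨(a (l 5) (l 5)), by decide +kernel⟩

theorem c_mm_101 : CertF 536870912 536870912 536870912 536870912 33554432 16777216 false false false .npn 1 0 1
    ndF2q1 ndF0q1 pcF0 Cut.none Ext.none :=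
  certFK1 (fam := false) (s1 := false) (s2 := false) (a := 1) (b := 0) (c := 1) (cn := .npn) (n1 := ndF2q1) (n2 := ndF0q1) (pc := pcF0) (cut := Cut.none) (xt := Ext.none) (P1 := 536870912) (W1 := 536870912) (P2 := 536870912) (W2 := 536870912) (P3 := 33554432) (W3 := 16777216)
    rfl rfl rfl (fun _ => rfl) k0_mm_101

noncomputable def f_mm_102 : ℕ → ℕ → ℕ → ℕ → Bool := onCell 536870912 536870912 0 536870912 33554432 16777216
    (rowFK 0 false false false .npp 1 0 2 (qsf 536870912 536870912 0 536870912 0) ndF2q1 ndF0q2 pcF0 Cut.none Ext.none)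

def k0_mm_102 : ∃ t, chk3 f_mm_102 t 1 1 1 = true :=
  ⟨(l 5), by decide +kernel⟩

theorem c_mm_102 : CertF 536870912 536870912 0 536870912 33554432 16777216 false false false .npp 1 0 2
    ndF2q1 ndF0q2 pcF0 Cut.none Ext.none :=
  certFK0 (fam := false) (s1 := false) (s2 := false) (a := 1) (b := 0) (c := 2) (cn := .npp) (n1 := ndF2q1) (n2 := ndF0q2) (pc := pcF0) (cut := Cut.none) (xt := Ext.none) (P1 := 536870912) (W1 := 536870912) (P2 := 0) (W2 := 536870912) (P3 := 33554432) (W3 := 16777216)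
    rfl rfl rfl k0_mm_102

noncomputable def f_mm_112 : ℕ → ℕ → ℕ → ℕ → Bool := onCell 536870912 536870912 0 536870912 33554432 16777216
    (rowFK 0 false false false .dn 1 1 2 (qsf 536870912 536870912 0 536870912 1) ndF2q1 ndF0q2 pcF1 Cut.none Ext.none)

def k0_mm_112 : ∃ t, chk3 f_mm_112 t 1 1 1 = true :=
  ⟨(l 5), by decide +kernel⟩

theorem c_mm_112 : CertF 536870912 536870912 0 536870912 33554432 16777216 false false false .dn 1 1 2
    ndF2q1 ndF0q2 pcF1 Cut.none Ext.none :=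
  certFK0 (fam := false) (s1 := false) (s2 := false) (a := 1) (b := 1) (c := 2) (cn := .dn) (n1 := ndF2q1) (n2 := ndF0q2) (pc := pcF1) (cut := Cut.none) (xt := Ext.none) (P1 := 536870912) (W1 := 536870912) (P2 := 0) (W2 := 536870912) (P3 := 33554432) (W3 := 16777216)
    rfl rfl rfl k0_mm_112

noncomputable def f_mm_202_a : ℕ → ℕ → ℕ → ℕ → Bool := onCell 0 536870912 0 536870912 33554432 16777216
    (rowFK 0 false false false .pp 2 0 2 (qsf 0 536870912 0 536870912 0) ndF2q2a ndF0q2 pcF0 Cut.none Ext.none)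

def k0_mm_202_a : ∃ t, chk3 f_mm_202_a t 1 1 1 = true :=
  ⟨(l 3), by decide +kernel⟩

theorem c_mm_202_a : CertF 0 536870912 0 536870912 33554432 16777216 false false false .pp 2 0 2
    ndF2q2a ndF0q2 pcF0 Cut.none Ext.none :=
  certFK0 (fam := false) (s1 := false) (s2 := false) (a := 2) (b := 0) (c := 2) (cn := .pp) (n1 := ndF2q2a) (n2 := ndF0q2) (pc := pcF0) (cut := Cut.none) (xt := Ext.none) (P1 := 0) (W1 := 536870912) (P2 := 0) (W2 := 536870912) (P3 := 33554432) (W3 := 16777216)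
    rfl rfl rfl k0_mm_202_a

noncomputable def f_mm_202_b : ℕ → ℕ → ℕ → ℕ → Bool := onCell 1239849684 370763052 0 536870912 33554432 16777216
    (rowFK 0 false false false .pp 2 0 2 (qsf 1239849684 370763052 0 536870912 0) ndF2q2b ndF0q2 pcF0 Cut.none Ext.none)

def k0_mm_202_b : ∃ t, chk3 f_mm_202_b t 1 1 1 = true :=
  ⟨(l 3), by decide +kernel⟩

theorem c_mm_202_b : CertF 1239849684 370763052 0 536870912 33554432 16777216 false false false .pp 2 0 2
    ndF2q2b ndF0q2 pcF0 Cut.none Ext.none :=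
  certFK0 (fam := false) (s1 := false) (s2 := false) (a := 2) (b := 0) (c := 2) (cn := .pp) (n1 := ndF2q2b) (n2 := ndF0q2) (pc := pcF0) (cut := Cut.none) (xt := Ext.none) (P1 := 1239849684) (W1 := 370763052) (P2 := 0) (W2 := 536870912) (P3 := 33554432) (W3 := 16777216)
    rfl rfl rfl k0_mm_202_b

end Pool.Agent.Strip051.G.I1_32_3_64.Tab.C.FB20

namespace Pool.Agent.Strip051.G.I1_32_3_64.Tab.C.FB21

open Pool.Agent.Strip051.PB Pool.Agent.Strip051.PB.T
open Pool.Agent.Strip051.G.I1_32_3_64.Tab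

noncomputable def f_pp_001 : ℕ → ℕ → ℕ → ℕ → Bool := onCell 0 536870912 536870912 536870912 33554432 16777216
    (rowFK 0 false true true .up 0 0 1 (qsf 0 536870912 536870912 536870912 0) ndF2q0 ndF1q1 pcF0 Cut.none Ext.none)

def k0_pp_001 : ∃ t, chk3 f_pp_001 t 1 1 1 = true :=
  ⟨(l 3), by decide +kernel⟩

theorem c_pp_001 : CertF 0 536870912 536870912 536870912 33554432 16777216 false true true .up 0 0 1
    ndF2q0 ndF1q1 pcF0 Cut.none Ext.none :=
  certFK0 (fam := false) (s1 := true) (s2 := true) (a := 0) (b := 0) (c := 1) (cn := .up) (n1 := ndF2q0) (n2 := ndF1q1) (pc := pcF0) (cut := Cut.none) (xt := Ext.none) (P1 := 0) (W1 := 536870912) (P2 := 536870912) (W2 := 536870912) (P3 := 33554432) (W3 := 16777216)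
    rfl rfl rfl k0_pp_001

noncomputable def f_pp_011 : ℕ → ℕ → ℕ → ℕ → Bool := onCell 0 536870912 536870912 536870912 33554432 16777216
    (rowFK 0 false true true .pnn 0 1 1 (qsf 0 536870912 536870912 536870912 1) ndF2q0 ndF1q1 pcF1 Cut.none Ext.none)

def k0_pp_011 : ∃ t, chk3 f_pp_011 t 1 1 1 = true :=
  ⟨(l 3), by decide +kernel⟩

theorem c_pp_011 : CertF 0 536870912 536870912 536870912 33554432 16777216 false true true .pnn 0 1 1
    ndF2q0 ndF1q1 pcF1 Cut.none Ext.none :=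
  certFK0 (fam := false) (s1 := true) (s2 := true) (a := 0) (b := 1) (c := 1) (cn := .pnn) (n1 := ndF2q0) (n2 := ndF1q1) (pc := pcF1) (cut := Cut.none) (xt := Ext.none) (P1 := 0) (W1 := 536870912) (P2 := 536870912) (W2 := 536870912) (P3 := 33554432) (W3 := 16777216)
    rfl rfl rfl k0_pp_011

noncomputable def cut_pp_012_a : Cut := Cut.of [[⟨0, 0, 0, 33554432⟩, ⟨1, 1, 0, 33554432⟩, ⟨2, 1, 0, 33554432⟩]]

noncomputable def f_pp_012_a : ℕ → ℕ → ℕ → ℕ → Bool := onCell 536870912 536870912 0 536870912 33554432 16777216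
    (rowFK 2 false true true .pnp 0 1 2 (qsf 0 536870912 0 536870912 1) ndF2q0 ndF1q2a pcF1 cut_pp_012_a Ext.none)

def k0_pp_012_a : ∃ t, chk3 f_pp_012_a t 1 1 1 = true :=
  ⟨(a (a (b (l 17318752) (b (l 17608848) (a (l 18070680) (l 17923616)))) (b (l 17193936) (a (l 17829232) (l 17782032)))) (a (b (a (l 17146608) (l 17289656)) (a (b (l 17407664) (l 17646104)) (b (l 17258024) (l 17562776)))) (b (a (l 17732400) (b (l 18495456) (l 18227064))) (b (a (l 17134592) (b (l 17928032) (l 17610696))) (a (b (l 17114000) (l 17271424)) (b (a (l 17046160) (b (l 17492616) (l 17184224))) (b (a (l 16953480) (a (l 16886336) (b (l 16839120) (l 16829320)))) (a (l 16950472) (b (a (l 16869032) (a (l 16832424) (l 6))) (a (l 16862840) (l 6))))))))))), by decide +kernel⟩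

theorem c_pp_012_a : CertF 0 536870912 0 536870912 33554432 16777216 false true true .pnp 0 1 2
    ndF2q0 ndF1q2a pcF1 cut_pp_012_a Ext.none :=
  certFK2 (fam := false) (s1 := true) (s2 := true) (a := 0) (b := 1) (c := 2) (cn := .pnp) (n1 := ndF2q0) (n2 := ndF1q2a) (pc := pcF1) (cut := cut_pp_012_a) (xt := Ext.none) (P1 := 0) (W1 := 536870912) (P2 := 0) (W2 := 536870912) (P3 := 33554432) (W3 := 16777216)
    rfl rfl rfl (fun _ => rfl) k0_pp_012_a

noncomputable def cut_pp_012_b : Cut := Cut.of [[⟨0, 0, 0, 33554432⟩, ⟨1, 1, 0, 33554432⟩, ⟨2, 1, 0, 33554432⟩]]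

noncomputable def f_pp_012_b : ℕ → ℕ → ℕ → ℕ → Bool := onCell 536870912 536870912 1239849684 370763052 33554432 16777216
    (rowFK 2 false true true .pnp 0 1 2 (qsf 0 536870912 1239849684 370763052 1) ndF2q0 ndF1q2b pcF1 cut_pp_012_b Ext.none)

def k0_pp_012_b : ∃ t, chk3 f_pp_012_b t 1 1 1 = true :=
  ⟨(a (a (l 2) (b (l 17469264) (l 2))) (a (b (l 17908744) (l 18491144)) (a (b (l 18464576) (l 19008312)) (a (l 19180984) (a (l 19336480) (a (l 19458128) (l 19538504))))))), by decide +kernel⟩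

theorem c_pp_012_b : CertF 0 536870912 1239849684 370763052 33554432 16777216 false true true .pnp 0 1 2
    ndF2q0 ndF1q2b pcF1 cut_pp_012_b Ext.none :=
  certFK2 (fam := false) (s1 := true) (s2 := true) (a := 0) (b := 1) (c := 2) (cn := .pnp) (n1 := ndF2q0) (n2 := ndF1q2b) (pc := pcF1) (cut := cut_pp_012_b) (xt := Ext.none) (P1 := 0) (W1 := 536870912) (P2 := 1239849684) (W2 := 370763052) (P3 := 33554432) (W3 := 16777216)
    rfl rfl rfl (fun _ => rfl) k0_pp_012_b

noncomputable def cut_pp_022_a : Cut := Cut.of [[⟨0, 0, 0, 33554432⟩, ⟨1, 1, 0, 33554432⟩, ⟨2, 1, 0, 33554432⟩]]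

noncomputable def f_pp_022_a : ℕ → ℕ → ℕ → ℕ → Bool := onCell 0 536870912 0 536870912 33554432 16777216
    (rowFK 0 false true true .pp 0 2 2 (qsf 0 536870912 0 536870912 2) ndF2q0 ndF1q2a pcF2 cut_pp_022_a Ext.none)

def k0_pp_022_a : ∃ t, chk3 f_pp_022_a t 1 1 1 = true :=
  ⟨(a (b (a (a (l 19599544) (b (l 19288440) (a (l 19095936) (b (l 19055744) (a (l 18876736) (b (l 18859784) (a (l 18738608) (l 18701216)))))))) (a (a (b (a (l 19166728) (b (l 19174464) (l 19068064))) (b (a (a (l 18968392) (l 18937968)) (l 18928392)) (l 18759336))) (l 18998584)) (l 1))) (a (b (a (a (b (l 19108152) (a (l 18774744) (l 18647128))) (l 18698728)) (b (a (l 18699072) (b (a (b (l 18686696) (a (l 18617880) (l 18562656))) (l 18576472)) (l 18442128))) (a (b (a (l 18403792) (b (a (l 18378248) (l 18314480)) (l 18208480))) (a (a (l 18092760) (l 18032192)) (l 18000144))) (l 18136488)))) (b (a (a (a (a (b (b (l 18349776) (l 17907680)) (a (b (c (l 17971456) (b (l 17481168) (l 17001464)))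 (a (b (c (l 17513800) (l 16821752)) (l 16763160)) (l 17056312))) (l 17362152))) (b (l 18138776) (l 17325368))) (b (l 18029400) (l 17250384))) (b (a (l 17880360) (b (l 17865648) (a (l 17616088) (l 17556264)))) (a (b (l 17365232) (a (b (l 17055416) (l 16789632)) (l 16896464))) (l 17094344)))) (a (b (l 17657632) (l 1)) (l 1))) (a (b (b (a (a (a (a (a (b (l 16728424) (l 16735976)) (l 16733000)) (l 16736272)) (l 16743328)) (a (l 16753544) (l 16764584))) (a (l 16781344) (l 1))) (a (a (l 6) (a (l 6) (l 16778872))) (l 1))) (a (a (l 6) (a (l 6) (l 1))) (l 1))) (l 1)))) (b (l 1) (l 1)))) (l 1)), by decide +kernel⟩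

theorem c_pp_022_a : CertF 0 536870912 0 536870912 33554432 16777216 false true true .pp 0 2 2
    ndF2q0 ndF1q2a pcF2 cut_pp_022_a Ext.none :=
  certFK0 (fam := false) (s1 := true) (s2 := true) (a := 0) (b := 2) (c := 2) (cn := .pp) (n1 := ndF2q0) (n2 := ndF1q2a) (pc := pcF2) (cut := cut_pp_022_a) (xt := Ext.none) (P1 := 0) (W1 := 536870912) (P2 := 0) (W2 := 536870912) (P3 := 33554432) (W3 := 16777216)
    rfl rfl rfl k0_pp_022_a

noncomputable def cut_pp_022_b : Cut := Cut.of [[⟨0, 0, 0, 33554432⟩, ⟨1, 1, 0, 33554432⟩, ⟨2, 1, 0, 33554432⟩]]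

noncomputable def f_pp_022_b : ℕ → ℕ → ℕ → ℕ → Bool := onCell 0 536870912 1073741824 536870912 33554432 16777216
    (rowFK 1 false true true .pp 0 2 2 (qsf 0 536870912 1239849684 370763052 2) ndF2q0 ndF1q2b pcF2 cut_pp_022_b Ext.none)

def k0_pp_022_b : ∃ t, chk3 f_pp_022_b t 1 1 1 = true :=
  ⟨(a (b (b (b (b (b (b (l 514897783607) (l 518656006551)) (l 524561744647)) (l 535836262199)) (a (l 576101212263) (l 19770640))) (a (l 288339343127) (l 19863016))) (b (a (l 19740752) (l 19743480)) (l 19600040))) (b (b (l 19979456) (l 19908416)) (b (l 19563280) (l 2)))), by decide +kernel⟩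

theorem c_pp_022_b : CertF 0 536870912 1239849684 370763052 33554432 16777216 false true true .pp 0 2 2
    ndF2q0 ndF1q2b pcF2 cut_pp_022_b Ext.none :=
  certFK1 (fam := false) (s1 := true) (s2 := true) (a := 0) (b := 2) (c := 2) (cn := .pp) (n1 := ndF2q0) (n2 := ndF1q2b) (pc := pcF2) (cut := cut_pp_022_b) (xt := Ext.none) (P1 := 0) (W1 := 536870912) (P2 := 1239849684) (W2 := 370763052) (P3 := 33554432) (W3 := 16777216)
    rfl rfl rfl (fun _ => rfl) k0_pp_022_b

noncomputable def f_pp_023 : ℕ → ℕ → ℕ → ℕ → Bool := onCell 0 536870912 1073741824 536870912 33554432 16777216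
    (rowFK 1 false true true .up 0 2 3 (qsf 0 536870912 1610612736 536870912 2) ndF2q0 ndF1q3 pcF2 Cut.none Ext.none)

def k0_pp_023 : ∃ t, chk3 f_pp_023 t 1 1 1 = true :=
  ⟨(a (b (b (l 1) (l 583081158135)) (b (l 571806731383) (l 635693470183))) (b (l 512753261463) (b (l 19676488) (l 19036808)))), by decide +kernel⟩

theorem c_pp_023 : CertF 0 536870912 1610612736 536870912 33554432 16777216 false true true .up 0 2 3
    ndF2q0 ndF1q3 pcF2 Cut.none Ext.none :=
  certFK1 (fam := false) (s1 := true) (s2 := true) (a := 0) (b := 2) (c := 3) (cn := .up) (n1 := ndF2q0) (n2 := ndF1q3) (pc := pcF2) (cut := Cut.none) (xt := Ext.none) (P1 := 0) (W1 := 536870912) (P2 := 1610612736) (W2 := 536870912) (P3 := 33554432) (W3 := 16777216)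
    rfl rfl rfl (fun _ => rfl) k0_pp_023

noncomputable def f_pp_033 : ℕ → ℕ → ℕ → ℕ → Bool := onCell 0 536870912 1610612736 536870912 33554432 16777216
    (rowFK 1 false true true .pnn 0 3 3 (qsf 0 536870912 1610612736 536870912 3) ndF2q0 ndF1q3 pcF3 Cut.none Ext.none)

def k0_pp_033 : ∃ t, chk3 f_pp_033 t 1 1 1 = true :=
  ⟨(a (b (b (b (l 18239448) (l 18076528)) (b (l 18051528) (l 18063168))) (a (b (l 4) (l 4)) (b (l 4) (a (b (l 4) (l 2)) (l 2))))) (b (b (a (l 18328608) (l 4)) (a (l 4) (a (b (l 4) (l 2)) (l 2)))) (a (b (a (b (l 4) (l 2)) (l 2)) (l 2)) (l 2)))), by decide +kernel⟩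

theorem c_pp_033 : CertF 0 536870912 1610612736 536870912 33554432 16777216 false true true .pnn 0 3 3
    ndF2q0 ndF1q3 pcF3 Cut.none Ext.none :=
  certFK1 (fam := false) (s1 := true) (s2 := true) (a := 0) (b := 3) (c := 3) (cn := .pnn) (n1 := ndF2q0) (n2 := ndF1q3) (pc := pcF3) (cut := Cut.none) (xt := Ext.none) (P1 := 0) (W1 := 536870912) (P2 := 1610612736) (W2 := 536870912) (P3 := 33554432) (W3 := 16777216)
    rfl rfl rfl (fun _ => rfl) k0_pp_033

noncomputable def f_pp_101 : ℕ → ℕ → ℕ → ℕ → Bool := onCell 536870912 536870912 536870912 536870912 33554432 16777216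
    (rowFK 0 false true true .npn 1 0 1 (qsf 536870912 536870912 536870912 536870912 0) ndF2q1 ndF1q1 pcF0 Cut.none Ext.none)

def k0_pp_101 : ∃ t, chk3 f_pp_101 t 1 1 1 = true :=
  ⟨(l 3), by decide +kernel⟩

theorem c_pp_101 : CertF 536870912 536870912 536870912 536870912 33554432 16777216 false true true .npn 1 0 1
    ndF2q1 ndF1q1 pcF0 Cut.none Ext.none :=
  certFK0 (fam := false) (s1 := true) (s2 := true) (a := 1) (b := 0) (c := 1) (cn := .npn) (n1 := ndF2q1) (n2 := ndF1q1) (pc := pcF0) (cut := Cut.none) (xt := Ext.none) (P1 := 536870912) (W1 := 536870912) (P2 := 536870912) (W2 := 536870912) (P3 := 33554432) (W3 := 16777216)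
    rfl rfl rfl k0_pp_101

noncomputable def cut_pp_102_a : Cut := Cut.of [[⟨0, 1, 0, 33554432⟩, ⟨1, 0, 0, 33554432⟩, ⟨2, 1, 0, 33554432⟩], [⟨0, 1, 2, 25165824⟩, ⟨1, 0, 1, 25165824⟩, ⟨2, 1, 0, 16777216⟩, ⟨0, 0, 0, 1056964608⟩, ⟨0, 1, 0, 67108864⟩, ⟨1, 0, 0, 67108864⟩, ⟨1, 1, 0, 1056964608⟩]]

noncomputable def f_pp_102_a : ℕ → ℕ → ℕ → ℕ → Bool := onCell 536870912 536870912 0 536870912 33554432 16777216
    (rowFK 0 false true true .npp 1 0 2 (qsf 536870912 536870912 0 536870912 0) ndF2q1 ndF1q2a pcF0 cut_pp_102_a Ext.none)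

def k0_pp_102_a : ∃ t, chk3 f_pp_102_a t 1 1 1 = true :=
  ⟨(a (b (a (l 18534000) (b (l 18607048) (l 18683240))) (a (b (l 18529560) (b (l 18677792) (a (l 18682936) (l 18755512)))) (b (l 18860296) (b (l 18795416) (a (l 18829144) (l 18796384)))))) (b (a (b (l 19135128) (l 19149048)) (a (l 19860304) (a (l 20175320) (a (l 20458752) (a (l 20602360) (l 20690128)))))) (b (a (a (l 18973648) (l 19169104)) (a (b (l 19584496) (l 19384416)) (a (l 19829568) (a (l 20038616) (a (l 20130912) (l 20171440)))))) (b (a (a (l 18874120) (l 18921440)) (a (l 19250264) (a (l 19127384) (a (l 19043472) (a (l 18854096) (l 18590800)))))) (b (a (a (l 18747704) (l 18675840)) (a (a (l 18633328) (l 18576384)) (a (a (l 18458176) (l 18263608)) (a (b (l 18072560) (l 17440416)) (a (l 16735936) (l 16738696)))))) (a (a (l 18609720) (b (l 18496464) (l 18351960))) (b (a (a (l 18367704) (l 18214128)) (a (a (l 17963576) (b (l 17715424) (l 17455504))) (a (b (l 16882824) (l 16743464)) (a (b (l 16720480)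 (l 6)) (l 6))))) (a (a (l 18149256) (b (l 17994152) (a (l 17910912) (b (l 17778888) (l 17498288))))) (a (b (a (l 17601544) (a (l 17337224) (l 14))) (a (b (a (l 17588080) (l 17403136)) (a (c (l 17619648) (b (l 17371928) (l 17153744))) (c (b (l 17476496) (l 17268456)) (l 14)))) (l 14))) (a (a (a (l 14) (b (l 16747280) (b (l 16758456) (l 6)))) (b (l 16759296) (l 6))) (l 6))))))))))), by decide +kernel⟩

theorem c_pp_102_a : CertF 536870912 536870912 0 536870912 33554432 16777216 false true true .npp 1 0 2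
    ndF2q1 ndF1q2a pcF0 cut_pp_102_a Ext.none :=
  certFK0 (fam := false) (s1 := true) (s2 := true) (a := 1) (b := 0) (c := 2) (cn := .npp) (n1 := ndF2q1) (n2 := ndF1q2a) (pc := pcF0) (cut := cut_pp_102_a) (xt := Ext.none) (P1 := 536870912) (W1 := 536870912) (P2 := 0) (W2 := 536870912) (P3 := 33554432) (W3 := 16777216)
    rfl rfl rfl k0_pp_102_a

noncomputable def cut_pp_102_b : Cut := Cut.of [[⟨0, 1, 0, 33554432⟩, ⟨1, 0, 0, 33554432⟩, ⟨2, 1, 0, 33554432⟩], [⟨0, 1, 2, 25165824⟩, ⟨1, 0, 1, 25165824⟩, ⟨2, 1, 0, 16777216⟩, ⟨0, 0, 0, 1056964608⟩, ⟨0, 1, 0, 67108864⟩, ⟨1, 0, 0, 67108864⟩, ⟨1, 1, 0, 1056964608⟩]]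

noncomputable def f_pp_102_b : ℕ → ℕ → ℕ → ℕ → Bool := onCell 536870912 536870912 1239849684 370763052 33554432 16777216
    (rowFK 0 false true true .npp 1 0 2 (qsf 536870912 536870912 1239849684 370763052 0) ndF2q1 ndF1q2b pcF0 cut_pp_102_b Ext.none)

def k0_pp_102_b : ∃ t, chk3 f_pp_102_b t 1 1 1 = true :=
  ⟨(a (l 18759576) (a (l 19550496) (a (b (b (l 19953864) (l 20182600)) (l 20204952)) (b (a (b (l 20417008) (l 20660104)) (a (b (l 20687664) (l 20971528)) (a (l 20952440) (l 21037848)))) (a (l 20623448) (a (l 20891520) (a (l 21031552) (l 21125032)))))))), by decide +kernel⟩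

theorem c_pp_102_b : CertF 536870912 536870912 1239849684 370763052 33554432 16777216 false true true .npp 1 0 2
    ndF2q1 ndF1q2b pcF0 cut_pp_102_b Ext.none :=
  certFK0 (fam := false) (s1 := true) (s2 := true) (a := 1) (b := 0) (c := 2) (cn := .npp) (n1 := ndF2q1) (n2 := ndF1q2b) (pc := pcF0) (cut := cut_pp_102_b) (xt := Ext.none) (P1 := 536870912) (W1 := 536870912) (P2 := 1239849684) (W2 := 370763052) (P3 := 33554432) (W3 := 16777216)
    rfl rfl rfl k0_pp_102_b

noncomputable def f_pp_112_a : ℕ → ℕ → ℕ → ℕ → Bool := onCell 536870912 536870912 0 536870912 33554432 16777216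
    (rowFK 2 false true true .dn 1 1 2 (qsf 536870912 536870912 0 536870912 1) ndF2q1 ndF1q2a pcF1 Cut.none Ext.none)

def k0_pp_112_a : ∃ t, chk3 f_pp_112_a t 1 1 1 = true :=
  ⟨(a (a (b (l 19215768) (b (l 19103128) (l 19080632))) (b (l 19017552) (l 557847119255))) (l 1)), by decide +kernel⟩

theorem c_pp_112_a : CertF 536870912 536870912 0 536870912 33554432 16777216 false true true .dn 1 1 2
    ndF2q1 ndF1q2a pcF1 Cut.none Ext.none :=
  certFK2 (fam := false) (s1 := true) (s2 := true) (a := 1) (b := 1) (c := 2) (cn := .dn) (n1 := ndF2q1) (n2 := ndF1q2a) (pc := pcF1) (cut := Cut.none) (xt := Ext.none) (P1 := 536870912) (W1 := 536870912) (P2 := 0) (W2 := 536870912) (P3 := 33554432) (W3 := 16777216)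
    rfl rfl rfl (fun _ => rfl) k0_pp_112_a

noncomputable def f_pp_112_b : ℕ → ℕ → ℕ → ℕ → Bool := onCell 536870912 536870912 536870912 536870912 33554432 16777216
    (rowFK 1 false true true .dn 1 1 2 (qsf 536870912 536870912 1239849684 370763052 1) ndF2q1 ndF1q2b pcF1 Cut.none Ext.none)

def k0_pp_112_b : ∃ t, chk3 f_pp_112_b t 1 1 1 = true :=
  ⟨(a (b (b (l 19195344) (l 18924968)) (b (l 18610424) (b (l 18353144) (b (l 18213568) (b (l 18139304) (b (l 18100816) (l 18074776))))))) (b (a (l 18783136) (a (l 18569912) (a (l 18475880) (a (l 18458736) (a (l 18447816) (l 18438216)))))) (a (b (l 18211016) (l 2)) (l 2)))), by decide +kernel⟩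

theorem c_pp_112_b : CertF 536870912 536870912 1239849684 370763052 33554432 16777216 false true true .dn 1 1 2
    ndF2q1 ndF1q2b pcF1 Cut.none Ext.none :=
  certFK1 (fam := false) (s1 := true) (s2 := true) (a := 1) (b := 1) (c := 2) (cn := .dn) (n1 := ndF2q1) (n2 := ndF1q2b) (pc := pcF1) (cut := Cut.none) (xt := Ext.none) (P1 := 536870912) (W1 := 536870912) (P2 := 1239849684) (W2 := 370763052) (P3 := 33554432) (W3 := 16777216)
    rfl rfl rfl (fun _ => rfl) k0_pp_112_b

noncomputable def f_pp_113 : ℕ → ℕ → ℕ → ℕ → Bool := onCell 536870912 536870912 536870912 536870912 33554432 16777216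
    (rowFK 1 false true true .nn 1 1 3 (qsf 536870912 536870912 1610612736 536870912 1) ndF2q1 ndF1q3 pcF1 Cut.none Ext.none)

def k0_pp_113 : ∃ t, chk3 f_pp_113 t 1 1 1 = true :=
  ⟨(a (b (b (l 1) (l 18839960)) (b (l 18667112) (b (l 18517208) (b (l 18453688) (b (l 18428968) (b (l 18418600) (l 18410456))))))) (b (a (l 18884856) (a (l 18778632) (a (l 18695160) (a (l 18639248) (a (l 18609000) (l 18587744)))))) (a (b (l 18470672) (b (l 18199736) (b (l 18069736) (b (l 18011272) (b (l 17983632) (l 17962976)))))) (b (a (l 18245584) (a (l 18077720) (a (l 17962416) (a (l 17902248) (l 17861296))))) (a (b (l 17884480) (b (l 17701728) (b (l 17614920) (b (l 17572392) (l 17541216))))) (b (a (l 17654216) (a (l 17497232) (a (l 17415544) (l 17360232)))) (a (b (l 17433832) (b (l 17326144) (b (l 17272480) (l 17233512)))) (b (a (l 17251672) (a (l 17156680) (l 17092424))) (a (b (l 17129864) (b (l 17068616) (l 17024360))) (b (a (l 17027272) (l 16957888)) (a (b (l 16961888)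 (l 16914752)) (b (l 16889704) (l 16841264))))))))))))), by decide +kernel⟩

theorem c_pp_113 : CertF 536870912 536870912 1610612736 536870912 33554432 16777216 false true true .nn 1 1 3
    ndF2q1 ndF1q3 pcF1 Cut.none Ext.none :=
  certFK1 (fam := false) (s1 := true) (s2 := true) (a := 1) (b := 1) (c := 3) (cn := .nn) (n1 := ndF2q1) (n2 := ndF1q3) (pc := pcF1) (cut := Cut.none) (xt := Ext.none) (P1 := 536870912) (W1 := 536870912) (P2 := 1610612736) (W2 := 536870912) (P3 := 33554432) (W3 := 16777216)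
    rfl rfl rfl (fun _ => rfl) k0_pp_113

noncomputable def f_pp_123 : ℕ → ℕ → ℕ → ℕ → Bool := onCell 1073741824 536870912 1610612736 536870912 33554432 16777216
    (rowFK 2 false true true .npn 1 2 3 (qsf 536870912 536870912 1610612736 536870912 2) ndF2q1 ndF1q3 pcF2 Cut.none Ext.none)

def k0_pp_123 : ∃ t, chk3 f_pp_123 t 1 1 1 = true :=
  ⟨(a (b (a (l 18289960) (l 17784256)) (a (b (l 17864920) (b (l 17413384) (a (b (l 17219976) (a (b (l 17034032) (a (b (l 16906248) (b (l 16845264) (a (l 16799504) (l 4)))) (l 16876840))) (l 16953720))) (l 16984160)))) (l 17264696))) (b (a (l 17196008) (l 1)) (a (b (l 16938208) (l 4)) (l 626563533479)))), by decide +kernel⟩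

theorem c_pp_123 : CertF 536870912 536870912 1610612736 536870912 33554432 16777216 false true true .npn 1 2 3
    ndF2q1 ndF1q3 pcF2 Cut.none Ext.none :=
  certFK2 (fam := false) (s1 := true) (s2 := true) (a := 1) (b := 2) (c := 3) (cn := .npn) (n1 := ndF2q1) (n2 := ndF1q3) (pc := pcF2) (cut := Cut.none) (xt := Ext.none) (P1 := 536870912) (W1 := 536870912) (P2 := 1610612736) (W2 := 536870912) (P3 := 33554432) (W3 := 16777216)
    rfl rfl rfl (fun _ => rfl) k0_pp_123

noncomputable def f_pp_133 : ℕ → ℕ → ℕ → ℕ → Bool := onCell 1610612736 536870912 1610612736 536870912 33554432 16777216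
    (rowFK 2 false true true .dn 1 3 3 (qsf 536870912 536870912 1610612736 536870912 3) ndF2q1 ndF1q3 pcF3 Cut.none Ext.none)

def k0_pp_133 : ∃ t, chk3 f_pp_133 t 1 1 1 = true :=
  ⟨(a (b (l 1) (a (l 737160558871) (l 1))) (l 1)), by decide +kernel⟩

theorem c_pp_133 : CertF 536870912 536870912 1610612736 536870912 33554432 16777216 false true true .dn 1 3 3
    ndF2q1 ndF1q3 pcF3 Cut.none Ext.none :=
  certFK2 (fam := false) (s1 := true) (s2 := true) (a := 1) (b := 3) (c := 3) (cn := .dn) (n1 := ndF2q1) (n2 := ndF1q3) (pc := pcF3) (cut := Cut.none) (xt := Ext.none) (P1 := 536870912) (W1 := 536870912) (P2 := 1610612736) (W2 := 536870912) (P3 := 33554432) (W3 := 16777216)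
    rfl rfl rfl (fun _ => rfl) k0_pp_133

noncomputable def f_pp_202_aa : ℕ → ℕ → ℕ → ℕ → Bool := onCell 0 536870912 0 536870912 33554432 16777216
    (rowFK 0 false true true .pp 2 0 2 (qsf 0 536870912 0 536870912 0) ndF2q2a ndF1q2a pcF0 Cut.none Ext.none)

def k0_pp_202_aa : ∃ t, chk3 f_pp_202_aa t 1 1 1 = true :=
  ⟨(l 3), by decide +kernel⟩

theorem c_pp_202_aa : CertF 0 536870912 0 536870912 33554432 16777216 false true true .pp 2 0 2
    ndF2q2a ndF1q2a pcF0 Cut.none Ext.none :=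
  certFK0 (fam := false) (s1 := true) (s2 := true) (a := 2) (b := 0) (c := 2) (cn := .pp) (n1 := ndF2q2a) (n2 := ndF1q2a) (pc := pcF0) (cut := Cut.none) (xt := Ext.none) (P1 := 0) (W1 := 536870912) (P2 := 0) (W2 := 536870912) (P3 := 33554432) (W3 := 16777216)
    rfl rfl rfl k0_pp_202_aa

noncomputable def f_pp_202_ab : ℕ → ℕ → ℕ → ℕ → Bool := onCell 0 536870912 1239849684 370763052 33554432 16777216
    (rowFK 0 false true true .pp 2 0 2 (qsf 0 536870912 1239849684 370763052 0) ndF2q2a ndF1q2b pcF0 Cut.none Ext.none)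

def k0_pp_202_ab : ∃ t, chk3 f_pp_202_ab t 1 1 1 = true :=
  ⟨(l 3), by decide +kernel⟩

theorem c_pp_202_ab : CertF 0 536870912 1239849684 370763052 33554432 16777216 false true true .pp 2 0 2
    ndF2q2a ndF1q2b pcF0 Cut.none Ext.none :=
  certFK0 (fam := false) (s1 := true) (s2 := true) (a := 2) (b := 0) (c := 2) (cn := .pp) (n1 := ndF2q2a) (n2 := ndF1q2b) (pc := pcF0) (cut := Cut.none) (xt := Ext.none) (P1 := 0) (W1 := 536870912) (P2 := 1239849684) (W2 := 370763052) (P3 := 33554432) (W3 := 16777216)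
    rfl rfl rfl k0_pp_202_ab

noncomputable def f_pp_202_ba : ℕ → ℕ → ℕ → ℕ → Bool := onCell 1239849684 370763052 0 536870912 33554432 16777216
    (rowFK 0 false true true .pp 2 0 2 (qsf 1239849684 370763052 0 536870912 0) ndF2q2b ndF1q2a pcF0 Cut.none Ext.none)

def k0_pp_202_ba : ∃ t, chk3 f_pp_202_ba t 1 1 1 = true :=
  ⟨(l 3), by decide +kernel⟩

theorem c_pp_202_ba : CertF 1239849684 370763052 0 536870912 33554432 16777216 false true true .pp 2 0 2
    ndF2q2b ndF1q2a pcF0 Cut.none Ext.none :=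
  certFK0 (fam := false) (s1 := true) (s2 := true) (a := 2) (b := 0) (c := 2) (cn := .pp) (n1 := ndF2q2b) (n2 := ndF1q2a) (pc := pcF0) (cut := Cut.none) (xt := Ext.none) (P1 := 1239849684) (W1 := 370763052) (P2 := 0) (W2 := 536870912) (P3 := 33554432) (W3 := 16777216)
    rfl rfl rfl k0_pp_202_ba

noncomputable def f_pp_202_bb : ℕ → ℕ → ℕ → ℕ → Bool := onCell 1239849684 370763052 1239849684 370763052 33554432 16777216
    (rowFK 0 false true true .pp 2 0 2 (qsf 1239849684 370763052 1239849684 370763052 0) ndF2q2b ndF1q2b pcF0 Cut.none Ext.none)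

def k0_pp_202_bb : ∃ t, chk3 f_pp_202_bb t 1 1 1 = true :=
  ⟨(l 3), by decide +kernel⟩

theorem c_pp_202_bb : CertF 1239849684 370763052 1239849684 370763052 33554432 16777216 false true true .pp 2 0 2
    ndF2q2b ndF1q2b pcF0 Cut.none Ext.none :=
  certFK0 (fam := false) (s1 := true) (s2 := true) (a := 2) (b := 0) (c := 2) (cn := .pp) (n1 := ndF2q2b) (n2 := ndF1q2b) (pc := pcF0) (cut := Cut.none) (xt := Ext.none) (P1 := 1239849684) (W1 := 370763052) (P2 := 1239849684) (W2 := 370763052) (P3 := 33554432) (W3 := 16777216)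
    rfl rfl rfl k0_pp_202_bb

noncomputable def f_pp_203_a : ℕ → ℕ → ℕ → ℕ → Bool := onCell 0 536870912 0 536870912 33554432 16777216
    (rowFK 1 false true true .up 2 0 3 (qsf 0 536870912 1610612736 536870912 0) ndF2q2a ndF1q3 pcF0 Cut.none Ext.none)

def k0_pp_203_a : ∃ t, chk3 f_pp_203_a t 1 1 1 = true :=
  ⟨(l 3), by decide +kernel⟩

theorem c_pp_203_a : CertF 0 536870912 1610612736 536870912 33554432 16777216 false true true .up 2 0 3
    ndF2q2a ndF1q3 pcF0 Cut.none Ext.none :=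
  certFK1 (fam := false) (s1 := true) (s2 := true) (a := 2) (b := 0) (c := 3) (cn := .up) (n1 := ndF2q2a) (n2 := ndF1q3) (pc := pcF0) (cut := Cut.none) (xt := Ext.none) (P1 := 0) (W1 := 536870912) (P2 := 1610612736) (W2 := 536870912) (P3 := 33554432) (W3 := 16777216)
    rfl rfl rfl (fun _ => rfl) k0_pp_203_a

noncomputable def f_pp_203_b : ℕ → ℕ → ℕ → ℕ → Bool := onCell 1239849684 370763052 1610612736 536870912 33554432 16777216
    (rowFK 0 false true true .up 2 0 3 (qsf 1239849684 370763052 1610612736 536870912 0) ndF2q2b ndF1q3 pcF0 Cut.none Ext.none)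

def k0_pp_203_b : ∃ t, chk3 f_pp_203_b t 1 1 1 = true :=
  ⟨(l 3), by decide +kernel⟩

theorem c_pp_203_b : CertF 1239849684 370763052 1610612736 536870912 33554432 16777216 false true true .up 2 0 3
    ndF2q2b ndF1q3 pcF0 Cut.none Ext.none :=
  certFK0 (fam := false) (s1 := true) (s2 := true) (a := 2) (b := 0) (c := 3) (cn := .up) (n1 := ndF2q2b) (n2 := ndF1q3) (pc := pcF0) (cut := Cut.none) (xt := Ext.none) (P1 := 1239849684) (W1 := 370763052) (P2 := 1610612736) (W2 := 536870912) (P3 := 33554432) (W3 := 16777216)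
    rfl rfl rfl k0_pp_203_b

noncomputable def cut_pp_213_a : Cut := Cut.of [[⟨0, 1, 0, 7061502⟩, ⟨1, 1, 0, 7061502⟩, ⟨2, 2, 0, 184626⟩]]

noncomputable def f_pp_213_a : ℕ → ℕ → ℕ → ℕ → Bool := onCell 0 536870912 1610612736 536870912 33554432 16777216
    (rowFK 0 false true true .pnn 2 1 3 (qsf 0 536870912 1610612736 536870912 1) ndF2q2a ndF1q3 pcF1 cut_pp_213_a Ext.none)

def k0_pp_213_a : ∃ t, chk3 f_pp_213_a t 1 1 1 = true :=
  ⟨(a (l 3) (b (l 3) (a (l 3) (b (l 3) (a (l 3) (a (l 3) (a (l 3) (b (l 3) (b (l 3) (b (l 3) (b (l 3) (b (l 3) (b (l 3) (b (l 3) (a (l 3) (b (l 3) (b (l 3) (b (l 3) (l 6))))))))))))))))))), by decide +kernel⟩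

theorem c_pp_213_a : CertF 0 536870912 1610612736 536870912 33554432 16777216 false true true .pnn 2 1 3
    ndF2q2a ndF1q3 pcF1 cut_pp_213_a Ext.none :=
  certFK0 (fam := false) (s1 := true) (s2 := true) (a := 2) (b := 1) (c := 3) (cn := .pnn) (n1 := ndF2q2a) (n2 := ndF1q3) (pc := pcF1) (cut := cut_pp_213_a) (xt := Ext.none) (P1 := 0) (W1 := 536870912) (P2 := 1610612736) (W2 := 536870912) (P3 := 33554432) (W3 := 16777216)
    rfl rfl rfl k0_pp_213_a

noncomputable def cut_pp_213_b : Cut := Cut.of [[⟨0, 1, 0, 7061502⟩, ⟨1, 1, 0, 7061502⟩, ⟨2, 2, 0, 184626⟩]]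

noncomputable def f_pp_213_b : ℕ → ℕ → ℕ → ℕ → Bool := onCell 1239849684 370763052 1610612736 536870912 33554432 16777216
    (rowFK 0 false true true .pnn 2 1 3 (qsf 1239849684 370763052 1610612736 536870912 1) ndF2q2b ndF1q3 pcF1 cut_pp_213_b Ext.none)

def k0_pp_213_b : ∃ t, chk3 f_pp_213_b t 1 1 1 = true :=
  ⟨(l 3), by decide +kernel⟩

theorem c_pp_213_b : CertF 1239849684 370763052 1610612736 536870912 33554432 16777216 false true true .pnn 2 1 3
    ndF2q2b ndF1q3 pcF1 cut_pp_213_b Ext.none :=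
  certFK0 (fam := false) (s1 := true) (s2 := true) (a := 2) (b := 1) (c := 3) (cn := .pnn) (n1 := ndF2q2b) (n2 := ndF1q3) (pc := pcF1) (cut := cut_pp_213_b) (xt := Ext.none) (P1 := 1239849684) (W1 := 370763052) (P2 := 1610612736) (W2 := 536870912) (P3 := 33554432) (W3 := 16777216)
    rfl rfl rfl k0_pp_213_b

noncomputable def f_pp_303 : ℕ → ℕ → ℕ → ℕ → Bool := onCell 1610612736 536870912 1610612736 536870912 33554432 16777216
    (rowFK 0 false true true .npn 3 0 3 (qsf 1610612736 536870912 1610612736 536870912 0) ndF2q3 ndF1q3 pcF0 Cut.none Ext.none)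

def k0_pp_303 : ∃ t, chk3 f_pp_303 t 1 1 1 = true :=
  ⟨(l 3), by decide +kernel⟩

theorem c_pp_303 : CertF 1610612736 536870912 1610612736 536870912 33554432 16777216 false true true .npn 3 0 3
    ndF2q3 ndF1q3 pcF0 Cut.none Ext.none :=
  certFK0 (fam := false) (s1 := true) (s2 := true) (a := 3) (b := 0) (c := 3) (cn := .npn) (n1 := ndF2q3) (n2 := ndF1q3) (pc := pcF0) (cut := Cut.none) (xt := Ext.none) (P1 := 1610612736) (W1 := 536870912) (P2 := 1610612736) (W2 := 536870912) (P3 := 33554432) (W3 := 16777216)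
    rfl rfl rfl k0_pp_303

noncomputable def f_pp_313 : ℕ → ℕ → ℕ → ℕ → Bool := onCell 1610612736 536870912 1610612736 536870912 33554432 16777216
    (rowFK 0 false true true .dn 3 1 3 (qsf 1610612736 536870912 1610612736 536870912 1) ndF2q3 ndF1q3 pcF1 Cut.none Ext.none)

def k0_pp_313 : ∃ t, chk3 f_pp_313 t 1 1 1 = true :=
  ⟨(l 3), by decide +kernel⟩

theorem c_pp_313 : CertF 1610612736 536870912 1610612736 536870912 33554432 16777216 false true true .dn 3 1 3
    ndF2q3 ndF1q3 pcF1 Cut.none Ext.none :=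
  certFK0 (fam := false) (s1 := true) (s2 := true) (a := 3) (b := 1) (c := 3) (cn := .dn) (n1 := ndF2q3) (n2 := ndF1q3) (pc := pcF1) (cut := Cut.none) (xt := Ext.none) (P1 := 1610612736) (W1 := 536870912) (P2 := 1610612736) (W2 := 536870912) (P3 := 33554432) (W3 := 16777216)
    rfl rfl rfl k0_pp_313

noncomputable def f_pm_001 : ℕ → ℕ → ℕ → ℕ → Bool := onCell 0 536870912 536870912 536870912 33554432 16777216
    (rowFK 0 false true false .up 0 0 1 (qsf 0 536870912 536870912 536870912 0) ndF2q0 ndF1q1 pcF0 Cut.none Ext.none)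

def k0_pm_001 : ∃ t, chk3 f_pm_001 t 1 1 1 = true :=
  ⟨(l 4), by decide +kernel⟩

theorem c_pm_001 : CertF 0 536870912 536870912 536870912 33554432 16777216 false true false .up 0 0 1
    ndF2q0 ndF1q1 pcF0 Cut.none Ext.none :=
  certFK0 (fam := false) (s1 := true) (s2 := false) (a := 0) (b := 0) (c := 1) (cn := .up) (n1 := ndF2q0) (n2 := ndF1q1) (pc := pcF0) (cut := Cut.none) (xt := Ext.none) (P1 := 0) (W1 := 536870912) (P2 := 536870912) (W2 := 536870912) (P3 := 33554432) (W3 := 16777216)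
    rfl rfl rfl k0_pm_001

noncomputable def f_pm_011 : ℕ → ℕ → ℕ → ℕ → Bool := onCell 0 536870912 536870912 536870912 33554432 16777216
    (rowFK 0 false true false .pnn 0 1 1 (qsf 0 536870912 536870912 536870912 1) ndF2q0 ndF1q1 pcF1 Cut.none Ext.none)

def k0_pm_011 : ∃ t, chk3 f_pm_011 t 1 1 1 = true :=
  ⟨(l 4), by decide +kernel⟩

theorem c_pm_011 : CertF 0 536870912 536870912 536870912 33554432 16777216 false true false .pnn 0 1 1
    ndF2q0 ndF1q1 pcF1 Cut.none Ext.none :=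
  certFK0 (fam := false) (s1 := true) (s2 := false) (a := 0) (b := 1) (c := 1) (cn := .pnn) (n1 := ndF2q0) (n2 := ndF1q1) (pc := pcF1) (cut := Cut.none) (xt := Ext.none) (P1 := 0) (W1 := 536870912) (P2 := 536870912) (W2 := 536870912) (P3 := 33554432) (W3 := 16777216)
    rfl rfl rfl k0_pm_011

noncomputable def cut_pm_012_a : Cut := Cut.of [[⟨0, 0, 0, 33554432⟩, ⟨1, 1, 0, 33554432⟩, ⟨2, 1, 0, 33554432⟩]]

noncomputable def f_pm_012_a : ℕ → ℕ → ℕ → ℕ → Bool := onCell 536870912 536870912 0 536870912 33554432 16777216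
    (rowFK 2 false true false .pnp 0 1 2 (qsf 0 536870912 0 536870912 1) ndF2q0 ndF1q2a pcF1 cut_pm_012_a Ext.none)

def k0_pm_012_a : ∃ t, chk3 f_pm_012_a t 1 1 1 = true :=
  ⟨(a (a (l 18126440) (b (l 18476856) (l 4))) (a (b (l 19183496) (l 4)) (a (b (l 19805144) (l 4)) (a (b (l 20241672) (l 4)) (a (b (l 20500984) (l 4)) (b (a (l 20634296) (l 20682224)) (a (l 4) (b (l 4) (b (l 4) (b (l 4) (l 6))))))))))), by decide +kernel⟩

theorem c_pm_012_a : CertF 0 536870912 0 536870912 33554432 16777216 false true false .pnp 0 1 2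
    ndF2q0 ndF1q2a pcF1 cut_pm_012_a Ext.none :=
  certFK2 (fam := false) (s1 := true) (s2 := false) (a := 0) (b := 1) (c := 2) (cn := .pnp) (n1 := ndF2q0) (n2 := ndF1q2a) (pc := pcF1) (cut := cut_pm_012_a) (xt := Ext.none) (P1 := 0) (W1 := 536870912) (P2 := 0) (W2 := 536870912) (P3 := 33554432) (W3 := 16777216)
    rfl rfl rfl (fun _ => rfl) k0_pm_012_a

noncomputable def cut_pm_012_b : Cut := Cut.of [[⟨0, 0, 0, 33554432⟩, ⟨1, 1, 0, 33554432⟩, ⟨2, 1, 0, 33554432⟩]]

noncomputable def f_pm_012_b : ℕ → ℕ → ℕ → ℕ → Bool := onCell 536870912 536870912 1239849684 370763052 33554432 16777216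
    (rowFK 2 false true false .pnp 0 1 2 (qsf 0 536870912 1239849684 370763052 1) ndF2q0 ndF1q2b pcF1 cut_pm_012_b Ext.none)

def k0_pm_012_b : ∃ t, chk3 f_pm_012_b t 1 1 1 = true :=
  ⟨(a (a (l 2) (l 19066040)) (b (a (l 19506784) (a (l 20177728) (a (l 20634736) (a (l 20907248) (a (l 21058392) (l 21151160)))))) (l 4))), by decide +kernel⟩

theorem c_pm_012_b : CertF 0 536870912 1239849684 370763052 33554432 16777216 false true false .pnp 0 1 2
    ndF2q0 ndF1q2b pcF1 cut_pm_012_b Ext.none :=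
  certFK2 (fam := false) (s1 := true) (s2 := false) (a := 0) (b := 1) (c := 2) (cn := .pnp) (n1 := ndF2q0) (n2 := ndF1q2b) (pc := pcF1) (cut := cut_pm_012_b) (xt := Ext.none) (P1 := 0) (W1 := 536870912) (P2 := 1239849684) (W2 := 370763052) (P3 := 33554432) (W3 := 16777216)
    rfl rfl rfl (fun _ => rfl) k0_pm_012_b

noncomputable def cut_pm_022_a : Cut := Cut.of [[⟨0, 0, 0, 33554432⟩, ⟨1, 1, 0, 33554432⟩, ⟨2, 1, 0, 33554432⟩]]

noncomputable def f_pm_022_a : ℕ → ℕ → ℕ → ℕ → Bool := onCell 0 536870912 0 536870912 33554432 16777216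
    (rowFK 0 false true false .pp 0 2 2 (qsf 0 536870912 0 536870912 2) ndF2q0 ndF1q2a pcF2 cut_pm_022_a Ext.none)

def k0_pm_022_a : ∃ t, chk3 f_pm_022_a t 1 1 1 = true :=
  ⟨(a (b (a (a (a (l 19605816) (l 19911824)) (b (l 20332600) (l 20391576))) (a (l 20769536) (l 1))) (a (b (a (a (b (l 19388512) (a (l 18710936) (l 19142264))) (b (l 19769312) (l 19442320))) (b (l 20263544) (l 4))) (a (a (a (b (a (b (b (l 18431992) (l 17899448)) (a (b (c (l 18012352) (b (l 17501808) (l 17097744))) (b (c (l 17473760) (l 16756912)) (l 16724872))) (l 17384928))) (b (l 18380104) (l 17458912))) (b (b (a (a (a (a (l 16736864) (l 16726832)) (l 16723576)) (l 16717128)) (l 16708976)) (l 6)) (l 6))) (b (b (l 18518280) (l 64123517783)) (l 4))) (a (b (l 4) (l 4)) (l 4))) (l 4))) (l 4))) (l 1)), by decide +kernel⟩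

theorem c_pm_022_a : CertF 0 536870912 0 536870912 33554432 16777216 false true false .pp 0 2 2
    ndF2q0 ndF1q2a pcF2 cut_pm_022_a Ext.none :=
  certFK0 (fam := false) (s1 := true) (s2 := false) (a := 0) (b := 2) (c := 2) (cn := .pp) (n1 := ndF2q0) (n2 := ndF1q2a) (pc := pcF2) (cut := cut_pm_022_a) (xt := Ext.none) (P1 := 0) (W1 := 536870912) (P2 := 0) (W2 := 536870912) (P3 := 33554432) (W3 := 16777216)
    rfl rfl rfl k0_pm_022_a

noncomputable def cut_pm_022_b : Cut := Cut.of [[⟨0, 0, 0, 33554432⟩, ⟨1, 1, 0, 33554432⟩, ⟨2, 1, 0, 33554432⟩]]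

noncomputable def f_pm_022_b : ℕ → ℕ → ℕ → ℕ → Bool := onCell 0 536870912 1073741824 536870912 33554432 16777216
    (rowFK 1 false true false .pp 0 2 2 (qsf 0 536870912 1239849684 370763052 2) ndF2q0 ndF1q2b pcF2 cut_pm_022_b Ext.none)

def k0_pm_022_b : ∃ t, chk3 f_pm_022_b t 1 1 1 = true :=
  ⟨(b (a (b (a (b (l 653410747559) (l 701730447783)) (l 20735280)) (a (a (l 19873880) (l 20237848)) (l 20466640))) (b (l 20992784) (l 4))) (a (a (b (l 19680992) (l 19172040)) (l 4)) (l 4))), by decide +kernel⟩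

theorem c_pm_022_b : CertF 0 536870912 1239849684 370763052 33554432 16777216 false true false .pp 0 2 2
    ndF2q0 ndF1q2b pcF2 cut_pm_022_b Ext.none :=
  certFK1 (fam := false) (s1 := true) (s2 := false) (a := 0) (b := 2) (c := 2) (cn := .pp) (n1 := ndF2q0) (n2 := ndF1q2b) (pc := pcF2) (cut := cut_pm_022_b) (xt := Ext.none) (P1 := 0) (W1 := 536870912) (P2 := 1239849684) (W2 := 370763052) (P3 := 33554432) (W3 := 16777216)
    rfl rfl rfl (fun _ => rfl) k0_pm_022_b

noncomputable def f_pm_023 : ℕ → ℕ → ℕ → ℕ → Bool := onCell 0 536870912 1610612736 536870912 33554432 16777216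
    (rowFK 0 false true false .up 0 2 3 (qsf 0 536870912 1610612736 536870912 2) ndF2q0 ndF1q3 pcF2 Cut.none Ext.none)

def k0_pm_023 : ∃ t, chk3 f_pm_023 t 1 1 1 = true :=
  ⟨(a (l 4) (l 4)), by decide +kernel⟩

theorem c_pm_023 : CertF 0 536870912 1610612736 536870912 33554432 16777216 false true false .up 0 2 3
    ndF2q0 ndF1q3 pcF2 Cut.none Ext.none :=
  certFK0 (fam := false) (s1 := true) (s2 := false) (a := 0) (b := 2) (c := 3) (cn := .up) (n1 := ndF2q0) (n2 := ndF1q3) (pc := pcF2) (cut := Cut.none) (xt := Ext.none) (P1 := 0) (W1 := 536870912) (P2 := 1610612736) (W2 := 536870912) (P3 := 33554432) (W3 := 16777216)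
    rfl rfl rfl k0_pm_023

noncomputable def f_pm_033 : ℕ → ℕ → ℕ → ℕ → Bool := onCell 0 536870912 1610612736 536870912 33554432 16777216
    (rowFK 0 false true false .pnn 0 3 3 (qsf 0 536870912 1610612736 536870912 3) ndF2q0 ndF1q3 pcF3 Cut.none Ext.none)

def k0_pm_033 : ∃ t, chk3 f_pm_033 t 1 1 1 = true :=
  ⟨(a (l 4) (l 4)), by decide +kernel⟩

theorem c_pm_033 : CertF 0 536870912 1610612736 536870912 33554432 16777216 false true false .pnn 0 3 3
    ndF2q0 ndF1q3 pcF3 Cut.none Ext.none :=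
  certFK0 (fam := false) (s1 := true) (s2 := false) (a := 0) (b := 3) (c := 3) (cn := .pnn) (n1 := ndF2q0) (n2 := ndF1q3) (pc := pcF3) (cut := Cut.none) (xt := Ext.none) (P1 := 0) (W1 := 536870912) (P2 := 1610612736) (W2 := 536870912) (P3 := 33554432) (W3 := 16777216)
    rfl rfl rfl k0_pm_033

noncomputable def f_pm_101 : ℕ → ℕ → ℕ → ℕ → Bool := onCell 536870912 536870912 536870912 536870912 33554432 16777216
    (rowFK 0 false true false .npn 1 0 1 (qsf 536870912 536870912 536870912 536870912 0) ndF2q1 ndF1q1 pcF0 Cut.none Ext.none)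

def k0_pm_101 : ∃ t, chk3 f_pm_101 t 1 1 1 = true :=
  ⟨(l 4), by decide +kernel⟩

theorem c_pm_101 : CertF 536870912 536870912 536870912 536870912 33554432 16777216 false true false .npn 1 0 1
    ndF2q1 ndF1q1 pcF0 Cut.none Ext.none :=
  certFK0 (fam := false) (s1 := true) (s2 := false) (a := 1) (b := 0) (c := 1) (cn := .npn) (n1 := ndF2q1) (n2 := ndF1q1) (pc := pcF0) (cut := Cut.none) (xt := Ext.none) (P1 := 536870912) (W1 := 536870912) (P2 := 536870912) (W2 := 536870912) (P3 := 33554432) (W3 := 16777216)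
    rfl rfl rfl k0_pm_101

noncomputable def f_pm_102_a : ℕ → ℕ → ℕ → ℕ → Bool := onCell 536870912 536870912 0 536870912 33554432 16777216
    (rowFK 0 false true false .npp 1 0 2 (qsf 536870912 536870912 0 536870912 0) ndF2q1 ndF1q2a pcF0 Cut.none Ext.none)

def k0_pm_102_a : ∃ t, chk3 f_pm_102_a t 1 1 1 = true :=
  ⟨(b (a (a (l 4) (l 4)) (l 4)) (l 4)), by decide +kernel⟩

theorem c_pm_102_a : CertF 536870912 536870912 0 536870912 33554432 16777216 false true false .npp 1 0 2
    ndF2q1 ndF1q2a pcF0 Cut.none Ext.none :=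
  certFK0 (fam := false) (s1 := true) (s2 := false) (a := 1) (b := 0) (c := 2) (cn := .npp) (n1 := ndF2q1) (n2 := ndF1q2a) (pc := pcF0) (cut := Cut.none) (xt := Ext.none) (P1 := 536870912) (W1 := 536870912) (P2 := 0) (W2 := 536870912) (P3 := 33554432) (W3 := 16777216)
    rfl rfl rfl k0_pm_102_a

noncomputable def f_pm_102_b : ℕ → ℕ → ℕ → ℕ → Bool := onCell 536870912 536870912 1239849684 370763052 33554432 16777216
    (rowFK 0 false true false .npp 1 0 2 (qsf 536870912 536870912 1239849684 370763052 0) ndF2q1 ndF1q2b pcF0 Cut.none Ext.none)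

def k0_pm_102_b : ∃ t, chk3 f_pm_102_b t 1 1 1 = true :=
  ⟨(a (b (l 4) (l 2)) (b (l 4) (l 4))), by decide +kernel⟩

theorem c_pm_102_b : CertF 536870912 536870912 1239849684 370763052 33554432 16777216 false true false .npp 1 0 2
    ndF2q1 ndF1q2b pcF0 Cut.none Ext.none :=
  certFK0 (fam := false) (s1 := true) (s2 := false) (a := 1) (b := 0) (c := 2) (cn := .npp) (n1 := ndF2q1) (n2 := ndF1q2b) (pc := pcF0) (cut := Cut.none) (xt := Ext.none) (P1 := 536870912) (W1 := 536870912) (P2 := 1239849684) (W2 := 370763052) (P3 := 33554432) (W3 := 16777216)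
    rfl rfl rfl k0_pm_102_b

noncomputable def f_pm_112_a : ℕ → ℕ → ℕ → ℕ → Bool := onCell 536870912 536870912 0 536870912 33554432 16777216
    (rowFK 2 false true false .dn 1 1 2 (qsf 536870912 536870912 0 536870912 1) ndF2q1 ndF1q2a pcF1 Cut.none Ext.none)

def k0_pm_112_a : ∃ t, chk3 f_pm_112_a t 1 1 1 = true :=
  ⟨(a (a (l 19569304) (l 19678336)) (l 1)), by decide +kernel⟩

theorem c_pm_112_a : CertF 536870912 536870912 0 536870912 33554432 16777216 false true false .dn 1 1 2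
    ndF2q1 ndF1q2a pcF1 Cut.none Ext.none :=
  certFK2 (fam := false) (s1 := true) (s2 := false) (a := 1) (b := 1) (c := 2) (cn := .dn) (n1 := ndF2q1) (n2 := ndF1q2a) (pc := pcF1) (cut := Cut.none) (xt := Ext.none) (P1 := 536870912) (W1 := 536870912) (P2 := 0) (W2 := 536870912) (P3 := 33554432) (W3 := 16777216)
    rfl rfl rfl (fun _ => rfl) k0_pm_112_a

noncomputable def f_pm_112_b : ℕ → ℕ → ℕ → ℕ → Bool := onCell 536870912 536870912 1239849684 370763052 33554432 16777216
    (rowFK 0 false true false .dn 1 1 2 (qsf 536870912 536870912 1239849684 370763052 1) ndF2q1 ndF1q2b pcF1 Cut.none Ext.none)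

def k0_pm_112_b : ∃ t, chk3 f_pm_112_b t 1 1 1 = true :=
  ⟨(a (b (l 4) (l 4)) (b (l 4) (l 4))), by decide +kernel⟩

theorem c_pm_112_b : CertF 536870912 536870912 1239849684 370763052 33554432 16777216 false true false .dn 1 1 2
    ndF2q1 ndF1q2b pcF1 Cut.none Ext.none :=
  certFK0 (fam := false) (s1 := true) (s2 := false) (a := 1) (b := 1) (c := 2) (cn := .dn) (n1 := ndF2q1) (n2 := ndF1q2b) (pc := pcF1) (cut := Cut.none) (xt := Ext.none) (P1 := 536870912) (W1 := 536870912) (P2 := 1239849684) (W2 := 370763052) (P3 := 33554432) (W3 := 16777216)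
    rfl rfl rfl k0_pm_112_b

noncomputable def f_pm_113 : ℕ → ℕ → ℕ → ℕ → Bool := onCell 536870912 536870912 1610612736 536870912 33554432 16777216
    (rowFK 0 false true false .nn 1 1 3 (qsf 536870912 536870912 1610612736 536870912 1) ndF2q1 ndF1q3 pcF1 Cut.none Ext.none)

def k0_pm_113 : ∃ t, chk3 f_pm_113 t 1 1 1 = true :=
  ⟨(a (l 4) (b (l 4) (a (l 4) (b (l 4) (a (l 4) (b (l 4) (a (l 4) (b (l 4) (a (l 4) (b (l 4) (a (l 4) (b (l 4) (l 16809768))))))))))))), by decide +kernel⟩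

theorem c_pm_113 : CertF 536870912 536870912 1610612736 536870912 33554432 16777216 false true false .nn 1 1 3
    ndF2q1 ndF1q3 pcF1 Cut.none Ext.none :=
  certFK0 (fam := false) (s1 := true) (s2 := false) (a := 1) (b := 1) (c := 3) (cn := .nn) (n1 := ndF2q1) (n2 := ndF1q3) (pc := pcF1) (cut := Cut.none) (xt := Ext.none) (P1 := 536870912) (W1 := 536870912) (P2 := 1610612736) (W2 := 536870912) (P3 := 33554432) (W3 := 16777216)
    rfl rfl rfl k0_pm_113

noncomputable def f_pm_123 : ℕ → ℕ → ℕ → ℕ → Bool := onCell 536870912 536870912 1610612736 536870912 33554432 16777216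
    (rowFK 0 false true false .npn 1 2 3 (qsf 536870912 536870912 1610612736 536870912 2) ndF2q1 ndF1q3 pcF2 Cut.none Ext.none)

def k0_pm_123 : ∃ t, chk3 f_pm_123 t 1 1 1 = true :=
  ⟨(a (l 4) (b (l 4) (a (l 4) (a (l 4) (a (l 4) (a (l 17678256) (a (l 17709632) (l 17732832)))))))), by decide +kernel⟩

theorem c_pm_123 : CertF 536870912 536870912 1610612736 536870912 33554432 16777216 false true false .npn 1 2 3
    ndF2q1 ndF1q3 pcF2 Cut.none Ext.none :=
  certFK0 (fam := false) (s1 := true) (s2 := false) (a := 1) (b := 2) (c := 3) (cn := .npn) (n1 := ndF2q1) (n2 := ndF1q3) (pc := pcF2) (cut := Cut.none) (xt := Ext.none) (P1 := 536870912) (W1 := 536870912) (P2 := 1610612736) (W2 := 536870912) (P3 := 33554432) (W3 := 16777216)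
    rfl rfl rfl k0_pm_123

noncomputable def f_pm_133 : ℕ → ℕ → ℕ → ℕ → Bool := onCell 536870912 536870912 1610612736 536870912 33554432 16777216
    (rowFK 0 false true false .dn 1 3 3 (qsf 536870912 536870912 1610612736 536870912 3) ndF2q1 ndF1q3 pcF3 Cut.none Ext.none)

def k0_pm_133 : ∃ t, chk3 f_pm_133 t 1 1 1 = true :=
  ⟨(a (l 4) (l 1)), by decide +kernel⟩

theorem c_pm_133 : CertF 536870912 536870912 1610612736 536870912 33554432 16777216 false true false .dn 1 3 3
    ndF2q1 ndF1q3 pcF3 Cut.none Ext.none :=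
  certFK0 (fam := false) (s1 := true) (s2 := false) (a := 1) (b := 3) (c := 3) (cn := .dn) (n1 := ndF2q1) (n2 := ndF1q3) (pc := pcF3) (cut := Cut.none) (xt := Ext.none) (P1 := 536870912) (W1 := 536870912) (P2 := 1610612736) (W2 := 536870912) (P3 := 33554432) (W3 := 16777216)
    rfl rfl rfl k0_pm_133

noncomputable def cut_pm_202_aa : Cut := Cut.of [[⟨0, 1, 0, 33554432⟩, ⟨1, 0, 0, 33554432⟩, ⟨2, 1, 0, 33554432⟩]]

noncomputable def f_pm_202_aa : ℕ → ℕ → ℕ → ℕ → Bool := onCell 0 536870912 0 536870912 33554432 16777216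
    (rowFK 0 false true false .pp 2 0 2 (qsf 0 536870912 0 536870912 0) ndF2q2a ndF1q2a pcF0 cut_pm_202_aa Ext.none)

def k0_pm_202_aa : ∃ t, chk3 f_pm_202_aa t 1 1 1 = true :=
  ⟨(b (l 3) (b (l 3) (b (l 3) (b (l 3) (a (l 1) (a (l 1) (a (l 1) (a (b (l 3) (l 1)) (l 6))))))))), by decide +kernel⟩

theorem c_pm_202_aa : CertF 0 536870912 0 536870912 33554432 16777216 false true false .pp 2 0 2
    ndF2q2a ndF1q2a pcF0 cut_pm_202_aa Ext.none :=
  certFK0 (fam := false) (s1 := true) (s2 := false) (a := 2) (b := 0) (c := 2) (cn := .pp) (n1 := ndF2q2a) (n2 := ndF1q2a) (pc := pcF0) (cut := cut_pm_202_aa) (xt := Ext.none) (P1 := 0) (W1 := 536870912) (P2 := 0) (W2 := 536870912) (P3 := 33554432) (W3 := 16777216)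
    rfl rfl rfl k0_pm_202_aa

noncomputable def cut_pm_202_ab : Cut := Cut.of [[⟨0, 1, 0, 33554432⟩, ⟨1, 0, 0, 33554432⟩, ⟨2, 1, 0, 33554432⟩]]

noncomputable def f_pm_202_ab : ℕ → ℕ → ℕ → ℕ → Bool := onCell 0 536870912 1239849684 370763052 33554432 16777216
    (rowFK 0 false true false .pp 2 0 2 (qsf 0 536870912 1239849684 370763052 0) ndF2q2a ndF1q2b pcF0 cut_pm_202_ab Ext.none)

def k0_pm_202_ab : ∃ t, chk3 f_pm_202_ab t 1 1 1 = true :=
  ⟨(l 3), by decide +kernel⟩

theorem c_pm_202_ab : CertF 0 536870912 1239849684 370763052 33554432 16777216 false true false .pp 2 0 2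
    ndF2q2a ndF1q2b pcF0 cut_pm_202_ab Ext.none :=
  certFK0 (fam := false) (s1 := true) (s2 := false) (a := 2) (b := 0) (c := 2) (cn := .pp) (n1 := ndF2q2a) (n2 := ndF1q2b) (pc := pcF0) (cut := cut_pm_202_ab) (xt := Ext.none) (P1 := 0) (W1 := 536870912) (P2 := 1239849684) (W2 := 370763052) (P3 := 33554432) (W3 := 16777216)
    rfl rfl rfl k0_pm_202_ab

noncomputable def cut_pm_202_ba : Cut := Cut.of [[⟨0, 1, 0, 33554432⟩, ⟨1, 0, 0, 33554432⟩, ⟨2, 1, 0, 33554432⟩]]

noncomputable def f_pm_202_ba : ℕ → ℕ → ℕ → ℕ → Bool := onCell 1239849684 370763052 0 536870912 33554432 16777216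
    (rowFK 0 false true false .pp 2 0 2 (qsf 1239849684 370763052 0 536870912 0) ndF2q2b ndF1q2a pcF0 cut_pm_202_ba Ext.none)

def k0_pm_202_ba : ∃ t, chk3 f_pm_202_ba t 1 1 1 = true :=
  ⟨(b (l 3) (l 1)), by decide +kernel⟩

theorem c_pm_202_ba : CertF 1239849684 370763052 0 536870912 33554432 16777216 false true false .pp 2 0 2
    ndF2q2b ndF1q2a pcF0 cut_pm_202_ba Ext.none :=
  certFK0 (fam := false) (s1 := true) (s2 := false) (a := 2) (b := 0) (c := 2) (cn := .pp) (n1 := ndF2q2b) (n2 := ndF1q2a) (pc := pcF0) (cut := cut_pm_202_ba) (xt := Ext.none) (P1 := 1239849684) (W1 := 370763052) (P2 := 0) (W2 := 536870912) (P3 := 33554432) (W3 := 16777216)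
    rfl rfl rfl k0_pm_202_ba

noncomputable def cut_pm_202_bb : Cut := Cut.of [[⟨0, 1, 0, 33554432⟩, ⟨1, 0, 0, 33554432⟩, ⟨2, 1, 0, 33554432⟩]]

noncomputable def f_pm_202_bb : ℕ → ℕ → ℕ → ℕ → Bool := onCell 1239849684 370763052 1239849684 370763052 33554432 16777216
    (rowFK 0 false true false .pp 2 0 2 (qsf 1239849684 370763052 1239849684 370763052 0) ndF2q2b ndF1q2b pcF0 cut_pm_202_bb Ext.none)

def k0_pm_202_bb : ∃ t, chk3 f_pm_202_bb t 1 1 1 = true :=
  ⟨(l 3), by decide +kernel⟩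

theorem c_pm_202_bb : CertF 1239849684 370763052 1239849684 370763052 33554432 16777216 false true false .pp 2 0 2
    ndF2q2b ndF1q2b pcF0 cut_pm_202_bb Ext.none :=
  certFK0 (fam := false) (s1 := true) (s2 := false) (a := 2) (b := 0) (c := 2) (cn := .pp) (n1 := ndF2q2b) (n2 := ndF1q2b) (pc := pcF0) (cut := cut_pm_202_bb) (xt := Ext.none) (P1 := 1239849684) (W1 := 370763052) (P2 := 1239849684) (W2 := 370763052) (P3 := 33554432) (W3 := 16777216)
    rfl rfl rfl k0_pm_202_bb

noncomputable def f_pm_203_a : ℕ → ℕ → ℕ → ℕ → Bool := onCell 0 536870912 0 536870912 33554432 16777216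
    (rowFK 1 false true false .up 2 0 3 (qsf 0 536870912 1610612736 536870912 0) ndF2q2a ndF1q3 pcF0 Cut.none Ext.none)

def k0_pm_203_a : ∃ t, chk3 f_pm_203_a t 1 1 1 = true :=
  ⟨(l 3), by decide +kernel⟩

theorem c_pm_203_a : CertF 0 536870912 1610612736 536870912 33554432 16777216 false true false .up 2 0 3
    ndF2q2a ndF1q3 pcF0 Cut.none Ext.none :=
  certFK1 (fam := false) (s1 := true) (s2 := false) (a := 2) (b := 0) (c := 3) (cn := .up) (n1 := ndF2q2a) (n2 := ndF1q3) (pc := pcF0) (cut := Cut.none) (xt := Ext.none) (P1 := 0) (W1 := 536870912) (P2 := 1610612736) (W2 := 536870912) (P3 := 33554432) (W3 := 16777216)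
    rfl rfl rfl (fun _ => rfl) k0_pm_203_a

noncomputable def f_pm_203_b : ℕ → ℕ → ℕ → ℕ → Bool := onCell 1239849684 370763052 1610612736 536870912 33554432 16777216
    (rowFK 0 false true false .up 2 0 3 (qsf 1239849684 370763052 1610612736 536870912 0) ndF2q2b ndF1q3 pcF0 Cut.none Ext.none)

def k0_pm_203_b : ∃ t, chk3 f_pm_203_b t 1 1 1 = true :=
  ⟨(l 3), by decide +kernel⟩

theorem c_pm_203_b : CertF 1239849684 370763052 1610612736 536870912 33554432 16777216 false true false .up 2 0 3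
    ndF2q2b ndF1q3 pcF0 Cut.none Ext.none :=
  certFK0 (fam := false) (s1 := true) (s2 := false) (a := 2) (b := 0) (c := 3) (cn := .up) (n1 := ndF2q2b) (n2 := ndF1q3) (pc := pcF0) (cut := Cut.none) (xt := Ext.none) (P1 := 1239849684) (W1 := 370763052) (P2 := 1610612736) (W2 := 536870912) (P3 := 33554432) (W3 := 16777216)
    rfl rfl rfl k0_pm_203_b

noncomputable def cut_pm_213_a : Cut := Cut.of [[⟨0, 1, 0, 7061502⟩, ⟨1, 1, 0, 7061502⟩, ⟨2, 2, 0, 184626⟩]]

noncomputable def f_pm_213_a : ℕ → ℕ → ℕ → ℕ → Bool := onCell 0 536870912 1610612736 536870912 33554432 16777216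
    (rowFK 0 false true false .pnn 2 1 3 (qsf 0 536870912 1610612736 536870912 1) ndF2q2a ndF1q3 pcF1 cut_pm_213_a Ext.none)

def k0_pm_213_a : ∃ t, chk3 f_pm_213_a t 1 1 1 = true :=
  ⟨(a (l 3) (b (l 3) (a (l 3) (b (l 3) (a (l 3) (a (l 3) (a (l 3) (b (l 3) (b (l 3) (b (l 3) (b (l 3) (b (l 3) (b (l 3) (a (l 3) (b (l 3) (b (l 3) (b (l 3) (b (l 3) (l 6))))))))))))))))))), by decide +kernel⟩

theorem c_pm_213_a : CertF 0 536870912 1610612736 536870912 33554432 16777216 false true false .pnn 2 1 3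
    ndF2q2a ndF1q3 pcF1 cut_pm_213_a Ext.none :=
  certFK0 (fam := false) (s1 := true) (s2 := false) (a := 2) (b := 1) (c := 3) (cn := .pnn) (n1 := ndF2q2a) (n2 := ndF1q3) (pc := pcF1) (cut := cut_pm_213_a) (xt := Ext.none) (P1 := 0) (W1 := 536870912) (P2 := 1610612736) (W2 := 536870912) (P3 := 33554432) (W3 := 16777216)
    rfl rfl rfl k0_pm_213_a

noncomputable def cut_pm_213_b : Cut := Cut.of [[⟨0, 1, 0, 7061502⟩, ⟨1, 1, 0, 7061502⟩, ⟨2, 2, 0, 184626⟩]]

noncomputable def f_pm_213_b : ℕ → ℕ → ℕ → ℕ → Bool := onCell 1239849684 370763052 1610612736 536870912 33554432 16777216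
    (rowFK 0 false true false .pnn 2 1 3 (qsf 1239849684 370763052 1610612736 536870912 1) ndF2q2b ndF1q3 pcF1 cut_pm_213_b Ext.none)

def k0_pm_213_b : ∃ t, chk3 f_pm_213_b t 1 1 1 = true :=
  ⟨(l 3), by decide +kernel⟩

theorem c_pm_213_b : CertF 1239849684 370763052 1610612736 536870912 33554432 16777216 false true false .pnn 2 1 3
    ndF2q2b ndF1q3 pcF1 cut_pm_213_b Ext.none :=
  certFK0 (fam := false) (s1 := true) (s2 := false) (a := 2) (b := 1) (c := 3) (cn := .pnn) (n1 := ndF2q2b) (n2 := ndF1q3) (pc := pcF1) (cut := cut_pm_213_b) (xt := Ext.none) (P1 := 1239849684) (W1 := 370763052) (P2 := 1610612736) (W2 := 536870912) (P3 := 33554432) (W3 := 16777216)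
    rfl rfl rfl k0_pm_213_b

noncomputable def f_pm_303 : ℕ → ℕ → ℕ → ℕ → Bool := onCell 1610612736 536870912 1610612736 536870912 33554432 16777216
    (rowFK 0 false true false .npn 3 0 3 (qsf 1610612736 536870912 1610612736 536870912 0) ndF2q3 ndF1q3 pcF0 Cut.none Ext.none)

def k0_pm_303 : ∃ t, chk3 f_pm_303 t 1 1 1 = true :=
  ⟨(l 3), by decide +kernel⟩

theorem c_pm_303 : CertF 1610612736 536870912 1610612736 536870912 33554432 16777216 false true false .npn 3 0 3
    ndF2q3 ndF1q3 pcF0 Cut.none Ext.none :=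
  certFK0 (fam := false) (s1 := true) (s2 := false) (a := 3) (b := 0) (c := 3) (cn := .npn) (n1 := ndF2q3) (n2 := ndF1q3) (pc := pcF0) (cut := Cut.none) (xt := Ext.none) (P1 := 1610612736) (W1 := 536870912) (P2 := 1610612736) (W2 := 536870912) (P3 := 33554432) (W3 := 16777216)
    rfl rfl rfl k0_pm_303

noncomputable def f_pm_313 : ℕ → ℕ → ℕ → ℕ → Bool := onCell 1610612736 536870912 1610612736 536870912 33554432 16777216
    (rowFK 0 false true false .dn 3 1 3 (qsf 1610612736 536870912 1610612736 536870912 1) ndF2q3 ndF1q3 pcF1 Cut.none Ext.none)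

def k0_pm_313 : ∃ t, chk3 f_pm_313 t 1 1 1 = true :=
  ⟨(l 3), by decide +kernel⟩

theorem c_pm_313 : CertF 1610612736 536870912 1610612736 536870912 33554432 16777216 false true false .dn 3 1 3
    ndF2q3 ndF1q3 pcF1 Cut.none Ext.none :=
  certFK0 (fam := false) (s1 := true) (s2 := false) (a := 3) (b := 1) (c := 3) (cn := .dn) (n1 := ndF2q3) (n2 := ndF1q3) (pc := pcF1) (cut := Cut.none) (xt := Ext.none) (P1 := 1610612736) (W1 := 536870912) (P2 := 1610612736) (W2 := 536870912) (P3 := 33554432) (W3 := 16777216)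
    rfl rfl rfl k0_pm_313

noncomputable def f_mm_001 : ℕ → ℕ → ℕ → ℕ → Bool := onCell 0 536870912 536870912 536870912 33554432 16777216
    (rowFK 0 false false false .up 0 0 1 (qsf 0 536870912 536870912 536870912 0) ndF2q0 ndF1q1 pcF0 Cut.none Ext.none)

def k0_mm_001 : ∃ t, chk3 f_mm_001 t 1 1 1 = true :=
  ⟨(l 3), by decide +kernel⟩

theorem c_mm_001 : CertF 0 536870912 536870912 536870912 33554432 16777216 false false false .up 0 0 1
    ndF2q0 ndF1q1 pcF0 Cut.none Ext.none :=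
  certFK0 (fam := false) (s1 := false) (s2 := false) (a := 0) (b := 0) (c := 1) (cn := .up) (n1 := ndF2q0) (n2 := ndF1q1) (pc := pcF0) (cut := Cut.none) (xt := Ext.none) (P1 := 0) (W1 := 536870912) (P2 := 536870912) (W2 := 536870912) (P3 := 33554432) (W3 := 16777216)
    rfl rfl rfl k0_mm_001

noncomputable def f_mm_011 : ℕ → ℕ → ℕ → ℕ → Bool := onCell 0 536870912 536870912 536870912 33554432 16777216
    (rowFK 0 false false false .pnn 0 1 1 (qsf 0 536870912 536870912 536870912 1) ndF2q0 ndF1q1 pcF1 Cut.none Ext.none)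

def k0_mm_011 : ∃ t, chk3 f_mm_011 t 1 1 1 = true :=
  ⟨(l 3), by decide +kernel⟩

theorem c_mm_011 : CertF 0 536870912 536870912 536870912 33554432 16777216 false false false .pnn 0 1 1
    ndF2q0 ndF1q1 pcF1 Cut.none Ext.none :=
  certFK0 (fam := false) (s1 := false) (s2 := false) (a := 0) (b := 1) (c := 1) (cn := .pnn) (n1 := ndF2q0) (n2 := ndF1q1) (pc := pcF1) (cut := Cut.none) (xt := Ext.none) (P1 := 0) (W1 := 536870912) (P2 := 536870912) (W2 := 536870912) (P3 := 33554432) (W3 := 16777216)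
    rfl rfl rfl k0_mm_011

noncomputable def f_mm_012_a : ℕ → ℕ → ℕ → ℕ → Bool := onCell 0 536870912 0 536870912 33554432 16777216
    (rowFK 0 false false false .pnp 0 1 2 (qsf 0 536870912 0 536870912 1) ndF2q0 ndF1q2a pcF1 Cut.none Ext.none)

def k0_mm_012_a : ∃ t, chk3 f_mm_012_a t 1 1 1 = true :=
  ⟨(l 5), by decide +kernel⟩

theorem c_mm_012_a : CertF 0 536870912 0 536870912 33554432 16777216 false false false .pnp 0 1 2
    ndF2q0 ndF1q2a pcF1 Cut.none Ext.none :=
  certFK0 (fam := false) (s1 := false) (s2 := false) (a := 0) (b := 1) (c := 2) (cn := .pnp) (n1 := ndF2q0) (n2 := ndF1q2a) (pc := pcF1) (cut := Cut.none) (xt := Ext.none) (P1 := 0) (W1 := 536870912) (P2 := 0) (W2 := 536870912) (P3 := 33554432) (W3 := 16777216)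
    rfl rfl rfl k0_mm_012_a

noncomputable def f_mm_012_b : ℕ → ℕ → ℕ → ℕ → Bool := onCell 0 536870912 1239849684 370763052 33554432 16777216
    (rowFK 0 false false false .pnp 0 1 2 (qsf 0 536870912 1239849684 370763052 1) ndF2q0 ndF1q2b pcF1 Cut.none Ext.none)

def k0_mm_012_b : ∃ t, chk3 f_mm_012_b t 1 1 1 = true :=
  ⟨(l 5), by decide +kernel⟩

theorem c_mm_012_b : CertF 0 536870912 1239849684 370763052 33554432 16777216 false false false .pnp 0 1 2
    ndF2q0 ndF1q2b pcF1 Cut.none Ext.none :=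
  certFK0 (fam := false) (s1 := false) (s2 := false) (a := 0) (b := 1) (c := 2) (cn := .pnp) (n1 := ndF2q0) (n2 := ndF1q2b) (pc := pcF1) (cut := Cut.none) (xt := Ext.none) (P1 := 0) (W1 := 536870912) (P2 := 1239849684) (W2 := 370763052) (P3 := 33554432) (W3 := 16777216)
    rfl rfl rfl k0_mm_012_b

noncomputable def f_mm_022_a : ℕ → ℕ → ℕ → ℕ → Bool := onCell 0 536870912 0 536870912 33554432 16777216
    (rowFK 0 false false false .pp 0 2 2 (qsf 0 536870912 0 536870912 2) ndF2q0 ndF1q2a pcF2 Cut.none Ext.none)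

def k0_mm_022_a : ∃ t, chk3 f_mm_022_a t 1 1 1 = true :=
  ⟨(l 5), by decide +kernel⟩

theorem c_mm_022_a : CertF 0 536870912 0 536870912 33554432 16777216 false false false .pp 0 2 2
    ndF2q0 ndF1q2a pcF2 Cut.none Ext.none :=
  certFK0 (fam := false) (s1 := false) (s2 := false) (a := 0) (b := 2) (c := 2) (cn := .pp) (n1 := ndF2q0) (n2 := ndF1q2a) (pc := pcF2) (cut := Cut.none) (xt := Ext.none) (P1 := 0) (W1 := 536870912) (P2 := 0) (W2 := 536870912) (P3 := 33554432) (W3 := 16777216)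
    rfl rfl rfl k0_mm_022_a

noncomputable def f_mm_022_b : ℕ → ℕ → ℕ → ℕ → Bool := onCell 0 536870912 1239849684 370763052 33554432 16777216
    (rowFK 0 false false false .pp 0 2 2 (qsf 0 536870912 1239849684 370763052 2) ndF2q0 ndF1q2b pcF2 Cut.none Ext.none)

def k0_mm_022_b : ∃ t, chk3 f_mm_022_b t 1 1 1 = true :=
  ⟨(l 5), by decide +kernel⟩

theorem c_mm_022_b : CertF 0 536870912 1239849684 370763052 33554432 16777216 false false false .pp 0 2 2
    ndF2q0 ndF1q2b pcF2 Cut.none Ext.none :=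
  certFK0 (fam := false) (s1 := false) (s2 := false) (a := 0) (b := 2) (c := 2) (cn := .pp) (n1 := ndF2q0) (n2 := ndF1q2b) (pc := pcF2) (cut := Cut.none) (xt := Ext.none) (P1 := 0) (W1 := 536870912) (P2 := 1239849684) (W2 := 370763052) (P3 := 33554432) (W3 := 16777216)
    rfl rfl rfl k0_mm_022_b

noncomputable def f_mm_023 : ℕ → ℕ → ℕ → ℕ → Bool := onCell 0 536870912 1610612736 536870912 33554432 16777216
    (rowFK 0 false false false .up 0 2 3 (qsf 0 536870912 1610612736 536870912 2) ndF2q0 ndF1q3 pcF2 Cut.none Ext.none)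

def k0_mm_023 : ∃ t, chk3 f_mm_023 t 1 1 1 = true :=
  ⟨(l 5), by decide +kernel⟩

theorem c_mm_023 : CertF 0 536870912 1610612736 536870912 33554432 16777216 false false false .up 0 2 3
    ndF2q0 ndF1q3 pcF2 Cut.none Ext.none :=
  certFK0 (fam := false) (s1 := false) (s2 := false) (a := 0) (b := 2) (c := 3) (cn := .up) (n1 := ndF2q0) (n2 := ndF1q3) (pc := pcF2) (cut := Cut.none) (xt := Ext.none) (P1 := 0) (W1 := 536870912) (P2 := 1610612736) (W2 := 536870912) (P3 := 33554432) (W3 := 16777216)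
    rfl rfl rfl k0_mm_023

noncomputable def f_mm_033 : ℕ → ℕ → ℕ → ℕ → Bool := onCell 0 536870912 1610612736 536870912 33554432 16777216
    (rowFK 0 false false false .pnn 0 3 3 (qsf 0 536870912 1610612736 536870912 3) ndF2q0 ndF1q3 pcF3 Cut.none Ext.none)

def k0_mm_033 : ∃ t, chk3 f_mm_033 t 1 1 1 = true :=
  ⟨(l 5), by decide +kernel⟩

theorem c_mm_033 : CertF 0 536870912 1610612736 536870912 33554432 16777216 false false false .pnn 0 3 3
    ndF2q0 ndF1q3 pcF3 Cut.none Ext.none :=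
  certFK0 (fam := false) (s1 := false) (s2 := false) (a := 0) (b := 3) (c := 3) (cn := .pnn) (n1 := ndF2q0) (n2 := ndF1q3) (pc := pcF3) (cut := Cut.none) (xt := Ext.none) (P1 := 0) (W1 := 536870912) (P2 := 1610612736) (W2 := 536870912) (P3 := 33554432) (W3 := 16777216)
    rfl rfl rfl k0_mm_033

noncomputable def f_mm_101 : ℕ → ℕ → ℕ → ℕ → Bool := onCell 536870912 536870912 536870912 536870912 33554432 16777216
    (rowFK 0 false false false .npn 1 0 1 (qsf 536870912 536870912 536870912 536870912 0) ndF2q1 ndF1q1 pcF0 Cut.none Ext.none)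

def k0_mm_101 : ∃ t, chk3 f_mm_101 t 1 1 1 = true :=
  ⟨(l 3), by decide +kernel⟩

theorem c_mm_101 : CertF 536870912 536870912 536870912 536870912 33554432 16777216 false false false .npn 1 0 1
    ndF2q1 ndF1q1 pcF0 Cut.none Ext.none :=
  certFK0 (fam := false) (s1 := false) (s2 := false) (a := 1) (b := 0) (c := 1) (cn := .npn) (n1 := ndF2q1) (n2 := ndF1q1) (pc := pcF0) (cut := Cut.none) (xt := Ext.none) (P1 := 536870912) (W1 := 536870912) (P2 := 536870912) (W2 := 536870912) (P3 := 33554432) (W3 := 16777216)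
    rfl rfl rfl k0_mm_101

noncomputable def f_mm_102_a : ℕ → ℕ → ℕ → ℕ → Bool := onCell 536870912 536870912 0 536870912 33554432 16777216
    (rowFK 0 false false false .npp 1 0 2 (qsf 536870912 536870912 0 536870912 0) ndF2q1 ndF1q2a pcF0 Cut.none Ext.none)

def k0_mm_102_a : ∃ t, chk3 f_mm_102_a t 1 1 1 = true :=
  ⟨(l 5), by decide +kernel⟩

theorem c_mm_102_a : CertF 536870912 536870912 0 536870912 33554432 16777216 false false false .npp 1 0 2
    ndF2q1 ndF1q2a pcF0 Cut.none Ext.none :=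
  certFK0 (fam := false) (s1 := false) (s2 := false) (a := 1) (b := 0) (c := 2) (cn := .npp) (n1 := ndF2q1) (n2 := ndF1q2a) (pc := pcF0) (cut := Cut.none) (xt := Ext.none) (P1 := 536870912) (W1 := 536870912) (P2 := 0) (W2 := 536870912) (P3 := 33554432) (W3 := 16777216)
    rfl rfl rfl k0_mm_102_a

noncomputable def f_mm_102_b : ℕ → ℕ → ℕ → ℕ → Bool := onCell 536870912 536870912 1239849684 370763052 33554432 16777216
    (rowFK 0 false false false .npp 1 0 2 (qsf 536870912 536870912 1239849684 370763052 0) ndF2q1 ndF1q2b pcF0 Cut.none Ext.none)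

def k0_mm_102_b : ∃ t, chk3 f_mm_102_b t 1 1 1 = true :=
  ⟨(l 5), by decide +kernel⟩

theorem c_mm_102_b : CertF 536870912 536870912 1239849684 370763052 33554432 16777216 false false false .npp 1 0 2
    ndF2q1 ndF1q2b pcF0 Cut.none Ext.none :=
  certFK0 (fam := false) (s1 := false) (s2 := false) (a := 1) (b := 0) (c := 2) (cn := .npp) (n1 := ndF2q1) (n2 := ndF1q2b) (pc := pcF0) (cut := Cut.none) (xt := Ext.none) (P1 := 536870912) (W1 := 536870912) (P2 := 1239849684) (W2 := 370763052) (P3 := 33554432) (W3 := 16777216)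
    rfl rfl rfl k0_mm_102_b

noncomputable def f_mm_112_a : ℕ → ℕ → ℕ → ℕ → Bool := onCell 536870912 536870912 0 536870912 33554432 16777216
    (rowFK 0 false false false .dn 1 1 2 (qsf 536870912 536870912 0 536870912 1) ndF2q1 ndF1q2a pcF1 Cut.none Ext.none)

def k0_mm_112_a : ∃ t, chk3 f_mm_112_a t 1 1 1 = true :=
  ⟨(l 5), by decide +kernel⟩

theorem c_mm_112_a : CertF 536870912 536870912 0 536870912 33554432 16777216 false false false .dn 1 1 2
    ndF2q1 ndF1q2a pcF1 Cut.none Ext.none :=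
  certFK0 (fam := false) (s1 := false) (s2 := false) (a := 1) (b := 1) (c := 2) (cn := .dn) (n1 := ndF2q1) (n2 := ndF1q2a) (pc := pcF1) (cut := Cut.none) (xt := Ext.none) (P1 := 536870912) (W1 := 536870912) (P2 := 0) (W2 := 536870912) (P3 := 33554432) (W3 := 16777216)
    rfl rfl rfl k0_mm_112_a

noncomputable def f_mm_112_b : ℕ → ℕ → ℕ → ℕ → Bool := onCell 536870912 536870912 1239849684 370763052 33554432 16777216
    (rowFK 0 false false false .dn 1 1 2 (qsf 536870912 536870912 1239849684 370763052 1) ndF2q1 ndF1q2b pcF1 Cut.none Ext.none)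

def k0_mm_112_b : ∃ t, chk3 f_mm_112_b t 1 1 1 = true :=
  ⟨(l 5), by decide +kernel⟩

theorem c_mm_112_b : CertF 536870912 536870912 1239849684 370763052 33554432 16777216 false false false .dn 1 1 2
    ndF2q1 ndF1q2b pcF1 Cut.none Ext.none :=
  certFK0 (fam := false) (s1 := false) (s2 := false) (a := 1) (b := 1) (c := 2) (cn := .dn) (n1 := ndF2q1) (n2 := ndF1q2b) (pc := pcF1) (cut := Cut.none) (xt := Ext.none) (P1 := 536870912) (W1 := 536870912) (P2 := 1239849684) (W2 := 370763052) (P3 := 33554432) (W3 := 16777216)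
    rfl rfl rfl k0_mm_112_b

noncomputable def f_mm_113 : ℕ → ℕ → ℕ → ℕ → Bool := onCell 536870912 536870912 1610612736 536870912 33554432 16777216
    (rowFK 0 false false false .nn 1 1 3 (qsf 536870912 536870912 1610612736 536870912 1) ndF2q1 ndF1q3 pcF1 Cut.none Ext.none)

def k0_mm_113 : ∃ t, chk3 f_mm_113 t 1 1 1 = true :=
  ⟨(l 5), by decide +kernel⟩

theorem c_mm_113 : CertF 536870912 536870912 1610612736 536870912 33554432 16777216 false false false .nn 1 1 3
    ndF2q1 ndF1q3 pcF1 Cut.none Ext.none :=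
  certFK0 (fam := false) (s1 := false) (s2 := false) (a := 1) (b := 1) (c := 3) (cn := .nn) (n1 := ndF2q1) (n2 := ndF1q3) (pc := pcF1) (cut := Cut.none) (xt := Ext.none) (P1 := 536870912) (W1 := 536870912) (P2 := 1610612736) (W2 := 536870912) (P3 := 33554432) (W3 := 16777216)
    rfl rfl rfl k0_mm_113

noncomputable def f_mm_123 : ℕ → ℕ → ℕ → ℕ → Bool := onCell 536870912 536870912 1610612736 536870912 33554432 16777216
    (rowFK 0 false false false .npn 1 2 3 (qsf 536870912 536870912 1610612736 536870912 2) ndF2q1 ndF1q3 pcF2 Cut.none Ext.none)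

def k0_mm_123 : ∃ t, chk3 f_mm_123 t 1 1 1 = true :=
  ⟨(l 5), by decide +kernel⟩

theorem c_mm_123 : CertF 536870912 536870912 1610612736 536870912 33554432 16777216 false false false .npn 1 2 3
    ndF2q1 ndF1q3 pcF2 Cut.none Ext.none :=
  certFK0 (fam := false) (s1 := false) (s2 := false) (a := 1) (b := 2) (c := 3) (cn := .npn) (n1 := ndF2q1) (n2 := ndF1q3) (pc := pcF2) (cut := Cut.none) (xt := Ext.none) (P1 := 536870912) (W1 := 536870912) (P2 := 1610612736) (W2 := 536870912) (P3 := 33554432) (W3 := 16777216)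
    rfl rfl rfl k0_mm_123

noncomputable def f_mm_133 : ℕ → ℕ → ℕ → ℕ → Bool := onCell 536870912 536870912 1610612736 536870912 33554432 16777216
    (rowFK 0 false false false .dn 1 3 3 (qsf 536870912 536870912 1610612736 536870912 3) ndF2q1 ndF1q3 pcF3 Cut.none Ext.none)

def k0_mm_133 : ∃ t, chk3 f_mm_133 t 1 1 1 = true :=
  ⟨(l 5), by decide +kernel⟩

theorem c_mm_133 : CertF 536870912 536870912 1610612736 536870912 33554432 16777216 false false false .dn 1 3 3
    ndF2q1 ndF1q3 pcF3 Cut.none Ext.none :=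
  certFK0 (fam := false) (s1 := false) (s2 := false) (a := 1) (b := 3) (c := 3) (cn := .dn) (n1 := ndF2q1) (n2 := ndF1q3) (pc := pcF3) (cut := Cut.none) (xt := Ext.none) (P1 := 536870912) (W1 := 536870912) (P2 := 1610612736) (W2 := 536870912) (P3 := 33554432) (W3 := 16777216)
    rfl rfl rfl k0_mm_133

noncomputable def f_mm_202_aa : ℕ → ℕ → ℕ → ℕ → Bool := onCell 0 536870912 0 536870912 33554432 16777216
    (rowFK 0 false false false .pp 2 0 2 (qsf 0 536870912 0 536870912 0) ndF2q2a ndF1q2a pcF0 Cut.none Ext.none)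

def k0_mm_202_aa : ∃ t, chk3 f_mm_202_aa t 1 1 1 = true :=
  ⟨(l 3), by decide +kernel⟩

theorem c_mm_202_aa : CertF 0 536870912 0 536870912 33554432 16777216 false false false .pp 2 0 2
    ndF2q2a ndF1q2a pcF0 Cut.none Ext.none :=
  certFK0 (fam := false) (s1 := false) (s2 := false) (a := 2) (b := 0) (c := 2) (cn := .pp) (n1 := ndF2q2a) (n2 := ndF1q2a) (pc := pcF0) (cut := Cut.none) (xt := Ext.none) (P1 := 0) (W1 := 536870912) (P2 := 0) (W2 := 536870912) (P3 := 33554432) (W3 := 16777216)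
    rfl rfl rfl k0_mm_202_aa

noncomputable def f_mm_202_ab : ℕ → ℕ → ℕ → ℕ → Bool := onCell 0 536870912 1239849684 370763052 33554432 16777216
    (rowFK 0 false false false .pp 2 0 2 (qsf 0 536870912 1239849684 370763052 0) ndF2q2a ndF1q2b pcF0 Cut.none Ext.none)

def k0_mm_202_ab : ∃ t, chk3 f_mm_202_ab t 1 1 1 = true :=
  ⟨(l 3), by decide +kernel⟩

theorem c_mm_202_ab : CertF 0 536870912 1239849684 370763052 33554432 16777216 false false false .pp 2 0 2
    ndF2q2a ndF1q2b pcF0 Cut.none Ext.none :=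
  certFK0 (fam := false) (s1 := false) (s2 := false) (a := 2) (b := 0) (c := 2) (cn := .pp) (n1 := ndF2q2a) (n2 := ndF1q2b) (pc := pcF0) (cut := Cut.none) (xt := Ext.none) (P1 := 0) (W1 := 536870912) (P2 := 1239849684) (W2 := 370763052) (P3 := 33554432) (W3 := 16777216)
    rfl rfl rfl k0_mm_202_ab

noncomputable def f_mm_202_ba : ℕ → ℕ → ℕ → ℕ → Bool := onCell 1239849684 370763052 0 536870912 33554432 16777216
    (rowFK 0 false false false .pp 2 0 2 (qsf 1239849684 370763052 0 536870912 0) ndF2q2b ndF1q2a pcF0 Cut.none Ext.none)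

def k0_mm_202_ba : ∃ t, chk3 f_mm_202_ba t 1 1 1 = true :=
  ⟨(l 3), by decide +kernel⟩

theorem c_mm_202_ba : CertF 1239849684 370763052 0 536870912 33554432 16777216 false false false .pp 2 0 2
    ndF2q2b ndF1q2a pcF0 Cut.none Ext.none :=
  certFK0 (fam := false) (s1 := false) (s2 := false) (a := 2) (b := 0) (c := 2) (cn := .pp) (n1 := ndF2q2b) (n2 := ndF1q2a) (pc := pcF0) (cut := Cut.none) (xt := Ext.none) (P1 := 1239849684) (W1 := 370763052) (P2 := 0) (W2 := 536870912) (P3 := 33554432) (W3 := 16777216)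
    rfl rfl rfl k0_mm_202_ba

noncomputable def f_mm_202_bb : ℕ → ℕ → ℕ → ℕ → Bool := onCell 1239849684 370763052 1239849684 370763052 33554432 16777216
    (rowFK 0 false false false .pp 2 0 2 (qsf 1239849684 370763052 1239849684 370763052 0) ndF2q2b ndF1q2b pcF0 Cut.none Ext.none)

def k0_mm_202_bb : ∃ t, chk3 f_mm_202_bb t 1 1 1 = true :=
  ⟨(l 3), by decide +kernel⟩

theorem c_mm_202_bb : CertF 1239849684 370763052 1239849684 370763052 33554432 16777216 false false false .pp 2 0 2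
    ndF2q2b ndF1q2b pcF0 Cut.none Ext.none :=
  certFK0 (fam := false) (s1 := false) (s2 := false) (a := 2) (b := 0) (c := 2) (cn := .pp) (n1 := ndF2q2b) (n2 := ndF1q2b) (pc := pcF0) (cut := Cut.none) (xt := Ext.none) (P1 := 1239849684) (W1 := 370763052) (P2 := 1239849684) (W2 := 370763052) (P3 := 33554432) (W3 := 16777216)
    rfl rfl rfl k0_mm_202_bb

noncomputable def f_mm_203_a : ℕ → ℕ → ℕ → ℕ → Bool := onCell 0 536870912 1610612736 536870912 33554432 16777216
    (rowFK 0 false false false .up 2 0 3 (qsf 0 536870912 1610612736 536870912 0) ndF2q2a ndF1q3 pcF0 Cut.none Ext.none)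

def k0_mm_203_a : ∃ t, chk3 f_mm_203_a t 1 1 1 = true :=
  ⟨(l 5), by decide +kernel⟩

theorem c_mm_203_a : CertF 0 536870912 1610612736 536870912 33554432 16777216 false false false .up 2 0 3
    ndF2q2a ndF1q3 pcF0 Cut.none Ext.none :=
  certFK0 (fam := false) (s1 := false) (s2 := false) (a := 2) (b := 0) (c := 3) (cn := .up) (n1 := ndF2q2a) (n2 := ndF1q3) (pc := pcF0) (cut := Cut.none) (xt := Ext.none) (P1 := 0) (W1 := 536870912) (P2 := 1610612736) (W2 := 536870912) (P3 := 33554432) (W3 := 16777216)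
    rfl rfl rfl k0_mm_203_a

noncomputable def f_mm_203_b : ℕ → ℕ → ℕ → ℕ → Bool := onCell 1239849684 370763052 1610612736 536870912 33554432 16777216
    (rowFK 0 false false false .up 2 0 3 (qsf 1239849684 370763052 1610612736 536870912 0) ndF2q2b ndF1q3 pcF0 Cut.none Ext.none)

def k0_mm_203_b : ∃ t, chk3 f_mm_203_b t 1 1 1 = true :=
  ⟨(l 3), by decide +kernel⟩

theorem c_mm_203_b : CertF 1239849684 370763052 1610612736 536870912 33554432 16777216 false false false .up 2 0 3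
    ndF2q2b ndF1q3 pcF0 Cut.none Ext.none :=
  certFK0 (fam := false) (s1 := false) (s2 := false) (a := 2) (b := 0) (c := 3) (cn := .up) (n1 := ndF2q2b) (n2 := ndF1q3) (pc := pcF0) (cut := Cut.none) (xt := Ext.none) (P1 := 1239849684) (W1 := 370763052) (P2 := 1610612736) (W2 := 536870912) (P3 := 33554432) (W3 := 16777216)
    rfl rfl rfl k0_mm_203_b

noncomputable def f_mm_213_a : ℕ → ℕ → ℕ → ℕ → Bool := onCell 0 536870912 1610612736 536870912 33554432 16777216
    (rowFK 0 false false false .pnn 2 1 3 (qsf 0 536870912 1610612736 536870912 1) ndF2q2a ndF1q3 pcF1 Cut.none Ext.none)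

def k0_mm_213_a : ∃ t, chk3 f_mm_213_a t 1 1 1 = true :=
  ⟨(l 5), by decide +kernel⟩

theorem c_mm_213_a : CertF 0 536870912 1610612736 536870912 33554432 16777216 false false false .pnn 2 1 3
    ndF2q2a ndF1q3 pcF1 Cut.none Ext.none :=
  certFK0 (fam := false) (s1 := false) (s2 := false) (a := 2) (b := 1) (c := 3) (cn := .pnn) (n1 := ndF2q2a) (n2 := ndF1q3) (pc := pcF1) (cut := Cut.none) (xt := Ext.none) (P1 := 0) (W1 := 536870912) (P2 := 1610612736) (W2 := 536870912) (P3 := 33554432) (W3 := 16777216)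
    rfl rfl rfl k0_mm_213_a

noncomputable def f_mm_213_b : ℕ → ℕ → ℕ → ℕ → Bool := onCell 1239849684 370763052 1610612736 536870912 33554432 16777216
    (rowFK 0 false false false .pnn 2 1 3 (qsf 1239849684 370763052 1610612736 536870912 1) ndF2q2b ndF1q3 pcF1 Cut.none Ext.none)

def k0_mm_213_b : ∃ t, chk3 f_mm_213_b t 1 1 1 = true :=
  ⟨(l 3), by decide +kernel⟩

theorem c_mm_213_b : CertF 1239849684 370763052 1610612736 536870912 33554432 16777216 false false false .pnn 2 1 3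
    ndF2q2b ndF1q3 pcF1 Cut.none Ext.none :=
  certFK0 (fam := false) (s1 := false) (s2 := false) (a := 2) (b := 1) (c := 3) (cn := .pnn) (n1 := ndF2q2b) (n2 := ndF1q3) (pc := pcF1) (cut := Cut.none) (xt := Ext.none) (P1 := 1239849684) (W1 := 370763052) (P2 := 1610612736) (W2 := 536870912) (P3 := 33554432) (W3 := 16777216)
    rfl rfl rfl k0_mm_213_b

noncomputable def f_mm_303 : ℕ → ℕ → ℕ → ℕ → Bool := onCell 1610612736 536870912 1610612736 536870912 33554432 16777216
    (rowFK 0 false false false .npn 3 0 3 (qsf 1610612736 536870912 1610612736 536870912 0) ndF2q3 ndF1q3 pcF0 Cut.none Ext.none)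

def k0_mm_303 : ∃ t, chk3 f_mm_303 t 1 1 1 = true :=
  ⟨(l 3), by decide +kernel⟩

theorem c_mm_303 : CertF 1610612736 536870912 1610612736 536870912 33554432 16777216 false false false .npn 3 0 3
    ndF2q3 ndF1q3 pcF0 Cut.none Ext.none :=
  certFK0 (fam := false) (s1 := false) (s2 := false) (a := 3) (b := 0) (c := 3) (cn := .npn) (n1 := ndF2q3) (n2 := ndF1q3) (pc := pcF0) (cut := Cut.none) (xt := Ext.none) (P1 := 1610612736) (W1 := 536870912) (P2 := 1610612736) (W2 := 536870912) (P3 := 33554432) (W3 := 16777216)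
    rfl rfl rfl k0_mm_303

noncomputable def f_mm_313 : ℕ → ℕ → ℕ → ℕ → Bool := onCell 1610612736 536870912 1610612736 536870912 33554432 16777216
    (rowFK 0 false false false .dn 3 1 3 (qsf 1610612736 536870912 1610612736 536870912 1) ndF2q3 ndF1q3 pcF1 Cut.none Ext.none)

def k0_mm_313 : ∃ t, chk3 f_mm_313 t 1 1 1 = true :=
  ⟨(l 3), by decide +kernel⟩

theorem c_mm_313 : CertF 1610612736 536870912 1610612736 536870912 33554432 16777216 false false false .dn 3 1 3
    ndF2q3 ndF1q3 pcF1 Cut.none Ext.none :=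
  certFK0 (fam := false) (s1 := false) (s2 := false) (a := 3) (b := 1) (c := 3) (cn := .dn) (n1 := ndF2q3) (n2 := ndF1q3) (pc := pcF1) (cut := Cut.none) (xt := Ext.none) (P1 := 1610612736) (W1 := 536870912) (P2 := 1610612736) (W2 := 536870912) (P3 := 33554432) (W3 := 16777216)
    rfl rfl rfl k0_mm_313

end Pool.Agent.Strip051.G.I1_32_3_64.Tab.C.FB21

namespace Pool.Agent.Strip051.G.I1_32_3_64.Tab.C.FB22

open Pool.Agent.Strip051.PB Pool.Agent.Strip051.PB.T
open Pool.Agent.Strip051.G.I1_32_3_64.Tab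

noncomputable def f_pp_001 : ℕ → ℕ → ℕ → ℕ → Bool := onCell 0 536870912 0 536870912 33554432 16777216
    (rowFK 1 false true true .up 0 0 1 (qsf 0 536870912 536870912 536870912 0) ndF2q0 ndF2q1 pcF0 Cut.none Ext.none)

def k0_pp_001 : ∃ t, chk3 f_pp_001 t 1 1 1 = true :=
  ⟨(l 3), by decide +kernel⟩

theorem c_pp_001 : CertF 0 536870912 536870912 536870912 33554432 16777216 false true true .up 0 0 1
    ndF2q0 ndF2q1 pcF0 Cut.none Ext.none :=
  certFK1 (fam := false) (s1 := true) (s2 := true) (a := 0) (b := 0) (c := 1) (cn := .up) (n1 := ndF2q0) (n2 := ndF2q1) (pc := pcF0) (cut := Cut.none) (xt := Ext.none) (P1 := 0) (W1 := 536870912) (P2 := 536870912) (W2 := 536870912) (P3 := 33554432) (W3 := 16777216)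
    rfl rfl rfl (fun _ => rfl) k0_pp_001

noncomputable def cut_pp_011 : Cut := Cut.of [[⟨0, 0, 0, 33554432⟩, ⟨1, 1, 0, 33554432⟩, ⟨2, 1, 0, 33554432⟩]]

noncomputable def f_pp_011 : ℕ → ℕ → ℕ → ℕ → Bool := onCell 0 536870912 536870912 536870912 33554432 16777216
    (rowFK 1 false true true .pnn 0 1 1 (qsf 0 536870912 536870912 536870912 1) ndF2q0 ndF2q1 pcF1 cut_pp_011 Ext.none)

def k0_pp_011 : ∃ t, chk3 f_pp_011 t 1 1 1 = true :=
  ⟨(a (b (l 3) (a (b (l 3) (a (b (l 3) (a (b (l 3) (a (b (l 3) (l 6)) (l 3))) (l 3))) (l 3))) (l 3))) (l 3)), by decide +kernel⟩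

theorem c_pp_011 : CertF 0 536870912 536870912 536870912 33554432 16777216 false true true .pnn 0 1 1
    ndF2q0 ndF2q1 pcF1 cut_pp_011 Ext.none :=
  certFK1 (fam := false) (s1 := true) (s2 := true) (a := 0) (b := 1) (c := 1) (cn := .pnn) (n1 := ndF2q0) (n2 := ndF2q1) (pc := pcF1) (cut := cut_pp_011) (xt := Ext.none) (P1 := 0) (W1 := 536870912) (P2 := 536870912) (W2 := 536870912) (P3 := 33554432) (W3 := 16777216)
    rfl rfl rfl (fun _ => rfl) k0_pp_011

noncomputable def cut_pp_012_a : Cut := Cut.of [[⟨0, 0, 0, 33554432⟩, ⟨1, 1, 0, 33554432⟩, ⟨2, 1, 0, 33554432⟩]]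

noncomputable def f_pp_012_a : ℕ → ℕ → ℕ → ℕ → Bool := onCell 536870912 536870912 0 536870912 33554432 16777216
    (rowFK 2 false true true .pnp 0 1 2 (qsf 0 536870912 0 536870912 1) ndF2q0 ndF2q2a pcF1 cut_pp_012_a Ext.none)

def k0_pp_012_a : ∃ t, chk3 f_pp_012_a t 1 1 1 = true :=
  ⟨(a (b (a (l 17790760) (l 17562504)) (b (a (l 17935736) (l 17688272)) (b (a (l 18061264) (l 17794936)) (b (a (l 18136888) (l 17855784)) (b (a (l 18178168) (l 17889528)) (a (l 18206120) (l 17912840))))))) (b (a (l 17341536) (a (l 17287248) (l 17950888))) (a (b (a (l 17564496) (l 17346032)) (b (a (l 17660256) (l 17419376)) (b (a (l 17712040) (l 17455360)) (b (a (l 17741248) (l 17476000)) (a (l 17762504) (l 17491320)))))) (b (a (l 17087248) (b (l 17734472) (l 17486560))) (b (a (l 17126744) (a (l 16989184) (b (l 17434408) (l 17153976)))) (b (a (l 17141456) (a (l 16947712) (b (l 16918168) (l 16903760)))) (b (a (l 17150336) (a (l 16947880) (a (l 16863776) (a (l 16826096) (l 6)))))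 (a (l 17178368) (a (l 16948744) (a (l 16861592) (l 6))))))))))), by decide +kernel⟩

theorem c_pp_012_a : CertF 0 536870912 0 536870912 33554432 16777216 false true true .pnp 0 1 2
    ndF2q0 ndF2q2a pcF1 cut_pp_012_a Ext.none :=
  certFK2 (fam := false) (s1 := true) (s2 := true) (a := 0) (b := 1) (c := 2) (cn := .pnp) (n1 := ndF2q0) (n2 := ndF2q2a) (pc := pcF1) (cut := cut_pp_012_a) (xt := Ext.none) (P1 := 0) (W1 := 536870912) (P2 := 0) (W2 := 536870912) (P3 := 33554432) (W3 := 16777216)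
    rfl rfl rfl (fun _ => rfl) k0_pp_012_a

noncomputable def cut_pp_012_b : Cut := Cut.of [[⟨0, 0, 0, 33554432⟩, ⟨1, 1, 0, 33554432⟩, ⟨2, 1, 0, 33554432⟩]]

noncomputable def f_pp_012_b : ℕ → ℕ → ℕ → ℕ → Bool := onCell 536870912 536870912 1239849684 370763052 33554432 16777216
    (rowFK 2 false true true .pnp 0 1 2 (qsf 0 536870912 1239849684 370763052 1) ndF2q0 ndF2q2b pcF1 cut_pp_012_b Ext.none)

def k0_pp_012_b : ∃ t, chk3 f_pp_012_b t 1 1 1 = true :=
  ⟨(a (a (l 2) (b (l 17423312) (l 2))) (a (b (a (l 17193440) (l 17335016)) (l 17777712)) (a (b (l 17841760) (l 18350464)) (b (l 18513568) (a (l 18691760) (a (l 18879168) (a (l 18979512) (l 19045864)))))))), by decide +kernel⟩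

theorem c_pp_012_b : CertF 0 536870912 1239849684 370763052 33554432 16777216 false true true .pnp 0 1 2
    ndF2q0 ndF2q2b pcF1 cut_pp_012_b Ext.none :=
  certFK2 (fam := false) (s1 := true) (s2 := true) (a := 0) (b := 1) (c := 2) (cn := .pnp) (n1 := ndF2q0) (n2 := ndF2q2b) (pc := pcF1) (cut := cut_pp_012_b) (xt := Ext.none) (P1 := 0) (W1 := 536870912) (P2 := 1239849684) (W2 := 370763052) (P3 := 33554432) (W3 := 16777216)
    rfl rfl rfl (fun _ => rfl) k0_pp_012_b

noncomputable def cut_pp_022_a : Cut := Cut.of [[⟨0, 0, 0, 33554432⟩, ⟨1, 1, 0, 33554432⟩, ⟨2, 1, 0, 33554432⟩]]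

noncomputable def f_pp_022_a : ℕ → ℕ → ℕ → ℕ → Bool := onCell 0 536870912 0 536870912 33554432 16777216
    (rowFK 0 false true true .pp 0 2 2 (qsf 0 536870912 0 536870912 2) ndF2q0 ndF2q2a pcF2 cut_pp_022_a Ext.none)

def k0_pp_022_a : ∃ t, chk3 f_pp_022_a t 2 2 1 = true :=
  ⟨(a (a (l 19542880) (b (l 18994472) (a (l 18907080) (b (l 18771944) (a (l 18648664) (b (l 18586400) (a (l 18494304) (l 18443256)))))))) (a (a (b (a (l 18745536) (b (l 18674328) (l 18634592))) (b (a (a (l 18633232) (l 18584904)) (l 18566144)) (l 18480280))) (l 18609488)) (l 1))), by decide +kernel⟩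

def k1_pp_022_a : ∃ t, chk3 f_pp_022_a t 2 3 1 = true :=
  ⟨(a (b (a (a (b (l 19080824) (a (l 18763008) (l 18612832))) (l 18619736)) (b (a (l 18552152) (b (a (b (l 18481744) (a (l 18430016) (l 18359800))) (l 18357304)) (l 18266520))) (a (b (a (l 18294488) (b (a (l 18246200) (l 18170536)) (l 18083912))) (a (a (l 18007256) (l 17938760)) (l 17902408))) (l 18020936)))) (a (b (a (a (a (b (b (l 18346656) (b (l 18136320) (l 17755400))) (a (b (c (l 17908768) (a (a (b (l 17346536) (c (l 17362928) (a (b (l 17072800) (l 16747704)) (l 17056888)))) (l 17356592)) (l 17347840))) (a (a (c (b (c (l 17781936) (l 17361520)) (c (l 17318056) (a (b (l 16999336) (b (l 16809680) (l 16729520))) (l 17067592)))) (a (a (b (b (c (l 17070688) (l 16720512)) (l 16723464)) (b (l 16723664) (l 16726592))) (l 16723144)) (l 16723496))) (l 16979440)) (l 17057384))) (l 17361584))) (b (l 18128584) (l 17322000))) (b (l 18007512) (l 17241712))) (b (a (l 17843264) (b (l 17808328) (a (l 17572952)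 (l 17507688)))) (a (b (l 17342912) (a (b (l 17045096) (l 16787704)) (l 16889016))) (l 17076240)))) (a (a (b (b (a (a (a (a (a (a (a (b (b (b (l 16726752) (l 16727648)) (b (l 16728568) (l 16729528))) (b (b (l 16731176) (c (l 16731736) (l 16731368))) (b (c (l 16732792) (l 16732448)) (l 6)))) (l 16735416)) (l 16740856)) (l 16730768)) (l 16731568)) (l 16733184)) (l 16736512)) (l 16743696)) (l 6)) (l 6)) (a (b (b (l 16754120) (l 6)) (l 6)) (b (b (l 16765416) (l 16778336)) (l 1)))) (b (a (b (l 16782552) (l 1)) (l 1)) (l 1)))) (b (a (b (l 17597936) (l 1)) (l 1)) (l 1)))) (b (l 1) (l 1))), by decide +kernel⟩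

def k2_pp_022_a : ∃ t, chk3 f_pp_022_a t 3 1 1 = true :=
  ⟨(l 1), by decide +kernel⟩

theorem s3_pp_022_a : ∃ t, chk3 f_pp_022_a t 2 1 1 = true := ex3_b k0_pp_022_a k1_pp_022_a

theorem s4_pp_022_a : ∃ t, chk3 f_pp_022_a t 1 1 1 = true := ex3_a s3_pp_022_a k2_pp_022_a

theorem c_pp_022_a : CertF 0 536870912 0 536870912 33554432 16777216 false true true .pp 0 2 2
    ndF2q0 ndF2q2a pcF2 cut_pp_022_a Ext.none :=
  certFK0 (fam := false) (s1 := true) (s2 := true) (a := 0) (b := 2) (c := 2) (cn := .pp) (n1 := ndF2q0) (n2 := ndF2q2a) (pc := pcF2) (cut := cut_pp_022_a) (xt := Ext.none) (P1 := 0) (W1 := 536870912) (P2 := 0) (W2 := 536870912) (P3 := 33554432) (W3 := 16777216)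
    rfl rfl rfl s4_pp_022_a

noncomputable def cut_pp_022_b : Cut := Cut.of [[⟨0, 0, 0, 33554432⟩, ⟨1, 1, 0, 33554432⟩, ⟨2, 1, 0, 33554432⟩]]

noncomputable def f_pp_022_b : ℕ → ℕ → ℕ → ℕ → Bool := onCell 1073741824 536870912 1239849684 370763052 33554432 16777216
    (rowFK 2 false true true .pp 0 2 2 (qsf 0 536870912 1239849684 370763052 2) ndF2q0 ndF2q2b pcF2 cut_pp_022_b Ext.none)

def k0_pp_022_b : ∃ t, chk3 f_pp_022_b t 1 1 1 = true :=
  ⟨(a (a (a (a (a (a (l 19198168) (l 19215744)) (l 19245784)) (l 19300424)) (b (l 19314568) (l 19454776))) (b (b (a (l 19726104) (b (l 684012394279) (l 19624248))) (l 19576672)) (l 19560896))) (b (a (b (l 1) (a (l 19630480) (l 789238966695))) (l 1)) (a (l 19596064) (b (a (l 791387182183) (l 1)) (l 19514824))))), by decide +kernel⟩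

theorem c_pp_022_b : CertF 0 536870912 1239849684 370763052 33554432 16777216 false true true .pp 0 2 2
    ndF2q0 ndF2q2b pcF2 cut_pp_022_b Ext.none :=
  certFK2 (fam := false) (s1 := true) (s2 := true) (a := 0) (b := 2) (c := 2) (cn := .pp) (n1 := ndF2q0) (n2 := ndF2q2b) (pc := pcF2) (cut := cut_pp_022_b) (xt := Ext.none) (P1 := 0) (W1 := 536870912) (P2 := 1239849684) (W2 := 370763052) (P3 := 33554432) (W3 := 16777216)
    rfl rfl rfl (fun _ => rfl) k0_pp_022_b

noncomputable def f_pp_023 : ℕ → ℕ → ℕ → ℕ → Bool := onCell 0 536870912 1073741824 536870912 33554432 16777216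
    (rowFK 1 false true true .up 0 2 3 (qsf 0 536870912 1610612736 536870912 2) ndF2q0 ndF2q3 pcF2 Cut.none Ext.none)

def k0_pp_023 : ∃ t, chk3 f_pp_023 t 1 1 1 = true :=
  ⟨(a (b (b (l 1) (l 561606091239)) (b (l 566438809415) (l 634084402327))) (b (b (b (b (b (b (l 19235440) (l 19250048)) (l 19272016)) (l 19310336)) (l 19376216)) (l 19468104)) (b (l 19406624) (l 19117304)))), by decide +kernel⟩

theorem c_pp_023 : CertF 0 536870912 1610612736 536870912 33554432 16777216 false true true .up 0 2 3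
    ndF2q0 ndF2q3 pcF2 Cut.none Ext.none :=
  certFK1 (fam := false) (s1 := true) (s2 := true) (a := 0) (b := 2) (c := 3) (cn := .up) (n1 := ndF2q0) (n2 := ndF2q3) (pc := pcF2) (cut := Cut.none) (xt := Ext.none) (P1 := 0) (W1 := 536870912) (P2 := 1610612736) (W2 := 536870912) (P3 := 33554432) (W3 := 16777216)
    rfl rfl rfl (fun _ => rfl) k0_pp_023

noncomputable def f_pp_033 : ℕ → ℕ → ℕ → ℕ → Bool := onCell 0 536870912 1610612736 536870912 33554432 16777216
    (rowFK 1 false true true .pnn 0 3 3 (qsf 0 536870912 1610612736 536870912 3) ndF2q0 ndF2q3 pcF3 Cut.none Ext.none)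

def k0_pp_033 : ∃ t, chk3 f_pp_033 t 1 1 1 = true :=
  ⟨(a (b (b (a (l 19534848) (l 18957592)) (a (l 19450240) (l 18760576))) (b (b (l 18638392) (l 18434416)) (a (l 4) (a (b (l 4) (l 2)) (l 2))))) (b (b (l 18365080) (a (l 4) (a (b (l 4) (l 2)) (l 2)))) (a (b (a (b (l 4) (l 2)) (l 2)) (l 2)) (l 2)))), by decide +kernel⟩

theorem c_pp_033 : CertF 0 536870912 1610612736 536870912 33554432 16777216 false true true .pnn 0 3 3
    ndF2q0 ndF2q3 pcF3 Cut.none Ext.none :=
  certFK1 (fam := false) (s1 := true) (s2 := true) (a := 0) (b := 3) (c := 3) (cn := .pnn) (n1 := ndF2q0) (n2 := ndF2q3) (pc := pcF3) (cut := Cut.none) (xt := Ext.none) (P1 := 0) (W1 := 536870912) (P2 := 1610612736) (W2 := 536870912) (P3 := 33554432) (W3 := 16777216)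
    rfl rfl rfl (fun _ => rfl) k0_pp_033

noncomputable def f_pp_101 : ℕ → ℕ → ℕ → ℕ → Bool := onCell 536870912 536870912 536870912 536870912 33554432 16777216
    (rowFK 0 false true true .npn 1 0 1 (qsf 536870912 536870912 536870912 536870912 0) ndF2q1 ndF2q1 pcF0 Cut.none Ext.none)

def k0_pp_101 : ∃ t, chk3 f_pp_101 t 1 1 1 = true :=
  ⟨(l 3), by decide +kernel⟩

theorem c_pp_101 : CertF 536870912 536870912 536870912 536870912 33554432 16777216 false true true .npn 1 0 1
    ndF2q1 ndF2q1 pcF0 Cut.none Ext.none :=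
  certFK0 (fam := false) (s1 := true) (s2 := true) (a := 1) (b := 0) (c := 1) (cn := .npn) (n1 := ndF2q1) (n2 := ndF2q1) (pc := pcF0) (cut := Cut.none) (xt := Ext.none) (P1 := 536870912) (W1 := 536870912) (P2 := 536870912) (W2 := 536870912) (P3 := 33554432) (W3 := 16777216)
    rfl rfl rfl k0_pp_101

noncomputable def cut_pp_102_a : Cut := Cut.of [[⟨0, 1, 0, 33554432⟩, ⟨1, 0, 0, 33554432⟩, ⟨2, 1, 0, 33554432⟩], [⟨0, 1, 2, 25165824⟩, ⟨1, 0, 1, 25165824⟩, ⟨2, 1, 0, 16777216⟩, ⟨0, 0, 0, 1056964608⟩, ⟨0, 1, 0, 67108864⟩, ⟨1, 0, 0, 67108864⟩, ⟨1, 1, 0, 1056964608⟩]]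

noncomputable def f_pp_102_a : ℕ → ℕ → ℕ → ℕ → Bool := onCell 536870912 536870912 0 536870912 33554432 16777216
    (rowFK 0 false true true .npp 1 0 2 (qsf 536870912 536870912 0 536870912 0) ndF2q1 ndF2q2a pcF0 cut_pp_102_a Ext.none)

def k0_pp_102_a : ∃ t, chk3 f_pp_102_a t 2 1 1 = true :=
  ⟨(b (a (l 18891096) (l 19152208)) (a (b (l 18847512) (b (l 18869528) (b (l 18829440) (b (l 18809928) (l 18779584))))) (b (l 19086360) (b (l 18996352) (b (l 18945856) (b (l 18886240) (l 18830672))))))), by decide +kernel⟩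

def k1_pp_102_a : ∃ t, chk3 f_pp_102_a t 3 2 1 = true :=
  ⟨(a (l 19500848) (a (l 19891248) (a (l 20244408) (a (l 20501392) (a (l 20640320) (l 20734000)))))), by decide +kernel⟩

def k2_pp_102_a : ∃ t, chk3 f_pp_102_a t 6 3 1 = true :=
  ⟨(b (a (l 19274832) (l 19391408)) (b (a (l 19058864) (l 19057728)) (b (a (l 18853776) (l 18756072)) (b (a (l 18706528) (l 18539160)) (a (l 18585512) (l 18366256)))))), by decide +kernel⟩

def k3_pp_102_a : ∃ t, chk3 f_pp_102_a t 7 6 1 = true :=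
  ⟨(a (l 19598288) (a (l 19864216) (a (l 20038936) (a (l 20115872) (l 20148968))))), by decide +kernel⟩

def k4_pp_102_a : ∃ t, chk3 f_pp_102_a t 14 7 1 = true :=
  ⟨(b (a (l 19096648) (l 19136664)) (b (a (l 18690424) (b (l 18725112) (l 18501288))) (b (a (l 18398504) (a (l 18287112) (l 18168808))) (a (l 18159240) (a (l 17911008) (b (l 17917904) (a (l 17786944) (l 17488848)))))))), by decide +kernel⟩

def k5_pp_102_a : ∃ t, chk3 f_pp_102_a t 15 14 1 = true :=
  ⟨(a (b (l 19340576) (a (l 18978120) (l 18924472))) (a (b (l 19329336) (a (l 18581136) (b (l 18863488) (a (l 18511056) (l 18184736))))) (a (b (l 19233952) (b (c (l 19016040) (l 18285144)) (c (b (l 18668744) (l 18343656)) (b (a (l 18035552) (l 17822432)) (a (l 17726784) (l 17247288)))))) (a (b (l 19137816) (b (c (l 18857616) (l 17927040)) (c (b (l 18421816) (l 17845816)) (b (l 17336208) (l 16872688))))) (b (c (l 19403072) (l 18495992)) (b (c (l 18702432) (b (l 17999704) (a (l 17707952) (l 17545576))))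 (c (b (l 17992672) (c (l 17797056) (a (l 17557760) (l 17242160)))) (a (l 16803512) (l 16711312))))))))), by decide +kernel⟩

def k6_pp_102_a : ∃ t, chk3 f_pp_102_a t 30 15 1 = true :=
  ⟨(b (a (b (l 18627256) (l 18330424)) (b (a (l 18523024) (l 18404320)) (a (b (l 18257376) (l 18056000)) (c (l 18110888) (b (l 17846672) (a (l 17670272) (l 17495544))))))) (b (b (a (l 17985912) (a (c (l 18044240) (l 17435696)) (c (a (l 17895104) (l 17763752)) (a (l 17221912) (b (l 17300992) (l 17064984)))))) (a (a (l 17941112) (l 17609176)) (a (c (l 17760728) (l 14)) (l 14)))) (b (a (a (l 17639192) (a (l 17413264) (c (l 17703016) (l 14)))) (a (c (b (l 17545248) (l 14)) (l 14)) (l 14))) (a (a (c (l 17655304) (b (l 17447360) (a (l 17391672) (l 14)))) (c (b (l 17568600) (a (l 17494912) (l 14))) (l 14))) (l 14))))), by decide +kernel⟩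

def k7_pp_102_a : ∃ t, chk3 f_pp_102_a t 31 30 1 = true :=
  ⟨(a (b (a (c (l 18495336) (b (l 18063864) (l 17729616))) (c (b (l 18401944) (a (l 18193104) (l 18019696))) (b (a (l 17833768) (l 17628288)) (a (l 17464832) (l 17039384))))) (a (c (b (l 18122328) (a (l 17908432) (l 17549432))) (b (a (l 17623096) (l 17279296)) (a (b (l 17402816) (l 17245144)) (b (l 17151432) (l 16968536))))) (b (c (a (l 17858736) (a (l 17673720) (l 17375120))) (a (b (l 17268552) (l 17079496)) (l 16745816))) (a (c (b (l 17570160) (l 17185272)) (l 16708912)) (b (l 16806840) (l 16711336)))))) (a (b (b (c (a (l 18157264) (c (l 18150312) (l 17635424))) (a (l 17154712) (l 16831624))) (a (c (b (l 17888032) (l 17582184)) (l 16788432)) (a (b (c (l 17679712) (l 16749888)) (l 16918376)) (l 16808256)))) (a (b (b (l 16824408) (l 16751208)) (b (l 16714232) (l 16722624))) (b (a (l 16714320) (l 16717352)) (a (l 16725680) (l 16728848))))) (b (a (a (b (c (l 17465600) (l 16708824)) (l 16714384))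 (l 16718976)) (b (l 16714112) (a (l 16718480) (l 16720568)))) (b (a (a (l 16720088) (l 16722248)) (a (l 16724432) (b (l 16725072) (l 6)))) (a (a (b (l 16724808) (l 6)) (l 6)) (l 6)))))), by decide +kernel⟩

def k8_pp_102_a : ∃ t, chk3 f_pp_102_a t 31 31 1 = true :=
  ⟨(b (a (b (b (a (c (a (l 17678288) (l 17327336)) (a (l 17016064) (l 16795600))) (a (l 16773624) (a (l 16713056) (l 16716040)))) (a (a (c (l 17450232) (l 16862768)) (l 16769464)) (a (a (l 16710248) (l 16713352)) (a (l 16716432) (l 16719480))))) (a (a (l 14) (b (l 16747512) (b (l 16735296) (b (l 16739520) (l 16742352))))) (b (a (a (l 16735032) (l 16738200)) (a (l 16741344) (l 16744456))) (a (b (l 16739720) (a (l 16742016) (b (l 16742912) (l 16744160)))) (b (l 16729048) (l 6)))))) (a (b (a (b (a (l 16719112) (l 16722288)) (a (l 16722616) (l 16725864))) (b (a (l 16725512) (l 6)) (l 6))) (l 6)) (l 6))) (a (a (a (l 14) (a (l 14) (b (c (l 14) (b (l 16749744) (l 16745696))) (l 6)))) (b (b (a (b (l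 16730304) (l 16735272)) (l 6)) (l 6)) (l 6))) (l 6))), by decide +kernel⟩

theorem s9_pp_102_a : ∃ t, chk3 f_pp_102_a t 31 15 1 = true := ex3_b k7_pp_102_a k8_pp_102_a

theorem s10_pp_102_a : ∃ t, chk3 f_pp_102_a t 15 15 1 = true := ex3_a k6_pp_102_a s9_pp_102_a

theorem s11_pp_102_a : ∃ t, chk3 f_pp_102_a t 15 7 1 = true := ex3_b k5_pp_102_a s10_pp_102_a

theorem s12_pp_102_a : ∃ t, chk3 f_pp_102_a t 7 7 1 = true := ex3_a k4_pp_102_a s11_pp_102_a

theorem s13_pp_102_a : ∃ t, chk3 f_pp_102_a t 7 3 1 = true := ex3_b k3_pp_102_a s12_pp_102_a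

theorem s14_pp_102_a : ∃ t, chk3 f_pp_102_a t 3 3 1 = true := ex3_a k2_pp_102_a s13_pp_102_a

theorem s15_pp_102_a : ∃ t, chk3 f_pp_102_a t 3 1 1 = true := ex3_b k1_pp_102_a s14_pp_102_a

theorem s16_pp_102_a : ∃ t, chk3 f_pp_102_a t 1 1 1 = true := ex3_a k0_pp_102_a s15_pp_102_a

theorem c_pp_102_a : CertF 536870912 536870912 0 536870912 33554432 16777216 false true true .npp 1 0 2
    ndF2q1 ndF2q2a pcF0 cut_pp_102_a Ext.none :=
  certFK0 (fam := false) (s1 := true) (s2 := true) (a := 1) (b := 0) (c := 2) (cn := .npp) (n1 := ndF2q1) (n2 := ndF2q2a) (pc := pcF0) (cut := cut_pp_102_a) (xt := Ext.none) (P1 := 536870912) (W1 := 536870912) (P2 := 0) (W2 := 536870912) (P3 := 33554432) (W3 := 16777216)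
    rfl rfl rfl s16_pp_102_a

noncomputable def cut_pp_102_b : Cut := Cut.of [[⟨0, 1, 0, 33554432⟩, ⟨1, 0, 0, 33554432⟩, ⟨2, 1, 0, 33554432⟩], [⟨0, 1, 2, 25165824⟩, ⟨1, 0, 1, 25165824⟩, ⟨2, 1, 0, 16777216⟩, ⟨0, 0, 0, 1056964608⟩, ⟨0, 1, 0, 67108864⟩, ⟨1, 0, 0, 67108864⟩, ⟨1, 1, 0, 1056964608⟩]]

noncomputable def f_pp_102_b : ℕ → ℕ → ℕ → ℕ → Bool := onCell 536870912 536870912 1239849684 370763052 33554432 16777216
    (rowFK 0 false true true .npp 1 0 2 (qsf 536870912 536870912 1239849684 370763052 0) ndF2q1 ndF2q2b pcF0 cut_pp_102_b Ext.none)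

def k0_pp_102_b : ∃ t, chk3 f_pp_102_b t 1 1 1 = true :=
  ⟨(a (b (a (l 2) (b (l 19220264) (l 19205976))) (l 2)) (b (a (b (l 19756960) (l 19674384)) (a (b (l 20057816) (l 20156568)) (a (b (l 20430064) (l 20482536)) (a (b (l 20698720) (l 20717048)) (a (l 20879176) (l 20993088)))))) (a (b (l 19681056) (l 2)) (a (b (l 20178288) (l 20149184)) (a (l 20494792) (a (l 20704432) (a (l 20813240) (l 20896448)))))))), by decide +kernel⟩

theorem c_pp_102_b : CertF 536870912 536870912 1239849684 370763052 33554432 16777216 false true true .npp 1 0 2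
    ndF2q1 ndF2q2b pcF0 cut_pp_102_b Ext.none :=
  certFK0 (fam := false) (s1 := true) (s2 := true) (a := 1) (b := 0) (c := 2) (cn := .npp) (n1 := ndF2q1) (n2 := ndF2q2b) (pc := pcF0) (cut := cut_pp_102_b) (xt := Ext.none) (P1 := 536870912) (W1 := 536870912) (P2 := 1239849684) (W2 := 370763052) (P3 := 33554432) (W3 := 16777216)
    rfl rfl rfl k0_pp_102_b

noncomputable def f_pp_112_a : ℕ → ℕ → ℕ → ℕ → Bool := onCell 536870912 536870912 0 536870912 33554432 16777216
    (rowFK 0 false true true .dn 1 1 2 (qsf 536870912 536870912 0 536870912 1) ndF2q1 ndF2q2a pcF1 Cut.none Ext.none)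

def k0_pp_112_a : ∃ t, chk3 f_pp_112_a t 1 1 1 = true :=
  ⟨(a (a (b (l 19125072) (b (l 19041032) (b (l 18998896) (b (l 18903544) (b (l 18848544) (l 18793576)))))) (b (l 19316528) (b (l 1) (l 1)))) (l 1)), by decide +kernel⟩

theorem c_pp_112_a : CertF 536870912 536870912 0 536870912 33554432 16777216 false true true .dn 1 1 2
    ndF2q1 ndF2q2a pcF1 Cut.none Ext.none :=
  certFK0 (fam := false) (s1 := true) (s2 := true) (a := 1) (b := 1) (c := 2) (cn := .dn) (n1 := ndF2q1) (n2 := ndF2q2a) (pc := pcF1) (cut := Cut.none) (xt := Ext.none) (P1 := 536870912) (W1 := 536870912) (P2 := 0) (W2 := 536870912) (P3 := 33554432) (W3 := 16777216)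
    rfl rfl rfl k0_pp_112_a

noncomputable def f_pp_112_b : ℕ → ℕ → ℕ → ℕ → Bool := onCell 536870912 536870912 1239849684 370763052 33554432 16777216
    (rowFK 2 false true true .dn 1 1 2 (qsf 536870912 536870912 1239849684 370763052 1) ndF2q1 ndF2q2b pcF1 Cut.none Ext.none)

def k0_pp_112_b : ∃ t, chk3 f_pp_112_b t 1 1 1 = true :=
  ⟨(a (a (b (l 19295696) (b (l 19351496) (a (b (l 19385776) (a (b (l 19404912) (a (b (l 19442152) (a (b (l 19458920) (l 19456888)) (l 19423640))) (l 19370256))) (l 19289720))) (l 19227896)))) (l 19256616)) (a (l 477852949671) (a (l 18744432) (a (l 18679664) (a (l 18643656) (a (l 18625040) (l 18610528))))))), by decide +kernel⟩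

theorem c_pp_112_b : CertF 536870912 536870912 1239849684 370763052 33554432 16777216 false true true .dn 1 1 2
    ndF2q1 ndF2q2b pcF1 Cut.none Ext.none :=
  certFK2 (fam := false) (s1 := true) (s2 := true) (a := 1) (b := 1) (c := 2) (cn := .dn) (n1 := ndF2q1) (n2 := ndF2q2b) (pc := pcF1) (cut := Cut.none) (xt := Ext.none) (P1 := 536870912) (W1 := 536870912) (P2 := 1239849684) (W2 := 370763052) (P3 := 33554432) (W3 := 16777216)
    rfl rfl rfl (fun _ => rfl) k0_pp_112_b

noncomputable def f_pp_113 : ℕ → ℕ → ℕ → ℕ → Bool := onCell 536870912 536870912 536870912 536870912 33554432 16777216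
    (rowFK 1 false true true .nn 1 1 3 (qsf 536870912 536870912 1610612736 536870912 1) ndF2q1 ndF2q3 pcF1 Cut.none Ext.none)

def k0_pp_113 : ∃ t, chk3 f_pp_113 t 1 1 1 = true :=
  ⟨(a (b (b (l 1) (l 451546939207)) (b (l 18991896) (b (l 18905384) (b (l 18836104) (b (l 18791736) (b (l 18766608) (l 18747040))))))) (b (a (b (l 19381592) (l 19241120)) (b (a (l 19475464) (a (l 19497608) (a (l 19533688) (a (l 19540016) (l 19542096))))) (a (l 19198616) (a (l 19159496) (a (l 19156248) (a (l 19143840) (l 19136648))))))) (a (b (l 18988656) (b (l 18678552) (b (l 18465904) (b (l 18339000) (b (l 18269456) (l 18220776)))))) (b (a (l 18777264) (a (l 18640080) (a (l 18586784) (a (l 18553720) (l 18527040))))) (a (b (l 18319336) (b (l 18002280) (b (l 17812880) (b (l 17709136) (l 17637392))))) (b (a (l 18086328) (a (l 17978824) (a (l 17916784) (l 17870184)))) (a (b (l 17701936) (b (l 17471144) (b (l 17344408) (l 17257152)))) (b (a (l 17555216) (a (l 17471832) (l 17410512)))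 (a (b (l 17299832) (b (l 17159272) (l 17062664))) (b (a (l 17202896) (l 17132208)) (a (b (l 17054648) (l 16952824)) (b (l 16978624) (l 16872304))))))))))))), by decide +kernel⟩

theorem c_pp_113 : CertF 536870912 536870912 1610612736 536870912 33554432 16777216 false true true .nn 1 1 3
    ndF2q1 ndF2q3 pcF1 Cut.none Ext.none :=
  certFK1 (fam := false) (s1 := true) (s2 := true) (a := 1) (b := 1) (c := 3) (cn := .nn) (n1 := ndF2q1) (n2 := ndF2q3) (pc := pcF1) (cut := Cut.none) (xt := Ext.none) (P1 := 536870912) (W1 := 536870912) (P2 := 1610612736) (W2 := 536870912) (P3 := 33554432) (W3 := 16777216)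
    rfl rfl rfl (fun _ => rfl) k0_pp_113

noncomputable def f_pp_123 : ℕ → ℕ → ℕ → ℕ → Bool := onCell 1073741824 536870912 1610612736 536870912 33554432 16777216
    (rowFK 2 false true true .npn 1 2 3 (qsf 536870912 536870912 1610612736 536870912 2) ndF2q1 ndF2q3 pcF2 Cut.none Ext.none)

def k0_pp_123 : ∃ t, chk3 f_pp_123 t 1 1 1 = true :=
  ⟨(a (b (a (a (a (a (a (l 18690912) (l 18683568)) (l 18672448)) (l 18649856)) (l 18602688)) (l 18498920)) (b (l 18088352) (a (b (l 17597560) (a (b (l 17167456) (a (b (l 16966736) (a (b (l 16879384) (a (b (l 16830496) (l 16793736)) (l 16803384))) (l 16824936))) (l 16881744))) (l 17079728))) (l 17415480)))) (a (b (l 18337584) (l 17916408)) (b (l 1) (l 17876696)))), by decide +kernel⟩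

theorem c_pp_123 : CertF 536870912 536870912 1610612736 536870912 33554432 16777216 false true true .npn 1 2 3
    ndF2q1 ndF2q3 pcF2 Cut.none Ext.none :=
  certFK2 (fam := false) (s1 := true) (s2 := true) (a := 1) (b := 2) (c := 3) (cn := .npn) (n1 := ndF2q1) (n2 := ndF2q3) (pc := pcF2) (cut := Cut.none) (xt := Ext.none) (P1 := 536870912) (W1 := 536870912) (P2 := 1610612736) (W2 := 536870912) (P3 := 33554432) (W3 := 16777216)
    rfl rfl rfl (fun _ => rfl) k0_pp_123

noncomputable def f_pp_133 : ℕ → ℕ → ℕ → ℕ → Bool := onCell 1610612736 536870912 1610612736 536870912 33554432 16777216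
    (rowFK 2 false true true .dn 1 3 3 (qsf 536870912 536870912 1610612736 536870912 3) ndF2q1 ndF2q3 pcF3 Cut.none Ext.none)

def k0_pp_133 : ∃ t, chk3 f_pp_133 t 1 1 1 = true :=
  ⟨(a (b (l 1) (a (l 703875023943) (l 1))) (l 1)), by decide +kernel⟩

theorem c_pp_133 : CertF 536870912 536870912 1610612736 536870912 33554432 16777216 false true true .dn 1 3 3
    ndF2q1 ndF2q3 pcF3 Cut.none Ext.none :=
  certFK2 (fam := false) (s1 := true) (s2 := true) (a := 1) (b := 3) (c := 3) (cn := .dn) (n1 := ndF2q1) (n2 := ndF2q3) (pc := pcF3) (cut := Cut.none) (xt := Ext.none) (P1 := 536870912) (W1 := 536870912) (P2 := 1610612736) (W2 := 536870912) (P3 := 33554432) (W3 := 16777216)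
    rfl rfl rfl (fun _ => rfl) k0_pp_133

noncomputable def f_pp_202_aa : ℕ → ℕ → ℕ → ℕ → Bool := onCell 0 536870912 0 536870912 33554432 16777216
    (rowFK 0 false true true .pp 2 0 2 (qsf 0 536870912 0 536870912 0) ndF2q2a ndF2q2a pcF0 Cut.none Ext.none)

def k0_pp_202_aa : ∃ t, chk3 f_pp_202_aa t 1 1 1 = true :=
  ⟨(l 3), by decide +kernel⟩

theorem c_pp_202_aa : CertF 0 536870912 0 536870912 33554432 16777216 false true true .pp 2 0 2
    ndF2q2a ndF2q2a pcF0 Cut.none Ext.none :=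
  certFK0 (fam := false) (s1 := true) (s2 := true) (a := 2) (b := 0) (c := 2) (cn := .pp) (n1 := ndF2q2a) (n2 := ndF2q2a) (pc := pcF0) (cut := Cut.none) (xt := Ext.none) (P1 := 0) (W1 := 536870912) (P2 := 0) (W2 := 536870912) (P3 := 33554432) (W3 := 16777216)
    rfl rfl rfl k0_pp_202_aa

noncomputable def f_pp_202_ab : ℕ → ℕ → ℕ → ℕ → Bool := onCell 0 536870912 1239849684 370763052 33554432 16777216
    (rowFK 0 false true true .pp 2 0 2 (qsf 0 536870912 1239849684 370763052 0) ndF2q2a ndF2q2b pcF0 Cut.none Ext.none)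

def k0_pp_202_ab : ∃ t, chk3 f_pp_202_ab t 1 1 1 = true :=
  ⟨(l 3), by decide +kernel⟩

theorem c_pp_202_ab : CertF 0 536870912 1239849684 370763052 33554432 16777216 false true true .pp 2 0 2
    ndF2q2a ndF2q2b pcF0 Cut.none Ext.none :=
  certFK0 (fam := false) (s1 := true) (s2 := true) (a := 2) (b := 0) (c := 2) (cn := .pp) (n1 := ndF2q2a) (n2 := ndF2q2b) (pc := pcF0) (cut := Cut.none) (xt := Ext.none) (P1 := 0) (W1 := 536870912) (P2 := 1239849684) (W2 := 370763052) (P3 := 33554432) (W3 := 16777216)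
    rfl rfl rfl k0_pp_202_ab

noncomputable def f_pp_202_ba : ℕ → ℕ → ℕ → ℕ → Bool := onCell 1239849684 370763052 0 536870912 33554432 16777216
    (rowFK 0 false true true .pp 2 0 2 (qsf 1239849684 370763052 0 536870912 0) ndF2q2b ndF2q2a pcF0 Cut.none Ext.none)

def k0_pp_202_ba : ∃ t, chk3 f_pp_202_ba t 1 1 1 = true :=
  ⟨(l 3), by decide +kernel⟩

theorem c_pp_202_ba : CertF 1239849684 370763052 0 536870912 33554432 16777216 false true true .pp 2 0 2
    ndF2q2b ndF2q2a pcF0 Cut.none Ext.none :=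
  certFK0 (fam := false) (s1 := true) (s2 := true) (a := 2) (b := 0) (c := 2) (cn := .pp) (n1 := ndF2q2b) (n2 := ndF2q2a) (pc := pcF0) (cut := Cut.none) (xt := Ext.none) (P1 := 1239849684) (W1 := 370763052) (P2 := 0) (W2 := 536870912) (P3 := 33554432) (W3 := 16777216)
    rfl rfl rfl k0_pp_202_ba

noncomputable def f_pp_202_bb : ℕ → ℕ → ℕ → ℕ → Bool := onCell 1239849684 370763052 1239849684 370763052 33554432 16777216
    (rowFK 0 false true true .pp 2 0 2 (qsf 1239849684 370763052 1239849684 370763052 0) ndF2q2b ndF2q2b pcF0 Cut.none Ext.none)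

def k0_pp_202_bb : ∃ t, chk3 f_pp_202_bb t 1 1 1 = true :=
  ⟨(l 3), by decide +kernel⟩

theorem c_pp_202_bb : CertF 1239849684 370763052 1239849684 370763052 33554432 16777216 false true true .pp 2 0 2
    ndF2q2b ndF2q2b pcF0 Cut.none Ext.none :=
  certFK0 (fam := false) (s1 := true) (s2 := true) (a := 2) (b := 0) (c := 2) (cn := .pp) (n1 := ndF2q2b) (n2 := ndF2q2b) (pc := pcF0) (cut := Cut.none) (xt := Ext.none) (P1 := 1239849684) (W1 := 370763052) (P2 := 1239849684) (W2 := 370763052) (P3 := 33554432) (W3 := 16777216)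
    rfl rfl rfl k0_pp_202_bb

noncomputable def f_pp_203_a : ℕ → ℕ → ℕ → ℕ → Bool := onCell 0 536870912 0 536870912 33554432 16777216
    (rowFK 1 false true true .up 2 0 3 (qsf 0 536870912 1610612736 536870912 0) ndF2q2a ndF2q3 pcF0 Cut.none Ext.none)

def k0_pp_203_a : ∃ t, chk3 f_pp_203_a t 1 1 1 = true :=
  ⟨(l 3), by decide +kernel⟩

theorem c_pp_203_a : CertF 0 536870912 1610612736 536870912 33554432 16777216 false true true .up 2 0 3
    ndF2q2a ndF2q3 pcF0 Cut.none Ext.none :=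
  certFK1 (fam := false) (s1 := true) (s2 := true) (a := 2) (b := 0) (c := 3) (cn := .up) (n1 := ndF2q2a) (n2 := ndF2q3) (pc := pcF0) (cut := Cut.none) (xt := Ext.none) (P1 := 0) (W1 := 536870912) (P2 := 1610612736) (W2 := 536870912) (P3 := 33554432) (W3 := 16777216)
    rfl rfl rfl (fun _ => rfl) k0_pp_203_a

noncomputable def f_pp_203_b : ℕ → ℕ → ℕ → ℕ → Bool := onCell 1239849684 370763052 1610612736 536870912 33554432 16777216
    (rowFK 0 false true true .up 2 0 3 (qsf 1239849684 370763052 1610612736 536870912 0) ndF2q2b ndF2q3 pcF0 Cut.none Ext.none)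

def k0_pp_203_b : ∃ t, chk3 f_pp_203_b t 1 1 1 = true :=
  ⟨(l 3), by decide +kernel⟩

theorem c_pp_203_b : CertF 1239849684 370763052 1610612736 536870912 33554432 16777216 false true true .up 2 0 3
    ndF2q2b ndF2q3 pcF0 Cut.none Ext.none :=
  certFK0 (fam := false) (s1 := true) (s2 := true) (a := 2) (b := 0) (c := 3) (cn := .up) (n1 := ndF2q2b) (n2 := ndF2q3) (pc := pcF0) (cut := Cut.none) (xt := Ext.none) (P1 := 1239849684) (W1 := 370763052) (P2 := 1610612736) (W2 := 536870912) (P3 := 33554432) (W3 := 16777216)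
    rfl rfl rfl k0_pp_203_b

noncomputable def cut_pp_213_a : Cut := Cut.of [[⟨0, 1, 0, 7061502⟩, ⟨1, 1, 0, 7061502⟩, ⟨2, 2, 0, 184626⟩]]

noncomputable def f_pp_213_a : ℕ → ℕ → ℕ → ℕ → Bool := onCell 0 536870912 1610612736 536870912 33554432 16777216
    (rowFK 0 false true true .pnn 2 1 3 (qsf 0 536870912 1610612736 536870912 1) ndF2q2a ndF2q3 pcF1 cut_pp_213_a Ext.none)

def k0_pp_213_a : ∃ t, chk3 f_pp_213_a t 1 1 1 = true :=
  ⟨(a (l 3) (b (l 3) (a (l 3) (b (l 3) (a (l 3) (a (l 3) (a (l 3) (b (l 3) (b (l 3) (b (l 3) (b (l 3) (b (l 3) (b (l 3) (b (l 3) (b (l 3) (b (l 3) (b (l 3) (a (l 3) (l 6))))))))))))))))))), by decide +kernel⟩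

theorem c_pp_213_a : CertF 0 536870912 1610612736 536870912 33554432 16777216 false true true .pnn 2 1 3
    ndF2q2a ndF2q3 pcF1 cut_pp_213_a Ext.none :=
  certFK0 (fam := false) (s1 := true) (s2 := true) (a := 2) (b := 1) (c := 3) (cn := .pnn) (n1 := ndF2q2a) (n2 := ndF2q3) (pc := pcF1) (cut := cut_pp_213_a) (xt := Ext.none) (P1 := 0) (W1 := 536870912) (P2 := 1610612736) (W2 := 536870912) (P3 := 33554432) (W3 := 16777216)
    rfl rfl rfl k0_pp_213_a

noncomputable def cut_pp_213_b : Cut := Cut.of [[⟨0, 1, 0, 7061502⟩, ⟨1, 1, 0, 7061502⟩, ⟨2, 2, 0, 184626⟩]]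

noncomputable def f_pp_213_b : ℕ → ℕ → ℕ → ℕ → Bool := onCell 1239849684 370763052 1610612736 536870912 33554432 16777216
    (rowFK 0 false true true .pnn 2 1 3 (qsf 1239849684 370763052 1610612736 536870912 1) ndF2q2b ndF2q3 pcF1 cut_pp_213_b Ext.none)

def k0_pp_213_b : ∃ t, chk3 f_pp_213_b t 1 1 1 = true :=
  ⟨(l 3), by decide +kernel⟩

theorem c_pp_213_b : CertF 1239849684 370763052 1610612736 536870912 33554432 16777216 false true true .pnn 2 1 3
    ndF2q2b ndF2q3 pcF1 cut_pp_213_b Ext.none :=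
  certFK0 (fam := false) (s1 := true) (s2 := true) (a := 2) (b := 1) (c := 3) (cn := .pnn) (n1 := ndF2q2b) (n2 := ndF2q3) (pc := pcF1) (cut := cut_pp_213_b) (xt := Ext.none) (P1 := 1239849684) (W1 := 370763052) (P2 := 1610612736) (W2 := 536870912) (P3 := 33554432) (W3 := 16777216)
    rfl rfl rfl k0_pp_213_b

noncomputable def f_pp_303 : ℕ → ℕ → ℕ → ℕ → Bool := onCell 1610612736 536870912 1610612736 536870912 33554432 16777216
    (rowFK 0 false true true .npn 3 0 3 (qsf 1610612736 536870912 1610612736 536870912 0) ndF2q3 ndF2q3 pcF0 Cut.none Ext.none)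

def k0_pp_303 : ∃ t, chk3 f_pp_303 t 1 1 1 = true :=
  ⟨(l 3), by decide +kernel⟩

theorem c_pp_303 : CertF 1610612736 536870912 1610612736 536870912 33554432 16777216 false true true .npn 3 0 3
    ndF2q3 ndF2q3 pcF0 Cut.none Ext.none :=
  certFK0 (fam := false) (s1 := true) (s2 := true) (a := 3) (b := 0) (c := 3) (cn := .npn) (n1 := ndF2q3) (n2 := ndF2q3) (pc := pcF0) (cut := Cut.none) (xt := Ext.none) (P1 := 1610612736) (W1 := 536870912) (P2 := 1610612736) (W2 := 536870912) (P3 := 33554432) (W3 := 16777216)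
    rfl rfl rfl k0_pp_303

noncomputable def f_pp_313 : ℕ → ℕ → ℕ → ℕ → Bool := onCell 1610612736 536870912 1610612736 536870912 33554432 16777216
    (rowFK 0 false true true .dn 3 1 3 (qsf 1610612736 536870912 1610612736 536870912 1) ndF2q3 ndF2q3 pcF1 Cut.none Ext.none)

def k0_pp_313 : ∃ t, chk3 f_pp_313 t 1 1 1 = true :=
  ⟨(l 3), by decide +kernel⟩

theorem c_pp_313 : CertF 1610612736 536870912 1610612736 536870912 33554432 16777216 false true true .dn 3 1 3
    ndF2q3 ndF2q3 pcF1 Cut.none Ext.none :=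
  certFK0 (fam := false) (s1 := true) (s2 := true) (a := 3) (b := 1) (c := 3) (cn := .dn) (n1 := ndF2q3) (n2 := ndF2q3) (pc := pcF1) (cut := Cut.none) (xt := Ext.none) (P1 := 1610612736) (W1 := 536870912) (P2 := 1610612736) (W2 := 536870912) (P3 := 33554432) (W3 := 16777216)
    rfl rfl rfl k0_pp_313

noncomputable def f_pm_001 : ℕ → ℕ → ℕ → ℕ → Bool := onCell 0 536870912 536870912 536870912 33554432 16777216
    (rowFK 0 false true false .up 0 0 1 (qsf 0 536870912 536870912 536870912 0) ndF2q0 ndF2q1 pcF0 Cut.none Ext.none)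

def k0_pm_001 : ∃ t, chk3 f_pm_001 t 1 1 1 = true :=
  ⟨(l 4), by decide +kernel⟩

theorem c_pm_001 : CertF 0 536870912 536870912 536870912 33554432 16777216 false true false .up 0 0 1
    ndF2q0 ndF2q1 pcF0 Cut.none Ext.none :=
  certFK0 (fam := false) (s1 := true) (s2 := false) (a := 0) (b := 0) (c := 1) (cn := .up) (n1 := ndF2q0) (n2 := ndF2q1) (pc := pcF0) (cut := Cut.none) (xt := Ext.none) (P1 := 0) (W1 := 536870912) (P2 := 536870912) (W2 := 536870912) (P3 := 33554432) (W3 := 16777216)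
    rfl rfl rfl k0_pm_001

noncomputable def f_pm_011 : ℕ → ℕ → ℕ → ℕ → Bool := onCell 0 536870912 536870912 536870912 33554432 16777216
    (rowFK 0 false true false .pnn 0 1 1 (qsf 0 536870912 536870912 536870912 1) ndF2q0 ndF2q1 pcF1 Cut.none Ext.none)

def k0_pm_011 : ∃ t, chk3 f_pm_011 t 1 1 1 = true :=
  ⟨(l 4), by decide +kernel⟩

theorem c_pm_011 : CertF 0 536870912 536870912 536870912 33554432 16777216 false true false .pnn 0 1 1
    ndF2q0 ndF2q1 pcF1 Cut.none Ext.none :=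
  certFK0 (fam := false) (s1 := true) (s2 := false) (a := 0) (b := 1) (c := 1) (cn := .pnn) (n1 := ndF2q0) (n2 := ndF2q1) (pc := pcF1) (cut := Cut.none) (xt := Ext.none) (P1 := 0) (W1 := 536870912) (P2 := 536870912) (W2 := 536870912) (P3 := 33554432) (W3 := 16777216)
    rfl rfl rfl k0_pm_011

noncomputable def cut_pm_012_a : Cut := Cut.of [[⟨0, 0, 0, 33554432⟩, ⟨1, 1, 0, 33554432⟩, ⟨2, 1, 0, 33554432⟩]]

noncomputable def f_pm_012_a : ℕ → ℕ → ℕ → ℕ → Bool := onCell 0 536870912 0 536870912 33554432 16777216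
    (rowFK 0 false true false .pnp 0 1 2 (qsf 0 536870912 0 536870912 1) ndF2q0 ndF2q2a pcF1 cut_pm_012_a Ext.none)

def k0_pm_012_a : ∃ t, chk3 f_pm_012_a t 1 1 1 = true :=
  ⟨(a (b (l 4) (a (b (l 4) (a (b (l 4) (a (b (l 4) (a (l 6) (l 4))) (l 4))) (l 4))) (l 4))) (l 4)), by decide +kernel⟩

theorem c_pm_012_a : CertF 0 536870912 0 536870912 33554432 16777216 false true false .pnp 0 1 2
    ndF2q0 ndF2q2a pcF1 cut_pm_012_a Ext.none :=
  certFK0 (fam := false) (s1 := true) (s2 := false) (a := 0) (b := 1) (c := 2) (cn := .pnp) (n1 := ndF2q0) (n2 := ndF2q2a) (pc := pcF1) (cut := cut_pm_012_a) (xt := Ext.none) (P1 := 0) (W1 := 536870912) (P2 := 0) (W2 := 536870912) (P3 := 33554432) (W3 := 16777216)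
    rfl rfl rfl k0_pm_012_a

noncomputable def cut_pm_012_b : Cut := Cut.of [[⟨0, 0, 0, 33554432⟩, ⟨1, 1, 0, 33554432⟩, ⟨2, 1, 0, 33554432⟩]]

noncomputable def f_pm_012_b : ℕ → ℕ → ℕ → ℕ → Bool := onCell 0 536870912 1239849684 370763052 33554432 16777216
    (rowFK 0 false true false .pnp 0 1 2 (qsf 0 536870912 1239849684 370763052 1) ndF2q0 ndF2q2b pcF1 cut_pm_012_b Ext.none)

def k0_pm_012_b : ∃ t, chk3 f_pm_012_b t 1 1 1 = true :=
  ⟨(l 4), by decide +kernel⟩

theorem c_pm_012_b : CertF 0 536870912 1239849684 370763052 33554432 16777216 false true false .pnp 0 1 2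
    ndF2q0 ndF2q2b pcF1 cut_pm_012_b Ext.none :=
  certFK0 (fam := false) (s1 := true) (s2 := false) (a := 0) (b := 1) (c := 2) (cn := .pnp) (n1 := ndF2q0) (n2 := ndF2q2b) (pc := pcF1) (cut := cut_pm_012_b) (xt := Ext.none) (P1 := 0) (W1 := 536870912) (P2 := 1239849684) (W2 := 370763052) (P3 := 33554432) (W3 := 16777216)
    rfl rfl rfl k0_pm_012_b

noncomputable def cut_pm_022_a : Cut := Cut.of [[⟨0, 0, 0, 33554432⟩, ⟨1, 1, 0, 33554432⟩, ⟨2, 1, 0, 33554432⟩]]

noncomputable def f_pm_022_a : ℕ → ℕ → ℕ → ℕ → Bool := onCell 0 536870912 0 536870912 33554432 16777216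
    (rowFK 0 false true false .pp 0 2 2 (qsf 0 536870912 0 536870912 2) ndF2q0 ndF2q2a pcF2 cut_pm_022_a Ext.none)

def k0_pm_022_a : ∃ t, chk3 f_pm_022_a t 1 1 1 = true :=
  ⟨(a (b (l 4) (b (l 4) (a (b (l 4) (a (a (a (b (l 4) (l 6)) (l 4)) (l 4)) (l 1))) (l 1)))) (l 1)), by decide +kernel⟩

theorem c_pm_022_a : CertF 0 536870912 0 536870912 33554432 16777216 false true false .pp 0 2 2
    ndF2q0 ndF2q2a pcF2 cut_pm_022_a Ext.none :=
  certFK0 (fam := false) (s1 := true) (s2 := false) (a := 0) (b := 2) (c := 2) (cn := .pp) (n1 := ndF2q0) (n2 := ndF2q2a) (pc := pcF2) (cut := cut_pm_022_a) (xt := Ext.none) (P1 := 0) (W1 := 536870912) (P2 := 0) (W2 := 536870912) (P3 := 33554432) (W3 := 16777216)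
    rfl rfl rfl k0_pm_022_a

noncomputable def cut_pm_022_b : Cut := Cut.of [[⟨0, 0, 0, 33554432⟩, ⟨1, 1, 0, 33554432⟩, ⟨2, 1, 0, 33554432⟩]]

noncomputable def f_pm_022_b : ℕ → ℕ → ℕ → ℕ → Bool := onCell 0 536870912 1239849684 370763052 33554432 16777216
    (rowFK 0 false true false .pp 0 2 2 (qsf 0 536870912 1239849684 370763052 2) ndF2q0 ndF2q2b pcF2 cut_pm_022_b Ext.none)

def k0_pm_022_b : ∃ t, chk3 f_pm_022_b t 1 1 1 = true :=
  ⟨(l 4), by decide +kernel⟩

theorem c_pm_022_b : CertF 0 536870912 1239849684 370763052 33554432 16777216 false true false .pp 0 2 2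
    ndF2q0 ndF2q2b pcF2 cut_pm_022_b Ext.none :=
  certFK0 (fam := false) (s1 := true) (s2 := false) (a := 0) (b := 2) (c := 2) (cn := .pp) (n1 := ndF2q0) (n2 := ndF2q2b) (pc := pcF2) (cut := cut_pm_022_b) (xt := Ext.none) (P1 := 0) (W1 := 536870912) (P2 := 1239849684) (W2 := 370763052) (P3 := 33554432) (W3 := 16777216)
    rfl rfl rfl k0_pm_022_b

noncomputable def f_pm_023 : ℕ → ℕ → ℕ → ℕ → Bool := onCell 0 536870912 1610612736 536870912 33554432 16777216
    (rowFK 0 false true false .up 0 2 3 (qsf 0 536870912 1610612736 536870912 2) ndF2q0 ndF2q3 pcF2 Cut.none Ext.none)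

def k0_pm_023 : ∃ t, chk3 f_pm_023 t 1 1 1 = true :=
  ⟨(l 4), by decide +kernel⟩

theorem c_pm_023 : CertF 0 536870912 1610612736 536870912 33554432 16777216 false true false .up 0 2 3
    ndF2q0 ndF2q3 pcF2 Cut.none Ext.none :=
  certFK0 (fam := false) (s1 := true) (s2 := false) (a := 0) (b := 2) (c := 3) (cn := .up) (n1 := ndF2q0) (n2 := ndF2q3) (pc := pcF2) (cut := Cut.none) (xt := Ext.none) (P1 := 0) (W1 := 536870912) (P2 := 1610612736) (W2 := 536870912) (P3 := 33554432) (W3 := 16777216)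
    rfl rfl rfl k0_pm_023

noncomputable def f_pm_033 : ℕ → ℕ → ℕ → ℕ → Bool := onCell 0 536870912 1610612736 536870912 33554432 16777216
    (rowFK 0 false true false .pnn 0 3 3 (qsf 0 536870912 1610612736 536870912 3) ndF2q0 ndF2q3 pcF3 Cut.none Ext.none)

def k0_pm_033 : ∃ t, chk3 f_pm_033 t 1 1 1 = true :=
  ⟨(l 4), by decide +kernel⟩

theorem c_pm_033 : CertF 0 536870912 1610612736 536870912 33554432 16777216 false true false .pnn 0 3 3
    ndF2q0 ndF2q3 pcF3 Cut.none Ext.none :=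
  certFK0 (fam := false) (s1 := true) (s2 := false) (a := 0) (b := 3) (c := 3) (cn := .pnn) (n1 := ndF2q0) (n2 := ndF2q3) (pc := pcF3) (cut := Cut.none) (xt := Ext.none) (P1 := 0) (W1 := 536870912) (P2 := 1610612736) (W2 := 536870912) (P3 := 33554432) (W3 := 16777216)
    rfl rfl rfl k0_pm_033

noncomputable def f_pm_101 : ℕ → ℕ → ℕ → ℕ → Bool := onCell 536870912 536870912 536870912 536870912 33554432 16777216
    (rowFK 0 false true false .npn 1 0 1 (qsf 536870912 536870912 536870912 536870912 0) ndF2q1 ndF2q1 pcF0 Cut.none Ext.none)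

def k0_pm_101 : ∃ t, chk3 f_pm_101 t 1 1 1 = true :=
  ⟨(l 4), by decide +kernel⟩

theorem c_pm_101 : CertF 536870912 536870912 536870912 536870912 33554432 16777216 false true false .npn 1 0 1
    ndF2q1 ndF2q1 pcF0 Cut.none Ext.none :=
  certFK0 (fam := false) (s1 := true) (s2 := false) (a := 1) (b := 0) (c := 1) (cn := .npn) (n1 := ndF2q1) (n2 := ndF2q1) (pc := pcF0) (cut := Cut.none) (xt := Ext.none) (P1 := 536870912) (W1 := 536870912) (P2 := 536870912) (W2 := 536870912) (P3 := 33554432) (W3 := 16777216)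
    rfl rfl rfl k0_pm_101

noncomputable def f_pm_102_a : ℕ → ℕ → ℕ → ℕ → Bool := onCell 536870912 536870912 0 536870912 33554432 16777216
    (rowFK 0 false true false .npp 1 0 2 (qsf 536870912 536870912 0 536870912 0) ndF2q1 ndF2q2a pcF0 Cut.none Ext.none)

def k0_pm_102_a : ∃ t, chk3 f_pm_102_a t 1 1 1 = true :=
  ⟨(l 4), by decide +kernel⟩

theorem c_pm_102_a : CertF 536870912 536870912 0 536870912 33554432 16777216 false true false .npp 1 0 2
    ndF2q1 ndF2q2a pcF0 Cut.none Ext.none :=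
  certFK0 (fam := false) (s1 := true) (s2 := false) (a := 1) (b := 0) (c := 2) (cn := .npp) (n1 := ndF2q1) (n2 := ndF2q2a) (pc := pcF0) (cut := Cut.none) (xt := Ext.none) (P1 := 536870912) (W1 := 536870912) (P2 := 0) (W2 := 536870912) (P3 := 33554432) (W3 := 16777216)
    rfl rfl rfl k0_pm_102_a

noncomputable def f_pm_102_b : ℕ → ℕ → ℕ → ℕ → Bool := onCell 536870912 536870912 1239849684 370763052 33554432 16777216
    (rowFK 0 false true false .npp 1 0 2 (qsf 536870912 536870912 1239849684 370763052 0) ndF2q1 ndF2q2b pcF0 Cut.none Ext.none)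

def k0_pm_102_b : ∃ t, chk3 f_pm_102_b t 1 1 1 = true :=
  ⟨(l 4), by decide +kernel⟩

theorem c_pm_102_b : CertF 536870912 536870912 1239849684 370763052 33554432 16777216 false true false .npp 1 0 2
    ndF2q1 ndF2q2b pcF0 Cut.none Ext.none :=
  certFK0 (fam := false) (s1 := true) (s2 := false) (a := 1) (b := 0) (c := 2) (cn := .npp) (n1 := ndF2q1) (n2 := ndF2q2b) (pc := pcF0) (cut := Cut.none) (xt := Ext.none) (P1 := 536870912) (W1 := 536870912) (P2 := 1239849684) (W2 := 370763052) (P3 := 33554432) (W3 := 16777216)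
    rfl rfl rfl k0_pm_102_b

noncomputable def f_pm_112_a : ℕ → ℕ → ℕ → ℕ → Bool := onCell 536870912 536870912 0 536870912 33554432 16777216
    (rowFK 0 false true false .dn 1 1 2 (qsf 536870912 536870912 0 536870912 1) ndF2q1 ndF2q2a pcF1 Cut.none Ext.none)

def k0_pm_112_a : ∃ t, chk3 f_pm_112_a t 1 1 1 = true :=
  ⟨(l 4), by decide +kernel⟩

theorem c_pm_112_a : CertF 536870912 536870912 0 536870912 33554432 16777216 false true false .dn 1 1 2
    ndF2q1 ndF2q2a pcF1 Cut.none Ext.none :=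
  certFK0 (fam := false) (s1 := true) (s2 := false) (a := 1) (b := 1) (c := 2) (cn := .dn) (n1 := ndF2q1) (n2 := ndF2q2a) (pc := pcF1) (cut := Cut.none) (xt := Ext.none) (P1 := 536870912) (W1 := 536870912) (P2 := 0) (W2 := 536870912) (P3 := 33554432) (W3 := 16777216)
    rfl rfl rfl k0_pm_112_a

noncomputable def f_pm_112_b : ℕ → ℕ → ℕ → ℕ → Bool := onCell 536870912 536870912 1239849684 370763052 33554432 16777216
    (rowFK 0 false true false .dn 1 1 2 (qsf 536870912 536870912 1239849684 370763052 1) ndF2q1 ndF2q2b pcF1 Cut.none Ext.none)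

def k0_pm_112_b : ∃ t, chk3 f_pm_112_b t 1 1 1 = true :=
  ⟨(l 4), by decide +kernel⟩

theorem c_pm_112_b : CertF 536870912 536870912 1239849684 370763052 33554432 16777216 false true false .dn 1 1 2
    ndF2q1 ndF2q2b pcF1 Cut.none Ext.none :=
  certFK0 (fam := false) (s1 := true) (s2 := false) (a := 1) (b := 1) (c := 2) (cn := .dn) (n1 := ndF2q1) (n2 := ndF2q2b) (pc := pcF1) (cut := Cut.none) (xt := Ext.none) (P1 := 536870912) (W1 := 536870912) (P2 := 1239849684) (W2 := 370763052) (P3 := 33554432) (W3 := 16777216)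
    rfl rfl rfl k0_pm_112_b

noncomputable def f_pm_113 : ℕ → ℕ → ℕ → ℕ → Bool := onCell 536870912 536870912 1610612736 536870912 33554432 16777216
    (rowFK 0 false true false .nn 1 1 3 (qsf 536870912 536870912 1610612736 536870912 1) ndF2q1 ndF2q3 pcF1 Cut.none Ext.none)

def k0_pm_113 : ∃ t, chk3 f_pm_113 t 1 1 1 = true :=
  ⟨(a (l 4) (b (l 4) (a (l 4) (b (l 4) (a (l 4) (b (l 4) (a (l 4) (b (l 4) (a (l 4) (b (l 4) (a (l 4) (b (l 4) (l 16816736))))))))))))), by decide +kernel⟩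

theorem c_pm_113 : CertF 536870912 536870912 1610612736 536870912 33554432 16777216 false true false .nn 1 1 3
    ndF2q1 ndF2q3 pcF1 Cut.none Ext.none :=
  certFK0 (fam := false) (s1 := true) (s2 := false) (a := 1) (b := 1) (c := 3) (cn := .nn) (n1 := ndF2q1) (n2 := ndF2q3) (pc := pcF1) (cut := Cut.none) (xt := Ext.none) (P1 := 536870912) (W1 := 536870912) (P2 := 1610612736) (W2 := 536870912) (P3 := 33554432) (W3 := 16777216)
    rfl rfl rfl k0_pm_113

noncomputable def f_pm_123 : ℕ → ℕ → ℕ → ℕ → Bool := onCell 536870912 536870912 1610612736 536870912 33554432 16777216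
    (rowFK 0 false true false .npn 1 2 3 (qsf 536870912 536870912 1610612736 536870912 2) ndF2q1 ndF2q3 pcF2 Cut.none Ext.none)

def k0_pm_123 : ∃ t, chk3 f_pm_123 t 1 1 1 = true :=
  ⟨(a (l 4) (b (l 4) (a (l 4) (a (l 4) (b (l 1) (a (l 4) (a (l 4) (a (l 17317408) (l 17311184))))))))), by decide +kernel⟩

theorem c_pm_123 : CertF 536870912 536870912 1610612736 536870912 33554432 16777216 false true false .npn 1 2 3
    ndF2q1 ndF2q3 pcF2 Cut.none Ext.none :=
  certFK0 (fam := false) (s1 := true) (s2 := false) (a := 1) (b := 2) (c := 3) (cn := .npn) (n1 := ndF2q1) (n2 := ndF2q3) (pc := pcF2) (cut := Cut.none) (xt := Ext.none) (P1 := 536870912) (W1 := 536870912) (P2 := 1610612736) (W2 := 536870912) (P3 := 33554432) (W3 := 16777216)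
    rfl rfl rfl k0_pm_123

noncomputable def f_pm_133 : ℕ → ℕ → ℕ → ℕ → Bool := onCell 536870912 536870912 1610612736 536870912 33554432 16777216
    (rowFK 0 false true false .dn 1 3 3 (qsf 536870912 536870912 1610612736 536870912 3) ndF2q1 ndF2q3 pcF3 Cut.none Ext.none)

def k0_pm_133 : ∃ t, chk3 f_pm_133 t 1 1 1 = true :=
  ⟨(a (l 4) (l 1)), by decide +kernel⟩

theorem c_pm_133 : CertF 536870912 536870912 1610612736 536870912 33554432 16777216 false true false .dn 1 3 3
    ndF2q1 ndF2q3 pcF3 Cut.none Ext.none :=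
  certFK0 (fam := false) (s1 := true) (s2 := false) (a := 1) (b := 3) (c := 3) (cn := .dn) (n1 := ndF2q1) (n2 := ndF2q3) (pc := pcF3) (cut := Cut.none) (xt := Ext.none) (P1 := 536870912) (W1 := 536870912) (P2 := 1610612736) (W2 := 536870912) (P3 := 33554432) (W3 := 16777216)
    rfl rfl rfl k0_pm_133

noncomputable def cut_pm_202_aa : Cut := Cut.of [[⟨0, 1, 0, 33554432⟩, ⟨1, 0, 0, 33554432⟩, ⟨2, 1, 0, 33554432⟩], [⟨0, 1, 0, 16777216⟩, ⟨1, 0, 1, 25165824⟩, ⟨2, 1, 1, 25165824⟩, ⟨1, 0, 0, 67108864⟩, ⟨1, 1, 0, 1056964608⟩, ⟨2, 1, 0, 67108864⟩, ⟨2, 2, 0, 1056964608⟩]]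

noncomputable def f_pm_202_aa : ℕ → ℕ → ℕ → ℕ → Bool := onCell 0 536870912 0 536870912 33554432 16777216
    (rowFK 0 false true false .pp 2 0 2 (qsf 0 536870912 0 536870912 0) ndF2q2a ndF2q2a pcF0 cut_pm_202_aa Ext.none)

def k0_pm_202_aa : ∃ t, chk3 f_pm_202_aa t 1 1 1 = true :=
  ⟨(a (b (l 3) (b (l 3) (l 1))) (b (a (l 3) (a (l 3) (a (l 18333184) (a (l 18199128) (l 18104848))))) (a (b (l 3) (b (l 3) (l 1))) (b (a (l 3) (a (l 3) (a (b (l 3) (l 3)) (b (l 18020472) (b (l 17919064) (l 17792736)))))) (a (b (l 3) (b (l 3) (l 1))) (b (a (l 3) (a (b (l 3) (l 3)) (b (b (l 17429216) (c (l 17570016) (a (l 3) (b (l 17371408) (l 14))))) (b (c (b (a (l 3) (l 17470480)) (l 14)) (l 14)) (l 14))))) (a (b (l 3) (b (l 3) (l 1))) (b (a (l 3) (b (a (l 3) (l 14)) (l 6))) (l 6))))))))), by decide +kernel⟩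

theorem c_pm_202_aa : CertF 0 536870912 0 536870912 33554432 16777216 false true false .pp 2 0 2
    ndF2q2a ndF2q2a pcF0 cut_pm_202_aa Ext.none :=
  certFK0 (fam := false) (s1 := true) (s2 := false) (a := 2) (b := 0) (c := 2) (cn := .pp) (n1 := ndF2q2a) (n2 := ndF2q2a) (pc := pcF0) (cut := cut_pm_202_aa) (xt := Ext.none) (P1 := 0) (W1 := 536870912) (P2 := 0) (W2 := 536870912) (P3 := 33554432) (W3 := 16777216)
    rfl rfl rfl k0_pm_202_aa

noncomputable def cut_pm_202_ab : Cut := Cut.of [[⟨0, 1, 0, 33554432⟩, ⟨1, 0, 0, 33554432⟩, ⟨2, 1, 0, 33554432⟩], [⟨0, 1, 0, 16777216⟩, ⟨1, 0, 1, 25165824⟩, ⟨2, 1, 1, 25165824⟩, ⟨1, 0, 0, 67108864⟩, ⟨1, 1, 0, 1056964608⟩, ⟨2, 1, 0, 67108864⟩, ⟨2, 2, 0, 1056964608⟩]]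

noncomputable def f_pm_202_ab : ℕ → ℕ → ℕ → ℕ → Bool := onCell 0 536870912 1239849684 370763052 33554432 16777216
    (rowFK 0 false true false .pp 2 0 2 (qsf 0 536870912 1239849684 370763052 0) ndF2q2a ndF2q2b pcF0 cut_pm_202_ab Ext.none)

def k0_pm_202_ab : ∃ t, chk3 f_pm_202_ab t 1 1 1 = true :=
  ⟨(a (b (l 3) (l 3)) (b (a (b (l 3) (l 3)) (a (b (l 3) (l 3)) (a (b (l 3) (l 3)) (a (b (l 18144896) (l 3)) (b (l 18064184) (l 17815808)))))) (a (l 3) (a (l 3) (a (b (l 3) (l 3)) (a (b (l 3) (l 3)) (b (l 17641800) (l 17641712)))))))), by decide +kernel⟩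

theorem c_pm_202_ab : CertF 0 536870912 1239849684 370763052 33554432 16777216 false true false .pp 2 0 2
    ndF2q2a ndF2q2b pcF0 cut_pm_202_ab Ext.none :=
  certFK0 (fam := false) (s1 := true) (s2 := false) (a := 2) (b := 0) (c := 2) (cn := .pp) (n1 := ndF2q2a) (n2 := ndF2q2b) (pc := pcF0) (cut := cut_pm_202_ab) (xt := Ext.none) (P1 := 0) (W1 := 536870912) (P2 := 1239849684) (W2 := 370763052) (P3 := 33554432) (W3 := 16777216)
    rfl rfl rfl k0_pm_202_ab

noncomputable def cut_pm_202_ba : Cut := Cut.of [[⟨0, 1, 0, 33554432⟩, ⟨1, 0, 0, 33554432⟩, ⟨2, 1, 0, 33554432⟩], [⟨0, 1, 0, 16777216⟩, ⟨1, 0, 1, 25165824⟩, ⟨2, 1, 1, 25165824⟩, ⟨1, 0, 0, 67108864⟩, ⟨1, 1, 0, 1056964608⟩, ⟨2, 1, 0, 67108864⟩, ⟨2, 2, 0, 1056964608⟩]]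

noncomputable def f_pm_202_ba : ℕ → ℕ → ℕ → ℕ → Bool := onCell 1239849684 370763052 0 536870912 33554432 16777216
    (rowFK 0 false true false .pp 2 0 2 (qsf 1239849684 370763052 0 536870912 0) ndF2q2b ndF2q2a pcF0 cut_pm_202_ba Ext.none)

def k0_pm_202_ba : ∃ t, chk3 f_pm_202_ba t 1 1 1 = true :=
  ⟨(b (a (l 3) (l 1)) (l 1)), by decide +kernel⟩

theorem c_pm_202_ba : CertF 1239849684 370763052 0 536870912 33554432 16777216 false true false .pp 2 0 2
    ndF2q2b ndF2q2a pcF0 cut_pm_202_ba Ext.none :=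
  certFK0 (fam := false) (s1 := true) (s2 := false) (a := 2) (b := 0) (c := 2) (cn := .pp) (n1 := ndF2q2b) (n2 := ndF2q2a) (pc := pcF0) (cut := cut_pm_202_ba) (xt := Ext.none) (P1 := 1239849684) (W1 := 370763052) (P2 := 0) (W2 := 536870912) (P3 := 33554432) (W3 := 16777216)
    rfl rfl rfl k0_pm_202_ba

noncomputable def cut_pm_202_bb : Cut := Cut.of [[⟨0, 1, 0, 33554432⟩, ⟨1, 0, 0, 33554432⟩, ⟨2, 1, 0, 33554432⟩], [⟨0, 1, 0, 16777216⟩, ⟨1, 0, 1, 25165824⟩, ⟨2, 1, 1, 25165824⟩, ⟨1, 0, 0, 67108864⟩, ⟨1, 1, 0, 1056964608⟩, ⟨2, 1, 0, 67108864⟩, ⟨2, 2, 0, 1056964608⟩]]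

noncomputable def f_pm_202_bb : ℕ → ℕ → ℕ → ℕ → Bool := onCell 1239849684 370763052 1239849684 370763052 33554432 16777216
    (rowFK 0 false true false .pp 2 0 2 (qsf 1239849684 370763052 1239849684 370763052 0) ndF2q2b ndF2q2b pcF0 cut_pm_202_bb Ext.none)

def k0_pm_202_bb : ∃ t, chk3 f_pm_202_bb t 1 1 1 = true :=
  ⟨(a (b (a (l 3) (l 3)) (l 3)) (b (l 3) (l 3))), by decide +kernel⟩

theorem c_pm_202_bb : CertF 1239849684 370763052 1239849684 370763052 33554432 16777216 false true false .pp 2 0 2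
    ndF2q2b ndF2q2b pcF0 cut_pm_202_bb Ext.none :=
  certFK0 (fam := false) (s1 := true) (s2 := false) (a := 2) (b := 0) (c := 2) (cn := .pp) (n1 := ndF2q2b) (n2 := ndF2q2b) (pc := pcF0) (cut := cut_pm_202_bb) (xt := Ext.none) (P1 := 1239849684) (W1 := 370763052) (P2 := 1239849684) (W2 := 370763052) (P3 := 33554432) (W3 := 16777216)
    rfl rfl rfl k0_pm_202_bb

noncomputable def f_pm_203_a : ℕ → ℕ → ℕ → ℕ → Bool := onCell 0 536870912 0 536870912 33554432 16777216
    (rowFK 1 false true false .up 2 0 3 (qsf 0 536870912 1610612736 536870912 0) ndF2q2a ndF2q3 pcF0 Cut.none Ext.none)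

def k0_pm_203_a : ∃ t, chk3 f_pm_203_a t 1 1 1 = true :=
  ⟨(b (l 1) (a (l 3) (a (l 3) (b (l 1) (a (l 3) (a (l 3) (a (l 3) (l 17627704)))))))), by decide +kernel⟩

theorem c_pm_203_a : CertF 0 536870912 1610612736 536870912 33554432 16777216 false true false .up 2 0 3
    ndF2q2a ndF2q3 pcF0 Cut.none Ext.none :=
  certFK1 (fam := false) (s1 := true) (s2 := false) (a := 2) (b := 0) (c := 3) (cn := .up) (n1 := ndF2q2a) (n2 := ndF2q3) (pc := pcF0) (cut := Cut.none) (xt := Ext.none) (P1 := 0) (W1 := 536870912) (P2 := 1610612736) (W2 := 536870912) (P3 := 33554432) (W3 := 16777216)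
    rfl rfl rfl (fun _ => rfl) k0_pm_203_a

noncomputable def f_pm_203_b : ℕ → ℕ → ℕ → ℕ → Bool := onCell 1239849684 370763052 1610612736 536870912 33554432 16777216
    (rowFK 0 false true false .up 2 0 3 (qsf 1239849684 370763052 1610612736 536870912 0) ndF2q2b ndF2q3 pcF0 Cut.none Ext.none)

def k0_pm_203_b : ∃ t, chk3 f_pm_203_b t 1 1 1 = true :=
  ⟨(b (a (l 3) (l 3)) (l 3)), by decide +kernel⟩

theorem c_pm_203_b : CertF 1239849684 370763052 1610612736 536870912 33554432 16777216 false true false .up 2 0 3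
    ndF2q2b ndF2q3 pcF0 Cut.none Ext.none :=
  certFK0 (fam := false) (s1 := true) (s2 := false) (a := 2) (b := 0) (c := 3) (cn := .up) (n1 := ndF2q2b) (n2 := ndF2q3) (pc := pcF0) (cut := Cut.none) (xt := Ext.none) (P1 := 1239849684) (W1 := 370763052) (P2 := 1610612736) (W2 := 536870912) (P3 := 33554432) (W3 := 16777216)
    rfl rfl rfl k0_pm_203_b

noncomputable def cut_pm_213_a : Cut := Cut.of [[⟨0, 1, 0, 7061502⟩, ⟨1, 1, 0, 7061502⟩, ⟨2, 2, 0, 184626⟩]]

noncomputable def f_pm_213_a : ℕ → ℕ → ℕ → ℕ → Bool := onCell 0 536870912 1610612736 536870912 33554432 16777216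
    (rowFK 0 false true false .pnn 2 1 3 (qsf 0 536870912 1610612736 536870912 1) ndF2q2a ndF2q3 pcF1 cut_pm_213_a Ext.none)

def k0_pm_213_a : ∃ t, chk3 f_pm_213_a t 1 1 1 = true :=
  ⟨(a (b (l 3) (l 3)) (b (a (l 3) (b (a (l 3) (a (l 3) (a (l 3) (b (l 17288560) (l 17373872))))) (a (l 3) (a (l 3) (a (l 3) (b (l 17422392) (l 17336768))))))) (a (l 3) (b (a (l 3) (a (l 3) (a (l 3) (b (l 17195096) (l 17254392))))) (a (l 3) (a (l 3) (a (l 3) (b (l 17245912) (b (l 17056936) (b (l 16928592) (b (l 16863896) (b (l 16828800) (b (l 16810424) (b (l 16801016) (a (l 3) (a (l 3) (b (l 16790888) (b (l 16783200) (b (l 16780712) (l 6)))))))))))))))))))), by decide +kernel⟩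

theorem c_pm_213_a : CertF 0 536870912 1610612736 536870912 33554432 16777216 false true false .pnn 2 1 3
    ndF2q2a ndF2q3 pcF1 cut_pm_213_a Ext.none :=
  certFK0 (fam := false) (s1 := true) (s2 := false) (a := 2) (b := 1) (c := 3) (cn := .pnn) (n1 := ndF2q2a) (n2 := ndF2q3) (pc := pcF1) (cut := cut_pm_213_a) (xt := Ext.none) (P1 := 0) (W1 := 536870912) (P2 := 1610612736) (W2 := 536870912) (P3 := 33554432) (W3 := 16777216)
    rfl rfl rfl k0_pm_213_a

noncomputable def cut_pm_213_b : Cut := Cut.of [[⟨0, 1, 0, 7061502⟩, ⟨1, 1, 0, 7061502⟩, ⟨2, 2, 0, 184626⟩]]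

noncomputable def f_pm_213_b : ℕ → ℕ → ℕ → ℕ → Bool := onCell 1239849684 370763052 1610612736 536870912 33554432 16777216
    (rowFK 0 false true false .pnn 2 1 3 (qsf 1239849684 370763052 1610612736 536870912 1) ndF2q2b ndF2q3 pcF1 cut_pm_213_b Ext.none)

def k0_pm_213_b : ∃ t, chk3 f_pm_213_b t 1 1 1 = true :=
  ⟨(b (a (l 3) (l 1)) (l 3)), by decide +kernel⟩

theorem c_pm_213_b : CertF 1239849684 370763052 1610612736 536870912 33554432 16777216 false true false .pnn 2 1 3
    ndF2q2b ndF2q3 pcF1 cut_pm_213_b Ext.none :=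
  certFK0 (fam := false) (s1 := true) (s2 := false) (a := 2) (b := 1) (c := 3) (cn := .pnn) (n1 := ndF2q2b) (n2 := ndF2q3) (pc := pcF1) (cut := cut_pm_213_b) (xt := Ext.none) (P1 := 1239849684) (W1 := 370763052) (P2 := 1610612736) (W2 := 536870912) (P3 := 33554432) (W3 := 16777216)
    rfl rfl rfl k0_pm_213_b

noncomputable def f_pm_303 : ℕ → ℕ → ℕ → ℕ → Bool := onCell 1610612736 536870912 1610612736 536870912 33554432 16777216
    (rowFK 0 false true false .npn 3 0 3 (qsf 1610612736 536870912 1610612736 536870912 0) ndF2q3 ndF2q3 pcF0 Cut.none Ext.none)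

def k0_pm_303 : ∃ t, chk3 f_pm_303 t 1 1 1 = true :=
  ⟨(a (l 3) (l 3)), by decide +kernel⟩

theorem c_pm_303 : CertF 1610612736 536870912 1610612736 536870912 33554432 16777216 false true false .npn 3 0 3
    ndF2q3 ndF2q3 pcF0 Cut.none Ext.none :=
  certFK0 (fam := false) (s1 := true) (s2 := false) (a := 3) (b := 0) (c := 3) (cn := .npn) (n1 := ndF2q3) (n2 := ndF2q3) (pc := pcF0) (cut := Cut.none) (xt := Ext.none) (P1 := 1610612736) (W1 := 536870912) (P2 := 1610612736) (W2 := 536870912) (P3 := 33554432) (W3 := 16777216)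
    rfl rfl rfl k0_pm_303

noncomputable def f_pm_313 : ℕ → ℕ → ℕ → ℕ → Bool := onCell 1610612736 536870912 1610612736 536870912 33554432 16777216
    (rowFK 0 false true false .dn 3 1 3 (qsf 1610612736 536870912 1610612736 536870912 1) ndF2q3 ndF2q3 pcF1 Cut.none Ext.none)

def k0_pm_313 : ∃ t, chk3 f_pm_313 t 1 1 1 = true :=
  ⟨(a (l 3) (l 1)), by decide +kernel⟩

theorem c_pm_313 : CertF 1610612736 536870912 1610612736 536870912 33554432 16777216 false true false .dn 3 1 3
    ndF2q3 ndF2q3 pcF1 Cut.none Ext.none :=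
  certFK0 (fam := false) (s1 := true) (s2 := false) (a := 3) (b := 1) (c := 3) (cn := .dn) (n1 := ndF2q3) (n2 := ndF2q3) (pc := pcF1) (cut := Cut.none) (xt := Ext.none) (P1 := 1610612736) (W1 := 536870912) (P2 := 1610612736) (W2 := 536870912) (P3 := 33554432) (W3 := 16777216)
    rfl rfl rfl k0_pm_313

noncomputable def f_mm_001 : ℕ → ℕ → ℕ → ℕ → Bool := onCell 0 536870912 0 536870912 33554432 16777216
    (rowFK 1 false false false .up 0 0 1 (qsf 0 536870912 536870912 536870912 0) ndF2q0 ndF2q1 pcF0 Cut.none Ext.none)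

def k0_mm_001 : ∃ t, chk3 f_mm_001 t 1 1 1 = true :=
  ⟨(l 3), by decide +kernel⟩

theorem c_mm_001 : CertF 0 536870912 536870912 536870912 33554432 16777216 false false false .up 0 0 1
    ndF2q0 ndF2q1 pcF0 Cut.none Ext.none :=
  certFK1 (fam := false) (s1 := false) (s2 := false) (a := 0) (b := 0) (c := 1) (cn := .up) (n1 := ndF2q0) (n2 := ndF2q1) (pc := pcF0) (cut := Cut.none) (xt := Ext.none) (P1 := 0) (W1 := 536870912) (P2 := 536870912) (W2 := 536870912) (P3 := 33554432) (W3 := 16777216)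
    rfl rfl rfl (fun _ => rfl) k0_mm_001

noncomputable def f_mm_011 : ℕ → ℕ → ℕ → ℕ → Bool := onCell 0 536870912 536870912 536870912 33554432 16777216
    (rowFK 1 false false false .pnn 0 1 1 (qsf 0 536870912 536870912 536870912 1) ndF2q0 ndF2q1 pcF1 Cut.none Ext.none)

def k0_mm_011 : ∃ t, chk3 f_mm_011 t 1 1 1 = true :=
  ⟨(l 5), by decide +kernel⟩

theorem c_mm_011 : CertF 0 536870912 536870912 536870912 33554432 16777216 false false false .pnn 0 1 1
    ndF2q0 ndF2q1 pcF1 Cut.none Ext.none :=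
  certFK1 (fam := false) (s1 := false) (s2 := false) (a := 0) (b := 1) (c := 1) (cn := .pnn) (n1 := ndF2q0) (n2 := ndF2q1) (pc := pcF1) (cut := Cut.none) (xt := Ext.none) (P1 := 0) (W1 := 536870912) (P2 := 536870912) (W2 := 536870912) (P3 := 33554432) (W3 := 16777216)
    rfl rfl rfl (fun _ => rfl) k0_mm_011

noncomputable def f_mm_012_a : ℕ → ℕ → ℕ → ℕ → Bool := onCell 0 536870912 0 536870912 33554432 16777216
    (rowFK 0 false false false .pnp 0 1 2 (qsf 0 536870912 0 536870912 1) ndF2q0 ndF2q2a pcF1 Cut.none Ext.none)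

def k0_mm_012_a : ∃ t, chk3 f_mm_012_a t 1 1 1 = true :=
  ⟨(l 5), by decide +kernel⟩

theorem c_mm_012_a : CertF 0 536870912 0 536870912 33554432 16777216 false false false .pnp 0 1 2
    ndF2q0 ndF2q2a pcF1 Cut.none Ext.none :=
  certFK0 (fam := false) (s1 := false) (s2 := false) (a := 0) (b := 1) (c := 2) (cn := .pnp) (n1 := ndF2q0) (n2 := ndF2q2a) (pc := pcF1) (cut := Cut.none) (xt := Ext.none) (P1 := 0) (W1 := 536870912) (P2 := 0) (W2 := 536870912) (P3 := 33554432) (W3 := 16777216)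
    rfl rfl rfl k0_mm_012_a

end Pool.Agent.Strip051.G.I1_32_3_64.Tab.C.FB22

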