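import Pool.Agent.Strip051.G.I1_32_3_64.AsmH
import Pool.Agent.Strip051.G.I1_32_3_64.TrF1
import Pool.Agent.Strip051.G.I1_32_3_64.TrF2
import Pool.Agent.Strip051.G.I1_32_3_64.TrF3
import Pool.Agent.Strip051.G.I1_32_3_64.Crn12C
import Pool.Agent.Strip051.G.I1_32_3_64.Crn12F
import Pool.Agent.Strip051.G.I1_32_3_64.CrnF_0
import Pool.Agent.Strip051.G.I1_32_3_64.CrnF_1
import Pool.Agent.Strip051.G.I1_32_3_64.MolT
import Pool.Agent.Strip051.G.I1_32_3_64.St10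
import Pool.Agent.Strip051.G.I1_32_3_64.St8
import Pool.Agent.Strip051.G.I1_32_3_64.St9

/-! # Rows from certificates (generated) -/

set_option linter.all false
set_option maxRecDepth 100000

namespace Pool.Agent.Strip051.G.I1_32_3_64.Tab

open Pool.Agent.Strip051.PB Pool.Agent.StripNear Pool.Agent.Strip051.LC

theorem FB00_pp_001 {κ x : ℝ} (hκ : κ * h0 = ken x) (hx : ((33554432 : ℕ) : ℝ) / S ≤ x) (hx' : x ≤ (((33554432 : ℕ) : ℝ) + (16777216 : ℕ)) / S) :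
    TriB PP.cur (farS κ (h0 * x) (tbl tKF x) (tbl tL x)) 0 0 1 0 0 1 1 :=
  (sideF hx hx').farB (Or.inl rfl) (Or.inl rfl) fun y y' F =>
    farB_cert (s1 := true) (s2 := true) rfl hκ covF00 covF01 hx hx'
        Pool.Agent.Strip051.G.I1_32_3_64.Tab.C.FB00.c_pp_001 (cutB_cons (Pool.Agent.Strip051.G.I1_32_3_64.Tab.St.C.s_B00pp_001_s1 hκ hx hx') (cutB_cons (Pool.Agent.Strip051.G.I1_32_3_64.Tab.St.C.s_B00pp_001_s3 hκ hx hx') cutB_nil)) noExt_B F trivial trivial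

theorem FB00_pp_011 {κ x : ℝ} (hκ : κ * h0 = ken x) (hx : ((33554432 : ℕ) : ℝ) / S ≤ x) (hx' : x ≤ (((33554432 : ℕ) : ℝ) + (16777216 : ℕ)) / S) :
    TriB PP.cur (farS κ (h0 * x) (tbl tKF x) (tbl tL x)) 0 1 1 0 0 1 1 :=
  (sideF hx hx').farB (Or.inl rfl) (Or.inl rfl) fun y y' F =>
    farB_cert (s1 := true) (s2 := true) rfl hκ covF00 covF01 hx hx'
        Pool.Agent.Strip051.G.I1_32_3_64.Tab.C.FB00.c_pp_011 (cutB_cons (Pool.Agent.Strip051.G.I1_32_3_64.Tab.St.C.s_B00pp_011_s1 hκ hx hx' (cutB_cons (Pool.Agent.Strip051.G.I1_32_3_64.Tab.altF_B011E_00 hκ hx hx') cutB_nil)) (cutB_cons (Pool.Agent.Strip051.G.I1_32_3_64.Tab.St.C.s_B00pp_011_s3 hκ hx hx' (cutB_cons (Pool.Agent.Strip051.G.I1_32_3_64.Tab.altF_B011E_00 hκ hx hx') cutB_nil)) (cutB_cons (Pool.Agent.Strip051.G.I1_32_3_64.Tab.altF_B011E_00 hκ hx hx') cutB_nil))) noExt_B F trivial trivial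

theorem FB00_pp_012 {κ x : ℝ} (hκ : κ * h0 = ken x) (hx : ((33554432 : ℕ) : ℝ) / S ≤ x) (hx' : x ≤ (((33554432 : ℕ) : ℝ) + (16777216 : ℕ)) / S) :
    TriB PP.cur (farS κ (h0 * x) (tbl tKF x) (tbl tL x)) 0 1 2 0 0 1 1 :=
  (sideF hx hx').farB (Or.inl rfl) (Or.inl rfl) fun y y' F =>
    farB_cert (s1 := true) (s2 := true) rfl hκ covF00 covF02 hx hx'
        Pool.Agent.Strip051.G.I1_32_3_64.Tab.C.FB00.c_pp_012 (cutB_cons (Pool.Agent.Strip051.G.I1_32_3_64.Tab.St.C.s_B00pp_012_s1 hκ hx hx' (cutB_cons (Pool.Agent.Strip051.G.I1_32_3_64.Tab.altF_B012E_00 hκ hx hx') cutB_nil)) (cutB_cons (Pool.Agent.Strip051.G.I1_32_3_64.Tab.St.C.s_B00pp_012_s3 hκ hx hx' (cutB_cons (Pool.Agent.Strip051.G.I1_32_3_64.Tab.altF_B012E_00 hκ hx hx') cutB_nil)) (cutB_cons (Pool.Agent.Strip051.G.I1_32_3_64.Tab.altF_B012E_00 hκ hx hx') cutB_nil))) noExt_B F trivial trivial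

theorem FB00_pp_022 {κ x : ℝ} (hκ : κ * h0 = ken x) (hx : ((33554432 : ℕ) : ℝ) / S ≤ x) (hx' : x ≤ (((33554432 : ℕ) : ℝ) + (16777216 : ℕ)) / S) :
    TriB PP.cur (farS κ (h0 * x) (tbl tKF x) (tbl tL x)) 0 2 2 0 0 1 1 :=
  (sideF hx hx').farB (Or.inl rfl) (Or.inl rfl) fun y y' F =>
    farB_cert (s1 := true) (s2 := true) rfl hκ covF00 covF02 hx hx'
        Pool.Agent.Strip051.G.I1_32_3_64.Tab.C.FB00.c_pp_022 (cutB_cons (Pool.Agent.Strip051.G.I1_32_3_64.Tab.St.C.s_B00pp_022_s1 hκ hx hx' (cutB_cons (Pool.Agent.Strip051.G.I1_32_3_64.Tab.altF_B022E_00 hκ hx hx') cutB_nil)) (cutB_cons (Pool.Agent.Strip051.G.I1_32_3_64.Tab.St.C.s_B00pp_022_s3 hκ hx hx' (cutB_cons (Pool.Agent.Strip051.G.I1_32_3_64.Tab.altF_B022E_00 hκ hx hx') cutB_nil)) (cutB_cons (Pool.Agent.Strip051.G.I1_32_3_64.Tab.altF_B022E_00 hκ hx hx') cutB_nil))) noExt_B F trivial trivial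

theorem FB00_pp_023 {κ x : ℝ} (hκ : κ * h0 = ken x) (hx : ((33554432 : ℕ) : ℝ) / S ≤ x) (hx' : x ≤ (((33554432 : ℕ) : ℝ) + (16777216 : ℕ)) / S) :
    TriB PP.cur (farS κ (h0 * x) (tbl tKF x) (tbl tL x)) 0 2 3 0 0 1 1 :=
  triB_k0

theorem FB00_pp_033 {κ x : ℝ} (hκ : κ * h0 = ken x) (hx : ((33554432 : ℕ) : ℝ) / S ≤ x) (hx' : x ≤ (((33554432 : ℕ) : ℝ) + (16777216 : ℕ)) / S) :
    TriB PP.cur (farS κ (h0 * x) (tbl tKF x) (tbl tL x)) 0 3 3 0 0 1 1 :=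
  triB_k0

theorem FB00_pp_101 {κ x : ℝ} (hκ : κ * h0 = ken x) (hx : ((33554432 : ℕ) : ℝ) / S ≤ x) (hx' : x ≤ (((33554432 : ℕ) : ℝ) + (16777216 : ℕ)) / S) :
    TriB PP.cur (farS κ (h0 * x) (tbl tKF x) (tbl tL x)) 1 0 1 0 0 1 1 :=
  (sideF hx hx').farB (Or.inl rfl) (Or.inl rfl) fun y y' F =>
    farB_cert (s1 := true) (s2 := true) rfl hκ covF01 covF01 hx hx'
        Pool.Agent.Strip051.G.I1_32_3_64.Tab.C.FB00.c_pp_101 (cutB_cons (Pool.Agent.Strip051.G.I1_32_3_64.Tab.St.C.s_B00pp_101_s1 hκ hx hx') (cutB_cons (Pool.Agent.Strip051.G.I1_32_3_64.Tab.St.C.s_B00pp_101_s3 hκ hx hx') cutB_nil)) noExt_B F trivial trivial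

theorem FB00_pp_102 {κ x : ℝ} (hκ : κ * h0 = ken x) (hx : ((33554432 : ℕ) : ℝ) / S ≤ x) (hx' : x ≤ (((33554432 : ℕ) : ℝ) + (16777216 : ℕ)) / S) :
    TriB PP.cur (farS κ (h0 * x) (tbl tKF x) (tbl tL x)) 1 0 2 0 0 1 1 :=
  (sideF hx hx').farB (Or.inl rfl) (Or.inl rfl) fun y y' F =>
    farB_cert (s1 := true) (s2 := true) rfl hκ covF01 covF02 hx hx'
        Pool.Agent.Strip051.G.I1_32_3_64.Tab.C.FB00.c_pp_102 (cutB_cons (Pool.Agent.Strip051.G.I1_32_3_64.Tab.St.C.s_B00pp_102_s1 hκ hx hx') (cutB_cons (Pool.Agent.Strip051.G.I1_32_3_64.Tab.St.C.s_B00pp_102_s3 hκ hx hx') cutB_nil)) noExt_B F trivial trivial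

theorem FB00_pp_112 {κ x : ℝ} (hκ : κ * h0 = ken x) (hx : ((33554432 : ℕ) : ℝ) / S ≤ x) (hx' : x ≤ (((33554432 : ℕ) : ℝ) + (16777216 : ℕ)) / S) :
    TriB PP.cur (farS κ (h0 * x) (tbl tKF x) (tbl tL x)) 1 1 2 0 0 1 1 :=
  (sideF hx hx').farB (Or.inl rfl) (Or.inl rfl) fun y y' F =>
    farB_cert (s1 := true) (s2 := true) rfl hκ covF01 covF02 hx hx'
        Pool.Agent.Strip051.G.I1_32_3_64.Tab.C.FB00.c_pp_112 (cutB_cons (Pool.Agent.Strip051.G.I1_32_3_64.Tab.St.C.s_B00pp_112_s1 hκ hx hx') (cutB_cons (Pool.Agent.Strip051.G.I1_32_3_64.Tab.St.C.s_B00pp_112_s3 hκ hx hx') cutB_nil)) noExt_B F trivial trivial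

theorem FB00_pp_113 {κ x : ℝ} (hκ : κ * h0 = ken x) (hx : ((33554432 : ℕ) : ℝ) / S ≤ x) (hx' : x ≤ (((33554432 : ℕ) : ℝ) + (16777216 : ℕ)) / S) :
    TriB PP.cur (farS κ (h0 * x) (tbl tKF x) (tbl tL x)) 1 1 3 0 0 1 1 :=
  triB_k0

theorem FB00_pp_123 {κ x : ℝ} (hκ : κ * h0 = ken x) (hx : ((33554432 : ℕ) : ℝ) / S ≤ x) (hx' : x ≤ (((33554432 : ℕ) : ℝ) + (16777216 : ℕ)) / S) :
    TriB PP.cur (farS κ (h0 * x) (tbl tKF x) (tbl tL x)) 1 2 3 0 0 1 1 :=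
  triB_k0

theorem FB00_pp_133 {κ x : ℝ} (hκ : κ * h0 = ken x) (hx : ((33554432 : ℕ) : ℝ) / S ≤ x) (hx' : x ≤ (((33554432 : ℕ) : ℝ) + (16777216 : ℕ)) / S) :
    TriB PP.cur (farS κ (h0 * x) (tbl tKF x) (tbl tL x)) 1 3 3 0 0 1 1 :=
  triB_k0

theorem FB00_pp_202 {κ x : ℝ} (hκ : κ * h0 = ken x) (hx : ((33554432 : ℕ) : ℝ) / S ≤ x) (hx' : x ≤ (((33554432 : ℕ) : ℝ) + (16777216 : ℕ)) / S) :
    TriB PP.cur (farS κ (h0 * x) (tbl tKF x) (tbl tL x)) 2 0 2 0 0 1 1 :=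
  (sideF hx hx').farB (Or.inl rfl) (Or.inl rfl) fun y y' F =>
    farB_cert (s1 := true) (s2 := true) rfl hκ covF02 covF02 hx hx'
        Pool.Agent.Strip051.G.I1_32_3_64.Tab.C.FB00.c_pp_202 (cutB_cons (Pool.Agent.Strip051.G.I1_32_3_64.Tab.St.C.s_B00pp_202_s1 hκ hx hx') (cutB_cons (Pool.Agent.Strip051.G.I1_32_3_64.Tab.St.C.s_B00pp_202_s3 hκ hx hx') cutB_nil)) noExt_B F trivial trivial

theorem FB00_pp_203 {κ x : ℝ} (hκ : κ * h0 = ken x) (hx : ((33554432 : ℕ) : ℝ) / S ≤ x) (hx' : x ≤ (((33554432 : ℕ) : ℝ) + (16777216 : ℕ)) / S) :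
    TriB PP.cur (farS κ (h0 * x) (tbl tKF x) (tbl tL x)) 2 0 3 0 0 1 1 :=
  triB_k0

theorem FB00_pp_213 {κ x : ℝ} (hκ : κ * h0 = ken x) (hx : ((33554432 : ℕ) : ℝ) / S ≤ x) (hx' : x ≤ (((33554432 : ℕ) : ℝ) + (16777216 : ℕ)) / S) :
    TriB PP.cur (farS κ (h0 * x) (tbl tKF x) (tbl tL x)) 2 1 3 0 0 1 1 :=
  triB_k0

theorem FB00_pp_303 {κ x : ℝ} (hκ : κ * h0 = ken x) (hx : ((33554432 : ℕ) : ℝ) / S ≤ x) (hx' : x ≤ (((33554432 : ℕ) : ℝ) + (16777216 : ℕ)) / S) :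
    TriB PP.cur (farS κ (h0 * x) (tbl tKF x) (tbl tL x)) 3 0 3 0 0 1 1 :=
  triB_j0

theorem FB00_pp_313 {κ x : ℝ} (hκ : κ * h0 = ken x) (hx : ((33554432 : ℕ) : ℝ) / S ≤ x) (hx' : x ≤ (((33554432 : ℕ) : ℝ) + (16777216 : ℕ)) / S) :
    TriB PP.cur (farS κ (h0 * x) (tbl tKF x) (tbl tL x)) 3 1 3 0 0 1 1 :=
  triB_j0

theorem FB00_pm_001 {κ x : ℝ} (hκ : κ * h0 = ken x) (hx : ((33554432 : ℕ) : ℝ) / S ≤ x) (hx' : x ≤ (((33554432 : ℕ) : ℝ) + (16777216 : ℕ)) / S) :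
    TriB PP.cur (farS κ (h0 * x) (tbl tKF x) (tbl tL x)) 0 0 1 0 0 1 (-1) :=
  (sideF hx hx').farB (Or.inl rfl) (Or.inr rfl) fun y y' F =>
    farB_cert (s1 := true) (s2 := false) rfl hκ covF00 covF01 hx hx'
        Pool.Agent.Strip051.G.I1_32_3_64.Tab.C.FB00.c_pm_001 (cutB_cons (Pool.Agent.Strip051.G.I1_32_3_64.Tab.St.C.s_B00pm_001_s1 hκ hx hx') (cutB_cons (Pool.Agent.Strip051.G.I1_32_3_64.Tab.St.C.s_B00pm_001_s3 hκ hx hx') cutB_nil)) noExt_B F trivial trivial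

theorem FB00_pm_011 {κ x : ℝ} (hκ : κ * h0 = ken x) (hx : ((33554432 : ℕ) : ℝ) / S ≤ x) (hx' : x ≤ (((33554432 : ℕ) : ℝ) + (16777216 : ℕ)) / S) :
    TriB PP.cur (farS κ (h0 * x) (tbl tKF x) (tbl tL x)) 0 1 1 0 0 1 (-1) :=
  (sideF hx hx').farB (Or.inl rfl) (Or.inr rfl) fun y y' F =>
    farB_cert (s1 := true) (s2 := false) rfl hκ covF00 covF01 hx hx'
        Pool.Agent.Strip051.G.I1_32_3_64.Tab.C.FB00.c_pm_011 (cutB_cons (Pool.Agent.Strip051.G.I1_32_3_64.Tab.St.C.s_B00pm_011_s1 hκ hx hx' (cutB_cons (Pool.Agent.Strip051.G.I1_32_3_64.Tab.altF_B011R_00 hκ hx hx') (cutB_cons (Pool.Agent.Strip051.G.I1_32_3_64.Tab.Mo.molF_B_011_00_0 hκ hx hx') cutB_nil))) (cutB_cons (Pool.Agent.Strip051.G.I1_32_3_64.Tab.St.C.s_B00pm_011_s3 hκ hx hx' (cutB_cons (Pool.Agent.Strip051.G.I1_32_3_64.Tab.altF_B011R_00 hκ hx hx') (cutB_cons (Pool.Agent.Strip051.G.I1_32_3_64.Tab.Mo.molF_B_011_00_0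 hκ hx hx') cutB_nil))) (cutB_cons (Pool.Agent.Strip051.G.I1_32_3_64.Tab.altF_B011R_00 hκ hx hx') (cutB_cons (Pool.Agent.Strip051.G.I1_32_3_64.Tab.Mo.molF_B_011_00_0 hκ hx hx') cutB_nil)))) noExt_B F trivial trivial

theorem FB00_pm_012 {κ x : ℝ} (hκ : κ * h0 = ken x) (hx : ((33554432 : ℕ) : ℝ) / S ≤ x) (hx' : x ≤ (((33554432 : ℕ) : ℝ) + (16777216 : ℕ)) / S) :
    TriB PP.cur (farS κ (h0 * x) (tbl tKF x) (tbl tL x)) 0 1 2 0 0 1 (-1) :=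
  (sideF hx hx').farB (Or.inl rfl) (Or.inr rfl) fun y y' F =>
    farB_cert (s1 := true) (s2 := false) rfl hκ covF00 covF02 hx hx'
        Pool.Agent.Strip051.G.I1_32_3_64.Tab.C.FB00.c_pm_012 (cutB_cons (Pool.Agent.Strip051.G.I1_32_3_64.Tab.St.C.s_B00pm_012_s1 hκ hx hx' (cutB_cons (Pool.Agent.Strip051.G.I1_32_3_64.Tab.altF_B012R_00 hκ hx hx') (cutB_cons (Pool.Agent.Strip051.G.I1_32_3_64.Tab.Mo.molF_B_012_00_0 hκ hx hx') cutB_nil))) (cutB_cons (Pool.Agent.Strip051.G.I1_32_3_64.Tab.St.C.s_B00pm_012_s3 hκ hx hx' (cutB_cons (Pool.Agent.Strip051.G.I1_32_3_64.Tab.altF_B012R_00 hκ hx hx') (cutB_cons (Pool.Agent.Strip051.G.I1_32_3_64.Tab.Mo.molF_B_012_00_0 hκ hx hx') cutB_nil))) (cutB_cons (Pool.Agent.Strip051.G.I1_32_3_64.Tab.altF_B012R_00 hκ hx hx') (cutB_cons (Pool.Agent.Strip051.G.I1_32_3_64.Tab.Mo.molF_B_012_00_0 hκ hx hx') cutB_nil)))) noExt_B F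 trivial trivial

theorem FB00_pm_022 {κ x : ℝ} (hκ : κ * h0 = ken x) (hx : ((33554432 : ℕ) : ℝ) / S ≤ x) (hx' : x ≤ (((33554432 : ℕ) : ℝ) + (16777216 : ℕ)) / S) :
    TriB PP.cur (farS κ (h0 * x) (tbl tKF x) (tbl tL x)) 0 2 2 0 0 1 (-1) :=
  (sideF hx hx').farB (Or.inl rfl) (Or.inr rfl) fun y y' F =>
    farB_cert (s1 := true) (s2 := false) rfl hκ covF00 covF02 hx hx'
        Pool.Agent.Strip051.G.I1_32_3_64.Tab.C.FB00.c_pm_022 (cutB_cons (Pool.Agent.Strip051.G.I1_32_3_64.Tab.St.C.s_B00pm_022_s1 hκ hx hx' (cutB_cons (Pool.Agent.Strip051.G.I1_32_3_64.Tab.altF_B022R_00 hκ hx hx') cutB_nil)) (cutB_cons (Pool.Agent.Strip051.G.I1_32_3_64.Tab.St.C.s_B00pm_022_s3 hκ hx hx' (cutB_cons (Pool.Agent.Strip051.G.I1_32_3_64.Tab.altF_B022R_00 hκ hx hx') cutB_nil)) (cutB_cons (Pool.Agent.Strip051.G.I1_32_3_64.Tab.altF_B022R_00 hκ hx hx') cutB_nil))) noExt_B F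 trivial trivial

theorem FB00_pm_023 {κ x : ℝ} (hκ : κ * h0 = ken x) (hx : ((33554432 : ℕ) : ℝ) / S ≤ x) (hx' : x ≤ (((33554432 : ℕ) : ℝ) + (16777216 : ℕ)) / S) :
    TriB PP.cur (farS κ (h0 * x) (tbl tKF x) (tbl tL x)) 0 2 3 0 0 1 (-1) :=
  triB_k0

theorem FB00_pm_033 {κ x : ℝ} (hκ : κ * h0 = ken x) (hx : ((33554432 : ℕ) : ℝ) / S ≤ x) (hx' : x ≤ (((33554432 : ℕ) : ℝ) + (16777216 : ℕ)) / S) :
    TriB PP.cur (farS κ (h0 * x) (tbl tKF x) (tbl tL x)) 0 3 3 0 0 1 (-1) :=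
  triB_k0

theorem FB00_pm_101 {κ x : ℝ} (hκ : κ * h0 = ken x) (hx : ((33554432 : ℕ) : ℝ) / S ≤ x) (hx' : x ≤ (((33554432 : ℕ) : ℝ) + (16777216 : ℕ)) / S) :
    TriB PP.cur (farS κ (h0 * x) (tbl tKF x) (tbl tL x)) 1 0 1 0 0 1 (-1) :=
  (sideF hx hx').farB (Or.inl rfl) (Or.inr rfl) fun y y' F =>
    farB_cert (s1 := true) (s2 := false) rfl hκ covF01 covF01 hx hx'
        Pool.Agent.Strip051.G.I1_32_3_64.Tab.C.FB00.c_pm_101 (cutB_cons (Pool.Agent.Strip051.G.I1_32_3_64.Tab.St.C.s_B00pm_101_s1 hκ hx hx' (cutB_cons (Pool.Agent.Strip051.G.I1_32_3_64.Tab.altF_B101E_00 hκ hx hx') cutB_nil)) (cutB_cons (Pool.Agent.Strip051.G.I1_32_3_64.Tab.St.C.s_B00pm_101_s3 hκ hx hx' (cutB_cons (Pool.Agent.Strip051.G.I1_32_3_64.Tab.altF_B101E_00 hκ hx hx') cutB_nil)) (cutB_cons (Pool.Agent.Strip051.G.I1_32_3_64.Tab.altF_B101E_00 hκ hx hx') cutB_nil))) noExt_B F trivial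 trivial

theorem FB00_pm_102 {κ x : ℝ} (hκ : κ * h0 = ken x) (hx : ((33554432 : ℕ) : ℝ) / S ≤ x) (hx' : x ≤ (((33554432 : ℕ) : ℝ) + (16777216 : ℕ)) / S) :
    TriB PP.cur (farS κ (h0 * x) (tbl tKF x) (tbl tL x)) 1 0 2 0 0 1 (-1) :=
  (sideF hx hx').farB (Or.inl rfl) (Or.inr rfl) fun y y' F =>
    farB_cert (s1 := true) (s2 := false) rfl hκ covF01 covF02 hx hx'
        Pool.Agent.Strip051.G.I1_32_3_64.Tab.C.FB00.c_pm_102 (cutB_cons (Pool.Agent.Strip051.G.I1_32_3_64.Tab.St.C.s_B00pm_102_s1 hκ hx hx' (cutB_cons (Pool.Agent.Strip051.G.I1_32_3_64.Tab.altF_B102E_00 hκ hx hx') cutB_nil)) (cutB_cons (Pool.Agent.Strip051.G.I1_32_3_64.Tab.St.C.s_B00pm_102_s3 hκ hx hx' (cutB_cons (Pool.Agent.Strip051.G.I1_32_3_64.Tab.altF_B102E_00 hκ hx hx') cutB_nil)) (cutB_cons (Pool.Agent.Strip051.G.I1_32_3_64.Tab.altF_B102E_00 hκ hx hx') cutB_nil))) noExt_B F trivial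 trivial

theorem FB00_pm_112 {κ x : ℝ} (hκ : κ * h0 = ken x) (hx : ((33554432 : ℕ) : ℝ) / S ≤ x) (hx' : x ≤ (((33554432 : ℕ) : ℝ) + (16777216 : ℕ)) / S) :
    TriB PP.cur (farS κ (h0 * x) (tbl tKF x) (tbl tL x)) 1 1 2 0 0 1 (-1) :=
  (sideF hx hx').farB (Or.inl rfl) (Or.inr rfl) fun y y' F =>
    farB_cert (s1 := true) (s2 := false) rfl hκ covF01 covF02 hx hx'
        Pool.Agent.Strip051.G.I1_32_3_64.Tab.C.FB00.c_pm_112 (cutB_cons (Pool.Agent.Strip051.G.I1_32_3_64.Tab.St.C.s_B00pm_112_s1 hκ hx hx') (cutB_cons (Pool.Agent.Strip051.G.I1_32_3_64.Tab.St.C.s_B00pm_112_s3 hκ hx hx') cutB_nil)) noExt_B F trivial trivial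

theorem FB00_pm_113 {κ x : ℝ} (hκ : κ * h0 = ken x) (hx : ((33554432 : ℕ) : ℝ) / S ≤ x) (hx' : x ≤ (((33554432 : ℕ) : ℝ) + (16777216 : ℕ)) / S) :
    TriB PP.cur (farS κ (h0 * x) (tbl tKF x) (tbl tL x)) 1 1 3 0 0 1 (-1) :=
  triB_k0

theorem FB00_pm_123 {κ x : ℝ} (hκ : κ * h0 = ken x) (hx : ((33554432 : ℕ) : ℝ) / S ≤ x) (hx' : x ≤ (((33554432 : ℕ) : ℝ) + (16777216 : ℕ)) / S) :
    TriB PP.cur (farS κ (h0 * x) (tbl tKF x) (tbl tL x)) 1 2 3 0 0 1 (-1) :=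
  triB_k0

theorem FB00_pm_133 {κ x : ℝ} (hκ : κ * h0 = ken x) (hx : ((33554432 : ℕ) : ℝ) / S ≤ x) (hx' : x ≤ (((33554432 : ℕ) : ℝ) + (16777216 : ℕ)) / S) :
    TriB PP.cur (farS κ (h0 * x) (tbl tKF x) (tbl tL x)) 1 3 3 0 0 1 (-1) :=
  triB_k0

theorem FB00_pm_202 {κ x : ℝ} (hκ : κ * h0 = ken x) (hx : ((33554432 : ℕ) : ℝ) / S ≤ x) (hx' : x ≤ (((33554432 : ℕ) : ℝ) + (16777216 : ℕ)) / S) :
    TriB PP.cur (farS κ (h0 * x) (tbl tKF x) (tbl tL x)) 2 0 2 0 0 1 (-1) :=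
  (sideF hx hx').farB (Or.inl rfl) (Or.inr rfl) fun y y' F =>
    farB_cert (s1 := true) (s2 := false) rfl hκ covF02 covF02 hx hx'
        Pool.Agent.Strip051.G.I1_32_3_64.Tab.C.FB00.c_pm_202 (cutB_cons (Pool.Agent.Strip051.G.I1_32_3_64.Tab.St.C.s_B00pm_202_s1 hκ hx hx' (cutB_cons (Pool.Agent.Strip051.G.I1_32_3_64.Tab.altF_B202E_00 hκ hx hx') cutB_nil)) (cutB_cons (Pool.Agent.Strip051.G.I1_32_3_64.Tab.St.C.s_B00pm_202_s3 hκ hx hx' (cutB_cons (Pool.Agent.Strip051.G.I1_32_3_64.Tab.altF_B202E_00 hκ hx hx') cutB_nil)) (cutB_cons (Pool.Agent.Strip051.G.I1_32_3_64.Tab.altF_B202E_00 hκ hx hx') cutB_nil))) noExt_B F trivial trivial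

theorem FB00_pm_203 {κ x : ℝ} (hκ : κ * h0 = ken x) (hx : ((33554432 : ℕ) : ℝ) / S ≤ x) (hx' : x ≤ (((33554432 : ℕ) : ℝ) + (16777216 : ℕ)) / S) :
    TriB PP.cur (farS κ (h0 * x) (tbl tKF x) (tbl tL x)) 2 0 3 0 0 1 (-1) :=
  triB_k0

theorem FB00_pm_213 {κ x : ℝ} (hκ : κ * h0 = ken x) (hx : ((33554432 : ℕ) : ℝ) / S ≤ x) (hx' : x ≤ (((33554432 : ℕ) : ℝ) + (16777216 : ℕ)) / S) :
    TriB PP.cur (farS κ (h0 * x) (tbl tKF x) (tbl tL x)) 2 1 3 0 0 1 (-1) :=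
  triB_k0

theorem FB00_pm_303 {κ x : ℝ} (hκ : κ * h0 = ken x) (hx : ((33554432 : ℕ) : ℝ) / S ≤ x) (hx' : x ≤ (((33554432 : ℕ) : ℝ) + (16777216 : ℕ)) / S) :
    TriB PP.cur (farS κ (h0 * x) (tbl tKF x) (tbl tL x)) 3 0 3 0 0 1 (-1) :=
  triB_j0

theorem FB00_pm_313 {κ x : ℝ} (hκ : κ * h0 = ken x) (hx : ((33554432 : ℕ) : ℝ) / S ≤ x) (hx' : x ≤ (((33554432 : ℕ) : ℝ) + (16777216 : ℕ)) / S) :
    TriB PP.cur (farS κ (h0 * x) (tbl tKF x) (tbl tL x)) 3 1 3 0 0 1 (-1) :=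
  triB_j0

theorem FB00_mm_001 {κ x : ℝ} (hκ : κ * h0 = ken x) (hx : ((33554432 : ℕ) : ℝ) / S ≤ x) (hx' : x ≤ (((33554432 : ℕ) : ℝ) + (16777216 : ℕ)) / S) :
    TriB PP.cur (farS κ (h0 * x) (tbl tKF x) (tbl tL x)) 0 0 1 0 0 (-1) (-1) :=
  (sideF hx hx').farB (Or.inr rfl) (Or.inr rfl) fun y y' F =>
    farB_cert (s1 := false) (s2 := false) rfl hκ covF00 covF01 hx hx'
        Pool.Agent.Strip051.G.I1_32_3_64.Tab.C.FB00.c_mm_001 (cutB_cons (Pool.Agent.Strip051.G.I1_32_3_64.Tab.St.C.s_B00mm_001_s1 hκ hx hx') (cutB_cons (Pool.Agent.Strip051.G.I1_32_3_64.Tab.St.C.s_B00mm_001_s3 hκ hx hx') cutB_nil)) noExt_B F trivial trivial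

theorem FB00_mm_011 {κ x : ℝ} (hκ : κ * h0 = ken x) (hx : ((33554432 : ℕ) : ℝ) / S ≤ x) (hx' : x ≤ (((33554432 : ℕ) : ℝ) + (16777216 : ℕ)) / S) :
    TriB PP.cur (farS κ (h0 * x) (tbl tKF x) (tbl tL x)) 0 1 1 0 0 (-1) (-1) :=
  (sideF hx hx').farB (Or.inr rfl) (Or.inr rfl) fun y y' F =>
    farB_cert (s1 := false) (s2 := false) rfl hκ covF00 covF01 hx hx'
        Pool.Agent.Strip051.G.I1_32_3_64.Tab.C.FB00.c_mm_011 (cutB_cons (Pool.Agent.Strip051.G.I1_32_3_64.Tab.St.C.s_B00mm_011_s1 hκ hx hx') (cutB_cons (Pool.Agent.Strip051.G.I1_32_3_64.Tab.St.C.s_B00mm_011_s3 hκ hx hx') cutB_nil)) noExt_B F trivial trivial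

theorem FB00_mm_012 {κ x : ℝ} (hκ : κ * h0 = ken x) (hx : ((33554432 : ℕ) : ℝ) / S ≤ x) (hx' : x ≤ (((33554432 : ℕ) : ℝ) + (16777216 : ℕ)) / S) :
    TriB PP.cur (farS κ (h0 * x) (tbl tKF x) (tbl tL x)) 0 1 2 0 0 (-1) (-1) :=
  (sideF hx hx').farB (Or.inr rfl) (Or.inr rfl) fun y y' F =>
    farB_cert (s1 := false) (s2 := false) rfl hκ covF00 covF02 hx hx'
        Pool.Agent.Strip051.G.I1_32_3_64.Tab.C.FB00.c_mm_012 (cutB_cons (Pool.Agent.Strip051.G.I1_32_3_64.Tab.St.C.s_B00mm_012_s1 hκ hx hx') (cutB_cons (Pool.Agent.Strip051.G.I1_32_3_64.Tab.St.C.s_B00mm_012_s3 hκ hx hx') cutB_nil)) noExt_B F trivial trivial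

theorem FB00_mm_022 {κ x : ℝ} (hκ : κ * h0 = ken x) (hx : ((33554432 : ℕ) : ℝ) / S ≤ x) (hx' : x ≤ (((33554432 : ℕ) : ℝ) + (16777216 : ℕ)) / S) :
    TriB PP.cur (farS κ (h0 * x) (tbl tKF x) (tbl tL x)) 0 2 2 0 0 (-1) (-1) :=
  (sideF hx hx').farB (Or.inr rfl) (Or.inr rfl) fun y y' F =>
    farB_cert (s1 := false) (s2 := false) rfl hκ covF00 covF02 hx hx'
        Pool.Agent.Strip051.G.I1_32_3_64.Tab.C.FB00.c_mm_022 (cutB_cons (Pool.Agent.Strip051.G.I1_32_3_64.Tab.St.C.s_B00mm_022_s1 hκ hx hx') (cutB_cons (Pool.Agent.Strip051.G.I1_32_3_64.Tab.St.C.s_B00mm_022_s3 hκ hx hx') cutB_nil)) noExt_B F trivial trivial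

theorem FB00_mm_023 {κ x : ℝ} (hκ : κ * h0 = ken x) (hx : ((33554432 : ℕ) : ℝ) / S ≤ x) (hx' : x ≤ (((33554432 : ℕ) : ℝ) + (16777216 : ℕ)) / S) :
    TriB PP.cur (farS κ (h0 * x) (tbl tKF x) (tbl tL x)) 0 2 3 0 0 (-1) (-1) :=
  triB_k0

theorem FB00_mm_033 {κ x : ℝ} (hκ : κ * h0 = ken x) (hx : ((33554432 : ℕ) : ℝ) / S ≤ x) (hx' : x ≤ (((33554432 : ℕ) : ℝ) + (16777216 : ℕ)) / S) :
    TriB PP.cur (farS κ (h0 * x) (tbl tKF x) (tbl tL x)) 0 3 3 0 0 (-1) (-1) :=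
  triB_k0

theorem FB00_mm_101 {κ x : ℝ} (hκ : κ * h0 = ken x) (hx : ((33554432 : ℕ) : ℝ) / S ≤ x) (hx' : x ≤ (((33554432 : ℕ) : ℝ) + (16777216 : ℕ)) / S) :
    TriB PP.cur (farS κ (h0 * x) (tbl tKF x) (tbl tL x)) 1 0 1 0 0 (-1) (-1) :=
  (sideF hx hx').farB (Or.inr rfl) (Or.inr rfl) fun y y' F =>
    farB_cert (s1 := false) (s2 := false) rfl hκ covF01 covF01 hx hx'
        Pool.Agent.Strip051.G.I1_32_3_64.Tab.C.FB00.c_mm_101 (cutB_cons (Pool.Agent.Strip051.G.I1_32_3_64.Tab.St.C.s_B00mm_101_s1 hκ hx hx') (cutB_cons (Pool.Agent.Strip051.G.I1_32_3_64.Tab.St.C.s_B00mm_101_s3 hκ hx hx') cutB_nil)) noExt_B F trivial trivial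

theorem FB00_mm_102 {κ x : ℝ} (hκ : κ * h0 = ken x) (hx : ((33554432 : ℕ) : ℝ) / S ≤ x) (hx' : x ≤ (((33554432 : ℕ) : ℝ) + (16777216 : ℕ)) / S) :
    TriB PP.cur (farS κ (h0 * x) (tbl tKF x) (tbl tL x)) 1 0 2 0 0 (-1) (-1) :=
  (sideF hx hx').farB (Or.inr rfl) (Or.inr rfl) fun y y' F =>
    farB_cert (s1 := false) (s2 := false) rfl hκ covF01 covF02 hx hx'
        Pool.Agent.Strip051.G.I1_32_3_64.Tab.C.FB00.c_mm_102 (cutB_cons (Pool.Agent.Strip051.G.I1_32_3_64.Tab.St.C.s_B00mm_102_s1 hκ hx hx') (cutB_cons (Pool.Agent.Strip051.G.I1_32_3_64.Tab.St.C.s_B00mm_102_s3 hκ hx hx') cutB_nil)) noExt_B F trivial trivial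

theorem FB00_mm_112 {κ x : ℝ} (hκ : κ * h0 = ken x) (hx : ((33554432 : ℕ) : ℝ) / S ≤ x) (hx' : x ≤ (((33554432 : ℕ) : ℝ) + (16777216 : ℕ)) / S) :
    TriB PP.cur (farS κ (h0 * x) (tbl tKF x) (tbl tL x)) 1 1 2 0 0 (-1) (-1) :=
  (sideF hx hx').farB (Or.inr rfl) (Or.inr rfl) fun y y' F =>
    farB_cert (s1 := false) (s2 := false) rfl hκ covF01 covF02 hx hx'
        Pool.Agent.Strip051.G.I1_32_3_64.Tab.C.FB00.c_mm_112 (cutB_cons (Pool.Agent.Strip051.G.I1_32_3_64.Tab.St.C.s_B00mm_112_s1 hκ hx hx') (cutB_cons (Pool.Agent.Strip051.G.I1_32_3_64.Tab.St.C.s_B00mm_112_s3 hκ hx hx') cutB_nil)) noExt_B F trivial trivial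

theorem FB00_mm_113 {κ x : ℝ} (hκ : κ * h0 = ken x) (hx : ((33554432 : ℕ) : ℝ) / S ≤ x) (hx' : x ≤ (((33554432 : ℕ) : ℝ) + (16777216 : ℕ)) / S) :
    TriB PP.cur (farS κ (h0 * x) (tbl tKF x) (tbl tL x)) 1 1 3 0 0 (-1) (-1) :=
  triB_k0

theorem FB00_mm_123 {κ x : ℝ} (hκ : κ * h0 = ken x) (hx : ((33554432 : ℕ) : ℝ) / S ≤ x) (hx' : x ≤ (((33554432 : ℕ) : ℝ) + (16777216 : ℕ)) / S) :
    TriB PP.cur (farS κ (h0 * x) (tbl tKF x) (tbl tL x)) 1 2 3 0 0 (-1) (-1) :=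
  triB_k0

theorem FB00_mm_133 {κ x : ℝ} (hκ : κ * h0 = ken x) (hx : ((33554432 : ℕ) : ℝ) / S ≤ x) (hx' : x ≤ (((33554432 : ℕ) : ℝ) + (16777216 : ℕ)) / S) :
    TriB PP.cur (farS κ (h0 * x) (tbl tKF x) (tbl tL x)) 1 3 3 0 0 (-1) (-1) :=
  triB_k0

theorem FB00_mm_202 {κ x : ℝ} (hκ : κ * h0 = ken x) (hx : ((33554432 : ℕ) : ℝ) / S ≤ x) (hx' : x ≤ (((33554432 : ℕ) : ℝ) + (16777216 : ℕ)) / S) :
    TriB PP.cur (farS κ (h0 * x) (tbl tKF x) (tbl tL x)) 2 0 2 0 0 (-1) (-1) :=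
  (sideF hx hx').farB (Or.inr rfl) (Or.inr rfl) fun y y' F =>
    farB_cert (s1 := false) (s2 := false) rfl hκ covF02 covF02 hx hx'
        Pool.Agent.Strip051.G.I1_32_3_64.Tab.C.FB00.c_mm_202 (cutB_cons (Pool.Agent.Strip051.G.I1_32_3_64.Tab.St.C.s_B00mm_202_s1 hκ hx hx') (cutB_cons (Pool.Agent.Strip051.G.I1_32_3_64.Tab.St.C.s_B00mm_202_s3 hκ hx hx') cutB_nil)) noExt_B F trivial trivial

theorem FB00_mm_203 {κ x : ℝ} (hκ : κ * h0 = ken x) (hx : ((33554432 : ℕ) : ℝ) / S ≤ x) (hx' : x ≤ (((33554432 : ℕ) : ℝ) + (16777216 : ℕ)) / S) :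
    TriB PP.cur (farS κ (h0 * x) (tbl tKF x) (tbl tL x)) 2 0 3 0 0 (-1) (-1) :=
  triB_k0

theorem FB00_mm_213 {κ x : ℝ} (hκ : κ * h0 = ken x) (hx : ((33554432 : ℕ) : ℝ) / S ≤ x) (hx' : x ≤ (((33554432 : ℕ) : ℝ) + (16777216 : ℕ)) / S) :
    TriB PP.cur (farS κ (h0 * x) (tbl tKF x) (tbl tL x)) 2 1 3 0 0 (-1) (-1) :=
  triB_k0

theorem FB00_mm_303 {κ x : ℝ} (hκ : κ * h0 = ken x) (hx : ((33554432 : ℕ) : ℝ) / S ≤ x) (hx' : x ≤ (((33554432 : ℕ) : ℝ) + (16777216 : ℕ)) / S) :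
    TriB PP.cur (farS κ (h0 * x) (tbl tKF x) (tbl tL x)) 3 0 3 0 0 (-1) (-1) :=
  triB_j0

theorem FB00_mm_313 {κ x : ℝ} (hκ : κ * h0 = ken x) (hx : ((33554432 : ℕ) : ℝ) / S ≤ x) (hx' : x ≤ (((33554432 : ℕ) : ℝ) + (16777216 : ℕ)) / S) :
    TriB PP.cur (farS κ (h0 * x) (tbl tKF x) (tbl tL x)) 3 1 3 0 0 (-1) (-1) :=
  triB_j0

theorem FB00 {κ x : ℝ} (hκ : κ * h0 = ken x) (hx : ((33554432 : ℕ) : ℝ) / S ≤ x) (hx' : x ≤ (((33554432 : ℕ) : ℝ) + (16777216 : ℕ)) / S) : AllTB PP.cur (farS κ (h0 * x) (tbl tKF x) (tbl tL x)) 0 0 where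
  pp := all17 (Q := fun a b c => TriB PP.cur (farS κ (h0 * x) (tbl tKF x) (tbl tL x)) a b c 0 0 1 1)
    (FB00_pp_001 hκ hx hx') (FB00_pp_011 hκ hx hx') (FB00_pp_012 hκ hx hx') (FB00_pp_022 hκ hx hx') (FB00_pp_023 hκ hx hx') (FB00_pp_033 hκ hx hx') (FB00_pp_101 hκ hx hx') (FB00_pp_102 hκ hx hx') (FB00_pp_112 hκ hx hx') (FB00_pp_113 hκ hx hx') (FB00_pp_123 hκ hx hx') (FB00_pp_133 hκ hx hx') (FB00_pp_202 hκ hx hx') (FB00_pp_203 hκ hx hx') (FB00_pp_213 hκ hx hx') (FB00_pp_303 hκ hx hx') (FB00_pp_313 hκ hx hx')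
  pm := all17 (Q := fun a b c => TriB PP.cur (farS κ (h0 * x) (tbl tKF x) (tbl tL x)) a b c 0 0 1 (-1))
    (FB00_pm_001 hκ hx hx') (FB00_pm_011 hκ hx hx') (FB00_pm_012 hκ hx hx') (FB00_pm_022 hκ hx hx') (FB00_pm_023 hκ hx hx') (FB00_pm_033 hκ hx hx') (FB00_pm_101 hκ hx hx') (FB00_pm_102 hκ hx hx') (FB00_pm_112 hκ hx hx') (FB00_pm_113 hκ hx hx') (FB00_pm_123 hκ hx hx') (FB00_pm_133 hκ hx hx') (FB00_pm_202 hκ hx hx') (FB00_pm_203 hκ hx hx') (FB00_pm_213 hκ hx hx') (FB00_pm_303 hκ hx hx') (FB00_pm_313 hκ hx hx')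
  mm := all17 (Q := fun a b c => TriB PP.cur (farS κ (h0 * x) (tbl tKF x) (tbl tL x)) a b c 0 0 (-1) (-1))
    (FB00_mm_001 hκ hx hx') (FB00_mm_011 hκ hx hx') (FB00_mm_012 hκ hx hx') (FB00_mm_022 hκ hx hx') (FB00_mm_023 hκ hx hx') (FB00_mm_033 hκ hx hx') (FB00_mm_101 hκ hx hx') (FB00_mm_102 hκ hx hx') (FB00_mm_112 hκ hx hx') (FB00_mm_113 hκ hx hx') (FB00_mm_123 hκ hx hx') (FB00_mm_133 hκ hx hx') (FB00_mm_202 hκ hx hx') (FB00_mm_203 hκ hx hx') (FB00_mm_213 hκ hx hx') (FB00_mm_303 hκ hx hx') (FB00_mm_313 hκ hx hx')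

theorem FB01_pp_001 {κ x : ℝ} (hκ : κ * h0 = ken x) (hx : ((33554432 : ℕ) : ℝ) / S ≤ x) (hx' : x ≤ (((33554432 : ℕ) : ℝ) + (16777216 : ℕ)) / S) :
    TriB PP.cur (farS κ (h0 * x) (tbl tKF x) (tbl tL x)) 0 0 1 0 1 1 1 :=
  (sideF hx hx').farB (Or.inl rfl) (Or.inl rfl) fun y y' F =>
    farB_cert (s1 := true) (s2 := true) rfl hκ covF00 covF11 hx hx'
        Pool.Agent.Strip051.G.I1_32_3_64.Tab.C.FB01.c_pp_001 noCut_B noExt_B F trivial trivial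

theorem FB01_pp_011 {κ x : ℝ} (hκ : κ * h0 = ken x) (hx : ((33554432 : ℕ) : ℝ) / S ≤ x) (hx' : x ≤ (((33554432 : ℕ) : ℝ) + (16777216 : ℕ)) / S) :
    TriB PP.cur (farS κ (h0 * x) (tbl tKF x) (tbl tL x)) 0 1 1 0 1 1 1 :=
  (sideF hx hx').farB (Or.inl rfl) (Or.inl rfl) fun y y' F =>
    farB_cert (s1 := true) (s2 := true) rfl hκ covF00 covF11 hx hx'
        Pool.Agent.Strip051.G.I1_32_3_64.Tab.C.FB01.c_pp_011 noCut_B noExt_B F trivial trivial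

theorem FB01_pp_012 {κ x : ℝ} (hκ : κ * h0 = ken x) (hx : ((33554432 : ℕ) : ℝ) / S ≤ x) (hx' : x ≤ (((33554432 : ℕ) : ℝ) + (16777216 : ℕ)) / S) :
    TriB PP.cur (farS κ (h0 * x) (tbl tKF x) (tbl tL x)) 0 1 2 0 1 1 1 :=
  (sideF hx hx').farB (Or.inl rfl) (Or.inl rfl) fun y y' F =>
    (lt_or_ge (h0 * (y + y')) 1).elim
      (fun g => farB_cert (s1 := true) (s2 := true) rfl hκ covF00 covF12a hx hx'
        Pool.Agent.Strip051.G.I1_32_3_64.Tab.C.FB01.c_pp_012_a (cutB_cons (Pool.Agent.Strip051.G.I1_32_3_64.Tab.altF_B012E_01 hκ hx hx') cutB_nil) noExt_B F trivial g)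
      (fun g => farB_cert (s1 := true) (s2 := true) rfl hκ covF00 covF12b hx hx'
        Pool.Agent.Strip051.G.I1_32_3_64.Tab.C.FB01.c_pp_012_b (cutB_cons (Pool.Agent.Strip051.G.I1_32_3_64.Tab.altF_B012E_01 hκ hx hx') cutB_nil) noExt_B F trivial g)

theorem FB01_pp_022 {κ x : ℝ} (hκ : κ * h0 = ken x) (hx : ((33554432 : ℕ) : ℝ) / S ≤ x) (hx' : x ≤ (((33554432 : ℕ) : ℝ) + (16777216 : ℕ)) / S) :
    TriB PP.cur (farS κ (h0 * x) (tbl tKF x) (tbl tL x)) 0 2 2 0 1 1 1 :=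
  (sideF hx hx').farB (Or.inl rfl) (Or.inl rfl) fun y y' F =>
    (lt_or_ge (h0 * (y + y')) 1).elim
      (fun g => farB_cert (s1 := true) (s2 := true) rfl hκ covF00 covF12a hx hx'
        Pool.Agent.Strip051.G.I1_32_3_64.Tab.C.FB01.c_pp_022_a (cutB_cons (Pool.Agent.Strip051.G.I1_32_3_64.Tab.altF_B022E_01 hκ hx hx') cutB_nil) noExt_B F trivial g)
      (fun g => farB_cert (s1 := true) (s2 := true) rfl hκ covF00 covF12b hx hx'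
        Pool.Agent.Strip051.G.I1_32_3_64.Tab.C.FB01.c_pp_022_b (cutB_cons (Pool.Agent.Strip051.G.I1_32_3_64.Tab.altF_B022E_01 hκ hx hx') cutB_nil) noExt_B F trivial g)

theorem FB01_pp_023 {κ x : ℝ} (hκ : κ * h0 = ken x) (hx : ((33554432 : ℕ) : ℝ) / S ≤ x) (hx' : x ≤ (((33554432 : ℕ) : ℝ) + (16777216 : ℕ)) / S) :
    TriB PP.cur (farS κ (h0 * x) (tbl tKF x) (tbl tL x)) 0 2 3 0 1 1 1 :=
  (sideF hx hx').farB (Or.inl rfl) (Or.inl rfl) fun y y' F =>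
    farB_cert (s1 := true) (s2 := true) rfl hκ covF00 covF13 hx hx'
        Pool.Agent.Strip051.G.I1_32_3_64.Tab.C.FB01.c_pp_023 noCut_B noExt_B F trivial trivial

theorem FB01_pp_033 {κ x : ℝ} (hκ : κ * h0 = ken x) (hx : ((33554432 : ℕ) : ℝ) / S ≤ x) (hx' : x ≤ (((33554432 : ℕ) : ℝ) + (16777216 : ℕ)) / S) :
    TriB PP.cur (farS κ (h0 * x) (tbl tKF x) (tbl tL x)) 0 3 3 0 1 1 1 :=
  (sideF hx hx').farB (Or.inl rfl) (Or.inl rfl) fun y y' F =>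
    farB_cert (s1 := true) (s2 := true) rfl hκ covF00 covF13 hx hx'
        Pool.Agent.Strip051.G.I1_32_3_64.Tab.C.FB01.c_pp_033 noCut_B noExt_B F trivial trivial

theorem FB01_pp_101 {κ x : ℝ} (hκ : κ * h0 = ken x) (hx : ((33554432 : ℕ) : ℝ) / S ≤ x) (hx' : x ≤ (((33554432 : ℕ) : ℝ) + (16777216 : ℕ)) / S) :
    TriB PP.cur (farS κ (h0 * x) (tbl tKF x) (tbl tL x)) 1 0 1 0 1 1 1 :=
  (sideF hx hx').farB (Or.inl rfl) (Or.inl rfl) fun y y' F =>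
    farB_cert (s1 := true) (s2 := true) rfl hκ covF01 covF11 hx hx'
        Pool.Agent.Strip051.G.I1_32_3_64.Tab.C.FB01.c_pp_101 noCut_B noExt_B F trivial trivial

theorem FB01_pp_102 {κ x : ℝ} (hκ : κ * h0 = ken x) (hx : ((33554432 : ℕ) : ℝ) / S ≤ x) (hx' : x ≤ (((33554432 : ℕ) : ℝ) + (16777216 : ℕ)) / S) :
    TriB PP.cur (farS κ (h0 * x) (tbl tKF x) (tbl tL x)) 1 0 2 0 1 1 1 :=
  (sideF hx hx').farB (Or.inl rfl) (Or.inl rfl) fun y y' F =>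
    (lt_or_ge (h0 * (y + y')) 1).elim
      (fun g => farB_cert (s1 := true) (s2 := true) rfl hκ covF01 covF12a hx hx'
        Pool.Agent.Strip051.G.I1_32_3_64.Tab.C.FB01.c_pp_102_a noCut_B noExt_B F trivial g)
      (fun g => farB_cert (s1 := true) (s2 := true) rfl hκ covF01 covF12b hx hx'
        Pool.Agent.Strip051.G.I1_32_3_64.Tab.C.FB01.c_pp_102_b noCut_B noExt_B F trivial g)

theorem FB01_pp_112 {κ x : ℝ} (hκ : κ * h0 = ken x) (hx : ((33554432 : ℕ) : ℝ) / S ≤ x) (hx' : x ≤ (((33554432 : ℕ) : ℝ) + (16777216 : ℕ)) / S) :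
    TriB PP.cur (farS κ (h0 * x) (tbl tKF x) (tbl tL x)) 1 1 2 0 1 1 1 :=
  (sideF hx hx').farB (Or.inl rfl) (Or.inl rfl) fun y y' F =>
    (lt_or_ge (h0 * (y + y')) 1).elim
      (fun g => farB_cert (s1 := true) (s2 := true) rfl hκ covF01 covF12a hx hx'
        Pool.Agent.Strip051.G.I1_32_3_64.Tab.C.FB01.c_pp_112_a noCut_B noExt_B F trivial g)
      (fun g => farB_cert (s1 := true) (s2 := true) rfl hκ covF01 covF12b hx hx'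
        Pool.Agent.Strip051.G.I1_32_3_64.Tab.C.FB01.c_pp_112_b noCut_B noExt_B F trivial g)

theorem FB01_pp_113 {κ x : ℝ} (hκ : κ * h0 = ken x) (hx : ((33554432 : ℕ) : ℝ) / S ≤ x) (hx' : x ≤ (((33554432 : ℕ) : ℝ) + (16777216 : ℕ)) / S) :
    TriB PP.cur (farS κ (h0 * x) (tbl tKF x) (tbl tL x)) 1 1 3 0 1 1 1 :=
  (sideF hx hx').farB (Or.inl rfl) (Or.inl rfl) fun y y' F =>
    farB_cert (s1 := true) (s2 := true) rfl hκ covF01 covF13 hx hx'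
        Pool.Agent.Strip051.G.I1_32_3_64.Tab.C.FB01.c_pp_113 (cutB_cons (Pool.Agent.Strip051.G.I1_32_3_64.Tab.alt12F_B113_01p hκ hx hx') cutB_nil) noExt_B F trivial trivial

theorem FB01_pp_123 {κ x : ℝ} (hκ : κ * h0 = ken x) (hx : ((33554432 : ℕ) : ℝ) / S ≤ x) (hx' : x ≤ (((33554432 : ℕ) : ℝ) + (16777216 : ℕ)) / S) :
    TriB PP.cur (farS κ (h0 * x) (tbl tKF x) (tbl tL x)) 1 2 3 0 1 1 1 :=
  (sideF hx hx').farB (Or.inl rfl) (Or.inl rfl) fun y y' F =>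
    farB_cert (s1 := true) (s2 := true) rfl hκ covF01 covF13 hx hx'
        Pool.Agent.Strip051.G.I1_32_3_64.Tab.C.FB01.c_pp_123 (cutB_cons (Pool.Agent.Strip051.G.I1_32_3_64.Tab.alt12F_B123_01p hκ hx hx') cutB_nil) noExt_B F trivial trivial

theorem FB01_pp_133 {κ x : ℝ} (hκ : κ * h0 = ken x) (hx : ((33554432 : ℕ) : ℝ) / S ≤ x) (hx' : x ≤ (((33554432 : ℕ) : ℝ) + (16777216 : ℕ)) / S) :
    TriB PP.cur (farS κ (h0 * x) (tbl tKF x) (tbl tL x)) 1 3 3 0 1 1 1 :=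
  (sideF hx hx').farB (Or.inl rfl) (Or.inl rfl) fun y y' F =>
    farB_cert (s1 := true) (s2 := true) rfl hκ covF01 covF13 hx hx'
        Pool.Agent.Strip051.G.I1_32_3_64.Tab.C.FB01.c_pp_133 noCut_B noExt_B F trivial trivial

theorem FB01_pp_202 {κ x : ℝ} (hκ : κ * h0 = ken x) (hx : ((33554432 : ℕ) : ℝ) / S ≤ x) (hx' : x ≤ (((33554432 : ℕ) : ℝ) + (16777216 : ℕ)) / S) :
    TriB PP.cur (farS κ (h0 * x) (tbl tKF x) (tbl tL x)) 2 0 2 0 1 1 1 :=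
  (sideF hx hx').farB (Or.inl rfl) (Or.inl rfl) fun y y' F =>
    (lt_or_ge (h0 * (y + y')) 1).elim
      (fun g => farB_cert (s1 := true) (s2 := true) rfl hκ covF02 covF12a hx hx'
        Pool.Agent.Strip051.G.I1_32_3_64.Tab.C.FB01.c_pp_202_a noCut_B noExt_B F trivial g)
      (fun g => farB_cert (s1 := true) (s2 := true) rfl hκ covF02 covF12b hx hx'
        Pool.Agent.Strip051.G.I1_32_3_64.Tab.C.FB01.c_pp_202_b noCut_B noExt_B F trivial g)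

theorem FB01_pp_203 {κ x : ℝ} (hκ : κ * h0 = ken x) (hx : ((33554432 : ℕ) : ℝ) / S ≤ x) (hx' : x ≤ (((33554432 : ℕ) : ℝ) + (16777216 : ℕ)) / S) :
    TriB PP.cur (farS κ (h0 * x) (tbl tKF x) (tbl tL x)) 2 0 3 0 1 1 1 :=
  (sideF hx hx').farB (Or.inl rfl) (Or.inl rfl) fun y y' F =>
    farB_cert (s1 := true) (s2 := true) rfl hκ covF02 covF13 hx hx'
        Pool.Agent.Strip051.G.I1_32_3_64.Tab.C.FB01.c_pp_203 noCut_B noExt_B F trivial trivial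

theorem FB01_pp_213 {κ x : ℝ} (hκ : κ * h0 = ken x) (hx : ((33554432 : ℕ) : ℝ) / S ≤ x) (hx' : x ≤ (((33554432 : ℕ) : ℝ) + (16777216 : ℕ)) / S) :
    TriB PP.cur (farS κ (h0 * x) (tbl tKF x) (tbl tL x)) 2 1 3 0 1 1 1 :=
  (sideF hx hx').farB (Or.inl rfl) (Or.inl rfl) fun y y' F =>
    farB_cert (s1 := true) (s2 := true) rfl hκ covF02 covF13 hx hx'
        Pool.Agent.Strip051.G.I1_32_3_64.Tab.C.FB01.c_pp_213 (cutB_cons (Pool.Agent.Strip051.G.I1_32_3_64.Tab.alt12F_B213_01p hκ hx hx') cutB_nil) noExt_B F trivial trivial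

theorem FB01_pp_303 {κ x : ℝ} (hκ : κ * h0 = ken x) (hx : ((33554432 : ℕ) : ℝ) / S ≤ x) (hx' : x ≤ (((33554432 : ℕ) : ℝ) + (16777216 : ℕ)) / S) :
    TriB PP.cur (farS κ (h0 * x) (tbl tKF x) (tbl tL x)) 3 0 3 0 1 1 1 :=
  triB_j0

theorem FB01_pp_313 {κ x : ℝ} (hκ : κ * h0 = ken x) (hx : ((33554432 : ℕ) : ℝ) / S ≤ x) (hx' : x ≤ (((33554432 : ℕ) : ℝ) + (16777216 : ℕ)) / S) :
    TriB PP.cur (farS κ (h0 * x) (tbl tKF x) (tbl tL x)) 3 1 3 0 1 1 1 :=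
  triB_j0

theorem FB01_pm_001 {κ x : ℝ} (hκ : κ * h0 = ken x) (hx : ((33554432 : ℕ) : ℝ) / S ≤ x) (hx' : x ≤ (((33554432 : ℕ) : ℝ) + (16777216 : ℕ)) / S) :
    TriB PP.cur (farS κ (h0 * x) (tbl tKF x) (tbl tL x)) 0 0 1 0 1 1 (-1) :=
  (sideF hx hx').farB (Or.inl rfl) (Or.inr rfl) fun y y' F =>
    farB_cert (s1 := true) (s2 := false) rfl hκ covF00 covF11 hx hx'
        Pool.Agent.Strip051.G.I1_32_3_64.Tab.C.FB01.c_pm_001 noCut_B noExt_B F trivial trivial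

theorem FB01_pm_011 {κ x : ℝ} (hκ : κ * h0 = ken x) (hx : ((33554432 : ℕ) : ℝ) / S ≤ x) (hx' : x ≤ (((33554432 : ℕ) : ℝ) + (16777216 : ℕ)) / S) :
    TriB PP.cur (farS κ (h0 * x) (tbl tKF x) (tbl tL x)) 0 1 1 0 1 1 (-1) :=
  (sideF hx hx').farB (Or.inl rfl) (Or.inr rfl) fun y y' F =>
    farB_cert (s1 := true) (s2 := false) rfl hκ covF00 covF11 hx hx'
        Pool.Agent.Strip051.G.I1_32_3_64.Tab.C.FB01.c_pm_011 noCut_B noExt_B F trivial trivial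

theorem FB01_pm_012 {κ x : ℝ} (hκ : κ * h0 = ken x) (hx : ((33554432 : ℕ) : ℝ) / S ≤ x) (hx' : x ≤ (((33554432 : ℕ) : ℝ) + (16777216 : ℕ)) / S) :
    TriB PP.cur (farS κ (h0 * x) (tbl tKF x) (tbl tL x)) 0 1 2 0 1 1 (-1) :=
  (sideF hx hx').farB (Or.inl rfl) (Or.inr rfl) fun y y' F =>
    (lt_or_ge (h0 * (y + y')) 1).elim
      (fun g => farB_cert (s1 := true) (s2 := false) rfl hκ covF00 covF12a hx hx'
        Pool.Agent.Strip051.G.I1_32_3_64.Tab.C.FB01.c_pm_012_a (cutB_cons (Pool.Agent.Strip051.G.I1_32_3_64.Tab.altF_B012R_01 hκ hx hx') (cutB_cons (Pool.Agent.Strip051.G.I1_32_3_64.Tab.Mo.molF_B_012_01_0 hκ hx hx') cutB_nil)) noExt_B F trivial g)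
      (fun g => farB_cert (s1 := true) (s2 := false) rfl hκ covF00 covF12b hx hx'
        Pool.Agent.Strip051.G.I1_32_3_64.Tab.C.FB01.c_pm_012_b (cutB_cons (Pool.Agent.Strip051.G.I1_32_3_64.Tab.altF_B012R_01 hκ hx hx') (cutB_cons (Pool.Agent.Strip051.G.I1_32_3_64.Tab.Mo.molF_B_012_01_0 hκ hx hx') cutB_nil)) noExt_B F trivial g)

theorem FB01_pm_022 {κ x : ℝ} (hκ : κ * h0 = ken x) (hx : ((33554432 : ℕ) : ℝ) / S ≤ x) (hx' : x ≤ (((33554432 : ℕ) : ℝ) + (16777216 : ℕ)) / S) :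
    TriB PP.cur (farS κ (h0 * x) (tbl tKF x) (tbl tL x)) 0 2 2 0 1 1 (-1) :=
  (sideF hx hx').farB (Or.inl rfl) (Or.inr rfl) fun y y' F =>
    (lt_or_ge (h0 * (y + y')) 1).elim
      (fun g => farB_cert (s1 := true) (s2 := false) rfl hκ covF00 covF12a hx hx'
        Pool.Agent.Strip051.G.I1_32_3_64.Tab.C.FB01.c_pm_022_a (cutB_cons (Pool.Agent.Strip051.G.I1_32_3_64.Tab.altF_B022R_01 hκ hx hx') cutB_nil) noExt_B F trivial g)
      (fun g => farB_cert (s1 := true) (s2 := false) rfl hκ covF00 covF12b hx hx'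
        Pool.Agent.Strip051.G.I1_32_3_64.Tab.C.FB01.c_pm_022_b (cutB_cons (Pool.Agent.Strip051.G.I1_32_3_64.Tab.altF_B022R_01 hκ hx hx') cutB_nil) noExt_B F trivial g)

theorem FB01_pm_023 {κ x : ℝ} (hκ : κ * h0 = ken x) (hx : ((33554432 : ℕ) : ℝ) / S ≤ x) (hx' : x ≤ (((33554432 : ℕ) : ℝ) + (16777216 : ℕ)) / S) :
    TriB PP.cur (farS κ (h0 * x) (tbl tKF x) (tbl tL x)) 0 2 3 0 1 1 (-1) :=
  (sideF hx hx').farB (Or.inl rfl) (Or.inr rfl) fun y y' F =>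
    farB_cert (s1 := true) (s2 := false) rfl hκ covF00 covF13 hx hx'
        Pool.Agent.Strip051.G.I1_32_3_64.Tab.C.FB01.c_pm_023 noCut_B noExt_B F trivial trivial

theorem FB01_pm_033 {κ x : ℝ} (hκ : κ * h0 = ken x) (hx : ((33554432 : ℕ) : ℝ) / S ≤ x) (hx' : x ≤ (((33554432 : ℕ) : ℝ) + (16777216 : ℕ)) / S) :
    TriB PP.cur (farS κ (h0 * x) (tbl tKF x) (tbl tL x)) 0 3 3 0 1 1 (-1) :=
  (sideF hx hx').farB (Or.inl rfl) (Or.inr rfl) fun y y' F =>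
    farB_cert (s1 := true) (s2 := false) rfl hκ covF00 covF13 hx hx'
        Pool.Agent.Strip051.G.I1_32_3_64.Tab.C.FB01.c_pm_033 noCut_B noExt_B F trivial trivial

theorem FB01_pm_101 {κ x : ℝ} (hκ : κ * h0 = ken x) (hx : ((33554432 : ℕ) : ℝ) / S ≤ x) (hx' : x ≤ (((33554432 : ℕ) : ℝ) + (16777216 : ℕ)) / S) :
    TriB PP.cur (farS κ (h0 * x) (tbl tKF x) (tbl tL x)) 1 0 1 0 1 1 (-1) :=
  (sideF hx hx').farB (Or.inl rfl) (Or.inr rfl) fun y y' F =>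
    farB_cert (s1 := true) (s2 := false) rfl hκ covF01 covF11 hx hx'
        Pool.Agent.Strip051.G.I1_32_3_64.Tab.C.FB01.c_pm_101 noCut_B noExt_B F trivial trivial

theorem FB01_pm_102 {κ x : ℝ} (hκ : κ * h0 = ken x) (hx : ((33554432 : ℕ) : ℝ) / S ≤ x) (hx' : x ≤ (((33554432 : ℕ) : ℝ) + (16777216 : ℕ)) / S) :
    TriB PP.cur (farS κ (h0 * x) (tbl tKF x) (tbl tL x)) 1 0 2 0 1 1 (-1) :=
  (sideF hx hx').farB (Or.inl rfl) (Or.inr rfl) fun y y' F =>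
    (lt_or_ge (h0 * (y + y')) 1).elim
      (fun g => farB_cert (s1 := true) (s2 := false) rfl hκ covF01 covF12a hx hx'
        Pool.Agent.Strip051.G.I1_32_3_64.Tab.C.FB01.c_pm_102_a (cutB_cons (Pool.Agent.Strip051.G.I1_32_3_64.Tab.altF_B102E_01 hκ hx hx') cutB_nil) noExt_B F trivial g)
      (fun g => farB_cert (s1 := true) (s2 := false) rfl hκ covF01 covF12b hx hx'
        Pool.Agent.Strip051.G.I1_32_3_64.Tab.C.FB01.c_pm_102_b (cutB_cons (Pool.Agent.Strip051.G.I1_32_3_64.Tab.altF_B102E_01 hκ hx hx') cutB_nil) noExt_B F trivial g)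

theorem FB01_pm_112 {κ x : ℝ} (hκ : κ * h0 = ken x) (hx : ((33554432 : ℕ) : ℝ) / S ≤ x) (hx' : x ≤ (((33554432 : ℕ) : ℝ) + (16777216 : ℕ)) / S) :
    TriB PP.cur (farS κ (h0 * x) (tbl tKF x) (tbl tL x)) 1 1 2 0 1 1 (-1) :=
  (sideF hx hx').farB (Or.inl rfl) (Or.inr rfl) fun y y' F =>
    (lt_or_ge (h0 * (y + y')) 1).elim
      (fun g => farB_cert (s1 := true) (s2 := false) rfl hκ covF01 covF12a hx hx'
        Pool.Agent.Strip051.G.I1_32_3_64.Tab.C.FB01.c_pm_112_a noCut_B noExt_B F trivial g)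
      (fun g => farB_cert (s1 := true) (s2 := false) rfl hκ covF01 covF12b hx hx'
        Pool.Agent.Strip051.G.I1_32_3_64.Tab.C.FB01.c_pm_112_b noCut_B noExt_B F trivial g)

theorem FB01_pm_113 {κ x : ℝ} (hκ : κ * h0 = ken x) (hx : ((33554432 : ℕ) : ℝ) / S ≤ x) (hx' : x ≤ (((33554432 : ℕ) : ℝ) + (16777216 : ℕ)) / S) :
    TriB PP.cur (farS κ (h0 * x) (tbl tKF x) (tbl tL x)) 1 1 3 0 1 1 (-1) :=
  (sideF hx hx').farB (Or.inl rfl) (Or.inr rfl) fun y y' F =>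
    farB_cert (s1 := true) (s2 := false) rfl hκ covF01 covF13 hx hx'
        Pool.Agent.Strip051.G.I1_32_3_64.Tab.C.FB01.c_pm_113 (cutB_cons (Pool.Agent.Strip051.G.I1_32_3_64.Tab.alt12F_B113_01m hκ hx hx') cutB_nil) noExt_B F trivial trivial

theorem FB01_pm_123 {κ x : ℝ} (hκ : κ * h0 = ken x) (hx : ((33554432 : ℕ) : ℝ) / S ≤ x) (hx' : x ≤ (((33554432 : ℕ) : ℝ) + (16777216 : ℕ)) / S) :
    TriB PP.cur (farS κ (h0 * x) (tbl tKF x) (tbl tL x)) 1 2 3 0 1 1 (-1) :=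
  (sideF hx hx').farB (Or.inl rfl) (Or.inr rfl) fun y y' F =>
    farB_cert (s1 := true) (s2 := false) rfl hκ covF01 covF13 hx hx'
        Pool.Agent.Strip051.G.I1_32_3_64.Tab.C.FB01.c_pm_123 (cutB_cons (Pool.Agent.Strip051.G.I1_32_3_64.Tab.alt12F_B123_01m hκ hx hx') cutB_nil) noExt_B F trivial trivial

theorem FB01_pm_133 {κ x : ℝ} (hκ : κ * h0 = ken x) (hx : ((33554432 : ℕ) : ℝ) / S ≤ x) (hx' : x ≤ (((33554432 : ℕ) : ℝ) + (16777216 : ℕ)) / S) :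
    TriB PP.cur (farS κ (h0 * x) (tbl tKF x) (tbl tL x)) 1 3 3 0 1 1 (-1) :=
  (sideF hx hx').farB (Or.inl rfl) (Or.inr rfl) fun y y' F =>
    farB_cert (s1 := true) (s2 := false) rfl hκ covF01 covF13 hx hx'
        Pool.Agent.Strip051.G.I1_32_3_64.Tab.C.FB01.c_pm_133 noCut_B noExt_B F trivial trivial

theorem FB01_pm_202 {κ x : ℝ} (hκ : κ * h0 = ken x) (hx : ((33554432 : ℕ) : ℝ) / S ≤ x) (hx' : x ≤ (((33554432 : ℕ) : ℝ) + (16777216 : ℕ)) / S) :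
    TriB PP.cur (farS κ (h0 * x) (tbl tKF x) (tbl tL x)) 2 0 2 0 1 1 (-1) :=
  (sideF hx hx').farB (Or.inl rfl) (Or.inr rfl) fun y y' F =>
    (lt_or_ge (h0 * (y + y')) 1).elim
      (fun g => farB_cert (s1 := true) (s2 := false) rfl hκ covF02 covF12a hx hx'
        Pool.Agent.Strip051.G.I1_32_3_64.Tab.C.FB01.c_pm_202_a (cutB_cons (Pool.Agent.Strip051.G.I1_32_3_64.Tab.altF_B202E_01 hκ hx hx') cutB_nil) noExt_B F trivial g)
      (fun g => farB_cert (s1 := true) (s2 := false) rfl hκ covF02 covF12b hx hx'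
        Pool.Agent.Strip051.G.I1_32_3_64.Tab.C.FB01.c_pm_202_b (cutB_cons (Pool.Agent.Strip051.G.I1_32_3_64.Tab.altF_B202E_01 hκ hx hx') cutB_nil) noExt_B F trivial g)

theorem FB01_pm_203 {κ x : ℝ} (hκ : κ * h0 = ken x) (hx : ((33554432 : ℕ) : ℝ) / S ≤ x) (hx' : x ≤ (((33554432 : ℕ) : ℝ) + (16777216 : ℕ)) / S) :
    TriB PP.cur (farS κ (h0 * x) (tbl tKF x) (tbl tL x)) 2 0 3 0 1 1 (-1) :=
  (sideF hx hx').farB (Or.inl rfl) (Or.inr rfl) fun y y' F =>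
    farB_cert (s1 := true) (s2 := false) rfl hκ covF02 covF13 hx hx'
        Pool.Agent.Strip051.G.I1_32_3_64.Tab.C.FB01.c_pm_203 noCut_B noExt_B F trivial trivial

theorem FB01_pm_213 {κ x : ℝ} (hκ : κ * h0 = ken x) (hx : ((33554432 : ℕ) : ℝ) / S ≤ x) (hx' : x ≤ (((33554432 : ℕ) : ℝ) + (16777216 : ℕ)) / S) :
    TriB PP.cur (farS κ (h0 * x) (tbl tKF x) (tbl tL x)) 2 1 3 0 1 1 (-1) :=
  (sideF hx hx').farB (Or.inl rfl) (Or.inr rfl) fun y y' F =>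
    farB_cert (s1 := true) (s2 := false) rfl hκ covF02 covF13 hx hx'
        Pool.Agent.Strip051.G.I1_32_3_64.Tab.C.FB01.c_pm_213 (cutB_cons (Pool.Agent.Strip051.G.I1_32_3_64.Tab.alt12F_B213_01m hκ hx hx') cutB_nil) noExt_B F trivial trivial

theorem FB01_pm_303 {κ x : ℝ} (hκ : κ * h0 = ken x) (hx : ((33554432 : ℕ) : ℝ) / S ≤ x) (hx' : x ≤ (((33554432 : ℕ) : ℝ) + (16777216 : ℕ)) / S) :
    TriB PP.cur (farS κ (h0 * x) (tbl tKF x) (tbl tL x)) 3 0 3 0 1 1 (-1) :=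
  triB_j0

theorem FB01_pm_313 {κ x : ℝ} (hκ : κ * h0 = ken x) (hx : ((33554432 : ℕ) : ℝ) / S ≤ x) (hx' : x ≤ (((33554432 : ℕ) : ℝ) + (16777216 : ℕ)) / S) :
    TriB PP.cur (farS κ (h0 * x) (tbl tKF x) (tbl tL x)) 3 1 3 0 1 1 (-1) :=
  triB_j0

theorem FB01_mm_001 {κ x : ℝ} (hκ : κ * h0 = ken x) (hx : ((33554432 : ℕ) : ℝ) / S ≤ x) (hx' : x ≤ (((33554432 : ℕ) : ℝ) + (16777216 : ℕ)) / S) :
    TriB PP.cur (farS κ (h0 * x) (tbl tKF x) (tbl tL x)) 0 0 1 0 1 (-1) (-1) :=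
  (sideF hx hx').farB (Or.inr rfl) (Or.inr rfl) fun y y' F =>
    farB_cert (s1 := false) (s2 := false) rfl hκ covF00 covF11 hx hx'
        Pool.Agent.Strip051.G.I1_32_3_64.Tab.C.FB01.c_mm_001 noCut_B noExt_B F trivial trivial

theorem FB01_mm_011 {κ x : ℝ} (hκ : κ * h0 = ken x) (hx : ((33554432 : ℕ) : ℝ) / S ≤ x) (hx' : x ≤ (((33554432 : ℕ) : ℝ) + (16777216 : ℕ)) / S) :
    TriB PP.cur (farS κ (h0 * x) (tbl tKF x) (tbl tL x)) 0 1 1 0 1 (-1) (-1) :=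
  (sideF hx hx').farB (Or.inr rfl) (Or.inr rfl) fun y y' F =>
    farB_cert (s1 := false) (s2 := false) rfl hκ covF00 covF11 hx hx'
        Pool.Agent.Strip051.G.I1_32_3_64.Tab.C.FB01.c_mm_011 noCut_B noExt_B F trivial trivial

theorem FB01_mm_012 {κ x : ℝ} (hκ : κ * h0 = ken x) (hx : ((33554432 : ℕ) : ℝ) / S ≤ x) (hx' : x ≤ (((33554432 : ℕ) : ℝ) + (16777216 : ℕ)) / S) :
    TriB PP.cur (farS κ (h0 * x) (tbl tKF x) (tbl tL x)) 0 1 2 0 1 (-1) (-1) :=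
  (sideF hx hx').farB (Or.inr rfl) (Or.inr rfl) fun y y' F =>
    (lt_or_ge (h0 * (y + y')) 1).elim
      (fun g => farB_cert (s1 := false) (s2 := false) rfl hκ covF00 covF12a hx hx'
        Pool.Agent.Strip051.G.I1_32_3_64.Tab.C.FB01.c_mm_012_a noCut_B noExt_B F trivial g)
      (fun g => farB_cert (s1 := false) (s2 := false) rfl hκ covF00 covF12b hx hx'
        Pool.Agent.Strip051.G.I1_32_3_64.Tab.C.FB01.c_mm_012_b noCut_B noExt_B F trivial g)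

theorem FB01_mm_022 {κ x : ℝ} (hκ : κ * h0 = ken x) (hx : ((33554432 : ℕ) : ℝ) / S ≤ x) (hx' : x ≤ (((33554432 : ℕ) : ℝ) + (16777216 : ℕ)) / S) :
    TriB PP.cur (farS κ (h0 * x) (tbl tKF x) (tbl tL x)) 0 2 2 0 1 (-1) (-1) :=
  (sideF hx hx').farB (Or.inr rfl) (Or.inr rfl) fun y y' F =>
    (lt_or_ge (h0 * (y + y')) 1).elim
      (fun g => farB_cert (s1 := false) (s2 := false) rfl hκ covF00 covF12a hx hx'
        Pool.Agent.Strip051.G.I1_32_3_64.Tab.C.FB01.c_mm_022_a noCut_B noExt_B F trivial g)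
      (fun g => farB_cert (s1 := false) (s2 := false) rfl hκ covF00 covF12b hx hx'
        Pool.Agent.Strip051.G.I1_32_3_64.Tab.C.FB01.c_mm_022_b noCut_B noExt_B F trivial g)

theorem FB01_mm_023 {κ x : ℝ} (hκ : κ * h0 = ken x) (hx : ((33554432 : ℕ) : ℝ) / S ≤ x) (hx' : x ≤ (((33554432 : ℕ) : ℝ) + (16777216 : ℕ)) / S) :
    TriB PP.cur (farS κ (h0 * x) (tbl tKF x) (tbl tL x)) 0 2 3 0 1 (-1) (-1) :=
  (sideF hx hx').farB (Or.inr rfl) (Or.inr rfl) fun y y' F =>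
    farB_cert (s1 := false) (s2 := false) rfl hκ covF00 covF13 hx hx'
        Pool.Agent.Strip051.G.I1_32_3_64.Tab.C.FB01.c_mm_023 noCut_B noExt_B F trivial trivial

theorem FB01_mm_033 {κ x : ℝ} (hκ : κ * h0 = ken x) (hx : ((33554432 : ℕ) : ℝ) / S ≤ x) (hx' : x ≤ (((33554432 : ℕ) : ℝ) + (16777216 : ℕ)) / S) :
    TriB PP.cur (farS κ (h0 * x) (tbl tKF x) (tbl tL x)) 0 3 3 0 1 (-1) (-1) :=
  (sideF hx hx').farB (Or.inr rfl) (Or.inr rfl) fun y y' F =>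
    farB_cert (s1 := false) (s2 := false) rfl hκ covF00 covF13 hx hx'
        Pool.Agent.Strip051.G.I1_32_3_64.Tab.C.FB01.c_mm_033 noCut_B noExt_B F trivial trivial

theorem FB01_mm_101 {κ x : ℝ} (hκ : κ * h0 = ken x) (hx : ((33554432 : ℕ) : ℝ) / S ≤ x) (hx' : x ≤ (((33554432 : ℕ) : ℝ) + (16777216 : ℕ)) / S) :
    TriB PP.cur (farS κ (h0 * x) (tbl tKF x) (tbl tL x)) 1 0 1 0 1 (-1) (-1) :=
  (sideF hx hx').farB (Or.inr rfl) (Or.inr rfl) fun y y' F =>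
    farB_cert (s1 := false) (s2 := false) rfl hκ covF01 covF11 hx hx'
        Pool.Agent.Strip051.G.I1_32_3_64.Tab.C.FB01.c_mm_101 noCut_B noExt_B F trivial trivial

theorem FB01_mm_102 {κ x : ℝ} (hκ : κ * h0 = ken x) (hx : ((33554432 : ℕ) : ℝ) / S ≤ x) (hx' : x ≤ (((33554432 : ℕ) : ℝ) + (16777216 : ℕ)) / S) :
    TriB PP.cur (farS κ (h0 * x) (tbl tKF x) (tbl tL x)) 1 0 2 0 1 (-1) (-1) :=
  (sideF hx hx').farB (Or.inr rfl) (Or.inr rfl) fun y y' F =>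
    (lt_or_ge (h0 * (y + y')) 1).elim
      (fun g => farB_cert (s1 := false) (s2 := false) rfl hκ covF01 covF12a hx hx'
        Pool.Agent.Strip051.G.I1_32_3_64.Tab.C.FB01.c_mm_102_a noCut_B noExt_B F trivial g)
      (fun g => farB_cert (s1 := false) (s2 := false) rfl hκ covF01 covF12b hx hx'
        Pool.Agent.Strip051.G.I1_32_3_64.Tab.C.FB01.c_mm_102_b noCut_B noExt_B F trivial g)

theorem FB01_mm_112 {κ x : ℝ} (hκ : κ * h0 = ken x) (hx : ((33554432 : ℕ) : ℝ) / S ≤ x) (hx' : x ≤ (((33554432 : ℕ) : ℝ) + (16777216 : ℕ)) / S) :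
    TriB PP.cur (farS κ (h0 * x) (tbl tKF x) (tbl tL x)) 1 1 2 0 1 (-1) (-1) :=
  (sideF hx hx').farB (Or.inr rfl) (Or.inr rfl) fun y y' F =>
    (lt_or_ge (h0 * (y + y')) 1).elim
      (fun g => farB_cert (s1 := false) (s2 := false) rfl hκ covF01 covF12a hx hx'
        Pool.Agent.Strip051.G.I1_32_3_64.Tab.C.FB01.c_mm_112_a noCut_B noExt_B F trivial g)
      (fun g => farB_cert (s1 := false) (s2 := false) rfl hκ covF01 covF12b hx hx'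
        Pool.Agent.Strip051.G.I1_32_3_64.Tab.C.FB01.c_mm_112_b noCut_B noExt_B F trivial g)

theorem FB01_mm_113 {κ x : ℝ} (hκ : κ * h0 = ken x) (hx : ((33554432 : ℕ) : ℝ) / S ≤ x) (hx' : x ≤ (((33554432 : ℕ) : ℝ) + (16777216 : ℕ)) / S) :
    TriB PP.cur (farS κ (h0 * x) (tbl tKF x) (tbl tL x)) 1 1 3 0 1 (-1) (-1) :=
  (sideF hx hx').farB (Or.inr rfl) (Or.inr rfl) fun y y' F =>
    farB_cert (s1 := false) (s2 := false) rfl hκ covF01 covF13 hx hx'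
        Pool.Agent.Strip051.G.I1_32_3_64.Tab.C.FB01.c_mm_113 noCut_B noExt_B F trivial trivial

theorem FB01_mm_123 {κ x : ℝ} (hκ : κ * h0 = ken x) (hx : ((33554432 : ℕ) : ℝ) / S ≤ x) (hx' : x ≤ (((33554432 : ℕ) : ℝ) + (16777216 : ℕ)) / S) :
    TriB PP.cur (farS κ (h0 * x) (tbl tKF x) (tbl tL x)) 1 2 3 0 1 (-1) (-1) :=
  (sideF hx hx').farB (Or.inr rfl) (Or.inr rfl) fun y y' F =>
    farB_cert (s1 := false) (s2 := false) rfl hκ covF01 covF13 hx hx'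
        Pool.Agent.Strip051.G.I1_32_3_64.Tab.C.FB01.c_mm_123 noCut_B noExt_B F trivial trivial

theorem FB01_mm_133 {κ x : ℝ} (hκ : κ * h0 = ken x) (hx : ((33554432 : ℕ) : ℝ) / S ≤ x) (hx' : x ≤ (((33554432 : ℕ) : ℝ) + (16777216 : ℕ)) / S) :
    TriB PP.cur (farS κ (h0 * x) (tbl tKF x) (tbl tL x)) 1 3 3 0 1 (-1) (-1) :=
  (sideF hx hx').farB (Or.inr rfl) (Or.inr rfl) fun y y' F =>
    farB_cert (s1 := false) (s2 := false) rfl hκ covF01 covF13 hx hx'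
        Pool.Agent.Strip051.G.I1_32_3_64.Tab.C.FB01.c_mm_133 noCut_B noExt_B F trivial trivial

theorem FB01_mm_202 {κ x : ℝ} (hκ : κ * h0 = ken x) (hx : ((33554432 : ℕ) : ℝ) / S ≤ x) (hx' : x ≤ (((33554432 : ℕ) : ℝ) + (16777216 : ℕ)) / S) :
    TriB PP.cur (farS κ (h0 * x) (tbl tKF x) (tbl tL x)) 2 0 2 0 1 (-1) (-1) :=
  (sideF hx hx').farB (Or.inr rfl) (Or.inr rfl) fun y y' F =>
    (lt_or_ge (h0 * (y + y')) 1).elim
      (fun g => farB_cert (s1 := false) (s2 := false) rfl hκ covF02 covF12a hx hx'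
        Pool.Agent.Strip051.G.I1_32_3_64.Tab.C.FB01.c_mm_202_a noCut_B noExt_B F trivial g)
      (fun g => farB_cert (s1 := false) (s2 := false) rfl hκ covF02 covF12b hx hx'
        Pool.Agent.Strip051.G.I1_32_3_64.Tab.C.FB01.c_mm_202_b noCut_B noExt_B F trivial g)

theorem FB01_mm_203 {κ x : ℝ} (hκ : κ * h0 = ken x) (hx : ((33554432 : ℕ) : ℝ) / S ≤ x) (hx' : x ≤ (((33554432 : ℕ) : ℝ) + (16777216 : ℕ)) / S) :
    TriB PP.cur (farS κ (h0 * x) (tbl tKF x) (tbl tL x)) 2 0 3 0 1 (-1) (-1) :=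
  (sideF hx hx').farB (Or.inr rfl) (Or.inr rfl) fun y y' F =>
    farB_cert (s1 := false) (s2 := false) rfl hκ covF02 covF13 hx hx'
        Pool.Agent.Strip051.G.I1_32_3_64.Tab.C.FB01.c_mm_203 noCut_B noExt_B F trivial trivial

theorem FB01_mm_213 {κ x : ℝ} (hκ : κ * h0 = ken x) (hx : ((33554432 : ℕ) : ℝ) / S ≤ x) (hx' : x ≤ (((33554432 : ℕ) : ℝ) + (16777216 : ℕ)) / S) :
    TriB PP.cur (farS κ (h0 * x) (tbl tKF x) (tbl tL x)) 2 1 3 0 1 (-1) (-1) :=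
  (sideF hx hx').farB (Or.inr rfl) (Or.inr rfl) fun y y' F =>
    farB_cert (s1 := false) (s2 := false) rfl hκ covF02 covF13 hx hx'
        Pool.Agent.Strip051.G.I1_32_3_64.Tab.C.FB01.c_mm_213 noCut_B noExt_B F trivial trivial

theorem FB01_mm_303 {κ x : ℝ} (hκ : κ * h0 = ken x) (hx : ((33554432 : ℕ) : ℝ) / S ≤ x) (hx' : x ≤ (((33554432 : ℕ) : ℝ) + (16777216 : ℕ)) / S) :
    TriB PP.cur (farS κ (h0 * x) (tbl tKF x) (tbl tL x)) 3 0 3 0 1 (-1) (-1) :=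
  triB_j0

theorem FB01_mm_313 {κ x : ℝ} (hκ : κ * h0 = ken x) (hx : ((33554432 : ℕ) : ℝ) / S ≤ x) (hx' : x ≤ (((33554432 : ℕ) : ℝ) + (16777216 : ℕ)) / S) :
    TriB PP.cur (farS κ (h0 * x) (tbl tKF x) (tbl tL x)) 3 1 3 0 1 (-1) (-1) :=
  triB_j0

theorem FB01 {κ x : ℝ} (hκ : κ * h0 = ken x) (hx : ((33554432 : ℕ) : ℝ) / S ≤ x) (hx' : x ≤ (((33554432 : ℕ) : ℝ) + (16777216 : ℕ)) / S) : AllTB PP.cur (farS κ (h0 * x) (tbl tKF x) (tbl tL x)) 0 1 where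
  pp := all17 (Q := fun a b c => TriB PP.cur (farS κ (h0 * x) (tbl tKF x) (tbl tL x)) a b c 0 1 1 1)
    (FB01_pp_001 hκ hx hx') (FB01_pp_011 hκ hx hx') (FB01_pp_012 hκ hx hx') (FB01_pp_022 hκ hx hx') (FB01_pp_023 hκ hx hx') (FB01_pp_033 hκ hx hx') (FB01_pp_101 hκ hx hx') (FB01_pp_102 hκ hx hx') (FB01_pp_112 hκ hx hx') (FB01_pp_113 hκ hx hx') (FB01_pp_123 hκ hx hx') (FB01_pp_133 hκ hx hx') (FB01_pp_202 hκ hx hx') (FB01_pp_203 hκ hx hx') (FB01_pp_213 hκ hx hx') (FB01_pp_303 hκ hx hx') (FB01_pp_313 hκ hx hx')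
  pm := all17 (Q := fun a b c => TriB PP.cur (farS κ (h0 * x) (tbl tKF x) (tbl tL x)) a b c 0 1 1 (-1))
    (FB01_pm_001 hκ hx hx') (FB01_pm_011 hκ hx hx') (FB01_pm_012 hκ hx hx') (FB01_pm_022 hκ hx hx') (FB01_pm_023 hκ hx hx') (FB01_pm_033 hκ hx hx') (FB01_pm_101 hκ hx hx') (FB01_pm_102 hκ hx hx') (FB01_pm_112 hκ hx hx') (FB01_pm_113 hκ hx hx') (FB01_pm_123 hκ hx hx') (FB01_pm_133 hκ hx hx') (FB01_pm_202 hκ hx hx') (FB01_pm_203 hκ hx hx') (FB01_pm_213 hκ hx hx') (FB01_pm_303 hκ hx hx') (FB01_pm_313 hκ hx hx')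
  mm := all17 (Q := fun a b c => TriB PP.cur (farS κ (h0 * x) (tbl tKF x) (tbl tL x)) a b c 0 1 (-1) (-1))
    (FB01_mm_001 hκ hx hx') (FB01_mm_011 hκ hx hx') (FB01_mm_012 hκ hx hx') (FB01_mm_022 hκ hx hx') (FB01_mm_023 hκ hx hx') (FB01_mm_033 hκ hx hx') (FB01_mm_101 hκ hx hx') (FB01_mm_102 hκ hx hx') (FB01_mm_112 hκ hx hx') (FB01_mm_113 hκ hx hx') (FB01_mm_123 hκ hx hx') (FB01_mm_133 hκ hx hx') (FB01_mm_202 hκ hx hx') (FB01_mm_203 hκ hx hx') (FB01_mm_213 hκ hx hx') (FB01_mm_303 hκ hx hx') (FB01_mm_313 hκ hx hx')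

theorem FB02_pp_001 {κ x : ℝ} (hκ : κ * h0 = ken x) (hx : ((33554432 : ℕ) : ℝ) / S ≤ x) (hx' : x ≤ (((33554432 : ℕ) : ℝ) + (16777216 : ℕ)) / S) :
    TriB PP.cur (farS κ (h0 * x) (tbl tKF x) (tbl tL x)) 0 0 1 0 2 1 1 :=
  (sideF hx hx').farB (Or.inl rfl) (Or.inl rfl) fun y y' F =>
    farB_cert (s1 := true) (s2 := true) rfl hκ covF00 covF21 hx hx'
        Pool.Agent.Strip051.G.I1_32_3_64.Tab.C.FB02.c_pp_001 noCut_B noExt_B F trivial trivial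

theorem FB02_pp_011 {κ x : ℝ} (hκ : κ * h0 = ken x) (hx : ((33554432 : ℕ) : ℝ) / S ≤ x) (hx' : x ≤ (((33554432 : ℕ) : ℝ) + (16777216 : ℕ)) / S) :
    TriB PP.cur (farS κ (h0 * x) (tbl tKF x) (tbl tL x)) 0 1 1 0 2 1 1 :=
  (sideF hx hx').farB (Or.inl rfl) (Or.inl rfl) fun y y' F =>
    farB_cert (s1 := true) (s2 := true) rfl hκ covF00 covF21 hx hx'
        Pool.Agent.Strip051.G.I1_32_3_64.Tab.C.FB02.c_pp_011 (cutB_cons (Pool.Agent.Strip051.G.I1_32_3_64.Tab.altF_B011L_02 hκ hx hx') cutB_nil) noExt_B F trivial trivial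

theorem FB02_pp_012 {κ x : ℝ} (hκ : κ * h0 = ken x) (hx : ((33554432 : ℕ) : ℝ) / S ≤ x) (hx' : x ≤ (((33554432 : ℕ) : ℝ) + (16777216 : ℕ)) / S) :
    TriB PP.cur (farS κ (h0 * x) (tbl tKF x) (tbl tL x)) 0 1 2 0 2 1 1 :=
  (sideF hx hx').farB (Or.inl rfl) (Or.inl rfl) fun y y' F =>
    (lt_or_ge (h0 * (y + y')) 1).elim
      (fun g => farB_cert (s1 := true) (s2 := true) rfl hκ covF00 covF22a hx hx'
        Pool.Agent.Strip051.G.I1_32_3_64.Tab.C.FB02.c_pp_012_a (cutB_cons (Pool.Agent.Strip051.G.I1_32_3_64.Tab.altF_B012E_02 hκ hx hx') (cutB_cons (Pool.Agent.Strip051.G.I1_32_3_64.Tab.Mo.molF_B_012_02_4 hκ hx hx') cutB_nil)) noExt_B F trivial g)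
      (fun g => farB_cert (s1 := true) (s2 := true) rfl hκ covF00 covF22b hx hx'
        Pool.Agent.Strip051.G.I1_32_3_64.Tab.C.FB02.c_pp_012_b (cutB_cons (Pool.Agent.Strip051.G.I1_32_3_64.Tab.altF_B012E_02 hκ hx hx') (cutB_cons (Pool.Agent.Strip051.G.I1_32_3_64.Tab.Mo.molF_B_012_02_4 hκ hx hx') cutB_nil)) noExt_B F trivial g)

theorem FB02_pp_022 {κ x : ℝ} (hκ : κ * h0 = ken x) (hx : ((33554432 : ℕ) : ℝ) / S ≤ x) (hx' : x ≤ (((33554432 : ℕ) : ℝ) + (16777216 : ℕ)) / S) :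
    TriB PP.cur (farS κ (h0 * x) (tbl tKF x) (tbl tL x)) 0 2 2 0 2 1 1 :=
  (sideF hx hx').farB (Or.inl rfl) (Or.inl rfl) fun y y' F =>
    (lt_or_ge (h0 * (y + y')) 1).elim
      (fun g => farB_cert (s1 := true) (s2 := true) rfl hκ covF00 covF22a hx hx'
        Pool.Agent.Strip051.G.I1_32_3_64.Tab.C.FB02.c_pp_022_a (cutB_cons (Pool.Agent.Strip051.G.I1_32_3_64.Tab.altF_B022E_02 hκ hx hx') (cutB_cons (Pool.Agent.Strip051.G.I1_32_3_64.Tab.Mo.molF_B_022_02_4 hκ hx hx') cutB_nil)) noExt_B F trivial g)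
      (fun g => farB_cert (s1 := true) (s2 := true) rfl hκ covF00 covF22b hx hx'
        Pool.Agent.Strip051.G.I1_32_3_64.Tab.C.FB02.c_pp_022_b (cutB_cons (Pool.Agent.Strip051.G.I1_32_3_64.Tab.altF_B022E_02 hκ hx hx') (cutB_cons (Pool.Agent.Strip051.G.I1_32_3_64.Tab.Mo.molF_B_022_02_4 hκ hx hx') cutB_nil)) noExt_B F trivial g)

theorem FB02_pp_023 {κ x : ℝ} (hκ : κ * h0 = ken x) (hx : ((33554432 : ℕ) : ℝ) / S ≤ x) (hx' : x ≤ (((33554432 : ℕ) : ℝ) + (16777216 : ℕ)) / S) :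
    TriB PP.cur (farS κ (h0 * x) (tbl tKF x) (tbl tL x)) 0 2 3 0 2 1 1 :=
  (sideF hx hx').farB (Or.inl rfl) (Or.inl rfl) fun y y' F =>
    farB_cert (s1 := true) (s2 := true) rfl hκ covF00 covF23 hx hx'
        Pool.Agent.Strip051.G.I1_32_3_64.Tab.C.FB02.c_pp_023 noCut_B noExt_B F trivial trivial

theorem FB02_pp_033 {κ x : ℝ} (hκ : κ * h0 = ken x) (hx : ((33554432 : ℕ) : ℝ) / S ≤ x) (hx' : x ≤ (((33554432 : ℕ) : ℝ) + (16777216 : ℕ)) / S) :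
    TriB PP.cur (farS κ (h0 * x) (tbl tKF x) (tbl tL x)) 0 3 3 0 2 1 1 :=
  (sideF hx hx').farB (Or.inl rfl) (Or.inl rfl) fun y y' F =>
    farB_cert (s1 := true) (s2 := true) rfl hκ covF00 covF23 hx hx'
        Pool.Agent.Strip051.G.I1_32_3_64.Tab.C.FB02.c_pp_033 noCut_B noExt_B F trivial trivial

theorem FB02_pp_101 {κ x : ℝ} (hκ : κ * h0 = ken x) (hx : ((33554432 : ℕ) : ℝ) / S ≤ x) (hx' : x ≤ (((33554432 : ℕ) : ℝ) + (16777216 : ℕ)) / S) :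
    TriB PP.cur (farS κ (h0 * x) (tbl tKF x) (tbl tL x)) 1 0 1 0 2 1 1 :=
  (sideF hx hx').farB (Or.inl rfl) (Or.inl rfl) fun y y' F =>
    farB_cert (s1 := true) (s2 := true) rfl hκ covF01 covF21 hx hx'
        Pool.Agent.Strip051.G.I1_32_3_64.Tab.C.FB02.c_pp_101 noCut_B noExt_B F trivial trivial

theorem FB02_pp_102 {κ x : ℝ} (hκ : κ * h0 = ken x) (hx : ((33554432 : ℕ) : ℝ) / S ≤ x) (hx' : x ≤ (((33554432 : ℕ) : ℝ) + (16777216 : ℕ)) / S) :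
    TriB PP.cur (farS κ (h0 * x) (tbl tKF x) (tbl tL x)) 1 0 2 0 2 1 1 :=
  (sideF hx hx').farB (Or.inl rfl) (Or.inl rfl) fun y y' F =>
    (lt_or_ge (h0 * (y + y')) 1).elim
      (fun g => farB_cert (s1 := true) (s2 := true) rfl hκ covF01 covF22a hx hx'
        Pool.Agent.Strip051.G.I1_32_3_64.Tab.C.FB02.c_pp_102_a noCut_B noExt_B F trivial g)
      (fun g => farB_cert (s1 := true) (s2 := true) rfl hκ covF01 covF22b hx hx'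
        Pool.Agent.Strip051.G.I1_32_3_64.Tab.C.FB02.c_pp_102_b noCut_B noExt_B F trivial g)

theorem FB02_pp_112 {κ x : ℝ} (hκ : κ * h0 = ken x) (hx : ((33554432 : ℕ) : ℝ) / S ≤ x) (hx' : x ≤ (((33554432 : ℕ) : ℝ) + (16777216 : ℕ)) / S) :
    TriB PP.cur (farS κ (h0 * x) (tbl tKF x) (tbl tL x)) 1 1 2 0 2 1 1 :=
  (sideF hx hx').farB (Or.inl rfl) (Or.inl rfl) fun y y' F =>
    (lt_or_ge (h0 * (y + y')) 1).elim
      (fun g => farB_cert (s1 := true) (s2 := true) rfl hκ covF01 covF22a hx hx'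
        Pool.Agent.Strip051.G.I1_32_3_64.Tab.C.FB02.c_pp_112_a noCut_B noExt_B F trivial g)
      (fun g => farB_cert (s1 := true) (s2 := true) rfl hκ covF01 covF22b hx hx'
        Pool.Agent.Strip051.G.I1_32_3_64.Tab.C.FB02.c_pp_112_b noCut_B noExt_B F trivial g)

theorem FB02_pp_113 {κ x : ℝ} (hκ : κ * h0 = ken x) (hx : ((33554432 : ℕ) : ℝ) / S ≤ x) (hx' : x ≤ (((33554432 : ℕ) : ℝ) + (16777216 : ℕ)) / S) :
    TriB PP.cur (farS κ (h0 * x) (tbl tKF x) (tbl tL x)) 1 1 3 0 2 1 1 :=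
  (sideF hx hx').farB (Or.inl rfl) (Or.inl rfl) fun y y' F =>
    farB_cert (s1 := true) (s2 := true) rfl hκ covF01 covF23 hx hx'
        Pool.Agent.Strip051.G.I1_32_3_64.Tab.C.FB02.c_pp_113 (cutB_cons (Pool.Agent.Strip051.G.I1_32_3_64.Tab.alt12F_B113_02p hκ hx hx') cutB_nil) noExt_B F trivial trivial

theorem FB02_pp_123 {κ x : ℝ} (hκ : κ * h0 = ken x) (hx : ((33554432 : ℕ) : ℝ) / S ≤ x) (hx' : x ≤ (((33554432 : ℕ) : ℝ) + (16777216 : ℕ)) / S) :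
    TriB PP.cur (farS κ (h0 * x) (tbl tKF x) (tbl tL x)) 1 2 3 0 2 1 1 :=
  (sideF hx hx').farB (Or.inl rfl) (Or.inl rfl) fun y y' F =>
    farB_cert (s1 := true) (s2 := true) rfl hκ covF01 covF23 hx hx'
        Pool.Agent.Strip051.G.I1_32_3_64.Tab.C.FB02.c_pp_123 (cutB_cons (Pool.Agent.Strip051.G.I1_32_3_64.Tab.alt12F_B123_02p hκ hx hx') cutB_nil) noExt_B F trivial trivial

theorem FB02_pp_133 {κ x : ℝ} (hκ : κ * h0 = ken x) (hx : ((33554432 : ℕ) : ℝ) / S ≤ x) (hx' : x ≤ (((33554432 : ℕ) : ℝ) + (16777216 : ℕ)) / S) :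
    TriB PP.cur (farS κ (h0 * x) (tbl tKF x) (tbl tL x)) 1 3 3 0 2 1 1 :=
  (sideF hx hx').farB (Or.inl rfl) (Or.inl rfl) fun y y' F =>
    farB_cert (s1 := true) (s2 := true) rfl hκ covF01 covF23 hx hx'
        Pool.Agent.Strip051.G.I1_32_3_64.Tab.C.FB02.c_pp_133 noCut_B noExt_B F trivial trivial

theorem FB02_pp_202 {κ x : ℝ} (hκ : κ * h0 = ken x) (hx : ((33554432 : ℕ) : ℝ) / S ≤ x) (hx' : x ≤ (((33554432 : ℕ) : ℝ) + (16777216 : ℕ)) / S) :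
    TriB PP.cur (farS κ (h0 * x) (tbl tKF x) (tbl tL x)) 2 0 2 0 2 1 1 :=
  (sideF hx hx').farB (Or.inl rfl) (Or.inl rfl) fun y y' F =>
    (lt_or_ge (h0 * (y + y')) 1).elim
      (fun g => farB_cert (s1 := true) (s2 := true) rfl hκ covF02 covF22a hx hx'
        Pool.Agent.Strip051.G.I1_32_3_64.Tab.C.FB02.c_pp_202_a noCut_B noExt_B F trivial g)
      (fun g => farB_cert (s1 := true) (s2 := true) rfl hκ covF02 covF22b hx hx'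
        Pool.Agent.Strip051.G.I1_32_3_64.Tab.C.FB02.c_pp_202_b noCut_B noExt_B F trivial g)

theorem FB02_pp_203 {κ x : ℝ} (hκ : κ * h0 = ken x) (hx : ((33554432 : ℕ) : ℝ) / S ≤ x) (hx' : x ≤ (((33554432 : ℕ) : ℝ) + (16777216 : ℕ)) / S) :
    TriB PP.cur (farS κ (h0 * x) (tbl tKF x) (tbl tL x)) 2 0 3 0 2 1 1 :=
  (sideF hx hx').farB (Or.inl rfl) (Or.inl rfl) fun y y' F =>
    farB_cert (s1 := true) (s2 := true) rfl hκ covF02 covF23 hx hx'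
        Pool.Agent.Strip051.G.I1_32_3_64.Tab.C.FB02.c_pp_203 noCut_B noExt_B F trivial trivial

theorem FB02_pp_213 {κ x : ℝ} (hκ : κ * h0 = ken x) (hx : ((33554432 : ℕ) : ℝ) / S ≤ x) (hx' : x ≤ (((33554432 : ℕ) : ℝ) + (16777216 : ℕ)) / S) :
    TriB PP.cur (farS κ (h0 * x) (tbl tKF x) (tbl tL x)) 2 1 3 0 2 1 1 :=
  (sideF hx hx').farB (Or.inl rfl) (Or.inl rfl) fun y y' F =>
    farB_cert (s1 := true) (s2 := true) rfl hκ covF02 covF23 hx hx'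
        Pool.Agent.Strip051.G.I1_32_3_64.Tab.C.FB02.c_pp_213 (cutB_cons (Pool.Agent.Strip051.G.I1_32_3_64.Tab.alt12F_B213_02p hκ hx hx') cutB_nil) noExt_B F trivial trivial

theorem FB02_pp_303 {κ x : ℝ} (hκ : κ * h0 = ken x) (hx : ((33554432 : ℕ) : ℝ) / S ≤ x) (hx' : x ≤ (((33554432 : ℕ) : ℝ) + (16777216 : ℕ)) / S) :
    TriB PP.cur (farS κ (h0 * x) (tbl tKF x) (tbl tL x)) 3 0 3 0 2 1 1 :=
  triB_j0

theorem FB02_pp_313 {κ x : ℝ} (hκ : κ * h0 = ken x) (hx : ((33554432 : ℕ) : ℝ) / S ≤ x) (hx' : x ≤ (((33554432 : ℕ) : ℝ) + (16777216 : ℕ)) / S) :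
    TriB PP.cur (farS κ (h0 * x) (tbl tKF x) (tbl tL x)) 3 1 3 0 2 1 1 :=
  triB_j0

theorem FB02_pm_001 {κ x : ℝ} (hκ : κ * h0 = ken x) (hx : ((33554432 : ℕ) : ℝ) / S ≤ x) (hx' : x ≤ (((33554432 : ℕ) : ℝ) + (16777216 : ℕ)) / S) :
    TriB PP.cur (farS κ (h0 * x) (tbl tKF x) (tbl tL x)) 0 0 1 0 2 1 (-1) :=
  (sideF hx hx').farB (Or.inl rfl) (Or.inr rfl) fun y y' F =>
    farB_cert (s1 := true) (s2 := false) rfl hκ covF00 covF21 hx hx'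
        Pool.Agent.Strip051.G.I1_32_3_64.Tab.C.FB02.c_pm_001 noCut_B noExt_B F trivial trivial

theorem FB02_pm_011 {κ x : ℝ} (hκ : κ * h0 = ken x) (hx : ((33554432 : ℕ) : ℝ) / S ≤ x) (hx' : x ≤ (((33554432 : ℕ) : ℝ) + (16777216 : ℕ)) / S) :
    TriB PP.cur (farS κ (h0 * x) (tbl tKF x) (tbl tL x)) 0 1 1 0 2 1 (-1) :=
  (sideF hx hx').farB (Or.inl rfl) (Or.inr rfl) fun y y' F =>
    farB_cert (s1 := true) (s2 := false) rfl hκ covF00 covF21 hx hx'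
        Pool.Agent.Strip051.G.I1_32_3_64.Tab.C.FB02.c_pm_011 noCut_B noExt_B F trivial trivial

theorem FB02_pm_012 {κ x : ℝ} (hκ : κ * h0 = ken x) (hx : ((33554432 : ℕ) : ℝ) / S ≤ x) (hx' : x ≤ (((33554432 : ℕ) : ℝ) + (16777216 : ℕ)) / S) :
    TriB PP.cur (farS κ (h0 * x) (tbl tKF x) (tbl tL x)) 0 1 2 0 2 1 (-1) :=
  (sideF hx hx').farB (Or.inl rfl) (Or.inr rfl) fun y y' F =>
    (lt_or_ge (h0 * (y + y')) 1).elim
      (fun g => farB_cert (s1 := true) (s2 := false) rfl hκ covF00 covF22a hx hx'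
        Pool.Agent.Strip051.G.I1_32_3_64.Tab.C.FB02.c_pm_012_a (cutB_cons (Pool.Agent.Strip051.G.I1_32_3_64.Tab.altF_B012R_02 hκ hx hx') (cutB_cons (Pool.Agent.Strip051.G.I1_32_3_64.Tab.Mo.molF_B_012_02_0 hκ hx hx') cutB_nil)) noExt_B F trivial g)
      (fun g => farB_cert (s1 := true) (s2 := false) rfl hκ covF00 covF22b hx hx'
        Pool.Agent.Strip051.G.I1_32_3_64.Tab.C.FB02.c_pm_012_b (cutB_cons (Pool.Agent.Strip051.G.I1_32_3_64.Tab.altF_B012R_02 hκ hx hx') (cutB_cons (Pool.Agent.Strip051.G.I1_32_3_64.Tab.Mo.molF_B_012_02_0 hκ hx hx') cutB_nil)) noExt_B F trivial g)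

theorem FB02_pm_022 {κ x : ℝ} (hκ : κ * h0 = ken x) (hx : ((33554432 : ℕ) : ℝ) / S ≤ x) (hx' : x ≤ (((33554432 : ℕ) : ℝ) + (16777216 : ℕ)) / S) :
    TriB PP.cur (farS κ (h0 * x) (tbl tKF x) (tbl tL x)) 0 2 2 0 2 1 (-1) :=
  (sideF hx hx').farB (Or.inl rfl) (Or.inr rfl) fun y y' F =>
    (lt_or_ge (h0 * (y + y')) 1).elim
      (fun g => farB_cert (s1 := true) (s2 := false) rfl hκ covF00 covF22a hx hx'
        Pool.Agent.Strip051.G.I1_32_3_64.Tab.C.FB02.c_pm_022_a (cutB_cons (Pool.Agent.Strip051.G.I1_32_3_64.Tab.altF_B022R_02 hκ hx hx') cutB_nil) noExt_B F trivial g)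
      (fun g => farB_cert (s1 := true) (s2 := false) rfl hκ covF00 covF22b hx hx'
        Pool.Agent.Strip051.G.I1_32_3_64.Tab.C.FB02.c_pm_022_b (cutB_cons (Pool.Agent.Strip051.G.I1_32_3_64.Tab.altF_B022R_02 hκ hx hx') cutB_nil) noExt_B F trivial g)

theorem FB02_pm_023 {κ x : ℝ} (hκ : κ * h0 = ken x) (hx : ((33554432 : ℕ) : ℝ) / S ≤ x) (hx' : x ≤ (((33554432 : ℕ) : ℝ) + (16777216 : ℕ)) / S) :
    TriB PP.cur (farS κ (h0 * x) (tbl tKF x) (tbl tL x)) 0 2 3 0 2 1 (-1) :=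
  (sideF hx hx').farB (Or.inl rfl) (Or.inr rfl) fun y y' F =>
    farB_cert (s1 := true) (s2 := false) rfl hκ covF00 covF23 hx hx'
        Pool.Agent.Strip051.G.I1_32_3_64.Tab.C.FB02.c_pm_023 noCut_B noExt_B F trivial trivial

theorem FB02_pm_033 {κ x : ℝ} (hκ : κ * h0 = ken x) (hx : ((33554432 : ℕ) : ℝ) / S ≤ x) (hx' : x ≤ (((33554432 : ℕ) : ℝ) + (16777216 : ℕ)) / S) :
    TriB PP.cur (farS κ (h0 * x) (tbl tKF x) (tbl tL x)) 0 3 3 0 2 1 (-1) :=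
  (sideF hx hx').farB (Or.inl rfl) (Or.inr rfl) fun y y' F =>
    farB_cert (s1 := true) (s2 := false) rfl hκ covF00 covF23 hx hx'
        Pool.Agent.Strip051.G.I1_32_3_64.Tab.C.FB02.c_pm_033 noCut_B noExt_B F trivial trivial

theorem FB02_pm_101 {κ x : ℝ} (hκ : κ * h0 = ken x) (hx : ((33554432 : ℕ) : ℝ) / S ≤ x) (hx' : x ≤ (((33554432 : ℕ) : ℝ) + (16777216 : ℕ)) / S) :
    TriB PP.cur (farS κ (h0 * x) (tbl tKF x) (tbl tL x)) 1 0 1 0 2 1 (-1) :=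
  (sideF hx hx').farB (Or.inl rfl) (Or.inr rfl) fun y y' F =>
    farB_cert (s1 := true) (s2 := false) rfl hκ covF01 covF21 hx hx'
        Pool.Agent.Strip051.G.I1_32_3_64.Tab.C.FB02.c_pm_101 noCut_B noExt_B F trivial trivial

theorem FB02_pm_102 {κ x : ℝ} (hκ : κ * h0 = ken x) (hx : ((33554432 : ℕ) : ℝ) / S ≤ x) (hx' : x ≤ (((33554432 : ℕ) : ℝ) + (16777216 : ℕ)) / S) :
    TriB PP.cur (farS κ (h0 * x) (tbl tKF x) (tbl tL x)) 1 0 2 0 2 1 (-1) :=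
  (sideF hx hx').farB (Or.inl rfl) (Or.inr rfl) fun y y' F =>
    (lt_or_ge (h0 * (y + y')) 1).elim
      (fun g => farB_cert (s1 := true) (s2 := false) rfl hκ covF01 covF22a hx hx'
        Pool.Agent.Strip051.G.I1_32_3_64.Tab.C.FB02.c_pm_102_a (cutB_cons (Pool.Agent.Strip051.G.I1_32_3_64.Tab.altF_B102E_02 hκ hx hx') (cutB_cons (Pool.Agent.Strip051.G.I1_32_3_64.Tab.Mo.molF_B_102_02_5 hκ hx hx') cutB_nil)) noExt_B F trivial g)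
      (fun g => farB_cert (s1 := true) (s2 := false) rfl hκ covF01 covF22b hx hx'
        Pool.Agent.Strip051.G.I1_32_3_64.Tab.C.FB02.c_pm_102_b (cutB_cons (Pool.Agent.Strip051.G.I1_32_3_64.Tab.altF_B102E_02 hκ hx hx') (cutB_cons (Pool.Agent.Strip051.G.I1_32_3_64.Tab.Mo.molF_B_102_02_5 hκ hx hx') cutB_nil)) noExt_B F trivial g)

theorem FB02_pm_112 {κ x : ℝ} (hκ : κ * h0 = ken x) (hx : ((33554432 : ℕ) : ℝ) / S ≤ x) (hx' : x ≤ (((33554432 : ℕ) : ℝ) + (16777216 : ℕ)) / S) :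
    TriB PP.cur (farS κ (h0 * x) (tbl tKF x) (tbl tL x)) 1 1 2 0 2 1 (-1) :=
  (sideF hx hx').farB (Or.inl rfl) (Or.inr rfl) fun y y' F =>
    (lt_or_ge (h0 * (y + y')) 1).elim
      (fun g => farB_cert (s1 := true) (s2 := false) rfl hκ covF01 covF22a hx hx'
        Pool.Agent.Strip051.G.I1_32_3_64.Tab.C.FB02.c_pm_112_a noCut_B noExt_B F trivial g)
      (fun g => farB_cert (s1 := true) (s2 := false) rfl hκ covF01 covF22b hx hx'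
        Pool.Agent.Strip051.G.I1_32_3_64.Tab.C.FB02.c_pm_112_b noCut_B noExt_B F trivial g)

theorem FB02_pm_113 {κ x : ℝ} (hκ : κ * h0 = ken x) (hx : ((33554432 : ℕ) : ℝ) / S ≤ x) (hx' : x ≤ (((33554432 : ℕ) : ℝ) + (16777216 : ℕ)) / S) :
    TriB PP.cur (farS κ (h0 * x) (tbl tKF x) (tbl tL x)) 1 1 3 0 2 1 (-1) :=
  (sideF hx hx').farB (Or.inl rfl) (Or.inr rfl) fun y y' F =>
    farB_cert (s1 := true) (s2 := false) rfl hκ covF01 covF23 hx hx'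
        Pool.Agent.Strip051.G.I1_32_3_64.Tab.C.FB02.c_pm_113 (cutB_cons (Pool.Agent.Strip051.G.I1_32_3_64.Tab.alt12F_B113_02m hκ hx hx') cutB_nil) noExt_B F trivial trivial

theorem FB02_pm_123 {κ x : ℝ} (hκ : κ * h0 = ken x) (hx : ((33554432 : ℕ) : ℝ) / S ≤ x) (hx' : x ≤ (((33554432 : ℕ) : ℝ) + (16777216 : ℕ)) / S) :
    TriB PP.cur (farS κ (h0 * x) (tbl tKF x) (tbl tL x)) 1 2 3 0 2 1 (-1) :=
  (sideF hx hx').farB (Or.inl rfl) (Or.inr rfl) fun y y' F =>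
    farB_cert (s1 := true) (s2 := false) rfl hκ covF01 covF23 hx hx'
        Pool.Agent.Strip051.G.I1_32_3_64.Tab.C.FB02.c_pm_123 (cutB_cons (Pool.Agent.Strip051.G.I1_32_3_64.Tab.alt12F_B123_02m hκ hx hx') cutB_nil) noExt_B F trivial trivial

theorem FB02_pm_133 {κ x : ℝ} (hκ : κ * h0 = ken x) (hx : ((33554432 : ℕ) : ℝ) / S ≤ x) (hx' : x ≤ (((33554432 : ℕ) : ℝ) + (16777216 : ℕ)) / S) :
    TriB PP.cur (farS κ (h0 * x) (tbl tKF x) (tbl tL x)) 1 3 3 0 2 1 (-1) :=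
  (sideF hx hx').farB (Or.inl rfl) (Or.inr rfl) fun y y' F =>
    farB_cert (s1 := true) (s2 := false) rfl hκ covF01 covF23 hx hx'
        Pool.Agent.Strip051.G.I1_32_3_64.Tab.C.FB02.c_pm_133 noCut_B noExt_B F trivial trivial

theorem FB02_pm_202 {κ x : ℝ} (hκ : κ * h0 = ken x) (hx : ((33554432 : ℕ) : ℝ) / S ≤ x) (hx' : x ≤ (((33554432 : ℕ) : ℝ) + (16777216 : ℕ)) / S) :
    TriB PP.cur (farS κ (h0 * x) (tbl tKF x) (tbl tL x)) 2 0 2 0 2 1 (-1) :=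
  (sideF hx hx').farB (Or.inl rfl) (Or.inr rfl) fun y y' F =>
    (lt_or_ge (h0 * (y + y')) 1).elim
      (fun g => farB_cert (s1 := true) (s2 := false) rfl hκ covF02 covF22a hx hx'
        Pool.Agent.Strip051.G.I1_32_3_64.Tab.C.FB02.c_pm_202_a (cutB_cons (Pool.Agent.Strip051.G.I1_32_3_64.Tab.altF_B202E_02 hκ hx hx') (cutB_cons (Pool.Agent.Strip051.G.I1_32_3_64.Tab.Mo.molF_B_202_02_5 hκ hx hx') cutB_nil)) noExt_B F trivial g)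
      (fun g => farB_cert (s1 := true) (s2 := false) rfl hκ covF02 covF22b hx hx'
        Pool.Agent.Strip051.G.I1_32_3_64.Tab.C.FB02.c_pm_202_b (cutB_cons (Pool.Agent.Strip051.G.I1_32_3_64.Tab.altF_B202E_02 hκ hx hx') (cutB_cons (Pool.Agent.Strip051.G.I1_32_3_64.Tab.Mo.molF_B_202_02_5 hκ hx hx') cutB_nil)) noExt_B F trivial g)

theorem FB02_pm_203 {κ x : ℝ} (hκ : κ * h0 = ken x) (hx : ((33554432 : ℕ) : ℝ) / S ≤ x) (hx' : x ≤ (((33554432 : ℕ) : ℝ) + (16777216 : ℕ)) / S) :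
    TriB PP.cur (farS κ (h0 * x) (tbl tKF x) (tbl tL x)) 2 0 3 0 2 1 (-1) :=
  (sideF hx hx').farB (Or.inl rfl) (Or.inr rfl) fun y y' F =>
    farB_cert (s1 := true) (s2 := false) rfl hκ covF02 covF23 hx hx'
        Pool.Agent.Strip051.G.I1_32_3_64.Tab.C.FB02.c_pm_203 noCut_B noExt_B F trivial trivial

theorem FB02_pm_213 {κ x : ℝ} (hκ : κ * h0 = ken x) (hx : ((33554432 : ℕ) : ℝ) / S ≤ x) (hx' : x ≤ (((33554432 : ℕ) : ℝ) + (16777216 : ℕ)) / S) :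
    TriB PP.cur (farS κ (h0 * x) (tbl tKF x) (tbl tL x)) 2 1 3 0 2 1 (-1) :=
  (sideF hx hx').farB (Or.inl rfl) (Or.inr rfl) fun y y' F =>
    farB_cert (s1 := true) (s2 := false) rfl hκ covF02 covF23 hx hx'
        Pool.Agent.Strip051.G.I1_32_3_64.Tab.C.FB02.c_pm_213 (cutB_cons (Pool.Agent.Strip051.G.I1_32_3_64.Tab.alt12F_B213_02m hκ hx hx') cutB_nil) noExt_B F trivial trivial

theorem FB02_pm_303 {κ x : ℝ} (hκ : κ * h0 = ken x) (hx : ((33554432 : ℕ) : ℝ) / S ≤ x) (hx' : x ≤ (((33554432 : ℕ) : ℝ) + (16777216 : ℕ)) / S) :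
    TriB PP.cur (farS κ (h0 * x) (tbl tKF x) (tbl tL x)) 3 0 3 0 2 1 (-1) :=
  triB_j0

theorem FB02_pm_313 {κ x : ℝ} (hκ : κ * h0 = ken x) (hx : ((33554432 : ℕ) : ℝ) / S ≤ x) (hx' : x ≤ (((33554432 : ℕ) : ℝ) + (16777216 : ℕ)) / S) :
    TriB PP.cur (farS κ (h0 * x) (tbl tKF x) (tbl tL x)) 3 1 3 0 2 1 (-1) :=
  triB_j0

theorem FB02_mm_001 {κ x : ℝ} (hκ : κ * h0 = ken x) (hx : ((33554432 : ℕ) : ℝ) / S ≤ x) (hx' : x ≤ (((33554432 : ℕ) : ℝ) + (16777216 : ℕ)) / S) :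
    TriB PP.cur (farS κ (h0 * x) (tbl tKF x) (tbl tL x)) 0 0 1 0 2 (-1) (-1) :=
  (sideF hx hx').farB (Or.inr rfl) (Or.inr rfl) fun y y' F =>
    farB_cert (s1 := false) (s2 := false) rfl hκ covF00 covF21 hx hx'
        Pool.Agent.Strip051.G.I1_32_3_64.Tab.C.FB02.c_mm_001 noCut_B noExt_B F trivial trivial

theorem FB02_mm_011 {κ x : ℝ} (hκ : κ * h0 = ken x) (hx : ((33554432 : ℕ) : ℝ) / S ≤ x) (hx' : x ≤ (((33554432 : ℕ) : ℝ) + (16777216 : ℕ)) / S) :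
    TriB PP.cur (farS κ (h0 * x) (tbl tKF x) (tbl tL x)) 0 1 1 0 2 (-1) (-1) :=
  (sideF hx hx').farB (Or.inr rfl) (Or.inr rfl) fun y y' F =>
    farB_cert (s1 := false) (s2 := false) rfl hκ covF00 covF21 hx hx'
        Pool.Agent.Strip051.G.I1_32_3_64.Tab.C.FB02.c_mm_011 noCut_B noExt_B F trivial trivial

theorem FB02_mm_012 {κ x : ℝ} (hκ : κ * h0 = ken x) (hx : ((33554432 : ℕ) : ℝ) / S ≤ x) (hx' : x ≤ (((33554432 : ℕ) : ℝ) + (16777216 : ℕ)) / S) :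
    TriB PP.cur (farS κ (h0 * x) (tbl tKF x) (tbl tL x)) 0 1 2 0 2 (-1) (-1) :=
  (sideF hx hx').farB (Or.inr rfl) (Or.inr rfl) fun y y' F =>
    (lt_or_ge (h0 * (y + y')) 1).elim
      (fun g => farB_cert (s1 := false) (s2 := false) rfl hκ covF00 covF22a hx hx'
        Pool.Agent.Strip051.G.I1_32_3_64.Tab.C.FB02.c_mm_012_a noCut_B noExt_B F trivial g)
      (fun g => farB_cert (s1 := false) (s2 := false) rfl hκ covF00 covF22b hx hx'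
        Pool.Agent.Strip051.G.I1_32_3_64.Tab.C.FB02.c_mm_012_b noCut_B noExt_B F trivial g)

theorem FB02_mm_022 {κ x : ℝ} (hκ : κ * h0 = ken x) (hx : ((33554432 : ℕ) : ℝ) / S ≤ x) (hx' : x ≤ (((33554432 : ℕ) : ℝ) + (16777216 : ℕ)) / S) :
    TriB PP.cur (farS κ (h0 * x) (tbl tKF x) (tbl tL x)) 0 2 2 0 2 (-1) (-1) :=
  (sideF hx hx').farB (Or.inr rfl) (Or.inr rfl) fun y y' F =>
    (lt_or_ge (h0 * (y + y')) 1).elim
      (fun g => farB_cert (s1 := false) (s2 := false) rfl hκ covF00 covF22a hx hx'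
        Pool.Agent.Strip051.G.I1_32_3_64.Tab.C.FB02.c_mm_022_a noCut_B noExt_B F trivial g)
      (fun g => farB_cert (s1 := false) (s2 := false) rfl hκ covF00 covF22b hx hx'
        Pool.Agent.Strip051.G.I1_32_3_64.Tab.C.FB02.c_mm_022_b noCut_B noExt_B F trivial g)

theorem FB02_mm_023 {κ x : ℝ} (hκ : κ * h0 = ken x) (hx : ((33554432 : ℕ) : ℝ) / S ≤ x) (hx' : x ≤ (((33554432 : ℕ) : ℝ) + (16777216 : ℕ)) / S) :
    TriB PP.cur (farS κ (h0 * x) (tbl tKF x) (tbl tL x)) 0 2 3 0 2 (-1) (-1) :=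
  (sideF hx hx').farB (Or.inr rfl) (Or.inr rfl) fun y y' F =>
    farB_cert (s1 := false) (s2 := false) rfl hκ covF00 covF23 hx hx'
        Pool.Agent.Strip051.G.I1_32_3_64.Tab.C.FB02.c_mm_023 noCut_B noExt_B F trivial trivial

theorem FB02_mm_033 {κ x : ℝ} (hκ : κ * h0 = ken x) (hx : ((33554432 : ℕ) : ℝ) / S ≤ x) (hx' : x ≤ (((33554432 : ℕ) : ℝ) + (16777216 : ℕ)) / S) :
    TriB PP.cur (farS κ (h0 * x) (tbl tKF x) (tbl tL x)) 0 3 3 0 2 (-1) (-1) :=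
  (sideF hx hx').farB (Or.inr rfl) (Or.inr rfl) fun y y' F =>
    farB_cert (s1 := false) (s2 := false) rfl hκ covF00 covF23 hx hx'
        Pool.Agent.Strip051.G.I1_32_3_64.Tab.C.FB02.c_mm_033 noCut_B noExt_B F trivial trivial

theorem FB02_mm_101 {κ x : ℝ} (hκ : κ * h0 = ken x) (hx : ((33554432 : ℕ) : ℝ) / S ≤ x) (hx' : x ≤ (((33554432 : ℕ) : ℝ) + (16777216 : ℕ)) / S) :
    TriB PP.cur (farS κ (h0 * x) (tbl tKF x) (tbl tL x)) 1 0 1 0 2 (-1) (-1) :=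
  (sideF hx hx').farB (Or.inr rfl) (Or.inr rfl) fun y y' F =>
    farB_cert (s1 := false) (s2 := false) rfl hκ covF01 covF21 hx hx'
        Pool.Agent.Strip051.G.I1_32_3_64.Tab.C.FB02.c_mm_101 (cutB_cons (Pool.Agent.Strip051.G.I1_32_3_64.Tab.altF_B101R_02 hκ hx hx') cutB_nil) noExt_B F trivial trivial

theorem FB02_mm_102 {κ x : ℝ} (hκ : κ * h0 = ken x) (hx : ((33554432 : ℕ) : ℝ) / S ≤ x) (hx' : x ≤ (((33554432 : ℕ) : ℝ) + (16777216 : ℕ)) / S) :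
    TriB PP.cur (farS κ (h0 * x) (tbl tKF x) (tbl tL x)) 1 0 2 0 2 (-1) (-1) :=
  (sideF hx hx').farB (Or.inr rfl) (Or.inr rfl) fun y y' F =>
    (lt_or_ge (h0 * (y + y')) 1).elim
      (fun g => farB_cert (s1 := false) (s2 := false) rfl hκ covF01 covF22a hx hx'
        Pool.Agent.Strip051.G.I1_32_3_64.Tab.C.FB02.c_mm_102_a noCut_B noExt_B F trivial g)
      (fun g => farB_cert (s1 := false) (s2 := false) rfl hκ covF01 covF22b hx hx'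
        Pool.Agent.Strip051.G.I1_32_3_64.Tab.C.FB02.c_mm_102_b noCut_B noExt_B F trivial g)

theorem FB02_mm_112 {κ x : ℝ} (hκ : κ * h0 = ken x) (hx : ((33554432 : ℕ) : ℝ) / S ≤ x) (hx' : x ≤ (((33554432 : ℕ) : ℝ) + (16777216 : ℕ)) / S) :
    TriB PP.cur (farS κ (h0 * x) (tbl tKF x) (tbl tL x)) 1 1 2 0 2 (-1) (-1) :=
  (sideF hx hx').farB (Or.inr rfl) (Or.inr rfl) fun y y' F =>
    (lt_or_ge (h0 * (y + y')) 1).elim
      (fun g => farB_cert (s1 := false) (s2 := false) rfl hκ covF01 covF22a hx hx'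
        Pool.Agent.Strip051.G.I1_32_3_64.Tab.C.FB02.c_mm_112_a noCut_B noExt_B F trivial g)
      (fun g => farB_cert (s1 := false) (s2 := false) rfl hκ covF01 covF22b hx hx'
        Pool.Agent.Strip051.G.I1_32_3_64.Tab.C.FB02.c_mm_112_b noCut_B noExt_B F trivial g)

theorem FB02_mm_113 {κ x : ℝ} (hκ : κ * h0 = ken x) (hx : ((33554432 : ℕ) : ℝ) / S ≤ x) (hx' : x ≤ (((33554432 : ℕ) : ℝ) + (16777216 : ℕ)) / S) :
    TriB PP.cur (farS κ (h0 * x) (tbl tKF x) (tbl tL x)) 1 1 3 0 2 (-1) (-1) :=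
  (sideF hx hx').farB (Or.inr rfl) (Or.inr rfl) fun y y' F =>
    farB_cert (s1 := false) (s2 := false) rfl hκ covF01 covF23 hx hx'
        Pool.Agent.Strip051.G.I1_32_3_64.Tab.C.FB02.c_mm_113 noCut_B noExt_B F trivial trivial

theorem FB02_mm_123 {κ x : ℝ} (hκ : κ * h0 = ken x) (hx : ((33554432 : ℕ) : ℝ) / S ≤ x) (hx' : x ≤ (((33554432 : ℕ) : ℝ) + (16777216 : ℕ)) / S) :
    TriB PP.cur (farS κ (h0 * x) (tbl tKF x) (tbl tL x)) 1 2 3 0 2 (-1) (-1) :=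
  (sideF hx hx').farB (Or.inr rfl) (Or.inr rfl) fun y y' F =>
    farB_cert (s1 := false) (s2 := false) rfl hκ covF01 covF23 hx hx'
        Pool.Agent.Strip051.G.I1_32_3_64.Tab.C.FB02.c_mm_123 noCut_B noExt_B F trivial trivial

theorem FB02_mm_133 {κ x : ℝ} (hκ : κ * h0 = ken x) (hx : ((33554432 : ℕ) : ℝ) / S ≤ x) (hx' : x ≤ (((33554432 : ℕ) : ℝ) + (16777216 : ℕ)) / S) :
    TriB PP.cur (farS κ (h0 * x) (tbl tKF x) (tbl tL x)) 1 3 3 0 2 (-1) (-1) :=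
  (sideF hx hx').farB (Or.inr rfl) (Or.inr rfl) fun y y' F =>
    farB_cert (s1 := false) (s2 := false) rfl hκ covF01 covF23 hx hx'
        Pool.Agent.Strip051.G.I1_32_3_64.Tab.C.FB02.c_mm_133 noCut_B noExt_B F trivial trivial

theorem FB02_mm_202 {κ x : ℝ} (hκ : κ * h0 = ken x) (hx : ((33554432 : ℕ) : ℝ) / S ≤ x) (hx' : x ≤ (((33554432 : ℕ) : ℝ) + (16777216 : ℕ)) / S) :
    TriB PP.cur (farS κ (h0 * x) (tbl tKF x) (tbl tL x)) 2 0 2 0 2 (-1) (-1) :=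
  (sideF hx hx').farB (Or.inr rfl) (Or.inr rfl) fun y y' F =>
    (lt_or_ge (h0 * (y + y')) 1).elim
      (fun g => farB_cert (s1 := false) (s2 := false) rfl hκ covF02 covF22a hx hx'
        Pool.Agent.Strip051.G.I1_32_3_64.Tab.C.FB02.c_mm_202_a noCut_B noExt_B F trivial g)
      (fun g => farB_cert (s1 := false) (s2 := false) rfl hκ covF02 covF22b hx hx'
        Pool.Agent.Strip051.G.I1_32_3_64.Tab.C.FB02.c_mm_202_b noCut_B noExt_B F trivial g)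

theorem FB02_mm_203 {κ x : ℝ} (hκ : κ * h0 = ken x) (hx : ((33554432 : ℕ) : ℝ) / S ≤ x) (hx' : x ≤ (((33554432 : ℕ) : ℝ) + (16777216 : ℕ)) / S) :
    TriB PP.cur (farS κ (h0 * x) (tbl tKF x) (tbl tL x)) 2 0 3 0 2 (-1) (-1) :=
  (sideF hx hx').farB (Or.inr rfl) (Or.inr rfl) fun y y' F =>
    farB_cert (s1 := false) (s2 := false) rfl hκ covF02 covF23 hx hx'
        Pool.Agent.Strip051.G.I1_32_3_64.Tab.C.FB02.c_mm_203 noCut_B noExt_B F trivial trivial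

theorem FB02_mm_213 {κ x : ℝ} (hκ : κ * h0 = ken x) (hx : ((33554432 : ℕ) : ℝ) / S ≤ x) (hx' : x ≤ (((33554432 : ℕ) : ℝ) + (16777216 : ℕ)) / S) :
    TriB PP.cur (farS κ (h0 * x) (tbl tKF x) (tbl tL x)) 2 1 3 0 2 (-1) (-1) :=
  (sideF hx hx').farB (Or.inr rfl) (Or.inr rfl) fun y y' F =>
    farB_cert (s1 := false) (s2 := false) rfl hκ covF02 covF23 hx hx'
        Pool.Agent.Strip051.G.I1_32_3_64.Tab.C.FB02.c_mm_213 noCut_B noExt_B F trivial trivial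

theorem FB02_mm_303 {κ x : ℝ} (hκ : κ * h0 = ken x) (hx : ((33554432 : ℕ) : ℝ) / S ≤ x) (hx' : x ≤ (((33554432 : ℕ) : ℝ) + (16777216 : ℕ)) / S) :
    TriB PP.cur (farS κ (h0 * x) (tbl tKF x) (tbl tL x)) 3 0 3 0 2 (-1) (-1) :=
  triB_j0

theorem FB02_mm_313 {κ x : ℝ} (hκ : κ * h0 = ken x) (hx : ((33554432 : ℕ) : ℝ) / S ≤ x) (hx' : x ≤ (((33554432 : ℕ) : ℝ) + (16777216 : ℕ)) / S) :
    TriB PP.cur (farS κ (h0 * x) (tbl tKF x) (tbl tL x)) 3 1 3 0 2 (-1) (-1) :=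
  triB_j0

theorem FB02 {κ x : ℝ} (hκ : κ * h0 = ken x) (hx : ((33554432 : ℕ) : ℝ) / S ≤ x) (hx' : x ≤ (((33554432 : ℕ) : ℝ) + (16777216 : ℕ)) / S) : AllTB PP.cur (farS κ (h0 * x) (tbl tKF x) (tbl tL x)) 0 2 where
  pp := all17 (Q := fun a b c => TriB PP.cur (farS κ (h0 * x) (tbl tKF x) (tbl tL x)) a b c 0 2 1 1)
    (FB02_pp_001 hκ hx hx') (FB02_pp_011 hκ hx hx') (FB02_pp_012 hκ hx hx') (FB02_pp_022 hκ hx hx') (FB02_pp_023 hκ hx hx') (FB02_pp_033 hκ hx hx') (FB02_pp_101 hκ hx hx') (FB02_pp_102 hκ hx hx') (FB02_pp_112 hκ hx hx') (FB02_pp_113 hκ hx hx') (FB02_pp_123 hκ hx hx') (FB02_pp_133 hκ hx hx') (FB02_pp_202 hκ hx hx') (FB02_pp_203 hκ hx hx') (FB02_pp_213 hκ hx hx') (FB02_pp_303 hκ hx hx') (FB02_pp_313 hκ hx hx')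
  pm := all17 (Q := fun a b c => TriB PP.cur (farS κ (h0 * x) (tbl tKF x) (tbl tL x)) a b c 0 2 1 (-1))
    (FB02_pm_001 hκ hx hx') (FB02_pm_011 hκ hx hx') (FB02_pm_012 hκ hx hx') (FB02_pm_022 hκ hx hx') (FB02_pm_023 hκ hx hx') (FB02_pm_033 hκ hx hx') (FB02_pm_101 hκ hx hx') (FB02_pm_102 hκ hx hx') (FB02_pm_112 hκ hx hx') (FB02_pm_113 hκ hx hx') (FB02_pm_123 hκ hx hx') (FB02_pm_133 hκ hx hx') (FB02_pm_202 hκ hx hx') (FB02_pm_203 hκ hx hx') (FB02_pm_213 hκ hx hx') (FB02_pm_303 hκ hx hx') (FB02_pm_313 hκ hx hx')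
  mm := all17 (Q := fun a b c => TriB PP.cur (farS κ (h0 * x) (tbl tKF x) (tbl tL x)) a b c 0 2 (-1) (-1))
    (FB02_mm_001 hκ hx hx') (FB02_mm_011 hκ hx hx') (FB02_mm_012 hκ hx hx') (FB02_mm_022 hκ hx hx') (FB02_mm_023 hκ hx hx') (FB02_mm_033 hκ hx hx') (FB02_mm_101 hκ hx hx') (FB02_mm_102 hκ hx hx') (FB02_mm_112 hκ hx hx') (FB02_mm_113 hκ hx hx') (FB02_mm_123 hκ hx hx') (FB02_mm_133 hκ hx hx') (FB02_mm_202 hκ hx hx') (FB02_mm_203 hκ hx hx') (FB02_mm_213 hκ hx hx') (FB02_mm_303 hκ hx hx') (FB02_mm_313 hκ hx hx')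

theorem FB03_pp_001 {κ x : ℝ} (hκ : κ * h0 = ken x) (hx : ((33554432 : ℕ) : ℝ) / S ≤ x) (hx' : x ≤ (((33554432 : ℕ) : ℝ) + (16777216 : ℕ)) / S) :
    TriB PP.cur (farS κ (h0 * x) (tbl tKF x) (tbl tL x)) 0 0 1 0 3 1 1 :=
  (sideF hx hx').farB (Or.inl rfl) (Or.inl rfl) fun y y' F =>
    farB_cert (s1 := true) (s2 := true) rfl hκ covF00 covF31 hx hx'
        Pool.Agent.Strip051.G.I1_32_3_64.Tab.C.FB03.c_pp_001 noCut_B noExt_B F trivial trivial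

theorem FB03_pp_011 {κ x : ℝ} (hκ : κ * h0 = ken x) (hx : ((33554432 : ℕ) : ℝ) / S ≤ x) (hx' : x ≤ (((33554432 : ℕ) : ℝ) + (16777216 : ℕ)) / S) :
    TriB PP.cur (farS κ (h0 * x) (tbl tKF x) (tbl tL x)) 0 1 1 0 3 1 1 :=
  (sideF hx hx').farB (Or.inl rfl) (Or.inl rfl) fun y y' F =>
    farB_cert (s1 := true) (s2 := true) rfl hκ covF00 covF31 hx hx'
        Pool.Agent.Strip051.G.I1_32_3_64.Tab.C.FB03.c_pp_011 (cutB_cons (Pool.Agent.Strip051.G.I1_32_3_64.Tab.altF_B011L_03 hκ hx hx') cutB_nil) noExt_B F trivial trivial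

theorem FB03_pp_012 {κ x : ℝ} (hκ : κ * h0 = ken x) (hx : ((33554432 : ℕ) : ℝ) / S ≤ x) (hx' : x ≤ (((33554432 : ℕ) : ℝ) + (16777216 : ℕ)) / S) :
    TriB PP.cur (farS κ (h0 * x) (tbl tKF x) (tbl tL x)) 0 1 2 0 3 1 1 :=
  (sideF hx hx').farB (Or.inl rfl) (Or.inl rfl) fun y y' F =>
    farB_cert (s1 := true) (s2 := true) rfl hκ covF00 covF32 hx hx'
        Pool.Agent.Strip051.G.I1_32_3_64.Tab.C.FB03.c_pp_012 noCut_B noExt_B F trivial trivial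

theorem FB03_pp_022 {κ x : ℝ} (hκ : κ * h0 = ken x) (hx : ((33554432 : ℕ) : ℝ) / S ≤ x) (hx' : x ≤ (((33554432 : ℕ) : ℝ) + (16777216 : ℕ)) / S) :
    TriB PP.cur (farS κ (h0 * x) (tbl tKF x) (tbl tL x)) 0 2 2 0 3 1 1 :=
  (sideF hx hx').farB (Or.inl rfl) (Or.inl rfl) fun y y' F =>
    farB_cert (s1 := true) (s2 := true) rfl hκ covF00 covF32 hx hx'
        Pool.Agent.Strip051.G.I1_32_3_64.Tab.C.FB03.c_pp_022 noCut_B noExt_B F trivial trivial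

theorem FB03_pp_023 {κ x : ℝ} (hκ : κ * h0 = ken x) (hx : ((33554432 : ℕ) : ℝ) / S ≤ x) (hx' : x ≤ (((33554432 : ℕ) : ℝ) + (16777216 : ℕ)) / S) :
    TriB PP.cur (farS κ (h0 * x) (tbl tKF x) (tbl tL x)) 0 2 3 0 3 1 1 :=
  (sideF hx hx').farB (Or.inl rfl) (Or.inl rfl) fun y y' F =>
    farB_cert (s1 := true) (s2 := true) rfl hκ covF00 covF33 hx hx'
        Pool.Agent.Strip051.G.I1_32_3_64.Tab.C.FB03.c_pp_023 noCut_B noExt_B F trivial trivial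

theorem FB03_pp_033 {κ x : ℝ} (hκ : κ * h0 = ken x) (hx : ((33554432 : ℕ) : ℝ) / S ≤ x) (hx' : x ≤ (((33554432 : ℕ) : ℝ) + (16777216 : ℕ)) / S) :
    TriB PP.cur (farS κ (h0 * x) (tbl tKF x) (tbl tL x)) 0 3 3 0 3 1 1 :=
  (sideF hx hx').farB (Or.inl rfl) (Or.inl rfl) fun y y' F =>
    farB_cert (s1 := true) (s2 := true) rfl hκ covF00 covF33 hx hx'
        Pool.Agent.Strip051.G.I1_32_3_64.Tab.C.FB03.c_pp_033 noCut_B noExt_B F trivial trivial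

theorem FB03_pp_101 {κ x : ℝ} (hκ : κ * h0 = ken x) (hx : ((33554432 : ℕ) : ℝ) / S ≤ x) (hx' : x ≤ (((33554432 : ℕ) : ℝ) + (16777216 : ℕ)) / S) :
    TriB PP.cur (farS κ (h0 * x) (tbl tKF x) (tbl tL x)) 1 0 1 0 3 1 1 :=
  (sideF hx hx').farB (Or.inl rfl) (Or.inl rfl) fun y y' F =>
    farB_cert (s1 := true) (s2 := true) rfl hκ covF01 covF31 hx hx'
        Pool.Agent.Strip051.G.I1_32_3_64.Tab.C.FB03.c_pp_101 noCut_B noExt_B F trivial trivial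

theorem FB03_pp_102 {κ x : ℝ} (hκ : κ * h0 = ken x) (hx : ((33554432 : ℕ) : ℝ) / S ≤ x) (hx' : x ≤ (((33554432 : ℕ) : ℝ) + (16777216 : ℕ)) / S) :
    TriB PP.cur (farS κ (h0 * x) (tbl tKF x) (tbl tL x)) 1 0 2 0 3 1 1 :=
  (sideF hx hx').farB (Or.inl rfl) (Or.inl rfl) fun y y' F =>
    farB_cert (s1 := true) (s2 := true) rfl hκ covF01 covF32 hx hx'
        Pool.Agent.Strip051.G.I1_32_3_64.Tab.C.FB03.c_pp_102 noCut_B noExt_B F trivial trivial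

theorem FB03_pp_112 {κ x : ℝ} (hκ : κ * h0 = ken x) (hx : ((33554432 : ℕ) : ℝ) / S ≤ x) (hx' : x ≤ (((33554432 : ℕ) : ℝ) + (16777216 : ℕ)) / S) :
    TriB PP.cur (farS κ (h0 * x) (tbl tKF x) (tbl tL x)) 1 1 2 0 3 1 1 :=
  (sideF hx hx').farB (Or.inl rfl) (Or.inl rfl) fun y y' F =>
    farB_cert (s1 := true) (s2 := true) rfl hκ covF01 covF32 hx hx'
        Pool.Agent.Strip051.G.I1_32_3_64.Tab.C.FB03.c_pp_112 noCut_B noExt_B F trivial trivial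

theorem FB03_pp_113 {κ x : ℝ} (hκ : κ * h0 = ken x) (hx : ((33554432 : ℕ) : ℝ) / S ≤ x) (hx' : x ≤ (((33554432 : ℕ) : ℝ) + (16777216 : ℕ)) / S) :
    TriB PP.cur (farS κ (h0 * x) (tbl tKF x) (tbl tL x)) 1 1 3 0 3 1 1 :=
  (sideF hx hx').farB (Or.inl rfl) (Or.inl rfl) fun y y' F =>
    farB_cert (s1 := true) (s2 := true) rfl hκ covF01 covF33 hx hx'
        Pool.Agent.Strip051.G.I1_32_3_64.Tab.C.FB03.c_pp_113 (cutB_cons (Pool.Agent.Strip051.G.I1_32_3_64.Tab.alt12F_B113_03p hκ hx hx') cutB_nil) noExt_B F trivial trivial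

theorem FB03_pp_123 {κ x : ℝ} (hκ : κ * h0 = ken x) (hx : ((33554432 : ℕ) : ℝ) / S ≤ x) (hx' : x ≤ (((33554432 : ℕ) : ℝ) + (16777216 : ℕ)) / S) :
    TriB PP.cur (farS κ (h0 * x) (tbl tKF x) (tbl tL x)) 1 2 3 0 3 1 1 :=
  (sideF hx hx').farB (Or.inl rfl) (Or.inl rfl) fun y y' F =>
    farB_cert (s1 := true) (s2 := true) rfl hκ covF01 covF33 hx hx'
        Pool.Agent.Strip051.G.I1_32_3_64.Tab.C.FB03.c_pp_123 (cutB_cons (Pool.Agent.Strip051.G.I1_32_3_64.Tab.alt12cF_B123_03p hκ hx hx') cutB_nil) noExt_B F trivial trivial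

theorem FB03_pp_133 {κ x : ℝ} (hκ : κ * h0 = ken x) (hx : ((33554432 : ℕ) : ℝ) / S ≤ x) (hx' : x ≤ (((33554432 : ℕ) : ℝ) + (16777216 : ℕ)) / S) :
    TriB PP.cur (farS κ (h0 * x) (tbl tKF x) (tbl tL x)) 1 3 3 0 3 1 1 :=
  (sideF hx hx').farB (Or.inl rfl) (Or.inl rfl) fun y y' F =>
    farB_cert (s1 := true) (s2 := true) rfl hκ covF01 covF33 hx hx'
        Pool.Agent.Strip051.G.I1_32_3_64.Tab.C.FB03.c_pp_133 noCut_B noExt_B F trivial trivial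

theorem FB03_pp_202 {κ x : ℝ} (hκ : κ * h0 = ken x) (hx : ((33554432 : ℕ) : ℝ) / S ≤ x) (hx' : x ≤ (((33554432 : ℕ) : ℝ) + (16777216 : ℕ)) / S) :
    TriB PP.cur (farS κ (h0 * x) (tbl tKF x) (tbl tL x)) 2 0 2 0 3 1 1 :=
  (sideF hx hx').farB (Or.inl rfl) (Or.inl rfl) fun y y' F =>
    farB_cert (s1 := true) (s2 := true) rfl hκ covF02 covF32 hx hx'
        Pool.Agent.Strip051.G.I1_32_3_64.Tab.C.FB03.c_pp_202 noCut_B noExt_B F trivial trivial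

theorem FB03_pp_203 {κ x : ℝ} (hκ : κ * h0 = ken x) (hx : ((33554432 : ℕ) : ℝ) / S ≤ x) (hx' : x ≤ (((33554432 : ℕ) : ℝ) + (16777216 : ℕ)) / S) :
    TriB PP.cur (farS κ (h0 * x) (tbl tKF x) (tbl tL x)) 2 0 3 0 3 1 1 :=
  (sideF hx hx').farB (Or.inl rfl) (Or.inl rfl) fun y y' F =>
    farB_cert (s1 := true) (s2 := true) rfl hκ covF02 covF33 hx hx'
        Pool.Agent.Strip051.G.I1_32_3_64.Tab.C.FB03.c_pp_203 noCut_B noExt_B F trivial trivial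

theorem FB03_pp_213 {κ x : ℝ} (hκ : κ * h0 = ken x) (hx : ((33554432 : ℕ) : ℝ) / S ≤ x) (hx' : x ≤ (((33554432 : ℕ) : ℝ) + (16777216 : ℕ)) / S) :
    TriB PP.cur (farS κ (h0 * x) (tbl tKF x) (tbl tL x)) 2 1 3 0 3 1 1 :=
  (sideF hx hx').farB (Or.inl rfl) (Or.inl rfl) fun y y' F =>
    farB_cert (s1 := true) (s2 := true) rfl hκ covF02 covF33 hx hx'
        Pool.Agent.Strip051.G.I1_32_3_64.Tab.C.FB03.c_pp_213 (cutB_cons (Pool.Agent.Strip051.G.I1_32_3_64.Tab.alt12F_B213_03p hκ hx hx') cutB_nil) noExt_B F trivial trivial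

theorem FB03_pp_303 {κ x : ℝ} (hκ : κ * h0 = ken x) (hx : ((33554432 : ℕ) : ℝ) / S ≤ x) (hx' : x ≤ (((33554432 : ℕ) : ℝ) + (16777216 : ℕ)) / S) :
    TriB PP.cur (farS κ (h0 * x) (tbl tKF x) (tbl tL x)) 3 0 3 0 3 1 1 :=
  triB_j0

theorem FB03_pp_313 {κ x : ℝ} (hκ : κ * h0 = ken x) (hx : ((33554432 : ℕ) : ℝ) / S ≤ x) (hx' : x ≤ (((33554432 : ℕ) : ℝ) + (16777216 : ℕ)) / S) :
    TriB PP.cur (farS κ (h0 * x) (tbl tKF x) (tbl tL x)) 3 1 3 0 3 1 1 :=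
  triB_j0

theorem FB03_pm_001 {κ x : ℝ} (hκ : κ * h0 = ken x) (hx : ((33554432 : ℕ) : ℝ) / S ≤ x) (hx' : x ≤ (((33554432 : ℕ) : ℝ) + (16777216 : ℕ)) / S) :
    TriB PP.cur (farS κ (h0 * x) (tbl tKF x) (tbl tL x)) 0 0 1 0 3 1 (-1) :=
  (sideF hx hx').farB (Or.inl rfl) (Or.inr rfl) fun y y' F =>
    farB_cert (s1 := true) (s2 := false) rfl hκ covF00 covF31 hx hx'
        Pool.Agent.Strip051.G.I1_32_3_64.Tab.C.FB03.c_pm_001 noCut_B noExt_B F trivial trivial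

theorem FB03_pm_011 {κ x : ℝ} (hκ : κ * h0 = ken x) (hx : ((33554432 : ℕ) : ℝ) / S ≤ x) (hx' : x ≤ (((33554432 : ℕ) : ℝ) + (16777216 : ℕ)) / S) :
    TriB PP.cur (farS κ (h0 * x) (tbl tKF x) (tbl tL x)) 0 1 1 0 3 1 (-1) :=
  (sideF hx hx').farB (Or.inl rfl) (Or.inr rfl) fun y y' F =>
    farB_cert (s1 := true) (s2 := false) rfl hκ covF00 covF31 hx hx'
        Pool.Agent.Strip051.G.I1_32_3_64.Tab.C.FB03.c_pm_011 noCut_B noExt_B F trivial trivial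

theorem FB03_pm_012 {κ x : ℝ} (hκ : κ * h0 = ken x) (hx : ((33554432 : ℕ) : ℝ) / S ≤ x) (hx' : x ≤ (((33554432 : ℕ) : ℝ) + (16777216 : ℕ)) / S) :
    TriB PP.cur (farS κ (h0 * x) (tbl tKF x) (tbl tL x)) 0 1 2 0 3 1 (-1) :=
  (sideF hx hx').farB (Or.inl rfl) (Or.inr rfl) fun y y' F =>
    farB_cert (s1 := true) (s2 := false) rfl hκ covF00 covF32 hx hx'
        Pool.Agent.Strip051.G.I1_32_3_64.Tab.C.FB03.c_pm_012 noCut_B noExt_B F trivial trivial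

theorem FB03_pm_022 {κ x : ℝ} (hκ : κ * h0 = ken x) (hx : ((33554432 : ℕ) : ℝ) / S ≤ x) (hx' : x ≤ (((33554432 : ℕ) : ℝ) + (16777216 : ℕ)) / S) :
    TriB PP.cur (farS κ (h0 * x) (tbl tKF x) (tbl tL x)) 0 2 2 0 3 1 (-1) :=
  (sideF hx hx').farB (Or.inl rfl) (Or.inr rfl) fun y y' F =>
    farB_cert (s1 := true) (s2 := false) rfl hκ covF00 covF32 hx hx'
        Pool.Agent.Strip051.G.I1_32_3_64.Tab.C.FB03.c_pm_022 noCut_B noExt_B F trivial trivial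

theorem FB03_pm_023 {κ x : ℝ} (hκ : κ * h0 = ken x) (hx : ((33554432 : ℕ) : ℝ) / S ≤ x) (hx' : x ≤ (((33554432 : ℕ) : ℝ) + (16777216 : ℕ)) / S) :
    TriB PP.cur (farS κ (h0 * x) (tbl tKF x) (tbl tL x)) 0 2 3 0 3 1 (-1) :=
  (sideF hx hx').farB (Or.inl rfl) (Or.inr rfl) fun y y' F =>
    farB_cert (s1 := true) (s2 := false) rfl hκ covF00 covF33 hx hx'
        Pool.Agent.Strip051.G.I1_32_3_64.Tab.C.FB03.c_pm_023 noCut_B noExt_B F trivial trivial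

theorem FB03_pm_033 {κ x : ℝ} (hκ : κ * h0 = ken x) (hx : ((33554432 : ℕ) : ℝ) / S ≤ x) (hx' : x ≤ (((33554432 : ℕ) : ℝ) + (16777216 : ℕ)) / S) :
    TriB PP.cur (farS κ (h0 * x) (tbl tKF x) (tbl tL x)) 0 3 3 0 3 1 (-1) :=
  (sideF hx hx').farB (Or.inl rfl) (Or.inr rfl) fun y y' F =>
    farB_cert (s1 := true) (s2 := false) rfl hκ covF00 covF33 hx hx'
        Pool.Agent.Strip051.G.I1_32_3_64.Tab.C.FB03.c_pm_033 noCut_B noExt_B F trivial trivial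

theorem FB03_pm_101 {κ x : ℝ} (hκ : κ * h0 = ken x) (hx : ((33554432 : ℕ) : ℝ) / S ≤ x) (hx' : x ≤ (((33554432 : ℕ) : ℝ) + (16777216 : ℕ)) / S) :
    TriB PP.cur (farS κ (h0 * x) (tbl tKF x) (tbl tL x)) 1 0 1 0 3 1 (-1) :=
  (sideF hx hx').farB (Or.inl rfl) (Or.inr rfl) fun y y' F =>
    farB_cert (s1 := true) (s2 := false) rfl hκ covF01 covF31 hx hx'
        Pool.Agent.Strip051.G.I1_32_3_64.Tab.C.FB03.c_pm_101 noCut_B noExt_B F trivial trivial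

theorem FB03_pm_102 {κ x : ℝ} (hκ : κ * h0 = ken x) (hx : ((33554432 : ℕ) : ℝ) / S ≤ x) (hx' : x ≤ (((33554432 : ℕ) : ℝ) + (16777216 : ℕ)) / S) :
    TriB PP.cur (farS κ (h0 * x) (tbl tKF x) (tbl tL x)) 1 0 2 0 3 1 (-1) :=
  (sideF hx hx').farB (Or.inl rfl) (Or.inr rfl) fun y y' F =>
    farB_cert (s1 := true) (s2 := false) rfl hκ covF01 covF32 hx hx'
        Pool.Agent.Strip051.G.I1_32_3_64.Tab.C.FB03.c_pm_102 noCut_B noExt_B F trivial trivial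

theorem FB03_pm_112 {κ x : ℝ} (hκ : κ * h0 = ken x) (hx : ((33554432 : ℕ) : ℝ) / S ≤ x) (hx' : x ≤ (((33554432 : ℕ) : ℝ) + (16777216 : ℕ)) / S) :
    TriB PP.cur (farS κ (h0 * x) (tbl tKF x) (tbl tL x)) 1 1 2 0 3 1 (-1) :=
  (sideF hx hx').farB (Or.inl rfl) (Or.inr rfl) fun y y' F =>
    farB_cert (s1 := true) (s2 := false) rfl hκ covF01 covF32 hx hx'
        Pool.Agent.Strip051.G.I1_32_3_64.Tab.C.FB03.c_pm_112 noCut_B noExt_B F trivial trivial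

theorem FB03_pm_113 {κ x : ℝ} (hκ : κ * h0 = ken x) (hx : ((33554432 : ℕ) : ℝ) / S ≤ x) (hx' : x ≤ (((33554432 : ℕ) : ℝ) + (16777216 : ℕ)) / S) :
    TriB PP.cur (farS κ (h0 * x) (tbl tKF x) (tbl tL x)) 1 1 3 0 3 1 (-1) :=
  (sideF hx hx').farB (Or.inl rfl) (Or.inr rfl) fun y y' F =>
    farB_cert (s1 := true) (s2 := false) rfl hκ covF01 covF33 hx hx'
        Pool.Agent.Strip051.G.I1_32_3_64.Tab.C.FB03.c_pm_113 (cutB_cons (Pool.Agent.Strip051.G.I1_32_3_64.Tab.alt12F_B113_03m hκ hx hx') cutB_nil) noExt_B F trivial trivial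

theorem FB03_pm_123 {κ x : ℝ} (hκ : κ * h0 = ken x) (hx : ((33554432 : ℕ) : ℝ) / S ≤ x) (hx' : x ≤ (((33554432 : ℕ) : ℝ) + (16777216 : ℕ)) / S) :
    TriB PP.cur (farS κ (h0 * x) (tbl tKF x) (tbl tL x)) 1 2 3 0 3 1 (-1) :=
  (sideF hx hx').farB (Or.inl rfl) (Or.inr rfl) fun y y' F =>
    farB_cert (s1 := true) (s2 := false) rfl hκ covF01 covF33 hx hx'
        Pool.Agent.Strip051.G.I1_32_3_64.Tab.C.FB03.c_pm_123 (cutB_cons (Pool.Agent.Strip051.G.I1_32_3_64.Tab.alt12F_B123_03m hκ hx hx') cutB_nil) noExt_B F trivial trivial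

theorem FB03_pm_133 {κ x : ℝ} (hκ : κ * h0 = ken x) (hx : ((33554432 : ℕ) : ℝ) / S ≤ x) (hx' : x ≤ (((33554432 : ℕ) : ℝ) + (16777216 : ℕ)) / S) :
    TriB PP.cur (farS κ (h0 * x) (tbl tKF x) (tbl tL x)) 1 3 3 0 3 1 (-1) :=
  (sideF hx hx').farB (Or.inl rfl) (Or.inr rfl) fun y y' F =>
    farB_cert (s1 := true) (s2 := false) rfl hκ covF01 covF33 hx hx'
        Pool.Agent.Strip051.G.I1_32_3_64.Tab.C.FB03.c_pm_133 noCut_B noExt_B F trivial trivial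

theorem FB03_pm_202 {κ x : ℝ} (hκ : κ * h0 = ken x) (hx : ((33554432 : ℕ) : ℝ) / S ≤ x) (hx' : x ≤ (((33554432 : ℕ) : ℝ) + (16777216 : ℕ)) / S) :
    TriB PP.cur (farS κ (h0 * x) (tbl tKF x) (tbl tL x)) 2 0 2 0 3 1 (-1) :=
  (sideF hx hx').farB (Or.inl rfl) (Or.inr rfl) fun y y' F =>
    farB_cert (s1 := true) (s2 := false) rfl hκ covF02 covF32 hx hx'
        Pool.Agent.Strip051.G.I1_32_3_64.Tab.C.FB03.c_pm_202 noCut_B noExt_B F trivial trivial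

theorem FB03_pm_203 {κ x : ℝ} (hκ : κ * h0 = ken x) (hx : ((33554432 : ℕ) : ℝ) / S ≤ x) (hx' : x ≤ (((33554432 : ℕ) : ℝ) + (16777216 : ℕ)) / S) :
    TriB PP.cur (farS κ (h0 * x) (tbl tKF x) (tbl tL x)) 2 0 3 0 3 1 (-1) :=
  (sideF hx hx').farB (Or.inl rfl) (Or.inr rfl) fun y y' F =>
    farB_cert (s1 := true) (s2 := false) rfl hκ covF02 covF33 hx hx'
        Pool.Agent.Strip051.G.I1_32_3_64.Tab.C.FB03.c_pm_203 noCut_B noExt_B F trivial trivial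

theorem FB03_pm_213 {κ x : ℝ} (hκ : κ * h0 = ken x) (hx : ((33554432 : ℕ) : ℝ) / S ≤ x) (hx' : x ≤ (((33554432 : ℕ) : ℝ) + (16777216 : ℕ)) / S) :
    TriB PP.cur (farS κ (h0 * x) (tbl tKF x) (tbl tL x)) 2 1 3 0 3 1 (-1) :=
  (sideF hx hx').farB (Or.inl rfl) (Or.inr rfl) fun y y' F =>
    farB_cert (s1 := true) (s2 := false) rfl hκ covF02 covF33 hx hx'
        Pool.Agent.Strip051.G.I1_32_3_64.Tab.C.FB03.c_pm_213 (cutB_cons (Pool.Agent.Strip051.G.I1_32_3_64.Tab.alt12cF_B213_03m hκ hx hx') cutB_nil) noExt_B F trivial trivial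

theorem FB03_pm_303 {κ x : ℝ} (hκ : κ * h0 = ken x) (hx : ((33554432 : ℕ) : ℝ) / S ≤ x) (hx' : x ≤ (((33554432 : ℕ) : ℝ) + (16777216 : ℕ)) / S) :
    TriB PP.cur (farS κ (h0 * x) (tbl tKF x) (tbl tL x)) 3 0 3 0 3 1 (-1) :=
  triB_j0

theorem FB03_pm_313 {κ x : ℝ} (hκ : κ * h0 = ken x) (hx : ((33554432 : ℕ) : ℝ) / S ≤ x) (hx' : x ≤ (((33554432 : ℕ) : ℝ) + (16777216 : ℕ)) / S) :
    TriB PP.cur (farS κ (h0 * x) (tbl tKF x) (tbl tL x)) 3 1 3 0 3 1 (-1) :=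
  triB_j0

theorem FB03_mm_001 {κ x : ℝ} (hκ : κ * h0 = ken x) (hx : ((33554432 : ℕ) : ℝ) / S ≤ x) (hx' : x ≤ (((33554432 : ℕ) : ℝ) + (16777216 : ℕ)) / S) :
    TriB PP.cur (farS κ (h0 * x) (tbl tKF x) (tbl tL x)) 0 0 1 0 3 (-1) (-1) :=
  (sideF hx hx').farB (Or.inr rfl) (Or.inr rfl) fun y y' F =>
    farB_cert (s1 := false) (s2 := false) rfl hκ covF00 covF31 hx hx'
        Pool.Agent.Strip051.G.I1_32_3_64.Tab.C.FB03.c_mm_001 noCut_B noExt_B F trivial trivial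

theorem FB03_mm_011 {κ x : ℝ} (hκ : κ * h0 = ken x) (hx : ((33554432 : ℕ) : ℝ) / S ≤ x) (hx' : x ≤ (((33554432 : ℕ) : ℝ) + (16777216 : ℕ)) / S) :
    TriB PP.cur (farS κ (h0 * x) (tbl tKF x) (tbl tL x)) 0 1 1 0 3 (-1) (-1) :=
  (sideF hx hx').farB (Or.inr rfl) (Or.inr rfl) fun y y' F =>
    farB_cert (s1 := false) (s2 := false) rfl hκ covF00 covF31 hx hx'
        Pool.Agent.Strip051.G.I1_32_3_64.Tab.C.FB03.c_mm_011 noCut_B noExt_B F trivial trivial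

theorem FB03_mm_012 {κ x : ℝ} (hκ : κ * h0 = ken x) (hx : ((33554432 : ℕ) : ℝ) / S ≤ x) (hx' : x ≤ (((33554432 : ℕ) : ℝ) + (16777216 : ℕ)) / S) :
    TriB PP.cur (farS κ (h0 * x) (tbl tKF x) (tbl tL x)) 0 1 2 0 3 (-1) (-1) :=
  (sideF hx hx').farB (Or.inr rfl) (Or.inr rfl) fun y y' F =>
    farB_cert (s1 := false) (s2 := false) rfl hκ covF00 covF32 hx hx'
        Pool.Agent.Strip051.G.I1_32_3_64.Tab.C.FB03.c_mm_012 noCut_B noExt_B F trivial trivial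

theorem FB03_mm_022 {κ x : ℝ} (hκ : κ * h0 = ken x) (hx : ((33554432 : ℕ) : ℝ) / S ≤ x) (hx' : x ≤ (((33554432 : ℕ) : ℝ) + (16777216 : ℕ)) / S) :
    TriB PP.cur (farS κ (h0 * x) (tbl tKF x) (tbl tL x)) 0 2 2 0 3 (-1) (-1) :=
  (sideF hx hx').farB (Or.inr rfl) (Or.inr rfl) fun y y' F =>
    farB_cert (s1 := false) (s2 := false) rfl hκ covF00 covF32 hx hx'
        Pool.Agent.Strip051.G.I1_32_3_64.Tab.C.FB03.c_mm_022 noCut_B noExt_B F trivial trivial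

theorem FB03_mm_023 {κ x : ℝ} (hκ : κ * h0 = ken x) (hx : ((33554432 : ℕ) : ℝ) / S ≤ x) (hx' : x ≤ (((33554432 : ℕ) : ℝ) + (16777216 : ℕ)) / S) :
    TriB PP.cur (farS κ (h0 * x) (tbl tKF x) (tbl tL x)) 0 2 3 0 3 (-1) (-1) :=
  (sideF hx hx').farB (Or.inr rfl) (Or.inr rfl) fun y y' F =>
    farB_cert (s1 := false) (s2 := false) rfl hκ covF00 covF33 hx hx'
        Pool.Agent.Strip051.G.I1_32_3_64.Tab.C.FB03.c_mm_023 noCut_B noExt_B F trivial trivial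

theorem FB03_mm_033 {κ x : ℝ} (hκ : κ * h0 = ken x) (hx : ((33554432 : ℕ) : ℝ) / S ≤ x) (hx' : x ≤ (((33554432 : ℕ) : ℝ) + (16777216 : ℕ)) / S) :
    TriB PP.cur (farS κ (h0 * x) (tbl tKF x) (tbl tL x)) 0 3 3 0 3 (-1) (-1) :=
  (sideF hx hx').farB (Or.inr rfl) (Or.inr rfl) fun y y' F =>
    farB_cert (s1 := false) (s2 := false) rfl hκ covF00 covF33 hx hx'
        Pool.Agent.Strip051.G.I1_32_3_64.Tab.C.FB03.c_mm_033 noCut_B noExt_B F trivial trivial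

theorem FB03_mm_101 {κ x : ℝ} (hκ : κ * h0 = ken x) (hx : ((33554432 : ℕ) : ℝ) / S ≤ x) (hx' : x ≤ (((33554432 : ℕ) : ℝ) + (16777216 : ℕ)) / S) :
    TriB PP.cur (farS κ (h0 * x) (tbl tKF x) (tbl tL x)) 1 0 1 0 3 (-1) (-1) :=
  (sideF hx hx').farB (Or.inr rfl) (Or.inr rfl) fun y y' F =>
    farB_cert (s1 := false) (s2 := false) rfl hκ covF01 covF31 hx hx'
        Pool.Agent.Strip051.G.I1_32_3_64.Tab.C.FB03.c_mm_101 (cutB_cons (Pool.Agent.Strip051.G.I1_32_3_64.Tab.altF_B101R_03 hκ hx hx') cutB_nil) noExt_B F trivial trivial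

theorem FB03_mm_102 {κ x : ℝ} (hκ : κ * h0 = ken x) (hx : ((33554432 : ℕ) : ℝ) / S ≤ x) (hx' : x ≤ (((33554432 : ℕ) : ℝ) + (16777216 : ℕ)) / S) :
    TriB PP.cur (farS κ (h0 * x) (tbl tKF x) (tbl tL x)) 1 0 2 0 3 (-1) (-1) :=
  (sideF hx hx').farB (Or.inr rfl) (Or.inr rfl) fun y y' F =>
    farB_cert (s1 := false) (s2 := false) rfl hκ covF01 covF32 hx hx'
        Pool.Agent.Strip051.G.I1_32_3_64.Tab.C.FB03.c_mm_102 noCut_B noExt_B F trivial trivial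

theorem FB03_mm_112 {κ x : ℝ} (hκ : κ * h0 = ken x) (hx : ((33554432 : ℕ) : ℝ) / S ≤ x) (hx' : x ≤ (((33554432 : ℕ) : ℝ) + (16777216 : ℕ)) / S) :
    TriB PP.cur (farS κ (h0 * x) (tbl tKF x) (tbl tL x)) 1 1 2 0 3 (-1) (-1) :=
  (sideF hx hx').farB (Or.inr rfl) (Or.inr rfl) fun y y' F =>
    farB_cert (s1 := false) (s2 := false) rfl hκ covF01 covF32 hx hx'
        Pool.Agent.Strip051.G.I1_32_3_64.Tab.C.FB03.c_mm_112 noCut_B noExt_B F trivial trivial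

theorem FB03_mm_113 {κ x : ℝ} (hκ : κ * h0 = ken x) (hx : ((33554432 : ℕ) : ℝ) / S ≤ x) (hx' : x ≤ (((33554432 : ℕ) : ℝ) + (16777216 : ℕ)) / S) :
    TriB PP.cur (farS κ (h0 * x) (tbl tKF x) (tbl tL x)) 1 1 3 0 3 (-1) (-1) :=
  (sideF hx hx').farB (Or.inr rfl) (Or.inr rfl) fun y y' F =>
    farB_cert (s1 := false) (s2 := false) rfl hκ covF01 covF33 hx hx'
        Pool.Agent.Strip051.G.I1_32_3_64.Tab.C.FB03.c_mm_113 noCut_B noExt_B F trivial trivial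

theorem FB03_mm_123 {κ x : ℝ} (hκ : κ * h0 = ken x) (hx : ((33554432 : ℕ) : ℝ) / S ≤ x) (hx' : x ≤ (((33554432 : ℕ) : ℝ) + (16777216 : ℕ)) / S) :
    TriB PP.cur (farS κ (h0 * x) (tbl tKF x) (tbl tL x)) 1 2 3 0 3 (-1) (-1) :=
  (sideF hx hx').farB (Or.inr rfl) (Or.inr rfl) fun y y' F =>
    farB_cert (s1 := false) (s2 := false) rfl hκ covF01 covF33 hx hx'
        Pool.Agent.Strip051.G.I1_32_3_64.Tab.C.FB03.c_mm_123 noCut_B noExt_B F trivial trivial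

theorem FB03_mm_133 {κ x : ℝ} (hκ : κ * h0 = ken x) (hx : ((33554432 : ℕ) : ℝ) / S ≤ x) (hx' : x ≤ (((33554432 : ℕ) : ℝ) + (16777216 : ℕ)) / S) :
    TriB PP.cur (farS κ (h0 * x) (tbl tKF x) (tbl tL x)) 1 3 3 0 3 (-1) (-1) :=
  (sideF hx hx').farB (Or.inr rfl) (Or.inr rfl) fun y y' F =>
    farB_cert (s1 := false) (s2 := false) rfl hκ covF01 covF33 hx hx'
        Pool.Agent.Strip051.G.I1_32_3_64.Tab.C.FB03.c_mm_133 noCut_B noExt_B F trivial trivial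

theorem FB03_mm_202 {κ x : ℝ} (hκ : κ * h0 = ken x) (hx : ((33554432 : ℕ) : ℝ) / S ≤ x) (hx' : x ≤ (((33554432 : ℕ) : ℝ) + (16777216 : ℕ)) / S) :
    TriB PP.cur (farS κ (h0 * x) (tbl tKF x) (tbl tL x)) 2 0 2 0 3 (-1) (-1) :=
  (sideF hx hx').farB (Or.inr rfl) (Or.inr rfl) fun y y' F =>
    farB_cert (s1 := false) (s2 := false) rfl hκ covF02 covF32 hx hx'
        Pool.Agent.Strip051.G.I1_32_3_64.Tab.C.FB03.c_mm_202 noCut_B noExt_B F trivial trivial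

theorem FB03_mm_203 {κ x : ℝ} (hκ : κ * h0 = ken x) (hx : ((33554432 : ℕ) : ℝ) / S ≤ x) (hx' : x ≤ (((33554432 : ℕ) : ℝ) + (16777216 : ℕ)) / S) :
    TriB PP.cur (farS κ (h0 * x) (tbl tKF x) (tbl tL x)) 2 0 3 0 3 (-1) (-1) :=
  (sideF hx hx').farB (Or.inr rfl) (Or.inr rfl) fun y y' F =>
    farB_cert (s1 := false) (s2 := false) rfl hκ covF02 covF33 hx hx'
        Pool.Agent.Strip051.G.I1_32_3_64.Tab.C.FB03.c_mm_203 noCut_B noExt_B F trivial trivial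

theorem FB03_mm_213 {κ x : ℝ} (hκ : κ * h0 = ken x) (hx : ((33554432 : ℕ) : ℝ) / S ≤ x) (hx' : x ≤ (((33554432 : ℕ) : ℝ) + (16777216 : ℕ)) / S) :
    TriB PP.cur (farS κ (h0 * x) (tbl tKF x) (tbl tL x)) 2 1 3 0 3 (-1) (-1) :=
  (sideF hx hx').farB (Or.inr rfl) (Or.inr rfl) fun y y' F =>
    farB_cert (s1 := false) (s2 := false) rfl hκ covF02 covF33 hx hx'
        Pool.Agent.Strip051.G.I1_32_3_64.Tab.C.FB03.c_mm_213 noCut_B noExt_B F trivial trivial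

theorem FB03_mm_303 {κ x : ℝ} (hκ : κ * h0 = ken x) (hx : ((33554432 : ℕ) : ℝ) / S ≤ x) (hx' : x ≤ (((33554432 : ℕ) : ℝ) + (16777216 : ℕ)) / S) :
    TriB PP.cur (farS κ (h0 * x) (tbl tKF x) (tbl tL x)) 3 0 3 0 3 (-1) (-1) :=
  triB_j0

theorem FB03_mm_313 {κ x : ℝ} (hκ : κ * h0 = ken x) (hx : ((33554432 : ℕ) : ℝ) / S ≤ x) (hx' : x ≤ (((33554432 : ℕ) : ℝ) + (16777216 : ℕ)) / S) :
    TriB PP.cur (farS κ (h0 * x) (tbl tKF x) (tbl tL x)) 3 1 3 0 3 (-1) (-1) :=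
  triB_j0

theorem FB03 {κ x : ℝ} (hκ : κ * h0 = ken x) (hx : ((33554432 : ℕ) : ℝ) / S ≤ x) (hx' : x ≤ (((33554432 : ℕ) : ℝ) + (16777216 : ℕ)) / S) : AllTB PP.cur (farS κ (h0 * x) (tbl tKF x) (tbl tL x)) 0 3 where
  pp := all17 (Q := fun a b c => TriB PP.cur (farS κ (h0 * x) (tbl tKF x) (tbl tL x)) a b c 0 3 1 1)
    (FB03_pp_001 hκ hx hx') (FB03_pp_011 hκ hx hx') (FB03_pp_012 hκ hx hx') (FB03_pp_022 hκ hx hx') (FB03_pp_023 hκ hx hx') (FB03_pp_033 hκ hx hx') (FB03_pp_101 hκ hx hx') (FB03_pp_102 hκ hx hx') (FB03_pp_112 hκ hx hx') (FB03_pp_113 hκ hx hx') (FB03_pp_123 hκ hx hx') (FB03_pp_133 hκ hx hx') (FB03_pp_202 hκ hx hx') (FB03_pp_203 hκ hx hx') (FB03_pp_213 hκ hx hx') (FB03_pp_303 hκ hx hx') (FB03_pp_313 hκ hx hx')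
  pm := all17 (Q := fun a b c => TriB PP.cur (farS κ (h0 * x) (tbl tKF x) (tbl tL x)) a b c 0 3 1 (-1))
    (FB03_pm_001 hκ hx hx') (FB03_pm_011 hκ hx hx') (FB03_pm_012 hκ hx hx') (FB03_pm_022 hκ hx hx') (FB03_pm_023 hκ hx hx') (FB03_pm_033 hκ hx hx') (FB03_pm_101 hκ hx hx') (FB03_pm_102 hκ hx hx') (FB03_pm_112 hκ hx hx') (FB03_pm_113 hκ hx hx') (FB03_pm_123 hκ hx hx') (FB03_pm_133 hκ hx hx') (FB03_pm_202 hκ hx hx') (FB03_pm_203 hκ hx hx') (FB03_pm_213 hκ hx hx') (FB03_pm_303 hκ hx hx') (FB03_pm_313 hκ hx hx')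
  mm := all17 (Q := fun a b c => TriB PP.cur (farS κ (h0 * x) (tbl tKF x) (tbl tL x)) a b c 0 3 (-1) (-1))
    (FB03_mm_001 hκ hx hx') (FB03_mm_011 hκ hx hx') (FB03_mm_012 hκ hx hx') (FB03_mm_022 hκ hx hx') (FB03_mm_023 hκ hx hx') (FB03_mm_033 hκ hx hx') (FB03_mm_101 hκ hx hx') (FB03_mm_102 hκ hx hx') (FB03_mm_112 hκ hx hx') (FB03_mm_113 hκ hx hx') (FB03_mm_123 hκ hx hx') (FB03_mm_133 hκ hx hx') (FB03_mm_202 hκ hx hx') (FB03_mm_203 hκ hx hx') (FB03_mm_213 hκ hx hx') (FB03_mm_303 hκ hx hx') (FB03_mm_313 hκ hx hx')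

theorem FB04_pp_001 {κ x : ℝ} (hκ : κ * h0 = ken x) (hx : ((33554432 : ℕ) : ℝ) / S ≤ x) (hx' : x ≤ (((33554432 : ℕ) : ℝ) + (16777216 : ℕ)) / S) :
    TriB PP.cur (farS κ (h0 * x) (tbl tKF x) (tbl tL x)) 0 0 1 0 4 1 1 :=
  (sideF hx hx').farB (Or.inl rfl) (Or.inl rfl) fun y y' F =>
    farB_cert (s1 := true) (s2 := true) rfl hκ covF00 covF41 hx hx'
        Pool.Agent.Strip051.G.I1_32_3_64.Tab.C.FB04.c_pp_001 (cutB_cons (Pool.Agent.Strip051.G.I1_32_3_64.Tab.St.C.s_B04pp_001_s1 hκ hx hx') cutB_nil) noExt_B F trivial trivial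

theorem FB04_pp_011 {κ x : ℝ} (hκ : κ * h0 = ken x) (hx : ((33554432 : ℕ) : ℝ) / S ≤ x) (hx' : x ≤ (((33554432 : ℕ) : ℝ) + (16777216 : ℕ)) / S) :
    TriB PP.cur (farS κ (h0 * x) (tbl tKF x) (tbl tL x)) 0 1 1 0 4 1 1 :=
  (sideF hx hx').farB (Or.inl rfl) (Or.inl rfl) fun y y' F =>
    farB_cert (s1 := true) (s2 := true) rfl hκ covF00 covF41 hx hx'
        Pool.Agent.Strip051.G.I1_32_3_64.Tab.C.FB04.c_pp_011 (cutB_cons (Pool.Agent.Strip051.G.I1_32_3_64.Tab.St.C.s_B04pp_011_s1 hκ hx hx' (cutB_cons (Pool.Agent.Strip051.G.I1_32_3_64.Tab.altF_B011L_04 hκ hx hx') cutB_nil)) (cutB_cons (Pool.Agent.Strip051.G.I1_32_3_64.Tab.altF_B011L_04 hκ hx hx') cutB_nil)) noExt_B F trivial trivial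

theorem FB04_pp_012 {κ x : ℝ} (hκ : κ * h0 = ken x) (hx : ((33554432 : ℕ) : ℝ) / S ≤ x) (hx' : x ≤ (((33554432 : ℕ) : ℝ) + (16777216 : ℕ)) / S) :
    TriB PP.cur (farS κ (h0 * x) (tbl tKF x) (tbl tL x)) 0 1 2 0 4 1 1 :=
  (sideF hx hx').farB (Or.inl rfl) (Or.inl rfl) fun y y' F =>
    farB_cert (s1 := true) (s2 := true) rfl hκ covF00 covF42 hx hx'
        Pool.Agent.Strip051.G.I1_32_3_64.Tab.C.FB04.c_pp_012 (cutB_cons (Pool.Agent.Strip051.G.I1_32_3_64.Tab.St.C.s_B04pp_012_s1 hκ hx hx' (cutB_cons (Pool.Agent.Strip051.G.I1_32_3_64.Tab.altF_B012L_04 hκ hx hx') cutB_nil)) (cutB_cons (Pool.Agent.Strip051.G.I1_32_3_64.Tab.altF_B012L_04 hκ hx hx') cutB_nil)) noExt_B F trivial trivial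

theorem FB04_pp_022 {κ x : ℝ} (hκ : κ * h0 = ken x) (hx : ((33554432 : ℕ) : ℝ) / S ≤ x) (hx' : x ≤ (((33554432 : ℕ) : ℝ) + (16777216 : ℕ)) / S) :
    TriB PP.cur (farS κ (h0 * x) (tbl tKF x) (tbl tL x)) 0 2 2 0 4 1 1 :=
  (sideF hx hx').farB (Or.inl rfl) (Or.inl rfl) fun y y' F =>
    farB_cert (s1 := true) (s2 := true) rfl hκ covF00 covF42 hx hx'
        Pool.Agent.Strip051.G.I1_32_3_64.Tab.C.FB04.c_pp_022 (cutB_cons (Pool.Agent.Strip051.G.I1_32_3_64.Tab.St.C.s_B04pp_022_s1 hκ hx hx' (cutB_cons (Pool.Agent.Strip051.G.I1_32_3_64.Tab.altF_B022L_04 hκ hx hx') cutB_nil)) (cutB_cons (Pool.Agent.Strip051.G.I1_32_3_64.Tab.altF_B022L_04 hκ hx hx') cutB_nil)) noExt_B F trivial trivial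

theorem FB04_pp_023 {κ x : ℝ} (hκ : κ * h0 = ken x) (hx : ((33554432 : ℕ) : ℝ) / S ≤ x) (hx' : x ≤ (((33554432 : ℕ) : ℝ) + (16777216 : ℕ)) / S) :
    TriB PP.cur (farS κ (h0 * x) (tbl tKF x) (tbl tL x)) 0 2 3 0 4 1 1 :=
  (sideF hx hx').farB (Or.inl rfl) (Or.inl rfl) fun y y' F =>
    farB_cert (s1 := true) (s2 := true) rfl hκ covF00 covF43 hx hx'
        Pool.Agent.Strip051.G.I1_32_3_64.Tab.C.FB04.c_pp_023 (cutB_cons (Pool.Agent.Strip051.G.I1_32_3_64.Tab.St.C.s_B04pp_023_s1 hκ hx hx') cutB_nil) noExt_B F trivial trivial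

theorem FB04_pp_033 {κ x : ℝ} (hκ : κ * h0 = ken x) (hx : ((33554432 : ℕ) : ℝ) / S ≤ x) (hx' : x ≤ (((33554432 : ℕ) : ℝ) + (16777216 : ℕ)) / S) :
    TriB PP.cur (farS κ (h0 * x) (tbl tKF x) (tbl tL x)) 0 3 3 0 4 1 1 :=
  (sideF hx hx').farB (Or.inl rfl) (Or.inl rfl) fun y y' F =>
    farB_cert (s1 := true) (s2 := true) rfl hκ covF00 covF43 hx hx'
        Pool.Agent.Strip051.G.I1_32_3_64.Tab.C.FB04.c_pp_033 (cutB_cons (Pool.Agent.Strip051.G.I1_32_3_64.Tab.St.C.s_B04pp_033_s1 hκ hx hx') cutB_nil) noExt_B F trivial trivial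

theorem FB04_pp_101 {κ x : ℝ} (hκ : κ * h0 = ken x) (hx : ((33554432 : ℕ) : ℝ) / S ≤ x) (hx' : x ≤ (((33554432 : ℕ) : ℝ) + (16777216 : ℕ)) / S) :
    TriB PP.cur (farS κ (h0 * x) (tbl tKF x) (tbl tL x)) 1 0 1 0 4 1 1 :=
  (sideF hx hx').farB (Or.inl rfl) (Or.inl rfl) fun y y' F =>
    farB_cert (s1 := true) (s2 := true) rfl hκ covF01 covF41 hx hx'
        Pool.Agent.Strip051.G.I1_32_3_64.Tab.C.FB04.c_pp_101 (cutB_cons (Pool.Agent.Strip051.G.I1_32_3_64.Tab.St.C.s_B04pp_101_s1 hκ hx hx') cutB_nil) noExt_B F trivial trivial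

theorem FB04_pp_102 {κ x : ℝ} (hκ : κ * h0 = ken x) (hx : ((33554432 : ℕ) : ℝ) / S ≤ x) (hx' : x ≤ (((33554432 : ℕ) : ℝ) + (16777216 : ℕ)) / S) :
    TriB PP.cur (farS κ (h0 * x) (tbl tKF x) (tbl tL x)) 1 0 2 0 4 1 1 :=
  (sideF hx hx').farB (Or.inl rfl) (Or.inl rfl) fun y y' F =>
    farB_cert (s1 := true) (s2 := true) rfl hκ covF01 covF42 hx hx'
        Pool.Agent.Strip051.G.I1_32_3_64.Tab.C.FB04.c_pp_102 (cutB_cons (Pool.Agent.Strip051.G.I1_32_3_64.Tab.St.C.s_B04pp_102_s1 hκ hx hx') cutB_nil) noExt_B F trivial trivial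

theorem FB04_pp_112 {κ x : ℝ} (hκ : κ * h0 = ken x) (hx : ((33554432 : ℕ) : ℝ) / S ≤ x) (hx' : x ≤ (((33554432 : ℕ) : ℝ) + (16777216 : ℕ)) / S) :
    TriB PP.cur (farS κ (h0 * x) (tbl tKF x) (tbl tL x)) 1 1 2 0 4 1 1 :=
  (sideF hx hx').farB (Or.inl rfl) (Or.inl rfl) fun y y' F =>
    farB_cert (s1 := true) (s2 := true) rfl hκ covF01 covF42 hx hx'
        Pool.Agent.Strip051.G.I1_32_3_64.Tab.C.FB04.c_pp_112 (cutB_cons (Pool.Agent.Strip051.G.I1_32_3_64.Tab.St.C.s_B04pp_112_s1 hκ hx hx') cutB_nil) noExt_B F trivial trivial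

theorem FB04_pp_113 {κ x : ℝ} (hκ : κ * h0 = ken x) (hx : ((33554432 : ℕ) : ℝ) / S ≤ x) (hx' : x ≤ (((33554432 : ℕ) : ℝ) + (16777216 : ℕ)) / S) :
    TriB PP.cur (farS κ (h0 * x) (tbl tKF x) (tbl tL x)) 1 1 3 0 4 1 1 :=
  (sideF hx hx').farB (Or.inl rfl) (Or.inl rfl) fun y y' F =>
    farB_cert (s1 := true) (s2 := true) rfl hκ covF01 covF43 hx hx'
        Pool.Agent.Strip051.G.I1_32_3_64.Tab.C.FB04.c_pp_113 (cutB_cons (Pool.Agent.Strip051.G.I1_32_3_64.Tab.St.C.s_B04pp_113_s1 hκ hx hx' (cutB_cons (Pool.Agent.Strip051.G.I1_32_3_64.Tab.alt12F_B113_04p hκ hx hx') cutB_nil)) (cutB_cons (Pool.Agent.Strip051.G.I1_32_3_64.Tab.alt12F_B113_04p hκ hx hx') cutB_nil)) noExt_B F trivial trivial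

theorem FB04_pp_123 {κ x : ℝ} (hκ : κ * h0 = ken x) (hx : ((33554432 : ℕ) : ℝ) / S ≤ x) (hx' : x ≤ (((33554432 : ℕ) : ℝ) + (16777216 : ℕ)) / S) :
    TriB PP.cur (farS κ (h0 * x) (tbl tKF x) (tbl tL x)) 1 2 3 0 4 1 1 :=
  (sideF hx hx').farB (Or.inl rfl) (Or.inl rfl) fun y y' F =>
    farB_cert (s1 := true) (s2 := true) rfl hκ covF01 covF43 hx hx'
        Pool.Agent.Strip051.G.I1_32_3_64.Tab.C.FB04.c_pp_123 (cutB_cons (Pool.Agent.Strip051.G.I1_32_3_64.Tab.St.C.s_B04pp_123_s1 hκ hx hx' (cutB_cons (Pool.Agent.Strip051.G.I1_32_3_64.Tab.alt12cF_B123_04p hκ hx hx') cutB_nil)) (cutB_cons (Pool.Agent.Strip051.G.I1_32_3_64.Tab.alt12cF_B123_04p hκ hx hx') cutB_nil)) noExt_B F trivial trivial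

theorem FB04_pp_133 {κ x : ℝ} (hκ : κ * h0 = ken x) (hx : ((33554432 : ℕ) : ℝ) / S ≤ x) (hx' : x ≤ (((33554432 : ℕ) : ℝ) + (16777216 : ℕ)) / S) :
    TriB PP.cur (farS κ (h0 * x) (tbl tKF x) (tbl tL x)) 1 3 3 0 4 1 1 :=
  (sideF hx hx').farB (Or.inl rfl) (Or.inl rfl) fun y y' F =>
    farB_cert (s1 := true) (s2 := true) rfl hκ covF01 covF43 hx hx'
        Pool.Agent.Strip051.G.I1_32_3_64.Tab.C.FB04.c_pp_133 (cutB_cons (Pool.Agent.Strip051.G.I1_32_3_64.Tab.St.C.s_B04pp_133_s1 hκ hx hx') cutB_nil) noExt_B F trivial trivial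

theorem FB04_pp_202 {κ x : ℝ} (hκ : κ * h0 = ken x) (hx : ((33554432 : ℕ) : ℝ) / S ≤ x) (hx' : x ≤ (((33554432 : ℕ) : ℝ) + (16777216 : ℕ)) / S) :
    TriB PP.cur (farS κ (h0 * x) (tbl tKF x) (tbl tL x)) 2 0 2 0 4 1 1 :=
  (sideF hx hx').farB (Or.inl rfl) (Or.inl rfl) fun y y' F =>
    farB_cert (s1 := true) (s2 := true) rfl hκ covF02 covF42 hx hx'
        Pool.Agent.Strip051.G.I1_32_3_64.Tab.C.FB04.c_pp_202 (cutB_cons (Pool.Agent.Strip051.G.I1_32_3_64.Tab.St.C.s_B04pp_202_s1 hκ hx hx') cutB_nil) noExt_B F trivial trivial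

theorem FB04_pp_203 {κ x : ℝ} (hκ : κ * h0 = ken x) (hx : ((33554432 : ℕ) : ℝ) / S ≤ x) (hx' : x ≤ (((33554432 : ℕ) : ℝ) + (16777216 : ℕ)) / S) :
    TriB PP.cur (farS κ (h0 * x) (tbl tKF x) (tbl tL x)) 2 0 3 0 4 1 1 :=
  (sideF hx hx').farB (Or.inl rfl) (Or.inl rfl) fun y y' F =>
    farB_cert (s1 := true) (s2 := true) rfl hκ covF02 covF43 hx hx'
        Pool.Agent.Strip051.G.I1_32_3_64.Tab.C.FB04.c_pp_203 (cutB_cons (Pool.Agent.Strip051.G.I1_32_3_64.Tab.St.C.s_B04pp_203_s1 hκ hx hx') cutB_nil) noExt_B F trivial trivial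

theorem FB04_pp_213 {κ x : ℝ} (hκ : κ * h0 = ken x) (hx : ((33554432 : ℕ) : ℝ) / S ≤ x) (hx' : x ≤ (((33554432 : ℕ) : ℝ) + (16777216 : ℕ)) / S) :
    TriB PP.cur (farS κ (h0 * x) (tbl tKF x) (tbl tL x)) 2 1 3 0 4 1 1 :=
  (sideF hx hx').farB (Or.inl rfl) (Or.inl rfl) fun y y' F =>
    farB_cert (s1 := true) (s2 := true) rfl hκ covF02 covF43 hx hx'
        Pool.Agent.Strip051.G.I1_32_3_64.Tab.C.FB04.c_pp_213 (cutB_cons (Pool.Agent.Strip051.G.I1_32_3_64.Tab.St.C.s_B04pp_213_s1 hκ hx hx' (cutB_cons (Pool.Agent.Strip051.G.I1_32_3_64.Tab.alt12F_B213_04p hκ hx hx') cutB_nil)) (cutB_cons (Pool.Agent.Strip051.G.I1_32_3_64.Tab.alt12F_B213_04p hκ hx hx') cutB_nil)) noExt_B F trivial trivial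

theorem FB04_pp_303 {κ x : ℝ} (hκ : κ * h0 = ken x) (hx : ((33554432 : ℕ) : ℝ) / S ≤ x) (hx' : x ≤ (((33554432 : ℕ) : ℝ) + (16777216 : ℕ)) / S) :
    TriB PP.cur (farS κ (h0 * x) (tbl tKF x) (tbl tL x)) 3 0 3 0 4 1 1 :=
  triB_j0

theorem FB04_pp_313 {κ x : ℝ} (hκ : κ * h0 = ken x) (hx : ((33554432 : ℕ) : ℝ) / S ≤ x) (hx' : x ≤ (((33554432 : ℕ) : ℝ) + (16777216 : ℕ)) / S) :
    TriB PP.cur (farS κ (h0 * x) (tbl tKF x) (tbl tL x)) 3 1 3 0 4 1 1 :=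
  triB_j0

theorem FB04_pm_001 {κ x : ℝ} (hκ : κ * h0 = ken x) (hx : ((33554432 : ℕ) : ℝ) / S ≤ x) (hx' : x ≤ (((33554432 : ℕ) : ℝ) + (16777216 : ℕ)) / S) :
    TriB PP.cur (farS κ (h0 * x) (tbl tKF x) (tbl tL x)) 0 0 1 0 4 1 (-1) :=
  (sideF hx hx').farB (Or.inl rfl) (Or.inr rfl) fun y y' F =>
    farB_cert (s1 := true) (s2 := false) rfl hκ covF00 covF41 hx hx'
        Pool.Agent.Strip051.G.I1_32_3_64.Tab.C.FB04.c_pm_001 (cutB_cons (Pool.Agent.Strip051.G.I1_32_3_64.Tab.St.C.s_B04pm_001_s1 hκ hx hx') cutB_nil) noExt_B F trivial trivial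

theorem FB04_pm_011 {κ x : ℝ} (hκ : κ * h0 = ken x) (hx : ((33554432 : ℕ) : ℝ) / S ≤ x) (hx' : x ≤ (((33554432 : ℕ) : ℝ) + (16777216 : ℕ)) / S) :
    TriB PP.cur (farS κ (h0 * x) (tbl tKF x) (tbl tL x)) 0 1 1 0 4 1 (-1) :=
  (sideF hx hx').farB (Or.inl rfl) (Or.inr rfl) fun y y' F =>
    farB_cert (s1 := true) (s2 := false) rfl hκ covF00 covF41 hx hx'
        Pool.Agent.Strip051.G.I1_32_3_64.Tab.C.FB04.c_pm_011 (cutB_cons (Pool.Agent.Strip051.G.I1_32_3_64.Tab.St.C.s_B04pm_011_s1 hκ hx hx') cutB_nil) noExt_B F trivial trivial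

theorem FB04_pm_012 {κ x : ℝ} (hκ : κ * h0 = ken x) (hx : ((33554432 : ℕ) : ℝ) / S ≤ x) (hx' : x ≤ (((33554432 : ℕ) : ℝ) + (16777216 : ℕ)) / S) :
    TriB PP.cur (farS κ (h0 * x) (tbl tKF x) (tbl tL x)) 0 1 2 0 4 1 (-1) :=
  (sideF hx hx').farB (Or.inl rfl) (Or.inr rfl) fun y y' F =>
    farB_cert (s1 := true) (s2 := false) rfl hκ covF00 covF42 hx hx'
        Pool.Agent.Strip051.G.I1_32_3_64.Tab.C.FB04.c_pm_012 (cutB_cons (Pool.Agent.Strip051.G.I1_32_3_64.Tab.St.C.s_B04pm_012_s1 hκ hx hx') cutB_nil) noExt_B F trivial trivial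

theorem FB04_pm_022 {κ x : ℝ} (hκ : κ * h0 = ken x) (hx : ((33554432 : ℕ) : ℝ) / S ≤ x) (hx' : x ≤ (((33554432 : ℕ) : ℝ) + (16777216 : ℕ)) / S) :
    TriB PP.cur (farS κ (h0 * x) (tbl tKF x) (tbl tL x)) 0 2 2 0 4 1 (-1) :=
  (sideF hx hx').farB (Or.inl rfl) (Or.inr rfl) fun y y' F =>
    farB_cert (s1 := true) (s2 := false) rfl hκ covF00 covF42 hx hx'
        Pool.Agent.Strip051.G.I1_32_3_64.Tab.C.FB04.c_pm_022 (cutB_cons (Pool.Agent.Strip051.G.I1_32_3_64.Tab.St.C.s_B04pm_022_s1 hκ hx hx') cutB_nil) noExt_B F trivial trivial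

theorem FB04_pm_023 {κ x : ℝ} (hκ : κ * h0 = ken x) (hx : ((33554432 : ℕ) : ℝ) / S ≤ x) (hx' : x ≤ (((33554432 : ℕ) : ℝ) + (16777216 : ℕ)) / S) :
    TriB PP.cur (farS κ (h0 * x) (tbl tKF x) (tbl tL x)) 0 2 3 0 4 1 (-1) :=
  (sideF hx hx').farB (Or.inl rfl) (Or.inr rfl) fun y y' F =>
    farB_cert (s1 := true) (s2 := false) rfl hκ covF00 covF43 hx hx'
        Pool.Agent.Strip051.G.I1_32_3_64.Tab.C.FB04.c_pm_023 (cutB_cons (Pool.Agent.Strip051.G.I1_32_3_64.Tab.St.C.s_B04pm_023_s1 hκ hx hx') cutB_nil) noExt_B F trivial trivial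

theorem FB04_pm_033 {κ x : ℝ} (hκ : κ * h0 = ken x) (hx : ((33554432 : ℕ) : ℝ) / S ≤ x) (hx' : x ≤ (((33554432 : ℕ) : ℝ) + (16777216 : ℕ)) / S) :
    TriB PP.cur (farS κ (h0 * x) (tbl tKF x) (tbl tL x)) 0 3 3 0 4 1 (-1) :=
  (sideF hx hx').farB (Or.inl rfl) (Or.inr rfl) fun y y' F =>
    farB_cert (s1 := true) (s2 := false) rfl hκ covF00 covF43 hx hx'
        Pool.Agent.Strip051.G.I1_32_3_64.Tab.C.FB04.c_pm_033 (cutB_cons (Pool.Agent.Strip051.G.I1_32_3_64.Tab.St.C.s_B04pm_033_s1 hκ hx hx') cutB_nil) noExt_B F trivial trivial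

theorem FB04_pm_101 {κ x : ℝ} (hκ : κ * h0 = ken x) (hx : ((33554432 : ℕ) : ℝ) / S ≤ x) (hx' : x ≤ (((33554432 : ℕ) : ℝ) + (16777216 : ℕ)) / S) :
    TriB PP.cur (farS κ (h0 * x) (tbl tKF x) (tbl tL x)) 1 0 1 0 4 1 (-1) :=
  (sideF hx hx').farB (Or.inl rfl) (Or.inr rfl) fun y y' F =>
    farB_cert (s1 := true) (s2 := false) rfl hκ covF01 covF41 hx hx'
        Pool.Agent.Strip051.G.I1_32_3_64.Tab.C.FB04.c_pm_101 (cutB_cons (Pool.Agent.Strip051.G.I1_32_3_64.Tab.St.C.s_B04pm_101_s1 hκ hx hx') cutB_nil) noExt_B F trivial trivial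

theorem FB04_pm_102 {κ x : ℝ} (hκ : κ * h0 = ken x) (hx : ((33554432 : ℕ) : ℝ) / S ≤ x) (hx' : x ≤ (((33554432 : ℕ) : ℝ) + (16777216 : ℕ)) / S) :
    TriB PP.cur (farS κ (h0 * x) (tbl tKF x) (tbl tL x)) 1 0 2 0 4 1 (-1) :=
  (sideF hx hx').farB (Or.inl rfl) (Or.inr rfl) fun y y' F =>
    farB_cert (s1 := true) (s2 := false) rfl hκ covF01 covF42 hx hx'
        Pool.Agent.Strip051.G.I1_32_3_64.Tab.C.FB04.c_pm_102 (cutB_cons (Pool.Agent.Strip051.G.I1_32_3_64.Tab.St.C.s_B04pm_102_s1 hκ hx hx') cutB_nil) noExt_B F trivial trivial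

theorem FB04_pm_112 {κ x : ℝ} (hκ : κ * h0 = ken x) (hx : ((33554432 : ℕ) : ℝ) / S ≤ x) (hx' : x ≤ (((33554432 : ℕ) : ℝ) + (16777216 : ℕ)) / S) :
    TriB PP.cur (farS κ (h0 * x) (tbl tKF x) (tbl tL x)) 1 1 2 0 4 1 (-1) :=
  (sideF hx hx').farB (Or.inl rfl) (Or.inr rfl) fun y y' F =>
    farB_cert (s1 := true) (s2 := false) rfl hκ covF01 covF42 hx hx'
        Pool.Agent.Strip051.G.I1_32_3_64.Tab.C.FB04.c_pm_112 (cutB_cons (Pool.Agent.Strip051.G.I1_32_3_64.Tab.St.C.s_B04pm_112_s1 hκ hx hx') cutB_nil) noExt_B F trivial trivial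

theorem FB04_pm_113 {κ x : ℝ} (hκ : κ * h0 = ken x) (hx : ((33554432 : ℕ) : ℝ) / S ≤ x) (hx' : x ≤ (((33554432 : ℕ) : ℝ) + (16777216 : ℕ)) / S) :
    TriB PP.cur (farS κ (h0 * x) (tbl tKF x) (tbl tL x)) 1 1 3 0 4 1 (-1) :=
  (sideF hx hx').farB (Or.inl rfl) (Or.inr rfl) fun y y' F =>
    farB_cert (s1 := true) (s2 := false) rfl hκ covF01 covF43 hx hx'
        Pool.Agent.Strip051.G.I1_32_3_64.Tab.C.FB04.c_pm_113 (cutB_cons (Pool.Agent.Strip051.G.I1_32_3_64.Tab.St.C.s_B04pm_113_s1 hκ hx hx' (cutB_cons (Pool.Agent.Strip051.G.I1_32_3_64.Tab.alt12F_B113_04m hκ hx hx') cutB_nil)) (cutB_cons (Pool.Agent.Strip051.G.I1_32_3_64.Tab.alt12F_B113_04m hκ hx hx') cutB_nil)) noExt_B F trivial trivial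

theorem FB04_pm_123 {κ x : ℝ} (hκ : κ * h0 = ken x) (hx : ((33554432 : ℕ) : ℝ) / S ≤ x) (hx' : x ≤ (((33554432 : ℕ) : ℝ) + (16777216 : ℕ)) / S) :
    TriB PP.cur (farS κ (h0 * x) (tbl tKF x) (tbl tL x)) 1 2 3 0 4 1 (-1) :=
  (sideF hx hx').farB (Or.inl rfl) (Or.inr rfl) fun y y' F =>
    farB_cert (s1 := true) (s2 := false) rfl hκ covF01 covF43 hx hx'
        Pool.Agent.Strip051.G.I1_32_3_64.Tab.C.FB04.c_pm_123 (cutB_cons (Pool.Agent.Strip051.G.I1_32_3_64.Tab.St.C.s_B04pm_123_s1 hκ hx hx' (cutB_cons (Pool.Agent.Strip051.G.I1_32_3_64.Tab.alt12F_B123_04m hκ hx hx') cutB_nil)) (cutB_cons (Pool.Agent.Strip051.G.I1_32_3_64.Tab.alt12F_B123_04m hκ hx hx') cutB_nil)) noExt_B F trivial trivial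

theorem FB04_pm_133 {κ x : ℝ} (hκ : κ * h0 = ken x) (hx : ((33554432 : ℕ) : ℝ) / S ≤ x) (hx' : x ≤ (((33554432 : ℕ) : ℝ) + (16777216 : ℕ)) / S) :
    TriB PP.cur (farS κ (h0 * x) (tbl tKF x) (tbl tL x)) 1 3 3 0 4 1 (-1) :=
  (sideF hx hx').farB (Or.inl rfl) (Or.inr rfl) fun y y' F =>
    farB_cert (s1 := true) (s2 := false) rfl hκ covF01 covF43 hx hx'
        Pool.Agent.Strip051.G.I1_32_3_64.Tab.C.FB04.c_pm_133 (cutB_cons (Pool.Agent.Strip051.G.I1_32_3_64.Tab.St.C.s_B04pm_133_s1 hκ hx hx') cutB_nil) noExt_B F trivial trivial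

theorem FB04_pm_202 {κ x : ℝ} (hκ : κ * h0 = ken x) (hx : ((33554432 : ℕ) : ℝ) / S ≤ x) (hx' : x ≤ (((33554432 : ℕ) : ℝ) + (16777216 : ℕ)) / S) :
    TriB PP.cur (farS κ (h0 * x) (tbl tKF x) (tbl tL x)) 2 0 2 0 4 1 (-1) :=
  (sideF hx hx').farB (Or.inl rfl) (Or.inr rfl) fun y y' F =>
    farB_cert (s1 := true) (s2 := false) rfl hκ covF02 covF42 hx hx'
        Pool.Agent.Strip051.G.I1_32_3_64.Tab.C.FB04.c_pm_202 (cutB_cons (Pool.Agent.Strip051.G.I1_32_3_64.Tab.St.C.s_B04pm_202_s1 hκ hx hx') cutB_nil) noExt_B F trivial trivial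

theorem FB04_pm_203 {κ x : ℝ} (hκ : κ * h0 = ken x) (hx : ((33554432 : ℕ) : ℝ) / S ≤ x) (hx' : x ≤ (((33554432 : ℕ) : ℝ) + (16777216 : ℕ)) / S) :
    TriB PP.cur (farS κ (h0 * x) (tbl tKF x) (tbl tL x)) 2 0 3 0 4 1 (-1) :=
  (sideF hx hx').farB (Or.inl rfl) (Or.inr rfl) fun y y' F =>
    farB_cert (s1 := true) (s2 := false) rfl hκ covF02 covF43 hx hx'
        Pool.Agent.Strip051.G.I1_32_3_64.Tab.C.FB04.c_pm_203 (cutB_cons (Pool.Agent.Strip051.G.I1_32_3_64.Tab.St.C.s_B04pm_203_s1 hκ hx hx') cutB_nil) noExt_B F trivial trivial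

theorem FB04_pm_213 {κ x : ℝ} (hκ : κ * h0 = ken x) (hx : ((33554432 : ℕ) : ℝ) / S ≤ x) (hx' : x ≤ (((33554432 : ℕ) : ℝ) + (16777216 : ℕ)) / S) :
    TriB PP.cur (farS κ (h0 * x) (tbl tKF x) (tbl tL x)) 2 1 3 0 4 1 (-1) :=
  (sideF hx hx').farB (Or.inl rfl) (Or.inr rfl) fun y y' F =>
    farB_cert (s1 := true) (s2 := false) rfl hκ covF02 covF43 hx hx'
        Pool.Agent.Strip051.G.I1_32_3_64.Tab.C.FB04.c_pm_213 (cutB_cons (Pool.Agent.Strip051.G.I1_32_3_64.Tab.St.C.s_B04pm_213_s1 hκ hx hx' (cutB_cons (Pool.Agent.Strip051.G.I1_32_3_64.Tab.alt12cF_B213_04m hκ hx hx') cutB_nil)) (cutB_cons (Pool.Agent.Strip051.G.I1_32_3_64.Tab.alt12cF_B213_04m hκ hx hx') cutB_nil)) noExt_B F trivial trivial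

theorem FB04_pm_303 {κ x : ℝ} (hκ : κ * h0 = ken x) (hx : ((33554432 : ℕ) : ℝ) / S ≤ x) (hx' : x ≤ (((33554432 : ℕ) : ℝ) + (16777216 : ℕ)) / S) :
    TriB PP.cur (farS κ (h0 * x) (tbl tKF x) (tbl tL x)) 3 0 3 0 4 1 (-1) :=
  triB_j0

theorem FB04_pm_313 {κ x : ℝ} (hκ : κ * h0 = ken x) (hx : ((33554432 : ℕ) : ℝ) / S ≤ x) (hx' : x ≤ (((33554432 : ℕ) : ℝ) + (16777216 : ℕ)) / S) :
    TriB PP.cur (farS κ (h0 * x) (tbl tKF x) (tbl tL x)) 3 1 3 0 4 1 (-1) :=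
  triB_j0

theorem FB04_mm_001 {κ x : ℝ} (hκ : κ * h0 = ken x) (hx : ((33554432 : ℕ) : ℝ) / S ≤ x) (hx' : x ≤ (((33554432 : ℕ) : ℝ) + (16777216 : ℕ)) / S) :
    TriB PP.cur (farS κ (h0 * x) (tbl tKF x) (tbl tL x)) 0 0 1 0 4 (-1) (-1) :=
  (sideF hx hx').farB (Or.inr rfl) (Or.inr rfl) fun y y' F =>
    farB_cert (s1 := false) (s2 := false) rfl hκ covF00 covF41 hx hx'
        Pool.Agent.Strip051.G.I1_32_3_64.Tab.C.FB04.c_mm_001 (cutB_cons (Pool.Agent.Strip051.G.I1_32_3_64.Tab.St.C.s_B04mm_001_s1 hκ hx hx') cutB_nil) noExt_B F trivial trivial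

theorem FB04_mm_011 {κ x : ℝ} (hκ : κ * h0 = ken x) (hx : ((33554432 : ℕ) : ℝ) / S ≤ x) (hx' : x ≤ (((33554432 : ℕ) : ℝ) + (16777216 : ℕ)) / S) :
    TriB PP.cur (farS κ (h0 * x) (tbl tKF x) (tbl tL x)) 0 1 1 0 4 (-1) (-1) :=
  (sideF hx hx').farB (Or.inr rfl) (Or.inr rfl) fun y y' F =>
    farB_cert (s1 := false) (s2 := false) rfl hκ covF00 covF41 hx hx'
        Pool.Agent.Strip051.G.I1_32_3_64.Tab.C.FB04.c_mm_011 (cutB_cons (Pool.Agent.Strip051.G.I1_32_3_64.Tab.St.C.s_B04mm_011_s1 hκ hx hx') cutB_nil) noExt_B F trivial trivial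

theorem FB04_mm_012 {κ x : ℝ} (hκ : κ * h0 = ken x) (hx : ((33554432 : ℕ) : ℝ) / S ≤ x) (hx' : x ≤ (((33554432 : ℕ) : ℝ) + (16777216 : ℕ)) / S) :
    TriB PP.cur (farS κ (h0 * x) (tbl tKF x) (tbl tL x)) 0 1 2 0 4 (-1) (-1) :=
  (sideF hx hx').farB (Or.inr rfl) (Or.inr rfl) fun y y' F =>
    farB_cert (s1 := false) (s2 := false) rfl hκ covF00 covF42 hx hx'
        Pool.Agent.Strip051.G.I1_32_3_64.Tab.C.FB04.c_mm_012 (cutB_cons (Pool.Agent.Strip051.G.I1_32_3_64.Tab.St.C.s_B04mm_012_s1 hκ hx hx') cutB_nil) noExt_B F trivial trivial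

theorem FB04_mm_022 {κ x : ℝ} (hκ : κ * h0 = ken x) (hx : ((33554432 : ℕ) : ℝ) / S ≤ x) (hx' : x ≤ (((33554432 : ℕ) : ℝ) + (16777216 : ℕ)) / S) :
    TriB PP.cur (farS κ (h0 * x) (tbl tKF x) (tbl tL x)) 0 2 2 0 4 (-1) (-1) :=
  (sideF hx hx').farB (Or.inr rfl) (Or.inr rfl) fun y y' F =>
    farB_cert (s1 := false) (s2 := false) rfl hκ covF00 covF42 hx hx'
        Pool.Agent.Strip051.G.I1_32_3_64.Tab.C.FB04.c_mm_022 (cutB_cons (Pool.Agent.Strip051.G.I1_32_3_64.Tab.St.C.s_B04mm_022_s1 hκ hx hx') cutB_nil) noExt_B F trivial trivial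

theorem FB04_mm_023 {κ x : ℝ} (hκ : κ * h0 = ken x) (hx : ((33554432 : ℕ) : ℝ) / S ≤ x) (hx' : x ≤ (((33554432 : ℕ) : ℝ) + (16777216 : ℕ)) / S) :
    TriB PP.cur (farS κ (h0 * x) (tbl tKF x) (tbl tL x)) 0 2 3 0 4 (-1) (-1) :=
  (sideF hx hx').farB (Or.inr rfl) (Or.inr rfl) fun y y' F =>
    farB_cert (s1 := false) (s2 := false) rfl hκ covF00 covF43 hx hx'
        Pool.Agent.Strip051.G.I1_32_3_64.Tab.C.FB04.c_mm_023 (cutB_cons (Pool.Agent.Strip051.G.I1_32_3_64.Tab.St.C.s_B04mm_023_s1 hκ hx hx') cutB_nil) noExt_B F trivial trivial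

theorem FB04_mm_033 {κ x : ℝ} (hκ : κ * h0 = ken x) (hx : ((33554432 : ℕ) : ℝ) / S ≤ x) (hx' : x ≤ (((33554432 : ℕ) : ℝ) + (16777216 : ℕ)) / S) :
    TriB PP.cur (farS κ (h0 * x) (tbl tKF x) (tbl tL x)) 0 3 3 0 4 (-1) (-1) :=
  (sideF hx hx').farB (Or.inr rfl) (Or.inr rfl) fun y y' F =>
    farB_cert (s1 := false) (s2 := false) rfl hκ covF00 covF43 hx hx'
        Pool.Agent.Strip051.G.I1_32_3_64.Tab.C.FB04.c_mm_033 (cutB_cons (Pool.Agent.Strip051.G.I1_32_3_64.Tab.St.C.s_B04mm_033_s1 hκ hx hx') cutB_nil) noExt_B F trivial trivial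

theorem FB04_mm_101 {κ x : ℝ} (hκ : κ * h0 = ken x) (hx : ((33554432 : ℕ) : ℝ) / S ≤ x) (hx' : x ≤ (((33554432 : ℕ) : ℝ) + (16777216 : ℕ)) / S) :
    TriB PP.cur (farS κ (h0 * x) (tbl tKF x) (tbl tL x)) 1 0 1 0 4 (-1) (-1) :=
  (sideF hx hx').farB (Or.inr rfl) (Or.inr rfl) fun y y' F =>
    farB_cert (s1 := false) (s2 := false) rfl hκ covF01 covF41 hx hx'
        Pool.Agent.Strip051.G.I1_32_3_64.Tab.C.FB04.c_mm_101 (cutB_cons (Pool.Agent.Strip051.G.I1_32_3_64.Tab.St.C.s_B04mm_101_s1 hκ hx hx' (cutB_cons (Pool.Agent.Strip051.G.I1_32_3_64.Tab.altF_B101R_04 hκ hx hx') cutB_nil)) (cutB_cons (Pool.Agent.Strip051.G.I1_32_3_64.Tab.altF_B101R_04 hκ hx hx') cutB_nil)) noExt_B F trivial trivial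

theorem FB04_mm_102 {κ x : ℝ} (hκ : κ * h0 = ken x) (hx : ((33554432 : ℕ) : ℝ) / S ≤ x) (hx' : x ≤ (((33554432 : ℕ) : ℝ) + (16777216 : ℕ)) / S) :
    TriB PP.cur (farS κ (h0 * x) (tbl tKF x) (tbl tL x)) 1 0 2 0 4 (-1) (-1) :=
  (sideF hx hx').farB (Or.inr rfl) (Or.inr rfl) fun y y' F =>
    farB_cert (s1 := false) (s2 := false) rfl hκ covF01 covF42 hx hx'
        Pool.Agent.Strip051.G.I1_32_3_64.Tab.C.FB04.c_mm_102 (cutB_cons (Pool.Agent.Strip051.G.I1_32_3_64.Tab.St.C.s_B04mm_102_s1 hκ hx hx' (cutB_cons (Pool.Agent.Strip051.G.I1_32_3_64.Tab.altF_B102R_04 hκ hx hx') cutB_nil)) (cutB_cons (Pool.Agent.Strip051.G.I1_32_3_64.Tab.altF_B102R_04 hκ hx hx') cutB_nil)) noExt_B F trivial trivial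

theorem FB04_mm_112 {κ x : ℝ} (hκ : κ * h0 = ken x) (hx : ((33554432 : ℕ) : ℝ) / S ≤ x) (hx' : x ≤ (((33554432 : ℕ) : ℝ) + (16777216 : ℕ)) / S) :
    TriB PP.cur (farS κ (h0 * x) (tbl tKF x) (tbl tL x)) 1 1 2 0 4 (-1) (-1) :=
  (sideF hx hx').farB (Or.inr rfl) (Or.inr rfl) fun y y' F =>
    farB_cert (s1 := false) (s2 := false) rfl hκ covF01 covF42 hx hx'
        Pool.Agent.Strip051.G.I1_32_3_64.Tab.C.FB04.c_mm_112 (cutB_cons (Pool.Agent.Strip051.G.I1_32_3_64.Tab.St.C.s_B04mm_112_s1 hκ hx hx') cutB_nil) noExt_B F trivial trivial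

theorem FB04_mm_113 {κ x : ℝ} (hκ : κ * h0 = ken x) (hx : ((33554432 : ℕ) : ℝ) / S ≤ x) (hx' : x ≤ (((33554432 : ℕ) : ℝ) + (16777216 : ℕ)) / S) :
    TriB PP.cur (farS κ (h0 * x) (tbl tKF x) (tbl tL x)) 1 1 3 0 4 (-1) (-1) :=
  (sideF hx hx').farB (Or.inr rfl) (Or.inr rfl) fun y y' F =>
    farB_cert (s1 := false) (s2 := false) rfl hκ covF01 covF43 hx hx'
        Pool.Agent.Strip051.G.I1_32_3_64.Tab.C.FB04.c_mm_113 (cutB_cons (Pool.Agent.Strip051.G.I1_32_3_64.Tab.St.C.s_B04mm_113_s1 hκ hx hx') cutB_nil) noExt_B F trivial trivial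

theorem FB04_mm_123 {κ x : ℝ} (hκ : κ * h0 = ken x) (hx : ((33554432 : ℕ) : ℝ) / S ≤ x) (hx' : x ≤ (((33554432 : ℕ) : ℝ) + (16777216 : ℕ)) / S) :
    TriB PP.cur (farS κ (h0 * x) (tbl tKF x) (tbl tL x)) 1 2 3 0 4 (-1) (-1) :=
  (sideF hx hx').farB (Or.inr rfl) (Or.inr rfl) fun y y' F =>
    farB_cert (s1 := false) (s2 := false) rfl hκ covF01 covF43 hx hx'
        Pool.Agent.Strip051.G.I1_32_3_64.Tab.C.FB04.c_mm_123 (cutB_cons (Pool.Agent.Strip051.G.I1_32_3_64.Tab.St.C.s_B04mm_123_s1 hκ hx hx') cutB_nil) noExt_B F trivial trivial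

theorem FB04_mm_133 {κ x : ℝ} (hκ : κ * h0 = ken x) (hx : ((33554432 : ℕ) : ℝ) / S ≤ x) (hx' : x ≤ (((33554432 : ℕ) : ℝ) + (16777216 : ℕ)) / S) :
    TriB PP.cur (farS κ (h0 * x) (tbl tKF x) (tbl tL x)) 1 3 3 0 4 (-1) (-1) :=
  (sideF hx hx').farB (Or.inr rfl) (Or.inr rfl) fun y y' F =>
    farB_cert (s1 := false) (s2 := false) rfl hκ covF01 covF43 hx hx'
        Pool.Agent.Strip051.G.I1_32_3_64.Tab.C.FB04.c_mm_133 (cutB_cons (Pool.Agent.Strip051.G.I1_32_3_64.Tab.St.C.s_B04mm_133_s1 hκ hx hx') cutB_nil) noExt_B F trivial trivial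

theorem FB04_mm_202 {κ x : ℝ} (hκ : κ * h0 = ken x) (hx : ((33554432 : ℕ) : ℝ) / S ≤ x) (hx' : x ≤ (((33554432 : ℕ) : ℝ) + (16777216 : ℕ)) / S) :
    TriB PP.cur (farS κ (h0 * x) (tbl tKF x) (tbl tL x)) 2 0 2 0 4 (-1) (-1) :=
  (sideF hx hx').farB (Or.inr rfl) (Or.inr rfl) fun y y' F =>
    farB_cert (s1 := false) (s2 := false) rfl hκ covF02 covF42 hx hx'
        Pool.Agent.Strip051.G.I1_32_3_64.Tab.C.FB04.c_mm_202 (cutB_cons (Pool.Agent.Strip051.G.I1_32_3_64.Tab.St.C.s_B04mm_202_s1 hκ hx hx' (cutB_cons (Pool.Agent.Strip051.G.I1_32_3_64.Tab.altF_B202R_04 hκ hx hx') cutB_nil)) (cutB_cons (Pool.Agent.Strip051.G.I1_32_3_64.Tab.altF_B202R_04 hκ hx hx') cutB_nil)) noExt_B F trivial trivial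

theorem FB04_mm_203 {κ x : ℝ} (hκ : κ * h0 = ken x) (hx : ((33554432 : ℕ) : ℝ) / S ≤ x) (hx' : x ≤ (((33554432 : ℕ) : ℝ) + (16777216 : ℕ)) / S) :
    TriB PP.cur (farS κ (h0 * x) (tbl tKF x) (tbl tL x)) 2 0 3 0 4 (-1) (-1) :=
  (sideF hx hx').farB (Or.inr rfl) (Or.inr rfl) fun y y' F =>
    farB_cert (s1 := false) (s2 := false) rfl hκ covF02 covF43 hx hx'
        Pool.Agent.Strip051.G.I1_32_3_64.Tab.C.FB04.c_mm_203 (cutB_cons (Pool.Agent.Strip051.G.I1_32_3_64.Tab.St.C.s_B04mm_203_s1 hκ hx hx') cutB_nil) noExt_B F trivial trivial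

theorem FB04_mm_213 {κ x : ℝ} (hκ : κ * h0 = ken x) (hx : ((33554432 : ℕ) : ℝ) / S ≤ x) (hx' : x ≤ (((33554432 : ℕ) : ℝ) + (16777216 : ℕ)) / S) :
    TriB PP.cur (farS κ (h0 * x) (tbl tKF x) (tbl tL x)) 2 1 3 0 4 (-1) (-1) :=
  (sideF hx hx').farB (Or.inr rfl) (Or.inr rfl) fun y y' F =>
    farB_cert (s1 := false) (s2 := false) rfl hκ covF02 covF43 hx hx'
        Pool.Agent.Strip051.G.I1_32_3_64.Tab.C.FB04.c_mm_213 (cutB_cons (Pool.Agent.Strip051.G.I1_32_3_64.Tab.St.C.s_B04mm_213_s1 hκ hx hx') cutB_nil) noExt_B F trivial trivial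

theorem FB04_mm_303 {κ x : ℝ} (hκ : κ * h0 = ken x) (hx : ((33554432 : ℕ) : ℝ) / S ≤ x) (hx' : x ≤ (((33554432 : ℕ) : ℝ) + (16777216 : ℕ)) / S) :
    TriB PP.cur (farS κ (h0 * x) (tbl tKF x) (tbl tL x)) 3 0 3 0 4 (-1) (-1) :=
  triB_j0

theorem FB04_mm_313 {κ x : ℝ} (hκ : κ * h0 = ken x) (hx : ((33554432 : ℕ) : ℝ) / S ≤ x) (hx' : x ≤ (((33554432 : ℕ) : ℝ) + (16777216 : ℕ)) / S) :
    TriB PP.cur (farS κ (h0 * x) (tbl tKF x) (tbl tL x)) 3 1 3 0 4 (-1) (-1) :=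
  triB_j0

theorem FB04 {κ x : ℝ} (hκ : κ * h0 = ken x) (hx : ((33554432 : ℕ) : ℝ) / S ≤ x) (hx' : x ≤ (((33554432 : ℕ) : ℝ) + (16777216 : ℕ)) / S) : AllTB PP.cur (farS κ (h0 * x) (tbl tKF x) (tbl tL x)) 0 4 where
  pp := all17 (Q := fun a b c => TriB PP.cur (farS κ (h0 * x) (tbl tKF x) (tbl tL x)) a b c 0 4 1 1)
    (FB04_pp_001 hκ hx hx') (FB04_pp_011 hκ hx hx') (FB04_pp_012 hκ hx hx') (FB04_pp_022 hκ hx hx') (FB04_pp_023 hκ hx hx') (FB04_pp_033 hκ hx hx') (FB04_pp_101 hκ hx hx') (FB04_pp_102 hκ hx hx') (FB04_pp_112 hκ hx hx') (FB04_pp_113 hκ hx hx') (FB04_pp_123 hκ hx hx') (FB04_pp_133 hκ hx hx') (FB04_pp_202 hκ hx hx') (FB04_pp_203 hκ hx hx') (FB04_pp_213 hκ hx hx') (FB04_pp_303 hκ hx hx') (FB04_pp_313 hκ hx hx')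
  pm := all17 (Q := fun a b c => TriB PP.cur (farS κ (h0 * x) (tbl tKF x) (tbl tL x)) a b c 0 4 1 (-1))
    (FB04_pm_001 hκ hx hx') (FB04_pm_011 hκ hx hx') (FB04_pm_012 hκ hx hx') (FB04_pm_022 hκ hx hx') (FB04_pm_023 hκ hx hx') (FB04_pm_033 hκ hx hx') (FB04_pm_101 hκ hx hx') (FB04_pm_102 hκ hx hx') (FB04_pm_112 hκ hx hx') (FB04_pm_113 hκ hx hx') (FB04_pm_123 hκ hx hx') (FB04_pm_133 hκ hx hx') (FB04_pm_202 hκ hx hx') (FB04_pm_203 hκ hx hx') (FB04_pm_213 hκ hx hx') (FB04_pm_303 hκ hx hx') (FB04_pm_313 hκ hx hx')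
  mm := all17 (Q := fun a b c => TriB PP.cur (farS κ (h0 * x) (tbl tKF x) (tbl tL x)) a b c 0 4 (-1) (-1))
    (FB04_mm_001 hκ hx hx') (FB04_mm_011 hκ hx hx') (FB04_mm_012 hκ hx hx') (FB04_mm_022 hκ hx hx') (FB04_mm_023 hκ hx hx') (FB04_mm_033 hκ hx hx') (FB04_mm_101 hκ hx hx') (FB04_mm_102 hκ hx hx') (FB04_mm_112 hκ hx hx') (FB04_mm_113 hκ hx hx') (FB04_mm_123 hκ hx hx') (FB04_mm_133 hκ hx hx') (FB04_mm_202 hκ hx hx') (FB04_mm_203 hκ hx hx') (FB04_mm_213 hκ hx hx') (FB04_mm_303 hκ hx hx') (FB04_mm_313 hκ hx hx')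

theorem FB10_pp_001 {κ x : ℝ} (hκ : κ * h0 = ken x) (hx : ((33554432 : ℕ) : ℝ) / S ≤ x) (hx' : x ≤ (((33554432 : ℕ) : ℝ) + (16777216 : ℕ)) / S) :
    TriB PP.cur (farS κ (h0 * x) (tbl tKF x) (tbl tL x)) 0 0 1 1 0 1 1 :=
  (sideF hx hx').farB (Or.inl rfl) (Or.inl rfl) fun y y' F =>
    farB_cert (s1 := true) (s2 := true) rfl hκ covF10 covF01 hx hx'
        Pool.Agent.Strip051.G.I1_32_3_64.Tab.C.FB10.c_pp_001 noCut_B noExt_B F trivial trivial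

theorem FB10_pp_011 {κ x : ℝ} (hκ : κ * h0 = ken x) (hx : ((33554432 : ℕ) : ℝ) / S ≤ x) (hx' : x ≤ (((33554432 : ℕ) : ℝ) + (16777216 : ℕ)) / S) :
    TriB PP.cur (farS κ (h0 * x) (tbl tKF x) (tbl tL x)) 0 1 1 1 0 1 1 :=
  (sideF hx hx').farB (Or.inl rfl) (Or.inl rfl) fun y y' F =>
    farB_cert (s1 := true) (s2 := true) rfl hκ covF10 covF01 hx hx'
        Pool.Agent.Strip051.G.I1_32_3_64.Tab.C.FB10.c_pp_011 (cutB_cons (Pool.Agent.Strip051.G.I1_32_3_64.Tab.altF_B011E_10 hκ hx hx') cutB_nil) noExt_B F trivial trivial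

theorem FB10_pp_012 {κ x : ℝ} (hκ : κ * h0 = ken x) (hx : ((33554432 : ℕ) : ℝ) / S ≤ x) (hx' : x ≤ (((33554432 : ℕ) : ℝ) + (16777216 : ℕ)) / S) :
    TriB PP.cur (farS κ (h0 * x) (tbl tKF x) (tbl tL x)) 0 1 2 1 0 1 1 :=
  (sideF hx hx').farB (Or.inl rfl) (Or.inl rfl) fun y y' F =>
    farB_cert (s1 := true) (s2 := true) rfl hκ covF10 covF02 hx hx'
        Pool.Agent.Strip051.G.I1_32_3_64.Tab.C.FB10.c_pp_012 (cutB_cons (Pool.Agent.Strip051.G.I1_32_3_64.Tab.altF_B012E_10 hκ hx hx') cutB_nil) noExt_B F trivial trivial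

theorem FB10_pp_022 {κ x : ℝ} (hκ : κ * h0 = ken x) (hx : ((33554432 : ℕ) : ℝ) / S ≤ x) (hx' : x ≤ (((33554432 : ℕ) : ℝ) + (16777216 : ℕ)) / S) :
    TriB PP.cur (farS κ (h0 * x) (tbl tKF x) (tbl tL x)) 0 2 2 1 0 1 1 :=
  (sideF hx hx').farB (Or.inl rfl) (Or.inl rfl) fun y y' F =>
    farB_cert (s1 := true) (s2 := true) rfl hκ covF10 covF02 hx hx'
        Pool.Agent.Strip051.G.I1_32_3_64.Tab.C.FB10.c_pp_022 (cutB_cons (Pool.Agent.Strip051.G.I1_32_3_64.Tab.altF_B022E_10 hκ hx hx') cutB_nil) noExt_B F trivial trivial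

theorem FB10_pp_023 {κ x : ℝ} (hκ : κ * h0 = ken x) (hx : ((33554432 : ℕ) : ℝ) / S ≤ x) (hx' : x ≤ (((33554432 : ℕ) : ℝ) + (16777216 : ℕ)) / S) :
    TriB PP.cur (farS κ (h0 * x) (tbl tKF x) (tbl tL x)) 0 2 3 1 0 1 1 :=
  triB_k0

theorem FB10_pp_033 {κ x : ℝ} (hκ : κ * h0 = ken x) (hx : ((33554432 : ℕ) : ℝ) / S ≤ x) (hx' : x ≤ (((33554432 : ℕ) : ℝ) + (16777216 : ℕ)) / S) :
    TriB PP.cur (farS κ (h0 * x) (tbl tKF x) (tbl tL x)) 0 3 3 1 0 1 1 :=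
  triB_k0

theorem FB10_pp_101 {κ x : ℝ} (hκ : κ * h0 = ken x) (hx : ((33554432 : ℕ) : ℝ) / S ≤ x) (hx' : x ≤ (((33554432 : ℕ) : ℝ) + (16777216 : ℕ)) / S) :
    TriB PP.cur (farS κ (h0 * x) (tbl tKF x) (tbl tL x)) 1 0 1 1 0 1 1 :=
  (sideF hx hx').farB (Or.inl rfl) (Or.inl rfl) fun y y' F =>
    farB_cert (s1 := true) (s2 := true) rfl hκ covF11 covF01 hx hx'
        Pool.Agent.Strip051.G.I1_32_3_64.Tab.C.FB10.c_pp_101 noCut_B noExt_B F trivial trivial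

theorem FB10_pp_102 {κ x : ℝ} (hκ : κ * h0 = ken x) (hx : ((33554432 : ℕ) : ℝ) / S ≤ x) (hx' : x ≤ (((33554432 : ℕ) : ℝ) + (16777216 : ℕ)) / S) :
    TriB PP.cur (farS κ (h0 * x) (tbl tKF x) (tbl tL x)) 1 0 2 1 0 1 1 :=
  (sideF hx hx').farB (Or.inl rfl) (Or.inl rfl) fun y y' F =>
    farB_cert (s1 := true) (s2 := true) rfl hκ covF11 covF02 hx hx'
        Pool.Agent.Strip051.G.I1_32_3_64.Tab.C.FB10.c_pp_102 noCut_B noExt_B F trivial trivial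

theorem FB10_pp_112 {κ x : ℝ} (hκ : κ * h0 = ken x) (hx : ((33554432 : ℕ) : ℝ) / S ≤ x) (hx' : x ≤ (((33554432 : ℕ) : ℝ) + (16777216 : ℕ)) / S) :
    TriB PP.cur (farS κ (h0 * x) (tbl tKF x) (tbl tL x)) 1 1 2 1 0 1 1 :=
  (sideF hx hx').farB (Or.inl rfl) (Or.inl rfl) fun y y' F =>
    farB_cert (s1 := true) (s2 := true) rfl hκ covF11 covF02 hx hx'
        Pool.Agent.Strip051.G.I1_32_3_64.Tab.C.FB10.c_pp_112 noCut_B noExt_B F trivial trivial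

theorem FB10_pp_113 {κ x : ℝ} (hκ : κ * h0 = ken x) (hx : ((33554432 : ℕ) : ℝ) / S ≤ x) (hx' : x ≤ (((33554432 : ℕ) : ℝ) + (16777216 : ℕ)) / S) :
    TriB PP.cur (farS κ (h0 * x) (tbl tKF x) (tbl tL x)) 1 1 3 1 0 1 1 :=
  triB_k0

theorem FB10_pp_123 {κ x : ℝ} (hκ : κ * h0 = ken x) (hx : ((33554432 : ℕ) : ℝ) / S ≤ x) (hx' : x ≤ (((33554432 : ℕ) : ℝ) + (16777216 : ℕ)) / S) :
    TriB PP.cur (farS κ (h0 * x) (tbl tKF x) (tbl tL x)) 1 2 3 1 0 1 1 :=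
  triB_k0

theorem FB10_pp_133 {κ x : ℝ} (hκ : κ * h0 = ken x) (hx : ((33554432 : ℕ) : ℝ) / S ≤ x) (hx' : x ≤ (((33554432 : ℕ) : ℝ) + (16777216 : ℕ)) / S) :
    TriB PP.cur (farS κ (h0 * x) (tbl tKF x) (tbl tL x)) 1 3 3 1 0 1 1 :=
  triB_k0

theorem FB10_pp_202 {κ x : ℝ} (hκ : κ * h0 = ken x) (hx : ((33554432 : ℕ) : ℝ) / S ≤ x) (hx' : x ≤ (((33554432 : ℕ) : ℝ) + (16777216 : ℕ)) / S) :
    TriB PP.cur (farS κ (h0 * x) (tbl tKF x) (tbl tL x)) 2 0 2 1 0 1 1 :=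
  (sideF hx hx').farB (Or.inl rfl) (Or.inl rfl) fun y y' F =>
    (lt_or_ge (h0 * y) 1).elim
      (fun h => farB_cert (s1 := true) (s2 := true) rfl hκ covF12a covF02 hx hx'
        Pool.Agent.Strip051.G.I1_32_3_64.Tab.C.FB10.c_pp_202_a noCut_B noExt_B F h trivial)
      (fun h => farB_cert (s1 := true) (s2 := true) rfl hκ covF12b covF02 hx hx'
        Pool.Agent.Strip051.G.I1_32_3_64.Tab.C.FB10.c_pp_202_b noCut_B noExt_B F h trivial)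

theorem FB10_pp_203 {κ x : ℝ} (hκ : κ * h0 = ken x) (hx : ((33554432 : ℕ) : ℝ) / S ≤ x) (hx' : x ≤ (((33554432 : ℕ) : ℝ) + (16777216 : ℕ)) / S) :
    TriB PP.cur (farS κ (h0 * x) (tbl tKF x) (tbl tL x)) 2 0 3 1 0 1 1 :=
  triB_k0

theorem FB10_pp_213 {κ x : ℝ} (hκ : κ * h0 = ken x) (hx : ((33554432 : ℕ) : ℝ) / S ≤ x) (hx' : x ≤ (((33554432 : ℕ) : ℝ) + (16777216 : ℕ)) / S) :
    TriB PP.cur (farS κ (h0 * x) (tbl tKF x) (tbl tL x)) 2 1 3 1 0 1 1 :=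
  triB_k0

theorem FB10_pp_303 {κ x : ℝ} (hκ : κ * h0 = ken x) (hx : ((33554432 : ℕ) : ℝ) / S ≤ x) (hx' : x ≤ (((33554432 : ℕ) : ℝ) + (16777216 : ℕ)) / S) :
    TriB PP.cur (farS κ (h0 * x) (tbl tKF x) (tbl tL x)) 3 0 3 1 0 1 1 :=
  triB_k0

theorem FB10_pp_313 {κ x : ℝ} (hκ : κ * h0 = ken x) (hx : ((33554432 : ℕ) : ℝ) / S ≤ x) (hx' : x ≤ (((33554432 : ℕ) : ℝ) + (16777216 : ℕ)) / S) :
    TriB PP.cur (farS κ (h0 * x) (tbl tKF x) (tbl tL x)) 3 1 3 1 0 1 1 :=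
  triB_k0

theorem FB10_pm_001 {κ x : ℝ} (hκ : κ * h0 = ken x) (hx : ((33554432 : ℕ) : ℝ) / S ≤ x) (hx' : x ≤ (((33554432 : ℕ) : ℝ) + (16777216 : ℕ)) / S) :
    TriB PP.cur (farS κ (h0 * x) (tbl tKF x) (tbl tL x)) 0 0 1 1 0 1 (-1) :=
  (sideF hx hx').farB (Or.inl rfl) (Or.inr rfl) fun y y' F =>
    farB_cert (s1 := true) (s2 := false) rfl hκ covF10 covF01 hx hx'
        Pool.Agent.Strip051.G.I1_32_3_64.Tab.C.FB10.c_pm_001 noCut_B noExt_B F trivial trivial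

theorem FB10_pm_011 {κ x : ℝ} (hκ : κ * h0 = ken x) (hx : ((33554432 : ℕ) : ℝ) / S ≤ x) (hx' : x ≤ (((33554432 : ℕ) : ℝ) + (16777216 : ℕ)) / S) :
    TriB PP.cur (farS κ (h0 * x) (tbl tKF x) (tbl tL x)) 0 1 1 1 0 1 (-1) :=
  (sideF hx hx').farB (Or.inl rfl) (Or.inr rfl) fun y y' F =>
    farB_cert (s1 := true) (s2 := false) rfl hκ covF10 covF01 hx hx'
        Pool.Agent.Strip051.G.I1_32_3_64.Tab.C.FB10.c_pm_011 (cutB_cons (Pool.Agent.Strip051.G.I1_32_3_64.Tab.altF_B011R_10 hκ hx hx') cutB_nil) noExt_B F trivial trivial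

theorem FB10_pm_012 {κ x : ℝ} (hκ : κ * h0 = ken x) (hx : ((33554432 : ℕ) : ℝ) / S ≤ x) (hx' : x ≤ (((33554432 : ℕ) : ℝ) + (16777216 : ℕ)) / S) :
    TriB PP.cur (farS κ (h0 * x) (tbl tKF x) (tbl tL x)) 0 1 2 1 0 1 (-1) :=
  (sideF hx hx').farB (Or.inl rfl) (Or.inr rfl) fun y y' F =>
    farB_cert (s1 := true) (s2 := false) rfl hκ covF10 covF02 hx hx'
        Pool.Agent.Strip051.G.I1_32_3_64.Tab.C.FB10.c_pm_012 (cutB_cons (Pool.Agent.Strip051.G.I1_32_3_64.Tab.altF_B012R_10 hκ hx hx') cutB_nil) noExt_B F trivial trivial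

theorem FB10_pm_022 {κ x : ℝ} (hκ : κ * h0 = ken x) (hx : ((33554432 : ℕ) : ℝ) / S ≤ x) (hx' : x ≤ (((33554432 : ℕ) : ℝ) + (16777216 : ℕ)) / S) :
    TriB PP.cur (farS κ (h0 * x) (tbl tKF x) (tbl tL x)) 0 2 2 1 0 1 (-1) :=
  (sideF hx hx').farB (Or.inl rfl) (Or.inr rfl) fun y y' F =>
    farB_cert (s1 := true) (s2 := false) rfl hκ covF10 covF02 hx hx'
        Pool.Agent.Strip051.G.I1_32_3_64.Tab.C.FB10.c_pm_022 (cutB_cons (Pool.Agent.Strip051.G.I1_32_3_64.Tab.altF_B022R_10 hκ hx hx') cutB_nil) noExt_B F trivial trivial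

theorem FB10_pm_023 {κ x : ℝ} (hκ : κ * h0 = ken x) (hx : ((33554432 : ℕ) : ℝ) / S ≤ x) (hx' : x ≤ (((33554432 : ℕ) : ℝ) + (16777216 : ℕ)) / S) :
    TriB PP.cur (farS κ (h0 * x) (tbl tKF x) (tbl tL x)) 0 2 3 1 0 1 (-1) :=
  triB_k0

theorem FB10_pm_033 {κ x : ℝ} (hκ : κ * h0 = ken x) (hx : ((33554432 : ℕ) : ℝ) / S ≤ x) (hx' : x ≤ (((33554432 : ℕ) : ℝ) + (16777216 : ℕ)) / S) :
    TriB PP.cur (farS κ (h0 * x) (tbl tKF x) (tbl tL x)) 0 3 3 1 0 1 (-1) :=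
  triB_k0

theorem FB10_pm_101 {κ x : ℝ} (hκ : κ * h0 = ken x) (hx : ((33554432 : ℕ) : ℝ) / S ≤ x) (hx' : x ≤ (((33554432 : ℕ) : ℝ) + (16777216 : ℕ)) / S) :
    TriB PP.cur (farS κ (h0 * x) (tbl tKF x) (tbl tL x)) 1 0 1 1 0 1 (-1) :=
  (sideF hx hx').farB (Or.inl rfl) (Or.inr rfl) fun y y' F =>
    farB_cert (s1 := true) (s2 := false) rfl hκ covF11 covF01 hx hx'
        Pool.Agent.Strip051.G.I1_32_3_64.Tab.C.FB10.c_pm_101 noCut_B noExt_B F trivial trivial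

theorem FB10_pm_102 {κ x : ℝ} (hκ : κ * h0 = ken x) (hx : ((33554432 : ℕ) : ℝ) / S ≤ x) (hx' : x ≤ (((33554432 : ℕ) : ℝ) + (16777216 : ℕ)) / S) :
    TriB PP.cur (farS κ (h0 * x) (tbl tKF x) (tbl tL x)) 1 0 2 1 0 1 (-1) :=
  (sideF hx hx').farB (Or.inl rfl) (Or.inr rfl) fun y y' F =>
    farB_cert (s1 := true) (s2 := false) rfl hκ covF11 covF02 hx hx'
        Pool.Agent.Strip051.G.I1_32_3_64.Tab.C.FB10.c_pm_102 noCut_B noExt_B F trivial trivial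

theorem FB10_pm_112 {κ x : ℝ} (hκ : κ * h0 = ken x) (hx : ((33554432 : ℕ) : ℝ) / S ≤ x) (hx' : x ≤ (((33554432 : ℕ) : ℝ) + (16777216 : ℕ)) / S) :
    TriB PP.cur (farS κ (h0 * x) (tbl tKF x) (tbl tL x)) 1 1 2 1 0 1 (-1) :=
  (sideF hx hx').farB (Or.inl rfl) (Or.inr rfl) fun y y' F =>
    farB_cert (s1 := true) (s2 := false) rfl hκ covF11 covF02 hx hx'
        Pool.Agent.Strip051.G.I1_32_3_64.Tab.C.FB10.c_pm_112 noCut_B noExt_B F trivial trivial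

theorem FB10_pm_113 {κ x : ℝ} (hκ : κ * h0 = ken x) (hx : ((33554432 : ℕ) : ℝ) / S ≤ x) (hx' : x ≤ (((33554432 : ℕ) : ℝ) + (16777216 : ℕ)) / S) :
    TriB PP.cur (farS κ (h0 * x) (tbl tKF x) (tbl tL x)) 1 1 3 1 0 1 (-1) :=
  triB_k0

theorem FB10_pm_123 {κ x : ℝ} (hκ : κ * h0 = ken x) (hx : ((33554432 : ℕ) : ℝ) / S ≤ x) (hx' : x ≤ (((33554432 : ℕ) : ℝ) + (16777216 : ℕ)) / S) :
    TriB PP.cur (farS κ (h0 * x) (tbl tKF x) (tbl tL x)) 1 2 3 1 0 1 (-1) :=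
  triB_k0

theorem FB10_pm_133 {κ x : ℝ} (hκ : κ * h0 = ken x) (hx : ((33554432 : ℕ) : ℝ) / S ≤ x) (hx' : x ≤ (((33554432 : ℕ) : ℝ) + (16777216 : ℕ)) / S) :
    TriB PP.cur (farS κ (h0 * x) (tbl tKF x) (tbl tL x)) 1 3 3 1 0 1 (-1) :=
  triB_k0

theorem FB10_pm_202 {κ x : ℝ} (hκ : κ * h0 = ken x) (hx : ((33554432 : ℕ) : ℝ) / S ≤ x) (hx' : x ≤ (((33554432 : ℕ) : ℝ) + (16777216 : ℕ)) / S) :
    TriB PP.cur (farS κ (h0 * x) (tbl tKF x) (tbl tL x)) 2 0 2 1 0 1 (-1) :=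
  (sideF hx hx').farB (Or.inl rfl) (Or.inr rfl) fun y y' F =>
    (lt_or_ge (h0 * y) 1).elim
      (fun h => farB_cert (s1 := true) (s2 := false) rfl hκ covF12a covF02 hx hx'
        Pool.Agent.Strip051.G.I1_32_3_64.Tab.C.FB10.c_pm_202_a (cutB_cons (Pool.Agent.Strip051.G.I1_32_3_64.Tab.altF_B202E_10 hκ hx hx') cutB_nil) noExt_B F h trivial)
      (fun h => farB_cert (s1 := true) (s2 := false) rfl hκ covF12b covF02 hx hx'
        Pool.Agent.Strip051.G.I1_32_3_64.Tab.C.FB10.c_pm_202_b (cutB_cons (Pool.Agent.Strip051.G.I1_32_3_64.Tab.altF_B202E_10 hκ hx hx') cutB_nil) noExt_B F h trivial)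

theorem FB10_pm_203 {κ x : ℝ} (hκ : κ * h0 = ken x) (hx : ((33554432 : ℕ) : ℝ) / S ≤ x) (hx' : x ≤ (((33554432 : ℕ) : ℝ) + (16777216 : ℕ)) / S) :
    TriB PP.cur (farS κ (h0 * x) (tbl tKF x) (tbl tL x)) 2 0 3 1 0 1 (-1) :=
  triB_k0

theorem FB10_pm_213 {κ x : ℝ} (hκ : κ * h0 = ken x) (hx : ((33554432 : ℕ) : ℝ) / S ≤ x) (hx' : x ≤ (((33554432 : ℕ) : ℝ) + (16777216 : ℕ)) / S) :
    TriB PP.cur (farS κ (h0 * x) (tbl tKF x) (tbl tL x)) 2 1 3 1 0 1 (-1) :=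
  triB_k0

theorem FB10_pm_303 {κ x : ℝ} (hκ : κ * h0 = ken x) (hx : ((33554432 : ℕ) : ℝ) / S ≤ x) (hx' : x ≤ (((33554432 : ℕ) : ℝ) + (16777216 : ℕ)) / S) :
    TriB PP.cur (farS κ (h0 * x) (tbl tKF x) (tbl tL x)) 3 0 3 1 0 1 (-1) :=
  triB_k0

theorem FB10_pm_313 {κ x : ℝ} (hκ : κ * h0 = ken x) (hx : ((33554432 : ℕ) : ℝ) / S ≤ x) (hx' : x ≤ (((33554432 : ℕ) : ℝ) + (16777216 : ℕ)) / S) :
    TriB PP.cur (farS κ (h0 * x) (tbl tKF x) (tbl tL x)) 3 1 3 1 0 1 (-1) :=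
  triB_k0

theorem FB10_mm_001 {κ x : ℝ} (hκ : κ * h0 = ken x) (hx : ((33554432 : ℕ) : ℝ) / S ≤ x) (hx' : x ≤ (((33554432 : ℕ) : ℝ) + (16777216 : ℕ)) / S) :
    TriB PP.cur (farS κ (h0 * x) (tbl tKF x) (tbl tL x)) 0 0 1 1 0 (-1) (-1) :=
  (sideF hx hx').farB (Or.inr rfl) (Or.inr rfl) fun y y' F =>
    farB_cert (s1 := false) (s2 := false) rfl hκ covF10 covF01 hx hx'
        Pool.Agent.Strip051.G.I1_32_3_64.Tab.C.FB10.c_mm_001 noCut_B noExt_B F trivial trivial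

theorem FB10_mm_011 {κ x : ℝ} (hκ : κ * h0 = ken x) (hx : ((33554432 : ℕ) : ℝ) / S ≤ x) (hx' : x ≤ (((33554432 : ℕ) : ℝ) + (16777216 : ℕ)) / S) :
    TriB PP.cur (farS κ (h0 * x) (tbl tKF x) (tbl tL x)) 0 1 1 1 0 (-1) (-1) :=
  (sideF hx hx').farB (Or.inr rfl) (Or.inr rfl) fun y y' F =>
    farB_cert (s1 := false) (s2 := false) rfl hκ covF10 covF01 hx hx'
        Pool.Agent.Strip051.G.I1_32_3_64.Tab.C.FB10.c_mm_011 noCut_B noExt_B F trivial trivial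

theorem FB10_mm_012 {κ x : ℝ} (hκ : κ * h0 = ken x) (hx : ((33554432 : ℕ) : ℝ) / S ≤ x) (hx' : x ≤ (((33554432 : ℕ) : ℝ) + (16777216 : ℕ)) / S) :
    TriB PP.cur (farS κ (h0 * x) (tbl tKF x) (tbl tL x)) 0 1 2 1 0 (-1) (-1) :=
  (sideF hx hx').farB (Or.inr rfl) (Or.inr rfl) fun y y' F =>
    farB_cert (s1 := false) (s2 := false) rfl hκ covF10 covF02 hx hx'
        Pool.Agent.Strip051.G.I1_32_3_64.Tab.C.FB10.c_mm_012 noCut_B noExt_B F trivial trivial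

theorem FB10_mm_022 {κ x : ℝ} (hκ : κ * h0 = ken x) (hx : ((33554432 : ℕ) : ℝ) / S ≤ x) (hx' : x ≤ (((33554432 : ℕ) : ℝ) + (16777216 : ℕ)) / S) :
    TriB PP.cur (farS κ (h0 * x) (tbl tKF x) (tbl tL x)) 0 2 2 1 0 (-1) (-1) :=
  (sideF hx hx').farB (Or.inr rfl) (Or.inr rfl) fun y y' F =>
    farB_cert (s1 := false) (s2 := false) rfl hκ covF10 covF02 hx hx'
        Pool.Agent.Strip051.G.I1_32_3_64.Tab.C.FB10.c_mm_022 noCut_B noExt_B F trivial trivial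

theorem FB10_mm_023 {κ x : ℝ} (hκ : κ * h0 = ken x) (hx : ((33554432 : ℕ) : ℝ) / S ≤ x) (hx' : x ≤ (((33554432 : ℕ) : ℝ) + (16777216 : ℕ)) / S) :
    TriB PP.cur (farS κ (h0 * x) (tbl tKF x) (tbl tL x)) 0 2 3 1 0 (-1) (-1) :=
  triB_k0

theorem FB10_mm_033 {κ x : ℝ} (hκ : κ * h0 = ken x) (hx : ((33554432 : ℕ) : ℝ) / S ≤ x) (hx' : x ≤ (((33554432 : ℕ) : ℝ) + (16777216 : ℕ)) / S) :
    TriB PP.cur (farS κ (h0 * x) (tbl tKF x) (tbl tL x)) 0 3 3 1 0 (-1) (-1) :=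
  triB_k0

theorem FB10_mm_101 {κ x : ℝ} (hκ : κ * h0 = ken x) (hx : ((33554432 : ℕ) : ℝ) / S ≤ x) (hx' : x ≤ (((33554432 : ℕ) : ℝ) + (16777216 : ℕ)) / S) :
    TriB PP.cur (farS κ (h0 * x) (tbl tKF x) (tbl tL x)) 1 0 1 1 0 (-1) (-1) :=
  (sideF hx hx').farB (Or.inr rfl) (Or.inr rfl) fun y y' F =>
    farB_cert (s1 := false) (s2 := false) rfl hκ covF11 covF01 hx hx'
        Pool.Agent.Strip051.G.I1_32_3_64.Tab.C.FB10.c_mm_101 noCut_B noExt_B F trivial trivial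

theorem FB10_mm_102 {κ x : ℝ} (hκ : κ * h0 = ken x) (hx : ((33554432 : ℕ) : ℝ) / S ≤ x) (hx' : x ≤ (((33554432 : ℕ) : ℝ) + (16777216 : ℕ)) / S) :
    TriB PP.cur (farS κ (h0 * x) (tbl tKF x) (tbl tL x)) 1 0 2 1 0 (-1) (-1) :=
  (sideF hx hx').farB (Or.inr rfl) (Or.inr rfl) fun y y' F =>
    farB_cert (s1 := false) (s2 := false) rfl hκ covF11 covF02 hx hx'
        Pool.Agent.Strip051.G.I1_32_3_64.Tab.C.FB10.c_mm_102 noCut_B noExt_B F trivial trivial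

theorem FB10_mm_112 {κ x : ℝ} (hκ : κ * h0 = ken x) (hx : ((33554432 : ℕ) : ℝ) / S ≤ x) (hx' : x ≤ (((33554432 : ℕ) : ℝ) + (16777216 : ℕ)) / S) :
    TriB PP.cur (farS κ (h0 * x) (tbl tKF x) (tbl tL x)) 1 1 2 1 0 (-1) (-1) :=
  (sideF hx hx').farB (Or.inr rfl) (Or.inr rfl) fun y y' F =>
    farB_cert (s1 := false) (s2 := false) rfl hκ covF11 covF02 hx hx'
        Pool.Agent.Strip051.G.I1_32_3_64.Tab.C.FB10.c_mm_112 noCut_B noExt_B F trivial trivial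

theorem FB10_mm_113 {κ x : ℝ} (hκ : κ * h0 = ken x) (hx : ((33554432 : ℕ) : ℝ) / S ≤ x) (hx' : x ≤ (((33554432 : ℕ) : ℝ) + (16777216 : ℕ)) / S) :
    TriB PP.cur (farS κ (h0 * x) (tbl tKF x) (tbl tL x)) 1 1 3 1 0 (-1) (-1) :=
  triB_k0

theorem FB10_mm_123 {κ x : ℝ} (hκ : κ * h0 = ken x) (hx : ((33554432 : ℕ) : ℝ) / S ≤ x) (hx' : x ≤ (((33554432 : ℕ) : ℝ) + (16777216 : ℕ)) / S) :
    TriB PP.cur (farS κ (h0 * x) (tbl tKF x) (tbl tL x)) 1 2 3 1 0 (-1) (-1) :=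
  triB_k0

theorem FB10_mm_133 {κ x : ℝ} (hκ : κ * h0 = ken x) (hx : ((33554432 : ℕ) : ℝ) / S ≤ x) (hx' : x ≤ (((33554432 : ℕ) : ℝ) + (16777216 : ℕ)) / S) :
    TriB PP.cur (farS κ (h0 * x) (tbl tKF x) (tbl tL x)) 1 3 3 1 0 (-1) (-1) :=
  triB_k0

theorem FB10_mm_202 {κ x : ℝ} (hκ : κ * h0 = ken x) (hx : ((33554432 : ℕ) : ℝ) / S ≤ x) (hx' : x ≤ (((33554432 : ℕ) : ℝ) + (16777216 : ℕ)) / S) :
    TriB PP.cur (farS κ (h0 * x) (tbl tKF x) (tbl tL x)) 2 0 2 1 0 (-1) (-1) :=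
  (sideF hx hx').farB (Or.inr rfl) (Or.inr rfl) fun y y' F =>
    (lt_or_ge (h0 * y) 1).elim
      (fun h => farB_cert (s1 := false) (s2 := false) rfl hκ covF12a covF02 hx hx'
        Pool.Agent.Strip051.G.I1_32_3_64.Tab.C.FB10.c_mm_202_a noCut_B noExt_B F h trivial)
      (fun h => farB_cert (s1 := false) (s2 := false) rfl hκ covF12b covF02 hx hx'
        Pool.Agent.Strip051.G.I1_32_3_64.Tab.C.FB10.c_mm_202_b noCut_B noExt_B F h trivial)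

theorem FB10_mm_203 {κ x : ℝ} (hκ : κ * h0 = ken x) (hx : ((33554432 : ℕ) : ℝ) / S ≤ x) (hx' : x ≤ (((33554432 : ℕ) : ℝ) + (16777216 : ℕ)) / S) :
    TriB PP.cur (farS κ (h0 * x) (tbl tKF x) (tbl tL x)) 2 0 3 1 0 (-1) (-1) :=
  triB_k0

theorem FB10_mm_213 {κ x : ℝ} (hκ : κ * h0 = ken x) (hx : ((33554432 : ℕ) : ℝ) / S ≤ x) (hx' : x ≤ (((33554432 : ℕ) : ℝ) + (16777216 : ℕ)) / S) :
    TriB PP.cur (farS κ (h0 * x) (tbl tKF x) (tbl tL x)) 2 1 3 1 0 (-1) (-1) :=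
  triB_k0

theorem FB10_mm_303 {κ x : ℝ} (hκ : κ * h0 = ken x) (hx : ((33554432 : ℕ) : ℝ) / S ≤ x) (hx' : x ≤ (((33554432 : ℕ) : ℝ) + (16777216 : ℕ)) / S) :
    TriB PP.cur (farS κ (h0 * x) (tbl tKF x) (tbl tL x)) 3 0 3 1 0 (-1) (-1) :=
  triB_k0

theorem FB10_mm_313 {κ x : ℝ} (hκ : κ * h0 = ken x) (hx : ((33554432 : ℕ) : ℝ) / S ≤ x) (hx' : x ≤ (((33554432 : ℕ) : ℝ) + (16777216 : ℕ)) / S) :
    TriB PP.cur (farS κ (h0 * x) (tbl tKF x) (tbl tL x)) 3 1 3 1 0 (-1) (-1) :=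
  triB_k0

theorem FB10 {κ x : ℝ} (hκ : κ * h0 = ken x) (hx : ((33554432 : ℕ) : ℝ) / S ≤ x) (hx' : x ≤ (((33554432 : ℕ) : ℝ) + (16777216 : ℕ)) / S) : AllTB PP.cur (farS κ (h0 * x) (tbl tKF x) (tbl tL x)) 1 0 where
  pp := all17 (Q := fun a b c => TriB PP.cur (farS κ (h0 * x) (tbl tKF x) (tbl tL x)) a b c 1 0 1 1)
    (FB10_pp_001 hκ hx hx') (FB10_pp_011 hκ hx hx') (FB10_pp_012 hκ hx hx') (FB10_pp_022 hκ hx hx') (FB10_pp_023 hκ hx hx') (FB10_pp_033 hκ hx hx') (FB10_pp_101 hκ hx hx') (FB10_pp_102 hκ hx hx') (FB10_pp_112 hκ hx hx') (FB10_pp_113 hκ hx hx') (FB10_pp_123 hκ hx hx') (FB10_pp_133 hκ hx hx') (FB10_pp_202 hκ hx hx') (FB10_pp_203 hκ hx hx') (FB10_pp_213 hκ hx hx') (FB10_pp_303 hκ hx hx') (FB10_pp_313 hκ hx hx')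
  pm := all17 (Q := fun a b c => TriB PP.cur (farS κ (h0 * x) (tbl tKF x) (tbl tL x)) a b c 1 0 1 (-1))
    (FB10_pm_001 hκ hx hx') (FB10_pm_011 hκ hx hx') (FB10_pm_012 hκ hx hx') (FB10_pm_022 hκ hx hx') (FB10_pm_023 hκ hx hx') (FB10_pm_033 hκ hx hx') (FB10_pm_101 hκ hx hx') (FB10_pm_102 hκ hx hx') (FB10_pm_112 hκ hx hx') (FB10_pm_113 hκ hx hx') (FB10_pm_123 hκ hx hx') (FB10_pm_133 hκ hx hx') (FB10_pm_202 hκ hx hx') (FB10_pm_203 hκ hx hx') (FB10_pm_213 hκ hx hx') (FB10_pm_303 hκ hx hx') (FB10_pm_313 hκ hx hx')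
  mm := all17 (Q := fun a b c => TriB PP.cur (farS κ (h0 * x) (tbl tKF x) (tbl tL x)) a b c 1 0 (-1) (-1))
    (FB10_mm_001 hκ hx hx') (FB10_mm_011 hκ hx hx') (FB10_mm_012 hκ hx hx') (FB10_mm_022 hκ hx hx') (FB10_mm_023 hκ hx hx') (FB10_mm_033 hκ hx hx') (FB10_mm_101 hκ hx hx') (FB10_mm_102 hκ hx hx') (FB10_mm_112 hκ hx hx') (FB10_mm_113 hκ hx hx') (FB10_mm_123 hκ hx hx') (FB10_mm_133 hκ hx hx') (FB10_mm_202 hκ hx hx') (FB10_mm_203 hκ hx hx') (FB10_mm_213 hκ hx hx') (FB10_mm_303 hκ hx hx') (FB10_mm_313 hκ hx hx')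

theorem FB11_pp_001 {κ x : ℝ} (hκ : κ * h0 = ken x) (hx : ((33554432 : ℕ) : ℝ) / S ≤ x) (hx' : x ≤ (((33554432 : ℕ) : ℝ) + (16777216 : ℕ)) / S) :
    TriB PP.cur (farS κ (h0 * x) (tbl tKF x) (tbl tL x)) 0 0 1 1 1 1 1 :=
  (sideF hx hx').farB (Or.inl rfl) (Or.inl rfl) fun y y' F =>
    farB_cert (s1 := true) (s2 := true) rfl hκ covF10 covF11 hx hx'
        Pool.Agent.Strip051.G.I1_32_3_64.Tab.C.FB11.c_pp_001 noCut_B noExt_B F trivial trivial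

theorem FB11_pp_011 {κ x : ℝ} (hκ : κ * h0 = ken x) (hx : ((33554432 : ℕ) : ℝ) / S ≤ x) (hx' : x ≤ (((33554432 : ℕ) : ℝ) + (16777216 : ℕ)) / S) :
    TriB PP.cur (farS κ (h0 * x) (tbl tKF x) (tbl tL x)) 0 1 1 1 1 1 1 :=
  (sideF hx hx').farB (Or.inl rfl) (Or.inl rfl) fun y y' F =>
    farB_cert (s1 := true) (s2 := true) rfl hκ covF10 covF11 hx hx'
        Pool.Agent.Strip051.G.I1_32_3_64.Tab.C.FB11.c_pp_011 noCut_B noExt_B F trivial trivial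

theorem FB11_pp_012 {κ x : ℝ} (hκ : κ * h0 = ken x) (hx : ((33554432 : ℕ) : ℝ) / S ≤ x) (hx' : x ≤ (((33554432 : ℕ) : ℝ) + (16777216 : ℕ)) / S) :
    TriB PP.cur (farS κ (h0 * x) (tbl tKF x) (tbl tL x)) 0 1 2 1 1 1 1 :=
  (sideF hx hx').farB (Or.inl rfl) (Or.inl rfl) fun y y' F =>
    (lt_or_ge (h0 * (y + y')) 1).elim
      (fun g => farB_cert (s1 := true) (s2 := true) rfl hκ covF10 covF12a hx hx'
        Pool.Agent.Strip051.G.I1_32_3_64.Tab.C.FB11.c_pp_012_a (cutB_cons (Pool.Agent.Strip051.G.I1_32_3_64.Tab.altF_B012E_11 hκ hx hx') cutB_nil) noExt_B F trivial g)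
      (fun g => farB_cert (s1 := true) (s2 := true) rfl hκ covF10 covF12b hx hx'
        Pool.Agent.Strip051.G.I1_32_3_64.Tab.C.FB11.c_pp_012_b (cutB_cons (Pool.Agent.Strip051.G.I1_32_3_64.Tab.altF_B012E_11 hκ hx hx') cutB_nil) noExt_B F trivial g)

theorem FB11_pp_022 {κ x : ℝ} (hκ : κ * h0 = ken x) (hx : ((33554432 : ℕ) : ℝ) / S ≤ x) (hx' : x ≤ (((33554432 : ℕ) : ℝ) + (16777216 : ℕ)) / S) :
    TriB PP.cur (farS κ (h0 * x) (tbl tKF x) (tbl tL x)) 0 2 2 1 1 1 1 :=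
  (sideF hx hx').farB (Or.inl rfl) (Or.inl rfl) fun y y' F =>
    (lt_or_ge (h0 * (y + y')) 1).elim
      (fun g => farB_cert (s1 := true) (s2 := true) rfl hκ covF10 covF12a hx hx'
        Pool.Agent.Strip051.G.I1_32_3_64.Tab.C.FB11.c_pp_022_a (cutB_cons (Pool.Agent.Strip051.G.I1_32_3_64.Tab.altF_B022E_11 hκ hx hx') cutB_nil) noExt_B F trivial g)
      (fun g => farB_cert (s1 := true) (s2 := true) rfl hκ covF10 covF12b hx hx'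
        Pool.Agent.Strip051.G.I1_32_3_64.Tab.C.FB11.c_pp_022_b (cutB_cons (Pool.Agent.Strip051.G.I1_32_3_64.Tab.altF_B022E_11 hκ hx hx') cutB_nil) noExt_B F trivial g)

theorem FB11_pp_023 {κ x : ℝ} (hκ : κ * h0 = ken x) (hx : ((33554432 : ℕ) : ℝ) / S ≤ x) (hx' : x ≤ (((33554432 : ℕ) : ℝ) + (16777216 : ℕ)) / S) :
    TriB PP.cur (farS κ (h0 * x) (tbl tKF x) (tbl tL x)) 0 2 3 1 1 1 1 :=
  (sideF hx hx').farB (Or.inl rfl) (Or.inl rfl) fun y y' F =>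
    farB_cert (s1 := true) (s2 := true) rfl hκ covF10 covF13 hx hx'
        Pool.Agent.Strip051.G.I1_32_3_64.Tab.C.FB11.c_pp_023 noCut_B noExt_B F trivial trivial

theorem FB11_pp_033 {κ x : ℝ} (hκ : κ * h0 = ken x) (hx : ((33554432 : ℕ) : ℝ) / S ≤ x) (hx' : x ≤ (((33554432 : ℕ) : ℝ) + (16777216 : ℕ)) / S) :
    TriB PP.cur (farS κ (h0 * x) (tbl tKF x) (tbl tL x)) 0 3 3 1 1 1 1 :=
  (sideF hx hx').farB (Or.inl rfl) (Or.inl rfl) fun y y' F =>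
    farB_cert (s1 := true) (s2 := true) rfl hκ covF10 covF13 hx hx'
        Pool.Agent.Strip051.G.I1_32_3_64.Tab.C.FB11.c_pp_033 noCut_B noExt_B F trivial trivial

theorem FB11_pp_101 {κ x : ℝ} (hκ : κ * h0 = ken x) (hx : ((33554432 : ℕ) : ℝ) / S ≤ x) (hx' : x ≤ (((33554432 : ℕ) : ℝ) + (16777216 : ℕ)) / S) :
    TriB PP.cur (farS κ (h0 * x) (tbl tKF x) (tbl tL x)) 1 0 1 1 1 1 1 :=
  (sideF hx hx').farB (Or.inl rfl) (Or.inl rfl) fun y y' F =>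
    farB_cert (s1 := true) (s2 := true) rfl hκ covF11 covF11 hx hx'
        Pool.Agent.Strip051.G.I1_32_3_64.Tab.C.FB11.c_pp_101 noCut_B noExt_B F trivial trivial

theorem FB11_pp_102 {κ x : ℝ} (hκ : κ * h0 = ken x) (hx : ((33554432 : ℕ) : ℝ) / S ≤ x) (hx' : x ≤ (((33554432 : ℕ) : ℝ) + (16777216 : ℕ)) / S) :
    TriB PP.cur (farS κ (h0 * x) (tbl tKF x) (tbl tL x)) 1 0 2 1 1 1 1 :=
  (sideF hx hx').farB (Or.inl rfl) (Or.inl rfl) fun y y' F =>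
    (lt_or_ge (h0 * (y + y')) 1).elim
      (fun g => farB_cert (s1 := true) (s2 := true) rfl hκ covF11 covF12a hx hx'
        Pool.Agent.Strip051.G.I1_32_3_64.Tab.C.FB11.c_pp_102_a noCut_B noExt_B F trivial g)
      (fun g => farB_cert (s1 := true) (s2 := true) rfl hκ covF11 covF12b hx hx'
        Pool.Agent.Strip051.G.I1_32_3_64.Tab.C.FB11.c_pp_102_b noCut_B noExt_B F trivial g)

theorem FB11_pp_112 {κ x : ℝ} (hκ : κ * h0 = ken x) (hx : ((33554432 : ℕ) : ℝ) / S ≤ x) (hx' : x ≤ (((33554432 : ℕ) : ℝ) + (16777216 : ℕ)) / S) :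
    TriB PP.cur (farS κ (h0 * x) (tbl tKF x) (tbl tL x)) 1 1 2 1 1 1 1 :=
  (sideF hx hx').farB (Or.inl rfl) (Or.inl rfl) fun y y' F =>
    (lt_or_ge (h0 * (y + y')) 1).elim
      (fun g => farB_cert (s1 := true) (s2 := true) rfl hκ covF11 covF12a hx hx'
        Pool.Agent.Strip051.G.I1_32_3_64.Tab.C.FB11.c_pp_112_a noCut_B noExt_B F trivial g)
      (fun g => farB_cert (s1 := true) (s2 := true) rfl hκ covF11 covF12b hx hx'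
        Pool.Agent.Strip051.G.I1_32_3_64.Tab.C.FB11.c_pp_112_b noCut_B noExt_B F trivial g)

theorem FB11_pp_113 {κ x : ℝ} (hκ : κ * h0 = ken x) (hx : ((33554432 : ℕ) : ℝ) / S ≤ x) (hx' : x ≤ (((33554432 : ℕ) : ℝ) + (16777216 : ℕ)) / S) :
    TriB PP.cur (farS κ (h0 * x) (tbl tKF x) (tbl tL x)) 1 1 3 1 1 1 1 :=
  (sideF hx hx').farB (Or.inl rfl) (Or.inl rfl) fun y y' F =>
    farB_cert (s1 := true) (s2 := true) rfl hκ covF11 covF13 hx hx'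
        Pool.Agent.Strip051.G.I1_32_3_64.Tab.C.FB11.c_pp_113 noCut_B noExt_B F trivial trivial

theorem FB11_pp_123 {κ x : ℝ} (hκ : κ * h0 = ken x) (hx : ((33554432 : ℕ) : ℝ) / S ≤ x) (hx' : x ≤ (((33554432 : ℕ) : ℝ) + (16777216 : ℕ)) / S) :
    TriB PP.cur (farS κ (h0 * x) (tbl tKF x) (tbl tL x)) 1 2 3 1 1 1 1 :=
  (sideF hx hx').farB (Or.inl rfl) (Or.inl rfl) fun y y' F =>
    farB_cert (s1 := true) (s2 := true) rfl hκ covF11 covF13 hx hx'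
        Pool.Agent.Strip051.G.I1_32_3_64.Tab.C.FB11.c_pp_123 noCut_B noExt_B F trivial trivial

theorem FB11_pp_133 {κ x : ℝ} (hκ : κ * h0 = ken x) (hx : ((33554432 : ℕ) : ℝ) / S ≤ x) (hx' : x ≤ (((33554432 : ℕ) : ℝ) + (16777216 : ℕ)) / S) :
    TriB PP.cur (farS κ (h0 * x) (tbl tKF x) (tbl tL x)) 1 3 3 1 1 1 1 :=
  (sideF hx hx').farB (Or.inl rfl) (Or.inl rfl) fun y y' F =>
    farB_cert (s1 := true) (s2 := true) rfl hκ covF11 covF13 hx hx'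
        Pool.Agent.Strip051.G.I1_32_3_64.Tab.C.FB11.c_pp_133 noCut_B noExt_B F trivial trivial

theorem FB11_pp_202 {κ x : ℝ} (hκ : κ * h0 = ken x) (hx : ((33554432 : ℕ) : ℝ) / S ≤ x) (hx' : x ≤ (((33554432 : ℕ) : ℝ) + (16777216 : ℕ)) / S) :
    TriB PP.cur (farS κ (h0 * x) (tbl tKF x) (tbl tL x)) 2 0 2 1 1 1 1 :=
  (sideF hx hx').farB (Or.inl rfl) (Or.inl rfl) fun y y' F =>
    (lt_or_ge (h0 * y) 1).elim
      (fun h => (lt_or_ge (h0 * (y + y')) 1).elim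
        (fun g => farB_cert (s1 := true) (s2 := true) rfl hκ covF12a covF12a hx hx'
        Pool.Agent.Strip051.G.I1_32_3_64.Tab.C.FB11.c_pp_202_aa noCut_B noExt_B F h g)
        (fun g => farB_cert (s1 := true) (s2 := true) rfl hκ covF12a covF12b hx hx'
        Pool.Agent.Strip051.G.I1_32_3_64.Tab.C.FB11.c_pp_202_ab noCut_B noExt_B F h g))
      (fun h => (lt_or_ge (h0 * (y + y')) 1).elim
        (fun g => farB_cert (s1 := true) (s2 := true) rfl hκ covF12b covF12a hx hx'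
        Pool.Agent.Strip051.G.I1_32_3_64.Tab.C.FB11.c_pp_202_ba noCut_B noExt_B F h g)
        (fun g => farB_cert (s1 := true) (s2 := true) rfl hκ covF12b covF12b hx hx'
        Pool.Agent.Strip051.G.I1_32_3_64.Tab.C.FB11.c_pp_202_bb noCut_B noExt_B F h g))

theorem FB11_pp_203 {κ x : ℝ} (hκ : κ * h0 = ken x) (hx : ((33554432 : ℕ) : ℝ) / S ≤ x) (hx' : x ≤ (((33554432 : ℕ) : ℝ) + (16777216 : ℕ)) / S) :
    TriB PP.cur (farS κ (h0 * x) (tbl tKF x) (tbl tL x)) 2 0 3 1 1 1 1 :=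
  (sideF hx hx').farB (Or.inl rfl) (Or.inl rfl) fun y y' F =>
    (lt_or_ge (h0 * y) 1).elim
      (fun h => farB_cert (s1 := true) (s2 := true) rfl hκ covF12a covF13 hx hx'
        Pool.Agent.Strip051.G.I1_32_3_64.Tab.C.FB11.c_pp_203_a noCut_B noExt_B F h trivial)
      (fun h => farB_cert (s1 := true) (s2 := true) rfl hκ covF12b covF13 hx hx'
        Pool.Agent.Strip051.G.I1_32_3_64.Tab.C.FB11.c_pp_203_b noCut_B noExt_B F h trivial)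

theorem FB11_pp_213 {κ x : ℝ} (hκ : κ * h0 = ken x) (hx : ((33554432 : ℕ) : ℝ) / S ≤ x) (hx' : x ≤ (((33554432 : ℕ) : ℝ) + (16777216 : ℕ)) / S) :
    TriB PP.cur (farS κ (h0 * x) (tbl tKF x) (tbl tL x)) 2 1 3 1 1 1 1 :=
  (sideF hx hx').farB (Or.inl rfl) (Or.inl rfl) fun y y' F =>
    (lt_or_ge (h0 * y) 1).elim
      (fun h => farB_cert (s1 := true) (s2 := true) rfl hκ covF12a covF13 hx hx'
        Pool.Agent.Strip051.G.I1_32_3_64.Tab.C.FB11.c_pp_213_a (cutB_cons (Pool.Agent.Strip051.G.I1_32_3_64.Tab.alt12F_B213_11p hκ hx hx') cutB_nil) noExt_B F h trivial)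
      (fun h => farB_cert (s1 := true) (s2 := true) rfl hκ covF12b covF13 hx hx'
        Pool.Agent.Strip051.G.I1_32_3_64.Tab.C.FB11.c_pp_213_b (cutB_cons (Pool.Agent.Strip051.G.I1_32_3_64.Tab.alt12F_B213_11p hκ hx hx') cutB_nil) noExt_B F h trivial)

theorem FB11_pp_303 {κ x : ℝ} (hκ : κ * h0 = ken x) (hx : ((33554432 : ℕ) : ℝ) / S ≤ x) (hx' : x ≤ (((33554432 : ℕ) : ℝ) + (16777216 : ℕ)) / S) :
    TriB PP.cur (farS κ (h0 * x) (tbl tKF x) (tbl tL x)) 3 0 3 1 1 1 1 :=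
  (sideF hx hx').farB (Or.inl rfl) (Or.inl rfl) fun y y' F =>
    farB_cert (s1 := true) (s2 := true) rfl hκ covF13 covF13 hx hx'
        Pool.Agent.Strip051.G.I1_32_3_64.Tab.C.FB11.c_pp_303 noCut_B noExt_B F trivial trivial

theorem FB11_pp_313 {κ x : ℝ} (hκ : κ * h0 = ken x) (hx : ((33554432 : ℕ) : ℝ) / S ≤ x) (hx' : x ≤ (((33554432 : ℕ) : ℝ) + (16777216 : ℕ)) / S) :
    TriB PP.cur (farS κ (h0 * x) (tbl tKF x) (tbl tL x)) 3 1 3 1 1 1 1 :=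
  (sideF hx hx').farB (Or.inl rfl) (Or.inl rfl) fun y y' F =>
    farB_cert (s1 := true) (s2 := true) rfl hκ covF13 covF13 hx hx'
        Pool.Agent.Strip051.G.I1_32_3_64.Tab.C.FB11.c_pp_313 noCut_B noExt_B F trivial trivial

theorem FB11_pm_001 {κ x : ℝ} (hκ : κ * h0 = ken x) (hx : ((33554432 : ℕ) : ℝ) / S ≤ x) (hx' : x ≤ (((33554432 : ℕ) : ℝ) + (16777216 : ℕ)) / S) :
    TriB PP.cur (farS κ (h0 * x) (tbl tKF x) (tbl tL x)) 0 0 1 1 1 1 (-1) :=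
  (sideF hx hx').farB (Or.inl rfl) (Or.inr rfl) fun y y' F =>
    farB_cert (s1 := true) (s2 := false) rfl hκ covF10 covF11 hx hx'
        Pool.Agent.Strip051.G.I1_32_3_64.Tab.C.FB11.c_pm_001 noCut_B noExt_B F trivial trivial

theorem FB11_pm_011 {κ x : ℝ} (hκ : κ * h0 = ken x) (hx : ((33554432 : ℕ) : ℝ) / S ≤ x) (hx' : x ≤ (((33554432 : ℕ) : ℝ) + (16777216 : ℕ)) / S) :
    TriB PP.cur (farS κ (h0 * x) (tbl tKF x) (tbl tL x)) 0 1 1 1 1 1 (-1) :=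
  (sideF hx hx').farB (Or.inl rfl) (Or.inr rfl) fun y y' F =>
    farB_cert (s1 := true) (s2 := false) rfl hκ covF10 covF11 hx hx'
        Pool.Agent.Strip051.G.I1_32_3_64.Tab.C.FB11.c_pm_011 noCut_B noExt_B F trivial trivial

theorem FB11_pm_012 {κ x : ℝ} (hκ : κ * h0 = ken x) (hx : ((33554432 : ℕ) : ℝ) / S ≤ x) (hx' : x ≤ (((33554432 : ℕ) : ℝ) + (16777216 : ℕ)) / S) :
    TriB PP.cur (farS κ (h0 * x) (tbl tKF x) (tbl tL x)) 0 1 2 1 1 1 (-1) :=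
  (sideF hx hx').farB (Or.inl rfl) (Or.inr rfl) fun y y' F =>
    (lt_or_ge (h0 * (y + y')) 1).elim
      (fun g => farB_cert (s1 := true) (s2 := false) rfl hκ covF10 covF12a hx hx'
        Pool.Agent.Strip051.G.I1_32_3_64.Tab.C.FB11.c_pm_012_a (cutB_cons (Pool.Agent.Strip051.G.I1_32_3_64.Tab.altF_B012R_11 hκ hx hx') cutB_nil) noExt_B F trivial g)
      (fun g => farB_cert (s1 := true) (s2 := false) rfl hκ covF10 covF12b hx hx'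
        Pool.Agent.Strip051.G.I1_32_3_64.Tab.C.FB11.c_pm_012_b (cutB_cons (Pool.Agent.Strip051.G.I1_32_3_64.Tab.altF_B012R_11 hκ hx hx') cutB_nil) noExt_B F trivial g)

theorem FB11_pm_022 {κ x : ℝ} (hκ : κ * h0 = ken x) (hx : ((33554432 : ℕ) : ℝ) / S ≤ x) (hx' : x ≤ (((33554432 : ℕ) : ℝ) + (16777216 : ℕ)) / S) :
    TriB PP.cur (farS κ (h0 * x) (tbl tKF x) (tbl tL x)) 0 2 2 1 1 1 (-1) :=
  (sideF hx hx').farB (Or.inl rfl) (Or.inr rfl) fun y y' F =>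
    (lt_or_ge (h0 * (y + y')) 1).elim
      (fun g => farB_cert (s1 := true) (s2 := false) rfl hκ covF10 covF12a hx hx'
        Pool.Agent.Strip051.G.I1_32_3_64.Tab.C.FB11.c_pm_022_a (cutB_cons (Pool.Agent.Strip051.G.I1_32_3_64.Tab.altF_B022R_11 hκ hx hx') cutB_nil) noExt_B F trivial g)
      (fun g => farB_cert (s1 := true) (s2 := false) rfl hκ covF10 covF12b hx hx'
        Pool.Agent.Strip051.G.I1_32_3_64.Tab.C.FB11.c_pm_022_b (cutB_cons (Pool.Agent.Strip051.G.I1_32_3_64.Tab.altF_B022R_11 hκ hx hx') cutB_nil) noExt_B F trivial g)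

theorem FB11_pm_023 {κ x : ℝ} (hκ : κ * h0 = ken x) (hx : ((33554432 : ℕ) : ℝ) / S ≤ x) (hx' : x ≤ (((33554432 : ℕ) : ℝ) + (16777216 : ℕ)) / S) :
    TriB PP.cur (farS κ (h0 * x) (tbl tKF x) (tbl tL x)) 0 2 3 1 1 1 (-1) :=
  (sideF hx hx').farB (Or.inl rfl) (Or.inr rfl) fun y y' F =>
    farB_cert (s1 := true) (s2 := false) rfl hκ covF10 covF13 hx hx'
        Pool.Agent.Strip051.G.I1_32_3_64.Tab.C.FB11.c_pm_023 noCut_B noExt_B F trivial trivial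

theorem FB11_pm_033 {κ x : ℝ} (hκ : κ * h0 = ken x) (hx : ((33554432 : ℕ) : ℝ) / S ≤ x) (hx' : x ≤ (((33554432 : ℕ) : ℝ) + (16777216 : ℕ)) / S) :
    TriB PP.cur (farS κ (h0 * x) (tbl tKF x) (tbl tL x)) 0 3 3 1 1 1 (-1) :=
  (sideF hx hx').farB (Or.inl rfl) (Or.inr rfl) fun y y' F =>
    farB_cert (s1 := true) (s2 := false) rfl hκ covF10 covF13 hx hx'
        Pool.Agent.Strip051.G.I1_32_3_64.Tab.C.FB11.c_pm_033 noCut_B noExt_B F trivial trivial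

theorem FB11_pm_101 {κ x : ℝ} (hκ : κ * h0 = ken x) (hx : ((33554432 : ℕ) : ℝ) / S ≤ x) (hx' : x ≤ (((33554432 : ℕ) : ℝ) + (16777216 : ℕ)) / S) :
    TriB PP.cur (farS κ (h0 * x) (tbl tKF x) (tbl tL x)) 1 0 1 1 1 1 (-1) :=
  (sideF hx hx').farB (Or.inl rfl) (Or.inr rfl) fun y y' F =>
    farB_cert (s1 := true) (s2 := false) rfl hκ covF11 covF11 hx hx'
        Pool.Agent.Strip051.G.I1_32_3_64.Tab.C.FB11.c_pm_101 noCut_B noExt_B F trivial trivial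

theorem FB11_pm_102 {κ x : ℝ} (hκ : κ * h0 = ken x) (hx : ((33554432 : ℕ) : ℝ) / S ≤ x) (hx' : x ≤ (((33554432 : ℕ) : ℝ) + (16777216 : ℕ)) / S) :
    TriB PP.cur (farS κ (h0 * x) (tbl tKF x) (tbl tL x)) 1 0 2 1 1 1 (-1) :=
  (sideF hx hx').farB (Or.inl rfl) (Or.inr rfl) fun y y' F =>
    (lt_or_ge (h0 * (y + y')) 1).elim
      (fun g => farB_cert (s1 := true) (s2 := false) rfl hκ covF11 covF12a hx hx'
        Pool.Agent.Strip051.G.I1_32_3_64.Tab.C.FB11.c_pm_102_a noCut_B noExt_B F trivial g)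
      (fun g => farB_cert (s1 := true) (s2 := false) rfl hκ covF11 covF12b hx hx'
        Pool.Agent.Strip051.G.I1_32_3_64.Tab.C.FB11.c_pm_102_b noCut_B noExt_B F trivial g)

theorem FB11_pm_112 {κ x : ℝ} (hκ : κ * h0 = ken x) (hx : ((33554432 : ℕ) : ℝ) / S ≤ x) (hx' : x ≤ (((33554432 : ℕ) : ℝ) + (16777216 : ℕ)) / S) :
    TriB PP.cur (farS κ (h0 * x) (tbl tKF x) (tbl tL x)) 1 1 2 1 1 1 (-1) :=
  (sideF hx hx').farB (Or.inl rfl) (Or.inr rfl) fun y y' F =>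
    (lt_or_ge (h0 * (y + y')) 1).elim
      (fun g => farB_cert (s1 := true) (s2 := false) rfl hκ covF11 covF12a hx hx'
        Pool.Agent.Strip051.G.I1_32_3_64.Tab.C.FB11.c_pm_112_a noCut_B noExt_B F trivial g)
      (fun g => farB_cert (s1 := true) (s2 := false) rfl hκ covF11 covF12b hx hx'
        Pool.Agent.Strip051.G.I1_32_3_64.Tab.C.FB11.c_pm_112_b noCut_B noExt_B F trivial g)

theorem FB11_pm_113 {κ x : ℝ} (hκ : κ * h0 = ken x) (hx : ((33554432 : ℕ) : ℝ) / S ≤ x) (hx' : x ≤ (((33554432 : ℕ) : ℝ) + (16777216 : ℕ)) / S) :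
    TriB PP.cur (farS κ (h0 * x) (tbl tKF x) (tbl tL x)) 1 1 3 1 1 1 (-1) :=
  (sideF hx hx').farB (Or.inl rfl) (Or.inr rfl) fun y y' F =>
    farB_cert (s1 := true) (s2 := false) rfl hκ covF11 covF13 hx hx'
        Pool.Agent.Strip051.G.I1_32_3_64.Tab.C.FB11.c_pm_113 noCut_B noExt_B F trivial trivial

theorem FB11_pm_123 {κ x : ℝ} (hκ : κ * h0 = ken x) (hx : ((33554432 : ℕ) : ℝ) / S ≤ x) (hx' : x ≤ (((33554432 : ℕ) : ℝ) + (16777216 : ℕ)) / S) :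
    TriB PP.cur (farS κ (h0 * x) (tbl tKF x) (tbl tL x)) 1 2 3 1 1 1 (-1) :=
  (sideF hx hx').farB (Or.inl rfl) (Or.inr rfl) fun y y' F =>
    farB_cert (s1 := true) (s2 := false) rfl hκ covF11 covF13 hx hx'
        Pool.Agent.Strip051.G.I1_32_3_64.Tab.C.FB11.c_pm_123 noCut_B noExt_B F trivial trivial

theorem FB11_pm_133 {κ x : ℝ} (hκ : κ * h0 = ken x) (hx : ((33554432 : ℕ) : ℝ) / S ≤ x) (hx' : x ≤ (((33554432 : ℕ) : ℝ) + (16777216 : ℕ)) / S) :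
    TriB PP.cur (farS κ (h0 * x) (tbl tKF x) (tbl tL x)) 1 3 3 1 1 1 (-1) :=
  (sideF hx hx').farB (Or.inl rfl) (Or.inr rfl) fun y y' F =>
    farB_cert (s1 := true) (s2 := false) rfl hκ covF11 covF13 hx hx'
        Pool.Agent.Strip051.G.I1_32_3_64.Tab.C.FB11.c_pm_133 noCut_B noExt_B F trivial trivial

theorem FB11_pm_202 {κ x : ℝ} (hκ : κ * h0 = ken x) (hx : ((33554432 : ℕ) : ℝ) / S ≤ x) (hx' : x ≤ (((33554432 : ℕ) : ℝ) + (16777216 : ℕ)) / S) :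
    TriB PP.cur (farS κ (h0 * x) (tbl tKF x) (tbl tL x)) 2 0 2 1 1 1 (-1) :=
  (sideF hx hx').farB (Or.inl rfl) (Or.inr rfl) fun y y' F =>
    (lt_or_ge (h0 * y) 1).elim
      (fun h => (lt_or_ge (h0 * (y + y')) 1).elim
        (fun g => farB_cert (s1 := true) (s2 := false) rfl hκ covF12a covF12a hx hx'
        Pool.Agent.Strip051.G.I1_32_3_64.Tab.C.FB11.c_pm_202_aa (cutB_cons (Pool.Agent.Strip051.G.I1_32_3_64.Tab.altF_B202E_11 hκ hx hx') cutB_nil) noExt_B F h g)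
        (fun g => farB_cert (s1 := true) (s2 := false) rfl hκ covF12a covF12b hx hx'
        Pool.Agent.Strip051.G.I1_32_3_64.Tab.C.FB11.c_pm_202_ab (cutB_cons (Pool.Agent.Strip051.G.I1_32_3_64.Tab.altF_B202E_11 hκ hx hx') cutB_nil) noExt_B F h g))
      (fun h => (lt_or_ge (h0 * (y + y')) 1).elim
        (fun g => farB_cert (s1 := true) (s2 := false) rfl hκ covF12b covF12a hx hx'
        Pool.Agent.Strip051.G.I1_32_3_64.Tab.C.FB11.c_pm_202_ba (cutB_cons (Pool.Agent.Strip051.G.I1_32_3_64.Tab.altF_B202E_11 hκ hx hx') cutB_nil) noExt_B F h g)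
        (fun g => farB_cert (s1 := true) (s2 := false) rfl hκ covF12b covF12b hx hx'
        Pool.Agent.Strip051.G.I1_32_3_64.Tab.C.FB11.c_pm_202_bb (cutB_cons (Pool.Agent.Strip051.G.I1_32_3_64.Tab.altF_B202E_11 hκ hx hx') cutB_nil) noExt_B F h g))

theorem FB11_pm_203 {κ x : ℝ} (hκ : κ * h0 = ken x) (hx : ((33554432 : ℕ) : ℝ) / S ≤ x) (hx' : x ≤ (((33554432 : ℕ) : ℝ) + (16777216 : ℕ)) / S) :
    TriB PP.cur (farS κ (h0 * x) (tbl tKF x) (tbl tL x)) 2 0 3 1 1 1 (-1) :=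
  (sideF hx hx').farB (Or.inl rfl) (Or.inr rfl) fun y y' F =>
    (lt_or_ge (h0 * y) 1).elim
      (fun h => farB_cert (s1 := true) (s2 := false) rfl hκ covF12a covF13 hx hx'
        Pool.Agent.Strip051.G.I1_32_3_64.Tab.C.FB11.c_pm_203_a noCut_B noExt_B F h trivial)
      (fun h => farB_cert (s1 := true) (s2 := false) rfl hκ covF12b covF13 hx hx'
        Pool.Agent.Strip051.G.I1_32_3_64.Tab.C.FB11.c_pm_203_b noCut_B noExt_B F h trivial)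

theorem FB11_pm_213 {κ x : ℝ} (hκ : κ * h0 = ken x) (hx : ((33554432 : ℕ) : ℝ) / S ≤ x) (hx' : x ≤ (((33554432 : ℕ) : ℝ) + (16777216 : ℕ)) / S) :
    TriB PP.cur (farS κ (h0 * x) (tbl tKF x) (tbl tL x)) 2 1 3 1 1 1 (-1) :=
  (sideF hx hx').farB (Or.inl rfl) (Or.inr rfl) fun y y' F =>
    (lt_or_ge (h0 * y) 1).elim
      (fun h => farB_cert (s1 := true) (s2 := false) rfl hκ covF12a covF13 hx hx'
        Pool.Agent.Strip051.G.I1_32_3_64.Tab.C.FB11.c_pm_213_a (cutB_cons (Pool.Agent.Strip051.G.I1_32_3_64.Tab.alt12F_B213_11m hκ hx hx') cutB_nil) noExt_B F h trivial)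
      (fun h => farB_cert (s1 := true) (s2 := false) rfl hκ covF12b covF13 hx hx'
        Pool.Agent.Strip051.G.I1_32_3_64.Tab.C.FB11.c_pm_213_b (cutB_cons (Pool.Agent.Strip051.G.I1_32_3_64.Tab.alt12F_B213_11m hκ hx hx') cutB_nil) noExt_B F h trivial)

theorem FB11_pm_303 {κ x : ℝ} (hκ : κ * h0 = ken x) (hx : ((33554432 : ℕ) : ℝ) / S ≤ x) (hx' : x ≤ (((33554432 : ℕ) : ℝ) + (16777216 : ℕ)) / S) :
    TriB PP.cur (farS κ (h0 * x) (tbl tKF x) (tbl tL x)) 3 0 3 1 1 1 (-1) :=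
  (sideF hx hx').farB (Or.inl rfl) (Or.inr rfl) fun y y' F =>
    farB_cert (s1 := true) (s2 := false) rfl hκ covF13 covF13 hx hx'
        Pool.Agent.Strip051.G.I1_32_3_64.Tab.C.FB11.c_pm_303 noCut_B noExt_B F trivial trivial

theorem FB11_pm_313 {κ x : ℝ} (hκ : κ * h0 = ken x) (hx : ((33554432 : ℕ) : ℝ) / S ≤ x) (hx' : x ≤ (((33554432 : ℕ) : ℝ) + (16777216 : ℕ)) / S) :
    TriB PP.cur (farS κ (h0 * x) (tbl tKF x) (tbl tL x)) 3 1 3 1 1 1 (-1) :=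
  (sideF hx hx').farB (Or.inl rfl) (Or.inr rfl) fun y y' F =>
    farB_cert (s1 := true) (s2 := false) rfl hκ covF13 covF13 hx hx'
        Pool.Agent.Strip051.G.I1_32_3_64.Tab.C.FB11.c_pm_313 noCut_B noExt_B F trivial trivial

theorem FB11_mm_001 {κ x : ℝ} (hκ : κ * h0 = ken x) (hx : ((33554432 : ℕ) : ℝ) / S ≤ x) (hx' : x ≤ (((33554432 : ℕ) : ℝ) + (16777216 : ℕ)) / S) :
    TriB PP.cur (farS κ (h0 * x) (tbl tKF x) (tbl tL x)) 0 0 1 1 1 (-1) (-1) :=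
  (sideF hx hx').farB (Or.inr rfl) (Or.inr rfl) fun y y' F =>
    farB_cert (s1 := false) (s2 := false) rfl hκ covF10 covF11 hx hx'
        Pool.Agent.Strip051.G.I1_32_3_64.Tab.C.FB11.c_mm_001 noCut_B noExt_B F trivial trivial

theorem FB11_mm_011 {κ x : ℝ} (hκ : κ * h0 = ken x) (hx : ((33554432 : ℕ) : ℝ) / S ≤ x) (hx' : x ≤ (((33554432 : ℕ) : ℝ) + (16777216 : ℕ)) / S) :
    TriB PP.cur (farS κ (h0 * x) (tbl tKF x) (tbl tL x)) 0 1 1 1 1 (-1) (-1) :=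
  (sideF hx hx').farB (Or.inr rfl) (Or.inr rfl) fun y y' F =>
    farB_cert (s1 := false) (s2 := false) rfl hκ covF10 covF11 hx hx'
        Pool.Agent.Strip051.G.I1_32_3_64.Tab.C.FB11.c_mm_011 noCut_B noExt_B F trivial trivial

theorem FB11_mm_012 {κ x : ℝ} (hκ : κ * h0 = ken x) (hx : ((33554432 : ℕ) : ℝ) / S ≤ x) (hx' : x ≤ (((33554432 : ℕ) : ℝ) + (16777216 : ℕ)) / S) :
    TriB PP.cur (farS κ (h0 * x) (tbl tKF x) (tbl tL x)) 0 1 2 1 1 (-1) (-1) :=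
  (sideF hx hx').farB (Or.inr rfl) (Or.inr rfl) fun y y' F =>
    (lt_or_ge (h0 * (y + y')) 1).elim
      (fun g => farB_cert (s1 := false) (s2 := false) rfl hκ covF10 covF12a hx hx'
        Pool.Agent.Strip051.G.I1_32_3_64.Tab.C.FB11.c_mm_012_a noCut_B noExt_B F trivial g)
      (fun g => farB_cert (s1 := false) (s2 := false) rfl hκ covF10 covF12b hx hx'
        Pool.Agent.Strip051.G.I1_32_3_64.Tab.C.FB11.c_mm_012_b noCut_B noExt_B F trivial g)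

theorem FB11_mm_022 {κ x : ℝ} (hκ : κ * h0 = ken x) (hx : ((33554432 : ℕ) : ℝ) / S ≤ x) (hx' : x ≤ (((33554432 : ℕ) : ℝ) + (16777216 : ℕ)) / S) :
    TriB PP.cur (farS κ (h0 * x) (tbl tKF x) (tbl tL x)) 0 2 2 1 1 (-1) (-1) :=
  (sideF hx hx').farB (Or.inr rfl) (Or.inr rfl) fun y y' F =>
    (lt_or_ge (h0 * (y + y')) 1).elim
      (fun g => farB_cert (s1 := false) (s2 := false) rfl hκ covF10 covF12a hx hx'
        Pool.Agent.Strip051.G.I1_32_3_64.Tab.C.FB11.c_mm_022_a noCut_B noExt_B F trivial g)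
      (fun g => farB_cert (s1 := false) (s2 := false) rfl hκ covF10 covF12b hx hx'
        Pool.Agent.Strip051.G.I1_32_3_64.Tab.C.FB11.c_mm_022_b noCut_B noExt_B F trivial g)

theorem FB11_mm_023 {κ x : ℝ} (hκ : κ * h0 = ken x) (hx : ((33554432 : ℕ) : ℝ) / S ≤ x) (hx' : x ≤ (((33554432 : ℕ) : ℝ) + (16777216 : ℕ)) / S) :
    TriB PP.cur (farS κ (h0 * x) (tbl tKF x) (tbl tL x)) 0 2 3 1 1 (-1) (-1) :=
  (sideF hx hx').farB (Or.inr rfl) (Or.inr rfl) fun y y' F =>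
    farB_cert (s1 := false) (s2 := false) rfl hκ covF10 covF13 hx hx'
        Pool.Agent.Strip051.G.I1_32_3_64.Tab.C.FB11.c_mm_023 noCut_B noExt_B F trivial trivial

theorem FB11_mm_033 {κ x : ℝ} (hκ : κ * h0 = ken x) (hx : ((33554432 : ℕ) : ℝ) / S ≤ x) (hx' : x ≤ (((33554432 : ℕ) : ℝ) + (16777216 : ℕ)) / S) :
    TriB PP.cur (farS κ (h0 * x) (tbl tKF x) (tbl tL x)) 0 3 3 1 1 (-1) (-1) :=
  (sideF hx hx').farB (Or.inr rfl) (Or.inr rfl) fun y y' F =>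
    farB_cert (s1 := false) (s2 := false) rfl hκ covF10 covF13 hx hx'
        Pool.Agent.Strip051.G.I1_32_3_64.Tab.C.FB11.c_mm_033 noCut_B noExt_B F trivial trivial

theorem FB11_mm_101 {κ x : ℝ} (hκ : κ * h0 = ken x) (hx : ((33554432 : ℕ) : ℝ) / S ≤ x) (hx' : x ≤ (((33554432 : ℕ) : ℝ) + (16777216 : ℕ)) / S) :
    TriB PP.cur (farS κ (h0 * x) (tbl tKF x) (tbl tL x)) 1 0 1 1 1 (-1) (-1) :=
  (sideF hx hx').farB (Or.inr rfl) (Or.inr rfl) fun y y' F =>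
    farB_cert (s1 := false) (s2 := false) rfl hκ covF11 covF11 hx hx'
        Pool.Agent.Strip051.G.I1_32_3_64.Tab.C.FB11.c_mm_101 noCut_B noExt_B F trivial trivial

theorem FB11_mm_102 {κ x : ℝ} (hκ : κ * h0 = ken x) (hx : ((33554432 : ℕ) : ℝ) / S ≤ x) (hx' : x ≤ (((33554432 : ℕ) : ℝ) + (16777216 : ℕ)) / S) :
    TriB PP.cur (farS κ (h0 * x) (tbl tKF x) (tbl tL x)) 1 0 2 1 1 (-1) (-1) :=
  (sideF hx hx').farB (Or.inr rfl) (Or.inr rfl) fun y y' F =>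
    (lt_or_ge (h0 * (y + y')) 1).elim
      (fun g => farB_cert (s1 := false) (s2 := false) rfl hκ covF11 covF12a hx hx'
        Pool.Agent.Strip051.G.I1_32_3_64.Tab.C.FB11.c_mm_102_a noCut_B noExt_B F trivial g)
      (fun g => farB_cert (s1 := false) (s2 := false) rfl hκ covF11 covF12b hx hx'
        Pool.Agent.Strip051.G.I1_32_3_64.Tab.C.FB11.c_mm_102_b noCut_B noExt_B F trivial g)

theorem FB11_mm_112 {κ x : ℝ} (hκ : κ * h0 = ken x) (hx : ((33554432 : ℕ) : ℝ) / S ≤ x) (hx' : x ≤ (((33554432 : ℕ) : ℝ) + (16777216 : ℕ)) / S) :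
    TriB PP.cur (farS κ (h0 * x) (tbl tKF x) (tbl tL x)) 1 1 2 1 1 (-1) (-1) :=
  (sideF hx hx').farB (Or.inr rfl) (Or.inr rfl) fun y y' F =>
    (lt_or_ge (h0 * (y + y')) 1).elim
      (fun g => farB_cert (s1 := false) (s2 := false) rfl hκ covF11 covF12a hx hx'
        Pool.Agent.Strip051.G.I1_32_3_64.Tab.C.FB11.c_mm_112_a noCut_B noExt_B F trivial g)
      (fun g => farB_cert (s1 := false) (s2 := false) rfl hκ covF11 covF12b hx hx'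
        Pool.Agent.Strip051.G.I1_32_3_64.Tab.C.FB11.c_mm_112_b noCut_B noExt_B F trivial g)

theorem FB11_mm_113 {κ x : ℝ} (hκ : κ * h0 = ken x) (hx : ((33554432 : ℕ) : ℝ) / S ≤ x) (hx' : x ≤ (((33554432 : ℕ) : ℝ) + (16777216 : ℕ)) / S) :
    TriB PP.cur (farS κ (h0 * x) (tbl tKF x) (tbl tL x)) 1 1 3 1 1 (-1) (-1) :=
  (sideF hx hx').farB (Or.inr rfl) (Or.inr rfl) fun y y' F =>
    farB_cert (s1 := false) (s2 := false) rfl hκ covF11 covF13 hx hx'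
        Pool.Agent.Strip051.G.I1_32_3_64.Tab.C.FB11.c_mm_113 noCut_B noExt_B F trivial trivial

theorem FB11_mm_123 {κ x : ℝ} (hκ : κ * h0 = ken x) (hx : ((33554432 : ℕ) : ℝ) / S ≤ x) (hx' : x ≤ (((33554432 : ℕ) : ℝ) + (16777216 : ℕ)) / S) :
    TriB PP.cur (farS κ (h0 * x) (tbl tKF x) (tbl tL x)) 1 2 3 1 1 (-1) (-1) :=
  (sideF hx hx').farB (Or.inr rfl) (Or.inr rfl) fun y y' F =>
    farB_cert (s1 := false) (s2 := false) rfl hκ covF11 covF13 hx hx'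
        Pool.Agent.Strip051.G.I1_32_3_64.Tab.C.FB11.c_mm_123 noCut_B noExt_B F trivial trivial

theorem FB11_mm_133 {κ x : ℝ} (hκ : κ * h0 = ken x) (hx : ((33554432 : ℕ) : ℝ) / S ≤ x) (hx' : x ≤ (((33554432 : ℕ) : ℝ) + (16777216 : ℕ)) / S) :
    TriB PP.cur (farS κ (h0 * x) (tbl tKF x) (tbl tL x)) 1 3 3 1 1 (-1) (-1) :=
  (sideF hx hx').farB (Or.inr rfl) (Or.inr rfl) fun y y' F =>
    farB_cert (s1 := false) (s2 := false) rfl hκ covF11 covF13 hx hx'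
        Pool.Agent.Strip051.G.I1_32_3_64.Tab.C.FB11.c_mm_133 noCut_B noExt_B F trivial trivial

theorem FB11_mm_202 {κ x : ℝ} (hκ : κ * h0 = ken x) (hx : ((33554432 : ℕ) : ℝ) / S ≤ x) (hx' : x ≤ (((33554432 : ℕ) : ℝ) + (16777216 : ℕ)) / S) :
    TriB PP.cur (farS κ (h0 * x) (tbl tKF x) (tbl tL x)) 2 0 2 1 1 (-1) (-1) :=
  (sideF hx hx').farB (Or.inr rfl) (Or.inr rfl) fun y y' F =>
    (lt_or_ge (h0 * y) 1).elim
      (fun h => (lt_or_ge (h0 * (y + y')) 1).elim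
        (fun g => farB_cert (s1 := false) (s2 := false) rfl hκ covF12a covF12a hx hx'
        Pool.Agent.Strip051.G.I1_32_3_64.Tab.C.FB11.c_mm_202_aa noCut_B noExt_B F h g)
        (fun g => farB_cert (s1 := false) (s2 := false) rfl hκ covF12a covF12b hx hx'
        Pool.Agent.Strip051.G.I1_32_3_64.Tab.C.FB11.c_mm_202_ab noCut_B noExt_B F h g))
      (fun h => (lt_or_ge (h0 * (y + y')) 1).elim
        (fun g => farB_cert (s1 := false) (s2 := false) rfl hκ covF12b covF12a hx hx'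
        Pool.Agent.Strip051.G.I1_32_3_64.Tab.C.FB11.c_mm_202_ba noCut_B noExt_B F h g)
        (fun g => farB_cert (s1 := false) (s2 := false) rfl hκ covF12b covF12b hx hx'
        Pool.Agent.Strip051.G.I1_32_3_64.Tab.C.FB11.c_mm_202_bb noCut_B noExt_B F h g))

theorem FB11_mm_203 {κ x : ℝ} (hκ : κ * h0 = ken x) (hx : ((33554432 : ℕ) : ℝ) / S ≤ x) (hx' : x ≤ (((33554432 : ℕ) : ℝ) + (16777216 : ℕ)) / S) :
    TriB PP.cur (farS κ (h0 * x) (tbl tKF x) (tbl tL x)) 2 0 3 1 1 (-1) (-1) :=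
  (sideF hx hx').farB (Or.inr rfl) (Or.inr rfl) fun y y' F =>
    (lt_or_ge (h0 * y) 1).elim
      (fun h => farB_cert (s1 := false) (s2 := false) rfl hκ covF12a covF13 hx hx'
        Pool.Agent.Strip051.G.I1_32_3_64.Tab.C.FB11.c_mm_203_a noCut_B noExt_B F h trivial)
      (fun h => farB_cert (s1 := false) (s2 := false) rfl hκ covF12b covF13 hx hx'
        Pool.Agent.Strip051.G.I1_32_3_64.Tab.C.FB11.c_mm_203_b noCut_B noExt_B F h trivial)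

theorem FB11_mm_213 {κ x : ℝ} (hκ : κ * h0 = ken x) (hx : ((33554432 : ℕ) : ℝ) / S ≤ x) (hx' : x ≤ (((33554432 : ℕ) : ℝ) + (16777216 : ℕ)) / S) :
    TriB PP.cur (farS κ (h0 * x) (tbl tKF x) (tbl tL x)) 2 1 3 1 1 (-1) (-1) :=
  (sideF hx hx').farB (Or.inr rfl) (Or.inr rfl) fun y y' F =>
    (lt_or_ge (h0 * y) 1).elim
      (fun h => farB_cert (s1 := false) (s2 := false) rfl hκ covF12a covF13 hx hx'
        Pool.Agent.Strip051.G.I1_32_3_64.Tab.C.FB11.c_mm_213_a noCut_B noExt_B F h trivial)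
      (fun h => farB_cert (s1 := false) (s2 := false) rfl hκ covF12b covF13 hx hx'
        Pool.Agent.Strip051.G.I1_32_3_64.Tab.C.FB11.c_mm_213_b noCut_B noExt_B F h trivial)

theorem FB11_mm_303 {κ x : ℝ} (hκ : κ * h0 = ken x) (hx : ((33554432 : ℕ) : ℝ) / S ≤ x) (hx' : x ≤ (((33554432 : ℕ) : ℝ) + (16777216 : ℕ)) / S) :
    TriB PP.cur (farS κ (h0 * x) (tbl tKF x) (tbl tL x)) 3 0 3 1 1 (-1) (-1) :=
  (sideF hx hx').farB (Or.inr rfl) (Or.inr rfl) fun y y' F =>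
    farB_cert (s1 := false) (s2 := false) rfl hκ covF13 covF13 hx hx'
        Pool.Agent.Strip051.G.I1_32_3_64.Tab.C.FB11.c_mm_303 noCut_B noExt_B F trivial trivial

theorem FB11_mm_313 {κ x : ℝ} (hκ : κ * h0 = ken x) (hx : ((33554432 : ℕ) : ℝ) / S ≤ x) (hx' : x ≤ (((33554432 : ℕ) : ℝ) + (16777216 : ℕ)) / S) :
    TriB PP.cur (farS κ (h0 * x) (tbl tKF x) (tbl tL x)) 3 1 3 1 1 (-1) (-1) :=
  (sideF hx hx').farB (Or.inr rfl) (Or.inr rfl) fun y y' F =>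
    farB_cert (s1 := false) (s2 := false) rfl hκ covF13 covF13 hx hx'
        Pool.Agent.Strip051.G.I1_32_3_64.Tab.C.FB11.c_mm_313 noCut_B noExt_B F trivial trivial

theorem FB11 {κ x : ℝ} (hκ : κ * h0 = ken x) (hx : ((33554432 : ℕ) : ℝ) / S ≤ x) (hx' : x ≤ (((33554432 : ℕ) : ℝ) + (16777216 : ℕ)) / S) : AllTB PP.cur (farS κ (h0 * x) (tbl tKF x) (tbl tL x)) 1 1 where
  pp := all17 (Q := fun a b c => TriB PP.cur (farS κ (h0 * x) (tbl tKF x) (tbl tL x)) a b c 1 1 1 1)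
    (FB11_pp_001 hκ hx hx') (FB11_pp_011 hκ hx hx') (FB11_pp_012 hκ hx hx') (FB11_pp_022 hκ hx hx') (FB11_pp_023 hκ hx hx') (FB11_pp_033 hκ hx hx') (FB11_pp_101 hκ hx hx') (FB11_pp_102 hκ hx hx') (FB11_pp_112 hκ hx hx') (FB11_pp_113 hκ hx hx') (FB11_pp_123 hκ hx hx') (FB11_pp_133 hκ hx hx') (FB11_pp_202 hκ hx hx') (FB11_pp_203 hκ hx hx') (FB11_pp_213 hκ hx hx') (FB11_pp_303 hκ hx hx') (FB11_pp_313 hκ hx hx')
  pm := all17 (Q := fun a b c => TriB PP.cur (farS κ (h0 * x) (tbl tKF x) (tbl tL x)) a b c 1 1 1 (-1))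
    (FB11_pm_001 hκ hx hx') (FB11_pm_011 hκ hx hx') (FB11_pm_012 hκ hx hx') (FB11_pm_022 hκ hx hx') (FB11_pm_023 hκ hx hx') (FB11_pm_033 hκ hx hx') (FB11_pm_101 hκ hx hx') (FB11_pm_102 hκ hx hx') (FB11_pm_112 hκ hx hx') (FB11_pm_113 hκ hx hx') (FB11_pm_123 hκ hx hx') (FB11_pm_133 hκ hx hx') (FB11_pm_202 hκ hx hx') (FB11_pm_203 hκ hx hx') (FB11_pm_213 hκ hx hx') (FB11_pm_303 hκ hx hx') (FB11_pm_313 hκ hx hx')
  mm := all17 (Q := fun a b c => TriB PP.cur (farS κ (h0 * x) (tbl tKF x) (tbl tL x)) a b c 1 1 (-1) (-1))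
    (FB11_mm_001 hκ hx hx') (FB11_mm_011 hκ hx hx') (FB11_mm_012 hκ hx hx') (FB11_mm_022 hκ hx hx') (FB11_mm_023 hκ hx hx') (FB11_mm_033 hκ hx hx') (FB11_mm_101 hκ hx hx') (FB11_mm_102 hκ hx hx') (FB11_mm_112 hκ hx hx') (FB11_mm_113 hκ hx hx') (FB11_mm_123 hκ hx hx') (FB11_mm_133 hκ hx hx') (FB11_mm_202 hκ hx hx') (FB11_mm_203 hκ hx hx') (FB11_mm_213 hκ hx hx') (FB11_mm_303 hκ hx hx') (FB11_mm_313 hκ hx hx')

theorem FB12_pp_001 {κ x : ℝ} (hκ : κ * h0 = ken x) (hx : ((33554432 : ℕ) : ℝ) / S ≤ x) (hx' : x ≤ (((33554432 : ℕ) : ℝ) + (16777216 : ℕ)) / S) :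
    TriB PP.cur (farS κ (h0 * x) (tbl tKF x) (tbl tL x)) 0 0 1 1 2 1 1 :=
  (sideF hx hx').farB (Or.inl rfl) (Or.inl rfl) fun y y' F =>
    farB_cert (s1 := true) (s2 := true) rfl hκ covF10 covF21 hx hx'
        Pool.Agent.Strip051.G.I1_32_3_64.Tab.C.FB12.c_pp_001 noCut_B noExt_B F trivial trivial

theorem FB12_pp_011 {κ x : ℝ} (hκ : κ * h0 = ken x) (hx : ((33554432 : ℕ) : ℝ) / S ≤ x) (hx' : x ≤ (((33554432 : ℕ) : ℝ) + (16777216 : ℕ)) / S) :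
    TriB PP.cur (farS κ (h0 * x) (tbl tKF x) (tbl tL x)) 0 1 1 1 2 1 1 :=
  (sideF hx hx').farB (Or.inl rfl) (Or.inl rfl) fun y y' F =>
    farB_cert (s1 := true) (s2 := true) rfl hκ covF10 covF21 hx hx'
        Pool.Agent.Strip051.G.I1_32_3_64.Tab.C.FB12.c_pp_011 (cutB_cons (Pool.Agent.Strip051.G.I1_32_3_64.Tab.altF_B011L_12 hκ hx hx') cutB_nil) noExt_B F trivial trivial

theorem FB12_pp_012 {κ x : ℝ} (hκ : κ * h0 = ken x) (hx : ((33554432 : ℕ) : ℝ) / S ≤ x) (hx' : x ≤ (((33554432 : ℕ) : ℝ) + (16777216 : ℕ)) / S) :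
    TriB PP.cur (farS κ (h0 * x) (tbl tKF x) (tbl tL x)) 0 1 2 1 2 1 1 :=
  (sideF hx hx').farB (Or.inl rfl) (Or.inl rfl) fun y y' F =>
    (lt_or_ge (h0 * (y + y')) 1).elim
      (fun g => farB_cert (s1 := true) (s2 := true) rfl hκ covF10 covF22a hx hx'
        Pool.Agent.Strip051.G.I1_32_3_64.Tab.C.FB12.c_pp_012_a (cutB_cons (Pool.Agent.Strip051.G.I1_32_3_64.Tab.altF_B012E_12 hκ hx hx') cutB_nil) noExt_B F trivial g)
      (fun g => farB_cert (s1 := true) (s2 := true) rfl hκ covF10 covF22b hx hx'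
        Pool.Agent.Strip051.G.I1_32_3_64.Tab.C.FB12.c_pp_012_b (cutB_cons (Pool.Agent.Strip051.G.I1_32_3_64.Tab.altF_B012E_12 hκ hx hx') cutB_nil) noExt_B F trivial g)

theorem FB12_pp_022 {κ x : ℝ} (hκ : κ * h0 = ken x) (hx : ((33554432 : ℕ) : ℝ) / S ≤ x) (hx' : x ≤ (((33554432 : ℕ) : ℝ) + (16777216 : ℕ)) / S) :
    TriB PP.cur (farS κ (h0 * x) (tbl tKF x) (tbl tL x)) 0 2 2 1 2 1 1 :=
  (sideF hx hx').farB (Or.inl rfl) (Or.inl rfl) fun y y' F =>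
    (lt_or_ge (h0 * (y + y')) 1).elim
      (fun g => farB_cert (s1 := true) (s2 := true) rfl hκ covF10 covF22a hx hx'
        Pool.Agent.Strip051.G.I1_32_3_64.Tab.C.FB12.c_pp_022_a (cutB_cons (Pool.Agent.Strip051.G.I1_32_3_64.Tab.altF_B022E_12 hκ hx hx') cutB_nil) noExt_B F trivial g)
      (fun g => farB_cert (s1 := true) (s2 := true) rfl hκ covF10 covF22b hx hx'
        Pool.Agent.Strip051.G.I1_32_3_64.Tab.C.FB12.c_pp_022_b (cutB_cons (Pool.Agent.Strip051.G.I1_32_3_64.Tab.altF_B022E_12 hκ hx hx') cutB_nil) noExt_B F trivial g)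

theorem FB12_pp_023 {κ x : ℝ} (hκ : κ * h0 = ken x) (hx : ((33554432 : ℕ) : ℝ) / S ≤ x) (hx' : x ≤ (((33554432 : ℕ) : ℝ) + (16777216 : ℕ)) / S) :
    TriB PP.cur (farS κ (h0 * x) (tbl tKF x) (tbl tL x)) 0 2 3 1 2 1 1 :=
  (sideF hx hx').farB (Or.inl rfl) (Or.inl rfl) fun y y' F =>
    farB_cert (s1 := true) (s2 := true) rfl hκ covF10 covF23 hx hx'
        Pool.Agent.Strip051.G.I1_32_3_64.Tab.C.FB12.c_pp_023 noCut_B noExt_B F trivial trivial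

theorem FB12_pp_033 {κ x : ℝ} (hκ : κ * h0 = ken x) (hx : ((33554432 : ℕ) : ℝ) / S ≤ x) (hx' : x ≤ (((33554432 : ℕ) : ℝ) + (16777216 : ℕ)) / S) :
    TriB PP.cur (farS κ (h0 * x) (tbl tKF x) (tbl tL x)) 0 3 3 1 2 1 1 :=
  (sideF hx hx').farB (Or.inl rfl) (Or.inl rfl) fun y y' F =>
    farB_cert (s1 := true) (s2 := true) rfl hκ covF10 covF23 hx hx'
        Pool.Agent.Strip051.G.I1_32_3_64.Tab.C.FB12.c_pp_033 noCut_B noExt_B F trivial trivial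

theorem FB12_pp_101 {κ x : ℝ} (hκ : κ * h0 = ken x) (hx : ((33554432 : ℕ) : ℝ) / S ≤ x) (hx' : x ≤ (((33554432 : ℕ) : ℝ) + (16777216 : ℕ)) / S) :
    TriB PP.cur (farS κ (h0 * x) (tbl tKF x) (tbl tL x)) 1 0 1 1 2 1 1 :=
  (sideF hx hx').farB (Or.inl rfl) (Or.inl rfl) fun y y' F =>
    farB_cert (s1 := true) (s2 := true) rfl hκ covF11 covF21 hx hx'
        Pool.Agent.Strip051.G.I1_32_3_64.Tab.C.FB12.c_pp_101 noCut_B noExt_B F trivial trivial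

theorem FB12_pp_102 {κ x : ℝ} (hκ : κ * h0 = ken x) (hx : ((33554432 : ℕ) : ℝ) / S ≤ x) (hx' : x ≤ (((33554432 : ℕ) : ℝ) + (16777216 : ℕ)) / S) :
    TriB PP.cur (farS κ (h0 * x) (tbl tKF x) (tbl tL x)) 1 0 2 1 2 1 1 :=
  (sideF hx hx').farB (Or.inl rfl) (Or.inl rfl) fun y y' F =>
    (lt_or_ge (h0 * (y + y')) 1).elim
      (fun g => farB_cert (s1 := true) (s2 := true) rfl hκ covF11 covF22a hx hx'
        Pool.Agent.Strip051.G.I1_32_3_64.Tab.C.FB12.c_pp_102_a noCut_B noExt_B F trivial g)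
      (fun g => farB_cert (s1 := true) (s2 := true) rfl hκ covF11 covF22b hx hx'
        Pool.Agent.Strip051.G.I1_32_3_64.Tab.C.FB12.c_pp_102_b noCut_B noExt_B F trivial g)

theorem FB12_pp_112 {κ x : ℝ} (hκ : κ * h0 = ken x) (hx : ((33554432 : ℕ) : ℝ) / S ≤ x) (hx' : x ≤ (((33554432 : ℕ) : ℝ) + (16777216 : ℕ)) / S) :
    TriB PP.cur (farS κ (h0 * x) (tbl tKF x) (tbl tL x)) 1 1 2 1 2 1 1 :=
  (sideF hx hx').farB (Or.inl rfl) (Or.inl rfl) fun y y' F =>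
    (lt_or_ge (h0 * (y + y')) 1).elim
      (fun g => farB_cert (s1 := true) (s2 := true) rfl hκ covF11 covF22a hx hx'
        Pool.Agent.Strip051.G.I1_32_3_64.Tab.C.FB12.c_pp_112_a noCut_B noExt_B F trivial g)
      (fun g => farB_cert (s1 := true) (s2 := true) rfl hκ covF11 covF22b hx hx'
        Pool.Agent.Strip051.G.I1_32_3_64.Tab.C.FB12.c_pp_112_b noCut_B noExt_B F trivial g)

theorem FB12_pp_113 {κ x : ℝ} (hκ : κ * h0 = ken x) (hx : ((33554432 : ℕ) : ℝ) / S ≤ x) (hx' : x ≤ (((33554432 : ℕ) : ℝ) + (16777216 : ℕ)) / S) :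
    TriB PP.cur (farS κ (h0 * x) (tbl tKF x) (tbl tL x)) 1 1 3 1 2 1 1 :=
  (sideF hx hx').farB (Or.inl rfl) (Or.inl rfl) fun y y' F =>
    farB_cert (s1 := true) (s2 := true) rfl hκ covF11 covF23 hx hx'
        Pool.Agent.Strip051.G.I1_32_3_64.Tab.C.FB12.c_pp_113 noCut_B noExt_B F trivial trivial

theorem FB12_pp_123 {κ x : ℝ} (hκ : κ * h0 = ken x) (hx : ((33554432 : ℕ) : ℝ) / S ≤ x) (hx' : x ≤ (((33554432 : ℕ) : ℝ) + (16777216 : ℕ)) / S) :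
    TriB PP.cur (farS κ (h0 * x) (tbl tKF x) (tbl tL x)) 1 2 3 1 2 1 1 :=
  (sideF hx hx').farB (Or.inl rfl) (Or.inl rfl) fun y y' F =>
    farB_cert (s1 := true) (s2 := true) rfl hκ covF11 covF23 hx hx'
        Pool.Agent.Strip051.G.I1_32_3_64.Tab.C.FB12.c_pp_123 noCut_B noExt_B F trivial trivial

theorem FB12_pp_133 {κ x : ℝ} (hκ : κ * h0 = ken x) (hx : ((33554432 : ℕ) : ℝ) / S ≤ x) (hx' : x ≤ (((33554432 : ℕ) : ℝ) + (16777216 : ℕ)) / S) :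
    TriB PP.cur (farS κ (h0 * x) (tbl tKF x) (tbl tL x)) 1 3 3 1 2 1 1 :=
  (sideF hx hx').farB (Or.inl rfl) (Or.inl rfl) fun y y' F =>
    farB_cert (s1 := true) (s2 := true) rfl hκ covF11 covF23 hx hx'
        Pool.Agent.Strip051.G.I1_32_3_64.Tab.C.FB12.c_pp_133 noCut_B noExt_B F trivial trivial

theorem FB12_pp_202 {κ x : ℝ} (hκ : κ * h0 = ken x) (hx : ((33554432 : ℕ) : ℝ) / S ≤ x) (hx' : x ≤ (((33554432 : ℕ) : ℝ) + (16777216 : ℕ)) / S) :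
    TriB PP.cur (farS κ (h0 * x) (tbl tKF x) (tbl tL x)) 2 0 2 1 2 1 1 :=
  (sideF hx hx').farB (Or.inl rfl) (Or.inl rfl) fun y y' F =>
    (lt_or_ge (h0 * y) 1).elim
      (fun h => (lt_or_ge (h0 * (y + y')) 1).elim
        (fun g => farB_cert (s1 := true) (s2 := true) rfl hκ covF12a covF22a hx hx'
        Pool.Agent.Strip051.G.I1_32_3_64.Tab.C.FB12.c_pp_202_aa noCut_B noExt_B F h g)
        (fun g => farB_cert (s1 := true) (s2 := true) rfl hκ covF12a covF22b hx hx'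
        Pool.Agent.Strip051.G.I1_32_3_64.Tab.C.FB12.c_pp_202_ab noCut_B noExt_B F h g))
      (fun h => (lt_or_ge (h0 * (y + y')) 1).elim
        (fun g => farB_cert (s1 := true) (s2 := true) rfl hκ covF12b covF22a hx hx'
        Pool.Agent.Strip051.G.I1_32_3_64.Tab.C.FB12.c_pp_202_ba noCut_B noExt_B F h g)
        (fun g => farB_cert (s1 := true) (s2 := true) rfl hκ covF12b covF22b hx hx'
        Pool.Agent.Strip051.G.I1_32_3_64.Tab.C.FB12.c_pp_202_bb noCut_B noExt_B F h g))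

theorem FB12_pp_203 {κ x : ℝ} (hκ : κ * h0 = ken x) (hx : ((33554432 : ℕ) : ℝ) / S ≤ x) (hx' : x ≤ (((33554432 : ℕ) : ℝ) + (16777216 : ℕ)) / S) :
    TriB PP.cur (farS κ (h0 * x) (tbl tKF x) (tbl tL x)) 2 0 3 1 2 1 1 :=
  (sideF hx hx').farB (Or.inl rfl) (Or.inl rfl) fun y y' F =>
    (lt_or_ge (h0 * y) 1).elim
      (fun h => farB_cert (s1 := true) (s2 := true) rfl hκ covF12a covF23 hx hx'
        Pool.Agent.Strip051.G.I1_32_3_64.Tab.C.FB12.c_pp_203_a noCut_B noExt_B F h trivial)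
      (fun h => farB_cert (s1 := true) (s2 := true) rfl hκ covF12b covF23 hx hx'
        Pool.Agent.Strip051.G.I1_32_3_64.Tab.C.FB12.c_pp_203_b noCut_B noExt_B F h trivial)

theorem FB12_pp_213 {κ x : ℝ} (hκ : κ * h0 = ken x) (hx : ((33554432 : ℕ) : ℝ) / S ≤ x) (hx' : x ≤ (((33554432 : ℕ) : ℝ) + (16777216 : ℕ)) / S) :
    TriB PP.cur (farS κ (h0 * x) (tbl tKF x) (tbl tL x)) 2 1 3 1 2 1 1 :=
  (sideF hx hx').farB (Or.inl rfl) (Or.inl rfl) fun y y' F =>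
    (lt_or_ge (h0 * y) 1).elim
      (fun h => farB_cert (s1 := true) (s2 := true) rfl hκ covF12a covF23 hx hx'
        Pool.Agent.Strip051.G.I1_32_3_64.Tab.C.FB12.c_pp_213_a (cutB_cons (Pool.Agent.Strip051.G.I1_32_3_64.Tab.alt12F_B213_12p hκ hx hx') cutB_nil) noExt_B F h trivial)
      (fun h => farB_cert (s1 := true) (s2 := true) rfl hκ covF12b covF23 hx hx'
        Pool.Agent.Strip051.G.I1_32_3_64.Tab.C.FB12.c_pp_213_b (cutB_cons (Pool.Agent.Strip051.G.I1_32_3_64.Tab.alt12F_B213_12p hκ hx hx') cutB_nil) noExt_B F h trivial)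

theorem FB12_pp_303 {κ x : ℝ} (hκ : κ * h0 = ken x) (hx : ((33554432 : ℕ) : ℝ) / S ≤ x) (hx' : x ≤ (((33554432 : ℕ) : ℝ) + (16777216 : ℕ)) / S) :
    TriB PP.cur (farS κ (h0 * x) (tbl tKF x) (tbl tL x)) 3 0 3 1 2 1 1 :=
  (sideF hx hx').farB (Or.inl rfl) (Or.inl rfl) fun y y' F =>
    farB_cert (s1 := true) (s2 := true) rfl hκ covF13 covF23 hx hx'
        Pool.Agent.Strip051.G.I1_32_3_64.Tab.C.FB12.c_pp_303 noCut_B noExt_B F trivial trivial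

theorem FB12_pp_313 {κ x : ℝ} (hκ : κ * h0 = ken x) (hx : ((33554432 : ℕ) : ℝ) / S ≤ x) (hx' : x ≤ (((33554432 : ℕ) : ℝ) + (16777216 : ℕ)) / S) :
    TriB PP.cur (farS κ (h0 * x) (tbl tKF x) (tbl tL x)) 3 1 3 1 2 1 1 :=
  (sideF hx hx').farB (Or.inl rfl) (Or.inl rfl) fun y y' F =>
    farB_cert (s1 := true) (s2 := true) rfl hκ covF13 covF23 hx hx'
        Pool.Agent.Strip051.G.I1_32_3_64.Tab.C.FB12.c_pp_313 noCut_B noExt_B F trivial trivial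

theorem FB12_pm_001 {κ x : ℝ} (hκ : κ * h0 = ken x) (hx : ((33554432 : ℕ) : ℝ) / S ≤ x) (hx' : x ≤ (((33554432 : ℕ) : ℝ) + (16777216 : ℕ)) / S) :
    TriB PP.cur (farS κ (h0 * x) (tbl tKF x) (tbl tL x)) 0 0 1 1 2 1 (-1) :=
  (sideF hx hx').farB (Or.inl rfl) (Or.inr rfl) fun y y' F =>
    farB_cert (s1 := true) (s2 := false) rfl hκ covF10 covF21 hx hx'
        Pool.Agent.Strip051.G.I1_32_3_64.Tab.C.FB12.c_pm_001 noCut_B noExt_B F trivial trivial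

theorem FB12_pm_011 {κ x : ℝ} (hκ : κ * h0 = ken x) (hx : ((33554432 : ℕ) : ℝ) / S ≤ x) (hx' : x ≤ (((33554432 : ℕ) : ℝ) + (16777216 : ℕ)) / S) :
    TriB PP.cur (farS κ (h0 * x) (tbl tKF x) (tbl tL x)) 0 1 1 1 2 1 (-1) :=
  (sideF hx hx').farB (Or.inl rfl) (Or.inr rfl) fun y y' F =>
    farB_cert (s1 := true) (s2 := false) rfl hκ covF10 covF21 hx hx'
        Pool.Agent.Strip051.G.I1_32_3_64.Tab.C.FB12.c_pm_011 noCut_B noExt_B F trivial trivial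

theorem FB12_pm_012 {κ x : ℝ} (hκ : κ * h0 = ken x) (hx : ((33554432 : ℕ) : ℝ) / S ≤ x) (hx' : x ≤ (((33554432 : ℕ) : ℝ) + (16777216 : ℕ)) / S) :
    TriB PP.cur (farS κ (h0 * x) (tbl tKF x) (tbl tL x)) 0 1 2 1 2 1 (-1) :=
  (sideF hx hx').farB (Or.inl rfl) (Or.inr rfl) fun y y' F =>
    (lt_or_ge (h0 * (y + y')) 1).elim
      (fun g => farB_cert (s1 := true) (s2 := false) rfl hκ covF10 covF22a hx hx'
        Pool.Agent.Strip051.G.I1_32_3_64.Tab.C.FB12.c_pm_012_a (cutB_cons (Pool.Agent.Strip051.G.I1_32_3_64.Tab.altF_B012R_12 hκ hx hx') cutB_nil) noExt_B F trivial g)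
      (fun g => farB_cert (s1 := true) (s2 := false) rfl hκ covF10 covF22b hx hx'
        Pool.Agent.Strip051.G.I1_32_3_64.Tab.C.FB12.c_pm_012_b (cutB_cons (Pool.Agent.Strip051.G.I1_32_3_64.Tab.altF_B012R_12 hκ hx hx') cutB_nil) noExt_B F trivial g)

theorem FB12_pm_022 {κ x : ℝ} (hκ : κ * h0 = ken x) (hx : ((33554432 : ℕ) : ℝ) / S ≤ x) (hx' : x ≤ (((33554432 : ℕ) : ℝ) + (16777216 : ℕ)) / S) :
    TriB PP.cur (farS κ (h0 * x) (tbl tKF x) (tbl tL x)) 0 2 2 1 2 1 (-1) :=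
  (sideF hx hx').farB (Or.inl rfl) (Or.inr rfl) fun y y' F =>
    (lt_or_ge (h0 * (y + y')) 1).elim
      (fun g => farB_cert (s1 := true) (s2 := false) rfl hκ covF10 covF22a hx hx'
        Pool.Agent.Strip051.G.I1_32_3_64.Tab.C.FB12.c_pm_022_a (cutB_cons (Pool.Agent.Strip051.G.I1_32_3_64.Tab.altF_B022R_12 hκ hx hx') cutB_nil) noExt_B F trivial g)
      (fun g => farB_cert (s1 := true) (s2 := false) rfl hκ covF10 covF22b hx hx'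
        Pool.Agent.Strip051.G.I1_32_3_64.Tab.C.FB12.c_pm_022_b (cutB_cons (Pool.Agent.Strip051.G.I1_32_3_64.Tab.altF_B022R_12 hκ hx hx') cutB_nil) noExt_B F trivial g)

theorem FB12_pm_023 {κ x : ℝ} (hκ : κ * h0 = ken x) (hx : ((33554432 : ℕ) : ℝ) / S ≤ x) (hx' : x ≤ (((33554432 : ℕ) : ℝ) + (16777216 : ℕ)) / S) :
    TriB PP.cur (farS κ (h0 * x) (tbl tKF x) (tbl tL x)) 0 2 3 1 2 1 (-1) :=
  (sideF hx hx').farB (Or.inl rfl) (Or.inr rfl) fun y y' F =>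
    farB_cert (s1 := true) (s2 := false) rfl hκ covF10 covF23 hx hx'
        Pool.Agent.Strip051.G.I1_32_3_64.Tab.C.FB12.c_pm_023 noCut_B noExt_B F trivial trivial

theorem FB12_pm_033 {κ x : ℝ} (hκ : κ * h0 = ken x) (hx : ((33554432 : ℕ) : ℝ) / S ≤ x) (hx' : x ≤ (((33554432 : ℕ) : ℝ) + (16777216 : ℕ)) / S) :
    TriB PP.cur (farS κ (h0 * x) (tbl tKF x) (tbl tL x)) 0 3 3 1 2 1 (-1) :=
  (sideF hx hx').farB (Or.inl rfl) (Or.inr rfl) fun y y' F =>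
    farB_cert (s1 := true) (s2 := false) rfl hκ covF10 covF23 hx hx'
        Pool.Agent.Strip051.G.I1_32_3_64.Tab.C.FB12.c_pm_033 noCut_B noExt_B F trivial trivial

theorem FB12_pm_101 {κ x : ℝ} (hκ : κ * h0 = ken x) (hx : ((33554432 : ℕ) : ℝ) / S ≤ x) (hx' : x ≤ (((33554432 : ℕ) : ℝ) + (16777216 : ℕ)) / S) :
    TriB PP.cur (farS κ (h0 * x) (tbl tKF x) (tbl tL x)) 1 0 1 1 2 1 (-1) :=
  (sideF hx hx').farB (Or.inl rfl) (Or.inr rfl) fun y y' F =>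
    farB_cert (s1 := true) (s2 := false) rfl hκ covF11 covF21 hx hx'
        Pool.Agent.Strip051.G.I1_32_3_64.Tab.C.FB12.c_pm_101 noCut_B noExt_B F trivial trivial

theorem FB12_pm_102 {κ x : ℝ} (hκ : κ * h0 = ken x) (hx : ((33554432 : ℕ) : ℝ) / S ≤ x) (hx' : x ≤ (((33554432 : ℕ) : ℝ) + (16777216 : ℕ)) / S) :
    TriB PP.cur (farS κ (h0 * x) (tbl tKF x) (tbl tL x)) 1 0 2 1 2 1 (-1) :=
  (sideF hx hx').farB (Or.inl rfl) (Or.inr rfl) fun y y' F =>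
    (lt_or_ge (h0 * (y + y')) 1).elim
      (fun g => farB_cert (s1 := true) (s2 := false) rfl hκ covF11 covF22a hx hx'
        Pool.Agent.Strip051.G.I1_32_3_64.Tab.C.FB12.c_pm_102_a noCut_B noExt_B F trivial g)
      (fun g => farB_cert (s1 := true) (s2 := false) rfl hκ covF11 covF22b hx hx'
        Pool.Agent.Strip051.G.I1_32_3_64.Tab.C.FB12.c_pm_102_b noCut_B noExt_B F trivial g)

theorem FB12_pm_112 {κ x : ℝ} (hκ : κ * h0 = ken x) (hx : ((33554432 : ℕ) : ℝ) / S ≤ x) (hx' : x ≤ (((33554432 : ℕ) : ℝ) + (16777216 : ℕ)) / S) :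
    TriB PP.cur (farS κ (h0 * x) (tbl tKF x) (tbl tL x)) 1 1 2 1 2 1 (-1) :=
  (sideF hx hx').farB (Or.inl rfl) (Or.inr rfl) fun y y' F =>
    (lt_or_ge (h0 * (y + y')) 1).elim
      (fun g => farB_cert (s1 := true) (s2 := false) rfl hκ covF11 covF22a hx hx'
        Pool.Agent.Strip051.G.I1_32_3_64.Tab.C.FB12.c_pm_112_a noCut_B noExt_B F trivial g)
      (fun g => farB_cert (s1 := true) (s2 := false) rfl hκ covF11 covF22b hx hx'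
        Pool.Agent.Strip051.G.I1_32_3_64.Tab.C.FB12.c_pm_112_b noCut_B noExt_B F trivial g)

theorem FB12_pm_113 {κ x : ℝ} (hκ : κ * h0 = ken x) (hx : ((33554432 : ℕ) : ℝ) / S ≤ x) (hx' : x ≤ (((33554432 : ℕ) : ℝ) + (16777216 : ℕ)) / S) :
    TriB PP.cur (farS κ (h0 * x) (tbl tKF x) (tbl tL x)) 1 1 3 1 2 1 (-1) :=
  (sideF hx hx').farB (Or.inl rfl) (Or.inr rfl) fun y y' F =>
    farB_cert (s1 := true) (s2 := false) rfl hκ covF11 covF23 hx hx'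
        Pool.Agent.Strip051.G.I1_32_3_64.Tab.C.FB12.c_pm_113 noCut_B noExt_B F trivial trivial

theorem FB12_pm_123 {κ x : ℝ} (hκ : κ * h0 = ken x) (hx : ((33554432 : ℕ) : ℝ) / S ≤ x) (hx' : x ≤ (((33554432 : ℕ) : ℝ) + (16777216 : ℕ)) / S) :
    TriB PP.cur (farS κ (h0 * x) (tbl tKF x) (tbl tL x)) 1 2 3 1 2 1 (-1) :=
  (sideF hx hx').farB (Or.inl rfl) (Or.inr rfl) fun y y' F =>
    farB_cert (s1 := true) (s2 := false) rfl hκ covF11 covF23 hx hx'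
        Pool.Agent.Strip051.G.I1_32_3_64.Tab.C.FB12.c_pm_123 noCut_B noExt_B F trivial trivial

theorem FB12_pm_133 {κ x : ℝ} (hκ : κ * h0 = ken x) (hx : ((33554432 : ℕ) : ℝ) / S ≤ x) (hx' : x ≤ (((33554432 : ℕ) : ℝ) + (16777216 : ℕ)) / S) :
    TriB PP.cur (farS κ (h0 * x) (tbl tKF x) (tbl tL x)) 1 3 3 1 2 1 (-1) :=
  (sideF hx hx').farB (Or.inl rfl) (Or.inr rfl) fun y y' F =>
    farB_cert (s1 := true) (s2 := false) rfl hκ covF11 covF23 hx hx'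
        Pool.Agent.Strip051.G.I1_32_3_64.Tab.C.FB12.c_pm_133 noCut_B noExt_B F trivial trivial

theorem FB12_pm_202 {κ x : ℝ} (hκ : κ * h0 = ken x) (hx : ((33554432 : ℕ) : ℝ) / S ≤ x) (hx' : x ≤ (((33554432 : ℕ) : ℝ) + (16777216 : ℕ)) / S) :
    TriB PP.cur (farS κ (h0 * x) (tbl tKF x) (tbl tL x)) 2 0 2 1 2 1 (-1) :=
  (sideF hx hx').farB (Or.inl rfl) (Or.inr rfl) fun y y' F =>
    (lt_or_ge (h0 * y) 1).elim
      (fun h => (lt_or_ge (h0 * (y + y')) 1).elim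
        (fun g => farB_cert (s1 := true) (s2 := false) rfl hκ covF12a covF22a hx hx'
        Pool.Agent.Strip051.G.I1_32_3_64.Tab.C.FB12.c_pm_202_aa (cutB_cons (Pool.Agent.Strip051.G.I1_32_3_64.Tab.altF_B202E_12 hκ hx hx') (cutB_cons (Pool.Agent.Strip051.G.I1_32_3_64.Tab.Mo.molF_B_202_12_5 hκ hx hx') cutB_nil)) noExt_B F h g)
        (fun g => farB_cert (s1 := true) (s2 := false) rfl hκ covF12a covF22b hx hx'
        Pool.Agent.Strip051.G.I1_32_3_64.Tab.C.FB12.c_pm_202_ab (cutB_cons (Pool.Agent.Strip051.G.I1_32_3_64.Tab.altF_B202E_12 hκ hx hx') (cutB_cons (Pool.Agent.Strip051.G.I1_32_3_64.Tab.Mo.molF_B_202_12_5 hκ hx hx') cutB_nil)) noExt_B F h g))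
      (fun h => (lt_or_ge (h0 * (y + y')) 1).elim
        (fun g => farB_cert (s1 := true) (s2 := false) rfl hκ covF12b covF22a hx hx'
        Pool.Agent.Strip051.G.I1_32_3_64.Tab.C.FB12.c_pm_202_ba (cutB_cons (Pool.Agent.Strip051.G.I1_32_3_64.Tab.altF_B202E_12 hκ hx hx') (cutB_cons (Pool.Agent.Strip051.G.I1_32_3_64.Tab.Mo.molF_B_202_12_5 hκ hx hx') cutB_nil)) noExt_B F h g)
        (fun g => farB_cert (s1 := true) (s2 := false) rfl hκ covF12b covF22b hx hx'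
        Pool.Agent.Strip051.G.I1_32_3_64.Tab.C.FB12.c_pm_202_bb (cutB_cons (Pool.Agent.Strip051.G.I1_32_3_64.Tab.altF_B202E_12 hκ hx hx') (cutB_cons (Pool.Agent.Strip051.G.I1_32_3_64.Tab.Mo.molF_B_202_12_5 hκ hx hx') cutB_nil)) noExt_B F h g))

theorem FB12_pm_203 {κ x : ℝ} (hκ : κ * h0 = ken x) (hx : ((33554432 : ℕ) : ℝ) / S ≤ x) (hx' : x ≤ (((33554432 : ℕ) : ℝ) + (16777216 : ℕ)) / S) :
    TriB PP.cur (farS κ (h0 * x) (tbl tKF x) (tbl tL x)) 2 0 3 1 2 1 (-1) :=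
  (sideF hx hx').farB (Or.inl rfl) (Or.inr rfl) fun y y' F =>
    (lt_or_ge (h0 * y) 1).elim
      (fun h => farB_cert (s1 := true) (s2 := false) rfl hκ covF12a covF23 hx hx'
        Pool.Agent.Strip051.G.I1_32_3_64.Tab.C.FB12.c_pm_203_a noCut_B noExt_B F h trivial)
      (fun h => farB_cert (s1 := true) (s2 := false) rfl hκ covF12b covF23 hx hx'
        Pool.Agent.Strip051.G.I1_32_3_64.Tab.C.FB12.c_pm_203_b noCut_B noExt_B F h trivial)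

theorem FB12_pm_213 {κ x : ℝ} (hκ : κ * h0 = ken x) (hx : ((33554432 : ℕ) : ℝ) / S ≤ x) (hx' : x ≤ (((33554432 : ℕ) : ℝ) + (16777216 : ℕ)) / S) :
    TriB PP.cur (farS κ (h0 * x) (tbl tKF x) (tbl tL x)) 2 1 3 1 2 1 (-1) :=
  (sideF hx hx').farB (Or.inl rfl) (Or.inr rfl) fun y y' F =>
    (lt_or_ge (h0 * y) 1).elim
      (fun h => farB_cert (s1 := true) (s2 := false) rfl hκ covF12a covF23 hx hx'
        Pool.Agent.Strip051.G.I1_32_3_64.Tab.C.FB12.c_pm_213_a (cutB_cons (Pool.Agent.Strip051.G.I1_32_3_64.Tab.alt12F_B213_12m hκ hx hx') cutB_nil) noExt_B F h trivial)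
      (fun h => farB_cert (s1 := true) (s2 := false) rfl hκ covF12b covF23 hx hx'
        Pool.Agent.Strip051.G.I1_32_3_64.Tab.C.FB12.c_pm_213_b (cutB_cons (Pool.Agent.Strip051.G.I1_32_3_64.Tab.alt12F_B213_12m hκ hx hx') cutB_nil) noExt_B F h trivial)

theorem FB12_pm_303 {κ x : ℝ} (hκ : κ * h0 = ken x) (hx : ((33554432 : ℕ) : ℝ) / S ≤ x) (hx' : x ≤ (((33554432 : ℕ) : ℝ) + (16777216 : ℕ)) / S) :
    TriB PP.cur (farS κ (h0 * x) (tbl tKF x) (tbl tL x)) 3 0 3 1 2 1 (-1) :=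
  (sideF hx hx').farB (Or.inl rfl) (Or.inr rfl) fun y y' F =>
    farB_cert (s1 := true) (s2 := false) rfl hκ covF13 covF23 hx hx'
        Pool.Agent.Strip051.G.I1_32_3_64.Tab.C.FB12.c_pm_303 noCut_B noExt_B F trivial trivial

theorem FB12_pm_313 {κ x : ℝ} (hκ : κ * h0 = ken x) (hx : ((33554432 : ℕ) : ℝ) / S ≤ x) (hx' : x ≤ (((33554432 : ℕ) : ℝ) + (16777216 : ℕ)) / S) :
    TriB PP.cur (farS κ (h0 * x) (tbl tKF x) (tbl tL x)) 3 1 3 1 2 1 (-1) :=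
  (sideF hx hx').farB (Or.inl rfl) (Or.inr rfl) fun y y' F =>
    farB_cert (s1 := true) (s2 := false) rfl hκ covF13 covF23 hx hx'
        Pool.Agent.Strip051.G.I1_32_3_64.Tab.C.FB12.c_pm_313 noCut_B noExt_B F trivial trivial

theorem FB12_mm_001 {κ x : ℝ} (hκ : κ * h0 = ken x) (hx : ((33554432 : ℕ) : ℝ) / S ≤ x) (hx' : x ≤ (((33554432 : ℕ) : ℝ) + (16777216 : ℕ)) / S) :
    TriB PP.cur (farS κ (h0 * x) (tbl tKF x) (tbl tL x)) 0 0 1 1 2 (-1) (-1) :=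
  (sideF hx hx').farB (Or.inr rfl) (Or.inr rfl) fun y y' F =>
    farB_cert (s1 := false) (s2 := false) rfl hκ covF10 covF21 hx hx'
        Pool.Agent.Strip051.G.I1_32_3_64.Tab.C.FB12.c_mm_001 noCut_B noExt_B F trivial trivial

theorem FB12_mm_011 {κ x : ℝ} (hκ : κ * h0 = ken x) (hx : ((33554432 : ℕ) : ℝ) / S ≤ x) (hx' : x ≤ (((33554432 : ℕ) : ℝ) + (16777216 : ℕ)) / S) :
    TriB PP.cur (farS κ (h0 * x) (tbl tKF x) (tbl tL x)) 0 1 1 1 2 (-1) (-1) :=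
  (sideF hx hx').farB (Or.inr rfl) (Or.inr rfl) fun y y' F =>
    farB_cert (s1 := false) (s2 := false) rfl hκ covF10 covF21 hx hx'
        Pool.Agent.Strip051.G.I1_32_3_64.Tab.C.FB12.c_mm_011 noCut_B noExt_B F trivial trivial

theorem FB12_mm_012 {κ x : ℝ} (hκ : κ * h0 = ken x) (hx : ((33554432 : ℕ) : ℝ) / S ≤ x) (hx' : x ≤ (((33554432 : ℕ) : ℝ) + (16777216 : ℕ)) / S) :
    TriB PP.cur (farS κ (h0 * x) (tbl tKF x) (tbl tL x)) 0 1 2 1 2 (-1) (-1) :=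
  (sideF hx hx').farB (Or.inr rfl) (Or.inr rfl) fun y y' F =>
    (lt_or_ge (h0 * (y + y')) 1).elim
      (fun g => farB_cert (s1 := false) (s2 := false) rfl hκ covF10 covF22a hx hx'
        Pool.Agent.Strip051.G.I1_32_3_64.Tab.C.FB12.c_mm_012_a noCut_B noExt_B F trivial g)
      (fun g => farB_cert (s1 := false) (s2 := false) rfl hκ covF10 covF22b hx hx'
        Pool.Agent.Strip051.G.I1_32_3_64.Tab.C.FB12.c_mm_012_b noCut_B noExt_B F trivial g)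

theorem FB12_mm_022 {κ x : ℝ} (hκ : κ * h0 = ken x) (hx : ((33554432 : ℕ) : ℝ) / S ≤ x) (hx' : x ≤ (((33554432 : ℕ) : ℝ) + (16777216 : ℕ)) / S) :
    TriB PP.cur (farS κ (h0 * x) (tbl tKF x) (tbl tL x)) 0 2 2 1 2 (-1) (-1) :=
  (sideF hx hx').farB (Or.inr rfl) (Or.inr rfl) fun y y' F =>
    (lt_or_ge (h0 * (y + y')) 1).elim
      (fun g => farB_cert (s1 := false) (s2 := false) rfl hκ covF10 covF22a hx hx'
        Pool.Agent.Strip051.G.I1_32_3_64.Tab.C.FB12.c_mm_022_a noCut_B noExt_B F trivial g)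
      (fun g => farB_cert (s1 := false) (s2 := false) rfl hκ covF10 covF22b hx hx'
        Pool.Agent.Strip051.G.I1_32_3_64.Tab.C.FB12.c_mm_022_b noCut_B noExt_B F trivial g)

theorem FB12_mm_023 {κ x : ℝ} (hκ : κ * h0 = ken x) (hx : ((33554432 : ℕ) : ℝ) / S ≤ x) (hx' : x ≤ (((33554432 : ℕ) : ℝ) + (16777216 : ℕ)) / S) :
    TriB PP.cur (farS κ (h0 * x) (tbl tKF x) (tbl tL x)) 0 2 3 1 2 (-1) (-1) :=
  (sideF hx hx').farB (Or.inr rfl) (Or.inr rfl) fun y y' F =>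
    farB_cert (s1 := false) (s2 := false) rfl hκ covF10 covF23 hx hx'
        Pool.Agent.Strip051.G.I1_32_3_64.Tab.C.FB12.c_mm_023 noCut_B noExt_B F trivial trivial

theorem FB12_mm_033 {κ x : ℝ} (hκ : κ * h0 = ken x) (hx : ((33554432 : ℕ) : ℝ) / S ≤ x) (hx' : x ≤ (((33554432 : ℕ) : ℝ) + (16777216 : ℕ)) / S) :
    TriB PP.cur (farS κ (h0 * x) (tbl tKF x) (tbl tL x)) 0 3 3 1 2 (-1) (-1) :=
  (sideF hx hx').farB (Or.inr rfl) (Or.inr rfl) fun y y' F =>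
    farB_cert (s1 := false) (s2 := false) rfl hκ covF10 covF23 hx hx'
        Pool.Agent.Strip051.G.I1_32_3_64.Tab.C.FB12.c_mm_033 noCut_B noExt_B F trivial trivial

theorem FB12_mm_101 {κ x : ℝ} (hκ : κ * h0 = ken x) (hx : ((33554432 : ℕ) : ℝ) / S ≤ x) (hx' : x ≤ (((33554432 : ℕ) : ℝ) + (16777216 : ℕ)) / S) :
    TriB PP.cur (farS κ (h0 * x) (tbl tKF x) (tbl tL x)) 1 0 1 1 2 (-1) (-1) :=
  (sideF hx hx').farB (Or.inr rfl) (Or.inr rfl) fun y y' F =>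
    farB_cert (s1 := false) (s2 := false) rfl hκ covF11 covF21 hx hx'
        Pool.Agent.Strip051.G.I1_32_3_64.Tab.C.FB12.c_mm_101 noCut_B noExt_B F trivial trivial

theorem FB12_mm_102 {κ x : ℝ} (hκ : κ * h0 = ken x) (hx : ((33554432 : ℕ) : ℝ) / S ≤ x) (hx' : x ≤ (((33554432 : ℕ) : ℝ) + (16777216 : ℕ)) / S) :
    TriB PP.cur (farS κ (h0 * x) (tbl tKF x) (tbl tL x)) 1 0 2 1 2 (-1) (-1) :=
  (sideF hx hx').farB (Or.inr rfl) (Or.inr rfl) fun y y' F =>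
    (lt_or_ge (h0 * (y + y')) 1).elim
      (fun g => farB_cert (s1 := false) (s2 := false) rfl hκ covF11 covF22a hx hx'
        Pool.Agent.Strip051.G.I1_32_3_64.Tab.C.FB12.c_mm_102_a noCut_B noExt_B F trivial g)
      (fun g => farB_cert (s1 := false) (s2 := false) rfl hκ covF11 covF22b hx hx'
        Pool.Agent.Strip051.G.I1_32_3_64.Tab.C.FB12.c_mm_102_b noCut_B noExt_B F trivial g)

theorem FB12_mm_112 {κ x : ℝ} (hκ : κ * h0 = ken x) (hx : ((33554432 : ℕ) : ℝ) / S ≤ x) (hx' : x ≤ (((33554432 : ℕ) : ℝ) + (16777216 : ℕ)) / S) :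
    TriB PP.cur (farS κ (h0 * x) (tbl tKF x) (tbl tL x)) 1 1 2 1 2 (-1) (-1) :=
  (sideF hx hx').farB (Or.inr rfl) (Or.inr rfl) fun y y' F =>
    (lt_or_ge (h0 * (y + y')) 1).elim
      (fun g => farB_cert (s1 := false) (s2 := false) rfl hκ covF11 covF22a hx hx'
        Pool.Agent.Strip051.G.I1_32_3_64.Tab.C.FB12.c_mm_112_a noCut_B noExt_B F trivial g)
      (fun g => farB_cert (s1 := false) (s2 := false) rfl hκ covF11 covF22b hx hx'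
        Pool.Agent.Strip051.G.I1_32_3_64.Tab.C.FB12.c_mm_112_b noCut_B noExt_B F trivial g)

theorem FB12_mm_113 {κ x : ℝ} (hκ : κ * h0 = ken x) (hx : ((33554432 : ℕ) : ℝ) / S ≤ x) (hx' : x ≤ (((33554432 : ℕ) : ℝ) + (16777216 : ℕ)) / S) :
    TriB PP.cur (farS κ (h0 * x) (tbl tKF x) (tbl tL x)) 1 1 3 1 2 (-1) (-1) :=
  (sideF hx hx').farB (Or.inr rfl) (Or.inr rfl) fun y y' F =>
    farB_cert (s1 := false) (s2 := false) rfl hκ covF11 covF23 hx hx'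
        Pool.Agent.Strip051.G.I1_32_3_64.Tab.C.FB12.c_mm_113 noCut_B noExt_B F trivial trivial

theorem FB12_mm_123 {κ x : ℝ} (hκ : κ * h0 = ken x) (hx : ((33554432 : ℕ) : ℝ) / S ≤ x) (hx' : x ≤ (((33554432 : ℕ) : ℝ) + (16777216 : ℕ)) / S) :
    TriB PP.cur (farS κ (h0 * x) (tbl tKF x) (tbl tL x)) 1 2 3 1 2 (-1) (-1) :=
  (sideF hx hx').farB (Or.inr rfl) (Or.inr rfl) fun y y' F =>
    farB_cert (s1 := false) (s2 := false) rfl hκ covF11 covF23 hx hx'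
        Pool.Agent.Strip051.G.I1_32_3_64.Tab.C.FB12.c_mm_123 noCut_B noExt_B F trivial trivial

theorem FB12_mm_133 {κ x : ℝ} (hκ : κ * h0 = ken x) (hx : ((33554432 : ℕ) : ℝ) / S ≤ x) (hx' : x ≤ (((33554432 : ℕ) : ℝ) + (16777216 : ℕ)) / S) :
    TriB PP.cur (farS κ (h0 * x) (tbl tKF x) (tbl tL x)) 1 3 3 1 2 (-1) (-1) :=
  (sideF hx hx').farB (Or.inr rfl) (Or.inr rfl) fun y y' F =>
    farB_cert (s1 := false) (s2 := false) rfl hκ covF11 covF23 hx hx'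
        Pool.Agent.Strip051.G.I1_32_3_64.Tab.C.FB12.c_mm_133 noCut_B noExt_B F trivial trivial

theorem FB12_mm_202 {κ x : ℝ} (hκ : κ * h0 = ken x) (hx : ((33554432 : ℕ) : ℝ) / S ≤ x) (hx' : x ≤ (((33554432 : ℕ) : ℝ) + (16777216 : ℕ)) / S) :
    TriB PP.cur (farS κ (h0 * x) (tbl tKF x) (tbl tL x)) 2 0 2 1 2 (-1) (-1) :=
  (sideF hx hx').farB (Or.inr rfl) (Or.inr rfl) fun y y' F =>
    (lt_or_ge (h0 * y) 1).elim
      (fun h => (lt_or_ge (h0 * (y + y')) 1).elim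
        (fun g => farB_cert (s1 := false) (s2 := false) rfl hκ covF12a covF22a hx hx'
        Pool.Agent.Strip051.G.I1_32_3_64.Tab.C.FB12.c_mm_202_aa noCut_B noExt_B F h g)
        (fun g => farB_cert (s1 := false) (s2 := false) rfl hκ covF12a covF22b hx hx'
        Pool.Agent.Strip051.G.I1_32_3_64.Tab.C.FB12.c_mm_202_ab noCut_B noExt_B F h g))
      (fun h => (lt_or_ge (h0 * (y + y')) 1).elim
        (fun g => farB_cert (s1 := false) (s2 := false) rfl hκ covF12b covF22a hx hx'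
        Pool.Agent.Strip051.G.I1_32_3_64.Tab.C.FB12.c_mm_202_ba noCut_B noExt_B F h g)
        (fun g => farB_cert (s1 := false) (s2 := false) rfl hκ covF12b covF22b hx hx'
        Pool.Agent.Strip051.G.I1_32_3_64.Tab.C.FB12.c_mm_202_bb noCut_B noExt_B F h g))

theorem FB12_mm_203 {κ x : ℝ} (hκ : κ * h0 = ken x) (hx : ((33554432 : ℕ) : ℝ) / S ≤ x) (hx' : x ≤ (((33554432 : ℕ) : ℝ) + (16777216 : ℕ)) / S) :
    TriB PP.cur (farS κ (h0 * x) (tbl tKF x) (tbl tL x)) 2 0 3 1 2 (-1) (-1) :=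
  (sideF hx hx').farB (Or.inr rfl) (Or.inr rfl) fun y y' F =>
    (lt_or_ge (h0 * y) 1).elim
      (fun h => farB_cert (s1 := false) (s2 := false) rfl hκ covF12a covF23 hx hx'
        Pool.Agent.Strip051.G.I1_32_3_64.Tab.C.FB12.c_mm_203_a noCut_B noExt_B F h trivial)
      (fun h => farB_cert (s1 := false) (s2 := false) rfl hκ covF12b covF23 hx hx'
        Pool.Agent.Strip051.G.I1_32_3_64.Tab.C.FB12.c_mm_203_b noCut_B noExt_B F h trivial)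

theorem FB12_mm_213 {κ x : ℝ} (hκ : κ * h0 = ken x) (hx : ((33554432 : ℕ) : ℝ) / S ≤ x) (hx' : x ≤ (((33554432 : ℕ) : ℝ) + (16777216 : ℕ)) / S) :
    TriB PP.cur (farS κ (h0 * x) (tbl tKF x) (tbl tL x)) 2 1 3 1 2 (-1) (-1) :=
  (sideF hx hx').farB (Or.inr rfl) (Or.inr rfl) fun y y' F =>
    (lt_or_ge (h0 * y) 1).elim
      (fun h => farB_cert (s1 := false) (s2 := false) rfl hκ covF12a covF23 hx hx'
        Pool.Agent.Strip051.G.I1_32_3_64.Tab.C.FB12.c_mm_213_a noCut_B noExt_B F h trivial)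
      (fun h => farB_cert (s1 := false) (s2 := false) rfl hκ covF12b covF23 hx hx'
        Pool.Agent.Strip051.G.I1_32_3_64.Tab.C.FB12.c_mm_213_b noCut_B noExt_B F h trivial)

theorem FB12_mm_303 {κ x : ℝ} (hκ : κ * h0 = ken x) (hx : ((33554432 : ℕ) : ℝ) / S ≤ x) (hx' : x ≤ (((33554432 : ℕ) : ℝ) + (16777216 : ℕ)) / S) :
    TriB PP.cur (farS κ (h0 * x) (tbl tKF x) (tbl tL x)) 3 0 3 1 2 (-1) (-1) :=
  (sideF hx hx').farB (Or.inr rfl) (Or.inr rfl) fun y y' F =>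
    farB_cert (s1 := false) (s2 := false) rfl hκ covF13 covF23 hx hx'
        Pool.Agent.Strip051.G.I1_32_3_64.Tab.C.FB12.c_mm_303 noCut_B noExt_B F trivial trivial

theorem FB12_mm_313 {κ x : ℝ} (hκ : κ * h0 = ken x) (hx : ((33554432 : ℕ) : ℝ) / S ≤ x) (hx' : x ≤ (((33554432 : ℕ) : ℝ) + (16777216 : ℕ)) / S) :
    TriB PP.cur (farS κ (h0 * x) (tbl tKF x) (tbl tL x)) 3 1 3 1 2 (-1) (-1) :=
  (sideF hx hx').farB (Or.inr rfl) (Or.inr rfl) fun y y' F =>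
    farB_cert (s1 := false) (s2 := false) rfl hκ covF13 covF23 hx hx'
        Pool.Agent.Strip051.G.I1_32_3_64.Tab.C.FB12.c_mm_313 noCut_B noExt_B F trivial trivial

theorem FB12 {κ x : ℝ} (hκ : κ * h0 = ken x) (hx : ((33554432 : ℕ) : ℝ) / S ≤ x) (hx' : x ≤ (((33554432 : ℕ) : ℝ) + (16777216 : ℕ)) / S) : AllTB PP.cur (farS κ (h0 * x) (tbl tKF x) (tbl tL x)) 1 2 where
  pp := all17 (Q := fun a b c => TriB PP.cur (farS κ (h0 * x) (tbl tKF x) (tbl tL x)) a b c 1 2 1 1)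
    (FB12_pp_001 hκ hx hx') (FB12_pp_011 hκ hx hx') (FB12_pp_012 hκ hx hx') (FB12_pp_022 hκ hx hx') (FB12_pp_023 hκ hx hx') (FB12_pp_033 hκ hx hx') (FB12_pp_101 hκ hx hx') (FB12_pp_102 hκ hx hx') (FB12_pp_112 hκ hx hx') (FB12_pp_113 hκ hx hx') (FB12_pp_123 hκ hx hx') (FB12_pp_133 hκ hx hx') (FB12_pp_202 hκ hx hx') (FB12_pp_203 hκ hx hx') (FB12_pp_213 hκ hx hx') (FB12_pp_303 hκ hx hx') (FB12_pp_313 hκ hx hx')
  pm := all17 (Q := fun a b c => TriB PP.cur (farS κ (h0 * x) (tbl tKF x) (tbl tL x)) a b c 1 2 1 (-1))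
    (FB12_pm_001 hκ hx hx') (FB12_pm_011 hκ hx hx') (FB12_pm_012 hκ hx hx') (FB12_pm_022 hκ hx hx') (FB12_pm_023 hκ hx hx') (FB12_pm_033 hκ hx hx') (FB12_pm_101 hκ hx hx') (FB12_pm_102 hκ hx hx') (FB12_pm_112 hκ hx hx') (FB12_pm_113 hκ hx hx') (FB12_pm_123 hκ hx hx') (FB12_pm_133 hκ hx hx') (FB12_pm_202 hκ hx hx') (FB12_pm_203 hκ hx hx') (FB12_pm_213 hκ hx hx') (FB12_pm_303 hκ hx hx') (FB12_pm_313 hκ hx hx')
  mm := all17 (Q := fun a b c => TriB PP.cur (farS κ (h0 * x) (tbl tKF x) (tbl tL x)) a b c 1 2 (-1) (-1))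
    (FB12_mm_001 hκ hx hx') (FB12_mm_011 hκ hx hx') (FB12_mm_012 hκ hx hx') (FB12_mm_022 hκ hx hx') (FB12_mm_023 hκ hx hx') (FB12_mm_033 hκ hx hx') (FB12_mm_101 hκ hx hx') (FB12_mm_102 hκ hx hx') (FB12_mm_112 hκ hx hx') (FB12_mm_113 hκ hx hx') (FB12_mm_123 hκ hx hx') (FB12_mm_133 hκ hx hx') (FB12_mm_202 hκ hx hx') (FB12_mm_203 hκ hx hx') (FB12_mm_213 hκ hx hx') (FB12_mm_303 hκ hx hx') (FB12_mm_313 hκ hx hx')

end Pool.Agent.Strip051.G.I1_32_3_64.Tab
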