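import Pool.Agent.Strip051.G.I1_32_3_64.StF

/-! # Unit strips 10 (generated) -/

set_option linter.all false
set_option maxRecDepth 100000

namespace Pool.Agent.Strip051.G.I1_32_3_64.Tab.St.C

open Pool.Agent.Strip051.PB Pool.Agent.Strip051.PB.T Pool.Agent.StripNear Pool.Agent.Strip051.LC
open Pool.Agent.Strip051.G.I1_32_3_64.Tab Pool.Agent.Strip051.G.I1_32_3_64.Tab.St

noncomputable def cut_B00pm_202_s1 : Cut := Cut.of [[⟨4, 0, 0, 1449551462⟩], [⟨0, 1, 0, 33554432⟩, ⟨1, 0, 0, 33554432⟩, ⟨2, 1, 0, 33554432⟩]]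

noncomputable def f_B00pm_202_s1 : ℕ → ℕ → ℕ → ℕ → Bool := onCell 0 536870912 0 536870912 33554432 16777216
    (rowFK 0 false true false .pp 2 0 2 (qsf 0 536870912 0 536870912 0) ndF0q2 ndF0q2 pcF0 cut_B00pm_202_s1 Ext.none)

def k0_B00pm_202_s1 : ∃ t, chk3 f_B00pm_202_s1 t 1 1 1 = true :=
  ⟨(a (l 3) (b (l 3) (a (l 3) (b (l 3) (b (l 3) (a (l 3) (b (l 3) (a (l 3) (l 14))))))))), by decide +kernel⟩

theorem c_B00pm_202_s1 : CertF 0 536870912 0 536870912 33554432 16777216 false true false .pp 2 0 2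
    ndF0q2 ndF0q2 pcF0 cut_B00pm_202_s1 Ext.none :=
  certFK0 (fam := false) (s1 := true) (s2 := false) (a := 2) (b := 0) (c := 2) (cn := .pp) (n1 := ndF0q2) (n2 := ndF0q2) (pc := pcF0) (cut := cut_B00pm_202_s1) (xt := Ext.none) (P1 := 0) (W1 := 536870912) (P2 := 0) (W2 := 536870912) (P3 := 33554432) (W3 := 16777216)
    rfl rfl rfl k0_B00pm_202_s1

theorem s_B00pm_202_s1 {κ x : ℝ} (hκ : κ * h0 = ken x) (hx : ((33554432 : ℕ) : ℝ) / S ≤ x)
    (hx' : x ≤ (((33554432 : ℕ) : ℝ) + (16777216 : ℕ)) / S)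
    (H : CutB (VF κ) PP tKF tL pcF (Cut.of [[⟨0, 1, 0, 33554432⟩, ⟨1, 0, 0, 33554432⟩, ⟨2, 1, 0, 33554432⟩]]) 2 0 2 0 0 (sgb true) (sgb false) x) :
    AltB (VF κ) PP tKF tL pcF [⟨3, 0, 0, 1449551462⟩] 2 0 2 0 0 (sgb true) (sgb false) x :=
  strip_altB (m := 1449551462) true rfl hκ covF02 covF02 hx hx' c_B00pm_202_s1 H (noExt_B)

noncomputable def cut_B00pm_202_s3 : Cut := Cut.of [[⟨3, 0, 0, 2845415833⟩], [⟨0, 1, 0, 33554432⟩, ⟨1, 0, 0, 33554432⟩, ⟨2, 1, 0, 33554432⟩]]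

noncomputable def f_B00pm_202_s3 : ℕ → ℕ → ℕ → ℕ → Bool := onCell 0 536870912 0 536870912 33554432 16777216
    (rowFK 0 false true false .pp 2 0 2 (qsf 0 536870912 0 536870912 0) ndF0q2 ndF0q2 pcF0 cut_B00pm_202_s3 Ext.none)

def k0_B00pm_202_s3 : ∃ t, chk3 f_B00pm_202_s3 t 1 1 1 = true :=
  ⟨(l 6), by decide +kernel⟩

theorem c_B00pm_202_s3 : CertF 0 536870912 0 536870912 33554432 16777216 false true false .pp 2 0 2
    ndF0q2 ndF0q2 pcF0 cut_B00pm_202_s3 Ext.none :=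
  certFK0 (fam := false) (s1 := true) (s2 := false) (a := 2) (b := 0) (c := 2) (cn := .pp) (n1 := ndF0q2) (n2 := ndF0q2) (pc := pcF0) (cut := cut_B00pm_202_s3) (xt := Ext.none) (P1 := 0) (W1 := 536870912) (P2 := 0) (W2 := 536870912) (P3 := 33554432) (W3 := 16777216)
    rfl rfl rfl k0_B00pm_202_s3

theorem s_B00pm_202_s3 {κ x : ℝ} (hκ : κ * h0 = ken x) (hx : ((33554432 : ℕ) : ℝ) / S ≤ x)
    (hx' : x ≤ (((33554432 : ℕ) : ℝ) + (16777216 : ℕ)) / S)
    (H : CutB (VF κ) PP tKF tL pcF (Cut.of [[⟨0, 1, 0, 33554432⟩, ⟨1, 0, 0, 33554432⟩, ⟨2, 1, 0, 33554432⟩]]) 2 0 2 0 0 (sgb true) (sgb false) x) :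
    AltB (VF κ) PP tKF tL pcF [⟨4, 0, 0, 2845415833⟩] 2 0 2 0 0 (sgb true) (sgb false) x :=
  strip_altB (m := 2845415833) false rfl hκ covF02 covF02 hx hx' c_B00pm_202_s3 H (noExt_B)

noncomputable def cut_B00mm_001_s1 : Cut := Cut.of [[⟨4, 0, 0, 1449551462⟩]]

noncomputable def f_B00mm_001_s1 : ℕ → ℕ → ℕ → ℕ → Bool := onCell 0 536870912 0 536870912 33554432 16777216
    (rowFK 1 false false false .up 0 0 1 (qsf 0 536870912 536870912 536870912 0) ndF0q0 ndF0q1 pcF0 cut_B00mm_001_s1 Ext.none)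

def k0_B00mm_001_s1 : ∃ t, chk3 f_B00mm_001_s1 t 1 1 1 = true :=
  ⟨(l 3), by decide +kernel⟩

theorem c_B00mm_001_s1 : CertF 0 536870912 536870912 536870912 33554432 16777216 false false false .up 0 0 1
    ndF0q0 ndF0q1 pcF0 cut_B00mm_001_s1 Ext.none :=
  certFK1 (fam := false) (s1 := false) (s2 := false) (a := 0) (b := 0) (c := 1) (cn := .up) (n1 := ndF0q0) (n2 := ndF0q1) (pc := pcF0) (cut := cut_B00mm_001_s1) (xt := Ext.none) (P1 := 0) (W1 := 536870912) (P2 := 536870912) (W2 := 536870912) (P3 := 33554432) (W3 := 16777216)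
    rfl rfl rfl (fun _ => rfl) k0_B00mm_001_s1

theorem s_B00mm_001_s1 {κ x : ℝ} (hκ : κ * h0 = ken x) (hx : ((33554432 : ℕ) : ℝ) / S ≤ x)
    (hx' : x ≤ (((33554432 : ℕ) : ℝ) + (16777216 : ℕ)) / S) :
    AltB (VF κ) PP tKF tL pcF [⟨3, 0, 0, 1449551462⟩] 0 0 1 0 0 (sgb false) (sgb false) x :=
  strip_altB (m := 1449551462) true rfl hκ covF00 covF01 hx hx' c_B00mm_001_s1 cutB_nil (noExt_B)

noncomputable def cut_B00mm_001_s3 : Cut := Cut.of [[⟨3, 0, 0, 2845415833⟩]]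

noncomputable def f_B00mm_001_s3 : ℕ → ℕ → ℕ → ℕ → Bool := onCell 0 536870912 536870912 536870912 33554432 16777216
    (rowFK 0 false false false .up 0 0 1 (qsf 0 536870912 536870912 536870912 0) ndF0q0 ndF0q1 pcF0 cut_B00mm_001_s3 Ext.none)

def k0_B00mm_001_s3 : ∃ t, chk3 f_B00mm_001_s3 t 1 1 1 = true :=
  ⟨(l 6), by decide +kernel⟩

theorem c_B00mm_001_s3 : CertF 0 536870912 536870912 536870912 33554432 16777216 false false false .up 0 0 1
    ndF0q0 ndF0q1 pcF0 cut_B00mm_001_s3 Ext.none :=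
  certFK0 (fam := false) (s1 := false) (s2 := false) (a := 0) (b := 0) (c := 1) (cn := .up) (n1 := ndF0q0) (n2 := ndF0q1) (pc := pcF0) (cut := cut_B00mm_001_s3) (xt := Ext.none) (P1 := 0) (W1 := 536870912) (P2 := 536870912) (W2 := 536870912) (P3 := 33554432) (W3 := 16777216)
    rfl rfl rfl k0_B00mm_001_s3

theorem s_B00mm_001_s3 {κ x : ℝ} (hκ : κ * h0 = ken x) (hx : ((33554432 : ℕ) : ℝ) / S ≤ x)
    (hx' : x ≤ (((33554432 : ℕ) : ℝ) + (16777216 : ℕ)) / S) :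
    AltB (VF κ) PP tKF tL pcF [⟨4, 0, 0, 2845415833⟩] 0 0 1 0 0 (sgb false) (sgb false) x :=
  strip_altB (m := 2845415833) false rfl hκ covF00 covF01 hx hx' c_B00mm_001_s3 cutB_nil (noExt_B)

noncomputable def cut_B00mm_011_s1 : Cut := Cut.of [[⟨4, 0, 0, 1449551462⟩]]

noncomputable def f_B00mm_011_s1 : ℕ → ℕ → ℕ → ℕ → Bool := onCell 0 536870912 536870912 536870912 33554432 16777216
    (rowFK 1 false false false .pnn 0 1 1 (qsf 0 536870912 536870912 536870912 1) ndF0q0 ndF0q1 pcF1 cut_B00mm_011_s1 Ext.none)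

def k0_B00mm_011_s1 : ∃ t, chk3 f_B00mm_011_s1 t 1 1 1 = true :=
  ⟨(l 5), by decide +kernel⟩

theorem c_B00mm_011_s1 : CertF 0 536870912 536870912 536870912 33554432 16777216 false false false .pnn 0 1 1
    ndF0q0 ndF0q1 pcF1 cut_B00mm_011_s1 Ext.none :=
  certFK1 (fam := false) (s1 := false) (s2 := false) (a := 0) (b := 1) (c := 1) (cn := .pnn) (n1 := ndF0q0) (n2 := ndF0q1) (pc := pcF1) (cut := cut_B00mm_011_s1) (xt := Ext.none) (P1 := 0) (W1 := 536870912) (P2 := 536870912) (W2 := 536870912) (P3 := 33554432) (W3 := 16777216)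
    rfl rfl rfl (fun _ => rfl) k0_B00mm_011_s1

theorem s_B00mm_011_s1 {κ x : ℝ} (hκ : κ * h0 = ken x) (hx : ((33554432 : ℕ) : ℝ) / S ≤ x)
    (hx' : x ≤ (((33554432 : ℕ) : ℝ) + (16777216 : ℕ)) / S) :
    AltB (VF κ) PP tKF tL pcF [⟨3, 0, 0, 1449551462⟩] 0 1 1 0 0 (sgb false) (sgb false) x :=
  strip_altB (m := 1449551462) true rfl hκ covF00 covF01 hx hx' c_B00mm_011_s1 cutB_nil (noExt_B)

noncomputable def cut_B00mm_011_s3 : Cut := Cut.of [[⟨3, 0, 0, 2845415833⟩]]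

noncomputable def f_B00mm_011_s3 : ℕ → ℕ → ℕ → ℕ → Bool := onCell 0 536870912 536870912 536870912 33554432 16777216
    (rowFK 0 false false false .pnn 0 1 1 (qsf 0 536870912 536870912 536870912 1) ndF0q0 ndF0q1 pcF1 cut_B00mm_011_s3 Ext.none)

def k0_B00mm_011_s3 : ∃ t, chk3 f_B00mm_011_s3 t 1 1 1 = true :=
  ⟨(l 6), by decide +kernel⟩

theorem c_B00mm_011_s3 : CertF 0 536870912 536870912 536870912 33554432 16777216 false false false .pnn 0 1 1
    ndF0q0 ndF0q1 pcF1 cut_B00mm_011_s3 Ext.none :=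
  certFK0 (fam := false) (s1 := false) (s2 := false) (a := 0) (b := 1) (c := 1) (cn := .pnn) (n1 := ndF0q0) (n2 := ndF0q1) (pc := pcF1) (cut := cut_B00mm_011_s3) (xt := Ext.none) (P1 := 0) (W1 := 536870912) (P2 := 536870912) (W2 := 536870912) (P3 := 33554432) (W3 := 16777216)
    rfl rfl rfl k0_B00mm_011_s3

theorem s_B00mm_011_s3 {κ x : ℝ} (hκ : κ * h0 = ken x) (hx : ((33554432 : ℕ) : ℝ) / S ≤ x)
    (hx' : x ≤ (((33554432 : ℕ) : ℝ) + (16777216 : ℕ)) / S) :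
    AltB (VF κ) PP tKF tL pcF [⟨4, 0, 0, 2845415833⟩] 0 1 1 0 0 (sgb false) (sgb false) x :=
  strip_altB (m := 2845415833) false rfl hκ covF00 covF01 hx hx' c_B00mm_011_s3 cutB_nil (noExt_B)

noncomputable def cut_B00mm_012_s1 : Cut := Cut.of [[⟨4, 0, 0, 1449551462⟩]]

noncomputable def f_B00mm_012_s1 : ℕ → ℕ → ℕ → ℕ → Bool := onCell 0 536870912 0 536870912 33554432 16777216
    (rowFK 0 false false false .pnp 0 1 2 (qsf 0 536870912 0 536870912 1) ndF0q0 ndF0q2 pcF1 cut_B00mm_012_s1 Ext.none)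

def k0_B00mm_012_s1 : ∃ t, chk3 f_B00mm_012_s1 t 1 1 1 = true :=
  ⟨(l 5), by decide +kernel⟩

theorem c_B00mm_012_s1 : CertF 0 536870912 0 536870912 33554432 16777216 false false false .pnp 0 1 2
    ndF0q0 ndF0q2 pcF1 cut_B00mm_012_s1 Ext.none :=
  certFK0 (fam := false) (s1 := false) (s2 := false) (a := 0) (b := 1) (c := 2) (cn := .pnp) (n1 := ndF0q0) (n2 := ndF0q2) (pc := pcF1) (cut := cut_B00mm_012_s1) (xt := Ext.none) (P1 := 0) (W1 := 536870912) (P2 := 0) (W2 := 536870912) (P3 := 33554432) (W3 := 16777216)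
    rfl rfl rfl k0_B00mm_012_s1

theorem s_B00mm_012_s1 {κ x : ℝ} (hκ : κ * h0 = ken x) (hx : ((33554432 : ℕ) : ℝ) / S ≤ x)
    (hx' : x ≤ (((33554432 : ℕ) : ℝ) + (16777216 : ℕ)) / S) :
    AltB (VF κ) PP tKF tL pcF [⟨3, 0, 0, 1449551462⟩] 0 1 2 0 0 (sgb false) (sgb false) x :=
  strip_altB (m := 1449551462) true rfl hκ covF00 covF02 hx hx' c_B00mm_012_s1 cutB_nil (noExt_B)

noncomputable def cut_B00mm_012_s3 : Cut := Cut.of [[⟨3, 0, 0, 2845415833⟩]]

noncomputable def f_B00mm_012_s3 : ℕ → ℕ → ℕ → ℕ → Bool := onCell 0 536870912 0 536870912 33554432 16777216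
    (rowFK 0 false false false .pnp 0 1 2 (qsf 0 536870912 0 536870912 1) ndF0q0 ndF0q2 pcF1 cut_B00mm_012_s3 Ext.none)

def k0_B00mm_012_s3 : ∃ t, chk3 f_B00mm_012_s3 t 1 1 1 = true :=
  ⟨(l 5), by decide +kernel⟩

theorem c_B00mm_012_s3 : CertF 0 536870912 0 536870912 33554432 16777216 false false false .pnp 0 1 2
    ndF0q0 ndF0q2 pcF1 cut_B00mm_012_s3 Ext.none :=
  certFK0 (fam := false) (s1 := false) (s2 := false) (a := 0) (b := 1) (c := 2) (cn := .pnp) (n1 := ndF0q0) (n2 := ndF0q2) (pc := pcF1) (cut := cut_B00mm_012_s3) (xt := Ext.none) (P1 := 0) (W1 := 536870912) (P2 := 0) (W2 := 536870912) (P3 := 33554432) (W3 := 16777216)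
    rfl rfl rfl k0_B00mm_012_s3

theorem s_B00mm_012_s3 {κ x : ℝ} (hκ : κ * h0 = ken x) (hx : ((33554432 : ℕ) : ℝ) / S ≤ x)
    (hx' : x ≤ (((33554432 : ℕ) : ℝ) + (16777216 : ℕ)) / S) :
    AltB (VF κ) PP tKF tL pcF [⟨4, 0, 0, 2845415833⟩] 0 1 2 0 0 (sgb false) (sgb false) x :=
  strip_altB (m := 2845415833) false rfl hκ covF00 covF02 hx hx' c_B00mm_012_s3 cutB_nil (noExt_B)

noncomputable def cut_B00mm_022_s1 : Cut := Cut.of [[⟨4, 0, 0, 1449551462⟩]]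

noncomputable def f_B00mm_022_s1 : ℕ → ℕ → ℕ → ℕ → Bool := onCell 0 536870912 0 536870912 33554432 16777216
    (rowFK 0 false false false .pp 0 2 2 (qsf 0 536870912 0 536870912 2) ndF0q0 ndF0q2 pcF2 cut_B00mm_022_s1 Ext.none)

def k0_B00mm_022_s1 : ∃ t, chk3 f_B00mm_022_s1 t 1 1 1 = true :=
  ⟨(l 5), by decide +kernel⟩

theorem c_B00mm_022_s1 : CertF 0 536870912 0 536870912 33554432 16777216 false false false .pp 0 2 2
    ndF0q0 ndF0q2 pcF2 cut_B00mm_022_s1 Ext.none :=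
  certFK0 (fam := false) (s1 := false) (s2 := false) (a := 0) (b := 2) (c := 2) (cn := .pp) (n1 := ndF0q0) (n2 := ndF0q2) (pc := pcF2) (cut := cut_B00mm_022_s1) (xt := Ext.none) (P1 := 0) (W1 := 536870912) (P2 := 0) (W2 := 536870912) (P3 := 33554432) (W3 := 16777216)
    rfl rfl rfl k0_B00mm_022_s1

theorem s_B00mm_022_s1 {κ x : ℝ} (hκ : κ * h0 = ken x) (hx : ((33554432 : ℕ) : ℝ) / S ≤ x)
    (hx' : x ≤ (((33554432 : ℕ) : ℝ) + (16777216 : ℕ)) / S) :
    AltB (VF κ) PP tKF tL pcF [⟨3, 0, 0, 1449551462⟩] 0 2 2 0 0 (sgb false) (sgb false) x :=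
  strip_altB (m := 1449551462) true rfl hκ covF00 covF02 hx hx' c_B00mm_022_s1 cutB_nil (noExt_B)

noncomputable def cut_B00mm_022_s3 : Cut := Cut.of [[⟨3, 0, 0, 2845415833⟩]]

noncomputable def f_B00mm_022_s3 : ℕ → ℕ → ℕ → ℕ → Bool := onCell 0 536870912 0 536870912 33554432 16777216
    (rowFK 0 false false false .pp 0 2 2 (qsf 0 536870912 0 536870912 2) ndF0q0 ndF0q2 pcF2 cut_B00mm_022_s3 Ext.none)

def k0_B00mm_022_s3 : ∃ t, chk3 f_B00mm_022_s3 t 1 1 1 = true :=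
  ⟨(l 5), by decide +kernel⟩

theorem c_B00mm_022_s3 : CertF 0 536870912 0 536870912 33554432 16777216 false false false .pp 0 2 2
    ndF0q0 ndF0q2 pcF2 cut_B00mm_022_s3 Ext.none :=
  certFK0 (fam := false) (s1 := false) (s2 := false) (a := 0) (b := 2) (c := 2) (cn := .pp) (n1 := ndF0q0) (n2 := ndF0q2) (pc := pcF2) (cut := cut_B00mm_022_s3) (xt := Ext.none) (P1 := 0) (W1 := 536870912) (P2 := 0) (W2 := 536870912) (P3 := 33554432) (W3 := 16777216)
    rfl rfl rfl k0_B00mm_022_s3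

theorem s_B00mm_022_s3 {κ x : ℝ} (hκ : κ * h0 = ken x) (hx : ((33554432 : ℕ) : ℝ) / S ≤ x)
    (hx' : x ≤ (((33554432 : ℕ) : ℝ) + (16777216 : ℕ)) / S) :
    AltB (VF κ) PP tKF tL pcF [⟨4, 0, 0, 2845415833⟩] 0 2 2 0 0 (sgb false) (sgb false) x :=
  strip_altB (m := 2845415833) false rfl hκ covF00 covF02 hx hx' c_B00mm_022_s3 cutB_nil (noExt_B)

noncomputable def cut_B00mm_101_s1 : Cut := Cut.of [[⟨4, 0, 0, 1449551462⟩]]

noncomputable def f_B00mm_101_s1 : ℕ → ℕ → ℕ → ℕ → Bool := onCell 536870912 536870912 536870912 536870912 33554432 16777216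
    (rowFK 0 false false false .npn 1 0 1 (qsf 536870912 536870912 536870912 536870912 0) ndF0q1 ndF0q1 pcF0 cut_B00mm_101_s1 Ext.none)

def k0_B00mm_101_s1 : ∃ t, chk3 f_B00mm_101_s1 t 1 1 1 = true :=
  ⟨(l 3), by decide +kernel⟩

theorem c_B00mm_101_s1 : CertF 536870912 536870912 536870912 536870912 33554432 16777216 false false false .npn 1 0 1
    ndF0q1 ndF0q1 pcF0 cut_B00mm_101_s1 Ext.none :=
  certFK0 (fam := false) (s1 := false) (s2 := false) (a := 1) (b := 0) (c := 1) (cn := .npn) (n1 := ndF0q1) (n2 := ndF0q1) (pc := pcF0) (cut := cut_B00mm_101_s1) (xt := Ext.none) (P1 := 536870912) (W1 := 536870912) (P2 := 536870912) (W2 := 536870912) (P3 := 33554432) (W3 := 16777216)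
    rfl rfl rfl k0_B00mm_101_s1

theorem s_B00mm_101_s1 {κ x : ℝ} (hκ : κ * h0 = ken x) (hx : ((33554432 : ℕ) : ℝ) / S ≤ x)
    (hx' : x ≤ (((33554432 : ℕ) : ℝ) + (16777216 : ℕ)) / S) :
    AltB (VF κ) PP tKF tL pcF [⟨3, 0, 0, 1449551462⟩] 1 0 1 0 0 (sgb false) (sgb false) x :=
  strip_altB (m := 1449551462) true rfl hκ covF01 covF01 hx hx' c_B00mm_101_s1 cutB_nil (noExt_B)

noncomputable def cut_B00mm_101_s3 : Cut := Cut.of [[⟨3, 0, 0, 2845415833⟩]]

noncomputable def f_B00mm_101_s3 : ℕ → ℕ → ℕ → ℕ → Bool := onCell 536870912 536870912 536870912 536870912 33554432 16777216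
    (rowFK 0 false false false .npn 1 0 1 (qsf 536870912 536870912 536870912 536870912 0) ndF0q1 ndF0q1 pcF0 cut_B00mm_101_s3 Ext.none)

def k0_B00mm_101_s3 : ∃ t, chk3 f_B00mm_101_s3 t 1 1 1 = true :=
  ⟨(l 3), by decide +kernel⟩

theorem c_B00mm_101_s3 : CertF 536870912 536870912 536870912 536870912 33554432 16777216 false false false .npn 1 0 1
    ndF0q1 ndF0q1 pcF0 cut_B00mm_101_s3 Ext.none :=
  certFK0 (fam := false) (s1 := false) (s2 := false) (a := 1) (b := 0) (c := 1) (cn := .npn) (n1 := ndF0q1) (n2 := ndF0q1) (pc := pcF0) (cut := cut_B00mm_101_s3) (xt := Ext.none) (P1 := 536870912) (W1 := 536870912) (P2 := 536870912) (W2 := 536870912) (P3 := 33554432) (W3 := 16777216)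
    rfl rfl rfl k0_B00mm_101_s3

theorem s_B00mm_101_s3 {κ x : ℝ} (hκ : κ * h0 = ken x) (hx : ((33554432 : ℕ) : ℝ) / S ≤ x)
    (hx' : x ≤ (((33554432 : ℕ) : ℝ) + (16777216 : ℕ)) / S) :
    AltB (VF κ) PP tKF tL pcF [⟨4, 0, 0, 2845415833⟩] 1 0 1 0 0 (sgb false) (sgb false) x :=
  strip_altB (m := 2845415833) false rfl hκ covF01 covF01 hx hx' c_B00mm_101_s3 cutB_nil (noExt_B)

noncomputable def cut_B00mm_102_s1 : Cut := Cut.of [[⟨4, 0, 0, 1449551462⟩]]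

noncomputable def f_B00mm_102_s1 : ℕ → ℕ → ℕ → ℕ → Bool := onCell 536870912 536870912 0 536870912 33554432 16777216
    (rowFK 0 false false false .npp 1 0 2 (qsf 536870912 536870912 0 536870912 0) ndF0q1 ndF0q2 pcF0 cut_B00mm_102_s1 Ext.none)

def k0_B00mm_102_s1 : ∃ t, chk3 f_B00mm_102_s1 t 1 1 1 = true :=
  ⟨(a (l 5) (l 3)), by decide +kernel⟩

theorem c_B00mm_102_s1 : CertF 536870912 536870912 0 536870912 33554432 16777216 false false false .npp 1 0 2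
    ndF0q1 ndF0q2 pcF0 cut_B00mm_102_s1 Ext.none :=
  certFK0 (fam := false) (s1 := false) (s2 := false) (a := 1) (b := 0) (c := 2) (cn := .npp) (n1 := ndF0q1) (n2 := ndF0q2) (pc := pcF0) (cut := cut_B00mm_102_s1) (xt := Ext.none) (P1 := 536870912) (W1 := 536870912) (P2 := 0) (W2 := 536870912) (P3 := 33554432) (W3 := 16777216)
    rfl rfl rfl k0_B00mm_102_s1

theorem s_B00mm_102_s1 {κ x : ℝ} (hκ : κ * h0 = ken x) (hx : ((33554432 : ℕ) : ℝ) / S ≤ x)
    (hx' : x ≤ (((33554432 : ℕ) : ℝ) + (16777216 : ℕ)) / S) :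
    AltB (VF κ) PP tKF tL pcF [⟨3, 0, 0, 1449551462⟩] 1 0 2 0 0 (sgb false) (sgb false) x :=
  strip_altB (m := 1449551462) true rfl hκ covF01 covF02 hx hx' c_B00mm_102_s1 cutB_nil (noExt_B)

noncomputable def cut_B00mm_102_s3 : Cut := Cut.of [[⟨3, 0, 0, 2845415833⟩]]

noncomputable def f_B00mm_102_s3 : ℕ → ℕ → ℕ → ℕ → Bool := onCell 536870912 536870912 0 536870912 33554432 16777216
    (rowFK 0 false false false .npp 1 0 2 (qsf 536870912 536870912 0 536870912 0) ndF0q1 ndF0q2 pcF0 cut_B00mm_102_s3 Ext.none)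

def k0_B00mm_102_s3 : ∃ t, chk3 f_B00mm_102_s3 t 1 1 1 = true :=
  ⟨(l 6), by decide +kernel⟩

theorem c_B00mm_102_s3 : CertF 536870912 536870912 0 536870912 33554432 16777216 false false false .npp 1 0 2
    ndF0q1 ndF0q2 pcF0 cut_B00mm_102_s3 Ext.none :=
  certFK0 (fam := false) (s1 := false) (s2 := false) (a := 1) (b := 0) (c := 2) (cn := .npp) (n1 := ndF0q1) (n2 := ndF0q2) (pc := pcF0) (cut := cut_B00mm_102_s3) (xt := Ext.none) (P1 := 536870912) (W1 := 536870912) (P2 := 0) (W2 := 536870912) (P3 := 33554432) (W3 := 16777216)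
    rfl rfl rfl k0_B00mm_102_s3

theorem s_B00mm_102_s3 {κ x : ℝ} (hκ : κ * h0 = ken x) (hx : ((33554432 : ℕ) : ℝ) / S ≤ x)
    (hx' : x ≤ (((33554432 : ℕ) : ℝ) + (16777216 : ℕ)) / S) :
    AltB (VF κ) PP tKF tL pcF [⟨4, 0, 0, 2845415833⟩] 1 0 2 0 0 (sgb false) (sgb false) x :=
  strip_altB (m := 2845415833) false rfl hκ covF01 covF02 hx hx' c_B00mm_102_s3 cutB_nil (noExt_B)

noncomputable def cut_B00mm_112_s1 : Cut := Cut.of [[⟨4, 0, 0, 1449551462⟩]]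

noncomputable def f_B00mm_112_s1 : ℕ → ℕ → ℕ → ℕ → Bool := onCell 536870912 536870912 0 536870912 33554432 16777216
    (rowFK 2 false false false .dn 1 1 2 (qsf 536870912 536870912 0 536870912 1) ndF0q1 ndF0q2 pcF1 cut_B00mm_112_s1 Ext.none)

def k0_B00mm_112_s1 : ∃ t, chk3 f_B00mm_112_s1 t 1 1 1 = true :=
  ⟨(l 5), by decide +kernel⟩

theorem c_B00mm_112_s1 : CertF 536870912 536870912 0 536870912 33554432 16777216 false false false .dn 1 1 2
    ndF0q1 ndF0q2 pcF1 cut_B00mm_112_s1 Ext.none :=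
  certFK2 (fam := false) (s1 := false) (s2 := false) (a := 1) (b := 1) (c := 2) (cn := .dn) (n1 := ndF0q1) (n2 := ndF0q2) (pc := pcF1) (cut := cut_B00mm_112_s1) (xt := Ext.none) (P1 := 536870912) (W1 := 536870912) (P2 := 0) (W2 := 536870912) (P3 := 33554432) (W3 := 16777216)
    rfl rfl rfl (fun _ => rfl) k0_B00mm_112_s1

theorem s_B00mm_112_s1 {κ x : ℝ} (hκ : κ * h0 = ken x) (hx : ((33554432 : ℕ) : ℝ) / S ≤ x)
    (hx' : x ≤ (((33554432 : ℕ) : ℝ) + (16777216 : ℕ)) / S) :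
    AltB (VF κ) PP tKF tL pcF [⟨3, 0, 0, 1449551462⟩] 1 1 2 0 0 (sgb false) (sgb false) x :=
  strip_altB (m := 1449551462) true rfl hκ covF01 covF02 hx hx' c_B00mm_112_s1 cutB_nil (noExt_B)

noncomputable def cut_B00mm_112_s3 : Cut := Cut.of [[⟨3, 0, 0, 2845415833⟩]]

noncomputable def f_B00mm_112_s3 : ℕ → ℕ → ℕ → ℕ → Bool := onCell 536870912 536870912 0 536870912 33554432 16777216
    (rowFK 0 false false false .dn 1 1 2 (qsf 536870912 536870912 0 536870912 1) ndF0q1 ndF0q2 pcF1 cut_B00mm_112_s3 Ext.none)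

def k0_B00mm_112_s3 : ∃ t, chk3 f_B00mm_112_s3 t 1 1 1 = true :=
  ⟨(l 6), by decide +kernel⟩

theorem c_B00mm_112_s3 : CertF 536870912 536870912 0 536870912 33554432 16777216 false false false .dn 1 1 2
    ndF0q1 ndF0q2 pcF1 cut_B00mm_112_s3 Ext.none :=
  certFK0 (fam := false) (s1 := false) (s2 := false) (a := 1) (b := 1) (c := 2) (cn := .dn) (n1 := ndF0q1) (n2 := ndF0q2) (pc := pcF1) (cut := cut_B00mm_112_s3) (xt := Ext.none) (P1 := 536870912) (W1 := 536870912) (P2 := 0) (W2 := 536870912) (P3 := 33554432) (W3 := 16777216)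
    rfl rfl rfl k0_B00mm_112_s3

theorem s_B00mm_112_s3 {κ x : ℝ} (hκ : κ * h0 = ken x) (hx : ((33554432 : ℕ) : ℝ) / S ≤ x)
    (hx' : x ≤ (((33554432 : ℕ) : ℝ) + (16777216 : ℕ)) / S) :
    AltB (VF κ) PP tKF tL pcF [⟨4, 0, 0, 2845415833⟩] 1 1 2 0 0 (sgb false) (sgb false) x :=
  strip_altB (m := 2845415833) false rfl hκ covF01 covF02 hx hx' c_B00mm_112_s3 cutB_nil (noExt_B)

noncomputable def cut_B00mm_202_s1 : Cut := Cut.of [[⟨4, 0, 0, 1449551462⟩]]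

noncomputable def f_B00mm_202_s1 : ℕ → ℕ → ℕ → ℕ → Bool := onCell 0 536870912 0 536870912 33554432 16777216
    (rowFK 0 false false false .pp 2 0 2 (qsf 0 536870912 0 536870912 0) ndF0q2 ndF0q2 pcF0 cut_B00mm_202_s1 Ext.none)

def k0_B00mm_202_s1 : ∃ t, chk3 f_B00mm_202_s1 t 1 1 1 = true :=
  ⟨(l 3), by decide +kernel⟩

theorem c_B00mm_202_s1 : CertF 0 536870912 0 536870912 33554432 16777216 false false false .pp 2 0 2
    ndF0q2 ndF0q2 pcF0 cut_B00mm_202_s1 Ext.none :=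
  certFK0 (fam := false) (s1 := false) (s2 := false) (a := 2) (b := 0) (c := 2) (cn := .pp) (n1 := ndF0q2) (n2 := ndF0q2) (pc := pcF0) (cut := cut_B00mm_202_s1) (xt := Ext.none) (P1 := 0) (W1 := 536870912) (P2 := 0) (W2 := 536870912) (P3 := 33554432) (W3 := 16777216)
    rfl rfl rfl k0_B00mm_202_s1

theorem s_B00mm_202_s1 {κ x : ℝ} (hκ : κ * h0 = ken x) (hx : ((33554432 : ℕ) : ℝ) / S ≤ x)
    (hx' : x ≤ (((33554432 : ℕ) : ℝ) + (16777216 : ℕ)) / S) :
    AltB (VF κ) PP tKF tL pcF [⟨3, 0, 0, 1449551462⟩] 2 0 2 0 0 (sgb false) (sgb false) x :=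
  strip_altB (m := 1449551462) true rfl hκ covF02 covF02 hx hx' c_B00mm_202_s1 cutB_nil (noExt_B)

noncomputable def cut_B00mm_202_s3 : Cut := Cut.of [[⟨3, 0, 0, 2845415833⟩]]

noncomputable def f_B00mm_202_s3 : ℕ → ℕ → ℕ → ℕ → Bool := onCell 0 536870912 0 536870912 33554432 16777216
    (rowFK 0 false false false .pp 2 0 2 (qsf 0 536870912 0 536870912 0) ndF0q2 ndF0q2 pcF0 cut_B00mm_202_s3 Ext.none)

def k0_B00mm_202_s3 : ∃ t, chk3 f_B00mm_202_s3 t 1 1 1 = true :=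
  ⟨(l 3), by decide +kernel⟩

theorem c_B00mm_202_s3 : CertF 0 536870912 0 536870912 33554432 16777216 false false false .pp 2 0 2
    ndF0q2 ndF0q2 pcF0 cut_B00mm_202_s3 Ext.none :=
  certFK0 (fam := false) (s1 := false) (s2 := false) (a := 2) (b := 0) (c := 2) (cn := .pp) (n1 := ndF0q2) (n2 := ndF0q2) (pc := pcF0) (cut := cut_B00mm_202_s3) (xt := Ext.none) (P1 := 0) (W1 := 536870912) (P2 := 0) (W2 := 536870912) (P3 := 33554432) (W3 := 16777216)
    rfl rfl rfl k0_B00mm_202_s3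

theorem s_B00mm_202_s3 {κ x : ℝ} (hκ : κ * h0 = ken x) (hx : ((33554432 : ℕ) : ℝ) / S ≤ x)
    (hx' : x ≤ (((33554432 : ℕ) : ℝ) + (16777216 : ℕ)) / S) :
    AltB (VF κ) PP tKF tL pcF [⟨4, 0, 0, 2845415833⟩] 2 0 2 0 0 (sgb false) (sgb false) x :=
  strip_altB (m := 2845415833) false rfl hκ covF02 covF02 hx hx' c_B00mm_202_s3 cutB_nil (noExt_B)

noncomputable def cut_B04pp_001_s1 : Cut := Cut.of [[⟨4, 0, 0, 1449551462⟩]]

noncomputable def f_B04pp_001_s1 : ℕ → ℕ → ℕ → ℕ → Bool := onCell 0 536870912 0 536870912 33554432 16777216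
    (rowFK 1 false true true .up 0 0 1 (qsf 0 536870912 536870912 536870912 0) ndF0q0 ndF4q1 pcF0 cut_B04pp_001_s1 Ext.none)

def k0_B04pp_001_s1 : ∃ t, chk3 f_B04pp_001_s1 t 1 1 1 = true :=
  ⟨(l 3), by decide +kernel⟩

theorem c_B04pp_001_s1 : CertF 0 536870912 536870912 536870912 33554432 16777216 false true true .up 0 0 1
    ndF0q0 ndF4q1 pcF0 cut_B04pp_001_s1 Ext.none :=
  certFK1 (fam := false) (s1 := true) (s2 := true) (a := 0) (b := 0) (c := 1) (cn := .up) (n1 := ndF0q0) (n2 := ndF4q1) (pc := pcF0) (cut := cut_B04pp_001_s1) (xt := Ext.none) (P1 := 0) (W1 := 536870912) (P2 := 536870912) (W2 := 536870912) (P3 := 33554432) (W3 := 16777216)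
    rfl rfl rfl (fun _ => rfl) k0_B04pp_001_s1

theorem s_B04pp_001_s1 {κ x : ℝ} (hκ : κ * h0 = ken x) (hx : ((33554432 : ℕ) : ℝ) / S ≤ x)
    (hx' : x ≤ (((33554432 : ℕ) : ℝ) + (16777216 : ℕ)) / S) :
    AltB (VF κ) PP tKF tL pcF [⟨3, 0, 0, 1449551462⟩] 0 0 1 0 4 (sgb true) (sgb true) x :=
  strip_altB (m := 1449551462) true rfl hκ covF00 covF41 hx hx' c_B04pp_001_s1 cutB_nil (noExt_B)

noncomputable def cut_B04pp_011_s1 : Cut := Cut.of [[⟨4, 0, 0, 1449551462⟩], [⟨0, 0, 0, 33554432⟩, ⟨1, 1, 0, 33554432⟩, ⟨2, 1, 0, 33554432⟩]]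

noncomputable def f_B04pp_011_s1 : ℕ → ℕ → ℕ → ℕ → Bool := onCell 0 536870912 536870912 536870912 33554432 16777216
    (rowFK 1 false true true .pnn 0 1 1 (qsf 0 536870912 536870912 536870912 1) ndF0q0 ndF4q1 pcF1 cut_B04pp_011_s1 Ext.none)

def k0_B04pp_011_s1 : ∃ t, chk3 f_B04pp_011_s1 t 1 1 1 = true :=
  ⟨(b (l 3) (a (b (l 3) (a (b (l 3) (a (b (l 3) (a (b (l 3) (a (l 14) (l 3))) (l 3))) (l 3))) (l 3))) (l 3))), by decide +kernel⟩

theorem c_B04pp_011_s1 : CertF 0 536870912 536870912 536870912 33554432 16777216 false true true .pnn 0 1 1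
    ndF0q0 ndF4q1 pcF1 cut_B04pp_011_s1 Ext.none :=
  certFK1 (fam := false) (s1 := true) (s2 := true) (a := 0) (b := 1) (c := 1) (cn := .pnn) (n1 := ndF0q0) (n2 := ndF4q1) (pc := pcF1) (cut := cut_B04pp_011_s1) (xt := Ext.none) (P1 := 0) (W1 := 536870912) (P2 := 536870912) (W2 := 536870912) (P3 := 33554432) (W3 := 16777216)
    rfl rfl rfl (fun _ => rfl) k0_B04pp_011_s1

theorem s_B04pp_011_s1 {κ x : ℝ} (hκ : κ * h0 = ken x) (hx : ((33554432 : ℕ) : ℝ) / S ≤ x)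
    (hx' : x ≤ (((33554432 : ℕ) : ℝ) + (16777216 : ℕ)) / S)
    (H : CutB (VF κ) PP tKF tL pcF (Cut.of [[⟨0, 0, 0, 33554432⟩, ⟨1, 1, 0, 33554432⟩, ⟨2, 1, 0, 33554432⟩]]) 0 1 1 0 4 (sgb true) (sgb true) x) :
    AltB (VF κ) PP tKF tL pcF [⟨3, 0, 0, 1449551462⟩] 0 1 1 0 4 (sgb true) (sgb true) x :=
  strip_altB (m := 1449551462) true rfl hκ covF00 covF41 hx hx' c_B04pp_011_s1 H (noExt_B)

noncomputable def cut_B04pp_012_s1 : Cut := Cut.of [[⟨4, 0, 0, 1449551462⟩], [⟨0, 0, 0, 33554432⟩, ⟨1, 1, 0, 33554432⟩, ⟨2, 1, 0, 33554432⟩]]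

noncomputable def f_B04pp_012_s1 : ℕ → ℕ → ℕ → ℕ → Bool := onCell 0 536870912 536870912 536870912 33554432 16777216
    (rowFK 1 false true true .pnp 0 1 2 (qsf 0 536870912 1073741824 536870912 1) ndF0q0 ndF4q2 pcF1 cut_B04pp_012_s1 Ext.none)

def k0_B04pp_012_s1 : ∃ t, chk3 f_B04pp_012_s1 t 1 1 1 = true :=
  ⟨(b (l 3) (a (b (l 3) (a (b (l 3) (a (a (a (b (l 1) (b (l 3) (l 14))) (l 3)) (l 3)) (l 3))) (l 3))) (l 3))), by decide +kernel⟩

theorem c_B04pp_012_s1 : CertF 0 536870912 1073741824 536870912 33554432 16777216 false true true .pnp 0 1 2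
    ndF0q0 ndF4q2 pcF1 cut_B04pp_012_s1 Ext.none :=
  certFK1 (fam := false) (s1 := true) (s2 := true) (a := 0) (b := 1) (c := 2) (cn := .pnp) (n1 := ndF0q0) (n2 := ndF4q2) (pc := pcF1) (cut := cut_B04pp_012_s1) (xt := Ext.none) (P1 := 0) (W1 := 536870912) (P2 := 1073741824) (W2 := 536870912) (P3 := 33554432) (W3 := 16777216)
    rfl rfl rfl (fun _ => rfl) k0_B04pp_012_s1

theorem s_B04pp_012_s1 {κ x : ℝ} (hκ : κ * h0 = ken x) (hx : ((33554432 : ℕ) : ℝ) / S ≤ x)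
    (hx' : x ≤ (((33554432 : ℕ) : ℝ) + (16777216 : ℕ)) / S)
    (H : CutB (VF κ) PP tKF tL pcF (Cut.of [[⟨0, 0, 0, 33554432⟩, ⟨1, 1, 0, 33554432⟩, ⟨2, 1, 0, 33554432⟩]]) 0 1 2 0 4 (sgb true) (sgb true) x) :
    AltB (VF κ) PP tKF tL pcF [⟨3, 0, 0, 1449551462⟩] 0 1 2 0 4 (sgb true) (sgb true) x :=
  strip_altB (m := 1449551462) true rfl hκ covF00 covF42 hx hx' c_B04pp_012_s1 H (noExt_B)

noncomputable def cut_B04pp_022_s1 : Cut := Cut.of [[⟨4, 0, 0, 1449551462⟩], [⟨0, 0, 0, 16777216⟩, ⟨1, 1, 0, 16777216⟩, ⟨2, 1, 0, 16777216⟩]]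

noncomputable def xt_B04pp_022_s1 : Ext := strExt dd false true true .u0 .s2 .u2 .pp 0 2 2 rfl rfl gf2 vv ndF0q0 ndF4q2

noncomputable def f_B04pp_022_s1 : ℕ → ℕ → ℕ → ℕ → Bool := onCell 0 536870912 1073741824 536870912 33554432 16777216
    (rowFK 1 false true true .pp 0 2 2 (qsf 0 536870912 1073741824 536870912 2) ndF0q0 ndF4q2 pcF2 cut_B04pp_022_s1 xt_B04pp_022_s1)

def k0_B04pp_022_s1 : ∃ t, chk3 f_B04pp_022_s1 t 16 64 1 = true :=
  ⟨(b (a (a (l 14) (a (a (l 14) (l 3)) (l 3))) (l 3)) (b (a (a (l 14) (b (a (a (l 14) (a (a (l 14) (l 3)) (l 3))) (l 3)) (a (a (a (l 14) (a (l 14) (l 527964799))) (a (a (l 527718271) (l 527740287)) (a (l 527493503) (l 527246463)))) (a (a (a (l 527267711) (l 3)) (l 3)) (l 3))))) (l 3)) (a (a (a (l 14) (b (l 14) (a (l 14) (a (l 14) (a (l 14) (a (l 14) (l 527235967))))))) (a (a (a (a (b (l 14) (b (l 528853631) (l 16774096))) (b (l 528809599) (l 528880255))) (a (b (l 528295551)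 (l 528366207)) (b (l 528049535) (l 528120447)))) (a (a (b (l 527803519) (l 527874431)) (b (l 527556991) (l 527628159))) (a (b (l 527578751) (l 527381887)) (l 528682255)))) (a (a (a (l 528166527) (l 528187775)) (a (l 527940479) (l 527961471))) (a (b (l 528513151) (l 528585343)) (b (l 3) (l 528359295)))))) (a (a (a (a (b (l 3) (l 528132479)) (l 3)) (l 3)) (l 3)) (l 3))))), by decide +kernel⟩

def k1_B04pp_022_s1 : ∃ t, chk3 f_B04pp_022_s1 t 16 130 1 = true :=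
  ⟨(a (a (a (a (l 14) (b (l 14) (a (l 14) (b (l 14) (a (l 14) (l 16761336)))))) (a (b (b (l 14) (b (l 14) (a (l 14) (a (l 14) (l 16766056))))) (a (b (a (l 14) (l 16763904)) (a (l 16761784) (l 16762232))) (b (a (l 16764360) (l 16764776)) (a (l 16762672) (l 16763128))))) (a (a (b (b (l 14) (a (l 16766792) (l 16767008))) (b (l 16765216) (l 16763536))) (a (b (b (l 14) (l 16767216)) (l 528033663)) (b (b (l 527391615) (l 16767432)) (l 528045183)))) (a (a (b (l 528150143) (l 527788159)) (b (l 528161663) (l 527531135))) (a (b (l 527904383) (l 527542399)) (b (l 527647359) (l 527285375))))))) (a (a (a (a (a (b (l 527658623) (l 527296383)) (b (l 527401343) (l 527039103))) (b (b (l 528544895) (l 528467583)) (b (l 16772576) (l 16765688)))) (a (b (b (l 528299391) (l 528221823)) (l 528683647)) (b (l 528800127) (l 528437375)))) (a (a (b (l 528553855) (l 528191103)) (b (l 528307327) (l 527944575))) (a (b (l 528060799)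 (l 527697791)) (b (l 527814015) (l 527450751))))) (a (a (a (b (l 527835263) (l 527471999)) (b (l 527588223) (l 527224447))) (b (b (l 529011583) (l 528933247)) (b (l 528883583) (l 528855423)))) (a (b (a (l 527381887) (l 527401855)) (a (l 527286655) (l 527307391))) (b (b (l 528290943) (l 528212351)) (l 528673151)))))) (a (a (a (a (b (l 528541311) (l 528177791)) (b (l 528313727) (l 527950207))) (a (b (l 528085631) (l 527722111)) (b (l 527857023) (l 527493503)))) (a (b (a (l 527627647) (l 3)) (a (l 527532671) (l 527571071))) (b (l 3) (l 529225599)))) (a (a (b (l 3) (l 528496255)) (l 3)) (l 3)))), by decide +kernel⟩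

def k2_B04pp_022_s1 : ∃ t, chk3 f_B04pp_022_s1 t 16 131 1 = true :=
  ⟨(a (a (a (a (a (b (l 14) (a (l 16752440) (l 16752904))) (b (b (l 14) (l 16756016)) (b (l 16754400) (l 16752800)))) (b (a (b (l 16758560) (l 16756928)) (b (l 16759464) (l 16757832))) (a (b (l 16755312) (l 16753712)) (b (l 16756216) (l 16754624))))) (b (b (a (a (l 16760352) (a (l 16761016) (l 16761456))) (b (a (l 16762520) (l 16763392)) (a (l 16761712) (l 16762568)))) (a (a (l 16758720) (l 16759600)) (a (l 16760488) (l 16761328)))) (a (b (a (l 16757112) (l 16757992)) (a (l 16755512) (l 16756400))) (b (a (l 16758864) (l 16759744)) (a (l 16757272) (l 16758136)))))) (a (a (a (b (b (c (l 16766496) (l 16763800)) (l 16762208)) (b (l 16760600) (l 16758960))) (a (b (l 528393343) (l 16765696)) (b (l 528147327) (l 16766128)))) (a (a (b (l 527901055) (l 16766552)) (b (l 527654271) (l 16766984))) (a (b (l 527676031) (l 16767408)) (b (l 527428991)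 (l 16767832))))) (a (a (a (b (l 527181951) (l 16768256)) (b (l 527202943) (l 527224959))) (b (b (l 528843647) (l 16771664)) (b (l 16764840) (l 16763272)))) (a (b (l 528878463) (l 528632447)) (b (l 528383871) (l 528138367)))))) (a (a (a (a (b (l 527888767) (l 527911807)) (b (l 527661439) (l 527684735))) (a (b (l 527433343) (l 527457151)) (b (l 527473279) (l 527497087)))) (a (a (b (l 527512703) (l 527536767)) (l 528336767)) (b (l 528937599) (l 528693887)))) (a (a (b (l 528477055) (l 528233855)) (b (l 528013695) (l 552471679))) (a (b (l 552179583) (c (l 629001855) (l 527808639))) (c (c (l 662178175) (l 611628927)) (l 535803519)))))), by decide +kernel⟩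

def k3_B04pp_022_s1 : ∃ t, chk3 f_B04pp_022_s1 t 16 132 1 = true :=
  ⟨(a (a (a (a (a (b (a (l 16749176) (l 16749648)) (l 16746104)) (b (b (l 16751176) (l 16749536)) (l 16747072))) (b (a (b (l 16752104) (l 16750464)) (b (l 16753016) (l 16751392))) (a (l 16748024) (l 16748976)))) (b (a (a (b (l 16753912) (l 16752312)) (b (l 16754808) (l 16753216))) (b (a (l 16755688) (l 16756560)) (a (l 16754104) (l 16754992)))) (a (a (l 16749904) (l 16750832)) (a (l 16751744) (l 16752648))))) (a (a (a (b (b (l 16757408) (l 16755872)) (l 16753544)) (b (b (l 16768720) (l 16756752)) (l 16764888))) (b (a (b (l 16759168) (l 16757608)) (b (l 16760024) (l 16758480))) (a (l 16765824) (l 16756184)))) (b (a (a (b (l 16760880) (l 16759336)) (b (l 16761720) (l 16760184))) (a (l 528682111) (l 528188287))) (a (b (l 16758232) (l 16756720)) (b (l 16759920) (l 16758424)))))) (a (a (a (a (b (l 527962239) (l 16781392)) (b (l 527735423)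 (l 16782208))) (a (l 528600191) (l 528103807))) (a (a (l 527875455) (l 527646335)) (a (l 531872383) (l 546216575)))) (a (a (b (l 552749183) (c (l 629220991) (l 528057471))) (c (c (l 662249599) (l 610563855)) (l 536390271))) (c (a (l 650626943) (l 661631871)) (a (b (l 547701119) (l 567989887)) (l 576670591)))))), by decide +kernel⟩

def k4_B04pp_022_s1 : ∃ t, chk3 f_B04pp_022_s1 t 16 133 1 = true :=
  ⟨(a (a (a (a (a (b (l 16742824) (l 16739560)) (b (l 16743816) (l 16740584))) (b (l 16747904) (l 16744712))) (a (b (l 16749824) (l 16746688)) (b (l 16751712) (l 16748624)))) (a (b (a (l 16753552) (a (l 16752272) (l 16753192))) (a (l 16750520) (l 16752376))) (a (b (b (l 16755232) (l 16753768)) (b (l 16752336) (l 16750848))) (b (a (l 16755776) (l 16756624)) (l 16753296))))) (a (a (a (a (l 529218687) (l 528724607)) (b (a (l 16759120) (l 16768688)) (l 16772928))) (a (b (a (l 16794848) (l 16774480)) (l 16777600))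 (b (c (l 16841704) (l 16773152)) (l 16808760)))) (a (a (b (a (l 16774840) (l 16782888)) (l 16827800)) (c (l 661641599) (b (l 568197503) (l 16855424)))) (c (l 674511999) (a (l 592388223) (l 605312383)))))), by decide +kernel⟩

def k5_B04pp_022_s1 : ∃ t, chk3 f_B04pp_022_s1 t 16 67 1 = true :=
  ⟨(b (b (a (a (a (a (l 16739472) (l 16738920)) (a (l 16740952) (l 16742944))) (a (a (l 16744888) (l 16746800)) (a (l 16748616) (l 16750520)))) (a (a (a (l 16781904) (l 16797992)) (a (l 16838552) (l 16865368))) (a (a (l 16881312) (l 16888656)) (a (l 16889168) (l 16968160))))) (a (a (a (a (l 16736272) (l 16735776)) (a (l 16737864) (l 16739904))) (a (a (l 16741904) (l 16743864)) (a (l 16745792) (l 16749216)))) (a (a (a (l 16818648) (l 16868592)) (a (l 16903144) (l 16925496))) (a (l 16815624) (l 16939208))))) (a (a (a (a (a (l 16728328) (l 16729440)) (l 16733712)) (a (l 16735880) (l 16738000))) (a (a (l 16740080) (b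 (l 16740952) (l 16768312))) (a (b (l 16758672) (l 16860576)) (b (l 16839520) (l 16845416))))) (a (a (a (b (l 16814976) (l 16895448)) (b (l 16857248) (l 17014456))) (a (l 16835920) (l 16851672))) (a (a (l 16943144) (l 17028056)) (a (l 17023808) (l 17099216)))))), by decide +kernel⟩

def k6_B04pp_022_s1 : ∃ t, chk3 f_B04pp_022_s1 t 17 16 1 = true :=
  ⟨(a (b (b (l 3) (b (l 3) (a (a (a (c (l 650532991) (l 557827455)) (l 3)) (l 3)) (l 3)))) (a (b (a (b (c (l 674536575) (a (l 592105855) (l 605104511))) (a (l 649808511) (l 656693375))) (b (a (l 649813375) (l 656747391)) (l 664950911))) (a (b (l 664872831) (l 16996480)) (a (l 673618815) (l 676022655)))) (a (b (b (l 665043327) (l 672559999)) (l 678782847)) (b (l 675425663) (l 680855167))))) (b (l 3) (b (a (l 680862591) (l 3)) (a (l 682075519) (l 680426367))))), by decide +kernel⟩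

def k7_B04pp_022_s1 : ∃ t, chk3 f_B04pp_022_s1 t 8 17 1 = true :=
  ⟨(a (a (a (a (b (a (b (b (l 16725232) (l 16719040)) (b (l 16737768) (c (l 17644632) (l 16876024)))) (b (b (l 16724928) (l 16722984)) (c (b (l 17291456) (l 17705656)) (l 16716464)))) (b (c (l 17916576) (a (l 17042896) (l 17289296))) (l 17912648))) (b (b (b (a (l 16727192) (l 16758200)) (c (a (l 17025712) (l 17189816)) (l 16727464))) (c (b (l 17221888) (l 17763880)) (b (l 16720840) (a (l 17107928) (l 17272464))))) (b (b (l 17444152) (l 17869432)) (l 18094280)))) (b (a (b (a (b (l 16757560) (c (l 17415296) (l 16825064))) (c (b (l 17088368) (l 17455128)) (b (l 16785216) (l 16918888)))) (c (l 17378144) (b (a (l 17049712) (l 17201752)) (l 17276848)))) (b (c (b (a (l 17216952) (l 17330160)) (l 17489088)) (b (a (l 16799928) (l 16876056)) (a (l 16991688) (l 17131264)))) (b (l 17125904) (l 17613232)))) (b (a (l 17565000) (l 17818592)) (l 18070824))))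 (b (a (b (b (a (b (l 16823240) (l 16982520)) (a (l 17055616) (l 17147032))) (a (l 17009000) (l 17273760))) (b (a (l 17401408) (l 17482736)) (l 17528040))) (b (a (b (l 17146632) (l 17348112)) (a (l 17107640) (l 17178136))) (b (l 17447752) (l 17554168)))) (b (a (l 17785888) (l 17704840)) (l 17942040)))) (b (b (a (a (a (l 678382207) (l 17031184)) (l 681630591)) (a (l 679950463) (l 676664191))) (a (a (l 17418632) (l 17322560)) (l 675231871))) (a (b (l 17551304) (l 17716128)) (b (l 17342528) (l 17496224))))), by decide +kernel⟩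

def k8_B04pp_022_s1 : ∃ t, chk3 f_B04pp_022_s1 t 9 8 1 = true :=
  ⟨(b (a (b (l 3) (a (b (l 3) (l 675964287)) (l 3))) (l 3)) (a (b (a (l 668431487) (l 659109247)) (a (l 657768319) (l 648939135))) (b (l 647151487) (l 638221439)))), by decide +kernel⟩

def k9_B04pp_022_s1 : ∃ t, chk3 f_B04pp_022_s1 t 4 9 1 = true :=
  ⟨(b (a (a (a (b (a (l 18381400) (l 18371432)) (l 18740008)) (b (l 18189152) (l 18451824))) (b (a (l 17935032) (l 17700744)) (l 18052200))) (a (b (a (l 17499760) (l 17242600)) (l 17464728)) (b (l 629944959) (l 622116479)))) (a (a (b (l 18804672) (l 18964288)) (l 18329088)) (b (a (l 17818624) (l 17505608)) (l 18306840)))), by decide +kernel⟩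

def k10_B04pp_022_s1 : ∃ t, chk3 f_B04pp_022_s1 t 4 5 1 = true :=
  ⟨(a (b (b (a (l 19129784) (l 18588344)) (l 18990072)) (l 19164312)) (b (b (b (l 18185848) (l 18047200)) (l 18179376)) (l 18346344))), by decide +kernel⟩

def k11_B04pp_022_s1 : ∃ t, chk3 f_B04pp_022_s1 t 5 2 1 = true :=
  ⟨(b (b (a (b (l 3) (b (l 3) (a (l 625702783) (l 3)))) (l 3)) (b (a (b (a (l 619054975) (l 611020415)) (a (l 612658559) (l 605722495))) (b (l 3) (a (l 602082943) (l 595025791)))) (a (b (a (l 17274512) (l 599854463)) (a (l 17412216) (l 17227344))) (b (a (l 594017407) (l 586932095)) (a (l 17158752) (l 578578815)))))) (b (b (b (b (a (l 17478584) (l 16988896)) (a (l 17445792) (l 17104440))) (b (a (l 17497520) (l 17134680)) (a (b (l 17536504) (l 17562880)) (b (l 17164144) (l 17690872))))) (a (l 17662192) (l 17278632))) (a (l 17851184) (l 17462448)))), by decide +kernel⟩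

def k12_B04pp_022_s1 : ∃ t, chk3 f_B04pp_022_s1 t 2 3 1 = true :=
  ⟨(b (a (b (a (l 19073024) (l 18432024)) (l 19113176)) (a (l 18399000) (l 17863760))) (l 6)), by decide +kernel⟩

def k13_B04pp_022_s1 : ∃ t, chk3 f_B04pp_022_s1 t 3 1 1 = true :=
  ⟨(b (b (b (l 3) (a (b (l 3) (a (b (a (l 579094911) (l 3)) (a (l 570143615) (l 562192511))) (b (l 3) (a (l 553573135) (l 3))))) (l 3))) (a (a (b (b (b (b (a (l 16900928) (l 16913688)) (l 17050520)) (b (l 17007840) (b (l 17029216) (l 17452208)))) (l 17073168)) (l 17223488)) (b (b (b (b (a (l 556908415) (l 558838655)) (a (l 16928064) (l 562837887))) (b (l 69894467223) (b (l 16987672) (a (l 17333440) (l 17306640))))) (l 17105616)) (l 17039944))) (b (b (b (b (b (l 3) (l 2)) (l 2)) (l 2)) (l 2)) (l 2)))) (a (a (b (l 17714232) (l 2)) (l 2)) (l 2))), by decide +kernel⟩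

theorem t14_B04pp_022_s1 : ∃ t, chk3 f_B04pp_022_s1 t 16 66 1 = true := ex3_b k3_B04pp_022_s1 k4_B04pp_022_s1

theorem t15_B04pp_022_s1 : ∃ t, chk3 f_B04pp_022_s1 t 16 33 1 = true := ex3_b t14_B04pp_022_s1 k5_B04pp_022_s1

theorem t16_B04pp_022_s1 : ∃ t, chk3 f_B04pp_022_s1 t 16 65 1 = true := ex3_b k1_B04pp_022_s1 k2_B04pp_022_s1

theorem t17_B04pp_022_s1 : ∃ t, chk3 f_B04pp_022_s1 t 16 32 1 = true := ex3_b k0_B04pp_022_s1 t16_B04pp_022_s1

theorem t18_B04pp_022_s1 : ∃ t, chk3 f_B04pp_022_s1 t 16 16 1 = true := ex3_b t17_B04pp_022_s1 t15_B04pp_022_s1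

theorem t19_B04pp_022_s1 : ∃ t, chk3 f_B04pp_022_s1 t 8 16 1 = true := ex3_a t18_B04pp_022_s1 k6_B04pp_022_s1

theorem t20_B04pp_022_s1 : ∃ t, chk3 f_B04pp_022_s1 t 8 8 1 = true := ex3_b t19_B04pp_022_s1 k7_B04pp_022_s1

theorem t21_B04pp_022_s1 : ∃ t, chk3 f_B04pp_022_s1 t 4 8 1 = true := ex3_a t20_B04pp_022_s1 k8_B04pp_022_s1

theorem t22_B04pp_022_s1 : ∃ t, chk3 f_B04pp_022_s1 t 4 4 1 = true := ex3_b t21_B04pp_022_s1 k9_B04pp_022_s1

theorem t23_B04pp_022_s1 : ∃ t, chk3 f_B04pp_022_s1 t 4 2 1 = true := ex3_b t22_B04pp_022_s1 k10_B04pp_022_s1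

theorem t24_B04pp_022_s1 : ∃ t, chk3 f_B04pp_022_s1 t 2 2 1 = true := ex3_a t23_B04pp_022_s1 k11_B04pp_022_s1

theorem t25_B04pp_022_s1 : ∃ t, chk3 f_B04pp_022_s1 t 2 1 1 = true := ex3_b t24_B04pp_022_s1 k12_B04pp_022_s1

theorem t26_B04pp_022_s1 : ∃ t, chk3 f_B04pp_022_s1 t 1 1 1 = true := ex3_a t25_B04pp_022_s1 k13_B04pp_022_s1

theorem c_B04pp_022_s1 : CertF 0 536870912 1073741824 536870912 33554432 16777216 false true true .pp 0 2 2
    ndF0q0 ndF4q2 pcF2 cut_B04pp_022_s1 xt_B04pp_022_s1 :=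
  certFK1 (fam := false) (s1 := true) (s2 := true) (a := 0) (b := 2) (c := 2) (cn := .pp) (n1 := ndF0q0) (n2 := ndF4q2) (pc := pcF2) (cut := cut_B04pp_022_s1) (xt := xt_B04pp_022_s1) (P1 := 0) (W1 := 536870912) (P2 := 1073741824) (W2 := 536870912) (P3 := 33554432) (W3 := 16777216)
    rfl rfl rfl (fun _ => rfl) t26_B04pp_022_s1

theorem s_B04pp_022_s1 {κ x : ℝ} (hκ : κ * h0 = ken x) (hx : ((33554432 : ℕ) : ℝ) / S ≤ x)
    (hx' : x ≤ (((33554432 : ℕ) : ℝ) + (16777216 : ℕ)) / S)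
    (H : CutB (VF κ) PP tKF tL pcF (Cut.of [[⟨0, 0, 0, 16777216⟩, ⟨1, 1, 0, 16777216⟩, ⟨2, 1, 0, 16777216⟩]]) 0 2 2 0 4 (sgb true) (sgb true) x) :
    AltB (VF κ) PP tKF tL pcF [⟨3, 0, 0, 1449551462⟩] 0 2 2 0 4 (sgb true) (sgb true) x :=
  strip_altB (m := 1449551462) true rfl hκ covF00 covF42 hx hx' c_B04pp_022_s1 H ((okx hx hx').extB (T := tt) (sideF hx hx') hκ rfl rfl (.O 0 true) (.N 2 true) rfl)

noncomputable def cut_B04pp_023_s1 : Cut := Cut.of [[⟨4, 0, 0, 1449551462⟩]]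

noncomputable def xt_B04pp_023_s1 : Ext := strExt dd false true true .u0 .s2 .u2 .up 0 2 3 rfl rfl gf2 vv ndF0q0 ndF4q3

noncomputable def f_B04pp_023_s1 : ℕ → ℕ → ℕ → ℕ → Bool := onCell 1073741824 536870912 0 1230186008 33554432 16777216
    (rowFK 2 false true true .up 0 2 3 (qsf 0 536870912 0 1230186008 2) ndF0q0 ndF4q3 pcF2 cut_B04pp_023_s1 xt_B04pp_023_s1)

def k0_B04pp_023_s1 : ∃ t, chk3 f_B04pp_023_s1 t 1 1 1 = true :=
  ⟨(a (b (l 2) (b (b (l 2) (a (l 2) (a (l 2) (l 414029635991)))) (b (a (l 2) (b (a (a (l 2) (l 461810222215)) (l 17100280)) (a (b (a (l 2) (l 452683248647)) (a (a (l 3) (a (l 3) (a (a (l 556216703) (l 548621071)) (a (a (l 36607935479) (l 16827064)) (l 16874560))))) (l 16932064))) (l 17218760)))) (a (l 3) (a (a (b (a (l 3) (a (b (a (l 3) (l 566942591)) (a (l 574787455) (l 568283407))) (b (a (l 557280783) (a (l 16876456) (l 16789824))) (a (a (l 16851128) (l 16814688)) (a (l 16897792)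 (l 16810424)))))) (a (b (a (l 3) (b (a (l 3) (l 576207487)) (l 569549439))) (a (l 561764991) (l 565696127))) (b (a (a (b (l 574083711) (l 574245247)) (b (l 16864112) (l 16842472))) (a (l 16932432) (l 17265480))) (a (a (l 16903688) (l 16952448)) (a (l 16884384) (l 17302936)))))) (b (a (l 16994952) (l 16907448)) (l 17094576))) (b (l 17192128) (l 17193736))))))) (a (b (l 2) (b (b (a (l 2) (l 17330168)) (a (l 17198792) (l 17289608))) (b (a (l 17537248) (l 17399928)) (a (b (l 17177088) (l 17444240)) (b (l 17559832) (l 17893840)))))) (b (l 6) (l 6)))), by decide +kernel⟩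

theorem c_B04pp_023_s1 : CertF 0 536870912 0 1230186008 33554432 16777216 false true true .up 0 2 3
    ndF0q0 ndF4q3 pcF2 cut_B04pp_023_s1 xt_B04pp_023_s1 :=
  certFK2 (fam := false) (s1 := true) (s2 := true) (a := 0) (b := 2) (c := 3) (cn := .up) (n1 := ndF0q0) (n2 := ndF4q3) (pc := pcF2) (cut := cut_B04pp_023_s1) (xt := xt_B04pp_023_s1) (P1 := 0) (W1 := 536870912) (P2 := 0) (W2 := 1230186008) (P3 := 33554432) (W3 := 16777216)
    rfl rfl rfl (fun _ => rfl) k0_B04pp_023_s1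

theorem s_B04pp_023_s1 {κ x : ℝ} (hκ : κ * h0 = ken x) (hx : ((33554432 : ℕ) : ℝ) / S ≤ x)
    (hx' : x ≤ (((33554432 : ℕ) : ℝ) + (16777216 : ℕ)) / S) :
    AltB (VF κ) PP tKF tL pcF [⟨3, 0, 0, 1449551462⟩] 0 2 3 0 4 (sgb true) (sgb true) x :=
  strip_altB (m := 1449551462) true rfl hκ covF00 covF43 hx hx' c_B04pp_023_s1 cutB_nil ((okx hx hx').extB (T := tt) (sideF hx hx') hκ rfl rfl (.O 0 true) (.N 3 true) rfl)

noncomputable def cut_B04pp_033_s1 : Cut := Cut.of [[⟨4, 0, 0, 1449551462⟩]]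

noncomputable def f_B04pp_033_s1 : ℕ → ℕ → ℕ → ℕ → Bool := onCell 1610612736 536870912 0 1230186008 33554432 16777216
    (rowFK 2 false true true .pnn 0 3 3 (qsf 0 536870912 0 1230186008 3) ndF0q0 ndF4q3 pcF3 cut_B04pp_033_s1 Ext.none)

def k0_B04pp_033_s1 : ∃ t, chk3 f_B04pp_033_s1 t 1 1 1 = true :=
  ⟨(b (l 6) (l 6)), by decide +kernel⟩

theorem c_B04pp_033_s1 : CertF 0 536870912 0 1230186008 33554432 16777216 false true true .pnn 0 3 3
    ndF0q0 ndF4q3 pcF3 cut_B04pp_033_s1 Ext.none :=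
  certFK2 (fam := false) (s1 := true) (s2 := true) (a := 0) (b := 3) (c := 3) (cn := .pnn) (n1 := ndF0q0) (n2 := ndF4q3) (pc := pcF3) (cut := cut_B04pp_033_s1) (xt := Ext.none) (P1 := 0) (W1 := 536870912) (P2 := 0) (W2 := 1230186008) (P3 := 33554432) (W3 := 16777216)
    rfl rfl rfl (fun _ => rfl) k0_B04pp_033_s1

theorem s_B04pp_033_s1 {κ x : ℝ} (hκ : κ * h0 = ken x) (hx : ((33554432 : ℕ) : ℝ) / S ≤ x)
    (hx' : x ≤ (((33554432 : ℕ) : ℝ) + (16777216 : ℕ)) / S) :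
    AltB (VF κ) PP tKF tL pcF [⟨3, 0, 0, 1449551462⟩] 0 3 3 0 4 (sgb true) (sgb true) x :=
  strip_altB (m := 1449551462) true rfl hκ covF00 covF43 hx hx' c_B04pp_033_s1 cutB_nil (noExt_B)

noncomputable def cut_B04pp_101_s1 : Cut := Cut.of [[⟨4, 0, 0, 1449551462⟩]]

noncomputable def f_B04pp_101_s1 : ℕ → ℕ → ℕ → ℕ → Bool := onCell 536870912 536870912 536870912 536870912 33554432 16777216
    (rowFK 0 false true true .npn 1 0 1 (qsf 536870912 536870912 536870912 536870912 0) ndF0q1 ndF4q1 pcF0 cut_B04pp_101_s1 Ext.none)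

def k0_B04pp_101_s1 : ∃ t, chk3 f_B04pp_101_s1 t 1 1 1 = true :=
  ⟨(a (l 3) (l 5)), by decide +kernel⟩

theorem c_B04pp_101_s1 : CertF 536870912 536870912 536870912 536870912 33554432 16777216 false true true .npn 1 0 1
    ndF0q1 ndF4q1 pcF0 cut_B04pp_101_s1 Ext.none :=
  certFK0 (fam := false) (s1 := true) (s2 := true) (a := 1) (b := 0) (c := 1) (cn := .npn) (n1 := ndF0q1) (n2 := ndF4q1) (pc := pcF0) (cut := cut_B04pp_101_s1) (xt := Ext.none) (P1 := 536870912) (W1 := 536870912) (P2 := 536870912) (W2 := 536870912) (P3 := 33554432) (W3 := 16777216)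
    rfl rfl rfl k0_B04pp_101_s1

theorem s_B04pp_101_s1 {κ x : ℝ} (hκ : κ * h0 = ken x) (hx : ((33554432 : ℕ) : ℝ) / S ≤ x)
    (hx' : x ≤ (((33554432 : ℕ) : ℝ) + (16777216 : ℕ)) / S) :
    AltB (VF κ) PP tKF tL pcF [⟨3, 0, 0, 1449551462⟩] 1 0 1 0 4 (sgb true) (sgb true) x :=
  strip_altB (m := 1449551462) true rfl hκ covF01 covF41 hx hx' c_B04pp_101_s1 cutB_nil (noExt_B)

noncomputable def cut_B04pp_102_s1 : Cut := Cut.of [[⟨4, 0, 0, 1449551462⟩]]

noncomputable def f_B04pp_102_s1 : ℕ → ℕ → ℕ → ℕ → Bool := onCell 536870912 536870912 1073741824 536870912 33554432 16777216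
    (rowFK 0 false true true .npp 1 0 2 (qsf 536870912 536870912 1073741824 536870912 0) ndF0q1 ndF4q2 pcF0 cut_B04pp_102_s1 Ext.none)

def k0_B04pp_102_s1 : ∃ t, chk3 f_B04pp_102_s1 t 1 1 1 = true :=
  ⟨(a (l 3) (b (l 5) (l 3))), by decide +kernel⟩

theorem c_B04pp_102_s1 : CertF 536870912 536870912 1073741824 536870912 33554432 16777216 false true true .npp 1 0 2
    ndF0q1 ndF4q2 pcF0 cut_B04pp_102_s1 Ext.none :=
  certFK0 (fam := false) (s1 := true) (s2 := true) (a := 1) (b := 0) (c := 2) (cn := .npp) (n1 := ndF0q1) (n2 := ndF4q2) (pc := pcF0) (cut := cut_B04pp_102_s1) (xt := Ext.none) (P1 := 536870912) (W1 := 536870912) (P2 := 1073741824) (W2 := 536870912) (P3 := 33554432) (W3 := 16777216)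
    rfl rfl rfl k0_B04pp_102_s1

theorem s_B04pp_102_s1 {κ x : ℝ} (hκ : κ * h0 = ken x) (hx : ((33554432 : ℕ) : ℝ) / S ≤ x)
    (hx' : x ≤ (((33554432 : ℕ) : ℝ) + (16777216 : ℕ)) / S) :
    AltB (VF κ) PP tKF tL pcF [⟨3, 0, 0, 1449551462⟩] 1 0 2 0 4 (sgb true) (sgb true) x :=
  strip_altB (m := 1449551462) true rfl hκ covF01 covF42 hx hx' c_B04pp_102_s1 cutB_nil (noExt_B)

noncomputable def cut_B04pp_112_s1 : Cut := Cut.of [[⟨4, 0, 0, 1449551462⟩]]

noncomputable def f_B04pp_112_s1 : ℕ → ℕ → ℕ → ℕ → Bool := onCell 536870912 536870912 1073741824 536870912 33554432 16777216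
    (rowFK 0 false true true .dn 1 1 2 (qsf 536870912 536870912 1073741824 536870912 1) ndF0q1 ndF4q2 pcF1 cut_B04pp_112_s1 Ext.none)

def k0_B04pp_112_s1 : ∃ t, chk3 f_B04pp_112_s1 t 1 1 1 = true :=
  ⟨(a (l 3) (b (l 5) (l 3))), by decide +kernel⟩

theorem c_B04pp_112_s1 : CertF 536870912 536870912 1073741824 536870912 33554432 16777216 false true true .dn 1 1 2
    ndF0q1 ndF4q2 pcF1 cut_B04pp_112_s1 Ext.none :=
  certFK0 (fam := false) (s1 := true) (s2 := true) (a := 1) (b := 1) (c := 2) (cn := .dn) (n1 := ndF0q1) (n2 := ndF4q2) (pc := pcF1) (cut := cut_B04pp_112_s1) (xt := Ext.none) (P1 := 536870912) (W1 := 536870912) (P2 := 1073741824) (W2 := 536870912) (P3 := 33554432) (W3 := 16777216)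
    rfl rfl rfl k0_B04pp_112_s1

theorem s_B04pp_112_s1 {κ x : ℝ} (hκ : κ * h0 = ken x) (hx : ((33554432 : ℕ) : ℝ) / S ≤ x)
    (hx' : x ≤ (((33554432 : ℕ) : ℝ) + (16777216 : ℕ)) / S) :
    AltB (VF κ) PP tKF tL pcF [⟨3, 0, 0, 1449551462⟩] 1 1 2 0 4 (sgb true) (sgb true) x :=
  strip_altB (m := 1449551462) true rfl hκ covF01 covF42 hx hx' c_B04pp_112_s1 cutB_nil (noExt_B)

noncomputable def cut_B04pp_113_s1 : Cut := Cut.of [[⟨4, 0, 0, 1449551462⟩], [⟨0, 1, 0, 7061502⟩, ⟨1, 1, 0, 7061502⟩, ⟨2, 2, 0, 184626⟩]]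

noncomputable def f_B04pp_113_s1 : ℕ → ℕ → ℕ → ℕ → Bool := onCell 536870912 536870912 0 1230186008 33554432 16777216
    (rowFK 2 false true true .nn 1 1 3 (qsf 536870912 536870912 0 1230186008 1) ndF0q1 ndF4q3 pcF1 cut_B04pp_113_s1 Ext.none)

def k0_B04pp_113_s1 : ∃ t, chk3 f_B04pp_113_s1 t 1 1 1 = true :=
  ⟨(b (a (l 2) (a (l 2) (b (a (l 2) (b (a (l 2) (b (a (l 2) (b (a (l 2) (b (a (l 2) (l 14)) (l 3))) (l 3))) (l 3))) (l 3))) (l 3)))) (b (a (a (l 2) (b (l 2) (a (l 2) (l 3)))) (a (l 3) (l 3))) (a (a (b (l 2) (l 3)) (l 3)) (l 3)))), by decide +kernel⟩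

theorem c_B04pp_113_s1 : CertF 536870912 536870912 0 1230186008 33554432 16777216 false true true .nn 1 1 3
    ndF0q1 ndF4q3 pcF1 cut_B04pp_113_s1 Ext.none :=
  certFK2 (fam := false) (s1 := true) (s2 := true) (a := 1) (b := 1) (c := 3) (cn := .nn) (n1 := ndF0q1) (n2 := ndF4q3) (pc := pcF1) (cut := cut_B04pp_113_s1) (xt := Ext.none) (P1 := 536870912) (W1 := 536870912) (P2 := 0) (W2 := 1230186008) (P3 := 33554432) (W3 := 16777216)
    rfl rfl rfl (fun _ => rfl) k0_B04pp_113_s1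

theorem s_B04pp_113_s1 {κ x : ℝ} (hκ : κ * h0 = ken x) (hx : ((33554432 : ℕ) : ℝ) / S ≤ x)
    (hx' : x ≤ (((33554432 : ℕ) : ℝ) + (16777216 : ℕ)) / S)
    (H : CutB (VF κ) PP tKF tL pcF (Cut.of [[⟨0, 1, 0, 7061502⟩, ⟨1, 1, 0, 7061502⟩, ⟨2, 2, 0, 184626⟩]]) 1 1 3 0 4 (sgb true) (sgb true) x) :
    AltB (VF κ) PP tKF tL pcF [⟨3, 0, 0, 1449551462⟩] 1 1 3 0 4 (sgb true) (sgb true) x :=
  strip_altB (m := 1449551462) true rfl hκ covF01 covF43 hx hx' c_B04pp_113_s1 H (noExt_B)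

noncomputable def cut_B04pp_123_s1 : Cut := Cut.of [[⟨4, 0, 0, 1449551462⟩], [⟨0, 1, 0, 7061502⟩, ⟨1, 1, 0, 7061502⟩, ⟨2, 2, 0, 184626⟩]]

noncomputable def xt_B04pp_123_s1 : Ext := strExt dd false true true .u0 .s2 .u2 .npn 1 2 3 rfl rfl gf2 vv ndF0q1 ndF4q3

noncomputable def f_B04pp_123_s1 : ℕ → ℕ → ℕ → ℕ → Bool := onCell 1073741824 536870912 0 1230186008 33554432 16777216
    (rowFK 2 false true true .npn 1 2 3 (qsf 536870912 536870912 0 1230186008 2) ndF0q1 ndF4q3 pcF2 cut_B04pp_123_s1 xt_B04pp_123_s1)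

def k0_B04pp_123_s1 : ∃ t, chk3 f_B04pp_123_s1 t 4 1 1 = true :=
  ⟨(b (b (a (a (b (b (a (a (b (b (a (l 14) (a (l 14) (a (a (l 14) (l 16804408)) (l 16784840)))) (a (l 3) (a (l 3) (a (b (l 539804815) (l 3)) (l 539936143))))) (l 3)) (b (b (l 16872376) (a (b (a (b (l 16822064) (l 539872399)) (l 16783104)) (a (l 539877263) (l 539903119))) (b (l 16870160) (a (b (l 16781992) (l 539991439)) (l 16868216))))) (a (a (l 3) (l 3)) (b (a (l 540000399) (l 540117391)) (l 3))))) (b (l 16969024) (a (b (a (b (l 16866448) (l 540285071)) (l 16872160)) (a (l 540303247) (l 540608143))) (b (l 16795592) (a (b (l 16789888) (l 16805832)) (l 16795544)))))) (a (l 3) (b (a (a (l 3) (l 540653199)) (b (a (l 540937359) (b (l 16787624) (l 541206927))) (l 541035151))) (l 3)))) (l 3)) (b (b (l 17177664) (a (b (a (b (l 16884776) (a (l 541468047) (l 16790952))) (l 16887624)) (a (l 541649295) (b (a (l 542101647) (l 16797408)) (l 542389135))))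 (b (l 16833816) (a (l 16897808) (l 16825464))))) (b (a (a (l 3) (l 543048591)) (b (a (l 542910607) (b (l 16809624) (l 543424655))) (l 543624847))) (l 3)))) (b (a (l 17242688) (l 17022184)) (a (b (a (b (l 17021808) (a (l 544414095) (l 16830768))) (l 16958312)) (a (l 546967183) (b (l 17022560) (l 547882639)))) (b (l 16979896) (a (l 17068112) (l 16997736)))))) (a (l 3) (a (b (b (a (l 3) (l 548501535)) (l 3)) (l 3)) (a (b (b (l 552084255) (l 553413007)) (l 3)) (b (b (l 17125808) (l 556736799)) (b (l 559122975) (a (l 3) (l 563565855)))))))) (b (l 3) (b (l 3) (l 3)))), by decide +kernel⟩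

def k1_B04pp_123_s1 : ∃ t, chk3 f_B04pp_123_s1 t 5 2 1 = true :=
  ⟨(b (a (b (l 17213600) (l 17262880)) (l 17380024)) (a (a (a (b (b (l 17046272) (l 17163016)) (b (a (l 561613855) (l 17023640)) (a (l 565996319) (l 566721055)))) (b (a (l 17081592) (l 17106320)) (a (b (l 17000632) (l 17090848)) (a (l 17162120) (b (l 17450816) (l 17465616)))))) (b (l 17157536) (l 17261600))) (b (l 17119504) (l 17314992)))), by decide +kernel⟩

def k2_B04pp_123_s1 : ∃ t, chk3 f_B04pp_123_s1 t 5 3 1 = true :=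
  ⟨(b (a (a (a (a (l 3) (b (b (l 573399327) (l 3)) (l 3))) (a (b (b (a (b (l 571625359) (l 575939871)) (b (l 16878336) (l 570155151))) (a (b (l 580804895) (l 3)) (l 572229919))) (l 3)) (b (b (a (l 16964016) (b (l 17322448) (l 17283200))) (a (b (l 16889352) (a (l 566119823) (l 16834992))) (a (a (l 16882408) (l 16904560)) (l 16906528)))) (b (a (b (b (l 562382879) (l 561252639)) (a (l 3) (b (l 556819343) (l 3)))) (b (a (a (l 16810032) (l 16791352)) (l 16795024)) (a (a (b (l 548730143) (b (l 546227487) (l 548419919))) (a (l 549014415) (l 548784527))) (l 16828736)))) (a (l 3) (a (b (l 548856655) (l 549629775)) (a (a (b (l 548844335) (l 549615663)) (b (b (l 16782616) (l 16780816)) (b (l 16784752) (a (a (l 549818415) (l 16783736)) (l 16779184))))) (b (l 16784352) (l 549603423))))))))) (b (b (l 16983960) (l 17025912)) (a (b (a (l 16867968) (l 16829096)) (l 549131871)) (l 17195936)))) (b (l 17297800) (a (l 16951120)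 (l 17153624)))) (b (a (a (a (l 3) (a (l 3) (b (a (l 3) (b (a (l 3) (a (a (l 550482479) (b (b (l 16778488) (l 16778544)) (a (a (l 550710575) (l 16783976)) (l 16779456)))) (l 550469983))) (a (l 551472959) (a (a (l 551460911) (b (l 16780136) (l 16782088))) (l 16794648))))) (b (a (b (l 3) (b (l 3) (l 549085455))) (b (a (l 552290623) (l 16806952)) (a (a (l 552275983) (l 16793680)) (l 16789552)))) (b (a (a (l 3) (l 546788735)) (a (a (l 16791648) (l 16785232)) (l 16791096))) (l 1)))))) (a (b (l 550864735) (b (l 16908880) (l 16906424))) (l 17302272))) (b (l 17184960) (l 1))) (a (a (b (a (l 3) (l 1)) (l 1)) (l 1)) (l 1)))), by decide +kernel⟩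

def k3_B04pp_123_s1 : ∃ t, chk3 f_B04pp_123_s1 t 3 1 1 = true :=
  ⟨(a (b (b (l 6) (b (l 17734344) (a (l 17127184) (l 6)))) (b (b (a (l 17232576) (l 17330728)) (a (l 17283944) (l 17295272))) (l 1))) (b (l 6) (l 6))), by decide +kernel⟩

theorem t4_B04pp_123_s1 : ∃ t, chk3 f_B04pp_123_s1 t 5 1 1 = true := ex3_b k1_B04pp_123_s1 k2_B04pp_123_s1

theorem t5_B04pp_123_s1 : ∃ t, chk3 f_B04pp_123_s1 t 2 1 1 = true := ex3_a k0_B04pp_123_s1 t4_B04pp_123_s1

theorem t6_B04pp_123_s1 : ∃ t, chk3 f_B04pp_123_s1 t 1 1 1 = true := ex3_a t5_B04pp_123_s1 k3_B04pp_123_s1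

theorem c_B04pp_123_s1 : CertF 536870912 536870912 0 1230186008 33554432 16777216 false true true .npn 1 2 3
    ndF0q1 ndF4q3 pcF2 cut_B04pp_123_s1 xt_B04pp_123_s1 :=
  certFK2 (fam := false) (s1 := true) (s2 := true) (a := 1) (b := 2) (c := 3) (cn := .npn) (n1 := ndF0q1) (n2 := ndF4q3) (pc := pcF2) (cut := cut_B04pp_123_s1) (xt := xt_B04pp_123_s1) (P1 := 536870912) (W1 := 536870912) (P2 := 0) (W2 := 1230186008) (P3 := 33554432) (W3 := 16777216)
    rfl rfl rfl (fun _ => rfl) t6_B04pp_123_s1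

theorem s_B04pp_123_s1 {κ x : ℝ} (hκ : κ * h0 = ken x) (hx : ((33554432 : ℕ) : ℝ) / S ≤ x)
    (hx' : x ≤ (((33554432 : ℕ) : ℝ) + (16777216 : ℕ)) / S)
    (H : CutB (VF κ) PP tKF tL pcF (Cut.of [[⟨0, 1, 0, 7061502⟩, ⟨1, 1, 0, 7061502⟩, ⟨2, 2, 0, 184626⟩]]) 1 2 3 0 4 (sgb true) (sgb true) x) :
    AltB (VF κ) PP tKF tL pcF [⟨3, 0, 0, 1449551462⟩] 1 2 3 0 4 (sgb true) (sgb true) x :=
  strip_altB (m := 1449551462) true rfl hκ covF01 covF43 hx hx' c_B04pp_123_s1 H ((okx hx hx').extB (T := tt) (sideF hx hx') hκ rfl rfl (.O 1 true) (.N 3 true) rfl)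

noncomputable def cut_B04pp_133_s1 : Cut := Cut.of [[⟨4, 0, 0, 1449551462⟩]]

noncomputable def f_B04pp_133_s1 : ℕ → ℕ → ℕ → ℕ → Bool := onCell 1610612736 536870912 0 1230186008 33554432 16777216
    (rowFK 2 false true true .dn 1 3 3 (qsf 536870912 536870912 0 1230186008 3) ndF0q1 ndF4q3 pcF3 cut_B04pp_133_s1 Ext.none)

def k0_B04pp_133_s1 : ∃ t, chk3 f_B04pp_133_s1 t 1 1 1 = true :=
  ⟨(b (l 6) (l 1)), by decide +kernel⟩

theorem c_B04pp_133_s1 : CertF 536870912 536870912 0 1230186008 33554432 16777216 false true true .dn 1 3 3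
    ndF0q1 ndF4q3 pcF3 cut_B04pp_133_s1 Ext.none :=
  certFK2 (fam := false) (s1 := true) (s2 := true) (a := 1) (b := 3) (c := 3) (cn := .dn) (n1 := ndF0q1) (n2 := ndF4q3) (pc := pcF3) (cut := cut_B04pp_133_s1) (xt := Ext.none) (P1 := 536870912) (W1 := 536870912) (P2 := 0) (W2 := 1230186008) (P3 := 33554432) (W3 := 16777216)
    rfl rfl rfl (fun _ => rfl) k0_B04pp_133_s1

theorem s_B04pp_133_s1 {κ x : ℝ} (hκ : κ * h0 = ken x) (hx : ((33554432 : ℕ) : ℝ) / S ≤ x)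
    (hx' : x ≤ (((33554432 : ℕ) : ℝ) + (16777216 : ℕ)) / S) :
    AltB (VF κ) PP tKF tL pcF [⟨3, 0, 0, 1449551462⟩] 1 3 3 0 4 (sgb true) (sgb true) x :=
  strip_altB (m := 1449551462) true rfl hκ covF01 covF43 hx hx' c_B04pp_133_s1 cutB_nil (noExt_B)

noncomputable def cut_B04pp_202_s1 : Cut := Cut.of [[⟨4, 0, 0, 1449551462⟩]]

noncomputable def f_B04pp_202_s1 : ℕ → ℕ → ℕ → ℕ → Bool := onCell 0 536870912 1073741824 536870912 33554432 16777216
    (rowFK 0 false true true .pp 2 0 2 (qsf 0 536870912 1073741824 536870912 0) ndF0q2 ndF4q2 pcF0 cut_B04pp_202_s1 Ext.none)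

def k0_B04pp_202_s1 : ∃ t, chk3 f_B04pp_202_s1 t 1 1 1 = true :=
  ⟨(l 5), by decide +kernel⟩

theorem c_B04pp_202_s1 : CertF 0 536870912 1073741824 536870912 33554432 16777216 false true true .pp 2 0 2
    ndF0q2 ndF4q2 pcF0 cut_B04pp_202_s1 Ext.none :=
  certFK0 (fam := false) (s1 := true) (s2 := true) (a := 2) (b := 0) (c := 2) (cn := .pp) (n1 := ndF0q2) (n2 := ndF4q2) (pc := pcF0) (cut := cut_B04pp_202_s1) (xt := Ext.none) (P1 := 0) (W1 := 536870912) (P2 := 1073741824) (W2 := 536870912) (P3 := 33554432) (W3 := 16777216)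
    rfl rfl rfl k0_B04pp_202_s1

theorem s_B04pp_202_s1 {κ x : ℝ} (hκ : κ * h0 = ken x) (hx : ((33554432 : ℕ) : ℝ) / S ≤ x)
    (hx' : x ≤ (((33554432 : ℕ) : ℝ) + (16777216 : ℕ)) / S) :
    AltB (VF κ) PP tKF tL pcF [⟨3, 0, 0, 1449551462⟩] 2 0 2 0 4 (sgb true) (sgb true) x :=
  strip_altB (m := 1449551462) true rfl hκ covF02 covF42 hx hx' c_B04pp_202_s1 cutB_nil (noExt_B)

noncomputable def cut_B04pp_203_s1 : Cut := Cut.of [[⟨4, 0, 0, 1449551462⟩]]

noncomputable def f_B04pp_203_s1 : ℕ → ℕ → ℕ → ℕ → Bool := onCell 0 536870912 0 1230186008 33554432 16777216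
    (rowFK 0 false true true .up 2 0 3 (qsf 0 536870912 0 1230186008 0) ndF0q2 ndF4q3 pcF0 cut_B04pp_203_s1 Ext.none)

def k0_B04pp_203_s1 : ∃ t, chk3 f_B04pp_203_s1 t 1 1 1 = true :=
  ⟨(b (l 2) (b (l 2) (a (l 5) (l 3)))), by decide +kernel⟩

theorem c_B04pp_203_s1 : CertF 0 536870912 0 1230186008 33554432 16777216 false true true .up 2 0 3
    ndF0q2 ndF4q3 pcF0 cut_B04pp_203_s1 Ext.none :=
  certFK0 (fam := false) (s1 := true) (s2 := true) (a := 2) (b := 0) (c := 3) (cn := .up) (n1 := ndF0q2) (n2 := ndF4q3) (pc := pcF0) (cut := cut_B04pp_203_s1) (xt := Ext.none) (P1 := 0) (W1 := 536870912) (P2 := 0) (W2 := 1230186008) (P3 := 33554432) (W3 := 16777216)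
    rfl rfl rfl k0_B04pp_203_s1

theorem s_B04pp_203_s1 {κ x : ℝ} (hκ : κ * h0 = ken x) (hx : ((33554432 : ℕ) : ℝ) / S ≤ x)
    (hx' : x ≤ (((33554432 : ℕ) : ℝ) + (16777216 : ℕ)) / S) :
    AltB (VF κ) PP tKF tL pcF [⟨3, 0, 0, 1449551462⟩] 2 0 3 0 4 (sgb true) (sgb true) x :=
  strip_altB (m := 1449551462) true rfl hκ covF02 covF43 hx hx' c_B04pp_203_s1 cutB_nil (noExt_B)

noncomputable def cut_B04pp_213_s1 : Cut := Cut.of [[⟨4, 0, 0, 1449551462⟩], [⟨0, 1, 0, 7061502⟩, ⟨1, 1, 0, 7061502⟩, ⟨2, 2, 0, 184626⟩]]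

noncomputable def f_B04pp_213_s1 : ℕ → ℕ → ℕ → ℕ → Bool := onCell 0 536870912 0 1230186008 33554432 16777216
    (rowFK 0 false true true .pnn 2 1 3 (qsf 0 536870912 0 1230186008 1) ndF0q2 ndF4q3 pcF1 cut_B04pp_213_s1 Ext.none)

def k0_B04pp_213_s1 : ∃ t, chk3 f_B04pp_213_s1 t 1 1 1 = true :=
  ⟨(a (b (l 3) (l 5)) (b (b (a (l 3) (b (a (l 3) (b (a (l 3) (b (a (l 3) (b (a (l 3) (l 14)) (l 3))) (l 3))) (l 3))) (l 3))) (l 3)) (b (l 3) (l 3)))), by decide +kernel⟩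

theorem c_B04pp_213_s1 : CertF 0 536870912 0 1230186008 33554432 16777216 false true true .pnn 2 1 3
    ndF0q2 ndF4q3 pcF1 cut_B04pp_213_s1 Ext.none :=
  certFK0 (fam := false) (s1 := true) (s2 := true) (a := 2) (b := 1) (c := 3) (cn := .pnn) (n1 := ndF0q2) (n2 := ndF4q3) (pc := pcF1) (cut := cut_B04pp_213_s1) (xt := Ext.none) (P1 := 0) (W1 := 536870912) (P2 := 0) (W2 := 1230186008) (P3 := 33554432) (W3 := 16777216)
    rfl rfl rfl k0_B04pp_213_s1

theorem s_B04pp_213_s1 {κ x : ℝ} (hκ : κ * h0 = ken x) (hx : ((33554432 : ℕ) : ℝ) / S ≤ x)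
    (hx' : x ≤ (((33554432 : ℕ) : ℝ) + (16777216 : ℕ)) / S)
    (H : CutB (VF κ) PP tKF tL pcF (Cut.of [[⟨0, 1, 0, 7061502⟩, ⟨1, 1, 0, 7061502⟩, ⟨2, 2, 0, 184626⟩]]) 2 1 3 0 4 (sgb true) (sgb true) x) :
    AltB (VF κ) PP tKF tL pcF [⟨3, 0, 0, 1449551462⟩] 2 1 3 0 4 (sgb true) (sgb true) x :=
  strip_altB (m := 1449551462) true rfl hκ covF02 covF43 hx hx' c_B04pp_213_s1 H (noExt_B)

noncomputable def cut_B04pm_001_s1 : Cut := Cut.of [[⟨4, 0, 0, 1449551462⟩]]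

noncomputable def f_B04pm_001_s1 : ℕ → ℕ → ℕ → ℕ → Bool := onCell 0 536870912 536870912 536870912 33554432 16777216
    (rowFK 0 false true false .up 0 0 1 (qsf 0 536870912 536870912 536870912 0) ndF0q0 ndF4q1 pcF0 cut_B04pm_001_s1 Ext.none)

def k0_B04pm_001_s1 : ∃ t, chk3 f_B04pm_001_s1 t 1 1 1 = true :=
  ⟨(l 4), by decide +kernel⟩

theorem c_B04pm_001_s1 : CertF 0 536870912 536870912 536870912 33554432 16777216 false true false .up 0 0 1
    ndF0q0 ndF4q1 pcF0 cut_B04pm_001_s1 Ext.none :=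
  certFK0 (fam := false) (s1 := true) (s2 := false) (a := 0) (b := 0) (c := 1) (cn := .up) (n1 := ndF0q0) (n2 := ndF4q1) (pc := pcF0) (cut := cut_B04pm_001_s1) (xt := Ext.none) (P1 := 0) (W1 := 536870912) (P2 := 536870912) (W2 := 536870912) (P3 := 33554432) (W3 := 16777216)
    rfl rfl rfl k0_B04pm_001_s1

theorem s_B04pm_001_s1 {κ x : ℝ} (hκ : κ * h0 = ken x) (hx : ((33554432 : ℕ) : ℝ) / S ≤ x)
    (hx' : x ≤ (((33554432 : ℕ) : ℝ) + (16777216 : ℕ)) / S) :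
    AltB (VF κ) PP tKF tL pcF [⟨3, 0, 0, 1449551462⟩] 0 0 1 0 4 (sgb true) (sgb false) x :=
  strip_altB (m := 1449551462) true rfl hκ covF00 covF41 hx hx' c_B04pm_001_s1 cutB_nil (noExt_B)

noncomputable def cut_B04pm_011_s1 : Cut := Cut.of [[⟨4, 0, 0, 1449551462⟩]]

noncomputable def f_B04pm_011_s1 : ℕ → ℕ → ℕ → ℕ → Bool := onCell 0 536870912 536870912 536870912 33554432 16777216
    (rowFK 0 false true false .pnn 0 1 1 (qsf 0 536870912 536870912 536870912 1) ndF0q0 ndF4q1 pcF1 cut_B04pm_011_s1 Ext.none)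

def k0_B04pm_011_s1 : ∃ t, chk3 f_B04pm_011_s1 t 1 1 1 = true :=
  ⟨(l 4), by decide +kernel⟩

theorem c_B04pm_011_s1 : CertF 0 536870912 536870912 536870912 33554432 16777216 false true false .pnn 0 1 1
    ndF0q0 ndF4q1 pcF1 cut_B04pm_011_s1 Ext.none :=
  certFK0 (fam := false) (s1 := true) (s2 := false) (a := 0) (b := 1) (c := 1) (cn := .pnn) (n1 := ndF0q0) (n2 := ndF4q1) (pc := pcF1) (cut := cut_B04pm_011_s1) (xt := Ext.none) (P1 := 0) (W1 := 536870912) (P2 := 536870912) (W2 := 536870912) (P3 := 33554432) (W3 := 16777216)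
    rfl rfl rfl k0_B04pm_011_s1

theorem s_B04pm_011_s1 {κ x : ℝ} (hκ : κ * h0 = ken x) (hx : ((33554432 : ℕ) : ℝ) / S ≤ x)
    (hx' : x ≤ (((33554432 : ℕ) : ℝ) + (16777216 : ℕ)) / S) :
    AltB (VF κ) PP tKF tL pcF [⟨3, 0, 0, 1449551462⟩] 0 1 1 0 4 (sgb true) (sgb false) x :=
  strip_altB (m := 1449551462) true rfl hκ covF00 covF41 hx hx' c_B04pm_011_s1 cutB_nil (noExt_B)

noncomputable def cut_B04pm_012_s1 : Cut := Cut.of [[⟨4, 0, 0, 1449551462⟩]]

noncomputable def f_B04pm_012_s1 : ℕ → ℕ → ℕ → ℕ → Bool := onCell 0 536870912 1073741824 536870912 33554432 16777216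
    (rowFK 0 false true false .pnp 0 1 2 (qsf 0 536870912 1073741824 536870912 1) ndF0q0 ndF4q2 pcF1 cut_B04pm_012_s1 Ext.none)

def k0_B04pm_012_s1 : ∃ t, chk3 f_B04pm_012_s1 t 1 1 1 = true :=
  ⟨(l 4), by decide +kernel⟩

theorem c_B04pm_012_s1 : CertF 0 536870912 1073741824 536870912 33554432 16777216 false true false .pnp 0 1 2
    ndF0q0 ndF4q2 pcF1 cut_B04pm_012_s1 Ext.none :=
  certFK0 (fam := false) (s1 := true) (s2 := false) (a := 0) (b := 1) (c := 2) (cn := .pnp) (n1 := ndF0q0) (n2 := ndF4q2) (pc := pcF1) (cut := cut_B04pm_012_s1) (xt := Ext.none) (P1 := 0) (W1 := 536870912) (P2 := 1073741824) (W2 := 536870912) (P3 := 33554432) (W3 := 16777216)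
    rfl rfl rfl k0_B04pm_012_s1

theorem s_B04pm_012_s1 {κ x : ℝ} (hκ : κ * h0 = ken x) (hx : ((33554432 : ℕ) : ℝ) / S ≤ x)
    (hx' : x ≤ (((33554432 : ℕ) : ℝ) + (16777216 : ℕ)) / S) :
    AltB (VF κ) PP tKF tL pcF [⟨3, 0, 0, 1449551462⟩] 0 1 2 0 4 (sgb true) (sgb false) x :=
  strip_altB (m := 1449551462) true rfl hκ covF00 covF42 hx hx' c_B04pm_012_s1 cutB_nil (noExt_B)

noncomputable def cut_B04pm_022_s1 : Cut := Cut.of [[⟨4, 0, 0, 1449551462⟩]]

noncomputable def f_B04pm_022_s1 : ℕ → ℕ → ℕ → ℕ → Bool := onCell 0 536870912 1073741824 536870912 33554432 16777216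
    (rowFK 0 false true false .pp 0 2 2 (qsf 0 536870912 1073741824 536870912 2) ndF0q0 ndF4q2 pcF2 cut_B04pm_022_s1 Ext.none)

def k0_B04pm_022_s1 : ∃ t, chk3 f_B04pm_022_s1 t 1 1 1 = true :=
  ⟨(l 4), by decide +kernel⟩

theorem c_B04pm_022_s1 : CertF 0 536870912 1073741824 536870912 33554432 16777216 false true false .pp 0 2 2
    ndF0q0 ndF4q2 pcF2 cut_B04pm_022_s1 Ext.none :=
  certFK0 (fam := false) (s1 := true) (s2 := false) (a := 0) (b := 2) (c := 2) (cn := .pp) (n1 := ndF0q0) (n2 := ndF4q2) (pc := pcF2) (cut := cut_B04pm_022_s1) (xt := Ext.none) (P1 := 0) (W1 := 536870912) (P2 := 1073741824) (W2 := 536870912) (P3 := 33554432) (W3 := 16777216)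
    rfl rfl rfl k0_B04pm_022_s1

theorem s_B04pm_022_s1 {κ x : ℝ} (hκ : κ * h0 = ken x) (hx : ((33554432 : ℕ) : ℝ) / S ≤ x)
    (hx' : x ≤ (((33554432 : ℕ) : ℝ) + (16777216 : ℕ)) / S) :
    AltB (VF κ) PP tKF tL pcF [⟨3, 0, 0, 1449551462⟩] 0 2 2 0 4 (sgb true) (sgb false) x :=
  strip_altB (m := 1449551462) true rfl hκ covF00 covF42 hx hx' c_B04pm_022_s1 cutB_nil (noExt_B)

noncomputable def cut_B04pm_023_s1 : Cut := Cut.of [[⟨4, 0, 0, 1449551462⟩]]

noncomputable def f_B04pm_023_s1 : ℕ → ℕ → ℕ → ℕ → Bool := onCell 0 536870912 0 1230186008 33554432 16777216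
    (rowFK 0 false true false .up 0 2 3 (qsf 0 536870912 0 1230186008 2) ndF0q0 ndF4q3 pcF2 cut_B04pm_023_s1 Ext.none)

def k0_B04pm_023_s1 : ∃ t, chk3 f_B04pm_023_s1 t 1 1 1 = true :=
  ⟨(l 6), by decide +kernel⟩

theorem c_B04pm_023_s1 : CertF 0 536870912 0 1230186008 33554432 16777216 false true false .up 0 2 3
    ndF0q0 ndF4q3 pcF2 cut_B04pm_023_s1 Ext.none :=
  certFK0 (fam := false) (s1 := true) (s2 := false) (a := 0) (b := 2) (c := 3) (cn := .up) (n1 := ndF0q0) (n2 := ndF4q3) (pc := pcF2) (cut := cut_B04pm_023_s1) (xt := Ext.none) (P1 := 0) (W1 := 536870912) (P2 := 0) (W2 := 1230186008) (P3 := 33554432) (W3 := 16777216)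
    rfl rfl rfl k0_B04pm_023_s1

theorem s_B04pm_023_s1 {κ x : ℝ} (hκ : κ * h0 = ken x) (hx : ((33554432 : ℕ) : ℝ) / S ≤ x)
    (hx' : x ≤ (((33554432 : ℕ) : ℝ) + (16777216 : ℕ)) / S) :
    AltB (VF κ) PP tKF tL pcF [⟨3, 0, 0, 1449551462⟩] 0 2 3 0 4 (sgb true) (sgb false) x :=
  strip_altB (m := 1449551462) true rfl hκ covF00 covF43 hx hx' c_B04pm_023_s1 cutB_nil (noExt_B)

noncomputable def cut_B04pm_033_s1 : Cut := Cut.of [[⟨4, 0, 0, 1449551462⟩]]

noncomputable def f_B04pm_033_s1 : ℕ → ℕ → ℕ → ℕ → Bool := onCell 0 536870912 0 1230186008 33554432 16777216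
    (rowFK 0 false true false .pnn 0 3 3 (qsf 0 536870912 0 1230186008 3) ndF0q0 ndF4q3 pcF3 cut_B04pm_033_s1 Ext.none)

def k0_B04pm_033_s1 : ∃ t, chk3 f_B04pm_033_s1 t 1 1 1 = true :=
  ⟨(l 6), by decide +kernel⟩

theorem c_B04pm_033_s1 : CertF 0 536870912 0 1230186008 33554432 16777216 false true false .pnn 0 3 3
    ndF0q0 ndF4q3 pcF3 cut_B04pm_033_s1 Ext.none :=
  certFK0 (fam := false) (s1 := true) (s2 := false) (a := 0) (b := 3) (c := 3) (cn := .pnn) (n1 := ndF0q0) (n2 := ndF4q3) (pc := pcF3) (cut := cut_B04pm_033_s1) (xt := Ext.none) (P1 := 0) (W1 := 536870912) (P2 := 0) (W2 := 1230186008) (P3 := 33554432) (W3 := 16777216)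
    rfl rfl rfl k0_B04pm_033_s1

theorem s_B04pm_033_s1 {κ x : ℝ} (hκ : κ * h0 = ken x) (hx : ((33554432 : ℕ) : ℝ) / S ≤ x)
    (hx' : x ≤ (((33554432 : ℕ) : ℝ) + (16777216 : ℕ)) / S) :
    AltB (VF κ) PP tKF tL pcF [⟨3, 0, 0, 1449551462⟩] 0 3 3 0 4 (sgb true) (sgb false) x :=
  strip_altB (m := 1449551462) true rfl hκ covF00 covF43 hx hx' c_B04pm_033_s1 cutB_nil (noExt_B)

noncomputable def cut_B04pm_101_s1 : Cut := Cut.of [[⟨4, 0, 0, 1449551462⟩]]

noncomputable def f_B04pm_101_s1 : ℕ → ℕ → ℕ → ℕ → Bool := onCell 536870912 536870912 536870912 536870912 33554432 16777216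
    (rowFK 0 false true false .npn 1 0 1 (qsf 536870912 536870912 536870912 536870912 0) ndF0q1 ndF4q1 pcF0 cut_B04pm_101_s1 Ext.none)

def k0_B04pm_101_s1 : ∃ t, chk3 f_B04pm_101_s1 t 1 1 1 = true :=
  ⟨(l 4), by decide +kernel⟩

theorem c_B04pm_101_s1 : CertF 536870912 536870912 536870912 536870912 33554432 16777216 false true false .npn 1 0 1
    ndF0q1 ndF4q1 pcF0 cut_B04pm_101_s1 Ext.none :=
  certFK0 (fam := false) (s1 := true) (s2 := false) (a := 1) (b := 0) (c := 1) (cn := .npn) (n1 := ndF0q1) (n2 := ndF4q1) (pc := pcF0) (cut := cut_B04pm_101_s1) (xt := Ext.none) (P1 := 536870912) (W1 := 536870912) (P2 := 536870912) (W2 := 536870912) (P3 := 33554432) (W3 := 16777216)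
    rfl rfl rfl k0_B04pm_101_s1

theorem s_B04pm_101_s1 {κ x : ℝ} (hκ : κ * h0 = ken x) (hx : ((33554432 : ℕ) : ℝ) / S ≤ x)
    (hx' : x ≤ (((33554432 : ℕ) : ℝ) + (16777216 : ℕ)) / S) :
    AltB (VF κ) PP tKF tL pcF [⟨3, 0, 0, 1449551462⟩] 1 0 1 0 4 (sgb true) (sgb false) x :=
  strip_altB (m := 1449551462) true rfl hκ covF01 covF41 hx hx' c_B04pm_101_s1 cutB_nil (noExt_B)

noncomputable def cut_B04pm_102_s1 : Cut := Cut.of [[⟨4, 0, 0, 1449551462⟩]]

noncomputable def f_B04pm_102_s1 : ℕ → ℕ → ℕ → ℕ → Bool := onCell 536870912 536870912 1073741824 536870912 33554432 16777216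
    (rowFK 0 false true false .npp 1 0 2 (qsf 536870912 536870912 1073741824 536870912 0) ndF0q1 ndF4q2 pcF0 cut_B04pm_102_s1 Ext.none)

def k0_B04pm_102_s1 : ∃ t, chk3 f_B04pm_102_s1 t 1 1 1 = true :=
  ⟨(l 6), by decide +kernel⟩

theorem c_B04pm_102_s1 : CertF 536870912 536870912 1073741824 536870912 33554432 16777216 false true false .npp 1 0 2
    ndF0q1 ndF4q2 pcF0 cut_B04pm_102_s1 Ext.none :=
  certFK0 (fam := false) (s1 := true) (s2 := false) (a := 1) (b := 0) (c := 2) (cn := .npp) (n1 := ndF0q1) (n2 := ndF4q2) (pc := pcF0) (cut := cut_B04pm_102_s1) (xt := Ext.none) (P1 := 536870912) (W1 := 536870912) (P2 := 1073741824) (W2 := 536870912) (P3 := 33554432) (W3 := 16777216)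
    rfl rfl rfl k0_B04pm_102_s1

theorem s_B04pm_102_s1 {κ x : ℝ} (hκ : κ * h0 = ken x) (hx : ((33554432 : ℕ) : ℝ) / S ≤ x)
    (hx' : x ≤ (((33554432 : ℕ) : ℝ) + (16777216 : ℕ)) / S) :
    AltB (VF κ) PP tKF tL pcF [⟨3, 0, 0, 1449551462⟩] 1 0 2 0 4 (sgb true) (sgb false) x :=
  strip_altB (m := 1449551462) true rfl hκ covF01 covF42 hx hx' c_B04pm_102_s1 cutB_nil (noExt_B)

noncomputable def cut_B04pm_112_s1 : Cut := Cut.of [[⟨4, 0, 0, 1449551462⟩]]

noncomputable def f_B04pm_112_s1 : ℕ → ℕ → ℕ → ℕ → Bool := onCell 536870912 536870912 1073741824 536870912 33554432 16777216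
    (rowFK 0 false true false .dn 1 1 2 (qsf 536870912 536870912 1073741824 536870912 1) ndF0q1 ndF4q2 pcF1 cut_B04pm_112_s1 Ext.none)

def k0_B04pm_112_s1 : ∃ t, chk3 f_B04pm_112_s1 t 1 1 1 = true :=
  ⟨(l 6), by decide +kernel⟩

theorem c_B04pm_112_s1 : CertF 536870912 536870912 1073741824 536870912 33554432 16777216 false true false .dn 1 1 2
    ndF0q1 ndF4q2 pcF1 cut_B04pm_112_s1 Ext.none :=
  certFK0 (fam := false) (s1 := true) (s2 := false) (a := 1) (b := 1) (c := 2) (cn := .dn) (n1 := ndF0q1) (n2 := ndF4q2) (pc := pcF1) (cut := cut_B04pm_112_s1) (xt := Ext.none) (P1 := 536870912) (W1 := 536870912) (P2 := 1073741824) (W2 := 536870912) (P3 := 33554432) (W3 := 16777216)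
    rfl rfl rfl k0_B04pm_112_s1

theorem s_B04pm_112_s1 {κ x : ℝ} (hκ : κ * h0 = ken x) (hx : ((33554432 : ℕ) : ℝ) / S ≤ x)
    (hx' : x ≤ (((33554432 : ℕ) : ℝ) + (16777216 : ℕ)) / S) :
    AltB (VF κ) PP tKF tL pcF [⟨3, 0, 0, 1449551462⟩] 1 1 2 0 4 (sgb true) (sgb false) x :=
  strip_altB (m := 1449551462) true rfl hκ covF01 covF42 hx hx' c_B04pm_112_s1 cutB_nil (noExt_B)

noncomputable def cut_B04pm_113_s1 : Cut := Cut.of [[⟨4, 0, 0, 1449551462⟩], [⟨0, 1, 0, 7061502⟩, ⟨1, 1, 0, 7061502⟩, ⟨2, 2, 0, 184626⟩]]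

noncomputable def f_B04pm_113_s1 : ℕ → ℕ → ℕ → ℕ → Bool := onCell 536870912 536870912 0 1230186008 33554432 16777216
    (rowFK 0 false true false .nn 1 1 3 (qsf 536870912 536870912 0 1230186008 1) ndF0q1 ndF4q3 pcF1 cut_B04pm_113_s1 Ext.none)

def k0_B04pm_113_s1 : ∃ t, chk3 f_B04pm_113_s1 t 1 1 1 = true :=
  ⟨(b (a (l 2) (a (l 2) (b (a (l 2) (b (a (l 2) (b (a (l 2) (b (a (l 2) (b (a (l 2) (l 14)) (l 16782160))) (l 16787784))) (l 16802792))) (l 16941624))) (b (a (l 6) (a (l 6) (l 16952432))) (l 6))))) (b (l 6) (l 6))), by decide +kernel⟩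

theorem c_B04pm_113_s1 : CertF 536870912 536870912 0 1230186008 33554432 16777216 false true false .nn 1 1 3
    ndF0q1 ndF4q3 pcF1 cut_B04pm_113_s1 Ext.none :=
  certFK0 (fam := false) (s1 := true) (s2 := false) (a := 1) (b := 1) (c := 3) (cn := .nn) (n1 := ndF0q1) (n2 := ndF4q3) (pc := pcF1) (cut := cut_B04pm_113_s1) (xt := Ext.none) (P1 := 536870912) (W1 := 536870912) (P2 := 0) (W2 := 1230186008) (P3 := 33554432) (W3 := 16777216)
    rfl rfl rfl k0_B04pm_113_s1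

theorem s_B04pm_113_s1 {κ x : ℝ} (hκ : κ * h0 = ken x) (hx : ((33554432 : ℕ) : ℝ) / S ≤ x)
    (hx' : x ≤ (((33554432 : ℕ) : ℝ) + (16777216 : ℕ)) / S)
    (H : CutB (VF κ) PP tKF tL pcF (Cut.of [[⟨0, 1, 0, 7061502⟩, ⟨1, 1, 0, 7061502⟩, ⟨2, 2, 0, 184626⟩]]) 1 1 3 0 4 (sgb true) (sgb false) x) :
    AltB (VF κ) PP tKF tL pcF [⟨3, 0, 0, 1449551462⟩] 1 1 3 0 4 (sgb true) (sgb false) x :=
  strip_altB (m := 1449551462) true rfl hκ covF01 covF43 hx hx' c_B04pm_113_s1 H (noExt_B)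

noncomputable def cut_B04pm_123_s1 : Cut := Cut.of [[⟨4, 0, 0, 1449551462⟩], [⟨0, 1, 0, 7061502⟩, ⟨1, 1, 0, 7061502⟩, ⟨2, 2, 0, 184626⟩]]

noncomputable def f_B04pm_123_s1 : ℕ → ℕ → ℕ → ℕ → Bool := onCell 1073741824 536870912 0 1230186008 33554432 16777216
    (rowFK 2 false true false .npn 1 2 3 (qsf 536870912 536870912 0 1230186008 2) ndF0q1 ndF4q3 pcF2 cut_B04pm_123_s1 Ext.none)

def k0_B04pm_123_s1 : ∃ t, chk3 f_B04pm_123_s1 t 1 1 1 = true :=
  ⟨(b (a (b (a (a (a (a (a (b (b (b (b (a (l 14) (l 16789632)) (l 16796408)) (l 16812376)) (l 16851168)) (l 16964808)) (b (l 16921984) (l 16980664))) (b (l 16858608) (l 17004768))) (b (l 16902384) (l 17056784))) (b (l 17043792) (l 6))) (a (l 17404584) (l 6))) (b (l 6) (l 6))) (l 6)) (l 6)), by decide +kernel⟩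

theorem c_B04pm_123_s1 : CertF 536870912 536870912 0 1230186008 33554432 16777216 false true false .npn 1 2 3
    ndF0q1 ndF4q3 pcF2 cut_B04pm_123_s1 Ext.none :=
  certFK2 (fam := false) (s1 := true) (s2 := false) (a := 1) (b := 2) (c := 3) (cn := .npn) (n1 := ndF0q1) (n2 := ndF4q3) (pc := pcF2) (cut := cut_B04pm_123_s1) (xt := Ext.none) (P1 := 536870912) (W1 := 536870912) (P2 := 0) (W2 := 1230186008) (P3 := 33554432) (W3 := 16777216)
    rfl rfl rfl (fun _ => rfl) k0_B04pm_123_s1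

theorem s_B04pm_123_s1 {κ x : ℝ} (hκ : κ * h0 = ken x) (hx : ((33554432 : ℕ) : ℝ) / S ≤ x)
    (hx' : x ≤ (((33554432 : ℕ) : ℝ) + (16777216 : ℕ)) / S)
    (H : CutB (VF κ) PP tKF tL pcF (Cut.of [[⟨0, 1, 0, 7061502⟩, ⟨1, 1, 0, 7061502⟩, ⟨2, 2, 0, 184626⟩]]) 1 2 3 0 4 (sgb true) (sgb false) x) :
    AltB (VF κ) PP tKF tL pcF [⟨3, 0, 0, 1449551462⟩] 1 2 3 0 4 (sgb true) (sgb false) x :=
  strip_altB (m := 1449551462) true rfl hκ covF01 covF43 hx hx' c_B04pm_123_s1 H (noExt_B)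

noncomputable def cut_B04pm_133_s1 : Cut := Cut.of [[⟨4, 0, 0, 1449551462⟩]]

noncomputable def f_B04pm_133_s1 : ℕ → ℕ → ℕ → ℕ → Bool := onCell 1610612736 536870912 0 1230186008 33554432 16777216
    (rowFK 2 false true false .dn 1 3 3 (qsf 536870912 536870912 0 1230186008 3) ndF0q1 ndF4q3 pcF3 cut_B04pm_133_s1 Ext.none)

def k0_B04pm_133_s1 : ∃ t, chk3 f_B04pm_133_s1 t 1 1 1 = true :=
  ⟨(l 6), by decide +kernel⟩

theorem c_B04pm_133_s1 : CertF 536870912 536870912 0 1230186008 33554432 16777216 false true false .dn 1 3 3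
    ndF0q1 ndF4q3 pcF3 cut_B04pm_133_s1 Ext.none :=
  certFK2 (fam := false) (s1 := true) (s2 := false) (a := 1) (b := 3) (c := 3) (cn := .dn) (n1 := ndF0q1) (n2 := ndF4q3) (pc := pcF3) (cut := cut_B04pm_133_s1) (xt := Ext.none) (P1 := 536870912) (W1 := 536870912) (P2 := 0) (W2 := 1230186008) (P3 := 33554432) (W3 := 16777216)
    rfl rfl rfl (fun _ => rfl) k0_B04pm_133_s1

theorem s_B04pm_133_s1 {κ x : ℝ} (hκ : κ * h0 = ken x) (hx : ((33554432 : ℕ) : ℝ) / S ≤ x)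
    (hx' : x ≤ (((33554432 : ℕ) : ℝ) + (16777216 : ℕ)) / S) :
    AltB (VF κ) PP tKF tL pcF [⟨3, 0, 0, 1449551462⟩] 1 3 3 0 4 (sgb true) (sgb false) x :=
  strip_altB (m := 1449551462) true rfl hκ covF01 covF43 hx hx' c_B04pm_133_s1 cutB_nil (noExt_B)

noncomputable def cut_B04pm_202_s1 : Cut := Cut.of [[⟨4, 0, 0, 1449551462⟩]]

noncomputable def f_B04pm_202_s1 : ℕ → ℕ → ℕ → ℕ → Bool := onCell 0 536870912 1073741824 536870912 33554432 16777216
    (rowFK 0 false true false .pp 2 0 2 (qsf 0 536870912 1073741824 536870912 0) ndF0q2 ndF4q2 pcF0 cut_B04pm_202_s1 Ext.none)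

def k0_B04pm_202_s1 : ∃ t, chk3 f_B04pm_202_s1 t 1 1 1 = true :=
  ⟨(a (b (l 6) (b (l 6) (l 6))) (l 6)), by decide +kernel⟩

theorem c_B04pm_202_s1 : CertF 0 536870912 1073741824 536870912 33554432 16777216 false true false .pp 2 0 2
    ndF0q2 ndF4q2 pcF0 cut_B04pm_202_s1 Ext.none :=
  certFK0 (fam := false) (s1 := true) (s2 := false) (a := 2) (b := 0) (c := 2) (cn := .pp) (n1 := ndF0q2) (n2 := ndF4q2) (pc := pcF0) (cut := cut_B04pm_202_s1) (xt := Ext.none) (P1 := 0) (W1 := 536870912) (P2 := 1073741824) (W2 := 536870912) (P3 := 33554432) (W3 := 16777216)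
    rfl rfl rfl k0_B04pm_202_s1

theorem s_B04pm_202_s1 {κ x : ℝ} (hκ : κ * h0 = ken x) (hx : ((33554432 : ℕ) : ℝ) / S ≤ x)
    (hx' : x ≤ (((33554432 : ℕ) : ℝ) + (16777216 : ℕ)) / S) :
    AltB (VF κ) PP tKF tL pcF [⟨3, 0, 0, 1449551462⟩] 2 0 2 0 4 (sgb true) (sgb false) x :=
  strip_altB (m := 1449551462) true rfl hκ covF02 covF42 hx hx' c_B04pm_202_s1 cutB_nil (noExt_B)

noncomputable def cut_B04pm_203_s1 : Cut := Cut.of [[⟨4, 0, 0, 1449551462⟩]]

noncomputable def f_B04pm_203_s1 : ℕ → ℕ → ℕ → ℕ → Bool := onCell 0 536870912 0 1230186008 33554432 16777216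
    (rowFK 0 false true false .up 2 0 3 (qsf 0 536870912 0 1230186008 0) ndF0q2 ndF4q3 pcF0 cut_B04pm_203_s1 Ext.none)

def k0_B04pm_203_s1 : ∃ t, chk3 f_B04pm_203_s1 t 1 1 1 = true :=
  ⟨(b (l 2) (b (l 2) (a (b (b (l 2) (a (l 17532000) (l 17842632))) (a (b (l 17647536) (l 18070856)) (l 6))) (l 6)))), by decide +kernel⟩

theorem c_B04pm_203_s1 : CertF 0 536870912 0 1230186008 33554432 16777216 false true false .up 2 0 3
    ndF0q2 ndF4q3 pcF0 cut_B04pm_203_s1 Ext.none :=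
  certFK0 (fam := false) (s1 := true) (s2 := false) (a := 2) (b := 0) (c := 3) (cn := .up) (n1 := ndF0q2) (n2 := ndF4q3) (pc := pcF0) (cut := cut_B04pm_203_s1) (xt := Ext.none) (P1 := 0) (W1 := 536870912) (P2 := 0) (W2 := 1230186008) (P3 := 33554432) (W3 := 16777216)
    rfl rfl rfl k0_B04pm_203_s1

theorem s_B04pm_203_s1 {κ x : ℝ} (hκ : κ * h0 = ken x) (hx : ((33554432 : ℕ) : ℝ) / S ≤ x)
    (hx' : x ≤ (((33554432 : ℕ) : ℝ) + (16777216 : ℕ)) / S) :
    AltB (VF κ) PP tKF tL pcF [⟨3, 0, 0, 1449551462⟩] 2 0 3 0 4 (sgb true) (sgb false) x :=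
  strip_altB (m := 1449551462) true rfl hκ covF02 covF43 hx hx' c_B04pm_203_s1 cutB_nil (noExt_B)

noncomputable def cut_B04pm_213_s1 : Cut := Cut.of [[⟨4, 0, 0, 1449551462⟩], [⟨0, 1, 0, 7061502⟩, ⟨1, 1, 0, 7061502⟩, ⟨2, 2, 0, 184626⟩]]

noncomputable def xt_B04pm_213_s1 : Ext := strExt dd false true false .u2 .s2m .u0m .pnn 2 1 3 rfl rfl gf1 vv ndF0q2 ndF4q3

noncomputable def f_B04pm_213_s1 : ℕ → ℕ → ℕ → ℕ → Bool := onCell 0 536870912 0 1230186008 33554432 16777216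
    (rowFK 0 false true false .pnn 2 1 3 (qsf 0 536870912 0 1230186008 1) ndF0q2 ndF4q3 pcF1 cut_B04pm_213_s1 xt_B04pm_213_s1)

def k0_B04pm_213_s1 : ∃ t, chk3 f_B04pm_213_s1 t 1 1 1 = true :=
  ⟨(b (b (a (l 3) (a (b (l 3) (a (l 3) (a (l 3) (l 538672399)))) (b (a (b (l 3) (a (l 3) (a (l 3) (l 537662223)))) (b (a (a (l 3) (a (l 3) (l 537154063))) (a (a (a (l 537130511) (l 537099023)) (a (l 537070607) (a (l 537080591) (l 537076239)))) (b (a (a (a (l 536933391) (l 536950799)) (a (a (l 536944399) (l 536949775)) (a (l 536954127) (l 536957711)))) (b (l 14) (l 16777888))) (l 16778560)))) (a (a (l 537529871) (a (l 537466127) (l 537376527))) (l 16864976)))) (a (a (l 539638287) (b (a (l 538104079) (l 538001167)) (l 16806288))) (b (a (l 16791072) (l 16794464)) (l 16822304)))))) (a (a (l 3) (b (l 3) (a (b (l 3) (l 548381967)) (b (l 544471311) (l 544817167))))) (a (b (a (b (l 540630799) (l 541654031)) (a (l 541646095)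 (b (l 539821327) (l 16855560)))) (a (b (l 542396943) (l 16922208)) (l 17119400))) (b (a (l 17203112) (l 16994568)) (a (l 17036440) (l 17208120)))))) (b (b (a (a (b (l 3) (a (l 3) (l 545217551))) (a (b (l 546476303) (l 546050831)) (b (l 544866831) (l 17030512)))) (a (a (l 17250944) (l 17154264)) (l 6))) (b (a (a (a (l 544568591) (l 544843279)) (l 17593896)) (a (l 17362352) (l 6))) (a (a (l 546516751) (l 17269096)) (l 6)))) (a (a (b (b (a (l 547095567) (l 17144696)) (a (l 17153208) (l 17409640))) (l 1)) (b (b (l 17501176) (l 17748800)) (l 6))) (l 6)))), by decide +kernel⟩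

theorem c_B04pm_213_s1 : CertF 0 536870912 0 1230186008 33554432 16777216 false true false .pnn 2 1 3
    ndF0q2 ndF4q3 pcF1 cut_B04pm_213_s1 xt_B04pm_213_s1 :=
  certFK0 (fam := false) (s1 := true) (s2 := false) (a := 2) (b := 1) (c := 3) (cn := .pnn) (n1 := ndF0q2) (n2 := ndF4q3) (pc := pcF1) (cut := cut_B04pm_213_s1) (xt := xt_B04pm_213_s1) (P1 := 0) (W1 := 536870912) (P2 := 0) (W2 := 1230186008) (P3 := 33554432) (W3 := 16777216)
    rfl rfl rfl k0_B04pm_213_s1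

theorem s_B04pm_213_s1 {κ x : ℝ} (hκ : κ * h0 = ken x) (hx : ((33554432 : ℕ) : ℝ) / S ≤ x)
    (hx' : x ≤ (((33554432 : ℕ) : ℝ) + (16777216 : ℕ)) / S)
    (H : CutB (VF κ) PP tKF tL pcF (Cut.of [[⟨0, 1, 0, 7061502⟩, ⟨1, 1, 0, 7061502⟩, ⟨2, 2, 0, 184626⟩]]) 2 1 3 0 4 (sgb true) (sgb false) x) :
    AltB (VF κ) PP tKF tL pcF [⟨3, 0, 0, 1449551462⟩] 2 1 3 0 4 (sgb true) (sgb false) x :=
  strip_altB (m := 1449551462) true rfl hκ covF02 covF43 hx hx' c_B04pm_213_s1 H ((okx hx hx').extB (T := tt) (sideF hx hx') hκ rfl rfl (.O 2 true) (.N 3 false) (Or.inr rfl))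

noncomputable def cut_B04mm_001_s1 : Cut := Cut.of [[⟨4, 0, 0, 1449551462⟩]]

noncomputable def f_B04mm_001_s1 : ℕ → ℕ → ℕ → ℕ → Bool := onCell 0 536870912 0 536870912 33554432 16777216
    (rowFK 1 false false false .up 0 0 1 (qsf 0 536870912 536870912 536870912 0) ndF0q0 ndF4q1 pcF0 cut_B04mm_001_s1 Ext.none)

def k0_B04mm_001_s1 : ∃ t, chk3 f_B04mm_001_s1 t 1 1 1 = true :=
  ⟨(l 3), by decide +kernel⟩

theorem c_B04mm_001_s1 : CertF 0 536870912 536870912 536870912 33554432 16777216 false false false .up 0 0 1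
    ndF0q0 ndF4q1 pcF0 cut_B04mm_001_s1 Ext.none :=
  certFK1 (fam := false) (s1 := false) (s2 := false) (a := 0) (b := 0) (c := 1) (cn := .up) (n1 := ndF0q0) (n2 := ndF4q1) (pc := pcF0) (cut := cut_B04mm_001_s1) (xt := Ext.none) (P1 := 0) (W1 := 536870912) (P2 := 536870912) (W2 := 536870912) (P3 := 33554432) (W3 := 16777216)
    rfl rfl rfl (fun _ => rfl) k0_B04mm_001_s1

theorem s_B04mm_001_s1 {κ x : ℝ} (hκ : κ * h0 = ken x) (hx : ((33554432 : ℕ) : ℝ) / S ≤ x)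
    (hx' : x ≤ (((33554432 : ℕ) : ℝ) + (16777216 : ℕ)) / S) :
    AltB (VF κ) PP tKF tL pcF [⟨3, 0, 0, 1449551462⟩] 0 0 1 0 4 (sgb false) (sgb false) x :=
  strip_altB (m := 1449551462) true rfl hκ covF00 covF41 hx hx' c_B04mm_001_s1 cutB_nil (noExt_B)

noncomputable def cut_B04mm_011_s1 : Cut := Cut.of [[⟨4, 0, 0, 1449551462⟩]]

noncomputable def f_B04mm_011_s1 : ℕ → ℕ → ℕ → ℕ → Bool := onCell 0 536870912 536870912 536870912 33554432 16777216
    (rowFK 1 false false false .pnn 0 1 1 (qsf 0 536870912 536870912 536870912 1) ndF0q0 ndF4q1 pcF1 cut_B04mm_011_s1 Ext.none)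

def k0_B04mm_011_s1 : ∃ t, chk3 f_B04mm_011_s1 t 1 1 1 = true :=
  ⟨(l 5), by decide +kernel⟩

theorem c_B04mm_011_s1 : CertF 0 536870912 536870912 536870912 33554432 16777216 false false false .pnn 0 1 1
    ndF0q0 ndF4q1 pcF1 cut_B04mm_011_s1 Ext.none :=
  certFK1 (fam := false) (s1 := false) (s2 := false) (a := 0) (b := 1) (c := 1) (cn := .pnn) (n1 := ndF0q0) (n2 := ndF4q1) (pc := pcF1) (cut := cut_B04mm_011_s1) (xt := Ext.none) (P1 := 0) (W1 := 536870912) (P2 := 536870912) (W2 := 536870912) (P3 := 33554432) (W3 := 16777216)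
    rfl rfl rfl (fun _ => rfl) k0_B04mm_011_s1

theorem s_B04mm_011_s1 {κ x : ℝ} (hκ : κ * h0 = ken x) (hx : ((33554432 : ℕ) : ℝ) / S ≤ x)
    (hx' : x ≤ (((33554432 : ℕ) : ℝ) + (16777216 : ℕ)) / S) :
    AltB (VF κ) PP tKF tL pcF [⟨3, 0, 0, 1449551462⟩] 0 1 1 0 4 (sgb false) (sgb false) x :=
  strip_altB (m := 1449551462) true rfl hκ covF00 covF41 hx hx' c_B04mm_011_s1 cutB_nil (noExt_B)

noncomputable def cut_B04mm_012_s1 : Cut := Cut.of [[⟨4, 0, 0, 1449551462⟩]]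

noncomputable def f_B04mm_012_s1 : ℕ → ℕ → ℕ → ℕ → Bool := onCell 0 536870912 1073741824 536870912 33554432 16777216
    (rowFK 0 false false false .pnp 0 1 2 (qsf 0 536870912 1073741824 536870912 1) ndF0q0 ndF4q2 pcF1 cut_B04mm_012_s1 Ext.none)

def k0_B04mm_012_s1 : ∃ t, chk3 f_B04mm_012_s1 t 1 1 1 = true :=
  ⟨(l 5), by decide +kernel⟩

theorem c_B04mm_012_s1 : CertF 0 536870912 1073741824 536870912 33554432 16777216 false false false .pnp 0 1 2
    ndF0q0 ndF4q2 pcF1 cut_B04mm_012_s1 Ext.none :=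
  certFK0 (fam := false) (s1 := false) (s2 := false) (a := 0) (b := 1) (c := 2) (cn := .pnp) (n1 := ndF0q0) (n2 := ndF4q2) (pc := pcF1) (cut := cut_B04mm_012_s1) (xt := Ext.none) (P1 := 0) (W1 := 536870912) (P2 := 1073741824) (W2 := 536870912) (P3 := 33554432) (W3 := 16777216)
    rfl rfl rfl k0_B04mm_012_s1

theorem s_B04mm_012_s1 {κ x : ℝ} (hκ : κ * h0 = ken x) (hx : ((33554432 : ℕ) : ℝ) / S ≤ x)
    (hx' : x ≤ (((33554432 : ℕ) : ℝ) + (16777216 : ℕ)) / S) :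
    AltB (VF κ) PP tKF tL pcF [⟨3, 0, 0, 1449551462⟩] 0 1 2 0 4 (sgb false) (sgb false) x :=
  strip_altB (m := 1449551462) true rfl hκ covF00 covF42 hx hx' c_B04mm_012_s1 cutB_nil (noExt_B)

noncomputable def cut_B04mm_022_s1 : Cut := Cut.of [[⟨4, 0, 0, 1449551462⟩]]

noncomputable def f_B04mm_022_s1 : ℕ → ℕ → ℕ → ℕ → Bool := onCell 0 536870912 1073741824 536870912 33554432 16777216
    (rowFK 0 false false false .pp 0 2 2 (qsf 0 536870912 1073741824 536870912 2) ndF0q0 ndF4q2 pcF2 cut_B04mm_022_s1 Ext.none)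

def k0_B04mm_022_s1 : ∃ t, chk3 f_B04mm_022_s1 t 1 1 1 = true :=
  ⟨(l 5), by decide +kernel⟩

theorem c_B04mm_022_s1 : CertF 0 536870912 1073741824 536870912 33554432 16777216 false false false .pp 0 2 2
    ndF0q0 ndF4q2 pcF2 cut_B04mm_022_s1 Ext.none :=
  certFK0 (fam := false) (s1 := false) (s2 := false) (a := 0) (b := 2) (c := 2) (cn := .pp) (n1 := ndF0q0) (n2 := ndF4q2) (pc := pcF2) (cut := cut_B04mm_022_s1) (xt := Ext.none) (P1 := 0) (W1 := 536870912) (P2 := 1073741824) (W2 := 536870912) (P3 := 33554432) (W3 := 16777216)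
    rfl rfl rfl k0_B04mm_022_s1

theorem s_B04mm_022_s1 {κ x : ℝ} (hκ : κ * h0 = ken x) (hx : ((33554432 : ℕ) : ℝ) / S ≤ x)
    (hx' : x ≤ (((33554432 : ℕ) : ℝ) + (16777216 : ℕ)) / S) :
    AltB (VF κ) PP tKF tL pcF [⟨3, 0, 0, 1449551462⟩] 0 2 2 0 4 (sgb false) (sgb false) x :=
  strip_altB (m := 1449551462) true rfl hκ covF00 covF42 hx hx' c_B04mm_022_s1 cutB_nil (noExt_B)

noncomputable def cut_B04mm_023_s1 : Cut := Cut.of [[⟨4, 0, 0, 1449551462⟩]]

noncomputable def f_B04mm_023_s1 : ℕ → ℕ → ℕ → ℕ → Bool := onCell 0 536870912 0 1230186008 33554432 16777216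
    (rowFK 0 false false false .up 0 2 3 (qsf 0 536870912 0 1230186008 2) ndF0q0 ndF4q3 pcF2 cut_B04mm_023_s1 Ext.none)

def k0_B04mm_023_s1 : ∃ t, chk3 f_B04mm_023_s1 t 1 1 1 = true :=
  ⟨(l 5), by decide +kernel⟩

theorem c_B04mm_023_s1 : CertF 0 536870912 0 1230186008 33554432 16777216 false false false .up 0 2 3
    ndF0q0 ndF4q3 pcF2 cut_B04mm_023_s1 Ext.none :=
  certFK0 (fam := false) (s1 := false) (s2 := false) (a := 0) (b := 2) (c := 3) (cn := .up) (n1 := ndF0q0) (n2 := ndF4q3) (pc := pcF2) (cut := cut_B04mm_023_s1) (xt := Ext.none) (P1 := 0) (W1 := 536870912) (P2 := 0) (W2 := 1230186008) (P3 := 33554432) (W3 := 16777216)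
    rfl rfl rfl k0_B04mm_023_s1

theorem s_B04mm_023_s1 {κ x : ℝ} (hκ : κ * h0 = ken x) (hx : ((33554432 : ℕ) : ℝ) / S ≤ x)
    (hx' : x ≤ (((33554432 : ℕ) : ℝ) + (16777216 : ℕ)) / S) :
    AltB (VF κ) PP tKF tL pcF [⟨3, 0, 0, 1449551462⟩] 0 2 3 0 4 (sgb false) (sgb false) x :=
  strip_altB (m := 1449551462) true rfl hκ covF00 covF43 hx hx' c_B04mm_023_s1 cutB_nil (noExt_B)

noncomputable def cut_B04mm_033_s1 : Cut := Cut.of [[⟨4, 0, 0, 1449551462⟩]]

noncomputable def f_B04mm_033_s1 : ℕ → ℕ → ℕ → ℕ → Bool := onCell 0 536870912 0 1230186008 33554432 16777216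
    (rowFK 0 false false false .pnn 0 3 3 (qsf 0 536870912 0 1230186008 3) ndF0q0 ndF4q3 pcF3 cut_B04mm_033_s1 Ext.none)

def k0_B04mm_033_s1 : ∃ t, chk3 f_B04mm_033_s1 t 1 1 1 = true :=
  ⟨(l 5), by decide +kernel⟩

theorem c_B04mm_033_s1 : CertF 0 536870912 0 1230186008 33554432 16777216 false false false .pnn 0 3 3
    ndF0q0 ndF4q3 pcF3 cut_B04mm_033_s1 Ext.none :=
  certFK0 (fam := false) (s1 := false) (s2 := false) (a := 0) (b := 3) (c := 3) (cn := .pnn) (n1 := ndF0q0) (n2 := ndF4q3) (pc := pcF3) (cut := cut_B04mm_033_s1) (xt := Ext.none) (P1 := 0) (W1 := 536870912) (P2 := 0) (W2 := 1230186008) (P3 := 33554432) (W3 := 16777216)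
    rfl rfl rfl k0_B04mm_033_s1

theorem s_B04mm_033_s1 {κ x : ℝ} (hκ : κ * h0 = ken x) (hx : ((33554432 : ℕ) : ℝ) / S ≤ x)
    (hx' : x ≤ (((33554432 : ℕ) : ℝ) + (16777216 : ℕ)) / S) :
    AltB (VF κ) PP tKF tL pcF [⟨3, 0, 0, 1449551462⟩] 0 3 3 0 4 (sgb false) (sgb false) x :=
  strip_altB (m := 1449551462) true rfl hκ covF00 covF43 hx hx' c_B04mm_033_s1 cutB_nil (noExt_B)

noncomputable def cut_B04mm_101_s1 : Cut := Cut.of [[⟨4, 0, 0, 1449551462⟩], [⟨0, 1, 0, 33554432⟩, ⟨1, 0, 0, 33554432⟩, ⟨2, 1, 0, 33554432⟩]]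

noncomputable def f_B04mm_101_s1 : ℕ → ℕ → ℕ → ℕ → Bool := onCell 536870912 536870912 0 536870912 33554432 16777216
    (rowFK 1 false false false .npn 1 0 1 (qsf 536870912 536870912 536870912 536870912 0) ndF0q1 ndF4q1 pcF0 cut_B04mm_101_s1 Ext.none)

def k0_B04mm_101_s1 : ∃ t, chk3 f_B04mm_101_s1 t 1 1 1 = true :=
  ⟨(a (l 3) (b (a (l 3) (b (b (a (l 3) (a (l 3) (b (a (l 3) (b (l 14) (l 3))) (l 3)))) (l 3)) (l 3))) (l 3))), by decide +kernel⟩

theorem c_B04mm_101_s1 : CertF 536870912 536870912 536870912 536870912 33554432 16777216 false false false .npn 1 0 1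
    ndF0q1 ndF4q1 pcF0 cut_B04mm_101_s1 Ext.none :=
  certFK1 (fam := false) (s1 := false) (s2 := false) (a := 1) (b := 0) (c := 1) (cn := .npn) (n1 := ndF0q1) (n2 := ndF4q1) (pc := pcF0) (cut := cut_B04mm_101_s1) (xt := Ext.none) (P1 := 536870912) (W1 := 536870912) (P2 := 536870912) (W2 := 536870912) (P3 := 33554432) (W3 := 16777216)
    rfl rfl rfl (fun _ => rfl) k0_B04mm_101_s1

theorem s_B04mm_101_s1 {κ x : ℝ} (hκ : κ * h0 = ken x) (hx : ((33554432 : ℕ) : ℝ) / S ≤ x)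
    (hx' : x ≤ (((33554432 : ℕ) : ℝ) + (16777216 : ℕ)) / S)
    (H : CutB (VF κ) PP tKF tL pcF (Cut.of [[⟨0, 1, 0, 33554432⟩, ⟨1, 0, 0, 33554432⟩, ⟨2, 1, 0, 33554432⟩]]) 1 0 1 0 4 (sgb false) (sgb false) x) :
    AltB (VF κ) PP tKF tL pcF [⟨3, 0, 0, 1449551462⟩] 1 0 1 0 4 (sgb false) (sgb false) x :=
  strip_altB (m := 1449551462) true rfl hκ covF01 covF41 hx hx' c_B04mm_101_s1 H (noExt_B)

noncomputable def cut_B04mm_102_s1 : Cut := Cut.of [[⟨4, 0, 0, 1449551462⟩], [⟨0, 1, 0, 33554432⟩, ⟨1, 0, 0, 33554432⟩, ⟨2, 1, 0, 33554432⟩]]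

noncomputable def f_B04mm_102_s1 : ℕ → ℕ → ℕ → ℕ → Bool := onCell 536870912 536870912 0 536870912 33554432 16777216
    (rowFK 1 false false false .npp 1 0 2 (qsf 536870912 536870912 1073741824 536870912 0) ndF0q1 ndF4q2 pcF0 cut_B04mm_102_s1 Ext.none)

def k0_B04mm_102_s1 : ∃ t, chk3 f_B04mm_102_s1 t 1 1 1 = true :=
  ⟨(b (a (l 3) (a (l 3) (b (b (a (l 3) (a (l 3) (b (a (l 3) (b (l 14) (l 3))) (l 3)))) (l 3)) (l 3)))) (l 3)), by decide +kernel⟩

theorem c_B04mm_102_s1 : CertF 536870912 536870912 1073741824 536870912 33554432 16777216 false false false .npp 1 0 2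
    ndF0q1 ndF4q2 pcF0 cut_B04mm_102_s1 Ext.none :=
  certFK1 (fam := false) (s1 := false) (s2 := false) (a := 1) (b := 0) (c := 2) (cn := .npp) (n1 := ndF0q1) (n2 := ndF4q2) (pc := pcF0) (cut := cut_B04mm_102_s1) (xt := Ext.none) (P1 := 536870912) (W1 := 536870912) (P2 := 1073741824) (W2 := 536870912) (P3 := 33554432) (W3 := 16777216)
    rfl rfl rfl (fun _ => rfl) k0_B04mm_102_s1

theorem s_B04mm_102_s1 {κ x : ℝ} (hκ : κ * h0 = ken x) (hx : ((33554432 : ℕ) : ℝ) / S ≤ x)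
    (hx' : x ≤ (((33554432 : ℕ) : ℝ) + (16777216 : ℕ)) / S)
    (H : CutB (VF κ) PP tKF tL pcF (Cut.of [[⟨0, 1, 0, 33554432⟩, ⟨1, 0, 0, 33554432⟩, ⟨2, 1, 0, 33554432⟩]]) 1 0 2 0 4 (sgb false) (sgb false) x) :
    AltB (VF κ) PP tKF tL pcF [⟨3, 0, 0, 1449551462⟩] 1 0 2 0 4 (sgb false) (sgb false) x :=
  strip_altB (m := 1449551462) true rfl hκ covF01 covF42 hx hx' c_B04mm_102_s1 H (noExt_B)

noncomputable def cut_B04mm_112_s1 : Cut := Cut.of [[⟨4, 0, 0, 1449551462⟩]]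

noncomputable def f_B04mm_112_s1 : ℕ → ℕ → ℕ → ℕ → Bool := onCell 536870912 536870912 1073741824 536870912 33554432 16777216
    (rowFK 2 false false false .dn 1 1 2 (qsf 536870912 536870912 1073741824 536870912 1) ndF0q1 ndF4q2 pcF1 cut_B04mm_112_s1 Ext.none)

def k0_B04mm_112_s1 : ∃ t, chk3 f_B04mm_112_s1 t 1 1 1 = true :=
  ⟨(a (l 3) (l 5)), by decide +kernel⟩

theorem c_B04mm_112_s1 : CertF 536870912 536870912 1073741824 536870912 33554432 16777216 false false false .dn 1 1 2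
    ndF0q1 ndF4q2 pcF1 cut_B04mm_112_s1 Ext.none :=
  certFK2 (fam := false) (s1 := false) (s2 := false) (a := 1) (b := 1) (c := 2) (cn := .dn) (n1 := ndF0q1) (n2 := ndF4q2) (pc := pcF1) (cut := cut_B04mm_112_s1) (xt := Ext.none) (P1 := 536870912) (W1 := 536870912) (P2 := 1073741824) (W2 := 536870912) (P3 := 33554432) (W3 := 16777216)
    rfl rfl rfl (fun _ => rfl) k0_B04mm_112_s1

theorem s_B04mm_112_s1 {κ x : ℝ} (hκ : κ * h0 = ken x) (hx : ((33554432 : ℕ) : ℝ) / S ≤ x)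
    (hx' : x ≤ (((33554432 : ℕ) : ℝ) + (16777216 : ℕ)) / S) :
    AltB (VF κ) PP tKF tL pcF [⟨3, 0, 0, 1449551462⟩] 1 1 2 0 4 (sgb false) (sgb false) x :=
  strip_altB (m := 1449551462) true rfl hκ covF01 covF42 hx hx' c_B04mm_112_s1 cutB_nil (noExt_B)

noncomputable def cut_B04mm_113_s1 : Cut := Cut.of [[⟨4, 0, 0, 1449551462⟩]]

noncomputable def f_B04mm_113_s1 : ℕ → ℕ → ℕ → ℕ → Bool := onCell 536870912 536870912 0 1230186008 33554432 16777216
    (rowFK 0 false false false .nn 1 1 3 (qsf 536870912 536870912 0 1230186008 1) ndF0q1 ndF4q3 pcF1 cut_B04mm_113_s1 Ext.none)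

def k0_B04mm_113_s1 : ∃ t, chk3 f_B04mm_113_s1 t 1 1 1 = true :=
  ⟨(a (l 5) (b (l 5) (a (b (l 5) (l 3)) (l 3)))), by decide +kernel⟩

theorem c_B04mm_113_s1 : CertF 536870912 536870912 0 1230186008 33554432 16777216 false false false .nn 1 1 3
    ndF0q1 ndF4q3 pcF1 cut_B04mm_113_s1 Ext.none :=
  certFK0 (fam := false) (s1 := false) (s2 := false) (a := 1) (b := 1) (c := 3) (cn := .nn) (n1 := ndF0q1) (n2 := ndF4q3) (pc := pcF1) (cut := cut_B04mm_113_s1) (xt := Ext.none) (P1 := 536870912) (W1 := 536870912) (P2 := 0) (W2 := 1230186008) (P3 := 33554432) (W3 := 16777216)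
    rfl rfl rfl k0_B04mm_113_s1

theorem s_B04mm_113_s1 {κ x : ℝ} (hκ : κ * h0 = ken x) (hx : ((33554432 : ℕ) : ℝ) / S ≤ x)
    (hx' : x ≤ (((33554432 : ℕ) : ℝ) + (16777216 : ℕ)) / S) :
    AltB (VF κ) PP tKF tL pcF [⟨3, 0, 0, 1449551462⟩] 1 1 3 0 4 (sgb false) (sgb false) x :=
  strip_altB (m := 1449551462) true rfl hκ covF01 covF43 hx hx' c_B04mm_113_s1 cutB_nil (noExt_B)

noncomputable def cut_B04mm_123_s1 : Cut := Cut.of [[⟨4, 0, 0, 1449551462⟩]]

noncomputable def f_B04mm_123_s1 : ℕ → ℕ → ℕ → ℕ → Bool := onCell 1073741824 536870912 0 1230186008 33554432 16777216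
    (rowFK 2 false false false .npn 1 2 3 (qsf 536870912 536870912 0 1230186008 2) ndF0q1 ndF4q3 pcF2 cut_B04mm_123_s1 Ext.none)

def k0_B04mm_123_s1 : ∃ t, chk3 f_B04mm_123_s1 t 1 1 1 = true :=
  ⟨(b (l 5) (l 5)), by decide +kernel⟩

theorem c_B04mm_123_s1 : CertF 536870912 536870912 0 1230186008 33554432 16777216 false false false .npn 1 2 3
    ndF0q1 ndF4q3 pcF2 cut_B04mm_123_s1 Ext.none :=
  certFK2 (fam := false) (s1 := false) (s2 := false) (a := 1) (b := 2) (c := 3) (cn := .npn) (n1 := ndF0q1) (n2 := ndF4q3) (pc := pcF2) (cut := cut_B04mm_123_s1) (xt := Ext.none) (P1 := 536870912) (W1 := 536870912) (P2 := 0) (W2 := 1230186008) (P3 := 33554432) (W3 := 16777216)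
    rfl rfl rfl (fun _ => rfl) k0_B04mm_123_s1

theorem s_B04mm_123_s1 {κ x : ℝ} (hκ : κ * h0 = ken x) (hx : ((33554432 : ℕ) : ℝ) / S ≤ x)
    (hx' : x ≤ (((33554432 : ℕ) : ℝ) + (16777216 : ℕ)) / S) :
    AltB (VF κ) PP tKF tL pcF [⟨3, 0, 0, 1449551462⟩] 1 2 3 0 4 (sgb false) (sgb false) x :=
  strip_altB (m := 1449551462) true rfl hκ covF01 covF43 hx hx' c_B04mm_123_s1 cutB_nil (noExt_B)

noncomputable def cut_B04mm_133_s1 : Cut := Cut.of [[⟨4, 0, 0, 1449551462⟩]]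

noncomputable def f_B04mm_133_s1 : ℕ → ℕ → ℕ → ℕ → Bool := onCell 1610612736 536870912 0 1230186008 33554432 16777216
    (rowFK 2 false false false .dn 1 3 3 (qsf 536870912 536870912 0 1230186008 3) ndF0q1 ndF4q3 pcF3 cut_B04mm_133_s1 Ext.none)

def k0_B04mm_133_s1 : ∃ t, chk3 f_B04mm_133_s1 t 1 1 1 = true :=
  ⟨(l 5), by decide +kernel⟩

theorem c_B04mm_133_s1 : CertF 536870912 536870912 0 1230186008 33554432 16777216 false false false .dn 1 3 3
    ndF0q1 ndF4q3 pcF3 cut_B04mm_133_s1 Ext.none :=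
  certFK2 (fam := false) (s1 := false) (s2 := false) (a := 1) (b := 3) (c := 3) (cn := .dn) (n1 := ndF0q1) (n2 := ndF4q3) (pc := pcF3) (cut := cut_B04mm_133_s1) (xt := Ext.none) (P1 := 536870912) (W1 := 536870912) (P2 := 0) (W2 := 1230186008) (P3 := 33554432) (W3 := 16777216)
    rfl rfl rfl (fun _ => rfl) k0_B04mm_133_s1

theorem s_B04mm_133_s1 {κ x : ℝ} (hκ : κ * h0 = ken x) (hx : ((33554432 : ℕ) : ℝ) / S ≤ x)
    (hx' : x ≤ (((33554432 : ℕ) : ℝ) + (16777216 : ℕ)) / S) :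
    AltB (VF κ) PP tKF tL pcF [⟨3, 0, 0, 1449551462⟩] 1 3 3 0 4 (sgb false) (sgb false) x :=
  strip_altB (m := 1449551462) true rfl hκ covF01 covF43 hx hx' c_B04mm_133_s1 cutB_nil (noExt_B)

noncomputable def cut_B04mm_202_s1 : Cut := Cut.of [[⟨4, 0, 0, 1449551462⟩], [⟨0, 1, 0, 16777216⟩, ⟨1, 0, 0, 16777216⟩, ⟨2, 1, 0, 16777216⟩]]

noncomputable def xt_B04mm_202_s1 : Ext := strExt dd false false false .u2 .s2m .u0m .pp 2 0 2 rfl rfl gf0 vv ndF0q2 ndF4q2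

noncomputable def f_B04mm_202_s1 : ℕ → ℕ → ℕ → ℕ → Bool := onCell 0 536870912 0 536870912 33554432 16777216
    (rowFK 1 false false false .pp 2 0 2 (qsf 0 536870912 1073741824 536870912 0) ndF0q2 ndF4q2 pcF0 cut_B04mm_202_s1 xt_B04mm_202_s1)

def k0_B04mm_202_s1 : ∃ t, chk3 f_B04mm_202_s1 t 2 2 1 = true :=
  ⟨(b (a (l 6) (a (a (l 6) (b (l 6) (l 6))) (b (c (b (l 6) (l 18281016)) (l 18776328)) (b (l 18191680) (l 18271160))))) (a (b (l 6) (a (l 6) (l 17955128))) (b (a (l 18143040) (l 18073392)) (a (l 17864432) (b (l 17777944) (l 17534464)))))), by decide +kernel⟩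

def k1_B04mm_202_s1 : ∃ t, chk3 f_B04mm_202_s1 t 6 4 1 = true :=
  ⟨(b (b (a (c (l 18668424) (l 18440480)) (a (l 18565544) (b (l 18077776) (l 18139880)))) (a (a (l 18253568) (l 18246080)) (a (l 18211872) (l 18069024)))) (a (b (l 18236968) (l 18209552)) (a (b (l 18165712) (l 17718464)) (b (l 17751704) (l 17665888))))), by decide +kernel⟩

def k2_B04mm_202_s1 : ∃ t, chk3 f_B04mm_202_s1 t 7 4 1 = true :=
  ⟨(b (a (b (a (b (l 17936880) (l 17970592)) (b (b (l 17717544) (l 17534864)) (a (l 17768824) (b (l 17547504) (l 17556024))))) (a (b (l 18336104) (l 17734768)) (a (b (l 17655448) (l 17454184)) (b (l 17434880) (l 17063008))))) (b (a (a (b (b (l 17319416) (l 17127856)) (b (l 17430952) (l 17283520))) (b (a (b (l 17169560) (l 17016000)) (b (b (l 17080584) (l 17005264)) (b (l 16927528) (l 16847720)))) (b (a (l 17009832) (l 16841792)) (a (l 17067280) (l 16929472))))) (b (a (b (a (b (a (l 17049560) (l 17029352))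 (l 16964320)) (b (a (l 16988568) (b (l 14) (l 16887696))) (a (l 16935552) (l 16843704)))) (a (b (l 16841144) (l 16857304)) (a (b (l 16855608) (l 16778120)) (b (l 16859304) (l 16777872))))) (b (a (b (l 14) (a (b (l 16851392) (l 16858872)) (l 14))) (l 14)) (a (a (b (b (l 16777480) (l 16777536)) (a (l 16777640) (l 537357839))) (a (a (l 537517839) (l 538336015)) (a (b (l 537199375) (l 537424399)) (a (l 537564687) (l 537572111))))) (b (a (a (b (l 14) (a (l 537220367) (l 3))) (l 3)) (l 3)) (l 3))))) (a (a (b (b (l 16779128) (l 16779240)) (l 565958415)) (a (a (l 538173455) (l 538192911)) (a (l 538750223) (b (l 537753871) (l 3))))) (b (a (a (a (l 537506831) (a (l 537811471) (l 537824783))) (l 3)) (l 3)) (l 3))))) (a (a (b (b (l 17228176) (l 17139256)) (l 609594127)) (a (l 610204687) (b (l 604260623) (l 611319055)))) (b (a (a (l 598753807) (l 3)) (l 3)) (l 3))))) (a (a (b (b (l 17535560) (l 17169608)) (l 589394191))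 (b (a (l 598497295) (l 601796111)) (l 594853391))) (b (a (a (l 605255439) (l 3)) (l 3)) (l 3)))), by decide +kernel⟩

def k3_B04mm_202_s1 : ∃ t, chk3 f_B04mm_202_s1 t 3 5 1 = true :=
  ⟨(a (a (b (b (l 17968400) (l 17728200)) (b (l 575878671) (l 573855503))) (b (a (l 579207183) (l 581817871)) (a (l 578541839) (l 580365583)))) (b (a (a (l 584933647) (l 3)) (l 3)) (l 3))), by decide +kernel⟩

def k4_B04mm_202_s1 : ∃ t, chk3 f_B04mm_202_s1 t 1 3 1 = true :=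
  ⟨(a (a (b (b (a (l 17931104) (l 17869864)) (a (l 17839568) (l 17464216))) (l 2)) (b (a (b (l 17599304) (b (l 17140400) (l 557244175))) (b (b (l 17130056) (l 565765647)) (l 562205455))) (a (l 2) (a (l 2) (l 3))))) (a (b (a (b (a (l 570684687) (l 573246991)) (l 3)) (l 3)) (l 3)) (l 3))), by decide +kernel⟩

theorem t5_B04mm_202_s1 : ∃ t, chk3 f_B04mm_202_s1 t 3 4 1 = true := ex3_a k1_B04mm_202_s1 k2_B04mm_202_s1

theorem t6_B04mm_202_s1 : ∃ t, chk3 f_B04mm_202_s1 t 3 2 1 = true := ex3_b t5_B04mm_202_s1 k3_B04mm_202_s1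

theorem t7_B04mm_202_s1 : ∃ t, chk3 f_B04mm_202_s1 t 1 2 1 = true := ex3_a k0_B04mm_202_s1 t6_B04mm_202_s1

theorem t8_B04mm_202_s1 : ∃ t, chk3 f_B04mm_202_s1 t 1 1 1 = true := ex3_b t7_B04mm_202_s1 k4_B04mm_202_s1

theorem c_B04mm_202_s1 : CertF 0 536870912 1073741824 536870912 33554432 16777216 false false false .pp 2 0 2
    ndF0q2 ndF4q2 pcF0 cut_B04mm_202_s1 xt_B04mm_202_s1 :=
  certFK1 (fam := false) (s1 := false) (s2 := false) (a := 2) (b := 0) (c := 2) (cn := .pp) (n1 := ndF0q2) (n2 := ndF4q2) (pc := pcF0) (cut := cut_B04mm_202_s1) (xt := xt_B04mm_202_s1) (P1 := 0) (W1 := 536870912) (P2 := 1073741824) (W2 := 536870912) (P3 := 33554432) (W3 := 16777216)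
    rfl rfl rfl (fun _ => rfl) t8_B04mm_202_s1

theorem s_B04mm_202_s1 {κ x : ℝ} (hκ : κ * h0 = ken x) (hx : ((33554432 : ℕ) : ℝ) / S ≤ x)
    (hx' : x ≤ (((33554432 : ℕ) : ℝ) + (16777216 : ℕ)) / S)
    (H : CutB (VF κ) PP tKF tL pcF (Cut.of [[⟨0, 1, 0, 16777216⟩, ⟨1, 0, 0, 16777216⟩, ⟨2, 1, 0, 16777216⟩]]) 2 0 2 0 4 (sgb false) (sgb false) x) :
    AltB (VF κ) PP tKF tL pcF [⟨3, 0, 0, 1449551462⟩] 2 0 2 0 4 (sgb false) (sgb false) x :=
  strip_altB (m := 1449551462) true rfl hκ covF02 covF42 hx hx' c_B04mm_202_s1 H ((okx hx hx').extB (T := tt) (sideF hx hx') hκ rfl rfl (.O 2 false) (.N 2 false) (Or.inl rfl))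

noncomputable def cut_B04mm_203_s1 : Cut := Cut.of [[⟨4, 0, 0, 1449551462⟩]]

noncomputable def xt_B04mm_203_s1 : Ext := strExt dd false false false .u2 .s2m .u0m .up 2 0 3 rfl rfl gf0 vv ndF0q2 ndF4q3

noncomputable def f_B04mm_203_s1 : ℕ → ℕ → ℕ → ℕ → Bool := onCell 0 536870912 0 1230186008 33554432 16777216
    (rowFK 0 false false false .up 2 0 3 (qsf 0 536870912 0 1230186008 0) ndF0q2 ndF4q3 pcF0 cut_B04mm_203_s1 xt_B04mm_203_s1)

def k0_B04mm_203_s1 : ∃ t, chk3 f_B04mm_203_s1 t 1 1 1 = true :=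
  ⟨(b (l 2) (b (l 2) (a (b (a (b (l 2) (a (l 554491151) (l 553937679))) (l 3)) (a (b (a (l 17223592) (l 552863759)) (a (l 17608672) (b (l 17109472) (l 17302480)))) (b (a (a (l 553104399) (l 3)) (l 3)) (a (b (l 552983311) (l 555862031)) (b (l 3) (l 557683727)))))) (l 3)))), by decide +kernel⟩

theorem c_B04mm_203_s1 : CertF 0 536870912 0 1230186008 33554432 16777216 false false false .up 2 0 3
    ndF0q2 ndF4q3 pcF0 cut_B04mm_203_s1 xt_B04mm_203_s1 :=
  certFK0 (fam := false) (s1 := false) (s2 := false) (a := 2) (b := 0) (c := 3) (cn := .up) (n1 := ndF0q2) (n2 := ndF4q3) (pc := pcF0) (cut := cut_B04mm_203_s1) (xt := xt_B04mm_203_s1) (P1 := 0) (W1 := 536870912) (P2 := 0) (W2 := 1230186008) (P3 := 33554432) (W3 := 16777216)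
    rfl rfl rfl k0_B04mm_203_s1

theorem s_B04mm_203_s1 {κ x : ℝ} (hκ : κ * h0 = ken x) (hx : ((33554432 : ℕ) : ℝ) / S ≤ x)
    (hx' : x ≤ (((33554432 : ℕ) : ℝ) + (16777216 : ℕ)) / S) :
    AltB (VF κ) PP tKF tL pcF [⟨3, 0, 0, 1449551462⟩] 2 0 3 0 4 (sgb false) (sgb false) x :=
  strip_altB (m := 1449551462) true rfl hκ covF02 covF43 hx hx' c_B04mm_203_s1 cutB_nil ((okx hx hx').extB (T := tt) (sideF hx hx') hκ rfl rfl (.O 2 false) (.N 3 false) (Or.inl rfl))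

noncomputable def cut_B04mm_213_s1 : Cut := Cut.of [[⟨4, 0, 0, 1449551462⟩]]

noncomputable def xt_B04mm_213_s1 : Ext := strExt dd false false false .u2 .s2m .u0m .pnn 2 1 3 rfl rfl gf1 vv ndF0q2 ndF4q3

noncomputable def f_B04mm_213_s1 : ℕ → ℕ → ℕ → ℕ → Bool := onCell 0 536870912 0 1230186008 33554432 16777216
    (rowFK 0 false false false .pnn 2 1 3 (qsf 0 536870912 0 1230186008 1) ndF0q2 ndF4q3 pcF1 cut_B04mm_213_s1 xt_B04mm_213_s1)

def k0_B04mm_213_s1 : ∃ t, chk3 f_B04mm_213_s1 t 1 1 1 = true :=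
  ⟨(b (a (l 3) (b (l 5) (l 3))) (b (b (l 3) (a (a (l 3) (l 3)) (l 3))) (a (b (a (b (a (l 547040271) (l 3)) (a (l 549995023) (l 549084175))) (l 3)) (a (l 1) (b (a (l 1) (l 3)) (l 1)))) (l 3)))), by decide +kernel⟩

theorem c_B04mm_213_s1 : CertF 0 536870912 0 1230186008 33554432 16777216 false false false .pnn 2 1 3
    ndF0q2 ndF4q3 pcF1 cut_B04mm_213_s1 xt_B04mm_213_s1 :=
  certFK0 (fam := false) (s1 := false) (s2 := false) (a := 2) (b := 1) (c := 3) (cn := .pnn) (n1 := ndF0q2) (n2 := ndF4q3) (pc := pcF1) (cut := cut_B04mm_213_s1) (xt := xt_B04mm_213_s1) (P1 := 0) (W1 := 536870912) (P2 := 0) (W2 := 1230186008) (P3 := 33554432) (W3 := 16777216)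
    rfl rfl rfl k0_B04mm_213_s1

theorem s_B04mm_213_s1 {κ x : ℝ} (hκ : κ * h0 = ken x) (hx : ((33554432 : ℕ) : ℝ) / S ≤ x)
    (hx' : x ≤ (((33554432 : ℕ) : ℝ) + (16777216 : ℕ)) / S) :
    AltB (VF κ) PP tKF tL pcF [⟨3, 0, 0, 1449551462⟩] 2 1 3 0 4 (sgb false) (sgb false) x :=
  strip_altB (m := 1449551462) true rfl hκ covF02 covF43 hx hx' c_B04mm_213_s1 cutB_nil ((okx hx hx').extB (T := tt) (sideF hx hx') hκ rfl rfl (.O 2 false) (.N 3 false) (Or.inr rfl))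

noncomputable def cut_B40pp_001_s1 : Cut := Cut.of [[⟨4, 0, 0, 1449551462⟩]]

noncomputable def xt_B40pp_001_s1 : Ext := strExt dd false true true .s0 .u0 .u0m .up 0 0 1 rfl rfl gf0 vv ndF4q0 ndF0q1

noncomputable def f_B40pp_001_s1 : ℕ → ℕ → ℕ → ℕ → Bool := onCell 0 536870912 536870912 536870912 33554432 16777216
    (rowFK 2 false true true .up 0 0 1 (qsf 0 536870912 536870912 536870912 0) ndF4q0 ndF0q1 pcF0 cut_B40pp_001_s1 xt_B40pp_001_s1)

def k0_B40pp_001_s1 : ∃ t, chk3 f_B40pp_001_s1 t 1 1 1 = true :=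
  ⟨(a (b (l 3) (b (b (l 3) (l 2)) (l 2))) (b (a (l 3) (b (l 3) (b (a (l 3) (l 539974415)) (a (l 548662031) (l 545977103))))) (a (b (b (a (l 548886031) (b (l 545571087) (l 545433359))) (a (l 555895823) (l 547518991))) (b (a (l 2) (l 17353032)) (l 2))) (b (b (a (l 546945295) (l 17089776)) (b (l 17488832) (l 17465536))) (b (a (l 17204656) (l 17159744)) (l 220756669847)))))), by decide +kernel⟩

theorem c_B40pp_001_s1 : CertF 0 536870912 536870912 536870912 33554432 16777216 false true true .up 0 0 1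
    ndF4q0 ndF0q1 pcF0 cut_B40pp_001_s1 xt_B40pp_001_s1 :=
  certFK2 (fam := false) (s1 := true) (s2 := true) (a := 0) (b := 0) (c := 1) (cn := .up) (n1 := ndF4q0) (n2 := ndF0q1) (pc := pcF0) (cut := cut_B40pp_001_s1) (xt := xt_B40pp_001_s1) (P1 := 0) (W1 := 536870912) (P2 := 536870912) (W2 := 536870912) (P3 := 33554432) (W3 := 16777216)
    rfl rfl rfl (fun _ => rfl) k0_B40pp_001_s1

theorem s_B40pp_001_s1 {κ x : ℝ} (hκ : κ * h0 = ken x) (hx : ((33554432 : ℕ) : ℝ) / S ≤ x)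
    (hx' : x ≤ (((33554432 : ℕ) : ℝ) + (16777216 : ℕ)) / S) :
    AltB (VF κ) PP tKF tL pcF [⟨3, 0, 0, 1449551462⟩] 0 0 1 4 0 (sgb true) (sgb true) x :=
  strip_altB (m := 1449551462) true rfl hκ covF40 covF01 hx hx' c_B40pp_001_s1 cutB_nil ((okx hx hx').extB (T := tt) (sideF hx hx') hκ rfl rfl (.N 0 true) (.O 1 true) (Or.inl rfl))

noncomputable def cut_B40pp_011_s1 : Cut := Cut.of [[⟨4, 0, 0, 1449551462⟩]]

noncomputable def xt_B40pp_011_s1 : Ext := strExt dd false true true .s0 .u0 .u0m .pnn 0 1 1 rfl rfl gf1 vv ndF4q0 ndF0q1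

noncomputable def f_B40pp_011_s1 : ℕ → ℕ → ℕ → ℕ → Bool := onCell 536870912 536870912 536870912 536870912 33554432 16777216
    (rowFK 2 false true true .pnn 0 1 1 (qsf 0 536870912 536870912 536870912 1) ndF4q0 ndF0q1 pcF1 cut_B40pp_011_s1 xt_B40pp_011_s1)

def k0_B40pp_011_s1 : ∃ t, chk3 f_B40pp_011_s1 t 1 1 1 = true :=
  ⟨(a (b (a (b (a (b (l 3) (l 573227791)) (l 569589519)) (b (a (l 569299983) (l 566952463)) (a (l 17512872) (l 17428296)))) (b (a (b (l 1) (l 566035983)) (l 1)) (a (b (l 17461696) (l 17635896)) (l 18017592)))) (a (b (b (a (l 17435784) (l 17661184)) (a (l 17888000) (l 18086256))) (b (l 18511288) (l 6))) (b (b (l 17896664) (l 18296200)) (l 6)))) (b (a (b (l 1) (a (l 18289176) (l 1))) (l 1)) (a (b (b (l 6) (l 6)) (l 6)) (l 6)))), by decide +kernel⟩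

theorem c_B40pp_011_s1 : CertF 0 536870912 536870912 536870912 33554432 16777216 false true true .pnn 0 1 1
    ndF4q0 ndF0q1 pcF1 cut_B40pp_011_s1 xt_B40pp_011_s1 :=
  certFK2 (fam := false) (s1 := true) (s2 := true) (a := 0) (b := 1) (c := 1) (cn := .pnn) (n1 := ndF4q0) (n2 := ndF0q1) (pc := pcF1) (cut := cut_B40pp_011_s1) (xt := xt_B40pp_011_s1) (P1 := 0) (W1 := 536870912) (P2 := 536870912) (W2 := 536870912) (P3 := 33554432) (W3 := 16777216)
    rfl rfl rfl (fun _ => rfl) k0_B40pp_011_s1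

theorem s_B40pp_011_s1 {κ x : ℝ} (hκ : κ * h0 = ken x) (hx : ((33554432 : ℕ) : ℝ) / S ≤ x)
    (hx' : x ≤ (((33554432 : ℕ) : ℝ) + (16777216 : ℕ)) / S) :
    AltB (VF κ) PP tKF tL pcF [⟨3, 0, 0, 1449551462⟩] 0 1 1 4 0 (sgb true) (sgb true) x :=
  strip_altB (m := 1449551462) true rfl hκ covF40 covF01 hx hx' c_B40pp_011_s1 cutB_nil ((okx hx hx').extB (T := tt) (sideF hx hx') hκ rfl rfl (.N 0 true) (.O 1 true) (Or.inr rfl))

noncomputable def cut_B40pp_012_s1 : Cut := Cut.of [[⟨4, 0, 0, 1449551462⟩]]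

noncomputable def f_B40pp_012_s1 : ℕ → ℕ → ℕ → ℕ → Bool := onCell 0 536870912 0 536870912 33554432 16777216
    (rowFK 0 false true true .pnp 0 1 2 (qsf 0 536870912 0 536870912 1) ndF4q0 ndF0q2 pcF1 cut_B40pp_012_s1 Ext.none)

def k0_B40pp_012_s1 : ∃ t, chk3 f_B40pp_012_s1 t 1 1 1 = true :=
  ⟨(a (l 6) (l 6)), by decide +kernel⟩

theorem c_B40pp_012_s1 : CertF 0 536870912 0 536870912 33554432 16777216 false true true .pnp 0 1 2
    ndF4q0 ndF0q2 pcF1 cut_B40pp_012_s1 Ext.none :=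
  certFK0 (fam := false) (s1 := true) (s2 := true) (a := 0) (b := 1) (c := 2) (cn := .pnp) (n1 := ndF4q0) (n2 := ndF0q2) (pc := pcF1) (cut := cut_B40pp_012_s1) (xt := Ext.none) (P1 := 0) (W1 := 536870912) (P2 := 0) (W2 := 536870912) (P3 := 33554432) (W3 := 16777216)
    rfl rfl rfl k0_B40pp_012_s1

theorem s_B40pp_012_s1 {κ x : ℝ} (hκ : κ * h0 = ken x) (hx : ((33554432 : ℕ) : ℝ) / S ≤ x)
    (hx' : x ≤ (((33554432 : ℕ) : ℝ) + (16777216 : ℕ)) / S) :
    AltB (VF κ) PP tKF tL pcF [⟨3, 0, 0, 1449551462⟩] 0 1 2 4 0 (sgb true) (sgb true) x :=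
  strip_altB (m := 1449551462) true rfl hκ covF40 covF02 hx hx' c_B40pp_012_s1 cutB_nil (noExt_B)

noncomputable def cut_B40pp_022_s1 : Cut := Cut.of [[⟨4, 0, 0, 1449551462⟩]]

noncomputable def f_B40pp_022_s1 : ℕ → ℕ → ℕ → ℕ → Bool := onCell 1073741824 536870912 0 536870912 33554432 16777216
    (rowFK 2 false true true .pp 0 2 2 (qsf 0 536870912 0 536870912 2) ndF4q0 ndF0q2 pcF2 cut_B40pp_022_s1 Ext.none)

def k0_B40pp_022_s1 : ∃ t, chk3 f_B40pp_022_s1 t 1 1 1 = true :=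
  ⟨(l 6), by decide +kernel⟩

theorem c_B40pp_022_s1 : CertF 0 536870912 0 536870912 33554432 16777216 false true true .pp 0 2 2
    ndF4q0 ndF0q2 pcF2 cut_B40pp_022_s1 Ext.none :=
  certFK2 (fam := false) (s1 := true) (s2 := true) (a := 0) (b := 2) (c := 2) (cn := .pp) (n1 := ndF4q0) (n2 := ndF0q2) (pc := pcF2) (cut := cut_B40pp_022_s1) (xt := Ext.none) (P1 := 0) (W1 := 536870912) (P2 := 0) (W2 := 536870912) (P3 := 33554432) (W3 := 16777216)
    rfl rfl rfl (fun _ => rfl) k0_B40pp_022_s1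

theorem s_B40pp_022_s1 {κ x : ℝ} (hκ : κ * h0 = ken x) (hx : ((33554432 : ℕ) : ℝ) / S ≤ x)
    (hx' : x ≤ (((33554432 : ℕ) : ℝ) + (16777216 : ℕ)) / S) :
    AltB (VF κ) PP tKF tL pcF [⟨3, 0, 0, 1449551462⟩] 0 2 2 4 0 (sgb true) (sgb true) x :=
  strip_altB (m := 1449551462) true rfl hκ covF40 covF02 hx hx' c_B40pp_022_s1 cutB_nil (noExt_B)

noncomputable def cut_B40pp_101_s1 : Cut := Cut.of [[⟨4, 0, 0, 1449551462⟩], [⟨0, 1, 0, 16777216⟩, ⟨1, 0, 0, 16777216⟩, ⟨2, 1, 0, 16777216⟩]]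

noncomputable def xt_B40pp_101_s1 : Ext := strExt dd false true true .s0 .u0 .u0m .npn 1 0 1 rfl rfl gf0 vv ndF4q1 ndF0q1

noncomputable def f_B40pp_101_s1 : ℕ → ℕ → ℕ → ℕ → Bool := onCell 536870912 536870912 536870912 536870912 33554432 16777216
    (rowFK 0 false true true .npn 1 0 1 (qsf 536870912 536870912 536870912 536870912 0) ndF4q1 ndF0q1 pcF0 cut_B40pp_101_s1 xt_B40pp_101_s1)

def k0_B40pp_101_s1 : ∃ t, chk3 f_B40pp_101_s1 t 1 1 1 = true :=
  ⟨(b (l 3) (b (a (a (b (a (b (l 3) (l 553195535)) (l 3)) (a (b (l 552185103) (l 17300856)) (b (l 562854159) (l 559171343)))) (b (l 3) (a (b (l 3) (l 569567759)) (l 3)))) (l 3)) (a (a (b (a (l 17636032) (b (l 17436880) (l 17268072))) (b (l 17644336) (l 17550224))) (b (a (b (l 565583375) (l 17509904)) (b (l 573565199) (l 569295119))) (a (l 18042024) (b (l 17507960) (l 17771520))))) (a (b (b (l 3) (a (l 580381455) (a (l 591592975) (l 3)))) (a (b (l 576497167)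 (l 17972176)) (b (a (l 586963215) (l 596503823)) (a (l 17747520) (l 591763215))))) (b (l 3) (b (a (b (l 3) (a (l 606696975) (l 615493391))) (l 3)) (a (a (l 602958607) (a (l 610411791) (l 611628559))) (b (a (a (l 599072015) (a (l 557334799) (l 3))) (l 3)) (a (a (l 599324687) (a (l 561463823) (l 538664207))) (b (a (b (l 3) (a (l 537750799) (a (l 537601039) (l 3)))) (l 3)) (a (a (l 538017295) (a (l 537598735) (l 538790159))) (a (a (a (l 538011919) (l 14)) (l 14)) (l 14))))))))))))), by decide +kernel⟩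

theorem c_B40pp_101_s1 : CertF 536870912 536870912 536870912 536870912 33554432 16777216 false true true .npn 1 0 1
    ndF4q1 ndF0q1 pcF0 cut_B40pp_101_s1 xt_B40pp_101_s1 :=
  certFK0 (fam := false) (s1 := true) (s2 := true) (a := 1) (b := 0) (c := 1) (cn := .npn) (n1 := ndF4q1) (n2 := ndF0q1) (pc := pcF0) (cut := cut_B40pp_101_s1) (xt := xt_B40pp_101_s1) (P1 := 536870912) (W1 := 536870912) (P2 := 536870912) (W2 := 536870912) (P3 := 33554432) (W3 := 16777216)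
    rfl rfl rfl k0_B40pp_101_s1

theorem s_B40pp_101_s1 {κ x : ℝ} (hκ : κ * h0 = ken x) (hx : ((33554432 : ℕ) : ℝ) / S ≤ x)
    (hx' : x ≤ (((33554432 : ℕ) : ℝ) + (16777216 : ℕ)) / S)
    (H : CutB (VF κ) PP tKF tL pcF (Cut.of [[⟨0, 1, 0, 16777216⟩, ⟨1, 0, 0, 16777216⟩, ⟨2, 1, 0, 16777216⟩]]) 1 0 1 4 0 (sgb true) (sgb true) x) :
    AltB (VF κ) PP tKF tL pcF [⟨3, 0, 0, 1449551462⟩] 1 0 1 4 0 (sgb true) (sgb true) x :=
  strip_altB (m := 1449551462) true rfl hκ covF41 covF01 hx hx' c_B40pp_101_s1 H ((okx hx hx').extB (T := tt) (sideF hx hx') hκ rfl rfl (.N 1 true) (.O 1 true) (Or.inl rfl))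

noncomputable def cut_B40pp_102_s1 : Cut := Cut.of [[⟨4, 0, 0, 1449551462⟩], [⟨0, 1, 0, 33554432⟩, ⟨1, 0, 0, 33554432⟩, ⟨2, 1, 0, 33554432⟩]]

noncomputable def f_B40pp_102_s1 : ℕ → ℕ → ℕ → ℕ → Bool := onCell 536870912 536870912 0 536870912 33554432 16777216
    (rowFK 0 false true true .npp 1 0 2 (qsf 536870912 536870912 0 536870912 0) ndF4q1 ndF0q2 pcF0 cut_B40pp_102_s1 Ext.none)

def k0_B40pp_102_s1 : ∃ t, chk3 f_B40pp_102_s1 t 1 1 1 = true :=
  ⟨(b (l 6) (a (b (l 6) (a (l 6) (b (l 6) (l 18158736)))) (b (a (l 6) (b (l 6) (a (l 19259920) (a (l 19596928) (l 19773800))))) (a (b (l 18548880) (b (l 18360784) (a (l 18118272) (l 18218056)))) (b (a (l 18969688) (a (l 19117344) (a (l 19037512) (a (l 18866152) (l 18646504))))) (a (b (l 18561056) (b (l 18263048) (l 18537360))) (b (a (l 18383280) (a (l 17781936) (b (l 17009944) (l 16844520)))) (b (a (l 17819240) (a (l 16747352) (a (l 16740720) (l 14)))) (a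 (b (l 17480008) (a (l 17460616) (l 16915368))) (a (b (l 16766264) (b (l 16774184) (l 16777592))) (l 14))))))))))), by decide +kernel⟩

theorem c_B40pp_102_s1 : CertF 536870912 536870912 0 536870912 33554432 16777216 false true true .npp 1 0 2
    ndF4q1 ndF0q2 pcF0 cut_B40pp_102_s1 Ext.none :=
  certFK0 (fam := false) (s1 := true) (s2 := true) (a := 1) (b := 0) (c := 2) (cn := .npp) (n1 := ndF4q1) (n2 := ndF0q2) (pc := pcF0) (cut := cut_B40pp_102_s1) (xt := Ext.none) (P1 := 536870912) (W1 := 536870912) (P2 := 0) (W2 := 536870912) (P3 := 33554432) (W3 := 16777216)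
    rfl rfl rfl k0_B40pp_102_s1

theorem s_B40pp_102_s1 {κ x : ℝ} (hκ : κ * h0 = ken x) (hx : ((33554432 : ℕ) : ℝ) / S ≤ x)
    (hx' : x ≤ (((33554432 : ℕ) : ℝ) + (16777216 : ℕ)) / S)
    (H : CutB (VF κ) PP tKF tL pcF (Cut.of [[⟨0, 1, 0, 33554432⟩, ⟨1, 0, 0, 33554432⟩, ⟨2, 1, 0, 33554432⟩]]) 1 0 2 4 0 (sgb true) (sgb true) x) :
    AltB (VF κ) PP tKF tL pcF [⟨3, 0, 0, 1449551462⟩] 1 0 2 4 0 (sgb true) (sgb true) x :=
  strip_altB (m := 1449551462) true rfl hκ covF41 covF02 hx hx' c_B40pp_102_s1 H (noExt_B)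

noncomputable def cut_B40pp_112_s1 : Cut := Cut.of [[⟨4, 0, 0, 1449551462⟩]]

noncomputable def f_B40pp_112_s1 : ℕ → ℕ → ℕ → ℕ → Bool := onCell 536870912 536870912 0 536870912 33554432 16777216
    (rowFK 2 false true true .dn 1 1 2 (qsf 536870912 536870912 0 536870912 1) ndF4q1 ndF0q2 pcF1 cut_B40pp_112_s1 Ext.none)

def k0_B40pp_112_s1 : ∃ t, chk3 f_B40pp_112_s1 t 1 1 1 = true :=
  ⟨(a (l 6) (l 1)), by decide +kernel⟩

theorem c_B40pp_112_s1 : CertF 536870912 536870912 0 536870912 33554432 16777216 false true true .dn 1 1 2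
    ndF4q1 ndF0q2 pcF1 cut_B40pp_112_s1 Ext.none :=
  certFK2 (fam := false) (s1 := true) (s2 := true) (a := 1) (b := 1) (c := 2) (cn := .dn) (n1 := ndF4q1) (n2 := ndF0q2) (pc := pcF1) (cut := cut_B40pp_112_s1) (xt := Ext.none) (P1 := 536870912) (W1 := 536870912) (P2 := 0) (W2 := 536870912) (P3 := 33554432) (W3 := 16777216)
    rfl rfl rfl (fun _ => rfl) k0_B40pp_112_s1

theorem s_B40pp_112_s1 {κ x : ℝ} (hκ : κ * h0 = ken x) (hx : ((33554432 : ℕ) : ℝ) / S ≤ x)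
    (hx' : x ≤ (((33554432 : ℕ) : ℝ) + (16777216 : ℕ)) / S) :
    AltB (VF κ) PP tKF tL pcF [⟨3, 0, 0, 1449551462⟩] 1 1 2 4 0 (sgb true) (sgb true) x :=
  strip_altB (m := 1449551462) true rfl hκ covF41 covF02 hx hx' c_B40pp_112_s1 cutB_nil (noExt_B)

noncomputable def cut_B40pp_202_s1 : Cut := Cut.of [[⟨4, 0, 0, 1449551462⟩], [⟨0, 1, 0, 33554432⟩, ⟨1, 0, 0, 33554432⟩, ⟨2, 1, 0, 33554432⟩]]

noncomputable def f_B40pp_202_s1 : ℕ → ℕ → ℕ → ℕ → Bool := onCell 0 536870912 0 536870912 33554432 16777216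
    (rowFK 2 false true true .pp 2 0 2 (qsf 1073741824 536870912 0 536870912 0) ndF4q2 ndF0q2 pcF0 cut_B40pp_202_s1 Ext.none)

def k0_B40pp_202_s1 : ∃ t, chk3 f_B40pp_202_s1 t 1 1 1 = true :=
  ⟨(a (b (a (l 6) (l 6)) (a (b (a (b (a (l 18938096) (l 19242912)) (a (l 18749464) (l 19200408))) (b (l 6) (a (l 19702568) (l 19973248)))) (b (a (a (b (l 18112584) (a (l 17662320) (l 17504888))) (b (l 18781640) (a (l 17704544) (l 17744976)))) (a (b (l 19054000) (l 1)) (l 1))) (a (a (b (b (a (l 17321416) (l 17089624)) (a (l 14) (a (l 14) (l 16887688)))) (a (l 14) (a (l 14) (l 1)))) (b (a (b (l 16873552) (l 1)) (l 1)) (l 1))) (l 1)))) (b (l 1) (l 1)))) (l 1)), by decide +kernel⟩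

theorem c_B40pp_202_s1 : CertF 1073741824 536870912 0 536870912 33554432 16777216 false true true .pp 2 0 2
    ndF4q2 ndF0q2 pcF0 cut_B40pp_202_s1 Ext.none :=
  certFK2 (fam := false) (s1 := true) (s2 := true) (a := 2) (b := 0) (c := 2) (cn := .pp) (n1 := ndF4q2) (n2 := ndF0q2) (pc := pcF0) (cut := cut_B40pp_202_s1) (xt := Ext.none) (P1 := 1073741824) (W1 := 536870912) (P2 := 0) (W2 := 536870912) (P3 := 33554432) (W3 := 16777216)
    rfl rfl rfl (fun _ => rfl) k0_B40pp_202_s1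

theorem s_B40pp_202_s1 {κ x : ℝ} (hκ : κ * h0 = ken x) (hx : ((33554432 : ℕ) : ℝ) / S ≤ x)
    (hx' : x ≤ (((33554432 : ℕ) : ℝ) + (16777216 : ℕ)) / S)
    (H : CutB (VF κ) PP tKF tL pcF (Cut.of [[⟨0, 1, 0, 33554432⟩, ⟨1, 0, 0, 33554432⟩, ⟨2, 1, 0, 33554432⟩]]) 2 0 2 4 0 (sgb true) (sgb true) x) :
    AltB (VF κ) PP tKF tL pcF [⟨3, 0, 0, 1449551462⟩] 2 0 2 4 0 (sgb true) (sgb true) x :=
  strip_altB (m := 1449551462) true rfl hκ covF42 covF02 hx hx' c_B40pp_202_s1 H (noExt_B)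

noncomputable def cut_B40pm_001_s1 : Cut := Cut.of [[⟨4, 0, 0, 1449551462⟩]]

noncomputable def f_B40pm_001_s1 : ℕ → ℕ → ℕ → ℕ → Bool := onCell 0 536870912 536870912 536870912 33554432 16777216
    (rowFK 0 false true false .up 0 0 1 (qsf 0 536870912 536870912 536870912 0) ndF4q0 ndF0q1 pcF0 cut_B40pm_001_s1 Ext.none)

def k0_B40pm_001_s1 : ∃ t, chk3 f_B40pm_001_s1 t 1 1 1 = true :=
  ⟨(l 4), by decide +kernel⟩

theorem c_B40pm_001_s1 : CertF 0 536870912 536870912 536870912 33554432 16777216 false true false .up 0 0 1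
    ndF4q0 ndF0q1 pcF0 cut_B40pm_001_s1 Ext.none :=
  certFK0 (fam := false) (s1 := true) (s2 := false) (a := 0) (b := 0) (c := 1) (cn := .up) (n1 := ndF4q0) (n2 := ndF0q1) (pc := pcF0) (cut := cut_B40pm_001_s1) (xt := Ext.none) (P1 := 0) (W1 := 536870912) (P2 := 536870912) (W2 := 536870912) (P3 := 33554432) (W3 := 16777216)
    rfl rfl rfl k0_B40pm_001_s1

theorem s_B40pm_001_s1 {κ x : ℝ} (hκ : κ * h0 = ken x) (hx : ((33554432 : ℕ) : ℝ) / S ≤ x)
    (hx' : x ≤ (((33554432 : ℕ) : ℝ) + (16777216 : ℕ)) / S) :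
    AltB (VF κ) PP tKF tL pcF [⟨3, 0, 0, 1449551462⟩] 0 0 1 4 0 (sgb true) (sgb false) x :=
  strip_altB (m := 1449551462) true rfl hκ covF40 covF01 hx hx' c_B40pm_001_s1 cutB_nil (noExt_B)

noncomputable def cut_B40pm_011_s1 : Cut := Cut.of [[⟨4, 0, 0, 1449551462⟩]]

noncomputable def f_B40pm_011_s1 : ℕ → ℕ → ℕ → ℕ → Bool := onCell 0 536870912 536870912 536870912 33554432 16777216
    (rowFK 0 false true false .pnn 0 1 1 (qsf 0 536870912 536870912 536870912 1) ndF4q0 ndF0q1 pcF1 cut_B40pm_011_s1 Ext.none)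

def k0_B40pm_011_s1 : ∃ t, chk3 f_B40pm_011_s1 t 1 1 1 = true :=
  ⟨(l 4), by decide +kernel⟩

theorem c_B40pm_011_s1 : CertF 0 536870912 536870912 536870912 33554432 16777216 false true false .pnn 0 1 1
    ndF4q0 ndF0q1 pcF1 cut_B40pm_011_s1 Ext.none :=
  certFK0 (fam := false) (s1 := true) (s2 := false) (a := 0) (b := 1) (c := 1) (cn := .pnn) (n1 := ndF4q0) (n2 := ndF0q1) (pc := pcF1) (cut := cut_B40pm_011_s1) (xt := Ext.none) (P1 := 0) (W1 := 536870912) (P2 := 536870912) (W2 := 536870912) (P3 := 33554432) (W3 := 16777216)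
    rfl rfl rfl k0_B40pm_011_s1

theorem s_B40pm_011_s1 {κ x : ℝ} (hκ : κ * h0 = ken x) (hx : ((33554432 : ℕ) : ℝ) / S ≤ x)
    (hx' : x ≤ (((33554432 : ℕ) : ℝ) + (16777216 : ℕ)) / S) :
    AltB (VF κ) PP tKF tL pcF [⟨3, 0, 0, 1449551462⟩] 0 1 1 4 0 (sgb true) (sgb false) x :=
  strip_altB (m := 1449551462) true rfl hκ covF40 covF01 hx hx' c_B40pm_011_s1 cutB_nil (noExt_B)

noncomputable def cut_B40pm_012_s1 : Cut := Cut.of [[⟨4, 0, 0, 1449551462⟩]]

noncomputable def f_B40pm_012_s1 : ℕ → ℕ → ℕ → ℕ → Bool := onCell 0 536870912 0 536870912 33554432 16777216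
    (rowFK 0 false true false .pnp 0 1 2 (qsf 0 536870912 0 536870912 1) ndF4q0 ndF0q2 pcF1 cut_B40pm_012_s1 Ext.none)

def k0_B40pm_012_s1 : ∃ t, chk3 f_B40pm_012_s1 t 1 1 1 = true :=
  ⟨(l 6), by decide +kernel⟩

theorem c_B40pm_012_s1 : CertF 0 536870912 0 536870912 33554432 16777216 false true false .pnp 0 1 2
    ndF4q0 ndF0q2 pcF1 cut_B40pm_012_s1 Ext.none :=
  certFK0 (fam := false) (s1 := true) (s2 := false) (a := 0) (b := 1) (c := 2) (cn := .pnp) (n1 := ndF4q0) (n2 := ndF0q2) (pc := pcF1) (cut := cut_B40pm_012_s1) (xt := Ext.none) (P1 := 0) (W1 := 536870912) (P2 := 0) (W2 := 536870912) (P3 := 33554432) (W3 := 16777216)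
    rfl rfl rfl k0_B40pm_012_s1

theorem s_B40pm_012_s1 {κ x : ℝ} (hκ : κ * h0 = ken x) (hx : ((33554432 : ℕ) : ℝ) / S ≤ x)
    (hx' : x ≤ (((33554432 : ℕ) : ℝ) + (16777216 : ℕ)) / S) :
    AltB (VF κ) PP tKF tL pcF [⟨3, 0, 0, 1449551462⟩] 0 1 2 4 0 (sgb true) (sgb false) x :=
  strip_altB (m := 1449551462) true rfl hκ covF40 covF02 hx hx' c_B40pm_012_s1 cutB_nil (noExt_B)

noncomputable def cut_B40pm_022_s1 : Cut := Cut.of [[⟨4, 0, 0, 1449551462⟩]]

noncomputable def f_B40pm_022_s1 : ℕ → ℕ → ℕ → ℕ → Bool := onCell 0 536870912 0 536870912 33554432 16777216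
    (rowFK 0 false true false .pp 0 2 2 (qsf 0 536870912 0 536870912 2) ndF4q0 ndF0q2 pcF2 cut_B40pm_022_s1 Ext.none)

def k0_B40pm_022_s1 : ∃ t, chk3 f_B40pm_022_s1 t 1 1 1 = true :=
  ⟨(l 6), by decide +kernel⟩

theorem c_B40pm_022_s1 : CertF 0 536870912 0 536870912 33554432 16777216 false true false .pp 0 2 2
    ndF4q0 ndF0q2 pcF2 cut_B40pm_022_s1 Ext.none :=
  certFK0 (fam := false) (s1 := true) (s2 := false) (a := 0) (b := 2) (c := 2) (cn := .pp) (n1 := ndF4q0) (n2 := ndF0q2) (pc := pcF2) (cut := cut_B40pm_022_s1) (xt := Ext.none) (P1 := 0) (W1 := 536870912) (P2 := 0) (W2 := 536870912) (P3 := 33554432) (W3 := 16777216)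
    rfl rfl rfl k0_B40pm_022_s1

theorem s_B40pm_022_s1 {κ x : ℝ} (hκ : κ * h0 = ken x) (hx : ((33554432 : ℕ) : ℝ) / S ≤ x)
    (hx' : x ≤ (((33554432 : ℕ) : ℝ) + (16777216 : ℕ)) / S) :
    AltB (VF κ) PP tKF tL pcF [⟨3, 0, 0, 1449551462⟩] 0 2 2 4 0 (sgb true) (sgb false) x :=
  strip_altB (m := 1449551462) true rfl hκ covF40 covF02 hx hx' c_B40pm_022_s1 cutB_nil (noExt_B)

noncomputable def cut_B40pm_101_s1 : Cut := Cut.of [[⟨4, 0, 0, 1449551462⟩]]

noncomputable def f_B40pm_101_s1 : ℕ → ℕ → ℕ → ℕ → Bool := onCell 536870912 536870912 536870912 536870912 33554432 16777216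
    (rowFK 0 false true false .npn 1 0 1 (qsf 536870912 536870912 536870912 536870912 0) ndF4q1 ndF0q1 pcF0 cut_B40pm_101_s1 Ext.none)

def k0_B40pm_101_s1 : ∃ t, chk3 f_B40pm_101_s1 t 1 1 1 = true :=
  ⟨(l 4), by decide +kernel⟩

theorem c_B40pm_101_s1 : CertF 536870912 536870912 536870912 536870912 33554432 16777216 false true false .npn 1 0 1
    ndF4q1 ndF0q1 pcF0 cut_B40pm_101_s1 Ext.none :=
  certFK0 (fam := false) (s1 := true) (s2 := false) (a := 1) (b := 0) (c := 1) (cn := .npn) (n1 := ndF4q1) (n2 := ndF0q1) (pc := pcF0) (cut := cut_B40pm_101_s1) (xt := Ext.none) (P1 := 536870912) (W1 := 536870912) (P2 := 536870912) (W2 := 536870912) (P3 := 33554432) (W3 := 16777216)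
    rfl rfl rfl k0_B40pm_101_s1

theorem s_B40pm_101_s1 {κ x : ℝ} (hκ : κ * h0 = ken x) (hx : ((33554432 : ℕ) : ℝ) / S ≤ x)
    (hx' : x ≤ (((33554432 : ℕ) : ℝ) + (16777216 : ℕ)) / S) :
    AltB (VF κ) PP tKF tL pcF [⟨3, 0, 0, 1449551462⟩] 1 0 1 4 0 (sgb true) (sgb false) x :=
  strip_altB (m := 1449551462) true rfl hκ covF41 covF01 hx hx' c_B40pm_101_s1 cutB_nil (noExt_B)

noncomputable def cut_B40pm_102_s1 : Cut := Cut.of [[⟨4, 0, 0, 1449551462⟩]]

noncomputable def f_B40pm_102_s1 : ℕ → ℕ → ℕ → ℕ → Bool := onCell 536870912 536870912 0 536870912 33554432 16777216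
    (rowFK 0 false true false .npp 1 0 2 (qsf 536870912 536870912 0 536870912 0) ndF4q1 ndF0q2 pcF0 cut_B40pm_102_s1 Ext.none)

def k0_B40pm_102_s1 : ∃ t, chk3 f_B40pm_102_s1 t 1 1 1 = true :=
  ⟨(l 6), by decide +kernel⟩

theorem c_B40pm_102_s1 : CertF 536870912 536870912 0 536870912 33554432 16777216 false true false .npp 1 0 2
    ndF4q1 ndF0q2 pcF0 cut_B40pm_102_s1 Ext.none :=
  certFK0 (fam := false) (s1 := true) (s2 := false) (a := 1) (b := 0) (c := 2) (cn := .npp) (n1 := ndF4q1) (n2 := ndF0q2) (pc := pcF0) (cut := cut_B40pm_102_s1) (xt := Ext.none) (P1 := 536870912) (W1 := 536870912) (P2 := 0) (W2 := 536870912) (P3 := 33554432) (W3 := 16777216)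
    rfl rfl rfl k0_B40pm_102_s1

theorem s_B40pm_102_s1 {κ x : ℝ} (hκ : κ * h0 = ken x) (hx : ((33554432 : ℕ) : ℝ) / S ≤ x)
    (hx' : x ≤ (((33554432 : ℕ) : ℝ) + (16777216 : ℕ)) / S) :
    AltB (VF κ) PP tKF tL pcF [⟨3, 0, 0, 1449551462⟩] 1 0 2 4 0 (sgb true) (sgb false) x :=
  strip_altB (m := 1449551462) true rfl hκ covF41 covF02 hx hx' c_B40pm_102_s1 cutB_nil (noExt_B)

noncomputable def cut_B40pm_112_s1 : Cut := Cut.of [[⟨4, 0, 0, 1449551462⟩]]

noncomputable def f_B40pm_112_s1 : ℕ → ℕ → ℕ → ℕ → Bool := onCell 536870912 536870912 0 536870912 33554432 16777216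
    (rowFK 0 false true false .dn 1 1 2 (qsf 536870912 536870912 0 536870912 1) ndF4q1 ndF0q2 pcF1 cut_B40pm_112_s1 Ext.none)

def k0_B40pm_112_s1 : ∃ t, chk3 f_B40pm_112_s1 t 1 1 1 = true :=
  ⟨(l 6), by decide +kernel⟩

theorem c_B40pm_112_s1 : CertF 536870912 536870912 0 536870912 33554432 16777216 false true false .dn 1 1 2
    ndF4q1 ndF0q2 pcF1 cut_B40pm_112_s1 Ext.none :=
  certFK0 (fam := false) (s1 := true) (s2 := false) (a := 1) (b := 1) (c := 2) (cn := .dn) (n1 := ndF4q1) (n2 := ndF0q2) (pc := pcF1) (cut := cut_B40pm_112_s1) (xt := Ext.none) (P1 := 536870912) (W1 := 536870912) (P2 := 0) (W2 := 536870912) (P3 := 33554432) (W3 := 16777216)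
    rfl rfl rfl k0_B40pm_112_s1

theorem s_B40pm_112_s1 {κ x : ℝ} (hκ : κ * h0 = ken x) (hx : ((33554432 : ℕ) : ℝ) / S ≤ x)
    (hx' : x ≤ (((33554432 : ℕ) : ℝ) + (16777216 : ℕ)) / S) :
    AltB (VF κ) PP tKF tL pcF [⟨3, 0, 0, 1449551462⟩] 1 1 2 4 0 (sgb true) (sgb false) x :=
  strip_altB (m := 1449551462) true rfl hκ covF41 covF02 hx hx' c_B40pm_112_s1 cutB_nil (noExt_B)

noncomputable def cut_B40pm_202_s1 : Cut := Cut.of [[⟨4, 0, 0, 1449551462⟩]]

noncomputable def f_B40pm_202_s1 : ℕ → ℕ → ℕ → ℕ → Bool := onCell 0 536870912 0 536870912 33554432 16777216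
    (rowFK 2 false true false .pp 2 0 2 (qsf 1073741824 536870912 0 536870912 0) ndF4q2 ndF0q2 pcF0 cut_B40pm_202_s1 Ext.none)

def k0_B40pm_202_s1 : ∃ t, chk3 f_B40pm_202_s1 t 1 1 1 = true :=
  ⟨(l 6), by decide +kernel⟩

theorem c_B40pm_202_s1 : CertF 1073741824 536870912 0 536870912 33554432 16777216 false true false .pp 2 0 2
    ndF4q2 ndF0q2 pcF0 cut_B40pm_202_s1 Ext.none :=
  certFK2 (fam := false) (s1 := true) (s2 := false) (a := 2) (b := 0) (c := 2) (cn := .pp) (n1 := ndF4q2) (n2 := ndF0q2) (pc := pcF0) (cut := cut_B40pm_202_s1) (xt := Ext.none) (P1 := 1073741824) (W1 := 536870912) (P2 := 0) (W2 := 536870912) (P3 := 33554432) (W3 := 16777216)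
    rfl rfl rfl (fun _ => rfl) k0_B40pm_202_s1

theorem s_B40pm_202_s1 {κ x : ℝ} (hκ : κ * h0 = ken x) (hx : ((33554432 : ℕ) : ℝ) / S ≤ x)
    (hx' : x ≤ (((33554432 : ℕ) : ℝ) + (16777216 : ℕ)) / S) :
    AltB (VF κ) PP tKF tL pcF [⟨3, 0, 0, 1449551462⟩] 2 0 2 4 0 (sgb true) (sgb false) x :=
  strip_altB (m := 1449551462) true rfl hκ covF42 covF02 hx hx' c_B40pm_202_s1 cutB_nil (noExt_B)

noncomputable def cut_B40mm_001_s1 : Cut := Cut.of [[⟨4, 0, 0, 1449551462⟩]]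

noncomputable def f_B40mm_001_s1 : ℕ → ℕ → ℕ → ℕ → Bool := onCell 0 536870912 536870912 536870912 33554432 16777216
    (rowFK 0 false false false .up 0 0 1 (qsf 0 536870912 536870912 536870912 0) ndF4q0 ndF0q1 pcF0 cut_B40mm_001_s1 Ext.none)

def k0_B40mm_001_s1 : ∃ t, chk3 f_B40mm_001_s1 t 1 1 1 = true :=
  ⟨(l 5), by decide +kernel⟩

theorem c_B40mm_001_s1 : CertF 0 536870912 536870912 536870912 33554432 16777216 false false false .up 0 0 1
    ndF4q0 ndF0q1 pcF0 cut_B40mm_001_s1 Ext.none :=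
  certFK0 (fam := false) (s1 := false) (s2 := false) (a := 0) (b := 0) (c := 1) (cn := .up) (n1 := ndF4q0) (n2 := ndF0q1) (pc := pcF0) (cut := cut_B40mm_001_s1) (xt := Ext.none) (P1 := 0) (W1 := 536870912) (P2 := 536870912) (W2 := 536870912) (P3 := 33554432) (W3 := 16777216)
    rfl rfl rfl k0_B40mm_001_s1

theorem s_B40mm_001_s1 {κ x : ℝ} (hκ : κ * h0 = ken x) (hx : ((33554432 : ℕ) : ℝ) / S ≤ x)
    (hx' : x ≤ (((33554432 : ℕ) : ℝ) + (16777216 : ℕ)) / S) :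
    AltB (VF κ) PP tKF tL pcF [⟨3, 0, 0, 1449551462⟩] 0 0 1 4 0 (sgb false) (sgb false) x :=
  strip_altB (m := 1449551462) true rfl hκ covF40 covF01 hx hx' c_B40mm_001_s1 cutB_nil (noExt_B)

noncomputable def cut_B40mm_011_s1 : Cut := Cut.of [[⟨4, 0, 0, 1449551462⟩]]

noncomputable def f_B40mm_011_s1 : ℕ → ℕ → ℕ → ℕ → Bool := onCell 0 536870912 536870912 536870912 33554432 16777216
    (rowFK 0 false false false .pnn 0 1 1 (qsf 0 536870912 536870912 536870912 1) ndF4q0 ndF0q1 pcF1 cut_B40mm_011_s1 Ext.none)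

def k0_B40mm_011_s1 : ∃ t, chk3 f_B40mm_011_s1 t 1 1 1 = true :=
  ⟨(l 5), by decide +kernel⟩

theorem c_B40mm_011_s1 : CertF 0 536870912 536870912 536870912 33554432 16777216 false false false .pnn 0 1 1
    ndF4q0 ndF0q1 pcF1 cut_B40mm_011_s1 Ext.none :=
  certFK0 (fam := false) (s1 := false) (s2 := false) (a := 0) (b := 1) (c := 1) (cn := .pnn) (n1 := ndF4q0) (n2 := ndF0q1) (pc := pcF1) (cut := cut_B40mm_011_s1) (xt := Ext.none) (P1 := 0) (W1 := 536870912) (P2 := 536870912) (W2 := 536870912) (P3 := 33554432) (W3 := 16777216)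
    rfl rfl rfl k0_B40mm_011_s1

theorem s_B40mm_011_s1 {κ x : ℝ} (hκ : κ * h0 = ken x) (hx : ((33554432 : ℕ) : ℝ) / S ≤ x)
    (hx' : x ≤ (((33554432 : ℕ) : ℝ) + (16777216 : ℕ)) / S) :
    AltB (VF κ) PP tKF tL pcF [⟨3, 0, 0, 1449551462⟩] 0 1 1 4 0 (sgb false) (sgb false) x :=
  strip_altB (m := 1449551462) true rfl hκ covF40 covF01 hx hx' c_B40mm_011_s1 cutB_nil (noExt_B)

noncomputable def cut_B40mm_012_s1 : Cut := Cut.of [[⟨4, 0, 0, 1449551462⟩]]

noncomputable def f_B40mm_012_s1 : ℕ → ℕ → ℕ → ℕ → Bool := onCell 0 536870912 0 536870912 33554432 16777216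
    (rowFK 0 false false false .pnp 0 1 2 (qsf 0 536870912 0 536870912 1) ndF4q0 ndF0q2 pcF1 cut_B40mm_012_s1 Ext.none)

def k0_B40mm_012_s1 : ∃ t, chk3 f_B40mm_012_s1 t 1 1 1 = true :=
  ⟨(l 5), by decide +kernel⟩

theorem c_B40mm_012_s1 : CertF 0 536870912 0 536870912 33554432 16777216 false false false .pnp 0 1 2
    ndF4q0 ndF0q2 pcF1 cut_B40mm_012_s1 Ext.none :=
  certFK0 (fam := false) (s1 := false) (s2 := false) (a := 0) (b := 1) (c := 2) (cn := .pnp) (n1 := ndF4q0) (n2 := ndF0q2) (pc := pcF1) (cut := cut_B40mm_012_s1) (xt := Ext.none) (P1 := 0) (W1 := 536870912) (P2 := 0) (W2 := 536870912) (P3 := 33554432) (W3 := 16777216)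
    rfl rfl rfl k0_B40mm_012_s1

theorem s_B40mm_012_s1 {κ x : ℝ} (hκ : κ * h0 = ken x) (hx : ((33554432 : ℕ) : ℝ) / S ≤ x)
    (hx' : x ≤ (((33554432 : ℕ) : ℝ) + (16777216 : ℕ)) / S) :
    AltB (VF κ) PP tKF tL pcF [⟨3, 0, 0, 1449551462⟩] 0 1 2 4 0 (sgb false) (sgb false) x :=
  strip_altB (m := 1449551462) true rfl hκ covF40 covF02 hx hx' c_B40mm_012_s1 cutB_nil (noExt_B)

noncomputable def cut_B40mm_022_s1 : Cut := Cut.of [[⟨4, 0, 0, 1449551462⟩]]

noncomputable def f_B40mm_022_s1 : ℕ → ℕ → ℕ → ℕ → Bool := onCell 0 536870912 0 536870912 33554432 16777216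
    (rowFK 0 false false false .pp 0 2 2 (qsf 0 536870912 0 536870912 2) ndF4q0 ndF0q2 pcF2 cut_B40mm_022_s1 Ext.none)

def k0_B40mm_022_s1 : ∃ t, chk3 f_B40mm_022_s1 t 1 1 1 = true :=
  ⟨(l 5), by decide +kernel⟩

theorem c_B40mm_022_s1 : CertF 0 536870912 0 536870912 33554432 16777216 false false false .pp 0 2 2
    ndF4q0 ndF0q2 pcF2 cut_B40mm_022_s1 Ext.none :=
  certFK0 (fam := false) (s1 := false) (s2 := false) (a := 0) (b := 2) (c := 2) (cn := .pp) (n1 := ndF4q0) (n2 := ndF0q2) (pc := pcF2) (cut := cut_B40mm_022_s1) (xt := Ext.none) (P1 := 0) (W1 := 536870912) (P2 := 0) (W2 := 536870912) (P3 := 33554432) (W3 := 16777216)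
    rfl rfl rfl k0_B40mm_022_s1

theorem s_B40mm_022_s1 {κ x : ℝ} (hκ : κ * h0 = ken x) (hx : ((33554432 : ℕ) : ℝ) / S ≤ x)
    (hx' : x ≤ (((33554432 : ℕ) : ℝ) + (16777216 : ℕ)) / S) :
    AltB (VF κ) PP tKF tL pcF [⟨3, 0, 0, 1449551462⟩] 0 2 2 4 0 (sgb false) (sgb false) x :=
  strip_altB (m := 1449551462) true rfl hκ covF40 covF02 hx hx' c_B40mm_022_s1 cutB_nil (noExt_B)

noncomputable def cut_B40mm_101_s1 : Cut := Cut.of [[⟨4, 0, 0, 1449551462⟩]]

noncomputable def f_B40mm_101_s1 : ℕ → ℕ → ℕ → ℕ → Bool := onCell 0 536870912 536870912 536870912 33554432 16777216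
    (rowFK 2 false false false .npn 1 0 1 (qsf 536870912 536870912 536870912 536870912 0) ndF4q1 ndF0q1 pcF0 cut_B40mm_101_s1 Ext.none)

def k0_B40mm_101_s1 : ∃ t, chk3 f_B40mm_101_s1 t 1 1 1 = true :=
  ⟨(l 5), by decide +kernel⟩

theorem c_B40mm_101_s1 : CertF 536870912 536870912 536870912 536870912 33554432 16777216 false false false .npn 1 0 1
    ndF4q1 ndF0q1 pcF0 cut_B40mm_101_s1 Ext.none :=
  certFK2 (fam := false) (s1 := false) (s2 := false) (a := 1) (b := 0) (c := 1) (cn := .npn) (n1 := ndF4q1) (n2 := ndF0q1) (pc := pcF0) (cut := cut_B40mm_101_s1) (xt := Ext.none) (P1 := 536870912) (W1 := 536870912) (P2 := 536870912) (W2 := 536870912) (P3 := 33554432) (W3 := 16777216)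
    rfl rfl rfl (fun _ => rfl) k0_B40mm_101_s1

theorem s_B40mm_101_s1 {κ x : ℝ} (hκ : κ * h0 = ken x) (hx : ((33554432 : ℕ) : ℝ) / S ≤ x)
    (hx' : x ≤ (((33554432 : ℕ) : ℝ) + (16777216 : ℕ)) / S) :
    AltB (VF κ) PP tKF tL pcF [⟨3, 0, 0, 1449551462⟩] 1 0 1 4 0 (sgb false) (sgb false) x :=
  strip_altB (m := 1449551462) true rfl hκ covF41 covF01 hx hx' c_B40mm_101_s1 cutB_nil (noExt_B)

noncomputable def cut_B40mm_102_s1 : Cut := Cut.of [[⟨4, 0, 0, 1449551462⟩]]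

noncomputable def f_B40mm_102_s1 : ℕ → ℕ → ℕ → ℕ → Bool := onCell 536870912 536870912 0 536870912 33554432 16777216
    (rowFK 0 false false false .npp 1 0 2 (qsf 536870912 536870912 0 536870912 0) ndF4q1 ndF0q2 pcF0 cut_B40mm_102_s1 Ext.none)

def k0_B40mm_102_s1 : ∃ t, chk3 f_B40mm_102_s1 t 1 1 1 = true :=
  ⟨(l 5), by decide +kernel⟩

theorem c_B40mm_102_s1 : CertF 536870912 536870912 0 536870912 33554432 16777216 false false false .npp 1 0 2
    ndF4q1 ndF0q2 pcF0 cut_B40mm_102_s1 Ext.none :=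
  certFK0 (fam := false) (s1 := false) (s2 := false) (a := 1) (b := 0) (c := 2) (cn := .npp) (n1 := ndF4q1) (n2 := ndF0q2) (pc := pcF0) (cut := cut_B40mm_102_s1) (xt := Ext.none) (P1 := 536870912) (W1 := 536870912) (P2 := 0) (W2 := 536870912) (P3 := 33554432) (W3 := 16777216)
    rfl rfl rfl k0_B40mm_102_s1

theorem s_B40mm_102_s1 {κ x : ℝ} (hκ : κ * h0 = ken x) (hx : ((33554432 : ℕ) : ℝ) / S ≤ x)
    (hx' : x ≤ (((33554432 : ℕ) : ℝ) + (16777216 : ℕ)) / S) :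
    AltB (VF κ) PP tKF tL pcF [⟨3, 0, 0, 1449551462⟩] 1 0 2 4 0 (sgb false) (sgb false) x :=
  strip_altB (m := 1449551462) true rfl hκ covF41 covF02 hx hx' c_B40mm_102_s1 cutB_nil (noExt_B)

noncomputable def cut_B40mm_112_s1 : Cut := Cut.of [[⟨4, 0, 0, 1449551462⟩]]

noncomputable def f_B40mm_112_s1 : ℕ → ℕ → ℕ → ℕ → Bool := onCell 536870912 536870912 0 536870912 33554432 16777216
    (rowFK 0 false false false .dn 1 1 2 (qsf 536870912 536870912 0 536870912 1) ndF4q1 ndF0q2 pcF1 cut_B40mm_112_s1 Ext.none)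

def k0_B40mm_112_s1 : ∃ t, chk3 f_B40mm_112_s1 t 1 1 1 = true :=
  ⟨(l 5), by decide +kernel⟩

theorem c_B40mm_112_s1 : CertF 536870912 536870912 0 536870912 33554432 16777216 false false false .dn 1 1 2
    ndF4q1 ndF0q2 pcF1 cut_B40mm_112_s1 Ext.none :=
  certFK0 (fam := false) (s1 := false) (s2 := false) (a := 1) (b := 1) (c := 2) (cn := .dn) (n1 := ndF4q1) (n2 := ndF0q2) (pc := pcF1) (cut := cut_B40mm_112_s1) (xt := Ext.none) (P1 := 536870912) (W1 := 536870912) (P2 := 0) (W2 := 536870912) (P3 := 33554432) (W3 := 16777216)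
    rfl rfl rfl k0_B40mm_112_s1

theorem s_B40mm_112_s1 {κ x : ℝ} (hκ : κ * h0 = ken x) (hx : ((33554432 : ℕ) : ℝ) / S ≤ x)
    (hx' : x ≤ (((33554432 : ℕ) : ℝ) + (16777216 : ℕ)) / S) :
    AltB (VF κ) PP tKF tL pcF [⟨3, 0, 0, 1449551462⟩] 1 1 2 4 0 (sgb false) (sgb false) x :=
  strip_altB (m := 1449551462) true rfl hκ covF41 covF02 hx hx' c_B40mm_112_s1 cutB_nil (noExt_B)

noncomputable def cut_B40mm_202_s1 : Cut := Cut.of [[⟨4, 0, 0, 1449551462⟩]]

noncomputable def f_B40mm_202_s1 : ℕ → ℕ → ℕ → ℕ → Bool := onCell 1073741824 536870912 0 536870912 33554432 16777216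
    (rowFK 0 false false false .pp 2 0 2 (qsf 1073741824 536870912 0 536870912 0) ndF4q2 ndF0q2 pcF0 cut_B40mm_202_s1 Ext.none)

def k0_B40mm_202_s1 : ∃ t, chk3 f_B40mm_202_s1 t 1 1 1 = true :=
  ⟨(l 5), by decide +kernel⟩

theorem c_B40mm_202_s1 : CertF 1073741824 536870912 0 536870912 33554432 16777216 false false false .pp 2 0 2
    ndF4q2 ndF0q2 pcF0 cut_B40mm_202_s1 Ext.none :=
  certFK0 (fam := false) (s1 := false) (s2 := false) (a := 2) (b := 0) (c := 2) (cn := .pp) (n1 := ndF4q2) (n2 := ndF0q2) (pc := pcF0) (cut := cut_B40mm_202_s1) (xt := Ext.none) (P1 := 1073741824) (W1 := 536870912) (P2 := 0) (W2 := 536870912) (P3 := 33554432) (W3 := 16777216)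
    rfl rfl rfl k0_B40mm_202_s1

theorem s_B40mm_202_s1 {κ x : ℝ} (hκ : κ * h0 = ken x) (hx : ((33554432 : ℕ) : ℝ) / S ≤ x)
    (hx' : x ≤ (((33554432 : ℕ) : ℝ) + (16777216 : ℕ)) / S) :
    AltB (VF κ) PP tKF tL pcF [⟨3, 0, 0, 1449551462⟩] 2 0 2 4 0 (sgb false) (sgb false) x :=
  strip_altB (m := 1449551462) true rfl hκ covF42 covF02 hx hx' c_B40mm_202_s1 cutB_nil (noExt_B)

end Pool.Agent.Strip051.G.I1_32_3_64.Tab.St.C
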