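import Pool.Agent.Strip051.G.I1_32_3_64.Gn
import Pool.Agent.Strip051.PB.Corns
import Pool.Agent.Strip051.PB.CornK

/-! # Certificates of the aligned corners (generated) -/

set_option linter.all false

namespace Pool.Agent.Strip051.G.I1_32_3_64.Tab.CN

open Pool.Agent.Strip051.PB

def A022L_003_1_2_1 :
    ∃ t, chk3 (onCell 0 33554432 0 1073741824 33554432 16777216 (corTK [] false 3 c0N cA022L gN0q0 gN0q2 gN3q2 gN4q2 false true)) t 1 2 1 = true :=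
  ⟨(T.b (T.b (T.a (T.a (T.a (T.b (T.a (T.c (T.b (T.l 204) (T.l 204)) (T.l 204)) (T.l 204)) (T.a (T.b (T.l 220) (T.l 204)) (T.l 204))) (T.a (T.l 204) (T.a (T.l 460) (T.b (T.b (T.l 204) (T.l 204)) (T.l 204))))) (T.a (T.a (T.b (T.a (T.b (T.l 204) (T.l 204)) (T.b (T.l 204) (T.l 204))) (T.a (T.b (T.l 204) (T.l 204)) (T.b (T.l 204) (T.l 204)))) (T.b (T.a (T.l 204) (T.l 204)) (T.a (T.l 460) (T.l 204)))) (T.a (T.b (T.b (T.l 204) (T.l 204)) (T.b (T.l 204) (T.l 204))) (T.b (T.b (T.l 204) (T.l 204)) (T.b (T.l 204) (T.l 204)))))) (T.a (T.a (T.b (T.a (T.l 204) (T.l 204)) (T.a (T.l 460) (T.l 204))) (T.b (T.b (T.l 204) (T.l 204)) (T.b (T.l 204) (T.l 204)))) (T.a (T.b (T.l 460) (T.l 460)) (T.b (T.l 460) (T.l 460))))) (T.a (T.a (T.a (T.b (T.c (T.b (T.l 204) (T.l 204)) (T.l 204)) (T.b (T.l 204) (T.l 204))) (T.a (T.l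 204) (T.b (T.l 204) (T.l 204)))) (T.a (T.a (T.b (T.a (T.b (T.l 204) (T.l 204)) (T.b (T.l 204) (T.l 204))) (T.a (T.l 204) (T.b (T.l 204) (T.l 204)))) (T.b (T.a (T.l 460) (T.l 460)) (T.a (T.b (T.l 204) (T.l 204)) (T.l 460)))) (T.a (T.b (T.b (T.l 204) (T.l 204)) (T.b (T.l 204) (T.l 204))) (T.b (T.b (T.l 204) (T.l 204)) (T.b (T.l 204) (T.l 204)))))) (T.a (T.a (T.b (T.a (T.l 460) (T.l 204)) (T.a (T.l 460) (T.l 460))) (T.b (T.b (T.l 204) (T.l 204)) (T.b (T.l 204) (T.l 460)))) (T.a (T.b (T.l 460) (T.l 460)) (T.b (T.l 204) (T.l 460)))))) (T.b (T.a (T.a (T.b (T.a (T.b (T.l 204) (T.l 204)) (T.l 204)) (T.a (T.l 204) (T.l 204))) (T.a (T.a (T.b (T.l 204) (T.l 204)) (T.b (T.a (T.b (T.l 204) (T.l 204)) (T.l 460)) (T.a (T.l 204) (T.b (T.l 204) (T.l 204))))) (T.b (T.a (T.b (T.l 460) (T.l 460)) (T.b (T.l 204) (T.l 204)))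 (T.a (T.b (T.l 460) (T.l 460)) (T.b (T.l 204) (T.l 204)))))) (T.a (T.a (T.b (T.a (T.b (T.l 204) (T.l 204)) (T.l 460)) (T.a (T.b (T.l 204) (T.l 204)) (T.l 460))) (T.b (T.b (T.l 460) (T.l 460)) (T.a (T.l 460) (T.l 460)))) (T.a (T.b (T.b (T.l 204) (T.l 204)) (T.b (T.l 204) (T.l 460))) (T.b (T.l 460) (T.b (T.l 204) (T.l 204)))))) (T.a (T.a (T.b (T.b (T.l 204) (T.l 204)) (T.b (T.l 204) (T.l 204))) (T.a (T.a (T.l 204) (T.b (T.l 204) (T.l 204))) (T.b (T.a (T.b (T.l 460) (T.b (T.l 204) (T.l 204))) (T.b (T.l 460) (T.l 460))) (T.a (T.b (T.b (T.l 204) (T.l 204)) (T.l 204)) (T.b (T.l 460) (T.b (T.l 204) (T.l 204))))))) (T.a (T.a (T.b (T.a (T.b (T.l 204) (T.l 460)) (T.b (T.l 204) (T.l 204))) (T.a (T.b (T.l 460) (T.l 460)) (T.b (T.l 204) (T.l 460)))) (T.b (T.a (T.b (T.l 204) (T.l 204)) (T.l 460)) (T.a (T.b (T.l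 204) (T.l 204)) (T.b (T.l 204) (T.l 204))))) (T.b (T.a (T.b (T.l 460) (T.l 460)) (T.b (T.l 204) (T.l 460))) (T.a (T.b (T.l 460) (T.b (T.l 204) (T.l 204))) (T.b (T.l 460) (T.l 460)))))))), by decide +kernel⟩

def A022L_003_1_12_1 :
    ∃ t, chk3 (onCell 0 33554432 0 1073741824 33554432 16777216 (corTK [] false 3 c0N cA022L gN0q0 gN0q2 gN3q2 gN4q2 false true)) t 1 12 1 = true :=
  ⟨(T.a (T.a (T.b (T.b (T.l 204) (T.l 204)) (T.l 0)) (T.a (T.b (T.l 204) (T.l 204)) (T.b (T.a (T.b (T.l 204) (T.l 204)) (T.b (T.b (T.l 204) (T.l 204)) (T.l 204))) (T.b (T.b (T.l 460) (T.l 460)) (T.b (T.l 0) (T.l 0)))))) (T.a (T.a (T.b (T.b (T.a (T.l 460) (T.l 460)) (T.a (T.b (T.l 204) (T.l 204)) (T.l 460))) (T.b (T.a (T.b (T.l 204) (T.l 204)) (T.b (T.l 204) (T.l 204))) (T.a (T.l 0) (T.b (T.l 204) (T.l 0))))) (T.b (T.b (T.a (T.l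 460) (T.l 204)) (T.a (T.l 460) (T.l 460))) (T.b (T.a (T.b (T.l 204) (T.l 204)) (T.b (T.l 204) (T.l 204))) (T.a (T.b (T.l 204) (T.l 0)) (T.b (T.l 204) (T.l 0)))))) (T.b (T.a (T.b (T.b (T.l 460) (T.l 460)) (T.b (T.l 460) (T.l 460))) (T.b (T.l 476) (T.b (T.l 204) (T.l 460)))) (T.a (T.b (T.a (T.l 460) (T.l 460)) (T.a (T.b (T.l 204) (T.l 0)) (T.b (T.l 204) (T.l 0)))) (T.b (T.b (T.l 460) (T.l 460)) (T.b (T.b (T.l 204) (T.l 204)) (T.b (T.l 256) (T.l 256)))))))), by decide +kernel⟩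

def A022L_003_1_52_1 :
    ∃ t, chk3 (onCell 0 33554432 0 1073741824 33554432 16777216 (corTK [] false 3 c0N cA022L gN0q0 gN0q2 gN3q2 gN4q2 false true)) t 1 52 1 = true :=
  ⟨(T.a (T.a (T.b (T.l 0) (T.a (T.l 816) (T.l 816))) (T.a (T.a (T.l 0) (T.b (T.l 0) (T.b (T.l 816) (T.l 816)))) (T.b (T.b (T.l 0) (T.l 0)) (T.a (T.l 880) (T.l 816))))) (T.a (T.a (T.b (T.b (T.l 0) (T.l 0)) (T.a (T.l 816) (T.l 816))) (T.a (T.b (T.b (T.l 0) (T.l 0)) (T.b (T.l 0) (T.l 816))) (T.b (T.b (T.l 0) (T.l 0)) (T.a (T.l 880) (T.l 64))))) (T.a (T.a (T.b (T.l 64) (T.b (T.l 0) (T.l 884))) (T.b (T.l 0) (T.b (T.l 0) (T.l 880)))) (T.b (T.a (T.l 0) (T.l 0)) (T.a (T.b (T.l 0) (T.l 0)) (T.b (T.l 0) (T.l 0))))))), by decide +kernel⟩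

def A022L_003_1_212_1 :
    ∃ t, chk3 (onCell 0 33554432 0 1073741824 33554432 16777216 (corTK [] false 3 c0N cA022L gN0q0 gN0q2 gN3q2 gN4q2 false true)) t 1 212 1 = true :=
  ⟨(T.b (T.a (T.a (T.l 816) (T.a (T.a (T.l 816) (T.l 816)) (T.a (T.l 816) (T.l 816)))) (T.a (T.a (T.a (T.l 816) (T.l 816)) (T.a (T.l 816) (T.l 884))) (T.a (T.a (T.l 880) (T.l 816)) (T.a (T.l 816) (T.l 816))))) (T.a (T.a (T.a (T.l 816) (T.l 816)) (T.a (T.a (T.l 816) (T.c (T.l 816) (T.l 816))) (T.a (T.l 880) (T.l 816)))) (T.a (T.a (T.a (T.l 816) (T.l 816)) (T.a (T.l 884) (T.c (T.l 884) (T.l 880)))) (T.a (T.a (T.c (T.l 816) (T.l 816)) (T.l 884)) (T.a (T.l 880) (T.l 816)))))), by decide +kernel⟩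

def A022L_003_4_852_2 :
    ∃ t, chk3 (onCell 0 33554432 0 1073741824 33554432 16777216 (corTK [] false 3 c0N cA022L gN0q0 gN0q2 gN3q2 gN4q2 false true)) t 4 852 2 = true :=
  ⟨(T.a (T.l 816) (T.l 816)), by decide +kernel⟩

def A022L_003_4_853_4 :
    ∃ t, chk3 (onCell 0 33554432 0 1073741824 33554432 16777216 (corTK [] false 3 c0N cA022L gN0q0 gN0q2 gN3q2 gN4q2 false true)) t 4 853 4 = true :=
  ⟨(T.b (T.a (T.a (T.c (T.b (T.l 816) (T.c (T.b (T.l 816) (T.a (T.a (T.l 2) (T.c (T.b (T.c (T.b (T.l 816) (T.l 2)) (T.b (T.l 816) (T.l 2))) (T.l 2)) (T.b (T.c (T.b (T.l 816) (T.l 2)) (T.b (T.l 816) (T.l 2))) (T.l 2)))) (T.c (T.b (T.l 816) (T.a (T.l 2) (T.c (T.b (T.l 816) (T.l 2)) (T.b (T.l 816) (T.l 2))))) (T.b (T.l 816) (T.a (T.l 2) (T.c (T.b (T.l 816) (T.l 2)) (T.b (T.l 816) (T.l 2)))))))) (T.b (T.l 816)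 (T.a (T.a (T.l 2) (T.c (T.b (T.c (T.b (T.l 816) (T.l 2)) (T.b (T.l 816) (T.l 2))) (T.l 2)) (T.b (T.c (T.b (T.l 816) (T.l 2)) (T.b (T.l 816) (T.l 2))) (T.l 2)))) (T.c (T.b (T.l 816) (T.a (T.l 2) (T.c (T.b (T.l 816) (T.l 2)) (T.b (T.l 816) (T.l 2))))) (T.b (T.l 816) (T.a (T.l 2) (T.c (T.b (T.l 816) (T.l 2)) (T.b (T.l 816) (T.l 2)))))))))) (T.b (T.l 816) (T.c (T.b (T.l 816) (T.a (T.a (T.l 2) (T.c (T.b (T.c (T.b (T.l 816) (T.l 2)) (T.b (T.l 816) (T.l 2))) (T.l 2)) (T.b (T.c (T.b (T.l 816) (T.l 2)) (T.b (T.l 816) (T.l 2))) (T.l 2)))) (T.c (T.b (T.l 816) (T.a (T.l 2) (T.c (T.b (T.l 816) (T.l 2)) (T.b (T.l 816) (T.l 2))))) (T.b (T.l 816) (T.a (T.l 2) (T.c (T.b (T.l 816) (T.l 2)) (T.b (T.l 816) (T.l 2)))))))) (T.b (T.l 816) (T.a (T.a (T.l 2) (T.c (T.b (T.c (T.b (T.l 816) (T.l 2)) (T.b (T.l 816) (T.l 2))) (T.l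 2)) (T.b (T.c (T.b (T.l 816) (T.l 2)) (T.b (T.l 816) (T.l 2))) (T.l 2)))) (T.c (T.b (T.l 816) (T.a (T.l 2) (T.c (T.b (T.l 816) (T.l 2)) (T.b (T.l 816) (T.l 2))))) (T.b (T.l 816) (T.a (T.l 2) (T.a (T.l 2) (T.l 816)))))))))) (T.l 816)) (T.l 816)) (T.a (T.a (T.l 2) (T.c (T.b (T.c (T.b (T.a (T.a (T.l 2) (T.a (T.l 2) (T.a (T.l 2) (T.c (T.b (T.a (T.l 2) (T.l 816)) (T.l 2)) (T.b (T.a (T.l 2) (T.l 816)) (T.l 2)))))) (T.c (T.b (T.l 816) (T.l 2)) (T.b (T.l 816) (T.l 2)))) (T.l 2)) (T.b (T.a (T.a (T.l 2) (T.a (T.l 2) (T.a (T.l 2) (T.c (T.b (T.a (T.l 2) (T.l 816)) (T.l 2)) (T.b (T.a (T.l 2) (T.l 816)) (T.l 2)))))) (T.c (T.b (T.l 816) (T.l 2)) (T.b (T.l 816) (T.l 2)))) (T.l 2))) (T.l 2)) (T.b (T.c (T.b (T.a (T.a (T.l 2) (T.a (T.l 2) (T.a (T.l 2) (T.c (T.b (T.l 816) (T.l 2)) (T.b (T.l 816) (T.l 2)))))) (T.c (T.b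 (T.l 816) (T.l 2)) (T.b (T.l 816) (T.l 2)))) (T.l 2)) (T.b (T.a (T.a (T.l 2) (T.a (T.l 2) (T.a (T.l 2) (T.c (T.b (T.l 816) (T.l 2)) (T.b (T.l 816) (T.l 2)))))) (T.c (T.b (T.l 816) (T.l 2)) (T.b (T.l 816) (T.l 2)))) (T.l 2))) (T.l 2)))) (T.c (T.b (T.a (T.c (T.b (T.a (T.a (T.a (T.l 816) (T.l 816)) (T.l 816)) (T.l 816)) (T.a (T.l 2) (T.c (T.b (T.a (T.c (T.b (T.l 816) (T.l 2)) (T.b (T.l 816) (T.l 2))) (T.l 816)) (T.l 2)) (T.b (T.a (T.c (T.b (T.l 816) (T.l 2)) (T.b (T.l 816) (T.l 2))) (T.l 816)) (T.l 2))))) (T.b (T.l 816) (T.a (T.l 2) (T.c (T.b (T.a (T.c (T.b (T.l 816) (T.l 2)) (T.b (T.l 816) (T.l 2))) (T.l 816)) (T.l 2)) (T.b (T.a (T.c (T.b (T.l 816) (T.l 2)) (T.b (T.l 816) (T.l 2))) (T.l 816)) (T.l 2)))))) (T.a (T.a (T.a (T.c (T.b (T.l 816) (T.c (T.b (T.l 816) (T.l 2)) (T.b (T.l 816) (T.l 2)))) (T.b (T.l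 816) (T.c (T.b (T.l 816) (T.l 2)) (T.b (T.l 816) (T.l 2))))) (T.l 816)) (T.l 816)) (T.l 816))) (T.a (T.l 2) (T.a (T.l 2) (T.c (T.b (T.c (T.b (T.a (T.a (T.l 2) (T.l 816)) (T.l 816)) (T.l 2)) (T.b (T.a (T.a (T.l 2) (T.l 816)) (T.l 816)) (T.l 2))) (T.l 2)) (T.b (T.c (T.b (T.a (T.a (T.l 2) (T.l 816)) (T.l 816)) (T.l 2)) (T.b (T.a (T.a (T.l 2) (T.l 816)) (T.l 816)) (T.l 2))) (T.l 2)))))) (T.b (T.a (T.c (T.b (T.l 816) (T.a (T.l 2) (T.c (T.b (T.a (T.l 816) (T.l 816)) (T.l 2)) (T.b (T.l 816) (T.l 2))))) (T.b (T.l 816) (T.a (T.l 2) (T.c (T.b (T.l 816) (T.l 2)) (T.b (T.l 816) (T.l 2)))))) (T.a (T.a (T.a (T.c (T.b (T.l 816) (T.c (T.b (T.l 816) (T.l 2)) (T.b (T.l 816) (T.l 2)))) (T.b (T.l 816) (T.c (T.b (T.l 816) (T.l 2)) (T.b (T.l 816) (T.l 2))))) (T.l 816)) (T.l 816)) (T.l 816))) (T.a (T.l 2) (T.a (T.l 2) (T.c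 (T.b (T.c (T.b (T.a (T.a (T.l 2) (T.l 816)) (T.l 816)) (T.l 2)) (T.b (T.a (T.a (T.l 2) (T.l 816)) (T.l 816)) (T.l 2))) (T.l 2)) (T.b (T.c (T.b (T.a (T.a (T.l 2) (T.l 816)) (T.l 816)) (T.l 2)) (T.b (T.a (T.a (T.l 2) (T.l 816)) (T.l 816)) (T.l 2))) (T.l 2))))))))), by decide +kernel⟩

def A022L_003_4_853_5 :
    ∃ t, chk3 (onCell 0 33554432 0 1073741824 33554432 16777216 (corTK [] false 3 c0N cA022L gN0q0 gN0q2 gN3q2 gN4q2 false true)) t 4 853 5 = true :=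
  ⟨(T.b (T.a (T.a (T.c (T.b (T.l 816) (T.c (T.b (T.l 816) (T.a (T.a (T.l 2) (T.c (T.b (T.c (T.b (T.l 816) (T.l 2)) (T.b (T.l 816) (T.l 2))) (T.l 2)) (T.b (T.c (T.b (T.l 816) (T.l 2)) (T.b (T.l 816) (T.l 2))) (T.l 2)))) (T.c (T.b (T.l 816) (T.a (T.l 2) (T.a (T.l 2) (T.l 816)))) (T.b (T.l 816) (T.a (T.l 2) (T.a (T.l 2) (T.l 816))))))) (T.b (T.l 816) (T.a (T.a (T.l 2) (T.c (T.b (T.c (T.b (T.l 816) (T.l 2)) (T.b (T.l 816) (T.l 2))) (T.l 2)) (T.b (T.c (T.b (T.l 816) (T.l 2)) (T.b (T.l 816) (T.l 2))) (T.l 2)))) (T.c (T.b (T.l 816) (T.a (T.l 2) (T.a (T.l 2) (T.l 816)))) (T.b (T.l 816) (T.a (T.l 2) (T.a (T.l 2) (T.l 816))))))))) (T.b (T.l 816) (T.c (T.b (T.l 816) (T.a (T.a (T.l 2) (T.c (T.b (T.c (T.b (T.l 816) (T.l 2)) (T.b (T.l 816) (T.l 2))) (T.l 2)) (T.b (T.c (T.b (T.l 816) (T.l 2)) (T.b (T.l 816) (T.l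 2))) (T.l 2)))) (T.c (T.b (T.l 816) (T.a (T.l 2) (T.a (T.l 2) (T.l 816)))) (T.b (T.l 816) (T.a (T.l 2) (T.a (T.l 2) (T.l 816))))))) (T.b (T.l 816) (T.a (T.a (T.l 2) (T.c (T.b (T.c (T.b (T.l 816) (T.l 2)) (T.b (T.l 816) (T.l 2))) (T.l 2)) (T.b (T.c (T.b (T.l 816) (T.l 2)) (T.b (T.l 816) (T.l 2))) (T.l 2)))) (T.c (T.b (T.l 816) (T.a (T.l 2) (T.a (T.l 2) (T.l 816)))) (T.b (T.l 816) (T.a (T.l 2) (T.a (T.l 2) (T.l 816)))))))))) (T.l 816)) (T.l 816)) (T.a (T.a (T.l 2) (T.c (T.b (T.c (T.b (T.a (T.a (T.l 2) (T.a (T.l 2) (T.a (T.l 2) (T.c (T.b (T.l 816) (T.l 2)) (T.b (T.l 816) (T.l 2)))))) (T.c (T.b (T.l 816) (T.l 2)) (T.b (T.l 816) (T.l 2)))) (T.l 2)) (T.b (T.a (T.a (T.l 2) (T.a (T.l 2) (T.a (T.l 2) (T.c (T.b (T.l 816) (T.l 2)) (T.b (T.l 816) (T.l 2)))))) (T.c (T.b (T.l 816) (T.l 2)) (T.b (T.l 816) (T.l 2))))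 (T.l 2))) (T.l 2)) (T.b (T.c (T.b (T.a (T.a (T.l 2) (T.a (T.l 2) (T.c (T.b (T.l 816) (T.l 2)) (T.b (T.l 816) (T.l 2))))) (T.c (T.b (T.l 816) (T.l 2)) (T.b (T.l 816) (T.l 2)))) (T.l 2)) (T.b (T.a (T.a (T.l 2) (T.a (T.l 2) (T.c (T.b (T.l 816) (T.l 2)) (T.b (T.l 816) (T.l 2))))) (T.c (T.b (T.l 816) (T.l 2)) (T.b (T.l 816) (T.l 2)))) (T.l 2))) (T.l 2)))) (T.c (T.b (T.a (T.c (T.b (T.l 816) (T.a (T.l 2) (T.c (T.b (T.l 816) (T.l 2)) (T.b (T.l 816) (T.l 2))))) (T.b (T.l 816) (T.a (T.l 2) (T.c (T.b (T.l 816) (T.l 2)) (T.b (T.l 816) (T.l 2)))))) (T.a (T.c (T.a (T.c (T.a (T.b (T.l 816) (T.b (T.l 816) (T.l 2))) (T.l 816)) (T.l 816)) (T.l 816)) (T.l 816)) (T.l 816))) (T.a (T.l 2) (T.a (T.l 2) (T.c (T.b (T.c (T.b (T.a (T.a (T.l 2) (T.l 816)) (T.l 816)) (T.l 2)) (T.b (T.a (T.a (T.l 2) (T.l 816)) (T.l 816)) (T.l 2)))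 (T.l 2)) (T.b (T.c (T.b (T.a (T.a (T.l 2) (T.l 816)) (T.l 816)) (T.l 2)) (T.b (T.a (T.a (T.l 2) (T.l 816)) (T.l 816)) (T.l 2))) (T.l 2)))))) (T.b (T.a (T.c (T.b (T.l 816) (T.a (T.l 2) (T.c (T.b (T.l 816) (T.l 2)) (T.b (T.l 816) (T.l 2))))) (T.b (T.l 816) (T.a (T.l 2) (T.c (T.b (T.l 816) (T.l 2)) (T.b (T.l 816) (T.l 2)))))) (T.a (T.l 816) (T.l 816))) (T.a (T.l 2) (T.a (T.l 2) (T.c (T.b (T.c (T.b (T.a (T.a (T.l 2) (T.l 816)) (T.l 816)) (T.l 2)) (T.b (T.a (T.a (T.l 2) (T.l 816)) (T.l 816)) (T.l 2))) (T.l 2)) (T.b (T.c (T.b (T.a (T.a (T.l 2) (T.l 816)) (T.l 816)) (T.l 2)) (T.b (T.l 816) (T.l 2))) (T.l 2))))))))), by decide +kernel⟩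

def A022L_003_4_426_3 :
    ∃ t, chk3 (onCell 0 33554432 0 1073741824 33554432 16777216 (corTK [] false 3 c0N cA022L gN0q0 gN0q2 gN3q2 gN4q2 false true)) t 4 426 3 = true :=
  ⟨(T.b (T.l 816) (T.c (T.b (T.a (T.a (T.c (T.b (T.l 816) (T.c (T.b (T.l 816) (T.a (T.a (T.l 2) (T.c (T.b (T.c (T.b (T.l 816) (T.l 2)) (T.b (T.l 816) (T.l 2))) (T.l 2)) (T.b (T.c (T.b (T.l 816) (T.l 2)) (T.b (T.l 816) (T.l 2))) (T.l 2)))) (T.c (T.b (T.l 816) (T.a (T.l 2) (T.a (T.l 2) (T.l 816)))) (T.b (T.l 816) (T.a (T.l 2) (T.a (T.l 2) (T.l 816))))))) (T.b (T.l 816) (T.a (T.a (T.l 2) (T.c (T.b (T.c (T.b (T.l 816) (T.l 2)) (T.l 816)) (T.l 2)) (T.b (T.l 816) (T.l 2)))) (T.c (T.b (T.l 816) (T.a (T.l 2) (T.a (T.l 2) (T.l 816)))) (T.b (T.l 816) (T.a (T.l 2) (T.a (T.l 2) (T.l 816))))))))) (T.b (T.l 816) (T.c (T.b (T.l 816) (T.a (T.a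 (T.l 2) (T.c (T.b (T.l 816) (T.l 2)) (T.b (T.l 816) (T.l 2)))) (T.c (T.b (T.l 816) (T.a (T.l 2) (T.a (T.l 2) (T.l 816)))) (T.b (T.l 816) (T.a (T.l 2) (T.a (T.l 2) (T.l 816))))))) (T.b (T.l 816) (T.a (T.a (T.l 2) (T.c (T.b (T.l 816) (T.l 2)) (T.b (T.l 816) (T.l 2)))) (T.c (T.b (T.l 816) (T.a (T.l 2) (T.a (T.l 2) (T.l 816)))) (T.b (T.l 816) (T.a (T.l 2) (T.a (T.l 2) (T.l 816)))))))))) (T.l 816)) (T.l 816)) (T.a (T.a (T.l 2) (T.c (T.b (T.c (T.b (T.a (T.a (T.l 2) (T.a (T.l 2) (T.c (T.b (T.l 816) (T.l 2)) (T.b (T.l 816) (T.l 2))))) (T.c (T.b (T.l 816) (T.l 2)) (T.b (T.l 816) (T.l 2)))) (T.l 2)) (T.b (T.a (T.a (T.l 2) (T.a (T.l 2) (T.c (T.b (T.l 816) (T.l 2)) (T.b (T.l 816) (T.l 2))))) (T.c (T.b (T.l 816) (T.l 2)) (T.b (T.l 816) (T.l 2)))) (T.l 2))) (T.l 2)) (T.b (T.c (T.b (T.a (T.a (T.l 2) (T.a (T.l 2)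 (T.c (T.b (T.l 816) (T.l 2)) (T.b (T.l 816) (T.l 2))))) (T.c (T.b (T.l 816) (T.l 2)) (T.b (T.l 816) (T.l 2)))) (T.l 2)) (T.b (T.a (T.a (T.l 2) (T.a (T.l 2) (T.c (T.b (T.l 816) (T.l 2)) (T.b (T.l 816) (T.l 2))))) (T.c (T.b (T.l 816) (T.l 2)) (T.b (T.l 816) (T.l 2)))) (T.l 2))) (T.l 2)))) (T.c (T.b (T.a (T.c (T.b (T.l 816) (T.a (T.l 2) (T.c (T.b (T.l 816) (T.l 2)) (T.b (T.l 816) (T.l 2))))) (T.b (T.l 816) (T.a (T.l 2) (T.c (T.b (T.l 816) (T.l 2)) (T.b (T.l 816) (T.l 2)))))) (T.l 816)) (T.a (T.l 2) (T.a (T.l 2) (T.c (T.b (T.c (T.b (T.l 816) (T.l 2)) (T.b (T.l 816) (T.l 2))) (T.l 2)) (T.b (T.c (T.b (T.l 816) (T.l 2)) (T.b (T.l 816) (T.l 2))) (T.l 2)))))) (T.b (T.a (T.c (T.b (T.l 816) (T.a (T.l 2) (T.c (T.b (T.l 816) (T.l 2)) (T.b (T.l 816) (T.l 2))))) (T.b (T.l 816) (T.a (T.l 2) (T.c (T.b (T.l 816) (T.l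 2)) (T.b (T.l 816) (T.l 2)))))) (T.l 816)) (T.a (T.l 2) (T.a (T.l 2) (T.c (T.b (T.c (T.b (T.l 816) (T.l 2)) (T.b (T.l 816) (T.l 2))) (T.l 2)) (T.b (T.c (T.b (T.l 816) (T.l 2)) (T.b (T.l 816) (T.l 2))) (T.l 2))))))))) (T.b (T.a (T.a (T.c (T.b (T.l 816) (T.c (T.b (T.l 816) (T.a (T.a (T.l 2) (T.c (T.b (T.l 816) (T.l 2)) (T.b (T.l 816) (T.l 2)))) (T.c (T.b (T.l 816) (T.a (T.l 2) (T.a (T.l 2) (T.l 816)))) (T.b (T.l 816) (T.a (T.l 2) (T.l 816)))))) (T.b (T.l 816) (T.a (T.a (T.l 2) (T.c (T.b (T.l 816) (T.l 2)) (T.b (T.l 816) (T.l 2)))) (T.c (T.b (T.l 816) (T.a (T.l 2) (T.l 816))) (T.b (T.l 816) (T.a (T.l 2) (T.l 816)))))))) (T.b (T.l 816) (T.c (T.b (T.l 816) (T.a (T.a (T.l 2) (T.c (T.b (T.l 816) (T.l 2)) (T.b (T.l 816) (T.l 2)))) (T.c (T.b (T.l 816) (T.a (T.l 2) (T.l 816))) (T.b (T.l 816) (T.a (T.l 2) (T.l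 816)))))) (T.b (T.l 816) (T.a (T.a (T.l 2) (T.c (T.b (T.l 816) (T.l 2)) (T.b (T.l 816) (T.l 2)))) (T.c (T.b (T.l 816) (T.a (T.l 2) (T.l 816))) (T.b (T.l 816) (T.a (T.l 2) (T.l 816))))))))) (T.l 816)) (T.l 816)) (T.a (T.a (T.l 2) (T.c (T.b (T.c (T.b (T.a (T.a (T.l 2) (T.a (T.l 2) (T.c (T.b (T.l 816) (T.l 2)) (T.b (T.l 816) (T.l 2))))) (T.c (T.b (T.l 816) (T.l 2)) (T.b (T.l 816) (T.l 2)))) (T.l 2)) (T.b (T.a (T.a (T.l 2) (T.a (T.l 2) (T.c (T.b (T.l 816) (T.l 2)) (T.b (T.l 816) (T.l 2))))) (T.c (T.b (T.l 816) (T.l 2)) (T.b (T.l 816) (T.l 2)))) (T.l 2))) (T.l 2)) (T.b (T.c (T.b (T.a (T.a (T.l 2) (T.a (T.l 2) (T.c (T.b (T.l 816) (T.l 2)) (T.b (T.l 816) (T.l 2))))) (T.c (T.b (T.l 816) (T.l 2)) (T.b (T.l 816) (T.l 2)))) (T.l 2)) (T.b (T.a (T.a (T.l 2) (T.a (T.l 2) (T.c (T.b (T.l 816) (T.l 2)) (T.b (T.l 816)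 (T.l 2))))) (T.c (T.b (T.l 816) (T.l 2)) (T.b (T.l 816) (T.l 2)))) (T.l 2))) (T.l 2)))) (T.c (T.b (T.a (T.c (T.b (T.l 816) (T.a (T.l 2) (T.c (T.b (T.l 816) (T.l 2)) (T.b (T.l 816) (T.l 2))))) (T.b (T.l 816) (T.a (T.l 2) (T.c (T.b (T.l 816) (T.l 2)) (T.b (T.l 816) (T.l 2)))))) (T.l 816)) (T.a (T.l 2) (T.a (T.l 2) (T.c (T.b (T.c (T.b (T.l 816) (T.l 2)) (T.b (T.l 816) (T.l 2))) (T.l 2)) (T.b (T.c (T.b (T.l 816) (T.l 2)) (T.b (T.l 816) (T.l 2))) (T.l 2)))))) (T.b (T.a (T.c (T.b (T.l 816) (T.a (T.l 2) (T.c (T.b (T.l 816) (T.l 2)) (T.b (T.l 816) (T.l 2))))) (T.b (T.l 816) (T.a (T.l 2) (T.c (T.b (T.l 816) (T.l 2)) (T.b (T.l 816) (T.l 2)))))) (T.l 816)) (T.a (T.l 2) (T.a (T.l 2) (T.c (T.b (T.c (T.b (T.l 816) (T.l 2)) (T.b (T.l 816) (T.l 2))) (T.l 2)) (T.b (T.c (T.b (T.l 816) (T.l 2)) (T.b (T.l 816) (T.l 2)))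 (T.l 2))))))))))), by decide +kernel⟩

def A022L_003_5_426_1 :
    ∃ t, chk3 (onCell 0 33554432 0 1073741824 33554432 16777216 (corTK [] false 3 c0N cA022L gN0q0 gN0q2 gN3q2 gN4q2 false true)) t 5 426 1 = true :=
  ⟨(T.a (T.a (T.c (T.b (T.l 816) (T.c (T.b (T.l 816) (T.c (T.b (T.l 816) (T.c (T.b (T.a (T.a (T.c (T.b (T.l 816) (T.l 2)) (T.b (T.l 816) (T.l 2))) (T.l 816)) (T.l 816)) (T.a (T.l 2) (T.c (T.b (T.a (T.l 2) (T.l 816)) (T.l 2)) (T.b (T.a (T.l 2) (T.l 816)) (T.l 2))))) (T.b (T.a (T.a (T.c (T.b (T.l 816) (T.l 2)) (T.b (T.l 816) (T.l 2))) (T.l 816)) (T.l 816)) (T.a (T.l 2) (T.c (T.b (T.a (T.l 2) (T.l 816)) (T.l 2)) (T.b (T.a (T.l 2) (T.l 816)) (T.l 2))))))) (T.b (T.l 816) (T.c (T.b (T.a (T.a (T.c (T.b (T.l 816) (T.l 2)) (T.b (T.l 816) (T.l 2))) (T.l 816)) (T.l 816)) (T.a (T.l 2) (T.c (T.b (T.a (T.l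 2) (T.l 816)) (T.l 2)) (T.b (T.a (T.l 2) (T.l 816)) (T.l 2))))) (T.b (T.a (T.a (T.c (T.b (T.l 816) (T.l 2)) (T.b (T.l 816) (T.l 2))) (T.l 816)) (T.l 816)) (T.a (T.l 2) (T.c (T.b (T.a (T.l 2) (T.l 816)) (T.l 2)) (T.b (T.a (T.l 2) (T.l 816)) (T.l 2))))))))) (T.b (T.l 816) (T.c (T.b (T.l 816) (T.c (T.b (T.a (T.a (T.c (T.b (T.l 816) (T.l 2)) (T.b (T.l 816) (T.l 2))) (T.l 816)) (T.l 816)) (T.a (T.l 2) (T.c (T.b (T.a (T.l 2) (T.l 816)) (T.l 2)) (T.b (T.a (T.l 2) (T.l 816)) (T.l 2))))) (T.b (T.a (T.a (T.c (T.b (T.l 816) (T.l 2)) (T.b (T.l 816) (T.l 2))) (T.l 816)) (T.l 816)) (T.a (T.l 2) (T.c (T.b (T.a (T.l 2) (T.l 816)) (T.l 2)) (T.b (T.a (T.l 2) (T.l 816)) (T.l 2))))))) (T.b (T.l 816) (T.c (T.b (T.a (T.a (T.c (T.b (T.l 816) (T.l 2)) (T.b (T.l 816) (T.l 2))) (T.l 816)) (T.l 816)) (T.a (T.l 2) (T.c (T.b (T.a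 (T.l 2) (T.l 816)) (T.l 2)) (T.b (T.a (T.l 2) (T.l 816)) (T.l 2))))) (T.b (T.a (T.a (T.c (T.b (T.l 816) (T.l 2)) (T.b (T.l 816) (T.l 2))) (T.l 816)) (T.l 816)) (T.a (T.l 2) (T.c (T.b (T.a (T.l 2) (T.l 816)) (T.l 2)) (T.b (T.a (T.l 2) (T.l 816)) (T.l 2))))))))))) (T.b (T.l 816) (T.c (T.b (T.l 816) (T.c (T.b (T.l 816) (T.c (T.b (T.a (T.a (T.c (T.b (T.l 816) (T.l 2)) (T.b (T.l 816) (T.l 2))) (T.l 816)) (T.l 816)) (T.a (T.l 2) (T.c (T.b (T.a (T.l 2) (T.l 816)) (T.l 2)) (T.b (T.a (T.l 2) (T.l 816)) (T.l 2))))) (T.b (T.a (T.a (T.c (T.b (T.l 816) (T.l 2)) (T.b (T.l 816) (T.l 2))) (T.l 816)) (T.l 816)) (T.a (T.l 2) (T.c (T.b (T.a (T.l 2) (T.l 816)) (T.l 2)) (T.b (T.a (T.l 2) (T.l 816)) (T.l 2))))))) (T.b (T.l 816) (T.c (T.b (T.a (T.a (T.c (T.b (T.l 816) (T.l 2)) (T.b (T.l 816) (T.l 2))) (T.l 816)) (T.l 816))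 (T.a (T.l 2) (T.c (T.b (T.a (T.l 2) (T.l 816)) (T.l 2)) (T.b (T.a (T.l 2) (T.l 816)) (T.l 2))))) (T.b (T.a (T.a (T.c (T.a (T.l 816) (T.l 816)) (T.l 816)) (T.l 816)) (T.l 816)) (T.a (T.l 2) (T.c (T.b (T.a (T.l 2) (T.l 816)) (T.l 2)) (T.b (T.a (T.l 2) (T.l 816)) (T.l 2))))))))) (T.b (T.l 816) (T.c (T.b (T.l 816) (T.c (T.b (T.a (T.l 816) (T.l 816)) (T.a (T.l 2) (T.c (T.b (T.a (T.l 2) (T.l 816)) (T.l 2)) (T.b (T.a (T.l 2) (T.l 816)) (T.l 2))))) (T.b (T.l 816) (T.a (T.l 2) (T.c (T.b (T.a (T.l 2) (T.l 816)) (T.l 2)) (T.b (T.a (T.l 2) (T.l 816)) (T.l 2))))))) (T.b (T.l 816) (T.c (T.b (T.l 816) (T.a (T.l 2) (T.c (T.b (T.a (T.l 2) (T.l 816)) (T.l 2)) (T.b (T.a (T.l 2) (T.l 816)) (T.l 2))))) (T.b (T.l 816) (T.a (T.l 2) (T.c (T.b (T.a (T.l 2) (T.l 816)) (T.l 2)) (T.b (T.a (T.l 2) (T.l 816)) (T.l 2))))))))))))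 (T.a (T.c (T.b (T.l 816) (T.c (T.b (T.l 816) (T.a (T.c (T.b (T.l 816) (T.c (T.b (T.l 816) (T.c (T.b (T.l 816) (T.l 2)) (T.b (T.l 816) (T.l 2)))) (T.b (T.l 816) (T.c (T.b (T.l 816) (T.l 2)) (T.b (T.l 816) (T.l 2)))))) (T.b (T.l 816) (T.c (T.b (T.l 816) (T.c (T.b (T.l 816) (T.l 2)) (T.b (T.l 816) (T.l 2)))) (T.b (T.l 816) (T.c (T.b (T.l 816) (T.l 2)) (T.b (T.l 816) (T.l 2))))))) (T.l 816))) (T.b (T.l 816) (T.a (T.c (T.b (T.l 816) (T.c (T.b (T.l 816) (T.c (T.b (T.l 816) (T.l 2)) (T.b (T.l 816) (T.l 2)))) (T.b (T.l 816) (T.c (T.b (T.l 816) (T.l 2)) (T.b (T.l 816) (T.l 2)))))) (T.b (T.l 816) (T.a (T.c (T.b (T.l 816) (T.c (T.b (T.l 816) (T.l 2)) (T.b (T.l 816) (T.l 2)))) (T.b (T.l 816) (T.c (T.b (T.l 816) (T.l 2)) (T.b (T.l 816) (T.l 2))))) (T.l 816)))) (T.l 816))))) (T.b (T.l 816) (T.c (T.b (T.l 816) (T.a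 (T.c (T.b (T.l 816) (T.a (T.c (T.b (T.l 816) (T.c (T.b (T.l 816) (T.l 2)) (T.b (T.l 816) (T.l 2)))) (T.b (T.l 816) (T.c (T.b (T.l 816) (T.l 2)) (T.b (T.l 816) (T.l 2))))) (T.l 816))) (T.b (T.l 816) (T.a (T.c (T.b (T.l 816) (T.c (T.b (T.l 816) (T.l 2)) (T.b (T.l 816) (T.l 2)))) (T.b (T.l 816) (T.c (T.b (T.l 816) (T.l 2)) (T.b (T.l 816) (T.l 2))))) (T.l 816)))) (T.l 816))) (T.b (T.l 816) (T.a (T.c (T.b (T.l 816) (T.a (T.c (T.b (T.l 816) (T.c (T.b (T.l 816) (T.l 2)) (T.b (T.l 816) (T.l 2)))) (T.b (T.l 816) (T.c (T.b (T.l 816) (T.l 2)) (T.b (T.l 816) (T.l 2))))) (T.l 816))) (T.b (T.l 816) (T.a (T.c (T.b (T.l 816) (T.c (T.b (T.l 816) (T.l 2)) (T.b (T.l 816) (T.l 2)))) (T.b (T.l 816) (T.c (T.b (T.l 816) (T.l 2)) (T.b (T.l 816) (T.l 2))))) (T.l 816)))) (T.l 816)))))) (T.a (T.l 816) (T.l 816)))) (T.a (T.a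 (T.l 816) (T.l 816)) (T.c (T.l 816) (T.l 816)))), by decide +kernel⟩

def A022L_003_3_426_1 :
    ∃ t, chk3 (onCell 0 33554432 0 1073741824 33554432 16777216 (corTK [] false 3 c0N cA022L gN0q0 gN0q2 gN3q2 gN4q2 false true)) t 3 426 1 = true :=
  ⟨(T.a (T.a (T.a (T.c (T.l 816) (T.l 816)) (T.l 816)) (T.a (T.c (T.l 884) (T.l 880)) (T.a (T.l 816) (T.l 884)))) (T.a (T.a (T.a (T.l 880) (T.l 816)) (T.c (T.l 884) (T.l 884))) (T.a (T.c (T.l 816) (T.l 816)) (T.l 884)))), by decide +kernel⟩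

def A022L_003_2_427_1 :
    ∃ t, chk3 (onCell 0 33554432 0 1073741824 33554432 16777216 (corTK [] false 3 c0N cA022L gN0q0 gN0q2 gN3q2 gN4q2 false true)) t 2 427 1 = true :=
  ⟨(T.a (T.l 2) (T.c (T.b (T.c (T.b (T.a (T.a (T.l 2) (T.a (T.l 2) (T.a (T.l 2) (T.a (T.l 2) (T.c (T.b (T.a (T.l 2) (T.c (T.b (T.c (T.b (T.l 816) (T.l 2)) (T.b (T.l 816) (T.l 2))) (T.l 2)) (T.b (T.c (T.b (T.l 816) (T.l 2)) (T.b (T.l 816) (T.l 2))) (T.l 2)))) (T.l 2)) (T.b (T.a (T.l 2) (T.c (T.b (T.c (T.b (T.l 816) (T.l 2)) (T.b (T.l 816) (T.l 2))) (T.l 2)) (T.b (T.c (T.b (T.l 816) (T.l 2)) (T.b (T.l 816) (T.l 2))) (T.l 2)))) (T.l 2))))))) (T.c (T.b (T.a (T.c (T.b (T.a (T.c (T.b (T.l 816) (T.l 2)) (T.b (T.l 816) (T.l 2))) (T.l 816)) (T.l 2)) (T.b (T.a (T.c (T.b (T.l 816) (T.l 2)) (T.b (T.l 816) (T.l 2))) (T.l 816)) (T.l 2))) (T.a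 (T.c (T.b (T.l 816) (T.c (T.b (T.l 816) (T.l 2)) (T.b (T.l 816) (T.l 2)))) (T.b (T.l 816) (T.c (T.b (T.l 816) (T.l 2)) (T.b (T.l 816) (T.l 2))))) (T.l 816))) (T.l 2)) (T.b (T.a (T.c (T.b (T.a (T.c (T.b (T.l 816) (T.l 2)) (T.b (T.l 816) (T.l 2))) (T.l 816)) (T.l 2)) (T.b (T.a (T.c (T.b (T.l 816) (T.l 2)) (T.b (T.l 816) (T.l 2))) (T.l 816)) (T.l 2))) (T.a (T.c (T.b (T.l 816) (T.c (T.b (T.l 816) (T.l 2)) (T.b (T.l 816) (T.l 2)))) (T.b (T.l 816) (T.c (T.b (T.l 816) (T.l 2)) (T.b (T.l 816) (T.l 2))))) (T.l 816))) (T.l 2)))) (T.l 2)) (T.b (T.a (T.a (T.l 2) (T.a (T.l 2) (T.a (T.l 2) (T.a (T.l 2) (T.c (T.b (T.a (T.l 2) (T.c (T.b (T.c (T.b (T.l 816) (T.l 2)) (T.b (T.l 816) (T.l 2))) (T.l 2)) (T.b (T.c (T.b (T.l 816) (T.l 2)) (T.b (T.l 816) (T.l 2))) (T.l 2)))) (T.l 2)) (T.b (T.a (T.l 2) (T.c (T.b (T.c (T.b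 (T.l 816) (T.l 2)) (T.b (T.l 816) (T.l 2))) (T.l 2)) (T.b (T.c (T.b (T.l 816) (T.l 2)) (T.b (T.l 816) (T.l 2))) (T.l 2)))) (T.l 2))))))) (T.c (T.b (T.a (T.c (T.b (T.a (T.c (T.b (T.l 816) (T.l 2)) (T.b (T.l 816) (T.l 2))) (T.l 816)) (T.l 2)) (T.b (T.a (T.c (T.b (T.l 816) (T.l 2)) (T.b (T.l 816) (T.l 2))) (T.l 816)) (T.l 2))) (T.a (T.c (T.b (T.l 816) (T.c (T.b (T.l 816) (T.l 2)) (T.b (T.l 816) (T.l 2)))) (T.b (T.l 816) (T.c (T.b (T.l 816) (T.l 2)) (T.b (T.l 816) (T.l 2))))) (T.l 816))) (T.l 2)) (T.b (T.a (T.c (T.b (T.a (T.c (T.b (T.l 816) (T.l 2)) (T.b (T.l 816) (T.l 2))) (T.l 816)) (T.l 2)) (T.b (T.a (T.c (T.b (T.l 816) (T.l 2)) (T.b (T.l 816) (T.l 2))) (T.l 816)) (T.l 2))) (T.a (T.c (T.b (T.l 816) (T.c (T.b (T.l 816) (T.l 2)) (T.b (T.l 816) (T.l 2)))) (T.b (T.l 816) (T.c (T.b (T.l 816) (T.l 2)) (T.b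 (T.l 816) (T.l 2))))) (T.l 816))) (T.l 2)))) (T.l 2))) (T.l 2)) (T.b (T.c (T.b (T.a (T.a (T.l 2) (T.a (T.l 2) (T.a (T.l 2) (T.a (T.l 2) (T.c (T.b (T.a (T.l 2) (T.c (T.b (T.c (T.b (T.l 816) (T.l 2)) (T.b (T.l 816) (T.l 2))) (T.l 2)) (T.b (T.c (T.b (T.l 816) (T.l 2)) (T.b (T.l 816) (T.l 2))) (T.l 2)))) (T.l 2)) (T.b (T.a (T.l 2) (T.c (T.b (T.c (T.b (T.l 816) (T.l 2)) (T.b (T.l 816) (T.l 2))) (T.l 2)) (T.b (T.c (T.b (T.l 816) (T.l 2)) (T.b (T.l 816) (T.l 2))) (T.l 2)))) (T.l 2))))))) (T.c (T.b (T.a (T.c (T.b (T.a (T.c (T.b (T.l 816) (T.l 2)) (T.b (T.l 816) (T.l 2))) (T.l 816)) (T.l 2)) (T.b (T.a (T.c (T.b (T.l 816) (T.l 2)) (T.b (T.l 816) (T.l 2))) (T.l 816)) (T.l 2))) (T.a (T.c (T.b (T.l 816) (T.c (T.b (T.l 816) (T.l 2)) (T.b (T.l 816) (T.l 2)))) (T.b (T.l 816) (T.c (T.b (T.l 816) (T.l 2)) (T.b (T.l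 816) (T.l 2))))) (T.l 816))) (T.l 2)) (T.b (T.a (T.c (T.b (T.a (T.c (T.b (T.l 816) (T.l 2)) (T.b (T.l 816) (T.l 2))) (T.l 816)) (T.l 2)) (T.b (T.a (T.c (T.b (T.l 816) (T.l 2)) (T.b (T.l 816) (T.l 2))) (T.l 816)) (T.l 2))) (T.a (T.c (T.b (T.l 816) (T.c (T.b (T.l 816) (T.l 2)) (T.b (T.l 816) (T.l 2)))) (T.b (T.l 816) (T.c (T.b (T.l 816) (T.l 2)) (T.b (T.l 816) (T.l 2))))) (T.l 816))) (T.l 2)))) (T.l 2)) (T.b (T.a (T.a (T.l 2) (T.a (T.l 2) (T.a (T.l 2) (T.a (T.l 2) (T.c (T.b (T.a (T.l 2) (T.c (T.b (T.c (T.b (T.l 816) (T.l 2)) (T.b (T.l 816) (T.l 2))) (T.l 2)) (T.b (T.c (T.b (T.l 816) (T.l 2)) (T.b (T.l 816) (T.l 2))) (T.l 2)))) (T.l 2)) (T.b (T.a (T.l 2) (T.c (T.b (T.c (T.b (T.l 816) (T.l 2)) (T.b (T.l 816) (T.l 2))) (T.l 2)) (T.b (T.c (T.b (T.l 816) (T.l 2)) (T.b (T.l 816) (T.l 2))) (T.l 2)))) (T.l 2)))))))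 (T.c (T.b (T.a (T.c (T.b (T.a (T.c (T.b (T.l 816) (T.l 2)) (T.b (T.l 816) (T.l 2))) (T.l 816)) (T.l 2)) (T.b (T.a (T.c (T.b (T.l 816) (T.l 2)) (T.b (T.l 816) (T.l 2))) (T.l 816)) (T.l 2))) (T.a (T.c (T.a (T.b (T.l 816) (T.c (T.b (T.l 816) (T.l 2)) (T.b (T.l 816) (T.l 2)))) (T.l 816)) (T.a (T.b (T.l 816) (T.c (T.b (T.l 816) (T.l 2)) (T.b (T.l 816) (T.l 2)))) (T.l 816))) (T.l 816))) (T.l 2)) (T.b (T.a (T.c (T.b (T.a (T.c (T.b (T.l 816) (T.l 2)) (T.b (T.l 816) (T.l 2))) (T.l 816)) (T.l 2)) (T.b (T.a (T.c (T.b (T.l 816) (T.l 2)) (T.b (T.l 816) (T.l 2))) (T.l 816)) (T.l 2))) (T.a (T.a (T.c (T.b (T.l 816) (T.c (T.b (T.l 816) (T.l 2)) (T.b (T.l 816) (T.l 2)))) (T.b (T.l 816) (T.c (T.b (T.l 816) (T.l 2)) (T.b (T.l 816) (T.l 2))))) (T.l 816)) (T.l 816))) (T.l 2)))) (T.l 2))) (T.l 2)))), by decide +kernel⟩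

def A022L_003_3_427_2 :
    ∃ t, chk3 (onCell 0 33554432 0 1073741824 33554432 16777216 (corTK [] false 3 c0N cA022L gN0q0 gN0q2 gN3q2 gN4q2 false true)) t 3 427 2 = true :=
  ⟨(T.b (T.a (T.c (T.a (T.b (T.a (T.c (T.b (T.l 816) (T.c (T.b (T.a (T.c (T.b (T.l 816) (T.l 2)) (T.b (T.l 816) (T.l 2))) (T.l 816)) (T.l 2)) (T.b (T.a (T.c (T.b (T.l 816) (T.l 2)) (T.b (T.l 816) (T.l 2))) (T.l 816)) (T.l 2)))) (T.b (T.l 816) (T.c (T.b (T.a (T.c (T.b (T.l 816) (T.l 2)) (T.b (T.l 816) (T.l 2))) (T.l 816)) (T.l 2)) (T.b (T.a (T.c (T.b (T.l 816) (T.l 2)) (T.b (T.l 816) (T.l 2))) (T.l 816)) (T.l 2))))) (T.c (T.a (T.b (T.l 816) (T.c (T.b (T.l 816) (T.c (T.b (T.l 816) (T.l 2)) (T.b (T.l 816) (T.l 2)))) (T.b (T.l 816) (T.c (T.b (T.l 816) (T.l 2)) (T.b (T.l 816) (T.l 2)))))) (T.l 816)) (T.a (T.b (T.l 816) (T.c (T.b (T.l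 816) (T.c (T.b (T.l 816) (T.l 2)) (T.b (T.l 816) (T.l 2)))) (T.b (T.l 816) (T.c (T.b (T.l 816) (T.l 2)) (T.b (T.l 816) (T.l 2)))))) (T.l 816)))) (T.l 2)) (T.b (T.a (T.l 816) (T.a (T.l 816) (T.l 816))) (T.c (T.b (T.a (T.c (T.b (T.a (T.a (T.l 2) (T.c (T.b (T.l 816) (T.l 2)) (T.b (T.l 816) (T.l 2)))) (T.a (T.a (T.l 816) (T.l 816)) (T.l 816))) (T.l 2)) (T.b (T.a (T.a (T.l 2) (T.c (T.b (T.l 816) (T.l 2)) (T.b (T.l 816) (T.l 2)))) (T.a (T.a (T.l 816) (T.l 816)) (T.l 816))) (T.l 2))) (T.a (T.c (T.b (T.l 816) (T.l 2)) (T.b (T.l 816) (T.l 2))) (T.a (T.a (T.a (T.c (T.b (T.l 816) (T.c (T.b (T.l 816) (T.l 2)) (T.b (T.l 816) (T.l 2)))) (T.b (T.l 816) (T.c (T.b (T.l 816) (T.l 2)) (T.b (T.l 816) (T.l 2))))) (T.l 816)) (T.l 816)) (T.l 816)))) (T.l 2)) (T.b (T.a (T.c (T.b (T.a (T.a (T.l 2) (T.c (T.b (T.l 816) (T.l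 2)) (T.b (T.l 816) (T.l 2)))) (T.a (T.a (T.l 816) (T.l 816)) (T.l 816))) (T.l 2)) (T.b (T.a (T.c (T.b (T.a (T.l 2) (T.l 816)) (T.l 2)) (T.b (T.a (T.l 2) (T.l 816)) (T.l 2))) (T.a (T.l 816) (T.l 816))) (T.l 2))) (T.a (T.c (T.b (T.l 816) (T.l 2)) (T.b (T.l 816) (T.l 2))) (T.a (T.a (T.a (T.c (T.b (T.l 816) (T.c (T.b (T.l 816) (T.l 2)) (T.b (T.l 816) (T.l 2)))) (T.b (T.l 816) (T.c (T.b (T.l 816) (T.l 2)) (T.a (T.l 2) (T.l 816))))) (T.l 816)) (T.l 816)) (T.l 816)))) (T.l 2))))) (T.b (T.a (T.a (T.c (T.b (T.l 816) (T.c (T.b (T.a (T.c (T.b (T.l 816) (T.l 2)) (T.b (T.l 816) (T.l 2))) (T.l 816)) (T.l 2)) (T.b (T.a (T.c (T.b (T.l 816) (T.l 2)) (T.b (T.l 816) (T.l 2))) (T.l 816)) (T.l 2)))) (T.b (T.l 816) (T.c (T.b (T.a (T.c (T.b (T.l 816) (T.l 2)) (T.b (T.l 816) (T.l 2))) (T.l 816)) (T.l 2)) (T.b (T.a (T.c (T.b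 (T.l 816) (T.l 2)) (T.b (T.l 816) (T.l 2))) (T.l 816)) (T.l 2))))) (T.a (T.c (T.b (T.l 816) (T.c (T.b (T.l 816) (T.c (T.b (T.l 816) (T.l 2)) (T.b (T.l 816) (T.l 2)))) (T.b (T.l 816) (T.c (T.b (T.l 816) (T.l 2)) (T.b (T.l 816) (T.l 2)))))) (T.b (T.l 816) (T.c (T.b (T.l 816) (T.c (T.b (T.l 816) (T.l 2)) (T.b (T.l 816) (T.l 2)))) (T.b (T.l 816) (T.c (T.b (T.l 816) (T.l 2)) (T.b (T.l 816) (T.l 2))))))) (T.l 816))) (T.a (T.l 816) (T.a (T.l 816) (T.l 816)))) (T.a (T.l 2) (T.c (T.b (T.a (T.c (T.b (T.a (T.c (T.b (T.a (T.l 2) (T.l 816)) (T.l 2)) (T.b (T.a (T.l 2) (T.l 816)) (T.l 2))) (T.a (T.l 816) (T.l 816))) (T.l 2)) (T.b (T.a (T.c (T.b (T.a (T.l 2) (T.l 816)) (T.l 2)) (T.b (T.a (T.l 2) (T.l 816)) (T.l 2))) (T.a (T.l 816) (T.l 816))) (T.l 2))) (T.a (T.c (T.b (T.l 816) (T.l 2)) (T.b (T.l 816) (T.l 2))) (T.a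 (T.a (T.a (T.c (T.b (T.l 816) (T.a (T.l 2) (T.l 816))) (T.b (T.l 816) (T.a (T.l 2) (T.l 816)))) (T.l 816)) (T.l 816)) (T.l 816)))) (T.l 2)) (T.b (T.a (T.c (T.b (T.a (T.c (T.b (T.a (T.l 2) (T.l 816)) (T.l 2)) (T.b (T.a (T.l 2) (T.l 816)) (T.l 2))) (T.a (T.l 816) (T.l 816))) (T.l 2)) (T.b (T.a (T.c (T.b (T.a (T.l 2) (T.l 816)) (T.l 2)) (T.b (T.a (T.l 2) (T.l 816)) (T.l 2))) (T.a (T.l 816) (T.l 816))) (T.l 2))) (T.a (T.c (T.b (T.l 816) (T.l 2)) (T.b (T.l 816) (T.l 2))) (T.a (T.a (T.a (T.c (T.b (T.l 816) (T.a (T.l 2) (T.l 816))) (T.b (T.l 816) (T.a (T.l 2) (T.l 816)))) (T.l 816)) (T.l 816)) (T.l 816)))) (T.l 2)))))) (T.a (T.a (T.c (T.b (T.l 816) (T.c (T.b (T.a (T.l 816) (T.l 816)) (T.a (T.l 2) (T.c (T.b (T.c (T.b (T.l 816) (T.l 2)) (T.b (T.l 816) (T.l 2))) (T.l 2)) (T.b (T.c (T.b (T.l 816) (T.l 2)) (T.b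 (T.l 816) (T.l 2))) (T.l 2))))) (T.b (T.a (T.l 816) (T.l 816)) (T.a (T.l 2) (T.c (T.b (T.c (T.b (T.l 816) (T.l 2)) (T.b (T.l 816) (T.l 2))) (T.l 2)) (T.b (T.c (T.b (T.l 816) (T.l 2)) (T.b (T.l 816) (T.l 2))) (T.l 2))))))) (T.b (T.l 816) (T.c (T.b (T.a (T.l 816) (T.l 816)) (T.a (T.l 2) (T.c (T.b (T.c (T.b (T.l 816) (T.l 2)) (T.b (T.l 816) (T.l 2))) (T.l 2)) (T.b (T.c (T.b (T.l 816) (T.l 2)) (T.b (T.l 816) (T.l 2))) (T.l 2))))) (T.b (T.a (T.l 816) (T.l 816)) (T.a (T.l 2) (T.c (T.b (T.c (T.b (T.l 816) (T.l 2)) (T.b (T.l 816) (T.l 2))) (T.l 2)) (T.b (T.c (T.b (T.l 816) (T.l 2)) (T.b (T.l 816) (T.l 2))) (T.l 2)))))))) (T.c (T.b (T.l 816) (T.c (T.b (T.l 816) (T.c (T.b (T.l 816) (T.a (T.l 2) (T.a (T.l 816) (T.l 816)))) (T.b (T.l 816) (T.a (T.l 2) (T.a (T.l 816) (T.l 816)))))) (T.b (T.l 816) (T.c (T.b (T.l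 816) (T.a (T.l 2) (T.a (T.l 816) (T.l 816)))) (T.b (T.l 816) (T.a (T.l 2) (T.a (T.l 816) (T.l 816)))))))) (T.b (T.l 816) (T.c (T.b (T.l 816) (T.c (T.b (T.l 816) (T.a (T.l 2) (T.a (T.l 816) (T.l 816)))) (T.b (T.l 816) (T.a (T.l 2) (T.a (T.l 816) (T.l 816)))))) (T.b (T.l 816) (T.c (T.b (T.l 816) (T.a (T.l 2) (T.a (T.l 816) (T.l 816)))) (T.b (T.l 816) (T.a (T.l 2) (T.a (T.l 816) (T.l 816)))))))))) (T.a (T.a (T.l 816) (T.l 816)) (T.l 816)))) (T.a (T.l 2) (T.a (T.l 2) (T.c (T.b (T.c (T.b (T.a (T.a (T.l 2) (T.c (T.b (T.l 816) (T.l 2)) (T.b (T.l 816) (T.l 2)))) (T.c (T.b (T.l 816) (T.a (T.l 2) (T.l 816))) (T.b (T.l 816) (T.a (T.l 2) (T.l 816))))) (T.l 2)) (T.b (T.a (T.a (T.l 2) (T.c (T.b (T.l 816) (T.l 2)) (T.b (T.l 816) (T.l 2)))) (T.c (T.b (T.l 816) (T.a (T.l 2) (T.l 816))) (T.b (T.l 816) (T.a (T.l 2) (T.l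 816))))) (T.l 2))) (T.l 2)) (T.b (T.c (T.b (T.a (T.a (T.l 2) (T.c (T.b (T.l 816) (T.l 2)) (T.b (T.l 816) (T.l 2)))) (T.c (T.b (T.l 816) (T.a (T.l 2) (T.l 816))) (T.b (T.l 816) (T.a (T.l 2) (T.l 816))))) (T.l 2)) (T.b (T.a (T.a (T.l 2) (T.c (T.b (T.l 816) (T.l 2)) (T.b (T.l 816) (T.l 2)))) (T.c (T.b (T.l 816) (T.a (T.l 2) (T.l 816))) (T.b (T.l 816) (T.a (T.l 2) (T.l 816))))) (T.l 2))) (T.l 2)))))), by decide +kernel⟩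

def A022L_003_3_427_3 :
    ∃ t, chk3 (onCell 0 33554432 0 1073741824 33554432 16777216 (corTK [] false 3 c0N cA022L gN0q0 gN0q2 gN3q2 gN4q2 false true)) t 3 427 3 = true :=
  ⟨(T.b (T.a (T.c (T.b (T.a (T.a (T.c (T.b (T.l 816) (T.c (T.b (T.a (T.c (T.b (T.l 816) (T.l 2)) (T.b (T.l 816) (T.l 2))) (T.l 816)) (T.l 2)) (T.b (T.a (T.c (T.b (T.l 816) (T.l 2)) (T.b (T.l 816) (T.l 2))) (T.l 816)) (T.l 2)))) (T.b (T.l 816) (T.c (T.b (T.a (T.c (T.b (T.l 816) (T.l 2)) (T.b (T.l 816) (T.l 2))) (T.l 816)) (T.l 2)) (T.b (T.a (T.c (T.b (T.l 816) (T.l 2)) (T.b (T.l 816) (T.l 2))) (T.l 816)) (T.l 2))))) (T.a (T.c (T.b (T.l 816) (T.c (T.b (T.l 816) (T.c (T.b (T.l 816) (T.l 2)) (T.b (T.l 816) (T.l 2)))) (T.b (T.l 816) (T.c (T.b (T.l 816) (T.l 2)) (T.b (T.l 816) (T.l 2)))))) (T.b (T.l 816) (T.c (T.b (T.l 816) (T.c (T.b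 (T.l 816) (T.l 2)) (T.b (T.l 816) (T.l 2)))) (T.b (T.l 816) (T.c (T.b (T.l 816) (T.l 2)) (T.b (T.l 816) (T.l 2))))))) (T.l 816))) (T.a (T.l 816) (T.a (T.l 816) (T.l 816)))) (T.a (T.l 2) (T.c (T.b (T.a (T.c (T.b (T.a (T.c (T.b (T.a (T.l 2) (T.l 816)) (T.l 2)) (T.b (T.a (T.l 2) (T.l 816)) (T.l 2))) (T.a (T.l 816) (T.l 816))) (T.l 2)) (T.b (T.a (T.c (T.b (T.a (T.l 2) (T.l 816)) (T.l 2)) (T.b (T.a (T.l 2) (T.l 816)) (T.l 2))) (T.a (T.l 816) (T.l 816))) (T.l 2))) (T.a (T.c (T.b (T.l 816) (T.l 2)) (T.b (T.l 816) (T.l 2))) (T.a (T.a (T.a (T.c (T.b (T.l 816) (T.a (T.l 2) (T.l 816))) (T.b (T.l 816) (T.a (T.l 2) (T.l 816)))) (T.l 816)) (T.l 816)) (T.l 816)))) (T.l 2)) (T.b (T.a (T.c (T.b (T.a (T.c (T.b (T.a (T.l 2) (T.l 816)) (T.l 2)) (T.b (T.a (T.l 2) (T.l 816)) (T.l 2))) (T.a (T.l 816) (T.l 816))) (T.l 2))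 (T.b (T.a (T.c (T.b (T.a (T.l 2) (T.l 816)) (T.l 2)) (T.b (T.a (T.l 2) (T.l 816)) (T.l 2))) (T.a (T.l 816) (T.l 816))) (T.l 2))) (T.a (T.c (T.b (T.l 816) (T.l 2)) (T.b (T.l 816) (T.l 2))) (T.a (T.a (T.a (T.c (T.b (T.l 816) (T.a (T.l 2) (T.l 816))) (T.b (T.l 816) (T.a (T.l 2) (T.l 816)))) (T.l 816)) (T.l 816)) (T.l 816)))) (T.l 2))))) (T.b (T.a (T.a (T.c (T.b (T.l 816) (T.c (T.b (T.a (T.c (T.b (T.l 816) (T.l 2)) (T.b (T.l 816) (T.l 2))) (T.l 816)) (T.l 2)) (T.b (T.a (T.c (T.b (T.l 816) (T.l 2)) (T.b (T.l 816) (T.l 2))) (T.l 816)) (T.l 2)))) (T.b (T.l 816) (T.c (T.b (T.a (T.c (T.b (T.l 816) (T.l 2)) (T.b (T.l 816) (T.l 2))) (T.l 816)) (T.l 2)) (T.b (T.a (T.c (T.b (T.l 816) (T.l 2)) (T.b (T.l 816) (T.l 2))) (T.l 816)) (T.l 2))))) (T.a (T.c (T.b (T.l 816) (T.c (T.b (T.l 816) (T.c (T.b (T.l 816) (T.l 2))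 (T.b (T.l 816) (T.l 2)))) (T.b (T.l 816) (T.c (T.b (T.l 816) (T.l 2)) (T.b (T.l 816) (T.l 2)))))) (T.b (T.l 816) (T.c (T.b (T.l 816) (T.c (T.b (T.l 816) (T.l 2)) (T.b (T.l 816) (T.l 2)))) (T.b (T.l 816) (T.c (T.b (T.l 816) (T.l 2)) (T.b (T.l 816) (T.l 2))))))) (T.l 816))) (T.a (T.l 816) (T.a (T.l 816) (T.l 816)))) (T.a (T.l 2) (T.c (T.b (T.a (T.c (T.b (T.a (T.c (T.b (T.a (T.l 2) (T.l 816)) (T.l 2)) (T.b (T.a (T.l 2) (T.l 816)) (T.l 2))) (T.a (T.l 816) (T.l 816))) (T.l 2)) (T.b (T.a (T.c (T.b (T.a (T.l 2) (T.l 816)) (T.l 2)) (T.b (T.a (T.l 2) (T.l 816)) (T.l 2))) (T.a (T.l 816) (T.l 816))) (T.l 2))) (T.a (T.c (T.b (T.l 816) (T.l 2)) (T.b (T.l 816) (T.l 2))) (T.a (T.a (T.a (T.c (T.b (T.l 816) (T.a (T.l 2) (T.l 816))) (T.b (T.l 816) (T.a (T.l 2) (T.l 816)))) (T.l 816)) (T.l 816)) (T.l 816)))) (T.l 2))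 (T.b (T.a (T.c (T.b (T.a (T.c (T.b (T.a (T.l 2) (T.l 816)) (T.l 2)) (T.b (T.a (T.l 2) (T.l 816)) (T.l 2))) (T.a (T.l 816) (T.l 816))) (T.l 2)) (T.b (T.a (T.c (T.b (T.a (T.l 2) (T.l 816)) (T.l 2)) (T.b (T.a (T.l 2) (T.l 816)) (T.l 2))) (T.a (T.l 816) (T.l 816))) (T.l 2))) (T.a (T.c (T.b (T.l 816) (T.l 2)) (T.b (T.l 816) (T.l 2))) (T.a (T.a (T.a (T.c (T.b (T.l 816) (T.a (T.l 2) (T.l 816))) (T.b (T.l 816) (T.a (T.l 2) (T.l 816)))) (T.l 816)) (T.l 816)) (T.l 816)))) (T.l 2)))))) (T.a (T.a (T.c (T.b (T.l 816) (T.c (T.b (T.a (T.l 816) (T.l 816)) (T.a (T.l 2) (T.c (T.b (T.c (T.b (T.l 816) (T.l 2)) (T.b (T.l 816) (T.l 2))) (T.l 2)) (T.b (T.c (T.b (T.l 816) (T.l 2)) (T.b (T.l 816) (T.l 2))) (T.l 2))))) (T.b (T.a (T.l 816) (T.l 816)) (T.a (T.l 2) (T.c (T.b (T.c (T.b (T.l 816) (T.l 2)) (T.b (T.l 816) (T.l 2)))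 (T.l 2)) (T.b (T.c (T.b (T.l 816) (T.l 2)) (T.b (T.l 816) (T.l 2))) (T.l 2))))))) (T.b (T.l 816) (T.c (T.b (T.a (T.l 816) (T.l 816)) (T.a (T.l 2) (T.c (T.b (T.c (T.b (T.l 816) (T.l 2)) (T.a (T.l 816) (T.l 816))) (T.l 2)) (T.b (T.c (T.a (T.l 816) (T.l 816)) (T.b (T.l 816) (T.l 2))) (T.l 2))))) (T.b (T.a (T.l 816) (T.l 816)) (T.a (T.l 2) (T.c (T.b (T.c (T.b (T.l 816) (T.l 2)) (T.b (T.l 816) (T.l 2))) (T.l 2)) (T.b (T.c (T.b (T.l 816) (T.l 2)) (T.b (T.l 816) (T.l 2))) (T.l 2)))))))) (T.c (T.b (T.l 816) (T.c (T.b (T.l 816) (T.c (T.b (T.l 816) (T.a (T.l 2) (T.a (T.l 816) (T.l 816)))) (T.b (T.l 816) (T.a (T.l 2) (T.a (T.l 816) (T.l 816)))))) (T.b (T.l 816) (T.c (T.b (T.l 816) (T.a (T.l 2) (T.a (T.l 816) (T.l 816)))) (T.b (T.l 816) (T.a (T.l 2) (T.l 816))))))) (T.b (T.l 816) (T.c (T.b (T.l 816) (T.a (T.c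 (T.b (T.l 816) (T.l 2)) (T.b (T.l 816) (T.l 2))) (T.a (T.l 816) (T.l 816)))) (T.b (T.l 816) (T.a (T.c (T.b (T.l 816) (T.l 2)) (T.b (T.l 816) (T.l 2))) (T.a (T.l 816) (T.l 816)))))))) (T.a (T.a (T.l 816) (T.l 816)) (T.l 816)))) (T.a (T.l 2) (T.a (T.l 2) (T.c (T.b (T.c (T.b (T.a (T.a (T.l 2) (T.c (T.b (T.l 816) (T.l 2)) (T.b (T.l 816) (T.l 2)))) (T.c (T.b (T.l 816) (T.a (T.l 2) (T.l 816))) (T.b (T.l 816) (T.a (T.l 2) (T.l 816))))) (T.l 2)) (T.b (T.a (T.a (T.l 2) (T.c (T.b (T.l 816) (T.l 2)) (T.b (T.l 816) (T.l 2)))) (T.c (T.b (T.l 816) (T.a (T.l 2) (T.l 816))) (T.b (T.l 816) (T.a (T.l 2) (T.l 816))))) (T.l 2))) (T.l 2)) (T.b (T.c (T.b (T.a (T.a (T.l 2) (T.c (T.b (T.l 816) (T.l 2)) (T.b (T.l 816) (T.l 2)))) (T.c (T.b (T.l 816) (T.a (T.l 2) (T.l 816))) (T.b (T.l 816) (T.a (T.l 2) (T.l 816))))) (T.l 2))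 (T.b (T.a (T.a (T.l 2) (T.c (T.b (T.l 816) (T.l 2)) (T.b (T.l 816) (T.l 2)))) (T.c (T.b (T.l 816) (T.a (T.l 2) (T.l 816))) (T.b (T.l 816) (T.a (T.l 2) (T.l 816))))) (T.l 2))) (T.l 2)))))), by decide +kernel⟩

def A022L_003_1_107_1 :
    ∃ t, chk3 (onCell 0 33554432 0 1073741824 33554432 16777216 (corTK [] false 3 c0N cA022L gN0q0 gN0q2 gN3q2 gN4q2 false true)) t 1 107 1 = true :=
  ⟨(T.l 2), by decide +kernel⟩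

def A022L_003_1_27_1 :
    ∃ t, chk3 (onCell 0 33554432 0 1073741824 33554432 16777216 (corTK [] false 3 c0N cA022L gN0q0 gN0q2 gN3q2 gN4q2 false true)) t 1 27 1 = true :=
  ⟨(T.l 2), by decide +kernel⟩

def A022L_003_1_7_1 :
    ∃ t, chk3 (onCell 0 33554432 0 1073741824 33554432 16777216 (corTK [] false 3 c0N cA022L gN0q0 gN0q2 gN3q2 gN4q2 false true)) t 1 7 1 = true :=
  ⟨(T.l 2), by decide +kernel⟩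

theorem A022L_003_3_427_1 :
    ∃ t, chk3 (onCell 0 33554432 0 1073741824 33554432 16777216 (corTK [] false 3 c0N cA022L gN0q0 gN0q2 gN3q2 gN4q2 false true)) t 3 427 1 = true :=
  ex3_c A022L_003_3_427_2 A022L_003_3_427_3
theorem A022L_003_1_427_1 :
    ∃ t, chk3 (onCell 0 33554432 0 1073741824 33554432 16777216 (corTK [] false 3 c0N cA022L gN0q0 gN0q2 gN3q2 gN4q2 false true)) t 1 427 1 = true :=
  ex3_a A022L_003_2_427_1 A022L_003_3_427_1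
theorem A022L_003_4_853_2 :
    ∃ t, chk3 (onCell 0 33554432 0 1073741824 33554432 16777216 (corTK [] false 3 c0N cA022L gN0q0 gN0q2 gN3q2 gN4q2 false true)) t 4 853 2 = true :=
  ex3_c A022L_003_4_853_4 A022L_003_4_853_5
theorem A022L_003_4_426_2 :
    ∃ t, chk3 (onCell 0 33554432 0 1073741824 33554432 16777216 (corTK [] false 3 c0N cA022L gN0q0 gN0q2 gN3q2 gN4q2 false true)) t 4 426 2 = true :=
  ex3_b A022L_003_4_852_2 A022L_003_4_853_2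
theorem A022L_003_4_426_1 :
    ∃ t, chk3 (onCell 0 33554432 0 1073741824 33554432 16777216 (corTK [] false 3 c0N cA022L gN0q0 gN0q2 gN3q2 gN4q2 false true)) t 4 426 1 = true :=
  ex3_c A022L_003_4_426_2 A022L_003_4_426_3
theorem A022L_003_2_426_1 :
    ∃ t, chk3 (onCell 0 33554432 0 1073741824 33554432 16777216 (corTK [] false 3 c0N cA022L gN0q0 gN0q2 gN3q2 gN4q2 false true)) t 2 426 1 = true :=
  ex3_a A022L_003_4_426_1 A022L_003_5_426_1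
theorem A022L_003_1_426_1 :
    ∃ t, chk3 (onCell 0 33554432 0 1073741824 33554432 16777216 (corTK [] false 3 c0N cA022L gN0q0 gN0q2 gN3q2 gN4q2 false true)) t 1 426 1 = true :=
  ex3_a A022L_003_2_426_1 A022L_003_3_426_1
theorem A022L_003_1_213_1 :
    ∃ t, chk3 (onCell 0 33554432 0 1073741824 33554432 16777216 (corTK [] false 3 c0N cA022L gN0q0 gN0q2 gN3q2 gN4q2 false true)) t 1 213 1 = true :=
  ex3_b A022L_003_1_426_1 A022L_003_1_427_1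
theorem A022L_003_1_106_1 :
    ∃ t, chk3 (onCell 0 33554432 0 1073741824 33554432 16777216 (corTK [] false 3 c0N cA022L gN0q0 gN0q2 gN3q2 gN4q2 false true)) t 1 106 1 = true :=
  ex3_b A022L_003_1_212_1 A022L_003_1_213_1
theorem A022L_003_1_53_1 :
    ∃ t, chk3 (onCell 0 33554432 0 1073741824 33554432 16777216 (corTK [] false 3 c0N cA022L gN0q0 gN0q2 gN3q2 gN4q2 false true)) t 1 53 1 = true :=
  ex3_b A022L_003_1_106_1 A022L_003_1_107_1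
theorem A022L_003_1_26_1 :
    ∃ t, chk3 (onCell 0 33554432 0 1073741824 33554432 16777216 (corTK [] false 3 c0N cA022L gN0q0 gN0q2 gN3q2 gN4q2 false true)) t 1 26 1 = true :=
  ex3_b A022L_003_1_52_1 A022L_003_1_53_1
theorem A022L_003_1_13_1 :
    ∃ t, chk3 (onCell 0 33554432 0 1073741824 33554432 16777216 (corTK [] false 3 c0N cA022L gN0q0 gN0q2 gN3q2 gN4q2 false true)) t 1 13 1 = true :=
  ex3_b A022L_003_1_26_1 A022L_003_1_27_1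
theorem A022L_003_1_6_1 :
    ∃ t, chk3 (onCell 0 33554432 0 1073741824 33554432 16777216 (corTK [] false 3 c0N cA022L gN0q0 gN0q2 gN3q2 gN4q2 false true)) t 1 6 1 = true :=
  ex3_b A022L_003_1_12_1 A022L_003_1_13_1
theorem A022L_003_1_3_1 :
    ∃ t, chk3 (onCell 0 33554432 0 1073741824 33554432 16777216 (corTK [] false 3 c0N cA022L gN0q0 gN0q2 gN3q2 gN4q2 false true)) t 1 3 1 = true :=
  ex3_b A022L_003_1_6_1 A022L_003_1_7_1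
theorem A022L_003 :
    ∃ t, chk3 (onCell 0 33554432 0 1073741824 33554432 16777216 (corTK [] false 3 c0N cA022L gN0q0 gN0q2 gN3q2 gN4q2 false true)) t 1 1 1 = true :=
  ex3_b A022L_003_1_2_1 A022L_003_1_3_1

def A022L_013 :
    ∃ t, chk3 (onCell 0 33554432 0 1073741824 33554432 16777216 (corTK [] false 3 c0N cA022L gN0q0 gN1q2 gN3q2 gN4q2 false true)) t 1 1 1 = true :=
  ⟨(T.b (T.b (T.b (T.a (T.a (T.a (T.l 204) (T.a (T.l 204) (T.l 204))) (T.a (T.b (T.l 204) (T.l 204)) (T.l 204))) (T.a (T.b (T.l 204) (T.l 460)) (T.l 204))) (T.a (T.a (T.l 204) (T.a (T.b (T.l 204) (T.l 204)) (T.l 204))) (T.a (T.a (T.l 204) (T.l 204)) (T.b (T.l 204) (T.l 256))))) (T.b (T.b (T.a (T.a (T.l 204) (T.a (T.l 0) (T.l 204))) (T.a (T.b (T.l 0) (T.l 256)) (T.l 272))) (T.b (T.a (T.a (T.l 204) (T.a (T.l 0) (T.l 204))) (T.a (T.a (T.l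 204) (T.l 204)) (T.l 0))) (T.a (T.l 2) (T.a (T.a (T.l 204) (T.l 204)) (T.l 0))))) (T.l 2))) (T.l 2)), by decide +kernel⟩

def A022L_023 :
    ∃ t, chk3 (onCell 0 33554432 0 1073741824 33554432 16777216 (corTK [] false 3 c0N cA022L gN0q0 gN2q2 gN3q2 gN4q2 false true)) t 1 1 1 = true :=
  ⟨(T.l 2), by decide +kernel⟩

def A022L_113 :
    ∃ t, chk3 (onCell 0 33554432 0 1073741824 33554432 16777216 (corTK [] false 3 c0N cA022L gN1q0 gN1q2 gN3q2 gN4q2 false true)) t 1 1 1 = true :=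
  ⟨(T.b (T.b (T.a (T.a (T.a (T.l 204) (T.a (T.l 204) (T.b (T.l 204) (T.l 204)))) (T.b (T.a (T.b (T.l 204) (T.l 204)) (T.l 204)) (T.l 0))) (T.b (T.a (T.b (T.l 204) (T.l 204)) (T.l 204)) (T.l 0))) (T.l 2)) (T.l 2)), by decide +kernel⟩

def A022L_123 :
    ∃ t, chk3 (onCell 0 33554432 0 1073741824 33554432 16777216 (corTK [] false 3 c0N cA022L gN1q0 gN2q2 gN3q2 gN4q2 false true)) t 1 1 1 = true :=
  ⟨(T.l 2), by decide +kernel⟩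

def A022L_223 :
    ∃ t, chk3 (onCell 0 33554432 0 1073741824 33554432 16777216 (corTK [] false 3 c0N cA022L gN2q0 gN2q2 gN3q2 gN4q2 false true)) t 1 1 1 = true :=
  ⟨(T.l 2), by decide +kernel⟩

def A022R_040 :
    ∃ t, chk3 (onCell 0 33554432 0 1073741824 33554432 16777216 (corTK [] false 3 c0N cA022R gN0q0 gN4q2 gN0q2 gN1q2 true true)) t 1 1 1 = true :=
  ⟨(T.l 2), by decide +kernel⟩

def A022R_041 :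
    ∃ t, chk3 (onCell 0 33554432 0 1073741824 33554432 16777216 (corTK [] false 3 c0N cA022R gN0q0 gN4q2 gN1q2 gN2q2 true true)) t 1 1 1 = true :=
  ⟨(T.b (T.b (T.b (T.a (T.a (T.a (T.l 204) (T.a (T.l 204) (T.l 204))) (T.a (T.l 0) (T.l 204))) (T.a (T.a (T.l 204) (T.l 0)) (T.b (T.l 0) (T.l 0)))) (T.a (T.a (T.a (T.l 204) (T.c (T.l 256) (T.l 0))) (T.a (T.l 0) (T.l 0))) (T.a (T.l 0) (T.b (T.l 0) (T.l 320))))) (T.b (T.a (T.a (T.a (T.l 0) (T.a (T.l 0) (T.l 0))) (T.a (T.l 0) (T.l 0))) (T.a (T.b (T.l 0) (T.l 0)) (T.b (T.l 64) (T.l 0)))) (T.a (T.a (T.a (T.l 816) (T.a (T.l 816) (T.l 816))) (T.a (T.l 0) (T.l 0))) (T.a (T.b (T.l 0) (T.l 64)) (T.b (T.l 0) (T.l 816)))))) (T.b (T.a (T.a (T.a (T.l 816) (T.a (T.l 816) (T.l 816))) (T.a (T.a (T.l 816) (T.b (T.l 816) (T.l 816))) (T.b (T.l 880) (T.b (T.l 816) (T.l 816)))))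 (T.a (T.a (T.b (T.l 816) (T.l 880)) (T.b (T.l 816) (T.l 816))) (T.b (T.b (T.l 816) (T.l 816)) (T.b (T.l 880) (T.l 880))))) (T.b (T.a (T.a (T.a (T.l 816) (T.a (T.l 816) (T.l 816))) (T.a (T.a (T.l 816) (T.l 816)) (T.b (T.l 816) (T.l 880)))) (T.a (T.a (T.b (T.l 816) (T.l 816)) (T.l 880)) (T.a (T.l 816) (T.l 816)))) (T.b (T.a (T.a (T.a (T.l 816) (T.a (T.l 816) (T.l 816))) (T.a (T.a (T.l 816) (T.l 816)) (T.b (T.l 816) (T.l 816)))) (T.a (T.a (T.l 816) (T.l 816)) (T.a (T.l 816) (T.l 816)))) (T.b (T.a (T.a (T.a (T.l 816) (T.a (T.l 816) (T.l 816))) (T.a (T.a (T.l 816) (T.l 816)) (T.b (T.l 816) (T.l 816)))) (T.a (T.a (T.l 816) (T.l 816)) (T.a (T.l 816) (T.l 816)))) (T.a (T.b (T.a (T.a (T.l 816) (T.a (T.l 816) (T.l 816))) (T.a (T.a (T.l 816) (T.l 816)) (T.l 880))) (T.a (T.a (T.l 816) (T.a (T.l 816) (T.l 816)))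 (T.b (T.a (T.a (T.l 816) (T.l 816)) (T.l 2)) (T.l 2)))) (T.b (T.a (T.a (T.l 816) (T.l 816)) (T.l 2)) (T.l 2)))))))), by decide +kernel⟩

def A022R_042 :
    ∃ t, chk3 (onCell 0 33554432 0 1073741824 33554432 16777216 (corTK [] false 3 c0N cA022R gN0q0 gN4q2 gN2q2 gN3q2 true false)) t 1 1 1 = true :=
  ⟨(T.b (T.l 1) (T.b (T.l 1) (T.b (T.l 1) (T.b (T.l 1) (T.b (T.a (T.l 1) (T.a (T.a (T.l 1) (T.l 816)) (T.l 816))) (T.a (T.b (T.a (T.l 1) (T.a (T.l 816) (T.l 816))) (T.a (T.a (T.l 816) (T.a (T.l 816) (T.l 816))) (T.a (T.l 816) (T.l 816)))) (T.a (T.a (T.l 816) (T.l 816)) (T.l 816)))))))), by decide +kernel⟩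

def A022R_140 :
    ∃ t, chk3 (onCell 0 33554432 0 1073741824 33554432 16777216 (corTK [] false 3 c0N cA022R gN1q0 gN4q2 gN0q2 gN1q2 true true)) t 1 1 1 = true :=
  ⟨(T.b (T.l 2) (T.b (T.l 2) (T.b (T.l 2) (T.a (T.b (T.l 2) (T.b (T.l 2) (T.a (T.a (T.l 204) (T.l 2)) (T.l 2)))) (T.l 2))))), by decide +kernel⟩

def A022R_141 :
    ∃ t, chk3 (onCell 0 33554432 0 1073741824 33554432 16777216 (corTK [] false 3 c0N cA022R gN1q0 gN4q2 gN1q2 gN2q2 true true)) t 1 1 1 = true :=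
  ⟨(T.b (T.b (T.a (T.a (T.a (T.l 204) (T.a (T.l 204) (T.l 204))) (T.a (T.l 204) (T.l 204))) (T.b (T.a (T.a (T.l 204) (T.l 204)) (T.b (T.l 204) (T.l 204))) (T.b (T.l 0) (T.l 0)))) (T.a (T.a (T.a (T.l 204) (T.l 0)) (T.l 0)) (T.b (T.l 0) (T.l 0)))) (T.a (T.a (T.a (T.l 204) (T.l 0)) (T.l 0)) (T.l 0))), by decide +kernel⟩

def A022R_142 :
    ∃ t, chk3 (onCell 0 33554432 0 1073741824 33554432 16777216 (corTK [] false 3 c0N cA022R gN1q0 gN4q2 gN2q2 gN3q2 true false)) t 1 1 1 = true :=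
  ⟨(T.l 1), by decide +kernel⟩

def A022R_240 :
    ∃ t, chk3 (onCell 0 33554432 0 1073741824 33554432 16777216 (corTK [] false 3 c0N cA022R gN2q0 gN4q2 gN0q2 gN1q2 true true)) t 1 1 1 = true :=
  ⟨(T.b (T.b (T.b (T.l 2) (T.a (T.b (T.l 2) (T.b (T.l 2) (T.a (T.a (T.l 204) (T.l 2)) (T.l 2)))) (T.l 2))) (T.a (T.a (T.a (T.l 204) (T.l 0)) (T.l 0)) (T.b (T.l 0) (T.l 0)))) (T.a (T.a (T.a (T.l 204) (T.l 0)) (T.l 0)) (T.l 0))), by decide +kernel⟩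

def A022R_241 :
    ∃ t, chk3 (onCell 0 33554432 0 1073741824 33554432 16777216 (corTK [] false 3 c0N cA022R gN2q0 gN4q2 gN1q2 gN2q2 true true)) t 1 1 1 = true :=
  ⟨(T.b (T.b (T.a (T.a (T.a (T.l 204) (T.a (T.l 204) (T.l 204))) (T.a (T.l 204) (T.l 204))) (T.b (T.b (T.a (T.b (T.l 256) (T.l 204)) (T.l 204)) (T.l 0)) (T.l 0))) (T.a (T.a (T.a (T.l 204) (T.l 0)) (T.l 0)) (T.b (T.l 0) (T.l 1)))) (T.l 1)), by decide +kernel⟩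

def A022R_242 :
    ∃ t, chk3 (onCell 0 33554432 0 1073741824 33554432 16777216 (corTK [] false 3 c0N cA022R gN2q0 gN4q2 gN2q2 gN3q2 true false)) t 1 1 1 = true :=
  ⟨(T.l 1), by decide +kernel⟩

def A101E_000 :
    ∃ t, chk3 (onCell 0 33554432 0 1073741824 33554432 16777216 (corTK [] false 3 c0N cA101E gN0q1 gN0q0 gN0q1 gN1q1 true false)) t 1 1 1 = true :=
  ⟨(T.l 1), by decide +kernel⟩

def A101E_010 :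
    ∃ t, chk3 (onCell 0 33554432 0 1073741824 33554432 16777216 (corTK [] false 3 c0N cA101E gN0q1 gN1q0 gN0q1 gN1q1 true false)) t 1 1 1 = true :=
  ⟨(T.l 1), by decide +kernel⟩

def A101E_020 :
    ∃ t, chk3 (onCell 0 33554432 0 1073741824 33554432 16777216 (corTK [] false 3 c0N cA101E gN0q1 gN2q0 gN0q1 gN1q1 true false)) t 1 1 1 = true :=
  ⟨(T.b (T.l 1) (T.b (T.l 1) (T.b (T.l 1) (T.a (T.b (T.l 1) (T.a (T.a (T.l 816) (T.l 816)) (T.l 816))) (T.l 816))))), by decide +kernel⟩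

def A101L_220 :
    ∃ t, chk3 (onCell 0 33554432 0 1073741824 33554432 16777216 (corTK [] false 3 c0N cA101L gN2q1 gN2q0 gN0q1 gN1q1 true false)) t 1 1 1 = true :=
  ⟨(T.l 1), by decide +kernel⟩

def A101R_001 :
    ∃ t, chk3 (onCell 0 33554432 0 1073741824 33554432 16777216 (corTK [] false 3 c0N cA101R gN0q1 gN0q0 gN1q1 gN2q1 false true)) t 1 1 1 = true :=
  ⟨(T.l 2), by decide +kernel⟩

def A101R_002 :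
    ∃ t, chk3 (onCell 0 33554432 0 1073741824 33554432 16777216 (corTK [] false 3 c0N cA101R gN0q1 gN0q0 gN2q1 gN3q1 true true)) t 1 1 1 = true :=
  ⟨(T.l 2), by decide +kernel⟩

def A101R_003 :
    ∃ t, chk3 (onCell 0 33554432 0 1073741824 33554432 16777216 (corTK [] false 3 c0N cA101R gN0q1 gN0q0 gN3q1 gN4q1 true true)) t 1 1 1 = true :=
  ⟨(T.l 2), by decide +kernel⟩

def A101R_011 :
    ∃ t, chk3 (onCell 0 33554432 0 1073741824 33554432 16777216 (corTK [] false 3 c0N cA101R gN0q1 gN1q0 gN1q1 gN2q1 false true)) t 1 1 1 = true :=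
  ⟨(T.l 2), by decide +kernel⟩

def A101R_012 :
    ∃ t, chk3 (onCell 0 33554432 0 1073741824 33554432 16777216 (corTK [] false 3 c0N cA101R gN0q1 gN1q0 gN2q1 gN3q1 true true)) t 1 1 1 = true :=
  ⟨(T.l 2), by decide +kernel⟩

def A101R_013 :
    ∃ t, chk3 (onCell 0 33554432 0 1073741824 33554432 16777216 (corTK [] false 3 c0N cA101R gN0q1 gN1q0 gN3q1 gN4q1 true true)) t 1 1 1 = true :=
  ⟨(T.l 2), by decide +kernel⟩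

def A101R_021 :
    ∃ t, chk3 (onCell 0 33554432 0 1073741824 33554432 16777216 (corTK [] false 3 c0N cA101R gN0q1 gN2q0 gN1q1 gN2q1 false true)) t 1 1 1 = true :=
  ⟨(T.l 2), by decide +kernel⟩

def A101R_022 :
    ∃ t, chk3 (onCell 0 33554432 0 1073741824 33554432 16777216 (corTK [] false 3 c0N cA101R gN0q1 gN2q0 gN2q1 gN3q1 true true)) t 1 1 1 = true :=
  ⟨(T.l 2), by decide +kernel⟩

def A101R_023 :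
    ∃ t, chk3 (onCell 0 33554432 0 1073741824 33554432 16777216 (corTK [] false 3 c0N cA101R gN0q1 gN2q0 gN3q1 gN4q1 true true)) t 1 1 1 = true :=
  ⟨(T.l 2), by decide +kernel⟩

end Pool.Agent.Strip051.G.I1_32_3_64.Tab.CN
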