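import Pool.Agent.Strip051.G.I1_32_3_64.Gn
import Pool.Agent.Strip051.PB.Corns
import Pool.Agent.Strip051.PB.CornK

/-! # Certificates of the aligned corners (generated) -/

set_option linter.all false

namespace Pool.Agent.Strip051.G.I1_32_3_64.Tab.CN

open Pool.Agent.Strip051.PB

def A102E_000_1_2_1 :
    ∃ t, chk3 (onCell 0 33554432 0 1073741824 33554432 16777216 (corTK [[⟨0, 1, 0, 6291456⟩, ⟨1, 0, 1, 16777216⟩, ⟨2, 1, 1, 16777216⟩, ⟨1, 0, 0, 67108864⟩, ⟨1, 1, 0, 1056964608⟩, ⟨2, 1, 0, 67108864⟩, ⟨2, 2, 0, 1056964608⟩]] false 3 c0N cA102E gN0q1 gN0q0 gN0q2 gN1q2 true true)) t 1 2 1 = true :=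
  ⟨(T.b (T.l 2) (T.b (T.b (T.l 2) (T.b (T.b (T.l 2) (T.b (T.a (T.b (T.l 2) (T.a (T.a (T.l 204) (T.a (T.l 204) (T.l 204))) (T.a (T.a (T.l 204) (T.l 2)) (T.l 2)))) (T.l 2)) (T.a (T.b (T.a (T.a (T.l 204) (T.a (T.l 204) (T.l 204))) (T.a (T.a (T.l 204) (T.a (T.l 204) (T.l 204))) (T.a (T.a (T.l 204) (T.l 204)) (T.c (T.l 476) (T.l 476))))) (T.a (T.a (T.l 204) (T.a (T.l 204) (T.l 204))) (T.a (T.a (T.l 204) (T.a (T.l 204) (T.l 204))) (T.a (T.a (T.l 204) (T.l 204)) (T.c (T.l 476) (T.l 476)))))) (T.b (T.a (T.c (T.b (T.l 2) (T.a (T.a (T.l 204) (T.l 204)) (T.a (T.l 204) (T.l 2)))) (T.b (T.l 2) (T.a (T.a (T.l 204) (T.l 204)) (T.a (T.l 204) (T.l 2))))) (T.l 2)) (T.a (T.a (T.a (T.c (T.l 460) (T.l 204)) (T.l 476)) (T.a (T.l 460) (T.l 460))) (T.a (T.a (T.l 460) (T.l 204)) (T.c (T.l 476)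 (T.l 476)))))))) (T.b (T.b (T.a (T.b (T.a (T.a (T.l 204) (T.a (T.l 204) (T.l 204))) (T.a (T.a (T.l 204) (T.a (T.l 204) (T.l 204))) (T.a (T.a (T.l 204) (T.l 204)) (T.c (T.l 476) (T.l 460))))) (T.a (T.a (T.l 204) (T.a (T.l 204) (T.l 204))) (T.a (T.a (T.l 204) (T.a (T.l 204) (T.l 204))) (T.a (T.a (T.l 204) (T.l 204)) (T.c (T.l 476) (T.l 460)))))) (T.a (T.a (T.a (T.c (T.l 476) (T.l 476)) (T.c (T.l 476) (T.l 460))) (T.a (T.l 476) (T.l 476))) (T.a (T.a (T.l 476) (T.l 460)) (T.a (T.l 460) (T.l 460))))) (T.a (T.a (T.a (T.l 204) (T.a (T.l 204) (T.l 204))) (T.a (T.a (T.l 204) (T.a (T.l 204) (T.l 460))) (T.a (T.a (T.l 204) (T.l 204)) (T.a (T.l 204) (T.l 204))))) (T.a (T.a (T.a (T.c (T.l 476) (T.l 460)) (T.c (T.l 460) (T.l 204))) (T.a (T.l 476) (T.l 476))) (T.a (T.a (T.l 476) (T.l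 460)) (T.a (T.l 460) (T.l 204)))))) (T.a (T.a (T.a (T.l 204) (T.a (T.l 204) (T.l 204))) (T.a (T.a (T.l 204) (T.b (T.l 476) (T.l 204))) (T.a (T.a (T.b (T.l 204) (T.l 204)) (T.b (T.l 204) (T.l 204))) (T.a (T.l 476) (T.l 476))))) (T.a (T.a (T.a (T.a (T.l 460) (T.l 460)) (T.a (T.l 204) (T.l 204))) (T.a (T.b (T.l 476) (T.l 476)) (T.b (T.l 476) (T.l 476)))) (T.a (T.a (T.b (T.l 460) (T.l 460)) (T.b (T.l 460) (T.l 204))) (T.a (T.l 476) (T.l 476)))))))) (T.b (T.a (T.a (T.a (T.l 0) (T.a (T.l 0) (T.l 272))) (T.a (T.a (T.l 0) (T.b (T.l 476) (T.l 0))) (T.a (T.b (T.a (T.b (T.b (T.l 204) (T.l 204)) (T.l 476)) (T.b (T.l 476) (T.l 476))) (T.a (T.l 204) (T.b (T.l 204) (T.l 0)))) (T.b (T.a (T.b (T.l 476) (T.l 204)) (T.b (T.l 460) (T.l 204))) (T.a (T.b (T.l 204) (T.l 204)) (T.b (T.l 204)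 (T.l 204))))))) (T.a (T.a (T.a (T.b (T.a (T.b (T.l 204) (T.l 204)) (T.b (T.l 204) (T.l 204))) (T.a (T.b (T.l 204) (T.l 204)) (T.b (T.l 204) (T.l 204)))) (T.b (T.a (T.b (T.l 204) (T.l 204)) (T.b (T.l 204) (T.l 204))) (T.b (T.b (T.l 476) (T.l 460)) (T.b (T.l 0) (T.l 0))))) (T.b (T.a (T.b (T.b (T.l 476) (T.l 476)) (T.b (T.l 476) (T.l 204))) (T.b (T.b (T.l 476) (T.l 460)) (T.b (T.l 204) (T.l 204)))) (T.a (T.b (T.b (T.l 204) (T.l 204)) (T.b (T.l 0) (T.l 0))) (T.b (T.b (T.l 204) (T.l 204)) (T.b (T.l 0) (T.l 0)))))) (T.a (T.b (T.a (T.b (T.b (T.l 204) (T.l 204)) (T.b (T.l 204) (T.l 204))) (T.b (T.l 476) (T.l 476))) (T.a (T.b (T.l 272) (T.b (T.l 0) (T.l 0))) (T.b (T.l 272) (T.l 340)))) (T.b (T.a (T.b (T.l 476) (T.l 476)) (T.b (T.l 476) (T.l 476))) (T.a (T.b (T.l 272) (T.l 0)) (T.b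 (T.l 256) (T.l 0))))))) (T.a (T.a (T.a (T.b (T.l 0) (T.b (T.l 816) (T.c (T.a (T.l 816) (T.l 816)) (T.l 816)))) (T.a (T.b (T.l 0) (T.b (T.l 816) (T.l 884))) (T.b (T.l 0) (T.b (T.b (T.l 0) (T.l 68)) (T.a (T.l 816) (T.l 884)))))) (T.a (T.a (T.b (T.l 0) (T.b (T.l 0) (T.c (T.l 884) (T.l 816)))) (T.b (T.b (T.l 0) (T.l 0)) (T.c (T.l 884) (T.l 816)))) (T.a (T.b (T.b (T.a (T.l 0) (T.l 0)) (T.l 0)) (T.b (T.b (T.l 816) (T.l 816)) (T.c (T.l 884) (T.l 820)))) (T.b (T.b (T.a (T.l 0) (T.l 0)) (T.a (T.l 0) (T.l 0))) (T.b (T.a (T.b (T.l 816) (T.l 816)) (T.l 68)) (T.a (T.l 884) (T.b (T.l 816) (T.l 884)))))))) (T.a (T.a (T.b (T.a (T.b (T.b (T.l 16) (T.l 68)) (T.a (T.l 0) (T.l 0))) (T.b (T.b (T.l 0) (T.l 0)) (T.b (T.l 68) (T.l 68)))) (T.a (T.b (T.a (T.b (T.l 816) (T.l 816)) (T.l 884)) (T.a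 (T.b (T.l 816) (T.l 884)) (T.b (T.l 816) (T.l 884)))) (T.b (T.a (T.l 884) (T.l 884)) (T.a (T.b (T.l 816) (T.l 884)) (T.b (T.l 816) (T.l 884)))))) (T.b (T.a (T.b (T.b (T.l 0) (T.l 0)) (T.b (T.l 0) (T.l 68))) (T.b (T.b (T.l 0) (T.l 0)) (T.b (T.l 0) (T.l 4)))) (T.a (T.b (T.a (T.l 884) (T.l 884)) (T.a (T.b (T.l 816) (T.l 884)) (T.b (T.l 816) (T.l 884)))) (T.b (T.b (T.l 884) (T.l 884)) (T.a (T.l 884) (T.l 884)))))) (T.a (T.b (T.a (T.b (T.b (T.l 0) (T.l 0)) (T.b (T.l 0) (T.l 816))) (T.b (T.b (T.l 0) (T.l 0)) (T.b (T.l 0) (T.l 816)))) (T.a (T.b (T.b (T.l 884) (T.l 884)) (T.b (T.l 884) (T.l 884))) (T.b (T.b (T.l 820) (T.l 884)) (T.b (T.l 884) (T.l 884))))) (T.b (T.a (T.b (T.l 68) (T.l 68)) (T.b (T.l 68) (T.l 68))) (T.a (T.b (T.b (T.l 816) (T.l 884)) (T.b (T.l 884) (T.l 884)))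 (T.b (T.l 884) (T.b (T.l 884) (T.l 884))))))))))), by decide +kernel⟩

def A102E_000_4_384_1 :
    ∃ t, chk3 (onCell 0 33554432 0 1073741824 33554432 16777216 (corTK [[⟨0, 1, 0, 6291456⟩, ⟨1, 0, 1, 16777216⟩, ⟨2, 1, 1, 16777216⟩, ⟨1, 0, 0, 67108864⟩, ⟨1, 1, 0, 1056964608⟩, ⟨2, 1, 0, 67108864⟩, ⟨2, 2, 0, 1056964608⟩]] false 3 c0N cA102E gN0q1 gN0q0 gN0q2 gN1q2 true true)) t 4 384 1 = true :=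
  ⟨(T.a (T.c (T.b (T.c (T.b (T.a (T.c (T.b (T.a (T.c (T.b (T.l 816) (T.a (T.l 1) (T.c (T.b (T.l 816) (T.a (T.l 1) (T.l 816))) (T.b (T.l 816) (T.a (T.l 1) (T.l 816)))))) (T.b (T.l 816) (T.a (T.l 1) (T.c (T.b (T.l 816) (T.a (T.l 1) (T.l 816))) (T.a (T.a (T.l 1) (T.l 816)) (T.l 816)))))) (T.l 816)) (T.a (T.l 1) (T.c (T.b (T.a (T.c (T.b (T.l 816) (T.l 1)) (T.a (T.l 1) (T.l 816))) (T.l 816)) (T.a (T.l 1) (T.a (T.l 1) (T.c (T.b (T.l 816) (T.l 1)) (T.a (T.l 1) (T.l 816)))))) (T.b (T.a (T.a (T.l 1) (T.l 816)) (T.l 816)) (T.a (T.l 1) (T.c (T.b (T.l 816) (T.l 1)) (T.b (T.l 816) (T.l 1)))))))) (T.b (T.a (T.a (T.c (T.b (T.l 816) (T.l 1)) (T.b (T.l 816) (T.l 1))) (T.l 816)) (T.l 816)) (T.a (T.l 1) (T.c (T.b (T.a (T.a (T.l 1) (T.l 816)) (T.l 816)) (T.a (T.l 1) (T.a (T.l 1) (T.l 816))))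 (T.b (T.a (T.a (T.l 1) (T.l 816)) (T.l 816)) (T.a (T.l 1) (T.a (T.l 1) (T.l 816)))))))) (T.l 816)) (T.a (T.l 1) (T.c (T.b (T.a (T.c (T.b (T.a (T.l 1) (T.a (T.a (T.l 1) (T.l 816)) (T.l 816))) (T.l 1)) (T.b (T.a (T.l 1) (T.l 816)) (T.l 1))) (T.a (T.a (T.c (T.b (T.l 816) (T.l 1)) (T.b (T.l 816) (T.l 1))) (T.l 816)) (T.l 816))) (T.a (T.l 1) (T.a (T.l 1) (T.a (T.l 1) (T.a (T.l 1) (T.c (T.b (T.l 816) (T.l 1)) (T.b (T.l 816) (T.l 1)))))))) (T.b (T.a (T.c (T.b (T.a (T.l 1) (T.l 816)) (T.l 1)) (T.b (T.a (T.l 1) (T.l 816)) (T.l 1))) (T.a (T.c (T.a (T.l 816) (T.l 816)) (T.l 816)) (T.l 816))) (T.a (T.l 1) (T.a (T.l 1) (T.a (T.l 1) (T.c (T.b (T.l 816) (T.l 1)) (T.b (T.l 816) (T.l 1)))))))))) (T.b (T.a (T.c (T.b (T.a (T.a (T.c (T.b (T.l 816) (T.l 1)) (T.b (T.l 816) (T.l 1))) (T.l 816))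 (T.l 816)) (T.a (T.l 1) (T.c (T.b (T.l 816) (T.a (T.l 1) (T.a (T.l 1) (T.l 816)))) (T.b (T.l 816) (T.a (T.l 1) (T.l 816)))))) (T.b (T.a (T.a (T.c (T.b (T.l 816) (T.l 1)) (T.b (T.l 816) (T.l 1))) (T.l 816)) (T.l 816)) (T.a (T.l 1) (T.c (T.b (T.l 816) (T.a (T.l 1) (T.l 816))) (T.b (T.l 816) (T.a (T.l 1) (T.l 816))))))) (T.l 816)) (T.a (T.l 1) (T.c (T.b (T.a (T.c (T.b (T.a (T.l 1) (T.l 816)) (T.l 1)) (T.b (T.a (T.l 1) (T.l 816)) (T.l 1))) (T.l 816)) (T.a (T.l 1) (T.a (T.l 1) (T.c (T.b (T.l 816) (T.l 1)) (T.b (T.l 816) (T.l 1)))))) (T.b (T.a (T.c (T.b (T.a (T.l 1) (T.l 816)) (T.l 1)) (T.b (T.l 816) (T.l 1))) (T.l 816)) (T.a (T.l 1) (T.a (T.l 1) (T.c (T.b (T.l 816) (T.l 1)) (T.b (T.l 816) (T.l 1)))))))))) (T.l 1)) (T.b (T.c (T.b (T.a (T.c (T.b (T.l 816) (T.a (T.l 1) (T.c (T.b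 (T.l 816) (T.a (T.l 1) (T.l 816))) (T.b (T.l 816) (T.a (T.l 1) (T.l 816)))))) (T.b (T.l 816) (T.a (T.l 1) (T.a (T.a (T.l 1) (T.l 816)) (T.l 816))))) (T.l 816)) (T.a (T.l 1) (T.c (T.b (T.a (T.c (T.a (T.l 1) (T.l 816)) (T.a (T.l 1) (T.l 816))) (T.l 816)) (T.a (T.l 1) (T.a (T.l 1) (T.c (T.b (T.l 816) (T.l 1)) (T.a (T.l 1) (T.l 816)))))) (T.b (T.a (T.a (T.l 1) (T.l 816)) (T.l 816)) (T.a (T.l 1) (T.c (T.b (T.l 816) (T.l 1)) (T.a (T.l 1) (T.l 816)))))))) (T.b (T.a (T.a (T.c (T.b (T.l 816) (T.l 1)) (T.b (T.l 816) (T.l 1))) (T.l 816)) (T.l 816)) (T.a (T.l 1) (T.c (T.b (T.a (T.a (T.l 1) (T.l 816)) (T.l 816)) (T.a (T.l 1) (T.a (T.l 1) (T.l 816)))) (T.b (T.l 816) (T.a (T.l 1) (T.a (T.l 1) (T.l 816)))))))) (T.l 1))) (T.a (T.c (T.b (T.a (T.c (T.b (T.l 816) (T.a (T.c (T.b (T.l 816)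 (T.c (T.b (T.l 816) (T.l 1)) (T.b (T.l 816) (T.l 1)))) (T.b (T.l 816) (T.c (T.b (T.l 816) (T.l 1)) (T.b (T.l 816) (T.l 1))))) (T.l 816))) (T.c (T.a (T.b (T.l 816) (T.b (T.l 816) (T.c (T.b (T.l 816) (T.l 1)) (T.b (T.l 816) (T.l 1))))) (T.l 816)) (T.l 816))) (T.l 816)) (T.c (T.b (T.c (T.b (T.a (T.l 1) (T.c (T.b (T.a (T.a (T.l 1) (T.l 816)) (T.l 816)) (T.a (T.l 1) (T.a (T.l 1) (T.l 816)))) (T.b (T.l 816) (T.a (T.l 1) (T.a (T.l 1) (T.l 816)))))) (T.l 1)) (T.b (T.a (T.l 1) (T.c (T.b (T.l 816) (T.a (T.l 1) (T.a (T.l 1) (T.l 816)))) (T.b (T.l 816) (T.a (T.l 1) (T.l 816))))) (T.l 1))) (T.l 1)) (T.b (T.c (T.b (T.a (T.l 1) (T.c (T.b (T.l 816) (T.a (T.l 1) (T.l 816))) (T.b (T.l 816) (T.a (T.l 1) (T.l 816))))) (T.l 1)) (T.b (T.a (T.l 1) (T.c (T.b (T.l 816) (T.a (T.l 1) (T.l 816)))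 (T.b (T.l 816) (T.a (T.l 1) (T.l 816))))) (T.l 1))) (T.l 1)))) (T.b (T.l 816) (T.c (T.b (T.c (T.b (T.a (T.l 1) (T.a (T.a (T.l 1) (T.l 816)) (T.l 816))) (T.l 1)) (T.b (T.a (T.l 1) (T.l 816)) (T.l 1))) (T.l 1)) (T.b (T.c (T.b (T.a (T.l 1) (T.l 816)) (T.l 1)) (T.b (T.a (T.l 1) (T.l 816)) (T.l 1))) (T.l 1))))) (T.a (T.c (T.b (T.l 816) (T.c (T.b (T.c (T.b (T.l 816) (T.c (T.b (T.a (T.l 1) (T.l 816)) (T.l 1)) (T.b (T.a (T.l 1) (T.l 816)) (T.l 1)))) (T.b (T.l 816) (T.c (T.b (T.a (T.l 1) (T.l 816)) (T.l 1)) (T.b (T.a (T.l 1) (T.l 816)) (T.l 1))))) (T.l 1)) (T.b (T.c (T.b (T.l 816) (T.c (T.b (T.a (T.l 1) (T.l 816)) (T.l 1)) (T.b (T.l 816) (T.l 1)))) (T.a (T.b (T.l 816) (T.l 1)) (T.l 816))) (T.l 1)))) (T.b (T.l 816) (T.c (T.b (T.a (T.c (T.b (T.l 816) (T.l 1)) (T.b (T.l 816) (T.l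 1))) (T.l 816)) (T.l 1)) (T.b (T.l 816) (T.l 1))))) (T.c (T.b (T.l 816) (T.c (T.b (T.a (T.l 816) (T.l 816)) (T.a (T.l 1) (T.a (T.l 1) (T.c (T.b (T.c (T.b (T.l 816) (T.l 1)) (T.b (T.l 816) (T.l 1))) (T.l 1)) (T.b (T.c (T.b (T.l 816) (T.l 1)) (T.b (T.l 816) (T.l 1))) (T.l 1)))))) (T.b (T.l 816) (T.a (T.l 1) (T.a (T.l 1) (T.c (T.b (T.c (T.b (T.l 816) (T.l 1)) (T.a (T.l 1) (T.l 816))) (T.l 1)) (T.b (T.a (T.l 1) (T.l 816)) (T.l 1)))))))) (T.b (T.l 816) (T.c (T.b (T.l 816) (T.a (T.l 1) (T.a (T.l 1) (T.c (T.b (T.l 816) (T.l 1)) (T.b (T.l 816) (T.l 1)))))) (T.b (T.l 816) (T.a (T.l 1) (T.c (T.b (T.l 816) (T.l 1)) (T.b (T.l 816) (T.l 1))))))))))), by decide +kernel⟩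

def A102E_000_5_384_1 :
    ∃ t, chk3 (onCell 0 33554432 0 1073741824 33554432 16777216 (corTK [[⟨0, 1, 0, 6291456⟩, ⟨1, 0, 1, 16777216⟩, ⟨2, 1, 1, 16777216⟩, ⟨1, 0, 0, 67108864⟩, ⟨1, 1, 0, 1056964608⟩, ⟨2, 1, 0, 67108864⟩, ⟨2, 2, 0, 1056964608⟩]] false 3 c0N cA102E gN0q1 gN0q0 gN0q2 gN1q2 true true)) t 5 384 1 = true :=
  ⟨(T.a (T.a (T.a (T.c (T.b (T.l 816) (T.c (T.b (T.l 816) (T.c (T.b (T.a (T.c (T.b (T.l 816) (T.l 1)) (T.b (T.l 816) (T.l 1))) (T.l 816)) (T.l 1)) (T.b (T.a (T.c (T.b (T.l 816) (T.l 1)) (T.b (T.l 816) (T.l 1))) (T.l 816)) (T.l 1)))) (T.b (T.l 816) (T.c (T.b (T.a (T.l 816) (T.l 816)) (T.l 1)) (T.b (T.l 816) (T.l 1)))))) (T.b (T.l 816) (T.c (T.b (T.l 816) (T.c (T.b (T.l 816) (T.l 1)) (T.b (T.l 816) (T.l 1)))) (T.b (T.l 816) (T.c (T.b (T.l 816) (T.l 1))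 (T.b (T.l 816) (T.l 1))))))) (T.c (T.b (T.l 816) (T.c (T.b (T.l 816) (T.c (T.b (T.l 816) (T.c (T.b (T.l 816) (T.a (T.l 1) (T.l 816))) (T.b (T.l 816) (T.a (T.l 1) (T.l 816))))) (T.a (T.b (T.l 816) (T.c (T.b (T.l 816) (T.l 1)) (T.b (T.l 816) (T.l 1)))) (T.l 816)))) (T.a (T.b (T.l 816) (T.a (T.c (T.b (T.l 816) (T.l 1)) (T.b (T.l 816) (T.l 1))) (T.l 816))) (T.l 816)))) (T.c (T.a (T.l 816) (T.l 816)) (T.l 816)))) (T.c (T.a (T.l 816) (T.l 816)) (T.l 816))) (T.a (T.a (T.l 816) (T.l 816)) (T.a (T.l 816) (T.l 884)))), by decide +kernel⟩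

def A102E_000_2_385_1 :
    ∃ t, chk3 (onCell 0 33554432 0 1073741824 33554432 16777216 (corTK [[⟨0, 1, 0, 6291456⟩, ⟨1, 0, 1, 16777216⟩, ⟨2, 1, 1, 16777216⟩, ⟨1, 0, 0, 67108864⟩, ⟨1, 1, 0, 1056964608⟩, ⟨2, 1, 0, 67108864⟩, ⟨2, 2, 0, 1056964608⟩]] false 3 c0N cA102E gN0q1 gN0q0 gN0q2 gN1q2 true true)) t 2 385 1 = true :=
  ⟨(T.a (T.l 1) (T.a (T.a (T.l 1) (T.c (T.b (T.c (T.b (T.c (T.b (T.a (T.a (T.l 1) (T.c (T.b (T.l 816) (T.l 1)) (T.b (T.l 816) (T.l 1)))) (T.l 816)) (T.a (T.l 1) (T.a (T.l 1) (T.c (T.b (T.l 816) (T.l 1)) (T.b (T.l 816) (T.l 1)))))) (T.b (T.a (T.a (T.l 1) (T.c (T.b (T.l 816) (T.l 1)) (T.b (T.l 816) (T.l 1)))) (T.l 816)) (T.a (T.l 1) (T.a (T.l 1) (T.c (T.b (T.l 816) (T.l 1)) (T.b (T.l 816) (T.l 1))))))) (T.l 1)) (T.b (T.c (T.b (T.a (T.a (T.l 1) (T.l 816))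 (T.l 816)) (T.a (T.l 1) (T.a (T.l 1) (T.a (T.l 1) (T.l 816))))) (T.b (T.a (T.a (T.l 1) (T.l 816)) (T.l 816)) (T.a (T.l 1) (T.a (T.l 1) (T.a (T.l 1) (T.l 816)))))) (T.l 1))) (T.l 1)) (T.b (T.c (T.b (T.c (T.b (T.a (T.a (T.l 1) (T.l 816)) (T.l 816)) (T.a (T.l 1) (T.a (T.l 1) (T.l 816)))) (T.b (T.a (T.a (T.l 1) (T.l 816)) (T.l 816)) (T.a (T.l 1) (T.a (T.l 1) (T.l 816))))) (T.l 1)) (T.b (T.c (T.b (T.a (T.l 816) (T.l 816)) (T.a (T.l 1) (T.a (T.l 1) (T.l 816)))) (T.b (T.a (T.l 816) (T.l 816)) (T.a (T.l 1) (T.a (T.l 1) (T.l 816))))) (T.l 1))) (T.l 1)))) (T.c (T.b (T.a (T.a (T.c (T.b (T.c (T.a (T.c (T.a (T.b (T.l 816) (T.l 816)) (T.l 816)) (T.l 816)) (T.l 816)) (T.l 816)) (T.l 1)) (T.b (T.l 816) (T.l 1))) (T.c (T.b (T.l 816) (T.c (T.b (T.c (T.b (T.l 816) (T.a (T.l 1) (T.l 816)))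 (T.b (T.l 816) (T.a (T.l 1) (T.l 816)))) (T.l 1)) (T.b (T.c (T.b (T.l 816) (T.a (T.l 1) (T.l 816))) (T.b (T.l 816) (T.a (T.l 1) (T.l 816)))) (T.l 1)))) (T.b (T.l 816) (T.c (T.b (T.a (T.a (T.l 1) (T.l 816)) (T.l 816)) (T.l 1)) (T.b (T.a (T.l 816) (T.l 816)) (T.l 1)))))) (T.a (T.c (T.b (T.l 816) (T.c (T.b (T.l 816) (T.a (T.l 1) (T.c (T.b (T.l 816) (T.l 1)) (T.a (T.l 816) (T.l 816))))) (T.a (T.b (T.l 816) (T.l 1)) (T.l 816)))) (T.a (T.b (T.l 816) (T.c (T.b (T.l 816) (T.l 1)) (T.b (T.l 816) (T.l 1)))) (T.l 816))) (T.a (T.l 816) (T.l 816)))) (T.a (T.l 1) (T.a (T.l 1) (T.a (T.l 1) (T.c (T.b (T.a (T.l 1) (T.c (T.b (T.a (T.l 1) (T.l 816)) (T.l 1)) (T.b (T.l 816) (T.l 1)))) (T.l 1)) (T.b (T.a (T.l 1) (T.c (T.b (T.l 816) (T.l 1)) (T.b (T.l 816) (T.l 1)))) (T.l 1))))))) (T.b (T.a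 (T.a (T.c (T.b (T.l 816) (T.l 1)) (T.b (T.l 816) (T.l 1))) (T.c (T.b (T.l 816) (T.c (T.b (T.l 816) (T.l 1)) (T.b (T.l 816) (T.l 1)))) (T.b (T.l 816) (T.c (T.b (T.l 816) (T.l 1)) (T.b (T.l 816) (T.l 1)))))) (T.a (T.c (T.a (T.c (T.c (T.a (T.l 816) (T.l 816)) (T.l 816)) (T.l 816)) (T.l 816)) (T.l 816)) (T.l 816))) (T.a (T.l 1) (T.a (T.l 1) (T.a (T.l 1) (T.c (T.b (T.c (T.b (T.l 816) (T.l 1)) (T.b (T.l 816) (T.l 1))) (T.l 1)) (T.b (T.c (T.b (T.l 816) (T.l 1)) (T.b (T.l 816) (T.l 1))) (T.l 1)))))))))), by decide +kernel⟩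

def A102E_000_3_192_1 :
    ∃ t, chk3 (onCell 0 33554432 0 1073741824 33554432 16777216 (corTK [[⟨0, 1, 0, 6291456⟩, ⟨1, 0, 1, 16777216⟩, ⟨2, 1, 1, 16777216⟩, ⟨1, 0, 0, 67108864⟩, ⟨1, 1, 0, 1056964608⟩, ⟨2, 1, 0, 67108864⟩, ⟨2, 2, 0, 1056964608⟩]] false 3 c0N cA102E gN0q1 gN0q0 gN0q2 gN1q2 true true)) t 3 192 1 = true :=
  ⟨(T.a (T.a (T.a (T.b (T.a (T.l 884) (T.l 884)) (T.c (T.b (T.a (T.l 816) (T.l 816)) (T.c (T.b (T.a (T.c (T.b (T.a (T.l 816) (T.l 816)) (T.l 1)) (T.b (T.a (T.l 816) (T.l 816)) (T.l 1))) (T.a (T.c (T.b (T.l 816) (T.c (T.b (T.l 816) (T.l 1)) (T.b (T.l 816) (T.l 1)))) (T.a (T.b (T.l 816) (T.l 1)) (T.l 816))) (T.l 816))) (T.l 1)) (T.b (T.a (T.c (T.b (T.l 816) (T.l 1)) (T.b (T.l 816) (T.l 1))) (T.a (T.a (T.c (T.b (T.l 816) (T.l 1)) (T.l 816)) (T.l 816)) (T.l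 816))) (T.l 1)))) (T.b (T.a (T.l 816) (T.l 816)) (T.c (T.b (T.a (T.c (T.b (T.l 816) (T.l 1)) (T.b (T.l 816) (T.l 1))) (T.a (T.l 816) (T.l 816))) (T.l 1)) (T.b (T.a (T.c (T.b (T.l 816) (T.l 1)) (T.b (T.l 816) (T.l 1))) (T.l 816)) (T.l 1)))))) (T.b (T.a (T.l 884) (T.l 816)) (T.a (T.c (T.b (T.l 816) (T.c (T.b (T.l 816) (T.c (T.b (T.a (T.l 1) (T.c (T.b (T.l 816) (T.l 1)) (T.b (T.l 816) (T.l 1)))) (T.l 1)) (T.b (T.a (T.l 1) (T.c (T.b (T.l 816) (T.l 1)) (T.b (T.l 816) (T.l 1)))) (T.l 1)))) (T.b (T.l 816) (T.c (T.b (T.a (T.l 1) (T.c (T.b (T.l 816) (T.l 1)) (T.a (T.l 816) (T.l 816)))) (T.l 1)) (T.b (T.c (T.a (T.l 1) (T.l 816)) (T.a (T.l 1) (T.l 816))) (T.l 1)))))) (T.b (T.l 816) (T.c (T.b (T.l 816) (T.c (T.b (T.a (T.l 1) (T.l 816)) (T.l 1)) (T.b (T.a (T.l 1) (T.l 816)) (T.l 1))))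 (T.b (T.l 816) (T.c (T.b (T.a (T.l 1) (T.l 816)) (T.l 1)) (T.b (T.a (T.l 1) (T.l 816)) (T.l 1))))))) (T.c (T.b (T.l 816) (T.c (T.b (T.l 816) (T.c (T.b (T.a (T.l 816) (T.l 816)) (T.a (T.l 1) (T.a (T.l 1) (T.c (T.b (T.l 816) (T.l 1)) (T.b (T.l 816) (T.l 1)))))) (T.b (T.l 816) (T.a (T.l 1) (T.c (T.b (T.l 816) (T.l 1)) (T.b (T.l 816) (T.l 1))))))) (T.b (T.l 816) (T.c (T.b (T.l 816) (T.a (T.l 1) (T.c (T.b (T.l 816) (T.l 1)) (T.b (T.l 816) (T.l 1))))) (T.b (T.l 816) (T.a (T.l 1) (T.c (T.b (T.l 816) (T.l 1)) (T.b (T.l 816) (T.l 1))))))))) (T.b (T.l 816) (T.c (T.b (T.l 816) (T.c (T.b (T.l 816) (T.a (T.l 1) (T.c (T.b (T.l 816) (T.l 1)) (T.a (T.l 1) (T.l 816))))) (T.b (T.l 816) (T.a (T.l 1) (T.a (T.l 1) (T.l 816)))))) (T.b (T.l 816) (T.c (T.b (T.l 816) (T.a (T.l 1) (T.a (T.l 1)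 (T.l 816)))) (T.b (T.l 816) (T.a (T.l 1) (T.l 816))))))))))) (T.a (T.b (T.c (T.l 884) (T.l 884)) (T.a (T.c (T.b (T.l 816) (T.c (T.a (T.b (T.l 816) (T.c (T.a (T.b (T.l 816) (T.c (T.b (T.l 816) (T.l 1)) (T.b (T.l 816) (T.l 1)))) (T.l 816)) (T.a (T.b (T.l 816) (T.c (T.b (T.l 816) (T.l 1)) (T.b (T.l 816) (T.l 1)))) (T.l 816)))) (T.l 816)) (T.a (T.b (T.l 816) (T.a (T.c (T.c (T.b (T.l 816) (T.b (T.l 816) (T.l 1))) (T.l 816)) (T.l 816)) (T.l 816))) (T.l 816)))) (T.a (T.c (T.b (T.l 816) (T.l 816)) (T.l 816)) (T.l 816))) (T.c (T.c (T.l 816) (T.l 816)) (T.l 816)))) (T.b (T.l 884) (T.a (T.c (T.l 816) (T.l 816)) (T.l 816))))) (T.a (T.a (T.a (T.c (T.l 816) (T.l 816)) (T.l 884)) (T.a (T.l 884) (T.l 884))) (T.a (T.c (T.l 884) (T.l 884)) (T.c (T.l 884) (T.l 884))))), by decide +kernel⟩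

def A102E_000_2_193_1 :
    ∃ t, chk3 (onCell 0 33554432 0 1073741824 33554432 16777216 (corTK [[⟨0, 1, 0, 6291456⟩, ⟨1, 0, 1, 16777216⟩, ⟨2, 1, 1, 16777216⟩, ⟨1, 0, 0, 67108864⟩, ⟨1, 1, 0, 1056964608⟩, ⟨2, 1, 0, 67108864⟩, ⟨2, 2, 0, 1056964608⟩]] false 3 c0N cA102E gN0q1 gN0q0 gN0q2 gN1q2 true true)) t 2 193 1 = true :=
  ⟨(T.l 1), by decide +kernel⟩

def A102E_000_6_193_1 :
    ∃ t, chk3 (onCell 0 33554432 0 1073741824 33554432 16777216 (corTK [[⟨0, 1, 0, 6291456⟩, ⟨1, 0, 1, 16777216⟩, ⟨2, 1, 1, 16777216⟩, ⟨1, 0, 0, 67108864⟩, ⟨1, 1, 0, 1056964608⟩, ⟨2, 1, 0, 67108864⟩, ⟨2, 2, 0, 1056964608⟩]] false 3 c0N cA102E gN0q1 gN0q0 gN0q2 gN1q2 true true)) t 6 193 1 = true :=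
  ⟨(T.a (T.l 1) (T.b (T.c (T.b (T.c (T.b (T.a (T.a (T.l 1) (T.c (T.b (T.c (T.b (T.a (T.l 816) (T.l 816)) (T.a (T.l 1) (T.a (T.l 1) (T.l 816)))) (T.b (T.a (T.l 816) (T.l 816)) (T.a (T.l 1) (T.a (T.l 1) (T.l 816))))) (T.l 1)) (T.b (T.c (T.b (T.a (T.l 816) (T.l 816)) (T.a (T.l 1) (T.a (T.l 1) (T.l 816)))) (T.b (T.a (T.l 816) (T.l 816)) (T.a (T.l 1) (T.a (T.l 1) (T.l 816))))) (T.l 1)))) (T.a (T.c (T.b (T.l 816) (T.c (T.b (T.a (T.l 1) (T.l 816)) (T.l 1)) (T.b (T.a (T.l 1) (T.l 816)) (T.l 1)))) (T.b (T.l 816) (T.c (T.b (T.a (T.l 1) (T.l 816)) (T.l 1)) (T.b (T.a (T.l 1) (T.l 816)) (T.l 1))))) (T.a (T.a (T.c (T.b (T.l 816) (T.c (T.b (T.l 816) (T.l 1)) (T.b (T.l 816) (T.l 1)))) (T.b (T.l 816) (T.c (T.b (T.l 816) (T.l 1)) (T.l 816)))) (T.l 816)) (T.l 816)))) (T.a (T.l 1) (T.a (T.l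 1) (T.a (T.l 1) (T.a (T.l 1) (T.c (T.b (T.c (T.b (T.l 952) (T.l 1)) (T.b (T.l 952) (T.l 1))) (T.l 1)) (T.b (T.c (T.b (T.l 816) (T.l 1)) (T.b (T.l 816) (T.l 1))) (T.l 1)))))))) (T.b (T.a (T.a (T.l 1) (T.c (T.b (T.c (T.b (T.l 816) (T.a (T.l 1) (T.a (T.l 1) (T.l 816)))) (T.b (T.l 816) (T.a (T.l 1) (T.l 816)))) (T.l 1)) (T.b (T.c (T.b (T.l 816) (T.a (T.l 1) (T.l 816))) (T.b (T.l 816) (T.a (T.l 1) (T.l 816)))) (T.l 1)))) (T.a (T.c (T.b (T.l 816) (T.c (T.b (T.a (T.l 1) (T.l 816)) (T.l 1)) (T.b (T.a (T.l 1) (T.l 816)) (T.l 1)))) (T.b (T.l 816) (T.c (T.b (T.a (T.l 1) (T.l 816)) (T.l 1)) (T.b (T.a (T.l 1) (T.l 816)) (T.l 1))))) (T.a (T.c (T.a (T.l 816) (T.l 816)) (T.l 816)) (T.l 816)))) (T.a (T.l 1) (T.a (T.l 1) (T.a (T.l 1) (T.a (T.l 1) (T.c (T.b (T.c (T.b (T.l 816) (T.l 1)) (T.b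 (T.l 816) (T.l 1))) (T.l 1)) (T.b (T.c (T.b (T.l 816) (T.l 1)) (T.b (T.l 816) (T.l 1))) (T.l 1))))))))) (T.l 1)) (T.b (T.c (T.b (T.a (T.a (T.l 1) (T.c (T.b (T.c (T.b (T.l 816) (T.a (T.l 1) (T.l 816))) (T.b (T.l 816) (T.a (T.l 1) (T.l 816)))) (T.l 1)) (T.b (T.c (T.b (T.l 816) (T.a (T.l 1) (T.l 816))) (T.b (T.l 816) (T.a (T.l 1) (T.l 816)))) (T.l 1)))) (T.a (T.c (T.b (T.l 816) (T.c (T.b (T.a (T.l 1) (T.l 816)) (T.l 1)) (T.b (T.a (T.l 1) (T.l 816)) (T.l 1)))) (T.b (T.l 816) (T.c (T.b (T.a (T.l 1) (T.l 816)) (T.l 1)) (T.b (T.a (T.l 1) (T.l 816)) (T.l 1))))) (T.a (T.l 816) (T.l 816)))) (T.a (T.l 1) (T.a (T.l 1) (T.a (T.l 1) (T.a (T.l 1) (T.c (T.b (T.c (T.b (T.l 816) (T.l 1)) (T.b (T.l 816) (T.l 1))) (T.l 1)) (T.b (T.c (T.b (T.l 816) (T.l 1)) (T.b (T.l 816) (T.l 1))) (T.l 1))))))))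 (T.b (T.a (T.a (T.l 1) (T.c (T.b (T.c (T.a (T.a (T.l 1) (T.l 816)) (T.l 816)) (T.a (T.a (T.l 1) (T.l 816)) (T.l 816))) (T.l 1)) (T.b (T.a (T.l 816) (T.l 816)) (T.l 1)))) (T.a (T.c (T.b (T.l 816) (T.c (T.b (T.a (T.l 1) (T.l 816)) (T.l 1)) (T.b (T.l 816) (T.l 1)))) (T.b (T.l 816) (T.c (T.a (T.l 1) (T.l 816)) (T.a (T.l 1) (T.l 816))))) (T.l 816))) (T.a (T.l 1) (T.a (T.l 1) (T.a (T.l 1) (T.a (T.l 1) (T.c (T.b (T.c (T.b (T.l 816) (T.l 1)) (T.b (T.l 816) (T.l 1))) (T.l 1)) (T.b (T.c (T.b (T.l 816) (T.l 1)) (T.b (T.l 816) (T.l 1))) (T.l 1))))))))) (T.l 1))) (T.l 1))), by decide +kernel⟩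

def A102E_000_14_386_1 :
    ∃ t, chk3 (onCell 0 33554432 0 1073741824 33554432 16777216 (corTK [[⟨0, 1, 0, 6291456⟩, ⟨1, 0, 1, 16777216⟩, ⟨2, 1, 1, 16777216⟩, ⟨1, 0, 0, 67108864⟩, ⟨1, 1, 0, 1056964608⟩, ⟨2, 1, 0, 67108864⟩, ⟨2, 2, 0, 1056964608⟩]] false 3 c0N cA102E gN0q1 gN0q0 gN0q2 gN1q2 true true)) t 14 386 1 = true :=
  ⟨(T.c (T.b (T.a (T.c (T.b (T.l 816) (T.a (T.c (T.b (T.c (T.b (T.l 816) (T.a (T.l 1) (T.a (T.l 816) (T.l 816)))) (T.b (T.l 816) (T.a (T.l 1) (T.l 816)))) (T.l 1)) (T.b (T.a (T.c (T.b (T.l 816) (T.l 1)) (T.b (T.l 816) (T.l 1))) (T.l 816)) (T.l 1))) (T.c (T.b (T.l 816) (T.c (T.b (T.a (T.a (T.l 1) (T.l 816)) (T.l 816)) (T.a (T.l 1) (T.a (T.l 1) (T.a (T.l 1) (T.l 952))))) (T.b (T.a (T.a (T.l 1) (T.l 816)) (T.l 816)) (T.a (T.l 1) (T.c (T.b (T.l 952) (T.l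 1)) (T.b (T.l 952) (T.l 1))))))) (T.b (T.l 816) (T.c (T.b (T.a (T.a (T.l 1) (T.l 816)) (T.l 816)) (T.a (T.l 1) (T.c (T.b (T.l 952) (T.l 1)) (T.b (T.l 952) (T.l 1))))) (T.b (T.a (T.a (T.l 1) (T.l 816)) (T.l 816)) (T.a (T.l 1) (T.c (T.b (T.l 952) (T.l 1)) (T.b (T.l 952) (T.l 1)))))))))) (T.b (T.l 816) (T.a (T.c (T.b (T.a (T.c (T.b (T.l 816) (T.l 1)) (T.b (T.l 816) (T.l 1))) (T.l 816)) (T.l 1)) (T.b (T.a (T.c (T.b (T.l 816) (T.l 1)) (T.b (T.l 816) (T.l 1))) (T.l 816)) (T.l 1))) (T.c (T.b (T.l 816) (T.c (T.b (T.a (T.a (T.l 1) (T.l 816)) (T.l 816)) (T.a (T.l 1) (T.c (T.b (T.l 816) (T.l 1)) (T.b (T.l 816) (T.l 1))))) (T.b (T.a (T.a (T.l 1) (T.l 816)) (T.l 816)) (T.a (T.l 1) (T.c (T.a (T.l 1) (T.l 952)) (T.a (T.l 1) (T.l 952))))))) (T.b (T.l 816) (T.c (T.b (T.a (T.a (T.l 1) (T.l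 816)) (T.l 816)) (T.a (T.l 1) (T.a (T.l 1) (T.l 952)))) (T.b (T.a (T.a (T.l 1) (T.l 816)) (T.l 816)) (T.a (T.l 1) (T.a (T.l 1) (T.l 952)))))))))) (T.a (T.a (T.c (T.c (T.l 816) (T.l 816)) (T.l 816)) (T.l 816)) (T.l 816))) (T.a (T.l 1) (T.c (T.b (T.c (T.b (T.a (T.a (T.l 1) (T.c (T.b (T.a (T.a (T.l 1) (T.l 816)) (T.l 816)) (T.l 1)) (T.b (T.a (T.a (T.l 1) (T.l 816)) (T.l 816)) (T.l 1)))) (T.a (T.c (T.b (T.l 816) (T.a (T.l 1) (T.l 952))) (T.b (T.l 816) (T.a (T.l 1) (T.l 952)))) (T.l 816))) (T.a (T.l 1) (T.a (T.l 1) (T.a (T.l 1) (T.a (T.l 1) (T.c (T.b (T.a (T.l 1) (T.l 952)) (T.l 1)) (T.b (T.a (T.l 1) (T.l 952)) (T.l 1)))))))) (T.b (T.a (T.c (T.b (T.a (T.l 1) (T.a (T.a (T.l 1) (T.l 816)) (T.l 816))) (T.l 1)) (T.b (T.a (T.l 1) (T.a (T.l 952) (T.l 816))) (T.l 1))) (T.a (T.c (T.b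 (T.l 816) (T.a (T.l 1) (T.l 952))) (T.b (T.l 816) (T.a (T.l 1) (T.l 952)))) (T.l 816))) (T.a (T.l 1) (T.a (T.l 1) (T.a (T.l 1) (T.a (T.l 1) (T.c (T.b (T.a (T.l 1) (T.l 952)) (T.l 1)) (T.b (T.a (T.l 1) (T.l 952)) (T.l 1))))))))) (T.l 1)) (T.b (T.c (T.b (T.a (T.c (T.b (T.a (T.l 1) (T.a (T.l 952) (T.l 816))) (T.l 1)) (T.b (T.a (T.l 1) (T.a (T.l 952) (T.l 816))) (T.l 1))) (T.a (T.c (T.b (T.l 816) (T.a (T.l 1) (T.l 816))) (T.b (T.l 816) (T.a (T.l 1) (T.l 816)))) (T.l 816))) (T.a (T.l 1) (T.a (T.l 1) (T.a (T.l 1) (T.a (T.l 1) (T.c (T.b (T.c (T.l 952) (T.l 952)) (T.l 1)) (T.b (T.l 952) (T.l 1)))))))) (T.b (T.a (T.c (T.b (T.a (T.l 1) (T.a (T.l 952) (T.l 816))) (T.l 1)) (T.b (T.a (T.l 1) (T.a (T.l 816) (T.l 816))) (T.l 1))) (T.a (T.a (T.c (T.b (T.l 816) (T.l 1)) (T.b (T.l 816)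 (T.l 1))) (T.l 816)) (T.l 816))) (T.a (T.l 1) (T.a (T.l 1) (T.a (T.l 1) (T.a (T.l 1) (T.c (T.b (T.l 952) (T.l 1)) (T.b (T.l 952) (T.l 1))))))))) (T.l 1))))) (T.b (T.a (T.c (T.b (T.l 816) (T.a (T.c (T.b (T.a (T.c (T.b (T.l 816) (T.l 1)) (T.b (T.l 816) (T.l 1))) (T.l 816)) (T.l 1)) (T.b (T.a (T.c (T.b (T.l 816) (T.l 1)) (T.b (T.l 816) (T.l 1))) (T.l 816)) (T.l 1))) (T.c (T.b (T.l 816) (T.c (T.b (T.a (T.a (T.l 1) (T.l 816)) (T.l 816)) (T.a (T.l 1) (T.a (T.l 1) (T.l 816)))) (T.b (T.a (T.l 816) (T.l 816)) (T.a (T.l 1) (T.a (T.l 1) (T.l 816)))))) (T.b (T.l 816) (T.c (T.b (T.a (T.l 816) (T.l 816)) (T.a (T.l 1) (T.a (T.l 1) (T.l 816)))) (T.b (T.a (T.l 816) (T.l 816)) (T.a (T.l 1) (T.a (T.l 1) (T.l 816))))))))) (T.b (T.l 816) (T.a (T.c (T.b (T.a (T.c (T.b (T.l 816) (T.l 1)) (T.b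 (T.l 816) (T.l 1))) (T.l 816)) (T.l 1)) (T.b (T.a (T.a (T.l 816) (T.l 816)) (T.l 816)) (T.l 1))) (T.c (T.b (T.l 816) (T.c (T.b (T.l 816) (T.a (T.l 1) (T.a (T.l 1) (T.l 816)))) (T.b (T.l 816) (T.a (T.l 1) (T.a (T.l 1) (T.l 816)))))) (T.b (T.l 816) (T.c (T.b (T.l 816) (T.a (T.l 1) (T.a (T.l 1) (T.l 816)))) (T.b (T.l 816) (T.a (T.l 1) (T.l 816))))))))) (T.a (T.a (T.l 816) (T.l 816)) (T.l 816))) (T.a (T.l 1) (T.c (T.b (T.c (T.b (T.a (T.c (T.b (T.a (T.l 1) (T.l 816)) (T.l 1)) (T.b (T.a (T.l 1) (T.l 816)) (T.l 1))) (T.a (T.a (T.c (T.b (T.l 816) (T.l 1)) (T.b (T.l 816) (T.l 1))) (T.l 816)) (T.l 816))) (T.a (T.l 1) (T.a (T.l 1) (T.a (T.l 1) (T.a (T.l 1) (T.c (T.b (T.l 952) (T.l 1)) (T.b (T.l 816) (T.l 1)))))))) (T.b (T.a (T.c (T.b (T.a (T.l 1) (T.l 816)) (T.l 1)) (T.b (T.a (T.l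 1) (T.l 816)) (T.l 1))) (T.a (T.a (T.c (T.b (T.l 816) (T.l 1)) (T.b (T.l 816) (T.l 1))) (T.l 816)) (T.l 816))) (T.a (T.l 1) (T.a (T.l 1) (T.a (T.l 1) (T.a (T.l 1) (T.c (T.b (T.l 816) (T.l 1)) (T.b (T.l 816) (T.l 1))))))))) (T.l 1)) (T.b (T.c (T.b (T.a (T.c (T.b (T.a (T.l 1) (T.l 816)) (T.l 1)) (T.b (T.a (T.l 1) (T.l 816)) (T.l 1))) (T.a (T.a (T.c (T.b (T.l 816) (T.l 1)) (T.b (T.l 816) (T.l 1))) (T.l 816)) (T.l 816))) (T.a (T.l 1) (T.a (T.l 1) (T.a (T.l 1) (T.c (T.b (T.l 952) (T.l 1)) (T.b (T.l 952) (T.l 1))))))) (T.b (T.a (T.c (T.b (T.a (T.l 1) (T.l 816)) (T.l 1)) (T.b (T.a (T.l 1) (T.l 816)) (T.l 1))) (T.a (T.a (T.l 816) (T.l 816)) (T.l 816))) (T.a (T.l 1) (T.a (T.l 1) (T.a (T.l 1) (T.c (T.b (T.l 816) (T.l 1)) (T.b (T.l 816) (T.l 1)))))))) (T.l 1)))))), by decide +kernel⟩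

def A102E_000_30_386_1 :
    ∃ t, chk3 (onCell 0 33554432 0 1073741824 33554432 16777216 (corTK [[⟨0, 1, 0, 6291456⟩, ⟨1, 0, 1, 16777216⟩, ⟨2, 1, 1, 16777216⟩, ⟨1, 0, 0, 67108864⟩, ⟨1, 1, 0, 1056964608⟩, ⟨2, 1, 0, 67108864⟩, ⟨2, 2, 0, 1056964608⟩]] false 3 c0N cA102E gN0q1 gN0q0 gN0q2 gN1q2 true true)) t 30 386 1 = true :=
  ⟨(T.c (T.b (T.l 816) (T.c (T.b (T.a (T.c (T.b (T.l 816) (T.a (T.c (T.b (T.l 816) (T.l 1)) (T.b (T.l 816) (T.l 1))) (T.c (T.b (T.l 816) (T.c (T.b (T.l 816) (T.a (T.l 1) (T.l 816))) (T.b (T.l 816) (T.a (T.l 1) (T.l 816))))) (T.b (T.l 816) (T.c (T.b (T.l 816) (T.a (T.l 1) (T.l 816))) (T.b (T.l 816) (T.a (T.l 1) (T.l 816)))))))) (T.b (T.l 816) (T.a (T.c (T.b (T.l 816) (T.l 1)) (T.b (T.l 816) (T.l 1))) (T.c (T.b (T.l 816) (T.c (T.b (T.l 816) (T.a (T.l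 1) (T.l 816))) (T.b (T.l 816) (T.a (T.l 1) (T.l 816))))) (T.b (T.l 816) (T.c (T.b (T.l 816) (T.a (T.l 1) (T.l 816))) (T.b (T.l 816) (T.a (T.l 1) (T.l 816))))))))) (T.l 816)) (T.a (T.l 1) (T.c (T.b (T.c (T.b (T.a (T.c (T.b (T.l 952) (T.l 1)) (T.b (T.l 952) (T.l 1))) (T.l 816)) (T.a (T.l 1) (T.a (T.l 1) (T.c (T.b (T.l 816) (T.l 1)) (T.b (T.l 816) (T.l 1)))))) (T.b (T.a (T.c (T.b (T.l 952) (T.l 1)) (T.b (T.l 952) (T.l 1))) (T.l 816)) (T.a (T.l 1) (T.a (T.l 1) (T.c (T.b (T.l 816) (T.l 1)) (T.b (T.l 816) (T.l 1))))))) (T.l 1)) (T.b (T.c (T.b (T.a (T.c (T.b (T.l 952) (T.l 1)) (T.b (T.l 952) (T.l 1))) (T.l 816)) (T.a (T.l 1) (T.a (T.l 1) (T.c (T.b (T.l 816) (T.l 1)) (T.b (T.l 816) (T.l 1)))))) (T.b (T.a (T.c (T.b (T.l 952) (T.l 1)) (T.b (T.l 952) (T.l 1))) (T.l 816)) (T.a (T.l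 1) (T.a (T.l 1) (T.c (T.b (T.l 816) (T.l 1)) (T.b (T.l 816) (T.l 1))))))) (T.l 1))))) (T.b (T.a (T.c (T.b (T.l 816) (T.a (T.c (T.b (T.l 816) (T.l 1)) (T.b (T.l 816) (T.l 1))) (T.a (T.c (T.b (T.l 816) (T.a (T.l 1) (T.l 952))) (T.b (T.l 816) (T.a (T.l 1) (T.l 952)))) (T.l 816)))) (T.b (T.l 816) (T.a (T.c (T.b (T.l 816) (T.l 1)) (T.b (T.l 816) (T.l 1))) (T.a (T.c (T.b (T.l 816) (T.a (T.l 1) (T.l 952))) (T.b (T.l 816) (T.a (T.l 1) (T.l 816)))) (T.l 816))))) (T.l 816)) (T.a (T.l 1) (T.c (T.b (T.c (T.b (T.a (T.c (T.b (T.l 952) (T.l 1)) (T.b (T.l 952) (T.l 1))) (T.l 816)) (T.a (T.l 1) (T.a (T.l 1) (T.c (T.b (T.l 816) (T.l 1)) (T.b (T.l 816) (T.l 1)))))) (T.b (T.a (T.c (T.b (T.l 952) (T.l 1)) (T.b (T.l 952) (T.l 1))) (T.l 816)) (T.a (T.l 1) (T.a (T.l 1) (T.c (T.b (T.l 816) (T.l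 1)) (T.b (T.l 816) (T.l 1))))))) (T.l 1)) (T.b (T.c (T.b (T.a (T.c (T.b (T.l 952) (T.l 1)) (T.b (T.l 952) (T.l 1))) (T.l 816)) (T.a (T.l 1) (T.a (T.l 1) (T.c (T.b (T.l 816) (T.l 1)) (T.b (T.l 816) (T.l 1)))))) (T.b (T.a (T.c (T.b (T.l 952) (T.l 1)) (T.b (T.l 816) (T.l 1))) (T.l 816)) (T.a (T.l 1) (T.a (T.l 1) (T.c (T.b (T.l 816) (T.l 1)) (T.b (T.l 816) (T.l 1))))))) (T.l 1))))))) (T.b (T.l 816) (T.c (T.b (T.a (T.c (T.b (T.l 816) (T.a (T.c (T.b (T.l 816) (T.l 1)) (T.b (T.l 816) (T.l 1))) (T.a (T.c (T.b (T.l 816) (T.a (T.l 1) (T.l 816))) (T.b (T.l 816) (T.a (T.l 1) (T.l 816)))) (T.l 816)))) (T.b (T.l 816) (T.c (T.b (T.l 816) (T.a (T.l 1) (T.a (T.a (T.l 1) (T.l 816)) (T.l 816)))) (T.b (T.l 816) (T.a (T.l 1) (T.a (T.l 952) (T.l 816))))))) (T.l 816)) (T.a (T.l 1) (T.c (T.b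 (T.c (T.b (T.a (T.c (T.b (T.l 816) (T.l 1)) (T.a (T.l 1) (T.l 952))) (T.l 816)) (T.a (T.l 1) (T.a (T.l 1) (T.c (T.b (T.l 816) (T.l 1)) (T.b (T.l 816) (T.l 1)))))) (T.b (T.a (T.a (T.l 1) (T.l 952)) (T.l 816)) (T.a (T.l 1) (T.a (T.l 1) (T.c (T.b (T.l 816) (T.l 1)) (T.b (T.l 816) (T.l 1))))))) (T.l 1)) (T.b (T.c (T.b (T.a (T.a (T.l 1) (T.l 952)) (T.l 816)) (T.a (T.l 1) (T.a (T.l 1) (T.c (T.b (T.l 816) (T.l 1)) (T.b (T.l 816) (T.l 1)))))) (T.b (T.a (T.a (T.l 1) (T.l 952)) (T.l 816)) (T.a (T.l 1) (T.a (T.l 1) (T.c (T.b (T.l 816) (T.l 1)) (T.b (T.l 816) (T.l 1))))))) (T.l 1))))) (T.b (T.a (T.c (T.b (T.l 816) (T.c (T.b (T.l 816) (T.a (T.l 1) (T.a (T.l 952) (T.l 816)))) (T.b (T.l 816) (T.a (T.l 1) (T.a (T.l 816) (T.l 816)))))) (T.b (T.l 816) (T.c (T.a (T.b (T.l 816) (T.l 1)) (T.l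 816)) (T.a (T.b (T.l 816) (T.l 1)) (T.l 816))))) (T.l 816)) (T.a (T.l 1) (T.c (T.b (T.c (T.b (T.a (T.a (T.l 1) (T.l 952)) (T.l 816)) (T.a (T.l 1) (T.a (T.l 1) (T.c (T.b (T.l 816) (T.l 1)) (T.a (T.l 1) (T.l 952)))))) (T.b (T.a (T.a (T.l 1) (T.l 816)) (T.l 816)) (T.a (T.l 1) (T.a (T.l 1) (T.a (T.l 1) (T.l 952)))))) (T.l 1)) (T.b (T.c (T.b (T.a (T.a (T.l 1) (T.l 816)) (T.l 816)) (T.a (T.l 1) (T.a (T.l 1) (T.a (T.l 1) (T.l 952))))) (T.b (T.a (T.a (T.l 1) (T.l 816)) (T.l 816)) (T.a (T.l 1) (T.c (T.b (T.l 952) (T.l 1)) (T.b (T.l 952) (T.l 1)))))) (T.l 1)))))))), by decide +kernel⟩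

def A102E_000_31_386_1 :
    ∃ t, chk3 (onCell 0 33554432 0 1073741824 33554432 16777216 (corTK [[⟨0, 1, 0, 6291456⟩, ⟨1, 0, 1, 16777216⟩, ⟨2, 1, 1, 16777216⟩, ⟨1, 0, 0, 67108864⟩, ⟨1, 1, 0, 1056964608⟩, ⟨2, 1, 0, 67108864⟩, ⟨2, 2, 0, 1056964608⟩]] false 3 c0N cA102E gN0q1 gN0q0 gN0q2 gN1q2 true true)) t 31 386 1 = true :=
  ⟨(T.c (T.b (T.l 816) (T.c (T.b (T.l 816) (T.a (T.c (T.b (T.a (T.c (T.b (T.l 816) (T.l 952)) (T.b (T.l 816) (T.a (T.l 952) (T.l 816)))) (T.l 816)) (T.c (T.b (T.a (T.l 1) (T.c (T.b (T.l 816) (T.a (T.l 1) (T.l 816))) (T.b (T.l 816) (T.a (T.l 1) (T.l 816))))) (T.l 1)) (T.b (T.a (T.l 1) (T.c (T.b (T.l 816) (T.a (T.l 1) (T.l 816))) (T.b (T.l 816) (T.a (T.l 1) (T.l 816))))) (T.l 1)))) (T.b (T.a (T.c (T.b (T.l 816) (T.a (T.l 952) (T.l 816))) (T.b (T.l 816)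 (T.a (T.l 952) (T.l 816)))) (T.l 816)) (T.c (T.b (T.a (T.l 1) (T.c (T.b (T.l 816) (T.a (T.l 1) (T.l 816))) (T.b (T.l 816) (T.a (T.l 1) (T.l 816))))) (T.l 1)) (T.b (T.a (T.l 1) (T.c (T.b (T.l 816) (T.a (T.l 1) (T.l 816))) (T.b (T.l 816) (T.a (T.l 1) (T.l 816))))) (T.l 1))))) (T.c (T.a (T.b (T.l 816) (T.c (T.b (T.l 816) (T.c (T.b (T.l 952) (T.l 1)) (T.b (T.l 952) (T.l 1)))) (T.b (T.l 816) (T.c (T.b (T.a (T.l 1) (T.l 816)) (T.l 1)) (T.b (T.a (T.l 1) (T.l 816)) (T.l 1)))))) (T.l 816)) (T.a (T.b (T.l 816) (T.c (T.b (T.l 816) (T.c (T.b (T.a (T.l 1) (T.l 816)) (T.l 1)) (T.b (T.a (T.l 1) (T.l 816)) (T.l 1)))) (T.b (T.l 816) (T.c (T.b (T.a (T.l 1) (T.l 816)) (T.l 1)) (T.b (T.a (T.l 1) (T.l 816)) (T.l 1)))))) (T.l 816))))) (T.b (T.l 816) (T.a (T.c (T.b (T.a (T.a (T.c (T.b (T.l 816)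 (T.l 952)) (T.b (T.l 816) (T.l 952))) (T.l 816)) (T.l 816)) (T.c (T.b (T.a (T.l 1) (T.c (T.b (T.l 816) (T.a (T.l 1) (T.l 816))) (T.b (T.l 816) (T.a (T.l 1) (T.l 816))))) (T.l 1)) (T.b (T.a (T.l 1) (T.c (T.b (T.l 816) (T.a (T.l 1) (T.l 816))) (T.b (T.l 816) (T.a (T.l 1) (T.l 816))))) (T.l 1)))) (T.b (T.a (T.a (T.c (T.b (T.l 816) (T.l 952)) (T.b (T.l 816) (T.l 952))) (T.l 816)) (T.l 816)) (T.c (T.b (T.a (T.l 1) (T.c (T.b (T.l 816) (T.a (T.l 1) (T.l 816))) (T.b (T.l 816) (T.a (T.l 1) (T.l 816))))) (T.l 1)) (T.b (T.a (T.l 1) (T.c (T.b (T.l 816) (T.a (T.l 1) (T.l 816))) (T.b (T.l 816) (T.a (T.l 1) (T.l 816))))) (T.l 1))))) (T.c (T.a (T.b (T.l 816) (T.c (T.b (T.l 816) (T.c (T.b (T.a (T.l 1) (T.l 816)) (T.l 1)) (T.b (T.a (T.l 1) (T.l 816)) (T.l 1)))) (T.b (T.l 816) (T.c (T.b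 (T.a (T.l 1) (T.l 816)) (T.l 1)) (T.b (T.a (T.l 1) (T.l 816)) (T.l 1)))))) (T.l 816)) (T.b (T.l 816) (T.a (T.c (T.b (T.l 816) (T.c (T.b (T.a (T.l 1) (T.l 816)) (T.l 1)) (T.b (T.a (T.l 1) (T.l 816)) (T.l 1)))) (T.b (T.l 816) (T.c (T.b (T.a (T.l 1) (T.l 816)) (T.l 1)) (T.b (T.a (T.l 1) (T.l 816)) (T.l 1))))) (T.l 816)))))))) (T.b (T.l 816) (T.c (T.b (T.l 816) (T.a (T.c (T.b (T.a (T.a (T.c (T.b (T.l 816) (T.l 952)) (T.b (T.l 816) (T.l 952))) (T.l 816)) (T.l 816)) (T.c (T.b (T.a (T.l 1) (T.c (T.b (T.l 816) (T.a (T.l 1) (T.l 816))) (T.b (T.l 816) (T.a (T.l 1) (T.l 816))))) (T.l 1)) (T.b (T.a (T.l 1) (T.c (T.b (T.l 816) (T.a (T.l 1) (T.l 816))) (T.b (T.l 816) (T.a (T.l 1) (T.l 816))))) (T.l 1)))) (T.b (T.a (T.a (T.c (T.b (T.l 816) (T.l 952)) (T.c (T.l 816) (T.l 816))) (T.l 816))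 (T.l 816)) (T.c (T.b (T.a (T.l 1) (T.c (T.b (T.l 816) (T.a (T.l 1) (T.l 816))) (T.b (T.l 816) (T.a (T.l 1) (T.l 816))))) (T.l 1)) (T.b (T.a (T.l 1) (T.c (T.b (T.l 816) (T.a (T.l 1) (T.l 816))) (T.b (T.l 816) (T.a (T.l 1) (T.l 816))))) (T.l 1))))) (T.c (T.b (T.l 816) (T.a (T.c (T.b (T.l 816) (T.c (T.b (T.a (T.l 1) (T.l 816)) (T.l 1)) (T.b (T.a (T.l 1) (T.l 816)) (T.l 1)))) (T.b (T.l 816) (T.c (T.b (T.a (T.l 1) (T.l 816)) (T.l 1)) (T.b (T.a (T.l 1) (T.l 816)) (T.l 1))))) (T.l 816))) (T.a (T.b (T.l 816) (T.c (T.b (T.l 816) (T.c (T.b (T.a (T.l 1) (T.l 816)) (T.l 1)) (T.b (T.a (T.l 1) (T.l 816)) (T.l 1)))) (T.b (T.l 816) (T.c (T.b (T.a (T.l 1) (T.l 816)) (T.l 1)) (T.b (T.a (T.l 1) (T.l 816)) (T.l 1)))))) (T.l 816))))) (T.b (T.l 816) (T.a (T.c (T.b (T.a (T.a (T.l 816) (T.l 816))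 (T.l 816)) (T.c (T.b (T.a (T.l 1) (T.c (T.b (T.l 816) (T.a (T.l 1) (T.l 816))) (T.b (T.l 816) (T.a (T.l 1) (T.l 816))))) (T.l 1)) (T.b (T.a (T.l 1) (T.c (T.b (T.l 816) (T.a (T.l 1) (T.l 816))) (T.b (T.l 816) (T.a (T.l 1) (T.l 816))))) (T.l 1)))) (T.b (T.a (T.l 816) (T.l 816)) (T.c (T.b (T.a (T.l 1) (T.c (T.a (T.a (T.l 1) (T.l 952)) (T.l 816)) (T.a (T.a (T.l 1) (T.l 952)) (T.l 816)))) (T.l 1)) (T.b (T.a (T.l 1) (T.a (T.a (T.l 1) (T.l 952)) (T.l 816))) (T.l 1))))) (T.c (T.a (T.b (T.l 816) (T.c (T.b (T.l 816) (T.c (T.b (T.l 952) (T.l 1)) (T.b (T.l 952) (T.l 1)))) (T.b (T.l 816) (T.c (T.b (T.l 952) (T.l 1)) (T.b (T.l 952) (T.l 1)))))) (T.l 816)) (T.a (T.b (T.l 816) (T.c (T.b (T.l 816) (T.c (T.b (T.l 952) (T.l 1)) (T.b (T.l 952) (T.l 1)))) (T.b (T.l 816) (T.c (T.b (T.l 952)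 (T.l 1)) (T.b (T.l 952) (T.l 1)))))) (T.l 816)))))))), by decide +kernel⟩

def A102E_000_7_387_1 :
    ∃ t, chk3 (onCell 0 33554432 0 1073741824 33554432 16777216 (corTK [[⟨0, 1, 0, 6291456⟩, ⟨1, 0, 1, 16777216⟩, ⟨2, 1, 1, 16777216⟩, ⟨1, 0, 0, 67108864⟩, ⟨1, 1, 0, 1056964608⟩, ⟨2, 1, 0, 67108864⟩, ⟨2, 2, 0, 1056964608⟩]] false 3 c0N cA102E gN0q1 gN0q0 gN0q2 gN1q2 true true)) t 7 387 1 = true :=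
  ⟨(T.a (T.l 1) (T.a (T.l 1) (T.a (T.l 1) (T.c (T.b (T.a (T.l 1) (T.c (T.b (T.a (T.l 1) (T.c (T.b (T.a (T.l 1) (T.c (T.b (T.c (T.b (T.l 816) (T.l 1)) (T.b (T.l 816) (T.l 1))) (T.l 1)) (T.b (T.c (T.b (T.l 816) (T.l 1)) (T.b (T.l 816) (T.l 1))) (T.l 1)))) (T.l 1)) (T.b (T.a (T.l 1) (T.c (T.b (T.c (T.b (T.l 816) (T.l 1)) (T.b (T.l 816) (T.l 1))) (T.l 1)) (T.b (T.c (T.b (T.l 816) (T.l 1)) (T.b (T.l 816) (T.l 1))) (T.l 1)))) (T.l 1)))) (T.l 1)) (T.b (T.a (T.l 1) (T.c (T.b (T.a (T.l 1) (T.c (T.b (T.c (T.b (T.l 816) (T.l 1)) (T.b (T.l 816) (T.l 1))) (T.l 1)) (T.b (T.c (T.b (T.l 816) (T.l 1)) (T.b (T.l 816) (T.l 1))) (T.l 1)))) (T.l 1)) (T.b (T.a (T.l 1) (T.c (T.b (T.c (T.b (T.l 816) (T.l 1)) (T.b (T.l 816) (T.l 1))) (T.l 1)) (T.b (T.c (T.b (T.l 816) (T.l 1)) (T.b (T.l 816) (T.l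 1))) (T.l 1)))) (T.l 1)))) (T.l 1)))) (T.l 1)) (T.b (T.a (T.l 1) (T.c (T.b (T.a (T.l 1) (T.c (T.b (T.a (T.l 1) (T.c (T.b (T.c (T.b (T.l 816) (T.l 1)) (T.b (T.l 816) (T.l 1))) (T.l 1)) (T.b (T.c (T.b (T.l 816) (T.l 1)) (T.b (T.l 816) (T.l 1))) (T.l 1)))) (T.l 1)) (T.b (T.a (T.l 1) (T.c (T.b (T.c (T.b (T.l 816) (T.l 1)) (T.b (T.l 816) (T.l 1))) (T.l 1)) (T.b (T.c (T.b (T.l 816) (T.l 1)) (T.b (T.l 816) (T.l 1))) (T.l 1)))) (T.l 1)))) (T.l 1)) (T.b (T.a (T.l 1) (T.c (T.b (T.a (T.l 1) (T.c (T.b (T.c (T.b (T.l 816) (T.l 1)) (T.b (T.l 816) (T.l 1))) (T.l 1)) (T.b (T.c (T.b (T.l 816) (T.l 1)) (T.b (T.l 816) (T.l 1))) (T.l 1)))) (T.l 1)) (T.b (T.a (T.l 1) (T.c (T.b (T.c (T.b (T.l 816) (T.l 1)) (T.b (T.l 816) (T.l 1))) (T.l 1)) (T.b (T.c (T.b (T.l 816) (T.l 1)) (T.b (T.l 816) (T.l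 1))) (T.l 1)))) (T.l 1)))) (T.l 1)))) (T.l 1)))))), by decide +kernel⟩

def A102E_000_1_97_1 :
    ∃ t, chk3 (onCell 0 33554432 0 1073741824 33554432 16777216 (corTK [[⟨0, 1, 0, 6291456⟩, ⟨1, 0, 1, 16777216⟩, ⟨2, 1, 1, 16777216⟩, ⟨1, 0, 0, 67108864⟩, ⟨1, 1, 0, 1056964608⟩, ⟨2, 1, 0, 67108864⟩, ⟨2, 2, 0, 1056964608⟩]] false 3 c0N cA102E gN0q1 gN0q0 gN0q2 gN1q2 true true)) t 1 97 1 = true :=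
  ⟨(T.l 1), by decide +kernel⟩

def A102E_000_1_49_1 :
    ∃ t, chk3 (onCell 0 33554432 0 1073741824 33554432 16777216 (corTK [[⟨0, 1, 0, 6291456⟩, ⟨1, 0, 1, 16777216⟩, ⟨2, 1, 1, 16777216⟩, ⟨1, 0, 0, 67108864⟩, ⟨1, 1, 0, 1056964608⟩, ⟨2, 1, 0, 67108864⟩, ⟨2, 2, 0, 1056964608⟩]] false 3 c0N cA102E gN0q1 gN0q0 gN0q2 gN1q2 true true)) t 1 49 1 = true :=
  ⟨(T.l 1), by decide +kernel⟩

def A102E_000_1_25_1 :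
    ∃ t, chk3 (onCell 0 33554432 0 1073741824 33554432 16777216 (corTK [[⟨0, 1, 0, 6291456⟩, ⟨1, 0, 1, 16777216⟩, ⟨2, 1, 1, 16777216⟩, ⟨1, 0, 0, 67108864⟩, ⟨1, 1, 0, 1056964608⟩, ⟨2, 1, 0, 67108864⟩, ⟨2, 2, 0, 1056964608⟩]] false 3 c0N cA102E gN0q1 gN0q0 gN0q2 gN1q2 true true)) t 1 25 1 = true :=
  ⟨(T.l 1), by decide +kernel⟩

def A102E_000_1_13_1 :
    ∃ t, chk3 (onCell 0 33554432 0 1073741824 33554432 16777216 (corTK [[⟨0, 1, 0, 6291456⟩, ⟨1, 0, 1, 16777216⟩, ⟨2, 1, 1, 16777216⟩, ⟨1, 0, 0, 67108864⟩, ⟨1, 1, 0, 1056964608⟩, ⟨2, 1, 0, 67108864⟩, ⟨2, 2, 0, 1056964608⟩]] false 3 c0N cA102E gN0q1 gN0q0 gN0q2 gN1q2 true true)) t 1 13 1 = true :=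
  ⟨(T.l 1), by decide +kernel⟩

def A102E_000_1_7_1 :
    ∃ t, chk3 (onCell 0 33554432 0 1073741824 33554432 16777216 (corTK [[⟨0, 1, 0, 6291456⟩, ⟨1, 0, 1, 16777216⟩, ⟨2, 1, 1, 16777216⟩, ⟨1, 0, 0, 67108864⟩, ⟨1, 1, 0, 1056964608⟩, ⟨2, 1, 0, 67108864⟩, ⟨2, 2, 0, 1056964608⟩]] false 3 c0N cA102E gN0q1 gN0q0 gN0q2 gN1q2 true true)) t 1 7 1 = true :=
  ⟨(T.l 1), by decide +kernel⟩

theorem A102E_000_15_386_1 :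
    ∃ t, chk3 (onCell 0 33554432 0 1073741824 33554432 16777216 (corTK [[⟨0, 1, 0, 6291456⟩, ⟨1, 0, 1, 16777216⟩, ⟨2, 1, 1, 16777216⟩, ⟨1, 0, 0, 67108864⟩, ⟨1, 1, 0, 1056964608⟩, ⟨2, 1, 0, 67108864⟩, ⟨2, 2, 0, 1056964608⟩]] false 3 c0N cA102E gN0q1 gN0q0 gN0q2 gN1q2 true true)) t 15 386 1 = true :=
  ex3_a A102E_000_30_386_1 A102E_000_31_386_1
theorem A102E_000_7_386_1 :
    ∃ t, chk3 (onCell 0 33554432 0 1073741824 33554432 16777216 (corTK [[⟨0, 1, 0, 6291456⟩, ⟨1, 0, 1, 16777216⟩, ⟨2, 1, 1, 16777216⟩, ⟨1, 0, 0, 67108864⟩, ⟨1, 1, 0, 1056964608⟩, ⟨2, 1, 0, 67108864⟩, ⟨2, 2, 0, 1056964608⟩]] false 3 c0N cA102E gN0q1 gN0q0 gN0q2 gN1q2 true true)) t 7 386 1 = true :=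
  ex3_a A102E_000_14_386_1 A102E_000_15_386_1
theorem A102E_000_7_193_1 :
    ∃ t, chk3 (onCell 0 33554432 0 1073741824 33554432 16777216 (corTK [[⟨0, 1, 0, 6291456⟩, ⟨1, 0, 1, 16777216⟩, ⟨2, 1, 1, 16777216⟩, ⟨1, 0, 0, 67108864⟩, ⟨1, 1, 0, 1056964608⟩, ⟨2, 1, 0, 67108864⟩, ⟨2, 2, 0, 1056964608⟩]] false 3 c0N cA102E gN0q1 gN0q0 gN0q2 gN1q2 true true)) t 7 193 1 = true :=
  ex3_b A102E_000_7_386_1 A102E_000_7_387_1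
theorem A102E_000_3_193_1 :
    ∃ t, chk3 (onCell 0 33554432 0 1073741824 33554432 16777216 (corTK [[⟨0, 1, 0, 6291456⟩, ⟨1, 0, 1, 16777216⟩, ⟨2, 1, 1, 16777216⟩, ⟨1, 0, 0, 67108864⟩, ⟨1, 1, 0, 1056964608⟩, ⟨2, 1, 0, 67108864⟩, ⟨2, 2, 0, 1056964608⟩]] false 3 c0N cA102E gN0q1 gN0q0 gN0q2 gN1q2 true true)) t 3 193 1 = true :=
  ex3_a A102E_000_6_193_1 A102E_000_7_193_1
theorem A102E_000_1_193_1 :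
    ∃ t, chk3 (onCell 0 33554432 0 1073741824 33554432 16777216 (corTK [[⟨0, 1, 0, 6291456⟩, ⟨1, 0, 1, 16777216⟩, ⟨2, 1, 1, 16777216⟩, ⟨1, 0, 0, 67108864⟩, ⟨1, 1, 0, 1056964608⟩, ⟨2, 1, 0, 67108864⟩, ⟨2, 2, 0, 1056964608⟩]] false 3 c0N cA102E gN0q1 gN0q0 gN0q2 gN1q2 true true)) t 1 193 1 = true :=
  ex3_a A102E_000_2_193_1 A102E_000_3_193_1
theorem A102E_000_2_384_1 :
    ∃ t, chk3 (onCell 0 33554432 0 1073741824 33554432 16777216 (corTK [[⟨0, 1, 0, 6291456⟩, ⟨1, 0, 1, 16777216⟩, ⟨2, 1, 1, 16777216⟩, ⟨1, 0, 0, 67108864⟩, ⟨1, 1, 0, 1056964608⟩, ⟨2, 1, 0, 67108864⟩, ⟨2, 2, 0, 1056964608⟩]] false 3 c0N cA102E gN0q1 gN0q0 gN0q2 gN1q2 true true)) t 2 384 1 = true :=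
  ex3_a A102E_000_4_384_1 A102E_000_5_384_1
theorem A102E_000_2_192_1 :
    ∃ t, chk3 (onCell 0 33554432 0 1073741824 33554432 16777216 (corTK [[⟨0, 1, 0, 6291456⟩, ⟨1, 0, 1, 16777216⟩, ⟨2, 1, 1, 16777216⟩, ⟨1, 0, 0, 67108864⟩, ⟨1, 1, 0, 1056964608⟩, ⟨2, 1, 0, 67108864⟩, ⟨2, 2, 0, 1056964608⟩]] false 3 c0N cA102E gN0q1 gN0q0 gN0q2 gN1q2 true true)) t 2 192 1 = true :=
  ex3_b A102E_000_2_384_1 A102E_000_2_385_1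
theorem A102E_000_1_192_1 :
    ∃ t, chk3 (onCell 0 33554432 0 1073741824 33554432 16777216 (corTK [[⟨0, 1, 0, 6291456⟩, ⟨1, 0, 1, 16777216⟩, ⟨2, 1, 1, 16777216⟩, ⟨1, 0, 0, 67108864⟩, ⟨1, 1, 0, 1056964608⟩, ⟨2, 1, 0, 67108864⟩, ⟨2, 2, 0, 1056964608⟩]] false 3 c0N cA102E gN0q1 gN0q0 gN0q2 gN1q2 true true)) t 1 192 1 = true :=
  ex3_a A102E_000_2_192_1 A102E_000_3_192_1
theorem A102E_000_1_96_1 :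
    ∃ t, chk3 (onCell 0 33554432 0 1073741824 33554432 16777216 (corTK [[⟨0, 1, 0, 6291456⟩, ⟨1, 0, 1, 16777216⟩, ⟨2, 1, 1, 16777216⟩, ⟨1, 0, 0, 67108864⟩, ⟨1, 1, 0, 1056964608⟩, ⟨2, 1, 0, 67108864⟩, ⟨2, 2, 0, 1056964608⟩]] false 3 c0N cA102E gN0q1 gN0q0 gN0q2 gN1q2 true true)) t 1 96 1 = true :=
  ex3_b A102E_000_1_192_1 A102E_000_1_193_1
theorem A102E_000_1_48_1 :
    ∃ t, chk3 (onCell 0 33554432 0 1073741824 33554432 16777216 (corTK [[⟨0, 1, 0, 6291456⟩, ⟨1, 0, 1, 16777216⟩, ⟨2, 1, 1, 16777216⟩, ⟨1, 0, 0, 67108864⟩, ⟨1, 1, 0, 1056964608⟩, ⟨2, 1, 0, 67108864⟩, ⟨2, 2, 0, 1056964608⟩]] false 3 c0N cA102E gN0q1 gN0q0 gN0q2 gN1q2 true true)) t 1 48 1 = true :=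
  ex3_b A102E_000_1_96_1 A102E_000_1_97_1
theorem A102E_000_1_24_1 :
    ∃ t, chk3 (onCell 0 33554432 0 1073741824 33554432 16777216 (corTK [[⟨0, 1, 0, 6291456⟩, ⟨1, 0, 1, 16777216⟩, ⟨2, 1, 1, 16777216⟩, ⟨1, 0, 0, 67108864⟩, ⟨1, 1, 0, 1056964608⟩, ⟨2, 1, 0, 67108864⟩, ⟨2, 2, 0, 1056964608⟩]] false 3 c0N cA102E gN0q1 gN0q0 gN0q2 gN1q2 true true)) t 1 24 1 = true :=
  ex3_b A102E_000_1_48_1 A102E_000_1_49_1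
theorem A102E_000_1_12_1 :
    ∃ t, chk3 (onCell 0 33554432 0 1073741824 33554432 16777216 (corTK [[⟨0, 1, 0, 6291456⟩, ⟨1, 0, 1, 16777216⟩, ⟨2, 1, 1, 16777216⟩, ⟨1, 0, 0, 67108864⟩, ⟨1, 1, 0, 1056964608⟩, ⟨2, 1, 0, 67108864⟩, ⟨2, 2, 0, 1056964608⟩]] false 3 c0N cA102E gN0q1 gN0q0 gN0q2 gN1q2 true true)) t 1 12 1 = true :=
  ex3_b A102E_000_1_24_1 A102E_000_1_25_1
theorem A102E_000_1_6_1 :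
    ∃ t, chk3 (onCell 0 33554432 0 1073741824 33554432 16777216 (corTK [[⟨0, 1, 0, 6291456⟩, ⟨1, 0, 1, 16777216⟩, ⟨2, 1, 1, 16777216⟩, ⟨1, 0, 0, 67108864⟩, ⟨1, 1, 0, 1056964608⟩, ⟨2, 1, 0, 67108864⟩, ⟨2, 2, 0, 1056964608⟩]] false 3 c0N cA102E gN0q1 gN0q0 gN0q2 gN1q2 true true)) t 1 6 1 = true :=
  ex3_b A102E_000_1_12_1 A102E_000_1_13_1
theorem A102E_000_1_3_1 :
    ∃ t, chk3 (onCell 0 33554432 0 1073741824 33554432 16777216 (corTK [[⟨0, 1, 0, 6291456⟩, ⟨1, 0, 1, 16777216⟩, ⟨2, 1, 1, 16777216⟩, ⟨1, 0, 0, 67108864⟩, ⟨1, 1, 0, 1056964608⟩, ⟨2, 1, 0, 67108864⟩, ⟨2, 2, 0, 1056964608⟩]] false 3 c0N cA102E gN0q1 gN0q0 gN0q2 gN1q2 true true)) t 1 3 1 = true :=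
  ex3_b A102E_000_1_6_1 A102E_000_1_7_1
theorem A102E_000 :
    ∃ t, chk3 (onCell 0 33554432 0 1073741824 33554432 16777216 (corTK [[⟨0, 1, 0, 6291456⟩, ⟨1, 0, 1, 16777216⟩, ⟨2, 1, 1, 16777216⟩, ⟨1, 0, 0, 67108864⟩, ⟨1, 1, 0, 1056964608⟩, ⟨2, 1, 0, 67108864⟩, ⟨2, 2, 0, 1056964608⟩]] false 3 c0N cA102E gN0q1 gN0q0 gN0q2 gN1q2 true true)) t 1 1 1 = true :=
  ex3_b A102E_000_1_2_1 A102E_000_1_3_1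

end Pool.Agent.Strip051.G.I1_32_3_64.Tab.CN
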