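import Pool.Agent.Strip051.G.I1_32_3_64.Gn
import Pool.Agent.Strip051.PB.Corns
import Pool.Agent.Strip051.PB.CornK

/-! # Certificates of the aligned corners (generated) -/

set_option linter.all false

namespace Pool.Agent.Strip051.G.I1_32_3_64.Tab.CN

open Pool.Agent.Strip051.PB

def A202R_003_1_4_1 :
    ∃ t, chk3 (onCell 0 33554432 0 1073741824 33554432 16777216 (corTK [] false 3 c0N cA202R gN0q2 gN0q0 gN3q2 gN4q2 false true)) t 1 4 1 = true :=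
  ⟨(T.l 2), by decide +kernel⟩

def A202R_003_1_20_1 :
    ∃ t, chk3 (onCell 0 33554432 0 1073741824 33554432 16777216 (corTK [] false 3 c0N cA202R gN0q2 gN0q0 gN3q2 gN4q2 false true)) t 1 20 1 = true :=
  ⟨(T.l 2), by decide +kernel⟩

def A202R_003_1_84_1 :
    ∃ t, chk3 (onCell 0 33554432 0 1073741824 33554432 16777216 (corTK [] false 3 c0N cA202R gN0q2 gN0q0 gN3q2 gN4q2 false true)) t 1 84 1 = true :=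
  ⟨(T.l 2), by decide +kernel⟩

def A202R_003_2_340_1 :
    ∃ t, chk3 (onCell 0 33554432 0 1073741824 33554432 16777216 (corTK [] false 3 c0N cA202R gN0q2 gN0q0 gN3q2 gN4q2 false true)) t 2 340 1 = true :=
  ⟨(T.a (T.l 2) (T.c (T.b (T.l 2) (T.c (T.b (T.l 2) (T.a (T.a (T.l 2) (T.a (T.l 2) (T.a (T.l 2) (T.a (T.l 2) (T.c (T.b (T.l 2) (T.a (T.l 2) (T.c (T.b (T.l 2) (T.c (T.b (T.l 2) (T.l 204)) (T.b (T.l 2) (T.l 204)))) (T.b (T.l 2) (T.c (T.b (T.l 2) (T.l 204)) (T.b (T.l 2) (T.l 204))))))) (T.b (T.l 2) (T.a (T.l 2) (T.c (T.b (T.l 2) (T.c (T.b (T.l 2) (T.l 204)) (T.b (T.l 2) (T.l 204)))) (T.b (T.l 2) (T.c (T.b (T.l 2) (T.l 204)) (T.b (T.l 2) (T.l 204)))))))))))) (T.c (T.b (T.l 2) (T.a (T.c (T.b (T.l 2) (T.a (T.c (T.b (T.l 2) (T.l 204)) (T.b (T.l 2) (T.l 204))) (T.l 204))) (T.b (T.l 2) (T.a (T.c (T.b (T.l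 2) (T.l 204)) (T.b (T.l 2) (T.l 204))) (T.l 204)))) (T.a (T.c (T.b (T.c (T.b (T.l 2) (T.l 204)) (T.b (T.l 2) (T.l 204))) (T.l 204)) (T.b (T.c (T.b (T.l 2) (T.l 204)) (T.b (T.l 2) (T.l 204))) (T.l 204))) (T.l 204)))) (T.b (T.l 2) (T.a (T.c (T.b (T.l 2) (T.a (T.c (T.b (T.l 2) (T.l 204)) (T.b (T.l 2) (T.l 204))) (T.l 204))) (T.b (T.l 2) (T.a (T.c (T.b (T.l 2) (T.l 204)) (T.b (T.l 2) (T.l 204))) (T.l 204)))) (T.a (T.c (T.b (T.c (T.b (T.l 2) (T.l 204)) (T.b (T.l 2) (T.l 204))) (T.l 204)) (T.b (T.c (T.b (T.l 2) (T.l 204)) (T.b (T.l 2) (T.l 204))) (T.l 204))) (T.l 204))))))) (T.b (T.l 2) (T.a (T.a (T.l 2) (T.a (T.l 2) (T.a (T.l 2) (T.a (T.l 2) (T.c (T.b (T.l 2) (T.a (T.l 2) (T.c (T.b (T.l 2) (T.c (T.b (T.l 2) (T.l 204)) (T.b (T.l 2) (T.l 204)))) (T.b (T.l 2) (T.c (T.b (T.l 2) (T.l 204)) (T.b (T.l 2) (T.l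 204))))))) (T.b (T.l 2) (T.a (T.l 2) (T.c (T.b (T.l 2) (T.c (T.b (T.l 2) (T.l 204)) (T.b (T.l 2) (T.l 204)))) (T.b (T.l 2) (T.c (T.b (T.l 2) (T.l 204)) (T.b (T.l 2) (T.l 204)))))))))))) (T.c (T.b (T.l 2) (T.a (T.c (T.b (T.l 2) (T.a (T.c (T.b (T.l 2) (T.l 204)) (T.b (T.l 2) (T.l 204))) (T.l 204))) (T.b (T.l 2) (T.a (T.c (T.b (T.l 2) (T.l 204)) (T.b (T.l 2) (T.l 204))) (T.l 204)))) (T.a (T.c (T.b (T.c (T.b (T.l 2) (T.l 204)) (T.b (T.l 2) (T.l 204))) (T.l 204)) (T.b (T.c (T.b (T.l 2) (T.l 204)) (T.b (T.l 2) (T.l 204))) (T.l 204))) (T.l 204)))) (T.b (T.l 2) (T.a (T.c (T.b (T.l 2) (T.a (T.c (T.b (T.l 2) (T.l 204)) (T.b (T.l 2) (T.l 204))) (T.l 204))) (T.b (T.l 2) (T.a (T.c (T.b (T.l 2) (T.l 204)) (T.b (T.l 2) (T.l 204))) (T.l 204)))) (T.a (T.c (T.b (T.c (T.b (T.l 2) (T.l 204)) (T.b (T.l 2) (T.l 204)))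 (T.l 204)) (T.b (T.c (T.b (T.l 2) (T.l 204)) (T.b (T.l 2) (T.l 204))) (T.l 204))) (T.l 204))))))))) (T.b (T.l 2) (T.c (T.b (T.l 2) (T.a (T.a (T.l 2) (T.a (T.l 2) (T.a (T.l 2) (T.a (T.l 2) (T.c (T.b (T.l 2) (T.a (T.l 2) (T.c (T.b (T.l 2) (T.c (T.b (T.l 2) (T.l 204)) (T.b (T.l 2) (T.l 204)))) (T.b (T.l 2) (T.c (T.b (T.l 2) (T.l 204)) (T.b (T.l 2) (T.l 204))))))) (T.b (T.l 2) (T.a (T.l 2) (T.c (T.b (T.l 2) (T.c (T.b (T.l 2) (T.l 204)) (T.b (T.l 2) (T.l 204)))) (T.b (T.l 2) (T.c (T.b (T.l 2) (T.l 204)) (T.b (T.l 2) (T.l 204)))))))))))) (T.c (T.b (T.l 2) (T.a (T.c (T.b (T.l 2) (T.a (T.c (T.b (T.l 2) (T.l 204)) (T.b (T.l 2) (T.l 204))) (T.l 204))) (T.b (T.l 2) (T.a (T.c (T.b (T.l 2) (T.l 204)) (T.b (T.l 2) (T.l 204))) (T.l 204)))) (T.a (T.c (T.b (T.c (T.b (T.l 2) (T.l 204)) (T.b (T.l 2) (T.l 204))) (T.l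 204)) (T.b (T.c (T.b (T.l 2) (T.l 204)) (T.b (T.l 2) (T.l 204))) (T.l 204))) (T.l 204)))) (T.b (T.l 2) (T.a (T.c (T.b (T.l 2) (T.a (T.c (T.b (T.l 2) (T.l 204)) (T.b (T.l 2) (T.l 204))) (T.l 204))) (T.b (T.l 2) (T.a (T.c (T.b (T.l 2) (T.l 204)) (T.b (T.l 2) (T.l 204))) (T.l 204)))) (T.a (T.c (T.b (T.c (T.b (T.l 2) (T.l 204)) (T.b (T.l 2) (T.l 204))) (T.l 204)) (T.b (T.c (T.b (T.l 2) (T.l 204)) (T.b (T.l 2) (T.l 204))) (T.l 204))) (T.l 204))))))) (T.b (T.l 2) (T.a (T.a (T.l 2) (T.a (T.l 2) (T.a (T.l 2) (T.a (T.l 2) (T.c (T.b (T.l 2) (T.a (T.l 2) (T.c (T.b (T.l 2) (T.c (T.b (T.l 2) (T.l 204)) (T.b (T.l 2) (T.l 204)))) (T.b (T.l 2) (T.c (T.b (T.l 2) (T.l 204)) (T.b (T.l 2) (T.l 204))))))) (T.b (T.l 2) (T.a (T.l 2) (T.c (T.b (T.l 2) (T.c (T.b (T.l 2) (T.l 204)) (T.b (T.l 2) (T.l 204)))) (T.b (T.l 2)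 (T.c (T.b (T.l 2) (T.l 204)) (T.b (T.l 2) (T.l 204)))))))))))) (T.c (T.b (T.l 2) (T.a (T.c (T.b (T.l 2) (T.a (T.c (T.b (T.l 2) (T.l 204)) (T.b (T.l 2) (T.l 204))) (T.l 204))) (T.b (T.l 2) (T.a (T.c (T.b (T.l 2) (T.l 204)) (T.b (T.l 2) (T.l 204))) (T.l 204)))) (T.a (T.c (T.a (T.b (T.c (T.b (T.l 2) (T.l 204)) (T.b (T.l 2) (T.l 204))) (T.l 204)) (T.l 204)) (T.a (T.b (T.c (T.b (T.l 2) (T.l 204)) (T.b (T.l 2) (T.l 204))) (T.l 204)) (T.l 204))) (T.l 204)))) (T.b (T.l 2) (T.a (T.c (T.b (T.l 2) (T.a (T.c (T.b (T.l 2) (T.l 204)) (T.b (T.l 2) (T.l 204))) (T.l 204))) (T.b (T.l 2) (T.a (T.c (T.b (T.l 2) (T.l 204)) (T.b (T.l 2) (T.l 204))) (T.l 204)))) (T.a (T.a (T.c (T.b (T.c (T.b (T.l 2) (T.l 204)) (T.b (T.l 2) (T.l 204))) (T.l 204)) (T.b (T.c (T.b (T.l 2) (T.l 204)) (T.b (T.l 2) (T.l 204))) (T.l 204))) (T.l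 204)) (T.l 204))))))))))), by decide +kernel⟩

def A202R_003_3_340_2 :
    ∃ t, chk3 (onCell 0 33554432 0 1073741824 33554432 16777216 (corTK [] false 3 c0N cA202R gN0q2 gN0q0 gN3q2 gN4q2 false true)) t 3 340 2 = true :=
  ⟨(T.b (T.a (T.l 2) (T.a (T.l 2) (T.c (T.b (T.l 2) (T.c (T.b (T.l 2) (T.a (T.a (T.l 2) (T.c (T.b (T.l 2) (T.l 204)) (T.b (T.l 2) (T.l 204)))) (T.c (T.b (T.a (T.l 2) (T.l 204)) (T.l 204)) (T.b (T.a (T.l 2) (T.l 204)) (T.l 204))))) (T.b (T.l 2) (T.a (T.a (T.l 2) (T.c (T.b (T.l 2) (T.l 204)) (T.b (T.l 2) (T.l 204)))) (T.c (T.b (T.a (T.l 2) (T.l 204)) (T.l 204)) (T.b (T.a (T.l 2) (T.l 204)) (T.l 204))))))) (T.b (T.l 2) (T.c (T.b (T.l 2) (T.a (T.a (T.l 2) (T.c (T.b (T.l 2) (T.l 204)) (T.b (T.l 2) (T.l 204)))) (T.c (T.b (T.a (T.l 2) (T.l 204)) (T.l 204)) (T.b (T.a (T.l 2) (T.l 204))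 (T.l 204))))) (T.b (T.l 2) (T.a (T.a (T.l 2) (T.c (T.b (T.l 2) (T.l 204)) (T.b (T.l 2) (T.l 204)))) (T.c (T.b (T.a (T.l 2) (T.l 204)) (T.l 204)) (T.b (T.a (T.l 2) (T.l 204)) (T.l 204)))))))))) (T.a (T.c (T.a (T.b (T.l 2) (T.a (T.c (T.b (T.c (T.b (T.l 2) (T.a (T.c (T.b (T.l 2) (T.l 204)) (T.b (T.l 2) (T.l 204))) (T.l 204))) (T.b (T.l 2) (T.a (T.c (T.b (T.l 2) (T.l 204)) (T.b (T.l 2) (T.l 204))) (T.l 204)))) (T.l 204)) (T.b (T.c (T.b (T.l 2) (T.a (T.c (T.b (T.l 2) (T.l 204)) (T.b (T.l 2) (T.l 204))) (T.l 204))) (T.b (T.l 2) (T.a (T.c (T.b (T.l 2) (T.l 204)) (T.b (T.l 2) (T.l 204))) (T.l 204)))) (T.l 204))) (T.c (T.a (T.b (T.c (T.b (T.c (T.b (T.l 2) (T.l 204)) (T.b (T.l 2) (T.l 204))) (T.l 204)) (T.b (T.c (T.b (T.l 2) (T.l 204)) (T.b (T.l 2) (T.l 204))) (T.l 204))) (T.l 204)) (T.l 204)) (T.a (T.b (T.c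 (T.b (T.c (T.b (T.l 2) (T.l 204)) (T.b (T.l 2) (T.l 204))) (T.l 204)) (T.b (T.c (T.b (T.l 2) (T.l 204)) (T.b (T.l 2) (T.l 204))) (T.l 204))) (T.l 204)) (T.l 204))))) (T.b (T.c (T.b (T.l 2) (T.a (T.c (T.b (T.l 2) (T.a (T.a (T.l 2) (T.c (T.b (T.l 2) (T.l 204)) (T.b (T.l 2) (T.l 204)))) (T.a (T.a (T.l 204) (T.l 204)) (T.l 204)))) (T.b (T.l 2) (T.a (T.a (T.l 2) (T.c (T.b (T.l 2) (T.l 204)) (T.b (T.l 2) (T.l 204)))) (T.a (T.a (T.l 204) (T.l 204)) (T.l 204))))) (T.a (T.c (T.b (T.l 2) (T.l 204)) (T.b (T.l 2) (T.l 204))) (T.a (T.a (T.a (T.c (T.b (T.c (T.b (T.l 2) (T.l 204)) (T.b (T.l 2) (T.l 204))) (T.l 204)) (T.b (T.c (T.b (T.l 2) (T.l 204)) (T.b (T.l 2) (T.l 204))) (T.l 204))) (T.l 204)) (T.l 204)) (T.l 204))))) (T.b (T.l 2) (T.a (T.c (T.b (T.l 2) (T.a (T.a (T.l 2) (T.c (T.b (T.l 2) (T.l 204)) (T.b (T.l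 2) (T.l 204)))) (T.a (T.a (T.l 204) (T.l 204)) (T.l 204)))) (T.b (T.l 2) (T.a (T.c (T.b (T.l 2) (T.a (T.l 2) (T.l 204))) (T.b (T.l 2) (T.a (T.l 2) (T.l 204)))) (T.a (T.l 204) (T.l 204))))) (T.a (T.c (T.b (T.l 2) (T.l 204)) (T.b (T.l 2) (T.l 204))) (T.a (T.a (T.a (T.c (T.b (T.c (T.b (T.l 2) (T.l 204)) (T.b (T.l 2) (T.l 204))) (T.l 204)) (T.b (T.c (T.b (T.l 2) (T.l 204)) (T.a (T.l 2) (T.l 204))) (T.l 204))) (T.l 204)) (T.l 204)) (T.l 204)))))) (T.a (T.l 204) (T.a (T.l 204) (T.l 204))))) (T.b (T.a (T.l 2) (T.c (T.b (T.l 2) (T.a (T.c (T.b (T.l 2) (T.a (T.c (T.b (T.l 2) (T.a (T.l 2) (T.l 204))) (T.b (T.l 2) (T.a (T.l 2) (T.l 204)))) (T.a (T.l 204) (T.l 204)))) (T.b (T.l 2) (T.a (T.c (T.b (T.l 2) (T.a (T.l 2) (T.l 204))) (T.b (T.l 2) (T.a (T.l 2) (T.l 204)))) (T.a (T.l 204) (T.l 204))))) (T.a (T.c (T.b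 (T.l 2) (T.l 204)) (T.b (T.l 2) (T.l 204))) (T.a (T.a (T.a (T.c (T.b (T.a (T.l 2) (T.l 204)) (T.l 204)) (T.b (T.a (T.l 2) (T.l 204)) (T.l 204))) (T.l 204)) (T.l 204)) (T.l 204))))) (T.b (T.l 2) (T.a (T.c (T.b (T.l 2) (T.a (T.c (T.b (T.l 2) (T.a (T.l 2) (T.l 204))) (T.b (T.l 2) (T.a (T.l 2) (T.l 204)))) (T.a (T.l 204) (T.l 204)))) (T.b (T.l 2) (T.a (T.c (T.b (T.l 2) (T.a (T.l 2) (T.l 204))) (T.b (T.l 2) (T.a (T.l 2) (T.l 204)))) (T.a (T.l 204) (T.l 204))))) (T.a (T.c (T.b (T.l 2) (T.l 204)) (T.b (T.l 2) (T.l 204))) (T.a (T.a (T.a (T.c (T.b (T.a (T.l 2) (T.l 204)) (T.l 204)) (T.b (T.a (T.l 2) (T.l 204)) (T.l 204))) (T.l 204)) (T.l 204)) (T.l 204))))))) (T.a (T.a (T.c (T.b (T.c (T.b (T.l 2) (T.a (T.c (T.b (T.l 2) (T.l 204)) (T.b (T.l 2) (T.l 204))) (T.l 204))) (T.b (T.l 2) (T.a (T.c (T.b (T.l 2) (T.l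 204)) (T.b (T.l 2) (T.l 204))) (T.l 204)))) (T.l 204)) (T.b (T.c (T.b (T.l 2) (T.a (T.c (T.b (T.l 2) (T.l 204)) (T.b (T.l 2) (T.l 204))) (T.l 204))) (T.b (T.l 2) (T.a (T.c (T.b (T.l 2) (T.l 204)) (T.b (T.l 2) (T.l 204))) (T.l 204)))) (T.l 204))) (T.a (T.c (T.b (T.c (T.b (T.c (T.b (T.l 2) (T.l 204)) (T.b (T.l 2) (T.l 204))) (T.l 204)) (T.b (T.c (T.b (T.l 2) (T.l 204)) (T.b (T.l 2) (T.l 204))) (T.l 204))) (T.l 204)) (T.b (T.c (T.b (T.c (T.b (T.l 2) (T.l 204)) (T.b (T.l 2) (T.l 204))) (T.l 204)) (T.b (T.c (T.b (T.l 2) (T.l 204)) (T.b (T.l 2) (T.l 204))) (T.l 204))) (T.l 204))) (T.l 204))) (T.a (T.l 204) (T.a (T.l 204) (T.l 204)))))) (T.a (T.a (T.c (T.b (T.c (T.b (T.a (T.l 2) (T.c (T.b (T.l 2) (T.c (T.b (T.l 2) (T.l 204)) (T.b (T.l 2) (T.l 204)))) (T.b (T.l 2) (T.c (T.b (T.l 2) (T.l 204)) (T.b (T.l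 2) (T.l 204)))))) (T.a (T.l 204) (T.l 204))) (T.b (T.a (T.l 2) (T.c (T.b (T.l 2) (T.c (T.b (T.l 2) (T.l 204)) (T.b (T.l 2) (T.l 204)))) (T.b (T.l 2) (T.c (T.b (T.l 2) (T.l 204)) (T.b (T.l 2) (T.l 204)))))) (T.a (T.l 204) (T.l 204)))) (T.l 204)) (T.b (T.c (T.b (T.a (T.l 2) (T.c (T.b (T.l 2) (T.c (T.b (T.l 2) (T.l 204)) (T.b (T.l 2) (T.l 204)))) (T.b (T.l 2) (T.c (T.b (T.l 2) (T.l 204)) (T.b (T.l 2) (T.l 204)))))) (T.a (T.l 204) (T.l 204))) (T.b (T.a (T.l 2) (T.c (T.b (T.l 2) (T.c (T.b (T.l 2) (T.l 204)) (T.b (T.l 2) (T.l 204)))) (T.b (T.l 2) (T.c (T.b (T.l 2) (T.l 204)) (T.b (T.l 2) (T.l 204)))))) (T.a (T.l 204) (T.l 204)))) (T.l 204))) (T.c (T.b (T.c (T.b (T.c (T.b (T.a (T.l 2) (T.a (T.l 204) (T.l 204))) (T.l 204)) (T.b (T.a (T.l 2) (T.a (T.l 204) (T.l 204))) (T.l 204))) (T.l 204)) (T.b (T.c (T.b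 (T.a (T.l 2) (T.a (T.l 204) (T.l 204))) (T.l 204)) (T.b (T.a (T.l 2) (T.a (T.l 204) (T.l 204))) (T.l 204))) (T.l 204))) (T.l 204)) (T.b (T.c (T.b (T.c (T.b (T.a (T.l 2) (T.a (T.l 204) (T.l 204))) (T.l 204)) (T.b (T.a (T.l 2) (T.a (T.l 204) (T.l 204))) (T.l 204))) (T.l 204)) (T.b (T.c (T.b (T.a (T.l 2) (T.a (T.l 204) (T.l 204))) (T.l 204)) (T.b (T.a (T.l 2) (T.a (T.l 204) (T.l 204))) (T.l 204))) (T.l 204))) (T.l 204)))) (T.a (T.a (T.l 204) (T.l 204)) (T.l 204))))), by decide +kernel⟩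

def A202R_003_3_340_3 :
    ∃ t, chk3 (onCell 0 33554432 0 1073741824 33554432 16777216 (corTK [] false 3 c0N cA202R gN0q2 gN0q0 gN3q2 gN4q2 false true)) t 3 340 3 = true :=
  ⟨(T.b (T.a (T.l 2) (T.a (T.l 2) (T.c (T.b (T.l 2) (T.c (T.b (T.l 2) (T.a (T.a (T.l 2) (T.c (T.b (T.l 2) (T.l 204)) (T.b (T.l 2) (T.l 204)))) (T.c (T.b (T.a (T.l 2) (T.l 204)) (T.l 204)) (T.b (T.a (T.l 2) (T.l 204)) (T.l 204))))) (T.b (T.l 2) (T.a (T.a (T.l 2) (T.c (T.b (T.l 2) (T.l 204)) (T.b (T.l 2) (T.l 204)))) (T.c (T.b (T.a (T.l 2) (T.l 204)) (T.l 204)) (T.b (T.a (T.l 2) (T.l 204)) (T.l 204))))))) (T.b (T.l 2) (T.c (T.b (T.l 2) (T.a (T.a (T.l 2) (T.c (T.b (T.l 2) (T.l 204)) (T.b (T.l 2) (T.l 204)))) (T.c (T.b (T.a (T.l 2) (T.l 204)) (T.l 204)) (T.b (T.a (T.l 2) (T.l 204)) (T.l 204))))) (T.b (T.l 2) (T.a (T.a (T.l 2) (T.c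 (T.b (T.l 2) (T.l 204)) (T.b (T.l 2) (T.l 204)))) (T.c (T.b (T.a (T.l 2) (T.l 204)) (T.l 204)) (T.b (T.a (T.l 2) (T.l 204)) (T.l 204)))))))))) (T.a (T.c (T.b (T.a (T.l 2) (T.c (T.b (T.l 2) (T.a (T.c (T.b (T.l 2) (T.a (T.c (T.b (T.l 2) (T.a (T.l 2) (T.l 204))) (T.b (T.l 2) (T.a (T.l 2) (T.l 204)))) (T.a (T.l 204) (T.l 204)))) (T.b (T.l 2) (T.a (T.c (T.b (T.l 2) (T.a (T.l 2) (T.l 204))) (T.b (T.l 2) (T.a (T.l 2) (T.l 204)))) (T.a (T.l 204) (T.l 204))))) (T.a (T.c (T.b (T.l 2) (T.l 204)) (T.b (T.l 2) (T.l 204))) (T.a (T.a (T.a (T.c (T.b (T.a (T.l 2) (T.l 204)) (T.l 204)) (T.b (T.a (T.l 2) (T.l 204)) (T.l 204))) (T.l 204)) (T.l 204)) (T.l 204))))) (T.b (T.l 2) (T.a (T.c (T.b (T.l 2) (T.a (T.c (T.b (T.l 2) (T.a (T.l 2) (T.l 204))) (T.b (T.l 2) (T.a (T.l 2) (T.l 204)))) (T.a (T.l 204) (T.l 204)))) (T.b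 (T.l 2) (T.a (T.c (T.b (T.l 2) (T.a (T.l 2) (T.l 204))) (T.b (T.l 2) (T.a (T.l 2) (T.l 204)))) (T.a (T.l 204) (T.l 204))))) (T.a (T.c (T.b (T.l 2) (T.l 204)) (T.b (T.l 2) (T.l 204))) (T.a (T.a (T.a (T.c (T.b (T.a (T.l 2) (T.l 204)) (T.l 204)) (T.b (T.a (T.l 2) (T.l 204)) (T.l 204))) (T.l 204)) (T.l 204)) (T.l 204))))))) (T.a (T.a (T.c (T.b (T.c (T.b (T.l 2) (T.a (T.c (T.b (T.l 2) (T.l 204)) (T.b (T.l 2) (T.l 204))) (T.l 204))) (T.b (T.l 2) (T.a (T.c (T.b (T.l 2) (T.l 204)) (T.b (T.l 2) (T.l 204))) (T.l 204)))) (T.l 204)) (T.b (T.c (T.b (T.l 2) (T.a (T.c (T.b (T.l 2) (T.l 204)) (T.b (T.l 2) (T.l 204))) (T.l 204))) (T.b (T.l 2) (T.a (T.c (T.b (T.l 2) (T.l 204)) (T.b (T.l 2) (T.l 204))) (T.l 204)))) (T.l 204))) (T.a (T.c (T.b (T.c (T.b (T.c (T.b (T.l 2) (T.l 204)) (T.b (T.l 2) (T.l 204))) (T.l 204))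 (T.b (T.c (T.b (T.l 2) (T.l 204)) (T.b (T.l 2) (T.l 204))) (T.l 204))) (T.l 204)) (T.b (T.c (T.b (T.c (T.b (T.l 2) (T.l 204)) (T.b (T.l 2) (T.l 204))) (T.l 204)) (T.b (T.c (T.b (T.l 2) (T.l 204)) (T.b (T.l 2) (T.l 204))) (T.l 204))) (T.l 204))) (T.l 204))) (T.a (T.l 204) (T.a (T.l 204) (T.l 204))))) (T.b (T.a (T.l 2) (T.c (T.b (T.l 2) (T.a (T.c (T.b (T.l 2) (T.a (T.c (T.b (T.l 2) (T.a (T.l 2) (T.l 204))) (T.b (T.l 2) (T.a (T.l 2) (T.l 204)))) (T.a (T.l 204) (T.l 204)))) (T.b (T.l 2) (T.a (T.c (T.b (T.l 2) (T.a (T.l 2) (T.l 204))) (T.b (T.l 2) (T.a (T.l 2) (T.l 204)))) (T.a (T.l 204) (T.l 204))))) (T.a (T.c (T.b (T.l 2) (T.l 204)) (T.b (T.l 2) (T.l 204))) (T.a (T.a (T.a (T.c (T.b (T.a (T.l 2) (T.l 204)) (T.l 204)) (T.b (T.a (T.l 2) (T.l 204)) (T.l 204))) (T.l 204)) (T.l 204)) (T.l 204))))) (T.b (T.l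 2) (T.a (T.c (T.b (T.l 2) (T.a (T.c (T.b (T.l 2) (T.a (T.l 2) (T.l 204))) (T.b (T.l 2) (T.a (T.l 2) (T.l 204)))) (T.a (T.l 204) (T.l 204)))) (T.b (T.l 2) (T.a (T.c (T.b (T.l 2) (T.a (T.l 2) (T.l 204))) (T.b (T.l 2) (T.a (T.l 2) (T.l 204)))) (T.a (T.l 204) (T.l 204))))) (T.a (T.c (T.b (T.l 2) (T.l 204)) (T.b (T.l 2) (T.l 204))) (T.a (T.a (T.a (T.c (T.b (T.a (T.l 2) (T.l 204)) (T.l 204)) (T.b (T.a (T.l 2) (T.l 204)) (T.l 204))) (T.l 204)) (T.l 204)) (T.l 204))))))) (T.a (T.a (T.c (T.b (T.c (T.b (T.l 2) (T.a (T.c (T.b (T.l 2) (T.l 204)) (T.b (T.l 2) (T.l 204))) (T.l 204))) (T.b (T.l 2) (T.a (T.c (T.b (T.l 2) (T.l 204)) (T.b (T.l 2) (T.l 204))) (T.l 204)))) (T.l 204)) (T.b (T.c (T.b (T.l 2) (T.a (T.c (T.b (T.l 2) (T.l 204)) (T.b (T.l 2) (T.l 204))) (T.l 204))) (T.b (T.l 2) (T.a (T.c (T.b (T.l 2) (T.l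 204)) (T.b (T.l 2) (T.l 204))) (T.l 204)))) (T.l 204))) (T.a (T.c (T.b (T.c (T.b (T.c (T.b (T.l 2) (T.l 204)) (T.b (T.l 2) (T.l 204))) (T.l 204)) (T.b (T.c (T.b (T.l 2) (T.l 204)) (T.b (T.l 2) (T.l 204))) (T.l 204))) (T.l 204)) (T.b (T.c (T.b (T.c (T.b (T.l 2) (T.l 204)) (T.b (T.l 2) (T.l 204))) (T.l 204)) (T.b (T.c (T.b (T.l 2) (T.l 204)) (T.b (T.l 2) (T.l 204))) (T.l 204))) (T.l 204))) (T.l 204))) (T.a (T.l 204) (T.a (T.l 204) (T.l 204)))))) (T.a (T.a (T.c (T.b (T.c (T.b (T.a (T.l 2) (T.c (T.b (T.l 2) (T.c (T.b (T.l 2) (T.l 204)) (T.b (T.l 2) (T.l 204)))) (T.b (T.l 2) (T.c (T.b (T.l 2) (T.l 204)) (T.b (T.l 2) (T.l 204)))))) (T.a (T.l 204) (T.l 204))) (T.b (T.a (T.l 2) (T.c (T.b (T.l 2) (T.c (T.b (T.l 2) (T.l 204)) (T.b (T.l 2) (T.l 204)))) (T.b (T.l 2) (T.c (T.b (T.l 2) (T.l 204)) (T.b (T.l 2)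 (T.l 204)))))) (T.a (T.l 204) (T.l 204)))) (T.l 204)) (T.b (T.c (T.b (T.a (T.l 2) (T.c (T.b (T.l 2) (T.c (T.b (T.l 2) (T.l 204)) (T.b (T.l 2) (T.l 204)))) (T.b (T.l 2) (T.c (T.b (T.l 2) (T.l 204)) (T.b (T.l 2) (T.l 204)))))) (T.a (T.l 204) (T.l 204))) (T.b (T.a (T.l 2) (T.c (T.b (T.l 2) (T.c (T.b (T.l 2) (T.l 204)) (T.b (T.l 2) (T.l 204)))) (T.b (T.l 2) (T.c (T.b (T.l 2) (T.l 204)) (T.b (T.l 2) (T.l 204)))))) (T.a (T.l 204) (T.l 204)))) (T.l 204))) (T.c (T.b (T.c (T.b (T.c (T.b (T.a (T.l 2) (T.a (T.l 204) (T.l 204))) (T.l 204)) (T.b (T.a (T.l 2) (T.a (T.l 204) (T.l 204))) (T.l 204))) (T.l 204)) (T.b (T.c (T.b (T.a (T.l 2) (T.a (T.l 204) (T.l 204))) (T.l 204)) (T.b (T.a (T.l 2) (T.a (T.l 204) (T.l 204))) (T.l 204))) (T.l 204))) (T.l 204)) (T.b (T.c (T.b (T.a (T.c (T.b (T.l 2) (T.l 204)) (T.b (T.l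 2) (T.l 204))) (T.a (T.l 204) (T.l 204))) (T.l 204)) (T.b (T.a (T.c (T.b (T.l 2) (T.l 204)) (T.b (T.l 2) (T.l 204))) (T.a (T.l 204) (T.l 204))) (T.l 204))) (T.l 204)))) (T.a (T.a (T.l 204) (T.l 204)) (T.l 204))))), by decide +kernel⟩

def A202R_003_4_682_4 :
    ∃ t, chk3 (onCell 0 33554432 0 1073741824 33554432 16777216 (corTK [] false 3 c0N cA202R gN0q2 gN0q0 gN3q2 gN4q2 false true)) t 4 682 4 = true :=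
  ⟨(T.b (T.a (T.a (T.l 2) (T.c (T.b (T.l 2) (T.c (T.b (T.l 2) (T.a (T.a (T.l 2) (T.a (T.l 2) (T.a (T.l 2) (T.c (T.b (T.l 2) (T.a (T.l 2) (T.l 204))) (T.b (T.l 2) (T.a (T.l 2) (T.l 204))))))) (T.c (T.b (T.l 2) (T.l 204)) (T.b (T.l 2) (T.l 204))))) (T.b (T.l 2) (T.a (T.a (T.l 2) (T.a (T.l 2) (T.a (T.l 2) (T.c (T.b (T.l 2) (T.a (T.l 2) (T.l 204))) (T.b (T.l 2) (T.a (T.l 2) (T.l 204))))))) (T.c (T.b (T.l 2) (T.l 204)) (T.b (T.l 2) (T.l 204))))))) (T.b (T.l 2) (T.c (T.b (T.l 2) (T.a (T.a (T.l 2) (T.a (T.l 2) (T.a (T.l 2) (T.c (T.b (T.l 2) (T.l 204)) (T.b (T.l 2) (T.l 204)))))) (T.c (T.b (T.l 2) (T.l 204)) (T.b (T.l 2) (T.l 204))))) (T.b (T.l 2) (T.a (T.a (T.l 2) (T.a (T.l 2) (T.a (T.l 2) (T.c (T.b (T.l 2) (T.l 204)) (T.b (T.l 2) (T.l 204)))))) (T.c (T.b (T.l 2) (T.l 204)) (T.b (T.l 2) (T.l 204)))))))))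 (T.c (T.b (T.a (T.l 2) (T.a (T.l 2) (T.c (T.b (T.l 2) (T.c (T.b (T.l 2) (T.a (T.a (T.l 2) (T.l 204)) (T.l 204))) (T.b (T.l 2) (T.a (T.a (T.l 2) (T.l 204)) (T.l 204))))) (T.b (T.l 2) (T.c (T.b (T.l 2) (T.a (T.a (T.l 2) (T.l 204)) (T.l 204))) (T.b (T.l 2) (T.a (T.a (T.l 2) (T.l 204)) (T.l 204)))))))) (T.a (T.c (T.b (T.a (T.l 2) (T.c (T.b (T.l 2) (T.a (T.c (T.b (T.l 2) (T.l 204)) (T.b (T.l 2) (T.l 204))) (T.l 204))) (T.b (T.l 2) (T.a (T.c (T.b (T.l 2) (T.l 204)) (T.b (T.l 2) (T.l 204))) (T.l 204))))) (T.a (T.a (T.a (T.l 204) (T.l 204)) (T.l 204)) (T.l 204))) (T.b (T.a (T.l 2) (T.c (T.b (T.l 2) (T.a (T.c (T.b (T.l 2) (T.l 204)) (T.b (T.l 2) (T.l 204))) (T.l 204))) (T.b (T.l 2) (T.a (T.c (T.b (T.l 2) (T.l 204)) (T.b (T.l 2) (T.l 204))) (T.l 204))))) (T.l 204))) (T.a (T.a (T.a (T.c (T.b (T.c (T.b (T.l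 2) (T.l 204)) (T.b (T.l 2) (T.l 204))) (T.l 204)) (T.b (T.c (T.b (T.l 2) (T.l 204)) (T.b (T.l 2) (T.l 204))) (T.l 204))) (T.l 204)) (T.l 204)) (T.l 204)))) (T.b (T.a (T.l 2) (T.a (T.l 2) (T.c (T.b (T.l 2) (T.c (T.b (T.l 2) (T.a (T.a (T.l 2) (T.l 204)) (T.l 204))) (T.b (T.l 2) (T.a (T.a (T.l 2) (T.l 204)) (T.l 204))))) (T.b (T.l 2) (T.c (T.b (T.l 2) (T.a (T.a (T.l 2) (T.l 204)) (T.l 204))) (T.b (T.l 2) (T.a (T.a (T.l 2) (T.l 204)) (T.l 204)))))))) (T.a (T.c (T.b (T.a (T.l 2) (T.c (T.b (T.l 2) (T.a (T.l 204) (T.l 204))) (T.b (T.l 2) (T.l 204)))) (T.l 204)) (T.b (T.a (T.l 2) (T.c (T.b (T.l 2) (T.l 204)) (T.b (T.l 2) (T.l 204)))) (T.l 204))) (T.a (T.a (T.a (T.c (T.b (T.c (T.b (T.l 2) (T.l 204)) (T.b (T.l 2) (T.l 204))) (T.l 204)) (T.b (T.c (T.b (T.l 2) (T.l 204)) (T.b (T.l 2) (T.l 204))) (T.l 204)))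 (T.l 204)) (T.l 204)) (T.l 204)))))) (T.a (T.a (T.c (T.b (T.c (T.b (T.a (T.a (T.l 2) (T.c (T.b (T.l 2) (T.c (T.b (T.l 2) (T.l 204)) (T.b (T.l 2) (T.l 204)))) (T.b (T.l 2) (T.c (T.b (T.l 2) (T.l 204)) (T.b (T.l 2) (T.l 204)))))) (T.c (T.b (T.a (T.l 2) (T.c (T.b (T.l 2) (T.l 204)) (T.b (T.l 2) (T.l 204)))) (T.l 204)) (T.b (T.a (T.l 2) (T.c (T.b (T.l 2) (T.l 204)) (T.b (T.l 2) (T.l 204)))) (T.l 204)))) (T.l 204)) (T.b (T.a (T.a (T.l 2) (T.c (T.b (T.l 2) (T.c (T.b (T.l 2) (T.l 204)) (T.b (T.l 2) (T.l 204)))) (T.b (T.l 2) (T.c (T.b (T.l 2) (T.l 204)) (T.b (T.l 2) (T.l 204)))))) (T.c (T.b (T.a (T.l 2) (T.c (T.b (T.l 2) (T.l 204)) (T.b (T.l 2) (T.l 204)))) (T.l 204)) (T.b (T.a (T.l 2) (T.c (T.b (T.l 2) (T.l 204)) (T.b (T.l 2) (T.l 204)))) (T.l 204)))) (T.l 204))) (T.l 204)) (T.b (T.c (T.b (T.a (T.a (T.l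 2) (T.c (T.b (T.l 2) (T.c (T.b (T.l 2) (T.l 204)) (T.b (T.l 2) (T.l 204)))) (T.b (T.l 2) (T.c (T.b (T.l 2) (T.l 204)) (T.b (T.l 2) (T.l 204)))))) (T.c (T.b (T.a (T.l 2) (T.c (T.b (T.l 2) (T.l 204)) (T.b (T.l 2) (T.l 204)))) (T.l 204)) (T.b (T.a (T.l 2) (T.c (T.b (T.l 2) (T.l 204)) (T.b (T.l 2) (T.l 204)))) (T.l 204)))) (T.l 204)) (T.b (T.a (T.a (T.l 2) (T.c (T.b (T.l 2) (T.c (T.b (T.l 2) (T.l 204)) (T.b (T.l 2) (T.l 204)))) (T.b (T.l 2) (T.c (T.b (T.l 2) (T.l 204)) (T.b (T.l 2) (T.l 204)))))) (T.c (T.b (T.a (T.l 2) (T.c (T.b (T.l 2) (T.l 204)) (T.b (T.l 2) (T.l 204)))) (T.l 204)) (T.b (T.a (T.l 2) (T.a (T.l 2) (T.l 204))) (T.l 204)))) (T.l 204))) (T.l 204))) (T.l 204)) (T.l 204))), by decide +kernel⟩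

def A202R_003_4_682_5 :
    ∃ t, chk3 (onCell 0 33554432 0 1073741824 33554432 16777216 (corTK [] false 3 c0N cA202R gN0q2 gN0q0 gN3q2 gN4q2 false true)) t 4 682 5 = true :=
  ⟨(T.b (T.a (T.a (T.l 2) (T.c (T.b (T.l 2) (T.c (T.b (T.l 2) (T.a (T.a (T.l 2) (T.a (T.l 2) (T.a (T.l 2) (T.c (T.b (T.l 2) (T.l 204)) (T.b (T.l 2) (T.l 204)))))) (T.c (T.b (T.l 2) (T.l 204)) (T.b (T.l 2) (T.l 204))))) (T.b (T.l 2) (T.a (T.a (T.l 2) (T.a (T.l 2) (T.a (T.l 2) (T.c (T.b (T.l 2) (T.l 204)) (T.b (T.l 2) (T.l 204)))))) (T.c (T.b (T.l 2) (T.l 204)) (T.b (T.l 2) (T.l 204))))))) (T.b (T.l 2) (T.c (T.b (T.l 2) (T.a (T.a (T.l 2) (T.a (T.l 2) (T.c (T.b (T.l 2) (T.l 204)) (T.b (T.l 2) (T.l 204))))) (T.c (T.b (T.l 2) (T.l 204)) (T.b (T.l 2) (T.l 204))))) (T.b (T.l 2) (T.a (T.a (T.l 2) (T.a (T.l 2) (T.c (T.b (T.l 2) (T.l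 204)) (T.b (T.l 2) (T.l 204))))) (T.c (T.b (T.l 2) (T.l 204)) (T.b (T.l 2) (T.l 204))))))))) (T.c (T.b (T.a (T.l 2) (T.a (T.l 2) (T.c (T.b (T.l 2) (T.c (T.b (T.l 2) (T.a (T.a (T.l 2) (T.l 204)) (T.l 204))) (T.b (T.l 2) (T.a (T.a (T.l 2) (T.l 204)) (T.l 204))))) (T.b (T.l 2) (T.c (T.b (T.l 2) (T.a (T.a (T.l 2) (T.l 204)) (T.l 204))) (T.b (T.l 2) (T.a (T.a (T.l 2) (T.l 204)) (T.l 204)))))))) (T.a (T.c (T.b (T.a (T.l 2) (T.c (T.b (T.l 2) (T.l 204)) (T.b (T.l 2) (T.l 204)))) (T.l 204)) (T.b (T.a (T.l 2) (T.c (T.b (T.l 2) (T.l 204)) (T.b (T.l 2) (T.l 204)))) (T.l 204))) (T.a (T.a (T.c (T.a (T.c (T.b (T.b (T.l 2) (T.l 204)) (T.l 204)) (T.l 204)) (T.l 204)) (T.l 204)) (T.l 204)) (T.l 204)))) (T.b (T.a (T.l 2) (T.a (T.l 2) (T.c (T.b (T.l 2) (T.c (T.b (T.l 2) (T.a (T.a (T.l 2) (T.l 204)) (T.l 204))) (T.b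 (T.l 2) (T.a (T.a (T.l 2) (T.l 204)) (T.l 204))))) (T.b (T.l 2) (T.c (T.b (T.l 2) (T.a (T.a (T.l 2) (T.l 204)) (T.l 204))) (T.b (T.l 2) (T.l 204))))))) (T.a (T.c (T.b (T.a (T.l 2) (T.c (T.b (T.l 2) (T.l 204)) (T.b (T.l 2) (T.l 204)))) (T.l 204)) (T.b (T.a (T.l 2) (T.c (T.b (T.l 2) (T.l 204)) (T.b (T.l 2) (T.l 204)))) (T.l 204))) (T.a (T.l 204) (T.l 204)))))) (T.a (T.a (T.c (T.b (T.c (T.b (T.a (T.a (T.l 2) (T.c (T.b (T.l 2) (T.c (T.b (T.l 2) (T.l 204)) (T.b (T.l 2) (T.l 204)))) (T.b (T.l 2) (T.c (T.b (T.l 2) (T.l 204)) (T.b (T.l 2) (T.l 204)))))) (T.c (T.b (T.a (T.l 2) (T.a (T.l 2) (T.l 204))) (T.l 204)) (T.b (T.a (T.l 2) (T.a (T.l 2) (T.l 204))) (T.l 204)))) (T.l 204)) (T.b (T.a (T.a (T.l 2) (T.c (T.b (T.l 2) (T.c (T.b (T.l 2) (T.l 204)) (T.b (T.l 2) (T.l 204)))) (T.b (T.l 2) (T.c (T.b (T.l 2) (T.l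 204)) (T.b (T.l 2) (T.l 204)))))) (T.c (T.b (T.a (T.l 2) (T.a (T.l 2) (T.l 204))) (T.l 204)) (T.b (T.a (T.l 2) (T.a (T.l 2) (T.l 204))) (T.l 204)))) (T.l 204))) (T.l 204)) (T.b (T.c (T.b (T.a (T.a (T.l 2) (T.c (T.b (T.l 2) (T.c (T.b (T.l 2) (T.l 204)) (T.b (T.l 2) (T.l 204)))) (T.b (T.l 2) (T.c (T.b (T.l 2) (T.l 204)) (T.b (T.l 2) (T.l 204)))))) (T.c (T.b (T.a (T.l 2) (T.a (T.l 2) (T.l 204))) (T.l 204)) (T.b (T.a (T.l 2) (T.a (T.l 2) (T.l 204))) (T.l 204)))) (T.l 204)) (T.b (T.a (T.a (T.l 2) (T.c (T.b (T.l 2) (T.c (T.b (T.l 2) (T.l 204)) (T.b (T.l 2) (T.l 204)))) (T.b (T.l 2) (T.c (T.b (T.l 2) (T.l 204)) (T.b (T.l 2) (T.l 204)))))) (T.c (T.b (T.a (T.l 2) (T.a (T.l 2) (T.l 204))) (T.l 204)) (T.b (T.a (T.l 2) (T.a (T.l 2) (T.l 204))) (T.l 204)))) (T.l 204))) (T.l 204))) (T.l 204)) (T.l 204))), by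 decide +kernel⟩

def A202R_003_4_683_2 :
    ∃ t, chk3 (onCell 0 33554432 0 1073741824 33554432 16777216 (corTK [] false 3 c0N cA202R gN0q2 gN0q0 gN3q2 gN4q2 false true)) t 4 683 2 = true :=
  ⟨(T.l 204), by decide +kernel⟩

def A202R_003_4_341_3 :
    ∃ t, chk3 (onCell 0 33554432 0 1073741824 33554432 16777216 (corTK [] false 3 c0N cA202R gN0q2 gN0q0 gN3q2 gN4q2 false true)) t 4 341 3 = true :=
  ⟨(T.b (T.c (T.b (T.a (T.a (T.l 2) (T.c (T.b (T.l 2) (T.c (T.b (T.l 2) (T.a (T.a (T.l 2) (T.a (T.l 2) (T.c (T.b (T.l 2) (T.l 204)) (T.b (T.l 2) (T.l 204))))) (T.c (T.b (T.l 2) (T.l 204)) (T.b (T.l 2) (T.l 204))))) (T.b (T.l 2) (T.a (T.a (T.l 2) (T.a (T.l 2) (T.c (T.b (T.l 2) (T.l 204)) (T.b (T.l 2) (T.l 204))))) (T.c (T.b (T.l 2) (T.l 204)) (T.b (T.l 2) (T.l 204))))))) (T.b (T.l 2) (T.c (T.b (T.l 2) (T.a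 (T.a (T.l 2) (T.a (T.l 2) (T.c (T.b (T.l 2) (T.l 204)) (T.b (T.l 2) (T.l 204))))) (T.c (T.b (T.l 2) (T.l 204)) (T.b (T.l 2) (T.l 204))))) (T.b (T.l 2) (T.a (T.a (T.l 2) (T.a (T.l 2) (T.c (T.b (T.l 2) (T.l 204)) (T.b (T.l 2) (T.l 204))))) (T.c (T.b (T.l 2) (T.l 204)) (T.b (T.l 2) (T.l 204))))))))) (T.c (T.b (T.a (T.l 2) (T.a (T.l 2) (T.c (T.b (T.l 2) (T.c (T.b (T.l 2) (T.l 204)) (T.b (T.l 2) (T.l 204)))) (T.b (T.l 2) (T.c (T.b (T.l 2) (T.l 204)) (T.b (T.l 2) (T.l 204))))))) (T.a (T.c (T.b (T.a (T.l 2) (T.c (T.b (T.l 2) (T.l 204)) (T.b (T.l 2) (T.l 204)))) (T.l 204)) (T.b (T.a (T.l 2) (T.c (T.b (T.l 2) (T.l 204)) (T.b (T.l 2) (T.l 204)))) (T.l 204))) (T.l 204))) (T.b (T.a (T.l 2) (T.a (T.l 2) (T.c (T.b (T.l 2) (T.c (T.b (T.l 2) (T.l 204)) (T.b (T.l 2) (T.l 204)))) (T.b (T.l 2) (T.c (T.b (T.l 2) (T.l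 204)) (T.b (T.l 2) (T.l 204))))))) (T.a (T.c (T.b (T.a (T.l 2) (T.c (T.b (T.l 2) (T.l 204)) (T.b (T.l 2) (T.l 204)))) (T.l 204)) (T.b (T.a (T.l 2) (T.c (T.b (T.l 2) (T.l 204)) (T.b (T.l 2) (T.l 204)))) (T.l 204))) (T.l 204))))) (T.a (T.a (T.c (T.b (T.c (T.b (T.a (T.a (T.l 2) (T.c (T.b (T.l 2) (T.c (T.b (T.l 2) (T.l 204)) (T.b (T.l 2) (T.l 204)))) (T.b (T.l 2) (T.c (T.b (T.l 2) (T.l 204)) (T.b (T.l 2) (T.l 204)))))) (T.c (T.b (T.a (T.l 2) (T.a (T.l 2) (T.l 204))) (T.l 204)) (T.b (T.a (T.l 2) (T.a (T.l 2) (T.l 204))) (T.l 204)))) (T.l 204)) (T.b (T.a (T.a (T.l 2) (T.c (T.b (T.l 2) (T.c (T.b (T.l 2) (T.l 204)) (T.l 204))) (T.b (T.l 2) (T.l 204)))) (T.c (T.b (T.a (T.l 2) (T.a (T.l 2) (T.l 204))) (T.l 204)) (T.b (T.a (T.l 2) (T.a (T.l 2) (T.l 204))) (T.l 204)))) (T.l 204))) (T.l 204)) (T.b (T.c (T.b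 (T.a (T.a (T.l 2) (T.c (T.b (T.l 2) (T.l 204)) (T.b (T.l 2) (T.l 204)))) (T.c (T.b (T.a (T.l 2) (T.a (T.l 2) (T.l 204))) (T.l 204)) (T.b (T.a (T.l 2) (T.a (T.l 2) (T.l 204))) (T.l 204)))) (T.l 204)) (T.b (T.a (T.a (T.l 2) (T.c (T.b (T.l 2) (T.l 204)) (T.b (T.l 2) (T.l 204)))) (T.c (T.b (T.a (T.l 2) (T.a (T.l 2) (T.l 204))) (T.l 204)) (T.b (T.a (T.l 2) (T.a (T.l 2) (T.l 204))) (T.l 204)))) (T.l 204))) (T.l 204))) (T.l 204)) (T.l 204))) (T.b (T.a (T.a (T.l 2) (T.c (T.b (T.l 2) (T.c (T.b (T.l 2) (T.a (T.a (T.l 2) (T.a (T.l 2) (T.c (T.b (T.l 2) (T.l 204)) (T.b (T.l 2) (T.l 204))))) (T.c (T.b (T.l 2) (T.l 204)) (T.b (T.l 2) (T.l 204))))) (T.b (T.l 2) (T.a (T.a (T.l 2) (T.a (T.l 2) (T.c (T.b (T.l 2) (T.l 204)) (T.b (T.l 2) (T.l 204))))) (T.c (T.b (T.l 2) (T.l 204)) (T.b (T.l 2) (T.l 204))))))) (T.b (T.l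 2) (T.c (T.b (T.l 2) (T.a (T.a (T.l 2) (T.a (T.l 2) (T.c (T.b (T.l 2) (T.l 204)) (T.b (T.l 2) (T.l 204))))) (T.c (T.b (T.l 2) (T.l 204)) (T.b (T.l 2) (T.l 204))))) (T.b (T.l 2) (T.a (T.a (T.l 2) (T.a (T.l 2) (T.c (T.b (T.l 2) (T.l 204)) (T.b (T.l 2) (T.l 204))))) (T.c (T.b (T.l 2) (T.l 204)) (T.b (T.l 2) (T.l 204))))))))) (T.c (T.b (T.a (T.l 2) (T.a (T.l 2) (T.c (T.b (T.l 2) (T.c (T.b (T.l 2) (T.l 204)) (T.b (T.l 2) (T.l 204)))) (T.b (T.l 2) (T.c (T.b (T.l 2) (T.l 204)) (T.b (T.l 2) (T.l 204))))))) (T.a (T.c (T.b (T.a (T.l 2) (T.c (T.b (T.l 2) (T.l 204)) (T.b (T.l 2) (T.l 204)))) (T.l 204)) (T.b (T.a (T.l 2) (T.c (T.b (T.l 2) (T.l 204)) (T.b (T.l 2) (T.l 204)))) (T.l 204))) (T.l 204))) (T.b (T.a (T.l 2) (T.a (T.l 2) (T.c (T.b (T.l 2) (T.c (T.b (T.l 2) (T.l 204)) (T.b (T.l 2) (T.l 204)))) (T.b (T.l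 2) (T.c (T.b (T.l 2) (T.l 204)) (T.b (T.l 2) (T.l 204))))))) (T.a (T.c (T.b (T.a (T.l 2) (T.c (T.b (T.l 2) (T.l 204)) (T.b (T.l 2) (T.l 204)))) (T.l 204)) (T.b (T.a (T.l 2) (T.c (T.b (T.l 2) (T.l 204)) (T.b (T.l 2) (T.l 204)))) (T.l 204))) (T.l 204))))) (T.a (T.a (T.c (T.b (T.c (T.b (T.a (T.a (T.l 2) (T.c (T.b (T.l 2) (T.l 204)) (T.b (T.l 2) (T.l 204)))) (T.c (T.b (T.a (T.l 2) (T.a (T.l 2) (T.l 204))) (T.l 204)) (T.b (T.a (T.l 2) (T.l 204)) (T.l 204)))) (T.l 204)) (T.b (T.a (T.a (T.l 2) (T.c (T.b (T.l 2) (T.l 204)) (T.b (T.l 2) (T.l 204)))) (T.c (T.b (T.a (T.l 2) (T.l 204)) (T.l 204)) (T.b (T.a (T.l 2) (T.l 204)) (T.l 204)))) (T.l 204))) (T.l 204)) (T.b (T.c (T.b (T.a (T.a (T.l 2) (T.c (T.b (T.l 2) (T.l 204)) (T.b (T.l 2) (T.l 204)))) (T.c (T.b (T.a (T.l 2) (T.l 204)) (T.l 204)) (T.b (T.a (T.l 2)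 (T.l 204)) (T.l 204)))) (T.l 204)) (T.b (T.a (T.a (T.l 2) (T.c (T.b (T.l 2) (T.l 204)) (T.b (T.l 2) (T.l 204)))) (T.c (T.b (T.a (T.l 2) (T.l 204)) (T.l 204)) (T.b (T.a (T.l 2) (T.l 204)) (T.l 204)))) (T.l 204))) (T.l 204))) (T.l 204)) (T.l 204)))) (T.l 204)), by decide +kernel⟩

def A202R_003_5_341_1 :
    ∃ t, chk3 (onCell 0 33554432 0 1073741824 33554432 16777216 (corTK [] false 3 c0N cA202R gN0q2 gN0q0 gN3q2 gN4q2 false true)) t 5 341 1 = true :=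
  ⟨(T.a (T.a (T.c (T.b (T.c (T.b (T.c (T.b (T.c (T.b (T.a (T.l 2) (T.c (T.b (T.l 2) (T.a (T.l 2) (T.l 204))) (T.b (T.l 2) (T.a (T.l 2) (T.l 204))))) (T.a (T.a (T.c (T.b (T.l 2) (T.l 204)) (T.b (T.l 2) (T.l 204))) (T.l 204)) (T.l 204))) (T.b (T.a (T.l 2) (T.c (T.b (T.l 2) (T.a (T.l 2) (T.l 204))) (T.b (T.l 2) (T.a (T.l 2) (T.l 204))))) (T.a (T.a (T.c (T.b (T.l 2) (T.l 204)) (T.b (T.l 2) (T.l 204))) (T.l 204)) (T.l 204)))) (T.l 204)) (T.b (T.c (T.b (T.a (T.l 2) (T.c (T.b (T.l 2) (T.a (T.l 2) (T.l 204))) (T.b (T.l 2) (T.a (T.l 2) (T.l 204))))) (T.a (T.a (T.c (T.b (T.l 2) (T.l 204)) (T.b (T.l 2) (T.l 204))) (T.l 204)) (T.l 204))) (T.b (T.a (T.l 2) (T.c (T.b (T.l 2) (T.a (T.l 2) (T.l 204))) (T.b (T.l 2) (T.a (T.l 2) (T.l 204))))) (T.a (T.a (T.c (T.b (T.l 2) (T.l 204)) (T.b (T.l 2) (T.l 204))) (T.l 204))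 (T.l 204)))) (T.l 204))) (T.l 204)) (T.b (T.c (T.b (T.c (T.b (T.a (T.l 2) (T.c (T.b (T.l 2) (T.a (T.l 2) (T.l 204))) (T.b (T.l 2) (T.a (T.l 2) (T.l 204))))) (T.a (T.a (T.c (T.b (T.l 2) (T.l 204)) (T.b (T.l 2) (T.l 204))) (T.l 204)) (T.l 204))) (T.b (T.a (T.l 2) (T.c (T.b (T.l 2) (T.a (T.l 2) (T.l 204))) (T.b (T.l 2) (T.a (T.l 2) (T.l 204))))) (T.a (T.a (T.c (T.b (T.l 2) (T.l 204)) (T.b (T.l 2) (T.l 204))) (T.l 204)) (T.l 204)))) (T.l 204)) (T.b (T.c (T.b (T.a (T.l 2) (T.c (T.b (T.l 2) (T.a (T.l 2) (T.l 204))) (T.b (T.l 2) (T.a (T.l 2) (T.l 204))))) (T.a (T.a (T.c (T.b (T.l 2) (T.l 204)) (T.b (T.l 2) (T.l 204))) (T.l 204)) (T.l 204))) (T.b (T.a (T.l 2) (T.c (T.b (T.l 2) (T.a (T.l 2) (T.l 204))) (T.b (T.l 2) (T.a (T.l 2) (T.l 204))))) (T.a (T.a (T.c (T.b (T.l 2) (T.l 204)) (T.b (T.l 2) (T.l 204)))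 (T.l 204)) (T.l 204)))) (T.l 204))) (T.l 204))) (T.l 204)) (T.b (T.c (T.b (T.c (T.b (T.c (T.b (T.a (T.l 2) (T.c (T.b (T.l 2) (T.a (T.l 2) (T.l 204))) (T.b (T.l 2) (T.a (T.l 2) (T.l 204))))) (T.a (T.a (T.c (T.b (T.l 2) (T.l 204)) (T.b (T.l 2) (T.l 204))) (T.l 204)) (T.l 204))) (T.b (T.a (T.l 2) (T.c (T.b (T.l 2) (T.a (T.l 2) (T.l 204))) (T.b (T.l 2) (T.a (T.l 2) (T.l 204))))) (T.a (T.a (T.c (T.b (T.l 2) (T.l 204)) (T.b (T.l 2) (T.l 204))) (T.l 204)) (T.l 204)))) (T.l 204)) (T.b (T.c (T.b (T.a (T.l 2) (T.c (T.b (T.l 2) (T.a (T.l 2) (T.l 204))) (T.b (T.l 2) (T.a (T.l 2) (T.l 204))))) (T.a (T.a (T.c (T.b (T.l 2) (T.l 204)) (T.b (T.l 2) (T.l 204))) (T.l 204)) (T.l 204))) (T.b (T.a (T.l 2) (T.c (T.b (T.l 2) (T.a (T.l 2) (T.l 204))) (T.b (T.l 2) (T.a (T.l 2) (T.l 204))))) (T.a (T.a (T.c (T.b (T.l 2) (T.l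 204)) (T.l 204)) (T.l 204)) (T.l 204)))) (T.l 204))) (T.l 204)) (T.b (T.c (T.b (T.c (T.b (T.a (T.l 2) (T.c (T.b (T.l 2) (T.a (T.l 2) (T.l 204))) (T.b (T.l 2) (T.a (T.l 2) (T.l 204))))) (T.a (T.l 204) (T.l 204))) (T.b (T.a (T.l 2) (T.c (T.b (T.l 2) (T.a (T.l 2) (T.l 204))) (T.b (T.l 2) (T.a (T.l 2) (T.l 204))))) (T.l 204))) (T.l 204)) (T.b (T.c (T.b (T.a (T.l 2) (T.c (T.b (T.l 2) (T.a (T.l 2) (T.l 204))) (T.b (T.l 2) (T.a (T.l 2) (T.l 204))))) (T.l 204)) (T.b (T.a (T.l 2) (T.c (T.b (T.l 2) (T.a (T.l 2) (T.l 204))) (T.b (T.l 2) (T.a (T.l 2) (T.l 204))))) (T.l 204))) (T.l 204))) (T.l 204))) (T.l 204))) (T.c (T.b (T.a (T.c (T.b (T.a (T.c (T.b (T.c (T.b (T.c (T.b (T.l 2) (T.l 204)) (T.b (T.l 2) (T.l 204))) (T.l 204)) (T.b (T.c (T.b (T.l 2) (T.l 204)) (T.b (T.l 2) (T.l 204))) (T.l 204))) (T.l 204)) (T.b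 (T.c (T.b (T.c (T.b (T.l 2) (T.l 204)) (T.b (T.l 2) (T.l 204))) (T.l 204)) (T.b (T.c (T.b (T.l 2) (T.l 204)) (T.b (T.l 2) (T.l 204))) (T.l 204))) (T.l 204))) (T.l 204)) (T.l 204)) (T.b (T.a (T.c (T.b (T.c (T.b (T.c (T.b (T.l 2) (T.l 204)) (T.b (T.l 2) (T.l 204))) (T.l 204)) (T.b (T.c (T.b (T.l 2) (T.l 204)) (T.b (T.l 2) (T.l 204))) (T.l 204))) (T.l 204)) (T.b (T.a (T.c (T.b (T.c (T.b (T.l 2) (T.l 204)) (T.b (T.l 2) (T.l 204))) (T.l 204)) (T.b (T.c (T.b (T.l 2) (T.l 204)) (T.b (T.l 2) (T.l 204))) (T.l 204))) (T.l 204)) (T.l 204))) (T.l 204)) (T.l 204))) (T.l 204)) (T.l 204)) (T.b (T.a (T.c (T.b (T.a (T.c (T.b (T.a (T.c (T.b (T.c (T.b (T.l 2) (T.l 204)) (T.b (T.l 2) (T.l 204))) (T.l 204)) (T.b (T.c (T.b (T.l 2) (T.l 204)) (T.b (T.l 2) (T.l 204))) (T.l 204))) (T.l 204)) (T.l 204)) (T.b (T.a (T.c (T.b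 (T.c (T.b (T.l 2) (T.l 204)) (T.b (T.l 2) (T.l 204))) (T.l 204)) (T.b (T.c (T.b (T.l 2) (T.l 204)) (T.b (T.l 2) (T.l 204))) (T.l 204))) (T.l 204)) (T.l 204))) (T.l 204)) (T.l 204)) (T.b (T.a (T.c (T.b (T.a (T.c (T.b (T.c (T.b (T.l 2) (T.l 204)) (T.b (T.l 2) (T.l 204))) (T.l 204)) (T.b (T.c (T.b (T.l 2) (T.l 204)) (T.b (T.l 2) (T.l 204))) (T.l 204))) (T.l 204)) (T.l 204)) (T.b (T.a (T.c (T.b (T.c (T.b (T.l 2) (T.l 204)) (T.b (T.l 2) (T.l 204))) (T.l 204)) (T.b (T.c (T.b (T.l 2) (T.l 204)) (T.b (T.l 2) (T.l 204))) (T.l 204))) (T.l 204)) (T.l 204))) (T.l 204)) (T.l 204))) (T.l 204)) (T.l 204)))) (T.a (T.c (T.l 204) (T.l 204)) (T.c (T.l 204) (T.l 204)))), by decide +kernel⟩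

def A202R_003_3_341_1 :
    ∃ t, chk3 (onCell 0 33554432 0 1073741824 33554432 16777216 (corTK [] false 3 c0N cA202R gN0q2 gN0q0 gN3q2 gN4q2 false true)) t 3 341 1 = true :=
  ⟨(T.a (T.a (T.a (T.l 204) (T.l 204)) (T.a (T.c (T.l 204) (T.l 204)) (T.a (T.l 204) (T.l 476)))) (T.a (T.a (T.a (T.l 204) (T.l 204)) (T.c (T.l 476) (T.l 476))) (T.a (T.c (T.l 204) (T.l 204)) (T.l 476)))), by decide +kernel⟩

def A202R_003_1_171_1 :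
    ∃ t, chk3 (onCell 0 33554432 0 1073741824 33554432 16777216 (corTK [] false 3 c0N cA202R gN0q2 gN0q0 gN3q2 gN4q2 false true)) t 1 171 1 = true :=
  ⟨(T.b (T.a (T.a (T.a (T.l 204) (T.l 204)) (T.a (T.a (T.l 204) (T.l 476)) (T.a (T.l 204) (T.l 204)))) (T.a (T.a (T.c (T.l 476) (T.l 476)) (T.a (T.l 220) (T.c (T.l 476) (T.l 220)))) (T.a (T.a (T.l 476) (T.l 476)) (T.a (T.l 220) (T.l 204))))) (T.a (T.a (T.l 204) (T.a (T.a (T.l 204) (T.l 204)) (T.c (T.l 476) (T.l 220)))) (T.a (T.a (T.c (T.l 204) (T.l 204)) (T.a (T.l 204) (T.l 476))) (T.a (T.a (T.l 220) (T.l 204)) (T.a (T.l 204) (T.l 204)))))), by decide +kernel⟩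

def A202R_003_1_43_1 :
    ∃ t, chk3 (onCell 0 33554432 0 1073741824 33554432 16777216 (corTK [] false 3 c0N cA202R gN0q2 gN0q0 gN3q2 gN4q2 false true)) t 1 43 1 = true :=
  ⟨(T.a (T.a (T.b (T.a (T.l 204) (T.l 204)) (T.l 0)) (T.a (T.a (T.l 0) (T.b (T.l 272) (T.l 0))) (T.b (T.a (T.l 204) (T.l 204)) (T.l 16)))) (T.a (T.a (T.b (T.a (T.l 204) (T.l 204)) (T.l 16)) (T.a (T.b (T.b (T.l 204) (T.l 0)) (T.b (T.l 0) (T.l 0))) (T.b (T.a (T.l 220) (T.l 16)) (T.b (T.l 0) (T.l 0))))) (T.a (T.a (T.b (T.b (T.l 476) (T.l 0)) (T.l 16)) (T.b (T.b (T.l 220) (T.l 0)) (T.l 0))) (T.b (T.a (T.b (T.l 0) (T.l 0)) (T.b (T.l 0) (T.l 0))) (T.a (T.l 0) (T.l 0)))))), by decide +kernel⟩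

def A202R_003_1_11_1 :
    ∃ t, chk3 (onCell 0 33554432 0 1073741824 33554432 16777216 (corTK [] false 3 c0N cA202R gN0q2 gN0q0 gN3q2 gN4q2 false true)) t 1 11 1 = true :=
  ⟨(T.a (T.a (T.b (T.b (T.l 816) (T.l 816)) (T.b (T.l 816) (T.l 816))) (T.a (T.b (T.l 816) (T.l 816)) (T.b (T.b (T.b (T.l 0) (T.l 0)) (T.b (T.l 816) (T.l 816))) (T.a (T.b (T.l 816) (T.l 816)) (T.b (T.l 816) (T.b (T.l 816) (T.l 816))))))) (T.a (T.a (T.b (T.b (T.a (T.l 0) (T.b (T.l 0) (T.l 816))) (T.a (T.b (T.l 816) (T.l 816)) (T.b (T.l 816) (T.l 816)))) (T.b (T.a (T.b (T.l 816) (T.l 816)) (T.b (T.l 816) (T.l 816))) (T.a (T.b (T.l 816) (T.l 816)) (T.l 820)))) (T.b (T.b (T.a (T.b (T.l 0) (T.l 816)) (T.b (T.l 0) (T.l 816))) (T.a (T.b (T.l 816) (T.l 816)) (T.b (T.l 816) (T.l 816)))) (T.b (T.a (T.l 820) (T.l 820)) (T.a (T.l 820) (T.l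 820))))) (T.b (T.a (T.b (T.a (T.b (T.l 0) (T.l 816)) (T.b (T.l 0) (T.l 816))) (T.a (T.l 820) (T.l 820))) (T.b (T.b (T.b (T.l 4) (T.l 4)) (T.b (T.l 816) (T.l 816))) (T.b (T.l 884) (T.l 820)))) (T.a (T.b (T.b (T.l 884) (T.l 820)) (T.b (T.l 820) (T.l 820))) (T.b (T.b (T.l 820) (T.l 820)) (T.b (T.l 816) (T.l 816))))))), by decide +kernel⟩

def A202R_003_1_3_1 :
    ∃ t, chk3 (onCell 0 33554432 0 1073741824 33554432 16777216 (corTK [] false 3 c0N cA202R gN0q2 gN0q0 gN3q2 gN4q2 false true)) t 1 3 1 = true :=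
  ⟨(T.b (T.b (T.a (T.a (T.b (T.a (T.b (T.l 816) (T.l 816)) (T.l 816)) (T.a (T.b (T.l 816) (T.l 816)) (T.l 816))) (T.a (T.b (T.b (T.l 816) (T.l 820)) (T.b (T.l 820) (T.l 820))) (T.b (T.a (T.b (T.l 816) (T.b (T.l 816) (T.l 816))) (T.b (T.b (T.l 816) (T.l 816)) (T.b (T.l 816) (T.l 816)))) (T.a (T.b (T.b (T.l 816) (T.l 816)) (T.b (T.l 816) (T.l 816))) (T.b (T.l 820) (T.l 820)))))) (T.a (T.a (T.b (T.a (T.b (T.l 820) (T.l 820)) (T.b (T.l 820) (T.l 820))) (T.a (T.b (T.l 820) (T.l 816)) (T.b (T.l 816) (T.l 816)))) (T.b (T.a (T.b (T.l 820) (T.l 816)) (T.b (T.l 816) (T.l 816))) (T.a (T.b (T.l 816) (T.l 816)) (T.b (T.l 816) (T.l 816))))) (T.b (T.a (T.b (T.b (T.l 820) (T.l 820)) (T.b (T.l 816) (T.l 816))) (T.b (T.l 884) (T.l 820))) (T.a (T.b (T.l 820) (T.l 820)) (T.b (T.l 820) (T.l 820)))))) (T.a (T.a (T.b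 (T.a (T.b (T.l 816) (T.l 816)) (T.l 820)) (T.a (T.a (T.b (T.l 816) (T.l 816)) (T.l 816)) (T.l 820))) (T.a (T.a (T.b (T.l 816) (T.l 816)) (T.b (T.a (T.l 816) (T.b (T.l 816) (T.l 816))) (T.b (T.b (T.l 820) (T.l 820)) (T.b (T.l 820) (T.l 820))))) (T.b (T.a (T.a (T.b (T.l 816) (T.l 816)) (T.l 820)) (T.b (T.l 820) (T.l 820))) (T.a (T.b (T.l 820) (T.l 820)) (T.b (T.l 820) (T.l 820)))))) (T.a (T.a (T.b (T.a (T.b (T.l 816) (T.l 816)) (T.b (T.l 816) (T.l 816))) (T.a (T.b (T.l 816) (T.l 816)) (T.b (T.l 816) (T.l 816)))) (T.b (T.a (T.b (T.l 816) (T.l 816)) (T.l 820)) (T.a (T.l 820) (T.l 820)))) (T.a (T.b (T.b (T.l 820) (T.l 820)) (T.b (T.l 820) (T.l 820))) (T.b (T.b (T.l 820) (T.l 816)) (T.b (T.l 816) (T.l 816))))))) (T.b (T.a (T.a (T.a (T.b (T.a (T.b (T.l 816) (T.l 816)) (T.l 816)) (T.a (T.b (T.l 816) (T.b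 (T.l 816) (T.l 816))) (T.l 816))) (T.b (T.l 820) (T.a (T.l 816) (T.b (T.l 816) (T.l 816))))) (T.a (T.a (T.b (T.a (T.l 816) (T.b (T.l 816) (T.l 816))) (T.a (T.b (T.l 816) (T.l 816)) (T.b (T.l 816) (T.l 816)))) (T.b (T.a (T.b (T.l 816) (T.l 816)) (T.b (T.l 816) (T.l 816))) (T.a (T.b (T.l 816) (T.l 816)) (T.b (T.l 816) (T.l 816))))) (T.a (T.b (T.b (T.l 820) (T.l 820)) (T.b (T.l 820) (T.l 820))) (T.b (T.b (T.l 816) (T.l 816)) (T.b (T.l 816) (T.l 816)))))) (T.a (T.a (T.b (T.a (T.b (T.l 816) (T.l 816)) (T.l 820)) (T.a (T.b (T.l 816) (T.l 816)) (T.l 820))) (T.b (T.a (T.l 820) (T.l 820)) (T.a (T.l 820) (T.l 816)))) (T.a (T.b (T.b (T.l 820) (T.l 816)) (T.b (T.l 816) (T.l 816))) (T.b (T.b (T.l 816) (T.l 816)) (T.b (T.l 816) (T.l 816)))))) (T.a (T.a (T.a (T.b (T.b (T.a (T.b (T.l 816) (T.l 816)) (T.l 816))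 (T.a (T.b (T.l 816) (T.l 816)) (T.l 816))) (T.b (T.a (T.b (T.l 880) (T.b (T.l 816) (T.l 816))) (T.l 816)) (T.a (T.c (T.b (T.l 816) (T.l 816)) (T.l 816)) (T.l 816)))) (T.a (T.b (T.l 816) (T.l 816)) (T.a (T.b (T.l 816) (T.l 816)) (T.b (T.l 816) (T.a (T.l 816) (T.l 816)))))) (T.a (T.a (T.b (T.a (T.b (T.l 816) (T.l 816)) (T.b (T.l 816) (T.l 816))) (T.a (T.b (T.l 816) (T.l 816)) (T.b (T.l 816) (T.l 816)))) (T.b (T.a (T.b (T.l 816) (T.l 816)) (T.l 820)) (T.a (T.b (T.l 816) (T.l 816)) (T.l 820)))) (T.a (T.b (T.b (T.l 820) (T.l 820)) (T.b (T.l 820) (T.l 816))) (T.b (T.b (T.l 816) (T.l 816)) (T.b (T.l 816) (T.l 816)))))) (T.a (T.a (T.b (T.a (T.b (T.l 816) (T.l 816)) (T.l 820)) (T.a (T.b (T.l 816) (T.l 816)) (T.l 820))) (T.b (T.a (T.l 816) (T.l 816)) (T.a (T.l 816) (T.l 816)))) (T.a (T.b (T.b (T.l 816) (T.l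 816)) (T.b (T.l 816) (T.l 816))) (T.b (T.b (T.l 816) (T.l 816)) (T.b (T.l 816) (T.l 816)))))))), by decide +kernel⟩

theorem A202R_003_4_682_2 :
    ∃ t, chk3 (onCell 0 33554432 0 1073741824 33554432 16777216 (corTK [] false 3 c0N cA202R gN0q2 gN0q0 gN3q2 gN4q2 false true)) t 4 682 2 = true :=
  ex3_c A202R_003_4_682_4 A202R_003_4_682_5
theorem A202R_003_4_341_2 :
    ∃ t, chk3 (onCell 0 33554432 0 1073741824 33554432 16777216 (corTK [] false 3 c0N cA202R gN0q2 gN0q0 gN3q2 gN4q2 false true)) t 4 341 2 = true :=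
  ex3_b A202R_003_4_682_2 A202R_003_4_683_2
theorem A202R_003_4_341_1 :
    ∃ t, chk3 (onCell 0 33554432 0 1073741824 33554432 16777216 (corTK [] false 3 c0N cA202R gN0q2 gN0q0 gN3q2 gN4q2 false true)) t 4 341 1 = true :=
  ex3_c A202R_003_4_341_2 A202R_003_4_341_3
theorem A202R_003_2_341_1 :
    ∃ t, chk3 (onCell 0 33554432 0 1073741824 33554432 16777216 (corTK [] false 3 c0N cA202R gN0q2 gN0q0 gN3q2 gN4q2 false true)) t 2 341 1 = true :=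
  ex3_a A202R_003_4_341_1 A202R_003_5_341_1
theorem A202R_003_1_341_1 :
    ∃ t, chk3 (onCell 0 33554432 0 1073741824 33554432 16777216 (corTK [] false 3 c0N cA202R gN0q2 gN0q0 gN3q2 gN4q2 false true)) t 1 341 1 = true :=
  ex3_a A202R_003_2_341_1 A202R_003_3_341_1
theorem A202R_003_3_340_1 :
    ∃ t, chk3 (onCell 0 33554432 0 1073741824 33554432 16777216 (corTK [] false 3 c0N cA202R gN0q2 gN0q0 gN3q2 gN4q2 false true)) t 3 340 1 = true :=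
  ex3_c A202R_003_3_340_2 A202R_003_3_340_3
theorem A202R_003_1_340_1 :
    ∃ t, chk3 (onCell 0 33554432 0 1073741824 33554432 16777216 (corTK [] false 3 c0N cA202R gN0q2 gN0q0 gN3q2 gN4q2 false true)) t 1 340 1 = true :=
  ex3_a A202R_003_2_340_1 A202R_003_3_340_1
theorem A202R_003_1_170_1 :
    ∃ t, chk3 (onCell 0 33554432 0 1073741824 33554432 16777216 (corTK [] false 3 c0N cA202R gN0q2 gN0q0 gN3q2 gN4q2 false true)) t 1 170 1 = true :=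
  ex3_b A202R_003_1_340_1 A202R_003_1_341_1
theorem A202R_003_1_85_1 :
    ∃ t, chk3 (onCell 0 33554432 0 1073741824 33554432 16777216 (corTK [] false 3 c0N cA202R gN0q2 gN0q0 gN3q2 gN4q2 false true)) t 1 85 1 = true :=
  ex3_b A202R_003_1_170_1 A202R_003_1_171_1
theorem A202R_003_1_42_1 :
    ∃ t, chk3 (onCell 0 33554432 0 1073741824 33554432 16777216 (corTK [] false 3 c0N cA202R gN0q2 gN0q0 gN3q2 gN4q2 false true)) t 1 42 1 = true :=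
  ex3_b A202R_003_1_84_1 A202R_003_1_85_1
theorem A202R_003_1_21_1 :
    ∃ t, chk3 (onCell 0 33554432 0 1073741824 33554432 16777216 (corTK [] false 3 c0N cA202R gN0q2 gN0q0 gN3q2 gN4q2 false true)) t 1 21 1 = true :=
  ex3_b A202R_003_1_42_1 A202R_003_1_43_1
theorem A202R_003_1_10_1 :
    ∃ t, chk3 (onCell 0 33554432 0 1073741824 33554432 16777216 (corTK [] false 3 c0N cA202R gN0q2 gN0q0 gN3q2 gN4q2 false true)) t 1 10 1 = true :=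
  ex3_b A202R_003_1_20_1 A202R_003_1_21_1
theorem A202R_003_1_5_1 :
    ∃ t, chk3 (onCell 0 33554432 0 1073741824 33554432 16777216 (corTK [] false 3 c0N cA202R gN0q2 gN0q0 gN3q2 gN4q2 false true)) t 1 5 1 = true :=
  ex3_b A202R_003_1_10_1 A202R_003_1_11_1
theorem A202R_003_1_2_1 :
    ∃ t, chk3 (onCell 0 33554432 0 1073741824 33554432 16777216 (corTK [] false 3 c0N cA202R gN0q2 gN0q0 gN3q2 gN4q2 false true)) t 1 2 1 = true :=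
  ex3_b A202R_003_1_4_1 A202R_003_1_5_1
theorem A202R_003 :
    ∃ t, chk3 (onCell 0 33554432 0 1073741824 33554432 16777216 (corTK [] false 3 c0N cA202R gN0q2 gN0q0 gN3q2 gN4q2 false true)) t 1 1 1 = true :=
  ex3_b A202R_003_1_2_1 A202R_003_1_3_1

def A202R_013 :
    ∃ t, chk3 (onCell 0 33554432 0 1073741824 33554432 16777216 (corTK [] false 3 c0N cA202R gN0q2 gN1q0 gN3q2 gN4q2 false true)) t 1 1 1 = true :=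
  ⟨(T.b (T.l 2) (T.b (T.b (T.a (T.a (T.l 816) (T.l 0)) (T.l 0)) (T.a (T.a (T.l 816) (T.l 0)) (T.b (T.l 0) (T.l 0)))) (T.a (T.a (T.a (T.b (T.l 816) (T.b (T.l 816) (T.b (T.l 816) (T.b (T.l 816) (T.a (T.b (T.l 816) (T.l 816)) (T.l 816)))))) (T.a (T.b (T.l 816) (T.b (T.l 816) (T.l 816))) (T.b (T.l 816) (T.b (T.l 816) (T.a (T.l 816) (T.a (T.l 816) (T.l 816))))))) (T.b (T.b (T.l 0) (T.l 4)) (T.a (T.b (T.l 816) (T.b (T.l 816) (T.a (T.a (T.l 816) (T.l 816)) (T.b (T.l 816) (T.l 816))))) (T.b (T.l 816) (T.b (T.l 816) (T.a (T.l 816) (T.l 816))))))) (T.a (T.b (T.l 0) (T.b (T.l 816) (T.a (T.a (T.b (T.l 816) (T.l 816)) (T.l 816)) (T.a (T.l 816) (T.l 816))))) (T.b (T.l 816) (T.b (T.l 816) (T.b (T.l 816) (T.a (T.l 816) (T.l 816))))))))), by decide +kernel⟩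

def A202R_023 :
    ∃ t, chk3 (onCell 0 33554432 0 1073741824 33554432 16777216 (corTK [] false 3 c0N cA202R gN0q2 gN2q0 gN3q2 gN4q2 false true)) t 1 1 1 = true :=
  ⟨(T.b (T.l 2) (T.b (T.b (T.l 2) (T.a (T.a (T.l 816) (T.l 0)) (T.l 0))) (T.a (T.a (T.a (T.b (T.l 816) (T.b (T.l 816) (T.b (T.l 816) (T.b (T.l 816) (T.a (T.b (T.l 816) (T.l 816)) (T.l 816)))))) (T.a (T.b (T.l 816) (T.b (T.l 816) (T.l 816))) (T.b (T.l 816) (T.b (T.l 816) (T.a (T.l 816) (T.a (T.l 816) (T.l 816))))))) (T.b (T.l 0) (T.b (T.b (T.l 0) (T.l 0)) (T.a (T.b (T.l 816) (T.b (T.l 816) (T.a (T.b (T.l 816) (T.l 816)) (T.l 816)))) (T.b (T.l 816) (T.a (T.l 816) (T.l 816))))))) (T.a (T.b (T.l 0) (T.b (T.l 816) (T.b (T.l 816) (T.b (T.l 816) (T.a (T.b (T.l 816) (T.l 816)) (T.l 816)))))) (T.b (T.l 816) (T.b (T.l 816) (T.b (T.l 816) (T.a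 (T.l 816) (T.l 816))))))))), by decide +kernel⟩

def A202R_113 :
    ∃ t, chk3 (onCell 0 33554432 0 1073741824 33554432 16777216 (corTK [] false 3 c0N cA202R gN1q2 gN1q0 gN3q2 gN4q2 false true)) t 1 1 1 = true :=
  ⟨(T.b (T.l 2) (T.b (T.l 2) (T.a (T.a (T.a (T.l 816) (T.a (T.l 816) (T.b (T.l 816) (T.l 816)))) (T.b (T.l 0) (T.a (T.b (T.l 816) (T.l 816)) (T.l 816)))) (T.b (T.l 0) (T.a (T.a (T.l 816) (T.l 816)) (T.b (T.l 816) (T.l 816))))))), by decide +kernel⟩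

def A202R_123 :
    ∃ t, chk3 (onCell 0 33554432 0 1073741824 33554432 16777216 (corTK [] false 3 c0N cA202R gN1q2 gN2q0 gN3q2 gN4q2 false true)) t 1 1 1 = true :=
  ⟨(T.b (T.l 2) (T.b (T.l 2) (T.b (T.a (T.l 2) (T.l 0)) (T.a (T.a (T.a (T.l 816) (T.a (T.l 816) (T.l 816))) (T.b (T.l 0) (T.a (T.l 816) (T.l 816)))) (T.b (T.l 0) (T.a (T.a (T.l 816) (T.l 816)) (T.l 816))))))), by decide +kernel⟩

def A202R_223 :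
    ∃ t, chk3 (onCell 0 33554432 0 1073741824 33554432 16777216 (corTK [] false 3 c0N cA202R gN2q2 gN2q0 gN3q2 gN4q2 false true)) t 1 1 1 = true :=
  ⟨(T.l 2), by decide +kernel⟩

def B011E_000 :
    ∃ t, chk3 (onCell 0 33554432 0 1073741824 33554432 16777216 (corTK [] false 3 c0N cB011E gN0q0 gN0q1 gN0q1 gN1q1 true false)) t 1 1 1 = true :=
  ⟨(T.l 1), by decide +kernel⟩

def B011E_100 :
    ∃ t, chk3 (onCell 0 33554432 0 1073741824 33554432 16777216 (corTK [] false 3 c0N cB011E gN1q0 gN0q1 gN0q1 gN1q1 true false)) t 1 1 1 = true :=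
  ⟨(T.l 1), by decide +kernel⟩

def B011E_200 :
    ∃ t, chk3 (onCell 0 33554432 0 1073741824 33554432 16777216 (corTK [] false 3 c0N cB011E gN2q0 gN0q1 gN0q1 gN1q1 true false)) t 1 1 1 = true :=
  ⟨(T.b (T.b (T.b (T.a (T.b (T.a (T.a (T.l 204) (T.l 204)) (T.l 204)) (T.l 1)) (T.l 204)) (T.l 1)) (T.l 1)) (T.l 1)), by decide +kernel⟩

def B011L_020 :
    ∃ t, chk3 (onCell 0 33554432 0 1073741824 33554432 16777216 (corTK [] false 3 c0N cB011L gN0q0 gN2q1 gN0q1 gN1q1 true false)) t 1 1 1 = true :=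
  ⟨(T.l 1), by decide +kernel⟩

def B011L_030 :
    ∃ t, chk3 (onCell 0 33554432 0 1073741824 33554432 16777216 (corTK [] false 3 c0N cB011L gN0q0 gN3q1 gN0q1 gN1q1 true false)) t 1 1 1 = true :=
  ⟨(T.l 1), by decide +kernel⟩

def B011L_040 :
    ∃ t, chk3 (onCell 0 33554432 0 1073741824 33554432 16777216 (corTK [] false 3 c0N cB011L gN0q0 gN4q1 gN0q1 gN1q1 true false)) t 1 1 1 = true :=
  ⟨(T.l 1), by decide +kernel⟩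

def B011L_120 :
    ∃ t, chk3 (onCell 0 33554432 0 1073741824 33554432 16777216 (corTK [] false 3 c0N cB011L gN1q0 gN2q1 gN0q1 gN1q1 true false)) t 1 1 1 = true :=
  ⟨(T.l 1), by decide +kernel⟩

def B011L_130 :
    ∃ t, chk3 (onCell 0 33554432 0 1073741824 33554432 16777216 (corTK [] false 3 c0N cB011L gN1q0 gN3q1 gN0q1 gN1q1 true false)) t 1 1 1 = true :=
  ⟨(T.l 1), by decide +kernel⟩

def B011L_140 :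
    ∃ t, chk3 (onCell 0 33554432 0 1073741824 33554432 16777216 (corTK [] false 3 c0N cB011L gN1q0 gN4q1 gN0q1 gN1q1 true false)) t 1 1 1 = true :=
  ⟨(T.l 1), by decide +kernel⟩

def B011L_220 :
    ∃ t, chk3 (onCell 0 33554432 0 1073741824 33554432 16777216 (corTK [] false 3 c0N cB011L gN2q0 gN2q1 gN0q1 gN1q1 true false)) t 1 1 1 = true :=
  ⟨(T.l 1), by decide +kernel⟩

def B011L_230 :
    ∃ t, chk3 (onCell 0 33554432 0 1073741824 33554432 16777216 (corTK [] false 3 c0N cB011L gN2q0 gN3q1 gN0q1 gN1q1 true false)) t 1 1 1 = true :=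
  ⟨(T.l 1), by decide +kernel⟩

def B011L_240 :
    ∃ t, chk3 (onCell 0 33554432 0 1073741824 33554432 16777216 (corTK [] false 3 c0N cB011L gN2q0 gN4q1 gN0q1 gN1q1 true false)) t 1 1 1 = true :=
  ⟨(T.l 1), by decide +kernel⟩

def B011R_001 :
    ∃ t, chk3 (onCell 0 33554432 0 1073741824 33554432 16777216 (corTK [[⟨0, 0, 1, 16777216⟩, ⟨1, 1, 2, 16777216⟩, ⟨2, 1, 0, 6291456⟩, ⟨0, 0, 0, 67108864⟩, ⟨0, 1, 0, 1056964608⟩, ⟨1, 0, 0, 1056964608⟩, ⟨1, 1, 0, 67108864⟩]] false 3 c0N cB011R gN0q0 gN0q1 gN1q1 gN2q1 false true)) t 1 1 1 = true :=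
  ⟨(T.b (T.b (T.b (T.b (T.b (T.b (T.b (T.b (T.a (T.c (T.b (T.a (T.a (T.l 204) (T.c (T.a (T.a (T.l 204) (T.l 204)) (T.l 204)) (T.a (T.a (T.l 204) (T.l 204)) (T.l 204)))) (T.c (T.b (T.a (T.c (T.b (T.a (T.a (T.l 204) (T.l 204)) (T.a (T.l 204) (T.l 204))) (T.l 2)) (T.a (T.l 220) (T.a (T.l 204) (T.l 204)))) (T.c (T.b (T.a (T.a (T.l 204) (T.l 204)) (T.a (T.l 476) (T.a (T.l 476) (T.l 476)))) (T.l 2)) (T.b (T.a (T.a (T.l 204) (T.l 204)) (T.a (T.l 476) (T.a (T.l 204) (T.l 476)))) (T.l 2)))) (T.l 2)) (T.b (T.a (T.c (T.a (T.l 204) (T.a (T.l 204) (T.l 204))) (T.a (T.l 204) (T.a (T.l 204) (T.l 204)))) (T.c (T.b (T.a (T.a (T.l 204) (T.l 204)) (T.a (T.l 476) (T.a (T.l 204) (T.l 476)))) (T.l 2)) (T.b (T.a (T.a (T.l 204) (T.l 204)) (T.a (T.l 204) (T.a (T.l 204) (T.l 476)))) (T.l 2)))) (T.l 2)))) (T.l 2)) (T.b (T.a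 (T.a (T.l 204) (T.a (T.a (T.l 204) (T.l 204)) (T.l 204))) (T.c (T.b (T.a (T.a (T.l 204) (T.a (T.l 204) (T.l 204))) (T.c (T.b (T.a (T.a (T.l 204) (T.l 204)) (T.a (T.l 204) (T.a (T.l 204) (T.l 476)))) (T.l 2)) (T.b (T.a (T.a (T.l 204) (T.l 204)) (T.a (T.l 204) (T.a (T.l 204) (T.l 204)))) (T.l 2)))) (T.l 2)) (T.b (T.a (T.a (T.l 204) (T.a (T.l 204) (T.l 204))) (T.c (T.b (T.a (T.a (T.l 204) (T.l 204)) (T.a (T.l 204) (T.l 476))) (T.l 2)) (T.b (T.a (T.a (T.l 204) (T.l 204)) (T.a (T.l 204) (T.l 476))) (T.l 2)))) (T.l 2)))) (T.l 2))) (T.c (T.b (T.a (T.c (T.b (T.a (T.c (T.b (T.a (T.c (T.b (T.a (T.a (T.l 476) (T.l 476)) (T.a (T.l 476) (T.l 1024))) (T.l 2)) (T.b (T.a (T.a (T.l 476) (T.l 476)) (T.a (T.l 476) (T.l 476))) (T.l 2))) (T.a (T.a (T.l 476) (T.l 1024)) (T.l 1024))) (T.l 2)) (T.b (T.a (T.c (T.b (T.a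 (T.a (T.l 476) (T.l 476)) (T.a (T.l 476) (T.l 476))) (T.l 2)) (T.b (T.a (T.a (T.l 476) (T.l 476)) (T.a (T.l 476) (T.l 476))) (T.l 2))) (T.c (T.b (T.a (T.a (T.l 476) (T.l 476)) (T.a (T.l 476) (T.l 1024))) (T.l 2)) (T.b (T.a (T.a (T.l 476) (T.l 476)) (T.a (T.l 476) (T.l 476))) (T.l 2)))) (T.l 2))) (T.a (T.a (T.c (T.l 1024) (T.a (T.l 476) (T.l 1024))) (T.l 1024)) (T.l 1024))) (T.l 2)) (T.b (T.a (T.c (T.b (T.a (T.c (T.b (T.a (T.a (T.l 476) (T.l 476)) (T.a (T.l 476) (T.l 476))) (T.l 2)) (T.b (T.a (T.a (T.l 476) (T.l 476)) (T.a (T.l 476) (T.l 476))) (T.l 2))) (T.c (T.b (T.a (T.a (T.l 476) (T.l 476)) (T.a (T.l 476) (T.l 476))) (T.l 2)) (T.b (T.a (T.a (T.l 476) (T.l 476)) (T.a (T.l 476) (T.l 476))) (T.l 2)))) (T.l 2)) (T.b (T.a (T.c (T.a (T.a (T.l 476) (T.l 476)) (T.l 476)) (T.a (T.l 476) (T.l 476))) (T.c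 (T.a (T.l 476) (T.l 476)) (T.a (T.l 476) (T.l 476)))) (T.l 2))) (T.c (T.b (T.a (T.c (T.b (T.a (T.a (T.l 476) (T.l 476)) (T.a (T.l 476) (T.l 1024))) (T.l 2)) (T.b (T.a (T.a (T.l 476) (T.l 476)) (T.a (T.l 476) (T.l 476))) (T.l 2))) (T.a (T.a (T.l 476) (T.l 1024)) (T.l 1024))) (T.l 2)) (T.b (T.a (T.c (T.a (T.l 476) (T.l 476)) (T.a (T.l 476) (T.l 476))) (T.c (T.a (T.l 476) (T.a (T.l 476) (T.l 1024))) (T.a (T.l 476) (T.l 476)))) (T.l 2)))) (T.l 2))) (T.a (T.a (T.c (T.l 1024) (T.a (T.c (T.l 1024) (T.a (T.l 476) (T.l 1024))) (T.l 1024))) (T.l 1024)) (T.l 1024))) (T.l 2)) (T.b (T.a (T.c (T.b (T.a (T.c (T.b (T.a (T.a (T.a (T.l 476) (T.l 476)) (T.l 476)) (T.a (T.l 476) (T.l 476))) (T.l 2)) (T.b (T.a (T.a (T.l 476) (T.l 476)) (T.a (T.l 476) (T.l 476))) (T.l 2))) (T.c (T.b (T.a (T.a (T.l 476) (T.l 476)) (T.a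 (T.l 476) (T.l 476))) (T.l 2)) (T.b (T.a (T.a (T.l 476) (T.l 476)) (T.a (T.l 476) (T.l 476))) (T.l 2)))) (T.l 2)) (T.b (T.a (T.c (T.b (T.a (T.a (T.l 476) (T.l 476)) (T.a (T.l 476) (T.l 476))) (T.l 2)) (T.b (T.a (T.a (T.l 476) (T.l 476)) (T.a (T.l 476) (T.l 476))) (T.l 2))) (T.c (T.b (T.a (T.a (T.l 476) (T.l 476)) (T.a (T.l 476) (T.l 476))) (T.l 2)) (T.b (T.a (T.a (T.l 476) (T.l 476)) (T.a (T.l 476) (T.l 476))) (T.l 2)))) (T.l 2))) (T.c (T.b (T.a (T.c (T.b (T.a (T.c (T.a (T.l 476) (T.l 476)) (T.a (T.l 476) (T.l 476))) (T.a (T.a (T.l 476) (T.l 1024)) (T.l 1024))) (T.l 2)) (T.b (T.a (T.a (T.l 476) (T.l 476)) (T.a (T.l 476) (T.l 476))) (T.l 2))) (T.a (T.a (T.a (T.l 476) (T.l 1024)) (T.l 1024)) (T.l 1024))) (T.l 2)) (T.b (T.a (T.c (T.b (T.a (T.a (T.l 476) (T.l 476)) (T.a (T.l 476) (T.l 476))) (T.l 2))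 (T.b (T.a (T.a (T.l 476) (T.l 476)) (T.a (T.l 476) (T.l 476))) (T.l 2))) (T.c (T.b (T.a (T.a (T.l 476) (T.l 476)) (T.a (T.l 476) (T.l 1024))) (T.l 2)) (T.b (T.a (T.a (T.l 476) (T.l 476)) (T.a (T.l 476) (T.l 476))) (T.l 2)))) (T.l 2)))) (T.l 2)))) (T.l 2)) (T.l 2)) (T.l 2)) (T.l 2)) (T.l 2)) (T.l 2)) (T.l 2)) (T.l 2)), by decide +kernel⟩

end Pool.Agent.Strip051.G.I1_32_3_64.Tab.CN
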