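import Pool.Agent.Strip051.G.I1_32_3_64.Gn
import Pool.Agent.Strip051.PB.Corns
import Pool.Agent.Strip051.PB.CornK

/-! # Certificates of the aligned corners (generated) -/

set_option linter.all false

namespace Pool.Agent.Strip051.G.I1_32_3_64.Tab.CN

open Pool.Agent.Strip051.PB

def B012E_000_1_4_1 :
    ∃ t, chk3 (onCell 0 33554432 0 1073741824 33554432 16777216 (corTK [] false 3 c0N cB012E gN0q0 gN0q2 gN0q1 gN1q1 true false)) t 1 4 1 = true :=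
  ⟨(T.l 1), by decide +kernel⟩

def B012E_000_1_10_1 :
    ∃ t, chk3 (onCell 0 33554432 0 1073741824 33554432 16777216 (corTK [] false 3 c0N cB012E gN0q0 gN0q2 gN0q1 gN1q1 true false)) t 1 10 1 = true :=
  ⟨(T.l 1), by decide +kernel⟩

def B012E_000_1_22_1 :
    ∃ t, chk3 (onCell 0 33554432 0 1073741824 33554432 16777216 (corTK [] false 3 c0N cB012E gN0q0 gN0q2 gN0q1 gN1q1 true false)) t 1 22 1 = true :=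
  ⟨(T.l 1), by decide +kernel⟩

def B012E_000_1_46_1 :
    ∃ t, chk3 (onCell 0 33554432 0 1073741824 33554432 16777216 (corTK [] false 3 c0N cB012E gN0q0 gN0q2 gN0q1 gN1q1 true false)) t 1 46 1 = true :=
  ⟨(T.l 1), by decide +kernel⟩

def B012E_000_1_94_1 :
    ∃ t, chk3 (onCell 0 33554432 0 1073741824 33554432 16777216 (corTK [] false 3 c0N cB012E gN0q0 gN0q2 gN0q1 gN1q1 true false)) t 1 94 1 = true :=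
  ⟨(T.l 1), by decide +kernel⟩

def B012E_000_2_190_1 :
    ∃ t, chk3 (onCell 0 33554432 0 1073741824 33554432 16777216 (corTK [] false 3 c0N cB012E gN0q0 gN0q2 gN0q1 gN1q1 true false)) t 2 190 1 = true :=
  ⟨(T.l 1), by decide +kernel⟩

def B012E_000_6_190_1 :
    ∃ t, chk3 (onCell 0 33554432 0 1073741824 33554432 16777216 (corTK [] false 3 c0N cB012E gN0q0 gN0q2 gN0q1 gN1q1 true false)) t 6 190 1 = true :=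
  ⟨(T.a (T.l 1) (T.b (T.l 1) (T.c (T.b (T.l 1) (T.c (T.b (T.a (T.l 1) (T.a (T.l 1) (T.a (T.l 1) (T.a (T.l 1) (T.c (T.b (T.l 1) (T.a (T.l 1) (T.c (T.b (T.l 1) (T.l 204)) (T.b (T.l 1) (T.l 204))))) (T.b (T.l 1) (T.c (T.b (T.l 1) (T.l 748)) (T.b (T.l 1) (T.l 204))))))))) (T.a (T.a (T.l 1) (T.c (T.b (T.l 1) (T.c (T.b (T.a (T.l 1) (T.a (T.l 1) (T.l 204))) (T.a (T.a (T.l 1) (T.l 204)) (T.l 204))) (T.b (T.a (T.l 1) (T.a (T.l 1) (T.l 204))) (T.a (T.l 204) (T.l 204))))) (T.b (T.l 1) (T.c (T.b (T.a (T.l 1) (T.a (T.l 1) (T.l 204))) (T.a (T.l 204) (T.l 204))) (T.b (T.a (T.l 1) (T.a (T.l 1) (T.l 204))) (T.a (T.l 204) (T.l 204))))))) (T.a (T.c (T.b (T.c (T.b (T.l 1) (T.a (T.l 1) (T.l 204))) (T.b (T.l 1) (T.a (T.l 1) (T.l 204)))) (T.l 204)) (T.b (T.c (T.b (T.l 1) (T.a (T.l 1) (T.l 204))) (T.b (T.l 1) (T.a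 (T.l 1) (T.l 204)))) (T.l 204))) (T.a (T.a (T.c (T.b (T.c (T.b (T.l 1) (T.l 204)) (T.b (T.l 1) (T.l 204))) (T.l 204)) (T.b (T.c (T.b (T.l 1) (T.l 204)) (T.b (T.l 1) (T.l 204))) (T.l 204))) (T.l 204)) (T.l 204))))) (T.b (T.a (T.l 1) (T.a (T.l 1) (T.a (T.l 1) (T.a (T.l 1) (T.c (T.b (T.l 1) (T.c (T.b (T.l 1) (T.l 204)) (T.b (T.l 1) (T.l 204)))) (T.b (T.l 1) (T.c (T.b (T.l 1) (T.l 204)) (T.b (T.l 1) (T.l 204))))))))) (T.a (T.a (T.l 1) (T.c (T.b (T.l 1) (T.c (T.b (T.a (T.l 1) (T.a (T.l 1) (T.l 204))) (T.l 204)) (T.b (T.a (T.l 1) (T.a (T.l 1) (T.l 204))) (T.l 204)))) (T.b (T.l 1) (T.c (T.b (T.a (T.l 1) (T.l 204)) (T.l 204)) (T.b (T.a (T.l 1) (T.l 204)) (T.l 204)))))) (T.a (T.c (T.b (T.c (T.b (T.l 1) (T.a (T.l 1) (T.l 204))) (T.b (T.l 1) (T.a (T.l 1) (T.l 204)))) (T.l 204)) (T.b (T.c (T.b (T.l 1) (T.a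 (T.l 1) (T.l 204))) (T.b (T.l 1) (T.a (T.l 1) (T.l 204)))) (T.l 204))) (T.a (T.c (T.a (T.c (T.a (T.l 204) (T.l 204)) (T.l 204)) (T.l 204)) (T.l 204)) (T.l 204))))))) (T.b (T.l 1) (T.c (T.b (T.a (T.l 1) (T.a (T.l 1) (T.a (T.l 1) (T.a (T.l 1) (T.c (T.b (T.l 1) (T.c (T.b (T.l 1) (T.l 204)) (T.b (T.l 1) (T.l 204)))) (T.b (T.l 1) (T.c (T.b (T.l 1) (T.l 204)) (T.b (T.l 1) (T.l 204))))))))) (T.a (T.a (T.l 1) (T.c (T.b (T.l 1) (T.c (T.b (T.a (T.l 1) (T.l 204)) (T.l 204)) (T.b (T.a (T.l 1) (T.l 204)) (T.l 204)))) (T.b (T.l 1) (T.c (T.b (T.a (T.l 1) (T.l 204)) (T.l 204)) (T.b (T.a (T.l 1) (T.l 204)) (T.l 204)))))) (T.a (T.c (T.b (T.c (T.b (T.l 1) (T.a (T.l 1) (T.l 204))) (T.b (T.l 1) (T.a (T.l 1) (T.l 204)))) (T.l 204)) (T.b (T.c (T.b (T.l 1) (T.a (T.l 1) (T.l 204))) (T.b (T.l 1) (T.a (T.l 1) (T.l 204))))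 (T.l 204))) (T.a (T.l 204) (T.l 204))))) (T.b (T.a (T.l 1) (T.a (T.l 1) (T.a (T.l 1) (T.a (T.l 1) (T.c (T.b (T.l 1) (T.c (T.b (T.l 1) (T.l 204)) (T.b (T.l 1) (T.l 204)))) (T.b (T.l 1) (T.c (T.b (T.l 1) (T.l 204)) (T.b (T.l 1) (T.l 204))))))))) (T.a (T.a (T.l 1) (T.c (T.b (T.l 1) (T.c (T.b (T.a (T.l 1) (T.l 204)) (T.l 204)) (T.a (T.a (T.l 1) (T.l 204)) (T.l 204)))) (T.b (T.l 1) (T.a (T.a (T.l 1) (T.l 204)) (T.l 204))))) (T.a (T.c (T.b (T.c (T.b (T.l 1) (T.a (T.l 1) (T.l 204))) (T.b (T.l 1) (T.a (T.l 1) (T.l 204)))) (T.l 204)) (T.b (T.c (T.b (T.l 1) (T.l 204)) (T.a (T.l 1) (T.l 204))) (T.l 204))) (T.l 204))))))))), by decide +kernel⟩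

def B012E_000_7_380_1 :
    ∃ t, chk3 (onCell 0 33554432 0 1073741824 33554432 16777216 (corTK [] false 3 c0N cB012E gN0q0 gN0q2 gN0q1 gN1q1 true false)) t 7 380 1 = true :=
  ⟨(T.a (T.l 1) (T.a (T.l 1) (T.a (T.l 1) (T.c (T.b (T.l 1) (T.a (T.l 1) (T.c (T.b (T.l 1) (T.a (T.l 1) (T.c (T.b (T.l 1) (T.a (T.l 1) (T.c (T.b (T.l 1) (T.c (T.b (T.l 1) (T.l 204)) (T.b (T.l 1) (T.l 204)))) (T.b (T.l 1) (T.c (T.b (T.l 1) (T.l 204)) (T.b (T.l 1) (T.l 204))))))) (T.b (T.l 1) (T.a (T.l 1) (T.c (T.b (T.l 1) (T.c (T.b (T.l 1) (T.l 204)) (T.b (T.l 1) (T.l 204)))) (T.b (T.l 1) (T.c (T.b (T.l 1) (T.l 204)) (T.b (T.l 1) (T.l 204)))))))))) (T.b (T.l 1) (T.a (T.l 1) (T.c (T.b (T.l 1) (T.a (T.l 1) (T.c (T.b (T.l 1) (T.c (T.b (T.l 1) (T.l 204)) (T.b (T.l 1) (T.l 204)))) (T.b (T.l 1) (T.c (T.b (T.l 1) (T.l 204)) (T.b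 (T.l 1) (T.l 204))))))) (T.b (T.l 1) (T.a (T.l 1) (T.c (T.b (T.l 1) (T.c (T.b (T.l 1) (T.l 204)) (T.b (T.l 1) (T.l 204)))) (T.b (T.l 1) (T.c (T.b (T.l 1) (T.l 204)) (T.b (T.l 1) (T.l 204))))))))))))) (T.b (T.l 1) (T.a (T.l 1) (T.c (T.b (T.l 1) (T.a (T.l 1) (T.c (T.b (T.l 1) (T.a (T.l 1) (T.c (T.b (T.l 1) (T.c (T.b (T.l 1) (T.l 204)) (T.b (T.l 1) (T.l 204)))) (T.b (T.l 1) (T.c (T.b (T.l 1) (T.l 204)) (T.b (T.l 1) (T.l 204))))))) (T.b (T.l 1) (T.a (T.l 1) (T.c (T.b (T.l 1) (T.c (T.b (T.l 1) (T.l 204)) (T.b (T.l 1) (T.l 204)))) (T.b (T.l 1) (T.c (T.b (T.l 1) (T.l 204)) (T.b (T.l 1) (T.l 204)))))))))) (T.b (T.l 1) (T.a (T.l 1) (T.c (T.b (T.l 1) (T.a (T.l 1) (T.c (T.b (T.l 1) (T.c (T.b (T.l 1) (T.l 204)) (T.b (T.l 1) (T.l 204)))) (T.b (T.l 1) (T.c (T.b (T.l 1) (T.l 204)) (T.b (T.l 1) (T.l 204)))))))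 (T.b (T.l 1) (T.a (T.l 1) (T.c (T.b (T.l 1) (T.c (T.b (T.l 1) (T.l 204)) (T.b (T.l 1) (T.l 204)))) (T.b (T.l 1) (T.c (T.b (T.l 1) (T.l 204)) (T.b (T.l 1) (T.l 204))))))))))))))))), by decide +kernel⟩

def B012E_000_14_381_1 :
    ∃ t, chk3 (onCell 0 33554432 0 1073741824 33554432 16777216 (corTK [] false 3 c0N cB012E gN0q0 gN0q2 gN0q1 gN1q1 true false)) t 14 381 1 = true :=
  ⟨(T.c (T.b (T.a (T.l 1) (T.c (T.b (T.l 1) (T.c (T.b (T.a (T.l 1) (T.a (T.l 1) (T.a (T.l 1) (T.a (T.l 1) (T.c (T.b (T.l 1) (T.a (T.l 1) (T.l 748))) (T.b (T.l 1) (T.a (T.l 1) (T.l 748)))))))) (T.a (T.c (T.b (T.l 1) (T.a (T.l 1) (T.c (T.a (T.a (T.l 1) (T.l 204)) (T.l 204)) (T.a (T.a (T.l 1) (T.l 204)) (T.l 204))))) (T.b (T.l 1) (T.a (T.l 1) (T.a (T.a (T.l 1) (T.l 204)) (T.l 204))))) (T.a (T.c (T.b (T.c (T.b (T.l 1) (T.l 204))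 (T.b (T.l 1) (T.l 204))) (T.l 204)) (T.b (T.c (T.a (T.l 1) (T.l 748)) (T.a (T.l 1) (T.l 748))) (T.l 204))) (T.l 204)))) (T.b (T.a (T.l 1) (T.a (T.l 1) (T.a (T.l 1) (T.a (T.l 1) (T.c (T.b (T.l 1) (T.a (T.l 1) (T.l 748))) (T.b (T.l 1) (T.a (T.l 1) (T.l 748)))))))) (T.a (T.c (T.b (T.l 1) (T.a (T.l 1) (T.a (T.a (T.l 1) (T.l 204)) (T.l 204)))) (T.b (T.l 1) (T.a (T.l 1) (T.a (T.a (T.l 1) (T.l 204)) (T.l 204))))) (T.a (T.c (T.b (T.a (T.l 1) (T.l 748)) (T.l 204)) (T.b (T.a (T.l 1) (T.l 748)) (T.l 204))) (T.l 204)))))) (T.b (T.l 1) (T.c (T.b (T.a (T.l 1) (T.a (T.l 1) (T.a (T.l 1) (T.a (T.l 1) (T.c (T.b (T.l 1) (T.a (T.l 1) (T.l 748))) (T.b (T.l 1) (T.a (T.l 1) (T.l 748)))))))) (T.a (T.c (T.b (T.l 1) (T.a (T.l 1) (T.a (T.a (T.l 1) (T.l 204)) (T.l 204)))) (T.b (T.l 1) (T.a (T.l 1) (T.a (T.a (T.l 1) (T.l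 204)) (T.l 204))))) (T.a (T.c (T.b (T.a (T.l 1) (T.l 748)) (T.l 204)) (T.b (T.a (T.l 1) (T.l 748)) (T.l 204))) (T.l 204)))) (T.b (T.a (T.l 1) (T.a (T.l 1) (T.a (T.l 1) (T.a (T.l 1) (T.c (T.b (T.l 1) (T.a (T.l 1) (T.l 748))) (T.b (T.l 1) (T.a (T.l 1) (T.l 748)))))))) (T.a (T.c (T.b (T.l 1) (T.a (T.l 1) (T.a (T.l 748) (T.l 204)))) (T.b (T.l 1) (T.a (T.l 1) (T.a (T.l 748) (T.l 204))))) (T.a (T.c (T.b (T.a (T.l 1) (T.l 748)) (T.l 204)) (T.a (T.b (T.l 1) (T.l 204)) (T.l 204))) (T.l 204)))))))) (T.a (T.c (T.b (T.a (T.c (T.b (T.l 1) (T.c (T.b (T.a (T.l 1) (T.a (T.l 748) (T.l 204))) (T.l 204)) (T.b (T.a (T.l 1) (T.a (T.l 748) (T.l 204))) (T.l 204)))) (T.b (T.l 1) (T.c (T.b (T.a (T.l 1) (T.a (T.l 204) (T.l 204))) (T.l 204)) (T.b (T.a (T.l 1) (T.l 204)) (T.l 204))))) (T.c (T.b (T.c (T.b (T.a (T.l 1) (T.a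 (T.l 1) (T.a (T.l 1) (T.l 748)))) (T.a (T.a (T.l 1) (T.l 204)) (T.l 204))) (T.b (T.a (T.l 1) (T.a (T.l 1) (T.a (T.l 1) (T.l 748)))) (T.a (T.a (T.l 1) (T.l 204)) (T.l 204)))) (T.l 204)) (T.b (T.c (T.b (T.a (T.l 1) (T.a (T.l 1) (T.a (T.l 1) (T.l 748)))) (T.a (T.a (T.l 1) (T.l 204)) (T.l 204))) (T.b (T.a (T.l 1) (T.a (T.l 1) (T.a (T.l 1) (T.l 748)))) (T.a (T.a (T.l 1) (T.l 204)) (T.l 204)))) (T.l 204)))) (T.l 204)) (T.b (T.a (T.c (T.b (T.l 1) (T.a (T.c (T.b (T.l 1) (T.l 204)) (T.b (T.l 1) (T.l 204))) (T.l 204))) (T.b (T.l 1) (T.a (T.c (T.b (T.l 1) (T.l 204)) (T.b (T.l 1) (T.l 204))) (T.l 204)))) (T.c (T.b (T.c (T.b (T.a (T.l 1) (T.c (T.b (T.l 1) (T.l 748)) (T.b (T.l 1) (T.l 748)))) (T.a (T.a (T.l 1) (T.l 204)) (T.l 204))) (T.b (T.a (T.l 1) (T.c (T.b (T.l 1) (T.l 748)) (T.b (T.l 1) (T.l 236))))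 (T.a (T.a (T.l 1) (T.l 204)) (T.l 204)))) (T.l 204)) (T.b (T.c (T.b (T.a (T.l 1) (T.c (T.b (T.l 1) (T.l 204)) (T.b (T.l 1) (T.l 204)))) (T.a (T.a (T.l 1) (T.l 204)) (T.l 204))) (T.b (T.a (T.l 1) (T.a (T.l 1) (T.l 748))) (T.a (T.a (T.l 1) (T.l 204)) (T.l 204)))) (T.l 204)))) (T.l 204))) (T.a (T.a (T.c (T.a (T.l 204) (T.l 204)) (T.c (T.l 204) (T.l 204))) (T.l 204)) (T.l 204)))) (T.b (T.a (T.l 1) (T.c (T.b (T.l 1) (T.c (T.b (T.a (T.l 1) (T.a (T.l 1) (T.a (T.l 1) (T.a (T.l 1) (T.c (T.b (T.l 1) (T.l 748)) (T.b (T.l 1) (T.l 748))))))) (T.a (T.c (T.b (T.l 1) (T.a (T.l 1) (T.a (T.l 204) (T.l 204)))) (T.b (T.l 1) (T.a (T.l 1) (T.l 204)))) (T.a (T.a (T.c (T.b (T.l 1) (T.l 204)) (T.b (T.l 1) (T.l 204))) (T.l 204)) (T.l 204)))) (T.b (T.a (T.l 1) (T.a (T.l 1) (T.a (T.l 1) (T.a (T.l 1) (T.c (T.b (T.l 1) (T.l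 748)) (T.b (T.l 1) (T.l 204))))))) (T.a (T.c (T.b (T.l 1) (T.a (T.l 1) (T.l 204))) (T.b (T.l 1) (T.a (T.l 1) (T.l 204)))) (T.a (T.a (T.c (T.b (T.l 1) (T.l 204)) (T.b (T.l 1) (T.l 204))) (T.l 204)) (T.l 204)))))) (T.b (T.l 1) (T.c (T.b (T.a (T.l 1) (T.a (T.l 1) (T.a (T.l 1) (T.a (T.l 1) (T.c (T.b (T.l 1) (T.l 204)) (T.b (T.l 1) (T.l 204))))))) (T.a (T.c (T.b (T.l 1) (T.a (T.l 1) (T.l 204))) (T.b (T.l 1) (T.a (T.l 1) (T.l 204)))) (T.a (T.a (T.c (T.b (T.l 1) (T.l 204)) (T.b (T.l 1) (T.l 204))) (T.l 204)) (T.l 204)))) (T.b (T.a (T.l 1) (T.a (T.l 1) (T.a (T.l 1) (T.c (T.b (T.l 1) (T.l 748)) (T.b (T.l 1) (T.l 204)))))) (T.a (T.c (T.b (T.l 1) (T.a (T.l 1) (T.l 204))) (T.b (T.l 1) (T.a (T.l 1) (T.l 204)))) (T.a (T.a (T.c (T.b (T.l 1) (T.l 204)) (T.c (T.l 204) (T.l 204))) (T.l 204)) (T.l 204))))))))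 (T.a (T.c (T.b (T.a (T.c (T.b (T.l 1) (T.a (T.c (T.b (T.l 1) (T.l 204)) (T.b (T.l 1) (T.l 204))) (T.l 204))) (T.b (T.l 1) (T.a (T.c (T.b (T.l 1) (T.l 204)) (T.b (T.l 1) (T.l 204))) (T.l 204)))) (T.c (T.b (T.c (T.b (T.a (T.l 1) (T.a (T.l 1) (T.l 748))) (T.a (T.a (T.l 1) (T.l 204)) (T.l 204))) (T.b (T.a (T.l 1) (T.a (T.l 1) (T.l 204))) (T.a (T.a (T.l 1) (T.l 204)) (T.l 204)))) (T.l 204)) (T.b (T.c (T.b (T.a (T.l 1) (T.a (T.l 1) (T.l 204))) (T.a (T.a (T.l 1) (T.l 204)) (T.l 204))) (T.b (T.a (T.l 1) (T.a (T.l 1) (T.l 204))) (T.a (T.l 204) (T.l 204)))) (T.l 204)))) (T.l 204)) (T.b (T.a (T.c (T.b (T.l 1) (T.a (T.c (T.b (T.l 1) (T.l 204)) (T.b (T.l 1) (T.l 204))) (T.l 204))) (T.b (T.l 1) (T.a (T.c (T.b (T.l 1) (T.l 204)) (T.a (T.l 204) (T.l 204))) (T.l 204)))) (T.c (T.b (T.c (T.b (T.a (T.l 1) (T.a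 (T.l 1) (T.l 204))) (T.a (T.l 204) (T.l 204))) (T.b (T.a (T.l 1) (T.a (T.l 1) (T.l 204))) (T.a (T.l 204) (T.l 204)))) (T.l 204)) (T.b (T.c (T.b (T.a (T.l 1) (T.a (T.l 1) (T.l 204))) (T.l 204)) (T.b (T.a (T.l 1) (T.a (T.l 1) (T.l 204))) (T.l 204))) (T.l 204)))) (T.l 204))) (T.a (T.c (T.a (T.l 204) (T.l 204)) (T.l 204)) (T.l 204))))), by decide +kernel⟩

def B012E_000_30_381_1 :
    ∃ t, chk3 (onCell 0 33554432 0 1073741824 33554432 16777216 (corTK [] false 3 c0N cB012E gN0q0 gN0q2 gN0q1 gN1q1 true false)) t 30 381 1 = true :=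
  ⟨(T.c (T.b (T.c (T.b (T.a (T.l 1) (T.c (T.b (T.l 1) (T.c (T.b (T.a (T.l 1) (T.a (T.l 1) (T.c (T.b (T.l 1) (T.l 204)) (T.b (T.l 1) (T.l 204))))) (T.a (T.c (T.b (T.l 1) (T.l 748)) (T.b (T.l 1) (T.l 748))) (T.l 204))) (T.b (T.a (T.l 1) (T.a (T.l 1) (T.c (T.b (T.l 1) (T.l 204)) (T.b (T.l 1) (T.l 204))))) (T.a (T.c (T.b (T.l 1) (T.l 748)) (T.b (T.l 1) (T.l 748))) (T.l 204))))) (T.b (T.l 1) (T.c (T.b (T.a (T.l 1) (T.a (T.l 1) (T.c (T.b (T.l 1) (T.l 204)) (T.b (T.l 1) (T.l 204))))) (T.a (T.c (T.b (T.l 1) (T.l 748)) (T.b (T.l 1) (T.l 748))) (T.l 204))) (T.b (T.a (T.l 1) (T.a (T.l 1) (T.c (T.b (T.l 1) (T.l 204)) (T.b (T.l 1) (T.l 204))))) (T.a (T.c (T.b (T.l 1) (T.l 748)) (T.b (T.l 1) (T.l 748))) (T.l 204))))))) (T.a (T.c (T.b (T.a (T.c (T.b (T.l 1) (T.a (T.l 236) (T.l 204))) (T.b (T.l 1) (T.a (T.l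 748) (T.l 204)))) (T.c (T.b (T.c (T.b (T.a (T.l 1) (T.l 204)) (T.l 204)) (T.b (T.a (T.l 1) (T.l 204)) (T.l 204))) (T.l 204)) (T.b (T.c (T.b (T.a (T.l 1) (T.l 204)) (T.l 204)) (T.b (T.a (T.l 1) (T.l 204)) (T.l 204))) (T.l 204)))) (T.l 204)) (T.b (T.a (T.c (T.b (T.l 1) (T.a (T.l 236) (T.l 204))) (T.b (T.l 1) (T.a (T.l 204) (T.l 204)))) (T.c (T.b (T.c (T.b (T.a (T.l 1) (T.l 204)) (T.l 204)) (T.b (T.a (T.l 1) (T.l 204)) (T.l 204))) (T.l 204)) (T.b (T.c (T.b (T.a (T.l 1) (T.l 204)) (T.l 204)) (T.b (T.a (T.l 1) (T.l 204)) (T.l 204))) (T.l 204)))) (T.l 204))) (T.l 204))) (T.b (T.a (T.l 1) (T.c (T.b (T.l 1) (T.c (T.b (T.a (T.l 1) (T.a (T.l 1) (T.c (T.b (T.l 1) (T.l 204)) (T.b (T.l 1) (T.l 204))))) (T.a (T.c (T.b (T.l 1) (T.l 748)) (T.b (T.l 1) (T.l 748))) (T.l 204))) (T.b (T.a (T.l 1) (T.a (T.l 1) (T.c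 (T.b (T.l 1) (T.l 204)) (T.b (T.l 1) (T.l 204))))) (T.a (T.c (T.b (T.l 1) (T.l 748)) (T.b (T.l 1) (T.l 748))) (T.l 204))))) (T.b (T.l 1) (T.c (T.b (T.a (T.l 1) (T.a (T.l 1) (T.c (T.b (T.l 1) (T.l 204)) (T.b (T.l 1) (T.l 204))))) (T.a (T.c (T.b (T.l 1) (T.l 748)) (T.b (T.l 1) (T.l 748))) (T.l 204))) (T.b (T.a (T.l 1) (T.a (T.l 1) (T.c (T.b (T.l 1) (T.l 204)) (T.b (T.l 1) (T.l 204))))) (T.a (T.c (T.b (T.l 1) (T.l 748)) (T.b (T.l 1) (T.l 748))) (T.l 204))))))) (T.a (T.c (T.b (T.a (T.c (T.b (T.l 1) (T.a (T.l 204) (T.l 204))) (T.b (T.l 1) (T.a (T.l 204) (T.l 204)))) (T.a (T.c (T.b (T.a (T.l 1) (T.l 748)) (T.l 204)) (T.b (T.a (T.l 1) (T.l 748)) (T.l 204))) (T.l 204))) (T.l 204)) (T.b (T.a (T.c (T.b (T.l 1) (T.l 204)) (T.b (T.l 1) (T.l 204))) (T.a (T.c (T.b (T.a (T.l 1) (T.l 748)) (T.l 204)) (T.b (T.a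 (T.l 1) (T.l 748)) (T.l 204))) (T.l 204))) (T.l 204))) (T.l 204)))) (T.l 204)) (T.b (T.c (T.b (T.a (T.l 1) (T.c (T.b (T.l 1) (T.c (T.b (T.a (T.l 1) (T.a (T.l 1) (T.c (T.b (T.l 1) (T.l 204)) (T.b (T.l 1) (T.l 204))))) (T.a (T.c (T.b (T.l 1) (T.l 748)) (T.b (T.l 1) (T.l 748))) (T.l 204))) (T.b (T.a (T.l 1) (T.a (T.l 1) (T.c (T.b (T.l 1) (T.l 204)) (T.b (T.l 1) (T.l 204))))) (T.a (T.c (T.b (T.l 1) (T.l 748)) (T.b (T.l 1) (T.l 748))) (T.l 204))))) (T.b (T.l 1) (T.c (T.b (T.a (T.l 1) (T.a (T.l 1) (T.c (T.b (T.l 1) (T.l 204)) (T.b (T.l 1) (T.l 204))))) (T.a (T.c (T.b (T.l 1) (T.l 204)) (T.b (T.l 1) (T.l 204))) (T.l 204))) (T.b (T.a (T.l 1) (T.a (T.l 1) (T.c (T.b (T.l 1) (T.l 204)) (T.b (T.l 1) (T.l 204))))) (T.a (T.c (T.b (T.l 1) (T.l 204)) (T.a (T.l 1) (T.l 748))) (T.l 204))))))) (T.a (T.c (T.b (T.a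 (T.c (T.b (T.l 1) (T.l 204)) (T.b (T.l 1) (T.l 204))) (T.a (T.c (T.b (T.a (T.l 1) (T.l 748)) (T.l 204)) (T.b (T.a (T.l 1) (T.l 748)) (T.l 204))) (T.l 204))) (T.l 204)) (T.b (T.a (T.c (T.b (T.l 1) (T.l 204)) (T.b (T.l 1) (T.l 204))) (T.a (T.c (T.b (T.a (T.l 1) (T.l 204)) (T.l 204)) (T.b (T.a (T.l 1) (T.l 204)) (T.l 204))) (T.l 204))) (T.l 204))) (T.l 204))) (T.b (T.a (T.l 1) (T.c (T.b (T.l 1) (T.c (T.b (T.a (T.l 1) (T.a (T.l 1) (T.c (T.b (T.l 1) (T.l 204)) (T.b (T.l 1) (T.l 204))))) (T.a (T.a (T.l 1) (T.l 748)) (T.l 204))) (T.b (T.a (T.l 1) (T.a (T.l 1) (T.c (T.b (T.l 1) (T.l 204)) (T.b (T.l 1) (T.l 204))))) (T.a (T.a (T.l 1) (T.l 748)) (T.l 204))))) (T.b (T.l 1) (T.c (T.b (T.a (T.l 1) (T.a (T.l 1) (T.c (T.b (T.l 1) (T.l 204)) (T.b (T.l 1) (T.l 204))))) (T.a (T.a (T.l 1) (T.l 204)) (T.l 204)))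 (T.b (T.a (T.l 1) (T.a (T.l 1) (T.a (T.l 1) (T.l 748)))) (T.a (T.a (T.l 1) (T.l 204)) (T.l 204))))))) (T.a (T.c (T.b (T.c (T.b (T.a (T.l 1) (T.a (T.a (T.l 1) (T.l 204)) (T.l 204))) (T.l 204)) (T.b (T.a (T.l 1) (T.a (T.l 748) (T.l 204))) (T.l 204))) (T.l 204)) (T.b (T.c (T.b (T.a (T.l 1) (T.a (T.l 748) (T.l 204))) (T.l 204)) (T.b (T.a (T.l 1) (T.a (T.l 204) (T.l 204))) (T.l 204))) (T.l 204))) (T.l 204)))) (T.l 204))), by decide +kernel⟩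

def B012E_000_31_381_1 :
    ∃ t, chk3 (onCell 0 33554432 0 1073741824 33554432 16777216 (corTK [] false 3 c0N cB012E gN0q0 gN0q2 gN0q1 gN1q1 true false)) t 31 381 1 = true :=
  ⟨(T.c (T.b (T.c (T.b (T.a (T.c (T.b (T.c (T.b (T.l 1) (T.a (T.l 1) (T.c (T.b (T.a (T.l 1) (T.l 204)) (T.l 204)) (T.b (T.a (T.l 1) (T.l 236)) (T.l 204))))) (T.b (T.l 1) (T.a (T.l 1) (T.c (T.b (T.a (T.l 1) (T.l 748)) (T.l 204)) (T.b (T.a (T.l 1) (T.l 748)) (T.l 204)))))) (T.a (T.c (T.b (T.a (T.c (T.l 748) (T.l 748)) (T.l 204)) (T.l 204)) (T.b (T.a (T.a (T.l 748) (T.l 204)) (T.l 204)) (T.l 204))) (T.l 204))) (T.b (T.c (T.b (T.l 1) (T.a (T.l 1) (T.c (T.b (T.a (T.l 1) (T.l 748)) (T.l 204)) (T.b (T.a (T.l 1) (T.l 748)) (T.l 204))))) (T.b (T.l 1) (T.a (T.l 1) (T.c (T.b (T.a (T.l 1) (T.l 748)) (T.l 204)) (T.b (T.a (T.l 1) (T.l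 748)) (T.l 204)))))) (T.a (T.a (T.c (T.b (T.c (T.b (T.l 1) (T.l 204)) (T.b (T.l 1) (T.l 204))) (T.l 204)) (T.b (T.c (T.b (T.l 1) (T.l 204)) (T.b (T.l 1) (T.l 204))) (T.l 204))) (T.l 204)) (T.l 204)))) (T.c (T.a (T.b (T.c (T.b (T.c (T.b (T.l 1) (T.a (T.l 1) (T.l 204))) (T.b (T.l 1) (T.a (T.l 1) (T.l 204)))) (T.l 204)) (T.b (T.c (T.b (T.l 1) (T.a (T.l 1) (T.l 204))) (T.b (T.l 1) (T.a (T.l 1) (T.l 204)))) (T.l 204))) (T.l 204)) (T.l 204)) (T.b (T.c (T.a (T.b (T.c (T.b (T.l 1) (T.a (T.l 1) (T.l 204))) (T.b (T.l 1) (T.a (T.l 1) (T.l 204)))) (T.l 204)) (T.l 204)) (T.a (T.b (T.c (T.b (T.l 1) (T.a (T.l 1) (T.l 204))) (T.b (T.l 1) (T.a (T.l 1) (T.l 204)))) (T.l 204)) (T.l 204))) (T.l 204)))) (T.l 204)) (T.b (T.a (T.c (T.b (T.c (T.b (T.l 1) (T.a (T.l 1) (T.c (T.b (T.a (T.l 1) (T.l 748)) (T.l 204)) (T.b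 (T.a (T.l 1) (T.l 748)) (T.l 204))))) (T.b (T.l 1) (T.a (T.l 1) (T.c (T.b (T.a (T.l 1) (T.l 748)) (T.l 204)) (T.b (T.a (T.l 1) (T.l 748)) (T.l 204)))))) (T.a (T.a (T.c (T.b (T.c (T.b (T.l 1) (T.l 204)) (T.b (T.l 1) (T.l 204))) (T.l 204)) (T.b (T.c (T.b (T.l 1) (T.l 204)) (T.b (T.l 1) (T.l 204))) (T.l 204))) (T.l 204)) (T.l 204))) (T.b (T.c (T.b (T.l 1) (T.a (T.l 1) (T.c (T.b (T.a (T.l 1) (T.l 748)) (T.l 204)) (T.b (T.a (T.l 1) (T.l 748)) (T.l 204))))) (T.b (T.l 1) (T.a (T.l 1) (T.c (T.b (T.a (T.l 1) (T.l 748)) (T.l 204)) (T.b (T.a (T.l 1) (T.l 748)) (T.l 204)))))) (T.a (T.a (T.c (T.b (T.c (T.b (T.l 1) (T.l 204)) (T.b (T.l 1) (T.l 204))) (T.l 204)) (T.b (T.c (T.a (T.l 748) (T.l 204)) (T.a (T.l 748) (T.l 204))) (T.l 204))) (T.l 204)) (T.l 204)))) (T.c (T.b (T.c (T.b (T.a (T.c (T.b (T.l 1) (T.a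 (T.l 1) (T.l 204))) (T.b (T.l 1) (T.a (T.l 1) (T.l 204)))) (T.l 204)) (T.l 204)) (T.b (T.a (T.c (T.b (T.l 1) (T.a (T.l 1) (T.l 204))) (T.b (T.l 1) (T.a (T.l 1) (T.l 204)))) (T.a (T.l 204) (T.l 204))) (T.l 204))) (T.l 204)) (T.b (T.c (T.b (T.a (T.c (T.b (T.l 1) (T.a (T.l 1) (T.l 204))) (T.b (T.l 1) (T.a (T.l 1) (T.l 204)))) (T.a (T.l 204) (T.l 204))) (T.l 204)) (T.b (T.a (T.c (T.b (T.l 1) (T.a (T.l 1) (T.l 204))) (T.b (T.l 1) (T.a (T.l 1) (T.l 204)))) (T.a (T.l 204) (T.l 204))) (T.l 204))) (T.l 204)))) (T.l 204))) (T.l 204)) (T.b (T.c (T.b (T.a (T.c (T.b (T.c (T.b (T.l 1) (T.a (T.l 1) (T.c (T.b (T.a (T.l 1) (T.l 748)) (T.l 204)) (T.b (T.a (T.l 1) (T.l 748)) (T.l 204))))) (T.b (T.l 1) (T.a (T.l 1) (T.c (T.b (T.a (T.l 1) (T.l 748)) (T.l 204)) (T.b (T.a (T.l 1) (T.l 748)) (T.l 204)))))) (T.a (T.a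 (T.c (T.b (T.a (T.l 748) (T.l 204)) (T.l 204)) (T.b (T.c (T.l 748) (T.l 748)) (T.l 204))) (T.l 204)) (T.l 204))) (T.b (T.c (T.b (T.l 1) (T.a (T.l 1) (T.c (T.b (T.a (T.l 1) (T.l 748)) (T.l 204)) (T.b (T.a (T.l 1) (T.l 748)) (T.l 204))))) (T.b (T.l 1) (T.a (T.l 1) (T.c (T.b (T.a (T.l 1) (T.l 748)) (T.l 204)) (T.b (T.a (T.l 1) (T.l 204)) (T.l 204)))))) (T.a (T.a (T.c (T.b (T.l 748) (T.l 204)) (T.b (T.l 748) (T.l 204))) (T.l 204)) (T.l 204)))) (T.c (T.b (T.c (T.b (T.a (T.c (T.b (T.l 1) (T.a (T.l 1) (T.l 204))) (T.b (T.l 1) (T.a (T.l 1) (T.l 204)))) (T.a (T.l 204) (T.l 204))) (T.l 204)) (T.b (T.a (T.c (T.b (T.l 1) (T.a (T.l 1) (T.l 204))) (T.b (T.l 1) (T.a (T.l 1) (T.l 204)))) (T.a (T.l 204) (T.l 204))) (T.l 204))) (T.l 204)) (T.b (T.c (T.b (T.a (T.c (T.b (T.l 1) (T.a (T.l 1) (T.l 204))) (T.b (T.l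 1) (T.a (T.l 1) (T.l 204)))) (T.l 204)) (T.l 204)) (T.a (T.b (T.c (T.b (T.l 1) (T.a (T.l 1) (T.l 204))) (T.b (T.l 1) (T.a (T.l 1) (T.l 204)))) (T.l 204)) (T.l 204))) (T.l 204)))) (T.l 204)) (T.b (T.a (T.c (T.b (T.c (T.b (T.l 1) (T.a (T.l 1) (T.c (T.b (T.a (T.l 1) (T.l 204)) (T.l 204)) (T.b (T.a (T.l 1) (T.l 204)) (T.l 204))))) (T.b (T.l 1) (T.a (T.l 1) (T.c (T.b (T.a (T.l 1) (T.l 204)) (T.l 204)) (T.b (T.a (T.l 1) (T.l 204)) (T.l 204)))))) (T.a (T.a (T.c (T.b (T.l 748) (T.l 204)) (T.a (T.l 204) (T.l 204))) (T.l 204)) (T.l 204))) (T.b (T.c (T.b (T.l 1) (T.a (T.l 1) (T.c (T.b (T.a (T.l 1) (T.l 204)) (T.l 204)) (T.b (T.a (T.l 1) (T.l 204)) (T.l 204))))) (T.b (T.l 1) (T.a (T.l 1) (T.c (T.b (T.a (T.l 1) (T.l 204)) (T.l 204)) (T.b (T.a (T.l 1) (T.l 204)) (T.l 204)))))) (T.a (T.a (T.l 204) (T.l 204))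 (T.l 204)))) (T.c (T.b (T.a (T.c (T.b (T.c (T.b (T.l 1) (T.a (T.l 1) (T.l 204))) (T.b (T.l 1) (T.a (T.l 1) (T.l 204)))) (T.l 204)) (T.b (T.c (T.b (T.l 1) (T.a (T.l 1) (T.l 204))) (T.b (T.l 1) (T.a (T.l 1) (T.l 204)))) (T.l 204))) (T.l 204)) (T.l 204)) (T.a (T.b (T.c (T.b (T.c (T.b (T.l 1) (T.a (T.l 1) (T.l 204))) (T.b (T.l 1) (T.a (T.l 1) (T.l 204)))) (T.l 204)) (T.b (T.c (T.b (T.l 1) (T.l 748)) (T.b (T.l 1) (T.l 748))) (T.l 204))) (T.l 204)) (T.l 204)))) (T.l 204))) (T.l 204))), by decide +kernel⟩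

def B012E_000_2_382_1 :
    ∃ t, chk3 (onCell 0 33554432 0 1073741824 33554432 16777216 (corTK [] false 3 c0N cB012E gN0q0 gN0q2 gN0q1 gN1q1 true false)) t 2 382 1 = true :=
  ⟨(T.a (T.l 1) (T.a (T.a (T.l 1) (T.c (T.b (T.l 1) (T.c (T.b (T.l 1) (T.c (T.b (T.a (T.l 1) (T.a (T.l 1) (T.c (T.b (T.l 1) (T.l 204)) (T.b (T.l 1) (T.l 204))))) (T.a (T.a (T.l 1) (T.c (T.b (T.l 1) (T.l 204)) (T.b (T.l 1) (T.l 204)))) (T.l 204))) (T.b (T.a (T.l 1) (T.a (T.l 1) (T.c (T.b (T.l 1) (T.l 204)) (T.b (T.l 1) (T.l 204))))) (T.a (T.a (T.l 1) (T.c (T.b (T.l 1) (T.l 204)) (T.b (T.l 1) (T.l 204)))) (T.l 204))))) (T.b (T.l 1) (T.c (T.b (T.a (T.l 1) (T.a (T.l 1) (T.a (T.l 1) (T.l 204)))) (T.a (T.a (T.l 1) (T.l 204)) (T.l 204))) (T.b (T.a (T.l 1) (T.a (T.l 1) (T.a (T.l 1) (T.l 204)))) (T.a (T.a (T.l 1) (T.l 204)) (T.l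 204))))))) (T.b (T.l 1) (T.c (T.b (T.l 1) (T.c (T.b (T.a (T.l 1) (T.a (T.l 1) (T.l 204))) (T.a (T.a (T.l 1) (T.l 204)) (T.l 204))) (T.b (T.a (T.l 1) (T.a (T.l 1) (T.l 204))) (T.a (T.a (T.l 1) (T.l 204)) (T.l 204))))) (T.b (T.l 1) (T.c (T.b (T.a (T.l 1) (T.a (T.l 1) (T.l 204))) (T.a (T.l 204) (T.l 204))) (T.b (T.a (T.l 1) (T.a (T.l 1) (T.l 204))) (T.a (T.l 204) (T.l 204))))))))) (T.c (T.b (T.a (T.l 1) (T.a (T.l 1) (T.a (T.l 1) (T.c (T.b (T.l 1) (T.a (T.l 1) (T.c (T.b (T.l 1) (T.a (T.l 1) (T.l 204))) (T.b (T.l 1) (T.l 204))))) (T.b (T.l 1) (T.a (T.l 1) (T.c (T.b (T.l 1) (T.l 204)) (T.b (T.l 1) (T.l 204))))))))) (T.a (T.a (T.c (T.b (T.l 1) (T.c (T.a (T.c (T.a (T.c (T.a (T.l 204) (T.l 204)) (T.l 204)) (T.l 204)) (T.l 204)) (T.l 204)) (T.l 204))) (T.b (T.l 1) (T.l 204))) (T.c (T.b (T.c (T.b (T.l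 1) (T.c (T.b (T.a (T.l 1) (T.l 204)) (T.l 204)) (T.b (T.a (T.l 1) (T.l 204)) (T.l 204)))) (T.b (T.l 1) (T.c (T.b (T.a (T.l 1) (T.l 204)) (T.l 204)) (T.b (T.a (T.l 1) (T.l 204)) (T.l 204))))) (T.l 204)) (T.b (T.c (T.b (T.l 1) (T.a (T.a (T.l 1) (T.l 204)) (T.l 204))) (T.b (T.l 1) (T.a (T.l 204) (T.l 204)))) (T.l 204)))) (T.a (T.c (T.b (T.c (T.b (T.a (T.l 1) (T.c (T.b (T.l 1) (T.l 204)) (T.a (T.l 204) (T.l 204)))) (T.l 204)) (T.a (T.b (T.l 1) (T.l 204)) (T.l 204))) (T.l 204)) (T.a (T.b (T.c (T.b (T.l 1) (T.l 204)) (T.b (T.l 1) (T.l 204))) (T.l 204)) (T.l 204))) (T.a (T.l 204) (T.l 204))))) (T.b (T.a (T.l 1) (T.a (T.l 1) (T.a (T.l 1) (T.c (T.b (T.l 1) (T.c (T.b (T.l 1) (T.l 204)) (T.b (T.l 1) (T.l 204)))) (T.b (T.l 1) (T.c (T.b (T.l 1) (T.l 204)) (T.b (T.l 1) (T.l 204)))))))) (T.a (T.a (T.c (T.b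 (T.l 1) (T.l 204)) (T.b (T.l 1) (T.l 204))) (T.c (T.b (T.c (T.b (T.l 1) (T.l 204)) (T.b (T.l 1) (T.l 204))) (T.l 204)) (T.b (T.c (T.b (T.l 1) (T.l 204)) (T.b (T.l 1) (T.l 204))) (T.l 204)))) (T.a (T.c (T.a (T.c (T.c (T.b (T.b (T.l 1) (T.l 204)) (T.l 204)) (T.l 204)) (T.l 204)) (T.l 204)) (T.l 204)) (T.l 204))))))), by decide +kernel⟩

def B012E_000_4_383_1 :
    ∃ t, chk3 (onCell 0 33554432 0 1073741824 33554432 16777216 (corTK [] false 3 c0N cB012E gN0q0 gN0q2 gN0q1 gN1q1 true false)) t 4 383 1 = true :=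
  ⟨(T.a (T.c (T.b (T.l 1) (T.c (T.b (T.a (T.l 1) (T.c (T.b (T.a (T.l 1) (T.a (T.l 1) (T.a (T.l 1) (T.a (T.l 1) (T.c (T.b (T.l 1) (T.l 204)) (T.b (T.l 1) (T.l 204))))))) (T.a (T.c (T.b (T.l 1) (T.a (T.l 1) (T.c (T.a (T.a (T.l 1) (T.l 204)) (T.l 204)) (T.l 204)))) (T.b (T.l 1) (T.a (T.l 1) (T.l 204)))) (T.a (T.a (T.c (T.b (T.l 1) (T.l 204)) (T.b (T.l 1) (T.l 204))) (T.l 204)) (T.l 204)))) (T.b (T.a (T.l 1) (T.a (T.l 1) (T.a (T.l 1) (T.c (T.b (T.l 1) (T.l 204)) (T.b (T.l 1) (T.l 204)))))) (T.a (T.c (T.b (T.l 1) (T.a (T.l 1) (T.l 204))) (T.b (T.l 1) (T.a (T.l 1) (T.l 204)))) (T.a (T.l 204) (T.l 204)))))) (T.a (T.c (T.b (T.a (T.l 1) (T.c (T.b (T.a (T.l 1) (T.a (T.l 1) (T.a (T.l 1) (T.l 204)))) (T.a (T.a (T.l 1) (T.l 204)) (T.l 204))) (T.b (T.a (T.l 1) (T.c (T.b (T.l 1) (T.l 204)) (T.b (T.l 1) (T.l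 204)))) (T.a (T.a (T.l 1) (T.l 204)) (T.l 204))))) (T.a (T.c (T.b (T.a (T.l 1) (T.c (T.b (T.a (T.l 1) (T.l 204)) (T.l 204)) (T.b (T.a (T.l 1) (T.l 204)) (T.l 204)))) (T.l 204)) (T.b (T.a (T.l 1) (T.c (T.a (T.a (T.l 1) (T.l 204)) (T.l 204)) (T.l 204))) (T.l 204))) (T.l 204))) (T.b (T.a (T.l 1) (T.c (T.b (T.a (T.l 1) (T.a (T.l 1) (T.l 204))) (T.a (T.a (T.l 1) (T.l 204)) (T.l 204))) (T.b (T.a (T.l 1) (T.a (T.l 1) (T.l 204))) (T.a (T.a (T.l 1) (T.l 204)) (T.l 204))))) (T.a (T.a (T.c (T.b (T.l 1) (T.l 204)) (T.b (T.l 1) (T.l 204))) (T.l 204)) (T.l 204)))) (T.l 204))) (T.b (T.a (T.l 1) (T.c (T.b (T.a (T.l 1) (T.a (T.l 1) (T.c (T.b (T.l 1) (T.l 204)) (T.b (T.l 1) (T.l 204))))) (T.a (T.c (T.b (T.l 1) (T.a (T.l 1) (T.l 204))) (T.b (T.l 1) (T.a (T.l 1) (T.l 204)))) (T.l 204))) (T.b (T.a (T.l 1) (T.a (T.l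 1) (T.c (T.b (T.l 1) (T.l 204)) (T.b (T.l 1) (T.l 204))))) (T.a (T.c (T.b (T.l 1) (T.a (T.l 1) (T.l 204))) (T.b (T.l 1) (T.l 204))) (T.l 204))))) (T.a (T.c (T.b (T.a (T.l 1) (T.c (T.b (T.a (T.l 1) (T.a (T.l 1) (T.l 204))) (T.l 204)) (T.b (T.a (T.l 1) (T.l 204)) (T.l 204)))) (T.a (T.a (T.c (T.b (T.l 1) (T.l 204)) (T.b (T.l 1) (T.l 204))) (T.l 204)) (T.l 204))) (T.b (T.a (T.l 1) (T.c (T.b (T.a (T.l 1) (T.l 204)) (T.l 204)) (T.b (T.a (T.l 1) (T.l 204)) (T.l 204)))) (T.a (T.a (T.c (T.b (T.l 1) (T.l 204)) (T.b (T.l 1) (T.l 204))) (T.l 204)) (T.l 204)))) (T.l 204))))) (T.b (T.l 1) (T.c (T.b (T.a (T.l 1) (T.c (T.b (T.a (T.l 1) (T.a (T.l 1) (T.c (T.b (T.l 1) (T.l 204)) (T.a (T.l 1) (T.l 204))))) (T.a (T.a (T.l 1) (T.l 204)) (T.l 204))) (T.b (T.a (T.l 1) (T.c (T.b (T.l 1) (T.l 204)) (T.a (T.l 1) (T.l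 204)))) (T.a (T.a (T.l 1) (T.l 204)) (T.l 204))))) (T.a (T.c (T.b (T.a (T.l 1) (T.c (T.b (T.a (T.l 1) (T.l 204)) (T.l 204)) (T.b (T.a (T.l 1) (T.l 204)) (T.l 204)))) (T.l 204)) (T.b (T.a (T.l 1) (T.c (T.a (T.a (T.l 1) (T.l 204)) (T.l 204)) (T.l 204))) (T.l 204))) (T.l 204))) (T.b (T.a (T.l 1) (T.c (T.b (T.a (T.l 1) (T.a (T.l 1) (T.l 204))) (T.a (T.a (T.l 1) (T.l 204)) (T.l 204))) (T.b (T.a (T.l 1) (T.a (T.l 1) (T.l 204))) (T.l 204)))) (T.a (T.a (T.c (T.b (T.l 1) (T.l 204)) (T.b (T.l 1) (T.l 204))) (T.l 204)) (T.l 204)))))) (T.a (T.c (T.b (T.c (T.b (T.l 1) (T.c (T.b (T.l 1) (T.a (T.l 1) (T.c (T.b (T.a (T.l 1) (T.a (T.l 1) (T.l 204))) (T.a (T.a (T.l 1) (T.l 204)) (T.l 204))) (T.b (T.a (T.l 1) (T.a (T.l 1) (T.l 204))) (T.l 204))))) (T.b (T.l 1) (T.a (T.l 1) (T.c (T.b (T.a (T.l 1) (T.a (T.l 1) (T.l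 204))) (T.l 204)) (T.b (T.a (T.l 1) (T.l 204)) (T.l 204))))))) (T.b (T.l 1) (T.c (T.b (T.l 1) (T.a (T.l 1) (T.c (T.b (T.a (T.l 1) (T.l 204)) (T.l 204)) (T.b (T.a (T.l 1) (T.l 204)) (T.l 204))))) (T.b (T.l 1) (T.a (T.l 1) (T.c (T.b (T.a (T.l 1) (T.l 204)) (T.l 204)) (T.b (T.a (T.l 1) (T.l 204)) (T.l 204)))))))) (T.a (T.c (T.b (T.a (T.c (T.b (T.c (T.b (T.l 1) (T.l 204)) (T.b (T.l 1) (T.l 204))) (T.l 204)) (T.b (T.c (T.b (T.l 1) (T.l 204)) (T.b (T.l 1) (T.l 204))) (T.l 204))) (T.l 204)) (T.l 204)) (T.c (T.b (T.a (T.b (T.c (T.b (T.l 1) (T.l 204)) (T.b (T.l 1) (T.l 204))) (T.l 204)) (T.l 204)) (T.l 204)) (T.l 204))) (T.l 204))) (T.b (T.c (T.b (T.l 1) (T.c (T.b (T.l 1) (T.a (T.l 1) (T.c (T.a (T.a (T.l 1) (T.l 204)) (T.l 204)) (T.l 204)))) (T.b (T.l 1) (T.a (T.l 1) (T.l 204))))) (T.b (T.l 1) (T.c (T.b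 (T.l 1) (T.a (T.l 1) (T.l 204))) (T.b (T.l 1) (T.a (T.l 1) (T.l 204)))))) (T.l 204))) (T.a (T.c (T.b (T.c (T.b (T.l 1) (T.c (T.b (T.c (T.b (T.l 1) (T.a (T.l 1) (T.l 204))) (T.b (T.l 1) (T.a (T.l 1) (T.l 204)))) (T.l 204)) (T.b (T.c (T.b (T.l 1) (T.a (T.l 1) (T.l 204))) (T.b (T.l 1) (T.a (T.l 1) (T.l 204)))) (T.l 204)))) (T.b (T.l 1) (T.c (T.b (T.c (T.b (T.l 1) (T.a (T.l 1) (T.l 204))) (T.b (T.l 1) (T.l 204))) (T.l 204)) (T.a (T.b (T.l 1) (T.l 204)) (T.l 204))))) (T.l 204)) (T.b (T.c (T.b (T.l 1) (T.a (T.c (T.b (T.l 1) (T.l 204)) (T.b (T.l 1) (T.l 204))) (T.l 204))) (T.b (T.l 1) (T.l 204))) (T.l 204))) (T.c (T.b (T.c (T.b (T.a (T.l 1) (T.a (T.l 1) (T.c (T.b (T.l 1) (T.c (T.b (T.l 1) (T.l 204)) (T.b (T.l 1) (T.l 204)))) (T.b (T.l 1) (T.c (T.b (T.l 1) (T.l 204)) (T.b (T.l 1) (T.l 204))))))) (T.a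 (T.l 204) (T.l 204))) (T.b (T.a (T.l 1) (T.a (T.l 1) (T.c (T.b (T.l 1) (T.c (T.b (T.l 1) (T.l 204)) (T.a (T.l 1) (T.l 204)))) (T.b (T.l 1) (T.a (T.l 1) (T.l 204)))))) (T.l 204))) (T.l 204)) (T.b (T.c (T.b (T.a (T.l 1) (T.a (T.l 1) (T.c (T.b (T.l 1) (T.l 204)) (T.b (T.l 1) (T.l 204))))) (T.l 204)) (T.b (T.a (T.l 1) (T.c (T.b (T.l 1) (T.l 204)) (T.b (T.l 1) (T.l 204)))) (T.l 204))) (T.l 204)))))), by decide +kernel⟩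

def B012E_000_5_383_1 :
    ∃ t, chk3 (onCell 0 33554432 0 1073741824 33554432 16777216 (corTK [] false 3 c0N cB012E gN0q0 gN0q2 gN0q1 gN1q1 true false)) t 5 383 1 = true :=
  ⟨(T.a (T.a (T.a (T.c (T.b (T.c (T.b (T.c (T.b (T.l 1) (T.a (T.c (T.b (T.l 1) (T.l 204)) (T.b (T.l 1) (T.l 204))) (T.l 204))) (T.b (T.l 1) (T.a (T.c (T.b (T.l 1) (T.l 204)) (T.b (T.l 1) (T.l 204))) (T.l 204)))) (T.l 204)) (T.b (T.c (T.b (T.l 1) (T.a (T.l 204) (T.l 204))) (T.b (T.l 1) (T.l 204))) (T.l 204))) (T.l 204)) (T.b (T.c (T.b (T.c (T.b (T.l 1) (T.l 204)) (T.b (T.l 1) (T.l 204))) (T.l 204)) (T.b (T.c (T.b (T.l 1) (T.l 204)) (T.b (T.l 1) (T.l 204))) (T.l 204))) (T.l 204))) (T.c (T.b (T.c (T.b (T.c (T.b (T.c (T.b (T.a (T.l 1) (T.l 204)) (T.l 204)) (T.b (T.a (T.l 1) (T.l 204)) (T.l 204))) (T.l 204)) (T.a (T.b (T.c (T.b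 (T.l 1) (T.l 204)) (T.b (T.l 1) (T.l 204))) (T.l 204)) (T.l 204))) (T.l 204)) (T.a (T.b (T.a (T.c (T.b (T.l 1) (T.l 204)) (T.b (T.l 1) (T.l 204))) (T.l 204)) (T.l 204)) (T.l 204))) (T.l 204)) (T.c (T.c (T.a (T.l 204) (T.l 204)) (T.l 204)) (T.l 204)))) (T.c (T.a (T.l 204) (T.l 204)) (T.l 204))) (T.a (T.a (T.l 204) (T.l 204)) (T.a (T.l 204) (T.l 476)))), by decide +kernel⟩

def B012E_000_3_191_1 :
    ∃ t, chk3 (onCell 0 33554432 0 1073741824 33554432 16777216 (corTK [] false 3 c0N cB012E gN0q0 gN0q2 gN0q1 gN1q1 true false)) t 3 191 1 = true :=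
  ⟨(T.a (T.a (T.a (T.b (T.c (T.b (T.c (T.b (T.l 1) (T.a (T.c (T.b (T.l 1) (T.a (T.l 204) (T.l 204))) (T.b (T.l 1) (T.a (T.l 204) (T.l 204)))) (T.a (T.c (T.b (T.c (T.b (T.l 1) (T.l 204)) (T.b (T.l 1) (T.l 204))) (T.l 204)) (T.b (T.a (T.l 1) (T.l 204)) (T.l 204))) (T.l 204)))) (T.b (T.l 1) (T.a (T.c (T.b (T.l 1) (T.l 204)) (T.b (T.l 1) (T.l 204))) (T.a (T.a (T.c (T.b (T.l 1) (T.l 204)) (T.l 204)) (T.l 204)) (T.l 204))))) (T.a (T.l 204) (T.l 204))) (T.b (T.c (T.b (T.l 1) (T.a (T.c (T.b (T.l 1) (T.l 204)) (T.b (T.l 1) (T.l 204))) (T.a (T.l 204) (T.l 204)))) (T.b (T.l 1) (T.a (T.c (T.b (T.l 1) (T.l 204)) (T.b (T.l 1) (T.l 204))) (T.l 204)))) (T.a (T.l 204) (T.l 204)))) (T.a (T.l 476) (T.l 476))) (T.b (T.a (T.c (T.b (T.c (T.b (T.c (T.b (T.l 1) (T.a (T.l 1) (T.c (T.b (T.l 1) (T.l 204)) (T.b (T.l 1)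 (T.l 204))))) (T.b (T.l 1) (T.a (T.l 1) (T.c (T.b (T.l 1) (T.l 204)) (T.b (T.l 1) (T.l 204)))))) (T.l 204)) (T.b (T.c (T.b (T.l 1) (T.a (T.l 1) (T.c (T.b (T.l 1) (T.l 204)) (T.b (T.l 1) (T.l 204))))) (T.b (T.l 1) (T.c (T.b (T.l 1) (T.l 204)) (T.a (T.l 1) (T.l 204))))) (T.l 204))) (T.l 204)) (T.b (T.c (T.b (T.c (T.b (T.l 1) (T.a (T.l 1) (T.l 204))) (T.b (T.l 1) (T.a (T.l 1) (T.l 204)))) (T.l 204)) (T.b (T.c (T.b (T.l 1) (T.a (T.l 1) (T.l 204))) (T.b (T.l 1) (T.a (T.l 1) (T.l 204)))) (T.l 204))) (T.l 204))) (T.c (T.b (T.c (T.b (T.c (T.b (T.a (T.l 1) (T.a (T.l 1) (T.c (T.b (T.l 1) (T.l 204)) (T.b (T.l 1) (T.l 204))))) (T.a (T.l 204) (T.l 204))) (T.b (T.a (T.l 1) (T.c (T.b (T.l 1) (T.l 204)) (T.b (T.l 1) (T.l 204)))) (T.l 204))) (T.l 204)) (T.b (T.c (T.b (T.a (T.l 1) (T.c (T.b (T.l 1) (T.l 204))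 (T.b (T.l 1) (T.l 204)))) (T.l 204)) (T.b (T.a (T.l 1) (T.c (T.b (T.l 1) (T.l 204)) (T.b (T.l 1) (T.l 204)))) (T.l 204))) (T.l 204))) (T.l 204)) (T.b (T.c (T.b (T.c (T.b (T.a (T.l 1) (T.c (T.b (T.l 1) (T.l 204)) (T.b (T.l 1) (T.l 204)))) (T.l 204)) (T.b (T.a (T.l 1) (T.a (T.l 1) (T.l 204))) (T.l 204))) (T.l 204)) (T.b (T.c (T.b (T.a (T.l 1) (T.a (T.l 1) (T.l 204))) (T.l 204)) (T.b (T.a (T.l 1) (T.l 204)) (T.l 204))) (T.l 204))) (T.l 204)))) (T.a (T.l 476) (T.l 476)))) (T.a (T.b (T.a (T.c (T.b (T.c (T.a (T.b (T.c (T.b (T.c (T.b (T.l 1) (T.l 204)) (T.b (T.l 1) (T.l 204))) (T.l 204)) (T.a (T.b (T.c (T.b (T.l 1) (T.l 204)) (T.b (T.l 1) (T.l 204))) (T.l 204)) (T.l 204))) (T.l 204)) (T.l 204)) (T.a (T.b (T.a (T.c (T.b (T.c (T.b (T.l 1) (T.l 204)) (T.b (T.l 1) (T.l 204))) (T.l 204)) (T.l 204)) (T.l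 204)) (T.l 204)) (T.l 204))) (T.l 204)) (T.a (T.c (T.b (T.c (T.l 204) (T.l 204)) (T.l 204)) (T.l 204)) (T.l 204))) (T.c (T.c (T.l 204) (T.l 204)) (T.l 204))) (T.c (T.l 476) (T.l 476))) (T.b (T.a (T.c (T.l 204) (T.l 204)) (T.c (T.l 204) (T.l 204))) (T.l 476)))) (T.a (T.a (T.a (T.c (T.l 204) (T.l 204)) (T.l 476)) (T.a (T.l 476) (T.l 476))) (T.a (T.c (T.l 476) (T.l 476)) (T.c (T.l 476) (T.l 476))))), by decide +kernel⟩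

def B012E_000_1_3_1 :
    ∃ t, chk3 (onCell 0 33554432 0 1073741824 33554432 16777216 (corTK [] false 3 c0N cB012E gN0q0 gN0q2 gN0q1 gN1q1 true false)) t 1 3 1 = true :=
  ⟨(T.b (T.b (T.a (T.a (T.a (T.b (T.b (T.b (T.c (T.b (T.l 204) (T.l 204)) (T.l 204)) (T.c (T.b (T.l 204) (T.l 204)) (T.l 204))) (T.c (T.b (T.l 204) (T.l 204)) (T.l 204))) (T.c (T.b (T.b (T.l 204) (T.l 204)) (T.l 204)) (T.l 204))) (T.a (T.b (T.b (T.b (T.b (T.l 204) (T.l 204)) (T.l 220)) (T.b (T.l 204) (T.l 204))) (T.b (T.l 220) (T.l 204))) (T.b (T.b (T.a (T.b (T.l 476) (T.l 204)) (T.c (T.l 476) (T.l 204))) (T.a (T.l 220) (T.l 476))) (T.c (T.l 220) (T.l 0))))) (T.a (T.b (T.a (T.b (T.b (T.c (T.l 476) (T.l 204)) (T.b (T.l 476) (T.l 220))) (T.b (T.l 220) (T.l 204))) (T.b (T.c (T.l 476) (T.l 220)) (T.b (T.l 204) (T.l 220)))) (T.a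 (T.b (T.l 16) (T.l 0)) (T.b (T.l 476) (T.l 0)))) (T.b (T.a (T.b (T.c (T.b (T.l 476) (T.l 204)) (T.b (T.l 476) (T.l 204))) (T.b (T.l 476) (T.a (T.l 204) (T.l 220)))) (T.b (T.b (T.a (T.l 476) (T.b (T.l 476) (T.l 476))) (T.a (T.b (T.l 204) (T.l 204)) (T.l 476))) (T.a (T.b (T.l 476) (T.l 204)) (T.b (T.l 476) (T.l 204))))) (T.a (T.b (T.a (T.l 204) (T.b (T.l 204) (T.l 204))) (T.a (T.l 272) (T.l 272))) (T.b (T.a (T.b (T.l 204) (T.l 204)) (T.l 476)) (T.b (T.l 272) (T.l 272))))))) (T.a (T.a (T.b (T.a (T.b (T.b (T.a (T.b (T.l 476) (T.l 476)) (T.b (T.l 476) (T.l 476))) (T.a (T.l 476) (T.l 476))) (T.b (T.b (T.l 476) (T.l 476)) (T.b (T.l 476) (T.l 476)))) (T.b (T.b (T.a (T.b (T.l 476) (T.l 460)) (T.b (T.l 476) (T.l 204))) (T.a (T.l 476) (T.l 476))) (T.b (T.b (T.l 476) (T.l 476)) (T.l 476)))) (T.a (T.b (T.b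 (T.l 476) (T.l 272)) (T.b (T.l 0) (T.l 0))) (T.b (T.b (T.l 476) (T.l 476)) (T.b (T.l 0) (T.l 0))))) (T.b (T.b (T.a (T.b (T.a (T.b (T.l 476) (T.l 204)) (T.l 476)) (T.b (T.l 476) (T.l 476))) (T.b (T.a (T.l 476) (T.l 476)) (T.b (T.l 476) (T.l 476)))) (T.a (T.b (T.b (T.l 476) (T.l 204)) (T.l 476)) (T.b (T.l 476) (T.l 476)))) (T.b (T.a (T.b (T.l 476) (T.l 204)) (T.b (T.l 204) (T.l 204))) (T.a (T.l 272) (T.l 272))))) (T.b (T.a (T.b (T.a (T.b (T.b (T.l 476) (T.l 476)) (T.l 476)) (T.b (T.b (T.l 476) (T.l 476)) (T.l 476))) (T.a (T.b (T.l 476) (T.l 460)) (T.b (T.l 476) (T.l 204)))) (T.b (T.a (T.b (T.b (T.l 476) (T.l 460)) (T.l 476)) (T.b (T.l 476) (T.l 476))) (T.a (T.b (T.l 460) (T.l 204)) (T.l 476)))) (T.a (T.b (T.a (T.l 476) (T.l 476)) (T.b (T.l 272) (T.l 272))) (T.b (T.b (T.l 476) (T.l 476)) (T.b (T.l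 272) (T.l 0))))))) (T.a (T.a (T.a (T.b (T.c (T.b (T.l 204) (T.l 204)) (T.l 0)) (T.c (T.l 204) (T.l 0))) (T.a (T.c (T.l 220) (T.l 0)) (T.b (T.b (T.l 16) (T.l 0)) (T.l 16)))) (T.a (T.a (T.b (T.b (T.l 0) (T.l 0)) (T.b (T.l 0) (T.l 0))) (T.b (T.a (T.l 0) (T.b (T.l 16) (T.l 16))) (T.b (T.a (T.l 16) (T.l 0)) (T.b (T.l 16) (T.l 16))))) (T.a (T.b (T.b (T.a (T.l 16) (T.l 0)) (T.b (T.l 16) (T.l 16))) (T.b (T.b (T.l 16) (T.l 0)) (T.b (T.l 0) (T.l 0)))) (T.b (T.b (T.b (T.l 16) (T.l 0)) (T.b (T.l 0) (T.l 0))) (T.b (T.l 272) (T.l 16)))))) (T.a (T.a (T.b (T.a (T.b (T.b (T.l 0) (T.l 0)) (T.l 272)) (T.b (T.l 272) (T.l 0))) (T.a (T.b (T.l 0) (T.l 0)) (T.b (T.l 0) (T.l 0)))) (T.b (T.a (T.b (T.l 272) (T.l 0)) (T.b (T.l 0) (T.l 0))) (T.a (T.b (T.l 0) (T.l 0)) (T.l 272)))) (T.a (T.b (T.b (T.b (T.l 272) (T.l 272))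 (T.b (T.l 0) (T.l 0))) (T.b (T.l 272) (T.l 272))) (T.b (T.b (T.l 272) (T.l 272)) (T.b (T.l 272) (T.l 0))))))) (T.b (T.a (T.a (T.a (T.c (T.b (T.l 204) (T.l 204)) (T.l 0)) (T.a (T.b (T.l 0) (T.l 0)) (T.b (T.l 0) (T.b (T.l 0) (T.l 0))))) (T.a (T.a (T.b (T.a (T.l 0) (T.b (T.l 0) (T.l 0))) (T.a (T.b (T.l 0) (T.l 0)) (T.b (T.l 0) (T.l 0)))) (T.b (T.a (T.b (T.l 0) (T.l 0)) (T.b (T.l 0) (T.l 0))) (T.a (T.b (T.l 0) (T.l 0)) (T.l 16)))) (T.a (T.b (T.a (T.l 272) (T.l 16)) (T.b (T.l 16) (T.l 16))) (T.b (T.b (T.l 16) (T.l 0)) (T.b (T.l 0) (T.l 0)))))) (T.a (T.a (T.b (T.a (T.b (T.l 0) (T.l 0)) (T.l 272)) (T.a (T.l 272) (T.l 272))) (T.b (T.b (T.l 272) (T.l 272)) (T.b (T.l 272) (T.l 272)))) (T.a (T.b (T.b (T.l 16) (T.l 0)) (T.b (T.l 0) (T.l 0))) (T.b (T.b (T.l 0) (T.l 0)) (T.l 272))))) (T.a (T.a (T.a (T.c (T.b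 (T.l 204) (T.l 204)) (T.l 0)) (T.a (T.b (T.l 0) (T.l 0)) (T.a (T.l 16) (T.b (T.l 0) (T.b (T.l 0) (T.l 0)))))) (T.a (T.a (T.b (T.a (T.b (T.l 0) (T.l 0)) (T.b (T.l 0) (T.l 0))) (T.a (T.b (T.l 0) (T.l 0)) (T.l 16))) (T.b (T.a (T.l 16) (T.l 16)) (T.b (T.l 16) (T.l 16)))) (T.a (T.b (T.b (T.l 16) (T.l 0)) (T.b (T.l 0) (T.l 0))) (T.b (T.b (T.l 0) (T.l 0)) (T.l 272))))) (T.a (T.a (T.a (T.b (T.l 272) (T.l 16)) (T.b (T.l 16) (T.l 0))) (T.b (T.b (T.l 16) (T.l 16)) (T.b (T.l 16) (T.l 16)))) (T.a (T.b (T.l 272) (T.l 272)) (T.b (T.l 272) (T.l 272))))))), by decide +kernel⟩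

theorem B012E_000_2_383_1 :
    ∃ t, chk3 (onCell 0 33554432 0 1073741824 33554432 16777216 (corTK [] false 3 c0N cB012E gN0q0 gN0q2 gN0q1 gN1q1 true false)) t 2 383 1 = true :=
  ex3_a B012E_000_4_383_1 B012E_000_5_383_1
theorem B012E_000_2_191_1 :
    ∃ t, chk3 (onCell 0 33554432 0 1073741824 33554432 16777216 (corTK [] false 3 c0N cB012E gN0q0 gN0q2 gN0q1 gN1q1 true false)) t 2 191 1 = true :=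
  ex3_b B012E_000_2_382_1 B012E_000_2_383_1
theorem B012E_000_1_191_1 :
    ∃ t, chk3 (onCell 0 33554432 0 1073741824 33554432 16777216 (corTK [] false 3 c0N cB012E gN0q0 gN0q2 gN0q1 gN1q1 true false)) t 1 191 1 = true :=
  ex3_a B012E_000_2_191_1 B012E_000_3_191_1
theorem B012E_000_15_381_1 :
    ∃ t, chk3 (onCell 0 33554432 0 1073741824 33554432 16777216 (corTK [] false 3 c0N cB012E gN0q0 gN0q2 gN0q1 gN1q1 true false)) t 15 381 1 = true :=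
  ex3_a B012E_000_30_381_1 B012E_000_31_381_1
theorem B012E_000_7_381_1 :
    ∃ t, chk3 (onCell 0 33554432 0 1073741824 33554432 16777216 (corTK [] false 3 c0N cB012E gN0q0 gN0q2 gN0q1 gN1q1 true false)) t 7 381 1 = true :=
  ex3_a B012E_000_14_381_1 B012E_000_15_381_1
theorem B012E_000_7_190_1 :
    ∃ t, chk3 (onCell 0 33554432 0 1073741824 33554432 16777216 (corTK [] false 3 c0N cB012E gN0q0 gN0q2 gN0q1 gN1q1 true false)) t 7 190 1 = true :=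
  ex3_b B012E_000_7_380_1 B012E_000_7_381_1
theorem B012E_000_3_190_1 :
    ∃ t, chk3 (onCell 0 33554432 0 1073741824 33554432 16777216 (corTK [] false 3 c0N cB012E gN0q0 gN0q2 gN0q1 gN1q1 true false)) t 3 190 1 = true :=
  ex3_a B012E_000_6_190_1 B012E_000_7_190_1
theorem B012E_000_1_190_1 :
    ∃ t, chk3 (onCell 0 33554432 0 1073741824 33554432 16777216 (corTK [] false 3 c0N cB012E gN0q0 gN0q2 gN0q1 gN1q1 true false)) t 1 190 1 = true :=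
  ex3_a B012E_000_2_190_1 B012E_000_3_190_1
theorem B012E_000_1_95_1 :
    ∃ t, chk3 (onCell 0 33554432 0 1073741824 33554432 16777216 (corTK [] false 3 c0N cB012E gN0q0 gN0q2 gN0q1 gN1q1 true false)) t 1 95 1 = true :=
  ex3_b B012E_000_1_190_1 B012E_000_1_191_1
theorem B012E_000_1_47_1 :
    ∃ t, chk3 (onCell 0 33554432 0 1073741824 33554432 16777216 (corTK [] false 3 c0N cB012E gN0q0 gN0q2 gN0q1 gN1q1 true false)) t 1 47 1 = true :=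
  ex3_b B012E_000_1_94_1 B012E_000_1_95_1
theorem B012E_000_1_23_1 :
    ∃ t, chk3 (onCell 0 33554432 0 1073741824 33554432 16777216 (corTK [] false 3 c0N cB012E gN0q0 gN0q2 gN0q1 gN1q1 true false)) t 1 23 1 = true :=
  ex3_b B012E_000_1_46_1 B012E_000_1_47_1
theorem B012E_000_1_11_1 :
    ∃ t, chk3 (onCell 0 33554432 0 1073741824 33554432 16777216 (corTK [] false 3 c0N cB012E gN0q0 gN0q2 gN0q1 gN1q1 true false)) t 1 11 1 = true :=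
  ex3_b B012E_000_1_22_1 B012E_000_1_23_1
theorem B012E_000_1_5_1 :
    ∃ t, chk3 (onCell 0 33554432 0 1073741824 33554432 16777216 (corTK [] false 3 c0N cB012E gN0q0 gN0q2 gN0q1 gN1q1 true false)) t 1 5 1 = true :=
  ex3_b B012E_000_1_10_1 B012E_000_1_11_1
theorem B012E_000_1_2_1 :
    ∃ t, chk3 (onCell 0 33554432 0 1073741824 33554432 16777216 (corTK [] false 3 c0N cB012E gN0q0 gN0q2 gN0q1 gN1q1 true false)) t 1 2 1 = true :=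
  ex3_b B012E_000_1_4_1 B012E_000_1_5_1
theorem B012E_000 :
    ∃ t, chk3 (onCell 0 33554432 0 1073741824 33554432 16777216 (corTK [] false 3 c0N cB012E gN0q0 gN0q2 gN0q1 gN1q1 true false)) t 1 1 1 = true :=
  ex3_b B012E_000_1_2_1 B012E_000_1_3_1

def B012E_010 :
    ∃ t, chk3 (onCell 0 33554432 0 1073741824 33554432 16777216 (corTK [] false 3 c0N cB012E gN0q0 gN1q2 gN0q1 gN1q1 true false)) t 1 1 1 = true :=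
  ⟨(T.b (T.l 1) (T.b (T.b (T.l 1) (T.a (T.a (T.a (T.b (T.l 816) (T.l 816)) (T.a (T.b (T.l 816) (T.l 816)) (T.b (T.b (T.l 1) (T.l 816)) (T.l 816)))) (T.a (T.a (T.b (T.b (T.l 1) (T.l 816)) (T.l 816)) (T.b (T.b (T.l 1) (T.b (T.l 884) (T.l 820))) (T.b (T.l 884) (T.l 816)))) (T.b (T.b (T.l 1) (T.a (T.b (T.l 884) (T.l 816)) (T.l 884))) (T.a (T.b (T.l 820) (T.l 816)) (T.b (T.l 816) (T.l 816)))))) (T.a (T.a (T.b (T.b (T.l 1) (T.a (T.l 884) (T.l 820))) (T.a (T.b (T.l 816) (T.l 816)) (T.l 884))) (T.b (T.b (T.l 1) (T.a (T.l 816) (T.l 884))) (T.a (T.l 820) (T.l 820)))) (T.b (T.b (T.l 1) (T.a (T.b (T.l 884) (T.l 884)) (T.b (T.l 884) (T.l 820)))) (T.a (T.b (T.b (T.l 820) (T.l 816)) (T.l 816)) (T.b (T.l 884) (T.l 816))))))) (T.b (T.a (T.a (T.a (T.l 816) (T.a (T.l 816) (T.l 816))) (T.a (T.a (T.b (T.b (T.l 816)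 (T.l 816)) (T.b (T.l 816) (T.l 816))) (T.b (T.b (T.l 816) (T.l 816)) (T.l 816))) (T.a (T.b (T.l 816) (T.l 816)) (T.b (T.l 816) (T.l 816))))) (T.a (T.a (T.b (T.b (T.l 820) (T.l 820)) (T.b (T.l 816) (T.l 816))) (T.b (T.b (T.l 816) (T.l 816)) (T.l 820))) (T.b (T.a (T.l 820) (T.b (T.l 816) (T.l 816))) (T.a (T.l 816) (T.l 816))))) (T.a (T.a (T.a (T.l 816) (T.a (T.l 816) (T.b (T.l 816) (T.b (T.l 816) (T.l 816))))) (T.a (T.a (T.b (T.b (T.l 816) (T.l 816)) (T.l 816)) (T.b (T.l 816) (T.l 816))) (T.a (T.b (T.l 816) (T.l 816)) (T.b (T.l 816) (T.l 816))))) (T.a (T.a (T.a (T.l 820) (T.l 816)) (T.b (T.l 816) (T.l 816))) (T.a (T.b (T.l 816) (T.l 816)) (T.b (T.l 816) (T.l 816)))))))), by decide +kernel⟩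

def B012E_020 :
    ∃ t, chk3 (onCell 0 33554432 0 1073741824 33554432 16777216 (corTK [[⟨0, 0, 1, 25165824⟩, ⟨1, 1, 0, 16777216⟩, ⟨2, 1, 1, 25165824⟩, ⟨0, 0, 0, 67108864⟩, ⟨0, 1, 0, 1056964608⟩, ⟨2, 1, 0, 67108864⟩, ⟨2, 2, 0, 1056964608⟩]] false 3 c0N cB012E gN0q0 gN2q2 gN0q1 gN1q1 true false)) t 1 1 1 = true :=
  ⟨(T.b (T.l 1) (T.b (T.l 1) (T.b (T.l 1) (T.b (T.l 1) (T.b (T.l 1) (T.b (T.l 1) (T.b (T.l 1) (T.b (T.l 1) (T.a (T.c (T.b (T.l 1) (T.a (T.a (T.l 816) (T.c (T.a (T.a (T.l 816) (T.l 816)) (T.l 816)) (T.a (T.l 816) (T.l 816)))) (T.c (T.b (T.l 1) (T.a (T.a (T.l 816) (T.l 816)) (T.c (T.b (T.l 1) (T.a (T.a (T.l 816) (T.l 816)) (T.a (T.l 880) (T.a (T.l 880) (T.l 884))))) (T.b (T.l 1) (T.a (T.a (T.l 816) (T.l 816)) (T.a (T.l 880) (T.a (T.l 880) (T.l 884)))))))) (T.b (T.l 1) (T.a (T.a (T.l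 816) (T.l 816)) (T.c (T.b (T.l 1) (T.a (T.a (T.l 816) (T.l 816)) (T.a (T.l 816) (T.a (T.l 816) (T.l 884))))) (T.b (T.l 1) (T.a (T.a (T.l 816) (T.l 816)) (T.a (T.l 816) (T.a (T.l 816) (T.l 884))))))))))) (T.b (T.l 1) (T.a (T.a (T.l 816) (T.c (T.a (T.l 816) (T.l 816)) (T.a (T.l 816) (T.l 816)))) (T.c (T.b (T.l 1) (T.a (T.a (T.l 816) (T.l 816)) (T.c (T.b (T.l 1) (T.a (T.a (T.l 816) (T.l 816)) (T.a (T.l 816) (T.a (T.l 816) (T.l 884))))) (T.b (T.l 1) (T.a (T.a (T.l 816) (T.l 816)) (T.a (T.l 816) (T.l 884))))))) (T.b (T.l 1) (T.a (T.a (T.l 816) (T.l 816)) (T.c (T.b (T.l 1) (T.a (T.a (T.l 816) (T.l 816)) (T.a (T.l 816) (T.l 884)))) (T.a (T.l 880) (T.a (T.l 816) (T.l 884)))))))))) (T.c (T.a (T.a (T.a (T.b (T.l 1) (T.a (T.c (T.b (T.l 1) (T.a (T.a (T.l 884) (T.l 1024)) (T.l 1024))) (T.b (T.l 1) (T.a (T.l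 884) (T.l 1024)))) (T.l 1024))) (T.l 1024)) (T.l 1024)) (T.l 1024)) (T.b (T.l 1) (T.a (T.c (T.b (T.l 1) (T.a (T.c (T.b (T.l 1) (T.a (T.a (T.l 884) (T.l 884)) (T.a (T.l 884) (T.l 1024)))) (T.b (T.l 1) (T.a (T.a (T.l 884) (T.l 884)) (T.a (T.l 884) (T.l 884))))) (T.a (T.a (T.c (T.l 1024) (T.l 884)) (T.l 1024)) (T.l 1024)))) (T.b (T.l 1) (T.a (T.c (T.b (T.l 1) (T.a (T.a (T.l 884) (T.l 884)) (T.a (T.l 884) (T.l 884)))) (T.b (T.l 1) (T.a (T.a (T.l 884) (T.l 884)) (T.a (T.l 884) (T.l 884))))) (T.c (T.b (T.l 1) (T.a (T.a (T.l 884) (T.l 884)) (T.a (T.l 884) (T.l 1024)))) (T.b (T.l 1) (T.a (T.a (T.l 884) (T.l 884)) (T.a (T.l 884) (T.l 884)))))))) (T.a (T.a (T.c (T.l 1024) (T.a (T.a (T.l 884) (T.l 1024)) (T.l 1024))) (T.l 1024)) (T.l 1024)))))))))))))), by decide +kernel⟩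

def B012E_100 :
    ∃ t, chk3 (onCell 0 33554432 0 1073741824 33554432 16777216 (corTK [] false 3 c0N cB012E gN1q0 gN0q2 gN0q1 gN1q1 true false)) t 1 1 1 = true :=
  ⟨(T.b (T.b (T.b (T.l 1) (T.b (T.l 1) (T.a (T.a (T.l 204) (T.l 204)) (T.l 204)))) (T.b (T.a (T.a (T.l 204) (T.l 204)) (T.l 0)) (T.a (T.a (T.l 204) (T.l 0)) (T.l 0)))) (T.b (T.a (T.a (T.l 204) (T.b (T.l 0) (T.l 0))) (T.b (T.l 0) (T.l 0))) (T.b (T.a (T.a (T.a (T.l 204) (T.l 204)) (T.l 0)) (T.l 0)) (T.a (T.a (T.a (T.l 204) (T.l 0)) (T.l 0)) (T.l 0))))), by decide +kernel⟩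

def B012E_110 :
    ∃ t, chk3 (onCell 0 33554432 0 1073741824 33554432 16777216 (corTK [] false 3 c0N cB012E gN1q0 gN1q2 gN0q1 gN1q1 true false)) t 1 1 1 = true :=
  ⟨(T.b (T.b (T.l 1) (T.a (T.a (T.l 204) (T.l 0)) (T.l 0))) (T.b (T.a (T.a (T.l 204) (T.l 0)) (T.l 0)) (T.b (T.a (T.a (T.l 204) (T.l 204)) (T.l 0)) (T.a (T.a (T.a (T.l 204) (T.l 204)) (T.l 204)) (T.l 204))))), by decide +kernel⟩

def B012E_120 :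
    ∃ t, chk3 (onCell 0 33554432 0 1073741824 33554432 16777216 (corTK [] false 3 c0N cB012E gN1q0 gN2q2 gN0q1 gN1q1 true false)) t 1 1 1 = true :=
  ⟨(T.b (T.b (T.l 1) (T.b (T.l 1) (T.b (T.l 1) (T.a (T.a (T.l 204) (T.l 1)) (T.l 1))))) (T.b (T.a (T.a (T.a (T.l 204) (T.l 204)) (T.l 0)) (T.l 0)) (T.b (T.a (T.a (T.a (T.l 204) (T.l 204)) (T.l 204)) (T.l 0)) (T.a (T.a (T.a (T.l 204) (T.l 204)) (T.l 0)) (T.l 0))))), by decide +kernel⟩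

def B012E_200 :
    ∃ t, chk3 (onCell 0 33554432 0 1073741824 33554432 16777216 (corTK [] false 3 c0N cB012E gN2q0 gN0q2 gN0q1 gN1q1 true false)) t 1 1 1 = true :=
  ⟨(T.b (T.b (T.b (T.a (T.a (T.a (T.l 204) (T.l 204)) (T.l 204)) (T.l 204)) (T.a (T.a (T.l 204) (T.l 204)) (T.l 0))) (T.a (T.a (T.l 204) (T.b (T.l 204) (T.l 0))) (T.b (T.l 0) (T.l 0)))) (T.b (T.a (T.a (T.l 204) (T.l 0)) (T.l 0)) (T.b (T.a (T.a (T.a (T.l 204) (T.l 204)) (T.l 204)) (T.l 0)) (T.a (T.a (T.a (T.l 204) (T.l 204)) (T.l 0)) (T.l 0))))), by decide +kernel⟩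

def B012E_210 :
    ∃ t, chk3 (onCell 0 33554432 0 1073741824 33554432 16777216 (corTK [] false 3 c0N cB012E gN2q0 gN1q2 gN0q1 gN1q1 true false)) t 1 1 1 = true :=
  ⟨(T.b (T.b (T.b (T.a (T.a (T.a (T.l 204) (T.l 204)) (T.l 204)) (T.l 204)) (T.a (T.a (T.l 204) (T.l 204)) (T.l 0))) (T.a (T.a (T.l 204) (T.l 0)) (T.l 0))) (T.b (T.a (T.a (T.l 204) (T.l 0)) (T.l 0)) (T.b (T.a (T.a (T.l 204) (T.l 204)) (T.l 0)) (T.a (T.a (T.a (T.l 204) (T.l 204)) (T.l 204)) (T.l 204))))), by decide +kernel⟩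

def B012E_220 :
    ∃ t, chk3 (onCell 0 33554432 0 1073741824 33554432 16777216 (corTK [] false 3 c0N cB012E gN2q0 gN2q2 gN0q1 gN1q1 true false)) t 1 1 1 = true :=
  ⟨(T.b (T.b (T.b (T.a (T.a (T.a (T.l 204) (T.l 204)) (T.l 204)) (T.l 204)) (T.a (T.a (T.l 204) (T.l 204)) (T.l 204))) (T.a (T.a (T.l 204) (T.l 0)) (T.l 0))) (T.b (T.a (T.a (T.a (T.l 204) (T.l 204)) (T.l 0)) (T.l 0)) (T.b (T.a (T.a (T.a (T.l 204) (T.l 204)) (T.l 204)) (T.l 0)) (T.a (T.a (T.a (T.l 204) (T.l 204)) (T.l 204)) (T.l 204))))), by decide +kernel⟩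

def B012L_040 :
    ∃ t, chk3 (onCell 0 33554432 0 1073741824 33554432 16777216 (corTK [] false 3 c0N cB012L gN0q0 gN4q2 gN0q1 gN1q1 true false)) t 1 1 1 = true :=
  ⟨(T.l 1), by decide +kernel⟩

def B012L_140 :
    ∃ t, chk3 (onCell 0 33554432 0 1073741824 33554432 16777216 (corTK [] false 3 c0N cB012L gN1q0 gN4q2 gN0q1 gN1q1 true false)) t 1 1 1 = true :=
  ⟨(T.l 1), by decide +kernel⟩

def B012L_240 :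
    ∃ t, chk3 (onCell 0 33554432 0 1073741824 33554432 16777216 (corTK [] false 3 c0N cB012L gN2q0 gN4q2 gN0q1 gN1q1 true false)) t 1 1 1 = true :=
  ⟨(T.l 1), by decide +kernel⟩

end Pool.Agent.Strip051.G.I1_32_3_64.Tab.CN
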