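import Pool.Agent.Strip051.G.I1_32_3_64.Tab
import Pool.Agent.Strip051.PB.RowK

/-! # Certificates N0 (generated) -/

set_option linter.all false
set_option maxRecDepth 100000

namespace Pool.Agent.Strip051.G.I1_32_3_64.Tab.C.NA00

open Pool.Agent.Strip051.PB Pool.Agent.Strip051.PB.T
open Pool.Agent.Strip051.G.I1_32_3_64.Tab

noncomputable def f_pp_001 : ℕ → ℕ → ℕ → ℕ → Bool := onCell 0 536870912 0 536870912 33554432 16777216
    (rowNK 3 0 true true true .up 0 0 1 (qsf 0 536870912 0 536870912 1) ndN0q0 ndN0q0 pcN1 Cut.none Ext.none)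

def k0_pp_001 : ∃ t, chk3 f_pp_001 t 1 1 1 = true :=
  ⟨(l 4), by decide +kernel⟩

theorem c_pp_001 : CertN 0 536870912 0 536870912 33554432 16777216 3 true true true .up 0 0 1
    ndN0q0 ndN0q0 pcN1 Cut.none Ext.none :=
  certNK0 (fam := true) (s1 := true) (s2 := true) (a := 0) (b := 0) (c := 1) (cn := .up) (n1 := ndN0q0) (n2 := ndN0q0) (pc := pcN1) (cut := Cut.none) (xt := Ext.none) (P1 := 0) (W1 := 536870912) (P2 := 0) (W2 := 536870912) (P3 := 33554432) (W3 := 16777216) (N0 := 3)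
    rfl rfl rfl k0_pp_001

noncomputable def cut_pp_011 : Cut := Cut.of [[⟨0, 0, 0, 33554432⟩, ⟨1, 1, 0, 33554432⟩, ⟨2, 1, 0, 33554432⟩]]

noncomputable def f_pp_011 : ℕ → ℕ → ℕ → ℕ → Bool := onCell 0 536870912 536870912 536870912 33554432 16777216
    (rowNK 3 0 true true true .pnn 0 1 1 (qsf 0 536870912 536870912 536870912 1) ndN0q0 ndN0q1 pcN1 cut_pp_011 Ext.none)

def k0_pp_011 : ∃ t, chk3 f_pp_011 t 1 1 1 = true :=
  ⟨(a (b (l 4) (a (b (l 4) (b (l 4) (a (a (a (b (l 4) (b (l 4) (l 6))) (l 4)) (l 4)) (l 4)))) (l 4))) (l 4)), by decide +kernel⟩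

theorem c_pp_011 : CertN 0 536870912 536870912 536870912 33554432 16777216 3 true true true .pnn 0 1 1
    ndN0q0 ndN0q1 pcN1 cut_pp_011 Ext.none :=
  certNK0 (fam := true) (s1 := true) (s2 := true) (a := 0) (b := 1) (c := 1) (cn := .pnn) (n1 := ndN0q0) (n2 := ndN0q1) (pc := pcN1) (cut := cut_pp_011) (xt := Ext.none) (P1 := 0) (W1 := 536870912) (P2 := 536870912) (W2 := 536870912) (P3 := 33554432) (W3 := 16777216) (N0 := 3)
    rfl rfl rfl k0_pp_011

noncomputable def cut_pp_012 : Cut := Cut.of [[⟨0, 0, 0, 33554432⟩, ⟨1, 1, 0, 33554432⟩, ⟨2, 1, 0, 33554432⟩]]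

noncomputable def f_pp_012 : ℕ → ℕ → ℕ → ℕ → Bool := onCell 0 536870912 536870912 536870912 33554432 16777216
    (rowNK 3 0 true true true .pnp 0 1 2 (qsf 0 536870912 536870912 536870912 2) ndN0q0 ndN0q1 pcN2 cut_pp_012 Ext.none)

def k0_pp_012 : ∃ t, chk3 f_pp_012 t 1 1 1 = true :=
  ⟨(a (b (l 4) (b (l 4) (a (b (l 4) (a (b (l 4) (a (b (l 4) (a (l 6) (l 4))) (l 4))) (l 4))) (l 4)))) (l 4)), by decide +kernel⟩

theorem c_pp_012 : CertN 0 536870912 536870912 536870912 33554432 16777216 3 true true true .pnp 0 1 2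
    ndN0q0 ndN0q1 pcN2 cut_pp_012 Ext.none :=
  certNK0 (fam := true) (s1 := true) (s2 := true) (a := 0) (b := 1) (c := 2) (cn := .pnp) (n1 := ndN0q0) (n2 := ndN0q1) (pc := pcN2) (cut := cut_pp_012) (xt := Ext.none) (P1 := 0) (W1 := 536870912) (P2 := 536870912) (W2 := 536870912) (P3 := 33554432) (W3 := 16777216) (N0 := 3)
    rfl rfl rfl k0_pp_012

noncomputable def cut_pp_022 : Cut := Cut.of [[⟨0, 0, 0, 33554432⟩, ⟨1, 1, 0, 33554432⟩, ⟨2, 1, 0, 33554432⟩]]

noncomputable def f_pp_022 : ℕ → ℕ → ℕ → ℕ → Bool := onCell 0 536870912 0 536870912 33554432 16777216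
    (rowNK 3 0 true true true .pp 0 2 2 (qsf 0 536870912 0 536870912 2) ndN0q0 ndN0q2 pcN2 cut_pp_022 Ext.none)

def k0_pp_022 : ∃ t, chk3 f_pp_022 t 2 2 1 = true :=
  ⟨(a (a (b (l 19087280) (a (l 19220728) (l 18794216))) (b (l 18440392) (b (l 18341744) (l 18230040)))) (b (a (l 17951896) (l 17522776)) (a (b (l 17834112) (l 17735048)) (b (l 17409640) (a (l 17395728) (l 17205576)))))), by decide +kernel⟩

def k1_pp_022 : ∃ t, chk3 f_pp_022 t 4 6 1 = true :=
  ⟨(a (b (a (l 18988944) (l 18528784)) (a (a (b (l 18866568) (l 18614576)) (l 18506488)) (b (l 18265184) (l 17994000)))) (b (a (l 18148376) (l 17836680)) (a (b (l 17869848) (l 17446704)) (b (l 17551048) (b (l 17378120) (l 17084624)))))), by decide +kernel⟩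

def k2_pp_022 : ∃ t, chk3 f_pp_022 t 8 14 1 = true :=
  ⟨(a (b (a (b (a (l 18383808) (l 18320448)) (a (a (l 17928264) (l 18131816)) (l 18112560))) (b (l 18170952) (l 17995872))) (b (a (a (c (a (l 17820480) (l 18057384)) (b (a (l 17446920) (l 17670752)) (a (a (l 17094368) (l 17352464)) (l 17348600)))) (b (l 17924488) (a (l 17748136) (l 17782656)))) (a (l 17823984) (l 17749016))) (b (a (a (c (a (a (l 17528960) (l 17716232)) (l 17775944)) (a (a (b (l 17014480) (l 16884672)) (l 16890768)) (a (l 17034776) (l 17220392)))) (c (l 17815440) (a (l 17162816) (l 17446400)))) (a (l 17549200) (l 17581376))) (a (a (a (a (b (c (l 17279896) (l 16733048)) (l 16760888)) (c (c (l 17609176) (l 17064168)) (l 16738776))) (c (a (l 17369192) (l 17569792)) (a (l 16767888) (l 16819824)))) (a (c (l 17620584) (a (l 16931560) (l 17086544))) (b (l 17419224) (l 17181960)))) (a (a (l 17361248) (l 17488824)) (l 17459048)))))) (b (a (l 17865408) (l 17648424)) (a (b (l 17602568) (a (l 17421096)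 (l 17348152))) (b (l 17396152) (a (l 17249728) (l 17068416)))))), by decide +kernel⟩

def k3_pp_022 : ∃ t, chk3 f_pp_022 t 32 30 1 = true :=
  ⟨(a (b (a (a (a (b (l 16739144) (l 16746472)) (b (l 16739800) (l 16744488))) (b (l 16740776) (b (l 16744280) (l 16746576)))) (b (b (c (a (l 17154512) (l 17380040)) (l 16741224)) (b (l 16743088) (l 16741496))) (a (b (l 16745504) (l 16747776)) (b (l 16757096) (l 16748936))))) (b (b (a (a (a (l 6) (l 16748008)) (l 16750216)) (a (l 16750072) (l 16751208))) (a (l 6) (a (l 16754424) (l 16753560)))) (a (l 6) (a (l 6) (b (a (l 16755720) (l 16756248)) (l 6)))))) (a (a (b (b (c (b (l 17437048) (l 17291248)) (l 16743624)) (b (l 16781408) (l 16753376))) (b (b (l 16752304) (l 16754624)) (b (b (l 16756416) (l 16757632)) (b (l 16758848) (l 6))))) (b (b (c (l 17358512) (b (l 17020856) (l 16897768))) (c (b (l 17202992) (l 16949440)) (l 16752456))) (b (b (l 16753360) (l 16755656)) (b (l 16759336) (b (l 16759832) (l 16761048)))))) (b (b (c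 (l 17295056) (a (l 16787288) (l 16911160))) (a (c (b (l 17292624) (l 17115688)) (l 16751576)) (c (l 17042552) (l 16753752)))) (b (b (a (l 16757888) (l 16777176)) (a (l 16756656) (l 16761840))) (b (a (l 16758992) (l 16759936)) (a (b (l 16760776) (l 16761976)) (b (l 16761696) (l 16762880)))))))), by decide +kernel⟩

def k4_pp_022 : ∃ t, chk3 f_pp_022 t 33 30 1 = true :=
  ⟨(a (a (b (b (b (l 17260632) (l 17028472)) (c (b (l 17350024) (l 17258312)) (b (a (l 17008744) (l 17054456)) (l 16754512)))) (b (b (a (a (l 16866408) (l 16892200)) (a (l 16913960) (l 16932128))) (a (l 16782320) (l 16793216))) (b (a (l 16759944) (l 16762408)) (a (b (l 16762664) (l 16763832)) (l 16765632))))) (b (b (l 17111896) (a (b (l 17179744) (l 17035488)) (l 16940976))) (b (a (b (l 16911512) (l 16830168)) (b (l 16972504) (l 16854488))) (b (a (l 16772568) (l 16781264)) (a (l 16766744) (l 16768128)))))) (a (b (b (l 17316920) (b (l 17232864) (l 17077608))) (b (a (b (l 17024704) (l 16910672)) (b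 (l 17069824) (l 16958800))) (b (a (l 16799408) (l 16829392)) (b (a (l 16834648) (l 16866464)) (a (l 16804552) (l 16816400)))))) (b (b (l 17316992) (l 17038448)) (b (b (l 17043272) (a (l 16979504) (l 17016000))) (b (a (l 16873080) (l 16890024)) (a (b (l 16869416) (l 16840904)) (b (l 16887104) (l 16858864)))))))), by decide +kernel⟩

def k5_pp_022 : ∃ t, chk3 f_pp_022 t 32 31 1 = true :=
  ⟨(b (a (l 6) (b (a (a (l 6) (b (b (l 16762272) (l 6)) (l 6))) (b (a (b (l 16763184) (l 16764392)) (b (l 16764072) (l 16765264))) (a (b (l 6) (l 6)) (b (l 16767776) (a (l 6) (l 16767864)))))) (l 6))) (l 6)), by decide +kernel⟩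

def k6_pp_022 : ∃ t, chk3 f_pp_022 t 33 124 1 = true :=
  ⟨(a (a (b (a (b (l 16765008) (l 16766184)) (b (l 16765976) (l 16767144))) (a (b (l 16768672) (a (l 16768312) (l 16768776))) (b (l 16768960) (a (l 16769240) (l 16769704))))) (b (a (b (l 16777872) (l 16768104)) (b (l 16774136) (l 16769696))) (a (b (l 16769904) (a (l 16770160) (l 16770624))) (a (b (l 16769960) (l 16771088)) (b (l 16777400) (l 16771552)))))) (b (a (a (b (l 16797944) (l 16773536)) (b (l 16789568) (c (l 16873776) (l 16772680)))) (a (b (l 16814400) (a (l 16811152) (l 16811168))) (b (l 16811424) (a (l 16809528) (l 16806424))))) (a (a (a (b (l 16790016) (l 16774656)) (b (l 16778376) (l 16773304))) (a (b (l 16784816) (l 16776808)) (b (l 16788728) (a (l 16782288) (l 16783440))))) (a (b (a (l 16790424) (l 16779680)) (b (a (l 16777440) (l 16776808)) (a (l 16780688) (l 16779720)))) (b (a (l 16777712) (a (l 16785720) (l 16783640))) (b (a (l 16784928) (l 16781040)) (a (c (l 16784776) (l 16779728)) (a (l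 16779192) (a (l 16780000) (b (l 16783312) (b (l 16780336) (b (l 16778936) (a (l 17414752679) (l 54995716535)))))))))))))), by decide +kernel⟩

def k7_pp_022 : ∃ t, chk3 f_pp_022 t 66 250 1 = true :=
  ⟨(a (a (a (b (l 16769496) (l 6)) (b (l 16769952) (l 16771776))) (a (b (l 16770400) (a (l 16771456) (l 16771672))) (b (l 16770856) (a (l 16777136) (l 16777360))))) (a (a (b (l 16773928) (a (l 16774960) (l 16775184))) (b (a (l 16771648) (l 16771880)) (b (l 16772616) (l 16778424)))) (a (b (a (l 16772104) (l 16777576)) (b (l 16778304) (l 16778864))) (b (a (l 16777808) (l 16778032)) (b (l 16778760) (l 16776688)))))), by decide +kernel⟩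

def k8_pp_022 : ∃ t, chk3 f_pp_022 t 132 251 1 = true :=
  ⟨(b (a (l 6) (a (l 6) (b (l 16778112) (l 16775400)))) (l 6)), by decide +kernel⟩

def k9_pp_022 : ∃ t, chk3 f_pp_022 t 133 502 1 = true :=
  ⟨(a (a (b (l 16775928) (a (l 16779000) (l 16779216))) (b (l 16776360) (b (l 16779408) (a (l 16779576) (l 16780072))))) (a (b (a (l 16779312) (l 16779536)) (b (l 16777576) (a (l 16780864) (l 16779032)))) (b (b (a (l 16784856) (l 16780056)) (l 16778104)) (b (l 16777848) (a (l 16779832) (a (l 16779112) (a (l 16779408) (b (l 16778032) (b (l 16778424) (b (c (l 15804140535) (l 16877882423)) (a (l 36205235367) (l 79691779319)))))))))))), by decide +kernel⟩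

def k10_pp_022 : ∃ t, chk3 f_pp_022 t 266 503 1 = true :=
  ⟨(a (b (b (l 16776912) (l 16777576)) (b (a (l 6) (l 16779032)) (l 6))) (b (b (l 16776800) (c (l 16777832) (l 16777880))) (b (a (l 16778520) (a (l 16779120) (a (l 16779416) (b (l 16780664) (b (l 16778440) (b (l 16778872) (a (c (l 26004687895) (l 27615300711)) (l 65733135207)))))))) (b (a (l 16779320) (a (a (a (l 16779112) (b (l 16778424) (b (l 16778616) (b (l 26004688023) (a (l 48016395463) (l 79691779255)))))) (b (l 16778896) (b (a (c (l 24930946151) (l 26004687975)) (c (l 64122522519) (l 72712456951))) (l 84523617671)))) (b (a (a (b (l 16778648) (a (b (l 16778712) (l 71638715655)) (l 73249328471))) (b (b (l 28152171671) (c (l 62511910023) (l 64122522839))) (l 4))) (l 87207972263)) (l 4)))) (a (a (l 6) (a (l 6) (b (b (l 16778960) (a (c (l 23857204327) (l 24930946151)) (c (l 62511909911) (l 71638715127)))) (l 86671101447)))) (b (b (a (b (a (a (a (l 16778712) (l 59290684631)) (l 4)) (l 4)) (l 86671101447))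 (l 4)) (l 4)) (l 4))))))), by decide +kernel⟩

def k11_pp_022 : ∃ t, chk3 f_pp_022 t 267 1006 1 = true :=
  ⟨(a (b (a (l 16779304) (l 16778784)) (a (l 16779056) (a (b (l 16780696) (b (c (l 6677335079) (l 16778816)) (b (a (l 16778568) (a (c (l 29225913335) (l 30836526167)) (l 75396812167))) (a (a (l 16778648) (c (c (l 41037073367) (l 42110815239)) (l 43184557175))) (l 86671101287))))) (a (b (l 16779680) (b (b (a (l 16778640) (c (c (l 42110815191) (l 43184557063)) (l 44258298983))) (a (l 56606330071) (l 4))) (l 4))) (b (b (l 16778432) (b (l 14193528039) (a (c (l 30299655159) (l 31910267991)) (l 76470553911)))) (l 4)))))) (b (b (a (l 16779312) (a (b (a (l 16778368) (c (l 11509173303) (l 12046044311))) (b (a (l 16778560) (a (c (l 33520880599) (l 35131493431)) (l 78618037511))) (a (a (l 16778632) (l 47479524551)) (l 4)))) (a (b (b (a (l 16778792) (l 48553266359)) (l 70028102919)) (l 4)) (l 4)))) (a (a (a (l 16779544) (c (c (l 6677334983) (l 16778744)) (l 7214206103)))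 (a (b (l 16778496) (b (a (l 16778640) (c (l 44795169783) (l 46405782615))) (a (l 58216942695) (l 4)))) (b (b (l 15804140775) (a (c (l 32447138791) (l 34057751623)) (l 78081166615))) (l 4)))) (b (a (a (a (l 71101844775) (l 4)) (l 4)) (l 4)) (l 4)))) (a (a (b (a (a (b (l 16778904) (b (l 57680071879) (l 4))) (b (b (l 16778608) (c (l 43721427975) (l 45332040807))) (l 4))) (a (b (b (c (l 31373396967) (l 32984009799)) (l 4)) (l 4)) (l 83986746695))) (l 4)) (l 4)) (l 4)))), by decide +kernel⟩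

def k12_pp_022 : ∃ t, chk3 f_pp_022 t 267 1007 1 = true :=
  ⟨(a (a (b (a (a (b (l 16779552) (a (b (l 16778584) (b (c (c (l 51774491671) (l 52311362615)) (l 53921975415)) (l 4))) (b (b (l 16778616) (b (a (l 16778688) (l 40500202679)) (l 65196264775))) (l 4)))) (b (c (l 16778744) (l 16778784)) (b (a (b (c (l 27078429783) (l 28689042535)) (l 83449875815)) (l 75933682967)) (l 4)))) (b (a (b (l 16778504) (a (b (l 16778648) (c (l 53385104455) (l 54995717223))) (b (b (a (l 16778688) (l 42647686327)) (l 66806877511)) (l 4)))) (b (b (l 12582915319) (a (c (l 28152171607) (l 29762784343)) (l 74859941271))) (l 87744843159))) (l 4))) (l 4)) (a (a (a (b (b (b (b (c (l 54458846231) (l 56069459047)) (l 4)) (l 4)) (l 4)) (l 4)) (l 4)) (l 4)) (l 4))) (l 4)), by decide +kernel⟩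

def k13_pp_022 : ∃ t, chk3 f_pp_022 t 134 250 1 = true :=
  ⟨(b (b (a (a (l 16772856) (l 16775968)) (a (l 16781616) (l 16784584))) (a (a (l 16783896) (l 16779112)) (a (l 16778080) (l 16776792)))) (a (b (a (l 16779208) (b (l 16784768) (l 16779792))) (b (a (l 16779616) (l 16780688)) (a (l 16780176) (c (l 16778504) (l 16779160))))) (b (b (a (l 16776616) (l 16778648)) (a (l 16778864) (b (l 16779392) (b (l 16778560) (a (l 16782896) (a (l 16778104) (a (l 16778704) (b (c (l 27615300247) (l 29225913111)) (l 64122522519))))))))) (a (b (l 16778648) (a (l 16778992) (b (a (l 16780624) (a (l 16778944) (b (l 16778352) (b (c (l 24930945815) (l 26541558631)) (l 61438168055))))) (b (a (a (l 16778304) (a (l 16778440) (c (l 22246591287) (l 23320333239)))) (b (a (b (l 31910267911) (l 53921975303)) (l 4)) (l 4))) (a (a (b (l 16778656) (b (l 31373397015) (l 52848233495))) (l 70028102791)) (l 4)))))) (a (b (b (l 16779224) (b (a (l 16778120) (a (l 16778728) (b (c (l 26541558471) (l 28152171335))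 (l 63048780743)))) (b (a (l 16778320) (a (c (l 43721427719) (l 45332040567)) (l 4))) (a (a (l 16778352) (c (l 25467816663) (l 27078429527))) (l 4))))) (a (b (a (b (b (l 13119785831) (b (l 32984009719) (l 54458846183))) (l 4)) (l 78618037495)) (l 4)) (l 4))) (b (b (b (a (a (l 16778272) (a (l 16778408) (c (l 24930945751) (l 26541558631)))) (b (a (l 46942653447) (l 4)) (l 4))) (a (a (a (l 17951624103) (a (l 34594622471) (l 48553266119))) (l 71638715351)) (l 4))) (l 4)) (l 4))))))), by decide +kernel⟩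

def k14_pp_022 : ∃ t, chk3 f_pp_022 t 135 500 1 = true :=
  ⟨(b (a (a (l 16779976) (a (l 16784360) (l 16777960))) (a (b (l 16778352) (a (l 16778856) (b (b (l 16778648) (a (l 16779080) (a (l 15267269175) (c (l 51774491047) (l 53385103943))))) (a (a (b (l 16778640) (a (l 26004687463) (l 49627007575))) (b (a (l 16778312) (l 34057751159)) (l 4))) (l 79691779559))))) (b (a (b (l 16778568) (a (a (l 16779104) (b (l 16778936) (a (l 16778336) (l 35668363815)))) (b (a (l 16341010967) (l 53921974791)) (l 73786198631)))) (b (a (a (b (l 16778792) (a (l 28152170983) (l 51774491047))) (b (a (l 16778360) (l 36742105575)) (l 4))) (l 80228650327)) (l 4))) (b (b (b (a (a (a (l 21172849175) (l 4)) (l 4)) (l 4)) (l 86671102871)) (l 4)) (l 4))))) (b (a (a (l 16781688) (b (l 16779224) (b (l 16778672) (a (l 16779728) (a (l 16778760) (a (l 13119785623) (a (l 40500202231) (l 64122522263)))))))) (a (a (a (a (b (l 16778840) (b (a (l 24394074791) (l 48553265895)) (l 4))) (b (b (l 16778720)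 (a (l 12582914551) (l 32984009399))) (l 4))) (b (b (a (l 14193527431) (a (l 41573943991) (l 65196264023))) (l 72712456951)) (l 4))) (l 4)) (l 4))) (a (a (l 16778504) (b (a (l 16778968) (a (a (b (l 16778440) (a (l 23320333031) (l 47479524135))) (b (a (l 16778472) (l 31910267639)) (l 4))) (a (l 73786198951) (l 4)))) (a (a (a (l 16778504) (b (l 16778448) (b (l 16778328) (l 32984009543)))) (b (a (l 12046043847) (b (l 34057751335) (l 4))) (c (l 70564973287) (l 71638715239)))) (l 4)))) (l 4)))), by decide +kernel⟩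

def k15_pp_022 : ∃ t, chk3 f_pp_022 t 135 501 1 = true :=
  ⟨(a (b (a (b (a (l 16778632) (a (b (l 16778520) (b (a (l 16778232) (b (l 16778352) (l 31910267767))) (a (b (l 16778736) (l 48553266007)) (l 73786198887)))) (a (b (l 7751076679) (a (b (l 53385104247) (l 4)) (l 4))) (b (b (l 16778272) (b (l 32447138663) (l 67343747879))) (l 4))))) (a (b (b (a (l 16778136) (a (l 16778688) (b (l 30836525975) (l 65733135207)))) (a (a (l 16778248) (b (l 16778368) (l 30299655095))) (b (a (l 48016395127) (l 4)) (l 4)))) (b (a (a (b (l 16778472) (l 47479524247)) (l 72712457127)) (l 4)) (l 4))) (l 4))) (a (b (a (a (b (b (a (l 22246591255) (l 46405782375)) (l 4)) (l 4)) (l 86671101783)) (l 4)) (l 4)) (l 4))) (l 4)) (l 4)), by decide +kernel⟩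

def k16_pp_022 : ∃ t, chk3 f_pp_022 t 268 1004 1 = true :=
  ⟨(a (a (c (l 16778032) (b (l 16780880) (l 16781936))) (c (l 16778744) (l 16778264))) (b (b (l 16778616) (b (l 16779016) (a (l 16780200) (a (l 16778160) (a (l 16778448) (b (c (l 22246591335) (l 23320333271)) (l 58753813591))))))) (a (b (l 16779280) (b (a (l 16778176) (a (l 16778464) (b (c (l 20635978631) (l 21709720567)) (a (l 42647686215) (l 4))))) (b (a (l 16778368) (a (b (l 26541558903) (l 48016395351)) (l 4))) (a (a (l 16778408) (c (l 19562236823) (l 21172849671))) (l 81302392039))))) (b (b (b (a (l 16778360) (a (b (l 28152171607) (l 50163879031)) (l 4))) (a (a (l 16778392) (c (l 21172849527) (l 22246591463))) (l 81839262823))) (a (b (a (l 16778520) (c (l 57143200647) (l 58216942583))) (a (b (l 27615300711) (l 49090137175)) (l 4))) (l 4))) (l 88818585831))))), by decide +kernel⟩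

def k17_pp_022 : ∃ t, chk3 f_pp_022 t 268 1005 1 = true :=
  ⟨(a (b (a (l 16779040) (a (b (l 16780672) (a (a (l 16778760) (b (l 16778400) (b (l 16778592) (l 51774491767)))) (b (c (c (l 13119785879) (l 13656656855)) (l 14193527927)) (b (a (l 39426460791) (l 4)) (l 4))))) (a (b (l 16779000) (b (b (a (c (l 19025365799) (l 16778632)) (l 52848233575)) (l 72712457303)) (l 4))) (b (b (l 16778408) (b (c (l 19025365927) (l 20099107847)) (a (l 40500202599) (l 4)))) (l 4))))) (b (a (b (a (l 16778192) (a (l 16778480) (b (b (l 16778576) (l 23320333479)) (a (l 38352718983) (l 81302392039))))) (a (a (l 16778360) (c (l 12582915095) (l 13119786119))) (b (a (a (l 18488495127) (l 50700749975)) (l 4)) (l 79154908535)))) (c (a (l 85597358951) (l 4)) (l 88818585959))) (a (a (b (b (a (l 16778552) (a (l 37278977175) (l 80228650231))) (a (a (l 17414753319) (l 49627008183)) (l 4))) (l 81302392231)) (l 4)) (l 4)))) (a (a (b (b (b (a (a (l 16778872) (b (l 16778576) (l 53385104455))) (b (a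 (l 41573944407) (l 4)) (l 4))) (l 82913004903)) (l 4)) (l 4)) (l 4)) (l 4))), by decide +kernel⟩

def k18_pp_022 : ∃ t, chk3 f_pp_022 t 268 503 1 = true :=
  ⟨(l 4), by decide +kernel⟩

def k19_pp_022 : ∃ t, chk3 f_pp_022 t 269 251 1 = true :=
  ⟨(b (b (a (a (b (b (b (a (l 16778152) (a (l 16778432) (b (c (l 23320333111) (l 24930945927)) (l 60364426279)))) (a (a (l 16778320) (a (l 16778456) (b (l 16778488) (l 32984009639)))) (b (a (b (l 30299655207) (l 51774491703)) (l 4)) (l 4)))) (b (a (b (a (l 16778504) (l 59290684471)) (a (b (l 29225913415) (l 51237620823)) (l 4))) (l 4)) (l 88281713479))) (l 4)) (l 4)) (l 4)) (l 4)) (l 4)), by decide +kernel⟩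

def k20_pp_022 : ∃ t, chk3 f_pp_022 t 135 251 1 = true :=
  ⟨(l 4), by decide +kernel⟩

def k21_pp_022 : ∃ t, chk3 f_pp_022 t 33 63 1 = true :=
  ⟨(b (a (a (l 6) (a (a (l 6) (a (l 6) (l 4))) (l 4))) (l 4)) (l 4)), by decide +kernel⟩

def k22_pp_022 : ∃ t, chk3 f_pp_022 t 34 60 1 = true :=
  ⟨(a (b (l 17266648) (a (l 17138488) (l 17124624))) (b (l 17180768) (b (l 17092456) (l 17011248)))), by decide +kernel⟩

def k23_pp_022 : ∃ t, chk3 f_pp_022 t 34 122 1 = true :=
  ⟨(a (b (a (l 17063728) (l 17031488)) (a (l 16958400) (l 16948464))) (b (a (l 16992464) (l 16949352)) (a (l 16889120) (b (l 16903544) (l 16851984))))), by decide +kernel⟩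

def k24_pp_022 : ∃ t, chk3 f_pp_022 t 68 123 1 = true :=
  ⟨(b (a (b (l 16953824) (l 16881648)) (a (l 16895928) (l 16857544))) (a (a (b (l 16899856) (l 16850712)) (b (l 16887760) (l 16838528))) (a (b (l 16872616) (l 16823192)) (b (l 16834112) (a (l 16810056) (l 16800656)))))), by decide +kernel⟩

def k25_pp_022 : ∃ t, chk3 f_pp_022 t 69 246 1 = true :=
  ⟨(a (b (l 16864376) (a (l 16865344) (l 16823784))) (b (a (l 16853464) (l 16810248)) (a (l 16791680) (b (l 16787400) (a (l 16777880) (b (l 16780808) (a (l 16781320) (b (a (l 16784176) (a (l 16782040) (l 8824817831))) (b (a (l 16778720) (a (a (l 16778272) (l 4)) (l 4))) (a (a (l 16778864) (l 4)) (l 4))))))))))), by decide +kernel⟩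

def k26_pp_022 : ∃ t, chk3 f_pp_022 t 138 247 1 = true :=
  ⟨(a (b (l 16814744) (a (l 16790816) (b (l 16787808) (l 16781320)))) (b (b (l 16801384) (l 16786592)) (b (a (l 16787784) (b (l 16780664) (a (l 16781320) (b (l 2919241111) (a (l 3456107543) (a (b (l 16778184) (l 4)) (l 4))))))) (a (b (a (l 16779608) (l 2919236215)) (b (a (l 16779480) (a (l 16777744) (a (b (l 16778248) (l 4)) (l 50163877303)))) (a (b (l 16779424) (a (l 16781600) (a (l 16778280) (l 23857202055)))) (a (a (b (l 12046041879) (l 4)) (l 4)) (l 4))))) (b (a (b (b (l 16779400) (a (l 16781576) (a (l 16778216) (l 4)))) (a (b (l 16777800) (a (l 13656654791) (l 4))) (l 4))) (a (b (a (b (l 15267267623) (l 4)) (l 4)) (l 4)) (l 4))) (l 4)))))), by decide +kernel⟩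

def k27_pp_022 : ∃ t, chk3 f_pp_022 t 139 247 1 = true :=
  ⟨(b (a (a (b (l 16785144) (a (l 16783496) (a (l 16779352) (b (l 16790784) (a (l 16778808) (l 2919240903)))))) (b (b (l 16777808) (l 16780792)) (b (a (l 16781360) (a (a (l 2919242935) (b (l 16783560) (b (l 16780760) (c (l 9361688119) (l 16777864))))) (b (l 3456111207) (a (b (l 8287946343) (l 4)) (l 4))))) (a (a (b (l 16779800) (b (a (l 16780336) (l 9361688023)) (l 43184555927))) (b (a (l 3992980023) (b (l 16778536) (l 4))) (l 4))) (l 4))))) (b (a (b (a (l 16779864) (a (l 16780864) (a (l 16778736) (b (l 16784448) (l 7751075815))))) (a (a (l 16779000) (b (l 16778056) (b (l 16778192) (a (l 9361688295) (l 4))))) (b (b (a (l 16781408) (a (l 10435430391) (l 4))) (a (a (l 16780240) (a (l 16778208) (l 4))) (l 4))) (l 4)))) (b (a (a (b (l 16779696) (a (b (l 16780208) (l 4)) (l 4))) (b (b (l 8287946855) (a (l 11509172151) (l 4))) (l 4))) (l 4)) (l 4))) (a (b (b (b (a (a (a (l 16780272) (a (l 16778568) (l 4))) (l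 4)) (l 4)) (l 4)) (l 4)) (l 4)) (l 4)))) (a (a (b (b (a (a (l 16779048) (a (l 2919238711) (b (l 16782680) (b (l 16779912) (l 4))))) (a (c (b (c (l 3992978647) (l 16777784)) (b (l 41037072071) (l 4))) (b (l 16778024) (l 56606328647))) (a (b (b (l 16778120) (l 4)) (l 4)) (l 4)))) (a (a (b (b (l 5066720439) (a (l 17414751447) (l 4))) (l 4)) (l 4)) (l 4))) (l 4)) (l 4)) (l 4))), by decide +kernel⟩

def k28_pp_022 : ∃ t, chk3 f_pp_022 t 35 60 1 = true :=
  ⟨(b (a (l 17065704) (b (l 17019752) (l 16942976))) (a (b (l 16979344) (a (l 16964344) (l 16896832))) (b (a (l 16929960) (l 16841696)) (a (b (l 16886048) (l 16835384)) (b (a (l 16851384) (l 16807552)) (a (b (l 16829208) (l 16793360)) (b (a (l 16812088) (l 16779792)) (a (b (l 16800960) (l 16783056)) (a (a (l 12582920327) (b (l 16791104) (a (l 19025370887) (b (l 16784960) (l 4))))) (b (l 15267274743) (a (b (l 24930951015) (l 4)) (l 4)))))))))))), by decide +kernel⟩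

def k29_pp_022 : ∃ t, chk3 f_pp_022 t 70 122 1 = true :=
  ⟨(a (b (l 16862048) (b (l 16816328) (a (l 16818136) (b (l 16802792) (a (l 16814192) (l 16781648)))))) (b (b (l 16851848) (a (l 16854112) (l 16809896))) (b (a (b (l 16831232) (l 16794944)) (b (a (l 16813800) (l 16781208)) (a (l 16788000) (b (l 16780232) (a (c (l 9898562247) (l 9361690919)) (a (b (l 16780960) (b (l 20099109415) (l 4))) (b (b (l 19025368343) (l 4)) (l 4)))))))) (a (a (b (l 16785408) (a (l 16783432) (a (l 16779080) (b (l 16790504) (b (l 16784760) (a (l 14730400343) (b (l 16781216) (l 4)))))))) (b (b (l 16788112) (l 16780440)) (b (a (l 8824819911) (b (a (l 16781120) (a (l 13656658055) (b (l 16781152) (l 4)))) (b (a (l 15804141751) (l 4)) (l 4)))) (b (a (a (l 12582916055) (a (b (l 16779424) (l 4)) (l 4))) (l 4)) (l 4))))) (b (a (a (b (l 16779408) (b (l 10435432759) (a (l 14193529223) (a (b (l 20099109127) (l 4)) (l 4))))) (b (b (l 16780776) (a (l 16781040) (a (l 15267271143) (a (l 20635979895)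 (l 4))))) (b (b (a (l 17951625783) (l 4)) (l 4)) (l 4)))) (b (b (a (a (c (l 15804142311) (l 14730400039)) (a (b (l 22783464055) (l 4)) (l 4))) (l 4)) (l 4)) (l 4))) (l 4)))))), by decide +kernel⟩

def k30_pp_022 : ∃ t, chk3 f_pp_022 t 71 244 1 = true :=
  ⟨(a (a (b (l 16816976) (a (l 16792480) (b (l 16809472) (b (l 16787592) (l 9898565303))))) (b (b (l 16801368) (a (l 16813048) (l 16780560))) (b (a (l 16787440) (b (l 10435435719) (b (a (l 16782208) (b (l 19025369399) (a (l 23320337303) (l 4)))) (a (c (l 15804143751) (l 15267272535)) (l 4))))) (a (b (a (l 16784200) (a (l 13119789015) (b (l 16781608) (a (l 24930948647) (l 4))))) (a (a (b (l 16785224) (b (l 16781160) (l 33520883223))) (b (l 18488498103) (l 4))) (l 4))) (b (b (b (a (a (l 22783466439) (l 4)) (l 4)) (l 4)) (l 4)) (l 4)))))) (b (b (a (a (l 16784128) (b (l 16786944) (c (l 11509177319) (l 10972306007)))) (a (b (a (l 16783712) (a (l 17951628807) (b (l 22783467815) (l 4)))) (a (a (a (l 19562241223) (b (l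 16781560) (l 4))) (b (a (l 24394079463) (l 36205239447)) (l 4))) (l 4))) (b (b (b (a (a (l 28689047303) (l 4)) (l 4)) (l 4)) (l 4)) (l 4)))) (a (a (a (l 16782456) (b (l 16780520) (a (l 14730402375) (b (l 16781448) (a (l 35668367815) (l 4)))))) (b (a (a (l 16781536) (b (l 16785832) (c (l 23857207783) (l 23320336295)))) (a (b (l 21172853847) (l 4)) (l 4))) (b (b (a (a (l 23320337159) (l 4)) (l 4)) (l 4)) (l 4)))) (l 4))) (a (b (a (b (a (a (a (l 16341015063) (b (l 16784344) (l 4))) (b (l 21709723847) (l 4))) (l 4)) (l 4)) (l 4)) (l 4)) (l 4)))), by decide +kernel⟩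

def k31_pp_022 : ∃ t, chk3 f_pp_022 t 71 245 1 = true :=
  ⟨(a (b (a (b (a (b (l 16783928) (b (l 16780832) (a (l 16782536) (b (l 14193530135) (a (l 16779952) (l 4)))))) (b (a (b (l 16782424) (l 13119788455)) (a (b (l 16780792) (b (l 31373399431) (l 4))) (a (b (l 21709723175) (l 4)) (l 4)))) (b (a (a (b (l 16779912) (l 28152173655)) (l 4)) (l 4)) (l 4)))) (a (b (a (b (l 12582917383) (a (a (l 16779760) (l 20635980375)) (l 4))) (a (b (b (l 24930947879) (l 4)) (l 4)) (l 4))) (l 4)) (l 4))) (l 4)) (l 4)) (l 4)), by decide +kernel⟩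

def k32_pp_022 : ∃ t, chk3 f_pp_022 t 140 246 1 = true :=
  ⟨(a (b (a (l 16793216) (b (l 16810384) (b (l 16777920) (l 16780744)))) (b (a (b (l 16784600) (a (l 16779840) (a (l 16780784) (b (l 16785056) (c (l 9361689143) (l 16778688)))))) (b (a (l 16781224) (a (b (l 16784056) (a (l 9898560375) (b (l 16780496) (l 4)))) (b (b (l 16782136) (l 12046043975)) (l 4)))) (a (b (a (l 16779568) (b (l 10972302055) (l 4))) (b (b (a (l 12582914711) (l 4)) (l 4)) (l 4))) (l 4)))) (a (b (a (a (l 16778904) (b (l 16780568) (b (l 9898559959) (a (a (l 16778896) (l 4)) (l 4))))) (b (b (a (l 16778656) (a (a (l 14730398135) (l 4)) (l 4))) (a (a (l 16778800) (l 4)) (l 4))) (l 4))) (b (b (a (a (a (l 16778832) (l 4)) (l 4)) (l 4)) (l 4)) (l 4))) (l 4)))) (b (b (a (l 16788360) (b (l 16780616) (a (l 16779776) (b (a (l 16778664) (b (l 16779368) (a (l 16780824) (l 4)))) (a (b (l 12046044551) (a (l 16877882775) (l 4))) (l 4)))))) (b (b (a (l 16778768) (a (a (l 9898560887) (b (a (l 16780856) (l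 4)) (l 4))) (l 4))) (a (a (l 16788312) (a (l 16778736) (a (l 16779208) (b (l 16781352) (l 4))))) (a (a (a (b (l 15804140839) (l 4)) (l 4)) (l 4)) (l 4)))) (a (b (a (l 16779248) (a (a (l 10972302391) (b (l 16779120) (l 4))) (l 4))) (a (a (l 8824818711) (b (c (l 13119786087) (l 12046043767)) (l 4))) (l 4))) (l 4)))) (b (a (b (b (b (b (a (a (l 14193527591) (l 4)) (l 4)) (l 4)) (l 4)) (l 4)) (l 4)) (l 4)) (l 4)))), by decide +kernel⟩

def k33_pp_022 : ∃ t, chk3 f_pp_022 t 141 246 1 = true :=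
  ⟨(b (a (b (a (b (a (b (l 16779096) (a (l 10972302967) (a (b (l 16779480) (l 4)) (l 4)))) (a (b (b (l 14193528711) (l 4)) (l 4)) (l 4))) (b (b (a (a (a (l 18488495799) (l 4)) (l 4)) (l 4)) (l 4)) (l 4))) (l 4)) (l 4)) (l 4)) (l 4)), by decide +kernel⟩

def k34_pp_022 : ∃ t, chk3 f_pp_022 t 70 247 1 = true :=
  ⟨(l 4), by decide +kernel⟩

def k35_pp_022 : ∃ t, chk3 f_pp_022 t 71 123 1 = true :=
  ⟨(l 4), by decide +kernel⟩

def k36_pp_022 : ∃ t, chk3 f_pp_022 t 68 248 1 = true :=
  ⟨(b (a (a (l 16803112) (a (l 16815064) (l 16807952))) (b (a (l 16802608) (a (l 16789248) (l 16779696))) (a (l 16784056) (a (l 16786232) (a (l 16779016) (a (l 16777928) (b (l 16786680) (b (l 16778976) (b (c (l 12046041719) (l 13656654679)) (l 48553264167)))))))))) (a (a (a (l 16802024) (l 16796496)) (b (l 16792512) (a (l 16784024) (l 16787016)))) (a (b (a (l 16780672) (l 16779792)) (b (a (l 16781816) (a (l 16780456) (a (l 16779648) (b (l 16781504) (b (l 12046042439) (a (l 27078427943)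 (l 4))))))) (a (l 16778352) (b (b (a (l 16779216) (a (a (l 16778328) (l 39426458919)) (l 4))) (a (a (l 16781448) (l 11509171639)) (l 4))) (a (b (a (l 16778624) (a (l 26541557191) (l 4))) (a (a (l 16778344) (l 38352717239)) (l 4))) (l 4)))))) (b (a (b (l 1845494951) (b (a (l 16779096) (a (l 16778120) (b (c (l 11509171047) (l 12582913143)) (c (l 45868909415) (l 47479522311))))) (a (a (l 16782320) (c (c (l 8287945575) (l 8287945671)) (l 9898558775))) (b (a (a (l 16778280) (l 40500200519)) (l 4)) (l 4))))) (b (b (b (a (l 16779376) (a (a (l 16777576) (l 4)) (l 4))) (a (a (l 16781576) (c (l 11509170887) (l 13119783879))) (l 4))) (a (b (a (l 16778624) (l 47479522311)) (a (a (l 16777928) (l 41037071271)) (l 4))) (l 4))) (l 4))) (a (a (b (b (b (a (l 16778632) (a (l 27615298727) (l 4))) (a (a (l 16778304) (l 39963329719)) (l 4))) (l 4)) (l 4)) (l 4)) (l 4)))))), by decide +kernel⟩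

def k37_pp_022 : ∃ t, chk3 f_pp_022 t 68 498 1 = true :=
  ⟨(b (a (a (a (l 16785200) (l 16779384)) (a (l 16783040) (a (l 16779952) (a (l 16779552) (b (l 16785608) (b (l 16781296) (b (l 9361688183) (a (l 24394073831) (l 4))))))))) (a (a (b (b (a (l 16783904) (a (l 16778032) (b (l 10972300903) (a (l 26004686359) (l 4))))) (b (a (l 16779088) (a (a (l 16779008) (l 37815846423)) (l 4))) (a (c (l 6677333495) (l 16778056)) (l 83986749735)))) (a (b (b (a (l 16779896) (a (l 24930944679) (l 4))) (a (a (l 16778360) (l 37278975607)) (l 4))) (l 87744843671)) (l 4))) (l 4)) (l 4))) (a (a (a (l 16785352) (c (l 16779416) (l 16779152))) (a (b (l 16778776) (a (c (l 3992979271) (l 16778168)) (a (b (l 16780440) (b (a (l 16779008) (c (l 32984008375) (l 34594621303))) (l 60364425303))) (b (b (l 8287946647) (a (l 22783461271) (l 4))) (l 4))))) (b (b (a (c (l 5066720951) (l 16778336)) (a (b (a (l 16778360) (l 36742104855)) (l 61438166935)) (l 4))) (a (b (a (l 16779840) (a (l 23320332055)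 (l 4))) (a (a (l 16779016) (l 35668363111)) (l 4))) (l 4))) (a (a (b (l 70028101703) (l 4)) (l 4)) (l 4))))) (l 4))), by decide +kernel⟩

def k38_pp_022 : ∃ t, chk3 f_pp_022 t 68 499 1 = true :=
  ⟨(a (a (b (a (a (l 16777240) (l 16778264)) (a (b (l 16778744) (b (l 4529850599) (a (a (l 16779472) (b (l 16779216) (c (l 30836525015) (l 31910266999)))) (a (b (l 20099107031) (l 4)) (l 70028101991))))) (a (b (l 16778840) (b (b (a (l 16778968) (c (l 31373395815) (l 32984008743))) (a (l 45332039847) (l 4))) (l 4))) (b (b (l 16780928) (b (l 16778304) (a (l 21172848759) (l 58216941591)))) (l 4))))) (a (b (a (l 2919238055) (b (b (l 16778504) (a (l 16779536) (a (l 19025365287) (l 56606329031)))) (a (a (b (l 16778896) (c (l 42110814279) (l 43721427207))) (b (a (l 15267268855) (l 38889589063)) (l 4))) (l 4)))) (a (b (a (a (l 16779312) (b (l 16779096) (a (l 16778368) (l 37815847319)))) (a (b (l 18488494439) (l 4)) (l 68954360327))) (b (b (a (a (l 23320332615) (l 4)) (l 4)) (l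 80765519863)) (l 4))) (l 4))) (b (b (b (a (a (a (a (l 31373396135) (l 54995716263)) (l 4)) (l 4)) (l 4)) (l 4)) (l 4)) (l 4)))) (b (a (b (a (a (a (b (l 16779584) (b (l 46405781591) (l 4))) (b (b (l 16779296) (c (l 32447137543) (l 34057750487))) (l 4))) (a (b (b (l 21709719559) (l 4)) (l 4)) (l 81302393095))) (l 4)) (l 4)) (l 4)) (l 4))) (l 4)), by decide +kernel⟩

def k39_pp_022 : ∃ t, chk3 f_pp_022 t 69 124 1 = true :=
  ⟨(b (a (b (a (b (b (a (l 16783672) (a (l 16781184) (a (l 16777896) (b (l 16778984) (b (a (l 16778304) (l 22246589159)) (l 4)))))) (a (a (l 16779264) (l 16779392)) (b (a (a (l 16782480) (a (l 16777896) (b (l 16780080) (l 20635976327)))) (b (a (a (l 8824816231) (l 4)) (l 4)) (l 4))) (a (a (b (l 16778560) (a (l 7214203399) (l 4))) (l 100629747127)) (l 4))))) (a (b (b (a (l 16779352) (a (l 16778128) (b (c (l 13119783287) (l 14193525287)) (l 50163876951)))) (b (a (l 16779408) (a (a (l 16777512) (l 4)) (l 4))) (a (a (l 16781608) (c (l 12582912471) (l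 14193525479))) (l 4)))) (a (b (b (a (l 16778600) (l 49090134935)) (a (a (l 16777544) (l 4)) (l 4))) (l 4)) (l 4))) (l 4))) (b (a (b (b (a (a (b (l 16777856) (a (l 10435429063) (l 4))) (l 4)) (l 4)) (l 4)) (l 4)) (l 4)) (l 4))) (l 4)) (l 4)) (l 4)), by decide +kernel⟩

def k40_pp_022 : ∃ t, chk3 f_pp_022 t 34 125 1 = true :=
  ⟨(l 4), by decide +kernel⟩

def k41_pp_022 : ∃ t, chk3 f_pp_022 t 35 62 1 = true :=
  ⟨(l 4), by decide +kernel⟩

def k42_pp_022 : ∃ t, chk3 f_pp_022 t 17 63 1 = true :=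
  ⟨(l 4), by decide +kernel⟩

def k43_pp_022 : ∃ t, chk3 f_pp_022 t 18 28 1 = true :=
  ⟨(a (l 17366416) (b (l 17347816) (l 17175760))), by decide +kernel⟩

def k44_pp_022 : ∃ t, chk3 f_pp_022 t 18 29 1 = true :=
  ⟨(b (a (l 17056296) (b (l 17031704) (a (l 17026888) (l 16883024)))) (a (b (a (l 17108656) (l 17018480)) (a (l 16965360) (b (l 16923048) (a (l 16914192) (l 16850152))))) (b (a (b (l 16957384) (l 16867376)) (b (a (l 16896800) (l 16837024)) (a (b (l 16861224) (l 16816112)) (b (a (l 16832184) (b (l 16819168) (l 16786344))) (a (b (l 16814232) (a (l 16806920) (l 16787000))) (b (a (l 16789600) (a (l 16782672) (l 31373405127))) (a (b (l 16785976) (a (l 16782472) (l 4))) (l 82376163623)))))))) (b (a (a (l 16859440) (b (l 16831160) (a (l 16837176) (l 16796216)))) (a (b (a (l 16801400) (b (l 16788136) (a (l 16780688) (l 19562244807)))) (b (a (a (l 16808680) (l 16788480)) (a (b (l 16782008) (a (l 16783576) (l 54995726231))) (b (a (l 42110823319) (l 4)) (l 4))))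 (a (a (l 16785744) (b (l 16783240) (a (l 35668371991) (l 4)))) (l 82376154343)))) (b (a (b (a (l 16784360) (b (l 28689050423) (a (l 48553274679) (l 4)))) (a (b (a (l 16783016) (l 61975049079)) (l 4)) (l 4))) (l 4)) (l 4)))) (a (a (b (l 16821320) (a (l 16805736) (b (l 16791752) (b (l 16782040) (l 16783432))))) (b (a (b (l 16818192) (l 16784464)) (b (a (l 16782272) (l 16782984)) (a (b (l 16783296) (a (l 16784712) (l 41573952039))) (b (a (l 28152178887) (l 4)) (l 4))))) (a (b (a (l 16787136) (b (l 16785720) (a (l 16783248) (l 65196273239)))) (a (a (a (l 22246598791) (b (l 16789312) (l 57143208935))) (b (l 35131500663) (l 4))) (l 4))) (b (a (b (a (l 54995725911) (l 4)) (l 4)) (l 4)) (l 4))))) (a (b (a (b (a (b (a (l 16784144) (l 46942661623)) (l 73786217511)) (l 4)) (l 4)) (l 4)) (l 4)) (l 4))))))), by decide +kernel⟩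

def k45_pp_022 : ∃ t, chk3 f_pp_022 t 19 28 1 = true :=
  ⟨(a (b (l 17189336) (b (l 17079152) (l 16917352))) (b (l 16943144) (b (a (l 16973000) (l 16865192)) (a (b (l 16915752) (l 16834648)) (b (a (l 16866456) (l 16792824)) (a (b (l 16837448) (a (l 16825832) (l 16788984))) (b (a (l 16813768) (c (l 89355538119) (l 26541567863))) (a (a (l 16787824) (a (l 34594632631) (l 65196295719))) (b (l 70565008311) (l 4)))))))))), by decide +kernel⟩

def k46_pp_022 : ∃ t, chk3 f_pp_022 t 19 58 1 = true :=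
  ⟨(a (a (b (l 16935408) (b (l 16850120) (a (l 16845200) (b (l 16819736) (a (l 16827336) (b (l 16814992) (l 16782808))))))) (b (b (l 16883800) (a (l 16880776) (l 16824872))) (b (a (b (l 16848792) (l 16806152)) (b (a (l 16822656) (b (l 16810936) (l 16789848))) (a (b (l 16785584) (l 21172858327)) (b (a (l 16783464) (l 64122548151)) (a (l 71101877271) (l 4)))))) (a (b (a (l 16792992) (b (l 16781072) (a (l 16784960) (b (l 16784544) (l 66270018999))))) (a (b (l 16784304) (a (l 30299663687) (l 73786230583))) (b (a (b (l 43184566695) (l 4)) (l 4)) (l 4)))) (b (a (b (a (b (l 16781552) (l 50163889895)) (l 81302423303)) (l 4)) (l 4)) (l 4)))))) (b (a (a (b (l 16832208) (b (l 16801432) (a (l 16788960) (a (l 16784464) (b (l 16784120) (l 69491245031)))))) (b (b (l 16809208) (a (l 16818144) (l 16786248))) (b (a (b (l 16781896) (a (l 16786248) (l 46942665479))) (b (a (l 16783176) (l 75933694967)) (l 4))) (c (l 82376170487) (c (l 82913040663) (l 82913040183)))))) (b (a (b (a (l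 16785048) (b (l 16784856) (l 66270042615))) (a (b (a (l 16784624) (l 58753828615)) (l 80228682967)) (l 4))) (l 100092915495)) (l 4))) (a (b (a (b (a (a (a (l 16784760) (b (l 16796320) (l 61975052279))) (b (l 35668373719) (l 4))) (l 93650457511)) (l 4)) (l 4)) (l 4)) (l 4)))), by decide +kernel⟩

def k47_pp_022 : ∃ t, chk3 f_pp_022 t 19 59 1 = true :=
  ⟨(a (b (a (b (b (a (l 16811040) (a (b (l 16789376) (l 16783256)) (b (a (l 16786488) (b (l 16785856) (l 56606341623))) (a (b (l 31910276599) (l 68954371703)) (l 4))))) (a (a (l 16797136) (b (l 16784568) (a (l 16788040) (b (l 16781952) (l 43721437255))))) (b (a (a (l 16782944) (b (l 50163889447) (l 4))) (l 4)) (l 86671135367)))) (b (a (a (b (a (l 16805176) (l 16785528)) (a (l 16782992) (b (l 37815856327) (l 74859950231)))) (b (a (b (l 16784728) (l 63048792935)) (l 4)) (l 4))) (l 4)) (b (l 94724201415) (l 4)))) (b (a (l 101703527159) (l 4)) (l 4))) (l 4)) (l 4)), by decide +kernel⟩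

def k48_pp_022 : ∃ t, chk3 f_pp_022 t 36 120 1 = true :=
  ⟨(b (a (l 16885552) (a (b (l 16874480) (l 16826552)) (b (a (l 16842240) (l 16800200)) (a (b (l 16822168) (l 16787704)) (b (a (l 16806400) (b (l 16799360) (l 16782248))) (a (b (l 16785872) (l 18488502311)) (b (a (l 16783464) (a (l 30836532535) (l 59290692423))) (a (a (l 47479531351) (l 4)) (l 4))))))))) (a (a (l 16873976) (b (l 16842992) (a (l 16847192) (l 16804104)))) (a (a (b (l 16810048) (b (l 16789296) (a (l 16780768) (a (l 16783200) (a (l 16877888919) (a (l 19562242855) (b (l 16789840) (l 43721434439)))))))) (b (b (l 16795352) (a (l 16807952) (l 16786824))) (b (a (l 13656663543) (b (a (l 16784488) (b (l 16783672) (l 48553272951))) (a (b (l 27615307015) (l 4)) (l 4)))) (a (b (a (l 21709727335) (b (l 45332047367) (l 4))) (l 4)) (l 4))))) (b (a (a (b (l 16789904) (b (l 17414760231) (a (l 24930952103) (b (l 51237627559) (l 4))))) (b (a (l 16782064) (a (l 20099115015) (b (l 16789464) (l 52311369703))))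 (a (a (b (l 41037080263) (l 4)) (l 4)) (l 4)))) (b (a (b (a (c (l 29225919767) (l 28152177143)) (l 4)) (l 4)) (l 4)) (l 4))) (l 4))))), by decide +kernel⟩

def k49_pp_022 : ∃ t, chk3 f_pp_022 t 72 121 1 = true :=
  ⟨(b (b (a (l 16831536) (a (b (l 16826024) (l 16790832)) (b (a (l 16809464) (l 16788072)) (a (l 16782216) (b (a (l 16785496) (a (l 16781536) (a (l 25467823479) (l 36205241143)))) (a (a (l 23857210599) (b (l 29762791031) (l 4))) (l 4))))))) (a (a (l 16814080) (b (l 16798776) (a (l 16810912) (l 16789264)))) (a (a (b (l 16782064) (b (l 16781816) (a (l 16782032) (b (l 23857209495) (a (l 43721433879) (l 4)))))) (b (a (l 16784296) (b (l 16792872) (b (l 16782360) (l 27615306039)))) (b (a (a (l 21172855831) (b (l 16782088) (l 4))) (l 4)) (l 4)))) (b (a (b (a (l 18488501319) (b (a (l 16782672) (l 39426466503)) (l 4))) (b (a (a (l 28689048727) (l 4)) (l 4)) (l 4))) (l 4)) (l 4))))) (a (b (b (a (l 16792264) (a (b (l 16800040) (l 16782304)) (a (a (l 14730404503)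 (b (l 16790336) (b (l 16782440) (l 4)))) (b (l 19025371767) (a (b (l 38889595255) (l 4)) (l 4)))))) (a (a (l 16783256) (a (l 16785336) (b (l 16793880) (l 16877888071)))) (a (b (a (l 16783112) (b (l 22246597287) (a (l 34594627703) (l 4)))) (b (a (a (l 26004694583) (l 48016400967)) (l 4)) (l 4))) (l 4)))) (a (b (a (b (l 16782744) (a (l 16783464) (b (l 19562242391) (a (l 27615305815) (l 4))))) (b (b (a (l 16781528) (a (l 30299660183) (l 4))) (a (a (l 16781984) (l 43721433383)) (l 4))) (l 4))) (a (b (b (a (a (l 16782072) (a (l 27615305927) (l 4))) (l 4)) (l 4)) (l 4)) (l 4))) (l 4))) (b (a (b (a (b (b (a (a (l 25467822919) (l 4)) (l 4)) (l 4)) (l 4)) (l 4)) (l 4)) (l 4)) (l 4)))), by decide +kernel⟩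

def k50_pp_022 : ∃ t, chk3 f_pp_022 t 73 121 1 = true :=
  ⟨(b (a (b (b (a (a (a (l 15804146839) (b (l 16783408) (a (b (l 16782296) (l 4)) (l 4)))) (a (b (a (l 27078435479) (a (l 46405788983) (l 4))) (l 4)) (l 4))) (l 4)) (c (l 93113574199) (b (l 91502959927) (l 4)))) (l 4)) (l 4)) (l 4)), by decide +kernel⟩

def k51_pp_022 : ∃ t, chk3 f_pp_022 t 37 60 1 = true :=
  ⟨(b (a (b (a (b (b (a (l 16786088) (a (b (l 16784592) (c (l 21709727207) (l 21172855575))) (b (a (l 16782440) (a (l 45868919143) (l 4))) (l 4)))) (a (a (l 16788528) (a (l 16783544) (b (l 16784408) (a (l 38889596903) (l 4))))) (a (a (b (a (l 16782112) (l 49627015319)) (l 4)) (l 4)) (l 4)))) (a (b (a (b (l 20099114983) (a (a (l 16783880) (l 43184564247)) (l 4))) (b (l 78618054759) (l 4))) (l 4)) (l 4))) (l 4)) (l 4)) (l 4)) (l 4)), by decide +kernel⟩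

def k52_pp_022 : ∃ t, chk3 f_pp_022 t 18 61 1 = true :=
  ⟨(l 4), by decide +kernel⟩

def k53_pp_022 : ∃ t, chk3 f_pp_022 t 19 30 1 = true :=
  ⟨(l 4), by decide +kernel⟩

def k54_pp_022 : ∃ t, chk3 f_pp_022 t 9 31 1 = true :=
  ⟨(l 4), by decide +kernel⟩

def k55_pp_022 : ∃ t, chk3 f_pp_022 t 5 6 1 = true :=
  ⟨(a (b (a (l 17574648) (b (l 17428296) (l 17264608))) (b (a (l 17477152) (a (l 17223720) (b (l 17069128) (b (l 16989880) (l 16934968))))) (a (b (a (l 17177936) (l 17059400)) (a (l 17012104) (b (l 16968664) (a (l 16933704) (l 16836272))))) (b (a (a (l 16977008) (l 16861888)) (b (a (l 16903424) (b (l 16868896) (l 16798712))) (a (b (l 16860328) (a (l 16843392) (l 16798008))) (b (l 21172872663) (a (l 39963355687) (l 82913022839)))))) (a (b (a (l 16866352) (b (l 16830072) (a (l 16833360) (l 16787392)))) (a (b (l 16798992) (a (l 16801424) (b (l 16783616) (l 48016418439)))) (b (a (b (l 16789376) (l 61975092807)) (l 70028160247)) (l 90966113319)))) (b (a (b (a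 (l 67880751959) (l 50700776983)) (l 75933722247)) (l 4)) (l 4))))))) (b (a (b (l 17225008) (b (l 17109200) (l 17168056))) (b (l 17147656) (b (a (l 16973608) (l 16976184)) (a (a (l 16909576) (b (l 16889824) (l 16803560))) (b (a (l 16849960) (l 26541582071)) (a (l 34057781351) (l 83986785511))))))) (a (b (a (b (l 16993096) (b (a (l 16917424) (l 16871008)) (a (l 16821216) (b (l 16788864) (l 31373423879))))) (b (a (l 16966064) (b (l 16883264) (l 16812816))) (b (a (b (l 16839184) (a (l 16823896) (l 16791464))) (b (l 42110846743) (l 82913044679))) (a (l 74860000535) (l 4))))) (b (a (b (a (b (l 16800864) (a (l 16784552) (l 61438191927))) (l 84523682455)) (a (l 94187343463) (l 4))) (l 4)) (l 4))) (b (b (a (b (a (l 16798192) (b (l 16790096) (l 52311402119))) (a (b (l 29225938135) (l 69491266199)) (l 102777279799))) (b (a (l 93113597111) (l 4)) (l 4))) (l 4)) (l 4))))), by decide +kernel⟩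

def k56_pp_022 : ∃ t, chk3 f_pp_022 t 5 7 1 = true :=
  ⟨(a (b (b (a (b (a (b (l 16871712) (a (l 16895984) (b (l 16874608) (a (l 16854264) (b (l 16834032) (l 16795496)))))) (b (a (b (l 16884856) (l 16809592)) (b (b (l 16817040) (l 16790240)) (a (b (l 16797696) (l 16786432)) (b (l 39426482327) (l 77007440791))))) (a (b (a (l 16810632) (b (l 16791408) (a (l 16781304) (l 66270048407)))) (a (b (l 16784832) (a (l 90429267767) (l 80765555783))) (l 81302431383))) (l 92039880679)))) (a (b (a (b (l 16821272) (a (l 16820640) (b (l 16799744) (a (l 16788704) (b (l 16789096) (l 78618076663)))))) (b (a (b (l 16827552) (l 16788600)) (b (a (l 16784944) (l 63048825943)) (l 63585677703))) (a (b (a (l 16783056) (l 54995731831)) (l 79154945751)) (l 4)))) (a (b (a (a (l 16785432) (b (l 16784984) (l 46405801783))) (b (a (b (l 16785384) (l 66270044551)) (l 90966104407)) (l 4))) (l 91502984247)) (l 4))) (b (a (l 104924767287) (l 4)) (l 4)))) (b (a (b (a (b (a (b (a (l 16804952) (l 92039870743))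 (l 61438187367)) (l 99019153095)) (l 4)) (l 4)) (l 4)) (l 4)) (l 4))) (l 4)) (l 4)) (l 4)), by decide +kernel⟩

def k57_pp_022 : ∃ t, chk3 f_pp_022 t 3 1 1 = true :=
  ⟨(b (a (b (a (l 17164640) (l 17025800)) (a (b (l 17068224) (a (l 17170808) (b (l 16950392) (a (l 16927832) (b (l 16873864) (l 30299672727)))))) (b (l 123581542103) (a (b (a (l 16874912) (l 16836032)) (a (b (l 16807336) (l 79691857367)) (l 96334908983))) (b (a (b (l 16816880) (l 73249357591)) (l 88281784327)) (b (l 111904127671) (l 4))))))) (b (l 2) (b (l 2) (b (l 2) (l 4))))) (a (b (b (a (a (b (a (b (l 16958376) (l 16934888)) (b (l 16890256) (b (l 16822480) (a (l 16783416) (l 52311392871))))) (b (a (b (a (l 16856280) (l 16800864)) (a (l 16796536) (l 65196296423))) (b (a (l 54995759911) (l 4)) (l 4))) (b (l 116199175623) (l 4)))) (b (b (a (b (l 16865592) (l 34594649079)) (b (l 59827604695) (l 102777261783))) (b (l 100093022711) (a (l 112977805543) (l 4)))) (l 4))) (l 4)) (l 4)) (l 4)) (l 4))), by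 decide +kernel⟩

theorem s58_pp_022 : ∃ t, chk3 f_pp_022 t 5 3 1 = true := ex3_b k55_pp_022 k56_pp_022

theorem s59_pp_022 : ∃ t, chk3 f_pp_022 t 36 121 1 = true := ex3_a k49_pp_022 k50_pp_022

theorem s60_pp_022 : ∃ t, chk3 f_pp_022 t 36 60 1 = true := ex3_b k48_pp_022 s59_pp_022

theorem s61_pp_022 : ∃ t, chk3 f_pp_022 t 18 60 1 = true := ex3_a s60_pp_022 k51_pp_022

theorem s62_pp_022 : ∃ t, chk3 f_pp_022 t 18 30 1 = true := ex3_b s61_pp_022 k52_pp_022

theorem s63_pp_022 : ∃ t, chk3 f_pp_022 t 9 30 1 = true := ex3_a s62_pp_022 k53_pp_022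

theorem s64_pp_022 : ∃ t, chk3 f_pp_022 t 9 15 1 = true := ex3_b s63_pp_022 k54_pp_022

theorem s65_pp_022 : ∃ t, chk3 f_pp_022 t 19 29 1 = true := ex3_b k46_pp_022 k47_pp_022

theorem s66_pp_022 : ∃ t, chk3 f_pp_022 t 19 14 1 = true := ex3_b k45_pp_022 s65_pp_022

theorem s67_pp_022 : ∃ t, chk3 f_pp_022 t 18 14 1 = true := ex3_b k43_pp_022 k44_pp_022

theorem s68_pp_022 : ∃ t, chk3 f_pp_022 t 9 14 1 = true := ex3_a s67_pp_022 s66_pp_022

theorem s69_pp_022 : ∃ t, chk3 f_pp_022 t 9 7 1 = true := ex3_b s68_pp_022 s64_pp_022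

theorem s70_pp_022 : ∃ t, chk3 f_pp_022 t 68 249 1 = true := ex3_b k37_pp_022 k38_pp_022

theorem s71_pp_022 : ∃ t, chk3 f_pp_022 t 68 124 1 = true := ex3_b k36_pp_022 s70_pp_022

theorem s72_pp_022 : ∃ t, chk3 f_pp_022 t 34 124 1 = true := ex3_a s71_pp_022 k39_pp_022

theorem s73_pp_022 : ∃ t, chk3 f_pp_022 t 34 62 1 = true := ex3_b s72_pp_022 k40_pp_022

theorem s74_pp_022 : ∃ t, chk3 f_pp_022 t 17 62 1 = true := ex3_a s73_pp_022 k41_pp_022

theorem s75_pp_022 : ∃ t, chk3 f_pp_022 t 17 31 1 = true := ex3_b s74_pp_022 k42_pp_022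

theorem s76_pp_022 : ∃ t, chk3 f_pp_022 t 70 246 1 = true := ex3_a k32_pp_022 k33_pp_022

theorem s77_pp_022 : ∃ t, chk3 f_pp_022 t 70 123 1 = true := ex3_b s76_pp_022 k34_pp_022

theorem s78_pp_022 : ∃ t, chk3 f_pp_022 t 35 123 1 = true := ex3_a s77_pp_022 k35_pp_022

theorem s79_pp_022 : ∃ t, chk3 f_pp_022 t 71 122 1 = true := ex3_b k30_pp_022 k31_pp_022

theorem s80_pp_022 : ∃ t, chk3 f_pp_022 t 35 122 1 = true := ex3_a k29_pp_022 s79_pp_022

theorem s81_pp_022 : ∃ t, chk3 f_pp_022 t 35 61 1 = true := ex3_b s80_pp_022 s78_pp_022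

theorem s82_pp_022 : ∃ t, chk3 f_pp_022 t 35 30 1 = true := ex3_b k28_pp_022 s81_pp_022

theorem s83_pp_022 : ∃ t, chk3 f_pp_022 t 69 247 1 = true := ex3_a k26_pp_022 k27_pp_022

theorem s84_pp_022 : ∃ t, chk3 f_pp_022 t 69 123 1 = true := ex3_b k25_pp_022 s83_pp_022

theorem s85_pp_022 : ∃ t, chk3 f_pp_022 t 34 123 1 = true := ex3_a k24_pp_022 s84_pp_022

theorem s86_pp_022 : ∃ t, chk3 f_pp_022 t 34 61 1 = true := ex3_b k23_pp_022 s85_pp_022

theorem s87_pp_022 : ∃ t, chk3 f_pp_022 t 34 30 1 = true := ex3_b k22_pp_022 s86_pp_022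

theorem s88_pp_022 : ∃ t, chk3 f_pp_022 t 17 30 1 = true := ex3_a s87_pp_022 s82_pp_022

theorem s89_pp_022 : ∃ t, chk3 f_pp_022 t 17 15 1 = true := ex3_b s88_pp_022 s75_pp_022

theorem s90_pp_022 : ∃ t, chk3 f_pp_022 t 268 502 1 = true := ex3_b k16_pp_022 k17_pp_022

theorem s91_pp_022 : ∃ t, chk3 f_pp_022 t 268 251 1 = true := ex3_b s90_pp_022 k18_pp_022

theorem s92_pp_022 : ∃ t, chk3 f_pp_022 t 134 251 1 = true := ex3_a s91_pp_022 k19_pp_022

theorem s93_pp_022 : ∃ t, chk3 f_pp_022 t 67 251 1 = true := ex3_a s92_pp_022 k20_pp_022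

theorem s94_pp_022 : ∃ t, chk3 f_pp_022 t 135 250 1 = true := ex3_b k14_pp_022 k15_pp_022

theorem s95_pp_022 : ∃ t, chk3 f_pp_022 t 67 250 1 = true := ex3_a k13_pp_022 s94_pp_022

theorem s96_pp_022 : ∃ t, chk3 f_pp_022 t 67 125 1 = true := ex3_b s95_pp_022 s93_pp_022

theorem s97_pp_022 : ∃ t, chk3 f_pp_022 t 267 503 1 = true := ex3_b k11_pp_022 k12_pp_022

theorem s98_pp_022 : ∃ t, chk3 f_pp_022 t 133 503 1 = true := ex3_a k10_pp_022 s97_pp_022

theorem s99_pp_022 : ∃ t, chk3 f_pp_022 t 133 251 1 = true := ex3_b k9_pp_022 s98_pp_022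

theorem s100_pp_022 : ∃ t, chk3 f_pp_022 t 66 251 1 = true := ex3_a k8_pp_022 s99_pp_022

theorem s101_pp_022 : ∃ t, chk3 f_pp_022 t 66 125 1 = true := ex3_b k7_pp_022 s100_pp_022

theorem s102_pp_022 : ∃ t, chk3 f_pp_022 t 33 125 1 = true := ex3_a s101_pp_022 s96_pp_022

theorem s103_pp_022 : ∃ t, chk3 f_pp_022 t 33 62 1 = true := ex3_b k6_pp_022 s102_pp_022

theorem s104_pp_022 : ∃ t, chk3 f_pp_022 t 33 31 1 = true := ex3_b s103_pp_022 k21_pp_022

theorem s105_pp_022 : ∃ t, chk3 f_pp_022 t 16 31 1 = true := ex3_a k5_pp_022 s104_pp_022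

theorem s106_pp_022 : ∃ t, chk3 f_pp_022 t 16 30 1 = true := ex3_a k3_pp_022 k4_pp_022

theorem s107_pp_022 : ∃ t, chk3 f_pp_022 t 16 15 1 = true := ex3_b s106_pp_022 s105_pp_022

theorem s108_pp_022 : ∃ t, chk3 f_pp_022 t 8 15 1 = true := ex3_a s107_pp_022 s89_pp_022

theorem s109_pp_022 : ∃ t, chk3 f_pp_022 t 8 7 1 = true := ex3_b k2_pp_022 s108_pp_022

theorem s110_pp_022 : ∃ t, chk3 f_pp_022 t 4 7 1 = true := ex3_a s109_pp_022 s69_pp_022

theorem s111_pp_022 : ∃ t, chk3 f_pp_022 t 4 3 1 = true := ex3_b k1_pp_022 s110_pp_022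

theorem s112_pp_022 : ∃ t, chk3 f_pp_022 t 2 3 1 = true := ex3_a s111_pp_022 s58_pp_022

theorem s113_pp_022 : ∃ t, chk3 f_pp_022 t 2 1 1 = true := ex3_b k0_pp_022 s112_pp_022

theorem s114_pp_022 : ∃ t, chk3 f_pp_022 t 1 1 1 = true := ex3_a s113_pp_022 k57_pp_022

theorem c_pp_022 : CertN 0 536870912 0 536870912 33554432 16777216 3 true true true .pp 0 2 2
    ndN0q0 ndN0q2 pcN2 cut_pp_022 Ext.none :=
  certNK0 (fam := true) (s1 := true) (s2 := true) (a := 0) (b := 2) (c := 2) (cn := .pp) (n1 := ndN0q0) (n2 := ndN0q2) (pc := pcN2) (cut := cut_pp_022) (xt := Ext.none) (P1 := 0) (W1 := 536870912) (P2 := 0) (W2 := 536870912) (P3 := 33554432) (W3 := 16777216) (N0 := 3)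
    rfl rfl rfl s114_pp_022

noncomputable def f_pp_023 : ℕ → ℕ → ℕ → ℕ → Bool := onCell 1610612736 536870912 0 536870912 33554432 16777216
    (rowNK 3 2 true true true .up 0 2 3 (qsf 0 536870912 0 536870912 3) ndN0q0 ndN0q2 pcN3 Cut.none Ext.none)

def k0_pp_023 : ∃ t, chk3 f_pp_023 t 1 1 1 = true :=
  ⟨(a (b (a (b (a (b (l 17080312) (l 17097928)) (b (l 17097128) (b (l 17090096) (a (l 16895840) (b (l 87745039495) (a (l 84523677975) (l 100629779719))))))) (a (b (a (b (l 16875120) (l 86671373943)) (b (l 84523883575) (a (l 87744924423) (l 95797969719)))) (a (b (b (l 93650530247) (l 4)) (l 4)) (l 4))) (b (b (a (a (l 82376247831) (l 94187362871)) (l 4)) (l 4)) (l 4)))) (a (b (b (a (b (l 16971432) (l 16862608)) (l 2)) (a (b (a (b (l 16835680) (l 88818713303)) (l 84523757527)) (a (l 107072260327) (l 4))) (l 2))) (l 4)) (l 2))) (l 4)) (l 2)), by decide +kernel⟩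

theorem c_pp_023 : CertN 0 536870912 0 536870912 33554432 16777216 3 true true true .up 0 2 3
    ndN0q0 ndN0q2 pcN3 Cut.none Ext.none :=
  certNK2 (fam := true) (s1 := true) (s2 := true) (a := 0) (b := 2) (c := 3) (cn := .up) (n1 := ndN0q0) (n2 := ndN0q2) (pc := pcN3) (cut := Cut.none) (xt := Ext.none) (P1 := 0) (W1 := 536870912) (P2 := 0) (W2 := 536870912) (P3 := 33554432) (W3 := 16777216) (N0 := 3)
    rfl rfl rfl (fun _ => rfl) k0_pp_023

noncomputable def f_pp_101 : ℕ → ℕ → ℕ → ℕ → Bool := onCell 536870912 536870912 0 536870912 33554432 16777216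
    (rowNK 3 0 true true true .npn 1 0 1 (qsf 536870912 536870912 0 536870912 1) ndN0q1 ndN0q0 pcN1 Cut.none Ext.none)

def k0_pp_101 : ∃ t, chk3 f_pp_101 t 1 1 1 = true :=
  ⟨(a (l 4) (l 5)), by decide +kernel⟩

theorem c_pp_101 : CertN 536870912 536870912 0 536870912 33554432 16777216 3 true true true .npn 1 0 1
    ndN0q1 ndN0q0 pcN1 Cut.none Ext.none :=
  certNK0 (fam := true) (s1 := true) (s2 := true) (a := 1) (b := 0) (c := 1) (cn := .npn) (n1 := ndN0q1) (n2 := ndN0q0) (pc := pcN1) (cut := Cut.none) (xt := Ext.none) (P1 := 536870912) (W1 := 536870912) (P2 := 0) (W2 := 536870912) (P3 := 33554432) (W3 := 16777216) (N0 := 3)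
    rfl rfl rfl k0_pp_101

noncomputable def f_pp_102 : ℕ → ℕ → ℕ → ℕ → Bool := onCell 536870912 536870912 0 536870912 33554432 16777216
    (rowNK 3 0 true true true .npp 1 0 2 (qsf 536870912 536870912 0 536870912 2) ndN0q1 ndN0q0 pcN2 Cut.none Ext.none)

def k0_pp_102 : ∃ t, chk3 f_pp_102 t 1 1 1 = true :=
  ⟨(b (l 5) (l 4)), by decide +kernel⟩

theorem c_pp_102 : CertN 536870912 536870912 0 536870912 33554432 16777216 3 true true true .npp 1 0 2
    ndN0q1 ndN0q0 pcN2 Cut.none Ext.none :=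
  certNK0 (fam := true) (s1 := true) (s2 := true) (a := 1) (b := 0) (c := 2) (cn := .npp) (n1 := ndN0q1) (n2 := ndN0q0) (pc := pcN2) (cut := Cut.none) (xt := Ext.none) (P1 := 536870912) (W1 := 536870912) (P2 := 0) (W2 := 536870912) (P3 := 33554432) (W3 := 16777216) (N0 := 3)
    rfl rfl rfl k0_pp_102

noncomputable def f_pp_112 : ℕ → ℕ → ℕ → ℕ → Bool := onCell 536870912 536870912 536870912 536870912 33554432 16777216
    (rowNK 3 0 true true true .dn 1 1 2 (qsf 536870912 536870912 536870912 536870912 2) ndN0q1 ndN0q1 pcN2 Cut.none Ext.none)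

def k0_pp_112 : ∃ t, chk3 f_pp_112 t 1 1 1 = true :=
  ⟨(l 4), by decide +kernel⟩

theorem c_pp_112 : CertN 536870912 536870912 536870912 536870912 33554432 16777216 3 true true true .dn 1 1 2
    ndN0q1 ndN0q1 pcN2 Cut.none Ext.none :=
  certNK0 (fam := true) (s1 := true) (s2 := true) (a := 1) (b := 1) (c := 2) (cn := .dn) (n1 := ndN0q1) (n2 := ndN0q1) (pc := pcN2) (cut := Cut.none) (xt := Ext.none) (P1 := 536870912) (W1 := 536870912) (P2 := 536870912) (W2 := 536870912) (P3 := 33554432) (W3 := 16777216) (N0 := 3)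
    rfl rfl rfl k0_pp_112

noncomputable def f_pp_113 : ℕ → ℕ → ℕ → ℕ → Bool := onCell 536870912 536870912 536870912 536870912 33554432 16777216
    (rowNK 3 0 true true true .nn 1 1 3 (qsf 536870912 536870912 536870912 536870912 3) ndN0q1 ndN0q1 pcN3 Cut.none Ext.none)

def k0_pp_113 : ∃ t, chk3 f_pp_113 t 1 1 1 = true :=
  ⟨(l 4), by decide +kernel⟩

theorem c_pp_113 : CertN 536870912 536870912 536870912 536870912 33554432 16777216 3 true true true .nn 1 1 3
    ndN0q1 ndN0q1 pcN3 Cut.none Ext.none :=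
  certNK0 (fam := true) (s1 := true) (s2 := true) (a := 1) (b := 1) (c := 3) (cn := .nn) (n1 := ndN0q1) (n2 := ndN0q1) (pc := pcN3) (cut := Cut.none) (xt := Ext.none) (P1 := 536870912) (W1 := 536870912) (P2 := 536870912) (W2 := 536870912) (P3 := 33554432) (W3 := 16777216) (N0 := 3)
    rfl rfl rfl k0_pp_113

noncomputable def f_pp_123 : ℕ → ℕ → ℕ → ℕ → Bool := onCell 536870912 536870912 0 536870912 33554432 16777216
    (rowNK 3 0 true true true .npn 1 2 3 (qsf 536870912 536870912 0 536870912 3) ndN0q1 ndN0q2 pcN3 Cut.none Ext.none)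

def k0_pp_123 : ∃ t, chk3 f_pp_123 t 1 1 1 = true :=
  ⟨(a (b (b (a (a (b (a (b (l 16875712) (a (l 50700884151) (b (l 16792320) (l 92576751239)))) (b (l 86671381751) (a (l 105461689687) (l 4)))) (a (b (a (l 101166736663) (l 4)) (l 4)) (l 4))) (b (a (b (a (l 107609177399) (l 4)) (l 4)) (l 4)) (l 4))) (l 4)) (l 4)) (l 4)) (l 4)), by decide +kernel⟩

theorem c_pp_123 : CertN 536870912 536870912 0 536870912 33554432 16777216 3 true true true .npn 1 2 3
    ndN0q1 ndN0q2 pcN3 Cut.none Ext.none :=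
  certNK0 (fam := true) (s1 := true) (s2 := true) (a := 1) (b := 2) (c := 3) (cn := .npn) (n1 := ndN0q1) (n2 := ndN0q2) (pc := pcN3) (cut := Cut.none) (xt := Ext.none) (P1 := 536870912) (W1 := 536870912) (P2 := 0) (W2 := 536870912) (P3 := 33554432) (W3 := 16777216) (N0 := 3)
    rfl rfl rfl k0_pp_123

noncomputable def f_pp_202 : ℕ → ℕ → ℕ → ℕ → Bool := onCell 0 536870912 0 536870912 33554432 16777216
    (rowNK 3 0 true true true .pp 2 0 2 (qsf 0 536870912 0 536870912 2) ndN0q2 ndN0q0 pcN2 Cut.none Ext.none)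

def k0_pp_202 : ∃ t, chk3 f_pp_202 t 1 1 1 = true :=
  ⟨(l 5), by decide +kernel⟩

theorem c_pp_202 : CertN 0 536870912 0 536870912 33554432 16777216 3 true true true .pp 2 0 2
    ndN0q2 ndN0q0 pcN2 Cut.none Ext.none :=
  certNK0 (fam := true) (s1 := true) (s2 := true) (a := 2) (b := 0) (c := 2) (cn := .pp) (n1 := ndN0q2) (n2 := ndN0q0) (pc := pcN2) (cut := Cut.none) (xt := Ext.none) (P1 := 0) (W1 := 536870912) (P2 := 0) (W2 := 536870912) (P3 := 33554432) (W3 := 16777216) (N0 := 3)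
    rfl rfl rfl k0_pp_202

noncomputable def f_pp_203 : ℕ → ℕ → ℕ → ℕ → Bool := onCell 0 536870912 0 536870912 33554432 16777216
    (rowNK 3 0 true true true .up 2 0 3 (qsf 0 536870912 0 536870912 3) ndN0q2 ndN0q0 pcN3 Cut.none Ext.none)

def k0_pp_203 : ∃ t, chk3 f_pp_203 t 1 1 1 = true :=
  ⟨(l 5), by decide +kernel⟩

theorem c_pp_203 : CertN 0 536870912 0 536870912 33554432 16777216 3 true true true .up 2 0 3
    ndN0q2 ndN0q0 pcN3 Cut.none Ext.none :=
  certNK0 (fam := true) (s1 := true) (s2 := true) (a := 2) (b := 0) (c := 3) (cn := .up) (n1 := ndN0q2) (n2 := ndN0q0) (pc := pcN3) (cut := Cut.none) (xt := Ext.none) (P1 := 0) (W1 := 536870912) (P2 := 0) (W2 := 536870912) (P3 := 33554432) (W3 := 16777216) (N0 := 3)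
    rfl rfl rfl k0_pp_203

noncomputable def f_pp_213 : ℕ → ℕ → ℕ → ℕ → Bool := onCell 0 536870912 536870912 536870912 33554432 16777216
    (rowNK 3 0 true true true .pnn 2 1 3 (qsf 0 536870912 536870912 536870912 3) ndN0q2 ndN0q1 pcN3 Cut.none Ext.none)

def k0_pp_213 : ∃ t, chk3 f_pp_213 t 1 1 1 = true :=
  ⟨(a (l 5) (l 4)), by decide +kernel⟩

theorem c_pp_213 : CertN 0 536870912 536870912 536870912 33554432 16777216 3 true true true .pnn 2 1 3
    ndN0q2 ndN0q1 pcN3 Cut.none Ext.none :=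
  certNK0 (fam := true) (s1 := true) (s2 := true) (a := 2) (b := 1) (c := 3) (cn := .pnn) (n1 := ndN0q2) (n2 := ndN0q1) (pc := pcN3) (cut := Cut.none) (xt := Ext.none) (P1 := 0) (W1 := 536870912) (P2 := 536870912) (W2 := 536870912) (P3 := 33554432) (W3 := 16777216) (N0 := 3)
    rfl rfl rfl k0_pp_213

noncomputable def f_pm_001 : ℕ → ℕ → ℕ → ℕ → Bool := onCell 0 536870912 0 536870912 33554432 16777216
    (rowNK 3 0 true true false .up 0 0 1 (qsf 0 536870912 0 536870912 1) ndN0q0 ndN0q0 pcN1 Cut.none Ext.none)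

def k0_pm_001 : ∃ t, chk3 f_pm_001 t 1 1 1 = true :=
  ⟨(l 3), by decide +kernel⟩

theorem c_pm_001 : CertN 0 536870912 0 536870912 33554432 16777216 3 true true false .up 0 0 1
    ndN0q0 ndN0q0 pcN1 Cut.none Ext.none :=
  certNK0 (fam := true) (s1 := true) (s2 := false) (a := 0) (b := 0) (c := 1) (cn := .up) (n1 := ndN0q0) (n2 := ndN0q0) (pc := pcN1) (cut := Cut.none) (xt := Ext.none) (P1 := 0) (W1 := 536870912) (P2 := 0) (W2 := 536870912) (P3 := 33554432) (W3 := 16777216) (N0 := 3)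
    rfl rfl rfl k0_pm_001

noncomputable def cut_pm_011 : Cut := Cut.of [[⟨0, 0, 0, 33554432⟩, ⟨1, 1, 0, 33554432⟩, ⟨2, 1, 0, 33554432⟩]]

noncomputable def f_pm_011 : ℕ → ℕ → ℕ → ℕ → Bool := onCell 536870912 536870912 536870912 536870912 33554432 16777216
    (rowNK 3 2 true true false .pnn 0 1 1 (qsf 0 536870912 536870912 536870912 1) ndN0q0 ndN0q1 pcN1 cut_pm_011 Ext.none)

def k0_pm_011 : ∃ t, chk3 f_pm_011 t 1 1 1 = true :=
  ⟨(a (l 3) (b (l 3) (a (l 3) (b (l 3) (a (l 3) (b (l 3) (a (l 3) (b (l 3) (a (l 3) (b (l 3) (l 6))))))))))), by decide +kernel⟩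

theorem c_pm_011 : CertN 0 536870912 536870912 536870912 33554432 16777216 3 true true false .pnn 0 1 1
    ndN0q0 ndN0q1 pcN1 cut_pm_011 Ext.none :=
  certNK2 (fam := true) (s1 := true) (s2 := false) (a := 0) (b := 1) (c := 1) (cn := .pnn) (n1 := ndN0q0) (n2 := ndN0q1) (pc := pcN1) (cut := cut_pm_011) (xt := Ext.none) (P1 := 0) (W1 := 536870912) (P2 := 536870912) (W2 := 536870912) (P3 := 33554432) (W3 := 16777216) (N0 := 3)
    rfl rfl rfl (fun _ => rfl) k0_pm_011

end Pool.Agent.Strip051.G.I1_32_3_64.Tab.C.NA00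

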