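import Pool.Agent.Strip051.G.I1_32_3_64.Tab
import Pool.Agent.Strip051.PB.RowK

/-! # Certificates N1 (generated) -/

set_option linter.all false
set_option maxRecDepth 100000

namespace Pool.Agent.Strip051.G.I1_32_3_64.Tab.C.NA00

open Pool.Agent.Strip051.PB Pool.Agent.Strip051.PB.T
open Pool.Agent.Strip051.G.I1_32_3_64.Tab

noncomputable def cut_pm_012 : Cut := Cut.of [[⟨0, 0, 0, 33554432⟩, ⟨1, 1, 0, 33554432⟩, ⟨2, 1, 0, 33554432⟩], [⟨0, 0, 1, 16777216⟩, ⟨1, 1, 0, 6291456⟩, ⟨2, 1, 1, 16777216⟩, ⟨0, 0, 0, 67108864⟩, ⟨0, 1, 0, 1056964608⟩, ⟨2, 1, 0, 67108864⟩, ⟨2, 2, 0, 1056964608⟩]]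

noncomputable def f_pm_012 : ℕ → ℕ → ℕ → ℕ → Bool := onCell 1073741824 536870912 536870912 536870912 33554432 16777216
    (rowNK 3 2 true true false .pnp 0 1 2 (qsf 0 536870912 536870912 536870912 2) ndN0q0 ndN0q1 pcN2 cut_pm_012 Ext.none)

def k0_pm_012 : ∃ t, chk3 f_pm_012 t 2 2 1 = true :=
  ⟨(a (a (l 3) (l 3)) (b (a (a (a (l 3) (l 2)) (l 2)) (l 2)) (a (a (a (b (l 3) (b (l 3) (a (l 3) (b (l 196662636551) (l 118816364775))))) (a (b (b (l 3) (a (l 3) (l 191293934823))) (b (a (l 185388401943) (l 16866328)) (a (l 16905480) (l 16895976)))) (b (a (b (l 93583432567) (l 16843136)) (a (b (l 16843240) (l 16845640)) (b (l 16805696) (l 16804040)))) (a (b (l 16868600) (l 16913752)) (a (b (l 16850304) (l 16914032)) (l 16975136)))))) (b (a (l 16941320) (l 16947144)) (a (l 17014088) (l 16911040)))) (b (a (l 17060224) (l 2)) (l 30703066775))))), by decide +kernel⟩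

def k1_pm_012 : ∃ t, chk3 f_pm_012 t 4 6 1 = true :=
  ⟨(a (l 3) (b (a (l 3) (a (l 3) (b (l 3) (a (l 140291247671) (b (l 149417964839) (l 93583405527)))))) (a (b (l 3) (a (l 3) (a (l 3) (b (l 3) (a (l 3) (b (l 3) (l 78550997079))))))) (a (b (a (l 3) (b (l 3) (l 140828069319))) (a (b (a (l 121500675655) (l 129553758551)) (b (l 83382909783) (l 16802264))) (b (a (l 82309169431) (l 16806240)) (l 16833952)))) (b (a (b (l 123111314647) (l 16847264)) (l 16898240)) (b (l 16939552) (l 16926776))))))), by decide +kernel⟩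

def k2_pm_012 : ∃ t, chk3 f_pm_012 t 8 14 1 = true :=
  ⟨(a (l 3) (b (l 3) (a (l 3) (b (l 3) (a (b (l 3) (a (l 3) (b (l 3) (a (l 114521317255) (b (l 104320763447) (a (l 86067158359) (l 16794680))))))) (b (a (b (l 3) (l 115595082791)) (b (l 103783937127) (a (a (l 89825266471) (l 60297361975)) (l 16794312)))) (a (b (a (l 98952075719) (b (l 78014104023) (l 16800760))) (a (b (a (l 16797056) (l 16799896)) (l 16809128)) (l 16822376))) (l 16796552)))))))), by decide +kernel⟩

def k3_pm_012 : ∃ t, chk3 f_pm_012 t 32 30 1 = true :=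
  ⟨(l 3), by decide +kernel⟩

def k4_pm_012 : ∃ t, chk3 f_pm_012 t 33 60 1 = true :=
  ⟨(l 3), by decide +kernel⟩

def k5_pm_012 : ∃ t, chk3 f_pm_012 t 33 61 1 = true :=
  ⟨(a (l 3) (b (l 3) (a (l 3) (b (l 3) (a (b (l 3) (a (l 3) (b (l 3) (a (a (l 3) (b (l 3) (c (b (l 100025784711) (l 91435850535)) (b (l 101636396135) (a (l 102173266759) (b (l 101099524663) (l 16787448))))))) (b (c (a (l 99488914359) (b (l 99488913911) (l 80698432695))) (a (b (l 3) (l 100025783783)) (a (b (l 3) (c (l 96804558455) (l 95730816023))) (b (l 99488912599) (c (l 16787888) (l 16787760)))))) (c (a (b (l 84993399847) (l 16788400)) (l 16788840)) (a (b (a (l 101099525015) (b (l 98415170151) (l 16787792))) (l 16787760)) (l 16787640)))))))) (a (b (b (l 3) (a (l 3) (b (l 3) (c (l 102710141671) (a (l 3) (l 102173268871)))))) (b (a (b (c (l 99488916151) (a (l 3) (l 102173268839))) (a (b (l 3) (a (l 102710138503) (a (l 101636396327) (l 102710138359)))) (a (b (l 102173267655) (b (l 102710138135) (l 16788216))) (b (a (l 102710138679) (l 99488913031))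 (l 16788584))))) (a (b (b (l 101099526519) (a (l 101636396967) (a (l 102173267831) (l 91972720375)))) (a (a (b (l 16787944) (l 16788480)) (l 16788584)) (l 16788472))) (b (b (a (l 103247010023) (a (l 96267687911) (l 16788496))) (l 16788800)) (l 16789280)))) (a (a (b (b (a (b (l 103247009015) (l 16788032)) (l 16788504)) (l 16788224)) (l 16789336)) (l 16789784)) (l 16793152)))) (a (b (b (l 3) (a (b (l 3) (a (b (l 104320752295) (l 101099526407)) (b (l 101099526471) (l 16788568)))) (a (b (l 101636397399) (b (l 94657075367) (l 16788952))) (b (l 104857623175) (l 16788952))))) (a (b (b (l 16788736) (l 16791216)) (l 16797008)) (l 16790296))) (b (b (b (l 3) (a (l 101636398039) (b (l 103247011159) (l 98415172039)))) (b (a (b (l 103247010311) (a (l 87140882535) (l 16789104))) (a (b (l 16788712) (l 16788952)) (l 16789024))) (l 16790008))) (l 16789072))))))))), by decide +kernel⟩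

def k6_pm_012 : ∃ t, chk3 f_pm_012 t 64 31 1 = true :=
  ⟨(b (l 3) (l 6)), by decide +kernel⟩

def k7_pm_012 : ∃ t, chk3 f_pm_012 t 65 62 1 = true :=
  ⟨(b (l 3) (a (l 3) (b (l 3) (a (l 3) (b (l 3) (a (l 3) (b (l 3) (b (a (l 3) (b (b (l 3) (b (l 3) (a (l 3) (a (l 3) (a (l 3) (a (l 102173253783) (c (l 92509577591) (l 89825222551)))))))) (b (a (l 3) (b (a (l 3) (a (c (l 97341415831) (l 95730802615)) (a (b (c (l 90898964711) (l 86067126087)) (l 16781232)) (c (l 16781504) (l 16781192))))) (a (a (l 3) (c (l 99488899495) (l 97878286231))) (a (a (b (c (l 95730802887) (l 90898964295)) (c (l 16781328) (l 16781184))) (c (l 16781320) (l 16781096))) (l 16781272))))) (b (a (l 3) (a (a (c (l 100562641287) (l 100025769863)) (a (b (l 96804544455) (c (l 73719095367) (l 67813514903))) (a (b (l 76940320615) (l 16781296)) (l 16781304)))) (l 16781216))) (a (a (l 3) (c (l 102173254007) (l 101099511783))) (a (a (a (b (l 101099511719) (c (l 79087804455) (l 73719094935))) (b (c (l 76403449943) (l 70497869479)) (l 16781272)))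 (l 16781240)) (l 16781104))))))) (b (a (l 3) (b (a (b (a (l 3) (a (c (l 101099512151) (l 101636382551)) (a (c (l 89825222791) (c (l 87677738823) (l 86067125879))) (b (c (l 81772158983) (l 76403449495)) (l 16781248))))) (a (c (l 102173253975) (l 101099511751)) (a (a (c (l 93046448231) (l 90362093207)) (b (c (l 86603997175) (l 81772158599)) (l 16781072))) (l 16781056)))) (c (c (l 16781264) (l 16781104)) (l 16780880))) (a (b (a (b (c (l 98415157415) (c (l 95730802647) (l 95730802359))) (l 6)) (a (c (l 16781176) (l 16781032)) (l 16781104))) (a (l 6) (l 16781040))) (l 16780792)))) (a (l 6) (a (a (l 6) (l 16780744)) (l 16780424)))))))))))), by decide +kernel⟩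

def k8_pm_012 : ∃ t, chk3 f_pm_012 t 65 63 1 = true :=
  ⟨(b (b (a (l 6) (a (l 6) (b (a (l 6) (b (b (a (l 6) (l 16781208)) (l 6)) (l 6))) (l 6)))) (l 6)) (l 6)), by decide +kernel⟩

def k9_pm_012 : ∃ t, chk3 f_pm_012 t 132 124 1 = true :=
  ⟨(l 3), by decide +kernel⟩

def k10_pm_012 : ∃ t, chk3 f_pm_012 t 133 248 1 = true :=
  ⟨(l 3), by decide +kernel⟩

def k11_pm_012 : ∃ t, chk3 f_pm_012 t 266 249 1 = true :=
  ⟨(l 3), by decide +kernel⟩

def k12_pm_012 : ∃ t, chk3 f_pm_012 t 267 498 1 = true :=
  ⟨(l 3), by decide +kernel⟩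

def k13_pm_012 : ∃ t, chk3 f_pm_012 t 534 998 1 = true :=
  ⟨(l 3), by decide +kernel⟩

def k14_pm_012 : ∃ t, chk3 f_pm_012 t 534 1998 1 = true :=
  ⟨(b (l 3) (a (l 3) (a (l 3) (a (a (l 3) (b (l 3) (a (l 3) (b (l 3) (c (l 100562647527) (l 102173259335)))))) (b (a (l 3) (b (l 3) (c (l 100025776807) (c (l 100025776311) (l 100562646775))))) (b (c (l 98952035271) (a (c (l 100025776279) (l 101099517655)) (a (c (l 97878292503) (c (l 97878292295) (l 97878292071))) (b (l 16784256) (l 16784288))))) (a (c (l 100025776759) (c (l 97341421735) (a (l 98952033847) (b (l 96804550055) (l 16784136))))) (l 16784000)))))))), by decide +kernel⟩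

def k15_pm_012 : ∃ t, chk3 f_pm_012 t 534 1999 1 = true :=
  ⟨(b (a (l 3) (a (a (l 3) (b (a (l 3) (b (l 3) (c (l 100562647623) (l 102710130343)))) (a (b (l 3) (c (l 99488905511) (c (l 99488905079) (a (l 101099517287) (a (l 100025775351) (l 98415162647)))))) (c (a (l 100025776727) (l 88751487463)) (a (b (l 101636388247) (b (c (l 16784240) (l 96804549895)) (l 16784128))) (b (b (l 100562646295) (a (l 97878291671) (l 16784136))) (l 16784256))))))) (a (a (b (c (l 100025777015) (b (c (l 100562647143) (l 101636388519)) (a (c (l 100025775975) (l 100025775559)) (b (l 99488904551) (l 16784168))))) (a (b (b (c (l 16784592) (c (l 16784256) (l 16784048))) (l 16784376)) (l 16784528)) (l 16784544))) (b (b (c (l 100025776759) (a (c (l 99488905111) (l 99488904679)) (b (l 98952033639) (l 16784192)))) (c (l 16784632) (l 16784296))) (l 16784496))) (b (c (l 16784808) (c (l 16784448) (l 16784048))) (l 16784376))))) (a (b (l 3) (a (l 3) (a (l 3) (c (l 100562647543) (a (a (l 3) (b (l 3) (l 102173258919))) (b (c (l 100025775911)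 (l 101099517239)) (a (c (l 98952033831) (c (l 98415162711) (l 98415162535))) (b (c (l 16784128) (l 96804549687)) (l 16784032))))))))) (a (b (b (a (c (l 99488905751) (c (l 99488905319) (c (l 99488905063) (a (l 3) (l 100025775479))))) (a (a (b (c (l 98952034311) (l 98952033463)) (l 16784304)) (l 16784336)) (l 16784496))) (a (c (l 95730809383) (a (c (l 100025775927) (c (l 100025775671) (l 100025775463))) (a (b (l 100025775255) (l 16784064)) (l 16784096)))) (l 16784440))) (a (a (b (c (l 95730809063) (a (b (l 100562646135) (a (l 97878291463) (l 16784032))) (b (a (l 16784048) (l 16784048)) (l 16784088)))) (l 16783776)) (l 16783760)) (l 16784304))) (l 16784144)))), by decide +kernel⟩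

def k16_pm_012 : ∃ t, chk3 f_pm_012 t 535 1996 1 = true :=
  ⟨(a (l 3) (a (a (l 3) (a (l 3) (a (l 3) (b (l 3) (c (l 99488907303) (c (l 99488906807) (b (l 3) (l 101099518551)))))))) (a (b (l 3) (a (b (l 3) (c (l 99488907031) (c (l 99488906551) (b (l 100562647559) (a (l 98952034599) (a (l 16784528) (l 16784544))))))) (b (b (l 3) (c (l 100025777671) (a (l 102173260327) (l 100562647495)))) (b (a (c (l 98415164679) (c (l 97878293303) (l 97878292919))) (l 16784896)) (l 16785096))))) (b (a (l 3) (b (l 3) (c (l 98952036183) (b (l 102710131479) (a (l 101636389463) (a (l 100025776583) (l 98415163895))))))) (b (a (c (l 97341423447) (b (c (l 99488906263) (l 100025776743)) (a (b (l 98952034647) (l 16784688)) (l 16784712)))) (a (b (b (c (l 16785208) (l 97878292855)) (l 16784944)) (l 16785144)) (l 16784528))) (l 16785064)))))), by decide +kernel⟩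

def k17_pm_012 : ∃ t, chk3 f_pm_012 t 535 1997 1 = true :=
  ⟨(b (a (l 3) (b (a (b (a (l 3) (c (l 100025777895) (a (c (l 100562647991) (l 101099518423)) (a (c (l 98952035015) (l 99488905495)) (b (l 98415163559) (l 16784616)))))) (a (a (l 3) (c (l 101099519319) (l 102710131079))) (c (l 88214617639) (a (a (l 100562647287) (b (l 99488905351) (l 16784584))) (l 16784688))))) (a (a (l 16784400) (l 16784992)) (l 16784872))) (a (b (a (c (l 95730810871) (a (l 102173260231) (a (l 101099518167) (c (l 97878293095) (l 97878292679))))) (a (c (l 16785024) (l 16784608)) (l 16784992))) (a (c (l 93046455767) (b (a (l 101636389047) (a (l 16784544) (l 16784568))) (a (c (l 98952034855) (l 98952034407)) (l 16784616)))) (l 16784936))) (l 16784744)))) (b (a (a (l 3) (a (l 3) (c (l 98952035767) (a (b (l 3) (c (l 100025776727) (l 100562647175))) (b (c (l 99488905847) (c (l 99488905623) (l 99488905383))) (a (b (l 99488905143) (l 16784480)) (l 16784504))))))) (a (b (a (a (a (b (c (l 16784984) (l 98415163351)) (l 16784728)) (l 16784752))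 (l 16784952)) (l 16784848)) (l 16784176)) (l 16784520))) (a (a (l 3) (b (a (a (l 3) (a (l 3) (c (l 100025777079) (l 101636388871)))) (a (c (l 98415164535) (a (b (l 100562646919) (l 16784456)) (l 16784464))) (l 16784904))) (a (c (l 100025777495) (b (a (l 3) (a (l 101099517799) (l 97341421399))) (a (l 102173259751) (a (l 97878292247) (l 16784440))))) (l 16784200)))) (l 16784488)))), by decide +kernel⟩

def k18_pm_012 : ∃ t, chk3 f_pm_012 t 535 999 1 = true :=
  ⟨(b (a (b (b (a (a (l 3) (c (l 101099519303) (a (a (l 3) (c (l 100562647655) (l 101636389015))) (b (a (l 3) (l 102173259735)) (a (c (l 99488905495) (l 100025775975)) (b (l 99488904919) (l 16784376))))))) (a (c (a (a (l 95730809943) (l 83919649767)) (l 16785064)) (a (b (a (c (l 99488905527) (l 99488905063)) (b (l 98415163143) (l 16784400))) (l 16784488)) (l 16784584))) (l 16784720))) (a (c (a (l 101099519255) (a (l 91972713527) (l 16784984))) (b (a (l 3) (a (a (l 101636388663) (b (l 100562646711) (l 16784184))) (a (a (l 16784352) (l 16784376)) (l 16784568))))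 (a (a (l 3) (a (l 102173259543) (b (l 101636388503) (l 97878292039)))) (b (a (a (l 97341421239) (l 16784360)) (l 16784528)) (l 16784512))))) (l 16784608))) (a (a (b (b (c (l 94657068039) (a (c (l 99488905463) (c (l 99488905207) (l 100025775895))) (a (b (l 98415162967) (l 16784296)) (l 16784352)))) (a (a (b (c (l 99488905639) (l 100025775623)) (l 16784160)) (l 16784176)) (l 16784704))) (l 16783952)) (l 16784552)) (l 16784272))) (l 16783888)) (l 16784880)), by decide +kernel⟩

def k19_pm_012 : ∃ t, chk3 f_pm_012 t 264 250 1 = true :=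
  ⟨(l 3), by decide +kernel⟩

def k20_pm_012 : ∃ t, chk3 f_pm_012 t 265 500 1 = true :=
  ⟨(l 3), by decide +kernel⟩

def k21_pm_012 : ∃ t, chk3 f_pm_012 t 530 501 1 = true :=
  ⟨(b (l 3) (a (l 3) (a (l 3) (a (l 3) (b (l 3) (b (l 3) (b (l 3) (b (a (l 3) (c (l 95730805767) (a (l 103246997767) (b (l 103246997639) (c (l 84993386871) (l 81235290103)))))) (a (c (l 98415160295) (a (l 101636384903) (b (l 101099513863) (c (l 90362095991) (l 87677741047))))) (a (b (c (l 91972709111) (c (l 87677741415) (l 84456515575))) (l 16782688)) (l 16782680))))))))))), by decide +kernel⟩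

def k22_pm_012 : ∃ t, chk3 f_pm_012 t 531 1002 1 = true :=
  ⟨(a (l 3) (b (l 3) (a (l 3) (b (l 3) (b (a (l 3) (b (c (l 100562645031) (a (l 3) (a (l 101636385799) (b (l 100562643815) (a (l 102173256567) (l 16782880)))))) (a (c (l 100562644887) (a (l 102173256647) (a (l 100025772999) (b (l 100562643751) (l 16782840))))) (a (b (a (c (l 97878289927) (l 97341418343)) (l 16782872)) (l 16783152)) (l 16783168))))) (a (a (a (l 3) (b (l 3) (c (l 99488902775) (c (l 98952031447) (c (l 100562644103) (l 101099514791)))))) (c (b (l 100562644855) (a (l 91972710007) (l 16783280))) (a (b (l 102710127527) (b (c (l 97878289559) (l 101099514695)) (l 16782824))) (b (a (l 101099514711) (b (l 101636385543) (l 100025772823))) (l 16782928))))) (b (a (a (b (c (l 100562644599) (a (l 98952030951) (l 96267676471))) (l 16783040)) (l 16782816)) (l 16783096)) (l 16783048)))))))), by decide +kernel⟩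

def k23_pm_012 : ∃ t, chk3 f_pm_012 t 531 4012 1 = true :=
  ⟨(a (l 3) (b (a (a (l 3) (a (b (l 3) (c (l 100025773703) (l 101636385703))) (c (a (l 100025773895) (b (l 100025773575) (l 80698420695))) (a (b (l 3) (b (l 101099514471) (a (l 102173256327) (l 16782752)))) (b (l 101099514711) (b (a (l 101099514519) (l 16782776)) (l 16782864))))))) (a (a (b (c (a (l 95730806359) (l 16783176)) (a (b (l 100025772775) (a (l 97341418167) (l 16782800))) (b (c (l 16782880) (l 80698419879)) (l 16782888)))) (l 16783040)) (l 16783016)) (l 16782888))) (a (b (a (a (l 3) (c (l 100562644583) (l 102173256535))) (a (a (c (l 100562644503) (a (l 100562643671) (b (l 101636385335) (l 94120192599)))) (b (c (l 100562644391) (a (l 97878288999) (l 16782728))) (l 16782992))) (l 16782696))) (a (a (c (l 100562644551) (l 102173256519)) (a (c (l 101099515383) (c (l 101099514967) (l 101636385511))) (b (c (l 100562644343) (c (l 100562643943) (l 98952030839))) (l 16782576)))) (c (l 16782840) (c (l 16782872) (l 16782672))))) (l 16782760)))),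 by decide +kernel⟩

def k24_pm_012 : ∃ t, chk3 f_pm_012 t 531 4013 1 = true :=
  ⟨(b (a (b (l 3) (a (l 3) (a (l 3) (c (l 99488902727) (a (l 3) (a (l 101099514471) (b (l 100562643447) (a (l 98952030647) (l 16782672))))))))) (a (a (b (c (a (l 95193935351) (l 16782848)) (a (a (c (l 99488902119) (l 101636385479)) (b (l 102710127207) (c (l 16782768) (l 16782608)))) (a (a (l 16782624) (l 16782792)) (l 16782768)))) (b (a (a (c (l 16783016) (c (l 86067129191) (l 82309032391))) (l 16782960)) (l 16782920)) (l 16782576))) (l 16782824)) (l 16782528))) (a (a (l 3) (a (a (l 3) (b (l 3) (c (l 100562644375) (a (l 102173256199) (a (l 101099514295) (b (l 102173256007) (l 96267675991))))))) (b (a (c (l 100562644407) (a (l 101636385319) (b (l 101099514327) (a (l 97878288775) (l 16782624))))) (a (b (a (c (l 97878289463) (l 102173256103)) (l 16782648)) (l 16782928)) (l 16782928))) (a (a (b (c (l 100562644135) (c (l 97878289175) (l 94657063351))) (l 16782520)) (l 16782576)) (l 16782856))))) (l 16783152))), by decide +kernel⟩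

def k25_pm_012 : ∃ t, chk3 f_pm_012 t 531 2007 1 = true :=
  ⟨(a (a (a (b (a (l 3) (b (l 3) (a (l 3) (c (l 100025773351) (l 101636385335))))) (b (a (c (a (l 101099515079) (b (l 101099514855) (l 89825225639))) (b (l 102173256071) (a (l 102710126887) (b (l 102173255847) (l 16782328))))) (b (a (c (l 101099514919) (c (l 100562643607) (l 100025772327))) (b (c (l 100562643879) (c (l 98415159847) (l 95193934023))) (l 16782384))) (a (c (l 16782944) (l 16782400)) (l 16782720)))) (a (a (b (b (c (l 16782784) (c (l 16782536) (l 78014064663))) (l 16782712)) (l 16782648)) (l 16782656)) (l 16782600)))) (a (b (b (l 3) (a (b (l 3) (b (l 102710126935) (c (l 100025772983) (c (l 95730805303) (l 92509579447))))) (b (c (l 100562643991) (l 101636385143)) (b (c (l 96804547543) (c (l 93046450727) (l 89825224919))) (l 16782472))))) (b (a (b (l 16782448) (l 16782688)) (l 16782696)) (l 16782512))) (b (b (b (l 3) (a (l 3) (c (l 100025773143) (l 103246997991)))) (b (c (a (l 97341418583) (l 77477194743)) (a (b (l 100562643191) (c (l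 89825225287) (l 86603999431))) (b (c (l 87140870759) (l 83919644919)) (l 16782632)))) (l 16782448))) (l 16782528)))) (b (a (b (b (a (a (l 3) (c (l 101099515159) (c (l 101099514727) (l 101636385271)))) (c (a (l 89288354999) (l 16783080)) (a (b (l 101099514263) (l 16782624)) (l 16782688)))) (a (c (a (l 93046451335) (l 16782984)) (a (b (l 102710126967) (c (l 83919645303) (l 80698419415))) (a (b (l 16782560) (l 16782656)) (l 16782664)))) (l 16782816))) (l 16782304)) (l 16782648)) (l 16782280))) (l 16783192)), by decide +kernel⟩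

def k26_pm_012 : ∃ t, chk3 f_pm_012 t 532 500 1 = true :=
  ⟨(b (l 3) (a (l 3) (b (l 3) (b (a (l 3) (a (l 3) (c (b (l 99488904551) (a (l 100562646039) (b (l 100025774951) (l 75329712727)))) (a (b (l 3) (b (l 3) (a (l 101636386631) (b (l 101099515591) (a (l 97341419143) (l 16783296)))))) (b (b (l 3) (l 102173257799)) (a (b (c (l 100025774279) (l 100025773911)) (b (a (l 96804548247) (l 16783312)) (l 16783448))) (b (b (l 100025773799) (a (c (l 16783416) (l 16783216)) (l 16783336))) (l 16783448)))))))) (a (a (l 3) (b (l 3) (c (a (l 100025774855) (a (l 100025774839) (b (l 100025774519) (l 16783592)))) (a (a (l 3) (b (l 3) (l 101636386407))) (b (c (l 100025774215) (c (l 100025773991) (l 99488902951))) (b (a (l 100562644471) (a (c (l 16783296) (l 95730806263)) (l 16783216))) (a (a (l 96804548023) (l 16783200)) (l 16783344)))))))) (b (b (a (c (l 100562645991) (a (l 3) (a (l 102173257511) (a (l 100562644695) (b (l 101099515495) (a (l 16783264) (l 16783264))))))) (a (a (c (l 90362098247) (b (a (l 98415160951) (l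 16783280)) (l 16783336))) (l 16782976)) (l 16783592))) (a (a (c (l 99488903783) (a (l 102710128391) (c (l 98952032327) (l 99488902871)))) (a (b (c (l 98415161703) (c (l 97878290407) (l 97878290071))) (l 16783120)) (l 16783256))) (l 16783536))) (a (a (b (b (c (l 96804549143) (a (l 99488902679) (l 16783240))) (a (a (b (l 16783088) (l 16783408)) (l 16783424)) (l 16783576))) (l 16783528)) (l 16783504)) (l 16783384)))))))), by decide +kernel⟩

def k27_pm_012 : ∃ t, chk3 f_pm_012 t 1066 1000 1 = true :=
  ⟨(l 3), by decide +kernel⟩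

def k28_pm_012 : ∃ t, chk3 f_pm_012 t 1067 1000 1 = true :=
  ⟨(a (b (l 3) (b (l 3) (a (b (l 3) (c (a (l 100025775735) (c (l 97341421495) (l 95730808407))) (a (a (l 3) (b (l 3) (l 101636387255))) (a (b (l 3) (b (l 101636387127) (c (l 97341420199) (l 96804548919)))) (b (c (l 100025774919) (l 100562645415)) (a (b (l 97878290615) (l 16783616)) (l 16783632))))))) (b (c (a (l 99488904871) (b (l 99488904695) (l 88214615479))) (a (b (l 3) (a (l 103247000071) (b (l 103246999943) (l 100025774439)))) (a (b (l 102710129175) (b (l 99488903543) (l 16783648))) (b (c (l 98952033175) (l 99488903687)) (l 16783712))))) (a (b (c (l 91435840935) (b (a (l 100562645335) (a (l 16783632) (l 16783640))) (a (a (l 97341419767) (l 16783624)) (l 16783760)))) (l 16783320)) (l 16783304)))))) (b (a (l 3) (a (l 3) (b (l 3) (b (l 3) (a (l 3) (b (l 3) (c (l 100562646647) (l 102173258503)))))))) (a (b (b (a (l 3) (b (l 3) (c (l 101099517655) (l 102710129511)))) (a (c (l 100562646951) (b (l 3) (a (l 102173258295) (b (l 101636387303) (a (l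 98952032631) (l 16783696)))))) (c (b (l 100562646743) (l 81772164615)) (a (b (c (l 100025775143) (l 100562645623)) (b (a (l 98415161735) (l 16783712)) (l 16783744))) (b (b (l 100562645543) (a (l 97341419927) (l 16783728))) (l 16783880)))))) (a (b (b (a (b (c (l 98415162615) (c (l 97878291271) (l 97878290855))) (l 16783880)) (l 16783624)) (l 16784024)) (l 16783888)) (l 16783904))) (b (b (a (c (l 100025776103) (b (l 102710129527) (a (c (l 100025775143) (l 100025774727)) (b (l 99488903751) (l 16783752))))) (c (b (l 100025775895) (l 16784240)) (b (a (c (l 99488904279) (l 99488903895)) (b (c (l 97878291431) (l 97878291047)) (l 16783784))) (c (l 16784048) (l 16783832))))) (b (a (a (a (b (c (l 16784160) (l 16783736)) (l 16783944)) (l 16783960)) (l 16784128)) (l 16784080)) (l 16784032))) (l 16783776))))), by decide +kernel⟩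

def k29_pm_012 : ∃ t, chk3 f_pm_012 t 533 2002 1 = true :=
  ⟨(b (b (a (a (l 3) (a (l 3) (c (l 101099517479) (a (b (l 3) (l 102710129095)) (b (l 102710129111) (a (c (l 99488903831) (l 100025774343)) (b (l 99488903335) (l 16783552)))))))) (a (a (c (a (b (l 97878291799) (l 16784096)) (l 16784136)) (a (b (a (c (l 98952032983) (c (l 98952032791) (l 98952032583))) (b (c (l 97878291015) (l 97341419767)) (l 16783592))) (c (l 16783824) (l 16783608))) (l 16783376))) (l 16783808)) (l 16783528))) (a (a (l 3) (b (a (l 3) (c (a (l 100562646295) (l 16783984)) (b (a (c (l 100025774711) (l 100025774343)) (a (a (l 16783528) (l 16783544)) (l 16783704))) (a (a (l 101099516023) (a (l 96804548679) (l 16783528))) (l 16783680))))) (a (c (l 100025775591) (a (l 3) (b (l 101636387047) (a (l 101636386903) (a (l 98415161303) (l 16783496)))))) (b (a (a (a (c (l 16783920) (l 97878290439)) (l 16783704)) (l 16783768)) (l 16783856)) (l 16783192))))) (l 16783496))) (a (b (a (a (l 3) (a (l 3) (b (l 3) (c (l 99488904215) (c (l 99488903751)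 (a (l 101636386951) (l 100025774151))))))) (a (a (c (b (l 99488904247) (l 85530260487)) (a (b (l 102173257927) (b (c (l 98415161719) (l 98415161303)) (l 16783456))) (b (c (l 98952032775) (c (l 98415161671) (l 98952032391))) (l 16783568)))) (b (a (b (c (l 97878291271) (c (l 97341419927) (l 97341419607))) (l 16783680)) (l 16783160)) (l 16783792))) (l 16783736))) (a (a (a (l 3) (a (l 3) (b (l 3) (c (l 100025774935) (l 101636386839))))) (a (c (b (l 100025775063) (l 91972711383)) (b (c (l 100025774631) (l 100562645127)) (b (a (l 101099515799) (a (l 97341419367) (l 16783408))) (a (a (l 98415161127) (l 16783392)) (l 16783504))))) (b (c (l 88751485943) (b (a (l 100025774007) (c (l 16783528) (l 16783336))) (a (a (l 96267677575) (l 16783432)) (l 16783584)))) (l 16783096)))) (c (l 16783832) (l 16783400)))) (l 16783136))), by decide +kernel⟩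

def k30_pm_012 : ∃ t, chk3 f_pm_012 t 533 2003 1 = true :=
  ⟨(b (a (b (a (a (a (c (l 99488904263) (b (c (l 100562645495) (l 101099515991)) (a (c (l 99488903447) (l 99488903079)) (b (c (l 98415161511) (l 98415161143)) (l 16783360))))) (c (b (l 95193936807) (l 16783928)) (b (a (b (l 102173257591) (c (l 97878290615) (l 97341419383))) (b (a (l 98952032023) (l 16783376)) (l 16783408))) (l 16783168)))) (c (l 16783872) (c (l 16783552) (l 16783336)))) (l 16783392)) (a (b (a (a (a (b (c (l 16783728) (l 16783336)) (l 16783688)) (l 16783680)) (l 16783632)) (l 16783512)) (l 16783488)) (l 16783160))) (l 16782640)) (l 16783888)), by decide +kernel⟩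

def k31_pm_012 : ∃ t, chk3 f_pm_012 t 2128 1002 1 = true :=
  ⟨(b (b (l 3) (a (l 3) (b (l 3) (b (l 3) (a (l 3) (c (l 100025774199) (c (l 100025773751) (l 100025773399)))))))) (a (b (c (b (l 100025774519) (a (a (l 100562645207) (l 97341419623)) (b (l 93583323127) (l 16783424)))) (a (b (l 3) (b (l 102173256967) (a (c (l 99488902567) (l 100025773095)) (b (l 99488902103) (c (l 16782992) (l 16782816)))))) (b (b (l 3) (l 102173256983)) (b (a (a (l 101636385831) (b (l 102173256663) (l 96804547559))) (b (c (l 100562644407) (l 101099514935)) (l 16782960))) (a (c (l 16783136) (l 16782936)) (l 16783008)))))) (b (a (a (b (b (a (a (b (l 98415160199) (l 16783056)) (l 16782896)) (l 16783080)) (l 16783192)) (l 16783136)) (l 16783144)) (l 16783088)) (l 16782928))) (b (a (b (c (a (l 100025774343) (b (l 100562644935) (l 86604001175))) (b (c (l 100025773735) (l 100562644247)) (a (a (l 100562644039) (b (l 101099514871) (a (l 16782936) (l 16782944)))) (b (a (l 98415160279) (l 16782952)) (l 16783072))))) (c (l 16783408) (c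 (l 16783104) (l 16782904)))) (b (b (a (c (l 100562644983) (b (l 101099514935) (a (l 97341418487) (l 16782968)))) (b (a (b (l 98415160407) (l 16783160)) (l 16783168)) (l 16783304))) (l 16782936)) (l 16783128))) (l 16782848)))), by decide +kernel⟩

def k32_pm_012 : ∃ t, chk3 f_pm_012 t 2129 1002 1 = true :=
  ⟨(b (b (a (l 3) (b (l 3) (b (l 3) (c (l 100025774663) (a (l 3) (a (l 101636386199) (b (l 100562644263) (a (a (l 97341418695) (l 16783088)) (l 16783104))))))))) (b (b (a (l 3) (a (c (l 100562645351) (b (l 101636386183) (a (l 101636386039) (a (l 97878289607) (l 16783064))))) (a (b (a (c (l 16783464) (l 97341418711)) (l 16783272)) (l 16783344)) (l 16783408)))) (a (c (l 100562645527) (a (l 3) (a (l 102173257063) (a (l 101099515159) (a (l 99488902391) (b (l 101636385911) (l 16783040))))))) (a (a (b (a (c (l 98952032151) (l 98952031399)) (b (l 16782920) (l 16783240))) (l 16783264)) (l 16783064)) (l 16783344)))) (a (b (c (a (l 99488903303) (a (l 93583323223) (l 16783480))) (b (a (l 102710127959) (a (c (l 98415160855)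 (l 97878289671)) (l 16783072))) (a (a (l 103246998711) (l 98952031415)) (l 16782912)))) (a (c (a (l 97341419575) (l 16783400)) (a (b (l 99488902311) (a (a (l 96267676711) (l 16782992)) (l 16783016))) (a (b (l 16783000) (l 16783128)) (l 16783136)))) (l 16783304))) (l 16783240)))) (b (a (c (l 16783312) (l 16782568)) (l 16782912)) (l 16782536))), by decide +kernel⟩

def k33_pm_012 : ∃ t, chk3 f_pm_012 t 1065 1002 1 = true :=
  ⟨(b (a (a (b (b (c (a (l 100025774807) (b (l 100562645479) (l 94657065415))) (b (a (l 3) (c (l 100025774151) (l 101099515575))) (a (l 102173257415) (a (a (l 101099515367) (b (l 102173257079) (l 96804547927))) (b (a (l 99488902519) (c (l 16783248) (l 95193935303))) (l 16783184)))))) (a (c (b (l 97878290855) (l 71034744983)) (a (b (c (l 99488902983) (l 99488902631)) (b (a (a (l 16783096) (l 16783104)) (l 16783128)) (l 16783232))) (b (b (l 98952031639) (l 16783128)) (l 16783224)))) (b (c (l 16783672) (c (l 16783360) (l 16782992))) (l 16783384)))) (l 16783176)) (b (b (c (a (b (l 91435839991)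 (l 16783696)) (l 16783680)) (a (b (a (a (l 100562644487) (b (l 101099515287) (l 16783160))) (b (a (l 97878289831) (l 16783176)) (l 16783272))) (l 16783280)) (l 16783256))) (l 16783312)) (l 16782984))) (l 16782912)) (l 16782136)), by decide +kernel⟩

def k34_pm_012 : ∃ t, chk3 f_pm_012 t 532 1003 1 = true :=
  ⟨(a (l 16782816) (l 16785840)), by decide +kernel⟩

def k35_pm_012 : ∃ t, chk3 f_pm_012 t 533 501 1 = true :=
  ⟨(b (c (l 16784520) (l 16783056)) (l 16780368)), by decide +kernel⟩

def k36_pm_012 : ∃ t, chk3 f_pm_012 t 267 250 1 = true :=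
  ⟨(b (b (a (a (a (b (a (b (l 3) (a (b (l 3) (c (l 98415163415) (b (b (l 3) (l 102173258519)) (a (c (l 98415162535) (c (l 98415162327) (l 98415162119))) (b (c (l 96804549687) (l 96804549335)) (l 16783832)))))) (b (b (l 3) (c (l 100025775927) (a (l 103247000487) (b (l 102710129479) (l 100025774823))))) (b (c (l 94120195943) (a (b (l 100562645719) (a (l 97878291047) (l 16783832))) (a (b (l 16783840) (l 16783856)) (l 16783872)))) (l 16783552))))) (b (b (l 3) (b (l 3) (a (l 3) (c (l 99488905111) (a (l 102173258711) (b (l 101636387671) (a (l 99488903959) (l 16783904)))))))) (b (a (c (c (l 94657067447) (l 92509583511)) (b (a (l 102710129607) (b (l 102173258599) (l 98952033079))) (a (b (l 99488903959) (l 16783856)) (l 16783896)))) (b (a (b (c (l 98415163015) (c (l 98415162551) (l 98415162167))) (l 16784088)) (l 16784136)) (l 16784248))) (l 16783496)))) (a (b (b (a (c (l 16784368) (l 16783592)) (l 16784080)) (l 16783912)) (l 16783576)) (l 16783608))) (b (a (b (b (c (l 101099518391) (a (b (l 3) (l 102710129927))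 (b (c (l 100562646727) (l 101636388103)) (a (b (l 102710129687) (l 100562645943)) (b (l 100025775047) (l 16783960)))))) (a (b (c (l 98952034279) (c (l 100562646711) (a (l 100562646007) (b (l 100025774999) (l 96267678679))))) (a (b (c (l 16784352) (c (l 97341420775) (l 96804549479))) (l 16784128)) (l 16784216))) (a (b (a (b (c (l 16784376) (l 16783944)) (l 16784152)) (l 16784160)) (l 16784304)) (l 16784312)))) (l 16783440)) (b (b (c (a (a (l 93583325415) (l 81235294343)) (l 16784600)) (a (c (b (l 99488904919) (l 16784192)) (b (a (l 99488904295) (b (l 98415162343) (l 16783888))) (l 16784048))) (l 16783816))) (l 16784232)) (l 16783912))) (l 16783296))) (b (l 16784296) (l 16783400))) (l 16786880)) (a (l 16783912) (l 16789776))) (a (a (l 16781424) (l 16781520)) (l 16779816))), by decide +kernel⟩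

def k37_pm_012 : ∃ t, chk3 f_pm_012 t 264 1004 1 = true :=
  ⟨(a (l 3) (a (l 3) (a (l 3) (a (l 3) (a (l 3) (a (l 3) (b (l 3) (b (l 3) (b (l 3) (c (l 100025772343) (l 101636384407))))))))))), by decide +kernel⟩

def k38_pm_012 : ∃ t, chk3 f_pm_012 t 264 2010 1 = true :=
  ⟨(a (l 3) (a (l 3) (a (b (l 3) (b (a (l 3) (a (b (l 3) (c (l 100562642871) (l 101099513095))) (a (b (l 103246996839) (b (c (l 100562642615) (l 95730803799)) (c (l 16782232) (l 16781960)))) (b (c (l 99488900967) (l 96804545719)) (c (l 16782296) (l 16781952)))))) (b (a (c (l 101636384759) (c (l 100562642631) (l 100562642359))) (a (a (b (l 102173254983) (c (l 80698418711) (l 74792838087))) (c (l 65666033223) (c (l 61371065575) (l 58686710583)))) (l 16782056))) (a (a (c (l 101099513735) (l 102710125783)) (a (b (l 103246996727) (c (l 86067127847) (l 80698418103))) (b (c (l 83382773319) (l 78014063607)) (l 16782064)))) (l 16782000))))) (a (b (b (l 3) (a (b (l 3) (a (l 102710125959) (b (l 102173254999) (c (l 93046449911) (l 87677740167)))))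 (a (b (c (l 100025771943) (l 103246996791)) (b (c (l 90362095367) (l 84993385607)) (l 16782176))) (b (b (l 103783867847) (c (l 87677740839) (l 81772160167))) (l 16782168))))) (b (a (b (a (b (c (l 95730804439) (l 90362094695)) (l 16781992)) (l 16781984)) (l 16782072)) (l 16782040)) (l 16781872))) (b (a (b (b (l 3) (a (c (l 101099513911) (l 102710125927)) (b (l 103246996967) (c (l 82309031735) (l 75866580135))))) (a (b (b (c (l 84993386311) (l 79087805575)) (l 16782192)) (l 16782128)) (l 16782136))) (b (a (b (c (l 101099513927) (l 101099513207)) (b (c (l 16782320) (l 72645354727)) (l 16782216))) (b (b (c (l 101099513783) (l 96804545847)) (c (l 16782344) (l 16782088))) (l 16782200))) (l 16782080))) (l 16781792)))))), by decide +kernel⟩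

def k39_pm_012 : ∃ t, chk3 f_pm_012 t 264 2011 1 = true :=
  ⟨(a (l 3) (b (a (a (l 3) (a (b (l 3) (a (l 3) (b (l 3) (a (l 103246996599) (b (l 101099512903) (c (l 79087805735) (l 73182225127))))))) (b (b (c (l 101636384711) (l 102710125927)) (a (c (l 100562642647) (l 102173254711)) (a (c (l 98415158903) (l 95730803719)) (b (c (l 94120191463) (l 89288352663)) (l 16781864))))) (a (a (b (c (l 100562642519) (l 98952029159)) (c (l 64055420231) (c (l 59760452583) (l 57076097655)))) (b (b (c (l 98952029623) (l 94120190887)) (c (l 16782120) (l 16781832))) (l 16781944))) (b (c (l 16781992) (c (l 16781896) (l 16781728))) (l 16781888)))))) (b (a (a (b (a (a (a (l 102710125751) (b (l 101099512935) (l 83382772807))) (b (c (l 88751482391) (l 83382772663)) (l 16782048))) (l 16781688)) (c (l 16781808) (l 16781624))) (l 16781840)) (l 16781536)) (l 16782160))) (a (b (a (b (l 3) (a (l 3) (a (l 3) (a (l 103246996551) (a (l 101099512823) (b (l 100562641831) (l 81235288967))))))) (a (b (b (a (l 103246996583) (a (c (l 81772160295)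 (l 75866579735)) (l 16781944))) (a (a (l 103246996503) (c (l 84456514871) (l 79087805143))) (l 16781920))) (b (a (a (c (l 87140869399) (l 81772159703)) (l 16781928)) (l 16781880)) (l 16781624))) (l 16781776))) (a (b (a (l 3) (a (a (l 102710125479) (c (l 97341416839) (l 94657061655))) (a (b (c (l 92509578471) (l 87140868807)) (l 16781736)) (l 16781728)))) (a (a (l 3) (c (l 100562642375) (l 99488899895))) (a (b (a (c (l 97341416647) (l 92509577911)) (l 16781720)) (c (l 16781872) (l 16781576))) (l 16781816)))) (l 16781648))) (l 16781136)))), by decide +kernel⟩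

def k40_pm_012 : ∃ t, chk3 f_pm_012 t 1060 1004 1 = true :=
  ⟨(a (b (l 3) (a (b (l 3) (a (b (l 3) (a (b (l 3) (b (l 102710126119) (c (l 98952030151) (l 94120191303)))) (b (l 103246997031) (b (c (l 96804546519) (l 91435836727)) (l 16781952))))) (b (b (l 3) (c (l 101099514231) (l 102710126263))) (b (a (b (l 101636384327) (c (l 94120191975) (l 88751482183))) (b (c (l 91435837447) (l 85530256711)) (l 16782304))) (c (l 16782440) (l 16782080)))))) (a (b (l 3) (b (b (c (l 100562643351) (l 102710126295)) (a (b (l 103783868055) (c (l 88751482903) (l 82845902183))) (b (c (l 86067128375) (l 80161547639)) (l 16782320)))) (l 16781904))) (b (b (l 3) (b (l 3) (c (l 100562643383) (l 101636384487)))) (b (b (a (b (l 103246997175) (c (l 83382773815) (l 76940322135))) (b (c (l 16782440) (l 73719096679)) (l 16782344))) (l 16782296)) (l 16782144)))))) (a (b (l 3) (b (b (a (l 3) (b (l 3) (a (l 103783868151) (b (l 102173255399) (c (l 94657063143) (l 89288353303)))))) (b (a (a (l 103783868119) (c (l 100562643271) (c (l 97878288343)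 (l 96804546167)))) (a (b (c (l 97341417687) (l 91972707879)) (l 16782080)) (l 16782072))) (a (a (b (c (l 101099514023) (l 97341416951)) (c (l 16782464) (l 16782208))) (c (l 16782560) (l 16782200))) (l 16782336)))) (c (l 16782304) (l 16781936)))) (b (a (l 3) (b (l 3) (b (l 3) (b (l 3) (c (a (l 101099514407) (l 89825225143)) (a (l 103246997303) (b (l 102710126279) (l 76940322375)))))))) (b (b (b (a (c (l 95730805255) (a (l 103246997271) (b (l 103246997159) (c (l 84993386407) (l 81772160535))))) (a (b (c (l 86603999543) (c (l 82309031831) (l 78550935111))) (l 16782456)) (l 16782440))) (b (a (a (c (l 91972708615) (c (l 87677740967) (l 84993386007))) (l 16782440)) (l 16782392)) (l 16782056))) (l 16782264)) (l 16781920))))), by decide +kernel⟩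

def k41_pm_012 : ∃ t, chk3 f_pm_012 t 1061 1004 1 = true :=
  ⟨(a (b (a (b (l 3) (b (b (a (l 3) (c (l 100025772759) (l 102710126711))) (a (c (l 100562643607) (l 102173255623)) (a (b (l 103246997399) (c (l 100025772471) (l 94657062647))) (b (c (l 97341417943) (l 91972708119)) (l 16782216))))) (a (a (b (c (l 101099514407) (l 101636384599)) (b (c (l 16782568) (l 16782120)) (l 16782472))) (b (c (l 86067128807) (b (l 97341417191) (l 16782336))) (l 16782464))) (b (c (l 16782680) (l 16782152)) (l 16782408))))) (b (b (l 3) (a (b (l 3) (c (l 100025772791) (l 102710126743))) (c (b (l 101099514759) (a (l 93583321751) (l 73719097863))) (b (l 102710126759) (a (b (l 103246997399) (c (l 84993386647) (l 81772160775))) (b (c (l 82309032087) (l 78550935319)) (l 16782400))))))) (b (a (b (a (b (l 102710126487) (c (l 94657063399) (c (l 90898966663) (l 87677740807)))) (b (c (l 91972708871) (c (l 87677741175) (l 84993386247))) (l 16782560))) (l 16782192)) (l 16782160)) (l 16782328)))) (l 16782664)) (b (b (a (a (b (b (l 3) (c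 (l 100562643879) (c (l 100562643495) (l 100562643127)))) (b (c (a (l 89825225399) (l 16782808)) (a (b (l 102710126519) (l 76940322631)) (c (l 16782528) (l 16782176)))) (l 16782552))) (b (a (b (l 103783868567) (b (c (l 101099514535) (l 97341417431)) (l 16782336))) (b (b (l 103246997607) (c (l 100025772727) (a (l 98952030119) (l 90898966439)))) (c (l 16782832) (l 16782456)))) (l 16782528))) (b (b (a (a (b (c (l 97341418199) (c (l 93583321431) (l 90362095575))) (l 16782344)) (l 16782336)) (l 16782616)) (l 16782552)) (l 16782400))) (l 16782152)) (l 16781416))), by decide +kernel⟩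

def k42_pm_012 : ∃ t, chk3 f_pm_012 t 531 1004 1 = true :=
  ⟨(b (a (l 16783072) (l 16780872)) (l 16782920)), by decide +kernel⟩

def k43_pm_012 : ∃ t, chk3 f_pm_012 t 265 1005 1 = true :=
  ⟨(a (a (b (a (a (a (b (b (b (c (l 16782088) (c (l 16782152) (l 16781976))) (l 16782144)) (l 16781984)) (l 16781632)) (l 16782424)) (l 16781616)) (l 16781288)) (l 16783128)) (l 16782736)) (l 16780720)), by decide +kernel⟩

def k44_pm_012 : ∃ t, chk3 f_pm_012 t 528 2012 1 = true :=
  ⟨(a (l 3) (b (a (l 3) (b (b (l 3) (a (l 3) (c (l 101636384199) (l 102710125447)))) (b (a (l 3) (a (c (l 101099513207) (l 102710125287)) (a (b (l 102710125383) (a (l 96267674327) (l 78014063271))) (b (c (l 84993385511) (l 79624675831)) (l 16781792))))) (a (c (l 102173255063) (l 103246996311)) (a (a (c (l 95730803847) (c (l 93046448919) (l 91972706791))) (b (c (l 90362094583) (l 84993384967)) (l 16781608))) (l 16781496)))))) (b (a (l 3) (b (a (a (l 3) (a (c (l 98952029287) (l 96267674119)) (b (c (l 95193932791) (l 90362094071)) (c (l 16781920)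 (l 16781592))))) (a (c (l 16781568) (l 16781560)) (l 16781648))) (a (a (a (c (l 101099512887) (l 100025770487)) (b (l 97341416071) (c (l 16781720) (l 67813515623)))) (a (c (l 59223581463) (l 53854871815)) (l 16781688))) (l 16781584)))) (b (a (a (l 3) (a (l 3) (a (l 102710125207) (b (l 102173254279) (c (l 79624676151) (l 73719095639)))))) (b (a (a (a (a (l 83919643191) (l 16781712)) (l 16781696)) (l 16781640)) (l 16781504)) (l 16781376))) (a (a (l 3) (a (a (l 102710125191) (b (l 102173254247) (c (l 84993385239) (l 79624675623)))) (a (b (c (l 82309030711) (l 76940321063)) (l 16781664)) (l 16781656)))) (l 16781456)))))), by decide +kernel⟩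

def k45_pm_012 : ∃ t, chk3 f_pm_012 t 528 2013 1 = true :=
  ⟨(a (b (a (l 3) (a (l 3) (b (l 3) (a (c (l 102173254583) (l 102710124967)) (b (c (l 100562641847) (l 98952028567)) (a (b (l 98952028583) (c (l 76403450423) (l 70497869975))) (a (b (l 80161546583) (l 16781568)) (l 16781568)))))))) (b (a (l 3) (b (a (c (l 102173254567) (l 102710124935)) (a (a (b (l 101636383111) (c (l 81772159527) (l 76403449943))) (b (c (l 79087804967) (l 73182224487)) (l 16781536))) (l 16781512))) (a (a (c (l 101099512679) (l 101636383047)) (a (c (l 91972706967) (c (l 89288352071) (l 88214609943))) (b (c (l 84456514055) (l 79087804487)) (l 16781520)))) (l 16781248)))) (a (a (l 3) (a (l 3) (b (l 102710124951) (b (c (l 96804545111) (l 94120190071)) (a (l 93583319239) (c (l 16781640) (l 16781328))))))) (a (a (b (a (c (l 95193932407) (l 91972706439)) (b (c (l 89288352215) (l 84456513575)) (l 16781336))) (c (l 16781448) (l 16781216))) (c (l 16781424) (l 16781264))) (l 16781288))))) (b (a (b (a (a (b (l 3) (c (l 97878287319) (c (l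 96267674263) (l 95730803031)))) (a (b (l 103246996071) (b (c (l 92509577943) (l 87677739287)) (l 16781464))) (b (c (l 94120190855) (c (l 91435835959) (l 90362093815))) (l 16781432)))) (a (b (a (b (c (l 87677739767) (l 82309030183)) (l 16781648)) (l 16781632)) (l 16781560)) (l 16781528))) (b (a (a (a (b (l 94657061303) (c (l 16781600) (l 16781368))) (c (l 16781592) (l 16781352))) (l 16781544)) (l 16781408)) (l 16781392))) (l 16781160)) (l 16781544))), by decide +kernel⟩

def k46_pm_012 : ∃ t, chk3 f_pm_012 t 528 1007 1 = true :=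
  ⟨(a (b (a (b (a (b (a (l 3) (b (l 3) (a (l 101636382919) (b (l 100562641063) (c (l 78014062887) (l 72645353351)))))) (a (a (b (l 102173253799) (b (c (l 86067126503) (l 80698416983)) (l 16781376))) (b (b (l 101636382871) (a (l 91972706343) (l 72645353479))) (l 16781368))) (a (b (b (c (l 80698417447) (l 75329707895)) (l 16781392)) (l 16781328)) (l 16781336)))) (b (b (b (a (c (l 100025770567) (l 97341415511)) (c (l 56539226391) (l 51170516855))) (a (a (l 98415157431) (c (l 72108482871) (l 66202902439))) (l 16781416))) (b (a (a (c (l 75329708343) (l 69424127895)) (l 16781424)) (l 16781368)) (l 16781360))) (l 16781224))) (l 16781632)) (c (l 16782264) (l 16781296))) (l 16781328)) (c (l 16781096) (l 16780800))), by decide +kernel⟩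

def k47_pm_012 : ∃ t, chk3 f_pm_012 t 529 503 1 = true :=
  ⟨(b (b (a (a (b (a (a (b (a (b (l 3) (b (l 102173254503) (c (l 82309030983) (l 76940321287)))) (b (l 102710125447) (b (c (l 79624676375) (l 73719095831)) (l 16781808)))) (l 16781552)) (b (b (a (b (l 99488899975) (c (l 76940321863) (l 70497870343))) (c (l 61907936327) (c (l 57612968695) (l 54928613799)))) (l 16781784)) (l 16781624))) (l 16781920)) (l 16781224)) (l 16782352)) (l 16783000)) (l 16781128)) (a (l 16781360) (l 16780456))), by decide +kernel⟩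

def k48_pm_012 : ∃ t, chk3 f_pm_012 t 265 503 1 = true :=
  ⟨(b (a (l 16780816) (l 16779312)) (a (l 16778440) (b (l 16780400) (l 16779376)))), by decide +kernel⟩

def k49_pm_012 : ∃ t, chk3 f_pm_012 t 133 251 1 = true :=
  ⟨(b (b (a (a (l 16781608) (l 16783080)) (a (l 16782784) (l 16789536))) (a (a (l 16782152) (l 16780288)) (a (l 16778256) (l 16785480)))) (a (b (a (l 16780088) (l 16783456)) (a (a (l 16783736) (l 16782808)) (l 16781880))) (b (b (l 16776744) (l 16777824)) (a (l 16781696) (l 16771040))))), by decide +kernel⟩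

def k50_pm_012 : ∃ t, chk3 f_pm_012 t 268 248 1 = true :=
  ⟨(b (l 3) (a (l 3) (b (l 3) (a (l 3) (a (l 3) (b (l 3) (b (l 3) (a (a (l 3) (b (l 3) (l 103783875463))) (c (l 96804555447) (b (l 101636392087) (a (l 100562649799) (b (l 100025778647) (l 16785704))))))))))))), by decide +kernel⟩

def k51_pm_012 : ∃ t, chk3 f_pm_012 t 269 496 1 = true :=
  ⟨(a (l 3) (b (l 3) (a (l 3) (a (b (l 3) (b (l 3) (a (b (l 3) (l 102710135431)) (b (l 102173264631) (a (b (l 102173264055) (l 16786512)) (l 16786832)))))) (b (c (l 99488912855) (b (l 3) (l 102173265655))) (a (a (b (l 102710135959) (b (b (l 101099522279) (l 16786880)) (l 16787192))) (b (b (l 3) (l 101636393495)) (l 16786560))) (b (c (l 92509589335) (a (b (l 101636393671) (l 96267684503)) (b (l 98952039031) (l 16786792)))) (l 16787120)))))))), by decide +kernel⟩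

def k52_pm_012 : ∃ t, chk3 f_pm_012 t 538 497 1 = true :=
  ⟨(b (a (l 3) (b (l 3) (a (a (l 3) (a (l 3) (b (l 3) (b (l 3) (l 103247005351))))) (b (a (l 3) (b (l 3) (a (l 104320747399) (l 102173263607)))) (a (c (l 100025781175) (b (l 101099521959) (a (l 100025779719) (b (l 98415166807) (l 16786144))))) (b (c (l 94657072055) (a (b (l 101099521495) (l 97878296007)) (a (l 16786192) (l 16786224)))) (l 16786712))))))) (a (a (b (l 3) (a (c (b (l 99488909927) (b (l 96804554775) (l 16786536))) (b (c (l 98952038599) (b (l 3) (l 100562650279))) (b (a (a (l 101099520727) (l 99488907975)) (b (l 98415166135) (l 16785776))) (l 16785992)))) (a (b (b (l 3) (b (l 103247004359) (a (l 100562649639) (l 16786064)))) (l 16785600)) (b (c (l 95193942135) (b (l 101099521063) (a (b (l 16785680) (l 16785832)) (l 16785864)))) (l 16786184))))) (a (b (b (l 3) (b (l 3) (a (l 103783875863) (c (l 98952038551) (l 100562650199))))) (b (b (c (l 89288362151) (a (b (l 100562649895) (l 16785864)) (l 16785920))) (l 16786344)) (l 16786064))) (b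 (b (l 3) (a (b (l 103247004983) (b (a (l 101636391783) (l 16785560)) (l 16786168))) (b (b (l 103247004727) (a (l 101099520903) (l 16786232))) (l 16786264)))) (l 16786096)))) (b (b (a (a (c (l 101099522903) (b (l 101636392759) (a (l 101099521367) (a (l 99488908487) (b (l 100025779207) (l 16786024)))))) (a (c (l 94120200743) (b (l 100562650551) (l 16786056))) (b (b (l 101099521175) (l 16786328)) (l 16786600)))) (a (b (l 16786016) (l 16786504)) (l 16786440))) (b (a (a (a (a (b (l 100562650023) (l 16786224)) (l 16786240)) (l 16786528)) (l 16786464)) (l 16786216)) (l 16786184))) (l 16786840)))), by decide +kernel⟩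

def k53_pm_012 : ∃ t, chk3 f_pm_012 t 539 497 1 = true :=
  ⟨(b (a (a (b (a (l 3) (c (l 101636394919) (b (l 3) (a (l 101099522567) (b (l 3) (l 99488909255)))))) (b (a (c (l 92509588999) (b (l 100562651207) (a (b (l 100025779735) (l 16786232)) (l 16786280)))) (a (b (b (l 100562650679) (l 16786552)) (l 16786832)) (l 16786192))) (l 16785288))) (b (b (a (b (l 3) (l 103247006263)) (b (l 102710135383) (a (l 101636393095) (b (l 101099521943) (l 16786712))))) (a (a (b (l 102173263959) (a (b (l 16786008) (l 16786600)) (l 16786616))) (b (b (l 102173263703) (l 16786664)) (l 16786824))) (a (b (l 16786672) (l 16786912)) (l 16786928)))) (l 16786456))) (a (b (b (a (b (a (a (l 102173263943) (l 100562651287)) (b (l 99488909351) (l 16786768))) (l 16787000)) (l 16787040)) (l 16786736)) (l 16787712)) (l 16788168))) (l 16786224)), by decide +kernel⟩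

def k54_pm_012 : ∃ t, chk3 f_pm_012 t 134 996 1 = true :=
  ⟨(a (a (l 3) (b (b (a (l 3) (a (b (l 3) (a (l 3) (c (l 100562651063) (a (l 101636391527) (a (l 100562649463) (b (l 101099520215) (l 16785600))))))) (a (a (c (l 95730812631) (b (l 101099520663) (a (b (l 99488907399) (l 16785608)) (l 16785632)))) (b (c (l 100025780023) (a (l 99488907783) (b (l 100025778455) (l 16785648)))) (l 16786144))) (a (b (a (b (l 16785608) (l 16785928)) (l 16785960)) (l 16786088)) (l 16786104))))) (a (a (l 3) (a (l 3) (a (l 3) (b (l 3) (b (l 104857616599) (c (l 100025779239) (l 101099520023))))))) (a (b (a (c (l 99488908903) (a (l 102173262359) (c (l 99488908135) (l 99488907687)))) (a (b (c (l 98952037511) (l 99488907463)) (l 16785792)) (l 16785944))) (a (c (l 87140877639) (a (b (l 100562649143) (a (l 16785488) (l 16785496))) (l 16785576))) (l 16785976))) (l 16785840)))) (b (b (a (a (l 3) (a (a (l 3) (c (l 100025779479) (l 101636391175))) (c (l 90898974023) (b (a (l 101099520007) (a (l 98415165319) (l 16785464))) (a (a (l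 98952036151) (l 16785432)) (l 16785608)))))) (c (l 16785992) (l 16785424))) (a (a (b (l 3) (a (l 3) (c (l 100025779431) (l 101636391127)))) (a (c (l 94657070327) (b (a (l 101636390871) (a (l 100025777911) (l 16785408))) (a (a (l 100562648823) (l 97878294247)) (l 16785424)))) (l 16785240))) (l 16785472))) (a (b (a (b (a (l 3) (a (l 104320745399) (c (l 98952037079) (l 99488907063)))) (c (l 99488908487) (a (l 102173261991) (a (l 100025777943) (l 16785336))))) (a (a (l 16785360) (l 16785816)) (l 16785712))) (a (a (c (l 100562650247) (c (l 100025778887) (a (l 100562648983) (a (l 98952036103) (b (l 99488906791) (l 16785168)))))) (a (a (b (c (l 16785800) (l 16785304)) (l 16785584)) (l 16785632)) (l 16785776))) (l 16785592))) (l 16785736))))) (a (a (l 16785952) (l 16791416)) (l 16798520))), by decide +kernel⟩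

def k55_pm_012 : ∃ t, chk3 f_pm_012 t 1072 997 1 = true :=
  ⟨(b (l 3) (a (a (l 3) (b (l 3) (b (l 3) (c (l 100025778487) (a (b (l 3) (l 101636389719)) (c (l 99488906983) (b (l 100562647959) (a (l 98415164119) (l 16784744))))))))) (b (a (a (l 3) (c (l 99488908167) (c (l 99488907687) (b (l 3) (l 101099519415))))) (b (a (l 3) (a (l 3) (c (l 100562649415) (l 102173261143)))) (c (l 95730811223) (a (b (l 102710131879) (a (l 101099518967) (l 98952035239))) (b (c (l 98415164967) (a (l 100025777127) (l 97341422631))) (l 16784984)))))) (a (a (a (c (l 95730811079) (b (l 102173260935) (b (a (l 98952035031) (l 16784880)) (l 16784952)))) (b (c (l 100025778167) (c (l 99488906759) (l 100025777191))) (l 16784840))) (b (c (l 97341423879) (a (b (l 101636389799) (a (l 97878293287) (l 16784904))) (b (l 99488906103) (l 16784928)))) (l 16785320))) (a (b (a (b (b (l 16784856) (l 16785160)) (l 16785360)) (l 16785408)) (l 16785256)) (l 16785272)))))), by decide +kernel⟩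

def k56_pm_012 : ∃ t, chk3 f_pm_012 t 1073 997 1 = true :=
  ⟨(a (b (b (l 3) (b (a (l 3) (a (l 3) (b (l 104857615895) (c (l 100025778455) (l 100562648439))))) (a (a (l 3) (b (l 3) (c (l 100025778391) (l 101636390135)))) (b (c (l 99488907911) (a (l 101099519319) (a (a (l 98415164503) (l 16785088)) (l 16785104)))) (a (a (c (l 16785560) (l 98415164535)) (l 16785296)) (l 16785536)))))) (b (a (b (c (l 91972714903) (a (b (l 101636390103) (a (l 100025777191) (a (l 97878293463) (l 16785008)))) (b (a (l 99488906311) (l 16785040)) (l 16785120)))) (c (l 16785696) (c (l 16785312) (l 16785056)))) (c (l 16785648) (l 16785136))) (l 16785064))) (b (a (b (b (l 3) (c (l 100562650151) (a (l 102173261639) (b (l 102173261367) (a (l 101099519287) (l 98415164743)))))) (b (b (c (l 95193940679) (a (c (l 98952036183) (l 99488906647)) (l 16785160))) (a (a (b (l 16785048) (l 16785344)) (l 16785368)) (l 16785608))) (l 16785520))) (b (b (c (l 100562650199) (c (l 99488908007) (a (l 100562648935) (a (l 99488906919) (b (l 100562648583)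 (l 16785104)))))) (a (b (c (l 98415165879) (a (l 100562648455) (a (l 98415164711) (l 16785200)))) (l 16785424)) (l 16785040))) (l 16785464))) (l 16784904))), by decide +kernel⟩

def k57_pm_012 : ∃ t, chk3 f_pm_012 t 537 997 1 = true :=
  ⟨(a (b (a (b (a (a (b (a (b (b (l 101099519431) (l 16785488)) (l 16785472)) (l 16785248)) (l 16785632)) (l 16785000)) (l 16785536)) (l 16785200)) (l 16785128)) (l 16786640)) (l 16789088)), by decide +kernel⟩

def k58_pm_012 : ∃ t, chk3 f_pm_012 t 269 997 1 = true :=
  ⟨(l 16789912), by decide +kernel⟩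

def k59_pm_012 : ∃ t, chk3 f_pm_012 t 134 499 1 = true :=
  ⟨(b (a (a (a (b (a (b (b (a (c (l 100562649335) (b (a (l 3) (l 101636389783)) (a (l 102710131495) (a (l 100562647687) (a (l 98415163991) (l 16784800)))))) (a (c (l 87677747191) (b (a (l 100025776823) (a (l 97341422215) (l 16784824))) (l 16784904))) (l 16784624))) (a (a (c (l 92509585303) (b (c (l 98415164551) (c (l 97878293447) (l 98415164119))) (a (l 16784752) (l 16784848)))) (b (l 16784696) (l 16785200))) (l 16785144))) (l 16784272)) (l 16784768)) (l 16784728)) (l 16786848)) (l 16792752)) (l 16785648)) (a (l 16784256) (l 16791184))), by decide +kernel⟩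

def k60_pm_012 : ∃ t, chk3 f_pm_012 t 135 124 1 = true :=
  ⟨(a (b (a (b (b (b (b (l 3) (a (l 3) (a (l 3) (a (l 102173266327) (a (l 101636395063) (b (l 102710136487) (l 16787496))))))) (b (a (l 3) (a (a (l 103247008007) (a (l 102173265815) (b (l 103783878231) (l 100025781719)))) (a (b (a (l 102173265271) (l 103247007351)) (l 16787408)) (l 16787776)))) (a (a (l 3) (a (l 3) (a (l 102710136663) (l 102173265511)))) (a (a (b (l 101099523591) (a (l 103247006999) (l 16787288))) (a (b (l 16787328) (l 16787648)) (l 16787664))) (l 16787488))))) (b (b (a (a (c (l 100025783271) (l 101636394791)) (b (a (l 102173265255) (a (a (l 101099522919) (l 103247006823)) (l 16787216))) (a (a (l 100562652151) (l 16787160)) (l 16787536)))) (l 16787248)) (a (a (a (c (l 101636395351) (c (l 100025782215) (b (l 101099523287) (l 100025781463)))) (b (a (l 101636393847) (a (l 99488910151) (l 16787112))) (l 16787136))) (c (l 16787648) (l 16787040))) (l 16788320))) (b (b (a (a (a (a (l 16787000) (l 16787192)) (l 16787288)) (l 16787048))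 (l 16789440)) (l 16786912)) (l 16789352)))) (l 16787080)) (b (b (a (b (a (a (b (l 101636395559) (a (b (l 100025781975) (l 16787528)) (l 16787592))) (b (b (l 101636395111) (a (l 103247007687) (l 16787600))) (l 16787856))) (a (b (a (b (l 16787664) (l 16788008)) (l 16788032)) (l 16787704)) (l 16787744))) (l 16788504)) (l 16791024)) (l 16796160)) (l 16787216))) (b (c (l 16808000) (l 16785648)) (l 16778416))) (b (b (c (l 16793408) (l 16786624)) (l 16804208)) (b (l 16819768) (l 16833424)))), by decide +kernel⟩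

def k61_pm_012 : ∃ t, chk3 f_pm_012 t 67 125 1 = true :=
  ⟨(b (a (b (b (a (l 16782336) (l 16795864)) (a (l 16780336) (l 16799544))) (b (a (l 16779680) (l 16781088)) (a (l 16777528) (l 16782264)))) (b (a (a (l 16814224) (l 16825944)) (l 16823512)) (a (a (l 16799184) (l 16811576)) (a (l 16824504) (l 16858848))))) (b (b (a (a (l 16773640) (l 16781912)) (a (l 16785776) (l 16813024))) (a (a (c (l 16791144) (l 16775728)) (l 16779792)) (a (l 16784848) (l 16813280)))) (b (a (a (c (l 16791392) (l 16770696)) (l 16775672)) (a (l 16782168) (l 16770072))) (a (a (a (l 16779768) (l 16770528)) (l 16774488)) (a (l 16777488) (l 16772280)))))), by decide +kernel⟩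

def k62_pm_012 : ∃ t, chk3 f_pm_012 t 66 63 1 = true :=
  ⟨(b (a (b (a (b (b (b (a (l 16779880) (l 16779384)) (a (l 16778864) (l 16778376))) (b (a (l 16779168) (l 16779984)) (a (l 6) (l 16778976)))) (b (a (l 6) (a (l 6) (l 16777904))) (l 6))) (a (b (b (a (l 16780136) (b (l 16784976) (l 16783960))) (a (l 16778112) (l 16777552))) (b (a (l 16777776) (l 16772416)) (l 16772888))) (b (b (b (l 16778352) (l 16782576)) (l 16777368)) (b (l 16772568) (l 16772328))))) (a (l 6) (a (l 6) (b (b (l 16772392) (l 6)) (l 6))))) (a (a (b (b (b (l 16777008) (l 16777152)) (b (l 16772024) (l 16772120))) (b (b (l 16772192) (a (l 6) (l 16772752))) (l 6))) (b (b (b (l 16776808) (l 16771712)) (b (l 16771832) (l 16771928))) (b (b (a (l 16774736) (l 16773288)) (l 16771984)) (b (l 16771928) (l 6))))) (a (b (b (a (l 16771992) (l 16771744)) (b (l 16771656) (l 16771816))) (b (b (l 16773048) (l 16771760)) (b (l 16771688) (l 16771592)))) (b (b (a (l 16771664) (l 16771264)) (b (l 16771504) (l 16772952))) (b (b (l 16771600) (l 16771536))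 (b (l 16771456) (l 16771344))))))) (b (a (l 6) (a (l 6) (a (l 6) (b (b (l 16771208) (l 6)) (l 6))))) (l 6))), by decide +kernel⟩

def k63_pm_012 : ∃ t, chk3 f_pm_012 t 67 126 1 = true :=
  ⟨(b (a (a (b (b (a (l 16771072) (l 16780832)) (l 16771496)) (b (a (l 16771448) (l 16772552)) (b (l 16772568) (l 16771320)))) (b (b (l 16770680) (a (l 16771624) (l 16777280))) (b (l 16772128) (l 16770928)))) (b (b (a (a (l 16783424) (l 16778688)) (l 16782976)) (a (l 16771368) (l 16775672))) (b (a (l 16770576) (l 16771040)) (a (l 16770304) (l 16770040))))) (a (b (b (a (a (l 16771384) (l 16771176)) (l 16771512)) (a (a (l 16771312) (l 16771088)) (l 16771408))) (a (a (b (l 16771216) (l 16771096)) (b (l 16770984) (l 16770848))) (a (b (l 16770752) (l 16770608)) (b (l 16770520) (l 16770360))))) (b (a (b (l 16770080) (l 16770312)) (b (l 16769648) (l 16769408))) (a (b (l 16770160) (a (l 16770112) (l 16769864))) (b (l 16770120) (l 16769496)))))), by decide +kernel⟩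

def k64_pm_012 : ∃ t, chk3 f_pm_012 t 67 127 1 = true :=
  ⟨(b (a (b (a (a (b (l 16770944) (l 16771096)) (b (l 16770688) (l 16770504))) (a (b (l 16770432) (l 16770232)) (b (l 16770176) (l 16769960)))) (a (a (l 6) (a (l 6) (b (l 16770216) (l 6)))) (b (a (l 16770656) (l 16769720)) (b (a (l 16769808) (l 16769520)) (a (l 6) (l 16769376)))))) (b (b (b (a (l 16769840) (l 16769328)) (a (l 16769736) (l 16769208))) (b (a (l 16769616) (l 16769080)) (a (l 16769496) (l 16768952)))) (b (b (a (l 16769368) (l 16768808)) (a (l 16769232) (l 16768656))) (b (a (l 16769080) (l 16768504)) (a (l 16769584) (l 16768992)))))) (b (a (b (b (b (a (l 6) (l 16769416)) (l 6)) (l 6)) (l 6)) (c (l 14) (b (b (a (c (l 16768704) (l 16768568)) (l 16768016)) (b (a (l 16768504) (l 16767880)) (a (l 16768416) (l 16767784)))) (b (b (a (l 16768328) (l 16767688)) (a (l 16768232) (l 16767592))) (b (a (l 16768136) (l 16767488)) (a (l 16768120) (l 16767464))))))) (a (l 6) (c (l 14) (a (a (l 6) (a (l 6) (b (b (l 16767640) (l 6)) (l 6)))) (c (l 14)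 (b (b (a (l 16767312) (l 16766976)) (b (a (l 16767152) (l 16766808)) (a (l 16767040) (l 16766696)))) (b (b (a (l 16766928) (l 16766576)) (a (l 6) (a (l 16766544) (l 16766368)))) (a (l 6) (c (l 14) (a (b (l 16766384) (l 6)) (c (l 14) (b (l 16766184) (b (l 16766088) (a (l 6) (l 16765984)))))))))))))))), by decide +kernel⟩

def k65_pm_012 : ∃ t, chk3 f_pm_012 t 34 60 1 = true :=
  ⟨(a (l 3) (b (l 3) (a (b (l 3) (a (l 3) (b (a (l 3) (l 105394502839)) (a (b (l 108615727335) (a (l 101636402887) (l 69961022679))) (b (a (l 82845925623) (l 16791864)) (l 16796000)))))) (b (a (b (l 3) (a (l 3) (b (l 110226340919) (l 88751511383)))) (b (a (l 106468245351) (b (l 99488920615) (l 61371090119))) (a (b (l 71571638663) (l 16795784)) (l 16802128)))) (a (b (a (b (l 97341436359) (a (l 72645377863) (l 16793600))) (b (l 16793592) (l 16800952))) (l 16787152)) (l 16801392)))))), by decide +kernel⟩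

def k66_pm_012 : ∃ t, chk3 f_pm_012 t 68 122 1 = true :=
  ⟨(a (b (l 3) (a (l 3) (b (l 3) (a (l 3) (b (l 3) (a (l 3) (l 102710143623))))))) (b (a (l 3) (b (l 3) (a (b (l 3) (l 107005114039)) (b (l 107005113271) (a (l 94657079655) (a (l 66739795351) (l 16791352))))))) (a (b (a (l 3) (b (l 3) (a (l 106468241031) (b (l 103247014263) (l 77477212487))))) (a (b (a (l 3) (b (l 103247014903) (l 90362114743))) (b (a (l 101099529639) (c (l 16790632) (l 56539244551))) (a (a (l 82309049095) (l 16790208)) (l 16792440)))) (b (a (b (l 84456534487) (l 16790616)) (l 16792680)) (l 16797944)))) (b (a (a (b (l 103247014903) (b (l 70497890551) (l 16792024))) (b (b (l 90898986295) (l 16790648)) (l 16794720))) (b (c (l 16790408) (l 16790632)) (l 16802808))) (l 16789744))))), by decide +kernel⟩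

def k67_pm_012 : ∃ t, chk3 f_pm_012 t 68 123 1 = true :=
  ⟨(a (b (a (b (l 3) (a (b (l 3) (a (l 3) (a (b (l 3) (l 102173269863)) (b (l 101636399815) (b (l 102710139895) (l 16788368)))))) (b (a (b (l 3) (c (l 104320755447) (l 105931366727))) (b (l 104320754471) (c (a (l 87140887303) (l 16789968)) (a (l 84993402103) (l 58149855239))))) (a (a (b (c (l 93583338247) (l 92509594855)) (l 16789352)) (b (b (l 92509592311) (l 16789480)) (l 16790472))) (l 16789256))))) (a (b (b (a (l 3) (b (l 3) (l 102173272295))) (a (b (l 3) (c (l 99488916775) (l 99488915303))) (a (b (l 102710141783) (c (l 16789664) (l 66202919799))) (b (l 84993403287) (l 16790200))))) (b (a (b (a (a (l 93583334423) (l 72108499623)) (l 16789744)) (l 16791160)) (l 16793856)) (l 16799560))) (b (a (a (b (l 102173271591) (b (l 16789888) (l 16791912))) (b (b (l 102710142359) (l 73719114039)) (l 16792376))) (b (b (a (l 90362112743) (l 16789920)) (l 16790784)) (l 16796024))) (l 16785552)))) (a (b (a (b (a (a (b (l 104320753047) (b (a (l 102710139735)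 (l 16788792)) (l 16789184))) (b (c (l 87677757687) (b (l 94120206743) (l 84993399223))) (l 16789240))) (a (b (b (l 82309044423) (l 16789200)) (l 16790696)) (l 16791120))) (l 16789760)) (l 16791112)) (l 16792912)) (b (l 16798296) (l 16838024)))) (a (b (a (a (b (l 16789296) (l 16815464)) (l 16791048)) (l 16800120)) (l 16832392)) (b (l 16818552) (l 16878408)))), by decide +kernel⟩

def k68_pm_012 : ∃ t, chk3 f_pm_012 t 69 61 1 = true :=
  ⟨(a (b (b (a (b (a (b (l 3) (l 100562661559)) (a (b (l 104320758263) (l 66739796487)) (b (l 80698441415) (l 16793920)))) (a (b (a (l 78014086391) (l 16792048)) (l 16796720)) (l 16792928))) (b (a (b (c (l 16792016) (l 35064409735)) (l 16801616)) (l 16787624)) (l 16800080))) (a (l 16793896) (l 16828776))) (b (l 16834752) (l 16895192))) (b (b (a (l 16814640) (l 16859512)) (l 16865240)) (b (l 16925904) (l 16966112)))), by decide +kernel⟩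

def k69_pm_012 : ∃ t, chk3 f_pm_012 t 35 30 1 = true :=
  ⟨(b (a (b (a (b (a (l 3) (b (l 3) (l 99488944631))) (a (b (l 107541989831) (a (l 96804577223) (b (l 71034768183) (l 16796024)))) (b (a (l 71571642455) (l 16797560)) (l 16786632)))) (b (a (b (a (l 105931374407) (l 70497900391)) (a (l 49559932327) (l 16802928))) (b (l 16792944) (l 16818800))) (l 16790440))) (b (a (a (b (a (b (l 16793760) (l 16800816)) (l 16807528)) (l 16797904)) (l 16811976)) (l 16845856)) (a (l 16836368) (l 16903024)))) (b (a (b (l 16801088) (l 16876056)) (l 16880544)) (a (l 16907720) (l 16970912)))) (b (a (a (b (l 16894904) (l 16933880)) (l 16960232)) (l 17025872)) (a (a (l 16994376) (l 17041072)) (l 17086664)))), by decide +kernel⟩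

def k70_pm_012 : ∃ t, chk3 f_pm_012 t 17 62 1 = true :=
  ⟨(b (a (b (a (a (a (b (l 16810888) (l 16849112)) (l 16823376)) (a (l 16890632) (l 16916296))) (a (l 16954984) (l 17006168))) (a (a (a (a (l 16845296) (l 16857944)) (l 16856360)) (a (l 16924696) (l 16951456))) (a (l 16991712) (l 17045088)))) (a (a (l 17055888) (l 17126344)) (l 17196528))) (a (a (a (a (b (b (l 16870544) (l 16837632)) (a (b (l 16835288) (l 16771784)) (b (l 16850288) (l 16809064)))) (b (b (l 16918656) (l 16887128)) (a (b (l 16865504) (l 16846520)) (b (l 16880872) (l 16884088))))) (b (b (l 16918536) (a (l 16937224) (l 16987648))) (a (b (l 16904120) (l 16867152)) (a (l 16868360) (l 16947328))))) (a (a (b (l 16989248) (l 16950336)) (b (l 17038944) (l 17044888))) (b (l 17081440) (l 17070416)))) (a (b (l 17163352) (l 17158872)) (l 17286112)))), by decide +kernel⟩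

def k71_pm_012 : ∃ t, chk3 f_pm_012 t 68 63 1 = true :=
  ⟨(b (b (b (a (c (a (l 16967560) (l 17005168)) (a (l 16769960) (l 16768992))) (a (a (l 16858104) (l 16897248)) (l 16903376))) (a (a (a (l 16769352) (c (l 16976296) (l 16768352))) (c (l 17007280) (l 16769824))) (c (l 17046984) (a (l 16768272) (a (l 16871736) (l 16912576)))))) (a (b (a (a (l 16769672) (c (l 16883544) (l 16768496))) (c (l 16897288) (a (l 16768608) (l 16768568)))) (b (a (l 16769192) (c (l 16929352) (l 16769408))) (a (l 16769000) (c (l 16877344) (l 16768376))))) (c (b (a (l 17047304) (l 17091016)) (a (l 16912872) (l 17087600))) (b (a (a (l 16768328) (l 16767840)) (l 16767896)) (b (a (l 16774880) (l 16794376)) (a (l 16767096) (l 16769760))))))) (b (b (a (a (b (l 16769328) (a (l 16768608) (l 16768336))) (b (a (l 16773408) (c (l 16920456) (l 16767960))) (l 16768352))) (c (a (b (l 16941776) (l 16866376)) (l 16928728)) (a (b (l 16767032) (l 16767224)) (b (l 16765248) (l 16766016))))) (a (b (b (a (l 16768248) (l 16767208)) (a (l 16768088)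 (l 14))) (a (a (l 16767984) (l 14)) (l 14))) (b (a (a (l 16766512) (c (l 16908240) (l 16766720))) (c (l 16954464) (l 16766320))) (l 14)))) (a (a (a (a (a (c (l 14) (c (l 14) (c (l 14) (c (l 14) (b (b (l 16767440) (l 16767032)) (b (b (l 16766704) (l 16766472)) (b (l 16766232) (b (l 16766048) (b (l 16765952) (l 16765888)))))))))) (l 14)) (l 14)) (l 14)) (l 14)) (l 14)))), by decide +kernel⟩

def k72_pm_012 : ∃ t, chk3 f_pm_012 t 69 63 1 = true :=
  ⟨(b (c (b (a (l 17139392) (l 17209464)) (a (b (l 17153640) (l 17156840)) (l 17237152))) (b (a (b (l 16885328) (a (l 16921056) (l 17001512))) (b (l 17058792) (l 17057424))) (b (a (a (a (l 16872104) (l 16914944)) (l 16926120)) (l 16966960)) (b (a (a (l 16843480) (l 16932624)) (l 16978864)) (a (a (l 16806784) (l 16878184)) (l 16928576)))))) (b (b (c (a (l 17027480) (l 17247136)) (a (b (a (l 16767096) (l 16842128)) (b (l 16766720) (l 16766392))) (a (b (l 16935408) (l 16879096)) (l 16936880)))) (c (a (b (l 17061256) (l 16968760)) (l 17246432)) (b (b (b (a (l 16765568)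 (l 16854224)) (l 14)) (l 14)) (l 14)))) (c (a (c (b (l 17155392) (l 14)) (l 14)) (b (l 17112120) (c (l 17302880) (l 14)))) (l 14)))), by decide +kernel⟩

def k73_pm_012 : ∃ t, chk3 f_pm_012 t 35 63 1 = true :=
  ⟨(b (b (a (a (l 17179856) (l 17263216)) (l 17348784)) (a (a (a (l 17074232) (l 17216184)) (l 17268816)) (l 17385088))) (b (a (c (l 17354584) (a (b (l 17028336) (a (l 16921536) (l 17097968))) (b (l 17197832) (l 17189304)))) (l 17245864)) (a (c (a (b (l 17341088) (l 17336416)) (l 17433928)) (a (c (b (l 17093536) (l 14)) (l 14)) (b (l 17069208) (c (l 17222024) (l 14))))) (a (a (l 17137112) (l 17347104)) (l 17447376))))), by decide +kernel⟩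

def k74_pm_012 : ∃ t, chk3 f_pm_012 t 9 7 1 = true :=
  ⟨(b (a (b (a (a (l 3) (b (l 3) (b (l 120963830103) (a (l 115595086055) (b (l 87140912919) (l 63518633911)))))) (a (a (b (l 122574446775) (b (l 65666114791) (l 16794592))) (b (b (l 3) (l 73719158807)) (l 16802128))) (b (b (a (l 76403514103) (l 16833656)) (l 16809872)) (b (l 16929392) (l 16904960))))) (a (b (a (b (a (l 3) (l 108078909783)) (b (a (l 115058190935) (a (l 73182266455) (l 16806720))) (a (a (l 98952055495) (l 62981730071)) (l 16800536)))) (b (b (a (l 64055481687) (l 16823648)) (l 16802208)) (a (l 16804080) (l 16881576)))) (a (b (a (b (l 16795848) (l 16814680)) (l 16818688)) (a (l 16837024) (l 16917696))) (b (l 16873680) (l 16972216)))) (a (b (b (l 16843272) (l 16931664)) (l 16967544)) (b (l 16926792) (l 17067600))))) (a (b (b (a (b (l 16806456) (l 16886480)) (l 16915144)) (a (l 16939728) (l 16984504))) (b (l 17127312) (l 17226320))) (b (b (l 16967112) (l 17035416)) (b (l 17141280) (l 17226816))))) (a (b (b (a (a (b (l 16940504) (l 17030568))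 (l 17004808)) (a (l 17132688) (l 17191472))) (a (a (b (l 17105536) (l 17190792)) (l 17221840)) (l 17319248))) (b (a (b (l 17321584) (l 17418872)) (l 17506488)) (a (b (a (l 17471464) (l 17558896)) (a (b (l 17534992) (l 17569960)) (l 17656744))) (b (l 17664912) (l 17774704))))) (b (a (b (l 17269976) (l 17425240)) (l 17322672)) (b (l 17651176) (l 17862696))))), by decide +kernel⟩

def k75_pm_012 : ∃ t, chk3 f_pm_012 t 5 3 1 = true :=
  ⟨(b (a (a (a (b (b (a (b (l 154249787671) (l 115595117911)) (l 83383049319)) (a (l 81235530071) (l 16945072))) (b (a (l 16921800) (l 16933784)) (l 17082928))) (a (b (b (b (l 16921024) (a (l 16868344) (l 16895584))) (a (l 16906032) (l 16930432))) (l 17193416)) (b (a (a (l 17047032) (l 17030440)) (a (b (l 16901056) (l 16947696)) (l 17031256))) (a (l 17086928) (a (l 17092384) (l 17053288)))))) (b (b (l 16964856) (l 16971448)) (l 17220768))) (b (b (l 16979744) (l 17034296)) (a (l 17185880) (l 17225176)))) (a (b (a (a (b (l 17139000) (l 17240784)) (a (b (l 17095120) (l 17284344))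 (l 17351104))) (b (l 17174920) (l 17355040))) (b (a (l 17662160) (l 17578992)) (b (l 17781680) (l 17970080)))) (b (b (l 17248576) (l 17406632)) (b (l 17589400) (l 18005800))))), by decide +kernel⟩

def k76_pm_012 : ∃ t, chk3 f_pm_012 t 3 1 1 = true :=
  ⟨(b (a (b (l 2) (b (l 2) (a (l 17206832) (l 2)))) (l 2)) (b (a (b (a (l 17059904) (l 17149320)) (a (l 17300968) (l 17162984))) (b (l 2) (a (l 17249688) (l 2)))) (a (b (a (l 17515608) (l 17408208)) (a (l 17689840) (l 17599720))) (b (a (l 17426712) (l 17385544)) (a (l 17601352) (l 17588752)))))), by decide +kernel⟩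

theorem s77_pm_012 : ∃ t, chk3 f_pm_012 t 34 63 1 = true := ex3_a k71_pm_012 k72_pm_012

theorem s78_pm_012 : ∃ t, chk3 f_pm_012 t 17 63 1 = true := ex3_a s77_pm_012 k73_pm_012

theorem s79_pm_012 : ∃ t, chk3 f_pm_012 t 17 31 1 = true := ex3_b k70_pm_012 s78_pm_012

theorem s80_pm_012 : ∃ t, chk3 f_pm_012 t 68 61 1 = true := ex3_b k66_pm_012 k67_pm_012

theorem s81_pm_012 : ∃ t, chk3 f_pm_012 t 34 61 1 = true := ex3_a s80_pm_012 k68_pm_012

theorem s82_pm_012 : ∃ t, chk3 f_pm_012 t 34 30 1 = true := ex3_b k65_pm_012 s81_pm_012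

theorem s83_pm_012 : ∃ t, chk3 f_pm_012 t 17 30 1 = true := ex3_a s82_pm_012 k69_pm_012

theorem s84_pm_012 : ∃ t, chk3 f_pm_012 t 17 15 1 = true := ex3_b s83_pm_012 s79_pm_012

theorem s85_pm_012 : ∃ t, chk3 f_pm_012 t 67 63 1 = true := ex3_b k63_pm_012 k64_pm_012

theorem s86_pm_012 : ∃ t, chk3 f_pm_012 t 33 63 1 = true := ex3_a k62_pm_012 s85_pm_012

theorem s87_pm_012 : ∃ t, chk3 f_pm_012 t 536 997 1 = true := ex3_a k55_pm_012 k56_pm_012

theorem s88_pm_012 : ∃ t, chk3 f_pm_012 t 268 997 1 = true := ex3_a s87_pm_012 k57_pm_012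

theorem s89_pm_012 : ∃ t, chk3 f_pm_012 t 134 997 1 = true := ex3_a s88_pm_012 k58_pm_012

theorem s90_pm_012 : ∃ t, chk3 f_pm_012 t 134 498 1 = true := ex3_b k54_pm_012 s89_pm_012

theorem s91_pm_012 : ∃ t, chk3 f_pm_012 t 134 249 1 = true := ex3_b s90_pm_012 k59_pm_012

theorem s92_pm_012 : ∃ t, chk3 f_pm_012 t 269 497 1 = true := ex3_a k52_pm_012 k53_pm_012

theorem s93_pm_012 : ∃ t, chk3 f_pm_012 t 269 248 1 = true := ex3_b k51_pm_012 s92_pm_012

theorem s94_pm_012 : ∃ t, chk3 f_pm_012 t 134 248 1 = true := ex3_a k50_pm_012 s93_pm_012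

theorem s95_pm_012 : ∃ t, chk3 f_pm_012 t 134 124 1 = true := ex3_b s94_pm_012 s91_pm_012

theorem s96_pm_012 : ∃ t, chk3 f_pm_012 t 67 124 1 = true := ex3_a s95_pm_012 k60_pm_012

theorem s97_pm_012 : ∃ t, chk3 f_pm_012 t 67 62 1 = true := ex3_b s96_pm_012 k61_pm_012

theorem s98_pm_012 : ∃ t, chk3 f_pm_012 t 528 1006 1 = true := ex3_b k44_pm_012 k45_pm_012

theorem s99_pm_012 : ∃ t, chk3 f_pm_012 t 528 503 1 = true := ex3_b s98_pm_012 k46_pm_012

theorem s100_pm_012 : ∃ t, chk3 f_pm_012 t 264 503 1 = true := ex3_a s99_pm_012 k47_pm_012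

theorem s101_pm_012 : ∃ t, chk3 f_pm_012 t 132 503 1 = true := ex3_a s100_pm_012 k48_pm_012

theorem s102_pm_012 : ∃ t, chk3 f_pm_012 t 530 1004 1 = true := ex3_a k40_pm_012 k41_pm_012

theorem s103_pm_012 : ∃ t, chk3 f_pm_012 t 265 1004 1 = true := ex3_a s102_pm_012 k42_pm_012

theorem s104_pm_012 : ∃ t, chk3 f_pm_012 t 265 502 1 = true := ex3_b s103_pm_012 k43_pm_012

theorem s105_pm_012 : ∃ t, chk3 f_pm_012 t 264 1005 1 = true := ex3_b k38_pm_012 k39_pm_012

theorem s106_pm_012 : ∃ t, chk3 f_pm_012 t 264 502 1 = true := ex3_b k37_pm_012 s105_pm_012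

theorem s107_pm_012 : ∃ t, chk3 f_pm_012 t 132 502 1 = true := ex3_a s106_pm_012 s104_pm_012

theorem s108_pm_012 : ∃ t, chk3 f_pm_012 t 132 251 1 = true := ex3_b s107_pm_012 s101_pm_012

theorem s109_pm_012 : ∃ t, chk3 f_pm_012 t 66 251 1 = true := ex3_a s108_pm_012 k49_pm_012

theorem s110_pm_012 : ∃ t, chk3 f_pm_012 t 1064 1002 1 = true := ex3_a k31_pm_012 k32_pm_012

theorem s111_pm_012 : ∃ t, chk3 f_pm_012 t 532 1002 1 = true := ex3_a s110_pm_012 k33_pm_012

theorem s112_pm_012 : ∃ t, chk3 f_pm_012 t 532 501 1 = true := ex3_b s111_pm_012 k34_pm_012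

theorem s113_pm_012 : ∃ t, chk3 f_pm_012 t 266 501 1 = true := ex3_a s112_pm_012 k35_pm_012

theorem s114_pm_012 : ∃ t, chk3 f_pm_012 t 533 1001 1 = true := ex3_b k29_pm_012 k30_pm_012

theorem s115_pm_012 : ∃ t, chk3 f_pm_012 t 533 1000 1 = true := ex3_a k27_pm_012 k28_pm_012

theorem s116_pm_012 : ∃ t, chk3 f_pm_012 t 533 500 1 = true := ex3_b s115_pm_012 s114_pm_012

theorem s117_pm_012 : ∃ t, chk3 f_pm_012 t 266 500 1 = true := ex3_a k26_pm_012 s116_pm_012

theorem s118_pm_012 : ∃ t, chk3 f_pm_012 t 266 250 1 = true := ex3_b s117_pm_012 s113_pm_012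

theorem s119_pm_012 : ∃ t, chk3 f_pm_012 t 133 250 1 = true := ex3_a s118_pm_012 k36_pm_012

theorem s120_pm_012 : ∃ t, chk3 f_pm_012 t 531 2006 1 = true := ex3_b k23_pm_012 k24_pm_012

theorem s121_pm_012 : ∃ t, chk3 f_pm_012 t 531 1003 1 = true := ex3_b s120_pm_012 k25_pm_012

theorem s122_pm_012 : ∃ t, chk3 f_pm_012 t 531 501 1 = true := ex3_b k22_pm_012 s121_pm_012

theorem s123_pm_012 : ∃ t, chk3 f_pm_012 t 265 501 1 = true := ex3_a k21_pm_012 s122_pm_012

theorem s124_pm_012 : ∃ t, chk3 f_pm_012 t 265 250 1 = true := ex3_b k20_pm_012 s123_pm_012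

theorem s125_pm_012 : ∃ t, chk3 f_pm_012 t 132 250 1 = true := ex3_a k19_pm_012 s124_pm_012

theorem s126_pm_012 : ∃ t, chk3 f_pm_012 t 66 250 1 = true := ex3_a s125_pm_012 s119_pm_012

theorem s127_pm_012 : ∃ t, chk3 f_pm_012 t 66 125 1 = true := ex3_b s126_pm_012 s109_pm_012

theorem s128_pm_012 : ∃ t, chk3 f_pm_012 t 535 998 1 = true := ex3_b k16_pm_012 k17_pm_012

theorem s129_pm_012 : ∃ t, chk3 f_pm_012 t 535 499 1 = true := ex3_b s128_pm_012 k18_pm_012

theorem s130_pm_012 : ∃ t, chk3 f_pm_012 t 534 999 1 = true := ex3_b k14_pm_012 k15_pm_012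

theorem s131_pm_012 : ∃ t, chk3 f_pm_012 t 534 499 1 = true := ex3_b k13_pm_012 s130_pm_012

theorem s132_pm_012 : ∃ t, chk3 f_pm_012 t 267 499 1 = true := ex3_a s131_pm_012 s129_pm_012

theorem s133_pm_012 : ∃ t, chk3 f_pm_012 t 267 249 1 = true := ex3_b k12_pm_012 s132_pm_012

theorem s134_pm_012 : ∃ t, chk3 f_pm_012 t 133 249 1 = true := ex3_a k11_pm_012 s133_pm_012

theorem s135_pm_012 : ∃ t, chk3 f_pm_012 t 133 124 1 = true := ex3_b k10_pm_012 s134_pm_012

theorem s136_pm_012 : ∃ t, chk3 f_pm_012 t 66 124 1 = true := ex3_a k9_pm_012 s135_pm_012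

theorem s137_pm_012 : ∃ t, chk3 f_pm_012 t 66 62 1 = true := ex3_b s136_pm_012 s127_pm_012

theorem s138_pm_012 : ∃ t, chk3 f_pm_012 t 33 62 1 = true := ex3_a s137_pm_012 s97_pm_012

theorem s139_pm_012 : ∃ t, chk3 f_pm_012 t 33 31 1 = true := ex3_b s138_pm_012 s86_pm_012

theorem s140_pm_012 : ∃ t, chk3 f_pm_012 t 65 31 1 = true := ex3_b k7_pm_012 k8_pm_012

theorem s141_pm_012 : ∃ t, chk3 f_pm_012 t 32 31 1 = true := ex3_a k6_pm_012 s140_pm_012

theorem s142_pm_012 : ∃ t, chk3 f_pm_012 t 16 31 1 = true := ex3_a s141_pm_012 s139_pm_012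

theorem s143_pm_012 : ∃ t, chk3 f_pm_012 t 33 30 1 = true := ex3_b k4_pm_012 k5_pm_012

theorem s144_pm_012 : ∃ t, chk3 f_pm_012 t 16 30 1 = true := ex3_a k3_pm_012 s143_pm_012

theorem s145_pm_012 : ∃ t, chk3 f_pm_012 t 16 15 1 = true := ex3_b s144_pm_012 s142_pm_012

theorem s146_pm_012 : ∃ t, chk3 f_pm_012 t 8 15 1 = true := ex3_a s145_pm_012 s84_pm_012

theorem s147_pm_012 : ∃ t, chk3 f_pm_012 t 8 7 1 = true := ex3_b k2_pm_012 s146_pm_012

theorem s148_pm_012 : ∃ t, chk3 f_pm_012 t 4 7 1 = true := ex3_a s147_pm_012 k74_pm_012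

theorem s149_pm_012 : ∃ t, chk3 f_pm_012 t 4 3 1 = true := ex3_b k1_pm_012 s148_pm_012

theorem s150_pm_012 : ∃ t, chk3 f_pm_012 t 2 3 1 = true := ex3_a s149_pm_012 k75_pm_012

theorem s151_pm_012 : ∃ t, chk3 f_pm_012 t 2 1 1 = true := ex3_b k0_pm_012 s150_pm_012

theorem s152_pm_012 : ∃ t, chk3 f_pm_012 t 1 1 1 = true := ex3_a s151_pm_012 k76_pm_012

theorem c_pm_012 : CertN 0 536870912 536870912 536870912 33554432 16777216 3 true true false .pnp 0 1 2
    ndN0q0 ndN0q1 pcN2 cut_pm_012 Ext.none :=
  certNK2 (fam := true) (s1 := true) (s2 := false) (a := 0) (b := 1) (c := 2) (cn := .pnp) (n1 := ndN0q0) (n2 := ndN0q1) (pc := pcN2) (cut := cut_pm_012) (xt := Ext.none) (P1 := 0) (W1 := 536870912) (P2 := 536870912) (W2 := 536870912) (P3 := 33554432) (W3 := 16777216) (N0 := 3)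
    rfl rfl rfl (fun _ => rfl) s152_pm_012

noncomputable def cut_pm_022 : Cut := Cut.of [[⟨0, 0, 0, 33554432⟩, ⟨1, 1, 0, 33554432⟩, ⟨2, 1, 0, 33554432⟩], [⟨0, 0, 1, 16777216⟩, ⟨1, 1, 0, 6291456⟩, ⟨2, 1, 1, 16777216⟩, ⟨0, 0, 0, 67108864⟩, ⟨0, 1, 0, 1056964608⟩, ⟨2, 1, 0, 67108864⟩, ⟨2, 2, 0, 1056964608⟩]]

noncomputable def f_pm_022 : ℕ → ℕ → ℕ → ℕ → Bool := onCell 0 536870912 0 536870912 33554432 16777216
    (rowNK 3 0 true true false .pp 0 2 2 (qsf 0 536870912 0 536870912 2) ndN0q0 ndN0q2 pcN2 cut_pm_022 Ext.none)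

def k0_pm_022 : ∃ t, chk3 f_pm_022 t 2 2 1 = true :=
  ⟨(a (a (b (l 19154152) (l 19057480)) (b (l 18591648) (l 18566328))) (b (a (l 18143736) (l 17723560)) (a (l 18161472) (l 17763952)))), by decide +kernel⟩

def k1_pm_022 : ∃ t, chk3 f_pm_022 t 8 6 1 = true :=
  ⟨(a (b (l 19060496) (a (l 18852728) (l 18830800))) (l 18803248)), by decide +kernel⟩

def k2_pm_022 : ∃ t, chk3 f_pm_022 t 8 14 1 = true :=
  ⟨(a (b (a (b (l 18504312) (a (c (l 18445872) (l 17915728)) (l 18341496))) (l 18531384)) (a (b (a (c (a (l 18069872) (l 18184448)) (b (l 17428288) (a (l 17199024) (l 17543952)))) (c (l 18307840) (l 17808304))) (a (a (c (b (l 17613432) (a (l 17136304) (l 17394192))) (l 16722992)) (c (b (l 17890800) (l 17559016)) (b (l 17188992) (l 16887216)))) (c (b (l 18076008) (l 17885288)) (b (l 17382104) (a (l 17134592) (l 17432704)))))) (b (l 18273016) (c (l 18229672) (a (l 17548928) (l 17919992)))))) (b (l 18575392) (a (l 18318064) (l 18386840)))), by decide +kernel⟩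

def k3_pm_022 : ∃ t, chk3 f_pm_022 t 8 30 1 = true :=
  ⟨(b (b (a (a (a (a (l 16724912) (c (c (l 17433040) (l 16949560)) (l 16719816))) (c (a (l 17418448) (l 17737512)) (a (l 16876032) (l 17078128)))) (a (c (l 17926024) (l 17203488)) (l 17898768))) (l 17979104)) (a (a (a (a (a (l 16730432) (l 16727976)) (l 16729432)) (a (l 16748136) (c (l 17275960) (l 16820928)))) (a (c (l 17582984) (a (l 16999120) (l 17294080))) (l 17507760))) (a (l 17974568) (l 18143416)))) (a (a (a (b (a (b (l 16735464) (l 6)) (b (l 16727672) (l 16732736))) (a (l 6) (a (l 6) (l 16735216)))) (a (b (l 16728712) (b (l 16748056) (l 16733576))) (b (b (l 16835736) (l 16755216)) (b (l 16742296) (l 16744752))))) (a (b (c (a (b (l 17472848) (l 17228856)) (l 17578104)) (a (l 16785600) (l 16898024))) (a (b (l 16810432) (l 16738872)) (c (a (l 17083192) (l 17265488)) (l 16750032)))) (c (b (l 17771136) (a (l 17412872) (l 17634104))) (b (a (l 17170592) (l 17406424)) (a (l 16817440) (l 17046536)))))) (a (a (c (l 17871360) (b (l 17584272) (l 17179328)))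 (l 17699968)) (l 18005184)))), by decide +kernel⟩

def k4_pm_022 : ∃ t, chk3 f_pm_022 t 16 31 1 = true :=
  ⟨(a (b (b (a (l 6) (a (b (a (l 6) (l 16751856)) (l 6)) (b (l 16730320) (b (a (l 6) (b (l 16747536) (l 16748792))) (a (l 6) (l 16751464)))))) (l 6)) (l 6)) (a (b (b (b (a (b (l 16740736) (a (l 16743512) (l 16742624))) (l 16785752)) (a (l 16731392) (l 16746760))) (b (a (b (l 16753776) (l 16757304)) (a (l 16754304) (l 16753488))) (a (a (l 6) (l 16762144)) (l 16743896)))) (b (a (l 6) (b (a (l 16749896) (l 16751728)) (l 6))) (l 6))) (a (b (b (b (c (l 17204120) (l 16792864)) (l 16798112)) (b (l 16742384) (b (l 16736624) (l 16740128)))) (b (b (b (l 16743600) (l 16747040)) (b (l 16753064) (l 16756424))) (b (b (c (l 16759880) (l 16759608)) (l 6)) (l 6)))) (b (b (c (l 17184208) (l 16726824)) (b (c (l 17038400) (l 16737864)) (l 16753816))) (b (b (b (l 16742072) (l 16745528)) (b (l 16748944) (l 16754936))) (b (b (l 16758272) (b (l 16758128) (l 16761072))) (b (b (l 16763344) (a (l 6) (l 16762632))) (a (l 6) (c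 (l 14) (b (l 16765368) (a (l 6) (c (l 14) (b (l 16764976) (a (l 6) (c (l 14) (c (l 14) (b (l 16765408) (a (l 6) (b (l 16765656) (l 16765848)))))))))))))))))))), by decide +kernel⟩

def k5_pm_022 : ∃ t, chk3 f_pm_022 t 17 31 1 = true :=
  ⟨(a (b (a (b (c (l 17486544) (a (b (l 17188336) (l 17011808)) (l 17178184))) (b (c (l 17293072) (a (l 16869448) (l 17064440))) (c (a (l 17105424) (l 17420176)) (a (l 16802960) (l 16889432))))) (c (b (l 17797464) (l 17635256)) (b (l 17378120) (a (b (l 17270264) (l 17108776)) (l 17303872))))) (a (a (b (b (a (l 16779368) (c (l 17065080) (l 16743384))) (b (l 16770664) (l 16750856))) (c (l 14) (a (a (b (l 16758848) (b (l 16762424) (b (l 16763520) (c (l 14) (b (l 16764616) (c (l 14) (b (l 16765160) (b (l 16765456) (a (a (l 16765784) (l 14)) (l 14)))))))))) (l 14)) (l 14)))) (b (b (c (l 17184168) (l 16770752)) (c (c (l 17297928) (b (l 17097096) (l 16951976))) (l 16750624))) (l 14))) (c (b (c (l 17499592) (b (l 17410208) (l 17143464))) (b (c (l 17306944) (a (l 14) (l 17273848)))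 (a (l 14) (c (l 17347552) (l 14))))) (b (b (a (l 16878784) (l 17146040)) (a (a (l 16788944) (l 16852272)) (c (l 17198648) (l 16877704)))) (l 14))))) (b (a (b (l 17782832) (l 17519560)) (l 17837704)) (b (a (c (l 17644032) (b (l 17358952) (l 17108064))) (l 17609184)) (a (c (b (l 17520136) (a (l 17337032) (l 17480264))) (b (c (l 17203560) (a (l 14) (l 17191432))) (a (l 14) (c (l 17254864) (l 14))))) (c (l 17642792) (b (l 17411840) (a (l 17224696) (l 17380936)))))))), by decide +kernel⟩

def k6_pm_022 : ∃ t, chk3 f_pm_022 t 9 3 1 = true :=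
  ⟨(b (l 18552976) (b (l 18535632) (b (a (l 18224912) (l 18269928)) (a (b (l 18024592) (a (b (l 17818728) (a (l 17502768) (l 17757432))) (l 17919064))) (l 18100624))))), by decide +kernel⟩

def k7_pm_022 : ∃ t, chk3 f_pm_022 t 5 3 1 = true :=
  ⟨(b (a (l 18239336) (l 17903584)) (a (b (l 18284472) (l 18270608)) (l 18160608))), by decide +kernel⟩

def k8_pm_022 : ∃ t, chk3 f_pm_022 t 3 1 1 = true :=
  ⟨(b (a (b (l 1712767927) (a (l 17405264) (l 17168288))) (b (l 2) (a (l 17079800) (l 2)))) (a (b (l 17505616) (a (l 17808480) (l 17612144))) (b (l 17290408) (l 17558032)))), by decide +kernel⟩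

theorem s9_pm_022 : ∃ t, chk3 f_pm_022 t 8 31 1 = true := ex3_a k4_pm_022 k5_pm_022

theorem s10_pm_022 : ∃ t, chk3 f_pm_022 t 8 15 1 = true := ex3_b k3_pm_022 s9_pm_022

theorem s11_pm_022 : ∃ t, chk3 f_pm_022 t 8 7 1 = true := ex3_b k2_pm_022 s10_pm_022

theorem s12_pm_022 : ∃ t, chk3 f_pm_022 t 8 3 1 = true := ex3_b k1_pm_022 s11_pm_022

theorem s13_pm_022 : ∃ t, chk3 f_pm_022 t 4 3 1 = true := ex3_a s12_pm_022 k6_pm_022

theorem s14_pm_022 : ∃ t, chk3 f_pm_022 t 2 3 1 = true := ex3_a s13_pm_022 k7_pm_022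

theorem s15_pm_022 : ∃ t, chk3 f_pm_022 t 2 1 1 = true := ex3_b k0_pm_022 s14_pm_022

theorem s16_pm_022 : ∃ t, chk3 f_pm_022 t 1 1 1 = true := ex3_a s15_pm_022 k8_pm_022

theorem c_pm_022 : CertN 0 536870912 0 536870912 33554432 16777216 3 true true false .pp 0 2 2
    ndN0q0 ndN0q2 pcN2 cut_pm_022 Ext.none :=
  certNK0 (fam := true) (s1 := true) (s2 := false) (a := 0) (b := 2) (c := 2) (cn := .pp) (n1 := ndN0q0) (n2 := ndN0q2) (pc := pcN2) (cut := cut_pm_022) (xt := Ext.none) (P1 := 0) (W1 := 536870912) (P2 := 0) (W2 := 536870912) (P3 := 33554432) (W3 := 16777216) (N0 := 3)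
    rfl rfl rfl s16_pm_022

noncomputable def f_pm_023 : ℕ → ℕ → ℕ → ℕ → Bool := onCell 0 536870912 0 536870912 33554432 16777216
    (rowNK 3 0 true true false .up 0 2 3 (qsf 0 536870912 0 536870912 3) ndN0q0 ndN0q2 pcN3 Cut.none Ext.none)

def k0_pm_023 : ∃ t, chk3 f_pm_023 t 1 1 1 = true :=
  ⟨(a (l 1) (b (a (a (l 1) (b (l 17396336) (l 17547936))) (b (a (l 17290272) (b (l 17135200) (l 17290552))) (a (l 17483024) (l 17470248)))) (b (a (l 1) (l 17658160)) (a (l 1) (b (l 17595856) (a (l 1) (l 17508776))))))), by decide +kernel⟩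

theorem c_pm_023 : CertN 0 536870912 0 536870912 33554432 16777216 3 true true false .up 0 2 3
    ndN0q0 ndN0q2 pcN3 Cut.none Ext.none :=
  certNK0 (fam := true) (s1 := true) (s2 := false) (a := 0) (b := 2) (c := 3) (cn := .up) (n1 := ndN0q0) (n2 := ndN0q2) (pc := pcN3) (cut := Cut.none) (xt := Ext.none) (P1 := 0) (W1 := 536870912) (P2 := 0) (W2 := 536870912) (P3 := 33554432) (W3 := 16777216) (N0 := 3)
    rfl rfl rfl k0_pm_023

noncomputable def cut_pm_101 : Cut := Cut.of [[⟨0, 1, 0, 33554432⟩, ⟨1, 0, 0, 33554432⟩, ⟨2, 1, 0, 33554432⟩]]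

noncomputable def f_pm_101 : ℕ → ℕ → ℕ → ℕ → Bool := onCell 536870912 536870912 536870912 536870912 33554432 16777216
    (rowNK 3 1 true true false .npn 1 0 1 (qsf 536870912 536870912 0 536870912 1) ndN0q1 ndN0q0 pcN1 cut_pm_101 Ext.none)

def k0_pm_101 : ∃ t, chk3 f_pm_101 t 1 1 1 = true :=
  ⟨(b (l 3) (a (l 3) (b (l 3) (a (l 3) (b (l 3) (a (l 3) (b (l 3) (a (l 3) (b (l 3) (a (l 3) (l 6))))))))))), by decide +kernel⟩

theorem c_pm_101 : CertN 536870912 536870912 0 536870912 33554432 16777216 3 true true false .npn 1 0 1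
    ndN0q1 ndN0q0 pcN1 cut_pm_101 Ext.none :=
  certNK1 (fam := true) (s1 := true) (s2 := false) (a := 1) (b := 0) (c := 1) (cn := .npn) (n1 := ndN0q1) (n2 := ndN0q0) (pc := pcN1) (cut := cut_pm_101) (xt := Ext.none) (P1 := 536870912) (W1 := 536870912) (P2 := 0) (W2 := 536870912) (P3 := 33554432) (W3 := 16777216) (N0 := 3)
    rfl rfl rfl (fun _ => rfl) k0_pm_101

end Pool.Agent.Strip051.G.I1_32_3_64.Tab.C.NA00

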