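import Pool.Agent.Strip051.G.I1_32_3_64.Tab
import Pool.Agent.Strip051.PB.RowK

/-! # Certificates N2 (generated) -/

set_option linter.all false
set_option maxRecDepth 100000

namespace Pool.Agent.Strip051.G.I1_32_3_64.Tab.C.NA00

open Pool.Agent.Strip051.PB Pool.Agent.Strip051.PB.T
open Pool.Agent.Strip051.G.I1_32_3_64.Tab

noncomputable def cut_pm_102 : Cut := Cut.of [[⟨0, 1, 0, 33554432⟩, ⟨1, 0, 0, 33554432⟩, ⟨2, 1, 0, 33554432⟩], [⟨0, 1, 0, 6291456⟩, ⟨1, 0, 1, 16777216⟩, ⟨2, 1, 1, 16777216⟩, ⟨1, 0, 0, 67108864⟩, ⟨1, 1, 0, 1056964608⟩, ⟨2, 1, 0, 67108864⟩, ⟨2, 2, 0, 1056964608⟩]]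

noncomputable def f_pm_102 : ℕ → ℕ → ℕ → ℕ → Bool := onCell 536870912 536870912 1073741824 536870912 33554432 16777216
    (rowNK 3 1 true true false .npp 1 0 2 (qsf 536870912 536870912 0 536870912 2) ndN0q1 ndN0q0 pcN2 cut_pm_102 Ext.none)

def k0_pm_102 : ∃ t, chk3 f_pm_102 t 2 1 1 = true :=
  ⟨(b (b (b (l 3) (l 3)) (a (b (b (b (l 3) (l 2)) (l 2)) (l 2)) (b (b (b (a (l 3) (a (l 3) (b (l 3) (a (l 196662636551) (l 118816364775))))) (b (a (a (l 3) (b (l 3) (l 191293934823))) (a (b (l 185388401943) (l 16866328)) (b (l 16905480) (l 16895976)))) (a (b (a (l 93583432567) (l 16843136)) (b (a (l 16843240) (l 16845640)) (a (l 16805696) (l 16804040)))) (b (a (l 16868600) (l 16913752)) (b (a (l 16850304) (l 16914032)) (l 16975136)))))) (a (b (l 16941320) (l 16947144)) (b (l 17014088) (l 16911040)))) (a (b (l 17060224) (l 2)) (l 30703066775))))) (a (l 2) (b (a (l 2) (b (l 17206832) (l 2))) (l 2)))), by decide +kernel⟩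

def k1_pm_102 : ∃ t, chk3 f_pm_102 t 6 2 1 = true :=
  ⟨(b (b (l 3) (a (b (l 3) (b (l 3) (a (l 3) (b (l 140291247671) (a (l 149417964839) (l 93583405527)))))) (b (a (l 3) (b (l 3) (b (l 3) (a (l 3) (b (l 3) (a (l 3) (l 78550997079))))))) (b (a (b (l 3) (a (l 3) (l 140828069319))) (b (a (b (l 121500675655) (l 129553758551)) (a (l 83382909783) (l 16802264))) (a (b (l 82309169431) (l 16806240)) (l 16833952)))) (a (b (a (l 123111314647) (l 16847264)) (l 16898240)) (a (l 16939552) (l 16926776))))))) (b (b (b (a (a (b (a (l 154249787671) (l 115595117911)) (l 83383049319)) (b (l 81235530071) (l 16945072))) (a (b (l 16921800) (l 16933784)) (l 17082928))) (b (a (a (a (l 16921024) (b (l 16868344) (l 16895584))) (b (l 16906032) (l 16930432))) (l 17193416)) (a (b (b (l 17047032) (l 17030440)) (b (a (l 16901056) (l 16947696)) (l 17031256))) (b (l 17086928) (b (l 17092384) (l 17053288)))))) (a (a (l 16964856) (l 16971448)) (l 17220768))) (a (a (l 16979744) (l 17034296)) (b (l 17185880) (l 17225176))))), by decide +kernel⟩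

def k2_pm_102 : ∃ t, chk3 f_pm_102 t 14 8 1 = true :=
  ⟨(b (l 3) (a (l 3) (b (l 3) (a (l 3) (b (a (l 3) (b (l 3) (a (l 3) (b (l 114521317255) (a (l 104320763447) (b (l 86067158359) (l 16794680))))))) (a (b (a (l 3) (l 115595082791)) (a (l 103783937127) (b (a (l 95193955559) (l 58686741335)) (l 16794312)))) (b (a (b (l 98952075719) (a (l 78014104023) (l 16800760))) (b (a (b (l 16797056) (l 16799896)) (l 16809128)) (l 16822376))) (l 16796552)))))))), by decide +kernel⟩

def k3_pm_102 : ∃ t, chk3 f_pm_102 t 30 32 1 = true :=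
  ⟨(l 3), by decide +kernel⟩

def k4_pm_102 : ∃ t, chk3 f_pm_102 t 60 33 1 = true :=
  ⟨(l 3), by decide +kernel⟩

def k5_pm_102 : ∃ t, chk3 f_pm_102 t 61 33 1 = true :=
  ⟨(b (l 3) (a (l 3) (b (l 3) (a (l 3) (b (a (l 3) (b (l 3) (a (l 3) (b (b (l 3) (a (l 3) (c (a (l 100025784711) (l 91435850535)) (a (l 101636396135) (a (l 101636395943) (b (l 100025782423) (l 16787448))))))) (a (c (b (l 99488914359) (a (l 99488913911) (l 80698432695))) (b (a (l 3) (l 100025783783)) (b (a (l 3) (c (l 96804558455) (l 95730816023))) (a (l 99488912599) (c (l 16787888) (l 16787760)))))) (c (b (a (l 84993399847) (l 16788400)) (l 16788840)) (b (a (a (l 100562654119) (b (l 101099524647) (l 16787792))) (l 16787760)) (l 16787640)))))))) (b (a (a (l 3) (b (l 3) (a (l 3) (c (l 102710141671) (b (l 3) (l 102173268871)))))) (a (b (a (c (l 99488916151) (b (l 3) (l 102173268839))) (a (b (l 3) (a (l 102173267751) (b (l 102710138071) (l 98415170903)))) (a (b (l 102710138519) (b (l 102710138135) (l 16788408))) (b (a (l 101636396327) (l 103247009271))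 (l 16788560))))) (b (a (a (l 101099526519) (a (l 103783880919) (b (l 101636396407) (l 16788352)))) (a (a (b (l 16788304) (l 16788744)) (l 16788640)) (l 16788472))) (a (a (a (l 103247010055) (b (l 103247009639) (l 16788504))) (l 16788800)) (l 16789280)))) (b (b (a (a (a (b (l 103247009015) (l 16788104)) (l 16787736)) (l 16788224)) (l 16789336)) (l 16789784)) (l 16793152)))) (b (a (a (l 3) (b (a (l 3) (b (a (l 104320752295) (l 101099526407)) (a (l 101099526471) (l 16788568)))) (b (a (l 101636397399) (a (l 94657075367) (l 16788952))) (a (l 104857623175) (l 16788952))))) (a (a (a (l 16788856) (l 16789904)) (l 16792360)) (l 16798344))) (a (a (a (l 3) (b (l 101636398039) (a (l 103247011159) (l 98415172039)))) (a (a (b (l 103247010311) (a (l 16788744) (l 16789112))) (b (a (l 85530269815) (l 16789104)) (l 16789104))) (l 16790008))) (l 16789072))))))))), by decide +kernel⟩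

def k6_pm_102 : ∃ t, chk3 f_pm_102 t 31 64 1 = true :=
  ⟨(a (l 3) (l 6)), by decide +kernel⟩

def k7_pm_102 : ∃ t, chk3 f_pm_102 t 62 65 1 = true :=
  ⟨(a (l 3) (b (l 3) (a (l 3) (b (l 3) (a (l 3) (b (l 3) (a (l 3) (b (a (l 3) (a (l 3) (l 6))) (b (a (a (l 3) (a (l 3) (a (l 3) (b (l 3) (c (l 102173254007) (l 101099511783)))))) (b (a (a (a (l 3) (c (l 102173253975) (l 101099511751))) (a (a (c (l 98415157415) (c (l 95730802647) (l 95730802359))) (l 6)) (l 6))) (l 6)) (a (b (a (a (c (l 101099512151) (l 101636382551)) (b (c (l 93046448231) (l 90362093207)) (a (c (l 86603997175) (l 81772158599)) (l 16781072)))) (a (c (l 16781176) (l 16781032)) (l 16781088))) (a (a (b (c (l 89825222791) (c (l 87677738823) (l 85530254967))) (a (c (l 81772158983) (l 76403449495)) (l 16781248))) (l 16781056)) (l 16781048))) (l 16780744)))) (a (b (a (l 3) (b (a (l 3) (a (c (l 100562641287) (l 100025769863)) (b (a (l 101099511719) (c (l 79087804455) (l 73719094935))) (a (c (l 76403449943) (l 70497869479)) (l 16781272))))) (a (a (l 3)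 (c (l 99488899495) (l 97878286231))) (a (b (a (l 96804544455) (c (l 73719095367) (l 67813514935))) (a (a (l 75866578807) (l 16781320)) (l 16781288))) (l 16781240))))) (b (a (l 3) (a (a (c (l 97341415831) (l 95730802615)) (b (a (c (l 95730802887) (l 90898964295)) (c (l 16781328) (l 16781184))) (c (l 16781320) (l 16781096)))) (l 16781208))) (a (a (l 3) (a (l 3) (b (l 102173253783) (c (l 92509577591) (l 89825222551))))) (a (b (a (a (c (l 90898964711) (l 86067126087)) (l 16781232)) (l 16781296)) (c (l 16781296) (l 16781144))) (l 16781112))))) (a (a (c (c (l 16781264) (l 16781104)) (l 16780880)) (l 16780792)) (l 16780424)))))))))))), by decide +kernel⟩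

def k8_pm_102 : ∃ t, chk3 f_pm_102 t 63 65 1 = true :=
  ⟨(a (a (b (l 6) (b (l 6) (a (b (l 6) (a (a (b (l 6) (l 16781208)) (l 6)) (l 6))) (l 6)))) (l 6)) (l 6)), by decide +kernel⟩

def k9_pm_102 : ∃ t, chk3 f_pm_102 t 124 132 1 = true :=
  ⟨(l 3), by decide +kernel⟩

def k10_pm_102 : ∃ t, chk3 f_pm_102 t 248 133 1 = true :=
  ⟨(l 3), by decide +kernel⟩

def k11_pm_102 : ∃ t, chk3 f_pm_102 t 249 266 1 = true :=
  ⟨(l 3), by decide +kernel⟩

def k12_pm_102 : ∃ t, chk3 f_pm_102 t 498 267 1 = true :=
  ⟨(l 3), by decide +kernel⟩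

def k13_pm_102 : ∃ t, chk3 f_pm_102 t 998 534 1 = true :=
  ⟨(l 3), by decide +kernel⟩

def k14_pm_102 : ∃ t, chk3 f_pm_102 t 1998 534 1 = true :=
  ⟨(a (l 3) (b (l 3) (b (l 3) (a (b (l 3) (a (l 3) (b (l 3) (c (l 100025776807) (c (l 100025776311) (l 100562646775)))))) (a (b (l 3) (c (l 98952035271) (b (c (l 100562647191) (l 101099517655)) (b (c (l 97878292503) (c (l 97878292295) (l 97878292071))) (a (l 16784256) (l 16784288)))))) (b (a (l 3) (b (l 3) (c (l 100562647511) (l 102173259335)))) (b (c (l 100025776759) (c (l 97341421735) (b (l 98952033815) (a (l 96804550055) (l 16784136))))) (l 16784000)))))))), by decide +kernel⟩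

def k15_pm_102 : ∃ t, chk3 f_pm_102 t 1999 534 1 = true :=
  ⟨(a (b (l 3) (b (b (l 3) (a (a (l 3) (b (l 3) (c (l 100562647623) (l 102710130343)))) (b (a (l 3) (c (l 99488905511) (c (l 98952034167) (a (l 101099517319) (a (l 100025775383) (l 98952033559)))))) (c (a (l 98952034711) (l 16784552)) (b (a (l 101636388247) (a (c (l 16784240) (l 96804549895)) (l 16784128))) (a (c (l 97878292295) (c (l 97878292087) (l 97878291863))) (l 16784256))))))) (a (b (b (c (l 100025777015) (a (c (l 100562647143) (l 101636388519)) (a (c (l 100025775975) (l 100562646439)) (b (l 100562646311) (l 16784168))))) (a (c (l 100025776759) (a (c (l 98952034231) (l 99488904695)) (b (l 99488904567) (l 16784192)))) (c (l 16784632) (l 16784296)))) (c (l 16784808) (c (l 16784448) (l 16784048)))) (a (b (b (a (b (c (l 16784592) (c (l 16784256) (l 16784048))) (l 16784400)) (l 16784480)) (l 16784536)) (l 16784424)) (l 16784408))))) (b (a (l 3) (b (l 3) (b (l 3) (c (l 100562647543) (a (b (l 3) (c (l 100025775911) (l 101099517239))) (b (c (l 100025775879)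 (l 101099517223)) (a (c (l 98415162967) (c (l 98415162759) (l 98415162535))) (b (c (l 97878291879) (l 97341420535)) (l 16784032))))))))) (b (b (b (a (c (l 99488905735) (c (l 100025776135) (c (l 99488905047) (a (l 3) (l 100025775463))))) (a (c (l 95730809111) (b (a (l 100562646135) (a (l 97341420567) (l 16784032))) (a (a (l 16784048) (l 16784048)) (l 16784088)))) (l 16783776))) (a (c (l 95193938487) (a (c (l 99488905047) (c (l 99488904791) (l 100025775479))) (b (a (l 100025775255) (l 16784064)) (l 16784096)))) (l 16783760))) (b (a (a (a (b (c (l 98952034311) (l 98952033463)) (l 16784320)) (l 16783992)) (l 16784472)) (l 16784344)) (l 16784360))) (l 16784144)))), by decide +kernel⟩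

def k16_pm_102 : ∃ t, chk3 f_pm_102 t 1996 535 1 = true :=
  ⟨(b (l 3) (a (a (l 3) (b (l 3) (b (l 3) (b (l 3) (c (l 98952036183) (a (l 102710131479) (a (l 101636389463) (a (l 100025776615) (l 98952034791))))))))) (a (b (l 3) (b (a (l 3) (b (l 3) (c (l 100025777671) (a (l 102173260327) (l 100562647479))))) (b (c (l 97341423447) (a (c (l 99488906263) (l 100025776743)) (b (a (l 98952034647) (l 16784688)) (l 16784712)))) (b (a (a (c (l 16785208) (l 97878292855)) (l 16784944)) (l 16785144)) (l 16784528))))) (b (a (l 3) (a (l 3) (b (l 3) (b (l 3) (c (l 100562648391) (l 101636389255)))))) (b (b (c (l 99488907031) (c (l 99488906551) (a (l 100562647559) (b (l 98415163719) (a (l 16784536) (l 16784544)))))) (a (b (c (l 98415164679) (c (l 97878293303) (l 97878292919))) (l 16784896)) (l 16785096))) (l 16785064)))))), by decide +kernel⟩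

def k17_pm_102 : ∃ t, chk3 f_pm_102 t 1997 535 1 = true :=
  ⟨(a (b (l 3) (b (a (a (c (l 101636390711) (b (l 3) (b (l 102173260279) (a (c (l 98952035031) (l 99488905511)) (b (l 98952034455) (l 16784616)))))) (b (b (l 3) (c (l 101099519319) (l 102710131079))) (c (l 88214617639) (b (b (l 100562647287) (a (l 99488905351) (l 16784584))) (l 16784688))))) (b (c (a (l 95730810871) (l 93046455767)) (b (c (l 98952035287) (c (l 98952035015) (a (l 101099518375) (l 98952034583)))) (b (a (l 101099518167) (a (l 16784544) (l 16784544))) (a (c (l 97878293095) (l 97878292679)) (l 16784640))))) (a (b (c (l 16785024) (l 16784608)) (l 16784992)) (l 16784936)))) (a (a (b (l 16784408) (l 16784920)) (l 16784904)) (l 16784744)))) (a (b (b (l 3) (b (l 3) (c (l 98952035767) (a (c (l 99488906087) (c (l 99488905895) (b (l 3) (l 99488905383)))) (b (c (l 100025776727) (l 100562647175)) (a (b (l 99488905143) (l 16784496)) (l 16784496))))))) (b (a (b (b (a (b (c (l 16784984) (l 98415163351)) (l 16784744)) (l 16784744)) (l 16784952)) (l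 16784848)) (l 16784176)) (l 16784520))) (b (b (l 3) (a (b (b (l 3) (b (l 3) (c (l 100025777079) (l 101636388871)))) (b (c (l 98415164535) (b (a (l 100562646919) (l 16784456)) (l 16784464))) (l 16784904))) (b (c (l 100025777495) (a (b (l 3) (b (l 101099517799) (l 97341421399))) (b (l 102173259751) (b (l 97878292247) (l 16784440))))) (l 16784200)))) (l 16784488)))), by decide +kernel⟩

def k18_pm_102 : ∃ t, chk3 f_pm_102 t 999 535 1 = true :=
  ⟨(b (b (a (b (a (b (l 3) (a (l 3) (a (l 3) (c (l 99488905943) (a (l 101636388647) (b (l 101636388487) (l 97878292039))))))) (a (a (c (l 94657068039) (b (c (l 99488905431) (c (l 99488905207) (l 100025775895))) (b (a (l 98952033847) (l 16784296)) (l 16784352)))) (b (b (a (c (l 99488905639) (l 100025775623)) (l 16784160)) (l 16784176)) (l 16784704))) (l 16783952))) (a (c (a (l 101099519303) (b (l 91972713527) (l 16784984))) (b (a (a (l 3) (c (l 101099518455) (l 101636388903))) (b (a (l 101636388663) (a (l 97341421239) (l 16784336))) (a (a (l 100562646711) (l 16784184)) (l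 16784440)))) (b (c (a (l 99488905767) (l 16784568)) (a (a (l 3) (l 100025775943)) (a (l 16784256) (l 16784400)))) (a (a (l 102173259735) (a (l 99488904919) (l 16784376))) (l 16784528))))) (l 16784552))) (l 16783976)) (a (a (a (b (c (a (a (l 92509584487) (l 82309037047)) (l 16785056)) (b (a (b (c (l 98952034615) (l 99488905063)) (a (l 98415163175) (l 16784400))) (l 16784488)) (l 16784584))) (l 16784720)) (l 16784608)) (l 16784272)) (l 16783576))) (l 16784736)), by decide +kernel⟩

def k19_pm_102 : ∃ t, chk3 f_pm_102 t 250 264 1 = true :=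
  ⟨(l 3), by decide +kernel⟩

def k20_pm_102 : ∃ t, chk3 f_pm_102 t 500 265 1 = true :=
  ⟨(l 3), by decide +kernel⟩

def k21_pm_102 : ∃ t, chk3 f_pm_102 t 501 530 1 = true :=
  ⟨(a (l 3) (b (l 3) (b (l 3) (b (l 3) (a (l 3) (a (l 3) (a (l 3) (b (a (l 3) (c (l 98415160295) (a (l 101636384919) (b (l 101636384727) (c (l 90362095991) (l 87677741047)))))) (a (c (l 95730805767) (a (l 102710126855) (b (l 100562642967) (c (l 84993386871) (l 81235290103))))) (b (a (c (l 91972709111) (c (l 87677741415) (l 84456515575))) (l 16782688)) (l 16782680))))))))))), by decide +kernel⟩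

def k22_pm_102 : ∃ t, chk3 f_pm_102 t 1002 531 1 = true :=
  ⟨(b (l 3) (a (l 3) (a (l 3) (b (l 3) (a (b (l 3) (a (c (l 100562645031) (b (l 3) (a (l 101099514935) (b (l 101099514711) (b (l 102173256567) (l 16782880)))))) (b (c (l 100562644887) (b (l 102173256647) (a (l 101636385607) (a (l 97878289159) (l 16782752))))) (b (a (a (c (l 97878289943) (l 102173256551)) (l 16782872)) (l 16783152)) (l 16783168))))) (b (b (b (l 3) (a (l 3) (c (l 99488902775) (c (l 98952031447) (c (l 100562644103) (l 101099514791)))))) (c (a (l 100562644855) (a (l 90362097303) (l 16783248))) (b (a (l 102710127527) (a (c (l 98415160423) (l 101099514695)) (l 16782824))) (a (a (l 102173256487) (a (l 99488901847) (l 100025772823))) (l 16782928))))) (a (b (a (b (c (l 100562644599) (b (l 98952030951) (l 96267676471))) (l 16783088)) (l 16782816)) (l 16783096)) (l 16783048)))))))), by decide +kernel⟩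

def k23_pm_102 : ∃ t, chk3 f_pm_102 t 4012 531 1 = true :=
  ⟨(b (l 3) (a (b (b (l 3) (b (a (l 3) (c (l 100025773703) (l 101636385703))) (c (a (l 100025773719) (a (l 97878289975) (l 81235291591))) (b (a (l 3) (a (l 101099514471) (a (l 102173256327) (l 16782744)))) (a (l 101099514711) (a (a (l 98952030887) (l 16782768)) (l 16782864))))))) (b (a (b (c (a (l 94120193623) (l 76940324311)) (b (a (l 100025772775) (a (l 95193934519) (l 16782792))) (a (c (l 16782880) (l 81235290839)) (l 16782888)))) (l 16783064)) (l 16782680)) (l 16782888))) (b (a (b (b (l 3) (c (l 100562644583) (l 102173256535))) (b (b (c (l 100562644503) (a (l 102173256279) (a (l 98415159815) (l 94657063495)))) (a (c (l 100025773479) (a (l 97878289015) (l 90898967159))) (l 16782992))) (l 16782696))) (b (b (c (l 100562644551) (l 102173256519)) (b (c (l 101099515383) (c (l 101099514967) (l 101636385511))) (a (c (l 100562644343) (c (l 100562643943) (l 98952030839))) (l 16782576)))) (c (l 16782840) (c (l 16782872) (l 16782672))))) (l 16782760)))),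 by decide +kernel⟩

def k24_pm_102 : ∃ t, chk3 f_pm_102 t 4013 531 1 = true :=
  ⟨(a (b (a (l 3) (b (l 3) (b (l 3) (c (l 99488902727) (b (l 3) (b (l 101099514471) (a (l 100562643447) (a (l 97341417927) (l 16782664))))))))) (b (b (a (c (b (l 95193935351) (l 16782848)) (a (b (c (l 101099514951) (l 101636385479)) (c (l 16782904) (l 16782704))) (b (b (l 100025772551) (c (l 16782768) (l 16782608))) (l 16782768)))) (a (b (b (c (l 16783016) (c (l 86067129191) (l 82309032391))) (l 16782960)) (l 16782920)) (l 16782576))) (l 16782824)) (l 16782528))) (b (b (l 3) (b (a (l 3) (b (l 3) (c (l 100562644375) (a (l 102710127079) (a (l 100562643431) (b (l 102710126903) (l 96267675991))))))) (b (a (c (l 100562644407) (a (l 101636385367) (b (l 102173256055) (a (l 102173256087) (l 16782456))))) (b (a (c (l 100562644135) (c (l 97878289175) (l 94657063351))) (l 16782520)) (l 16782576))) (b (a (a (a (b (l 99488901591) (l 16782808)) (l 16782640)) (l 16782928)) (l 16782872)) (l 16782552))))) (l 16783152))), by decide +kernel⟩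

def k25_pm_102 : ∃ t, chk3 f_pm_102 t 2007 531 1 = true :=
  ⟨(b (b (b (a (b (l 3) (a (l 3) (a (l 3) (c (l 100562644103) (l 101636385223))))) (a (b (c (a (l 100562644087) (a (l 101099514887) (l 90362096551))) (a (l 102173256103) (b (l 102710126871) (a (l 102173255847) (l 16782328))))) (a (b (c (l 101099514919) (c (l 100562643607) (l 100025772327))) (a (c (l 100562643879) (c (l 98415159847) (l 95193934023))) (l 16782384))) (a (c (l 16782944) (l 16782408)) (l 16782720)))) (b (b (a (a (c (l 16782784) (c (l 16782536) (l 78014064663))) (l 16782712)) (l 16782648)) (l 16782656)) (l 16782600)))) (b (a (a (l 3) (b (a (l 3) (a (l 102710126935) (c (l 100025772983) (c (l 95730805303) (l 92509579447))))) (a (c (l 100562643991) (l 101636385143)) (a (c (l 96804547543) (c (l 93046450775) (l 89825224919))) (l 16782472))))) (a (c (l 16782576) (c (l 16782616) (l 16782432))) (l 16782512))) (a (a (a (l 3) (a (l 3) (c (l 100025773143) (l 103246997991)))) (a (c (a (l 95193934951) (l 78550936583)) (b (a (l 100562643191) (c (l 89825225287)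 (l 86603999431))) (a (c (l 87140870759) (l 83919644887)) (l 16782632)))) (l 16782448))) (l 16782528)))) (a (b (a (a (b (a (l 104857610759) (c (l 101099515159) (c (l 101099514711) (l 101636385255)))) (c (a (l 87677742263) (l 16783072)) (b (a (l 101099514263) (l 16782624)) (l 16782688)))) (b (c (a (l 91435838599) (l 74255969255)) (b (a (l 102710126967) (c (l 83919645303) (l 80698419447))) (a (a (l 16782560) (l 16782656)) (l 16782648)))) (l 16782816))) (l 16782304)) (l 16782648)) (l 16782280))) (l 16783192)), by decide +kernel⟩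

def k26_pm_102 : ∃ t, chk3 f_pm_102 t 500 532 1 = true :=
  ⟨(a (l 3) (b (l 3) (a (l 3) (a (b (l 3) (b (l 3) (c (a (l 99488904551) (a (l 100025775143) (b (l 100562645831) (l 75329712727)))) (b (a (l 3) (a (l 3) (a (l 101636386631) (b (l 101636386487) (a (l 97341419143) (l 16783288)))))) (a (a (l 3) (l 102173257799)) (b (a (c (l 100025774279) (l 100025773911)) (a (a (l 96267677351) (l 16783304)) (l 16783448))) (a (a (l 100025773799) (a (c (l 16783416) (l 16783224)) (l 16783328))) (l 16783448)))))))) (b (a (l 3) (b (l 3) (c (b (l 100025774855) (a (l 100025774663) (a (l 100562645495) (l 84456518007)))) (b (a (l 3) (a (l 3) (l 101636386407))) (a (c (l 100025774215) (c (l 100025773991) (l 99488902951))) (b (a (l 100562644471) (a (l 96804548023) (l 16783192))) (a (a (c (l 16783304) (l 95193935415)) (l 16783216)) (l 16783344)))))))) (b (b (a (c (l 100562645975) (a (l 3) (b (l 102710128391) (c (l 98952032327) (l 99488902871))))) (a (a (c (l 96267678231) (b (l 99488902679) (l 16783240))) (b (a (b (l 16783088) (l 16783416))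 (l 16783416)) (l 16783576))) (l 16783528))) (a (a (c (l 100562645799) (b (l 102173257511) (b (l 100562644695) (a (l 101099515495) (a (l 16783264) (l 16783264)))))) (b (a (c (l 98415161703) (c (l 97878290391) (l 97878290071))) (l 16783120)) (l 16783256))) (l 16783504))) (a (b (b (a (c (l 90362098247) (a (a (l 97878290039) (l 16783272)) (l 16783336))) (l 16783584)) (l 16783264)) (l 16783544)) (l 16783384)))))))), by decide +kernel⟩

def k27_pm_102 : ∃ t, chk3 f_pm_102 t 1000 1066 1 = true :=
  ⟨(l 3), by decide +kernel⟩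

def k28_pm_102 : ∃ t, chk3 f_pm_102 t 1000 1067 1 = true :=
  ⟨(b (a (l 3) (a (l 3) (a (b (l 3) (c (b (l 99488904871) (a (l 99488904695) (l 88214615479))) (b (a (l 3) (a (l 103247000071) (b (l 103246999959) (l 100025774439)))) (a (a (l 102710129191) (c (l 99488904071) (l 99488903687))) (b (a (l 99488903543) (l 16783648)) (l 16783712)))))) (b (c (a (l 100025775735) (c (l 97341421479) (l 96267679303))) (a (a (l 3) (b (l 3) (a (l 102710129047) (l 101636387159)))) (b (c (l 100025775031) (l 101099516391)) (b (a (l 101099516215) (c (l 97341420199) (l 96804548919))) (b (a (l 97878290615) (l 16783616)) (l 16783632)))))) (a (b (c (l 91435840935) (a (b (l 100562645335) (a (l 16783640) (l 16783640))) (b (a (l 96804548855) (l 16783624)) (l 16783760)))) (l 16784000)) (l 16783296)))))) (a (a (l 3) (a (l 3) (a (l 3) (b (l 3) (a (l 3) (b (l 3) (c (l 100562646647) (l 102710129415)))))))) (b (a (a (a (l 3) (b (l 3) (c (l 101099517655) (l 102710129511)))) (a (c (l 100025776103) (b (l 3) (c (l 100025775383) (a (l 100562645623)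 (a (l 98952032823) (b (l 100025774503) (l 16783624))))))) (c (b (l 99488904711) (l 81772164567)) (a (b (l 102173258295) (b (a (l 97878290823) (l 16783712)) (l 16783776))) (b (b (l 102173258199) (a (l 98952032631) (l 16783696))) (l 16783880)))))) (b (a (a (b (a (c (l 98415162615) (c (l 97878291271) (l 97878290855))) (l 16783880)) (l 16783624)) (l 16784024)) (l 16783888)) (l 16783904))) (a (a (a (c (l 100025776151) (b (l 102710129527) (b (c (l 99488904279) (l 99488903895)) (a (c (l 97878291431) (l 97878291047)) (l 16783784))))) (c (b (l 100562646775) (l 16784240)) (b (a (c (l 99488904263) (l 100025774759)) (b (l 100025774647) (l 16783752))) (c (l 16784048) (l 16783824))))) (a (b (b (b (a (c (l 16784160) (l 16783736)) (l 16783944)) (l 16783960)) (l 16784128)) (l 16784080)) (l 16784032))) (l 16783776))))), by decide +kernel⟩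

def k29_pm_102 : ∃ t, chk3 f_pm_102 t 2002 533 1 = true :=
  ⟨(b (b (b (b (l 3) (b (l 3) (a (l 3) (a (l 3) (a (l 3) (c (l 101099516679) (l 101636386839))))))) (a (l 3) (a (b (l 3) (a (l 3) (c (l 99488904215) (c (l 99488903751) (a (l 101636386935) (l 100025774151)))))) (a (c (b (l 100025775063) (l 88751485943)) (b (c (l 100025774631) (l 100562645127)) (a (b (l 100025774007) (a (l 16783272) (l 16783448))) (b (b (l 96267677575) (l 16783432)) (l 16783584))))) (b (c (l 91972711383) (a (b (l 101099515799) (a (l 96804548471) (l 16783408))) (a (b (l 97878290263) (l 16783440)) (l 16783264)))) (l 16783096)))))) (a (a (b (l 3) (c (l 101099517479) (b (a (l 3) (l 102710129095)) (a (l 102710129111) (b (c (l 99488903831) (l 100025774343)) (a (l 99488903335) (l 16783552))))))) (a (b (l 3) (c (b (l 100562646295) (l 16783984)) (a (b (c (l 100025774711) (l 100562645207)) (b (a (l 16783536) (l 16783544)) (l 16783704))) (b (b (l 100562645111) (a (l 96267677783) (l 16783520))) (l 16783680))))) (b (c (l 100562646503) (b (l 3) (a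 (l 101636387047) (b (l 101636386903) (a (l 98415161335) (l 16783488)))))) (b (b (b (a (c (l 16783920) (l 97878290439)) (l 16783704)) (l 16783392)) (l 16783880)) (l 16783832))))) (b (a (b (c (a (l 99488904247) (l 85530260487)) (b (a (l 102173257927) (a (c (l 98415161719) (l 98415161303)) (l 16783456))) (a (c (l 98952032775) (c (l 98415161671) (l 98952032391))) (l 16783568)))) (a (b (a (c (l 97878291271) (c (l 97341419927) (l 97341419607))) (l 16783680)) (l 16783160)) (l 16783792))) (l 16783040)) (l 16783632)))) (a (a (b (b (c (b (a (l 97878291799) (l 16784096)) (l 16784136)) (b (a (b (c (l 98952032983) (c (l 98952032759) (l 98952032583))) (a (c (l 97878291063) (l 97878290679)) (l 16783592))) (c (l 16783824) (l 16783608))) (l 16783376))) (l 16783808)) (l 16783528)) (l 16783496)) (l 16783136))), by decide +kernel⟩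

def k30_pm_102 : ∃ t, chk3 f_pm_102 t 2003 533 1 = true :=
  ⟨(b (a (b (a (b (b (c (l 99488904263) (a (c (l 100562645495) (l 101099515991)) (b (c (l 99488903447) (l 99488903079)) (a (c (l 98415161511) (l 98415161143)) (l 16783360))))) (c (a (l 95193936807) (l 16783928)) (a (b (a (l 102173257591) (c (l 97878290615) (l 97341419383))) (a (b (l 98952032023) (l 16783376)) (l 16783408))) (l 16783168)))) (c (l 16783872) (c (l 16783552) (l 16783336)))) (a (b (b (a (b (c (l 16783728) (l 16783336)) (l 16783696)) (l 16783672)) (l 16783632)) (l 16783512)) (l 16783488))) (l 16783280)) (l 16783008)) (l 16782384)), by decide +kernel⟩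

def k31_pm_102 : ∃ t, chk3 f_pm_102 t 2004 1064 1 = true :=
  ⟨(a (a (l 3) (a (l 3) (b (l 3) (b (l 3) (c (l 100025774663) (b (l 3) (b (l 101636386199) (a (l 100562644263) (a (a (l 96267676919) (l 16783088)) (l 16783096)))))))))) (b (a (l 3) (a (l 3) (b (l 3) (b (l 3) (c (l 100025774199) (c (l 100025773751) (l 100562644311))))))) (a (a (b (l 3) (b (c (l 100562645351) (b (l 102173257095) (a (l 101099515143) (a (l 97878289607) (l 16783064))))) (b (a (a (c (l 16783472) (l 96804547879)) (l 16782936)) (l 16783344)) (l 16783408)))) (b (c (l 100562645527) (b (l 3) (a (l 102173257063) (a (l 101099515159) (b (l 102173256855) (a (l 96804547719) (l 16783032))))))) (b (a (c (l 87677743223) (b (a (l 98415160503) (a (l 95193935015) (l 16783048))) (l 16783168))) (l 16783056)) (l 16783344)))) (b (a (c (b (l 99488903303) (a (l 91972710487) (l 16783456))) (a (b (l 102710127959) (b (c (l 98415160855) (l 97878289671)) (l 16783072))) (b (b (l 103246998711) (l 98952031415)) (l 16782912)))) (b (c (a (l 95730806839) (l 16783392))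 (b (a (l 99488902311) (a (a (l 95193934887) (l 16782992)) (l 16783008))) (a (a (l 16783008) (l 16783040)) (l 16783128)))) (l 16783304))) (l 16783240))))), by decide +kernel⟩

def k32_pm_102 : ∃ t, chk3 f_pm_102 t 2005 1064 1 = true :=
  ⟨(b (b (a (c (a (l 100025774519) (b (a (l 100562644983) (l 96804548567)) (a (l 93583323127) (l 16783424)))) (b (a (l 3) (a (l 102173256967) (b (c (l 99488902567) (l 100025773095)) (a (l 98952031223) (c (l 16782992) (l 16782816)))))) (a (a (l 3) (l 102173256983)) (a (a (b (l 102710127607) (c (l 100562644407) (l 101099514935))) (b (c (l 98415160647) (l 101099514919)) (l 16782960))) (a (a (l 16782688) (l 16783032)) (l 16783000)))))) (a (b (b (a (a (a (a (b (l 98415160279) (l 16783064)) (l 16782896)) (l 16783072)) (l 16783192)) (l 16783136)) (l 16783144)) (l 16783088)) (l 16782928))) (a (b (a (c (a (l 100025774167) (c (l 90898968999) (l 89825226743))) (a (c (l 100025773735) (l 100562644247)) (b (a (l 102173256727) (a (l 98952031175) (a (l 95193934775) (l 16782936)))) (a (a (l 97878289383)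 (l 16782952)) (l 16783072))))) (c (l 16783408) (c (l 16783104) (l 16782904)))) (a (a (b (c (l 100562644983) (a (l 101099514935) (a (l 96804547655) (l 16782968)))) (a (a (b (l 98415160407) (l 16783168)) (l 16783168)) (l 16783304))) (l 16782936)) (l 16783128))) (l 16782848))) (a (a (c (l 16783328) (l 16782584)) (l 16782896)) (l 16782536))), by decide +kernel⟩

def k33_pm_102 : ∃ t, chk3 f_pm_102 t 1002 1065 1 = true :=
  ⟨(a (b (b (a (a (c (a (l 100025774823) (b (l 100562645463) (l 94657065415))) (a (a (l 3) (b (l 3) (l 102173257287))) (b (l 102173257415) (b (a (l 102173257143) (c (l 97878290199) (l 97878289847))) (a (a (l 98952031607) (a (l 96267677031) (l 16783144))) (l 16783184)))))) (b (c (a (l 97878290855) (l 71034744983)) (b (a (c (l 99488902983) (l 100025773543)) (a (a (a (l 16782936) (l 16783104)) (l 16783120)) (l 16783232))) (a (a (l 98952031639) (l 16783128)) (l 16783224)))) (a (c (l 16783672) (c (l 16783360) (l 16782992))) (l 16783384)))) (l 16783176)) (a (a (c (b (a (l 91435839991) (l 16783696))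 (l 16783680)) (b (a (b (b (l 100562644487) (a (l 101099515287) (l 16783160))) (a (a (l 97341418919) (l 16783176)) (l 16783272))) (l 16783280)) (l 16783256))) (l 16783312)) (l 16782984))) (l 16782912)) (l 16782136)), by decide +kernel⟩

def k34_pm_102 : ∃ t, chk3 f_pm_102 t 1003 532 1 = true :=
  ⟨(a (l 16782880) (l 16785776)), by decide +kernel⟩

def k35_pm_102 : ∃ t, chk3 f_pm_102 t 501 533 1 = true :=
  ⟨(a (c (l 16784520) (l 16783056)) (l 16780368)), by decide +kernel⟩

def k36_pm_102 : ∃ t, chk3 f_pm_102 t 500 267 1 = true :=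
  ⟨(a (b (b (b (b (a (a (l 3) (b (a (l 3) (c (l 98415163415) (a (c (l 100025775447) (c (l 100025775239) (l 100562645927))) (b (c (l 98415162535) (c (l 98415162327) (l 98415162119))) (a (c (l 96804549687) (l 96804549319)) (l 16783832)))))) (a (a (l 3) (c (l 100025775927) (a (l 103247000487) (b (l 103247000343) (l 100025774823))))) (a (c (l 94120195943) (b (a (l 100562645719) (a (l 97341420151) (l 16783824))) (b (a (l 16783840) (l 16783856)) (l 16783872)))) (l 16783552))))) (a (a (a (b (l 16783688) (l 16784120)) (l 16784064)) (l 16783912)) (l 16783576))) (a (a (a (l 3) (a (l 3) (b (l 3) (c (l 99488905111) (a (l 102173258727) (b (l 102173258615) (a (l 98952033047) (l 16783904)))))))) (a (b (c (c (l 94657067447) (l 92509583511)) (a (a (l 102710129607) (b (l 102710129495) (l 98952033079))) (b (a (l 99488903959) (l 16783856)) (l 16783896)))) (a (a (b (c (l 98415163015) (c (l 98415162551) (l 97878291223))) (l 16784104)) (l 16783792)) (l 16784248))) (l 16783496))) (l 16783608))) (a (b (a (a (c (l 101099518391) (a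 (a (l 3) (b (l 3) (l 102710129799))) (b (l 102710129927) (a (c (l 99488904679) (l 100025775143)) (b (l 100025775031) (l 16783960)))))) (b (a (c (l 98952034279) (c (l 100562646711) (b (l 101099516919) (a (l 100025774999) (l 96267678679))))) (a (b (c (l 16784352) (c (l 97341420775) (l 96804549527))) (l 16784144)) (l 16784192))) (b (a (a (a (c (l 16784384) (l 16783944)) (l 16784152)) (l 16784168)) (l 16784304)) (l 16784312)))) (l 16783440)) (a (a (c (a (b (l 100025776327) (l 16784512)) (l 16784592)) (b (a (a (c (l 98952033815) (l 99488904311)) (b (l 99488904151) (l 16783992))) (c (l 16784192) (l 16784048))) (l 16783816))) (l 16784232)) (l 16783912))) (l 16783296))) (a (l 16784296) (l 16783400))) (l 16786880)) (b (l 16783912) (l 16789776))), by decide +kernel⟩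

def k37_pm_102 : ∃ t, chk3 f_pm_102 t 501 267 1 = true :=
  ⟨(b (a (l 16785248) (l 16785000)) (l 16779816)), by decide +kernel⟩

def k38_pm_102 : ∃ t, chk3 f_pm_102 t 1004 264 1 = true :=
  ⟨(b (l 3) (b (l 3) (a (l 3) (a (l 3) (b (l 3) (a (l 3) (a (l 3) (b (l 3) (b (l 3) (l 104320738887)))))))))), by decide +kernel⟩

def k39_pm_102 : ∃ t, chk3 f_pm_102 t 2010 264 1 = true :=
  ⟨(b (l 3) (b (l 3) (b (a (l 3) (a (b (l 3) (b (a (l 3) (c (l 100562642871) (l 101099513095))) (b (a (l 103246996839) (a (c (l 100562642615) (l 95730803799)) (c (l 16782232) (l 16781960)))) (a (c (l 99488900967) (l 96804545735)) (c (l 16782296) (l 16781952)))))) (a (b (c (l 101636384759) (c (l 100562642631) (l 100562642359))) (b (b (a (l 102173254983) (c (l 80698418711) (l 74792838087))) (c (l 65666033223) (c (l 61371065575) (l 58686710583)))) (l 16782056))) (b (b (c (l 101099513735) (l 102710125783)) (b (a (l 103246996727) (c (l 86067127847) (l 80698418103))) (a (c (l 83382773319) (l 78014063607)) (l 16782064)))) (l 16782000))))) (b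 (a (a (l 3) (b (a (l 3) (b (l 102710125959) (a (l 102173254999) (c (l 93046449911) (l 87677740167))))) (b (a (c (l 100025771943) (l 103246996791)) (a (c (l 90362095367) (l 84993385607)) (l 16782176))) (a (a (l 103246996935) (c (l 87677740839) (l 81772160167))) (l 16782168))))) (a (a (b (b (a (c (l 95730804439) (l 90362094695)) (l 16781992)) (l 16781984)) (l 16782096)) (l 16782032)) (l 16781872))) (a (b (a (a (l 3) (a (c (l 101099513895) (l 102710125927)) (b (l 103246996951) (c (l 82309031735) (l 75866580135))))) (b (a (a (c (l 84993386311) (l 79087805575)) (l 16782192)) (l 16782128)) (l 16782136))) (a (b (a (c (l 101099513927) (l 101099513223)) (a (c (l 16782320) (l 72645354727)) (l 16782216))) (a (a (c (l 101099513783) (l 96804545847)) (c (l 16782344) (l 16782088))) (l 16782200))) (l 16782080))) (l 16781792)))))), by decide +kernel⟩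

def k40_pm_102 : ∃ t, chk3 f_pm_102 t 2011 264 1 = true :=
  ⟨(b (l 3) (a (b (b (l 3) (b (a (l 3) (a (l 3) (b (l 3) (b (l 103246996599) (a (l 101099512903) (c (l 79087805735) (l 73182225127))))))) (a (a (c (l 101636384711) (l 102173255063)) (b (c (l 100562642647) (l 102173254711)) (b (c (l 98415158903) (l 95730803719)) (a (c (l 94120191463) (l 89288352663)) (l 16781864))))) (a (b (b (c (l 100562642519) (l 98952029159)) (a (c (l 98952029623) (l 94120190887)) (c (l 16782120) (l 16781832)))) (c (l 16781992) (c (l 16781896) (l 16781728)))) (a (b (c (l 62981678423) (c (l 58686710695) (l 56002355799))) (l 16781912)) (l 16781904)))))) (b (a (b (a (b (b (a (l 101636383847) (b (l 101099513015) (l 83382772807))) (a (c (l 88751482391) (l 83382772663)) (l 16782048))) (l 16781688)) (c (l 16781808) (l 16781624))) (l 16781840)) (l 16781712)) (l 16781416))) (b (a (b (b (l 3) (a (l 3) (b (l 3) (a (l 103246996551) (b (l 101636383655) (a (l 97341416391) (l 81772159863))))))) (b (a (a (b (l 103246996583) (b (c (l 81772160295)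 (l 75866579735)) (l 16781944))) (b (b (l 102710125591) (c (l 84456514871) (l 79087805143))) (l 16781920))) (a (b (b (c (l 87140869399) (l 81772159703)) (l 16781928)) (l 16781880)) (l 16781624))) (l 16781776))) (b (a (b (l 3) (b (a (l 103783867431) (c (l 97341416823) (l 94657061655))) (b (a (c (l 92509578471) (l 87140868807)) (l 16781736)) (l 16781728)))) (b (b (l 3) (c (l 100562642375) (l 99488899895))) (b (a (b (c (l 97341416647) (l 92509577911)) (l 16781720)) (c (l 16781872) (l 16781576))) (l 16781816)))) (l 16781648))) (l 16781136)))), by decide +kernel⟩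

def k41_pm_102 : ∃ t, chk3 f_pm_102 t 1004 1060 1 = true :=
  ⟨(b (a (l 3) (b (a (l 3) (b (a (l 3) (b (a (l 3) (a (l 102710126119) (c (l 98952030151) (l 94120191303)))) (a (l 103246997031) (a (c (l 96804546519) (l 91435836727)) (l 16781952))))) (a (a (l 3) (c (l 101099514231) (l 102710126263))) (a (b (a (l 101636384327) (c (l 94120191975) (l 88751482183))) (a (c (l 91435837447) (l 85530256711)) (l 16782304))) (c (l 16782440) (l 16782080)))))) (b (a (l 3) (a (a (c (l 100562643351) (l 102710126295)) (b (a (l 103783868055) (c (l 88751482903) (l 82845902183))) (a (c (l 86067128375) (l 80161547639)) (l 16782320)))) (l 16781904))) (a (a (l 3) (a (l 3) (c (l 100562643383) (l 102173255399)))) (a (a (b (a (l 103246997175) (c (l 82845902855) (l 76940322135))) (a (c (l 16782440) (l 73719096679)) (l 16782344))) (l 16782296)) (l 16782144)))))) (b (a (l 3) (a (b (a (l 3) (b (a (l 103783868119) (a (c (l 101099514023) (l 97341416951)) (c (l 16782464) (l 16782208)))) (a (c (l 100562643287) (c (l 97878288343) (l 96804546167)))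 (c (l 16782560) (l 16782200))))) (a (a (l 3) (b (l 103783868151) (a (l 102173255399) (c (l 94657063143) (l 89288353303))))) (a (b (a (c (l 97341417687) (l 91972707879)) (l 16782080)) (l 16782072)) (l 16782336)))) (c (l 16782304) (l 16781936)))) (a (b (l 3) (a (l 3) (a (l 3) (a (l 3) (c (a (l 101099514407) (l 90362096039)) (b (l 103246997303) (a (l 102710126279) (l 76940322375)))))))) (a (a (a (b (c (l 95730805255) (b (l 103246997271) (a (l 103246997159) (c (l 84993386407) (l 81772160535))))) (b (a (c (l 86603999543) (c (l 82309031831) (l 78550935063))) (l 16782456)) (l 16782440))) (a (b (b (c (l 91972708615) (c (l 87677740919) (l 84993386007))) (l 16782440)) (l 16782392)) (l 16782056))) (l 16782264)) (l 16781920))))), by decide +kernel⟩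

def k42_pm_102 : ∃ t, chk3 f_pm_102 t 1004 1061 1 = true :=
  ⟨(b (a (b (a (l 3) (a (a (b (l 3) (c (l 100025772759) (l 103246997623))) (b (c (l 100562643607) (l 102173255623)) (b (a (l 103246997399) (c (l 100025772471) (l 94657062647))) (a (c (l 97341417943) (l 91972708119)) (l 16782216))))) (b (b (a (c (l 101099514407) (l 101636384599)) (a (c (l 16782568) (l 16782120)) (l 16782472))) (a (c (l 86067128807) (a (l 97341417191) (l 16782336))) (l 16782464))) (a (c (l 16782680) (l 16782152)) (l 16782408))))) (a (a (l 3) (a (b (l 3) (c (l 101099514759) (c (l 100562643463) (l 101636384919)))) (c (b (l 100025772791) (a (l 91972709015) (l 74255968807))) (b (l 102710126743) (b (a (l 103246997399) (c (l 84993386647) (l 81772160775))) (a (c (l 82309032087) (l 78550935351)) (l 16782400))))))) (a (b (a (b (a (l 102710126487) (c (l 94657063399) (c (l 90898966663) (l 87677740807)))) (a (c (l 91972708871) (c (l 87677741175) (l 84993386263))) (l 16782560))) (l 16782192)) (l 16782160)) (l 16782328)))) (l 16782664)) (a (a (b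 (b (a (a (l 3) (c (l 100562643879) (c (l 100562643495) (l 100562643127)))) (a (c (a (l 88214612663) (l 69961001495)) (b (a (l 102710126519) (l 76940322631)) (c (l 16782528) (l 16782176)))) (l 16782552))) (a (a (b (l 103783868567) (a (l 103246997607) (c (l 100025772727) (a (l 98415159207) (l 90898966439))))) (b (a (c (l 100562643623) (l 97341417431)) (l 16782336)) (c (l 16782832) (l 16782456)))) (l 16782528))) (a (a (b (b (a (c (l 97341418199) (c (l 93583321431) (l 90362095575))) (l 16782344)) (l 16782336)) (l 16782616)) (l 16782552)) (l 16782400))) (l 16782152)) (l 16781416))), by decide +kernel⟩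

def k43_pm_102 : ∃ t, chk3 f_pm_102 t 1004 531 1 = true :=
  ⟨(a (b (l 16783072) (l 16780872)) (l 16782920)), by decide +kernel⟩

def k44_pm_102 : ∃ t, chk3 f_pm_102 t 1005 265 1 = true :=
  ⟨(b (b (a (a (a (a (b (b (b (c (l 16782088) (c (l 16782152) (l 16781976))) (l 16782168)) (l 16782032)) (l 16781720)) (l 16782464)) (l 16781632)) (l 16781256)) (l 16783128)) (l 16782736)) (l 16780720)), by decide +kernel⟩

def k45_pm_102 : ∃ t, chk3 f_pm_102 t 1006 1056 1 = true :=
  ⟨(a (l 3) (a (b (l 3) (b (l 3) (a (l 3) (a (c (l 101636383703) (l 101099512247)) (b (c (l 100562641815) (l 101099512183)) (b (a (l 98952028583) (c (l 76403450423) (l 70497869975))) (a (a (l 78550933863) (l 16781584)) (l 16781560)))))))) (a (b (l 3) (a (b (c (l 102173254567) (l 102710124935)) (b (b (a (l 101636383111) (c (l 81772159527) (l 76403449943))) (a (c (l 79087804967) (l 73182224487)) (l 16781536))) (l 16781512))) (b (b (c (l 101099512679) (l 101636383047)) (b (c (l 91972706967) (c (l 89288352071) (l 88214609943))) (a (c (l 84456514055)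 (l 79087804487)) (l 16781520)))) (l 16781248)))) (b (b (l 3) (b (l 3) (a (l 102710124951) (a (c (l 96804545111) (l 94120190071)) (b (l 93583319239) (c (l 16781640) (l 16781328))))))) (b (b (a (b (c (l 95193932407) (l 91972706439)) (a (c (l 89288352215) (l 84456513575)) (l 16781336))) (c (l 16781448) (l 16781216))) (c (l 16781424) (l 16781264))) (l 16781288)))))), by decide +kernel⟩

def k46_pm_102 : ∃ t, chk3 f_pm_102 t 1006 1057 1 = true :=
  ⟨(a (a (b (l 3) (a (a (l 3) (b (l 3) (c (l 101636384199) (l 102710125447)))) (a (b (l 3) (b (c (l 101099513207) (l 102710125287)) (b (a (l 102710125383) (a (l 95193932535) (l 79087805079))) (a (c (l 84993385511) (l 79624675863)) (l 16781792))))) (b (c (l 102173255063) (l 103246996311)) (b (b (c (l 95730803847) (c (l 93046448919) (l 91972706791))) (a (c (l 90362094583) (l 84993384967)) (l 16781608))) (l 16781496)))))) (a (b (l 3) (a (b (b (l 3) (a (c (l 97341416535) (l 94657061399)) (b (c (l 97341416423) (l 93046448615)) (c (l 16781920) (l 16781592))))) (b (c (l 16781568)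 (l 16781560)) (l 16781648))) (b (b (b (c (l 101099512903) (l 100025770487)) (a (l 97341416071) (c (l 16781720) (l 67813515623)))) (a (c (l 58149839655) (l 52781129991)) (l 16781688))) (l 16781584)))) (a (b (b (l 3) (b (l 3) (b (l 102710125207) (a (l 102173254279) (c (l 79624676151) (l 73719095639)))))) (a (b (b (a (b (l 82309030455) (l 16781704)) (l 16781536)) (l 16781640)) (l 16781504)) (l 16781376))) (b (b (l 3) (b (b (l 102710125191) (a (l 102173254247) (c (l 84993385239) (l 79624675655)))) (b (a (c (l 82309030711) (l 76940321063)) (l 16781664)) (l 16781656)))) (l 16781456))))) (a (b (a (b (b (a (l 3) (c (l 97878287319) (c (l 96267674263) (l 95730803031)))) (b (a (l 103246996071) (a (c (l 92509577943) (l 87677739287)) (l 16781464))) (a (c (l 94120190855) (c (l 91435835943) (l 90362093815))) (l 16781432)))) (a (b (b (a (c (l 87677739767) (l 82309030183)) (l 16781648)) (l 16781632)) (l 16781576)) (l 16781520))) (a (b (b (b (a (l 94657061303) (c (l 16781600) (l 16781368))) (c (l 16781592) (l 16781352))) (l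 16781544)) (l 16781408)) (l 16781392))) (l 16781160)) (l 16781544))), by decide +kernel⟩

def k47_pm_102 : ∃ t, chk3 f_pm_102 t 1007 528 1 = true :=
  ⟨(a (b (b (b (a (a (a (l 3) (b (l 3) (b (l 101636382919) (a (l 100562641063) (c (l 78014062919) (l 72645353335)))))) (b (b (a (l 102173253799) (a (c (l 86067126503) (l 80698416983)) (l 16781376))) (a (a (l 101636382871) (a (l 90362093623) (l 73719095271))) (l 16781368))) (b (a (a (c (l 80698417447) (l 75329707895)) (l 16781392)) (l 16781328)) (l 16781336)))) (l 16781080)) (a (a (a (a (b (c (l 100025770567) (l 97341415511)) (c (l 56539226391) (l 51170516855))) (b (b (l 98415157431) (c (l 72108482871) (l 66202902439))) (l 16781416))) (a (b (b (c (l 75329708343) (l 69424127895)) (l 16781424)) (l 16781368)) (l 16781360))) (l 16781224)) (l 16780872))) (c (l 16782264) (l 16781296))) (l 16782760)) (a (l 16781136) (l 16780632))), by decide +kernel⟩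

def k48_pm_102 : ∃ t, chk3 f_pm_102 t 503 529 1 = true :=
  ⟨(a (a (b (a (b (b (b (a (a (c (l 100025771479) (l 102173254423)) (b (a (l 102173254503) (c (l 82309030983) (l 76940321287))) (a (c (l 79624676375) (l 73719095831)) (l 16781808)))) (l 16781552)) (a (a (b (a (l 99488899975) (c (l 76940321863) (l 70497870391))) (c (l 61907936327) (c (l 57612968695) (l 54928613799)))) (l 16781784)) (l 16781624))) (l 16781920)) (l 16781288)) (l 16782320)) (l 16783000)) (l 16781128)) (a (l 16781416) (l 16780400))), by decide +kernel⟩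

def k49_pm_102 : ∃ t, chk3 f_pm_102 t 503 265 1 = true :=
  ⟨(a (b (l 16780816) (l 16779312)) (b (l 16778440) (a (l 16780400) (l 16779376)))), by decide +kernel⟩

def k50_pm_102 : ∃ t, chk3 f_pm_102 t 251 133 1 = true :=
  ⟨(a (a (b (b (l 16781608) (l 16783080)) (a (l 16781416) (l 16779856))) (b (b (l 16782152) (l 16780288)) (a (l 16777712) (l 16780192)))) (b (a (b (l 16780088) (l 16783456)) (b (b (l 16783736) (l 16782808)) (l 16781880))) (a (a (l 16776744) (l 16777824)) (a (l 16776312) (l 16776408))))), by decide +kernel⟩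

def k51_pm_102 : ∃ t, chk3 f_pm_102 t 248 268 1 = true :=
  ⟨(a (l 3) (b (l 3) (a (l 3) (a (l 3) (a (l 3) (b (l 3) (b (l 3) (b (a (l 3) (a (l 3) (l 104320746359))) (c (l 96804555447) (a (l 101636392087) (a (l 100562649815) (b (l 100562649527) (l 16785704))))))))))))), by decide +kernel⟩

def k52_pm_102 : ∃ t, chk3 f_pm_102 t 496 269 1 = true :=
  ⟨(b (l 3) (a (l 3) (b (l 3) (b (a (l 3) (a (l 3) (a (b (l 3) (l 102173264631)) (b (l 102710135431) (b (a (l 102173264055) (l 16786512)) (l 16786832)))))) (a (c (l 99488912855) (a (l 3) (l 102173265655))) (b (b (a (l 102710135959) (a (a (l 101099522279) (l 16786880)) (l 16787192))) (a (a (l 3) (l 101636393495)) (l 16786560))) (a (c (l 92509589335) (b (a (l 101636393671) (l 96267684503)) (a (l 98952039031) (l 16786792)))) (l 16787120)))))))), by decide +kernel⟩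

def k53_pm_102 : ∃ t, chk3 f_pm_102 t 497 538 1 = true :=
  ⟨(a (b (l 3) (a (l 3) (a (a (l 3) (b (l 3) (b (l 3) (a (l 103783876503) (l 102710134503))))) (b (a (l 3) (a (l 3) (b (l 3) (l 103247005335)))) (a (c (l 97878297559) (b (l 101099521959) (a (b (l 101099521495) (l 16786208)) (b (l 97878296007) (l 16786256))))) (b (c (l 98415168375) (a (l 99488908919) (b (l 99488908519) (l 16786144)))) (l 16786712))))))) (b (b (a (l 3) (b (c (a (l 99488909927) (a (l 96804554775) (l 16786536))) (a (c (l 98952038599) (a (l 3) (l 100562650279))) (a (a (b (l 101636391623) (l 98415166135)) (b (l 99488907847) (l 16785776))) (l 16785992)))) (b (a (a (l 3) (a (l 103247004359) (a (l 100025778727) (l 16786056)))) (l 16785600)) (a (c (l 95193942135) (a (l 101099521063) (a (a (l 98415166039) (l 16785824)) (l 16785904)))) (l 16786184))))) (b (a (a (l 3) (a (l 3) (a (l 103783875863) (c (l 99488909447) (l 100562650183))))) (a (a (c (l 89288362151) (b (a (l 100562649895) (l 16785864)) (l 16785920))) (l 16786344)) (l 16786064))) (a (a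 (l 3) (b (a (l 103247004983) (a (a (l 101636391783) (l 99488908055)) (l 16786168))) (a (a (l 103247004727) (a (l 101099520903) (l 16786224))) (l 16786264)))) (l 16786096)))) (a (a (b (a (c (l 101099522935) (b (l 101636392775) (a (l 100562650551) (b (l 100025779367) (l 16786072))))) (a (c (l 93046458983) (b (l 101099521415) (l 16786072))) (b (b (l 102710133831) (a (l 99488908247) (l 16786272))) (l 16786592)))) (a (b (l 16786016) (l 16786544)) (l 16786424))) (a (b (b (a (a (b (l 100025779111) (l 16786264)) (l 16786248)) (l 16786432)) (l 16786464)) (l 16786216)) (l 16786184))) (l 16786840)))), by decide +kernel⟩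

def k54_pm_102 : ∃ t, chk3 f_pm_102 t 497 539 1 = true :=
  ⟨(a (b (b (a (b (l 3) (c (l 101636394919) (a (l 3) (a (l 3) (a (l 101636392951) (l 99488909255)))))) (a (b (c (l 92509588999) (a (l 100562651207) (a (b (l 100025779735) (l 16786264)) (l 16786256)))) (a (b (a (l 100562650679) (l 16786552)) (l 16786624)) (l 16786800))) (l 16785288))) (a (a (a (b (l 3) (l 102710135383)) (b (l 103247006263) (a (l 101636393191) (b (l 101636392823) (l 16786712))))) (b (b (a (l 102173263959) (a (a (l 16786008) (l 16786632)) (l 16786616))) (a (a (l 102173263703) (l 16786664)) (l 16786824))) (a (c (l 16786976) (l 16786568)) (l 16786880)))) (l 16786456))) (a (a (b (b (a (a (b (l 102710134919) (l 99488909351)) (b (l 100025780151) (l 16786768))) (l 16787000)) (l 16787040)) (l 16786808)) (l 16786736)) (l 16788680))) (l 16786224)), by decide +kernel⟩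

def k55_pm_102 : ∃ t, chk3 f_pm_102 t 996 536 1 = true :=
  ⟨(l 3), by decide +kernel⟩

def k56_pm_102 : ∃ t, chk3 f_pm_102 t 1994 536 1 = true :=
  ⟨(b (l 3) (b (a (l 3) (b (a (l 3) (a (l 3) (b (l 3) (c (l 100562649303) (l 101636390135))))) (b (a (l 3) (c (l 99488907895) (a (l 101099519319) (b (l 98415164535) (l 16785064))))) (a (a (l 104857615895) (c (l 99488907543) (l 100562648439))) (a (a (c (l 16785584) (a (l 98415164551) (l 16785096))) (l 16785320)) (l 16785536)))))) (b (a (a (l 3) (c (l 100562650151) (b (l 102173261639) (a (l 102173261367) (a (l 100562648423) (l 98415164727)))))) (a (a (c (l 95193940679) (b (c (l 98952036183) (l 99488906647)) (l 16785160))) (b (a (b (l 16785048) (l 16785360)) (l 16785352)) (l 16785608))) (l 16785520))) (a (a (c (l 100562650199) (c (l 99488908007) (a (l 100562648951) (b (l 101099519575) (b (l 98952035751) (l 16785104)))))) (b (a (c (l 98415165879) (a (l 100025777543) (a (l 98415164711) (l 16785184)))) (l 16785424)) (l 16785040))) (l 16785464))))), by decide +kernel⟩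

def k57_pm_102 : ∃ t, chk3 f_pm_102 t 1995 536 1 = true :=
  ⟨(a (b (b (l 3) (a (a (l 3) (c (l 99488908215) (c (l 98952036791) (b (l 3) (l 101099519447))))) (b (a (l 3) (a (l 3) (b (l 3) (l 104857615367)))) (c (l 95193940391) (b (a (l 102710131879) (b (l 101099518967) (l 98952035239))) (a (c (l 98415164967) (a (l 100025777095) (l 97341422615))) (l 16784984))))))) (b (b (a (c (l 91972714903) (a (b (l 101636390103) (b (l 99488906311) (l 16785040))) (b (b (l 100025777191) (a (l 16784864) (l 16785008))) (l 16785120)))) (c (l 16785696) (c (l 16785312) (l 16785056)))) (c (l 16785648) (l 16785136))) (l 16785128))) (b (a (b (l 3) (a (b (b (l 3) (c (l 99488907143) (a (l 101636389815) (l 100025777015)))) (a (b (b (l 16784856) (l 16785176)) (l 16785424)) (l 16784760))) (b (c (l 97878294775) (a (b (l 102173260695) (a (l 97878293303) (l 16784912))) (b (l 100562647895) (l 16784920)))) (l 16785352)))) (b (b (l 3) (c (l 100025778487) (b (a (l 3) (l 101636389719)) (c (l 99488906983) (a (l 100562647959) (a (l 98415164135)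 (l 16784736))))))) (a (b (b (a (c (l 16785368) (b (l 99488905927) (l 16784888))) (l 16785104)) (l 16785360)) (l 16785264)) (l 16784592)))) (l 16784872))), by decide +kernel⟩

def k58_pm_102 : ∃ t, chk3 f_pm_102 t 499 536 1 = true :=
  ⟨(a (b (a (b (a (a (b (c (l 100562649335) (b (a (l 3) (l 102710131495)) (a (l 102173260599) (b (l 100562647687) (a (l 98952034855) (l 16784792)))))) (a (c (l 86067134439) (b (b (l 100025776823) (a (l 16784840) (l 16784824))) (l 16785032))) (l 16784776))) (b (b (c (l 92509585303) (a (c (l 98415164551) (c (l 97878293447) (l 98415164119))) (a (l 16784752) (l 16784824)))) (a (l 16784696) (l 16785200))) (l 16785144))) (l 16784272)) (l 16784768)) (l 16784728)) (l 16786848)) (l 16789824)), by decide +kernel⟩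

def k59_pm_102 : ∃ t, chk3 f_pm_102 t 996 537 1 = true :=
  ⟨(a (a (b (l 3) (b (a (l 3) (b (l 3) (c (l 100562651063) (a (l 101636391543) (a (l 100562649463) (b (l 101636391095) (l 16785592))))))) (b (b (c (l 95730812631) (a (l 101099520663) (b (a (l 99488907447) (l 16785608)) (l 16785632)))) (a (c (l 100025780023) (a (l 101099520407) (a (l 98415165719) (l 16785640)))) (l 16786144))) (a (a (b (b (l 16785608) (l 16785920)) (l 16786160)) (l 16786176)) (l 16786048))))) (b (a (l 3) (b (l 3) (b (l 3) (b (l 3) (a (l 104857616599) (c (l 100025779239) (l 101099520023))))))) (b (a (a (c (l 97878296199) (b (l 101636391495) (b (l 99488907463) (l 16785600)))) (b (c (l 99488908663) (c (l 99488908119) (l 100025778519))) (l 16785560))) (b (c (l 87140877639) (b (a (l 100562649143) (a (l 16785496) (l 16785488))) (l 16785576))) (l 16785976))) (l 16785840)))) (a (a (b (b (l 3) (b (a (l 3) (c (l 100025779431) (l 101636391159))) (c (l 90898974023) (a (b (l 101099520007) (a (l 98415165335) (l 16785456))) (a (b (l 98952036215) (l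 16785504)) (l 16785472)))))) (c (l 16785992) (l 16785424))) (b (b (a (l 3) (b (l 3) (c (l 100025779431) (l 101636391127)))) (b (c (l 94657070327) (b (a (l 101636390871) (a (l 100562648791) (l 97878294231))) (a (a (l 99488907047) (l 16785400)) (l 16785424)))) (l 16785240))) (l 16785472))) (b (a (b (a (b (l 3) (b (l 104320745399) (c (l 98952037079) (l 99488907063)))) (c (l 99488908487) (b (l 102173261991) (b (l 100025777943) (l 16785336))))) (b (b (l 16785360) (l 16785816)) (l 16785712))) (b (b (c (l 100025779335) (c (l 100025778887) (a (l 100562648999) (b (l 100562648711) (a (l 97341423175) (l 16785160)))))) (a (b (b (c (l 16785800) (l 16785304)) (l 16785552)) (l 16785816)) (l 16785768))) (l 16785592))) (l 16785736)))), by decide +kernel⟩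

def k60_pm_102 : ∃ t, chk3 f_pm_102 t 997 537 1 = true :=
  ⟨(b (b (a (b (a (b (a (b (a (a (l 101099519431) (l 16785488)) (l 16785472)) (l 16785248)) (l 16785632)) (l 16785000)) (l 16785288)) (l 16785328)) (l 16785784)) (l 16786256)) (l 16789088)), by decide +kernel⟩

def k61_pm_102 : ∃ t, chk3 f_pm_102 t 499 537 1 = true :=
  ⟨(l 16783656), by decide +kernel⟩

def k62_pm_102 : ∃ t, chk3 f_pm_102 t 249 269 1 = true :=
  ⟨(b (a (a (a (l 16786432) (l 16790824)) (l 16795648)) (l 16783616)) (a (l 16791512) (l 16793608))), by decide +kernel⟩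

def k63_pm_102 : ∃ t, chk3 f_pm_102 t 124 135 1 = true :=
  ⟨(b (a (b (a (a (b (b (l 3) (a (l 3) (a (l 3) (a (l 3) (b (l 3) (l 102173265287)))))) (b (a (l 3) (a (a (l 102710137191) (a (l 102173265815) (b (l 103783878199) (l 103247007351)))) (b (a (l 101099523591) (b (l 103247006999) (l 16787288))) (a (a (l 16787344) (l 16787360)) (l 16787616))))) (a (a (l 3) (a (l 102173266423) (b (l 103247007639) (a (l 101099523687) (l 100562652919))))) (a (b (a (a (l 101636394455) (l 103247007335)) (l 16787408)) (l 16787776)) (l 16787488))))) (a (a (b (b (c (l 100025783271) (l 101636394791)) (a (b (l 102173265255) (a (a (l 100562652119) (l 103247006823)) (l 16787200))) (b (b (l 100562652151) (l 16787160)) (l 16787536)))) (l 16787248)) (b (a (b (b (l 103247006967) (a (l 101099522951) (b (l 101099522663) (l 16787096)))) (l 16787432)) (b (b (a (l 101636393815) (b (l 101636393511) (l 16787048))) (l 16787136)) (l 16787248))) (l 16788320))) (a (a (b (b (a (b (l 16787008) (l 16787328)) (l 16787312)) (l 16787048)) (l 16789440))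 (l 16786912)) (l 16789352)))) (l 16787080)) (a (a (b (a (b (b (a (l 101636395559) (a (a (l 103247007719) (l 16787528)) (l 16787784))) (a (a (l 101636395111) (a (l 103247007703) (l 16787584))) (l 16787856))) (a (a (a (b (l 16787672) (l 16788056)) (l 16788040)) (l 16787912)) (l 16787656))) (l 16788504)) (l 16791024)) (l 16796160)) (l 16787216))) (a (c (l 16808000) (l 16785648)) (l 16778416))) (a (a (c (l 16793408) (l 16786624)) (l 16804208)) (a (l 16819768) (l 16833424)))), by decide +kernel⟩

def k64_pm_102 : ∃ t, chk3 f_pm_102 t 125 67 1 = true :=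
  ⟨(a (b (a (a (b (l 16782336) (l 16795864)) (b (l 16780336) (l 16799544))) (a (b (l 16779680) (l 16781088)) (b (l 16777528) (l 16782264)))) (a (b (a (l 16817800) (l 16821984)) (l 16823512)) (a (b (l 16804168) (l 16829608)) (b (l 16806136) (l 16832392))))) (a (a (b (b (l 16773640) (l 16781912)) (b (l 16785776) (l 16813024))) (b (b (c (l 16791144) (l 16775728)) (l 16779792)) (b (l 16784848) (l 16813280)))) (a (b (b (c (l 16791392) (l 16770696)) (l 16775672)) (b (l 16782168) (l 16770072))) (b (b (a (l 16777304) (l 16782976)) (l 16774488)) (b (l 16777488) (l 16772280)))))), by decide +kernel⟩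

def k65_pm_102 : ∃ t, chk3 f_pm_102 t 63 66 1 = true :=
  ⟨(a (b (a (b (a (a (a (b (l 16779880) (l 16779384)) (b (l 16778864) (l 16778376))) (a (b (l 16779168) (l 16779984)) (b (l 6) (l 16778976)))) (a (a (b (l 6) (l 16777976)) (l 6)) (l 6))) (b (a (a (b (l 16780136) (a (l 16784976) (l 16783960))) (b (l 16778112) (l 16777552))) (a (a (l 16777696) (l 16772496)) (l 16772888))) (a (a (a (l 16778352) (l 16782576)) (l 16777368)) (a (l 16772568) (l 16772328))))) (b (l 6) (b (l 6) (a (a (l 16772392) (l 6)) (l 6))))) (b (b (a (a (a (l 16777008) (l 16777152)) (a (l 16772024) (l 16772120))) (a (a (l 16772192) (a (l 16774856) (l 6))) (l 6))) (a (a (a (l 16776808) (l 16771712)) (a (l 16771832) (l 16771928))) (a (a (a (l 16772024) (l 16774632)) (l 16771984)) (a (l 16771928) (l 6))))) (b (a (a (a (l 16771376) (l 16771528)) (a (l 16771656) (l 16771816))) (a (a (l 16773048) (l 16771760)) (a (l 16771688) (l 16771592)))) (a (a (a (l 16771216) (l 16771368)) (a (l 16771504) (l 16772952))) (a (a (l 16771600) (l 16771536)) (a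 (l 16771456) (l 16771344))))))) (a (b (l 6) (b (l 6) (b (l 6) (a (a (l 16771208) (l 6)) (l 6))))) (l 6))), by decide +kernel⟩

def k66_pm_102 : ∃ t, chk3 f_pm_102 t 126 67 1 = true :=
  ⟨(a (b (b (a (a (a (l 16777376) (l 16771048)) (l 16771496)) (a (b (l 16771448) (l 16772552)) (a (l 16772568) (l 16771320)))) (a (a (l 16770680) (a (l 16772456) (l 16772112))) (a (l 16772128) (l 16770928)))) (a (a (b (a (l 16772496) (l 16773600)) (l 16782976)) (b (l 16771368) (l 16775672))) (a (b (l 16770576) (l 16771040)) (b (l 16770304) (l 16770040))))) (b (a (a (b (a (l 16771296) (l 16771264)) (l 16771512)) (b (a (l 16771224) (l 16771176)) (l 16771408))) (b (b (a (l 16771216) (l 16771096)) (a (l 16770984) (l 16770848))) (b (a (l 16770752) (l 16770608)) (a (l 16770520) (l 16770360))))) (a (b (a (l 16770080) (l 16770312)) (a (l 16769648) (l 16769408))) (b (a (l 16770160) (a (l 16770032) (l 16769944))) (a (l 16770120) (l 16769496)))))), by decide +kernel⟩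

def k67_pm_102 : ∃ t, chk3 f_pm_102 t 127 67 1 = true :=
  ⟨(a (b (a (b (b (a (l 16770944) (l 16771096)) (a (l 16770688) (l 16770504))) (b (a (l 16770432) (l 16770232)) (a (l 16770176) (l 16769960)))) (b (b (l 6) (a (a (l 16770336) (l 6)) (l 6))) (a (a (l 16769920) (l 16770456)) (a (a (l 16769696) (l 16769632)) (a (l 16769560) (l 16769488)))))) (a (a (a (b (l 16769840) (l 16769328)) (b (l 16769736) (l 16769208))) (a (b (l 16769616) (l 16769080)) (b (l 16769496) (l 16768952)))) (a (a (b (l 16769368) (l 16768808)) (b (l 16769232) (l 16768656))) (a (b (l 16769080) (l 16768504)) (b (l 16769584) (l 16768992)))))) (a (b (a (a (a (b (l 6) (l 16769416)) (l 6)) (l 6)) (l 6)) (c (l 14) (a (a (b (c (l 16768704) (l 16768568)) (l 16768016)) (a (b (l 16768504) (l 16767880)) (b (l 16768416) (l 16767784)))) (a (a (b (l 16768328) (l 16767688)) (b (l 16768232) (l 16767592))) (a (b (l 16768136) (l 16767488)) (b (l 16768120) (l 16767464))))))) (b (l 6) (c (l 14) (b (b (l 6) (a (a (a (l 16767776) (l 6)) (l 6)) (l 6))) (c (l 14)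 (a (a (b (l 16767312) (l 16766976)) (a (a (l 16767008) (l 16766952)) (b (l 16767040) (l 16766696)))) (a (a (b (l 16766928) (l 16766576)) (b (l 6) (a (l 16766488) (l 16766432)))) (b (l 6) (c (l 14) (b (a (l 16766384) (l 6)) (c (l 14) (a (l 16766184) (a (l 16766088) (a (l 16766040) (l 16766008)))))))))))))))), by decide +kernel⟩

def k68_pm_102 : ∃ t, chk3 f_pm_102 t 60 34 1 = true :=
  ⟨(b (l 3) (a (l 3) (b (a (l 3) (b (l 3) (a (b (l 3) (l 105394502839)) (b (a (l 108615727335) (b (l 101636402887) (l 69961022679))) (a (b (l 82845925623) (l 16791864)) (l 16796000)))))) (a (b (a (l 3) (b (l 3) (a (l 110226340919) (l 88751511383)))) (a (b (l 106468245351) (a (l 99488920615) (l 61371090119))) (b (a (l 71571638663) (l 16795784)) (l 16802128)))) (b (a (a (b (l 97341436359) (l 16793592)) (b (a (l 68887281655) (l 16793112)) (l 16800952))) (l 16787152)) (l 16801392)))))), by decide +kernel⟩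

def k69_pm_102 : ∃ t, chk3 f_pm_102 t 122 68 1 = true :=
  ⟨(b (a (l 3) (b (l 3) (a (l 3) (b (l 3) (a (l 3) (b (l 3) (l 102710143623))))))) (a (b (l 3) (a (l 3) (b (a (l 3) (l 107005114039)) (a (l 107005113271) (b (l 94657079655) (a (l 76403471287) (l 16791752))))))) (b (a (b (l 3) (a (l 3) (b (l 106468241031) (a (l 103247014263) (l 77477212487))))) (b (a (b (l 3) (a (l 103247014903) (l 90362114743))) (a (b (l 101099529639) (c (l 16790632) (l 56539244471))) (b (a (l 79624694695) (l 16790152)) (l 16792440)))) (a (b (a (l 84456534487) (l 16790616)) (l 16792680)) (l 16797944)))) (a (b (b (a (l 103247014903) (a (l 70497890551) (l 16792024))) (a (a (l 90898986295) (l 16790648)) (l 16794720))) (a (c (l 16790408) (l 16790632)) (l 16802808))) (l 16789744))))), by decide +kernel⟩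

def k70_pm_102 : ∃ t, chk3 f_pm_102 t 123 68 1 = true :=
  ⟨(b (a (b (a (l 3) (b (a (l 3) (b (l 3) (b (a (l 3) (l 102173269863)) (a (l 101636399815) (a (l 102710139895) (l 16788368)))))) (a (b (a (l 3) (c (l 104320755447) (l 105931366727))) (a (l 104320754471) (c (b (l 87140887271) (l 16789968)) (b (l 84993402103) (l 58149855319))))) (b (b (a (c (l 93583338247) (l 92509594855)) (l 16789352)) (a (a (l 92509592311) (l 16789480)) (l 16790472))) (l 16789256))))) (b (a (a (b (l 3) (a (l 3) (l 102173272295))) (b (a (l 3) (c (l 99488916775) (l 99488915303))) (b (a (l 102710141783) (c (l 16789664) (l 66202919799))) (a (l 84993403287) (l 16790200))))) (a (a (b (a (b (l 101099527591) (l 16789760)) (l 16789680)) (l 16792048)) (l 16788104)) (l 16799560))) (a (b (b (a (l 102173271591) (a (l 16789888) (l 16791912))) (a (a (l 102710142359) (l 73719114039)) (l 16792376))) (a (a (a (l 87140887527) (l 69961017575)) (l 16790784)) (l 16796024))) (l 16785552)))) (b (a (b (a (b (b (a (l 104320753047) (a (a (l 102710139719) (l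 89288366455)) (l 16789184))) (a (c (l 87677757735) (a (l 96267690231) (l 84993399223))) (l 16789240))) (b (a (a (l 82309044423) (l 16789200)) (l 16790696)) (l 16791120))) (l 16789760)) (l 16791112)) (l 16792912)) (a (l 16798296) (l 16838024)))) (b (a (a (a (a (l 16788432) (l 16792880)) (l 16789336)) (l 16803608)) (l 16832392)) (a (l 16818552) (l 16878408)))), by decide +kernel⟩

def k71_pm_102 : ∃ t, chk3 f_pm_102 t 61 69 1 = true :=
  ⟨(b (a (a (b (a (b (a (l 3) (l 100562661559)) (a (b (l 104320758263) (l 80698441591)) (b (l 66739796487) (l 16793920)))) (b (a (b (l 78014086391) (l 16792048)) (l 16796720)) (l 16792928))) (a (b (a (c (l 16792016) (l 35064409735)) (l 16801616)) (l 16787624)) (l 16800080))) (b (l 16793896) (l 16828776))) (a (l 16834752) (l 16895192))) (a (a (b (l 16814640) (l 16859512)) (l 16865240)) (a (l 16925904) (l 16966112)))), by decide +kernel⟩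

def k72_pm_102 : ∃ t, chk3 f_pm_102 t 30 35 1 = true :=
  ⟨(a (b (a (b (a (b (l 3) (a (l 3) (l 99488944631))) (b (a (l 107541989831) (b (l 96804577223) (a (l 71034768183) (l 16796024)))) (a (b (l 71571642455) (l 16797560)) (l 16786632)))) (a (b (a (b (l 105931374407) (l 70497900391)) (b (l 49559932327) (l 16802928))) (a (l 16792944) (l 16818800))) (l 16790440))) (a (b (b (a (b (a (l 16793760) (l 16800816)) (l 16807528)) (l 16797904)) (l 16811976)) (l 16845856)) (b (l 16836368) (l 16903024)))) (a (b (a (l 16801088) (l 16876056)) (l 16880544)) (b (l 16907720) (l 16970912)))) (a (b (b (a (l 16894904) (l 16933880)) (l 16960232)) (l 17025872)) (b (b (l 16994376) (l 17041072)) (l 17086664)))), by decide +kernel⟩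

def k73_pm_102 : ∃ t, chk3 f_pm_102 t 62 17 1 = true :=
  ⟨(a (b (a (b (b (b (a (l 16810888) (l 16849112)) (l 16823376)) (b (l 16890632) (l 16916296))) (b (l 16954984) (l 17006168))) (b (b (b (a (l 16865152) (l 16879480)) (l 16856360)) (a (l 16929800) (l 16924976))) (b (l 16991712) (l 17045088)))) (b (b (l 17055888) (l 17126344)) (l 17196528))) (b (b (b (b (a (a (l 16870544) (l 16837632)) (a (a (l 16862872) (l 16822336)) (b (l 16771784) (l 16809064)))) (a (a (l 16918656) (l 16887128)) (a (a (l 16892752) (l 16874280)) (a (l 16875608) (l 16854632))))) (a (a (l 16918536) (a (l 16928064) (l 16891728))) (a (a (l 16896592) (l 16900600)) (b (l 16867152) (l 16942416))))) (a (b (a (l 17016888) (l 17031808)) (l 17081440)) (b (a (l 17023672) (l 16970896)) (l 17070416)))) (b (a (l 17163352) (l 17158872)) (l 17286112)))), by decide +kernel⟩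

def k74_pm_102 : ∃ t, chk3 f_pm_102 t 63 68 1 = true :=
  ⟨(a (b (a (a (c (b (l 16967560) (l 17005168)) (b (l 16769960) (l 16768992))) (b (b (l 16769352) (c (l 16976296) (l 16768352))) (c (l 17007280) (l 16769824)))) (a (b (a (c (l 16917248) (l 16773488)) (l 16769160)) (c (l 16897288) (a (l 16777000) (l 16767208)))) (a (b (l 16769192) (c (l 16929352) (l 16769408))) (b (l 16769000) (c (l 16877344) (l 16768376)))))) (a (a (b (a (l 16888688) (l 16866288)) (l 16903376)) (c (l 17046984) (b (l 16768272) (a (l 16906776) (l 16877040))))) (c (a (b (l 17047304) (l 17091016)) (b (l 16912872) (l 17087600))) (a (b (a (l 16800976) (l 16784296)) (l 16767896)) (a (b (l 16774880) (l 16794376)) (b (l 16767096) (l 16769760))))))) (a (a (b (b (a (l 16769328) (a (l 16768544) (l 16768400))) (a (a (c (l 16888664) (l 16768168)) (l 16771856)) (l 16768352))) (c (b (a (l 16941776) (l 16866376)) (l 16928728)) (b (a (l 16767032) (l 16767224)) (a (l 16765248) (l 16766016))))) (b (a (a (b (l 16768248) (l 16767208)) (b (l 16768088) (l 14)))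 (b (a (l 16767920) (l 16767744)) (l 14))) (a (a (a (a (c (l 16867408) (l 16766736)) (l 14)) (l 14)) (l 14)) (l 14)))) (b (b (b (b (b (c (l 14) (c (l 14) (c (l 14) (c (l 14) (a (a (l 16767440) (l 16767032)) (a (a (l 16766704) (l 16766472)) (a (l 16766232) (a (l 16766048) (a (l 16765952) (l 16765888)))))))))) (l 14)) (l 14)) (l 14)) (l 14)) (l 14)))), by decide +kernel⟩

def k75_pm_102 : ∃ t, chk3 f_pm_102 t 63 69 1 = true :=
  ⟨(a (c (a (b (l 17139392) (l 17209464)) (b (a (l 17153640) (l 17156840)) (l 17237152))) (a (b (a (l 16885328) (b (l 16921056) (l 17001512))) (a (l 17058792) (l 17057424))) (a (b (b (a (l 16930056) (l 16877480)) (l 16926120)) (l 16966960)) (a (b (b (l 16843480) (l 16932624)) (l 16978864)) (b (b (l 16806784) (l 16878184)) (l 16928576)))))) (a (a (c (b (l 17027480) (l 17247136)) (b (a (b (l 16767096) (l 16842128)) (a (l 16766720) (l 16766392))) (b (a (l 16935408) (l 16879096)) (l 16936880)))) (c (b (a (l 17061256) (l 16968760)) (l 17246432)) (a (a (a (b (l 16765568) (l 16854224)) (l 14))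 (l 14)) (l 14)))) (c (b (c (a (l 17155392) (l 14)) (l 14)) (a (l 17112120) (c (l 17302880) (l 14)))) (l 14)))), by decide +kernel⟩

def k76_pm_102 : ∃ t, chk3 f_pm_102 t 63 35 1 = true :=
  ⟨(a (a (b (b (l 17179856) (l 17263216)) (l 17348784)) (b (a (l 17082800) (b (l 17137072) (l 17294704))) (l 17385088))) (a (b (c (l 17354584) (a (b (l 17028336) (l 17197832)) (b (a (l 17036432) (l 16962320)) (l 17189304)))) (l 17245864)) (a (b (c (l 17387360) (b (c (l 17093536) (l 14)) (l 17069208))) (l 17301592)) (b (c (l 17178320) (b (l 14) (c (l 17222024) (l 14)))) (b (l 17241984) (l 17471640)))))), by decide +kernel⟩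

def k77_pm_102 : ∃ t, chk3 f_pm_102 t 7 9 1 = true :=
  ⟨(a (b (a (b (b (l 3) (a (l 3) (a (l 120963830103) (b (l 115595086055) (a (l 87140912919) (l 63518633911)))))) (b (b (a (l 122574446775) (a (l 65666114791) (l 16794592))) (a (a (l 3) (l 73719158807)) (l 16802128))) (a (a (b (l 76403514103) (l 16833656)) (l 16809872)) (a (l 16929392) (l 16904960))))) (b (a (b (a (b (l 3) (l 108078909783)) (a (b (l 115058190935) (b (l 73182266455) (l 16806720))) (b (b (l 98952055495) (l 62981730407)) (l 16800536)))) (a (a (b (l 64055481687) (l 16823648)) (l 16802208)) (a (l 16809912) (l 16855504)))) (b (a (b (a (l 16795848) (l 16814680)) (l 16818688)) (b (l 16837024) (l 16917696))) (a (l 16873680) (l 16972216)))) (a (b (a (l 16843272) (l 16931664)) (l 16926792)) (b (l 16967544) (l 17067600))))) (b (a (a (b (a (l 16806456) (l 16886480)) (l 16915144)) (b (l 16939728) (l 16984504))) (a (l 17127312) (l 17226320))) (a (a (l 16967112) (l 17035416)) (a (l 17141280) (l 17226816))))) (b (a (a (b (b (a (l 16940504) (l 17030568))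 (l 17004808)) (b (l 17132688) (l 17191472))) (b (b (a (l 17105536) (l 17190792)) (l 17221840)) (l 17319248))) (a (b (a (l 17321584) (l 17418872)) (l 17506488)) (b (a (b (l 17471464) (l 17558896)) (b (a (l 17534992) (l 17569960)) (l 17656744))) (l 17718584)))) (a (b (a (l 17269976) (l 17425240)) (l 17322672)) (a (l 17651176) (l 17862696))))), by decide +kernel⟩

def k78_pm_102 : ∃ t, chk3 f_pm_102 t 7 5 1 = true :=
  ⟨(b (a (b (b (a (l 17139000) (l 17240784)) (b (a (l 17095120) (l 17284344)) (l 17351104))) (a (l 17174920) (l 17355040))) (a (b (l 17662160) (l 17578992)) (b (l 18082624) (l 17881384)))) (a (a (l 17248576) (l 17406632)) (a (l 17589400) (l 17984832)))), by decide +kernel⟩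

def k79_pm_102 : ∃ t, chk3 f_pm_102 t 3 3 1 = true :=
  ⟨(a (b (a (b (l 17059904) (l 17149320)) (b (l 17300968) (l 17162984))) (a (l 2) (b (l 17249688) (l 2)))) (b (a (b (l 17515608) (l 17408208)) (b (l 17668864) (l 17599720))) (a (b (l 17426712) (l 17385544)) (b (l 17601352) (l 17588752))))), by decide +kernel⟩

theorem s80_pm_102 : ∃ t, chk3 f_pm_102 t 63 34 1 = true := ex3_b k74_pm_102 k75_pm_102

theorem s81_pm_102 : ∃ t, chk3 f_pm_102 t 63 17 1 = true := ex3_b s80_pm_102 k76_pm_102

theorem s82_pm_102 : ∃ t, chk3 f_pm_102 t 31 17 1 = true := ex3_a k73_pm_102 s81_pm_102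

theorem s83_pm_102 : ∃ t, chk3 f_pm_102 t 61 68 1 = true := ex3_a k69_pm_102 k70_pm_102

theorem s84_pm_102 : ∃ t, chk3 f_pm_102 t 61 34 1 = true := ex3_b s83_pm_102 k71_pm_102

theorem s85_pm_102 : ∃ t, chk3 f_pm_102 t 30 34 1 = true := ex3_a k68_pm_102 s84_pm_102

theorem s86_pm_102 : ∃ t, chk3 f_pm_102 t 30 17 1 = true := ex3_b s85_pm_102 k72_pm_102

theorem s87_pm_102 : ∃ t, chk3 f_pm_102 t 15 17 1 = true := ex3_a s86_pm_102 s82_pm_102

theorem s88_pm_102 : ∃ t, chk3 f_pm_102 t 63 67 1 = true := ex3_a k66_pm_102 k67_pm_102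

theorem s89_pm_102 : ∃ t, chk3 f_pm_102 t 63 33 1 = true := ex3_b k65_pm_102 s88_pm_102

theorem s90_pm_102 : ∃ t, chk3 f_pm_102 t 498 537 1 = true := ex3_a k59_pm_102 k60_pm_102

theorem s91_pm_102 : ∃ t, chk3 f_pm_102 t 249 537 1 = true := ex3_a s90_pm_102 k61_pm_102

theorem s92_pm_102 : ∃ t, chk3 f_pm_102 t 997 536 1 = true := ex3_a k56_pm_102 k57_pm_102

theorem s93_pm_102 : ∃ t, chk3 f_pm_102 t 498 536 1 = true := ex3_a k55_pm_102 s92_pm_102

theorem s94_pm_102 : ∃ t, chk3 f_pm_102 t 249 536 1 = true := ex3_a s93_pm_102 k58_pm_102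

theorem s95_pm_102 : ∃ t, chk3 f_pm_102 t 249 268 1 = true := ex3_b s94_pm_102 s91_pm_102

theorem s96_pm_102 : ∃ t, chk3 f_pm_102 t 249 134 1 = true := ex3_b s95_pm_102 k62_pm_102

theorem s97_pm_102 : ∃ t, chk3 f_pm_102 t 497 269 1 = true := ex3_b k53_pm_102 k54_pm_102

theorem s98_pm_102 : ∃ t, chk3 f_pm_102 t 248 269 1 = true := ex3_a k52_pm_102 s97_pm_102

theorem s99_pm_102 : ∃ t, chk3 f_pm_102 t 248 134 1 = true := ex3_b k51_pm_102 s98_pm_102

theorem s100_pm_102 : ∃ t, chk3 f_pm_102 t 124 134 1 = true := ex3_a s99_pm_102 s96_pm_102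

theorem s101_pm_102 : ∃ t, chk3 f_pm_102 t 124 67 1 = true := ex3_b s100_pm_102 k63_pm_102

theorem s102_pm_102 : ∃ t, chk3 f_pm_102 t 62 67 1 = true := ex3_a s101_pm_102 k64_pm_102

theorem s103_pm_102 : ∃ t, chk3 f_pm_102 t 1006 528 1 = true := ex3_b k45_pm_102 k46_pm_102

theorem s104_pm_102 : ∃ t, chk3 f_pm_102 t 503 528 1 = true := ex3_a s103_pm_102 k47_pm_102

theorem s105_pm_102 : ∃ t, chk3 f_pm_102 t 503 264 1 = true := ex3_b s104_pm_102 k48_pm_102

theorem s106_pm_102 : ∃ t, chk3 f_pm_102 t 503 132 1 = true := ex3_b s105_pm_102 k49_pm_102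

theorem s107_pm_102 : ∃ t, chk3 f_pm_102 t 1004 530 1 = true := ex3_b k41_pm_102 k42_pm_102

theorem s108_pm_102 : ∃ t, chk3 f_pm_102 t 1004 265 1 = true := ex3_b s107_pm_102 k43_pm_102

theorem s109_pm_102 : ∃ t, chk3 f_pm_102 t 502 265 1 = true := ex3_a s108_pm_102 k44_pm_102

theorem s110_pm_102 : ∃ t, chk3 f_pm_102 t 1005 264 1 = true := ex3_a k39_pm_102 k40_pm_102

theorem s111_pm_102 : ∃ t, chk3 f_pm_102 t 502 264 1 = true := ex3_a k38_pm_102 s110_pm_102

theorem s112_pm_102 : ∃ t, chk3 f_pm_102 t 502 132 1 = true := ex3_b s111_pm_102 s109_pm_102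

theorem s113_pm_102 : ∃ t, chk3 f_pm_102 t 251 132 1 = true := ex3_a s112_pm_102 s106_pm_102

theorem s114_pm_102 : ∃ t, chk3 f_pm_102 t 251 66 1 = true := ex3_b s113_pm_102 k50_pm_102

theorem s115_pm_102 : ∃ t, chk3 f_pm_102 t 250 267 1 = true := ex3_a k36_pm_102 k37_pm_102

theorem s116_pm_102 : ∃ t, chk3 f_pm_102 t 1002 1064 1 = true := ex3_a k31_pm_102 k32_pm_102

theorem s117_pm_102 : ∃ t, chk3 f_pm_102 t 1002 532 1 = true := ex3_b s116_pm_102 k33_pm_102

theorem s118_pm_102 : ∃ t, chk3 f_pm_102 t 501 532 1 = true := ex3_a s117_pm_102 k34_pm_102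

theorem s119_pm_102 : ∃ t, chk3 f_pm_102 t 501 266 1 = true := ex3_b s118_pm_102 k35_pm_102

theorem s120_pm_102 : ∃ t, chk3 f_pm_102 t 1001 533 1 = true := ex3_a k29_pm_102 k30_pm_102

theorem s121_pm_102 : ∃ t, chk3 f_pm_102 t 1000 533 1 = true := ex3_b k27_pm_102 k28_pm_102

theorem s122_pm_102 : ∃ t, chk3 f_pm_102 t 500 533 1 = true := ex3_a s121_pm_102 s120_pm_102

theorem s123_pm_102 : ∃ t, chk3 f_pm_102 t 500 266 1 = true := ex3_b k26_pm_102 s122_pm_102

theorem s124_pm_102 : ∃ t, chk3 f_pm_102 t 250 266 1 = true := ex3_a s123_pm_102 s119_pm_102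

theorem s125_pm_102 : ∃ t, chk3 f_pm_102 t 250 133 1 = true := ex3_b s124_pm_102 s115_pm_102

theorem s126_pm_102 : ∃ t, chk3 f_pm_102 t 2006 531 1 = true := ex3_a k23_pm_102 k24_pm_102

theorem s127_pm_102 : ∃ t, chk3 f_pm_102 t 1003 531 1 = true := ex3_a s126_pm_102 k25_pm_102

theorem s128_pm_102 : ∃ t, chk3 f_pm_102 t 501 531 1 = true := ex3_a k22_pm_102 s127_pm_102

theorem s129_pm_102 : ∃ t, chk3 f_pm_102 t 501 265 1 = true := ex3_b k21_pm_102 s128_pm_102

theorem s130_pm_102 : ∃ t, chk3 f_pm_102 t 250 265 1 = true := ex3_a k20_pm_102 s129_pm_102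

theorem s131_pm_102 : ∃ t, chk3 f_pm_102 t 250 132 1 = true := ex3_b k19_pm_102 s130_pm_102

theorem s132_pm_102 : ∃ t, chk3 f_pm_102 t 250 66 1 = true := ex3_b s131_pm_102 s125_pm_102

theorem s133_pm_102 : ∃ t, chk3 f_pm_102 t 125 66 1 = true := ex3_a s132_pm_102 s114_pm_102

theorem s134_pm_102 : ∃ t, chk3 f_pm_102 t 998 535 1 = true := ex3_a k16_pm_102 k17_pm_102

theorem s135_pm_102 : ∃ t, chk3 f_pm_102 t 499 535 1 = true := ex3_a s134_pm_102 k18_pm_102

theorem s136_pm_102 : ∃ t, chk3 f_pm_102 t 999 534 1 = true := ex3_a k14_pm_102 k15_pm_102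

theorem s137_pm_102 : ∃ t, chk3 f_pm_102 t 499 534 1 = true := ex3_a k13_pm_102 s136_pm_102

theorem s138_pm_102 : ∃ t, chk3 f_pm_102 t 499 267 1 = true := ex3_b s137_pm_102 s135_pm_102

theorem s139_pm_102 : ∃ t, chk3 f_pm_102 t 249 267 1 = true := ex3_a k12_pm_102 s138_pm_102

theorem s140_pm_102 : ∃ t, chk3 f_pm_102 t 249 133 1 = true := ex3_b k11_pm_102 s139_pm_102

theorem s141_pm_102 : ∃ t, chk3 f_pm_102 t 124 133 1 = true := ex3_a k10_pm_102 s140_pm_102

theorem s142_pm_102 : ∃ t, chk3 f_pm_102 t 124 66 1 = true := ex3_b k9_pm_102 s141_pm_102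

theorem s143_pm_102 : ∃ t, chk3 f_pm_102 t 62 66 1 = true := ex3_a s142_pm_102 s133_pm_102

theorem s144_pm_102 : ∃ t, chk3 f_pm_102 t 62 33 1 = true := ex3_b s143_pm_102 s102_pm_102

theorem s145_pm_102 : ∃ t, chk3 f_pm_102 t 31 33 1 = true := ex3_a s144_pm_102 s89_pm_102

theorem s146_pm_102 : ∃ t, chk3 f_pm_102 t 31 65 1 = true := ex3_a k7_pm_102 k8_pm_102

theorem s147_pm_102 : ∃ t, chk3 f_pm_102 t 31 32 1 = true := ex3_b k6_pm_102 s146_pm_102

theorem s148_pm_102 : ∃ t, chk3 f_pm_102 t 31 16 1 = true := ex3_b s147_pm_102 s145_pm_102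

theorem s149_pm_102 : ∃ t, chk3 f_pm_102 t 30 33 1 = true := ex3_a k4_pm_102 k5_pm_102

theorem s150_pm_102 : ∃ t, chk3 f_pm_102 t 30 16 1 = true := ex3_b k3_pm_102 s149_pm_102

theorem s151_pm_102 : ∃ t, chk3 f_pm_102 t 15 16 1 = true := ex3_a s150_pm_102 s148_pm_102

theorem s152_pm_102 : ∃ t, chk3 f_pm_102 t 15 8 1 = true := ex3_b s151_pm_102 s87_pm_102

theorem s153_pm_102 : ∃ t, chk3 f_pm_102 t 7 8 1 = true := ex3_a k2_pm_102 s152_pm_102

theorem s154_pm_102 : ∃ t, chk3 f_pm_102 t 7 4 1 = true := ex3_b s153_pm_102 k77_pm_102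

theorem s155_pm_102 : ∃ t, chk3 f_pm_102 t 7 2 1 = true := ex3_b s154_pm_102 k78_pm_102

theorem s156_pm_102 : ∃ t, chk3 f_pm_102 t 3 2 1 = true := ex3_a k1_pm_102 s155_pm_102

theorem s157_pm_102 : ∃ t, chk3 f_pm_102 t 3 1 1 = true := ex3_b s156_pm_102 k79_pm_102

theorem s158_pm_102 : ∃ t, chk3 f_pm_102 t 1 1 1 = true := ex3_a k0_pm_102 s157_pm_102

theorem c_pm_102 : CertN 536870912 536870912 0 536870912 33554432 16777216 3 true true false .npp 1 0 2
    ndN0q1 ndN0q0 pcN2 cut_pm_102 Ext.none :=
  certNK1 (fam := true) (s1 := true) (s2 := false) (a := 1) (b := 0) (c := 2) (cn := .npp) (n1 := ndN0q1) (n2 := ndN0q0) (pc := pcN2) (cut := cut_pm_102) (xt := Ext.none) (P1 := 536870912) (W1 := 536870912) (P2 := 0) (W2 := 536870912) (P3 := 33554432) (W3 := 16777216) (N0 := 3)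
    rfl rfl rfl (fun _ => rfl) s158_pm_102

noncomputable def f_pm_112 : ℕ → ℕ → ℕ → ℕ → Bool := onCell 536870912 536870912 1073741824 536870912 33554432 16777216
    (rowNK 3 1 true true false .dn 1 1 2 (qsf 536870912 536870912 536870912 536870912 2) ndN0q1 ndN0q1 pcN2 Cut.none Ext.none)

def k0_pm_112 : ∃ t, chk3 f_pm_112 t 1 1 1 = true :=
  ⟨(a (b (b (b (l 3) (l 3)) (a (b (b (b (l 3) (b (l 3) (a (b (a (l 93583437159) (l 3)) (b (a (l 16843752) (l 16827504)) (a (l 16805536) (l 16800360)))) (b (l 3) (b (l 92509728119) (l 16842744)))))) (a (a (l 16928448) (l 16931192)) (b (l 16861096) (l 16855320)))) (a (b (l 17025656) (l 17031104)) (b (l 17042256) (l 16973896)))) (a (b (b (b (l 3) (b (a (l 3) (l 1)) (b (a (l 93583434599) (l 1)) (b (a (l 16843264) (l 1)) (a (l 16805688) (l 16803968)))))) (b (l 16941232) (l 16947112))) (b (l 17039256) (l 16952808))) (b (b (l 1) (l 142841817271)) (l 126198979863))))) (a (b (a (b (b (l 17001536) (l 16988088)) (l 17329432)) (b (b (l 16983392) (l 16987464)) (l 17122128))) (a (b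 (l 17505160) (l 17539320)) (b (l 17142392) (l 17272184)))) (b (a (b (l 17185256) (l 17196544)) (b (l 17185872) (l 17121616))) (a (b (l 17133328) (l 17158632)) (b (a (l 17048528) (l 17061432)) (a (l 17056912) (l 17013696))))))) (b (a (b (l 1) (b (l 1) (a (l 145526268007) (l 1)))) (l 1)) (a (b (a (b (l 17059912) (l 17128344)) (b (l 17322504) (l 17163208))) (a (b (l 17050712) (l 17137080)) (b (l 17228696) (l 17123440)))) (b (a (b (l 1) (l 17409880)) (l 1)) (a (b (l 17427136) (l 17385504)) (b (l 17604384) (l 17589520))))))), by decide +kernel⟩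

theorem c_pm_112 : CertN 536870912 536870912 536870912 536870912 33554432 16777216 3 true true false .dn 1 1 2
    ndN0q1 ndN0q1 pcN2 Cut.none Ext.none :=
  certNK1 (fam := true) (s1 := true) (s2 := false) (a := 1) (b := 1) (c := 2) (cn := .dn) (n1 := ndN0q1) (n2 := ndN0q1) (pc := pcN2) (cut := Cut.none) (xt := Ext.none) (P1 := 536870912) (W1 := 536870912) (P2 := 536870912) (W2 := 536870912) (P3 := 33554432) (W3 := 16777216) (N0 := 3)
    rfl rfl rfl (fun _ => rfl) k0_pm_112

noncomputable def cut_pm_113 : Cut := Cut.of [[⟨0, 1, 0, 7061502⟩, ⟨1, 1, 0, 7061502⟩, ⟨2, 2, 0, 184626⟩]]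

noncomputable def f_pm_113 : ℕ → ℕ → ℕ → ℕ → Bool := onCell 536870912 536870912 536870912 536870912 33554432 16777216
    (rowNK 3 0 true true false .nn 1 1 3 (qsf 536870912 536870912 536870912 536870912 3) ndN0q1 ndN0q1 pcN3 cut_pm_113 Ext.none)

def k0_pm_113 : ∃ t, chk3 f_pm_113 t 2 1 1 = true :=
  ⟨(b (a (l 1) (b (l 1) (a (l 1) (b (l 1) (l 17028208))))) (b (a (b (l 1) (a (l 1) (l 71440391559))) (b (a (l 17441920) (l 17246360)) (a (l 18025568) (b (l 17576904) (l 17869376))))) (a (b (b (a (l 1) (l 18296304)) (l 31712060487)) (a (b (l 17825512) (l 17569344)) (b (l 17744776) (l 17541736)))) (b (a (b (l 18268664) (l 18120904)) (b (l 18172416) (l 18430680))) (b (a (l 17702952) (b (l 17928480) (l 17649280))) (a (b (l 17313440) (l 17348600)) (b (l 17336336) (b (l 17082480) (l 17263080))))))))), by decide +kernel⟩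

def k1_pm_113 : ∃ t, chk3 f_pm_113 t 3 2 1 = true :=
  ⟨(a (b (a (l 1) (b (l 1) (l 71440391559))) (a (b (l 17441920) (l 17246360)) (b (l 18025568) (a (l 17576904) (l 17869376))))) (b (a (a (b (l 1) (l 18296304)) (l 31712060487)) (b (a (l 17825512) (l 17569344)) (a (l 17744776) (l 17541736)))) (a (b (a (l 18268664) (l 18120904)) (a (l 18172416) (l 18430680))) (a (b (l 17702952) (a (l 17928480) (l 17649280))) (b (a (l 17313440) (l 17348600)) (a (l 17336336) (a (l 17082480) (l 17263080)))))))), by decide +kernel⟩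

def k2_pm_113 : ∃ t, chk3 f_pm_113 t 6 3 1 = true :=
  ⟨(b (a (b (l 17138184) (b (l 17316368) (l 17609720))) (b (a (l 17316368) (l 17609720)) (a (l 17248768) (l 17286856)))) (b (a (b (l 17938344) (c (l 18209864) (l 18467568))) (b (l 17707248) (a (l 17935544) (l 17635864)))) (a (b (b (l 18156312) (l 17765432)) (b (l 17448416) (b (l 17113744) (l 17268304)))) (b (a (b (l 18068056) (l 17798048)) (b (l 17875824) (l 17981296))) (b (a (l 17397800) (l 17544648)) (b (l 17212328) (a (l 17087944) (l 17148816)))))))), by decide +kernel⟩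

def k3_pm_113 : ∃ t, chk3 f_pm_113 t 7 6 1 = true :=
  ⟨(a (b (a (l 17938344) (c (l 18209864) (l 18467568))) (a (l 17707248) (b (l 17935544) (l 17635864)))) (b (a (a (l 18156312) (l 17765432)) (a (l 17448416) (a (l 17113744) (l 17268304)))) (a (b (a (l 18068056) (l 17798048)) (a (l 17875824) (l 17981296))) (a (b (l 17397800) (l 17544648)) (a (l 17212328) (b (l 17087944) (l 17148816))))))), by decide +kernel⟩

def k4_pm_113 : ∃ t, chk3 f_pm_113 t 14 7 1 = true :=
  ⟨(a (b (b (l 16979864) (l 17379952)) (b (b (l 17539304) (c (l 17696344) (l 17860184))) (b (a (l 17473520) (b (l 17503416) (l 17252792))) (b (l 17037920) (l 17259512))))) (b (b (l 17379952) (l 17082704)) (b (a (l 17457976) (l 17314208)) (b (a (b (l 17477984) (l 17270960)) (b (l 17403392) (c (l 17283104) (l 17395312)))) (b (l 17221408) (b (l 16996536) (l 17285880))))))), by decide +kernel⟩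

def k5_pm_113 : ∃ t, chk3 f_pm_113 t 15 14 1 = true :=
  ⟨(b (a (a (l 17539304) (c (l 17696344) (l 17860184))) (a (b (l 17473520) (a (l 17503416) (l 17252792))) (a (l 17037920) (l 17259512)))) (a (b (l 17457976) (l 17314208)) (a (b (a (l 17477984) (l 17270960)) (a (l 17403392) (c (l 17283104) (l 17395312)))) (a (l 17221408) (a (l 16996536) (l 17285880)))))), by decide +kernel⟩

def k6_pm_113 : ∃ t, chk3 f_pm_113 t 30 15 1 = true :=
  ⟨(b (a (l 17122544) (l 17127528)) (b (b (l 17259240) (a (c (l 17278808) (l 17383632)) (a (l 17134888) (l 17032608)))) (b (a (a (l 17156784) (l 17308840)) (b (a (l 17170360) (l 17132112)) (l 17245672))) (b (a (l 16908304) (l 17027032)) (a (l 17121400) (l 17156224)))))), by decide +kernel⟩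

def k7_pm_113 : ∃ t, chk3 f_pm_113 t 31 15 1 = true :=
  ⟨(b (a (a (l 17259240) (b (c (l 17278808) (l 17383632)) (b (l 17134888) (l 17032608)))) (a (a (b (l 17221984) (b (l 17170360) (l 17132112))) (b (l 17030640) (l 17245672))) (a (b (l 16908304) (l 17027032)) (b (l 17121400) (l 17156224))))) (b (a (l 17015776) (a (a (l 17027800) (b (a (l 17068528) (l 17081760)) (l 17076056))) (a (b (l 17112368) (l 17132696)) (a (l 17020736) (l 17132696))))) (a (b (b (l 17027800) (a (b (l 17068528) (l 17081760)) (l 17076056))) (b (a (l 17112368) (l 17132696)) (b (l 17020736) (l 17132696)))) (b (a (l 16906952) (a (a (l 16904888) (b (l 16961976) (l 16938592))) (a (b (l 16955224) (l 16976776)) (b (l 16929720) (l 16997000))))) (a (b (b (l 16904888) (a (l 16961976) (l 16938592))) (b (a (l 16955224) (l 16976776)) (a (l 16929720) (l 16997000)))) (a (b (l 16852536) (b (l 16998296) (b (l 16973888) (l 16923192)))) (b (a (l 16998296) (a (l 16973888) (l 16923192))) (a (b (l 16825352) (b (l 16898272) (b (l 16875496) (l 16855704)))) (b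 (a (l 16898272) (a (l 16875496) (l 16855704))) (a (b (l 16801280) (b (l 16837752) (b (l 16826336) (l 16816528)))) (b (a (l 16837752) (a (l 16826336) (l 16816528))) (a (b (l 16799736) (b (l 16807488) (b (l 16801776) (l 16796888)))) (b (a (l 16807488) (a (l 16801776) (l 16796888))) (a (b (l 16788472) (b (l 16792352) (b (l 16789496) (l 16787056)))) (a (b (l 16792352) (b (l 16782848) (b (l 16784784) (b (l 16783352) (l 16782136))))) (a (b (l 16789496) (b (l 16784784) (b (l 16780032) (b (l 16781000) (l 6))))) (b (l 16787056) (a (b (l 16783352) (b (l 16781000) (l 6))) (b (l 16782136) (l 6)))))))))))))))))))), by decide +kernel⟩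

theorem s8_pm_113 : ∃ t, chk3 f_pm_113 t 15 15 1 = true := ex3_a k6_pm_113 k7_pm_113

theorem s9_pm_113 : ∃ t, chk3 f_pm_113 t 15 7 1 = true := ex3_b k5_pm_113 s8_pm_113

theorem s10_pm_113 : ∃ t, chk3 f_pm_113 t 7 7 1 = true := ex3_a k4_pm_113 s9_pm_113

theorem s11_pm_113 : ∃ t, chk3 f_pm_113 t 7 3 1 = true := ex3_b k3_pm_113 s10_pm_113

theorem s12_pm_113 : ∃ t, chk3 f_pm_113 t 3 3 1 = true := ex3_a k2_pm_113 s11_pm_113

theorem s13_pm_113 : ∃ t, chk3 f_pm_113 t 3 1 1 = true := ex3_b k1_pm_113 s12_pm_113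

theorem s14_pm_113 : ∃ t, chk3 f_pm_113 t 1 1 1 = true := ex3_a k0_pm_113 s13_pm_113

theorem c_pm_113 : CertN 536870912 536870912 536870912 536870912 33554432 16777216 3 true true false .nn 1 1 3
    ndN0q1 ndN0q1 pcN3 cut_pm_113 Ext.none :=
  certNK0 (fam := true) (s1 := true) (s2 := false) (a := 1) (b := 1) (c := 3) (cn := .nn) (n1 := ndN0q1) (n2 := ndN0q1) (pc := pcN3) (cut := cut_pm_113) (xt := Ext.none) (P1 := 536870912) (W1 := 536870912) (P2 := 536870912) (W2 := 536870912) (P3 := 33554432) (W3 := 16777216) (N0 := 3)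
    rfl rfl rfl s14_pm_113

end Pool.Agent.Strip051.G.I1_32_3_64.Tab.C.NA00

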