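import Pool.Agent.Strip051.G.I1_32_3_64.Tab
import Pool.Agent.Strip051.PB.RowK

/-! # Certificates N3 (generated) -/

set_option linter.all false
set_option maxRecDepth 100000

namespace Pool.Agent.Strip051.G.I1_32_3_64.Tab.C.NA00

open Pool.Agent.Strip051.PB Pool.Agent.Strip051.PB.T
open Pool.Agent.Strip051.G.I1_32_3_64.Tab

noncomputable def cut_pm_123 : Cut := Cut.of [[⟨0, 1, 0, 7061502⟩, ⟨1, 1, 0, 7061502⟩, ⟨2, 2, 0, 184626⟩]]

noncomputable def f_pm_123 : ℕ → ℕ → ℕ → ℕ → Bool := onCell 1610612736 536870912 0 536870912 33554432 16777216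
    (rowNK 3 2 true true false .npn 1 2 3 (qsf 536870912 536870912 0 536870912 3) ndN0q1 ndN0q2 pcN3 cut_pm_123 Ext.none)

def k0_pm_123 : ∃ t, chk3 f_pm_123 t 2 1 1 = true :=
  ⟨(b (a (b (l 1) (a (l 1) (l 17525648))) (b (a (b (a (l 17098512) (l 17036872)) (l 17218968)) (b (b (a (l 16885496) (a (l 16822672) (l 80765638647))) (a (l 16963264) (l 16876968))) (l 17010392))) (a (b (l 17284432) (l 17365792)) (b (l 17080976) (l 17160136))))) (a (b (a (l 1) (l 17520784)) (b (l 44058942487) (a (l 17555720) (l 17473016)))) (b (a (b (l 17393376) (l 17344936)) (b (l 17238440) (l 17215360))) (b (a (l 17218712) (l 17174056)) (a (b (l 17204160) (l 17356064)) (b (l 17151040) (l 17424224))))))), by decide +kernel⟩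

def k1_pm_123 : ∃ t, chk3 f_pm_123 t 6 1 1 = true :=
  ⟨(b (b (b (a (a (b (a (l 114588509879) (l 4)) (a (l 53385211735) (l 87208082759))) (b (l 4) (a (l 118346636023) (l 4)))) (l 4)) (b (a (a (l 16837384) (a (l 85597531527) (l 99019239191))) (a (a (l 116735990343) (l 4)) (l 4))) (a (l 17092776) (a (a (l 85597446055) (l 104387959303)) (l 4))))) (b (a (l 17083944) (a (l 16908280) (b (a (l 98482367831) (l 100629848439)) (a (l 16790520) (l 90429287959))))) (a (l 17008912) (a (l 16893000) (l 17001456))))) (b (a (b (l 17306104) (l 17278984)) (b (a (l 17096184) (l 17123504)) (a (l 17225112) (l 17297136)))) (b (a (l 17246112) (a (l 17150224) (l 17185320))) (a (b (l 17141320) (b (l 17103768) (l 17276712))) (b (l 17124360) (a (l 17217312) (l 17342544))))))), by decide +kernel⟩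

def k2_pm_123 : ∃ t, chk3 f_pm_123 t 14 1 1 = true :=
  ⟨(b (b (l 4) (a (b (a (b (l 4) (l 107072315751)) (l 4)) (b (a (l 16853320) (b (l 115125363879) (l 96871746775))) (l 16956640))) (b (l 4) (a (b (a (l 110293521911) (l 4)) (b (a (l 111367227063) (l 108682878295)) (l 84523742215))) (b (l 4) (a (b (l 4) (l 132305217239)) (l 4))))))) (b (b (a (b (a (l 16931496) (l 16864336)) (l 17022592)) (b (a (l 16854000) (a (l 81839414199) (b (a (l 132842078551) (l 107072270887)) (l 16822960)))) (a (l 16910800) (l 16891736)))) (a (b (l 17103600) (l 17165920)) (a (b (l 16995472) (l 17069984)) (b (l 16939480) (l 16985472))))) (b (a (l 17256728) (a (l 17198608) (l 17174040))) (b (a (l 16957848) (l 16987768)) (b (l 17208384) (a (l 17305872) (b (l 17083976) (a (l 17138272) (l 17098336))))))))), by decide +kernel⟩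

def k3_pm_123 : ∃ t, chk3 f_pm_123 t 15 2 1 = true :=
  ⟨(l 4), by decide +kernel⟩

def k4_pm_123 : ∃ t, chk3 f_pm_123 t 30 3 1 = true :=
  ⟨(b (b (a (b (a (b (l 4) (a (b (l 104387885111) (l 16811832)) (l 118346559175))) (l 4)) (a (l 82376298359) (a (l 91503034999) (b (l 121030917639) (l 16805976))))) (b (l 4) (a (b (l 4) (a (b (l 121030883719) (l 140895128263)) (l 124789044135))) (l 4)))) (a (b (a (l 16840912) (l 16825992)) (a (l 16920496) (l 16878360))) (b (a (b (l 78618126647) (l 16805256)) (b (a (b (l 115125335431) (a (l 16810608) (l 121567743591))) (l 4)) (a (l 16802256) (b (a (l 110830337959) (l 114588428871)) (l 16806552))))) (a (l 16839832) (l 16868408))))) (b (a (l 17140600) (a (l 16993896) (l 16986408))) (b (l 17026568) (b (a (l 16970576) (l 16909408)) (b (l 17031752) (a (b (l 17042752) (l 17055648)) (l 17164984))))))), by decide +kernel⟩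

def k5_pm_123 : ∃ t, chk3 f_pm_123 t 31 6 1 = true :=
  ⟨(a (b (l 4) (b (a (b (l 4) (a (b (l 4) (l 126399608807)) (l 4))) (l 4)) (a (b (a (l 99019185543) (b (l 129083972839) (a (l 135526392231) (l 123715245687)))) (l 79691864231)) (b (l 4) (a (b (a (l 121567755095) (l 4)) (a (l 16804776) (b (l 122104604263) (l 16807248)))) (b (l 4) (a (l 131231454983) (l 4)))))))) (l 4)), by decide +kernel⟩

def k6_pm_123 : ∃ t, chk3 f_pm_123 t 62 7 1 = true :=
  ⟨(b (b (a (l 16851216) (a (b (l 16803120) (l 16795704)) (b (b (a (b (l 118883395655) (l 16805872)) (l 131231440199)) (a (l 16782008) (b (l 116735909111) (l 16804904)))) (l 16804200)))) (a (l 16889648) (l 16885576))) (b (a (l 16854024) (l 16879976)) (b (l 16943024) (b (a (l 16907680) (l 16870504)) (b (l 16904424) (a (l 16953024) (l 16993680))))))), by decide +kernel⟩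

def k7_pm_123 : ∃ t, chk3 f_pm_123 t 126 7 1 = true :=
  ⟨(b (b (a (b (a (b (l 4) (b (l 4) (a (l 122641469447) (l 4)))) (l 4)) (a (b (b (a (l 16784192) (l 122641468455)) (l 16804240)) (l 16781344)) (b (b (l 4) (l 130694558583)) (a (l 16804072) (b (l 125325842967) (l 16783656)))))) (b (l 4) (a (b (l 4) (a (b (l 4) (l 128010187479)) (l 4))) (l 4)))) (a (b (l 16803056) (l 16791008)) (b (a (b (a (l 16793752) (b (l 130694543159) (l 16789152))) (l 16802936)) (b (a (b (l 4) (a (l 121030875047) (l 4))) (l 4)) (a (b (l 108145969287) (l 16782912)) (b (a (l 126399586151) (l 4)) (a (l 16794128) (b (l 114588403223) (l 16789352))))))) (b (a (l 16780448) (l 16792760)) (l 16802664))))) (b (b (a (l 16817032) (l 16808152)) (l 16872784)) (b (l 16853016) (a (l 17026968) (l 16973096))))), by decide +kernel⟩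

def k8_pm_123 : ∃ t, chk3 f_pm_123 t 127 14 1 = true :=
  ⟨(a (b (l 4) (b (a (b (l 4) (a (b (l 4) (a (l 129620803911) (l 4))) (l 4))) (l 4)) (a (b (a (b (a (l 107072227207) (b (l 4) (l 111904067303))) (l 16788392)) (b (l 4) (a (b (l 115662165463) (l 92039827479)) (b (l 4) (l 128010188167))))) (a (l 16782168) (b (a (l 16782968) (b (l 118883377479) (l 16783192))) (l 16782552)))) (b (l 4) (a (b (a (a (a (l 114588411863) (l 118346510231)) (l 4)) (l 4)) (a (l 89355473735) (a (b (l 124252078423) (l 16785984)) (b (l 4) (l 114051540199))))) (l 4)))))) (l 4)), by decide +kernel⟩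

def k9_pm_123 : ∃ t, chk3 f_pm_123 t 254 15 1 = true :=
  ⟨(b (b (a (l 16801856) (a (b (b (l 16786592) (l 16782080)) (l 16781296)) (b (b (a (a (b (l 111367184471) (l 16782840)) (b (l 4) (l 108682828935))) (l 4)) (a (l 16782496) (b (a (l 105461602743) (l 127473309191)) (l 87744858711)))) (l 16787152)))) (a (l 16804016) (l 16802512))) (b (b (l 16824992) (l 16813560)) (b (l 16823000) (l 16918200)))), by decide +kernel⟩

def k10_pm_123 : ∃ t, chk3 f_pm_123 t 510 15 1 = true :=
  ⟨(b (b (a (b (a (a (b (l 4) (b (l 4) (b (l 4) (l 122104602807)))) (l 4)) (l 4)) (b (b (a (a (l 87744856999) (b (l 4) (l 121030855127))) (l 4)) (a (l 86134244887) (a (b (l 4) (l 119957112839)) (l 4)))) (a (l 16782000) (a (b (l 85597372311) (l 16782040)) (b (a (b (l 4) (l 95797918631)) (l 4)) (l 85060501159)))))) (b (l 4) (a (a (a (b (l 4) (b (l 4) (b (l 4) (l 95261047735)))) (l 4)) (l 4)) (l 4)))) (a (b (b (l 16784256) (l 16802072)) (l 16801232)) (b (a (b (a (b (c (l 84523630279) (l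 84523630503)) (l 16781776)) (a (b (b (l 4) (l 95797918871)) (l 16784512)) (b (l 4) (l 86671114007)))) (l 16786720)) (b (a (a (b (l 4) (b (l 4) (l 96871661351))) (l 4)) (l 4)) (b (b (a (a (l 84523626615) (a (l 96871659367) (l 4))) (l 4)) (a (l 86671111399) (a (a (l 98482272487) (l 4)) (l 4)))) (a (l 16781504) (a (l 85060498999) (b (l 4) (l 95261046631))))))) (a (l 16791232) (a (l 16786184) (b (l 82913012871) (l 16780792))))))) (b (b (a (l 16801120) (l 16800680)) (l 16801552)) (b (l 16808712) (a (l 16851632) (l 16837672))))), by decide +kernel⟩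

def k11_pm_123 : ∃ t, chk3 f_pm_123 t 511 30 1 = true :=
  ⟨(a (a (b (l 4) (b (l 4) (b (a (b (a (a (l 85597368903) (b (l 100092885079) (l 85060496247))) (a (b (l 4) (l 97408529319)) (l 4))) (a (l 16781200) (b (l 86671110199) (l 16781184)))) (b (l 4) (a (a (b (a (l 99019141959) (l 4)) (l 85060495895)) (b (l 4) (a (l 88818593383) (l 99556012775)))) (l 4)))) (b (a (l 16781000) (a (l 16782384) (b (a (l 94187302663) (b (l 4) (l 99556012263))) (l 85060496359)))) (l 16783432))))) (b (l 4) (b (l 4) (b (l 4) (a (b (a (a (a (b (l 4) (l 97408528119)) (l 4)) (l 4)) (l 4)) (b (a (a (l 84523623815) (a (l 88281721463) (b (l 4) (l 96871655479)))) (l 4)) (a (l 16780856) (a (b (l 97408527335) (l 86134236247)) (a (b (l 4) (l 99556010279)) (l 4)))))) (l 4)))))) (l 4)), by decide +kernel⟩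

def k12_pm_123 : ∃ t, chk3 f_pm_123 t 1022 31 1 = true :=
  ⟨(a (b (b (l 16785472) (l 16800968)) (b (l 16803288) (l 16819328))) (b (b (b (a (a (l 16780576) (a (l 16780600) (b (c (l 85597366567) (b (l 86671108295) (l 16780696))) (l 16780504)))) (a (b (b (a (a (b (l 4) (l 96334784039)) (l 4)) (l 4)) (a (l 85597365495) (b (l 4) (a (l 87207977623) (l 99556010023))))) (l 83986752439)) (b (l 4) (b (a (a (b (l 98482267767) (l 16781280)) (b (l 4) (l 97408525639))) (l 4)) (a (l 16781816) (b (a (l 96334783543) (l 4)) (l 93650428887))))))) (a (l 16780136) (a (l 16780200) (b (l 16781648) (l 16780112))))) (b (l 16784928) (l 16790136))) (b (l 16800496) (c (l 16801856) (l 16805936))))), by decide +kernel⟩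

def k13_pm_123 : ∃ t, chk3 f_pm_123 t 1023 124 1 = true :=
  ⟨(b (b (l 4) (l 4)) (a (b (a (b (a (a (a (l 86134235735) (b (a (l 101166621783) (l 4)) (l 87744847991))) (a (a (b (l 4) (l 100092879703)) (l 4)) (l 4))) (l 4)) (b (a (a (l 16780320) (a (l 87207976919) (b (l 4) (l 99019137607)))) (l 4)) (a (a (l 16780272) (l 86134234871)) (b (l 4) (a (a (l 99019137431) (l 4)) (l 4)))))) (l 4)) (a (a (l 16780144) (b (b (a (a (l 86671105575) (b (l 4) (c (l 98482266151) (l 99556008071)))) (l 4)) (a (l 86134234647) (a (a (b (l 4) (l 96871652599)) (l 4)) (l 4)))) (a (l 16780104) (b (a (l 86134234343) (a (b (l 4) (l 96334781575)) (l 4))) (l 85597363527))))) (b (l 4) (b (l 4) (b (l 4) (a (a (a (a (l 96871652407) (l 4)) (l 4)) (l 4)) (l 4))))))) (l 4))), by decide +kernel⟩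

def k14_pm_123 : ∃ t, chk3 f_pm_123 t 2046 125 1 = true :=
  ⟨(a (a (l 16782200) (b (a (l 16779832) (l 16780496)) (l 16779360))) (a (b (b (b (a (a (l 85597363383) (b (a (b (l 4) (l 97408523255)) (l 4)) (l 86671105079))) (a (a (b (l 4) (b (l 4) (l 98482265047))) (l 4)) (l 4))) (a (l 16779896) (a (a (l 16780568) (a (l 85597362743) (b (l 89892330503) (l 16779880)))) (a (b (b (l 4) (l 99556006887)) (l 16780560)) (b (l 4) (b (c (l 99019135959) (l 100629748775)) (l 16780256))))))) (c (l 16780376) (l 16780416))) (l 16782016)) (a (b (b (b (l 4) (a (a (a (b (l 4) (b (l 4) (l 99556006535))) (l 4)) (l 4)) (l 4))) (b (a (b (a (l 86671104167) (a (l 89355459303) (b (l 4) (l 93113555111)))) (l 16779776)) (b (a (a (b (l 4) (l 102240361191)) (l 4)) (l 4)) (a (l 87207975223) (b (l 4) (l 96871651783))))) (l 16780352))) (l 16780728)) (b (b (l 4) (b (l 4) (b (a (a (a (l 87207974903) (b (l 101166619143) (l 16779744))) (a (b (l 4) (l 99019134983)) (l 4))) (l 4)) (a (l 85060491063)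 (b (b (l 4) (a (l 100629747991) (l 4))) (a (l 87744845719) (a (c (l 102240360615) (l 104924715239)) (l 4)))))))) (b (a (l 16779536) (a (l 16779536) (a (l 83986748935) (b (b (l 87744845847) (l 16779560)) (l 16779480))))) (l 16779312)))))), by decide +kernel⟩

def k15_pm_123 : ∃ t, chk3 f_pm_123 t 2047 125 1 = true :=
  ⟨(a (a (b (l 4) (b (a (a (b (b (a (b (l 4) (a (l 88281716343) (c (l 101166618567) (l 103314102295)))) (l 4)) (a (l 16779576) (a (l 87207974711) (b (l 4) (l 88818586951))))) (l 16779480)) (b (a (a (b (l 4) (b (l 4) (a (l 92039812791) (l 103314102183)))) (l 4)) (l 4)) (b (a (l 86134232807) (a (b (a (l 102777231207) (l 4)) (l 16779872)) (b (l 4) (b (l 4) (l 99019134263))))) (l 16779456)))) (b (l 4) (b (l 4) (a (a (a (l 87207974375) (b (b (l 4) (l 102777230903)) (l 87744844887))) (a (b (l 4) (b (l 4) (l 99556005063))) (l 4))) (l 4))))) (b (a (l 16779368) (b (a (a (l 16779400) (a (l 16779408) (a (l 86134232135) (l 87744845207)))) (a (a (b (b (l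 4) (l 103314101751)) (l 88281715703)) (b (l 4) (b (l 4) (l 100629746823)))) (l 4))) (a (l 16779344) (a (l 16779680) (b (a (b (l 102240359751) (l 16779736)) (l 4)) (l 87207973927)))))) (a (l 16779256) (l 16779592))))) (b (l 4) (b (l 4) (a (a (a (b (b (l 4) (b (l 4) (a (b (l 4) (l 100629746887)) (l 4)))) (b (a (l 16779640) (a (l 87744844791) (b (b (l 4) (l 101703488391)) (l 16779280)))) (l 16779232))) (b (l 4) (b (b (l 4) (a (a (l 89355457223) (l 90966070391)) (a (b (l 4) (l 103850972055)) (l 4)))) (l 85597360951)))) (a (b (l 4) (b (l 4) (b (a (b (l 4) (l 100092875767)) (l 4)) (a (l 16779568) (a (l 90429199207) (b (l 4) (l 101166617303))))))) (l 4))) (l 4))))) (l 4)), by decide +kernel⟩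

def k16_pm_123 : ∃ t, chk3 f_pm_123 t 2046 63 1 = true :=
  ⟨(b (a (l 16789552) (b (l 16784096) (l 16789064))) (b (l 16790920) (c (l 16795568) (a (l 16801400) (l 16792592))))), by decide +kernel⟩

def k17_pm_123 : ∃ t, chk3 f_pm_123 t 4094 126 2 = true :=
  ⟨(a (b (b (l 16780384) (l 16784072)) (l 16783968)) (a (b (b (b (b (a (l 16779168) (a (l 16779168) (a (l 86671102887) (b (b (l 4) (l 102240359495)) (l 87744844423))))) (l 16779760)) (l 16779024)) (l 16778848)) (l 16783944)) (b (b (a (b (b (b (l 4) (b (l 4) (a (a (l 99556004711) (l 4)) (l 4)))) (b (a (a (l 16779480) (b (l 4) (l 97945391703))) (l 4)) (a (l 16779104) (a (b (l 101166617431) (l 91502940519)) (l 4))))) (a (l 16779024) (a (l 16779024) (b (b (l 91502940807) (l 16779040)) (l 16779000))))) (a (b (l 4) (b (b (a (a (b (l 4) (l 104387842503)) (l 4)) (l 4)) (a (l 87744844215) (a (b (l 4) (l 101166616839)) (l 4)))) (l 84523618647))) (b (l 4) (b (l 4) (b (a (b (l 4) (l 99019133463)) (l 4)) (a (l 16779336)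 (a (l 90966069687) (b (l 4) (l 103850971399))))))))) (a (l 16778856) (a (l 16778856) (b (l 16779240) (l 16778792))))) (l 16781112)))), by decide +kernel⟩

def k18_pm_123 : ∃ t, chk3 f_pm_123 t 16380 126 2 = true :=
  ⟨(b (b (l 4) (b (a (b (a (b (a (a (l 89355456743) (b (l 4) (l 101703487591))) (l 4)) (a (l 16778928) (a (l 88818585639) (b (l 4) (l 92039811047))))) (l 4)) (a (l 16778880) (b (a (a (l 87207972807) (b (l 4) (l 90966069127))) (l 4)) (a (l 16778864) (a (l 16779144) (b (l 103850971351) (l 16779072))))))) (a (a (a (b (l 4) (b (l 4) (b (l 4) (l 102777229479)))) (l 4)) (l 4)) (l 4))) (a (l 16779120) (a (b (a (a (l 16779168) (b (b (l 102777229415) (l 16779192)) (l 16778808))) (a (b (b (l 4) (l 102240358455)) (l 16779160)) (b (l 4) (b (l 101703487511) (l 16778832))))) (l 16778768)) (b (a (a (b (l 4) (b (l 4) (l 101166616551))) (l 4)) (l 4)) (a (a (l 16779104) (b (b (l 101166616519) (l 16778792)) (l 16778752))) (a (b (b (l 4) (c (l 100092874647) (l 101166616487)))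 (l 16779096)) (b (l 4) (b (a (l 90966068935) (l 4)) (l 16778768)))))))))) (b (a (l 16778616) (b (l 16779008) (l 16778560))) (l 16780992))), by decide +kernel⟩

def k19_pm_123 : ∃ t, chk3 f_pm_123 t 16381 126 2 = true :=
  ⟨(a (a (a (b (b (l 4) (b (l 4) (a (a (b (l 4) (b (l 4) (b (l 4) (l 90966068903)))) (l 4)) (l 4)))) (b (b (b (a (l 16779040) (a (l 85060488823) (b (b (l 4) (l 16779072)) (l 16778688)))) (l 16778648)) (l 16778560)) (l 16778376))) (b (l 4) (b (b (b (b (a (a (b (l 4) (l 100092874359)) (l 4)) (l 4)) (a (l 16779040) (a (l 89355456007) (b (l 4) (l 16778888))))) (l 16778648)) (l 16778560)) (l 16778376)))) (b (l 4) (b (b (b (a (a (a (b (l 4) (b (l 4) (l 100629745255))) (l 4)) (l 4)) (l 4)) (b (a (a (l 16778936) (a (l 88281714231) (b (l 4) (l 90966068567)))) (a (a (b (l 4) (l 102240357975)) (l 4)) (l 4))) (a (l 16778632) (a (l 85597359431) (b (a (c (l 101703487063) (l 103314099815)) (l 4)) (l 91502939495)))))) (l 16778888)) (l 16778384)))) (b (l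 4) (b (b (b (l 4) (l 4)) (b (a (b (a (a (l 86134230391) (b (l 4) (l 92576681319))) (l 4)) (a (l 16778576) (b (a (a (l 88281713847) (a (l 101703486775) (l 4))) (l 4)) (a (l 16778576) (a (l 92039810247) (a (l 103850970455) (l 4))))))) (l 4)) (a (l 81302391959) (b (a (a (a (l 87207972039) (b (l 4) (l 16778744))) (a (b (l 4) (a (l 105461582951) (l 4))) (l 4))) (l 4)) (a (l 83449875527) (a (b (a (a (l 103314099431) (l 4)) (l 4)) (c (l 91502939271) (l 92039810199))) (l 4))))))) (a (l 16779040) (l 6))))), by decide +kernel⟩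

def k20_pm_123 : ∃ t, chk3 f_pm_123 t 8191 126 2 = true :=
  ⟨(b (l 4) (b (l 4) (l 6))), by decide +kernel⟩

def k21_pm_123 : ∃ t, chk3 f_pm_123 t 4094 126 3 = true :=
  ⟨(a (b (b (l 16780416) (l 16781480)) (l 16784008)) (b (b (a (b (b (a (l 16779192) (a (l 16779192) (b (a (b (l 102240359287) (l 16779560)) (a (b (l 4) (l 108682810071)) (l 4))) (l 86134231783)))) (l 16779464)) (l 16779048)) (a (a (b (b (a (a (b (l 4) (b (l 4) (l 102777229815))) (l 4)) (l 4)) (a (l 85060489671) (b (b (l 4) (l 100092875399)) (l 16779136)))) (l 16779048)) (b (b (l 4) (b (l 4) (a (a (l 89355457047) (b (l 4) (l 102240358791))) (l 4)))) (a (l 16779048) (a (l 83449876903) (b (b (b (l 4) (l 16779456)) (l 16779064)) (l 16779024)))))) (b (l 4) (b (a (a (a (b (b (l 4) (l 108682809847)) (l 16779080)) (b (l 4) (l 89892327879))) (a (b (l 4) (b (l 4) (l 104387842359))) (l 4))) (l 4)) (b (a (l 85060489559) (a (a (b (l 4) (l 93113553063)) (l 4)) (l 4))) (a (l 16779008) (a (l 86671101991)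 (a (b (c (l 107609067895) (l 110830293383)) (l 16779360)) (b (l 4) (l 108682809639)))))))))) (a (l 16778872) (a (l 16778880) (a (l 16778880) (b (l 82913005575) (l 16778816)))))) (a (l 16781352) (l 16779824)))), by decide +kernel⟩

def k22_pm_123 : ∃ t, chk3 f_pm_123 t 4095 252 3 = true :=
  ⟨(a (a (b (l 4) (b (a (a (b (b (a (a (b (l 105998455015) (l 16778984)) (b (l 4) (l 104924713111))) (l 4)) (a (l 16778952) (a (l 89355456599) (b (l 4) (l 93650423831))))) (l 16778904)) (b (l 4) (b (a (a (l 87207972855) (b (l 4) (l 92576681895))) (l 4)) (b (a (l 16778896) (a (l 92039810935) (a (l 105998454855) (l 4)))) (l 84523618167))))) (a (a (a (a (b (l 4) (b (l 4) (b (l 4) (l 104387842071)))) (l 4)) (l 4)) (l 4)) (l 4))) (a (l 16779144) (a (b (a (b (a (l 86134230775) (a (l 89355456439) (b (l 4) (l 16779064)))) (l 16778832)) (b (a (a (b (l 4) (l 103314100135)) (l 4)) (l 4)) (a (l 16779016) (a (l 88281714535) (b (l 4) (l 16779024)))))) (l 16778784)) (a (b (a (a (b (l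 4) (b (l 4) (l 101703487319))) (l 4)) (l 4)) (b (a (l 16779144) (a (l 87744843543) (b (l 4) (l 16778824)))) (l 16778776))) (b (l 4) (b (a (a (b (l 4) (l 101703487239)) (l 4)) (l 4)) (a (l 16778952) (b (a (l 101703487207) (l 4)) (l 16778952)))))))))) (b (l 4) (b (l 4) (a (a (a (a (a (b (l 4) (b (l 4) (b (l 4) (l 92576681671)))) (l 4)) (l 4)) (l 4)) (l 4)) (l 4))))) (l 4)), by decide +kernel⟩

def k23_pm_123 : ∃ t, chk3 f_pm_123 t 4095 253 3 = true :=
  ⟨(b (b (b (a (a (a (l 16778728) (l 16779056)) (a (a (b (a (a (l 16778920) (a (l 87207972519) (b (l 4) (l 16778928)))) (a (a (b (l 4) (l 102240358055)) (l 4)) (l 4))) (b (a (l 16778720) (a (l 16778912) (a (l 102240358039) (l 4)))) (l 83986746791))) (a (a (a (b (l 4) (b (l 4) (a (l 102240357799) (l 4)))) (l 4)) (l 4)) (l 4))) (l 4))) (l 4)) (a (a (l 16779328) (a (a (l 16778672) (a (b (b (a (l 88281714023) (a (a (l 103314099623) (l 4)) (l 4))) (l 85060488599)) (l 16778656)) (a (b (a (a (b (l 4) (l 114051517863))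 (l 4)) (l 4)) (l 85597359463)) (b (l 4) (b (a (a (l 108145937911) (l 4)) (l 4)) (l 92576681367)))))) (l 4))) (l 4))) (b (a (a (l 16779920) (a (a (l 16778608) (l 16778608)) (a (b (a (b (a (a (l 16778816) (a (l 98482261223) (l 107072195991))) (l 4)) (a (l 16778616) (a (l 91502939271) (a (l 100092873975) (l 4))))) (l 4)) (a (l 16778592) (b (a (a (l 89355455703) (a (l 106535325015) (l 4))) (l 4)) (a (l 16778592) (a (l 94187293927) (b (l 4) (l 112977775863))))))) (l 4)))) (l 4)) (a (a (l 16779856) (a (l 16778552) (a (a (l 16778544) (l 80228650087)) (a (a (b (b (a (b (l 4) (l 16778776)) (l 4)) (l 85597359175)) (l 16778528)) (b (a (a (b (l 4) (l 93650422999)) (l 4)) (l 4)) (b (l 85060488359) (l 16778520)))) (b (l 4) (a (a (b (b (l 4) (l 113514646647)) (l 16778704)) (b (l 4) (b (l 4) (l 16778728)))) (l 4))))))) (l 4)))) (a (a (l 16779704) (a (l 16779056) (a (l 16779056) (l 6)))) (l 6))), by decide +kernel⟩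

def k24_pm_123 : ∃ t, chk3 f_pm_123 t 2047 127 1 = true :=
  ⟨(a (b (a (l 16789472) (l 16783280)) (b (l 16784480) (a (l 16789416) (a (l 16786424) (l 16784872))))) (a (b (a (b (l 16780888) (l 16783336)) (a (b (l 16780752) (l 16780496)) (l 6))) (b (l 16780872) (b (l 16780992) (c (l 16781904) (l 16781784))))) (l 6))), by decide +kernel⟩

theorem s25_pm_123 : ∃ t, chk3 f_pm_123 t 4095 126 3 = true := ex3_b k22_pm_123 k23_pm_123

theorem s26_pm_123 : ∃ t, chk3 f_pm_123 t 2047 126 3 = true := ex3_a k21_pm_123 s25_pm_123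

theorem s27_pm_123 : ∃ t, chk3 f_pm_123 t 8190 126 2 = true := ex3_a k18_pm_123 k19_pm_123

theorem s28_pm_123 : ∃ t, chk3 f_pm_123 t 4095 126 2 = true := ex3_a s27_pm_123 k20_pm_123

theorem s29_pm_123 : ∃ t, chk3 f_pm_123 t 2047 126 2 = true := ex3_a k17_pm_123 s28_pm_123

theorem s30_pm_123 : ∃ t, chk3 f_pm_123 t 2047 126 1 = true := ex3_c s29_pm_123 s26_pm_123

theorem s31_pm_123 : ∃ t, chk3 f_pm_123 t 2047 63 1 = true := ex3_b s30_pm_123 k24_pm_123

theorem s32_pm_123 : ∃ t, chk3 f_pm_123 t 1023 63 1 = true := ex3_a k16_pm_123 s31_pm_123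

theorem s33_pm_123 : ∃ t, chk3 f_pm_123 t 1023 125 1 = true := ex3_a k14_pm_123 k15_pm_123

theorem s34_pm_123 : ∃ t, chk3 f_pm_123 t 1023 62 1 = true := ex3_b k13_pm_123 s33_pm_123

theorem s35_pm_123 : ∃ t, chk3 f_pm_123 t 1023 31 1 = true := ex3_b s34_pm_123 s32_pm_123

theorem s36_pm_123 : ∃ t, chk3 f_pm_123 t 511 31 1 = true := ex3_a k12_pm_123 s35_pm_123

theorem s37_pm_123 : ∃ t, chk3 f_pm_123 t 511 15 1 = true := ex3_b k11_pm_123 s36_pm_123

theorem s38_pm_123 : ∃ t, chk3 f_pm_123 t 255 15 1 = true := ex3_a k10_pm_123 s37_pm_123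

theorem s39_pm_123 : ∃ t, chk3 f_pm_123 t 127 15 1 = true := ex3_a k9_pm_123 s38_pm_123

theorem s40_pm_123 : ∃ t, chk3 f_pm_123 t 127 7 1 = true := ex3_b k8_pm_123 s39_pm_123

theorem s41_pm_123 : ∃ t, chk3 f_pm_123 t 63 7 1 = true := ex3_a k7_pm_123 s40_pm_123

theorem s42_pm_123 : ∃ t, chk3 f_pm_123 t 31 7 1 = true := ex3_a k6_pm_123 s41_pm_123

theorem s43_pm_123 : ∃ t, chk3 f_pm_123 t 31 3 1 = true := ex3_b k5_pm_123 s42_pm_123

theorem s44_pm_123 : ∃ t, chk3 f_pm_123 t 15 3 1 = true := ex3_a k4_pm_123 s43_pm_123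

theorem s45_pm_123 : ∃ t, chk3 f_pm_123 t 15 1 1 = true := ex3_b k3_pm_123 s44_pm_123

theorem s46_pm_123 : ∃ t, chk3 f_pm_123 t 7 1 1 = true := ex3_a k2_pm_123 s45_pm_123

theorem s47_pm_123 : ∃ t, chk3 f_pm_123 t 3 1 1 = true := ex3_a k1_pm_123 s46_pm_123

theorem s48_pm_123 : ∃ t, chk3 f_pm_123 t 1 1 1 = true := ex3_a k0_pm_123 s47_pm_123

theorem c_pm_123 : CertN 536870912 536870912 0 536870912 33554432 16777216 3 true true false .npn 1 2 3
    ndN0q1 ndN0q2 pcN3 cut_pm_123 Ext.none :=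
  certNK2 (fam := true) (s1 := true) (s2 := false) (a := 1) (b := 2) (c := 3) (cn := .npn) (n1 := ndN0q1) (n2 := ndN0q2) (pc := pcN3) (cut := cut_pm_123) (xt := Ext.none) (P1 := 536870912) (W1 := 536870912) (P2 := 0) (W2 := 536870912) (P3 := 33554432) (W3 := 16777216) (N0 := 3)
    rfl rfl rfl (fun _ => rfl) s48_pm_123

noncomputable def cut_pm_202 : Cut := Cut.of [[⟨0, 1, 0, 33554432⟩, ⟨1, 0, 0, 33554432⟩, ⟨2, 1, 0, 33554432⟩], [⟨0, 1, 0, 6291456⟩, ⟨1, 0, 1, 16777216⟩, ⟨2, 1, 1, 16777216⟩, ⟨1, 0, 0, 67108864⟩, ⟨1, 1, 0, 1056964608⟩, ⟨2, 1, 0, 67108864⟩, ⟨2, 2, 0, 1056964608⟩]]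

noncomputable def f_pm_202 : ℕ → ℕ → ℕ → ℕ → Bool := onCell 0 536870912 0 536870912 33554432 16777216
    (rowNK 3 0 true true false .pp 2 0 2 (qsf 0 536870912 0 536870912 2) ndN0q2 ndN0q0 pcN2 cut_pm_202 Ext.none)

def k0_pm_202 : ∃ t, chk3 f_pm_202 t 2 1 1 = true :=
  ⟨(b (b (b (a (l 19152696) (l 19200960)) (a (l 18591648) (l 18566328))) (a (b (l 18143736) (l 17723560)) (b (l 18161472) (l 17763952)))) (b (a (l 1712788903) (b (l 17405264) (l 17168288))) (a (l 2) (b (l 17079800) (l 2))))), by decide +kernel⟩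

def k1_pm_202 : ∃ t, chk3 f_pm_202 t 6 8 1 = true :=
  ⟨(a (l 19155672) (b (a (l 18924432) (b (l 18743064) (l 18757320))) (l 18750464))), by decide +kernel⟩

def k2_pm_202 : ∃ t, chk3 f_pm_202 t 14 8 1 = true :=
  ⟨(b (a (b (a (l 18504280) (b (c (l 18445824) (l 17852776)) (l 18341496))) (l 18531384)) (b (a (b (b (c (l 18069824) (a (l 17596512) (l 17178048))) (c (l 18184448) (l 17526688))) (c (l 18307840) (l 17787336))) (b (b (c (a (l 17613424) (a (l 17350416) (l 17076056))) (l 16725608)) (c (a (l 17890800) (l 17538040)) (a (l 17188992) (l 16887216)))) (c (a (l 18076008) (l 17885288)) (a (l 17382104) (b (l 17134592) (l 17432704)))))) (a (l 18273016) (c (l 18229672) (b (l 17527960) (l 17919992)))))) (a (l 18575392) (b (l 18318064) (l 18386840)))), by decide +kernel⟩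

def k3_pm_202 : ∃ t, chk3 f_pm_202 t 30 8 1 = true :=
  ⟨(a (a (b (b (b (b (l 16730160) (c (c (l 17412064) (l 16928584)) (l 16719816))) (c (b (l 17418448) (l 17737512)) (b (l 16855056) (l 17078128)))) (b (c (l 17926024) (b (l 17374552) (l 17527392))) (l 17898768))) (l 17979104)) (b (b (b (b (b (l 16730432) (l 16727976)) (l 16729432)) (b (l 16748136) (c (l 17275960) (l 16820928)))) (b (c (l 17582984) (b (l 16999120) (l 17294080))) (l 17486784))) (b (l 17974568) (l 18143416)))) (b (b (b (a (b (b (l 16738008) (l 16735440)) (a (l 16727672) (l 16732736))) (b (l 6) (b (l 6) (l 16735216)))) (b (a (l 16728712) (a (l 16748056) (l 16733576))) (a (a (l 16835736) (l 16755216)) (a (l 16742296) (l 16744752))))) (b (a (c (b (a (l 17472848) (l 17228856)) (l 17578104)) (b (l 16785600) (l 16898024))) (b (a (l 16810432) (l 16738872)) (c (a (l 17370176) (l 17104912)) (l 16750032)))) (c (a (l 17771136) (b (l 17391904) (l 17634104))) (a (b (l 17170592) (l 17406424)) (b (l 16817440)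 (l 17025568)))))) (b (b (c (l 17871360) (a (l 17584272) (l 17179328))) (l 17699968)) (l 18005184)))), by decide +kernel⟩

def k4_pm_202 : ∃ t, chk3 f_pm_202 t 31 16 1 = true :=
  ⟨(b (a (a (b (l 6) (b (a (b (l 6) (l 16751856)) (l 6)) (a (l 16730320) (a (b (l 6) (a (l 16747536) (l 16748792))) (b (l 6) (l 16751464)))))) (l 6)) (l 6)) (b (a (a (a (b (a (l 16740736) (b (l 16743512) (l 16742624))) (l 16785752)) (b (l 16731392) (l 16746760))) (a (b (a (l 16753776) (l 16757304)) (b (l 16754304) (l 16753488))) (b (a (l 16750320) (l 6)) (l 16743896)))) (a (a (b (l 6) (a (l 16755648) (l 16751200))) (l 6)) (l 6))) (b (a (a (a (c (l 17204120) (l 16792864)) (l 16798112)) (a (l 16742384) (a (l 16736624) (l 16740128)))) (a (a (a (l 16743600) (l 16747040)) (a (l 16753064) (l 16756424))) (a (a (c (l 16759880) (l 16759608)) (l 6)) (l 6)))) (a (a (c (l 17184208) (l 16726824)) (a (c (l 17038400) (l 16737864)) (l 16753816))) (a (a (a (l 16742072) (l 16745528)) (a (l 16748944)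 (l 16754936))) (a (a (l 16758272) (a (l 16758128) (l 16761072))) (a (a (l 16763344) (a (l 16763896) (l 16764696))) (b (l 6) (c (l 14) (a (l 16765368) (b (l 6) (c (l 14) (a (l 16764976) (b (l 6) (c (l 14) (c (l 14) (a (l 16765408) (a (l 16765696) (a (l 16765848) (l 16765944)))))))))))))))))))), by decide +kernel⟩

def k5_pm_202 : ∃ t, chk3 f_pm_202 t 31 17 1 = true :=
  ⟨(b (a (b (a (c (l 17486544) (b (a (l 17188336) (l 17011808)) (l 17178184))) (a (c (l 17293072) (a (l 16864048) (l 16805768))) (c (b (l 17105424) (l 17420176)) (b (l 16802960) (l 16889432))))) (c (a (l 17797464) (l 17635256)) (a (l 17378120) (b (a (l 17270264) (l 17108776)) (l 17303872))))) (b (b (a (a (b (l 16779368) (c (l 17065080) (l 16743384))) (a (l 16770664) (l 16750856))) (c (l 14) (b (b (a (l 16758848) (a (l 16762424) (a (l 16763520) (c (l 14) (a (l 16764616) (c (l 14) (a (l 16765160) (a (l 16765456) (b (b (l 16765784) (l 14)) (l 14)))))))))) (l 14)) (l 14)))) (a (a (c (l 17184168)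 (l 16770752)) (c (c (l 17297928) (a (l 17097096) (l 16951976))) (l 16750624))) (l 14))) (a (a (c (l 17478712) (b (l 16878784) (l 17146040))) (a (c (l 17385136) (b (l 16881024) (l 17073512))) (c (l 17251040) (b (l 16803968) (l 16960760))))) (c (a (c (l 17306944) (b (l 14) (l 17273848))) (b (l 14) (c (l 17347552) (l 14)))) (l 14))))) (a (a (l 17842648) (b (l 17498592) (l 17779280))) (a (b (c (l 17644032) (a (l 17358952) (l 17108064))) (l 17609184)) (b (c (a (l 17520136) (b (l 17337032) (l 17480264))) (a (c (l 17203560) (b (l 14) (l 17191432))) (b (l 14) (c (l 17254864) (l 14))))) (c (l 17642792) (a (l 17411840) (b (l 17224696) (l 17380936)))))))), by decide +kernel⟩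

def k6_pm_202 : ∃ t, chk3 f_pm_202 t 3 9 1 = true :=
  ⟨(a (l 18594920) (a (l 18619520) (a (b (l 18224912) (l 18269928)) (b (a (l 18024592) (b (a (l 17818728) (b (l 17523736) (l 17757432))) (l 17919072))) (l 18100648))))), by decide +kernel⟩

def k7_pm_202 : ∃ t, chk3 f_pm_202 t 3 5 1 = true :=
  ⟨(a (b (l 18239336) (l 17903584)) (b (a (l 18284472) (l 18186856)) (l 18140008))), by decide +kernel⟩

def k8_pm_202 : ∃ t, chk3 f_pm_202 t 3 3 1 = true :=
  ⟨(b (a (l 17505616) (b (l 17808648) (l 17612232))) (a (l 17311384) (l 17558096))), by decide +kernel⟩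

theorem s9_pm_202 : ∃ t, chk3 f_pm_202 t 31 8 1 = true := ex3_b k4_pm_202 k5_pm_202

theorem s10_pm_202 : ∃ t, chk3 f_pm_202 t 15 8 1 = true := ex3_a k3_pm_202 s9_pm_202

theorem s11_pm_202 : ∃ t, chk3 f_pm_202 t 7 8 1 = true := ex3_a k2_pm_202 s10_pm_202

theorem s12_pm_202 : ∃ t, chk3 f_pm_202 t 3 8 1 = true := ex3_a k1_pm_202 s11_pm_202

theorem s13_pm_202 : ∃ t, chk3 f_pm_202 t 3 4 1 = true := ex3_b s12_pm_202 k6_pm_202

theorem s14_pm_202 : ∃ t, chk3 f_pm_202 t 3 2 1 = true := ex3_b s13_pm_202 k7_pm_202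

theorem s15_pm_202 : ∃ t, chk3 f_pm_202 t 3 1 1 = true := ex3_b s14_pm_202 k8_pm_202

theorem s16_pm_202 : ∃ t, chk3 f_pm_202 t 1 1 1 = true := ex3_a k0_pm_202 s15_pm_202

theorem c_pm_202 : CertN 0 536870912 0 536870912 33554432 16777216 3 true true false .pp 2 0 2
    ndN0q2 ndN0q0 pcN2 cut_pm_202 Ext.none :=
  certNK0 (fam := true) (s1 := true) (s2 := false) (a := 2) (b := 0) (c := 2) (cn := .pp) (n1 := ndN0q2) (n2 := ndN0q0) (pc := pcN2) (cut := cut_pm_202) (xt := Ext.none) (P1 := 0) (W1 := 536870912) (P2 := 0) (W2 := 536870912) (P3 := 33554432) (W3 := 16777216) (N0 := 3)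
    rfl rfl rfl s16_pm_202

noncomputable def f_pm_203 : ℕ → ℕ → ℕ → ℕ → Bool := onCell 0 536870912 0 536870912 33554432 16777216
    (rowNK 3 0 true true false .up 2 0 3 (qsf 0 536870912 0 536870912 3) ndN0q2 ndN0q0 pcN3 Cut.none Ext.none)

def k0_pm_203 : ∃ t, chk3 f_pm_203 t 1 1 1 = true :=
  ⟨(b (l 1) (a (b (b (l 1) (a (l 17396336) (l 17547936))) (a (b (l 17290272) (a (l 17135200) (l 17290552))) (b (l 17483024) (l 17470248)))) (a (b (l 1) (l 17658160)) (b (l 1) (a (l 17595856) (b (l 1) (l 17508776))))))), by decide +kernel⟩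

theorem c_pm_203 : CertN 0 536870912 0 536870912 33554432 16777216 3 true true false .up 2 0 3
    ndN0q2 ndN0q0 pcN3 Cut.none Ext.none :=
  certNK0 (fam := true) (s1 := true) (s2 := false) (a := 2) (b := 0) (c := 3) (cn := .up) (n1 := ndN0q2) (n2 := ndN0q0) (pc := pcN3) (cut := Cut.none) (xt := Ext.none) (P1 := 0) (W1 := 536870912) (P2 := 0) (W2 := 536870912) (P3 := 33554432) (W3 := 16777216) (N0 := 3)
    rfl rfl rfl k0_pm_203

noncomputable def cut_pm_213 : Cut := Cut.of [[⟨0, 1, 0, 7061502⟩, ⟨1, 1, 0, 7061502⟩, ⟨2, 2, 0, 184626⟩]]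

noncomputable def f_pm_213 : ℕ → ℕ → ℕ → ℕ → Bool := onCell 0 536870912 1610612736 536870912 33554432 16777216
    (rowNK 3 1 true true false .pnn 2 1 3 (qsf 0 536870912 536870912 536870912 3) ndN0q2 ndN0q1 pcN3 cut_pm_213 Ext.none)

def k0_pm_213 : ∃ t, chk3 f_pm_213 t 1 2 1 = true :=
  ⟨(a (b (a (l 1) (b (l 1) (l 17525648))) (a (b (a (b (l 17098512) (l 17036872)) (l 17218968)) (a (a (b (l 16885496) (b (l 16822672) (l 80765638647))) (b (l 16963264) (l 16876968))) (l 17010392))) (b (a (l 17284432) (l 17365792)) (a (l 17080976) (l 17160136))))) (b (a (b (l 1) (l 17520784)) (a (l 44058942487) (b (l 17555720) (l 17473016)))) (a (b (a (l 17393376) (l 17344936)) (a (l 17238440) (l 17215360))) (a (b (l 17218712) (l 17174056)) (b (a (l 17204160) (l 17356064)) (a (l 17151040) (l 17424224))))))), by decide +kernel⟩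

def k1_pm_213 : ∃ t, chk3 f_pm_213 t 1 6 1 = true :=
  ⟨(a (a (a (b (b (a (b (l 114588509879) (l 4)) (b (l 53385211735) (l 87208082759))) (a (l 4) (b (l 118346636023) (l 4)))) (l 4)) (a (b (b (l 16837384) (b (l 85597531527) (l 99019239191))) (a (l 4) (b (l 114051696631) (l 4)))) (b (l 17092776) (b (b (l 85597446055) (l 104387959303)) (l 4))))) (a (b (l 17083944) (b (l 16908280) (a (b (l 98482367831) (l 100629848439)) (b (l 16790520) (l 90429287959))))) (b (l 17008912) (b (l 16893000) (l 17001456))))) (a (b (a (l 17306104) (l 17278984)) (a (b (l 17096184) (l 17123504)) (b (l 17225112) (l 17297136)))) (a (b (l 17246112) (b (l 17150224) (l 17185320))) (b (a (l 17141320) (a (l 17103768) (l 17276712))) (a (l 17124360) (b (l 17217312) (l 17342544))))))), by decide +kernel⟩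

def k2_pm_213 : ∃ t, chk3 f_pm_213 t 1 14 1 = true :=
  ⟨(a (a (l 4) (b (a (b (a (l 4) (l 107072315751)) (l 4)) (a (b (l 16853320) (a (l 115125363879) (l 96871746775))) (l 16956640))) (a (l 4) (b (a (b (l 110293521911) (l 4)) (a (b (l 111367227063) (l 108682878295)) (l 84523742215))) (a (l 4) (b (a (l 4) (l 132305217239)) (l 4))))))) (a (a (b (b (l 17020896) (a (l 16864336) (l 16974400))) (a (b (l 16854000) (b (l 81839414199) (a (b (l 132842078551) (l 107072270887)) (l 16822960)))) (b (l 16910800) (l 16891736)))) (b (a (l 17103600) (l 17165920)) (b (a (l 16995472) (l 17069984)) (a (l 16939480) (l 16985472))))) (a (b (l 17256728) (b (l 17198608) (l 17174040))) (a (a (l 17079336) (l 17100864)) (a (l 17208384) (b (l 17305872) (a (l 17083976) (b (l 17138272) (l 17098336))))))))), by decide +kernel⟩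

def k3_pm_213 : ∃ t, chk3 f_pm_213 t 2 15 1 = true :=
  ⟨(l 4), by decide +kernel⟩

def k4_pm_213 : ∃ t, chk3 f_pm_213 t 3 30 1 = true :=
  ⟨(a (a (b (a (b (a (l 4) (b (a (l 104387885111) (l 16811832)) (l 118346559175))) (l 4)) (b (l 82376298359) (b (l 91503034999) (a (l 121030917639) (l 16805976))))) (a (l 4) (b (a (l 4) (b (a (l 121030883719) (l 140895128263)) (l 124789044135))) (l 4)))) (b (a (b (l 16840912) (l 16825992)) (b (l 16920496) (l 16878360))) (a (b (a (l 78618126647) (l 16805256)) (a (b (a (l 115125335431) (b (l 16810608) (l 121567743591))) (l 4)) (b (l 16802256) (a (b (l 110830337959) (l 114588428871)) (l 16806552))))) (b (l 16839832) (l 16868408))))) (a (b (l 17140600) (b (l 16993896) (l 16986408))) (a (l 17026568) (a (b (l 16970576) (l 16909408)) (a (l 17031752) (b (a (l 17042752) (l 17055648)) (l 17164984))))))), by decide +kernel⟩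

def k5_pm_213 : ∃ t, chk3 f_pm_213 t 6 31 1 = true :=
  ⟨(b (a (l 4) (a (b (a (l 4) (b (a (l 4) (l 126399608807)) (l 4))) (l 4)) (b (a (b (l 99019185543) (a (l 129083972839) (b (l 135526392231) (l 123715245687)))) (l 79691864231)) (a (l 4) (b (a (b (l 121567755095) (l 4)) (b (l 16804776) (a (l 122104604263) (l 16807248)))) (a (l 4) (b (l 131231444503) (l 4)))))))) (l 4)), by decide +kernel⟩

def k6_pm_213 : ∃ t, chk3 f_pm_213 t 7 62 1 = true :=
  ⟨(a (a (b (l 16851216) (b (a (l 16803120) (l 16795704)) (a (a (b (a (l 118883395655) (l 16805872)) (a (l 4) (l 128010208327))) (b (l 16782008) (a (l 116735909111) (l 16804904)))) (l 16804200)))) (b (l 16889648) (l 16885576))) (a (b (l 16854024) (l 16879976)) (a (l 16943024) (a (a (l 16904800) (l 16915000)) (a (l 16904424) (a (l 16912320) (l 17080120))))))), by decide +kernel⟩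

def k7_pm_213 : ∃ t, chk3 f_pm_213 t 7 126 1 = true :=
  ⟨(a (a (b (a (b (a (l 4) (a (l 4) (b (l 122641469447) (l 4)))) (l 4)) (b (a (a (b (l 16784192) (l 122641468455)) (l 16804240)) (l 16781344)) (a (a (l 4) (l 130694558583)) (b (l 16804072) (a (l 125325842967) (l 16783656)))))) (a (l 4) (b (a (l 4) (b (a (l 4) (l 128010187479)) (l 4))) (l 4)))) (b (a (l 16803056) (l 16791008)) (a (b (a (b (l 16793752) (a (l 130694543159) (l 16789152))) (l 16802936)) (a (b (a (l 4) (b (l 121030875047) (l 4))) (l 4)) (b (a (l 108145969287) (l 16782912)) (a (b (l 126399586151) (l 4)) (b (l 16794128) (a (l 114588403223) (l 16789352))))))) (a (b (l 16780448) (l 16792760)) (l 16802664))))) (a (a (b (l 16817032) (l 16808152)) (l 16872784)) (a (l 16853016) (b (l 17026968) (l 16973096))))), by decide +kernel⟩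

def k8_pm_213 : ∃ t, chk3 f_pm_213 t 14 127 1 = true :=
  ⟨(b (a (l 4) (a (b (a (l 4) (b (a (l 4) (b (l 129620803911) (l 4))) (l 4))) (l 4)) (b (a (b (a (b (l 107072227207) (a (l 4) (l 111904067303))) (l 16788392)) (a (l 4) (b (a (l 115662165463) (l 92039827479)) (a (l 4) (l 128010188167))))) (b (l 16782168) (a (b (l 16782968) (a (l 118883377479) (l 16783192))) (l 16782552)))) (a (l 4) (b (a (b (a (l 4) (c (l 126399572087) (l 121567734215))) (l 4)) (b (l 89355473079) (a (c (l 128547058567) (l 128010187927)) (a (l 119420248823) (l 90966085207))))) (l 4)))))) (l 4)), by decide +kernel⟩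

def k9_pm_213 : ∃ t, chk3 f_pm_213 t 15 254 1 = true :=
  ⟨(a (a (b (l 16801856) (b (a (a (l 16786592) (l 16782080)) (l 16781296)) (a (a (b (b (a (l 111367184471) (l 16782840)) (a (l 4) (l 108682828935))) (l 4)) (b (l 16782496) (a (b (l 91502955095) (l 127473309191)) (l 87744858711)))) (l 16787152)))) (b (l 16804016) (l 16802512))) (a (a (l 16824992) (l 16813560)) (a (l 16823000) (l 16918200)))), by decide +kernel⟩

def k10_pm_213 : ∃ t, chk3 f_pm_213 t 15 510 1 = true :=
  ⟨(a (a (b (a (b (b (a (l 4) (a (l 4) (a (l 4) (l 122104602807)))) (l 4)) (l 4)) (a (a (b (b (l 87744856999) (a (l 4) (l 121030855127))) (l 4)) (b (l 85597373975) (a (l 4) (b (l 119957112839) (l 4))))) (b (l 16782000) (b (l 84523631047) (a (b (a (l 4) (l 95797918631)) (l 4)) (l 85060501159)))))) (a (l 4) (b (b (b (a (l 4) (a (l 4) (a (l 4) (l 95261047735)))) (l 4)) (l 4)) (l 4)))) (b (a (a (l 16784256) (l 16802072)) (l 16801232)) (a (b (a (b (a (c (l 84523630279) (l 84523630503)) (l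 16781776)) (b (a (a (l 4) (l 95797918871)) (l 16784512)) (a (l 4) (l 87207984919)))) (l 16786720)) (a (b (b (a (l 4) (a (l 4) (l 96871661351))) (l 4)) (l 4)) (a (a (b (b (l 84523626615) (a (l 4) (l 97408530391))) (l 4)) (b (l 86671111399) (b (a (l 4) (l 98482272951)) (l 4)))) (b (l 16781504) (b (l 85060498999) (a (l 4) (l 95261046631))))))) (a (a (b (l 16781112) (l 82376143399)) (l 16786216)) (l 16791080))))) (a (a (b (l 16801120) (l 16800680)) (l 16801552)) (a (l 16808712) (b (l 16851632) (l 16837672))))), by decide +kernel⟩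

def k11_pm_213 : ∃ t, chk3 f_pm_213 t 30 511 1 = true :=
  ⟨(b (a (l 4) (b (a (l 4) (a (b (a (b (b (l 85597368903) (a (l 100092885079) (l 85060496247))) (b (a (l 4) (l 97408529319)) (l 4))) (b (l 16781200) (a (l 86671110199) (l 16781184)))) (a (l 4) (b (b (a (a (l 4) (l 98482270407)) (l 85060495895)) (a (l 4) (a (l 4) (l 95797914631)))) (l 4)))) (a (b (l 16781000) (b (l 16782384) (a (b (l 93650431751) (a (l 4) (l 99556012263))) (l 85060496359)))) (l 16783432)))) (a (l 4) (a (l 4) (b (a (b (b (a (l 4) (a (l 4) (l 96871656615))) (l 4)) (l 4)) (a (b (b (l 84523623815) (b (l 88281721463) (a (l 4) (l 96871655479)))) (l 4)) (b (l 16780856) (b (a (l 97408527335) (l 86134236247)) (b (a (l 4) (l 99556010279)) (l 4)))))) (l 4)))))) (l 4)), by decide +kernel⟩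

def k12_pm_213 : ∃ t, chk3 f_pm_213 t 31 1022 1 = true :=
  ⟨(b (a (a (l 16785472) (l 16800968)) (a (l 16803288) (l 16819328))) (a (a (a (b (b (l 16780576) (b (l 16780600) (a (c (l 85597366567) (a (l 86671108295) (l 16780696))) (l 16780504)))) (b (a (a (b (b (a (l 4) (l 96871654775)) (l 4)) (l 4)) (b (l 85597365495) (a (l 4) (b (l 87207977623) (l 99556010023))))) (l 83986752439)) (a (l 4) (a (b (b (a (l 98482267767) (l 16781280)) (a (l 4) (l 97408525639))) (l 4)) (b (l 16781816) (a (b (l 96334783543) (l 4)) (l 93650428887))))))) (b (l 16780136) (a (b (l 16780304) (l 16781648)) (l 16780096)))) (a (l 16784928) (l 16790136))) (a (l 16800496) (c (l 16801856) (l 16805936))))), by decide +kernel⟩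

def k13_pm_213 : ∃ t, chk3 f_pm_213 t 124 2046 1 = true :=
  ⟨(a (a (l 4) (l 4)) (a (b (a (b (b (b (l 86134235735) (a (a (l 4) (l 100629750807)) (l 87744847991))) (b (b (a (l 4) (l 100092879703)) (l 4)) (l 4))) (l 4)) (b (b (l 16780296) (b (l 85597364359) (a (a (l 4) (l 99019137607)) (l 86671105703)))) (a (l 4) (a (l 4) (b (b (l 99019137431) (l 4)) (l 4)))))) (l 4)) (b (b (l 16780144) (a (b (b (l 85597363783) (a (a (l 4) (c (l 98482266151) (l 99556008071))) (l 86134234535))) (b (b (a (l 4) (a (l 4) (l 96871652599))) (l 4)) (l 4))) (b (l 16780104) (a (b (l 86134234343) (b (a (l 4) (l 96334781575)) (l 4))) (l 85597363527))))) (a (l 4) (a (l 4) (a (l 4) (b (b (b (b (l 96871652407) (l 4)) (l 4)) (l 4)) (l 4)))))))), by decide +kernel⟩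

def k14_pm_213 : ∃ t, chk3 f_pm_213 t 125 2046 1 = true :=
  ⟨(b (b (l 16782200) (a (a (l 16781256) (l 16779712)) (l 16779360))) (b (a (a (a (b (b (l 85597363383) (a (b (a (l 4) (l 97408523255)) (l 4)) (l 86671105079))) (b (b (a (l 4) (a (l 4) (l 98482265047))) (l 4)) (l 4))) (b (l 16779896) (b (b (l 16780568) (a (a (l 99019135959) (l 16779952)) (l 16779880))) (b (a (a (l 4) (l 99556006887)) (l 16780560)) (a (l 4) (a (c (l 99019135959) (l 100629748775)) (l 16780256))))))) (c (l 16780376) (l 16780416))) (l 16782016)) (b (a (a (a (l 4) (b (b (b (a (l 4) (a (l 4) (l 99556006535))) (l 4)) (l 4)) (l 4))) (a (b (a (b (l 86671104167) (b (l 89355459303) (a (l 4) (l 93113555111)))) (l 16779776)) (a (b (b (a (l 4) (l 102240361191)) (l 4)) (l 4)) (b (l 87207975223) (a (l 4) (l 96871651783))))) (l 16780352))) (l 16780728)) (a (a (l 4) (a (l 4) (a (b (b (b (l 87207974903) (a (l 101703490055) (l 16779744))) (b (a (l 4) (l 99556005895)) (l 4))) (l 4)) (b (l 85060491063)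 (a (a (l 4) (b (l 100629747991) (l 4))) (b (l 87744845719) (b (c (l 102240360615) (l 104924715239)) (l 4)))))))) (a (b (l 16779536) (b (l 16779536) (a (a (a (l 96334780423) (l 16779608)) (l 16779560)) (l 16779480)))) (l 16779312)))))), by decide +kernel⟩

def k15_pm_213 : ∃ t, chk3 f_pm_213 t 62 2047 1 = true :=
  ⟨(b (b (a (l 4) (a (l 4) (a (b (b (a (a (b (a (l 4) (b (l 88281716343) (c (l 101166618567) (l 103314102295)))) (l 4)) (b (l 16779576) (b (l 87207974711) (a (l 4) (l 88818586951))))) (l 16779480)) (a (b (b (a (l 4) (a (l 4) (a (l 4) (l 100092876215)))) (l 4)) (l 4)) (a (b (l 86134232807) (b (a (a (l 4) (l 102777231031)) (l 16779872)) (a (l 4) (a (l 4) (l 99019134263))))) (l 16779456)))) (a (l 4) (a (l 4) (b (b (b (l 87207974375) (a (a (l 4) (l 102777230903)) (l 87744844887))) (b (a (l 4) (a (l 4) (l 99556005063))) (l 4))) (l 4))))) (b (l 16780624) (a (a (b (b (l 16779400) (a (a (l 97408521543) (l 16779760)) (l 16779384))) (b (b (a (a (l 4) (l 103314101751))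 (l 88281715703)) (a (l 4) (a (l 4) (l 100629746823)))) (l 4))) (b (l 16779344) (b (l 16779680) (a (b (a (l 102240359751) (l 16779736)) (l 4)) (l 87207973927))))) (l 16779592)))))) (a (l 4) (a (l 4) (a (l 4) (b (b (b (a (a (l 4) (a (l 4) (b (a (l 4) (l 100629746887)) (l 4)))) (a (b (l 16779640) (b (l 87744844791) (a (a (l 4) (l 101703488391)) (l 16779280)))) (l 16779232))) (a (l 4) (a (a (l 4) (b (a (l 100629746759) (l 16779632)) (b (a (l 4) (l 104387842967)) (l 4)))) (l 85597360951)))) (b (a (l 4) (a (l 4) (a (b (a (l 4) (l 100092875767)) (l 4)) (b (l 16779568) (b (l 91502941031) (a (l 4) (l 101166617303))))))) (l 4))) (l 4)))))) (l 4)), by decide +kernel⟩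

def k16_pm_213 : ∃ t, chk3 f_pm_213 t 63 2046 1 = true :=
  ⟨(a (b (l 16789552) (a (l 16784096) (l 16789064))) (a (l 16790920) (c (l 16795568) (b (l 16801400) (l 16792592))))), by decide +kernel⟩

def k17_pm_213 : ∃ t, chk3 f_pm_213 t 126 4094 2 = true :=
  ⟨(b (a (a (l 16780384) (l 16784072)) (l 16783968)) (b (a (a (a (a (b (l 16779168) (b (l 16779168) (b (l 86671102887) (a (a (l 4) (l 102240359495)) (l 87744844423))))) (l 16779760)) (l 16779024)) (l 16778848)) (l 16783944)) (a (a (b (a (a (a (l 4) (a (l 4) (b (b (l 99556004711) (l 4)) (l 4)))) (b (b (l 16779456) (a (a (l 4) (l 97945391703)) (l 16779104))) (b (a (l 4) (a (l 101166617431) (l 91502940519))) (l 4)))) (b (l 16779024) (b (l 16779024) (a (a (l 91502940807) (l 16779040)) (l 16779000))))) (b (a (l 4) (a (a (b (b (a (l 4) (l 104387842503)) (l 4)) (l 4)) (b (l 87744844215) (b (a (l 4) (l 101166616839)) (l 4)))) (l 84523618647))) (a (l 4) (a (l 4) (a (b (a (l 4) (l 99019133463)) (l 4)) (b (l 16779336)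 (b (l 90966069687) (a (l 4) (l 103850971399))))))))) (b (l 16778856) (a (a (l 83986747495) (l 16778880)) (l 16778792)))) (l 16781112)))), by decide +kernel⟩

def k18_pm_213 : ∃ t, chk3 f_pm_213 t 126 16380 2 = true :=
  ⟨(a (a (l 4) (a (b (a (b (a (b (b (l 89355456743) (a (l 4) (l 101703487591))) (l 4)) (b (l 16778928) (b (l 88818585639) (a (l 4) (l 92039811047))))) (l 4)) (b (l 16778880) (a (b (b (l 87207972807) (a (l 4) (l 90966069127))) (l 4)) (b (l 16778864) (b (l 16779144) (a (l 103850971351) (l 16779072))))))) (b (b (b (a (l 4) (a (l 4) (a (l 4) (l 102777229479)))) (l 4)) (l 4)) (l 4))) (b (l 16779120) (b (a (b (b (l 16779168) (a (a (l 102777229415) (l 16779192)) (l 16778808))) (b (a (a (l 4) (l 102240358455)) (l 16779160)) (a (l 4) (a (l 101703487511) (l 16778832))))) (l 16778768)) (b (a (b (a (l 4) (a (l 4) (l 101703487463))) (l 4)) (b (l 16779104) (a (a (l 101166616519) (l 16778792)) (l 16778752)))) (a (l 4) (b (a (a (l 4) (c (l 100092874647) (l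 101166616487))) (l 16779096)) (a (l 4) (a (a (l 4) (l 99556003511)) (l 16778768)))))))))) (a (b (l 16778616) (a (l 16779008) (l 16778560))) (l 16780992))), by decide +kernel⟩

def k19_pm_213 : ∃ t, chk3 f_pm_213 t 126 16381 2 = true :=
  ⟨(b (b (b (a (a (l 4) (b (a (l 4) (a (l 4) (a (l 4) (a (l 4) (a (l 4) (l 99556003495)))))) (l 4))) (a (a (a (b (l 16779040) (b (l 85060488823) (a (a (l 4) (l 16779072)) (l 16778688)))) (l 16778648)) (l 16778560)) (l 16778376))) (a (l 4) (a (a (a (a (b (b (a (l 4) (l 100092874359)) (l 4)) (l 4)) (b (l 16779040) (b (l 89355456007) (a (l 4) (l 16778888))))) (l 16778648)) (l 16778560)) (l 16778376)))) (a (l 4) (a (a (a (b (b (b (a (l 4) (a (l 4) (l 100629745255))) (l 4)) (l 4)) (l 4)) (a (a (b (b (l 16778872) (a (l 4) (l 101703487063))) (l 4)) (b (l 85060488551) (b (a (l 4) (l 102240357991)) (l 4)))) (b (l 16778632) (b (l 85597359431) (a (b (c (l 101703487063) (l 103314099815)) (l 4)) (l 91502939495)))))) (l 16778888)) (l 16778384))))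 (a (l 4) (a (a (a (l 4) (l 4)) (b (a (a (b (b (l 85597359479) (a (l 4) (l 99556003175))) (l 4)) (b (l 16778576) (a (b (b (l 87744842935) (a (l 4) (l 104924712103))) (l 4)) (b (l 16778576) (b (l 91502939335) (a (l 4) (l 108145937607))))))) (l 81302391959)) (b (a (l 4) (a (a (b (a (l 4) (l 100092874039)) (l 4)) (b (l 83986746487) (b (a (l 4) (l 101703486519)) (l 4)))) (l 83449875527))) (b (a (l 4) (a (l 4) (a (b (a (l 4) (l 107072195671)) (l 4)) (c (l 91502939271) (l 91502939287))))) (l 4))))) (b (l 16779040) (l 6))))), by decide +kernel⟩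

def k20_pm_213 : ∃ t, chk3 f_pm_213 t 126 8191 2 = true :=
  ⟨(a (l 4) (a (l 4) (l 6))), by decide +kernel⟩

def k21_pm_213 : ∃ t, chk3 f_pm_213 t 126 4094 3 = true :=
  ⟨(b (a (a (l 16780416) (l 16781480)) (l 16784008)) (a (a (b (a (a (b (l 16779192) (b (l 16779192) (a (b (a (l 102240359287) (l 16779560)) (b (a (l 4) (l 108682810071)) (l 4))) (l 86134231783)))) (l 16779464)) (l 16779048)) (b (b (a (a (b (b (a (l 4) (a (l 4) (l 102777229815))) (l 4)) (l 4)) (b (l 85060489671) (a (a (l 4) (l 100092875399)) (l 16779136)))) (l 16779048)) (a (a (l 4) (a (l 4) (b (b (l 89355457047) (a (l 4) (l 102777229703))) (l 4)))) (b (l 16779048) (b (l 83449876903) (a (a (a (l 4) (l 16779456)) (l 16779064)) (l 16779024)))))) (a (l 4) (a (b (b (b (a (a (l 4) (l 108682809847)) (l 16779080)) (a (l 4) (l 89892327879))) (b (a (l 4) (a (l 4) (l 104387842359))) (l 4))) (l 4)) (a (b (l 85060489559) (b (b (a (l 4) (l 93113553063)) (l 4)) (l 4))) (b (l 16779008) (b (l 86671101991)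 (b (a (c (l 108145938807) (l 110830293383)) (l 16779360)) (a (l 4) (l 108682809639)))))))))) (b (l 16778872) (b (l 16778880) (b (l 16778880) (a (l 82913005575) (l 16778816)))))) (a (l 16779944) (l 16782520)))), by decide +kernel⟩

def k22_pm_213 : ∃ t, chk3 f_pm_213 t 252 4095 3 = true :=
  ⟨(b (b (a (l 4) (a (b (b (a (a (b (b (a (l 105998455015) (l 16778984)) (a (l 4) (l 104924713111))) (l 4)) (b (l 16778952) (b (l 89355456599) (a (l 4) (l 93650423831))))) (l 16778904)) (a (l 4) (a (b (b (l 87207972855) (a (l 4) (l 92576681895))) (l 4)) (a (b (l 16778896) (b (l 92039810935) (a (l 4) (l 105998454839)))) (l 84523618167))))) (b (b (b (b (a (l 4) (a (l 4) (a (l 4) (l 104924712983)))) (l 4)) (l 4)) (l 4)) (l 4))) (b (l 16779144) (b (a (b (a (b (l 86134230775) (b (l 89355456439) (a (l 4) (l 16779064)))) (l 16778832)) (a (b (b (a (l 4) (l 103850971047)) (l 4)) (l 4)) (b (l 16779016) (b (l 88281714535) (a (l 4) (l 16779024)))))) (l 16778784)) (b (a (b (b (a (l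 4) (a (l 4) (l 102240358231))) (l 4)) (l 4)) (a (b (l 16779144) (a (a (l 4) (l 101703487271)) (l 16778984))) (l 16778776))) (a (l 4) (a (b (b (a (l 4) (l 102240358151)) (l 4)) (l 4)) (b (l 16778952) (a (a (l 4) (l 105461583511)) (l 16778952)))))))))) (a (l 4) (a (l 4) (a (l 4) (a (l 4) (a (l 4) (a (l 4) (b (b (b (b (l 101703487175) (l 4)) (l 4)) (l 4)) (l 4))))))))) (l 4)), by decide +kernel⟩

def k23_pm_213 : ∃ t, chk3 f_pm_213 t 253 4095 3 = true :=
  ⟨(a (a (a (b (b (b (l 16778728) (l 16779056)) (b (b (a (a (b (b (l 16778936) (a (l 4) (l 101703487159))) (l 4)) (b (l 16778912) (b (a (l 4) (l 102777228951)) (l 4)))) (a (b (l 16778720) (b (l 16778912) (a (l 4) (l 102777228951)))) (l 83449875879))) (b (b (b (a (l 4) (a (l 4) (a (l 4) (l 16778928)))) (l 4)) (l 4)) (l 4))) (l 4))) (l 4)) (b (b (l 16779328) (b (b (l 16778672) (b (a (a (b (l 88281714023) (b (a (l 4) (l 115125259575)) (l 4))) (l 84523617687)) (l 16778656)) (b (a (b (b (a (l 4) (l 114588388775))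 (l 4)) (l 4)) (l 85597359463)) (a (l 4) (a (b (a (l 4) (l 118346485063)) (l 4)) (l 92039810455)))))) (l 4))) (l 4))) (a (b (b (l 16779920) (b (b (l 16778608) (l 16778608)) (b (a (b (a (b (b (l 16778816) (a (l 4) (l 16778840))) (l 4)) (b (l 16778616) (b (l 90966068359) (a (l 4) (l 110293421207))))) (l 4)) (b (l 16778592) (a (b (b (l 88818584791) (a (l 4) (l 111367163079))) (l 4)) (b (l 16778592) (b (l 94187293927) (a (l 4) (l 113514646775))))))) (l 4)))) (l 4)) (b (b (l 16779856) (b (l 16778552) (b (a (l 80765521031) (l 16778536)) (b (b (a (a (b (a (l 4) (l 16778776)) (l 4)) (l 85060488263)) (l 16778528)) (a (b (b (a (l 4) (l 93113552087)) (l 4)) (l 4)) (a (l 91502939303) (l 16778520)))) (a (l 4) (b (a (b (a (l 4) (l 113514646647)) (l 4)) (b (l 16778704) (a (l 4) (l 16778728)))) (l 4))))))) (l 4)))) (b (b (l 16779704) (b (l 16779056) (b (l 16779056) (l 6)))) (l 6))), by decide +kernel⟩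

def k24_pm_213 : ∃ t, chk3 f_pm_213 t 127 2047 1 = true :=
  ⟨(b (a (b (l 16789472) (l 16783280)) (a (l 16784480) (a (l 16784736) (a (l 16779624) (l 16786664))))) (b (a (b (a (l 16780888) (l 16783336)) (b (a (l 16780752) (l 16780496)) (l 6))) (a (l 16780872) (a (l 16780992) (c (l 16781904) (l 16781784))))) (l 6))), by decide +kernel⟩

theorem s25_pm_213 : ∃ t, chk3 f_pm_213 t 126 4095 3 = true := ex3_a k22_pm_213 k23_pm_213

theorem s26_pm_213 : ∃ t, chk3 f_pm_213 t 126 2047 3 = true := ex3_b k21_pm_213 s25_pm_213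

theorem s27_pm_213 : ∃ t, chk3 f_pm_213 t 126 8190 2 = true := ex3_b k18_pm_213 k19_pm_213

theorem s28_pm_213 : ∃ t, chk3 f_pm_213 t 126 4095 2 = true := ex3_b s27_pm_213 k20_pm_213

theorem s29_pm_213 : ∃ t, chk3 f_pm_213 t 126 2047 2 = true := ex3_b k17_pm_213 s28_pm_213

theorem s30_pm_213 : ∃ t, chk3 f_pm_213 t 126 2047 1 = true := ex3_c s29_pm_213 s26_pm_213

theorem s31_pm_213 : ∃ t, chk3 f_pm_213 t 63 2047 1 = true := ex3_a s30_pm_213 k24_pm_213

theorem s32_pm_213 : ∃ t, chk3 f_pm_213 t 63 1023 1 = true := ex3_b k16_pm_213 s31_pm_213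

theorem s33_pm_213 : ∃ t, chk3 f_pm_213 t 62 2046 1 = true := ex3_a k13_pm_213 k14_pm_213

theorem s34_pm_213 : ∃ t, chk3 f_pm_213 t 62 1023 1 = true := ex3_b s33_pm_213 k15_pm_213

theorem s35_pm_213 : ∃ t, chk3 f_pm_213 t 31 1023 1 = true := ex3_a s34_pm_213 s32_pm_213

theorem s36_pm_213 : ∃ t, chk3 f_pm_213 t 31 511 1 = true := ex3_b k12_pm_213 s35_pm_213

theorem s37_pm_213 : ∃ t, chk3 f_pm_213 t 15 511 1 = true := ex3_a k11_pm_213 s36_pm_213

theorem s38_pm_213 : ∃ t, chk3 f_pm_213 t 15 255 1 = true := ex3_b k10_pm_213 s37_pm_213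

theorem s39_pm_213 : ∃ t, chk3 f_pm_213 t 15 127 1 = true := ex3_b k9_pm_213 s38_pm_213

theorem s40_pm_213 : ∃ t, chk3 f_pm_213 t 7 127 1 = true := ex3_a k8_pm_213 s39_pm_213

theorem s41_pm_213 : ∃ t, chk3 f_pm_213 t 7 63 1 = true := ex3_b k7_pm_213 s40_pm_213

theorem s42_pm_213 : ∃ t, chk3 f_pm_213 t 7 31 1 = true := ex3_b k6_pm_213 s41_pm_213

theorem s43_pm_213 : ∃ t, chk3 f_pm_213 t 3 31 1 = true := ex3_a k5_pm_213 s42_pm_213

theorem s44_pm_213 : ∃ t, chk3 f_pm_213 t 3 15 1 = true := ex3_b k4_pm_213 s43_pm_213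

theorem s45_pm_213 : ∃ t, chk3 f_pm_213 t 1 15 1 = true := ex3_a k3_pm_213 s44_pm_213

theorem s46_pm_213 : ∃ t, chk3 f_pm_213 t 1 7 1 = true := ex3_b k2_pm_213 s45_pm_213

theorem s47_pm_213 : ∃ t, chk3 f_pm_213 t 1 3 1 = true := ex3_b k1_pm_213 s46_pm_213

theorem s48_pm_213 : ∃ t, chk3 f_pm_213 t 1 1 1 = true := ex3_b k0_pm_213 s47_pm_213

theorem c_pm_213 : CertN 0 536870912 536870912 536870912 33554432 16777216 3 true true false .pnn 2 1 3
    ndN0q2 ndN0q1 pcN3 cut_pm_213 Ext.none :=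
  certNK1 (fam := true) (s1 := true) (s2 := false) (a := 2) (b := 1) (c := 3) (cn := .pnn) (n1 := ndN0q2) (n2 := ndN0q1) (pc := pcN3) (cut := cut_pm_213) (xt := Ext.none) (P1 := 0) (W1 := 536870912) (P2 := 536870912) (W2 := 536870912) (P3 := 33554432) (W3 := 16777216) (N0 := 3)
    rfl rfl rfl (fun _ => rfl) s48_pm_213

noncomputable def f_mm_001 : ℕ → ℕ → ℕ → ℕ → Bool := onCell 0 536870912 0 536870912 33554432 16777216
    (rowNK 3 0 true false false .up 0 0 1 (qsf 0 536870912 0 536870912 1) ndN0q0 ndN0q0 pcN1 Cut.none Ext.none)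

def k0_mm_001 : ∃ t, chk3 f_mm_001 t 1 1 1 = true :=
  ⟨(l 4), by decide +kernel⟩

theorem c_mm_001 : CertN 0 536870912 0 536870912 33554432 16777216 3 true false false .up 0 0 1
    ndN0q0 ndN0q0 pcN1 Cut.none Ext.none :=
  certNK0 (fam := true) (s1 := false) (s2 := false) (a := 0) (b := 0) (c := 1) (cn := .up) (n1 := ndN0q0) (n2 := ndN0q0) (pc := pcN1) (cut := Cut.none) (xt := Ext.none) (P1 := 0) (W1 := 536870912) (P2 := 0) (W2 := 536870912) (P3 := 33554432) (W3 := 16777216) (N0 := 3)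
    rfl rfl rfl k0_mm_001

noncomputable def f_mm_011 : ℕ → ℕ → ℕ → ℕ → Bool := onCell 0 536870912 536870912 536870912 33554432 16777216
    (rowNK 3 0 true false false .pnn 0 1 1 (qsf 0 536870912 536870912 536870912 1) ndN0q0 ndN0q1 pcN1 Cut.none Ext.none)

def k0_mm_011 : ∃ t, chk3 f_mm_011 t 1 1 1 = true :=
  ⟨(a (l 5) (l 4)), by decide +kernel⟩

theorem c_mm_011 : CertN 0 536870912 536870912 536870912 33554432 16777216 3 true false false .pnn 0 1 1
    ndN0q0 ndN0q1 pcN1 Cut.none Ext.none :=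
  certNK0 (fam := true) (s1 := false) (s2 := false) (a := 0) (b := 1) (c := 1) (cn := .pnn) (n1 := ndN0q0) (n2 := ndN0q1) (pc := pcN1) (cut := Cut.none) (xt := Ext.none) (P1 := 0) (W1 := 536870912) (P2 := 536870912) (W2 := 536870912) (P3 := 33554432) (W3 := 16777216) (N0 := 3)
    rfl rfl rfl k0_mm_011

noncomputable def f_mm_012 : ℕ → ℕ → ℕ → ℕ → Bool := onCell 0 536870912 536870912 536870912 33554432 16777216
    (rowNK 3 0 true false false .pnp 0 1 2 (qsf 0 536870912 536870912 536870912 2) ndN0q0 ndN0q1 pcN2 Cut.none Ext.none)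

def k0_mm_012 : ∃ t, chk3 f_mm_012 t 1 1 1 = true :=
  ⟨(a (l 5) (l 4)), by decide +kernel⟩

theorem c_mm_012 : CertN 0 536870912 536870912 536870912 33554432 16777216 3 true false false .pnp 0 1 2
    ndN0q0 ndN0q1 pcN2 Cut.none Ext.none :=
  certNK0 (fam := true) (s1 := false) (s2 := false) (a := 0) (b := 1) (c := 2) (cn := .pnp) (n1 := ndN0q0) (n2 := ndN0q1) (pc := pcN2) (cut := Cut.none) (xt := Ext.none) (P1 := 0) (W1 := 536870912) (P2 := 536870912) (W2 := 536870912) (P3 := 33554432) (W3 := 16777216) (N0 := 3)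
    rfl rfl rfl k0_mm_012

noncomputable def f_mm_022 : ℕ → ℕ → ℕ → ℕ → Bool := onCell 0 536870912 0 536870912 33554432 16777216
    (rowNK 3 0 true false false .pp 0 2 2 (qsf 0 536870912 0 536870912 2) ndN0q0 ndN0q2 pcN2 Cut.none Ext.none)

def k0_mm_022 : ∃ t, chk3 f_mm_022 t 1 1 1 = true :=
  ⟨(l 5), by decide +kernel⟩

theorem c_mm_022 : CertN 0 536870912 0 536870912 33554432 16777216 3 true false false .pp 0 2 2
    ndN0q0 ndN0q2 pcN2 Cut.none Ext.none :=
  certNK0 (fam := true) (s1 := false) (s2 := false) (a := 0) (b := 2) (c := 2) (cn := .pp) (n1 := ndN0q0) (n2 := ndN0q2) (pc := pcN2) (cut := Cut.none) (xt := Ext.none) (P1 := 0) (W1 := 536870912) (P2 := 0) (W2 := 536870912) (P3 := 33554432) (W3 := 16777216) (N0 := 3)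
    rfl rfl rfl k0_mm_022

noncomputable def f_mm_023 : ℕ → ℕ → ℕ → ℕ → Bool := onCell 0 536870912 0 536870912 33554432 16777216
    (rowNK 3 0 true false false .up 0 2 3 (qsf 0 536870912 0 536870912 3) ndN0q0 ndN0q2 pcN3 Cut.none Ext.none)

def k0_mm_023 : ∃ t, chk3 f_mm_023 t 1 1 1 = true :=
  ⟨(l 5), by decide +kernel⟩

theorem c_mm_023 : CertN 0 536870912 0 536870912 33554432 16777216 3 true false false .up 0 2 3
    ndN0q0 ndN0q2 pcN3 Cut.none Ext.none :=
  certNK0 (fam := true) (s1 := false) (s2 := false) (a := 0) (b := 2) (c := 3) (cn := .up) (n1 := ndN0q0) (n2 := ndN0q2) (pc := pcN3) (cut := Cut.none) (xt := Ext.none) (P1 := 0) (W1 := 536870912) (P2 := 0) (W2 := 536870912) (P3 := 33554432) (W3 := 16777216) (N0 := 3)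
    rfl rfl rfl k0_mm_023

noncomputable def cut_mm_101 : Cut := Cut.of [[⟨0, 1, 0, 33554432⟩, ⟨1, 0, 0, 33554432⟩, ⟨2, 1, 0, 33554432⟩]]

noncomputable def f_mm_101 : ℕ → ℕ → ℕ → ℕ → Bool := onCell 536870912 536870912 0 536870912 33554432 16777216
    (rowNK 3 0 true false false .npn 1 0 1 (qsf 536870912 536870912 0 536870912 1) ndN0q1 ndN0q0 pcN1 cut_mm_101 Ext.none)

def k0_mm_101 : ∃ t, chk3 f_mm_101 t 1 1 1 = true :=
  ⟨(a (l 4) (b (a (l 4) (b (a (l 4) (b (a (l 4) (a (l 4) (b (b (l 6) (l 4)) (l 2)))) (l 4))) (l 4))) (l 4))), by decide +kernel⟩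

theorem c_mm_101 : CertN 536870912 536870912 0 536870912 33554432 16777216 3 true false false .npn 1 0 1
    ndN0q1 ndN0q0 pcN1 cut_mm_101 Ext.none :=
  certNK0 (fam := true) (s1 := false) (s2 := false) (a := 1) (b := 0) (c := 1) (cn := .npn) (n1 := ndN0q1) (n2 := ndN0q0) (pc := pcN1) (cut := cut_mm_101) (xt := Ext.none) (P1 := 536870912) (W1 := 536870912) (P2 := 0) (W2 := 536870912) (P3 := 33554432) (W3 := 16777216) (N0 := 3)
    rfl rfl rfl k0_mm_101

noncomputable def cut_mm_102 : Cut := Cut.of [[⟨0, 1, 0, 33554432⟩, ⟨1, 0, 0, 33554432⟩, ⟨2, 1, 0, 33554432⟩]]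

noncomputable def f_mm_102 : ℕ → ℕ → ℕ → ℕ → Bool := onCell 536870912 536870912 0 536870912 33554432 16777216
    (rowNK 3 0 true false false .npp 1 0 2 (qsf 536870912 536870912 0 536870912 2) ndN0q1 ndN0q0 pcN2 cut_mm_102 Ext.none)

def k0_mm_102 : ∃ t, chk3 f_mm_102 t 1 1 1 = true :=
  ⟨(b (a (l 4) (a (l 4) (b (a (l 4) (b (a (l 4) (b (a (l 4) (b (l 6) (l 4))) (l 4))) (l 4))) (l 4)))) (l 4)), by decide +kernel⟩

theorem c_mm_102 : CertN 536870912 536870912 0 536870912 33554432 16777216 3 true false false .npp 1 0 2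
    ndN0q1 ndN0q0 pcN2 cut_mm_102 Ext.none :=
  certNK0 (fam := true) (s1 := false) (s2 := false) (a := 1) (b := 0) (c := 2) (cn := .npp) (n1 := ndN0q1) (n2 := ndN0q0) (pc := pcN2) (cut := cut_mm_102) (xt := Ext.none) (P1 := 536870912) (W1 := 536870912) (P2 := 0) (W2 := 536870912) (P3 := 33554432) (W3 := 16777216) (N0 := 3)
    rfl rfl rfl k0_mm_102

noncomputable def f_mm_112 : ℕ → ℕ → ℕ → ℕ → Bool := onCell 536870912 536870912 536870912 536870912 33554432 16777216
    (rowNK 3 0 true false false .dn 1 1 2 (qsf 536870912 536870912 536870912 536870912 2) ndN0q1 ndN0q1 pcN2 Cut.none Ext.none)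

def k0_mm_112 : ∃ t, chk3 f_mm_112 t 1 1 1 = true :=
  ⟨(l 4), by decide +kernel⟩

theorem c_mm_112 : CertN 536870912 536870912 536870912 536870912 33554432 16777216 3 true false false .dn 1 1 2
    ndN0q1 ndN0q1 pcN2 Cut.none Ext.none :=
  certNK0 (fam := true) (s1 := false) (s2 := false) (a := 1) (b := 1) (c := 2) (cn := .dn) (n1 := ndN0q1) (n2 := ndN0q1) (pc := pcN2) (cut := Cut.none) (xt := Ext.none) (P1 := 536870912) (W1 := 536870912) (P2 := 536870912) (W2 := 536870912) (P3 := 33554432) (W3 := 16777216) (N0 := 3)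
    rfl rfl rfl k0_mm_112

noncomputable def f_mm_113 : ℕ → ℕ → ℕ → ℕ → Bool := onCell 536870912 536870912 536870912 536870912 33554432 16777216
    (rowNK 3 0 true false false .nn 1 1 3 (qsf 536870912 536870912 536870912 536870912 3) ndN0q1 ndN0q1 pcN3 Cut.none Ext.none)

def k0_mm_113 : ∃ t, chk3 f_mm_113 t 1 1 1 = true :=
  ⟨(l 4), by decide +kernel⟩

theorem c_mm_113 : CertN 536870912 536870912 536870912 536870912 33554432 16777216 3 true false false .nn 1 1 3
    ndN0q1 ndN0q1 pcN3 Cut.none Ext.none :=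
  certNK0 (fam := true) (s1 := false) (s2 := false) (a := 1) (b := 1) (c := 3) (cn := .nn) (n1 := ndN0q1) (n2 := ndN0q1) (pc := pcN3) (cut := Cut.none) (xt := Ext.none) (P1 := 536870912) (W1 := 536870912) (P2 := 536870912) (W2 := 536870912) (P3 := 33554432) (W3 := 16777216) (N0 := 3)
    rfl rfl rfl k0_mm_113

noncomputable def f_mm_123 : ℕ → ℕ → ℕ → ℕ → Bool := onCell 536870912 536870912 0 536870912 33554432 16777216
    (rowNK 3 0 true false false .npn 1 2 3 (qsf 536870912 536870912 0 536870912 3) ndN0q1 ndN0q2 pcN3 Cut.none Ext.none)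

def k0_mm_123 : ∃ t, chk3 f_mm_123 t 1 1 1 = true :=
  ⟨(a (l 5) (l 4)), by decide +kernel⟩

theorem c_mm_123 : CertN 536870912 536870912 0 536870912 33554432 16777216 3 true false false .npn 1 2 3
    ndN0q1 ndN0q2 pcN3 Cut.none Ext.none :=
  certNK0 (fam := true) (s1 := false) (s2 := false) (a := 1) (b := 2) (c := 3) (cn := .npn) (n1 := ndN0q1) (n2 := ndN0q2) (pc := pcN3) (cut := Cut.none) (xt := Ext.none) (P1 := 536870912) (W1 := 536870912) (P2 := 0) (W2 := 536870912) (P3 := 33554432) (W3 := 16777216) (N0 := 3)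
    rfl rfl rfl k0_mm_123

end Pool.Agent.Strip051.G.I1_32_3_64.Tab.C.NA00

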