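import Pool.Agent.Strip051.G.I1_32_3_64.Tab
import Pool.Agent.Strip051.PB.RowK

/-! # Certificates N4 (generated) -/

set_option linter.all false
set_option maxRecDepth 100000

namespace Pool.Agent.Strip051.G.I1_32_3_64.Tab.C.NA00

open Pool.Agent.Strip051.PB Pool.Agent.Strip051.PB.T
open Pool.Agent.Strip051.G.I1_32_3_64.Tab

noncomputable def cut_mm_202 : Cut := Cut.of [[⟨0, 1, 0, 33554432⟩, ⟨1, 0, 0, 33554432⟩, ⟨2, 1, 0, 33554432⟩]]

noncomputable def f_mm_202 : ℕ → ℕ → ℕ → ℕ → Bool := onCell 0 536870912 0 536870912 33554432 16777216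
    (rowNK 3 0 true false false .pp 2 0 2 (qsf 0 536870912 0 536870912 2) ndN0q2 ndN0q0 pcN2 cut_mm_202 Ext.none)

def k0_mm_202 : ∃ t, chk3 f_mm_202 t 2 2 1 = true :=
  ⟨(b (b (a (l 19085616) (b (l 19214856) (l 18794216))) (a (l 18440392) (a (l 18341744) (l 18230040)))) (a (b (l 17951896) (l 17522776)) (b (a (l 17834112) (l 17756016)) (a (l 17409640) (b (l 17395728) (l 17205576)))))), by decide +kernel⟩

def k1_mm_202 : ∃ t, chk3 f_mm_202 t 6 4 1 = true :=
  ⟨(b (a (b (l 18987352) (l 18528784)) (b (a (b (l 18866224) (l 18617952)) (b (b (l 18663632) (l 18563112)) (l 18387464))) (a (l 18265184) (l 17973024)))) (a (b (l 18148376) (l 17836680)) (b (a (l 17869848) (l 17446704)) (a (l 17551048) (a (l 17378120) (l 17084624)))))), by decide +kernel⟩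

def k2_mm_202 : ∃ t, chk3 f_mm_202 t 14 8 1 = true :=
  ⟨(b (a (b (a (b (l 18383728) (l 18320448)) (b (b (c (l 18367504) (l 17845064)) (l 18131816)) (l 18112560))) (a (l 18170952) (l 17995872))) (a (b (b (c (b (a (l 18126496) (l 17927416)) (l 18057384)) (a (b (l 17404968) (l 17670752)) (b (b (l 17031440) (l 17331488)) (l 17327624)))) (a (l 17924488) (b (l 17727168) (l 17782656)))) (b (l 17803008) (l 17749016))) (a (b (b (c (b (b (l 17487000) (l 17716232)) (l 17775944)) (b (b (a (l 16993512) (l 16863704)) (l 16869800)) (b (l 17013800) (l 17199416)))) (c (l 17815440) (b (l 17120872) (l 17446400)))) (b (l 17549200) (l 17581376))) (b (b (b (a (c (b (l 17258920) (l 17515808)) (l 16733912)) (b (l 16739912) (c (l 17217232) (l 16736896)))) (c (b (l 17327248) (l 17569792)) (b (l 16736432) (l 16777880)))) (b (c (l 17620584) (b (l 16889616) (l 17065576))) (a (l 17419224) (l 17181960)))) (b (b (l 17340272) (l 17488824)) (l 17459048)))))) (a (b (l 17865408) (l 17648424))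 (b (a (l 17602568) (b (l 17400128) (l 17348152))) (a (l 17396152) (b (l 17249728) (l 17068416)))))), by decide +kernel⟩

def k3_mm_202 : ∃ t, chk3 f_mm_202 t 30 32 1 = true :=
  ⟨(b (a (b (b (a (a (l 16738272) (l 16740664)) (a (l 16743016) (b (l 16745024) (l 16745656)))) (a (l 16743392) (a (l 16744280) (l 16746576)))) (a (a (c (b (l 17154512) (l 17359072)) (l 16741224)) (a (l 16743088) (l 16741496))) (b (a (l 16745504) (l 16747776)) (a (l 16757096) (l 16748936))))) (a (a (b (b (b (l 6) (l 16748008)) (l 16750216)) (b (l 16750072) (l 16751208))) (b (l 6) (b (b (l 16752184) (l 16752744)) (l 16753560)))) (b (l 6) (b (l 6) (a (b (l 16755720) (l 16756248)) (l 6)))))) (b (b (a (a (c (a (l 17437048) (l 17270280)) (l 16743624)) (a (l 16781408) (l 16753376))) (a (a (l 16752304) (l 16754624)) (a (a (l 16756416) (l 16757632)) (a (l 16758848) (l 6))))) (a (a (c (l 17337544) (a (l 17020856) (l 16897768))) (a (c (l 17182024) (l 16767000)) (l 16768168))) (a (a (l 16753360)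 (l 16755656)) (a (l 16759336) (a (l 16759832) (l 16761048)))))) (a (a (c (l 17274088) (a (l 16934072) (b (l 16962840) (l 17050416)))) (c (a (l 17163552) (b (l 17115688) (l 17221200))) (b (l 16754200) (l 16753752)))) (a (a (b (l 16757888) (l 16777176)) (b (l 16756656) (l 16761840))) (a (b (l 16758992) (l 16759936)) (b (a (l 16760776) (l 16761976)) (a (l 16761696) (l 16762880)))))))), by decide +kernel⟩

def k4_mm_202 : ∃ t, chk3 f_mm_202 t 30 33 1 = true :=
  ⟨(b (b (a (a (a (l 17260632) (l 17028472)) (c (a (l 17350024) (l 17258312)) (a (b (l 17008744) (l 17054456)) (l 16754512)))) (a (a (a (b (l 16904240) (l 16966664)) (a (l 16808120) (l 16784920))) (b (l 16761352) (l 16793216))) (a (b (l 16759944) (l 16762408)) (b (a (l 16762664) (l 16763832)) (l 16765952))))) (a (a (c (l 17471344) (l 17108816)) (a (l 17080464) (a (l 17063400) (l 16981816)))) (a (a (a (l 16921152) (l 16839608)) (a (l 16779344) (l 16761568))) (a (b (l 16762088) (l 16781264)) (b (l 16766744)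 (l 16768128)))))) (b (a (a (l 17316920) (a (l 17232864) (l 17077608))) (a (a (b (l 17024704) (l 17069824)) (b (l 16910672) (l 16958800))) (a (b (l 16799408) (l 16829392)) (a (b (l 16834648) (l 16866464)) (b (l 16804552) (l 16816400)))))) (a (a (l 17316992) (l 17017472)) (a (a (l 17043272) (a (l 17035664) (l 16961192))) (a (b (l 16873080) (l 16890024)) (b (a (l 16869416) (l 16840904)) (a (l 16887104) (l 16858864)))))))), by decide +kernel⟩

def k5_mm_202 : ∃ t, chk3 f_mm_202 t 31 32 1 = true :=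
  ⟨(a (b (l 6) (a (b (a (b (l 6) (a (l 16762272) (l 6))) (l 6)) (a (b (a (l 16763184) (l 16764392)) (a (l 16764072) (l 16765264))) (b (a (l 6) (l 6)) (a (l 16767776) (a (l 16767360) (l 16767960)))))) (l 6))) (l 6)), by decide +kernel⟩

def k6_mm_202 : ∃ t, chk3 f_mm_202 t 124 33 1 = true :=
  ⟨(b (b (a (b (a (l 16765008) (l 16766184)) (a (l 16765976) (l 16767144))) (b (a (l 16768672) (a (l 16768248) (l 16768840))) (a (l 16768960) (a (l 16769176) (l 16769760))))) (a (b (a (l 16777872) (l 16768104)) (a (l 16774136) (l 16769696))) (b (a (l 16769904) (a (l 16770112) (l 16770680))) (b (a (l 16769960) (l 16771088)) (a (l 16777400) (l 16776800)))))) (a (b (b (a (l 16797944) (l 16773536)) (a (l 16789568) (c (l 16852808) (l 16772680)))) (a (b (l 16814400) (l 16811424)) (a (b (l 16817120) (l 16813976)) (b (l 16805856) (l 16802496))))) (b (b (b (a (l 16790016) (l 16774656)) (a (l 16778376) (l 16773304))) (b (a (l 16784816) (c (l 16799296) (l 16778144))) (a (l 16788728)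 (a (l 16797048) (l 16790128))))) (a (a (b (l 16795408) (l 16781240)) (b (l 16778016) (a (l 16784176) (l 16779408)))) (b (a (a (l 16779384) (l 16780640)) (b (l 16780688) (l 16779720))) (a (b (l 16784928) (l 16781040)) (b (c (l 16784776) (l 16779728)) (b (l 16779192) (b (l 16780000) (a (l 16783312) (a (l 16780336) (a (l 16778936) (b (l 17414752679) (l 54995716535)))))))))))))), by decide +kernel⟩

def k7_mm_202 : ∃ t, chk3 f_mm_202 t 250 66 1 = true :=
  ⟨(b (b (b (a (l 16769496) (l 6)) (a (l 16769952) (l 16771776))) (b (a (l 16770400) (a (l 16771272) (l 16771856))) (a (l 16773480) (a (l 16771720) (l 16772296))))) (b (b (a (l 16773928) (a (l 16772168) (l 16772736))) (a (a (l 16771480) (l 16772048)) (a (l 16772616) (l 16778424)))) (b (a (a (l 16771936) (l 16772504)) (a (l 16778304) (l 16778864))) (a (a (l 16772400) (l 16772960)) (a (l 16778760) (l 16776688)))))), by decide +kernel⟩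

def k8_mm_202 : ∃ t, chk3 f_mm_202 t 251 132 1 = true :=
  ⟨(a (b (l 6) (b (l 6) (a (l 16778112) (a (l 16773296) (l 16778824))))) (l 6)), by decide +kernel⟩

def k9_mm_202 : ∃ t, chk3 f_mm_202 t 502 133 1 = true :=
  ⟨(b (b (a (l 16775928) (a (l 16778968) (l 16779256))) (a (l 16776360) (a (l 16779408) (b (l 16779576) (l 16780072))))) (b (a (a (l 16779288) (l 16779560)) (a (l 16777576) (b (l 16780864) (l 16779032)))) (a (a (b (l 16784856) (l 16780056)) (l 16778104)) (a (l 16777848) (a (l 16778648) (a (l 16779048) (b (l 16780224) (b (l 16778200) (b (l 16778488) (a (c (l 15804140535) (l 16877882423)) (b (l 36205235367) (l 79691779319)))))))))))), by decide +kernel⟩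

def k10_mm_202 : ∃ t, chk3 f_mm_202 t 503 266 1 = true :=
  ⟨(b (a (a (l 16776912) (l 16777576)) (a (b (l 6) (l 16779032)) (l 6))) (a (a (l 16776800) (c (l 16777832) (l 16777880))) (a (a (l 16778656) (a (l 16778728) (b (l 16780232) (b (l 16778208) (a (l 7214206183) (b (l 16778568) (b (c (l 26004687895) (l 27615300711)) (l 65733135207)))))))) (a (b (l 16779320) (b (b (a (l 16778376) (a (l 16778568) (b (l 16778648) (a (l 26541558935) (a (l 54458846487) (l 73249328391)))))) (a (l 16778896) (a (b (c (l 24930946151) (l 26541558887)) (c (l 64122522519) (l 72712456951))) (l 84523617671)))) (a (b (b (a (l 16778648) (a (a (l 33520880823) (l 55532588311)) (l 78081166695))) (a (a (l 28152171671) (c (l 62511910023) (l 64122522839))) (l 4))) (l 87207972263)) (l 4)))) (b (b (l 6) (b (l 6) (a (a (l 16778960) (b (c (l 23857204327) (l 24930946151)) (c (l 62511909911) (l 71638715127)))) (l 86671101447)))) (a (a (b (a (b (b (a (l 31373397175) (l 53921975591)) (l 4)) (l 4))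 (l 86671101447)) (l 4)) (l 4)) (l 4))))))), by decide +kernel⟩

def k11_mm_202 : ∃ t, chk3 f_mm_202 t 1006 267 1 = true :=
  ⟨(b (a (a (l 16778120) (l 16778656)) (b (l 16779056) (b (a (l 16780696) (a (c (l 6677335079) (l 16778816)) (a (b (l 16778568) (b (c (l 29225913335) (l 30836526167)) (l 75396812167))) (b (b (l 16778648) (c (c (l 41037073367) (l 42110815239)) (l 43184557175))) (l 86671101287))))) (b (a (l 16779680) (a (a (b (l 16778640) (c (c (l 42110815191) (l 43184557063)) (l 44258298983))) (b (l 56606330071) (l 4))) (l 4))) (a (a (l 16778432) (a (l 14193528039) (b (c (l 30299655159) (l 31910267991)) (l 76470553911)))) (l 4)))))) (a (a (b (l 16779312) (b (a (b (l 16778368) (c (l 11509173303) (l 12046044311))) (a (b (l 16778560) (b (c (l 33520880599) (l 35131493431)) (l 78618037511))) (b (b (l 16778632) (l 47479524551)) (l 4)))) (a (a (b (b (l 16778792) (l 48553266359)) (l 4)) (l 78618037655)) (l 4)))) (b (b (a (l 16778200) (c (c (l 7214205879) (l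 7214205927)) (l 7751076999))) (b (a (l 16778496) (a (b (l 16778640) (c (l 44795169783) (l 46405782615))) (c (l 67880619095) (l 68954360999)))) (a (a (l 15804140775) (b (c (l 32447138791) (l 34057751623)) (l 78081166615))) (l 4)))) (a (a (b (b (l 69491232023) (l 4)) (l 4)) (l 4)) (l 4)))) (b (a (b (a (a (b (l 16778560) (b (c (l 31373397047) (l 32984009799)) (l 77007424807))) (b (b (l 16778640) (c (l 43721427975) (l 45332040807))) (l 4))) (a (a (b (l 61975039255) (l 4)) (l 4)) (l 4))) (l 4)) (l 4)) (l 4)))), by decide +kernel⟩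

def k12_mm_202 : ∃ t, chk3 f_mm_202 t 1007 267 1 = true :=
  ⟨(b (b (a (a (a (b (l 16778208) (b (l 16778504) (a (l 12582915319) (b (c (l 28152171607) (l 29762784343)) (l 74859941271))))) (b (c (l 16778776) (l 16778816)) (b (b (a (l 16778648) (c (l 53385104455) (l 54995717223))) (a (a (a (l 16778688) (l 38352719015)) (l 66806877511)) (l 4))) (l 87744843159)))) (b (a (b (a (l 16778568) (b (l 16778648) (a (a (l 16778688) (l 36205235367)) (l 65196264775)))) (b (a (c (l 27078429783) (l 28689042535)) (l 83449875815)) (l 75933682967))) (a (b (b (c (c (l 51774491671) (l 52311362615)) (l 53921975415)) (l 4)) (l 4)) (l 4))) (l 4))) (l 4)) (b (b (b (a (a (a (a (c (l 54458846231) (l 56069459047)) (l 4)) (l 4)) (l 4)) (l 4)) (l 4)) (l 4)) (l 4))) (l 4)), by decide +kernel⟩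

def k13_mm_202 : ∃ t, chk3 f_mm_202 t 250 134 1 = true :=
  ⟨(a (a (b (a (l 16778264) (l 16778464)) (b (l 16781616) (l 16784584))) (b (b (l 16783896) (l 16779112)) (b (l 16778080) (l 16776792)))) (b (a (b (l 16779208) (a (l 16784768) (l 16779792))) (a (b (l 16779616) (l 16780688)) (b (l 16780176) (c (l 16778504) (l 16779160))))) (a (a (b (l 16776616) (l 16778648)) (b (l 16778864) (a (l 16779392) (a (l 16778560) (b (l 16782896) (b (l 16778104) (b (l 16778704) (a (c (l 27615300247) (l 29225913111)) (l 64122522519))))))))) (b (a (l 16778648) (b (l 16778992) (a (a (l 16779376) (b (l 16778136) (b (l 16779072) (a (c (l 24930945815) (l 26541558631)) (l 61438168055))))) (b (b (a (l 16778304) (a (l 16778656) (a (l 31373397015) (l 52848233495)))) (a (a (l 16778424) (c (l 24394074887) (l 25467816871))) (l 70028102791))) (a (a (b (a (l 31910267911) (l 53921975303)) (l 4)) (l 4)) (l 4)))))) (b (a (a (l 16779224) (a (b (l 16778120) (b (l 16778728) (a (c (l 26541558471)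 (l 28152171335)) (l 63048780743)))) (b (b (l 16778288) (a (l 16778408) (c (l 25467816663) (l 27078429527)))) (a (b (c (l 43721427719) (l 45332040567)) (l 4)) (l 4))))) (b (a (b (a (a (l 13656656743) (a (l 32984009719) (l 54458846183))) (l 4)) (l 78618037495)) (l 4)) (l 4))) (a (a (a (b (b (l 16778272) (a (l 16778392) (c (l 27078429351) (l 28689042215)))) (a (b (l 46942653447) (l 4)) (l 4))) (b (b (b (l 17951624103) (a (l 20635978519) (l 73249328391))) (l 71638715351)) (l 4))) (l 4)) (l 4))))))), by decide +kernel⟩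

def k14_mm_202 : ∃ t, chk3 f_mm_202 t 500 135 1 = true :=
  ⟨(b (b (a (l 16779976) (a (l 16781688) (l 16778504))) (a (a (l 16785312) (l 16779824)) (b (a (l 16780544) (a (l 16778968) (b (b (l 16778504) (a (l 16778448) (a (l 16778328) (l 33520880455)))) (a (b (l 12046043847) (a (l 34057751335) (l 4))) (c (l 70564973287) (l 71638715239)))))) (b (a (l 16779600) (a (b (a (l 16778440) (a (l 16877882071) (l 51237620423))) (a (a (l 16778296) (l 34594622215)) (l 4))) (l 4))) (a (a (l 16779448) (a (l 16778576) (b (l 13119785623) (a (l 35131493095) (l 4))))) (a (a (l 72175586183) (l 4)) (l 4))))))) (a (b (a (l 16778352) (b (l 16778856) (a (a (l 16778648) (b (l 16779080) (b (l 15267269175) (c (l 51774491047) (l 53385103943))))) (b (b (a (l 16778640) (a (l 19562236503) (l 53921974839))) (a (a (l 16778352) (l 37278976567)) (l 4))) (l 79691779559))))) (b (a (a (l 16778568) (b (b (l 16779104) (a (l 16778936) (a (l 16778384) (l 38352718311)))) (a (b (l 16341010967) (l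 53921974791)) (l 73786198631)))) (a (a (a (b (b (l 21172849175) (l 4)) (l 4)) (l 79691779511)) (l 4)) (l 4))) (a (a (b (b (a (l 16778792) (a (l 22246590951) (l 56606329255))) (a (a (l 16778408) (l 39963330983)) (l 4))) (l 80228650327)) (l 4)) (l 4)))) (b (a (b (b (b (a (l 16778840) (a (a (l 17951623831) (l 52848233095)) (l 4))) (a (a (l 16778720) (a (l 16778312) (l 36205234887))) (l 4))) (a (a (b (l 14193527431) (a (l 36742105767) (l 4))) (l 72712456951)) (l 4))) (l 4)) (l 4)) (l 4)))), by decide +kernel⟩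

def k15_mm_202 : ∃ t, chk3 f_mm_202 t 501 135 1 = true :=
  ⟨(b (a (b (a (b (l 16778632) (b (a (l 16778520) (a (b (l 16778232) (a (l 16778352) (l 31910267767))) (b (a (l 16778736) (l 48553266007)) (l 73786198887)))) (b (a (l 7751076679) (a (a (l 49627007831) (l 4)) (l 4))) (a (a (l 16778272) (a (l 32447138663) (l 67343747879))) (l 4))))) (b (a (a (b (l 16778136) (b (l 16778688) (a (l 30836525975) (l 65733135207)))) (b (b (l 16778248) (a (l 16778368) (l 30299655095))) (a (b (l 48016395127) (l 4)) (l 4)))) (b (b (a (a (l 16778472) (l 47479524247)) (l 4)) (l 79691779143)) (l 4))) (l 4))) (b (b (a (b (a (a (a (l 15267269383) (l 50163878695)) (l 4)) (l 4)) (l 86671101783)) (l 4)) (l 4)) (l 4))) (l 4)) (l 4)), by decide +kernel⟩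

def k16_mm_202 : ∃ t, chk3 f_mm_202 t 1004 268 1 = true :=
  ⟨(b (a (c (l 16779048) (b (l 16780880) (l 16781664))) (c (l 16778720) (l 16778400))) (b (a (l 16779800) (a (l 16779280) (a (b (l 16778176) (b (l 16778464) (a (c (l 20635978631) (l 21709720567)) (a (l 49090137223) (l 77007424823))))) (b (b (l 16778344) (a (l 16778464) (a (l 16778560) (l 26004687991)))) (a (b (a (l 26541558903) (l 48016395351)) (l 4)) (l 81302392039)))))) (a (a (l 16780320) (a (l 16779408) (b (l 16778160) (b (l 16778448) (a (c (l 22246591335) (l 23320333271)) (l 58753813591)))))) (a (b (b (a (l 16778328) (a (l 16778520) (a (l 27615300711) (l 49090137175)))) (a (a (l 16778456) (a (l 16778544) (l 28152171607))) (a (c (l 57143200647) (l 58216942583)) (l 4)))) (a (a (b (a (l 28689042519) (l 50163879031)) (l 4)) (l 81839262823)) (l 4))) (l 88818585831))))), by decide +kernel⟩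

def k17_mm_202 : ∃ t, chk3 f_mm_202 t 1005 268 1 = true :=
  ⟨(b (a (b (l 16779040) (b (a (l 16780672) (b (b (l 16778760) (a (l 16778400) (a (l 16778592) (l 51774491767)))) (a (c (c (l 13119785879) (l 13656656855)) (l 14193527927)) (a (b (l 39426460791) (l 4)) (l 4))))) (b (a (l 16779000) (a (a (a (l 24394075287) (c (l 45332040679) (l 46405782535))) (l 72712457303)) (l 4))) (a (a (l 16778408) (a (c (l 19025365927) (l 20099107847)) (b (l 40500202599) (l 4)))) (l 4))))) (a (b (a (b (l 16778192) (b (l 16778480) (a (c (l 17414753255) (l 18488495143)) (b (l 38352718983) (l 81302392039))))) (b (b (l 16778360) (c (l 12582915095) (l 13119786119))) (a (b (b (l 18488495127) (l 50700749975)) (l 4)) (l 79154908535)))) (c (b (l 85597358951) (l 4)) (l 88818585959))) (b (b (a (b (a (l 16778552) (b (l 17414753319) (l 49627008183))) (a (b (l 37278977175) (l 80228650231)) (l 4))) (l 81302392231)) (l 4)) (l 4)))) (b (b (a (a (a (b (b (l 16778872) (a (l 16778576) (l 53385104455)))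 (a (a (l 47479524439) (l 77007424919)) (l 4))) (l 82913004903)) (l 4)) (l 4)) (l 4)) (l 4))), by decide +kernel⟩

def k18_mm_202 : ∃ t, chk3 f_mm_202 t 503 268 1 = true :=
  ⟨(l 4), by decide +kernel⟩

def k19_mm_202 : ∃ t, chk3 f_mm_202 t 251 269 1 = true :=
  ⟨(a (a (b (b (a (a (a (b (l 16778152) (b (l 16778432) (a (c (l 23857204023) (l 24930945927)) (l 60364426279)))) (b (b (l 16778320) (a (l 16778440) (a (l 16778528) (l 29762784311)))) (a (b (a (l 30299655207) (l 51774491703)) (l 4)) (l 4)))) (b (a (a (b (l 16778504) (l 59290684471)) (b (a (l 29225913415) (l 51237620823)) (l 4))) (l 84523617479)) (l 4))) (l 4)) (l 4)) (l 4)) (l 4)) (l 4)), by decide +kernel⟩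

def k20_mm_202 : ∃ t, chk3 f_mm_202 t 251 135 1 = true :=
  ⟨(l 4), by decide +kernel⟩

def k21_mm_202 : ∃ t, chk3 f_mm_202 t 63 33 1 = true :=
  ⟨(a (b (b (l 6) (b (b (l 6) (b (l 6) (l 4))) (l 4))) (l 4)) (l 4)), by decide +kernel⟩

def k22_mm_202 : ∃ t, chk3 f_mm_202 t 60 34 1 = true :=
  ⟨(b (a (l 17266648) (b (l 17138488) (l 17124624))) (a (l 17180768) (a (l 17092456) (l 17011248)))), by decide +kernel⟩

def k23_mm_202 : ∃ t, chk3 f_mm_202 t 122 34 1 = true :=
  ⟨(b (a (b (l 17063728) (l 17031488)) (b (l 16958400) (l 16948464))) (a (b (l 16992464) (l 16949352)) (b (l 16889120) (a (l 16903544) (l 16851984))))), by decide +kernel⟩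

def k24_mm_202 : ∃ t, chk3 f_mm_202 t 123 68 1 = true :=
  ⟨(a (a (b (l 16953824) (l 16923568)) (b (l 16881648) (l 16851576))) (b (b (a (l 16899856) (l 16850712)) (a (l 16887760) (l 16838528))) (a (b (l 16872616) (l 16834112)) (b (l 16823192) (a (l 16812512) (l 16798392)))))), by decide +kernel⟩

def k25_mm_202 : ∃ t, chk3 f_mm_202 t 246 69 1 = true :=
  ⟨(b (a (l 16864384) (b (l 16865344) (l 16823784))) (a (b (l 16853464) (l 16810248)) (b (c (l 16809288) (l 16795056)) (a (l 16787400) (b (l 16777880) (a (l 16780808) (b (l 16781320) (a (a (l 16778456) (b (l 16783232) (l 8824817863))) (a (b (l 16778720) (a (b (l 16779688) (l 4)) (l 4))) (b (b (l 16778864) (l 4)) (l 4))))))))))), by decide +kernel⟩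

def k26_mm_202 : ∃ t, chk3 f_mm_202 t 247 138 1 = true :=
  ⟨(b (a (l 16814744) (a (l 16792936) (b (l 16783720) (l 16781320)))) (a (a (l 16801384) (l 16786592)) (a (b (l 16787784) (a (l 16780664) (b (l 16781320) (a (l 2919241111) (b (l 3456107543) (b (a (l 16778184) (l 4)) (l 4))))))) (b (a (b (l 16779608) (l 2919236215)) (a (b (l 16779480) (b (l 16777744) (b (a (l 16778248) (l 4)) (l 50163877303)))) (b (a (l 16779424) (b (l 16781600) (b (l 16778280) (l 23857202055)))) (a (b (b (l 12046041879) (l 4)) (l 4)) (l 4))))) (a (b (b (a (l 16779856) (a (l 16777800) (b (l 13656654791) (l 4)))) (a (a (l 16778040) (b (l 16778216) (l 4))) (l 4))) (a (b (a (a (l 26004686135) (l 4)) (l 4)) (l 4)) (l 4))) (l 4)))))), by decide +kernel⟩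

def k27_mm_202 : ∃ t, chk3 f_mm_202 t 247 139 1 = true :=
  ⟨(a (b (b (a (l 16785144) (b (l 16783496) (a (l 16792168) (a (l 16781360) (a (l 16778576) (l 3456111591)))))) (a (a (l 16777808) (l 16780792)) (a (b (l 16781360) (b (a (l 16784264) (b (l 16778616) (a (l 16780760) (c (l 9361688119) (l 16777864))))) (a (l 3456111207) (a (b (l 8287946343) (l 4)) (l 4))))) (b (b (a (l 16779800) (a (b (l 16780336) (l 9361688023)) (l 43184555927))) (a (a (l 16777928) (b (l 7751075287) (l 4))) (l 4))) (l 4))))) (a (b (a (a (l 16778928) (b (l 16788472) (a (l 16778504) (b (l 16783288) (l 7751075687))))) (b (a (l 16779472) (b (l 16779752) (a (l 16778192) (b (l 9361688295) (l 4))))) (a (a (b (l 16781408) (b (l 10435430391) (l 4))) (b (b (l 16780240) (a (l 16778648) (l 4))) (l 4))) (l 4)))) (a (b (b (a (l 16779696) (b (a (l 16780208) (l 4)) (l 4))) (a (a (l 8287946855) (b (l 11509172151) (l 4))) (l 4))) (l 4)) (l 4))) (b (a (a (a (b (b (b (l 16780272) (a (l 16779336) (l 4)))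 (l 4)) (l 4)) (l 4)) (l 4)) (l 4)) (l 4)))) (b (b (a (a (b (a (l 16779512) (a (l 2919241047) (b (l 16781536) (a (l 6140462311) (l 28152169927))))) (b (c (a (c (l 3992978647) (l 16777784)) (a (l 41037072071) (l 4))) (a (l 16778024) (l 56606328647))) (b (a (a (l 16778120) (l 4)) (l 4)) (l 4)))) (b (b (a (a (l 5066720439) (b (l 17414751447) (l 4))) (l 4)) (l 4)) (l 4))) (l 4)) (l 4)) (l 4))), by decide +kernel⟩

def k28_mm_202 : ∃ t, chk3 f_mm_202 t 60 35 1 = true :=
  ⟨(a (b (l 17065704) (a (l 17019752) (l 16942976))) (b (a (l 16979344) (b (l 16964344) (l 16896832))) (a (b (l 16929960) (l 16841696)) (b (a (l 16886048) (l 16835384)) (a (b (l 16851384) (l 16807552)) (b (a (l 16829208) (l 16793360)) (a (b (l 16812088) (l 16779792)) (b (a (l 16800960) (l 16783056)) (b (b (l 12582920327) (a (l 16791104) (a (l 16780392) (a (l 27615306231) (l 4))))) (a (l 15267274743) (a (b (l 24930951015) (l 4)) (l 4)))))))))))), by decide +kernel⟩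

def k29_mm_202 : ∃ t, chk3 f_mm_202 t 122 70 1 = true :=
  ⟨(b (a (l 16862048) (a (l 16816328) (a (l 16793360) (b (l 16831448) (b (l 16814200) (l 16781648)))))) (a (a (l 16851848) (b (l 16854112) (l 16809896))) (a (b (a (l 16831232) (l 16794944)) (a (b (l 16813800) (l 16781208)) (b (l 16788000) (a (l 16780232) (b (c (l 9898562247) (l 9361690919)) (b (a (l 16780960) (a (l 20099109415) (l 4))) (a (a (l 19025368343) (l 4)) (l 4)))))))) (b (b (a (l 16785408) (b (l 16783432) (b (l 16779080) (a (l 16790504) (a (l 16784760) (a (l 16779296) (a (l 16341012327) (l 4)))))))) (a (a (l 16788112) (l 16780440)) (a (b (l 8824820071) (a (b (l 16781120) (a (l 16779224) (a (l 19025367367) (l 4)))) (a (b (l 15804141751) (l 4)) (l 4)))) (a (b (b (l 12582916055) (a (a (l 17414754343) (l 4)) (l 4))) (l 4)) (l 4))))) (a (b (b (a (l 16779408) (a (l 10435432759) (b (l 14193529223) (a (a (l 20099109303) (l 4)) (l 4))))) (a (a (l 16780776) (b (l 16781040) (a (l 17951626647) (a (l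 21709722327) (l 4))))) (a (a (b (l 17951625783) (l 4)) (l 4)) (l 4)))) (a (a (b (b (c (l 15804142311) (l 14730400039)) (a (a (l 23320335047) (l 4)) (l 4))) (l 4)) (l 4)) (l 4))) (l 4)))))), by decide +kernel⟩

def k30_mm_202 : ∃ t, chk3 f_mm_202 t 244 71 1 = true :=
  ⟨(b (b (a (l 16816976) (a (l 16794288) (a (l 16782888) (b (l 16802040) (l 9898565303))))) (a (a (l 16801368) (b (l 16813048) (l 16780560))) (a (b (l 16787440) (a (l 10435435719) (a (b (l 16782208) (a (l 19025369399) (b (l 23320337303) (l 4)))) (b (c (l 15804143751) (l 15267272535)) (l 4))))) (b (a (a (l 10972307047) (b (l 16782320) (a (l 17414756471) (b (l 16780800) (l 4))))) (b (a (c (l 14730401495) (l 13656659415)) (b (a (l 16781160) (l 33520883223)) (l 4))) (l 4))) (a (a (a (b (b (l 22783466439) (l 4)) (l 4)) (l 4)) (l 4)) (l 4)))))) (a (a (b (b (l 16784128) (a (l 16786944) (c (l 11509177319) (l 10972306007)))) (b (b (a (l 16783712) (b (b (l 19562241223) (a (l 16781560) (l 4))) (a (a (l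 16781776) (l 4)) (l 4)))) (a (a (l 16877886871) (b (l 22783466967) (l 4))) (l 4))) (a (a (a (b (b (l 28689047303) (l 4)) (l 4)) (l 4)) (l 4)) (l 4)))) (b (b (b (l 16782456) (a (l 16780520) (a (l 16781512) (b (l 19025369751) (a (l 28689045831) (l 4)))))) (a (b (a (l 16781984) (a (l 16781864) (c (l 21709724023) (l 21172852599)))) (a (b (l 21172853847) (l 4)) (l 4))) (a (a (b (b (l 23320337159) (l 4)) (l 4)) (l 4)) (l 4)))) (l 4))) (b (a (b (a (b (a (b (l 16779792) (l 21709723847)) (a (b (l 23857208247) (l 4)) (l 4))) (l 4)) (l 4)) (l 4)) (l 4)) (l 4)))), by decide +kernel⟩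

def k31_mm_202 : ∃ t, chk3 f_mm_202 t 245 71 1 = true :=
  ⟨(b (a (b (a (b (a (l 16783928) (a (l 16780832) (b (l 16782536) (a (l 14193530135) (b (l 16779952) (l 4)))))) (a (b (a (l 16782424) (l 13119788455)) (b (a (l 16780792) (a (l 31373399431) (l 4))) (b (a (l 21709723175) (l 4)) (l 4)))) (a (b (b (a (l 16779912) (l 28152173655)) (l 4)) (l 4)) (l 4)))) (b (a (b (a (l 12582917383) (b (a (l 16779984) (l 22246593191)) (l 4))) (a (a (b (l 24930947879) (l 4)) (l 4)) (l 4))) (l 4)) (l 4))) (l 4)) (l 4)) (l 4)), by decide +kernel⟩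

def k32_mm_202 : ∃ t, chk3 f_mm_202 t 246 140 1 = true :=
  ⟨(b (a (a (l 16795152) (b (l 16785576) (a (l 16777920) (l 16780744)))) (a (b (a (l 16784600) (a (l 16778880) (b (l 16788424) (b (l 16784120) (c (l 9361689143) (l 16778688)))))) (a (b (l 16781224) (b (a (l 16784056) (a (l 16778584) (a (l 13656656727) (l 4)))) (a (a (l 16782136) (l 12046043975)) (l 4)))) (b (b (a (l 16779568) (b (a (l 16778768) (l 4)) (l 4))) (a (a (l 10972302055) (l 4)) (l 4))) (l 4)))) (b (a (b (b (l 16778904) (a (l 16780568) (a (l 9898559959) (a (b (l 16779664) (l 4)) (l 4))))) (a (a (b (l 16778656) (a (b (l 16779632) (l 4)) (l 4))) (b (b (l 16778800) (l 4)) (l 4))) (l 4))) (a (a (b (b (b (l 16778832) (l 4)) (l 4)) (l 4)) (l 4)) (l 4))) (l 4)))) (a (a (b (l 16788360) (a (l 16780616) (b (l 16779776) (a (b (l 16778664) (a (l 16779368) (b (l 16780824) (l 4)))) (b (a (l 12046044551) (b (l 16877882775) (l 4))) (l 4)))))) (a (a (b (l 16778768) (b (b (l 9898560887) (a (b (l 16780856)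 (l 4)) (l 4))) (l 4))) (b (b (l 16788312) (b (l 16778736) (a (l 16782064) (b (l 16780888) (l 4))))) (b (b (a (b (l 15804140839) (l 4)) (l 4)) (l 4)) (l 4)))) (b (a (b (l 16779248) (b (b (l 10972302391) (a (l 16779120) (l 4))) (l 4))) (b (b (l 8824818711) (a (c (l 13119786087) (l 12046043767)) (l 4))) (l 4))) (l 4)))) (a (b (a (a (a (a (b (b (l 14193527591) (l 4)) (l 4)) (l 4)) (l 4)) (l 4)) (l 4)) (l 4)) (l 4)))), by decide +kernel⟩

def k33_mm_202 : ∃ t, chk3 f_mm_202 t 246 141 1 = true :=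
  ⟨(a (b (a (b (a (b (a (l 16779096) (b (l 10972302967) (b (a (l 16779480) (l 4)) (l 4)))) (a (a (b (l 14193528711) (l 4)) (l 4)) (l 4))) (a (a (b (b (b (l 18488495799) (l 4)) (l 4)) (l 4)) (l 4)) (l 4))) (l 4)) (l 4)) (l 4)) (l 4)), by decide +kernel⟩

def k34_mm_202 : ∃ t, chk3 f_mm_202 t 247 70 1 = true :=
  ⟨(l 4), by decide +kernel⟩

def k35_mm_202 : ∃ t, chk3 f_mm_202 t 123 71 1 = true :=
  ⟨(l 4), by decide +kernel⟩

def k36_mm_202 : ∃ t, chk3 f_mm_202 t 248 68 1 = true :=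
  ⟨(a (b (b (l 16803112) (a (l 16818200) (l 16805136))) (a (b (l 16802608) (a (l 16787968) (l 16781112))) (b (l 16784056) (b (l 16786232) (a (l 16779928) (a (l 16778800) (b (l 16779240) (b (l 16778136) (a (c (l 12046041719) (l 13656654679)) (l 48553264167)))))))))) (b (b (a (l 16805368) (l 16783096)) (a (l 16792512) (b (l 16784024) (l 16787016)))) (b (a (b (l 16780672) (l 16779792)) (a (b (l 16781816) (a (l 16779736) (b (l 16784144) (b (l 16778088) (a (l 12046042439) (a (l 35131491655) (l 4))))))) (b (l 16778352) (a (a (b (l 16779216) (b (b (l 16778328) (l 39426458919)) (l 4))) (b (b (l 16781448) (l 11509171639)) (l 4))) (b (a (b (l 16778624) (b (l 26541557191) (l 4))) (b (b (l 16778344) (l 38889588151)) (l 4))) (l 4)))))) (a (b (a (l 1845494951) (a (b (l 16779096) (b (l 16778120) (a (c (l 11509171047) (l 12582913143)) (c (l 45868909415) (l 47479522311))))) (b (b (l 16782320) (c (c (l 8287945575) (l 8287945671)) (l 9898558775))) (a (b (a (l 15267267799)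 (l 36205233287)) (l 4)) (l 4))))) (a (a (a (b (l 16779376) (b (a (l 16341009335) (l 37278974823)) (l 4))) (b (b (l 16781576) (c (l 11509170887) (l 13119783879))) (l 4))) (b (a (b (l 16778624) (l 47479522311)) (b (a (l 15267267575) (l 36742104055)) (l 4))) (l 4))) (l 4))) (b (b (a (a (a (b (l 16778632) (a (l 36205233383) (l 4))) (b (a (l 14193526023) (l 35668362519)) (l 4))) (l 4)) (l 4)) (l 4)) (l 4)))))), by decide +kernel⟩

def k37_mm_202 : ∃ t, chk3 f_mm_202 t 249 272 1 = true :=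
  ⟨(b (a (a (l 16785200) (l 16785352)) (a (a (l 16778128) (l 16778816)) (a (b (l 2919238055) (a (a (l 16778504) (b (l 16779536) (b (l 19025365287) (l 56606329031)))) (b (b (a (l 16778896) (c (l 42110814279) (l 43721427207))) (a (a (l 16778264) (l 42110814391)) (l 4))) (l 4)))) (b (a (b (b (l 16779312) (a (l 16779096) (a (l 16778424) (l 41037072727)))) (a (b (l 18488494439) (l 55532587287)) (l 4))) (a (a (b (b (l 23320332615) (l 4)) (l 4)) (l 80765519863)) (l 4))) (l 4))))) (a (a (l 16779384) (c (l 16780728) (l 16779152))) (a (b (a (l 16778744) (a (l 4529850599) (b (b (l 16779472) (a (l 16779216) (c (l 30836525015) (l 32447137911)))) (a (b (l 20099107031) (l 57143199863)) (l 4))))) (b (a (l 16778840) (a (a (b (l 16778968) (c (l 31373395815) (l 32984008743))) (b (l 45332039847) (l 4))) (l 4))) (a (a (l 16780928) (a (l 16778304) (b (l 21172848759) (l 58216941591)))) (l 4)))) (a (a (a (b (a (b (b (l 26004687031) (l 4)) (l 4)) (l 4)) (l 4)) (l 4)) (l 4)) (l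 4))))), by decide +kernel⟩

def k38_mm_202 : ∃ t, chk3 f_mm_202 t 249 273 1 = true :=
  ⟨(a (a (b (l 16783040) (a (l 16778200) (a (l 16779152) (b (l 16783608) (b (l 16777944) (a (l 9361688183) (b (l 24394073831) (l 4)))))))) (b (a (l 16778776) (b (c (c (l 3456108247) (l 16778288)) (l 16778168)) (b (a (l 16780440) (a (b (l 16779008) (c (l 32984008375) (l 34594621303))) (l 60364425303))) (a (a (l 8287946647) (b (l 22783461271) (l 4))) (l 4))))) (a (a (b (c (l 5066720951) (l 16778336)) (b (a (b (l 16778360) (l 36742104855)) (l 61438166935)) (l 4))) (b (b (b (l 16778352) (a (l 16779344) (l 35668363111))) (a (b (l 23320332055) (l 4)) (l 4))) (l 4))) (a (b (b (l 70028101703) (l 4)) (l 4)) (l 4))))) (a (b (a (b (b (b (a (l 16779584) (a (l 46405781591) (l 4))) (a (a (l 16779296) (c (l 32447137543) (l 34057750487))) (l 4))) (b (a (a (l 21709719559) (l 4)) (l 4)) (l 81302393095))) (l 4)) (l 4)) (l 4)) (l 4))), by decide +kernel⟩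

def k39_mm_202 : ∃ t, chk3 f_mm_202 t 249 137 1 = true :=
  ⟨(a (b (a (b (a (a (b (l 16783904) (b (l 16778032) (a (l 10972300903) (b (l 26004686359) (l 4))))) (a (b (l 16779088) (b (b (l 16779008) (l 37815846423)) (l 4))) (b (c (l 6677333495) (l 16778056)) (l 83986749735)))) (b (a (a (b (l 16779896) (b (l 25467815591) (l 4))) (b (b (l 16778360) (l 37278975607)) (l 4))) (l 87744843671)) (l 4))) (l 4)) (l 4)) (l 4)) (l 4)), by decide +kernel⟩

def k40_mm_202 : ∃ t, chk3 f_mm_202 t 124 69 1 = true :=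
  ⟨(a (b (a (b (a (b (a (l 16783672) (a (l 16778448) (l 16777616))) (a (b (l 16781184) (a (l 16777688) (b (l 16778104) (a (a (l 16778080) (l 20099105543)) (l 4))))) (b (b (a (l 16782480) (a (l 16778560) (a (l 17951621687) (l 39426458343)))) (a (a (l 16780736) (a (l 16778112) (l 18488492647))) (l 100629747127))) (a (a (a (b (l 19025363607) (l 4)) (l 4)) (l 4)) (l 4))))) (b (a (a (b (l 16779352) (b (l 16778128) (a (a (l 16778136) (l 17414750807)) (l 50163876951)))) (a (b (l 16779408) (b (a (l 17414750935) (l 38352716407)) (l 4))) (b (b (l 16781608) (c (l 12582912471) (l 14193525479))) (l 4)))) (b (a (a (b (l 16778600) (l 49090134935)) (b (a (l 16341009175) (l 37815845639)) (l 4))) (l 4)) (l 4))) (l 4))) (a (b (b (b (a (a (a (l 16777856) (a (l 20635976503) (l 4))) (l 4)) (l 4)) (l 4)) (l 4)) (l 4)) (l 4))) (l 4)) (l 4)) (l 4)), by decide +kernel⟩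

def k41_mm_202 : ∃ t, chk3 f_mm_202 t 125 34 1 = true :=
  ⟨(l 4), by decide +kernel⟩

def k42_mm_202 : ∃ t, chk3 f_mm_202 t 62 35 1 = true :=
  ⟨(l 4), by decide +kernel⟩

def k43_mm_202 : ∃ t, chk3 f_mm_202 t 63 17 1 = true :=
  ⟨(l 4), by decide +kernel⟩

def k44_mm_202 : ∃ t, chk3 f_mm_202 t 28 18 1 = true :=
  ⟨(b (l 17345448) (a (l 17347816) (l 17175760))), by decide +kernel⟩

def k45_mm_202 : ∃ t, chk3 f_mm_202 t 29 18 1 = true :=
  ⟨(a (b (l 17035328) (a (l 17031704) (b (l 17026888) (l 16883024)))) (b (a (b (l 17108656) (l 17018480)) (b (l 16965360) (a (l 16923048) (b (l 16914192) (l 16850152))))) (a (b (a (l 16957384) (l 16867376)) (a (b (l 16896800) (l 16837024)) (b (a (l 16861224) (l 16816112)) (a (b (l 16832184) (a (l 16819168) (l 16786344))) (b (a (l 16814232) (b (l 16806920) (l 16787000))) (a (a (l 16787928) (b (l 16797112) (l 33520888903))) (b (a (l 16785976) (b (l 16782472) (l 4))) (l 82376163623)))))))) (a (b (b (l 16859440) (a (l 16831160)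 (b (l 16837176) (l 16796216)))) (b (a (b (l 16801400) (a (l 16788136) (b (l 16780688) (l 19562244807)))) (a (b (b (l 16808680) (l 16788480)) (b (a (l 16782008) (b (l 16783576) (l 54995726231))) (a (b (l 42110823319) (l 4)) (l 4)))) (b (b (l 16785744) (a (l 16783240) (b (l 34594630167) (l 4)))) (l 82376154343)))) (a (b (a (b (l 16784360) (a (l 28689050423) (b (l 48553274679) (l 4)))) (b (a (b (l 16783016) (l 61975049079)) (l 4)) (l 4))) (l 4)) (l 4)))) (b (b (a (l 16821320) (b (l 16805736) (a (l 16791752) (a (l 16782040) (l 16783432))))) (a (b (a (l 16818192) (l 16784464)) (a (b (l 16782272) (l 16782984)) (b (a (l 16783296) (b (l 16784712) (l 41573952039))) (a (b (l 28152178887) (l 4)) (l 4))))) (b (a (b (l 16787136) (a (l 16785720) (b (l 16783248) (l 65196273239)))) (b (a (b (l 16785288) (l 35131500663)) (a (b (l 16783312) (l 4)) (l 4))) (l 4))) (a (b (a (b (l 54995725911) (l 4)) (l 4)) (l 4)) (l 4))))) (b (a (b (a (b (a (b (l 16784144) (l 46942661623))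 (l 73786217511)) (l 4)) (l 4)) (l 4)) (l 4)) (l 4))))))), by decide +kernel⟩

def k46_mm_202 : ∃ t, chk3 f_mm_202 t 28 19 1 = true :=
  ⟨(b (a (l 17189336) (a (l 17079152) (l 16917352))) (a (l 16943144) (a (b (l 16973000) (l 16865192)) (b (a (l 16915752) (l 16834648)) (a (b (l 16866456) (l 16792824)) (b (a (l 16837448) (b (l 16825832) (l 16788984))) (a (b (l 16813768) (c (l 89355538295) (l 26541567863))) (b (b (l 16787824) (a (l 16784992) (l 80228674663))) (a (l 70565008311) (l 4)))))))))), by decide +kernel⟩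

def k47_mm_202 : ∃ t, chk3 f_mm_202 t 58 19 1 = true :=
  ⟨(b (b (a (l 16935408) (a (l 16850120) (b (l 16845200) (a (l 16819736) (b (l 16827336) (a (l 16814992) (l 16782808))))))) (a (a (l 16883800) (b (l 16880776) (l 16824872))) (a (b (a (l 16848792) (l 16806152)) (a (b (l 16822656) (a (l 16810936) (l 16789848))) (b (a (l 16785584) (l 21172858327)) (a (b (l 16783464) (l 64122548151)) (b (l 71101877271) (l 4)))))) (b (a (b (l 16792992) (a (l 16781072) (b (l 16784960) (a (l 16784544) (l 66270018999))))) (b (a (l 16784304) (b (l 30299663687) (l 73786230583))) (a (b (a (l 43184566695) (l 4)) (l 4)) (l 4)))) (a (b (a (b (a (l 16781552) (l 50163889895)) (l 81302423303)) (l 4)) (l 4)) (l 4)))))) (a (b (b (a (l 16832208) (a (l 16801432) (a (l 16785880) (b (l 16783728) (b (l 16781984) (l 69491245031)))))) (a (a (l 16809208) (b (l 16818144) (l 16786248))) (a (b (a (l 16781896) (b (l 16786248) (l 46942665479))) (a (b (l 16783176) (l 75933694967)) (l 4))) (c (l 82376170487)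 (c (l 82913040663) (l 82913040183)))))) (a (b (a (b (l 16785048) (a (l 16784856) (l 66270042615))) (b (a (b (l 16784624) (l 58753828615)) (l 80228682967)) (l 4))) (l 100092915495)) (l 4))) (b (a (b (a (b (a (a (l 16786392) (l 31373406343)) (b (a (l 16785416) (l 63048794247)) (l 4))) (l 93650457511)) (l 4)) (l 4)) (l 4)) (l 4)))), by decide +kernel⟩

def k48_mm_202 : ∃ t, chk3 f_mm_202 t 59 19 1 = true :=
  ⟨(b (a (b (a (a (b (l 16811040) (b (a (l 16789376) (l 16783256)) (a (b (l 16786488) (a (l 16785856) (l 56606341623))) (b (a (l 31910276599) (l 68954371703)) (l 4))))) (b (b (l 16797136) (a (l 16784568) (b (l 16788040) (a (l 16781952) (l 43721437255))))) (a (b (b (l 16782944) (a (l 50163889447) (l 4))) (l 4)) (l 86671135367)))) (a (b (b (a (b (l 16805176) (l 16785528)) (b (l 16782992) (a (l 37815856327) (l 74859950231)))) (a (b (a (l 16784728) (l 63048792935)) (l 4)) (l 4))) (l 4)) (a (l 94724201415) (l 4)))) (a (b (l 101703527159) (l 4)) (l 4))) (l 4))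 (l 4)), by decide +kernel⟩

def k49_mm_202 : ∃ t, chk3 f_mm_202 t 120 36 1 = true :=
  ⟨(a (b (l 16885552) (b (a (l 16874480) (l 16826552)) (a (b (l 16842240) (l 16800200)) (b (a (l 16822168) (l 16787704)) (a (b (l 16806400) (a (l 16799360) (l 16782248))) (b (a (l 16785872) (l 18488502311)) (a (a (l 21709727959) (b (l 16781848) (l 4))) (a (b (l 42110822295) (l 4)) (l 4))))))))) (b (b (l 16873976) (a (l 16842992) (b (l 16847192) (l 16804104)))) (b (b (a (l 16810048) (a (l 16789296) (b (l 16780768) (a (l 16783992) (a (l 16784080) (a (l 20635985511) (b (l 16787672) (l 48553272823)))))))) (a (a (l 16795352) (b (l 16807952) (l 16786824))) (a (b (l 13656663543) (a (a (l 16782280) (b (l 16782800) (l 48553272951))) (a (b (l 27615307015) (l 4)) (l 4)))) (b (a (b (l 21709727335) (a (l 45332047367) (l 4))) (l 4)) (l 4))))) (a (b (b (a (l 16789904) (a (l 17414760231) (b (l 24930952103) (a (l 51237627559) (l 4))))) (a (a (l 16782832) (a (l 16782440) (b (l 16782328)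 (l 55532595399)))) (a (a (b (l 34057758023) (l 4)) (l 4)) (l 4)))) (a (b (a (b (c (l 29225919767) (l 28152177143)) (l 4)) (l 4)) (l 4)) (l 4))) (l 4))))), by decide +kernel⟩

def k50_mm_202 : ∃ t, chk3 f_mm_202 t 121 72 1 = true :=
  ⟨(a (a (b (l 16831536) (b (a (l 16826024) (l 16790832)) (a (b (l 16809464) (l 16788072)) (b (l 16782216) (a (a (l 16784568) (a (l 19025372423) (b (l 16788128) (l 39963337623)))) (b (a (l 22783468887) (a (l 38352724871) (l 4))) (l 4))))))) (b (b (l 16814080) (a (l 16798776) (b (l 16810912) (l 16789264)))) (b (b (a (l 16782064) (a (l 16781816) (b (l 16782032) (a (l 23857209495) (a (l 52311368615) (l 4)))))) (a (a (l 16785120) (a (l 16785048) (b (l 16789464) (l 27615306039)))) (a (b (a (l 16782064) (a (l 29225918663) (l 53921981335))) (l 4)) (l 4)))) (a (b (a (b (l 18488501319) (a (a (l 16781920) (l 36205241047)) (l 4))) (a (a (b (l 34057757223) (l 4)) (l 4)) (l 4))) (l 4)) (l 4))))) (b (a (a (b (l 16792264) (b (a (l 16800040)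 (l 16782304)) (b (b (l 14730404503) (a (l 16790336) (a (l 16782440) (l 4)))) (a (l 19025371767) (a (b (l 38889595255) (l 4)) (l 4)))))) (b (b (l 16783256) (b (l 16785336) (a (l 16793880) (l 16877888071)))) (b (a (b (l 16783112) (a (l 22246597287) (b (l 34594627703) (l 4)))) (a (b (b (l 26004694663) (l 48016400967)) (l 4)) (l 4))) (l 4)))) (b (a (b (a (l 16782744) (b (l 16783464) (a (l 19562242391) (b (l 27615305815) (l 4))))) (a (a (b (l 16781528) (b (l 30299660183) (l 4))) (b (b (l 16781984) (l 43721433383)) (l 4))) (l 4))) (b (a (a (b (a (l 21172854951) (b (l 16781208) (l 4))) (l 4)) (l 4)) (l 4)) (l 4))) (l 4))) (a (b (a (b (a (a (b (b (l 25467822919) (l 4)) (l 4)) (l 4)) (l 4)) (l 4)) (l 4)) (l 4)) (l 4)))), by decide +kernel⟩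

def k51_mm_202 : ∃ t, chk3 f_mm_202 t 121 73 1 = true :=
  ⟨(a (b (a (a (b (b (a (l 16783432) (b (l 19562243415) (a (a (l 27615307207) (l 44795176215)) (l 4)))) (a (b (a (l 24930952743) (a (l 46405788983) (l 4))) (l 4)) (l 4))) (l 4)) (c (l 93113574199) (a (l 91502959927) (l 4)))) (l 4)) (l 4)) (l 4)), by decide +kernel⟩

def k52_mm_202 : ∃ t, chk3 f_mm_202 t 60 37 1 = true :=
  ⟨(a (b (a (b (a (a (b (l 16786088) (b (a (l 16784592) (c (l 21709727207) (l 21172855575))) (a (a (l 28689049415) (b (l 16783536) (l 4))) (l 4)))) (b (b (l 16788528) (a (l 16781656) (a (l 23320339879) (b (l 16781376) (l 4))))) (b (a (a (b (l 16783768) (l 4)) (l 73249346007)) (l 4)) (l 4)))) (b (a (b (a (l 20099114983) (b (a (l 16781616) (l 45868918823)) (l 4))) (a (l 78618054759) (l 4))) (l 4)) (l 4))) (l 4)) (l 4)) (l 4)) (l 4)), by decide +kernel⟩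

def k53_mm_202 : ∃ t, chk3 f_mm_202 t 61 18 1 = true :=
  ⟨(l 4), by decide +kernel⟩

def k54_mm_202 : ∃ t, chk3 f_mm_202 t 30 19 1 = true :=
  ⟨(l 4), by decide +kernel⟩

def k55_mm_202 : ∃ t, chk3 f_mm_202 t 31 9 1 = true :=
  ⟨(l 4), by decide +kernel⟩

def k56_mm_202 : ∃ t, chk3 f_mm_202 t 6 5 1 = true :=
  ⟨(b (a (b (l 17574648) (a (l 17428296) (l 17264608))) (a (b (l 17498120) (b (l 17223720) (a (l 17069128) (a (l 16989880) (l 16934968))))) (b (a (b (l 17177936) (l 17059400)) (b (l 17012104) (a (l 16968664) (b (l 16933704) (l 16836272))))) (a (b (b (l 16977008) (l 16861888)) (a (b (l 16903424) (a (l 16868896) (l 16798712))) (b (a (l 16860328) (b (l 16843392) (l 16798008))) (a (l 21172872663) (b (l 39963355687) (l 82913022839)))))) (b (a (b (l 16866352) (a (l 16830072) (b (l 16833360) (l 16787392)))) (b (a (l 16798992) (b (l 16801424) (a (l 16783616) (l 48016418439)))) (a (b (a (l 16789376) (l 61975092807)) (l 70028160247)) (l 90966113319)))) (a (b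 (a (b (a (l 16821200) (l 16785376)) (l 50700776983)) (l 75933722247)) (l 4)) (l 4))))))) (a (b (a (l 17225008) (a (l 17109200) (l 17168056))) (a (l 17147656) (a (b (l 16973608) (l 16976184)) (b (a (l 16910576) (b (l 16887016) (l 16803560))) (a (b (l 16849960) (l 26541582087)) (b (l 34057781351) (l 83986785511))))))) (b (a (b (a (l 16993096) (a (b (l 16917424) (l 16871008)) (b (l 16821216) (a (l 16788864) (l 31373423879))))) (a (b (l 16966064) (a (l 16883264) (l 16812816))) (a (b (a (l 16839184) (b (l 16823896) (l 16791464))) (a (l 42110846743) (l 82913044679))) (b (l 74860000535) (l 4))))) (a (b (a (b (a (l 16800864) (b (l 16784552) (l 61438191927))) (l 84523682455)) (b (l 94187343463) (l 4))) (l 4)) (l 4))) (a (a (b (a (b (l 16798192) (a (l 16790096) (l 52311402119))) (b (a (l 29225938135) (l 69491266199)) (l 102777279799))) (a (b (l 93113597111) (l 4)) (l 4))) (l 4)) (l 4))))), by decide +kernel⟩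

def k57_mm_202 : ∃ t, chk3 f_mm_202 t 7 5 1 = true :=
  ⟨(b (a (a (b (a (b (a (l 16871712) (b (l 16895984) (a (l 16874608) (b (l 16854264) (a (l 16834032) (l 16795496)))))) (a (b (a (l 16884856) (l 16809592)) (a (a (l 16817040) (l 16790240)) (b (a (l 16797696) (l 16786432)) (a (l 39426482327) (l 77007440791))))) (b (a (b (l 16810632) (a (l 16791408) (b (l 16781304) (l 66270048407)))) (b (a (l 16784832) (b (l 90429267767) (l 80765555783))) (l 81302431383))) (l 92039880679)))) (b (a (b (a (l 16821272) (b (l 16820640) (a (l 16799744) (b (l 16788704) (a (l 16789096) (l 78618076663)))))) (a (b (a (l 16827552) (l 16788600)) (a (b (l 16784944) (l 63048825943)) (l 63585677703))) (b (a (b (l 16783056) (l 54995731831)) (l 79154945751)) (l 4)))) (b (a (b (b (l 16785432) (a (l 16784984) (l 46405801783))) (a (b (a (l 16785384) (l 66270044551)) (l 90966104407)) (l 4))) (l 91502984247)) (l 4))) (a (b (l 104924767287) (l 4)) (l 4)))) (a (b (a (b (a (b (a (b (l 16804952)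 (l 92039870743)) (l 61438187367)) (l 99019153095)) (l 4)) (l 4)) (l 4)) (l 4)) (l 4))) (l 4)) (l 4)) (l 4)), by decide +kernel⟩

def k58_mm_202 : ∃ t, chk3 f_mm_202 t 1 3 1 = true :=
  ⟨(a (b (a (b (l 17164640) (l 17025800)) (b (a (l 17068224) (a (l 17063880) (b (l 17024688) (b (l 16927832) (a (l 16873864) (l 30299672727)))))) (a (l 123581542103) (b (a (b (l 16874912) (l 16836032)) (b (a (l 16807336) (l 79691857367)) (l 96334908983))) (a (b (a (l 16816880) (l 73249357591)) (l 88281784327)) (a (l 111904127671) (l 4))))))) (a (l 2) (a (l 2) (a (l 2) (l 4))))) (b (a (a (b (b (a (b (a (l 16958376) (l 16934888)) (a (l 16890256) (a (l 16822480) (b (l 16783416) (l 52311392871))))) (a (b (a (b (l 16856280) (l 16800864)) (b (l 16796536) (l 65196296423))) (a (b (l 54995759911) (l 4)) (l 4))) (a (l 116199175623) (l 4)))) (a (a (b (a (l 16865592) (l 34594649079)) (a (l 59827604695) (l 102777261783))) (a (l 100093022711) (a (l 119420334791) (l 4)))) (l 4))) (l 4)) (l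 4)) (l 4)) (l 4))), by decide +kernel⟩

theorem s59_mm_202 : ∃ t, chk3 f_mm_202 t 3 5 1 = true := ex3_a k56_mm_202 k57_mm_202

theorem s60_mm_202 : ∃ t, chk3 f_mm_202 t 121 36 1 = true := ex3_b k50_mm_202 k51_mm_202

theorem s61_mm_202 : ∃ t, chk3 f_mm_202 t 60 36 1 = true := ex3_a k49_mm_202 s60_mm_202

theorem s62_mm_202 : ∃ t, chk3 f_mm_202 t 60 18 1 = true := ex3_b s61_mm_202 k52_mm_202

theorem s63_mm_202 : ∃ t, chk3 f_mm_202 t 30 18 1 = true := ex3_a s62_mm_202 k53_mm_202

theorem s64_mm_202 : ∃ t, chk3 f_mm_202 t 30 9 1 = true := ex3_b s63_mm_202 k54_mm_202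

theorem s65_mm_202 : ∃ t, chk3 f_mm_202 t 15 9 1 = true := ex3_a s64_mm_202 k55_mm_202

theorem s66_mm_202 : ∃ t, chk3 f_mm_202 t 29 19 1 = true := ex3_a k47_mm_202 k48_mm_202

theorem s67_mm_202 : ∃ t, chk3 f_mm_202 t 14 19 1 = true := ex3_a k46_mm_202 s66_mm_202

theorem s68_mm_202 : ∃ t, chk3 f_mm_202 t 14 18 1 = true := ex3_a k44_mm_202 k45_mm_202

theorem s69_mm_202 : ∃ t, chk3 f_mm_202 t 14 9 1 = true := ex3_b s68_mm_202 s67_mm_202

theorem s70_mm_202 : ∃ t, chk3 f_mm_202 t 7 9 1 = true := ex3_a s69_mm_202 s65_mm_202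

theorem s71_mm_202 : ∃ t, chk3 f_mm_202 t 249 136 1 = true := ex3_b k37_mm_202 k38_mm_202

theorem s72_mm_202 : ∃ t, chk3 f_mm_202 t 249 68 1 = true := ex3_b s71_mm_202 k39_mm_202

theorem s73_mm_202 : ∃ t, chk3 f_mm_202 t 124 68 1 = true := ex3_a k36_mm_202 s72_mm_202

theorem s74_mm_202 : ∃ t, chk3 f_mm_202 t 124 34 1 = true := ex3_b s73_mm_202 k40_mm_202

theorem s75_mm_202 : ∃ t, chk3 f_mm_202 t 62 34 1 = true := ex3_a s74_mm_202 k41_mm_202

theorem s76_mm_202 : ∃ t, chk3 f_mm_202 t 62 17 1 = true := ex3_b s75_mm_202 k42_mm_202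

theorem s77_mm_202 : ∃ t, chk3 f_mm_202 t 31 17 1 = true := ex3_a s76_mm_202 k43_mm_202

theorem s78_mm_202 : ∃ t, chk3 f_mm_202 t 246 70 1 = true := ex3_b k32_mm_202 k33_mm_202

theorem s79_mm_202 : ∃ t, chk3 f_mm_202 t 123 70 1 = true := ex3_a s78_mm_202 k34_mm_202

theorem s80_mm_202 : ∃ t, chk3 f_mm_202 t 123 35 1 = true := ex3_b s79_mm_202 k35_mm_202

theorem s81_mm_202 : ∃ t, chk3 f_mm_202 t 122 71 1 = true := ex3_a k30_mm_202 k31_mm_202

theorem s82_mm_202 : ∃ t, chk3 f_mm_202 t 122 35 1 = true := ex3_b k29_mm_202 s81_mm_202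

theorem s83_mm_202 : ∃ t, chk3 f_mm_202 t 61 35 1 = true := ex3_a s82_mm_202 s80_mm_202

theorem s84_mm_202 : ∃ t, chk3 f_mm_202 t 30 35 1 = true := ex3_a k28_mm_202 s83_mm_202

theorem s85_mm_202 : ∃ t, chk3 f_mm_202 t 247 69 1 = true := ex3_b k26_mm_202 k27_mm_202

theorem s86_mm_202 : ∃ t, chk3 f_mm_202 t 123 69 1 = true := ex3_a k25_mm_202 s85_mm_202

theorem s87_mm_202 : ∃ t, chk3 f_mm_202 t 123 34 1 = true := ex3_b k24_mm_202 s86_mm_202

theorem s88_mm_202 : ∃ t, chk3 f_mm_202 t 61 34 1 = true := ex3_a k23_mm_202 s87_mm_202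

theorem s89_mm_202 : ∃ t, chk3 f_mm_202 t 30 34 1 = true := ex3_a k22_mm_202 s88_mm_202

theorem s90_mm_202 : ∃ t, chk3 f_mm_202 t 30 17 1 = true := ex3_b s89_mm_202 s84_mm_202

theorem s91_mm_202 : ∃ t, chk3 f_mm_202 t 15 17 1 = true := ex3_a s90_mm_202 s77_mm_202

theorem s92_mm_202 : ∃ t, chk3 f_mm_202 t 502 268 1 = true := ex3_a k16_mm_202 k17_mm_202

theorem s93_mm_202 : ∃ t, chk3 f_mm_202 t 251 268 1 = true := ex3_a s92_mm_202 k18_mm_202

theorem s94_mm_202 : ∃ t, chk3 f_mm_202 t 251 134 1 = true := ex3_b s93_mm_202 k19_mm_202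

theorem s95_mm_202 : ∃ t, chk3 f_mm_202 t 251 67 1 = true := ex3_b s94_mm_202 k20_mm_202

theorem s96_mm_202 : ∃ t, chk3 f_mm_202 t 250 135 1 = true := ex3_a k14_mm_202 k15_mm_202

theorem s97_mm_202 : ∃ t, chk3 f_mm_202 t 250 67 1 = true := ex3_b k13_mm_202 s96_mm_202

theorem s98_mm_202 : ∃ t, chk3 f_mm_202 t 125 67 1 = true := ex3_a s97_mm_202 s95_mm_202

theorem s99_mm_202 : ∃ t, chk3 f_mm_202 t 503 267 1 = true := ex3_a k11_mm_202 k12_mm_202

theorem s100_mm_202 : ∃ t, chk3 f_mm_202 t 503 133 1 = true := ex3_b k10_mm_202 s99_mm_202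

theorem s101_mm_202 : ∃ t, chk3 f_mm_202 t 251 133 1 = true := ex3_a k9_mm_202 s100_mm_202

theorem s102_mm_202 : ∃ t, chk3 f_mm_202 t 251 66 1 = true := ex3_b k8_mm_202 s101_mm_202

theorem s103_mm_202 : ∃ t, chk3 f_mm_202 t 125 66 1 = true := ex3_a k7_mm_202 s102_mm_202

theorem s104_mm_202 : ∃ t, chk3 f_mm_202 t 125 33 1 = true := ex3_b s103_mm_202 s98_mm_202

theorem s105_mm_202 : ∃ t, chk3 f_mm_202 t 62 33 1 = true := ex3_a k6_mm_202 s104_mm_202

theorem s106_mm_202 : ∃ t, chk3 f_mm_202 t 31 33 1 = true := ex3_a s105_mm_202 k21_mm_202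

theorem s107_mm_202 : ∃ t, chk3 f_mm_202 t 31 16 1 = true := ex3_b k5_mm_202 s106_mm_202

theorem s108_mm_202 : ∃ t, chk3 f_mm_202 t 30 16 1 = true := ex3_b k3_mm_202 k4_mm_202

theorem s109_mm_202 : ∃ t, chk3 f_mm_202 t 15 16 1 = true := ex3_a s108_mm_202 s107_mm_202

theorem s110_mm_202 : ∃ t, chk3 f_mm_202 t 15 8 1 = true := ex3_b s109_mm_202 s91_mm_202

theorem s111_mm_202 : ∃ t, chk3 f_mm_202 t 7 8 1 = true := ex3_a k2_mm_202 s110_mm_202

theorem s112_mm_202 : ∃ t, chk3 f_mm_202 t 7 4 1 = true := ex3_b s111_mm_202 s70_mm_202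

theorem s113_mm_202 : ∃ t, chk3 f_mm_202 t 3 4 1 = true := ex3_a k1_mm_202 s112_mm_202

theorem s114_mm_202 : ∃ t, chk3 f_mm_202 t 3 2 1 = true := ex3_b s113_mm_202 s59_mm_202

theorem s115_mm_202 : ∃ t, chk3 f_mm_202 t 1 2 1 = true := ex3_a k0_mm_202 s114_mm_202

theorem s116_mm_202 : ∃ t, chk3 f_mm_202 t 1 1 1 = true := ex3_b s115_mm_202 k58_mm_202

theorem c_mm_202 : CertN 0 536870912 0 536870912 33554432 16777216 3 true false false .pp 2 0 2
    ndN0q2 ndN0q0 pcN2 cut_mm_202 Ext.none :=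
  certNK0 (fam := true) (s1 := false) (s2 := false) (a := 2) (b := 0) (c := 2) (cn := .pp) (n1 := ndN0q2) (n2 := ndN0q0) (pc := pcN2) (cut := cut_mm_202) (xt := Ext.none) (P1 := 0) (W1 := 536870912) (P2 := 0) (W2 := 536870912) (P3 := 33554432) (W3 := 16777216) (N0 := 3)
    rfl rfl rfl s116_mm_202

noncomputable def f_mm_203 : ℕ → ℕ → ℕ → ℕ → Bool := onCell 0 536870912 1610612736 536870912 33554432 16777216
    (rowNK 3 1 true false false .up 2 0 3 (qsf 0 536870912 0 536870912 3) ndN0q2 ndN0q0 pcN3 Cut.none Ext.none)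

def k0_mm_203 : ∃ t, chk3 f_mm_203 t 1 1 1 = true :=
  ⟨(b (a (b (a (b (a (l 17080312) (l 17097928)) (a (l 17097128) (a (l 17090096) (b (l 16895840) (a (l 87745039495) (b (l 84523677975) (l 100629779719))))))) (b (a (b (a (l 16875120) (l 86671373943)) (a (l 84523883575) (b (l 87744924423) (l 95797969719)))) (b (a (a (l 93650530247) (l 4)) (l 4)) (l 4))) (a (a (b (b (l 82376247831) (l 94187362871)) (l 4)) (l 4)) (l 4)))) (b (a (a (b (a (l 16971432) (l 16862608)) (l 2)) (b (a (b (a (l 16835680) (l 88818713303)) (l 84523757527)) (b (l 107072260327) (l 4))) (l 2))) (l 4)) (l 2))) (l 4)) (l 2)), by decide +kernel⟩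

theorem c_mm_203 : CertN 0 536870912 0 536870912 33554432 16777216 3 true false false .up 2 0 3
    ndN0q2 ndN0q0 pcN3 Cut.none Ext.none :=
  certNK1 (fam := true) (s1 := false) (s2 := false) (a := 2) (b := 0) (c := 3) (cn := .up) (n1 := ndN0q2) (n2 := ndN0q0) (pc := pcN3) (cut := Cut.none) (xt := Ext.none) (P1 := 0) (W1 := 536870912) (P2 := 0) (W2 := 536870912) (P3 := 33554432) (W3 := 16777216) (N0 := 3)
    rfl rfl rfl (fun _ => rfl) k0_mm_203

noncomputable def f_mm_213 : ℕ → ℕ → ℕ → ℕ → Bool := onCell 0 536870912 536870912 536870912 33554432 16777216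
    (rowNK 3 0 true false false .pnn 2 1 3 (qsf 0 536870912 536870912 536870912 3) ndN0q2 ndN0q1 pcN3 Cut.none Ext.none)

def k0_mm_213 : ∃ t, chk3 f_mm_213 t 1 1 1 = true :=
  ⟨(a (b (a (b (b (a (b (a (l 16875712) (b (l 50700884311) (a (l 16792320) (l 92576751239)))) (a (l 86671381751) (b (l 105461689687) (l 4)))) (b (a (b (l 101166736663) (l 4)) (l 4)) (l 4))) (a (b (a (b (l 107609177399) (l 4)) (l 4)) (l 4)) (l 4))) (l 4)) (l 4)) (l 4)) (l 4)), by decide +kernel⟩

theorem c_mm_213 : CertN 0 536870912 536870912 536870912 33554432 16777216 3 true false false .pnn 2 1 3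
    ndN0q2 ndN0q1 pcN3 Cut.none Ext.none :=
  certNK0 (fam := true) (s1 := false) (s2 := false) (a := 2) (b := 1) (c := 3) (cn := .pnn) (n1 := ndN0q2) (n2 := ndN0q1) (pc := pcN3) (cut := Cut.none) (xt := Ext.none) (P1 := 0) (W1 := 536870912) (P2 := 536870912) (W2 := 536870912) (P3 := 33554432) (W3 := 16777216) (N0 := 3)
    rfl rfl rfl k0_mm_213

end Pool.Agent.Strip051.G.I1_32_3_64.Tab.C.NA00

namespace Pool.Agent.Strip051.G.I1_32_3_64.Tab.C.NA01

open Pool.Agent.Strip051.PB Pool.Agent.Strip051.PB.T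
open Pool.Agent.Strip051.G.I1_32_3_64.Tab

noncomputable def f_pp_001 : ℕ → ℕ → ℕ → ℕ → Bool := onCell 0 536870912 0 536870912 33554432 16777216
    (rowNK 3 0 true true true .up 0 0 1 (qsf 0 536870912 0 536870912 1) ndN0q0 ndN1q0 pcN1 Cut.none Ext.none)

def k0_pp_001 : ∃ t, chk3 f_pp_001 t 1 1 1 = true :=
  ⟨(l 4), by decide +kernel⟩

theorem c_pp_001 : CertN 0 536870912 0 536870912 33554432 16777216 3 true true true .up 0 0 1
    ndN0q0 ndN1q0 pcN1 Cut.none Ext.none :=
  certNK0 (fam := true) (s1 := true) (s2 := true) (a := 0) (b := 0) (c := 1) (cn := .up) (n1 := ndN0q0) (n2 := ndN1q0) (pc := pcN1) (cut := Cut.none) (xt := Ext.none) (P1 := 0) (W1 := 536870912) (P2 := 0) (W2 := 536870912) (P3 := 33554432) (W3 := 16777216) (N0 := 3)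
    rfl rfl rfl k0_pp_001

noncomputable def f_pp_011 : ℕ → ℕ → ℕ → ℕ → Bool := onCell 0 536870912 536870912 536870912 33554432 16777216
    (rowNK 3 0 true true true .pnn 0 1 1 (qsf 0 536870912 536870912 536870912 1) ndN0q0 ndN1q1 pcN1 Cut.none Ext.none)

def k0_pp_011 : ∃ t, chk3 f_pp_011 t 1 1 1 = true :=
  ⟨(l 4), by decide +kernel⟩

theorem c_pp_011 : CertN 0 536870912 536870912 536870912 33554432 16777216 3 true true true .pnn 0 1 1
    ndN0q0 ndN1q1 pcN1 Cut.none Ext.none :=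
  certNK0 (fam := true) (s1 := true) (s2 := true) (a := 0) (b := 1) (c := 1) (cn := .pnn) (n1 := ndN0q0) (n2 := ndN1q1) (pc := pcN1) (cut := Cut.none) (xt := Ext.none) (P1 := 0) (W1 := 536870912) (P2 := 536870912) (W2 := 536870912) (P3 := 33554432) (W3 := 16777216) (N0 := 3)
    rfl rfl rfl k0_pp_011

noncomputable def f_pp_012 : ℕ → ℕ → ℕ → ℕ → Bool := onCell 0 536870912 536870912 536870912 33554432 16777216
    (rowNK 3 0 true true true .pnp 0 1 2 (qsf 0 536870912 536870912 536870912 2) ndN0q0 ndN1q1 pcN2 Cut.none Ext.none)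

def k0_pp_012 : ∃ t, chk3 f_pp_012 t 1 1 1 = true :=
  ⟨(l 4), by decide +kernel⟩

theorem c_pp_012 : CertN 0 536870912 536870912 536870912 33554432 16777216 3 true true true .pnp 0 1 2
    ndN0q0 ndN1q1 pcN2 Cut.none Ext.none :=
  certNK0 (fam := true) (s1 := true) (s2 := true) (a := 0) (b := 1) (c := 2) (cn := .pnp) (n1 := ndN0q0) (n2 := ndN1q1) (pc := pcN2) (cut := Cut.none) (xt := Ext.none) (P1 := 0) (W1 := 536870912) (P2 := 536870912) (W2 := 536870912) (P3 := 33554432) (W3 := 16777216) (N0 := 3)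
    rfl rfl rfl k0_pp_012

noncomputable def cut_pp_022_a : Cut := Cut.of [[⟨0, 0, 0, 33554432⟩, ⟨1, 1, 0, 33554432⟩, ⟨2, 1, 0, 33554432⟩]]

noncomputable def f_pp_022_a : ℕ → ℕ → ℕ → ℕ → Bool := onCell 0 536870912 0 536870912 33554432 16777216
    (rowNK 3 0 true true true .pp 0 2 2 (qsf 0 536870912 0 536870912 2) ndN0q0 ndN1q2a pcN2 cut_pp_022_a Ext.none)

def k0_pp_022_a : ∃ t, chk3 f_pp_022_a t 4 2 1 = true :=
  ⟨(a (a (l 19165880) (l 18667416)) (a (l 18302800) (l 18137472))), by decide +kernel⟩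

def k1_pp_022_a : ∃ t, chk3 f_pp_022_a t 4 6 1 = true :=
  ⟨(a (a (b (l 18895464) (a (b (l 18833240) (l 18596208)) (l 18443408))) (b (l 18348720) (a (l 18172480) (l 17926456)))) (b (a (l 17911608) (l 17564296)) (a (b (l 17699856) (l 89893287495)) (l 4)))), by decide +kernel⟩

def k2_pp_022_a : ∃ t, chk3 f_pp_022_a t 8 14 1 = true :=
  ⟨(a (b (a (b (a (l 18377280) (l 18301264)) (a (a (l 17944016) (l 18122656)) (l 18096536))) (b (l 18133328) (l 17965168))) (a (a (b (c (a (l 17834840) (l 18048080)) (b (a (l 17458944) (l 17660896)) (a (a (l 17124800) (l 17362744)) (l 17359104)))) (a (c (b (a (l 17540864) (l 17707280)) (a (b (l 17290160) (l 16988072)) (b (l 17505896) (l 17248632)))) (a (b (l 16790456) (l 16717704)) (b (l 16941288) (l 16756200)))) (c (b (l 17766280) (a (l 17380304) (l 17559792))) (b (a (l 17065376) (l 17230504)) (a (l 16818720) (l 16871840)))))) (a (b (c (l 18039456) (l 17569952)) (c (b (l 17799728) (l 17609664)) (b (l 17193768) (a (l 16984168)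 (l 17118304))))) (b (l 17836928) (b (l 17553232) (b (l 17427944) (l 17212504)))))) (b (a (l 17802920) (l 17720152)) (a (b (l 17531552) (a (l 17368240) (l 17472232))) (b (l 17557264) (l 17438240)))))) (b (a (l 17811320) (l 17577728)) (b (a (l 17562368) (l 4)) (l 4)))), by decide +kernel⟩

def k3_pp_022_a : ∃ t, chk3 f_pp_022_a t 8 15 1 = true :=
  ⟨(a (b (a (a (b (a (a (b (l 16727552) (a (l 16731848) (l 16729928))) (b (l 16725072) (b (l 16729448) (l 16732480)))) (a (b (l 16726816) (l 16736224)) (b (c (b (l 17370240) (l 17124544)) (l 16727600)) (l 16737528)))) (a (b (b (a (l 16736912) (l 16735608)) (l 6)) (l 6)) (b (a (b (l 16736880) (l 16740072)) (b (l 16738128) (l 16741264))) (a (l 6) (b (l 16747128) (l 6)))))) (b (b (c (a (a (l 17177136) (l 17390360)) (l 17346728)) (a (a (l 16765736) (l 16804456)) (a (l 16862568) (l 16986208)))) (a (b (c (a (l 17063784) (l 17215096)) (l 16736424)) (a (l 16745792) (l 16803168))) (c (b (l 17216824) (a (l 17149480) (l 17212456)))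 (b (l 16736432) (l 16740728))))) (b (a (a (b (l 16739328) (l 16742432)) (b (l 16740504) (l 16743560))) (b (a (l 16794464) (l 16813632)) (a (l 16744664) (l 16768712)))) (a (b (a (l 16748248) (l 16749336)) (a (a (l 6) (l 16749192)) (a (l 16749720) (l 16760904)))) (b (a (c (l 16750544) (l 16750592)) (l 13119758343)) (a (l 10435387943) (l 4))))))) (a (a (b (b (b (l 17269416) (l 17059528)) (b (a (l 17041624) (l 17110416)) (b (l 16884912) (l 16839872)))) (a (b (b (l 16832152) (l 4)) (l 4)) (l 4))) (b (a (b (l 17285296) (l 72176371303)) (l 81303345623)) (l 4))) (l 4))) (a (b (a (l 6) (b (a (b (a (l 6) (b (l 16755664) (l 6))) (l 6)) (l 4)) (l 6))) (l 6)) (l 4))) (l 4)), by decide +kernel⟩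

def k4_pp_022_a : ∃ t, chk3 f_pp_022_a t 9 7 1 = true :=
  ⟨(l 4), by decide +kernel⟩

def k5_pp_022_a : ∃ t, chk3 f_pp_022_a t 5 1 1 = true :=
  ⟨(b (a (b (l 17628400) (l 77009225415)) (b (l 17280736) (l 4))) (l 4)), by decide +kernel⟩

def k6_pp_022_a : ∃ t, chk3 f_pp_022_a t 3 1 1 = true :=
  ⟨(b (a (a (b (l 87745789479) (l 4)) (l 4)) (l 4)) (l 4)), by decide +kernel⟩

theorem s7_pp_022_a : ∃ t, chk3 f_pp_022_a t 8 7 1 = true := ex3_b k2_pp_022_a k3_pp_022_a

theorem s8_pp_022_a : ∃ t, chk3 f_pp_022_a t 4 7 1 = true := ex3_a s7_pp_022_a k4_pp_022_a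

theorem s9_pp_022_a : ∃ t, chk3 f_pp_022_a t 4 3 1 = true := ex3_b k1_pp_022_a s8_pp_022_a

theorem s10_pp_022_a : ∃ t, chk3 f_pp_022_a t 4 1 1 = true := ex3_b k0_pp_022_a s9_pp_022_a

theorem s11_pp_022_a : ∃ t, chk3 f_pp_022_a t 2 1 1 = true := ex3_a s10_pp_022_a k5_pp_022_a

theorem s12_pp_022_a : ∃ t, chk3 f_pp_022_a t 1 1 1 = true := ex3_a s11_pp_022_a k6_pp_022_a

theorem c_pp_022_a : CertN 0 536870912 0 536870912 33554432 16777216 3 true true true .pp 0 2 2
    ndN0q0 ndN1q2a pcN2 cut_pp_022_a Ext.none :=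
  certNK0 (fam := true) (s1 := true) (s2 := true) (a := 0) (b := 2) (c := 2) (cn := .pp) (n1 := ndN0q0) (n2 := ndN1q2a) (pc := pcN2) (cut := cut_pp_022_a) (xt := Ext.none) (P1 := 0) (W1 := 536870912) (P2 := 0) (W2 := 536870912) (P3 := 33554432) (W3 := 16777216) (N0 := 3)
    rfl rfl rfl s12_pp_022_a

noncomputable def cut_pp_022_b : Cut := Cut.of [[⟨0, 0, 0, 33554432⟩, ⟨1, 1, 0, 33554432⟩, ⟨2, 1, 0, 33554432⟩]]

noncomputable def f_pp_022_b : ℕ → ℕ → ℕ → ℕ → Bool := onCell 0 536870912 1239849684 370763052 33554432 16777216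
    (rowNK 3 0 true true true .pp 0 2 2 (qsf 0 536870912 1239849684 370763052 2) ndN0q0 ndN1q2b pcN2 cut_pp_022_b Ext.none)

def k0_pp_022_b : ∃ t, chk3 f_pp_022_b t 1 1 1 = true :=
  ⟨(a (b (a (b (a (a (l 19368080) (l 18935800)) (b (l 18331112) (l 18449952))) (a (l 19149680) (l 18501824))) (b (a (b (l 17786824) (l 17915976)) (b (l 17364736) (l 17466976))) (a (l 18008024) (l 4)))) (a (b (a (l 18968432) (l 18458424)) (a (l 18850656) (l 4))) (l 4))) (b (a (b (a (b (l 17245208) (l 4)) (l 4)) (l 4)) (l 2)) (l 2))), by decide +kernel⟩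

theorem c_pp_022_b : CertN 0 536870912 1239849684 370763052 33554432 16777216 3 true true true .pp 0 2 2
    ndN0q0 ndN1q2b pcN2 cut_pp_022_b Ext.none :=
  certNK0 (fam := true) (s1 := true) (s2 := true) (a := 0) (b := 2) (c := 2) (cn := .pp) (n1 := ndN0q0) (n2 := ndN1q2b) (pc := pcN2) (cut := cut_pp_022_b) (xt := Ext.none) (P1 := 0) (W1 := 536870912) (P2 := 1239849684) (W2 := 370763052) (P3 := 33554432) (W3 := 16777216) (N0 := 3)
    rfl rfl rfl k0_pp_022_b

noncomputable def f_pp_023_a : ℕ → ℕ → ℕ → ℕ → Bool := onCell 1610612736 536870912 0 536870912 33554432 16777216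
    (rowNK 3 2 true true true .up 0 2 3 (qsf 0 536870912 0 536870912 3) ndN0q0 ndN1q2a pcN3 Cut.none Ext.none)

def k0_pp_023_a : ∃ t, chk3 f_pp_023_a t 1 1 1 = true :=
  ⟨(a (l 4) (l 2)), by decide +kernel⟩

theorem c_pp_023_a : CertN 0 536870912 0 536870912 33554432 16777216 3 true true true .up 0 2 3
    ndN0q0 ndN1q2a pcN3 Cut.none Ext.none :=
  certNK2 (fam := true) (s1 := true) (s2 := true) (a := 0) (b := 2) (c := 3) (cn := .up) (n1 := ndN0q0) (n2 := ndN1q2a) (pc := pcN3) (cut := Cut.none) (xt := Ext.none) (P1 := 0) (W1 := 536870912) (P2 := 0) (W2 := 536870912) (P3 := 33554432) (W3 := 16777216) (N0 := 3)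
    rfl rfl rfl (fun _ => rfl) k0_pp_023_a

noncomputable def f_pp_023_b : ℕ → ℕ → ℕ → ℕ → Bool := onCell 1610612736 536870912 1239849684 370763052 33554432 16777216
    (rowNK 3 2 true true true .up 0 2 3 (qsf 0 536870912 1239849684 370763052 3) ndN0q0 ndN1q2b pcN3 Cut.none Ext.none)

def k0_pp_023_b : ∃ t, chk3 f_pp_023_b t 1 1 1 = true :=
  ⟨(a (l 4) (l 4)), by decide +kernel⟩

theorem c_pp_023_b : CertN 0 536870912 1239849684 370763052 33554432 16777216 3 true true true .up 0 2 3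
    ndN0q0 ndN1q2b pcN3 Cut.none Ext.none :=
  certNK2 (fam := true) (s1 := true) (s2 := true) (a := 0) (b := 2) (c := 3) (cn := .up) (n1 := ndN0q0) (n2 := ndN1q2b) (pc := pcN3) (cut := Cut.none) (xt := Ext.none) (P1 := 0) (W1 := 536870912) (P2 := 1239849684) (W2 := 370763052) (P3 := 33554432) (W3 := 16777216) (N0 := 3)
    rfl rfl rfl (fun _ => rfl) k0_pp_023_b

noncomputable def f_pp_033 : ℕ → ℕ → ℕ → ℕ → Bool := onCell 0 536870912 1610612736 536870912 33554432 16777216
    (rowNK 3 0 true true true .pnn 0 3 3 (qsf 0 536870912 1610612736 536870912 3) ndN0q0 ndN1q3 pcN3 Cut.none Ext.none)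

def k0_pp_033 : ∃ t, chk3 f_pp_033 t 1 1 1 = true :=
  ⟨(a (b (l 4) (l 4)) (l 4)), by decide +kernel⟩

theorem c_pp_033 : CertN 0 536870912 1610612736 536870912 33554432 16777216 3 true true true .pnn 0 3 3
    ndN0q0 ndN1q3 pcN3 Cut.none Ext.none :=
  certNK0 (fam := true) (s1 := true) (s2 := true) (a := 0) (b := 3) (c := 3) (cn := .pnn) (n1 := ndN0q0) (n2 := ndN1q3) (pc := pcN3) (cut := Cut.none) (xt := Ext.none) (P1 := 0) (W1 := 536870912) (P2 := 1610612736) (W2 := 536870912) (P3 := 33554432) (W3 := 16777216) (N0 := 3)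
    rfl rfl rfl k0_pp_033

noncomputable def f_pp_101 : ℕ → ℕ → ℕ → ℕ → Bool := onCell 536870912 536870912 0 536870912 33554432 16777216
    (rowNK 3 0 true true true .npn 1 0 1 (qsf 536870912 536870912 0 536870912 1) ndN0q1 ndN1q0 pcN1 Cut.none Ext.none)

def k0_pp_101 : ∃ t, chk3 f_pp_101 t 1 1 1 = true :=
  ⟨(l 5), by decide +kernel⟩

theorem c_pp_101 : CertN 536870912 536870912 0 536870912 33554432 16777216 3 true true true .npn 1 0 1
    ndN0q1 ndN1q0 pcN1 Cut.none Ext.none :=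
  certNK0 (fam := true) (s1 := true) (s2 := true) (a := 1) (b := 0) (c := 1) (cn := .npn) (n1 := ndN0q1) (n2 := ndN1q0) (pc := pcN1) (cut := Cut.none) (xt := Ext.none) (P1 := 536870912) (W1 := 536870912) (P2 := 0) (W2 := 536870912) (P3 := 33554432) (W3 := 16777216) (N0 := 3)
    rfl rfl rfl k0_pp_101

noncomputable def f_pp_102 : ℕ → ℕ → ℕ → ℕ → Bool := onCell 536870912 536870912 0 536870912 33554432 16777216
    (rowNK 3 0 true true true .npp 1 0 2 (qsf 536870912 536870912 0 536870912 2) ndN0q1 ndN1q0 pcN2 Cut.none Ext.none)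

def k0_pp_102 : ∃ t, chk3 f_pp_102 t 1 1 1 = true :=
  ⟨(l 5), by decide +kernel⟩

theorem c_pp_102 : CertN 536870912 536870912 0 536870912 33554432 16777216 3 true true true .npp 1 0 2
    ndN0q1 ndN1q0 pcN2 Cut.none Ext.none :=
  certNK0 (fam := true) (s1 := true) (s2 := true) (a := 1) (b := 0) (c := 2) (cn := .npp) (n1 := ndN0q1) (n2 := ndN1q0) (pc := pcN2) (cut := Cut.none) (xt := Ext.none) (P1 := 536870912) (W1 := 536870912) (P2 := 0) (W2 := 536870912) (P3 := 33554432) (W3 := 16777216) (N0 := 3)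
    rfl rfl rfl k0_pp_102

noncomputable def f_pp_112 : ℕ → ℕ → ℕ → ℕ → Bool := onCell 536870912 536870912 536870912 536870912 33554432 16777216
    (rowNK 3 0 true true true .dn 1 1 2 (qsf 536870912 536870912 536870912 536870912 2) ndN0q1 ndN1q1 pcN2 Cut.none Ext.none)

def k0_pp_112 : ∃ t, chk3 f_pp_112 t 1 1 1 = true :=
  ⟨(l 4), by decide +kernel⟩

theorem c_pp_112 : CertN 536870912 536870912 536870912 536870912 33554432 16777216 3 true true true .dn 1 1 2
    ndN0q1 ndN1q1 pcN2 Cut.none Ext.none :=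
  certNK0 (fam := true) (s1 := true) (s2 := true) (a := 1) (b := 1) (c := 2) (cn := .dn) (n1 := ndN0q1) (n2 := ndN1q1) (pc := pcN2) (cut := Cut.none) (xt := Ext.none) (P1 := 536870912) (W1 := 536870912) (P2 := 536870912) (W2 := 536870912) (P3 := 33554432) (W3 := 16777216) (N0 := 3)
    rfl rfl rfl k0_pp_112

noncomputable def f_pp_113 : ℕ → ℕ → ℕ → ℕ → Bool := onCell 536870912 536870912 536870912 536870912 33554432 16777216
    (rowNK 3 0 true true true .nn 1 1 3 (qsf 536870912 536870912 536870912 536870912 3) ndN0q1 ndN1q1 pcN3 Cut.none Ext.none)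

def k0_pp_113 : ∃ t, chk3 f_pp_113 t 1 1 1 = true :=
  ⟨(l 4), by decide +kernel⟩

theorem c_pp_113 : CertN 536870912 536870912 536870912 536870912 33554432 16777216 3 true true true .nn 1 1 3
    ndN0q1 ndN1q1 pcN3 Cut.none Ext.none :=
  certNK0 (fam := true) (s1 := true) (s2 := true) (a := 1) (b := 1) (c := 3) (cn := .nn) (n1 := ndN0q1) (n2 := ndN1q1) (pc := pcN3) (cut := Cut.none) (xt := Ext.none) (P1 := 536870912) (W1 := 536870912) (P2 := 536870912) (W2 := 536870912) (P3 := 33554432) (W3 := 16777216) (N0 := 3)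
    rfl rfl rfl k0_pp_113

noncomputable def f_pp_123_a : ℕ → ℕ → ℕ → ℕ → Bool := onCell 536870912 536870912 0 536870912 33554432 16777216
    (rowNK 3 0 true true true .npn 1 2 3 (qsf 536870912 536870912 0 536870912 3) ndN0q1 ndN1q2a pcN3 Cut.none Ext.none)

def k0_pp_123_a : ∃ t, chk3 f_pp_123_a t 1 1 1 = true :=
  ⟨(l 4), by decide +kernel⟩

theorem c_pp_123_a : CertN 536870912 536870912 0 536870912 33554432 16777216 3 true true true .npn 1 2 3
    ndN0q1 ndN1q2a pcN3 Cut.none Ext.none :=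
  certNK0 (fam := true) (s1 := true) (s2 := true) (a := 1) (b := 2) (c := 3) (cn := .npn) (n1 := ndN0q1) (n2 := ndN1q2a) (pc := pcN3) (cut := Cut.none) (xt := Ext.none) (P1 := 536870912) (W1 := 536870912) (P2 := 0) (W2 := 536870912) (P3 := 33554432) (W3 := 16777216) (N0 := 3)
    rfl rfl rfl k0_pp_123_a

noncomputable def f_pp_123_b : ℕ → ℕ → ℕ → ℕ → Bool := onCell 536870912 536870912 1239849684 370763052 33554432 16777216
    (rowNK 3 0 true true true .npn 1 2 3 (qsf 536870912 536870912 1239849684 370763052 3) ndN0q1 ndN1q2b pcN3 Cut.none Ext.none)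

def k0_pp_123_b : ∃ t, chk3 f_pp_123_b t 1 1 1 = true :=
  ⟨(l 4), by decide +kernel⟩

theorem c_pp_123_b : CertN 536870912 536870912 1239849684 370763052 33554432 16777216 3 true true true .npn 1 2 3
    ndN0q1 ndN1q2b pcN3 Cut.none Ext.none :=
  certNK0 (fam := true) (s1 := true) (s2 := true) (a := 1) (b := 2) (c := 3) (cn := .npn) (n1 := ndN0q1) (n2 := ndN1q2b) (pc := pcN3) (cut := Cut.none) (xt := Ext.none) (P1 := 536870912) (W1 := 536870912) (P2 := 1239849684) (W2 := 370763052) (P3 := 33554432) (W3 := 16777216) (N0 := 3)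
    rfl rfl rfl k0_pp_123_b

noncomputable def f_pp_133 : ℕ → ℕ → ℕ → ℕ → Bool := onCell 536870912 536870912 1610612736 536870912 33554432 16777216
    (rowNK 3 0 true true true .dn 1 3 3 (qsf 536870912 536870912 1610612736 536870912 3) ndN0q1 ndN1q3 pcN3 Cut.none Ext.none)

def k0_pp_133 : ∃ t, chk3 f_pp_133 t 1 1 1 = true :=
  ⟨(l 4), by decide +kernel⟩

theorem c_pp_133 : CertN 536870912 536870912 1610612736 536870912 33554432 16777216 3 true true true .dn 1 3 3
    ndN0q1 ndN1q3 pcN3 Cut.none Ext.none :=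
  certNK0 (fam := true) (s1 := true) (s2 := true) (a := 1) (b := 3) (c := 3) (cn := .dn) (n1 := ndN0q1) (n2 := ndN1q3) (pc := pcN3) (cut := Cut.none) (xt := Ext.none) (P1 := 536870912) (W1 := 536870912) (P2 := 1610612736) (W2 := 536870912) (P3 := 33554432) (W3 := 16777216) (N0 := 3)
    rfl rfl rfl k0_pp_133

noncomputable def f_pp_202 : ℕ → ℕ → ℕ → ℕ → Bool := onCell 0 536870912 0 536870912 33554432 16777216
    (rowNK 3 0 true true true .pp 2 0 2 (qsf 0 536870912 0 536870912 2) ndN0q2 ndN1q0 pcN2 Cut.none Ext.none)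

def k0_pp_202 : ∃ t, chk3 f_pp_202 t 1 1 1 = true :=
  ⟨(l 5), by decide +kernel⟩

theorem c_pp_202 : CertN 0 536870912 0 536870912 33554432 16777216 3 true true true .pp 2 0 2
    ndN0q2 ndN1q0 pcN2 Cut.none Ext.none :=
  certNK0 (fam := true) (s1 := true) (s2 := true) (a := 2) (b := 0) (c := 2) (cn := .pp) (n1 := ndN0q2) (n2 := ndN1q0) (pc := pcN2) (cut := Cut.none) (xt := Ext.none) (P1 := 0) (W1 := 536870912) (P2 := 0) (W2 := 536870912) (P3 := 33554432) (W3 := 16777216) (N0 := 3)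
    rfl rfl rfl k0_pp_202

noncomputable def f_pp_203 : ℕ → ℕ → ℕ → ℕ → Bool := onCell 0 536870912 0 536870912 33554432 16777216
    (rowNK 3 0 true true true .up 2 0 3 (qsf 0 536870912 0 536870912 3) ndN0q2 ndN1q0 pcN3 Cut.none Ext.none)

def k0_pp_203 : ∃ t, chk3 f_pp_203 t 1 1 1 = true :=
  ⟨(l 5), by decide +kernel⟩

theorem c_pp_203 : CertN 0 536870912 0 536870912 33554432 16777216 3 true true true .up 2 0 3
    ndN0q2 ndN1q0 pcN3 Cut.none Ext.none :=
  certNK0 (fam := true) (s1 := true) (s2 := true) (a := 2) (b := 0) (c := 3) (cn := .up) (n1 := ndN0q2) (n2 := ndN1q0) (pc := pcN3) (cut := Cut.none) (xt := Ext.none) (P1 := 0) (W1 := 536870912) (P2 := 0) (W2 := 536870912) (P3 := 33554432) (W3 := 16777216) (N0 := 3)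
    rfl rfl rfl k0_pp_203

noncomputable def f_pp_213 : ℕ → ℕ → ℕ → ℕ → Bool := onCell 0 536870912 536870912 536870912 33554432 16777216
    (rowNK 3 0 true true true .pnn 2 1 3 (qsf 0 536870912 536870912 536870912 3) ndN0q2 ndN1q1 pcN3 Cut.none Ext.none)

def k0_pp_213 : ∃ t, chk3 f_pp_213 t 1 1 1 = true :=
  ⟨(l 4), by decide +kernel⟩

theorem c_pp_213 : CertN 0 536870912 536870912 536870912 33554432 16777216 3 true true true .pnn 2 1 3
    ndN0q2 ndN1q1 pcN3 Cut.none Ext.none :=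
  certNK0 (fam := true) (s1 := true) (s2 := true) (a := 2) (b := 1) (c := 3) (cn := .pnn) (n1 := ndN0q2) (n2 := ndN1q1) (pc := pcN3) (cut := Cut.none) (xt := Ext.none) (P1 := 0) (W1 := 536870912) (P2 := 536870912) (W2 := 536870912) (P3 := 33554432) (W3 := 16777216) (N0 := 3)
    rfl rfl rfl k0_pp_213

noncomputable def f_pm_001 : ℕ → ℕ → ℕ → ℕ → Bool := onCell 0 536870912 0 536870912 33554432 16777216
    (rowNK 3 0 true true false .up 0 0 1 (qsf 0 536870912 0 536870912 1) ndN0q0 ndN1q0 pcN1 Cut.none Ext.none)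

def k0_pm_001 : ∃ t, chk3 f_pm_001 t 1 1 1 = true :=
  ⟨(l 3), by decide +kernel⟩

theorem c_pm_001 : CertN 0 536870912 0 536870912 33554432 16777216 3 true true false .up 0 0 1
    ndN0q0 ndN1q0 pcN1 Cut.none Ext.none :=
  certNK0 (fam := true) (s1 := true) (s2 := false) (a := 0) (b := 0) (c := 1) (cn := .up) (n1 := ndN0q0) (n2 := ndN1q0) (pc := pcN1) (cut := Cut.none) (xt := Ext.none) (P1 := 0) (W1 := 536870912) (P2 := 0) (W2 := 536870912) (P3 := 33554432) (W3 := 16777216) (N0 := 3)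
    rfl rfl rfl k0_pm_001

noncomputable def f_pm_011 : ℕ → ℕ → ℕ → ℕ → Bool := onCell 0 536870912 536870912 536870912 33554432 16777216
    (rowNK 3 1 true true false .pnn 0 1 1 (qsf 0 536870912 536870912 536870912 1) ndN0q0 ndN1q1 pcN1 Cut.none Ext.none)

def k0_pm_011 : ∃ t, chk3 f_pm_011 t 1 1 1 = true :=
  ⟨(l 3), by decide +kernel⟩

theorem c_pm_011 : CertN 0 536870912 536870912 536870912 33554432 16777216 3 true true false .pnn 0 1 1
    ndN0q0 ndN1q1 pcN1 Cut.none Ext.none :=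
  certNK1 (fam := true) (s1 := true) (s2 := false) (a := 0) (b := 1) (c := 1) (cn := .pnn) (n1 := ndN0q0) (n2 := ndN1q1) (pc := pcN1) (cut := Cut.none) (xt := Ext.none) (P1 := 0) (W1 := 536870912) (P2 := 536870912) (W2 := 536870912) (P3 := 33554432) (W3 := 16777216) (N0 := 3)
    rfl rfl rfl (fun _ => rfl) k0_pm_011

noncomputable def f_pm_012 : ℕ → ℕ → ℕ → ℕ → Bool := onCell 1073741824 536870912 536870912 536870912 33554432 16777216
    (rowNK 3 2 true true false .pnp 0 1 2 (qsf 0 536870912 536870912 536870912 2) ndN0q0 ndN1q1 pcN2 Cut.none Ext.none)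

def k0_pm_012 : ∃ t, chk3 f_pm_012 t 1 1 1 = true :=
  ⟨(a (b (a (a (l 3) (a (l 3) (b (b (l 2) (l 18014488)) (l 139220289191)))) (a (b (a (a (l 18136192) (l 2)) (l 2)) (a (a (l 18059104) (a (l 18119352) (a (l 18155992) (l 18228648)))) (l 18208136))) (b (l 2) (l 18258376)))) (a (l 3) (b (a (a (a (l 18091344) (a (l 18147424) (a (l 18200448) (l 18234344)))) (l 18251280)) (l 18331408)) (a (a (a (l 3) (b (a (l 3) (a (l 18367856) (l 18382968))) (a (l 3) (a (l 3) (l 18828120))))) (b (l 18425008) (l 18776016))) (b (l 18485184) (l 18780840)))))) (b (a (b (l 2) (a (l 18315864) (l 2))) (l 2)) (b (a (a (l 18383392) (l 18408256)) (b (l 2) (l 18376328))) (a (b (l 18528304) (a (l 18699616) (l 18653328))) (b (l 18490336) (l 18558544)))))), by decide +kernel⟩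

theorem c_pm_012 : CertN 0 536870912 536870912 536870912 33554432 16777216 3 true true false .pnp 0 1 2
    ndN0q0 ndN1q1 pcN2 Cut.none Ext.none :=
  certNK2 (fam := true) (s1 := true) (s2 := false) (a := 0) (b := 1) (c := 2) (cn := .pnp) (n1 := ndN0q0) (n2 := ndN1q1) (pc := pcN2) (cut := Cut.none) (xt := Ext.none) (P1 := 0) (W1 := 536870912) (P2 := 536870912) (W2 := 536870912) (P3 := 33554432) (W3 := 16777216) (N0 := 3)
    rfl rfl rfl (fun _ => rfl) k0_pm_012

noncomputable def cut_pm_022_a : Cut := Cut.of [[⟨0, 0, 0, 33554432⟩, ⟨1, 1, 0, 33554432⟩, ⟨2, 1, 0, 33554432⟩], [⟨0, 0, 1, 25165824⟩, ⟨1, 1, 0, 16777216⟩, ⟨2, 1, 1, 25165824⟩, ⟨0, 0, 0, 67108864⟩, ⟨0, 1, 0, 1056964608⟩, ⟨2, 1, 0, 67108864⟩, ⟨2, 2, 0, 1056964608⟩]]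

noncomputable def f_pm_022_a : ℕ → ℕ → ℕ → ℕ → Bool := onCell 0 536870912 0 536870912 33554432 16777216
    (rowNK 3 0 true true false .pp 0 2 2 (qsf 0 536870912 0 536870912 2) ndN0q0 ndN1q2a pcN2 cut_pm_022_a Ext.none)

def k0_pm_022_a : ∃ t, chk3 f_pm_022_a t 8 2 1 = true :=
  ⟨(l 19249128), by decide +kernel⟩

def k1_pm_022_a : ∃ t, chk3 f_pm_022_a t 8 6 1 = true :=
  ⟨(a (b (l 19167376) (a (l 18883168) (l 18899920))) (l 18950816)), by decide +kernel⟩

def k2_pm_022_a : ∃ t, chk3 f_pm_022_a t 8 14 1 = true :=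
  ⟨(a (b (a (b (l 18515552) (c (l 18512384) (a (l 17870320) (l 18147512)))) (l 18566568)) (a (b (a (a (c (l 18067408) (b (l 17589184) (l 17086744))) (c (l 18188144) (l 17482792))) (c (l 18320248) (l 17751432))) (a (c (b (a (l 17505208) (l 17892552)) (a (c (l 17387856) (a (l 17021592) (l 17294672))) (l 17454712))) (b (a (a (l 16897376) (l 17021400)) (l 17080936)) (a (l 16713216) (l 16820240)))) (c (b (l 18085280) (l 17850608)) (b (a (l 17490512) (l 17649288)) (a (l 17050448) (l 17436400)))))) (b (l 18297208) (c (l 18250848) (a (l 17496864) (l 17938504)))))) (b (l 18639272) (a (l 18354112) (l 18434576)))), by decide +kernel⟩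

def k3_pm_022_a : ∃ t, chk3 f_pm_022_a t 8 30 1 = true :=
  ⟨(a (a (b (a (b (a (l 16724128) (c (c (l 17328616) (a (l 17019272) (l 17206600))) (l 16713768))) (a (a (l 16728544) (l 16723400)) (a (l 16720832) (l 16718216)))) (c (b (a (l 17337800) (l 17744712)) (a (c (l 17181912) (a (l 16950352) (l 17115168))) (c (l 17642144) (l 17233976)))) (a (b (l 16832208) (l 16735048)) (b (l 17016824) (l 16799296))))) (a (b (a (a (l 16737328) (l 16732096)) (b (l 16726560) (l 16729608))) (a (l 6) (a (l 6) (l 16734264)))) (b (a (a (l 16742312) (l 16739504)) (a (l 16770000) (l 16818960))) (a (b (l 16727088) (l 16731528)) (a (l 16742600) (l 16739616)))))) (b (a (c (b (l 17938952) (l 17551144)) (b (a (l 17358760) (l 17536088)) (a (l 16959776) (l 17258000)))) (c (l 18039072) (b (l 17717664) (l 17480048)))) (a (a (b (c (c (l 17555712) (l 17096888)) (l 16785480)) (a (b (l 16800416) (l 16738160)) (l 16793864))) (b (c (l 17565840) (l 16900944)) (c (b (l 17355520) (l 17088632))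 (l 16749936)))) (c (b (l 17784216) (a (l 17400120) (l 17644848))) (b (a (l 17155496) (l 17415120)) (a (l 16820120) (l 17030864))))))) (a (b (l 17805008) (a (b (l 17718368) (c (l 17805600) (l 17167264))) (l 17759712))) (l 17874320))), by decide +kernel⟩

def k4_pm_022_a : ∃ t, chk3 f_pm_022_a t 8 31 1 = true :=
  ⟨(b (b (a (a (a (l 6) (a (b (b (l 16735248) (l 6)) (l 6)) (b (a (l 16747288) (b (l 16743448) (b (l 16744624) (l 16745920)))) (b (a (l 6) (l 16748480)) (l 16752320))))) (a (a (b (b (a (l 16740736) (l 16739800)) (l 16743696)) (b (l 16747128) (l 16750560))) (b (l 16786096) (l 16747048))) (a (b (c (l 17188744) (l 16793176)) (l 16799440)) (c (l 17191216) (b (l 16952128) (l 16860168)))))) (a (a (c (l 17496600) (a (b (l 17193432) (l 17015200)) (l 17184480))) (c (l 17810952) (l 17387176))) (l 17858248))) (a (a (l 6) (a (b (a (l 16739344) (a (l 16754408) (l 16753544))) (a (a (l 6) (l 16762192)) (l 16744528))) (a (b (l 16742192) (b (l 16736528) (l 16740024)))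 (l 14)))) (a (a (l 14) (c (l 17644256) (l 14))) (a (l 17529192) (l 17790944))))) (a (a (l 6) (a (a (l 6) (b (b (a (l 16749928) (l 16749112)) (l 6)) (l 6))) (a (a (b (b (l 16756168) (l 16756400)) (l 6)) (l 14)) (l 14)))) (a (b (a (l 14) (c (c (l 17526128) (l 14)) (l 14))) (l 14)) (b (c (l 17579280) (a (a (l 14) (l 17393600)) (l 17525008))) (a (c (b (l 17523136) (a (l 14) (l 17481240))) (l 14)) (c (l 17645224) (b (l 17414376) (a (l 14) (l 17381744))))))))), by decide +kernel⟩

def k5_pm_022_a : ∃ t, chk3 f_pm_022_a t 9 1 1 = true :=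
  ⟨(b (l 18851568) (b (l 18762536) (b (l 18533648) (b (a (l 18261608) (l 18313968)) (a (b (l 18043024) (a (b (l 17827176) (a (l 17589120) (l 17760256))) (l 17925640))) (l 18115552)))))), by decide +kernel⟩

def k6_pm_022_a : ∃ t, chk3 f_pm_022_a t 5 1 1 = true :=
  ⟨(b (l 18302912) (a (b (l 18492464) (b (l 18385152) (l 18220000))) (l 18380000))), by decide +kernel⟩

def k7_pm_022_a : ∃ t, chk3 f_pm_022_a t 3 1 1 = true :=
  ⟨(b (a (l 17637488) (a (l 17434008) (l 2))) (a (a (l 17908632) (l 17668824)) (l 17595040))), by decide +kernel⟩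

theorem s8_pm_022_a : ∃ t, chk3 f_pm_022_a t 8 15 1 = true := ex3_b k3_pm_022_a k4_pm_022_a

theorem s9_pm_022_a : ∃ t, chk3 f_pm_022_a t 8 7 1 = true := ex3_b k2_pm_022_a s8_pm_022_a

theorem s10_pm_022_a : ∃ t, chk3 f_pm_022_a t 8 3 1 = true := ex3_b k1_pm_022_a s9_pm_022_a

theorem s11_pm_022_a : ∃ t, chk3 f_pm_022_a t 8 1 1 = true := ex3_b k0_pm_022_a s10_pm_022_a

theorem s12_pm_022_a : ∃ t, chk3 f_pm_022_a t 4 1 1 = true := ex3_a s11_pm_022_a k5_pm_022_a

theorem s13_pm_022_a : ∃ t, chk3 f_pm_022_a t 2 1 1 = true := ex3_a s12_pm_022_a k6_pm_022_a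

theorem s14_pm_022_a : ∃ t, chk3 f_pm_022_a t 1 1 1 = true := ex3_a s13_pm_022_a k7_pm_022_a

theorem c_pm_022_a : CertN 0 536870912 0 536870912 33554432 16777216 3 true true false .pp 0 2 2
    ndN0q0 ndN1q2a pcN2 cut_pm_022_a Ext.none :=
  certNK0 (fam := true) (s1 := true) (s2 := false) (a := 0) (b := 2) (c := 2) (cn := .pp) (n1 := ndN0q0) (n2 := ndN1q2a) (pc := pcN2) (cut := cut_pm_022_a) (xt := Ext.none) (P1 := 0) (W1 := 536870912) (P2 := 0) (W2 := 536870912) (P3 := 33554432) (W3 := 16777216) (N0 := 3)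
    rfl rfl rfl s14_pm_022_a

noncomputable def cut_pm_022_b : Cut := Cut.of [[⟨0, 0, 0, 33554432⟩, ⟨1, 1, 0, 33554432⟩, ⟨2, 1, 0, 33554432⟩], [⟨0, 0, 1, 25165824⟩, ⟨1, 1, 0, 16777216⟩, ⟨2, 1, 1, 25165824⟩, ⟨0, 0, 0, 67108864⟩, ⟨0, 1, 0, 1056964608⟩, ⟨2, 1, 0, 67108864⟩, ⟨2, 2, 0, 1056964608⟩]]

noncomputable def f_pm_022_b : ℕ → ℕ → ℕ → ℕ → Bool := onCell 0 536870912 1073741824 536870912 33554432 16777216
    (rowNK 3 1 true true false .pp 0 2 2 (qsf 0 536870912 1239849684 370763052 2) ndN0q0 ndN1q2b pcN2 cut_pm_022_b Ext.none)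

def k0_pm_022_b : ∃ t, chk3 f_pm_022_b t 1 1 1 = true :=
  ⟨(a (b (b (l 1) (a (a (l 259347645607) (b (l 1) (l 18702224))) (l 1))) (a (b (l 19226832) (l 19248104)) (a (l 257735683655) (l 225522285895)))) (b (l 1) (a (b (l 1) (l 227131865383)) (l 1)))), by decide +kernel⟩

theorem c_pm_022_b : CertN 0 536870912 1239849684 370763052 33554432 16777216 3 true true false .pp 0 2 2
    ndN0q0 ndN1q2b pcN2 cut_pm_022_b Ext.none :=
  certNK1 (fam := true) (s1 := true) (s2 := false) (a := 0) (b := 2) (c := 2) (cn := .pp) (n1 := ndN0q0) (n2 := ndN1q2b) (pc := pcN2) (cut := cut_pm_022_b) (xt := Ext.none) (P1 := 0) (W1 := 536870912) (P2 := 1239849684) (W2 := 370763052) (P3 := 33554432) (W3 := 16777216) (N0 := 3)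
    rfl rfl rfl (fun _ => rfl) k0_pm_022_b

noncomputable def f_pm_023_a : ℕ → ℕ → ℕ → ℕ → Bool := onCell 0 536870912 0 536870912 33554432 16777216
    (rowNK 3 0 true true false .up 0 2 3 (qsf 0 536870912 0 536870912 3) ndN0q0 ndN1q2a pcN3 Cut.none Ext.none)

def k0_pm_023_a : ∃ t, chk3 f_pm_023_a t 1 1 1 = true :=
  ⟨(a (l 1) (b (a (l 17829024) (l 17684360)) (a (b (l 1) (l 1)) (b (l 17643968) (b (l 17594144) (l 59628266375)))))), by decide +kernel⟩

theorem c_pm_023_a : CertN 0 536870912 0 536870912 33554432 16777216 3 true true false .up 0 2 3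
    ndN0q0 ndN1q2a pcN3 Cut.none Ext.none :=
  certNK0 (fam := true) (s1 := true) (s2 := false) (a := 0) (b := 2) (c := 3) (cn := .up) (n1 := ndN0q0) (n2 := ndN1q2a) (pc := pcN3) (cut := Cut.none) (xt := Ext.none) (P1 := 0) (W1 := 536870912) (P2 := 0) (W2 := 536870912) (P3 := 33554432) (W3 := 16777216) (N0 := 3)
    rfl rfl rfl k0_pm_023_a

noncomputable def f_pm_023_b : ℕ → ℕ → ℕ → ℕ → Bool := onCell 0 536870912 1610612736 536870912 33554432 16777216
    (rowNK 3 1 true true false .up 0 2 3 (qsf 0 536870912 1239849684 370763052 3) ndN0q0 ndN1q2b pcN3 Cut.none Ext.none)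

def k0_pm_023_b : ∃ t, chk3 f_pm_023_b t 1 1 1 = true :=
  ⟨(b (a (b (a (l 18548088) (l 18186056)) (a (l 18628136) (l 18153896))) (b (a (l 17818504) (a (l 17654800) (l 284576880119))) (a (l 17616584) (b (l 17634320) (l 17501688))))) (b (a (a (l 2) (l 18072720)) (a (b (l 17550664) (l 17480056)) (b (l 17434968) (l 17385904)))) (b (l 4) (l 4)))), by decide +kernel⟩

theorem c_pm_023_b : CertN 0 536870912 1239849684 370763052 33554432 16777216 3 true true false .up 0 2 3
    ndN0q0 ndN1q2b pcN3 Cut.none Ext.none :=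
  certNK1 (fam := true) (s1 := true) (s2 := false) (a := 0) (b := 2) (c := 3) (cn := .up) (n1 := ndN0q0) (n2 := ndN1q2b) (pc := pcN3) (cut := Cut.none) (xt := Ext.none) (P1 := 0) (W1 := 536870912) (P2 := 1239849684) (W2 := 370763052) (P3 := 33554432) (W3 := 16777216) (N0 := 3)
    rfl rfl rfl (fun _ => rfl) k0_pm_023_b

noncomputable def f_pm_033 : ℕ → ℕ → ℕ → ℕ → Bool := onCell 0 536870912 1610612736 536870912 33554432 16777216
    (rowNK 3 1 true true false .pnn 0 3 3 (qsf 0 536870912 1610612736 536870912 3) ndN0q0 ndN1q3 pcN3 Cut.none Ext.none)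

def k0_pm_033 : ∃ t, chk3 f_pm_033 t 1 1 1 = true :=
  ⟨(b (a (b (a (l 17971424) (l 18099416)) (a (b (l 17497848) (l 17521016)) (l 338264373175))) (b (l 1) (a (l 300146784439) (l 1)))) (b (b (a (a (l 17492264) (l 17379984)) (a (l 17648528) (l 1))) (a (l 4) (a (l 17707624) (l 17722608)))) (a (l 4) (l 4)))), by decide +kernel⟩

theorem c_pm_033 : CertN 0 536870912 1610612736 536870912 33554432 16777216 3 true true false .pnn 0 3 3
    ndN0q0 ndN1q3 pcN3 Cut.none Ext.none :=
  certNK1 (fam := true) (s1 := true) (s2 := false) (a := 0) (b := 3) (c := 3) (cn := .pnn) (n1 := ndN0q0) (n2 := ndN1q3) (pc := pcN3) (cut := Cut.none) (xt := Ext.none) (P1 := 0) (W1 := 536870912) (P2 := 1610612736) (W2 := 536870912) (P3 := 33554432) (W3 := 16777216) (N0 := 3)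
    rfl rfl rfl (fun _ => rfl) k0_pm_033

noncomputable def cut_pm_101 : Cut := Cut.of [[⟨0, 1, 0, 33554432⟩, ⟨1, 0, 0, 33554432⟩, ⟨2, 1, 0, 33554432⟩]]

noncomputable def f_pm_101 : ℕ → ℕ → ℕ → ℕ → Bool := onCell 536870912 536870912 0 536870912 33554432 16777216
    (rowNK 3 2 true true false .npn 1 0 1 (qsf 536870912 536870912 0 536870912 1) ndN0q1 ndN1q0 pcN1 cut_pm_101 Ext.none)

def k0_pm_101 : ∃ t, chk3 f_pm_101 t 1 1 1 = true :=
  ⟨(a (l 3) (b (a (l 3) (b (a (l 3) (b (a (l 3) (a (l 3) (b (a (l 3) (b (l 6) (l 3))) (l 3)))) (l 3))) (l 3))) (l 3))), by decide +kernel⟩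

theorem c_pm_101 : CertN 536870912 536870912 0 536870912 33554432 16777216 3 true true false .npn 1 0 1
    ndN0q1 ndN1q0 pcN1 cut_pm_101 Ext.none :=
  certNK2 (fam := true) (s1 := true) (s2 := false) (a := 1) (b := 0) (c := 1) (cn := .npn) (n1 := ndN0q1) (n2 := ndN1q0) (pc := pcN1) (cut := cut_pm_101) (xt := Ext.none) (P1 := 536870912) (W1 := 536870912) (P2 := 0) (W2 := 536870912) (P3 := 33554432) (W3 := 16777216) (N0 := 3)
    rfl rfl rfl (fun _ => rfl) k0_pm_101

noncomputable def cut_pm_102 : Cut := Cut.of [[⟨0, 1, 0, 33554432⟩, ⟨1, 0, 0, 33554432⟩, ⟨2, 1, 0, 33554432⟩]]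

noncomputable def f_pm_102 : ℕ → ℕ → ℕ → ℕ → Bool := onCell 536870912 536870912 1073741824 536870912 33554432 16777216
    (rowNK 3 1 true true false .npp 1 0 2 (qsf 536870912 536870912 0 536870912 2) ndN0q1 ndN1q0 pcN2 cut_pm_102 Ext.none)

def k0_pm_102 : ∃ t, chk3 f_pm_102 t 1 1 1 = true :=
  ⟨(a (b (b (b (l 3) (a (b (l 3) (l 17973960)) (b (l 17891672) (l 17890200)))) (b (a (b (b (l 17804896) (l 2)) (l 2)) (b (b (l 17658448) (b (l 17595504) (l 17583576))) (l 17552648))) (a (l 2) (l 17476968)))) (a (l 2) (a (l 2) (l 17193072)))) (b (a (b (b (b (l 3) (a (l 17642008) (l 17560816))) (a (b (l 17580384) (l 17570232)) (b (l 17474016) (l 17324504)))) (a (l 17450336) (l 17227752))) (b (b (b (a (a (l 153713686423) (l 155324001047)) (a (b (l 156934387335) (a (l 16946672) (l 16915392))) (b (b (a (l 16893968) (l 6)) (a (l 16866856) (a (l 16847232) (l 6)))) (a (l 16905232) (a (l 16842688) (l 16796792)))))) (a (l 17295824) (a (l 17092496) (a (l 17063776) (l 16923352)))))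 (a (b (a (l 17115464) (l 16987784)) (l 17031888)) (b (a (l 17134984) (a (l 17432512) (l 17640896))) (l 17553816)))) (a (l 17289288) (a (l 17726592) (l 18048960))))) (a (a (l 17181752) (l 17270256)) (a (l 17653576) (l 18067008))))), by decide +kernel⟩

theorem c_pm_102 : CertN 536870912 536870912 0 536870912 33554432 16777216 3 true true false .npp 1 0 2
    ndN0q1 ndN1q0 pcN2 cut_pm_102 Ext.none :=
  certNK1 (fam := true) (s1 := true) (s2 := false) (a := 1) (b := 0) (c := 2) (cn := .npp) (n1 := ndN0q1) (n2 := ndN1q0) (pc := pcN2) (cut := cut_pm_102) (xt := Ext.none) (P1 := 536870912) (W1 := 536870912) (P2 := 0) (W2 := 536870912) (P3 := 33554432) (W3 := 16777216) (N0 := 3)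
    rfl rfl rfl (fun _ => rfl) k0_pm_102

noncomputable def f_pm_112 : ℕ → ℕ → ℕ → ℕ → Bool := onCell 536870912 536870912 1073741824 536870912 33554432 16777216
    (rowNK 3 1 true true false .dn 1 1 2 (qsf 536870912 536870912 536870912 536870912 2) ndN0q1 ndN1q1 pcN2 Cut.none Ext.none)

def k0_pm_112 : ∃ t, chk3 f_pm_112 t 1 1 1 = true :=
  ⟨(a (b (b (b (l 3) (a (b (l 3) (a (l 18029896) (l 18113576))) (b (l 1) (l 18399016)))) (b (a (b (b (l 18094312) (b (l 18164552) (b (l 18181080) (l 18185120)))) (l 18205096)) (b (b (l 18247032) (b (l 18263544) (l 18266048))) (l 18273032))) (a (l 18256368) (l 18290016)))) (a (l 18416248) (l 18293248))) (b (a (b (l 1) (l 18338344)) (l 1)) (a (l 18289480) (l 18359624)))), by decide +kernel⟩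

theorem c_pm_112 : CertN 536870912 536870912 536870912 536870912 33554432 16777216 3 true true false .dn 1 1 2
    ndN0q1 ndN1q1 pcN2 Cut.none Ext.none :=
  certNK1 (fam := true) (s1 := true) (s2 := false) (a := 1) (b := 1) (c := 2) (cn := .dn) (n1 := ndN0q1) (n2 := ndN1q1) (pc := pcN2) (cut := Cut.none) (xt := Ext.none) (P1 := 536870912) (W1 := 536870912) (P2 := 536870912) (W2 := 536870912) (P3 := 33554432) (W3 := 16777216) (N0 := 3)
    rfl rfl rfl (fun _ => rfl) k0_pm_112

noncomputable def f_pm_113 : ℕ → ℕ → ℕ → ℕ → Bool := onCell 536870912 536870912 536870912 536870912 33554432 16777216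
    (rowNK 3 0 true true false .nn 1 1 3 (qsf 536870912 536870912 536870912 536870912 3) ndN0q1 ndN1q1 pcN3 Cut.none Ext.none)

def k0_pm_113 : ∃ t, chk3 f_pm_113 t 1 1 1 = true :=
  ⟨(a (b (a (l 1) (a (l 1) (l 203510316391))) (a (b (a (l 1) (l 17586072)) (a (l 17709552) (b (l 17595552) (l 17496888)))) (b (a (l 17643600) (l 18057544)) (a (b (l 17525352) (l 17451968)) (l 18027864))))) (b (a (b (a (l 1) (l 18251744)) (a (l 18407544) (l 18308824))) (b (l 234648886471) (a (l 17911576) (b (l 17509480) (l 17383520))))) (a (b (a (b (l 18481904) (l 18503328)) (l 18189776)) (a (a (l 18537672) (l 18414608)) (l 17921264))) (b (a (b (l 17709424) (l 17539032)) (b (l 17303488) (a (l 17234504) (l 17254168)))) (a (b (a (l 17503192) (l 17265288)) (a (l 17343808) (l 17354336))) (b (a (l 17241896) (l 17211432)) (a (l 17436576) (b (l 17175296) (l 4))))))))), by decide +kernel⟩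

theorem c_pm_113 : CertN 536870912 536870912 536870912 536870912 33554432 16777216 3 true true false .nn 1 1 3
    ndN0q1 ndN1q1 pcN3 Cut.none Ext.none :=
  certNK0 (fam := true) (s1 := true) (s2 := false) (a := 1) (b := 1) (c := 3) (cn := .nn) (n1 := ndN0q1) (n2 := ndN1q1) (pc := pcN3) (cut := Cut.none) (xt := Ext.none) (P1 := 536870912) (W1 := 536870912) (P2 := 536870912) (W2 := 536870912) (P3 := 33554432) (W3 := 16777216) (N0 := 3)
    rfl rfl rfl k0_pm_113

noncomputable def cut_pm_123_a : Cut := Cut.of [[⟨0, 1, 0, 7061502⟩, ⟨1, 1, 0, 7061502⟩, ⟨2, 2, 0, 184626⟩]]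

noncomputable def f_pm_123_a : ℕ → ℕ → ℕ → ℕ → Bool := onCell 1610612736 536870912 0 536870912 33554432 16777216
    (rowNK 3 2 true true false .npn 1 2 3 (qsf 536870912 536870912 0 536870912 3) ndN0q1 ndN1q2a pcN3 cut_pm_123_a Ext.none)

def k0_pm_123_a : ∃ t, chk3 f_pm_123_a t 2 1 1 = true :=
  ⟨(a (b (a (l 1) (l 17658752)) (b (a (l 1) (l 17562096)) (b (l 17713272) (a (l 17456056) (l 17352880))))) (b (a (l 17616240) (l 17439128)) (b (a (l 17418744) (l 17253768)) (b (a (l 17180088) (l 17093728)) (a (l 17553904) (b (l 17219040) (l 17344784))))))), by decide +kernel⟩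

def k1_pm_123_a : ∃ t, chk3 f_pm_123_a t 3 1 1 = true :=
  ⟨(a (b (a (b (l 17268488) (l 17317568)) (b (l 17135320) (l 17340096))) (b (a (l 17381792) (a (l 17240464) (l 17274584))) (a (b (l 17108256) (b (l 17079456) (l 17403552))) (b (l 17125136) (b (l 17058952) (a (l 17156384) (l 17260048))))))) (a (b (a (b (l 17063392) (l 17219696)) (b (l 17067072) (l 17131824))) (b (a (l 17348864) (l 17383504)) (b (a (l 17021960) (l 16974120)) (b (l 17145360) (b (l 17189112) (a (l 17253888) (b (l 17094168) (a (l 17142848) (l 17102752))))))))) (a (b (b (l 134453179495) (l 21710310631)) (b (b (l 17042024) (l 17126360)) (b (l 17158136) (b (l 16948968) (b (l 16981336) (b (l 16997080) (b (l 17015808) (a (l 17057840) (l 17031800))))))))) (b (a (l 123179045335) (l 4)) (a (b (l 16985976) (b (l 17073360) (b (l 16857160) (b (l 16867088) (b (l 16914024) (b (l 16906568) (l 17118272))))))) (b (a (l 16909224) (l 4)) (a (b (l 16927944) (b (l 16874616) (b (l 16814344) (l 17043328))))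 (b (a (l 16831784) (a (l 16813472) (l 4))) (a (b (l 16858448) (b (l 16788056) (b (l 16802088) (l 16923528)))) (a (b (l 16842360) (b (l 16833912) (b (l 16786672) (b (l 16792032) (l 16851288))))) (b (a (l 16801656) (a (l 16794256) (l 4))) (a (b (l 16826304) (b (l 16779400) (b (l 16783480) (l 16813960)))) (b (a (l 16820800) (a (l 16802496) (a (l 16788384) (l 4)))) (a (b (l 16805304) (b (l 16779376) (b (l 16780888) (l 16795752)))) (a (b (l 16801512) (b (l 16777680) (b (l 16778672) (b (l 16779224) (l 16786544))))) (a (b (l 16799192) (b (l 16801608) (b (l 16777616) (b (l 16778064) (c (l 16781808) (l 16781856)))))) (b (l 16826712) (l 6)))))))))))))))))), by decide +kernel⟩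

theorem s2_pm_123_a : ∃ t, chk3 f_pm_123_a t 1 1 1 = true := ex3_a k0_pm_123_a k1_pm_123_a

theorem c_pm_123_a : CertN 536870912 536870912 0 536870912 33554432 16777216 3 true true false .npn 1 2 3
    ndN0q1 ndN1q2a pcN3 cut_pm_123_a Ext.none :=
  certNK2 (fam := true) (s1 := true) (s2 := false) (a := 1) (b := 2) (c := 3) (cn := .npn) (n1 := ndN0q1) (n2 := ndN1q2a) (pc := pcN3) (cut := cut_pm_123_a) (xt := Ext.none) (P1 := 536870912) (W1 := 536870912) (P2 := 0) (W2 := 536870912) (P3 := 33554432) (W3 := 16777216) (N0 := 3)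
    rfl rfl rfl (fun _ => rfl) s2_pm_123_a

noncomputable def cut_pm_123_b : Cut := Cut.of [[⟨0, 1, 0, 7061502⟩, ⟨1, 1, 0, 7061502⟩, ⟨2, 2, 0, 184626⟩]]

noncomputable def f_pm_123_b : ℕ → ℕ → ℕ → ℕ → Bool := onCell 1610612736 536870912 1239849684 370763052 33554432 16777216
    (rowNK 3 2 true true false .npn 1 2 3 (qsf 536870912 536870912 1239849684 370763052 3) ndN0q1 ndN1q2b pcN3 cut_pm_123_b Ext.none)

def k0_pm_123_b : ∃ t, chk3 f_pm_123_b t 1 1 1 = true :=
  ⟨(a (b (a (l 1) (b (a (l 17722152) (b (l 17455336) (l 17501440))) (a (l 1) (l 17506816)))) (l 1)) (a (b (a (b (b (l 17227328) (l 17321336)) (l 17416056)) (b (b (l 17079504) (l 17090656)) (l 17328192))) (a (l 1) (b (l 17318448) (l 1)))) (a (b (b (b (a (l 16955728) (l 17087192)) (l 64123490343)) (a (l 17054216) (l 4))) (l 4)) (l 4)))), by decide +kernel⟩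

theorem c_pm_123_b : CertN 536870912 536870912 1239849684 370763052 33554432 16777216 3 true true false .npn 1 2 3
    ndN0q1 ndN1q2b pcN3 cut_pm_123_b Ext.none :=
  certNK2 (fam := true) (s1 := true) (s2 := false) (a := 1) (b := 2) (c := 3) (cn := .npn) (n1 := ndN0q1) (n2 := ndN1q2b) (pc := pcN3) (cut := cut_pm_123_b) (xt := Ext.none) (P1 := 536870912) (W1 := 536870912) (P2 := 1239849684) (W2 := 370763052) (P3 := 33554432) (W3 := 16777216) (N0 := 3)
    rfl rfl rfl (fun _ => rfl) k0_pm_123_b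

noncomputable def f_pm_133 : ℕ → ℕ → ℕ → ℕ → Bool := onCell 536870912 536870912 1610612736 536870912 33554432 16777216
    (rowNK 3 0 true true false .dn 1 3 3 (qsf 536870912 536870912 1610612736 536870912 3) ndN0q1 ndN1q3 pcN3 Cut.none Ext.none)

def k0_pm_133 : ∃ t, chk3 f_pm_133 t 1 1 1 = true :=
  ⟨(l 4), by decide +kernel⟩

theorem c_pm_133 : CertN 536870912 536870912 1610612736 536870912 33554432 16777216 3 true true false .dn 1 3 3
    ndN0q1 ndN1q3 pcN3 Cut.none Ext.none :=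
  certNK0 (fam := true) (s1 := true) (s2 := false) (a := 1) (b := 3) (c := 3) (cn := .dn) (n1 := ndN0q1) (n2 := ndN1q3) (pc := pcN3) (cut := Cut.none) (xt := Ext.none) (P1 := 536870912) (W1 := 536870912) (P2 := 1610612736) (W2 := 536870912) (P3 := 33554432) (W3 := 16777216) (N0 := 3)
    rfl rfl rfl k0_pm_133

noncomputable def cut_pm_202 : Cut := Cut.of [[⟨0, 1, 0, 33554432⟩, ⟨1, 0, 0, 33554432⟩, ⟨2, 1, 0, 33554432⟩]]

noncomputable def f_pm_202 : ℕ → ℕ → ℕ → ℕ → Bool := onCell 0 536870912 0 536870912 33554432 16777216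
    (rowNK 3 0 true true false .pp 2 0 2 (qsf 0 536870912 0 536870912 2) ndN0q2 ndN1q0 pcN2 cut_pm_202 Ext.none)

def k0_pm_202 : ∃ t, chk3 f_pm_202 t 1 1 1 = true :=
  ⟨(a (b (b (b (a (l 19228776) (l 19127704)) (a (l 18801888) (l 18771648))) (a (l 18388824) (l 18404888))) (b (a (l 18136104) (l 18142104)) (a (l 2) (l 17981872)))) (b (a (b (b (b (a (l 19096464) (b (a (l 18967664) (l 18759600)) (l 18880296))) (l 18900576)) (l 18735960)) (l 18473432)) (b (b (a (b (b (a (b (a (l 18466312) (b (l 18095528) (l 18254072))) (l 18467080)) (b (a (b (c (l 18073168) (a (l 17599240) (l 17180464))) (l 17927656)) (b (b (c (a (l 17668424) (l 17116576)) (l 16718488)) (l 17121688)) (l 17425856))) (a (l 18097344) (l 17737008)))) (a (l 18573336) (l 18192440))) (l 18547224)) (b (a (b (b (b (a (b (a (l 16727008) (l 16731360)) (l 16728696)) (b (a (l 16738936) (l 6)) (l 16738304))) (a (l 16784016) (l 16737328))) (a (l 17227376) (l 16735576))) (b (l 17365016) (l 17665832))) (b (a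 (b (l 6) (l 16756960)) (l 6)) (a (l 16742600) (l 16760032)))) (a (l 18060336) (a (l 17650632) (l 17285560))))) (a (l 18593616) (b (l 18160744) (l 18296168)))) (l 18490720))) (b (a (l 18240880) (l 18371296)) (a (l 18093648) (l 18446448))))), by decide +kernel⟩

theorem c_pm_202 : CertN 0 536870912 0 536870912 33554432 16777216 3 true true false .pp 2 0 2
    ndN0q2 ndN1q0 pcN2 cut_pm_202 Ext.none :=
  certNK0 (fam := true) (s1 := true) (s2 := false) (a := 2) (b := 0) (c := 2) (cn := .pp) (n1 := ndN0q2) (n2 := ndN1q0) (pc := pcN2) (cut := cut_pm_202) (xt := Ext.none) (P1 := 0) (W1 := 536870912) (P2 := 0) (W2 := 536870912) (P3 := 33554432) (W3 := 16777216) (N0 := 3)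
    rfl rfl rfl k0_pm_202

noncomputable def f_pm_203 : ℕ → ℕ → ℕ → ℕ → Bool := onCell 0 536870912 1610612736 536870912 33554432 16777216
    (rowNK 3 1 true true false .up 2 0 3 (qsf 0 536870912 0 536870912 3) ndN0q2 ndN1q0 pcN3 Cut.none Ext.none)

def k0_pm_203 : ∃ t, chk3 f_pm_203 t 1 1 1 = true :=
  ⟨(b (a (b (a (l 18035680) (l 18168528)) (b (l 17979952) (l 2))) (b (a (l 18488264) (l 18790848)) (a (l 2) (l 2)))) (l 2)), by decide +kernel⟩

theorem c_pm_203 : CertN 0 536870912 0 536870912 33554432 16777216 3 true true false .up 2 0 3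
    ndN0q2 ndN1q0 pcN3 Cut.none Ext.none :=
  certNK1 (fam := true) (s1 := true) (s2 := false) (a := 2) (b := 0) (c := 3) (cn := .up) (n1 := ndN0q2) (n2 := ndN1q0) (pc := pcN3) (cut := Cut.none) (xt := Ext.none) (P1 := 0) (W1 := 536870912) (P2 := 0) (W2 := 536870912) (P3 := 33554432) (W3 := 16777216) (N0 := 3)
    rfl rfl rfl (fun _ => rfl) k0_pm_203

noncomputable def f_pm_213 : ℕ → ℕ → ℕ → ℕ → Bool := onCell 0 536870912 1610612736 536870912 33554432 16777216
    (rowNK 3 1 true true false .pnn 2 1 3 (qsf 0 536870912 536870912 536870912 3) ndN0q2 ndN1q1 pcN3 Cut.none Ext.none)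

def k0_pm_213 : ∃ t, chk3 f_pm_213 t 1 1 1 = true :=
  ⟨(a (b (b (b (l 1) (l 17771720)) (b (l 17560192) (l 17573296))) (l 4)) (b (b (a (l 17420272) (l 17398832)) (a (l 17771952) (l 17556064))) (b (a (b (l 17587840) (l 4)) (b (l 17375976) (l 17305984))) (b (a (l 4) (l 17301984)) (l 4))))), by decide +kernel⟩

theorem c_pm_213 : CertN 0 536870912 536870912 536870912 33554432 16777216 3 true true false .pnn 2 1 3
    ndN0q2 ndN1q1 pcN3 Cut.none Ext.none :=
  certNK1 (fam := true) (s1 := true) (s2 := false) (a := 2) (b := 1) (c := 3) (cn := .pnn) (n1 := ndN0q2) (n2 := ndN1q1) (pc := pcN3) (cut := Cut.none) (xt := Ext.none) (P1 := 0) (W1 := 536870912) (P2 := 536870912) (W2 := 536870912) (P3 := 33554432) (W3 := 16777216) (N0 := 3)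
    rfl rfl rfl (fun _ => rfl) k0_pm_213

noncomputable def f_mm_001 : ℕ → ℕ → ℕ → ℕ → Bool := onCell 0 536870912 0 536870912 33554432 16777216
    (rowNK 3 0 true false false .up 0 0 1 (qsf 0 536870912 0 536870912 1) ndN0q0 ndN1q0 pcN1 Cut.none Ext.none)

def k0_mm_001 : ∃ t, chk3 f_mm_001 t 1 1 1 = true :=
  ⟨(l 4), by decide +kernel⟩

theorem c_mm_001 : CertN 0 536870912 0 536870912 33554432 16777216 3 true false false .up 0 0 1
    ndN0q0 ndN1q0 pcN1 Cut.none Ext.none :=
  certNK0 (fam := true) (s1 := false) (s2 := false) (a := 0) (b := 0) (c := 1) (cn := .up) (n1 := ndN0q0) (n2 := ndN1q0) (pc := pcN1) (cut := Cut.none) (xt := Ext.none) (P1 := 0) (W1 := 536870912) (P2 := 0) (W2 := 536870912) (P3 := 33554432) (W3 := 16777216) (N0 := 3)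
    rfl rfl rfl k0_mm_001

noncomputable def f_mm_011 : ℕ → ℕ → ℕ → ℕ → Bool := onCell 0 536870912 536870912 536870912 33554432 16777216
    (rowNK 3 0 true false false .pnn 0 1 1 (qsf 0 536870912 536870912 536870912 1) ndN0q0 ndN1q1 pcN1 Cut.none Ext.none)

def k0_mm_011 : ∃ t, chk3 f_mm_011 t 1 1 1 = true :=
  ⟨(l 4), by decide +kernel⟩

theorem c_mm_011 : CertN 0 536870912 536870912 536870912 33554432 16777216 3 true false false .pnn 0 1 1
    ndN0q0 ndN1q1 pcN1 Cut.none Ext.none :=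
  certNK0 (fam := true) (s1 := false) (s2 := false) (a := 0) (b := 1) (c := 1) (cn := .pnn) (n1 := ndN0q0) (n2 := ndN1q1) (pc := pcN1) (cut := Cut.none) (xt := Ext.none) (P1 := 0) (W1 := 536870912) (P2 := 536870912) (W2 := 536870912) (P3 := 33554432) (W3 := 16777216) (N0 := 3)
    rfl rfl rfl k0_mm_011

noncomputable def f_mm_012 : ℕ → ℕ → ℕ → ℕ → Bool := onCell 0 536870912 536870912 536870912 33554432 16777216
    (rowNK 3 0 true false false .pnp 0 1 2 (qsf 0 536870912 536870912 536870912 2) ndN0q0 ndN1q1 pcN2 Cut.none Ext.none)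

def k0_mm_012 : ∃ t, chk3 f_mm_012 t 1 1 1 = true :=
  ⟨(l 4), by decide +kernel⟩

theorem c_mm_012 : CertN 0 536870912 536870912 536870912 33554432 16777216 3 true false false .pnp 0 1 2
    ndN0q0 ndN1q1 pcN2 Cut.none Ext.none :=
  certNK0 (fam := true) (s1 := false) (s2 := false) (a := 0) (b := 1) (c := 2) (cn := .pnp) (n1 := ndN0q0) (n2 := ndN1q1) (pc := pcN2) (cut := Cut.none) (xt := Ext.none) (P1 := 0) (W1 := 536870912) (P2 := 536870912) (W2 := 536870912) (P3 := 33554432) (W3 := 16777216) (N0 := 3)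
    rfl rfl rfl k0_mm_012

noncomputable def f_mm_022_a : ℕ → ℕ → ℕ → ℕ → Bool := onCell 0 536870912 0 536870912 33554432 16777216
    (rowNK 3 0 true false false .pp 0 2 2 (qsf 0 536870912 0 536870912 2) ndN0q0 ndN1q2a pcN2 Cut.none Ext.none)

def k0_mm_022_a : ∃ t, chk3 f_mm_022_a t 1 1 1 = true :=
  ⟨(l 5), by decide +kernel⟩

theorem c_mm_022_a : CertN 0 536870912 0 536870912 33554432 16777216 3 true false false .pp 0 2 2
    ndN0q0 ndN1q2a pcN2 Cut.none Ext.none :=
  certNK0 (fam := true) (s1 := false) (s2 := false) (a := 0) (b := 2) (c := 2) (cn := .pp) (n1 := ndN0q0) (n2 := ndN1q2a) (pc := pcN2) (cut := Cut.none) (xt := Ext.none) (P1 := 0) (W1 := 536870912) (P2 := 0) (W2 := 536870912) (P3 := 33554432) (W3 := 16777216) (N0 := 3)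
    rfl rfl rfl k0_mm_022_a

noncomputable def f_mm_022_b : ℕ → ℕ → ℕ → ℕ → Bool := onCell 0 536870912 1239849684 370763052 33554432 16777216
    (rowNK 3 0 true false false .pp 0 2 2 (qsf 0 536870912 1239849684 370763052 2) ndN0q0 ndN1q2b pcN2 Cut.none Ext.none)

def k0_mm_022_b : ∃ t, chk3 f_mm_022_b t 1 1 1 = true :=
  ⟨(l 5), by decide +kernel⟩

theorem c_mm_022_b : CertN 0 536870912 1239849684 370763052 33554432 16777216 3 true false false .pp 0 2 2
    ndN0q0 ndN1q2b pcN2 Cut.none Ext.none :=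
  certNK0 (fam := true) (s1 := false) (s2 := false) (a := 0) (b := 2) (c := 2) (cn := .pp) (n1 := ndN0q0) (n2 := ndN1q2b) (pc := pcN2) (cut := Cut.none) (xt := Ext.none) (P1 := 0) (W1 := 536870912) (P2 := 1239849684) (W2 := 370763052) (P3 := 33554432) (W3 := 16777216) (N0 := 3)
    rfl rfl rfl k0_mm_022_b

noncomputable def f_mm_023_a : ℕ → ℕ → ℕ → ℕ → Bool := onCell 0 536870912 0 536870912 33554432 16777216
    (rowNK 3 0 true false false .up 0 2 3 (qsf 0 536870912 0 536870912 3) ndN0q0 ndN1q2a pcN3 Cut.none Ext.none)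

def k0_mm_023_a : ∃ t, chk3 f_mm_023_a t 1 1 1 = true :=
  ⟨(l 5), by decide +kernel⟩

theorem c_mm_023_a : CertN 0 536870912 0 536870912 33554432 16777216 3 true false false .up 0 2 3
    ndN0q0 ndN1q2a pcN3 Cut.none Ext.none :=
  certNK0 (fam := true) (s1 := false) (s2 := false) (a := 0) (b := 2) (c := 3) (cn := .up) (n1 := ndN0q0) (n2 := ndN1q2a) (pc := pcN3) (cut := Cut.none) (xt := Ext.none) (P1 := 0) (W1 := 536870912) (P2 := 0) (W2 := 536870912) (P3 := 33554432) (W3 := 16777216) (N0 := 3)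
    rfl rfl rfl k0_mm_023_a

noncomputable def f_mm_023_b : ℕ → ℕ → ℕ → ℕ → Bool := onCell 0 536870912 1239849684 370763052 33554432 16777216
    (rowNK 3 0 true false false .up 0 2 3 (qsf 0 536870912 1239849684 370763052 3) ndN0q0 ndN1q2b pcN3 Cut.none Ext.none)

def k0_mm_023_b : ∃ t, chk3 f_mm_023_b t 1 1 1 = true :=
  ⟨(l 5), by decide +kernel⟩

theorem c_mm_023_b : CertN 0 536870912 1239849684 370763052 33554432 16777216 3 true false false .up 0 2 3
    ndN0q0 ndN1q2b pcN3 Cut.none Ext.none :=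
  certNK0 (fam := true) (s1 := false) (s2 := false) (a := 0) (b := 2) (c := 3) (cn := .up) (n1 := ndN0q0) (n2 := ndN1q2b) (pc := pcN3) (cut := Cut.none) (xt := Ext.none) (P1 := 0) (W1 := 536870912) (P2 := 1239849684) (W2 := 370763052) (P3 := 33554432) (W3 := 16777216) (N0 := 3)
    rfl rfl rfl k0_mm_023_b

noncomputable def f_mm_033 : ℕ → ℕ → ℕ → ℕ → Bool := onCell 0 536870912 1610612736 536870912 33554432 16777216
    (rowNK 3 0 true false false .pnn 0 3 3 (qsf 0 536870912 1610612736 536870912 3) ndN0q0 ndN1q3 pcN3 Cut.none Ext.none)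

def k0_mm_033 : ∃ t, chk3 f_mm_033 t 1 1 1 = true :=
  ⟨(l 5), by decide +kernel⟩

theorem c_mm_033 : CertN 0 536870912 1610612736 536870912 33554432 16777216 3 true false false .pnn 0 3 3
    ndN0q0 ndN1q3 pcN3 Cut.none Ext.none :=
  certNK0 (fam := true) (s1 := false) (s2 := false) (a := 0) (b := 3) (c := 3) (cn := .pnn) (n1 := ndN0q0) (n2 := ndN1q3) (pc := pcN3) (cut := Cut.none) (xt := Ext.none) (P1 := 0) (W1 := 536870912) (P2 := 1610612736) (W2 := 536870912) (P3 := 33554432) (W3 := 16777216) (N0 := 3)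
    rfl rfl rfl k0_mm_033

noncomputable def cut_mm_101 : Cut := Cut.of [[⟨0, 1, 0, 33554432⟩, ⟨1, 0, 0, 33554432⟩, ⟨2, 1, 0, 33554432⟩]]

noncomputable def f_mm_101 : ℕ → ℕ → ℕ → ℕ → Bool := onCell 536870912 536870912 0 536870912 33554432 16777216
    (rowNK 3 0 true false false .npn 1 0 1 (qsf 536870912 536870912 0 536870912 1) ndN0q1 ndN1q0 pcN1 cut_mm_101 Ext.none)

def k0_mm_101 : ∃ t, chk3 f_mm_101 t 1 1 1 = true :=
  ⟨(a (l 4) (b (a (l 4) (b (a (l 4) (b (a (l 4) (a (l 4) (b (b (l 6) (l 4)) (l 2)))) (l 4))) (l 4))) (l 4))), by decide +kernel⟩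

theorem c_mm_101 : CertN 536870912 536870912 0 536870912 33554432 16777216 3 true false false .npn 1 0 1
    ndN0q1 ndN1q0 pcN1 cut_mm_101 Ext.none :=
  certNK0 (fam := true) (s1 := false) (s2 := false) (a := 1) (b := 0) (c := 1) (cn := .npn) (n1 := ndN0q1) (n2 := ndN1q0) (pc := pcN1) (cut := cut_mm_101) (xt := Ext.none) (P1 := 536870912) (W1 := 536870912) (P2 := 0) (W2 := 536870912) (P3 := 33554432) (W3 := 16777216) (N0 := 3)
    rfl rfl rfl k0_mm_101

noncomputable def cut_mm_102 : Cut := Cut.of [[⟨0, 1, 0, 33554432⟩, ⟨1, 0, 0, 33554432⟩, ⟨2, 1, 0, 33554432⟩]]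

noncomputable def f_mm_102 : ℕ → ℕ → ℕ → ℕ → Bool := onCell 536870912 536870912 0 536870912 33554432 16777216
    (rowNK 3 0 true false false .npp 1 0 2 (qsf 536870912 536870912 0 536870912 2) ndN0q1 ndN1q0 pcN2 cut_mm_102 Ext.none)

def k0_mm_102 : ∃ t, chk3 f_mm_102 t 1 1 1 = true :=
  ⟨(a (l 4) (b (a (l 4) (b (a (l 4) (b (a (l 4) (a (l 4) (b (b (l 6) (l 4)) (l 4)))) (l 4))) (l 4))) (l 4))), by decide +kernel⟩

theorem c_mm_102 : CertN 536870912 536870912 0 536870912 33554432 16777216 3 true false false .npp 1 0 2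
    ndN0q1 ndN1q0 pcN2 cut_mm_102 Ext.none :=
  certNK0 (fam := true) (s1 := false) (s2 := false) (a := 1) (b := 0) (c := 2) (cn := .npp) (n1 := ndN0q1) (n2 := ndN1q0) (pc := pcN2) (cut := cut_mm_102) (xt := Ext.none) (P1 := 536870912) (W1 := 536870912) (P2 := 0) (W2 := 536870912) (P3 := 33554432) (W3 := 16777216) (N0 := 3)
    rfl rfl rfl k0_mm_102

noncomputable def f_mm_112 : ℕ → ℕ → ℕ → ℕ → Bool := onCell 536870912 536870912 536870912 536870912 33554432 16777216
    (rowNK 3 0 true false false .dn 1 1 2 (qsf 536870912 536870912 536870912 536870912 2) ndN0q1 ndN1q1 pcN2 Cut.none Ext.none)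

def k0_mm_112 : ∃ t, chk3 f_mm_112 t 1 1 1 = true :=
  ⟨(l 4), by decide +kernel⟩

theorem c_mm_112 : CertN 536870912 536870912 536870912 536870912 33554432 16777216 3 true false false .dn 1 1 2
    ndN0q1 ndN1q1 pcN2 Cut.none Ext.none :=
  certNK0 (fam := true) (s1 := false) (s2 := false) (a := 1) (b := 1) (c := 2) (cn := .dn) (n1 := ndN0q1) (n2 := ndN1q1) (pc := pcN2) (cut := Cut.none) (xt := Ext.none) (P1 := 536870912) (W1 := 536870912) (P2 := 536870912) (W2 := 536870912) (P3 := 33554432) (W3 := 16777216) (N0 := 3)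
    rfl rfl rfl k0_mm_112

noncomputable def f_mm_113 : ℕ → ℕ → ℕ → ℕ → Bool := onCell 536870912 536870912 536870912 536870912 33554432 16777216
    (rowNK 3 0 true false false .nn 1 1 3 (qsf 536870912 536870912 536870912 536870912 3) ndN0q1 ndN1q1 pcN3 Cut.none Ext.none)

def k0_mm_113 : ∃ t, chk3 f_mm_113 t 1 1 1 = true :=
  ⟨(l 4), by decide +kernel⟩

theorem c_mm_113 : CertN 536870912 536870912 536870912 536870912 33554432 16777216 3 true false false .nn 1 1 3
    ndN0q1 ndN1q1 pcN3 Cut.none Ext.none :=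
  certNK0 (fam := true) (s1 := false) (s2 := false) (a := 1) (b := 1) (c := 3) (cn := .nn) (n1 := ndN0q1) (n2 := ndN1q1) (pc := pcN3) (cut := Cut.none) (xt := Ext.none) (P1 := 536870912) (W1 := 536870912) (P2 := 536870912) (W2 := 536870912) (P3 := 33554432) (W3 := 16777216) (N0 := 3)
    rfl rfl rfl k0_mm_113

noncomputable def f_mm_123_a : ℕ → ℕ → ℕ → ℕ → Bool := onCell 536870912 536870912 0 536870912 33554432 16777216
    (rowNK 3 0 true false false .npn 1 2 3 (qsf 536870912 536870912 0 536870912 3) ndN0q1 ndN1q2a pcN3 Cut.none Ext.none)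

def k0_mm_123_a : ∃ t, chk3 f_mm_123_a t 1 1 1 = true :=
  ⟨(l 4), by decide +kernel⟩

theorem c_mm_123_a : CertN 536870912 536870912 0 536870912 33554432 16777216 3 true false false .npn 1 2 3
    ndN0q1 ndN1q2a pcN3 Cut.none Ext.none :=
  certNK0 (fam := true) (s1 := false) (s2 := false) (a := 1) (b := 2) (c := 3) (cn := .npn) (n1 := ndN0q1) (n2 := ndN1q2a) (pc := pcN3) (cut := Cut.none) (xt := Ext.none) (P1 := 536870912) (W1 := 536870912) (P2 := 0) (W2 := 536870912) (P3 := 33554432) (W3 := 16777216) (N0 := 3)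
    rfl rfl rfl k0_mm_123_a

noncomputable def f_mm_123_b : ℕ → ℕ → ℕ → ℕ → Bool := onCell 536870912 536870912 1239849684 370763052 33554432 16777216
    (rowNK 3 0 true false false .npn 1 2 3 (qsf 536870912 536870912 1239849684 370763052 3) ndN0q1 ndN1q2b pcN3 Cut.none Ext.none)

def k0_mm_123_b : ∃ t, chk3 f_mm_123_b t 1 1 1 = true :=
  ⟨(l 4), by decide +kernel⟩

theorem c_mm_123_b : CertN 536870912 536870912 1239849684 370763052 33554432 16777216 3 true false false .npn 1 2 3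
    ndN0q1 ndN1q2b pcN3 Cut.none Ext.none :=
  certNK0 (fam := true) (s1 := false) (s2 := false) (a := 1) (b := 2) (c := 3) (cn := .npn) (n1 := ndN0q1) (n2 := ndN1q2b) (pc := pcN3) (cut := Cut.none) (xt := Ext.none) (P1 := 536870912) (W1 := 536870912) (P2 := 1239849684) (W2 := 370763052) (P3 := 33554432) (W3 := 16777216) (N0 := 3)
    rfl rfl rfl k0_mm_123_b

noncomputable def f_mm_133 : ℕ → ℕ → ℕ → ℕ → Bool := onCell 536870912 536870912 1610612736 536870912 33554432 16777216
    (rowNK 3 0 true false false .dn 1 3 3 (qsf 536870912 536870912 1610612736 536870912 3) ndN0q1 ndN1q3 pcN3 Cut.none Ext.none)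

def k0_mm_133 : ∃ t, chk3 f_mm_133 t 1 1 1 = true :=
  ⟨(l 4), by decide +kernel⟩

theorem c_mm_133 : CertN 536870912 536870912 1610612736 536870912 33554432 16777216 3 true false false .dn 1 3 3
    ndN0q1 ndN1q3 pcN3 Cut.none Ext.none :=
  certNK0 (fam := true) (s1 := false) (s2 := false) (a := 1) (b := 3) (c := 3) (cn := .dn) (n1 := ndN0q1) (n2 := ndN1q3) (pc := pcN3) (cut := Cut.none) (xt := Ext.none) (P1 := 536870912) (W1 := 536870912) (P2 := 1610612736) (W2 := 536870912) (P3 := 33554432) (W3 := 16777216) (N0 := 3)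
    rfl rfl rfl k0_mm_133

noncomputable def cut_mm_202 : Cut := Cut.of [[⟨0, 1, 0, 33554432⟩, ⟨1, 0, 0, 33554432⟩, ⟨2, 1, 0, 33554432⟩]]

noncomputable def f_mm_202 : ℕ → ℕ → ℕ → ℕ → Bool := onCell 0 536870912 0 536870912 33554432 16777216
    (rowNK 3 0 true false false .pp 2 0 2 (qsf 0 536870912 0 536870912 2) ndN0q2 ndN1q0 pcN2 cut_mm_202 Ext.none)

def k0_mm_202 : ∃ t, chk3 f_mm_202 t 1 1 1 = true :=
  ⟨(b (a (b (b (a (l 19163776) (b (l 19255544) (l 18904896))) (a (l 18651592) (l 18487536))) (a (l 18196328) (b (l 18123128) (l 17936440)))) (b (a (b (a (b (l 19025496) (l 18631984)) (b (b (a (l 18884584) (b (l 18671992) (l 18588160))) (l 18557088)) (l 18246328))) (a (l 18172056) (b (l 17899368) (l 17640304)))) (b (a (b (a (b (b (a (l 18391104) (b (c (l 18371136) (l 17847792)) (l 18141672))) (l 18241600)) (l 18127720)) (b (b (a (b (b (c (l 18018416) (a (l 17540536) (l 17053248))) (l 17560688)) (l 17824632)) (b (b (a (c (l 17488168) (l 16721312)) (a (c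 (l 17259888) (l 16733408)) (l 16740376))) (c (l 17399208) (l 16880784))) (b (l 17273872) (l 17428608)))) (a (l 17870616) (l 17370136))) (b (l 17724032) (l 17675472)))) (a (l 17876408) (b (l 17555744) (l 17377296)))) (a (b (b (b (a (b (b (b (a (l 16739320) (l 16746656)) (l 16742648)) (l 16744208)) (l 16749648)) (a (b (b (b (l 6) (l 16749784)) (l 16751304)) (l 16754416)) (b (l 6) (l 16759320)))) (a (b (l 17032032) (l 17172952)) (b (l 16761128) (l 16765640)))) (a (b (l 17271328) (l 17287488)) (l 16900160))) (b (l 17077424) (l 4))) (b (b (a (b (l 6) (a (b (l 16768536) (l 16774424)) (l 6))) (l 6)) (a (b (l 16823040) (l 4)) (l 4))) (l 4)))) (a (b (l 17299456) (l 4)) (l 4)))) (a (b (a (l 17797408) (l 4)) (l 4)) (l 4)))) (a (b (a (l 17963120) (b (l 17860344) (l 4))) (l 4)) (l 4))), by decide +kernel⟩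

theorem c_mm_202 : CertN 0 536870912 0 536870912 33554432 16777216 3 true false false .pp 2 0 2
    ndN0q2 ndN1q0 pcN2 cut_mm_202 Ext.none :=
  certNK0 (fam := true) (s1 := false) (s2 := false) (a := 2) (b := 0) (c := 2) (cn := .pp) (n1 := ndN0q2) (n2 := ndN1q0) (pc := pcN2) (cut := cut_mm_202) (xt := Ext.none) (P1 := 0) (W1 := 536870912) (P2 := 0) (W2 := 536870912) (P3 := 33554432) (W3 := 16777216) (N0 := 3)
    rfl rfl rfl k0_mm_202

noncomputable def f_mm_203 : ℕ → ℕ → ℕ → ℕ → Bool := onCell 0 536870912 1610612736 536870912 33554432 16777216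
    (rowNK 3 1 true false false .up 2 0 3 (qsf 0 536870912 0 536870912 3) ndN0q2 ndN1q0 pcN3 Cut.none Ext.none)

def k0_mm_203 : ∃ t, chk3 f_mm_203 t 1 1 1 = true :=
  ⟨(b (a (b (a (l 18058584) (l 4)) (l 4)) (l 4)) (l 2)), by decide +kernel⟩

theorem c_mm_203 : CertN 0 536870912 0 536870912 33554432 16777216 3 true false false .up 2 0 3
    ndN0q2 ndN1q0 pcN3 Cut.none Ext.none :=
  certNK1 (fam := true) (s1 := false) (s2 := false) (a := 2) (b := 0) (c := 3) (cn := .up) (n1 := ndN0q2) (n2 := ndN1q0) (pc := pcN3) (cut := Cut.none) (xt := Ext.none) (P1 := 0) (W1 := 536870912) (P2 := 0) (W2 := 536870912) (P3 := 33554432) (W3 := 16777216) (N0 := 3)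
    rfl rfl rfl (fun _ => rfl) k0_mm_203

noncomputable def f_mm_213 : ℕ → ℕ → ℕ → ℕ → Bool := onCell 0 536870912 536870912 536870912 33554432 16777216
    (rowNK 3 0 true false false .pnn 2 1 3 (qsf 0 536870912 536870912 536870912 3) ndN0q2 ndN1q1 pcN3 Cut.none Ext.none)

def k0_mm_213 : ∃ t, chk3 f_mm_213 t 1 1 1 = true :=
  ⟨(l 4), by decide +kernel⟩

theorem c_mm_213 : CertN 0 536870912 536870912 536870912 33554432 16777216 3 true false false .pnn 2 1 3
    ndN0q2 ndN1q1 pcN3 Cut.none Ext.none :=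
  certNK0 (fam := true) (s1 := false) (s2 := false) (a := 2) (b := 1) (c := 3) (cn := .pnn) (n1 := ndN0q2) (n2 := ndN1q1) (pc := pcN3) (cut := Cut.none) (xt := Ext.none) (P1 := 0) (W1 := 536870912) (P2 := 536870912) (W2 := 536870912) (P3 := 33554432) (W3 := 16777216) (N0 := 3)
    rfl rfl rfl k0_mm_213

end Pool.Agent.Strip051.G.I1_32_3_64.Tab.C.NA01

namespace Pool.Agent.Strip051.G.I1_32_3_64.Tab.C.NA02

open Pool.Agent.Strip051.PB Pool.Agent.Strip051.PB.T
open Pool.Agent.Strip051.G.I1_32_3_64.Tab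

noncomputable def f_pp_001 : ℕ → ℕ → ℕ → ℕ → Bool := onCell 0 536870912 0 536870912 33554432 16777216
    (rowNK 3 0 true true true .up 0 0 1 (qsf 0 536870912 0 536870912 1) ndN0q0 ndN2q0 pcN1 Cut.none Ext.none)

def k0_pp_001 : ∃ t, chk3 f_pp_001 t 1 1 1 = true :=
  ⟨(l 4), by decide +kernel⟩

theorem c_pp_001 : CertN 0 536870912 0 536870912 33554432 16777216 3 true true true .up 0 0 1
    ndN0q0 ndN2q0 pcN1 Cut.none Ext.none :=
  certNK0 (fam := true) (s1 := true) (s2 := true) (a := 0) (b := 0) (c := 1) (cn := .up) (n1 := ndN0q0) (n2 := ndN2q0) (pc := pcN1) (cut := Cut.none) (xt := Ext.none) (P1 := 0) (W1 := 536870912) (P2 := 0) (W2 := 536870912) (P3 := 33554432) (W3 := 16777216) (N0 := 3)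
    rfl rfl rfl k0_pp_001

noncomputable def f_pp_011 : ℕ → ℕ → ℕ → ℕ → Bool := onCell 0 536870912 536870912 536870912 33554432 16777216
    (rowNK 3 0 true true true .pnn 0 1 1 (qsf 0 536870912 536870912 536870912 1) ndN0q0 ndN2q1 pcN1 Cut.none Ext.none)

def k0_pp_011 : ∃ t, chk3 f_pp_011 t 1 1 1 = true :=
  ⟨(l 4), by decide +kernel⟩

theorem c_pp_011 : CertN 0 536870912 536870912 536870912 33554432 16777216 3 true true true .pnn 0 1 1
    ndN0q0 ndN2q1 pcN1 Cut.none Ext.none :=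
  certNK0 (fam := true) (s1 := true) (s2 := true) (a := 0) (b := 1) (c := 1) (cn := .pnn) (n1 := ndN0q0) (n2 := ndN2q1) (pc := pcN1) (cut := Cut.none) (xt := Ext.none) (P1 := 0) (W1 := 536870912) (P2 := 536870912) (W2 := 536870912) (P3 := 33554432) (W3 := 16777216) (N0 := 3)
    rfl rfl rfl k0_pp_011

noncomputable def f_pp_012 : ℕ → ℕ → ℕ → ℕ → Bool := onCell 0 536870912 536870912 536870912 33554432 16777216
    (rowNK 3 0 true true true .pnp 0 1 2 (qsf 0 536870912 536870912 536870912 2) ndN0q0 ndN2q1 pcN2 Cut.none Ext.none)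

def k0_pp_012 : ∃ t, chk3 f_pp_012 t 1 1 1 = true :=
  ⟨(l 4), by decide +kernel⟩

theorem c_pp_012 : CertN 0 536870912 536870912 536870912 33554432 16777216 3 true true true .pnp 0 1 2
    ndN0q0 ndN2q1 pcN2 Cut.none Ext.none :=
  certNK0 (fam := true) (s1 := true) (s2 := true) (a := 0) (b := 1) (c := 2) (cn := .pnp) (n1 := ndN0q0) (n2 := ndN2q1) (pc := pcN2) (cut := Cut.none) (xt := Ext.none) (P1 := 0) (W1 := 536870912) (P2 := 536870912) (W2 := 536870912) (P3 := 33554432) (W3 := 16777216) (N0 := 3)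
    rfl rfl rfl k0_pp_012

noncomputable def cut_pp_022_a : Cut := Cut.of [[⟨0, 0, 0, 33554432⟩, ⟨1, 1, 0, 33554432⟩, ⟨2, 1, 0, 33554432⟩]]

noncomputable def f_pp_022_a : ℕ → ℕ → ℕ → ℕ → Bool := onCell 0 536870912 0 536870912 33554432 16777216
    (rowNK 3 0 true true true .pp 0 2 2 (qsf 0 536870912 0 536870912 2) ndN0q0 ndN2q2a pcN2 cut_pp_022_a Ext.none)

def k0_pp_022_a : ∃ t, chk3 f_pp_022_a t 1 1 1 = true :=
  ⟨(a (b (l 4) (a (b (l 4) (b (l 4) (b (l 4) (b (l 4) (a (a (a (l 6) (l 4)) (l 4)) (l 4)))))) (l 4))) (l 4)), by decide +kernel⟩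

theorem c_pp_022_a : CertN 0 536870912 0 536870912 33554432 16777216 3 true true true .pp 0 2 2
    ndN0q0 ndN2q2a pcN2 cut_pp_022_a Ext.none :=
  certNK0 (fam := true) (s1 := true) (s2 := true) (a := 0) (b := 2) (c := 2) (cn := .pp) (n1 := ndN0q0) (n2 := ndN2q2a) (pc := pcN2) (cut := cut_pp_022_a) (xt := Ext.none) (P1 := 0) (W1 := 536870912) (P2 := 0) (W2 := 536870912) (P3 := 33554432) (W3 := 16777216) (N0 := 3)
    rfl rfl rfl k0_pp_022_a

noncomputable def cut_pp_022_b : Cut := Cut.of [[⟨0, 0, 0, 33554432⟩, ⟨1, 1, 0, 33554432⟩, ⟨2, 1, 0, 33554432⟩]]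

noncomputable def f_pp_022_b : ℕ → ℕ → ℕ → ℕ → Bool := onCell 0 536870912 1239849684 370763052 33554432 16777216
    (rowNK 3 0 true true true .pp 0 2 2 (qsf 0 536870912 1239849684 370763052 2) ndN0q0 ndN2q2b pcN2 cut_pp_022_b Ext.none)

def k0_pp_022_b : ∃ t, chk3 f_pp_022_b t 1 1 1 = true :=
  ⟨(l 4), by decide +kernel⟩

theorem c_pp_022_b : CertN 0 536870912 1239849684 370763052 33554432 16777216 3 true true true .pp 0 2 2
    ndN0q0 ndN2q2b pcN2 cut_pp_022_b Ext.none :=
  certNK0 (fam := true) (s1 := true) (s2 := true) (a := 0) (b := 2) (c := 2) (cn := .pp) (n1 := ndN0q0) (n2 := ndN2q2b) (pc := pcN2) (cut := cut_pp_022_b) (xt := Ext.none) (P1 := 0) (W1 := 536870912) (P2 := 1239849684) (W2 := 370763052) (P3 := 33554432) (W3 := 16777216) (N0 := 3)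
    rfl rfl rfl k0_pp_022_b

noncomputable def f_pp_023_a : ℕ → ℕ → ℕ → ℕ → Bool := onCell 1610612736 536870912 0 536870912 33554432 16777216
    (rowNK 3 2 true true true .up 0 2 3 (qsf 0 536870912 0 536870912 3) ndN0q0 ndN2q2a pcN3 Cut.none Ext.none)

def k0_pp_023_a : ∃ t, chk3 f_pp_023_a t 1 1 1 = true :=
  ⟨(l 4), by decide +kernel⟩

theorem c_pp_023_a : CertN 0 536870912 0 536870912 33554432 16777216 3 true true true .up 0 2 3
    ndN0q0 ndN2q2a pcN3 Cut.none Ext.none :=
  certNK2 (fam := true) (s1 := true) (s2 := true) (a := 0) (b := 2) (c := 3) (cn := .up) (n1 := ndN0q0) (n2 := ndN2q2a) (pc := pcN3) (cut := Cut.none) (xt := Ext.none) (P1 := 0) (W1 := 536870912) (P2 := 0) (W2 := 536870912) (P3 := 33554432) (W3 := 16777216) (N0 := 3)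
    rfl rfl rfl (fun _ => rfl) k0_pp_023_a

noncomputable def f_pp_023_b : ℕ → ℕ → ℕ → ℕ → Bool := onCell 0 536870912 1239849684 370763052 33554432 16777216
    (rowNK 3 0 true true true .up 0 2 3 (qsf 0 536870912 1239849684 370763052 3) ndN0q0 ndN2q2b pcN3 Cut.none Ext.none)

def k0_pp_023_b : ∃ t, chk3 f_pp_023_b t 1 1 1 = true :=
  ⟨(l 4), by decide +kernel⟩

theorem c_pp_023_b : CertN 0 536870912 1239849684 370763052 33554432 16777216 3 true true true .up 0 2 3
    ndN0q0 ndN2q2b pcN3 Cut.none Ext.none :=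
  certNK0 (fam := true) (s1 := true) (s2 := true) (a := 0) (b := 2) (c := 3) (cn := .up) (n1 := ndN0q0) (n2 := ndN2q2b) (pc := pcN3) (cut := Cut.none) (xt := Ext.none) (P1 := 0) (W1 := 536870912) (P2 := 1239849684) (W2 := 370763052) (P3 := 33554432) (W3 := 16777216) (N0 := 3)
    rfl rfl rfl k0_pp_023_b

noncomputable def f_pp_033 : ℕ → ℕ → ℕ → ℕ → Bool := onCell 0 536870912 1610612736 536870912 33554432 16777216
    (rowNK 3 0 true true true .pnn 0 3 3 (qsf 0 536870912 1610612736 536870912 3) ndN0q0 ndN2q3 pcN3 Cut.none Ext.none)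

def k0_pp_033 : ∃ t, chk3 f_pp_033 t 1 1 1 = true :=
  ⟨(l 4), by decide +kernel⟩

theorem c_pp_033 : CertN 0 536870912 1610612736 536870912 33554432 16777216 3 true true true .pnn 0 3 3
    ndN0q0 ndN2q3 pcN3 Cut.none Ext.none :=
  certNK0 (fam := true) (s1 := true) (s2 := true) (a := 0) (b := 3) (c := 3) (cn := .pnn) (n1 := ndN0q0) (n2 := ndN2q3) (pc := pcN3) (cut := Cut.none) (xt := Ext.none) (P1 := 0) (W1 := 536870912) (P2 := 1610612736) (W2 := 536870912) (P3 := 33554432) (W3 := 16777216) (N0 := 3)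
    rfl rfl rfl k0_pp_033

noncomputable def f_pp_101 : ℕ → ℕ → ℕ → ℕ → Bool := onCell 536870912 536870912 0 536870912 33554432 16777216
    (rowNK 3 0 true true true .npn 1 0 1 (qsf 536870912 536870912 0 536870912 1) ndN0q1 ndN2q0 pcN1 Cut.none Ext.none)

def k0_pp_101 : ∃ t, chk3 f_pp_101 t 1 1 1 = true :=
  ⟨(l 5), by decide +kernel⟩

theorem c_pp_101 : CertN 536870912 536870912 0 536870912 33554432 16777216 3 true true true .npn 1 0 1
    ndN0q1 ndN2q0 pcN1 Cut.none Ext.none :=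
  certNK0 (fam := true) (s1 := true) (s2 := true) (a := 1) (b := 0) (c := 1) (cn := .npn) (n1 := ndN0q1) (n2 := ndN2q0) (pc := pcN1) (cut := Cut.none) (xt := Ext.none) (P1 := 536870912) (W1 := 536870912) (P2 := 0) (W2 := 536870912) (P3 := 33554432) (W3 := 16777216) (N0 := 3)
    rfl rfl rfl k0_pp_101

noncomputable def f_pp_102 : ℕ → ℕ → ℕ → ℕ → Bool := onCell 536870912 536870912 0 536870912 33554432 16777216
    (rowNK 3 0 true true true .npp 1 0 2 (qsf 536870912 536870912 0 536870912 2) ndN0q1 ndN2q0 pcN2 Cut.none Ext.none)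

def k0_pp_102 : ∃ t, chk3 f_pp_102 t 1 1 1 = true :=
  ⟨(l 5), by decide +kernel⟩

theorem c_pp_102 : CertN 536870912 536870912 0 536870912 33554432 16777216 3 true true true .npp 1 0 2
    ndN0q1 ndN2q0 pcN2 Cut.none Ext.none :=
  certNK0 (fam := true) (s1 := true) (s2 := true) (a := 1) (b := 0) (c := 2) (cn := .npp) (n1 := ndN0q1) (n2 := ndN2q0) (pc := pcN2) (cut := Cut.none) (xt := Ext.none) (P1 := 536870912) (W1 := 536870912) (P2 := 0) (W2 := 536870912) (P3 := 33554432) (W3 := 16777216) (N0 := 3)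
    rfl rfl rfl k0_pp_102

noncomputable def f_pp_112 : ℕ → ℕ → ℕ → ℕ → Bool := onCell 536870912 536870912 536870912 536870912 33554432 16777216
    (rowNK 3 0 true true true .dn 1 1 2 (qsf 536870912 536870912 536870912 536870912 2) ndN0q1 ndN2q1 pcN2 Cut.none Ext.none)

def k0_pp_112 : ∃ t, chk3 f_pp_112 t 1 1 1 = true :=
  ⟨(l 4), by decide +kernel⟩

theorem c_pp_112 : CertN 536870912 536870912 536870912 536870912 33554432 16777216 3 true true true .dn 1 1 2
    ndN0q1 ndN2q1 pcN2 Cut.none Ext.none :=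
  certNK0 (fam := true) (s1 := true) (s2 := true) (a := 1) (b := 1) (c := 2) (cn := .dn) (n1 := ndN0q1) (n2 := ndN2q1) (pc := pcN2) (cut := Cut.none) (xt := Ext.none) (P1 := 536870912) (W1 := 536870912) (P2 := 536870912) (W2 := 536870912) (P3 := 33554432) (W3 := 16777216) (N0 := 3)
    rfl rfl rfl k0_pp_112

noncomputable def f_pp_113 : ℕ → ℕ → ℕ → ℕ → Bool := onCell 536870912 536870912 536870912 536870912 33554432 16777216
    (rowNK 3 0 true true true .nn 1 1 3 (qsf 536870912 536870912 536870912 536870912 3) ndN0q1 ndN2q1 pcN3 Cut.none Ext.none)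

def k0_pp_113 : ∃ t, chk3 f_pp_113 t 1 1 1 = true :=
  ⟨(l 4), by decide +kernel⟩

theorem c_pp_113 : CertN 536870912 536870912 536870912 536870912 33554432 16777216 3 true true true .nn 1 1 3
    ndN0q1 ndN2q1 pcN3 Cut.none Ext.none :=
  certNK0 (fam := true) (s1 := true) (s2 := true) (a := 1) (b := 1) (c := 3) (cn := .nn) (n1 := ndN0q1) (n2 := ndN2q1) (pc := pcN3) (cut := Cut.none) (xt := Ext.none) (P1 := 536870912) (W1 := 536870912) (P2 := 536870912) (W2 := 536870912) (P3 := 33554432) (W3 := 16777216) (N0 := 3)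
    rfl rfl rfl k0_pp_113

noncomputable def f_pp_123_a : ℕ → ℕ → ℕ → ℕ → Bool := onCell 536870912 536870912 0 536870912 33554432 16777216
    (rowNK 3 0 true true true .npn 1 2 3 (qsf 536870912 536870912 0 536870912 3) ndN0q1 ndN2q2a pcN3 Cut.none Ext.none)

def k0_pp_123_a : ∃ t, chk3 f_pp_123_a t 1 1 1 = true :=
  ⟨(l 4), by decide +kernel⟩

theorem c_pp_123_a : CertN 536870912 536870912 0 536870912 33554432 16777216 3 true true true .npn 1 2 3
    ndN0q1 ndN2q2a pcN3 Cut.none Ext.none :=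
  certNK0 (fam := true) (s1 := true) (s2 := true) (a := 1) (b := 2) (c := 3) (cn := .npn) (n1 := ndN0q1) (n2 := ndN2q2a) (pc := pcN3) (cut := Cut.none) (xt := Ext.none) (P1 := 536870912) (W1 := 536870912) (P2 := 0) (W2 := 536870912) (P3 := 33554432) (W3 := 16777216) (N0 := 3)
    rfl rfl rfl k0_pp_123_a

noncomputable def f_pp_123_b : ℕ → ℕ → ℕ → ℕ → Bool := onCell 536870912 536870912 1239849684 370763052 33554432 16777216
    (rowNK 3 0 true true true .npn 1 2 3 (qsf 536870912 536870912 1239849684 370763052 3) ndN0q1 ndN2q2b pcN3 Cut.none Ext.none)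

def k0_pp_123_b : ∃ t, chk3 f_pp_123_b t 1 1 1 = true :=
  ⟨(l 4), by decide +kernel⟩

theorem c_pp_123_b : CertN 536870912 536870912 1239849684 370763052 33554432 16777216 3 true true true .npn 1 2 3
    ndN0q1 ndN2q2b pcN3 Cut.none Ext.none :=
  certNK0 (fam := true) (s1 := true) (s2 := true) (a := 1) (b := 2) (c := 3) (cn := .npn) (n1 := ndN0q1) (n2 := ndN2q2b) (pc := pcN3) (cut := Cut.none) (xt := Ext.none) (P1 := 536870912) (W1 := 536870912) (P2 := 1239849684) (W2 := 370763052) (P3 := 33554432) (W3 := 16777216) (N0 := 3)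
    rfl rfl rfl k0_pp_123_b

noncomputable def f_pp_133 : ℕ → ℕ → ℕ → ℕ → Bool := onCell 536870912 536870912 1610612736 536870912 33554432 16777216
    (rowNK 3 0 true true true .dn 1 3 3 (qsf 536870912 536870912 1610612736 536870912 3) ndN0q1 ndN2q3 pcN3 Cut.none Ext.none)

def k0_pp_133 : ∃ t, chk3 f_pp_133 t 1 1 1 = true :=
  ⟨(l 4), by decide +kernel⟩

theorem c_pp_133 : CertN 536870912 536870912 1610612736 536870912 33554432 16777216 3 true true true .dn 1 3 3
    ndN0q1 ndN2q3 pcN3 Cut.none Ext.none :=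
  certNK0 (fam := true) (s1 := true) (s2 := true) (a := 1) (b := 3) (c := 3) (cn := .dn) (n1 := ndN0q1) (n2 := ndN2q3) (pc := pcN3) (cut := Cut.none) (xt := Ext.none) (P1 := 536870912) (W1 := 536870912) (P2 := 1610612736) (W2 := 536870912) (P3 := 33554432) (W3 := 16777216) (N0 := 3)
    rfl rfl rfl k0_pp_133

noncomputable def f_pp_202 : ℕ → ℕ → ℕ → ℕ → Bool := onCell 0 536870912 0 536870912 33554432 16777216
    (rowNK 3 0 true true true .pp 2 0 2 (qsf 0 536870912 0 536870912 2) ndN0q2 ndN2q0 pcN2 Cut.none Ext.none)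

def k0_pp_202 : ∃ t, chk3 f_pp_202 t 1 1 1 = true :=
  ⟨(l 5), by decide +kernel⟩

theorem c_pp_202 : CertN 0 536870912 0 536870912 33554432 16777216 3 true true true .pp 2 0 2
    ndN0q2 ndN2q0 pcN2 Cut.none Ext.none :=
  certNK0 (fam := true) (s1 := true) (s2 := true) (a := 2) (b := 0) (c := 2) (cn := .pp) (n1 := ndN0q2) (n2 := ndN2q0) (pc := pcN2) (cut := Cut.none) (xt := Ext.none) (P1 := 0) (W1 := 536870912) (P2 := 0) (W2 := 536870912) (P3 := 33554432) (W3 := 16777216) (N0 := 3)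
    rfl rfl rfl k0_pp_202

noncomputable def f_pp_203 : ℕ → ℕ → ℕ → ℕ → Bool := onCell 0 536870912 0 536870912 33554432 16777216
    (rowNK 3 0 true true true .up 2 0 3 (qsf 0 536870912 0 536870912 3) ndN0q2 ndN2q0 pcN3 Cut.none Ext.none)

def k0_pp_203 : ∃ t, chk3 f_pp_203 t 1 1 1 = true :=
  ⟨(l 5), by decide +kernel⟩

theorem c_pp_203 : CertN 0 536870912 0 536870912 33554432 16777216 3 true true true .up 2 0 3
    ndN0q2 ndN2q0 pcN3 Cut.none Ext.none :=
  certNK0 (fam := true) (s1 := true) (s2 := true) (a := 2) (b := 0) (c := 3) (cn := .up) (n1 := ndN0q2) (n2 := ndN2q0) (pc := pcN3) (cut := Cut.none) (xt := Ext.none) (P1 := 0) (W1 := 536870912) (P2 := 0) (W2 := 536870912) (P3 := 33554432) (W3 := 16777216) (N0 := 3)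
    rfl rfl rfl k0_pp_203

noncomputable def f_pp_213 : ℕ → ℕ → ℕ → ℕ → Bool := onCell 0 536870912 536870912 536870912 33554432 16777216
    (rowNK 3 0 true true true .pnn 2 1 3 (qsf 0 536870912 536870912 536870912 3) ndN0q2 ndN2q1 pcN3 Cut.none Ext.none)

def k0_pp_213 : ∃ t, chk3 f_pp_213 t 1 1 1 = true :=
  ⟨(l 4), by decide +kernel⟩

theorem c_pp_213 : CertN 0 536870912 536870912 536870912 33554432 16777216 3 true true true .pnn 2 1 3
    ndN0q2 ndN2q1 pcN3 Cut.none Ext.none :=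
  certNK0 (fam := true) (s1 := true) (s2 := true) (a := 2) (b := 1) (c := 3) (cn := .pnn) (n1 := ndN0q2) (n2 := ndN2q1) (pc := pcN3) (cut := Cut.none) (xt := Ext.none) (P1 := 0) (W1 := 536870912) (P2 := 536870912) (W2 := 536870912) (P3 := 33554432) (W3 := 16777216) (N0 := 3)
    rfl rfl rfl k0_pp_213

noncomputable def f_pm_001 : ℕ → ℕ → ℕ → ℕ → Bool := onCell 0 536870912 536870912 536870912 33554432 16777216
    (rowNK 3 1 true true false .up 0 0 1 (qsf 0 536870912 0 536870912 1) ndN0q0 ndN2q0 pcN1 Cut.none Ext.none)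

def k0_pm_001 : ∃ t, chk3 f_pm_001 t 1 1 1 = true :=
  ⟨(b (l 3) (b (l 3) (a (l 2) (b (l 3) (a (l 2) (l 168749198647)))))), by decide +kernel⟩

theorem c_pm_001 : CertN 0 536870912 0 536870912 33554432 16777216 3 true true false .up 0 0 1
    ndN0q0 ndN2q0 pcN1 Cut.none Ext.none :=
  certNK1 (fam := true) (s1 := true) (s2 := false) (a := 0) (b := 0) (c := 1) (cn := .up) (n1 := ndN0q0) (n2 := ndN2q0) (pc := pcN1) (cut := Cut.none) (xt := Ext.none) (P1 := 0) (W1 := 536870912) (P2 := 0) (W2 := 536870912) (P3 := 33554432) (W3 := 16777216) (N0 := 3)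
    rfl rfl rfl (fun _ => rfl) k0_pm_001

noncomputable def cut_pm_011 : Cut := Cut.of [[⟨0, 0, 0, 33554432⟩, ⟨1, 1, 0, 33554432⟩, ⟨2, 1, 0, 33554432⟩], [⟨0, 0, 1, 25165824⟩, ⟨1, 1, 2, 25165824⟩, ⟨2, 1, 0, 16777216⟩, ⟨0, 0, 0, 67108864⟩, ⟨0, 1, 0, 1056964608⟩, ⟨1, 0, 0, 1056964608⟩, ⟨1, 1, 0, 67108864⟩]]

noncomputable def f_pm_011 : ℕ → ℕ → ℕ → ℕ → Bool := onCell 0 536870912 536870912 536870912 33554432 16777216
    (rowNK 3 1 true true false .pnn 0 1 1 (qsf 0 536870912 536870912 536870912 1) ndN0q0 ndN2q1 pcN1 cut_pm_011 Ext.none)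

def k0_pm_011 : ∃ t, chk3 f_pm_011 t 1 1 1 = true :=
  ⟨(b (l 3) (b (l 3) (b (l 3) (b (l 3) (a (b (l 3) (a (b (l 3) (b (l 3) (b (l 3) (a (b (l 3) (a (a (l 6) (a (l 6) (a (l 6) (l 14)))) (a (l 14) (c (a (l 17318072) (l 17556360)) (a (l 14) (l 17190640)))))) (a (a (l 17558632) (l 17809928)) (l 18000968)))))) (a (l 87680169863) (l 18367712)))) (a (l 159622527767) (l 18599864))))))), by decide +kernel⟩

theorem c_pm_011 : CertN 0 536870912 536870912 536870912 33554432 16777216 3 true true false .pnn 0 1 1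
    ndN0q0 ndN2q1 pcN1 cut_pm_011 Ext.none :=
  certNK1 (fam := true) (s1 := true) (s2 := false) (a := 0) (b := 1) (c := 1) (cn := .pnn) (n1 := ndN0q0) (n2 := ndN2q1) (pc := pcN1) (cut := cut_pm_011) (xt := Ext.none) (P1 := 0) (W1 := 536870912) (P2 := 536870912) (W2 := 536870912) (P3 := 33554432) (W3 := 16777216) (N0 := 3)
    rfl rfl rfl (fun _ => rfl) k0_pm_011

noncomputable def cut_pm_012 : Cut := Cut.of [[⟨0, 0, 0, 33554432⟩, ⟨1, 1, 0, 33554432⟩, ⟨2, 1, 0, 33554432⟩], [⟨0, 0, 1, 25165824⟩, ⟨1, 1, 2, 25165824⟩, ⟨2, 1, 0, 16777216⟩, ⟨0, 0, 0, 67108864⟩, ⟨0, 1, 0, 1056964608⟩, ⟨1, 0, 0, 1056964608⟩, ⟨1, 1, 0, 67108864⟩]]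

noncomputable def f_pm_012 : ℕ → ℕ → ℕ → ℕ → Bool := onCell 1073741824 536870912 536870912 536870912 33554432 16777216
    (rowNK 3 2 true true false .pnp 0 1 2 (qsf 0 536870912 536870912 536870912 2) ndN0q0 ndN2q1 pcN2 cut_pm_012 Ext.none)

def k0_pm_012 : ∃ t, chk3 f_pm_012 t 2 2 1 = true :=
  ⟨(a (a (a (a (a (b (l 18793104) (l 18833552)) (b (l 18835816) (l 18888904))) (b (l 18875488) (l 18965592))) (b (l 18958768) (l 19052688))) (b (l 19019320) (l 19284248))) (b (a (l 19145968) (l 2)) (a (l 19354624) (l 19402024)))), by decide +kernel⟩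

def k1_pm_012 : ∃ t, chk3 f_pm_012 t 4 6 1 = true :=
  ⟨(a (a (a (a (b (l 18576568) (l 18351104)) (b (l 18682520) (l 18495776))) (b (l 18824896) (l 18697240))) (b (l 19062232) (l 19018320))) (b (l 19372576) (l 19457360))), by decide +kernel⟩

def k2_pm_012 : ∃ t, chk3 f_pm_012 t 8 14 1 = true :=
  ⟨(a (a (a (b (l 18136744) (b (l 17965432) (a (a (l 17597560) (l 17754488)) (l 17862032)))) (b (l 18333832) (b (l 18204848) (l 18069080)))) (b (l 18598512) (b (l 18524312) (l 18441720)))) (b (l 19022096) (l 19029224))), by decide +kernel⟩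

def k3_pm_012 : ∃ t, chk3 f_pm_012 t 16 30 1 = true :=
  ⟨(a (a (b (a (b (c (l 17653520) (a (b (l 17381352) (l 14)) (l 17413288))) (c (a (b (l 17482632) (l 14)) (l 17527376)) (l 14))) (b (l 17508872) (c (l 17668016) (b (l 17257952) (l 14))))) (a (l 14) (b (c (b (l 17363888) (l 14)) (l 14)) (l 14)))) (b (b (l 17704472) (a (a (b (l 17678272) (l 17496968)) (l 17636512)) (l 17745800))) (b (c (a (b (l 17713504) (l 17533088)) (l 17861752)) (a (l 14) (a (l 14) (l 17320056)))) (a (l 14) (a (l 14) (c (b (l 17739944) (l 17589088)) (b (l 17081184) (l 16810496)))))))) (b (a (b (l 18209000) (l 18076928)) (l 18439280)) (a (b (c (l 18147936) (a (l 17465480) (l 17819544))) (c (a (b (l 17904680) (l 17772080)) (l 18060240)) (a (b (l 17207608) (a (l 16979264) (l 17187112))) (b (l 17632680) (l 17282968))))) (c (l 18221184) (b (l 18080584) (a (l 17686928) (l 17971144))))))), by decide +kernel⟩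

def k4_pm_012 : ∃ t, chk3 f_pm_012 t 32 31 1 = true :=
  ⟨(b (b (b (a (l 14) (a (l 14) (a (l 14) (a (l 14) (c (l 17305920) (l 16815184)))))) (a (b (l 14) (b (l 14) (a (l 6) (a (l 6) (l 16742480))))) (a (b (l 14) (a (a (l 16752784) (l 16748576)) (a (l 16744360) (l 16740136)))) (a (a (l 16745960) (a (l 16732280) (c (l 14) (l 16730112)))) (a (l 16750488) (l 16750944)))))) (a (a (l 6) (a (l 6) (a (l 6) (b (c (l 14) (l 16739848)) (l 6))))) (a (b (c (l 14) (a (a (l 16735600) (l 16731416)) (a (l 16727216) (b (l 16740936) (l 16741800))))) (a (l 6) (a (l 6) (b (l 16744240) (l 6))))) (b (a (c (l 14) (a (b (l 16736720) (l 16739120)) (l 16735656))) (b (l 16731344) (l 16734456))) (a (b (l 16723672) (l 16726808)) (b (a (l 16738520) (l 16736632)) (l 16722976))))))) (a (l 6) (b (a (l 6) (b (a (l 6) (b (l 16726912) (l 6))) (l 6))) (l 6)))), by decide +kernel⟩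

def k5_pm_012 : ∃ t, chk3 f_pm_012 t 33 62 1 = true :=
  ⟨(a (b (c (a (b (a (l 17409808) (l 17669992)) (c (a (l 17459496) (l 17632640)) (a (b (l 17201848) (l 17038064)) (l 17164960)))) (b (l 17862168) (c (l 17848624) (l 17306240)))) (a (b (a (l 16798160) (l 16877128)) (b (l 16735360) (a (l 16724712) (l 16700568)))) (a (b (l 17035848) (l 16812192)) (b (l 17232008) (l 16904056))))) (b (b (a (a (l 16727880) (l 16800560)) (c (c (l 17695304) (l 17181928)) (l 16757048))) (a (a (l 16730960) (l 16706768)) (a (l 16806712) (c (l 17336856) (l 16700400))))) (a (a (b (l 16734032) (l 16737096)) (b (l 16709800) (l 16712824))) (b (a (l 16706624) (l 16813584)) (a (l 16709616) (l 16706488)))))) (b (c (a (l 17843176) (l 18263688)) (a (b (l 17381072) (a (l 17073616) (l 17299864))) (b (l 17765840) (l 17460000)))) (b (c (a (c (l 17943880) (l 17414640)) (l 18047304)) (a (b (l 16925792) (l 16833304)) (a (l 17092576) (l 17327792)))) (b (c (a (a (l 17389896) (l 17664872)) (l 17901752))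 (a (l 16781504) (l 16956824))) (a (a (l 16821168) (c (l 17401576) (l 16700232))) (c (l 17681280) (l 16853064))))))), by decide +kernel⟩

def k6_pm_012 : ∃ t, chk3 f_pm_012 t 33 63 1 = true :=
  ⟨(b (a (b (a (b (a (l 16740336) (l 16736992)) (a (l 16725408) (l 16740376))) (b (a (l 16712776) (l 16709608)) (a (l 16716120) (l 16712912)))) (a (b (a (l 6) (l 16725440)) (l 6)) (b (a (l 16719488) (l 16716248)) (a (l 16725504) (l 16719600))))) (b (a (b (l 16730512) (a (l 16709792) (l 16706752))) (c (c (b (l 17868216) (l 17728888)) (b (l 17331600) (a (l 17138112) (l 17366744)))) (b (l 16787824) (l 16702024)))) (a (b (l 16716768) (l 16720064)) (b (l 16730056) (l 16708736))))) (a (b (a (l 6) (b (a (l 6) (l 16722624)) (l 6))) (l 6)) (a (a (b (b (l 16719384) (l 16721776)) (l 6)) (b (b (l 16716224) (l 16718576)) (b (l 16720936) (l 6)))) (b (b (l 16714248) (l 16716544)) (b (l 16721456) (b (l 16717952) (l 16721744))))))), by decide +kernel⟩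

def k7_pm_012 : ∃ t, chk3 f_pm_012 t 17 15 1 = true :=
  ⟨(b (a (b (l 18802176) (a (b (l 18588672) (l 18475360)) (l 18822272))) (l 19189576)) (b (a (a (b (c (l 18573240) (a (l 17851264) (l 18127888))) (c (b (l 18419760) (l 18151832)) (a (b (l 17519760) (a (l 17113704) (l 17357720))) (b (l 17905264) (l 17581312))))) (c (l 18867248) (b (l 18415320) (b (l 18248824) (l 18101616))))) (b (l 19116816) (l 18948336))) (b (a (a (c (b (a (c (l 18140104) (l 17574960)) (l 18239304)) (a (c (b (l 17958272) (l 17810728)) (b (l 17368472) (a (l 17135448) (l 17419944)))) (c (l 18241448) (l 17627240)))) (b (a (b (l 16969304) (l 16854656)) (c (l 17608272) (b (l 17332320) (l 17155448)))) (b (a (l 16797288) (a (l 17032432) (l 17226792))) (l 16707480)))) (c (b (l 18632744) (l 18419096)) (b (a (l 17623896) (l 18051144)) (a (c (l 17650608) (b (l 17375752) (l 17169672))) (l 17647648))))) (c (l 19205192) (a (b (l 18414768) (l 18258896)) (l 18767688)))) (b (a (b (a (a (l 16722248)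 (c (c (l 18050424) (l 17407752)) (l 16788632))) (c (l 18189152) (a (c (l 17441552) (l 16960960)) (l 17467136)))) (a (a (l 16707976) (c (c (l 17894080) (a (l 17134816) (l 17474880))) (l 16701896))) (c (c (l 18453768) (l 17751336)) (a (c (l 17111400) (l 16807992)) (c (l 17703320) (l 17164392)))))) (c (l 19082568) (a (a (l 17693680) (l 18203624)) (l 18586152)))) (a (b (a (a (l 16710200) (l 16716344)) (c (c (l 18332904) (a (l 17448168) (l 18021936))) (a (l 16760616) (c (l 17473488) (l 16945416))))) (a (a (b (l 16711880) (l 16713000)) (l 16706632)) (c (a (c (l 17978984) (a (l 17052288) (l 17489632))) (l 17914112)) (b (l 16747176) (l 16703496))))) (c (a (l 18606680) (l 19195392)) (a (a (c (l 17613440) (b (l 17467592) (l 17076744))) (c (l 18186328) (l 17629944))) (l 18378096)))))))), by decide +kernel⟩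

def k8_pm_012 : ∃ t, chk3 f_pm_012 t 9 7 1 = true :=
  ⟨(b (a (l 19474200) (l 19765424)) (b (a (l 19658112) (l 20054136)) (b (a (l 19747064) (l 20255000)) (b (a (l 19753736) (l 20357768)) (a (a (l 19441792) (l 19952936)) (l 20421192)))))), by decide +kernel⟩

def k9_pm_012 : ∃ t, chk3 f_pm_012 t 5 3 1 = true :=
  ⟨(b (a (l 19645120) (l 19743368)) (b (a (l 20005160) (l 20105696)) (b (l 20421488) (b (l 20675264) (b (l 20818920) (l 20914904)))))), by decide +kernel⟩

def k10_pm_012 : ∃ t, chk3 f_pm_012 t 3 1 1 = true :=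
  ⟨(b (a (b (l 2) (a (l 19423496) (l 2))) (l 2)) (a (b (a (l 19763752) (l 19750872)) (b (l 20113592) (b (l 20370184) (b (l 20523528) (b (l 20624216) (l 20695624)))))) (b (b (l 2) (l 19726280)) (b (l 19995304) (b (l 20180104) (b (l 20352768) (b (l 20433800) (l 20502008)))))))), by decide +kernel⟩

theorem s11_pm_012 : ∃ t, chk3 f_pm_012 t 33 31 1 = true := ex3_b k5_pm_012 k6_pm_012

theorem s12_pm_012 : ∃ t, chk3 f_pm_012 t 16 31 1 = true := ex3_a k4_pm_012 s11_pm_012

theorem s13_pm_012 : ∃ t, chk3 f_pm_012 t 16 15 1 = true := ex3_b k3_pm_012 s12_pm_012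

theorem s14_pm_012 : ∃ t, chk3 f_pm_012 t 8 15 1 = true := ex3_a s13_pm_012 k7_pm_012

theorem s15_pm_012 : ∃ t, chk3 f_pm_012 t 8 7 1 = true := ex3_b k2_pm_012 s14_pm_012

theorem s16_pm_012 : ∃ t, chk3 f_pm_012 t 4 7 1 = true := ex3_a s15_pm_012 k8_pm_012

theorem s17_pm_012 : ∃ t, chk3 f_pm_012 t 4 3 1 = true := ex3_b k1_pm_012 s16_pm_012

theorem s18_pm_012 : ∃ t, chk3 f_pm_012 t 2 3 1 = true := ex3_a s17_pm_012 k9_pm_012

theorem s19_pm_012 : ∃ t, chk3 f_pm_012 t 2 1 1 = true := ex3_b k0_pm_012 s18_pm_012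

theorem s20_pm_012 : ∃ t, chk3 f_pm_012 t 1 1 1 = true := ex3_a s19_pm_012 k10_pm_012

theorem c_pm_012 : CertN 0 536870912 536870912 536870912 33554432 16777216 3 true true false .pnp 0 1 2
    ndN0q0 ndN2q1 pcN2 cut_pm_012 Ext.none :=
  certNK2 (fam := true) (s1 := true) (s2 := false) (a := 0) (b := 1) (c := 2) (cn := .pnp) (n1 := ndN0q0) (n2 := ndN2q1) (pc := pcN2) (cut := cut_pm_012) (xt := Ext.none) (P1 := 0) (W1 := 536870912) (P2 := 536870912) (W2 := 536870912) (P3 := 33554432) (W3 := 16777216) (N0 := 3)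
    rfl rfl rfl (fun _ => rfl) s20_pm_012

end Pool.Agent.Strip051.G.I1_32_3_64.Tab.C.NA02

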