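import Pool.Agent.Strip051.G.I1_32_3_64.Tab
import Pool.Agent.Strip051.PB.RowK

/-! # Certificates N5 (generated) -/

set_option linter.all false
set_option maxRecDepth 100000

namespace Pool.Agent.Strip051.G.I1_32_3_64.Tab.C.NA02

open Pool.Agent.Strip051.PB Pool.Agent.Strip051.PB.T
open Pool.Agent.Strip051.G.I1_32_3_64.Tab

noncomputable def cut_pm_022_a : Cut := Cut.of [[⟨0, 0, 0, 33554432⟩, ⟨1, 1, 0, 33554432⟩, ⟨2, 1, 0, 33554432⟩], [⟨0, 0, 1, 25165824⟩, ⟨1, 1, 0, 16777216⟩, ⟨2, 1, 1, 25165824⟩, ⟨0, 0, 0, 67108864⟩, ⟨0, 1, 0, 1056964608⟩, ⟨2, 1, 0, 67108864⟩, ⟨2, 2, 0, 1056964608⟩]]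

noncomputable def f_pm_022_a : ℕ → ℕ → ℕ → ℕ → Bool := onCell 0 536870912 0 536870912 33554432 16777216
    (rowNK 3 0 true true false .pp 0 2 2 (qsf 0 536870912 0 536870912 2) ndN0q0 ndN2q2a pcN2 cut_pm_022_a Ext.none)

def k0_pm_022_a : ∃ t, chk3 f_pm_022_a t 2 2 1 = true :=
  ⟨(a (a (l 19353464) (l 19062808)) (l 18595584)), by decide +kernel⟩

def k1_pm_022_a : ∃ t, chk3 f_pm_022_a t 2 6 1 = true :=
  ⟨(a (a (a (b (l 19202232) (a (l 18895816) (l 18934472))) (l 19023856)) (l 18878360)) (l 18493592)), by decide +kernel⟩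

def k2_pm_022_a : ∃ t, chk3 f_pm_022_a t 4 14 1 = true :=
  ⟨(a (a (b (a (b (l 18524512) (c (l 18520992) (a (l 17728288) (l 18157960)))) (l 18590392)) (a (b (a (a (c (l 18070192) (b (l 17529512) (c (l 17497120) (l 16954392)))) (c (l 18193960) (l 17403608))) (c (l 18331160) (l 17696840))) (a (c (b (a (c (l 17886912) (l 17442488)) (l 17897264)) (a (a (c (l 17515136) (l 16918040)) (b (l 17555992) (l 17269176))) (c (l 17811232) (l 17399024)))) (a (a (l 16716192) (b (l 16960688) (l 16753192))) (b (c (l 17444760) (l 17016800)) (l 16779968)))) (c (b (l 18094488) (l 17816424)) (b (a (l 17474536) (l 17656696)) (a (c (l 17388592) (l 17012384)) (l 17399976)))))) (a (b (l 18257600) (b (l 18056576) (l 17686648))) (l 18152872)))) (b (l 18683232) (a (l 18383184) (l 18473352)))) (l 18597560)), by decide +kernel⟩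

def k3_pm_022_a : ∃ t, chk3 f_pm_022_a t 4 30 1 = true :=
  ⟨(a (a (a (b (a (a (a (b (l 16720664) (l 16728464)) (a (l 16726568) (l 16725296))) (a (a (l 16724008) (l 16724856)) (b (c (c (l 17578824) (l 17145872)) (l 16712888)) (l 16718016)))) (a (b (c (c (l 17731632) (l 17309744)) (l 16770552)) (a (l 16771440) (b (c (l 17407368) (l 16749560)) (l 16836752)))) (c (b (l 17752152) (c (l 17648544) (l 17175240))) (b (l 16978208) (l 16779152))))) (a (b (a (a (b (l 16730064) (l 6)) (l 16732816)) (a (l 16728808) (l 16726056))) (a (l 6) (b (a (l 6) (l 16748832)) (l 6)))) (b (a (a (l 16741608) (l 16738768)) (b (c (c (l 17431512) (l 17021352)) (l 16732976)) (l 16753888))) (a (b (l 16727480) (a (l 16749056) (l 16746096))) (a (a (l 16742336) (l 16740840)) (b (l 16737112) (l 16740064))))))) (b (a (c (b (l 17950768) (l 17539648)) (b (a (l 17322600) (l 17544496)) (a (l 16921048) (l 17242808)))) (c (l 18055344) (b (l 17730048) (l 17468768)))) (b (a (c (a (c (l 17562480) (l 17038192))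 (l 17553072)) (a (l 16743920) (l 16861944))) (c (l 17796312) (a (l 17119072) (l 17423152)))) (a (b (a (l 16790776) (c (l 17340568) (l 16851184))) (a (b (l 16736904) (a (l 16737816) (l 16720512))) (c (c (l 17403992) (l 17054800)) (l 16733136)))) (a (c (l 17386944) (l 16801648)) (c (l 17655024) (l 16993888))))))) (a (b (l 17826128) (a (c (l 17902736) (b (l 17608496) (a (l 17338912) (l 17488776)))) (l 17755416))) (b (l 18246224) (l 18050088)))) (a (l 18295592) (l 18355024))), by decide +kernel⟩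

def k4_pm_022_a : ∃ t, chk3 f_pm_022_a t 4 31 1 = true :=
  ⟨(a (b (b (a (a (a (l 6) (a (a (l 6) (b (l 16749296) (l 6))) (b (b (a (l 16745448) (l 16742376)) (a (l 16747064) (l 16745392))) (b (a (l 6) (l 16748816)) (l 16734304))))) (a (b (a (c (l 16761592) (l 16742136)) (l 16765432)) (a (b (l 16747360) (l 16750784)) (l 16747152))) (c (a (c (l 17131904) (b (l 17188456) (l 16936744))) (b (l 17488752) (l 17304016))) (b (a (l 16793408) (l 16954784)) (a (l 16745176) (l 16840360)))))) (a (a (c (l 17485456) (a (c (l 17164520) (l 16823016)) (l 17169664))) (c (l 17824176) (l 17375104))) (l 17873592))) (a (a (l 6) (a (b (a (c (l 16738960) (l 16738496)) (a (l 16754208) (l 16753288))) (a (a (l 6) (l 16751040)) (l 16743144))) (a (a (b (l 16752376) (l 16758864)) (l 14)) (l 14)))) (a (a (l 14) (c (l 17652864) (l 14))) (a (l 17538448) (l 17802208))))) (a (a (l 6) (a (a (l 6) (b (b (a (l 16748712) (l 16755728)) (l 6)) (l 6))) (a (a (b (b (l 16754880) (l 16755216)) (l 6)) (l 14)) (l 14))))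 (a (b (a (l 14) (c (c (l 17530680) (l 14)) (l 14))) (l 14)) (b (c (l 17606448) (a (a (l 14) (l 17397264)) (l 17529768))) (a (c (b (l 17525904) (l 17223848)) (l 14)) (c (l 17647560) (b (l 17416736) (a (l 14) (l 17382568))))))))) (b (a (l 18061152) (l 18193888)) (a (a (b (l 17834560) (a (l 17633448) (l 17763000))) (l 17931760)) (l 18060888)))), by decide +kernel⟩

def k5_pm_022_a : ∃ t, chk3 f_pm_022_a t 5 7 1 = true :=
  ⟨(b (l 18521392) (b (l 18469832) (b (a (l 18214008) (l 18076568)) (a (l 18128520) (l 18024448))))), by decide +kernel⟩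

def k6_pm_022_a : ∃ t, chk3 f_pm_022_a t 3 1 1 = true :=
  ⟨(b (a (l 17969448) (l 17752552)) (b (a (l 17926568) (l 17737328)) (b (a (l 17865840) (l 17711144)) (b (a (l 17819416) (l 17693016)) (b (a (l 17784664) (l 17676920)) (a (l 17755928) (l 17662368))))))), by decide +kernel⟩

theorem s7_pm_022_a : ∃ t, chk3 f_pm_022_a t 4 15 1 = true := ex3_b k3_pm_022_a k4_pm_022_a

theorem s8_pm_022_a : ∃ t, chk3 f_pm_022_a t 4 7 1 = true := ex3_b k2_pm_022_a s7_pm_022_a

theorem s9_pm_022_a : ∃ t, chk3 f_pm_022_a t 2 7 1 = true := ex3_a s8_pm_022_a k5_pm_022_a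

theorem s10_pm_022_a : ∃ t, chk3 f_pm_022_a t 2 3 1 = true := ex3_b k1_pm_022_a s9_pm_022_a

theorem s11_pm_022_a : ∃ t, chk3 f_pm_022_a t 2 1 1 = true := ex3_b k0_pm_022_a s10_pm_022_a

theorem s12_pm_022_a : ∃ t, chk3 f_pm_022_a t 1 1 1 = true := ex3_a s11_pm_022_a k6_pm_022_a

theorem c_pm_022_a : CertN 0 536870912 0 536870912 33554432 16777216 3 true true false .pp 0 2 2
    ndN0q0 ndN2q2a pcN2 cut_pm_022_a Ext.none :=
  certNK0 (fam := true) (s1 := true) (s2 := false) (a := 0) (b := 2) (c := 2) (cn := .pp) (n1 := ndN0q0) (n2 := ndN2q2a) (pc := pcN2) (cut := cut_pm_022_a) (xt := Ext.none) (P1 := 0) (W1 := 536870912) (P2 := 0) (W2 := 536870912) (P3 := 33554432) (W3 := 16777216) (N0 := 3)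
    rfl rfl rfl s12_pm_022_a

noncomputable def cut_pm_022_b : Cut := Cut.of [[⟨0, 0, 0, 33554432⟩, ⟨1, 1, 0, 33554432⟩, ⟨2, 1, 0, 33554432⟩], [⟨0, 0, 1, 25165824⟩, ⟨1, 1, 0, 16777216⟩, ⟨2, 1, 1, 25165824⟩, ⟨0, 0, 0, 67108864⟩, ⟨0, 1, 0, 1056964608⟩, ⟨2, 1, 0, 67108864⟩, ⟨2, 2, 0, 1056964608⟩]]

noncomputable def f_pm_022_b : ℕ → ℕ → ℕ → ℕ → Bool := onCell 0 536870912 1239849684 370763052 33554432 16777216
    (rowNK 3 0 true true false .pp 0 2 2 (qsf 0 536870912 1239849684 370763052 2) ndN0q0 ndN2q2b pcN2 cut_pm_022_b Ext.none)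

def k0_pm_022_b : ∃ t, chk3 f_pm_022_b t 1 1 1 = true :=
  ⟨(a (a (a (l 19782360) (l 19211240)) (a (l 18860504) (b (l 18493120) (l 2)))) (b (a (l 17985680) (l 2)) (l 2))), by decide +kernel⟩

theorem c_pm_022_b : CertN 0 536870912 1239849684 370763052 33554432 16777216 3 true true false .pp 0 2 2
    ndN0q0 ndN2q2b pcN2 cut_pm_022_b Ext.none :=
  certNK0 (fam := true) (s1 := true) (s2 := false) (a := 0) (b := 2) (c := 2) (cn := .pp) (n1 := ndN0q0) (n2 := ndN2q2b) (pc := pcN2) (cut := cut_pm_022_b) (xt := Ext.none) (P1 := 0) (W1 := 536870912) (P2 := 1239849684) (W2 := 370763052) (P3 := 33554432) (W3 := 16777216) (N0 := 3)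
    rfl rfl rfl k0_pm_022_b

noncomputable def f_pm_023_a : ℕ → ℕ → ℕ → ℕ → Bool := onCell 0 536870912 0 536870912 33554432 16777216
    (rowNK 3 0 true true false .up 0 2 3 (qsf 0 536870912 0 536870912 3) ndN0q0 ndN2q2a pcN3 Cut.none Ext.none)

def k0_pm_023_a : ∃ t, chk3 f_pm_023_a t 1 1 1 = true :=
  ⟨(a (l 1) (a (b (l 17960240) (b (l 1) (l 1))) (b (l 17682728) (b (l 17628232) (b (l 17571872) (b (l 17540760) (b (l 17520344) (l 17571808)))))))), by decide +kernel⟩

theorem c_pm_023_a : CertN 0 536870912 0 536870912 33554432 16777216 3 true true false .up 0 2 3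
    ndN0q0 ndN2q2a pcN3 Cut.none Ext.none :=
  certNK0 (fam := true) (s1 := true) (s2 := false) (a := 0) (b := 2) (c := 3) (cn := .up) (n1 := ndN0q0) (n2 := ndN2q2a) (pc := pcN3) (cut := Cut.none) (xt := Ext.none) (P1 := 0) (W1 := 536870912) (P2 := 0) (W2 := 536870912) (P3 := 33554432) (W3 := 16777216) (N0 := 3)
    rfl rfl rfl k0_pm_023_a

noncomputable def f_pm_023_b : ℕ → ℕ → ℕ → ℕ → Bool := onCell 0 536870912 1239849684 370763052 33554432 16777216
    (rowNK 3 0 true true false .up 0 2 3 (qsf 0 536870912 1239849684 370763052 3) ndN0q0 ndN2q2b pcN3 Cut.none Ext.none)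

def k0_pm_023_b : ∃ t, chk3 f_pm_023_b t 1 1 1 = true :=
  ⟨(a (b (a (l 1) (l 18665736)) (a (l 19120104) (b (l 18569472) (l 18386568)))) (b (a (l 17990088) (b (l 17732056) (l 17749104))) (a (b (a (l 18021008) (l 17776016)) (a (l 17865088) (l 17793800))) (b (a (l 17694216) (b (l 17697312) (l 17613808))) (a (b (l 17600984) (l 17540768)) (b (l 17564272) (a (l 17521248) (l 4)))))))), by decide +kernel⟩

theorem c_pm_023_b : CertN 0 536870912 1239849684 370763052 33554432 16777216 3 true true false .up 0 2 3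
    ndN0q0 ndN2q2b pcN3 Cut.none Ext.none :=
  certNK0 (fam := true) (s1 := true) (s2 := false) (a := 0) (b := 2) (c := 3) (cn := .up) (n1 := ndN0q0) (n2 := ndN2q2b) (pc := pcN3) (cut := Cut.none) (xt := Ext.none) (P1 := 0) (W1 := 536870912) (P2 := 1239849684) (W2 := 370763052) (P3 := 33554432) (W3 := 16777216) (N0 := 3)
    rfl rfl rfl k0_pm_023_b

noncomputable def f_pm_033 : ℕ → ℕ → ℕ → ℕ → Bool := onCell 0 536870912 1610612736 536870912 33554432 16777216
    (rowNK 3 1 true true false .pnn 0 3 3 (qsf 0 536870912 1610612736 536870912 3) ndN0q0 ndN2q3 pcN3 Cut.none Ext.none)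

def k0_pm_033 : ∃ t, chk3 f_pm_033 t 1 1 1 = true :=
  ⟨(b (a (b (a (l 19167824) (l 18595944)) (a (b (l 18999232) (l 19003368)) (l 18580312))) (b (l 1) (a (l 17914512) (l 1)))) (b (a (a (b (l 19058208) (l 18931944)) (l 18843760)) (a (l 236259734919) (l 212636763671))) (a (a (l 4) (l 4)) (b (a (l 18013768) (l 17770824)) (l 4))))), by decide +kernel⟩

theorem c_pm_033 : CertN 0 536870912 1610612736 536870912 33554432 16777216 3 true true false .pnn 0 3 3
    ndN0q0 ndN2q3 pcN3 Cut.none Ext.none :=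
  certNK1 (fam := true) (s1 := true) (s2 := false) (a := 0) (b := 3) (c := 3) (cn := .pnn) (n1 := ndN0q0) (n2 := ndN2q3) (pc := pcN3) (cut := Cut.none) (xt := Ext.none) (P1 := 0) (W1 := 536870912) (P2 := 1610612736) (W2 := 536870912) (P3 := 33554432) (W3 := 16777216) (N0 := 3)
    rfl rfl rfl (fun _ => rfl) k0_pm_033

noncomputable def cut_pm_101 : Cut := Cut.of [[⟨0, 1, 0, 33554432⟩, ⟨1, 0, 0, 33554432⟩, ⟨2, 1, 0, 33554432⟩]]

noncomputable def f_pm_101 : ℕ → ℕ → ℕ → ℕ → Bool := onCell 536870912 536870912 0 536870912 33554432 16777216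
    (rowNK 3 2 true true false .npn 1 0 1 (qsf 536870912 536870912 0 536870912 1) ndN0q1 ndN2q0 pcN1 cut_pm_101 Ext.none)

def k0_pm_101 : ∃ t, chk3 f_pm_101 t 1 1 1 = true :=
  ⟨(a (l 3) (a (l 3) (a (b (l 3) (l 3)) (a (b (l 3) (l 3)) (b (b (a (l 3) (a (l 3) (b (b (b (l 6) (l 16921856)) (l 16968824)) (l 17284768)))) (b (l 17843384) (l 17801000))) (b (b (l 17904192) (l 18006680)) (l 18558504))))))), by decide +kernel⟩

theorem c_pm_101 : CertN 536870912 536870912 0 536870912 33554432 16777216 3 true true false .npn 1 0 1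
    ndN0q1 ndN2q0 pcN1 cut_pm_101 Ext.none :=
  certNK2 (fam := true) (s1 := true) (s2 := false) (a := 1) (b := 0) (c := 1) (cn := .npn) (n1 := ndN0q1) (n2 := ndN2q0) (pc := pcN1) (cut := cut_pm_101) (xt := Ext.none) (P1 := 536870912) (W1 := 536870912) (P2 := 0) (W2 := 536870912) (P3 := 33554432) (W3 := 16777216) (N0 := 3)
    rfl rfl rfl (fun _ => rfl) k0_pm_101

noncomputable def cut_pm_102 : Cut := Cut.of [[⟨0, 1, 0, 33554432⟩, ⟨1, 0, 0, 33554432⟩, ⟨2, 1, 0, 33554432⟩]]

noncomputable def f_pm_102 : ℕ → ℕ → ℕ → ℕ → Bool := onCell 536870912 536870912 1073741824 536870912 33554432 16777216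
    (rowNK 3 1 true true false .npp 1 0 2 (qsf 536870912 536870912 0 536870912 2) ndN0q1 ndN2q0 pcN2 cut_pm_102 Ext.none)

def k0_pm_102 : ∃ t, chk3 f_pm_102 t 1 1 1 = true :=
  ⟨(a (b (b (b (b (b (b (a (l 18230048) (l 17920072)) (a (l 18219968) (l 17911624))) (a (l 18204560) (l 17898864))) (a (l 18173216) (l 17873896))) (a (l 18106824) (l 17816688))) (a (l 17965064) (l 17691072))) (a (l 2) (l 17413088))) (b (a (b (b (b (b (b (a (l 17761024) (l 17486624)) (a (l 17754080) (l 17480712))) (a (l 17743616) (l 17471824))) (a (l 17723984) (l 17455792))) (a (l 17674592) (l 17411840))) (a (l 17562696) (l 17310680))) (b (b (b (b (b (a (l 17173104) (a (l 16943688) (a (l 16856880) (l 6)))) (a (l 17147392) (a (l 16939928) (a (l 16853632) (a (l 16812360) (l 6)))))) (a (l 17140232) (a (l 16934328) (a (l 16849048) (l 16789480))))) (a (l 17128072) (a (l 16925840) (b (l 16978672) (l 17232008))))) (a (l 17090616) (b (l 17259728) (l 17517168)))) (a (l 17184904) (l 17954144)))) (a (b (l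 17269496) (l 17115032)) (b (l 17726952) (l 17872512))))), by decide +kernel⟩

theorem c_pm_102 : CertN 536870912 536870912 0 536870912 33554432 16777216 3 true true false .npp 1 0 2
    ndN0q1 ndN2q0 pcN2 cut_pm_102 Ext.none :=
  certNK1 (fam := true) (s1 := true) (s2 := false) (a := 1) (b := 0) (c := 2) (cn := .npp) (n1 := ndN0q1) (n2 := ndN2q0) (pc := pcN2) (cut := cut_pm_102) (xt := Ext.none) (P1 := 536870912) (W1 := 536870912) (P2 := 0) (W2 := 536870912) (P3 := 33554432) (W3 := 16777216) (N0 := 3)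
    rfl rfl rfl (fun _ => rfl) k0_pm_102

noncomputable def f_pm_112 : ℕ → ℕ → ℕ → ℕ → Bool := onCell 536870912 536870912 1073741824 536870912 33554432 16777216
    (rowNK 3 1 true true false .dn 1 1 2 (qsf 536870912 536870912 536870912 536870912 2) ndN0q1 ndN2q1 pcN2 Cut.none Ext.none)

def k0_pm_112 : ∃ t, chk3 f_pm_112 t 1 1 1 = true :=
  ⟨(a (a (b (b (b (b (b (b (l 18750216) (l 18773248)) (l 18806320)) (l 18867088)) (l 18997696)) (l 19250984)) (b (l 19564232) (a (b (l 19915664) (a (b (l 20114184) (a (b (l 20257792) (a (b (l 20338432) (a (l 20387104) (l 20358128))) (l 20297408))) (l 20177016))) (l 19990928))) (l 19743776)))) (b (b (b (l 1) (l 18891904)) (l 19064176)) (l 19350464))) (b (b (l 1) (a (l 18897536) (l 1))) (a (l 19093408) (b (l 18942064) (l 18911024))))), by decide +kernel⟩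

theorem c_pm_112 : CertN 536870912 536870912 536870912 536870912 33554432 16777216 3 true true false .dn 1 1 2
    ndN0q1 ndN2q1 pcN2 Cut.none Ext.none :=
  certNK1 (fam := true) (s1 := true) (s2 := false) (a := 1) (b := 1) (c := 2) (cn := .dn) (n1 := ndN0q1) (n2 := ndN2q1) (pc := pcN2) (cut := Cut.none) (xt := Ext.none) (P1 := 536870912) (W1 := 536870912) (P2 := 536870912) (W2 := 536870912) (P3 := 33554432) (W3 := 16777216) (N0 := 3)
    rfl rfl rfl (fun _ => rfl) k0_pm_112

noncomputable def f_pm_113 : ℕ → ℕ → ℕ → ℕ → Bool := onCell 536870912 536870912 536870912 536870912 33554432 16777216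
    (rowNK 3 0 true true false .nn 1 1 3 (qsf 536870912 536870912 536870912 536870912 3) ndN0q1 ndN2q1 pcN3 Cut.none Ext.none)

def k0_pm_113 : ∃ t, chk3 f_pm_113 t 1 1 1 = true :=
  ⟨(a (b (a (l 1) (l 322697210775)) (a (b (l 19239056) (b (l 19441592) (b (l 19539232) (b (l 19608856) (b (l 19642112) (l 19662368)))))) (b (a (l 18934856) (l 18713648)) (b (l 18939184) (b (l 19027648) (b (l 19121912) (b (l 19165960) (l 19197576)))))))) (b (a (b (l 344171419991) (a (l 18447352) (l 18305096))) (b (a (l 18131768) (l 18158416)) (a (l 18316440) (b (l 18346568) (l 18235744))))) (a (b (a (l 18630864) (b (l 18522168) (l 18721728))) (b (a (l 18912992) (l 18671368)) (b (l 18837384) (b (l 18905392) (b (l 18962416) (l 18990680)))))) (b (a (b (l 18549552) (l 18394064)) (b (l 18214160) (l 4))) (a (b (l 18454440) (l 4)) (l 4)))))), by decide +kernel⟩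

theorem c_pm_113 : CertN 536870912 536870912 536870912 536870912 33554432 16777216 3 true true false .nn 1 1 3
    ndN0q1 ndN2q1 pcN3 Cut.none Ext.none :=
  certNK0 (fam := true) (s1 := true) (s2 := false) (a := 1) (b := 1) (c := 3) (cn := .nn) (n1 := ndN0q1) (n2 := ndN2q1) (pc := pcN3) (cut := Cut.none) (xt := Ext.none) (P1 := 536870912) (W1 := 536870912) (P2 := 536870912) (W2 := 536870912) (P3 := 33554432) (W3 := 16777216) (N0 := 3)
    rfl rfl rfl k0_pm_113

noncomputable def cut_pm_123_a : Cut := Cut.of [[⟨0, 1, 0, 7061502⟩, ⟨1, 1, 0, 7061502⟩, ⟨2, 2, 0, 184626⟩]]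

noncomputable def f_pm_123_a : ℕ → ℕ → ℕ → ℕ → Bool := onCell 1610612736 536870912 0 536870912 33554432 16777216
    (rowNK 3 2 true true false .npn 1 2 3 (qsf 536870912 536870912 0 536870912 3) ndN0q1 ndN2q2a pcN3 cut_pm_123_a Ext.none)

def k0_pm_123_a : ∃ t, chk3 f_pm_123_a t 2 1 1 = true :=
  ⟨(b (a (l 17931256) (a (l 17546304) (l 17376072))) (a (b (a (l 1) (l 17517232)) (b (l 17673504) (b (l 52111683271) (b (l 39226726647) (a (l 17279296) (l 17369760)))))) (b (a (l 17348400) (l 17163232)) (b (a (l 17253864) (l 17234320)) (b (a (l 17343872) (l 17288416)) (b (a (l 17393008) (l 17324480)) (a (l 17422912) (l 17339632)))))))), by decide +kernel⟩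

def k1_pm_123_a : ∃ t, chk3 f_pm_123_a t 3 1 1 = true :=
  ⟨(b (a (a (l 17241176) (l 17236608)) (a (l 17316784) (a (l 17252184) (a (l 17173200) (a (l 17095856) (l 4)))))) (a (b (a (l 17214256) (l 17224264)) (b (a (l 17086448) (l 17051080)) (b (a (l 17145232) (l 17033880)) (b (a (l 17168952) (l 17108808)) (a (l 17197424) (l 17397824)))))) (b (a (l 17208208) (a (l 17060280) (a (l 17034400) (a (l 16936728) (a (l 16916744) (a (l 16880344) (l 4))))))) (a (b (l 17170544) (b (l 17086968) (b (l 17149136) (a (l 17186488) (l 17277160))))) (b (a (l 16945904) (a (l 16851552) (a (l 16860664) (a (l 16833824) (a (l 16826936) (l 16998960)))))) (a (b (l 16916224) (b (l 16954128) (a (b (l 17035640) (l 17053336)) (l 17160880)))) (b (a (l 16832512) (a (l 16794008) (a (l 16815896) (a (l 16809672) (a (l 16799600) (a (l 16795800) (l 16861176))))))) (a (b (l 16875352) (a (l 17045040) (b (l 16878200) (l 16991576)))) (b (a (l 16817944) (a (l 16788408) (a (l 16785816) (a (l 16796000) (a (l 16791912)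 (a (l 16786616) (a (l 16784384) (l 16800648)))))))) (a (l 17044864) (a (b (l 16803296) (l 16923704)) (a (b (l 16786768) (l 16849496)) (a (b (l 16778712) (b (l 16782920) (l 16813728))) (a (b (l 16780888) (b (l 16778536) (b (l 16780432) (l 16795600)))) (a (b (l 16785472) (b (l 16778728) (b (l 16778128) (b (l 16778952) (l 16786448))))) (a (b (l 16783208) (b (l 16779320) (b (l 16777808) (b (l 16777760) (b (l 16778128) (l 16781848)))))) (b (l 16819928) (l 6)))))))))))))))))), by decide +kernel⟩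

theorem s2_pm_123_a : ∃ t, chk3 f_pm_123_a t 1 1 1 = true := ex3_a k0_pm_123_a k1_pm_123_a

theorem c_pm_123_a : CertN 536870912 536870912 0 536870912 33554432 16777216 3 true true false .npn 1 2 3
    ndN0q1 ndN2q2a pcN3 cut_pm_123_a Ext.none :=
  certNK2 (fam := true) (s1 := true) (s2 := false) (a := 1) (b := 2) (c := 3) (cn := .npn) (n1 := ndN0q1) (n2 := ndN2q2a) (pc := pcN3) (cut := cut_pm_123_a) (xt := Ext.none) (P1 := 536870912) (W1 := 536870912) (P2 := 0) (W2 := 536870912) (P3 := 33554432) (W3 := 16777216) (N0 := 3)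
    rfl rfl rfl (fun _ => rfl) s2_pm_123_a

noncomputable def cut_pm_123_b : Cut := Cut.of [[⟨0, 1, 0, 7061502⟩, ⟨1, 1, 0, 7061502⟩, ⟨2, 2, 0, 184626⟩]]

noncomputable def f_pm_123_b : ℕ → ℕ → ℕ → ℕ → Bool := onCell 1610612736 536870912 1239849684 370763052 33554432 16777216
    (rowNK 3 2 true true false .npn 1 2 3 (qsf 536870912 536870912 1239849684 370763052 3) ndN0q1 ndN2q2b pcN3 cut_pm_123_b Ext.none)

def k0_pm_123_b : ∃ t, chk3 f_pm_123_b t 1 1 1 = true :=
  ⟨(a (b (a (l 1) (b (a (l 17671248) (l 17603640)) (l 18027184))) (l 1)) (a (b (b (a (l 17449968) (l 17339120)) (a (l 17688184) (l 17568640))) (a (l 1) (b (l 17592672) (l 1)))) (a (b (b (b (l 17336912) (l 17355752)) (l 17447032)) (b (l 17501920) (l 17511672))) (a (b (b (l 17342032) (l 17299696)) (b (l 17323776) (l 4))) (b (a (b (l 17261928) (l 17215008)) (b (a (l 17212184) (l 4)) (l 4))) (l 4)))))), by decide +kernel⟩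

theorem c_pm_123_b : CertN 536870912 536870912 1239849684 370763052 33554432 16777216 3 true true false .npn 1 2 3
    ndN0q1 ndN2q2b pcN3 cut_pm_123_b Ext.none :=
  certNK2 (fam := true) (s1 := true) (s2 := false) (a := 1) (b := 2) (c := 3) (cn := .npn) (n1 := ndN0q1) (n2 := ndN2q2b) (pc := pcN3) (cut := cut_pm_123_b) (xt := Ext.none) (P1 := 536870912) (W1 := 536870912) (P2 := 1239849684) (W2 := 370763052) (P3 := 33554432) (W3 := 16777216) (N0 := 3)
    rfl rfl rfl (fun _ => rfl) k0_pm_123_b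

noncomputable def f_pm_133 : ℕ → ℕ → ℕ → ℕ → Bool := onCell 536870912 536870912 1610612736 536870912 33554432 16777216
    (rowNK 3 0 true true false .dn 1 3 3 (qsf 536870912 536870912 1610612736 536870912 3) ndN0q1 ndN2q3 pcN3 Cut.none Ext.none)

def k0_pm_133 : ∃ t, chk3 f_pm_133 t 1 1 1 = true :=
  ⟨(a (l 4) (l 2)), by decide +kernel⟩

theorem c_pm_133 : CertN 536870912 536870912 1610612736 536870912 33554432 16777216 3 true true false .dn 1 3 3
    ndN0q1 ndN2q3 pcN3 Cut.none Ext.none :=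
  certNK0 (fam := true) (s1 := true) (s2 := false) (a := 1) (b := 3) (c := 3) (cn := .dn) (n1 := ndN0q1) (n2 := ndN2q3) (pc := pcN3) (cut := Cut.none) (xt := Ext.none) (P1 := 536870912) (W1 := 536870912) (P2 := 1610612736) (W2 := 536870912) (P3 := 33554432) (W3 := 16777216) (N0 := 3)
    rfl rfl rfl k0_pm_133

noncomputable def cut_pm_202 : Cut := Cut.of [[⟨0, 1, 0, 33554432⟩, ⟨1, 0, 0, 33554432⟩, ⟨2, 1, 0, 33554432⟩]]

noncomputable def f_pm_202 : ℕ → ℕ → ℕ → ℕ → Bool := onCell 0 536870912 0 536870912 33554432 16777216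
    (rowNK 3 0 true true false .pp 2 0 2 (qsf 0 536870912 0 536870912 2) ndN0q2 ndN2q0 pcN2 cut_pm_202 Ext.none)

def k0_pm_202 : ∃ t, chk3 f_pm_202 t 1 1 1 = true :=
  ⟨(a (b (b (b (a (l 19279600) (b (l 19270640) (l 19103392))) (l 19027336)) (a (l 18551560) (l 18570528))) (b (b (l 18317064) (l 18239160)) (a (l 2) (l 18206616)))) (b (a (b (b (b (a (l 19121264) (b (b (l 18865608) (l 18896184)) (l 18911960))) (l 18959488)) (l 18827336)) (l 18749368)) (b (b (a (b (b (b (a (b (a (l 18437160) (l 18097624)) (l 18387768)) (b (a (c (l 18075160) (a (l 17600656) (l 17181584))) (a (c (l 17596920) (l 16835664)) (b (l 16835584) (l 17123000)))) (l 17614280))) (a (l 18480648) (l 17938056))) (l 18423192)) (l 18589000)) (b (a (b (b (b (b (a (b (l 16734688) (l 16729416)) (b (l 6) (l 16739176))) (l 16744496)) (l 16744344)) (l 16883712)) (l 17541304)) (a (b (b (l 6) (l 16749528)) (l 16748496)) (b (l 6) (l 16751928)))) (a (l 18084144) (l 17618680)))) (a (l 18659392) (l 18528592))) (l 18708432)))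 (b (a (l 18449288) (l 18477456)) (a (l 18361176) (b (l 18477040) (l 18483504)))))), by decide +kernel⟩

theorem c_pm_202 : CertN 0 536870912 0 536870912 33554432 16777216 3 true true false .pp 2 0 2
    ndN0q2 ndN2q0 pcN2 cut_pm_202 Ext.none :=
  certNK0 (fam := true) (s1 := true) (s2 := false) (a := 2) (b := 0) (c := 2) (cn := .pp) (n1 := ndN0q2) (n2 := ndN2q0) (pc := pcN2) (cut := cut_pm_202) (xt := Ext.none) (P1 := 0) (W1 := 536870912) (P2 := 0) (W2 := 536870912) (P3 := 33554432) (W3 := 16777216) (N0 := 3)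
    rfl rfl rfl k0_pm_202

noncomputable def f_pm_203 : ℕ → ℕ → ℕ → ℕ → Bool := onCell 0 536870912 1610612736 536870912 33554432 16777216
    (rowNK 3 1 true true false .up 2 0 3 (qsf 0 536870912 0 536870912 3) ndN0q2 ndN2q0 pcN3 Cut.none Ext.none)

def k0_pm_203 : ∃ t, chk3 f_pm_203 t 1 1 1 = true :=
  ⟨(b (a (b (l 18437880) (l 4)) (b (a (l 18449336) (l 18723280)) (a (l 2) (l 2)))) (l 2)), by decide +kernel⟩

theorem c_pm_203 : CertN 0 536870912 0 536870912 33554432 16777216 3 true true false .up 2 0 3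
    ndN0q2 ndN2q0 pcN3 Cut.none Ext.none :=
  certNK1 (fam := true) (s1 := true) (s2 := false) (a := 2) (b := 0) (c := 3) (cn := .up) (n1 := ndN0q2) (n2 := ndN2q0) (pc := pcN3) (cut := Cut.none) (xt := Ext.none) (P1 := 0) (W1 := 536870912) (P2 := 0) (W2 := 536870912) (P3 := 33554432) (W3 := 16777216) (N0 := 3)
    rfl rfl rfl (fun _ => rfl) k0_pm_203

noncomputable def f_pm_213 : ℕ → ℕ → ℕ → ℕ → Bool := onCell 0 536870912 1610612736 536870912 33554432 16777216
    (rowNK 3 1 true true false .pnn 2 1 3 (qsf 0 536870912 536870912 536870912 3) ndN0q2 ndN2q1 pcN3 Cut.none Ext.none)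

def k0_pm_213 : ∃ t, chk3 f_pm_213 t 1 1 1 = true :=
  ⟨(b (a (b (l 17841616) (l 4)) (b (a (l 18248128) (l 18228640)) (a (l 4) (l 18128480)))) (l 4)), by decide +kernel⟩

theorem c_pm_213 : CertN 0 536870912 536870912 536870912 33554432 16777216 3 true true false .pnn 2 1 3
    ndN0q2 ndN2q1 pcN3 Cut.none Ext.none :=
  certNK1 (fam := true) (s1 := true) (s2 := false) (a := 2) (b := 1) (c := 3) (cn := .pnn) (n1 := ndN0q2) (n2 := ndN2q1) (pc := pcN3) (cut := Cut.none) (xt := Ext.none) (P1 := 0) (W1 := 536870912) (P2 := 536870912) (W2 := 536870912) (P3 := 33554432) (W3 := 16777216) (N0 := 3)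
    rfl rfl rfl (fun _ => rfl) k0_pm_213

noncomputable def f_mm_001 : ℕ → ℕ → ℕ → ℕ → Bool := onCell 0 536870912 0 536870912 33554432 16777216
    (rowNK 3 0 true false false .up 0 0 1 (qsf 0 536870912 0 536870912 1) ndN0q0 ndN2q0 pcN1 Cut.none Ext.none)

def k0_mm_001 : ∃ t, chk3 f_mm_001 t 1 1 1 = true :=
  ⟨(l 4), by decide +kernel⟩

theorem c_mm_001 : CertN 0 536870912 0 536870912 33554432 16777216 3 true false false .up 0 0 1
    ndN0q0 ndN2q0 pcN1 Cut.none Ext.none :=
  certNK0 (fam := true) (s1 := false) (s2 := false) (a := 0) (b := 0) (c := 1) (cn := .up) (n1 := ndN0q0) (n2 := ndN2q0) (pc := pcN1) (cut := Cut.none) (xt := Ext.none) (P1 := 0) (W1 := 536870912) (P2 := 0) (W2 := 536870912) (P3 := 33554432) (W3 := 16777216) (N0 := 3)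
    rfl rfl rfl k0_mm_001

noncomputable def f_mm_011 : ℕ → ℕ → ℕ → ℕ → Bool := onCell 0 536870912 536870912 536870912 33554432 16777216
    (rowNK 3 0 true false false .pnn 0 1 1 (qsf 0 536870912 536870912 536870912 1) ndN0q0 ndN2q1 pcN1 Cut.none Ext.none)

def k0_mm_011 : ∃ t, chk3 f_mm_011 t 1 1 1 = true :=
  ⟨(l 4), by decide +kernel⟩

theorem c_mm_011 : CertN 0 536870912 536870912 536870912 33554432 16777216 3 true false false .pnn 0 1 1
    ndN0q0 ndN2q1 pcN1 Cut.none Ext.none :=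
  certNK0 (fam := true) (s1 := false) (s2 := false) (a := 0) (b := 1) (c := 1) (cn := .pnn) (n1 := ndN0q0) (n2 := ndN2q1) (pc := pcN1) (cut := Cut.none) (xt := Ext.none) (P1 := 0) (W1 := 536870912) (P2 := 536870912) (W2 := 536870912) (P3 := 33554432) (W3 := 16777216) (N0 := 3)
    rfl rfl rfl k0_mm_011

noncomputable def f_mm_012 : ℕ → ℕ → ℕ → ℕ → Bool := onCell 0 536870912 536870912 536870912 33554432 16777216
    (rowNK 3 0 true false false .pnp 0 1 2 (qsf 0 536870912 536870912 536870912 2) ndN0q0 ndN2q1 pcN2 Cut.none Ext.none)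

def k0_mm_012 : ∃ t, chk3 f_mm_012 t 1 1 1 = true :=
  ⟨(l 4), by decide +kernel⟩

theorem c_mm_012 : CertN 0 536870912 536870912 536870912 33554432 16777216 3 true false false .pnp 0 1 2
    ndN0q0 ndN2q1 pcN2 Cut.none Ext.none :=
  certNK0 (fam := true) (s1 := false) (s2 := false) (a := 0) (b := 1) (c := 2) (cn := .pnp) (n1 := ndN0q0) (n2 := ndN2q1) (pc := pcN2) (cut := Cut.none) (xt := Ext.none) (P1 := 0) (W1 := 536870912) (P2 := 536870912) (W2 := 536870912) (P3 := 33554432) (W3 := 16777216) (N0 := 3)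
    rfl rfl rfl k0_mm_012

noncomputable def f_mm_022_a : ℕ → ℕ → ℕ → ℕ → Bool := onCell 0 536870912 0 536870912 33554432 16777216
    (rowNK 3 0 true false false .pp 0 2 2 (qsf 0 536870912 0 536870912 2) ndN0q0 ndN2q2a pcN2 Cut.none Ext.none)

def k0_mm_022_a : ∃ t, chk3 f_mm_022_a t 1 1 1 = true :=
  ⟨(l 5), by decide +kernel⟩

theorem c_mm_022_a : CertN 0 536870912 0 536870912 33554432 16777216 3 true false false .pp 0 2 2
    ndN0q0 ndN2q2a pcN2 Cut.none Ext.none :=
  certNK0 (fam := true) (s1 := false) (s2 := false) (a := 0) (b := 2) (c := 2) (cn := .pp) (n1 := ndN0q0) (n2 := ndN2q2a) (pc := pcN2) (cut := Cut.none) (xt := Ext.none) (P1 := 0) (W1 := 536870912) (P2 := 0) (W2 := 536870912) (P3 := 33554432) (W3 := 16777216) (N0 := 3)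
    rfl rfl rfl k0_mm_022_a

noncomputable def f_mm_022_b : ℕ → ℕ → ℕ → ℕ → Bool := onCell 0 536870912 1239849684 370763052 33554432 16777216
    (rowNK 3 0 true false false .pp 0 2 2 (qsf 0 536870912 1239849684 370763052 2) ndN0q0 ndN2q2b pcN2 Cut.none Ext.none)

def k0_mm_022_b : ∃ t, chk3 f_mm_022_b t 1 1 1 = true :=
  ⟨(l 4), by decide +kernel⟩

theorem c_mm_022_b : CertN 0 536870912 1239849684 370763052 33554432 16777216 3 true false false .pp 0 2 2
    ndN0q0 ndN2q2b pcN2 Cut.none Ext.none :=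
  certNK0 (fam := true) (s1 := false) (s2 := false) (a := 0) (b := 2) (c := 2) (cn := .pp) (n1 := ndN0q0) (n2 := ndN2q2b) (pc := pcN2) (cut := Cut.none) (xt := Ext.none) (P1 := 0) (W1 := 536870912) (P2 := 1239849684) (W2 := 370763052) (P3 := 33554432) (W3 := 16777216) (N0 := 3)
    rfl rfl rfl k0_mm_022_b

noncomputable def f_mm_023_a : ℕ → ℕ → ℕ → ℕ → Bool := onCell 0 536870912 0 536870912 33554432 16777216
    (rowNK 3 0 true false false .up 0 2 3 (qsf 0 536870912 0 536870912 3) ndN0q0 ndN2q2a pcN3 Cut.none Ext.none)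

def k0_mm_023_a : ∃ t, chk3 f_mm_023_a t 1 1 1 = true :=
  ⟨(l 5), by decide +kernel⟩

theorem c_mm_023_a : CertN 0 536870912 0 536870912 33554432 16777216 3 true false false .up 0 2 3
    ndN0q0 ndN2q2a pcN3 Cut.none Ext.none :=
  certNK0 (fam := true) (s1 := false) (s2 := false) (a := 0) (b := 2) (c := 3) (cn := .up) (n1 := ndN0q0) (n2 := ndN2q2a) (pc := pcN3) (cut := Cut.none) (xt := Ext.none) (P1 := 0) (W1 := 536870912) (P2 := 0) (W2 := 536870912) (P3 := 33554432) (W3 := 16777216) (N0 := 3)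
    rfl rfl rfl k0_mm_023_a

noncomputable def f_mm_023_b : ℕ → ℕ → ℕ → ℕ → Bool := onCell 0 536870912 1239849684 370763052 33554432 16777216
    (rowNK 3 0 true false false .up 0 2 3 (qsf 0 536870912 1239849684 370763052 3) ndN0q0 ndN2q2b pcN3 Cut.none Ext.none)

def k0_mm_023_b : ∃ t, chk3 f_mm_023_b t 1 1 1 = true :=
  ⟨(l 4), by decide +kernel⟩

theorem c_mm_023_b : CertN 0 536870912 1239849684 370763052 33554432 16777216 3 true false false .up 0 2 3
    ndN0q0 ndN2q2b pcN3 Cut.none Ext.none :=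
  certNK0 (fam := true) (s1 := false) (s2 := false) (a := 0) (b := 2) (c := 3) (cn := .up) (n1 := ndN0q0) (n2 := ndN2q2b) (pc := pcN3) (cut := Cut.none) (xt := Ext.none) (P1 := 0) (W1 := 536870912) (P2 := 1239849684) (W2 := 370763052) (P3 := 33554432) (W3 := 16777216) (N0 := 3)
    rfl rfl rfl k0_mm_023_b

noncomputable def f_mm_033 : ℕ → ℕ → ℕ → ℕ → Bool := onCell 0 536870912 1610612736 536870912 33554432 16777216
    (rowNK 3 0 true false false .pnn 0 3 3 (qsf 0 536870912 1610612736 536870912 3) ndN0q0 ndN2q3 pcN3 Cut.none Ext.none)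

def k0_mm_033 : ∃ t, chk3 f_mm_033 t 1 1 1 = true :=
  ⟨(l 4), by decide +kernel⟩

theorem c_mm_033 : CertN 0 536870912 1610612736 536870912 33554432 16777216 3 true false false .pnn 0 3 3
    ndN0q0 ndN2q3 pcN3 Cut.none Ext.none :=
  certNK0 (fam := true) (s1 := false) (s2 := false) (a := 0) (b := 3) (c := 3) (cn := .pnn) (n1 := ndN0q0) (n2 := ndN2q3) (pc := pcN3) (cut := Cut.none) (xt := Ext.none) (P1 := 0) (W1 := 536870912) (P2 := 1610612736) (W2 := 536870912) (P3 := 33554432) (W3 := 16777216) (N0 := 3)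
    rfl rfl rfl k0_mm_033

noncomputable def cut_mm_101 : Cut := Cut.of [[⟨0, 1, 0, 33554432⟩, ⟨1, 0, 0, 33554432⟩, ⟨2, 1, 0, 33554432⟩]]

noncomputable def f_mm_101 : ℕ → ℕ → ℕ → ℕ → Bool := onCell 536870912 536870912 0 536870912 33554432 16777216
    (rowNK 3 0 true false false .npn 1 0 1 (qsf 536870912 536870912 0 536870912 1) ndN0q1 ndN2q0 pcN1 cut_mm_101 Ext.none)

def k0_mm_101 : ∃ t, chk3 f_mm_101 t 1 1 1 = true :=
  ⟨(a (l 4) (b (a (l 4) (b (a (l 4) (b (a (l 4) (a (l 4) (b (b (l 6) (l 4)) (l 2)))) (l 4))) (l 4))) (l 4))), by decide +kernel⟩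

theorem c_mm_101 : CertN 536870912 536870912 0 536870912 33554432 16777216 3 true false false .npn 1 0 1
    ndN0q1 ndN2q0 pcN1 cut_mm_101 Ext.none :=
  certNK0 (fam := true) (s1 := false) (s2 := false) (a := 1) (b := 0) (c := 1) (cn := .npn) (n1 := ndN0q1) (n2 := ndN2q0) (pc := pcN1) (cut := cut_mm_101) (xt := Ext.none) (P1 := 536870912) (W1 := 536870912) (P2 := 0) (W2 := 536870912) (P3 := 33554432) (W3 := 16777216) (N0 := 3)
    rfl rfl rfl k0_mm_101

noncomputable def cut_mm_102 : Cut := Cut.of [[⟨0, 1, 0, 33554432⟩, ⟨1, 0, 0, 33554432⟩, ⟨2, 1, 0, 33554432⟩]]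

noncomputable def f_mm_102 : ℕ → ℕ → ℕ → ℕ → Bool := onCell 536870912 536870912 0 536870912 33554432 16777216
    (rowNK 3 0 true false false .npp 1 0 2 (qsf 536870912 536870912 0 536870912 2) ndN0q1 ndN2q0 pcN2 cut_mm_102 Ext.none)

def k0_mm_102 : ∃ t, chk3 f_mm_102 t 1 1 1 = true :=
  ⟨(a (l 4) (b (a (l 4) (b (a (l 4) (b (a (l 4) (a (l 4) (b (b (l 6) (l 4)) (l 4)))) (l 4))) (l 4))) (l 4))), by decide +kernel⟩

theorem c_mm_102 : CertN 536870912 536870912 0 536870912 33554432 16777216 3 true false false .npp 1 0 2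
    ndN0q1 ndN2q0 pcN2 cut_mm_102 Ext.none :=
  certNK0 (fam := true) (s1 := false) (s2 := false) (a := 1) (b := 0) (c := 2) (cn := .npp) (n1 := ndN0q1) (n2 := ndN2q0) (pc := pcN2) (cut := cut_mm_102) (xt := Ext.none) (P1 := 536870912) (W1 := 536870912) (P2 := 0) (W2 := 536870912) (P3 := 33554432) (W3 := 16777216) (N0 := 3)
    rfl rfl rfl k0_mm_102

noncomputable def f_mm_112 : ℕ → ℕ → ℕ → ℕ → Bool := onCell 536870912 536870912 536870912 536870912 33554432 16777216
    (rowNK 3 0 true false false .dn 1 1 2 (qsf 536870912 536870912 536870912 536870912 2) ndN0q1 ndN2q1 pcN2 Cut.none Ext.none)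

def k0_mm_112 : ∃ t, chk3 f_mm_112 t 1 1 1 = true :=
  ⟨(l 4), by decide +kernel⟩

theorem c_mm_112 : CertN 536870912 536870912 536870912 536870912 33554432 16777216 3 true false false .dn 1 1 2
    ndN0q1 ndN2q1 pcN2 Cut.none Ext.none :=
  certNK0 (fam := true) (s1 := false) (s2 := false) (a := 1) (b := 1) (c := 2) (cn := .dn) (n1 := ndN0q1) (n2 := ndN2q1) (pc := pcN2) (cut := Cut.none) (xt := Ext.none) (P1 := 536870912) (W1 := 536870912) (P2 := 536870912) (W2 := 536870912) (P3 := 33554432) (W3 := 16777216) (N0 := 3)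
    rfl rfl rfl k0_mm_112

noncomputable def f_mm_113 : ℕ → ℕ → ℕ → ℕ → Bool := onCell 536870912 536870912 536870912 536870912 33554432 16777216
    (rowNK 3 0 true false false .nn 1 1 3 (qsf 536870912 536870912 536870912 536870912 3) ndN0q1 ndN2q1 pcN3 Cut.none Ext.none)

def k0_mm_113 : ∃ t, chk3 f_mm_113 t 1 1 1 = true :=
  ⟨(l 4), by decide +kernel⟩

theorem c_mm_113 : CertN 536870912 536870912 536870912 536870912 33554432 16777216 3 true false false .nn 1 1 3
    ndN0q1 ndN2q1 pcN3 Cut.none Ext.none :=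
  certNK0 (fam := true) (s1 := false) (s2 := false) (a := 1) (b := 1) (c := 3) (cn := .nn) (n1 := ndN0q1) (n2 := ndN2q1) (pc := pcN3) (cut := Cut.none) (xt := Ext.none) (P1 := 536870912) (W1 := 536870912) (P2 := 536870912) (W2 := 536870912) (P3 := 33554432) (W3 := 16777216) (N0 := 3)
    rfl rfl rfl k0_mm_113

noncomputable def f_mm_123_a : ℕ → ℕ → ℕ → ℕ → Bool := onCell 536870912 536870912 0 536870912 33554432 16777216
    (rowNK 3 0 true false false .npn 1 2 3 (qsf 536870912 536870912 0 536870912 3) ndN0q1 ndN2q2a pcN3 Cut.none Ext.none)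

def k0_mm_123_a : ∃ t, chk3 f_mm_123_a t 1 1 1 = true :=
  ⟨(l 4), by decide +kernel⟩

theorem c_mm_123_a : CertN 536870912 536870912 0 536870912 33554432 16777216 3 true false false .npn 1 2 3
    ndN0q1 ndN2q2a pcN3 Cut.none Ext.none :=
  certNK0 (fam := true) (s1 := false) (s2 := false) (a := 1) (b := 2) (c := 3) (cn := .npn) (n1 := ndN0q1) (n2 := ndN2q2a) (pc := pcN3) (cut := Cut.none) (xt := Ext.none) (P1 := 536870912) (W1 := 536870912) (P2 := 0) (W2 := 536870912) (P3 := 33554432) (W3 := 16777216) (N0 := 3)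
    rfl rfl rfl k0_mm_123_a

noncomputable def f_mm_123_b : ℕ → ℕ → ℕ → ℕ → Bool := onCell 536870912 536870912 1239849684 370763052 33554432 16777216
    (rowNK 3 0 true false false .npn 1 2 3 (qsf 536870912 536870912 1239849684 370763052 3) ndN0q1 ndN2q2b pcN3 Cut.none Ext.none)

def k0_mm_123_b : ∃ t, chk3 f_mm_123_b t 1 1 1 = true :=
  ⟨(l 4), by decide +kernel⟩

theorem c_mm_123_b : CertN 536870912 536870912 1239849684 370763052 33554432 16777216 3 true false false .npn 1 2 3
    ndN0q1 ndN2q2b pcN3 Cut.none Ext.none :=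
  certNK0 (fam := true) (s1 := false) (s2 := false) (a := 1) (b := 2) (c := 3) (cn := .npn) (n1 := ndN0q1) (n2 := ndN2q2b) (pc := pcN3) (cut := Cut.none) (xt := Ext.none) (P1 := 536870912) (W1 := 536870912) (P2 := 1239849684) (W2 := 370763052) (P3 := 33554432) (W3 := 16777216) (N0 := 3)
    rfl rfl rfl k0_mm_123_b

noncomputable def f_mm_133 : ℕ → ℕ → ℕ → ℕ → Bool := onCell 536870912 536870912 1610612736 536870912 33554432 16777216
    (rowNK 3 0 true false false .dn 1 3 3 (qsf 536870912 536870912 1610612736 536870912 3) ndN0q1 ndN2q3 pcN3 Cut.none Ext.none)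

def k0_mm_133 : ∃ t, chk3 f_mm_133 t 1 1 1 = true :=
  ⟨(l 4), by decide +kernel⟩

theorem c_mm_133 : CertN 536870912 536870912 1610612736 536870912 33554432 16777216 3 true false false .dn 1 3 3
    ndN0q1 ndN2q3 pcN3 Cut.none Ext.none :=
  certNK0 (fam := true) (s1 := false) (s2 := false) (a := 1) (b := 3) (c := 3) (cn := .dn) (n1 := ndN0q1) (n2 := ndN2q3) (pc := pcN3) (cut := Cut.none) (xt := Ext.none) (P1 := 536870912) (W1 := 536870912) (P2 := 1610612736) (W2 := 536870912) (P3 := 33554432) (W3 := 16777216) (N0 := 3)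
    rfl rfl rfl k0_mm_133

noncomputable def cut_mm_202 : Cut := Cut.of [[⟨0, 1, 0, 33554432⟩, ⟨1, 0, 0, 33554432⟩, ⟨2, 1, 0, 33554432⟩]]

noncomputable def f_mm_202 : ℕ → ℕ → ℕ → ℕ → Bool := onCell 0 536870912 0 536870912 33554432 16777216
    (rowNK 3 0 true false false .pp 2 0 2 (qsf 0 536870912 0 536870912 2) ndN0q2 ndN2q0 pcN2 cut_mm_202 Ext.none)

def k0_mm_202 : ∃ t, chk3 f_mm_202 t 1 1 1 = true :=
  ⟨(b (a (b (b (a (l 19216312) (b (l 19284080) (l 18975168))) (a (l 18763032) (l 18593392))) (b (l 18437472) (l 40503717943))) (b (a (b (a (b (l 19051808) (l 18696648)) (b (b (a (l 18897184) (b (l 18677600) (l 18604672))) (l 18590080)) (l 18301848))) (a (l 18268160) (l 17849872))) (b (a (a (b (b (b (b (a (l 18397344) (b (l 18048272) (l 18131200))) (l 18274824)) (l 18254928)) (l 18154000)) (l 17880536)) (b (b (b (b (a (b (c (l 18019232) (a (l 17540936) (l 17053416))) (l 17772272)) (b (a (c (l 17488664) (l 16721208)) (a (c (l 17260184) (l 16733080)) (l 16740176))) (l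 17203640))) (a (l 17828880) (l 17397552))) (a (l 17880376) (l 17544376))) (l 17724280)) (l 17590200))) (b (a (b (b (b (b (a (b (a (l 16739160) (l 16746488)) (l 16742160)) (b (l 6) (l 16751808))) (a (l 16743248) (l 16752832))) (a (l 16790432) (l 16754976))) (a (l 17114432) (l 16785128))) (l 16978440)) (b (a (b (l 6) (a (l 16780224) (l 6))) (l 6)) (l 4))) (l 4))) (l 4))) (l 4))) (a (l 4) (l 4))), by decide +kernel⟩

theorem c_mm_202 : CertN 0 536870912 0 536870912 33554432 16777216 3 true false false .pp 2 0 2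
    ndN0q2 ndN2q0 pcN2 cut_mm_202 Ext.none :=
  certNK0 (fam := true) (s1 := false) (s2 := false) (a := 2) (b := 0) (c := 2) (cn := .pp) (n1 := ndN0q2) (n2 := ndN2q0) (pc := pcN2) (cut := cut_mm_202) (xt := Ext.none) (P1 := 0) (W1 := 536870912) (P2 := 0) (W2 := 536870912) (P3 := 33554432) (W3 := 16777216) (N0 := 3)
    rfl rfl rfl k0_mm_202

noncomputable def f_mm_203 : ℕ → ℕ → ℕ → ℕ → Bool := onCell 0 536870912 1610612736 536870912 33554432 16777216
    (rowNK 3 1 true false false .up 2 0 3 (qsf 0 536870912 0 536870912 3) ndN0q2 ndN2q0 pcN3 Cut.none Ext.none)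

def k0_mm_203 : ∃ t, chk3 f_mm_203 t 1 1 1 = true :=
  ⟨(l 4), by decide +kernel⟩

theorem c_mm_203 : CertN 0 536870912 0 536870912 33554432 16777216 3 true false false .up 2 0 3
    ndN0q2 ndN2q0 pcN3 Cut.none Ext.none :=
  certNK1 (fam := true) (s1 := false) (s2 := false) (a := 2) (b := 0) (c := 3) (cn := .up) (n1 := ndN0q2) (n2 := ndN2q0) (pc := pcN3) (cut := Cut.none) (xt := Ext.none) (P1 := 0) (W1 := 536870912) (P2 := 0) (W2 := 536870912) (P3 := 33554432) (W3 := 16777216) (N0 := 3)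
    rfl rfl rfl (fun _ => rfl) k0_mm_203

noncomputable def f_mm_213 : ℕ → ℕ → ℕ → ℕ → Bool := onCell 0 536870912 536870912 536870912 33554432 16777216
    (rowNK 3 0 true false false .pnn 2 1 3 (qsf 0 536870912 536870912 536870912 3) ndN0q2 ndN2q1 pcN3 Cut.none Ext.none)

def k0_mm_213 : ∃ t, chk3 f_mm_213 t 1 1 1 = true :=
  ⟨(l 4), by decide +kernel⟩

theorem c_mm_213 : CertN 0 536870912 536870912 536870912 33554432 16777216 3 true false false .pnn 2 1 3
    ndN0q2 ndN2q1 pcN3 Cut.none Ext.none :=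
  certNK0 (fam := true) (s1 := false) (s2 := false) (a := 2) (b := 1) (c := 3) (cn := .pnn) (n1 := ndN0q2) (n2 := ndN2q1) (pc := pcN3) (cut := Cut.none) (xt := Ext.none) (P1 := 0) (W1 := 536870912) (P2 := 536870912) (W2 := 536870912) (P3 := 33554432) (W3 := 16777216) (N0 := 3)
    rfl rfl rfl k0_mm_213

end Pool.Agent.Strip051.G.I1_32_3_64.Tab.C.NA02

namespace Pool.Agent.Strip051.G.I1_32_3_64.Tab.C.NA03

open Pool.Agent.Strip051.PB Pool.Agent.Strip051.PB.T
open Pool.Agent.Strip051.G.I1_32_3_64.Tab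

noncomputable def f_pp_001 : ℕ → ℕ → ℕ → ℕ → Bool := onCell 0 536870912 0 536870912 33554432 16777216
    (rowNK 3 0 true true true .up 0 0 1 (qsf 0 536870912 0 536870912 1) ndN0q0 ndN3q0 pcN1 Cut.none Ext.none)

def k0_pp_001 : ∃ t, chk3 f_pp_001 t 1 1 1 = true :=
  ⟨(l 4), by decide +kernel⟩

theorem c_pp_001 : CertN 0 536870912 0 536870912 33554432 16777216 3 true true true .up 0 0 1
    ndN0q0 ndN3q0 pcN1 Cut.none Ext.none :=
  certNK0 (fam := true) (s1 := true) (s2 := true) (a := 0) (b := 0) (c := 1) (cn := .up) (n1 := ndN0q0) (n2 := ndN3q0) (pc := pcN1) (cut := Cut.none) (xt := Ext.none) (P1 := 0) (W1 := 536870912) (P2 := 0) (W2 := 536870912) (P3 := 33554432) (W3 := 16777216) (N0 := 3)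
    rfl rfl rfl k0_pp_001

noncomputable def f_pp_011 : ℕ → ℕ → ℕ → ℕ → Bool := onCell 0 536870912 536870912 536870912 33554432 16777216
    (rowNK 3 0 true true true .pnn 0 1 1 (qsf 0 536870912 536870912 536870912 1) ndN0q0 ndN3q1 pcN1 Cut.none Ext.none)

def k0_pp_011 : ∃ t, chk3 f_pp_011 t 1 1 1 = true :=
  ⟨(l 4), by decide +kernel⟩

theorem c_pp_011 : CertN 0 536870912 536870912 536870912 33554432 16777216 3 true true true .pnn 0 1 1
    ndN0q0 ndN3q1 pcN1 Cut.none Ext.none :=
  certNK0 (fam := true) (s1 := true) (s2 := true) (a := 0) (b := 1) (c := 1) (cn := .pnn) (n1 := ndN0q0) (n2 := ndN3q1) (pc := pcN1) (cut := Cut.none) (xt := Ext.none) (P1 := 0) (W1 := 536870912) (P2 := 536870912) (W2 := 536870912) (P3 := 33554432) (W3 := 16777216) (N0 := 3)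
    rfl rfl rfl k0_pp_011

noncomputable def f_pp_012 : ℕ → ℕ → ℕ → ℕ → Bool := onCell 0 536870912 536870912 536870912 33554432 16777216
    (rowNK 3 0 true true true .pnp 0 1 2 (qsf 0 536870912 536870912 536870912 2) ndN0q0 ndN3q1 pcN2 Cut.none Ext.none)

def k0_pp_012 : ∃ t, chk3 f_pp_012 t 1 1 1 = true :=
  ⟨(l 4), by decide +kernel⟩

theorem c_pp_012 : CertN 0 536870912 536870912 536870912 33554432 16777216 3 true true true .pnp 0 1 2
    ndN0q0 ndN3q1 pcN2 Cut.none Ext.none :=
  certNK0 (fam := true) (s1 := true) (s2 := true) (a := 0) (b := 1) (c := 2) (cn := .pnp) (n1 := ndN0q0) (n2 := ndN3q1) (pc := pcN2) (cut := Cut.none) (xt := Ext.none) (P1 := 0) (W1 := 536870912) (P2 := 536870912) (W2 := 536870912) (P3 := 33554432) (W3 := 16777216) (N0 := 3)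
    rfl rfl rfl k0_pp_012

noncomputable def f_pp_022 : ℕ → ℕ → ℕ → ℕ → Bool := onCell 0 536870912 1073741824 536870912 33554432 16777216
    (rowNK 3 0 true true true .pp 0 2 2 (qsf 0 536870912 1073741824 536870912 2) ndN0q0 ndN3q2 pcN2 Cut.none Ext.none)

def k0_pp_022 : ∃ t, chk3 f_pp_022 t 1 1 1 = true :=
  ⟨(l 4), by decide +kernel⟩

theorem c_pp_022 : CertN 0 536870912 1073741824 536870912 33554432 16777216 3 true true true .pp 0 2 2
    ndN0q0 ndN3q2 pcN2 Cut.none Ext.none :=
  certNK0 (fam := true) (s1 := true) (s2 := true) (a := 0) (b := 2) (c := 2) (cn := .pp) (n1 := ndN0q0) (n2 := ndN3q2) (pc := pcN2) (cut := Cut.none) (xt := Ext.none) (P1 := 0) (W1 := 536870912) (P2 := 1073741824) (W2 := 536870912) (P3 := 33554432) (W3 := 16777216) (N0 := 3)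
    rfl rfl rfl k0_pp_022

noncomputable def f_pp_023 : ℕ → ℕ → ℕ → ℕ → Bool := onCell 0 536870912 1073741824 536870912 33554432 16777216
    (rowNK 3 0 true true true .up 0 2 3 (qsf 0 536870912 1073741824 536870912 3) ndN0q0 ndN3q2 pcN3 Cut.none Ext.none)

def k0_pp_023 : ∃ t, chk3 f_pp_023 t 1 1 1 = true :=
  ⟨(l 4), by decide +kernel⟩

theorem c_pp_023 : CertN 0 536870912 1073741824 536870912 33554432 16777216 3 true true true .up 0 2 3
    ndN0q0 ndN3q2 pcN3 Cut.none Ext.none :=
  certNK0 (fam := true) (s1 := true) (s2 := true) (a := 0) (b := 2) (c := 3) (cn := .up) (n1 := ndN0q0) (n2 := ndN3q2) (pc := pcN3) (cut := Cut.none) (xt := Ext.none) (P1 := 0) (W1 := 536870912) (P2 := 1073741824) (W2 := 536870912) (P3 := 33554432) (W3 := 16777216) (N0 := 3)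
    rfl rfl rfl k0_pp_023

noncomputable def f_pp_033 : ℕ → ℕ → ℕ → ℕ → Bool := onCell 0 536870912 0 1230186008 33554432 16777216
    (rowNK 3 0 true true true .pnn 0 3 3 (qsf 0 536870912 0 1230186008 3) ndN0q0 ndN3q3 pcN3 Cut.none Ext.none)

def k0_pp_033 : ∃ t, chk3 f_pp_033 t 1 1 1 = true :=
  ⟨(b (l 4) (l 4)), by decide +kernel⟩

theorem c_pp_033 : CertN 0 536870912 0 1230186008 33554432 16777216 3 true true true .pnn 0 3 3
    ndN0q0 ndN3q3 pcN3 Cut.none Ext.none :=
  certNK0 (fam := true) (s1 := true) (s2 := true) (a := 0) (b := 3) (c := 3) (cn := .pnn) (n1 := ndN0q0) (n2 := ndN3q3) (pc := pcN3) (cut := Cut.none) (xt := Ext.none) (P1 := 0) (W1 := 536870912) (P2 := 0) (W2 := 1230186008) (P3 := 33554432) (W3 := 16777216) (N0 := 3)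
    rfl rfl rfl k0_pp_033

noncomputable def f_pp_101 : ℕ → ℕ → ℕ → ℕ → Bool := onCell 536870912 536870912 0 536870912 33554432 16777216
    (rowNK 3 0 true true true .npn 1 0 1 (qsf 536870912 536870912 0 536870912 1) ndN0q1 ndN3q0 pcN1 Cut.none Ext.none)

def k0_pp_101 : ∃ t, chk3 f_pp_101 t 1 1 1 = true :=
  ⟨(l 4), by decide +kernel⟩

theorem c_pp_101 : CertN 536870912 536870912 0 536870912 33554432 16777216 3 true true true .npn 1 0 1
    ndN0q1 ndN3q0 pcN1 Cut.none Ext.none :=
  certNK0 (fam := true) (s1 := true) (s2 := true) (a := 1) (b := 0) (c := 1) (cn := .npn) (n1 := ndN0q1) (n2 := ndN3q0) (pc := pcN1) (cut := Cut.none) (xt := Ext.none) (P1 := 536870912) (W1 := 536870912) (P2 := 0) (W2 := 536870912) (P3 := 33554432) (W3 := 16777216) (N0 := 3)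
    rfl rfl rfl k0_pp_101

noncomputable def f_pp_102 : ℕ → ℕ → ℕ → ℕ → Bool := onCell 536870912 536870912 0 536870912 33554432 16777216
    (rowNK 3 0 true true true .npp 1 0 2 (qsf 536870912 536870912 0 536870912 2) ndN0q1 ndN3q0 pcN2 Cut.none Ext.none)

def k0_pp_102 : ∃ t, chk3 f_pp_102 t 1 1 1 = true :=
  ⟨(l 4), by decide +kernel⟩

theorem c_pp_102 : CertN 536870912 536870912 0 536870912 33554432 16777216 3 true true true .npp 1 0 2
    ndN0q1 ndN3q0 pcN2 Cut.none Ext.none :=
  certNK0 (fam := true) (s1 := true) (s2 := true) (a := 1) (b := 0) (c := 2) (cn := .npp) (n1 := ndN0q1) (n2 := ndN3q0) (pc := pcN2) (cut := Cut.none) (xt := Ext.none) (P1 := 536870912) (W1 := 536870912) (P2 := 0) (W2 := 536870912) (P3 := 33554432) (W3 := 16777216) (N0 := 3)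
    rfl rfl rfl k0_pp_102

noncomputable def f_pp_112 : ℕ → ℕ → ℕ → ℕ → Bool := onCell 536870912 536870912 536870912 536870912 33554432 16777216
    (rowNK 3 0 true true true .dn 1 1 2 (qsf 536870912 536870912 536870912 536870912 2) ndN0q1 ndN3q1 pcN2 Cut.none Ext.none)

def k0_pp_112 : ∃ t, chk3 f_pp_112 t 1 1 1 = true :=
  ⟨(l 4), by decide +kernel⟩

theorem c_pp_112 : CertN 536870912 536870912 536870912 536870912 33554432 16777216 3 true true true .dn 1 1 2
    ndN0q1 ndN3q1 pcN2 Cut.none Ext.none :=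
  certNK0 (fam := true) (s1 := true) (s2 := true) (a := 1) (b := 1) (c := 2) (cn := .dn) (n1 := ndN0q1) (n2 := ndN3q1) (pc := pcN2) (cut := Cut.none) (xt := Ext.none) (P1 := 536870912) (W1 := 536870912) (P2 := 536870912) (W2 := 536870912) (P3 := 33554432) (W3 := 16777216) (N0 := 3)
    rfl rfl rfl k0_pp_112

noncomputable def f_pp_113 : ℕ → ℕ → ℕ → ℕ → Bool := onCell 536870912 536870912 536870912 536870912 33554432 16777216
    (rowNK 3 0 true true true .nn 1 1 3 (qsf 536870912 536870912 536870912 536870912 3) ndN0q1 ndN3q1 pcN3 Cut.none Ext.none)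

def k0_pp_113 : ∃ t, chk3 f_pp_113 t 1 1 1 = true :=
  ⟨(l 4), by decide +kernel⟩

theorem c_pp_113 : CertN 536870912 536870912 536870912 536870912 33554432 16777216 3 true true true .nn 1 1 3
    ndN0q1 ndN3q1 pcN3 Cut.none Ext.none :=
  certNK0 (fam := true) (s1 := true) (s2 := true) (a := 1) (b := 1) (c := 3) (cn := .nn) (n1 := ndN0q1) (n2 := ndN3q1) (pc := pcN3) (cut := Cut.none) (xt := Ext.none) (P1 := 536870912) (W1 := 536870912) (P2 := 536870912) (W2 := 536870912) (P3 := 33554432) (W3 := 16777216) (N0 := 3)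
    rfl rfl rfl k0_pp_113

noncomputable def f_pp_123 : ℕ → ℕ → ℕ → ℕ → Bool := onCell 536870912 536870912 1073741824 536870912 33554432 16777216
    (rowNK 3 0 true true true .npn 1 2 3 (qsf 536870912 536870912 1073741824 536870912 3) ndN0q1 ndN3q2 pcN3 Cut.none Ext.none)

def k0_pp_123 : ∃ t, chk3 f_pp_123 t 1 1 1 = true :=
  ⟨(l 4), by decide +kernel⟩

theorem c_pp_123 : CertN 536870912 536870912 1073741824 536870912 33554432 16777216 3 true true true .npn 1 2 3
    ndN0q1 ndN3q2 pcN3 Cut.none Ext.none :=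
  certNK0 (fam := true) (s1 := true) (s2 := true) (a := 1) (b := 2) (c := 3) (cn := .npn) (n1 := ndN0q1) (n2 := ndN3q2) (pc := pcN3) (cut := Cut.none) (xt := Ext.none) (P1 := 536870912) (W1 := 536870912) (P2 := 1073741824) (W2 := 536870912) (P3 := 33554432) (W3 := 16777216) (N0 := 3)
    rfl rfl rfl k0_pp_123

noncomputable def f_pp_133 : ℕ → ℕ → ℕ → ℕ → Bool := onCell 536870912 536870912 0 1230186008 33554432 16777216
    (rowNK 3 0 true true true .dn 1 3 3 (qsf 536870912 536870912 0 1230186008 3) ndN0q1 ndN3q3 pcN3 Cut.none Ext.none)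

def k0_pp_133 : ∃ t, chk3 f_pp_133 t 1 1 1 = true :=
  ⟨(l 4), by decide +kernel⟩

theorem c_pp_133 : CertN 536870912 536870912 0 1230186008 33554432 16777216 3 true true true .dn 1 3 3
    ndN0q1 ndN3q3 pcN3 Cut.none Ext.none :=
  certNK0 (fam := true) (s1 := true) (s2 := true) (a := 1) (b := 3) (c := 3) (cn := .dn) (n1 := ndN0q1) (n2 := ndN3q3) (pc := pcN3) (cut := Cut.none) (xt := Ext.none) (P1 := 536870912) (W1 := 536870912) (P2 := 0) (W2 := 1230186008) (P3 := 33554432) (W3 := 16777216) (N0 := 3)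
    rfl rfl rfl k0_pp_133

noncomputable def f_pp_202 : ℕ → ℕ → ℕ → ℕ → Bool := onCell 0 536870912 0 536870912 33554432 16777216
    (rowNK 3 0 true true true .pp 2 0 2 (qsf 0 536870912 0 536870912 2) ndN0q2 ndN3q0 pcN2 Cut.none Ext.none)

def k0_pp_202 : ∃ t, chk3 f_pp_202 t 1 1 1 = true :=
  ⟨(l 5), by decide +kernel⟩

theorem c_pp_202 : CertN 0 536870912 0 536870912 33554432 16777216 3 true true true .pp 2 0 2
    ndN0q2 ndN3q0 pcN2 Cut.none Ext.none :=
  certNK0 (fam := true) (s1 := true) (s2 := true) (a := 2) (b := 0) (c := 2) (cn := .pp) (n1 := ndN0q2) (n2 := ndN3q0) (pc := pcN2) (cut := Cut.none) (xt := Ext.none) (P1 := 0) (W1 := 536870912) (P2 := 0) (W2 := 536870912) (P3 := 33554432) (W3 := 16777216) (N0 := 3)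
    rfl rfl rfl k0_pp_202

noncomputable def f_pp_203 : ℕ → ℕ → ℕ → ℕ → Bool := onCell 0 536870912 0 536870912 33554432 16777216
    (rowNK 3 0 true true true .up 2 0 3 (qsf 0 536870912 0 536870912 3) ndN0q2 ndN3q0 pcN3 Cut.none Ext.none)

def k0_pp_203 : ∃ t, chk3 f_pp_203 t 1 1 1 = true :=
  ⟨(l 5), by decide +kernel⟩

theorem c_pp_203 : CertN 0 536870912 0 536870912 33554432 16777216 3 true true true .up 2 0 3
    ndN0q2 ndN3q0 pcN3 Cut.none Ext.none :=
  certNK0 (fam := true) (s1 := true) (s2 := true) (a := 2) (b := 0) (c := 3) (cn := .up) (n1 := ndN0q2) (n2 := ndN3q0) (pc := pcN3) (cut := Cut.none) (xt := Ext.none) (P1 := 0) (W1 := 536870912) (P2 := 0) (W2 := 536870912) (P3 := 33554432) (W3 := 16777216) (N0 := 3)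
    rfl rfl rfl k0_pp_203

noncomputable def f_pp_213 : ℕ → ℕ → ℕ → ℕ → Bool := onCell 0 536870912 536870912 536870912 33554432 16777216
    (rowNK 3 0 true true true .pnn 2 1 3 (qsf 0 536870912 536870912 536870912 3) ndN0q2 ndN3q1 pcN3 Cut.none Ext.none)

def k0_pp_213 : ∃ t, chk3 f_pp_213 t 1 1 1 = true :=
  ⟨(l 4), by decide +kernel⟩

theorem c_pp_213 : CertN 0 536870912 536870912 536870912 33554432 16777216 3 true true true .pnn 2 1 3
    ndN0q2 ndN3q1 pcN3 Cut.none Ext.none :=
  certNK0 (fam := true) (s1 := true) (s2 := true) (a := 2) (b := 1) (c := 3) (cn := .pnn) (n1 := ndN0q2) (n2 := ndN3q1) (pc := pcN3) (cut := Cut.none) (xt := Ext.none) (P1 := 0) (W1 := 536870912) (P2 := 536870912) (W2 := 536870912) (P3 := 33554432) (W3 := 16777216) (N0 := 3)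
    rfl rfl rfl k0_pp_213

noncomputable def f_pm_001 : ℕ → ℕ → ℕ → ℕ → Bool := onCell 0 536870912 536870912 536870912 33554432 16777216
    (rowNK 3 1 true true false .up 0 0 1 (qsf 0 536870912 0 536870912 1) ndN0q0 ndN3q0 pcN1 Cut.none Ext.none)

def k0_pm_001 : ∃ t, chk3 f_pm_001 t 1 1 1 = true :=
  ⟨(b (l 3) (b (l 3) (a (l 2) (a (b (b (l 3) (l 2)) (l 2)) (a (b (b (l 3) (c (l 175727389255) (c (l 17398416) (l 17925520)))) (a (l 2) (c (l 18234168) (l 135930839415)))) (b (c (b (l 279343481735) (l 18380064)) (c (l 17586552) (c (l 17601336) (l 186463939031)))) (c (l 18599360) (c (l 17657680) (l 17638984))))))))), by decide +kernel⟩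

theorem c_pm_001 : CertN 0 536870912 0 536870912 33554432 16777216 3 true true false .up 0 0 1
    ndN0q0 ndN3q0 pcN1 Cut.none Ext.none :=
  certNK1 (fam := true) (s1 := true) (s2 := false) (a := 0) (b := 0) (c := 1) (cn := .up) (n1 := ndN0q0) (n2 := ndN3q0) (pc := pcN1) (cut := Cut.none) (xt := Ext.none) (P1 := 0) (W1 := 536870912) (P2 := 0) (W2 := 536870912) (P3 := 33554432) (W3 := 16777216) (N0 := 3)
    rfl rfl rfl (fun _ => rfl) k0_pm_001

noncomputable def cut_pm_011 : Cut := Cut.of [[⟨0, 0, 0, 33554432⟩, ⟨1, 1, 0, 33554432⟩, ⟨2, 1, 0, 33554432⟩]]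

noncomputable def f_pm_011 : ℕ → ℕ → ℕ → ℕ → Bool := onCell 536870912 536870912 536870912 536870912 33554432 16777216
    (rowNK 3 2 true true false .pnn 0 1 1 (qsf 0 536870912 536870912 536870912 1) ndN0q0 ndN3q1 pcN1 cut_pm_011 Ext.none)

def k0_pm_011 : ∃ t, chk3 f_pm_011 t 2 1 1 = true :=
  ⟨(l 3), by decide +kernel⟩

def k1_pm_011 : ∃ t, chk3 f_pm_011 t 6 1 1 = true :=
  ⟨(l 3), by decide +kernel⟩

def k2_pm_011 : ∃ t, chk3 f_pm_011 t 7 2 1 = true :=
  ⟨(b (a (a (l 3) (b (l 18228464) (l 205255113175))) (a (b (l 18565384) (l 18540696)) (l 18942272))) (b (a (l 3) (a (l 215456655063) (l 18845128))) (a (l 3) (a (a (l 303501969863) (l 18051568)) (l 18631088))))), by decide +kernel⟩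

def k3_pm_011 : ∃ t, chk3 f_pm_011 t 14 3 1 = true :=
  ⟨(l 3), by decide +kernel⟩

def k4_pm_011 : ∃ t, chk3 f_pm_011 t 30 3 1 = true :=
  ⟨(a (l 3) (b (b (b (l 17850648) (l 89826399783)) (b (l 3) (l 3))) (l 3))), by decide +kernel⟩

def k5_pm_011 : ∃ t, chk3 f_pm_011 t 31 6 1 = true :=
  ⟨(b (a (b (l 18213848) (l 18018664)) (l 18489736)) (a (b (l 17725552) (a (l 301890559975) (l 17690944))) (b (l 18242016) (l 18053528)))), by decide +kernel⟩

def k6_pm_011 : ∃ t, chk3 f_pm_011 t 31 14 1 = true :=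
  ⟨(b (a (a (l 3) (b (l 17485032) (l 252498191623))) (a (b (l 17753048) (l 17606888)) (l 17953968))) (b (a (l 3) (a (b (l 17478784) (l 28622637623)) (a (l 17651712) (l 17796840)))) (a (l 3) (a (a (b (l 111300524087) (l 3)) (b (l 17286856) (a (l 16274337399) (l 17161216)))) (b (a (l 17495960) (l 17641256)) (a (a (l 17273632) (l 17364936)) (a (l 17477024) (l 17525848)))))))), by decide +kernel⟩

def k7_pm_011 : ∃ t, chk3 f_pm_011 t 62 15 1 = true :=
  ⟨(l 3), by decide +kernel⟩

def k8_pm_011 : ∃ t, chk3 f_pm_011 t 126 15 1 = true :=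
  ⟨(b (b (a (l 3) (a (b (b (l 16952888) (l 3)) (l 3)) (b (c (l 17171064) (b (l 17063192) (b (l 17030488) (l 16930840)))) (b (c (l 17060520) (a (b (l 16904624) (l 3)) (b (l 16924264) (l 16822144)))) (a (l 3) (c (l 16956832) (a (b (l 16799984) (l 3)) (b (l 16806784) (l 16776296))))))))) (b (l 3) (l 3))) (l 3)), by decide +kernel⟩

def k9_pm_011 : ∃ t, chk3 f_pm_011 t 127 60 1 = true :=
  ⟨(a (b (b (a (l 17148160) (l 17234968)) (c (l 17291656) (a (b (l 17078168) (l 16995520)) (l 16998776)))) (c (b (a (l 17174152) (l 17245520)) (a (b (l 17110792) (l 17003840)) (l 17006112))) (b (a (a (b (l 16964712) (l 16859832)) (a (l 16831632) (l 16861656))) (b (l 16950392) (a (l 16914128) (l 16930736)))) (a (b (a (a (l 16813496) (l 16841168)) (a (l 16847864) (l 16854552))) (a (a (l 16770624) (l 16775384)) (a (l 16780136) (l 16784880)))) (b (a (l 16801656) (l 16814992)) (a (a (l 16789616) (l 16794352)) (c (l 16949976) (l 16768184)))))))) (b (b (a (l 17321600) (l 17366048)) (c (l 17443544)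 (a (l 17065248) (l 17026632)))) (a (a (c (l 17104440) (b (c (l 17102648) (l 16845752)) (b (l 16828280) (l 16768896)))) (c (l 17180256) (b (l 16887344) (b (l 16862496) (l 16778248))))) (a (c (l 17235032) (b (l 16926240) (b (l 16875688) (l 16787552)))) (c (l 17205752) (a (b (l 17002560) (l 16788240)) (b (l 16990496) (a (l 16834400) (l 16816232))))))))), by decide +kernel⟩

def k10_pm_011 : ∃ t, chk3 f_pm_011 t 127 122 1 = true :=
  ⟨(a (b (c (a (a (b (l 16965352) (a (l 16892928) (l 16905376))) (b (l 16993432) (l 16860944))) (b (l 16951560) (a (l 16906512) (l 16952024)))) (a (a (a (b (l 16771840) (l 3925858823)) (b (l 16771696) (l 1778371639))) (a (b (l 16774136) (l 16770120)) (b (l 16776576) (l 16766416)))) (b (b (a (l 16772872) (l 16778936)) (a (l 16766472) (l 16770024))) (b (a (l 16769800) (l 16770592)) (a (l 16774200) (l 16771096)))))) (b (a (a (a (l 3) (a (l 16771176) (l 16771584))) (b (c (l 16865280) (l 16769840)) (a (l 16769352) (l 16771880)))) (a (a (c (l 16825912)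 (l 16770256)) (l 16766880)) (a (l 16768832) (l 16766840)))) (a (a (l 3) (a (b (l 16775528) (l 16771952)) (a (l 16770744) (l 16768120)))) (b (a (a (l 16766824) (l 16767696)) (l 16766360)) (a (a (l 16771432) (l 16775152)) (a (l 16763160) (l 16761664))))))) (b (a (c (b (l 17049328) (a (l 16976512) (l 17000944))) (a (b (l 16759712) (a (l 16764712) (l 16764344))) (b (l 16763144) (l 16758520)))) (a (c (l 16953944) (b (l 16757352) (l 16762944))) (a (c (l 17057400) (l 16751912)) (c (l 17028464) (b (l 16784104) (l 16761824)))))) (a (b (b (a (c (l 16950632) (l 16768368)) (c (l 16971976) (l 16775848))) (a (l 16764640) (l 16769536))) (b (a (l 16765416) (l 16761792)) (a (l 16764688) (l 16767024)))) (a (a (a (l 16762632) (l 16763432)) (a (l 16764232) (l 16754544))) (a (a (l 16755336) (l 16756120)) (a (l 16756904) (l 16757672))))))), by decide +kernel⟩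

def k11_pm_011 : ∃ t, chk3 f_pm_011 t 127 123 1 = true :=
  ⟨(b (a (a (a (l 3) (b (a (b (l 16772368) (l 3)) (b (l 16773312) (l 16771056))) (a (l 3) (b (l 16771464) (l 16771904))))) (a (b (a (b (l 16771776) (l 16772120)) (a (l 16770800) (l 16770040))) (a (b (l 16772480) (l 16770224)) (b (l 16770944) (l 16771304)))) (b (a (a (l 16769280) (l 16768528)) (c (l 16768232) (l 16766984))) (b (a (l 16769424) (l 16767920)) (a (l 16769784) (l 16768272)))))) (a (a (a (b (l 16765912) (a (l 16766968) (l 16766224))) (b (l 16764440) (l 16765112))) (a (b (l 16762984) (l 16763648)) (b (l 16766776) (l 16762192)))) (a (a (b (l 16765344) (l 16765992)) (a (l 16759352) (l 16758640))) (a (a (l 16763184) (l 16762480)) (a (l 16761784) (l 16755848)))))) (a (a (l 3) (b (a (a (b (l 704627575) (c (l 1778374775) (l 16770904))) (b (l 16771672) (l 16769432))) (a (b (l 16770144) (l 16770520)) (a (l 16767880) (l 16768432)))) (a (a (b (c (l 2315241975) (l 16771376)) (l 3)) (b (c (l 16769976) (l 16769656))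 (a (l 16773240) (l 16767200)))) (a (b (l 16770896) (l 16767352)) (b (l 16769376) (l 16769760)))))) (a (a (a (a (b (l 16767680) (l 16764496)) (b (l 16766936) (l 16767672))) (a (b (l 16766192) (l 16766928)) (b (l 16765448) (l 16766176)))) (a (a (b (l 16764704) (l 16765432)) (b (l 16769216) (l 16764696))) (b (l 16762880) (a (l 16763960) (l 16768472))))) (a (a (b (l 16761424) (l 16762136)) (b (l 16765232) (l 16760696))) (a (a (l 16759264) (l 16758560)) (a (l 16757856) (a (l 16762568) (l 16762216)))))))), by decide +kernel⟩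

def k12_pm_011 : ∃ t, chk3 f_pm_011 t 127 31 1 = true :=
  ⟨(b (b (b (b (b (b (b (a (a (l 3) (a (a (l 3) (l 16773136)) (l 16767680))) (a (a (l 16767760) (l 16764776)) (a (l 16767096) (l 16764232)))) (l 6)) (l 6)) (l 6)) (l 6)) (l 6)) (l 6)) (l 6)), by decide +kernel⟩

theorem s13_pm_011 : ∃ t, chk3 f_pm_011 t 127 61 1 = true := ex3_b k10_pm_011 k11_pm_011

theorem s14_pm_011 : ∃ t, chk3 f_pm_011 t 127 30 1 = true := ex3_b k9_pm_011 s13_pm_011

theorem s15_pm_011 : ∃ t, chk3 f_pm_011 t 127 15 1 = true := ex3_b s14_pm_011 k12_pm_011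

theorem s16_pm_011 : ∃ t, chk3 f_pm_011 t 63 15 1 = true := ex3_a k8_pm_011 s15_pm_011

theorem s17_pm_011 : ∃ t, chk3 f_pm_011 t 31 15 1 = true := ex3_a k7_pm_011 s16_pm_011

theorem s18_pm_011 : ∃ t, chk3 f_pm_011 t 31 7 1 = true := ex3_b k6_pm_011 s17_pm_011

theorem s19_pm_011 : ∃ t, chk3 f_pm_011 t 31 3 1 = true := ex3_b k5_pm_011 s18_pm_011

theorem s20_pm_011 : ∃ t, chk3 f_pm_011 t 15 3 1 = true := ex3_a k4_pm_011 s19_pm_011

theorem s21_pm_011 : ∃ t, chk3 f_pm_011 t 7 3 1 = true := ex3_a k3_pm_011 s20_pm_011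

theorem s22_pm_011 : ∃ t, chk3 f_pm_011 t 7 1 1 = true := ex3_b k2_pm_011 s21_pm_011

theorem s23_pm_011 : ∃ t, chk3 f_pm_011 t 3 1 1 = true := ex3_a k1_pm_011 s22_pm_011

theorem s24_pm_011 : ∃ t, chk3 f_pm_011 t 1 1 1 = true := ex3_a k0_pm_011 s23_pm_011

theorem c_pm_011 : CertN 0 536870912 536870912 536870912 33554432 16777216 3 true true false .pnn 0 1 1
    ndN0q0 ndN3q1 pcN1 cut_pm_011 Ext.none :=
  certNK2 (fam := true) (s1 := true) (s2 := false) (a := 0) (b := 1) (c := 1) (cn := .pnn) (n1 := ndN0q0) (n2 := ndN3q1) (pc := pcN1) (cut := cut_pm_011) (xt := Ext.none) (P1 := 0) (W1 := 536870912) (P2 := 536870912) (W2 := 536870912) (P3 := 33554432) (W3 := 16777216) (N0 := 3)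
    rfl rfl rfl (fun _ => rfl) s24_pm_011

noncomputable def cut_pm_012 : Cut := Cut.of [[⟨0, 0, 0, 33554432⟩, ⟨1, 1, 0, 33554432⟩, ⟨2, 1, 0, 33554432⟩]]

noncomputable def f_pm_012 : ℕ → ℕ → ℕ → ℕ → Bool := onCell 1073741824 536870912 536870912 536870912 33554432 16777216
    (rowNK 3 2 true true false .pnp 0 1 2 (qsf 0 536870912 536870912 536870912 2) ndN0q0 ndN3q1 pcN2 cut_pm_012 Ext.none)

def k0_pm_012 : ∃ t, chk3 f_pm_012 t 2 2 1 = true :=
  ⟨(a (a (a (a (a (b (l 19125648) (l 19088752)) (b (l 19168008) (l 19146848))) (b (l 19207336) (l 19222840))) (b (l 19290616) (l 19312360))) (b (l 19347088) (l 19481392))) (b (a (l 19465136) (l 2)) (a (l 19611472) (l 19653736)))), by decide +kernel⟩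

def k1_pm_012 : ∃ t, chk3 f_pm_012 t 4 6 1 = true :=
  ⟨(a (a (a (a (b (l 18762680) (l 18482976)) (b (l 18871304) (l 18632496))) (b (l 19017112) (l 18840080))) (b (l 19259992) (l 19170352))) (b (l 19575248) (l 19618800))), by decide +kernel⟩

def k2_pm_012 : ∃ t, chk3 f_pm_012 t 64 14 1 = true :=
  ⟨(b (l 18218968) (b (l 18016864) (a (a (l 17553328) (l 17778448)) (l 17893200)))), by decide +kernel⟩

def k3_pm_012 : ∃ t, chk3 f_pm_012 t 64 60 1 = true :=
  ⟨(b (a (c (l 17664216) (a (b (l 17367656) (l 17161192)) (l 17361704))) (l 17435896)) (a (a (a (c (l 17297296) (b (a (l 16969560) (l 17054648)) (a (b (l 16869832) (l 16796728)) (b (l 16934368) (l 16840536))))) (c (l 17452520) (b (l 17067176) (b (l 16947648) (l 16833312))))) (c (l 17507048) (b (l 17113816) (c (l 17157616) (a (l 16888888) (l 16976944)))))) (c (l 17655968) (b (l 17186840) (a (l 16993376) (l 17235672)))))), by decide +kernel⟩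

def k4_pm_012 : ∃ t, chk3 f_pm_012 t 64 122 1 = true :=
  ⟨(a (c (a (b (a (b (l 17207552) (l 17031992)) (l 17142688)) (c (a (b (l 17202856) (l 17080560)) (l 17200440)) (a (a (b (l 16902416) (b (l 16856536) (l 16809224))) (b (l 16970736) (l 16838920))) (b (l 17010864) (l 16816848))))) (b (l 17202768) (c (l 17267128) (a (b (l 17107160) (l 16956320)) (l 17015224))))) (a (a (b (b (a (l 16759472) (l 16803472)) (a (l 16756632) (l 16779824))) (a (b (l 16763512) (c (l 16764424) (l 16743344))) (a (l 16763272) (l 16762832)))) (b (b (l 16775712) (l 16773448)) (b (l 16762528) (l 16762152)))) (b (a (a (l 16769656) (l 16794040)) (c (l 16993736) (l 16773112))) (a (b (l 16770064) (l 16760392)) (b (l 16799992) (l 16739656)))))) (c (b (l 17322744) (c (l 17421896) (a (l 17015824) (l 17317816)))) (b (a (b (l 16904232) (l 16780024)) (c (l 17256872) (l 16841456))) (a (a (l 16760832) (l 16772368)) (a (l 16805576) (l 16860248)))))), by decide +kernel⟩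

def k5_pm_012 : ∃ t, chk3 f_pm_012 t 64 123 1 = true :=
  ⟨(a (a (a (a (a (a (b (l 16764824) (a (l 16762808) (l 16767936))) (b (l 16765912) (l 16762520))) (a (b (l 16765688) (l 16762288)) (b (l 16765464) (l 16762064)))) (b (a (l 16765128) (l 16764680)) (b (l 16763648) (a (l 16767440) (l 16766984))))) (b (a (a (l 16764232) (l 16763792)) (a (l 16763344) (l 16762904))) (a (b (l 16765368) (l 16755816)) (a (l 16762528) (l 16759448))))) (b (a (a (a (l 16762456) (l 16763928)) (l 16761552)) (a (l 16761384) (l 16758968))) (b (a (a (l 16763568) (l 16762664)) (l 16761328)) (a (a (l 16764480) (l 16763576)) (c (l 16759472) (l 16741136)))))) (a (b (a (b (c (l 17011448) (l 16736848)) (l 16766936)) (c (c (l 17295816) (l 16860296)) (l 16756744))) (b (a (l 16759656) (l 16747648)) (a (l 16760536) (l 16759016)))) (b (c (c (l 17390200) (b (l 17188720) (l 16985512))) (a (l 16736816) (l 16775200))) (a (a (l 16757464) (l 16763552)) (l 16756048))))), by decide +kernel⟩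

def k6_pm_012 : ∃ t, chk3 f_pm_012 t 64 31 1 = true :=
  ⟨(b (a (b (a (b (b (a (a (a (a (l 16759216) (l 16748496)) (l 16758632)) (a (l 16758176) (l 16768192))) (a (l 16762264) (l 16756096))) (a (l 6) (a (l 6) (l 16757560)))) (l 6)) (b (a (a (b (l 16765664) (l 16756632)) (b (l 16764752) (l 16766192))) (a (a (l 16754296) (l 16753832)) (a (l 16753376) (l 16752920)))) (b (a (l 6) (a (l 6) (l 16744832))) (l 6)))) (l 6)) (b (a (b (a (b (l 16761680) (a (l 16742512) (l 16741728))) (b (l 16760144) (l 16761536))) (a (b (c (l 16748896) (l 16743456)) (l 6)) (b (l 16752472) (l 16748672)))) (a (b (b (l 16737656) (l 16739024)) (b (l 16740432) (l 16741856))) (a (b (l 16758168) (l 16741936)) (b (l 16757368) (l 16740464))))) (b (a (l 6) (a (l 6) (b (l 16741712) (l 6)))) (l 6)))) (l 6)), by decide +kernel⟩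

def k7_pm_012 : ∃ t, chk3 f_pm_012 t 65 7 1 = true :=
  ⟨(b (b (l 18424624) (b (l 18268712) (l 18112472))) (a (b (b (c (l 17949128) (b (l 17697048) (b (l 17555936) (l 17358160)))) (a (b (c (l 17506088) (b (l 17130392) (a (l 16915352) (l 16991576)))) (b (c (l 17180008) (b (l 16836488) (l 16786512))) (b (c (a (l 17110856) (l 17219288)) (l 16731360)) (l 16756096)))) (b (c (l 17719200) (b (l 17358176) (l 16990464))) (c (b (l 17470520) (b (l 17297232) (l 17091104))) (b (l 16755808) (b (l 16812272) (l 16728504))))))) (b (b (b (a (b (l 16754392) (a (l 16735688) (l 16733824))) (b (l 16751840) (l 16752008))) (a (a (a (l 16739528) (l 16747752)) (a (l 16746808) (l 16756352))) (b (l 16753328) (a (l 16734648) (l 16732768))))) (b (a (a (b (l 16739864) (l 6)) (b (l 16737944) (l 16739448))) (a (b (l 16736040) (l 16737520)) (a (l 16736656) (l 16735704)))) (a (l 6) (a (l 6) (b (l 16737112) (l 6)))))) (l 6))) (b (b (b (l 18020448) (l 17721952)) (c (b (l 17876952) (b (l 17628912) (a (l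 17276528) (l 17574280)))) (a (b (b (l 17459048) (l 17225840)) (b (l 16876304) (l 16745664))) (b (l 17260632) (b (l 17037216) (b (l 16967424) (l 16870760))))))) (a (b (b (b (b (c (l 17122080) (l 16725880)) (l 16758248)) (b (l 16728648) (l 16750928))) (b (b (c (l 16731488) (l 16731128)) (l 16735368)) (b (l 16737168) (c (l 16738504) (l 16738184))))) (l 6)) (b (b (b (b (c (l 17389968) (l 16822360)) (c (l 17153256) (l 16723488))) (b (l 16764952) (l 16726248))) (b (b (l 16748536) (a (l 16729912) (l 16728032))) (b (l 16733024) (c (l 16734672) (l 16731688))))) (a (l 6) (b (b (b (l 16732408) (l 6)) (l 6)) (l 6)))))))), by decide +kernel⟩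

def k8_pm_012 : ∃ t, chk3 f_pm_012 t 33 14 1 = true :=
  ⟨(b (l 18699464) (b (l 18602232) (l 18503296))), by decide +kernel⟩

def k9_pm_012 : ∃ t, chk3 f_pm_012 t 33 30 1 = true :=
  ⟨(b (a (b (l 18249584) (l 18063536)) (l 18484640)) (a (b (c (l 18172128) (a (l 17390712) (l 17835072))) (c (a (b (l 17919336) (l 17782704)) (l 18077856)) (a (a (b (l 17300664) (l 16935992)) (b (l 17477424) (l 17147208))) (b (l 17642448) (l 17226512))))) (c (l 18207496) (b (l 18103912) (a (l 17637152) (l 17988528)))))), by decide +kernel⟩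

def k10_pm_012 : ∃ t, chk3 f_pm_012 t 33 62 1 = true :=
  ⟨(a (b (a (a (b (c (l 17373568) (l 16773248)) (b (c (l 17205560) (l 16721312)) (l 16771904))) (c (b (l 17678368) (c (l 17639976) (l 17105296))) (b (l 16834520) (l 16753376)))) (b (c (l 17874040) (a (l 16975200) (l 17194952))) (a (c (l 17471240) (l 16791176)) (c (l 17762296) (l 16864584))))) (a (b (a (b (l 16724072) (l 16725448)) (b (l 16779176) (l 16722200))) (b (a (l 16726848) (l 16723568)) (a (l 16728280) (l 16724960)))) (a (b (b (c (l 17289920) (l 16717464)) (l 16786816)) (b (l 16720376) (l 16721728))) (b (c (c (l 17724856) (l 17158184)) (l 16737232)) (b (l 16794864) (l 16718584)))))) (b (c (a (l 17815232) (l 18280776)) (a (b (l 17326512) (a (l 17015424) (l 17243696))) (b (l 17778096) (l 17406512)))) (c (a (b (c (l 17954648) (l 17359624)) (c (b (l 17789296) (l 17636024)) (a (b (l 17297544) (l 17085224)) (l 17212400)))) (b (l 18059376) (c (l 18051224) (l 17470320)))) (b (a (a (l 16789464) (l 16874920)) (a (l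 17035840) (l 17293536))) (a (b (l 16762832) (l 16713688)) (c (b (l 17278376) (l 17018584)) (l 16710784))))))), by decide +kernel⟩

def k11_pm_012 : ∃ t, chk3 f_pm_012 t 33 63 1 = true :=
  ⟨(b (a (b (a (b (a (l 16729744) (l 16726384)) (a (l 16733888) (l 16727880))) (b (a (l 16723120) (l 16719936)) (a (l 16724576) (l 16721352)))) (a (b (a (l 6) (l 16729392)) (l 6)) (b (a (l 16726056) (l 16722800)) (a (l 16727560) (l 16724264))))) (b (a (a (b (l 16716840) (l 16718216)) (l 16717544)) (c (c (b (l 17876272) (l 17735456)) (b (l 17295920) (a (l 17100744) (l 17372192)))) (b (l 16770424) (l 16710344)))) (a (b (l 16720680) (l 16723400)) (b (l 16712280) (l 16713368))))) (b (a (a (l 6) (b (a (l 6) (l 16725760)) (l 6))) (a (a (b (l 16722504) (l 16723992)) (b (l 16719336) (l 16720784))) (b (l 16714728) (l 16718744)))) (a (l 6) (a (a (l 6) (b (l 16722256) (l 6))) (b (l 16721464) (b (l 16718616) (l 16719344))))))), by decide +kernel⟩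

def k12_pm_012 : ∃ t, chk3 f_pm_012 t 17 14 1 = true :=
  ⟨(b (l 19137128) (l 19118648)), by decide +kernel⟩

def k13_pm_012 : ∃ t, chk3 f_pm_012 t 17 30 1 = true :=
  ⟨(a (b (l 18859320) (a (b (l 18624064) (l 18501376)) (l 18858128))) (l 19245008)), by decide +kernel⟩

def k14_pm_012 : ∃ t, chk3 f_pm_012 t 17 31 1 = true :=
  ⟨(b (a (a (b (c (l 18594008) (a (l 17823248) (l 18144448))) (c (b (l 18435024) (l 18142832)) (a (b (l 17466536) (c (l 17513608) (b (l 17298248) (l 17107704)))) (b (l 17917208) (l 17527648))))) (c (l 18887688) (b (l 18435112) (b (l 18263488) (l 18071248))))) (b (l 19143168) (l 18945408))) (a (b (a (c (a (b (c (l 18148904) (l 17540320)) (c (b (l 17964568) (l 17815360)) (b (l 17352656) (a (l 17117960) (l 17423896))))) (b (l 18248640) (c (l 18247760) (l 17611656)))) (b (a (c (b (l 17346360) (l 17055688)) (l 16704352)) (c (l 17573640) (b (l 17338912) (l 17118864)))) (a (b (l 16779744) (l 16707152)) (c (b (l 17394792) (l 17073360)) (l 16704792)))))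 (c (b (l 18643584) (l 18426000)) (b (a (l 17589880) (l 18060144)) (a (c (l 17634944) (b (l 17380936) (l 17152448))) (l 17632304))))) (b (a (a (b (l 16724400) (l 16710168)) (c (c (b (l 18054200) (l 17896736)) (b (l 17410896) (a (l 17115936) (l 17477192)))) (b (l 16769856) (l 16704056)))) (c (c (l 18511088) (a (l 17684320) (l 18222056))) (a (c (b (l 17423672) (l 17092600)) (b (l 16942512) (l 16809752))) (c (l 17676552) (b (l 17424304) (l 17145560)))))) (b (a (a (l 16711512) (l 16717512)) (c (c (l 18334784) (a (l 17428736) (l 18023664))) (a (l 16761784) (c (l 17454016) (l 16925712))))) (a (a (b (l 16712536) (l 16713224)) (l 16707064)) (c (a (c (l 17979584) (a (l 17052784) (l 17490160))) (l 17914728)) (b (l 16747816) (l 16703712))))))) (a (b (c (l 19026496) (b (l 18425080) (l 18265440))) (c (b (l 18855632) (l 18608056)) (b (a (l 17675896) (l 18207120)) (a (c (l 17614560) (b (l 17469056) (l 17077232))) (c (l 18187544) (l 17631032)))))) (c (l 19325536) (b (l 18777232) (b (l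 18590032) (l 18379376))))))), by decide +kernel⟩

def k15_pm_012 : ∃ t, chk3 f_pm_012 t 9 7 1 = true :=
  ⟨(b (a (l 19587240) (l 19884736)) (b (a (l 19721824) (l 20123624)) (a (a (b (l 19586040) (b (l 19531832) (l 19444968))) (l 19950880)) (l 20336616)))), by decide +kernel⟩

def k16_pm_012 : ∃ t, chk3 f_pm_012 t 5 3 1 = true :=
  ⟨(b (a (l 19830104) (l 19927536)) (b (a (l 20129144) (l 20231704)) (a (b (l 20420624) (l 20700944)) (l 20637704)))), by decide +kernel⟩

def k17_pm_012 : ∃ t, chk3 f_pm_012 t 3 1 1 = true :=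
  ⟨(b (a (b (l 2) (l 19780400)) (l 2)) (a (b (a (l 19945592) (l 19929560)) (b (l 20239088) (l 20544232))) (b (a (l 19843424) (l 2)) (b (l 20117960) (l 20330224))))), by decide +kernel⟩

theorem s18_pm_012 : ∃ t, chk3 f_pm_012 t 17 15 1 = true := ex3_b k13_pm_012 k14_pm_012

theorem s19_pm_012 : ∃ t, chk3 f_pm_012 t 17 7 1 = true := ex3_b k12_pm_012 s18_pm_012

theorem s20_pm_012 : ∃ t, chk3 f_pm_012 t 33 31 1 = true := ex3_b k10_pm_012 k11_pm_012

theorem s21_pm_012 : ∃ t, chk3 f_pm_012 t 33 15 1 = true := ex3_b k9_pm_012 s20_pm_012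

theorem s22_pm_012 : ∃ t, chk3 f_pm_012 t 33 7 1 = true := ex3_b k8_pm_012 s21_pm_012

theorem s23_pm_012 : ∃ t, chk3 f_pm_012 t 64 61 1 = true := ex3_b k4_pm_012 k5_pm_012

theorem s24_pm_012 : ∃ t, chk3 f_pm_012 t 64 30 1 = true := ex3_b k3_pm_012 s23_pm_012

theorem s25_pm_012 : ∃ t, chk3 f_pm_012 t 64 15 1 = true := ex3_b s24_pm_012 k6_pm_012

theorem s26_pm_012 : ∃ t, chk3 f_pm_012 t 64 7 1 = true := ex3_b k2_pm_012 s25_pm_012

theorem s27_pm_012 : ∃ t, chk3 f_pm_012 t 32 7 1 = true := ex3_a s26_pm_012 k7_pm_012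

theorem s28_pm_012 : ∃ t, chk3 f_pm_012 t 16 7 1 = true := ex3_a s27_pm_012 s22_pm_012

theorem s29_pm_012 : ∃ t, chk3 f_pm_012 t 8 7 1 = true := ex3_a s28_pm_012 s19_pm_012

theorem s30_pm_012 : ∃ t, chk3 f_pm_012 t 4 7 1 = true := ex3_a s29_pm_012 k15_pm_012

theorem s31_pm_012 : ∃ t, chk3 f_pm_012 t 4 3 1 = true := ex3_b k1_pm_012 s30_pm_012

theorem s32_pm_012 : ∃ t, chk3 f_pm_012 t 2 3 1 = true := ex3_a s31_pm_012 k16_pm_012

theorem s33_pm_012 : ∃ t, chk3 f_pm_012 t 2 1 1 = true := ex3_b k0_pm_012 s32_pm_012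

theorem s34_pm_012 : ∃ t, chk3 f_pm_012 t 1 1 1 = true := ex3_a s33_pm_012 k17_pm_012

theorem c_pm_012 : CertN 0 536870912 536870912 536870912 33554432 16777216 3 true true false .pnp 0 1 2
    ndN0q0 ndN3q1 pcN2 cut_pm_012 Ext.none :=
  certNK2 (fam := true) (s1 := true) (s2 := false) (a := 0) (b := 1) (c := 2) (cn := .pnp) (n1 := ndN0q0) (n2 := ndN3q1) (pc := pcN2) (cut := cut_pm_012) (xt := Ext.none) (P1 := 0) (W1 := 536870912) (P2 := 536870912) (W2 := 536870912) (P3 := 33554432) (W3 := 16777216) (N0 := 3)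
    rfl rfl rfl (fun _ => rfl) s34_pm_012

noncomputable def f_pm_022 : ℕ → ℕ → ℕ → ℕ → Bool := onCell 0 536870912 1073741824 536870912 33554432 16777216
    (rowNK 3 1 true true false .pp 0 2 2 (qsf 0 536870912 1073741824 536870912 2) ndN0q0 ndN3q2 pcN2 Cut.none Ext.none)

def k0_pm_022 : ∃ t, chk3 f_pm_022 t 1 1 1 = true :=
  ⟨(b (b (l 3) (a (b (b (b (l 3) (b (l 3) (b (l 3) (a (a (l 19452200) (l 19343456)) (a (l 19286736) (l 1)))))) (a (l 19459400) (l 19279280))) (a (l 19555272) (l 19328008))) (b (l 1) (a (l 19129800) (l 1))))) (a (a (l 19529928) (l 19199776)) (a (l 18927472) (l 244314639095)))), by decide +kernel⟩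

theorem c_pm_022 : CertN 0 536870912 1073741824 536870912 33554432 16777216 3 true true false .pp 0 2 2
    ndN0q0 ndN3q2 pcN2 Cut.none Ext.none :=
  certNK1 (fam := true) (s1 := true) (s2 := false) (a := 0) (b := 2) (c := 2) (cn := .pp) (n1 := ndN0q0) (n2 := ndN3q2) (pc := pcN2) (cut := Cut.none) (xt := Ext.none) (P1 := 0) (W1 := 536870912) (P2 := 1073741824) (W2 := 536870912) (P3 := 33554432) (W3 := 16777216) (N0 := 3)
    rfl rfl rfl (fun _ => rfl) k0_pm_022

noncomputable def f_pm_023 : ℕ → ℕ → ℕ → ℕ → Bool := onCell 0 536870912 1073741824 536870912 33554432 16777216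
    (rowNK 3 0 true true false .up 0 2 3 (qsf 0 536870912 1073741824 536870912 3) ndN0q0 ndN3q2 pcN3 Cut.none Ext.none)

def k0_pm_023 : ∃ t, chk3 f_pm_023 t 1 1 1 = true :=
  ⟨(a (b (a (l 1) (l 243778482103)) (a (b (l 19226680) (l 18773400)) (b (l 18901408) (b (l 18564504) (l 18453136))))) (b (a (l 18780224) (l 18476472)) (b (a (l 18409800) (l 18229392)) (a (b (l 18134128) (l 18280152)) (b (a (l 18019296) (l 17988296)) (a (l 17896432) (a (l 17859216) (b (l 17837664) (b (l 17792160) (a (l 17775824) (b (l 17750568) (l 17734712)))))))))))), by decide +kernel⟩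

theorem c_pm_023 : CertN 0 536870912 1073741824 536870912 33554432 16777216 3 true true false .up 0 2 3
    ndN0q0 ndN3q2 pcN3 Cut.none Ext.none :=
  certNK0 (fam := true) (s1 := true) (s2 := false) (a := 0) (b := 2) (c := 3) (cn := .up) (n1 := ndN0q0) (n2 := ndN3q2) (pc := pcN3) (cut := Cut.none) (xt := Ext.none) (P1 := 0) (W1 := 536870912) (P2 := 1073741824) (W2 := 536870912) (P3 := 33554432) (W3 := 16777216) (N0 := 3)
    rfl rfl rfl k0_pm_023

noncomputable def f_pm_033 : ℕ → ℕ → ℕ → ℕ → Bool := onCell 1610612736 536870912 0 1230186008 33554432 16777216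
    (rowNK 3 2 true true false .pnn 0 3 3 (qsf 0 536870912 0 1230186008 3) ndN0q0 ndN3q3 pcN3 Cut.none Ext.none)

def k0_pm_033 : ∃ t, chk3 f_pm_033 t 1 1 1 = true :=
  ⟨(a (b (l 1) (b (a (l 1) (b (l 1) (l 18527344))) (b (a (l 1) (a (b (l 18911968) (l 18884592)) (l 18521952))) (a (b (l 18472440) (l 17930600)) (b (a (l 18526360) (l 18260480)) (a (l 17868912) (l 17727832))))))) (b (a (l 1) (a (l 18409936) (l 4))) (a (a (b (b (l 1) (l 18110416)) (b (l 18087856) (b (l 17861592) (b (l 17589376) (l 17316248))))) (b (l 18300640) (b (l 17655624) (b (l 17375112) (b (l 17160968) (l 17030552)))))) (b (a (l 17902952) (a (l 17702528) (l 4))) (a (b (l 17359616) (b (l 16966144) (l 16856728))) (a (b (l 17087584) (l 16932960)) (b (a (l 16974952) (l 4)) (a (l 16945824) (l 17143376))))))))), by decide +kernel⟩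

theorem c_pm_033 : CertN 0 536870912 0 1230186008 33554432 16777216 3 true true false .pnn 0 3 3
    ndN0q0 ndN3q3 pcN3 Cut.none Ext.none :=
  certNK2 (fam := true) (s1 := true) (s2 := false) (a := 0) (b := 3) (c := 3) (cn := .pnn) (n1 := ndN0q0) (n2 := ndN3q3) (pc := pcN3) (cut := Cut.none) (xt := Ext.none) (P1 := 0) (W1 := 536870912) (P2 := 0) (W2 := 1230186008) (P3 := 33554432) (W3 := 16777216) (N0 := 3)
    rfl rfl rfl (fun _ => rfl) k0_pm_033

noncomputable def f_pm_101 : ℕ → ℕ → ℕ → ℕ → Bool := onCell 536870912 536870912 536870912 536870912 33554432 16777216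
    (rowNK 3 1 true true false .npn 1 0 1 (qsf 536870912 536870912 0 536870912 1) ndN0q1 ndN3q0 pcN1 Cut.none Ext.none)

def k0_pm_101 : ∃ t, chk3 f_pm_101 t 1 1 1 = true :=
  ⟨(a (b (a (l 3) (b (a (b (l 1) (l 3)) (l 1)) (l 3))) (b (a (l 3) (b (l 3) (b (l 3) (a (c (l 158012202039) (c (l 17791152) (l 258940897799))) (c (l 19145400) (c (l 17876024) (l 17383912))))))) (a (b (c (a (b (l 132778363799) (l 18656808)) (b (l 18749280) (l 18827320))) (a (c (l 17822080) (a (l 184316275239) (l 163914919607))) (b (l 131166219655) (l 17730680)))) (a (c (l 18849824) (l 17805312)) (c (l 19058520) (l 17833040)))) (a (c (b (b (l 18975944) (l 19160344)) (l 19390960)) (b (c (l 18096728) (l 17574808)) (l 18182056))) (c (b (l 19519744) (l 19606056)) (b (c (l 18166120) (l 17575808)) (c (l 18413736) (l 17647184)))))))) (b (a (b (l 1) (a (b (l 1) (l 3)) (l 1))) (l 1)) (a (b (b (l 3) (b (a (l 3) (c (c (l 127412173911) (l 18936520)) (c (l 164990094663) (c (l 17655424) (l 17375080))))) (c (a (l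 19346624) (c (l 19823576) (l 19012360))) (a (c (l 17974360) (l 17422000)) (c (l 18227200) (l 56406981143)))))) (c (b (a (b (l 19606368) (l 19568128)) (c (l 20235576) (l 19370904))) (a (l 19807648) (l 20159672))) (b (a (c (l 18269816) (l 17616928)) (c (l 18529016) (l 42985729463))) (c (l 18914976) (a (l 17686592) (l 17886376)))))) (b (a (a (b (l 1) (b (l 1) (c (l 19888992) (l 387120618743)))) (l 1)) (l 1)) (c (b (a (b (l 20259736) (l 20276344)) (l 373703397831)) (a (l 20530176) (l 20783584))) (b (a (b (c (l 18736176) (l 17891336)) (l 18646416)) (c (l 19073136) (l 438660229351))) (a (l 18828352) (l 18853272)))))))), by decide +kernel⟩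

theorem c_pm_101 : CertN 536870912 536870912 0 536870912 33554432 16777216 3 true true false .npn 1 0 1
    ndN0q1 ndN3q0 pcN1 Cut.none Ext.none :=
  certNK1 (fam := true) (s1 := true) (s2 := false) (a := 1) (b := 0) (c := 1) (cn := .npn) (n1 := ndN0q1) (n2 := ndN3q0) (pc := pcN1) (cut := Cut.none) (xt := Ext.none) (P1 := 536870912) (W1 := 536870912) (P2 := 0) (W2 := 536870912) (P3 := 33554432) (W3 := 16777216) (N0 := 3)
    rfl rfl rfl (fun _ => rfl) k0_pm_101

noncomputable def f_pm_102 : ℕ → ℕ → ℕ → ℕ → Bool := onCell 536870912 536870912 1073741824 536870912 33554432 16777216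
    (rowNK 3 1 true true false .npp 1 0 2 (qsf 536870912 536870912 0 536870912 2) ndN0q1 ndN3q0 pcN2 Cut.none Ext.none)

def k0_pm_102 : ∃ t, chk3 f_pm_102 t 1 1 1 = true :=
  ⟨(a (b (c (b (b (b (b (b (a (l 19282296) (l 19704280)) (a (l 19220256) (l 19679520))) (a (l 19209536) (l 19640440))) (a (l 19161784) (l 19556400))) (a (l 33928176231) (l 19386496))) (a (l 18616944) (l 19172160))) (b (b (b (b (b (a (a (l 17698176) (l 17898632)) (c (l 18500072) (l 17721664))) (a (l 75265206679) (c (l 18484840) (l 17713760)))) (a (l 80096985943) (c (l 18460984) (l 17701128)))) (a (a (l 17678880) (l 17848248)) (l 18289848))) (a (l 17969832) (l 18152264))) (a (l 17859424) (l 17873136)))) (a (l 2) (b (l 18215792) (l 2)))) (b (a (b (b (b (b (b (c (l 20264384) (c (l 18853160) (l 17935752))) (c (l 20238960) (c (l 18835832) (l 17924472)))) (c (l 20198288) (c (l 18808648) (l 17906760)))) (c (l 20110536) (c (l 18750832) (l 17868816)))) (c (l 19992104) (c (l 18636464) (l 17797288)))) (c (a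 (l 19374232) (l 19689688)) (c (l 18394392) (l 17650296)))) (b (b (b (b (b (c (l 20978648) (a (l 18779240) (l 18970560))) (c (l 20950912) (a (l 18761088) (l 18952216)))) (c (l 20906864) (a (l 18732984) (l 18923560)))) (c (l 20814008) (a (l 18674144) (l 18863416)))) (c (l 20683264) (a (l 18557072) (l 18740808)))) (c (a (l 20039856) (l 20332688)) (a (l 18314016) (l 18484072))))) (a (b (c (l 19017968) (l 17745480)) (l 53790438151)) (b (c (l 19761568) (a (l 17931176) (l 18059792))) (c (l 18757264) (l 9229428807)))))), by decide +kernel⟩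

theorem c_pm_102 : CertN 536870912 536870912 0 536870912 33554432 16777216 3 true true false .npp 1 0 2
    ndN0q1 ndN3q0 pcN2 Cut.none Ext.none :=
  certNK1 (fam := true) (s1 := true) (s2 := false) (a := 1) (b := 0) (c := 2) (cn := .npp) (n1 := ndN0q1) (n2 := ndN3q0) (pc := pcN2) (cut := Cut.none) (xt := Ext.none) (P1 := 536870912) (W1 := 536870912) (P2 := 0) (W2 := 536870912) (P3 := 33554432) (W3 := 16777216) (N0 := 3)
    rfl rfl rfl (fun _ => rfl) k0_pm_102

noncomputable def f_pm_112 : ℕ → ℕ → ℕ → ℕ → Bool := onCell 536870912 536870912 1073741824 536870912 33554432 16777216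
    (rowNK 3 1 true true false .dn 1 1 2 (qsf 536870912 536870912 536870912 536870912 2) ndN0q1 ndN3q1 pcN2 Cut.none Ext.none)

def k0_pm_112 : ∃ t, chk3 f_pm_112 t 1 1 1 = true :=
  ⟨(a (a (b (b (b (b (b (b (l 19146368) (l 19164552)) (l 19190744)) (l 19239160)) (l 19341528)) (l 19538032)) (l 19884000)) (b (b (b (l 1) (l 19291432)) (l 19406704)) (l 19587200))) (b (b (l 1) (a (l 19286136) (l 1))) (a (b (l 19362656) (l 19366928)) (b (l 19259672) (l 19062776))))), by decide +kernel⟩

theorem c_pm_112 : CertN 536870912 536870912 536870912 536870912 33554432 16777216 3 true true false .dn 1 1 2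
    ndN0q1 ndN3q1 pcN2 Cut.none Ext.none :=
  certNK1 (fam := true) (s1 := true) (s2 := false) (a := 1) (b := 1) (c := 2) (cn := .dn) (n1 := ndN0q1) (n2 := ndN3q1) (pc := pcN2) (cut := Cut.none) (xt := Ext.none) (P1 := 536870912) (W1 := 536870912) (P2 := 536870912) (W2 := 536870912) (P3 := 33554432) (W3 := 16777216) (N0 := 3)
    rfl rfl rfl (fun _ => rfl) k0_pm_112

noncomputable def f_pm_113 : ℕ → ℕ → ℕ → ℕ → Bool := onCell 536870912 536870912 1610612736 536870912 33554432 16777216
    (rowNK 3 1 true true false .nn 1 1 3 (qsf 536870912 536870912 536870912 536870912 3) ndN0q1 ndN3q1 pcN3 Cut.none Ext.none)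

def k0_pm_113 : ∃ t, chk3 f_pm_113 t 1 1 1 = true :=
  ⟨(b (a (b (a (l 19706592) (l 18946592)) (a (l 19961328) (l 19256264))) (b (a (l 18659952) (l 18580144)) (a (l 18965208) (l 18460272)))) (b (a (a (l 2) (l 19783056)) (a (l 19025072) (l 4))) (a (l 2) (l 4)))), by decide +kernel⟩

theorem c_pm_113 : CertN 536870912 536870912 536870912 536870912 33554432 16777216 3 true true false .nn 1 1 3
    ndN0q1 ndN3q1 pcN3 Cut.none Ext.none :=
  certNK1 (fam := true) (s1 := true) (s2 := false) (a := 1) (b := 1) (c := 3) (cn := .nn) (n1 := ndN0q1) (n2 := ndN3q1) (pc := pcN3) (cut := Cut.none) (xt := Ext.none) (P1 := 536870912) (W1 := 536870912) (P2 := 536870912) (W2 := 536870912) (P3 := 33554432) (W3 := 16777216) (N0 := 3)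
    rfl rfl rfl (fun _ => rfl) k0_pm_113

noncomputable def f_pm_123 : ℕ → ℕ → ℕ → ℕ → Bool := onCell 536870912 536870912 1610612736 536870912 33554432 16777216
    (rowNK 3 1 true true false .npn 1 2 3 (qsf 536870912 536870912 1073741824 536870912 3) ndN0q1 ndN3q2 pcN3 Cut.none Ext.none)

def k0_pm_123 : ∃ t, chk3 f_pm_123 t 1 1 1 = true :=
  ⟨(b (a (a (a (l 18141928) (l 17730384)) (a (b (l 17640848) (l 17623368)) (b (l 1) (l 18109536)))) (a (b (l 1) (a (b (l 1) (l 18869752)) (l 1))) (l 1))) (b (a (a (l 17928192) (a (a (l 17589904) (l 17769424)) (b (l 18232304) (l 18085264)))) (a (a (b (b (l 18733176) (l 18569352)) (l 18286544)) (l 18241784)) (b (l 1) (a (l 17629952) (l 1))))) (a (b (a (a (l 17885704) (l 17750624)) (a (l 17662584) (l 17855024))) (b (a (l 17752400) (l 17635488)) (a (b (l 17707424) (l 17774896)) (b (l 17628768) (b (l 17606424) (l 17597704)))))) (b (a (l 17810992) (l 153580814535)) (b (a (l 17659288) (l 17421184)) (a (b (l 17613256) (b (l 17583552) (l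 17612032))) (b (l 17408224) (l 4)))))))), by decide +kernel⟩

theorem c_pm_123 : CertN 536870912 536870912 1073741824 536870912 33554432 16777216 3 true true false .npn 1 2 3
    ndN0q1 ndN3q2 pcN3 Cut.none Ext.none :=
  certNK1 (fam := true) (s1 := true) (s2 := false) (a := 1) (b := 2) (c := 3) (cn := .npn) (n1 := ndN0q1) (n2 := ndN3q2) (pc := pcN3) (cut := Cut.none) (xt := Ext.none) (P1 := 536870912) (W1 := 536870912) (P2 := 1073741824) (W2 := 536870912) (P3 := 33554432) (W3 := 16777216) (N0 := 3)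
    rfl rfl rfl (fun _ => rfl) k0_pm_123

noncomputable def f_pm_133 : ℕ → ℕ → ℕ → ℕ → Bool := onCell 536870912 536870912 0 1230186008 33554432 16777216
    (rowNK 3 0 true true false .dn 1 3 3 (qsf 536870912 536870912 0 1230186008 3) ndN0q1 ndN3q3 pcN3 Cut.none Ext.none)

def k0_pm_133 : ∃ t, chk3 f_pm_133 t 1 1 1 = true :=
  ⟨(b (l 2) (b (l 2) (a (b (l 2) (a (b (l 2) (l 4)) (l 2))) (l 2)))), by decide +kernel⟩

theorem c_pm_133 : CertN 536870912 536870912 0 1230186008 33554432 16777216 3 true true false .dn 1 3 3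
    ndN0q1 ndN3q3 pcN3 Cut.none Ext.none :=
  certNK0 (fam := true) (s1 := true) (s2 := false) (a := 1) (b := 3) (c := 3) (cn := .dn) (n1 := ndN0q1) (n2 := ndN3q3) (pc := pcN3) (cut := Cut.none) (xt := Ext.none) (P1 := 536870912) (W1 := 536870912) (P2 := 0) (W2 := 1230186008) (P3 := 33554432) (W3 := 16777216) (N0 := 3)
    rfl rfl rfl k0_pm_133

noncomputable def f_pm_202 : ℕ → ℕ → ℕ → ℕ → Bool := onCell 0 536870912 1073741824 536870912 33554432 16777216
    (rowNK 3 1 true true false .pp 2 0 2 (qsf 0 536870912 0 536870912 2) ndN0q2 ndN3q0 pcN2 Cut.none Ext.none)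

def k0_pm_202 : ∃ t, chk3 f_pm_202 t 1 1 1 = true :=
  ⟨(a (b (a (b (l 1) (b (l 19945808) (l 19697752))) (b (b (l 1) (c (l 20809632) (l 18765816))) (c (l 20569392) (b (l 18577304) (l 18388352))))) (b (b (c (l 20031512) (l 5069826727)) (c (l 19567576) (l 17707024))) (b (c (l 19113056) (l 17377224)) (l 4)))) (a (b (b (b (l 1) (c (l 20848248) (l 18844648))) (c (l 20562464) (b (l 18594640) (l 18426888)))) (b (c (l 19874216) (l 18293840)) (b (l 18335176) (l 17972896)))) (b (b (b (b (b (b (c (l 21193904) (l 18956496)) (c (l 21174784) (l 18946752))) (c (l 21142344) (l 18929992))) (c (l 21072640) (l 18893968))) (c (l 20920648) (l 19047400))) (c (l 20515496) (b (l 18654392) (l 18482408)))) (b (c (l 19829136) (l 18363912)) (c (l 18899168) (l 17559520)))))), by decide +kernel⟩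

theorem c_pm_202 : CertN 0 536870912 0 536870912 33554432 16777216 3 true true false .pp 2 0 2
    ndN0q2 ndN3q0 pcN2 Cut.none Ext.none :=
  certNK1 (fam := true) (s1 := true) (s2 := false) (a := 2) (b := 0) (c := 2) (cn := .pp) (n1 := ndN0q2) (n2 := ndN3q0) (pc := pcN2) (cut := Cut.none) (xt := Ext.none) (P1 := 0) (W1 := 536870912) (P2 := 0) (W2 := 536870912) (P3 := 33554432) (W3 := 16777216) (N0 := 3)
    rfl rfl rfl (fun _ => rfl) k0_pm_202

noncomputable def f_pm_203 : ℕ → ℕ → ℕ → ℕ → Bool := onCell 0 536870912 1610612736 536870912 33554432 16777216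
    (rowNK 3 1 true true false .up 2 0 3 (qsf 0 536870912 0 536870912 3) ndN0q2 ndN3q0 pcN3 Cut.none Ext.none)

def k0_pm_203 : ∃ t, chk3 f_pm_203 t 1 1 1 = true :=
  ⟨(b (a (l 4) (b (a (l 4) (b (l 17584496) (l 17406480))) (l 4))) (l 2)), by decide +kernel⟩

theorem c_pm_203 : CertN 0 536870912 0 536870912 33554432 16777216 3 true true false .up 2 0 3
    ndN0q2 ndN3q0 pcN3 Cut.none Ext.none :=
  certNK1 (fam := true) (s1 := true) (s2 := false) (a := 2) (b := 0) (c := 3) (cn := .up) (n1 := ndN0q2) (n2 := ndN3q0) (pc := pcN3) (cut := Cut.none) (xt := Ext.none) (P1 := 0) (W1 := 536870912) (P2 := 0) (W2 := 536870912) (P3 := 33554432) (W3 := 16777216) (N0 := 3)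
    rfl rfl rfl (fun _ => rfl) k0_pm_203

noncomputable def f_pm_213 : ℕ → ℕ → ℕ → ℕ → Bool := onCell 0 536870912 1610612736 536870912 33554432 16777216
    (rowNK 3 1 true true false .pnn 2 1 3 (qsf 0 536870912 536870912 536870912 3) ndN0q2 ndN3q1 pcN3 Cut.none Ext.none)

def k0_pm_213 : ∃ t, chk3 f_pm_213 t 1 1 1 = true :=
  ⟨(b (a (l 4) (b (a (l 4) (l 18575288)) (l 4))) (l 4)), by decide +kernel⟩

theorem c_pm_213 : CertN 0 536870912 536870912 536870912 33554432 16777216 3 true true false .pnn 2 1 3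
    ndN0q2 ndN3q1 pcN3 Cut.none Ext.none :=
  certNK1 (fam := true) (s1 := true) (s2 := false) (a := 2) (b := 1) (c := 3) (cn := .pnn) (n1 := ndN0q2) (n2 := ndN3q1) (pc := pcN3) (cut := Cut.none) (xt := Ext.none) (P1 := 0) (W1 := 536870912) (P2 := 536870912) (W2 := 536870912) (P3 := 33554432) (W3 := 16777216) (N0 := 3)
    rfl rfl rfl (fun _ => rfl) k0_pm_213

noncomputable def f_mm_001 : ℕ → ℕ → ℕ → ℕ → Bool := onCell 0 536870912 0 536870912 33554432 16777216
    (rowNK 3 0 true false false .up 0 0 1 (qsf 0 536870912 0 536870912 1) ndN0q0 ndN3q0 pcN1 Cut.none Ext.none)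

def k0_mm_001 : ∃ t, chk3 f_mm_001 t 1 1 1 = true :=
  ⟨(l 4), by decide +kernel⟩

theorem c_mm_001 : CertN 0 536870912 0 536870912 33554432 16777216 3 true false false .up 0 0 1
    ndN0q0 ndN3q0 pcN1 Cut.none Ext.none :=
  certNK0 (fam := true) (s1 := false) (s2 := false) (a := 0) (b := 0) (c := 1) (cn := .up) (n1 := ndN0q0) (n2 := ndN3q0) (pc := pcN1) (cut := Cut.none) (xt := Ext.none) (P1 := 0) (W1 := 536870912) (P2 := 0) (W2 := 536870912) (P3 := 33554432) (W3 := 16777216) (N0 := 3)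
    rfl rfl rfl k0_mm_001

noncomputable def f_mm_011 : ℕ → ℕ → ℕ → ℕ → Bool := onCell 0 536870912 536870912 536870912 33554432 16777216
    (rowNK 3 0 true false false .pnn 0 1 1 (qsf 0 536870912 536870912 536870912 1) ndN0q0 ndN3q1 pcN1 Cut.none Ext.none)

def k0_mm_011 : ∃ t, chk3 f_mm_011 t 1 1 1 = true :=
  ⟨(l 4), by decide +kernel⟩

theorem c_mm_011 : CertN 0 536870912 536870912 536870912 33554432 16777216 3 true false false .pnn 0 1 1
    ndN0q0 ndN3q1 pcN1 Cut.none Ext.none :=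
  certNK0 (fam := true) (s1 := false) (s2 := false) (a := 0) (b := 1) (c := 1) (cn := .pnn) (n1 := ndN0q0) (n2 := ndN3q1) (pc := pcN1) (cut := Cut.none) (xt := Ext.none) (P1 := 0) (W1 := 536870912) (P2 := 536870912) (W2 := 536870912) (P3 := 33554432) (W3 := 16777216) (N0 := 3)
    rfl rfl rfl k0_mm_011

noncomputable def f_mm_012 : ℕ → ℕ → ℕ → ℕ → Bool := onCell 0 536870912 536870912 536870912 33554432 16777216
    (rowNK 3 0 true false false .pnp 0 1 2 (qsf 0 536870912 536870912 536870912 2) ndN0q0 ndN3q1 pcN2 Cut.none Ext.none)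

def k0_mm_012 : ∃ t, chk3 f_mm_012 t 1 1 1 = true :=
  ⟨(l 4), by decide +kernel⟩

theorem c_mm_012 : CertN 0 536870912 536870912 536870912 33554432 16777216 3 true false false .pnp 0 1 2
    ndN0q0 ndN3q1 pcN2 Cut.none Ext.none :=
  certNK0 (fam := true) (s1 := false) (s2 := false) (a := 0) (b := 1) (c := 2) (cn := .pnp) (n1 := ndN0q0) (n2 := ndN3q1) (pc := pcN2) (cut := Cut.none) (xt := Ext.none) (P1 := 0) (W1 := 536870912) (P2 := 536870912) (W2 := 536870912) (P3 := 33554432) (W3 := 16777216) (N0 := 3)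
    rfl rfl rfl k0_mm_012

noncomputable def f_mm_022 : ℕ → ℕ → ℕ → ℕ → Bool := onCell 0 536870912 1073741824 536870912 33554432 16777216
    (rowNK 3 0 true false false .pp 0 2 2 (qsf 0 536870912 1073741824 536870912 2) ndN0q0 ndN3q2 pcN2 Cut.none Ext.none)

def k0_mm_022 : ∃ t, chk3 f_mm_022 t 1 1 1 = true :=
  ⟨(l 4), by decide +kernel⟩

theorem c_mm_022 : CertN 0 536870912 1073741824 536870912 33554432 16777216 3 true false false .pp 0 2 2
    ndN0q0 ndN3q2 pcN2 Cut.none Ext.none :=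
  certNK0 (fam := true) (s1 := false) (s2 := false) (a := 0) (b := 2) (c := 2) (cn := .pp) (n1 := ndN0q0) (n2 := ndN3q2) (pc := pcN2) (cut := Cut.none) (xt := Ext.none) (P1 := 0) (W1 := 536870912) (P2 := 1073741824) (W2 := 536870912) (P3 := 33554432) (W3 := 16777216) (N0 := 3)
    rfl rfl rfl k0_mm_022

noncomputable def f_mm_023 : ℕ → ℕ → ℕ → ℕ → Bool := onCell 0 536870912 1073741824 536870912 33554432 16777216
    (rowNK 3 0 true false false .up 0 2 3 (qsf 0 536870912 1073741824 536870912 3) ndN0q0 ndN3q2 pcN3 Cut.none Ext.none)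

def k0_mm_023 : ∃ t, chk3 f_mm_023 t 1 1 1 = true :=
  ⟨(l 4), by decide +kernel⟩

theorem c_mm_023 : CertN 0 536870912 1073741824 536870912 33554432 16777216 3 true false false .up 0 2 3
    ndN0q0 ndN3q2 pcN3 Cut.none Ext.none :=
  certNK0 (fam := true) (s1 := false) (s2 := false) (a := 0) (b := 2) (c := 3) (cn := .up) (n1 := ndN0q0) (n2 := ndN3q2) (pc := pcN3) (cut := Cut.none) (xt := Ext.none) (P1 := 0) (W1 := 536870912) (P2 := 1073741824) (W2 := 536870912) (P3 := 33554432) (W3 := 16777216) (N0 := 3)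
    rfl rfl rfl k0_mm_023

noncomputable def f_mm_033 : ℕ → ℕ → ℕ → ℕ → Bool := onCell 0 536870912 0 1230186008 33554432 16777216
    (rowNK 3 0 true false false .pnn 0 3 3 (qsf 0 536870912 0 1230186008 3) ndN0q0 ndN3q3 pcN3 Cut.none Ext.none)

def k0_mm_033 : ∃ t, chk3 f_mm_033 t 1 1 1 = true :=
  ⟨(l 5), by decide +kernel⟩

theorem c_mm_033 : CertN 0 536870912 0 1230186008 33554432 16777216 3 true false false .pnn 0 3 3
    ndN0q0 ndN3q3 pcN3 Cut.none Ext.none :=
  certNK0 (fam := true) (s1 := false) (s2 := false) (a := 0) (b := 3) (c := 3) (cn := .pnn) (n1 := ndN0q0) (n2 := ndN3q3) (pc := pcN3) (cut := Cut.none) (xt := Ext.none) (P1 := 0) (W1 := 536870912) (P2 := 0) (W2 := 1230186008) (P3 := 33554432) (W3 := 16777216) (N0 := 3)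
    rfl rfl rfl k0_mm_033

noncomputable def f_mm_101 : ℕ → ℕ → ℕ → ℕ → Bool := onCell 536870912 536870912 0 536870912 33554432 16777216
    (rowNK 3 0 true false false .npn 1 0 1 (qsf 536870912 536870912 0 536870912 1) ndN0q1 ndN3q0 pcN1 Cut.none Ext.none)

def k0_mm_101 : ∃ t, chk3 f_mm_101 t 1 1 1 = true :=
  ⟨(l 4), by decide +kernel⟩

theorem c_mm_101 : CertN 536870912 536870912 0 536870912 33554432 16777216 3 true false false .npn 1 0 1
    ndN0q1 ndN3q0 pcN1 Cut.none Ext.none :=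
  certNK0 (fam := true) (s1 := false) (s2 := false) (a := 1) (b := 0) (c := 1) (cn := .npn) (n1 := ndN0q1) (n2 := ndN3q0) (pc := pcN1) (cut := Cut.none) (xt := Ext.none) (P1 := 536870912) (W1 := 536870912) (P2 := 0) (W2 := 536870912) (P3 := 33554432) (W3 := 16777216) (N0 := 3)
    rfl rfl rfl k0_mm_101

noncomputable def f_mm_102 : ℕ → ℕ → ℕ → ℕ → Bool := onCell 536870912 536870912 0 536870912 33554432 16777216
    (rowNK 3 0 true false false .npp 1 0 2 (qsf 536870912 536870912 0 536870912 2) ndN0q1 ndN3q0 pcN2 Cut.none Ext.none)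

def k0_mm_102 : ∃ t, chk3 f_mm_102 t 1 1 1 = true :=
  ⟨(l 4), by decide +kernel⟩

theorem c_mm_102 : CertN 536870912 536870912 0 536870912 33554432 16777216 3 true false false .npp 1 0 2
    ndN0q1 ndN3q0 pcN2 Cut.none Ext.none :=
  certNK0 (fam := true) (s1 := false) (s2 := false) (a := 1) (b := 0) (c := 2) (cn := .npp) (n1 := ndN0q1) (n2 := ndN3q0) (pc := pcN2) (cut := Cut.none) (xt := Ext.none) (P1 := 536870912) (W1 := 536870912) (P2 := 0) (W2 := 536870912) (P3 := 33554432) (W3 := 16777216) (N0 := 3)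
    rfl rfl rfl k0_mm_102

noncomputable def f_mm_112 : ℕ → ℕ → ℕ → ℕ → Bool := onCell 536870912 536870912 536870912 536870912 33554432 16777216
    (rowNK 3 0 true false false .dn 1 1 2 (qsf 536870912 536870912 536870912 536870912 2) ndN0q1 ndN3q1 pcN2 Cut.none Ext.none)

def k0_mm_112 : ∃ t, chk3 f_mm_112 t 1 1 1 = true :=
  ⟨(l 4), by decide +kernel⟩

theorem c_mm_112 : CertN 536870912 536870912 536870912 536870912 33554432 16777216 3 true false false .dn 1 1 2
    ndN0q1 ndN3q1 pcN2 Cut.none Ext.none :=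
  certNK0 (fam := true) (s1 := false) (s2 := false) (a := 1) (b := 1) (c := 2) (cn := .dn) (n1 := ndN0q1) (n2 := ndN3q1) (pc := pcN2) (cut := Cut.none) (xt := Ext.none) (P1 := 536870912) (W1 := 536870912) (P2 := 536870912) (W2 := 536870912) (P3 := 33554432) (W3 := 16777216) (N0 := 3)
    rfl rfl rfl k0_mm_112

noncomputable def f_mm_113 : ℕ → ℕ → ℕ → ℕ → Bool := onCell 536870912 536870912 536870912 536870912 33554432 16777216
    (rowNK 3 0 true false false .nn 1 1 3 (qsf 536870912 536870912 536870912 536870912 3) ndN0q1 ndN3q1 pcN3 Cut.none Ext.none)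

def k0_mm_113 : ∃ t, chk3 f_mm_113 t 1 1 1 = true :=
  ⟨(l 4), by decide +kernel⟩

theorem c_mm_113 : CertN 536870912 536870912 536870912 536870912 33554432 16777216 3 true false false .nn 1 1 3
    ndN0q1 ndN3q1 pcN3 Cut.none Ext.none :=
  certNK0 (fam := true) (s1 := false) (s2 := false) (a := 1) (b := 1) (c := 3) (cn := .nn) (n1 := ndN0q1) (n2 := ndN3q1) (pc := pcN3) (cut := Cut.none) (xt := Ext.none) (P1 := 536870912) (W1 := 536870912) (P2 := 536870912) (W2 := 536870912) (P3 := 33554432) (W3 := 16777216) (N0 := 3)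
    rfl rfl rfl k0_mm_113

noncomputable def f_mm_123 : ℕ → ℕ → ℕ → ℕ → Bool := onCell 536870912 536870912 1073741824 536870912 33554432 16777216
    (rowNK 3 0 true false false .npn 1 2 3 (qsf 536870912 536870912 1073741824 536870912 3) ndN0q1 ndN3q2 pcN3 Cut.none Ext.none)

def k0_mm_123 : ∃ t, chk3 f_mm_123 t 1 1 1 = true :=
  ⟨(l 4), by decide +kernel⟩

theorem c_mm_123 : CertN 536870912 536870912 1073741824 536870912 33554432 16777216 3 true false false .npn 1 2 3
    ndN0q1 ndN3q2 pcN3 Cut.none Ext.none :=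
  certNK0 (fam := true) (s1 := false) (s2 := false) (a := 1) (b := 2) (c := 3) (cn := .npn) (n1 := ndN0q1) (n2 := ndN3q2) (pc := pcN3) (cut := Cut.none) (xt := Ext.none) (P1 := 536870912) (W1 := 536870912) (P2 := 1073741824) (W2 := 536870912) (P3 := 33554432) (W3 := 16777216) (N0 := 3)
    rfl rfl rfl k0_mm_123

noncomputable def f_mm_133 : ℕ → ℕ → ℕ → ℕ → Bool := onCell 536870912 536870912 0 1230186008 33554432 16777216
    (rowNK 3 0 true false false .dn 1 3 3 (qsf 536870912 536870912 0 1230186008 3) ndN0q1 ndN3q3 pcN3 Cut.none Ext.none)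

def k0_mm_133 : ∃ t, chk3 f_mm_133 t 1 1 1 = true :=
  ⟨(l 4), by decide +kernel⟩

theorem c_mm_133 : CertN 536870912 536870912 0 1230186008 33554432 16777216 3 true false false .dn 1 3 3
    ndN0q1 ndN3q3 pcN3 Cut.none Ext.none :=
  certNK0 (fam := true) (s1 := false) (s2 := false) (a := 1) (b := 3) (c := 3) (cn := .dn) (n1 := ndN0q1) (n2 := ndN3q3) (pc := pcN3) (cut := Cut.none) (xt := Ext.none) (P1 := 536870912) (W1 := 536870912) (P2 := 0) (W2 := 1230186008) (P3 := 33554432) (W3 := 16777216) (N0 := 3)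
    rfl rfl rfl k0_mm_133

noncomputable def f_mm_202 : ℕ → ℕ → ℕ → ℕ → Bool := onCell 0 536870912 0 536870912 33554432 16777216
    (rowNK 3 0 true false false .pp 2 0 2 (qsf 0 536870912 0 536870912 2) ndN0q2 ndN3q0 pcN2 Cut.none Ext.none)

def k0_mm_202 : ∃ t, chk3 f_mm_202 t 1 1 1 = true :=
  ⟨(b (a (b (b (a (c (l 20618704) (l 18516312)) (l 4)) (l 4)) (l 4)) (l 4)) (l 4)), by decide +kernel⟩

theorem c_mm_202 : CertN 0 536870912 0 536870912 33554432 16777216 3 true false false .pp 2 0 2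
    ndN0q2 ndN3q0 pcN2 Cut.none Ext.none :=
  certNK0 (fam := true) (s1 := false) (s2 := false) (a := 2) (b := 0) (c := 2) (cn := .pp) (n1 := ndN0q2) (n2 := ndN3q0) (pc := pcN2) (cut := Cut.none) (xt := Ext.none) (P1 := 0) (W1 := 536870912) (P2 := 0) (W2 := 536870912) (P3 := 33554432) (W3 := 16777216) (N0 := 3)
    rfl rfl rfl k0_mm_202

noncomputable def f_mm_203 : ℕ → ℕ → ℕ → ℕ → Bool := onCell 0 536870912 1610612736 536870912 33554432 16777216
    (rowNK 3 1 true false false .up 2 0 3 (qsf 0 536870912 0 536870912 3) ndN0q2 ndN3q0 pcN3 Cut.none Ext.none)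

def k0_mm_203 : ∃ t, chk3 f_mm_203 t 1 1 1 = true :=
  ⟨(l 4), by decide +kernel⟩

theorem c_mm_203 : CertN 0 536870912 0 536870912 33554432 16777216 3 true false false .up 2 0 3
    ndN0q2 ndN3q0 pcN3 Cut.none Ext.none :=
  certNK1 (fam := true) (s1 := false) (s2 := false) (a := 2) (b := 0) (c := 3) (cn := .up) (n1 := ndN0q2) (n2 := ndN3q0) (pc := pcN3) (cut := Cut.none) (xt := Ext.none) (P1 := 0) (W1 := 536870912) (P2 := 0) (W2 := 536870912) (P3 := 33554432) (W3 := 16777216) (N0 := 3)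
    rfl rfl rfl (fun _ => rfl) k0_mm_203

noncomputable def f_mm_213 : ℕ → ℕ → ℕ → ℕ → Bool := onCell 0 536870912 536870912 536870912 33554432 16777216
    (rowNK 3 0 true false false .pnn 2 1 3 (qsf 0 536870912 536870912 536870912 3) ndN0q2 ndN3q1 pcN3 Cut.none Ext.none)

def k0_mm_213 : ∃ t, chk3 f_mm_213 t 1 1 1 = true :=
  ⟨(l 4), by decide +kernel⟩

theorem c_mm_213 : CertN 0 536870912 536870912 536870912 33554432 16777216 3 true false false .pnn 2 1 3
    ndN0q2 ndN3q1 pcN3 Cut.none Ext.none :=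
  certNK0 (fam := true) (s1 := false) (s2 := false) (a := 2) (b := 1) (c := 3) (cn := .pnn) (n1 := ndN0q2) (n2 := ndN3q1) (pc := pcN3) (cut := Cut.none) (xt := Ext.none) (P1 := 0) (W1 := 536870912) (P2 := 536870912) (W2 := 536870912) (P3 := 33554432) (W3 := 16777216) (N0 := 3)
    rfl rfl rfl k0_mm_213

end Pool.Agent.Strip051.G.I1_32_3_64.Tab.C.NA03

namespace Pool.Agent.Strip051.G.I1_32_3_64.Tab.C.NA04

open Pool.Agent.Strip051.PB Pool.Agent.Strip051.PB.T
open Pool.Agent.Strip051.G.I1_32_3_64.Tab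

noncomputable def f_pp_001 : ℕ → ℕ → ℕ → ℕ → Bool := onCell 0 536870912 0 536870912 33554432 16777216
    (rowNK 3 0 true true true .up 0 0 1 (qsf 0 536870912 0 536870912 1) ndN0q0 ndN4q0 pcN1 Cut.none Ext.none)

def k0_pp_001 : ∃ t, chk3 f_pp_001 t 1 1 1 = true :=
  ⟨(l 4), by decide +kernel⟩

theorem c_pp_001 : CertN 0 536870912 0 536870912 33554432 16777216 3 true true true .up 0 0 1
    ndN0q0 ndN4q0 pcN1 Cut.none Ext.none :=
  certNK0 (fam := true) (s1 := true) (s2 := true) (a := 0) (b := 0) (c := 1) (cn := .up) (n1 := ndN0q0) (n2 := ndN4q0) (pc := pcN1) (cut := Cut.none) (xt := Ext.none) (P1 := 0) (W1 := 536870912) (P2 := 0) (W2 := 536870912) (P3 := 33554432) (W3 := 16777216) (N0 := 3)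
    rfl rfl rfl k0_pp_001

noncomputable def f_pp_011 : ℕ → ℕ → ℕ → ℕ → Bool := onCell 0 536870912 536870912 536870912 33554432 16777216
    (rowNK 3 0 true true true .pnn 0 1 1 (qsf 0 536870912 536870912 536870912 1) ndN0q0 ndN4q1 pcN1 Cut.none Ext.none)

def k0_pp_011 : ∃ t, chk3 f_pp_011 t 1 1 1 = true :=
  ⟨(l 4), by decide +kernel⟩

theorem c_pp_011 : CertN 0 536870912 536870912 536870912 33554432 16777216 3 true true true .pnn 0 1 1
    ndN0q0 ndN4q1 pcN1 Cut.none Ext.none :=
  certNK0 (fam := true) (s1 := true) (s2 := true) (a := 0) (b := 1) (c := 1) (cn := .pnn) (n1 := ndN0q0) (n2 := ndN4q1) (pc := pcN1) (cut := Cut.none) (xt := Ext.none) (P1 := 0) (W1 := 536870912) (P2 := 536870912) (W2 := 536870912) (P3 := 33554432) (W3 := 16777216) (N0 := 3)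
    rfl rfl rfl k0_pp_011

noncomputable def f_pp_012 : ℕ → ℕ → ℕ → ℕ → Bool := onCell 0 536870912 536870912 536870912 33554432 16777216
    (rowNK 3 0 true true true .pnp 0 1 2 (qsf 0 536870912 536870912 536870912 2) ndN0q0 ndN4q1 pcN2 Cut.none Ext.none)

def k0_pp_012 : ∃ t, chk3 f_pp_012 t 1 1 1 = true :=
  ⟨(l 4), by decide +kernel⟩

theorem c_pp_012 : CertN 0 536870912 536870912 536870912 33554432 16777216 3 true true true .pnp 0 1 2
    ndN0q0 ndN4q1 pcN2 Cut.none Ext.none :=
  certNK0 (fam := true) (s1 := true) (s2 := true) (a := 0) (b := 1) (c := 2) (cn := .pnp) (n1 := ndN0q0) (n2 := ndN4q1) (pc := pcN2) (cut := Cut.none) (xt := Ext.none) (P1 := 0) (W1 := 536870912) (P2 := 536870912) (W2 := 536870912) (P3 := 33554432) (W3 := 16777216) (N0 := 3)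
    rfl rfl rfl k0_pp_012

noncomputable def f_pp_022 : ℕ → ℕ → ℕ → ℕ → Bool := onCell 0 536870912 1073741824 536870912 33554432 16777216
    (rowNK 3 0 true true true .pp 0 2 2 (qsf 0 536870912 1073741824 536870912 2) ndN0q0 ndN4q2 pcN2 Cut.none Ext.none)

def k0_pp_022 : ∃ t, chk3 f_pp_022 t 1 1 1 = true :=
  ⟨(l 4), by decide +kernel⟩

theorem c_pp_022 : CertN 0 536870912 1073741824 536870912 33554432 16777216 3 true true true .pp 0 2 2
    ndN0q0 ndN4q2 pcN2 Cut.none Ext.none :=
  certNK0 (fam := true) (s1 := true) (s2 := true) (a := 0) (b := 2) (c := 2) (cn := .pp) (n1 := ndN0q0) (n2 := ndN4q2) (pc := pcN2) (cut := Cut.none) (xt := Ext.none) (P1 := 0) (W1 := 536870912) (P2 := 1073741824) (W2 := 536870912) (P3 := 33554432) (W3 := 16777216) (N0 := 3)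
    rfl rfl rfl k0_pp_022

noncomputable def f_pp_023 : ℕ → ℕ → ℕ → ℕ → Bool := onCell 0 536870912 1073741824 536870912 33554432 16777216
    (rowNK 3 0 true true true .up 0 2 3 (qsf 0 536870912 1073741824 536870912 3) ndN0q0 ndN4q2 pcN3 Cut.none Ext.none)

def k0_pp_023 : ∃ t, chk3 f_pp_023 t 1 1 1 = true :=
  ⟨(l 4), by decide +kernel⟩

theorem c_pp_023 : CertN 0 536870912 1073741824 536870912 33554432 16777216 3 true true true .up 0 2 3
    ndN0q0 ndN4q2 pcN3 Cut.none Ext.none :=
  certNK0 (fam := true) (s1 := true) (s2 := true) (a := 0) (b := 2) (c := 3) (cn := .up) (n1 := ndN0q0) (n2 := ndN4q2) (pc := pcN3) (cut := Cut.none) (xt := Ext.none) (P1 := 0) (W1 := 536870912) (P2 := 1073741824) (W2 := 536870912) (P3 := 33554432) (W3 := 16777216) (N0 := 3)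
    rfl rfl rfl k0_pp_023

noncomputable def f_pp_033 : ℕ → ℕ → ℕ → ℕ → Bool := onCell 0 536870912 0 1230186008 33554432 16777216
    (rowNK 3 0 true true true .pnn 0 3 3 (qsf 0 536870912 0 1230186008 3) ndN0q0 ndN4q3 pcN3 Cut.none Ext.none)

def k0_pp_033 : ∃ t, chk3 f_pp_033 t 1 1 1 = true :=
  ⟨(l 4), by decide +kernel⟩

theorem c_pp_033 : CertN 0 536870912 0 1230186008 33554432 16777216 3 true true true .pnn 0 3 3
    ndN0q0 ndN4q3 pcN3 Cut.none Ext.none :=
  certNK0 (fam := true) (s1 := true) (s2 := true) (a := 0) (b := 3) (c := 3) (cn := .pnn) (n1 := ndN0q0) (n2 := ndN4q3) (pc := pcN3) (cut := Cut.none) (xt := Ext.none) (P1 := 0) (W1 := 536870912) (P2 := 0) (W2 := 1230186008) (P3 := 33554432) (W3 := 16777216) (N0 := 3)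
    rfl rfl rfl k0_pp_033

noncomputable def f_pp_101 : ℕ → ℕ → ℕ → ℕ → Bool := onCell 536870912 536870912 0 536870912 33554432 16777216
    (rowNK 3 0 true true true .npn 1 0 1 (qsf 536870912 536870912 0 536870912 1) ndN0q1 ndN4q0 pcN1 Cut.none Ext.none)

def k0_pp_101 : ∃ t, chk3 f_pp_101 t 1 1 1 = true :=
  ⟨(l 4), by decide +kernel⟩

theorem c_pp_101 : CertN 536870912 536870912 0 536870912 33554432 16777216 3 true true true .npn 1 0 1
    ndN0q1 ndN4q0 pcN1 Cut.none Ext.none :=
  certNK0 (fam := true) (s1 := true) (s2 := true) (a := 1) (b := 0) (c := 1) (cn := .npn) (n1 := ndN0q1) (n2 := ndN4q0) (pc := pcN1) (cut := Cut.none) (xt := Ext.none) (P1 := 536870912) (W1 := 536870912) (P2 := 0) (W2 := 536870912) (P3 := 33554432) (W3 := 16777216) (N0 := 3)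
    rfl rfl rfl k0_pp_101

noncomputable def f_pp_102 : ℕ → ℕ → ℕ → ℕ → Bool := onCell 536870912 536870912 0 536870912 33554432 16777216
    (rowNK 3 0 true true true .npp 1 0 2 (qsf 536870912 536870912 0 536870912 2) ndN0q1 ndN4q0 pcN2 Cut.none Ext.none)

def k0_pp_102 : ∃ t, chk3 f_pp_102 t 1 1 1 = true :=
  ⟨(l 4), by decide +kernel⟩

theorem c_pp_102 : CertN 536870912 536870912 0 536870912 33554432 16777216 3 true true true .npp 1 0 2
    ndN0q1 ndN4q0 pcN2 Cut.none Ext.none :=
  certNK0 (fam := true) (s1 := true) (s2 := true) (a := 1) (b := 0) (c := 2) (cn := .npp) (n1 := ndN0q1) (n2 := ndN4q0) (pc := pcN2) (cut := Cut.none) (xt := Ext.none) (P1 := 536870912) (W1 := 536870912) (P2 := 0) (W2 := 536870912) (P3 := 33554432) (W3 := 16777216) (N0 := 3)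
    rfl rfl rfl k0_pp_102

noncomputable def f_pp_112 : ℕ → ℕ → ℕ → ℕ → Bool := onCell 536870912 536870912 536870912 536870912 33554432 16777216
    (rowNK 3 0 true true true .dn 1 1 2 (qsf 536870912 536870912 536870912 536870912 2) ndN0q1 ndN4q1 pcN2 Cut.none Ext.none)

def k0_pp_112 : ∃ t, chk3 f_pp_112 t 1 1 1 = true :=
  ⟨(l 4), by decide +kernel⟩

theorem c_pp_112 : CertN 536870912 536870912 536870912 536870912 33554432 16777216 3 true true true .dn 1 1 2
    ndN0q1 ndN4q1 pcN2 Cut.none Ext.none :=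
  certNK0 (fam := true) (s1 := true) (s2 := true) (a := 1) (b := 1) (c := 2) (cn := .dn) (n1 := ndN0q1) (n2 := ndN4q1) (pc := pcN2) (cut := Cut.none) (xt := Ext.none) (P1 := 536870912) (W1 := 536870912) (P2 := 536870912) (W2 := 536870912) (P3 := 33554432) (W3 := 16777216) (N0 := 3)
    rfl rfl rfl k0_pp_112

noncomputable def f_pp_113 : ℕ → ℕ → ℕ → ℕ → Bool := onCell 536870912 536870912 536870912 536870912 33554432 16777216
    (rowNK 3 0 true true true .nn 1 1 3 (qsf 536870912 536870912 536870912 536870912 3) ndN0q1 ndN4q1 pcN3 Cut.none Ext.none)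

def k0_pp_113 : ∃ t, chk3 f_pp_113 t 1 1 1 = true :=
  ⟨(l 4), by decide +kernel⟩

theorem c_pp_113 : CertN 536870912 536870912 536870912 536870912 33554432 16777216 3 true true true .nn 1 1 3
    ndN0q1 ndN4q1 pcN3 Cut.none Ext.none :=
  certNK0 (fam := true) (s1 := true) (s2 := true) (a := 1) (b := 1) (c := 3) (cn := .nn) (n1 := ndN0q1) (n2 := ndN4q1) (pc := pcN3) (cut := Cut.none) (xt := Ext.none) (P1 := 536870912) (W1 := 536870912) (P2 := 536870912) (W2 := 536870912) (P3 := 33554432) (W3 := 16777216) (N0 := 3)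
    rfl rfl rfl k0_pp_113

noncomputable def f_pp_123 : ℕ → ℕ → ℕ → ℕ → Bool := onCell 536870912 536870912 1073741824 536870912 33554432 16777216
    (rowNK 3 0 true true true .npn 1 2 3 (qsf 536870912 536870912 1073741824 536870912 3) ndN0q1 ndN4q2 pcN3 Cut.none Ext.none)

def k0_pp_123 : ∃ t, chk3 f_pp_123 t 1 1 1 = true :=
  ⟨(l 4), by decide +kernel⟩

theorem c_pp_123 : CertN 536870912 536870912 1073741824 536870912 33554432 16777216 3 true true true .npn 1 2 3
    ndN0q1 ndN4q2 pcN3 Cut.none Ext.none :=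
  certNK0 (fam := true) (s1 := true) (s2 := true) (a := 1) (b := 2) (c := 3) (cn := .npn) (n1 := ndN0q1) (n2 := ndN4q2) (pc := pcN3) (cut := Cut.none) (xt := Ext.none) (P1 := 536870912) (W1 := 536870912) (P2 := 1073741824) (W2 := 536870912) (P3 := 33554432) (W3 := 16777216) (N0 := 3)
    rfl rfl rfl k0_pp_123

noncomputable def f_pp_133 : ℕ → ℕ → ℕ → ℕ → Bool := onCell 536870912 536870912 0 1230186008 33554432 16777216
    (rowNK 3 0 true true true .dn 1 3 3 (qsf 536870912 536870912 0 1230186008 3) ndN0q1 ndN4q3 pcN3 Cut.none Ext.none)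

def k0_pp_133 : ∃ t, chk3 f_pp_133 t 1 1 1 = true :=
  ⟨(l 4), by decide +kernel⟩

theorem c_pp_133 : CertN 536870912 536870912 0 1230186008 33554432 16777216 3 true true true .dn 1 3 3
    ndN0q1 ndN4q3 pcN3 Cut.none Ext.none :=
  certNK0 (fam := true) (s1 := true) (s2 := true) (a := 1) (b := 3) (c := 3) (cn := .dn) (n1 := ndN0q1) (n2 := ndN4q3) (pc := pcN3) (cut := Cut.none) (xt := Ext.none) (P1 := 536870912) (W1 := 536870912) (P2 := 0) (W2 := 1230186008) (P3 := 33554432) (W3 := 16777216) (N0 := 3)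
    rfl rfl rfl k0_pp_133

noncomputable def f_pp_202 : ℕ → ℕ → ℕ → ℕ → Bool := onCell 0 536870912 0 536870912 33554432 16777216
    (rowNK 3 0 true true true .pp 2 0 2 (qsf 0 536870912 0 536870912 2) ndN0q2 ndN4q0 pcN2 Cut.none Ext.none)

def k0_pp_202 : ∃ t, chk3 f_pp_202 t 1 1 1 = true :=
  ⟨(l 4), by decide +kernel⟩

theorem c_pp_202 : CertN 0 536870912 0 536870912 33554432 16777216 3 true true true .pp 2 0 2
    ndN0q2 ndN4q0 pcN2 Cut.none Ext.none :=
  certNK0 (fam := true) (s1 := true) (s2 := true) (a := 2) (b := 0) (c := 2) (cn := .pp) (n1 := ndN0q2) (n2 := ndN4q0) (pc := pcN2) (cut := Cut.none) (xt := Ext.none) (P1 := 0) (W1 := 536870912) (P2 := 0) (W2 := 536870912) (P3 := 33554432) (W3 := 16777216) (N0 := 3)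
    rfl rfl rfl k0_pp_202

noncomputable def f_pp_203 : ℕ → ℕ → ℕ → ℕ → Bool := onCell 0 536870912 0 536870912 33554432 16777216
    (rowNK 3 0 true true true .up 2 0 3 (qsf 0 536870912 0 536870912 3) ndN0q2 ndN4q0 pcN3 Cut.none Ext.none)

def k0_pp_203 : ∃ t, chk3 f_pp_203 t 1 1 1 = true :=
  ⟨(l 4), by decide +kernel⟩

theorem c_pp_203 : CertN 0 536870912 0 536870912 33554432 16777216 3 true true true .up 2 0 3
    ndN0q2 ndN4q0 pcN3 Cut.none Ext.none :=
  certNK0 (fam := true) (s1 := true) (s2 := true) (a := 2) (b := 0) (c := 3) (cn := .up) (n1 := ndN0q2) (n2 := ndN4q0) (pc := pcN3) (cut := Cut.none) (xt := Ext.none) (P1 := 0) (W1 := 536870912) (P2 := 0) (W2 := 536870912) (P3 := 33554432) (W3 := 16777216) (N0 := 3)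
    rfl rfl rfl k0_pp_203

noncomputable def f_pp_213 : ℕ → ℕ → ℕ → ℕ → Bool := onCell 0 536870912 536870912 536870912 33554432 16777216
    (rowNK 3 0 true true true .pnn 2 1 3 (qsf 0 536870912 536870912 536870912 3) ndN0q2 ndN4q1 pcN3 Cut.none Ext.none)

def k0_pp_213 : ∃ t, chk3 f_pp_213 t 1 1 1 = true :=
  ⟨(l 4), by decide +kernel⟩

theorem c_pp_213 : CertN 0 536870912 536870912 536870912 33554432 16777216 3 true true true .pnn 2 1 3
    ndN0q2 ndN4q1 pcN3 Cut.none Ext.none :=
  certNK0 (fam := true) (s1 := true) (s2 := true) (a := 2) (b := 1) (c := 3) (cn := .pnn) (n1 := ndN0q2) (n2 := ndN4q1) (pc := pcN3) (cut := Cut.none) (xt := Ext.none) (P1 := 0) (W1 := 536870912) (P2 := 536870912) (W2 := 536870912) (P3 := 33554432) (W3 := 16777216) (N0 := 3)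
    rfl rfl rfl k0_pp_213

noncomputable def f_pm_001 : ℕ → ℕ → ℕ → ℕ → Bool := onCell 0 536870912 536870912 536870912 33554432 16777216
    (rowNK 3 1 true true false .up 0 0 1 (qsf 0 536870912 0 536870912 1) ndN0q0 ndN4q0 pcN1 Cut.none Ext.none)

def k0_pm_001 : ∃ t, chk3 f_pm_001 t 1 1 1 = true :=
  ⟨(a (b (l 3) (b (b (l 3) (l 2)) (l 2))) (b (b (l 3) (a (l 3) (b (a (l 3) (b (a (l 3) (b (l 3) (a (l 3) (l 391009977383)))) (a (b (l 3) (l 340007252903)) (b (a (l 358797663815) (b (l 249812843207) (l 16831480))) (c (l 268603527767) (l 268603542935)))))) (a (b (a (l 3) (b (l 3) (l 297594376871))) (a (b (l 337859698247) (l 286856985239)) (b (l 254644737287) (a (l 16813984) (l 16842200))))) (b (a (b (a (l 299741815879) (l 236927968183)) (l 232633113639)) (a (l 16866584) (l 16920448))) (a (l 16875424) (l 16969824))))))) (b (a (b (a (b (l 3) (a (l 3) (b (l 3) (a (l 3) (b (l 3) (l 343228394039)))))) (b (a (l 3) (b (a (l 3) (l 324437897943)) (a (l 306184314119) (b (l 236391083879)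 (l 16830136))))) (a (b (a (l 411947899543) (b (l 331417206215) (l 272898380823))) (a (b (l 276119552615) (a (l 16807576) (l 16824224))) (l 16870848))) (b (a (b (l 192904568167) (l 16838232)) (l 16890136)) (l 16999784))))) (a (b (a (l 2) (b (a (l 2) (b (l 96737498167) (l 2))) (l 2))) (l 2)) (b (a (b (b (l 16897848) (l 16977136)) (l 17069664)) (l 17141064)) (l 17492400)))) (b (a (b (a (b (a (a (l 245517856503) (l 16868096)) (l 16834448)) (l 16879424)) (l 16909984)) (a (l 17040440) (l 17056464))) (l 17316368)) (a (b (l 17241816) (l 17445392)) (l 17432656)))) (a (b (a (l 2) (b (l 17603552) (l 2))) (l 2)) (b (a (l 17804168) (l 17830232)) (a (l 18315936) (l 18238864))))))), by decide +kernel⟩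

theorem c_pm_001 : CertN 0 536870912 0 536870912 33554432 16777216 3 true true false .up 0 0 1
    ndN0q0 ndN4q0 pcN1 Cut.none Ext.none :=
  certNK1 (fam := true) (s1 := true) (s2 := false) (a := 0) (b := 0) (c := 1) (cn := .up) (n1 := ndN0q0) (n2 := ndN4q0) (pc := pcN1) (cut := Cut.none) (xt := Ext.none) (P1 := 0) (W1 := 536870912) (P2 := 0) (W2 := 536870912) (P3 := 33554432) (W3 := 16777216) (N0 := 3)
    rfl rfl rfl (fun _ => rfl) k0_pm_001

noncomputable def cut_pm_011 : Cut := Cut.of [[⟨0, 0, 0, 33554432⟩, ⟨1, 1, 0, 33554432⟩, ⟨2, 1, 0, 33554432⟩]]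

noncomputable def f_pm_011 : ℕ → ℕ → ℕ → ℕ → Bool := onCell 0 536870912 536870912 536870912 33554432 16777216
    (rowNK 3 1 true true false .pnn 0 1 1 (qsf 0 536870912 536870912 536870912 1) ndN0q0 ndN4q1 pcN1 cut_pm_011 Ext.none)

def k0_pm_011 : ∃ t, chk3 f_pm_011 t 1 2 1 = true :=
  ⟨(a (l 3) (b (l 1) (a (l 3) (l 1)))), by decide +kernel⟩

def k1_pm_011 : ∃ t, chk3 f_pm_011 t 2 6 1 = true :=
  ⟨(a (l 3) (b (l 3) (a (l 3) (b (l 3) (a (b (l 3) (a (l 3) (b (l 3) (a (l 3) (l 392083619639))))) (b (a (l 3) (b (l 424832769735) (a (l 385641166519) (b (l 295983705991) (l 16804640))))) (a (b (a (l 3) (l 310479268519)) (a (b (l 302426160231) (l 85530294983)) (l 16819024))) (a (b (b (l 145659843271) (l 16810880)) (l 16916784)) (l 16865376))))))))), by decide +kernel⟩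

def k2_pm_011 : ∃ t, chk3 f_pm_011 t 4 14 1 = true :=
  ⟨(a (l 3) (b (l 3) (a (l 3) (b (l 3) (a (l 3) (b (l 3) (a (b (l 3) (a (l 3) (l 327659077431))) (b (a (l 3) (b (l 350744525719) (l 235854143095))) (a (b (l 257328980663) (a (l 161765949607) (l 16792744))) (b (l 99488923751) (l 16810120))))))))))), by decide +kernel⟩

def k3_pm_011 : ∃ t, chk3 f_pm_011 t 8 30 1 = true :=
  ⟨(a (l 3) (b (l 3) (a (l 3) (b (l 3) (a (l 3) (b (l 3) (a (l 3) (b (l 3) (a (b (l 3) (a (l 3) (b (l 3) (a (l 291688694727) (b (l 291151823543) (l 250886505607)))))) (b (a (l 3) (a (a (l 292225569783) (l 292225569431)) (b (l 287930599815) (b (l 291151824039) (l 232632895831))))) (a (b (a (l 291688694983) (c (l 260550183991) (l 215989890791))) (c (c (l 130627421639) (l 117742517079)) (l 102710128759))) (c (b (l 120426874471) (l 16798680)) (l 16782920))))))))))))), by decide +kernel⟩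

def k4_pm_011 : ∃ t, chk3 f_pm_011 t 16 62 1 = true :=
  ⟨(a (l 3) (b (l 3) (a (l 3) (b (l 3) (a (l 3) (b (l 3) (a (l 3) (b (l 3) (a (l 3) (b (l 3) (b (b (l 377051160071) (a (l 3) (a (l 3) (a (l 241222816503) (l 152639115943))))) (b (a (l 3) (a (a (l 248202138327) (l 159081566823)) (l 16780152))) (a (a (l 3) (a (l 254644589223) (l 164987146743))) (l 16779536)))))))))))))), by decide +kernel⟩

def k5_pm_011 : ∃ t, chk3 f_pm_011 t 32 63 1 = true :=
  ⟨(b (b (l 3) (l 6)) (l 6)), by decide +kernel⟩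

def k6_pm_011 : ∃ t, chk3 f_pm_011 t 66 252 1 = true :=
  ⟨(a (l 3) (b (l 3) (a (l 3) (b (l 3) (a (l 3) (a (l 3) (b (l 3) (b (l 3) (b (a (l 3) (b (c (l 263234521879) (l 260550167895)) (a (l 254107716471) (l 119353117223)))) (b (a (a (l 3) (l 258402683783)) (a (l 123111213639) (l 16779688))) (a (a (l 262697651111) (l 127406180967)) (l 16779624)))))))))))), by decide +kernel⟩

def k7_pm_011 : ∃ t, chk3 f_pm_011 t 132 253 1 = true :=
  ⟨(b (b (l 3) (l 6)) (l 6)), by decide +kernel⟩

def k8_pm_011 : ∃ t, chk3 f_pm_011 t 266 506 1 = true :=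
  ⟨(b (a (l 3) (a (l 3) (b (l 3) (b (l 3) (b (b (l 3) (a (l 3) (a (l 3) (a (l 246591523879) (l 156934081431))))) (b (a (l 3) (a (c (l 187535722375) (l 185388239447)) (l 16778592))) (a (a (l 3) (a (l 253570845463) (l 168208370615))) (l 16778536)))))))) (a (b (b (l 3) (l 6)) (l 6)) (b (b (a (b (b (l 3) (a (l 3) (a (l 3) (a (l 264308263751) (l 175187692183))))) (b (a (l 3) (a (c (l 202568107863) (l 201494366887)) (l 16778648))) (a (a (l 3) (a (l 276119423863) (l 185388239559))) (l 50096769719)))) (a (b (b (a (c (l 195051915127) (l 193441303159)) (l 16778616)) (l 16778560)) (l 16779664)) (l 16779504))) (b (a (a (a (l 6) (l 52781124311)) (l 16779688)) (l 16781864)) (l 16779272))) (a (l 16778888) (l 16778296))))), by decide +kernel⟩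

def k9_pm_011 : ∃ t, chk3 f_pm_011 t 267 506 1 = true :=
  ⟨(b (a (b (a (l 3) (b (l 3) (a (b (l 3) (b (c (l 346449514055) (l 307257938119)) (a (l 276656295047) (c (l 160692176887) (l 155860339143))))) (a (b (c (l 341617675879) (l 307257938087)) (b (c (l 156397209607) (l 151028500919)) (l 16778504))) (b (b (l 276656294967) (c (l 152639113239) (l 147270404535))) (l 16779736)))))) (a (b (b (b (l 3) (a (l 3) (a (l 3) (c (l 168208369623) (l 164450273783))))) (b (a (l 3) (a (c (l 171966465991) (l 168208370183)) (l 16778544))) (a (a (l 3) (c (l 175724562359) (l 172503337495))) (l 16778480)))) (b (b (a (a (c (l 179482658727) (l 176798304807)) (l 16778568)) (l 16779656)) (l 16778688)) (l 16779464))) (a (a (b (b (b (c (l 164450273255) (l 159618435543)) (l 16778528)) (l 16779640)) (l 16781848)) (l 16778696)) (l 16779128)))) (b (b (a (a (b (l 3) (b (c (l 276656294567) (l 297594261623)) (a (l 276656294935) (l 144586050263)))) (a (b (c (l 276656294599) (l 295446777927)) (b (l 141364824775)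 (l 16779760))) (b (b (l 266455747527) (l 137606728359)) (l 16779680)))) (a (a (b (b (l 133311761031) (l 16779728)) (l 16782144)) (l 16779512)) (l 16779288))) (b (b (a (a (a (l 148881017591) (l 16779776)) (l 16779544)) (l 16781720)) (l 16778608)) (l 16779056))) (c (l 16778896) (l 16778184)))) (a (b (c (l 16778824) (l 16778272)) (c (l 16777808) (l 16777800))) (b (c (l 16780496) (l 16777712)) (a (l 16779312) (l 16778848))))), by decide +kernel⟩

def k10_pm_011 : ∃ t, chk3 f_pm_011 t 133 507 1 = true :=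
  ⟨(a (b (a (l 6) (b (a (l 6) (l 16779840)) (l 6))) (l 6)) (b (a (b (c (l 16776784) (l 16776688)) (a (l 16778280) (l 16777808))) (b (a (l 16778328) (l 16777856)) (a (l 16777336) (l 16782104)))) (a (b (a (l 6) (l 16776808)) (l 6)) (b (l 16776096) (l 16775088))))), by decide +kernel⟩

def k11_pm_011 : ∃ t, chk3 f_pm_011 t 134 504 1 = true :=
  ⟨(a (l 3) (b (l 3) (a (l 3) (b (l 3) (b (a (l 3) (c (c (l 281488135767) (l 321216582055)) (a (l 3) (l 360408158103)))) (a (c (l 326585291687) (l 366850609527)) (a (b (l 361481902071) (a (a (l 211158044471) (l 156934082311)) (l 87140863655))) (a (b (a (l 202568109911) (l 149954760487)) (l 16780248)) (l 49559899623))))))))), by decide +kernel⟩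

def k12_pm_011 : ∃ t, chk3 f_pm_011 t 268 505 1 = true :=
  ⟨(b (a (l 3) (a (l 3) (b (l 3) (b (l 3) (b (a (l 3) (b (c (l 220821720439) (l 208473688695)) (a (l 191293820375) (l 16778560)))) (a (a (l 224042946087) (b (l 195588787671) (l 16778552))) (l 16779096))))))) (b (b (a (l 3) (a (b (a (l 3) (a (l 229948526087) (b (l 204178722231) (l 16778536)))) (a (b (l 233169751543) (a (l 210621172487) (l 16778520))) (l 16779064))) (l 16778848))) (a (a (l 3) (a (b (l 3) (b (a (l 3) (l 224042945239)) (a (l 228874783447) (l 16778496)))) (b (b (a (l 3) (l 214916139767)) (a (l 218674236135) (l 16778504))) (l 48486157239)))) (a (c (l 16778544) (l 16778488)) (l 16781640)))) (a (b (a (a (b (l 3) (b (a (l 3) (l 242296556311)) (a (l 246054652727) (l 110763182583)))) (b (b (c (l 252497103703) (l 248202136823)) (a (l 238001588983) (l 102173247975))) (c (l 57076091559) (l 16778368)))) (a (b (l 52781124503) (l 16782064)) (l 16781952))) (b (a (a (a (a (l 97878281319) (l 16778392)) (l 16779600))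 (l 16782048)) (l 16781704)) (l 16779072))) (a (l 16781368) (l 16780912))))), by decide +kernel⟩

def k13_pm_011 : ∃ t, chk3 f_pm_011 t 269 505 1 = true :=
  ⟨(a (b (a (b (c (l 357723804839) (b (l 3) (l 372756189783))) (b (b (a (l 404431574855) (a (c (l 211158044087) (l 196662528519)) (a (l 138680471031) (l 16778952)))) (a (a (c (l 217600494999) (l 204178721351)) (b (l 178945789447) (l 16779888))) (l 16779776))) (l 16778872))) (b (b (c (l 330343387991) (l 368461222375)) (b (a (l 389399189383) (a (a (l 232096009959) (l 177872047751)) (c (l 104857603175) (l 88751474823)))) (a (a (c (l 205252464087) (l 190220077527)) (c (l 110763183159) (l 95730796743))) (l 16779808)))) (l 16779320))) (c (l 16778480) (b (l 16781152) (l 16780024)))) (b (a (b (b (b (a (l 375440545719) (a (a (l 217063624487) (l 163913404103)) (l 92509572679))) (a (a (a (l 225116688135) (l 170892725911)) (l 98415152679)) (l 16780064))) (l 16779976)) (l 16782080)) (l 16778840)) (b (l 16780832) (l 16779304)))),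 by decide +kernel⟩

def k14_pm_011 : ∃ t, chk3 f_pm_011 t 135 504 1 = true :=
  ⟨(a (b (a (l 3) (b (l 3) (b (b (l 3) (a (l 3) (a (l 3) (a (l 359871289735) (l 204178723095))))) (b (a (l 3) (a (a (l 368461224295) (l 210621174007)) (a (l 122037473479) (l 16780872)))) (b (a (l 380272384503) (a (a (l 185925111927) (l 16780528)) (l 16778728))) (a (a (l 3) (l 218137366727)) (l 16779960))))))) (a (b (b (b (l 3) (a (l 3) (a (l 3) (a (l 3) (l 229411655815))))) (b (a (l 3) (c (a (l 256792072951) (a (l 151028502455) (l 16778744))) (a (l 237464718087) (l 95730796679)))) (b (a (l 3) (a (a (l 221895462903) (l 16778912)) (l 16780784))) (a (a (l 3) (l 242833428551)) (l 16779408))))) (b (a (b (b (a (l 3) (a (l 231022268375) (l 16779512))) (a (l 248739008551) (l 16778960))) (a (a (a (l 195588788087) (l 142975438663)) (l 16778904)) (l 16780640))) (l 16778840)) (l 16779032))) (b (b (a (b (c (a (l 246591525719) (a (l 136532987623) (l 16778992))) (a (l 226727299719) (l 84456507399))) (b (a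 (a (l 204178722871) (l 16780368)) (l 16781056)) (l 16779680))) (l 16779824)) (l 16780368)) (l 16782424)))) (a (b (b (b (b (l 3) (a (l 3) (a (l 3) (a (l 323364067863) (l 177872048551))))) (b (a (l 3) (a (a (l 332490873335) (l 185388241271)) (l 73182220487))) (a (a (l 3) (a (l 341617678791) (l 191830692183))) (c (l 53317996551) (l 16778896))))) (b (a (b (c (a (l 224042946935) (l 84456509399)) (a (l 206326205127) (l 16778632))) (a (a (l 116668764503) (l 16780984)) (l 16779312))) (l 16780792)) (l 16781656))) (l 16778592)) (b (a (b (b (b (a (a (l 314774133303) (l 171429597639)) (l 16779256)) (l 46338674967)) (l 16781280)) (l 16785088)) (l 16780720)) (l 16777600)))), by decide +kernel⟩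

def k15_pm_011 : ∃ t, chk3 f_pm_011 t 135 505 1 = true :=
  ⟨(b (a (a (l 16778576) (l 16777360)) (a (l 16780840) (l 16778288))) (a (a (a (l 16777136) (l 16779712)) (l 16776600)) (a (l 16781792) (l 16780576)))), by decide +kernel⟩

def k16_pm_011 : ∃ t, chk3 f_pm_011 t 67 253 1 = true :=
  ⟨(a (b (a (b (a (b (c (l 16779152) (l 16778744)) (a (l 16780344) (l 16779880))) (b (a (l 16780392) (l 16785176)) (a (l 16784656) (l 16784192)))) (a (b (a (l 16779360) (l 16778896)) (a (l 16778376) (l 16783152))) (b (l 16778192) (l 16777200)))) (a (b (b (l 16779240) (l 16778256)) (b (l 16782504) (l 16781504))) (b (b (l 16783560) (l 16782568)) (b (l 16781576) (l 16780568))))) (a (b (a (b (l 16777144) (l 16776144)) (b (l 16776200) (l 16780440))) (a (b (l 16775136) (l 16774128)) (b (l 16779424) (l 16778408)))) (b (a (b (l 16780504) (l 16779488)) (l 16773808)) (a (l 16772720) (l 16771760))))) (b (a (a (b (b (l 16784056) (l 16781640)) (l 16774896)) (b (l 16779168) (l 16779200))) (a (b (l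 16778232) (l 16779968)) (b (l 16778680) (l 16771984)))) (a (b (a (l 16772864) (l 16777160)) (a (l 16776048) (l 16775088))) (b (l 16767632) (b (l 16774176) (l 16773128)))))), by decide +kernel⟩

def k17_pm_011 : ∃ t, chk3 f_pm_011 t 33 127 1 = true :=
  ⟨(b (a (a (l 6) (b (a (l 6) (b (a (l 6) (b (l 16774072) (l 6))) (l 6))) (l 6))) (a (b (a (b (a (b (l 16778352) (l 16777320)) (b (l 16777384) (l 16776352))) (a (b (l 16776288) (l 6)) (l 16769544))) (b (a (l 16770656) (l 16769688)) (a (l 16768568) (l 16772832)))) (a (b (a (l 6) (l 16767440)) (l 6)) (b (a (l 16766448) (l 16770704)) (a (b (l 16770088) (l 6)) (l 16768544))))) (b (a (b (a (l 16773960) (l 16772992)) (a (l 16771848) (l 16770872))) (a (b (l 16772024) (l 16769896)) (a (l 16762368) (l 16761888)))) (a (b (a (l 16769712) (l 16768720)) (a (l 16767544) (l 16766544))) (b (l 16759376) (a (l 16765544) (l 16775032))))))) (a (l 6) (b (a (a (l 6) (b (a (l 6) (b (l 16777392) (l 6))) (l 6))) (a (b (a (b (l 16776384) (l 16775280))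 (l 16764336)) (c (a (l 16773816) (l 16772736)) (l 16757728))) (b (a (l 16763320) (l 16772800)) (a (b (l 16772128) (l 16770992)) (b (l 16771104) (l 16769968)))))) (a (l 6) (b (a (a (l 6) (b (l 16770896) (l 6))) (c (a (l 16769944) (l 16768864)) (l 16758768))) (a (l 6) (c (b (l 16768152) (l 16767320)) (b (l 16767576) (l 16766456))))))))), by decide +kernel⟩

def k18_pm_011 : ∃ t, chk3 f_pm_011 t 34 124 1 = true :=
  ⟨(a (l 3) (b (l 3) (a (l 3) (b (l 3) (a (l 3) (b (l 3) (a (b (l 3) (a (l 334101491415) (b (l 293299301815) (a (a (l 285783108487) (l 229411662551)) (b (l 246054660439) (l 16781136)))))) (a (b (l 294373044167) (b (a (a (l 278803786743) (l 249275886407)) (a (l 182703892871) (l 16782232))) (l 16784112))) (b (b (l 292762431143) (a (a (l 271287594103) (l 242833435735)) (l 145122929079))) (l 16782168)))))))))), by decide +kernel⟩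

def k19_pm_011 : ∃ t, chk3 f_pm_011 t 68 250 1 = true :=
  ⟨(a (l 3) (b (l 3) (a (l 3) (b (l 3) (a (a (l 3) (b (l 3) (l 328732779879))) (a (b (l 3) (b (l 321216586807) (a (b (l 316921619079) (a (l 209010564119) (l 16781896))) (b (l 156397215031) (l 16781144))))) (b (l 321216587303) (b (b (a (l 306184200935) (l 142975441943)) (a (l 152102247911) (l 16781480))) (l 16783984))))))))), by decide +kernel⟩

def k20_pm_011 : ∃ t, chk3 f_pm_011 t 136 251 1 = true :=
  ⟨(b (a (l 3) (b (l 3) (a (l 3) (b (l 3) (b (a (l 3) (b (a (l 3) (c (l 253570849319) (l 207399947223))) (a (a (l 333027745463) (l 225116690647)) (l 101636380167)))) (b (c (a (l 261623913079) (l 75866576583)) (a (a (l 3) (l 219211107223)) (l 16779072))) (a (a (a (l 331954003543) (l 234780366647)) (l 113447540391)) (l 16782240)))))))) (a (b (a (l 3) (b (l 3) (a (b (l 3) (b (l 338396454279) (a (l 330880261287) (a (l 199883756519) (l 115058152583))))) (a (b (l 331417132487) (a (b (l 192904434695) (l 16779296)) (l 67813512359)))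 (b (b (l 308331683111) (a (l 186461983799) (l 16779888))) (l 16780912)))))) (a (a (a (b (l 371145580135) (b (b (a (l 234243494679) (l 146196665047)) (l 16780280)) (l 16781344))) (b (b (l 3) (b (l 348060130359) (a (l 226727301959) (l 139754214151)))) (l 16780240))) (b (a (b (l 353965710631) (b (a (l 221358592871) (l 133848634263)) (l 16779232))) (b (b (l 337859583111) (a (l 213305529239) (l 128479925319))) (l 16780240))) (l 16784384))) (a (a (b (b (b (a (l 207936820151) (l 123111216391)) (l 16779512)) (l 16782192)) (l 16787376)) (l 16779440)) (l 16781312)))) (b (a (a (b (b (l 3) (b (l 315311005239) (a (l 300815490391) (a (l 173040211095) (l 16780120))))) (a (a (b (b (l 179482661975) (l 16779568)) (l 16782504)) (l 16779984)) (l 16780640))) (b (a (b (l 307794812535) (a (b (l 166060889303) (l 16779856)) (l 16779928))) (b (b (l 285783104983) (a (l 160155309431) (l 16780376))) (l 16781608))) (l 16781408))) (b (a (a (c (c (b (l 84456510871) (l 16787296)) (l 44728061927)) (l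 16778848)) (l 16781504)) (l 16782496)) (l 16783304))) (a (l 16780216) (l 16784760))))), by decide +kernel⟩

def k21_pm_011 : ∃ t, chk3 f_pm_011 t 137 251 1 = true :=
  ⟨(b (a (b (a (b (l 3) (l 358260680007)) (b (a (l 3) (l 337322714263)) (b (a (l 331417133735) (b (a (l 333027746151) (a (l 256792075047) (l 159618439735))) (c (a (l 201494370919) (l 16780976)) (l 111836925527)))) (a (b (a (l 331954004231) (a (l 286319976439) (l 174650825287))) (a (a (l 293299298247) (l 181093276151)) (l 16779880))) (l 16781200))))) (a (a (b (b (l 3) (b (a (l 3) (a (l 313700392759) (l 202031241559))) (a (a (l 320679714567) (l 209010563367)) (l 16780296)))) (c (c (l 16780056) (l 16779480)) (l 16779104))) (b (b (b (a (l 3) (a (l 300278620055) (l 188072597943))) (a (a (l 307257941863) (l 195051919751)) (l 16780904))) (l 16780168)) (l 16783552))) (a (b (l 16780296) (l 16794024)) (l 16784168)))) (b (a (b (b (a (l 332490875751) (b (c (a (l 277730041079) (l 173577083799)) (l 186461982935)) (a (a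 (l 223506078647) (l 16780344)) (l 16780816)))) (a (b (c (a (l 287393720343) (l 184851372823)) (l 194515046535)) (a (a (l 232632883399) (l 150491634039)) (l 16780496))) (l 16780616))) (l 16780224)) (l 16781072)) (l 16779088))) (b (a (l 16779400) (l 16806584)) (a (c (l 16815280) (l 16786224)) (l 16824320)))), by decide +kernel⟩

def k22_pm_011 : ∃ t, chk3 f_pm_011 t 138 250 1 = true :=
  ⟨(b (a (l 3) (b (l 3) (b (b (l 3) (a (l 3) (a (l 3) (a (l 335175231639) (b (l 287930591223) (l 180019536903)))))) (a (a (l 3) (a (l 333564619095) (a (l 315847878727) (b (l 3) (b (l 293836170967) (l 16781088)))))) (a (a (b (l 335175231527) (b (l 197199405879) (l 16781096))) (b (b (l 293836171159) (l 191293825911)) (l 16782608))) (c (c (b (l 102710125143) (l 16789376)) (l 61371063175)) (l 16779832))))))) (a (b (b (b (l 3) (a (l 3) (a (l 3) (a (l 333027747559) (b (l 334101489239) (l 224042950535)))))) (b (a (l 3) (b (a (l 333027747479) (a (l 253570851959) (l 16782896))) (a (a (l 3) (l 258939561031))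 (l 16781456)))) (a (c (l 277193174407) (a (l 3) (l 295446781623))) (a (b (a (l 272361333783) (l 16781280)) (l 16781120)) (l 16780280))))) (a (b (b (a (l 309942297847) (b (a (l 283635622823) (l 16780992)) (l 88214609367))) (a (b (a (l 294909911879) (l 134385507831)) (c (l 98415156439) (l 16779704))) (l 16784752))) (l 16782048)) (l 16780544))) (b (a (b (b (b (a (l 334101489511) (a (b (l 243370304951) (l 16781312)) (l 16780928))) (a (c (l 256255206343) (l 215453013159)) (l 16782160))) (b (a (a (l 215989886919) (l 16780600)) (l 16784912)) (l 16782104))) (l 16781216)) (l 16782544)) (l 16793544)))), by decide +kernel⟩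

def k23_pm_011 : ∃ t, chk3 f_pm_011 t 139 250 1 = true :=
  ⟨(b (a (b (a (a (l 3) (b (l 3) (a (l 324974684935) (b (l 3) (b (l 260013304023) (a (l 16782296) (l 16783080))))))) (a (b (l 333564620279) (b (a (l 266455755223) (b (l 247665273159) (l 16781512))) (l 16781952))) (b (a (l 273435077607) (b (l 292762430503) (a (l 210084308647) (l 159081572119)))) (l 16781888)))) (a (b (a (b (a (l 287393720583) (b (l 279340656743) (l 166597763911))) (c (l 95193932615) (l 16781088))) (c (l 60834194295) (l 16781216))) (l 16782984)) (l 16789696))) (a (b (b (b (a (a (l 249275886263) (b (l 254107723991) (l 16782112))) (l 16783728)) (l 16782480)) (l 16784728)) (l 16791888)) (l 16782424))) (a (b (l 16796032) (l 16818728)) (l 16812208))), by decide +kernel⟩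

def k24_pm_011 : ∃ t, chk3 f_pm_011 t 69 251 1 = true :=
  ⟨(b (a (a (a (l 16780736) (l 16786288)) (a (l 16819680) (l 16832368))) (a (l 16851800) (l 16899256))) (a (a (c (l 16860576) (l 16809648)) (l 16845600)) (c (l 16956264) (l 16858192)))), by decide +kernel⟩

def k25_pm_011 : ∃ t, chk3 f_pm_011 t 70 124 1 = true :=
  ⟨(b (a (l 3) (b (l 3) (a (a (l 3) (b (l 3) (c (l 289004340903) (l 294373045463)))) (b (a (l 3) (c (l 289004341479) (l 293299304071))) (a (b (a (l 3) (l 292225563159)) (b (a (l 291688691719) (c (l 240685955335) (l 185388246199))) (a (c (l 245517793399) (l 192904438855)) (l 16783080)))) (b (a (b (l 291688691959) (c (l 236390988359) (l 177872053559))) (c (b (l 231559150455) (l 16785848)) (l 116668769879))) (l 16785544))))))) (a (b (a (l 3) (b (l 3) (a (b (l 3) (a (l 275045692039) (b (l 257865822567) (b (l 180019539783) (l 16782632))))) (b (a (c (l 278803790823) (l 256255208215)) (c (b (l 268603243223) (l 16782696)) (b (l 233706627639) (l 16781456)))) (c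 (c (l 73182228391) (l 16782104)) (l 16781160)))))) (a (b (b (a (l 3) (a (l 287930593687) (b (l 278803787895) (a (b (l 275582561655) (l 16783376)) (l 16781992))))) (b (a (l 290614948071) (a (a (b (l 278266916423) (l 16783088)) (l 16782944)) (l 16783456))) (a (a (l 292762431255) (a (c (l 243907177799) (l 188072598567)) (l 16782600))) (l 16783576)))) (a (a (b (b (c (a (l 249812757687) (l 16782264)) (l 148344150871)) (l 16784888)) (l 16783256)) (l 16783680)) (l 16782832))) (b (a (a (b (b (c (l 152102252023) (l 120426864039)) (l 16781240)) (l 16795416)) (l 16785352)) (l 16784560)) (l 16802264)))) (b (b (a (a (b (a (l 3) (l 292225562663)) (b (a (l 289004336663) (c (l 261087048759) (l 218674242311))) (a (c (l 263771405159) (l 226190434983)) (l 16782832)))) (b (b (a (l 291688691463) (c (l 250349631463) (l 200420631511))) (a (a (l 287930594423) (l 237464729015)) (l 16783600))) (l 16783888))) (c (l 16783656) (l 16784320))) (a (a (a (c (l 16783224) (l 16781792)) (l 16787016)) (l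 16786240)) (l 16805720))) (a (b (l 16804048) (l 16849296)) (l 16842264))))), by decide +kernel⟩

def k26_pm_011 : ∃ t, chk3 f_pm_011 t 71 124 1 = true :=
  ⟨(a (b (b (a (a (l 3) (b (l 3) (c (l 289004342071) (l 285783111735)))) (b (c (l 287393730615) (l 279340664551)) (b (b (a (l 288467468551) (a (l 268603243751) (l 16783384))) (a (l 279877533127) (l 16785528))) (a (a (b (l 278803790823) (a (l 16784576) (l 16783352))) (l 16784912)) (l 16783640))))) (a (b (a (b (a (l 3) (l 292225563655)) (b (a (l 291688692215) (c (l 221358603447) (l 16781976))) (c (a (l 226190441495) (l 16786688)) (l 109152577191)))) (b (b (a (l 289004337911) (a (l 240685955975) (l 16788224))) (c (l 126869322407) (l 16783288))) (l 16781968))) (l 16783056)) (l 16786240))) (b (a (b (l 16807312) (l 16852640)) (l 16866272)) (l 16881224))) (b (b (a (b (b (a (c (l 279340665671) (l 254644598663)) (a (b (l 255718343687) (l 16789600)) (l 16784784))) (a (b (a (l 258402696679) (l 16786592)) (l 16786352)) (l 16785312)))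 (l 16786272)) (l 16789256)) (a (l 16822360) (l 16868744))) (l 16866112))), by decide +kernel⟩

def k27_pm_011 : ∃ t, chk3 f_pm_011 t 35 125 1 = true :=
  ⟨(a (b (b (a (a (b (l 16800352) (l 16845128)) (l 16838368)) (l 16877728)) (a (l 16851640) (l 16946736))) (a (b (l 16918720) (l 16984088)) (l 16975256))) (b (a (l 16933424) (l 17027064)) (l 17035448))), by decide +kernel⟩

def k28_pm_011 : ∃ t, chk3 f_pm_011 t 68 63 1 = true :=
  ⟨(a (b (b (a (b (b (a (l 16778504) (l 16779168)) (l 16776728)) (b (l 16774528) (l 16772504))) (b (a (b (l 16788696) (l 16800184)) (b (l 16799088) (l 16811336))) (b (c (l 16867568) (l 16783344)) (l 16770544)))) (b (a (a (b (l 16790792) (l 16786048)) (a (l 16769272) (l 16768608))) (b (l 16772608) (l 16772320))) (b (a (a (l 16776224) (l 16793408)) (l 16767840)) (a (l 16766504) (l 16769088))))) (b (b (b (a (l 16765456) (l 16775368)) (a (l 16767448) (l 16764960))) (a (b (l 16765264) (l 16763048)) (b (l 16768416) (l 16771544)))) (c (b (b (a (l 16770984)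 (l 16786960)) (b (l 16760312) (l 16758072))) (b (a (a (l 16767792) (l 16766712)) (l 16768992)) (a (b (l 16766016) (l 16765200)) (l 16752976)))) (b (a (b (l 16761160) (l 16758968)) (b (l 16769672) (l 16767456))) (b (a (l 16756744) (l 16765216)) (a (b (l 16765544) (l 16764408)) (l 16752448))))))) (b (a (b (b (b (l 16795064) (l 16808400)) (b (l 16798632) (l 16807400))) (b (b (l 16792432) (l 16795288)) (c (l 16871512) (l 16761736)))) (b (a (b (l 16820744) (l 16824616)) (b (l 16833832) (l 16860264))) (b (l 16764680) (a (l 16759736) (l 16779776))))) (b (b (a (b (l 16780320) (l 16765616)) (a (a (l 16783536) (l 16774792)) (l 16772056))) (a (b (l 16765888) (l 16759328)) (l 16751880))) (b (a (b (l 16765952) (a (l 16765456) (l 16764440))) (l 16747984)) (b (a (c (l 16801672) (l 16763200)) (l 16763256)) (a (c (l 16758248) (l 16750416)) (c (l 16815136) (l 16758880)))))))), by decide +kernel⟩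

def k29_pm_011 : ∃ t, chk3 f_pm_011 t 69 63 1 = true :=
  ⟨(a (b (b (a (b (l 16833176) (a (l 16875240) (l 16911424))) (b (l 16882200) (l 16913616))) (a (a (b (l 16853192) (l 16820800)) (b (l 16891392) (l 16840792))) (b (l 16896400) (c (l 17077232) (l 16831432))))) (b (c (b (l 16995840) (a (l 17021456) (l 17116760))) (b (a (b (l 16839112) (l 16822920)) (b (l 16905688) (l 16873376))) (b (a (l 16822464) (l 16857536)) (l 16753376)))) (b (b (c (l 17004728) (l 16754712)) (c (l 16955912) (l 16759632))) (a (b (l 16788264) (l 16768352)) (c (b (l 17105688) (l 17049416)) (b (l 16758016) (l 16754848))))))) (b (b (b (l 16904576) (l 16918648)) (a (b (l 16973008) (l 16930856)) (b (l 17049424) (l 17032312)))) (b (b (a (l 16858352) (l 16986168)) (c (l 17191920) (a (l 16799352) (l 16916104)))) (c (b (l 17183984) (a (l 17128568) (l 17236216))) (b (b (l 16823328) (l 16800984)) (b (l 16793968) (b (l 16831776) (l 16812912)))))))), by decide +kernel⟩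

def k30_pm_011 : ∃ t, chk3 f_pm_011 t 35 63 1 = true :=
  ⟨(b (b (a (a (a (l 16989088) (l 17061216)) (l 17084984)) (l 17171472)) (a (a (a (l 16972656) (l 17112536)) (l 17163544)) (l 17259552))) (b (a (a (b (l 17028224) (a (l 17020344) (l 17129528))) (a (l 17142104) (l 17265800))) (c (l 17452928) (l 17179040))) (b (a (c (l 17357272) (a (a (l 16947720) (l 17068000)) (l 17147888))) (l 17342704)) (a (c (l 17295952) (a (b (l 16934168) (l 16851080)) (l 16967712))) (l 17199304))))), by decide +kernel⟩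

def k31_pm_011 : ∃ t, chk3 f_pm_011 t 18 60 1 = true :=
  ⟨(a (l 3) (b (l 3) (a (l 3) (b (l 3) (a (b (l 3) (a (l 3) (b (l 302963006919) (a (l 297594295255) (b (l 285246263303) (l 16795112)))))) (b (a (l 305647362967) (b (l 304573619143) (b (l 250886525319) (l 181093295591)))) (a (b (a (l 285783134935) (b (l 265918910231) (l 16807216))) (l 16794832)) (l 16785608)))))))), by decide +kernel⟩

def k32_pm_011 : ∃ t, chk3 f_pm_011 t 36 61 1 = true :=
  ⟨(b (a (l 3) (b (l 3) (a (b (l 3) (a (l 3) (b (l 3) (l 299204897959)))) (b (c (l 298668033575) (l 304573607031)) (a (b (l 299741768759) (a (b (l 297594283463) (l 228337934119)) (b (l 247665286247) (c (l 16789016) (l 16782984))))) (b (a (b (l 298131154247) (l 240149093751)) (c (l 147807296023) (l 121500614567))) (l 16790112))))))) (a (b (a (l 3) (b (l 3) (a (b (l 3) (b (l 296520538503) (a (l 295446798471) (a (l 251423382407) (c (l 16790144) (l 16783640)))))) (a (b (l 294373057415) (a (b (l 239075351415) (l 16789520)) (l 16789984)))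 (b (b (l 288467476503) (a (l 239612220343) (l 16791032))) (l 16788440)))))) (b (a (a (b (l 3) (b (b (l 3) (l 293836183543)) (b (l 289541215415) (a (l 288467470919) (a (l 286319991367) (l 16788608)))))) (a (b (b (l 3) (l 294909924999)) (b (a (l 279877540823) (c (l 229948543047) (l 169818994231))) (l 16788776))) (b (b (l 294909927591) (a (l 270750735287) (c (l 219747995767) (l 16784840)))) (l 16784760)))) (a (b (a (a (b (l 261623929767) (l 16787688)) (c (l 16788640) (l 16784944))) (l 16786592)) (l 16792768)) (l 16784912))) (b (a (a (a (a (b (l 291151824583) (l 16785640)) (b (b (l 291151824295) (l 16788416)) (l 16789960))) (l 16786880)) (l 16791088)) (l 16828272)) (l 16786328)))) (b (a (b (a (b (l 298668027143) (a (l 286319993655) (b (l 273435090887) (l 146733552007)))) (b (a (l 266455769799) (b (l 239612223319) (l 16786760))) (c (l 16786976) (l 16785424)))) (b (a (c (b (l 110226330279) (l 16790816)) (l 67813522039)) (l 16797824)) (l 16787256))) (a (b (l 16788544) (l 16832848))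 (l 16792216))) (a (b (l 16821328) (l 16909352)) (l 16912472))))), by decide +kernel⟩

def k33_pm_011 : ∃ t, chk3 f_pm_011 t 37 61 1 = true :=
  ⟨(b (a (b (a (b (l 3) (c (l 299741775255) (l 294909930215))) (b (a (l 3) (l 272898229287)) (a (b (l 270213867959) (a (b (l 266992651351) (l 16786000)) (l 16791728))) (b (a (c (l 170892743079) (l 146196677639)) (l 16788576)) (l 16787440))))) (b (a (a (b (l 300815510311) (a (b (l 294373057719) (c (l 226727320839) (l 16785184))) (l 126332459383))) (a (b (c (l 243907196615) (l 187535737991)) (l 16798792)) (l 16789312))) (l 16786216)) (a (l 16793280) (l 16849344)))) (b (a (b (c (a (b (l 268066397991) (l 118279397783)) (l 16792464)) (a (b (l 232632900135) (l 16785024)) (l 16791304))) (l 16789648)) (l 16813072)) (a (l 16851600) (l 16936592)))) (a (b (a (b (l 16846984) (l 16911928)) (l 16913960)) (l 16980584)) (l 16959376))), by decide +kernel⟩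

def k34_pm_011 : ∃ t, chk3 f_pm_011 t 19 30 1 = true :=
  ⟨(b (a (b (a (l 3) (b (a (l 3) (b (l 3) (l 312089816471))) (a (b (l 311552946311) (a (l 266992655431) (b (l 225116722167) (l 16792464)))) (b (a (b (l 307794845799) (l 207936852631)) (b (l 200957521591) (l 16797136))) (l 16792456))))) (a (b (a (b (l 3) (a (l 306721104247) (b (l 297594296695) (a (l 248739033319) (l 16788304))))) (b (a (l 289541234439) (b (l 263234557655) (l 16790544))) (a (b (l 161229073559) (l 16803544)) (l 16793968)))) (b (a (a (b (a (l 236391010487) (l 16788808)) (l 16788688)) (l 16789784)) (l 16821072)) (l 16796608))) (b (a (b (c (l 16788448) (l 16787576)) (l 16803640)) (a (l 16815416) (l 16877128))) (l 16858648)))) (b (a (b (a (b (l 304573622855) (a (b (l 301889264919) (l 187535750231)) (l 112373822903))) (b (a (b (l 263234558327) (l 16787928)) (l 16798352)) (l 16790776))) (a (l 16793280) (l 16831784))) (l 16790736)) (a (b (l 16883424) (l 16998256)) (l 17013744)))) (b (a (a (b (a (l 16855520)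 (l 16938632)) (l 16998672)) (l 16974360)) (l 17105408)) (a (l 17078944) (l 17305216)))), by decide +kernel⟩

def k35_pm_011 : ∃ t, chk3 f_pm_011 t 9 31 1 = true :=
  ⟨(a (b (a (b (b (a (a (b (a (l 16824960) (l 16870968)) (l 16906408)) (l 16889800)) (l 16982264)) (a (l 16941016) (l 17099056))) (a (b (l 17102248) (l 17201304)) (l 17246848))) (b (a (l 17119408) (l 17223824)) (l 17376040))) (b (a (a (l 17264432) (l 17447888)) (l 17578288)) (a (a (b (l 17486968) (l 17568952)) (l 17644208)) (l 17783952)))) (b (b (l 17240328) (l 17591336)) (a (l 17824384) (l 17941344)))), by decide +kernel⟩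

def k36_pm_011 : ∃ t, chk3 f_pm_011 t 5 14 1 = true :=
  ⟨(a (b (a (l 3) (b (l 3) (a (b (l 3) (a (l 3) (b (l 3) (l 292762507159)))) (b (a (l 396378593767) (b (l 377051206823) (a (l 275582613399) (l 16796376)))) (a (b (a (l 329806559175) (l 204178776887)) (l 66739807127)) (l 16812880)))))) (a (b (a (l 3) (b (a (l 3) (b (l 3) (l 361481970311))) (a (b (l 365240069735) (a (l 307258000215) (b (l 218674273351) (l 16800928)))) (b (a (l 269677033175) (a (l 140291119863) (l 16806608))) (l 16816104))))) (a (b (a (b (l 3) (a (l 350207657447) (b (l 315311043207) (a (l 248739044775) (l 234243556503))))) (b (a (l 342154591351) (b (l 272898238471) (l 139754246247))) (b (a (a (l 217063659719) (l 16793160)) (l 16819168)) (l 16810680)))) (a (a (b (b (a (l 280414429799) (l 179482691479)) (l 16804000)) (b (l 16814576) (l 16867648))) (b (l 16803496) (l 16887376))) (b (a (l 16817968) (l 16894616)) (l 16939592)))) (b (a (b (a (l 78014090631) (l 16822792)) (l 16822480)) (b (l 16851768) (l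 16951496))) (a (l 16933824) (l 17040432))))) (a (b (a (b (b (l 325511615735) (a (b (l 307794847415) (l 16801424)) (l 16809920))) (l 16811880)) (b (a (b (l 142975478535) (l 16821112)) (l 16826648)) (l 17001168))) (b (l 17122568) (l 17132808))) (b (b (a (b (l 16910728) (l 16920592)) (l 16955808)) (l 17029808)) (l 17192632))))) (b (a (b (a (b (l 3) (a (l 366850684663) (b (l 288467537751) (l 84456551591)))) (b (a (l 306721194103) (b (a (l 241222870375) (l 16804848)) (l 16814496))) (a (l 16802760) (l 16946304)))) (a (b (b (a (a (l 221358646519) (l 16809472)) (l 16834072)) (l 16851784)) (a (l 16957696) (l 16975344))) (b (l 17030968) (l 17062680)))) (b (a (b (l 16858368) (l 16990520)) (l 17115896)) (l 17305968))) (a (b (a (l 17200056) (l 17208016)) (l 17358256)) (l 17627040)))), by decide +kernel⟩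

def k37_pm_011 : ∃ t, chk3 f_pm_011 t 5 15 1 = true :=
  ⟨(a (b (a (b (a (b (a (l 16883544) (l 17035824)) (l 17137360)) (l 17050264)) (a (l 17312656) (l 17471120))) (b (l 17537976) (l 17627336))) (b (a (l 17728320) (l 17912376)) (l 18152976))) (b (a (l 17796912) (l 17866312)) (l 18271880))), by decide +kernel⟩

def k38_pm_011 : ∃ t, chk3 f_pm_011 t 3 3 1 = true :=
  ⟨(b (a (b (a (b (l 3) (a (l 3) (b (l 3) (a (l 3) (l 373293204503))))) (b (l 1) (a (b (l 1) (a (l 168611152455) (l 1))) (l 1)))) (a (b (a (b (l 3) (a (b (l 3) (l 399062969383)) (b (l 330343516199) (a (b (l 269677025367) (l 16808840)) (l 16839976))))) (b (a (b (l 414095355287) (a (l 338933383079) (b (l 178945836503) (l 16815408)))) (b (a (l 233706714919) (l 16824496)) (l 16843368))) (a (b (a (l 16818712) (l 16843192)) (l 16930464)) (l 17002496)))) (a (b (a (b (a (l 300815587815) (b (l 122037518183) (l 16832120))) (a (l 16838184) (l 16889664))) (b (a (l 16842632) (l 16911776)) (l 16962880))) (a (l 17089464)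 (l 17080104))) (b (l 17141864) (l 17206512)))) (b (a (b (a (l 16870208) (l 16980208)) (l 17069200)) (l 17140256)) (l 17468944)))) (b (l 1) (a (b (l 1) (l 17442920)) (l 1)))) (a (b (a (b (a (l 17512168) (l 17439328)) (l 17806712)) (b (l 17600088) (l 17886176))) (a (b (l 18063016) (l 18472152)) (l 18358672))) (b (a (l 17797672) (l 17824136)) (a (l 18303768) (l 18229248))))), by decide +kernel⟩

theorem s39_pm_011 : ∃ t, chk3 f_pm_011 t 5 7 1 = true := ex3_b k36_pm_011 k37_pm_011

theorem s40_pm_011 : ∃ t, chk3 f_pm_011 t 18 61 1 = true := ex3_a k32_pm_011 k33_pm_011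

theorem s41_pm_011 : ∃ t, chk3 f_pm_011 t 18 30 1 = true := ex3_b k31_pm_011 s40_pm_011

theorem s42_pm_011 : ∃ t, chk3 f_pm_011 t 9 30 1 = true := ex3_a s41_pm_011 k34_pm_011

theorem s43_pm_011 : ∃ t, chk3 f_pm_011 t 9 15 1 = true := ex3_b s42_pm_011 k35_pm_011

theorem s44_pm_011 : ∃ t, chk3 f_pm_011 t 34 63 1 = true := ex3_a k28_pm_011 k29_pm_011

theorem s45_pm_011 : ∃ t, chk3 f_pm_011 t 17 63 1 = true := ex3_a s44_pm_011 k30_pm_011

theorem s46_pm_011 : ∃ t, chk3 f_pm_011 t 35 124 1 = true := ex3_a k25_pm_011 k26_pm_011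

theorem s47_pm_011 : ∃ t, chk3 f_pm_011 t 35 62 1 = true := ex3_b s46_pm_011 k27_pm_011

theorem s48_pm_011 : ∃ t, chk3 f_pm_011 t 69 250 1 = true := ex3_a k22_pm_011 k23_pm_011

theorem s49_pm_011 : ∃ t, chk3 f_pm_011 t 69 125 1 = true := ex3_b s48_pm_011 k24_pm_011

theorem s50_pm_011 : ∃ t, chk3 f_pm_011 t 68 251 1 = true := ex3_a k20_pm_011 k21_pm_011

theorem s51_pm_011 : ∃ t, chk3 f_pm_011 t 68 125 1 = true := ex3_b k19_pm_011 s50_pm_011

theorem s52_pm_011 : ∃ t, chk3 f_pm_011 t 34 125 1 = true := ex3_a s51_pm_011 s49_pm_011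

theorem s53_pm_011 : ∃ t, chk3 f_pm_011 t 34 62 1 = true := ex3_b k18_pm_011 s52_pm_011

theorem s54_pm_011 : ∃ t, chk3 f_pm_011 t 17 62 1 = true := ex3_a s53_pm_011 s47_pm_011

theorem s55_pm_011 : ∃ t, chk3 f_pm_011 t 17 31 1 = true := ex3_b s54_pm_011 s45_pm_011

theorem s56_pm_011 : ∃ t, chk3 f_pm_011 t 135 252 1 = true := ex3_b k14_pm_011 k15_pm_011

theorem s57_pm_011 : ∃ t, chk3 f_pm_011 t 134 505 1 = true := ex3_a k12_pm_011 k13_pm_011

theorem s58_pm_011 : ∃ t, chk3 f_pm_011 t 134 252 1 = true := ex3_b k11_pm_011 s57_pm_011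

theorem s59_pm_011 : ∃ t, chk3 f_pm_011 t 67 252 1 = true := ex3_a s58_pm_011 s56_pm_011

theorem s60_pm_011 : ∃ t, chk3 f_pm_011 t 67 126 1 = true := ex3_b s59_pm_011 k16_pm_011

theorem s61_pm_011 : ∃ t, chk3 f_pm_011 t 133 506 1 = true := ex3_a k8_pm_011 k9_pm_011

theorem s62_pm_011 : ∃ t, chk3 f_pm_011 t 133 253 1 = true := ex3_b s61_pm_011 k10_pm_011

theorem s63_pm_011 : ∃ t, chk3 f_pm_011 t 66 253 1 = true := ex3_a k7_pm_011 s62_pm_011

theorem s64_pm_011 : ∃ t, chk3 f_pm_011 t 66 126 1 = true := ex3_b k6_pm_011 s63_pm_011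

theorem s65_pm_011 : ∃ t, chk3 f_pm_011 t 33 126 1 = true := ex3_a s64_pm_011 s60_pm_011

theorem s66_pm_011 : ∃ t, chk3 f_pm_011 t 33 63 1 = true := ex3_b s65_pm_011 k17_pm_011

theorem s67_pm_011 : ∃ t, chk3 f_pm_011 t 16 63 1 = true := ex3_a k5_pm_011 s66_pm_011

theorem s68_pm_011 : ∃ t, chk3 f_pm_011 t 16 31 1 = true := ex3_b k4_pm_011 s67_pm_011

theorem s69_pm_011 : ∃ t, chk3 f_pm_011 t 8 31 1 = true := ex3_a s68_pm_011 s55_pm_011

theorem s70_pm_011 : ∃ t, chk3 f_pm_011 t 8 15 1 = true := ex3_b k3_pm_011 s69_pm_011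

theorem s71_pm_011 : ∃ t, chk3 f_pm_011 t 4 15 1 = true := ex3_a s70_pm_011 s43_pm_011

theorem s72_pm_011 : ∃ t, chk3 f_pm_011 t 4 7 1 = true := ex3_b k2_pm_011 s71_pm_011

theorem s73_pm_011 : ∃ t, chk3 f_pm_011 t 2 7 1 = true := ex3_a s72_pm_011 s39_pm_011

theorem s74_pm_011 : ∃ t, chk3 f_pm_011 t 2 3 1 = true := ex3_b k1_pm_011 s73_pm_011

theorem s75_pm_011 : ∃ t, chk3 f_pm_011 t 1 3 1 = true := ex3_a s74_pm_011 k38_pm_011

theorem s76_pm_011 : ∃ t, chk3 f_pm_011 t 1 1 1 = true := ex3_b k0_pm_011 s75_pm_011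

theorem c_pm_011 : CertN 0 536870912 536870912 536870912 33554432 16777216 3 true true false .pnn 0 1 1
    ndN0q0 ndN4q1 pcN1 cut_pm_011 Ext.none :=
  certNK1 (fam := true) (s1 := true) (s2 := false) (a := 0) (b := 1) (c := 1) (cn := .pnn) (n1 := ndN0q0) (n2 := ndN4q1) (pc := pcN1) (cut := cut_pm_011) (xt := Ext.none) (P1 := 0) (W1 := 536870912) (P2 := 536870912) (W2 := 536870912) (P3 := 33554432) (W3 := 16777216) (N0 := 3)
    rfl rfl rfl (fun _ => rfl) s76_pm_011

end Pool.Agent.Strip051.G.I1_32_3_64.Tab.C.NA04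

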