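import Pool.Agent.Strip051.G.I1_32_3_64.Tab
import Pool.Agent.Strip051.PB.RowK

/-! # Certificates N7 (generated) -/

set_option linter.all false
set_option maxRecDepth 100000

namespace Pool.Agent.Strip051.G.I1_32_3_64.Tab.C.NA33

open Pool.Agent.Strip051.PB Pool.Agent.Strip051.PB.T
open Pool.Agent.Strip051.G.I1_32_3_64.Tab

noncomputable def f_mm_133 : ℕ → ℕ → ℕ → ℕ → Bool := onCell 536870912 536870912 0 1230186008 33554432 16777216
    (rowNK 3 0 true false false .dn 1 3 3 (qsf 536870912 536870912 0 1230186008 3) ndN3q1 ndN3q3 pcN3 Cut.none Ext.none)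

def k0_mm_133 : ∃ t, chk3 f_mm_133 t 1 1 1 = true :=
  ⟨(l 4), by decide +kernel⟩

theorem c_mm_133 : CertN 536870912 536870912 0 1230186008 33554432 16777216 3 true false false .dn 1 3 3
    ndN3q1 ndN3q3 pcN3 Cut.none Ext.none :=
  certNK0 (fam := true) (s1 := false) (s2 := false) (a := 1) (b := 3) (c := 3) (cn := .dn) (n1 := ndN3q1) (n2 := ndN3q3) (pc := pcN3) (cut := Cut.none) (xt := Ext.none) (P1 := 536870912) (W1 := 536870912) (P2 := 0) (W2 := 1230186008) (P3 := 33554432) (W3 := 16777216) (N0 := 3)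
    rfl rfl rfl k0_mm_133

noncomputable def f_mm_202 : ℕ → ℕ → ℕ → ℕ → Bool := onCell 1073741824 536870912 0 536870912 33554432 16777216
    (rowNK 3 0 true false false .pp 2 0 2 (qsf 1073741824 536870912 0 536870912 2) ndN3q2 ndN3q0 pcN2 Cut.none Ext.none)

def k0_mm_202 : ∃ t, chk3 f_mm_202 t 1 1 1 = true :=
  ⟨(l 4), by decide +kernel⟩

theorem c_mm_202 : CertN 1073741824 536870912 0 536870912 33554432 16777216 3 true false false .pp 2 0 2
    ndN3q2 ndN3q0 pcN2 Cut.none Ext.none :=
  certNK0 (fam := true) (s1 := false) (s2 := false) (a := 2) (b := 0) (c := 2) (cn := .pp) (n1 := ndN3q2) (n2 := ndN3q0) (pc := pcN2) (cut := Cut.none) (xt := Ext.none) (P1 := 1073741824) (W1 := 536870912) (P2 := 0) (W2 := 536870912) (P3 := 33554432) (W3 := 16777216) (N0 := 3)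
    rfl rfl rfl k0_mm_202

noncomputable def f_mm_203 : ℕ → ℕ → ℕ → ℕ → Bool := onCell 1073741824 536870912 0 536870912 33554432 16777216
    (rowNK 3 0 true false false .up 2 0 3 (qsf 1073741824 536870912 0 536870912 3) ndN3q2 ndN3q0 pcN3 Cut.none Ext.none)

def k0_mm_203 : ∃ t, chk3 f_mm_203 t 1 1 1 = true :=
  ⟨(l 4), by decide +kernel⟩

theorem c_mm_203 : CertN 1073741824 536870912 0 536870912 33554432 16777216 3 true false false .up 2 0 3
    ndN3q2 ndN3q0 pcN3 Cut.none Ext.none :=
  certNK0 (fam := true) (s1 := false) (s2 := false) (a := 2) (b := 0) (c := 3) (cn := .up) (n1 := ndN3q2) (n2 := ndN3q0) (pc := pcN3) (cut := Cut.none) (xt := Ext.none) (P1 := 1073741824) (W1 := 536870912) (P2 := 0) (W2 := 536870912) (P3 := 33554432) (W3 := 16777216) (N0 := 3)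
    rfl rfl rfl k0_mm_203

noncomputable def f_mm_213 : ℕ → ℕ → ℕ → ℕ → Bool := onCell 1073741824 536870912 536870912 536870912 33554432 16777216
    (rowNK 3 0 true false false .pnn 2 1 3 (qsf 1073741824 536870912 536870912 536870912 3) ndN3q2 ndN3q1 pcN3 Cut.none Ext.none)

def k0_mm_213 : ∃ t, chk3 f_mm_213 t 1 1 1 = true :=
  ⟨(l 4), by decide +kernel⟩

theorem c_mm_213 : CertN 1073741824 536870912 536870912 536870912 33554432 16777216 3 true false false .pnn 2 1 3
    ndN3q2 ndN3q1 pcN3 Cut.none Ext.none :=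
  certNK0 (fam := true) (s1 := false) (s2 := false) (a := 2) (b := 1) (c := 3) (cn := .pnn) (n1 := ndN3q2) (n2 := ndN3q1) (pc := pcN3) (cut := Cut.none) (xt := Ext.none) (P1 := 1073741824) (W1 := 536870912) (P2 := 536870912) (W2 := 536870912) (P3 := 33554432) (W3 := 16777216) (N0 := 3)
    rfl rfl rfl k0_mm_213

noncomputable def f_mm_303 : ℕ → ℕ → ℕ → ℕ → Bool := onCell 0 1230186008 0 536870912 33554432 16777216
    (rowNK 3 0 true false false .npn 3 0 3 (qsf 0 1230186008 0 536870912 3) ndN3q3 ndN3q0 pcN3 Cut.none Ext.none)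

def k0_mm_303 : ∃ t, chk3 f_mm_303 t 1 1 1 = true :=
  ⟨(l 4), by decide +kernel⟩

theorem c_mm_303 : CertN 0 1230186008 0 536870912 33554432 16777216 3 true false false .npn 3 0 3
    ndN3q3 ndN3q0 pcN3 Cut.none Ext.none :=
  certNK0 (fam := true) (s1 := false) (s2 := false) (a := 3) (b := 0) (c := 3) (cn := .npn) (n1 := ndN3q3) (n2 := ndN3q0) (pc := pcN3) (cut := Cut.none) (xt := Ext.none) (P1 := 0) (W1 := 1230186008) (P2 := 0) (W2 := 536870912) (P3 := 33554432) (W3 := 16777216) (N0 := 3)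
    rfl rfl rfl k0_mm_303

noncomputable def f_mm_313 : ℕ → ℕ → ℕ → ℕ → Bool := onCell 0 1230186008 536870912 536870912 33554432 16777216
    (rowNK 3 0 true false false .dn 3 1 3 (qsf 0 1230186008 536870912 536870912 3) ndN3q3 ndN3q1 pcN3 Cut.none Ext.none)

def k0_mm_313 : ∃ t, chk3 f_mm_313 t 1 1 1 = true :=
  ⟨(l 4), by decide +kernel⟩

theorem c_mm_313 : CertN 0 1230186008 536870912 536870912 33554432 16777216 3 true false false .dn 3 1 3
    ndN3q3 ndN3q1 pcN3 Cut.none Ext.none :=
  certNK0 (fam := true) (s1 := false) (s2 := false) (a := 3) (b := 1) (c := 3) (cn := .dn) (n1 := ndN3q3) (n2 := ndN3q1) (pc := pcN3) (cut := Cut.none) (xt := Ext.none) (P1 := 0) (W1 := 1230186008) (P2 := 536870912) (W2 := 536870912) (P3 := 33554432) (W3 := 16777216) (N0 := 3)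
    rfl rfl rfl k0_mm_313

end Pool.Agent.Strip051.G.I1_32_3_64.Tab.C.NA33

namespace Pool.Agent.Strip051.G.I1_32_3_64.Tab.C.NA34

open Pool.Agent.Strip051.PB Pool.Agent.Strip051.PB.T
open Pool.Agent.Strip051.G.I1_32_3_64.Tab

noncomputable def f_pp_001 : ℕ → ℕ → ℕ → ℕ → Bool := onCell 0 536870912 0 536870912 33554432 16777216
    (rowNK 3 0 true true true .up 0 0 1 (qsf 0 536870912 0 536870912 1) ndN3q0 ndN4q0 pcN1 Cut.none Ext.none)

def k0_pp_001 : ∃ t, chk3 f_pp_001 t 1 1 1 = true :=
  ⟨(l 4), by decide +kernel⟩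

theorem c_pp_001 : CertN 0 536870912 0 536870912 33554432 16777216 3 true true true .up 0 0 1
    ndN3q0 ndN4q0 pcN1 Cut.none Ext.none :=
  certNK0 (fam := true) (s1 := true) (s2 := true) (a := 0) (b := 0) (c := 1) (cn := .up) (n1 := ndN3q0) (n2 := ndN4q0) (pc := pcN1) (cut := Cut.none) (xt := Ext.none) (P1 := 0) (W1 := 536870912) (P2 := 0) (W2 := 536870912) (P3 := 33554432) (W3 := 16777216) (N0 := 3)
    rfl rfl rfl k0_pp_001

noncomputable def f_pp_011 : ℕ → ℕ → ℕ → ℕ → Bool := onCell 0 536870912 536870912 536870912 33554432 16777216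
    (rowNK 3 0 true true true .pnn 0 1 1 (qsf 0 536870912 536870912 536870912 1) ndN3q0 ndN4q1 pcN1 Cut.none Ext.none)

def k0_pp_011 : ∃ t, chk3 f_pp_011 t 1 1 1 = true :=
  ⟨(l 4), by decide +kernel⟩

theorem c_pp_011 : CertN 0 536870912 536870912 536870912 33554432 16777216 3 true true true .pnn 0 1 1
    ndN3q0 ndN4q1 pcN1 Cut.none Ext.none :=
  certNK0 (fam := true) (s1 := true) (s2 := true) (a := 0) (b := 1) (c := 1) (cn := .pnn) (n1 := ndN3q0) (n2 := ndN4q1) (pc := pcN1) (cut := Cut.none) (xt := Ext.none) (P1 := 0) (W1 := 536870912) (P2 := 536870912) (W2 := 536870912) (P3 := 33554432) (W3 := 16777216) (N0 := 3)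
    rfl rfl rfl k0_pp_011

noncomputable def f_pp_012 : ℕ → ℕ → ℕ → ℕ → Bool := onCell 0 536870912 536870912 536870912 33554432 16777216
    (rowNK 3 0 true true true .pnp 0 1 2 (qsf 0 536870912 536870912 536870912 2) ndN3q0 ndN4q1 pcN2 Cut.none Ext.none)

def k0_pp_012 : ∃ t, chk3 f_pp_012 t 1 1 1 = true :=
  ⟨(l 4), by decide +kernel⟩

theorem c_pp_012 : CertN 0 536870912 536870912 536870912 33554432 16777216 3 true true true .pnp 0 1 2
    ndN3q0 ndN4q1 pcN2 Cut.none Ext.none :=
  certNK0 (fam := true) (s1 := true) (s2 := true) (a := 0) (b := 1) (c := 2) (cn := .pnp) (n1 := ndN3q0) (n2 := ndN4q1) (pc := pcN2) (cut := Cut.none) (xt := Ext.none) (P1 := 0) (W1 := 536870912) (P2 := 536870912) (W2 := 536870912) (P3 := 33554432) (W3 := 16777216) (N0 := 3)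
    rfl rfl rfl k0_pp_012

noncomputable def f_pp_022 : ℕ → ℕ → ℕ → ℕ → Bool := onCell 0 536870912 1073741824 536870912 33554432 16777216
    (rowNK 3 0 true true true .pp 0 2 2 (qsf 0 536870912 1073741824 536870912 2) ndN3q0 ndN4q2 pcN2 Cut.none Ext.none)

def k0_pp_022 : ∃ t, chk3 f_pp_022 t 1 1 1 = true :=
  ⟨(l 4), by decide +kernel⟩

theorem c_pp_022 : CertN 0 536870912 1073741824 536870912 33554432 16777216 3 true true true .pp 0 2 2
    ndN3q0 ndN4q2 pcN2 Cut.none Ext.none :=
  certNK0 (fam := true) (s1 := true) (s2 := true) (a := 0) (b := 2) (c := 2) (cn := .pp) (n1 := ndN3q0) (n2 := ndN4q2) (pc := pcN2) (cut := Cut.none) (xt := Ext.none) (P1 := 0) (W1 := 536870912) (P2 := 1073741824) (W2 := 536870912) (P3 := 33554432) (W3 := 16777216) (N0 := 3)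
    rfl rfl rfl k0_pp_022

noncomputable def f_pp_023 : ℕ → ℕ → ℕ → ℕ → Bool := onCell 0 536870912 1073741824 536870912 33554432 16777216
    (rowNK 3 0 true true true .up 0 2 3 (qsf 0 536870912 1073741824 536870912 3) ndN3q0 ndN4q2 pcN3 Cut.none Ext.none)

def k0_pp_023 : ∃ t, chk3 f_pp_023 t 1 1 1 = true :=
  ⟨(l 4), by decide +kernel⟩

theorem c_pp_023 : CertN 0 536870912 1073741824 536870912 33554432 16777216 3 true true true .up 0 2 3
    ndN3q0 ndN4q2 pcN3 Cut.none Ext.none :=
  certNK0 (fam := true) (s1 := true) (s2 := true) (a := 0) (b := 2) (c := 3) (cn := .up) (n1 := ndN3q0) (n2 := ndN4q2) (pc := pcN3) (cut := Cut.none) (xt := Ext.none) (P1 := 0) (W1 := 536870912) (P2 := 1073741824) (W2 := 536870912) (P3 := 33554432) (W3 := 16777216) (N0 := 3)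
    rfl rfl rfl k0_pp_023

noncomputable def f_pp_033 : ℕ → ℕ → ℕ → ℕ → Bool := onCell 0 536870912 0 1230186008 33554432 16777216
    (rowNK 3 0 true true true .pnn 0 3 3 (qsf 0 536870912 0 1230186008 3) ndN3q0 ndN4q3 pcN3 Cut.none Ext.none)

def k0_pp_033 : ∃ t, chk3 f_pp_033 t 1 1 1 = true :=
  ⟨(l 4), by decide +kernel⟩

theorem c_pp_033 : CertN 0 536870912 0 1230186008 33554432 16777216 3 true true true .pnn 0 3 3
    ndN3q0 ndN4q3 pcN3 Cut.none Ext.none :=
  certNK0 (fam := true) (s1 := true) (s2 := true) (a := 0) (b := 3) (c := 3) (cn := .pnn) (n1 := ndN3q0) (n2 := ndN4q3) (pc := pcN3) (cut := Cut.none) (xt := Ext.none) (P1 := 0) (W1 := 536870912) (P2 := 0) (W2 := 1230186008) (P3 := 33554432) (W3 := 16777216) (N0 := 3)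
    rfl rfl rfl k0_pp_033

noncomputable def f_pp_101 : ℕ → ℕ → ℕ → ℕ → Bool := onCell 536870912 536870912 0 536870912 33554432 16777216
    (rowNK 3 0 true true true .npn 1 0 1 (qsf 536870912 536870912 0 536870912 1) ndN3q1 ndN4q0 pcN1 Cut.none Ext.none)

def k0_pp_101 : ∃ t, chk3 f_pp_101 t 1 1 1 = true :=
  ⟨(l 4), by decide +kernel⟩

theorem c_pp_101 : CertN 536870912 536870912 0 536870912 33554432 16777216 3 true true true .npn 1 0 1
    ndN3q1 ndN4q0 pcN1 Cut.none Ext.none :=
  certNK0 (fam := true) (s1 := true) (s2 := true) (a := 1) (b := 0) (c := 1) (cn := .npn) (n1 := ndN3q1) (n2 := ndN4q0) (pc := pcN1) (cut := Cut.none) (xt := Ext.none) (P1 := 536870912) (W1 := 536870912) (P2 := 0) (W2 := 536870912) (P3 := 33554432) (W3 := 16777216) (N0 := 3)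
    rfl rfl rfl k0_pp_101

noncomputable def f_pp_102 : ℕ → ℕ → ℕ → ℕ → Bool := onCell 536870912 536870912 0 536870912 33554432 16777216
    (rowNK 3 0 true true true .npp 1 0 2 (qsf 536870912 536870912 0 536870912 2) ndN3q1 ndN4q0 pcN2 Cut.none Ext.none)

def k0_pp_102 : ∃ t, chk3 f_pp_102 t 1 1 1 = true :=
  ⟨(l 4), by decide +kernel⟩

theorem c_pp_102 : CertN 536870912 536870912 0 536870912 33554432 16777216 3 true true true .npp 1 0 2
    ndN3q1 ndN4q0 pcN2 Cut.none Ext.none :=
  certNK0 (fam := true) (s1 := true) (s2 := true) (a := 1) (b := 0) (c := 2) (cn := .npp) (n1 := ndN3q1) (n2 := ndN4q0) (pc := pcN2) (cut := Cut.none) (xt := Ext.none) (P1 := 536870912) (W1 := 536870912) (P2 := 0) (W2 := 536870912) (P3 := 33554432) (W3 := 16777216) (N0 := 3)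
    rfl rfl rfl k0_pp_102

noncomputable def f_pp_112 : ℕ → ℕ → ℕ → ℕ → Bool := onCell 536870912 536870912 536870912 536870912 33554432 16777216
    (rowNK 3 0 true true true .dn 1 1 2 (qsf 536870912 536870912 536870912 536870912 2) ndN3q1 ndN4q1 pcN2 Cut.none Ext.none)

def k0_pp_112 : ∃ t, chk3 f_pp_112 t 1 1 1 = true :=
  ⟨(l 4), by decide +kernel⟩

theorem c_pp_112 : CertN 536870912 536870912 536870912 536870912 33554432 16777216 3 true true true .dn 1 1 2
    ndN3q1 ndN4q1 pcN2 Cut.none Ext.none :=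
  certNK0 (fam := true) (s1 := true) (s2 := true) (a := 1) (b := 1) (c := 2) (cn := .dn) (n1 := ndN3q1) (n2 := ndN4q1) (pc := pcN2) (cut := Cut.none) (xt := Ext.none) (P1 := 536870912) (W1 := 536870912) (P2 := 536870912) (W2 := 536870912) (P3 := 33554432) (W3 := 16777216) (N0 := 3)
    rfl rfl rfl k0_pp_112

noncomputable def f_pp_113 : ℕ → ℕ → ℕ → ℕ → Bool := onCell 536870912 536870912 536870912 536870912 33554432 16777216
    (rowNK 3 0 true true true .nn 1 1 3 (qsf 536870912 536870912 536870912 536870912 3) ndN3q1 ndN4q1 pcN3 Cut.none Ext.none)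

def k0_pp_113 : ∃ t, chk3 f_pp_113 t 1 1 1 = true :=
  ⟨(l 4), by decide +kernel⟩

theorem c_pp_113 : CertN 536870912 536870912 536870912 536870912 33554432 16777216 3 true true true .nn 1 1 3
    ndN3q1 ndN4q1 pcN3 Cut.none Ext.none :=
  certNK0 (fam := true) (s1 := true) (s2 := true) (a := 1) (b := 1) (c := 3) (cn := .nn) (n1 := ndN3q1) (n2 := ndN4q1) (pc := pcN3) (cut := Cut.none) (xt := Ext.none) (P1 := 536870912) (W1 := 536870912) (P2 := 536870912) (W2 := 536870912) (P3 := 33554432) (W3 := 16777216) (N0 := 3)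
    rfl rfl rfl k0_pp_113

noncomputable def f_pp_123 : ℕ → ℕ → ℕ → ℕ → Bool := onCell 536870912 536870912 1073741824 536870912 33554432 16777216
    (rowNK 3 0 true true true .npn 1 2 3 (qsf 536870912 536870912 1073741824 536870912 3) ndN3q1 ndN4q2 pcN3 Cut.none Ext.none)

def k0_pp_123 : ∃ t, chk3 f_pp_123 t 1 1 1 = true :=
  ⟨(l 4), by decide +kernel⟩

theorem c_pp_123 : CertN 536870912 536870912 1073741824 536870912 33554432 16777216 3 true true true .npn 1 2 3
    ndN3q1 ndN4q2 pcN3 Cut.none Ext.none :=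
  certNK0 (fam := true) (s1 := true) (s2 := true) (a := 1) (b := 2) (c := 3) (cn := .npn) (n1 := ndN3q1) (n2 := ndN4q2) (pc := pcN3) (cut := Cut.none) (xt := Ext.none) (P1 := 536870912) (W1 := 536870912) (P2 := 1073741824) (W2 := 536870912) (P3 := 33554432) (W3 := 16777216) (N0 := 3)
    rfl rfl rfl k0_pp_123

noncomputable def f_pp_133 : ℕ → ℕ → ℕ → ℕ → Bool := onCell 536870912 536870912 0 1230186008 33554432 16777216
    (rowNK 3 0 true true true .dn 1 3 3 (qsf 536870912 536870912 0 1230186008 3) ndN3q1 ndN4q3 pcN3 Cut.none Ext.none)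

def k0_pp_133 : ∃ t, chk3 f_pp_133 t 1 1 1 = true :=
  ⟨(l 4), by decide +kernel⟩

theorem c_pp_133 : CertN 536870912 536870912 0 1230186008 33554432 16777216 3 true true true .dn 1 3 3
    ndN3q1 ndN4q3 pcN3 Cut.none Ext.none :=
  certNK0 (fam := true) (s1 := true) (s2 := true) (a := 1) (b := 3) (c := 3) (cn := .dn) (n1 := ndN3q1) (n2 := ndN4q3) (pc := pcN3) (cut := Cut.none) (xt := Ext.none) (P1 := 536870912) (W1 := 536870912) (P2 := 0) (W2 := 1230186008) (P3 := 33554432) (W3 := 16777216) (N0 := 3)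
    rfl rfl rfl k0_pp_133

noncomputable def f_pp_202 : ℕ → ℕ → ℕ → ℕ → Bool := onCell 1073741824 536870912 0 536870912 33554432 16777216
    (rowNK 3 0 true true true .pp 2 0 2 (qsf 1073741824 536870912 0 536870912 2) ndN3q2 ndN4q0 pcN2 Cut.none Ext.none)

def k0_pp_202 : ∃ t, chk3 f_pp_202 t 1 1 1 = true :=
  ⟨(l 4), by decide +kernel⟩

theorem c_pp_202 : CertN 1073741824 536870912 0 536870912 33554432 16777216 3 true true true .pp 2 0 2
    ndN3q2 ndN4q0 pcN2 Cut.none Ext.none :=
  certNK0 (fam := true) (s1 := true) (s2 := true) (a := 2) (b := 0) (c := 2) (cn := .pp) (n1 := ndN3q2) (n2 := ndN4q0) (pc := pcN2) (cut := Cut.none) (xt := Ext.none) (P1 := 1073741824) (W1 := 536870912) (P2 := 0) (W2 := 536870912) (P3 := 33554432) (W3 := 16777216) (N0 := 3)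
    rfl rfl rfl k0_pp_202

noncomputable def f_pp_203 : ℕ → ℕ → ℕ → ℕ → Bool := onCell 1073741824 536870912 0 536870912 33554432 16777216
    (rowNK 3 0 true true true .up 2 0 3 (qsf 1073741824 536870912 0 536870912 3) ndN3q2 ndN4q0 pcN3 Cut.none Ext.none)

def k0_pp_203 : ∃ t, chk3 f_pp_203 t 1 1 1 = true :=
  ⟨(l 4), by decide +kernel⟩

theorem c_pp_203 : CertN 1073741824 536870912 0 536870912 33554432 16777216 3 true true true .up 2 0 3
    ndN3q2 ndN4q0 pcN3 Cut.none Ext.none :=
  certNK0 (fam := true) (s1 := true) (s2 := true) (a := 2) (b := 0) (c := 3) (cn := .up) (n1 := ndN3q2) (n2 := ndN4q0) (pc := pcN3) (cut := Cut.none) (xt := Ext.none) (P1 := 1073741824) (W1 := 536870912) (P2 := 0) (W2 := 536870912) (P3 := 33554432) (W3 := 16777216) (N0 := 3)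
    rfl rfl rfl k0_pp_203

noncomputable def f_pp_213 : ℕ → ℕ → ℕ → ℕ → Bool := onCell 1073741824 536870912 536870912 536870912 33554432 16777216
    (rowNK 3 0 true true true .pnn 2 1 3 (qsf 1073741824 536870912 536870912 536870912 3) ndN3q2 ndN4q1 pcN3 Cut.none Ext.none)

def k0_pp_213 : ∃ t, chk3 f_pp_213 t 1 1 1 = true :=
  ⟨(l 4), by decide +kernel⟩

theorem c_pp_213 : CertN 1073741824 536870912 536870912 536870912 33554432 16777216 3 true true true .pnn 2 1 3
    ndN3q2 ndN4q1 pcN3 Cut.none Ext.none :=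
  certNK0 (fam := true) (s1 := true) (s2 := true) (a := 2) (b := 1) (c := 3) (cn := .pnn) (n1 := ndN3q2) (n2 := ndN4q1) (pc := pcN3) (cut := Cut.none) (xt := Ext.none) (P1 := 1073741824) (W1 := 536870912) (P2 := 536870912) (W2 := 536870912) (P3 := 33554432) (W3 := 16777216) (N0 := 3)
    rfl rfl rfl k0_pp_213

noncomputable def f_pp_303 : ℕ → ℕ → ℕ → ℕ → Bool := onCell 0 1230186008 0 536870912 33554432 16777216
    (rowNK 3 0 true true true .npn 3 0 3 (qsf 0 1230186008 0 536870912 3) ndN3q3 ndN4q0 pcN3 Cut.none Ext.none)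

def k0_pp_303 : ∃ t, chk3 f_pp_303 t 1 1 1 = true :=
  ⟨(l 4), by decide +kernel⟩

theorem c_pp_303 : CertN 0 1230186008 0 536870912 33554432 16777216 3 true true true .npn 3 0 3
    ndN3q3 ndN4q0 pcN3 Cut.none Ext.none :=
  certNK0 (fam := true) (s1 := true) (s2 := true) (a := 3) (b := 0) (c := 3) (cn := .npn) (n1 := ndN3q3) (n2 := ndN4q0) (pc := pcN3) (cut := Cut.none) (xt := Ext.none) (P1 := 0) (W1 := 1230186008) (P2 := 0) (W2 := 536870912) (P3 := 33554432) (W3 := 16777216) (N0 := 3)
    rfl rfl rfl k0_pp_303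

noncomputable def f_pp_313 : ℕ → ℕ → ℕ → ℕ → Bool := onCell 0 1230186008 536870912 536870912 33554432 16777216
    (rowNK 3 0 true true true .dn 3 1 3 (qsf 0 1230186008 536870912 536870912 3) ndN3q3 ndN4q1 pcN3 Cut.none Ext.none)

def k0_pp_313 : ∃ t, chk3 f_pp_313 t 1 1 1 = true :=
  ⟨(l 4), by decide +kernel⟩

theorem c_pp_313 : CertN 0 1230186008 536870912 536870912 33554432 16777216 3 true true true .dn 3 1 3
    ndN3q3 ndN4q1 pcN3 Cut.none Ext.none :=
  certNK0 (fam := true) (s1 := true) (s2 := true) (a := 3) (b := 1) (c := 3) (cn := .dn) (n1 := ndN3q3) (n2 := ndN4q1) (pc := pcN3) (cut := Cut.none) (xt := Ext.none) (P1 := 0) (W1 := 1230186008) (P2 := 536870912) (W2 := 536870912) (P3 := 33554432) (W3 := 16777216) (N0 := 3)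
    rfl rfl rfl k0_pp_313

noncomputable def f_pm_001 : ℕ → ℕ → ℕ → ℕ → Bool := onCell 0 536870912 0 536870912 33554432 16777216
    (rowNK 3 0 true true false .up 0 0 1 (qsf 0 536870912 0 536870912 1) ndN3q0 ndN4q0 pcN1 Cut.none Ext.none)

def k0_pm_001 : ∃ t, chk3 f_pm_001 t 1 1 1 = true :=
  ⟨(l 3), by decide +kernel⟩

theorem c_pm_001 : CertN 0 536870912 0 536870912 33554432 16777216 3 true true false .up 0 0 1
    ndN3q0 ndN4q0 pcN1 Cut.none Ext.none :=
  certNK0 (fam := true) (s1 := true) (s2 := false) (a := 0) (b := 0) (c := 1) (cn := .up) (n1 := ndN3q0) (n2 := ndN4q0) (pc := pcN1) (cut := Cut.none) (xt := Ext.none) (P1 := 0) (W1 := 536870912) (P2 := 0) (W2 := 536870912) (P3 := 33554432) (W3 := 16777216) (N0 := 3)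
    rfl rfl rfl k0_pm_001

noncomputable def f_pm_011 : ℕ → ℕ → ℕ → ℕ → Bool := onCell 0 536870912 536870912 536870912 33554432 16777216
    (rowNK 3 1 true true false .pnn 0 1 1 (qsf 0 536870912 536870912 536870912 1) ndN3q0 ndN4q1 pcN1 Cut.none Ext.none)

def k0_pm_011 : ∃ t, chk3 f_pm_011 t 1 1 1 = true :=
  ⟨(l 3), by decide +kernel⟩

theorem c_pm_011 : CertN 0 536870912 536870912 536870912 33554432 16777216 3 true true false .pnn 0 1 1
    ndN3q0 ndN4q1 pcN1 Cut.none Ext.none :=
  certNK1 (fam := true) (s1 := true) (s2 := false) (a := 0) (b := 1) (c := 1) (cn := .pnn) (n1 := ndN3q0) (n2 := ndN4q1) (pc := pcN1) (cut := Cut.none) (xt := Ext.none) (P1 := 0) (W1 := 536870912) (P2 := 536870912) (W2 := 536870912) (P3 := 33554432) (W3 := 16777216) (N0 := 3)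
    rfl rfl rfl (fun _ => rfl) k0_pm_011

noncomputable def f_pm_012 : ℕ → ℕ → ℕ → ℕ → Bool := onCell 1073741824 536870912 536870912 536870912 33554432 16777216
    (rowNK 3 2 true true false .pnp 0 1 2 (qsf 0 536870912 536870912 536870912 2) ndN3q0 ndN4q1 pcN2 Cut.none Ext.none)

def k0_pm_012 : ∃ t, chk3 f_pm_012 t 1 1 1 = true :=
  ⟨(a (a (l 3) (b (a (a (a (l 3) (b (l 2) (a (l 18680080) (l 18849128)))) (b (l 2) (l 18664024))) (b (l 2) (l 18585608))) (a (a (a (l 3) (a (l 3) (b (c (l 19607656) (l 18996896)) (c (l 20243416) (l 19527456))))) (b (l 19179168) (l 19622488))) (b (l 19080424) (l 19498096))))) (b (b (l 2) (l 18444856)) (b (l 18920016) (a (l 19202064) (l 19166392))))), by decide +kernel⟩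

theorem c_pm_012 : CertN 0 536870912 536870912 536870912 33554432 16777216 3 true true false .pnp 0 1 2
    ndN3q0 ndN4q1 pcN2 Cut.none Ext.none :=
  certNK2 (fam := true) (s1 := true) (s2 := false) (a := 0) (b := 1) (c := 2) (cn := .pnp) (n1 := ndN3q0) (n2 := ndN4q1) (pc := pcN2) (cut := Cut.none) (xt := Ext.none) (P1 := 0) (W1 := 536870912) (P2 := 536870912) (W2 := 536870912) (P3 := 33554432) (W3 := 16777216) (N0 := 3)
    rfl rfl rfl (fun _ => rfl) k0_pm_012

noncomputable def f_pm_022 : ℕ → ℕ → ℕ → ℕ → Bool := onCell 0 536870912 1073741824 536870912 33554432 16777216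
    (rowNK 3 1 true true false .pp 0 2 2 (qsf 0 536870912 1073741824 536870912 2) ndN3q0 ndN4q2 pcN2 Cut.none Ext.none)

def k0_pm_022 : ∃ t, chk3 f_pm_022 t 1 1 1 = true :=
  ⟨(b (b (l 3) (a (b (b (b (l 3) (b (l 3) (a (c (l 20741416) (b (l 3) (l 19222936))) (c (l 20403720) (l 19963728))))) (a (c (l 20670624) (l 19165168)) (l 19503928))) (a (c (l 20486432) (l 18994992)) (c (l 20203944) (l 19687040)))) (b (l 1) (a (l 19505840) (l 1))))) (a (a (b (c (l 20083968) (b (l 18730864) (l 18457048))) (a (l 18422848) (l 18501584))) (b (c (l 19883600) (l 19265432)) (c (l 19420048) (l 18646880)))) (a (b (l 19387056) (c (l 19051024) (l 19245496))) (b (l 19613592) (l 19215712))))), by decide +kernel⟩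

theorem c_pm_022 : CertN 0 536870912 1073741824 536870912 33554432 16777216 3 true true false .pp 0 2 2
    ndN3q0 ndN4q2 pcN2 Cut.none Ext.none :=
  certNK1 (fam := true) (s1 := true) (s2 := false) (a := 0) (b := 2) (c := 2) (cn := .pp) (n1 := ndN3q0) (n2 := ndN4q2) (pc := pcN2) (cut := Cut.none) (xt := Ext.none) (P1 := 0) (W1 := 536870912) (P2 := 1073741824) (W2 := 536870912) (P3 := 33554432) (W3 := 16777216) (N0 := 3)
    rfl rfl rfl (fun _ => rfl) k0_pm_022

noncomputable def f_pm_023 : ℕ → ℕ → ℕ → ℕ → Bool := onCell 1610612736 536870912 1073741824 536870912 33554432 16777216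
    (rowNK 3 2 true true false .up 0 2 3 (qsf 0 536870912 1073741824 536870912 3) ndN3q0 ndN4q2 pcN3 Cut.none Ext.none)

def k0_pm_023 : ∃ t, chk3 f_pm_023 t 1 1 1 = true :=
  ⟨(b (a (b (l 19358576) (a (l 18462576) (a (l 18654784) (l 18718232)))) (a (b (l 2) (a (l 18685344) (l 2))) (l 2))) (b (a (a (c (l 17985672) (l 18143120)) (a (l 17506328) (l 17559104))) (a (c (l 17287120) (l 18202472)) (a (l 17712072) (l 2)))) (a (a (a (c (l 18320936) (l 17114248)) (l 17437280)) (a (l 17783752) (l 17911944))) (a (a (l 17442440) (l 17071648)) (a (l 16924904) (a (l 16980152) (a (l 17002744) (l 4)))))))), by decide +kernel⟩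

theorem c_pm_023 : CertN 0 536870912 1073741824 536870912 33554432 16777216 3 true true false .up 0 2 3
    ndN3q0 ndN4q2 pcN3 Cut.none Ext.none :=
  certNK2 (fam := true) (s1 := true) (s2 := false) (a := 0) (b := 2) (c := 3) (cn := .up) (n1 := ndN3q0) (n2 := ndN4q2) (pc := pcN3) (cut := Cut.none) (xt := Ext.none) (P1 := 0) (W1 := 536870912) (P2 := 1073741824) (W2 := 536870912) (P3 := 33554432) (W3 := 16777216) (N0 := 3)
    rfl rfl rfl (fun _ => rfl) k0_pm_023

noncomputable def f_pm_033 : ℕ → ℕ → ℕ → ℕ → Bool := onCell 1610612736 536870912 0 1230186008 33554432 16777216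
    (rowNK 3 2 true true false .pnn 0 3 3 (qsf 0 536870912 0 1230186008 3) ndN3q0 ndN4q3 pcN3 Cut.none Ext.none)

def k0_pm_033 : ∃ t, chk3 f_pm_033 t 1 1 1 = true :=
  ⟨(a (b (l 1) (b (b (l 1) (a (l 1) (a (l 1) (b (l 1) (l 17496696))))) (b (a (l 1) (b (l 17833992) (l 17988056))) (a (a (b (l 1) (l 17460320)) (b (l 18159352) (l 17920008))) (a (b (l 18266968) (l 18205408)) (l 17938624)))))) (a (b (l 1) (b (b (a (l 1) (l 17794104)) (a (l 17661200) (l 17687424))) (b (a (l 17414328) (l 17425296)) (a (l 17480664) (l 17232344))))) (b (b (l 4) (l 4)) (a (b (b (l 4) (l 17712840)) (b (l 17393256) (l 17070880))) (b (l 4) (a (b (l 4) (l 17088640)) (l 4))))))), by decide +kernel⟩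

theorem c_pm_033 : CertN 0 536870912 0 1230186008 33554432 16777216 3 true true false .pnn 0 3 3
    ndN3q0 ndN4q3 pcN3 Cut.none Ext.none :=
  certNK2 (fam := true) (s1 := true) (s2 := false) (a := 0) (b := 3) (c := 3) (cn := .pnn) (n1 := ndN3q0) (n2 := ndN4q3) (pc := pcN3) (cut := Cut.none) (xt := Ext.none) (P1 := 0) (W1 := 536870912) (P2 := 0) (W2 := 1230186008) (P3 := 33554432) (W3 := 16777216) (N0 := 3)
    rfl rfl rfl (fun _ => rfl) k0_pm_033

noncomputable def f_pm_101 : ℕ → ℕ → ℕ → ℕ → Bool := onCell 536870912 536870912 536870912 536870912 33554432 16777216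
    (rowNK 3 1 true true false .npn 1 0 1 (qsf 536870912 536870912 0 536870912 1) ndN3q1 ndN4q0 pcN1 Cut.none Ext.none)

def k0_pm_101 : ∃ t, chk3 f_pm_101 t 1 1 1 = true :=
  ⟨(l 3), by decide +kernel⟩

theorem c_pm_101 : CertN 536870912 536870912 0 536870912 33554432 16777216 3 true true false .npn 1 0 1
    ndN3q1 ndN4q0 pcN1 Cut.none Ext.none :=
  certNK1 (fam := true) (s1 := true) (s2 := false) (a := 1) (b := 0) (c := 1) (cn := .npn) (n1 := ndN3q1) (n2 := ndN4q0) (pc := pcN1) (cut := Cut.none) (xt := Ext.none) (P1 := 536870912) (W1 := 536870912) (P2 := 0) (W2 := 536870912) (P3 := 33554432) (W3 := 16777216) (N0 := 3)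
    rfl rfl rfl (fun _ => rfl) k0_pm_101

noncomputable def f_pm_102 : ℕ → ℕ → ℕ → ℕ → Bool := onCell 1073741824 536870912 0 536870912 33554432 16777216
    (rowNK 3 2 true true false .npp 1 0 2 (qsf 536870912 536870912 0 536870912 2) ndN3q1 ndN4q0 pcN2 Cut.none Ext.none)

def k0_pm_102 : ∃ t, chk3 f_pm_102 t 1 1 1 = true :=
  ⟨(a (b (a (a (l 3) (l 19711368)) (a (a (a (l 19653416) (a (l 19648120) (l 19648480))) (l 19669392)) (l 19774824))) (a (l 3) (a (a (a (l 19115024) (a (l 19097192) (l 19083072))) (l 19062040)) (l 19057392)))) (b (l 20173232) (b (l 19728392) (l 19085096)))), by decide +kernel⟩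

theorem c_pm_102 : CertN 536870912 536870912 0 536870912 33554432 16777216 3 true true false .npp 1 0 2
    ndN3q1 ndN4q0 pcN2 Cut.none Ext.none :=
  certNK2 (fam := true) (s1 := true) (s2 := false) (a := 1) (b := 0) (c := 2) (cn := .npp) (n1 := ndN3q1) (n2 := ndN4q0) (pc := pcN2) (cut := Cut.none) (xt := Ext.none) (P1 := 536870912) (W1 := 536870912) (P2 := 0) (W2 := 536870912) (P3 := 33554432) (W3 := 16777216) (N0 := 3)
    rfl rfl rfl (fun _ => rfl) k0_pm_102

noncomputable def f_pm_112 : ℕ → ℕ → ℕ → ℕ → Bool := onCell 1073741824 536870912 536870912 536870912 33554432 16777216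
    (rowNK 3 2 true true false .dn 1 1 2 (qsf 536870912 536870912 536870912 536870912 2) ndN3q1 ndN4q1 pcN2 Cut.none Ext.none)

def k0_pm_112 : ∃ t, chk3 f_pm_112 t 1 1 1 = true :=
  ⟨(a (a (l 3) (b (a (a (a (l 3) (l 19249584)) (l 18971312)) (l 18903312)) (a (l 1) (l 19207184)))) (b (l 18707032) (l 18707824))), by decide +kernel⟩

theorem c_pm_112 : CertN 536870912 536870912 536870912 536870912 33554432 16777216 3 true true false .dn 1 1 2
    ndN3q1 ndN4q1 pcN2 Cut.none Ext.none :=
  certNK2 (fam := true) (s1 := true) (s2 := false) (a := 1) (b := 1) (c := 2) (cn := .dn) (n1 := ndN3q1) (n2 := ndN4q1) (pc := pcN2) (cut := Cut.none) (xt := Ext.none) (P1 := 536870912) (W1 := 536870912) (P2 := 536870912) (W2 := 536870912) (P3 := 33554432) (W3 := 16777216) (N0 := 3)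
    rfl rfl rfl (fun _ => rfl) k0_pm_112

noncomputable def f_pm_113 : ℕ → ℕ → ℕ → ℕ → Bool := onCell 536870912 536870912 536870912 536870912 33554432 16777216
    (rowNK 3 0 true true false .nn 1 1 3 (qsf 536870912 536870912 536870912 536870912 3) ndN3q1 ndN4q1 pcN3 Cut.none Ext.none)

def k0_pm_113 : ∃ t, chk3 f_pm_113 t 1 1 1 = true :=
  ⟨(a (b (l 19197040) (l 18448520)) (b (l 19220168) (b (l 18276560) (a (l 17575864) (a (l 17373544) (b (l 17530848) (b (l 17175144) (a (l 17010432) (b (l 16975080) (a (l 16900824) (b (l 16876192) (l 16820680)))))))))))), by decide +kernel⟩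

theorem c_pm_113 : CertN 536870912 536870912 536870912 536870912 33554432 16777216 3 true true false .nn 1 1 3
    ndN3q1 ndN4q1 pcN3 Cut.none Ext.none :=
  certNK0 (fam := true) (s1 := true) (s2 := false) (a := 1) (b := 1) (c := 3) (cn := .nn) (n1 := ndN3q1) (n2 := ndN4q1) (pc := pcN3) (cut := Cut.none) (xt := Ext.none) (P1 := 536870912) (W1 := 536870912) (P2 := 536870912) (W2 := 536870912) (P3 := 33554432) (W3 := 16777216) (N0 := 3)
    rfl rfl rfl k0_pm_113

noncomputable def f_pm_123 : ℕ → ℕ → ℕ → ℕ → Bool := onCell 1610612736 536870912 1073741824 536870912 33554432 16777216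
    (rowNK 3 2 true true false .npn 1 2 3 (qsf 536870912 536870912 1073741824 536870912 3) ndN3q1 ndN4q2 pcN3 Cut.none Ext.none)

def k0_pm_123 : ∃ t, chk3 f_pm_123 t 1 1 1 = true :=
  ⟨(a (b (b (l 18175624) (a (l 17989448) (l 17867584))) (b (a (l 1) (a (l 1) (l 17677280))) (l 1))) (a (b (b (b (l 17681400) (l 17535624)) (a (l 17342776) (l 17617824))) (b (l 17670680) (l 17624520))) (a (b (b (l 17068504) (l 17395008)) (l 17560880)) (b (a (l 17079432) (a (l 16958288) (b (l 16844704) (l 17090072)))) (a (l 17512824) (a (l 17532944) (l 17594832))))))), by decide +kernel⟩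

theorem c_pm_123 : CertN 536870912 536870912 1073741824 536870912 33554432 16777216 3 true true false .npn 1 2 3
    ndN3q1 ndN4q2 pcN3 Cut.none Ext.none :=
  certNK2 (fam := true) (s1 := true) (s2 := false) (a := 1) (b := 2) (c := 3) (cn := .npn) (n1 := ndN3q1) (n2 := ndN4q2) (pc := pcN3) (cut := Cut.none) (xt := Ext.none) (P1 := 536870912) (W1 := 536870912) (P2 := 1073741824) (W2 := 536870912) (P3 := 33554432) (W3 := 16777216) (N0 := 3)
    rfl rfl rfl (fun _ => rfl) k0_pm_123

noncomputable def f_pm_133 : ℕ → ℕ → ℕ → ℕ → Bool := onCell 536870912 536870912 0 1230186008 33554432 16777216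
    (rowNK 3 0 true true false .dn 1 3 3 (qsf 536870912 536870912 0 1230186008 3) ndN3q1 ndN4q3 pcN3 Cut.none Ext.none)

def k0_pm_133 : ∃ t, chk3 f_pm_133 t 1 1 1 = true :=
  ⟨(b (l 2) (b (l 2) (a (l 4) (l 2)))), by decide +kernel⟩

theorem c_pm_133 : CertN 536870912 536870912 0 1230186008 33554432 16777216 3 true true false .dn 1 3 3
    ndN3q1 ndN4q3 pcN3 Cut.none Ext.none :=
  certNK0 (fam := true) (s1 := true) (s2 := false) (a := 1) (b := 3) (c := 3) (cn := .dn) (n1 := ndN3q1) (n2 := ndN4q3) (pc := pcN3) (cut := Cut.none) (xt := Ext.none) (P1 := 536870912) (W1 := 536870912) (P2 := 0) (W2 := 1230186008) (P3 := 33554432) (W3 := 16777216) (N0 := 3)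
    rfl rfl rfl k0_pm_133

noncomputable def f_pm_202 : ℕ → ℕ → ℕ → ℕ → Bool := onCell 1073741824 536870912 0 536870912 33554432 16777216
    (rowNK 3 2 true true false .pp 2 0 2 (qsf 1073741824 536870912 0 536870912 2) ndN3q2 ndN4q0 pcN2 Cut.none Ext.none)

def k0_pm_202 : ∃ t, chk3 f_pm_202 t 1 1 1 = true :=
  ⟨(a (b (a (a (a (a (a (l 19856000) (l 19829760)) (l 19789816)) (l 19707712)) (l 19551480)) (l 19244760)) (a (l 1) (l 19385272))) (b (a (l 18840632) (l 18392376)) (a (l 18762416) (l 18335912)))), by decide +kernel⟩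

theorem c_pm_202 : CertN 1073741824 536870912 0 536870912 33554432 16777216 3 true true false .pp 2 0 2
    ndN3q2 ndN4q0 pcN2 Cut.none Ext.none :=
  certNK2 (fam := true) (s1 := true) (s2 := false) (a := 2) (b := 0) (c := 2) (cn := .pp) (n1 := ndN3q2) (n2 := ndN4q0) (pc := pcN2) (cut := Cut.none) (xt := Ext.none) (P1 := 1073741824) (W1 := 536870912) (P2 := 0) (W2 := 536870912) (P3 := 33554432) (W3 := 16777216) (N0 := 3)
    rfl rfl rfl (fun _ => rfl) k0_pm_202

noncomputable def f_pm_203 : ℕ → ℕ → ℕ → ℕ → Bool := onCell 1610612736 536870912 0 536870912 33554432 16777216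
    (rowNK 3 2 true true false .up 2 0 3 (qsf 1073741824 536870912 0 536870912 3) ndN3q2 ndN4q0 pcN3 Cut.none Ext.none)

def k0_pm_203 : ∃ t, chk3 f_pm_203 t 1 1 1 = true :=
  ⟨(b (a (a (l 17452912) (l 17103464)) (a (l 4) (l 2))) (a (a (l 17725912) (l 17394832)) (a (l 17212344) (l 4)))), by decide +kernel⟩

theorem c_pm_203 : CertN 1073741824 536870912 0 536870912 33554432 16777216 3 true true false .up 2 0 3
    ndN3q2 ndN4q0 pcN3 Cut.none Ext.none :=
  certNK2 (fam := true) (s1 := true) (s2 := false) (a := 2) (b := 0) (c := 3) (cn := .up) (n1 := ndN3q2) (n2 := ndN4q0) (pc := pcN3) (cut := Cut.none) (xt := Ext.none) (P1 := 1073741824) (W1 := 536870912) (P2 := 0) (W2 := 536870912) (P3 := 33554432) (W3 := 16777216) (N0 := 3)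
    rfl rfl rfl (fun _ => rfl) k0_pm_203

noncomputable def f_pm_213 : ℕ → ℕ → ℕ → ℕ → Bool := onCell 1610612736 536870912 536870912 536870912 33554432 16777216
    (rowNK 3 2 true true false .pnn 2 1 3 (qsf 1073741824 536870912 536870912 536870912 3) ndN3q2 ndN4q1 pcN3 Cut.none Ext.none)

def k0_pm_213 : ∃ t, chk3 f_pm_213 t 1 1 1 = true :=
  ⟨(b (a (a (b (l 17813400) (l 17955928)) (b (l 17499216) (l 17485360))) (a (b (l 17137680) (l 17297048)) (l 4))) (a (a (l 1) (b (l 17957664) (l 1))) (a (b (l 17831968) (l 500937230327)) (a (l 17674104) (l 4))))), by decide +kernel⟩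

theorem c_pm_213 : CertN 1073741824 536870912 536870912 536870912 33554432 16777216 3 true true false .pnn 2 1 3
    ndN3q2 ndN4q1 pcN3 Cut.none Ext.none :=
  certNK2 (fam := true) (s1 := true) (s2 := false) (a := 2) (b := 1) (c := 3) (cn := .pnn) (n1 := ndN3q2) (n2 := ndN4q1) (pc := pcN3) (cut := Cut.none) (xt := Ext.none) (P1 := 1073741824) (W1 := 536870912) (P2 := 536870912) (W2 := 536870912) (P3 := 33554432) (W3 := 16777216) (N0 := 3)
    rfl rfl rfl (fun _ => rfl) k0_pm_213

noncomputable def f_pm_303 : ℕ → ℕ → ℕ → ℕ → Bool := onCell 0 1230186008 1610612736 536870912 33554432 16777216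
    (rowNK 3 1 true true false .npn 3 0 3 (qsf 0 1230186008 0 536870912 3) ndN3q3 ndN4q0 pcN3 Cut.none Ext.none)

def k0_pm_303 : ∃ t, chk3 f_pm_303 t 1 1 1 = true :=
  ⟨(a (l 4) (b (a (b (l 1) (l 4)) (b (a (l 1) (l 16982520)) (l 17373456))) (l 4))), by decide +kernel⟩

theorem c_pm_303 : CertN 0 1230186008 0 536870912 33554432 16777216 3 true true false .npn 3 0 3
    ndN3q3 ndN4q0 pcN3 Cut.none Ext.none :=
  certNK1 (fam := true) (s1 := true) (s2 := false) (a := 3) (b := 0) (c := 3) (cn := .npn) (n1 := ndN3q3) (n2 := ndN4q0) (pc := pcN3) (cut := Cut.none) (xt := Ext.none) (P1 := 0) (W1 := 1230186008) (P2 := 0) (W2 := 536870912) (P3 := 33554432) (W3 := 16777216) (N0 := 3)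
    rfl rfl rfl (fun _ => rfl) k0_pm_303

noncomputable def f_pm_313 : ℕ → ℕ → ℕ → ℕ → Bool := onCell 0 1230186008 536870912 536870912 33554432 16777216
    (rowNK 3 0 true true false .dn 3 1 3 (qsf 0 1230186008 536870912 536870912 3) ndN3q3 ndN4q1 pcN3 Cut.none Ext.none)

def k0_pm_313 : ∃ t, chk3 f_pm_313 t 1 1 1 = true :=
  ⟨(a (l 2) (l 4)), by decide +kernel⟩

theorem c_pm_313 : CertN 0 1230186008 536870912 536870912 33554432 16777216 3 true true false .dn 3 1 3
    ndN3q3 ndN4q1 pcN3 Cut.none Ext.none :=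
  certNK0 (fam := true) (s1 := true) (s2 := false) (a := 3) (b := 1) (c := 3) (cn := .dn) (n1 := ndN3q3) (n2 := ndN4q1) (pc := pcN3) (cut := Cut.none) (xt := Ext.none) (P1 := 0) (W1 := 1230186008) (P2 := 536870912) (W2 := 536870912) (P3 := 33554432) (W3 := 16777216) (N0 := 3)
    rfl rfl rfl k0_pm_313

noncomputable def f_mm_001 : ℕ → ℕ → ℕ → ℕ → Bool := onCell 0 536870912 0 536870912 33554432 16777216
    (rowNK 3 0 true false false .up 0 0 1 (qsf 0 536870912 0 536870912 1) ndN3q0 ndN4q0 pcN1 Cut.none Ext.none)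

def k0_mm_001 : ∃ t, chk3 f_mm_001 t 1 1 1 = true :=
  ⟨(l 4), by decide +kernel⟩

theorem c_mm_001 : CertN 0 536870912 0 536870912 33554432 16777216 3 true false false .up 0 0 1
    ndN3q0 ndN4q0 pcN1 Cut.none Ext.none :=
  certNK0 (fam := true) (s1 := false) (s2 := false) (a := 0) (b := 0) (c := 1) (cn := .up) (n1 := ndN3q0) (n2 := ndN4q0) (pc := pcN1) (cut := Cut.none) (xt := Ext.none) (P1 := 0) (W1 := 536870912) (P2 := 0) (W2 := 536870912) (P3 := 33554432) (W3 := 16777216) (N0 := 3)
    rfl rfl rfl k0_mm_001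

noncomputable def f_mm_011 : ℕ → ℕ → ℕ → ℕ → Bool := onCell 0 536870912 536870912 536870912 33554432 16777216
    (rowNK 3 0 true false false .pnn 0 1 1 (qsf 0 536870912 536870912 536870912 1) ndN3q0 ndN4q1 pcN1 Cut.none Ext.none)

def k0_mm_011 : ∃ t, chk3 f_mm_011 t 1 1 1 = true :=
  ⟨(l 4), by decide +kernel⟩

theorem c_mm_011 : CertN 0 536870912 536870912 536870912 33554432 16777216 3 true false false .pnn 0 1 1
    ndN3q0 ndN4q1 pcN1 Cut.none Ext.none :=
  certNK0 (fam := true) (s1 := false) (s2 := false) (a := 0) (b := 1) (c := 1) (cn := .pnn) (n1 := ndN3q0) (n2 := ndN4q1) (pc := pcN1) (cut := Cut.none) (xt := Ext.none) (P1 := 0) (W1 := 536870912) (P2 := 536870912) (W2 := 536870912) (P3 := 33554432) (W3 := 16777216) (N0 := 3)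
    rfl rfl rfl k0_mm_011

noncomputable def f_mm_012 : ℕ → ℕ → ℕ → ℕ → Bool := onCell 0 536870912 536870912 536870912 33554432 16777216
    (rowNK 3 0 true false false .pnp 0 1 2 (qsf 0 536870912 536870912 536870912 2) ndN3q0 ndN4q1 pcN2 Cut.none Ext.none)

def k0_mm_012 : ∃ t, chk3 f_mm_012 t 1 1 1 = true :=
  ⟨(l 4), by decide +kernel⟩

theorem c_mm_012 : CertN 0 536870912 536870912 536870912 33554432 16777216 3 true false false .pnp 0 1 2
    ndN3q0 ndN4q1 pcN2 Cut.none Ext.none :=
  certNK0 (fam := true) (s1 := false) (s2 := false) (a := 0) (b := 1) (c := 2) (cn := .pnp) (n1 := ndN3q0) (n2 := ndN4q1) (pc := pcN2) (cut := Cut.none) (xt := Ext.none) (P1 := 0) (W1 := 536870912) (P2 := 536870912) (W2 := 536870912) (P3 := 33554432) (W3 := 16777216) (N0 := 3)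
    rfl rfl rfl k0_mm_012

noncomputable def f_mm_022 : ℕ → ℕ → ℕ → ℕ → Bool := onCell 0 536870912 1073741824 536870912 33554432 16777216
    (rowNK 3 0 true false false .pp 0 2 2 (qsf 0 536870912 1073741824 536870912 2) ndN3q0 ndN4q2 pcN2 Cut.none Ext.none)

def k0_mm_022 : ∃ t, chk3 f_mm_022 t 1 1 1 = true :=
  ⟨(l 4), by decide +kernel⟩

theorem c_mm_022 : CertN 0 536870912 1073741824 536870912 33554432 16777216 3 true false false .pp 0 2 2
    ndN3q0 ndN4q2 pcN2 Cut.none Ext.none :=
  certNK0 (fam := true) (s1 := false) (s2 := false) (a := 0) (b := 2) (c := 2) (cn := .pp) (n1 := ndN3q0) (n2 := ndN4q2) (pc := pcN2) (cut := Cut.none) (xt := Ext.none) (P1 := 0) (W1 := 536870912) (P2 := 1073741824) (W2 := 536870912) (P3 := 33554432) (W3 := 16777216) (N0 := 3)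
    rfl rfl rfl k0_mm_022

noncomputable def f_mm_023 : ℕ → ℕ → ℕ → ℕ → Bool := onCell 0 536870912 1073741824 536870912 33554432 16777216
    (rowNK 3 0 true false false .up 0 2 3 (qsf 0 536870912 1073741824 536870912 3) ndN3q0 ndN4q2 pcN3 Cut.none Ext.none)

def k0_mm_023 : ∃ t, chk3 f_mm_023 t 1 1 1 = true :=
  ⟨(l 4), by decide +kernel⟩

theorem c_mm_023 : CertN 0 536870912 1073741824 536870912 33554432 16777216 3 true false false .up 0 2 3
    ndN3q0 ndN4q2 pcN3 Cut.none Ext.none :=
  certNK0 (fam := true) (s1 := false) (s2 := false) (a := 0) (b := 2) (c := 3) (cn := .up) (n1 := ndN3q0) (n2 := ndN4q2) (pc := pcN3) (cut := Cut.none) (xt := Ext.none) (P1 := 0) (W1 := 536870912) (P2 := 1073741824) (W2 := 536870912) (P3 := 33554432) (W3 := 16777216) (N0 := 3)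
    rfl rfl rfl k0_mm_023

noncomputable def f_mm_033 : ℕ → ℕ → ℕ → ℕ → Bool := onCell 0 536870912 0 1230186008 33554432 16777216
    (rowNK 3 0 true false false .pnn 0 3 3 (qsf 0 536870912 0 1230186008 3) ndN3q0 ndN4q3 pcN3 Cut.none Ext.none)

def k0_mm_033 : ∃ t, chk3 f_mm_033 t 1 1 1 = true :=
  ⟨(l 4), by decide +kernel⟩

theorem c_mm_033 : CertN 0 536870912 0 1230186008 33554432 16777216 3 true false false .pnn 0 3 3
    ndN3q0 ndN4q3 pcN3 Cut.none Ext.none :=
  certNK0 (fam := true) (s1 := false) (s2 := false) (a := 0) (b := 3) (c := 3) (cn := .pnn) (n1 := ndN3q0) (n2 := ndN4q3) (pc := pcN3) (cut := Cut.none) (xt := Ext.none) (P1 := 0) (W1 := 536870912) (P2 := 0) (W2 := 1230186008) (P3 := 33554432) (W3 := 16777216) (N0 := 3)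
    rfl rfl rfl k0_mm_033

noncomputable def f_mm_101 : ℕ → ℕ → ℕ → ℕ → Bool := onCell 536870912 536870912 0 536870912 33554432 16777216
    (rowNK 3 0 true false false .npn 1 0 1 (qsf 536870912 536870912 0 536870912 1) ndN3q1 ndN4q0 pcN1 Cut.none Ext.none)

def k0_mm_101 : ∃ t, chk3 f_mm_101 t 1 1 1 = true :=
  ⟨(l 4), by decide +kernel⟩

theorem c_mm_101 : CertN 536870912 536870912 0 536870912 33554432 16777216 3 true false false .npn 1 0 1
    ndN3q1 ndN4q0 pcN1 Cut.none Ext.none :=
  certNK0 (fam := true) (s1 := false) (s2 := false) (a := 1) (b := 0) (c := 1) (cn := .npn) (n1 := ndN3q1) (n2 := ndN4q0) (pc := pcN1) (cut := Cut.none) (xt := Ext.none) (P1 := 536870912) (W1 := 536870912) (P2 := 0) (W2 := 536870912) (P3 := 33554432) (W3 := 16777216) (N0 := 3)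
    rfl rfl rfl k0_mm_101

noncomputable def f_mm_102 : ℕ → ℕ → ℕ → ℕ → Bool := onCell 536870912 536870912 0 536870912 33554432 16777216
    (rowNK 3 0 true false false .npp 1 0 2 (qsf 536870912 536870912 0 536870912 2) ndN3q1 ndN4q0 pcN2 Cut.none Ext.none)

def k0_mm_102 : ∃ t, chk3 f_mm_102 t 1 1 1 = true :=
  ⟨(l 4), by decide +kernel⟩

theorem c_mm_102 : CertN 536870912 536870912 0 536870912 33554432 16777216 3 true false false .npp 1 0 2
    ndN3q1 ndN4q0 pcN2 Cut.none Ext.none :=
  certNK0 (fam := true) (s1 := false) (s2 := false) (a := 1) (b := 0) (c := 2) (cn := .npp) (n1 := ndN3q1) (n2 := ndN4q0) (pc := pcN2) (cut := Cut.none) (xt := Ext.none) (P1 := 536870912) (W1 := 536870912) (P2 := 0) (W2 := 536870912) (P3 := 33554432) (W3 := 16777216) (N0 := 3)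
    rfl rfl rfl k0_mm_102

noncomputable def f_mm_112 : ℕ → ℕ → ℕ → ℕ → Bool := onCell 536870912 536870912 536870912 536870912 33554432 16777216
    (rowNK 3 0 true false false .dn 1 1 2 (qsf 536870912 536870912 536870912 536870912 2) ndN3q1 ndN4q1 pcN2 Cut.none Ext.none)

def k0_mm_112 : ∃ t, chk3 f_mm_112 t 1 1 1 = true :=
  ⟨(l 4), by decide +kernel⟩

theorem c_mm_112 : CertN 536870912 536870912 536870912 536870912 33554432 16777216 3 true false false .dn 1 1 2
    ndN3q1 ndN4q1 pcN2 Cut.none Ext.none :=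
  certNK0 (fam := true) (s1 := false) (s2 := false) (a := 1) (b := 1) (c := 2) (cn := .dn) (n1 := ndN3q1) (n2 := ndN4q1) (pc := pcN2) (cut := Cut.none) (xt := Ext.none) (P1 := 536870912) (W1 := 536870912) (P2 := 536870912) (W2 := 536870912) (P3 := 33554432) (W3 := 16777216) (N0 := 3)
    rfl rfl rfl k0_mm_112

noncomputable def f_mm_113 : ℕ → ℕ → ℕ → ℕ → Bool := onCell 536870912 536870912 536870912 536870912 33554432 16777216
    (rowNK 3 0 true false false .nn 1 1 3 (qsf 536870912 536870912 536870912 536870912 3) ndN3q1 ndN4q1 pcN3 Cut.none Ext.none)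

def k0_mm_113 : ∃ t, chk3 f_mm_113 t 1 1 1 = true :=
  ⟨(l 4), by decide +kernel⟩

theorem c_mm_113 : CertN 536870912 536870912 536870912 536870912 33554432 16777216 3 true false false .nn 1 1 3
    ndN3q1 ndN4q1 pcN3 Cut.none Ext.none :=
  certNK0 (fam := true) (s1 := false) (s2 := false) (a := 1) (b := 1) (c := 3) (cn := .nn) (n1 := ndN3q1) (n2 := ndN4q1) (pc := pcN3) (cut := Cut.none) (xt := Ext.none) (P1 := 536870912) (W1 := 536870912) (P2 := 536870912) (W2 := 536870912) (P3 := 33554432) (W3 := 16777216) (N0 := 3)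
    rfl rfl rfl k0_mm_113

noncomputable def f_mm_123 : ℕ → ℕ → ℕ → ℕ → Bool := onCell 536870912 536870912 1073741824 536870912 33554432 16777216
    (rowNK 3 0 true false false .npn 1 2 3 (qsf 536870912 536870912 1073741824 536870912 3) ndN3q1 ndN4q2 pcN3 Cut.none Ext.none)

def k0_mm_123 : ∃ t, chk3 f_mm_123 t 1 1 1 = true :=
  ⟨(l 4), by decide +kernel⟩

theorem c_mm_123 : CertN 536870912 536870912 1073741824 536870912 33554432 16777216 3 true false false .npn 1 2 3
    ndN3q1 ndN4q2 pcN3 Cut.none Ext.none :=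
  certNK0 (fam := true) (s1 := false) (s2 := false) (a := 1) (b := 2) (c := 3) (cn := .npn) (n1 := ndN3q1) (n2 := ndN4q2) (pc := pcN3) (cut := Cut.none) (xt := Ext.none) (P1 := 536870912) (W1 := 536870912) (P2 := 1073741824) (W2 := 536870912) (P3 := 33554432) (W3 := 16777216) (N0 := 3)
    rfl rfl rfl k0_mm_123

noncomputable def f_mm_133 : ℕ → ℕ → ℕ → ℕ → Bool := onCell 536870912 536870912 0 1230186008 33554432 16777216
    (rowNK 3 0 true false false .dn 1 3 3 (qsf 536870912 536870912 0 1230186008 3) ndN3q1 ndN4q3 pcN3 Cut.none Ext.none)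

def k0_mm_133 : ∃ t, chk3 f_mm_133 t 1 1 1 = true :=
  ⟨(l 4), by decide +kernel⟩

theorem c_mm_133 : CertN 536870912 536870912 0 1230186008 33554432 16777216 3 true false false .dn 1 3 3
    ndN3q1 ndN4q3 pcN3 Cut.none Ext.none :=
  certNK0 (fam := true) (s1 := false) (s2 := false) (a := 1) (b := 3) (c := 3) (cn := .dn) (n1 := ndN3q1) (n2 := ndN4q3) (pc := pcN3) (cut := Cut.none) (xt := Ext.none) (P1 := 536870912) (W1 := 536870912) (P2 := 0) (W2 := 1230186008) (P3 := 33554432) (W3 := 16777216) (N0 := 3)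
    rfl rfl rfl k0_mm_133

noncomputable def f_mm_202 : ℕ → ℕ → ℕ → ℕ → Bool := onCell 1073741824 536870912 0 536870912 33554432 16777216
    (rowNK 3 0 true false false .pp 2 0 2 (qsf 1073741824 536870912 0 536870912 2) ndN3q2 ndN4q0 pcN2 Cut.none Ext.none)

def k0_mm_202 : ∃ t, chk3 f_mm_202 t 1 1 1 = true :=
  ⟨(l 4), by decide +kernel⟩

theorem c_mm_202 : CertN 1073741824 536870912 0 536870912 33554432 16777216 3 true false false .pp 2 0 2
    ndN3q2 ndN4q0 pcN2 Cut.none Ext.none :=
  certNK0 (fam := true) (s1 := false) (s2 := false) (a := 2) (b := 0) (c := 2) (cn := .pp) (n1 := ndN3q2) (n2 := ndN4q0) (pc := pcN2) (cut := Cut.none) (xt := Ext.none) (P1 := 1073741824) (W1 := 536870912) (P2 := 0) (W2 := 536870912) (P3 := 33554432) (W3 := 16777216) (N0 := 3)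
    rfl rfl rfl k0_mm_202

noncomputable def f_mm_203 : ℕ → ℕ → ℕ → ℕ → Bool := onCell 1073741824 536870912 0 536870912 33554432 16777216
    (rowNK 3 0 true false false .up 2 0 3 (qsf 1073741824 536870912 0 536870912 3) ndN3q2 ndN4q0 pcN3 Cut.none Ext.none)

def k0_mm_203 : ∃ t, chk3 f_mm_203 t 1 1 1 = true :=
  ⟨(l 4), by decide +kernel⟩

theorem c_mm_203 : CertN 1073741824 536870912 0 536870912 33554432 16777216 3 true false false .up 2 0 3
    ndN3q2 ndN4q0 pcN3 Cut.none Ext.none :=
  certNK0 (fam := true) (s1 := false) (s2 := false) (a := 2) (b := 0) (c := 3) (cn := .up) (n1 := ndN3q2) (n2 := ndN4q0) (pc := pcN3) (cut := Cut.none) (xt := Ext.none) (P1 := 1073741824) (W1 := 536870912) (P2 := 0) (W2 := 536870912) (P3 := 33554432) (W3 := 16777216) (N0 := 3)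
    rfl rfl rfl k0_mm_203

noncomputable def f_mm_213 : ℕ → ℕ → ℕ → ℕ → Bool := onCell 1073741824 536870912 536870912 536870912 33554432 16777216
    (rowNK 3 0 true false false .pnn 2 1 3 (qsf 1073741824 536870912 536870912 536870912 3) ndN3q2 ndN4q1 pcN3 Cut.none Ext.none)

def k0_mm_213 : ∃ t, chk3 f_mm_213 t 1 1 1 = true :=
  ⟨(l 4), by decide +kernel⟩

theorem c_mm_213 : CertN 1073741824 536870912 536870912 536870912 33554432 16777216 3 true false false .pnn 2 1 3
    ndN3q2 ndN4q1 pcN3 Cut.none Ext.none :=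
  certNK0 (fam := true) (s1 := false) (s2 := false) (a := 2) (b := 1) (c := 3) (cn := .pnn) (n1 := ndN3q2) (n2 := ndN4q1) (pc := pcN3) (cut := Cut.none) (xt := Ext.none) (P1 := 1073741824) (W1 := 536870912) (P2 := 536870912) (W2 := 536870912) (P3 := 33554432) (W3 := 16777216) (N0 := 3)
    rfl rfl rfl k0_mm_213

noncomputable def f_mm_303 : ℕ → ℕ → ℕ → ℕ → Bool := onCell 0 1230186008 0 536870912 33554432 16777216
    (rowNK 3 0 true false false .npn 3 0 3 (qsf 0 1230186008 0 536870912 3) ndN3q3 ndN4q0 pcN3 Cut.none Ext.none)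

def k0_mm_303 : ∃ t, chk3 f_mm_303 t 1 1 1 = true :=
  ⟨(l 4), by decide +kernel⟩

theorem c_mm_303 : CertN 0 1230186008 0 536870912 33554432 16777216 3 true false false .npn 3 0 3
    ndN3q3 ndN4q0 pcN3 Cut.none Ext.none :=
  certNK0 (fam := true) (s1 := false) (s2 := false) (a := 3) (b := 0) (c := 3) (cn := .npn) (n1 := ndN3q3) (n2 := ndN4q0) (pc := pcN3) (cut := Cut.none) (xt := Ext.none) (P1 := 0) (W1 := 1230186008) (P2 := 0) (W2 := 536870912) (P3 := 33554432) (W3 := 16777216) (N0 := 3)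
    rfl rfl rfl k0_mm_303

noncomputable def f_mm_313 : ℕ → ℕ → ℕ → ℕ → Bool := onCell 0 1230186008 536870912 536870912 33554432 16777216
    (rowNK 3 0 true false false .dn 3 1 3 (qsf 0 1230186008 536870912 536870912 3) ndN3q3 ndN4q1 pcN3 Cut.none Ext.none)

def k0_mm_313 : ∃ t, chk3 f_mm_313 t 1 1 1 = true :=
  ⟨(l 4), by decide +kernel⟩

theorem c_mm_313 : CertN 0 1230186008 536870912 536870912 33554432 16777216 3 true false false .dn 3 1 3
    ndN3q3 ndN4q1 pcN3 Cut.none Ext.none :=
  certNK0 (fam := true) (s1 := false) (s2 := false) (a := 3) (b := 1) (c := 3) (cn := .dn) (n1 := ndN3q3) (n2 := ndN4q1) (pc := pcN3) (cut := Cut.none) (xt := Ext.none) (P1 := 0) (W1 := 1230186008) (P2 := 536870912) (W2 := 536870912) (P3 := 33554432) (W3 := 16777216) (N0 := 3)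
    rfl rfl rfl k0_mm_313

end Pool.Agent.Strip051.G.I1_32_3_64.Tab.C.NA34

namespace Pool.Agent.Strip051.G.I1_32_3_64.Tab.C.NA44

open Pool.Agent.Strip051.PB Pool.Agent.Strip051.PB.T
open Pool.Agent.Strip051.G.I1_32_3_64.Tab

noncomputable def f_pp_001 : ℕ → ℕ → ℕ → ℕ → Bool := onCell 0 536870912 0 536870912 33554432 16777216
    (rowNK 3 0 true true true .up 0 0 1 (qsf 0 536870912 0 536870912 1) ndN4q0 ndN4q0 pcN1 Cut.none Ext.none)

def k0_pp_001 : ∃ t, chk3 f_pp_001 t 1 1 1 = true :=
  ⟨(l 4), by decide +kernel⟩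

theorem c_pp_001 : CertN 0 536870912 0 536870912 33554432 16777216 3 true true true .up 0 0 1
    ndN4q0 ndN4q0 pcN1 Cut.none Ext.none :=
  certNK0 (fam := true) (s1 := true) (s2 := true) (a := 0) (b := 0) (c := 1) (cn := .up) (n1 := ndN4q0) (n2 := ndN4q0) (pc := pcN1) (cut := Cut.none) (xt := Ext.none) (P1 := 0) (W1 := 536870912) (P2 := 0) (W2 := 536870912) (P3 := 33554432) (W3 := 16777216) (N0 := 3)
    rfl rfl rfl k0_pp_001

noncomputable def f_pp_011 : ℕ → ℕ → ℕ → ℕ → Bool := onCell 0 536870912 536870912 536870912 33554432 16777216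
    (rowNK 3 0 true true true .pnn 0 1 1 (qsf 0 536870912 536870912 536870912 1) ndN4q0 ndN4q1 pcN1 Cut.none Ext.none)

def k0_pp_011 : ∃ t, chk3 f_pp_011 t 1 1 1 = true :=
  ⟨(l 4), by decide +kernel⟩

theorem c_pp_011 : CertN 0 536870912 536870912 536870912 33554432 16777216 3 true true true .pnn 0 1 1
    ndN4q0 ndN4q1 pcN1 Cut.none Ext.none :=
  certNK0 (fam := true) (s1 := true) (s2 := true) (a := 0) (b := 1) (c := 1) (cn := .pnn) (n1 := ndN4q0) (n2 := ndN4q1) (pc := pcN1) (cut := Cut.none) (xt := Ext.none) (P1 := 0) (W1 := 536870912) (P2 := 536870912) (W2 := 536870912) (P3 := 33554432) (W3 := 16777216) (N0 := 3)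
    rfl rfl rfl k0_pp_011

noncomputable def f_pp_012 : ℕ → ℕ → ℕ → ℕ → Bool := onCell 0 536870912 536870912 536870912 33554432 16777216
    (rowNK 3 0 true true true .pnp 0 1 2 (qsf 0 536870912 536870912 536870912 2) ndN4q0 ndN4q1 pcN2 Cut.none Ext.none)

def k0_pp_012 : ∃ t, chk3 f_pp_012 t 1 1 1 = true :=
  ⟨(l 4), by decide +kernel⟩

theorem c_pp_012 : CertN 0 536870912 536870912 536870912 33554432 16777216 3 true true true .pnp 0 1 2
    ndN4q0 ndN4q1 pcN2 Cut.none Ext.none :=
  certNK0 (fam := true) (s1 := true) (s2 := true) (a := 0) (b := 1) (c := 2) (cn := .pnp) (n1 := ndN4q0) (n2 := ndN4q1) (pc := pcN2) (cut := Cut.none) (xt := Ext.none) (P1 := 0) (W1 := 536870912) (P2 := 536870912) (W2 := 536870912) (P3 := 33554432) (W3 := 16777216) (N0 := 3)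
    rfl rfl rfl k0_pp_012

noncomputable def f_pp_022 : ℕ → ℕ → ℕ → ℕ → Bool := onCell 0 536870912 1073741824 536870912 33554432 16777216
    (rowNK 3 0 true true true .pp 0 2 2 (qsf 0 536870912 1073741824 536870912 2) ndN4q0 ndN4q2 pcN2 Cut.none Ext.none)

def k0_pp_022 : ∃ t, chk3 f_pp_022 t 1 1 1 = true :=
  ⟨(l 4), by decide +kernel⟩

theorem c_pp_022 : CertN 0 536870912 1073741824 536870912 33554432 16777216 3 true true true .pp 0 2 2
    ndN4q0 ndN4q2 pcN2 Cut.none Ext.none :=
  certNK0 (fam := true) (s1 := true) (s2 := true) (a := 0) (b := 2) (c := 2) (cn := .pp) (n1 := ndN4q0) (n2 := ndN4q2) (pc := pcN2) (cut := Cut.none) (xt := Ext.none) (P1 := 0) (W1 := 536870912) (P2 := 1073741824) (W2 := 536870912) (P3 := 33554432) (W3 := 16777216) (N0 := 3)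
    rfl rfl rfl k0_pp_022

noncomputable def f_pp_023 : ℕ → ℕ → ℕ → ℕ → Bool := onCell 0 536870912 1073741824 536870912 33554432 16777216
    (rowNK 3 0 true true true .up 0 2 3 (qsf 0 536870912 1073741824 536870912 3) ndN4q0 ndN4q2 pcN3 Cut.none Ext.none)

def k0_pp_023 : ∃ t, chk3 f_pp_023 t 1 1 1 = true :=
  ⟨(l 4), by decide +kernel⟩

theorem c_pp_023 : CertN 0 536870912 1073741824 536870912 33554432 16777216 3 true true true .up 0 2 3
    ndN4q0 ndN4q2 pcN3 Cut.none Ext.none :=
  certNK0 (fam := true) (s1 := true) (s2 := true) (a := 0) (b := 2) (c := 3) (cn := .up) (n1 := ndN4q0) (n2 := ndN4q2) (pc := pcN3) (cut := Cut.none) (xt := Ext.none) (P1 := 0) (W1 := 536870912) (P2 := 1073741824) (W2 := 536870912) (P3 := 33554432) (W3 := 16777216) (N0 := 3)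
    rfl rfl rfl k0_pp_023

noncomputable def f_pp_033 : ℕ → ℕ → ℕ → ℕ → Bool := onCell 0 536870912 0 1230186008 33554432 16777216
    (rowNK 3 0 true true true .pnn 0 3 3 (qsf 0 536870912 0 1230186008 3) ndN4q0 ndN4q3 pcN3 Cut.none Ext.none)

def k0_pp_033 : ∃ t, chk3 f_pp_033 t 1 1 1 = true :=
  ⟨(l 4), by decide +kernel⟩

theorem c_pp_033 : CertN 0 536870912 0 1230186008 33554432 16777216 3 true true true .pnn 0 3 3
    ndN4q0 ndN4q3 pcN3 Cut.none Ext.none :=
  certNK0 (fam := true) (s1 := true) (s2 := true) (a := 0) (b := 3) (c := 3) (cn := .pnn) (n1 := ndN4q0) (n2 := ndN4q3) (pc := pcN3) (cut := Cut.none) (xt := Ext.none) (P1 := 0) (W1 := 536870912) (P2 := 0) (W2 := 1230186008) (P3 := 33554432) (W3 := 16777216) (N0 := 3)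
    rfl rfl rfl k0_pp_033

noncomputable def f_pp_101 : ℕ → ℕ → ℕ → ℕ → Bool := onCell 536870912 536870912 0 536870912 33554432 16777216
    (rowNK 3 0 true true true .npn 1 0 1 (qsf 536870912 536870912 0 536870912 1) ndN4q1 ndN4q0 pcN1 Cut.none Ext.none)

def k0_pp_101 : ∃ t, chk3 f_pp_101 t 1 1 1 = true :=
  ⟨(l 4), by decide +kernel⟩

theorem c_pp_101 : CertN 536870912 536870912 0 536870912 33554432 16777216 3 true true true .npn 1 0 1
    ndN4q1 ndN4q0 pcN1 Cut.none Ext.none :=
  certNK0 (fam := true) (s1 := true) (s2 := true) (a := 1) (b := 0) (c := 1) (cn := .npn) (n1 := ndN4q1) (n2 := ndN4q0) (pc := pcN1) (cut := Cut.none) (xt := Ext.none) (P1 := 536870912) (W1 := 536870912) (P2 := 0) (W2 := 536870912) (P3 := 33554432) (W3 := 16777216) (N0 := 3)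
    rfl rfl rfl k0_pp_101

noncomputable def f_pp_102 : ℕ → ℕ → ℕ → ℕ → Bool := onCell 536870912 536870912 0 536870912 33554432 16777216
    (rowNK 3 0 true true true .npp 1 0 2 (qsf 536870912 536870912 0 536870912 2) ndN4q1 ndN4q0 pcN2 Cut.none Ext.none)

def k0_pp_102 : ∃ t, chk3 f_pp_102 t 1 1 1 = true :=
  ⟨(l 4), by decide +kernel⟩

theorem c_pp_102 : CertN 536870912 536870912 0 536870912 33554432 16777216 3 true true true .npp 1 0 2
    ndN4q1 ndN4q0 pcN2 Cut.none Ext.none :=
  certNK0 (fam := true) (s1 := true) (s2 := true) (a := 1) (b := 0) (c := 2) (cn := .npp) (n1 := ndN4q1) (n2 := ndN4q0) (pc := pcN2) (cut := Cut.none) (xt := Ext.none) (P1 := 536870912) (W1 := 536870912) (P2 := 0) (W2 := 536870912) (P3 := 33554432) (W3 := 16777216) (N0 := 3)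
    rfl rfl rfl k0_pp_102

noncomputable def f_pp_112 : ℕ → ℕ → ℕ → ℕ → Bool := onCell 536870912 536870912 536870912 536870912 33554432 16777216
    (rowNK 3 0 true true true .dn 1 1 2 (qsf 536870912 536870912 536870912 536870912 2) ndN4q1 ndN4q1 pcN2 Cut.none Ext.none)

def k0_pp_112 : ∃ t, chk3 f_pp_112 t 1 1 1 = true :=
  ⟨(l 4), by decide +kernel⟩

theorem c_pp_112 : CertN 536870912 536870912 536870912 536870912 33554432 16777216 3 true true true .dn 1 1 2
    ndN4q1 ndN4q1 pcN2 Cut.none Ext.none :=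
  certNK0 (fam := true) (s1 := true) (s2 := true) (a := 1) (b := 1) (c := 2) (cn := .dn) (n1 := ndN4q1) (n2 := ndN4q1) (pc := pcN2) (cut := Cut.none) (xt := Ext.none) (P1 := 536870912) (W1 := 536870912) (P2 := 536870912) (W2 := 536870912) (P3 := 33554432) (W3 := 16777216) (N0 := 3)
    rfl rfl rfl k0_pp_112

noncomputable def f_pp_113 : ℕ → ℕ → ℕ → ℕ → Bool := onCell 536870912 536870912 536870912 536870912 33554432 16777216
    (rowNK 3 0 true true true .nn 1 1 3 (qsf 536870912 536870912 536870912 536870912 3) ndN4q1 ndN4q1 pcN3 Cut.none Ext.none)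

def k0_pp_113 : ∃ t, chk3 f_pp_113 t 1 1 1 = true :=
  ⟨(l 4), by decide +kernel⟩

theorem c_pp_113 : CertN 536870912 536870912 536870912 536870912 33554432 16777216 3 true true true .nn 1 1 3
    ndN4q1 ndN4q1 pcN3 Cut.none Ext.none :=
  certNK0 (fam := true) (s1 := true) (s2 := true) (a := 1) (b := 1) (c := 3) (cn := .nn) (n1 := ndN4q1) (n2 := ndN4q1) (pc := pcN3) (cut := Cut.none) (xt := Ext.none) (P1 := 536870912) (W1 := 536870912) (P2 := 536870912) (W2 := 536870912) (P3 := 33554432) (W3 := 16777216) (N0 := 3)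
    rfl rfl rfl k0_pp_113

noncomputable def f_pp_123 : ℕ → ℕ → ℕ → ℕ → Bool := onCell 536870912 536870912 1073741824 536870912 33554432 16777216
    (rowNK 3 0 true true true .npn 1 2 3 (qsf 536870912 536870912 1073741824 536870912 3) ndN4q1 ndN4q2 pcN3 Cut.none Ext.none)

def k0_pp_123 : ∃ t, chk3 f_pp_123 t 1 1 1 = true :=
  ⟨(l 4), by decide +kernel⟩

theorem c_pp_123 : CertN 536870912 536870912 1073741824 536870912 33554432 16777216 3 true true true .npn 1 2 3
    ndN4q1 ndN4q2 pcN3 Cut.none Ext.none :=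
  certNK0 (fam := true) (s1 := true) (s2 := true) (a := 1) (b := 2) (c := 3) (cn := .npn) (n1 := ndN4q1) (n2 := ndN4q2) (pc := pcN3) (cut := Cut.none) (xt := Ext.none) (P1 := 536870912) (W1 := 536870912) (P2 := 1073741824) (W2 := 536870912) (P3 := 33554432) (W3 := 16777216) (N0 := 3)
    rfl rfl rfl k0_pp_123

noncomputable def f_pp_133 : ℕ → ℕ → ℕ → ℕ → Bool := onCell 536870912 536870912 0 1230186008 33554432 16777216
    (rowNK 3 0 true true true .dn 1 3 3 (qsf 536870912 536870912 0 1230186008 3) ndN4q1 ndN4q3 pcN3 Cut.none Ext.none)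

def k0_pp_133 : ∃ t, chk3 f_pp_133 t 1 1 1 = true :=
  ⟨(l 4), by decide +kernel⟩

theorem c_pp_133 : CertN 536870912 536870912 0 1230186008 33554432 16777216 3 true true true .dn 1 3 3
    ndN4q1 ndN4q3 pcN3 Cut.none Ext.none :=
  certNK0 (fam := true) (s1 := true) (s2 := true) (a := 1) (b := 3) (c := 3) (cn := .dn) (n1 := ndN4q1) (n2 := ndN4q3) (pc := pcN3) (cut := Cut.none) (xt := Ext.none) (P1 := 536870912) (W1 := 536870912) (P2 := 0) (W2 := 1230186008) (P3 := 33554432) (W3 := 16777216) (N0 := 3)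
    rfl rfl rfl k0_pp_133

noncomputable def f_pp_202 : ℕ → ℕ → ℕ → ℕ → Bool := onCell 1073741824 536870912 0 536870912 33554432 16777216
    (rowNK 3 0 true true true .pp 2 0 2 (qsf 1073741824 536870912 0 536870912 2) ndN4q2 ndN4q0 pcN2 Cut.none Ext.none)

def k0_pp_202 : ∃ t, chk3 f_pp_202 t 1 1 1 = true :=
  ⟨(l 4), by decide +kernel⟩

theorem c_pp_202 : CertN 1073741824 536870912 0 536870912 33554432 16777216 3 true true true .pp 2 0 2
    ndN4q2 ndN4q0 pcN2 Cut.none Ext.none :=
  certNK0 (fam := true) (s1 := true) (s2 := true) (a := 2) (b := 0) (c := 2) (cn := .pp) (n1 := ndN4q2) (n2 := ndN4q0) (pc := pcN2) (cut := Cut.none) (xt := Ext.none) (P1 := 1073741824) (W1 := 536870912) (P2 := 0) (W2 := 536870912) (P3 := 33554432) (W3 := 16777216) (N0 := 3)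
    rfl rfl rfl k0_pp_202

noncomputable def f_pp_203 : ℕ → ℕ → ℕ → ℕ → Bool := onCell 1073741824 536870912 0 536870912 33554432 16777216
    (rowNK 3 0 true true true .up 2 0 3 (qsf 1073741824 536870912 0 536870912 3) ndN4q2 ndN4q0 pcN3 Cut.none Ext.none)

def k0_pp_203 : ∃ t, chk3 f_pp_203 t 1 1 1 = true :=
  ⟨(l 4), by decide +kernel⟩

theorem c_pp_203 : CertN 1073741824 536870912 0 536870912 33554432 16777216 3 true true true .up 2 0 3
    ndN4q2 ndN4q0 pcN3 Cut.none Ext.none :=
  certNK0 (fam := true) (s1 := true) (s2 := true) (a := 2) (b := 0) (c := 3) (cn := .up) (n1 := ndN4q2) (n2 := ndN4q0) (pc := pcN3) (cut := Cut.none) (xt := Ext.none) (P1 := 1073741824) (W1 := 536870912) (P2 := 0) (W2 := 536870912) (P3 := 33554432) (W3 := 16777216) (N0 := 3)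
    rfl rfl rfl k0_pp_203

noncomputable def f_pp_213 : ℕ → ℕ → ℕ → ℕ → Bool := onCell 1073741824 536870912 536870912 536870912 33554432 16777216
    (rowNK 3 0 true true true .pnn 2 1 3 (qsf 1073741824 536870912 536870912 536870912 3) ndN4q2 ndN4q1 pcN3 Cut.none Ext.none)

def k0_pp_213 : ∃ t, chk3 f_pp_213 t 1 1 1 = true :=
  ⟨(l 4), by decide +kernel⟩

theorem c_pp_213 : CertN 1073741824 536870912 536870912 536870912 33554432 16777216 3 true true true .pnn 2 1 3
    ndN4q2 ndN4q1 pcN3 Cut.none Ext.none :=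
  certNK0 (fam := true) (s1 := true) (s2 := true) (a := 2) (b := 1) (c := 3) (cn := .pnn) (n1 := ndN4q2) (n2 := ndN4q1) (pc := pcN3) (cut := Cut.none) (xt := Ext.none) (P1 := 1073741824) (W1 := 536870912) (P2 := 536870912) (W2 := 536870912) (P3 := 33554432) (W3 := 16777216) (N0 := 3)
    rfl rfl rfl k0_pp_213

noncomputable def f_pp_303 : ℕ → ℕ → ℕ → ℕ → Bool := onCell 0 1230186008 0 536870912 33554432 16777216
    (rowNK 3 0 true true true .npn 3 0 3 (qsf 0 1230186008 0 536870912 3) ndN4q3 ndN4q0 pcN3 Cut.none Ext.none)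

def k0_pp_303 : ∃ t, chk3 f_pp_303 t 1 1 1 = true :=
  ⟨(l 4), by decide +kernel⟩

theorem c_pp_303 : CertN 0 1230186008 0 536870912 33554432 16777216 3 true true true .npn 3 0 3
    ndN4q3 ndN4q0 pcN3 Cut.none Ext.none :=
  certNK0 (fam := true) (s1 := true) (s2 := true) (a := 3) (b := 0) (c := 3) (cn := .npn) (n1 := ndN4q3) (n2 := ndN4q0) (pc := pcN3) (cut := Cut.none) (xt := Ext.none) (P1 := 0) (W1 := 1230186008) (P2 := 0) (W2 := 536870912) (P3 := 33554432) (W3 := 16777216) (N0 := 3)
    rfl rfl rfl k0_pp_303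

noncomputable def f_pp_313 : ℕ → ℕ → ℕ → ℕ → Bool := onCell 0 1230186008 536870912 536870912 33554432 16777216
    (rowNK 3 0 true true true .dn 3 1 3 (qsf 0 1230186008 536870912 536870912 3) ndN4q3 ndN4q1 pcN3 Cut.none Ext.none)

def k0_pp_313 : ∃ t, chk3 f_pp_313 t 1 1 1 = true :=
  ⟨(l 4), by decide +kernel⟩

theorem c_pp_313 : CertN 0 1230186008 536870912 536870912 33554432 16777216 3 true true true .dn 3 1 3
    ndN4q3 ndN4q1 pcN3 Cut.none Ext.none :=
  certNK0 (fam := true) (s1 := true) (s2 := true) (a := 3) (b := 1) (c := 3) (cn := .dn) (n1 := ndN4q3) (n2 := ndN4q1) (pc := pcN3) (cut := Cut.none) (xt := Ext.none) (P1 := 0) (W1 := 1230186008) (P2 := 536870912) (W2 := 536870912) (P3 := 33554432) (W3 := 16777216) (N0 := 3)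
    rfl rfl rfl k0_pp_313

noncomputable def f_pm_001 : ℕ → ℕ → ℕ → ℕ → Bool := onCell 0 536870912 0 536870912 33554432 16777216
    (rowNK 3 0 true true false .up 0 0 1 (qsf 0 536870912 0 536870912 1) ndN4q0 ndN4q0 pcN1 Cut.none Ext.none)

def k0_pm_001 : ∃ t, chk3 f_pm_001 t 1 1 1 = true :=
  ⟨(l 3), by decide +kernel⟩

theorem c_pm_001 : CertN 0 536870912 0 536870912 33554432 16777216 3 true true false .up 0 0 1
    ndN4q0 ndN4q0 pcN1 Cut.none Ext.none :=
  certNK0 (fam := true) (s1 := true) (s2 := false) (a := 0) (b := 0) (c := 1) (cn := .up) (n1 := ndN4q0) (n2 := ndN4q0) (pc := pcN1) (cut := Cut.none) (xt := Ext.none) (P1 := 0) (W1 := 536870912) (P2 := 0) (W2 := 536870912) (P3 := 33554432) (W3 := 16777216) (N0 := 3)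
    rfl rfl rfl k0_pm_001

noncomputable def f_pm_011 : ℕ → ℕ → ℕ → ℕ → Bool := onCell 0 536870912 536870912 536870912 33554432 16777216
    (rowNK 3 1 true true false .pnn 0 1 1 (qsf 0 536870912 536870912 536870912 1) ndN4q0 ndN4q1 pcN1 Cut.none Ext.none)

def k0_pm_011 : ∃ t, chk3 f_pm_011 t 1 1 1 = true :=
  ⟨(l 3), by decide +kernel⟩

theorem c_pm_011 : CertN 0 536870912 536870912 536870912 33554432 16777216 3 true true false .pnn 0 1 1
    ndN4q0 ndN4q1 pcN1 Cut.none Ext.none :=
  certNK1 (fam := true) (s1 := true) (s2 := false) (a := 0) (b := 1) (c := 1) (cn := .pnn) (n1 := ndN4q0) (n2 := ndN4q1) (pc := pcN1) (cut := Cut.none) (xt := Ext.none) (P1 := 0) (W1 := 536870912) (P2 := 536870912) (W2 := 536870912) (P3 := 33554432) (W3 := 16777216) (N0 := 3)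
    rfl rfl rfl (fun _ => rfl) k0_pm_011

noncomputable def f_pm_012 : ℕ → ℕ → ℕ → ℕ → Bool := onCell 0 536870912 1073741824 536870912 33554432 16777216
    (rowNK 3 1 true true false .pnp 0 1 2 (qsf 0 536870912 536870912 536870912 2) ndN4q0 ndN4q1 pcN2 Cut.none Ext.none)

def k0_pm_012 : ∃ t, chk3 f_pm_012 t 1 1 1 = true :=
  ⟨(a (b (b (b (l 3) (l 19827904)) (b (b (b (l 19632096) (b (l 19640832) (l 19633960))) (l 19628368)) (l 19645280))) (a (l 2) (b (l 19630984) (l 2)))) (b (b (l 3) (b (b (b (l 18896728) (a (l 19022200) (l 18640608))) (l 18850560)) (l 18986800))) (a (l 19620112) (l 19061392)))), by decide +kernel⟩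

theorem c_pm_012 : CertN 0 536870912 536870912 536870912 33554432 16777216 3 true true false .pnp 0 1 2
    ndN4q0 ndN4q1 pcN2 Cut.none Ext.none :=
  certNK1 (fam := true) (s1 := true) (s2 := false) (a := 0) (b := 1) (c := 2) (cn := .pnp) (n1 := ndN4q0) (n2 := ndN4q1) (pc := pcN2) (cut := Cut.none) (xt := Ext.none) (P1 := 0) (W1 := 536870912) (P2 := 536870912) (W2 := 536870912) (P3 := 33554432) (W3 := 16777216) (N0 := 3)
    rfl rfl rfl (fun _ => rfl) k0_pm_012

noncomputable def f_pm_022 : ℕ → ℕ → ℕ → ℕ → Bool := onCell 0 536870912 1073741824 536870912 33554432 16777216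
    (rowNK 3 1 true true false .pp 0 2 2 (qsf 0 536870912 1073741824 536870912 2) ndN4q0 ndN4q2 pcN2 Cut.none Ext.none)

def k0_pm_022 : ∃ t, chk3 f_pm_022 t 1 1 1 = true :=
  ⟨(a (b (b (b (l 3) (a (l 19828184) (l 19966040))) (b (b (b (l 19732280) (b (l 19698056) (a (l 19617712) (l 19519064)))) (l 19583480)) (l 19368080))) (a (b (l 18875944) (l 18202648)) (b (l 19005088) (l 18427680)))) (b (b (l 1) (b (l 1) (l 19743472))) (a (l 19254232) (l 19682904)))), by decide +kernel⟩

theorem c_pm_022 : CertN 0 536870912 1073741824 536870912 33554432 16777216 3 true true false .pp 0 2 2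
    ndN4q0 ndN4q2 pcN2 Cut.none Ext.none :=
  certNK1 (fam := true) (s1 := true) (s2 := false) (a := 0) (b := 2) (c := 2) (cn := .pp) (n1 := ndN4q0) (n2 := ndN4q2) (pc := pcN2) (cut := Cut.none) (xt := Ext.none) (P1 := 0) (W1 := 536870912) (P2 := 1073741824) (W2 := 536870912) (P3 := 33554432) (W3 := 16777216) (N0 := 3)
    rfl rfl rfl (fun _ => rfl) k0_pm_022

noncomputable def f_pm_023 : ℕ → ℕ → ℕ → ℕ → Bool := onCell 1610612736 536870912 1073741824 536870912 33554432 16777216
    (rowNK 3 2 true true false .up 0 2 3 (qsf 0 536870912 1073741824 536870912 3) ndN4q0 ndN4q2 pcN3 Cut.none Ext.none)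

def k0_pm_023 : ∃ t, chk3 f_pm_023 t 1 1 1 = true :=
  ⟨(a (b (b (a (l 19266272) (l 18627232)) (a (l 18363144) (l 18191120))) (a (b (l 17971064) (l 17543160)) (b (l 17641216) (l 17147656)))) (b (a (b (l 2) (b (l 2) (l 17401760))) (l 2)) (b (a (l 17346968) (a (l 16985760) (l 2))) (a (l 16963232) (a (l 16796384) (a (l 16952640) (l 4))))))), by decide +kernel⟩

theorem c_pm_023 : CertN 0 536870912 1073741824 536870912 33554432 16777216 3 true true false .up 0 2 3
    ndN4q0 ndN4q2 pcN3 Cut.none Ext.none :=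
  certNK2 (fam := true) (s1 := true) (s2 := false) (a := 0) (b := 2) (c := 3) (cn := .up) (n1 := ndN4q0) (n2 := ndN4q2) (pc := pcN3) (cut := Cut.none) (xt := Ext.none) (P1 := 0) (W1 := 536870912) (P2 := 1073741824) (W2 := 536870912) (P3 := 33554432) (W3 := 16777216) (N0 := 3)
    rfl rfl rfl (fun _ => rfl) k0_pm_023

noncomputable def f_pm_033 : ℕ → ℕ → ℕ → ℕ → Bool := onCell 1610612736 536870912 0 1230186008 33554432 16777216
    (rowNK 3 2 true true false .pnn 0 3 3 (qsf 0 536870912 0 1230186008 3) ndN4q0 ndN4q3 pcN3 Cut.none Ext.none)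

def k0_pm_033 : ∃ t, chk3 f_pm_033 t 1 1 1 = true :=
  ⟨(b (a (l 1) (l 4)) (b (a (a (l 1) (b (l 1) (l 17055336))) (l 4)) (a (a (b (l 1) (l 16961872)) (b (l 16798040) (l 17050968))) (a (b (l 16944352) (l 16785000)) (a (b (l 4) (l 16906640)) (l 4)))))), by decide +kernel⟩

theorem c_pm_033 : CertN 0 536870912 0 1230186008 33554432 16777216 3 true true false .pnn 0 3 3
    ndN4q0 ndN4q3 pcN3 Cut.none Ext.none :=
  certNK2 (fam := true) (s1 := true) (s2 := false) (a := 0) (b := 3) (c := 3) (cn := .pnn) (n1 := ndN4q0) (n2 := ndN4q3) (pc := pcN3) (cut := Cut.none) (xt := Ext.none) (P1 := 0) (W1 := 536870912) (P2 := 0) (W2 := 1230186008) (P3 := 33554432) (W3 := 16777216) (N0 := 3)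
    rfl rfl rfl (fun _ => rfl) k0_pm_033

noncomputable def f_pm_101 : ℕ → ℕ → ℕ → ℕ → Bool := onCell 536870912 536870912 536870912 536870912 33554432 16777216
    (rowNK 3 1 true true false .npn 1 0 1 (qsf 536870912 536870912 0 536870912 1) ndN4q1 ndN4q0 pcN1 Cut.none Ext.none)

def k0_pm_101 : ∃ t, chk3 f_pm_101 t 1 1 1 = true :=
  ⟨(l 3), by decide +kernel⟩

theorem c_pm_101 : CertN 536870912 536870912 0 536870912 33554432 16777216 3 true true false .npn 1 0 1
    ndN4q1 ndN4q0 pcN1 Cut.none Ext.none :=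
  certNK1 (fam := true) (s1 := true) (s2 := false) (a := 1) (b := 0) (c := 1) (cn := .npn) (n1 := ndN4q1) (n2 := ndN4q0) (pc := pcN1) (cut := Cut.none) (xt := Ext.none) (P1 := 536870912) (W1 := 536870912) (P2 := 0) (W2 := 536870912) (P3 := 33554432) (W3 := 16777216) (N0 := 3)
    rfl rfl rfl (fun _ => rfl) k0_pm_101

noncomputable def f_pm_102 : ℕ → ℕ → ℕ → ℕ → Bool := onCell 1073741824 536870912 0 536870912 33554432 16777216
    (rowNK 3 2 true true false .npp 1 0 2 (qsf 536870912 536870912 0 536870912 2) ndN4q1 ndN4q0 pcN2 Cut.none Ext.none)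

def k0_pm_102 : ∃ t, chk3 f_pm_102 t 1 1 1 = true :=
  ⟨(a (b (a (a (l 3) (l 19827904)) (a (a (a (l 19632096) (a (l 19640832) (l 19633960))) (l 19628368)) (l 19645280))) (a (l 3) (a (a (a (l 18896728) (b (l 19022200) (l 18640608))) (l 18850560)) (l 18986800)))) (b (b (l 2) (a (l 19630984) (l 2))) (b (l 19620112) (l 19061392)))), by decide +kernel⟩

theorem c_pm_102 : CertN 536870912 536870912 0 536870912 33554432 16777216 3 true true false .npp 1 0 2
    ndN4q1 ndN4q0 pcN2 Cut.none Ext.none :=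
  certNK2 (fam := true) (s1 := true) (s2 := false) (a := 1) (b := 0) (c := 2) (cn := .npp) (n1 := ndN4q1) (n2 := ndN4q0) (pc := pcN2) (cut := Cut.none) (xt := Ext.none) (P1 := 536870912) (W1 := 536870912) (P2 := 0) (W2 := 536870912) (P3 := 33554432) (W3 := 16777216) (N0 := 3)
    rfl rfl rfl (fun _ => rfl) k0_pm_102

noncomputable def f_pm_112 : ℕ → ℕ → ℕ → ℕ → Bool := onCell 536870912 536870912 1073741824 536870912 33554432 16777216
    (rowNK 3 1 true true false .dn 1 1 2 (qsf 536870912 536870912 536870912 536870912 2) ndN4q1 ndN4q1 pcN2 Cut.none Ext.none)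

def k0_pm_112 : ∃ t, chk3 f_pm_112 t 1 1 1 = true :=
  ⟨(a (b (b (l 3) (b (b (b (l 3) (a (l 18379200) (l 18572464))) (l 18462560)) (l 18438872))) (a (l 18588960) (l 18338488))) (b (b (l 1) (b (l 1) (l 19032264))) (b (l 18904048) (l 18654528)))), by decide +kernel⟩

theorem c_pm_112 : CertN 536870912 536870912 536870912 536870912 33554432 16777216 3 true true false .dn 1 1 2
    ndN4q1 ndN4q1 pcN2 Cut.none Ext.none :=
  certNK1 (fam := true) (s1 := true) (s2 := false) (a := 1) (b := 1) (c := 2) (cn := .dn) (n1 := ndN4q1) (n2 := ndN4q1) (pc := pcN2) (cut := Cut.none) (xt := Ext.none) (P1 := 536870912) (W1 := 536870912) (P2 := 536870912) (W2 := 536870912) (P3 := 33554432) (W3 := 16777216) (N0 := 3)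
    rfl rfl rfl (fun _ => rfl) k0_pm_112

noncomputable def f_pm_113 : ℕ → ℕ → ℕ → ℕ → Bool := onCell 536870912 536870912 536870912 536870912 33554432 16777216
    (rowNK 3 0 true true false .nn 1 1 3 (qsf 536870912 536870912 536870912 536870912 3) ndN4q1 ndN4q1 pcN3 Cut.none Ext.none)

def k0_pm_113 : ∃ t, chk3 f_pm_113 t 1 1 1 = true :=
  ⟨(a (b (l 367257033015) (l 19174880)) (b (l 19174880) (a (l 17960456) (b (l 18054960) (a (l 17409480) (b (l 17460288) (a (l 17100696) (b (l 17129016) (a (l 16940168) (b (l 16954832) (a (l 16858872) (l 16824888)))))))))))), by decide +kernel⟩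

theorem c_pm_113 : CertN 536870912 536870912 536870912 536870912 33554432 16777216 3 true true false .nn 1 1 3
    ndN4q1 ndN4q1 pcN3 Cut.none Ext.none :=
  certNK0 (fam := true) (s1 := true) (s2 := false) (a := 1) (b := 1) (c := 3) (cn := .nn) (n1 := ndN4q1) (n2 := ndN4q1) (pc := pcN3) (cut := Cut.none) (xt := Ext.none) (P1 := 536870912) (W1 := 536870912) (P2 := 536870912) (W2 := 536870912) (P3 := 33554432) (W3 := 16777216) (N0 := 3)
    rfl rfl rfl k0_pm_113

noncomputable def f_pm_123 : ℕ → ℕ → ℕ → ℕ → Bool := onCell 1610612736 536870912 1073741824 536870912 33554432 16777216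
    (rowNK 3 2 true true false .npn 1 2 3 (qsf 536870912 536870912 1073741824 536870912 3) ndN4q1 ndN4q2 pcN3 Cut.none Ext.none)

def k0_pm_123 : ∃ t, chk3 f_pm_123 t 1 1 1 = true :=
  ⟨(a (b (b (a (l 19314224) (l 18730688)) (a (l 18397976) (l 18050368))) (a (l 1) (b (l 17675104) (l 1)))) (a (b (b (b (l 18100328) (l 17541240)) (l 17622256)) (b (l 17396000) (l 16993136))) (a (b (b (l 17311784) (l 17123120)) (b (l 17027744) (l 16821168))) (b (a (b (l 17029344) (l 16905696)) (b (a (l 16904472) (l 16803456)) (l 16937928))) (a (l 16799584) (a (l 16954984) (l 17030312))))))), by decide +kernel⟩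

theorem c_pm_123 : CertN 536870912 536870912 1073741824 536870912 33554432 16777216 3 true true false .npn 1 2 3
    ndN4q1 ndN4q2 pcN3 Cut.none Ext.none :=
  certNK2 (fam := true) (s1 := true) (s2 := false) (a := 1) (b := 2) (c := 3) (cn := .npn) (n1 := ndN4q1) (n2 := ndN4q2) (pc := pcN3) (cut := Cut.none) (xt := Ext.none) (P1 := 536870912) (W1 := 536870912) (P2 := 1073741824) (W2 := 536870912) (P3 := 33554432) (W3 := 16777216) (N0 := 3)
    rfl rfl rfl (fun _ => rfl) k0_pm_123

noncomputable def f_pm_133 : ℕ → ℕ → ℕ → ℕ → Bool := onCell 536870912 536870912 0 1230186008 33554432 16777216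
    (rowNK 3 0 true true false .dn 1 3 3 (qsf 536870912 536870912 0 1230186008 3) ndN4q1 ndN4q3 pcN3 Cut.none Ext.none)

def k0_pm_133 : ∃ t, chk3 f_pm_133 t 1 1 1 = true :=
  ⟨(b (l 2) (b (l 2) (l 4))), by decide +kernel⟩

theorem c_pm_133 : CertN 536870912 536870912 0 1230186008 33554432 16777216 3 true true false .dn 1 3 3
    ndN4q1 ndN4q3 pcN3 Cut.none Ext.none :=
  certNK0 (fam := true) (s1 := true) (s2 := false) (a := 1) (b := 3) (c := 3) (cn := .dn) (n1 := ndN4q1) (n2 := ndN4q3) (pc := pcN3) (cut := Cut.none) (xt := Ext.none) (P1 := 536870912) (W1 := 536870912) (P2 := 0) (W2 := 1230186008) (P3 := 33554432) (W3 := 16777216) (N0 := 3)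
    rfl rfl rfl k0_pm_133

noncomputable def f_pm_202 : ℕ → ℕ → ℕ → ℕ → Bool := onCell 1073741824 536870912 0 536870912 33554432 16777216
    (rowNK 3 2 true true false .pp 2 0 2 (qsf 1073741824 536870912 0 536870912 2) ndN4q2 ndN4q0 pcN2 Cut.none Ext.none)

def k0_pm_202 : ∃ t, chk3 f_pm_202 t 1 1 1 = true :=
  ⟨(a (b (a (a (l 3) (b (l 19828184) (l 19966040))) (a (a (a (l 19732280) (a (l 19698056) (b (l 19617720) (l 19519064)))) (l 19583480)) (l 19368080))) (a (l 1) (a (l 1) (l 19743472)))) (b (b (a (l 18875944) (l 18202648)) (a (l 19005088) (l 18427680))) (b (l 19254232) (l 19682904)))), by decide +kernel⟩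

theorem c_pm_202 : CertN 1073741824 536870912 0 536870912 33554432 16777216 3 true true false .pp 2 0 2
    ndN4q2 ndN4q0 pcN2 Cut.none Ext.none :=
  certNK2 (fam := true) (s1 := true) (s2 := false) (a := 2) (b := 0) (c := 2) (cn := .pp) (n1 := ndN4q2) (n2 := ndN4q0) (pc := pcN2) (cut := Cut.none) (xt := Ext.none) (P1 := 1073741824) (W1 := 536870912) (P2 := 0) (W2 := 536870912) (P3 := 33554432) (W3 := 16777216) (N0 := 3)
    rfl rfl rfl (fun _ => rfl) k0_pm_202

noncomputable def f_pm_203 : ℕ → ℕ → ℕ → ℕ → Bool := onCell 1073741824 536870912 1610612736 536870912 33554432 16777216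
    (rowNK 3 1 true true false .up 2 0 3 (qsf 1073741824 536870912 0 536870912 3) ndN4q2 ndN4q0 pcN3 Cut.none Ext.none)

def k0_pm_203 : ∃ t, chk3 f_pm_203 t 1 1 1 = true :=
  ⟨(a (b (a (b (l 19266272) (l 18627232)) (b (l 18363144) (l 18191120))) (a (l 2) (b (a (l 2) (l 17401760)) (l 2)))) (a (b (b (l 17971064) (l 17641216)) (b (l 17346968) (b (l 16985760) (l 2)))) (b (b (l 17543160) (l 17147656)) (b (l 16963232) (b (l 16796384) (b (l 16952640) (l 4))))))), by decide +kernel⟩

theorem c_pm_203 : CertN 1073741824 536870912 0 536870912 33554432 16777216 3 true true false .up 2 0 3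
    ndN4q2 ndN4q0 pcN3 Cut.none Ext.none :=
  certNK1 (fam := true) (s1 := true) (s2 := false) (a := 2) (b := 0) (c := 3) (cn := .up) (n1 := ndN4q2) (n2 := ndN4q0) (pc := pcN3) (cut := Cut.none) (xt := Ext.none) (P1 := 1073741824) (W1 := 536870912) (P2 := 0) (W2 := 536870912) (P3 := 33554432) (W3 := 16777216) (N0 := 3)
    rfl rfl rfl (fun _ => rfl) k0_pm_203

noncomputable def f_pm_213 : ℕ → ℕ → ℕ → ℕ → Bool := onCell 1073741824 536870912 1610612736 536870912 33554432 16777216
    (rowNK 3 1 true true false .pnn 2 1 3 (qsf 1073741824 536870912 536870912 536870912 3) ndN4q2 ndN4q1 pcN3 Cut.none Ext.none)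

def k0_pm_213 : ∃ t, chk3 f_pm_213 t 1 1 1 = true :=
  ⟨(b (a (a (b (l 19314224) (l 18730688)) (b (l 18397976) (l 18050368))) (b (l 1) (a (l 17675104) (l 1)))) (b (a (a (a (l 18100328) (l 17541240)) (l 17622256)) (a (l 17396000) (l 16993136))) (b (a (a (l 17311784) (l 17123120)) (a (l 17027744) (l 16821168))) (a (b (a (l 17029344) (l 16905696)) (a (b (l 16904472) (l 16803456)) (l 16916960))) (b (l 16799584) (b (l 16954984) (l 17030312))))))), by decide +kernel⟩

theorem c_pm_213 : CertN 1073741824 536870912 536870912 536870912 33554432 16777216 3 true true false .pnn 2 1 3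
    ndN4q2 ndN4q1 pcN3 Cut.none Ext.none :=
  certNK1 (fam := true) (s1 := true) (s2 := false) (a := 2) (b := 1) (c := 3) (cn := .pnn) (n1 := ndN4q2) (n2 := ndN4q1) (pc := pcN3) (cut := Cut.none) (xt := Ext.none) (P1 := 1073741824) (W1 := 536870912) (P2 := 536870912) (W2 := 536870912) (P3 := 33554432) (W3 := 16777216) (N0 := 3)
    rfl rfl rfl (fun _ => rfl) k0_pm_213

noncomputable def f_pm_303 : ℕ → ℕ → ℕ → ℕ → Bool := onCell 0 1230186008 1610612736 536870912 33554432 16777216
    (rowNK 3 1 true true false .npn 3 0 3 (qsf 0 1230186008 0 536870912 3) ndN4q3 ndN4q0 pcN3 Cut.none Ext.none)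

def k0_pm_303 : ∃ t, chk3 f_pm_303 t 1 1 1 = true :=
  ⟨(a (b (l 1) (l 4)) (a (b (b (l 1) (a (l 1) (l 17055336))) (l 4)) (b (b (a (l 1) (l 16961872)) (a (l 16798032) (l 17050896))) (b (a (l 16944352) (l 16785000)) (b (a (l 4) (l 16906640)) (l 4)))))), by decide +kernel⟩

theorem c_pm_303 : CertN 0 1230186008 0 536870912 33554432 16777216 3 true true false .npn 3 0 3
    ndN4q3 ndN4q0 pcN3 Cut.none Ext.none :=
  certNK1 (fam := true) (s1 := true) (s2 := false) (a := 3) (b := 0) (c := 3) (cn := .npn) (n1 := ndN4q3) (n2 := ndN4q0) (pc := pcN3) (cut := Cut.none) (xt := Ext.none) (P1 := 0) (W1 := 1230186008) (P2 := 0) (W2 := 536870912) (P3 := 33554432) (W3 := 16777216) (N0 := 3)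
    rfl rfl rfl (fun _ => rfl) k0_pm_303

noncomputable def f_pm_313 : ℕ → ℕ → ℕ → ℕ → Bool := onCell 0 1230186008 536870912 536870912 33554432 16777216
    (rowNK 3 0 true true false .dn 3 1 3 (qsf 0 1230186008 536870912 536870912 3) ndN4q3 ndN4q1 pcN3 Cut.none Ext.none)

def k0_pm_313 : ∃ t, chk3 f_pm_313 t 1 1 1 = true :=
  ⟨(a (l 2) (a (l 2) (l 4))), by decide +kernel⟩

theorem c_pm_313 : CertN 0 1230186008 536870912 536870912 33554432 16777216 3 true true false .dn 3 1 3
    ndN4q3 ndN4q1 pcN3 Cut.none Ext.none :=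
  certNK0 (fam := true) (s1 := true) (s2 := false) (a := 3) (b := 1) (c := 3) (cn := .dn) (n1 := ndN4q3) (n2 := ndN4q1) (pc := pcN3) (cut := Cut.none) (xt := Ext.none) (P1 := 0) (W1 := 1230186008) (P2 := 536870912) (W2 := 536870912) (P3 := 33554432) (W3 := 16777216) (N0 := 3)
    rfl rfl rfl k0_pm_313

noncomputable def f_mm_001 : ℕ → ℕ → ℕ → ℕ → Bool := onCell 0 536870912 0 536870912 33554432 16777216
    (rowNK 3 0 true false false .up 0 0 1 (qsf 0 536870912 0 536870912 1) ndN4q0 ndN4q0 pcN1 Cut.none Ext.none)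

def k0_mm_001 : ∃ t, chk3 f_mm_001 t 1 1 1 = true :=
  ⟨(l 4), by decide +kernel⟩

theorem c_mm_001 : CertN 0 536870912 0 536870912 33554432 16777216 3 true false false .up 0 0 1
    ndN4q0 ndN4q0 pcN1 Cut.none Ext.none :=
  certNK0 (fam := true) (s1 := false) (s2 := false) (a := 0) (b := 0) (c := 1) (cn := .up) (n1 := ndN4q0) (n2 := ndN4q0) (pc := pcN1) (cut := Cut.none) (xt := Ext.none) (P1 := 0) (W1 := 536870912) (P2 := 0) (W2 := 536870912) (P3 := 33554432) (W3 := 16777216) (N0 := 3)
    rfl rfl rfl k0_mm_001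

noncomputable def f_mm_011 : ℕ → ℕ → ℕ → ℕ → Bool := onCell 0 536870912 536870912 536870912 33554432 16777216
    (rowNK 3 0 true false false .pnn 0 1 1 (qsf 0 536870912 536870912 536870912 1) ndN4q0 ndN4q1 pcN1 Cut.none Ext.none)

def k0_mm_011 : ∃ t, chk3 f_mm_011 t 1 1 1 = true :=
  ⟨(l 4), by decide +kernel⟩

theorem c_mm_011 : CertN 0 536870912 536870912 536870912 33554432 16777216 3 true false false .pnn 0 1 1
    ndN4q0 ndN4q1 pcN1 Cut.none Ext.none :=
  certNK0 (fam := true) (s1 := false) (s2 := false) (a := 0) (b := 1) (c := 1) (cn := .pnn) (n1 := ndN4q0) (n2 := ndN4q1) (pc := pcN1) (cut := Cut.none) (xt := Ext.none) (P1 := 0) (W1 := 536870912) (P2 := 536870912) (W2 := 536870912) (P3 := 33554432) (W3 := 16777216) (N0 := 3)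
    rfl rfl rfl k0_mm_011

noncomputable def f_mm_012 : ℕ → ℕ → ℕ → ℕ → Bool := onCell 0 536870912 536870912 536870912 33554432 16777216
    (rowNK 3 0 true false false .pnp 0 1 2 (qsf 0 536870912 536870912 536870912 2) ndN4q0 ndN4q1 pcN2 Cut.none Ext.none)

def k0_mm_012 : ∃ t, chk3 f_mm_012 t 1 1 1 = true :=
  ⟨(l 4), by decide +kernel⟩

theorem c_mm_012 : CertN 0 536870912 536870912 536870912 33554432 16777216 3 true false false .pnp 0 1 2
    ndN4q0 ndN4q1 pcN2 Cut.none Ext.none :=
  certNK0 (fam := true) (s1 := false) (s2 := false) (a := 0) (b := 1) (c := 2) (cn := .pnp) (n1 := ndN4q0) (n2 := ndN4q1) (pc := pcN2) (cut := Cut.none) (xt := Ext.none) (P1 := 0) (W1 := 536870912) (P2 := 536870912) (W2 := 536870912) (P3 := 33554432) (W3 := 16777216) (N0 := 3)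
    rfl rfl rfl k0_mm_012

noncomputable def f_mm_022 : ℕ → ℕ → ℕ → ℕ → Bool := onCell 0 536870912 1073741824 536870912 33554432 16777216
    (rowNK 3 0 true false false .pp 0 2 2 (qsf 0 536870912 1073741824 536870912 2) ndN4q0 ndN4q2 pcN2 Cut.none Ext.none)

def k0_mm_022 : ∃ t, chk3 f_mm_022 t 1 1 1 = true :=
  ⟨(l 4), by decide +kernel⟩

theorem c_mm_022 : CertN 0 536870912 1073741824 536870912 33554432 16777216 3 true false false .pp 0 2 2
    ndN4q0 ndN4q2 pcN2 Cut.none Ext.none :=
  certNK0 (fam := true) (s1 := false) (s2 := false) (a := 0) (b := 2) (c := 2) (cn := .pp) (n1 := ndN4q0) (n2 := ndN4q2) (pc := pcN2) (cut := Cut.none) (xt := Ext.none) (P1 := 0) (W1 := 536870912) (P2 := 1073741824) (W2 := 536870912) (P3 := 33554432) (W3 := 16777216) (N0 := 3)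
    rfl rfl rfl k0_mm_022

noncomputable def f_mm_023 : ℕ → ℕ → ℕ → ℕ → Bool := onCell 0 536870912 1073741824 536870912 33554432 16777216
    (rowNK 3 0 true false false .up 0 2 3 (qsf 0 536870912 1073741824 536870912 3) ndN4q0 ndN4q2 pcN3 Cut.none Ext.none)

def k0_mm_023 : ∃ t, chk3 f_mm_023 t 1 1 1 = true :=
  ⟨(l 4), by decide +kernel⟩

theorem c_mm_023 : CertN 0 536870912 1073741824 536870912 33554432 16777216 3 true false false .up 0 2 3
    ndN4q0 ndN4q2 pcN3 Cut.none Ext.none :=
  certNK0 (fam := true) (s1 := false) (s2 := false) (a := 0) (b := 2) (c := 3) (cn := .up) (n1 := ndN4q0) (n2 := ndN4q2) (pc := pcN3) (cut := Cut.none) (xt := Ext.none) (P1 := 0) (W1 := 536870912) (P2 := 1073741824) (W2 := 536870912) (P3 := 33554432) (W3 := 16777216) (N0 := 3)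
    rfl rfl rfl k0_mm_023

noncomputable def f_mm_033 : ℕ → ℕ → ℕ → ℕ → Bool := onCell 0 536870912 0 1230186008 33554432 16777216
    (rowNK 3 0 true false false .pnn 0 3 3 (qsf 0 536870912 0 1230186008 3) ndN4q0 ndN4q3 pcN3 Cut.none Ext.none)

def k0_mm_033 : ∃ t, chk3 f_mm_033 t 1 1 1 = true :=
  ⟨(l 4), by decide +kernel⟩

theorem c_mm_033 : CertN 0 536870912 0 1230186008 33554432 16777216 3 true false false .pnn 0 3 3
    ndN4q0 ndN4q3 pcN3 Cut.none Ext.none :=
  certNK0 (fam := true) (s1 := false) (s2 := false) (a := 0) (b := 3) (c := 3) (cn := .pnn) (n1 := ndN4q0) (n2 := ndN4q3) (pc := pcN3) (cut := Cut.none) (xt := Ext.none) (P1 := 0) (W1 := 536870912) (P2 := 0) (W2 := 1230186008) (P3 := 33554432) (W3 := 16777216) (N0 := 3)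
    rfl rfl rfl k0_mm_033

noncomputable def f_mm_101 : ℕ → ℕ → ℕ → ℕ → Bool := onCell 536870912 536870912 0 536870912 33554432 16777216
    (rowNK 3 0 true false false .npn 1 0 1 (qsf 536870912 536870912 0 536870912 1) ndN4q1 ndN4q0 pcN1 Cut.none Ext.none)

def k0_mm_101 : ∃ t, chk3 f_mm_101 t 1 1 1 = true :=
  ⟨(l 4), by decide +kernel⟩

theorem c_mm_101 : CertN 536870912 536870912 0 536870912 33554432 16777216 3 true false false .npn 1 0 1
    ndN4q1 ndN4q0 pcN1 Cut.none Ext.none :=
  certNK0 (fam := true) (s1 := false) (s2 := false) (a := 1) (b := 0) (c := 1) (cn := .npn) (n1 := ndN4q1) (n2 := ndN4q0) (pc := pcN1) (cut := Cut.none) (xt := Ext.none) (P1 := 536870912) (W1 := 536870912) (P2 := 0) (W2 := 536870912) (P3 := 33554432) (W3 := 16777216) (N0 := 3)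
    rfl rfl rfl k0_mm_101

noncomputable def f_mm_102 : ℕ → ℕ → ℕ → ℕ → Bool := onCell 536870912 536870912 0 536870912 33554432 16777216
    (rowNK 3 0 true false false .npp 1 0 2 (qsf 536870912 536870912 0 536870912 2) ndN4q1 ndN4q0 pcN2 Cut.none Ext.none)

def k0_mm_102 : ∃ t, chk3 f_mm_102 t 1 1 1 = true :=
  ⟨(l 4), by decide +kernel⟩

theorem c_mm_102 : CertN 536870912 536870912 0 536870912 33554432 16777216 3 true false false .npp 1 0 2
    ndN4q1 ndN4q0 pcN2 Cut.none Ext.none :=
  certNK0 (fam := true) (s1 := false) (s2 := false) (a := 1) (b := 0) (c := 2) (cn := .npp) (n1 := ndN4q1) (n2 := ndN4q0) (pc := pcN2) (cut := Cut.none) (xt := Ext.none) (P1 := 536870912) (W1 := 536870912) (P2 := 0) (W2 := 536870912) (P3 := 33554432) (W3 := 16777216) (N0 := 3)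
    rfl rfl rfl k0_mm_102

noncomputable def f_mm_112 : ℕ → ℕ → ℕ → ℕ → Bool := onCell 536870912 536870912 536870912 536870912 33554432 16777216
    (rowNK 3 0 true false false .dn 1 1 2 (qsf 536870912 536870912 536870912 536870912 2) ndN4q1 ndN4q1 pcN2 Cut.none Ext.none)

def k0_mm_112 : ∃ t, chk3 f_mm_112 t 1 1 1 = true :=
  ⟨(l 4), by decide +kernel⟩

theorem c_mm_112 : CertN 536870912 536870912 536870912 536870912 33554432 16777216 3 true false false .dn 1 1 2
    ndN4q1 ndN4q1 pcN2 Cut.none Ext.none :=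
  certNK0 (fam := true) (s1 := false) (s2 := false) (a := 1) (b := 1) (c := 2) (cn := .dn) (n1 := ndN4q1) (n2 := ndN4q1) (pc := pcN2) (cut := Cut.none) (xt := Ext.none) (P1 := 536870912) (W1 := 536870912) (P2 := 536870912) (W2 := 536870912) (P3 := 33554432) (W3 := 16777216) (N0 := 3)
    rfl rfl rfl k0_mm_112

noncomputable def f_mm_113 : ℕ → ℕ → ℕ → ℕ → Bool := onCell 536870912 536870912 536870912 536870912 33554432 16777216
    (rowNK 3 0 true false false .nn 1 1 3 (qsf 536870912 536870912 536870912 536870912 3) ndN4q1 ndN4q1 pcN3 Cut.none Ext.none)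

def k0_mm_113 : ∃ t, chk3 f_mm_113 t 1 1 1 = true :=
  ⟨(l 4), by decide +kernel⟩

theorem c_mm_113 : CertN 536870912 536870912 536870912 536870912 33554432 16777216 3 true false false .nn 1 1 3
    ndN4q1 ndN4q1 pcN3 Cut.none Ext.none :=
  certNK0 (fam := true) (s1 := false) (s2 := false) (a := 1) (b := 1) (c := 3) (cn := .nn) (n1 := ndN4q1) (n2 := ndN4q1) (pc := pcN3) (cut := Cut.none) (xt := Ext.none) (P1 := 536870912) (W1 := 536870912) (P2 := 536870912) (W2 := 536870912) (P3 := 33554432) (W3 := 16777216) (N0 := 3)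
    rfl rfl rfl k0_mm_113

noncomputable def f_mm_123 : ℕ → ℕ → ℕ → ℕ → Bool := onCell 536870912 536870912 1073741824 536870912 33554432 16777216
    (rowNK 3 0 true false false .npn 1 2 3 (qsf 536870912 536870912 1073741824 536870912 3) ndN4q1 ndN4q2 pcN3 Cut.none Ext.none)

def k0_mm_123 : ∃ t, chk3 f_mm_123 t 1 1 1 = true :=
  ⟨(l 4), by decide +kernel⟩

theorem c_mm_123 : CertN 536870912 536870912 1073741824 536870912 33554432 16777216 3 true false false .npn 1 2 3
    ndN4q1 ndN4q2 pcN3 Cut.none Ext.none :=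
  certNK0 (fam := true) (s1 := false) (s2 := false) (a := 1) (b := 2) (c := 3) (cn := .npn) (n1 := ndN4q1) (n2 := ndN4q2) (pc := pcN3) (cut := Cut.none) (xt := Ext.none) (P1 := 536870912) (W1 := 536870912) (P2 := 1073741824) (W2 := 536870912) (P3 := 33554432) (W3 := 16777216) (N0 := 3)
    rfl rfl rfl k0_mm_123

noncomputable def f_mm_133 : ℕ → ℕ → ℕ → ℕ → Bool := onCell 536870912 536870912 0 1230186008 33554432 16777216
    (rowNK 3 0 true false false .dn 1 3 3 (qsf 536870912 536870912 0 1230186008 3) ndN4q1 ndN4q3 pcN3 Cut.none Ext.none)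

def k0_mm_133 : ∃ t, chk3 f_mm_133 t 1 1 1 = true :=
  ⟨(l 4), by decide +kernel⟩

theorem c_mm_133 : CertN 536870912 536870912 0 1230186008 33554432 16777216 3 true false false .dn 1 3 3
    ndN4q1 ndN4q3 pcN3 Cut.none Ext.none :=
  certNK0 (fam := true) (s1 := false) (s2 := false) (a := 1) (b := 3) (c := 3) (cn := .dn) (n1 := ndN4q1) (n2 := ndN4q3) (pc := pcN3) (cut := Cut.none) (xt := Ext.none) (P1 := 536870912) (W1 := 536870912) (P2 := 0) (W2 := 1230186008) (P3 := 33554432) (W3 := 16777216) (N0 := 3)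
    rfl rfl rfl k0_mm_133

noncomputable def f_mm_202 : ℕ → ℕ → ℕ → ℕ → Bool := onCell 1073741824 536870912 0 536870912 33554432 16777216
    (rowNK 3 0 true false false .pp 2 0 2 (qsf 1073741824 536870912 0 536870912 2) ndN4q2 ndN4q0 pcN2 Cut.none Ext.none)

def k0_mm_202 : ∃ t, chk3 f_mm_202 t 1 1 1 = true :=
  ⟨(l 4), by decide +kernel⟩

theorem c_mm_202 : CertN 1073741824 536870912 0 536870912 33554432 16777216 3 true false false .pp 2 0 2
    ndN4q2 ndN4q0 pcN2 Cut.none Ext.none :=
  certNK0 (fam := true) (s1 := false) (s2 := false) (a := 2) (b := 0) (c := 2) (cn := .pp) (n1 := ndN4q2) (n2 := ndN4q0) (pc := pcN2) (cut := Cut.none) (xt := Ext.none) (P1 := 1073741824) (W1 := 536870912) (P2 := 0) (W2 := 536870912) (P3 := 33554432) (W3 := 16777216) (N0 := 3)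
    rfl rfl rfl k0_mm_202

noncomputable def f_mm_203 : ℕ → ℕ → ℕ → ℕ → Bool := onCell 1073741824 536870912 0 536870912 33554432 16777216
    (rowNK 3 0 true false false .up 2 0 3 (qsf 1073741824 536870912 0 536870912 3) ndN4q2 ndN4q0 pcN3 Cut.none Ext.none)

def k0_mm_203 : ∃ t, chk3 f_mm_203 t 1 1 1 = true :=
  ⟨(l 4), by decide +kernel⟩

theorem c_mm_203 : CertN 1073741824 536870912 0 536870912 33554432 16777216 3 true false false .up 2 0 3
    ndN4q2 ndN4q0 pcN3 Cut.none Ext.none :=
  certNK0 (fam := true) (s1 := false) (s2 := false) (a := 2) (b := 0) (c := 3) (cn := .up) (n1 := ndN4q2) (n2 := ndN4q0) (pc := pcN3) (cut := Cut.none) (xt := Ext.none) (P1 := 1073741824) (W1 := 536870912) (P2 := 0) (W2 := 536870912) (P3 := 33554432) (W3 := 16777216) (N0 := 3)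
    rfl rfl rfl k0_mm_203

noncomputable def f_mm_213 : ℕ → ℕ → ℕ → ℕ → Bool := onCell 1073741824 536870912 536870912 536870912 33554432 16777216
    (rowNK 3 0 true false false .pnn 2 1 3 (qsf 1073741824 536870912 536870912 536870912 3) ndN4q2 ndN4q1 pcN3 Cut.none Ext.none)

def k0_mm_213 : ∃ t, chk3 f_mm_213 t 1 1 1 = true :=
  ⟨(l 4), by decide +kernel⟩

theorem c_mm_213 : CertN 1073741824 536870912 536870912 536870912 33554432 16777216 3 true false false .pnn 2 1 3
    ndN4q2 ndN4q1 pcN3 Cut.none Ext.none :=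
  certNK0 (fam := true) (s1 := false) (s2 := false) (a := 2) (b := 1) (c := 3) (cn := .pnn) (n1 := ndN4q2) (n2 := ndN4q1) (pc := pcN3) (cut := Cut.none) (xt := Ext.none) (P1 := 1073741824) (W1 := 536870912) (P2 := 536870912) (W2 := 536870912) (P3 := 33554432) (W3 := 16777216) (N0 := 3)
    rfl rfl rfl k0_mm_213

noncomputable def f_mm_303 : ℕ → ℕ → ℕ → ℕ → Bool := onCell 0 1230186008 0 536870912 33554432 16777216
    (rowNK 3 0 true false false .npn 3 0 3 (qsf 0 1230186008 0 536870912 3) ndN4q3 ndN4q0 pcN3 Cut.none Ext.none)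

def k0_mm_303 : ∃ t, chk3 f_mm_303 t 1 1 1 = true :=
  ⟨(l 4), by decide +kernel⟩

theorem c_mm_303 : CertN 0 1230186008 0 536870912 33554432 16777216 3 true false false .npn 3 0 3
    ndN4q3 ndN4q0 pcN3 Cut.none Ext.none :=
  certNK0 (fam := true) (s1 := false) (s2 := false) (a := 3) (b := 0) (c := 3) (cn := .npn) (n1 := ndN4q3) (n2 := ndN4q0) (pc := pcN3) (cut := Cut.none) (xt := Ext.none) (P1 := 0) (W1 := 1230186008) (P2 := 0) (W2 := 536870912) (P3 := 33554432) (W3 := 16777216) (N0 := 3)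
    rfl rfl rfl k0_mm_303

noncomputable def f_mm_313 : ℕ → ℕ → ℕ → ℕ → Bool := onCell 0 1230186008 536870912 536870912 33554432 16777216
    (rowNK 3 0 true false false .dn 3 1 3 (qsf 0 1230186008 536870912 536870912 3) ndN4q3 ndN4q1 pcN3 Cut.none Ext.none)

def k0_mm_313 : ∃ t, chk3 f_mm_313 t 1 1 1 = true :=
  ⟨(l 4), by decide +kernel⟩

theorem c_mm_313 : CertN 0 1230186008 536870912 536870912 33554432 16777216 3 true false false .dn 3 1 3
    ndN4q3 ndN4q1 pcN3 Cut.none Ext.none :=
  certNK0 (fam := true) (s1 := false) (s2 := false) (a := 3) (b := 1) (c := 3) (cn := .dn) (n1 := ndN4q3) (n2 := ndN4q1) (pc := pcN3) (cut := Cut.none) (xt := Ext.none) (P1 := 0) (W1 := 1230186008) (P2 := 536870912) (W2 := 536870912) (P3 := 33554432) (W3 := 16777216) (N0 := 3)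
    rfl rfl rfl k0_mm_313

end Pool.Agent.Strip051.G.I1_32_3_64.Tab.C.NA44

namespace Pool.Agent.Strip051.G.I1_32_3_64.Tab.C.NB00

open Pool.Agent.Strip051.PB Pool.Agent.Strip051.PB.T
open Pool.Agent.Strip051.G.I1_32_3_64.Tab

noncomputable def f_pp_001 : ℕ → ℕ → ℕ → ℕ → Bool := onCell 0 536870912 0 536870912 33554432 16777216
    (rowNK 3 1 false true true .up 0 0 1 (qsf 0 536870912 536870912 536870912 0) ndN0q0 ndN0q1 pcN0 Cut.none Ext.none)

def k0_pp_001 : ∃ t, chk3 f_pp_001 t 1 1 1 = true :=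
  ⟨(l 3), by decide +kernel⟩

theorem c_pp_001 : CertN 0 536870912 536870912 536870912 33554432 16777216 3 false true true .up 0 0 1
    ndN0q0 ndN0q1 pcN0 Cut.none Ext.none :=
  certNK1 (fam := false) (s1 := true) (s2 := true) (a := 0) (b := 0) (c := 1) (cn := .up) (n1 := ndN0q0) (n2 := ndN0q1) (pc := pcN0) (cut := Cut.none) (xt := Ext.none) (P1 := 0) (W1 := 536870912) (P2 := 536870912) (W2 := 536870912) (P3 := 33554432) (W3 := 16777216) (N0 := 3)
    rfl rfl rfl (fun _ => rfl) k0_pp_001

noncomputable def cut_pp_011 : Cut := Cut.of [[⟨0, 0, 0, 33554432⟩, ⟨1, 1, 0, 33554432⟩, ⟨2, 1, 0, 33554432⟩]]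

noncomputable def f_pp_011 : ℕ → ℕ → ℕ → ℕ → Bool := onCell 536870912 536870912 536870912 536870912 33554432 16777216
    (rowNK 3 2 false true true .pnn 0 1 1 (qsf 0 536870912 536870912 536870912 1) ndN0q0 ndN0q1 pcN1 cut_pp_011 Ext.none)

def k0_pp_011 : ∃ t, chk3 f_pp_011 t 1 1 1 = true :=
  ⟨(a (l 3) (b (l 3) (a (l 3) (b (l 3) (a (l 3) (b (l 3) (b (l 3) (a (l 3) (b (l 3) (a (l 3) (l 6))))))))))), by decide +kernel⟩

theorem c_pp_011 : CertN 0 536870912 536870912 536870912 33554432 16777216 3 false true true .pnn 0 1 1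
    ndN0q0 ndN0q1 pcN1 cut_pp_011 Ext.none :=
  certNK2 (fam := false) (s1 := true) (s2 := true) (a := 0) (b := 1) (c := 1) (cn := .pnn) (n1 := ndN0q0) (n2 := ndN0q1) (pc := pcN1) (cut := cut_pp_011) (xt := Ext.none) (P1 := 0) (W1 := 536870912) (P2 := 536870912) (W2 := 536870912) (P3 := 33554432) (W3 := 16777216) (N0 := 3)
    rfl rfl rfl (fun _ => rfl) k0_pp_011

noncomputable def cut_pp_012 : Cut := Cut.of [[⟨0, 0, 0, 33554432⟩, ⟨1, 1, 0, 33554432⟩, ⟨2, 1, 0, 33554432⟩]]

noncomputable def f_pp_012 : ℕ → ℕ → ℕ → ℕ → Bool := onCell 536870912 536870912 0 536870912 33554432 16777216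
    (rowNK 3 2 false true true .pnp 0 1 2 (qsf 0 536870912 0 536870912 1) ndN0q0 ndN0q2 pcN1 cut_pp_012 Ext.none)

def k0_pp_012 : ∃ t, chk3 f_pp_012 t 2 1 1 = true :=
  ⟨(b (b (a (l 2) (a (a (a (l 2) (b (b (l 17028592) (l 53251114711)) (b (b (a (l 2) (l 53318085831)) (l 116668798791)) (l 3)))) (b (b (l 17116568) (a (l 16973568) (l 17009816))) (b (a (b (l 16832392) (b (l 55465569207) (l 89288435719))) (l 16860760)) (a (l 120426942407) (a (l 105394578711) (l 86067244759)))))) (b (a (l 17214144) (l 17251128)) (a (b (a (l 16956688) (l 16985576)) (a (b (l 16858608) (l 88214779207)) (l 16851096))) (b (l 17062344) (l 16949112)))))) (a (l 3) (a (l 3) (b (a (b (b (a (l 116668826055) (l 87677904983)) (l 117205807095)) (l 3)) (b (a (b (l 16826632) (l 87141043079)) (l 16858096)) (a (b (l 111300143447) (l 3)) (b (l 56539302935) (l 108078934487))))) (l 3))))) (l 3)), by decide +kernel⟩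

def k1_pp_012 : ∃ t, chk3 f_pp_012 t 6 1 1 = true :=
  ⟨(b (a (b (b (l 17534480) (a (l 17103912) (l 17265712))) (b (b (a (l 16929536) (l 17117576)) (a (b (l 16903696) (a (a (l 58686756311) (l 16838096)) (l 16888592))) (l 17090640))) (a (b (a (l 108615839895) (b (a (l 16807144) (l 16831256)) (a (l 110763252919) (l 88214758055)))) (l 3)) (b (a (b (l 16908952) (l 16829312)) (l 17026504)) (a (b (b (l 56539313607) (l 100025848855)) (a (l 3) (l 107005126775))) (b (l 16848728) (a (b (l 81235395159) (l 98952073575)) (l 36138188199)))))))) (b (a (l 17653824) (l 17695856)) (b (a (l 17267240) (l 17441360)) (a (b (l 17186584) (a (b (l 16962368) (a (l 16846912) (l 16916440))) (l 17090696))) (b (l 17309360) (l 17316320)))))) (b (a (b (a (l 3) (b (a (l 3) (l 117742649399)) (l 3))) (l 3)) (b (a (b (a (b (a (l 74792966391) (l 16818584)) (a (l 3) (b (l 71571669703) (l 3)))) (b (a (l 16932184) (l 16942888)) (b (l 16833904) (a (l 61907992199) (l 16838648))))) (a (l 3) (b (a (l 108078896535) (b (l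 51707444135) (l 102710155847))) (l 3)))) (b (b (l 17271504) (a (l 17069408) (l 17061336))) (a (b (a (b (l 16849696) (l 40970022791)) (b (l 16907088) (l 16840816))) (a (l 98952107623) (b (l 16806344) (l 77477238471)))) (b (a (l 16944096) (l 17005688)) (a (l 7684024055) (b (l 16937072) (l 16889392))))))) (a (l 3) (b (a (l 3) (b (a (b (l 66739838087) (l 3)) (a (b (l 16824608) (l 73719141623)) (l 20032053559))) (l 114521405895))) (l 3))))) (l 3))), by decide +kernel⟩

def k2_pp_012 : ∃ t, chk3 f_pp_012 t 7 2 1 = true :=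
  ⟨(a (b (a (l 17882824) (l 18099616)) (a (b (l 17657000) (l 17610456)) (b (l 17898136) (l 17740744)))) (b (a (l 18366240) (l 18699464)) (a (b (l 18183544) (l 18036760)) (b (l 18530696) (l 18388064))))), by decide +kernel⟩

def k3_pp_012 : ∃ t, chk3 f_pp_012 t 7 6 1 = true :=
  ⟨(a (b (a (b (a (l 17225096) (l 17352472)) (a (b (l 17100592) (a (l 16977336) (l 17042288))) (l 17123592))) (b (l 17555208) (a (l 17323168) (l 17468920)))) (a (b (a (b (b (a (l 16904704) (l 16970192)) (l 16813424)) (a (b (a (l 82309120407) (l 16798520)) (l 89825278071)) (b (l 16847696) (a (l 40970015319) (l 16833240))))) (b (l 16961656) (a (b (l 16935616) (l 16841648)) (l 16957272)))) (a (b (a (l 3) (l 93583420967)) (l 3)) (b (b (a (l 15200209431) (l 16857968)) (a (a (l 97878338471) (l 48486208855)) (l 16825984))) (a (l 110226391607) (b (a (b (l 77477259575) (l 103783897063)) (l 26474495975)) (l 104320796567)))))) (a (b (b (l 17184848) (l 17021792)) (b (a (l 16860408) (l 17017640)) (a (b (l 16801272) (a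 (a (l 64055453575) (l 40433138023)) (c (l 16787112) (l 16795248)))) (b (l 16937816) (a (l 16822592) (l 16902104)))))) (b (l 17242576) (b (l 17112088) (a (l 16945280) (l 17067288))))))) (b (a (b (l 17861824) (l 17689368)) (a (l 18058560) (l 18249616))) (a (a (b (l 17446992) (b (l 17298840) (l 17173432))) (b (l 17624240) (l 17386696))) (a (b (l 17816008) (l 17623424)) (b (l 18011360) (b (l 17866440) (l 17755848))))))), by decide +kernel⟩

def k4_pp_012 : ∃ t, chk3 f_pp_012 t 14 7 1 = true :=
  ⟨(b (a (l 3) (b (a (b (a (b (a (l 3) (b (l 79087870583) (l 105394510295))) (l 3)) (b (a (b (l 16802240) (l 46338716567)) (l 16804544)) (a (l 101636436311) (b (a (l 69961056151) (l 16813960)) (a (l 104857636215) (l 74792880807)))))) (l 3)) (b (b (a (l 16841464) (l 16984824)) (a (a (l 16796672) (l 16825264)) (l 16886016))) (a (b (a (b (a (l 89825247543) (b (l 16802608) (l 71571644759))) (l 105931380503)) (a (b (l 16814240) (a (l 86067149431) (l 69961039847))) (l 16798224))) (a (l 3) (l 102173306423)))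 (b (a (l 16807184) (l 16869352)) (b (a (a (b (l 16802880) (l 69961031399)) (l 16794096)) (l 16824688)) (a (a (l 105931377063) (b (l 60834227575) (l 91972729607))) (l 16794904))))))) (a (l 3) (b (a (l 3) (b (a (l 3) (b (a (l 89288396647) (b (l 16804048) (a (l 84456543655) (l 16795296)))) (l 101636433479))) (l 3))) (l 3))))) (l 3)), by decide +kernel⟩

def k5_pp_012 : ∃ t, chk3 f_pp_012 t 30 28 1 = true :=
  ⟨(a (b (a (l 17019832) (l 17129160)) (a (b (l 16933224) (a (l 16830832) (l 16916136))) (l 16908232))) (b (l 17247632) (a (l 17105552) (l 17200512)))), by decide +kernel⟩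

def k6_pp_012 : ∃ t, chk3 f_pp_012 t 60 29 1 = true :=
  ⟨(b (a (b (a (b (l 16795784) (a (b (a (l 66739802231) (l 16799976)) (l 89825266423)) (b (l 16814984) (a (l 16795840) (l 16805216))))) (l 16791888)) (a (b (a (l 3) (b (a (l 95193954311) (l 64055447527)) (l 101636408039))) (l 3)) (b (a (b (l 16795168) (a (l 75866620999) (l 16796464))) (l 16798040)) (a (l 98952064407) (b (a (b (l 16795640) (l 73182251207)) (l 16801536)) (a (l 101636405927) (l 72645381959))))))) (b (a (l 16878176) (l 16944544)) (a (b (l 16831024) (b (l 16807224) (c (l 16790848) (l 16792056)))) (l 16839296)))) (a (l 3) (b (a (b (a (b (a (l 90898985927) (b (l 16796344) (l 69961025095))) (l 101636406839)) (b (l 16786704) (a (b (l 16792784) (l 90898985127)) (l 16792744)))) (a (l 3) (b (a (l 104857631911) (l 87677770231)) (l 3)))) (b (l 16790904) (a (b (a (b (l 16797136) (l 65129185975)) (l 16803488)) (a (l 97341437175) (b (l 49023056999) (l 81772178855)))) (b (l 16798896) (c (l 16790008) (l 16791776)))))) (a (l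 3) (b (a (b (l 103783890871) (l 3)) (b (a (b (a (l 88214633655) (l 16792008)) (l 100025790759)) (a (b (l 16795680) (l 72108505719)) (l 16796944))) (a (l 3) (l 94120221271)))) (l 3)))))), by decide +kernel⟩

def k7_pp_012 : ∃ t, chk3 f_pp_012 t 61 29 1 = true :=
  ⟨(b (a (b (l 17014176) (a (l 16927400) (l 16974144))) (b (l 17108480) (l 17044448))) (a (b (a (b (l 16878752) (a (l 16813416) (l 16857440))) (l 16887864)) (b (a (a (b (l 16789056) (a (b (c (l 16794704) (l 16793088)) (a (l 95730822247) (l 68350408695))) (l 16789400))) (l 16803432)) (l 16838064)) (a (a (b (a (l 102710146423) (b (a (l 78550956535) (l 16792408)) (l 95193951559))) (l 3)) (b (a (a (b (l 16796544) (l 64592311847)) (l 16797872)) (l 16805728)) (a (b (a (l 99488918551) (l 75329730487)) (l 102710145319)) (b (l 16789432) (a (l 86604019735) (c (l 16791784) (l 54391762167))))))) (a (b (l 16822560) (l 16790576)) (l 16816232))))) (b (a (l 16955456) (l 17001416)) (a (b (l 16905384) (l 16850776)) (l 16891928))))), by decide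 +kernel⟩

def k8_pp_012 : ∃ t, chk3 f_pp_012 t 31 14 1 = true :=
  ⟨(b (a (b (l 17461712) (a (l 17295584) (l 17385640))) (b (a (l 17594968) (l 17658544)) (a (l 17459944) (a (l 17493264) (l 17496472))))) (a (b (a (b (l 17201256) (l 17135224)) (b (l 17285320) (l 17214008))) (a (b (l 17025096) (a (l 16977072) (l 17016384))) (b (a (l 17123832) (l 17152504)) (a (l 17049216) (l 17008856))))) (a (b (b (l 17345640) (a (l 17254312) (l 17264752))) (b (a (l 17169072) (l 17041360)) (a (b (l 17101616) (l 17013040)) (b (l 17004176) (l 16885408))))) (a (b (b (l 17357904) (l 17191288)) (a (b (l 17085160) (l 16855096)) (b (l 17019000) (l 16835336)))) (b (b (l 17317160) (c (l 17372568) (l 16925408))) (b (a (l 16962080) (l 16869584)) (a (l 16799240) (b (l 16898760) (l 16793872))))))))), by decide +kernel⟩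

def k9_pp_012 : ∃ t, chk3 f_pp_012 t 60 30 1 = true :=
  ⟨(l 3), by decide +kernel⟩

def k10_pp_012 : ∃ t, chk3 f_pp_012 t 122 60 1 = true :=
  ⟨(b (a (b (a (l 3) (b (a (l 3) (l 99488919831)) (l 3))) (l 3)) (b (a (b (a (b (a (b (l 16791144) (l 84456534199)) (l 16792968)) (a (l 102173272999) (l 82845922887))) (a (a (b (l 16796256) (l 16790968)) (l 16789944)) (l 16798848))) (a (l 3) (b (a (l 94120208279) (b (l 16791192) (l 80161566471))) (l 99488918631)))) (b (l 16791440) (a (b (l 16790264) (a (b (l 67276664151) (l 93046468167)) (c (l 16792360) (l 16790808)))) (l 16791472)))) (a (l 3) (b (a (b (a (l 99488918295) (b (l 83919662647) (l 99488917207))) (l 3)) (b (a (b (l 16791320) (l 74792856839)) (l 16793648)) (a (l 98952046263) (b (c (l 16790832) (l 59223598327)) (l 87677758711))))) (a (l 3) (b (l 101099531175) (l 3))))))) (l 3)), by decide +kernel⟩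

def k11_pp_012 : ∃ t, chk3 f_pp_012 t 246 60 1 = true :=
  ⟨(b (b (a (l 16805824) (l 16849520)) (a (b (a (a (b (l 16798408) (l 16789208)) (l 16799808)) (l 16807856)) (a (b (a (b (c (l 79624695303) (l 77477210167)) (l 98952045623)) (a (b (l 16790784) (l 82309045943)) (l 16791128))) (a (l 3) (b (l 90898983879) (l 99488916967)))) (b (l 16791104) (a (b (c (l 16790864) (l 16789736)) (c (l 82845920519) (l 81235306295))) (l 16789456))))) (c (l 16789624) (l 16790512)))) (b (a (b (a (l 3) (b (a (l 100562658727) (b (a (l 88214625751) (l 16790072)) (l 96804561271))) (l 3))) (l 3)) (b (a (b (a (a (b (l 16790880) (l 73719110631)) (l 16791296)) (l 16794352)) (a (a (l 100562657959) (b (l 83919658167) (l 98952044903))) (b (l 16790272) (a (l 93046463879) (l 66739788567))))) (c (l 16789992) (l 16790352))) (a (b (a (l 3) (b (l 98415173831) (l 3))) (l 3)) (b (a (a (b (a (l 88214625463) (l 16789296)) (l 98415173623)) (b (l 16789816) (l 88751496167))) (a (b (l 16791024) (l 16788408)) (l 16791488)))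 (a (l 98415174103) (b (a (l 97341430983) (a (l 82845915991) (l 16789656))) (l 100025786375))))))) (l 3))), by decide +kernel⟩

def k12_pp_012 : ∃ t, chk3 f_pp_012 t 247 60 1 = true :=
  ⟨(b (b (l 16862064) (a (l 16817512) (l 16860216))) (b (a (b (l 16792960) (a (b (l 16797072) (a (b (l 16790304) (a (a (l 93583334375) (l 80161561303)) (l 16789544))) (l 16792592))) (l 16792992))) (l 16795776)) (a (b (a (b (a (b (c (l 95193948279) (a (l 99488914583) (l 92509592503))) (l 3)) (a (b (b (l 16789496) (l 79624690215)) (l 100562656263)) (b (l 16789696) (b (l 16789088) (l 93046463207))))) (a (l 3) (b (c (l 97878303175) (l 101636398247)) (l 3)))) (a (b (b (l 16792160) (l 16787720)) (b (c (a (l 88751497687) (l 16789720)) (a (b (l 82845915655) (l 97878301671)) (b (l 16788928) (l 16788592)))) (c (l 97878302599) (a (l 3) (l 97878301383))))) (b (l 16794936) (a (b (l 16789672) (c (l 75329723575) (b (l 16788912) (l 86067141015)))) (l 16787384))))) (a (l 3) (b (a (l 3) (b (a (c (l 97341431447) (l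 101099526519)) (b (a (l 90362108151) (l 16789000)) (l 98415172087))) (c (l 97341432007) (l 98952043479)))) (l 3)))) (b (c (l 16792016) (l 16788824)) (b (a (a (a (b (b (l 16789120) (l 16787848)) (b (a (l 98952042807) (l 86604011447)) (l 97878300951))) (b (l 16789632) (a (b (l 16789072) (l 94657075111)) (l 16787704)))) (l 16788192)) (l 16797384)) (b (a (a (c (l 98415173047) (a (l 3) (l 100025784071))) (a (a (c (l 89825237927) (b (l 16788120) (l 97341429079))) (c (l 74792852087) (b (l 16788528) (l 89288365511)))) (l 16787472))) (l 16792272)) (a (a (l 3) (c (a (l 97341430807) (l 87677754887)) (a (l 98415171383) (a (l 97878300503) (b (l 16788032) (l 97878300151)))))) (a (a (a (a (b (l 16788728) (l 94657074295)) (l 16788040)) (l 16788640)) (l 16788784)) (l 16791240))))))))), by decide +kernel⟩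

def k13_pp_012 : ∃ t, chk3 f_pp_012 t 61 61 1 = true :=
  ⟨(a (l 3) (b (a (l 3) (b (a (l 3) (b (a (l 3) (b (b (a (a (c (l 95730818103) (b (c (l 95193946055) (l 94657074679)) (l 97878300039))) (b (l 16787248) (c (l 87140882535) (a (l 97878299783) (l 79624688375))))) (l 16787376)) (b (a (a (l 3) (a (l 3) (l 97341428487))) (a (a (a (l 98415170247) (l 16787952)) (l 16788416)) (l 16788280))) (a (l 3) (a (c (l 96804558935) (c (l 96804558407) (l 96804557959))) (a (l 16787600) (l 16788288)))))) (a (l 3) (b (c (a (l 97341430039) (l 90898979623)) (a (l 98415170663) (b (a (l 97878299399) (a (l 92509589847) (l 16787536))) (l 97341428439)))) (l 3))))) (l 3))) (l 3))) (l 3))), by decide +kernel⟩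

def k14_pp_012 : ∃ t, chk3 f_pp_012 t 30 31 1 = true :=
  ⟨(l 3), by decide +kernel⟩

def k15_pp_012 : ∃ t, chk3 f_pp_012 t 62 60 1 = true :=
  ⟨(a (b (a (b (l 16925368) (l 16870248)) (b (l 16962968) (l 16927688))) (a (a (b (l 16826912) (a (l 16789976) (l 16799816))) (b (l 16867320) (l 16793024))) (b (l 16830272) (a (l 16831304) (l 16846160))))) (b (a (b (l 16992696) (l 16934248)) (b (l 16988872) (l 16884464))) (a (b (c (l 16958232) (l 16857496)) (a (l 16857816) (l 16865376))) (b (a (l 16906136) (l 16883952)) (a (l 16846736) (l 16821440)))))), by decide +kernel⟩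

def k16_pp_012 : ∃ t, chk3 f_pp_012 t 248 488 1 = true :=
  ⟨(a (a (b (l 16787512) (b (a (a (b (l 16788192) (a (b (l 89288364183) (l 96804556839)) (l 16787944))) (l 16788016)) (l 16790176)) (a (c (a (l 98415171063) (b (l 16788016) (l 91972719879))) (a (b (c (l 96804558023) (l 97341428487)) (l 3)) (a (b (a (l 86604009383) (l 16787520)) (l 97341427687)) (b (l 16787704) (a (l 96804556711) (l 83382783735)))))) (a (a (l 16786672) (l 16787880)) (l 16788448))))) (l 16787824)) (l 16791080)), by decide +kernel⟩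

def k17_pp_012 : ∃ t, chk3 f_pp_012 t 248 489 1 = true :=
  ⟨(b (a (a (a (b (c (l 98415171511) (a (l 3) (l 98415169879))) (l 3)) (b (b (a (c (l 82845914007) (a (a (l 96804556423) (l 94120201991)) (l 16787344))) (l 16787816)) (a (a (l 98952040375) (c (l 95730815735) (l 97878298631))) (a (a (b (l 16787432) (l 96267685015)) (l 16787440)) (l 16787808)))) (c (l 96804557959) (a (l 3) (a (l 97341427735) (b (b (l 86604008775) (l 96267685127)) (l 98415169015))))))) (a (b (l 16788368) (a (c (b (l 16788056) (l 84993397207)) (b (l 16786728) (a (c (l 96804556903) (l 97878298151)) (b (l 16787368) (l 89288363191))))) (l 16787544))) (l 16790536))) (l 16790752)) (a (a (l 3) (a (a (a (l 3) (b (b (c (l 96267686199) (l 97341426935)) (l 3)) (l 3))) (a (b (c (l 91972719079) (b (b (l 16786944) (l 97878297767)) (l 97878297767))) (l 3)) (b (b (l 16787568) (a (b (l 95730813703) (l 98952039143)) (b (l 16787120) (l 96804555335)))) (c (l 97341428247) (l 98415168935))))) (a (b (a (a (b (l 16787512) (b (l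 16787344) (l 16786752))) (l 16787488)) (l 16787408)) (c (b (l 87677751335) (l 96267686247)) (b (a (a (l 97878297351) (l 98415168455)) (c (l 80698428887) (b (l 16786848) (l 93046459175)))) (c (l 96267685639) (l 96804555975))))) (b (l 16787512) (b (l 16787344) (a (c (l 91435847687) (c (l 89825234327) (b (c (l 84456524647) (l 83382782567)) (l 96267684343)))) (c (l 16787536) (l 16787016)))))))) (a (a (l 16785952) (l 16792384)) (l 16798648)))), by decide +kernel⟩

def k18_pp_012 : ∃ t, chk3 f_pp_012 t 496 245 1 = true :=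
  ⟨(b (a (l 3) (b (a (l 3) (b (c (l 97878298999) (a (l 3) (b (c (l 96804556407) (a (l 97878297367) (b (l 95730813527) (l 97341425975)))) (l 3)))) (l 3))) (l 3))) (l 3)), by decide +kernel⟩

def k19_pp_012 : ∃ t, chk3 f_pp_012 t 497 490 1 = true :=
  ⟨(a (a (b (a (a (b (a (c (l 91435847479) (b (b (l 16786744) (l 97878296919)) (l 98415167879))) (b (l 16787088) (c (l 96267685239) (l 97341425991)))) (l 3)) (b (b (l 16787200) (c (l 86067138215) (b (l 16786584) (a (l 97341425655) (l 97341425831))))) (c (l 96804556535) (b (l 97878297015) (l 3))))) (a (b (c (l 16787464) (l 16786808)) (c (l 95730814567) (b (b (a (l 95730812887) (l 16786472)) (l 97341425719)) (l 3)))) (b (l 16787024) (c (b (l 16787096) (l 96804556343)) (a (b (b (l 16786800) (l 93046458343)) (l 97878296631)) (b (l 16786768) (b (l 97878296535) (l 97878296359)))))))) (l 3)) (b (b (l 16788040) (a (a (b (l 16787016) (b (l 16786800) (a (b (l 94657070695) (l 97341425303)) (l 16786616)))) (l 16785632)) (l 16786760))) (a (b (b (c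 (l 92509588711) (a (l 97341425799) (a (c (l 96804555303) (b (l 95730812663) (l 97341425239))) (b (l 16786400) (l 95730812551))))) (c (l 96804556295) (c (l 96804555799) (l 98952038407)))) (l 3)) (b (c (b (l 16787192) (a (l 96267685047) (l 75329719143))) (a (b (l 16785952) (a (l 97341425383) (b (a (l 16786232) (l 16786240)) (l 97341425079)))) (a (b (l 16786536) (c (l 81772169399) (b (l 16786424) (l 97878296087)))) (l 16786024)))) (c (l 98415168679) (b (c (l 97341426471) (a (l 3) (b (l 96267683383) (l 98415167063)))) (l 3))))))) (a (b (l 16790200) (b (c (l 16787960) (l 16786216)) (b (a (a (c (l 84456524647) (b (l 16786240) (a (l 97341424903) (a (l 95193941239) (l 16786120))))) (l 16785424)) (l 16786576)) (a (c (l 94657071943) (a (l 97878296295) (b (a (a (l 96267682871) (l 94657070247)) (l 16786104)) (l 97341425047)))) (a (a (a (b (l 16786632) (b (l 16786312) (l 95193940967))) (l 16786456)) (l 16786656)) (l 16786592)))))) (l 16788400))), by decide +kernel⟩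

def k20_pp_012 : ∃ t, chk3 f_pp_012 t 497 491 1 = true :=
  ⟨(a (l 3) (b (a (a (l 3) (b (a (c (l 97341426487) (b (a (l 97878295879) (b (a (l 95730811863) (l 16786000)) (l 98415166519))) (l 3))) (c (b (l 79087815095) (l 96267684215)) (b (b (l 16786320) (a (l 96267682871) (l 16785976))) (c (l 96804554551) (l 97341425015))))) (l 3))) (a (b (b (l 16786504) (a (c (l 87677749671) (a (b (a (l 95193940855) (l 16785928)) (l 97878295415)) (b (l 16786096) (b (l 16785896) (l 96804553383))))) (c (l 16786792) (c (l 16786344) (l 16786056))))) (c (l 97878296967) (b (a (l 98415166791) (b (a (l 96804553511) (b (l 16785888) (l 94120198855))) (l 97878295495))) (l 3)))) (b (l 16786304) (b (a (a (b (l 16786344) (b (l 16786088) (a (l 97341424183) (l 16785744)))) (l 16785768)) (l 16786360)) (b (a (c (l 95730812775) (a (l 98415166135) (a (l 96804553239) (l 95193940567)))) (a (b (l 16786088) (l 16785784)) (l 16786360))) (c (l 96804554919) (a (l 98415166375) (a (l 96804553303) (b (l 16785760) (l 95193940391))))))))))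 (a (l 3) (a (l 3) (b (c (l 98952038807) (b (c (l 96267683719) (a (l 3) (l 97878295479))) (l 3))) (l 3)))))), by decide +kernel⟩

def k21_pp_012 : ∃ t, chk3 f_pp_012 t 249 122 1 = true :=
  ⟨(b (a (a (l 16796608) (l 16804448)) (l 16783392)) (b (a (c (l 16786808) (l 16788304)) (l 16793528)) (a (a (b (b (l 16789272) (a (a (a (b (l 16786256) (l 16785656)) (l 16786176)) (l 16786048)) (l 16788256))) (a (a (b (b (a (c (l 90898974711) (b (a (a (l 96267682183) (a (l 94657069415) (l 16785704))) (l 16785752)) (c (l 96267682887) (l 96804553351)))) (a (b (l 16786272) (a (a (b (l 16785928) (l 95193940199)) (l 16785920)) (l 16785928))) (l 16786240))) (a (l 3) (c (l 96804554743) (b (a (l 97341423943) (b (l 16785640) (l 95730811095))) (l 97878295111))))) (l 3)) (a (b (b (l 16786176) (b (l 16785544) (c (l 89825232503) (a (a (l 96804552903) (a (l 95730810983) (l 94657069271))) (l 16785608))))) (c (l 97878296535) (b (c (l 96804553831) (b (l 97341423991) (l 3))) (l 3)))) (b (l 16784792) (b (c (a (l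 95730812487) (l 82309039527)) (a (b (b (l 16785576) (l 95193940087)) (l 97878294663)) (b (l 16785848) (a (l 96267681799) (b (l 16785528) (l 95730810695)))))) (b (c (l 97341424967) (l 98415165831)) (l 3)))))) (b (l 16785904) (a (b (a (a (b (l 16786096) (l 16785800)) (l 16786064)) (l 16785984)) (a (c (l 93583328855) (b (a (c (l 95730811431) (l 96267681831)) (a (b (l 16785504) (l 95193939703)) (l 16785512))) (c (l 96804553367) (l 97341423815)))) (a (b (l 16786040) (b (l 16785704) (c (l 95193940743) (l 95730810711)))) (l 16785352)))) (l 16785848))))) (c (l 16786328) (l 16787048))) (l 16785952)))), by decide +kernel⟩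

def k22_pp_012 : ∃ t, chk3 f_pp_012 t 248 123 1 = true :=
  ⟨(l 3), by decide +kernel⟩

def k23_pp_012 : ∃ t, chk3 f_pp_012 t 996 492 1 = true :=
  ⟨(b (a (l 3) (b (a (a (l 3) (c (l 97878296135) (b (b (a (l 98415165383) (a (l 96804552519) (b (l 16785416) (l 96267681399)))) (l 98415165655)) (l 3)))) (b (a (b (a (a (b (l 16785688) (l 16785320)) (l 16785704)) (l 16785952)) (c (l 94120199367) (c (l 92509586103) (a (l 96804552535) (b (l 16785288) (l 94657068807)))))) (l 16785240)) (b (a (c (l 96804553735) (c (l 96804553175) (l 97341423623))) (a (c (l 96267682711) (b (a (l 16785336) (l 16785344)) (l 96267681415))) (l 16785296))) (a (l 3) (c (l 95730811815) (a (l 98415165191) (a (l 97341423223) (b (l 16785304) (l 97341423095))))))))) (l 3))) (l 3)), by decide +kernel⟩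

def k24_pp_012 : ∃ t, chk3 f_pp_012 t 1994 492 1 = true :=
  ⟨(b (b (a (a (a (b (l 16785824) (a (b (l 16785872) (b (l 16785560) (c (l 16785792) (l 94657068487)))) (l 16785200))) (l 16785152)) (l 16785720)) (l 16785512)) (b (a (a (c (l 96804553879) (c (b (l 94657069543) (l 97341423863)) (b (a (l 97341423223) (b (l 16785152) (l 95730810327))) (l 97878294343)))) (b (l 16785136) (c (l 87140877079) (a (b (a (l 95193939303) (l 16785224)) (l 97341422999)) (c (l 16785368) (l 16785152)))))) (l 16784352)) (c (a (l 97878295735) (a (b (l 77477200487) (l 96804553495)) (l 16785944))) (b (a (a (l 3) (a (l 98952035911) (c (l 96267681703) (l 96804552167)))) (a (a (a (b (l 16785192) (l 95730810103)) (l 16785200)) (l 16785440)) (l 16785376))) (a (l 3) (a (c (l 96804552983) (a (l 97341422999) (a (l 95730810183) (b (l 16785056) (l 95193939063))))) (l 16785072))))))) (a (l 3) (b (b (b (a (c (l 96804553351) (c (l 97341423671) (l 97878294119))) (c (l 89288360583) (a (a (l 97341422855) (b (l 16785112)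 (l 97341422727))) (a (b (l 16785144) (l 94657068119)) (l 16785176))))) (a (l 3) (a (l 3) (c (l 96267681975) (c (l 96804552375) (l 97341422887)))))) (l 3)) (l 3)))), by decide +kernel⟩

def k25_pp_012 : ∃ t, chk3 f_pp_012 t 1995 492 1 = true :=
  ⟨(a (b (l 16785336) (b (b (a (a (b (l 16785624) (b (l 16785000) (c (l 94657069127) (a (l 96804551719) (l 16785056))))) (l 16784944)) (l 16785528)) (a (c (l 96804553463) (c (b (l 96804552791) (l 97878294391)) (b (a (l 97878293751) (a (l 96267680855) (b (l 16784928) (l 96267680679)))) (l 98415164855)))) (b (a (c (l 16785536) (a (l 16785048) (l 16785240))) (l 16785536)) (c (l 91435844023) (a (c (l 96267681367) (c (l 96267681079) (l 96267680919))) (a (b (l 16785016) (l 95730809735)) (l 16785024))))))) (a (l 3) (c (l 98415166087) (b (c (l 96804552647) (b (c (l 97341423079) (l 97341422839)) (l 3))) (l 3)))))) (b (l 16786448) (b (c (l 16785040) (c (l 16785248) (l 16784296))) (b (b (a (c (l 81772167415) (a (a (b (l 16784968) (l 97341422439)) (b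 (l 16784992) (l 95193938727))) (l 16785152))) (l 16785424)) (a (c (l 96804553095) (c (l 96804552599) (a (l 98415164439) (a (l 97341422439) (b (l 16784808) (l 96804551399)))))) (a (a (b (l 16785192) (c (l 16785400) (c (l 16785032) (l 94120196839)))) (l 16785216)) (l 16785424)))) (a (l 3) (c (l 94657069351) (b (a (c (l 96804552039) (l 97341422503)) (b (l 16784912) (a (l 96804551351) (l 16784792)))) (c (l 96804552263) (c (l 97341422887) (l 97878293559)))))))))), by decide +kernel⟩

def k26_pp_012 : ∃ t, chk3 f_pp_012 t 498 493 1 = true :=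
  ⟨(l 3), by decide +kernel⟩

def k27_pp_012 : ∃ t, chk3 f_pp_012 t 499 492 1 = true :=
  ⟨(a (b (l 16790112) (b (l 16786416) (a (a (a (b (l 16785336) (b (l 16784720) (a (c (l 96267681751) (a (c (l 96267680935) (l 96267680519)) (b (l 16784864) (l 96267680343)))) (c (l 16785352) (c (l 16785032) (l 16784776)))))) (l 16784608)) (l 16785064)) (l 16785512)))) (l 16787848)), by decide +kernel⟩

def k28_pp_012 : ∃ t, chk3 f_pp_012 t 1996 493 1 = true :=
  ⟨(b (a (b (b (b (a (c (l 96804552887) (a (l 98952035159) (b (a (l 96804551239) (a (l 94657067479) (l 16784816))) (l 97878293191)))) (a (a (b (l 16785064) (c (l 16785288) (l 95193938439))) (l 16784744)) (l 16785304))) (c (l 96267681975) (a (l 3) (a (c (l 96804551879) (l 97341422279)) (c (l 91972713719) (b (a (l 16784664) (l 16784720)) (l 95730809431))))))) (c (l 96804552967) (c (l 97878294071) (a (l 3) (b (c (l 97341422711) (l 97878293383)) (l 3)))))) (l 3)) (b (b (a (a (b (l 16785264) (l 16784848)) (l 16785232)) (l 16785152)) (b (a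 (c (c (l 87140876647) (l 85530263415)) (a (a (c (l 96267680759) (l 96804551191)) (b (l 16784744) (l 96804551063))) (a (b (l 16784816) (c (l 16784840) (l 94120196519))) (l 16784896)))) (l 16785200)) (a (a (l 3) (c (l 96267681271) (b (c (l 95730809719) (l 96267680199)) (l 98415163911)))) (a (c (l 89288359511) (b (l 16784744) (a (l 96267680055) (a (l 16784688) (l 16784688))))) (l 16784536))))) (a (l 3) (b (c (l 96804552599) (a (c (l 97341422791) (b (l 97878292983) (l 3))) (c (b (l 94657068071) (l 97878293463)) (b (b (a (l 94657067319) (l 16784576)) (l 96804550967)) (l 98415163879))))) (l 3))))) (l 3)), by decide +kernel⟩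

def k29_pp_012 : ∃ t, chk3 f_pp_012 t 1997 493 1 = true :=
  ⟨(b (b (l 16784536) (b (a (a (b (a (c (l 16785168) (c (l 16784888) (l 16784592))) (l 16785128)) (a (c (l 95730810247) (c (l 97341422679) (a (l 97341421895) (b (l 93583325479) (l 97341421783))))) (a (b (l 16784880) (b (l 16784528) (c (l 16785096) (l 96267679815)))) (l 16784568)))) (l 16784416)) (l 16784896)) (a (b (a (c (l 96804552199) (c (l 96804551687) (c (l 96804551447) (a (l 3) (l 97341421911))))) (a (c (l 91972713879) (b (a (a (l 16784592) (l 16784600)) (l 16784656)) (c (l 95730809479) (c (l 95730809255) (l 95730809063))))) (l 16784416))) (a (l 3) (c (l 96804552295) (c (c (l 96267681111) (l 96804551799)) (a (l 97878292823) (b (a (l 95730808887) (l 16784448)) (l 97341421687))))))) (b (l 16784960) (a (a (a (b (l 16784848) (a (c (l 16785008) (l 94120196087)) (l 16784768))) (l 16784920)) (l 16785016)) (l 16784944)))))) (b (a (l 3) (a (b (b (c (l 90362101191) (a (c (l 96267680407) (c (l 96267680215) (b (l 95730808967)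 (l 97878292567)))) (b (l 16784576) (c (l 96804551303) (a (l 96267679703) (l 16784392)))))) (a (l 3) (c (l 96804551783) (c (l 97341422183) (l 97878292631))))) (l 3)) (b (b (l 16784312) (c (a (l 94657068231) (l 16785008)) (a (a (b (a (l 94657066903) (l 16784488)) (l 97878292407)) (b (l 16784512) (a (l 96267679607) (l 94120195943)))) (c (l 16784776) (l 16784584))))) (b (c (l 96804552103) (a (c (l 97878293079) (l 98415163543)) (a (c (l 96804551047) (l 97341421543)) (b (a (l 93583324999) (l 16784448)) (l 97878292311))))) (l 3))))) (l 3))), by decide +kernel⟩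

def k30_pp_012 : ∃ t, chk3 f_pp_012 t 999 493 1 = true :=
  ⟨(b (l 16785896) (b (a (a (b (l 16784832) (b (a (a (a (b (l 16784704) (b (l 16784336) (c (l 16784896) (l 95730808615)))) (l 16784408)) (l 16784896)) (l 16784832)) (a (c (l 92509584631) (a (c (l 96804551127) (c (l 96804550855) (l 97341421543))) (b (a (l 16784336) (l 16784512)) (a (c (l 96267679959) (l 96804550407)) (a (l 94657066711) (l 16784392)))))) (c (l 16785112) (l 16783944))))) (l 16784616)) (l 16784144)) (a (a (b (a (a (l 3) (b (c (l 96804551575) (c (l 97341421959) (l 97878292439))) (l 3))) (b (b (a (a (c (l 94657067607) (c (l 95193938071) (l 95193937655))) (l 16784280)) (l 16784840)) (c (l 91972713463) (a (c (l 96267679975) (l 96804550439)) (a (b (l 16784368) (l 93583324807)) (l 16784424))))) (a (l 3) (c (l 95730809655) (c (l 97341422055) (a (l 97878292263) (b (l 94657066679) (l 97878292135)))))))) (l 3)) (b (a (a (b (l 16784808) (b (l 16784288) (c (l 96267680503) (a (a (l 96804550231) (l 94657066567)) (l 16784328)))))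 (l 16784120)) (l 16784704)) (a (a (c (l 96804551607) (c (l 96804551127) (b (c (l 97341421591) (l 97341421351)) (l 3)))) (c (l 94657068071) (a (b (b (b (l 16784312) (l 94657066519)) (l 97878292023)) (l 3)) (b (b (l 16784344) (b (l 16784288) (l 96267679239))) (l 98952033975))))) (c (b (l 16784992) (a (l 96804551447) (l 79087811159))) (b (a (c (l 16784632) (l 16784392)) (l 16784472)) (b (a (b (a (l 95193937383) (l 16784280)) (c (l 95730808791) (l 95730808359))) (l 16784480)) (a (c (l 96804550663) (l 97341421159)) (a (b (l 16784256) (l 95193937319)) (l 16784272))))))))) (a (c (l 16784840) (l 16783624)) (l 16784264))))), by decide +kernel⟩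

def k31_pp_012 : ∃ t, chk3 f_pp_012 t 498 247 1 = true :=
  ⟨(l 3), by decide +kernel⟩

def k32_pp_012 : ∃ t, chk3 f_pp_012 t 998 494 1 = true :=
  ⟨(l 3), by decide +kernel⟩

def k33_pp_012 : ∃ t, chk3 f_pp_012 t 1998 988 1 = true :=
  ⟨(a (l 3) (a (l 3) (a (l 3) (b (c (l 97878293655) (b (b (b (a (l 98415162839) (b (l 94120195479) (l 96804550039))) (l 98952033879)) (l 3)) (l 3))) (l 3))))), by decide +kernel⟩

def k34_pp_012 : ∃ t, chk3 f_pp_012 t 1999 988 1 = true :=
  ⟨(b (a (a (c (b (b (a (l 87677745767) (l 16784920)) (l 96267680599)) (l 96804551607)) (a (b (c (b (a (l 95193937991) (l 81772165127)) (l 97341421607)) (b (b (l 16784176) (a (l 96804550039) (a (l 94120195463) (l 16784104)))) (c (l 97341421399) (l 97878292087)))) (l 3)) (b (b (l 16784424) (a (b (b (l 16784200) (l 96267679047)) (l 98415162791)) (b (l 16784208) (b (l 94657066279) (l 97341420855))))) (c (l 97341421863) (b (l 98415162999) (l 3)))))) (b (a (a (b (l 16784640) (b (l 16784600) (b (l 16784408) (c (l 16784616)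 (l 16784008))))) (l 16783976)) (l 16784600)) (b (c (a (l 96804551255) (l 82309036471)) (a (a (c (l 96804550519) (l 97341420983)) (b (b (l 16784160) (l 95193937143)) (l 97878291783))) (b (l 16784320) (a (c (l 95193937591) (l 95730808103)) (l 16784144))))) (c (l 96804551207) (a (l 3) (b (c (l 96804550391) (l 97341420871)) (l 3))))))) (a (b (l 16784512) (b (l 16783912) (c (a (l 90362100151) (l 16784792)) (a (a (c (l 97341421431) (b (a (l 94120195271) (l 16784016)) (l 97341420759))) (b (l 16784192) (b (l 16784104) (l 95730807959)))) (l 16783992))))) (l 16784432))) (a (l 3) (a (b (b (c (l 96804551303) (c (a (l 97341421431) (l 96267679639)) (a (l 98415162807) (b (a (l 96267678871) (a (l 16783976) (l 16783992))) (l 97341420791))))) (l 3)) (l 3)) (b (b (a (a (b (l 16784384) (b (l 16784288) (c (l 16784512) (l 95193936951)))) (l 16783856)) (l 16784496)) (c (a (l 96267679975) (l 84993390839)) (a (b (a (l 97878291591) (c (l 95193937399) (l 95193937015))) (l 98952033511)) (b (l 16783952) (c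 (l 97341421255) (a (l 96267678759) (a (l 93583324231) (l 16783936)))))))) (a (l 3) (c (l 96804551063) (c (l 97341421463) (b (c (l 97341421031) (l 97878291719)) (l 3))))))))), by decide +kernel⟩

def k35_pp_012 : ∃ t, chk3 f_pp_012 t 999 989 1 = true :=
  ⟨(l 3), by decide +kernel⟩

def k36_pp_012 : ∃ t, chk3 f_pp_012 t 499 495 1 = true :=
  ⟨(l 3), by decide +kernel⟩

def k37_pp_012 : ∃ t, chk3 f_pp_012 t 125 122 1 = true :=
  ⟨(a (b (a (c (l 16872568) (l 16799264)) (l 16789600)) (a (a (l 16784280) (l 16788016)) (c (l 16829744) (l 16779504)))) (b (a (l 16789648) (l 16782016)) (a (c (l 16837944) (l 16776072)) (l 16777096)))), by decide +kernel⟩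

def k38_pp_012 : ∃ t, chk3 f_pp_012 t 250 246 1 = true :=
  ⟨(b (a (l 16783904) (l 16782440)) (a (a (a (l 16787024) (l 16788912)) (l 16791184)) (l 16783216))), by decide +kernel⟩

def k39_pp_012 : ∃ t, chk3 f_pp_012 t 1000 988 1 = true :=
  ⟨(a (a (b (l 16784224) (b (a (c (l 16784696) (l 16783864)) (l 16784328)) (b (a (a (c (l 93046454503) (b (a (b (l 16784016) (l 95730807767)) (l 16784040)) (c (l 96267679239) (c (l 96267679031) (l 96267678855))))) (a (b (l 16784448) (b (l 16784232) (c (l 16784424) (l 16783992)))) (l 16784432))) (l 16784384)) (a (c (l 96804551111) (a (c (l 97878292151) (l 98415162631)) (c (l 97341421255) (b (a (l 96804549575) (a (l 94120194983) (l 16783872))) (l 97878291479))))) (a (b (l 16783696) (c (l 93046454295) (a (c (l 94657066343) (c (l 95193937015) (l 95193936839))) (l 16783976)))) (l 16784384)))))) (l 16784704)) (l 16783560)), by decide +kernel⟩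

def k40_pp_012 : ∃ t, chk3 f_pp_012 t 2000 989 1 = true :=
  ⟨(b (a (a (l 3) (b (a (b (c (l 96267679735) (c (l 96804550183) (c (l 96804549927) (b (l 96804549591) (l 3))))) (l 3)) (c (b (l 88214616119) (l 97341421511)) (b (a (c (l 95730808327) (b (b (l 16783856) (l 93583323991)) (l 97341420391))) (b (l 16784080) (b (l 16783928) (l 95193936679)))) (c (l 97341421047) (c (l 97341420839) (l 97878291543)))))) (l 3))) (a (c (b (b (l 16784584) (a (l 95730808855) (l 73719101255))) (l 97341421847)) (b (b (c (l 16784216) (l 16783656)) (b (a (c (l 91972711879) (a (l 95730807639) (l 16783808))) (l 16784096)) (a (c (l 96804549927) (l 97341420423)) (a (a (c (l 94120195239) (l 94120194855)) (l 16783888)) (l 16783976))))) (b (a (l 3) (c (l 97341421111) (a (l 97878291335) (b (a (l 95730807511) (l 93583323943)) (l 98415162119))))) (l 3)))) (b (l 16784256) (a (c (c (l 88751487463) (b (l 82309035879) (l 96804550391))) (c (b (b (l 16784072) (l 94120195415)) (l 96804549991)) (b (b (l 16783944) (a (l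 96267678439) (b (l 16783776) (l 93046452903)))) (c (l 97341420647) (l 97341420439))))) (b (l 16783616) (c (l 90898970471) (a (b (b (l 16783840) (l 95193936487)) (l 98415162039)) (b (l 16783888) (c (l 95193936967) (c (l 95193936775) (l 95193936551))))))))))) (a (l 3) (a (l 3) (a (l 3) (c (l 98952034551) (b (c (l 97341421095) (b (l 98415162263) (l 3))) (l 3))))))), by decide +kernel⟩

def k41_pp_012 : ∃ t, chk3 f_pp_012 t 2001 989 1 = true :=
  ⟨(a (b (a (a (b (l 16784168) (b (l 16784232) (b (l 16784248) (a (c (l 16784240) (l 16783824)) (l 16784240))))) (l 16784152)) (l 16784048)) (a (b (a (b (c (l 96804550471) (c (l 96804549975) (b (a (l 96267678343) (a (l 93583323799) (l 16783704))) (l 97878291159)))) (l 3)) (b (b (l 16783560) (c (l 89825228407) (a (b (c (l 16783888) (l 16783680)) (l 95730807303)) (l 16783816)))) (c (l 96267679383) (b (a (l 98415161943) (c (l 95730807735) (l 95730807351))) (l 99488903863))))) (l 3)) (b (b (l 16784160) (b (a (a (b (l 16783992) (c (l 16784184) (c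 (l 16783856) (l 16783648)))) (l 16784112)) (l 16784160)) (a (c (l 96804550215) (b (a (l 96267678167) (l 16783752)) (c (l 96267678663) (l 96267678279)))) (l 16783504)))) (b (c (c (l 95193938183) (l 94120195991)) (a (c (l 97341420711) (c (l 97341420471) (l 97878291175))) (a (b (b (a (l 94120194455) (l 16783728)) (l 96804549063)) (l 98952032807)) (b (l 16783744) (c (l 96267678551) (l 96267678167)))))) (l 3))))) (b (l 16783824) (b (l 16784008) (a (b (a (a (b (l 16784136) (b (l 16783928) (c (l 16784128) (c (l 16783808) (l 93583323527))))) (l 16783472)) (l 16784096)) (c (a (l 97341421175) (a (l 88751486423) (l 16784136))) (a (a (c (l 97341420487) (l 97878290967)) (b (b (l 16783696) (l 95730807159)) (l 98415161799))) (b (l 16783872) (a (c (l 95193936679) (l 95730807207)) (a (b (l 16783688) (l 16783664)) (l 16783704))))))) (c (l 16784288) (l 16783792)))))), by decide +kernel⟩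

def k42_pp_012 : ∃ t, chk3 f_pp_012 t 1001 494 1 = true :=
  ⟨(a (b (l 16784600) (l 16784800)) (l 16784048)), by decide +kernel⟩

def k43_pp_012 : ∃ t, chk3 f_pp_012 t 1000 495 1 = true :=
  ⟨(b (a (l 3) (a (l 3) (b (b (b (a (a (l 3) (b (c (l 96267679047) (c (l 96804549479) (l 97341419991))) (l 3))) (c (a (c (l 89288357735) (l 87677744567)) (l 16784280)) (a (a (b (a (c (l 94120194759) (l 94120194407)) (l 16783656)) (l 97878290807)) (b (l 16783768) (b (a (l 16783472) (l 16783640)) (l 96267677927)))) (b (l 16783816) (l 16783480))))) (a (l 3) (c (l 96804550327) (b (a (l 98952032743) (a (c (l 95730807447) (l 96267677975)) (b (l 16783648) (c (l 16783712) (l 93046452519))))) (a (l 3) (c (l 96804549383) (l 97341419879))))))) (l 3)) (l 3)))) (l 3)), by decide +kernel⟩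

def k44_pp_012 : ∃ t, chk3 f_pp_012 t 1001 1980 1 = true :=
  ⟨(b (a (b (l 16783792) (a (a (b (l 16783344) (a (c (l 86067131607) (a (b (l 16783608) (a (l 96267677847) (l 16783264))) (l 16783672))) (l 16783992))) (l 16783912)) (l 16783712))) (l 16783200)) (a (a (a (b (c (a (l 97341420983) (a (l 92509582583) (l 79087809719))) (b (a (a (l 98415161623) (a (l 96267677879) (b (l 16783584) (l 95730806903)))) (a (c (l 16783696) (l 16783504)) (l 16783760))) (a (l 99488903495) (c (l 94657065751) (a (l 96804548791) (b (l 16783488) (l 94120194199))))))) (c (l 96804550087) (c (l 97341420519) (c (l 97341420295) (a (l 3) (l 97878290807)))))) (a (b (l 16783472) (c (l 90898969879) (b (a (b (a (l 16783544) (l 16783560)) (l 96267677783)) (l 16783592)) (c (l 96267678327) (c (l 96267678151) (l 96804548855)))))) (a (b (l 16783928) (b (l 16783944) (b (l 16783760) (a (c (l 16783936) (l 93583323143)) (l 16783728))))) (l 16783264)))) (l 16783792)) (l 16783344))), by decide +kernel⟩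

def k45_pp_012 : ∃ t, chk3 f_pp_012 t 1001 1981 1 = true :=
  ⟨(b (a (a (a (l 3) (a (l 3) (b (c (l 96804549879) (c (l 97341420327) (a (l 97341419735) (b (b (l 16783424) (l 94657064967)) (l 97878290471))))) (l 3)))) (b (a (a (b (l 16783584) (c (l 89825227815) (a (a (l 96267677735) (b (l 16783496) (l 95193935815))) (l 16783352)))) (l 16783880)) (l 16783800)) (a (c (a (l 96804549703) (a (l 95730807847) (l 82309034983))) (a (a (l 98952032471) (c (l 96804549143) (c (l 96804548919) (l 96804548759)))) (a (b (b (l 16783504) (c (l 93583323479) (l 93583323143))) (l 97878290423)) (b (l 16783648) (b (c (l 16783560) (l 16783360)) (l 95730806727)))))) (a (a (b (l 16783856) (l 16783368)) (l 16783840)) (l 16783808))))) (l 16783480)) (b (a (a (l 3) (a (a (l 3) (a (l 3) (c (l 97341420407) (l 98952032375)))) (a (c (l 93583324231) (b (a (c (l 95730807143) (l 95730806791)) (a (b (l 16783464) (l 16783264)) (l 16783480))) (c (l 96804549031) (l 97341419559)))) (a (b (l 16783832) (b (l 16783304) (c (l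 94120194663) (c (l 94657065191) (l 94657064791))))) (l 16783488))))) (c (l 16783840) (l 16783320))) (a (a (l 3) (a (l 3) (c (l 96804549943) (a (l 3) (b (a (l 98415161255) (b (a (l 93583322903) (l 16783408)) (l 96267677543))) (l 98952032295)))))) (a (a (a (c (a (l 89288356711) (l 75329712919)) (b (c (l 16783680) (l 16783464)) (a (c (l 95730807015) (l 96267677559)) (b (l 16783424) (a (l 94120193767) (l 16783384)))))) (l 16783112)) (l 16783696)) (l 16783496))))), by decide +kernel⟩

def k46_pp_012 : ∃ t, chk3 f_pp_012 t 2002 991 1 = true :=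
  ⟨(l 3), by decide +kernel⟩

def k47_pp_012 : ∃ t, chk3 f_pp_012 t 4006 991 1 = true :=
  ⟨(b (a (b (c (a (l 97341420855) (a (l 96804549719) (b (l 86067131191) (l 97878291127)))) (a (b (c (l 97341419959) (l 97878290471)) (l 3)) (a (b (b (b (l 16783376) (l 95193935639)) (l 98415161159)) (l 3)) (b (b (l 16783456) (a (l 96804548359) (c (l 94120194199) (l 94120193879)))) (l 98952032199))))) (l 3)) (b (b (a (a (b (l 16783744) (b (l 16783600) (c (l 16783752) (c (l 16783448) (l 16783248))))) (l 16783736)) (l 16783704)) (a (c (l 96267678583) (a (c (l 96804548871) (l 97341419415)) (b (b (l 16783352) (c (l 94120194103) (l 94120193767))) (l 97878290151)))) (b (l 16783384) (c (l 86604001959) (a (b (a (l 16783152) (l 16783328)) (l 96267677367)) (l 16783368)))))) (a (l 3) (b (c (l 97341420391) (a (l 98952032103) (b (c (l 95730806871) (l 95730806519)) (l 3)))) (l 3))))) (l 3)), by decide +kernel⟩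

def k48_pp_012 : ∃ t, chk3 f_pp_012 t 4007 991 1 = true :=
  ⟨(a (b (b (l 16782984) (a (c (b (a (l 92509581991) (l 79087809111)) (l 97341420183)) (a (b (a (b (b (l 16783320) (l 93583322679)) (l 98415160951)) (b (l 16783328) (l 96804548231))) (l 3)) (b (b (l 16783464) (b (l 16783288) (c (l 94657064919) (l 94657064519)))) (l 98952032007)))) (c (b (l 16783880) (c (l 91972711479) (l 90898969239))) (b (l 16783112) (b (a (a (l 96267677271) (b (l 16783272) (l 95730806263))) (c (l 16783384) (l 16783208))) (c (l 96804548679) (l 96804548327))))))) (l 3)) (b (b (l 16783512) (b (l 16783584) (a (a (b (l 16783640) (b (l 16783464) (a (c (l 16783640) (l 94657064391)) (l 16783112)))) (l 16783296)) (l 16783592)))) (b (a (b (c (l 97341420215) (b (a (l 97878289975) (b (a (l 16783232) (l 16783248)) (l 95730806279))) (l 98952031927))) (l 3)) (b (c (a (l 86067130855) (l 71571616167)) (b (l 16783056) (a (a (l 96804548087) (b (l 16783216) (l 96267677063))) (a (b (l 16783240) (l 92509580679)) (l 16783264)))))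 (a (l 3) (c (l 96804548999) (c (l 96804548583) (l 97341419143)))))) (l 3)))), by decide +kernel⟩

def k49_pp_012 : ∃ t, chk3 f_pp_012 t 501 247 1 = true :=
  ⟨(a (b (l 16783648) (b (l 16783728) (a (b (l 16784512) (b (a (a (b (l 16783056) (b (a (a (b (l 16783152) (c (l 94657065127) (c (l 94657064727) (l 94657064407)))) (l 16783176)) (l 16783544)) (a (c (l 97341419975) (a (l 98415160791) (b (a (l 93583322439) (l 16783184)) (l 96267677079)))) (c (l 16783664) (c (l 16783440) (l 16783064)))))) (l 16783456)) (l 16783248)) (b (a (a (c (c (l 95193936919) (l 94657065671)) (a (c (l 97878290471) (l 98415161015)) (a (b (c (l 95730806551) (l 96267677159)) (l 3)) (b (a (b (l 16783176) (l 94120193303)) (l 16783184)) (l 97341418951))))) (b (l 16783008) (a (c (l 82845905175) (a (b (l 16783152) (l 95193935175)) (l 16783272))) (l 16783488)))) (l 16783336)) (a (a (l 3) (c (a (l 97341420007) (b (l 16783568) (l 94120194343))) (a (a (l 98952031735) (b (a (l 96804547911) (b (l 16783128) (l 95730805975)))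 (l 3))) (a (b (b (l 16783240) (a (l 16783112) (l 16783136))) (c (l 96267677367) (l 96804547927))) (b (l 16783272) (b (l 16783136) (a (l 95193935031) (l 16783096)))))))) (a (c (l 16783664) (l 16782896)) (l 16783328)))))) (l 16784008)))) (b (l 16784552) (c (l 16783760) (l 16782248)))), by decide +kernel⟩

def k50_pp_012 : ∃ t, chk3 f_pp_012 t 251 123 1 = true :=
  ⟨(b (b (a (l 16778744) (l 16786192)) (a (l 16780592) (l 16779584))) (a (a (b (l 16781920) (l 16782640)) (b (l 16787944) (l 16783928))) (b (l 16779464) (a (l 16782624) (l 16786576))))), by decide +kernel⟩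

def k51_pp_012 : ∃ t, chk3 f_pp_012 t 63 30 1 = true :=
  ⟨(b (a (b (a (a (l 16798280) (l 16767160)) (b (l 16785152) (a (l 16886984) (l 16852032)))) (a (b (a (l 16875456) (l 16836784)) (a (l 16808656) (l 16806072))) (b (a (l 16828400) (l 16805200)) (a (l 16789744) (l 16779496))))) (a (b (a (l 16763296) (l 16763072)) (b (a (l 16763112) (l 16774256)) (a (l 16777744) (l 16776128)))) (a (b (b (l 16782720) (l 16771160)) (b (l 16772840) (l 16764160))) (b (b (l 16768448) (l 16769952)) (b (l 16761088) (a (l 16773624) (l 16773000))))))) (a (a (a (b (b (l 16785528) (l 16774936)) (b (c (b (l 16820576) (l 16801424)) (b (l 16790184) (l 16781016))) (b (c (l 16784264) (l 16777096)) (c (l 16777880) (l 16775808))))) (b (b (l 16776392) (l 16773336)) (b (a (c (l 16792184) (l 16778448)) (l 16778920)) (c (b (l 16782584) (l 16775688)) (b (l 16774512) (l 16773192)))))) (a (b (b (l 16773008) (l 16771200)) (a (b (l 16777816) (l 16774776)) (b (l 16776744) (l 16773664)))) (b (b (l 16771064) (a (l 16784096)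 (l 16783128))) (a (b (l 16775704) (l 16772592)) (b (l 16774696) (l 6)))))) (b (b (a (a (l 16769248) (a (l 16778456) (l 16777648))) (a (a (l 16776872) (l 16776136)) (a (l 16775432) (l 6)))) (a (c (a (l 16773912) (l 16767128)) (a (l 16763360) (l 16761392))) (l 6))) (a (b (a (a (l 16773720) (l 16772776)) (l 6)) (l 6)) (l 6))))), by decide +kernel⟩

def k52_pp_012 : ∃ t, chk3 f_pp_012 t 124 62 1 = true :=
  ⟨(l 3), by decide +kernel⟩

def k53_pp_012 : ∃ t, chk3 f_pp_012 t 500 248 1 = true :=
  ⟨(l 3), by decide +kernel⟩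

def k54_pp_012 : ∃ t, chk3 f_pp_012 t 2004 992 1 = true :=
  ⟨(b (b (b (a (a (l 3) (a (l 3) (b (c (l 96804548807) (l 98415160727)) (l 3)))) (a (b (a (c (l 84456517831) (a (b (a (l 93046451447) (l 16783104)) (l 96267676903)) (l 16783168))) (l 16783432)) (a (c (l 95730806967) (a (l 98952031511) (a (l 97341418727) (b (l 16783072) (l 96804547703))))) (a (b (l 16783304) (a (c (l 16783456) (l 93583322263)) (l 16783264))) (l 16783432)))) (l 16783368))) (a (l 3) (a (c (l 96804549127) (a (l 3) (b (a (l 97341418775) (b (l 16783064) (c (l 94657064455) (l 94657064103)))) (l 98415160647)))) (a (c (b (l 16783624) (l 86604001367)) (b (l 16783200) (a (a (l 96267676807) (b (l 16783040) (l 95730805799))) (c (l 16783160) (l 16782920))))) (l 16783376))))) (a (l 3) (a (l 3) (c (a (l 97341420055) (b (b (l 76940324871) (l 97341419591)) (l 97341419655))) (b (a (a (l 99488902471) (b (b (l 95193935031) (l 98415160439)) (l 3))) (a (b (b (l 16783056) (a (l 94657063975) (l 16783016))) (l 97878289511)) (b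 (l 16783168) (b (a (l 16782840) (l 16783024)) (l 95730805815))))) (a (l 3) (a (l 3) (l 98952031463)))))))) (l 3)), by decide +kernel⟩

def k55_pp_012 : ∃ t, chk3 f_pp_012 t 2005 992 1 = true :=
  ⟨(a (b (a (b (l 16783272) (a (c (b (l 16783568) (c (l 91972710887) (l 90898968663))) (a (b (l 16782824) (c (l 97878290071) (c (l 97878289911) (b (l 98415160471) (l 3))))) (b (l 16783128) (b (b (l 16783096) (a (l 92509580295) (l 16782992))) (l 97341418599))))) (b (l 16783312) (b (l 16783328) (c (l 79087808439) (a (b (l 16782992) (c (l 94120193399) (l 97878289479))) (l 16783112))))))) (l 16782704)) (b (a (c (l 97878290743) (a (l 3) (b (a (l 98415160503) (b (a (l 95730805799) (b (l 16782960) (l 94657063847))) (l 99488902151))) (l 3)))) (a (b (c (b (l 16783488) (l 90362097591)) (b (a (l 16782856) (l 16783080)) (a (c (l 95730806135) (c (l 95730805927) (l 98415160375))) (b (l 16783000) (a (l 94120192887) (l 16782928)))))) (a (l 3) (b (c (l 96804548295) (l 97341418503)) (l 3)))) (b (l 16782944)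 (b (a (c (l 94120193847) (b (l 16782760) (l 95193934807))) (l 16782880)) (c (l 97341419415) (a (l 98952031159) (a (l 96804547447) (b (l 16782904) (l 95730805559))))))))) (l 3))) (b (l 16782968) (a (a (b (a (b (l 16783232) (b (l 16783256) (b (l 16783184) (c (l 16783272) (c (l 16782984) (l 85530258311)))))) (l 16782896)) (b (c (l 94120193975) (b (a (a (l 97878289255) (l 95730805671)) (b (l 16782920) (c (l 94120193303) (l 96804547447)))) (l 97878289447))) (l 3))) (b (l 16783184) (b (b (l 16782888) (c (c (l 83919646807) (l 82309033655)) (a (b (c (l 16782960) (l 87677741895)) (l 96267676455)) (l 16782984)))) (c (l 97341419431) (c (l 97878289927) (c (l 97878289719) (b (l 98415160311) (l 3)))))))) (b (l 16783088) (b (l 16783160) (c (a (b (l 72108486247) (l 94120193767)) (l 16783376)) (a (a (b (b (l 16782952) (c (l 93583322311) (l 89825225527))) (l 97341418327)) (b (l 16782976) (b (l 16782848) (c (l 94657064023) (l 98415160087))))) (l 16782624)))))))), by decide +kernel⟩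

def k56_pp_012 : ∃ t, chk3 f_pp_012 t 1002 993 1 = true :=
  ⟨(a (l 3) (a (l 3) (a (l 3) (b (b (b (a (c (l 97341419271) (c (l 97341418855) (l 97878289383))) (a (c (l 97341419223) (b (a (l 96267676439) (b (l 16782816) (l 95193934471))) (l 99488901879))) (b (c (l 16783200) (c (l 16782952) (l 16782648))) (c (l 95730806279) (c (l 95730805879) (l 98952031031)))))) (l 3)) (l 3)) (l 3))))), by decide +kernel⟩

def k57_pp_012 : ∃ t, chk3 f_pp_012 t 1003 992 1 = true :=
  ⟨(a (a (b (l 16782648) (l 16782936)) (l 16782472)) (l 16781968)), by decide +kernel⟩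

def k58_pp_012 : ∃ t, chk3 f_pp_012 t 1003 1986 1 = true :=
  ⟨(a (a (b (b (a (a (a (b (l 16783144) (b (l 16782688) (c (l 93583322583) (c (l 96804547655) (l 93583321847))))) (l 16782800)) (l 16783096)) (l 16783008)) (a (a (c (l 96267677431) (a (l 98415160183) (b (b (c (l 16782872) (l 83919645367)) (l 95730805447)) (l 98952030887)))) (c (b (l 16783320) (l 86604000807)) (b (l 16782576) (a (c (l 97878289495) (c (l 97341418391) (l 96267676375))) (a (c (l 85530258455) (l 81772161639)) (l 16782880)))))) (l 16782728))) (b (b (a (a (l 3) (a (l 3) (c (l 96267677079) (l 96804547319)))) (a (a (c (l 89288355271) (b (l 16782776) (c (l 94120192999) (l 96804547207)))) (l 16782752)) (l 16783048))) (a (l 3) (c (a (l 97341419031) (l 16783264)) (a (a (l 98415159959) (a (l 98952030871) (b (l 16782744) (l 94657063431)))) (c (l 16782952) (l 16782592)))))) (a (l 3) (c (a (l 97341419079) (b (l 88214613463) (l 96804547991))) (a (l 98952031063) (a (c (l 97878289527) (l 98952030967)) (b (b (l 16782816)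 (c (l 93583322023) (l 89825225255))) (l 97878288967)))))))) (a (a (b (l 16782936) (b (l 16783008) (b (l 16782704) (a (c (l 91435838807) (b (l 16782704) (l 98952030743))) (l 16782696))))) (l 16782600)) (l 16782816))) (l 16782424)), by decide +kernel⟩

def k59_pp_012 : ∃ t, chk3 f_pp_012 t 1003 1987 1 = true :=
  ⟨(a (a (l 3) (a (b (b (c (a (l 97341419063) (b (l 67276647655) (l 90362097031))) (a (a (l 98415160007) (b (a (l 96267676167) (b (l 16782680) (l 95730805159))) (l 3))) (a (b (a (b (l 16782776) (l 95730805191)) (l 16782808)) (c (l 96267676487) (l 98952030759))) (b (l 16782792) (a (c (l 91972709207) (l 89288354263)) (l 16782688)))))) (a (l 3) (a (l 3) (c (l 96804547895) (l 98415159911))))) (l 3)) (b (b (c (l 16783160) (l 16782408)) (b (a (c (c (l 81772162679) (l 79624678631)) (a (a (l 98952030647) (b (l 16782672) (l 93583321431))) (l 16782768))) (l 16782944)) (a (c (l 97341418839) (c (l 97878289335) (c (l 97878289143) (l 97341418055)))) (a (a (c (l 16782904) (c (l 85530258167)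 (l 82309032311))) (l 16782536)) (l 16782944))))) (a (l 3) (b (c (c (l 94120193751) (l 93046451559)) (b (a (l 97341417959) (b (l 16782632) (l 97878288791))) (l 98415159815))) (l 3)))))) (a (b (l 16782784) (a (b (a (b (c (l 16783128) (l 16782720)) (a (c (l 96267676807) (a (l 98952030631) (b (l 16782600) (l 95193934071)))) (c (l 16782984) (c (l 16782760) (l 16782624))))) (l 16782888)) (b (a (c (l 97341418759) (a (l 99488901431) (l 99488901511))) (a (b (l 16782480) (c (l 96267676711) (c (l 93046450839) (l 89825224983)))) (l 16782888))) (c (l 95193935255) (a (l 3) (a (l 97878288695) (b (l 80698419431) (l 98952030471))))))) (b (l 16782800) (a (c (l 16783072) (c (l 16782768) (l 16782568))) (l 16782816))))) (l 16782552))), by decide +kernel⟩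

def k60_pp_012 : ∃ t, chk3 f_pp_012 t 501 497 1 = true :=
  ⟨(a (l 3) (b (a (l 3) (b (a (b (a (a (l 3) (b (c (l 97341418711) (l 98415159831)) (l 3))) (b (b (a (a (c (l 97341418535) (b (l 92509579511) (l 97341417639))) (a (b (l 16782768) (c (l 16782888) (l 95730804919))) (l 16782496))) (l 16782840)) (a (c (l 97878289575) (c (l 97878289159) (l 98952030615))) (a (b (l 16782560) (c (l 96804547527) (l 94120192231))) (l 16782512)))) (c (l 96804547943) (a (l 3) (a (l 98415159639) (a (l 99488901431) (b (a (l 91435837607) (l 83919644807)) (l 98952030311)))))))) (l 3)) (a (b (b (l 16782776) (a (b (c (l 16783016) (c (l 16782720) (l 16782520))) (a (c (l 97341418423) (c (l 97878288951) (l 96804546759))) (a (c (l 89288354695) (c (l 85530257895) (l 82309032039))) (l 16782560)))) (l 16782456))) (b (b (a (c (l 96804547559) (l 99488901463)) (a (c (l 88751483783) (b (l 16782496) (l 97878288551))) (l 16782456))) (c (l 97341418679) (a (l 3) (a (l 98415159415) (b (l 88751482951) (l 96804546583))))))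 (l 3))) (b (l 16782672) (b (a (a (b (l 16782768) (c (l 16782840) (c (l 16782624) (l 67813517319)))) (l 16782752)) (l 16782712)) (a (a (c (l 97341418503) (l 99488901367)) (b (b (l 16782504) (c (l 96804547303) (l 90362095639))) (c (l 97341418167) (l 97878288455)))) (a (b (l 16782416) (c (l 90898967319) (b (l 81235290103) (l 98952030231)))) (c (l 16782928) (l 16782368)))))))) (a (l 3) (a (l 3) (a (l 3) (b (b (c (l 97341418487) (c (l 97341418103) (c (l 96804546999) (b (l 95730804871) (l 3))))) (l 3)) (l 3))))))) (l 3))), by decide +kernel⟩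

def k61_pp_012 : ∃ t, chk3 f_pp_012 t 250 249 1 = true :=
  ⟨(l 3), by decide +kernel⟩

def k62_pp_012 : ∃ t, chk3 f_pp_012 t 502 496 1 = true :=
  ⟨(a (a (c (l 16782864) (l 16782568)) (l 16782248)) (c (l 16783288) (l 16780752))), by decide +kernel⟩

def k63_pp_012 : ∃ t, chk3 f_pp_012 t 502 994 1 = true :=
  ⟨(a (a (a (b (c (l 16782752) (l 16782288)) (b (a (b (c (a (b (c (l 16782984) (l 65666034359)) (l 89825225527)) (l 16782880)) (a (a (b (b (l 16782528) (l 82845902775)) (l 99488901159)) (b (l 16782504) (b (l 16782440) (l 94120191991)))) (l 16782480))) (a (c (l 97341418327) (c (l 97341417943) (l 98415159575))) (a (c (l 95730805543) (b (b (l 84993386407) (l 96267675543)) (l 99488901031))) (b (c (l 16782776) (l 16782320)) (c (l 97341418151) (l 97341417415)))))) (b (l 16782600) (a (a (b (l 16782664) (b (l 16782296) (c (l 93046450775) (l 86603999095)))) (l 16782320)) (l 16782608)))) (a (l 3) (b (a (c (c (l 93583322279) (l 93046450999)) (a (l 99488901223) (b (b (l 16782280) (l 97878288247))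 (l 98952030071)))) (b (c (l 16782824) (l 16782440)) (a (c (l 96267676247) (c (l 93583321303) (l 91435837303))) (c (l 16782696) (c (l 71034742935) (l 67813517079)))))) (a (l 3) (c (l 97341418311) (c (l 97341417927) (l 98415159399)))))))) (b (l 16782208) (a (b (l 16782488) (b (l 16782240) (b (a (a (b (l 16782360) (c (l 96267676135) (l 90362095447))) (l 16782272)) (l 16782568)) (c (a (l 93046450823) (l 16782768)) (a (a (l 97878288199) (b (l 80698418919) (l 98952030007))) (l 16782224)))))) (l 16782408)))) (c (l 16782152) (l 16782896))) (l 16782176)), by decide +kernel⟩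

def k64_pp_012 : ∃ t, chk3 f_pp_012 t 1004 1990 1 = true :=
  ⟨(a (a (l 3) (b (b (a (a (c (l 97341418151) (l 98415159303)) (b (a (c (l 97341417959) (l 94657062695)) (b (l 16782240) (c (l 89288354215) (l 82845902551)))) (c (l 97878288999) (l 99488901031)))) (b (l 16782200) (a (a (c (l 85530257847) (a (l 89288353495) (l 75329709719))) (l 16782216)) (l 16782520)))) (a (l 3) (a (c (l 95730805383) (a (l 100025771927) (b (b (l 84456515223) (l 96804546183)) (l 3)))) (b (a (a (c (l 16782592) (l 16782128)) (l 16782528)) (l 16782520)) (a (c (l 97878288775) (l 97341417159)) (b (l 16782168) (c (l 92509579575) (l 86603998903)))))))) (a (l 3) (a (l 3) (b (c (l 97878289031) (l 99488901063)) (l 3)))))) (a (a (b (c (l 16782320) (l 16781912)) (b (b (a (a (c (l 88214612295) (a (l 93046449815) (l 79087806055))) (c (l 16782680) (l 16782304))) (l 16782464)) (a (c (l 96804547015) (a (l 98952029799) (c (l 93046450119) (l 91435837031)))) (a (c (l 73719097543) (c (l 70497871751) (l 67276645895))) (l 16782464))))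 (a (l 3) (a (c (l 97341417943) (l 99488900855)) (b (b (l 16782224) (c (l 95730804983) (l 90362095143))) (c (l 96804546775) (l 98415158807))))))) (b (l 16782304) (a (b (l 16782424) (b (l 16782120) (a (c (l 90362095847) (a (l 95730804279) (l 82845902391))) (c (l 16782616) (l 16782256))))) (l 16782384)))) (l 16782144))), by decide +kernel⟩

def k65_pp_012 : ∃ t, chk3 f_pp_012 t 1004 1991 1 = true :=
  ⟨(a (l 3) (a (b (a (l 3) (b (a (c (l 97341417927) (c (l 96804546647) (c (l 96267675559) (l 96267675383)))) (a (b (a (c (l 84456515703) (l 79087805927)) (l 16782176)) (c (l 96804546679) (l 99488900663))) (b (l 16782416) (c (l 84993386663) (a (l 89288353255) (l 75329709495)))))) (a (l 3) (c (l 96804546903) (l 99488900887))))) (l 3)) (a (b (b (c (l 16782272) (c (l 16782264) (l 16782072))) (b (a (a (c (l 93046450311) (c (l 90362095383) (l 88214611399))) (c (l 16782504) (c (l 16782296) (l 16781952)))) (l 16782360)) (a (c (l 97878288615) (l 97878287943)) (a (b (l 16782048) (c (l 91972708423)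 (l 86603998631))) (l 16782360))))) (b (a (l 3) (c (c (l 93046450791) (l 92509579527)) (a (l 99488900695) (b (a (l 92509578679) (l 79087805831)) (l 98952029543))))) (l 3))) (b (l 16782264) (b (a (b (c (l 16782528) (l 16782160)) (a (c (l 95193933847) (c (l 93046449847) (l 90898965863))) (c (l 73182226359) (c (l 69961000519) (l 66739774711))))) (l 16782304)) (a (c (l 97341417751) (l 98952029799)) (b (a (c (l 81772161015) (a (l 85530256711) (l 71571612983))) (l 16781984)) (c (l 92509579367) (a (l 97878287703) (a (l 95730804055) (l 82309031223))))))))))), by decide +kernel⟩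

def k66_pp_012 : ∃ t, chk3 f_pp_012 t 1005 995 1 = true :=
  ⟨(a (b (l 16781664) (a (a (a (b (l 16782160) (b (l 16782248) (a (c (l 16782232) (c (l 16782040) (l 16781856))) (l 16782272)))) (l 16782152)) (l 16782040)) (l 16781800))) (l 16783776)), by decide +kernel⟩

def k67_pp_012 : ∃ t, chk3 f_pp_012 t 503 248 1 = true :=
  ⟨(a (b (l 16781224) (a (l 16782144) (l 16782136))) (b (l 16779928) (a (l 16781480) (l 16783448)))), by decide +kernel⟩

def k68_pp_012 : ∃ t, chk3 f_pp_012 t 1004 498 1 = true :=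
  ⟨(b (a (l 3) (a (l 3) (a (l 3) (a (l 3) (b (b (b (c (l 97341417591) (l 98952029687)) (l 3)) (l 3)) (l 3)))))) (l 3)), by decide +kernel⟩

def k69_pp_012 : ∃ t, chk3 f_pp_012 t 1005 1992 1 = true :=
  ⟨(a (b (a (b (a (b (a (a (c (l 97341417399) (l 94120191287)) (a (c (l 83919644503) (l 78550934823)) (l 16782032))) (l 16782264)) (a (c (l 97878288455) (l 99488900503)) (a (c (l 84456515463) (a (l 88751482119) (l 74792838359))) (l 16782016)))) (l 16782192)) (a (b (a (l 3) (c (l 94120191991) (a (l 98415158535) (a (l 98952029447) (l 85530256615))))) (l 3)) (a (b (a (c (l 16782208) (c (l 16781992) (l 62981678151))) (l 16782232)) (a (c (l 97341417351) (l 96804545799)) (b (l 16782072) (c (l 91435837239) (l 86067127495))))) (l 16781920)))) (l 16782016)) (a (b (a (l 3) (c (a (l 97878288487) (a (l 91435837351) (b (l 16782384) (l 94657062711)))) (a (l 99488900535) (a (b (a (l 91972707495) (l 78014063735)) (l 98952029319)) (b (l 16782024) (l 91435836583)))))) (l 3)) (a (a (a (b (b (l 16782192)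 (c (l 72645355175) (c (l 68887258439) (l 66202903527)))) (c (l 97878288295) (l 99488900343))) (b (l 16782176) (b (c (l 81235289831) (a (l 85530256487) (l 70497870919))) (c (l 97341417127) (l 98415158359))))) (b (l 16782136) (b (l 16781912) (a (c (l 89288353463) (c (l 87140869479) (l 84993385511))) (c (l 16782336) (l 16781816)))))) (l 16781736)))) (l 16782928)), by decide +kernel⟩

def k70_pp_012 : ∃ t, chk3 f_pp_012 t 1005 1993 1 = true :=
  ⟨(a (a (l 3) (b (b (a (a (l 3) (a (l 3) (c (l 97341417271) (l 96267674791)))) (a (a (b (b (l 16781816) (c (l 87140869767) (l 81772160007))) (c (l 96267675303) (l 98952029303))) (b (l 16782128) (c (l 83919644279) (a (l 88751481879) (l 74255967239))))) (c (l 16781960) (l 16781760)))) (a (l 3) (a (c (l 97878288295) (l 99488900359)) (b (a (c (l 91972707959) (a (l 98415158311) (l 84993385447))) (c (l 68887258647) (c (l 65129161879) (l 62444806967)))) (c (l 97878288071) (l 97341416519)))))) (l 3))) (a (a (b (b (l 16782016) (a (a (b (l 16782088)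 (b (l 16781928) (c (l 90362095143) (l 85530256327)))) (l 16781744)) (l 16782032))) (b (a (a (c (l 97878288071) (l 98952029303)) (b (c (l 86067127815) (c (l 83919643847) (l 81772159879))) (l 98952029271))) (b (c (l 16782240) (l 16781720)) (a (c (l 94120191511) (l 90898965463)) (c (l 71571613079) (c (l 68350387239) (l 65666032375)))))) (c (l 97878288215) (c (l 97341417047) (l 97878287639))))) (b (l 16781904) (b (l 16781664) (b (a (a (c (l 80698418631) (a (l 84456514423) (l 69960999767))) (l 16781864)) (l 16781992)) (a (c (l 91972707895) (a (l 97878287223) (c (l 86067127383) (l 84456514327)))) (a (c (l 16782192) (l 16781680)) (l 16782000))))))) (c (l 16781968) (l 16781536)))), by decide +kernel⟩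

def k71_pp_012 : ∃ t, chk3 f_pp_012 t 1005 997 1 = true :=
  ⟨(b (a (l 3) (a (b (b (a (l 3) (a (l 3) (a (c (l 97341417015) (l 95730803655)) (b (c (l 74255967575) (c (l 71034741751) (l 68887257799))) (c (l 97878287799) (l 98952029079)))))) (l 3)) (l 3)) (a (b (b (b (l 16781704) (a (a (c (l 83382773095) (a (l 87677739831) (l 73719096119))) (l 16781768)) (l 16781944))) (a (b (a (l 98415158215) (c (l 90898965863) (l 87677739831))) (l 3)) (b (a (c (l 67813516503) (l 62981677783)) (l 16781944)) (a (c (l 97878287719) (l 95730803527)) (b (l 16781784) (c (l 89825223959) (l 84456514279))))))) (a (l 3) (c (l 97878288055) (l 98952029303)))) (b (c (l 16781736) (l 16781520)) (a (b (a (b (c (l 85530256631) (c (l 82845901751) (l 81235288711))) (l 98415158167)) (b (c (l 16782096) (l 16781752)) (c (l 93583320327) (l 90362094327)))) (l 3)) (a (b (b (l 16781904) (c (l 70497871015) (c (l 67276645143) (l 64592290327)))) (c (l 97878287751) (l 98415158055))) (b (l 16781888) (b (c (l 79624676535) (c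 (l 76940321607) (l 74792837655))) (l 99488899991))))))))) (l 3)), by decide +kernel⟩

def k72_pp_012 : ∃ t, chk3 f_pp_012 t 502 499 1 = true :=
  ⟨(l 3), by decide +kernel⟩

def k73_pp_012 : ∃ t, chk3 f_pp_012 t 503 498 1 = true :=
  ⟨(a (b (a (l 16782424) (l 16783072)) (a (a (b (b (l 16781648) (a (a (b (l 16781848) (a (b (l 16781720) (c (l 88214611127) (c (l 85530256215) (l 83919643159)))) (b (l 16781864) (c (l 16781880) (l 16781584))))) (l 16781816)) (l 16781712))) (a (b (b (a (c (l 96804545927) (l 96267674359)) (a (b (c (l 73719096407) (c (l 70497870567) (l 67813515751))) (c (l 97878287527) (l 98952028823))) (b (l 16781848) (c (l 82309030999) (c (l 79624676119) (l 77477192183)))))) (c (l 97878287863) (l 98952029127))) (l 3)) (a (b (b (c (l 16781672) (l 16781480)) (b (a (c (l 90362094679) (l 87140868695)) (c (l 66739774407) (l 61371064775))) (c (l 97878287543) (l 96267674231)))) (l 3)) (b (b (l 16781768) (a (b (l 16781808) (c (l 76403450871) (c (l 73182225063) (l 71034741143))))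 (l 16781632))) (a (c (l 97878287719) (l 98415158087)) (b (b (c (l 84993385495) (c (l 82309030583) (l 80161546631))) (l 98952028823)) (l 3))))))) (b (l 16781408) (b (l 16781952) (a (b (a (b (c (l 16781784) (l 16781448)) (a (c (l 92509578231) (l 89288352247)) (c (l 69424128935) (c (l 66202903047) (l 63518548279))))) (l 16781736)) (a (c (l 97341416663) (l 98415157847)) (a (b (c (l 79087805351) (c (l 75866579543) (l 73719095607))) (l 98952028855)) (b (l 16781584) (c (l 87140869031) (c (l 84993385047) (l 82845901175))))))) (a (b (l 16781680) (b (l 16781712) (a (c (l 16781744) (l 16781488)) (l 16781720)))) (l 16781640)))))) (c (l 16781984) (c (l 16782256) (l 16782016))))) (b (l 16780768) (c (l 16781728) (l 16781064)))), by decide +kernel⟩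

def k74_pp_012 : ∃ t, chk3 f_pp_012 t 2012 998 1 = true :=
  ⟨(a (l 3) (a (l 3) (b (b (a (b (a (c (l 96267674647) (l 94657061399)) (b (c (l 72645354279) (c (l 69424128471) (l 66739773703))) (l 98952028759))) (l 3)) (b (a (b (l 16781712) (c (l 81235288903) (c (l 78550934007) (l 76940321015)))) (c (l 16781864) (l 16781528))) (b (c (l 91972707271) (c (l 90362094183) (l 89825222951))) (l 3)))) (l 3)) (l 3)))), by decide +kernel⟩

def k75_pp_012 : ∃ t, chk3 f_pp_012 t 2013 998 1 = true :=
  ⟨(a (a (b (b (a (b (l 16781656) (b (a (c (l 65129161431) (l 60834193671)) (l 16781672)) (a (c (l 97341416263) (l 94120190327)) (c (l 75329708791) (c (l 72108482951) (l 69960999079)))))) (c (l 16781800) (l 16781440))) (b (a (c (l 97341416487) (l 98952028599)) (b (a (c (l 83919643399) (c (l 81235288503) (l 79624675511))) (c (l 16781816) (l 16781488))) (c (l 93583319911) (l 91972706663)))) (l 3))) (l 3)) (b (b (l 16781520) (a (a (b (b (l 16781632) (c (l 68350386823) (c (l 65129160999) (l 62444806231))))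 (c (l 97878287207) (l 97341415799))) (b (l 16781616) (b (c (l 78014063271) (c (l 74792837447) (l 72645353575))) (l 98952028615)))) (b (l 16781576) (a (b (l 16781448) (c (l 86067126951) (l 82845900983))) (b (l 16781592) (c (l 16781600) (l 16781352))))))) (a (l 3) (b (b (c (l 96267674471) (l 95193932103)) (l 3)) (l 3))))) (b (c (l 16781568) (l 16781488)) (b (b (a (a (a (b (c (l 71034741303) (c (l 67813515495) (l 65666031607))) (l 98415157623)) (b (l 16781576) (c (l 80161546807) (c (l 77477191927) (l 75866578951))))) (c (l 16781552) (l 16781376))) (l 16781456)) (a (b (a (c (l 97341416087) (l 98415157543)) (a (c (l 88751481415) (l 85530255495)) (c (l 64055419319) (l 59223580711)))) (c (l 97341416263) (l 96804544807))) (a (a (b (l 16781536) (c (l 73719095783) (c (l 71034740903) (l 68887257031)))) (l 16781352)) (l 16781480)))) (a (l 3) (b (a (a (c (l 97878286999) (l 98415157447)) (b (c (l 82845901271) (c (l 80161546423) (l 78550933479))) (l 98415157463))) (b (c (l 16781504) (l 16781344))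 (a (c (l 90898964967) (l 87677739079)) (c (l 66739773815) (c (l 63518548039) (l 60834193239)))))) (c (l 97878287095) (l 97878286615))))))), by decide +kernel⟩

def k76_pp_012 : ∃ t, chk3 f_pp_012 t 1006 999 1 = true :=
  ⟨(l 3), by decide +kernel⟩

def k77_pp_012 : ∃ t, chk3 f_pp_012 t 2014 499 1 = true :=
  ⟨(a (b (b (l 16781048) (b (l 16781264) (a (b (l 16781272) (b (a (a (c (l 76403450263) (c (l 73719095351) (l 71571611527))) (l 16781312)) (l 16781440)) (a (a (l 98415157463) (c (l 84993384855) (l 81772158951))) (a (c (l 16781464) (l 16781224)) (l 16781448))))) (l 16781328)))) (b (a (b (b (a (l 3) (a (c (l 95193932295) (l 93583319063)) (b (c (l 69960999191) (c (l 66739773415) (l 64592289575))) (l 98415157383)))) (l 3)) (l 3)) (b (b (a (a (b (l 16781440) (c (l 79087804727) (c (l 76403449847) (l 74792836887)))) (c (l 16781584) (l 16781256))) (l 16781384)) (a (b (c (l 90898964903) (c (l 89288351847) (l 88214609799))) (l 3)) (a (b (c (l 62444806359) (l 57612967751)) (c (l 95193932071)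 (l 92509577111))) (b (l 16781400) (c (l 72645353671) (c (l 69424127959) (l 67276644055))))))) (a (l 3) (c (l 98415157815) (l 98415157383))))) (l 3))) (b (l 16781528) (a (b (b (c (l 16781328) (l 16781136)) (b (a (b (a (c (l 81772159223) (c (l 79087804343) (l 77477191415))) (c (l 16781536) (l 16781224))) (c (l 92509577559) (l 90362093431))) (a (b (l 16781360) (c (l 65666031799) (l 60834193127))) (l 16781344))) (a (l 3) (a (c (l 97341415767) (l 96267673463)) (b (c (l 75329708183) (c (l 72645353303) (l 70497869463))) (l 97878286327)))))) (l 3)) (b (b (l 16781168) (a (b (l 16781296) (b (l 16781168) (a (c (l 83919642775) (l 80698416919)) (c (l 16781328) (l 16781176))))) (l 16781264))) (b (b (a (c (l 95193932119) (l 94120189783)) (a (b (c (l 68350386263) (c (l 65129160455) (l 62981676615))) (l 97341415335)) (b (l 16781304) (c (l 78014062631) (c (l 75329707815) (l 73182223927)))))) (c (l 98415157639) (l 98415157207))) (l 3)))))), by decide +kernel⟩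

def k78_pp_012 : ∃ t, chk3 f_pp_012 t 2015 499 1 = true :=
  ⟨(b (l 16781696) (a (b (l 16781664) (a (a (b (b (c (l 16781272) (l 16781112)) (b (a (c (l 86603997239) (l 82845900471)) (c (l 60834193415) (l 56002354759))) (c (l 95193931943) (l 93583318743)))) (l 3)) (b (b (l 16781216) (a (b (l 16781264) (c (l 71034740695) (c (l 67813514951) (l 65666031095)))) (l 16781248))) (a (c (l 97878286615) (l 98415157079)) (b (b (c (l 80161546215) (c (l 78014062263) (l 75866578439))) (l 98415157079)) (l 3))))) (b (l 16781144) (a (b (b (c (l 16781232) (l 16781080)) (l 6)) (l 6)) (l 6))))) (b (l 16780688) (b (l 16780912) (l 6))))), by decide +kernel⟩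

def k79_pp_012 : ∃ t, chk3 f_pp_012 t 125 125 1 = true :=
  ⟨(a (l 3) (b (a (l 3) (a (l 3) (a (l 3) (a (l 3) (l 6))))) (l 3))), by decide +kernel⟩

def k80_pp_012 : ∃ t, chk3 f_pp_012 t 62 63 1 = true :=
  ⟨(l 3), by decide +kernel⟩

def k81_pp_012 : ∃ t, chk3 f_pp_012 t 63 31 1 = true :=
  ⟨(b (a (b (a (b (a (a (b (l 16781272) (l 16779856)) (b (l 16780024) (l 16778592))) (a (b (l 16778800) (l 16777360)) (b (l 16782856) (l 16778768)))) (b (a (a (a (l 16780760) (l 16780112)) (a (l 16780120) (l 16779488))) (l 6)) (a (a (b (c (l 16781072) (l 16780352)) (b (l 16781176) (l 6))) (l 6)) (l 6)))) (b (b (a (c (l 16774568) (a (l 16780456) (l 6))) (l 6)) (l 6)) (l 6))) (l 6)) (l 6)) (l 6)), by decide +kernel⟩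

theorem s82_pp_012 : ∃ t, chk3 f_pp_012 t 1007 499 1 = true := ex3_a k77_pp_012 k78_pp_012

theorem s83_pp_012 : ∃ t, chk3 f_pp_012 t 1006 998 1 = true := ex3_a k74_pp_012 k75_pp_012

theorem s84_pp_012 : ∃ t, chk3 f_pp_012 t 1006 499 1 = true := ex3_b s83_pp_012 k76_pp_012

theorem s85_pp_012 : ∃ t, chk3 f_pp_012 t 503 499 1 = true := ex3_a s84_pp_012 s82_pp_012

theorem s86_pp_012 : ∃ t, chk3 f_pp_012 t 503 249 1 = true := ex3_b k73_pp_012 s85_pp_012

theorem s87_pp_012 : ∃ t, chk3 f_pp_012 t 1005 996 1 = true := ex3_b k69_pp_012 k70_pp_012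

theorem s88_pp_012 : ∃ t, chk3 f_pp_012 t 1005 498 1 = true := ex3_b s87_pp_012 k71_pp_012

theorem s89_pp_012 : ∃ t, chk3 f_pp_012 t 502 498 1 = true := ex3_a k68_pp_012 s88_pp_012

theorem s90_pp_012 : ∃ t, chk3 f_pp_012 t 502 249 1 = true := ex3_b s89_pp_012 k72_pp_012

theorem s91_pp_012 : ∃ t, chk3 f_pp_012 t 251 249 1 = true := ex3_a s90_pp_012 s86_pp_012

theorem s92_pp_012 : ∃ t, chk3 f_pp_012 t 1004 995 1 = true := ex3_b k64_pp_012 k65_pp_012

theorem s93_pp_012 : ∃ t, chk3 f_pp_012 t 502 995 1 = true := ex3_a s92_pp_012 k66_pp_012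

theorem s94_pp_012 : ∃ t, chk3 f_pp_012 t 502 497 1 = true := ex3_b k63_pp_012 s93_pp_012

theorem s95_pp_012 : ∃ t, chk3 f_pp_012 t 502 248 1 = true := ex3_b k62_pp_012 s94_pp_012

theorem s96_pp_012 : ∃ t, chk3 f_pp_012 t 251 248 1 = true := ex3_a s95_pp_012 k67_pp_012

theorem s97_pp_012 : ∃ t, chk3 f_pp_012 t 251 124 1 = true := ex3_b s96_pp_012 s91_pp_012

theorem s98_pp_012 : ∃ t, chk3 f_pp_012 t 1003 993 1 = true := ex3_b k58_pp_012 k59_pp_012

theorem s99_pp_012 : ∃ t, chk3 f_pp_012 t 1003 496 1 = true := ex3_b k57_pp_012 s98_pp_012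

theorem s100_pp_012 : ∃ t, chk3 f_pp_012 t 1002 992 1 = true := ex3_a k54_pp_012 k55_pp_012

theorem s101_pp_012 : ∃ t, chk3 f_pp_012 t 1002 496 1 = true := ex3_b s100_pp_012 k56_pp_012

theorem s102_pp_012 : ∃ t, chk3 f_pp_012 t 501 496 1 = true := ex3_a s101_pp_012 s99_pp_012

theorem s103_pp_012 : ∃ t, chk3 f_pp_012 t 501 248 1 = true := ex3_b s102_pp_012 k60_pp_012

theorem s104_pp_012 : ∃ t, chk3 f_pp_012 t 250 248 1 = true := ex3_a k53_pp_012 s103_pp_012

theorem s105_pp_012 : ∃ t, chk3 f_pp_012 t 250 124 1 = true := ex3_b s104_pp_012 k61_pp_012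

theorem s106_pp_012 : ∃ t, chk3 f_pp_012 t 125 124 1 = true := ex3_a s105_pp_012 s97_pp_012

theorem s107_pp_012 : ∃ t, chk3 f_pp_012 t 125 62 1 = true := ex3_b s106_pp_012 k79_pp_012

theorem s108_pp_012 : ∃ t, chk3 f_pp_012 t 62 62 1 = true := ex3_a k52_pp_012 s107_pp_012

theorem s109_pp_012 : ∃ t, chk3 f_pp_012 t 62 31 1 = true := ex3_b s108_pp_012 k80_pp_012

theorem s110_pp_012 : ∃ t, chk3 f_pp_012 t 31 31 1 = true := ex3_a s109_pp_012 k81_pp_012

theorem s111_pp_012 : ∃ t, chk3 f_pp_012 t 2003 991 1 = true := ex3_a k47_pp_012 k48_pp_012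

theorem s112_pp_012 : ∃ t, chk3 f_pp_012 t 1001 991 1 = true := ex3_a k46_pp_012 s111_pp_012

theorem s113_pp_012 : ∃ t, chk3 f_pp_012 t 1001 990 1 = true := ex3_b k44_pp_012 k45_pp_012

theorem s114_pp_012 : ∃ t, chk3 f_pp_012 t 1001 495 1 = true := ex3_b s113_pp_012 s112_pp_012

theorem s115_pp_012 : ∃ t, chk3 f_pp_012 t 500 495 1 = true := ex3_a k43_pp_012 s114_pp_012

theorem s116_pp_012 : ∃ t, chk3 f_pp_012 t 1000 989 1 = true := ex3_a k40_pp_012 k41_pp_012

theorem s117_pp_012 : ∃ t, chk3 f_pp_012 t 1000 494 1 = true := ex3_b k39_pp_012 s116_pp_012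

theorem s118_pp_012 : ∃ t, chk3 f_pp_012 t 500 494 1 = true := ex3_a s117_pp_012 k42_pp_012

theorem s119_pp_012 : ∃ t, chk3 f_pp_012 t 500 247 1 = true := ex3_b s118_pp_012 s115_pp_012

theorem s120_pp_012 : ∃ t, chk3 f_pp_012 t 250 247 1 = true := ex3_a s119_pp_012 k49_pp_012

theorem s121_pp_012 : ∃ t, chk3 f_pp_012 t 250 123 1 = true := ex3_b k38_pp_012 s120_pp_012

theorem s122_pp_012 : ∃ t, chk3 f_pp_012 t 125 123 1 = true := ex3_a s121_pp_012 k50_pp_012

theorem s123_pp_012 : ∃ t, chk3 f_pp_012 t 125 61 1 = true := ex3_b k37_pp_012 s122_pp_012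

theorem s124_pp_012 : ∃ t, chk3 f_pp_012 t 999 988 1 = true := ex3_a k33_pp_012 k34_pp_012

theorem s125_pp_012 : ∃ t, chk3 f_pp_012 t 999 494 1 = true := ex3_b s124_pp_012 k35_pp_012

theorem s126_pp_012 : ∃ t, chk3 f_pp_012 t 499 494 1 = true := ex3_a k32_pp_012 s125_pp_012

theorem s127_pp_012 : ∃ t, chk3 f_pp_012 t 499 247 1 = true := ex3_b s126_pp_012 k36_pp_012

theorem s128_pp_012 : ∃ t, chk3 f_pp_012 t 249 247 1 = true := ex3_a k31_pp_012 s127_pp_012

theorem s129_pp_012 : ∃ t, chk3 f_pp_012 t 998 493 1 = true := ex3_a k28_pp_012 k29_pp_012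

theorem s130_pp_012 : ∃ t, chk3 f_pp_012 t 499 493 1 = true := ex3_a s129_pp_012 k30_pp_012

theorem s131_pp_012 : ∃ t, chk3 f_pp_012 t 499 246 1 = true := ex3_b k27_pp_012 s130_pp_012

theorem s132_pp_012 : ∃ t, chk3 f_pp_012 t 997 492 1 = true := ex3_a k24_pp_012 k25_pp_012

theorem s133_pp_012 : ∃ t, chk3 f_pp_012 t 498 492 1 = true := ex3_a k23_pp_012 s132_pp_012

theorem s134_pp_012 : ∃ t, chk3 f_pp_012 t 498 246 1 = true := ex3_b s133_pp_012 k26_pp_012

theorem s135_pp_012 : ∃ t, chk3 f_pp_012 t 249 246 1 = true := ex3_a s134_pp_012 s131_pp_012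

theorem s136_pp_012 : ∃ t, chk3 f_pp_012 t 249 123 1 = true := ex3_b s135_pp_012 s128_pp_012

theorem s137_pp_012 : ∃ t, chk3 f_pp_012 t 124 123 1 = true := ex3_a k22_pp_012 s136_pp_012

theorem s138_pp_012 : ∃ t, chk3 f_pp_012 t 497 245 1 = true := ex3_b k19_pp_012 k20_pp_012

theorem s139_pp_012 : ∃ t, chk3 f_pp_012 t 248 245 1 = true := ex3_a k18_pp_012 s138_pp_012

theorem s140_pp_012 : ∃ t, chk3 f_pp_012 t 248 244 1 = true := ex3_b k16_pp_012 k17_pp_012

theorem s141_pp_012 : ∃ t, chk3 f_pp_012 t 248 122 1 = true := ex3_b s140_pp_012 s139_pp_012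

theorem s142_pp_012 : ∃ t, chk3 f_pp_012 t 124 122 1 = true := ex3_a s141_pp_012 k21_pp_012

theorem s143_pp_012 : ∃ t, chk3 f_pp_012 t 124 61 1 = true := ex3_b s142_pp_012 s137_pp_012

theorem s144_pp_012 : ∃ t, chk3 f_pp_012 t 62 61 1 = true := ex3_a s143_pp_012 s123_pp_012

theorem s145_pp_012 : ∃ t, chk3 f_pp_012 t 62 30 1 = true := ex3_b k15_pp_012 s144_pp_012

theorem s146_pp_012 : ∃ t, chk3 f_pp_012 t 31 30 1 = true := ex3_a s145_pp_012 k51_pp_012

theorem s147_pp_012 : ∃ t, chk3 f_pp_012 t 31 15 1 = true := ex3_b s146_pp_012 s110_pp_012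

theorem s148_pp_012 : ∃ t, chk3 f_pp_012 t 123 60 1 = true := ex3_a k11_pp_012 k12_pp_012

theorem s149_pp_012 : ∃ t, chk3 f_pp_012 t 61 60 1 = true := ex3_a k10_pp_012 s148_pp_012

theorem s150_pp_012 : ∃ t, chk3 f_pp_012 t 61 30 1 = true := ex3_b s149_pp_012 k13_pp_012

theorem s151_pp_012 : ∃ t, chk3 f_pp_012 t 30 30 1 = true := ex3_a k9_pp_012 s150_pp_012

theorem s152_pp_012 : ∃ t, chk3 f_pp_012 t 30 15 1 = true := ex3_b s151_pp_012 k14_pp_012

theorem s153_pp_012 : ∃ t, chk3 f_pp_012 t 15 15 1 = true := ex3_a s152_pp_012 s147_pp_012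

theorem s154_pp_012 : ∃ t, chk3 f_pp_012 t 30 29 1 = true := ex3_a k6_pp_012 k7_pp_012

theorem s155_pp_012 : ∃ t, chk3 f_pp_012 t 30 14 1 = true := ex3_b k5_pp_012 s154_pp_012

theorem s156_pp_012 : ∃ t, chk3 f_pp_012 t 15 14 1 = true := ex3_a s155_pp_012 k8_pp_012

theorem s157_pp_012 : ∃ t, chk3 f_pp_012 t 15 7 1 = true := ex3_b s156_pp_012 s153_pp_012

theorem s158_pp_012 : ∃ t, chk3 f_pp_012 t 7 7 1 = true := ex3_a k4_pp_012 s157_pp_012

theorem s159_pp_012 : ∃ t, chk3 f_pp_012 t 7 3 1 = true := ex3_b k3_pp_012 s158_pp_012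

theorem s160_pp_012 : ∃ t, chk3 f_pp_012 t 7 1 1 = true := ex3_b k2_pp_012 s159_pp_012

theorem s161_pp_012 : ∃ t, chk3 f_pp_012 t 3 1 1 = true := ex3_a k1_pp_012 s160_pp_012

theorem s162_pp_012 : ∃ t, chk3 f_pp_012 t 1 1 1 = true := ex3_a k0_pp_012 s161_pp_012

theorem c_pp_012 : CertN 0 536870912 0 536870912 33554432 16777216 3 false true true .pnp 0 1 2
    ndN0q0 ndN0q2 pcN1 cut_pp_012 Ext.none :=
  certNK2 (fam := false) (s1 := true) (s2 := true) (a := 0) (b := 1) (c := 2) (cn := .pnp) (n1 := ndN0q0) (n2 := ndN0q2) (pc := pcN1) (cut := cut_pp_012) (xt := Ext.none) (P1 := 0) (W1 := 536870912) (P2 := 0) (W2 := 536870912) (P3 := 33554432) (W3 := 16777216) (N0 := 3)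
    rfl rfl rfl (fun _ => rfl) s162_pp_012

end Pool.Agent.Strip051.G.I1_32_3_64.Tab.C.NB00

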