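import Pool.Agent.Strip051.G.I1_32_3_64.Gn
import Pool.Agent.Strip051.PB.Corns
import Pool.Agent.Strip051.PB.CornK

/-! # Certificates of the aligned corners (generated) -/

set_option linter.all false

namespace Pool.Agent.Strip051.G.I1_32_3_64.Tab.CN

open Pool.Agent.Strip051.PB

def B022L_040_1_2_1 :
    ∃ t, chk3 (onCell 0 33554432 0 1073741824 33554432 16777216 (corTK [] false 3 c0N cB022L gN0q0 gN4q2 gN0q2 gN1q2 true true)) t 1 2 1 = true :=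
  ⟨(T.b (T.l 2) (T.b (T.b (T.l 2) (T.b (T.b (T.l 2) (T.a (T.a (T.l 204) (T.b (T.l 2) (T.a (T.a (T.l 204) (T.l 204)) (T.c (T.l 0) (T.l 0))))) (T.a (T.a (T.l 256) (T.l 2)) (T.l 2)))) (T.b (T.a (T.a (T.l 204) (T.a (T.a (T.l 204) (T.l 204)) (T.a (T.l 204) (T.l 204)))) (T.a (T.a (T.l 256) (T.l 0)) (T.a (T.l 204) (T.l 204)))) (T.a (T.a (T.l 204) (T.a (T.l 204) (T.a (T.l 204) (T.l 204)))) (T.a (T.a (T.l 272) (T.l 0)) (T.a (T.l 204) (T.l 204))))))) (T.b (T.b (T.b (T.a (T.a (T.l 204) (T.a (T.l 204) (T.a (T.l 204) (T.l 204)))) (T.a (T.a (T.l 272) (T.l 0)) (T.a (T.l 204) (T.l 204)))) (T.a (T.a (T.l 204) (T.a (T.l 204) (T.a (T.l 204) (T.l 204)))) (T.a (T.a (T.b (T.l 0) (T.l 0)) (T.l 0)) (T.a (T.l 0) (T.l 204))))) (T.a (T.a (T.l 204) (T.a (T.l 204) (T.a (T.b (T.l 204) (T.l 204)) (T.l 256)))) (T.a (T.a (T.a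 (T.l 0) (T.l 204)) (T.b (T.l 256) (T.l 272))) (T.a (T.b (T.l 0) (T.l 0)) (T.l 272))))) (T.b (T.a (T.a (T.l 204) (T.a (T.l 204) (T.a (T.b (T.l 204) (T.l 204)) (T.b (T.l 204) (T.l 204))))) (T.a (T.a (T.a (T.l 256) (T.l 0)) (T.b (T.l 272) (T.l 272))) (T.a (T.b (T.l 0) (T.l 0)) (T.b (T.l 204) (T.l 0))))) (T.a (T.a (T.l 204) (T.a (T.l 204) (T.a (T.l 204) (T.b (T.l 204) (T.l 0))))) (T.a (T.a (T.a (T.l 272) (T.l 0)) (T.a (T.l 0) (T.l 0))) (T.a (T.b (T.l 0) (T.l 0)) (T.b (T.l 0) (T.l 0))))))))), by decide +kernel⟩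

def B022L_040_1_12_1 :
    ∃ t, chk3 (onCell 0 33554432 0 1073741824 33554432 16777216 (corTK [] false 3 c0N cB022L gN0q0 gN4q2 gN0q2 gN1q2 true true)) t 1 12 1 = true :=
  ⟨(T.b (T.a (T.a (T.l 0) (T.a (T.l 0) (T.a (T.l 0) (T.b (T.b (T.l 0) (T.l 204)) (T.l 0))))) (T.a (T.a (T.b (T.a (T.b (T.l 0) (T.l 0)) (T.l 272)) (T.a (T.b (T.l 0) (T.l 0)) (T.b (T.l 0) (T.l 0)))) (T.b (T.a (T.l 0) (T.l 0)) (T.a (T.b (T.l 0) (T.l 0)) (T.l 272)))) (T.a (T.b (T.b (T.l 272) (T.l 272)) (T.a (T.l 0) (T.l 0))) (T.b (T.b (T.l 0) (T.l 0)) (T.b (T.l 0) (T.l 272)))))) (T.a (T.a (T.b (T.l 0) (T.l 816)) (T.a (T.l 0) (T.b (T.b (T.l 0) (T.l 0)) (T.b (T.l 0) (T.l 0))))) (T.a (T.a (T.b (T.a (T.b (T.l 0) (T.l 0)) (T.b (T.l 0) (T.l 0))) (T.a (T.l 0) (T.b (T.l 0) (T.l 68)))) (T.b (T.a (T.b (T.l 0) (T.l 0)) (T.b (T.l 0) (T.l 0)))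 (T.a (T.b (T.l 0) (T.b (T.l 0) (T.l 816))) (T.b (T.l 0) (T.l 68))))) (T.a (T.b (T.a (T.b (T.l 0) (T.l 0)) (T.b (T.l 0) (T.l 0))) (T.a (T.b (T.l 0) (T.l 0)) (T.b (T.l 0) (T.l 0)))) (T.b (T.a (T.l 340) (T.l 0)) (T.b (T.b (T.l 0) (T.l 0)) (T.b (T.l 68) (T.l 340)))))))), by decide +kernel⟩

def B022L_040_1_52_1 :
    ∃ t, chk3 (onCell 0 33554432 0 1073741824 33554432 16777216 (corTK [] false 3 c0N cB022L gN0q0 gN4q2 gN0q2 gN1q2 true true)) t 1 52 1 = true :=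
  ⟨(T.a (T.a (T.b (T.l 816) (T.a (T.l 816) (T.l 816))) (T.a (T.a (T.l 816) (T.b (T.l 816) (T.b (T.l 816) (T.l 816)))) (T.a (T.b (T.l 816) (T.l 884)) (T.b (T.l 816) (T.l 816))))) (T.a (T.a (T.b (T.b (T.l 816) (T.l 884)) (T.a (T.l 816) (T.l 884))) (T.a (T.b (T.b (T.l 816) (T.l 816)) (T.b (T.l 884) (T.l 816))) (T.b (T.b (T.l 816) (T.l 816)) (T.a (T.l 884) (T.l 884))))) (T.a (T.a (T.b (T.b (T.l 816) (T.l 816)) (T.a (T.l 884) (T.l 884))) (T.b (T.l 68) (T.b (T.l 816) (T.l 884)))) (T.b (T.a (T.l 68) (T.l 0)) (T.a (T.b (T.l 816) (T.l 884)) (T.b (T.l 816) (T.l 816))))))), by decide +kernel⟩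

def B022L_040_1_212_1 :
    ∃ t, chk3 (onCell 0 33554432 0 1073741824 33554432 16777216 (corTK [] false 3 c0N cB022L gN0q0 gN4q2 gN0q2 gN1q2 true true)) t 1 212 1 = true :=
  ⟨(T.b (T.a (T.a (T.l 816) (T.a (T.a (T.l 816) (T.l 816)) (T.a (T.l 816) (T.l 816)))) (T.a (T.a (T.a (T.l 816) (T.l 816)) (T.a (T.l 816) (T.c (T.l 816) (T.l 816)))) (T.a (T.a (T.l 884) (T.l 884)) (T.a (T.l 816) (T.l 816))))) (T.a (T.a (T.a (T.l 816) (T.l 816)) (T.a (T.a (T.l 816) (T.c (T.l 816) (T.l 816))) (T.a (T.l 884) (T.l 816)))) (T.a (T.a (T.a (T.l 816) (T.l 816)) (T.a (T.l 884) (T.c (T.l 884) (T.l 884)))) (T.a (T.a (T.c (T.l 884) (T.l 816)) (T.l 884)) (T.a (T.l 884) (T.l 820)))))), by decide +kernel⟩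

def B022L_040_4_852_2 :
    ∃ t, chk3 (onCell 0 33554432 0 1073741824 33554432 16777216 (corTK [] false 3 c0N cB022L gN0q0 gN4q2 gN0q2 gN1q2 true true)) t 4 852 2 = true :=
  ⟨(T.a (T.l 816) (T.l 816)), by decide +kernel⟩

def B022L_040_4_853_4 :
    ∃ t, chk3 (onCell 0 33554432 0 1073741824 33554432 16777216 (corTK [] false 3 c0N cB022L gN0q0 gN4q2 gN0q2 gN1q2 true true)) t 4 853 4 = true :=
  ⟨(T.b (T.a (T.a (T.c (T.b (T.l 816) (T.c (T.b (T.l 816) (T.a (T.a (T.l 1) (T.c (T.b (T.c (T.b (T.l 816) (T.l 1)) (T.b (T.l 816) (T.l 1))) (T.l 1)) (T.b (T.c (T.b (T.l 816) (T.l 1)) (T.b (T.l 816) (T.l 1))) (T.l 1)))) (T.c (T.b (T.l 816) (T.a (T.l 1) (T.c (T.b (T.l 816) (T.l 1)) (T.b (T.l 816) (T.l 1))))) (T.b (T.l 816) (T.a (T.l 1) (T.c (T.b (T.l 816) (T.l 1)) (T.b (T.l 816) (T.l 1)))))))) (T.b (T.l 816)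 (T.a (T.a (T.l 1) (T.c (T.b (T.c (T.b (T.l 816) (T.l 1)) (T.b (T.l 816) (T.l 1))) (T.l 1)) (T.b (T.c (T.b (T.l 816) (T.l 1)) (T.b (T.l 816) (T.l 1))) (T.l 1)))) (T.c (T.b (T.l 816) (T.a (T.l 1) (T.c (T.b (T.l 816) (T.l 1)) (T.b (T.l 816) (T.l 1))))) (T.b (T.l 816) (T.a (T.l 1) (T.c (T.b (T.l 816) (T.l 1)) (T.b (T.l 816) (T.l 1)))))))))) (T.b (T.l 816) (T.c (T.b (T.l 816) (T.a (T.a (T.l 1) (T.c (T.b (T.c (T.b (T.l 816) (T.l 1)) (T.b (T.l 816) (T.l 1))) (T.l 1)) (T.b (T.c (T.b (T.l 816) (T.l 1)) (T.b (T.l 816) (T.l 1))) (T.l 1)))) (T.c (T.b (T.l 816) (T.a (T.l 1) (T.c (T.b (T.l 816) (T.l 1)) (T.b (T.l 816) (T.l 1))))) (T.b (T.l 816) (T.a (T.l 1) (T.c (T.b (T.l 816) (T.l 1)) (T.a (T.l 1) (T.l 816)))))))) (T.b (T.l 816) (T.a (T.a (T.l 1) (T.c (T.b (T.c (T.b (T.l 816) (T.l 1)) (T.b (T.l 816) (T.l 1)))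 (T.l 1)) (T.b (T.c (T.b (T.l 816) (T.l 1)) (T.b (T.l 816) (T.l 1))) (T.l 1)))) (T.c (T.b (T.l 816) (T.a (T.l 1) (T.a (T.l 1) (T.l 816)))) (T.b (T.l 816) (T.a (T.l 1) (T.a (T.l 1) (T.l 816)))))))))) (T.l 816)) (T.l 816)) (T.a (T.a (T.l 1) (T.c (T.b (T.c (T.b (T.a (T.a (T.l 1) (T.a (T.l 1) (T.a (T.l 1) (T.c (T.b (T.a (T.l 1) (T.l 816)) (T.l 1)) (T.b (T.a (T.l 1) (T.l 816)) (T.l 1)))))) (T.c (T.b (T.l 816) (T.l 1)) (T.b (T.l 816) (T.l 1)))) (T.l 1)) (T.b (T.a (T.a (T.l 1) (T.a (T.l 1) (T.a (T.l 1) (T.c (T.b (T.a (T.l 1) (T.l 816)) (T.l 1)) (T.b (T.l 816) (T.l 1)))))) (T.c (T.b (T.l 816) (T.l 1)) (T.b (T.l 816) (T.l 1)))) (T.l 1))) (T.l 1)) (T.b (T.c (T.b (T.a (T.a (T.l 1) (T.a (T.l 1) (T.a (T.l 1) (T.c (T.b (T.l 816) (T.l 1)) (T.b (T.l 816) (T.l 1)))))) (T.c (T.b (T.l 816) (T.l 1)) (T.b (T.l 816)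 (T.l 1)))) (T.l 1)) (T.b (T.a (T.a (T.l 1) (T.a (T.l 1) (T.a (T.l 1) (T.c (T.b (T.l 816) (T.l 1)) (T.b (T.l 816) (T.l 1)))))) (T.c (T.b (T.l 816) (T.l 1)) (T.b (T.l 816) (T.l 1)))) (T.l 1))) (T.l 1)))) (T.c (T.b (T.a (T.c (T.b (T.l 816) (T.a (T.l 1) (T.c (T.b (T.a (T.c (T.b (T.l 816) (T.l 1)) (T.b (T.l 816) (T.l 1))) (T.l 816)) (T.l 1)) (T.b (T.a (T.c (T.b (T.l 816) (T.l 1)) (T.b (T.l 816) (T.l 1))) (T.l 816)) (T.l 1))))) (T.b (T.l 816) (T.a (T.l 1) (T.c (T.b (T.a (T.c (T.b (T.l 816) (T.l 1)) (T.l 816)) (T.l 816)) (T.l 1)) (T.b (T.l 816) (T.l 1)))))) (T.a (T.a (T.a (T.c (T.b (T.l 816) (T.c (T.b (T.l 816) (T.l 1)) (T.b (T.l 816) (T.l 1)))) (T.b (T.l 816) (T.c (T.b (T.l 816) (T.l 1)) (T.b (T.l 816) (T.l 1))))) (T.l 816)) (T.l 816)) (T.l 816))) (T.a (T.l 1) (T.a (T.l 1) (T.c (T.b (T.c (T.b (T.a (T.a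 (T.l 1) (T.l 816)) (T.l 816)) (T.l 1)) (T.b (T.a (T.a (T.l 1) (T.l 816)) (T.l 816)) (T.l 1))) (T.l 1)) (T.b (T.c (T.b (T.a (T.a (T.l 1) (T.l 816)) (T.l 816)) (T.l 1)) (T.b (T.a (T.a (T.l 1) (T.l 816)) (T.l 816)) (T.l 1))) (T.l 1)))))) (T.b (T.a (T.c (T.b (T.l 816) (T.a (T.l 1) (T.c (T.b (T.l 816) (T.l 1)) (T.b (T.l 816) (T.l 1))))) (T.b (T.l 816) (T.a (T.l 1) (T.c (T.b (T.l 816) (T.l 1)) (T.b (T.l 816) (T.l 1)))))) (T.a (T.a (T.a (T.c (T.b (T.l 816) (T.c (T.b (T.l 816) (T.l 1)) (T.b (T.l 816) (T.l 1)))) (T.c (T.b (T.l 816) (T.b (T.l 816) (T.l 1))) (T.l 816))) (T.l 816)) (T.l 816)) (T.l 816))) (T.a (T.l 1) (T.a (T.l 1) (T.c (T.b (T.c (T.b (T.a (T.a (T.l 1) (T.l 816)) (T.l 816)) (T.l 1)) (T.b (T.a (T.a (T.l 1) (T.l 816)) (T.l 816)) (T.l 1))) (T.l 1)) (T.b (T.c (T.b (T.a (T.a (T.l 1) (T.l 816)) (T.l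 816)) (T.l 1)) (T.b (T.a (T.a (T.l 1) (T.l 816)) (T.l 816)) (T.l 1))) (T.l 1))))))))), by decide +kernel⟩

def B022L_040_4_853_5 :
    ∃ t, chk3 (onCell 0 33554432 0 1073741824 33554432 16777216 (corTK [] false 3 c0N cB022L gN0q0 gN4q2 gN0q2 gN1q2 true true)) t 4 853 5 = true :=
  ⟨(T.b (T.a (T.a (T.c (T.b (T.l 816) (T.c (T.b (T.l 816) (T.a (T.a (T.l 1) (T.c (T.b (T.c (T.b (T.l 816) (T.l 1)) (T.b (T.l 816) (T.l 1))) (T.l 1)) (T.b (T.c (T.b (T.l 816) (T.l 1)) (T.b (T.l 816) (T.l 1))) (T.l 1)))) (T.c (T.b (T.l 816) (T.a (T.l 1) (T.a (T.l 1) (T.l 816)))) (T.b (T.l 816) (T.a (T.l 1) (T.a (T.l 1) (T.l 816))))))) (T.b (T.l 816) (T.a (T.a (T.l 1) (T.c (T.b (T.c (T.b (T.l 816) (T.l 1)) (T.b (T.l 816) (T.l 1))) (T.l 1)) (T.b (T.c (T.b (T.l 816) (T.l 1)) (T.b (T.l 816) (T.l 1))) (T.l 1)))) (T.c (T.b (T.l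 816) (T.a (T.l 1) (T.a (T.l 1) (T.l 816)))) (T.b (T.l 816) (T.a (T.l 1) (T.a (T.l 1) (T.l 816))))))))) (T.b (T.l 816) (T.c (T.b (T.l 816) (T.a (T.a (T.l 1) (T.c (T.b (T.c (T.b (T.l 816) (T.l 1)) (T.b (T.l 816) (T.l 1))) (T.l 1)) (T.b (T.c (T.b (T.l 816) (T.l 1)) (T.b (T.l 816) (T.l 1))) (T.l 1)))) (T.c (T.b (T.l 816) (T.a (T.l 1) (T.a (T.l 1) (T.l 816)))) (T.b (T.l 816) (T.a (T.l 1) (T.a (T.l 1) (T.l 816))))))) (T.b (T.l 816) (T.a (T.a (T.l 1) (T.c (T.b (T.c (T.b (T.l 816) (T.l 1)) (T.b (T.l 816) (T.l 1))) (T.l 1)) (T.b (T.c (T.b (T.l 816) (T.l 1)) (T.b (T.l 816) (T.l 1))) (T.l 1)))) (T.c (T.b (T.l 816) (T.a (T.l 1) (T.a (T.l 1) (T.l 816)))) (T.b (T.l 816) (T.a (T.l 1) (T.a (T.l 1) (T.l 816)))))))))) (T.l 816)) (T.l 816)) (T.a (T.a (T.l 1) (T.c (T.b (T.c (T.b (T.a (T.a (T.l 1) (T.a (T.l 1) (T.a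 (T.l 1) (T.c (T.b (T.l 816) (T.l 1)) (T.b (T.l 816) (T.l 1)))))) (T.c (T.b (T.l 816) (T.l 1)) (T.b (T.l 816) (T.l 1)))) (T.l 1)) (T.b (T.a (T.a (T.l 1) (T.a (T.l 1) (T.c (T.b (T.l 816) (T.l 1)) (T.b (T.l 816) (T.l 1))))) (T.c (T.b (T.l 816) (T.l 1)) (T.b (T.l 816) (T.l 1)))) (T.l 1))) (T.l 1)) (T.b (T.c (T.b (T.a (T.a (T.l 1) (T.a (T.l 1) (T.c (T.b (T.l 816) (T.l 1)) (T.b (T.l 816) (T.l 1))))) (T.c (T.b (T.l 816) (T.l 1)) (T.b (T.l 816) (T.l 1)))) (T.l 1)) (T.b (T.a (T.a (T.l 1) (T.a (T.l 1) (T.c (T.b (T.l 816) (T.l 1)) (T.b (T.l 816) (T.l 1))))) (T.c (T.b (T.l 816) (T.l 1)) (T.b (T.l 816) (T.l 1)))) (T.l 1))) (T.l 1)))) (T.c (T.b (T.a (T.c (T.b (T.l 816) (T.a (T.l 1) (T.c (T.b (T.l 816) (T.l 1)) (T.b (T.l 816) (T.l 1))))) (T.b (T.l 816) (T.a (T.l 1) (T.c (T.b (T.l 816) (T.l 1)) (T.b (T.l 816)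 (T.l 1)))))) (T.a (T.a (T.l 816) (T.l 816)) (T.l 816))) (T.a (T.l 1) (T.a (T.l 1) (T.c (T.b (T.c (T.b (T.a (T.a (T.l 1) (T.l 816)) (T.l 816)) (T.l 1)) (T.b (T.a (T.a (T.l 1) (T.l 816)) (T.l 816)) (T.l 1))) (T.l 1)) (T.b (T.c (T.b (T.a (T.a (T.l 1) (T.l 816)) (T.l 816)) (T.l 1)) (T.b (T.a (T.a (T.l 1) (T.l 816)) (T.l 816)) (T.l 1))) (T.l 1)))))) (T.b (T.a (T.c (T.b (T.l 816) (T.a (T.l 1) (T.c (T.b (T.l 816) (T.l 1)) (T.b (T.l 816) (T.l 1))))) (T.b (T.l 816) (T.a (T.l 1) (T.c (T.b (T.l 816) (T.l 1)) (T.b (T.l 816) (T.l 1)))))) (T.l 816)) (T.a (T.l 1) (T.a (T.l 1) (T.c (T.b (T.c (T.b (T.l 816) (T.l 1)) (T.b (T.l 816) (T.l 1))) (T.l 1)) (T.b (T.c (T.b (T.l 816) (T.l 1)) (T.b (T.l 816) (T.l 1))) (T.l 1))))))))), by decide +kernel⟩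

def B022L_040_4_426_3 :
    ∃ t, chk3 (onCell 0 33554432 0 1073741824 33554432 16777216 (corTK [] false 3 c0N cB022L gN0q0 gN4q2 gN0q2 gN1q2 true true)) t 4 426 3 = true :=
  ⟨(T.b (T.l 816) (T.c (T.b (T.a (T.a (T.c (T.b (T.l 816) (T.c (T.b (T.l 816) (T.a (T.a (T.l 1) (T.c (T.b (T.c (T.b (T.l 816) (T.l 1)) (T.b (T.l 816) (T.l 1))) (T.l 1)) (T.b (T.l 816) (T.l 1)))) (T.c (T.b (T.l 816) (T.a (T.l 1) (T.a (T.l 1) (T.l 816)))) (T.b (T.l 816) (T.a (T.l 1) (T.a (T.l 1) (T.l 816))))))) (T.b (T.l 816) (T.a (T.a (T.l 1) (T.c (T.b (T.l 816) (T.l 1)) (T.b (T.l 816) (T.l 1)))) (T.c (T.b (T.l 816) (T.a (T.l 1) (T.a (T.l 1) (T.l 816)))) (T.b (T.l 816) (T.a (T.l 1) (T.a (T.l 1) (T.l 816))))))))) (T.b (T.l 816) (T.c (T.b (T.l 816) (T.a (T.a (T.l 1) (T.c (T.b (T.l 816) (T.l 1)) (T.b (T.l 816) (T.l 1)))) (T.c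 (T.b (T.l 816) (T.a (T.l 1) (T.a (T.l 1) (T.l 816)))) (T.b (T.l 816) (T.a (T.l 1) (T.a (T.l 1) (T.l 816))))))) (T.b (T.l 816) (T.a (T.a (T.l 1) (T.c (T.b (T.l 816) (T.l 1)) (T.b (T.l 816) (T.l 1)))) (T.c (T.b (T.l 816) (T.a (T.l 1) (T.a (T.l 1) (T.l 816)))) (T.b (T.l 816) (T.a (T.l 1) (T.l 816))))))))) (T.l 816)) (T.l 816)) (T.a (T.a (T.l 1) (T.c (T.b (T.c (T.b (T.a (T.a (T.l 1) (T.a (T.l 1) (T.c (T.b (T.l 816) (T.l 1)) (T.b (T.l 816) (T.l 1))))) (T.c (T.b (T.l 816) (T.l 1)) (T.b (T.l 816) (T.l 1)))) (T.l 1)) (T.b (T.a (T.a (T.l 1) (T.a (T.l 1) (T.c (T.b (T.l 816) (T.l 1)) (T.b (T.l 816) (T.l 1))))) (T.c (T.b (T.l 816) (T.l 1)) (T.b (T.l 816) (T.l 1)))) (T.l 1))) (T.l 1)) (T.b (T.c (T.b (T.a (T.a (T.l 1) (T.a (T.l 1) (T.c (T.b (T.l 816) (T.l 1)) (T.b (T.l 816) (T.l 1))))) (T.c (T.b (T.l 816) (T.l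 1)) (T.b (T.l 816) (T.l 1)))) (T.l 1)) (T.b (T.a (T.a (T.l 1) (T.a (T.l 1) (T.c (T.b (T.l 816) (T.l 1)) (T.b (T.l 816) (T.l 1))))) (T.c (T.b (T.l 816) (T.l 1)) (T.b (T.l 816) (T.l 1)))) (T.l 1))) (T.l 1)))) (T.c (T.b (T.a (T.c (T.b (T.l 816) (T.a (T.l 1) (T.c (T.b (T.l 816) (T.l 1)) (T.b (T.l 816) (T.l 1))))) (T.b (T.l 816) (T.a (T.l 1) (T.c (T.b (T.l 816) (T.l 1)) (T.b (T.l 816) (T.l 1)))))) (T.l 816)) (T.a (T.l 1) (T.a (T.l 1) (T.c (T.b (T.c (T.b (T.l 816) (T.l 1)) (T.b (T.l 816) (T.l 1))) (T.l 1)) (T.b (T.c (T.b (T.l 816) (T.l 1)) (T.b (T.l 816) (T.l 1))) (T.l 1)))))) (T.b (T.a (T.c (T.b (T.l 816) (T.a (T.l 1) (T.c (T.b (T.l 816) (T.l 1)) (T.b (T.l 816) (T.l 1))))) (T.b (T.l 816) (T.a (T.l 1) (T.c (T.b (T.l 816) (T.l 1)) (T.b (T.l 816) (T.l 1)))))) (T.l 816)) (T.a (T.l 1) (T.a (T.l 1) (T.c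 (T.b (T.c (T.b (T.l 816) (T.l 1)) (T.b (T.l 816) (T.l 1))) (T.l 1)) (T.b (T.c (T.b (T.l 816) (T.l 1)) (T.b (T.l 816) (T.l 1))) (T.l 1))))))))) (T.b (T.a (T.a (T.c (T.b (T.l 816) (T.c (T.b (T.l 816) (T.a (T.a (T.l 1) (T.c (T.b (T.l 816) (T.l 1)) (T.b (T.l 816) (T.l 1)))) (T.c (T.b (T.l 816) (T.a (T.l 1) (T.l 816))) (T.b (T.l 816) (T.a (T.l 1) (T.l 816)))))) (T.b (T.l 816) (T.a (T.a (T.l 1) (T.c (T.b (T.l 816) (T.l 1)) (T.b (T.l 816) (T.l 1)))) (T.c (T.b (T.l 816) (T.a (T.l 1) (T.l 816))) (T.b (T.l 816) (T.a (T.l 1) (T.l 816)))))))) (T.b (T.l 816) (T.c (T.b (T.l 816) (T.a (T.a (T.l 1) (T.c (T.b (T.l 816) (T.l 1)) (T.b (T.l 816) (T.l 1)))) (T.c (T.b (T.l 816) (T.a (T.l 1) (T.l 816))) (T.a (T.b (T.l 816) (T.l 1)) (T.l 816))))) (T.b (T.l 816) (T.a (T.a (T.l 1) (T.c (T.b (T.l 816) (T.l 1)) (T.b (T.l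 816) (T.l 1)))) (T.a (T.c (T.b (T.l 816) (T.l 1)) (T.b (T.l 816) (T.l 1))) (T.l 816))))))) (T.l 816)) (T.l 816)) (T.a (T.a (T.l 1) (T.c (T.b (T.c (T.b (T.a (T.a (T.l 1) (T.a (T.l 1) (T.c (T.b (T.l 816) (T.l 1)) (T.b (T.l 816) (T.l 1))))) (T.c (T.b (T.l 816) (T.l 1)) (T.b (T.l 816) (T.l 1)))) (T.l 1)) (T.b (T.a (T.a (T.l 1) (T.a (T.l 1) (T.c (T.b (T.l 816) (T.l 1)) (T.b (T.l 816) (T.l 1))))) (T.c (T.b (T.l 816) (T.l 1)) (T.b (T.l 816) (T.l 1)))) (T.l 1))) (T.l 1)) (T.b (T.c (T.b (T.a (T.a (T.l 1) (T.a (T.l 1) (T.c (T.b (T.l 816) (T.l 1)) (T.b (T.l 816) (T.l 1))))) (T.c (T.b (T.l 816) (T.l 1)) (T.b (T.l 816) (T.l 1)))) (T.l 1)) (T.b (T.a (T.a (T.l 1) (T.c (T.b (T.l 816) (T.l 1)) (T.b (T.l 816) (T.l 1)))) (T.c (T.b (T.l 816) (T.l 1)) (T.b (T.l 816) (T.l 1)))) (T.l 1))) (T.l 1)))) (T.c (T.b (T.a (T.c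 (T.b (T.l 816) (T.a (T.l 1) (T.c (T.b (T.l 816) (T.l 1)) (T.b (T.l 816) (T.l 1))))) (T.b (T.l 816) (T.a (T.l 1) (T.c (T.b (T.l 816) (T.l 1)) (T.b (T.l 816) (T.l 1)))))) (T.l 816)) (T.a (T.l 1) (T.a (T.l 1) (T.c (T.b (T.c (T.b (T.l 816) (T.l 1)) (T.b (T.l 816) (T.l 1))) (T.l 1)) (T.b (T.c (T.b (T.l 816) (T.l 1)) (T.b (T.l 816) (T.l 1))) (T.l 1)))))) (T.b (T.a (T.c (T.b (T.l 816) (T.a (T.l 1) (T.c (T.b (T.l 816) (T.l 1)) (T.b (T.l 816) (T.l 1))))) (T.b (T.l 816) (T.a (T.l 1) (T.c (T.b (T.l 816) (T.l 1)) (T.b (T.l 816) (T.l 1)))))) (T.l 816)) (T.a (T.l 1) (T.a (T.l 1) (T.c (T.b (T.c (T.b (T.l 816) (T.l 1)) (T.b (T.l 816) (T.l 1))) (T.l 1)) (T.b (T.c (T.b (T.l 816) (T.l 1)) (T.b (T.l 816) (T.l 1))) (T.l 1))))))))))), by decide +kernel⟩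

def B022L_040_5_426_1 :
    ∃ t, chk3 (onCell 0 33554432 0 1073741824 33554432 16777216 (corTK [] false 3 c0N cB022L gN0q0 gN4q2 gN0q2 gN1q2 true true)) t 5 426 1 = true :=
  ⟨(T.a (T.a (T.c (T.b (T.l 816) (T.c (T.b (T.l 816) (T.c (T.b (T.l 816) (T.c (T.b (T.a (T.a (T.c (T.b (T.l 816) (T.l 1)) (T.b (T.l 816) (T.l 1))) (T.l 816)) (T.l 816)) (T.a (T.l 1) (T.c (T.b (T.a (T.l 1) (T.l 816)) (T.l 1)) (T.b (T.a (T.l 1) (T.l 816)) (T.l 1))))) (T.b (T.a (T.a (T.c (T.b (T.l 816) (T.l 1)) (T.b (T.l 816) (T.l 1))) (T.l 816)) (T.l 816)) (T.a (T.l 1) (T.c (T.b (T.a (T.l 1) (T.l 816)) (T.l 1)) (T.b (T.a (T.l 1) (T.l 816)) (T.l 1))))))) (T.b (T.l 816) (T.c (T.b (T.a (T.a (T.c (T.b (T.l 816) (T.l 1)) (T.b (T.l 816) (T.l 1))) (T.l 816)) (T.l 816)) (T.a (T.l 1) (T.c (T.b (T.a (T.l 1) (T.l 816)) (T.l 1)) (T.b (T.a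 (T.l 1) (T.l 816)) (T.l 1))))) (T.b (T.a (T.a (T.c (T.b (T.l 816) (T.l 1)) (T.b (T.l 816) (T.l 1))) (T.l 816)) (T.l 816)) (T.a (T.l 1) (T.c (T.b (T.a (T.l 1) (T.l 816)) (T.l 1)) (T.b (T.a (T.l 1) (T.l 816)) (T.l 1))))))))) (T.b (T.l 816) (T.c (T.b (T.l 816) (T.c (T.b (T.a (T.a (T.c (T.b (T.l 816) (T.l 1)) (T.b (T.l 816) (T.l 1))) (T.l 816)) (T.l 816)) (T.a (T.l 1) (T.c (T.b (T.a (T.l 1) (T.l 816)) (T.l 1)) (T.b (T.a (T.l 1) (T.l 816)) (T.l 1))))) (T.b (T.a (T.a (T.c (T.b (T.l 816) (T.l 1)) (T.b (T.l 816) (T.l 1))) (T.l 816)) (T.l 816)) (T.a (T.l 1) (T.c (T.b (T.a (T.l 1) (T.l 816)) (T.l 1)) (T.b (T.a (T.l 1) (T.l 816)) (T.l 1))))))) (T.b (T.l 816) (T.c (T.b (T.a (T.a (T.c (T.b (T.l 816) (T.l 1)) (T.b (T.l 816) (T.l 1))) (T.l 816)) (T.l 816)) (T.a (T.l 1) (T.c (T.b (T.a (T.l 1) (T.l 816)) (T.l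 1)) (T.b (T.a (T.l 1) (T.l 816)) (T.l 1))))) (T.b (T.a (T.a (T.c (T.b (T.l 816) (T.l 1)) (T.b (T.l 816) (T.l 1))) (T.l 816)) (T.l 816)) (T.a (T.l 1) (T.c (T.b (T.a (T.l 1) (T.l 816)) (T.l 1)) (T.b (T.a (T.l 1) (T.l 816)) (T.l 1))))))))))) (T.b (T.l 816) (T.c (T.b (T.l 816) (T.c (T.b (T.l 816) (T.c (T.b (T.a (T.a (T.c (T.b (T.l 816) (T.l 1)) (T.b (T.l 816) (T.l 1))) (T.l 816)) (T.l 816)) (T.a (T.l 1) (T.c (T.b (T.a (T.l 1) (T.l 816)) (T.l 1)) (T.b (T.a (T.l 1) (T.l 816)) (T.l 1))))) (T.b (T.a (T.a (T.a (T.l 816) (T.l 816)) (T.l 816)) (T.l 816)) (T.a (T.l 1) (T.c (T.b (T.a (T.l 1) (T.l 816)) (T.l 1)) (T.b (T.a (T.l 1) (T.l 816)) (T.l 1))))))) (T.b (T.l 816) (T.c (T.b (T.a (T.l 816) (T.l 816)) (T.a (T.l 1) (T.c (T.b (T.a (T.l 1) (T.l 816)) (T.l 1)) (T.b (T.a (T.l 1) (T.l 816)) (T.l 1))))) (T.b (T.l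 816) (T.a (T.l 1) (T.c (T.b (T.a (T.l 1) (T.l 816)) (T.l 1)) (T.b (T.a (T.l 1) (T.l 816)) (T.l 1))))))))) (T.b (T.l 816) (T.c (T.b (T.l 816) (T.c (T.b (T.l 816) (T.a (T.l 1) (T.c (T.b (T.a (T.l 1) (T.l 816)) (T.l 1)) (T.b (T.a (T.l 1) (T.l 816)) (T.l 1))))) (T.b (T.l 816) (T.a (T.l 1) (T.c (T.b (T.a (T.l 1) (T.l 816)) (T.l 1)) (T.b (T.l 816) (T.l 1))))))) (T.b (T.l 816) (T.c (T.b (T.l 816) (T.a (T.l 1) (T.c (T.b (T.l 816) (T.l 1)) (T.b (T.l 816) (T.l 1))))) (T.b (T.l 816) (T.a (T.l 1) (T.c (T.b (T.l 816) (T.l 1)) (T.b (T.l 816) (T.l 1)))))))))))) (T.a (T.c (T.b (T.l 816) (T.c (T.b (T.l 816) (T.a (T.c (T.b (T.l 816) (T.c (T.b (T.l 816) (T.c (T.b (T.l 816) (T.l 1)) (T.b (T.l 816) (T.l 1)))) (T.b (T.l 816) (T.c (T.b (T.l 816) (T.l 1)) (T.b (T.l 816) (T.l 1)))))) (T.b (T.l 816) (T.c (T.b (T.l 816)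 (T.c (T.b (T.l 816) (T.l 1)) (T.b (T.l 816) (T.l 1)))) (T.b (T.l 816) (T.c (T.b (T.l 816) (T.l 1)) (T.b (T.l 816) (T.l 1))))))) (T.l 816))) (T.b (T.l 816) (T.a (T.c (T.b (T.l 816) (T.a (T.c (T.b (T.l 816) (T.c (T.b (T.l 816) (T.l 1)) (T.b (T.l 816) (T.l 1)))) (T.b (T.l 816) (T.c (T.b (T.l 816) (T.l 1)) (T.b (T.l 816) (T.l 1))))) (T.l 816))) (T.b (T.l 816) (T.a (T.c (T.b (T.l 816) (T.c (T.b (T.l 816) (T.l 1)) (T.b (T.l 816) (T.l 1)))) (T.b (T.l 816) (T.c (T.b (T.l 816) (T.l 1)) (T.b (T.l 816) (T.l 1))))) (T.l 816)))) (T.l 816))))) (T.b (T.l 816) (T.c (T.b (T.l 816) (T.a (T.c (T.b (T.l 816) (T.a (T.c (T.b (T.l 816) (T.c (T.b (T.l 816) (T.l 1)) (T.b (T.l 816) (T.l 1)))) (T.b (T.l 816) (T.c (T.b (T.l 816) (T.l 1)) (T.b (T.l 816) (T.l 1))))) (T.l 816))) (T.b (T.l 816) (T.a (T.c (T.b (T.l 816) (T.c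 (T.b (T.l 816) (T.l 1)) (T.b (T.l 816) (T.l 1)))) (T.b (T.l 816) (T.c (T.b (T.l 816) (T.l 1)) (T.b (T.l 816) (T.l 1))))) (T.l 816)))) (T.l 816))) (T.b (T.l 816) (T.a (T.c (T.b (T.l 816) (T.a (T.c (T.b (T.l 816) (T.c (T.b (T.l 816) (T.l 1)) (T.b (T.l 816) (T.l 1)))) (T.b (T.l 816) (T.c (T.b (T.l 816) (T.l 1)) (T.b (T.l 816) (T.l 1))))) (T.l 816))) (T.b (T.l 816) (T.a (T.c (T.b (T.l 816) (T.c (T.b (T.l 816) (T.l 1)) (T.b (T.l 816) (T.l 1)))) (T.b (T.l 816) (T.c (T.b (T.l 816) (T.l 1)) (T.b (T.l 816) (T.l 1))))) (T.l 816)))) (T.l 816)))))) (T.a (T.l 816) (T.l 816)))) (T.a (T.a (T.l 816) (T.l 816)) (T.c (T.l 816) (T.l 816)))), by decide +kernel⟩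

def B022L_040_3_426_1 :
    ∃ t, chk3 (onCell 0 33554432 0 1073741824 33554432 16777216 (corTK [] false 3 c0N cB022L gN0q0 gN4q2 gN0q2 gN1q2 true true)) t 3 426 1 = true :=
  ⟨(T.a (T.a (T.a (T.c (T.l 816) (T.l 816)) (T.l 816)) (T.a (T.c (T.l 884) (T.l 884)) (T.a (T.l 816) (T.l 884)))) (T.a (T.a (T.a (T.l 884) (T.l 816)) (T.c (T.l 884) (T.l 884))) (T.a (T.c (T.l 884) (T.l 816)) (T.l 884)))), by decide +kernel⟩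

def B022L_040_2_427_1 :
    ∃ t, chk3 (onCell 0 33554432 0 1073741824 33554432 16777216 (corTK [] false 3 c0N cB022L gN0q0 gN4q2 gN0q2 gN1q2 true true)) t 2 427 1 = true :=
  ⟨(T.a (T.l 1) (T.c (T.b (T.c (T.b (T.a (T.a (T.l 1) (T.a (T.l 1) (T.a (T.l 1) (T.a (T.l 1) (T.c (T.b (T.a (T.l 1) (T.c (T.b (T.c (T.b (T.l 816) (T.l 1)) (T.b (T.l 816) (T.l 1))) (T.l 1)) (T.b (T.c (T.b (T.l 816) (T.l 1)) (T.b (T.l 816) (T.l 1))) (T.l 1)))) (T.l 1)) (T.b (T.a (T.l 1) (T.c (T.b (T.c (T.b (T.l 816) (T.l 1)) (T.b (T.l 816) (T.l 1))) (T.l 1)) (T.b (T.c (T.b (T.l 816) (T.l 1)) (T.b (T.l 816) (T.l 1))) (T.l 1)))) (T.l 1))))))) (T.c (T.b (T.a (T.c (T.b (T.a (T.c (T.b (T.l 816) (T.l 1)) (T.b (T.l 816) (T.l 1))) (T.l 816)) (T.l 1)) (T.b (T.a (T.c (T.b (T.l 816) (T.l 1)) (T.b (T.l 816) (T.l 1))) (T.l 816)) (T.l 1)))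 (T.a (T.c (T.b (T.l 816) (T.c (T.b (T.l 816) (T.l 1)) (T.b (T.l 816) (T.l 1)))) (T.b (T.l 816) (T.c (T.b (T.l 816) (T.l 1)) (T.b (T.l 816) (T.l 1))))) (T.l 816))) (T.l 1)) (T.b (T.a (T.c (T.b (T.a (T.c (T.b (T.l 816) (T.l 1)) (T.b (T.l 816) (T.l 1))) (T.l 816)) (T.l 1)) (T.b (T.a (T.c (T.b (T.l 816) (T.l 1)) (T.b (T.l 816) (T.l 1))) (T.l 816)) (T.l 1))) (T.a (T.c (T.b (T.l 816) (T.c (T.b (T.l 816) (T.l 1)) (T.b (T.l 816) (T.l 1)))) (T.b (T.l 816) (T.c (T.b (T.l 816) (T.l 1)) (T.b (T.l 816) (T.l 1))))) (T.l 816))) (T.l 1)))) (T.l 1)) (T.b (T.a (T.a (T.l 1) (T.a (T.l 1) (T.a (T.l 1) (T.a (T.l 1) (T.c (T.b (T.a (T.l 1) (T.c (T.b (T.c (T.b (T.l 816) (T.l 1)) (T.b (T.l 816) (T.l 1))) (T.l 1)) (T.b (T.c (T.b (T.l 816) (T.l 1)) (T.b (T.l 816) (T.l 1))) (T.l 1)))) (T.l 1)) (T.b (T.a (T.l 1) (T.c (T.b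 (T.c (T.b (T.l 816) (T.l 1)) (T.b (T.l 816) (T.l 1))) (T.l 1)) (T.b (T.c (T.b (T.l 816) (T.l 1)) (T.b (T.l 816) (T.l 1))) (T.l 1)))) (T.l 1))))))) (T.c (T.b (T.a (T.c (T.b (T.a (T.c (T.b (T.l 816) (T.l 1)) (T.b (T.l 816) (T.l 1))) (T.l 816)) (T.l 1)) (T.b (T.a (T.c (T.b (T.l 816) (T.l 1)) (T.b (T.l 816) (T.l 1))) (T.l 816)) (T.l 1))) (T.a (T.c (T.b (T.l 816) (T.c (T.b (T.l 816) (T.l 1)) (T.b (T.l 816) (T.l 1)))) (T.b (T.l 816) (T.c (T.b (T.l 816) (T.l 1)) (T.b (T.l 816) (T.l 1))))) (T.l 816))) (T.l 1)) (T.b (T.a (T.c (T.b (T.a (T.c (T.b (T.l 816) (T.l 1)) (T.b (T.l 816) (T.l 1))) (T.l 816)) (T.l 1)) (T.b (T.a (T.c (T.b (T.l 816) (T.l 1)) (T.b (T.l 816) (T.l 1))) (T.l 816)) (T.l 1))) (T.a (T.c (T.b (T.l 816) (T.c (T.b (T.l 816) (T.l 1)) (T.b (T.l 816) (T.l 1)))) (T.a (T.b (T.l 816) (T.c (T.b (T.l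 816) (T.l 1)) (T.b (T.l 816) (T.l 1)))) (T.l 816))) (T.l 816))) (T.l 1)))) (T.l 1))) (T.l 1)) (T.b (T.c (T.b (T.a (T.a (T.l 1) (T.a (T.l 1) (T.a (T.l 1) (T.a (T.l 1) (T.c (T.b (T.a (T.l 1) (T.c (T.b (T.c (T.b (T.l 816) (T.l 1)) (T.b (T.l 816) (T.l 1))) (T.l 1)) (T.b (T.c (T.b (T.l 816) (T.l 1)) (T.b (T.l 816) (T.l 1))) (T.l 1)))) (T.l 1)) (T.b (T.a (T.l 1) (T.c (T.b (T.c (T.b (T.l 816) (T.l 1)) (T.b (T.l 816) (T.l 1))) (T.l 1)) (T.b (T.c (T.b (T.l 816) (T.l 1)) (T.b (T.l 816) (T.l 1))) (T.l 1)))) (T.l 1))))))) (T.c (T.b (T.a (T.c (T.b (T.a (T.c (T.b (T.l 816) (T.l 1)) (T.b (T.l 816) (T.l 1))) (T.l 816)) (T.l 1)) (T.b (T.a (T.c (T.b (T.l 816) (T.l 1)) (T.b (T.l 816) (T.l 1))) (T.l 816)) (T.l 1))) (T.a (T.a (T.c (T.b (T.l 816) (T.c (T.b (T.l 816) (T.l 1)) (T.b (T.l 816) (T.l 1)))) (T.b (T.l 816)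 (T.c (T.b (T.l 816) (T.l 1)) (T.b (T.l 816) (T.l 1))))) (T.l 816)) (T.l 816))) (T.l 1)) (T.b (T.a (T.c (T.b (T.a (T.c (T.b (T.l 816) (T.l 1)) (T.b (T.l 816) (T.l 1))) (T.l 816)) (T.l 1)) (T.b (T.a (T.c (T.b (T.l 816) (T.l 1)) (T.b (T.l 816) (T.l 1))) (T.l 816)) (T.l 1))) (T.a (T.a (T.c (T.b (T.l 816) (T.c (T.b (T.l 816) (T.l 1)) (T.b (T.l 816) (T.l 1)))) (T.b (T.l 816) (T.c (T.b (T.l 816) (T.l 1)) (T.b (T.l 816) (T.l 1))))) (T.l 816)) (T.l 816))) (T.l 1)))) (T.l 1)) (T.b (T.a (T.a (T.l 1) (T.a (T.l 1) (T.a (T.l 1) (T.a (T.l 1) (T.c (T.b (T.a (T.l 1) (T.c (T.b (T.c (T.b (T.l 816) (T.l 1)) (T.b (T.l 816) (T.l 1))) (T.l 1)) (T.b (T.c (T.b (T.l 816) (T.l 1)) (T.b (T.l 816) (T.l 1))) (T.l 1)))) (T.l 1)) (T.b (T.a (T.l 1) (T.c (T.b (T.c (T.b (T.l 816) (T.l 1)) (T.b (T.l 816) (T.l 1))) (T.l 1)) (T.b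 (T.c (T.b (T.l 816) (T.l 1)) (T.b (T.l 816) (T.l 1))) (T.l 1)))) (T.l 1))))))) (T.c (T.b (T.a (T.c (T.b (T.a (T.c (T.b (T.l 816) (T.l 1)) (T.b (T.l 816) (T.l 1))) (T.l 816)) (T.l 1)) (T.b (T.a (T.c (T.b (T.l 816) (T.l 1)) (T.b (T.l 816) (T.l 1))) (T.l 816)) (T.l 1))) (T.a (T.a (T.c (T.b (T.l 816) (T.c (T.b (T.l 816) (T.l 1)) (T.b (T.l 816) (T.l 1)))) (T.b (T.l 816) (T.c (T.b (T.l 816) (T.l 1)) (T.b (T.l 816) (T.l 1))))) (T.l 816)) (T.l 816))) (T.l 1)) (T.b (T.a (T.c (T.b (T.a (T.c (T.b (T.l 816) (T.l 1)) (T.b (T.l 816) (T.l 1))) (T.l 816)) (T.l 1)) (T.b (T.a (T.c (T.b (T.l 816) (T.l 1)) (T.b (T.l 816) (T.l 1))) (T.l 816)) (T.l 1))) (T.a (T.a (T.c (T.b (T.l 816) (T.c (T.b (T.l 816) (T.l 1)) (T.b (T.l 816) (T.l 1)))) (T.b (T.l 816) (T.c (T.b (T.l 816) (T.l 1)) (T.b (T.l 816) (T.l 1))))) (T.l 816))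 (T.l 816))) (T.l 1)))) (T.l 1))) (T.l 1)))), by decide +kernel⟩

def B022L_040_3_427_2 :
    ∃ t, chk3 (onCell 0 33554432 0 1073741824 33554432 16777216 (corTK [] false 3 c0N cB022L gN0q0 gN4q2 gN0q2 gN1q2 true true)) t 3 427 2 = true :=
  ⟨(T.b (T.a (T.c (T.a (T.b (T.a (T.c (T.b (T.l 816) (T.c (T.b (T.a (T.c (T.b (T.l 816) (T.l 1)) (T.b (T.l 816) (T.l 1))) (T.l 816)) (T.l 1)) (T.b (T.a (T.c (T.b (T.l 816) (T.l 1)) (T.b (T.l 816) (T.l 1))) (T.l 816)) (T.l 1)))) (T.b (T.l 816) (T.c (T.b (T.a (T.c (T.b (T.l 816) (T.l 1)) (T.b (T.l 816) (T.l 1))) (T.l 816)) (T.l 1)) (T.b (T.a (T.c (T.b (T.l 816) (T.l 1)) (T.b (T.l 816) (T.l 1))) (T.l 816)) (T.l 1))))) (T.a (T.c (T.b (T.l 816) (T.c (T.b (T.l 816) (T.c (T.b (T.l 816) (T.l 1)) (T.b (T.l 816) (T.l 1)))) (T.b (T.l 816) (T.c (T.b (T.l 816) (T.l 1)) (T.b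 (T.l 816) (T.l 1)))))) (T.b (T.l 816) (T.c (T.b (T.l 816) (T.c (T.b (T.l 816) (T.l 1)) (T.b (T.l 816) (T.l 1)))) (T.b (T.l 816) (T.c (T.b (T.l 816) (T.l 1)) (T.b (T.l 816) (T.l 1))))))) (T.l 816))) (T.l 1)) (T.b (T.a (T.l 816) (T.a (T.l 816) (T.l 816))) (T.c (T.b (T.a (T.c (T.b (T.a (T.c (T.b (T.a (T.l 1) (T.l 816)) (T.l 1)) (T.b (T.a (T.l 1) (T.l 816)) (T.l 1))) (T.a (T.l 816) (T.l 816))) (T.l 1)) (T.b (T.a (T.c (T.b (T.a (T.l 1) (T.l 816)) (T.l 1)) (T.b (T.a (T.l 1) (T.l 816)) (T.l 1))) (T.a (T.l 816) (T.l 816))) (T.l 1))) (T.a (T.c (T.b (T.l 816) (T.l 1)) (T.b (T.l 816) (T.l 1))) (T.a (T.a (T.a (T.c (T.b (T.l 816) (T.a (T.l 1) (T.l 816))) (T.b (T.l 816) (T.a (T.l 1) (T.l 816)))) (T.l 816)) (T.l 816)) (T.l 816)))) (T.l 1)) (T.b (T.a (T.c (T.b (T.a (T.c (T.b (T.a (T.l 1) (T.l 816)) (T.l 1)) (T.b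 (T.a (T.l 1) (T.l 816)) (T.l 1))) (T.a (T.l 816) (T.l 816))) (T.l 1)) (T.b (T.a (T.c (T.b (T.l 816) (T.l 1)) (T.b (T.l 816) (T.l 1))) (T.a (T.l 816) (T.l 816))) (T.l 1))) (T.a (T.c (T.b (T.l 816) (T.l 1)) (T.b (T.l 816) (T.l 1))) (T.a (T.a (T.a (T.c (T.b (T.l 816) (T.a (T.l 1) (T.l 816))) (T.c (T.c (T.b (T.l 816) (T.a (T.l 1) (T.l 816))) (T.l 816)) (T.l 816))) (T.l 816)) (T.l 816)) (T.l 816)))) (T.l 1))))) (T.a (T.b (T.a (T.c (T.b (T.l 816) (T.c (T.b (T.a (T.c (T.b (T.l 816) (T.l 1)) (T.b (T.l 816) (T.l 1))) (T.l 816)) (T.l 1)) (T.b (T.a (T.c (T.b (T.l 816) (T.l 1)) (T.b (T.l 816) (T.l 1))) (T.l 816)) (T.l 1)))) (T.b (T.l 816) (T.c (T.b (T.a (T.c (T.b (T.l 816) (T.l 1)) (T.b (T.l 816) (T.l 1))) (T.l 816)) (T.l 1)) (T.b (T.a (T.c (T.b (T.l 816) (T.l 1)) (T.b (T.l 816) (T.l 1))) (T.l 816)) (T.l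 1))))) (T.a (T.c (T.b (T.l 816) (T.c (T.b (T.l 816) (T.c (T.b (T.l 816) (T.l 1)) (T.b (T.l 816) (T.l 1)))) (T.b (T.l 816) (T.c (T.b (T.l 816) (T.l 1)) (T.b (T.l 816) (T.l 1)))))) (T.b (T.l 816) (T.c (T.b (T.l 816) (T.c (T.b (T.l 816) (T.l 1)) (T.b (T.l 816) (T.l 1)))) (T.b (T.l 816) (T.c (T.b (T.l 816) (T.l 1)) (T.b (T.l 816) (T.l 1))))))) (T.l 816))) (T.l 1)) (T.b (T.a (T.l 816) (T.a (T.l 816) (T.l 816))) (T.c (T.b (T.a (T.c (T.b (T.a (T.c (T.b (T.l 816) (T.l 1)) (T.b (T.l 816) (T.l 1))) (T.a (T.l 816) (T.l 816))) (T.l 1)) (T.b (T.a (T.c (T.b (T.l 816) (T.l 1)) (T.b (T.l 816) (T.l 1))) (T.a (T.l 816) (T.l 816))) (T.l 1))) (T.a (T.c (T.b (T.l 816) (T.l 1)) (T.b (T.l 816) (T.l 1))) (T.a (T.a (T.a (T.c (T.l 816) (T.l 816)) (T.l 816)) (T.l 816)) (T.l 816)))) (T.l 1)) (T.b (T.a (T.c (T.b (T.a (T.c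 (T.b (T.l 816) (T.l 1)) (T.b (T.l 816) (T.l 1))) (T.a (T.l 816) (T.l 816))) (T.l 1)) (T.b (T.a (T.c (T.b (T.l 816) (T.l 1)) (T.b (T.l 816) (T.l 1))) (T.a (T.l 816) (T.l 816))) (T.l 1))) (T.a (T.c (T.b (T.l 816) (T.l 1)) (T.b (T.l 816) (T.l 1))) (T.a (T.a (T.c (T.l 816) (T.l 816)) (T.l 816)) (T.l 816)))) (T.l 1)))))) (T.a (T.a (T.c (T.b (T.l 816) (T.c (T.b (T.a (T.l 816) (T.l 816)) (T.a (T.l 1) (T.c (T.b (T.c (T.b (T.l 816) (T.l 1)) (T.b (T.l 816) (T.l 1))) (T.l 1)) (T.b (T.c (T.b (T.l 816) (T.l 1)) (T.a (T.l 816) (T.l 816))) (T.l 1))))) (T.b (T.a (T.l 816) (T.l 816)) (T.a (T.l 1) (T.c (T.b (T.a (T.l 816) (T.l 816)) (T.l 1)) (T.b (T.a (T.l 816) (T.l 816)) (T.l 1))))))) (T.b (T.l 816) (T.c (T.b (T.a (T.l 816) (T.l 816)) (T.a (T.l 1) (T.c (T.b (T.a (T.l 816) (T.l 816)) (T.l 1)) (T.b (T.a (T.l 816)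 (T.l 816)) (T.l 1))))) (T.b (T.a (T.l 816) (T.l 816)) (T.a (T.l 1) (T.c (T.b (T.a (T.l 816) (T.l 816)) (T.l 1)) (T.b (T.a (T.l 816) (T.l 816)) (T.l 1)))))))) (T.c (T.b (T.l 816) (T.c (T.b (T.l 816) (T.c (T.b (T.l 816) (T.a (T.l 1) (T.a (T.l 816) (T.l 816)))) (T.b (T.l 816) (T.a (T.l 1) (T.a (T.l 816) (T.l 816)))))) (T.b (T.l 816) (T.c (T.b (T.l 816) (T.a (T.l 1) (T.l 816))) (T.b (T.l 816) (T.a (T.l 1) (T.l 816))))))) (T.b (T.l 816) (T.c (T.b (T.l 816) (T.c (T.a (T.b (T.l 816) (T.l 1)) (T.l 816)) (T.a (T.b (T.l 816) (T.l 1)) (T.l 816)))) (T.b (T.l 816) (T.c (T.a (T.b (T.l 816) (T.l 1)) (T.l 816)) (T.a (T.b (T.l 816) (T.l 1)) (T.l 816)))))))) (T.a (T.a (T.l 816) (T.l 816)) (T.l 816)))) (T.a (T.l 1) (T.a (T.l 1) (T.c (T.b (T.c (T.b (T.a (T.a (T.l 1) (T.c (T.b (T.l 816) (T.l 1)) (T.b (T.l 816) (T.l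 1)))) (T.c (T.b (T.l 816) (T.a (T.l 1) (T.l 816))) (T.b (T.l 816) (T.a (T.l 1) (T.l 816))))) (T.l 1)) (T.b (T.a (T.a (T.l 1) (T.c (T.b (T.l 816) (T.l 1)) (T.b (T.l 816) (T.l 1)))) (T.c (T.b (T.l 816) (T.a (T.l 1) (T.l 816))) (T.b (T.l 816) (T.a (T.l 1) (T.l 816))))) (T.l 1))) (T.l 1)) (T.b (T.c (T.b (T.a (T.a (T.l 1) (T.c (T.b (T.l 816) (T.l 1)) (T.b (T.l 816) (T.l 1)))) (T.c (T.b (T.l 816) (T.a (T.l 1) (T.l 816))) (T.b (T.l 816) (T.a (T.l 1) (T.l 816))))) (T.l 1)) (T.b (T.a (T.a (T.l 1) (T.c (T.b (T.l 816) (T.l 1)) (T.b (T.l 816) (T.l 1)))) (T.c (T.b (T.l 816) (T.a (T.l 1) (T.l 816))) (T.b (T.l 816) (T.a (T.l 1) (T.l 816))))) (T.l 1))) (T.l 1)))))), by decide +kernel⟩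

def B022L_040_3_427_3 :
    ∃ t, chk3 (onCell 0 33554432 0 1073741824 33554432 16777216 (corTK [] false 3 c0N cB022L gN0q0 gN4q2 gN0q2 gN1q2 true true)) t 3 427 3 = true :=
  ⟨(T.b (T.a (T.c (T.b (T.a (T.a (T.c (T.b (T.l 816) (T.c (T.b (T.a (T.c (T.b (T.l 816) (T.l 1)) (T.b (T.l 816) (T.l 1))) (T.l 816)) (T.l 1)) (T.b (T.a (T.c (T.b (T.l 816) (T.l 1)) (T.b (T.l 816) (T.l 1))) (T.l 816)) (T.l 1)))) (T.b (T.l 816) (T.c (T.b (T.a (T.c (T.b (T.l 816) (T.l 1)) (T.b (T.l 816) (T.l 1))) (T.l 816)) (T.l 1)) (T.b (T.a (T.c (T.b (T.l 816) (T.l 1)) (T.b (T.l 816) (T.l 1))) (T.l 816)) (T.l 1))))) (T.a (T.c (T.b (T.l 816) (T.c (T.b (T.l 816) (T.c (T.b (T.l 816) (T.l 1)) (T.b (T.l 816) (T.l 1)))) (T.b (T.l 816) (T.c (T.b (T.l 816) (T.l 1)) (T.b (T.l 816) (T.l 1)))))) (T.b (T.l 816) (T.c (T.b (T.l 816) (T.c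 (T.b (T.l 816) (T.l 1)) (T.b (T.l 816) (T.l 1)))) (T.b (T.l 816) (T.c (T.b (T.l 816) (T.l 1)) (T.b (T.l 816) (T.l 1))))))) (T.l 816))) (T.a (T.l 816) (T.a (T.l 816) (T.l 816)))) (T.a (T.l 1) (T.c (T.b (T.a (T.c (T.b (T.a (T.c (T.b (T.l 816) (T.l 1)) (T.b (T.l 816) (T.l 1))) (T.a (T.l 816) (T.l 816))) (T.l 1)) (T.b (T.a (T.c (T.b (T.l 816) (T.l 1)) (T.b (T.l 816) (T.l 1))) (T.a (T.l 816) (T.l 816))) (T.l 1))) (T.a (T.c (T.b (T.l 816) (T.l 1)) (T.b (T.l 816) (T.l 1))) (T.a (T.a (T.c (T.l 816) (T.l 816)) (T.l 816)) (T.l 816)))) (T.l 1)) (T.b (T.a (T.c (T.b (T.a (T.c (T.b (T.l 816) (T.l 1)) (T.b (T.l 816) (T.l 1))) (T.a (T.l 816) (T.l 816))) (T.l 1)) (T.b (T.a (T.c (T.b (T.l 816) (T.l 1)) (T.b (T.l 816) (T.l 1))) (T.a (T.l 816) (T.l 816))) (T.l 1))) (T.a (T.c (T.b (T.l 816) (T.l 1)) (T.b (T.l 816)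 (T.l 1))) (T.a (T.a (T.l 816) (T.l 816)) (T.l 816)))) (T.l 1))))) (T.b (T.a (T.a (T.c (T.b (T.l 816) (T.c (T.b (T.a (T.c (T.b (T.l 816) (T.l 1)) (T.b (T.l 816) (T.l 1))) (T.l 816)) (T.l 1)) (T.b (T.a (T.c (T.b (T.l 816) (T.l 1)) (T.b (T.l 816) (T.l 1))) (T.l 816)) (T.l 1)))) (T.b (T.l 816) (T.c (T.b (T.a (T.c (T.b (T.l 816) (T.l 1)) (T.b (T.l 816) (T.l 1))) (T.l 816)) (T.l 1)) (T.b (T.a (T.c (T.b (T.l 816) (T.l 1)) (T.b (T.l 816) (T.l 1))) (T.l 816)) (T.l 1))))) (T.a (T.c (T.b (T.l 816) (T.c (T.b (T.l 816) (T.c (T.b (T.l 816) (T.l 1)) (T.b (T.l 816) (T.l 1)))) (T.b (T.l 816) (T.c (T.b (T.l 816) (T.l 1)) (T.b (T.l 816) (T.l 1)))))) (T.b (T.l 816) (T.c (T.b (T.l 816) (T.c (T.b (T.l 816) (T.l 1)) (T.b (T.l 816) (T.l 1)))) (T.b (T.l 816) (T.c (T.b (T.l 816) (T.l 1)) (T.b (T.l 816) (T.l 1))))))) (T.l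 816))) (T.a (T.l 816) (T.a (T.l 816) (T.l 816)))) (T.a (T.l 1) (T.c (T.b (T.a (T.c (T.b (T.a (T.c (T.b (T.l 816) (T.l 1)) (T.b (T.l 816) (T.l 1))) (T.a (T.l 816) (T.l 816))) (T.l 1)) (T.b (T.a (T.c (T.b (T.l 816) (T.l 1)) (T.b (T.l 816) (T.l 1))) (T.a (T.l 816) (T.l 816))) (T.l 1))) (T.a (T.c (T.b (T.l 816) (T.l 1)) (T.b (T.l 816) (T.l 1))) (T.a (T.a (T.l 816) (T.l 816)) (T.l 816)))) (T.l 1)) (T.b (T.a (T.c (T.b (T.a (T.c (T.b (T.l 816) (T.l 1)) (T.b (T.l 816) (T.l 1))) (T.a (T.l 816) (T.l 816))) (T.l 1)) (T.b (T.a (T.c (T.b (T.l 816) (T.l 1)) (T.b (T.l 816) (T.l 1))) (T.a (T.l 816) (T.l 816))) (T.l 1))) (T.a (T.c (T.b (T.l 816) (T.l 1)) (T.b (T.l 816) (T.l 1))) (T.a (T.a (T.c (T.l 816) (T.l 816)) (T.l 816)) (T.l 816)))) (T.l 1)))))) (T.a (T.a (T.c (T.b (T.l 816) (T.c (T.b (T.a (T.l 816) (T.l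 816)) (T.a (T.l 1) (T.c (T.b (T.a (T.l 816) (T.l 816)) (T.l 1)) (T.b (T.a (T.l 816) (T.l 816)) (T.l 1))))) (T.b (T.a (T.l 816) (T.l 816)) (T.a (T.l 1) (T.c (T.b (T.a (T.l 816) (T.l 816)) (T.l 1)) (T.b (T.a (T.l 816) (T.l 816)) (T.l 1))))))) (T.b (T.l 816) (T.c (T.b (T.a (T.l 816) (T.l 816)) (T.a (T.l 1) (T.c (T.b (T.a (T.l 816) (T.l 816)) (T.l 1)) (T.b (T.a (T.l 816) (T.l 816)) (T.l 1))))) (T.b (T.a (T.l 816) (T.l 816)) (T.a (T.l 1) (T.c (T.b (T.a (T.l 816) (T.l 816)) (T.l 1)) (T.b (T.a (T.l 816) (T.l 816)) (T.l 1)))))))) (T.c (T.b (T.l 816) (T.c (T.b (T.l 816) (T.a (T.c (T.b (T.l 816) (T.l 1)) (T.b (T.l 816) (T.l 1))) (T.l 816))) (T.b (T.l 816) (T.a (T.c (T.b (T.l 816) (T.l 1)) (T.b (T.l 816) (T.l 1))) (T.l 816))))) (T.b (T.l 816) (T.c (T.b (T.l 816) (T.a (T.c (T.b (T.l 816) (T.l 1)) (T.b (T.l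 816) (T.l 1))) (T.l 816))) (T.b (T.l 816) (T.a (T.c (T.b (T.l 816) (T.l 1)) (T.b (T.l 816) (T.l 1))) (T.l 816))))))) (T.a (T.a (T.l 816) (T.l 816)) (T.l 816)))) (T.a (T.l 1) (T.a (T.l 1) (T.c (T.b (T.c (T.b (T.a (T.a (T.l 1) (T.c (T.b (T.l 816) (T.l 1)) (T.b (T.l 816) (T.l 1)))) (T.c (T.b (T.l 816) (T.a (T.l 1) (T.l 816))) (T.b (T.l 816) (T.a (T.l 1) (T.l 816))))) (T.l 1)) (T.b (T.a (T.a (T.l 1) (T.c (T.b (T.l 816) (T.l 1)) (T.b (T.l 816) (T.l 1)))) (T.c (T.b (T.l 816) (T.a (T.l 1) (T.l 816))) (T.b (T.l 816) (T.a (T.l 1) (T.l 816))))) (T.l 1))) (T.l 1)) (T.b (T.c (T.b (T.a (T.a (T.l 1) (T.c (T.b (T.l 816) (T.l 1)) (T.b (T.l 816) (T.l 1)))) (T.c (T.a (T.b (T.l 816) (T.l 1)) (T.l 816)) (T.a (T.b (T.l 816) (T.l 1)) (T.l 816)))) (T.l 1)) (T.b (T.a (T.a (T.l 1) (T.c (T.b (T.l 816) (T.l 1)) (T.b (T.l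 816) (T.l 1)))) (T.c (T.a (T.b (T.l 816) (T.l 1)) (T.l 816)) (T.a (T.b (T.l 816) (T.l 1)) (T.l 816)))) (T.l 1))) (T.l 1)))))), by decide +kernel⟩

def B022L_040_1_107_1 :
    ∃ t, chk3 (onCell 0 33554432 0 1073741824 33554432 16777216 (corTK [] false 3 c0N cB022L gN0q0 gN4q2 gN0q2 gN1q2 true true)) t 1 107 1 = true :=
  ⟨(T.l 1), by decide +kernel⟩

def B022L_040_1_27_1 :
    ∃ t, chk3 (onCell 0 33554432 0 1073741824 33554432 16777216 (corTK [] false 3 c0N cB022L gN0q0 gN4q2 gN0q2 gN1q2 true true)) t 1 27 1 = true :=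
  ⟨(T.l 1), by decide +kernel⟩

def B022L_040_1_7_1 :
    ∃ t, chk3 (onCell 0 33554432 0 1073741824 33554432 16777216 (corTK [] false 3 c0N cB022L gN0q0 gN4q2 gN0q2 gN1q2 true true)) t 1 7 1 = true :=
  ⟨(T.l 1), by decide +kernel⟩

theorem B022L_040_3_427_1 :
    ∃ t, chk3 (onCell 0 33554432 0 1073741824 33554432 16777216 (corTK [] false 3 c0N cB022L gN0q0 gN4q2 gN0q2 gN1q2 true true)) t 3 427 1 = true :=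
  ex3_c B022L_040_3_427_2 B022L_040_3_427_3
theorem B022L_040_1_427_1 :
    ∃ t, chk3 (onCell 0 33554432 0 1073741824 33554432 16777216 (corTK [] false 3 c0N cB022L gN0q0 gN4q2 gN0q2 gN1q2 true true)) t 1 427 1 = true :=
  ex3_a B022L_040_2_427_1 B022L_040_3_427_1
theorem B022L_040_4_853_2 :
    ∃ t, chk3 (onCell 0 33554432 0 1073741824 33554432 16777216 (corTK [] false 3 c0N cB022L gN0q0 gN4q2 gN0q2 gN1q2 true true)) t 4 853 2 = true :=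
  ex3_c B022L_040_4_853_4 B022L_040_4_853_5
theorem B022L_040_4_426_2 :
    ∃ t, chk3 (onCell 0 33554432 0 1073741824 33554432 16777216 (corTK [] false 3 c0N cB022L gN0q0 gN4q2 gN0q2 gN1q2 true true)) t 4 426 2 = true :=
  ex3_b B022L_040_4_852_2 B022L_040_4_853_2
theorem B022L_040_4_426_1 :
    ∃ t, chk3 (onCell 0 33554432 0 1073741824 33554432 16777216 (corTK [] false 3 c0N cB022L gN0q0 gN4q2 gN0q2 gN1q2 true true)) t 4 426 1 = true :=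
  ex3_c B022L_040_4_426_2 B022L_040_4_426_3
theorem B022L_040_2_426_1 :
    ∃ t, chk3 (onCell 0 33554432 0 1073741824 33554432 16777216 (corTK [] false 3 c0N cB022L gN0q0 gN4q2 gN0q2 gN1q2 true true)) t 2 426 1 = true :=
  ex3_a B022L_040_4_426_1 B022L_040_5_426_1
theorem B022L_040_1_426_1 :
    ∃ t, chk3 (onCell 0 33554432 0 1073741824 33554432 16777216 (corTK [] false 3 c0N cB022L gN0q0 gN4q2 gN0q2 gN1q2 true true)) t 1 426 1 = true :=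
  ex3_a B022L_040_2_426_1 B022L_040_3_426_1
theorem B022L_040_1_213_1 :
    ∃ t, chk3 (onCell 0 33554432 0 1073741824 33554432 16777216 (corTK [] false 3 c0N cB022L gN0q0 gN4q2 gN0q2 gN1q2 true true)) t 1 213 1 = true :=
  ex3_b B022L_040_1_426_1 B022L_040_1_427_1
theorem B022L_040_1_106_1 :
    ∃ t, chk3 (onCell 0 33554432 0 1073741824 33554432 16777216 (corTK [] false 3 c0N cB022L gN0q0 gN4q2 gN0q2 gN1q2 true true)) t 1 106 1 = true :=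
  ex3_b B022L_040_1_212_1 B022L_040_1_213_1
theorem B022L_040_1_53_1 :
    ∃ t, chk3 (onCell 0 33554432 0 1073741824 33554432 16777216 (corTK [] false 3 c0N cB022L gN0q0 gN4q2 gN0q2 gN1q2 true true)) t 1 53 1 = true :=
  ex3_b B022L_040_1_106_1 B022L_040_1_107_1
theorem B022L_040_1_26_1 :
    ∃ t, chk3 (onCell 0 33554432 0 1073741824 33554432 16777216 (corTK [] false 3 c0N cB022L gN0q0 gN4q2 gN0q2 gN1q2 true true)) t 1 26 1 = true :=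
  ex3_b B022L_040_1_52_1 B022L_040_1_53_1
theorem B022L_040_1_13_1 :
    ∃ t, chk3 (onCell 0 33554432 0 1073741824 33554432 16777216 (corTK [] false 3 c0N cB022L gN0q0 gN4q2 gN0q2 gN1q2 true true)) t 1 13 1 = true :=
  ex3_b B022L_040_1_26_1 B022L_040_1_27_1
theorem B022L_040_1_6_1 :
    ∃ t, chk3 (onCell 0 33554432 0 1073741824 33554432 16777216 (corTK [] false 3 c0N cB022L gN0q0 gN4q2 gN0q2 gN1q2 true true)) t 1 6 1 = true :=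
  ex3_b B022L_040_1_12_1 B022L_040_1_13_1
theorem B022L_040_1_3_1 :
    ∃ t, chk3 (onCell 0 33554432 0 1073741824 33554432 16777216 (corTK [] false 3 c0N cB022L gN0q0 gN4q2 gN0q2 gN1q2 true true)) t 1 3 1 = true :=
  ex3_b B022L_040_1_6_1 B022L_040_1_7_1
theorem B022L_040 :
    ∃ t, chk3 (onCell 0 33554432 0 1073741824 33554432 16777216 (corTK [] false 3 c0N cB022L gN0q0 gN4q2 gN0q2 gN1q2 true true)) t 1 1 1 = true :=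
  ex3_b B022L_040_1_2_1 B022L_040_1_3_1

def B022L_041 :
    ∃ t, chk3 (onCell 0 33554432 0 1073741824 33554432 16777216 (corTK [] false 3 c0N cB022L gN0q0 gN4q2 gN1q2 gN2q2 true true)) t 1 1 1 = true :=
  ⟨(T.b (T.b (T.b (T.a (T.a (T.a (T.l 204) (T.a (T.l 204) (T.l 0))) (T.a (T.b (T.l 0) (T.l 0)) (T.l 0))) (T.a (T.a (T.l 0) (T.l 204)) (T.b (T.l 204) (T.l 0)))) (T.a (T.a (T.a (T.l 204) (T.l 204)) (T.a (T.b (T.l 0) (T.l 0)) (T.l 0))) (T.a (T.a (T.l 0) (T.l 0)) (T.b (T.l 0) (T.b (T.l 204) (T.l 0)))))) (T.b (T.b (T.a (T.a (T.a (T.l 204) (T.l 204)) (T.a (T.l 256) (T.l 204))) (T.a (T.b (T.l 272) (T.l 272)) (T.b (T.l 0) (T.l 0)))) (T.b (T.a (T.a (T.a (T.l 204) (T.l 204)) (T.a (T.l 0) (T.l 204))) (T.a (T.a (T.l 204) (T.l 204)) (T.l 0))) (T.a (T.l 1) (T.a (T.a (T.l 204) (T.l 204)) (T.l 0))))) (T.l 1)))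 (T.l 1)), by decide +kernel⟩

def B022L_042 :
    ∃ t, chk3 (onCell 0 33554432 0 1073741824 33554432 16777216 (corTK [] false 3 c0N cB022L gN0q0 gN4q2 gN2q2 gN3q2 true false)) t 1 1 1 = true :=
  ⟨(T.l 1), by decide +kernel⟩

def B022L_140 :
    ∃ t, chk3 (onCell 0 33554432 0 1073741824 33554432 16777216 (corTK [] false 3 c0N cB022L gN1q0 gN4q2 gN0q2 gN1q2 true true)) t 1 1 1 = true :=
  ⟨(T.b (T.b (T.b (T.l 2) (T.b (T.b (T.l 2) (T.b (T.a (T.a (T.a (T.l 204) (T.l 204)) (T.l 0)) (T.l 2)) (T.a (T.a (T.l 204) (T.l 0)) (T.l 0)))) (T.a (T.a (T.l 204) (T.b (T.l 0) (T.l 0))) (T.b (T.l 16) (T.l 0))))) (T.b (T.a (T.a (T.l 204) (T.b (T.l 0) (T.l 0))) (T.a (T.l 0) (T.l 0))) (T.a (T.a (T.l 204) (T.b (T.l 0) (T.l 0))) (T.b (T.l 0) (T.l 0))))) (T.l 1)), by decide +kernel⟩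

def B022L_141 :
    ∃ t, chk3 (onCell 0 33554432 0 1073741824 33554432 16777216 (corTK [] false 3 c0N cB022L gN1q0 gN4q2 gN1q2 gN2q2 true true)) t 1 1 1 = true :=
  ⟨(T.b (T.b (T.a (T.a (T.a (T.l 204) (T.a (T.l 204) (T.b (T.l 0) (T.l 204)))) (T.b (T.a (T.b (T.l 0) (T.l 0)) (T.l 0)) (T.l 0))) (T.b (T.b (T.a (T.b (T.l 0) (T.l 0)) (T.l 204)) (T.l 0)) (T.l 0))) (T.l 1)) (T.l 1)), by decide +kernel⟩

def B022L_142 :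
    ∃ t, chk3 (onCell 0 33554432 0 1073741824 33554432 16777216 (corTK [] false 3 c0N cB022L gN1q0 gN4q2 gN2q2 gN3q2 true false)) t 1 1 1 = true :=
  ⟨(T.l 1), by decide +kernel⟩

def B022L_240 :
    ∃ t, chk3 (onCell 0 33554432 0 1073741824 33554432 16777216 (corTK [] false 3 c0N cB022L gN2q0 gN4q2 gN0q2 gN1q2 true true)) t 1 1 1 = true :=
  ⟨(T.b (T.b (T.b (T.b (T.l 2) (T.b (T.l 2) (T.b (T.l 2) (T.a (T.a (T.a (T.l 204) (T.l 204)) (T.l 0)) (T.l 0))))) (T.a (T.a (T.a (T.l 204) (T.l 204)) (T.b (T.l 0) (T.l 0))) (T.a (T.l 0) (T.l 0)))) (T.b (T.a (T.a (T.l 204) (T.l 0)) (T.b (T.l 0) (T.l 0))) (T.l 1))) (T.l 1)), by decide +kernel⟩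

def B022L_241 :
    ∃ t, chk3 (onCell 0 33554432 0 1073741824 33554432 16777216 (corTK [] false 3 c0N cB022L gN2q0 gN4q2 gN1q2 gN2q2 true true)) t 1 1 1 = true :=
  ⟨(T.b (T.b (T.b (T.a (T.a (T.a (T.l 204) (T.a (T.l 204) (T.l 0))) (T.a (T.b (T.l 0) (T.l 204)) (T.l 0))) (T.b (T.a (T.b (T.l 0) (T.l 0)) (T.l 204)) (T.l 0))) (T.a (T.l 1) (T.l 0))) (T.l 1)) (T.l 1)), by decide +kernel⟩

def B022L_242 :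
    ∃ t, chk3 (onCell 0 33554432 0 1073741824 33554432 16777216 (corTK [] false 3 c0N cB022L gN2q0 gN4q2 gN2q2 gN3q2 true false)) t 1 1 1 = true :=
  ⟨(T.l 1), by decide +kernel⟩

def B022R_003 :
    ∃ t, chk3 (onCell 0 33554432 0 1073741824 33554432 16777216 (corTK [] false 3 c0N cB022R gN0q0 gN0q2 gN3q2 gN4q2 false true)) t 1 1 1 = true :=
  ⟨(T.b (T.b (T.b (T.a (T.a (T.a (T.b (T.b (T.b (T.c (T.l 204) (T.l 204)) (T.l 204)) (T.l 204)) (T.l 204)) (T.a (T.l 204) (T.a (T.l 204) (T.l 204)))) (T.a (T.a (T.l 204) (T.l 204)) (T.b (T.l 204) (T.l 204)))) (T.a (T.a (T.l 204) (T.b (T.l 204) (T.l 204))) (T.a (T.b (T.l 204) (T.l 204)) (T.b (T.l 204) (T.l 204))))) (T.a (T.a (T.a (T.l 204) (T.a (T.l 204) (T.l 204))) (T.a (T.a (T.l 204) (T.l 204)) (T.l 204))) (T.a (T.a (T.l 204) (T.l 204)) (T.a (T.b (T.l 204)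 (T.l 204)) (T.b (T.l 204) (T.l 204)))))) (T.a (T.a (T.a (T.l 204) (T.a (T.l 204) (T.l 204))) (T.a (T.c (T.l 460) (T.l 460)) (T.b (T.l 204) (T.b (T.l 204) (T.l 204))))) (T.a (T.b (T.a (T.l 204) (T.l 460)) (T.a (T.l 204) (T.l 204))) (T.b (T.a (T.l 204) (T.b (T.l 204) (T.l 204))) (T.b (T.l 460) (T.l 460)))))) (T.a (T.a (T.a (T.b (T.l 204) (T.l 204)) (T.a (T.l 204) (T.b (T.l 204) (T.b (T.l 204) (T.l 0))))) (T.b (T.a (T.b (T.l 204) (T.b (T.l 256) (T.l 256))) (T.b (T.l 460) (T.l 256))) (T.a (T.a (T.b (T.l 204) (T.l 0)) (T.l 256)) (T.b (T.l 256) (T.l 256))))) (T.a (T.b (T.a (T.b (T.l 204) (T.l 204)) (T.b (T.l 204) (T.l 204))) (T.a (T.b (T.l 0) (T.l 0)) (T.b (T.l 0) (T.l 0)))) (T.b (T.b (T.b (T.l 460) (T.l 256)) (T.b (T.l 256) (T.l 256))) (T.a (T.b (T.l 0) (T.l 0)) (T.b (T.l 0) (T.l 0))))))), by decide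 +kernel⟩

def B022R_013 :
    ∃ t, chk3 (onCell 0 33554432 0 1073741824 33554432 16777216 (corTK [] false 3 c0N cB022R gN0q0 gN1q2 gN3q2 gN4q2 false true)) t 1 1 1 = true :=
  ⟨(T.b (T.b (T.b (T.a (T.a (T.a (T.l 204) (T.c (T.l 0) (T.l 0))) (T.a (T.l 204) (T.l 204))) (T.a (T.a (T.l 204) (T.l 204)) (T.b (T.l 204) (T.l 204)))) (T.a (T.a (T.a (T.l 204) (T.l 256)) (T.b (T.l 0) (T.l 0))) (T.a (T.l 204) (T.b (T.l 204) (T.b (T.l 204) (T.l 204)))))) (T.a (T.a (T.a (T.l 204) (T.l 256)) (T.a (T.l 0) (T.b (T.l 204) (T.l 0)))) (T.a (T.b (T.b (T.l 204) (T.l 0)) (T.b (T.l 0) (T.l 0))) (T.b (T.b (T.l 256) (T.l 0)) (T.b (T.l 0) (T.l 0)))))) (T.a (T.a (T.a (T.l 0) (T.b (T.l 0) (T.a (T.l 816) (T.b (T.l 816) (T.l 0))))) (T.b (T.a (T.b (T.l 0) (T.l 64)) (T.b (T.l 0) (T.l 0))) (T.a (T.a (T.b (T.l 0) (T.l 816)) (T.l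 0)) (T.b (T.l 0) (T.b (T.l 816) (T.l 816)))))) (T.b (T.a (T.b (T.b (T.l 0) (T.l 0)) (T.b (T.l 0) (T.l 64))) (T.b (T.b (T.l 0) (T.l 0)) (T.b (T.l 0) (T.l 816)))) (T.a (T.a (T.b (T.l 816) (T.l 816)) (T.b (T.l 816) (T.l 816))) (T.b (T.b (T.l 816) (T.l 816)) (T.b (T.l 816) (T.l 880))))))), by decide +kernel⟩

def B022R_023 :
    ∃ t, chk3 (onCell 0 33554432 0 1073741824 33554432 16777216 (corTK [] false 3 c0N cB022R gN0q0 gN2q2 gN3q2 gN4q2 false true)) t 1 1 1 = true :=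
  ⟨(T.b (T.l 2) (T.b (T.l 2) (T.b (T.l 2) (T.b (T.l 2) (T.b (T.a (T.l 2) (T.a (T.a (T.l 2) (T.l 816)) (T.l 816))) (T.a (T.b (T.a (T.l 2) (T.a (T.l 816) (T.l 816))) (T.a (T.a (T.l 816) (T.a (T.l 816) (T.l 816))) (T.a (T.l 816) (T.l 816)))) (T.a (T.a (T.l 816) (T.l 816)) (T.l 816)))))))), by decide +kernel⟩

def B022R_103 :
    ∃ t, chk3 (onCell 0 33554432 0 1073741824 33554432 16777216 (corTK [] false 3 c0N cB022R gN1q0 gN0q2 gN3q2 gN4q2 false true)) t 1 1 1 = true :=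
  ⟨(T.b (T.a (T.a (T.a (T.b (T.b (T.b (T.b (T.c (T.l 204) (T.l 204)) (T.l 204)) (T.l 204)) (T.l 204)) (T.l 204)) (T.b (T.a (T.l 204) (T.a (T.l 204) (T.l 204))) (T.l 0))) (T.b (T.b (T.a (T.a (T.l 204) (T.l 204)) (T.l 460)) (T.l 0)) (T.l 0))) (T.b (T.a (T.a (T.l 460) (T.b (T.b (T.l 204) (T.l 204)) (T.l 204))) (T.b (T.b (T.a (T.l 204) (T.l 204)) (T.l 204)) (T.l 204))) (T.b (T.l 0) (T.l 0)))) (T.a (T.a (T.a (T.l 204) (T.l 0)) (T.l 0)) (T.l 0))), by decide +kernel⟩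

def B022R_113 :
    ∃ t, chk3 (onCell 0 33554432 0 1073741824 33554432 16777216 (corTK [] false 3 c0N cB022R gN1q0 gN1q2 gN3q2 gN4q2 false true)) t 1 1 1 = true :=
  ⟨(T.b (T.b (T.a (T.a (T.a (T.l 204) (T.c (T.l 0) (T.l 0))) (T.a (T.l 204) (T.l 204))) (T.b (T.a (T.a (T.l 204) (T.l 204)) (T.b (T.l 204) (T.l 204))) (T.b (T.l 0) (T.l 0)))) (T.a (T.a (T.a (T.l 204) (T.l 0)) (T.l 0)) (T.b (T.l 0) (T.l 0)))) (T.a (T.a (T.a (T.l 204) (T.l 0)) (T.l 0)) (T.l 0))), by decide +kernel⟩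

def B022R_123 :
    ∃ t, chk3 (onCell 0 33554432 0 1073741824 33554432 16777216 (corTK [] false 3 c0N cB022R gN1q0 gN2q2 gN3q2 gN4q2 false true)) t 1 1 1 = true :=
  ⟨(T.l 2), by decide +kernel⟩

def B022R_203 :
    ∃ t, chk3 (onCell 0 33554432 0 1073741824 33554432 16777216 (corTK [] false 3 c0N cB022R gN2q0 gN0q2 gN3q2 gN4q2 false true)) t 1 1 1 = true :=
  ⟨(T.b (T.b (T.a (T.a (T.a (T.b (T.b (T.b (T.c (T.l 220) (T.l 204)) (T.l 204)) (T.l 204)) (T.l 204)) (T.b (T.a (T.l 204) (T.a (T.l 204) (T.l 204))) (T.l 0))) (T.b (T.b (T.a (T.a (T.l 204) (T.l 204)) (T.l 204)) (T.l 0)) (T.l 0))) (T.b (T.a (T.a (T.l 204) (T.b (T.l 204) (T.l 204))) (T.b (T.a (T.l 204) (T.l 204)) (T.l 204))) (T.l 0))) (T.a (T.a (T.a (T.l 204) (T.l 0)) (T.l 0)) (T.b (T.l 0) (T.l 0)))) (T.a (T.a (T.a (T.l 204) (T.l 0)) (T.l 0))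 (T.l 0))), by decide +kernel⟩

def B022R_213 :
    ∃ t, chk3 (onCell 0 33554432 0 1073741824 33554432 16777216 (corTK [] false 3 c0N cB022R gN2q0 gN1q2 gN3q2 gN4q2 false true)) t 1 1 1 = true :=
  ⟨(T.b (T.b (T.a (T.a (T.a (T.l 204) (T.a (T.l 204) (T.l 204))) (T.a (T.l 204) (T.l 204))) (T.b (T.b (T.a (T.a (T.l 204) (T.l 204)) (T.l 204)) (T.l 0)) (T.l 0))) (T.a (T.a (T.a (T.l 204) (T.l 0)) (T.l 0)) (T.l 256))) (T.l 2)), by decide +kernel⟩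

def B022R_223 :
    ∃ t, chk3 (onCell 0 33554432 0 1073741824 33554432 16777216 (corTK [] false 3 c0N cB022R gN2q0 gN2q2 gN3q2 gN4q2 false true)) t 1 1 1 = true :=
  ⟨(T.l 2), by decide +kernel⟩

def B101E_000 :
    ∃ t, chk3 (onCell 0 33554432 0 1073741824 33554432 16777216 (corTK [] false 3 c0N cB101E gN0q1 gN0q1 gN0q0 gN1q0 true true)) t 1 1 1 = true :=
  ⟨(T.l 2), by decide +kernel⟩

def B101E_001 :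
    ∃ t, chk3 (onCell 0 33554432 0 1073741824 33554432 16777216 (corTK [] false 3 c0N cB101E gN0q1 gN0q1 gN1q0 gN2q0 true true)) t 1 1 1 = true :=
  ⟨(T.b (T.l 2) (T.b (T.l 2) (T.b (T.l 2) (T.a (T.b (T.l 2) (T.a (T.a (T.l 816) (T.l 816)) (T.l 816))) (T.l 816))))), by decide +kernel⟩

def B101E_002 :
    ∃ t, chk3 (onCell 0 33554432 0 1073741824 33554432 16777216 (corTK [] false 3 c0N cB101E gN0q1 gN0q1 gN2q0 gN3q0 true false)) t 1 1 1 = true :=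
  ⟨(T.b (T.a (T.a (T.a (T.l 0) (T.l 0)) (T.l 0)) (T.b (T.l 0) (T.l 0))) (T.b (T.a (T.a (T.a (T.l 0) (T.l 0)) (T.l 0)) (T.l 0)) (T.b (T.a (T.a (T.a (T.l 0) (T.l 0)) (T.l 0)) (T.l 0)) (T.a (T.a (T.a (T.l 0) (T.l 0)) (T.l 0)) (T.l 0))))), by decide +kernel⟩

end Pool.Agent.Strip051.G.I1_32_3_64.Tab.CN
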