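import Pool.Agent.Strip051.G.I1_32_3_64.Gn
import Pool.Agent.Strip051.PB.Corns
import Pool.Agent.Strip051.PB.CornK

/-! # Certificates of the aligned corners (generated) -/

set_option linter.all false

namespace Pool.Agent.Strip051.G.I1_32_3_64.Tab.CN

open Pool.Agent.Strip051.PB

def B102E_000_1_2_1 :
    ∃ t, chk3 (onCell 0 33554432 0 1073741824 33554432 16777216 (corTK [] false 3 c0N cB102E gN0q1 gN0q2 gN0q0 gN1q0 true true)) t 1 2 1 = true :=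
  ⟨(T.b (T.l 1) (T.b (T.l 1) (T.b (T.l 1) (T.a (T.b (T.l 1) (T.a (T.b (T.l 1) (T.a (T.b (T.l 1) (T.a (T.b (T.l 1) (T.a (T.c (T.b (T.l 1) (T.a (T.c (T.b (T.l 1) (T.a (T.c (T.b (T.l 1) (T.a (T.c (T.b (T.l 1) (T.a (T.c (T.b (T.l 1) (T.c (T.b (T.l 1) (T.l 816)) (T.b (T.l 1) (T.l 816)))) (T.b (T.l 1) (T.c (T.b (T.l 1) (T.l 816)) (T.b (T.l 1) (T.l 816))))) (T.l 1))) (T.b (T.l 1) (T.a (T.c (T.b (T.l 1) (T.c (T.b (T.l 1) (T.l 816)) (T.b (T.l 1) (T.l 816)))) (T.b (T.l 1) (T.c (T.b (T.l 1) (T.l 816)) (T.b (T.l 1) (T.l 816))))) (T.l 1)))) (T.l 1))) (T.b (T.l 1) (T.a (T.c (T.b (T.l 1) (T.a (T.c (T.b (T.l 1) (T.c (T.b (T.l 1) (T.l 816)) (T.b (T.l 1) (T.l 816)))) (T.b (T.l 1) (T.c (T.b (T.l 1) (T.l 816)) (T.b (T.l 1) (T.l 816))))) (T.l 1))) (T.b (T.l 1) (T.a (T.c (T.b (T.l 1) (T.c (T.b (T.l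 1) (T.l 816)) (T.b (T.l 1) (T.l 816)))) (T.b (T.l 1) (T.c (T.b (T.l 1) (T.l 816)) (T.a (T.l 816) (T.l 1))))) (T.l 1)))) (T.l 1)))) (T.l 1))) (T.b (T.l 1) (T.a (T.c (T.b (T.l 1) (T.a (T.c (T.b (T.l 1) (T.a (T.c (T.b (T.l 1) (T.a (T.l 816) (T.l 1))) (T.b (T.l 1) (T.a (T.l 816) (T.l 1)))) (T.l 1))) (T.b (T.l 1) (T.a (T.c (T.b (T.l 1) (T.l 816)) (T.b (T.l 1) (T.l 816))) (T.l 1)))) (T.l 1))) (T.b (T.l 1) (T.a (T.c (T.b (T.l 1) (T.a (T.c (T.b (T.l 1) (T.l 816)) (T.b (T.l 1) (T.l 816))) (T.l 1))) (T.b (T.l 1) (T.c (T.b (T.l 1) (T.l 816)) (T.b (T.l 1) (T.l 816))))) (T.l 1)))) (T.l 1)))) (T.l 1))) (T.b (T.l 1) (T.a (T.c (T.b (T.l 1) (T.a (T.c (T.b (T.l 1) (T.a (T.c (T.b (T.l 1) (T.c (T.b (T.l 1) (T.l 816)) (T.b (T.l 1) (T.l 816)))) (T.b (T.l 1) (T.c (T.b (T.l 1) (T.l 816)) (T.b (T.l 1)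 (T.l 816))))) (T.l 1))) (T.b (T.l 1) (T.a (T.c (T.b (T.l 1) (T.c (T.b (T.l 1) (T.l 816)) (T.b (T.l 1) (T.l 816)))) (T.b (T.l 1) (T.c (T.b (T.l 1) (T.l 816)) (T.b (T.l 1) (T.l 816))))) (T.l 1)))) (T.l 1))) (T.b (T.l 1) (T.a (T.c (T.b (T.l 1) (T.a (T.c (T.b (T.l 1) (T.c (T.b (T.l 1) (T.l 816)) (T.b (T.l 1) (T.l 816)))) (T.b (T.l 1) (T.c (T.b (T.l 1) (T.l 816)) (T.a (T.l 816) (T.l 1))))) (T.l 1))) (T.b (T.l 1) (T.a (T.c (T.b (T.l 1) (T.a (T.l 816) (T.l 1))) (T.b (T.l 1) (T.l 816))) (T.l 1)))) (T.l 1)))) (T.l 1)))) (T.l 1))) (T.l 1))) (T.l 1))) (T.l 1))) (T.l 1))))), by decide +kernel⟩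

def B102E_000_16_1536_4 :
    ∃ t, chk3 (onCell 0 33554432 0 1073741824 33554432 16777216 (corTK [] false 3 c0N cB102E gN0q1 gN0q2 gN0q0 gN1q0 true true)) t 16 1536 4 = true :=
  ⟨(T.c (T.b (T.a (T.c (T.b (T.a (T.a (T.l 816) (T.c (T.b (T.c (T.b (T.l 1) (T.a (T.l 816) (T.l 1))) (T.b (T.l 1) (T.a (T.l 816) (T.l 1)))) (T.l 816)) (T.b (T.c (T.b (T.l 1) (T.a (T.l 816) (T.l 1))) (T.b (T.l 1) (T.a (T.l 816) (T.l 1)))) (T.l 816)))) (T.a (T.c (T.b (T.l 1) (T.c (T.b (T.a (T.a (T.l 816) (T.l 1)) (T.l 1)) (T.l 816)) (T.b (T.a (T.a (T.l 816) (T.l 1)) (T.l 1)) (T.l 816)))) (T.b (T.l 1) (T.c (T.b (T.a (T.a (T.l 816) (T.l 1)) (T.l 1)) (T.l 816)) (T.b (T.a (T.a (T.l 816) (T.l 1)) (T.l 1)) (T.l 816))))) (T.l 1))) (T.a (T.l 816) (T.a (T.l 816) (T.a (T.l 816) (T.c (T.b (T.c (T.b (T.l 1) (T.l 816))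 (T.b (T.l 1) (T.l 816))) (T.l 816)) (T.a (T.l 816) (T.b (T.c (T.b (T.l 1) (T.l 816)) (T.b (T.l 1) (T.l 816))) (T.l 816)))))))) (T.b (T.a (T.a (T.l 816) (T.c (T.b (T.c (T.b (T.l 1) (T.a (T.l 816) (T.l 1))) (T.b (T.l 1) (T.a (T.l 816) (T.l 1)))) (T.l 816)) (T.b (T.c (T.b (T.l 1) (T.a (T.l 816) (T.l 1))) (T.b (T.l 1) (T.a (T.l 816) (T.l 1)))) (T.l 816)))) (T.a (T.c (T.b (T.l 1) (T.c (T.b (T.a (T.a (T.l 816) (T.l 1)) (T.l 1)) (T.l 816)) (T.b (T.a (T.l 816) (T.l 1)) (T.l 816)))) (T.b (T.l 1) (T.c (T.b (T.a (T.l 816) (T.l 1)) (T.l 816)) (T.b (T.a (T.l 816) (T.l 1)) (T.l 816))))) (T.l 1))) (T.a (T.l 816) (T.a (T.l 816) (T.a (T.l 816) (T.a (T.l 816) (T.c (T.b (T.c (T.b (T.l 1) (T.l 816)) (T.b (T.l 1) (T.l 816))) (T.l 816)) (T.b (T.c (T.b (T.l 1) (T.l 816)) (T.b (T.l 1) (T.l 816))) (T.l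 816))))))))) (T.a (T.c (T.b (T.l 1) (T.c (T.b (T.a (T.a (T.a (T.c (T.b (T.l 1) (T.l 816)) (T.b (T.l 1) (T.l 816))) (T.l 1)) (T.l 1)) (T.l 1)) (T.a (T.l 816) (T.c (T.b (T.l 1) (T.a (T.l 816) (T.l 1))) (T.b (T.l 1) (T.a (T.l 816) (T.l 1)))))) (T.b (T.a (T.a (T.a (T.c (T.b (T.l 1) (T.l 816)) (T.b (T.l 1) (T.l 816))) (T.l 1)) (T.l 1)) (T.l 1)) (T.a (T.l 816) (T.c (T.b (T.l 1) (T.a (T.l 816) (T.l 1))) (T.b (T.l 1) (T.a (T.l 816) (T.l 1)))))))) (T.b (T.l 1) (T.c (T.b (T.a (T.a (T.c (T.b (T.l 1) (T.l 816)) (T.b (T.l 1) (T.l 816))) (T.l 1)) (T.l 1)) (T.a (T.l 816) (T.c (T.b (T.l 1) (T.a (T.l 816) (T.l 1))) (T.b (T.l 1) (T.a (T.l 816) (T.l 1)))))) (T.b (T.a (T.a (T.c (T.b (T.l 1) (T.l 816)) (T.b (T.l 1) (T.l 816))) (T.l 1)) (T.l 1)) (T.a (T.l 816) (T.c (T.b (T.l 1) (T.a (T.l 816) (T.l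 1))) (T.b (T.l 1) (T.a (T.l 816) (T.l 1))))))))) (T.l 1))) (T.a (T.l 816) (T.a (T.l 816) (T.c (T.b (T.c (T.b (T.a (T.c (T.b (T.a (T.a (T.l 816) (T.l 1)) (T.l 1)) (T.l 816)) (T.b (T.a (T.a (T.l 816) (T.l 1)) (T.l 1)) (T.l 816))) (T.l 1)) (T.a (T.l 816) (T.a (T.l 816) (T.c (T.b (T.l 1) (T.l 816)) (T.b (T.l 1) (T.l 816)))))) (T.b (T.a (T.c (T.b (T.a (T.a (T.l 816) (T.l 1)) (T.l 1)) (T.l 816)) (T.b (T.a (T.l 816) (T.l 1)) (T.l 816))) (T.l 1)) (T.a (T.l 816) (T.a (T.l 816) (T.c (T.b (T.l 1) (T.l 816)) (T.b (T.l 1) (T.l 816))))))) (T.l 816)) (T.b (T.c (T.b (T.a (T.c (T.b (T.a (T.l 816) (T.l 1)) (T.l 816)) (T.b (T.a (T.l 816) (T.l 1)) (T.l 816))) (T.l 1)) (T.a (T.l 816) (T.a (T.l 816) (T.c (T.b (T.l 1) (T.l 816)) (T.b (T.l 1) (T.l 816)))))) (T.b (T.a (T.c (T.b (T.a (T.l 816) (T.l 1))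 (T.l 816)) (T.b (T.a (T.l 816) (T.l 1)) (T.l 816))) (T.l 1)) (T.a (T.l 816) (T.a (T.l 816) (T.c (T.b (T.l 1) (T.l 816)) (T.l 816)))))) (T.l 816)))))) (T.b (T.a (T.c (T.b (T.a (T.a (T.l 816) (T.c (T.b (T.c (T.b (T.l 1) (T.a (T.l 816) (T.l 1))) (T.b (T.l 1) (T.a (T.l 816) (T.l 1)))) (T.l 816)) (T.b (T.c (T.b (T.l 1) (T.a (T.l 816) (T.l 1))) (T.b (T.l 1) (T.l 816))) (T.l 816)))) (T.a (T.c (T.b (T.l 1) (T.c (T.b (T.a (T.l 816) (T.l 1)) (T.l 816)) (T.b (T.a (T.l 816) (T.l 1)) (T.l 816)))) (T.b (T.l 1) (T.c (T.b (T.a (T.l 816) (T.l 1)) (T.l 816)) (T.b (T.a (T.l 816) (T.l 1)) (T.l 816))))) (T.l 1))) (T.a (T.l 816) (T.a (T.l 816) (T.c (T.a (T.l 816) (T.a (T.l 816) (T.b (T.c (T.b (T.l 1) (T.l 816)) (T.b (T.l 1) (T.l 816))) (T.l 816)))) (T.l 816))))) (T.b (T.a (T.a (T.l 816) (T.c (T.b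 (T.c (T.b (T.l 1) (T.l 816)) (T.b (T.l 1) (T.l 816))) (T.l 816)) (T.b (T.c (T.b (T.l 1) (T.l 816)) (T.b (T.l 1) (T.l 816))) (T.l 816)))) (T.c (T.b (T.l 1) (T.a (T.c (T.b (T.a (T.l 816) (T.l 1)) (T.l 816)) (T.b (T.a (T.l 816) (T.l 1)) (T.l 816))) (T.l 1))) (T.b (T.l 1) (T.a (T.c (T.b (T.a (T.l 816) (T.l 1)) (T.l 816)) (T.b (T.a (T.l 816) (T.l 1)) (T.l 816))) (T.l 1))))) (T.l 816))) (T.a (T.c (T.b (T.l 1) (T.c (T.b (T.a (T.a (T.c (T.b (T.l 1) (T.l 816)) (T.b (T.l 1) (T.l 816))) (T.l 1)) (T.l 1)) (T.a (T.l 816) (T.c (T.b (T.l 1) (T.a (T.l 816) (T.l 1))) (T.b (T.l 1) (T.l 816))))) (T.b (T.a (T.a (T.c (T.b (T.l 1) (T.l 816)) (T.b (T.l 1) (T.l 816))) (T.l 1)) (T.l 1)) (T.a (T.l 816) (T.c (T.b (T.l 1) (T.l 816)) (T.b (T.l 1) (T.l 816))))))) (T.b (T.l 1) (T.c (T.b (T.a (T.a (T.c (T.b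 (T.l 1) (T.l 816)) (T.b (T.l 1) (T.l 816))) (T.l 1)) (T.l 1)) (T.a (T.l 816) (T.c (T.b (T.l 1) (T.l 816)) (T.b (T.l 1) (T.l 816))))) (T.b (T.a (T.a (T.c (T.b (T.l 1) (T.l 816)) (T.b (T.l 1) (T.l 816))) (T.l 1)) (T.l 1)) (T.a (T.l 816) (T.a (T.l 816) (T.l 1))))))) (T.l 1))) (T.a (T.l 816) (T.a (T.l 816) (T.c (T.b (T.c (T.b (T.a (T.c (T.b (T.a (T.l 816) (T.l 1)) (T.l 816)) (T.b (T.a (T.l 816) (T.l 1)) (T.l 816))) (T.l 1)) (T.l 816)) (T.b (T.a (T.c (T.b (T.a (T.l 816) (T.l 1)) (T.l 816)) (T.b (T.a (T.l 816) (T.l 1)) (T.l 816))) (T.l 1)) (T.l 816))) (T.l 816)) (T.b (T.c (T.b (T.a (T.c (T.b (T.a (T.l 816) (T.l 1)) (T.l 816)) (T.b (T.a (T.l 816) (T.l 1)) (T.l 816))) (T.l 1)) (T.l 816)) (T.b (T.a (T.c (T.b (T.a (T.l 816) (T.l 1)) (T.l 816)) (T.b (T.a (T.l 816) (T.l 1)) (T.l 816))) (T.l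 1)) (T.l 816))) (T.l 816))))))), by decide +kernel⟩

def B102E_000_17_1536_4 :
    ∃ t, chk3 (onCell 0 33554432 0 1073741824 33554432 16777216 (corTK [] false 3 c0N cB102E gN0q1 gN0q2 gN0q0 gN1q0 true true)) t 17 1536 4 = true :=
  ⟨(T.a (T.c (T.b (T.l 1) (T.c (T.b (T.a (T.a (T.a (T.a (T.c (T.b (T.l 1) (T.c (T.b (T.l 1) (T.l 816)) (T.b (T.l 1) (T.l 816)))) (T.b (T.l 1) (T.c (T.b (T.l 1) (T.l 816)) (T.b (T.l 1) (T.l 816))))) (T.l 1)) (T.l 1)) (T.l 1)) (T.l 1)) (T.a (T.a (T.l 816) (T.c (T.b (T.c (T.b (T.l 1) (T.a (T.l 816) (T.l 1))) (T.b (T.l 1) (T.a (T.l 816) (T.l 1)))) (T.l 816)) (T.b (T.c (T.b (T.l 1) (T.a (T.l 816) (T.l 1))) (T.b (T.l 1) (T.a (T.l 816) (T.l 1)))) (T.l 816)))) (T.a (T.c (T.b (T.l 1) (T.c (T.b (T.a (T.l 816) (T.l 1)) (T.l 816)) (T.b (T.a (T.l 816) (T.l 1)) (T.l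 816)))) (T.b (T.l 1) (T.c (T.b (T.a (T.l 816) (T.l 1)) (T.l 816)) (T.b (T.a (T.l 816) (T.l 1)) (T.l 816))))) (T.l 1)))) (T.b (T.a (T.a (T.a (T.a (T.c (T.b (T.l 1) (T.c (T.b (T.l 1) (T.l 816)) (T.b (T.l 1) (T.l 816)))) (T.b (T.l 1) (T.c (T.b (T.l 1) (T.l 816)) (T.b (T.l 1) (T.l 816))))) (T.l 1)) (T.l 1)) (T.l 1)) (T.l 1)) (T.a (T.a (T.l 816) (T.c (T.b (T.c (T.b (T.l 1) (T.a (T.l 816) (T.l 1))) (T.b (T.l 1) (T.a (T.l 816) (T.l 1)))) (T.l 816)) (T.b (T.c (T.b (T.l 1) (T.l 816)) (T.b (T.l 1) (T.l 816))) (T.l 816)))) (T.a (T.c (T.b (T.l 1) (T.c (T.b (T.a (T.l 816) (T.l 1)) (T.l 816)) (T.b (T.a (T.l 816) (T.l 1)) (T.l 816)))) (T.b (T.l 1) (T.c (T.b (T.a (T.l 816) (T.l 1)) (T.l 816)) (T.b (T.a (T.l 816) (T.l 1)) (T.l 816))))) (T.l 1)))))) (T.b (T.l 1) (T.c (T.b (T.a (T.a (T.a (T.a (T.c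 (T.b (T.l 1) (T.c (T.b (T.l 1) (T.l 816)) (T.b (T.l 1) (T.l 816)))) (T.b (T.l 1) (T.c (T.b (T.l 1) (T.l 816)) (T.a (T.l 816) (T.l 1))))) (T.l 1)) (T.l 1)) (T.l 1)) (T.l 1)) (T.a (T.a (T.l 816) (T.c (T.b (T.c (T.b (T.l 1) (T.l 816)) (T.b (T.l 1) (T.l 816))) (T.l 816)) (T.b (T.c (T.b (T.l 1) (T.l 816)) (T.b (T.l 1) (T.l 816))) (T.l 816)))) (T.c (T.b (T.l 1) (T.a (T.c (T.b (T.a (T.l 816) (T.l 1)) (T.l 816)) (T.b (T.a (T.l 816) (T.l 1)) (T.l 816))) (T.l 1))) (T.b (T.l 1) (T.a (T.c (T.b (T.a (T.l 816) (T.l 1)) (T.l 816)) (T.b (T.a (T.l 816) (T.l 1)) (T.l 816))) (T.l 1)))))) (T.b (T.a (T.a (T.a (T.a (T.c (T.b (T.l 1) (T.a (T.l 816) (T.l 1))) (T.b (T.l 1) (T.a (T.l 816) (T.l 1)))) (T.l 1)) (T.l 1)) (T.l 1)) (T.l 1)) (T.a (T.a (T.l 816) (T.a (T.l 816) (T.c (T.b (T.l 1) (T.l 816)) (T.b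 (T.l 1) (T.l 816))))) (T.c (T.b (T.l 1) (T.a (T.c (T.b (T.a (T.l 816) (T.l 1)) (T.l 816)) (T.b (T.a (T.l 816) (T.l 1)) (T.l 816))) (T.l 1))) (T.b (T.l 1) (T.a (T.c (T.b (T.a (T.l 816) (T.l 1)) (T.l 816)) (T.b (T.a (T.l 816) (T.l 1)) (T.l 816))) (T.l 1))))))))) (T.l 1)), by decide +kernel⟩

def B102E_000_8_1537_4 :
    ∃ t, chk3 (onCell 0 33554432 0 1073741824 33554432 16777216 (corTK [] false 3 c0N cB102E gN0q1 gN0q2 gN0q0 gN1q0 true true)) t 8 1537 4 = true :=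
  ⟨(T.a (T.l 816) (T.c (T.b (T.a (T.a (T.l 816) (T.a (T.l 816) (T.a (T.l 816) (T.c (T.b (T.a (T.l 816) (T.c (T.b (T.c (T.b (T.l 1) (T.l 816)) (T.b (T.l 1) (T.l 816))) (T.l 816)) (T.b (T.c (T.b (T.l 1) (T.l 816)) (T.b (T.l 1) (T.l 816))) (T.l 816)))) (T.l 816)) (T.c (T.c (T.b (T.a (T.l 816) (T.b (T.b (T.l 1) (T.l 816)) (T.l 816))) (T.l 816)) (T.l 816)) (T.l 816)))))) (T.c (T.b (T.a (T.c (T.b (T.a (T.a (T.c (T.b (T.l 1) (T.l 816)) (T.b (T.l 1) (T.l 816))) (T.l 1)) (T.l 1)) (T.a (T.l 816) (T.c (T.b (T.l 1) (T.a (T.l 816) (T.l 1))) (T.b (T.l 1) (T.a (T.l 816) (T.l 1)))))) (T.b (T.a (T.a (T.c (T.b (T.l 1) (T.l 816)) (T.b (T.l 1) (T.l 816))) (T.l 1)) (T.l 1)) (T.a (T.l 816) (T.c (T.b (T.l 1) (T.a (T.l 816) (T.l 1))) (T.b (T.l 1) (T.a (T.l 816) (T.l 1))))))) (T.l 1)) (T.a (T.l 816)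 (T.c (T.b (T.a (T.c (T.b (T.a (T.l 816) (T.l 1)) (T.l 816)) (T.b (T.a (T.l 816) (T.l 1)) (T.l 816))) (T.l 1)) (T.a (T.l 816) (T.a (T.l 816) (T.c (T.b (T.l 1) (T.l 816)) (T.b (T.l 1) (T.l 816)))))) (T.b (T.a (T.c (T.b (T.a (T.l 816) (T.l 1)) (T.l 816)) (T.b (T.a (T.l 816) (T.l 1)) (T.l 816))) (T.l 1)) (T.a (T.l 816) (T.a (T.l 816) (T.c (T.b (T.l 1) (T.l 816)) (T.l 816)))))))) (T.b (T.a (T.c (T.b (T.a (T.a (T.c (T.b (T.l 1) (T.l 816)) (T.b (T.l 1) (T.l 816))) (T.l 1)) (T.l 1)) (T.a (T.l 816) (T.c (T.b (T.l 1) (T.l 816)) (T.b (T.l 1) (T.l 816))))) (T.b (T.a (T.a (T.c (T.b (T.l 1) (T.l 816)) (T.b (T.l 1) (T.l 816))) (T.l 1)) (T.l 1)) (T.a (T.l 816) (T.c (T.b (T.l 1) (T.l 816)) (T.b (T.l 1) (T.l 816)))))) (T.l 1)) (T.a (T.l 816) (T.c (T.b (T.a (T.c (T.b (T.a (T.l 816) (T.l 1)) (T.l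 816)) (T.b (T.a (T.l 816) (T.l 1)) (T.l 816))) (T.l 1)) (T.l 816)) (T.b (T.a (T.c (T.b (T.a (T.l 816) (T.l 1)) (T.l 816)) (T.b (T.a (T.l 816) (T.l 1)) (T.l 816))) (T.l 1)) (T.l 816))))))) (T.l 816)) (T.a (T.l 816) (T.b (T.c (T.b (T.a (T.c (T.b (T.a (T.a (T.c (T.b (T.l 1) (T.l 816)) (T.b (T.l 1) (T.l 816))) (T.l 1)) (T.l 1)) (T.a (T.l 816) (T.c (T.b (T.l 1) (T.l 816)) (T.b (T.l 1) (T.l 816))))) (T.b (T.a (T.a (T.c (T.b (T.l 1) (T.l 816)) (T.b (T.l 1) (T.l 816))) (T.l 1)) (T.l 1)) (T.a (T.l 816) (T.a (T.l 816) (T.l 1))))) (T.l 1)) (T.a (T.l 816) (T.c (T.b (T.a (T.c (T.b (T.a (T.l 816) (T.l 1)) (T.l 816)) (T.b (T.a (T.l 816) (T.l 1)) (T.l 816))) (T.l 1)) (T.l 816)) (T.b (T.a (T.c (T.b (T.a (T.l 816) (T.l 1)) (T.l 816)) (T.b (T.a (T.l 816) (T.l 1)) (T.l 816))) (T.l 1)) (T.l 816)))))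 (T.b (T.a (T.c (T.b (T.a (T.a (T.c (T.b (T.l 1) (T.l 816)) (T.a (T.l 816) (T.l 1))) (T.l 1)) (T.l 1)) (T.a (T.l 816) (T.a (T.l 816) (T.l 1)))) (T.b (T.a (T.a (T.a (T.l 816) (T.l 1)) (T.l 1)) (T.l 1)) (T.a (T.l 816) (T.a (T.l 816) (T.l 1))))) (T.l 1)) (T.a (T.l 816) (T.c (T.b (T.a (T.c (T.b (T.a (T.l 816) (T.l 1)) (T.l 816)) (T.b (T.a (T.l 816) (T.l 1)) (T.l 816))) (T.l 1)) (T.l 816)) (T.b (T.a (T.a (T.l 816) (T.a (T.l 816) (T.l 1))) (T.l 1)) (T.l 816)))))) (T.l 816))))), by decide +kernel⟩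

def B102E_000_8_768_5 :
    ∃ t, chk3 (onCell 0 33554432 0 1073741824 33554432 16777216 (corTK [] false 3 c0N cB102E gN0q1 gN0q2 gN0q0 gN1q0 true true)) t 8 768 5 = true :=
  ⟨(T.b (T.a (T.c (T.b (T.a (T.c (T.b (T.a (T.a (T.l 816) (T.a (T.l 816) (T.c (T.b (T.l 1) (T.l 816)) (T.b (T.l 1) (T.l 816))))) (T.c (T.b (T.l 1) (T.a (T.c (T.b (T.a (T.l 816) (T.l 1)) (T.l 816)) (T.b (T.a (T.l 816) (T.l 1)) (T.l 816))) (T.l 1))) (T.b (T.l 1) (T.a (T.c (T.b (T.a (T.l 816) (T.l 1)) (T.l 816)) (T.a (T.l 816) (T.a (T.l 816) (T.l 1)))) (T.l 1))))) (T.l 816)) (T.b (T.a (T.a (T.l 816) (T.a (T.l 816) (T.c (T.b (T.l 1) (T.l 816)) (T.b (T.l 1) (T.l 816))))) (T.c (T.b (T.l 1) (T.a (T.l 816) (T.l 1))) (T.b (T.l 1) (T.a (T.l 816) (T.l 1))))) (T.l 816))) (T.a (T.c (T.b (T.l 1) (T.c (T.b (T.a (T.a (T.c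 (T.b (T.l 1) (T.l 816)) (T.a (T.l 816) (T.l 1))) (T.l 1)) (T.l 1)) (T.a (T.l 816) (T.a (T.l 816) (T.l 1)))) (T.b (T.a (T.a (T.a (T.l 816) (T.l 1)) (T.l 1)) (T.l 1)) (T.a (T.l 816) (T.a (T.l 816) (T.l 1)))))) (T.b (T.l 1) (T.c (T.b (T.a (T.c (T.b (T.l 1) (T.l 816)) (T.b (T.l 1) (T.l 816))) (T.l 1)) (T.a (T.l 816) (T.a (T.l 816) (T.l 1)))) (T.b (T.a (T.c (T.b (T.l 1) (T.l 816)) (T.b (T.l 1) (T.l 816))) (T.l 1)) (T.a (T.l 816) (T.a (T.l 816) (T.l 1))))))) (T.l 1))) (T.a (T.l 816) (T.a (T.l 816) (T.c (T.b (T.c (T.b (T.a (T.c (T.b (T.a (T.l 816) (T.l 1)) (T.l 816)) (T.b (T.a (T.l 816) (T.l 1)) (T.l 816))) (T.l 1)) (T.l 816)) (T.b (T.a (T.a (T.l 816) (T.a (T.l 816) (T.l 1))) (T.l 1)) (T.l 816))) (T.l 816)) (T.a (T.l 816) (T.b (T.c (T.b (T.l 1) (T.l 816)) (T.b (T.l 1) (T.l 816))) (T.l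 816))))))) (T.b (T.a (T.c (T.b (T.a (T.a (T.l 816) (T.a (T.l 816) (T.c (T.b (T.l 1) (T.l 816)) (T.b (T.l 1) (T.l 816))))) (T.c (T.b (T.l 1) (T.a (T.l 816) (T.l 1))) (T.b (T.l 1) (T.a (T.l 816) (T.l 1))))) (T.l 816)) (T.b (T.a (T.a (T.l 816) (T.c (T.a (T.l 816) (T.b (T.l 1) (T.l 816))) (T.l 816))) (T.c (T.b (T.l 1) (T.a (T.l 816) (T.l 1))) (T.b (T.l 1) (T.a (T.l 816) (T.l 1))))) (T.l 816))) (T.a (T.c (T.b (T.l 1) (T.c (T.b (T.a (T.a (T.l 816) (T.l 1)) (T.l 1)) (T.a (T.l 816) (T.a (T.l 816) (T.l 1)))) (T.b (T.a (T.a (T.l 816) (T.l 1)) (T.l 1)) (T.a (T.l 816) (T.a (T.l 816) (T.l 1)))))) (T.b (T.l 1) (T.c (T.b (T.a (T.a (T.l 816) (T.l 1)) (T.l 1)) (T.a (T.l 816) (T.a (T.l 816) (T.l 1)))) (T.b (T.a (T.a (T.l 816) (T.l 1)) (T.l 1)) (T.l 816))))) (T.l 1))) (T.a (T.l 816) (T.a (T.l 816)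 (T.a (T.l 816) (T.c (T.b (T.c (T.b (T.l 1) (T.l 816)) (T.b (T.l 1) (T.l 816))) (T.l 816)) (T.b (T.c (T.b (T.l 1) (T.l 816)) (T.b (T.l 1) (T.l 816))) (T.l 816)))))))) (T.a (T.c (T.b (T.l 1) (T.c (T.b (T.a (T.a (T.a (T.a (T.c (T.b (T.l 1) (T.l 816)) (T.b (T.l 1) (T.l 816))) (T.l 1)) (T.l 1)) (T.l 1)) (T.l 1)) (T.a (T.a (T.l 816) (T.a (T.l 816) (T.c (T.b (T.l 1) (T.l 816)) (T.b (T.l 1) (T.l 816))))) (T.c (T.b (T.l 1) (T.a (T.a (T.l 816) (T.a (T.l 816) (T.l 1))) (T.l 1))) (T.b (T.l 1) (T.a (T.l 816) (T.l 1)))))) (T.b (T.a (T.a (T.a (T.a (T.c (T.b (T.l 1) (T.l 816)) (T.b (T.l 1) (T.l 816))) (T.l 1)) (T.l 1)) (T.l 1)) (T.l 1)) (T.a (T.a (T.l 816) (T.a (T.l 816) (T.c (T.b (T.l 1) (T.l 816)) (T.b (T.l 1) (T.l 816))))) (T.c (T.b (T.l 1) (T.a (T.l 816) (T.l 1))) (T.b (T.l 1) (T.a (T.l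 816) (T.l 1)))))))) (T.b (T.l 1) (T.c (T.b (T.a (T.a (T.a (T.c (T.b (T.l 1) (T.l 816)) (T.b (T.l 1) (T.l 816))) (T.l 1)) (T.l 1)) (T.l 1)) (T.a (T.a (T.l 816) (T.a (T.l 816) (T.c (T.b (T.l 1) (T.l 816)) (T.b (T.l 1) (T.l 816))))) (T.c (T.b (T.l 1) (T.a (T.l 816) (T.l 1))) (T.b (T.l 1) (T.a (T.l 816) (T.l 1)))))) (T.b (T.a (T.a (T.a (T.c (T.b (T.l 1) (T.l 816)) (T.b (T.l 1) (T.l 816))) (T.l 1)) (T.l 1)) (T.l 1)) (T.a (T.l 816) (T.c (T.b (T.l 1) (T.a (T.l 816) (T.l 1))) (T.b (T.l 1) (T.a (T.l 816) (T.l 1))))))))) (T.l 1))) (T.a (T.l 816) (T.a (T.l 816) (T.c (T.b (T.c (T.b (T.a (T.c (T.b (T.a (T.c (T.b (T.l 1) (T.l 816)) (T.b (T.l 1) (T.l 816))) (T.l 1)) (T.a (T.l 816) (T.a (T.l 816) (T.l 1)))) (T.b (T.a (T.c (T.b (T.l 1) (T.l 816)) (T.b (T.l 1) (T.l 816))) (T.l 1)) (T.a (T.l 816)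 (T.a (T.l 816) (T.l 1))))) (T.l 1)) (T.a (T.l 816) (T.a (T.l 816) (T.c (T.b (T.l 1) (T.l 816)) (T.b (T.l 1) (T.l 816)))))) (T.b (T.a (T.c (T.b (T.a (T.c (T.b (T.l 1) (T.l 816)) (T.a (T.l 816) (T.l 1))) (T.l 1)) (T.a (T.l 816) (T.a (T.l 816) (T.l 1)))) (T.b (T.a (T.a (T.l 816) (T.l 1)) (T.l 1)) (T.a (T.l 816) (T.a (T.l 816) (T.l 1))))) (T.l 1)) (T.a (T.l 816) (T.a (T.l 816) (T.c (T.b (T.l 1) (T.l 816)) (T.b (T.l 1) (T.l 816))))))) (T.l 816)) (T.b (T.c (T.b (T.a (T.c (T.b (T.a (T.a (T.l 816) (T.l 1)) (T.l 1)) (T.a (T.l 816) (T.a (T.l 816) (T.l 1)))) (T.b (T.a (T.a (T.l 816) (T.l 1)) (T.l 1)) (T.l 816))) (T.l 1)) (T.a (T.l 816) (T.a (T.l 816) (T.c (T.b (T.l 1) (T.l 816)) (T.b (T.l 1) (T.l 816)))))) (T.b (T.a (T.c (T.b (T.a (T.a (T.l 816) (T.l 1)) (T.l 1)) (T.l 816)) (T.b (T.a (T.a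 (T.l 816) (T.l 1)) (T.l 1)) (T.l 816))) (T.l 1)) (T.a (T.l 816) (T.a (T.l 816) (T.c (T.b (T.l 1) (T.l 816)) (T.b (T.l 1) (T.l 816))))))) (T.l 816)))))), by decide +kernel⟩

def B102E_000_8_769_2 :
    ∃ t, chk3 (onCell 0 33554432 0 1073741824 33554432 16777216 (corTK [] false 3 c0N cB102E gN0q1 gN0q2 gN0q0 gN1q0 true true)) t 8 769 2 = true :=
  ⟨(T.l 816), by decide +kernel⟩

def B102E_000_8_384_3 :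
    ∃ t, chk3 (onCell 0 33554432 0 1073741824 33554432 16777216 (corTK [] false 3 c0N cB102E gN0q1 gN0q2 gN0q0 gN1q0 true true)) t 8 384 3 = true :=
  ⟨(T.b (T.c (T.b (T.a (T.c (T.b (T.a (T.a (T.l 816) (T.c (T.b (T.c (T.b (T.l 1) (T.a (T.l 816) (T.l 1))) (T.b (T.l 1) (T.a (T.l 816) (T.l 1)))) (T.l 816)) (T.b (T.c (T.b (T.l 1) (T.a (T.l 816) (T.l 1))) (T.b (T.l 1) (T.a (T.l 816) (T.l 1)))) (T.l 816)))) (T.a (T.c (T.b (T.l 1) (T.c (T.b (T.a (T.a (T.l 816) (T.l 1)) (T.l 1)) (T.l 816)) (T.b (T.a (T.a (T.l 816) (T.l 1)) (T.l 1)) (T.l 816)))) (T.b (T.l 1) (T.c (T.b (T.a (T.a (T.l 816) (T.l 1)) (T.l 1)) (T.l 816)) (T.b (T.a (T.l 816) (T.l 1)) (T.l 816))))) (T.l 1))) (T.a (T.l 816) (T.a (T.l 816) (T.a (T.l 816) (T.c (T.b (T.c (T.b (T.l 1) (T.l 816)) (T.b (T.l 1) (T.l 816))) (T.l 816))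 (T.a (T.l 816) (T.b (T.c (T.b (T.l 1) (T.l 816)) (T.b (T.l 1) (T.l 816))) (T.l 816)))))))) (T.b (T.a (T.a (T.l 816) (T.c (T.b (T.c (T.b (T.l 1) (T.a (T.l 816) (T.l 1))) (T.b (T.l 1) (T.a (T.l 816) (T.l 1)))) (T.l 816)) (T.b (T.c (T.b (T.l 1) (T.a (T.l 816) (T.l 1))) (T.b (T.l 1) (T.a (T.l 816) (T.l 1)))) (T.l 816)))) (T.a (T.c (T.b (T.l 1) (T.c (T.b (T.a (T.l 816) (T.l 1)) (T.l 816)) (T.b (T.a (T.l 816) (T.l 1)) (T.l 816)))) (T.b (T.l 1) (T.c (T.b (T.a (T.l 816) (T.l 1)) (T.l 816)) (T.b (T.a (T.l 816) (T.l 1)) (T.l 816))))) (T.l 1))) (T.a (T.l 816) (T.a (T.l 816) (T.a (T.l 816) (T.a (T.l 816) (T.c (T.b (T.c (T.b (T.l 1) (T.l 816)) (T.b (T.l 1) (T.l 816))) (T.l 816)) (T.c (T.b (T.b (T.l 1) (T.l 816)) (T.l 816)) (T.l 816))))))))) (T.a (T.c (T.b (T.l 1) (T.c (T.b (T.a (T.a (T.a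 (T.c (T.b (T.l 1) (T.l 816)) (T.b (T.l 1) (T.l 816))) (T.l 1)) (T.l 1)) (T.l 1)) (T.a (T.l 816) (T.c (T.b (T.l 1) (T.a (T.l 816) (T.l 1))) (T.b (T.l 1) (T.a (T.l 816) (T.l 1)))))) (T.b (T.a (T.a (T.a (T.c (T.b (T.l 1) (T.l 816)) (T.b (T.l 1) (T.l 816))) (T.l 1)) (T.l 1)) (T.l 1)) (T.a (T.l 816) (T.c (T.b (T.l 1) (T.a (T.l 816) (T.l 1))) (T.b (T.l 1) (T.a (T.l 816) (T.l 1)))))))) (T.b (T.l 1) (T.c (T.b (T.a (T.a (T.c (T.b (T.l 1) (T.l 816)) (T.b (T.l 1) (T.l 816))) (T.l 1)) (T.l 1)) (T.a (T.l 816) (T.c (T.b (T.l 1) (T.a (T.l 816) (T.l 1))) (T.b (T.l 1) (T.a (T.l 816) (T.l 1)))))) (T.b (T.a (T.a (T.c (T.b (T.l 1) (T.l 816)) (T.b (T.l 1) (T.l 816))) (T.l 1)) (T.l 1)) (T.a (T.l 816) (T.c (T.b (T.l 1) (T.a (T.l 816) (T.l 1))) (T.b (T.l 1) (T.l 816)))))))) (T.l 1))) (T.a (T.l 816)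 (T.a (T.l 816) (T.c (T.b (T.c (T.b (T.a (T.c (T.b (T.a (T.a (T.l 816) (T.l 1)) (T.l 1)) (T.l 816)) (T.b (T.a (T.a (T.l 816) (T.l 1)) (T.l 1)) (T.l 816))) (T.l 1)) (T.a (T.l 816) (T.a (T.l 816) (T.c (T.b (T.l 1) (T.l 816)) (T.b (T.l 1) (T.l 816)))))) (T.b (T.a (T.c (T.b (T.a (T.l 816) (T.l 1)) (T.l 816)) (T.b (T.a (T.l 816) (T.l 1)) (T.l 816))) (T.l 1)) (T.a (T.l 816) (T.a (T.l 816) (T.c (T.b (T.l 1) (T.l 816)) (T.b (T.l 1) (T.l 816))))))) (T.l 816)) (T.b (T.c (T.b (T.a (T.c (T.b (T.a (T.l 816) (T.l 1)) (T.l 816)) (T.b (T.a (T.l 816) (T.l 1)) (T.l 816))) (T.l 1)) (T.a (T.l 816) (T.a (T.l 816) (T.c (T.b (T.l 1) (T.l 816)) (T.b (T.l 1) (T.l 816)))))) (T.b (T.a (T.c (T.b (T.a (T.l 816) (T.l 1)) (T.l 816)) (T.b (T.a (T.l 816) (T.l 1)) (T.l 816))) (T.l 1)) (T.l 816))) (T.l 816))))))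 (T.b (T.a (T.c (T.b (T.a (T.a (T.l 816) (T.c (T.b (T.c (T.b (T.l 1) (T.l 816)) (T.b (T.l 1) (T.l 816))) (T.l 816)) (T.b (T.c (T.b (T.l 1) (T.l 816)) (T.b (T.l 1) (T.l 816))) (T.l 816)))) (T.c (T.b (T.l 1) (T.a (T.c (T.b (T.a (T.l 816) (T.l 1)) (T.l 816)) (T.b (T.a (T.l 816) (T.l 1)) (T.l 816))) (T.l 1))) (T.b (T.l 1) (T.a (T.c (T.b (T.a (T.l 816) (T.l 1)) (T.l 816)) (T.b (T.a (T.l 816) (T.l 1)) (T.l 816))) (T.l 1))))) (T.l 816)) (T.b (T.a (T.a (T.l 816) (T.a (T.l 816) (T.c (T.b (T.l 1) (T.l 816)) (T.b (T.l 1) (T.l 816))))) (T.c (T.b (T.l 1) (T.a (T.c (T.b (T.a (T.l 816) (T.l 1)) (T.l 816)) (T.b (T.a (T.l 816) (T.l 1)) (T.l 816))) (T.l 1))) (T.b (T.l 1) (T.a (T.c (T.b (T.a (T.l 816) (T.l 1)) (T.l 816)) (T.l 816)) (T.l 1))))) (T.l 816))) (T.a (T.c (T.b (T.l 1) (T.c (T.b (T.a (T.a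 (T.c (T.b (T.l 1) (T.l 816)) (T.b (T.l 1) (T.l 816))) (T.l 1)) (T.l 1)) (T.a (T.l 816) (T.c (T.b (T.l 1) (T.l 816)) (T.b (T.l 1) (T.l 816))))) (T.b (T.a (T.a (T.c (T.b (T.l 1) (T.l 816)) (T.b (T.l 1) (T.l 816))) (T.l 1)) (T.l 1)) (T.a (T.l 816) (T.c (T.b (T.l 1) (T.l 816)) (T.a (T.l 816) (T.l 1))))))) (T.b (T.l 1) (T.c (T.b (T.a (T.a (T.c (T.b (T.l 1) (T.l 816)) (T.a (T.l 816) (T.l 1))) (T.l 1)) (T.l 1)) (T.a (T.l 816) (T.a (T.l 816) (T.l 1)))) (T.b (T.a (T.a (T.a (T.l 816) (T.l 1)) (T.l 1)) (T.l 1)) (T.a (T.l 816) (T.a (T.l 816) (T.l 1))))))) (T.l 1))) (T.a (T.l 816) (T.a (T.l 816) (T.c (T.b (T.c (T.b (T.a (T.c (T.b (T.a (T.l 816) (T.l 1)) (T.l 816)) (T.b (T.a (T.l 816) (T.l 1)) (T.l 816))) (T.l 1)) (T.l 816)) (T.b (T.a (T.c (T.b (T.a (T.l 816) (T.l 1)) (T.l 816)) (T.b (T.a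 (T.l 816) (T.l 1)) (T.l 816))) (T.l 1)) (T.l 816))) (T.l 816)) (T.b (T.c (T.b (T.a (T.c (T.b (T.a (T.l 816) (T.l 1)) (T.l 816)) (T.b (T.a (T.l 816) (T.l 1)) (T.l 816))) (T.l 1)) (T.l 816)) (T.b (T.a (T.a (T.l 816) (T.a (T.l 816) (T.l 1))) (T.l 1)) (T.l 816))) (T.l 816))))))) (T.l 816)), by decide +kernel⟩

def B102E_000_8_385_1 :
    ∃ t, chk3 (onCell 0 33554432 0 1073741824 33554432 16777216 (corTK [] false 3 c0N cB102E gN0q1 gN0q2 gN0q0 gN1q0 true true)) t 8 385 1 = true :=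
  ⟨(T.l 816), by decide +kernel⟩

def B102E_000_8_193_1 :
    ∃ t, chk3 (onCell 0 33554432 0 1073741824 33554432 16777216 (corTK [] false 3 c0N cB102E gN0q1 gN0q2 gN0q0 gN1q0 true true)) t 8 193 1 = true :=
  ⟨(T.l 816), by decide +kernel⟩

def B102E_000_8_97_1 :
    ∃ t, chk3 (onCell 0 33554432 0 1073741824 33554432 16777216 (corTK [] false 3 c0N cB102E gN0q1 gN0q2 gN0q0 gN1q0 true true)) t 8 97 1 = true :=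
  ⟨(T.l 816), by decide +kernel⟩

def B102E_000_8_49_1 :
    ∃ t, chk3 (onCell 0 33554432 0 1073741824 33554432 16777216 (corTK [] false 3 c0N cB102E gN0q1 gN0q2 gN0q0 gN1q0 true true)) t 8 49 1 = true :=
  ⟨(T.l 816), by decide +kernel⟩

def B102E_000_8_25_1 :
    ∃ t, chk3 (onCell 0 33554432 0 1073741824 33554432 16777216 (corTK [] false 3 c0N cB102E gN0q1 gN0q2 gN0q0 gN1q0 true true)) t 8 25 1 = true :=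
  ⟨(T.l 816), by decide +kernel⟩

def B102E_000_18_768_2 :
    ∃ t, chk3 (onCell 0 33554432 0 1073741824 33554432 16777216 (corTK [] false 3 c0N cB102E gN0q1 gN0q2 gN0q0 gN1q0 true true)) t 18 768 2 = true :=
  ⟨(T.c (T.b (T.l 1) (T.c (T.b (T.a (T.a (T.a (T.a (T.c (T.b (T.l 1) (T.a (T.c (T.b (T.l 1) (T.c (T.b (T.l 1) (T.l 816)) (T.b (T.l 1) (T.l 816)))) (T.b (T.l 1) (T.c (T.b (T.l 1) (T.l 816)) (T.b (T.l 1) (T.l 816))))) (T.l 1))) (T.b (T.l 1) (T.a (T.c (T.b (T.l 1) (T.c (T.b (T.l 1) (T.l 816)) (T.b (T.l 1) (T.l 816)))) (T.b (T.l 1) (T.c (T.b (T.l 1) (T.l 816)) (T.a (T.l 816) (T.l 1))))) (T.l 1)))) (T.l 1)) (T.l 1)) (T.l 1)) (T.l 1)) (T.a (T.c (T.b (T.a (T.a (T.l 816) (T.c (T.b (T.c (T.b (T.l 1) (T.a (T.l 816) (T.l 1))) (T.b (T.l 1) (T.l 816))) (T.l 816)) (T.b (T.c (T.b (T.l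 1) (T.l 816)) (T.b (T.l 1) (T.l 816))) (T.l 816)))) (T.a (T.c (T.b (T.l 1) (T.c (T.b (T.a (T.l 816) (T.l 1)) (T.l 816)) (T.b (T.a (T.l 816) (T.l 1)) (T.l 816)))) (T.b (T.l 1) (T.c (T.b (T.a (T.l 816) (T.l 1)) (T.l 816)) (T.b (T.a (T.l 816) (T.l 1)) (T.l 816))))) (T.l 1))) (T.a (T.l 816) (T.l 816))) (T.b (T.a (T.a (T.l 816) (T.c (T.b (T.c (T.b (T.l 1) (T.l 816)) (T.b (T.l 1) (T.l 816))) (T.l 816)) (T.b (T.c (T.b (T.l 1) (T.l 816)) (T.b (T.l 1) (T.l 816))) (T.l 816)))) (T.c (T.b (T.l 1) (T.a (T.c (T.b (T.a (T.l 816) (T.l 1)) (T.l 816)) (T.b (T.a (T.l 816) (T.l 1)) (T.l 816))) (T.l 1))) (T.b (T.l 1) (T.a (T.c (T.b (T.a (T.l 816) (T.l 1)) (T.l 816)) (T.b (T.a (T.l 816) (T.l 1)) (T.l 816))) (T.l 1))))) (T.l 816))) (T.a (T.c (T.b (T.l 1) (T.c (T.b (T.a (T.a (T.c (T.b (T.l 1) (T.l 816))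 (T.b (T.l 1) (T.l 816))) (T.l 1)) (T.l 1)) (T.a (T.l 816) (T.c (T.b (T.l 1) (T.l 816)) (T.b (T.l 1) (T.l 816))))) (T.b (T.a (T.a (T.c (T.b (T.l 1) (T.l 816)) (T.b (T.l 1) (T.l 816))) (T.l 1)) (T.l 1)) (T.a (T.l 816) (T.c (T.b (T.l 1) (T.l 816)) (T.b (T.l 1) (T.l 816))))))) (T.b (T.l 1) (T.c (T.b (T.a (T.a (T.c (T.b (T.l 1) (T.l 816)) (T.b (T.l 1) (T.l 816))) (T.l 1)) (T.l 1)) (T.a (T.l 816) (T.c (T.b (T.l 1) (T.l 816)) (T.a (T.l 816) (T.l 1))))) (T.b (T.a (T.a (T.c (T.b (T.l 1) (T.l 816)) (T.b (T.l 1) (T.l 816))) (T.l 1)) (T.l 1)) (T.a (T.l 816) (T.a (T.l 816) (T.l 1))))))) (T.l 1)))) (T.b (T.a (T.a (T.a (T.a (T.c (T.b (T.l 1) (T.a (T.c (T.b (T.l 1) (T.a (T.l 816) (T.l 1))) (T.b (T.l 1) (T.a (T.l 816) (T.l 1)))) (T.l 1))) (T.b (T.l 1) (T.a (T.c (T.b (T.l 1) (T.l 816)) (T.b (T.l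 1) (T.l 816))) (T.l 1)))) (T.l 1)) (T.l 1)) (T.l 1)) (T.l 1)) (T.a (T.c (T.b (T.a (T.a (T.l 816) (T.a (T.l 816) (T.c (T.b (T.l 1) (T.l 816)) (T.b (T.l 1) (T.l 816))))) (T.c (T.b (T.l 1) (T.a (T.c (T.b (T.a (T.l 816) (T.l 1)) (T.l 816)) (T.b (T.a (T.l 816) (T.l 1)) (T.l 816))) (T.l 1))) (T.b (T.l 1) (T.a (T.c (T.b (T.a (T.l 816) (T.l 1)) (T.l 816)) (T.b (T.a (T.l 816) (T.l 1)) (T.l 816))) (T.l 1))))) (T.l 816)) (T.b (T.a (T.a (T.l 816) (T.a (T.l 816) (T.c (T.b (T.l 1) (T.l 816)) (T.b (T.l 1) (T.l 816))))) (T.c (T.b (T.l 1) (T.a (T.a (T.l 816) (T.a (T.l 816) (T.l 1))) (T.l 1))) (T.b (T.l 1) (T.a (T.l 816) (T.l 1))))) (T.l 816))) (T.a (T.c (T.b (T.l 1) (T.c (T.b (T.a (T.a (T.c (T.b (T.l 1) (T.l 816)) (T.a (T.l 816) (T.l 1))) (T.l 1)) (T.l 1)) (T.a (T.l 816) (T.a (T.l 816) (T.l 1))))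 (T.b (T.a (T.a (T.a (T.l 816) (T.l 1)) (T.l 1)) (T.l 1)) (T.a (T.l 816) (T.a (T.l 816) (T.l 1)))))) (T.b (T.l 1) (T.c (T.b (T.a (T.c (T.b (T.l 1) (T.l 816)) (T.b (T.l 1) (T.l 816))) (T.l 1)) (T.a (T.l 816) (T.a (T.l 816) (T.l 1)))) (T.b (T.a (T.c (T.b (T.l 1) (T.l 816)) (T.b (T.l 1) (T.l 816))) (T.l 1)) (T.a (T.l 816) (T.a (T.l 816) (T.l 1))))))) (T.l 1)))))) (T.b (T.l 1) (T.c (T.b (T.a (T.a (T.a (T.a (T.c (T.b (T.l 1) (T.a (T.c (T.b (T.l 1) (T.l 816)) (T.b (T.l 1) (T.l 816))) (T.l 1))) (T.b (T.l 1) (T.c (T.b (T.l 1) (T.l 816)) (T.b (T.l 1) (T.l 816))))) (T.l 1)) (T.l 1)) (T.l 1)) (T.l 1)) (T.a (T.c (T.b (T.a (T.a (T.l 816) (T.a (T.l 816) (T.c (T.b (T.l 1) (T.l 816)) (T.b (T.l 1) (T.l 816))))) (T.c (T.b (T.l 1) (T.a (T.l 816) (T.l 1))) (T.b (T.l 1) (T.a (T.l 816) (T.l 1)))))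 (T.l 816)) (T.b (T.a (T.a (T.l 816) (T.a (T.l 816) (T.c (T.b (T.l 1) (T.l 816)) (T.b (T.l 1) (T.l 816))))) (T.c (T.b (T.l 1) (T.a (T.l 816) (T.l 1))) (T.b (T.l 1) (T.a (T.l 816) (T.l 1))))) (T.l 816))) (T.a (T.c (T.b (T.l 1) (T.c (T.b (T.a (T.c (T.b (T.l 1) (T.l 816)) (T.b (T.l 1) (T.l 816))) (T.l 1)) (T.a (T.l 816) (T.a (T.l 816) (T.l 1)))) (T.b (T.a (T.a (T.l 816) (T.l 1)) (T.l 1)) (T.a (T.l 816) (T.a (T.l 816) (T.l 1)))))) (T.b (T.l 1) (T.c (T.b (T.a (T.a (T.l 816) (T.l 1)) (T.l 1)) (T.a (T.l 816) (T.a (T.l 816) (T.l 1)))) (T.b (T.a (T.a (T.l 816) (T.l 1)) (T.l 1)) (T.a (T.l 816) (T.l 816)))))) (T.l 1)))) (T.b (T.a (T.a (T.a (T.a (T.c (T.b (T.l 1) (T.c (T.b (T.l 1) (T.l 816)) (T.b (T.l 1) (T.l 816)))) (T.b (T.l 1) (T.c (T.b (T.l 1) (T.l 816)) (T.b (T.l 1) (T.l 816))))) (T.l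 1)) (T.l 1)) (T.l 1)) (T.l 1)) (T.a (T.c (T.a (T.l 816) (T.b (T.c (T.b (T.l 1) (T.a (T.l 816) (T.l 1))) (T.b (T.l 1) (T.a (T.l 816) (T.l 1)))) (T.l 816))) (T.a (T.l 816) (T.b (T.c (T.b (T.l 1) (T.a (T.l 816) (T.l 1))) (T.b (T.l 1) (T.a (T.l 816) (T.l 1)))) (T.l 816)))) (T.a (T.c (T.b (T.l 1) (T.c (T.b (T.a (T.a (T.l 816) (T.l 1)) (T.l 1)) (T.l 816)) (T.b (T.a (T.a (T.l 816) (T.l 1)) (T.l 1)) (T.l 816)))) (T.b (T.l 1) (T.c (T.b (T.a (T.a (T.l 816) (T.l 1)) (T.l 1)) (T.l 816)) (T.b (T.a (T.a (T.l 816) (T.l 1)) (T.l 1)) (T.l 816))))) (T.l 1))))))), by decide +kernel⟩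

def B102E_000_18_769_2 :
    ∃ t, chk3 (onCell 0 33554432 0 1073741824 33554432 16777216 (corTK [] false 3 c0N cB102E gN0q1 gN0q2 gN0q0 gN1q0 true true)) t 18 769 2 = true :=
  ⟨(T.a (T.l 816) (T.a (T.l 816) (T.c (T.b (T.c (T.b (T.c (T.b (T.c (T.b (T.a (T.c (T.b (T.a (T.l 816) (T.l 1)) (T.l 816)) (T.b (T.a (T.l 816) (T.l 1)) (T.l 816))) (T.l 1)) (T.l 816)) (T.b (T.a (T.c (T.b (T.a (T.l 816) (T.l 1)) (T.l 816)) (T.b (T.a (T.l 816) (T.l 1)) (T.l 816))) (T.l 1)) (T.l 816))) (T.l 816)) (T.b (T.c (T.b (T.a (T.c (T.b (T.a (T.l 816) (T.l 1)) (T.l 816)) (T.b (T.a (T.l 816) (T.l 1)) (T.l 816))) (T.l 1)) (T.l 816)) (T.b (T.a (T.c (T.b (T.a (T.l 816) (T.l 1)) (T.l 816)) (T.b (T.a (T.l 816) (T.l 1)) (T.l 816))) (T.l 1)) (T.l 816))) (T.l 816))) (T.l 816)) (T.b (T.c (T.b (T.c (T.b (T.a (T.c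 (T.b (T.a (T.l 816) (T.l 1)) (T.l 816)) (T.b (T.a (T.l 816) (T.l 1)) (T.l 816))) (T.l 1)) (T.l 816)) (T.b (T.a (T.c (T.b (T.l 820) (T.l 816)) (T.l 816)) (T.l 1)) (T.l 816))) (T.l 816)) (T.a (T.l 816) (T.b (T.c (T.b (T.l 1) (T.l 816)) (T.b (T.l 1) (T.l 816))) (T.l 816)))) (T.l 816))) (T.l 816)) (T.b (T.a (T.l 816) (T.c (T.b (T.c (T.b (T.c (T.b (T.l 1) (T.l 816)) (T.b (T.l 1) (T.l 816))) (T.l 816)) (T.b (T.c (T.b (T.l 1) (T.l 816)) (T.b (T.l 1) (T.l 816))) (T.l 816))) (T.l 816)) (T.b (T.c (T.b (T.c (T.b (T.l 1) (T.l 816)) (T.b (T.l 1) (T.l 816))) (T.l 816)) (T.a (T.l 816) (T.b (T.c (T.b (T.l 1) (T.l 816)) (T.b (T.l 1) (T.l 816))) (T.l 816)))) (T.l 816)))) (T.l 816))))), by decide +kernel⟩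

def B102E_000_18_384_3 :
    ∃ t, chk3 (onCell 0 33554432 0 1073741824 33554432 16777216 (corTK [] false 3 c0N cB102E gN0q1 gN0q2 gN0q0 gN1q0 true true)) t 18 384 3 = true :=
  ⟨(T.b (T.c (T.b (T.l 1) (T.c (T.b (T.a (T.a (T.a (T.a (T.c (T.b (T.l 1) (T.c (T.b (T.l 1) (T.l 816)) (T.b (T.l 1) (T.l 816)))) (T.b (T.l 1) (T.c (T.b (T.l 1) (T.l 816)) (T.b (T.l 1) (T.l 816))))) (T.l 1)) (T.l 1)) (T.l 1)) (T.l 1)) (T.a (T.a (T.l 816) (T.c (T.b (T.c (T.b (T.l 1) (T.a (T.l 816) (T.l 1))) (T.b (T.l 1) (T.a (T.l 816) (T.l 1)))) (T.l 816)) (T.b (T.c (T.b (T.l 1) (T.a (T.l 816) (T.l 1))) (T.b (T.l 1) (T.a (T.l 816) (T.l 1)))) (T.l 816)))) (T.a (T.c (T.b (T.l 1) (T.c (T.b (T.a (T.a (T.l 816) (T.l 1)) (T.l 1)) (T.l 816)) (T.b (T.a (T.l 816) (T.l 1)) (T.l 816)))) (T.b (T.l 1) (T.c (T.b (T.a (T.l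 816) (T.l 1)) (T.l 816)) (T.b (T.a (T.l 816) (T.l 1)) (T.l 816))))) (T.l 1)))) (T.b (T.a (T.a (T.a (T.a (T.c (T.b (T.l 1) (T.c (T.b (T.l 1) (T.l 816)) (T.b (T.l 1) (T.l 816)))) (T.b (T.l 1) (T.c (T.b (T.l 1) (T.l 816)) (T.b (T.l 1) (T.l 816))))) (T.l 1)) (T.l 1)) (T.l 1)) (T.l 1)) (T.a (T.a (T.l 816) (T.c (T.b (T.c (T.b (T.l 1) (T.a (T.l 816) (T.l 1))) (T.b (T.l 1) (T.a (T.l 816) (T.l 1)))) (T.l 816)) (T.b (T.c (T.b (T.l 1) (T.l 816)) (T.b (T.l 1) (T.l 816))) (T.l 816)))) (T.a (T.c (T.b (T.l 1) (T.c (T.b (T.a (T.l 816) (T.l 1)) (T.l 816)) (T.b (T.a (T.l 816) (T.l 1)) (T.l 816)))) (T.b (T.l 1) (T.c (T.b (T.a (T.l 816) (T.l 1)) (T.l 816)) (T.b (T.a (T.l 816) (T.l 1)) (T.l 816))))) (T.l 1)))))) (T.b (T.l 1) (T.c (T.b (T.a (T.a (T.a (T.a (T.c (T.b (T.l 1) (T.c (T.b (T.l 1) (T.l 816))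 (T.a (T.l 816) (T.l 1)))) (T.b (T.l 1) (T.a (T.l 816) (T.l 1)))) (T.l 1)) (T.l 1)) (T.l 1)) (T.l 1)) (T.a (T.a (T.l 816) (T.c (T.b (T.c (T.b (T.l 1) (T.l 816)) (T.b (T.l 1) (T.l 816))) (T.l 816)) (T.a (T.l 816) (T.b (T.l 1) (T.l 816))))) (T.c (T.b (T.l 1) (T.a (T.c (T.b (T.a (T.l 816) (T.l 1)) (T.l 816)) (T.b (T.a (T.l 816) (T.l 1)) (T.l 816))) (T.l 1))) (T.b (T.l 1) (T.a (T.c (T.b (T.a (T.l 816) (T.l 1)) (T.l 816)) (T.b (T.a (T.l 816) (T.l 1)) (T.l 816))) (T.l 1)))))) (T.b (T.a (T.a (T.a (T.a (T.c (T.b (T.l 1) (T.a (T.l 816) (T.l 1))) (T.b (T.l 1) (T.l 816))) (T.l 1)) (T.l 1)) (T.l 1)) (T.l 1)) (T.a (T.a (T.l 816) (T.a (T.l 816) (T.c (T.b (T.l 1) (T.l 816)) (T.b (T.l 1) (T.l 816))))) (T.c (T.b (T.l 1) (T.a (T.c (T.b (T.a (T.l 816) (T.l 1)) (T.l 816)) (T.a (T.l 816) (T.a (T.l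 816) (T.l 1)))) (T.l 1))) (T.b (T.l 1) (T.a (T.l 816) (T.l 1))))))))) (T.c (T.a (T.l 816) (T.a (T.l 816) (T.b (T.a (T.l 816) (T.c (T.b (T.a (T.l 816) (T.c (T.b (T.c (T.b (T.l 1) (T.l 816)) (T.b (T.l 1) (T.l 816))) (T.l 816)) (T.b (T.c (T.b (T.l 1) (T.l 816)) (T.b (T.l 1) (T.l 816))) (T.l 816)))) (T.l 816)) (T.c (T.c (T.b (T.a (T.l 816) (T.b (T.b (T.l 1) (T.l 816)) (T.l 816))) (T.l 816)) (T.l 816)) (T.l 816)))) (T.l 816)))) (T.l 816))), by decide +kernel⟩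

def B102E_000_18_385_1 :
    ∃ t, chk3 (onCell 0 33554432 0 1073741824 33554432 16777216 (corTK [] false 3 c0N cB102E gN0q1 gN0q2 gN0q0 gN1q0 true true)) t 18 385 1 = true :=
  ⟨(T.l 816), by decide +kernel⟩

def B102E_000_19_384_2 :
    ∃ t, chk3 (onCell 0 33554432 0 1073741824 33554432 16777216 (corTK [] false 3 c0N cB102E gN0q1 gN0q2 gN0q0 gN1q0 true true)) t 19 384 2 = true :=
  ⟨(T.b (T.l 1) (T.c (T.b (T.c (T.b (T.a (T.c (T.b (T.a (T.a (T.a (T.a (T.c (T.b (T.l 1) (T.c (T.b (T.l 1) (T.l 816)) (T.b (T.l 1) (T.l 816)))) (T.b (T.l 1) (T.a (T.l 816) (T.l 1)))) (T.l 1)) (T.l 1)) (T.l 1)) (T.l 1)) (T.a (T.a (T.l 816) (T.c (T.b (T.c (T.b (T.l 1) (T.l 816)) (T.b (T.l 1) (T.l 816))) (T.l 816)) (T.b (T.c (T.b (T.l 1) (T.l 816)) (T.a (T.l 816) (T.l 1))) (T.l 816)))) (T.c (T.b (T.l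 1) (T.a (T.c (T.b (T.a (T.l 816) (T.l 1)) (T.l 816)) (T.b (T.a (T.l 816) (T.l 1)) (T.l 816))) (T.l 1))) (T.b (T.l 1) (T.a (T.c (T.b (T.a (T.l 816) (T.l 1)) (T.l 816)) (T.b (T.a (T.l 816) (T.l 1)) (T.l 816))) (T.l 1)))))) (T.b (T.a (T.a (T.a (T.a (T.c (T.b (T.l 1) (T.a (T.l 816) (T.l 1))) (T.b (T.l 1) (T.l 820))) (T.l 1)) (T.l 1)) (T.l 1)) (T.l 1)) (T.a (T.a (T.l 816) (T.c (T.b (T.a (T.l 816) (T.l 1)) (T.l 816)) (T.b (T.a (T.l 816) (T.l 1)) (T.l 816)))) (T.c (T.b (T.l 1) (T.a (T.c (T.b (T.a (T.l 816) (T.l 1)) (T.l 816)) (T.b (T.a (T.l 816) (T.l 1)) (T.l 816))) (T.l 1))) (T.b (T.l 1) (T.a (T.c (T.b (T.l 884) (T.l 816)) (T.b (T.l 884) (T.l 816))) (T.l 1))))))) (T.l 1)) (T.a (T.l 816) (T.c (T.b (T.a (T.c (T.b (T.a (T.a (T.c (T.b (T.l 1) (T.l 816)) (T.b (T.l 1) (T.l 816))) (T.l 1))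 (T.l 1)) (T.a (T.l 816) (T.a (T.l 816) (T.l 1)))) (T.b (T.a (T.a (T.a (T.l 884) (T.l 1)) (T.l 1)) (T.l 1)) (T.a (T.l 816) (T.a (T.l 816) (T.l 1))))) (T.l 1)) (T.a (T.l 816) (T.c (T.b (T.a (T.c (T.b (T.a (T.l 816) (T.l 1)) (T.l 816)) (T.a (T.l 816) (T.a (T.l 816) (T.l 1)))) (T.l 1)) (T.l 816)) (T.b (T.a (T.c (T.b (T.l 884) (T.l 816)) (T.b (T.l 884) (T.l 816))) (T.l 1)) (T.l 816))))) (T.b (T.a (T.c (T.b (T.a (T.c (T.b (T.l 1) (T.l 884)) (T.b (T.l 1) (T.l 884))) (T.l 1)) (T.a (T.l 816) (T.a (T.l 816) (T.l 1)))) (T.b (T.a (T.c (T.b (T.l 1) (T.l 820)) (T.b (T.l 1) (T.l 816))) (T.l 1)) (T.a (T.l 816) (T.a (T.l 816) (T.l 1))))) (T.l 1)) (T.a (T.l 816) (T.c (T.b (T.a (T.c (T.b (T.l 884) (T.l 816)) (T.b (T.l 820) (T.l 816))) (T.l 1)) (T.l 816)) (T.a (T.l 816) (T.b (T.l 1) (T.l 816)))))))))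 (T.b (T.a (T.c (T.b (T.a (T.a (T.a (T.a (T.c (T.b (T.l 1) (T.l 816)) (T.b (T.l 1) (T.l 816))) (T.l 1)) (T.l 1)) (T.l 1)) (T.l 1)) (T.a (T.a (T.l 816) (T.c (T.b (T.a (T.l 816) (T.l 1)) (T.l 816)) (T.b (T.a (T.l 816) (T.l 1)) (T.l 816)))) (T.c (T.b (T.l 1) (T.a (T.l 816) (T.l 1))) (T.b (T.l 1) (T.a (T.l 816) (T.l 1)))))) (T.b (T.a (T.a (T.a (T.a (T.c (T.b (T.l 1) (T.l 816)) (T.b (T.l 1) (T.l 816))) (T.l 1)) (T.l 1)) (T.l 1)) (T.l 1)) (T.a (T.a (T.l 816) (T.c (T.b (T.a (T.l 816) (T.l 1)) (T.l 816)) (T.b (T.a (T.l 816) (T.l 1)) (T.l 816)))) (T.c (T.b (T.l 1) (T.a (T.l 816) (T.l 1))) (T.b (T.l 1) (T.a (T.l 816) (T.l 1))))))) (T.l 1)) (T.a (T.l 816) (T.c (T.b (T.a (T.c (T.b (T.a (T.c (T.b (T.l 1) (T.l 816)) (T.b (T.l 1) (T.l 816))) (T.l 1)) (T.a (T.l 816) (T.a (T.l 816) (T.l 1))))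 (T.b (T.a (T.c (T.b (T.l 1) (T.l 816)) (T.a (T.l 884) (T.l 1))) (T.l 1)) (T.a (T.l 816) (T.a (T.l 816) (T.l 1))))) (T.l 1)) (T.a (T.l 816) (T.a (T.l 816) (T.c (T.b (T.l 1) (T.l 816)) (T.b (T.l 1) (T.l 816)))))) (T.b (T.a (T.c (T.b (T.a (T.a (T.l 884) (T.l 1)) (T.l 1)) (T.a (T.l 816) (T.a (T.l 816) (T.l 1)))) (T.b (T.a (T.a (T.l 816) (T.l 1)) (T.l 1)) (T.a (T.l 816) (T.a (T.l 816) (T.l 1))))) (T.l 1)) (T.a (T.l 816) (T.a (T.l 816) (T.c (T.b (T.l 1) (T.l 816)) (T.b (T.l 1) (T.l 816)))))))))) (T.a (T.l 816) (T.l 816))) (T.b (T.c (T.b (T.a (T.c (T.b (T.a (T.a (T.a (T.c (T.b (T.l 1) (T.l 816)) (T.b (T.l 1) (T.l 816))) (T.l 1)) (T.l 1)) (T.l 1)) (T.a (T.a (T.l 816) (T.c (T.b (T.a (T.l 816) (T.l 1)) (T.l 816)) (T.a (T.l 816) (T.b (T.l 1) (T.l 816))))) (T.c (T.b (T.l 1) (T.a (T.l 816)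 (T.l 1))) (T.b (T.l 1) (T.a (T.l 816) (T.l 1)))))) (T.b (T.a (T.a (T.a (T.c (T.b (T.l 1) (T.l 816)) (T.b (T.l 1) (T.l 816))) (T.l 1)) (T.l 1)) (T.l 1)) (T.a (T.a (T.l 816) (T.c (T.a (T.l 816) (T.b (T.l 1) (T.l 816))) (T.l 816))) (T.c (T.b (T.l 1) (T.a (T.l 816) (T.l 1))) (T.b (T.l 1) (T.a (T.l 816) (T.l 1))))))) (T.l 1)) (T.a (T.l 816) (T.c (T.b (T.a (T.c (T.b (T.a (T.a (T.l 816) (T.l 1)) (T.l 1)) (T.a (T.l 816) (T.a (T.l 816) (T.l 1)))) (T.b (T.a (T.a (T.l 816) (T.l 1)) (T.l 1)) (T.a (T.l 816) (T.a (T.l 816) (T.l 1))))) (T.l 1)) (T.a (T.l 816) (T.a (T.l 816) (T.c (T.b (T.l 1) (T.l 816)) (T.b (T.l 1) (T.l 816)))))) (T.b (T.a (T.c (T.b (T.a (T.a (T.l 816) (T.l 1)) (T.l 1)) (T.l 816)) (T.b (T.a (T.a (T.l 816) (T.l 1)) (T.l 1)) (T.l 816))) (T.l 1)) (T.a (T.l 816) (T.a (T.l 816)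 (T.c (T.b (T.l 1) (T.l 816)) (T.b (T.l 1) (T.l 816))))))))) (T.b (T.a (T.c (T.b (T.a (T.a (T.a (T.c (T.b (T.l 1) (T.l 816)) (T.b (T.l 1) (T.l 816))) (T.l 1)) (T.l 1)) (T.l 1)) (T.a (T.l 816) (T.c (T.b (T.l 1) (T.a (T.l 816) (T.l 1))) (T.b (T.l 1) (T.a (T.l 816) (T.l 1)))))) (T.b (T.a (T.a (T.a (T.c (T.b (T.l 1) (T.l 816)) (T.b (T.l 1) (T.l 816))) (T.l 1)) (T.l 1)) (T.l 1)) (T.a (T.l 816) (T.c (T.b (T.l 1) (T.a (T.l 816) (T.l 1))) (T.b (T.l 1) (T.a (T.l 816) (T.l 1))))))) (T.l 1)) (T.a (T.l 816) (T.c (T.b (T.a (T.c (T.b (T.a (T.a (T.l 816) (T.l 1)) (T.l 1)) (T.l 816)) (T.b (T.a (T.a (T.l 816) (T.l 1)) (T.l 1)) (T.l 816))) (T.l 1)) (T.a (T.l 816) (T.a (T.l 816) (T.c (T.b (T.l 1) (T.l 816)) (T.b (T.l 1) (T.l 816)))))) (T.b (T.a (T.c (T.b (T.a (T.l 884) (T.l 1)) (T.l 816)) (T.b (T.a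 (T.l 816) (T.l 1)) (T.l 816))) (T.l 1)) (T.a (T.l 816) (T.a (T.l 816) (T.c (T.b (T.l 1) (T.l 816)) (T.b (T.l 1) (T.l 816)))))))))) (T.l 816)))), by decide +kernel⟩

def B102E_000_19_384_3 :
    ∃ t, chk3 (onCell 0 33554432 0 1073741824 33554432 16777216 (corTK [] false 3 c0N cB102E gN0q1 gN0q2 gN0q0 gN1q0 true true)) t 19 384 3 = true :=
  ⟨(T.b (T.l 1) (T.c (T.b (T.c (T.b (T.a (T.c (T.b (T.a (T.a (T.c (T.b (T.l 1) (T.l 816)) (T.b (T.l 1) (T.l 816))) (T.l 1)) (T.l 1)) (T.a (T.l 816) (T.c (T.b (T.l 1) (T.a (T.l 816) (T.l 1))) (T.b (T.l 1) (T.a (T.l 816) (T.l 1)))))) (T.b (T.a (T.a (T.c (T.b (T.l 1) (T.l 816)) (T.b (T.l 1) (T.l 816))) (T.l 1)) (T.l 1)) (T.a (T.l 816) (T.c (T.b (T.l 1) (T.a (T.l 816) (T.l 1))) (T.b (T.l 1) (T.a (T.l 816) (T.l 1))))))) (T.l 1)) (T.a (T.l 816) (T.c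 (T.b (T.a (T.c (T.b (T.a (T.l 816) (T.l 1)) (T.l 816)) (T.b (T.a (T.l 816) (T.l 1)) (T.l 816))) (T.l 1)) (T.a (T.l 816) (T.a (T.l 816) (T.c (T.b (T.l 1) (T.l 816)) (T.b (T.l 1) (T.l 816)))))) (T.b (T.a (T.c (T.b (T.a (T.l 816) (T.l 1)) (T.l 816)) (T.b (T.a (T.l 816) (T.l 1)) (T.l 816))) (T.l 1)) (T.a (T.l 816) (T.a (T.l 816) (T.c (T.b (T.l 1) (T.l 816)) (T.b (T.l 1) (T.l 816))))))))) (T.b (T.a (T.c (T.b (T.a (T.a (T.c (T.b (T.l 1) (T.l 816)) (T.b (T.l 1) (T.l 816))) (T.l 1)) (T.l 1)) (T.a (T.l 816) (T.c (T.b (T.l 1) (T.a (T.l 816) (T.l 1))) (T.b (T.l 1) (T.l 816))))) (T.b (T.a (T.a (T.c (T.b (T.l 1) (T.l 816)) (T.b (T.l 1) (T.l 816))) (T.l 1)) (T.l 1)) (T.a (T.l 816) (T.c (T.b (T.l 1) (T.l 816)) (T.b (T.l 1) (T.l 816)))))) (T.l 1)) (T.a (T.l 816) (T.c (T.b (T.a (T.c (T.b (T.a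 (T.l 816) (T.l 1)) (T.l 816)) (T.b (T.a (T.l 816) (T.l 1)) (T.l 816))) (T.l 1)) (T.a (T.l 816) (T.a (T.l 816) (T.l 816)))) (T.b (T.a (T.c (T.b (T.a (T.l 816) (T.l 1)) (T.l 816)) (T.b (T.a (T.l 816) (T.l 1)) (T.l 816))) (T.l 1)) (T.a (T.l 816) (T.l 816))))))) (T.l 816)) (T.b (T.c (T.b (T.a (T.c (T.b (T.a (T.a (T.c (T.b (T.l 1) (T.l 816)) (T.b (T.l 1) (T.l 816))) (T.l 1)) (T.l 1)) (T.a (T.l 816) (T.c (T.b (T.l 1) (T.l 816)) (T.a (T.l 816) (T.l 1))))) (T.b (T.a (T.a (T.c (T.b (T.l 1) (T.l 816)) (T.a (T.l 820) (T.l 1))) (T.l 1)) (T.l 1)) (T.a (T.l 816) (T.a (T.l 816) (T.l 1))))) (T.l 1)) (T.a (T.l 816) (T.a (T.a (T.l 816) (T.c (T.b (T.a (T.l 816) (T.l 1)) (T.l 816)) (T.b (T.a (T.l 816) (T.l 1)) (T.l 816)))) (T.c (T.b (T.l 1) (T.l 816)) (T.b (T.l 1) (T.l 816)))))) (T.b (T.a (T.c (T.b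 (T.a (T.a (T.a (T.l 816) (T.l 1)) (T.l 1)) (T.l 1)) (T.a (T.l 816) (T.a (T.l 816) (T.l 1)))) (T.b (T.a (T.c (T.b (T.l 1) (T.l 816)) (T.b (T.l 1) (T.l 816))) (T.l 1)) (T.a (T.l 816) (T.a (T.l 816) (T.l 1))))) (T.l 1)) (T.a (T.l 816) (T.c (T.b (T.a (T.a (T.l 816) (T.l 884)) (T.l 1)) (T.l 816)) (T.a (T.l 816) (T.b (T.l 1) (T.l 816))))))) (T.l 816)))), by decide +kernel⟩

def B102E_000_19_385_1 :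
    ∃ t, chk3 (onCell 0 33554432 0 1073741824 33554432 16777216 (corTK [] false 3 c0N cB102E gN0q1 gN0q2 gN0q0 gN1q0 true true)) t 19 385 1 = true :=
  ⟨(T.l 816), by decide +kernel⟩

def B102E_000_9_193_1 :
    ∃ t, chk3 (onCell 0 33554432 0 1073741824 33554432 16777216 (corTK [] false 3 c0N cB102E gN0q1 gN0q2 gN0q0 gN1q0 true true)) t 9 193 1 = true :=
  ⟨(T.l 0), by decide +kernel⟩

def B102E_000_9_97_1 :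
    ∃ t, chk3 (onCell 0 33554432 0 1073741824 33554432 16777216 (corTK [] false 3 c0N cB102E gN0q1 gN0q2 gN0q0 gN1q0 true true)) t 9 97 1 = true :=
  ⟨(T.l 0), by decide +kernel⟩

def B102E_000_9_49_1 :
    ∃ t, chk3 (onCell 0 33554432 0 1073741824 33554432 16777216 (corTK [] false 3 c0N cB102E gN0q1 gN0q2 gN0q0 gN1q0 true true)) t 9 49 1 = true :=
  ⟨(T.l 0), by decide +kernel⟩

def B102E_000_9_25_1 :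
    ∃ t, chk3 (onCell 0 33554432 0 1073741824 33554432 16777216 (corTK [] false 3 c0N cB102E gN0q1 gN0q2 gN0q0 gN1q0 true true)) t 9 25 1 = true :=
  ⟨(T.l 0), by decide +kernel⟩

def B102E_000_10_768_2 :
    ∃ t, chk3 (onCell 0 33554432 0 1073741824 33554432 16777216 (corTK [] false 3 c0N cB102E gN0q1 gN0q2 gN0q0 gN1q0 true true)) t 10 768 2 = true :=
  ⟨(T.l 1), by decide +kernel⟩

def B102E_000_10_769_4 :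
    ∃ t, chk3 (onCell 0 33554432 0 1073741824 33554432 16777216 (corTK [] false 3 c0N cB102E gN0q1 gN0q2 gN0q0 gN1q0 true true)) t 10 769 4 = true :=
  ⟨(T.b (T.a (T.a (T.a (T.a (T.c (T.b (T.l 1) (T.a (T.c (T.b (T.l 1) (T.a (T.c (T.b (T.l 1) (T.l 884)) (T.b (T.l 1) (T.l 816))) (T.l 1))) (T.b (T.l 1) (T.a (T.c (T.b (T.l 1) (T.l 816)) (T.b (T.l 1) (T.l 816))) (T.l 1)))) (T.l 1))) (T.b (T.l 1) (T.a (T.c (T.b (T.l 1) (T.c (T.b (T.l 1) (T.l 884)) (T.b (T.l 1) (T.l 884)))) (T.b (T.l 1) (T.c (T.b (T.l 1) (T.l 816)) (T.b (T.l 1) (T.l 816))))) (T.l 1)))) (T.l 1)) (T.l 1)) (T.l 1)) (T.l 1)) (T.a (T.a (T.c (T.b (T.c (T.b (T.a (T.a (T.l 816) (T.c (T.b (T.a (T.l 816) (T.l 1)) (T.l 816)) (T.b (T.a (T.l 816) (T.l 1)) (T.l 816)))) (T.c (T.b (T.l 1) (T.a (T.c (T.b (T.l 884) (T.l 816)) (T.b (T.l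 884) (T.l 816))) (T.l 1))) (T.b (T.l 1) (T.a (T.c (T.b (T.l 884) (T.l 816)) (T.a (T.l 816) (T.l 816))) (T.l 1))))) (T.l 816)) (T.b (T.a (T.a (T.l 816) (T.c (T.b (T.a (T.l 816) (T.l 1)) (T.l 816)) (T.b (T.a (T.l 816) (T.l 1)) (T.l 816)))) (T.c (T.b (T.l 1) (T.a (T.l 816) (T.l 1))) (T.b (T.l 1) (T.a (T.l 816) (T.l 1))))) (T.l 816))) (T.l 816)) (T.b (T.c (T.b (T.a (T.a (T.l 816) (T.c (T.b (T.a (T.l 816) (T.l 1)) (T.l 816)) (T.b (T.a (T.l 816) (T.l 1)) (T.l 816)))) (T.c (T.b (T.l 1) (T.a (T.l 816) (T.l 1))) (T.b (T.l 1) (T.a (T.l 816) (T.l 1))))) (T.l 816)) (T.b (T.a (T.a (T.l 816) (T.c (T.b (T.a (T.l 816) (T.l 1)) (T.l 816)) (T.a (T.l 816) (T.b (T.l 1) (T.l 816))))) (T.c (T.b (T.l 1) (T.a (T.l 816) (T.l 1))) (T.b (T.l 1) (T.a (T.l 816) (T.l 1))))) (T.l 816))) (T.l 816))) (T.c (T.b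 (T.a (T.c (T.b (T.l 1) (T.c (T.b (T.a (T.c (T.b (T.l 1) (T.l 884)) (T.b (T.l 1) (T.l 820))) (T.l 1)) (T.a (T.l 816) (T.a (T.l 816) (T.l 1)))) (T.b (T.a (T.c (T.b (T.l 1) (T.l 816)) (T.a (T.l 884) (T.l 1))) (T.l 1)) (T.a (T.l 816) (T.a (T.l 816) (T.l 1)))))) (T.b (T.l 1) (T.c (T.b (T.a (T.a (T.l 884) (T.l 1)) (T.l 1)) (T.a (T.l 816) (T.a (T.l 816) (T.l 1)))) (T.b (T.a (T.a (T.l 884) (T.l 1)) (T.l 1)) (T.a (T.l 816) (T.a (T.l 816) (T.l 1))))))) (T.l 1)) (T.a (T.l 816) (T.c (T.b (T.c (T.b (T.a (T.a (T.l 816) (T.l 816)) (T.l 1)) (T.l 816)) (T.a (T.l 816) (T.b (T.l 1) (T.l 816)))) (T.l 816)) (T.a (T.l 816) (T.b (T.c (T.b (T.l 1) (T.l 816)) (T.b (T.l 1) (T.l 816))) (T.l 816)))))) (T.b (T.a (T.c (T.b (T.l 1) (T.c (T.b (T.a (T.a (T.l 820) (T.l 1)) (T.l 1)) (T.a (T.l 816) (T.a (T.l 816)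 (T.l 1)))) (T.b (T.a (T.a (T.l 816) (T.l 1)) (T.l 1)) (T.a (T.l 816) (T.a (T.l 816) (T.l 1)))))) (T.b (T.l 1) (T.c (T.b (T.a (T.a (T.l 816) (T.l 1)) (T.l 1)) (T.a (T.l 816) (T.a (T.l 816) (T.l 1)))) (T.b (T.a (T.a (T.l 816) (T.l 1)) (T.l 1)) (T.a (T.l 816) (T.a (T.l 816) (T.l 1))))))) (T.l 1)) (T.a (T.l 816) (T.a (T.l 816) (T.c (T.b (T.c (T.b (T.l 1) (T.l 816)) (T.b (T.l 1) (T.l 816))) (T.l 816)) (T.b (T.c (T.b (T.l 1) (T.l 816)) (T.b (T.l 1) (T.l 816))) (T.l 816)))))))) (T.a (T.c (T.b (T.l 1) (T.c (T.b (T.a (T.a (T.a (T.a (T.l 1) (T.l 1)) (T.l 1)) (T.l 1)) (T.l 1)) (T.a (T.a (T.l 816) (T.c (T.b (T.a (T.l 816) (T.l 1)) (T.l 816)) (T.b (T.a (T.l 816) (T.l 1)) (T.l 816)))) (T.c (T.b (T.l 1) (T.a (T.l 816) (T.l 1))) (T.b (T.l 1) (T.a (T.l 816) (T.l 1)))))) (T.b (T.a (T.a (T.a (T.a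 (T.l 1) (T.l 1)) (T.l 1)) (T.l 1)) (T.l 1)) (T.a (T.a (T.l 816) (T.c (T.b (T.a (T.l 816) (T.l 1)) (T.l 816)) (T.b (T.a (T.l 816) (T.l 1)) (T.l 816)))) (T.c (T.b (T.l 1) (T.a (T.l 816) (T.l 1))) (T.b (T.l 1) (T.a (T.l 816) (T.l 1)))))))) (T.b (T.l 1) (T.c (T.b (T.a (T.a (T.a (T.a (T.l 1) (T.l 1)) (T.l 1)) (T.l 1)) (T.l 1)) (T.a (T.a (T.l 816) (T.c (T.b (T.a (T.l 816) (T.l 1)) (T.l 816)) (T.a (T.l 816) (T.b (T.l 1) (T.l 816))))) (T.c (T.b (T.l 1) (T.a (T.l 816) (T.l 1))) (T.b (T.l 1) (T.a (T.l 816) (T.l 1)))))) (T.b (T.a (T.a (T.a (T.a (T.l 1) (T.l 1)) (T.l 1)) (T.l 1)) (T.l 1)) (T.a (T.a (T.l 816) (T.a (T.l 816) (T.l 816))) (T.c (T.b (T.l 1) (T.a (T.l 816) (T.l 1))) (T.b (T.l 1) (T.a (T.l 816) (T.l 1))))))))) (T.l 1)))), by decide +kernel⟩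

end Pool.Agent.Strip051.G.I1_32_3_64.Tab.CN
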