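import Pool.Agent.Strip051.G.I1_32_3_64.Gn
import Pool.Agent.Strip051.PB.Corns
import Pool.Agent.Strip051.PB.CornK

/-! # Certificates of the aligned corners (generated) -/

set_option linter.all false

namespace Pool.Agent.Strip051.G.I1_32_3_64.Tab.CN

open Pool.Agent.Strip051.PB

def B102E_000_10_769_5 :
    ∃ t, chk3 (onCell 0 33554432 0 1073741824 33554432 16777216 (corTK [] false 3 c0N cB102E gN0q1 gN0q2 gN0q0 gN1q0 true true)) t 10 769 5 = true :=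
  ⟨(T.b (T.a (T.a (T.a (T.a (T.c (T.b (T.l 1) (T.a (T.c (T.b (T.l 1) (T.c (T.b (T.l 1) (T.l 816)) (T.b (T.l 1) (T.l 816)))) (T.b (T.l 1) (T.c (T.b (T.l 1) (T.l 816)) (T.b (T.l 1) (T.l 816))))) (T.l 1))) (T.b (T.l 1) (T.a (T.c (T.b (T.l 1) (T.c (T.b (T.l 1) (T.l 816)) (T.b (T.l 1) (T.l 816)))) (T.b (T.l 1) (T.c (T.b (T.l 1) (T.l 816)) (T.b (T.l 1) (T.l 816))))) (T.l 1)))) (T.l 1)) (T.l 1)) (T.l 1)) (T.l 1)) (T.a (T.a (T.c (T.b (T.c (T.b (T.a (T.a (T.l 816) (T.c (T.a (T.l 816) (T.b (T.l 1) (T.l 816))) (T.l 816))) (T.c (T.b (T.l 1) (T.a (T.l 816) (T.l 1))) (T.b (T.l 1) (T.a (T.l 816) (T.l 1))))) (T.l 816)) (T.a (T.l 816) (T.b (T.c (T.b (T.l 1) (T.a (T.l 816) (T.l 1))) (T.b (T.l 1) (T.a (T.l 816) (T.l 1)))) (T.l 816)))) (T.l 816)) (T.a (T.l 816) (T.b (T.c (T.b (T.c (T.b (T.l 1) (T.a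 (T.l 816) (T.l 1))) (T.b (T.l 1) (T.a (T.l 816) (T.l 1)))) (T.l 816)) (T.b (T.c (T.b (T.l 1) (T.a (T.l 816) (T.l 1))) (T.b (T.l 1) (T.a (T.l 816) (T.l 1)))) (T.l 816))) (T.l 816)))) (T.c (T.b (T.a (T.c (T.b (T.l 1) (T.c (T.b (T.a (T.a (T.l 816) (T.l 1)) (T.l 1)) (T.l 816)) (T.b (T.a (T.a (T.l 816) (T.l 1)) (T.l 1)) (T.l 816)))) (T.b (T.l 1) (T.c (T.b (T.a (T.a (T.l 816) (T.l 1)) (T.l 1)) (T.l 816)) (T.b (T.a (T.l 884) (T.l 1)) (T.l 816))))) (T.l 1)) (T.a (T.l 816) (T.a (T.l 816) (T.c (T.b (T.c (T.b (T.l 1) (T.l 816)) (T.b (T.l 1) (T.l 816))) (T.l 816)) (T.b (T.c (T.b (T.l 1) (T.l 816)) (T.b (T.l 1) (T.l 816))) (T.l 816)))))) (T.b (T.a (T.c (T.b (T.l 1) (T.c (T.b (T.a (T.l 884) (T.l 1)) (T.l 816)) (T.b (T.a (T.l 884) (T.l 1)) (T.l 816)))) (T.b (T.l 1) (T.c (T.b (T.a (T.l 816) (T.l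 1)) (T.l 816)) (T.b (T.a (T.l 816) (T.l 1)) (T.l 816))))) (T.l 1)) (T.a (T.l 816) (T.a (T.l 816) (T.a (T.l 816) (T.c (T.b (T.c (T.b (T.l 1) (T.l 816)) (T.b (T.l 1) (T.l 816))) (T.l 816)) (T.b (T.c (T.b (T.l 1) (T.l 816)) (T.a (T.l 816) (T.l 884))) (T.l 816))))))))) (T.a (T.c (T.b (T.l 1) (T.c (T.b (T.a (T.a (T.a (T.a (T.l 1) (T.l 1)) (T.l 1)) (T.l 1)) (T.l 1)) (T.a (T.l 816) (T.c (T.b (T.l 1) (T.a (T.l 816) (T.l 1))) (T.b (T.l 1) (T.a (T.l 816) (T.l 1)))))) (T.b (T.a (T.a (T.c (T.b (T.l 1) (T.l 884)) (T.b (T.l 1) (T.l 884))) (T.l 1)) (T.l 1)) (T.a (T.l 816) (T.c (T.b (T.l 1) (T.a (T.l 816) (T.l 1))) (T.b (T.l 1) (T.a (T.l 816) (T.l 1)))))))) (T.b (T.l 1) (T.c (T.b (T.a (T.a (T.c (T.b (T.l 1) (T.l 884)) (T.b (T.l 1) (T.l 816))) (T.l 1)) (T.l 1)) (T.a (T.l 816) (T.c (T.b (T.l 1) (T.a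 (T.l 816) (T.l 1))) (T.b (T.l 1) (T.a (T.l 816) (T.l 1)))))) (T.b (T.a (T.a (T.c (T.b (T.l 1) (T.l 816)) (T.b (T.l 1) (T.l 816))) (T.l 1)) (T.l 1)) (T.a (T.l 816) (T.c (T.b (T.l 1) (T.a (T.l 816) (T.l 1))) (T.b (T.l 1) (T.a (T.l 816) (T.l 1))))))))) (T.l 1)))), by decide +kernel⟩

def B102E_000_10_384_3 :
    ∃ t, chk3 (onCell 0 33554432 0 1073741824 33554432 16777216 (corTK [] false 3 c0N cB102E gN0q1 gN0q2 gN0q0 gN1q0 true true)) t 10 384 3 = true :=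
  ⟨(T.b (T.l 1) (T.c (T.b (T.a (T.a (T.a (T.a (T.c (T.b (T.l 1) (T.a (T.c (T.b (T.l 1) (T.c (T.b (T.l 1) (T.l 816)) (T.b (T.l 1) (T.l 816)))) (T.b (T.l 1) (T.c (T.b (T.l 1) (T.l 816)) (T.b (T.l 1) (T.l 816))))) (T.l 1))) (T.b (T.l 1) (T.a (T.c (T.b (T.l 1) (T.c (T.b (T.l 1) (T.l 816)) (T.a (T.l 884) (T.l 1)))) (T.b (T.l 1) (T.a (T.l 884) (T.l 1)))) (T.l 1)))) (T.l 1)) (T.l 1)) (T.l 1)) (T.l 1)) (T.a (T.a (T.a (T.l 816) (T.c (T.b (T.c (T.b (T.c (T.b (T.l 1) (T.a (T.l 816) (T.l 1))) (T.b (T.l 1) (T.a (T.l 816) (T.l 1)))) (T.l 816)) (T.b (T.c (T.b (T.l 1) (T.a (T.l 816) (T.l 1))) (T.b (T.l 1) (T.a (T.l 816) (T.l 1)))) (T.l 816))) (T.l 816)) (T.b (T.c (T.b (T.c (T.b (T.l 1) (T.l 816)) (T.b (T.l 1) (T.l 816))) (T.l 816)) (T.b (T.c (T.b (T.l 1) (T.l 816)) (T.b (T.l 1) (T.l 816))) (T.l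 816))) (T.l 816)))) (T.c (T.b (T.a (T.c (T.b (T.l 1) (T.c (T.b (T.a (T.l 816) (T.l 1)) (T.l 816)) (T.b (T.a (T.l 816) (T.l 1)) (T.l 816)))) (T.b (T.l 1) (T.c (T.b (T.a (T.l 816) (T.l 1)) (T.l 816)) (T.b (T.a (T.l 816) (T.l 1)) (T.l 816))))) (T.l 1)) (T.a (T.l 816) (T.a (T.l 816) (T.a (T.l 816) (T.c (T.b (T.a (T.l 816) (T.l 884)) (T.l 816)) (T.c (T.b (T.a (T.l 816) (T.l 820)) (T.l 816)) (T.l 816))))))) (T.b (T.a (T.c (T.b (T.l 1) (T.c (T.b (T.a (T.l 816) (T.l 1)) (T.l 816)) (T.b (T.a (T.l 816) (T.l 1)) (T.l 816)))) (T.b (T.l 1) (T.c (T.b (T.a (T.l 816) (T.l 1)) (T.l 816)) (T.b (T.a (T.l 816) (T.l 1)) (T.l 816))))) (T.l 1)) (T.a (T.l 816) (T.l 816))))) (T.a (T.c (T.b (T.l 1) (T.c (T.b (T.a (T.a (T.c (T.b (T.l 1) (T.l 816)) (T.b (T.l 1) (T.l 816))) (T.l 1)) (T.l 1)) (T.a (T.l 816) (T.c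 (T.b (T.l 1) (T.a (T.l 816) (T.l 1))) (T.b (T.l 1) (T.a (T.l 816) (T.l 1)))))) (T.b (T.a (T.a (T.c (T.b (T.l 1) (T.l 816)) (T.b (T.l 1) (T.l 816))) (T.l 1)) (T.l 1)) (T.a (T.l 816) (T.c (T.b (T.l 1) (T.a (T.l 816) (T.l 1))) (T.b (T.l 1) (T.l 816))))))) (T.b (T.l 1) (T.c (T.b (T.a (T.a (T.c (T.b (T.l 1) (T.l 816)) (T.b (T.l 1) (T.l 816))) (T.l 1)) (T.l 1)) (T.a (T.l 816) (T.c (T.b (T.l 1) (T.l 816)) (T.b (T.l 1) (T.l 816))))) (T.b (T.a (T.a (T.c (T.b (T.l 1) (T.l 816)) (T.a (T.l 884) (T.l 1))) (T.l 1)) (T.l 1)) (T.a (T.l 816) (T.c (T.b (T.l 1) (T.l 816)) (T.b (T.l 1) (T.l 816)))))))) (T.l 1)))) (T.b (T.a (T.a (T.a (T.a (T.c (T.b (T.l 1) (T.a (T.c (T.b (T.l 1) (T.a (T.l 816) (T.l 1))) (T.b (T.l 1) (T.l 884))) (T.l 1))) (T.b (T.l 1) (T.a (T.c (T.b (T.l 1) (T.l 816)) (T.b (T.l 1) (T.l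 816))) (T.l 1)))) (T.l 1)) (T.l 1)) (T.l 1)) (T.l 1)) (T.a (T.a (T.a (T.l 816) (T.c (T.b (T.c (T.b (T.c (T.b (T.l 1) (T.l 816)) (T.a (T.l 816) (T.l 1))) (T.l 816)) (T.b (T.a (T.l 816) (T.l 1)) (T.l 816))) (T.l 816)) (T.a (T.l 816) (T.b (T.c (T.b (T.l 1) (T.l 816)) (T.b (T.l 1) (T.l 816))) (T.l 816))))) (T.c (T.b (T.c (T.b (T.l 1) (T.a (T.c (T.b (T.a (T.l 816) (T.l 1)) (T.l 816)) (T.a (T.l 816) (T.a (T.l 816) (T.l 1)))) (T.l 1))) (T.b (T.l 1) (T.a (T.a (T.l 816) (T.l 884)) (T.l 1)))) (T.l 816)) (T.b (T.c (T.b (T.l 1) (T.a (T.a (T.l 816) (T.l 820)) (T.l 1))) (T.b (T.l 1) (T.a (T.l 816) (T.l 1)))) (T.l 816)))) (T.a (T.c (T.b (T.l 1) (T.c (T.b (T.a (T.a (T.a (T.l 884) (T.l 1)) (T.l 1)) (T.l 1)) (T.a (T.l 816) (T.a (T.l 816) (T.l 1)))) (T.b (T.a (T.c (T.b (T.l 1) (T.l 884)) (T.b (T.l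 1) (T.l 884))) (T.l 1)) (T.a (T.l 816) (T.a (T.l 816) (T.l 1)))))) (T.b (T.l 1) (T.c (T.b (T.a (T.c (T.b (T.l 1) (T.l 820)) (T.b (T.l 1) (T.l 816))) (T.l 1)) (T.a (T.l 816) (T.a (T.l 816) (T.l 1)))) (T.b (T.a (T.a (T.l 884) (T.l 1)) (T.l 1)) (T.a (T.l 816) (T.a (T.l 816) (T.l 1))))))) (T.l 1)))))), by decide +kernel⟩

def B102E_000_10_385_1 :
    ∃ t, chk3 (onCell 0 33554432 0 1073741824 33554432 16777216 (corTK [] false 3 c0N cB102E gN0q1 gN0q2 gN0q0 gN1q0 true true)) t 10 385 1 = true :=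
  ⟨(T.a (T.l 816) (T.c (T.b (T.a (T.l 816) (T.c (T.b (T.c (T.b (T.c (T.b (T.a (T.c (T.b (T.a (T.l 1) (T.l 1)) (T.a (T.l 816) (T.a (T.l 816) (T.l 1)))) (T.b (T.a (T.l 1) (T.l 1)) (T.a (T.l 816) (T.a (T.l 816) (T.l 1))))) (T.l 1)) (T.a (T.l 816) (T.a (T.l 816) (T.c (T.b (T.l 1) (T.l 816)) (T.b (T.l 1) (T.l 816)))))) (T.b (T.a (T.c (T.b (T.a (T.l 1) (T.l 1)) (T.a (T.l 816) (T.a (T.l 816) (T.l 1)))) (T.b (T.a (T.l 1) (T.l 1)) (T.a (T.l 816) (T.a (T.l 816) (T.l 1))))) (T.l 1)) (T.a (T.l 816) (T.a (T.l 816) (T.c (T.b (T.l 1) (T.l 816)) (T.b (T.l 1) (T.l 816))))))) (T.l 816)) (T.b (T.c (T.b (T.a (T.c (T.b (T.a (T.l 1) (T.l 1)) (T.a (T.l 816) (T.a (T.l 816) (T.l 1)))) (T.b (T.a (T.l 1) (T.l 1)) (T.a (T.l 816) (T.l 816)))) (T.l 1)) (T.a (T.l 816) (T.a (T.l 816) (T.c (T.b (T.l 1) (T.l 816))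 (T.b (T.l 1) (T.l 816)))))) (T.b (T.a (T.c (T.b (T.a (T.l 1) (T.l 1)) (T.l 816)) (T.b (T.a (T.l 1) (T.l 1)) (T.l 816))) (T.l 1)) (T.a (T.l 816) (T.c (T.b (T.a (T.l 816) (T.l 1)) (T.l 816)) (T.b (T.a (T.l 816) (T.l 1)) (T.l 816)))))) (T.l 816))) (T.l 816)) (T.b (T.c (T.b (T.c (T.b (T.a (T.c (T.b (T.a (T.l 1) (T.l 1)) (T.l 816)) (T.b (T.a (T.l 1) (T.l 1)) (T.l 816))) (T.l 1)) (T.a (T.l 816) (T.c (T.b (T.a (T.l 816) (T.l 1)) (T.l 816)) (T.b (T.a (T.l 816) (T.l 1)) (T.l 816))))) (T.b (T.a (T.c (T.b (T.a (T.l 1) (T.l 1)) (T.l 816)) (T.b (T.a (T.l 1) (T.l 1)) (T.l 816))) (T.l 1)) (T.a (T.l 816) (T.c (T.b (T.a (T.l 816) (T.l 1)) (T.l 816)) (T.b (T.a (T.l 816) (T.l 1)) (T.l 816)))))) (T.l 816)) (T.b (T.c (T.b (T.a (T.c (T.b (T.a (T.l 1) (T.l 1)) (T.l 816)) (T.b (T.a (T.l 1) (T.l 1)) (T.l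 816))) (T.l 1)) (T.a (T.l 816) (T.c (T.b (T.a (T.l 816) (T.l 1)) (T.l 816)) (T.b (T.a (T.l 816) (T.l 1)) (T.l 816))))) (T.b (T.a (T.c (T.b (T.a (T.l 1) (T.l 1)) (T.l 816)) (T.b (T.a (T.l 1) (T.l 1)) (T.l 816))) (T.l 1)) (T.a (T.l 816) (T.a (T.l 816) (T.c (T.b (T.l 1) (T.l 816)) (T.a (T.l 816) (T.l 884))))))) (T.l 816))) (T.l 816)))) (T.l 816)) (T.a (T.l 816) (T.b (T.c (T.b (T.c (T.b (T.c (T.b (T.a (T.c (T.b (T.a (T.l 1) (T.l 1)) (T.l 816)) (T.b (T.a (T.l 1) (T.l 1)) (T.l 816))) (T.l 1)) (T.a (T.l 816) (T.a (T.l 816) (T.a (T.l 816) (T.l 884))))) (T.b (T.a (T.c (T.b (T.a (T.l 1) (T.l 1)) (T.l 816)) (T.b (T.a (T.l 1) (T.l 1)) (T.l 816))) (T.l 1)) (T.a (T.l 816) (T.l 816)))) (T.l 816)) (T.b (T.c (T.b (T.a (T.c (T.b (T.a (T.l 1) (T.l 1)) (T.l 816)) (T.b (T.a (T.l 1) (T.l 1)) (T.l 816)))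 (T.l 1)) (T.l 816)) (T.b (T.a (T.c (T.b (T.a (T.l 1) (T.l 1)) (T.l 816)) (T.a (T.l 816) (T.a (T.l 816) (T.l 1)))) (T.l 1)) (T.l 816))) (T.l 816))) (T.l 816)) (T.b (T.c (T.b (T.c (T.b (T.a (T.a (T.l 816) (T.l 884)) (T.l 1)) (T.l 816)) (T.b (T.a (T.a (T.l 816) (T.l 884)) (T.l 1)) (T.l 816))) (T.l 816)) (T.b (T.c (T.b (T.a (T.a (T.l 816) (T.l 816)) (T.l 1)) (T.l 816)) (T.a (T.l 816) (T.b (T.l 1) (T.l 816)))) (T.l 816))) (T.l 816))) (T.l 816))))), by decide +kernel⟩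

def B102E_000_10_193_1 :
    ∃ t, chk3 (onCell 0 33554432 0 1073741824 33554432 16777216 (corTK [] false 3 c0N cB102E gN0q1 gN0q2 gN0q0 gN1q0 true true)) t 10 193 1 = true :=
  ⟨(T.l 0), by decide +kernel⟩

def B102E_000_10_97_1 :
    ∃ t, chk3 (onCell 0 33554432 0 1073741824 33554432 16777216 (corTK [] false 3 c0N cB102E gN0q1 gN0q2 gN0q0 gN1q0 true true)) t 10 97 1 = true :=
  ⟨(T.l 816), by decide +kernel⟩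

def B102E_000_11_384_1 :
    ∃ t, chk3 (onCell 0 33554432 0 1073741824 33554432 16777216 (corTK [] false 3 c0N cB102E gN0q1 gN0q2 gN0q0 gN1q0 true true)) t 11 384 1 = true :=
  ⟨(T.l 1), by decide +kernel⟩

def B102E_000_22_385_1 :
    ∃ t, chk3 (onCell 0 33554432 0 1073741824 33554432 16777216 (corTK [] false 3 c0N cB102E gN0q1 gN0q2 gN0q0 gN1q0 true true)) t 22 385 1 = true :=
  ⟨(T.c (T.b (T.c (T.b (T.c (T.b (T.a (T.a (T.a (T.a (T.l 1) (T.l 1)) (T.l 1)) (T.l 1)) (T.l 1)) (T.a (T.c (T.b (T.a (T.a (T.l 816) (T.c (T.b (T.a (T.l 816) (T.l 1)) (T.l 816)) (T.a (T.l 816) (T.b (T.l 1) (T.l 816))))) (T.c (T.b (T.l 1) (T.a (T.l 816) (T.l 1))) (T.b (T.l 1) (T.a (T.l 816) (T.l 1))))) (T.l 816)) (T.b (T.a (T.a (T.l 816) (T.a (T.l 816) (T.c (T.b (T.l 1) (T.l 816)) (T.b (T.l 1) (T.l 816)))))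 (T.c (T.b (T.l 1) (T.a (T.l 816) (T.l 1))) (T.b (T.l 1) (T.a (T.l 816) (T.l 1))))) (T.l 816))) (T.a (T.c (T.b (T.l 1) (T.c (T.b (T.l 1) (T.a (T.l 816) (T.a (T.l 816) (T.l 1)))) (T.b (T.l 1) (T.a (T.l 816) (T.a (T.l 816) (T.l 1)))))) (T.b (T.l 1) (T.c (T.b (T.l 1) (T.a (T.l 816) (T.l 816))) (T.b (T.l 1) (T.l 816))))) (T.l 1)))) (T.b (T.a (T.a (T.a (T.a (T.l 1) (T.l 1)) (T.l 1)) (T.l 1)) (T.l 1)) (T.a (T.c (T.b (T.a (T.l 816) (T.c (T.b (T.l 1) (T.a (T.l 816) (T.l 1))) (T.b (T.l 1) (T.a (T.l 816) (T.l 1))))) (T.l 816)) (T.a (T.l 816) (T.b (T.c (T.b (T.l 1) (T.a (T.l 816) (T.l 1))) (T.b (T.l 1) (T.a (T.l 816) (T.l 1)))) (T.l 816)))) (T.a (T.c (T.b (T.l 1) (T.c (T.b (T.l 1) (T.l 816)) (T.b (T.l 1) (T.l 816)))) (T.b (T.l 1) (T.c (T.b (T.l 1) (T.l 816)) (T.b (T.l 1) (T.l 816))))) (T.l 1)))))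 (T.a (T.l 816) (T.a (T.l 816) (T.a (T.l 816) (T.c (T.b (T.c (T.b (T.c (T.b (T.l 1) (T.l 816)) (T.b (T.l 1) (T.l 816))) (T.l 816)) (T.b (T.c (T.b (T.l 1) (T.l 816)) (T.b (T.l 1) (T.l 816))) (T.l 816))) (T.l 816)) (T.b (T.c (T.b (T.c (T.b (T.l 1) (T.l 816)) (T.b (T.l 1) (T.l 816))) (T.l 816)) (T.b (T.c (T.b (T.l 1) (T.l 816)) (T.b (T.l 1) (T.l 816))) (T.l 816))) (T.l 816))))))) (T.b (T.c (T.b (T.a (T.a (T.a (T.a (T.l 1) (T.l 1)) (T.l 1)) (T.l 1)) (T.l 1)) (T.a (T.a (T.l 816) (T.c (T.b (T.c (T.b (T.l 1) (T.a (T.l 816) (T.l 1))) (T.b (T.l 1) (T.a (T.l 816) (T.l 1)))) (T.l 816)) (T.b (T.c (T.b (T.l 1) (T.a (T.l 816) (T.l 1))) (T.b (T.l 1) (T.a (T.l 816) (T.l 1)))) (T.l 816)))) (T.a (T.c (T.b (T.l 1) (T.c (T.b (T.l 1) (T.l 816)) (T.b (T.l 1) (T.l 816)))) (T.b (T.l 1) (T.c (T.b (T.l 1)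 (T.l 816)) (T.b (T.l 1) (T.l 816))))) (T.l 1)))) (T.b (T.a (T.a (T.a (T.a (T.l 1) (T.l 1)) (T.l 1)) (T.l 1)) (T.l 1)) (T.a (T.a (T.l 816) (T.c (T.b (T.c (T.b (T.l 1) (T.a (T.l 816) (T.l 1))) (T.b (T.l 1) (T.a (T.l 816) (T.l 1)))) (T.l 816)) (T.b (T.c (T.b (T.l 1) (T.a (T.l 816) (T.l 1))) (T.a (T.b (T.l 1) (T.l 816)) (T.l 1))) (T.l 816)))) (T.a (T.c (T.b (T.l 1) (T.c (T.b (T.l 1) (T.l 816)) (T.b (T.l 1) (T.l 816)))) (T.b (T.l 1) (T.c (T.b (T.l 1) (T.l 816)) (T.b (T.l 1) (T.l 816))))) (T.l 1))))) (T.a (T.l 816) (T.a (T.l 816) (T.a (T.l 816) (T.c (T.b (T.a (T.l 816) (T.c (T.b (T.c (T.b (T.l 1) (T.l 816)) (T.b (T.l 1) (T.l 816))) (T.l 816)) (T.b (T.c (T.b (T.l 1) (T.l 816)) (T.a (T.l 816) (T.l 884))) (T.l 816)))) (T.l 816)) (T.b (T.a (T.l 816) (T.c (T.b (T.l 884) (T.l 816)) (T.b (T.l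 884) (T.l 816)))) (T.l 816)))))))) (T.l 816)) (T.b (T.c (T.b (T.c (T.b (T.a (T.a (T.a (T.a (T.l 1) (T.l 1)) (T.l 1)) (T.l 1)) (T.l 1)) (T.a (T.a (T.l 816) (T.c (T.b (T.a (T.c (T.b (T.l 1) (T.l 816)) (T.a (T.l 816) (T.l 884))) (T.l 1)) (T.l 816)) (T.b (T.c (T.b (T.l 1) (T.l 816)) (T.b (T.l 1) (T.l 816))) (T.l 816)))) (T.a (T.c (T.b (T.l 1) (T.c (T.b (T.l 1) (T.l 816)) (T.b (T.l 1) (T.l 816)))) (T.b (T.l 1) (T.c (T.b (T.l 1) (T.l 816)) (T.b (T.l 1) (T.l 816))))) (T.l 1)))) (T.b (T.a (T.a (T.a (T.a (T.l 1) (T.l 1)) (T.l 1)) (T.l 1)) (T.l 1)) (T.a (T.a (T.l 816) (T.c (T.b (T.c (T.b (T.l 1) (T.l 816)) (T.a (T.l 884) (T.l 1))) (T.l 816)) (T.b (T.a (T.l 820) (T.l 1)) (T.l 816)))) (T.c (T.b (T.l 1) (T.a (T.c (T.b (T.l 1) (T.l 816)) (T.b (T.l 1) (T.l 816))) (T.l 1))) (T.b (T.l 1) (T.a (T.a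 (T.l 816) (T.l 884)) (T.l 1))))))) (T.a (T.l 816) (T.a (T.l 816) (T.c (T.c (T.a (T.l 816) (T.l 816)) (T.l 816)) (T.l 816))))) (T.b (T.c (T.b (T.a (T.a (T.a (T.a (T.l 1) (T.l 1)) (T.l 1)) (T.l 1)) (T.l 1)) (T.a (T.a (T.l 816) (T.c (T.b (T.a (T.l 816) (T.l 1)) (T.l 816)) (T.b (T.a (T.l 816) (T.l 1)) (T.l 816)))) (T.c (T.b (T.l 1) (T.a (T.a (T.l 816) (T.l 884)) (T.l 1))) (T.b (T.l 1) (T.a (T.a (T.l 816) (T.l 820)) (T.l 1)))))) (T.b (T.a (T.a (T.a (T.a (T.l 1) (T.l 1)) (T.l 1)) (T.l 1)) (T.l 1)) (T.a (T.a (T.l 816) (T.c (T.b (T.a (T.l 816) (T.l 1)) (T.l 816)) (T.b (T.a (T.l 816) (T.l 1)) (T.l 816)))) (T.c (T.b (T.l 1) (T.a (T.l 816) (T.l 1))) (T.b (T.l 1) (T.a (T.l 816) (T.l 1))))))) (T.a (T.l 816) (T.l 816)))) (T.l 816))), by decide +kernel⟩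

def B102E_000_23_385_1 :
    ∃ t, chk3 (onCell 0 33554432 0 1073741824 33554432 16777216 (corTK [] false 3 c0N cB102E gN0q1 gN0q2 gN0q0 gN1q0 true true)) t 23 385 1 = true :=
  ⟨(T.c (T.b (T.c (T.b (T.l 1) (T.c (T.b (T.a (T.c (T.b (T.a (T.l 1) (T.l 1)) (T.a (T.a (T.l 816) (T.c (T.a (T.l 816) (T.b (T.l 1) (T.l 816))) (T.l 816))) (T.c (T.b (T.l 1) (T.a (T.l 816) (T.l 1))) (T.b (T.l 1) (T.a (T.l 816) (T.l 1)))))) (T.b (T.a (T.l 1) (T.l 1)) (T.a (T.l 816) (T.c (T.b (T.l 1) (T.a (T.l 816) (T.l 1))) (T.b (T.l 1) (T.a (T.l 816) (T.l 1))))))) (T.l 1)) (T.a (T.l 816) (T.c (T.b (T.a (T.c (T.b (T.l 1) (T.a (T.l 816) (T.l 816))) (T.b (T.l 1) (T.l 816))) (T.l 1)) (T.a (T.l 816) (T.a (T.l 816) (T.c (T.b (T.l 1) (T.l 816)) (T.b (T.l 1) (T.l 816)))))) (T.b (T.a (T.c (T.b (T.l 1) (T.l 816)) (T.b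 (T.l 1) (T.l 816))) (T.l 1)) (T.a (T.l 816) (T.a (T.l 816) (T.c (T.b (T.l 1) (T.l 816)) (T.b (T.l 1) (T.l 816))))))))) (T.b (T.a (T.c (T.b (T.a (T.l 1) (T.l 1)) (T.a (T.l 816) (T.c (T.b (T.l 1) (T.a (T.l 816) (T.l 1))) (T.b (T.l 1) (T.a (T.l 816) (T.l 1)))))) (T.b (T.a (T.l 1) (T.l 1)) (T.a (T.l 816) (T.c (T.b (T.l 1) (T.a (T.l 816) (T.l 1))) (T.b (T.l 1) (T.a (T.l 816) (T.l 1))))))) (T.l 1)) (T.a (T.l 816) (T.c (T.b (T.a (T.c (T.b (T.l 1) (T.l 816)) (T.b (T.l 1) (T.l 816))) (T.l 1)) (T.a (T.l 816) (T.c (T.b (T.a (T.l 816) (T.l 1)) (T.l 816)) (T.b (T.a (T.l 816) (T.l 1)) (T.l 816))))) (T.b (T.a (T.c (T.b (T.l 1) (T.l 816)) (T.b (T.l 1) (T.l 816))) (T.l 1)) (T.a (T.l 816) (T.c (T.b (T.a (T.l 816) (T.l 1)) (T.l 816)) (T.b (T.a (T.l 816) (T.l 1)) (T.l 816)))))))))) (T.b (T.l 1) (T.c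 (T.b (T.a (T.c (T.b (T.a (T.l 1) (T.l 1)) (T.a (T.l 816) (T.c (T.b (T.l 1) (T.a (T.l 816) (T.l 1))) (T.b (T.l 1) (T.a (T.l 816) (T.l 1)))))) (T.b (T.a (T.l 1) (T.l 1)) (T.a (T.l 816) (T.c (T.b (T.l 1) (T.a (T.l 816) (T.l 1))) (T.b (T.l 1) (T.a (T.l 816) (T.l 1))))))) (T.l 1)) (T.a (T.l 816) (T.c (T.b (T.a (T.c (T.b (T.l 1) (T.l 816)) (T.b (T.l 1) (T.l 816))) (T.l 1)) (T.a (T.l 816) (T.c (T.b (T.a (T.l 816) (T.l 1)) (T.l 816)) (T.b (T.a (T.l 816) (T.l 1)) (T.l 816))))) (T.b (T.a (T.c (T.b (T.l 1) (T.l 816)) (T.b (T.l 1) (T.l 816))) (T.l 1)) (T.a (T.l 816) (T.c (T.b (T.a (T.l 816) (T.l 1)) (T.l 816)) (T.b (T.a (T.l 816) (T.l 1)) (T.l 816)))))))) (T.b (T.a (T.c (T.b (T.a (T.l 1) (T.l 1)) (T.a (T.l 816) (T.c (T.b (T.l 1) (T.a (T.l 816) (T.l 1))) (T.a (T.b (T.l 1) (T.l 816)) (T.l 1)))))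 (T.b (T.a (T.l 1) (T.l 1)) (T.a (T.l 816) (T.a (T.c (T.b (T.l 1) (T.l 816)) (T.a (T.l 816) (T.l 884))) (T.l 1))))) (T.l 1)) (T.a (T.l 816) (T.c (T.b (T.a (T.c (T.b (T.l 1) (T.l 816)) (T.b (T.l 1) (T.l 816))) (T.l 1)) (T.a (T.l 816) (T.c (T.b (T.a (T.l 816) (T.l 1)) (T.l 816)) (T.b (T.a (T.l 816) (T.l 1)) (T.l 816))))) (T.a (T.b (T.c (T.b (T.l 1) (T.l 816)) (T.b (T.l 1) (T.l 816))) (T.l 816)) (T.b (T.l 1) (T.a (T.l 816) (T.a (T.l 816) (T.l 884))))))))))) (T.a (T.l 816) (T.l 816))) (T.b (T.c (T.b (T.l 1) (T.c (T.b (T.a (T.c (T.b (T.a (T.l 1) (T.l 1)) (T.a (T.l 816) (T.c (T.b (T.l 1) (T.l 816)) (T.a (T.l 884) (T.l 1))))) (T.b (T.a (T.l 1) (T.l 1)) (T.a (T.l 816) (T.a (T.l 884) (T.l 1))))) (T.l 1)) (T.a (T.l 816) (T.a (T.c (T.b (T.c (T.b (T.l 1) (T.l 816)) (T.b (T.l 1) (T.l 816))) (T.l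 816)) (T.b (T.c (T.b (T.l 1) (T.l 816)) (T.b (T.l 1) (T.l 816))) (T.l 816))) (T.c (T.b (T.l 1) (T.a (T.l 816) (T.a (T.l 816) (T.l 816)))) (T.b (T.l 1) (T.a (T.l 816) (T.l 816))))))) (T.b (T.a (T.c (T.b (T.a (T.l 1) (T.l 1)) (T.a (T.l 816) (T.a (T.l 884) (T.l 1)))) (T.b (T.a (T.l 1) (T.l 1)) (T.a (T.l 816) (T.a (T.l 816) (T.l 1))))) (T.l 1)) (T.a (T.l 816) (T.a (T.a (T.l 816) (T.c (T.b (T.a (T.l 816) (T.l 1)) (T.l 816)) (T.b (T.l 884) (T.l 816)))) (T.c (T.b (T.l 1) (T.l 816)) (T.b (T.l 1) (T.l 816)))))))) (T.b (T.l 1) (T.c (T.b (T.a (T.c (T.b (T.a (T.l 1) (T.l 1)) (T.a (T.l 816) (T.a (T.l 816) (T.l 1)))) (T.b (T.a (T.l 1) (T.l 1)) (T.a (T.l 816) (T.a (T.l 816) (T.l 1))))) (T.l 1)) (T.a (T.l 816) (T.a (T.a (T.l 816) (T.c (T.b (T.l 884) (T.l 816)) (T.b (T.l 820) (T.l 816)))) (T.c (T.b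 (T.l 1) (T.l 816)) (T.b (T.l 1) (T.l 816)))))) (T.b (T.a (T.c (T.b (T.a (T.l 1) (T.l 1)) (T.a (T.l 816) (T.a (T.l 816) (T.l 1)))) (T.b (T.a (T.l 1) (T.l 1)) (T.a (T.l 816) (T.a (T.l 816) (T.l 1))))) (T.l 1)) (T.a (T.l 816) (T.a (T.l 816) (T.c (T.b (T.l 1) (T.l 816)) (T.b (T.l 1) (T.l 816))))))))) (T.a (T.l 816) (T.l 816)))), by decide +kernel⟩

def B102E_000_11_193_1 :
    ∃ t, chk3 (onCell 0 33554432 0 1073741824 33554432 16777216 (corTK [] false 3 c0N cB102E gN0q1 gN0q2 gN0q0 gN1q0 true true)) t 11 193 1 = true :=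
  ⟨(T.a (T.l 816) (T.l 816)), by decide +kernel⟩

def B102E_000_11_97_1 :
    ∃ t, chk3 (onCell 0 33554432 0 1073741824 33554432 16777216 (corTK [] false 3 c0N cB102E gN0q1 gN0q2 gN0q0 gN1q0 true true)) t 11 97 1 = true :=
  ⟨(T.l 0), by decide +kernel⟩

def B102E_000_5_49_1 :
    ∃ t, chk3 (onCell 0 33554432 0 1073741824 33554432 16777216 (corTK [] false 3 c0N cB102E gN0q1 gN0q2 gN0q0 gN1q0 true true)) t 5 49 1 = true :=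
  ⟨(T.l 0), by decide +kernel⟩

def B102E_000_5_25_1 :
    ∃ t, chk3 (onCell 0 33554432 0 1073741824 33554432 16777216 (corTK [] false 3 c0N cB102E gN0q1 gN0q2 gN0q0 gN1q0 true true)) t 5 25 1 = true :=
  ⟨(T.l 0), by decide +kernel⟩

def B102E_000_6_384_1 :
    ∃ t, chk3 (onCell 0 33554432 0 1073741824 33554432 16777216 (corTK [] false 3 c0N cB102E gN0q1 gN0q2 gN0q0 gN1q0 true true)) t 6 384 1 = true :=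
  ⟨(T.l 1), by decide +kernel⟩

def B102E_000_6_770_2 :
    ∃ t, chk3 (onCell 0 33554432 0 1073741824 33554432 16777216 (corTK [] false 3 c0N cB102E gN0q1 gN0q2 gN0q0 gN1q0 true true)) t 6 770 2 = true :=
  ⟨(T.a (T.a (T.a (T.a (T.c (T.b (T.l 1) (T.a (T.l 1) (T.l 1))) (T.b (T.l 1) (T.a (T.l 1) (T.l 1)))) (T.l 1)) (T.l 1)) (T.l 1)) (T.l 1)), by decide +kernel⟩

def B102E_000_24_771_2 :
    ∃ t, chk3 (onCell 0 33554432 0 1073741824 33554432 16777216 (corTK [] false 3 c0N cB102E gN0q1 gN0q2 gN0q0 gN1q0 true true)) t 24 771 2 = true :=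
  ⟨(T.c (T.b (T.a (T.c (T.b (T.c (T.b (T.a (T.a (T.l 816) (T.a (T.l 816) (T.c (T.b (T.l 1) (T.l 816)) (T.b (T.l 1) (T.l 816))))) (T.c (T.b (T.l 1) (T.a (T.l 816) (T.l 1))) (T.b (T.l 1) (T.a (T.l 816) (T.l 1))))) (T.l 816)) (T.b (T.a (T.a (T.l 816) (T.a (T.l 816) (T.l 816))) (T.c (T.b (T.l 1) (T.a (T.l 816) (T.l 1))) (T.b (T.l 1) (T.a (T.l 816) (T.l 1))))) (T.l 816))) (T.l 816)) (T.b (T.c (T.b (T.a (T.a (T.l 816) (T.l 816)) (T.c (T.b (T.l 1) (T.a (T.l 816) (T.l 1))) (T.b (T.l 1) (T.a (T.l 816) (T.l 1))))) (T.l 816)) (T.a (T.l 816) (T.b (T.c (T.b (T.l 1) (T.a (T.l 816) (T.l 1))) (T.b (T.l 1) (T.a (T.l 816) (T.l 1)))) (T.l 816)))) (T.l 816))) (T.c (T.b (T.a (T.c (T.b (T.l 1) (T.c (T.b (T.l 1) (T.a (T.l 816) (T.a (T.l 816) (T.l 1)))) (T.b (T.l 1) (T.a (T.l 816) (T.a (T.l 816) (T.l 1))))))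 (T.b (T.l 1) (T.c (T.b (T.l 1) (T.a (T.l 816) (T.a (T.l 816) (T.l 1)))) (T.b (T.l 1) (T.a (T.l 816) (T.a (T.l 816) (T.l 1))))))) (T.l 1)) (T.a (T.l 816) (T.a (T.l 816) (T.c (T.b (T.c (T.b (T.l 1) (T.l 816)) (T.b (T.l 1) (T.l 816))) (T.l 816)) (T.b (T.c (T.b (T.l 1) (T.l 816)) (T.b (T.l 1) (T.l 816))) (T.l 816)))))) (T.b (T.a (T.c (T.b (T.l 1) (T.c (T.b (T.l 1) (T.a (T.l 816) (T.a (T.l 816) (T.l 1)))) (T.b (T.l 1) (T.a (T.l 816) (T.a (T.l 816) (T.l 1)))))) (T.b (T.l 1) (T.c (T.b (T.l 1) (T.a (T.l 816) (T.l 816))) (T.b (T.l 1) (T.a (T.l 816) (T.l 816)))))) (T.l 1)) (T.a (T.l 816) (T.a (T.l 816) (T.c (T.b (T.c (T.b (T.l 1) (T.l 816)) (T.b (T.l 1) (T.l 816))) (T.l 816)) (T.b (T.c (T.b (T.l 1) (T.l 816)) (T.b (T.l 1) (T.l 816))) (T.l 816)))))))) (T.l 816)) (T.b (T.a (T.c (T.a (T.l 816)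 (T.b (T.c (T.b (T.c (T.b (T.l 1) (T.a (T.l 816) (T.l 1))) (T.b (T.l 1) (T.a (T.l 816) (T.l 1)))) (T.l 816)) (T.b (T.c (T.b (T.l 1) (T.a (T.l 816) (T.l 1))) (T.b (T.l 1) (T.a (T.l 816) (T.l 1)))) (T.l 816))) (T.l 816))) (T.a (T.l 816) (T.b (T.c (T.b (T.c (T.b (T.l 1) (T.a (T.l 816) (T.l 1))) (T.b (T.l 1) (T.a (T.l 816) (T.l 1)))) (T.l 816)) (T.b (T.c (T.b (T.l 1) (T.a (T.l 816) (T.l 1))) (T.b (T.l 1) (T.a (T.l 816) (T.l 1)))) (T.l 816))) (T.l 816)))) (T.c (T.b (T.a (T.c (T.b (T.l 1) (T.c (T.b (T.l 1) (T.l 816)) (T.b (T.l 1) (T.l 816)))) (T.b (T.l 1) (T.c (T.b (T.l 1) (T.l 816)) (T.b (T.l 1) (T.l 816))))) (T.l 1)) (T.a (T.l 816) (T.a (T.l 816) (T.c (T.b (T.c (T.b (T.l 1) (T.l 816)) (T.b (T.l 1) (T.l 816))) (T.l 816)) (T.b (T.c (T.b (T.l 1) (T.l 816)) (T.b (T.l 1) (T.l 816))) (T.l 816))))))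 (T.b (T.a (T.c (T.b (T.l 1) (T.c (T.b (T.l 1) (T.l 816)) (T.b (T.l 1) (T.l 816)))) (T.b (T.l 1) (T.c (T.b (T.l 1) (T.l 816)) (T.b (T.l 1) (T.l 816))))) (T.l 1)) (T.a (T.l 816) (T.a (T.l 816) (T.a (T.l 816) (T.c (T.b (T.c (T.b (T.l 1) (T.l 816)) (T.b (T.l 1) (T.l 816))) (T.l 816)) (T.b (T.c (T.b (T.l 1) (T.l 816)) (T.b (T.l 1) (T.l 816))) (T.l 816))))))))) (T.l 816))), by decide +kernel⟩

def B102E_000_25_771_2 :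
    ∃ t, chk3 (onCell 0 33554432 0 1073741824 33554432 16777216 (corTK [] false 3 c0N cB102E gN0q1 gN0q2 gN0q0 gN1q0 true true)) t 25 771 2 = true :=
  ⟨(T.c (T.b (T.a (T.c (T.b (T.l 1) (T.c (T.b (T.l 1) (T.a (T.a (T.l 816) (T.a (T.l 816) (T.c (T.b (T.l 1) (T.l 816)) (T.b (T.l 1) (T.l 816))))) (T.c (T.b (T.l 1) (T.a (T.l 816) (T.l 1))) (T.b (T.l 1) (T.a (T.l 816) (T.l 1)))))) (T.b (T.l 1) (T.a (T.a (T.l 816) (T.a (T.l 816) (T.c (T.b (T.l 1) (T.l 816)) (T.b (T.l 1) (T.l 816))))) (T.c (T.b (T.l 1) (T.a (T.l 816) (T.l 1))) (T.b (T.l 1) (T.a (T.l 816) (T.l 1)))))))) (T.b (T.l 1) (T.c (T.b (T.l 1) (T.a (T.a (T.l 816) (T.a (T.l 816) (T.c (T.b (T.l 1) (T.l 816)) (T.b (T.l 1) (T.l 816))))) (T.c (T.b (T.l 1) (T.a (T.l 816) (T.l 1))) (T.b (T.l 1) (T.a (T.l 816) (T.l 1)))))) (T.b (T.l 1) (T.a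 (T.a (T.l 816) (T.a (T.l 816) (T.c (T.b (T.l 1) (T.l 816)) (T.b (T.l 1) (T.l 816))))) (T.c (T.b (T.l 1) (T.a (T.l 816) (T.l 1))) (T.b (T.l 1) (T.a (T.l 816) (T.l 1))))))))) (T.l 1)) (T.c (T.b (T.a (T.l 816) (T.c (T.b (T.a (T.c (T.b (T.l 1) (T.a (T.l 816) (T.a (T.l 816) (T.l 1)))) (T.b (T.l 1) (T.a (T.l 816) (T.a (T.l 816) (T.l 1))))) (T.l 1)) (T.a (T.l 816) (T.c (T.b (T.a (T.l 816) (T.l 1)) (T.l 816)) (T.b (T.a (T.l 816) (T.l 1)) (T.l 816))))) (T.b (T.a (T.c (T.b (T.l 1) (T.a (T.l 816) (T.a (T.l 816) (T.l 1)))) (T.b (T.l 1) (T.a (T.l 816) (T.a (T.l 816) (T.l 1))))) (T.l 1)) (T.a (T.l 816) (T.c (T.b (T.a (T.l 816) (T.l 1)) (T.l 816)) (T.b (T.a (T.l 816) (T.l 1)) (T.l 816))))))) (T.l 816)) (T.a (T.l 816) (T.b (T.c (T.b (T.a (T.c (T.b (T.l 1) (T.a (T.l 816) (T.a (T.l 816) (T.l 1))))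 (T.b (T.l 1) (T.a (T.l 816) (T.a (T.l 816) (T.l 1))))) (T.l 1)) (T.a (T.l 816) (T.c (T.b (T.a (T.l 816) (T.l 1)) (T.l 816)) (T.b (T.a (T.l 816) (T.l 1)) (T.l 816))))) (T.b (T.a (T.c (T.b (T.l 1) (T.a (T.l 816) (T.a (T.l 816) (T.l 1)))) (T.b (T.l 1) (T.a (T.l 816) (T.a (T.l 816) (T.l 1))))) (T.l 1)) (T.a (T.l 816) (T.c (T.b (T.a (T.l 816) (T.l 1)) (T.l 816)) (T.b (T.a (T.l 816) (T.l 1)) (T.l 816)))))) (T.l 816))))) (T.b (T.a (T.c (T.b (T.l 1) (T.c (T.b (T.l 1) (T.a (T.a (T.l 816) (T.c (T.a (T.l 816) (T.l 816)) (T.l 816))) (T.c (T.b (T.l 1) (T.a (T.l 816) (T.l 1))) (T.b (T.l 1) (T.a (T.l 816) (T.l 1)))))) (T.b (T.l 1) (T.a (T.a (T.l 816) (T.l 816)) (T.c (T.b (T.l 1) (T.a (T.l 816) (T.l 1))) (T.b (T.l 1) (T.a (T.l 816) (T.l 1)))))))) (T.b (T.l 1) (T.c (T.b (T.l 1) (T.a (T.l 816) (T.c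 (T.b (T.l 1) (T.a (T.l 816) (T.l 1))) (T.b (T.l 1) (T.a (T.l 816) (T.l 1)))))) (T.b (T.l 1) (T.a (T.l 816) (T.c (T.b (T.l 1) (T.a (T.l 816) (T.l 1))) (T.b (T.l 1) (T.a (T.l 816) (T.l 1))))))))) (T.l 1)) (T.a (T.l 816) (T.c (T.b (T.c (T.b (T.a (T.c (T.b (T.l 1) (T.a (T.l 816) (T.a (T.l 816) (T.l 1)))) (T.b (T.l 1) (T.a (T.l 816) (T.a (T.l 816) (T.l 1))))) (T.l 1)) (T.a (T.l 816) (T.c (T.b (T.a (T.l 816) (T.l 1)) (T.l 816)) (T.b (T.a (T.l 816) (T.l 1)) (T.l 816))))) (T.b (T.a (T.c (T.b (T.l 1) (T.a (T.l 816) (T.a (T.l 816) (T.l 1)))) (T.b (T.l 1) (T.a (T.l 816) (T.a (T.l 816) (T.l 1))))) (T.l 1)) (T.a (T.l 816) (T.c (T.b (T.a (T.l 816) (T.l 1)) (T.l 816)) (T.b (T.a (T.l 816) (T.l 1)) (T.l 816)))))) (T.l 816)) (T.b (T.c (T.b (T.a (T.c (T.b (T.l 1) (T.a (T.l 816) (T.a (T.l 816) (T.l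 1)))) (T.b (T.l 1) (T.a (T.l 816) (T.l 816)))) (T.l 1)) (T.a (T.l 816) (T.c (T.b (T.a (T.l 816) (T.l 1)) (T.l 816)) (T.b (T.a (T.l 816) (T.l 1)) (T.l 816))))) (T.b (T.a (T.c (T.b (T.l 1) (T.a (T.l 816) (T.l 816))) (T.b (T.l 1) (T.l 816))) (T.l 1)) (T.a (T.l 816) (T.c (T.b (T.a (T.l 816) (T.l 1)) (T.l 816)) (T.b (T.a (T.l 816) (T.l 1)) (T.l 816)))))) (T.l 816)))))), by decide +kernel⟩

def B102E_000_13_771_2 :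
    ∃ t, chk3 (onCell 0 33554432 0 1073741824 33554432 16777216 (corTK [] false 3 c0N cB102E gN0q1 gN0q2 gN0q0 gN1q0 true true)) t 13 771 2 = true :=
  ⟨(T.a (T.c (T.b (T.l 1) (T.c (T.b (T.a (T.l 1) (T.l 1)) (T.a (T.c (T.b (T.a (T.a (T.l 816) (T.a (T.l 816) (T.c (T.b (T.l 1) (T.l 816)) (T.b (T.l 1) (T.l 816))))) (T.c (T.b (T.l 1) (T.a (T.a (T.l 816) (T.l 816)) (T.l 1))) (T.b (T.l 1) (T.a (T.l 816) (T.l 1))))) (T.l 816)) (T.b (T.a (T.a (T.l 816) (T.a (T.l 816) (T.c (T.b (T.l 1) (T.l 816)) (T.b (T.l 1) (T.l 816))))) (T.c (T.b (T.l 1) (T.a (T.l 816) (T.l 1))) (T.b (T.l 1) (T.a (T.l 816) (T.l 1))))) (T.l 816))) (T.a (T.c (T.b (T.l 1) (T.c (T.b (T.l 1) (T.a (T.l 816) (T.a (T.l 816) (T.l 1)))) (T.b (T.l 1) (T.a (T.l 816) (T.a (T.l 816) (T.l 1)))))) (T.b (T.l 1) (T.c (T.b (T.l 1) (T.a (T.l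 816) (T.a (T.l 816) (T.l 1)))) (T.b (T.l 1) (T.a (T.l 816) (T.a (T.l 816) (T.l 1))))))) (T.l 1)))) (T.b (T.a (T.l 1) (T.l 1)) (T.a (T.c (T.b (T.a (T.a (T.l 816) (T.a (T.l 816) (T.c (T.b (T.l 1) (T.l 816)) (T.b (T.l 1) (T.l 816))))) (T.c (T.b (T.l 1) (T.a (T.l 816) (T.l 1))) (T.b (T.l 1) (T.a (T.l 816) (T.l 1))))) (T.l 816)) (T.b (T.a (T.a (T.l 816) (T.a (T.l 816) (T.c (T.b (T.l 1) (T.l 816)) (T.b (T.l 1) (T.l 816))))) (T.c (T.b (T.l 1) (T.a (T.l 816) (T.l 1))) (T.b (T.l 1) (T.a (T.l 816) (T.l 1))))) (T.l 816))) (T.a (T.c (T.b (T.l 1) (T.c (T.b (T.l 1) (T.a (T.l 816) (T.a (T.l 816) (T.l 1)))) (T.b (T.l 1) (T.a (T.l 816) (T.a (T.l 816) (T.l 1)))))) (T.b (T.l 1) (T.c (T.b (T.l 1) (T.a (T.l 816) (T.a (T.l 816) (T.l 1)))) (T.b (T.l 1) (T.a (T.l 816) (T.a (T.l 816) (T.l 1))))))) (T.l 1))))))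 (T.b (T.l 1) (T.c (T.b (T.a (T.l 1) (T.l 1)) (T.a (T.c (T.b (T.a (T.a (T.l 816) (T.a (T.l 816) (T.c (T.b (T.l 1) (T.l 816)) (T.b (T.l 1) (T.l 816))))) (T.c (T.b (T.l 1) (T.a (T.l 816) (T.l 1))) (T.b (T.l 1) (T.a (T.l 816) (T.l 1))))) (T.l 816)) (T.b (T.a (T.a (T.l 816) (T.a (T.l 816) (T.c (T.b (T.l 1) (T.l 816)) (T.b (T.l 1) (T.l 816))))) (T.c (T.b (T.l 1) (T.a (T.l 816) (T.l 1))) (T.b (T.l 1) (T.a (T.l 816) (T.l 1))))) (T.l 816))) (T.a (T.c (T.b (T.l 1) (T.c (T.b (T.l 1) (T.a (T.l 816) (T.a (T.l 816) (T.l 1)))) (T.b (T.l 1) (T.a (T.l 816) (T.a (T.l 816) (T.l 1)))))) (T.b (T.l 1) (T.c (T.b (T.l 1) (T.a (T.l 816) (T.a (T.l 816) (T.l 1)))) (T.b (T.l 1) (T.a (T.l 816) (T.a (T.l 816) (T.l 1))))))) (T.l 1)))) (T.b (T.a (T.l 1) (T.l 1)) (T.a (T.c (T.b (T.a (T.a (T.l 816) (T.a (T.l 816)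 (T.c (T.b (T.l 1) (T.l 816)) (T.b (T.l 1) (T.l 816))))) (T.c (T.b (T.l 1) (T.a (T.l 816) (T.l 1))) (T.b (T.l 1) (T.a (T.l 816) (T.l 1))))) (T.l 816)) (T.b (T.a (T.a (T.l 816) (T.a (T.l 816) (T.c (T.b (T.l 1) (T.l 816)) (T.b (T.l 1) (T.l 816))))) (T.c (T.b (T.l 1) (T.a (T.l 816) (T.l 1))) (T.b (T.l 1) (T.a (T.l 816) (T.l 1))))) (T.l 816))) (T.a (T.c (T.b (T.l 1) (T.c (T.b (T.l 1) (T.a (T.l 816) (T.a (T.l 816) (T.l 1)))) (T.b (T.l 1) (T.a (T.l 816) (T.a (T.l 816) (T.l 1)))))) (T.b (T.l 1) (T.c (T.b (T.l 1) (T.a (T.l 816) (T.a (T.l 816) (T.l 1)))) (T.b (T.l 1) (T.a (T.l 816) (T.a (T.l 816) (T.l 1))))))) (T.l 1))))))) (T.l 1)), by decide +kernel⟩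

def B102E_000_6_385_3 :
    ∃ t, chk3 (onCell 0 33554432 0 1073741824 33554432 16777216 (corTK [] false 3 c0N cB102E gN0q1 gN0q2 gN0q0 gN1q0 true true)) t 6 385 3 = true :=
  ⟨(T.b (T.a (T.a (T.a (T.a (T.c (T.b (T.l 1) (T.a (T.l 1) (T.l 1))) (T.b (T.l 1) (T.a (T.l 1) (T.l 1)))) (T.l 1)) (T.l 1)) (T.l 1)) (T.l 1)) (T.a (T.a (T.c (T.b (T.a (T.a (T.l 816) (T.c (T.b (T.c (T.b (T.a (T.c (T.b (T.l 1) (T.l 816)) (T.b (T.l 1) (T.l 816))) (T.l 1)) (T.l 816)) (T.b (T.a (T.a (T.l 816) (T.l 884)) (T.l 1)) (T.l 816))) (T.l 816)) (T.b (T.c (T.b (T.a (T.l 884) (T.l 1)) (T.l 816)) (T.b (T.a (T.l 884) (T.l 1)) (T.l 816))) (T.l 816)))) (T.c (T.b (T.a (T.c (T.b (T.l 1) (T.c (T.b (T.l 1) (T.l 816)) (T.b (T.l 1) (T.l 816)))) (T.b (T.l 1) (T.c (T.b (T.l 1) (T.l 816)) (T.b (T.l 1) (T.l 816))))) (T.l 1))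 (T.a (T.l 816) (T.a (T.l 816) (T.a (T.l 816) (T.c (T.b (T.c (T.b (T.l 1) (T.l 816)) (T.b (T.l 1) (T.l 816))) (T.l 816)) (T.b (T.l 884) (T.l 816))))))) (T.b (T.a (T.c (T.b (T.l 1) (T.c (T.b (T.l 1) (T.l 816)) (T.b (T.l 1) (T.l 816)))) (T.b (T.l 1) (T.c (T.b (T.l 1) (T.l 816)) (T.b (T.l 1) (T.l 816))))) (T.l 1)) (T.a (T.l 816) (T.a (T.l 816) (T.a (T.l 816) (T.c (T.b (T.l 884) (T.l 816)) (T.b (T.l 884) (T.l 816))))))))) (T.l 816)) (T.b (T.a (T.a (T.l 816) (T.c (T.b (T.c (T.b (T.a (T.l 884) (T.l 1)) (T.l 816)) (T.b (T.a (T.l 816) (T.l 1)) (T.l 816))) (T.l 816)) (T.a (T.l 816) (T.b (T.c (T.b (T.l 1) (T.l 816)) (T.b (T.l 1) (T.l 816))) (T.l 816))))) (T.c (T.b (T.a (T.c (T.b (T.l 1) (T.c (T.b (T.l 1) (T.l 816)) (T.b (T.l 1) (T.l 816)))) (T.b (T.l 1) (T.c (T.b (T.l 1) (T.l 816)) (T.a (T.l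 816) (T.l 884))))) (T.l 1)) (T.a (T.l 816) (T.a (T.l 816) (T.a (T.l 816) (T.l 816))))) (T.b (T.a (T.c (T.b (T.l 1) (T.a (T.l 816) (T.l 884))) (T.b (T.l 1) (T.a (T.l 816) (T.l 884)))) (T.l 1)) (T.a (T.l 816) (T.l 816))))) (T.l 816))) (T.c (T.b (T.a (T.c (T.b (T.l 1) (T.c (T.b (T.l 1) (T.a (T.l 816) (T.c (T.b (T.l 1) (T.a (T.l 816) (T.l 1))) (T.b (T.l 1) (T.a (T.l 816) (T.l 1)))))) (T.b (T.l 1) (T.a (T.l 816) (T.c (T.b (T.l 1) (T.a (T.l 816) (T.l 1))) (T.b (T.l 1) (T.a (T.l 816) (T.l 1)))))))) (T.b (T.l 1) (T.c (T.b (T.l 1) (T.a (T.l 816) (T.c (T.b (T.l 1) (T.a (T.l 816) (T.l 1))) (T.a (T.b (T.l 1) (T.l 816)) (T.l 1))))) (T.b (T.l 1) (T.a (T.l 816) (T.a (T.c (T.b (T.l 1) (T.l 816)) (T.b (T.l 1) (T.l 816))) (T.l 1))))))) (T.l 1)) (T.a (T.l 816) (T.c (T.b (T.c (T.b (T.a (T.c (T.b (T.l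 1) (T.l 816)) (T.b (T.l 1) (T.l 816))) (T.l 1)) (T.a (T.l 816) (T.c (T.b (T.a (T.l 816) (T.l 1)) (T.l 816)) (T.b (T.a (T.l 816) (T.l 1)) (T.l 816))))) (T.b (T.a (T.c (T.b (T.l 1) (T.l 816)) (T.b (T.l 1) (T.l 816))) (T.l 1)) (T.a (T.l 816) (T.c (T.b (T.a (T.l 816) (T.l 1)) (T.l 816)) (T.b (T.a (T.l 816) (T.l 1)) (T.l 816)))))) (T.l 816)) (T.b (T.c (T.b (T.a (T.c (T.b (T.l 1) (T.l 816)) (T.b (T.l 1) (T.l 816))) (T.l 1)) (T.a (T.l 816) (T.c (T.b (T.a (T.l 816) (T.l 1)) (T.l 816)) (T.b (T.a (T.l 816) (T.l 1)) (T.l 816))))) (T.b (T.a (T.c (T.b (T.l 1) (T.l 816)) (T.b (T.l 1) (T.l 816))) (T.l 1)) (T.a (T.l 816) (T.c (T.b (T.a (T.l 816) (T.l 1)) (T.l 816)) (T.b (T.a (T.l 816) (T.l 1)) (T.l 816)))))) (T.l 816))))) (T.b (T.a (T.c (T.b (T.l 1) (T.c (T.b (T.l 1) (T.a (T.l 816) (T.a (T.c (T.b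 (T.l 1) (T.l 816)) (T.a (T.l 816) (T.l 884))) (T.l 1)))) (T.b (T.l 1) (T.a (T.l 816) (T.a (T.l 884) (T.l 1)))))) (T.b (T.l 1) (T.c (T.b (T.l 1) (T.a (T.l 816) (T.a (T.l 884) (T.l 1)))) (T.b (T.l 1) (T.a (T.l 816) (T.a (T.l 884) (T.l 1))))))) (T.l 1)) (T.a (T.l 816) (T.c (T.b (T.c (T.b (T.a (T.c (T.b (T.l 1) (T.l 816)) (T.b (T.l 1) (T.l 816))) (T.l 1)) (T.a (T.l 816) (T.c (T.b (T.a (T.l 816) (T.l 1)) (T.l 816)) (T.b (T.a (T.l 816) (T.l 1)) (T.l 816))))) (T.b (T.a (T.c (T.b (T.l 1) (T.l 816)) (T.b (T.l 1) (T.l 816))) (T.l 1)) (T.a (T.l 816) (T.c (T.b (T.a (T.l 816) (T.l 1)) (T.l 816)) (T.b (T.a (T.l 816) (T.l 1)) (T.l 816)))))) (T.l 816)) (T.b (T.a (T.c (T.b (T.c (T.b (T.l 1) (T.l 816)) (T.b (T.l 1) (T.l 816))) (T.l 816)) (T.b (T.c (T.b (T.l 1) (T.l 816)) (T.b (T.l 1) (T.l 816))) (T.l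 816))) (T.c (T.b (T.l 1) (T.c (T.b (T.a (T.l 816) (T.l 1)) (T.l 816)) (T.b (T.a (T.l 816) (T.l 1)) (T.l 816)))) (T.b (T.l 1) (T.c (T.b (T.a (T.l 816) (T.l 1)) (T.l 816)) (T.b (T.l 884) (T.l 816)))))) (T.l 816))))))) (T.a (T.c (T.b (T.l 1) (T.c (T.b (T.a (T.l 1) (T.l 1)) (T.a (T.c (T.b (T.a (T.a (T.l 816) (T.c (T.l 816) (T.l 816))) (T.c (T.b (T.l 1) (T.a (T.l 816) (T.l 1))) (T.b (T.l 1) (T.a (T.l 816) (T.l 1))))) (T.l 816)) (T.b (T.a (T.a (T.l 816) (T.l 816)) (T.c (T.b (T.l 1) (T.a (T.l 816) (T.l 1))) (T.b (T.l 1) (T.a (T.l 816) (T.l 1))))) (T.l 816))) (T.a (T.c (T.b (T.l 1) (T.c (T.b (T.l 1) (T.a (T.l 816) (T.a (T.l 816) (T.l 1)))) (T.b (T.l 1) (T.a (T.l 816) (T.a (T.l 816) (T.l 1)))))) (T.b (T.l 1) (T.c (T.b (T.l 1) (T.a (T.l 816) (T.a (T.l 816) (T.l 1)))) (T.b (T.l 1) (T.a (T.l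 816) (T.a (T.l 816) (T.l 1))))))) (T.l 1)))) (T.b (T.a (T.l 1) (T.l 1)) (T.a (T.a (T.l 816) (T.c (T.b (T.c (T.b (T.l 1) (T.a (T.l 816) (T.l 1))) (T.b (T.l 1) (T.a (T.l 816) (T.l 1)))) (T.l 816)) (T.b (T.c (T.b (T.l 1) (T.a (T.l 816) (T.l 1))) (T.b (T.l 1) (T.a (T.l 816) (T.l 1)))) (T.l 816)))) (T.a (T.c (T.b (T.l 1) (T.c (T.b (T.l 1) (T.a (T.l 816) (T.l 816))) (T.b (T.l 1) (T.a (T.l 816) (T.l 816))))) (T.b (T.l 1) (T.c (T.b (T.l 1) (T.l 816)) (T.b (T.l 1) (T.l 816))))) (T.l 1)))))) (T.b (T.l 1) (T.c (T.b (T.a (T.l 1) (T.l 1)) (T.a (T.a (T.l 816) (T.c (T.b (T.c (T.b (T.l 1) (T.a (T.l 816) (T.l 1))) (T.b (T.l 1) (T.a (T.l 816) (T.l 1)))) (T.l 816)) (T.b (T.c (T.b (T.l 1) (T.a (T.l 816) (T.l 1))) (T.a (T.b (T.l 1) (T.l 816)) (T.l 1))) (T.l 816)))) (T.a (T.c (T.b (T.l 1) (T.c (T.b (T.l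 1) (T.l 816)) (T.b (T.l 1) (T.l 816)))) (T.b (T.l 1) (T.c (T.b (T.l 1) (T.l 816)) (T.b (T.l 1) (T.l 816))))) (T.l 1)))) (T.b (T.a (T.l 1) (T.l 1)) (T.a (T.a (T.l 816) (T.c (T.b (T.a (T.c (T.b (T.l 1) (T.l 816)) (T.b (T.l 1) (T.l 816))) (T.l 1)) (T.l 816)) (T.b (T.a (T.c (T.b (T.l 1) (T.l 816)) (T.b (T.l 1) (T.l 816))) (T.l 1)) (T.l 816)))) (T.a (T.c (T.b (T.l 1) (T.c (T.b (T.l 1) (T.l 816)) (T.b (T.l 1) (T.l 816)))) (T.b (T.l 1) (T.c (T.b (T.l 1) (T.l 816)) (T.b (T.l 1) (T.l 816))))) (T.l 1))))))) (T.l 1)))), by decide +kernel⟩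

def B102E_000_12_193_1 :
    ∃ t, chk3 (onCell 0 33554432 0 1073741824 33554432 16777216 (corTK [] false 3 c0N cB102E gN0q1 gN0q2 gN0q0 gN1q0 true true)) t 12 193 1 = true :=
  ⟨(T.a (T.l 816) (T.c (T.l 816) (T.l 816))), by decide +kernel⟩

def B102E_000_26_386_1 :
    ∃ t, chk3 (onCell 0 33554432 0 1073741824 33554432 16777216 (corTK [] false 3 c0N cB102E gN0q1 gN0q2 gN0q0 gN1q0 true true)) t 26 386 1 = true :=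
  ⟨(T.a (T.l 816) (T.c (T.a (T.l 816) (T.b (T.c (T.b (T.c (T.b (T.c (T.b (T.c (T.b (T.a (T.c (T.b (T.l 1) (T.l 816)) (T.b (T.l 1) (T.l 816))) (T.l 1)) (T.l 816)) (T.b (T.a (T.c (T.b (T.l 1) (T.l 816)) (T.b (T.l 1) (T.l 816))) (T.l 1)) (T.l 816))) (T.l 816)) (T.b (T.c (T.b (T.a (T.c (T.b (T.l 1) (T.l 816)) (T.a (T.l 816) (T.l 816))) (T.l 1)) (T.l 816)) (T.b (T.a (T.a (T.l 816) (T.l 816)) (T.l 1)) (T.l 816))) (T.l 816))) (T.l 816)) (T.b (T.c (T.b (T.c (T.a (T.l 816) (T.b (T.l 1) (T.l 816))) (T.a (T.l 816) (T.b (T.l 1) (T.l 816)))) (T.l 816)) (T.a (T.l 816) (T.b (T.c (T.b (T.l 1) (T.l 816)) (T.b (T.l 1) (T.l 816))) (T.l 816)))) (T.l 816))) (T.l 816)) (T.b (T.c (T.a (T.l 816) (T.b (T.c (T.b (T.c (T.b (T.l 1) (T.l 816)) (T.b (T.l 1) (T.l 816))) (T.l 816)) (T.b (T.c (T.b (T.l 1) (T.l 816))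 (T.b (T.l 1) (T.l 816))) (T.l 816))) (T.l 816))) (T.a (T.l 816) (T.b (T.c (T.b (T.c (T.b (T.l 1) (T.l 816)) (T.b (T.l 1) (T.l 816))) (T.l 816)) (T.b (T.c (T.b (T.l 1) (T.l 816)) (T.b (T.l 1) (T.l 816))) (T.l 816))) (T.l 816)))) (T.l 816))) (T.l 816))) (T.a (T.l 816) (T.b (T.c (T.b (T.a (T.l 816) (T.c (T.b (T.c (T.b (T.c (T.b (T.l 1) (T.l 816)) (T.b (T.l 1) (T.l 816))) (T.l 816)) (T.b (T.c (T.b (T.l 1) (T.l 816)) (T.b (T.l 1) (T.l 816))) (T.l 816))) (T.l 816)) (T.b (T.c (T.b (T.c (T.b (T.l 1) (T.l 816)) (T.b (T.l 1) (T.l 816))) (T.l 816)) (T.b (T.c (T.b (T.l 1) (T.l 816)) (T.b (T.l 1) (T.l 816))) (T.l 816))) (T.l 816)))) (T.l 816)) (T.b (T.a (T.l 816) (T.c (T.b (T.c (T.b (T.c (T.b (T.l 1) (T.l 816)) (T.b (T.l 1) (T.l 816))) (T.l 816)) (T.b (T.c (T.b (T.l 1) (T.l 816)) (T.b (T.l 1)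 (T.l 816))) (T.l 816))) (T.l 816)) (T.b (T.a (T.l 816) (T.c (T.b (T.c (T.b (T.l 1) (T.l 816)) (T.b (T.l 1) (T.l 816))) (T.l 816)) (T.b (T.c (T.b (T.l 1) (T.l 816)) (T.b (T.l 1) (T.l 816))) (T.l 816)))) (T.l 816)))) (T.l 816))) (T.l 816))))), by decide +kernel⟩

def B102E_000_27_386_2 :
    ∃ t, chk3 (onCell 0 33554432 0 1073741824 33554432 16777216 (corTK [] false 3 c0N cB102E gN0q1 gN0q2 gN0q0 gN1q0 true true)) t 27 386 2 = true :=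
  ⟨(T.b (T.c (T.b (T.c (T.b (T.a (T.c (T.b (T.l 1) (T.a (T.a (T.l 816) (T.a (T.l 816) (T.c (T.b (T.l 1) (T.l 816)) (T.b (T.l 1) (T.l 816))))) (T.c (T.b (T.l 1) (T.a (T.c (T.b (T.l 1) (T.l 816)) (T.b (T.l 1) (T.l 816))) (T.l 1))) (T.b (T.l 1) (T.a (T.c (T.b (T.l 1) (T.l 816)) (T.b (T.l 1) (T.l 816))) (T.l 1)))))) (T.b (T.l 1) (T.a (T.a (T.l 816) (T.a (T.l 816) (T.c (T.b (T.l 1) (T.l 816)) (T.b (T.l 1) (T.l 816))))) (T.c (T.b (T.l 1) (T.a (T.c (T.b (T.l 1) (T.l 816)) (T.b (T.l 1) (T.l 816))) (T.l 1))) (T.b (T.l 1) (T.a (T.c (T.b (T.l 1) (T.l 816)) (T.b (T.l 1) (T.l 816))) (T.l 1))))))) (T.l 1)) (T.a (T.a (T.l 816) (T.l 816)) (T.c (T.b (T.a (T.c (T.b (T.l 1) (T.a (T.l 816) (T.a (T.l 816) (T.l 1)))) (T.b (T.l 1) (T.a (T.l 816) (T.a (T.l 816) (T.l 1))))) (T.l 1)) (T.a (T.l 816) (T.c (T.b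 (T.a (T.c (T.b (T.l 1) (T.l 816)) (T.b (T.l 1) (T.l 816))) (T.l 1)) (T.l 816)) (T.b (T.a (T.c (T.b (T.l 1) (T.l 816)) (T.b (T.l 1) (T.l 816))) (T.l 1)) (T.l 816))))) (T.b (T.a (T.c (T.b (T.l 1) (T.a (T.l 816) (T.a (T.l 816) (T.l 1)))) (T.b (T.l 1) (T.a (T.l 816) (T.a (T.l 816) (T.l 1))))) (T.l 1)) (T.a (T.l 816) (T.c (T.b (T.a (T.c (T.b (T.l 1) (T.l 816)) (T.b (T.l 1) (T.l 816))) (T.l 1)) (T.l 816)) (T.b (T.a (T.c (T.b (T.l 1) (T.l 816)) (T.b (T.l 1) (T.l 816))) (T.l 1)) (T.l 816)))))))) (T.b (T.a (T.c (T.b (T.l 1) (T.a (T.a (T.l 816) (T.a (T.l 816) (T.c (T.b (T.l 1) (T.l 816)) (T.b (T.l 1) (T.l 816))))) (T.a (T.c (T.b (T.l 1) (T.c (T.b (T.l 1) (T.l 816)) (T.b (T.l 1) (T.l 816)))) (T.b (T.l 1) (T.c (T.b (T.l 1) (T.l 816)) (T.b (T.l 1) (T.l 816))))) (T.l 1)))) (T.b (T.l 1) (T.a (T.a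 (T.l 816) (T.a (T.l 816) (T.c (T.b (T.l 1) (T.l 816)) (T.b (T.l 1) (T.l 816))))) (T.a (T.c (T.b (T.l 1) (T.c (T.b (T.l 1) (T.l 816)) (T.a (T.l 816) (T.l 816)))) (T.b (T.l 1) (T.a (T.l 816) (T.l 816)))) (T.l 1))))) (T.l 1)) (T.a (T.l 816) (T.c (T.b (T.a (T.c (T.b (T.l 1) (T.a (T.l 816) (T.a (T.l 816) (T.l 1)))) (T.b (T.l 1) (T.a (T.l 816) (T.a (T.l 816) (T.l 1))))) (T.l 1)) (T.a (T.l 816) (T.c (T.b (T.a (T.c (T.b (T.l 1) (T.l 816)) (T.b (T.l 1) (T.l 816))) (T.l 1)) (T.l 816)) (T.b (T.a (T.c (T.b (T.l 1) (T.l 816)) (T.b (T.l 1) (T.l 816))) (T.l 1)) (T.l 816))))) (T.b (T.a (T.c (T.b (T.l 1) (T.a (T.l 816) (T.a (T.l 816) (T.l 1)))) (T.b (T.l 1) (T.a (T.l 816) (T.a (T.l 816) (T.l 1))))) (T.l 1)) (T.a (T.l 816) (T.c (T.b (T.a (T.c (T.b (T.l 1) (T.l 816)) (T.b (T.l 1) (T.l 816))) (T.l 1))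 (T.l 816)) (T.b (T.a (T.c (T.b (T.l 1) (T.l 816)) (T.b (T.l 1) (T.l 816))) (T.l 1)) (T.l 816))))))))) (T.l 816)) (T.b (T.c (T.b (T.a (T.c (T.b (T.l 1) (T.a (T.a (T.l 816) (T.a (T.l 816) (T.c (T.b (T.l 1) (T.l 816)) (T.b (T.l 1) (T.l 816))))) (T.a (T.c (T.b (T.l 1) (T.l 816)) (T.b (T.l 1) (T.l 816))) (T.l 1)))) (T.b (T.l 1) (T.a (T.a (T.l 816) (T.a (T.l 816) (T.c (T.b (T.l 1) (T.l 816)) (T.b (T.l 1) (T.l 816))))) (T.a (T.c (T.b (T.l 1) (T.l 816)) (T.b (T.l 1) (T.l 816))) (T.l 1))))) (T.l 1)) (T.a (T.l 816) (T.c (T.b (T.a (T.c (T.b (T.l 1) (T.a (T.l 816) (T.a (T.l 816) (T.l 1)))) (T.b (T.l 1) (T.a (T.l 816) (T.a (T.l 816) (T.l 1))))) (T.l 1)) (T.a (T.l 816) (T.c (T.b (T.a (T.c (T.b (T.l 1) (T.l 816)) (T.b (T.l 1) (T.l 816))) (T.l 1)) (T.l 816)) (T.b (T.a (T.c (T.b (T.l 1) (T.l 816))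 (T.b (T.l 1) (T.l 816))) (T.l 1)) (T.l 816))))) (T.b (T.a (T.c (T.b (T.l 1) (T.a (T.l 816) (T.a (T.l 816) (T.l 1)))) (T.b (T.l 1) (T.a (T.l 816) (T.a (T.l 816) (T.l 1))))) (T.l 1)) (T.a (T.l 816) (T.c (T.b (T.a (T.c (T.b (T.l 1) (T.l 816)) (T.b (T.l 1) (T.l 816))) (T.l 1)) (T.l 816)) (T.b (T.a (T.a (T.l 816) (T.l 816)) (T.l 1)) (T.l 816)))))))) (T.b (T.a (T.c (T.b (T.l 1) (T.a (T.a (T.l 816) (T.a (T.l 816) (T.c (T.b (T.l 1) (T.l 816)) (T.b (T.l 1) (T.l 816))))) (T.a (T.c (T.b (T.l 1) (T.l 816)) (T.b (T.l 1) (T.l 816))) (T.l 1)))) (T.b (T.l 1) (T.a (T.a (T.l 816) (T.a (T.l 816) (T.c (T.b (T.l 1) (T.l 816)) (T.b (T.l 1) (T.l 816))))) (T.c (T.b (T.l 1) (T.a (T.l 816) (T.l 1))) (T.b (T.l 1) (T.a (T.l 816) (T.l 1))))))) (T.l 1)) (T.a (T.l 816) (T.c (T.b (T.a (T.c (T.b (T.l 1) (T.a (T.l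 816) (T.a (T.l 816) (T.l 1)))) (T.b (T.l 1) (T.a (T.l 816) (T.a (T.l 816) (T.l 1))))) (T.l 1)) (T.a (T.l 816) (T.c (T.b (T.a (T.a (T.l 816) (T.l 816)) (T.l 1)) (T.l 816)) (T.a (T.l 816) (T.b (T.l 1) (T.l 816)))))) (T.b (T.a (T.c (T.b (T.l 1) (T.a (T.l 816) (T.a (T.l 816) (T.l 1)))) (T.b (T.l 1) (T.a (T.l 816) (T.a (T.l 816) (T.l 1))))) (T.l 1)) (T.a (T.l 816) (T.a (T.l 816) (T.c (T.b (T.l 1) (T.l 816)) (T.b (T.l 1) (T.l 816)))))))))) (T.l 816))) (T.l 816)), by decide +kernel⟩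

def B102E_000_27_386_3 :
    ∃ t, chk3 (onCell 0 33554432 0 1073741824 33554432 16777216 (corTK [] false 3 c0N cB102E gN0q1 gN0q2 gN0q0 gN1q0 true true)) t 27 386 3 = true :=
  ⟨(T.b (T.c (T.b (T.c (T.b (T.a (T.c (T.b (T.l 1) (T.a (T.a (T.l 816) (T.a (T.l 816) (T.c (T.b (T.l 1) (T.l 816)) (T.b (T.l 1) (T.l 816))))) (T.c (T.b (T.l 1) (T.a (T.l 816) (T.l 1))) (T.b (T.l 1) (T.a (T.l 816) (T.l 1)))))) (T.b (T.l 1) (T.a (T.a (T.l 816) (T.a (T.l 816) (T.c (T.b (T.l 1) (T.l 816)) (T.b (T.l 1) (T.l 816))))) (T.c (T.b (T.l 1) (T.a (T.l 816) (T.l 1))) (T.b (T.l 1) (T.a (T.l 816) (T.l 1))))))) (T.l 1)) (T.a (T.l 816) (T.c (T.b (T.a (T.c (T.b (T.l 1) (T.a (T.l 816) (T.a (T.l 816) (T.l 1)))) (T.b (T.l 1) (T.a (T.l 816) (T.a (T.l 816) (T.l 1))))) (T.l 1)) (T.a (T.l 816) (T.a (T.l 816) (T.c (T.b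 (T.l 1) (T.l 816)) (T.b (T.l 1) (T.l 816)))))) (T.b (T.a (T.c (T.b (T.l 1) (T.a (T.l 816) (T.a (T.l 816) (T.l 1)))) (T.b (T.l 1) (T.a (T.l 816) (T.a (T.l 816) (T.l 1))))) (T.l 1)) (T.a (T.l 816) (T.c (T.b (T.a (T.l 816) (T.l 1)) (T.l 816)) (T.b (T.a (T.l 816) (T.l 1)) (T.l 816)))))))) (T.b (T.a (T.c (T.b (T.l 1) (T.a (T.a (T.l 816) (T.a (T.l 816) (T.c (T.b (T.l 1) (T.l 816)) (T.b (T.l 1) (T.l 816))))) (T.c (T.b (T.l 1) (T.a (T.l 816) (T.l 1))) (T.b (T.l 1) (T.a (T.l 816) (T.l 1)))))) (T.b (T.l 1) (T.a (T.a (T.l 816) (T.a (T.l 816) (T.c (T.b (T.l 1) (T.l 816)) (T.b (T.l 1) (T.l 816))))) (T.c (T.b (T.l 1) (T.a (T.l 816) (T.l 1))) (T.b (T.l 1) (T.a (T.l 816) (T.l 1))))))) (T.l 1)) (T.a (T.l 816) (T.c (T.b (T.a (T.c (T.b (T.l 1) (T.a (T.l 816) (T.a (T.l 816) (T.l 1)))) (T.b (T.l 1) (T.a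 (T.l 816) (T.a (T.l 816) (T.l 1))))) (T.l 1)) (T.a (T.l 816) (T.c (T.b (T.a (T.l 816) (T.l 1)) (T.l 816)) (T.b (T.a (T.l 816) (T.l 1)) (T.l 816))))) (T.b (T.a (T.c (T.b (T.l 1) (T.a (T.l 816) (T.a (T.l 816) (T.l 1)))) (T.b (T.l 1) (T.a (T.l 816) (T.a (T.l 816) (T.l 1))))) (T.l 1)) (T.a (T.l 816) (T.c (T.b (T.a (T.l 816) (T.l 1)) (T.l 816)) (T.b (T.a (T.l 816) (T.l 1)) (T.l 816))))))))) (T.l 816)) (T.b (T.c (T.b (T.a (T.c (T.b (T.l 1) (T.a (T.a (T.l 816) (T.a (T.l 816) (T.l 816))) (T.c (T.b (T.l 1) (T.a (T.l 816) (T.l 1))) (T.b (T.l 1) (T.a (T.l 816) (T.l 1)))))) (T.b (T.l 1) (T.a (T.a (T.l 816) (T.l 816)) (T.c (T.b (T.l 1) (T.a (T.l 816) (T.l 1))) (T.b (T.l 1) (T.a (T.l 816) (T.l 1))))))) (T.l 1)) (T.a (T.l 816) (T.c (T.b (T.a (T.c (T.b (T.l 1) (T.a (T.l 816) (T.a (T.l 816) (T.l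 1)))) (T.b (T.l 1) (T.a (T.l 816) (T.a (T.l 816) (T.l 1))))) (T.l 1)) (T.a (T.l 816) (T.c (T.b (T.a (T.l 816) (T.l 1)) (T.l 816)) (T.b (T.a (T.l 816) (T.l 1)) (T.l 816))))) (T.b (T.a (T.c (T.b (T.l 1) (T.a (T.l 816) (T.a (T.l 816) (T.l 1)))) (T.b (T.l 1) (T.a (T.l 816) (T.a (T.l 816) (T.l 1))))) (T.l 1)) (T.a (T.l 816) (T.c (T.b (T.a (T.l 816) (T.l 1)) (T.l 816)) (T.b (T.a (T.l 816) (T.l 1)) (T.l 816)))))))) (T.b (T.a (T.c (T.b (T.l 1) (T.a (T.l 816) (T.c (T.b (T.l 1) (T.a (T.l 816) (T.l 1))) (T.b (T.l 1) (T.a (T.l 816) (T.l 1)))))) (T.b (T.l 1) (T.a (T.l 816) (T.c (T.b (T.l 1) (T.a (T.l 816) (T.l 1))) (T.b (T.l 1) (T.a (T.l 816) (T.l 1))))))) (T.l 1)) (T.a (T.l 816) (T.c (T.b (T.a (T.c (T.b (T.l 1) (T.a (T.l 816) (T.a (T.l 816) (T.l 1)))) (T.b (T.l 1) (T.a (T.l 816) (T.l 816))))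 (T.l 1)) (T.a (T.l 816) (T.c (T.b (T.a (T.l 816) (T.l 1)) (T.l 816)) (T.b (T.a (T.l 816) (T.l 1)) (T.l 816))))) (T.b (T.a (T.c (T.b (T.l 1) (T.a (T.l 816) (T.l 816))) (T.b (T.l 1) (T.l 816))) (T.l 1)) (T.a (T.l 816) (T.c (T.b (T.a (T.l 816) (T.l 1)) (T.l 816)) (T.b (T.a (T.l 816) (T.l 1)) (T.l 816))))))))) (T.l 816))) (T.l 816)), by decide +kernel⟩

def B102E_000_13_387_1 :
    ∃ t, chk3 (onCell 0 33554432 0 1073741824 33554432 16777216 (corTK [] false 3 c0N cB102E gN0q1 gN0q2 gN0q0 gN1q0 true true)) t 13 387 1 = true :=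
  ⟨(T.l 816), by decide +kernel⟩

def B102E_000_6_97_1 :
    ∃ t, chk3 (onCell 0 33554432 0 1073741824 33554432 16777216 (corTK [] false 3 c0N cB102E gN0q1 gN0q2 gN0q0 gN1q0 true true)) t 6 97 1 = true :=
  ⟨(T.a (T.l 816) (T.l 816)), by decide +kernel⟩

def B102E_000_6_49_1 :
    ∃ t, chk3 (onCell 0 33554432 0 1073741824 33554432 16777216 (corTK [] false 3 c0N cB102E gN0q1 gN0q2 gN0q0 gN1q0 true true)) t 6 49 1 = true :=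
  ⟨(T.l 0), by decide +kernel⟩

def B102E_000_7_192_1 :
    ∃ t, chk3 (onCell 0 33554432 0 1073741824 33554432 16777216 (corTK [] false 3 c0N cB102E gN0q1 gN0q2 gN0q0 gN1q0 true true)) t 7 192 1 = true :=
  ⟨(T.l 1), by decide +kernel⟩

end Pool.Agent.Strip051.G.I1_32_3_64.Tab.CN
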