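import Pool.Agent.Strip051.G.I1_32_3_64.Gn
import Pool.Agent.Strip051.PB.Corns
import Pool.Agent.Strip051.PB.CornK

/-! # Certificates of the aligned corners (generated) -/

set_option linter.all false

namespace Pool.Agent.Strip051.G.I1_32_3_64.Tab.CN

open Pool.Agent.Strip051.PB

def B102E_000_14_772_4 :
    ∃ t, chk3 (onCell 0 33554432 0 1073741824 33554432 16777216 (corTK [] false 3 c0N cB102E gN0q1 gN0q2 gN0q0 gN1q0 true true)) t 14 772 4 = true :=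
  ⟨(T.b (T.a (T.a (T.l 1) (T.l 1)) (T.l 1)) (T.a (T.a (T.c (T.b (T.c (T.b (T.a (T.a (T.l 816) (T.a (T.l 816) (T.c (T.b (T.l 1) (T.l 816)) (T.b (T.l 1) (T.l 816))))) (T.c (T.b (T.l 1) (T.a (T.c (T.b (T.l 1) (T.l 816)) (T.b (T.l 1) (T.l 816))) (T.l 1))) (T.b (T.l 1) (T.a (T.c (T.b (T.l 1) (T.l 816)) (T.b (T.l 1) (T.l 816))) (T.l 1))))) (T.l 816)) (T.b (T.a (T.a (T.l 816) (T.a (T.l 816) (T.c (T.b (T.l 1) (T.l 816)) (T.b (T.l 1) (T.l 816))))) (T.c (T.b (T.l 1) (T.a (T.c (T.b (T.l 1) (T.l 816)) (T.b (T.l 1) (T.l 816))) (T.l 1))) (T.b (T.l 1) (T.a (T.c (T.b (T.l 1) (T.l 816)) (T.b (T.l 1) (T.l 816))) (T.l 1))))) (T.l 816))) (T.l 816)) (T.b (T.c (T.b (T.a (T.a (T.l 816) (T.a (T.l 816) (T.c (T.b (T.l 1) (T.l 816)) (T.b (T.l 1) (T.l 816))))) (T.c (T.b (T.l 1) (T.a (T.c (T.b (T.l 1) (T.l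 816)) (T.b (T.l 1) (T.l 816))) (T.l 1))) (T.b (T.l 1) (T.a (T.c (T.b (T.l 1) (T.l 816)) (T.b (T.l 1) (T.l 816))) (T.l 1))))) (T.l 816)) (T.b (T.a (T.a (T.l 816) (T.a (T.l 816) (T.c (T.b (T.l 1) (T.l 816)) (T.b (T.l 1) (T.l 816))))) (T.c (T.b (T.l 1) (T.a (T.c (T.b (T.l 1) (T.l 816)) (T.b (T.l 1) (T.l 816))) (T.l 1))) (T.b (T.l 1) (T.a (T.c (T.b (T.l 1) (T.l 816)) (T.b (T.l 1) (T.l 816))) (T.l 1))))) (T.l 816))) (T.l 816))) (T.c (T.b (T.a (T.c (T.b (T.l 1) (T.c (T.b (T.l 1) (T.a (T.l 816) (T.a (T.l 816) (T.l 1)))) (T.b (T.l 1) (T.a (T.l 816) (T.a (T.l 816) (T.l 1)))))) (T.b (T.l 1) (T.c (T.b (T.l 1) (T.a (T.l 816) (T.a (T.l 816) (T.l 1)))) (T.b (T.l 1) (T.a (T.l 816) (T.a (T.l 816) (T.l 1))))))) (T.l 1)) (T.a (T.l 816) (T.c (T.b (T.c (T.b (T.a (T.c (T.b (T.l 1) (T.l 816)) (T.b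 (T.l 1) (T.l 816))) (T.l 1)) (T.l 816)) (T.b (T.a (T.c (T.b (T.l 1) (T.l 816)) (T.b (T.l 1) (T.l 816))) (T.l 1)) (T.l 816))) (T.l 816)) (T.b (T.c (T.b (T.a (T.c (T.b (T.l 1) (T.l 816)) (T.b (T.l 1) (T.l 816))) (T.l 1)) (T.l 816)) (T.b (T.a (T.c (T.b (T.l 1) (T.l 816)) (T.b (T.l 1) (T.l 816))) (T.l 1)) (T.l 816))) (T.l 816))))) (T.b (T.a (T.c (T.b (T.l 1) (T.c (T.b (T.l 1) (T.a (T.l 816) (T.a (T.l 816) (T.l 1)))) (T.b (T.l 1) (T.a (T.l 816) (T.a (T.l 816) (T.l 1)))))) (T.b (T.l 1) (T.c (T.b (T.l 1) (T.a (T.l 816) (T.a (T.l 816) (T.l 1)))) (T.b (T.l 1) (T.a (T.l 816) (T.a (T.l 816) (T.l 1))))))) (T.l 1)) (T.a (T.l 816) (T.c (T.b (T.c (T.b (T.a (T.c (T.b (T.l 1) (T.l 816)) (T.b (T.l 1) (T.l 816))) (T.l 1)) (T.l 816)) (T.b (T.a (T.c (T.b (T.l 1) (T.l 816)) (T.b (T.l 1) (T.l 816)))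 (T.l 1)) (T.l 816))) (T.l 816)) (T.b (T.c (T.b (T.a (T.c (T.b (T.l 1) (T.l 816)) (T.b (T.l 1) (T.l 816))) (T.l 1)) (T.l 816)) (T.b (T.a (T.c (T.b (T.l 1) (T.l 816)) (T.b (T.l 1) (T.l 816))) (T.l 1)) (T.l 816))) (T.l 816))))))) (T.a (T.c (T.b (T.l 1) (T.c (T.b (T.l 1) (T.a (T.a (T.l 816) (T.a (T.l 816) (T.c (T.b (T.l 1) (T.l 816)) (T.b (T.l 1) (T.l 816))))) (T.c (T.b (T.l 1) (T.a (T.c (T.b (T.l 1) (T.l 816)) (T.b (T.l 1) (T.l 816))) (T.l 1))) (T.b (T.l 1) (T.a (T.c (T.b (T.l 1) (T.l 816)) (T.b (T.l 1) (T.l 816))) (T.l 1)))))) (T.b (T.l 1) (T.a (T.a (T.l 816) (T.a (T.l 816) (T.c (T.b (T.l 1) (T.l 816)) (T.b (T.l 1) (T.l 816))))) (T.c (T.b (T.l 1) (T.a (T.c (T.b (T.l 1) (T.l 816)) (T.b (T.l 1) (T.l 816))) (T.l 1))) (T.b (T.l 1) (T.a (T.c (T.b (T.l 1) (T.l 816)) (T.b (T.l 1) (T.l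 816))) (T.l 1)))))))) (T.b (T.l 1) (T.c (T.b (T.l 1) (T.a (T.a (T.l 816) (T.a (T.l 816) (T.c (T.b (T.l 1) (T.l 816)) (T.b (T.l 1) (T.l 816))))) (T.c (T.b (T.l 1) (T.a (T.c (T.b (T.l 1) (T.l 816)) (T.b (T.l 1) (T.l 816))) (T.l 1))) (T.b (T.l 1) (T.a (T.c (T.b (T.l 1) (T.l 816)) (T.b (T.l 1) (T.l 816))) (T.l 1)))))) (T.b (T.l 1) (T.a (T.a (T.l 816) (T.a (T.l 816) (T.c (T.b (T.l 1) (T.l 816)) (T.b (T.l 1) (T.l 816))))) (T.c (T.b (T.l 1) (T.a (T.c (T.b (T.l 1) (T.l 816)) (T.b (T.l 1) (T.l 816))) (T.l 1))) (T.b (T.l 1) (T.a (T.c (T.b (T.l 1) (T.l 816)) (T.b (T.l 1) (T.l 816))) (T.l 1))))))))) (T.l 1)))), by decide +kernel⟩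

def B102E_000_14_772_5 :
    ∃ t, chk3 (onCell 0 33554432 0 1073741824 33554432 16777216 (corTK [] false 3 c0N cB102E gN0q1 gN0q2 gN0q0 gN1q0 true true)) t 14 772 5 = true :=
  ⟨(T.b (T.a (T.a (T.l 1) (T.l 1)) (T.l 1)) (T.a (T.a (T.c (T.b (T.c (T.b (T.a (T.a (T.l 816) (T.a (T.l 816) (T.c (T.b (T.l 1) (T.l 816)) (T.b (T.l 1) (T.l 816))))) (T.c (T.b (T.l 1) (T.a (T.c (T.b (T.l 1) (T.l 816)) (T.b (T.l 1) (T.l 816))) (T.l 1))) (T.b (T.l 1) (T.a (T.c (T.b (T.l 1) (T.l 816)) (T.b (T.l 1) (T.l 816))) (T.l 1))))) (T.l 816)) (T.b (T.a (T.a (T.l 816) (T.a (T.l 816) (T.c (T.b (T.l 1) (T.l 816)) (T.b (T.l 1) (T.l 816))))) (T.c (T.b (T.l 1) (T.a (T.c (T.b (T.l 1) (T.l 816)) (T.b (T.l 1) (T.l 816))) (T.l 1))) (T.b (T.l 1) (T.a (T.c (T.b (T.l 1) (T.l 816)) (T.b (T.l 1) (T.l 816))) (T.l 1)))))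 (T.l 816))) (T.l 816)) (T.b (T.c (T.b (T.a (T.a (T.l 816) (T.a (T.l 816) (T.c (T.b (T.l 1) (T.l 816)) (T.b (T.l 1) (T.l 816))))) (T.c (T.b (T.l 1) (T.a (T.c (T.b (T.l 1) (T.l 816)) (T.b (T.l 1) (T.l 816))) (T.l 1))) (T.b (T.l 1) (T.a (T.c (T.b (T.l 1) (T.l 816)) (T.b (T.l 1) (T.l 816))) (T.l 1))))) (T.l 816)) (T.b (T.a (T.a (T.l 816) (T.a (T.l 816) (T.c (T.b (T.l 1) (T.l 816)) (T.b (T.l 1) (T.l 816))))) (T.c (T.b (T.l 1) (T.a (T.c (T.b (T.l 1) (T.l 816)) (T.b (T.l 1) (T.l 816))) (T.l 1))) (T.a (T.b (T.l 1) (T.c (T.b (T.l 1) (T.l 816)) (T.b (T.l 1) (T.l 816)))) (T.l 1)))) (T.l 816))) (T.l 816))) (T.c (T.b (T.a (T.c (T.b (T.l 1) (T.c (T.b (T.l 1) (T.a (T.l 816) (T.a (T.l 816) (T.l 1)))) (T.b (T.l 1) (T.a (T.l 816) (T.a (T.l 816) (T.l 1)))))) (T.b (T.l 1) (T.c (T.b (T.l 1) (T.a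 (T.l 816) (T.a (T.l 816) (T.l 1)))) (T.b (T.l 1) (T.a (T.l 816) (T.a (T.l 816) (T.l 1))))))) (T.l 1)) (T.a (T.l 816) (T.c (T.b (T.c (T.b (T.a (T.c (T.b (T.l 1) (T.l 816)) (T.b (T.l 1) (T.l 816))) (T.l 1)) (T.l 816)) (T.b (T.a (T.c (T.b (T.l 1) (T.l 816)) (T.b (T.l 1) (T.l 816))) (T.l 1)) (T.l 816))) (T.l 816)) (T.b (T.c (T.b (T.a (T.c (T.b (T.l 1) (T.l 816)) (T.b (T.l 1) (T.l 816))) (T.l 1)) (T.l 816)) (T.b (T.a (T.c (T.b (T.l 1) (T.l 816)) (T.b (T.l 1) (T.l 816))) (T.l 1)) (T.l 816))) (T.l 816))))) (T.b (T.a (T.c (T.b (T.l 1) (T.c (T.b (T.l 1) (T.a (T.l 816) (T.a (T.l 816) (T.l 1)))) (T.b (T.l 1) (T.a (T.l 816) (T.a (T.l 816) (T.l 1)))))) (T.b (T.l 1) (T.c (T.b (T.l 1) (T.a (T.l 816) (T.a (T.l 816) (T.l 1)))) (T.b (T.l 1) (T.a (T.l 816) (T.a (T.l 816) (T.l 1))))))) (T.l 1))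 (T.a (T.l 816) (T.c (T.b (T.c (T.b (T.a (T.c (T.b (T.l 1) (T.l 816)) (T.b (T.l 1) (T.l 816))) (T.l 1)) (T.l 816)) (T.b (T.a (T.c (T.b (T.l 1) (T.l 816)) (T.b (T.l 1) (T.l 816))) (T.l 1)) (T.l 816))) (T.l 816)) (T.b (T.c (T.b (T.a (T.c (T.b (T.l 1) (T.l 816)) (T.b (T.l 1) (T.l 816))) (T.l 1)) (T.l 816)) (T.b (T.a (T.c (T.b (T.l 1) (T.l 816)) (T.b (T.l 1) (T.l 816))) (T.l 1)) (T.l 816))) (T.l 816))))))) (T.a (T.c (T.b (T.l 1) (T.c (T.b (T.l 1) (T.a (T.a (T.l 816) (T.a (T.l 816) (T.c (T.b (T.l 1) (T.l 816)) (T.b (T.l 1) (T.l 816))))) (T.c (T.b (T.l 1) (T.a (T.c (T.b (T.l 1) (T.l 816)) (T.b (T.l 1) (T.l 816))) (T.l 1))) (T.b (T.l 1) (T.a (T.c (T.b (T.l 1) (T.l 816)) (T.b (T.l 1) (T.l 816))) (T.l 1)))))) (T.b (T.l 1) (T.a (T.a (T.l 816) (T.a (T.l 816) (T.c (T.b (T.l 1) (T.l 816))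 (T.b (T.l 1) (T.l 816))))) (T.c (T.b (T.l 1) (T.a (T.c (T.b (T.l 1) (T.l 816)) (T.b (T.l 1) (T.l 816))) (T.l 1))) (T.b (T.l 1) (T.a (T.c (T.b (T.l 1) (T.l 816)) (T.b (T.l 1) (T.l 816))) (T.l 1)))))))) (T.b (T.l 1) (T.c (T.b (T.l 1) (T.a (T.a (T.l 816) (T.a (T.l 816) (T.c (T.b (T.l 1) (T.l 816)) (T.b (T.l 1) (T.l 816))))) (T.c (T.b (T.l 1) (T.a (T.c (T.b (T.l 1) (T.l 816)) (T.b (T.l 1) (T.l 816))) (T.l 1))) (T.b (T.l 1) (T.a (T.c (T.b (T.l 1) (T.l 816)) (T.b (T.l 1) (T.l 816))) (T.l 1)))))) (T.b (T.l 1) (T.a (T.a (T.l 816) (T.a (T.l 816) (T.c (T.b (T.l 1) (T.l 816)) (T.b (T.l 1) (T.l 816))))) (T.c (T.b (T.l 1) (T.a (T.c (T.b (T.l 1) (T.l 816)) (T.b (T.l 1) (T.l 816))) (T.l 1))) (T.b (T.l 1) (T.a (T.c (T.b (T.l 1) (T.l 816)) (T.b (T.l 1) (T.l 816))) (T.l 1))))))))) (T.l 1)))),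 by decide +kernel⟩

def B102E_000_14_773_2 :
    ∃ t, chk3 (onCell 0 33554432 0 1073741824 33554432 16777216 (corTK [] false 3 c0N cB102E gN0q1 gN0q2 gN0q0 gN1q0 true true)) t 14 773 2 = true :=
  ⟨(T.a (T.l 816) (T.c (T.b (T.c (T.b (T.a (T.a (T.l 816) (T.l 816)) (T.c (T.b (T.a (T.c (T.b (T.l 1) (T.a (T.l 816) (T.a (T.l 816) (T.l 1)))) (T.b (T.l 1) (T.a (T.l 816) (T.a (T.l 816) (T.l 1))))) (T.l 1)) (T.a (T.l 816) (T.c (T.b (T.a (T.c (T.b (T.l 1) (T.l 816)) (T.b (T.l 1) (T.l 816))) (T.l 1)) (T.l 816)) (T.b (T.a (T.c (T.b (T.l 1) (T.l 816)) (T.b (T.l 1) (T.l 816))) (T.l 1)) (T.l 816))))) (T.b (T.a (T.c (T.b (T.l 1) (T.a (T.l 816) (T.a (T.l 816) (T.l 1)))) (T.b (T.l 1) (T.a (T.l 816) (T.a (T.l 816) (T.l 1))))) (T.l 1)) (T.a (T.l 816) (T.c (T.b (T.a (T.c (T.b (T.l 1) (T.l 816))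 (T.b (T.l 1) (T.l 816))) (T.l 1)) (T.l 816)) (T.b (T.a (T.c (T.b (T.l 1) (T.l 816)) (T.b (T.l 1) (T.l 816))) (T.l 1)) (T.l 816))))))) (T.l 816)) (T.b (T.a (T.a (T.l 816) (T.l 816)) (T.c (T.b (T.a (T.c (T.b (T.l 1) (T.a (T.l 816) (T.a (T.l 816) (T.l 1)))) (T.b (T.l 1) (T.a (T.l 816) (T.a (T.l 816) (T.l 1))))) (T.l 1)) (T.a (T.l 816) (T.c (T.b (T.a (T.c (T.b (T.l 1) (T.l 816)) (T.b (T.l 1) (T.l 816))) (T.l 1)) (T.l 816)) (T.b (T.a (T.c (T.b (T.l 1) (T.l 816)) (T.b (T.l 1) (T.l 816))) (T.l 1)) (T.l 816))))) (T.b (T.a (T.c (T.b (T.l 1) (T.a (T.l 816) (T.a (T.l 816) (T.l 1)))) (T.b (T.l 1) (T.a (T.l 816) (T.a (T.l 816) (T.l 1))))) (T.l 1)) (T.a (T.l 816) (T.c (T.b (T.a (T.c (T.b (T.l 1) (T.l 816)) (T.b (T.l 1) (T.l 816))) (T.l 1)) (T.l 816)) (T.b (T.a (T.c (T.b (T.l 1) (T.l 816))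 (T.b (T.l 1) (T.l 816))) (T.l 1)) (T.l 816))))))) (T.l 816))) (T.l 816)) (T.b (T.c (T.b (T.a (T.a (T.l 816) (T.l 816)) (T.c (T.b (T.a (T.c (T.b (T.l 1) (T.a (T.l 816) (T.a (T.l 816) (T.l 1)))) (T.b (T.l 1) (T.a (T.l 816) (T.a (T.l 816) (T.l 1))))) (T.l 1)) (T.a (T.l 816) (T.c (T.b (T.a (T.c (T.b (T.l 1) (T.l 816)) (T.b (T.l 1) (T.l 816))) (T.l 1)) (T.l 816)) (T.b (T.a (T.c (T.b (T.l 1) (T.l 816)) (T.b (T.l 1) (T.l 816))) (T.l 1)) (T.l 816))))) (T.b (T.a (T.c (T.b (T.l 1) (T.a (T.l 816) (T.a (T.l 816) (T.l 1)))) (T.b (T.l 1) (T.a (T.l 816) (T.a (T.l 816) (T.l 1))))) (T.l 1)) (T.a (T.l 816) (T.c (T.b (T.a (T.c (T.b (T.l 1) (T.l 816)) (T.b (T.l 1) (T.l 816))) (T.l 1)) (T.l 816)) (T.b (T.a (T.c (T.b (T.l 1) (T.l 816)) (T.b (T.l 1) (T.l 816))) (T.l 1)) (T.l 816))))))) (T.l 816))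 (T.b (T.a (T.a (T.l 816) (T.l 816)) (T.c (T.b (T.a (T.c (T.b (T.l 1) (T.a (T.l 816) (T.a (T.l 816) (T.l 1)))) (T.b (T.l 1) (T.a (T.l 816) (T.a (T.l 816) (T.l 1))))) (T.l 1)) (T.a (T.l 816) (T.c (T.b (T.a (T.c (T.b (T.l 1) (T.l 816)) (T.b (T.l 1) (T.l 816))) (T.l 1)) (T.l 816)) (T.b (T.a (T.c (T.b (T.l 1) (T.l 816)) (T.b (T.l 1) (T.l 816))) (T.l 1)) (T.l 816))))) (T.b (T.a (T.c (T.b (T.l 1) (T.a (T.l 816) (T.a (T.l 816) (T.l 1)))) (T.b (T.l 1) (T.a (T.l 816) (T.a (T.l 816) (T.l 1))))) (T.l 1)) (T.a (T.l 816) (T.c (T.b (T.a (T.c (T.b (T.l 1) (T.l 816)) (T.b (T.l 1) (T.l 816))) (T.l 1)) (T.l 816)) (T.b (T.a (T.c (T.b (T.l 1) (T.l 816)) (T.b (T.l 1) (T.l 816))) (T.l 1)) (T.l 816))))))) (T.l 816))) (T.l 816)))), by decide +kernel⟩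

def B102E_000_14_772_6 :
    ∃ t, chk3 (onCell 0 33554432 0 1073741824 33554432 16777216 (corTK [] false 3 c0N cB102E gN0q1 gN0q2 gN0q0 gN1q0 true true)) t 14 772 6 = true :=
  ⟨(T.b (T.a (T.a (T.l 1) (T.l 1)) (T.l 1)) (T.a (T.a (T.c (T.b (T.c (T.b (T.a (T.a (T.l 816) (T.a (T.l 816) (T.c (T.b (T.l 1) (T.l 816)) (T.b (T.l 1) (T.l 816))))) (T.a (T.c (T.b (T.l 1) (T.c (T.b (T.l 1) (T.l 816)) (T.a (T.l 816) (T.l 816)))) (T.b (T.l 1) (T.a (T.l 816) (T.l 816)))) (T.l 1))) (T.l 816)) (T.b (T.a (T.a (T.l 816) (T.a (T.l 816) (T.c (T.b (T.l 1) (T.l 816)) (T.b (T.l 1) (T.l 816))))) (T.a (T.c (T.b (T.l 1) (T.l 816)) (T.b (T.l 1) (T.l 816))) (T.l 1))) (T.l 816))) (T.l 816)) (T.b (T.c (T.b (T.a (T.a (T.l 816) (T.a (T.l 816) (T.c (T.b (T.l 1) (T.l 816)) (T.b (T.l 1) (T.l 816))))) (T.a (T.c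 (T.b (T.l 1) (T.l 816)) (T.b (T.l 1) (T.l 816))) (T.l 1))) (T.l 816)) (T.b (T.a (T.a (T.l 816) (T.a (T.l 816) (T.c (T.b (T.l 1) (T.l 816)) (T.b (T.l 1) (T.l 816))))) (T.a (T.c (T.b (T.l 1) (T.l 816)) (T.b (T.l 1) (T.l 816))) (T.l 1))) (T.l 816))) (T.l 816))) (T.c (T.b (T.a (T.c (T.b (T.l 1) (T.c (T.b (T.l 1) (T.a (T.l 816) (T.a (T.l 816) (T.l 1)))) (T.b (T.l 1) (T.a (T.l 816) (T.a (T.l 816) (T.l 1)))))) (T.b (T.l 1) (T.c (T.b (T.l 1) (T.a (T.l 816) (T.a (T.l 816) (T.l 1)))) (T.b (T.l 1) (T.a (T.l 816) (T.a (T.l 816) (T.l 1))))))) (T.l 1)) (T.a (T.l 816) (T.c (T.b (T.c (T.b (T.a (T.c (T.b (T.l 1) (T.l 816)) (T.b (T.l 1) (T.l 816))) (T.l 1)) (T.l 816)) (T.b (T.a (T.c (T.b (T.l 1) (T.l 816)) (T.b (T.l 1) (T.l 816))) (T.l 1)) (T.l 816))) (T.l 816)) (T.b (T.c (T.b (T.a (T.c (T.b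 (T.l 1) (T.l 816)) (T.b (T.l 1) (T.l 816))) (T.l 1)) (T.l 816)) (T.b (T.a (T.c (T.b (T.l 1) (T.l 816)) (T.b (T.l 1) (T.l 816))) (T.l 1)) (T.l 816))) (T.l 816))))) (T.b (T.a (T.c (T.b (T.l 1) (T.c (T.b (T.l 1) (T.a (T.l 816) (T.a (T.l 816) (T.l 1)))) (T.b (T.l 1) (T.a (T.l 816) (T.a (T.l 816) (T.l 1)))))) (T.b (T.l 1) (T.c (T.b (T.l 1) (T.a (T.l 816) (T.a (T.l 816) (T.l 1)))) (T.b (T.l 1) (T.a (T.l 816) (T.a (T.l 816) (T.l 1))))))) (T.l 1)) (T.a (T.l 816) (T.c (T.b (T.c (T.b (T.a (T.c (T.b (T.l 1) (T.l 816)) (T.b (T.l 1) (T.l 816))) (T.l 1)) (T.l 816)) (T.b (T.a (T.c (T.b (T.l 1) (T.l 816)) (T.b (T.l 1) (T.l 816))) (T.l 1)) (T.l 816))) (T.l 816)) (T.b (T.c (T.b (T.a (T.c (T.b (T.l 1) (T.l 816)) (T.b (T.l 1) (T.l 816))) (T.l 1)) (T.l 816)) (T.b (T.a (T.a (T.l 816) (T.l 816)) (T.l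 1)) (T.l 816))) (T.l 816))))))) (T.a (T.c (T.b (T.l 1) (T.c (T.b (T.l 1) (T.a (T.a (T.l 816) (T.a (T.l 816) (T.c (T.b (T.l 1) (T.l 816)) (T.b (T.l 1) (T.l 816))))) (T.c (T.b (T.l 1) (T.a (T.c (T.b (T.l 1) (T.l 816)) (T.b (T.l 1) (T.l 816))) (T.l 1))) (T.b (T.l 1) (T.a (T.c (T.b (T.l 1) (T.l 816)) (T.b (T.l 1) (T.l 816))) (T.l 1)))))) (T.b (T.l 1) (T.a (T.a (T.l 816) (T.a (T.l 816) (T.c (T.b (T.l 1) (T.l 816)) (T.b (T.l 1) (T.l 816))))) (T.c (T.b (T.l 1) (T.a (T.c (T.b (T.l 1) (T.l 816)) (T.b (T.l 1) (T.l 816))) (T.l 1))) (T.b (T.l 1) (T.a (T.c (T.b (T.l 1) (T.l 816)) (T.b (T.l 1) (T.l 816))) (T.l 1)))))))) (T.b (T.l 1) (T.c (T.b (T.l 1) (T.a (T.a (T.l 816) (T.a (T.l 816) (T.c (T.b (T.l 1) (T.l 816)) (T.b (T.l 1) (T.l 816))))) (T.c (T.b (T.l 1) (T.a (T.c (T.b (T.l 1) (T.l 816))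 (T.b (T.l 1) (T.l 816))) (T.l 1))) (T.b (T.l 1) (T.a (T.c (T.b (T.l 1) (T.l 816)) (T.b (T.l 1) (T.l 816))) (T.l 1)))))) (T.b (T.l 1) (T.a (T.a (T.l 816) (T.a (T.l 816) (T.c (T.b (T.l 1) (T.l 816)) (T.b (T.l 1) (T.l 816))))) (T.c (T.b (T.l 1) (T.a (T.c (T.b (T.l 1) (T.l 816)) (T.b (T.l 1) (T.l 816))) (T.l 1))) (T.b (T.l 1) (T.a (T.c (T.b (T.l 1) (T.l 816)) (T.b (T.l 1) (T.l 816))) (T.l 1))))))))) (T.l 1)))), by decide +kernel⟩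

def B102E_000_14_772_7 :
    ∃ t, chk3 (onCell 0 33554432 0 1073741824 33554432 16777216 (corTK [] false 3 c0N cB102E gN0q1 gN0q2 gN0q0 gN1q0 true true)) t 14 772 7 = true :=
  ⟨(T.b (T.a (T.a (T.l 1) (T.l 1)) (T.l 1)) (T.a (T.a (T.c (T.b (T.c (T.b (T.a (T.a (T.l 816) (T.a (T.l 816) (T.c (T.b (T.l 1) (T.l 816)) (T.b (T.l 1) (T.l 816))))) (T.a (T.c (T.b (T.l 1) (T.l 816)) (T.b (T.l 1) (T.l 816))) (T.l 1))) (T.l 816)) (T.b (T.a (T.a (T.l 816) (T.a (T.l 816) (T.c (T.b (T.l 1) (T.l 816)) (T.b (T.l 1) (T.l 816))))) (T.c (T.b (T.l 1) (T.a (T.l 816) (T.l 1))) (T.b (T.l 1) (T.a (T.l 816) (T.l 1))))) (T.l 816))) (T.l 816)) (T.b (T.c (T.b (T.a (T.a (T.l 816) (T.a (T.l 816) (T.c (T.b (T.l 1) (T.l 816)) (T.b (T.l 1) (T.l 816))))) (T.c (T.b (T.l 1) (T.a (T.l 816) (T.l 1))) (T.b (T.l 1)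 (T.a (T.l 816) (T.l 1))))) (T.l 816)) (T.b (T.a (T.a (T.l 816) (T.a (T.l 816) (T.c (T.b (T.l 1) (T.l 816)) (T.b (T.l 1) (T.l 816))))) (T.c (T.b (T.l 1) (T.a (T.l 816) (T.l 1))) (T.b (T.l 1) (T.a (T.l 816) (T.l 1))))) (T.l 816))) (T.l 816))) (T.c (T.b (T.a (T.c (T.b (T.l 1) (T.c (T.b (T.l 1) (T.a (T.l 816) (T.a (T.l 816) (T.l 1)))) (T.b (T.l 1) (T.a (T.l 816) (T.a (T.l 816) (T.l 1)))))) (T.b (T.l 1) (T.c (T.b (T.l 1) (T.a (T.l 816) (T.a (T.l 816) (T.l 1)))) (T.b (T.l 1) (T.a (T.l 816) (T.a (T.l 816) (T.l 1))))))) (T.l 1)) (T.a (T.l 816) (T.c (T.b (T.c (T.a (T.l 816) (T.b (T.l 1) (T.l 816))) (T.a (T.l 816) (T.b (T.l 1) (T.l 816)))) (T.l 816)) (T.a (T.l 816) (T.b (T.c (T.b (T.l 1) (T.l 816)) (T.b (T.l 1) (T.l 816))) (T.l 816)))))) (T.b (T.a (T.c (T.b (T.l 1) (T.c (T.b (T.l 1) (T.a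 (T.l 816) (T.a (T.l 816) (T.l 1)))) (T.b (T.l 1) (T.a (T.l 816) (T.a (T.l 816) (T.l 1)))))) (T.b (T.l 1) (T.c (T.b (T.l 1) (T.a (T.l 816) (T.a (T.l 816) (T.l 1)))) (T.b (T.l 1) (T.a (T.l 816) (T.a (T.l 816) (T.l 1))))))) (T.l 1)) (T.a (T.l 816) (T.a (T.l 816) (T.c (T.b (T.c (T.b (T.l 1) (T.l 816)) (T.b (T.l 1) (T.l 816))) (T.l 816)) (T.b (T.c (T.b (T.l 1) (T.l 816)) (T.b (T.l 1) (T.l 816))) (T.l 816)))))))) (T.a (T.c (T.b (T.l 1) (T.c (T.b (T.l 1) (T.a (T.a (T.l 816) (T.a (T.l 816) (T.c (T.b (T.l 1) (T.l 816)) (T.b (T.l 1) (T.l 816))))) (T.a (T.c (T.b (T.l 1) (T.c (T.b (T.l 1) (T.l 816)) (T.b (T.l 1) (T.l 816)))) (T.b (T.l 1) (T.c (T.b (T.l 1) (T.l 816)) (T.b (T.l 1) (T.l 816))))) (T.l 1)))) (T.b (T.l 1) (T.a (T.a (T.l 816) (T.a (T.l 816) (T.c (T.b (T.l 1) (T.l 816)) (T.b (T.l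 1) (T.l 816))))) (T.a (T.c (T.b (T.l 1) (T.c (T.b (T.l 1) (T.l 816)) (T.b (T.l 1) (T.l 816)))) (T.b (T.l 1) (T.c (T.b (T.l 1) (T.l 816)) (T.b (T.l 1) (T.l 816))))) (T.l 1)))))) (T.b (T.l 1) (T.c (T.b (T.l 1) (T.a (T.a (T.l 816) (T.a (T.l 816) (T.c (T.b (T.l 1) (T.l 816)) (T.b (T.l 1) (T.l 816))))) (T.a (T.c (T.b (T.l 1) (T.c (T.b (T.l 1) (T.l 816)) (T.b (T.l 1) (T.l 816)))) (T.b (T.l 1) (T.c (T.b (T.l 1) (T.l 816)) (T.a (T.l 816) (T.l 816))))) (T.l 1)))) (T.b (T.l 1) (T.a (T.a (T.l 816) (T.a (T.l 816) (T.c (T.b (T.l 1) (T.l 816)) (T.b (T.l 1) (T.l 816))))) (T.a (T.c (T.b (T.l 1) (T.l 816)) (T.b (T.l 1) (T.l 816))) (T.l 1))))))) (T.l 1)))), by decide +kernel⟩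

def B102E_000_14_773_3 :
    ∃ t, chk3 (onCell 0 33554432 0 1073741824 33554432 16777216 (corTK [] false 3 c0N cB102E gN0q1 gN0q2 gN0q0 gN1q0 true true)) t 14 773 3 = true :=
  ⟨(T.a (T.l 816) (T.c (T.b (T.c (T.b (T.a (T.a (T.l 816) (T.l 816)) (T.c (T.b (T.a (T.c (T.b (T.l 1) (T.a (T.l 816) (T.a (T.l 816) (T.l 1)))) (T.b (T.l 1) (T.a (T.l 816) (T.a (T.l 816) (T.l 1))))) (T.l 1)) (T.a (T.l 816) (T.c (T.b (T.a (T.c (T.b (T.l 1) (T.l 816)) (T.b (T.l 1) (T.l 816))) (T.l 1)) (T.l 816)) (T.b (T.a (T.c (T.b (T.l 1) (T.l 816)) (T.b (T.l 1) (T.l 816))) (T.l 1)) (T.l 816))))) (T.b (T.a (T.c (T.b (T.l 1) (T.a (T.l 816) (T.a (T.l 816) (T.l 1)))) (T.b (T.l 1) (T.a (T.l 816) (T.a (T.l 816) (T.l 1))))) (T.l 1)) (T.a (T.l 816) (T.c (T.b (T.a (T.c (T.b (T.l 1) (T.l 816)) (T.b (T.l 1) (T.l 816)))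 (T.l 1)) (T.l 816)) (T.b (T.a (T.c (T.b (T.l 1) (T.l 816)) (T.b (T.l 1) (T.l 816))) (T.l 1)) (T.l 816))))))) (T.l 816)) (T.b (T.a (T.a (T.l 816) (T.l 816)) (T.c (T.b (T.a (T.c (T.b (T.l 1) (T.a (T.l 816) (T.a (T.l 816) (T.l 1)))) (T.b (T.l 1) (T.a (T.l 816) (T.a (T.l 816) (T.l 1))))) (T.l 1)) (T.a (T.l 816) (T.c (T.b (T.a (T.c (T.b (T.l 1) (T.l 816)) (T.b (T.l 1) (T.l 816))) (T.l 1)) (T.l 816)) (T.b (T.a (T.c (T.b (T.l 1) (T.l 816)) (T.b (T.l 1) (T.l 816))) (T.l 1)) (T.l 816))))) (T.b (T.a (T.c (T.b (T.l 1) (T.a (T.l 816) (T.a (T.l 816) (T.l 1)))) (T.b (T.l 1) (T.a (T.l 816) (T.a (T.l 816) (T.l 1))))) (T.l 1)) (T.a (T.l 816) (T.c (T.b (T.a (T.c (T.b (T.l 1) (T.l 816)) (T.b (T.l 1) (T.l 816))) (T.l 1)) (T.l 816)) (T.b (T.a (T.c (T.b (T.l 1) (T.l 816)) (T.b (T.l 1) (T.l 816)))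 (T.l 1)) (T.l 816))))))) (T.l 816))) (T.l 816)) (T.b (T.c (T.b (T.a (T.a (T.l 816) (T.l 816)) (T.c (T.b (T.a (T.c (T.b (T.l 1) (T.a (T.l 816) (T.a (T.l 816) (T.l 1)))) (T.b (T.l 1) (T.a (T.l 816) (T.a (T.l 816) (T.l 1))))) (T.l 1)) (T.a (T.l 816) (T.c (T.b (T.a (T.c (T.b (T.l 1) (T.l 816)) (T.b (T.l 1) (T.l 816))) (T.l 1)) (T.l 816)) (T.b (T.a (T.c (T.b (T.l 1) (T.l 816)) (T.b (T.l 1) (T.l 816))) (T.l 1)) (T.l 816))))) (T.b (T.a (T.c (T.b (T.l 1) (T.a (T.l 816) (T.a (T.l 816) (T.l 1)))) (T.b (T.l 1) (T.a (T.l 816) (T.a (T.l 816) (T.l 1))))) (T.l 1)) (T.a (T.l 816) (T.c (T.b (T.a (T.c (T.b (T.l 1) (T.l 816)) (T.b (T.l 1) (T.l 816))) (T.l 1)) (T.l 816)) (T.b (T.a (T.c (T.b (T.l 1) (T.l 816)) (T.b (T.l 1) (T.l 816))) (T.l 1)) (T.l 816))))))) (T.l 816)) (T.b (T.a (T.l 816) (T.c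 (T.b (T.a (T.c (T.b (T.l 1) (T.a (T.l 816) (T.a (T.l 816) (T.l 1)))) (T.b (T.l 1) (T.a (T.l 816) (T.a (T.l 816) (T.l 1))))) (T.l 1)) (T.a (T.l 816) (T.c (T.b (T.a (T.c (T.b (T.l 1) (T.l 816)) (T.b (T.l 1) (T.l 816))) (T.l 1)) (T.l 816)) (T.b (T.a (T.c (T.b (T.l 1) (T.l 816)) (T.b (T.l 1) (T.l 816))) (T.l 1)) (T.l 816))))) (T.b (T.a (T.c (T.b (T.l 1) (T.a (T.l 816) (T.a (T.l 816) (T.l 1)))) (T.b (T.l 1) (T.a (T.l 816) (T.a (T.l 816) (T.l 1))))) (T.l 1)) (T.a (T.l 816) (T.c (T.b (T.a (T.c (T.b (T.l 1) (T.l 816)) (T.b (T.l 1) (T.l 816))) (T.l 1)) (T.l 816)) (T.b (T.a (T.c (T.b (T.l 1) (T.l 816)) (T.b (T.l 1) (T.l 816))) (T.l 1)) (T.l 816))))))) (T.l 816))) (T.l 816)))), by decide +kernel⟩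

def B102E_000_14_387_1 :
    ∃ t, chk3 (onCell 0 33554432 0 1073741824 33554432 16777216 (corTK [] false 3 c0N cB102E gN0q1 gN0q2 gN0q0 gN1q0 true true)) t 14 387 1 = true :=
  ⟨(T.l 816), by decide +kernel⟩

def B102E_000_15_772_2 :
    ∃ t, chk3 (onCell 0 33554432 0 1073741824 33554432 16777216 (corTK [] false 3 c0N cB102E gN0q1 gN0q2 gN0q0 gN1q0 true true)) t 15 772 2 = true :=
  ⟨(T.l 1), by decide +kernel⟩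

def B102E_000_15_1546_4 :
    ∃ t, chk3 (onCell 0 33554432 0 1073741824 33554432 16777216 (corTK [] false 3 c0N cB102E gN0q1 gN0q2 gN0q0 gN1q0 true true)) t 15 1546 4 = true :=
  ⟨(T.a (T.c (T.b (T.l 1) (T.a (T.c (T.b (T.a (T.a (T.l 816) (T.a (T.l 824) (T.c (T.b (T.l 1) (T.l 816)) (T.b (T.l 1) (T.l 816))))) (T.c (T.b (T.l 1) (T.a (T.c (T.b (T.l 1) (T.l 816)) (T.b (T.l 1) (T.l 816))) (T.l 1))) (T.b (T.l 1) (T.a (T.c (T.b (T.l 1) (T.l 816)) (T.b (T.l 1) (T.l 816))) (T.l 1))))) (T.a (T.l 816) (T.l 816))) (T.b (T.a (T.a (T.l 816) (T.a (T.l 824) (T.c (T.b (T.l 1) (T.l 816)) (T.b (T.l 1) (T.l 816))))) (T.c (T.b (T.l 1) (T.a (T.c (T.b (T.l 1) (T.l 816)) (T.b (T.l 1) (T.l 816))) (T.l 1))) (T.b (T.l 1) (T.a (T.c (T.b (T.l 1) (T.l 816)) (T.b (T.l 1) (T.l 816))) (T.l 1))))) (T.a (T.l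 816) (T.l 816)))) (T.a (T.c (T.b (T.l 1) (T.c (T.b (T.l 1) (T.a (T.l 816) (T.a (T.l 952) (T.l 1)))) (T.b (T.l 1) (T.a (T.l 816) (T.a (T.l 952) (T.l 1)))))) (T.b (T.l 1) (T.c (T.b (T.l 1) (T.a (T.l 816) (T.c (T.b (T.l 1) (T.l 816)) (T.b (T.l 1) (T.l 816))))) (T.b (T.l 1) (T.a (T.l 816) (T.c (T.b (T.l 1) (T.l 816)) (T.b (T.l 1) (T.l 816)))))))) (T.l 1)))) (T.b (T.l 1) (T.a (T.c (T.b (T.a (T.a (T.l 816) (T.a (T.l 824) (T.c (T.b (T.l 1) (T.l 816)) (T.b (T.l 1) (T.l 816))))) (T.c (T.b (T.l 1) (T.a (T.c (T.b (T.l 1) (T.l 816)) (T.b (T.l 1) (T.l 816))) (T.l 1))) (T.b (T.l 1) (T.a (T.c (T.b (T.l 1) (T.l 816)) (T.b (T.l 1) (T.l 816))) (T.l 1))))) (T.a (T.l 816) (T.l 816))) (T.b (T.a (T.a (T.l 816) (T.a (T.l 824) (T.c (T.b (T.l 1) (T.l 816)) (T.b (T.l 1) (T.l 816))))) (T.c (T.b (T.l 1)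 (T.a (T.c (T.b (T.l 1) (T.l 816)) (T.b (T.l 1) (T.l 816))) (T.l 1))) (T.b (T.l 1) (T.a (T.c (T.b (T.l 1) (T.l 816)) (T.b (T.l 1) (T.l 816))) (T.l 1))))) (T.a (T.l 816) (T.l 816)))) (T.a (T.c (T.b (T.l 1) (T.c (T.b (T.l 1) (T.a (T.l 816) (T.c (T.b (T.l 1) (T.l 816)) (T.b (T.l 1) (T.l 816))))) (T.b (T.l 1) (T.a (T.l 816) (T.c (T.b (T.l 1) (T.l 816)) (T.b (T.l 1) (T.l 816))))))) (T.b (T.l 1) (T.c (T.b (T.l 1) (T.a (T.l 816) (T.c (T.b (T.l 1) (T.l 816)) (T.b (T.l 1) (T.l 816))))) (T.b (T.l 1) (T.a (T.l 816) (T.c (T.b (T.l 1) (T.l 816)) (T.b (T.l 1) (T.l 816)))))))) (T.l 1))))) (T.l 1)), by decide +kernel⟩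

def B102E_000_15_1547_4 :
    ∃ t, chk3 (onCell 0 33554432 0 1073741824 33554432 16777216 (corTK [] false 3 c0N cB102E gN0q1 gN0q2 gN0q0 gN1q0 true true)) t 15 1547 4 = true :=
  ⟨(T.a (T.a (T.l 816) (T.a (T.l 816) (T.c (T.b (T.c (T.b (T.c (T.b (T.a (T.c (T.b (T.l 1) (T.l 816)) (T.b (T.l 1) (T.l 816))) (T.l 1)) (T.l 824)) (T.b (T.a (T.c (T.b (T.l 1) (T.l 816)) (T.b (T.l 1) (T.l 816))) (T.l 1)) (T.l 824))) (T.l 816)) (T.b (T.c (T.b (T.a (T.c (T.b (T.l 1) (T.l 816)) (T.b (T.l 1) (T.l 816))) (T.l 1)) (T.l 824)) (T.b (T.a (T.c (T.b (T.l 1) (T.l 816)) (T.b (T.l 1) (T.l 816))) (T.l 1)) (T.l 952))) (T.l 816))) (T.l 816)) (T.b (T.c (T.b (T.c (T.b (T.a (T.c (T.b (T.l 1) (T.l 816)) (T.b (T.l 1) (T.l 816))) (T.l 1)) (T.l 952)) (T.b (T.a (T.c (T.b (T.l 1) (T.l 816)) (T.b (T.l 1) (T.l 816)))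 (T.l 1)) (T.l 952))) (T.l 816)) (T.b (T.c (T.b (T.a (T.c (T.b (T.l 1) (T.l 816)) (T.b (T.l 1) (T.l 816))) (T.l 1)) (T.l 952)) (T.b (T.a (T.c (T.b (T.l 1) (T.l 816)) (T.b (T.l 1) (T.l 816))) (T.l 1)) (T.l 952))) (T.l 816))) (T.l 816))))) (T.c (T.b (T.a (T.c (T.b (T.l 1) (T.a (T.a (T.l 816) (T.c (T.b (T.c (T.b (T.l 1) (T.l 816)) (T.b (T.l 1) (T.l 816))) (T.l 816)) (T.b (T.c (T.b (T.l 1) (T.l 824)) (T.b (T.l 1) (T.l 824))) (T.l 816)))) (T.c (T.b (T.l 1) (T.a (T.c (T.b (T.l 1) (T.l 816)) (T.b (T.l 1) (T.l 816))) (T.l 1))) (T.b (T.l 1) (T.a (T.c (T.b (T.l 1) (T.l 816)) (T.b (T.l 1) (T.l 816))) (T.l 1)))))) (T.b (T.l 1) (T.a (T.a (T.l 816) (T.c (T.b (T.c (T.b (T.l 1) (T.l 824)) (T.b (T.l 1) (T.l 824))) (T.l 816)) (T.b (T.c (T.b (T.l 1) (T.l 824)) (T.b (T.l 1) (T.l 824))) (T.l 816))))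 (T.c (T.b (T.l 1) (T.a (T.c (T.b (T.l 1) (T.l 816)) (T.b (T.l 1) (T.l 816))) (T.l 1))) (T.b (T.l 1) (T.a (T.c (T.b (T.l 1) (T.l 816)) (T.b (T.l 1) (T.l 816))) (T.l 1))))))) (T.l 1)) (T.a (T.a (T.l 816) (T.a (T.l 816) (T.l 952))) (T.c (T.b (T.a (T.c (T.b (T.l 1) (T.a (T.l 816) (T.c (T.b (T.l 1) (T.l 952)) (T.b (T.l 1) (T.l 952))))) (T.b (T.l 1) (T.a (T.l 816) (T.c (T.b (T.l 1) (T.l 952)) (T.b (T.l 1) (T.l 952)))))) (T.l 1)) (T.a (T.l 816) (T.c (T.b (T.a (T.c (T.b (T.l 1) (T.l 816)) (T.b (T.l 1) (T.l 816))) (T.l 1)) (T.l 952)) (T.b (T.a (T.c (T.b (T.l 1) (T.l 816)) (T.b (T.l 1) (T.l 816))) (T.l 1)) (T.l 952))))) (T.b (T.a (T.c (T.b (T.l 1) (T.a (T.l 816) (T.c (T.b (T.l 1) (T.l 952)) (T.b (T.l 1) (T.l 952))))) (T.b (T.l 1) (T.a (T.l 816) (T.c (T.b (T.l 1) (T.l 952)) (T.b (T.l 1)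 (T.l 952)))))) (T.l 1)) (T.a (T.l 816) (T.c (T.b (T.a (T.c (T.b (T.l 1) (T.l 816)) (T.b (T.l 1) (T.l 816))) (T.l 1)) (T.a (T.l 816) (T.l 952))) (T.b (T.a (T.c (T.b (T.l 1) (T.l 816)) (T.b (T.l 1) (T.l 816))) (T.l 1)) (T.a (T.l 816) (T.l 952))))))))) (T.b (T.a (T.c (T.b (T.l 1) (T.a (T.a (T.l 816) (T.c (T.b (T.c (T.b (T.l 1) (T.l 824)) (T.b (T.l 1) (T.l 824))) (T.l 816)) (T.b (T.c (T.b (T.l 1) (T.l 952)) (T.b (T.l 1) (T.l 952))) (T.l 816)))) (T.c (T.b (T.l 1) (T.a (T.c (T.b (T.l 1) (T.l 816)) (T.b (T.l 1) (T.l 816))) (T.l 1))) (T.b (T.l 1) (T.a (T.c (T.b (T.l 1) (T.l 816)) (T.b (T.l 1) (T.l 816))) (T.l 1)))))) (T.b (T.l 1) (T.a (T.a (T.l 816) (T.c (T.b (T.c (T.b (T.l 1) (T.l 952)) (T.b (T.l 1) (T.l 952))) (T.l 816)) (T.b (T.c (T.b (T.l 1) (T.l 952)) (T.b (T.l 1) (T.l 952))) (T.l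 816)))) (T.c (T.b (T.l 1) (T.a (T.c (T.b (T.l 1) (T.l 816)) (T.b (T.l 1) (T.l 816))) (T.l 1))) (T.b (T.l 1) (T.a (T.c (T.b (T.l 1) (T.l 816)) (T.b (T.l 1) (T.l 816))) (T.l 1))))))) (T.l 1)) (T.a (T.a (T.l 816) (T.a (T.l 816) (T.c (T.l 952) (T.l 952)))) (T.c (T.b (T.a (T.c (T.b (T.l 1) (T.a (T.l 816) (T.c (T.b (T.l 1) (T.l 952)) (T.b (T.l 1) (T.l 952))))) (T.b (T.l 1) (T.a (T.l 816) (T.c (T.b (T.l 1) (T.l 952)) (T.b (T.l 1) (T.l 952)))))) (T.l 1)) (T.a (T.l 816) (T.c (T.b (T.a (T.c (T.b (T.l 1) (T.l 816)) (T.b (T.l 1) (T.l 816))) (T.l 1)) (T.a (T.l 816) (T.l 952))) (T.b (T.a (T.c (T.b (T.l 1) (T.l 816)) (T.b (T.l 1) (T.l 816))) (T.l 1)) (T.a (T.l 816) (T.a (T.l 816) (T.c (T.l 952) (T.l 952)))))))) (T.b (T.a (T.c (T.b (T.l 1) (T.a (T.l 816) (T.c (T.b (T.l 1) (T.l 952)) (T.b (T.l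 1) (T.l 952))))) (T.b (T.l 1) (T.a (T.l 816) (T.c (T.b (T.l 1) (T.l 952)) (T.b (T.l 1) (T.a (T.l 816) (T.l 1))))))) (T.l 1)) (T.a (T.l 816) (T.c (T.b (T.a (T.c (T.b (T.l 1) (T.l 816)) (T.b (T.l 1) (T.l 816))) (T.l 1)) (T.a (T.l 816) (T.a (T.l 816) (T.c (T.b (T.l 1) (T.l 816)) (T.b (T.l 1) (T.l 816)))))) (T.b (T.a (T.c (T.b (T.l 1) (T.l 816)) (T.b (T.l 1) (T.l 816))) (T.l 1)) (T.a (T.l 816) (T.a (T.l 816) (T.c (T.b (T.l 1) (T.l 816)) (T.b (T.l 1) (T.l 816)))))))))))))), by decide +kernel⟩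

def B102E_000_15_1546_5 :
    ∃ t, chk3 (onCell 0 33554432 0 1073741824 33554432 16777216 (corTK [] false 3 c0N cB102E gN0q1 gN0q2 gN0q0 gN1q0 true true)) t 15 1546 5 = true :=
  ⟨(T.a (T.c (T.b (T.l 1) (T.a (T.c (T.b (T.a (T.a (T.l 816) (T.a (T.l 816) (T.c (T.b (T.l 1) (T.l 816)) (T.b (T.l 1) (T.l 816))))) (T.c (T.b (T.l 1) (T.a (T.c (T.b (T.l 1) (T.l 816)) (T.b (T.l 1) (T.l 816))) (T.l 1))) (T.b (T.l 1) (T.a (T.c (T.b (T.l 1) (T.l 816)) (T.b (T.l 1) (T.l 816))) (T.l 1))))) (T.a (T.l 816) (T.l 816))) (T.b (T.a (T.a (T.l 816) (T.a (T.l 816) (T.c (T.b (T.l 1) (T.l 816)) (T.b (T.l 1) (T.l 816))))) (T.c (T.b (T.l 1) (T.a (T.c (T.b (T.l 1) (T.l 816)) (T.b (T.l 1) (T.l 816))) (T.l 1))) (T.b (T.l 1) (T.a (T.c (T.b (T.l 1) (T.l 816)) (T.b (T.l 1) (T.l 816))) (T.l 1))))) (T.a (T.l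 816) (T.l 816)))) (T.a (T.c (T.b (T.l 1) (T.c (T.b (T.l 1) (T.a (T.l 816) (T.c (T.b (T.l 1) (T.l 816)) (T.b (T.l 1) (T.l 816))))) (T.b (T.l 1) (T.a (T.l 816) (T.c (T.b (T.l 1) (T.l 816)) (T.b (T.l 1) (T.l 816))))))) (T.b (T.l 1) (T.c (T.b (T.l 1) (T.a (T.l 816) (T.c (T.b (T.l 1) (T.l 816)) (T.b (T.l 1) (T.l 816))))) (T.b (T.l 1) (T.a (T.l 816) (T.c (T.b (T.l 1) (T.l 816)) (T.b (T.l 1) (T.l 816)))))))) (T.l 1)))) (T.b (T.l 1) (T.a (T.c (T.b (T.a (T.a (T.l 816) (T.a (T.l 816) (T.c (T.b (T.l 1) (T.l 816)) (T.b (T.l 1) (T.l 816))))) (T.c (T.b (T.l 1) (T.a (T.c (T.b (T.l 1) (T.l 816)) (T.b (T.l 1) (T.l 816))) (T.l 1))) (T.b (T.l 1) (T.a (T.c (T.b (T.l 1) (T.l 816)) (T.b (T.l 1) (T.l 816))) (T.l 1))))) (T.a (T.l 816) (T.l 816))) (T.b (T.a (T.a (T.l 816) (T.a (T.l 816) (T.c (T.b (T.l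 1) (T.l 816)) (T.b (T.l 1) (T.l 816))))) (T.c (T.b (T.l 1) (T.a (T.c (T.b (T.l 1) (T.l 816)) (T.b (T.l 1) (T.l 816))) (T.l 1))) (T.b (T.l 1) (T.a (T.c (T.b (T.l 1) (T.l 816)) (T.b (T.l 1) (T.l 816))) (T.l 1))))) (T.a (T.l 816) (T.l 816)))) (T.a (T.c (T.b (T.l 1) (T.c (T.b (T.l 1) (T.a (T.l 816) (T.c (T.b (T.l 1) (T.l 816)) (T.b (T.l 1) (T.l 816))))) (T.b (T.l 1) (T.a (T.l 816) (T.c (T.b (T.l 1) (T.l 816)) (T.b (T.l 1) (T.l 816))))))) (T.b (T.l 1) (T.c (T.b (T.l 1) (T.a (T.l 816) (T.c (T.b (T.l 1) (T.l 816)) (T.b (T.l 1) (T.l 816))))) (T.b (T.l 1) (T.a (T.l 816) (T.c (T.b (T.l 1) (T.l 816)) (T.b (T.l 1) (T.l 816)))))))) (T.l 1))))) (T.l 1)), by decide +kernel⟩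

def B102E_000_15_1547_5 :
    ∃ t, chk3 (onCell 0 33554432 0 1073741824 33554432 16777216 (corTK [] false 3 c0N cB102E gN0q1 gN0q2 gN0q0 gN1q0 true true)) t 15 1547 5 = true :=
  ⟨(T.a (T.a (T.l 816) (T.a (T.l 816) (T.c (T.b (T.c (T.b (T.c (T.b (T.a (T.c (T.b (T.l 1) (T.l 816)) (T.b (T.l 1) (T.l 816))) (T.l 1)) (T.l 952)) (T.b (T.a (T.c (T.b (T.l 1) (T.l 816)) (T.b (T.l 1) (T.l 816))) (T.l 1)) (T.l 952))) (T.l 816)) (T.b (T.c (T.b (T.a (T.c (T.b (T.l 1) (T.l 816)) (T.b (T.l 1) (T.l 816))) (T.l 1)) (T.l 952)) (T.b (T.a (T.c (T.b (T.l 1) (T.l 816)) (T.b (T.l 1) (T.l 816))) (T.l 1)) (T.l 952))) (T.l 816))) (T.l 816)) (T.b (T.c (T.b (T.c (T.b (T.a (T.c (T.b (T.l 1) (T.l 816)) (T.b (T.l 1) (T.l 816))) (T.l 1)) (T.l 824)) (T.b (T.a (T.c (T.b (T.l 1) (T.l 816)) (T.b (T.l 1) (T.l 816)))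 (T.l 1)) (T.l 824))) (T.l 816)) (T.b (T.c (T.b (T.a (T.c (T.b (T.l 1) (T.l 816)) (T.b (T.l 1) (T.l 816))) (T.l 1)) (T.l 824)) (T.b (T.a (T.c (T.b (T.l 1) (T.l 816)) (T.b (T.l 1) (T.l 816))) (T.l 1)) (T.l 824))) (T.l 816))) (T.l 816))))) (T.c (T.b (T.a (T.c (T.b (T.l 1) (T.a (T.a (T.l 816) (T.c (T.b (T.c (T.b (T.l 1) (T.l 952)) (T.b (T.l 1) (T.l 952))) (T.l 816)) (T.b (T.c (T.b (T.l 1) (T.l 952)) (T.b (T.l 1) (T.l 952))) (T.l 816)))) (T.c (T.b (T.l 1) (T.a (T.c (T.b (T.l 1) (T.l 816)) (T.b (T.l 1) (T.l 816))) (T.l 1))) (T.b (T.l 1) (T.a (T.c (T.b (T.l 1) (T.l 816)) (T.b (T.l 1) (T.l 816))) (T.l 1)))))) (T.b (T.l 1) (T.a (T.a (T.l 816) (T.c (T.b (T.c (T.b (T.l 1) (T.l 952)) (T.b (T.l 1) (T.l 952))) (T.l 816)) (T.b (T.c (T.b (T.l 1) (T.l 952)) (T.b (T.l 1) (T.l 952))) (T.l 816))))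 (T.c (T.b (T.l 1) (T.a (T.c (T.b (T.l 1) (T.l 816)) (T.b (T.l 1) (T.l 816))) (T.l 1))) (T.b (T.l 1) (T.a (T.c (T.b (T.l 1) (T.l 816)) (T.b (T.l 1) (T.l 816))) (T.l 1))))))) (T.l 1)) (T.a (T.a (T.l 816) (T.a (T.l 816) (T.a (T.l 816) (T.c (T.l 952) (T.l 952))))) (T.c (T.b (T.a (T.c (T.b (T.l 1) (T.a (T.l 816) (T.c (T.b (T.l 1) (T.a (T.l 816) (T.l 1))) (T.b (T.l 1) (T.a (T.l 816) (T.l 1)))))) (T.b (T.l 1) (T.a (T.l 816) (T.c (T.b (T.l 1) (T.a (T.l 816) (T.l 1))) (T.b (T.l 1) (T.a (T.l 816) (T.l 1))))))) (T.l 1)) (T.a (T.l 816) (T.c (T.b (T.a (T.c (T.b (T.l 1) (T.l 816)) (T.b (T.l 1) (T.l 816))) (T.l 1)) (T.a (T.l 816) (T.a (T.l 816) (T.c (T.b (T.l 1) (T.l 816)) (T.b (T.l 1) (T.l 816)))))) (T.b (T.a (T.c (T.b (T.l 1) (T.l 816)) (T.b (T.l 1) (T.l 816))) (T.l 1)) (T.a (T.l 816) (T.a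 (T.l 816) (T.c (T.b (T.l 1) (T.l 816)) (T.b (T.l 1) (T.l 816))))))))) (T.b (T.a (T.c (T.b (T.l 1) (T.a (T.l 816) (T.c (T.b (T.l 1) (T.a (T.l 816) (T.l 1))) (T.b (T.l 1) (T.a (T.l 816) (T.l 1)))))) (T.b (T.l 1) (T.a (T.l 816) (T.c (T.b (T.l 1) (T.a (T.l 816) (T.l 1))) (T.b (T.l 1) (T.a (T.l 816) (T.l 1))))))) (T.l 1)) (T.a (T.l 816) (T.c (T.b (T.a (T.c (T.b (T.l 1) (T.l 816)) (T.b (T.l 1) (T.l 816))) (T.l 1)) (T.a (T.l 816) (T.a (T.l 816) (T.c (T.b (T.l 1) (T.l 816)) (T.b (T.l 1) (T.l 816)))))) (T.b (T.a (T.c (T.b (T.l 1) (T.l 816)) (T.b (T.l 1) (T.l 816))) (T.l 1)) (T.a (T.l 816) (T.a (T.l 816) (T.c (T.b (T.l 1) (T.l 816)) (T.b (T.l 1) (T.l 816)))))))))))) (T.b (T.a (T.c (T.b (T.l 1) (T.a (T.a (T.l 816) (T.c (T.b (T.c (T.b (T.l 1) (T.l 952)) (T.b (T.l 1) (T.l 952))) (T.l 816))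 (T.b (T.c (T.b (T.l 1) (T.l 952)) (T.b (T.l 1) (T.l 824))) (T.l 816)))) (T.c (T.b (T.l 1) (T.a (T.c (T.b (T.l 1) (T.l 816)) (T.b (T.l 1) (T.l 816))) (T.l 1))) (T.b (T.l 1) (T.a (T.c (T.b (T.l 1) (T.l 816)) (T.b (T.l 1) (T.l 816))) (T.l 1)))))) (T.b (T.l 1) (T.a (T.a (T.l 816) (T.c (T.b (T.c (T.b (T.l 1) (T.l 824)) (T.b (T.l 1) (T.l 824))) (T.l 816)) (T.b (T.c (T.b (T.l 1) (T.l 824)) (T.b (T.l 1) (T.l 824))) (T.l 816)))) (T.c (T.b (T.l 1) (T.a (T.c (T.b (T.l 1) (T.l 816)) (T.b (T.l 1) (T.l 816))) (T.l 1))) (T.b (T.l 1) (T.a (T.c (T.b (T.l 1) (T.l 816)) (T.b (T.l 1) (T.l 816))) (T.l 1))))))) (T.l 1)) (T.a (T.a (T.l 816) (T.a (T.l 816) (T.a (T.l 816) (T.c (T.c (T.l 952) (T.l 952)) (T.c (T.l 952) (T.l 952)))))) (T.c (T.b (T.a (T.c (T.b (T.l 1) (T.a (T.l 816) (T.c (T.b (T.l 1) (T.a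 (T.l 816) (T.l 1))) (T.b (T.l 1) (T.a (T.l 816) (T.l 1)))))) (T.b (T.l 1) (T.a (T.l 816) (T.c (T.b (T.l 1) (T.a (T.l 816) (T.l 1))) (T.b (T.l 1) (T.a (T.l 816) (T.l 1))))))) (T.l 1)) (T.a (T.l 816) (T.c (T.b (T.a (T.c (T.b (T.l 1) (T.l 816)) (T.b (T.l 1) (T.l 816))) (T.l 1)) (T.a (T.l 816) (T.a (T.l 816) (T.c (T.b (T.l 1) (T.l 816)) (T.b (T.l 1) (T.l 816)))))) (T.b (T.a (T.c (T.b (T.l 1) (T.l 816)) (T.b (T.l 1) (T.l 816))) (T.l 1)) (T.a (T.l 816) (T.a (T.l 816) (T.c (T.b (T.l 1) (T.l 816)) (T.b (T.l 1) (T.l 816))))))))) (T.b (T.a (T.c (T.b (T.l 1) (T.a (T.l 816) (T.c (T.b (T.l 1) (T.a (T.l 816) (T.l 1))) (T.b (T.l 1) (T.a (T.l 816) (T.l 1)))))) (T.b (T.l 1) (T.a (T.l 816) (T.c (T.b (T.l 1) (T.a (T.l 816) (T.l 1))) (T.b (T.l 1) (T.a (T.l 816) (T.l 1))))))) (T.l 1)) (T.a (T.l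 816) (T.c (T.b (T.a (T.c (T.b (T.l 1) (T.l 816)) (T.b (T.l 1) (T.l 816))) (T.l 1)) (T.a (T.l 816) (T.a (T.l 816) (T.c (T.b (T.l 1) (T.l 816)) (T.b (T.l 1) (T.l 816)))))) (T.b (T.a (T.c (T.b (T.l 1) (T.l 816)) (T.b (T.l 1) (T.l 816))) (T.l 1)) (T.a (T.l 816) (T.a (T.l 816) (T.c (T.b (T.l 1) (T.l 816)) (T.b (T.l 1) (T.l 816)))))))))))))), by decide +kernel⟩

def B102E_000_15_772_3 :
    ∃ t, chk3 (onCell 0 33554432 0 1073741824 33554432 16777216 (corTK [] false 3 c0N cB102E gN0q1 gN0q2 gN0q0 gN1q0 true true)) t 15 772 3 = true :=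
  ⟨(T.l 1), by decide +kernel⟩

def B102E_000_15_1546_6 :
    ∃ t, chk3 (onCell 0 33554432 0 1073741824 33554432 16777216 (corTK [] false 3 c0N cB102E gN0q1 gN0q2 gN0q0 gN1q0 true true)) t 15 1546 6 = true :=
  ⟨(T.a (T.c (T.b (T.l 1) (T.a (T.c (T.b (T.a (T.a (T.l 816) (T.a (T.l 816) (T.c (T.b (T.l 1) (T.l 816)) (T.b (T.l 1) (T.l 816))))) (T.c (T.b (T.l 1) (T.a (T.c (T.b (T.l 1) (T.l 816)) (T.b (T.l 1) (T.l 816))) (T.l 1))) (T.b (T.l 1) (T.a (T.c (T.b (T.l 1) (T.l 816)) (T.b (T.l 1) (T.l 816))) (T.l 1))))) (T.a (T.l 816) (T.l 816))) (T.b (T.a (T.a (T.l 816) (T.a (T.l 816) (T.c (T.b (T.l 1) (T.l 816)) (T.b (T.l 1) (T.l 816))))) (T.c (T.b (T.l 1) (T.a (T.c (T.b (T.l 1) (T.l 816)) (T.b (T.l 1) (T.l 816))) (T.l 1))) (T.b (T.l 1) (T.a (T.c (T.b (T.l 1) (T.l 816)) (T.b (T.l 1) (T.l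 816))) (T.l 1))))) (T.a (T.l 816) (T.l 816)))) (T.a (T.c (T.b (T.l 1) (T.c (T.b (T.l 1) (T.a (T.l 816) (T.c (T.b (T.l 1) (T.l 816)) (T.b (T.l 1) (T.l 816))))) (T.b (T.l 1) (T.a (T.l 816) (T.a (T.l 816) (T.l 1)))))) (T.b (T.l 1) (T.c (T.b (T.l 1) (T.a (T.l 816) (T.a (T.l 816) (T.l 1)))) (T.b (T.l 1) (T.a (T.l 816) (T.a (T.l 816) (T.l 1))))))) (T.l 1)))) (T.b (T.l 1) (T.a (T.c (T.b (T.a (T.a (T.l 816) (T.a (T.l 816) (T.c (T.b (T.l 1) (T.l 816)) (T.b (T.l 1) (T.l 816))))) (T.c (T.b (T.l 1) (T.a (T.c (T.b (T.l 1) (T.l 816)) (T.b (T.l 1) (T.l 816))) (T.l 1))) (T.b (T.l 1) (T.a (T.c (T.b (T.l 1) (T.l 816)) (T.b (T.l 1) (T.l 816))) (T.l 1))))) (T.a (T.l 816) (T.l 816))) (T.b (T.a (T.a (T.l 816) (T.a (T.l 816) (T.c (T.b (T.l 1) (T.l 816)) (T.b (T.l 1) (T.l 816))))) (T.c (T.b (T.l 1)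 (T.a (T.c (T.b (T.l 1) (T.l 816)) (T.b (T.l 1) (T.l 816))) (T.l 1))) (T.b (T.l 1) (T.a (T.c (T.b (T.l 1) (T.l 816)) (T.b (T.l 1) (T.l 816))) (T.l 1))))) (T.a (T.l 816) (T.l 816)))) (T.a (T.c (T.b (T.l 1) (T.c (T.b (T.l 1) (T.a (T.l 816) (T.a (T.l 816) (T.l 1)))) (T.b (T.l 1) (T.a (T.l 816) (T.c (T.a (T.l 816) (T.l 1)) (T.b (T.l 1) (T.l 816))))))) (T.b (T.l 1) (T.c (T.b (T.l 1) (T.a (T.l 816) (T.c (T.b (T.l 1) (T.l 816)) (T.b (T.l 1) (T.l 816))))) (T.b (T.l 1) (T.a (T.l 816) (T.c (T.b (T.l 1) (T.l 816)) (T.b (T.l 1) (T.l 816)))))))) (T.l 1))))) (T.l 1)), by decide +kernel⟩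

def B102E_000_15_1547_6 :
    ∃ t, chk3 (onCell 0 33554432 0 1073741824 33554432 16777216 (corTK [] false 3 c0N cB102E gN0q1 gN0q2 gN0q0 gN1q0 true true)) t 15 1547 6 = true :=
  ⟨(T.a (T.a (T.l 816) (T.a (T.l 816) (T.c (T.b (T.c (T.b (T.c (T.b (T.a (T.c (T.b (T.l 1) (T.l 816)) (T.b (T.l 1) (T.l 816))) (T.l 1)) (T.l 824)) (T.b (T.a (T.c (T.b (T.l 1) (T.l 816)) (T.b (T.l 1) (T.l 816))) (T.l 1)) (T.l 816))) (T.l 816)) (T.b (T.c (T.b (T.a (T.c (T.b (T.l 1) (T.l 816)) (T.b (T.l 1) (T.l 816))) (T.l 1)) (T.l 816)) (T.b (T.a (T.c (T.b (T.l 1) (T.l 816)) (T.b (T.l 1) (T.l 816))) (T.l 1)) (T.l 816))) (T.l 816))) (T.l 816)) (T.b (T.c (T.b (T.c (T.b (T.a (T.c (T.b (T.l 1) (T.l 816)) (T.b (T.l 1) (T.l 816))) (T.l 1)) (T.l 816)) (T.b (T.a (T.c (T.b (T.l 1) (T.l 816)) (T.b (T.l 1) (T.l 816)))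 (T.l 1)) (T.l 816))) (T.l 816)) (T.b (T.c (T.b (T.a (T.c (T.b (T.l 1) (T.l 816)) (T.b (T.l 1) (T.l 816))) (T.l 1)) (T.l 816)) (T.b (T.a (T.c (T.b (T.l 1) (T.l 816)) (T.b (T.l 1) (T.l 816))) (T.l 1)) (T.l 816))) (T.l 816))) (T.l 816))))) (T.c (T.b (T.a (T.c (T.b (T.l 1) (T.a (T.a (T.l 816) (T.c (T.b (T.c (T.b (T.l 1) (T.l 824)) (T.b (T.l 1) (T.l 824))) (T.l 816)) (T.b (T.c (T.b (T.l 1) (T.l 824)) (T.b (T.l 1) (T.l 824))) (T.l 816)))) (T.c (T.b (T.l 1) (T.a (T.c (T.b (T.l 1) (T.l 816)) (T.b (T.l 1) (T.l 816))) (T.l 1))) (T.b (T.l 1) (T.a (T.c (T.b (T.l 1) (T.l 816)) (T.b (T.l 1) (T.l 816))) (T.l 1)))))) (T.b (T.l 1) (T.a (T.a (T.l 816) (T.c (T.b (T.c (T.b (T.l 1) (T.l 816)) (T.b (T.l 1) (T.l 816))) (T.l 816)) (T.b (T.c (T.b (T.l 1) (T.l 816)) (T.b (T.l 1) (T.l 816))) (T.l 816))))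 (T.c (T.b (T.l 1) (T.a (T.c (T.b (T.l 1) (T.l 816)) (T.b (T.l 1) (T.l 816))) (T.l 1))) (T.b (T.l 1) (T.a (T.c (T.b (T.l 1) (T.l 816)) (T.b (T.l 1) (T.l 816))) (T.l 1))))))) (T.l 1)) (T.a (T.a (T.l 816) (T.a (T.l 816) (T.a (T.l 816) (T.c (T.c (T.l 952) (T.l 952)) (T.c (T.l 952) (T.l 952)))))) (T.c (T.b (T.a (T.c (T.b (T.l 1) (T.a (T.l 816) (T.c (T.b (T.l 1) (T.a (T.l 816) (T.l 1))) (T.b (T.l 1) (T.a (T.l 816) (T.l 1)))))) (T.b (T.l 1) (T.a (T.l 816) (T.c (T.b (T.l 1) (T.a (T.l 816) (T.l 1))) (T.b (T.l 1) (T.a (T.l 816) (T.l 1))))))) (T.l 1)) (T.a (T.l 816) (T.c (T.b (T.a (T.c (T.b (T.l 1) (T.l 816)) (T.b (T.l 1) (T.l 816))) (T.l 1)) (T.a (T.l 816) (T.a (T.l 816) (T.c (T.b (T.l 1) (T.l 816)) (T.b (T.l 1) (T.l 816)))))) (T.b (T.a (T.c (T.b (T.l 1) (T.l 816)) (T.b (T.l 1) (T.l 816)))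 (T.l 1)) (T.a (T.l 816) (T.a (T.l 816) (T.c (T.b (T.l 1) (T.l 816)) (T.b (T.l 1) (T.l 816))))))))) (T.b (T.a (T.c (T.b (T.l 1) (T.a (T.l 816) (T.c (T.b (T.l 1) (T.a (T.l 816) (T.l 1))) (T.b (T.l 1) (T.a (T.l 816) (T.l 1)))))) (T.b (T.l 1) (T.a (T.l 816) (T.c (T.b (T.l 1) (T.a (T.l 816) (T.l 1))) (T.b (T.l 1) (T.a (T.l 816) (T.l 1))))))) (T.l 1)) (T.a (T.l 816) (T.c (T.b (T.a (T.c (T.b (T.l 1) (T.l 816)) (T.b (T.l 1) (T.l 816))) (T.l 1)) (T.a (T.l 816) (T.a (T.l 816) (T.c (T.b (T.l 1) (T.l 816)) (T.b (T.l 1) (T.l 816)))))) (T.b (T.a (T.c (T.b (T.l 1) (T.l 816)) (T.b (T.l 1) (T.l 816))) (T.l 1)) (T.a (T.l 816) (T.a (T.l 816) (T.c (T.b (T.l 1) (T.l 816)) (T.b (T.l 1) (T.l 816)))))))))))) (T.b (T.a (T.c (T.b (T.l 1) (T.a (T.a (T.l 816) (T.c (T.b (T.c (T.b (T.l 1) (T.l 816)) (T.b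 (T.l 1) (T.l 816))) (T.l 816)) (T.b (T.c (T.b (T.l 1) (T.l 816)) (T.b (T.l 1) (T.l 816))) (T.l 816)))) (T.c (T.b (T.l 1) (T.a (T.c (T.b (T.l 1) (T.l 816)) (T.b (T.l 1) (T.l 816))) (T.l 1))) (T.b (T.l 1) (T.a (T.c (T.b (T.l 1) (T.l 816)) (T.b (T.l 1) (T.l 816))) (T.l 1)))))) (T.b (T.l 1) (T.a (T.a (T.l 816) (T.c (T.b (T.c (T.b (T.l 1) (T.l 816)) (T.b (T.l 1) (T.l 816))) (T.l 816)) (T.b (T.c (T.b (T.l 1) (T.l 816)) (T.b (T.l 1) (T.l 816))) (T.l 816)))) (T.c (T.b (T.l 1) (T.a (T.c (T.b (T.l 1) (T.l 816)) (T.b (T.l 1) (T.l 816))) (T.l 1))) (T.b (T.l 1) (T.a (T.c (T.b (T.l 1) (T.l 816)) (T.b (T.l 1) (T.l 816))) (T.l 1))))))) (T.l 1)) (T.a (T.a (T.l 816) (T.a (T.l 816) (T.a (T.l 816) (T.c (T.l 824) (T.l 824))))) (T.c (T.b (T.a (T.c (T.b (T.l 1) (T.a (T.l 816) (T.c (T.b (T.l 1) (T.a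 (T.l 816) (T.l 1))) (T.b (T.l 1) (T.a (T.l 816) (T.l 1)))))) (T.b (T.l 1) (T.a (T.l 816) (T.c (T.b (T.l 1) (T.a (T.l 816) (T.l 1))) (T.b (T.l 1) (T.a (T.l 816) (T.l 1))))))) (T.l 1)) (T.a (T.l 816) (T.c (T.b (T.a (T.c (T.b (T.l 1) (T.l 816)) (T.b (T.l 1) (T.l 816))) (T.l 1)) (T.a (T.l 816) (T.a (T.l 816) (T.c (T.b (T.l 1) (T.l 816)) (T.b (T.l 1) (T.l 816)))))) (T.b (T.a (T.c (T.b (T.l 1) (T.l 816)) (T.b (T.l 1) (T.l 816))) (T.l 1)) (T.a (T.l 816) (T.a (T.l 816) (T.c (T.b (T.l 1) (T.l 816)) (T.b (T.l 1) (T.l 816))))))))) (T.b (T.a (T.c (T.b (T.l 1) (T.a (T.l 816) (T.c (T.b (T.l 1) (T.a (T.l 816) (T.l 1))) (T.b (T.l 1) (T.a (T.l 816) (T.l 1)))))) (T.b (T.l 1) (T.a (T.l 816) (T.c (T.b (T.l 1) (T.a (T.l 816) (T.l 1))) (T.b (T.l 1) (T.a (T.l 816) (T.l 1))))))) (T.l 1)) (T.a (T.l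 816) (T.c (T.b (T.a (T.c (T.b (T.l 1) (T.l 816)) (T.b (T.l 1) (T.l 816))) (T.l 1)) (T.a (T.l 816) (T.a (T.l 816) (T.c (T.b (T.l 1) (T.l 816)) (T.b (T.l 1) (T.l 816)))))) (T.b (T.a (T.c (T.b (T.l 1) (T.l 816)) (T.b (T.l 1) (T.l 816))) (T.l 1)) (T.a (T.l 816) (T.a (T.l 816) (T.c (T.b (T.l 1) (T.l 816)) (T.b (T.l 1) (T.l 816)))))))))))))), by decide +kernel⟩

def B102E_000_15_1546_7 :
    ∃ t, chk3 (onCell 0 33554432 0 1073741824 33554432 16777216 (corTK [] false 3 c0N cB102E gN0q1 gN0q2 gN0q0 gN1q0 true true)) t 15 1546 7 = true :=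
  ⟨(T.a (T.c (T.b (T.l 1) (T.a (T.c (T.b (T.a (T.a (T.l 816) (T.a (T.l 816) (T.c (T.b (T.l 1) (T.l 816)) (T.b (T.l 1) (T.l 816))))) (T.c (T.b (T.l 1) (T.a (T.c (T.b (T.l 1) (T.l 816)) (T.b (T.l 1) (T.l 816))) (T.l 1))) (T.b (T.l 1) (T.a (T.c (T.b (T.l 1) (T.l 816)) (T.b (T.l 1) (T.l 816))) (T.l 1))))) (T.a (T.l 816) (T.l 816))) (T.b (T.a (T.a (T.l 816) (T.a (T.l 816) (T.c (T.b (T.l 1) (T.l 816)) (T.b (T.l 1) (T.l 816))))) (T.c (T.b (T.l 1) (T.a (T.c (T.b (T.l 1) (T.l 816)) (T.b (T.l 1) (T.l 816))) (T.l 1))) (T.b (T.l 1) (T.a (T.c (T.b (T.l 1) (T.l 816)) (T.b (T.l 1) (T.l 816))) (T.l 1))))) (T.a (T.l 816) (T.l 816)))) (T.a (T.c (T.b (T.l 1) (T.c (T.b (T.l 1) (T.a (T.l 816) (T.c (T.b (T.l 1) (T.l 816)) (T.b (T.l 1) (T.l 816))))) (T.b (T.l 1) (T.a (T.l 816) (T.c (T.b (T.l 1) (T.l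 816)) (T.b (T.l 1) (T.l 816))))))) (T.b (T.l 1) (T.c (T.b (T.l 1) (T.a (T.l 816) (T.c (T.b (T.l 1) (T.l 816)) (T.b (T.l 1) (T.l 816))))) (T.b (T.l 1) (T.a (T.l 816) (T.c (T.b (T.l 1) (T.l 816)) (T.b (T.l 1) (T.l 816)))))))) (T.l 1)))) (T.b (T.l 1) (T.a (T.c (T.b (T.a (T.a (T.l 816) (T.a (T.l 816) (T.c (T.b (T.l 1) (T.l 816)) (T.b (T.l 1) (T.l 816))))) (T.c (T.b (T.l 1) (T.a (T.c (T.b (T.l 1) (T.l 816)) (T.b (T.l 1) (T.l 816))) (T.l 1))) (T.b (T.l 1) (T.a (T.c (T.b (T.l 1) (T.l 816)) (T.b (T.l 1) (T.l 816))) (T.l 1))))) (T.a (T.l 816) (T.l 816))) (T.b (T.a (T.a (T.l 816) (T.a (T.l 816) (T.c (T.b (T.l 1) (T.l 816)) (T.b (T.l 1) (T.l 816))))) (T.c (T.b (T.l 1) (T.a (T.c (T.b (T.l 1) (T.l 816)) (T.b (T.l 1) (T.l 816))) (T.l 1))) (T.b (T.l 1) (T.a (T.c (T.b (T.l 1) (T.l 816)) (T.b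 (T.l 1) (T.l 816))) (T.l 1))))) (T.a (T.l 816) (T.l 816)))) (T.a (T.c (T.b (T.l 1) (T.c (T.b (T.l 1) (T.a (T.l 816) (T.c (T.b (T.l 1) (T.l 816)) (T.b (T.l 1) (T.l 816))))) (T.b (T.l 1) (T.a (T.l 816) (T.c (T.b (T.l 1) (T.l 816)) (T.b (T.l 1) (T.l 816))))))) (T.b (T.l 1) (T.c (T.b (T.l 1) (T.a (T.l 816) (T.c (T.b (T.l 1) (T.l 816)) (T.b (T.l 1) (T.l 816))))) (T.b (T.l 1) (T.a (T.l 816) (T.c (T.b (T.l 1) (T.l 816)) (T.b (T.l 1) (T.l 816)))))))) (T.l 1))))) (T.l 1)), by decide +kernel⟩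

end Pool.Agent.Strip051.G.I1_32_3_64.Tab.CN
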