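import Pool.Agent.Strip051.G.I1_32_3_64.Gn
import Pool.Agent.Strip051.PB.Corns
import Pool.Agent.Strip051.PB.CornK

/-! # Certificates of the aligned corners (generated) -/

set_option linter.all false

namespace Pool.Agent.Strip051.G.I1_32_3_64.Tab.CN

open Pool.Agent.Strip051.PB

def B102E_000_15_1547_7 :
    ∃ t, chk3 (onCell 0 33554432 0 1073741824 33554432 16777216 (corTK [] false 3 c0N cB102E gN0q1 gN0q2 gN0q0 gN1q0 true true)) t 15 1547 7 = true :=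
  ⟨(T.a (T.a (T.l 816) (T.a (T.l 816) (T.c (T.b (T.c (T.b (T.c (T.b (T.a (T.c (T.b (T.l 1) (T.l 816)) (T.b (T.l 1) (T.l 816))) (T.l 1)) (T.l 816)) (T.b (T.a (T.c (T.b (T.l 1) (T.l 816)) (T.b (T.l 1) (T.l 816))) (T.l 1)) (T.l 816))) (T.l 816)) (T.b (T.c (T.b (T.a (T.c (T.b (T.l 1) (T.l 816)) (T.b (T.l 1) (T.l 816))) (T.l 1)) (T.l 816)) (T.b (T.a (T.c (T.b (T.l 1) (T.l 816)) (T.b (T.l 1) (T.l 816))) (T.l 1)) (T.l 816))) (T.l 816))) (T.l 816)) (T.b (T.c (T.b (T.c (T.b (T.a (T.c (T.b (T.l 1) (T.l 816)) (T.b (T.l 1) (T.l 816))) (T.l 1)) (T.l 816)) (T.b (T.a (T.c (T.b (T.l 1) (T.l 816)) (T.b (T.l 1) (T.l 816))) (T.l 1)) (T.l 816))) (T.l 816)) (T.b (T.c (T.b (T.a (T.c (T.b (T.l 1) (T.l 816)) (T.b (T.l 1) (T.l 816))) (T.l 1)) (T.l 816)) (T.b (T.a (T.c (T.b (T.l 1) (T.l 816)) (T.b (T.l 1) (T.l 816))) (T.l 1)) (T.l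 816))) (T.l 816))) (T.l 816))))) (T.c (T.b (T.a (T.c (T.b (T.l 1) (T.a (T.a (T.l 816) (T.c (T.b (T.c (T.b (T.l 1) (T.l 816)) (T.b (T.l 1) (T.l 816))) (T.l 816)) (T.b (T.c (T.b (T.l 1) (T.l 816)) (T.b (T.l 1) (T.l 816))) (T.l 816)))) (T.c (T.b (T.l 1) (T.a (T.c (T.b (T.l 1) (T.l 816)) (T.b (T.l 1) (T.l 816))) (T.l 1))) (T.b (T.l 1) (T.a (T.c (T.b (T.l 1) (T.l 816)) (T.b (T.l 1) (T.l 816))) (T.l 1)))))) (T.b (T.l 1) (T.a (T.a (T.l 816) (T.c (T.b (T.c (T.b (T.l 1) (T.l 816)) (T.b (T.l 1) (T.l 816))) (T.l 816)) (T.b (T.c (T.b (T.l 1) (T.l 816)) (T.b (T.l 1) (T.l 816))) (T.l 816)))) (T.c (T.b (T.l 1) (T.a (T.c (T.b (T.l 1) (T.l 816)) (T.b (T.l 1) (T.l 816))) (T.l 1))) (T.b (T.l 1) (T.a (T.c (T.b (T.l 1) (T.l 816)) (T.b (T.l 1) (T.l 816))) (T.l 1))))))) (T.l 1)) (T.a (T.a (T.l 816) (T.a (T.l 816) (T.c (T.l 816)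 (T.l 816)))) (T.c (T.b (T.a (T.c (T.b (T.l 1) (T.a (T.l 816) (T.c (T.b (T.l 1) (T.a (T.l 816) (T.l 1))) (T.b (T.l 1) (T.a (T.l 816) (T.l 1)))))) (T.b (T.l 1) (T.a (T.l 816) (T.c (T.b (T.l 1) (T.a (T.l 816) (T.l 1))) (T.b (T.l 1) (T.l 824)))))) (T.l 1)) (T.a (T.l 816) (T.c (T.b (T.a (T.c (T.b (T.l 1) (T.l 816)) (T.b (T.l 1) (T.l 816))) (T.l 1)) (T.a (T.l 816) (T.a (T.l 816) (T.c (T.b (T.l 1) (T.l 816)) (T.b (T.l 1) (T.l 816)))))) (T.b (T.a (T.c (T.b (T.l 1) (T.l 816)) (T.b (T.l 1) (T.l 816))) (T.l 1)) (T.a (T.l 816) (T.a (T.l 816) (T.c (T.b (T.l 1) (T.l 816)) (T.b (T.l 1) (T.l 816))))))))) (T.b (T.a (T.c (T.b (T.l 1) (T.a (T.l 816) (T.c (T.b (T.l 1) (T.l 824)) (T.b (T.l 1) (T.l 824))))) (T.b (T.l 1) (T.a (T.l 816) (T.c (T.b (T.l 1) (T.l 824)) (T.b (T.l 1) (T.l 816)))))) (T.l 1)) (T.a (T.l 816) (T.c (T.b (T.a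 (T.c (T.b (T.l 1) (T.l 816)) (T.b (T.l 1) (T.l 816))) (T.l 1)) (T.a (T.l 816) (T.a (T.l 816) (T.c (T.b (T.l 1) (T.l 816)) (T.b (T.l 1) (T.l 816)))))) (T.b (T.a (T.c (T.b (T.l 1) (T.l 816)) (T.b (T.l 1) (T.l 816))) (T.l 1)) (T.a (T.l 816) (T.a (T.l 816) (T.c (T.b (T.l 1) (T.l 816)) (T.b (T.l 1) (T.l 816)))))))))))) (T.b (T.a (T.c (T.b (T.l 1) (T.a (T.a (T.l 816) (T.c (T.b (T.c (T.b (T.l 1) (T.l 816)) (T.b (T.l 1) (T.l 816))) (T.l 816)) (T.b (T.c (T.b (T.l 1) (T.l 816)) (T.b (T.l 1) (T.l 816))) (T.l 816)))) (T.a (T.c (T.b (T.l 1) (T.c (T.b (T.l 1) (T.l 816)) (T.b (T.l 1) (T.l 816)))) (T.b (T.l 1) (T.c (T.b (T.l 1) (T.l 816)) (T.b (T.l 1) (T.l 816))))) (T.l 1)))) (T.b (T.l 1) (T.a (T.a (T.l 816) (T.c (T.b (T.c (T.b (T.l 1) (T.l 816)) (T.b (T.l 1) (T.l 816))) (T.l 816)) (T.b (T.c (T.b (T.l 1) (T.l 816)) (T.b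 (T.l 1) (T.l 816))) (T.l 816)))) (T.a (T.c (T.b (T.l 1) (T.c (T.b (T.l 1) (T.l 816)) (T.b (T.l 1) (T.l 816)))) (T.b (T.l 1) (T.c (T.b (T.l 1) (T.l 816)) (T.b (T.l 1) (T.l 816))))) (T.l 1))))) (T.l 1)) (T.a (T.a (T.l 816) (T.l 816)) (T.c (T.b (T.a (T.c (T.b (T.l 1) (T.a (T.l 816) (T.c (T.b (T.l 1) (T.l 816)) (T.b (T.l 1) (T.l 816))))) (T.b (T.l 1) (T.a (T.l 816) (T.c (T.b (T.l 1) (T.l 816)) (T.b (T.l 1) (T.l 816)))))) (T.l 1)) (T.a (T.l 816) (T.c (T.b (T.a (T.c (T.b (T.l 1) (T.l 816)) (T.b (T.l 1) (T.l 816))) (T.l 1)) (T.a (T.l 816) (T.a (T.l 816) (T.c (T.b (T.l 1) (T.l 816)) (T.b (T.l 1) (T.l 816)))))) (T.b (T.a (T.c (T.b (T.l 1) (T.l 816)) (T.b (T.l 1) (T.l 816))) (T.l 1)) (T.a (T.l 816) (T.a (T.l 816) (T.c (T.b (T.l 1) (T.l 816)) (T.b (T.l 1) (T.l 816))))))))) (T.b (T.a (T.c (T.b (T.l 1) (T.a (T.l 816)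 (T.c (T.b (T.l 1) (T.l 816)) (T.b (T.l 1) (T.l 816))))) (T.b (T.l 1) (T.a (T.l 816) (T.c (T.b (T.l 1) (T.l 816)) (T.b (T.l 1) (T.l 816)))))) (T.l 1)) (T.a (T.l 816) (T.c (T.b (T.a (T.c (T.b (T.l 1) (T.l 816)) (T.b (T.l 1) (T.l 816))) (T.l 1)) (T.a (T.l 816) (T.a (T.l 816) (T.c (T.b (T.l 1) (T.l 816)) (T.b (T.l 1) (T.l 816)))))) (T.b (T.a (T.c (T.b (T.l 1) (T.l 816)) (T.b (T.l 1) (T.l 816))) (T.l 1)) (T.a (T.l 816) (T.a (T.l 816) (T.c (T.l 816) (T.l 816))))))))))))), by decide +kernel⟩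

def B102E_000_15_387_1 :
    ∃ t, chk3 (onCell 0 33554432 0 1073741824 33554432 16777216 (corTK [] false 3 c0N cB102E gN0q1 gN0q2 gN0q0 gN1q0 true true)) t 15 387 1 = true :=
  ⟨(T.a (T.l 816) (T.a (T.l 816) (T.c (T.c (T.l 816) (T.l 816)) (T.c (T.l 816) (T.l 816))))), by decide +kernel⟩

def B102E_000_7_97_1 :
    ∃ t, chk3 (onCell 0 33554432 0 1073741824 33554432 16777216 (corTK [] false 3 c0N cB102E gN0q1 gN0q2 gN0q0 gN1q0 true true)) t 7 97 1 = true :=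
  ⟨(T.a (T.l 816) (T.l 816)), by decide +kernel⟩

def B102E_000_7_49_1 :
    ∃ t, chk3 (onCell 0 33554432 0 1073741824 33554432 16777216 (corTK [] false 3 c0N cB102E gN0q1 gN0q2 gN0q0 gN1q0 true true)) t 7 49 1 = true :=
  ⟨(T.l 816), by decide +kernel⟩

def B102E_000_3_25_1 :
    ∃ t, chk3 (onCell 0 33554432 0 1073741824 33554432 16777216 (corTK [] false 3 c0N cB102E gN0q1 gN0q2 gN0q0 gN1q0 true true)) t 3 25 1 = true :=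
  ⟨(T.b (T.l 0) (T.l 0)), by decide +kernel⟩

def B102E_000_1_13_1 :
    ∃ t, chk3 (onCell 0 33554432 0 1073741824 33554432 16777216 (corTK [] false 3 c0N cB102E gN0q1 gN0q2 gN0q0 gN1q0 true true)) t 1 13 1 = true :=
  ⟨(T.a (T.a (T.a (T.l 816) (T.l 816)) (T.l 0)) (T.b (T.l 0) (T.l 0))), by decide +kernel⟩

def B102E_000_1_7_1 :
    ∃ t, chk3 (onCell 0 33554432 0 1073741824 33554432 16777216 (corTK [] false 3 c0N cB102E gN0q1 gN0q2 gN0q0 gN1q0 true true)) t 1 7 1 = true :=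
  ⟨(T.b (T.b (T.a (T.a (T.a (T.l 816) (T.l 816)) (T.l 816)) (T.l 0)) (T.l 2)) (T.l 2)), by decide +kernel⟩

end Pool.Agent.Strip051.G.I1_32_3_64.Tab.CN
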