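import Pool.Agent.Strip051.G.I1_32_3_64.Gn
import Pool.Agent.Strip051.PB.Corns
import Pool.Agent.Strip051.PB.CornK
import Pool.Agent.Strip051.G.I1_32_3_64.CNB_0
import Pool.Agent.Strip051.G.I1_32_3_64.CNB_1
import Pool.Agent.Strip051.G.I1_32_3_64.CNB_2
import Pool.Agent.Strip051.G.I1_32_3_64.CNB_3

/-! # Certificates of the aligned corners (generated) -/

set_option linter.all false

namespace Pool.Agent.Strip051.G.I1_32_3_64.Tab.CN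

open Pool.Agent.Strip051.PB

def B101L_200_1_2_1 :
    ∃ t, chk3 (onCell 0 33554432 0 1073741824 33554432 16777216 (corTK [[⟨0, 1, 2, 25165824⟩, ⟨1, 0, 1, 25165824⟩, ⟨2, 1, 0, 7864320⟩, ⟨0, 0, 0, 1056964608⟩, ⟨0, 1, 0, 67108864⟩, ⟨1, 0, 0, 67108864⟩, ⟨1, 1, 0, 1056964608⟩]] false 3 c0N cB101L gN2q1 gN0q1 gN0q0 gN1q0 true true)) t 1 2 1 = true :=
  ⟨(T.l 1), by decide +kernel⟩

def B101L_200_1_6_1 :
    ∃ t, chk3 (onCell 0 33554432 0 1073741824 33554432 16777216 (corTK [[⟨0, 1, 2, 25165824⟩, ⟨1, 0, 1, 25165824⟩, ⟨2, 1, 0, 7864320⟩, ⟨0, 0, 0, 1056964608⟩, ⟨0, 1, 0, 67108864⟩, ⟨1, 0, 0, 67108864⟩, ⟨1, 1, 0, 1056964608⟩]] false 3 c0N cB101L gN2q1 gN0q1 gN0q0 gN1q0 true true)) t 1 6 1 = true :=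
  ⟨(T.l 1), by decide +kernel⟩

def B101L_200_1_14_1 :
    ∃ t, chk3 (onCell 0 33554432 0 1073741824 33554432 16777216 (corTK [[⟨0, 1, 2, 25165824⟩, ⟨1, 0, 1, 25165824⟩, ⟨2, 1, 0, 7864320⟩, ⟨0, 0, 0, 1056964608⟩, ⟨0, 1, 0, 67108864⟩, ⟨1, 0, 0, 67108864⟩, ⟨1, 1, 0, 1056964608⟩]] false 3 c0N cB101L gN2q1 gN0q1 gN0q0 gN1q0 true true)) t 1 14 1 = true :=
  ⟨(T.l 1), by decide +kernel⟩

def B101L_200_1_30_1 :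
    ∃ t, chk3 (onCell 0 33554432 0 1073741824 33554432 16777216 (corTK [[⟨0, 1, 2, 25165824⟩, ⟨1, 0, 1, 25165824⟩, ⟨2, 1, 0, 7864320⟩, ⟨0, 0, 0, 1056964608⟩, ⟨0, 1, 0, 67108864⟩, ⟨1, 0, 0, 67108864⟩, ⟨1, 1, 0, 1056964608⟩]] false 3 c0N cB101L gN2q1 gN0q1 gN0q0 gN1q0 true true)) t 1 30 1 = true :=
  ⟨(T.l 1), by decide +kernel⟩

def B101L_200_1_62_1 :
    ∃ t, chk3 (onCell 0 33554432 0 1073741824 33554432 16777216 (corTK [[⟨0, 1, 2, 25165824⟩, ⟨1, 0, 1, 25165824⟩, ⟨2, 1, 0, 7864320⟩, ⟨0, 0, 0, 1056964608⟩, ⟨0, 1, 0, 67108864⟩, ⟨1, 0, 0, 67108864⟩, ⟨1, 1, 0, 1056964608⟩]] false 3 c0N cB101L gN2q1 gN0q1 gN0q0 gN1q0 true true)) t 1 62 1 = true :=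
  ⟨(T.l 1), by decide +kernel⟩

def B101L_200_1_126_1 :
    ∃ t, chk3 (onCell 0 33554432 0 1073741824 33554432 16777216 (corTK [[⟨0, 1, 2, 25165824⟩, ⟨1, 0, 1, 25165824⟩, ⟨2, 1, 0, 7864320⟩, ⟨0, 0, 0, 1056964608⟩, ⟨0, 1, 0, 67108864⟩, ⟨1, 0, 0, 67108864⟩, ⟨1, 1, 0, 1056964608⟩]] false 3 c0N cB101L gN2q1 gN0q1 gN0q0 gN1q0 true true)) t 1 126 1 = true :=
  ⟨(T.l 1), by decide +kernel⟩

def B101L_200_1_254_1 :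
    ∃ t, chk3 (onCell 0 33554432 0 1073741824 33554432 16777216 (corTK [[⟨0, 1, 2, 25165824⟩, ⟨1, 0, 1, 25165824⟩, ⟨2, 1, 0, 7864320⟩, ⟨0, 0, 0, 1056964608⟩, ⟨0, 1, 0, 67108864⟩, ⟨1, 0, 0, 67108864⟩, ⟨1, 1, 0, 1056964608⟩]] false 3 c0N cB101L gN2q1 gN0q1 gN0q0 gN1q0 true true)) t 1 254 1 = true :=
  ⟨(T.l 1), by decide +kernel⟩

def B101L_200_1_510_1 :
    ∃ t, chk3 (onCell 0 33554432 0 1073741824 33554432 16777216 (corTK [[⟨0, 1, 2, 25165824⟩, ⟨1, 0, 1, 25165824⟩, ⟨2, 1, 0, 7864320⟩, ⟨0, 0, 0, 1056964608⟩, ⟨0, 1, 0, 67108864⟩, ⟨1, 0, 0, 67108864⟩, ⟨1, 1, 0, 1056964608⟩]] false 3 c0N cB101L gN2q1 gN0q1 gN0q0 gN1q0 true true)) t 1 510 1 = true :=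
  ⟨(T.l 1), by decide +kernel⟩

def B101L_200_2_1022_2 :
    ∃ t, chk3 (onCell 0 33554432 0 1073741824 33554432 16777216 (corTK [[⟨0, 1, 2, 25165824⟩, ⟨1, 0, 1, 25165824⟩, ⟨2, 1, 0, 7864320⟩, ⟨0, 0, 0, 1056964608⟩, ⟨0, 1, 0, 67108864⟩, ⟨1, 0, 0, 67108864⟩, ⟨1, 1, 0, 1056964608⟩]] false 3 c0N cB101L gN2q1 gN0q1 gN0q0 gN1q0 true true)) t 2 1022 2 = true :=
  ⟨(T.l 1), by decide +kernel⟩

def B101L_200_4_1023_2 :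
    ∃ t, chk3 (onCell 0 33554432 0 1073741824 33554432 16777216 (corTK [[⟨0, 1, 2, 25165824⟩, ⟨1, 0, 1, 25165824⟩, ⟨2, 1, 0, 7864320⟩, ⟨0, 0, 0, 1056964608⟩, ⟨0, 1, 0, 67108864⟩, ⟨1, 0, 0, 67108864⟩, ⟨1, 1, 0, 1056964608⟩]] false 3 c0N cB101L gN2q1 gN0q1 gN0q0 gN1q0 true true)) t 4 1023 2 = true :=
  ⟨(T.c (T.b (T.l 1) (T.a (T.l 816) (T.c (T.b (T.l 1) (T.a (T.a (T.l 816) (T.l 816)) (T.a (T.l 816) (T.l 816)))) (T.b (T.l 1) (T.a (T.a (T.l 816) (T.l 816)) (T.a (T.l 816) (T.l 816))))))) (T.b (T.l 1) (T.a (T.l 816) (T.c (T.b (T.l 1) (T.a (T.a (T.l 816) (T.l 816)) (T.a (T.l 816) (T.l 816)))) (T.b (T.l 1) (T.a (T.a (T.l 816) (T.l 816)) (T.a (T.l 816) (T.l 816)))))))), by decide +kernel⟩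

def B101L_200_5_1023_4 :
    ∃ t, chk3 (onCell 0 33554432 0 1073741824 33554432 16777216 (corTK [[⟨0, 1, 2, 25165824⟩, ⟨1, 0, 1, 25165824⟩, ⟨2, 1, 0, 7864320⟩, ⟨0, 0, 0, 1056964608⟩, ⟨0, 1, 0, 67108864⟩, ⟨1, 0, 0, 67108864⟩, ⟨1, 1, 0, 1056964608⟩]] false 3 c0N cB101L gN2q1 gN0q1 gN0q0 gN1q0 true true)) t 5 1023 4 = true :=
  ⟨(T.b (T.l 1) (T.a (T.c (T.b (T.l 1) (T.a (T.a (T.l 816) (T.l 880)) (T.c (T.b (T.l 1) (T.a (T.l 816) (T.a (T.l 816) (T.l 816)))) (T.b (T.l 1) (T.a (T.l 816) (T.a (T.l 816) (T.l 816))))))) (T.b (T.l 1) (T.a (T.a (T.l 816) (T.l 816)) (T.c (T.b (T.l 1) (T.a (T.l 816) (T.l 880))) (T.b (T.l 1) (T.a (T.l 816) (T.l 816))))))) (T.c (T.b (T.l 1) (T.a (T.c (T.b (T.l 1) (T.a (T.c (T.b (T.l 1) (T.l 880)) (T.b (T.l 1) (T.l 880))) (T.c (T.b (T.l 1) (T.a (T.l 816) (T.a (T.l 880) (T.l 880)))) (T.b (T.l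 1) (T.a (T.l 816) (T.l 884)))))) (T.b (T.l 1) (T.a (T.c (T.b (T.l 1) (T.l 880)) (T.b (T.l 1) (T.l 816))) (T.c (T.b (T.l 1) (T.a (T.l 816) (T.l 884))) (T.b (T.l 1) (T.a (T.l 816) (T.l 884))))))) (T.c (T.b (T.l 1) (T.a (T.c (T.b (T.l 1) (T.a (T.c (T.b (T.l 1) (T.l 880)) (T.b (T.l 1) (T.l 880))) (T.c (T.b (T.l 1) (T.l 884)) (T.b (T.l 1) (T.l 884))))) (T.b (T.l 1) (T.a (T.c (T.b (T.l 1) (T.l 880)) (T.b (T.l 1) (T.l 880))) (T.c (T.b (T.l 1) (T.l 884)) (T.b (T.l 1) (T.l 884)))))) (T.c (T.b (T.l 1) (T.a (T.c (T.b (T.l 1) (T.a (T.l 884) (T.c (T.b (T.l 1) (T.l 884)) (T.b (T.l 1) (T.l 884))))) (T.b (T.l 1) (T.a (T.l 884) (T.c (T.b (T.l 1) (T.l 884)) (T.a (T.l 884) (T.l 884)))))) (T.c (T.b (T.l 1) (T.a (T.c (T.b (T.l 1) (T.l 884)) (T.b (T.l 1) (T.l 884))) (T.c (T.b (T.l 1) (T.a (T.l 884) (T.l 884))) (T.b (T.l 1) (T.a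 (T.l 884) (T.l 884)))))) (T.b (T.l 1) (T.a (T.c (T.b (T.l 1) (T.l 884)) (T.b (T.l 1) (T.l 884))) (T.c (T.b (T.l 1) (T.a (T.l 884) (T.l 884))) (T.b (T.l 1) (T.a (T.l 884) (T.l 884))))))))) (T.b (T.l 1) (T.a (T.c (T.b (T.l 1) (T.a (T.l 884) (T.a (T.l 884) (T.l 884)))) (T.b (T.l 1) (T.a (T.l 884) (T.l 884)))) (T.c (T.b (T.l 1) (T.a (T.c (T.b (T.l 1) (T.l 884)) (T.b (T.l 1) (T.l 884))) (T.c (T.b (T.l 1) (T.l 884)) (T.b (T.l 1) (T.l 884))))) (T.b (T.l 1) (T.a (T.c (T.b (T.l 1) (T.l 884)) (T.b (T.l 1) (T.l 884))) (T.c (T.b (T.l 1) (T.l 884)) (T.b (T.l 1) (T.l 884))))))))))) (T.b (T.l 1) (T.a (T.c (T.b (T.l 1) (T.a (T.c (T.b (T.l 1) (T.l 880)) (T.a (T.l 884) (T.l 884))) (T.c (T.b (T.l 1) (T.l 884)) (T.b (T.l 1) (T.l 884))))) (T.b (T.l 1) (T.a (T.a (T.l 884) (T.l 884)) (T.c (T.b (T.l 1) (T.l 884)) (T.b (T.l 1) (T.l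 884)))))) (T.c (T.b (T.l 1) (T.a (T.c (T.b (T.l 1) (T.a (T.l 884) (T.l 884))) (T.b (T.l 1) (T.a (T.l 884) (T.l 884)))) (T.c (T.b (T.l 1) (T.a (T.c (T.b (T.l 1) (T.l 884)) (T.b (T.l 1) (T.l 884))) (T.c (T.b (T.l 1) (T.l 884)) (T.b (T.l 1) (T.l 884))))) (T.b (T.l 1) (T.a (T.c (T.b (T.l 1) (T.l 884)) (T.b (T.l 1) (T.l 884))) (T.c (T.b (T.l 1) (T.l 884)) (T.b (T.l 1) (T.l 884)))))))) (T.b (T.l 1) (T.a (T.c (T.b (T.l 1) (T.a (T.l 884) (T.l 884))) (T.b (T.l 1) (T.a (T.l 884) (T.l 884)))) (T.c (T.b (T.l 1) (T.a (T.c (T.b (T.l 1) (T.l 884)) (T.b (T.l 1) (T.l 884))) (T.c (T.b (T.l 1) (T.l 884)) (T.b (T.l 1) (T.l 884))))) (T.b (T.l 1) (T.a (T.c (T.b (T.l 1) (T.l 884)) (T.b (T.l 1) (T.l 884))) (T.c (T.b (T.l 1) (T.l 884)) (T.b (T.l 1) (T.l 884)))))))))))))) (T.b (T.l 1) (T.a (T.c (T.b (T.l 1) (T.a (T.c (T.a (T.l 816)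 (T.l 884)) (T.a (T.l 816) (T.l 884))) (T.c (T.b (T.l 1) (T.a (T.l 816) (T.l 884))) (T.b (T.l 1) (T.a (T.l 816) (T.l 880)))))) (T.b (T.l 1) (T.a (T.a (T.l 816) (T.l 884)) (T.c (T.b (T.l 1) (T.a (T.l 816) (T.l 816))) (T.b (T.l 1) (T.a (T.l 816) (T.l 816))))))) (T.c (T.b (T.l 1) (T.a (T.c (T.b (T.l 1) (T.a (T.a (T.l 884) (T.l 884)) (T.c (T.b (T.l 1) (T.l 884)) (T.b (T.l 1) (T.l 884))))) (T.b (T.l 1) (T.a (T.a (T.l 884) (T.l 884)) (T.c (T.b (T.l 1) (T.l 884)) (T.b (T.l 1) (T.l 884)))))) (T.c (T.b (T.l 1) (T.a (T.c (T.b (T.l 1) (T.a (T.l 884) (T.l 884))) (T.b (T.l 1) (T.a (T.l 884) (T.l 884)))) (T.c (T.b (T.l 1) (T.a (T.c (T.b (T.l 1) (T.l 884)) (T.b (T.l 1) (T.l 884))) (T.c (T.b (T.l 1) (T.l 884)) (T.b (T.l 1) (T.l 884))))) (T.b (T.l 1) (T.a (T.c (T.b (T.l 1) (T.l 884)) (T.b (T.l 1) (T.l 884))) (T.c (T.b (T.l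 1) (T.l 884)) (T.b (T.l 1) (T.l 884)))))))) (T.b (T.l 1) (T.a (T.c (T.b (T.l 1) (T.a (T.l 884) (T.l 884))) (T.b (T.l 1) (T.l 884))) (T.c (T.b (T.l 1) (T.a (T.a (T.l 884) (T.l 884)) (T.c (T.b (T.l 1) (T.l 884)) (T.b (T.l 1) (T.l 884))))) (T.b (T.l 1) (T.a (T.a (T.l 884) (T.l 884)) (T.c (T.b (T.l 1) (T.l 884)) (T.b (T.l 1) (T.l 884))))))))))) (T.b (T.l 1) (T.a (T.c (T.b (T.l 1) (T.a (T.l 884) (T.c (T.b (T.l 1) (T.l 884)) (T.b (T.l 1) (T.l 884))))) (T.b (T.l 1) (T.a (T.l 884) (T.c (T.b (T.l 1) (T.l 884)) (T.b (T.l 1) (T.l 884)))))) (T.c (T.b (T.l 1) (T.a (T.c (T.b (T.l 1) (T.l 884)) (T.b (T.l 1) (T.l 884))) (T.c (T.b (T.l 1) (T.a (T.a (T.l 884) (T.l 884)) (T.c (T.b (T.l 1) (T.l 884)) (T.b (T.l 1) (T.l 884))))) (T.b (T.l 1) (T.a (T.l 884) (T.c (T.b (T.l 1) (T.l 884)) (T.b (T.l 1) (T.l 884)))))))) (T.b (T.l 1)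 (T.a (T.c (T.b (T.l 1) (T.l 884)) (T.b (T.l 1) (T.l 884))) (T.c (T.b (T.l 1) (T.a (T.l 884) (T.c (T.b (T.l 1) (T.l 884)) (T.b (T.l 1) (T.l 884))))) (T.b (T.l 1) (T.a (T.l 884) (T.c (T.b (T.l 1) (T.l 884)) (T.b (T.l 1) (T.l 884))))))))))))))))), by decide +kernel⟩

def B101L_200_5_1023_5 :
    ∃ t, chk3 (onCell 0 33554432 0 1073741824 33554432 16777216 (corTK [[⟨0, 1, 2, 25165824⟩, ⟨1, 0, 1, 25165824⟩, ⟨2, 1, 0, 7864320⟩, ⟨0, 0, 0, 1056964608⟩, ⟨0, 1, 0, 67108864⟩, ⟨1, 0, 0, 67108864⟩, ⟨1, 1, 0, 1056964608⟩]] false 3 c0N cB101L gN2q1 gN0q1 gN0q0 gN1q0 true true)) t 5 1023 5 = true :=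
  ⟨(T.b (T.l 1) (T.a (T.c (T.b (T.l 1) (T.a (T.a (T.l 816) (T.l 816)) (T.c (T.a (T.l 884) (T.b (T.l 1) (T.l 816))) (T.a (T.l 820) (T.b (T.l 1) (T.l 816)))))) (T.b (T.l 1) (T.a (T.a (T.l 816) (T.l 816)) (T.a (T.l 820) (T.c (T.b (T.l 1) (T.l 816)) (T.b (T.l 1) (T.l 816))))))) (T.c (T.b (T.l 1) (T.a (T.c (T.b (T.l 1) (T.a (T.a (T.l 816) (T.l 816)) (T.c (T.b (T.l 1) (T.a (T.l 816) (T.l 816))) (T.b (T.l 1) (T.a (T.l 816) (T.l 816)))))) (T.b (T.l 1) (T.a (T.a (T.l 816) (T.l 816)) (T.c (T.b (T.l 1) (T.a (T.l 816) (T.l 816))) (T.a (T.l 884) (T.b (T.l 1) (T.l 816))))))) (T.c (T.b (T.l 1) (T.a (T.c (T.b (T.l 1) (T.a (T.l 884) (T.c (T.b (T.l 1) (T.l 884)) (T.b (T.l 1) (T.l 884))))) (T.b (T.l 1) (T.a (T.l 884) (T.c (T.b (T.l 1) (T.l 820)) (T.b (T.l 1) (T.l 820)))))) (T.c (T.b (T.l 1) (T.a (T.c (T.b (T.l 1) (T.l 884))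 (T.b (T.l 1) (T.l 884))) (T.c (T.b (T.l 1) (T.a (T.l 884) (T.c (T.b (T.l 1) (T.l 884)) (T.b (T.l 1) (T.l 884))))) (T.b (T.l 1) (T.a (T.l 884) (T.c (T.b (T.l 1) (T.l 884)) (T.b (T.l 1) (T.l 884)))))))) (T.b (T.l 1) (T.a (T.c (T.b (T.l 1) (T.l 884)) (T.b (T.l 1) (T.l 884))) (T.c (T.b (T.l 1) (T.a (T.l 884) (T.c (T.b (T.l 1) (T.l 884)) (T.b (T.l 1) (T.l 884))))) (T.b (T.l 1) (T.a (T.l 884) (T.c (T.b (T.l 1) (T.l 884)) (T.b (T.l 1) (T.l 884))))))))))) (T.b (T.l 1) (T.a (T.c (T.b (T.l 1) (T.a (T.l 884) (T.a (T.l 884) (T.l 884)))) (T.b (T.l 1) (T.a (T.l 884) (T.a (T.l 884) (T.l 884))))) (T.c (T.b (T.l 1) (T.a (T.c (T.b (T.l 1) (T.l 884)) (T.b (T.l 1) (T.l 884))) (T.c (T.b (T.l 1) (T.a (T.l 884) (T.c (T.b (T.l 1) (T.l 884)) (T.b (T.l 1) (T.l 884))))) (T.b (T.l 1) (T.a (T.l 884) (T.c (T.b (T.l 1) (T.l 884)) (T.b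 (T.l 1) (T.l 884)))))))) (T.b (T.l 1) (T.a (T.c (T.b (T.l 1) (T.l 884)) (T.b (T.l 1) (T.l 884))) (T.c (T.b (T.l 1) (T.a (T.l 884) (T.c (T.b (T.l 1) (T.l 884)) (T.b (T.l 1) (T.l 884))))) (T.b (T.l 1) (T.a (T.l 884) (T.a (T.l 884) (T.l 884))))))))))))) (T.b (T.l 1) (T.a (T.c (T.b (T.l 1) (T.a (T.a (T.l 816) (T.l 816)) (T.a (T.l 884) (T.c (T.b (T.l 1) (T.l 816)) (T.b (T.l 1) (T.l 816)))))) (T.b (T.l 1) (T.a (T.a (T.l 816) (T.l 816)) (T.a (T.l 820) (T.c (T.b (T.l 1) (T.l 816)) (T.b (T.l 1) (T.l 816))))))) (T.c (T.b (T.l 1) (T.a (T.c (T.b (T.l 1) (T.a (T.l 820) (T.a (T.l 884) (T.l 884)))) (T.b (T.l 1) (T.a (T.l 820) (T.a (T.l 820) (T.l 884))))) (T.c (T.b (T.l 1) (T.a (T.c (T.b (T.l 1) (T.l 884)) (T.b (T.l 1) (T.l 884))) (T.c (T.b (T.l 1) (T.a (T.l 884) (T.a (T.l 884) (T.l 884)))) (T.b (T.l 1) (T.a (T.l 884) (T.a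 (T.l 884) (T.l 884))))))) (T.b (T.l 1) (T.a (T.c (T.b (T.l 1) (T.l 884)) (T.b (T.l 1) (T.l 884))) (T.c (T.b (T.l 1) (T.a (T.l 884) (T.l 884))) (T.b (T.l 1) (T.a (T.l 884) (T.l 884))))))))) (T.b (T.l 1) (T.a (T.c (T.b (T.l 1) (T.a (T.l 820) (T.a (T.l 820) (T.l 884)))) (T.b (T.l 1) (T.a (T.l 820) (T.l 884)))) (T.c (T.b (T.l 1) (T.a (T.c (T.b (T.l 1) (T.l 884)) (T.b (T.l 1) (T.l 884))) (T.c (T.b (T.l 1) (T.a (T.l 884) (T.l 884))) (T.b (T.l 1) (T.a (T.l 884) (T.l 884)))))) (T.b (T.l 1) (T.a (T.c (T.b (T.l 1) (T.l 884)) (T.b (T.l 1) (T.l 884))) (T.c (T.b (T.l 1) (T.a (T.l 884) (T.l 884))) (T.b (T.l 1) (T.a (T.l 884) (T.l 884))))))))))))))), by decide +kernel⟩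

def B101L_200_2_511_3 :
    ∃ t, chk3 (onCell 0 33554432 0 1073741824 33554432 16777216 (corTK [[⟨0, 1, 2, 25165824⟩, ⟨1, 0, 1, 25165824⟩, ⟨2, 1, 0, 7864320⟩, ⟨0, 0, 0, 1056964608⟩, ⟨0, 1, 0, 67108864⟩, ⟨1, 0, 0, 67108864⟩, ⟨1, 1, 0, 1056964608⟩]] false 3 c0N cB101L gN2q1 gN0q1 gN0q0 gN1q0 true true)) t 2 511 3 = true :=
  ⟨(T.b (T.l 1) (T.a (T.c (T.b (T.l 1) (T.a (T.l 816) (T.c (T.b (T.l 1) (T.a (T.a (T.l 816) (T.l 816)) (T.a (T.l 816) (T.l 816)))) (T.b (T.l 1) (T.a (T.a (T.l 816) (T.l 816)) (T.a (T.l 816) (T.l 816))))))) (T.b (T.l 1) (T.a (T.l 816) (T.c (T.b (T.l 1) (T.a (T.a (T.l 816) (T.l 816)) (T.a (T.l 816) (T.l 816)))) (T.b (T.l 1) (T.a (T.a (T.l 816) (T.l 816)) (T.a (T.l 816) (T.l 816)))))))) (T.c (T.b (T.l 1) (T.a (T.c (T.b (T.l 1) (T.a (T.a (T.l 816) (T.l 816)) (T.a (T.l 816) (T.c (T.b (T.l 1)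 (T.l 816)) (T.a (T.l 816) (T.l 820)))))) (T.b (T.l 1) (T.a (T.a (T.l 816) (T.l 816)) (T.a (T.l 816) (T.a (T.l 816) (T.l 820)))))) (T.c (T.b (T.l 1) (T.a (T.c (T.b (T.l 1) (T.a (T.l 820) (T.c (T.b (T.l 1) (T.l 820)) (T.b (T.l 1) (T.l 820))))) (T.b (T.l 1) (T.a (T.l 820) (T.c (T.b (T.l 1) (T.l 820)) (T.b (T.l 1) (T.l 820)))))) (T.c (T.b (T.l 1) (T.a (T.c (T.b (T.l 1) (T.a (T.l 816) (T.l 884))) (T.b (T.l 1) (T.a (T.l 816) (T.l 884)))) (T.c (T.b (T.l 1) (T.a (T.c (T.b (T.l 1) (T.l 884)) (T.b (T.l 1) (T.l 884))) (T.c (T.b (T.l 1) (T.a (T.l 884) (T.l 884))) (T.b (T.l 1) (T.a (T.l 884) (T.l 884)))))) (T.b (T.l 1) (T.a (T.c (T.b (T.l 1) (T.l 884)) (T.b (T.l 1) (T.l 820))) (T.c (T.b (T.l 1) (T.a (T.l 884) (T.l 884))) (T.b (T.l 1) (T.a (T.l 884) (T.l 884))))))))) (T.b (T.l 1) (T.a (T.c (T.b (T.l 1) (T.a (T.l 816) (T.l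 884))) (T.b (T.l 1) (T.a (T.l 816) (T.l 884)))) (T.c (T.b (T.l 1) (T.a (T.c (T.b (T.l 1) (T.l 820)) (T.b (T.l 1) (T.l 820))) (T.c (T.b (T.l 1) (T.a (T.l 884) (T.l 884))) (T.b (T.l 1) (T.a (T.l 884) (T.l 884)))))) (T.b (T.l 1) (T.a (T.a (T.l 884) (T.l 884)) (T.c (T.b (T.l 1) (T.l 884)) (T.b (T.l 1) (T.l 884))))))))))) (T.b (T.l 1) (T.a (T.c (T.b (T.l 1) (T.a (T.l 820) (T.c (T.b (T.l 1) (T.l 820)) (T.b (T.l 1) (T.l 820))))) (T.b (T.l 1) (T.a (T.l 820) (T.c (T.a (T.l 816) (T.l 820)) (T.a (T.l 816) (T.l 820)))))) (T.c (T.b (T.l 1) (T.a (T.c (T.b (T.l 1) (T.a (T.l 816) (T.l 820))) (T.b (T.l 1) (T.a (T.l 816) (T.l 820)))) (T.c (T.b (T.l 1) (T.a (T.a (T.l 884) (T.l 884)) (T.c (T.b (T.l 1) (T.l 884)) (T.b (T.l 1) (T.l 884))))) (T.b (T.l 1) (T.a (T.a (T.l 884) (T.l 884)) (T.c (T.b (T.l 1) (T.l 884)) (T.b (T.l 1) (T.l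 884)))))))) (T.b (T.l 1) (T.a (T.c (T.b (T.l 1) (T.a (T.l 816) (T.l 820))) (T.b (T.l 1) (T.a (T.l 816) (T.l 820)))) (T.c (T.b (T.l 1) (T.a (T.a (T.l 820) (T.l 884)) (T.c (T.b (T.l 1) (T.l 884)) (T.b (T.l 1) (T.l 884))))) (T.b (T.l 1) (T.a (T.a (T.l 820) (T.l 884)) (T.c (T.b (T.l 1) (T.l 884)) (T.b (T.l 1) (T.l 884)))))))))))))) (T.b (T.l 1) (T.a (T.c (T.b (T.l 1) (T.a (T.a (T.l 816) (T.l 816)) (T.a (T.l 816) (T.a (T.l 816) (T.l 816))))) (T.b (T.l 1) (T.a (T.a (T.l 816) (T.l 816)) (T.a (T.l 816) (T.a (T.l 816) (T.l 816)))))) (T.c (T.b (T.l 1) (T.a (T.c (T.b (T.l 1) (T.a (T.l 816) (T.a (T.l 816) (T.l 820)))) (T.b (T.l 1) (T.a (T.l 816) (T.a (T.l 816) (T.l 820))))) (T.c (T.b (T.l 1) (T.a (T.c (T.b (T.l 1) (T.a (T.l 816) (T.l 820))) (T.b (T.l 1) (T.a (T.l 816) (T.l 820)))) (T.c (T.b (T.l 1) (T.a (T.l 884) (T.c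 (T.b (T.l 1) (T.l 884)) (T.b (T.l 1) (T.l 884))))) (T.b (T.l 1) (T.a (T.l 884) (T.c (T.b (T.l 1) (T.l 884)) (T.b (T.l 1) (T.l 884)))))))) (T.b (T.l 1) (T.a (T.c (T.b (T.l 1) (T.a (T.l 816) (T.l 816))) (T.b (T.l 1) (T.a (T.l 816) (T.l 816)))) (T.c (T.b (T.l 1) (T.a (T.l 884) (T.c (T.b (T.l 1) (T.l 884)) (T.b (T.l 1) (T.l 884))))) (T.b (T.l 1) (T.a (T.l 884) (T.c (T.b (T.l 1) (T.l 884)) (T.b (T.l 1) (T.l 884))))))))))) (T.b (T.l 1) (T.a (T.c (T.b (T.l 1) (T.a (T.l 816) (T.a (T.l 816) (T.l 820)))) (T.b (T.l 1) (T.a (T.l 816) (T.a (T.l 816) (T.l 820))))) (T.c (T.b (T.l 1) (T.a (T.c (T.b (T.l 1) (T.a (T.l 816) (T.l 816))) (T.b (T.l 1) (T.a (T.l 816) (T.l 816)))) (T.c (T.b (T.l 1) (T.a (T.l 884) (T.c (T.b (T.l 1) (T.l 884)) (T.b (T.l 1) (T.l 884))))) (T.b (T.l 1) (T.a (T.l 884) (T.c (T.b (T.l 1) (T.l 884)) (T.a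 (T.l 884) (T.l 884)))))))) (T.b (T.l 1) (T.a (T.c (T.b (T.l 1) (T.a (T.l 816) (T.l 816))) (T.b (T.l 1) (T.a (T.l 816) (T.l 816)))) (T.c (T.b (T.l 1) (T.a (T.l 820) (T.a (T.l 884) (T.l 884)))) (T.b (T.l 1) (T.a (T.l 820) (T.a (T.l 884) (T.l 884)))))))))))))))), by decide +kernel⟩

def B101L_200_3_511_2 :
    ∃ t, chk3 (onCell 0 33554432 0 1073741824 33554432 16777216 (corTK [[⟨0, 1, 2, 25165824⟩, ⟨1, 0, 1, 25165824⟩, ⟨2, 1, 0, 7864320⟩, ⟨0, 0, 0, 1056964608⟩, ⟨0, 1, 0, 67108864⟩, ⟨1, 0, 0, 67108864⟩, ⟨1, 1, 0, 1056964608⟩]] false 3 c0N cB101L gN2q1 gN0q1 gN0q0 gN1q0 true true)) t 3 511 2 = true :=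
  ⟨(T.a (T.a (T.a (T.b (T.l 1) (T.a (T.c (T.b (T.l 1) (T.a (T.a (T.c (T.b (T.l 1) (T.a (T.c (T.b (T.l 1) (T.a (T.c (T.b (T.l 1) (T.a (T.c (T.b (T.l 1) (T.c (T.b (T.l 1) (T.l 884)) (T.b (T.l 1) (T.l 884)))) (T.b (T.l 1) (T.c (T.b (T.l 1) (T.l 884)) (T.b (T.l 1) (T.l 884))))) (T.l 1024))) (T.b (T.l 1) (T.a (T.c (T.b (T.l 1) (T.c (T.b (T.l 1) (T.l 884)) (T.b (T.l 1) (T.l 884)))) (T.b (T.l 1) (T.c (T.b (T.l 1) (T.l 884)) (T.b (T.l 1) (T.l 884))))) (T.l 1024)))) (T.l 1024))) (T.b (T.l 1) (T.a (T.c (T.b (T.l 1) (T.a (T.c (T.b (T.l 1) (T.c (T.b (T.l 1) (T.l 884)) (T.b (T.l 1) (T.l 884)))) (T.b (T.l 1) (T.c (T.b (T.l 1) (T.l 884)) (T.b (T.l 1) (T.l 884))))) (T.l 1024))) (T.b (T.l 1) (T.a (T.c (T.b (T.l 1) (T.c (T.b (T.l 1) (T.l 884)) (T.b (T.l 1) (T.l 884)))) (T.b (T.l 1) (T.c (T.b (T.l 1) (T.l 884)) (T.b (T.l 1)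 (T.l 884))))) (T.l 1024)))) (T.l 1024)))) (T.l 1024))) (T.b (T.l 1) (T.a (T.c (T.b (T.l 1) (T.a (T.c (T.b (T.l 1) (T.a (T.c (T.b (T.l 1) (T.c (T.b (T.l 1) (T.l 884)) (T.b (T.l 1) (T.l 884)))) (T.b (T.l 1) (T.c (T.b (T.l 1) (T.l 884)) (T.b (T.l 1) (T.l 884))))) (T.l 1024))) (T.b (T.l 1) (T.a (T.c (T.b (T.l 1) (T.c (T.b (T.l 1) (T.l 884)) (T.b (T.l 1) (T.l 884)))) (T.b (T.l 1) (T.c (T.b (T.l 1) (T.l 884)) (T.b (T.l 1) (T.l 884))))) (T.l 1024)))) (T.l 1024))) (T.b (T.l 1) (T.a (T.c (T.b (T.l 1) (T.a (T.c (T.b (T.l 1) (T.c (T.b (T.l 1) (T.l 884)) (T.b (T.l 1) (T.l 884)))) (T.b (T.l 1) (T.c (T.b (T.l 1) (T.l 884)) (T.b (T.l 1) (T.l 884))))) (T.l 1024))) (T.b (T.l 1) (T.a (T.c (T.b (T.l 1) (T.c (T.b (T.l 1) (T.l 884)) (T.b (T.l 1) (T.l 884)))) (T.b (T.l 1) (T.c (T.b (T.l 1) (T.l 884)) (T.b (T.l 1) (T.l 884)))))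 (T.l 1024)))) (T.l 1024)))) (T.l 1024)))) (T.l 1024)) (T.l 1024))) (T.b (T.l 1) (T.a (T.a (T.c (T.b (T.l 1) (T.a (T.c (T.b (T.l 1) (T.a (T.c (T.b (T.l 1) (T.a (T.c (T.b (T.l 1) (T.c (T.b (T.l 1) (T.l 884)) (T.b (T.l 1) (T.l 884)))) (T.b (T.l 1) (T.c (T.b (T.l 1) (T.l 884)) (T.b (T.l 1) (T.l 884))))) (T.l 1024))) (T.b (T.l 1) (T.a (T.c (T.b (T.l 1) (T.c (T.b (T.l 1) (T.l 884)) (T.b (T.l 1) (T.l 884)))) (T.b (T.l 1) (T.c (T.b (T.l 1) (T.l 884)) (T.b (T.l 1) (T.l 884))))) (T.l 1024)))) (T.l 1024))) (T.b (T.l 1) (T.a (T.c (T.b (T.l 1) (T.a (T.c (T.b (T.l 1) (T.c (T.b (T.l 1) (T.l 884)) (T.b (T.l 1) (T.l 884)))) (T.b (T.l 1) (T.c (T.b (T.l 1) (T.l 884)) (T.b (T.l 1) (T.l 884))))) (T.l 1024))) (T.b (T.l 1) (T.a (T.c (T.b (T.l 1) (T.l 884)) (T.b (T.l 1) (T.l 884))) (T.l 1024)))) (T.l 1024)))) (T.l 1024))) (T.b (T.l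 1) (T.a (T.c (T.b (T.l 1) (T.a (T.c (T.b (T.l 1) (T.c (T.b (T.l 1) (T.l 884)) (T.b (T.l 1) (T.l 884)))) (T.b (T.l 1) (T.c (T.b (T.l 1) (T.l 884)) (T.b (T.l 1) (T.l 884))))) (T.l 1024))) (T.b (T.l 1) (T.a (T.c (T.b (T.l 1) (T.c (T.b (T.l 1) (T.l 884)) (T.b (T.l 1) (T.l 884)))) (T.b (T.l 1) (T.c (T.b (T.l 1) (T.l 884)) (T.b (T.l 1) (T.l 884))))) (T.l 1024)))) (T.l 1024)))) (T.l 1024)) (T.l 1024)))) (T.l 1024))) (T.l 1024)) (T.l 1024)) (T.l 1024)), by decide +kernel⟩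

def B101L_200_3_1022_3 :
    ∃ t, chk3 (onCell 0 33554432 0 1073741824 33554432 16777216 (corTK [[⟨0, 1, 2, 25165824⟩, ⟨1, 0, 1, 25165824⟩, ⟨2, 1, 0, 7864320⟩, ⟨0, 0, 0, 1056964608⟩, ⟨0, 1, 0, 67108864⟩, ⟨1, 0, 0, 67108864⟩, ⟨1, 1, 0, 1056964608⟩]] false 3 c0N cB101L gN2q1 gN0q1 gN0q0 gN1q0 true true)) t 3 1022 3 = true :=
  ⟨(T.l 1), by decide +kernel⟩

def B101L_200_6_1023_6 :
    ∃ t, chk3 (onCell 0 33554432 0 1073741824 33554432 16777216 (corTK [[⟨0, 1, 2, 25165824⟩, ⟨1, 0, 1, 25165824⟩, ⟨2, 1, 0, 7864320⟩, ⟨0, 0, 0, 1056964608⟩, ⟨0, 1, 0, 67108864⟩, ⟨1, 0, 0, 67108864⟩, ⟨1, 1, 0, 1056964608⟩]] false 3 c0N cB101L gN2q1 gN0q1 gN0q0 gN1q0 true true)) t 6 1023 6 = true :=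
  ⟨(T.b (T.l 1) (T.a (T.c (T.b (T.l 1) (T.a (T.c (T.b (T.l 1) (T.a (T.c (T.b (T.l 1) (T.a (T.c (T.b (T.l 1) (T.a (T.l 884) (T.l 884))) (T.b (T.l 1) (T.a (T.l 884) (T.l 884)))) (T.a (T.c (T.l 1024) (T.b (T.l 1) (T.l 884))) (T.l 1024)))) (T.b (T.l 1) (T.a (T.c (T.b (T.l 1) (T.a (T.l 884) (T.l 884))) (T.b (T.l 1) (T.a (T.l 884) (T.l 884)))) (T.c (T.b (T.l 1) (T.a (T.l 884) (T.l 884))) (T.b (T.l 1) (T.a (T.l 884) (T.l 884))))))) (T.a (T.a (T.c (T.l 1024) (T.a (T.c (T.l 1024) (T.a (T.b (T.l 1) (T.b (T.l 1) (T.l 884))) (T.l 1024))) (T.l 1024))) (T.l 1024)) (T.l 1024)))) (T.b (T.l 1) (T.a (T.c (T.b (T.l 1) (T.a (T.c (T.b (T.l 1) (T.l 884)) (T.b (T.l 1) (T.l 884))) (T.c (T.b (T.l 1) (T.a (T.l 884) (T.l 884))) (T.b (T.l 1) (T.l 884))))) (T.b (T.l 1) (T.a (T.c (T.b (T.l 1) (T.l 884)) (T.b (T.l 1) (T.l 884))) (T.c (T.b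 (T.l 1) (T.l 884)) (T.b (T.l 1) (T.l 884)))))) (T.c (T.b (T.l 1) (T.a (T.c (T.b (T.l 1) (T.a (T.l 884) (T.l 884))) (T.b (T.l 1) (T.a (T.l 884) (T.l 884)))) (T.a (T.c (T.l 1024) (T.b (T.l 1) (T.l 884))) (T.l 1024)))) (T.b (T.l 1) (T.a (T.c (T.b (T.l 1) (T.a (T.l 884) (T.l 884))) (T.b (T.l 1) (T.l 884))) (T.c (T.b (T.l 1) (T.a (T.l 884) (T.l 884))) (T.b (T.l 1) (T.a (T.l 884) (T.l 884)))))))))) (T.a (T.a (T.c (T.l 1024) (T.a (T.c (T.l 1024) (T.a (T.b (T.l 1) (T.c (T.l 1024) (T.a (T.b (T.l 1) (T.b (T.l 1) (T.l 884))) (T.l 1024)))) (T.l 1024))) (T.l 1024))) (T.l 1024)) (T.l 1024)))) (T.b (T.l 1) (T.a (T.c (T.b (T.l 1) (T.a (T.c (T.b (T.l 1) (T.a (T.c (T.b (T.l 1) (T.l 884)) (T.b (T.l 1) (T.l 884))) (T.c (T.b (T.l 1) (T.l 884)) (T.b (T.l 1) (T.l 884))))) (T.b (T.l 1) (T.a (T.c (T.b (T.l 1) (T.l 884)) (T.b (T.l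 1) (T.l 884))) (T.c (T.b (T.l 1) (T.l 884)) (T.b (T.l 1) (T.l 884)))))) (T.c (T.b (T.l 1) (T.a (T.c (T.b (T.l 1) (T.l 884)) (T.b (T.l 1) (T.l 884))) (T.c (T.b (T.l 1) (T.l 884)) (T.b (T.l 1) (T.l 884))))) (T.b (T.l 1) (T.a (T.c (T.b (T.l 1) (T.l 884)) (T.b (T.l 1) (T.l 884))) (T.c (T.b (T.l 1) (T.l 884)) (T.b (T.l 1) (T.l 884)))))))) (T.b (T.l 1) (T.a (T.c (T.b (T.l 1) (T.a (T.c (T.b (T.l 1) (T.l 884)) (T.b (T.l 1) (T.l 884))) (T.c (T.b (T.l 1) (T.l 884)) (T.b (T.l 1) (T.l 884))))) (T.b (T.l 1) (T.a (T.c (T.b (T.l 1) (T.l 884)) (T.b (T.l 1) (T.l 884))) (T.c (T.b (T.l 1) (T.l 884)) (T.b (T.l 1) (T.l 884)))))) (T.c (T.b (T.l 1) (T.a (T.c (T.b (T.l 1) (T.l 884)) (T.b (T.l 1) (T.l 884))) (T.c (T.b (T.l 1) (T.l 884)) (T.b (T.l 1) (T.l 884))))) (T.b (T.l 1) (T.a (T.c (T.b (T.l 1) (T.l 884)) (T.b (T.l 1) (T.l 884)))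 (T.c (T.b (T.l 1) (T.l 884)) (T.b (T.l 1) (T.l 884))))))))) (T.c (T.b (T.l 1) (T.a (T.c (T.b (T.l 1) (T.a (T.c (T.b (T.l 1) (T.a (T.l 884) (T.l 884))) (T.b (T.l 1) (T.a (T.l 884) (T.l 884)))) (T.a (T.c (T.l 1024) (T.b (T.l 1) (T.l 884))) (T.l 1024)))) (T.b (T.l 1) (T.a (T.c (T.b (T.l 1) (T.l 884)) (T.b (T.l 1) (T.l 884))) (T.c (T.b (T.l 1) (T.a (T.l 884) (T.l 884))) (T.b (T.l 1) (T.a (T.l 884) (T.l 884))))))) (T.a (T.a (T.c (T.l 1024) (T.a (T.c (T.l 1024) (T.b (T.l 1) (T.b (T.l 1) (T.l 884)))) (T.l 1024))) (T.l 1024)) (T.l 1024)))) (T.b (T.l 1) (T.a (T.c (T.b (T.l 1) (T.a (T.c (T.b (T.l 1) (T.l 884)) (T.b (T.l 1) (T.l 884))) (T.c (T.b (T.l 1) (T.l 884)) (T.b (T.l 1) (T.l 884))))) (T.b (T.l 1) (T.a (T.c (T.b (T.l 1) (T.l 884)) (T.b (T.l 1) (T.l 884))) (T.c (T.b (T.l 1) (T.l 884)) (T.b (T.l 1) (T.l 884))))))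 (T.c (T.b (T.l 1) (T.a (T.c (T.b (T.l 1) (T.a (T.l 884) (T.l 884))) (T.b (T.l 1) (T.l 884))) (T.a (T.c (T.l 1024) (T.b (T.l 1) (T.l 884))) (T.l 1024)))) (T.b (T.l 1) (T.a (T.c (T.b (T.l 1) (T.l 884)) (T.b (T.l 1) (T.l 884))) (T.c (T.b (T.l 1) (T.a (T.l 884) (T.l 884))) (T.b (T.l 1) (T.l 884)))))))))))) (T.a (T.a (T.c (T.l 1024) (T.a (T.c (T.l 1024) (T.a (T.b (T.l 1) (T.c (T.l 1024) (T.a (T.b (T.l 1) (T.c (T.l 1024) (T.a (T.b (T.l 1) (T.b (T.l 1) (T.l 884))) (T.l 1024)))) (T.l 1024)))) (T.l 1024))) (T.l 1024))) (T.l 1024)) (T.l 1024)))), by decide +kernel⟩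

def B101L_200_6_2046_7 :
    ∃ t, chk3 (onCell 0 33554432 0 1073741824 33554432 16777216 (corTK [[⟨0, 1, 2, 25165824⟩, ⟨1, 0, 1, 25165824⟩, ⟨2, 1, 0, 7864320⟩, ⟨0, 0, 0, 1056964608⟩, ⟨0, 1, 0, 67108864⟩, ⟨1, 0, 0, 67108864⟩, ⟨1, 1, 0, 1056964608⟩]] false 3 c0N cB101L gN2q1 gN0q1 gN0q0 gN1q0 true true)) t 6 2046 7 = true :=
  ⟨(T.l 1), by decide +kernel⟩

def B101L_200_12_2047_7 :
    ∃ t, chk3 (onCell 0 33554432 0 1073741824 33554432 16777216 (corTK [[⟨0, 1, 2, 25165824⟩, ⟨1, 0, 1, 25165824⟩, ⟨2, 1, 0, 7864320⟩, ⟨0, 0, 0, 1056964608⟩, ⟨0, 1, 0, 67108864⟩, ⟨1, 0, 0, 67108864⟩, ⟨1, 1, 0, 1056964608⟩]] false 3 c0N cB101L gN2q1 gN0q1 gN0q0 gN1q0 true true)) t 12 2047 7 = true :=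
  ⟨(T.c (T.b (T.l 1) (T.a (T.c (T.b (T.l 1) (T.a (T.c (T.b (T.l 1) (T.a (T.c (T.b (T.l 1) (T.l 884)) (T.b (T.l 1) (T.l 884))) (T.c (T.b (T.l 1) (T.l 884)) (T.b (T.l 1) (T.l 884))))) (T.b (T.l 1) (T.a (T.c (T.b (T.l 1) (T.l 884)) (T.b (T.l 1) (T.l 884))) (T.c (T.b (T.l 1) (T.l 884)) (T.b (T.l 1) (T.l 884)))))) (T.c (T.b (T.l 1) (T.a (T.c (T.b (T.l 1) (T.l 884)) (T.b (T.l 1) (T.l 884))) (T.c (T.b (T.l 1) (T.l 884)) (T.b (T.l 1) (T.l 884))))) (T.b (T.l 1) (T.a (T.c (T.b (T.l 1) (T.l 884)) (T.b (T.l 1) (T.l 884))) (T.c (T.b (T.l 1) (T.l 884)) (T.b (T.l 1) (T.l 884)))))))) (T.b (T.l 1) (T.a (T.c (T.b (T.l 1) (T.a (T.c (T.b (T.l 1) (T.l 884)) (T.b (T.l 1) (T.l 884))) (T.c (T.b (T.l 1) (T.l 884)) (T.b (T.l 1) (T.l 884))))) (T.b (T.l 1) (T.a (T.c (T.b (T.l 1) (T.l 884)) (T.b (T.l 1) (T.l 884))) (T.c (T.b (T.l 1)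 (T.l 884)) (T.b (T.l 1) (T.l 884)))))) (T.c (T.b (T.l 1) (T.a (T.c (T.b (T.l 1) (T.l 884)) (T.b (T.l 1) (T.l 884))) (T.c (T.b (T.l 1) (T.l 884)) (T.b (T.l 1) (T.l 884))))) (T.b (T.l 1) (T.a (T.c (T.b (T.l 1) (T.l 884)) (T.b (T.l 1) (T.l 884))) (T.c (T.b (T.l 1) (T.l 884)) (T.b (T.l 1) (T.l 884))))))))) (T.c (T.b (T.l 1) (T.a (T.c (T.b (T.l 1) (T.a (T.c (T.b (T.l 1) (T.l 884)) (T.b (T.l 1) (T.l 884))) (T.c (T.b (T.l 1) (T.l 884)) (T.b (T.l 1) (T.l 884))))) (T.b (T.l 1) (T.a (T.c (T.b (T.l 1) (T.l 884)) (T.b (T.l 1) (T.l 884))) (T.c (T.b (T.l 1) (T.l 884)) (T.b (T.l 1) (T.l 884)))))) (T.c (T.b (T.l 1) (T.a (T.c (T.b (T.l 1) (T.l 884)) (T.b (T.l 1) (T.l 884))) (T.c (T.b (T.l 1) (T.l 884)) (T.b (T.l 1) (T.l 884))))) (T.b (T.l 1) (T.a (T.c (T.b (T.l 1) (T.l 884)) (T.b (T.l 1) (T.l 884))) (T.c (T.b (T.l 1) (T.l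 884)) (T.b (T.l 1) (T.l 884)))))))) (T.b (T.l 1) (T.a (T.c (T.b (T.l 1) (T.a (T.c (T.b (T.l 1) (T.l 884)) (T.b (T.l 1) (T.l 884))) (T.c (T.b (T.l 1) (T.l 884)) (T.b (T.l 1) (T.l 884))))) (T.b (T.l 1) (T.a (T.c (T.b (T.l 1) (T.l 884)) (T.b (T.l 1) (T.l 884))) (T.c (T.b (T.l 1) (T.l 884)) (T.b (T.l 1) (T.l 884)))))) (T.c (T.b (T.l 1) (T.a (T.c (T.b (T.l 1) (T.l 884)) (T.b (T.l 1) (T.l 884))) (T.c (T.b (T.l 1) (T.l 884)) (T.b (T.l 1) (T.l 884))))) (T.b (T.l 1) (T.a (T.c (T.b (T.l 1) (T.l 884)) (T.b (T.l 1) (T.l 884))) (T.c (T.b (T.l 1) (T.l 884)) (T.b (T.l 1) (T.l 884))))))))))) (T.b (T.l 1) (T.a (T.c (T.b (T.l 1) (T.a (T.c (T.b (T.l 1) (T.a (T.c (T.b (T.l 1) (T.l 884)) (T.b (T.l 1) (T.l 884))) (T.c (T.b (T.l 1) (T.l 884)) (T.b (T.l 1) (T.l 884))))) (T.b (T.l 1) (T.a (T.c (T.b (T.l 1) (T.l 884)) (T.b (T.l 1)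 (T.l 884))) (T.c (T.b (T.l 1) (T.l 884)) (T.b (T.l 1) (T.l 884)))))) (T.c (T.b (T.l 1) (T.a (T.c (T.b (T.l 1) (T.l 884)) (T.b (T.l 1) (T.l 884))) (T.c (T.b (T.l 1) (T.l 884)) (T.b (T.l 1) (T.l 884))))) (T.b (T.l 1) (T.a (T.c (T.b (T.l 1) (T.l 884)) (T.b (T.l 1) (T.l 884))) (T.c (T.b (T.l 1) (T.l 884)) (T.b (T.l 1) (T.l 884)))))))) (T.b (T.l 1) (T.a (T.c (T.b (T.l 1) (T.a (T.c (T.a (T.l 884) (T.l 884)) (T.a (T.l 884) (T.l 884))) (T.c (T.b (T.l 1) (T.l 884)) (T.b (T.l 1) (T.l 884))))) (T.b (T.l 1) (T.a (T.a (T.l 884) (T.l 884)) (T.a (T.l 884) (T.l 884))))) (T.c (T.b (T.l 1) (T.a (T.c (T.b (T.l 1) (T.l 884)) (T.b (T.l 1) (T.l 884))) (T.c (T.b (T.l 1) (T.l 884)) (T.b (T.l 1) (T.l 884))))) (T.b (T.l 1) (T.a (T.c (T.b (T.l 1) (T.l 884)) (T.b (T.l 1) (T.l 884))) (T.c (T.b (T.l 1) (T.l 884)) (T.b (T.l 1) (T.l 884)))))))))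 (T.c (T.b (T.l 1) (T.a (T.c (T.b (T.l 1) (T.a (T.c (T.b (T.l 1) (T.l 884)) (T.b (T.l 1) (T.l 884))) (T.c (T.b (T.l 1) (T.l 884)) (T.b (T.l 1) (T.l 884))))) (T.b (T.l 1) (T.a (T.c (T.b (T.l 1) (T.l 884)) (T.b (T.l 1) (T.l 884))) (T.c (T.b (T.l 1) (T.l 884)) (T.b (T.l 1) (T.l 884)))))) (T.c (T.b (T.l 1) (T.a (T.c (T.b (T.l 1) (T.l 884)) (T.b (T.l 1) (T.l 884))) (T.c (T.b (T.l 1) (T.l 884)) (T.b (T.l 1) (T.l 884))))) (T.b (T.l 1) (T.a (T.c (T.b (T.l 1) (T.l 884)) (T.b (T.l 1) (T.l 884))) (T.c (T.b (T.l 1) (T.l 884)) (T.b (T.l 1) (T.l 884)))))))) (T.b (T.l 1) (T.a (T.c (T.b (T.l 1) (T.a (T.c (T.b (T.l 1) (T.l 884)) (T.b (T.l 1) (T.l 884))) (T.c (T.b (T.l 1) (T.l 884)) (T.b (T.l 1) (T.l 884))))) (T.b (T.l 1) (T.a (T.c (T.b (T.l 1) (T.l 884)) (T.b (T.l 1) (T.l 884))) (T.c (T.b (T.l 1) (T.l 884)) (T.b (T.l 1) (T.l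 884)))))) (T.c (T.b (T.l 1) (T.a (T.c (T.b (T.l 1) (T.l 884)) (T.b (T.l 1) (T.l 884))) (T.c (T.b (T.l 1) (T.l 884)) (T.b (T.l 1) (T.l 884))))) (T.b (T.l 1) (T.a (T.c (T.b (T.l 1) (T.l 884)) (T.b (T.l 1) (T.l 884))) (T.c (T.b (T.l 1) (T.l 884)) (T.b (T.l 1) (T.l 884)))))))))))), by decide +kernel⟩

def B101L_200_13_2047_7 :
    ∃ t, chk3 (onCell 0 33554432 0 1073741824 33554432 16777216 (corTK [[⟨0, 1, 2, 25165824⟩, ⟨1, 0, 1, 25165824⟩, ⟨2, 1, 0, 7864320⟩, ⟨0, 0, 0, 1056964608⟩, ⟨0, 1, 0, 67108864⟩, ⟨1, 0, 0, 67108864⟩, ⟨1, 1, 0, 1056964608⟩]] false 3 c0N cB101L gN2q1 gN0q1 gN0q0 gN1q0 true true)) t 13 2047 7 = true :=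
  ⟨(T.c (T.b (T.l 1) (T.a (T.c (T.b (T.l 1) (T.a (T.c (T.b (T.l 1) (T.a (T.c (T.b (T.l 1) (T.a (T.l 884) (T.l 884))) (T.b (T.l 1) (T.l 884))) (T.a (T.c (T.l 1024) (T.b (T.l 1) (T.l 884))) (T.l 1024)))) (T.b (T.l 1) (T.a (T.c (T.b (T.l 1) (T.l 884)) (T.b (T.l 1) (T.l 884))) (T.c (T.b (T.l 1) (T.l 884)) (T.b (T.l 1) (T.l 884)))))) (T.a (T.a (T.c (T.l 1024) (T.a (T.c (T.l 1024) (T.a (T.b (T.l 1) (T.b (T.l 1) (T.l 884))) (T.l 1024))) (T.l 1024))) (T.l 1024)) (T.l 1024)))) (T.b (T.l 1) (T.a (T.c (T.b (T.l 1) (T.a (T.c (T.b (T.l 1) (T.l 884)) (T.b (T.l 1) (T.l 884))) (T.c (T.b (T.l 1) (T.l 884)) (T.b (T.l 1) (T.l 884))))) (T.b (T.l 1) (T.a (T.c (T.b (T.l 1) (T.l 884)) (T.b (T.l 1) (T.l 884))) (T.c (T.b (T.l 1) (T.l 884)) (T.b (T.l 1) (T.l 884)))))) (T.c (T.b (T.l 1) (T.a (T.c (T.b (T.l 1) (T.l 884)) (T.b (T.l 1)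 (T.l 884))) (T.a (T.c (T.l 1024) (T.b (T.l 1) (T.l 884))) (T.l 1024)))) (T.b (T.l 1) (T.a (T.c (T.b (T.l 1) (T.l 884)) (T.b (T.l 1) (T.l 884))) (T.c (T.b (T.l 1) (T.l 884)) (T.b (T.l 1) (T.l 884))))))))) (T.a (T.a (T.c (T.l 1024) (T.a (T.c (T.l 1024) (T.a (T.b (T.l 1) (T.c (T.l 1024) (T.a (T.b (T.l 1) (T.b (T.l 1) (T.l 884))) (T.l 1024)))) (T.l 1024))) (T.l 1024))) (T.l 1024)) (T.l 1024)))) (T.b (T.l 1) (T.a (T.c (T.b (T.l 1) (T.a (T.c (T.b (T.l 1) (T.a (T.c (T.b (T.l 1) (T.l 884)) (T.b (T.l 1) (T.l 884))) (T.c (T.b (T.l 1) (T.l 884)) (T.b (T.l 1) (T.l 884))))) (T.b (T.l 1) (T.a (T.c (T.b (T.l 1) (T.l 884)) (T.b (T.l 1) (T.l 884))) (T.c (T.b (T.l 1) (T.l 884)) (T.b (T.l 1) (T.l 884)))))) (T.c (T.b (T.l 1) (T.a (T.c (T.b (T.l 1) (T.l 884)) (T.b (T.l 1) (T.l 884))) (T.c (T.b (T.l 1) (T.l 884)) (T.b (T.l 1)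 (T.l 884))))) (T.b (T.l 1) (T.a (T.c (T.b (T.l 1) (T.l 884)) (T.b (T.l 1) (T.l 884))) (T.c (T.b (T.l 1) (T.l 884)) (T.b (T.l 1) (T.l 884)))))))) (T.b (T.l 1) (T.a (T.c (T.b (T.l 1) (T.a (T.c (T.b (T.l 1) (T.l 884)) (T.b (T.l 1) (T.l 884))) (T.c (T.b (T.l 1) (T.l 884)) (T.b (T.l 1) (T.l 884))))) (T.b (T.l 1) (T.a (T.c (T.b (T.l 1) (T.l 884)) (T.b (T.l 1) (T.l 884))) (T.c (T.b (T.l 1) (T.l 884)) (T.b (T.l 1) (T.l 884)))))) (T.c (T.b (T.l 1) (T.a (T.c (T.b (T.l 1) (T.l 884)) (T.b (T.l 1) (T.l 884))) (T.c (T.b (T.l 1) (T.l 884)) (T.b (T.l 1) (T.l 884))))) (T.b (T.l 1) (T.a (T.c (T.b (T.l 1) (T.l 884)) (T.b (T.l 1) (T.l 884))) (T.c (T.b (T.l 1) (T.l 884)) (T.b (T.l 1) (T.l 884))))))))) (T.c (T.b (T.l 1) (T.a (T.c (T.b (T.l 1) (T.a (T.c (T.b (T.l 1) (T.l 884)) (T.b (T.l 1) (T.l 884))) (T.a (T.c (T.l 1024) (T.b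 (T.l 1) (T.l 884))) (T.l 1024)))) (T.b (T.l 1) (T.a (T.c (T.b (T.l 1) (T.l 884)) (T.b (T.l 1) (T.l 884))) (T.c (T.b (T.l 1) (T.l 884)) (T.b (T.l 1) (T.l 884)))))) (T.a (T.a (T.c (T.l 1024) (T.a (T.c (T.l 1024) (T.a (T.b (T.l 1) (T.b (T.l 1) (T.l 884))) (T.l 1024))) (T.l 1024))) (T.l 1024)) (T.l 1024)))) (T.b (T.l 1) (T.a (T.c (T.b (T.l 1) (T.a (T.c (T.b (T.l 1) (T.l 884)) (T.b (T.l 1) (T.l 884))) (T.c (T.b (T.l 1) (T.l 884)) (T.b (T.l 1) (T.l 884))))) (T.b (T.l 1) (T.a (T.c (T.b (T.l 1) (T.l 884)) (T.b (T.l 1) (T.l 884))) (T.c (T.b (T.l 1) (T.l 884)) (T.b (T.l 1) (T.l 884)))))) (T.c (T.b (T.l 1) (T.a (T.c (T.b (T.l 1) (T.l 884)) (T.b (T.l 1) (T.l 884))) (T.a (T.c (T.l 1024) (T.b (T.l 1) (T.l 884))) (T.l 1024)))) (T.b (T.l 1) (T.a (T.c (T.b (T.l 1) (T.l 884)) (T.b (T.l 1) (T.l 884))) (T.c (T.b (T.l 1) (T.l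 884)) (T.b (T.l 1) (T.l 884)))))))))))), by decide +kernel⟩

def B101L_200_7_1023_3 :
    ∃ t, chk3 (onCell 0 33554432 0 1073741824 33554432 16777216 (corTK [[⟨0, 1, 2, 25165824⟩, ⟨1, 0, 1, 25165824⟩, ⟨2, 1, 0, 7864320⟩, ⟨0, 0, 0, 1056964608⟩, ⟨0, 1, 0, 67108864⟩, ⟨1, 0, 0, 67108864⟩, ⟨1, 1, 0, 1056964608⟩]] false 3 c0N cB101L gN2q1 gN0q1 gN0q0 gN1q0 true true)) t 7 1023 3 = true :=
  ⟨(T.a (T.a (T.c (T.l 1024) (T.a (T.c (T.l 1024) (T.b (T.l 1) (T.a (T.c (T.l 1024) (T.a (T.b (T.l 1) (T.c (T.l 1024) (T.a (T.b (T.l 1) (T.c (T.l 1024) (T.a (T.b (T.l 1) (T.b (T.l 1) (T.l 884))) (T.l 1024)))) (T.l 1024)))) (T.l 1024))) (T.l 1024)))) (T.l 1024))) (T.l 1024)) (T.l 1024)), by decide +kernel⟩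

theorem B101L_200_6_2047_7 :
    ∃ t, chk3 (onCell 0 33554432 0 1073741824 33554432 16777216 (corTK [[⟨0, 1, 2, 25165824⟩, ⟨1, 0, 1, 25165824⟩, ⟨2, 1, 0, 7864320⟩, ⟨0, 0, 0, 1056964608⟩, ⟨0, 1, 0, 67108864⟩, ⟨1, 0, 0, 67108864⟩, ⟨1, 1, 0, 1056964608⟩]] false 3 c0N cB101L gN2q1 gN0q1 gN0q0 gN1q0 true true)) t 6 2047 7 = true :=
  ex3_a B101L_200_12_2047_7 B101L_200_13_2047_7
theorem B101L_200_6_1023_7 :
    ∃ t, chk3 (onCell 0 33554432 0 1073741824 33554432 16777216 (corTK [[⟨0, 1, 2, 25165824⟩, ⟨1, 0, 1, 25165824⟩, ⟨2, 1, 0, 7864320⟩, ⟨0, 0, 0, 1056964608⟩, ⟨0, 1, 0, 67108864⟩, ⟨1, 0, 0, 67108864⟩, ⟨1, 1, 0, 1056964608⟩]] false 3 c0N cB101L gN2q1 gN0q1 gN0q0 gN1q0 true true)) t 6 1023 7 = true :=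
  ex3_b B101L_200_6_2046_7 B101L_200_6_2047_7
theorem B101L_200_6_1023_3 :
    ∃ t, chk3 (onCell 0 33554432 0 1073741824 33554432 16777216 (corTK [[⟨0, 1, 2, 25165824⟩, ⟨1, 0, 1, 25165824⟩, ⟨2, 1, 0, 7864320⟩, ⟨0, 0, 0, 1056964608⟩, ⟨0, 1, 0, 67108864⟩, ⟨1, 0, 0, 67108864⟩, ⟨1, 1, 0, 1056964608⟩]] false 3 c0N cB101L gN2q1 gN0q1 gN0q0 gN1q0 true true)) t 6 1023 3 = true :=
  ex3_c B101L_200_6_1023_6 B101L_200_6_1023_7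
theorem B101L_200_3_1023_3 :
    ∃ t, chk3 (onCell 0 33554432 0 1073741824 33554432 16777216 (corTK [[⟨0, 1, 2, 25165824⟩, ⟨1, 0, 1, 25165824⟩, ⟨2, 1, 0, 7864320⟩, ⟨0, 0, 0, 1056964608⟩, ⟨0, 1, 0, 67108864⟩, ⟨1, 0, 0, 67108864⟩, ⟨1, 1, 0, 1056964608⟩]] false 3 c0N cB101L gN2q1 gN0q1 gN0q0 gN1q0 true true)) t 3 1023 3 = true :=
  ex3_a B101L_200_6_1023_3 B101L_200_7_1023_3
theorem B101L_200_3_511_3 :
    ∃ t, chk3 (onCell 0 33554432 0 1073741824 33554432 16777216 (corTK [[⟨0, 1, 2, 25165824⟩, ⟨1, 0, 1, 25165824⟩, ⟨2, 1, 0, 7864320⟩, ⟨0, 0, 0, 1056964608⟩, ⟨0, 1, 0, 67108864⟩, ⟨1, 0, 0, 67108864⟩, ⟨1, 1, 0, 1056964608⟩]] false 3 c0N cB101L gN2q1 gN0q1 gN0q0 gN1q0 true true)) t 3 511 3 = true :=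
  ex3_b B101L_200_3_1022_3 B101L_200_3_1023_3
theorem B101L_200_3_511_1 :
    ∃ t, chk3 (onCell 0 33554432 0 1073741824 33554432 16777216 (corTK [[⟨0, 1, 2, 25165824⟩, ⟨1, 0, 1, 25165824⟩, ⟨2, 1, 0, 7864320⟩, ⟨0, 0, 0, 1056964608⟩, ⟨0, 1, 0, 67108864⟩, ⟨1, 0, 0, 67108864⟩, ⟨1, 1, 0, 1056964608⟩]] false 3 c0N cB101L gN2q1 gN0q1 gN0q0 gN1q0 true true)) t 3 511 1 = true :=
  ex3_c B101L_200_3_511_2 B101L_200_3_511_3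
theorem B101L_200_5_1023_2 :
    ∃ t, chk3 (onCell 0 33554432 0 1073741824 33554432 16777216 (corTK [[⟨0, 1, 2, 25165824⟩, ⟨1, 0, 1, 25165824⟩, ⟨2, 1, 0, 7864320⟩, ⟨0, 0, 0, 1056964608⟩, ⟨0, 1, 0, 67108864⟩, ⟨1, 0, 0, 67108864⟩, ⟨1, 1, 0, 1056964608⟩]] false 3 c0N cB101L gN2q1 gN0q1 gN0q0 gN1q0 true true)) t 5 1023 2 = true :=
  ex3_c B101L_200_5_1023_4 B101L_200_5_1023_5
theorem B101L_200_2_1023_2 :
    ∃ t, chk3 (onCell 0 33554432 0 1073741824 33554432 16777216 (corTK [[⟨0, 1, 2, 25165824⟩, ⟨1, 0, 1, 25165824⟩, ⟨2, 1, 0, 7864320⟩, ⟨0, 0, 0, 1056964608⟩, ⟨0, 1, 0, 67108864⟩, ⟨1, 0, 0, 67108864⟩, ⟨1, 1, 0, 1056964608⟩]] false 3 c0N cB101L gN2q1 gN0q1 gN0q0 gN1q0 true true)) t 2 1023 2 = true :=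
  ex3_a B101L_200_4_1023_2 B101L_200_5_1023_2
theorem B101L_200_2_511_2 :
    ∃ t, chk3 (onCell 0 33554432 0 1073741824 33554432 16777216 (corTK [[⟨0, 1, 2, 25165824⟩, ⟨1, 0, 1, 25165824⟩, ⟨2, 1, 0, 7864320⟩, ⟨0, 0, 0, 1056964608⟩, ⟨0, 1, 0, 67108864⟩, ⟨1, 0, 0, 67108864⟩, ⟨1, 1, 0, 1056964608⟩]] false 3 c0N cB101L gN2q1 gN0q1 gN0q0 gN1q0 true true)) t 2 511 2 = true :=
  ex3_b B101L_200_2_1022_2 B101L_200_2_1023_2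
theorem B101L_200_2_511_1 :
    ∃ t, chk3 (onCell 0 33554432 0 1073741824 33554432 16777216 (corTK [[⟨0, 1, 2, 25165824⟩, ⟨1, 0, 1, 25165824⟩, ⟨2, 1, 0, 7864320⟩, ⟨0, 0, 0, 1056964608⟩, ⟨0, 1, 0, 67108864⟩, ⟨1, 0, 0, 67108864⟩, ⟨1, 1, 0, 1056964608⟩]] false 3 c0N cB101L gN2q1 gN0q1 gN0q0 gN1q0 true true)) t 2 511 1 = true :=
  ex3_c B101L_200_2_511_2 B101L_200_2_511_3
theorem B101L_200_1_511_1 :
    ∃ t, chk3 (onCell 0 33554432 0 1073741824 33554432 16777216 (corTK [[⟨0, 1, 2, 25165824⟩, ⟨1, 0, 1, 25165824⟩, ⟨2, 1, 0, 7864320⟩, ⟨0, 0, 0, 1056964608⟩, ⟨0, 1, 0, 67108864⟩, ⟨1, 0, 0, 67108864⟩, ⟨1, 1, 0, 1056964608⟩]] false 3 c0N cB101L gN2q1 gN0q1 gN0q0 gN1q0 true true)) t 1 511 1 = true :=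
  ex3_a B101L_200_2_511_1 B101L_200_3_511_1
theorem B101L_200_1_255_1 :
    ∃ t, chk3 (onCell 0 33554432 0 1073741824 33554432 16777216 (corTK [[⟨0, 1, 2, 25165824⟩, ⟨1, 0, 1, 25165824⟩, ⟨2, 1, 0, 7864320⟩, ⟨0, 0, 0, 1056964608⟩, ⟨0, 1, 0, 67108864⟩, ⟨1, 0, 0, 67108864⟩, ⟨1, 1, 0, 1056964608⟩]] false 3 c0N cB101L gN2q1 gN0q1 gN0q0 gN1q0 true true)) t 1 255 1 = true :=
  ex3_b B101L_200_1_510_1 B101L_200_1_511_1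
theorem B101L_200_1_127_1 :
    ∃ t, chk3 (onCell 0 33554432 0 1073741824 33554432 16777216 (corTK [[⟨0, 1, 2, 25165824⟩, ⟨1, 0, 1, 25165824⟩, ⟨2, 1, 0, 7864320⟩, ⟨0, 0, 0, 1056964608⟩, ⟨0, 1, 0, 67108864⟩, ⟨1, 0, 0, 67108864⟩, ⟨1, 1, 0, 1056964608⟩]] false 3 c0N cB101L gN2q1 gN0q1 gN0q0 gN1q0 true true)) t 1 127 1 = true :=
  ex3_b B101L_200_1_254_1 B101L_200_1_255_1
theorem B101L_200_1_63_1 :
    ∃ t, chk3 (onCell 0 33554432 0 1073741824 33554432 16777216 (corTK [[⟨0, 1, 2, 25165824⟩, ⟨1, 0, 1, 25165824⟩, ⟨2, 1, 0, 7864320⟩, ⟨0, 0, 0, 1056964608⟩, ⟨0, 1, 0, 67108864⟩, ⟨1, 0, 0, 67108864⟩, ⟨1, 1, 0, 1056964608⟩]] false 3 c0N cB101L gN2q1 gN0q1 gN0q0 gN1q0 true true)) t 1 63 1 = true :=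
  ex3_b B101L_200_1_126_1 B101L_200_1_127_1
theorem B101L_200_1_31_1 :
    ∃ t, chk3 (onCell 0 33554432 0 1073741824 33554432 16777216 (corTK [[⟨0, 1, 2, 25165824⟩, ⟨1, 0, 1, 25165824⟩, ⟨2, 1, 0, 7864320⟩, ⟨0, 0, 0, 1056964608⟩, ⟨0, 1, 0, 67108864⟩, ⟨1, 0, 0, 67108864⟩, ⟨1, 1, 0, 1056964608⟩]] false 3 c0N cB101L gN2q1 gN0q1 gN0q0 gN1q0 true true)) t 1 31 1 = true :=
  ex3_b B101L_200_1_62_1 B101L_200_1_63_1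
theorem B101L_200_1_15_1 :
    ∃ t, chk3 (onCell 0 33554432 0 1073741824 33554432 16777216 (corTK [[⟨0, 1, 2, 25165824⟩, ⟨1, 0, 1, 25165824⟩, ⟨2, 1, 0, 7864320⟩, ⟨0, 0, 0, 1056964608⟩, ⟨0, 1, 0, 67108864⟩, ⟨1, 0, 0, 67108864⟩, ⟨1, 1, 0, 1056964608⟩]] false 3 c0N cB101L gN2q1 gN0q1 gN0q0 gN1q0 true true)) t 1 15 1 = true :=
  ex3_b B101L_200_1_30_1 B101L_200_1_31_1
theorem B101L_200_1_7_1 :
    ∃ t, chk3 (onCell 0 33554432 0 1073741824 33554432 16777216 (corTK [[⟨0, 1, 2, 25165824⟩, ⟨1, 0, 1, 25165824⟩, ⟨2, 1, 0, 7864320⟩, ⟨0, 0, 0, 1056964608⟩, ⟨0, 1, 0, 67108864⟩, ⟨1, 0, 0, 67108864⟩, ⟨1, 1, 0, 1056964608⟩]] false 3 c0N cB101L gN2q1 gN0q1 gN0q0 gN1q0 true true)) t 1 7 1 = true :=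
  ex3_b B101L_200_1_14_1 B101L_200_1_15_1
theorem B101L_200_1_3_1 :
    ∃ t, chk3 (onCell 0 33554432 0 1073741824 33554432 16777216 (corTK [[⟨0, 1, 2, 25165824⟩, ⟨1, 0, 1, 25165824⟩, ⟨2, 1, 0, 7864320⟩, ⟨0, 0, 0, 1056964608⟩, ⟨0, 1, 0, 67108864⟩, ⟨1, 0, 0, 67108864⟩, ⟨1, 1, 0, 1056964608⟩]] false 3 c0N cB101L gN2q1 gN0q1 gN0q0 gN1q0 true true)) t 1 3 1 = true :=
  ex3_b B101L_200_1_6_1 B101L_200_1_7_1
theorem B101L_200 :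
    ∃ t, chk3 (onCell 0 33554432 0 1073741824 33554432 16777216 (corTK [[⟨0, 1, 2, 25165824⟩, ⟨1, 0, 1, 25165824⟩, ⟨2, 1, 0, 7864320⟩, ⟨0, 0, 0, 1056964608⟩, ⟨0, 1, 0, 67108864⟩, ⟨1, 0, 0, 67108864⟩, ⟨1, 1, 0, 1056964608⟩]] false 3 c0N cB101L gN2q1 gN0q1 gN0q0 gN1q0 true true)) t 1 1 1 = true :=
  ex3_b B101L_200_1_2_1 B101L_200_1_3_1

def B101L_201 :
    ∃ t, chk3 (onCell 0 33554432 0 1073741824 33554432 16777216 (corTK [[⟨0, 1, 2, 25165824⟩, ⟨1, 0, 1, 25165824⟩, ⟨2, 1, 0, 7864320⟩, ⟨0, 0, 0, 1056964608⟩, ⟨0, 1, 0, 67108864⟩, ⟨1, 0, 0, 67108864⟩, ⟨1, 1, 0, 1056964608⟩]] false 3 c0N cB101L gN2q1 gN0q1 gN1q0 gN2q0 true true)) t 1 1 1 = true :=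
  ⟨(T.l 1), by decide +kernel⟩

def B101L_202 :
    ∃ t, chk3 (onCell 0 33554432 0 1073741824 33554432 16777216 (corTK [[⟨0, 1, 2, 25165824⟩, ⟨1, 0, 1, 25165824⟩, ⟨2, 1, 0, 7864320⟩, ⟨0, 0, 0, 1056964608⟩, ⟨0, 1, 0, 67108864⟩, ⟨1, 0, 0, 67108864⟩, ⟨1, 1, 0, 1056964608⟩]] false 3 c0N cB101L gN2q1 gN0q1 gN2q0 gN3q0 true false)) t 1 1 1 = true :=
  ⟨(T.l 1), by decide +kernel⟩

def B101L_300 :
    ∃ t, chk3 (onCell 0 33554432 0 1073741824 33554432 16777216 (corTK [] false 3 c0N cB101L gN3q1 gN0q1 gN0q0 gN1q0 true true)) t 1 1 1 = true :=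
  ⟨(T.b (T.l 1) (T.b (T.l 1) (T.b (T.b (T.l 1) (T.b (T.b (T.l 1) (T.b (T.b (T.l 1) (T.a (T.c (T.b (T.a (T.a (T.l 204) (T.a (T.l 204) (T.l 204))) (T.c (T.b (T.l 1) (T.a (T.a (T.l 204) (T.l 204)) (T.a (T.l 204) (T.l 204)))) (T.b (T.l 1) (T.a (T.a (T.l 204) (T.l 204)) (T.l 460))))) (T.a (T.a (T.l 204) (T.l 0)) (T.a (T.l 256) (T.l 460)))) (T.b (T.a (T.a (T.l 204) (T.a (T.l 204) (T.l 204))) (T.c (T.b (T.l 1) (T.a (T.l 272) (T.l 204))) (T.b (T.l 1) (T.a (T.l 0) (T.l 204))))) (T.a (T.a (T.l 204) (T.l 0)) (T.a (T.l 0) (T.l 204))))) (T.c (T.b (T.a (T.c (T.b (T.l 1) (T.a (T.a (T.l 460) (T.l 476)) (T.l 476))) (T.b (T.l 1) (T.a (T.l 476) (T.l 476)))) (T.c (T.b (T.l 1) (T.a (T.l 476) (T.a (T.l 476) (T.l 476)))) (T.b (T.l 1) (T.a (T.l 476) (T.l 476))))) (T.a (T.a (T.l 460) (T.l 476)) (T.a (T.l 476) (T.l 476)))) (T.b (T.a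 (T.c (T.b (T.l 1) (T.a (T.l 476) (T.l 476))) (T.b (T.l 1) (T.a (T.l 476) (T.l 476)))) (T.c (T.b (T.l 1) (T.a (T.l 476) (T.l 476))) (T.b (T.l 1) (T.a (T.l 476) (T.l 476))))) (T.a (T.a (T.l 204) (T.l 204)) (T.a (T.l 476) (T.l 476))))))) (T.b (T.a (T.a (T.a (T.l 204) (T.l 0)) (T.a (T.l 0) (T.l 204))) (T.a (T.a (T.l 204) (T.l 204)) (T.l 476))) (T.a (T.a (T.a (T.l 0) (T.l 0)) (T.a (T.l 0) (T.l 204))) (T.a (T.l 0) (T.l 204)))))) (T.a (T.a (T.a (T.l 0) (T.l 0)) (T.a (T.l 0) (T.l 0))) (T.a (T.l 0) (T.l 0))))) (T.a (T.a (T.a (T.l 816) (T.l 0)) (T.b (T.l 0) (T.l 0))) (T.a (T.l 0) (T.l 0)))))), by decide +kernel⟩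

def B101L_301 :
    ∃ t, chk3 (onCell 0 33554432 0 1073741824 33554432 16777216 (corTK [] false 3 c0N cB101L gN3q1 gN0q1 gN1q0 gN2q0 true true)) t 1 1 1 = true :=
  ⟨(T.l 1), by decide +kernel⟩

def B101L_302 :
    ∃ t, chk3 (onCell 0 33554432 0 1073741824 33554432 16777216 (corTK [] false 3 c0N cB101L gN3q1 gN0q1 gN2q0 gN3q0 true false)) t 1 1 1 = true :=
  ⟨(T.l 1), by decide +kernel⟩

def B101L_400_1_2_1 :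
    ∃ t, chk3 (onCell 0 33554432 0 1073741824 33554432 16777216 (corTK [] false 3 c0N cB101L gN4q1 gN0q1 gN0q0 gN1q0 true true)) t 1 2 1 = true :=
  ⟨(T.l 1), by decide +kernel⟩

def B101L_400_1_12_1 :
    ∃ t, chk3 (onCell 0 33554432 0 1073741824 33554432 16777216 (corTK [] false 3 c0N cB101L gN4q1 gN0q1 gN0q0 gN1q0 true true)) t 1 12 1 = true :=
  ⟨(T.l 1), by decide +kernel⟩

def B101L_400_1_52_1 :
    ∃ t, chk3 (onCell 0 33554432 0 1073741824 33554432 16777216 (corTK [] false 3 c0N cB101L gN4q1 gN0q1 gN0q0 gN1q0 true true)) t 1 52 1 = true :=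
  ⟨(T.l 1), by decide +kernel⟩

def B101L_400_1_212_1 :
    ∃ t, chk3 (onCell 0 33554432 0 1073741824 33554432 16777216 (corTK [] false 3 c0N cB101L gN4q1 gN0q1 gN0q0 gN1q0 true true)) t 1 212 1 = true :=
  ⟨(T.a (T.l 1) (T.b (T.l 1) (T.c (T.b (T.l 1) (T.a (T.l 1) (T.c (T.b (T.l 1) (T.a (T.c (T.b (T.l 1) (T.a (T.c (T.b (T.l 1) (T.l 816)) (T.b (T.l 1) (T.l 0))) (T.l 816))) (T.b (T.l 1) (T.a (T.c (T.b (T.l 1) (T.l 0)) (T.b (T.l 1) (T.l 0))) (T.l 0)))) (T.c (T.b (T.a (T.c (T.b (T.l 1) (T.l 816)) (T.b (T.l 1) (T.l 816))) (T.a (T.a (T.l 816) (T.l 816)) (T.l 816))) (T.l 0)) (T.a (T.b (T.c (T.b (T.l 1) (T.l 816)) (T.b (T.l 1) (T.l 0))) (T.l 0)) (T.l 816))))) (T.b (T.l 1) (T.a (T.c (T.b (T.l 1) (T.a (T.c (T.b (T.l 1) (T.l 0)) (T.b (T.l 1) (T.l 204))) (T.l 0))) (T.b (T.l 1) (T.a (T.c (T.b (T.l 1) (T.l 204)) (T.b (T.l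 1) (T.l 204))) (T.l 204)))) (T.a (T.c (T.a (T.b (T.c (T.b (T.l 1) (T.l 0)) (T.b (T.l 1) (T.l 0))) (T.l 0)) (T.l 0)) (T.b (T.c (T.b (T.l 1) (T.l 0)) (T.b (T.l 1) (T.l 204))) (T.l 0))) (T.l 0))))))) (T.b (T.l 1) (T.a (T.l 1) (T.c (T.b (T.l 1) (T.a (T.c (T.b (T.l 1) (T.a (T.c (T.b (T.l 1) (T.l 204)) (T.b (T.l 1) (T.l 204))) (T.l 204))) (T.b (T.l 1) (T.a (T.c (T.b (T.l 1) (T.l 204)) (T.b (T.l 1) (T.l 204))) (T.l 204)))) (T.a (T.c (T.b (T.c (T.b (T.l 1) (T.l 204)) (T.b (T.l 1) (T.l 204))) (T.l 204)) (T.b (T.c (T.b (T.l 1) (T.l 204)) (T.b (T.l 1) (T.l 204))) (T.l 204))) (T.l 204)))) (T.b (T.l 1) (T.a (T.c (T.b (T.l 1) (T.a (T.c (T.b (T.l 1) (T.l 204)) (T.b (T.l 1) (T.a (T.l 204) (T.l 204)))) (T.a (T.l 204) (T.l 204)))) (T.b (T.l 1) (T.a (T.c (T.b (T.l 1) (T.a (T.l 204) (T.l 204))) (T.b (T.l 1) (T.a (T.c (T.a (T.l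 204) (T.l 204)) (T.b (T.l 1) (T.l 204))) (T.l 204)))) (T.a (T.a (T.c (T.l 204) (T.b (T.a (T.l 1) (T.l 204)) (T.l 204))) (T.l 204)) (T.l 204))))) (T.c (T.b (T.a (T.c (T.b (T.l 1) (T.l 204)) (T.b (T.l 1) (T.a (T.l 204) (T.l 204)))) (T.a (T.l 204) (T.l 204))) (T.l 204)) (T.b (T.a (T.c (T.b (T.l 1) (T.a (T.a (T.l 1) (T.l 204)) (T.l 204))) (T.b (T.l 1) (T.a (T.a (T.l 1) (T.l 204)) (T.l 204)))) (T.a (T.c (T.b (T.l 1) (T.l 204)) (T.b (T.l 1) (T.l 204))) (T.l 204))) (T.l 204))))))))))), by decide +kernel⟩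

def B101L_400_2_426_1 :
    ∃ t, chk3 (onCell 0 33554432 0 1073741824 33554432 16777216 (corTK [] false 3 c0N cB101L gN4q1 gN0q1 gN0q0 gN1q0 true true)) t 2 426 1 = true :=
  ⟨(T.c (T.b (T.a (T.a (T.l 1) (T.c (T.b (T.l 1) (T.c (T.b (T.l 1) (T.a (T.l 1) (T.c (T.b (T.l 1) (T.l 816)) (T.b (T.l 1) (T.l 816))))) (T.b (T.l 1) (T.a (T.l 1) (T.c (T.b (T.l 1) (T.l 0)) (T.b (T.l 1) (T.l 204))))))) (T.b (T.l 1) (T.c (T.b (T.l 1) (T.a (T.l 1) (T.c (T.b (T.l 1) (T.l 204)) (T.b (T.l 1) (T.l 204))))) (T.b (T.l 1) (T.a (T.l 1) (T.c (T.b (T.l 1) (T.l 204)) (T.b (T.l 1) (T.l 204))))))))) (T.c (T.b (T.a (T.l 1) (T.a (T.l 1) (T.a (T.l 1) (T.c (T.b (T.l 1) (T.c (T.b (T.l 1) (T.l 816)) (T.b (T.l 1) (T.l 816)))) (T.b (T.l 1) (T.c (T.b (T.l 1) (T.l 0)) (T.b (T.l 1) (T.l 204)))))))) (T.a (T.c (T.b (T.a (T.l 1) (T.c (T.b (T.l 1)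 (T.l 0)) (T.b (T.l 1) (T.l 0)))) (T.a (T.l 816) (T.l 0))) (T.b (T.a (T.l 1) (T.c (T.b (T.l 1) (T.l 0)) (T.b (T.l 1) (T.l 0)))) (T.a (T.l 0) (T.l 0)))) (T.a (T.l 0) (T.l 0)))) (T.b (T.a (T.l 1) (T.a (T.l 1) (T.a (T.l 1) (T.c (T.b (T.l 1) (T.c (T.b (T.l 1) (T.l 204)) (T.b (T.l 1) (T.l 204)))) (T.b (T.l 1) (T.c (T.b (T.l 1) (T.l 204)) (T.b (T.l 1) (T.l 204)))))))) (T.a (T.c (T.b (T.a (T.l 1) (T.c (T.b (T.l 1) (T.l 0)) (T.b (T.l 1) (T.l 204)))) (T.a (T.l 204) (T.l 0))) (T.b (T.a (T.l 1) (T.c (T.b (T.l 1) (T.l 204)) (T.b (T.l 1) (T.l 204)))) (T.a (T.l 204) (T.l 204)))) (T.a (T.l 0) (T.l 0)))))) (T.a (T.a (T.c (T.b (T.c (T.b (T.a (T.a (T.l 1) (T.c (T.b (T.l 1) (T.l 816)) (T.b (T.l 1) (T.l 816)))) (T.c (T.b (T.a (T.l 1) (T.l 816)) (T.l 816)) (T.a (T.b (T.l 1) (T.l 816)) (T.l 816)))) (T.l 816)) (T.b (T.a (T.c (T.b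 (T.l 1) (T.l 0)) (T.b (T.l 1) (T.l 204))) (T.a (T.c (T.l 0) (T.b (T.l 1) (T.l 204))) (T.l 0))) (T.l 0))) (T.l 0)) (T.b (T.c (T.b (T.a (T.c (T.b (T.l 1) (T.l 204)) (T.b (T.l 1) (T.l 204))) (T.a (T.c (T.b (T.l 1) (T.l 204)) (T.b (T.l 1) (T.l 204))) (T.l 204))) (T.l 204)) (T.b (T.a (T.c (T.b (T.l 1) (T.a (T.l 1) (T.l 204))) (T.b (T.l 1) (T.a (T.l 1) (T.l 204)))) (T.a (T.c (T.b (T.l 1) (T.l 204)) (T.b (T.l 1) (T.l 204))) (T.l 204))) (T.l 204))) (T.l 0))) (T.l 0)) (T.a (T.a (T.l 0) (T.l 0)) (T.l 0)))) (T.b (T.a (T.a (T.l 1) (T.c (T.b (T.l 1) (T.c (T.b (T.l 1) (T.a (T.l 1) (T.c (T.b (T.l 1) (T.l 204)) (T.b (T.l 1) (T.l 204))))) (T.b (T.l 1) (T.a (T.l 1) (T.c (T.b (T.l 1) (T.l 204)) (T.b (T.l 1) (T.l 204))))))) (T.b (T.l 1) (T.c (T.b (T.l 1) (T.a (T.l 1) (T.c (T.b (T.l 1) (T.l 204)) (T.b (T.l 1) (T.l 204))))) (T.b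 (T.l 1) (T.a (T.l 1) (T.c (T.b (T.l 1) (T.l 204)) (T.b (T.l 1) (T.l 204))))))))) (T.c (T.b (T.a (T.l 1) (T.a (T.l 1) (T.a (T.l 1) (T.c (T.b (T.l 1) (T.c (T.b (T.l 1) (T.l 204)) (T.b (T.l 1) (T.l 204)))) (T.b (T.l 1) (T.c (T.b (T.l 1) (T.l 204)) (T.b (T.l 1) (T.l 204)))))))) (T.a (T.c (T.b (T.a (T.l 1) (T.c (T.b (T.l 1) (T.l 204)) (T.b (T.l 1) (T.a (T.l 204) (T.l 204))))) (T.a (T.l 204) (T.l 204))) (T.b (T.a (T.l 1) (T.c (T.b (T.l 1) (T.a (T.l 204) (T.l 204))) (T.b (T.l 1) (T.a (T.l 204) (T.l 204))))) (T.a (T.l 204) (T.l 204)))) (T.a (T.a (T.c (T.l 204) (T.a (T.l 204) (T.l 204))) (T.l 204)) (T.l 204)))) (T.b (T.a (T.l 1) (T.a (T.l 1) (T.a (T.l 1) (T.c (T.b (T.l 1) (T.c (T.b (T.l 1) (T.l 204)) (T.b (T.l 1) (T.l 204)))) (T.b (T.l 1) (T.c (T.b (T.l 1) (T.l 204)) (T.b (T.l 1) (T.a (T.l 204) (T.l 204))))))))) (T.a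 (T.c (T.b (T.a (T.l 1) (T.c (T.b (T.l 1) (T.a (T.l 204) (T.l 204))) (T.b (T.l 1) (T.a (T.a (T.l 1) (T.l 204)) (T.l 204))))) (T.a (T.l 204) (T.l 204))) (T.b (T.a (T.l 1) (T.c (T.b (T.l 1) (T.a (T.a (T.l 1) (T.l 204)) (T.l 204))) (T.b (T.l 1) (T.a (T.a (T.l 1) (T.l 204)) (T.l 204))))) (T.a (T.a (T.a (T.c (T.l 204) (T.a (T.b (T.l 1) (T.l 204)) (T.l 204))) (T.l 204)) (T.l 204)) (T.l 204)))) (T.a (T.a (T.c (T.a (T.b (T.c (T.b (T.l 1) (T.l 204)) (T.b (T.l 1) (T.l 204))) (T.l 204)) (T.l 204)) (T.b (T.c (T.b (T.c (T.a (T.l 1) (T.l 204)) (T.b (T.l 1) (T.l 204))) (T.l 204)) (T.b (T.c (T.b (T.l 1) (T.l 204)) (T.b (T.l 1) (T.l 204))) (T.l 204))) (T.l 204))) (T.l 204)) (T.l 204)))))) (T.a (T.a (T.c (T.b (T.c (T.b (T.a (T.a (T.l 1) (T.c (T.b (T.l 1) (T.l 204)) (T.b (T.l 1) (T.l 204)))) (T.c (T.b (T.a (T.l 1) (T.l 204))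 (T.l 204)) (T.b (T.a (T.l 1) (T.l 204)) (T.l 204)))) (T.l 204)) (T.b (T.a (T.a (T.l 1) (T.c (T.b (T.l 1) (T.l 204)) (T.b (T.l 1) (T.l 204)))) (T.c (T.b (T.a (T.l 1) (T.l 204)) (T.l 204)) (T.b (T.a (T.l 1) (T.l 204)) (T.l 204)))) (T.l 204))) (T.l 204)) (T.b (T.c (T.b (T.a (T.a (T.l 1) (T.c (T.b (T.l 1) (T.l 204)) (T.b (T.l 1) (T.c (T.l 204) (T.b (T.l 1) (T.l 204)))))) (T.c (T.b (T.a (T.l 1) (T.a (T.l 1) (T.l 204))) (T.l 204)) (T.b (T.a (T.l 1) (T.a (T.l 1) (T.l 204))) (T.l 204)))) (T.l 204)) (T.b (T.a (T.a (T.l 1) (T.c (T.b (T.l 1) (T.c (T.b (T.l 1) (T.l 204)) (T.b (T.l 1) (T.l 204)))) (T.b (T.l 1) (T.c (T.b (T.l 1) (T.l 204)) (T.b (T.l 1) (T.l 204)))))) (T.c (T.b (T.a (T.l 1) (T.a (T.l 1) (T.l 204))) (T.l 204)) (T.b (T.a (T.l 1) (T.c (T.b (T.l 1) (T.l 204)) (T.b (T.l 1) (T.l 204)))) (T.l 204)))) (T.l 204)))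 (T.l 204))) (T.l 204)) (T.a (T.a (T.l 204) (T.l 204)) (T.l 0))))), by decide +kernel⟩

def B101L_400_3_426_1 :
    ∃ t, chk3 (onCell 0 33554432 0 1073741824 33554432 16777216 (corTK [] false 3 c0N cB101L gN4q1 gN0q1 gN0q0 gN1q0 true true)) t 3 426 1 = true :=
  ⟨(T.a (T.a (T.c (T.b (T.c (T.b (T.c (T.b (T.a (T.l 1) (T.a (T.l 1) (T.c (T.b (T.l 1) (T.l 816)) (T.b (T.l 1) (T.l 816))))) (T.a (T.a (T.a (T.l 816) (T.l 816)) (T.l 816)) (T.l 0))) (T.b (T.a (T.l 1) (T.c (T.b (T.l 1) (T.l 0)) (T.b (T.l 1) (T.l 0)))) (T.a (T.l 0) (T.l 0)))) (T.l 0)) (T.b (T.c (T.b (T.a (T.l 1) (T.c (T.b (T.l 1) (T.l 204)) (T.b (T.l 1) (T.a (T.l 1) (T.l 204))))) (T.a (T.l 204) (T.l 204))) (T.b (T.a (T.l 1) (T.a (T.l 1) (T.c (T.b (T.l 1) (T.l 204)) (T.b (T.l 1) (T.l 204))))) (T.a (T.a (T.l 204) (T.l 204)) (T.l 204)))) (T.l 0))) (T.l 0))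 (T.b (T.c (T.b (T.c (T.b (T.a (T.l 1) (T.a (T.l 1) (T.c (T.b (T.l 1) (T.l 204)) (T.b (T.l 1) (T.l 204))))) (T.a (T.a (T.c (T.b (T.l 1) (T.l 204)) (T.b (T.l 1) (T.l 204))) (T.l 204)) (T.l 204))) (T.b (T.a (T.l 1) (T.a (T.l 1) (T.c (T.b (T.l 1) (T.l 204)) (T.b (T.l 1) (T.l 204))))) (T.a (T.a (T.c (T.b (T.l 1) (T.l 204)) (T.b (T.l 1) (T.l 204))) (T.l 204)) (T.l 204)))) (T.l 204)) (T.b (T.c (T.b (T.a (T.l 1) (T.a (T.l 1) (T.c (T.b (T.l 1) (T.l 204)) (T.b (T.l 1) (T.a (T.l 1) (T.l 204)))))) (T.a (T.c (T.a (T.b (T.l 1) (T.l 204)) (T.l 204)) (T.b (T.a (T.l 1) (T.l 204)) (T.l 204))) (T.l 204))) (T.b (T.a (T.l 1) (T.a (T.l 1) (T.a (T.l 1) (T.c (T.b (T.l 1) (T.l 204)) (T.b (T.l 1) (T.c (T.l 204) (T.b (T.l 1) (T.l 204)))))))) (T.a (T.c (T.b (T.a (T.l 1) (T.c (T.a (T.l 204) (T.l 204)) (T.b (T.l 1) (T.l 204)))) (T.l 204))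 (T.b (T.a (T.l 1) (T.c (T.b (T.l 1) (T.l 204)) (T.b (T.l 1) (T.l 204)))) (T.l 204))) (T.l 204)))) (T.l 204))) (T.l 0))) (T.c (T.a (T.a (T.b (T.c (T.b (T.c (T.a (T.b (T.c (T.b (T.l 1) (T.l 816)) (T.b (T.l 1) (T.l 816))) (T.l 816)) (T.l 816)) (T.a (T.l 0) (T.l 0))) (T.l 0)) (T.a (T.b (T.c (T.a (T.b (T.c (T.b (T.l 1) (T.l 204)) (T.b (T.l 1) (T.l 204))) (T.l 204)) (T.l 204)) (T.b (T.c (T.b (T.l 1) (T.l 204)) (T.b (T.l 1) (T.l 204))) (T.l 204))) (T.l 204)) (T.l 0))) (T.l 0)) (T.l 0)) (T.l 0)) (T.b (T.c (T.a (T.b (T.c (T.a (T.b (T.c (T.b (T.l 1) (T.l 204)) (T.b (T.l 1) (T.l 204))) (T.l 204)) (T.l 204)) (T.b (T.c (T.b (T.a (T.l 1) (T.l 204)) (T.l 204)) (T.b (T.a (T.l 1) (T.a (T.l 1) (T.l 204))) (T.l 204))) (T.l 204))) (T.l 204)) (T.l 204)) (T.b (T.a (T.c (T.b (T.c (T.b (T.a (T.l 1) (T.a (T.l 1) (T.l 204))) (T.l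 204)) (T.b (T.a (T.l 1) (T.a (T.l 1) (T.l 204))) (T.l 204))) (T.l 204)) (T.b (T.c (T.b (T.a (T.l 1) (T.c (T.a (T.l 1) (T.l 204)) (T.b (T.l 1) (T.l 204)))) (T.l 204)) (T.b (T.a (T.l 1) (T.c (T.b (T.l 1) (T.l 204)) (T.b (T.l 1) (T.l 204)))) (T.l 204))) (T.l 204))) (T.a (T.l 204) (T.l 204))) (T.l 204))) (T.l 0)))) (T.a (T.a (T.l 0) (T.l 0)) (T.l 0))), by decide +kernel⟩

def B101L_400_1_427_1 :
    ∃ t, chk3 (onCell 0 33554432 0 1073741824 33554432 16777216 (corTK [] false 3 c0N cB101L gN4q1 gN0q1 gN0q0 gN1q0 true true)) t 1 427 1 = true :=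
  ⟨(T.a (T.a (T.l 0) (T.a (T.l 0) (T.l 0))) (T.a (T.a (T.l 0) (T.l 0)) (T.l 0))), by decide +kernel⟩

def B101L_400_1_107_1 :
    ∃ t, chk3 (onCell 0 33554432 0 1073741824 33554432 16777216 (corTK [] false 3 c0N cB101L gN4q1 gN0q1 gN0q0 gN1q0 true true)) t 1 107 1 = true :=
  ⟨(T.a (T.a (T.l 0) (T.a (T.l 0) (T.l 0))) (T.a (T.l 0) (T.l 0))), by decide +kernel⟩

def B101L_400_1_27_1 :
    ∃ t, chk3 (onCell 0 33554432 0 1073741824 33554432 16777216 (corTK [] false 3 c0N cB101L gN4q1 gN0q1 gN0q0 gN1q0 true true)) t 1 27 1 = true :=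
  ⟨(T.a (T.a (T.l 0) (T.l 0)) (T.a (T.l 0) (T.l 0))), by decide +kernel⟩

def B101L_400_1_7_1 :
    ∃ t, chk3 (onCell 0 33554432 0 1073741824 33554432 16777216 (corTK [] false 3 c0N cB101L gN4q1 gN0q1 gN0q0 gN1q0 true true)) t 1 7 1 = true :=
  ⟨(T.b (T.a (T.a (T.l 816) (T.l 0)) (T.b (T.l 0) (T.l 0))) (T.a (T.a (T.a (T.l 816) (T.l 0)) (T.l 0)) (T.l 0))), by decide +kernel⟩

theorem B101L_400_1_426_1 :
    ∃ t, chk3 (onCell 0 33554432 0 1073741824 33554432 16777216 (corTK [] false 3 c0N cB101L gN4q1 gN0q1 gN0q0 gN1q0 true true)) t 1 426 1 = true :=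
  ex3_a B101L_400_2_426_1 B101L_400_3_426_1
theorem B101L_400_1_213_1 :
    ∃ t, chk3 (onCell 0 33554432 0 1073741824 33554432 16777216 (corTK [] false 3 c0N cB101L gN4q1 gN0q1 gN0q0 gN1q0 true true)) t 1 213 1 = true :=
  ex3_b B101L_400_1_426_1 B101L_400_1_427_1
theorem B101L_400_1_106_1 :
    ∃ t, chk3 (onCell 0 33554432 0 1073741824 33554432 16777216 (corTK [] false 3 c0N cB101L gN4q1 gN0q1 gN0q0 gN1q0 true true)) t 1 106 1 = true :=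
  ex3_b B101L_400_1_212_1 B101L_400_1_213_1
theorem B101L_400_1_53_1 :
    ∃ t, chk3 (onCell 0 33554432 0 1073741824 33554432 16777216 (corTK [] false 3 c0N cB101L gN4q1 gN0q1 gN0q0 gN1q0 true true)) t 1 53 1 = true :=
  ex3_b B101L_400_1_106_1 B101L_400_1_107_1
theorem B101L_400_1_26_1 :
    ∃ t, chk3 (onCell 0 33554432 0 1073741824 33554432 16777216 (corTK [] false 3 c0N cB101L gN4q1 gN0q1 gN0q0 gN1q0 true true)) t 1 26 1 = true :=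
  ex3_b B101L_400_1_52_1 B101L_400_1_53_1
theorem B101L_400_1_13_1 :
    ∃ t, chk3 (onCell 0 33554432 0 1073741824 33554432 16777216 (corTK [] false 3 c0N cB101L gN4q1 gN0q1 gN0q0 gN1q0 true true)) t 1 13 1 = true :=
  ex3_b B101L_400_1_26_1 B101L_400_1_27_1
theorem B101L_400_1_6_1 :
    ∃ t, chk3 (onCell 0 33554432 0 1073741824 33554432 16777216 (corTK [] false 3 c0N cB101L gN4q1 gN0q1 gN0q0 gN1q0 true true)) t 1 6 1 = true :=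
  ex3_b B101L_400_1_12_1 B101L_400_1_13_1
theorem B101L_400_1_3_1 :
    ∃ t, chk3 (onCell 0 33554432 0 1073741824 33554432 16777216 (corTK [] false 3 c0N cB101L gN4q1 gN0q1 gN0q0 gN1q0 true true)) t 1 3 1 = true :=
  ex3_b B101L_400_1_6_1 B101L_400_1_7_1
theorem B101L_400 :
    ∃ t, chk3 (onCell 0 33554432 0 1073741824 33554432 16777216 (corTK [] false 3 c0N cB101L gN4q1 gN0q1 gN0q0 gN1q0 true true)) t 1 1 1 = true :=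
  ex3_b B101L_400_1_2_1 B101L_400_1_3_1

def B101L_401 :
    ∃ t, chk3 (onCell 0 33554432 0 1073741824 33554432 16777216 (corTK [] false 3 c0N cB101L gN4q1 gN0q1 gN1q0 gN2q0 true true)) t 1 1 1 = true :=
  ⟨(T.l 1), by decide +kernel⟩

def B101L_402 :
    ∃ t, chk3 (onCell 0 33554432 0 1073741824 33554432 16777216 (corTK [] false 3 c0N cB101L gN4q1 gN0q1 gN2q0 gN3q0 true false)) t 1 1 1 = true :=
  ⟨(T.l 1), by decide +kernel⟩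

def B101R_020 :
    ∃ t, chk3 (onCell 0 33554432 0 1073741824 33554432 16777216 (corTK [] false 3 c0N cB101R gN0q1 gN2q1 gN0q0 gN1q0 true true)) t 1 1 1 = true :=
  ⟨(T.l 1), by decide +kernel⟩

def B101R_021 :
    ∃ t, chk3 (onCell 0 33554432 0 1073741824 33554432 16777216 (corTK [] false 3 c0N cB101R gN0q1 gN2q1 gN1q0 gN2q0 true true)) t 1 1 1 = true :=
  ⟨(T.l 1), by decide +kernel⟩

def B101R_022 :
    ∃ t, chk3 (onCell 0 33554432 0 1073741824 33554432 16777216 (corTK [] false 3 c0N cB101R gN0q1 gN2q1 gN2q0 gN3q0 true false)) t 1 1 1 = true :=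
  ⟨(T.l 1), by decide +kernel⟩

def B101R_030 :
    ∃ t, chk3 (onCell 0 33554432 0 1073741824 33554432 16777216 (corTK [] false 3 c0N cB101R gN0q1 gN3q1 gN0q0 gN1q0 true true)) t 1 1 1 = true :=
  ⟨(T.l 1), by decide +kernel⟩

def B101R_031 :
    ∃ t, chk3 (onCell 0 33554432 0 1073741824 33554432 16777216 (corTK [] false 3 c0N cB101R gN0q1 gN3q1 gN1q0 gN2q0 true true)) t 1 1 1 = true :=
  ⟨(T.l 1), by decide +kernel⟩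

def B101R_032 :
    ∃ t, chk3 (onCell 0 33554432 0 1073741824 33554432 16777216 (corTK [] false 3 c0N cB101R gN0q1 gN3q1 gN2q0 gN3q0 true false)) t 1 1 1 = true :=
  ⟨(T.l 1), by decide +kernel⟩

def B101R_040 :
    ∃ t, chk3 (onCell 0 33554432 0 1073741824 33554432 16777216 (corTK [] false 3 c0N cB101R gN0q1 gN4q1 gN0q0 gN1q0 true true)) t 1 1 1 = true :=
  ⟨(T.l 1), by decide +kernel⟩

def B101R_041 :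
    ∃ t, chk3 (onCell 0 33554432 0 1073741824 33554432 16777216 (corTK [] false 3 c0N cB101R gN0q1 gN4q1 gN1q0 gN2q0 true true)) t 1 1 1 = true :=
  ⟨(T.l 1), by decide +kernel⟩

def B101R_042 :
    ∃ t, chk3 (onCell 0 33554432 0 1073741824 33554432 16777216 (corTK [] false 3 c0N cB101R gN0q1 gN4q1 gN2q0 gN3q0 true false)) t 1 1 1 = true :=
  ⟨(T.l 1), by decide +kernel⟩

theorem B102E_000_15_773_7 :
    ∃ t, chk3 (onCell 0 33554432 0 1073741824 33554432 16777216 (corTK [] false 3 c0N cB102E gN0q1 gN0q2 gN0q0 gN1q0 true true)) t 15 773 7 = true :=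
  ex3_b B102E_000_15_1546_7 B102E_000_15_1547_7
theorem B102E_000_15_773_6 :
    ∃ t, chk3 (onCell 0 33554432 0 1073741824 33554432 16777216 (corTK [] false 3 c0N cB102E gN0q1 gN0q2 gN0q0 gN1q0 true true)) t 15 773 6 = true :=
  ex3_b B102E_000_15_1546_6 B102E_000_15_1547_6
theorem B102E_000_15_773_3 :
    ∃ t, chk3 (onCell 0 33554432 0 1073741824 33554432 16777216 (corTK [] false 3 c0N cB102E gN0q1 gN0q2 gN0q0 gN1q0 true true)) t 15 773 3 = true :=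
  ex3_c B102E_000_15_773_6 B102E_000_15_773_7
theorem B102E_000_15_386_3 :
    ∃ t, chk3 (onCell 0 33554432 0 1073741824 33554432 16777216 (corTK [] false 3 c0N cB102E gN0q1 gN0q2 gN0q0 gN1q0 true true)) t 15 386 3 = true :=
  ex3_b B102E_000_15_772_3 B102E_000_15_773_3
theorem B102E_000_15_773_5 :
    ∃ t, chk3 (onCell 0 33554432 0 1073741824 33554432 16777216 (corTK [] false 3 c0N cB102E gN0q1 gN0q2 gN0q0 gN1q0 true true)) t 15 773 5 = true :=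
  ex3_b B102E_000_15_1546_5 B102E_000_15_1547_5
theorem B102E_000_15_773_4 :
    ∃ t, chk3 (onCell 0 33554432 0 1073741824 33554432 16777216 (corTK [] false 3 c0N cB102E gN0q1 gN0q2 gN0q0 gN1q0 true true)) t 15 773 4 = true :=
  ex3_b B102E_000_15_1546_4 B102E_000_15_1547_4
theorem B102E_000_15_773_2 :
    ∃ t, chk3 (onCell 0 33554432 0 1073741824 33554432 16777216 (corTK [] false 3 c0N cB102E gN0q1 gN0q2 gN0q0 gN1q0 true true)) t 15 773 2 = true :=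
  ex3_c B102E_000_15_773_4 B102E_000_15_773_5
theorem B102E_000_15_386_2 :
    ∃ t, chk3 (onCell 0 33554432 0 1073741824 33554432 16777216 (corTK [] false 3 c0N cB102E gN0q1 gN0q2 gN0q0 gN1q0 true true)) t 15 386 2 = true :=
  ex3_b B102E_000_15_772_2 B102E_000_15_773_2
theorem B102E_000_15_386_1 :
    ∃ t, chk3 (onCell 0 33554432 0 1073741824 33554432 16777216 (corTK [] false 3 c0N cB102E gN0q1 gN0q2 gN0q0 gN1q0 true true)) t 15 386 1 = true :=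
  ex3_c B102E_000_15_386_2 B102E_000_15_386_3
theorem B102E_000_15_193_1 :
    ∃ t, chk3 (onCell 0 33554432 0 1073741824 33554432 16777216 (corTK [] false 3 c0N cB102E gN0q1 gN0q2 gN0q0 gN1q0 true true)) t 15 193 1 = true :=
  ex3_b B102E_000_15_386_1 B102E_000_15_387_1
theorem B102E_000_14_772_3 :
    ∃ t, chk3 (onCell 0 33554432 0 1073741824 33554432 16777216 (corTK [] false 3 c0N cB102E gN0q1 gN0q2 gN0q0 gN1q0 true true)) t 14 772 3 = true :=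
  ex3_c B102E_000_14_772_6 B102E_000_14_772_7
theorem B102E_000_14_386_3 :
    ∃ t, chk3 (onCell 0 33554432 0 1073741824 33554432 16777216 (corTK [] false 3 c0N cB102E gN0q1 gN0q2 gN0q0 gN1q0 true true)) t 14 386 3 = true :=
  ex3_b B102E_000_14_772_3 B102E_000_14_773_3
theorem B102E_000_14_772_2 :
    ∃ t, chk3 (onCell 0 33554432 0 1073741824 33554432 16777216 (corTK [] false 3 c0N cB102E gN0q1 gN0q2 gN0q0 gN1q0 true true)) t 14 772 2 = true :=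
  ex3_c B102E_000_14_772_4 B102E_000_14_772_5
theorem B102E_000_14_386_2 :
    ∃ t, chk3 (onCell 0 33554432 0 1073741824 33554432 16777216 (corTK [] false 3 c0N cB102E gN0q1 gN0q2 gN0q0 gN1q0 true true)) t 14 386 2 = true :=
  ex3_b B102E_000_14_772_2 B102E_000_14_773_2
theorem B102E_000_14_386_1 :
    ∃ t, chk3 (onCell 0 33554432 0 1073741824 33554432 16777216 (corTK [] false 3 c0N cB102E gN0q1 gN0q2 gN0q0 gN1q0 true true)) t 14 386 1 = true :=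
  ex3_c B102E_000_14_386_2 B102E_000_14_386_3
theorem B102E_000_14_193_1 :
    ∃ t, chk3 (onCell 0 33554432 0 1073741824 33554432 16777216 (corTK [] false 3 c0N cB102E gN0q1 gN0q2 gN0q0 gN1q0 true true)) t 14 193 1 = true :=
  ex3_b B102E_000_14_386_1 B102E_000_14_387_1
theorem B102E_000_7_193_1 :
    ∃ t, chk3 (onCell 0 33554432 0 1073741824 33554432 16777216 (corTK [] false 3 c0N cB102E gN0q1 gN0q2 gN0q0 gN1q0 true true)) t 7 193 1 = true :=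
  ex3_a B102E_000_14_193_1 B102E_000_15_193_1
theorem B102E_000_7_96_1 :
    ∃ t, chk3 (onCell 0 33554432 0 1073741824 33554432 16777216 (corTK [] false 3 c0N cB102E gN0q1 gN0q2 gN0q0 gN1q0 true true)) t 7 96 1 = true :=
  ex3_b B102E_000_7_192_1 B102E_000_7_193_1
theorem B102E_000_7_48_1 :
    ∃ t, chk3 (onCell 0 33554432 0 1073741824 33554432 16777216 (corTK [] false 3 c0N cB102E gN0q1 gN0q2 gN0q0 gN1q0 true true)) t 7 48 1 = true :=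
  ex3_b B102E_000_7_96_1 B102E_000_7_97_1
theorem B102E_000_7_24_1 :
    ∃ t, chk3 (onCell 0 33554432 0 1073741824 33554432 16777216 (corTK [] false 3 c0N cB102E gN0q1 gN0q2 gN0q0 gN1q0 true true)) t 7 24 1 = true :=
  ex3_b B102E_000_7_48_1 B102E_000_7_49_1
theorem B102E_000_27_386_1 :
    ∃ t, chk3 (onCell 0 33554432 0 1073741824 33554432 16777216 (corTK [] false 3 c0N cB102E gN0q1 gN0q2 gN0q0 gN1q0 true true)) t 27 386 1 = true :=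
  ex3_c B102E_000_27_386_2 B102E_000_27_386_3
theorem B102E_000_13_386_1 :
    ∃ t, chk3 (onCell 0 33554432 0 1073741824 33554432 16777216 (corTK [] false 3 c0N cB102E gN0q1 gN0q2 gN0q0 gN1q0 true true)) t 13 386 1 = true :=
  ex3_a B102E_000_26_386_1 B102E_000_27_386_1
theorem B102E_000_13_193_1 :
    ∃ t, chk3 (onCell 0 33554432 0 1073741824 33554432 16777216 (corTK [] false 3 c0N cB102E gN0q1 gN0q2 gN0q0 gN1q0 true true)) t 13 193 1 = true :=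
  ex3_b B102E_000_13_386_1 B102E_000_13_387_1
theorem B102E_000_6_193_1 :
    ∃ t, chk3 (onCell 0 33554432 0 1073741824 33554432 16777216 (corTK [] false 3 c0N cB102E gN0q1 gN0q2 gN0q0 gN1q0 true true)) t 6 193 1 = true :=
  ex3_a B102E_000_12_193_1 B102E_000_13_193_1
theorem B102E_000_12_771_2 :
    ∃ t, chk3 (onCell 0 33554432 0 1073741824 33554432 16777216 (corTK [] false 3 c0N cB102E gN0q1 gN0q2 gN0q0 gN1q0 true true)) t 12 771 2 = true :=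
  ex3_a B102E_000_24_771_2 B102E_000_25_771_2
theorem B102E_000_6_771_2 :
    ∃ t, chk3 (onCell 0 33554432 0 1073741824 33554432 16777216 (corTK [] false 3 c0N cB102E gN0q1 gN0q2 gN0q0 gN1q0 true true)) t 6 771 2 = true :=
  ex3_a B102E_000_12_771_2 B102E_000_13_771_2
theorem B102E_000_6_385_2 :
    ∃ t, chk3 (onCell 0 33554432 0 1073741824 33554432 16777216 (corTK [] false 3 c0N cB102E gN0q1 gN0q2 gN0q0 gN1q0 true true)) t 6 385 2 = true :=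
  ex3_b B102E_000_6_770_2 B102E_000_6_771_2
theorem B102E_000_6_385_1 :
    ∃ t, chk3 (onCell 0 33554432 0 1073741824 33554432 16777216 (corTK [] false 3 c0N cB102E gN0q1 gN0q2 gN0q0 gN1q0 true true)) t 6 385 1 = true :=
  ex3_c B102E_000_6_385_2 B102E_000_6_385_3
theorem B102E_000_6_192_1 :
    ∃ t, chk3 (onCell 0 33554432 0 1073741824 33554432 16777216 (corTK [] false 3 c0N cB102E gN0q1 gN0q2 gN0q0 gN1q0 true true)) t 6 192 1 = true :=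
  ex3_b B102E_000_6_384_1 B102E_000_6_385_1
theorem B102E_000_6_96_1 :
    ∃ t, chk3 (onCell 0 33554432 0 1073741824 33554432 16777216 (corTK [] false 3 c0N cB102E gN0q1 gN0q2 gN0q0 gN1q0 true true)) t 6 96 1 = true :=
  ex3_b B102E_000_6_192_1 B102E_000_6_193_1
theorem B102E_000_6_48_1 :
    ∃ t, chk3 (onCell 0 33554432 0 1073741824 33554432 16777216 (corTK [] false 3 c0N cB102E gN0q1 gN0q2 gN0q0 gN1q0 true true)) t 6 48 1 = true :=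
  ex3_b B102E_000_6_96_1 B102E_000_6_97_1
theorem B102E_000_6_24_1 :
    ∃ t, chk3 (onCell 0 33554432 0 1073741824 33554432 16777216 (corTK [] false 3 c0N cB102E gN0q1 gN0q2 gN0q0 gN1q0 true true)) t 6 24 1 = true :=
  ex3_b B102E_000_6_48_1 B102E_000_6_49_1
theorem B102E_000_3_24_1 :
    ∃ t, chk3 (onCell 0 33554432 0 1073741824 33554432 16777216 (corTK [] false 3 c0N cB102E gN0q1 gN0q2 gN0q0 gN1q0 true true)) t 3 24 1 = true :=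
  ex3_a B102E_000_6_24_1 B102E_000_7_24_1
theorem B102E_000_3_12_1 :
    ∃ t, chk3 (onCell 0 33554432 0 1073741824 33554432 16777216 (corTK [] false 3 c0N cB102E gN0q1 gN0q2 gN0q0 gN1q0 true true)) t 3 12 1 = true :=
  ex3_b B102E_000_3_24_1 B102E_000_3_25_1
theorem B102E_000_11_385_1 :
    ∃ t, chk3 (onCell 0 33554432 0 1073741824 33554432 16777216 (corTK [] false 3 c0N cB102E gN0q1 gN0q2 gN0q0 gN1q0 true true)) t 11 385 1 = true :=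
  ex3_a B102E_000_22_385_1 B102E_000_23_385_1
theorem B102E_000_11_192_1 :
    ∃ t, chk3 (onCell 0 33554432 0 1073741824 33554432 16777216 (corTK [] false 3 c0N cB102E gN0q1 gN0q2 gN0q0 gN1q0 true true)) t 11 192 1 = true :=
  ex3_b B102E_000_11_384_1 B102E_000_11_385_1
theorem B102E_000_11_96_1 :
    ∃ t, chk3 (onCell 0 33554432 0 1073741824 33554432 16777216 (corTK [] false 3 c0N cB102E gN0q1 gN0q2 gN0q0 gN1q0 true true)) t 11 96 1 = true :=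
  ex3_b B102E_000_11_192_1 B102E_000_11_193_1
theorem B102E_000_11_48_1 :
    ∃ t, chk3 (onCell 0 33554432 0 1073741824 33554432 16777216 (corTK [] false 3 c0N cB102E gN0q1 gN0q2 gN0q0 gN1q0 true true)) t 11 48 1 = true :=
  ex3_b B102E_000_11_96_1 B102E_000_11_97_1
theorem B102E_000_10_769_2 :
    ∃ t, chk3 (onCell 0 33554432 0 1073741824 33554432 16777216 (corTK [] false 3 c0N cB102E gN0q1 gN0q2 gN0q0 gN1q0 true true)) t 10 769 2 = true :=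
  ex3_c B102E_000_10_769_4 B102E_000_10_769_5
theorem B102E_000_10_384_2 :
    ∃ t, chk3 (onCell 0 33554432 0 1073741824 33554432 16777216 (corTK [] false 3 c0N cB102E gN0q1 gN0q2 gN0q0 gN1q0 true true)) t 10 384 2 = true :=
  ex3_b B102E_000_10_768_2 B102E_000_10_769_2
theorem B102E_000_10_384_1 :
    ∃ t, chk3 (onCell 0 33554432 0 1073741824 33554432 16777216 (corTK [] false 3 c0N cB102E gN0q1 gN0q2 gN0q0 gN1q0 true true)) t 10 384 1 = true :=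
  ex3_c B102E_000_10_384_2 B102E_000_10_384_3
theorem B102E_000_10_192_1 :
    ∃ t, chk3 (onCell 0 33554432 0 1073741824 33554432 16777216 (corTK [] false 3 c0N cB102E gN0q1 gN0q2 gN0q0 gN1q0 true true)) t 10 192 1 = true :=
  ex3_b B102E_000_10_384_1 B102E_000_10_385_1
theorem B102E_000_10_96_1 :
    ∃ t, chk3 (onCell 0 33554432 0 1073741824 33554432 16777216 (corTK [] false 3 c0N cB102E gN0q1 gN0q2 gN0q0 gN1q0 true true)) t 10 96 1 = true :=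
  ex3_b B102E_000_10_192_1 B102E_000_10_193_1
theorem B102E_000_10_48_1 :
    ∃ t, chk3 (onCell 0 33554432 0 1073741824 33554432 16777216 (corTK [] false 3 c0N cB102E gN0q1 gN0q2 gN0q0 gN1q0 true true)) t 10 48 1 = true :=
  ex3_b B102E_000_10_96_1 B102E_000_10_97_1
theorem B102E_000_5_48_1 :
    ∃ t, chk3 (onCell 0 33554432 0 1073741824 33554432 16777216 (corTK [] false 3 c0N cB102E gN0q1 gN0q2 gN0q0 gN1q0 true true)) t 5 48 1 = true :=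
  ex3_a B102E_000_10_48_1 B102E_000_11_48_1
theorem B102E_000_5_24_1 :
    ∃ t, chk3 (onCell 0 33554432 0 1073741824 33554432 16777216 (corTK [] false 3 c0N cB102E gN0q1 gN0q2 gN0q0 gN1q0 true true)) t 5 24 1 = true :=
  ex3_b B102E_000_5_48_1 B102E_000_5_49_1
theorem B102E_000_5_12_1 :
    ∃ t, chk3 (onCell 0 33554432 0 1073741824 33554432 16777216 (corTK [] false 3 c0N cB102E gN0q1 gN0q2 gN0q0 gN1q0 true true)) t 5 12 1 = true :=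
  ex3_b B102E_000_5_24_1 B102E_000_5_25_1
theorem B102E_000_19_384_1 :
    ∃ t, chk3 (onCell 0 33554432 0 1073741824 33554432 16777216 (corTK [] false 3 c0N cB102E gN0q1 gN0q2 gN0q0 gN1q0 true true)) t 19 384 1 = true :=
  ex3_c B102E_000_19_384_2 B102E_000_19_384_3
theorem B102E_000_19_192_1 :
    ∃ t, chk3 (onCell 0 33554432 0 1073741824 33554432 16777216 (corTK [] false 3 c0N cB102E gN0q1 gN0q2 gN0q0 gN1q0 true true)) t 19 192 1 = true :=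
  ex3_b B102E_000_19_384_1 B102E_000_19_385_1
theorem B102E_000_18_384_2 :
    ∃ t, chk3 (onCell 0 33554432 0 1073741824 33554432 16777216 (corTK [] false 3 c0N cB102E gN0q1 gN0q2 gN0q0 gN1q0 true true)) t 18 384 2 = true :=
  ex3_b B102E_000_18_768_2 B102E_000_18_769_2
theorem B102E_000_18_384_1 :
    ∃ t, chk3 (onCell 0 33554432 0 1073741824 33554432 16777216 (corTK [] false 3 c0N cB102E gN0q1 gN0q2 gN0q0 gN1q0 true true)) t 18 384 1 = true :=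
  ex3_c B102E_000_18_384_2 B102E_000_18_384_3
theorem B102E_000_18_192_1 :
    ∃ t, chk3 (onCell 0 33554432 0 1073741824 33554432 16777216 (corTK [] false 3 c0N cB102E gN0q1 gN0q2 gN0q0 gN1q0 true true)) t 18 192 1 = true :=
  ex3_b B102E_000_18_384_1 B102E_000_18_385_1
theorem B102E_000_9_192_1 :
    ∃ t, chk3 (onCell 0 33554432 0 1073741824 33554432 16777216 (corTK [] false 3 c0N cB102E gN0q1 gN0q2 gN0q0 gN1q0 true true)) t 9 192 1 = true :=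
  ex3_a B102E_000_18_192_1 B102E_000_19_192_1
theorem B102E_000_9_96_1 :
    ∃ t, chk3 (onCell 0 33554432 0 1073741824 33554432 16777216 (corTK [] false 3 c0N cB102E gN0q1 gN0q2 gN0q0 gN1q0 true true)) t 9 96 1 = true :=
  ex3_b B102E_000_9_192_1 B102E_000_9_193_1
theorem B102E_000_9_48_1 :
    ∃ t, chk3 (onCell 0 33554432 0 1073741824 33554432 16777216 (corTK [] false 3 c0N cB102E gN0q1 gN0q2 gN0q0 gN1q0 true true)) t 9 48 1 = true :=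
  ex3_b B102E_000_9_96_1 B102E_000_9_97_1
theorem B102E_000_9_24_1 :
    ∃ t, chk3 (onCell 0 33554432 0 1073741824 33554432 16777216 (corTK [] false 3 c0N cB102E gN0q1 gN0q2 gN0q0 gN1q0 true true)) t 9 24 1 = true :=
  ex3_b B102E_000_9_48_1 B102E_000_9_49_1
theorem B102E_000_9_12_1 :
    ∃ t, chk3 (onCell 0 33554432 0 1073741824 33554432 16777216 (corTK [] false 3 c0N cB102E gN0q1 gN0q2 gN0q0 gN1q0 true true)) t 9 12 1 = true :=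
  ex3_b B102E_000_9_24_1 B102E_000_9_25_1
theorem B102E_000_8_1536_4 :
    ∃ t, chk3 (onCell 0 33554432 0 1073741824 33554432 16777216 (corTK [] false 3 c0N cB102E gN0q1 gN0q2 gN0q0 gN1q0 true true)) t 8 1536 4 = true :=
  ex3_a B102E_000_16_1536_4 B102E_000_17_1536_4
theorem B102E_000_8_768_4 :
    ∃ t, chk3 (onCell 0 33554432 0 1073741824 33554432 16777216 (corTK [] false 3 c0N cB102E gN0q1 gN0q2 gN0q0 gN1q0 true true)) t 8 768 4 = true :=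
  ex3_b B102E_000_8_1536_4 B102E_000_8_1537_4
theorem B102E_000_8_768_2 :
    ∃ t, chk3 (onCell 0 33554432 0 1073741824 33554432 16777216 (corTK [] false 3 c0N cB102E gN0q1 gN0q2 gN0q0 gN1q0 true true)) t 8 768 2 = true :=
  ex3_c B102E_000_8_768_4 B102E_000_8_768_5
theorem B102E_000_8_384_2 :
    ∃ t, chk3 (onCell 0 33554432 0 1073741824 33554432 16777216 (corTK [] false 3 c0N cB102E gN0q1 gN0q2 gN0q0 gN1q0 true true)) t 8 384 2 = true :=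
  ex3_b B102E_000_8_768_2 B102E_000_8_769_2
theorem B102E_000_8_384_1 :
    ∃ t, chk3 (onCell 0 33554432 0 1073741824 33554432 16777216 (corTK [] false 3 c0N cB102E gN0q1 gN0q2 gN0q0 gN1q0 true true)) t 8 384 1 = true :=
  ex3_c B102E_000_8_384_2 B102E_000_8_384_3
theorem B102E_000_8_192_1 :
    ∃ t, chk3 (onCell 0 33554432 0 1073741824 33554432 16777216 (corTK [] false 3 c0N cB102E gN0q1 gN0q2 gN0q0 gN1q0 true true)) t 8 192 1 = true :=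
  ex3_b B102E_000_8_384_1 B102E_000_8_385_1
theorem B102E_000_8_96_1 :
    ∃ t, chk3 (onCell 0 33554432 0 1073741824 33554432 16777216 (corTK [] false 3 c0N cB102E gN0q1 gN0q2 gN0q0 gN1q0 true true)) t 8 96 1 = true :=
  ex3_b B102E_000_8_192_1 B102E_000_8_193_1
theorem B102E_000_8_48_1 :
    ∃ t, chk3 (onCell 0 33554432 0 1073741824 33554432 16777216 (corTK [] false 3 c0N cB102E gN0q1 gN0q2 gN0q0 gN1q0 true true)) t 8 48 1 = true :=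
  ex3_b B102E_000_8_96_1 B102E_000_8_97_1
theorem B102E_000_8_24_1 :
    ∃ t, chk3 (onCell 0 33554432 0 1073741824 33554432 16777216 (corTK [] false 3 c0N cB102E gN0q1 gN0q2 gN0q0 gN1q0 true true)) t 8 24 1 = true :=
  ex3_b B102E_000_8_48_1 B102E_000_8_49_1
theorem B102E_000_8_12_1 :
    ∃ t, chk3 (onCell 0 33554432 0 1073741824 33554432 16777216 (corTK [] false 3 c0N cB102E gN0q1 gN0q2 gN0q0 gN1q0 true true)) t 8 12 1 = true :=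
  ex3_b B102E_000_8_24_1 B102E_000_8_25_1
theorem B102E_000_4_12_1 :
    ∃ t, chk3 (onCell 0 33554432 0 1073741824 33554432 16777216 (corTK [] false 3 c0N cB102E gN0q1 gN0q2 gN0q0 gN1q0 true true)) t 4 12 1 = true :=
  ex3_a B102E_000_8_12_1 B102E_000_9_12_1
theorem B102E_000_2_12_1 :
    ∃ t, chk3 (onCell 0 33554432 0 1073741824 33554432 16777216 (corTK [] false 3 c0N cB102E gN0q1 gN0q2 gN0q0 gN1q0 true true)) t 2 12 1 = true :=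
  ex3_a B102E_000_4_12_1 B102E_000_5_12_1
theorem B102E_000_1_12_1 :
    ∃ t, chk3 (onCell 0 33554432 0 1073741824 33554432 16777216 (corTK [] false 3 c0N cB102E gN0q1 gN0q2 gN0q0 gN1q0 true true)) t 1 12 1 = true :=
  ex3_a B102E_000_2_12_1 B102E_000_3_12_1
theorem B102E_000_1_6_1 :
    ∃ t, chk3 (onCell 0 33554432 0 1073741824 33554432 16777216 (corTK [] false 3 c0N cB102E gN0q1 gN0q2 gN0q0 gN1q0 true true)) t 1 6 1 = true :=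
  ex3_b B102E_000_1_12_1 B102E_000_1_13_1
theorem B102E_000_1_3_1 :
    ∃ t, chk3 (onCell 0 33554432 0 1073741824 33554432 16777216 (corTK [] false 3 c0N cB102E gN0q1 gN0q2 gN0q0 gN1q0 true true)) t 1 3 1 = true :=
  ex3_b B102E_000_1_6_1 B102E_000_1_7_1
theorem B102E_000 :
    ∃ t, chk3 (onCell 0 33554432 0 1073741824 33554432 16777216 (corTK [] false 3 c0N cB102E gN0q1 gN0q2 gN0q0 gN1q0 true true)) t 1 1 1 = true :=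
  ex3_b B102E_000_1_2_1 B102E_000_1_3_1

def B102E_001 :
    ∃ t, chk3 (onCell 0 33554432 0 1073741824 33554432 16777216 (corTK [] false 3 c0N cB102E gN0q1 gN0q2 gN1q0 gN2q0 true true)) t 1 1 1 = true :=
  ⟨(T.b (T.l 1) (T.b (T.b (T.l 1) (T.b (T.l 1) (T.a (T.a (T.l 816) (T.l 1)) (T.l 1)))) (T.b (T.a (T.a (T.l 816) (T.l 816)) (T.b (T.l 816) (T.l 816))) (T.a (T.a (T.a (T.l 816) (T.l 816)) (T.l 816)) (T.l 816))))), by decide +kernel⟩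

def B102E_002 :
    ∃ t, chk3 (onCell 0 33554432 0 1073741824 33554432 16777216 (corTK [] false 3 c0N cB102E gN0q1 gN0q2 gN2q0 gN3q0 true false)) t 1 1 1 = true :=
  ⟨(T.b (T.l 1) (T.b (T.l 1) (T.b (T.l 1) (T.a (T.b (T.l 1) (T.a (T.a (T.l 816) (T.l 816)) (T.l 816))) (T.l 0))))), by decide +kernel⟩

def B102E_010 :
    ∃ t, chk3 (onCell 0 33554432 0 1073741824 33554432 16777216 (corTK [] false 3 c0N cB102E gN0q1 gN1q2 gN0q0 gN1q0 true true)) t 1 1 1 = true :=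
  ⟨(T.b (T.b (T.l 1) (T.b (T.b (T.l 1) (T.b (T.b (T.l 1) (T.b (T.a (T.b (T.l 1) (T.a (T.a (T.c (T.b (T.c (T.b (T.l 1) (T.a (T.l 204) (T.c (T.b (T.l 1) (T.l 460)) (T.a (T.l 460) (T.l 1))))) (T.b (T.l 1) (T.a (T.l 204) (T.a (T.l 204) (T.l 1))))) (T.l 204)) (T.b (T.c (T.b (T.l 1) (T.a (T.l 204) (T.a (T.l 204) (T.l 1)))) (T.b (T.l 1) (T.a (T.l 204) (T.a (T.l 204) (T.l 1))))) (T.l 204))) (T.c (T.b (T.l 1) (T.a (T.a (T.l 204) (T.c (T.b (T.c (T.b (T.l 1) (T.l 204)) (T.a (T.l 204) (T.l 1))) (T.l 204)) (T.c (T.a (T.l 204) (T.b (T.l 1) (T.l 204))) (T.l 476)))) (T.c (T.b (T.l 1) (T.a (T.l 204) (T.l 476))) (T.b (T.l 1) (T.a (T.l 204) (T.l 204)))))) (T.b (T.l 1) (T.a (T.l 460) (T.c (T.b (T.l 1) (T.a (T.l 204) (T.l 204))) (T.b (T.l 1) (T.l 476))))))) (T.a (T.a (T.a (T.c (T.b (T.l 1) (T.a (T.c (T.b (T.l 1) (T.c (T.b (T.l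 1) (T.l 204)) (T.b (T.l 1) (T.l 204)))) (T.b (T.l 1) (T.l 476))) (T.l 1))) (T.b (T.l 1) (T.c (T.b (T.l 1) (T.a (T.l 204) (T.l 1))) (T.b (T.l 1) (T.l 476))))) (T.l 1)) (T.l 1)) (T.l 1)))) (T.l 1)) (T.a (T.a (T.a (T.l 204) (T.a (T.l 204) (T.l 204))) (T.a (T.b (T.a (T.l 476) (T.c (T.b (T.c (T.a (T.l 476) (T.b (T.c (T.b (T.l 1) (T.l 460)) (T.b (T.l 1) (T.l 204))) (T.l 204))) (T.a (T.l 460) (T.b (T.c (T.b (T.l 1) (T.l 204)) (T.b (T.l 1) (T.l 204))) (T.l 204)))) (T.l 204)) (T.a (T.l 460) (T.a (T.l 476) (T.b (T.c (T.b (T.l 1) (T.l 204)) (T.b (T.l 1) (T.l 204))) (T.l 204)))))) (T.l 0)) (T.b (T.c (T.b (T.c (T.b (T.l 1) (T.a (T.a (T.l 204) (T.l 476)) (T.c (T.b (T.l 1) (T.a (T.l 460) (T.l 1))) (T.b (T.l 1) (T.a (T.l 204) (T.l 1)))))) (T.b (T.l 1) (T.a (T.a (T.l 204) (T.l 476)) (T.c (T.b (T.l 1) (T.a (T.l 204) (T.l 1)))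 (T.b (T.l 1) (T.a (T.l 204) (T.l 1))))))) (T.a (T.l 204) (T.l 460))) (T.b (T.c (T.b (T.l 1) (T.a (T.l 476) (T.a (T.c (T.b (T.l 1) (T.l 204)) (T.b (T.l 1) (T.l 204))) (T.l 1)))) (T.b (T.l 1) (T.a (T.l 476) (T.a (T.a (T.l 460) (T.l 476)) (T.l 1))))) (T.a (T.l 204) (T.l 204)))) (T.l 204)))) (T.a (T.b (T.c (T.b (T.l 1) (T.a (T.a (T.a (T.l 476) (T.c (T.b (T.c (T.b (T.l 1) (T.l 460)) (T.b (T.l 1) (T.l 204))) (T.l 204)) (T.a (T.l 476) (T.b (T.c (T.b (T.l 1) (T.l 204)) (T.b (T.l 1) (T.l 204))) (T.l 204))))) (T.c (T.b (T.l 1) (T.l 476)) (T.b (T.l 1) (T.l 476)))) (T.a (T.a (T.c (T.b (T.l 1) (T.c (T.b (T.l 1) (T.l 460)) (T.b (T.l 1) (T.l 204)))) (T.b (T.l 1) (T.c (T.b (T.l 1) (T.l 204)) (T.b (T.l 1) (T.l 204))))) (T.l 1)) (T.l 1)))) (T.b (T.l 1) (T.a (T.a (T.a (T.l 460) (T.c (T.a (T.l 476) (T.c (T.b (T.a (T.l 476) (T.l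 1)) (T.l 204)) (T.l 476))) (T.l 476))) (T.c (T.b (T.l 1) (T.l 460)) (T.b (T.l 1) (T.l 460)))) (T.a (T.a (T.c (T.b (T.l 1) (T.c (T.b (T.l 1) (T.l 204)) (T.l 476))) (T.b (T.l 1) (T.l 476))) (T.l 1)) (T.l 1))))) (T.a (T.l 476) (T.a (T.l 460) (T.a (T.l 476) (T.c (T.b (T.c (T.b (T.c (T.b (T.l 1) (T.l 460)) (T.b (T.l 1) (T.l 204))) (T.l 204)) (T.a (T.l 476) (T.b (T.c (T.b (T.l 1) (T.l 204)) (T.a (T.l 476) (T.l 1))) (T.l 204)))) (T.l 204)) (T.c (T.b (T.c (T.a (T.l 476) (T.b (T.a (T.l 476) (T.l 1)) (T.l 204))) (T.l 476)) (T.l 204)) (T.l 476))))))) (T.b (T.l 1) (T.c (T.b (T.a (T.c (T.b (T.l 1) (T.a (T.l 476) (T.c (T.b (T.l 1) (T.a (T.l 460) (T.l 1))) (T.b (T.l 1) (T.a (T.l 460) (T.l 1)))))) (T.b (T.l 1) (T.a (T.l 476) (T.c (T.b (T.l 1) (T.l 476)) (T.b (T.l 1) (T.l 476)))))) (T.l 1)) (T.a (T.l 476) (T.a (T.a (T.l 476)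 (T.c (T.b (T.c (T.b (T.l 1) (T.l 460)) (T.b (T.l 1) (T.l 460))) (T.l 204)) (T.a (T.l 476) (T.b (T.c (T.b (T.l 1) (T.l 460)) (T.a (T.l 476) (T.l 1))) (T.l 204))))) (T.c (T.b (T.l 1) (T.l 476)) (T.b (T.l 1) (T.l 476)))))) (T.b (T.a (T.c (T.b (T.l 1) (T.a (T.l 460) (T.c (T.b (T.l 1) (T.l 476)) (T.a (T.l 476) (T.l 1))))) (T.b (T.l 1) (T.a (T.l 460) (T.a (T.l 476) (T.l 1))))) (T.l 1)) (T.a (T.l 476) (T.c (T.b (T.a (T.a (T.l 460) (T.c (T.b (T.l 1) (T.l 204)) (T.l 476))) (T.l 1)) (T.l 476)) (T.a (T.l 476) (T.b (T.l 1) (T.l 460)))))))))))) (T.a (T.a (T.a (T.l 0) (T.l 0)) (T.a (T.l 0) (T.l 0))) (T.b (T.a (T.a (T.l 204) (T.l 204)) (T.a (T.l 204) (T.l 476))) (T.l 0))))) (T.a (T.a (T.a (T.l 816) (T.l 0)) (T.b (T.l 0) (T.l 0))) (T.b (T.l 0) (T.l 0))))) (T.b (T.b (T.a (T.a (T.a (T.l 816) (T.l 816)) (T.l 0)) (T.l 0)) (T.b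 (T.a (T.a (T.a (T.l 816) (T.l 816)) (T.l 816)) (T.l 0)) (T.l 2))) (T.l 2))), by decide +kernel⟩

def B102E_011 :
    ∃ t, chk3 (onCell 0 33554432 0 1073741824 33554432 16777216 (corTK [] false 3 c0N cB102E gN0q1 gN1q2 gN1q0 gN2q0 true true)) t 1 1 1 = true :=
  ⟨(T.b (T.l 1) (T.b (T.b (T.l 1) (T.a (T.a (T.l 816) (T.l 816)) (T.l 0))) (T.b (T.a (T.a (T.l 816) (T.l 816)) (T.l 0)) (T.a (T.a (T.a (T.l 816) (T.l 816)) (T.l 816)) (T.l 816))))), by decide +kernel⟩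

def B102E_012 :
    ∃ t, chk3 (onCell 0 33554432 0 1073741824 33554432 16777216 (corTK [] false 3 c0N cB102E gN0q1 gN1q2 gN2q0 gN3q0 true false)) t 1 1 1 = true :=
  ⟨(T.b (T.l 1) (T.b (T.l 1) (T.b (T.l 1) (T.a (T.b (T.l 1) (T.a (T.a (T.l 816) (T.l 816)) (T.l 816))) (T.l 0))))), by decide +kernel⟩

end Pool.Agent.Strip051.G.I1_32_3_64.Tab.CN
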