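import Pool.Agent.Strip051.G.I1_32_3_64.Gn
import Pool.Agent.Strip051.PB.Corns
import Pool.Agent.Strip051.PB.CornK

/-! # Certificates of the aligned corners (generated) -/

set_option linter.all false

namespace Pool.Agent.Strip051.G.I1_32_3_64.Tab.CN

open Pool.Agent.Strip051.PB

def B202R_040_1_4_1 :
    ∃ t, chk3 (onCell 0 33554432 0 1073741824 33554432 16777216 (corTK [] false 3 c0N cB202R gN0q2 gN4q2 gN0q0 gN1q0 true true)) t 1 4 1 = true :=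
  ⟨(T.l 1), by decide +kernel⟩

def B202R_040_1_20_1 :
    ∃ t, chk3 (onCell 0 33554432 0 1073741824 33554432 16777216 (corTK [] false 3 c0N cB202R gN0q2 gN4q2 gN0q0 gN1q0 true true)) t 1 20 1 = true :=
  ⟨(T.l 1), by decide +kernel⟩

def B202R_040_1_84_1 :
    ∃ t, chk3 (onCell 0 33554432 0 1073741824 33554432 16777216 (corTK [] false 3 c0N cB202R gN0q2 gN4q2 gN0q0 gN1q0 true true)) t 1 84 1 = true :=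
  ⟨(T.l 1), by decide +kernel⟩

def B202R_040_4_340_1 :
    ∃ t, chk3 (onCell 0 33554432 0 1073741824 33554432 16777216 (corTK [] false 3 c0N cB202R gN0q2 gN4q2 gN0q0 gN1q0 true true)) t 4 340 1 = true :=
  ⟨(T.l 1), by decide +kernel⟩

def B202R_040_5_680_2 :
    ∃ t, chk3 (onCell 0 33554432 0 1073741824 33554432 16777216 (corTK [] false 3 c0N cB202R gN0q2 gN4q2 gN0q0 gN1q0 true true)) t 5 680 2 = true :=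
  ⟨(T.l 1), by decide +kernel⟩

def B202R_040_5_681_4 :
    ∃ t, chk3 (onCell 0 33554432 0 1073741824 33554432 16777216 (corTK [] false 3 c0N cB202R gN0q2 gN4q2 gN0q0 gN1q0 true true)) t 5 681 4 = true :=
  ⟨(T.b (T.l 1) (T.a (T.a (T.l 1) (T.a (T.l 1) (T.a (T.l 1) (T.a (T.l 1) (T.c (T.b (T.l 1) (T.a (T.l 1) (T.c (T.b (T.l 1) (T.c (T.b (T.l 1) (T.c (T.b (T.l 1) (T.l 204)) (T.b (T.l 1) (T.l 204)))) (T.b (T.l 1) (T.c (T.b (T.l 1) (T.l 204)) (T.b (T.l 1) (T.l 204)))))) (T.b (T.l 1) (T.c (T.b (T.l 1) (T.c (T.b (T.l 1) (T.l 204)) (T.b (T.l 1) (T.l 204)))) (T.b (T.l 1) (T.c (T.b (T.l 1) (T.l 204)) (T.b (T.l 1) (T.l 204))))))))) (T.b (T.l 1) (T.a (T.l 1) (T.c (T.b (T.l 1) (T.c (T.b (T.l 1) (T.c (T.b (T.l 1) (T.l 204)) (T.b (T.l 1) (T.l 204)))) (T.b (T.l 1) (T.c (T.b (T.l 1) (T.l 204))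 (T.b (T.l 1) (T.l 204)))))) (T.b (T.l 1) (T.c (T.b (T.l 1) (T.c (T.b (T.l 1) (T.l 204)) (T.b (T.l 1) (T.l 204)))) (T.b (T.l 1) (T.c (T.b (T.l 1) (T.l 204)) (T.b (T.l 1) (T.l 204)))))))))))))) (T.c (T.b (T.l 1) (T.a (T.c (T.b (T.l 1) (T.a (T.c (T.b (T.l 1) (T.a (T.c (T.b (T.l 1) (T.l 204)) (T.b (T.l 1) (T.l 204))) (T.l 204))) (T.b (T.l 1) (T.a (T.c (T.b (T.l 1) (T.l 204)) (T.b (T.l 1) (T.l 204))) (T.l 204)))) (T.a (T.c (T.b (T.c (T.b (T.l 1) (T.l 204)) (T.b (T.l 1) (T.l 204))) (T.l 204)) (T.b (T.c (T.b (T.l 1) (T.l 204)) (T.b (T.l 1) (T.l 204))) (T.l 204))) (T.l 204)))) (T.b (T.l 1) (T.a (T.c (T.b (T.l 1) (T.a (T.c (T.b (T.l 1) (T.l 204)) (T.b (T.l 1) (T.l 204))) (T.l 204))) (T.b (T.l 1) (T.a (T.c (T.b (T.l 1) (T.l 204)) (T.b (T.l 1) (T.l 204))) (T.l 204)))) (T.a (T.c (T.b (T.c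 (T.b (T.l 1) (T.l 204)) (T.b (T.l 1) (T.l 204))) (T.l 204)) (T.b (T.c (T.b (T.l 1) (T.l 204)) (T.b (T.l 1) (T.l 204))) (T.l 204))) (T.l 204))))) (T.c (T.b (T.a (T.c (T.b (T.l 1) (T.a (T.c (T.b (T.l 1) (T.l 204)) (T.b (T.l 1) (T.l 204))) (T.l 204))) (T.b (T.l 1) (T.a (T.c (T.b (T.l 1) (T.l 204)) (T.b (T.l 1) (T.l 204))) (T.l 204)))) (T.a (T.c (T.b (T.c (T.b (T.l 1) (T.l 204)) (T.b (T.l 1) (T.l 204))) (T.l 204)) (T.b (T.c (T.b (T.l 1) (T.l 204)) (T.b (T.l 1) (T.l 204))) (T.l 204))) (T.l 204))) (T.l 204)) (T.b (T.a (T.c (T.b (T.l 1) (T.a (T.c (T.b (T.l 1) (T.l 204)) (T.b (T.l 1) (T.l 204))) (T.l 204))) (T.b (T.l 1) (T.a (T.c (T.b (T.l 1) (T.l 204)) (T.b (T.l 1) (T.l 204))) (T.l 204)))) (T.a (T.c (T.b (T.c (T.b (T.l 1) (T.l 204)) (T.b (T.l 1) (T.l 204))) (T.l 204)) (T.b (T.c (T.b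 (T.l 1) (T.l 204)) (T.b (T.l 1) (T.l 204))) (T.l 204))) (T.l 204))) (T.l 204))))) (T.b (T.l 1) (T.a (T.c (T.b (T.l 1) (T.a (T.c (T.b (T.l 1) (T.a (T.c (T.b (T.l 1) (T.l 204)) (T.b (T.l 1) (T.l 204))) (T.l 204))) (T.b (T.l 1) (T.a (T.c (T.b (T.l 1) (T.l 204)) (T.b (T.l 1) (T.l 204))) (T.l 204)))) (T.a (T.c (T.b (T.c (T.b (T.l 1) (T.l 204)) (T.b (T.l 1) (T.l 204))) (T.l 204)) (T.b (T.c (T.b (T.l 1) (T.l 204)) (T.b (T.l 1) (T.l 204))) (T.l 204))) (T.l 204)))) (T.b (T.l 1) (T.a (T.c (T.b (T.l 1) (T.a (T.c (T.b (T.l 1) (T.l 204)) (T.b (T.l 1) (T.l 204))) (T.l 204))) (T.b (T.l 1) (T.a (T.c (T.b (T.l 1) (T.l 204)) (T.b (T.l 1) (T.l 204))) (T.l 204)))) (T.a (T.c (T.b (T.c (T.b (T.l 1) (T.l 204)) (T.b (T.l 1) (T.l 204))) (T.l 204)) (T.b (T.c (T.b (T.l 1) (T.l 204)) (T.b (T.l 1) (T.l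 204))) (T.l 204))) (T.l 204))))) (T.c (T.b (T.a (T.c (T.b (T.l 1) (T.a (T.c (T.b (T.l 1) (T.l 204)) (T.b (T.l 1) (T.l 204))) (T.l 204))) (T.b (T.l 1) (T.a (T.c (T.b (T.l 1) (T.l 204)) (T.b (T.l 1) (T.l 204))) (T.l 204)))) (T.a (T.c (T.b (T.c (T.b (T.l 1) (T.l 204)) (T.b (T.l 1) (T.l 204))) (T.l 204)) (T.b (T.c (T.b (T.l 1) (T.l 204)) (T.b (T.l 1) (T.l 204))) (T.l 204))) (T.l 204))) (T.l 204)) (T.b (T.a (T.c (T.b (T.l 1) (T.a (T.c (T.b (T.l 1) (T.l 204)) (T.b (T.l 1) (T.l 204))) (T.l 204))) (T.b (T.l 1) (T.a (T.c (T.b (T.l 1) (T.l 204)) (T.b (T.l 1) (T.l 204))) (T.l 204)))) (T.a (T.c (T.b (T.c (T.b (T.l 1) (T.l 204)) (T.b (T.l 1) (T.l 204))) (T.l 204)) (T.b (T.c (T.b (T.l 1) (T.l 204)) (T.b (T.l 1) (T.l 204))) (T.l 204))) (T.l 204))) (T.l 204)))))))), by decide +kernel⟩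

def B202R_040_5_681_5 :
    ∃ t, chk3 (onCell 0 33554432 0 1073741824 33554432 16777216 (corTK [] false 3 c0N cB202R gN0q2 gN4q2 gN0q0 gN1q0 true true)) t 5 681 5 = true :=
  ⟨(T.b (T.l 1) (T.a (T.a (T.l 1) (T.a (T.l 1) (T.a (T.l 1) (T.a (T.l 1) (T.c (T.b (T.l 1) (T.a (T.l 1) (T.c (T.b (T.l 1) (T.c (T.b (T.l 1) (T.c (T.b (T.l 1) (T.l 204)) (T.b (T.l 1) (T.l 204)))) (T.b (T.l 1) (T.c (T.b (T.l 1) (T.l 204)) (T.b (T.l 1) (T.l 204)))))) (T.b (T.l 1) (T.c (T.b (T.l 1) (T.c (T.b (T.l 1) (T.l 204)) (T.b (T.l 1) (T.l 204)))) (T.b (T.l 1) (T.c (T.b (T.l 1) (T.l 204)) (T.b (T.l 1) (T.l 204))))))))) (T.b (T.l 1) (T.a (T.l 1) (T.c (T.b (T.l 1) (T.c (T.b (T.l 1) (T.c (T.b (T.l 1) (T.l 204)) (T.b (T.l 1) (T.l 204)))) (T.b (T.l 1) (T.c (T.b (T.l 1) (T.l 204)) (T.b (T.l 1) (T.l 204))))))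 (T.b (T.l 1) (T.c (T.b (T.l 1) (T.c (T.b (T.l 1) (T.l 204)) (T.b (T.l 1) (T.l 204)))) (T.b (T.l 1) (T.c (T.b (T.l 1) (T.l 204)) (T.b (T.l 1) (T.l 204)))))))))))))) (T.c (T.b (T.l 1) (T.a (T.c (T.b (T.l 1) (T.a (T.c (T.b (T.l 1) (T.a (T.c (T.b (T.l 1) (T.l 204)) (T.b (T.l 1) (T.l 204))) (T.l 204))) (T.b (T.l 1) (T.a (T.c (T.b (T.l 1) (T.l 204)) (T.b (T.l 1) (T.l 204))) (T.l 204)))) (T.a (T.c (T.b (T.c (T.b (T.l 1) (T.l 204)) (T.b (T.l 1) (T.l 204))) (T.l 204)) (T.b (T.c (T.b (T.l 1) (T.l 204)) (T.b (T.l 1) (T.l 204))) (T.l 204))) (T.l 204)))) (T.b (T.l 1) (T.a (T.c (T.b (T.l 1) (T.a (T.c (T.b (T.l 1) (T.l 204)) (T.b (T.l 1) (T.l 204))) (T.l 204))) (T.b (T.l 1) (T.a (T.c (T.b (T.l 1) (T.l 204)) (T.b (T.l 1) (T.l 204))) (T.l 204)))) (T.a (T.c (T.b (T.c (T.b (T.l 1) (T.l 204))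 (T.b (T.l 1) (T.l 204))) (T.l 204)) (T.b (T.c (T.b (T.l 1) (T.l 204)) (T.b (T.l 1) (T.l 204))) (T.l 204))) (T.l 204))))) (T.c (T.b (T.a (T.c (T.b (T.l 1) (T.a (T.c (T.b (T.l 1) (T.l 204)) (T.b (T.l 1) (T.l 204))) (T.l 204))) (T.b (T.l 1) (T.a (T.c (T.b (T.l 1) (T.l 204)) (T.b (T.l 1) (T.l 204))) (T.l 204)))) (T.a (T.c (T.b (T.c (T.b (T.l 1) (T.l 204)) (T.b (T.l 1) (T.l 204))) (T.l 204)) (T.b (T.c (T.b (T.l 1) (T.l 204)) (T.b (T.l 1) (T.l 204))) (T.l 204))) (T.l 204))) (T.l 204)) (T.b (T.a (T.c (T.b (T.l 1) (T.a (T.c (T.b (T.l 1) (T.l 204)) (T.b (T.l 1) (T.l 204))) (T.l 204))) (T.b (T.l 1) (T.a (T.c (T.b (T.l 1) (T.l 204)) (T.b (T.l 1) (T.l 204))) (T.l 204)))) (T.a (T.c (T.b (T.c (T.b (T.l 1) (T.l 204)) (T.b (T.l 1) (T.l 204))) (T.l 204)) (T.b (T.c (T.b (T.l 1) (T.l 204)) (T.b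 (T.l 1) (T.l 204))) (T.l 204))) (T.l 204))) (T.l 204))))) (T.b (T.l 1) (T.a (T.c (T.b (T.l 1) (T.a (T.c (T.b (T.l 1) (T.a (T.c (T.b (T.l 1) (T.l 204)) (T.b (T.l 1) (T.l 204))) (T.l 204))) (T.b (T.l 1) (T.a (T.c (T.b (T.l 1) (T.l 204)) (T.b (T.l 1) (T.l 204))) (T.l 204)))) (T.a (T.a (T.c (T.b (T.c (T.b (T.l 1) (T.l 204)) (T.b (T.l 1) (T.l 204))) (T.l 204)) (T.b (T.c (T.b (T.l 1) (T.l 204)) (T.b (T.l 1) (T.l 204))) (T.l 204))) (T.l 204)) (T.l 204)))) (T.b (T.l 1) (T.a (T.c (T.b (T.l 1) (T.a (T.c (T.b (T.l 1) (T.l 204)) (T.b (T.l 1) (T.l 204))) (T.l 204))) (T.b (T.l 1) (T.a (T.c (T.b (T.l 1) (T.l 204)) (T.b (T.l 1) (T.l 204))) (T.l 204)))) (T.a (T.a (T.c (T.b (T.c (T.b (T.l 1) (T.l 204)) (T.b (T.l 1) (T.l 204))) (T.l 204)) (T.b (T.c (T.b (T.l 1) (T.l 204)) (T.b (T.l 1) (T.l 204)))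 (T.l 204))) (T.l 204)) (T.l 204))))) (T.c (T.b (T.a (T.c (T.b (T.l 1) (T.a (T.c (T.b (T.l 1) (T.l 204)) (T.b (T.l 1) (T.l 204))) (T.l 204))) (T.b (T.l 1) (T.a (T.c (T.b (T.l 1) (T.l 204)) (T.b (T.l 1) (T.l 204))) (T.l 204)))) (T.a (T.c (T.b (T.c (T.b (T.l 1) (T.l 204)) (T.b (T.l 1) (T.l 204))) (T.l 204)) (T.b (T.c (T.b (T.l 1) (T.l 204)) (T.b (T.l 1) (T.l 204))) (T.l 204))) (T.l 204))) (T.l 204)) (T.b (T.a (T.c (T.b (T.l 1) (T.a (T.c (T.b (T.l 1) (T.l 204)) (T.b (T.l 1) (T.l 204))) (T.l 204))) (T.b (T.l 1) (T.a (T.c (T.b (T.l 1) (T.l 204)) (T.b (T.l 1) (T.l 204))) (T.l 204)))) (T.a (T.c (T.b (T.c (T.b (T.l 1) (T.l 204)) (T.b (T.l 1) (T.l 204))) (T.l 204)) (T.b (T.c (T.b (T.l 1) (T.l 204)) (T.b (T.l 1) (T.l 204))) (T.l 204))) (T.l 204))) (T.l 204)))))))), by decide +kernel⟩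

def B202R_040_5_680_3 :
    ∃ t, chk3 (onCell 0 33554432 0 1073741824 33554432 16777216 (corTK [] false 3 c0N cB202R gN0q2 gN4q2 gN0q0 gN1q0 true true)) t 5 680 3 = true :=
  ⟨(T.l 1), by decide +kernel⟩

def B202R_040_5_681_6 :
    ∃ t, chk3 (onCell 0 33554432 0 1073741824 33554432 16777216 (corTK [] false 3 c0N cB202R gN0q2 gN4q2 gN0q0 gN1q0 true true)) t 5 681 6 = true :=
  ⟨(T.b (T.l 1) (T.a (T.a (T.l 1) (T.a (T.l 1) (T.a (T.l 1) (T.a (T.l 1) (T.c (T.b (T.l 1) (T.a (T.l 1) (T.c (T.b (T.l 1) (T.c (T.b (T.l 1) (T.c (T.b (T.l 1) (T.l 204)) (T.b (T.l 1) (T.l 204)))) (T.b (T.l 1) (T.c (T.b (T.l 1) (T.l 204)) (T.b (T.l 1) (T.l 204)))))) (T.b (T.l 1) (T.c (T.b (T.l 1) (T.c (T.b (T.l 1) (T.l 204)) (T.b (T.l 1) (T.l 204)))) (T.b (T.l 1) (T.c (T.b (T.l 1) (T.l 204)) (T.b (T.l 1)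 (T.l 204))))))))) (T.b (T.l 1) (T.a (T.l 1) (T.c (T.b (T.l 1) (T.c (T.b (T.l 1) (T.c (T.b (T.l 1) (T.l 204)) (T.b (T.l 1) (T.l 204)))) (T.b (T.l 1) (T.c (T.b (T.l 1) (T.l 204)) (T.b (T.l 1) (T.l 204)))))) (T.b (T.l 1) (T.c (T.b (T.l 1) (T.c (T.b (T.l 1) (T.l 204)) (T.b (T.l 1) (T.l 204)))) (T.b (T.l 1) (T.c (T.b (T.l 1) (T.l 204)) (T.b (T.l 1) (T.l 204)))))))))))))) (T.c (T.b (T.l 1) (T.a (T.c (T.b (T.l 1) (T.a (T.c (T.b (T.l 1) (T.a (T.c (T.b (T.l 1) (T.l 204)) (T.b (T.l 1) (T.l 204))) (T.l 204))) (T.b (T.l 1) (T.a (T.c (T.b (T.l 1) (T.l 204)) (T.b (T.l 1) (T.l 204))) (T.l 204)))) (T.a (T.a (T.c (T.b (T.c (T.b (T.l 1) (T.l 204)) (T.b (T.l 1) (T.l 204))) (T.l 204)) (T.b (T.c (T.b (T.l 1) (T.l 204)) (T.b (T.l 1) (T.l 204))) (T.l 204))) (T.l 204)) (T.l 204)))) (T.b (T.l 1) (T.a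 (T.c (T.b (T.l 1) (T.a (T.c (T.b (T.l 1) (T.l 204)) (T.b (T.l 1) (T.l 204))) (T.l 204))) (T.b (T.l 1) (T.a (T.c (T.b (T.l 1) (T.l 204)) (T.b (T.l 1) (T.l 204))) (T.l 204)))) (T.a (T.a (T.c (T.b (T.c (T.b (T.l 1) (T.l 204)) (T.b (T.l 1) (T.l 204))) (T.l 204)) (T.b (T.c (T.b (T.l 1) (T.l 204)) (T.b (T.l 1) (T.l 204))) (T.l 204))) (T.l 204)) (T.l 204))))) (T.c (T.b (T.a (T.c (T.b (T.l 1) (T.a (T.c (T.b (T.l 1) (T.l 204)) (T.b (T.l 1) (T.l 204))) (T.l 204))) (T.b (T.l 1) (T.a (T.c (T.b (T.l 1) (T.l 204)) (T.b (T.l 1) (T.l 204))) (T.l 204)))) (T.a (T.c (T.b (T.c (T.b (T.l 1) (T.l 204)) (T.b (T.l 1) (T.l 204))) (T.l 204)) (T.b (T.c (T.b (T.l 1) (T.l 204)) (T.b (T.l 1) (T.l 204))) (T.l 204))) (T.l 204))) (T.l 204)) (T.b (T.a (T.c (T.b (T.l 1) (T.a (T.c (T.b (T.l 1) (T.l 204)) (T.b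 (T.l 1) (T.l 204))) (T.l 204))) (T.b (T.l 1) (T.a (T.c (T.b (T.l 1) (T.l 204)) (T.b (T.l 1) (T.l 204))) (T.l 204)))) (T.a (T.c (T.b (T.c (T.b (T.l 1) (T.l 204)) (T.b (T.l 1) (T.l 204))) (T.l 204)) (T.b (T.c (T.b (T.l 1) (T.l 204)) (T.b (T.l 1) (T.l 204))) (T.l 204))) (T.l 204))) (T.l 204))))) (T.b (T.l 1) (T.a (T.c (T.b (T.l 1) (T.a (T.c (T.b (T.l 1) (T.a (T.c (T.b (T.l 1) (T.l 204)) (T.b (T.l 1) (T.l 204))) (T.l 204))) (T.b (T.l 1) (T.a (T.c (T.b (T.l 1) (T.l 204)) (T.b (T.l 1) (T.l 204))) (T.l 204)))) (T.a (T.a (T.c (T.b (T.c (T.b (T.l 1) (T.l 204)) (T.b (T.l 1) (T.l 204))) (T.l 204)) (T.b (T.c (T.b (T.l 1) (T.l 204)) (T.b (T.l 1) (T.l 204))) (T.l 204))) (T.l 204)) (T.l 204)))) (T.b (T.l 1) (T.a (T.c (T.b (T.l 1) (T.a (T.c (T.b (T.l 1) (T.l 204)) (T.b (T.l 1) (T.l 204)))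 (T.l 204))) (T.b (T.l 1) (T.a (T.c (T.b (T.l 1) (T.l 204)) (T.b (T.l 1) (T.l 204))) (T.l 204)))) (T.a (T.a (T.c (T.b (T.c (T.b (T.l 1) (T.l 204)) (T.b (T.l 1) (T.l 204))) (T.l 204)) (T.b (T.c (T.b (T.l 1) (T.l 204)) (T.b (T.l 1) (T.l 204))) (T.l 204))) (T.l 204)) (T.l 204))))) (T.c (T.b (T.a (T.c (T.b (T.l 1) (T.a (T.c (T.b (T.l 1) (T.l 204)) (T.b (T.l 1) (T.l 204))) (T.l 204))) (T.b (T.l 1) (T.a (T.c (T.b (T.l 1) (T.l 204)) (T.b (T.l 1) (T.l 204))) (T.l 204)))) (T.a (T.c (T.b (T.c (T.b (T.l 1) (T.l 204)) (T.b (T.l 1) (T.l 204))) (T.l 204)) (T.b (T.c (T.b (T.l 1) (T.l 204)) (T.b (T.l 1) (T.l 204))) (T.l 204))) (T.l 204))) (T.l 204)) (T.b (T.a (T.c (T.b (T.l 1) (T.a (T.c (T.b (T.l 1) (T.l 204)) (T.b (T.l 1) (T.l 204))) (T.l 204))) (T.b (T.l 1) (T.a (T.c (T.b (T.l 1) (T.l 204))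 (T.b (T.l 1) (T.l 204))) (T.l 204)))) (T.a (T.c (T.b (T.c (T.b (T.l 1) (T.l 204)) (T.b (T.l 1) (T.l 204))) (T.l 204)) (T.b (T.c (T.b (T.l 1) (T.l 204)) (T.b (T.l 1) (T.l 204))) (T.l 204))) (T.l 204))) (T.l 204)))))))), by decide +kernel⟩

def B202R_040_5_681_7 :
    ∃ t, chk3 (onCell 0 33554432 0 1073741824 33554432 16777216 (corTK [] false 3 c0N cB202R gN0q2 gN4q2 gN0q0 gN1q0 true true)) t 5 681 7 = true :=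
  ⟨(T.b (T.l 1) (T.a (T.a (T.l 1) (T.a (T.l 1) (T.a (T.l 1) (T.a (T.l 1) (T.c (T.b (T.l 1) (T.a (T.l 1) (T.c (T.b (T.l 1) (T.c (T.b (T.l 1) (T.c (T.b (T.l 1) (T.l 204)) (T.b (T.l 1) (T.l 204)))) (T.b (T.l 1) (T.c (T.b (T.l 1) (T.l 204)) (T.b (T.l 1) (T.l 204)))))) (T.b (T.l 1) (T.c (T.b (T.l 1) (T.c (T.b (T.l 1) (T.l 204)) (T.b (T.l 1) (T.l 204)))) (T.b (T.l 1) (T.c (T.b (T.l 1) (T.l 204)) (T.b (T.l 1) (T.l 204))))))))) (T.b (T.l 1) (T.a (T.l 1) (T.c (T.b (T.l 1) (T.c (T.b (T.l 1) (T.c (T.b (T.l 1) (T.l 204)) (T.b (T.l 1) (T.l 204)))) (T.b (T.l 1) (T.c (T.b (T.l 1) (T.l 204)) (T.b (T.l 1) (T.l 204)))))) (T.b (T.l 1) (T.c (T.b (T.l 1) (T.c (T.b (T.l 1) (T.l 204)) (T.b (T.l 1) (T.l 204)))) (T.b (T.l 1) (T.c (T.b (T.l 1) (T.l 204)) (T.b (T.l 1) (T.l 204)))))))))))))) (T.c (T.b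 (T.l 1) (T.a (T.c (T.b (T.l 1) (T.a (T.c (T.b (T.l 1) (T.a (T.c (T.b (T.l 1) (T.l 204)) (T.b (T.l 1) (T.l 204))) (T.l 204))) (T.b (T.l 1) (T.a (T.c (T.b (T.l 1) (T.l 204)) (T.b (T.l 1) (T.l 204))) (T.l 204)))) (T.a (T.a (T.c (T.b (T.c (T.b (T.l 1) (T.l 204)) (T.b (T.l 1) (T.l 204))) (T.l 204)) (T.b (T.c (T.b (T.l 1) (T.l 204)) (T.b (T.l 1) (T.l 204))) (T.l 204))) (T.l 204)) (T.l 204)))) (T.b (T.l 1) (T.a (T.c (T.b (T.l 1) (T.a (T.c (T.b (T.l 1) (T.l 204)) (T.b (T.l 1) (T.l 204))) (T.l 204))) (T.b (T.l 1) (T.a (T.c (T.b (T.l 1) (T.l 204)) (T.b (T.l 1) (T.l 204))) (T.l 204)))) (T.a (T.a (T.c (T.b (T.c (T.b (T.l 1) (T.l 204)) (T.b (T.l 1) (T.l 204))) (T.l 204)) (T.b (T.c (T.b (T.l 1) (T.l 204)) (T.b (T.l 1) (T.l 204))) (T.l 204))) (T.l 204)) (T.l 204))))) (T.c (T.b (T.a (T.c (T.b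 (T.l 1) (T.a (T.c (T.b (T.l 1) (T.l 204)) (T.b (T.l 1) (T.l 204))) (T.l 204))) (T.b (T.l 1) (T.a (T.c (T.b (T.l 1) (T.l 204)) (T.b (T.l 1) (T.l 204))) (T.l 204)))) (T.a (T.c (T.b (T.c (T.b (T.l 1) (T.l 204)) (T.b (T.l 1) (T.l 204))) (T.l 204)) (T.b (T.c (T.b (T.l 1) (T.l 204)) (T.b (T.l 1) (T.l 204))) (T.l 204))) (T.l 204))) (T.l 204)) (T.b (T.a (T.c (T.b (T.l 1) (T.a (T.c (T.b (T.l 1) (T.l 204)) (T.b (T.l 1) (T.l 204))) (T.l 204))) (T.b (T.l 1) (T.a (T.c (T.b (T.l 1) (T.l 204)) (T.b (T.l 1) (T.l 204))) (T.l 204)))) (T.a (T.c (T.b (T.c (T.b (T.l 1) (T.l 204)) (T.b (T.l 1) (T.l 204))) (T.l 204)) (T.b (T.c (T.b (T.l 1) (T.l 204)) (T.b (T.l 1) (T.l 204))) (T.l 204))) (T.l 204))) (T.l 204))))) (T.b (T.l 1) (T.a (T.c (T.b (T.l 1) (T.a (T.c (T.b (T.l 1) (T.a (T.c (T.b (T.l 1) (T.l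 204)) (T.b (T.l 1) (T.l 204))) (T.l 204))) (T.b (T.l 1) (T.a (T.c (T.b (T.l 1) (T.l 204)) (T.b (T.l 1) (T.l 204))) (T.l 204)))) (T.a (T.a (T.c (T.b (T.c (T.b (T.l 1) (T.l 204)) (T.b (T.l 1) (T.l 204))) (T.l 204)) (T.b (T.c (T.b (T.l 1) (T.l 204)) (T.b (T.l 1) (T.l 204))) (T.l 204))) (T.l 204)) (T.l 204)))) (T.b (T.l 1) (T.a (T.c (T.b (T.l 1) (T.a (T.c (T.b (T.l 1) (T.l 204)) (T.b (T.l 1) (T.l 204))) (T.l 204))) (T.b (T.l 1) (T.a (T.c (T.b (T.l 1) (T.l 204)) (T.b (T.l 1) (T.l 204))) (T.l 204)))) (T.a (T.a (T.c (T.b (T.c (T.b (T.l 1) (T.l 204)) (T.b (T.l 1) (T.l 204))) (T.l 204)) (T.b (T.c (T.b (T.l 1) (T.l 204)) (T.b (T.l 1) (T.l 204))) (T.l 204))) (T.l 204)) (T.l 204))))) (T.c (T.b (T.a (T.c (T.b (T.l 1) (T.a (T.c (T.b (T.l 1) (T.l 204)) (T.b (T.l 1) (T.l 204))) (T.l 204)))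 (T.b (T.l 1) (T.a (T.c (T.b (T.l 1) (T.l 204)) (T.b (T.l 1) (T.l 204))) (T.l 204)))) (T.a (T.c (T.b (T.c (T.b (T.l 1) (T.l 204)) (T.b (T.l 1) (T.l 204))) (T.l 204)) (T.b (T.c (T.b (T.l 1) (T.l 204)) (T.b (T.l 1) (T.l 204))) (T.l 204))) (T.l 204))) (T.l 204)) (T.b (T.a (T.c (T.b (T.l 1) (T.a (T.c (T.b (T.l 1) (T.l 204)) (T.b (T.l 1) (T.l 204))) (T.l 204))) (T.b (T.l 1) (T.a (T.c (T.b (T.l 1) (T.l 204)) (T.b (T.l 1) (T.l 204))) (T.l 204)))) (T.a (T.c (T.b (T.c (T.b (T.l 1) (T.l 204)) (T.b (T.l 1) (T.l 204))) (T.l 204)) (T.b (T.c (T.b (T.l 1) (T.l 204)) (T.b (T.l 1) (T.l 204))) (T.l 204))) (T.l 204))) (T.l 204)))))))), by decide +kernel⟩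

def B202R_040_3_680_2 :
    ∃ t, chk3 (onCell 0 33554432 0 1073741824 33554432 16777216 (corTK [] false 3 c0N cB202R gN0q2 gN4q2 gN0q0 gN1q0 true true)) t 3 680 2 = true :=
  ⟨(T.a (T.l 1) (T.a (T.l 1) (T.c (T.b (T.l 1) (T.c (T.b (T.l 1) (T.a (T.a (T.l 1) (T.a (T.l 1) (T.c (T.b (T.l 1) (T.c (T.b (T.l 1) (T.l 204)) (T.b (T.l 1) (T.l 204)))) (T.b (T.l 1) (T.c (T.b (T.l 1) (T.l 204)) (T.b (T.l 1) (T.l 204))))))) (T.c (T.b (T.a (T.l 1) (T.a (T.l 1) (T.c (T.b (T.l 1) (T.l 204)) (T.b (T.l 1) (T.l 204))))) (T.a (T.a (T.c (T.b (T.l 1) (T.l 204)) (T.b (T.l 1) (T.l 204))) (T.l 204)) (T.l 204))) (T.b (T.a (T.l 1) (T.a (T.l 1) (T.c (T.b (T.l 1) (T.l 204)) (T.b (T.l 1) (T.l 204))))) (T.a (T.a (T.c (T.b (T.l 1) (T.l 204)) (T.b (T.l 1) (T.l 204))) (T.l 204)) (T.l 204)))))) (T.b (T.l 1) (T.a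 (T.a (T.l 1) (T.a (T.l 1) (T.c (T.b (T.l 1) (T.c (T.b (T.l 1) (T.l 204)) (T.b (T.l 1) (T.l 204)))) (T.b (T.l 1) (T.c (T.b (T.l 1) (T.l 204)) (T.b (T.l 1) (T.l 204))))))) (T.c (T.b (T.a (T.l 1) (T.a (T.l 1) (T.c (T.b (T.l 1) (T.l 204)) (T.b (T.l 1) (T.l 204))))) (T.a (T.a (T.c (T.b (T.l 1) (T.l 204)) (T.b (T.l 1) (T.l 204))) (T.l 204)) (T.l 204))) (T.b (T.a (T.l 1) (T.a (T.l 1) (T.c (T.b (T.l 1) (T.l 204)) (T.b (T.l 1) (T.l 204))))) (T.a (T.a (T.c (T.b (T.l 1) (T.l 204)) (T.b (T.l 1) (T.l 204))) (T.l 204)) (T.l 204)))))))) (T.b (T.l 1) (T.c (T.b (T.l 1) (T.a (T.a (T.l 1) (T.a (T.l 1) (T.c (T.b (T.l 1) (T.c (T.b (T.l 1) (T.l 204)) (T.b (T.l 1) (T.l 204)))) (T.b (T.l 1) (T.c (T.b (T.l 1) (T.l 204)) (T.b (T.l 1) (T.l 204))))))) (T.c (T.b (T.a (T.l 1) (T.a (T.l 1) (T.c (T.b (T.l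 1) (T.l 204)) (T.b (T.l 1) (T.l 204))))) (T.a (T.a (T.c (T.b (T.l 1) (T.l 204)) (T.b (T.l 1) (T.l 204))) (T.l 204)) (T.l 204))) (T.b (T.a (T.l 1) (T.a (T.l 1) (T.c (T.b (T.l 1) (T.l 204)) (T.b (T.l 1) (T.l 204))))) (T.a (T.a (T.c (T.b (T.l 1) (T.l 204)) (T.b (T.l 1) (T.l 204))) (T.l 204)) (T.l 204)))))) (T.b (T.l 1) (T.a (T.a (T.l 1) (T.a (T.l 1) (T.c (T.b (T.l 1) (T.c (T.b (T.l 1) (T.l 204)) (T.b (T.l 1) (T.l 204)))) (T.b (T.l 1) (T.c (T.b (T.l 1) (T.l 204)) (T.b (T.l 1) (T.l 204))))))) (T.c (T.b (T.a (T.l 1) (T.a (T.l 1) (T.c (T.b (T.l 1) (T.l 204)) (T.b (T.l 1) (T.l 204))))) (T.a (T.a (T.c (T.b (T.l 1) (T.l 204)) (T.b (T.l 1) (T.l 204))) (T.l 204)) (T.l 204))) (T.b (T.a (T.l 1) (T.a (T.l 1) (T.c (T.b (T.l 1) (T.l 204)) (T.b (T.l 1) (T.l 204))))) (T.a (T.a (T.c (T.b (T.l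 1) (T.l 204)) (T.b (T.l 1) (T.l 204))) (T.l 204)) (T.l 204))))))))))), by decide +kernel⟩

def B202R_040_6_1362_4 :
    ∃ t, chk3 (onCell 0 33554432 0 1073741824 33554432 16777216 (corTK [] false 3 c0N cB202R gN0q2 gN4q2 gN0q0 gN1q0 true true)) t 6 1362 4 = true :=
  ⟨(T.a (T.l 1) (T.c (T.b (T.l 1) (T.a (T.c (T.b (T.l 1) (T.a (T.a (T.l 1) (T.a (T.l 1) (T.c (T.b (T.l 1) (T.c (T.b (T.l 1) (T.l 204)) (T.b (T.l 1) (T.l 204)))) (T.b (T.l 1) (T.c (T.b (T.l 1) (T.l 204)) (T.b (T.l 1) (T.l 204))))))) (T.c (T.b (T.a (T.l 1) (T.c (T.b (T.l 1) (T.l 204)) (T.b (T.l 1) (T.l 204)))) (T.l 204)) (T.b (T.a (T.l 1) (T.c (T.b (T.l 1) (T.l 204)) (T.b (T.l 1) (T.l 204)))) (T.l 204))))) (T.b (T.l 1) (T.a (T.a (T.l 1) (T.a (T.l 1) (T.c (T.b (T.l 1) (T.c (T.b (T.l 1) (T.l 204)) (T.b (T.l 1) (T.l 204))))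 (T.b (T.l 1) (T.c (T.b (T.l 1) (T.l 204)) (T.b (T.l 1) (T.l 204))))))) (T.c (T.b (T.a (T.l 1) (T.c (T.b (T.l 1) (T.l 204)) (T.b (T.l 1) (T.l 204)))) (T.l 204)) (T.b (T.a (T.l 1) (T.c (T.b (T.l 1) (T.l 204)) (T.b (T.l 1) (T.l 204)))) (T.l 204)))))) (T.c (T.b (T.a (T.l 1) (T.c (T.b (T.l 1) (T.a (T.c (T.b (T.l 1) (T.l 204)) (T.b (T.l 1) (T.l 204))) (T.l 204))) (T.b (T.l 1) (T.a (T.c (T.b (T.l 1) (T.l 204)) (T.b (T.l 1) (T.l 204))) (T.l 204))))) (T.a (T.a (T.a (T.l 204) (T.l 204)) (T.l 204)) (T.l 204))) (T.b (T.a (T.l 1) (T.c (T.b (T.l 1) (T.a (T.c (T.b (T.l 1) (T.l 204)) (T.b (T.l 1) (T.l 204))) (T.l 204))) (T.b (T.l 1) (T.a (T.c (T.b (T.l 1) (T.l 204)) (T.b (T.l 1) (T.l 204))) (T.l 204))))) (T.a (T.a (T.a (T.l 204) (T.l 204)) (T.l 204)) (T.l 204)))))) (T.b (T.l 1) (T.a (T.c (T.b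 (T.l 1) (T.a (T.a (T.l 1) (T.a (T.l 1) (T.c (T.b (T.l 1) (T.c (T.b (T.l 1) (T.l 204)) (T.b (T.l 1) (T.l 204)))) (T.b (T.l 1) (T.c (T.b (T.l 1) (T.l 204)) (T.b (T.l 1) (T.l 204))))))) (T.c (T.b (T.a (T.l 1) (T.c (T.b (T.l 1) (T.l 204)) (T.b (T.l 1) (T.l 204)))) (T.l 204)) (T.b (T.a (T.l 1) (T.c (T.b (T.l 1) (T.l 204)) (T.b (T.l 1) (T.l 204)))) (T.l 204))))) (T.b (T.l 1) (T.a (T.a (T.l 1) (T.a (T.l 1) (T.c (T.b (T.l 1) (T.c (T.b (T.l 1) (T.l 204)) (T.b (T.l 1) (T.l 204)))) (T.b (T.l 1) (T.c (T.b (T.l 1) (T.l 204)) (T.b (T.l 1) (T.l 204))))))) (T.c (T.b (T.a (T.l 1) (T.c (T.b (T.l 1) (T.l 204)) (T.b (T.l 1) (T.l 204)))) (T.l 204)) (T.b (T.a (T.l 1) (T.c (T.b (T.l 1) (T.l 204)) (T.b (T.l 1) (T.l 204)))) (T.l 204)))))) (T.c (T.b (T.a (T.l 1) (T.c (T.b (T.l 1) (T.a (T.c (T.b (T.l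 1) (T.l 204)) (T.b (T.l 1) (T.l 204))) (T.l 204))) (T.b (T.l 1) (T.a (T.c (T.b (T.l 1) (T.l 204)) (T.b (T.l 1) (T.l 204))) (T.l 204))))) (T.a (T.a (T.a (T.l 204) (T.l 204)) (T.l 204)) (T.l 204))) (T.b (T.a (T.l 1) (T.c (T.b (T.l 1) (T.a (T.c (T.b (T.l 1) (T.l 204)) (T.b (T.l 1) (T.l 204))) (T.l 204))) (T.b (T.l 1) (T.a (T.c (T.b (T.l 1) (T.l 204)) (T.b (T.l 1) (T.l 204))) (T.l 204))))) (T.a (T.a (T.l 204) (T.l 204)) (T.l 204)))))))), by decide +kernel⟩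

def B202R_040_6_1363_4 :
    ∃ t, chk3 (onCell 0 33554432 0 1073741824 33554432 16777216 (corTK [] false 3 c0N cB202R gN0q2 gN4q2 gN0q0 gN1q0 true true)) t 6 1363 4 = true :=
  ⟨(T.a (T.c (T.b (T.a (T.c (T.b (T.l 1) (T.a (T.c (T.b (T.l 1) (T.a (T.c (T.b (T.l 1) (T.a (T.l 1) (T.l 204))) (T.b (T.l 1) (T.a (T.l 1) (T.l 204)))) (T.a (T.c (T.b (T.l 1) (T.l 204)) (T.b (T.l 1) (T.l 204))) (T.l 204)))) (T.b (T.l 1) (T.a (T.c (T.b (T.l 1) (T.a (T.l 1) (T.l 204))) (T.b (T.l 1) (T.a (T.l 1) (T.l 204)))) (T.a (T.c (T.b (T.l 1) (T.l 204)) (T.b (T.l 1) (T.l 204))) (T.l 204))))) (T.c (T.b (T.a (T.l 1) (T.c (T.b (T.l 1) (T.l 204)) (T.b (T.l 1) (T.l 204)))) (T.l 204)) (T.b (T.a (T.l 1) (T.c (T.b (T.l 1) (T.l 204)) (T.b (T.l 1) (T.l 204)))) (T.l 204))))) (T.b (T.l 1) (T.a (T.c (T.b (T.l 1)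 (T.a (T.c (T.b (T.l 1) (T.a (T.l 1) (T.l 204))) (T.b (T.l 1) (T.a (T.l 1) (T.l 204)))) (T.a (T.c (T.b (T.l 1) (T.l 204)) (T.b (T.l 1) (T.l 204))) (T.l 204)))) (T.b (T.l 1) (T.a (T.c (T.b (T.l 1) (T.a (T.l 1) (T.l 204))) (T.b (T.l 1) (T.a (T.l 1) (T.l 204)))) (T.a (T.c (T.b (T.l 1) (T.l 204)) (T.b (T.l 1) (T.l 204))) (T.l 204))))) (T.c (T.b (T.a (T.l 1) (T.c (T.b (T.l 1) (T.l 204)) (T.b (T.l 1) (T.l 204)))) (T.l 204)) (T.b (T.a (T.l 1) (T.c (T.b (T.l 1) (T.l 204)) (T.b (T.l 1) (T.l 204)))) (T.l 204)))))) (T.c (T.b (T.a (T.a (T.l 1) (T.c (T.b (T.l 1) (T.c (T.b (T.l 1) (T.l 204)) (T.b (T.l 1) (T.l 204)))) (T.b (T.l 1) (T.c (T.b (T.l 1) (T.l 204)) (T.b (T.l 1) (T.l 204)))))) (T.c (T.b (T.a (T.l 1) (T.c (T.b (T.l 1) (T.l 204)) (T.b (T.l 1) (T.l 204)))) (T.l 204)) (T.b (T.a (T.l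 1) (T.c (T.b (T.l 1) (T.l 204)) (T.b (T.l 1) (T.l 204)))) (T.l 204)))) (T.l 204)) (T.b (T.a (T.a (T.l 1) (T.c (T.b (T.l 1) (T.c (T.b (T.l 1) (T.l 204)) (T.b (T.l 1) (T.l 204)))) (T.b (T.l 1) (T.c (T.b (T.l 1) (T.l 204)) (T.b (T.l 1) (T.l 204)))))) (T.c (T.b (T.a (T.l 1) (T.c (T.b (T.l 1) (T.l 204)) (T.b (T.l 1) (T.l 204)))) (T.l 204)) (T.b (T.a (T.l 1) (T.c (T.b (T.l 1) (T.l 204)) (T.b (T.l 1) (T.l 204)))) (T.l 204)))) (T.l 204)))) (T.a (T.l 204) (T.l 204))) (T.b (T.a (T.c (T.b (T.l 1) (T.a (T.c (T.b (T.l 1) (T.a (T.c (T.b (T.l 1) (T.a (T.l 1) (T.l 204))) (T.b (T.l 1) (T.a (T.l 1) (T.l 204)))) (T.a (T.c (T.b (T.l 1) (T.l 204)) (T.b (T.l 1) (T.l 204))) (T.l 204)))) (T.b (T.l 1) (T.a (T.c (T.b (T.l 1) (T.a (T.l 1) (T.l 204))) (T.b (T.l 1) (T.a (T.l 1) (T.l 204)))) (T.a (T.c (T.b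 (T.l 1) (T.l 204)) (T.b (T.l 1) (T.l 204))) (T.l 204))))) (T.c (T.b (T.a (T.l 1) (T.c (T.b (T.l 1) (T.l 204)) (T.b (T.l 1) (T.l 204)))) (T.l 204)) (T.b (T.a (T.l 1) (T.c (T.b (T.l 1) (T.l 204)) (T.b (T.l 1) (T.l 204)))) (T.l 204))))) (T.b (T.l 1) (T.a (T.c (T.b (T.l 1) (T.a (T.c (T.b (T.l 1) (T.a (T.l 1) (T.l 204))) (T.b (T.l 1) (T.a (T.l 1) (T.l 204)))) (T.a (T.c (T.b (T.l 1) (T.l 204)) (T.b (T.l 1) (T.l 204))) (T.l 204)))) (T.b (T.l 1) (T.a (T.c (T.b (T.l 1) (T.l 204)) (T.b (T.l 1) (T.l 204))) (T.a (T.c (T.b (T.l 1) (T.l 204)) (T.b (T.l 1) (T.l 204))) (T.l 204))))) (T.c (T.b (T.a (T.l 1) (T.c (T.b (T.l 1) (T.l 204)) (T.b (T.l 1) (T.l 204)))) (T.l 204)) (T.b (T.a (T.l 1) (T.c (T.b (T.l 1) (T.l 204)) (T.b (T.l 1) (T.l 204)))) (T.l 204)))))) (T.c (T.b (T.a (T.a (T.l 1) (T.c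 (T.b (T.l 1) (T.c (T.b (T.l 1) (T.l 204)) (T.b (T.l 1) (T.l 204)))) (T.b (T.l 1) (T.c (T.b (T.l 1) (T.l 204)) (T.b (T.l 1) (T.l 204)))))) (T.c (T.b (T.a (T.l 1) (T.c (T.b (T.l 1) (T.l 204)) (T.b (T.l 1) (T.l 204)))) (T.l 204)) (T.b (T.a (T.l 1) (T.c (T.b (T.l 1) (T.l 204)) (T.b (T.l 1) (T.l 204)))) (T.l 204)))) (T.l 204)) (T.b (T.a (T.a (T.l 1) (T.c (T.b (T.l 1) (T.c (T.b (T.l 1) (T.l 204)) (T.b (T.l 1) (T.l 204)))) (T.b (T.l 1) (T.c (T.b (T.l 1) (T.l 204)) (T.b (T.l 1) (T.l 204)))))) (T.c (T.b (T.a (T.l 1) (T.c (T.b (T.l 1) (T.l 204)) (T.b (T.l 1) (T.l 204)))) (T.l 204)) (T.b (T.a (T.l 1) (T.c (T.b (T.l 1) (T.l 204)) (T.b (T.l 1) (T.l 204)))) (T.l 204)))) (T.l 204)))) (T.a (T.l 204) (T.l 204)))) (T.a (T.a (T.c (T.l 204) (T.l 204)) (T.l 204)) (T.l 204))), by decide +kernel⟩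

def B202R_040_6_1362_5 :
    ∃ t, chk3 (onCell 0 33554432 0 1073741824 33554432 16777216 (corTK [] false 3 c0N cB202R gN0q2 gN4q2 gN0q0 gN1q0 true true)) t 6 1362 5 = true :=
  ⟨(T.a (T.l 1) (T.c (T.b (T.l 1) (T.a (T.c (T.b (T.l 1) (T.a (T.a (T.l 1) (T.a (T.l 1) (T.c (T.b (T.l 1) (T.c (T.b (T.l 1) (T.l 204)) (T.b (T.l 1) (T.l 204)))) (T.b (T.l 1) (T.c (T.b (T.l 1) (T.l 204)) (T.b (T.l 1) (T.l 204))))))) (T.c (T.b (T.a (T.l 1) (T.c (T.b (T.l 1) (T.l 204)) (T.b (T.l 1) (T.l 204)))) (T.l 204)) (T.b (T.a (T.l 1) (T.c (T.b (T.l 1) (T.l 204)) (T.b (T.l 1) (T.l 204)))) (T.l 204))))) (T.b (T.l 1) (T.a (T.a (T.l 1) (T.a (T.l 1) (T.c (T.b (T.l 1) (T.c (T.b (T.l 1) (T.l 204)) (T.b (T.l 1) (T.l 204)))) (T.b (T.l 1) (T.c (T.b (T.l 1) (T.l 204)) (T.b (T.l 1) (T.l 204))))))) (T.c (T.b (T.a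 (T.l 1) (T.c (T.b (T.l 1) (T.l 204)) (T.b (T.l 1) (T.l 204)))) (T.l 204)) (T.b (T.a (T.l 1) (T.c (T.b (T.l 1) (T.l 204)) (T.b (T.l 1) (T.l 204)))) (T.l 204)))))) (T.c (T.b (T.a (T.l 1) (T.c (T.b (T.l 1) (T.a (T.c (T.b (T.l 1) (T.l 204)) (T.b (T.l 1) (T.l 204))) (T.l 204))) (T.b (T.l 1) (T.a (T.c (T.b (T.l 1) (T.l 204)) (T.b (T.l 1) (T.l 204))) (T.l 204))))) (T.a (T.a (T.l 204) (T.l 204)) (T.l 204))) (T.b (T.a (T.l 1) (T.c (T.b (T.l 1) (T.a (T.c (T.b (T.l 1) (T.l 204)) (T.b (T.l 1) (T.l 204))) (T.l 204))) (T.b (T.l 1) (T.a (T.c (T.b (T.l 1) (T.l 204)) (T.b (T.l 1) (T.l 204))) (T.l 204))))) (T.a (T.a (T.l 204) (T.l 204)) (T.l 204)))))) (T.b (T.l 1) (T.a (T.c (T.b (T.l 1) (T.a (T.a (T.l 1) (T.a (T.l 1) (T.c (T.b (T.l 1) (T.c (T.b (T.l 1) (T.l 204)) (T.b (T.l 1) (T.l 204)))) (T.b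 (T.l 1) (T.c (T.b (T.l 1) (T.l 204)) (T.b (T.l 1) (T.l 204))))))) (T.c (T.b (T.a (T.l 1) (T.c (T.b (T.l 1) (T.l 204)) (T.b (T.l 1) (T.l 204)))) (T.l 204)) (T.b (T.a (T.l 1) (T.c (T.b (T.l 1) (T.l 204)) (T.b (T.l 1) (T.l 204)))) (T.l 204))))) (T.b (T.l 1) (T.a (T.a (T.l 1) (T.a (T.l 1) (T.c (T.b (T.l 1) (T.c (T.b (T.l 1) (T.l 204)) (T.b (T.l 1) (T.l 204)))) (T.b (T.l 1) (T.c (T.b (T.l 1) (T.l 204)) (T.b (T.l 1) (T.l 204))))))) (T.c (T.b (T.a (T.l 1) (T.c (T.b (T.l 1) (T.l 204)) (T.b (T.l 1) (T.l 204)))) (T.l 204)) (T.b (T.a (T.l 1) (T.c (T.b (T.l 1) (T.l 204)) (T.b (T.l 1) (T.l 204)))) (T.l 204)))))) (T.c (T.b (T.a (T.l 1) (T.c (T.b (T.l 1) (T.a (T.c (T.b (T.l 1) (T.l 204)) (T.b (T.l 1) (T.l 204))) (T.l 204))) (T.b (T.l 1) (T.a (T.c (T.b (T.l 1) (T.l 204)) (T.b (T.l 1) (T.l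 204))) (T.l 204))))) (T.a (T.a (T.l 204) (T.l 204)) (T.l 204))) (T.b (T.a (T.l 1) (T.c (T.b (T.l 1) (T.a (T.c (T.b (T.l 1) (T.l 204)) (T.b (T.l 1) (T.l 204))) (T.l 204))) (T.b (T.l 1) (T.a (T.c (T.b (T.l 1) (T.l 204)) (T.b (T.l 1) (T.l 204))) (T.l 204))))) (T.a (T.a (T.l 204) (T.l 204)) (T.l 204)))))))), by decide +kernel⟩

def B202R_040_6_1363_5 :
    ∃ t, chk3 (onCell 0 33554432 0 1073741824 33554432 16777216 (corTK [] false 3 c0N cB202R gN0q2 gN4q2 gN0q0 gN1q0 true true)) t 6 1363 5 = true :=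
  ⟨(T.a (T.c (T.b (T.a (T.c (T.b (T.l 1) (T.a (T.c (T.b (T.l 1) (T.a (T.c (T.b (T.l 1) (T.l 204)) (T.b (T.l 1) (T.l 204))) (T.a (T.c (T.b (T.l 1) (T.l 204)) (T.b (T.l 1) (T.l 204))) (T.l 204)))) (T.b (T.l 1) (T.a (T.c (T.b (T.l 1) (T.l 204)) (T.b (T.l 1) (T.l 204))) (T.a (T.c (T.b (T.l 1) (T.l 204)) (T.b (T.l 1) (T.l 204))) (T.l 204))))) (T.c (T.b (T.a (T.l 1) (T.c (T.b (T.l 1) (T.l 204)) (T.b (T.l 1) (T.l 204)))) (T.l 204)) (T.b (T.a (T.l 1) (T.c (T.b (T.l 1) (T.l 204)) (T.b (T.l 1) (T.l 204)))) (T.l 204))))) (T.b (T.l 1) (T.a (T.c (T.b (T.l 1) (T.a (T.c (T.b (T.l 1) (T.l 204)) (T.b (T.l 1) (T.l 204))) (T.a (T.c (T.b (T.l 1) (T.l 204)) (T.b (T.l 1) (T.l 204))) (T.l 204)))) (T.b (T.l 1) (T.a (T.c (T.b (T.l 1) (T.l 204)) (T.b (T.l 1) (T.l 204))) (T.a (T.c (T.b (T.l 1) (T.l 204))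 (T.b (T.l 1) (T.l 204))) (T.l 204))))) (T.c (T.b (T.a (T.l 1) (T.c (T.b (T.l 1) (T.l 204)) (T.b (T.l 1) (T.l 204)))) (T.l 204)) (T.b (T.a (T.l 1) (T.c (T.b (T.l 1) (T.l 204)) (T.b (T.l 1) (T.l 204)))) (T.l 204)))))) (T.c (T.b (T.a (T.a (T.l 1) (T.c (T.b (T.l 1) (T.c (T.b (T.l 1) (T.l 204)) (T.b (T.l 1) (T.l 204)))) (T.b (T.l 1) (T.c (T.b (T.l 1) (T.l 204)) (T.b (T.l 1) (T.l 204)))))) (T.c (T.b (T.a (T.l 1) (T.c (T.b (T.l 1) (T.l 204)) (T.b (T.l 1) (T.l 204)))) (T.l 204)) (T.b (T.a (T.l 1) (T.c (T.b (T.l 1) (T.l 204)) (T.b (T.l 1) (T.l 204)))) (T.l 204)))) (T.l 204)) (T.b (T.a (T.a (T.l 1) (T.c (T.b (T.l 1) (T.c (T.b (T.l 1) (T.l 204)) (T.b (T.l 1) (T.l 204)))) (T.b (T.l 1) (T.c (T.b (T.l 1) (T.l 204)) (T.b (T.l 1) (T.l 204)))))) (T.c (T.b (T.a (T.l 1) (T.c (T.b (T.l 1) (T.l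 204)) (T.b (T.l 1) (T.l 204)))) (T.l 204)) (T.b (T.a (T.l 1) (T.c (T.b (T.l 1) (T.l 204)) (T.b (T.l 1) (T.l 204)))) (T.l 204)))) (T.l 204)))) (T.a (T.l 204) (T.l 204))) (T.b (T.a (T.c (T.b (T.l 1) (T.a (T.c (T.b (T.l 1) (T.a (T.c (T.b (T.l 1) (T.l 204)) (T.b (T.l 1) (T.l 204))) (T.a (T.c (T.b (T.l 1) (T.l 204)) (T.b (T.l 1) (T.l 204))) (T.l 204)))) (T.b (T.l 1) (T.a (T.c (T.b (T.l 1) (T.l 204)) (T.b (T.l 1) (T.l 204))) (T.a (T.c (T.b (T.l 1) (T.l 204)) (T.b (T.l 1) (T.l 204))) (T.l 204))))) (T.c (T.b (T.a (T.l 1) (T.c (T.b (T.l 1) (T.l 204)) (T.b (T.l 1) (T.l 204)))) (T.l 204)) (T.b (T.a (T.l 1) (T.c (T.b (T.l 1) (T.l 204)) (T.b (T.l 1) (T.l 204)))) (T.l 204))))) (T.b (T.l 1) (T.a (T.c (T.b (T.l 1) (T.a (T.c (T.b (T.l 1) (T.l 204)) (T.b (T.l 1) (T.l 204))) (T.a (T.c (T.b (T.l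 1) (T.l 204)) (T.b (T.l 1) (T.l 204))) (T.l 204)))) (T.b (T.l 1) (T.a (T.c (T.b (T.l 1) (T.l 204)) (T.b (T.l 1) (T.l 204))) (T.a (T.a (T.l 204) (T.l 204)) (T.l 204))))) (T.c (T.b (T.a (T.l 1) (T.c (T.b (T.l 1) (T.l 204)) (T.b (T.l 1) (T.l 204)))) (T.l 204)) (T.b (T.a (T.l 1) (T.c (T.b (T.l 1) (T.l 204)) (T.b (T.l 1) (T.l 204)))) (T.l 204)))))) (T.c (T.b (T.a (T.a (T.l 1) (T.c (T.b (T.l 1) (T.c (T.b (T.l 1) (T.l 204)) (T.b (T.l 1) (T.l 204)))) (T.b (T.l 1) (T.c (T.b (T.l 1) (T.l 204)) (T.b (T.l 1) (T.l 204)))))) (T.c (T.b (T.a (T.l 1) (T.c (T.b (T.l 1) (T.l 204)) (T.b (T.l 1) (T.l 204)))) (T.l 204)) (T.b (T.a (T.l 1) (T.c (T.b (T.l 1) (T.l 204)) (T.b (T.l 1) (T.l 204)))) (T.l 204)))) (T.l 204)) (T.b (T.a (T.a (T.l 1) (T.c (T.b (T.l 1) (T.c (T.b (T.l 1) (T.l 204)) (T.b (T.l 1)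 (T.l 204)))) (T.b (T.l 1) (T.c (T.b (T.l 1) (T.l 204)) (T.b (T.l 1) (T.l 204)))))) (T.c (T.b (T.a (T.l 1) (T.c (T.b (T.l 1) (T.l 204)) (T.b (T.l 1) (T.l 204)))) (T.l 204)) (T.b (T.a (T.l 1) (T.c (T.b (T.l 1) (T.l 204)) (T.b (T.l 1) (T.l 204)))) (T.l 204)))) (T.l 204)))) (T.a (T.l 204) (T.l 204)))) (T.a (T.a (T.c (T.l 204) (T.l 204)) (T.l 204)) (T.l 204))), by decide +kernel⟩

def B202R_040_7_681_2 :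
    ∃ t, chk3 (onCell 0 33554432 0 1073741824 33554432 16777216 (corTK [] false 3 c0N cB202R gN0q2 gN4q2 gN0q0 gN1q0 true true)) t 7 681 2 = true :=
  ⟨(T.a (T.c (T.b (T.c (T.b (T.a (T.a (T.l 1) (T.c (T.b (T.l 1) (T.c (T.b (T.l 1) (T.a (T.a (T.l 1) (T.l 204)) (T.l 204))) (T.b (T.l 1) (T.a (T.a (T.l 1) (T.l 204)) (T.l 204))))) (T.b (T.l 1) (T.c (T.b (T.l 1) (T.a (T.a (T.l 1) (T.l 204)) (T.l 204))) (T.b (T.l 1) (T.a (T.a (T.l 1) (T.l 204)) (T.l 204))))))) (T.c (T.b (T.a (T.l 1) (T.c (T.b (T.l 1) (T.a (T.a (T.l 1) (T.l 204)) (T.l 204))) (T.b (T.l 1) (T.a (T.a (T.l 1) (T.l 204)) (T.l 204))))) (T.a (T.a (T.c (T.b (T.a (T.l 1) (T.l 204)) (T.l 204)) (T.b (T.a (T.l 1) (T.l 204)) (T.l 204))) (T.l 204)) (T.l 204))) (T.b (T.a (T.l 1) (T.c (T.b (T.l 1) (T.a (T.a (T.l 1) (T.l 204)) (T.l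 204))) (T.b (T.l 1) (T.a (T.a (T.l 1) (T.l 204)) (T.l 204))))) (T.a (T.a (T.c (T.b (T.a (T.l 1) (T.l 204)) (T.l 204)) (T.a (T.b (T.l 1) (T.l 204)) (T.l 204))) (T.l 204)) (T.l 204))))) (T.a (T.a (T.a (T.a (T.c (T.a (T.b (T.c (T.b (T.l 1) (T.l 204)) (T.b (T.l 1) (T.l 204))) (T.l 204)) (T.l 204)) (T.a (T.b (T.c (T.b (T.l 1) (T.l 204)) (T.b (T.l 1) (T.l 204))) (T.l 204)) (T.l 204))) (T.l 204)) (T.l 204)) (T.l 204)) (T.l 204))) (T.b (T.a (T.a (T.l 1) (T.c (T.b (T.l 1) (T.c (T.b (T.l 1) (T.a (T.a (T.l 1) (T.l 204)) (T.l 204))) (T.b (T.l 1) (T.a (T.a (T.l 1) (T.l 204)) (T.l 204))))) (T.b (T.l 1) (T.c (T.b (T.l 1) (T.a (T.a (T.l 1) (T.l 204)) (T.l 204))) (T.b (T.l 1) (T.a (T.a (T.l 1) (T.l 204)) (T.l 204))))))) (T.c (T.b (T.a (T.l 1) (T.c (T.b (T.l 1) (T.a (T.a (T.l 1) (T.l 204)) (T.l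 204))) (T.b (T.l 1) (T.a (T.a (T.l 1) (T.l 204)) (T.l 204))))) (T.a (T.a (T.a (T.c (T.b (T.l 1) (T.l 204)) (T.b (T.l 1) (T.l 204))) (T.l 204)) (T.l 204)) (T.l 204))) (T.b (T.a (T.l 1) (T.c (T.b (T.l 1) (T.a (T.a (T.l 1) (T.l 204)) (T.l 204))) (T.b (T.l 1) (T.a (T.a (T.l 1) (T.l 204)) (T.l 204))))) (T.a (T.a (T.a (T.c (T.b (T.l 1) (T.l 204)) (T.b (T.l 1) (T.l 204))) (T.l 204)) (T.l 204)) (T.l 204))))) (T.a (T.a (T.a (T.a (T.a (T.c (T.b (T.c (T.b (T.l 1) (T.l 204)) (T.b (T.l 1) (T.l 204))) (T.l 204)) (T.b (T.c (T.b (T.l 1) (T.l 204)) (T.b (T.l 1) (T.l 204))) (T.l 204))) (T.l 204)) (T.l 204)) (T.l 204)) (T.l 204)) (T.l 204)))) (T.a (T.l 204) (T.l 204))) (T.b (T.c (T.b (T.a (T.a (T.l 1) (T.c (T.b (T.l 1) (T.c (T.b (T.l 1) (T.a (T.a (T.l 1) (T.l 204)) (T.l 204))) (T.b (T.l 1) (T.a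 (T.a (T.l 1) (T.l 204)) (T.l 204))))) (T.b (T.l 1) (T.c (T.b (T.l 1) (T.a (T.a (T.l 1) (T.l 204)) (T.l 204))) (T.b (T.l 1) (T.a (T.a (T.l 1) (T.l 204)) (T.l 204))))))) (T.c (T.b (T.a (T.l 1) (T.c (T.b (T.l 1) (T.a (T.a (T.l 1) (T.l 204)) (T.l 204))) (T.b (T.l 1) (T.a (T.a (T.l 1) (T.l 204)) (T.l 204))))) (T.a (T.a (T.a (T.c (T.b (T.l 1) (T.l 204)) (T.b (T.l 1) (T.l 204))) (T.l 204)) (T.l 204)) (T.l 204))) (T.b (T.a (T.l 1) (T.c (T.b (T.l 1) (T.a (T.a (T.l 1) (T.l 204)) (T.l 204))) (T.b (T.l 1) (T.a (T.a (T.l 1) (T.l 204)) (T.l 204))))) (T.a (T.a (T.a (T.c (T.b (T.l 1) (T.l 204)) (T.b (T.l 1) (T.l 204))) (T.l 204)) (T.l 204)) (T.l 204))))) (T.a (T.a (T.a (T.a (T.a (T.c (T.b (T.c (T.b (T.l 1) (T.l 204)) (T.b (T.l 1) (T.l 204))) (T.l 204)) (T.b (T.c (T.b (T.l 1) (T.l 204)) (T.b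 (T.l 1) (T.l 204))) (T.l 204))) (T.l 204)) (T.l 204)) (T.l 204)) (T.l 204)) (T.l 204))) (T.b (T.a (T.a (T.l 1) (T.c (T.b (T.l 1) (T.c (T.b (T.l 1) (T.a (T.a (T.l 1) (T.l 204)) (T.l 204))) (T.b (T.l 1) (T.a (T.a (T.l 1) (T.l 204)) (T.l 204))))) (T.b (T.l 1) (T.c (T.b (T.l 1) (T.a (T.a (T.l 1) (T.l 204)) (T.l 204))) (T.b (T.l 1) (T.a (T.a (T.l 1) (T.l 204)) (T.l 204))))))) (T.c (T.b (T.a (T.l 1) (T.c (T.b (T.l 1) (T.a (T.a (T.l 1) (T.l 204)) (T.l 204))) (T.b (T.l 1) (T.a (T.a (T.l 1) (T.l 204)) (T.l 204))))) (T.a (T.a (T.a (T.c (T.b (T.l 1) (T.l 204)) (T.b (T.l 1) (T.l 204))) (T.l 204)) (T.l 204)) (T.l 204))) (T.b (T.a (T.l 1) (T.c (T.b (T.l 1) (T.a (T.a (T.l 1) (T.l 204)) (T.l 204))) (T.b (T.l 1) (T.a (T.a (T.l 1) (T.l 204)) (T.l 204))))) (T.a (T.a (T.a (T.c (T.b (T.l 1) (T.l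 204)) (T.b (T.l 1) (T.l 204))) (T.l 204)) (T.l 204)) (T.l 204))))) (T.a (T.a (T.a (T.a (T.a (T.c (T.b (T.c (T.b (T.l 1) (T.l 204)) (T.b (T.l 1) (T.l 204))) (T.l 204)) (T.b (T.c (T.b (T.l 1) (T.l 204)) (T.b (T.l 1) (T.l 204))) (T.l 204))) (T.l 204)) (T.l 204)) (T.l 204)) (T.l 204)) (T.l 204)))) (T.a (T.l 204) (T.l 204)))) (T.a (T.a (T.a (T.c (T.b (T.a (T.c (T.b (T.c (T.b (T.c (T.b (T.l 1) (T.l 204)) (T.b (T.l 1) (T.l 204))) (T.l 204)) (T.b (T.c (T.b (T.l 1) (T.l 204)) (T.b (T.l 1) (T.l 204))) (T.l 204))) (T.l 204)) (T.b (T.c (T.b (T.c (T.b (T.l 1) (T.l 204)) (T.b (T.l 1) (T.l 204))) (T.l 204)) (T.a (T.b (T.c (T.b (T.l 1) (T.l 204)) (T.b (T.l 1) (T.l 204))) (T.l 204)) (T.l 204))) (T.l 204))) (T.l 204)) (T.l 204)) (T.b (T.a (T.c (T.b (T.a (T.c (T.b (T.c (T.b (T.l 1) (T.l 204))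 (T.b (T.l 1) (T.l 204))) (T.l 204)) (T.b (T.c (T.b (T.l 1) (T.l 204)) (T.b (T.l 1) (T.l 204))) (T.l 204))) (T.l 204)) (T.l 204)) (T.b (T.a (T.c (T.b (T.c (T.b (T.l 1) (T.l 204)) (T.b (T.l 1) (T.l 204))) (T.l 204)) (T.b (T.c (T.b (T.l 1) (T.l 204)) (T.b (T.l 1) (T.l 204))) (T.l 204))) (T.l 204)) (T.l 204))) (T.l 204)) (T.l 204))) (T.l 204)) (T.l 204)) (T.l 204))), by decide +kernel⟩

def B202R_040_3_680_3 :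
    ∃ t, chk3 (onCell 0 33554432 0 1073741824 33554432 16777216 (corTK [] false 3 c0N cB202R gN0q2 gN4q2 gN0q0 gN1q0 true true)) t 3 680 3 = true :=
  ⟨(T.a (T.l 1) (T.a (T.l 1) (T.c (T.b (T.l 1) (T.c (T.b (T.l 1) (T.a (T.a (T.l 1) (T.a (T.l 1) (T.c (T.b (T.l 1) (T.c (T.b (T.l 1) (T.l 204)) (T.b (T.l 1) (T.l 204)))) (T.b (T.l 1) (T.c (T.b (T.l 1) (T.l 204)) (T.b (T.l 1) (T.l 204))))))) (T.c (T.b (T.a (T.l 1) (T.a (T.l 1) (T.c (T.b (T.l 1) (T.l 204)) (T.b (T.l 1) (T.l 204))))) (T.a (T.a (T.c (T.b (T.l 1) (T.l 204)) (T.b (T.l 1) (T.l 204))) (T.l 204)) (T.l 204))) (T.b (T.a (T.l 1) (T.a (T.l 1) (T.c (T.b (T.l 1) (T.l 204)) (T.b (T.l 1) (T.l 204))))) (T.a (T.a (T.c (T.b (T.l 1) (T.l 204)) (T.b (T.l 1) (T.l 204))) (T.l 204)) (T.l 204)))))) (T.b (T.l 1) (T.a (T.a (T.l 1) (T.a (T.l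 1) (T.c (T.b (T.l 1) (T.c (T.b (T.l 1) (T.l 204)) (T.b (T.l 1) (T.l 204)))) (T.b (T.l 1) (T.c (T.b (T.l 1) (T.l 204)) (T.b (T.l 1) (T.l 204))))))) (T.c (T.b (T.a (T.l 1) (T.a (T.l 1) (T.c (T.b (T.l 1) (T.l 204)) (T.b (T.l 1) (T.l 204))))) (T.a (T.a (T.c (T.b (T.l 1) (T.l 204)) (T.b (T.l 1) (T.l 204))) (T.l 204)) (T.l 204))) (T.b (T.a (T.l 1) (T.a (T.l 1) (T.c (T.b (T.l 1) (T.l 204)) (T.b (T.l 1) (T.l 204))))) (T.a (T.a (T.c (T.b (T.l 1) (T.l 204)) (T.b (T.l 1) (T.l 204))) (T.l 204)) (T.l 204)))))))) (T.b (T.l 1) (T.c (T.b (T.l 1) (T.a (T.a (T.l 1) (T.a (T.l 1) (T.c (T.b (T.l 1) (T.c (T.b (T.l 1) (T.l 204)) (T.b (T.l 1) (T.l 204)))) (T.b (T.l 1) (T.c (T.b (T.l 1) (T.l 204)) (T.b (T.l 1) (T.l 204))))))) (T.c (T.b (T.a (T.l 1) (T.a (T.l 1) (T.c (T.b (T.l 1) (T.l 204)) (T.b (T.l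 1) (T.l 204))))) (T.a (T.a (T.c (T.b (T.l 1) (T.l 204)) (T.b (T.l 1) (T.l 204))) (T.l 204)) (T.l 204))) (T.b (T.a (T.l 1) (T.a (T.l 1) (T.c (T.b (T.l 1) (T.l 204)) (T.b (T.l 1) (T.l 204))))) (T.a (T.a (T.c (T.b (T.l 1) (T.l 204)) (T.b (T.l 1) (T.l 204))) (T.l 204)) (T.l 204)))))) (T.b (T.l 1) (T.a (T.a (T.l 1) (T.a (T.l 1) (T.c (T.b (T.l 1) (T.c (T.b (T.l 1) (T.l 204)) (T.b (T.l 1) (T.l 204)))) (T.b (T.l 1) (T.c (T.b (T.l 1) (T.l 204)) (T.b (T.l 1) (T.l 204))))))) (T.c (T.b (T.a (T.l 1) (T.a (T.l 1) (T.c (T.b (T.l 1) (T.l 204)) (T.b (T.l 1) (T.l 204))))) (T.a (T.a (T.c (T.b (T.l 1) (T.l 204)) (T.b (T.l 1) (T.l 204))) (T.l 204)) (T.l 204))) (T.b (T.a (T.l 1) (T.a (T.l 1) (T.c (T.b (T.l 1) (T.l 204)) (T.b (T.l 1) (T.l 204))))) (T.a (T.a (T.c (T.b (T.l 1) (T.l 204)) (T.b (T.l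 1) (T.l 204))) (T.l 204)) (T.l 204))))))))))), by decide +kernel⟩

def B202R_040_6_681_6 :
    ∃ t, chk3 (onCell 0 33554432 0 1073741824 33554432 16777216 (corTK [] false 3 c0N cB202R gN0q2 gN4q2 gN0q0 gN1q0 true true)) t 6 681 6 = true :=
  ⟨(T.b (T.a (T.l 1) (T.c (T.b (T.l 1) (T.a (T.c (T.b (T.l 1) (T.a (T.a (T.l 1) (T.a (T.l 1) (T.c (T.b (T.l 1) (T.c (T.b (T.l 1) (T.l 204)) (T.b (T.l 1) (T.l 204)))) (T.b (T.l 1) (T.c (T.b (T.l 1) (T.l 204)) (T.b (T.l 1) (T.l 204))))))) (T.c (T.b (T.a (T.l 1) (T.c (T.b (T.l 1) (T.l 204)) (T.b (T.l 1) (T.l 204)))) (T.l 204)) (T.b (T.a (T.l 1) (T.c (T.b (T.l 1) (T.l 204)) (T.b (T.l 1) (T.l 204)))) (T.l 204))))) (T.b (T.l 1) (T.a (T.a (T.l 1) (T.a (T.l 1) (T.c (T.b (T.l 1) (T.c (T.b (T.l 1) (T.l 204)) (T.b (T.l 1) (T.l 204)))) (T.b (T.l 1) (T.c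 (T.b (T.l 1) (T.l 204)) (T.b (T.l 1) (T.l 204))))))) (T.c (T.b (T.a (T.l 1) (T.c (T.b (T.l 1) (T.l 204)) (T.b (T.l 1) (T.l 204)))) (T.l 204)) (T.b (T.a (T.l 1) (T.c (T.b (T.l 1) (T.l 204)) (T.b (T.l 1) (T.l 204)))) (T.l 204)))))) (T.c (T.b (T.a (T.l 1) (T.c (T.b (T.l 1) (T.a (T.c (T.b (T.l 1) (T.l 204)) (T.b (T.l 1) (T.l 204))) (T.l 204))) (T.b (T.l 1) (T.a (T.c (T.b (T.l 1) (T.l 204)) (T.b (T.l 1) (T.l 204))) (T.l 204))))) (T.a (T.a (T.l 204) (T.l 204)) (T.l 204))) (T.b (T.a (T.l 1) (T.c (T.b (T.l 1) (T.a (T.c (T.b (T.l 1) (T.l 204)) (T.b (T.l 1) (T.l 204))) (T.l 204))) (T.b (T.l 1) (T.a (T.c (T.b (T.l 1) (T.l 204)) (T.b (T.l 1) (T.l 204))) (T.l 204))))) (T.a (T.a (T.l 204) (T.l 204)) (T.l 204)))))) (T.b (T.l 1) (T.a (T.c (T.b (T.l 1) (T.a (T.a (T.l 1) (T.a (T.l 1) (T.c (T.b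 (T.l 1) (T.c (T.b (T.l 1) (T.l 204)) (T.b (T.l 1) (T.l 204)))) (T.b (T.l 1) (T.c (T.b (T.l 1) (T.l 204)) (T.b (T.l 1) (T.l 204))))))) (T.c (T.b (T.a (T.l 1) (T.c (T.b (T.l 1) (T.l 204)) (T.b (T.l 1) (T.l 204)))) (T.l 204)) (T.b (T.a (T.l 1) (T.c (T.b (T.l 1) (T.l 204)) (T.b (T.l 1) (T.l 204)))) (T.l 204))))) (T.b (T.l 1) (T.a (T.a (T.l 1) (T.a (T.l 1) (T.c (T.b (T.l 1) (T.c (T.b (T.l 1) (T.l 204)) (T.b (T.l 1) (T.l 204)))) (T.b (T.l 1) (T.c (T.b (T.l 1) (T.l 204)) (T.b (T.l 1) (T.l 204))))))) (T.c (T.b (T.a (T.l 1) (T.c (T.b (T.l 1) (T.l 204)) (T.b (T.l 1) (T.l 204)))) (T.l 204)) (T.b (T.a (T.l 1) (T.c (T.b (T.l 1) (T.l 204)) (T.b (T.l 1) (T.l 204)))) (T.l 204)))))) (T.c (T.b (T.a (T.l 1) (T.c (T.b (T.l 1) (T.a (T.c (T.b (T.l 1) (T.l 204)) (T.b (T.l 1) (T.l 204))) (T.l 204)))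 (T.b (T.l 1) (T.a (T.c (T.b (T.l 1) (T.l 204)) (T.b (T.l 1) (T.l 204))) (T.l 204))))) (T.a (T.a (T.l 204) (T.l 204)) (T.l 204))) (T.b (T.a (T.l 1) (T.c (T.b (T.l 1) (T.a (T.c (T.b (T.l 1) (T.l 204)) (T.b (T.l 1) (T.l 204))) (T.l 204))) (T.b (T.l 1) (T.a (T.c (T.b (T.l 1) (T.l 204)) (T.b (T.l 1) (T.l 204))) (T.l 204))))) (T.a (T.a (T.l 204) (T.l 204)) (T.l 204)))))))) (T.a (T.c (T.b (T.a (T.c (T.b (T.l 1) (T.a (T.c (T.b (T.l 1) (T.a (T.c (T.b (T.l 1) (T.l 204)) (T.b (T.l 1) (T.l 204))) (T.a (T.l 204) (T.l 204)))) (T.b (T.l 1) (T.a (T.c (T.b (T.l 1) (T.l 204)) (T.b (T.l 1) (T.l 204))) (T.a (T.l 204) (T.l 204))))) (T.c (T.b (T.a (T.l 1) (T.c (T.b (T.l 1) (T.l 204)) (T.b (T.l 1) (T.l 204)))) (T.l 204)) (T.b (T.a (T.l 1) (T.c (T.b (T.l 1) (T.l 204)) (T.b (T.l 1) (T.l 204)))) (T.l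 204))))) (T.b (T.l 1) (T.a (T.c (T.b (T.l 1) (T.a (T.c (T.b (T.l 1) (T.l 204)) (T.b (T.l 1) (T.l 204))) (T.a (T.l 204) (T.l 204)))) (T.b (T.l 1) (T.a (T.c (T.b (T.l 1) (T.l 204)) (T.b (T.l 1) (T.l 204))) (T.a (T.l 204) (T.l 204))))) (T.c (T.b (T.a (T.l 1) (T.c (T.b (T.l 1) (T.l 204)) (T.b (T.l 1) (T.l 204)))) (T.l 204)) (T.b (T.a (T.l 1) (T.c (T.b (T.l 1) (T.l 204)) (T.b (T.l 1) (T.l 204)))) (T.l 204)))))) (T.c (T.b (T.a (T.a (T.l 1) (T.c (T.b (T.l 1) (T.c (T.b (T.l 1) (T.l 204)) (T.b (T.l 1) (T.l 204)))) (T.b (T.l 1) (T.c (T.b (T.l 1) (T.l 204)) (T.b (T.l 1) (T.l 204)))))) (T.c (T.b (T.a (T.l 1) (T.c (T.b (T.l 1) (T.l 204)) (T.b (T.l 1) (T.l 204)))) (T.l 204)) (T.b (T.a (T.l 1) (T.c (T.b (T.l 1) (T.l 204)) (T.b (T.l 1) (T.l 204)))) (T.l 204)))) (T.l 204)) (T.b (T.a (T.a (T.l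 1) (T.c (T.b (T.l 1) (T.c (T.b (T.l 1) (T.l 204)) (T.b (T.l 1) (T.l 204)))) (T.b (T.l 1) (T.c (T.b (T.l 1) (T.l 204)) (T.b (T.l 1) (T.l 204)))))) (T.c (T.b (T.a (T.l 1) (T.c (T.b (T.l 1) (T.l 204)) (T.b (T.l 1) (T.l 204)))) (T.l 204)) (T.b (T.a (T.l 1) (T.c (T.b (T.l 1) (T.l 204)) (T.b (T.l 1) (T.l 204)))) (T.l 204)))) (T.l 204)))) (T.a (T.l 204) (T.l 204))) (T.b (T.a (T.c (T.b (T.l 1) (T.a (T.c (T.b (T.l 1) (T.a (T.c (T.b (T.l 1) (T.l 204)) (T.b (T.l 1) (T.l 204))) (T.a (T.l 204) (T.l 204)))) (T.b (T.l 1) (T.a (T.c (T.b (T.l 1) (T.l 204)) (T.b (T.l 1) (T.l 204))) (T.a (T.l 204) (T.l 204))))) (T.c (T.b (T.a (T.l 1) (T.c (T.b (T.l 1) (T.l 204)) (T.b (T.l 1) (T.l 204)))) (T.l 204)) (T.b (T.a (T.l 1) (T.c (T.b (T.l 1) (T.l 204)) (T.b (T.l 1) (T.l 204)))) (T.l 204))))) (T.b (T.l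 1) (T.a (T.c (T.b (T.l 1) (T.a (T.c (T.b (T.l 1) (T.l 204)) (T.b (T.l 1) (T.l 204))) (T.l 204))) (T.b (T.l 1) (T.a (T.c (T.b (T.l 1) (T.l 204)) (T.b (T.l 1) (T.l 204))) (T.l 204)))) (T.c (T.b (T.a (T.l 1) (T.c (T.b (T.l 1) (T.l 204)) (T.b (T.l 1) (T.l 204)))) (T.l 204)) (T.b (T.a (T.l 1) (T.c (T.b (T.l 1) (T.l 204)) (T.b (T.l 1) (T.l 204)))) (T.l 204)))))) (T.c (T.b (T.a (T.a (T.l 1) (T.c (T.b (T.l 1) (T.c (T.b (T.l 1) (T.l 204)) (T.b (T.l 1) (T.l 204)))) (T.b (T.l 1) (T.c (T.b (T.l 1) (T.l 204)) (T.b (T.l 1) (T.l 204)))))) (T.c (T.b (T.a (T.l 1) (T.c (T.b (T.l 1) (T.l 204)) (T.b (T.l 1) (T.l 204)))) (T.l 204)) (T.b (T.a (T.l 1) (T.c (T.b (T.l 1) (T.l 204)) (T.b (T.l 1) (T.l 204)))) (T.l 204)))) (T.l 204)) (T.b (T.a (T.a (T.l 1) (T.c (T.b (T.l 1) (T.c (T.b (T.l 1) (T.l 204))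 (T.b (T.l 1) (T.l 204)))) (T.b (T.l 1) (T.c (T.b (T.l 1) (T.l 204)) (T.b (T.l 1) (T.l 204)))))) (T.c (T.b (T.a (T.l 1) (T.c (T.b (T.l 1) (T.l 204)) (T.b (T.l 1) (T.l 204)))) (T.l 204)) (T.b (T.a (T.l 1) (T.c (T.b (T.l 1) (T.l 204)) (T.b (T.l 1) (T.l 204)))) (T.l 204)))) (T.l 204)))) (T.a (T.l 204) (T.l 204)))) (T.a (T.a (T.c (T.l 204) (T.l 204)) (T.l 204)) (T.l 204)))), by decide +kernel⟩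

end Pool.Agent.Strip051.G.I1_32_3_64.Tab.CN
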