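import Pool.Agent.Strip051.G.I1_32_3_64.Gn
import Pool.Agent.Strip051.PB.Corns
import Pool.Agent.Strip051.PB.CornK

/-! # Certificates of the aligned corners (generated) -/

set_option linter.all false

namespace Pool.Agent.Strip051.G.I1_32_3_64.Tab.CN

open Pool.Agent.Strip051.PB

def B202R_040_9_1364_6 :
    ∃ t, chk3 (onCell 0 33554432 0 1073741824 33554432 16777216 (corTK [] false 3 c0N cB202R gN0q2 gN4q2 gN0q0 gN1q0 true true)) t 9 1364 6 = true :=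
  ⟨(T.c (T.b (T.a (T.l 1) (T.a (T.l 1) (T.c (T.b (T.l 1) (T.c (T.b (T.l 1) (T.a (T.a (T.l 1) (T.c (T.b (T.l 1) (T.l 204)) (T.b (T.l 1) (T.l 204)))) (T.c (T.b (T.l 1) (T.l 204)) (T.b (T.l 1) (T.l 204))))) (T.b (T.l 1) (T.a (T.a (T.l 1) (T.c (T.b (T.l 1) (T.l 204)) (T.b (T.l 1) (T.l 204)))) (T.c (T.b (T.l 1) (T.l 204)) (T.b (T.l 1) (T.l 204))))))) (T.b (T.l 1) (T.c (T.b (T.l 1) (T.a (T.a (T.l 1) (T.c (T.b (T.l 1) (T.l 204)) (T.b (T.l 1) (T.l 204)))) (T.c (T.b (T.l 1) (T.l 204)) (T.b (T.l 1) (T.l 204))))) (T.b (T.l 1) (T.a (T.a (T.l 1) (T.c (T.b (T.l 1) (T.l 204)) (T.b (T.l 1) (T.l 204)))) (T.c (T.b (T.l 1) (T.l 204)) (T.b (T.l 1) (T.l 204)))))))))) (T.a (T.c (T.b (T.a (T.l 1) (T.c (T.b (T.l 1) (T.a (T.c (T.b (T.l 1) (T.a (T.a (T.l 1) (T.l 204)) (T.l 204))) (T.b (T.l 1) (T.a (T.a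 (T.l 1) (T.l 204)) (T.l 204)))) (T.a (T.c (T.b (T.l 1) (T.l 204)) (T.b (T.l 1) (T.l 204))) (T.l 204)))) (T.b (T.l 1) (T.a (T.c (T.b (T.l 1) (T.a (T.a (T.l 1) (T.l 204)) (T.l 204))) (T.b (T.l 1) (T.a (T.a (T.l 1) (T.l 204)) (T.l 204)))) (T.a (T.c (T.b (T.l 1) (T.l 204)) (T.b (T.l 1) (T.l 204))) (T.l 204)))))) (T.a (T.a (T.c (T.b (T.c (T.b (T.l 1) (T.l 204)) (T.b (T.l 1) (T.l 204))) (T.l 204)) (T.b (T.c (T.b (T.l 1) (T.l 204)) (T.b (T.l 1) (T.l 204))) (T.l 204))) (T.l 204)) (T.l 204))) (T.b (T.a (T.l 1) (T.c (T.b (T.l 1) (T.a (T.c (T.b (T.l 1) (T.a (T.a (T.l 1) (T.l 204)) (T.l 204))) (T.b (T.l 1) (T.a (T.a (T.l 1) (T.l 204)) (T.l 204)))) (T.a (T.c (T.b (T.l 1) (T.l 204)) (T.b (T.l 1) (T.l 204))) (T.l 204)))) (T.b (T.l 1) (T.a (T.c (T.b (T.l 1) (T.l 204)) (T.b (T.l 1) (T.l 204)))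 (T.a (T.c (T.b (T.l 1) (T.l 204)) (T.b (T.l 1) (T.l 204))) (T.l 204)))))) (T.a (T.a (T.c (T.b (T.c (T.b (T.l 1) (T.l 204)) (T.b (T.l 1) (T.l 204))) (T.l 204)) (T.b (T.c (T.b (T.l 1) (T.l 204)) (T.b (T.l 1) (T.l 204))) (T.l 204))) (T.l 204)) (T.l 204)))) (T.a (T.c (T.b (T.c (T.b (T.a (T.a (T.l 1) (T.c (T.b (T.l 1) (T.l 204)) (T.b (T.l 1) (T.l 204)))) (T.c (T.b (T.a (T.l 1) (T.l 204)) (T.l 204)) (T.b (T.a (T.l 1) (T.l 204)) (T.l 204)))) (T.l 204)) (T.b (T.a (T.a (T.l 1) (T.c (T.b (T.l 1) (T.l 204)) (T.b (T.l 1) (T.l 204)))) (T.c (T.b (T.a (T.l 1) (T.l 204)) (T.l 204)) (T.b (T.a (T.l 1) (T.l 204)) (T.l 204)))) (T.l 204))) (T.l 204)) (T.b (T.c (T.b (T.a (T.a (T.l 1) (T.c (T.b (T.l 1) (T.l 204)) (T.b (T.l 1) (T.l 204)))) (T.c (T.b (T.a (T.l 1) (T.l 204)) (T.l 204)) (T.b (T.a (T.l 1)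 (T.l 204)) (T.l 204)))) (T.l 204)) (T.b (T.a (T.a (T.l 1) (T.c (T.b (T.l 1) (T.l 204)) (T.b (T.l 1) (T.l 204)))) (T.c (T.b (T.a (T.l 1) (T.l 204)) (T.l 204)) (T.b (T.a (T.l 1) (T.l 204)) (T.l 204)))) (T.l 204))) (T.l 204))) (T.l 204)))) (T.b (T.a (T.l 1) (T.a (T.l 1) (T.c (T.b (T.l 1) (T.c (T.b (T.l 1) (T.a (T.a (T.l 1) (T.c (T.b (T.l 1) (T.l 204)) (T.b (T.l 1) (T.l 204)))) (T.c (T.b (T.l 1) (T.l 204)) (T.b (T.l 1) (T.l 204))))) (T.b (T.l 1) (T.a (T.a (T.l 1) (T.c (T.b (T.l 1) (T.l 204)) (T.b (T.l 1) (T.l 204)))) (T.c (T.b (T.l 1) (T.l 204)) (T.b (T.l 1) (T.l 204))))))) (T.b (T.l 1) (T.c (T.b (T.l 1) (T.a (T.a (T.l 1) (T.c (T.b (T.l 1) (T.l 204)) (T.b (T.l 1) (T.l 204)))) (T.c (T.b (T.l 1) (T.l 204)) (T.b (T.l 1) (T.l 204))))) (T.b (T.l 1) (T.a (T.a (T.l 1) (T.c (T.b (T.l 1) (T.l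 204)) (T.b (T.l 1) (T.l 204)))) (T.c (T.b (T.l 1) (T.l 204)) (T.b (T.l 1) (T.l 204)))))))))) (T.a (T.c (T.b (T.a (T.l 1) (T.c (T.b (T.l 1) (T.a (T.c (T.b (T.l 1) (T.l 204)) (T.b (T.l 1) (T.l 204))) (T.a (T.c (T.b (T.l 1) (T.l 204)) (T.b (T.l 1) (T.l 204))) (T.l 204)))) (T.b (T.l 1) (T.a (T.c (T.b (T.l 1) (T.l 204)) (T.b (T.l 1) (T.l 204))) (T.a (T.c (T.b (T.l 1) (T.l 204)) (T.b (T.l 1) (T.l 204))) (T.l 204)))))) (T.a (T.a (T.c (T.b (T.c (T.b (T.l 1) (T.l 204)) (T.b (T.l 1) (T.l 204))) (T.l 204)) (T.b (T.c (T.b (T.l 1) (T.l 204)) (T.b (T.l 1) (T.l 204))) (T.l 204))) (T.l 204)) (T.l 204))) (T.b (T.a (T.l 1) (T.c (T.b (T.l 1) (T.a (T.c (T.b (T.l 1) (T.l 204)) (T.b (T.l 1) (T.l 204))) (T.a (T.c (T.b (T.l 1) (T.l 204)) (T.b (T.l 1) (T.l 204))) (T.l 204)))) (T.b (T.l 1) (T.a (T.c (T.b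 (T.l 1) (T.l 204)) (T.b (T.l 1) (T.l 204))) (T.a (T.c (T.b (T.l 1) (T.l 204)) (T.b (T.l 1) (T.l 204))) (T.l 204)))))) (T.a (T.a (T.c (T.b (T.c (T.b (T.l 1) (T.l 204)) (T.b (T.l 1) (T.l 204))) (T.l 204)) (T.b (T.c (T.b (T.l 1) (T.l 204)) (T.b (T.l 1) (T.l 204))) (T.l 204))) (T.l 204)) (T.l 204)))) (T.a (T.c (T.b (T.c (T.b (T.a (T.a (T.l 1) (T.c (T.b (T.l 1) (T.l 204)) (T.b (T.l 1) (T.l 204)))) (T.c (T.b (T.a (T.l 1) (T.l 204)) (T.l 204)) (T.b (T.a (T.l 1) (T.l 204)) (T.l 204)))) (T.l 204)) (T.b (T.a (T.a (T.l 1) (T.c (T.b (T.l 1) (T.l 204)) (T.b (T.l 1) (T.l 204)))) (T.c (T.b (T.a (T.l 1) (T.l 204)) (T.l 204)) (T.b (T.a (T.l 1) (T.l 204)) (T.l 204)))) (T.l 204))) (T.l 204)) (T.b (T.c (T.b (T.a (T.c (T.b (T.l 1) (T.a (T.l 1) (T.l 204))) (T.b (T.l 1) (T.a (T.l 1) (T.l 204)))) (T.c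 (T.b (T.a (T.l 1) (T.l 204)) (T.l 204)) (T.b (T.a (T.l 1) (T.l 204)) (T.l 204)))) (T.l 204)) (T.b (T.a (T.c (T.b (T.l 1) (T.a (T.l 1) (T.l 204))) (T.b (T.l 1) (T.a (T.l 1) (T.l 204)))) (T.c (T.a (T.b (T.l 1) (T.l 204)) (T.l 204)) (T.a (T.b (T.l 1) (T.l 204)) (T.l 204)))) (T.l 204))) (T.l 204))) (T.l 204))))), by decide +kernel⟩

def B202R_040_4_1365_6 :
    ∃ t, chk3 (onCell 0 33554432 0 1073741824 33554432 16777216 (corTK [] false 3 c0N cB202R gN0q2 gN4q2 gN0q0 gN1q0 true true)) t 4 1365 6 = true :=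
  ⟨(T.a (T.c (T.b (T.a (T.c (T.b (T.a (T.a (T.l 1) (T.c (T.b (T.l 1) (T.c (T.b (T.l 1) (T.a (T.a (T.l 1) (T.l 204)) (T.l 204))) (T.b (T.l 1) (T.a (T.a (T.l 1) (T.l 204)) (T.l 204))))) (T.b (T.l 1) (T.c (T.b (T.l 1) (T.a (T.a (T.l 1) (T.l 204)) (T.l 204))) (T.b (T.l 1) (T.a (T.a (T.l 1) (T.l 204)) (T.l 204))))))) (T.c (T.b (T.a (T.l 1) (T.a (T.l 1) (T.c (T.b (T.l 1) (T.l 204)) (T.b (T.l 1) (T.l 204))))) (T.a (T.a (T.c (T.b (T.l 1) (T.l 204)) (T.b (T.l 1) (T.l 204))) (T.l 204)) (T.l 204))) (T.b (T.a (T.l 1) (T.a (T.l 1) (T.c (T.b (T.l 1) (T.l 204)) (T.b (T.l 1) (T.l 204))))) (T.a (T.a (T.c (T.b (T.l 1) (T.l 204)) (T.b (T.l 1) (T.l 204))) (T.l 204)) (T.l 204))))) (T.a (T.a (T.a (T.a (T.c (T.b (T.c (T.b (T.l 1) (T.l 204)) (T.b (T.l 1) (T.l 204))) (T.l 204)) (T.b (T.c (T.b (T.l 1) (T.l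 204)) (T.b (T.l 1) (T.l 204))) (T.l 204))) (T.l 204)) (T.l 204)) (T.l 204)) (T.l 204))) (T.b (T.a (T.a (T.l 1) (T.c (T.b (T.l 1) (T.c (T.b (T.l 1) (T.a (T.a (T.l 1) (T.l 204)) (T.l 204))) (T.b (T.l 1) (T.a (T.a (T.l 1) (T.l 204)) (T.l 204))))) (T.b (T.l 1) (T.c (T.b (T.l 1) (T.a (T.a (T.l 1) (T.l 204)) (T.l 204))) (T.b (T.l 1) (T.a (T.a (T.l 1) (T.l 204)) (T.l 204))))))) (T.c (T.b (T.a (T.l 1) (T.a (T.l 1) (T.c (T.b (T.l 1) (T.l 204)) (T.b (T.l 1) (T.l 204))))) (T.a (T.a (T.c (T.b (T.l 1) (T.l 204)) (T.b (T.l 1) (T.l 204))) (T.l 204)) (T.l 204))) (T.b (T.a (T.l 1) (T.a (T.l 1) (T.c (T.b (T.l 1) (T.l 204)) (T.b (T.l 1) (T.l 204))))) (T.a (T.a (T.c (T.b (T.l 1) (T.l 204)) (T.b (T.l 1) (T.l 204))) (T.l 204)) (T.l 204))))) (T.a (T.a (T.a (T.a (T.c (T.b (T.c (T.b (T.l 1) (T.l 204))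 (T.b (T.l 1) (T.l 204))) (T.l 204)) (T.b (T.c (T.b (T.l 1) (T.l 204)) (T.b (T.l 1) (T.l 204))) (T.l 204))) (T.l 204)) (T.l 204)) (T.l 204)) (T.l 204)))) (T.a (T.a (T.c (T.b (T.c (T.b (T.c (T.b (T.a (T.l 1) (T.a (T.l 1) (T.l 204))) (T.l 204)) (T.b (T.a (T.l 1) (T.a (T.l 1) (T.l 204))) (T.l 204))) (T.l 204)) (T.b (T.c (T.b (T.a (T.l 1) (T.a (T.l 1) (T.l 204))) (T.l 204)) (T.b (T.a (T.l 1) (T.a (T.l 1) (T.l 204))) (T.l 204))) (T.l 204))) (T.l 204)) (T.b (T.c (T.b (T.c (T.b (T.a (T.l 1) (T.a (T.l 1) (T.l 204))) (T.l 204)) (T.b (T.a (T.l 1) (T.a (T.l 1) (T.l 204))) (T.l 204))) (T.l 204)) (T.b (T.c (T.b (T.a (T.l 1) (T.a (T.l 1) (T.l 204))) (T.l 204)) (T.b (T.a (T.l 1) (T.l 204)) (T.l 204))) (T.l 204))) (T.l 204))) (T.l 204)) (T.l 204))) (T.l 204)) (T.b (T.a (T.c (T.b (T.a (T.a (T.l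 1) (T.c (T.b (T.l 1) (T.c (T.b (T.l 1) (T.a (T.a (T.l 1) (T.l 204)) (T.l 204))) (T.b (T.l 1) (T.a (T.a (T.l 1) (T.l 204)) (T.l 204))))) (T.b (T.l 1) (T.c (T.b (T.l 1) (T.a (T.a (T.l 1) (T.l 204)) (T.l 204))) (T.b (T.l 1) (T.a (T.a (T.l 1) (T.l 204)) (T.l 204))))))) (T.c (T.b (T.a (T.l 1) (T.a (T.l 1) (T.c (T.b (T.l 1) (T.l 204)) (T.b (T.l 1) (T.l 204))))) (T.a (T.a (T.c (T.b (T.l 1) (T.l 204)) (T.b (T.l 1) (T.l 204))) (T.l 204)) (T.l 204))) (T.b (T.a (T.l 1) (T.a (T.l 1) (T.c (T.b (T.l 1) (T.l 204)) (T.b (T.l 1) (T.l 204))))) (T.a (T.a (T.c (T.b (T.l 1) (T.l 204)) (T.b (T.l 1) (T.l 204))) (T.l 204)) (T.l 204))))) (T.a (T.a (T.a (T.a (T.c (T.b (T.c (T.b (T.l 1) (T.l 204)) (T.b (T.l 1) (T.l 204))) (T.l 204)) (T.b (T.c (T.b (T.l 1) (T.l 204)) (T.b (T.l 1) (T.l 204))) (T.l 204))) (T.l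 204)) (T.l 204)) (T.l 204)) (T.l 204))) (T.b (T.a (T.a (T.l 1) (T.c (T.b (T.l 1) (T.c (T.b (T.l 1) (T.a (T.a (T.l 1) (T.l 204)) (T.l 204))) (T.b (T.l 1) (T.a (T.a (T.l 1) (T.l 204)) (T.l 204))))) (T.b (T.l 1) (T.c (T.b (T.l 1) (T.a (T.a (T.l 1) (T.l 204)) (T.l 204))) (T.b (T.l 1) (T.a (T.a (T.l 1) (T.l 204)) (T.l 204))))))) (T.c (T.b (T.a (T.l 1) (T.a (T.l 1) (T.c (T.b (T.l 1) (T.l 204)) (T.b (T.l 1) (T.l 204))))) (T.a (T.a (T.c (T.b (T.l 1) (T.l 204)) (T.b (T.l 1) (T.l 204))) (T.l 204)) (T.l 204))) (T.b (T.a (T.l 1) (T.a (T.l 1) (T.c (T.b (T.l 1) (T.l 204)) (T.b (T.l 1) (T.l 204))))) (T.a (T.a (T.c (T.b (T.l 1) (T.l 204)) (T.b (T.l 1) (T.l 204))) (T.l 204)) (T.l 204))))) (T.a (T.a (T.a (T.a (T.c (T.b (T.c (T.b (T.l 1) (T.l 204)) (T.b (T.l 1) (T.l 204))) (T.l 204)) (T.b (T.c (T.b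 (T.l 1) (T.l 204)) (T.b (T.l 1) (T.l 204))) (T.l 204))) (T.l 204)) (T.l 204)) (T.l 204)) (T.l 204)))) (T.a (T.a (T.c (T.a (T.b (T.c (T.b (T.c (T.b (T.l 1) (T.l 204)) (T.b (T.l 1) (T.l 204))) (T.l 204)) (T.b (T.c (T.b (T.l 1) (T.l 204)) (T.b (T.l 1) (T.l 204))) (T.l 204))) (T.l 204)) (T.l 204)) (T.a (T.b (T.c (T.b (T.c (T.b (T.l 1) (T.l 204)) (T.b (T.l 1) (T.l 204))) (T.l 204)) (T.b (T.c (T.b (T.l 1) (T.l 204)) (T.b (T.l 1) (T.l 204))) (T.l 204))) (T.l 204)) (T.l 204))) (T.l 204)) (T.l 204))) (T.l 204))) (T.l 204)), by decide +kernel⟩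

def B202R_040_8_1364_7 :
    ∃ t, chk3 (onCell 0 33554432 0 1073741824 33554432 16777216 (corTK [] false 3 c0N cB202R gN0q2 gN4q2 gN0q0 gN1q0 true true)) t 8 1364 7 = true :=
  ⟨(T.a (T.l 1) (T.c (T.b (T.l 1) (T.c (T.b (T.l 1) (T.a (T.a (T.l 1) (T.a (T.l 1) (T.a (T.l 1) (T.c (T.b (T.l 1) (T.c (T.b (T.l 1) (T.l 204)) (T.b (T.l 1) (T.l 204)))) (T.b (T.l 1) (T.c (T.b (T.l 1) (T.l 204)) (T.b (T.l 1) (T.l 204)))))))) (T.c (T.b (T.l 1) (T.a (T.c (T.b (T.l 1) (T.l 204)) (T.b (T.l 1) (T.l 204))) (T.l 204))) (T.b (T.l 1) (T.a (T.c (T.b (T.l 1) (T.l 204)) (T.b (T.l 1) (T.l 204))) (T.l 204)))))) (T.b (T.l 1) (T.a (T.a (T.l 1) (T.a (T.l 1) (T.a (T.l 1) (T.c (T.b (T.l 1) (T.c (T.b (T.l 1) (T.l 204)) (T.b (T.l 1) (T.l 204)))) (T.b (T.l 1) (T.c (T.b (T.l 1) (T.l 204)) (T.b (T.l 1) (T.l 204))))))))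 (T.c (T.b (T.l 1) (T.a (T.c (T.b (T.l 1) (T.l 204)) (T.b (T.l 1) (T.l 204))) (T.l 204))) (T.b (T.l 1) (T.a (T.c (T.b (T.l 1) (T.l 204)) (T.b (T.l 1) (T.l 204))) (T.l 204)))))))) (T.b (T.l 1) (T.c (T.b (T.l 1) (T.a (T.a (T.l 1) (T.a (T.l 1) (T.a (T.l 1) (T.c (T.b (T.l 1) (T.c (T.b (T.l 1) (T.l 204)) (T.b (T.l 1) (T.l 204)))) (T.b (T.l 1) (T.c (T.b (T.l 1) (T.l 204)) (T.b (T.l 1) (T.l 204)))))))) (T.c (T.b (T.l 1) (T.a (T.c (T.b (T.l 1) (T.l 204)) (T.b (T.l 1) (T.l 204))) (T.l 204))) (T.b (T.l 1) (T.a (T.c (T.b (T.l 1) (T.l 204)) (T.b (T.l 1) (T.l 204))) (T.l 204)))))) (T.b (T.l 1) (T.a (T.a (T.l 1) (T.a (T.l 1) (T.a (T.l 1) (T.c (T.b (T.l 1) (T.c (T.b (T.l 1) (T.l 204)) (T.b (T.l 1) (T.l 204)))) (T.b (T.l 1) (T.c (T.b (T.l 1) (T.l 204)) (T.b (T.l 1) (T.l 204)))))))) (T.c (T.b (T.l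 1) (T.a (T.c (T.b (T.l 1) (T.l 204)) (T.b (T.l 1) (T.l 204))) (T.l 204))) (T.b (T.l 1) (T.a (T.c (T.b (T.l 1) (T.l 204)) (T.b (T.l 1) (T.l 204))) (T.l 204)))))))))), by decide +kernel⟩

def B202R_040_9_1364_7 :
    ∃ t, chk3 (onCell 0 33554432 0 1073741824 33554432 16777216 (corTK [] false 3 c0N cB202R gN0q2 gN4q2 gN0q0 gN1q0 true true)) t 9 1364 7 = true :=
  ⟨(T.c (T.b (T.a (T.l 1) (T.a (T.l 1) (T.c (T.b (T.l 1) (T.c (T.b (T.l 1) (T.a (T.a (T.l 1) (T.c (T.b (T.l 1) (T.l 204)) (T.b (T.l 1) (T.l 204)))) (T.c (T.b (T.l 1) (T.l 204)) (T.b (T.l 1) (T.l 204))))) (T.b (T.l 1) (T.a (T.a (T.l 1) (T.c (T.b (T.l 1) (T.l 204)) (T.b (T.l 1) (T.l 204)))) (T.c (T.b (T.l 1) (T.l 204)) (T.b (T.l 1) (T.l 204))))))) (T.b (T.l 1) (T.c (T.b (T.l 1) (T.a (T.a (T.l 1) (T.c (T.b (T.l 1) (T.l 204)) (T.b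 (T.l 1) (T.l 204)))) (T.c (T.b (T.l 1) (T.l 204)) (T.b (T.l 1) (T.l 204))))) (T.b (T.l 1) (T.a (T.a (T.l 1) (T.c (T.b (T.l 1) (T.l 204)) (T.b (T.l 1) (T.l 204)))) (T.c (T.b (T.l 1) (T.l 204)) (T.b (T.l 1) (T.l 204)))))))))) (T.a (T.c (T.b (T.a (T.l 1) (T.c (T.b (T.l 1) (T.a (T.c (T.b (T.l 1) (T.l 204)) (T.b (T.l 1) (T.l 204))) (T.a (T.c (T.b (T.l 1) (T.l 204)) (T.b (T.l 1) (T.l 204))) (T.l 204)))) (T.b (T.l 1) (T.a (T.c (T.b (T.l 1) (T.l 204)) (T.b (T.l 1) (T.l 204))) (T.a (T.c (T.b (T.l 1) (T.l 204)) (T.b (T.l 1) (T.l 204))) (T.l 204)))))) (T.a (T.a (T.c (T.b (T.c (T.b (T.l 1) (T.l 204)) (T.b (T.l 1) (T.l 204))) (T.l 204)) (T.b (T.c (T.b (T.l 1) (T.l 204)) (T.b (T.l 1) (T.l 204))) (T.l 204))) (T.l 204)) (T.l 204))) (T.b (T.a (T.l 1) (T.c (T.b (T.l 1) (T.a (T.c (T.b (T.l 1) (T.l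 204)) (T.b (T.l 1) (T.l 204))) (T.a (T.c (T.b (T.l 1) (T.l 204)) (T.b (T.l 1) (T.l 204))) (T.l 204)))) (T.b (T.l 1) (T.a (T.c (T.b (T.l 1) (T.l 204)) (T.b (T.l 1) (T.l 204))) (T.a (T.c (T.b (T.l 1) (T.l 204)) (T.b (T.l 1) (T.l 204))) (T.l 204)))))) (T.a (T.a (T.c (T.b (T.c (T.b (T.l 1) (T.l 204)) (T.b (T.l 1) (T.l 204))) (T.l 204)) (T.b (T.c (T.b (T.l 1) (T.l 204)) (T.b (T.l 1) (T.l 204))) (T.l 204))) (T.l 204)) (T.l 204)))) (T.a (T.c (T.b (T.c (T.b (T.a (T.c (T.b (T.l 1) (T.a (T.l 1) (T.l 204))) (T.b (T.l 1) (T.a (T.l 1) (T.l 204)))) (T.a (T.c (T.b (T.l 1) (T.l 204)) (T.b (T.l 1) (T.l 204))) (T.l 204))) (T.l 204)) (T.b (T.a (T.c (T.b (T.l 1) (T.a (T.l 1) (T.l 204))) (T.b (T.l 1) (T.a (T.l 1) (T.l 204)))) (T.a (T.c (T.b (T.l 1) (T.l 204)) (T.b (T.l 1) (T.l 204))) (T.l 204))) (T.l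 204))) (T.l 204)) (T.b (T.c (T.b (T.a (T.c (T.b (T.l 1) (T.a (T.l 1) (T.l 204))) (T.b (T.l 1) (T.a (T.l 1) (T.l 204)))) (T.a (T.c (T.b (T.l 1) (T.l 204)) (T.b (T.l 1) (T.l 204))) (T.l 204))) (T.l 204)) (T.b (T.a (T.c (T.b (T.l 1) (T.a (T.l 1) (T.l 204))) (T.b (T.l 1) (T.a (T.l 1) (T.l 204)))) (T.a (T.c (T.b (T.l 1) (T.l 204)) (T.b (T.l 1) (T.l 204))) (T.l 204))) (T.l 204))) (T.l 204))) (T.l 204)))) (T.b (T.a (T.l 1) (T.a (T.l 1) (T.c (T.b (T.l 1) (T.c (T.b (T.l 1) (T.a (T.a (T.l 1) (T.c (T.b (T.l 1) (T.l 204)) (T.b (T.l 1) (T.l 204)))) (T.c (T.b (T.l 1) (T.l 204)) (T.b (T.l 1) (T.l 204))))) (T.b (T.l 1) (T.a (T.a (T.l 1) (T.c (T.b (T.l 1) (T.l 204)) (T.b (T.l 1) (T.l 204)))) (T.c (T.b (T.l 1) (T.l 204)) (T.b (T.l 1) (T.l 204))))))) (T.b (T.l 1) (T.c (T.b (T.l 1) (T.a (T.a (T.l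 1) (T.c (T.b (T.l 1) (T.l 204)) (T.b (T.l 1) (T.l 204)))) (T.c (T.b (T.l 1) (T.l 204)) (T.b (T.l 1) (T.l 204))))) (T.b (T.l 1) (T.a (T.a (T.l 1) (T.c (T.b (T.l 1) (T.l 204)) (T.b (T.l 1) (T.l 204)))) (T.c (T.b (T.l 1) (T.l 204)) (T.b (T.l 1) (T.l 204)))))))))) (T.a (T.c (T.b (T.a (T.l 1) (T.c (T.b (T.l 1) (T.a (T.c (T.b (T.l 1) (T.l 204)) (T.b (T.l 1) (T.l 204))) (T.a (T.a (T.l 204) (T.l 204)) (T.l 204)))) (T.b (T.l 1) (T.a (T.c (T.b (T.l 1) (T.l 204)) (T.b (T.l 1) (T.l 204))) (T.l 204))))) (T.a (T.a (T.c (T.b (T.c (T.b (T.l 1) (T.l 204)) (T.b (T.l 1) (T.l 204))) (T.l 204)) (T.b (T.c (T.b (T.l 1) (T.l 204)) (T.b (T.l 1) (T.l 204))) (T.l 204))) (T.l 204)) (T.l 204))) (T.b (T.a (T.l 1) (T.c (T.b (T.l 1) (T.a (T.c (T.b (T.l 1) (T.l 204)) (T.b (T.l 1) (T.l 204))) (T.l 204))) (T.b (T.l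 1) (T.a (T.c (T.b (T.l 1) (T.l 204)) (T.b (T.l 1) (T.l 204))) (T.l 204))))) (T.a (T.a (T.c (T.b (T.c (T.b (T.l 1) (T.l 204)) (T.b (T.l 1) (T.l 204))) (T.l 204)) (T.b (T.c (T.b (T.l 1) (T.l 204)) (T.b (T.l 1) (T.l 204))) (T.l 204))) (T.l 204)) (T.l 204)))) (T.a (T.c (T.b (T.c (T.b (T.a (T.c (T.b (T.l 1) (T.a (T.l 1) (T.l 204))) (T.b (T.l 1) (T.a (T.l 1) (T.l 204)))) (T.a (T.c (T.b (T.l 1) (T.l 204)) (T.b (T.l 1) (T.l 204))) (T.l 204))) (T.l 204)) (T.b (T.a (T.c (T.b (T.l 1) (T.a (T.l 1) (T.l 204))) (T.b (T.l 1) (T.a (T.l 1) (T.l 204)))) (T.a (T.c (T.b (T.l 1) (T.l 204)) (T.b (T.l 1) (T.l 204))) (T.l 204))) (T.l 204))) (T.l 204)) (T.b (T.c (T.b (T.a (T.c (T.b (T.l 1) (T.a (T.l 1) (T.l 204))) (T.b (T.l 1) (T.a (T.l 1) (T.l 204)))) (T.a (T.c (T.b (T.l 1) (T.l 204)) (T.b (T.l 1) (T.l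 204))) (T.l 204))) (T.l 204)) (T.b (T.a (T.c (T.b (T.l 1) (T.a (T.l 1) (T.l 204))) (T.b (T.l 1) (T.a (T.l 1) (T.l 204)))) (T.a (T.c (T.b (T.l 1) (T.l 204)) (T.b (T.l 1) (T.l 204))) (T.l 204))) (T.l 204))) (T.l 204))) (T.l 204))))), by decide +kernel⟩

def B202R_040_4_1365_7 :
    ∃ t, chk3 (onCell 0 33554432 0 1073741824 33554432 16777216 (corTK [] false 3 c0N cB202R gN0q2 gN4q2 gN0q0 gN1q0 true true)) t 4 1365 7 = true :=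
  ⟨(T.a (T.c (T.b (T.a (T.c (T.b (T.a (T.a (T.l 1) (T.c (T.b (T.l 1) (T.c (T.b (T.l 1) (T.a (T.a (T.l 1) (T.l 204)) (T.l 204))) (T.b (T.l 1) (T.a (T.a (T.l 1) (T.l 204)) (T.l 204))))) (T.b (T.l 1) (T.c (T.b (T.l 1) (T.a (T.a (T.l 1) (T.l 204)) (T.l 204))) (T.b (T.l 1) (T.a (T.a (T.l 1) (T.l 204)) (T.l 204))))))) (T.c (T.b (T.a (T.l 1) (T.a (T.l 1) (T.c (T.b (T.l 1) (T.l 204)) (T.b (T.l 1) (T.l 204))))) (T.a (T.a (T.c (T.b (T.l 1) (T.l 204)) (T.b (T.l 1) (T.l 204))) (T.l 204)) (T.l 204))) (T.b (T.a (T.l 1) (T.a (T.l 1) (T.c (T.b (T.l 1) (T.l 204)) (T.b (T.l 1) (T.l 204))))) (T.a (T.a (T.c (T.b (T.l 1) (T.l 204)) (T.b (T.l 1) (T.l 204))) (T.l 204)) (T.l 204))))) (T.a (T.a (T.a (T.a (T.c (T.b (T.c (T.b (T.l 1) (T.l 204)) (T.b (T.l 1) (T.l 204))) (T.l 204)) (T.b (T.c (T.b (T.l 1) (T.l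 204)) (T.b (T.l 1) (T.l 204))) (T.l 204))) (T.l 204)) (T.l 204)) (T.l 204)) (T.l 204))) (T.b (T.a (T.a (T.l 1) (T.c (T.b (T.l 1) (T.c (T.b (T.l 1) (T.a (T.a (T.l 1) (T.l 204)) (T.l 204))) (T.b (T.l 1) (T.a (T.a (T.l 1) (T.l 204)) (T.l 204))))) (T.b (T.l 1) (T.c (T.b (T.l 1) (T.a (T.a (T.l 1) (T.l 204)) (T.l 204))) (T.b (T.l 1) (T.a (T.a (T.l 1) (T.l 204)) (T.l 204))))))) (T.c (T.b (T.a (T.l 1) (T.a (T.l 1) (T.c (T.b (T.l 1) (T.l 204)) (T.b (T.l 1) (T.l 204))))) (T.a (T.a (T.c (T.b (T.l 1) (T.l 204)) (T.b (T.l 1) (T.l 204))) (T.l 204)) (T.l 204))) (T.b (T.a (T.l 1) (T.a (T.l 1) (T.c (T.b (T.l 1) (T.l 204)) (T.b (T.l 1) (T.l 204))))) (T.a (T.a (T.c (T.b (T.l 1) (T.l 204)) (T.b (T.l 1) (T.l 204))) (T.l 204)) (T.l 204))))) (T.a (T.a (T.a (T.c (T.c (T.a (T.b (T.b (T.l 1) (T.l 204))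 (T.l 204)) (T.l 204)) (T.l 204)) (T.l 204)) (T.l 204)) (T.l 204)) (T.l 204)))) (T.a (T.a (T.a (T.c (T.b (T.c (T.b (T.c (T.b (T.l 1) (T.l 204)) (T.b (T.l 1) (T.l 204))) (T.l 204)) (T.b (T.c (T.b (T.l 1) (T.l 204)) (T.b (T.l 1) (T.l 204))) (T.l 204))) (T.l 204)) (T.b (T.c (T.b (T.c (T.b (T.l 1) (T.l 204)) (T.b (T.l 1) (T.l 204))) (T.l 204)) (T.b (T.c (T.b (T.l 1) (T.l 204)) (T.b (T.l 1) (T.l 204))) (T.l 204))) (T.l 204))) (T.l 204)) (T.l 204)) (T.l 204))) (T.l 204)) (T.b (T.a (T.c (T.b (T.a (T.a (T.l 1) (T.c (T.b (T.l 1) (T.c (T.b (T.l 1) (T.a (T.a (T.l 1) (T.l 204)) (T.l 204))) (T.b (T.l 1) (T.a (T.a (T.l 1) (T.l 204)) (T.l 204))))) (T.b (T.l 1) (T.c (T.b (T.l 1) (T.a (T.a (T.l 1) (T.l 204)) (T.l 204))) (T.b (T.l 1) (T.a (T.a (T.l 1) (T.l 204)) (T.l 204))))))) (T.c (T.b (T.a (T.l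 1) (T.a (T.l 1) (T.c (T.b (T.l 1) (T.l 204)) (T.b (T.l 1) (T.l 204))))) (T.a (T.a (T.c (T.b (T.l 1) (T.l 204)) (T.b (T.l 1) (T.l 204))) (T.l 204)) (T.l 204))) (T.b (T.a (T.l 1) (T.a (T.l 1) (T.c (T.b (T.l 1) (T.l 204)) (T.b (T.l 1) (T.l 204))))) (T.a (T.a (T.c (T.b (T.l 1) (T.l 204)) (T.b (T.l 1) (T.l 204))) (T.l 204)) (T.l 204))))) (T.a (T.l 204) (T.l 204))) (T.b (T.a (T.a (T.l 1) (T.c (T.b (T.l 1) (T.c (T.b (T.l 1) (T.a (T.a (T.l 1) (T.l 204)) (T.l 204))) (T.b (T.l 1) (T.a (T.a (T.l 1) (T.l 204)) (T.l 204))))) (T.b (T.l 1) (T.c (T.b (T.l 1) (T.a (T.a (T.l 1) (T.l 204)) (T.l 204))) (T.b (T.l 1) (T.a (T.a (T.l 1) (T.l 204)) (T.l 204))))))) (T.c (T.b (T.a (T.l 1) (T.a (T.l 1) (T.c (T.b (T.l 1) (T.l 204)) (T.b (T.l 1) (T.l 204))))) (T.a (T.a (T.c (T.b (T.l 1) (T.l 204)) (T.b (T.l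 1) (T.l 204))) (T.l 204)) (T.l 204))) (T.b (T.a (T.l 1) (T.a (T.l 1) (T.c (T.b (T.l 1) (T.l 204)) (T.b (T.l 1) (T.l 204))))) (T.a (T.a (T.c (T.b (T.l 1) (T.l 204)) (T.b (T.l 1) (T.l 204))) (T.l 204)) (T.l 204))))) (T.l 204))) (T.a (T.a (T.a (T.c (T.b (T.c (T.b (T.c (T.b (T.l 1) (T.l 204)) (T.b (T.l 1) (T.l 204))) (T.l 204)) (T.b (T.c (T.b (T.l 1) (T.l 204)) (T.b (T.l 1) (T.l 204))) (T.l 204))) (T.l 204)) (T.b (T.c (T.b (T.c (T.b (T.l 1) (T.l 204)) (T.b (T.l 1) (T.l 204))) (T.l 204)) (T.b (T.c (T.b (T.l 1) (T.l 204)) (T.b (T.l 1) (T.l 204))) (T.l 204))) (T.l 204))) (T.l 204)) (T.l 204)) (T.l 204))) (T.l 204))) (T.l 204)), by decide +kernel⟩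

def B202R_040_4_683_3 :
    ∃ t, chk3 (onCell 0 33554432 0 1073741824 33554432 16777216 (corTK [] false 3 c0N cB202R gN0q2 gN4q2 gN0q0 gN1q0 true true)) t 4 683 3 = true :=
  ⟨(T.l 204), by decide +kernel⟩

def B202R_040_20_682_2 :
    ∃ t, chk3 (onCell 0 33554432 0 1073741824 33554432 16777216 (corTK [] false 3 c0N cB202R gN0q2 gN4q2 gN0q0 gN1q0 true true)) t 20 682 2 = true :=
  ⟨(T.c (T.b (T.c (T.b (T.c (T.b (T.a (T.l 1) (T.a (T.l 1) (T.c (T.b (T.l 1) (T.c (T.b (T.l 1) (T.l 204)) (T.b (T.l 1) (T.l 204)))) (T.b (T.l 1) (T.c (T.b (T.l 1) (T.l 204)) (T.b (T.l 1) (T.l 204))))))) (T.a (T.c (T.b (T.a (T.l 1) (T.c (T.b (T.l 1) (T.l 204)) (T.b (T.l 1) (T.l 204)))) (T.l 204)) (T.b (T.a (T.l 1) (T.c (T.b (T.l 1) (T.l 204)) (T.b (T.l 1) (T.l 204)))) (T.l 204))) (T.l 204))) (T.b (T.a (T.l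 1) (T.a (T.l 1) (T.c (T.b (T.l 1) (T.c (T.b (T.l 1) (T.l 204)) (T.b (T.l 1) (T.l 204)))) (T.b (T.l 1) (T.c (T.b (T.l 1) (T.l 204)) (T.b (T.l 1) (T.l 204))))))) (T.a (T.c (T.b (T.a (T.l 1) (T.c (T.b (T.l 1) (T.l 204)) (T.b (T.l 1) (T.l 204)))) (T.l 204)) (T.b (T.a (T.l 1) (T.c (T.b (T.l 1) (T.l 204)) (T.b (T.l 1) (T.l 204)))) (T.l 204))) (T.l 204)))) (T.l 204)) (T.b (T.c (T.b (T.a (T.l 1) (T.a (T.l 1) (T.c (T.b (T.l 1) (T.c (T.b (T.l 1) (T.l 204)) (T.b (T.l 1) (T.l 204)))) (T.b (T.l 1) (T.c (T.b (T.l 1) (T.l 204)) (T.b (T.l 1) (T.l 204))))))) (T.a (T.c (T.b (T.a (T.l 1) (T.c (T.b (T.l 1) (T.l 204)) (T.b (T.l 1) (T.l 204)))) (T.l 204)) (T.b (T.a (T.l 1) (T.c (T.b (T.l 1) (T.l 204)) (T.b (T.l 1) (T.l 204)))) (T.l 204))) (T.l 204))) (T.b (T.a (T.l 1) (T.a (T.l 1) (T.c (T.b (T.l 1)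 (T.c (T.b (T.l 1) (T.l 204)) (T.b (T.l 1) (T.l 204)))) (T.b (T.l 1) (T.c (T.b (T.l 1) (T.l 204)) (T.b (T.l 1) (T.l 204))))))) (T.a (T.c (T.b (T.a (T.l 1) (T.c (T.b (T.l 1) (T.l 204)) (T.b (T.l 1) (T.l 204)))) (T.l 204)) (T.b (T.a (T.l 1) (T.c (T.b (T.l 1) (T.l 204)) (T.b (T.l 1) (T.l 204)))) (T.l 204))) (T.l 204)))) (T.l 204))) (T.l 204)) (T.b (T.c (T.b (T.c (T.b (T.a (T.l 1) (T.a (T.l 1) (T.c (T.b (T.l 1) (T.c (T.b (T.l 1) (T.l 204)) (T.b (T.l 1) (T.l 204)))) (T.b (T.l 1) (T.c (T.b (T.l 1) (T.l 204)) (T.b (T.l 1) (T.l 204))))))) (T.a (T.c (T.b (T.a (T.l 1) (T.c (T.b (T.l 1) (T.l 204)) (T.b (T.l 1) (T.l 204)))) (T.l 204)) (T.b (T.a (T.l 1) (T.c (T.b (T.l 1) (T.l 204)) (T.b (T.l 1) (T.l 204)))) (T.l 204))) (T.l 204))) (T.b (T.a (T.l 1) (T.a (T.l 1) (T.c (T.b (T.l 1) (T.c (T.b (T.l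 1) (T.l 204)) (T.b (T.l 1) (T.l 204)))) (T.b (T.l 1) (T.c (T.b (T.l 1) (T.l 204)) (T.b (T.l 1) (T.l 204))))))) (T.a (T.c (T.b (T.a (T.l 1) (T.c (T.b (T.l 1) (T.l 204)) (T.b (T.l 1) (T.l 204)))) (T.l 204)) (T.b (T.a (T.l 1) (T.c (T.b (T.l 1) (T.l 204)) (T.b (T.l 1) (T.l 204)))) (T.l 204))) (T.l 204)))) (T.l 204)) (T.b (T.c (T.b (T.a (T.l 1) (T.a (T.l 1) (T.c (T.b (T.l 1) (T.c (T.b (T.l 1) (T.l 204)) (T.b (T.l 1) (T.l 204)))) (T.b (T.l 1) (T.c (T.b (T.l 1) (T.l 204)) (T.b (T.l 1) (T.l 204))))))) (T.a (T.c (T.b (T.a (T.l 1) (T.c (T.b (T.l 1) (T.l 204)) (T.b (T.l 1) (T.l 204)))) (T.l 204)) (T.b (T.a (T.l 1) (T.c (T.b (T.l 1) (T.l 204)) (T.b (T.l 1) (T.l 204)))) (T.l 204))) (T.l 204))) (T.b (T.a (T.l 1) (T.a (T.l 1) (T.c (T.b (T.l 1) (T.c (T.b (T.l 1) (T.l 204)) (T.b (T.l 1) (T.l 204))))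 (T.b (T.l 1) (T.c (T.b (T.l 1) (T.l 204)) (T.b (T.l 1) (T.l 204))))))) (T.a (T.c (T.b (T.a (T.l 1) (T.c (T.b (T.l 1) (T.l 204)) (T.b (T.l 1) (T.l 204)))) (T.l 204)) (T.b (T.a (T.l 1) (T.c (T.b (T.l 1) (T.l 204)) (T.b (T.l 1) (T.l 204)))) (T.l 204))) (T.l 204)))) (T.l 204))) (T.l 204))), by decide +kernel⟩

def B202R_040_21_682_2 :
    ∃ t, chk3 (onCell 0 33554432 0 1073741824 33554432 16777216 (corTK [] false 3 c0N cB202R gN0q2 gN4q2 gN0q0 gN1q0 true true)) t 21 682 2 = true :=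
  ⟨(T.c (T.b (T.c (T.b (T.c (T.b (T.a (T.c (T.b (T.a (T.l 1) (T.c (T.b (T.l 1) (T.a (T.l 1) (T.l 204))) (T.b (T.l 1) (T.a (T.l 1) (T.l 204))))) (T.a (T.a (T.c (T.b (T.l 1) (T.l 204)) (T.b (T.l 1) (T.l 204))) (T.l 204)) (T.l 204))) (T.b (T.a (T.l 1) (T.c (T.b (T.l 1) (T.a (T.l 1) (T.l 204))) (T.b (T.l 1) (T.a (T.l 1) (T.l 204))))) (T.a (T.a (T.c (T.b (T.l 1) (T.l 204)) (T.b (T.l 1) (T.l 204))) (T.l 204)) (T.l 204)))) (T.a (T.a (T.c (T.b (T.c (T.b (T.l 1) (T.l 204)) (T.b (T.l 1) (T.l 204))) (T.l 204)) (T.a (T.b (T.c (T.b (T.l 1) (T.l 204)) (T.b (T.l 1) (T.l 204))) (T.l 204)) (T.l 204))) (T.l 204)) (T.l 204))) (T.l 204)) (T.b (T.a (T.c (T.b (T.a (T.l 1) (T.c (T.b (T.l 1) (T.a (T.l 1) (T.l 204))) (T.b (T.l 1) (T.a (T.l 1) (T.l 204))))) (T.a (T.a (T.c (T.b (T.l 1) (T.l 204)) (T.b (T.l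 1) (T.l 204))) (T.l 204)) (T.l 204))) (T.b (T.a (T.l 1) (T.c (T.b (T.l 1) (T.a (T.l 1) (T.l 204))) (T.b (T.l 1) (T.a (T.l 1) (T.l 204))))) (T.a (T.a (T.c (T.b (T.l 1) (T.l 204)) (T.b (T.l 1) (T.l 204))) (T.l 204)) (T.l 204)))) (T.a (T.a (T.a (T.c (T.b (T.c (T.b (T.l 1) (T.l 204)) (T.b (T.l 1) (T.l 204))) (T.l 204)) (T.b (T.c (T.b (T.l 1) (T.l 204)) (T.b (T.l 1) (T.l 204))) (T.l 204))) (T.l 204)) (T.l 204)) (T.l 204))) (T.l 204))) (T.l 204)) (T.b (T.c (T.b (T.a (T.c (T.b (T.a (T.l 1) (T.c (T.b (T.l 1) (T.a (T.l 1) (T.l 204))) (T.b (T.l 1) (T.a (T.l 1) (T.l 204))))) (T.a (T.a (T.c (T.b (T.l 1) (T.l 204)) (T.b (T.l 1) (T.l 204))) (T.l 204)) (T.l 204))) (T.b (T.a (T.l 1) (T.c (T.b (T.l 1) (T.a (T.l 1) (T.l 204))) (T.b (T.l 1) (T.a (T.l 1) (T.l 204))))) (T.a (T.a (T.c (T.b (T.l 1) (T.l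 204)) (T.b (T.l 1) (T.l 204))) (T.l 204)) (T.l 204)))) (T.a (T.a (T.a (T.c (T.b (T.c (T.b (T.l 1) (T.l 204)) (T.b (T.l 1) (T.l 204))) (T.l 204)) (T.b (T.c (T.b (T.l 1) (T.l 204)) (T.b (T.l 1) (T.l 204))) (T.l 204))) (T.l 204)) (T.l 204)) (T.l 204))) (T.l 204)) (T.b (T.a (T.c (T.b (T.a (T.l 1) (T.c (T.b (T.l 1) (T.a (T.l 1) (T.l 204))) (T.b (T.l 1) (T.a (T.l 1) (T.l 204))))) (T.a (T.a (T.c (T.b (T.l 1) (T.l 204)) (T.l 204)) (T.l 204)) (T.l 204))) (T.b (T.a (T.l 1) (T.c (T.b (T.l 1) (T.a (T.l 1) (T.l 204))) (T.b (T.l 1) (T.a (T.l 1) (T.l 204))))) (T.l 204))) (T.a (T.a (T.a (T.c (T.b (T.c (T.b (T.l 1) (T.l 204)) (T.b (T.l 1) (T.l 204))) (T.l 204)) (T.b (T.c (T.b (T.l 1) (T.l 204)) (T.b (T.l 1) (T.l 204))) (T.l 204))) (T.l 204)) (T.l 204)) (T.l 204))) (T.l 204))) (T.l 204))) (T.l 204))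 (T.b (T.c (T.b (T.c (T.b (T.a (T.c (T.b (T.a (T.l 1) (T.c (T.b (T.l 1) (T.a (T.l 1) (T.l 204))) (T.b (T.l 1) (T.a (T.l 1) (T.l 204))))) (T.l 204)) (T.b (T.a (T.l 1) (T.c (T.b (T.l 1) (T.a (T.l 1) (T.l 204))) (T.b (T.l 1) (T.a (T.l 1) (T.l 204))))) (T.l 204))) (T.a (T.a (T.a (T.c (T.b (T.c (T.b (T.l 1) (T.l 204)) (T.b (T.l 1) (T.l 204))) (T.l 204)) (T.b (T.c (T.b (T.l 1) (T.l 204)) (T.b (T.l 1) (T.l 204))) (T.l 204))) (T.l 204)) (T.l 204)) (T.l 204))) (T.l 204)) (T.b (T.a (T.c (T.b (T.a (T.l 1) (T.c (T.b (T.l 1) (T.a (T.l 1) (T.l 204))) (T.b (T.l 1) (T.a (T.l 1) (T.l 204))))) (T.l 204)) (T.b (T.a (T.l 1) (T.c (T.b (T.l 1) (T.a (T.l 1) (T.l 204))) (T.b (T.l 1) (T.a (T.l 1) (T.l 204))))) (T.l 204))) (T.a (T.a (T.a (T.c (T.b (T.c (T.b (T.l 1) (T.l 204)) (T.b (T.l 1) (T.l 204))) (T.l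 204)) (T.b (T.c (T.b (T.l 1) (T.l 204)) (T.b (T.l 1) (T.l 204))) (T.l 204))) (T.l 204)) (T.l 204)) (T.l 204))) (T.l 204))) (T.l 204)) (T.b (T.c (T.b (T.a (T.c (T.b (T.a (T.l 1) (T.c (T.b (T.l 1) (T.a (T.l 1) (T.l 204))) (T.b (T.l 1) (T.a (T.l 1) (T.l 204))))) (T.l 204)) (T.b (T.a (T.l 1) (T.c (T.b (T.l 1) (T.a (T.l 1) (T.l 204))) (T.b (T.l 1) (T.a (T.l 1) (T.l 204))))) (T.l 204))) (T.a (T.a (T.a (T.c (T.b (T.c (T.b (T.l 1) (T.l 204)) (T.b (T.l 1) (T.l 204))) (T.l 204)) (T.b (T.c (T.b (T.l 1) (T.l 204)) (T.b (T.l 1) (T.l 204))) (T.l 204))) (T.l 204)) (T.l 204)) (T.l 204))) (T.l 204)) (T.b (T.a (T.c (T.b (T.a (T.l 1) (T.c (T.b (T.l 1) (T.a (T.l 1) (T.l 204))) (T.b (T.l 1) (T.l 204)))) (T.l 204)) (T.b (T.a (T.l 1) (T.c (T.b (T.l 1) (T.l 204)) (T.b (T.l 1) (T.l 204)))) (T.l 204)))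 (T.a (T.a (T.a (T.c (T.b (T.c (T.b (T.l 1) (T.l 204)) (T.b (T.l 1) (T.l 204))) (T.l 204)) (T.b (T.c (T.b (T.l 1) (T.l 204)) (T.b (T.l 1) (T.l 204))) (T.l 204))) (T.l 204)) (T.l 204)) (T.l 204))) (T.l 204))) (T.l 204))) (T.l 204))), by decide +kernel⟩

def B202R_040_10_683_2 :
    ∃ t, chk3 (onCell 0 33554432 0 1073741824 33554432 16777216 (corTK [] false 3 c0N cB202R gN0q2 gN4q2 gN0q0 gN1q0 true true)) t 10 683 2 = true :=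
  ⟨(T.l 204), by decide +kernel⟩

def B202R_040_10_341_3 :
    ∃ t, chk3 (onCell 0 33554432 0 1073741824 33554432 16777216 (corTK [] false 3 c0N cB202R gN0q2 gN4q2 gN0q0 gN1q0 true true)) t 10 341 3 = true :=
  ⟨(T.b (T.a (T.c (T.b (T.c (T.b (T.c (T.b (T.a (T.l 1) (T.a (T.l 1) (T.c (T.b (T.l 1) (T.c (T.b (T.l 1) (T.l 204)) (T.b (T.l 1) (T.l 204)))) (T.b (T.l 1) (T.c (T.b (T.l 1) (T.l 204)) (T.b (T.l 1) (T.l 204))))))) (T.a (T.c (T.b (T.a (T.l 1) (T.c (T.b (T.l 1) (T.l 204)) (T.b (T.l 1) (T.l 204)))) (T.l 204)) (T.b (T.a (T.l 1) (T.c (T.b (T.l 1) (T.l 204)) (T.b (T.l 1) (T.l 204)))) (T.l 204))) (T.l 204))) (T.b (T.a (T.l 1) (T.a (T.l 1) (T.c (T.b (T.l 1) (T.c (T.b (T.l 1) (T.l 204)) (T.b (T.l 1) (T.l 204)))) (T.b (T.l 1) (T.c (T.b (T.l 1) (T.l 204)) (T.b (T.l 1) (T.l 204)))))))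 (T.a (T.c (T.b (T.a (T.l 1) (T.c (T.b (T.l 1) (T.l 204)) (T.b (T.l 1) (T.l 204)))) (T.l 204)) (T.b (T.a (T.l 1) (T.c (T.b (T.l 1) (T.l 204)) (T.b (T.l 1) (T.l 204)))) (T.l 204))) (T.l 204)))) (T.l 204)) (T.b (T.c (T.b (T.a (T.l 1) (T.a (T.l 1) (T.c (T.b (T.l 1) (T.c (T.b (T.l 1) (T.l 204)) (T.b (T.l 1) (T.l 204)))) (T.b (T.l 1) (T.c (T.b (T.l 1) (T.l 204)) (T.b (T.l 1) (T.l 204))))))) (T.a (T.c (T.b (T.a (T.l 1) (T.c (T.b (T.l 1) (T.l 204)) (T.b (T.l 1) (T.l 204)))) (T.l 204)) (T.b (T.a (T.l 1) (T.c (T.b (T.l 1) (T.l 204)) (T.b (T.l 1) (T.l 204)))) (T.l 204))) (T.l 204))) (T.b (T.a (T.l 1) (T.a (T.l 1) (T.c (T.b (T.l 1) (T.c (T.b (T.l 1) (T.l 204)) (T.b (T.l 1) (T.l 204)))) (T.b (T.l 1) (T.c (T.b (T.l 1) (T.l 204)) (T.b (T.l 1) (T.l 204))))))) (T.a (T.c (T.b (T.a (T.l 1) (T.c (T.b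 (T.l 1) (T.l 204)) (T.b (T.l 1) (T.l 204)))) (T.l 204)) (T.b (T.a (T.l 1) (T.c (T.b (T.l 1) (T.l 204)) (T.b (T.l 1) (T.l 204)))) (T.l 204))) (T.l 204)))) (T.l 204))) (T.l 204)) (T.b (T.c (T.b (T.c (T.b (T.a (T.l 1) (T.a (T.l 1) (T.c (T.b (T.l 1) (T.c (T.b (T.l 1) (T.l 204)) (T.b (T.l 1) (T.l 204)))) (T.b (T.l 1) (T.c (T.b (T.l 1) (T.l 204)) (T.b (T.l 1) (T.l 204))))))) (T.a (T.c (T.b (T.a (T.l 1) (T.c (T.b (T.l 1) (T.l 204)) (T.b (T.l 1) (T.l 204)))) (T.l 204)) (T.b (T.a (T.l 1) (T.c (T.b (T.l 1) (T.l 204)) (T.b (T.l 1) (T.l 204)))) (T.l 204))) (T.l 204))) (T.b (T.a (T.l 1) (T.a (T.l 1) (T.c (T.b (T.l 1) (T.c (T.b (T.l 1) (T.l 204)) (T.b (T.l 1) (T.l 204)))) (T.b (T.l 1) (T.c (T.b (T.l 1) (T.l 204)) (T.b (T.l 1) (T.l 204))))))) (T.a (T.c (T.b (T.a (T.l 1) (T.c (T.b (T.l 1) (T.l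 204)) (T.b (T.l 1) (T.l 204)))) (T.l 204)) (T.b (T.a (T.l 1) (T.c (T.b (T.l 1) (T.l 204)) (T.b (T.l 1) (T.l 204)))) (T.l 204))) (T.l 204)))) (T.l 204)) (T.b (T.c (T.b (T.a (T.l 1) (T.a (T.l 1) (T.c (T.b (T.l 1) (T.c (T.b (T.l 1) (T.l 204)) (T.b (T.l 1) (T.l 204)))) (T.b (T.l 1) (T.c (T.b (T.l 1) (T.l 204)) (T.b (T.l 1) (T.l 204))))))) (T.a (T.c (T.b (T.a (T.l 1) (T.c (T.b (T.l 1) (T.l 204)) (T.b (T.l 1) (T.l 204)))) (T.l 204)) (T.b (T.a (T.l 1) (T.c (T.b (T.l 1) (T.l 204)) (T.b (T.l 1) (T.l 204)))) (T.l 204))) (T.l 204))) (T.b (T.a (T.l 1) (T.a (T.l 1) (T.c (T.b (T.l 1) (T.c (T.b (T.l 1) (T.l 204)) (T.b (T.l 1) (T.l 204)))) (T.b (T.l 1) (T.c (T.b (T.l 1) (T.l 204)) (T.b (T.l 1) (T.l 204))))))) (T.a (T.c (T.b (T.a (T.l 1) (T.c (T.b (T.l 1) (T.l 204)) (T.b (T.l 1) (T.l 204)))) (T.l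 204)) (T.b (T.a (T.l 1) (T.c (T.b (T.l 1) (T.l 204)) (T.b (T.l 1) (T.l 204)))) (T.l 204))) (T.l 204)))) (T.l 204))) (T.l 204))) (T.c (T.b (T.c (T.b (T.c (T.b (T.a (T.c (T.b (T.a (T.l 1) (T.c (T.b (T.l 1) (T.l 204)) (T.b (T.l 1) (T.l 204)))) (T.l 204)) (T.b (T.a (T.l 1) (T.c (T.b (T.l 1) (T.l 204)) (T.b (T.l 1) (T.l 204)))) (T.l 204))) (T.a (T.a (T.a (T.c (T.b (T.c (T.b (T.l 1) (T.l 204)) (T.b (T.l 1) (T.l 204))) (T.l 204)) (T.b (T.c (T.b (T.l 1) (T.l 204)) (T.b (T.l 1) (T.l 204))) (T.l 204))) (T.l 204)) (T.l 204)) (T.l 204))) (T.l 204)) (T.b (T.a (T.c (T.b (T.a (T.l 1) (T.c (T.b (T.l 1) (T.l 204)) (T.b (T.l 1) (T.l 204)))) (T.l 204)) (T.b (T.a (T.l 1) (T.c (T.b (T.l 1) (T.l 204)) (T.b (T.l 1) (T.l 204)))) (T.l 204))) (T.a (T.a (T.a (T.c (T.b (T.c (T.b (T.l 1) (T.l 204)) (T.b (T.l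 1) (T.l 204))) (T.l 204)) (T.b (T.c (T.b (T.l 1) (T.l 204)) (T.b (T.l 1) (T.l 204))) (T.l 204))) (T.l 204)) (T.l 204)) (T.l 204))) (T.l 204))) (T.l 204)) (T.b (T.c (T.b (T.a (T.c (T.b (T.a (T.l 1) (T.c (T.b (T.l 1) (T.l 204)) (T.b (T.l 1) (T.l 204)))) (T.l 204)) (T.b (T.a (T.l 1) (T.c (T.b (T.l 1) (T.l 204)) (T.b (T.l 1) (T.l 204)))) (T.l 204))) (T.a (T.a (T.a (T.c (T.b (T.c (T.b (T.l 1) (T.l 204)) (T.b (T.l 1) (T.l 204))) (T.l 204)) (T.b (T.c (T.b (T.l 1) (T.l 204)) (T.b (T.l 1) (T.l 204))) (T.l 204))) (T.l 204)) (T.l 204)) (T.l 204))) (T.l 204)) (T.b (T.a (T.c (T.b (T.a (T.l 1) (T.c (T.b (T.l 1) (T.l 204)) (T.b (T.l 1) (T.l 204)))) (T.l 204)) (T.b (T.a (T.l 1) (T.c (T.b (T.l 1) (T.l 204)) (T.b (T.l 1) (T.l 204)))) (T.l 204))) (T.a (T.a (T.a (T.c (T.b (T.c (T.b (T.l 1) (T.l 204))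 (T.b (T.l 1) (T.l 204))) (T.l 204)) (T.b (T.c (T.b (T.l 1) (T.l 204)) (T.b (T.l 1) (T.l 204))) (T.l 204))) (T.l 204)) (T.l 204)) (T.l 204))) (T.l 204))) (T.l 204))) (T.l 204)) (T.b (T.c (T.b (T.c (T.b (T.a (T.c (T.b (T.a (T.l 1) (T.c (T.b (T.l 1) (T.l 204)) (T.b (T.l 1) (T.l 204)))) (T.l 204)) (T.b (T.a (T.l 1) (T.c (T.b (T.l 1) (T.l 204)) (T.b (T.l 1) (T.l 204)))) (T.l 204))) (T.a (T.a (T.a (T.c (T.b (T.c (T.b (T.l 1) (T.l 204)) (T.b (T.l 1) (T.l 204))) (T.l 204)) (T.b (T.c (T.b (T.l 1) (T.l 204)) (T.b (T.l 1) (T.l 204))) (T.l 204))) (T.l 204)) (T.l 204)) (T.l 204))) (T.l 204)) (T.b (T.a (T.c (T.b (T.a (T.l 1) (T.c (T.b (T.l 1) (T.l 204)) (T.b (T.l 1) (T.l 204)))) (T.l 204)) (T.b (T.a (T.l 1) (T.c (T.b (T.l 1) (T.l 204)) (T.b (T.l 1) (T.l 204)))) (T.l 204))) (T.a (T.a (T.c (T.l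 204) (T.l 204)) (T.l 204)) (T.l 204))) (T.l 204))) (T.l 204)) (T.b (T.c (T.b (T.a (T.c (T.b (T.a (T.l 1) (T.c (T.b (T.l 1) (T.l 204)) (T.b (T.l 1) (T.l 204)))) (T.l 204)) (T.b (T.a (T.l 1) (T.c (T.b (T.l 1) (T.l 204)) (T.b (T.l 1) (T.l 204)))) (T.l 204))) (T.a (T.l 204) (T.l 204))) (T.l 204)) (T.b (T.a (T.c (T.b (T.a (T.l 1) (T.c (T.b (T.l 1) (T.l 204)) (T.b (T.l 1) (T.l 204)))) (T.l 204)) (T.b (T.a (T.l 1) (T.c (T.b (T.l 1) (T.l 204)) (T.b (T.l 1) (T.l 204)))) (T.l 204))) (T.a (T.l 204) (T.l 204))) (T.l 204))) (T.l 204))) (T.l 204)))) (T.l 204)), by decide +kernel⟩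

def B202R_040_11_341_1 :
    ∃ t, chk3 (onCell 0 33554432 0 1073741824 33554432 16777216 (corTK [] false 3 c0N cB202R gN0q2 gN4q2 gN0q0 gN1q0 true true)) t 11 341 1 = true :=
  ⟨(T.a (T.c (T.l 204) (T.l 204)) (T.l 204)), by decide +kernel⟩

def B202R_040_3_341_1 :
    ∃ t, chk3 (onCell 0 33554432 0 1073741824 33554432 16777216 (corTK [] false 3 c0N cB202R gN0q2 gN4q2 gN0q0 gN1q0 true true)) t 3 341 1 = true :=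
  ⟨(T.a (T.a (T.l 204) (T.a (T.l 204) (T.l 204))) (T.a (T.l 0) (T.l 0))), by decide +kernel⟩

def B202R_040_1_171_1 :
    ∃ t, chk3 (onCell 0 33554432 0 1073741824 33554432 16777216 (corTK [] false 3 c0N cB202R gN0q2 gN4q2 gN0q0 gN1q0 true true)) t 1 171 1 = true :=
  ⟨(T.b (T.a (T.a (T.l 204) (T.a (T.l 204) (T.l 204))) (T.a (T.a (T.l 204) (T.l 0)) (T.l 0))) (T.a (T.a (T.l 204) (T.l 0)) (T.a (T.l 0) (T.l 0)))), by decide +kernel⟩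

def B202R_040_1_43_1 :
    ∃ t, chk3 (onCell 0 33554432 0 1073741824 33554432 16777216 (corTK [] false 3 c0N cB202R gN0q2 gN4q2 gN0q0 gN1q0 true true)) t 1 43 1 = true :=
  ⟨(T.a (T.a (T.l 0) (T.l 0)) (T.a (T.b (T.l 0) (T.l 0)) (T.l 0))), by decide +kernel⟩

def B202R_040_1_11_1 :
    ∃ t, chk3 (onCell 0 33554432 0 1073741824 33554432 16777216 (corTK [] false 3 c0N cB202R gN0q2 gN4q2 gN0q0 gN1q0 true true)) t 1 11 1 = true :=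
  ⟨(T.a (T.a (T.l 816) (T.b (T.l 0) (T.l 0))) (T.a (T.b (T.l 0) (T.l 0)) (T.b (T.l 0) (T.l 0)))), by decide +kernel⟩

def B202R_040_1_3_1 :
    ∃ t, chk3 (onCell 0 33554432 0 1073741824 33554432 16777216 (corTK [] false 3 c0N cB202R gN0q2 gN4q2 gN0q0 gN1q0 true true)) t 1 3 1 = true :=
  ⟨(T.b (T.b (T.b (T.a (T.a (T.l 816) (T.l 0)) (T.l 0)) (T.l 2)) (T.l 2)) (T.l 2)), by decide +kernel⟩

end Pool.Agent.Strip051.G.I1_32_3_64.Tab.CN
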