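import Pool.Agent.Strip051.G.I1_32_3_64.Gn
import Pool.Agent.Strip051.PB.Corns
import Pool.Agent.Strip051.PB.CornK
import Pool.Agent.Strip051.G.I1_32_3_64.CNB_4
import Pool.Agent.Strip051.G.I1_32_3_64.CNB_5
import Pool.Agent.Strip051.G.I1_32_3_64.CNB_6
import Pool.Agent.Strip051.G.I1_32_3_64.CNB_7
import Pool.Agent.Strip051.G.I1_32_3_64.CNB_8
import Pool.Agent.Strip051.G.I1_32_3_64.CNB_9

/-! # Certificates of the aligned corners (generated) -/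

set_option linter.all false

namespace Pool.Agent.Strip051.G.I1_32_3_64.Tab.CN

open Pool.Agent.Strip051.PB

def B102E_020 :
    ∃ t, chk3 (onCell 0 33554432 0 1073741824 33554432 16777216 (corTK [[⟨0, 1, 0, 6291456⟩, ⟨1, 0, 1, 16777216⟩, ⟨2, 1, 1, 16777216⟩, ⟨1, 0, 0, 67108864⟩, ⟨1, 1, 0, 1056964608⟩, ⟨2, 1, 0, 67108864⟩, ⟨2, 2, 0, 1056964608⟩]] false 3 c0N cB102E gN0q1 gN2q2 gN0q0 gN1q0 true true)) t 1 1 1 = true :=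
  ⟨(T.b (T.b (T.b (T.a (T.a (T.a (T.b (T.b (T.b (T.l 204) (T.l 204)) (T.l 204)) (T.l 204)) (T.b (T.b (T.b (T.b (T.a (T.a (T.c (T.l 204) (T.l 204)) (T.l 204)) (T.a (T.l 204) (T.l 204))) (T.l 204)) (T.l 204)) (T.l 0)) (T.l 0))) (T.b (T.b (T.b (T.a (T.b (T.b (T.a (T.c (T.l 204) (T.l 204)) (T.a (T.l 204) (T.l 204))) (T.l 204)) (T.l 204)) (T.b (T.b (T.a (T.c (T.a (T.l 204) (T.c (T.l 204) (T.l 204))) (T.a (T.l 204) (T.l 204))) (T.c (T.b (T.c (T.a (T.l 220) (T.a (T.l 220) (T.c (T.l 476) (T.l 476)))) (T.a (T.l 220) (T.a (T.l 220) (T.l 476)))) (T.l 204)) (T.b (T.a (T.l 220) (T.a (T.l 220) (T.c (T.l 476) (T.l 204)))) (T.l 204)))) (T.l 204)) (T.l 204))) (T.l 204)) (T.l 0)) (T.l 0))) (T.b (T.b (T.a (T.b (T.b (T.a (T.b (T.c (T.b (T.c (T.b (T.a (T.c (T.b (T.c (T.b (T.a (T.a (T.l 476) (T.l 476)) (T.a (T.l 476) (T.l 1024)))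 (T.l 204)) (T.b (T.a (T.a (T.l 476) (T.l 476)) (T.a (T.l 476) (T.l 476))) (T.l 204))) (T.l 204)) (T.b (T.c (T.b (T.a (T.a (T.l 476) (T.l 476)) (T.l 476)) (T.l 204)) (T.a (T.l 476) (T.l 476))) (T.l 204))) (T.c (T.a (T.a (T.l 476) (T.l 1024)) (T.l 1024)) (T.b (T.c (T.b (T.a (T.a (T.l 476) (T.l 476)) (T.a (T.l 476) (T.l 1024))) (T.l 204)) (T.a (T.l 476) (T.l 476))) (T.l 204)))) (T.l 204)) (T.b (T.a (T.c (T.b (T.a (T.a (T.l 476) (T.l 476)) (T.l 476)) (T.l 204)) (T.a (T.l 476) (T.l 476))) (T.c (T.b (T.c (T.a (T.l 476) (T.l 476)) (T.a (T.l 476) (T.l 476))) (T.l 204)) (T.a (T.l 476) (T.l 476)))) (T.l 204))) (T.l 204)) (T.b (T.c (T.b (T.a (T.a (T.c (T.l 476) (T.l 476)) (T.l 476)) (T.a (T.l 476) (T.c (T.l 476) (T.l 476)))) (T.l 204)) (T.b (T.a (T.a (T.l 476) (T.l 476)) (T.a (T.l 476) (T.l 476))) (T.l 204))) (T.l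 204))) (T.l 204)) (T.b (T.c (T.b (T.c (T.a (T.a (T.c (T.l 1024) (T.a (T.l 476) (T.l 1024))) (T.l 1024)) (T.l 1024)) (T.b (T.c (T.b (T.a (T.c (T.a (T.l 476) (T.l 476)) (T.a (T.l 476) (T.l 476))) (T.a (T.a (T.l 476) (T.l 1024)) (T.l 1024))) (T.l 460)) (T.b (T.a (T.a (T.l 476) (T.l 476)) (T.a (T.l 476) (T.a (T.l 476) (T.l 476)))) (T.l 476))) (T.l 204))) (T.l 204)) (T.b (T.c (T.b (T.c (T.b (T.a (T.a (T.l 476) (T.l 476)) (T.a (T.l 476) (T.l 476))) (T.l 476)) (T.b (T.a (T.a (T.l 476) (T.l 476)) (T.a (T.l 476) (T.l 476))) (T.l 476))) (T.l 204)) (T.b (T.c (T.b (T.a (T.a (T.l 476) (T.l 476)) (T.a (T.l 476) (T.l 476))) (T.l 476)) (T.b (T.a (T.a (T.l 476) (T.l 476)) (T.a (T.l 476) (T.l 476))) (T.l 476))) (T.l 204))) (T.l 204))) (T.l 204))) (T.l 204)) (T.l 204)) (T.b (T.b (T.b (T.c (T.a (T.a (T.c (T.l 1024) (T.a (T.c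 (T.l 1024) (T.a (T.l 476) (T.l 1024))) (T.l 1024))) (T.l 1024)) (T.l 1024)) (T.b (T.a (T.c (T.b (T.c (T.b (T.a (T.a (T.l 476) (T.l 476)) (T.a (T.l 476) (T.l 1024))) (T.l 204)) (T.b (T.a (T.a (T.l 476) (T.l 476)) (T.a (T.l 476) (T.l 476))) (T.l 204))) (T.l 204)) (T.b (T.c (T.b (T.a (T.a (T.l 476) (T.l 476)) (T.a (T.l 476) (T.l 476))) (T.l 204)) (T.b (T.a (T.a (T.l 476) (T.l 476)) (T.a (T.l 476) (T.l 476))) (T.l 204))) (T.l 204))) (T.c (T.a (T.a (T.c (T.l 1024) (T.a (T.l 476) (T.l 1024))) (T.l 1024)) (T.l 1024)) (T.b (T.c (T.b (T.a (T.a (T.l 476) (T.l 476)) (T.a (T.l 476) (T.l 1024))) (T.l 204)) (T.b (T.a (T.a (T.l 476) (T.l 476)) (T.a (T.l 476) (T.l 476))) (T.l 204))) (T.l 204)))) (T.l 204))) (T.l 204)) (T.l 204)) (T.l 204))) (T.l 0)) (T.l 0))) (T.a (T.a (T.a (T.l 0) (T.l 0)) (T.l 0)) (T.b (T.l 0) (T.l 0))))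 (T.a (T.a (T.a (T.l 816) (T.l 0)) (T.l 0)) (T.b (T.l 0) (T.l 0)))) (T.b (T.b (T.b (T.a (T.b (T.a (T.a (T.l 816) (T.l 2)) (T.l 2)) (T.l 2)) (T.l 2)) (T.l 2)) (T.l 2)) (T.l 2))), by decide +kernel⟩

def B102E_021 :
    ∃ t, chk3 (onCell 0 33554432 0 1073741824 33554432 16777216 (corTK [[⟨0, 1, 0, 6291456⟩, ⟨1, 0, 1, 16777216⟩, ⟨2, 1, 1, 16777216⟩, ⟨1, 0, 0, 67108864⟩, ⟨1, 1, 0, 1056964608⟩, ⟨2, 1, 0, 67108864⟩, ⟨2, 2, 0, 1056964608⟩]] false 3 c0N cB102E gN0q1 gN2q2 gN1q0 gN2q0 true true)) t 1 1 1 = true :=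
  ⟨(T.b (T.b (T.l 1) (T.b (T.l 1) (T.a (T.a (T.a (T.l 816) (T.l 816)) (T.l 0)) (T.l 0)))) (T.b (T.a (T.a (T.l 816) (T.l 0)) (T.l 0)) (T.b (T.a (T.a (T.l 816) (T.l 816)) (T.l 816)) (T.a (T.a (T.a (T.l 816) (T.l 816)) (T.l 816)) (T.l 816))))), by decide +kernel⟩

def B102E_022 :
    ∃ t, chk3 (onCell 0 33554432 0 1073741824 33554432 16777216 (corTK [[⟨0, 1, 0, 6291456⟩, ⟨1, 0, 1, 16777216⟩, ⟨2, 1, 1, 16777216⟩, ⟨1, 0, 0, 67108864⟩, ⟨1, 1, 0, 1056964608⟩, ⟨2, 1, 0, 67108864⟩, ⟨2, 2, 0, 1056964608⟩]] false 3 c0N cB102E gN0q1 gN2q2 gN2q0 gN3q0 true false)) t 1 1 1 = true :=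
  ⟨(T.b (T.l 1) (T.b (T.l 1) (T.b (T.l 1) (T.a (T.b (T.l 1) (T.a (T.a (T.l 816) (T.l 816)) (T.l 816))) (T.l 816))))), by decide +kernel⟩

def B102L_200 :
    ∃ t, chk3 (onCell 0 33554432 0 1073741824 33554432 16777216 (corTK [[⟨0, 1, 2, 25165824⟩, ⟨1, 0, 1, 25165824⟩, ⟨2, 1, 0, 7864320⟩, ⟨0, 0, 0, 1056964608⟩, ⟨0, 1, 0, 67108864⟩, ⟨1, 0, 0, 67108864⟩, ⟨1, 1, 0, 1056964608⟩]] false 3 c0N cB102L gN2q1 gN0q2 gN0q0 gN1q0 true true)) t 1 1 1 = true :=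
  ⟨(T.b (T.b (T.l 2) (T.b (T.l 2) (T.b (T.l 2) (T.a (T.b (T.l 2) (T.a (T.a (T.l 816) (T.l 2)) (T.l 2))) (T.l 2))))) (T.b (T.b (T.a (T.a (T.a (T.l 816) (T.l 0)) (T.l 0)) (T.l 0)) (T.a (T.a (T.a (T.l 816) (T.l 0)) (T.l 0)) (T.b (T.l 0) (T.l 0)))) (T.b (T.b (T.a (T.a (T.a (T.l 816) (T.l 0)) (T.l 0)) (T.l 0)) (T.a (T.a (T.a (T.l 816) (T.l 0)) (T.l 0)) (T.l 0))) (T.a (T.a (T.a (T.b (T.l 816) (T.l 816)) (T.b (T.l 0) (T.b (T.l 0) (T.b (T.l 0) (T.a (T.a (T.b (T.l 816) (T.l 816)) (T.l 816)) (T.a (T.l 816) (T.l 816))))))) (T.b (T.l 0) (T.b (T.l 0) (T.a (T.b (T.l 816) (T.b (T.l 816) (T.a (T.a (T.l 816) (T.c (T.l 816) (T.l 816))) (T.b (T.l 816) (T.c (T.a (T.l 816) (T.l 816)) (T.a (T.l 816) (T.l 816))))))) (T.b (T.l 816) (T.b (T.l 816) (T.b (T.l 816) (T.a (T.c (T.b (T.l 816) (T.c (T.a (T.l 816) (T.c (T.l 884) (T.l 880)))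 (T.a (T.l 816) (T.l 884)))) (T.a (T.l 816) (T.c (T.l 820) (T.l 816)))) (T.c (T.b (T.l 816) (T.c (T.b (T.l 816) (T.c (T.b (T.l 816) (T.a (T.a (T.l 816) (T.l 816)) (T.a (T.l 884) (T.c (T.l 884) (T.l 884))))) (T.b (T.l 816) (T.a (T.a (T.l 816) (T.l 816)) (T.a (T.l 884) (T.l 884)))))) (T.b (T.l 816) (T.c (T.b (T.l 816) (T.a (T.l 884) (T.a (T.l 816) (T.l 884)))) (T.a (T.l 884) (T.a (T.l 816) (T.l 884))))))) (T.b (T.l 816) (T.c (T.b (T.l 816) (T.c (T.a (T.l 884) (T.a (T.l 816) (T.l 884))) (T.a (T.l 820) (T.a (T.l 816) (T.l 884))))) (T.a (T.l 884) (T.a (T.l 816) (T.l 884)))))))))))))) (T.b (T.l 0) (T.a (T.b (T.l 816) (T.b (T.l 816) (T.a (T.b (T.l 816) (T.b (T.l 816) (T.a (T.c (T.a (T.a (T.b (T.l 816) (T.a (T.c (T.l 884) (T.l 884)) (T.l 1024))) (T.l 1024)) (T.l 1024)) (T.b (T.l 816) (T.c (T.b (T.l 816) (T.c (T.b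 (T.l 816) (T.a (T.a (T.l 884) (T.l 884)) (T.a (T.l 884) (T.l 884)))) (T.b (T.l 816) (T.a (T.a (T.l 884) (T.l 884)) (T.a (T.l 884) (T.l 884)))))) (T.b (T.l 816) (T.c (T.b (T.l 816) (T.a (T.a (T.l 816) (T.l 816)) (T.a (T.l 816) (T.l 884)))) (T.b (T.l 816) (T.a (T.a (T.l 816) (T.l 816)) (T.l 884)))))))) (T.c (T.l 1024) (T.b (T.l 816) (T.c (T.b (T.l 816) (T.c (T.a (T.a (T.l 884) (T.l 1024)) (T.l 1024)) (T.b (T.l 816) (T.a (T.a (T.l 884) (T.l 884)) (T.a (T.l 884) (T.l 884)))))) (T.b (T.l 816) (T.c (T.b (T.l 816) (T.a (T.a (T.l 884) (T.l 884)) (T.a (T.l 884) (T.l 884)))) (T.a (T.l 884) (T.l 884)))))))))) (T.b (T.l 816) (T.c (T.l 1024) (T.b (T.l 816) (T.b (T.l 816) (T.a (T.c (T.a (T.a (T.l 884) (T.l 1024)) (T.l 1024)) (T.b (T.l 816) (T.c (T.b (T.l 816) (T.c (T.a (T.l 884) (T.a (T.l 884) (T.l 1024))) (T.a (T.l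 884) (T.l 884)))) (T.a (T.l 884) (T.l 884))))) (T.c (T.l 1024) (T.b (T.l 816) (T.c (T.a (T.a (T.l 884) (T.l 1024)) (T.l 1024)) (T.b (T.l 816) (T.a (T.l 884) (T.l 884)))))))))))))) (T.a (T.b (T.l 816) (T.a (T.b (T.l 816) (T.c (T.l 1024) (T.a (T.b (T.l 816) (T.c (T.l 1024) (T.b (T.l 816) (T.a (T.l 884) (T.l 1024))))) (T.l 1024)))) (T.l 1024))) (T.l 1024)))))))), by decide +kernel⟩

def B102L_201 :
    ∃ t, chk3 (onCell 0 33554432 0 1073741824 33554432 16777216 (corTK [[⟨0, 1, 2, 25165824⟩, ⟨1, 0, 1, 25165824⟩, ⟨2, 1, 0, 7864320⟩, ⟨0, 0, 0, 1056964608⟩, ⟨0, 1, 0, 67108864⟩, ⟨1, 0, 0, 67108864⟩, ⟨1, 1, 0, 1056964608⟩]] false 3 c0N cB102L gN2q1 gN0q2 gN1q0 gN2q0 true true)) t 1 1 1 = true :=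
  ⟨(T.b (T.b (T.b (T.a (T.a (T.a (T.l 816) (T.l 0)) (T.l 0)) (T.l 0)) (T.a (T.a (T.a (T.l 816) (T.l 816)) (T.l 0)) (T.l 0))) (T.a (T.a (T.l 816) (T.b (T.l 0) (T.l 0))) (T.b (T.l 0) (T.l 0)))) (T.b (T.b (T.a (T.a (T.a (T.l 816) (T.l 816)) (T.l 0)) (T.l 0)) (T.l 1)) (T.l 1))), by decide +kernel⟩

def B102L_202 :
    ∃ t, chk3 (onCell 0 33554432 0 1073741824 33554432 16777216 (corTK [[⟨0, 1, 2, 25165824⟩, ⟨1, 0, 1, 25165824⟩, ⟨2, 1, 0, 7864320⟩, ⟨0, 0, 0, 1056964608⟩, ⟨0, 1, 0, 67108864⟩, ⟨1, 0, 0, 67108864⟩, ⟨1, 1, 0, 1056964608⟩]] false 3 c0N cB102L gN2q1 gN0q2 gN2q0 gN3q0 true false)) t 1 1 1 = true :=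
  ⟨(T.b (T.b (T.b (T.a (T.a (T.a (T.l 0) (T.l 0)) (T.l 0)) (T.l 0)) (T.l 1)) (T.l 1)) (T.l 1)), by decide +kernel⟩

def B102L_210 :
    ∃ t, chk3 (onCell 0 33554432 0 1073741824 33554432 16777216 (corTK [[⟨0, 1, 2, 25165824⟩, ⟨1, 0, 1, 25165824⟩, ⟨2, 1, 0, 16777216⟩, ⟨0, 0, 0, 1056964608⟩, ⟨0, 1, 0, 67108864⟩, ⟨1, 0, 0, 67108864⟩, ⟨1, 1, 0, 1056964608⟩]] false 3 c0N cB102L gN2q1 gN1q2 gN0q0 gN1q0 true true)) t 1 1 1 = true :=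
  ⟨(T.b (T.b (T.b (T.a (T.a (T.a (T.l 816) (T.l 0)) (T.l 0)) (T.l 0)) (T.a (T.a (T.a (T.l 816) (T.l 0)) (T.l 0)) (T.l 0))) (T.a (T.a (T.a (T.l 816) (T.l 0)) (T.l 0)) (T.b (T.l 0) (T.l 0)))) (T.b (T.a (T.a (T.a (T.l 816) (T.l 0)) (T.b (T.l 0) (T.l 0))) (T.a (T.l 4) (T.l 0))) (T.b (T.a (T.a (T.a (T.l 816) (T.l 0)) (T.l 0)) (T.b (T.l 0) (T.l 0))) (T.b (T.a (T.a (T.a (T.l 816) (T.l 0)) (T.b (T.l 0) (T.l 0))) (T.a (T.l 816) (T.l 816))) (T.b (T.a (T.a (T.a (T.l 816) (T.b (T.l 0) (T.l 0))) (T.a (T.l 816) (T.l 816))) (T.a (T.l 816) (T.l 816))) (T.b (T.b (T.a (T.a (T.a (T.l 816) (T.c (T.l 0) (T.l 0))) (T.a (T.l 816) (T.l 816))) (T.a (T.l 816) (T.l 816))) (T.b (T.a (T.a (T.a (T.l 816) (T.a (T.l 816) (T.l 816))) (T.a (T.l 816) (T.l 816))) (T.a (T.l 816) (T.l 816))) (T.a (T.a (T.a (T.l 816) (T.a (T.l 816) (T.l 816)))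 (T.a (T.l 816) (T.l 816))) (T.a (T.a (T.l 816) (T.l 816)) (T.l 816))))) (T.b (T.b (T.a (T.c (T.a (T.a (T.l 816) (T.a (T.l 816) (T.l 816))) (T.a (T.l 816) (T.l 816))) (T.b (T.a (T.a (T.l 816) (T.a (T.l 816) (T.l 816))) (T.a (T.l 816) (T.l 816))) (T.a (T.a (T.l 816) (T.a (T.l 816) (T.l 816))) (T.a (T.l 816) (T.l 816))))) (T.a (T.a (T.l 816) (T.l 816)) (T.l 816))) (T.a (T.c (T.b (T.a (T.a (T.l 816) (T.a (T.l 816) (T.l 816))) (T.a (T.l 816) (T.l 816))) (T.a (T.a (T.l 816) (T.a (T.l 816) (T.l 816))) (T.a (T.a (T.l 816) (T.l 816)) (T.l 816)))) (T.b (T.a (T.a (T.l 816) (T.a (T.l 816) (T.l 816))) (T.a (T.l 816) (T.l 816))) (T.a (T.a (T.l 816) (T.a (T.l 816) (T.l 816))) (T.a (T.a (T.l 816) (T.l 816)) (T.l 816))))) (T.a (T.a (T.l 816) (T.l 816)) (T.a (T.l 816) (T.l 1024))))) (T.b (T.a (T.c (T.b (T.a (T.a (T.l 816)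 (T.a (T.l 816) (T.l 816))) (T.a (T.a (T.l 816) (T.l 816)) (T.l 816))) (T.a (T.a (T.l 816) (T.a (T.l 816) (T.l 816))) (T.a (T.a (T.l 816) (T.l 816)) (T.a (T.l 816) (T.l 816))))) (T.b (T.a (T.a (T.l 816) (T.a (T.l 816) (T.l 816))) (T.a (T.a (T.l 816) (T.l 816)) (T.l 884))) (T.a (T.a (T.l 816) (T.a (T.l 816) (T.l 816))) (T.a (T.a (T.l 816) (T.l 816)) (T.a (T.l 816) (T.l 816)))))) (T.a (T.a (T.a (T.l 816) (T.l 816)) (T.l 816)) (T.a (T.l 816) (T.l 1024)))) (T.a (T.c (T.b (T.a (T.a (T.l 816) (T.a (T.c (T.l 816) (T.l 816)) (T.l 816))) (T.a (T.a (T.l 816) (T.l 816)) (T.a (T.l 816) (T.l 816)))) (T.a (T.a (T.l 816) (T.a (T.a (T.l 816) (T.l 816)) (T.a (T.l 816) (T.l 816)))) (T.c (T.b (T.a (T.a (T.l 816) (T.l 816)) (T.a (T.l 880) (T.l 884))) (T.a (T.a (T.a (T.l 816) (T.l 816)) (T.a (T.l 816) (T.l 816))) (T.a (T.a (T.l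 816) (T.c (T.l 884) (T.l 880))) (T.a (T.a (T.l 816) (T.l 880)) (T.a (T.l 884) (T.a (T.l 884) (T.l 884))))))) (T.b (T.a (T.a (T.l 816) (T.l 816)) (T.a (T.l 816) (T.l 884))) (T.a (T.a (T.a (T.l 816) (T.l 816)) (T.a (T.l 816) (T.l 816))) (T.a (T.a (T.l 816) (T.l 884)) (T.a (T.a (T.l 816) (T.l 816)) (T.a (T.l 884) (T.l 884))))))))) (T.b (T.a (T.a (T.l 816) (T.a (T.l 816) (T.l 816))) (T.a (T.a (T.l 816) (T.l 816)) (T.a (T.l 816) (T.l 816)))) (T.a (T.a (T.l 816) (T.a (T.a (T.l 816) (T.l 816)) (T.c (T.l 820) (T.l 816)))) (T.c (T.b (T.a (T.a (T.l 816) (T.l 816)) (T.a (T.l 816) (T.l 884))) (T.a (T.a (T.a (T.l 816) (T.l 816)) (T.a (T.l 816) (T.l 816))) (T.a (T.a (T.l 816) (T.l 816)) (T.a (T.c (T.l 884) (T.l 820)) (T.a (T.l 816) (T.l 884)))))) (T.b (T.a (T.a (T.l 816) (T.l 816)) (T.a (T.l 820) (T.l 884))) (T.a (T.a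 (T.a (T.l 816) (T.l 816)) (T.a (T.l 816) (T.l 816))) (T.a (T.a (T.l 816) (T.l 816)) (T.a (T.l 820) (T.a (T.l 816) (T.l 884)))))))))) (T.c (T.a (T.a (T.a (T.a (T.a (T.b (T.l 816) (T.a (T.c (T.l 884) (T.l 884)) (T.l 1024))) (T.l 1024)) (T.l 1024)) (T.l 1024)) (T.l 1024)) (T.l 1024)) (T.b (T.a (T.a (T.a (T.l 816) (T.l 816)) (T.a (T.l 816) (T.l 816))) (T.a (T.l 884) (T.l 1024))) (T.a (T.c (T.a (T.a (T.b (T.l 816) (T.a (T.a (T.l 884) (T.l 884)) (T.a (T.l 884) (T.l 884)))) (T.b (T.l 816) (T.a (T.a (T.l 884) (T.l 884)) (T.a (T.l 884) (T.l 884))))) (T.a (T.a (T.a (T.l 884) (T.l 1024)) (T.l 1024)) (T.l 1024))) (T.a (T.a (T.b (T.l 816) (T.a (T.a (T.l 884) (T.l 884)) (T.a (T.l 884) (T.l 884)))) (T.b (T.l 816) (T.a (T.a (T.l 884) (T.l 884)) (T.a (T.l 884) (T.l 884))))) (T.a (T.b (T.l 816) (T.c (T.b (T.l 884) (T.a (T.a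 (T.l 884) (T.l 884)) (T.a (T.l 884) (T.l 884)))) (T.a (T.l 884) (T.l 884)))) (T.b (T.l 816) (T.c (T.a (T.a (T.l 884) (T.l 1024)) (T.l 1024)) (T.b (T.l 884) (T.a (T.l 884) (T.l 884)))))))) (T.a (T.a (T.a (T.c (T.l 1024) (T.a (T.l 884) (T.l 1024))) (T.l 1024)) (T.l 1024)) (T.l 1024)))))))))))))), by decide +kernel⟩

def B102L_211 :
    ∃ t, chk3 (onCell 0 33554432 0 1073741824 33554432 16777216 (corTK [[⟨0, 1, 2, 25165824⟩, ⟨1, 0, 1, 25165824⟩, ⟨2, 1, 0, 16777216⟩, ⟨0, 0, 0, 1056964608⟩, ⟨0, 1, 0, 67108864⟩, ⟨1, 0, 0, 67108864⟩, ⟨1, 1, 0, 1056964608⟩]] false 3 c0N cB102L gN2q1 gN1q2 gN1q0 gN2q0 true true)) t 1 1 1 = true :=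
  ⟨(T.b (T.b (T.b (T.a (T.a (T.a (T.l 816) (T.l 0)) (T.l 0)) (T.l 0)) (T.l 1)) (T.l 1)) (T.l 1)), by decide +kernel⟩

def B102L_212 :
    ∃ t, chk3 (onCell 0 33554432 0 1073741824 33554432 16777216 (corTK [[⟨0, 1, 2, 25165824⟩, ⟨1, 0, 1, 25165824⟩, ⟨2, 1, 0, 16777216⟩, ⟨0, 0, 0, 1056964608⟩, ⟨0, 1, 0, 67108864⟩, ⟨1, 0, 0, 67108864⟩, ⟨1, 1, 0, 1056964608⟩]] false 3 c0N cB102L gN2q1 gN1q2 gN2q0 gN3q0 true false)) t 1 1 1 = true :=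
  ⟨(T.l 1), by decide +kernel⟩

def B102L_220_1_2_1 :
    ∃ t, chk3 (onCell 0 33554432 0 1073741824 33554432 16777216 (corTK [[⟨0, 1, 2, 25165824⟩, ⟨1, 0, 1, 25165824⟩, ⟨2, 1, 0, 16777216⟩, ⟨0, 0, 0, 1056964608⟩, ⟨0, 1, 0, 67108864⟩, ⟨1, 0, 0, 67108864⟩, ⟨1, 1, 0, 1056964608⟩]] false 3 c0N cB102L gN2q1 gN2q2 gN0q0 gN1q0 true true)) t 1 2 1 = true :=
  ⟨(T.b (T.a (T.a (T.a (T.l 204) (T.a (T.b (T.l 204) (T.l 204)) (T.l 204))) (T.a (T.b (T.l 204) (T.l 204)) (T.b (T.l 204) (T.l 204)))) (T.b (T.a (T.l 220) (T.l 204)) (T.a (T.b (T.b (T.l 204) (T.l 204)) (T.l 220)) (T.b (T.l 204) (T.l 204))))) (T.a (T.a (T.a (T.l 204) (T.a (T.l 16) (T.l 0))) (T.b (T.a (T.b (T.l 204) (T.l 204)) (T.l 220)) (T.a (T.b (T.l 204) (T.l 0)) (T.b (T.l 204) (T.l 204))))) (T.b (T.a (T.a (T.l 204) (T.l 204)) (T.b (T.l 204) (T.l 204))) (T.a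 (T.b (T.l 220) (T.l 16)) (T.b (T.l 204) (T.l 0)))))), by decide +kernel⟩

def B102L_220_1_3_1 :
    ∃ t, chk3 (onCell 0 33554432 0 1073741824 33554432 16777216 (corTK [[⟨0, 1, 2, 25165824⟩, ⟨1, 0, 1, 25165824⟩, ⟨2, 1, 0, 16777216⟩, ⟨0, 0, 0, 1056964608⟩, ⟨0, 1, 0, 67108864⟩, ⟨1, 0, 0, 67108864⟩, ⟨1, 1, 0, 1056964608⟩]] false 3 c0N cB102L gN2q1 gN2q2 gN0q0 gN1q0 true true)) t 1 3 1 = true :=
  ⟨(T.b (T.a (T.b (T.a (T.a (T.l 0) (T.a (T.l 0) (T.l 0))) (T.a (T.b (T.l 0) (T.l 0)) (T.b (T.l 0) (T.l 0)))) (T.a (T.a (T.l 816) (T.a (T.b (T.l 0) (T.l 0)) (T.l 0))) (T.b (T.a (T.l 4) (T.l 0)) (T.a (T.b (T.l 0) (T.l 0)) (T.l 0))))) (T.b (T.a (T.a (T.l 0) (T.l 0)) (T.b (T.l 0) (T.l 0))) (T.b (T.a (T.a (T.l 0) (T.l 0)) (T.l 4)) (T.a (T.a (T.l 0) (T.l 0)) (T.b (T.l 0) (T.l 0)))))) (T.b (T.a (T.b (T.a (T.a (T.l 816) (T.a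 (T.l 816) (T.l 816))) (T.a (T.a (T.l 816) (T.l 816)) (T.l 820))) (T.a (T.a (T.l 816) (T.a (T.b (T.l 816) (T.l 816)) (T.l 816))) (T.a (T.a (T.l 816) (T.l 816)) (T.a (T.l 816) (T.l 816))))) (T.b (T.a (T.a (T.b (T.l 816) (T.l 816)) (T.l 816)) (T.a (T.l 816) (T.l 816))) (T.a (T.a (T.b (T.l 816) (T.l 820)) (T.b (T.l 816) (T.l 816))) (T.a (T.b (T.l 816) (T.l 816)) (T.l 820))))) (T.b (T.a (T.a (T.a (T.l 816) (T.b (T.a (T.b (T.l 816) (T.l 816)) (T.l 816)) (T.a (T.a (T.l 816) (T.l 816)) (T.l 816)))) (T.b (T.a (T.a (T.l 816) (T.l 816)) (T.a (T.l 816) (T.l 816))) (T.b (T.a (T.a (T.l 816) (T.l 816)) (T.a (T.l 816) (T.l 816))) (T.a (T.a (T.l 816) (T.l 816)) (T.a (T.l 816) (T.l 816)))))) (T.b (T.a (T.a (T.b (T.l 816) (T.l 820)) (T.l 820)) (T.a (T.l 816) (T.l 1024))) (T.a (T.a (T.a (T.l 816) (T.l 816)) (T.b (T.l 816)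 (T.l 820))) (T.a (T.b (T.l 816) (T.l 816)) (T.l 1024))))) (T.b (T.a (T.a (T.a (T.l 816) (T.b (T.a (T.c (T.l 820) (T.l 816)) (T.l 816)) (T.a (T.a (T.l 816) (T.l 816)) (T.c (T.l 816) (T.l 816))))) (T.b (T.a (T.a (T.b (T.l 816) (T.l 816)) (T.l 816)) (T.a (T.l 816) (T.l 816))) (T.a (T.a (T.c (T.l 816) (T.l 816)) (T.c (T.l 816) (T.l 816))) (T.a (T.c (T.l 816) (T.l 816)) (T.b (T.l 816) (T.l 820)))))) (T.b (T.a (T.a (T.a (T.l 816) (T.l 816)) (T.c (T.l 1024) (T.l 820))) (T.a (T.b (T.l 816) (T.l 820)) (T.l 1024))) (T.a (T.b (T.a (T.a (T.l 816) (T.l 816)) (T.c (T.l 1024) (T.l 820))) (T.a (T.a (T.l 820) (T.l 816)) (T.a (T.l 816) (T.l 816)))) (T.a (T.a (T.l 816) (T.l 1024)) (T.l 1024))))) (T.a (T.b (T.a (T.a (T.l 816) (T.b (T.c (T.a (T.a (T.l 816) (T.l 816)) (T.l 816)) (T.a (T.c (T.l 816) (T.l 816)) (T.l 816))) (T.c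 (T.a (T.a (T.l 816) (T.l 816)) (T.l 880)) (T.a (T.a (T.l 816) (T.l 816)) (T.l 816))))) (T.b (T.a (T.a (T.c (T.l 816) (T.l 816)) (T.c (T.l 816) (T.l 816))) (T.a (T.c (T.l 820) (T.l 816)) (T.c (T.l 820) (T.l 816)))) (T.a (T.c (T.a (T.c (T.l 816) (T.l 816)) (T.c (T.l 816) (T.l 816))) (T.a (T.b (T.l 816) (T.l 820)) (T.b (T.l 816) (T.l 816)))) (T.c (T.a (T.a (T.l 816) (T.l 816)) (T.c (T.l 820) (T.l 820))) (T.a (T.c (T.l 820) (T.l 816)) (T.c (T.l 820) (T.l 816))))))) (T.a (T.a (T.l 816) (T.b (T.c (T.b (T.a (T.a (T.l 816) (T.l 816)) (T.c (T.l 816) (T.l 816))) (T.a (T.a (T.l 816) (T.l 816)) (T.c (T.l 816) (T.l 816)))) (T.a (T.a (T.l 816) (T.l 816)) (T.b (T.l 816) (T.l 820)))) (T.c (T.b (T.a (T.a (T.l 816) (T.l 816)) (T.a (T.l 816) (T.l 816))) (T.a (T.a (T.l 816) (T.l 816)) (T.a (T.l 816) (T.l 816)))) (T.b (T.a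 (T.a (T.l 816) (T.l 816)) (T.c (T.l 816) (T.l 816))) (T.a (T.a (T.l 816) (T.l 816)) (T.a (T.l 816) (T.l 816))))))) (T.b (T.a (T.c (T.b (T.a (T.a (T.l 816) (T.l 816)) (T.c (T.l 884) (T.l 820))) (T.a (T.a (T.l 816) (T.l 816)) (T.a (T.l 816) (T.l 816)))) (T.b (T.a (T.c (T.l 816) (T.l 816)) (T.c (T.l 816) (T.l 816))) (T.a (T.a (T.l 816) (T.l 816)) (T.a (T.l 816) (T.l 816))))) (T.c (T.b (T.a (T.a (T.l 816) (T.l 816)) (T.a (T.l 816) (T.l 816))) (T.a (T.a (T.l 816) (T.l 816)) (T.a (T.l 816) (T.l 816)))) (T.b (T.a (T.a (T.l 816) (T.l 816)) (T.a (T.l 816) (T.l 816))) (T.a (T.a (T.l 816) (T.l 816)) (T.a (T.l 816) (T.l 816)))))) (T.a (T.c (T.b (T.a (T.a (T.l 816) (T.l 816)) (T.a (T.l 816) (T.l 816))) (T.a (T.a (T.l 816) (T.l 816)) (T.a (T.l 816) (T.l 816)))) (T.b (T.a (T.a (T.l 816) (T.l 816)) (T.a (T.l 816) (T.l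 816))) (T.a (T.a (T.l 816) (T.l 816)) (T.a (T.l 816) (T.l 816))))) (T.c (T.b (T.a (T.a (T.l 816) (T.l 884)) (T.a (T.c (T.l 816) (T.l 816)) (T.c (T.l 884) (T.l 820)))) (T.a (T.c (T.a (T.l 816) (T.a (T.l 816) (T.l 816))) (T.a (T.l 816) (T.l 884))) (T.c (T.b (T.a (T.l 884) (T.a (T.l 816) (T.l 820))) (T.a (T.a (T.l 816) (T.l 884)) (T.a (T.l 884) (T.a (T.l 884) (T.l 884))))) (T.b (T.a (T.l 820) (T.c (T.l 884) (T.l 884))) (T.a (T.a (T.l 816) (T.l 816)) (T.a (T.l 884) (T.c (T.l 884) (T.l 884)))))))) (T.b (T.a (T.a (T.l 816) (T.l 816)) (T.a (T.l 820) (T.l 884))) (T.a (T.a (T.l 816) (T.c (T.l 820) (T.l 816))) (T.c (T.a (T.c (T.l 884) (T.l 884)) (T.a (T.l 816) (T.l 884))) (T.a (T.b (T.l 816) (T.l 884)) (T.a (T.l 816) (T.l 884))))))))))) (T.b (T.a (T.b (T.a (T.a (T.c (T.l 820) (T.l 816)) (T.l 820)) (T.a (T.l 820)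 (T.l 816))) (T.a (T.a (T.a (T.l 820) (T.l 816)) (T.c (T.l 1024) (T.l 820))) (T.c (T.l 1024) (T.a (T.l 816) (T.l 816))))) (T.a (T.a (T.b (T.l 816) (T.l 884)) (T.l 1024)) (T.l 1024))) (T.a (T.b (T.a (T.c (T.a (T.a (T.l 884) (T.l 1024)) (T.l 1024)) (T.a (T.a (T.l 820) (T.l 816)) (T.a (T.l 816) (T.l 816)))) (T.c (T.l 1024) (T.a (T.a (T.l 816) (T.l 816)) (T.c (T.l 1024) (T.l 884))))) (T.a (T.c (T.a (T.a (T.a (T.b (T.l 820) (T.b (T.l 884) (T.a (T.c (T.l 884) (T.l 884)) (T.l 1024)))) (T.l 1024)) (T.l 1024)) (T.l 1024)) (T.b (T.a (T.a (T.c (T.l 820) (T.l 816)) (T.l 884)) (T.a (T.l 884) (T.l 884))) (T.a (T.c (T.b (T.a (T.c (T.l 884) (T.l 884)) (T.l 884)) (T.a (T.a (T.l 884) (T.l 884)) (T.a (T.l 884) (T.l 884)))) (T.b (T.a (T.l 884) (T.l 884)) (T.a (T.a (T.l 884) (T.l 884)) (T.a (T.l 884) (T.l 884))))) (T.c (T.b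 (T.a (T.l 884) (T.l 884)) (T.a (T.a (T.l 884) (T.l 884)) (T.a (T.l 884) (T.l 884)))) (T.a (T.a (T.l 884) (T.l 884)) (T.a (T.l 884) (T.l 884))))))) (T.c (T.l 1024) (T.b (T.a (T.a (T.l 884) (T.l 884)) (T.a (T.l 884) (T.l 884))) (T.a (T.c (T.a (T.a (T.l 884) (T.l 1024)) (T.l 1024)) (T.a (T.a (T.l 884) (T.l 884)) (T.a (T.l 884) (T.l 884)))) (T.c (T.l 1024) (T.a (T.a (T.l 884) (T.l 884)) (T.a (T.l 884) (T.l 884))))))))) (T.a (T.c (T.l 1024) (T.a (T.a (T.b (T.l 816) (T.c (T.l 1024) (T.b (T.l 820) (T.a (T.l 884) (T.l 1024))))) (T.l 1024)) (T.l 1024))) (T.l 1024))))))))), by decide +kernel⟩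

theorem B102L_220 :
    ∃ t, chk3 (onCell 0 33554432 0 1073741824 33554432 16777216 (corTK [[⟨0, 1, 2, 25165824⟩, ⟨1, 0, 1, 25165824⟩, ⟨2, 1, 0, 16777216⟩, ⟨0, 0, 0, 1056964608⟩, ⟨0, 1, 0, 67108864⟩, ⟨1, 0, 0, 67108864⟩, ⟨1, 1, 0, 1056964608⟩]] false 3 c0N cB102L gN2q1 gN2q2 gN0q0 gN1q0 true true)) t 1 1 1 = true :=
  ex3_b B102L_220_1_2_1 B102L_220_1_3_1

def B102L_221 :
    ∃ t, chk3 (onCell 0 33554432 0 1073741824 33554432 16777216 (corTK [[⟨0, 1, 2, 25165824⟩, ⟨1, 0, 1, 25165824⟩, ⟨2, 1, 0, 16777216⟩, ⟨0, 0, 0, 1056964608⟩, ⟨0, 1, 0, 67108864⟩, ⟨1, 0, 0, 67108864⟩, ⟨1, 1, 0, 1056964608⟩]] false 3 c0N cB102L gN2q1 gN2q2 gN1q0 gN2q0 true true)) t 1 1 1 = true :=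
  ⟨(T.l 1), by decide +kernel⟩

def B102L_222 :
    ∃ t, chk3 (onCell 0 33554432 0 1073741824 33554432 16777216 (corTK [[⟨0, 1, 2, 25165824⟩, ⟨1, 0, 1, 25165824⟩, ⟨2, 1, 0, 16777216⟩, ⟨0, 0, 0, 1056964608⟩, ⟨0, 1, 0, 67108864⟩, ⟨1, 0, 0, 67108864⟩, ⟨1, 1, 0, 1056964608⟩]] false 3 c0N cB102L gN2q1 gN2q2 gN2q0 gN3q0 true false)) t 1 1 1 = true :=
  ⟨(T.l 1), by decide +kernel⟩

def B102L_300 :
    ∃ t, chk3 (onCell 0 33554432 0 1073741824 33554432 16777216 (corTK [] false 3 c0N cB102L gN3q1 gN0q2 gN0q0 gN1q0 true true)) t 1 1 1 = true :=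
  ⟨(T.b (T.l 2) (T.b (T.b (T.b (T.l 2) (T.a (T.b (T.l 2) (T.a (T.a (T.l 816) (T.l 816)) (T.l 816))) (T.l 0))) (T.a (T.a (T.a (T.l 816) (T.l 816)) (T.l 0)) (T.l 0))) (T.b (T.a (T.a (T.a (T.l 816) (T.l 816)) (T.l 0)) (T.b (T.l 0) (T.l 0))) (T.a (T.a (T.a (T.l 816) (T.l 0)) (T.l 0)) (T.l 0))))), by decide +kernel⟩

def B102L_301 :
    ∃ t, chk3 (onCell 0 33554432 0 1073741824 33554432 16777216 (corTK [] false 3 c0N cB102L gN3q1 gN0q2 gN1q0 gN2q0 true true)) t 1 1 1 = true :=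
  ⟨(T.b (T.b (T.b (T.a (T.a (T.a (T.l 816) (T.l 0)) (T.l 0)) (T.l 0)) (T.a (T.a (T.a (T.l 816) (T.l 816)) (T.l 0)) (T.l 0))) (T.a (T.a (T.l 816) (T.l 0)) (T.l 0))) (T.b (T.b (T.a (T.a (T.l 816) (T.l 0)) (T.l 0)) (T.a (T.l 1) (T.l 0))) (T.l 1))), by decide +kernel⟩

def B102L_302 :
    ∃ t, chk3 (onCell 0 33554432 0 1073741824 33554432 16777216 (corTK [] false 3 c0N cB102L gN3q1 gN0q2 gN2q0 gN3q0 true false)) t 1 1 1 = true :=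
  ⟨(T.b (T.b (T.b (T.a (T.a (T.a (T.l 0) (T.l 0)) (T.l 0)) (T.l 0)) (T.a (T.l 1) (T.l 0))) (T.l 1)) (T.l 1)), by decide +kernel⟩

def B102L_310 :
    ∃ t, chk3 (onCell 0 33554432 0 1073741824 33554432 16777216 (corTK [] false 3 c0N cB102L gN3q1 gN1q2 gN0q0 gN1q0 true true)) t 1 1 1 = true :=
  ⟨(T.b (T.b (T.b (T.a (T.a (T.a (T.l 816) (T.l 0)) (T.l 0)) (T.l 0)) (T.a (T.a (T.a (T.l 816) (T.l 0)) (T.l 0)) (T.l 0))) (T.a (T.a (T.a (T.l 816) (T.l 0)) (T.l 0)) (T.l 0))) (T.b (T.a (T.a (T.a (T.l 816) (T.l 0)) (T.l 0)) (T.b (T.l 0) (T.l 0))) (T.b (T.a (T.a (T.a (T.l 816) (T.l 0)) (T.l 0)) (T.l 0)) (T.a (T.a (T.a (T.l 816) (T.l 0)) (T.l 0)) (T.l 0))))), by decide +kernel⟩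

def B102L_311 :
    ∃ t, chk3 (onCell 0 33554432 0 1073741824 33554432 16777216 (corTK [] false 3 c0N cB102L gN3q1 gN1q2 gN1q0 gN2q0 true true)) t 1 1 1 = true :=
  ⟨(T.b (T.b (T.b (T.a (T.a (T.a (T.l 816) (T.l 0)) (T.l 0)) (T.l 0)) (T.a (T.l 1) (T.l 0))) (T.l 1)) (T.l 1)), by decide +kernel⟩

def B102L_312 :
    ∃ t, chk3 (onCell 0 33554432 0 1073741824 33554432 16777216 (corTK [] false 3 c0N cB102L gN3q1 gN1q2 gN2q0 gN3q0 true false)) t 1 1 1 = true :=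
  ⟨(T.l 1), by decide +kernel⟩

def B102L_320 :
    ∃ t, chk3 (onCell 0 33554432 0 1073741824 33554432 16777216 (corTK [] false 3 c0N cB102L gN3q1 gN2q2 gN0q0 gN1q0 true true)) t 1 1 1 = true :=
  ⟨(T.b (T.b (T.b (T.a (T.a (T.a (T.l 204) (T.a (T.l 204) (T.l 204))) (T.a (T.l 204) (T.l 204))) (T.a (T.l 204) (T.l 204))) (T.a (T.a (T.a (T.l 204) (T.l 204)) (T.l 204)) (T.b (T.l 0) (T.l 0)))) (T.b (T.a (T.a (T.a (T.l 204) (T.l 0)) (T.l 0)) (T.b (T.l 0) (T.l 0))) (T.a (T.a (T.a (T.l 204) (T.l 0)) (T.l 0)) (T.l 0)))) (T.b (T.a (T.a (T.a (T.l 0) (T.l 0)) (T.b (T.l 0) (T.l 0))) (T.b (T.l 0) (T.l 0))) (T.b (T.a (T.a (T.a (T.l 816) (T.l 0)) (T.l 0)) (T.l 0)) (T.a (T.a (T.a (T.l 816) (T.l 0)) (T.l 0)) (T.l 0))))), by decide +kernel⟩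

def B102L_321 :
    ∃ t, chk3 (onCell 0 33554432 0 1073741824 33554432 16777216 (corTK [] false 3 c0N cB102L gN3q1 gN2q2 gN1q0 gN2q0 true true)) t 1 1 1 = true :=
  ⟨(T.l 1), by decide +kernel⟩

def B102L_322 :
    ∃ t, chk3 (onCell 0 33554432 0 1073741824 33554432 16777216 (corTK [] false 3 c0N cB102L gN3q1 gN2q2 gN2q0 gN3q0 true false)) t 1 1 1 = true :=
  ⟨(T.l 1), by decide +kernel⟩

def B102L_400 :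
    ∃ t, chk3 (onCell 0 33554432 0 1073741824 33554432 16777216 (corTK [] false 3 c0N cB102L gN4q1 gN0q2 gN0q0 gN1q0 true true)) t 1 1 1 = true :=
  ⟨(T.b (T.l 2) (T.b (T.b (T.l 2) (T.b (T.l 2) (T.b (T.l 2) (T.a (T.a (T.a (T.l 816) (T.l 2)) (T.l 2)) (T.l 2))))) (T.b (T.a (T.a (T.a (T.l 816) (T.l 816)) (T.l 816)) (T.b (T.l 0) (T.l 0))) (T.a (T.a (T.a (T.l 816) (T.l 816)) (T.l 816)) (T.l 0))))), by decide +kernel⟩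

def B102L_401 :
    ∃ t, chk3 (onCell 0 33554432 0 1073741824 33554432 16777216 (corTK [] false 3 c0N cB102L gN4q1 gN0q2 gN1q0 gN2q0 true true)) t 1 1 1 = true :=
  ⟨(T.b (T.b (T.a (T.a (T.a (T.l 816) (T.l 0)) (T.l 0)) (T.l 0)) (T.a (T.a (T.l 816) (T.l 0)) (T.l 0))) (T.b (T.b (T.a (T.a (T.l 816) (T.l 0)) (T.l 0)) (T.a (T.l 816) (T.l 0))) (T.b (T.a (T.l 816) (T.b (T.l 0) (T.l 1))) (T.l 1)))), by decide +kernel⟩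

def B102L_402 :
    ∃ t, chk3 (onCell 0 33554432 0 1073741824 33554432 16777216 (corTK [] false 3 c0N cB102L gN4q1 gN0q2 gN2q0 gN3q0 true false)) t 1 1 1 = true :=
  ⟨(T.b (T.b (T.a (T.a (T.a (T.l 0) (T.l 0)) (T.l 0)) (T.l 0)) (T.l 1)) (T.l 1)), by decide +kernel⟩

def B102L_410 :
    ∃ t, chk3 (onCell 0 33554432 0 1073741824 33554432 16777216 (corTK [] false 3 c0N cB102L gN4q1 gN1q2 gN0q0 gN1q0 true true)) t 1 1 1 = true :=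
  ⟨(T.b (T.a (T.a (T.a (T.l 816) (T.l 0)) (T.l 0)) (T.b (T.l 0) (T.l 0))) (T.b (T.a (T.a (T.a (T.l 816) (T.l 816)) (T.l 0)) (T.l 0)) (T.b (T.a (T.a (T.a (T.l 816) (T.l 816)) (T.l 816)) (T.l 0)) (T.a (T.a (T.a (T.l 816) (T.l 816)) (T.l 816)) (T.l 0))))), by decide +kernel⟩

def B102L_411 :
    ∃ t, chk3 (onCell 0 33554432 0 1073741824 33554432 16777216 (corTK [] false 3 c0N cB102L gN4q1 gN1q2 gN1q0 gN2q0 true true)) t 1 1 1 = true :=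
  ⟨(T.b (T.a (T.a (T.a (T.l 816) (T.l 0)) (T.l 0)) (T.b (T.l 0) (T.l 0))) (T.l 1)), by decide +kernel⟩

def B102L_412 :
    ∃ t, chk3 (onCell 0 33554432 0 1073741824 33554432 16777216 (corTK [] false 3 c0N cB102L gN4q1 gN1q2 gN2q0 gN3q0 true false)) t 1 1 1 = true :=
  ⟨(T.l 1), by decide +kernel⟩

def B102L_420 :
    ∃ t, chk3 (onCell 0 33554432 0 1073741824 33554432 16777216 (corTK [] false 3 c0N cB102L gN4q1 gN2q2 gN0q0 gN1q0 true true)) t 1 1 1 = true :=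
  ⟨(T.b (T.b (T.a (T.a (T.a (T.l 204) (T.a (T.b (T.l 204) (T.l 204)) (T.l 220))) (T.b (T.a (T.l 204) (T.l 204)) (T.l 0))) (T.b (T.a (T.l 220) (T.l 204)) (T.l 0))) (T.a (T.a (T.a (T.l 0) (T.l 0)) (T.l 0)) (T.b (T.l 0) (T.l 0)))) (T.b (T.a (T.a (T.a (T.l 816) (T.l 0)) (T.l 0)) (T.b (T.l 0) (T.l 0))) (T.b (T.a (T.a (T.a (T.l 816) (T.l 816)) (T.l 0)) (T.l 0)) (T.a (T.a (T.a (T.l 816) (T.l 816)) (T.l 816)) (T.l 0))))), by decide +kernel⟩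

def B102L_421 :
    ∃ t, chk3 (onCell 0 33554432 0 1073741824 33554432 16777216 (corTK [] false 3 c0N cB102L gN4q1 gN2q2 gN1q0 gN2q0 true true)) t 1 1 1 = true :=
  ⟨(T.l 1), by decide +kernel⟩

def B102L_422 :
    ∃ t, chk3 (onCell 0 33554432 0 1073741824 33554432 16777216 (corTK [] false 3 c0N cB102L gN4q1 gN2q2 gN2q0 gN3q0 true false)) t 1 1 1 = true :=
  ⟨(T.l 1), by decide +kernel⟩

def B102R_040 :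
    ∃ t, chk3 (onCell 0 33554432 0 1073741824 33554432 16777216 (corTK [] false 3 c0N cB102R gN0q1 gN4q2 gN0q0 gN1q0 true true)) t 1 1 1 = true :=
  ⟨(T.l 1), by decide +kernel⟩

def B102R_041 :
    ∃ t, chk3 (onCell 0 33554432 0 1073741824 33554432 16777216 (corTK [] false 3 c0N cB102R gN0q1 gN4q2 gN1q0 gN2q0 true true)) t 1 1 1 = true :=
  ⟨(T.l 1), by decide +kernel⟩

def B102R_042 :
    ∃ t, chk3 (onCell 0 33554432 0 1073741824 33554432 16777216 (corTK [] false 3 c0N cB102R gN0q1 gN4q2 gN2q0 gN3q0 true false)) t 1 1 1 = true :=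
  ⟨(T.l 1), by decide +kernel⟩

def B202E_000 :
    ∃ t, chk3 (onCell 0 33554432 0 1073741824 33554432 16777216 (corTK [] false 3 c0N cB202E gN0q2 gN0q2 gN0q0 gN1q0 true true)) t 1 1 1 = true :=
  ⟨(T.l 1), by decide +kernel⟩

def B202E_001 :
    ∃ t, chk3 (onCell 0 33554432 0 1073741824 33554432 16777216 (corTK [] false 3 c0N cB202E gN0q2 gN0q2 gN1q0 gN2q0 true true)) t 1 1 1 = true :=
  ⟨(T.l 1), by decide +kernel⟩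

def B202E_002 :
    ∃ t, chk3 (onCell 0 33554432 0 1073741824 33554432 16777216 (corTK [] false 3 c0N cB202E gN0q2 gN0q2 gN2q0 gN3q0 true false)) t 1 1 1 = true :=
  ⟨(T.l 1), by decide +kernel⟩

def B202E_010 :
    ∃ t, chk3 (onCell 0 33554432 0 1073741824 33554432 16777216 (corTK [] false 3 c0N cB202E gN0q2 gN1q2 gN0q0 gN1q0 true true)) t 1 1 1 = true :=
  ⟨(T.l 1), by decide +kernel⟩

def B202E_011 :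
    ∃ t, chk3 (onCell 0 33554432 0 1073741824 33554432 16777216 (corTK [] false 3 c0N cB202E gN0q2 gN1q2 gN1q0 gN2q0 true true)) t 1 1 1 = true :=
  ⟨(T.l 1), by decide +kernel⟩

def B202E_012 :
    ∃ t, chk3 (onCell 0 33554432 0 1073741824 33554432 16777216 (corTK [] false 3 c0N cB202E gN0q2 gN1q2 gN2q0 gN3q0 true false)) t 1 1 1 = true :=
  ⟨(T.l 1), by decide +kernel⟩

theorem B202E_020_15_2048_15 :
    ∃ t, chk3 (onCell 0 33554432 0 1073741824 33554432 16777216 (corTK [[⟨0, 1, 0, 6291456⟩, ⟨1, 0, 1, 16777216⟩, ⟨2, 1, 1, 16777216⟩, ⟨1, 0, 0, 67108864⟩, ⟨1, 1, 0, 1056964608⟩, ⟨2, 1, 0, 67108864⟩, ⟨2, 2, 0, 1056964608⟩]] false 3 c0N cB202E gN0q2 gN2q2 gN0q0 gN1q0 true true)) t 15 2048 15 = true :=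
  ex3_a B202E_020_30_2048_15 B202E_020_31_2048_15
theorem B202E_020_15_1024_15 :
    ∃ t, chk3 (onCell 0 33554432 0 1073741824 33554432 16777216 (corTK [[⟨0, 1, 0, 6291456⟩, ⟨1, 0, 1, 16777216⟩, ⟨2, 1, 1, 16777216⟩, ⟨1, 0, 0, 67108864⟩, ⟨1, 1, 0, 1056964608⟩, ⟨2, 1, 0, 67108864⟩, ⟨2, 2, 0, 1056964608⟩]] false 3 c0N cB202E gN0q2 gN2q2 gN0q0 gN1q0 true true)) t 15 1024 15 = true :=
  ex3_b B202E_020_15_2048_15 B202E_020_15_2049_15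
theorem B202E_020_15_1024_7 :
    ∃ t, chk3 (onCell 0 33554432 0 1073741824 33554432 16777216 (corTK [[⟨0, 1, 0, 6291456⟩, ⟨1, 0, 1, 16777216⟩, ⟨2, 1, 1, 16777216⟩, ⟨1, 0, 0, 67108864⟩, ⟨1, 1, 0, 1056964608⟩, ⟨2, 1, 0, 67108864⟩, ⟨2, 2, 0, 1056964608⟩]] false 3 c0N cB202E gN0q2 gN2q2 gN0q0 gN1q0 true true)) t 15 1024 7 = true :=
  ex3_c B202E_020_15_1024_14 B202E_020_15_1024_15
theorem B202E_020_14_2048_15 :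
    ∃ t, chk3 (onCell 0 33554432 0 1073741824 33554432 16777216 (corTK [[⟨0, 1, 0, 6291456⟩, ⟨1, 0, 1, 16777216⟩, ⟨2, 1, 1, 16777216⟩, ⟨1, 0, 0, 67108864⟩, ⟨1, 1, 0, 1056964608⟩, ⟨2, 1, 0, 67108864⟩, ⟨2, 2, 0, 1056964608⟩]] false 3 c0N cB202E gN0q2 gN2q2 gN0q0 gN1q0 true true)) t 14 2048 15 = true :=
  ex3_a B202E_020_28_2048_15 B202E_020_29_2048_15
theorem B202E_020_14_1024_15 :
    ∃ t, chk3 (onCell 0 33554432 0 1073741824 33554432 16777216 (corTK [[⟨0, 1, 0, 6291456⟩, ⟨1, 0, 1, 16777216⟩, ⟨2, 1, 1, 16777216⟩, ⟨1, 0, 0, 67108864⟩, ⟨1, 1, 0, 1056964608⟩, ⟨2, 1, 0, 67108864⟩, ⟨2, 2, 0, 1056964608⟩]] false 3 c0N cB202E gN0q2 gN2q2 gN0q0 gN1q0 true true)) t 14 1024 15 = true :=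
  ex3_b B202E_020_14_2048_15 B202E_020_14_2049_15
theorem B202E_020_14_2048_14 :
    ∃ t, chk3 (onCell 0 33554432 0 1073741824 33554432 16777216 (corTK [[⟨0, 1, 0, 6291456⟩, ⟨1, 0, 1, 16777216⟩, ⟨2, 1, 1, 16777216⟩, ⟨1, 0, 0, 67108864⟩, ⟨1, 1, 0, 1056964608⟩, ⟨2, 1, 0, 67108864⟩, ⟨2, 2, 0, 1056964608⟩]] false 3 c0N cB202E gN0q2 gN2q2 gN0q0 gN1q0 true true)) t 14 2048 14 = true :=
  ex3_a B202E_020_28_2048_14 B202E_020_29_2048_14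
theorem B202E_020_14_1024_14 :
    ∃ t, chk3 (onCell 0 33554432 0 1073741824 33554432 16777216 (corTK [[⟨0, 1, 0, 6291456⟩, ⟨1, 0, 1, 16777216⟩, ⟨2, 1, 1, 16777216⟩, ⟨1, 0, 0, 67108864⟩, ⟨1, 1, 0, 1056964608⟩, ⟨2, 1, 0, 67108864⟩, ⟨2, 2, 0, 1056964608⟩]] false 3 c0N cB202E gN0q2 gN2q2 gN0q0 gN1q0 true true)) t 14 1024 14 = true :=
  ex3_b B202E_020_14_2048_14 B202E_020_14_2049_14
theorem B202E_020_14_1024_7 :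
    ∃ t, chk3 (onCell 0 33554432 0 1073741824 33554432 16777216 (corTK [[⟨0, 1, 0, 6291456⟩, ⟨1, 0, 1, 16777216⟩, ⟨2, 1, 1, 16777216⟩, ⟨1, 0, 0, 67108864⟩, ⟨1, 1, 0, 1056964608⟩, ⟨2, 1, 0, 67108864⟩, ⟨2, 2, 0, 1056964608⟩]] false 3 c0N cB202E gN0q2 gN2q2 gN0q0 gN1q0 true true)) t 14 1024 7 = true :=
  ex3_c B202E_020_14_1024_14 B202E_020_14_1024_15
theorem B202E_020_7_1024_7 :
    ∃ t, chk3 (onCell 0 33554432 0 1073741824 33554432 16777216 (corTK [[⟨0, 1, 0, 6291456⟩, ⟨1, 0, 1, 16777216⟩, ⟨2, 1, 1, 16777216⟩, ⟨1, 0, 0, 67108864⟩, ⟨1, 1, 0, 1056964608⟩, ⟨2, 1, 0, 67108864⟩, ⟨2, 2, 0, 1056964608⟩]] false 3 c0N cB202E gN0q2 gN2q2 gN0q0 gN1q0 true true)) t 7 1024 7 = true :=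
  ex3_a B202E_020_14_1024_7 B202E_020_15_1024_7
theorem B202E_020_7_512_7 :
    ∃ t, chk3 (onCell 0 33554432 0 1073741824 33554432 16777216 (corTK [[⟨0, 1, 0, 6291456⟩, ⟨1, 0, 1, 16777216⟩, ⟨2, 1, 1, 16777216⟩, ⟨1, 0, 0, 67108864⟩, ⟨1, 1, 0, 1056964608⟩, ⟨2, 1, 0, 67108864⟩, ⟨2, 2, 0, 1056964608⟩]] false 3 c0N cB202E gN0q2 gN2q2 gN0q0 gN1q0 true true)) t 7 512 7 = true :=
  ex3_b B202E_020_7_1024_7 B202E_020_7_1025_7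
theorem B202E_020_14_2048_13 :
    ∃ t, chk3 (onCell 0 33554432 0 1073741824 33554432 16777216 (corTK [[⟨0, 1, 0, 6291456⟩, ⟨1, 0, 1, 16777216⟩, ⟨2, 1, 1, 16777216⟩, ⟨1, 0, 0, 67108864⟩, ⟨1, 1, 0, 1056964608⟩, ⟨2, 1, 0, 67108864⟩, ⟨2, 2, 0, 1056964608⟩]] false 3 c0N cB202E gN0q2 gN2q2 gN0q0 gN1q0 true true)) t 14 2048 13 = true :=
  ex3_a B202E_020_28_2048_13 B202E_020_29_2048_13
theorem B202E_020_14_1024_13 :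
    ∃ t, chk3 (onCell 0 33554432 0 1073741824 33554432 16777216 (corTK [[⟨0, 1, 0, 6291456⟩, ⟨1, 0, 1, 16777216⟩, ⟨2, 1, 1, 16777216⟩, ⟨1, 0, 0, 67108864⟩, ⟨1, 1, 0, 1056964608⟩, ⟨2, 1, 0, 67108864⟩, ⟨2, 2, 0, 1056964608⟩]] false 3 c0N cB202E gN0q2 gN2q2 gN0q0 gN1q0 true true)) t 14 1024 13 = true :=
  ex3_b B202E_020_14_2048_13 B202E_020_14_2049_13
theorem B202E_020_14_1024_6 :
    ∃ t, chk3 (onCell 0 33554432 0 1073741824 33554432 16777216 (corTK [[⟨0, 1, 0, 6291456⟩, ⟨1, 0, 1, 16777216⟩, ⟨2, 1, 1, 16777216⟩, ⟨1, 0, 0, 67108864⟩, ⟨1, 1, 0, 1056964608⟩, ⟨2, 1, 0, 67108864⟩, ⟨2, 2, 0, 1056964608⟩]] false 3 c0N cB202E gN0q2 gN2q2 gN0q0 gN1q0 true true)) t 14 1024 6 = true :=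
  ex3_c B202E_020_14_1024_12 B202E_020_14_1024_13
theorem B202E_020_7_1024_6 :
    ∃ t, chk3 (onCell 0 33554432 0 1073741824 33554432 16777216 (corTK [[⟨0, 1, 0, 6291456⟩, ⟨1, 0, 1, 16777216⟩, ⟨2, 1, 1, 16777216⟩, ⟨1, 0, 0, 67108864⟩, ⟨1, 1, 0, 1056964608⟩, ⟨2, 1, 0, 67108864⟩, ⟨2, 2, 0, 1056964608⟩]] false 3 c0N cB202E gN0q2 gN2q2 gN0q0 gN1q0 true true)) t 7 1024 6 = true :=
  ex3_a B202E_020_14_1024_6 B202E_020_15_1024_6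
theorem B202E_020_7_512_6 :
    ∃ t, chk3 (onCell 0 33554432 0 1073741824 33554432 16777216 (corTK [[⟨0, 1, 0, 6291456⟩, ⟨1, 0, 1, 16777216⟩, ⟨2, 1, 1, 16777216⟩, ⟨1, 0, 0, 67108864⟩, ⟨1, 1, 0, 1056964608⟩, ⟨2, 1, 0, 67108864⟩, ⟨2, 2, 0, 1056964608⟩]] false 3 c0N cB202E gN0q2 gN2q2 gN0q0 gN1q0 true true)) t 7 512 6 = true :=
  ex3_b B202E_020_7_1024_6 B202E_020_7_1025_6
theorem B202E_020_7_512_3 :
    ∃ t, chk3 (onCell 0 33554432 0 1073741824 33554432 16777216 (corTK [[⟨0, 1, 0, 6291456⟩, ⟨1, 0, 1, 16777216⟩, ⟨2, 1, 1, 16777216⟩, ⟨1, 0, 0, 67108864⟩, ⟨1, 1, 0, 1056964608⟩, ⟨2, 1, 0, 67108864⟩, ⟨2, 2, 0, 1056964608⟩]] false 3 c0N cB202E gN0q2 gN2q2 gN0q0 gN1q0 true true)) t 7 512 3 = true :=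
  ex3_c B202E_020_7_512_6 B202E_020_7_512_7
theorem B202E_020_6_1024_7 :
    ∃ t, chk3 (onCell 0 33554432 0 1073741824 33554432 16777216 (corTK [[⟨0, 1, 0, 6291456⟩, ⟨1, 0, 1, 16777216⟩, ⟨2, 1, 1, 16777216⟩, ⟨1, 0, 0, 67108864⟩, ⟨1, 1, 0, 1056964608⟩, ⟨2, 1, 0, 67108864⟩, ⟨2, 2, 0, 1056964608⟩]] false 3 c0N cB202E gN0q2 gN2q2 gN0q0 gN1q0 true true)) t 6 1024 7 = true :=
  ex3_a B202E_020_12_1024_7 B202E_020_13_1024_7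
theorem B202E_020_6_512_7 :
    ∃ t, chk3 (onCell 0 33554432 0 1073741824 33554432 16777216 (corTK [[⟨0, 1, 0, 6291456⟩, ⟨1, 0, 1, 16777216⟩, ⟨2, 1, 1, 16777216⟩, ⟨1, 0, 0, 67108864⟩, ⟨1, 1, 0, 1056964608⟩, ⟨2, 1, 0, 67108864⟩, ⟨2, 2, 0, 1056964608⟩]] false 3 c0N cB202E gN0q2 gN2q2 gN0q0 gN1q0 true true)) t 6 512 7 = true :=
  ex3_b B202E_020_6_1024_7 B202E_020_6_1025_7
theorem B202E_020_13_2048_13 :
    ∃ t, chk3 (onCell 0 33554432 0 1073741824 33554432 16777216 (corTK [[⟨0, 1, 0, 6291456⟩, ⟨1, 0, 1, 16777216⟩, ⟨2, 1, 1, 16777216⟩, ⟨1, 0, 0, 67108864⟩, ⟨1, 1, 0, 1056964608⟩, ⟨2, 1, 0, 67108864⟩, ⟨2, 2, 0, 1056964608⟩]] false 3 c0N cB202E gN0q2 gN2q2 gN0q0 gN1q0 true true)) t 13 2048 13 = true :=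
  ex3_a B202E_020_26_2048_13 B202E_020_27_2048_13
theorem B202E_020_13_1024_13 :
    ∃ t, chk3 (onCell 0 33554432 0 1073741824 33554432 16777216 (corTK [[⟨0, 1, 0, 6291456⟩, ⟨1, 0, 1, 16777216⟩, ⟨2, 1, 1, 16777216⟩, ⟨1, 0, 0, 67108864⟩, ⟨1, 1, 0, 1056964608⟩, ⟨2, 1, 0, 67108864⟩, ⟨2, 2, 0, 1056964608⟩]] false 3 c0N cB202E gN0q2 gN2q2 gN0q0 gN1q0 true true)) t 13 1024 13 = true :=
  ex3_b B202E_020_13_2048_13 B202E_020_13_2049_13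
theorem B202E_020_13_2048_12 :
    ∃ t, chk3 (onCell 0 33554432 0 1073741824 33554432 16777216 (corTK [[⟨0, 1, 0, 6291456⟩, ⟨1, 0, 1, 16777216⟩, ⟨2, 1, 1, 16777216⟩, ⟨1, 0, 0, 67108864⟩, ⟨1, 1, 0, 1056964608⟩, ⟨2, 1, 0, 67108864⟩, ⟨2, 2, 0, 1056964608⟩]] false 3 c0N cB202E gN0q2 gN2q2 gN0q0 gN1q0 true true)) t 13 2048 12 = true :=
  ex3_a B202E_020_26_2048_12 B202E_020_27_2048_12
theorem B202E_020_13_1024_12 :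
    ∃ t, chk3 (onCell 0 33554432 0 1073741824 33554432 16777216 (corTK [[⟨0, 1, 0, 6291456⟩, ⟨1, 0, 1, 16777216⟩, ⟨2, 1, 1, 16777216⟩, ⟨1, 0, 0, 67108864⟩, ⟨1, 1, 0, 1056964608⟩, ⟨2, 1, 0, 67108864⟩, ⟨2, 2, 0, 1056964608⟩]] false 3 c0N cB202E gN0q2 gN2q2 gN0q0 gN1q0 true true)) t 13 1024 12 = true :=
  ex3_b B202E_020_13_2048_12 B202E_020_13_2049_12
theorem B202E_020_13_1024_6 :
    ∃ t, chk3 (onCell 0 33554432 0 1073741824 33554432 16777216 (corTK [[⟨0, 1, 0, 6291456⟩, ⟨1, 0, 1, 16777216⟩, ⟨2, 1, 1, 16777216⟩, ⟨1, 0, 0, 67108864⟩, ⟨1, 1, 0, 1056964608⟩, ⟨2, 1, 0, 67108864⟩, ⟨2, 2, 0, 1056964608⟩]] false 3 c0N cB202E gN0q2 gN2q2 gN0q0 gN1q0 true true)) t 13 1024 6 = true :=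
  ex3_c B202E_020_13_1024_12 B202E_020_13_1024_13
theorem B202E_020_12_1024_6 :
    ∃ t, chk3 (onCell 0 33554432 0 1073741824 33554432 16777216 (corTK [[⟨0, 1, 0, 6291456⟩, ⟨1, 0, 1, 16777216⟩, ⟨2, 1, 1, 16777216⟩, ⟨1, 0, 0, 67108864⟩, ⟨1, 1, 0, 1056964608⟩, ⟨2, 1, 0, 67108864⟩, ⟨2, 2, 0, 1056964608⟩]] false 3 c0N cB202E gN0q2 gN2q2 gN0q0 gN1q0 true true)) t 12 1024 6 = true :=
  ex3_c B202E_020_12_1024_12 B202E_020_12_1024_13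
theorem B202E_020_6_1024_6 :
    ∃ t, chk3 (onCell 0 33554432 0 1073741824 33554432 16777216 (corTK [[⟨0, 1, 0, 6291456⟩, ⟨1, 0, 1, 16777216⟩, ⟨2, 1, 1, 16777216⟩, ⟨1, 0, 0, 67108864⟩, ⟨1, 1, 0, 1056964608⟩, ⟨2, 1, 0, 67108864⟩, ⟨2, 2, 0, 1056964608⟩]] false 3 c0N cB202E gN0q2 gN2q2 gN0q0 gN1q0 true true)) t 6 1024 6 = true :=
  ex3_a B202E_020_12_1024_6 B202E_020_13_1024_6
theorem B202E_020_6_512_6 :
    ∃ t, chk3 (onCell 0 33554432 0 1073741824 33554432 16777216 (corTK [[⟨0, 1, 0, 6291456⟩, ⟨1, 0, 1, 16777216⟩, ⟨2, 1, 1, 16777216⟩, ⟨1, 0, 0, 67108864⟩, ⟨1, 1, 0, 1056964608⟩, ⟨2, 1, 0, 67108864⟩, ⟨2, 2, 0, 1056964608⟩]] false 3 c0N cB202E gN0q2 gN2q2 gN0q0 gN1q0 true true)) t 6 512 6 = true :=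
  ex3_b B202E_020_6_1024_6 B202E_020_6_1025_6
theorem B202E_020_6_512_3 :
    ∃ t, chk3 (onCell 0 33554432 0 1073741824 33554432 16777216 (corTK [[⟨0, 1, 0, 6291456⟩, ⟨1, 0, 1, 16777216⟩, ⟨2, 1, 1, 16777216⟩, ⟨1, 0, 0, 67108864⟩, ⟨1, 1, 0, 1056964608⟩, ⟨2, 1, 0, 67108864⟩, ⟨2, 2, 0, 1056964608⟩]] false 3 c0N cB202E gN0q2 gN2q2 gN0q0 gN1q0 true true)) t 6 512 3 = true :=
  ex3_c B202E_020_6_512_6 B202E_020_6_512_7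
theorem B202E_020_3_512_3 :
    ∃ t, chk3 (onCell 0 33554432 0 1073741824 33554432 16777216 (corTK [[⟨0, 1, 0, 6291456⟩, ⟨1, 0, 1, 16777216⟩, ⟨2, 1, 1, 16777216⟩, ⟨1, 0, 0, 67108864⟩, ⟨1, 1, 0, 1056964608⟩, ⟨2, 1, 0, 67108864⟩, ⟨2, 2, 0, 1056964608⟩]] false 3 c0N cB202E gN0q2 gN2q2 gN0q0 gN1q0 true true)) t 3 512 3 = true :=
  ex3_a B202E_020_6_512_3 B202E_020_7_512_3
theorem B202E_020_3_256_3 :
    ∃ t, chk3 (onCell 0 33554432 0 1073741824 33554432 16777216 (corTK [[⟨0, 1, 0, 6291456⟩, ⟨1, 0, 1, 16777216⟩, ⟨2, 1, 1, 16777216⟩, ⟨1, 0, 0, 67108864⟩, ⟨1, 1, 0, 1056964608⟩, ⟨2, 1, 0, 67108864⟩, ⟨2, 2, 0, 1056964608⟩]] false 3 c0N cB202E gN0q2 gN2q2 gN0q0 gN1q0 true true)) t 3 256 3 = true :=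
  ex3_b B202E_020_3_512_3 B202E_020_3_513_3
theorem B202E_020_13_2048_11 :
    ∃ t, chk3 (onCell 0 33554432 0 1073741824 33554432 16777216 (corTK [[⟨0, 1, 0, 6291456⟩, ⟨1, 0, 1, 16777216⟩, ⟨2, 1, 1, 16777216⟩, ⟨1, 0, 0, 67108864⟩, ⟨1, 1, 0, 1056964608⟩, ⟨2, 1, 0, 67108864⟩, ⟨2, 2, 0, 1056964608⟩]] false 3 c0N cB202E gN0q2 gN2q2 gN0q0 gN1q0 true true)) t 13 2048 11 = true :=
  ex3_a B202E_020_26_2048_11 B202E_020_27_2048_11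
theorem B202E_020_13_1024_11 :
    ∃ t, chk3 (onCell 0 33554432 0 1073741824 33554432 16777216 (corTK [[⟨0, 1, 0, 6291456⟩, ⟨1, 0, 1, 16777216⟩, ⟨2, 1, 1, 16777216⟩, ⟨1, 0, 0, 67108864⟩, ⟨1, 1, 0, 1056964608⟩, ⟨2, 1, 0, 67108864⟩, ⟨2, 2, 0, 1056964608⟩]] false 3 c0N cB202E gN0q2 gN2q2 gN0q0 gN1q0 true true)) t 13 1024 11 = true :=
  ex3_b B202E_020_13_2048_11 B202E_020_13_2049_11
theorem B202E_020_13_1024_5 :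
    ∃ t, chk3 (onCell 0 33554432 0 1073741824 33554432 16777216 (corTK [[⟨0, 1, 0, 6291456⟩, ⟨1, 0, 1, 16777216⟩, ⟨2, 1, 1, 16777216⟩, ⟨1, 0, 0, 67108864⟩, ⟨1, 1, 0, 1056964608⟩, ⟨2, 1, 0, 67108864⟩, ⟨2, 2, 0, 1056964608⟩]] false 3 c0N cB202E gN0q2 gN2q2 gN0q0 gN1q0 true true)) t 13 1024 5 = true :=
  ex3_c B202E_020_13_1024_10 B202E_020_13_1024_11
theorem B202E_020_12_2048_11 :
    ∃ t, chk3 (onCell 0 33554432 0 1073741824 33554432 16777216 (corTK [[⟨0, 1, 0, 6291456⟩, ⟨1, 0, 1, 16777216⟩, ⟨2, 1, 1, 16777216⟩, ⟨1, 0, 0, 67108864⟩, ⟨1, 1, 0, 1056964608⟩, ⟨2, 1, 0, 67108864⟩, ⟨2, 2, 0, 1056964608⟩]] false 3 c0N cB202E gN0q2 gN2q2 gN0q0 gN1q0 true true)) t 12 2048 11 = true :=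
  ex3_a B202E_020_24_2048_11 B202E_020_25_2048_11
theorem B202E_020_12_1024_11 :
    ∃ t, chk3 (onCell 0 33554432 0 1073741824 33554432 16777216 (corTK [[⟨0, 1, 0, 6291456⟩, ⟨1, 0, 1, 16777216⟩, ⟨2, 1, 1, 16777216⟩, ⟨1, 0, 0, 67108864⟩, ⟨1, 1, 0, 1056964608⟩, ⟨2, 1, 0, 67108864⟩, ⟨2, 2, 0, 1056964608⟩]] false 3 c0N cB202E gN0q2 gN2q2 gN0q0 gN1q0 true true)) t 12 1024 11 = true :=
  ex3_b B202E_020_12_2048_11 B202E_020_12_2049_11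
theorem B202E_020_12_2048_10 :
    ∃ t, chk3 (onCell 0 33554432 0 1073741824 33554432 16777216 (corTK [[⟨0, 1, 0, 6291456⟩, ⟨1, 0, 1, 16777216⟩, ⟨2, 1, 1, 16777216⟩, ⟨1, 0, 0, 67108864⟩, ⟨1, 1, 0, 1056964608⟩, ⟨2, 1, 0, 67108864⟩, ⟨2, 2, 0, 1056964608⟩]] false 3 c0N cB202E gN0q2 gN2q2 gN0q0 gN1q0 true true)) t 12 2048 10 = true :=
  ex3_a B202E_020_24_2048_10 B202E_020_25_2048_10
theorem B202E_020_12_1024_10 :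
    ∃ t, chk3 (onCell 0 33554432 0 1073741824 33554432 16777216 (corTK [[⟨0, 1, 0, 6291456⟩, ⟨1, 0, 1, 16777216⟩, ⟨2, 1, 1, 16777216⟩, ⟨1, 0, 0, 67108864⟩, ⟨1, 1, 0, 1056964608⟩, ⟨2, 1, 0, 67108864⟩, ⟨2, 2, 0, 1056964608⟩]] false 3 c0N cB202E gN0q2 gN2q2 gN0q0 gN1q0 true true)) t 12 1024 10 = true :=
  ex3_b B202E_020_12_2048_10 B202E_020_12_2049_10
theorem B202E_020_12_1024_5 :
    ∃ t, chk3 (onCell 0 33554432 0 1073741824 33554432 16777216 (corTK [[⟨0, 1, 0, 6291456⟩, ⟨1, 0, 1, 16777216⟩, ⟨2, 1, 1, 16777216⟩, ⟨1, 0, 0, 67108864⟩, ⟨1, 1, 0, 1056964608⟩, ⟨2, 1, 0, 67108864⟩, ⟨2, 2, 0, 1056964608⟩]] false 3 c0N cB202E gN0q2 gN2q2 gN0q0 gN1q0 true true)) t 12 1024 5 = true :=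
  ex3_c B202E_020_12_1024_10 B202E_020_12_1024_11
theorem B202E_020_6_1024_5 :
    ∃ t, chk3 (onCell 0 33554432 0 1073741824 33554432 16777216 (corTK [[⟨0, 1, 0, 6291456⟩, ⟨1, 0, 1, 16777216⟩, ⟨2, 1, 1, 16777216⟩, ⟨1, 0, 0, 67108864⟩, ⟨1, 1, 0, 1056964608⟩, ⟨2, 1, 0, 67108864⟩, ⟨2, 2, 0, 1056964608⟩]] false 3 c0N cB202E gN0q2 gN2q2 gN0q0 gN1q0 true true)) t 6 1024 5 = true :=
  ex3_a B202E_020_12_1024_5 B202E_020_13_1024_5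
theorem B202E_020_6_512_5 :
    ∃ t, chk3 (onCell 0 33554432 0 1073741824 33554432 16777216 (corTK [[⟨0, 1, 0, 6291456⟩, ⟨1, 0, 1, 16777216⟩, ⟨2, 1, 1, 16777216⟩, ⟨1, 0, 0, 67108864⟩, ⟨1, 1, 0, 1056964608⟩, ⟨2, 1, 0, 67108864⟩, ⟨2, 2, 0, 1056964608⟩]] false 3 c0N cB202E gN0q2 gN2q2 gN0q0 gN1q0 true true)) t 6 512 5 = true :=
  ex3_b B202E_020_6_1024_5 B202E_020_6_1025_5
theorem B202E_020_12_2048_9 :
    ∃ t, chk3 (onCell 0 33554432 0 1073741824 33554432 16777216 (corTK [[⟨0, 1, 0, 6291456⟩, ⟨1, 0, 1, 16777216⟩, ⟨2, 1, 1, 16777216⟩, ⟨1, 0, 0, 67108864⟩, ⟨1, 1, 0, 1056964608⟩, ⟨2, 1, 0, 67108864⟩, ⟨2, 2, 0, 1056964608⟩]] false 3 c0N cB202E gN0q2 gN2q2 gN0q0 gN1q0 true true)) t 12 2048 9 = true :=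
  ex3_a B202E_020_24_2048_9 B202E_020_25_2048_9
theorem B202E_020_12_1024_9 :
    ∃ t, chk3 (onCell 0 33554432 0 1073741824 33554432 16777216 (corTK [[⟨0, 1, 0, 6291456⟩, ⟨1, 0, 1, 16777216⟩, ⟨2, 1, 1, 16777216⟩, ⟨1, 0, 0, 67108864⟩, ⟨1, 1, 0, 1056964608⟩, ⟨2, 1, 0, 67108864⟩, ⟨2, 2, 0, 1056964608⟩]] false 3 c0N cB202E gN0q2 gN2q2 gN0q0 gN1q0 true true)) t 12 1024 9 = true :=
  ex3_b B202E_020_12_2048_9 B202E_020_12_2049_9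
theorem B202E_020_12_1024_4 :
    ∃ t, chk3 (onCell 0 33554432 0 1073741824 33554432 16777216 (corTK [[⟨0, 1, 0, 6291456⟩, ⟨1, 0, 1, 16777216⟩, ⟨2, 1, 1, 16777216⟩, ⟨1, 0, 0, 67108864⟩, ⟨1, 1, 0, 1056964608⟩, ⟨2, 1, 0, 67108864⟩, ⟨2, 2, 0, 1056964608⟩]] false 3 c0N cB202E gN0q2 gN2q2 gN0q0 gN1q0 true true)) t 12 1024 4 = true :=
  ex3_c B202E_020_12_1024_8 B202E_020_12_1024_9
theorem B202E_020_6_1024_4 :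
    ∃ t, chk3 (onCell 0 33554432 0 1073741824 33554432 16777216 (corTK [[⟨0, 1, 0, 6291456⟩, ⟨1, 0, 1, 16777216⟩, ⟨2, 1, 1, 16777216⟩, ⟨1, 0, 0, 67108864⟩, ⟨1, 1, 0, 1056964608⟩, ⟨2, 1, 0, 67108864⟩, ⟨2, 2, 0, 1056964608⟩]] false 3 c0N cB202E gN0q2 gN2q2 gN0q0 gN1q0 true true)) t 6 1024 4 = true :=
  ex3_a B202E_020_12_1024_4 B202E_020_13_1024_4
theorem B202E_020_6_512_4 :
    ∃ t, chk3 (onCell 0 33554432 0 1073741824 33554432 16777216 (corTK [[⟨0, 1, 0, 6291456⟩, ⟨1, 0, 1, 16777216⟩, ⟨2, 1, 1, 16777216⟩, ⟨1, 0, 0, 67108864⟩, ⟨1, 1, 0, 1056964608⟩, ⟨2, 1, 0, 67108864⟩, ⟨2, 2, 0, 1056964608⟩]] false 3 c0N cB202E gN0q2 gN2q2 gN0q0 gN1q0 true true)) t 6 512 4 = true :=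
  ex3_b B202E_020_6_1024_4 B202E_020_6_1025_4
theorem B202E_020_6_512_2 :
    ∃ t, chk3 (onCell 0 33554432 0 1073741824 33554432 16777216 (corTK [[⟨0, 1, 0, 6291456⟩, ⟨1, 0, 1, 16777216⟩, ⟨2, 1, 1, 16777216⟩, ⟨1, 0, 0, 67108864⟩, ⟨1, 1, 0, 1056964608⟩, ⟨2, 1, 0, 67108864⟩, ⟨2, 2, 0, 1056964608⟩]] false 3 c0N cB202E gN0q2 gN2q2 gN0q0 gN1q0 true true)) t 6 512 2 = true :=
  ex3_c B202E_020_6_512_4 B202E_020_6_512_5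
theorem B202E_020_3_512_2 :
    ∃ t, chk3 (onCell 0 33554432 0 1073741824 33554432 16777216 (corTK [[⟨0, 1, 0, 6291456⟩, ⟨1, 0, 1, 16777216⟩, ⟨2, 1, 1, 16777216⟩, ⟨1, 0, 0, 67108864⟩, ⟨1, 1, 0, 1056964608⟩, ⟨2, 1, 0, 67108864⟩, ⟨2, 2, 0, 1056964608⟩]] false 3 c0N cB202E gN0q2 gN2q2 gN0q0 gN1q0 true true)) t 3 512 2 = true :=
  ex3_a B202E_020_6_512_2 B202E_020_7_512_2
theorem B202E_020_3_256_2 :
    ∃ t, chk3 (onCell 0 33554432 0 1073741824 33554432 16777216 (corTK [[⟨0, 1, 0, 6291456⟩, ⟨1, 0, 1, 16777216⟩, ⟨2, 1, 1, 16777216⟩, ⟨1, 0, 0, 67108864⟩, ⟨1, 1, 0, 1056964608⟩, ⟨2, 1, 0, 67108864⟩, ⟨2, 2, 0, 1056964608⟩]] false 3 c0N cB202E gN0q2 gN2q2 gN0q0 gN1q0 true true)) t 3 256 2 = true :=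
  ex3_b B202E_020_3_512_2 B202E_020_3_513_2
theorem B202E_020_3_256_1 :
    ∃ t, chk3 (onCell 0 33554432 0 1073741824 33554432 16777216 (corTK [[⟨0, 1, 0, 6291456⟩, ⟨1, 0, 1, 16777216⟩, ⟨2, 1, 1, 16777216⟩, ⟨1, 0, 0, 67108864⟩, ⟨1, 1, 0, 1056964608⟩, ⟨2, 1, 0, 67108864⟩, ⟨2, 2, 0, 1056964608⟩]] false 3 c0N cB202E gN0q2 gN2q2 gN0q0 gN1q0 true true)) t 3 256 1 = true :=
  ex3_c B202E_020_3_256_2 B202E_020_3_256_3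
theorem B202E_020_5_512_2 :
    ∃ t, chk3 (onCell 0 33554432 0 1073741824 33554432 16777216 (corTK [[⟨0, 1, 0, 6291456⟩, ⟨1, 0, 1, 16777216⟩, ⟨2, 1, 1, 16777216⟩, ⟨1, 0, 0, 67108864⟩, ⟨1, 1, 0, 1056964608⟩, ⟨2, 1, 0, 67108864⟩, ⟨2, 2, 0, 1056964608⟩]] false 3 c0N cB202E gN0q2 gN2q2 gN0q0 gN1q0 true true)) t 5 512 2 = true :=
  ex3_c B202E_020_5_512_4 B202E_020_5_512_5
theorem B202E_020_2_512_2 :
    ∃ t, chk3 (onCell 0 33554432 0 1073741824 33554432 16777216 (corTK [[⟨0, 1, 0, 6291456⟩, ⟨1, 0, 1, 16777216⟩, ⟨2, 1, 1, 16777216⟩, ⟨1, 0, 0, 67108864⟩, ⟨1, 1, 0, 1056964608⟩, ⟨2, 1, 0, 67108864⟩, ⟨2, 2, 0, 1056964608⟩]] false 3 c0N cB202E gN0q2 gN2q2 gN0q0 gN1q0 true true)) t 2 512 2 = true :=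
  ex3_a B202E_020_4_512_2 B202E_020_5_512_2
theorem B202E_020_2_256_2 :
    ∃ t, chk3 (onCell 0 33554432 0 1073741824 33554432 16777216 (corTK [[⟨0, 1, 0, 6291456⟩, ⟨1, 0, 1, 16777216⟩, ⟨2, 1, 1, 16777216⟩, ⟨1, 0, 0, 67108864⟩, ⟨1, 1, 0, 1056964608⟩, ⟨2, 1, 0, 67108864⟩, ⟨2, 2, 0, 1056964608⟩]] false 3 c0N cB202E gN0q2 gN2q2 gN0q0 gN1q0 true true)) t 2 256 2 = true :=
  ex3_b B202E_020_2_512_2 B202E_020_2_513_2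
theorem B202E_020_2_256_1 :
    ∃ t, chk3 (onCell 0 33554432 0 1073741824 33554432 16777216 (corTK [[⟨0, 1, 0, 6291456⟩, ⟨1, 0, 1, 16777216⟩, ⟨2, 1, 1, 16777216⟩, ⟨1, 0, 0, 67108864⟩, ⟨1, 1, 0, 1056964608⟩, ⟨2, 1, 0, 67108864⟩, ⟨2, 2, 0, 1056964608⟩]] false 3 c0N cB202E gN0q2 gN2q2 gN0q0 gN1q0 true true)) t 2 256 1 = true :=
  ex3_c B202E_020_2_256_2 B202E_020_2_256_3
theorem B202E_020_1_256_1 :
    ∃ t, chk3 (onCell 0 33554432 0 1073741824 33554432 16777216 (corTK [[⟨0, 1, 0, 6291456⟩, ⟨1, 0, 1, 16777216⟩, ⟨2, 1, 1, 16777216⟩, ⟨1, 0, 0, 67108864⟩, ⟨1, 1, 0, 1056964608⟩, ⟨2, 1, 0, 67108864⟩, ⟨2, 2, 0, 1056964608⟩]] false 3 c0N cB202E gN0q2 gN2q2 gN0q0 gN1q0 true true)) t 1 256 1 = true :=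
  ex3_a B202E_020_2_256_1 B202E_020_3_256_1
theorem B202E_020_1_128_1 :
    ∃ t, chk3 (onCell 0 33554432 0 1073741824 33554432 16777216 (corTK [[⟨0, 1, 0, 6291456⟩, ⟨1, 0, 1, 16777216⟩, ⟨2, 1, 1, 16777216⟩, ⟨1, 0, 0, 67108864⟩, ⟨1, 1, 0, 1056964608⟩, ⟨2, 1, 0, 67108864⟩, ⟨2, 2, 0, 1056964608⟩]] false 3 c0N cB202E gN0q2 gN2q2 gN0q0 gN1q0 true true)) t 1 128 1 = true :=
  ex3_b B202E_020_1_256_1 B202E_020_1_257_1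
theorem B202E_020_1_64_1 :
    ∃ t, chk3 (onCell 0 33554432 0 1073741824 33554432 16777216 (corTK [[⟨0, 1, 0, 6291456⟩, ⟨1, 0, 1, 16777216⟩, ⟨2, 1, 1, 16777216⟩, ⟨1, 0, 0, 67108864⟩, ⟨1, 1, 0, 1056964608⟩, ⟨2, 1, 0, 67108864⟩, ⟨2, 2, 0, 1056964608⟩]] false 3 c0N cB202E gN0q2 gN2q2 gN0q0 gN1q0 true true)) t 1 64 1 = true :=
  ex3_b B202E_020_1_128_1 B202E_020_1_129_1
theorem B202E_020_1_32_1 :
    ∃ t, chk3 (onCell 0 33554432 0 1073741824 33554432 16777216 (corTK [[⟨0, 1, 0, 6291456⟩, ⟨1, 0, 1, 16777216⟩, ⟨2, 1, 1, 16777216⟩, ⟨1, 0, 0, 67108864⟩, ⟨1, 1, 0, 1056964608⟩, ⟨2, 1, 0, 67108864⟩, ⟨2, 2, 0, 1056964608⟩]] false 3 c0N cB202E gN0q2 gN2q2 gN0q0 gN1q0 true true)) t 1 32 1 = true :=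
  ex3_b B202E_020_1_64_1 B202E_020_1_65_1
theorem B202E_020_1_16_1 :
    ∃ t, chk3 (onCell 0 33554432 0 1073741824 33554432 16777216 (corTK [[⟨0, 1, 0, 6291456⟩, ⟨1, 0, 1, 16777216⟩, ⟨2, 1, 1, 16777216⟩, ⟨1, 0, 0, 67108864⟩, ⟨1, 1, 0, 1056964608⟩, ⟨2, 1, 0, 67108864⟩, ⟨2, 2, 0, 1056964608⟩]] false 3 c0N cB202E gN0q2 gN2q2 gN0q0 gN1q0 true true)) t 1 16 1 = true :=
  ex3_b B202E_020_1_32_1 B202E_020_1_33_1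
theorem B202E_020_1_8_1 :
    ∃ t, chk3 (onCell 0 33554432 0 1073741824 33554432 16777216 (corTK [[⟨0, 1, 0, 6291456⟩, ⟨1, 0, 1, 16777216⟩, ⟨2, 1, 1, 16777216⟩, ⟨1, 0, 0, 67108864⟩, ⟨1, 1, 0, 1056964608⟩, ⟨2, 1, 0, 67108864⟩, ⟨2, 2, 0, 1056964608⟩]] false 3 c0N cB202E gN0q2 gN2q2 gN0q0 gN1q0 true true)) t 1 8 1 = true :=
  ex3_b B202E_020_1_16_1 B202E_020_1_17_1
theorem B202E_020_1_4_1 :
    ∃ t, chk3 (onCell 0 33554432 0 1073741824 33554432 16777216 (corTK [[⟨0, 1, 0, 6291456⟩, ⟨1, 0, 1, 16777216⟩, ⟨2, 1, 1, 16777216⟩, ⟨1, 0, 0, 67108864⟩, ⟨1, 1, 0, 1056964608⟩, ⟨2, 1, 0, 67108864⟩, ⟨2, 2, 0, 1056964608⟩]] false 3 c0N cB202E gN0q2 gN2q2 gN0q0 gN1q0 true true)) t 1 4 1 = true :=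
  ex3_b B202E_020_1_8_1 B202E_020_1_9_1
theorem B202E_020_1_2_1 :
    ∃ t, chk3 (onCell 0 33554432 0 1073741824 33554432 16777216 (corTK [[⟨0, 1, 0, 6291456⟩, ⟨1, 0, 1, 16777216⟩, ⟨2, 1, 1, 16777216⟩, ⟨1, 0, 0, 67108864⟩, ⟨1, 1, 0, 1056964608⟩, ⟨2, 1, 0, 67108864⟩, ⟨2, 2, 0, 1056964608⟩]] false 3 c0N cB202E gN0q2 gN2q2 gN0q0 gN1q0 true true)) t 1 2 1 = true :=
  ex3_b B202E_020_1_4_1 B202E_020_1_5_1
theorem B202E_020 :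
    ∃ t, chk3 (onCell 0 33554432 0 1073741824 33554432 16777216 (corTK [[⟨0, 1, 0, 6291456⟩, ⟨1, 0, 1, 16777216⟩, ⟨2, 1, 1, 16777216⟩, ⟨1, 0, 0, 67108864⟩, ⟨1, 1, 0, 1056964608⟩, ⟨2, 1, 0, 67108864⟩, ⟨2, 2, 0, 1056964608⟩]] false 3 c0N cB202E gN0q2 gN2q2 gN0q0 gN1q0 true true)) t 1 1 1 = true :=
  ex3_b B202E_020_1_2_1 B202E_020_1_3_1

def B202E_021 :
    ∃ t, chk3 (onCell 0 33554432 0 1073741824 33554432 16777216 (corTK [[⟨0, 1, 0, 6291456⟩, ⟨1, 0, 1, 16777216⟩, ⟨2, 1, 1, 16777216⟩, ⟨1, 0, 0, 67108864⟩, ⟨1, 1, 0, 1056964608⟩, ⟨2, 1, 0, 67108864⟩, ⟨2, 2, 0, 1056964608⟩]] false 3 c0N cB202E gN0q2 gN2q2 gN1q0 gN2q0 true true)) t 1 1 1 = true :=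
  ⟨(T.l 1), by decide +kernel⟩

def B202E_022 :
    ∃ t, chk3 (onCell 0 33554432 0 1073741824 33554432 16777216 (corTK [[⟨0, 1, 0, 6291456⟩, ⟨1, 0, 1, 16777216⟩, ⟨2, 1, 1, 16777216⟩, ⟨1, 0, 0, 67108864⟩, ⟨1, 1, 0, 1056964608⟩, ⟨2, 1, 0, 67108864⟩, ⟨2, 2, 0, 1056964608⟩]] false 3 c0N cB202E gN0q2 gN2q2 gN2q0 gN3q0 true false)) t 1 1 1 = true :=
  ⟨(T.l 1), by decide +kernel⟩

def B202E_100 :
    ∃ t, chk3 (onCell 0 33554432 0 1073741824 33554432 16777216 (corTK [] false 3 c0N cB202E gN1q2 gN0q2 gN0q0 gN1q0 true true)) t 1 1 1 = true :=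
  ⟨(T.l 1), by decide +kernel⟩

def B202E_101 :
    ∃ t, chk3 (onCell 0 33554432 0 1073741824 33554432 16777216 (corTK [] false 3 c0N cB202E gN1q2 gN0q2 gN1q0 gN2q0 true true)) t 1 1 1 = true :=
  ⟨(T.l 1), by decide +kernel⟩

def B202E_102 :
    ∃ t, chk3 (onCell 0 33554432 0 1073741824 33554432 16777216 (corTK [] false 3 c0N cB202E gN1q2 gN0q2 gN2q0 gN3q0 true false)) t 1 1 1 = true :=
  ⟨(T.l 1), by decide +kernel⟩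

def B202E_110 :
    ∃ t, chk3 (onCell 0 33554432 0 1073741824 33554432 16777216 (corTK [] false 3 c0N cB202E gN1q2 gN1q2 gN0q0 gN1q0 true true)) t 1 1 1 = true :=
  ⟨(T.l 1), by decide +kernel⟩

def B202E_111 :
    ∃ t, chk3 (onCell 0 33554432 0 1073741824 33554432 16777216 (corTK [] false 3 c0N cB202E gN1q2 gN1q2 gN1q0 gN2q0 true true)) t 1 1 1 = true :=
  ⟨(T.l 1), by decide +kernel⟩

def B202E_112 :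
    ∃ t, chk3 (onCell 0 33554432 0 1073741824 33554432 16777216 (corTK [] false 3 c0N cB202E gN1q2 gN1q2 gN2q0 gN3q0 true false)) t 1 1 1 = true :=
  ⟨(T.l 1), by decide +kernel⟩

def B202E_120_2_256_1 :
    ∃ t, chk3 (onCell 0 33554432 0 1073741824 33554432 16777216 (corTK [[⟨0, 1, 0, 16777216⟩, ⟨1, 0, 1, 25165824⟩, ⟨2, 1, 1, 25165824⟩, ⟨1, 0, 0, 67108864⟩, ⟨1, 1, 0, 1056964608⟩, ⟨2, 1, 0, 67108864⟩, ⟨2, 2, 0, 1056964608⟩]] false 3 c0N cB202E gN1q2 gN2q2 gN0q0 gN1q0 true true)) t 2 256 1 = true :=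
  ⟨(T.c (T.b (T.a (T.c (T.b (T.a (T.l 204) (T.c (T.b (T.a (T.l 204) (T.l 204)) (T.l 1)) (T.b (T.a (T.l 204) (T.l 204)) (T.l 1)))) (T.l 1)) (T.b (T.a (T.l 204) (T.c (T.b (T.a (T.l 204) (T.l 204)) (T.l 1)) (T.b (T.a (T.l 204) (T.l 204)) (T.l 1)))) (T.l 1))) (T.c (T.b (T.a (T.c (T.b (T.a (T.l 204) (T.a (T.l 204) (T.l 204))) (T.l 1)) (T.b (T.a (T.l 204) (T.a (T.l 204) (T.l 204))) (T.l 1))) (T.c (T.b (T.a (T.c (T.b (T.a (T.l 204) (T.a (T.l 204) (T.l 220))) (T.l 1)) (T.b (T.a (T.l 204) (T.l 220)) (T.l 1))) (T.c (T.b (T.a (T.c (T.b (T.a (T.l 204) (T.l 220)) (T.l 1)) (T.a (T.l 220) (T.b (T.l 220) (T.l 1)))) (T.c (T.b (T.a (T.c (T.b (T.l 476) (T.l 1)) (T.b (T.l 220) (T.l 1))) (T.c (T.b (T.a (T.l 476) (T.l 476)) (T.l 1)) (T.b (T.a (T.l 476) (T.l 476)) (T.l 1)))) (T.l 1)) (T.b (T.a (T.c (T.b (T.l 220) (T.l 1)) (T.a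 (T.l 220) (T.l 476))) (T.c (T.b (T.a (T.l 476) (T.l 476)) (T.l 1)) (T.b (T.a (T.l 476) (T.l 476)) (T.l 1)))) (T.l 1)))) (T.l 1)) (T.b (T.a (T.a (T.l 220) (T.c (T.b (T.l 220) (T.l 1)) (T.b (T.l 220) (T.l 1)))) (T.c (T.b (T.a (T.a (T.l 220) (T.l 476)) (T.c (T.b (T.a (T.l 476) (T.l 476)) (T.l 1)) (T.b (T.a (T.l 476) (T.l 476)) (T.l 1)))) (T.l 1)) (T.b (T.a (T.a (T.l 220) (T.l 476)) (T.c (T.b (T.a (T.l 476) (T.l 476)) (T.l 1)) (T.b (T.a (T.l 476) (T.l 476)) (T.l 1)))) (T.l 1)))) (T.l 1)))) (T.l 1)) (T.b (T.a (T.c (T.a (T.l 220) (T.b (T.l 220) (T.l 1))) (T.a (T.l 220) (T.b (T.l 220) (T.l 1)))) (T.c (T.b (T.a (T.c (T.b (T.l 220) (T.l 1)) (T.b (T.l 220) (T.l 1))) (T.c (T.b (T.a (T.l 476) (T.c (T.b (T.a (T.l 476) (T.l 476)) (T.l 1)) (T.b (T.a (T.l 476) (T.l 476)) (T.l 1)))) (T.l 1)) (T.b (T.a (T.l 476) (T.c (T.b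 (T.l 476) (T.l 1)) (T.b (T.l 476) (T.l 1)))) (T.l 1)))) (T.l 1)) (T.b (T.a (T.c (T.b (T.l 220) (T.l 1)) (T.b (T.l 220) (T.l 1))) (T.c (T.b (T.a (T.l 476) (T.c (T.b (T.l 476) (T.l 1)) (T.b (T.l 476) (T.l 1)))) (T.l 1)) (T.b (T.a (T.l 476) (T.c (T.b (T.l 476) (T.l 1)) (T.b (T.l 476) (T.l 1)))) (T.l 1)))) (T.l 1)))) (T.l 1)))) (T.l 1)) (T.b (T.a (T.c (T.b (T.a (T.l 204) (T.a (T.l 204) (T.l 204))) (T.l 1)) (T.b (T.a (T.l 204) (T.a (T.l 204) (T.l 204))) (T.l 1))) (T.c (T.b (T.a (T.a (T.l 220) (T.c (T.b (T.l 220) (T.l 1)) (T.b (T.l 204) (T.l 1)))) (T.c (T.b (T.a (T.c (T.b (T.l 220) (T.l 1)) (T.b (T.l 220) (T.l 1))) (T.c (T.b (T.a (T.l 220) (T.c (T.b (T.l 476) (T.l 1)) (T.b (T.l 476) (T.l 1)))) (T.l 1)) (T.b (T.a (T.l 220) (T.c (T.b (T.l 476) (T.l 1)) (T.b (T.l 476) (T.l 1)))) (T.l 1)))) (T.l 1)) (T.b (T.a (T.a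 (T.l 204) (T.l 220)) (T.c (T.b (T.a (T.l 220) (T.c (T.b (T.l 476) (T.l 1)) (T.b (T.l 476) (T.l 1)))) (T.l 1)) (T.b (T.a (T.l 220) (T.c (T.b (T.l 476) (T.l 1)) (T.a (T.l 476) (T.l 476)))) (T.l 1)))) (T.l 1)))) (T.l 1)) (T.b (T.a (T.a (T.l 204) (T.c (T.b (T.l 204) (T.l 1)) (T.b (T.l 204) (T.l 1)))) (T.c (T.b (T.a (T.a (T.l 204) (T.l 220)) (T.c (T.b (T.a (T.l 220) (T.a (T.l 476) (T.l 476))) (T.l 1)) (T.b (T.a (T.l 220) (T.a (T.l 476) (T.l 476))) (T.l 1)))) (T.l 1)) (T.b (T.a (T.a (T.l 204) (T.l 220)) (T.c (T.b (T.a (T.l 220) (T.a (T.l 476) (T.l 476))) (T.l 1)) (T.b (T.a (T.l 220) (T.a (T.l 476) (T.l 476))) (T.l 1)))) (T.l 1)))) (T.l 1)))) (T.l 1)))) (T.l 1)) (T.b (T.a (T.c (T.b (T.a (T.l 204) (T.c (T.b (T.a (T.l 204) (T.l 204)) (T.l 1)) (T.b (T.a (T.l 204) (T.l 204)) (T.l 1)))) (T.l 1)) (T.b (T.a (T.l 204)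 (T.c (T.a (T.a (T.l 204) (T.l 204)) (T.l 204)) (T.a (T.l 204) (T.l 204)))) (T.l 1))) (T.c (T.b (T.a (T.c (T.b (T.a (T.l 204) (T.a (T.l 204) (T.l 204))) (T.l 1)) (T.b (T.a (T.l 204) (T.l 220)) (T.l 1))) (T.c (T.b (T.a (T.a (T.l 204) (T.a (T.l 204) (T.l 220))) (T.c (T.b (T.a (T.a (T.l 204) (T.l 220)) (T.c (T.b (T.a (T.l 220) (T.a (T.l 476) (T.l 476))) (T.l 1)) (T.b (T.a (T.l 220) (T.l 476)) (T.l 1)))) (T.l 1)) (T.b (T.a (T.a (T.l 204) (T.l 220)) (T.c (T.b (T.a (T.l 204) (T.l 476)) (T.l 1)) (T.b (T.a (T.l 204) (T.l 476)) (T.l 1)))) (T.l 1)))) (T.l 1)) (T.b (T.a (T.a (T.l 204) (T.a (T.l 204) (T.l 220))) (T.c (T.b (T.a (T.l 220) (T.c (T.a (T.l 476) (T.b (T.l 476) (T.l 1))) (T.a (T.l 220) (T.b (T.l 476) (T.l 1))))) (T.l 1)) (T.b (T.a (T.l 220) (T.a (T.l 220) (T.c (T.b (T.l 476) (T.l 1)) (T.b (T.l 476) (T.l 1)))))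 (T.l 1)))) (T.l 1)))) (T.l 1)) (T.b (T.a (T.c (T.a (T.l 220) (T.a (T.l 204) (T.l 204))) (T.a (T.l 204) (T.a (T.l 204) (T.l 204)))) (T.c (T.b (T.a (T.a (T.l 204) (T.l 220)) (T.c (T.b (T.a (T.l 220) (T.a (T.l 220) (T.c (T.b (T.l 476) (T.l 1)) (T.b (T.l 476) (T.l 1))))) (T.l 1)) (T.b (T.a (T.l 220) (T.a (T.l 220) (T.c (T.b (T.l 476) (T.l 1)) (T.b (T.l 476) (T.l 1))))) (T.l 1)))) (T.l 1)) (T.b (T.a (T.a (T.l 204) (T.l 220)) (T.c (T.b (T.a (T.l 220) (T.a (T.l 220) (T.c (T.b (T.l 476) (T.l 1)) (T.a (T.l 476) (T.l 476))))) (T.l 1)) (T.b (T.a (T.l 204) (T.a (T.l 220) (T.a (T.l 220) (T.l 476)))) (T.l 1)))) (T.l 1)))) (T.l 1)))) (T.l 1))), by decide +kernel⟩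

def B202E_120_3_256_1 :
    ∃ t, chk3 (onCell 0 33554432 0 1073741824 33554432 16777216 (corTK [[⟨0, 1, 0, 16777216⟩, ⟨1, 0, 1, 25165824⟩, ⟨2, 1, 1, 25165824⟩, ⟨1, 0, 0, 67108864⟩, ⟨1, 1, 0, 1056964608⟩, ⟨2, 1, 0, 67108864⟩, ⟨2, 2, 0, 1056964608⟩]] false 3 c0N cB202E gN1q2 gN2q2 gN0q0 gN1q0 true true)) t 3 256 1 = true :=
  ⟨(T.c (T.a (T.a (T.a (T.b (T.a (T.c (T.b (T.a (T.c (T.b (T.a (T.a (T.c (T.b (T.c (T.b (T.c (T.b (T.l 476) (T.l 1)) (T.b (T.l 476) (T.l 1))) (T.l 1)) (T.b (T.c (T.b (T.l 476) (T.l 1)) (T.b (T.l 476) (T.l 1))) (T.l 1))) (T.l 1)) (T.b (T.c (T.b (T.c (T.b (T.l 476) (T.l 1)) (T.b (T.l 476) (T.l 1))) (T.l 1)) (T.b (T.c (T.b (T.l 476) (T.l 1)) (T.b (T.l 476) (T.l 1))) (T.l 1))) (T.l 1))) (T.l 1024)) (T.l 1024)) (T.l 1)) (T.b (T.a (T.a (T.c (T.b (T.c (T.b (T.c (T.b (T.l 476) (T.l 1)) (T.b (T.l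 476) (T.l 1))) (T.l 1)) (T.b (T.c (T.b (T.l 476) (T.l 1)) (T.b (T.l 476) (T.l 1))) (T.l 1))) (T.l 1)) (T.b (T.c (T.b (T.c (T.b (T.l 476) (T.l 1)) (T.b (T.l 476) (T.l 1))) (T.l 1)) (T.b (T.c (T.b (T.l 476) (T.l 1)) (T.b (T.l 476) (T.l 1))) (T.l 1))) (T.l 1))) (T.l 1024)) (T.l 1024)) (T.l 1))) (T.l 1024)) (T.l 1)) (T.b (T.a (T.c (T.b (T.a (T.a (T.c (T.b (T.c (T.b (T.c (T.b (T.l 476) (T.l 1)) (T.b (T.l 476) (T.l 1))) (T.l 1)) (T.b (T.c (T.b (T.l 476) (T.l 1)) (T.b (T.l 476) (T.l 1))) (T.l 1))) (T.l 1)) (T.b (T.c (T.b (T.c (T.b (T.l 476) (T.l 1)) (T.b (T.l 476) (T.l 1))) (T.l 1)) (T.b (T.c (T.l 476) (T.l 476)) (T.l 1))) (T.l 1))) (T.l 1024)) (T.l 1024)) (T.l 1)) (T.b (T.a (T.a (T.c (T.b (T.c (T.b (T.l 476) (T.l 1)) (T.b (T.l 476) (T.l 1))) (T.l 1)) (T.b (T.c (T.b (T.l 476) (T.l 1)) (T.b (T.l 476) (T.l 1)))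 (T.l 1))) (T.l 1024)) (T.l 1024)) (T.l 1))) (T.l 1024)) (T.l 1))) (T.l 1024)) (T.l 1)) (T.l 1024)) (T.l 1024)) (T.l 1024)) (T.b (T.a (T.c (T.b (T.a (T.c (T.b (T.a (T.c (T.b (T.a (T.c (T.b (T.a (T.l 476) (T.l 476)) (T.l 1)) (T.b (T.a (T.l 476) (T.l 476)) (T.l 1))) (T.a (T.a (T.c (T.l 1024) (T.b (T.l 476) (T.l 1))) (T.l 1024)) (T.l 1024))) (T.l 1)) (T.b (T.a (T.c (T.b (T.a (T.l 476) (T.l 476)) (T.l 1)) (T.b (T.a (T.l 476) (T.l 476)) (T.l 1))) (T.c (T.b (T.a (T.l 476) (T.l 476)) (T.l 1)) (T.b (T.a (T.l 476) (T.l 476)) (T.l 1)))) (T.l 1))) (T.a (T.a (T.c (T.l 1024) (T.a (T.c (T.l 1024) (T.b (T.b (T.l 476) (T.l 1)) (T.l 1))) (T.l 1024))) (T.l 1024)) (T.l 1024))) (T.l 1)) (T.b (T.a (T.c (T.b (T.a (T.c (T.b (T.a (T.l 476) (T.l 476)) (T.l 1)) (T.b (T.a (T.l 476) (T.l 476)) (T.l 1))) (T.c (T.b (T.a (T.l 476) (T.l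 476)) (T.l 1)) (T.b (T.a (T.l 476) (T.l 476)) (T.l 1)))) (T.l 1)) (T.b (T.a (T.c (T.b (T.a (T.l 476) (T.l 476)) (T.l 1)) (T.b (T.a (T.l 476) (T.l 476)) (T.l 1))) (T.c (T.b (T.a (T.l 476) (T.l 476)) (T.l 1)) (T.b (T.a (T.l 476) (T.l 476)) (T.l 1)))) (T.l 1))) (T.c (T.b (T.a (T.c (T.b (T.a (T.l 476) (T.l 476)) (T.l 1)) (T.b (T.a (T.l 476) (T.l 476)) (T.l 1))) (T.a (T.a (T.c (T.l 1024) (T.b (T.l 476) (T.l 1))) (T.l 1024)) (T.l 1024))) (T.l 1)) (T.b (T.a (T.c (T.b (T.a (T.l 476) (T.l 476)) (T.l 1)) (T.b (T.a (T.l 476) (T.l 476)) (T.l 1))) (T.c (T.b (T.a (T.l 476) (T.l 476)) (T.l 1)) (T.b (T.a (T.l 476) (T.l 476)) (T.l 1)))) (T.l 1)))) (T.l 1))) (T.a (T.a (T.c (T.l 1024) (T.a (T.c (T.l 1024) (T.b (T.a (T.c (T.l 1024) (T.b (T.b (T.l 476) (T.l 1)) (T.l 1))) (T.l 1024)) (T.l 1))) (T.l 1024))) (T.l 1024)) (T.l 1024)))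 (T.l 1)) (T.b (T.a (T.c (T.b (T.a (T.c (T.b (T.a (T.c (T.b (T.a (T.l 476) (T.l 476)) (T.l 1)) (T.b (T.a (T.l 476) (T.l 476)) (T.l 1))) (T.c (T.b (T.a (T.l 476) (T.l 476)) (T.l 1)) (T.b (T.a (T.l 476) (T.l 476)) (T.l 1)))) (T.l 1)) (T.b (T.a (T.c (T.b (T.l 476) (T.l 1)) (T.b (T.l 476) (T.l 1))) (T.c (T.b (T.a (T.l 476) (T.l 476)) (T.l 1)) (T.b (T.l 476) (T.l 1)))) (T.l 1))) (T.c (T.b (T.a (T.c (T.b (T.a (T.l 476) (T.l 476)) (T.l 1)) (T.b (T.a (T.l 476) (T.l 476)) (T.l 1))) (T.c (T.b (T.a (T.l 476) (T.l 476)) (T.l 1)) (T.b (T.a (T.l 476) (T.l 476)) (T.l 1)))) (T.l 1)) (T.b (T.a (T.c (T.b (T.a (T.l 476) (T.l 476)) (T.l 1)) (T.b (T.a (T.l 476) (T.l 476)) (T.l 1))) (T.c (T.b (T.a (T.l 476) (T.l 476)) (T.l 1)) (T.b (T.a (T.l 476) (T.l 476)) (T.l 1)))) (T.l 1)))) (T.l 1)) (T.b (T.a (T.c (T.b (T.a (T.c (T.b (T.l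 476) (T.l 1)) (T.b (T.l 476) (T.l 1))) (T.c (T.b (T.l 476) (T.l 1)) (T.b (T.l 476) (T.l 1)))) (T.l 1)) (T.b (T.a (T.c (T.b (T.l 476) (T.l 1)) (T.b (T.l 476) (T.l 1))) (T.c (T.b (T.l 476) (T.l 1)) (T.b (T.l 476) (T.l 1)))) (T.l 1))) (T.c (T.b (T.a (T.c (T.b (T.l 476) (T.l 1)) (T.b (T.l 476) (T.l 1))) (T.c (T.b (T.a (T.l 476) (T.l 476)) (T.l 1)) (T.b (T.l 476) (T.l 1)))) (T.l 1)) (T.b (T.a (T.c (T.b (T.l 476) (T.l 1)) (T.b (T.l 476) (T.l 1))) (T.c (T.b (T.l 476) (T.l 1)) (T.b (T.l 476) (T.l 1)))) (T.l 1)))) (T.l 1))) (T.c (T.b (T.a (T.c (T.b (T.a (T.c (T.b (T.a (T.l 476) (T.l 476)) (T.l 1)) (T.b (T.a (T.l 476) (T.l 476)) (T.l 1))) (T.a (T.c (T.l 1024) (T.b (T.l 476) (T.l 1))) (T.l 1024))) (T.l 1)) (T.b (T.a (T.c (T.b (T.a (T.l 476) (T.l 476)) (T.l 1)) (T.b (T.a (T.l 476) (T.l 476)) (T.l 1))) (T.c (T.b (T.a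 (T.l 476) (T.l 476)) (T.l 1)) (T.b (T.a (T.l 476) (T.l 476)) (T.l 1)))) (T.l 1))) (T.a (T.a (T.c (T.l 1024) (T.a (T.c (T.l 1024) (T.b (T.b (T.l 476) (T.l 1)) (T.l 1))) (T.l 1024))) (T.l 1024)) (T.l 1024))) (T.l 1)) (T.b (T.a (T.c (T.b (T.a (T.c (T.b (T.a (T.l 476) (T.l 476)) (T.l 1)) (T.b (T.a (T.l 476) (T.l 476)) (T.l 1))) (T.c (T.b (T.a (T.l 476) (T.l 476)) (T.l 1)) (T.b (T.a (T.l 476) (T.l 476)) (T.l 1)))) (T.l 1)) (T.b (T.a (T.c (T.b (T.l 476) (T.l 1)) (T.b (T.l 476) (T.l 1))) (T.c (T.b (T.a (T.l 476) (T.l 476)) (T.l 1)) (T.b (T.l 476) (T.l 1)))) (T.l 1))) (T.c (T.b (T.a (T.c (T.b (T.a (T.l 476) (T.l 476)) (T.l 1)) (T.b (T.a (T.l 476) (T.l 476)) (T.l 1))) (T.a (T.c (T.l 1024) (T.b (T.l 476) (T.l 1))) (T.l 1024))) (T.l 1)) (T.b (T.a (T.c (T.b (T.a (T.l 476) (T.l 476)) (T.l 1)) (T.b (T.a (T.l 476) (T.l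 476)) (T.l 1))) (T.c (T.b (T.a (T.l 476) (T.l 476)) (T.l 1)) (T.b (T.a (T.l 476) (T.l 476)) (T.l 1)))) (T.l 1)))) (T.l 1)))) (T.l 1))) (T.a (T.a (T.c (T.l 1024) (T.a (T.c (T.l 1024) (T.b (T.a (T.c (T.l 1024) (T.b (T.a (T.c (T.l 1024) (T.b (T.b (T.l 476) (T.l 1)) (T.l 1))) (T.l 1024)) (T.l 1))) (T.l 1024)) (T.l 1))) (T.l 1024))) (T.l 1024)) (T.l 1024))) (T.l 1))), by decide +kernel⟩

def B202E_120_1_257_1 :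
    ∃ t, chk3 (onCell 0 33554432 0 1073741824 33554432 16777216 (corTK [[⟨0, 1, 0, 16777216⟩, ⟨1, 0, 1, 25165824⟩, ⟨2, 1, 1, 25165824⟩, ⟨1, 0, 0, 67108864⟩, ⟨1, 1, 0, 1056964608⟩, ⟨2, 1, 0, 67108864⟩, ⟨2, 2, 0, 1056964608⟩]] false 3 c0N cB202E gN1q2 gN2q2 gN0q0 gN1q0 true true)) t 1 257 1 = true :=
  ⟨(T.l 1), by decide +kernel⟩

def B202E_120_1_129_1 :
    ∃ t, chk3 (onCell 0 33554432 0 1073741824 33554432 16777216 (corTK [[⟨0, 1, 0, 16777216⟩, ⟨1, 0, 1, 25165824⟩, ⟨2, 1, 1, 25165824⟩, ⟨1, 0, 0, 67108864⟩, ⟨1, 1, 0, 1056964608⟩, ⟨2, 1, 0, 67108864⟩, ⟨2, 2, 0, 1056964608⟩]] false 3 c0N cB202E gN1q2 gN2q2 gN0q0 gN1q0 true true)) t 1 129 1 = true :=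
  ⟨(T.l 1), by decide +kernel⟩

def B202E_120_1_65_1 :
    ∃ t, chk3 (onCell 0 33554432 0 1073741824 33554432 16777216 (corTK [[⟨0, 1, 0, 16777216⟩, ⟨1, 0, 1, 25165824⟩, ⟨2, 1, 1, 25165824⟩, ⟨1, 0, 0, 67108864⟩, ⟨1, 1, 0, 1056964608⟩, ⟨2, 1, 0, 67108864⟩, ⟨2, 2, 0, 1056964608⟩]] false 3 c0N cB202E gN1q2 gN2q2 gN0q0 gN1q0 true true)) t 1 65 1 = true :=
  ⟨(T.l 1), by decide +kernel⟩

def B202E_120_1_33_1 :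
    ∃ t, chk3 (onCell 0 33554432 0 1073741824 33554432 16777216 (corTK [[⟨0, 1, 0, 16777216⟩, ⟨1, 0, 1, 25165824⟩, ⟨2, 1, 1, 25165824⟩, ⟨1, 0, 0, 67108864⟩, ⟨1, 1, 0, 1056964608⟩, ⟨2, 1, 0, 67108864⟩, ⟨2, 2, 0, 1056964608⟩]] false 3 c0N cB202E gN1q2 gN2q2 gN0q0 gN1q0 true true)) t 1 33 1 = true :=
  ⟨(T.l 1), by decide +kernel⟩

def B202E_120_1_17_1 :
    ∃ t, chk3 (onCell 0 33554432 0 1073741824 33554432 16777216 (corTK [[⟨0, 1, 0, 16777216⟩, ⟨1, 0, 1, 25165824⟩, ⟨2, 1, 1, 25165824⟩, ⟨1, 0, 0, 67108864⟩, ⟨1, 1, 0, 1056964608⟩, ⟨2, 1, 0, 67108864⟩, ⟨2, 2, 0, 1056964608⟩]] false 3 c0N cB202E gN1q2 gN2q2 gN0q0 gN1q0 true true)) t 1 17 1 = true :=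
  ⟨(T.l 1), by decide +kernel⟩

def B202E_120_1_9_1 :
    ∃ t, chk3 (onCell 0 33554432 0 1073741824 33554432 16777216 (corTK [[⟨0, 1, 0, 16777216⟩, ⟨1, 0, 1, 25165824⟩, ⟨2, 1, 1, 25165824⟩, ⟨1, 0, 0, 67108864⟩, ⟨1, 1, 0, 1056964608⟩, ⟨2, 1, 0, 67108864⟩, ⟨2, 2, 0, 1056964608⟩]] false 3 c0N cB202E gN1q2 gN2q2 gN0q0 gN1q0 true true)) t 1 9 1 = true :=
  ⟨(T.l 1), by decide +kernel⟩

def B202E_120_1_5_1 :
    ∃ t, chk3 (onCell 0 33554432 0 1073741824 33554432 16777216 (corTK [[⟨0, 1, 0, 16777216⟩, ⟨1, 0, 1, 25165824⟩, ⟨2, 1, 1, 25165824⟩, ⟨1, 0, 0, 67108864⟩, ⟨1, 1, 0, 1056964608⟩, ⟨2, 1, 0, 67108864⟩, ⟨2, 2, 0, 1056964608⟩]] false 3 c0N cB202E gN1q2 gN2q2 gN0q0 gN1q0 true true)) t 1 5 1 = true :=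
  ⟨(T.l 1), by decide +kernel⟩

def B202E_120_1_3_1 :
    ∃ t, chk3 (onCell 0 33554432 0 1073741824 33554432 16777216 (corTK [[⟨0, 1, 0, 16777216⟩, ⟨1, 0, 1, 25165824⟩, ⟨2, 1, 1, 25165824⟩, ⟨1, 0, 0, 67108864⟩, ⟨1, 1, 0, 1056964608⟩, ⟨2, 1, 0, 67108864⟩, ⟨2, 2, 0, 1056964608⟩]] false 3 c0N cB202E gN1q2 gN2q2 gN0q0 gN1q0 true true)) t 1 3 1 = true :=
  ⟨(T.l 1), by decide +kernel⟩

theorem B202E_120_1_256_1 :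
    ∃ t, chk3 (onCell 0 33554432 0 1073741824 33554432 16777216 (corTK [[⟨0, 1, 0, 16777216⟩, ⟨1, 0, 1, 25165824⟩, ⟨2, 1, 1, 25165824⟩, ⟨1, 0, 0, 67108864⟩, ⟨1, 1, 0, 1056964608⟩, ⟨2, 1, 0, 67108864⟩, ⟨2, 2, 0, 1056964608⟩]] false 3 c0N cB202E gN1q2 gN2q2 gN0q0 gN1q0 true true)) t 1 256 1 = true :=
  ex3_a B202E_120_2_256_1 B202E_120_3_256_1
theorem B202E_120_1_128_1 :
    ∃ t, chk3 (onCell 0 33554432 0 1073741824 33554432 16777216 (corTK [[⟨0, 1, 0, 16777216⟩, ⟨1, 0, 1, 25165824⟩, ⟨2, 1, 1, 25165824⟩, ⟨1, 0, 0, 67108864⟩, ⟨1, 1, 0, 1056964608⟩, ⟨2, 1, 0, 67108864⟩, ⟨2, 2, 0, 1056964608⟩]] false 3 c0N cB202E gN1q2 gN2q2 gN0q0 gN1q0 true true)) t 1 128 1 = true :=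
  ex3_b B202E_120_1_256_1 B202E_120_1_257_1
theorem B202E_120_1_64_1 :
    ∃ t, chk3 (onCell 0 33554432 0 1073741824 33554432 16777216 (corTK [[⟨0, 1, 0, 16777216⟩, ⟨1, 0, 1, 25165824⟩, ⟨2, 1, 1, 25165824⟩, ⟨1, 0, 0, 67108864⟩, ⟨1, 1, 0, 1056964608⟩, ⟨2, 1, 0, 67108864⟩, ⟨2, 2, 0, 1056964608⟩]] false 3 c0N cB202E gN1q2 gN2q2 gN0q0 gN1q0 true true)) t 1 64 1 = true :=
  ex3_b B202E_120_1_128_1 B202E_120_1_129_1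
theorem B202E_120_1_32_1 :
    ∃ t, chk3 (onCell 0 33554432 0 1073741824 33554432 16777216 (corTK [[⟨0, 1, 0, 16777216⟩, ⟨1, 0, 1, 25165824⟩, ⟨2, 1, 1, 25165824⟩, ⟨1, 0, 0, 67108864⟩, ⟨1, 1, 0, 1056964608⟩, ⟨2, 1, 0, 67108864⟩, ⟨2, 2, 0, 1056964608⟩]] false 3 c0N cB202E gN1q2 gN2q2 gN0q0 gN1q0 true true)) t 1 32 1 = true :=
  ex3_b B202E_120_1_64_1 B202E_120_1_65_1
theorem B202E_120_1_16_1 :
    ∃ t, chk3 (onCell 0 33554432 0 1073741824 33554432 16777216 (corTK [[⟨0, 1, 0, 16777216⟩, ⟨1, 0, 1, 25165824⟩, ⟨2, 1, 1, 25165824⟩, ⟨1, 0, 0, 67108864⟩, ⟨1, 1, 0, 1056964608⟩, ⟨2, 1, 0, 67108864⟩, ⟨2, 2, 0, 1056964608⟩]] false 3 c0N cB202E gN1q2 gN2q2 gN0q0 gN1q0 true true)) t 1 16 1 = true :=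
  ex3_b B202E_120_1_32_1 B202E_120_1_33_1
theorem B202E_120_1_8_1 :
    ∃ t, chk3 (onCell 0 33554432 0 1073741824 33554432 16777216 (corTK [[⟨0, 1, 0, 16777216⟩, ⟨1, 0, 1, 25165824⟩, ⟨2, 1, 1, 25165824⟩, ⟨1, 0, 0, 67108864⟩, ⟨1, 1, 0, 1056964608⟩, ⟨2, 1, 0, 67108864⟩, ⟨2, 2, 0, 1056964608⟩]] false 3 c0N cB202E gN1q2 gN2q2 gN0q0 gN1q0 true true)) t 1 8 1 = true :=
  ex3_b B202E_120_1_16_1 B202E_120_1_17_1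
theorem B202E_120_1_4_1 :
    ∃ t, chk3 (onCell 0 33554432 0 1073741824 33554432 16777216 (corTK [[⟨0, 1, 0, 16777216⟩, ⟨1, 0, 1, 25165824⟩, ⟨2, 1, 1, 25165824⟩, ⟨1, 0, 0, 67108864⟩, ⟨1, 1, 0, 1056964608⟩, ⟨2, 1, 0, 67108864⟩, ⟨2, 2, 0, 1056964608⟩]] false 3 c0N cB202E gN1q2 gN2q2 gN0q0 gN1q0 true true)) t 1 4 1 = true :=
  ex3_b B202E_120_1_8_1 B202E_120_1_9_1
theorem B202E_120_1_2_1 :
    ∃ t, chk3 (onCell 0 33554432 0 1073741824 33554432 16777216 (corTK [[⟨0, 1, 0, 16777216⟩, ⟨1, 0, 1, 25165824⟩, ⟨2, 1, 1, 25165824⟩, ⟨1, 0, 0, 67108864⟩, ⟨1, 1, 0, 1056964608⟩, ⟨2, 1, 0, 67108864⟩, ⟨2, 2, 0, 1056964608⟩]] false 3 c0N cB202E gN1q2 gN2q2 gN0q0 gN1q0 true true)) t 1 2 1 = true :=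
  ex3_b B202E_120_1_4_1 B202E_120_1_5_1
theorem B202E_120 :
    ∃ t, chk3 (onCell 0 33554432 0 1073741824 33554432 16777216 (corTK [[⟨0, 1, 0, 16777216⟩, ⟨1, 0, 1, 25165824⟩, ⟨2, 1, 1, 25165824⟩, ⟨1, 0, 0, 67108864⟩, ⟨1, 1, 0, 1056964608⟩, ⟨2, 1, 0, 67108864⟩, ⟨2, 2, 0, 1056964608⟩]] false 3 c0N cB202E gN1q2 gN2q2 gN0q0 gN1q0 true true)) t 1 1 1 = true :=
  ex3_b B202E_120_1_2_1 B202E_120_1_3_1

def B202E_121 :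
    ∃ t, chk3 (onCell 0 33554432 0 1073741824 33554432 16777216 (corTK [[⟨0, 1, 0, 16777216⟩, ⟨1, 0, 1, 25165824⟩, ⟨2, 1, 1, 25165824⟩, ⟨1, 0, 0, 67108864⟩, ⟨1, 1, 0, 1056964608⟩, ⟨2, 1, 0, 67108864⟩, ⟨2, 2, 0, 1056964608⟩]] false 3 c0N cB202E gN1q2 gN2q2 gN1q0 gN2q0 true true)) t 1 1 1 = true :=
  ⟨(T.l 1), by decide +kernel⟩

def B202E_122 :
    ∃ t, chk3 (onCell 0 33554432 0 1073741824 33554432 16777216 (corTK [[⟨0, 1, 0, 16777216⟩, ⟨1, 0, 1, 25165824⟩, ⟨2, 1, 1, 25165824⟩, ⟨1, 0, 0, 67108864⟩, ⟨1, 1, 0, 1056964608⟩, ⟨2, 1, 0, 67108864⟩, ⟨2, 2, 0, 1056964608⟩]] false 3 c0N cB202E gN1q2 gN2q2 gN2q0 gN3q0 true false)) t 1 1 1 = true :=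
  ⟨(T.l 1), by decide +kernel⟩

def B202E_200 :
    ∃ t, chk3 (onCell 0 33554432 0 1073741824 33554432 16777216 (corTK [] false 3 c0N cB202E gN2q2 gN0q2 gN0q0 gN1q0 true true)) t 1 1 1 = true :=
  ⟨(T.l 1), by decide +kernel⟩

def B202E_201 :
    ∃ t, chk3 (onCell 0 33554432 0 1073741824 33554432 16777216 (corTK [] false 3 c0N cB202E gN2q2 gN0q2 gN1q0 gN2q0 true true)) t 1 1 1 = true :=
  ⟨(T.l 1), by decide +kernel⟩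

def B202E_202 :
    ∃ t, chk3 (onCell 0 33554432 0 1073741824 33554432 16777216 (corTK [] false 3 c0N cB202E gN2q2 gN0q2 gN2q0 gN3q0 true false)) t 1 1 1 = true :=
  ⟨(T.l 1), by decide +kernel⟩

def B202E_210 :
    ∃ t, chk3 (onCell 0 33554432 0 1073741824 33554432 16777216 (corTK [] false 3 c0N cB202E gN2q2 gN1q2 gN0q0 gN1q0 true true)) t 1 1 1 = true :=
  ⟨(T.l 1), by decide +kernel⟩

def B202E_211 :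
    ∃ t, chk3 (onCell 0 33554432 0 1073741824 33554432 16777216 (corTK [] false 3 c0N cB202E gN2q2 gN1q2 gN1q0 gN2q0 true true)) t 1 1 1 = true :=
  ⟨(T.l 1), by decide +kernel⟩

def B202E_212 :
    ∃ t, chk3 (onCell 0 33554432 0 1073741824 33554432 16777216 (corTK [] false 3 c0N cB202E gN2q2 gN1q2 gN2q0 gN3q0 true false)) t 1 1 1 = true :=
  ⟨(T.l 1), by decide +kernel⟩

def B202E_220 :
    ∃ t, chk3 (onCell 0 33554432 0 1073741824 33554432 16777216 (corTK [[⟨0, 1, 0, 16777216⟩, ⟨1, 0, 1, 25165824⟩, ⟨2, 1, 1, 25165824⟩, ⟨1, 0, 0, 67108864⟩, ⟨1, 1, 0, 1056964608⟩, ⟨2, 1, 0, 67108864⟩, ⟨2, 2, 0, 1056964608⟩]] false 3 c0N cB202E gN2q2 gN2q2 gN0q0 gN1q0 true true)) t 1 1 1 = true :=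
  ⟨(T.b (T.b (T.b (T.b (T.b (T.a (T.b (T.a (T.a (T.l 204) (T.b (T.b (T.c (T.b (T.c (T.a (T.l 204) (T.l 204)) (T.a (T.l 204) (T.l 204))) (T.l 1)) (T.a (T.l 204) (T.l 204))) (T.l 1)) (T.l 1))) (T.b (T.b (T.c (T.b (T.c (T.b (T.a (T.a (T.l 204) (T.l 204)) (T.c (T.b (T.a (T.a (T.l 204) (T.l 204)) (T.a (T.l 220) (T.a (T.l 220) (T.l 476)))) (T.l 1)) (T.b (T.a (T.a (T.l 204) (T.l 204)) (T.a (T.l 204) (T.a (T.l 204) (T.l 476)))) (T.l 1)))) (T.l 1)) (T.b (T.a (T.a (T.l 204) (T.l 204)) (T.c (T.b (T.a (T.a (T.l 204) (T.l 204)) (T.a (T.l 204) (T.a (T.l 204) (T.l 476)))) (T.l 1)) (T.b (T.a (T.a (T.l 204) (T.l 204)) (T.a (T.l 204) (T.a (T.l 204) (T.l 476)))) (T.l 1)))) (T.l 1))) (T.l 1)) (T.b (T.c (T.b (T.a (T.a (T.l 204) (T.l 204)) (T.c (T.b (T.a (T.a (T.l 204) (T.l 204)) (T.a (T.l 204) (T.l 476))) (T.l 1)) (T.b (T.a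 (T.a (T.l 204) (T.l 204)) (T.a (T.l 204) (T.l 476))) (T.l 1)))) (T.l 1)) (T.b (T.a (T.a (T.l 204) (T.l 204)) (T.c (T.a (T.l 220) (T.a (T.l 204) (T.l 476))) (T.a (T.l 220) (T.a (T.l 204) (T.l 476))))) (T.l 1))) (T.l 1))) (T.l 1)) (T.l 1))) (T.a (T.a (T.l 204) (T.l 1)) (T.l 1))) (T.b (T.b (T.b (T.c (T.a (T.a (T.a (T.b (T.a (T.c (T.a (T.l 476) (T.l 1024)) (T.a (T.l 476) (T.l 1024))) (T.l 1024)) (T.l 1)) (T.l 1024)) (T.l 1024)) (T.l 1024)) (T.b (T.a (T.c (T.b (T.a (T.c (T.b (T.a (T.a (T.l 476) (T.l 476)) (T.a (T.l 476) (T.l 1024))) (T.l 1)) (T.b (T.a (T.a (T.l 476) (T.l 476)) (T.a (T.l 476) (T.l 476))) (T.l 1))) (T.a (T.a (T.l 476) (T.l 1024)) (T.l 1024))) (T.l 1)) (T.b (T.a (T.c (T.b (T.a (T.a (T.l 476) (T.l 476)) (T.a (T.l 476) (T.l 476))) (T.l 1)) (T.b (T.a (T.a (T.l 476) (T.l 476)) (T.a (T.l 476) (T.l 476)))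 (T.l 1))) (T.c (T.b (T.a (T.a (T.l 476) (T.l 476)) (T.a (T.l 476) (T.l 1024))) (T.l 1)) (T.b (T.a (T.a (T.l 476) (T.l 476)) (T.a (T.l 476) (T.l 476))) (T.l 1)))) (T.l 1))) (T.a (T.a (T.c (T.l 1024) (T.a (T.l 476) (T.l 1024))) (T.l 1024)) (T.l 1024))) (T.l 1))) (T.l 1)) (T.l 1)) (T.l 1))) (T.a (T.a (T.a (T.l 204) (T.l 1)) (T.l 1)) (T.l 1))) (T.a (T.a (T.a (T.l 204) (T.l 1)) (T.l 1)) (T.l 1))) (T.a (T.a (T.a (T.l 204) (T.l 1)) (T.l 1)) (T.l 1))) (T.a (T.a (T.a (T.l 204) (T.l 1)) (T.l 1)) (T.l 1))) (T.a (T.a (T.a (T.l 0) (T.l 1)) (T.l 1)) (T.l 1))), by decide +kernel⟩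

def B202E_221 :
    ∃ t, chk3 (onCell 0 33554432 0 1073741824 33554432 16777216 (corTK [[⟨0, 1, 0, 16777216⟩, ⟨1, 0, 1, 25165824⟩, ⟨2, 1, 1, 25165824⟩, ⟨1, 0, 0, 67108864⟩, ⟨1, 1, 0, 1056964608⟩, ⟨2, 1, 0, 67108864⟩, ⟨2, 2, 0, 1056964608⟩]] false 3 c0N cB202E gN2q2 gN2q2 gN1q0 gN2q0 true true)) t 1 1 1 = true :=
  ⟨(T.b (T.l 1) (T.b (T.l 1) (T.b (T.l 1) (T.b (T.l 1) (T.b (T.l 1) (T.a (T.b (T.l 1) (T.a (T.a (T.l 816) (T.l 1)) (T.l 1))) (T.l 1))))))), by decide +kernel⟩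

def B202E_222 :
    ∃ t, chk3 (onCell 0 33554432 0 1073741824 33554432 16777216 (corTK [[⟨0, 1, 0, 16777216⟩, ⟨1, 0, 1, 25165824⟩, ⟨2, 1, 1, 25165824⟩, ⟨1, 0, 0, 67108864⟩, ⟨1, 1, 0, 1056964608⟩, ⟨2, 1, 0, 67108864⟩, ⟨2, 2, 0, 1056964608⟩]] false 3 c0N cB202E gN2q2 gN2q2 gN2q0 gN3q0 true false)) t 1 1 1 = true :=
  ⟨(T.b (T.l 1) (T.b (T.l 1) (T.b (T.l 1) (T.b (T.l 1) (T.b (T.l 1) (T.a (T.b (T.l 1) (T.a (T.b (T.l 1) (T.a (T.a (T.l 816) (T.l 1)) (T.l 1))) (T.l 1))) (T.l 1))))))), by decide +kernel⟩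

def B202L_400 :
    ∃ t, chk3 (onCell 0 33554432 0 1073741824 33554432 16777216 (corTK [] false 3 c0N cB202L gN4q2 gN0q2 gN0q0 gN1q0 true true)) t 1 1 1 = true :=
  ⟨(T.l 2), by decide +kernel⟩

def B202L_401 :
    ∃ t, chk3 (onCell 0 33554432 0 1073741824 33554432 16777216 (corTK [] false 3 c0N cB202L gN4q2 gN0q2 gN1q0 gN2q0 true true)) t 1 1 1 = true :=
  ⟨(T.b (T.b (T.a (T.b (T.b (T.a (T.a (T.l 816) (T.l 2)) (T.l 2)) (T.l 2)) (T.l 2)) (T.l 2)) (T.l 2)) (T.l 2)), by decide +kernel⟩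

def B202L_402 :
    ∃ t, chk3 (onCell 0 33554432 0 1073741824 33554432 16777216 (corTK [] false 3 c0N cB202L gN4q2 gN0q2 gN2q0 gN3q0 true false)) t 1 1 1 = true :=
  ⟨(T.b (T.a (T.a (T.a (T.l 0) (T.l 0)) (T.l 0)) (T.l 0)) (T.b (T.a (T.a (T.a (T.l 0) (T.l 0)) (T.l 0)) (T.l 0)) (T.a (T.a (T.a (T.l 204) (T.l 0)) (T.l 0)) (T.l 0)))), by decide +kernel⟩

def B202L_410 :
    ∃ t, chk3 (onCell 0 33554432 0 1073741824 33554432 16777216 (corTK [] false 3 c0N cB202L gN4q2 gN1q2 gN0q0 gN1q0 true true)) t 1 1 1 = true :=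
  ⟨(T.b (T.b (T.b (T.a (T.b (T.b (T.a (T.a (T.l 816) (T.l 2)) (T.l 2)) (T.l 2)) (T.l 2)) (T.l 2)) (T.l 2)) (T.l 2)) (T.l 2)), by decide +kernel⟩

def B202L_411 :
    ∃ t, chk3 (onCell 0 33554432 0 1073741824 33554432 16777216 (corTK [] false 3 c0N cB202L gN4q2 gN1q2 gN1q0 gN2q0 true true)) t 1 1 1 = true :=
  ⟨(T.b (T.a (T.a (T.a (T.l 816) (T.l 0)) (T.l 0)) (T.l 0)) (T.b (T.a (T.a (T.a (T.l 816) (T.l 0)) (T.l 0)) (T.b (T.l 0) (T.l 0))) (T.b (T.a (T.b (T.b (T.a (T.a (T.l 816) (T.l 2)) (T.l 2)) (T.l 2)) (T.l 2)) (T.l 2)) (T.l 2)))), by decide +kernel⟩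

def B202L_412 :
    ∃ t, chk3 (onCell 0 33554432 0 1073741824 33554432 16777216 (corTK [] false 3 c0N cB202L gN4q2 gN1q2 gN2q0 gN3q0 true false)) t 1 1 1 = true :=
  ⟨(T.b (T.l 1) (T.b (T.b (T.l 1) (T.a (T.a (T.a (T.l 0) (T.l 0)) (T.l 0)) (T.l 0))) (T.a (T.a (T.a (T.l 0) (T.l 0)) (T.l 0)) (T.b (T.l 0) (T.l 0))))), by decide +kernel⟩

def B202L_420 :
    ∃ t, chk3 (onCell 0 33554432 0 1073741824 33554432 16777216 (corTK [] false 3 c0N cB202L gN4q2 gN2q2 gN0q0 gN1q0 true true)) t 1 1 1 = true :=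
  ⟨(T.b (T.b (T.b (T.b (T.b (T.a (T.b (T.a (T.a (T.l 204) (T.a (T.l 204) (T.l 204))) (T.a (T.l 204) (T.l 204))) (T.a (T.l 1) (T.b (T.a (T.a (T.l 1) (T.l 204)) (T.l 204)) (T.l 1)))) (T.a (T.a (T.l 204) (T.l 204)) (T.l 204))) (T.a (T.l 1) (T.b (T.a (T.a (T.l 1) (T.b (T.l 204) (T.l 1))) (T.a (T.l 204) (T.l 204))) (T.l 1)))) (T.l 1)) (T.l 1)) (T.l 1)) (T.l 1)), by decide +kernel⟩

def B202L_421 :
    ∃ t, chk3 (onCell 0 33554432 0 1073741824 33554432 16777216 (corTK [] false 3 c0N cB202L gN4q2 gN2q2 gN1q0 gN2q0 true true)) t 1 1 1 = true :=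
  ⟨(T.l 1), by decide +kernel⟩

def B202L_422 :
    ∃ t, chk3 (onCell 0 33554432 0 1073741824 33554432 16777216 (corTK [] false 3 c0N cB202L gN4q2 gN2q2 gN2q0 gN3q0 true false)) t 1 1 1 = true :=
  ⟨(T.l 1), by decide +kernel⟩

theorem B202R_040_10_682_2 :
    ∃ t, chk3 (onCell 0 33554432 0 1073741824 33554432 16777216 (corTK [] false 3 c0N cB202R gN0q2 gN4q2 gN0q0 gN1q0 true true)) t 10 682 2 = true :=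
  ex3_a B202R_040_20_682_2 B202R_040_21_682_2
theorem B202R_040_10_341_2 :
    ∃ t, chk3 (onCell 0 33554432 0 1073741824 33554432 16777216 (corTK [] false 3 c0N cB202R gN0q2 gN4q2 gN0q0 gN1q0 true true)) t 10 341 2 = true :=
  ex3_b B202R_040_10_682_2 B202R_040_10_683_2
theorem B202R_040_10_341_1 :
    ∃ t, chk3 (onCell 0 33554432 0 1073741824 33554432 16777216 (corTK [] false 3 c0N cB202R gN0q2 gN4q2 gN0q0 gN1q0 true true)) t 10 341 1 = true :=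
  ex3_c B202R_040_10_341_2 B202R_040_10_341_3
theorem B202R_040_5_341_1 :
    ∃ t, chk3 (onCell 0 33554432 0 1073741824 33554432 16777216 (corTK [] false 3 c0N cB202R gN0q2 gN4q2 gN0q0 gN1q0 true true)) t 5 341 1 = true :=
  ex3_a B202R_040_10_341_1 B202R_040_11_341_1
theorem B202R_040_4_1364_7 :
    ∃ t, chk3 (onCell 0 33554432 0 1073741824 33554432 16777216 (corTK [] false 3 c0N cB202R gN0q2 gN4q2 gN0q0 gN1q0 true true)) t 4 1364 7 = true :=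
  ex3_a B202R_040_8_1364_7 B202R_040_9_1364_7
theorem B202R_040_4_682_7 :
    ∃ t, chk3 (onCell 0 33554432 0 1073741824 33554432 16777216 (corTK [] false 3 c0N cB202R gN0q2 gN4q2 gN0q0 gN1q0 true true)) t 4 682 7 = true :=
  ex3_b B202R_040_4_1364_7 B202R_040_4_1365_7
theorem B202R_040_4_1364_6 :
    ∃ t, chk3 (onCell 0 33554432 0 1073741824 33554432 16777216 (corTK [] false 3 c0N cB202R gN0q2 gN4q2 gN0q0 gN1q0 true true)) t 4 1364 6 = true :=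
  ex3_a B202R_040_8_1364_6 B202R_040_9_1364_6
theorem B202R_040_4_682_6 :
    ∃ t, chk3 (onCell 0 33554432 0 1073741824 33554432 16777216 (corTK [] false 3 c0N cB202R gN0q2 gN4q2 gN0q0 gN1q0 true true)) t 4 682 6 = true :=
  ex3_b B202R_040_4_1364_6 B202R_040_4_1365_6
theorem B202R_040_4_682_3 :
    ∃ t, chk3 (onCell 0 33554432 0 1073741824 33554432 16777216 (corTK [] false 3 c0N cB202R gN0q2 gN4q2 gN0q0 gN1q0 true true)) t 4 682 3 = true :=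
  ex3_c B202R_040_4_682_6 B202R_040_4_682_7
theorem B202R_040_4_341_3 :
    ∃ t, chk3 (onCell 0 33554432 0 1073741824 33554432 16777216 (corTK [] false 3 c0N cB202R gN0q2 gN4q2 gN0q0 gN1q0 true true)) t 4 341 3 = true :=
  ex3_b B202R_040_4_682_3 B202R_040_4_683_3
theorem B202R_040_4_1364_5 :
    ∃ t, chk3 (onCell 0 33554432 0 1073741824 33554432 16777216 (corTK [] false 3 c0N cB202R gN0q2 gN4q2 gN0q0 gN1q0 true true)) t 4 1364 5 = true :=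
  ex3_a B202R_040_8_1364_5 B202R_040_9_1364_5
theorem B202R_040_4_682_5 :
    ∃ t, chk3 (onCell 0 33554432 0 1073741824 33554432 16777216 (corTK [] false 3 c0N cB202R gN0q2 gN4q2 gN0q0 gN1q0 true true)) t 4 682 5 = true :=
  ex3_b B202R_040_4_1364_5 B202R_040_4_1365_5
theorem B202R_040_8_1365_4 :
    ∃ t, chk3 (onCell 0 33554432 0 1073741824 33554432 16777216 (corTK [] false 3 c0N cB202R gN0q2 gN4q2 gN0q0 gN1q0 true true)) t 8 1365 4 = true :=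
  ex3_c B202R_040_8_1365_8 B202R_040_8_1365_9
theorem B202R_040_4_1365_4 :
    ∃ t, chk3 (onCell 0 33554432 0 1073741824 33554432 16777216 (corTK [] false 3 c0N cB202R gN0q2 gN4q2 gN0q0 gN1q0 true true)) t 4 1365 4 = true :=
  ex3_a B202R_040_8_1365_4 B202R_040_9_1365_4
theorem B202R_040_9_1364_4 :
    ∃ t, chk3 (onCell 0 33554432 0 1073741824 33554432 16777216 (corTK [] false 3 c0N cB202R gN0q2 gN4q2 gN0q0 gN1q0 true true)) t 9 1364 4 = true :=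
  ex3_c B202R_040_9_1364_8 B202R_040_9_1364_9
theorem B202R_040_4_1364_4 :
    ∃ t, chk3 (onCell 0 33554432 0 1073741824 33554432 16777216 (corTK [] false 3 c0N cB202R gN0q2 gN4q2 gN0q0 gN1q0 true true)) t 4 1364 4 = true :=
  ex3_a B202R_040_8_1364_4 B202R_040_9_1364_4
theorem B202R_040_4_682_4 :
    ∃ t, chk3 (onCell 0 33554432 0 1073741824 33554432 16777216 (corTK [] false 3 c0N cB202R gN0q2 gN4q2 gN0q0 gN1q0 true true)) t 4 682 4 = true :=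
  ex3_b B202R_040_4_1364_4 B202R_040_4_1365_4
theorem B202R_040_4_682_2 :
    ∃ t, chk3 (onCell 0 33554432 0 1073741824 33554432 16777216 (corTK [] false 3 c0N cB202R gN0q2 gN4q2 gN0q0 gN1q0 true true)) t 4 682 2 = true :=
  ex3_c B202R_040_4_682_4 B202R_040_4_682_5
theorem B202R_040_4_341_2 :
    ∃ t, chk3 (onCell 0 33554432 0 1073741824 33554432 16777216 (corTK [] false 3 c0N cB202R gN0q2 gN4q2 gN0q0 gN1q0 true true)) t 4 341 2 = true :=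
  ex3_b B202R_040_4_682_2 B202R_040_4_683_2
theorem B202R_040_4_341_1 :
    ∃ t, chk3 (onCell 0 33554432 0 1073741824 33554432 16777216 (corTK [] false 3 c0N cB202R gN0q2 gN4q2 gN0q0 gN1q0 true true)) t 4 341 1 = true :=
  ex3_c B202R_040_4_341_2 B202R_040_4_341_3
theorem B202R_040_2_341_1 :
    ∃ t, chk3 (onCell 0 33554432 0 1073741824 33554432 16777216 (corTK [] false 3 c0N cB202R gN0q2 gN4q2 gN0q0 gN1q0 true true)) t 2 341 1 = true :=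
  ex3_a B202R_040_4_341_1 B202R_040_5_341_1
theorem B202R_040_1_341_1 :
    ∃ t, chk3 (onCell 0 33554432 0 1073741824 33554432 16777216 (corTK [] false 3 c0N cB202R gN0q2 gN4q2 gN0q0 gN1q0 true true)) t 1 341 1 = true :=
  ex3_a B202R_040_2_341_1 B202R_040_3_341_1
theorem B202R_040_6_681_3 :
    ∃ t, chk3 (onCell 0 33554432 0 1073741824 33554432 16777216 (corTK [] false 3 c0N cB202R gN0q2 gN4q2 gN0q0 gN1q0 true true)) t 6 681 3 = true :=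
  ex3_c B202R_040_6_681_6 B202R_040_6_681_7
theorem B202R_040_3_681_3 :
    ∃ t, chk3 (onCell 0 33554432 0 1073741824 33554432 16777216 (corTK [] false 3 c0N cB202R gN0q2 gN4q2 gN0q0 gN1q0 true true)) t 3 681 3 = true :=
  ex3_a B202R_040_6_681_3 B202R_040_7_681_3
theorem B202R_040_3_340_3 :
    ∃ t, chk3 (onCell 0 33554432 0 1073741824 33554432 16777216 (corTK [] false 3 c0N cB202R gN0q2 gN4q2 gN0q0 gN1q0 true true)) t 3 340 3 = true :=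
  ex3_b B202R_040_3_680_3 B202R_040_3_681_3
theorem B202R_040_6_681_5 :
    ∃ t, chk3 (onCell 0 33554432 0 1073741824 33554432 16777216 (corTK [] false 3 c0N cB202R gN0q2 gN4q2 gN0q0 gN1q0 true true)) t 6 681 5 = true :=
  ex3_b B202R_040_6_1362_5 B202R_040_6_1363_5
theorem B202R_040_6_681_4 :
    ∃ t, chk3 (onCell 0 33554432 0 1073741824 33554432 16777216 (corTK [] false 3 c0N cB202R gN0q2 gN4q2 gN0q0 gN1q0 true true)) t 6 681 4 = true :=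
  ex3_b B202R_040_6_1362_4 B202R_040_6_1363_4
theorem B202R_040_6_681_2 :
    ∃ t, chk3 (onCell 0 33554432 0 1073741824 33554432 16777216 (corTK [] false 3 c0N cB202R gN0q2 gN4q2 gN0q0 gN1q0 true true)) t 6 681 2 = true :=
  ex3_c B202R_040_6_681_4 B202R_040_6_681_5
theorem B202R_040_3_681_2 :
    ∃ t, chk3 (onCell 0 33554432 0 1073741824 33554432 16777216 (corTK [] false 3 c0N cB202R gN0q2 gN4q2 gN0q0 gN1q0 true true)) t 3 681 2 = true :=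
  ex3_a B202R_040_6_681_2 B202R_040_7_681_2
theorem B202R_040_3_340_2 :
    ∃ t, chk3 (onCell 0 33554432 0 1073741824 33554432 16777216 (corTK [] false 3 c0N cB202R gN0q2 gN4q2 gN0q0 gN1q0 true true)) t 3 340 2 = true :=
  ex3_b B202R_040_3_680_2 B202R_040_3_681_2
theorem B202R_040_3_340_1 :
    ∃ t, chk3 (onCell 0 33554432 0 1073741824 33554432 16777216 (corTK [] false 3 c0N cB202R gN0q2 gN4q2 gN0q0 gN1q0 true true)) t 3 340 1 = true :=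
  ex3_c B202R_040_3_340_2 B202R_040_3_340_3
theorem B202R_040_5_681_3 :
    ∃ t, chk3 (onCell 0 33554432 0 1073741824 33554432 16777216 (corTK [] false 3 c0N cB202R gN0q2 gN4q2 gN0q0 gN1q0 true true)) t 5 681 3 = true :=
  ex3_c B202R_040_5_681_6 B202R_040_5_681_7
theorem B202R_040_5_340_3 :
    ∃ t, chk3 (onCell 0 33554432 0 1073741824 33554432 16777216 (corTK [] false 3 c0N cB202R gN0q2 gN4q2 gN0q0 gN1q0 true true)) t 5 340 3 = true :=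
  ex3_b B202R_040_5_680_3 B202R_040_5_681_3
theorem B202R_040_5_681_2 :
    ∃ t, chk3 (onCell 0 33554432 0 1073741824 33554432 16777216 (corTK [] false 3 c0N cB202R gN0q2 gN4q2 gN0q0 gN1q0 true true)) t 5 681 2 = true :=
  ex3_c B202R_040_5_681_4 B202R_040_5_681_5
theorem B202R_040_5_340_2 :
    ∃ t, chk3 (onCell 0 33554432 0 1073741824 33554432 16777216 (corTK [] false 3 c0N cB202R gN0q2 gN4q2 gN0q0 gN1q0 true true)) t 5 340 2 = true :=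
  ex3_b B202R_040_5_680_2 B202R_040_5_681_2
theorem B202R_040_5_340_1 :
    ∃ t, chk3 (onCell 0 33554432 0 1073741824 33554432 16777216 (corTK [] false 3 c0N cB202R gN0q2 gN4q2 gN0q0 gN1q0 true true)) t 5 340 1 = true :=
  ex3_c B202R_040_5_340_2 B202R_040_5_340_3
theorem B202R_040_2_340_1 :
    ∃ t, chk3 (onCell 0 33554432 0 1073741824 33554432 16777216 (corTK [] false 3 c0N cB202R gN0q2 gN4q2 gN0q0 gN1q0 true true)) t 2 340 1 = true :=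
  ex3_a B202R_040_4_340_1 B202R_040_5_340_1
theorem B202R_040_1_340_1 :
    ∃ t, chk3 (onCell 0 33554432 0 1073741824 33554432 16777216 (corTK [] false 3 c0N cB202R gN0q2 gN4q2 gN0q0 gN1q0 true true)) t 1 340 1 = true :=
  ex3_a B202R_040_2_340_1 B202R_040_3_340_1
theorem B202R_040_1_170_1 :
    ∃ t, chk3 (onCell 0 33554432 0 1073741824 33554432 16777216 (corTK [] false 3 c0N cB202R gN0q2 gN4q2 gN0q0 gN1q0 true true)) t 1 170 1 = true :=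
  ex3_b B202R_040_1_340_1 B202R_040_1_341_1
theorem B202R_040_1_85_1 :
    ∃ t, chk3 (onCell 0 33554432 0 1073741824 33554432 16777216 (corTK [] false 3 c0N cB202R gN0q2 gN4q2 gN0q0 gN1q0 true true)) t 1 85 1 = true :=
  ex3_b B202R_040_1_170_1 B202R_040_1_171_1
theorem B202R_040_1_42_1 :
    ∃ t, chk3 (onCell 0 33554432 0 1073741824 33554432 16777216 (corTK [] false 3 c0N cB202R gN0q2 gN4q2 gN0q0 gN1q0 true true)) t 1 42 1 = true :=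
  ex3_b B202R_040_1_84_1 B202R_040_1_85_1
theorem B202R_040_1_21_1 :
    ∃ t, chk3 (onCell 0 33554432 0 1073741824 33554432 16777216 (corTK [] false 3 c0N cB202R gN0q2 gN4q2 gN0q0 gN1q0 true true)) t 1 21 1 = true :=
  ex3_b B202R_040_1_42_1 B202R_040_1_43_1
theorem B202R_040_1_10_1 :
    ∃ t, chk3 (onCell 0 33554432 0 1073741824 33554432 16777216 (corTK [] false 3 c0N cB202R gN0q2 gN4q2 gN0q0 gN1q0 true true)) t 1 10 1 = true :=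
  ex3_b B202R_040_1_20_1 B202R_040_1_21_1
theorem B202R_040_1_5_1 :
    ∃ t, chk3 (onCell 0 33554432 0 1073741824 33554432 16777216 (corTK [] false 3 c0N cB202R gN0q2 gN4q2 gN0q0 gN1q0 true true)) t 1 5 1 = true :=
  ex3_b B202R_040_1_10_1 B202R_040_1_11_1
theorem B202R_040_1_2_1 :
    ∃ t, chk3 (onCell 0 33554432 0 1073741824 33554432 16777216 (corTK [] false 3 c0N cB202R gN0q2 gN4q2 gN0q0 gN1q0 true true)) t 1 2 1 = true :=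
  ex3_b B202R_040_1_4_1 B202R_040_1_5_1
theorem B202R_040 :
    ∃ t, chk3 (onCell 0 33554432 0 1073741824 33554432 16777216 (corTK [] false 3 c0N cB202R gN0q2 gN4q2 gN0q0 gN1q0 true true)) t 1 1 1 = true :=
  ex3_b B202R_040_1_2_1 B202R_040_1_3_1

def B202R_041 :
    ∃ t, chk3 (onCell 0 33554432 0 1073741824 33554432 16777216 (corTK [] false 3 c0N cB202R gN0q2 gN4q2 gN1q0 gN2q0 true true)) t 1 1 1 = true :=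
  ⟨(T.b (T.l 1) (T.b (T.b (T.a (T.a (T.l 816) (T.l 0)) (T.b (T.l 0) (T.l 0))) (T.b (T.a (T.a (T.l 816) (T.l 0)) (T.l 0)) (T.l 2))) (T.l 2))), by decide +kernel⟩

def B202R_042 :
    ∃ t, chk3 (onCell 0 33554432 0 1073741824 33554432 16777216 (corTK [] false 3 c0N cB202R gN0q2 gN4q2 gN2q0 gN3q0 true false)) t 1 1 1 = true :=
  ⟨(T.b (T.l 1) (T.b (T.b (T.l 1) (T.a (T.a (T.l 0) (T.l 0)) (T.l 0))) (T.a (T.a (T.a (T.l 0) (T.b (T.l 0) (T.l 0))) (T.b (T.l 0) (T.l 0))) (T.b (T.l 0) (T.l 0))))), by decide +kernel⟩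

def B202R_140 :
    ∃ t, chk3 (onCell 0 33554432 0 1073741824 33554432 16777216 (corTK [] false 3 c0N cB202R gN1q2 gN4q2 gN0q0 gN1q0 true true)) t 1 1 1 = true :=
  ⟨(T.b (T.l 1) (T.b (T.b (T.l 1) (T.b (T.b (T.a (T.l 1) (T.b (T.l 1) (T.a (T.b (T.l 1) (T.a (T.l 816) (T.l 816))) (T.b (T.a (T.l 1) (T.l 816)) (T.l 816))))) (T.a (T.a (T.b (T.a (T.b (T.l 1) (T.l 816)) (T.l 816)) (T.l 816)) (T.a (T.a (T.l 816) (T.l 816)) (T.l 816))) (T.a (T.a (T.l 816) (T.l 816)) (T.l 0)))) (T.a (T.a (T.l 816) (T.l 68)) (T.a (T.l 0) (T.l 0))))) (T.b (T.b (T.a (T.a (T.l 816) (T.l 0)) (T.b (T.l 0) (T.l 0))) (T.a (T.a (T.l 816) (T.l 0)) (T.l 0))) (T.l 2)))), by decide +kernel⟩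

def B202R_141 :
    ∃ t, chk3 (onCell 0 33554432 0 1073741824 33554432 16777216 (corTK [] false 3 c0N cB202R gN1q2 gN4q2 gN1q0 gN2q0 true true)) t 1 1 1 = true :=
  ⟨(T.b (T.l 1) (T.b (T.l 1) (T.b (T.b (T.l 1) (T.a (T.a (T.l 816) (T.l 0)) (T.l 0))) (T.a (T.b (T.a (T.l 816) (T.l 0)) (T.l 2)) (T.l 0))))), by decide +kernel⟩

def B202R_142 :
    ∃ t, chk3 (onCell 0 33554432 0 1073741824 33554432 16777216 (corTK [] false 3 c0N cB202R gN1q2 gN4q2 gN2q0 gN3q0 true false)) t 1 1 1 = true :=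
  ⟨(T.b (T.l 1) (T.b (T.l 1) (T.b (T.b (T.l 1) (T.b (T.l 1) (T.a (T.l 1) (T.l 0)))) (T.a (T.a (T.a (T.l 0) (T.l 0)) (T.l 0)) (T.b (T.l 0) (T.l 0)))))), by decide +kernel⟩

def B202R_240 :
    ∃ t, chk3 (onCell 0 33554432 0 1073741824 33554432 16777216 (corTK [] false 3 c0N cB202R gN2q2 gN4q2 gN0q0 gN1q0 true true)) t 1 1 1 = true :=
  ⟨(T.l 1), by decide +kernel⟩

def B202R_241 :
    ∃ t, chk3 (onCell 0 33554432 0 1073741824 33554432 16777216 (corTK [] false 3 c0N cB202R gN2q2 gN4q2 gN1q0 gN2q0 true true)) t 1 1 1 = true :=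
  ⟨(T.l 1), by decide +kernel⟩

def B202R_242 :
    ∃ t, chk3 (onCell 0 33554432 0 1073741824 33554432 16777216 (corTK [] false 3 c0N cB202R gN2q2 gN4q2 gN2q0 gN3q0 true false)) t 1 1 1 = true :=
  ⟨(T.l 1), by decide +kernel⟩

end Pool.Agent.Strip051.G.I1_32_3_64.Tab.CN
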