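import Pool.Agent.Strip051.G.I1_32_3_64.Gn
import Pool.Agent.Strip051.PB.Corns
import Pool.Agent.Strip051.PB.CornK

/-! # Certificates of the aligned corners (generated) -/

set_option linter.all false

namespace Pool.Agent.Strip051.G.I1_32_3_64.Tab.CN

open Pool.Agent.Strip051.PB

def B012R_001_1_4_1 :
    ∃ t, chk3 (onCell 0 33554432 0 1073741824 33554432 16777216 (corTK [[⟨0, 0, 1, 16777216⟩, ⟨1, 1, 2, 16777216⟩, ⟨2, 1, 0, 6291456⟩, ⟨0, 0, 0, 67108864⟩, ⟨0, 1, 0, 1056964608⟩, ⟨1, 0, 0, 1056964608⟩, ⟨1, 1, 0, 67108864⟩]] false 3 c0N cB012R gN0q0 gN0q2 gN1q1 gN2q1 false true)) t 1 4 1 = true :=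
  ⟨(T.b (T.a (T.a (T.a (T.b (T.l 204) (T.l 204)) (T.a (T.a (T.b (T.a (T.b (T.l 204) (T.l 204)) (T.l 204)) (T.b (T.l 204) (T.l 204))) (T.b (T.b (T.l 204) (T.l 204)) (T.b (T.l 204) (T.l 204)))) (T.b (T.a (T.b (T.l 204) (T.l 204)) (T.b (T.l 204) (T.l 204))) (T.a (T.l 204) (T.l 204))))) (T.a (T.a (T.b (T.a (T.b (T.b (T.l 204) (T.l 204)) (T.l 204)) (T.b (T.c (T.l 204) (T.l 204)) (T.l 204))) (T.a (T.b (T.l 204) (T.l 204)) (T.b (T.l 204) (T.l 204)))) (T.b (T.b (T.a (T.b (T.c (T.l 204) (T.l 204)) (T.l 204)) (T.b (T.c (T.l 220) (T.l 204)) (T.l 476))) (T.a (T.l 476) (T.b (T.l 204) (T.l 204)))) (T.b (T.a (T.l 204) (T.l 204)) (T.b (T.l 460) (T.l 460))))) (T.a (T.b (T.b (T.a (T.b (T.c (T.b (T.l 220) (T.l 204)) (T.l 204)) (T.b (T.l 476) (T.l 204))) (T.b (T.c (T.b (T.a (T.l 204) (T.l 220)) (T.l 476)) (T.c (T.l 460) (T.l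 204))) (T.c (T.l 460) (T.l 204)))) (T.a (T.b (T.l 460) (T.l 204)) (T.c (T.l 460) (T.l 204)))) (T.b (T.a (T.l 460) (T.l 460)) (T.c (T.l 460) (T.l 204)))) (T.b (T.b (T.a (T.b (T.c (T.b (T.a (T.l 476) (T.c (T.l 476) (T.l 204))) (T.b (T.l 476) (T.l 460))) (T.b (T.c (T.l 476) (T.l 476)) (T.l 460))) (T.c (T.l 476) (T.l 460))) (T.b (T.c (T.b (T.a (T.c (T.l 476) (T.l 476)) (T.b (T.c (T.c (T.l 476) (T.l 476)) (T.l 476)) (T.l 476))) (T.c (T.l 476) (T.l 476))) (T.b (T.a (T.l 476) (T.c (T.l 476) (T.l 476))) (T.b (T.l 476) (T.l 460)))) (T.c (T.b (T.l 460) (T.l 460)) (T.l 460)))) (T.a (T.c (T.l 460) (T.l 204)) (T.c (T.l 460) (T.l 460)))) (T.b (T.c (T.l 460) (T.l 460)) (T.b (T.l 460) (T.l 460))))))) (T.a (T.a (T.b (T.a (T.b (T.b (T.a (T.c (T.b (T.c (T.b (T.a (T.c (T.l 476) (T.l 476)) (T.c (T.l 476) (T.l 476))) (T.a (T.l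 476) (T.l 476))) (T.b (T.a (T.l 476) (T.l 476)) (T.c (T.l 476) (T.l 476)))) (T.a (T.l 476) (T.l 476))) (T.b (T.c (T.a (T.l 476) (T.l 476)) (T.a (T.l 476) (T.l 476))) (T.b (T.l 476) (T.l 460)))) (T.c (T.b (T.c (T.b (T.a (T.c (T.l 476) (T.l 476)) (T.c (T.l 476) (T.l 476))) (T.b (T.l 476) (T.l 476))) (T.b (T.a (T.l 476) (T.l 476)) (T.l 476))) (T.c (T.l 476) (T.l 476))) (T.b (T.c (T.a (T.l 476) (T.l 476)) (T.a (T.l 476) (T.l 476))) (T.l 476)))) (T.a (T.c (T.b (T.l 476) (T.l 460)) (T.b (T.l 460) (T.l 204))) (T.c (T.b (T.l 460) (T.l 460)) (T.l 460)))) (T.b (T.c (T.a (T.l 460) (T.l 460)) (T.c (T.l 460) (T.l 460))) (T.c (T.l 460) (T.l 460)))) (T.b (T.b (T.c (T.a (T.b (T.c (T.b (T.a (T.c (T.l 476) (T.l 476)) (T.c (T.l 1024) (T.l 476))) (T.b (T.l 476) (T.l 476))) (T.b (T.a (T.l 476) (T.l 476)) (T.l 476))) (T.b (T.l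 476) (T.l 460))) (T.b (T.c (T.b (T.c (T.l 1024) (T.a (T.l 476) (T.l 476))) (T.l 476)) (T.b (T.a (T.l 476) (T.l 476)) (T.l 476))) (T.b (T.l 476) (T.l 460)))) (T.a (T.b (T.c (T.a (T.l 476) (T.l 476)) (T.a (T.l 476) (T.l 476))) (T.l 476)) (T.b (T.b (T.c (T.a (T.l 476) (T.l 476)) (T.b (T.l 476) (T.l 476))) (T.c (T.l 476) (T.l 476))) (T.l 476)))) (T.c (T.a (T.l 476) (T.l 476)) (T.a (T.l 460) (T.l 460)))) (T.b (T.a (T.l 460) (T.l 460)) (T.c (T.l 460) (T.l 204))))) (T.a (T.b (T.c (T.l 460) (T.l 460)) (T.b (T.l 460) (T.l 460))) (T.b (T.b (T.l 460) (T.l 460)) (T.l 460)))) (T.b (T.b (T.a (T.b (T.c (T.b (T.a (T.b (T.c (T.c (T.l 1024) (T.a (T.l 476) (T.l 1024))) (T.a (T.l 476) (T.b (T.l 476) (T.l 476)))) (T.c (T.l 476) (T.l 476))) (T.c (T.l 1024) (T.b (T.b (T.a (T.l 476) (T.l 476)) (T.l 476)) (T.l 476)))) (T.a (T.b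 (T.l 476) (T.l 460)) (T.l 476))) (T.b (T.a (T.b (T.c (T.a (T.l 476) (T.l 476)) (T.b (T.l 476) (T.l 476))) (T.c (T.l 476) (T.l 476))) (T.b (T.c (T.a (T.l 476) (T.l 476)) (T.c (T.l 476) (T.l 476))) (T.l 476))) (T.a (T.l 476) (T.l 476)))) (T.c (T.a (T.l 476) (T.l 476)) (T.a (T.l 460) (T.l 460)))) (T.b (T.c (T.c (T.l 1024) (T.b (T.a (T.b (T.b (T.a (T.l 476) (T.l 476)) (T.l 476)) (T.l 476)) (T.b (T.c (T.l 1024) (T.a (T.l 476) (T.l 476))) (T.l 476))) (T.a (T.l 476) (T.l 476)))) (T.b (T.a (T.b (T.c (T.a (T.l 476) (T.l 476)) (T.c (T.l 476) (T.l 476))) (T.l 476)) (T.b (T.c (T.a (T.l 476) (T.l 476)) (T.c (T.l 476) (T.l 476))) (T.l 476))) (T.a (T.l 476) (T.l 476)))) (T.c (T.c (T.l 1024) (T.l 476)) (T.b (T.l 476) (T.l 460))))) (T.a (T.b (T.c (T.l 460) (T.l 460)) (T.b (T.l 460) (T.l 460))) (T.b (T.c (T.l 460) (T.l 460))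 (T.l 460)))) (T.b (T.a (T.b (T.l 460) (T.l 460)) (T.l 460)) (T.c (T.l 460) (T.l 460))))) (T.a (T.b (T.b (T.a (T.b (T.c (T.a (T.b (T.c (T.l 1024) (T.b (T.c (T.l 1024) (T.a (T.l 476) (T.l 1024))) (T.l 476))) (T.l 476)) (T.l 1024)) (T.b (T.a (T.b (T.c (T.a (T.l 476) (T.l 476)) (T.c (T.l 476) (T.l 476))) (T.l 476)) (T.b (T.c (T.a (T.l 476) (T.l 476)) (T.c (T.l 476) (T.l 476))) (T.l 476))) (T.a (T.l 476) (T.l 476)))) (T.c (T.b (T.l 476) (T.l 460)) (T.b (T.l 476) (T.l 460)))) (T.c (T.l 1024) (T.b (T.b (T.a (T.b (T.c (T.b (T.a (T.l 476) (T.l 476)) (T.l 476)) (T.a (T.l 476) (T.l 476))) (T.l 476)) (T.b (T.c (T.c (T.l 1024) (T.a (T.l 476) (T.l 476))) (T.a (T.l 476) (T.l 476))) (T.l 476))) (T.c (T.l 476) (T.l 476))) (T.l 476)))) (T.a (T.c (T.l 476) (T.l 460)) (T.b (T.l 476) (T.l 460)))) (T.b (T.a (T.l 460) (T.l 460))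 (T.b (T.l 460) (T.l 460)))) (T.b (T.c (T.l 1024) (T.b (T.b (T.a (T.b (T.a (T.b (T.c (T.c (T.l 1024) (T.a (T.l 476) (T.l 1024))) (T.a (T.l 476) (T.l 476))) (T.l 476)) (T.c (T.l 1024) (T.b (T.a (T.l 476) (T.l 476)) (T.l 476)))) (T.b (T.l 476) (T.l 476))) (T.c (T.l 1024) (T.b (T.b (T.a (T.a (T.l 476) (T.l 476)) (T.c (T.l 1024) (T.b (T.l 476) (T.l 476)))) (T.a (T.l 476) (T.l 476))) (T.l 476)))) (T.a (T.l 476) (T.l 476))) (T.a (T.l 460) (T.l 460)))) (T.b (T.b (T.l 460) (T.l 460)) (T.l 460)))))) (T.b (T.a (T.a (T.a (T.l 204) (T.a (T.a (T.b (T.l 204) (T.l 204)) (T.l 460)) (T.a (T.l 204) (T.l 204)))) (T.a (T.a (T.a (T.l 204) (T.l 460)) (T.b (T.l 460) (T.l 460))) (T.a (T.b (T.l 460) (T.l 460)) (T.b (T.l 460) (T.l 460))))) (T.a (T.a (T.a (T.b (T.l 460) (T.l 204)) (T.b (T.l 460) (T.l 204))) (T.a (T.l 460) (T.l 460)))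 (T.a (T.b (T.l 460) (T.l 460)) (T.b (T.l 460) (T.l 204))))) (T.a (T.a (T.a (T.l 204) (T.a (T.a (T.l 204) (T.l 204)) (T.a (T.l 204) (T.l 204)))) (T.a (T.a (T.b (T.l 460) (T.l 204)) (T.b (T.l 204) (T.l 204))) (T.a (T.l 460) (T.l 460)))) (T.a (T.a (T.a (T.l 460) (T.l 460)) (T.b (T.l 460) (T.l 460))) (T.a (T.b (T.l 460) (T.l 204)) (T.b (T.l 204) (T.l 460))))))), by decide +kernel⟩

def B012R_001_1_5_1 :
    ∃ t, chk3 (onCell 0 33554432 0 1073741824 33554432 16777216 (corTK [[⟨0, 0, 1, 16777216⟩, ⟨1, 1, 2, 16777216⟩, ⟨2, 1, 0, 6291456⟩, ⟨0, 0, 0, 67108864⟩, ⟨0, 1, 0, 1056964608⟩, ⟨1, 0, 0, 1056964608⟩, ⟨1, 1, 0, 67108864⟩]] false 3 c0N cB012R gN0q0 gN0q2 gN1q1 gN2q1 false true)) t 1 5 1 = true :=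
  ⟨(T.b (T.a (T.a (T.a (T.b (T.l 204) (T.l 204)) (T.a (T.a (T.l 204) (T.b (T.l 204) (T.l 204))) (T.b (T.b (T.l 460) (T.l 460)) (T.b (T.l 460) (T.l 460))))) (T.a (T.a (T.b (T.l 460) (T.l 460)) (T.b (T.l 460) (T.l 204))) (T.b (T.a (T.l 460) (T.l 204)) (T.b (T.l 460) (T.l 460))))) (T.a (T.a (T.b (T.b (T.l 460) (T.l 460)) (T.b (T.l 460) (T.l 204))) (T.b (T.b (T.l 460) (T.l 460)) (T.b (T.b (T.l 460) (T.l 460)) (T.l 460)))) (T.b (T.a (T.b (T.b (T.l 204) (T.l 204)) (T.l 460)) (T.b (T.l 460) (T.l 460))) (T.a (T.b (T.l 460) (T.l 460)) (T.b (T.l 460) (T.l 204)))))) (T.a (T.a (T.a (T.b (T.l 204) (T.l 204)) (T.a (T.l 204) (T.b (T.b (T.l 460) (T.l 460)) (T.b (T.l 204) (T.l 204))))) (T.a (T.a (T.b (T.l 460) (T.l 204)) (T.b (T.l 204) (T.l 204))) (T.b (T.b (T.l 460) (T.l 460)) (T.a (T.l 204) (T.b (T.l 204) (T.l 204))))))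 (T.a (T.a (T.b (T.a (T.b (T.l 204) (T.l 204)) (T.l 476)) (T.a (T.l 460) (T.l 460))) (T.b (T.b (T.l 460) (T.l 460)) (T.b (T.l 460) (T.l 460)))) (T.b (T.a (T.b (T.l 460) (T.l 460)) (T.b (T.l 204) (T.l 204))) (T.a (T.b (T.l 204) (T.l 204)) (T.l 476)))))), by decide +kernel⟩

def B012R_001_1_3_1 :
    ∃ t, chk3 (onCell 0 33554432 0 1073741824 33554432 16777216 (corTK [[⟨0, 0, 1, 16777216⟩, ⟨1, 1, 2, 16777216⟩, ⟨2, 1, 0, 6291456⟩, ⟨0, 0, 0, 67108864⟩, ⟨0, 1, 0, 1056964608⟩, ⟨1, 0, 0, 1056964608⟩, ⟨1, 1, 0, 67108864⟩]] false 3 c0N cB012R gN0q0 gN0q2 gN1q1 gN2q1 false true)) t 1 3 1 = true :=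
  ⟨(T.b (T.a (T.a (T.a (T.c (T.b (T.l 204) (T.l 204)) (T.l 204)) (T.a (T.b (T.l 204) (T.l 204)) (T.b (T.l 204) (T.l 204)))) (T.a (T.b (T.a (T.b (T.l 204) (T.l 204)) (T.b (T.l 204) (T.l 204))) (T.a (T.l 460) (T.b (T.b (T.l 460) (T.l 460)) (T.b (T.l 204) (T.l 204))))) (T.b (T.b (T.a (T.b (T.l 204) (T.l 204)) (T.b (T.l 204) (T.l 204))) (T.a (T.b (T.l 204) (T.l 204)) (T.l 460))) (T.b (T.a (T.b (T.l 204) (T.l 204)) (T.l 460)) (T.a (T.l 460) (T.l 460)))))) (T.a (T.b (T.a (T.b (T.b (T.l 460) (T.l 460)) (T.b (T.l 460) (T.l 460))) (T.b (T.b (T.l 460) (T.l 204)) (T.b (T.l 204) (T.l 204)))) (T.a (T.b (T.b (T.l 460) (T.l 460)) (T.b (T.l 460) (T.l 460))) (T.b (T.l 476) (T.l 476)))) (T.b (T.a (T.b (T.l 476) (T.l 460)) (T.b (T.l 460) (T.l 460))) (T.a (T.b (T.l 460) (T.l 460)) (T.b (T.l 460) (T.l 460)))))) (T.b (T.a (T.a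 (T.a (T.c (T.l 204) (T.l 204)) (T.a (T.l 204) (T.l 460))) (T.a (T.a (T.b (T.b (T.l 460) (T.l 460)) (T.b (T.l 460) (T.l 460))) (T.b (T.l 460) (T.l 460))) (T.a (T.b (T.l 460) (T.l 460)) (T.b (T.l 204) (T.l 204))))) (T.a (T.a (T.b (T.b (T.l 460) (T.l 460)) (T.l 476)) (T.b (T.l 460) (T.l 460))) (T.a (T.b (T.l 460) (T.l 460)) (T.b (T.l 204) (T.l 204))))) (T.a (T.a (T.a (T.c (T.b (T.l 204) (T.l 204)) (T.l 204)) (T.a (T.l 204) (T.a (T.l 204) (T.b (T.l 204) (T.l 460))))) (T.a (T.a (T.b (T.b (T.l 460) (T.l 460)) (T.b (T.l 460) (T.l 460))) (T.b (T.l 460) (T.l 460))) (T.a (T.b (T.l 460) (T.l 204)) (T.b (T.l 204) (T.l 204))))) (T.a (T.a (T.b (T.l 476) (T.l 460)) (T.b (T.l 460) (T.l 460))) (T.a (T.l 476) (T.l 476)))))), by decide +kernel⟩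

theorem B012R_001_1_2_1 :
    ∃ t, chk3 (onCell 0 33554432 0 1073741824 33554432 16777216 (corTK [[⟨0, 0, 1, 16777216⟩, ⟨1, 1, 2, 16777216⟩, ⟨2, 1, 0, 6291456⟩, ⟨0, 0, 0, 67108864⟩, ⟨0, 1, 0, 1056964608⟩, ⟨1, 0, 0, 1056964608⟩, ⟨1, 1, 0, 67108864⟩]] false 3 c0N cB012R gN0q0 gN0q2 gN1q1 gN2q1 false true)) t 1 2 1 = true :=
  ex3_b B012R_001_1_4_1 B012R_001_1_5_1
theorem B012R_001 :
    ∃ t, chk3 (onCell 0 33554432 0 1073741824 33554432 16777216 (corTK [[⟨0, 0, 1, 16777216⟩, ⟨1, 1, 2, 16777216⟩, ⟨2, 1, 0, 6291456⟩, ⟨0, 0, 0, 67108864⟩, ⟨0, 1, 0, 1056964608⟩, ⟨1, 0, 0, 1056964608⟩, ⟨1, 1, 0, 67108864⟩]] false 3 c0N cB012R gN0q0 gN0q2 gN1q1 gN2q1 false true)) t 1 1 1 = true :=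
  ex3_b B012R_001_1_2_1 B012R_001_1_3_1

def B012R_002 :
    ∃ t, chk3 (onCell 0 33554432 0 1073741824 33554432 16777216 (corTK [[⟨0, 0, 1, 16777216⟩, ⟨1, 1, 2, 16777216⟩, ⟨2, 1, 0, 6291456⟩, ⟨0, 0, 0, 67108864⟩, ⟨0, 1, 0, 1056964608⟩, ⟨1, 0, 0, 1056964608⟩, ⟨1, 1, 0, 67108864⟩]] false 3 c0N cB012R gN0q0 gN0q2 gN2q1 gN3q1 true true)) t 1 1 1 = true :=
  ⟨(T.b (T.b (T.b (T.b (T.b (T.b (T.b (T.b (T.a (T.c (T.b (T.a (T.a (T.l 204) (T.c (T.a (T.a (T.l 204) (T.l 204)) (T.l 204)) (T.a (T.a (T.l 204) (T.l 204)) (T.l 204)))) (T.c (T.b (T.a (T.c (T.b (T.a (T.a (T.l 204) (T.l 204)) (T.a (T.l 204) (T.l 204))) (T.l 1)) (T.a (T.l 220) (T.a (T.l 204) (T.l 204)))) (T.c (T.b (T.a (T.a (T.l 204) (T.l 204)) (T.a (T.l 476) (T.a (T.l 476) (T.l 476)))) (T.l 1)) (T.b (T.a (T.a (T.l 204) (T.l 204)) (T.a (T.l 476) (T.a (T.l 460)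 (T.l 476)))) (T.l 1)))) (T.l 1)) (T.b (T.a (T.c (T.a (T.l 204) (T.a (T.l 204) (T.l 204))) (T.a (T.l 204) (T.a (T.l 204) (T.l 204)))) (T.c (T.b (T.a (T.a (T.l 204) (T.l 204)) (T.a (T.l 476) (T.a (T.l 204) (T.l 476)))) (T.l 1)) (T.b (T.a (T.a (T.l 204) (T.l 204)) (T.a (T.l 460) (T.a (T.l 204) (T.l 476)))) (T.l 1)))) (T.l 1)))) (T.l 1)) (T.b (T.a (T.a (T.l 204) (T.a (T.a (T.l 204) (T.l 204)) (T.l 204))) (T.c (T.b (T.a (T.a (T.l 460) (T.a (T.l 204) (T.l 204))) (T.c (T.b (T.a (T.a (T.l 204) (T.l 204)) (T.a (T.l 204) (T.a (T.l 204) (T.l 476)))) (T.l 1)) (T.b (T.a (T.a (T.l 204) (T.l 204)) (T.a (T.l 204) (T.a (T.l 204) (T.l 204)))) (T.l 1)))) (T.l 1)) (T.b (T.a (T.a (T.l 204) (T.a (T.l 204) (T.l 204))) (T.c (T.b (T.a (T.a (T.l 204) (T.l 204)) (T.a (T.l 204) (T.l 476))) (T.l 1)) (T.b (T.a (T.a (T.l 204) (T.l 204))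 (T.a (T.l 204) (T.l 476))) (T.l 1)))) (T.l 1)))) (T.l 1))) (T.c (T.b (T.a (T.c (T.b (T.a (T.c (T.b (T.a (T.c (T.b (T.a (T.a (T.l 476) (T.l 476)) (T.a (T.l 476) (T.l 1024))) (T.l 1)) (T.b (T.a (T.a (T.l 476) (T.l 476)) (T.a (T.l 476) (T.l 476))) (T.l 1))) (T.a (T.a (T.l 476) (T.l 1024)) (T.l 1024))) (T.l 1)) (T.b (T.a (T.c (T.b (T.a (T.a (T.l 476) (T.l 476)) (T.a (T.l 476) (T.l 476))) (T.l 1)) (T.b (T.a (T.a (T.l 476) (T.l 476)) (T.a (T.l 476) (T.l 476))) (T.l 1))) (T.c (T.b (T.a (T.a (T.l 476) (T.l 476)) (T.a (T.l 476) (T.l 1024))) (T.l 1)) (T.b (T.a (T.a (T.l 476) (T.l 476)) (T.a (T.l 476) (T.l 476))) (T.l 1)))) (T.l 1))) (T.a (T.a (T.c (T.l 1024) (T.a (T.l 476) (T.l 1024))) (T.l 1024)) (T.l 1024))) (T.l 1)) (T.b (T.a (T.c (T.b (T.a (T.c (T.b (T.a (T.a (T.l 476) (T.l 476)) (T.a (T.l 476) (T.l 476))) (T.l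 1)) (T.b (T.a (T.a (T.l 476) (T.l 476)) (T.a (T.l 476) (T.l 476))) (T.l 1))) (T.c (T.b (T.a (T.a (T.l 476) (T.l 476)) (T.a (T.l 476) (T.l 476))) (T.l 1)) (T.b (T.a (T.a (T.l 476) (T.l 476)) (T.a (T.l 476) (T.l 476))) (T.l 1)))) (T.l 1)) (T.b (T.a (T.c (T.b (T.a (T.a (T.l 476) (T.l 476)) (T.l 476)) (T.l 1)) (T.a (T.a (T.l 476) (T.l 476)) (T.l 476))) (T.c (T.a (T.a (T.l 476) (T.l 476)) (T.l 476)) (T.a (T.l 476) (T.l 476)))) (T.l 1))) (T.c (T.b (T.a (T.c (T.b (T.a (T.a (T.l 476) (T.l 476)) (T.a (T.l 476) (T.l 1024))) (T.l 1)) (T.b (T.a (T.a (T.l 476) (T.l 476)) (T.a (T.l 476) (T.l 476))) (T.l 1))) (T.a (T.a (T.l 476) (T.l 1024)) (T.l 1024))) (T.l 1)) (T.b (T.a (T.c (T.a (T.l 476) (T.l 476)) (T.a (T.l 476) (T.l 476))) (T.c (T.b (T.a (T.l 476) (T.a (T.l 476) (T.l 1024))) (T.l 1)) (T.a (T.l 476) (T.l 476)))) (T.l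 1)))) (T.l 1))) (T.a (T.a (T.c (T.l 1024) (T.a (T.c (T.l 1024) (T.a (T.l 476) (T.l 1024))) (T.l 1024))) (T.l 1024)) (T.l 1024))) (T.l 1)) (T.b (T.a (T.c (T.b (T.a (T.c (T.b (T.a (T.c (T.a (T.l 476) (T.l 476)) (T.a (T.l 476) (T.l 476))) (T.a (T.l 476) (T.l 476))) (T.l 1)) (T.b (T.a (T.a (T.l 476) (T.l 476)) (T.a (T.l 476) (T.l 476))) (T.l 1))) (T.c (T.b (T.a (T.a (T.l 476) (T.l 476)) (T.a (T.l 476) (T.a (T.l 476) (T.l 476)))) (T.l 1)) (T.b (T.a (T.a (T.l 476) (T.l 476)) (T.a (T.l 476) (T.l 476))) (T.l 1)))) (T.l 1)) (T.b (T.a (T.c (T.b (T.a (T.a (T.l 476) (T.l 476)) (T.a (T.l 476) (T.l 476))) (T.l 1)) (T.b (T.a (T.a (T.l 476) (T.l 476)) (T.a (T.l 476) (T.l 476))) (T.l 1))) (T.c (T.b (T.a (T.a (T.l 476) (T.l 476)) (T.a (T.l 476) (T.l 476))) (T.l 1)) (T.b (T.a (T.a (T.l 476) (T.l 476)) (T.a (T.l 476) (T.l 476)))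 (T.l 1)))) (T.l 1))) (T.c (T.b (T.a (T.c (T.b (T.a (T.c (T.a (T.l 476) (T.l 476)) (T.a (T.l 476) (T.l 476))) (T.a (T.a (T.l 476) (T.l 1024)) (T.l 1024))) (T.l 1)) (T.b (T.a (T.a (T.l 476) (T.l 476)) (T.a (T.l 476) (T.l 476))) (T.l 1))) (T.a (T.a (T.a (T.l 476) (T.l 1024)) (T.l 1024)) (T.l 1024))) (T.l 1)) (T.b (T.a (T.c (T.b (T.a (T.a (T.l 476) (T.l 476)) (T.a (T.l 476) (T.l 476))) (T.l 1)) (T.b (T.a (T.a (T.l 476) (T.l 476)) (T.a (T.l 476) (T.l 476))) (T.l 1))) (T.c (T.b (T.a (T.a (T.l 476) (T.l 476)) (T.a (T.l 476) (T.l 1024))) (T.l 1)) (T.b (T.a (T.a (T.l 476) (T.l 476)) (T.a (T.l 476) (T.l 476))) (T.l 1)))) (T.l 1)))) (T.l 1)))) (T.l 1)) (T.l 1)) (T.l 1)) (T.l 1)) (T.l 1)) (T.l 1)) (T.l 1)) (T.l 1)), by decide +kernel⟩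

def B012R_003 :
    ∃ t, chk3 (onCell 0 33554432 0 1073741824 33554432 16777216 (corTK [[⟨0, 0, 1, 16777216⟩, ⟨1, 1, 2, 16777216⟩, ⟨2, 1, 0, 6291456⟩, ⟨0, 0, 0, 67108864⟩, ⟨0, 1, 0, 1056964608⟩, ⟨1, 0, 0, 1056964608⟩, ⟨1, 1, 0, 67108864⟩]] false 3 c0N cB012R gN0q0 gN0q2 gN3q1 gN4q1 true true)) t 1 1 1 = true :=
  ⟨(T.l 1), by decide +kernel⟩

def B012R_011 :
    ∃ t, chk3 (onCell 0 33554432 0 1073741824 33554432 16777216 (corTK [[⟨0, 0, 1, 25165824⟩, ⟨1, 1, 2, 25165824⟩, ⟨2, 1, 0, 16777216⟩, ⟨0, 0, 0, 67108864⟩, ⟨0, 1, 0, 1056964608⟩, ⟨1, 0, 0, 1056964608⟩, ⟨1, 1, 0, 67108864⟩]] false 3 c0N cB012R gN0q0 gN1q2 gN1q1 gN2q1 false true)) t 1 1 1 = true :=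
  ⟨(T.b (T.b (T.b (T.a (T.a (T.a (T.b (T.l 204) (T.l 204)) (T.a (T.b (T.a (T.b (T.b (T.l 204) (T.l 204)) (T.l 204)) (T.b (T.l 204) (T.l 204))) (T.a (T.l 204) (T.l 204))) (T.b (T.a (T.b (T.l 204) (T.l 204)) (T.b (T.l 204) (T.l 204))) (T.c (T.l 460) (T.l 204))))) (T.a (T.a (T.b (T.a (T.b (T.b (T.l 204) (T.l 204)) (T.l 204)) (T.b (T.c (T.l 204) (T.l 204)) (T.l 204))) (T.a (T.l 204) (T.l 204))) (T.b (T.b (T.a (T.b (T.c (T.l 204) (T.l 204)) (T.l 204)) (T.b (T.c (T.l 220) (T.l 204)) (T.l 204))) (T.a (T.l 204) (T.l 204))) (T.a (T.l 204) (T.l 460)))) (T.b (T.a (T.b (T.a (T.b (T.c (T.c (T.l 220) (T.l 204)) (T.l 204)) (T.l 460)) (T.b (T.c (T.b (T.a (T.l 204) (T.l 220)) (T.l 204)) (T.c (T.l 476) (T.l 204))) (T.b (T.l 460) (T.l 204)))) (T.a (T.l 460) (T.b (T.l 204) (T.l 204)))) (T.b (T.b (T.a (T.c (T.b (T.c (T.a (T.l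 204) (T.l 476)) (T.c (T.l 476) (T.l 476))) (T.l 460)) (T.b (T.a (T.l 204) (T.l 460)) (T.l 204))) (T.c (T.b (T.a (T.c (T.l 476) (T.l 476)) (T.b (T.c (T.c (T.l 476) (T.l 476)) (T.l 476)) (T.l 476))) (T.b (T.l 476) (T.l 460))) (T.b (T.a (T.l 476) (T.c (T.l 476) (T.l 476))) (T.l 460)))) (T.a (T.b (T.l 460) (T.l 204)) (T.c (T.l 460) (T.l 204)))) (T.c (T.b (T.l 460) (T.l 204)) (T.b (T.l 460) (T.l 204))))) (T.a (T.a (T.l 460) (T.l 460)) (T.c (T.l 460) (T.l 460)))))) (T.a (T.a (T.b (T.a (T.b (T.b (T.a (T.c (T.a (T.b (T.b (T.c (T.c (T.l 476) (T.l 476)) (T.l 476)) (T.l 476)) (T.l 460)) (T.l 1024)) (T.b (T.b (T.c (T.a (T.l 476) (T.l 476)) (T.a (T.l 476) (T.l 476))) (T.c (T.l 460) (T.l 460))) (T.l 460))) (T.c (T.l 1024) (T.b (T.b (T.c (T.a (T.l 476) (T.l 476)) (T.c (T.l 476) (T.l 476))) (T.l 476)) (T.l 460)))) (T.a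 (T.c (T.l 460) (T.l 204)) (T.b (T.l 460) (T.l 460)))) (T.b (T.c (T.l 460) (T.l 460)) (T.b (T.l 460) (T.l 460)))) (T.c (T.l 1024) (T.b (T.b (T.a (T.b (T.b (T.c (T.a (T.l 476) (T.l 476)) (T.c (T.l 476) (T.l 476))) (T.l 476)) (T.l 460)) (T.b (T.b (T.c (T.a (T.l 476) (T.l 476)) (T.c (T.l 476) (T.l 476))) (T.l 476)) (T.l 460))) (T.b (T.l 460) (T.l 204))) (T.l 460)))) (T.a (T.b (T.b (T.l 460) (T.l 204)) (T.l 460)) (T.b (T.l 460) (T.l 204)))) (T.c (T.l 1024) (T.b (T.b (T.a (T.b (T.b (T.a (T.b (T.c (T.a (T.l 476) (T.l 1024)) (T.c (T.l 476) (T.l 476))) (T.l 476)) (T.c (T.l 1024) (T.a (T.l 476) (T.l 476)))) (T.a (T.l 460) (T.l 460))) (T.b (T.l 460) (T.l 204))) (T.b (T.c (T.l 1024) (T.b (T.a (T.a (T.l 476) (T.l 476)) (T.a (T.l 476) (T.l 476))) (T.l 476))) (T.l 460))) (T.a (T.l 460) (T.l 460))) (T.b (T.l 460) (T.l 204)))))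 (T.c (T.l 1024) (T.a (T.c (T.l 1024) (T.b (T.a (T.b (T.b (T.b (T.a (T.a (T.l 476) (T.l 1024)) (T.l 1024)) (T.l 476)) (T.l 460)) (T.l 204)) (T.l 1024)) (T.l 460))) (T.l 1024))))) (T.a (T.a (T.a (T.l 204) (T.a (T.b (T.a (T.l 204) (T.l 204)) (T.b (T.l 204) (T.l 204))) (T.a (T.l 204) (T.l 204)))) (T.a (T.a (T.b (T.b (T.l 204) (T.l 204)) (T.l 204)) (T.b (T.l 460) (T.l 204))) (T.b (T.a (T.l 460) (T.l 460)) (T.c (T.l 460) (T.l 460))))) (T.a (T.a (T.b (T.a (T.l 460) (T.l 460)) (T.b (T.l 460) (T.l 204))) (T.b (T.b (T.l 460) (T.l 204)) (T.l 460))) (T.c (T.l 1024) (T.b (T.a (T.l 204) (T.l 204)) (T.b (T.l 460) (T.l 460))))))) (T.a (T.a (T.a (T.l 204) (T.a (T.b (T.a (T.l 204) (T.l 204)) (T.l 204)) (T.b (T.b (T.l 204) (T.l 204)) (T.l 460)))) (T.a (T.b (T.a (T.l 460) (T.b (T.l 204) (T.l 204))) (T.b (T.l 204) (T.l 0)))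 (T.b (T.a (T.l 460) (T.l 460)) (T.b (T.l 204) (T.b (T.l 204) (T.l 0)))))) (T.a (T.b (T.a (T.b (T.l 204) (T.l 204)) (T.b (T.l 460) (T.l 460))) (T.a (T.b (T.l 460) (T.l 0)) (T.b (T.l 204) (T.l 204)))) (T.b (T.b (T.a (T.l 460) (T.l 460)) (T.a (T.l 460) (T.l 204))) (T.b (T.b (T.l 460) (T.l 460)) (T.b (T.l 256) (T.l 0))))))) (T.b (T.a (T.a (T.a (T.l 204) (T.l 0)) (T.a (T.b (T.b (T.l 0) (T.l 0)) (T.a (T.l 204) (T.l 256))) (T.b (T.b (T.l 256) (T.l 0)) (T.b (T.l 0) (T.l 0))))) (T.a (T.b (T.a (T.b (T.l 0) (T.l 0)) (T.b (T.l 0) (T.l 0))) (T.a (T.b (T.l 0) (T.l 0)) (T.l 256))) (T.b (T.a (T.l 256) (T.l 256)) (T.b (T.l 256) (T.l 256))))) (T.b (T.a (T.a (T.a (T.l 204) (T.l 0)) (T.a (T.b (T.l 0) (T.l 0)) (T.l 0))) (T.a (T.a (T.b (T.l 0) (T.l 0)) (T.b (T.l 0) (T.l 0))) (T.b (T.l 0) (T.l 0)))) (T.a (T.a (T.a (T.l 204) (T.a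 (T.l 0) (T.l 0))) (T.a (T.b (T.l 0) (T.l 0)) (T.l 0))) (T.a (T.b (T.l 0) (T.l 0)) (T.l 256)))))), by decide +kernel⟩

def B012R_012 :
    ∃ t, chk3 (onCell 0 33554432 0 1073741824 33554432 16777216 (corTK [[⟨0, 0, 1, 25165824⟩, ⟨1, 1, 2, 25165824⟩, ⟨2, 1, 0, 16777216⟩, ⟨0, 0, 0, 67108864⟩, ⟨0, 1, 0, 1056964608⟩, ⟨1, 0, 0, 1056964608⟩, ⟨1, 1, 0, 67108864⟩]] false 3 c0N cB012R gN0q0 gN1q2 gN2q1 gN3q1 true true)) t 1 1 1 = true :=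
  ⟨(T.b (T.b (T.b (T.b (T.b (T.b (T.b (T.b (T.a (T.c (T.b (T.a (T.a (T.l 204) (T.c (T.a (T.a (T.l 204) (T.l 204)) (T.l 204)) (T.a (T.a (T.l 204) (T.l 204)) (T.l 204)))) (T.c (T.b (T.a (T.c (T.b (T.a (T.a (T.l 204) (T.l 204)) (T.a (T.l 204) (T.l 204))) (T.l 1)) (T.a (T.l 220) (T.a (T.l 204) (T.l 204)))) (T.c (T.b (T.a (T.a (T.l 204) (T.l 204)) (T.a (T.l 476) (T.a (T.l 476) (T.l 476)))) (T.l 1)) (T.b (T.a (T.a (T.l 204) (T.l 204)) (T.a (T.l 476) (T.a (T.l 204) (T.l 476)))) (T.l 1)))) (T.l 1)) (T.b (T.a (T.c (T.a (T.l 204) (T.a (T.l 204) (T.l 204))) (T.a (T.l 204) (T.a (T.l 204) (T.l 204)))) (T.c (T.b (T.a (T.a (T.l 204) (T.l 204)) (T.a (T.l 476) (T.a (T.l 204) (T.l 476)))) (T.l 1)) (T.b (T.a (T.a (T.l 204) (T.l 204)) (T.a (T.l 204) (T.a (T.l 204) (T.l 476)))) (T.l 1)))) (T.l 1)))) (T.l 1)) (T.b (T.a (T.a (T.l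 204) (T.a (T.a (T.l 204) (T.l 204)) (T.l 204))) (T.c (T.b (T.a (T.a (T.l 204) (T.a (T.l 204) (T.l 204))) (T.c (T.b (T.a (T.a (T.l 204) (T.l 204)) (T.a (T.l 204) (T.a (T.l 204) (T.l 476)))) (T.l 1)) (T.b (T.a (T.a (T.l 204) (T.l 204)) (T.a (T.l 204) (T.a (T.l 204) (T.l 204)))) (T.l 1)))) (T.l 1)) (T.b (T.a (T.a (T.l 204) (T.a (T.l 204) (T.l 204))) (T.c (T.b (T.a (T.a (T.l 204) (T.l 204)) (T.a (T.l 204) (T.l 476))) (T.l 1)) (T.b (T.a (T.a (T.l 204) (T.l 204)) (T.a (T.l 204) (T.l 476))) (T.l 1)))) (T.l 1)))) (T.l 1))) (T.c (T.a (T.a (T.a (T.b (T.a (T.c (T.b (T.a (T.c (T.l 476) (T.l 476)) (T.l 1024)) (T.l 1)) (T.a (T.l 476) (T.l 1024))) (T.l 1024)) (T.l 1)) (T.l 1024)) (T.l 1024)) (T.l 1024)) (T.b (T.a (T.c (T.b (T.a (T.c (T.b (T.a (T.a (T.a (T.l 476) (T.l 476)) (T.l 476)) (T.a (T.l 476) (T.l 1024))) (T.l 1))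 (T.b (T.a (T.a (T.l 476) (T.l 476)) (T.a (T.l 476) (T.l 476))) (T.l 1))) (T.a (T.a (T.c (T.l 1024) (T.l 476)) (T.l 1024)) (T.l 1024))) (T.l 1)) (T.b (T.a (T.c (T.b (T.a (T.a (T.l 476) (T.l 476)) (T.a (T.l 476) (T.l 476))) (T.l 1)) (T.b (T.a (T.a (T.l 476) (T.l 476)) (T.a (T.l 476) (T.l 476))) (T.l 1))) (T.c (T.b (T.a (T.a (T.l 476) (T.l 476)) (T.a (T.l 476) (T.l 1024))) (T.l 1)) (T.b (T.a (T.a (T.l 476) (T.l 476)) (T.a (T.l 476) (T.l 476))) (T.l 1)))) (T.l 1))) (T.a (T.a (T.c (T.l 1024) (T.a (T.c (T.l 1024) (T.l 476)) (T.l 1024))) (T.l 1024)) (T.l 1024))) (T.l 1)))) (T.l 1)) (T.l 1)) (T.l 1)) (T.l 1)) (T.l 1)) (T.l 1)) (T.l 1)) (T.l 1)), by decide +kernel⟩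

def B012R_013 :
    ∃ t, chk3 (onCell 0 33554432 0 1073741824 33554432 16777216 (corTK [[⟨0, 0, 1, 25165824⟩, ⟨1, 1, 2, 25165824⟩, ⟨2, 1, 0, 16777216⟩, ⟨0, 0, 0, 67108864⟩, ⟨0, 1, 0, 1056964608⟩, ⟨1, 0, 0, 1056964608⟩, ⟨1, 1, 0, 67108864⟩]] false 3 c0N cB012R gN0q0 gN1q2 gN3q1 gN4q1 true true)) t 1 1 1 = true :=
  ⟨(T.l 1), by decide +kernel⟩

def B012R_021 :
    ∃ t, chk3 (onCell 0 33554432 0 1073741824 33554432 16777216 (corTK [[⟨0, 0, 1, 25165824⟩, ⟨1, 1, 2, 25165824⟩, ⟨2, 1, 0, 16777216⟩, ⟨0, 0, 0, 67108864⟩, ⟨0, 1, 0, 1056964608⟩, ⟨1, 0, 0, 1056964608⟩, ⟨1, 1, 0, 67108864⟩]] false 3 c0N cB012R gN0q0 gN2q2 gN1q1 gN2q1 false true)) t 1 1 1 = true :=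
  ⟨(T.b (T.b (T.b (T.b (T.b (T.a (T.b (T.a (T.a (T.l 204) (T.b (T.c (T.b (T.a (T.a (T.l 204) (T.l 204)) (T.c (T.l 204) (T.l 204))) (T.a (T.a (T.l 204) (T.l 204)) (T.c (T.l 204) (T.l 204)))) (T.a (T.a (T.l 204) (T.l 204)) (T.b (T.l 204) (T.l 204)))) (T.c (T.a (T.a (T.l 204) (T.l 204)) (T.l 220)) (T.a (T.c (T.l 204) (T.l 204)) (T.l 204))))) (T.b (T.a (T.c (T.b (T.a (T.a (T.l 204) (T.l 204)) (T.a (T.l 204) (T.l 204))) (T.a (T.a (T.l 204) (T.l 204)) (T.a (T.l 204) (T.l 204)))) (T.b (T.a (T.a (T.l 204) (T.l 204)) (T.a (T.l 204) (T.l 204))) (T.a (T.c (T.l 204) (T.l 204)) (T.a (T.l 204) (T.l 204))))) (T.c (T.b (T.a (T.a (T.l 220) (T.c (T.l 476) (T.l 204))) (T.c (T.b (T.a (T.c (T.l 476) (T.l 476)) (T.a (T.l 476) (T.c (T.l 476) (T.l 476)))) (T.a (T.l 476) (T.c (T.l 476) (T.l 476)))) (T.a (T.b (T.l 476) (T.l 204))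 (T.a (T.l 476) (T.b (T.l 476) (T.l 204)))))) (T.a (T.a (T.l 204) (T.l 204)) (T.a (T.l 476) (T.c (T.l 476) (T.l 460))))) (T.b (T.a (T.a (T.l 204) (T.l 476)) (T.c (T.a (T.l 476) (T.a (T.l 204) (T.l 476))) (T.a (T.l 460) (T.a (T.l 204) (T.l 476))))) (T.a (T.a (T.l 204) (T.l 204)) (T.a (T.l 204) (T.l 476)))))) (T.a (T.c (T.b (T.a (T.c (T.l 204) (T.l 204)) (T.c (T.l 220) (T.l 204))) (T.a (T.c (T.l 204) (T.l 204)) (T.l 476))) (T.a (T.b (T.l 460) (T.l 204)) (T.c (T.l 204) (T.l 204)))) (T.c (T.b (T.a (T.a (T.l 204) (T.l 204)) (T.a (T.l 204) (T.l 460))) (T.a (T.c (T.l 460) (T.l 460)) (T.a (T.l 204) (T.l 204)))) (T.b (T.a (T.a (T.l 204) (T.l 204)) (T.a (T.l 204) (T.l 204))) (T.a (T.c (T.l 460) (T.l 204)) (T.c (T.l 460) (T.l 460)))))))) (T.a (T.a (T.l 204) (T.b (T.c (T.a (T.a (T.l 204) (T.l 204)) (T.l 204)) (T.a (T.b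 (T.l 460) (T.l 204)) (T.l 204))) (T.a (T.a (T.l 204) (T.l 204)) (T.c (T.l 204) (T.l 204))))) (T.b (T.a (T.c (T.a (T.l 204) (T.l 460)) (T.a (T.l 204) (T.l 204))) (T.c (T.a (T.c (T.l 460) (T.l 204)) (T.c (T.l 460) (T.l 460))) (T.a (T.b (T.l 460) (T.l 204)) (T.b (T.l 460) (T.l 204))))) (T.a (T.a (T.c (T.l 204) (T.l 204)) (T.c (T.l 204) (T.l 204))) (T.a (T.c (T.l 204) (T.l 204)) (T.c (T.l 460) (T.l 204))))))) (T.b (T.a (T.b (T.a (T.c (T.a (T.a (T.a (T.b (T.c (T.c (T.l 476) (T.l 476)) (T.l 476)) (T.l 460)) (T.l 1024)) (T.l 1024)) (T.l 1024)) (T.b (T.a (T.c (T.a (T.a (T.l 476) (T.l 476)) (T.a (T.l 476) (T.l 476))) (T.a (T.a (T.l 476) (T.l 476)) (T.c (T.l 476) (T.l 476)))) (T.c (T.a (T.a (T.l 476) (T.l 476)) (T.a (T.l 476) (T.l 476))) (T.a (T.c (T.l 476) (T.l 476)) (T.c (T.l 476) (T.l 476))))) (T.a (T.a (T.l 476)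 (T.l 460)) (T.a (T.l 476) (T.l 476))))) (T.c (T.l 1024) (T.b (T.a (T.c (T.a (T.a (T.l 476) (T.l 1024)) (T.l 1024)) (T.a (T.c (T.l 476) (T.l 476)) (T.c (T.l 476) (T.l 476)))) (T.c (T.l 1024) (T.a (T.c (T.l 476) (T.l 476)) (T.c (T.l 1024) (T.l 476))))) (T.a (T.a (T.l 476) (T.l 476)) (T.a (T.l 476) (T.l 476)))))) (T.a (T.c (T.a (T.a (T.l 460) (T.l 1024)) (T.l 1024)) (T.a (T.a (T.l 204) (T.l 204)) (T.c (T.l 476) (T.l 460)))) (T.c (T.l 1024) (T.a (T.c (T.l 476) (T.l 460)) (T.b (T.l 476) (T.l 460)))))) (T.a (T.c (T.l 1024) (T.a (T.b (T.a (T.c (T.l 1024) (T.a (T.l 476) (T.l 1024))) (T.l 1024)) (T.l 476)) (T.l 1024))) (T.l 1024))) (T.a (T.b (T.a (T.a (T.a (T.l 460) (T.l 460)) (T.c (T.l 1024) (T.l 460))) (T.c (T.l 1024) (T.a (T.l 204) (T.l 204)))) (T.a (T.a (T.c (T.l 460) (T.l 204)) (T.l 460)) (T.a (T.l 460) (T.l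 460)))) (T.a (T.a (T.b (T.l 476) (T.l 460)) (T.l 1024)) (T.l 1024))))) (T.a (T.a (T.a (T.l 204) (T.b (T.a (T.a (T.l 204) (T.l 204)) (T.l 460)) (T.a (T.c (T.l 204) (T.l 204)) (T.l 204)))) (T.b (T.a (T.a (T.c (T.l 204) (T.l 204)) (T.b (T.l 460) (T.l 204))) (T.a (T.c (T.l 204) (T.l 204)) (T.b (T.l 460) (T.l 204)))) (T.a (T.a (T.l 204) (T.l 204)) (T.a (T.l 204) (T.l 204))))) (T.b (T.a (T.a (T.a (T.b (T.l 460) (T.l 204)) (T.l 460)) (T.a (T.l 460) (T.l 460))) (T.a (T.c (T.l 1024) (T.l 460)) (T.l 1024))) (T.a (T.a (T.a (T.l 204) (T.l 204)) (T.c (T.l 1024) (T.l 460))) (T.a (T.l 460) (T.l 1024)))))) (T.a (T.a (T.a (T.l 204) (T.b (T.a (T.c (T.l 204) (T.l 204)) (T.l 204)) (T.a (T.l 204) (T.l 204)))) (T.b (T.b (T.a (T.a (T.l 204) (T.l 204)) (T.a (T.l 204) (T.l 204))) (T.a (T.a (T.l 204) (T.l 204)) (T.a (T.l 204) (T.l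 204)))) (T.a (T.a (T.l 204) (T.l 204)) (T.a (T.l 204) (T.l 204))))) (T.b (T.a (T.a (T.a (T.l 460) (T.l 204)) (T.b (T.l 460) (T.l 460))) (T.a (T.l 460) (T.l 1024))) (T.a (T.a (T.b (T.l 460) (T.l 460)) (T.l 460)) (T.a (T.l 204) (T.l 1024)))))) (T.a (T.b (T.a (T.a (T.l 204) (T.a (T.b (T.l 204) (T.l 204)) (T.l 204))) (T.a (T.a (T.l 204) (T.l 204)) (T.a (T.l 204) (T.l 204)))) (T.a (T.a (T.l 204) (T.a (T.l 204) (T.l 204))) (T.a (T.a (T.l 204) (T.l 204)) (T.b (T.l 204) (T.l 204))))) (T.b (T.a (T.a (T.b (T.l 460) (T.l 204)) (T.b (T.l 204) (T.l 204))) (T.c (T.l 1024) (T.a (T.l 204) (T.l 204)))) (T.a (T.a (T.b (T.l 204) (T.l 204)) (T.l 460)) (T.a (T.l 204) (T.l 204)))))) (T.a (T.b (T.a (T.a (T.l 204) (T.a (T.b (T.l 0) (T.l 0)) (T.l 0))) (T.b (T.a (T.b (T.l 0) (T.l 0)) (T.l 256)) (T.a (T.l 256) (T.l 0)))) (T.a (T.a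 (T.l 0) (T.a (T.l 0) (T.l 0))) (T.a (T.b (T.l 0) (T.l 64)) (T.b (T.l 0) (T.l 0))))) (T.b (T.a (T.a (T.b (T.l 0) (T.l 0)) (T.b (T.l 0) (T.l 0))) (T.b (T.b (T.l 256) (T.l 0)) (T.b (T.l 0) (T.l 0)))) (T.a (T.a (T.b (T.l 0) (T.l 816)) (T.l 0)) (T.b (T.l 320) (T.b (T.l 0) (T.l 0))))))) (T.b (T.a (T.a (T.a (T.l 816) (T.a (T.b (T.l 816) (T.l 816)) (T.b (T.l 816) (T.l 816)))) (T.b (T.a (T.b (T.l 64) (T.l 880)) (T.b (T.l 816) (T.l 816))) (T.a (T.a (T.l 816) (T.l 880)) (T.b (T.l 816) (T.l 816))))) (T.b (T.a (T.a (T.b (T.l 816) (T.l 816)) (T.l 880)) (T.b (T.b (T.l 816) (T.l 816)) (T.b (T.l 816) (T.l 816)))) (T.a (T.a (T.b (T.l 816) (T.l 816)) (T.b (T.l 816) (T.l 816))) (T.b (T.b (T.l 816) (T.l 816)) (T.b (T.l 816) (T.l 816)))))) (T.a (T.a (T.a (T.l 816) (T.a (T.b (T.l 816) (T.l 816)) (T.b (T.l 816) (T.l 816)))) (T.a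 (T.a (T.b (T.l 816) (T.l 816)) (T.l 880)) (T.b (T.l 816) (T.b (T.l 816) (T.l 816))))) (T.a (T.b (T.b (T.a (T.l 816) (T.l 816)) (T.a (T.l 816) (T.l 816))) (T.a (T.b (T.l 816) (T.l 816)) (T.l 880))) (T.b (T.b (T.b (T.l 816) (T.l 816)) (T.b (T.l 816) (T.l 816))) (T.a (T.l 816) (T.l 816))))))), by decide +kernel⟩

def B012R_022 :
    ∃ t, chk3 (onCell 0 33554432 0 1073741824 33554432 16777216 (corTK [[⟨0, 0, 1, 25165824⟩, ⟨1, 1, 2, 25165824⟩, ⟨2, 1, 0, 16777216⟩, ⟨0, 0, 0, 67108864⟩, ⟨0, 1, 0, 1056964608⟩, ⟨1, 0, 0, 1056964608⟩, ⟨1, 1, 0, 67108864⟩]] false 3 c0N cB012R gN0q0 gN2q2 gN2q1 gN3q1 true true)) t 1 1 1 = true :=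
  ⟨(T.b (T.b (T.b (T.b (T.b (T.a (T.b (T.a (T.a (T.l 204) (T.b (T.b (T.c (T.b (T.c (T.a (T.a (T.l 204) (T.l 204)) (T.l 204)) (T.a (T.a (T.l 204) (T.l 204)) (T.l 204))) (T.l 1)) (T.a (T.a (T.l 204) (T.l 204)) (T.l 204))) (T.l 1)) (T.l 1))) (T.b (T.b (T.c (T.b (T.c (T.b (T.a (T.c (T.b (T.a (T.a (T.l 204) (T.l 204)) (T.a (T.l 204) (T.l 204))) (T.l 1)) (T.a (T.l 220) (T.a (T.l 204) (T.l 204)))) (T.c (T.b (T.a (T.a (T.l 204) (T.l 204)) (T.a (T.l 476) (T.a (T.l 476) (T.l 476)))) (T.l 1)) (T.b (T.a (T.a (T.l 204) (T.l 204)) (T.a (T.l 476) (T.a (T.l 204) (T.l 476)))) (T.l 1)))) (T.l 1)) (T.b (T.a (T.c (T.a (T.l 204) (T.a (T.l 204) (T.l 204))) (T.a (T.l 204) (T.a (T.l 204) (T.l 204)))) (T.c (T.b (T.a (T.a (T.l 204) (T.l 204)) (T.a (T.l 476) (T.a (T.l 204) (T.l 476)))) (T.l 1)) (T.b (T.a (T.a (T.l 204) (T.l 204))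 (T.a (T.l 204) (T.a (T.l 204) (T.l 476)))) (T.l 1)))) (T.l 1))) (T.l 1)) (T.b (T.c (T.b (T.a (T.a (T.l 204) (T.a (T.l 204) (T.l 204))) (T.c (T.b (T.a (T.a (T.l 204) (T.l 204)) (T.a (T.l 204) (T.a (T.l 204) (T.l 476)))) (T.l 1)) (T.b (T.a (T.a (T.l 204) (T.l 204)) (T.a (T.l 204) (T.a (T.l 204) (T.l 204)))) (T.l 1)))) (T.l 1)) (T.b (T.a (T.a (T.l 204) (T.a (T.l 204) (T.l 204))) (T.c (T.b (T.a (T.a (T.l 204) (T.l 204)) (T.a (T.l 204) (T.l 476))) (T.l 1)) (T.b (T.a (T.a (T.l 204) (T.l 204)) (T.a (T.l 204) (T.l 476))) (T.l 1)))) (T.l 1))) (T.l 1))) (T.l 1)) (T.l 1))) (T.a (T.a (T.l 204) (T.l 1)) (T.l 1))) (T.b (T.b (T.b (T.c (T.a (T.a (T.a (T.b (T.a (T.c (T.b (T.a (T.c (T.l 476) (T.l 476)) (T.l 1024)) (T.l 1)) (T.a (T.l 476) (T.l 1024))) (T.l 1024)) (T.l 1)) (T.l 1024)) (T.l 1024)) (T.l 1024)) (T.b (T.a (T.c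 (T.b (T.a (T.c (T.b (T.a (T.a (T.a (T.l 476) (T.l 476)) (T.l 476)) (T.a (T.l 476) (T.l 1024))) (T.l 1)) (T.b (T.a (T.a (T.l 476) (T.l 476)) (T.a (T.l 476) (T.l 476))) (T.l 1))) (T.a (T.a (T.c (T.l 1024) (T.l 476)) (T.l 1024)) (T.l 1024))) (T.l 1)) (T.b (T.a (T.c (T.b (T.a (T.a (T.l 476) (T.l 476)) (T.a (T.l 476) (T.l 476))) (T.l 1)) (T.b (T.a (T.a (T.l 476) (T.l 476)) (T.a (T.l 476) (T.l 476))) (T.l 1))) (T.c (T.b (T.a (T.a (T.l 476) (T.l 476)) (T.a (T.l 476) (T.l 1024))) (T.l 1)) (T.b (T.a (T.a (T.l 476) (T.l 476)) (T.a (T.l 476) (T.l 476))) (T.l 1)))) (T.l 1))) (T.a (T.a (T.c (T.l 1024) (T.a (T.c (T.l 1024) (T.l 476)) (T.l 1024))) (T.l 1024)) (T.l 1024))) (T.l 1))) (T.l 1)) (T.l 1)) (T.l 1))) (T.a (T.a (T.a (T.l 204) (T.l 1)) (T.l 1)) (T.l 1))) (T.a (T.a (T.a (T.l 204) (T.l 1)) (T.l 1)) (T.l 1))) (T.a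 (T.a (T.a (T.l 204) (T.l 1)) (T.l 1)) (T.l 1))) (T.a (T.a (T.a (T.l 0) (T.l 1)) (T.l 1)) (T.l 1))) (T.a (T.a (T.a (T.l 816) (T.l 1)) (T.l 1)) (T.l 1))), by decide +kernel⟩

def B012R_023 :
    ∃ t, chk3 (onCell 0 33554432 0 1073741824 33554432 16777216 (corTK [[⟨0, 0, 1, 25165824⟩, ⟨1, 1, 2, 25165824⟩, ⟨2, 1, 0, 16777216⟩, ⟨0, 0, 0, 67108864⟩, ⟨0, 1, 0, 1056964608⟩, ⟨1, 0, 0, 1056964608⟩, ⟨1, 1, 0, 67108864⟩]] false 3 c0N cB012R gN0q0 gN2q2 gN3q1 gN4q1 true true)) t 1 1 1 = true :=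
  ⟨(T.b (T.l 1) (T.b (T.l 1) (T.b (T.l 1) (T.b (T.l 1) (T.b (T.l 1) (T.a (T.b (T.l 1) (T.a (T.a (T.l 816) (T.l 1)) (T.l 1))) (T.l 1))))))), by decide +kernel⟩

def B012R_101 :
    ∃ t, chk3 (onCell 0 33554432 0 1073741824 33554432 16777216 (corTK [] false 3 c0N cB012R gN1q0 gN0q2 gN1q1 gN2q1 false true)) t 1 1 1 = true :=
  ⟨(T.b (T.b (T.l 2) (T.b (T.l 2) (T.a (T.a (T.a (T.l 204) (T.l 204)) (T.l 0)) (T.l 0)))) (T.b (T.a (T.a (T.l 204) (T.b (T.l 0) (T.l 0))) (T.b (T.l 0) (T.l 0))) (T.b (T.a (T.a (T.a (T.l 204) (T.l 204)) (T.l 0)) (T.l 0)) (T.a (T.a (T.a (T.l 204) (T.l 0)) (T.l 0)) (T.l 0))))), by decide +kernel⟩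

def B012R_102 :
    ∃ t, chk3 (onCell 0 33554432 0 1073741824 33554432 16777216 (corTK [] false 3 c0N cB012R gN1q0 gN0q2 gN2q1 gN3q1 true true)) t 1 1 1 = true :=
  ⟨(T.b (T.b (T.l 2) (T.b (T.a (T.l 2) (T.l 0)) (T.a (T.a (T.a (T.l 204) (T.l 0)) (T.l 0)) (T.l 0)))) (T.b (T.b (T.b (T.a (T.a (T.l 204) (T.l 1)) (T.l 1)) (T.l 1)) (T.l 1)) (T.l 1))), by decide +kernel⟩

def B012R_103 :
    ∃ t, chk3 (onCell 0 33554432 0 1073741824 33554432 16777216 (corTK [] false 3 c0N cB012R gN1q0 gN0q2 gN3q1 gN4q1 true true)) t 1 1 1 = true :=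
  ⟨(T.b (T.b (T.b (T.l 2) (T.b (T.l 2) (T.a (T.a (T.l 204) (T.l 204)) (T.l 0)))) (T.b (T.a (T.a (T.l 204) (T.l 204)) (T.l 0)) (T.b (T.a (T.a (T.l 204) (T.l 204)) (T.l 0)) (T.l 1)))) (T.l 1)), by decide +kernel⟩

def B012R_111 :
    ∃ t, chk3 (onCell 0 33554432 0 1073741824 33554432 16777216 (corTK [] false 3 c0N cB012R gN1q0 gN1q2 gN1q1 gN2q1 false true)) t 1 1 1 = true :=
  ⟨(T.b (T.l 2) (T.b (T.l 2) (T.b (T.l 2) (T.a (T.a (T.a (T.l 204) (T.l 0)) (T.l 0)) (T.l 0))))), by decide +kernel⟩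

def B012R_112 :
    ∃ t, chk3 (onCell 0 33554432 0 1073741824 33554432 16777216 (corTK [] false 3 c0N cB012R gN1q0 gN1q2 gN2q1 gN3q1 true true)) t 1 1 1 = true :=
  ⟨(T.b (T.l 2) (T.b (T.l 2) (T.b (T.a (T.l 2) (T.b (T.l 2) (T.l 0))) (T.a (T.a (T.a (T.l 204) (T.l 0)) (T.l 0)) (T.l 0))))), by decide +kernel⟩

def B012R_113 :
    ∃ t, chk3 (onCell 0 33554432 0 1073741824 33554432 16777216 (corTK [] false 3 c0N cB012R gN1q0 gN1q2 gN3q1 gN4q1 true true)) t 1 1 1 = true :=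
  ⟨(T.b (T.l 2) (T.b (T.a (T.l 2) (T.l 0)) (T.b (T.a (T.a (T.l 2) (T.l 0)) (T.l 0)) (T.a (T.a (T.a (T.l 204) (T.l 0)) (T.l 0)) (T.l 0))))), by decide +kernel⟩

def B012R_121 :
    ∃ t, chk3 (onCell 0 33554432 0 1073741824 33554432 16777216 (corTK [] false 3 c0N cB012R gN1q0 gN2q2 gN1q1 gN2q1 false true)) t 1 1 1 = true :=
  ⟨(T.l 2), by decide +kernel⟩

def B012R_122 :
    ∃ t, chk3 (onCell 0 33554432 0 1073741824 33554432 16777216 (corTK [] false 3 c0N cB012R gN1q0 gN2q2 gN2q1 gN3q1 true true)) t 1 1 1 = true :=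
  ⟨(T.l 2), by decide +kernel⟩

def B012R_123 :
    ∃ t, chk3 (onCell 0 33554432 0 1073741824 33554432 16777216 (corTK [] false 3 c0N cB012R gN1q0 gN2q2 gN3q1 gN4q1 true true)) t 1 1 1 = true :=
  ⟨(T.l 2), by decide +kernel⟩

def B012R_201 :
    ∃ t, chk3 (onCell 0 33554432 0 1073741824 33554432 16777216 (corTK [] false 3 c0N cB012R gN2q0 gN0q2 gN1q1 gN2q1 false true)) t 1 1 1 = true :=
  ⟨(T.b (T.l 2) (T.b (T.l 2) (T.b (T.l 2) (T.a (T.a (T.a (T.l 204) (T.l 0)) (T.l 0)) (T.l 0))))), by decide +kernel⟩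

def B012R_202 :
    ∃ t, chk3 (onCell 0 33554432 0 1073741824 33554432 16777216 (corTK [] false 3 c0N cB012R gN2q0 gN0q2 gN2q1 gN3q1 true true)) t 1 1 1 = true :=
  ⟨(T.b (T.l 2) (T.b (T.l 2) (T.b (T.a (T.l 2) (T.b (T.l 2) (T.l 0))) (T.a (T.a (T.a (T.l 204) (T.l 0)) (T.l 0)) (T.l 0))))), by decide +kernel⟩

def B012R_203 :
    ∃ t, chk3 (onCell 0 33554432 0 1073741824 33554432 16777216 (corTK [] false 3 c0N cB012R gN2q0 gN0q2 gN3q1 gN4q1 true true)) t 1 1 1 = true :=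
  ⟨(T.b (T.l 2) (T.b (T.l 2) (T.b (T.a (T.l 2) (T.l 0)) (T.a (T.a (T.a (T.l 204) (T.l 0)) (T.l 0)) (T.l 0))))), by decide +kernel⟩

def B012R_211 :
    ∃ t, chk3 (onCell 0 33554432 0 1073741824 33554432 16777216 (corTK [] false 3 c0N cB012R gN2q0 gN1q2 gN1q1 gN2q1 false true)) t 1 1 1 = true :=
  ⟨(T.l 2), by decide +kernel⟩

def B012R_212 :
    ∃ t, chk3 (onCell 0 33554432 0 1073741824 33554432 16777216 (corTK [] false 3 c0N cB012R gN2q0 gN1q2 gN2q1 gN3q1 true true)) t 1 1 1 = true :=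
  ⟨(T.l 2), by decide +kernel⟩

def B012R_213 :
    ∃ t, chk3 (onCell 0 33554432 0 1073741824 33554432 16777216 (corTK [] false 3 c0N cB012R gN2q0 gN1q2 gN3q1 gN4q1 true true)) t 1 1 1 = true :=
  ⟨(T.l 2), by decide +kernel⟩

def B012R_221 :
    ∃ t, chk3 (onCell 0 33554432 0 1073741824 33554432 16777216 (corTK [] false 3 c0N cB012R gN2q0 gN2q2 gN1q1 gN2q1 false true)) t 1 1 1 = true :=
  ⟨(T.l 2), by decide +kernel⟩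

def B012R_222 :
    ∃ t, chk3 (onCell 0 33554432 0 1073741824 33554432 16777216 (corTK [] false 3 c0N cB012R gN2q0 gN2q2 gN2q1 gN3q1 true true)) t 1 1 1 = true :=
  ⟨(T.l 2), by decide +kernel⟩

def B012R_223 :
    ∃ t, chk3 (onCell 0 33554432 0 1073741824 33554432 16777216 (corTK [] false 3 c0N cB012R gN2q0 gN2q2 gN3q1 gN4q1 true true)) t 1 1 1 = true :=
  ⟨(T.l 2), by decide +kernel⟩

def B022E_000 :
    ∃ t, chk3 (onCell 0 33554432 0 1073741824 33554432 16777216 (corTK [] false 3 c0N cB022E gN0q0 gN0q2 gN0q2 gN1q2 true true)) t 1 1 1 = true :=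
  ⟨(T.l 2), by decide +kernel⟩

def B022E_001 :
    ∃ t, chk3 (onCell 0 33554432 0 1073741824 33554432 16777216 (corTK [] false 3 c0N cB022E gN0q0 gN0q2 gN1q2 gN2q2 true true)) t 1 1 1 = true :=
  ⟨(T.l 2), by decide +kernel⟩

def B022E_002 :
    ∃ t, chk3 (onCell 0 33554432 0 1073741824 33554432 16777216 (corTK [] false 3 c0N cB022E gN0q0 gN0q2 gN2q2 gN3q2 true false)) t 1 1 1 = true :=
  ⟨(T.a (T.a (T.a (T.b (T.l 0) (T.b (T.b (T.l 816) (T.l 816)) (T.b (T.b (T.l 816) (T.l 816)) (T.b (T.b (T.l 816) (T.l 816)) (T.a (T.b (T.l 816) (T.b (T.l 816) (T.l 816))) (T.l 816)))))) (T.b (T.a (T.b (T.b (T.l 204) (T.l 0)) (T.b (T.l 0) (T.l 816))) (T.b (T.b (T.l 204) (T.l 0)) (T.b (T.l 0) (T.l 0)))) (T.a (T.b (T.l 816) (T.b (T.l 816) (T.b (T.l 816) (T.l 816)))) (T.b (T.l 816) (T.b (T.l 816) (T.a (T.l 816) (T.b (T.l 816)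 (T.b (T.l 816) (T.l 816))))))))) (T.b (T.b (T.a (T.a (T.l 0) (T.l 204)) (T.b (T.l 204) (T.l 204))) (T.a (T.a (T.l 0) (T.l 0)) (T.b (T.l 0) (T.b (T.l 0) (T.l 0))))) (T.b (T.a (T.b (T.b (T.l 0) (T.l 4)) (T.a (T.l 816) (T.l 880))) (T.b (T.b (T.l 0) (T.l 0)) (T.a (T.l 816) (T.l 816)))) (T.a (T.a (T.b (T.b (T.l 816) (T.l 816)) (T.b (T.b (T.l 816) (T.l 880)) (T.a (T.b (T.l 816) (T.l 816)) (T.l 816)))) (T.b (T.b (T.l 816) (T.l 816)) (T.b (T.l 880) (T.a (T.l 816) (T.l 816))))) (T.b (T.a (T.l 880) (T.l 880)) (T.a (T.b (T.l 816) (T.b (T.l 816) (T.l 880))) (T.b (T.l 816) (T.b (T.l 816) (T.l 816))))))))) (T.a (T.b (T.b (T.a (T.b (T.l 204) (T.l 204)) (T.b (T.l 204) (T.l 204))) (T.b (T.a (T.l 204) (T.l 256)) (T.a (T.l 0) (T.l 0)))) (T.b (T.b (T.a (T.l 64) (T.l 0)) (T.a (T.b (T.l 0) (T.l 816)) (T.b (T.l 0) (T.l 816))))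 (T.b (T.a (T.b (T.l 880) (T.b (T.l 816) (T.l 816))) (T.b (T.l 816) (T.l 816))) (T.a (T.a (T.b (T.l 816) (T.l 816)) (T.b (T.l 816) (T.l 816))) (T.a (T.l 880) (T.l 816)))))) (T.b (T.b (T.b (T.b (T.l 204) (T.l 204)) (T.a (T.l 204) (T.l 0))) (T.b (T.a (T.l 0) (T.l 0)) (T.a (T.l 0) (T.l 0)))) (T.b (T.b (T.a (T.l 0) (T.l 0)) (T.a (T.l 64) (T.l 0))) (T.b (T.a (T.b (T.l 816) (T.l 816)) (T.b (T.l 816) (T.l 816))) (T.a (T.b (T.l 816) (T.l 816)) (T.b (T.l 816) (T.l 816)))))))), by decide +kernel⟩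

def B022E_010 :
    ∃ t, chk3 (onCell 0 33554432 0 1073741824 33554432 16777216 (corTK [] false 3 c0N cB022E gN0q0 gN1q2 gN0q2 gN1q2 true true)) t 1 1 1 = true :=
  ⟨(T.l 2), by decide +kernel⟩

def B022E_011 :
    ∃ t, chk3 (onCell 0 33554432 0 1073741824 33554432 16777216 (corTK [] false 3 c0N cB022E gN0q0 gN1q2 gN1q2 gN2q2 true true)) t 1 1 1 = true :=
  ⟨(T.l 2), by decide +kernel⟩

def B022E_012 :
    ∃ t, chk3 (onCell 0 33554432 0 1073741824 33554432 16777216 (corTK [] false 3 c0N cB022E gN0q0 gN1q2 gN2q2 gN3q2 true false)) t 1 1 1 = true :=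
  ⟨(T.a (T.b (T.a (T.a (T.l 0) (T.b (T.a (T.b (T.l 204) (T.l 0)) (T.b (T.l 204) (T.l 0))) (T.a (T.b (T.l 0) (T.l 816)) (T.b (T.l 0) (T.l 0))))) (T.b (T.a (T.a (T.b (T.l 204) (T.l 204)) (T.l 204)) (T.b (T.l 204) (T.l 204))) (T.a (T.b (T.l 0) (T.l 4)) (T.b (T.l 0) (T.b (T.l 0) (T.l 0)))))) (T.a (T.a (T.b (T.l 816) (T.b (T.l 816) (T.b (T.l 816) (T.l 816)))) (T.b (T.a (T.l 816) (T.l 816)) (T.a (T.b (T.l 816) (T.b (T.l 816) (T.l 816))) (T.b (T.l 816) (T.b (T.l 820) (T.a (T.l 816) (T.b (T.l 816) (T.b (T.l 816) (T.l 816))))))))) (T.b (T.a (T.b (T.b (T.l 0) (T.l 0)) (T.a (T.l 816) (T.b (T.l 816) (T.l 816)))) (T.b (T.b (T.l 0) (T.l 0)) (T.b (T.l 816) (T.l 820)))) (T.a (T.b (T.a (T.b (T.l 816) (T.l 820)) (T.b (T.l 816) (T.l 816))) (T.a (T.b (T.a (T.l 816) (T.l 816)) (T.a (T.b (T.l 816) (T.l 816)) (T.b (T.l 816) (T.l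 816)))) (T.b (T.l 820) (T.a (T.l 816) (T.l 816))))) (T.b (T.a (T.l 820) (T.l 820)) (T.a (T.b (T.l 816) (T.a (T.l 816) (T.l 816))) (T.b (T.l 816) (T.b (T.l 816) (T.l 816))))))))) (T.b (T.b (T.b (T.a (T.a (T.l 204) (T.l 204)) (T.l 204)) (T.a (T.b (T.l 0) (T.l 0)) (T.b (T.l 204) (T.l 0)))) (T.a (T.b (T.a (T.l 204) (T.l 0)) (T.b (T.l 0) (T.l 0))) (T.b (T.b (T.l 0) (T.l 0)) (T.b (T.l 0) (T.l 0))))) (T.b (T.a (T.b (T.a (T.l 4) (T.l 0)) (T.a (T.b (T.l 816) (T.l 816)) (T.b (T.l 816) (T.l 816)))) (T.b (T.b (T.l 4) (T.l 0)) (T.a (T.l 884) (T.l 820)))) (T.b (T.a (T.a (T.b (T.l 820) (T.l 820)) (T.b (T.l 816) (T.l 816))) (T.b (T.b (T.l 816) (T.l 820)) (T.a (T.l 816) (T.l 816)))) (T.a (T.a (T.b (T.b (T.l 816) (T.l 816)) (T.a (T.b (T.l 816) (T.l 816)) (T.l 816))) (T.b (T.l 820) (T.a (T.l 816) (T.l 816)))) (T.a (T.b (T.l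 816) (T.b (T.l 816) (T.l 816))) (T.b (T.l 816) (T.b (T.l 816) (T.l 816))))))))), by decide +kernel⟩

def B022E_020 :
    ∃ t, chk3 (onCell 0 33554432 0 1073741824 33554432 16777216 (corTK [[⟨0, 0, 1, 25165824⟩, ⟨1, 1, 0, 16777216⟩, ⟨2, 1, 1, 25165824⟩, ⟨0, 0, 0, 67108864⟩, ⟨0, 1, 0, 1056964608⟩, ⟨2, 1, 0, 67108864⟩, ⟨2, 2, 0, 1056964608⟩]] false 3 c0N cB022E gN0q0 gN2q2 gN0q2 gN1q2 true true)) t 1 1 1 = true :=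
  ⟨(T.b (T.l 2) (T.b (T.l 2) (T.b (T.l 2) (T.b (T.l 2) (T.b (T.l 2) (T.b (T.l 2) (T.b (T.l 2) (T.b (T.l 2) (T.a (T.c (T.b (T.l 2) (T.a (T.a (T.l 816) (T.c (T.a (T.l 816) (T.a (T.l 816) (T.l 816))) (T.a (T.l 816) (T.l 816)))) (T.c (T.b (T.l 2) (T.a (T.a (T.l 816) (T.a (T.l 816) (T.l 816))) (T.c (T.b (T.l 2) (T.a (T.a (T.l 816) (T.l 816)) (T.a (T.l 880) (T.a (T.l 880) (T.l 884))))) (T.b (T.l 2) (T.a (T.a (T.l 816) (T.l 816)) (T.a (T.l 880) (T.a (T.l 880) (T.l 884)))))))) (T.b (T.l 2) (T.a (T.a (T.l 816) (T.a (T.l 816) (T.l 816))) (T.c (T.b (T.l 2) (T.a (T.a (T.l 816) (T.l 816)) (T.a (T.l 880) (T.a (T.l 816) (T.l 884))))) (T.b (T.l 2) (T.a (T.a (T.l 816) (T.l 816)) (T.a (T.l 816) (T.a (T.l 816) (T.l 884))))))))))) (T.b (T.l 2) (T.a (T.a (T.l 816) (T.a (T.l 816) (T.c (T.l 816) (T.l 816)))) (T.c (T.b (T.l 2)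 (T.a (T.a (T.l 816) (T.l 816)) (T.c (T.b (T.l 2) (T.a (T.a (T.l 816) (T.l 816)) (T.a (T.l 816) (T.a (T.l 816) (T.l 884))))) (T.b (T.l 2) (T.a (T.a (T.l 816) (T.l 816)) (T.a (T.l 816) (T.a (T.l 816) (T.l 816)))))))) (T.b (T.l 2) (T.a (T.a (T.l 816) (T.l 816)) (T.c (T.b (T.l 2) (T.a (T.a (T.l 816) (T.l 816)) (T.a (T.l 816) (T.a (T.l 816) (T.l 816))))) (T.b (T.l 2) (T.a (T.a (T.l 816) (T.l 816)) (T.a (T.l 816) (T.l 884))))))))))) (T.c (T.a (T.a (T.a (T.b (T.l 2) (T.a (T.c (T.b (T.l 2) (T.a (T.c (T.l 884) (T.l 884)) (T.l 1024))) (T.a (T.l 884) (T.l 1024))) (T.l 1024))) (T.l 1024)) (T.l 1024)) (T.l 1024)) (T.b (T.l 2) (T.a (T.c (T.b (T.l 2) (T.a (T.c (T.b (T.l 2) (T.a (T.c (T.a (T.l 884) (T.l 884)) (T.a (T.l 884) (T.l 884))) (T.a (T.a (T.l 884) (T.l 1024)) (T.l 1024)))) (T.b (T.l 2) (T.a (T.a (T.l 884) (T.l 884))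 (T.a (T.l 884) (T.l 884))))) (T.a (T.a (T.c (T.l 1024) (T.l 884)) (T.l 1024)) (T.l 1024)))) (T.b (T.l 2) (T.a (T.c (T.b (T.l 2) (T.a (T.a (T.l 884) (T.l 884)) (T.a (T.l 884) (T.l 884)))) (T.b (T.l 2) (T.a (T.a (T.l 884) (T.l 884)) (T.a (T.l 884) (T.l 884))))) (T.c (T.b (T.l 2) (T.a (T.a (T.l 884) (T.l 884)) (T.a (T.l 884) (T.l 1024)))) (T.b (T.l 2) (T.a (T.a (T.l 884) (T.l 884)) (T.a (T.l 884) (T.l 884)))))))) (T.a (T.a (T.c (T.l 1024) (T.a (T.c (T.l 1024) (T.l 884)) (T.l 1024))) (T.l 1024)) (T.l 1024)))))))))))))), by decide +kernel⟩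

def B022E_021 :
    ∃ t, chk3 (onCell 0 33554432 0 1073741824 33554432 16777216 (corTK [[⟨0, 0, 1, 25165824⟩, ⟨1, 1, 0, 16777216⟩, ⟨2, 1, 1, 25165824⟩, ⟨0, 0, 0, 67108864⟩, ⟨0, 1, 0, 1056964608⟩, ⟨2, 1, 0, 67108864⟩, ⟨2, 2, 0, 1056964608⟩]] false 3 c0N cB022E gN0q0 gN2q2 gN1q2 gN2q2 true true)) t 1 1 1 = true :=
  ⟨(T.b (T.a (T.a (T.a (T.l 0) (T.l 2)) (T.l 2)) (T.l 2)) (T.b (T.a (T.a (T.a (T.l 816) (T.l 2)) (T.l 2)) (T.l 2)) (T.b (T.a (T.a (T.a (T.l 816) (T.l 2)) (T.l 2)) (T.l 2)) (T.b (T.a (T.a (T.a (T.l 816) (T.l 2)) (T.l 2)) (T.l 2)) (T.b (T.a (T.a (T.a (T.l 816) (T.l 2)) (T.l 2)) (T.l 2)) (T.a (T.b (T.a (T.a (T.l 816) (T.l 2)) (T.l 2)) (T.a (T.a (T.l 816) (T.b (T.l 2) (T.b (T.l 2) (T.c (T.b (T.l 2) (T.c (T.a (T.l 816) (T.a (T.l 816) (T.l 816))) (T.a (T.l 816) (T.l 816)))) (T.a (T.l 816) (T.c (T.l 816)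 (T.l 816))))))) (T.b (T.l 2) (T.b (T.l 2) (T.c (T.b (T.l 2) (T.c (T.b (T.l 2) (T.a (T.a (T.l 816) (T.a (T.l 816) (T.l 816))) (T.c (T.b (T.l 2) (T.a (T.a (T.l 816) (T.l 816)) (T.a (T.l 880) (T.a (T.l 880) (T.l 884))))) (T.b (T.l 2) (T.a (T.a (T.l 816) (T.l 816)) (T.a (T.l 880) (T.a (T.l 880) (T.l 884)))))))) (T.b (T.l 2) (T.a (T.a (T.l 816) (T.a (T.l 816) (T.l 816))) (T.c (T.b (T.l 2) (T.a (T.a (T.l 816) (T.l 816)) (T.a (T.l 880) (T.a (T.l 816) (T.l 884))))) (T.b (T.l 2) (T.a (T.a (T.l 816) (T.l 816)) (T.a (T.l 816) (T.a (T.l 816) (T.l 884)))))))))) (T.b (T.l 2) (T.c (T.b (T.l 2) (T.a (T.a (T.l 816) (T.l 816)) (T.c (T.b (T.l 2) (T.a (T.a (T.l 816) (T.l 816)) (T.a (T.l 816) (T.a (T.l 816) (T.l 884))))) (T.b (T.l 2) (T.a (T.a (T.l 816) (T.l 816)) (T.a (T.l 816) (T.a (T.l 816) (T.l 816)))))))) (T.b (T.l 2) (T.a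 (T.a (T.l 816) (T.l 816)) (T.c (T.b (T.l 2) (T.a (T.a (T.l 816) (T.l 816)) (T.a (T.l 816) (T.a (T.l 816) (T.l 816))))) (T.b (T.l 2) (T.a (T.a (T.l 816) (T.l 816)) (T.a (T.l 816) (T.l 884)))))))))))))) (T.b (T.l 2) (T.b (T.l 2) (T.b (T.l 2) (T.c (T.a (T.a (T.a (T.b (T.l 2) (T.a (T.c (T.b (T.l 2) (T.a (T.c (T.l 884) (T.l 884)) (T.l 1024))) (T.a (T.l 884) (T.l 1024))) (T.l 1024))) (T.l 1024)) (T.l 1024)) (T.l 1024)) (T.b (T.l 2) (T.a (T.c (T.b (T.l 2) (T.a (T.c (T.b (T.l 2) (T.a (T.c (T.a (T.l 884) (T.l 884)) (T.a (T.l 884) (T.l 884))) (T.a (T.a (T.l 884) (T.l 1024)) (T.l 1024)))) (T.b (T.l 2) (T.a (T.a (T.l 884) (T.l 884)) (T.a (T.l 884) (T.l 884))))) (T.a (T.a (T.c (T.l 1024) (T.l 884)) (T.l 1024)) (T.l 1024)))) (T.b (T.l 2) (T.a (T.c (T.b (T.l 2) (T.a (T.a (T.l 884) (T.l 884)) (T.a (T.l 884) (T.l 884))))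 (T.b (T.l 2) (T.a (T.a (T.l 884) (T.l 884)) (T.a (T.l 884) (T.l 884))))) (T.c (T.b (T.l 2) (T.a (T.a (T.l 884) (T.l 884)) (T.a (T.l 884) (T.l 1024)))) (T.b (T.l 2) (T.a (T.a (T.l 884) (T.l 884)) (T.a (T.l 884) (T.l 884)))))))) (T.a (T.a (T.c (T.l 1024) (T.a (T.c (T.l 1024) (T.l 884)) (T.l 1024))) (T.l 1024)) (T.l 1024)))))))))))))), by decide +kernel⟩

def B022E_022 :
    ∃ t, chk3 (onCell 0 33554432 0 1073741824 33554432 16777216 (corTK [[⟨0, 0, 1, 25165824⟩, ⟨1, 1, 0, 16777216⟩, ⟨2, 1, 1, 25165824⟩, ⟨0, 0, 0, 67108864⟩, ⟨0, 1, 0, 1056964608⟩, ⟨2, 1, 0, 67108864⟩, ⟨2, 2, 0, 1056964608⟩]] false 3 c0N cB022E gN0q0 gN2q2 gN2q2 gN3q2 true false)) t 1 1 1 = true :=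
  ⟨(T.b (T.b (T.a (T.a (T.a (T.l 204) (T.a (T.b (T.b (T.l 204) (T.l 204)) (T.l 16)) (T.b (T.l 204) (T.l 204)))) (T.a (T.a (T.b (T.l 204) (T.l 204)) (T.l 204)) (T.b (T.b (T.l 204) (T.l 204)) (T.l 204)))) (T.a (T.b (T.a (T.l 204) (T.l 204)) (T.b (T.l 16) (T.l 0))) (T.b (T.b (T.l 204) (T.l 204)) (T.b (T.l 204) (T.l 16))))) (T.a (T.a (T.a (T.l 0) (T.a (T.b (T.l 0) (T.l 0)) (T.b (T.l 0) (T.l 0)))) (T.b (T.a (T.l 0) (T.l 0)) (T.a (T.l 0) (T.b (T.l 0) (T.l 0))))) (T.b (T.a (T.a (T.l 0) (T.b (T.l 0) (T.l 0))) (T.b (T.l 0) (T.l 0))) (T.a (T.a (T.l 4) (T.l 0)) (T.b (T.l 20) (T.b (T.l 0) (T.l 0))))))) (T.b (T.a (T.b (T.a (T.a (T.l 816) (T.l 0)) (T.a (T.l 4) (T.b (T.l 0) (T.l 816)))) (T.a (T.a (T.l 816) (T.c (T.l 816) (T.l 816))) (T.b (T.a (T.b (T.l 816) (T.l 820)) (T.l 820)) (T.a (T.b (T.l 816) (T.l 820)) (T.b (T.l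 816) (T.l 816)))))) (T.b (T.a (T.a (T.b (T.l 816) (T.l 816)) (T.b (T.l 816) (T.l 816))) (T.b (T.b (T.l 0) (T.l 816)) (T.l 820))) (T.a (T.a (T.b (T.l 816) (T.b (T.l 816) (T.l 816))) (T.b (T.l 816) (T.l 816))) (T.b (T.b (T.l 816) (T.l 816)) (T.b (T.l 820) (T.l 820)))))) (T.b (T.a (T.b (T.a (T.a (T.l 816) (T.c (T.l 816) (T.l 816))) (T.a (T.a (T.l 816) (T.l 816)) (T.b (T.l 816) (T.l 820)))) (T.a (T.a (T.l 816) (T.a (T.l 816) (T.l 816))) (T.b (T.a (T.a (T.l 816) (T.l 816)) (T.b (T.l 816) (T.l 820))) (T.a (T.a (T.l 816) (T.l 816)) (T.a (T.l 816) (T.l 816)))))) (T.b (T.a (T.a (T.b (T.l 816) (T.l 820)) (T.b (T.l 816) (T.l 816))) (T.a (T.l 820) (T.l 820))) (T.a (T.a (T.a (T.l 820) (T.l 816)) (T.b (T.l 820) (T.l 820))) (T.c (T.l 1024) (T.a (T.l 820) (T.l 820)))))) (T.b (T.a (T.a (T.a (T.l 816) (T.a (T.l 816) (T.l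 816))) (T.b (T.a (T.a (T.l 816) (T.l 816)) (T.a (T.l 816) (T.l 816))) (T.b (T.a (T.a (T.l 816) (T.l 816)) (T.a (T.l 816) (T.l 816))) (T.a (T.a (T.l 816) (T.l 816)) (T.a (T.l 816) (T.l 820)))))) (T.b (T.a (T.a (T.a (T.l 816) (T.l 816)) (T.b (T.l 816) (T.l 820))) (T.a (T.l 820) (T.l 1024))) (T.a (T.a (T.a (T.l 820) (T.l 820)) (T.a (T.l 820) (T.l 816))) (T.a (T.b (T.l 820) (T.l 820)) (T.l 1024))))) (T.b (T.a (T.a (T.a (T.l 816) (T.a (T.b (T.l 816) (T.l 880)) (T.l 816))) (T.b (T.a (T.a (T.l 816) (T.l 816)) (T.a (T.l 816) (T.b (T.l 820) (T.l 820)))) (T.a (T.a (T.l 880) (T.l 820)) (T.a (T.b (T.l 816) (T.l 820)) (T.a (T.l 816) (T.l 820)))))) (T.b (T.a (T.a (T.a (T.l 820) (T.l 820)) (T.a (T.l 816) (T.l 816))) (T.a (T.c (T.l 1024) (T.l 820)) (T.l 1024))) (T.a (T.a (T.a (T.c (T.l 820) (T.l 820)) (T.b (T.l 820) (T.l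 820))) (T.a (T.l 820) (T.l 820))) (T.a (T.a (T.l 820) (T.l 1024)) (T.l 1024))))) (T.a (T.b (T.a (T.a (T.l 816) (T.b (T.a (T.c (T.l 816) (T.l 816)) (T.l 816)) (T.c (T.a (T.l 816) (T.l 880)) (T.a (T.l 816) (T.l 816))))) (T.b (T.a (T.a (T.l 880) (T.l 884)) (T.a (T.c (T.l 820) (T.l 816)) (T.a (T.l 816) (T.l 820)))) (T.a (T.a (T.c (T.l 816) (T.l 816)) (T.c (T.l 816) (T.l 816))) (T.c (T.a (T.c (T.l 820) (T.l 816)) (T.a (T.l 816) (T.l 820))) (T.a (T.l 884) (T.a (T.l 816) (T.l 816))))))) (T.a (T.a (T.l 816) (T.b (T.c (T.a (T.l 816) (T.c (T.l 816) (T.l 816))) (T.a (T.l 816) (T.l 880))) (T.c (T.b (T.a (T.l 880) (T.c (T.l 816) (T.l 816))) (T.a (T.c (T.l 816) (T.l 816)) (T.a (T.l 816) (T.l 816)))) (T.a (T.l 816) (T.c (T.l 880) (T.l 816)))))) (T.b (T.a (T.c (T.a (T.b (T.l 816) (T.l 816)) (T.b (T.l 816) (T.l 880))) (T.a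 (T.l 816) (T.l 816))) (T.c (T.b (T.a (T.c (T.l 884) (T.l 816)) (T.a (T.l 816) (T.l 820))) (T.a (T.a (T.l 816) (T.l 816)) (T.a (T.l 816) (T.c (T.l 820) (T.l 820))))) (T.a (T.a (T.l 816) (T.l 816)) (T.a (T.l 816) (T.l 820))))) (T.a (T.c (T.b (T.a (T.c (T.l 816) (T.l 816)) (T.c (T.l 880) (T.l 816))) (T.a (T.a (T.l 816) (T.l 816)) (T.a (T.l 816) (T.l 816)))) (T.b (T.a (T.l 816) (T.l 880)) (T.a (T.c (T.l 816) (T.l 816)) (T.c (T.l 880) (T.l 816))))) (T.c (T.b (T.a (T.a (T.l 816) (T.l 816)) (T.a (T.l 884) (T.a (T.l 816) (T.l 884)))) (T.a (T.a (T.l 816) (T.c (T.l 880) (T.l 816))) (T.c (T.a (T.a (T.l 816) (T.l 880)) (T.a (T.l 884) (T.a (T.l 884) (T.l 884)))) (T.a (T.b (T.l 816) (T.l 880)) (T.a (T.l 880) (T.b (T.l 820) (T.l 884))))))) (T.b (T.a (T.a (T.l 816) (T.l 816)) (T.a (T.l 816) (T.c (T.l 884) (T.l 820)))) (T.a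 (T.a (T.l 816) (T.l 816)) (T.c (T.a (T.l 880) (T.a (T.l 816) (T.l 884))) (T.a (T.l 816) (T.a (T.l 816) (T.l 884))))))))))) (T.b (T.a (T.b (T.a (T.a (T.c (T.l 820) (T.l 820)) (T.c (T.l 1024) (T.l 816))) (T.a (T.c (T.l 1024) (T.l 816)) (T.l 820))) (T.a (T.a (T.a (T.l 820) (T.l 820)) (T.c (T.l 1024) (T.l 820))) (T.c (T.l 1024) (T.a (T.l 820) (T.l 820))))) (T.a (T.a (T.c (T.l 1024) (T.l 820)) (T.l 1024)) (T.l 1024))) (T.a (T.b (T.a (T.c (T.a (T.a (T.l 884) (T.l 1024)) (T.l 1024)) (T.a (T.a (T.l 820) (T.l 820)) (T.a (T.l 820) (T.l 820)))) (T.c (T.l 1024) (T.a (T.a (T.l 820) (T.l 820)) (T.a (T.l 820) (T.l 820))))) (T.a (T.c (T.a (T.a (T.a (T.b (T.l 884) (T.c (T.c (T.l 884) (T.l 884)) (T.l 884))) (T.l 1024)) (T.l 1024)) (T.l 1024)) (T.b (T.a (T.a (T.c (T.l 820) (T.l 820)) (T.l 884)) (T.a (T.l 884) (T.l 884))) (T.a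 (T.c (T.a (T.a (T.l 884) (T.l 884)) (T.a (T.l 884) (T.l 884))) (T.a (T.c (T.l 884) (T.l 884)) (T.c (T.l 884) (T.l 884)))) (T.c (T.a (T.a (T.l 884) (T.l 884)) (T.a (T.l 884) (T.l 884))) (T.a (T.c (T.l 884) (T.l 884)) (T.c (T.l 884) (T.l 884))))))) (T.c (T.l 1024) (T.b (T.a (T.a (T.l 884) (T.l 884)) (T.a (T.l 884) (T.l 884))) (T.a (T.c (T.a (T.a (T.l 884) (T.l 1024)) (T.l 1024)) (T.a (T.a (T.l 884) (T.l 884)) (T.a (T.l 884) (T.l 884)))) (T.c (T.l 1024) (T.a (T.a (T.l 884) (T.l 884)) (T.c (T.l 1024) (T.l 884))))))))) (T.a (T.c (T.l 1024) (T.a (T.a (T.b (T.l 820) (T.c (T.l 1024) (T.a (T.l 884) (T.l 1024)))) (T.l 1024)) (T.l 1024))) (T.l 1024)))))))))), by decide +kernel⟩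

def B022E_100 :
    ∃ t, chk3 (onCell 0 33554432 0 1073741824 33554432 16777216 (corTK [] false 3 c0N cB022E gN1q0 gN0q2 gN0q2 gN1q2 true true)) t 1 1 1 = true :=
  ⟨(T.l 2), by decide +kernel⟩

def B022E_101 :
    ∃ t, chk3 (onCell 0 33554432 0 1073741824 33554432 16777216 (corTK [] false 3 c0N cB022E gN1q0 gN0q2 gN1q2 gN2q2 true true)) t 1 1 1 = true :=
  ⟨(T.l 2), by decide +kernel⟩

def B022E_102 :
    ∃ t, chk3 (onCell 0 33554432 0 1073741824 33554432 16777216 (corTK [] false 3 c0N cB022E gN1q0 gN0q2 gN2q2 gN3q2 true false)) t 1 1 1 = true :=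
  ⟨(T.b (T.a (T.a (T.a (T.l 204) (T.b (T.b (T.a (T.l 204) (T.l 204)) (T.l 0)) (T.l 0))) (T.b (T.b (T.a (T.c (T.l 204) (T.l 204)) (T.l 204)) (T.l 0)) (T.l 0))) (T.b (T.b (T.a (T.a (T.l 204) (T.l 204)) (T.b (T.l 204) (T.l 204))) (T.l 272)) (T.b (T.l 0) (T.l 0)))) (T.b (T.a (T.a (T.a (T.l 204) (T.l 0)) (T.l 0)) (T.b (T.l 0) (T.l 0))) (T.b (T.a (T.a (T.a (T.l 204) (T.l 0)) (T.l 0)) (T.l 0)) (T.a (T.a (T.a (T.l 204) (T.l 0)) (T.l 0)) (T.l 0))))), by decide +kernel⟩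

def B022E_110 :
    ∃ t, chk3 (onCell 0 33554432 0 1073741824 33554432 16777216 (corTK [] false 3 c0N cB022E gN1q0 gN1q2 gN0q2 gN1q2 true true)) t 1 1 1 = true :=
  ⟨(T.l 2), by decide +kernel⟩

def B022E_111 :
    ∃ t, chk3 (onCell 0 33554432 0 1073741824 33554432 16777216 (corTK [] false 3 c0N cB022E gN1q0 gN1q2 gN1q2 gN2q2 true true)) t 1 1 1 = true :=
  ⟨(T.l 2), by decide +kernel⟩

def B022E_112 :
    ∃ t, chk3 (onCell 0 33554432 0 1073741824 33554432 16777216 (corTK [] false 3 c0N cB022E gN1q0 gN1q2 gN2q2 gN3q2 true false)) t 1 1 1 = true :=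
  ⟨(T.b (T.a (T.a (T.a (T.l 204) (T.b (T.b (T.a (T.l 204) (T.l 204)) (T.l 0)) (T.l 0))) (T.b (T.b (T.a (T.b (T.l 204) (T.l 204)) (T.l 204)) (T.l 0)) (T.l 0))) (T.b (T.b (T.a (T.a (T.l 204) (T.l 204)) (T.l 204)) (T.l 0)) (T.l 0))) (T.b (T.a (T.a (T.a (T.l 204) (T.l 204)) (T.l 0)) (T.b (T.l 0) (T.l 0))) (T.b (T.a (T.a (T.a (T.l 204) (T.l 204)) (T.l 204)) (T.l 0)) (T.a (T.a (T.a (T.l 204) (T.l 204)) (T.l 204)) (T.l 204))))), by decide +kernel⟩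

def B022E_120 :
    ∃ t, chk3 (onCell 0 33554432 0 1073741824 33554432 16777216 (corTK [] false 3 c0N cB022E gN1q0 gN2q2 gN0q2 gN1q2 true true)) t 1 1 1 = true :=
  ⟨(T.l 2), by decide +kernel⟩

def B022E_121 :
    ∃ t, chk3 (onCell 0 33554432 0 1073741824 33554432 16777216 (corTK [] false 3 c0N cB022E gN1q0 gN2q2 gN1q2 gN2q2 true true)) t 1 1 1 = true :=
  ⟨(T.b (T.b (T.b (T.b (T.b (T.a (T.b (T.a (T.a (T.l 204) (T.l 2)) (T.l 2)) (T.l 2)) (T.l 2)) (T.l 2)) (T.l 2)) (T.l 2)) (T.l 2)) (T.l 2)), by decide +kernel⟩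

def B022E_122 :
    ∃ t, chk3 (onCell 0 33554432 0 1073741824 33554432 16777216 (corTK [] false 3 c0N cB022E gN1q0 gN2q2 gN2q2 gN3q2 true false)) t 1 1 1 = true :=
  ⟨(T.b (T.b (T.a (T.a (T.a (T.l 204) (T.b (T.a (T.b (T.l 204) (T.l 204)) (T.l 204)) (T.l 0))) (T.b (T.b (T.a (T.l 204) (T.l 204)) (T.l 204)) (T.l 204))) (T.b (T.b (T.a (T.b (T.l 204) (T.l 204)) (T.l 204)) (T.l 0)) (T.l 0))) (T.a (T.a (T.a (T.l 204) (T.l 0)) (T.l 0)) (T.l 0))) (T.b (T.a (T.a (T.a (T.l 204) (T.l 204)) (T.l 0)) (T.l 0)) (T.b (T.a (T.a (T.a (T.l 204) (T.l 204)) (T.l 204)) (T.l 0)) (T.a (T.a (T.a (T.l 204) (T.l 204)) (T.l 204)) (T.l 204))))), by decide +kernel⟩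

def B022E_200 :
    ∃ t, chk3 (onCell 0 33554432 0 1073741824 33554432 16777216 (corTK [] false 3 c0N cB022E gN2q0 gN0q2 gN0q2 gN1q2 true true)) t 1 1 1 = true :=
  ⟨(T.l 2), by decide +kernel⟩

def B022E_201 :
    ∃ t, chk3 (onCell 0 33554432 0 1073741824 33554432 16777216 (corTK [] false 3 c0N cB022E gN2q0 gN0q2 gN1q2 gN2q2 true true)) t 1 1 1 = true :=
  ⟨(T.l 2), by decide +kernel⟩

def B022E_202 :
    ∃ t, chk3 (onCell 0 33554432 0 1073741824 33554432 16777216 (corTK [] false 3 c0N cB022E gN2q0 gN0q2 gN2q2 gN3q2 true false)) t 1 1 1 = true :=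
  ⟨(T.b (T.a (T.a (T.a (T.l 204) (T.b (T.b (T.a (T.l 204) (T.l 204)) (T.l 0)) (T.l 0))) (T.b (T.b (T.a (T.c (T.l 220) (T.l 204)) (T.l 204)) (T.l 0)) (T.l 0))) (T.b (T.b (T.a (T.a (T.l 204) (T.l 204)) (T.b (T.l 204) (T.l 204))) (T.l 0)) (T.l 0))) (T.b (T.a (T.a (T.a (T.l 204) (T.l 0)) (T.l 0)) (T.l 0)) (T.b (T.a (T.a (T.a (T.l 204) (T.l 0)) (T.l 0)) (T.l 0)) (T.a (T.a (T.a (T.l 204) (T.l 204)) (T.l 204)) (T.l 0))))), by decide +kernel⟩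

def B022E_210 :
    ∃ t, chk3 (onCell 0 33554432 0 1073741824 33554432 16777216 (corTK [] false 3 c0N cB022E gN2q0 gN1q2 gN0q2 gN1q2 true true)) t 1 1 1 = true :=
  ⟨(T.l 2), by decide +kernel⟩

def B022E_211 :
    ∃ t, chk3 (onCell 0 33554432 0 1073741824 33554432 16777216 (corTK [] false 3 c0N cB022E gN2q0 gN1q2 gN1q2 gN2q2 true true)) t 1 1 1 = true :=
  ⟨(T.l 2), by decide +kernel⟩

def B022E_212 :
    ∃ t, chk3 (onCell 0 33554432 0 1073741824 33554432 16777216 (corTK [] false 3 c0N cB022E gN2q0 gN1q2 gN2q2 gN3q2 true false)) t 1 1 1 = true :=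
  ⟨(T.b (T.a (T.a (T.a (T.l 204) (T.b (T.b (T.a (T.l 204) (T.l 204)) (T.l 0)) (T.l 0))) (T.b (T.b (T.a (T.b (T.l 204) (T.l 204)) (T.l 220)) (T.l 0)) (T.l 0))) (T.b (T.b (T.a (T.a (T.l 204) (T.l 204)) (T.l 220)) (T.l 0)) (T.l 0))) (T.b (T.a (T.a (T.a (T.l 204) (T.l 204)) (T.l 0)) (T.l 0)) (T.b (T.a (T.a (T.a (T.l 204) (T.l 204)) (T.l 204)) (T.l 0)) (T.a (T.a (T.a (T.l 204) (T.l 204)) (T.l 204)) (T.l 204))))), by decide +kernel⟩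

def B022E_220 :
    ∃ t, chk3 (onCell 0 33554432 0 1073741824 33554432 16777216 (corTK [] false 3 c0N cB022E gN2q0 gN2q2 gN0q2 gN1q2 true true)) t 1 1 1 = true :=
  ⟨(T.l 2), by decide +kernel⟩

def B022E_221 :
    ∃ t, chk3 (onCell 0 33554432 0 1073741824 33554432 16777216 (corTK [] false 3 c0N cB022E gN2q0 gN2q2 gN1q2 gN2q2 true true)) t 1 1 1 = true :=
  ⟨(T.b (T.b (T.b (T.b (T.b (T.a (T.b (T.a (T.a (T.l 204) (T.l 2)) (T.l 2)) (T.l 2)) (T.l 2)) (T.l 2)) (T.l 2)) (T.l 2)) (T.l 2)) (T.l 2)), by decide +kernel⟩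

def B022E_222 :
    ∃ t, chk3 (onCell 0 33554432 0 1073741824 33554432 16777216 (corTK [] false 3 c0N cB022E gN2q0 gN2q2 gN2q2 gN3q2 true false)) t 1 1 1 = true :=
  ⟨(T.b (T.b (T.a (T.a (T.a (T.l 204) (T.b (T.a (T.b (T.l 204) (T.l 204)) (T.l 204)) (T.l 204))) (T.b (T.b (T.a (T.l 204) (T.l 204)) (T.l 204)) (T.l 204))) (T.b (T.b (T.a (T.b (T.l 204) (T.l 204)) (T.l 204)) (T.l 0)) (T.l 0))) (T.a (T.a (T.a (T.l 204) (T.l 0)) (T.l 0)) (T.l 0))) (T.b (T.a (T.a (T.a (T.l 204) (T.l 204)) (T.l 0)) (T.l 0)) (T.b (T.a (T.a (T.a (T.l 204) (T.l 204)) (T.l 204)) (T.l 0)) (T.a (T.a (T.a (T.l 204) (T.l 204)) (T.l 204)) (T.l 204))))), by decide +kernel⟩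

end Pool.Agent.Strip051.G.I1_32_3_64.Tab.CN
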