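import Pool.Agent.Strip051.G.I1_32_3_64.CrnB
import Pool.Agent.Strip051.G.I1_32_3_64.CN_10
import Pool.Agent.Strip051.G.I1_32_3_64.CN_11
import Pool.Agent.Strip051.G.I1_32_3_64.CN_12
import Pool.Agent.Strip051.G.I1_32_3_64.CN_8
import Pool.Agent.Strip051.G.I1_32_3_64.CN_9
import Pool.Agent.Strip051.G.I1_32_3_64.MolT

/-! # Aligned corners: the alternatives (generated) -/

set_option linter.all false

namespace Pool.Agent.Strip051.G.I1_32_3_64.Tab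

open Pool.Agent.Strip051.PB Pool.Agent.StripNear Pool.Agent.Strip051.LC

theorem altN_B012E_02 {κ x : ℝ} (hκ : κ * h0 = ken x) (hx : ((33554432 : ℕ) : ℝ) / S ≤ x) (hx' : x ≤ (((33554432 : ℕ) : ℝ) + (16777216 : ℕ)) / S) :
    AltB (VN 3 κ) PP tKN tL pcN [⟨0, 0, 0, 33554432⟩, ⟨1, 1, 0, 33554432⟩, ⟨2, 1, 0, 33554432⟩] 0 1 2 0 2 (sgb true) (sgb true) x := by
  have X : XR 33554432 x := XR.of hx hx' (by norm_num) (by norm_num) (by norm_num) (by norm_num)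
  refine (cornK_of [[⟨0, 0, 1, 25165824⟩, ⟨1, 1, 0, 16777216⟩, ⟨2, 1, 1, 25165824⟩, ⟨0, 0, 0, 67108864⟩, ⟨0, 1, 0, 1056964608⟩, ⟨2, 1, 0, 67108864⟩, ⟨2, 2, 0, 1056964608⟩]] (C := cB012E) (C0 := c0N) (j := (0 : Fin 5)) (k := (2 : Fin 5)) (lo := 0) (hi := 0) (W := 33554432) (N0 := 3) cB012E_q (sideN hx hx') gokN X (by norm_num) (by norm_num) (l := (0 : Fin 5)) rfl
    (gatN00 x) (gatN22 x) (gatN01 x) ?_).altNB rfl hκ le_rfl ?_
  · intro ρ a B hρ hd i h1 h2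
    fin_cases i
    · exact corTK_cert (G1 := gN0q0) (G2 := gN2q2) (Ga := gN0q1) (Gb := gN1q1) cB012E_ok B hρ (gatN00 x) (gatN22 x) (fun _ => gatN01 x) (fun h => absurd h (by decide)) hd hx hx' CN.B012E_020
    · exact absurd h2 (by norm_num)
    · exact absurd h2 (by norm_num)
    · exact absurd h2 (by norm_num)
  · intro l hl
    simp only [List.mem_cons, List.not_mem_nil, or_false] at hl
    rcases hl with rfl
    · exact Mo.molN_B_012_02_4 hκ hx hx'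

theorem altN_B012E_10 {κ x : ℝ} (hκ : κ * h0 = ken x) (hx : ((33554432 : ℕ) : ℝ) / S ≤ x) (hx' : x ≤ (((33554432 : ℕ) : ℝ) + (16777216 : ℕ)) / S) :
    AltB (VN 3 κ) PP tKN tL pcN [⟨0, 0, 0, 33554432⟩, ⟨1, 1, 0, 33554432⟩, ⟨2, 1, 0, 33554432⟩] 0 1 2 1 0 (sgb true) (sgb true) x := by
  have X : XR 33554432 x := XR.of hx hx' (by norm_num) (by norm_num) (by norm_num) (by norm_num)
  refine (cornK_of [] (C := cB012E) (C0 := c0N) (j := (1 : Fin 5)) (k := (0 : Fin 5)) (lo := 0) (hi := 0) (W := 33554432) (N0 := 3) cB012E_q (sideN hx hx') gokN X (by norm_num) (by norm_num) (l := (0 : Fin 5)) rfl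
    (gatN10 x) (gatN02 x) (gatN01 x) ?_).altNB rfl hκ le_rfl ?_
  · intro ρ a B hρ hd i h1 h2
    fin_cases i
    · exact corTK_cert (G1 := gN1q0) (G2 := gN0q2) (Ga := gN0q1) (Gb := gN1q1) cB012E_ok B hρ (gatN10 x) (gatN02 x) (fun _ => gatN01 x) (fun h => absurd h (by decide)) hd hx hx' CN.B012E_100
    · exact absurd h2 (by norm_num)
    · exact absurd h2 (by norm_num)
    · exact absurd h2 (by norm_num)
  · exact fun l hl => absurd hl List.not_mem_nil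

theorem altN_B012E_11 {κ x : ℝ} (hκ : κ * h0 = ken x) (hx : ((33554432 : ℕ) : ℝ) / S ≤ x) (hx' : x ≤ (((33554432 : ℕ) : ℝ) + (16777216 : ℕ)) / S) :
    AltB (VN 3 κ) PP tKN tL pcN [⟨0, 0, 0, 33554432⟩, ⟨1, 1, 0, 33554432⟩, ⟨2, 1, 0, 33554432⟩] 0 1 2 1 1 (sgb true) (sgb true) x := by
  have X : XR 33554432 x := XR.of hx hx' (by norm_num) (by norm_num) (by norm_num) (by norm_num)
  refine (cornK_of [] (C := cB012E) (C0 := c0N) (j := (1 : Fin 5)) (k := (1 : Fin 5)) (lo := 0) (hi := 0) (W := 33554432) (N0 := 3) cB012E_q (sideN hx hx') gokN X (by norm_num) (by norm_num) (l := (0 : Fin 5)) rfl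
    (gatN10 x) (gatN12 x) (gatN01 x) ?_).altNB rfl hκ le_rfl ?_
  · intro ρ a B hρ hd i h1 h2
    fin_cases i
    · exact corTK_cert (G1 := gN1q0) (G2 := gN1q2) (Ga := gN0q1) (Gb := gN1q1) cB012E_ok B hρ (gatN10 x) (gatN12 x) (fun _ => gatN01 x) (fun h => absurd h (by decide)) hd hx hx' CN.B012E_110
    · exact absurd h2 (by norm_num)
    · exact absurd h2 (by norm_num)
    · exact absurd h2 (by norm_num)
  · exact fun l hl => absurd hl List.not_mem_nil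

theorem altN_B012E_12 {κ x : ℝ} (hκ : κ * h0 = ken x) (hx : ((33554432 : ℕ) : ℝ) / S ≤ x) (hx' : x ≤ (((33554432 : ℕ) : ℝ) + (16777216 : ℕ)) / S) :
    AltB (VN 3 κ) PP tKN tL pcN [⟨0, 0, 0, 33554432⟩, ⟨1, 1, 0, 33554432⟩, ⟨2, 1, 0, 33554432⟩] 0 1 2 1 2 (sgb true) (sgb true) x := by
  have X : XR 33554432 x := XR.of hx hx' (by norm_num) (by norm_num) (by norm_num) (by norm_num)
  refine (cornK_of [] (C := cB012E) (C0 := c0N) (j := (1 : Fin 5)) (k := (2 : Fin 5)) (lo := 0) (hi := 0) (W := 33554432) (N0 := 3) cB012E_q (sideN hx hx') gokN X (by norm_num) (by norm_num) (l := (0 : Fin 5)) rfl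
    (gatN10 x) (gatN22 x) (gatN01 x) ?_).altNB rfl hκ le_rfl ?_
  · intro ρ a B hρ hd i h1 h2
    fin_cases i
    · exact corTK_cert (G1 := gN1q0) (G2 := gN2q2) (Ga := gN0q1) (Gb := gN1q1) cB012E_ok B hρ (gatN10 x) (gatN22 x) (fun _ => gatN01 x) (fun h => absurd h (by decide)) hd hx hx' CN.B012E_120
    · exact absurd h2 (by norm_num)
    · exact absurd h2 (by norm_num)
    · exact absurd h2 (by norm_num)
  · exact fun l hl => absurd hl List.not_mem_nil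

theorem altN_B012E_20 {κ x : ℝ} (hκ : κ * h0 = ken x) (hx : ((33554432 : ℕ) : ℝ) / S ≤ x) (hx' : x ≤ (((33554432 : ℕ) : ℝ) + (16777216 : ℕ)) / S) :
    AltB (VN 3 κ) PP tKN tL pcN [⟨0, 0, 0, 33554432⟩, ⟨1, 1, 0, 33554432⟩, ⟨2, 1, 0, 33554432⟩] 0 1 2 2 0 (sgb true) (sgb true) x := by
  have X : XR 33554432 x := XR.of hx hx' (by norm_num) (by norm_num) (by norm_num) (by norm_num)
  refine (cornK_of [] (C := cB012E) (C0 := c0N) (j := (2 : Fin 5)) (k := (0 : Fin 5)) (lo := 0) (hi := 0) (W := 33554432) (N0 := 3) cB012E_q (sideN hx hx') gokN X (by norm_num) (by norm_num) (l := (0 : Fin 5)) rfl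
    (gatN20 x) (gatN02 x) (gatN01 x) ?_).altNB rfl hκ le_rfl ?_
  · intro ρ a B hρ hd i h1 h2
    fin_cases i
    · exact corTK_cert (G1 := gN2q0) (G2 := gN0q2) (Ga := gN0q1) (Gb := gN1q1) cB012E_ok B hρ (gatN20 x) (gatN02 x) (fun _ => gatN01 x) (fun h => absurd h (by decide)) hd hx hx' CN.B012E_200
    · exact absurd h2 (by norm_num)
    · exact absurd h2 (by norm_num)
    · exact absurd h2 (by norm_num)
  · exact fun l hl => absurd hl List.not_mem_nil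

theorem altN_B012E_21 {κ x : ℝ} (hκ : κ * h0 = ken x) (hx : ((33554432 : ℕ) : ℝ) / S ≤ x) (hx' : x ≤ (((33554432 : ℕ) : ℝ) + (16777216 : ℕ)) / S) :
    AltB (VN 3 κ) PP tKN tL pcN [⟨0, 0, 0, 33554432⟩, ⟨1, 1, 0, 33554432⟩, ⟨2, 1, 0, 33554432⟩] 0 1 2 2 1 (sgb true) (sgb true) x := by
  have X : XR 33554432 x := XR.of hx hx' (by norm_num) (by norm_num) (by norm_num) (by norm_num)
  refine (cornK_of [] (C := cB012E) (C0 := c0N) (j := (2 : Fin 5)) (k := (1 : Fin 5)) (lo := 0) (hi := 0) (W := 33554432) (N0 := 3) cB012E_q (sideN hx hx') gokN X (by norm_num) (by norm_num) (l := (0 : Fin 5)) rfl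
    (gatN20 x) (gatN12 x) (gatN01 x) ?_).altNB rfl hκ le_rfl ?_
  · intro ρ a B hρ hd i h1 h2
    fin_cases i
    · exact corTK_cert (G1 := gN2q0) (G2 := gN1q2) (Ga := gN0q1) (Gb := gN1q1) cB012E_ok B hρ (gatN20 x) (gatN12 x) (fun _ => gatN01 x) (fun h => absurd h (by decide)) hd hx hx' CN.B012E_210
    · exact absurd h2 (by norm_num)
    · exact absurd h2 (by norm_num)
    · exact absurd h2 (by norm_num)
  · exact fun l hl => absurd hl List.not_mem_nil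

theorem altN_B012E_22 {κ x : ℝ} (hκ : κ * h0 = ken x) (hx : ((33554432 : ℕ) : ℝ) / S ≤ x) (hx' : x ≤ (((33554432 : ℕ) : ℝ) + (16777216 : ℕ)) / S) :
    AltB (VN 3 κ) PP tKN tL pcN [⟨0, 0, 0, 33554432⟩, ⟨1, 1, 0, 33554432⟩, ⟨2, 1, 0, 33554432⟩] 0 1 2 2 2 (sgb true) (sgb true) x := by
  have X : XR 33554432 x := XR.of hx hx' (by norm_num) (by norm_num) (by norm_num) (by norm_num)
  refine (cornK_of [] (C := cB012E) (C0 := c0N) (j := (2 : Fin 5)) (k := (2 : Fin 5)) (lo := 0) (hi := 0) (W := 33554432) (N0 := 3) cB012E_q (sideN hx hx') gokN X (by norm_num) (by norm_num) (l := (0 : Fin 5)) rfl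
    (gatN20 x) (gatN22 x) (gatN01 x) ?_).altNB rfl hκ le_rfl ?_
  · intro ρ a B hρ hd i h1 h2
    fin_cases i
    · exact corTK_cert (G1 := gN2q0) (G2 := gN2q2) (Ga := gN0q1) (Gb := gN1q1) cB012E_ok B hρ (gatN20 x) (gatN22 x) (fun _ => gatN01 x) (fun h => absurd h (by decide)) hd hx hx' CN.B012E_220
    · exact absurd h2 (by norm_num)
    · exact absurd h2 (by norm_num)
    · exact absurd h2 (by norm_num)
  · exact fun l hl => absurd hl List.not_mem_nil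

theorem altN_B012L_04 {κ x : ℝ} (hκ : κ * h0 = ken x) (hx : ((33554432 : ℕ) : ℝ) / S ≤ x) (hx' : x ≤ (((33554432 : ℕ) : ℝ) + (16777216 : ℕ)) / S) :
    AltB (VN 3 κ) PP tKN tL pcN [⟨0, 0, 0, 33554432⟩, ⟨1, 1, 0, 33554432⟩, ⟨2, 1, 0, 33554432⟩] 0 1 2 0 4 (sgb true) (sgb true) x := by
  have X : XR 33554432 x := XR.of hx hx' (by norm_num) (by norm_num) (by norm_num) (by norm_num)
  refine (cornK_of [] (C := cB012L) (C0 := c0N) (j := (0 : Fin 5)) (k := (4 : Fin 5)) (lo := 0) (hi := 0) (W := 33554432) (N0 := 3) cB012L_q (sideN hx hx') gokN X (by norm_num) (by norm_num) (l := (0 : Fin 5)) rfl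
    (gatN00 x) (gatN42 x) (gatN01 x) ?_).altNB rfl hκ le_rfl ?_
  · intro ρ a B hρ hd i h1 h2
    fin_cases i
    · exact corTK_cert (G1 := gN0q0) (G2 := gN4q2) (Ga := gN0q1) (Gb := gN1q1) cB012L_ok B hρ (gatN00 x) (gatN42 x) (fun _ => gatN01 x) (fun h => absurd h (by decide)) hd hx hx' CN.B012L_040
    · exact absurd h2 (by norm_num)
    · exact absurd h2 (by norm_num)
    · exact absurd h2 (by norm_num)
  · exact fun l hl => absurd hl List.not_mem_nil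

theorem altN_B012L_14 {κ x : ℝ} (hκ : κ * h0 = ken x) (hx : ((33554432 : ℕ) : ℝ) / S ≤ x) (hx' : x ≤ (((33554432 : ℕ) : ℝ) + (16777216 : ℕ)) / S) :
    AltB (VN 3 κ) PP tKN tL pcN [⟨0, 0, 0, 33554432⟩, ⟨1, 1, 0, 33554432⟩, ⟨2, 1, 0, 33554432⟩] 0 1 2 1 4 (sgb true) (sgb true) x := by
  have X : XR 33554432 x := XR.of hx hx' (by norm_num) (by norm_num) (by norm_num) (by norm_num)
  refine (cornK_of [] (C := cB012L) (C0 := c0N) (j := (1 : Fin 5)) (k := (4 : Fin 5)) (lo := 0) (hi := 0) (W := 33554432) (N0 := 3) cB012L_q (sideN hx hx') gokN X (by norm_num) (by norm_num) (l := (0 : Fin 5)) rfl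
    (gatN10 x) (gatN42 x) (gatN01 x) ?_).altNB rfl hκ le_rfl ?_
  · intro ρ a B hρ hd i h1 h2
    fin_cases i
    · exact corTK_cert (G1 := gN1q0) (G2 := gN4q2) (Ga := gN0q1) (Gb := gN1q1) cB012L_ok B hρ (gatN10 x) (gatN42 x) (fun _ => gatN01 x) (fun h => absurd h (by decide)) hd hx hx' CN.B012L_140
    · exact absurd h2 (by norm_num)
    · exact absurd h2 (by norm_num)
    · exact absurd h2 (by norm_num)
  · exact fun l hl => absurd hl List.not_mem_nil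

theorem altN_B012L_24 {κ x : ℝ} (hκ : κ * h0 = ken x) (hx : ((33554432 : ℕ) : ℝ) / S ≤ x) (hx' : x ≤ (((33554432 : ℕ) : ℝ) + (16777216 : ℕ)) / S) :
    AltB (VN 3 κ) PP tKN tL pcN [⟨0, 0, 0, 33554432⟩, ⟨1, 1, 0, 33554432⟩, ⟨2, 1, 0, 33554432⟩] 0 1 2 2 4 (sgb true) (sgb true) x := by
  have X : XR 33554432 x := XR.of hx hx' (by norm_num) (by norm_num) (by norm_num) (by norm_num)
  refine (cornK_of [] (C := cB012L) (C0 := c0N) (j := (2 : Fin 5)) (k := (4 : Fin 5)) (lo := 0) (hi := 0) (W := 33554432) (N0 := 3) cB012L_q (sideN hx hx') gokN X (by norm_num) (by norm_num) (l := (0 : Fin 5)) rfl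
    (gatN20 x) (gatN42 x) (gatN01 x) ?_).altNB rfl hκ le_rfl ?_
  · intro ρ a B hρ hd i h1 h2
    fin_cases i
    · exact corTK_cert (G1 := gN2q0) (G2 := gN4q2) (Ga := gN0q1) (Gb := gN1q1) cB012L_ok B hρ (gatN20 x) (gatN42 x) (fun _ => gatN01 x) (fun h => absurd h (by decide)) hd hx hx' CN.B012L_240
    · exact absurd h2 (by norm_num)
    · exact absurd h2 (by norm_num)
    · exact absurd h2 (by norm_num)
  · exact fun l hl => absurd hl List.not_mem_nil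

theorem altN_B012R_00 {κ x : ℝ} (hκ : κ * h0 = ken x) (hx : ((33554432 : ℕ) : ℝ) / S ≤ x) (hx' : x ≤ (((33554432 : ℕ) : ℝ) + (16777216 : ℕ)) / S) :
    AltB (VN 3 κ) PP tKN tL pcN [⟨0, 0, 0, 33554432⟩, ⟨1, 1, 0, 33554432⟩, ⟨2, 1, 0, 33554432⟩] 0 1 2 0 0 (sgb true) (sgb false) x := by
  have X : XR 33554432 x := XR.of hx hx' (by norm_num) (by norm_num) (by norm_num) (by norm_num)
  refine (cornK_of [[⟨0, 0, 1, 16777216⟩, ⟨1, 1, 2, 16777216⟩, ⟨2, 1, 0, 6291456⟩, ⟨0, 0, 0, 67108864⟩, ⟨0, 1, 0, 1056964608⟩, ⟨1, 0, 0, 1056964608⟩, ⟨1, 1, 0, 67108864⟩]] (C := cB012R) (C0 := c0N) (j := (0 : Fin 5)) (k := (0 : Fin 5)) (lo := 2) (hi := 4) (W := 33554432) (N0 := 3) cB012R_q (sideN hx hx') gokN X (by norm_num) (by norm_num) (l := (2 : Fin 5)) rfl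
    (gatN00 x) (gatN02 x) (gatN21 x) ?_).altNB rfl hκ le_rfl ?_
  · intro ρ a B hρ hd i h1 h2
    fin_cases i
    · exact absurd h1 (by norm_num)
    · exact corTK_cert (G1 := gN0q0) (G2 := gN0q2) (Ga := gN1q1) (Gb := gN2q1) cB012R_ok B hρ (gatN00 x) (gatN02 x) (fun h => absurd h (by decide)) (fun _ => gatN21 x) hd hx hx' CN.B012R_001
    · exact corTK_cert (G1 := gN0q0) (G2 := gN0q2) (Ga := gN2q1) (Gb := gN3q1) cB012R_ok B hρ (gatN00 x) (gatN02 x) (fun _ => gatN21 x) (fun _ => gatN31 x) hd hx hx' CN.B012R_002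
    · exact corTK_cert (G1 := gN0q0) (G2 := gN0q2) (Ga := gN3q1) (Gb := gN4q1) cB012R_ok B hρ (gatN00 x) (gatN02 x) (fun _ => gatN31 x) (fun _ => gatN41 x) hd hx hx' CN.B012R_003
  · intro l hl
    simp only [List.mem_cons, List.not_mem_nil, or_false] at hl
    rcases hl with rfl
    · exact Mo.molN_B_012_00_0 hκ hx hx'

theorem altN_B012R_01 {κ x : ℝ} (hκ : κ * h0 = ken x) (hx : ((33554432 : ℕ) : ℝ) / S ≤ x) (hx' : x ≤ (((33554432 : ℕ) : ℝ) + (16777216 : ℕ)) / S) :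
    AltB (VN 3 κ) PP tKN tL pcN [⟨0, 0, 0, 33554432⟩, ⟨1, 1, 0, 33554432⟩, ⟨2, 1, 0, 33554432⟩] 0 1 2 0 1 (sgb true) (sgb false) x := by
  have X : XR 33554432 x := XR.of hx hx' (by norm_num) (by norm_num) (by norm_num) (by norm_num)
  refine (cornK_of [[⟨0, 0, 1, 25165824⟩, ⟨1, 1, 2, 25165824⟩, ⟨2, 1, 0, 16777216⟩, ⟨0, 0, 0, 67108864⟩, ⟨0, 1, 0, 1056964608⟩, ⟨1, 0, 0, 1056964608⟩, ⟨1, 1, 0, 67108864⟩]] (C := cB012R) (C0 := c0N) (j := (0 : Fin 5)) (k := (1 : Fin 5)) (lo := 2) (hi := 4) (W := 33554432) (N0 := 3) cB012R_q (sideN hx hx') gokN X (by norm_num) (by norm_num) (l := (2 : Fin 5)) rfl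
    (gatN00 x) (gatN12 x) (gatN21 x) ?_).altNB rfl hκ le_rfl ?_
  · intro ρ a B hρ hd i h1 h2
    fin_cases i
    · exact absurd h1 (by norm_num)
    · exact corTK_cert (G1 := gN0q0) (G2 := gN1q2) (Ga := gN1q1) (Gb := gN2q1) cB012R_ok B hρ (gatN00 x) (gatN12 x) (fun h => absurd h (by decide)) (fun _ => gatN21 x) hd hx hx' CN.B012R_011
    · exact corTK_cert (G1 := gN0q0) (G2 := gN1q2) (Ga := gN2q1) (Gb := gN3q1) cB012R_ok B hρ (gatN00 x) (gatN12 x) (fun _ => gatN21 x) (fun _ => gatN31 x) hd hx hx' CN.B012R_012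
    · exact corTK_cert (G1 := gN0q0) (G2 := gN1q2) (Ga := gN3q1) (Gb := gN4q1) cB012R_ok B hρ (gatN00 x) (gatN12 x) (fun _ => gatN31 x) (fun _ => gatN41 x) hd hx hx' CN.B012R_013
  · intro l hl
    simp only [List.mem_cons, List.not_mem_nil, or_false] at hl
    rcases hl with rfl
    · exact Mo.molN_B_012_01_0 hκ hx hx'

theorem altN_B012R_02 {κ x : ℝ} (hκ : κ * h0 = ken x) (hx : ((33554432 : ℕ) : ℝ) / S ≤ x) (hx' : x ≤ (((33554432 : ℕ) : ℝ) + (16777216 : ℕ)) / S) :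
    AltB (VN 3 κ) PP tKN tL pcN [⟨0, 0, 0, 33554432⟩, ⟨1, 1, 0, 33554432⟩, ⟨2, 1, 0, 33554432⟩] 0 1 2 0 2 (sgb true) (sgb false) x := by
  have X : XR 33554432 x := XR.of hx hx' (by norm_num) (by norm_num) (by norm_num) (by norm_num)
  refine (cornK_of [[⟨0, 0, 1, 25165824⟩, ⟨1, 1, 2, 25165824⟩, ⟨2, 1, 0, 16777216⟩, ⟨0, 0, 0, 67108864⟩, ⟨0, 1, 0, 1056964608⟩, ⟨1, 0, 0, 1056964608⟩, ⟨1, 1, 0, 67108864⟩]] (C := cB012R) (C0 := c0N) (j := (0 : Fin 5)) (k := (2 : Fin 5)) (lo := 2) (hi := 4) (W := 33554432) (N0 := 3) cB012R_q (sideN hx hx') gokN X (by norm_num) (by norm_num) (l := (2 : Fin 5)) rfl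
    (gatN00 x) (gatN22 x) (gatN21 x) ?_).altNB rfl hκ le_rfl ?_
  · intro ρ a B hρ hd i h1 h2
    fin_cases i
    · exact absurd h1 (by norm_num)
    · exact corTK_cert (G1 := gN0q0) (G2 := gN2q2) (Ga := gN1q1) (Gb := gN2q1) cB012R_ok B hρ (gatN00 x) (gatN22 x) (fun h => absurd h (by decide)) (fun _ => gatN21 x) hd hx hx' CN.B012R_021
    · exact corTK_cert (G1 := gN0q0) (G2 := gN2q2) (Ga := gN2q1) (Gb := gN3q1) cB012R_ok B hρ (gatN00 x) (gatN22 x) (fun _ => gatN21 x) (fun _ => gatN31 x) hd hx hx' CN.B012R_022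
    · exact corTK_cert (G1 := gN0q0) (G2 := gN2q2) (Ga := gN3q1) (Gb := gN4q1) cB012R_ok B hρ (gatN00 x) (gatN22 x) (fun _ => gatN31 x) (fun _ => gatN41 x) hd hx hx' CN.B012R_023
  · intro l hl
    simp only [List.mem_cons, List.not_mem_nil, or_false] at hl
    rcases hl with rfl
    · exact Mo.molN_B_012_02_0 hκ hx hx'

theorem altN_B012R_10 {κ x : ℝ} (hκ : κ * h0 = ken x) (hx : ((33554432 : ℕ) : ℝ) / S ≤ x) (hx' : x ≤ (((33554432 : ℕ) : ℝ) + (16777216 : ℕ)) / S) :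
    AltB (VN 3 κ) PP tKN tL pcN [⟨0, 0, 0, 33554432⟩, ⟨1, 1, 0, 33554432⟩, ⟨2, 1, 0, 33554432⟩] 0 1 2 1 0 (sgb true) (sgb false) x := by
  have X : XR 33554432 x := XR.of hx hx' (by norm_num) (by norm_num) (by norm_num) (by norm_num)
  refine (cornK_of [] (C := cB012R) (C0 := c0N) (j := (1 : Fin 5)) (k := (0 : Fin 5)) (lo := 2) (hi := 4) (W := 33554432) (N0 := 3) cB012R_q (sideN hx hx') gokN X (by norm_num) (by norm_num) (l := (2 : Fin 5)) rfl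
    (gatN10 x) (gatN02 x) (gatN21 x) ?_).altNB rfl hκ le_rfl ?_
  · intro ρ a B hρ hd i h1 h2
    fin_cases i
    · exact absurd h1 (by norm_num)
    · exact corTK_cert (G1 := gN1q0) (G2 := gN0q2) (Ga := gN1q1) (Gb := gN2q1) cB012R_ok B hρ (gatN10 x) (gatN02 x) (fun h => absurd h (by decide)) (fun _ => gatN21 x) hd hx hx' CN.B012R_101
    · exact corTK_cert (G1 := gN1q0) (G2 := gN0q2) (Ga := gN2q1) (Gb := gN3q1) cB012R_ok B hρ (gatN10 x) (gatN02 x) (fun _ => gatN21 x) (fun _ => gatN31 x) hd hx hx' CN.B012R_102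
    · exact corTK_cert (G1 := gN1q0) (G2 := gN0q2) (Ga := gN3q1) (Gb := gN4q1) cB012R_ok B hρ (gatN10 x) (gatN02 x) (fun _ => gatN31 x) (fun _ => gatN41 x) hd hx hx' CN.B012R_103
  · exact fun l hl => absurd hl List.not_mem_nil

theorem altN_B012R_11 {κ x : ℝ} (hκ : κ * h0 = ken x) (hx : ((33554432 : ℕ) : ℝ) / S ≤ x) (hx' : x ≤ (((33554432 : ℕ) : ℝ) + (16777216 : ℕ)) / S) :
    AltB (VN 3 κ) PP tKN tL pcN [⟨0, 0, 0, 33554432⟩, ⟨1, 1, 0, 33554432⟩, ⟨2, 1, 0, 33554432⟩] 0 1 2 1 1 (sgb true) (sgb false) x := by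
  have X : XR 33554432 x := XR.of hx hx' (by norm_num) (by norm_num) (by norm_num) (by norm_num)
  refine (cornK_of [] (C := cB012R) (C0 := c0N) (j := (1 : Fin 5)) (k := (1 : Fin 5)) (lo := 2) (hi := 4) (W := 33554432) (N0 := 3) cB012R_q (sideN hx hx') gokN X (by norm_num) (by norm_num) (l := (2 : Fin 5)) rfl
    (gatN10 x) (gatN12 x) (gatN21 x) ?_).altNB rfl hκ le_rfl ?_
  · intro ρ a B hρ hd i h1 h2
    fin_cases i
    · exact absurd h1 (by norm_num)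
    · exact corTK_cert (G1 := gN1q0) (G2 := gN1q2) (Ga := gN1q1) (Gb := gN2q1) cB012R_ok B hρ (gatN10 x) (gatN12 x) (fun h => absurd h (by decide)) (fun _ => gatN21 x) hd hx hx' CN.B012R_111
    · exact corTK_cert (G1 := gN1q0) (G2 := gN1q2) (Ga := gN2q1) (Gb := gN3q1) cB012R_ok B hρ (gatN10 x) (gatN12 x) (fun _ => gatN21 x) (fun _ => gatN31 x) hd hx hx' CN.B012R_112
    · exact corTK_cert (G1 := gN1q0) (G2 := gN1q2) (Ga := gN3q1) (Gb := gN4q1) cB012R_ok B hρ (gatN10 x) (gatN12 x) (fun _ => gatN31 x) (fun _ => gatN41 x) hd hx hx' CN.B012R_113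
  · exact fun l hl => absurd hl List.not_mem_nil

theorem altN_B012R_12 {κ x : ℝ} (hκ : κ * h0 = ken x) (hx : ((33554432 : ℕ) : ℝ) / S ≤ x) (hx' : x ≤ (((33554432 : ℕ) : ℝ) + (16777216 : ℕ)) / S) :
    AltB (VN 3 κ) PP tKN tL pcN [⟨0, 0, 0, 33554432⟩, ⟨1, 1, 0, 33554432⟩, ⟨2, 1, 0, 33554432⟩] 0 1 2 1 2 (sgb true) (sgb false) x := by
  have X : XR 33554432 x := XR.of hx hx' (by norm_num) (by norm_num) (by norm_num) (by norm_num)
  refine (cornK_of [] (C := cB012R) (C0 := c0N) (j := (1 : Fin 5)) (k := (2 : Fin 5)) (lo := 2) (hi := 4) (W := 33554432) (N0 := 3) cB012R_q (sideN hx hx') gokN X (by norm_num) (by norm_num) (l := (2 : Fin 5)) rfl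
    (gatN10 x) (gatN22 x) (gatN21 x) ?_).altNB rfl hκ le_rfl ?_
  · intro ρ a B hρ hd i h1 h2
    fin_cases i
    · exact absurd h1 (by norm_num)
    · exact corTK_cert (G1 := gN1q0) (G2 := gN2q2) (Ga := gN1q1) (Gb := gN2q1) cB012R_ok B hρ (gatN10 x) (gatN22 x) (fun h => absurd h (by decide)) (fun _ => gatN21 x) hd hx hx' CN.B012R_121
    · exact corTK_cert (G1 := gN1q0) (G2 := gN2q2) (Ga := gN2q1) (Gb := gN3q1) cB012R_ok B hρ (gatN10 x) (gatN22 x) (fun _ => gatN21 x) (fun _ => gatN31 x) hd hx hx' CN.B012R_122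
    · exact corTK_cert (G1 := gN1q0) (G2 := gN2q2) (Ga := gN3q1) (Gb := gN4q1) cB012R_ok B hρ (gatN10 x) (gatN22 x) (fun _ => gatN31 x) (fun _ => gatN41 x) hd hx hx' CN.B012R_123
  · exact fun l hl => absurd hl List.not_mem_nil

theorem altN_B012R_20 {κ x : ℝ} (hκ : κ * h0 = ken x) (hx : ((33554432 : ℕ) : ℝ) / S ≤ x) (hx' : x ≤ (((33554432 : ℕ) : ℝ) + (16777216 : ℕ)) / S) :
    AltB (VN 3 κ) PP tKN tL pcN [⟨0, 0, 0, 33554432⟩, ⟨1, 1, 0, 33554432⟩, ⟨2, 1, 0, 33554432⟩] 0 1 2 2 0 (sgb true) (sgb false) x := by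
  have X : XR 33554432 x := XR.of hx hx' (by norm_num) (by norm_num) (by norm_num) (by norm_num)
  refine (cornK_of [] (C := cB012R) (C0 := c0N) (j := (2 : Fin 5)) (k := (0 : Fin 5)) (lo := 2) (hi := 4) (W := 33554432) (N0 := 3) cB012R_q (sideN hx hx') gokN X (by norm_num) (by norm_num) (l := (2 : Fin 5)) rfl
    (gatN20 x) (gatN02 x) (gatN21 x) ?_).altNB rfl hκ le_rfl ?_
  · intro ρ a B hρ hd i h1 h2
    fin_cases i
    · exact absurd h1 (by norm_num)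
    · exact corTK_cert (G1 := gN2q0) (G2 := gN0q2) (Ga := gN1q1) (Gb := gN2q1) cB012R_ok B hρ (gatN20 x) (gatN02 x) (fun h => absurd h (by decide)) (fun _ => gatN21 x) hd hx hx' CN.B012R_201
    · exact corTK_cert (G1 := gN2q0) (G2 := gN0q2) (Ga := gN2q1) (Gb := gN3q1) cB012R_ok B hρ (gatN20 x) (gatN02 x) (fun _ => gatN21 x) (fun _ => gatN31 x) hd hx hx' CN.B012R_202
    · exact corTK_cert (G1 := gN2q0) (G2 := gN0q2) (Ga := gN3q1) (Gb := gN4q1) cB012R_ok B hρ (gatN20 x) (gatN02 x) (fun _ => gatN31 x) (fun _ => gatN41 x) hd hx hx' CN.B012R_203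
  · exact fun l hl => absurd hl List.not_mem_nil

theorem altN_B012R_21 {κ x : ℝ} (hκ : κ * h0 = ken x) (hx : ((33554432 : ℕ) : ℝ) / S ≤ x) (hx' : x ≤ (((33554432 : ℕ) : ℝ) + (16777216 : ℕ)) / S) :
    AltB (VN 3 κ) PP tKN tL pcN [⟨0, 0, 0, 33554432⟩, ⟨1, 1, 0, 33554432⟩, ⟨2, 1, 0, 33554432⟩] 0 1 2 2 1 (sgb true) (sgb false) x := by
  have X : XR 33554432 x := XR.of hx hx' (by norm_num) (by norm_num) (by norm_num) (by norm_num)
  refine (cornK_of [] (C := cB012R) (C0 := c0N) (j := (2 : Fin 5)) (k := (1 : Fin 5)) (lo := 2) (hi := 4) (W := 33554432) (N0 := 3) cB012R_q (sideN hx hx') gokN X (by norm_num) (by norm_num) (l := (2 : Fin 5)) rfl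
    (gatN20 x) (gatN12 x) (gatN21 x) ?_).altNB rfl hκ le_rfl ?_
  · intro ρ a B hρ hd i h1 h2
    fin_cases i
    · exact absurd h1 (by norm_num)
    · exact corTK_cert (G1 := gN2q0) (G2 := gN1q2) (Ga := gN1q1) (Gb := gN2q1) cB012R_ok B hρ (gatN20 x) (gatN12 x) (fun h => absurd h (by decide)) (fun _ => gatN21 x) hd hx hx' CN.B012R_211
    · exact corTK_cert (G1 := gN2q0) (G2 := gN1q2) (Ga := gN2q1) (Gb := gN3q1) cB012R_ok B hρ (gatN20 x) (gatN12 x) (fun _ => gatN21 x) (fun _ => gatN31 x) hd hx hx' CN.B012R_212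
    · exact corTK_cert (G1 := gN2q0) (G2 := gN1q2) (Ga := gN3q1) (Gb := gN4q1) cB012R_ok B hρ (gatN20 x) (gatN12 x) (fun _ => gatN31 x) (fun _ => gatN41 x) hd hx hx' CN.B012R_213
  · exact fun l hl => absurd hl List.not_mem_nil

theorem altN_B012R_22 {κ x : ℝ} (hκ : κ * h0 = ken x) (hx : ((33554432 : ℕ) : ℝ) / S ≤ x) (hx' : x ≤ (((33554432 : ℕ) : ℝ) + (16777216 : ℕ)) / S) :
    AltB (VN 3 κ) PP tKN tL pcN [⟨0, 0, 0, 33554432⟩, ⟨1, 1, 0, 33554432⟩, ⟨2, 1, 0, 33554432⟩] 0 1 2 2 2 (sgb true) (sgb false) x := by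
  have X : XR 33554432 x := XR.of hx hx' (by norm_num) (by norm_num) (by norm_num) (by norm_num)
  refine (cornK_of [] (C := cB012R) (C0 := c0N) (j := (2 : Fin 5)) (k := (2 : Fin 5)) (lo := 2) (hi := 4) (W := 33554432) (N0 := 3) cB012R_q (sideN hx hx') gokN X (by norm_num) (by norm_num) (l := (2 : Fin 5)) rfl
    (gatN20 x) (gatN22 x) (gatN21 x) ?_).altNB rfl hκ le_rfl ?_
  · intro ρ a B hρ hd i h1 h2
    fin_cases i
    · exact absurd h1 (by norm_num)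
    · exact corTK_cert (G1 := gN2q0) (G2 := gN2q2) (Ga := gN1q1) (Gb := gN2q1) cB012R_ok B hρ (gatN20 x) (gatN22 x) (fun h => absurd h (by decide)) (fun _ => gatN21 x) hd hx hx' CN.B012R_221
    · exact corTK_cert (G1 := gN2q0) (G2 := gN2q2) (Ga := gN2q1) (Gb := gN3q1) cB012R_ok B hρ (gatN20 x) (gatN22 x) (fun _ => gatN21 x) (fun _ => gatN31 x) hd hx hx' CN.B012R_222
    · exact corTK_cert (G1 := gN2q0) (G2 := gN2q2) (Ga := gN3q1) (Gb := gN4q1) cB012R_ok B hρ (gatN20 x) (gatN22 x) (fun _ => gatN31 x) (fun _ => gatN41 x) hd hx hx' CN.B012R_223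
  · exact fun l hl => absurd hl List.not_mem_nil

theorem altN_B022E_00 {κ x : ℝ} (hκ : κ * h0 = ken x) (hx : ((33554432 : ℕ) : ℝ) / S ≤ x) (hx' : x ≤ (((33554432 : ℕ) : ℝ) + (16777216 : ℕ)) / S) :
    AltB (VN 3 κ) PP tKN tL pcN [⟨0, 0, 0, 33554432⟩, ⟨1, 1, 0, 33554432⟩, ⟨2, 1, 0, 33554432⟩] 0 2 2 0 0 (sgb true) (sgb true) x := by
  have X : XR 33554432 x := XR.of hx hx' (by norm_num) (by norm_num) (by norm_num) (by norm_num)
  refine (cornK_of [] (C := cB022E) (C0 := c0N) (j := (0 : Fin 5)) (k := (0 : Fin 5)) (lo := 0) (hi := 2) (W := 33554432) (N0 := 3) cB022E_q (sideN hx hx') gokN X (by norm_num) (by norm_num) (l := (0 : Fin 5)) rfl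
    (gatN00 x) (gatN02 x) (gatN02 x) ?_).altNB rfl hκ le_rfl ?_
  · intro ρ a B hρ hd i h1 h2
    fin_cases i
    · exact corTK_cert (G1 := gN0q0) (G2 := gN0q2) (Ga := gN0q2) (Gb := gN1q2) cB022E_ok B hρ (gatN00 x) (gatN02 x) (fun _ => gatN02 x) (fun _ => gatN12 x) hd hx hx' CN.B022E_000
    · exact corTK_cert (G1 := gN0q0) (G2 := gN0q2) (Ga := gN1q2) (Gb := gN2q2) cB022E_ok B hρ (gatN00 x) (gatN02 x) (fun _ => gatN12 x) (fun _ => gatN22 x) hd hx hx' CN.B022E_001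
    · exact corTK_cert (G1 := gN0q0) (G2 := gN0q2) (Ga := gN2q2) (Gb := gN3q2) cB022E_ok B hρ (gatN00 x) (gatN02 x) (fun _ => gatN22 x) (fun h => absurd h (by decide)) hd hx hx' CN.B022E_002
    · exact absurd h2 (by norm_num)
  · exact fun l hl => absurd hl List.not_mem_nil

theorem altN_B022E_01 {κ x : ℝ} (hκ : κ * h0 = ken x) (hx : ((33554432 : ℕ) : ℝ) / S ≤ x) (hx' : x ≤ (((33554432 : ℕ) : ℝ) + (16777216 : ℕ)) / S) :
    AltB (VN 3 κ) PP tKN tL pcN [⟨0, 0, 0, 33554432⟩, ⟨1, 1, 0, 33554432⟩, ⟨2, 1, 0, 33554432⟩] 0 2 2 0 1 (sgb true) (sgb true) x := by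
  have X : XR 33554432 x := XR.of hx hx' (by norm_num) (by norm_num) (by norm_num) (by norm_num)
  refine (cornK_of [] (C := cB022E) (C0 := c0N) (j := (0 : Fin 5)) (k := (1 : Fin 5)) (lo := 0) (hi := 2) (W := 33554432) (N0 := 3) cB022E_q (sideN hx hx') gokN X (by norm_num) (by norm_num) (l := (0 : Fin 5)) rfl
    (gatN00 x) (gatN12 x) (gatN02 x) ?_).altNB rfl hκ le_rfl ?_
  · intro ρ a B hρ hd i h1 h2
    fin_cases i
    · exact corTK_cert (G1 := gN0q0) (G2 := gN1q2) (Ga := gN0q2) (Gb := gN1q2) cB022E_ok B hρ (gatN00 x) (gatN12 x) (fun _ => gatN02 x) (fun _ => gatN12 x) hd hx hx' CN.B022E_010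
    · exact corTK_cert (G1 := gN0q0) (G2 := gN1q2) (Ga := gN1q2) (Gb := gN2q2) cB022E_ok B hρ (gatN00 x) (gatN12 x) (fun _ => gatN12 x) (fun _ => gatN22 x) hd hx hx' CN.B022E_011
    · exact corTK_cert (G1 := gN0q0) (G2 := gN1q2) (Ga := gN2q2) (Gb := gN3q2) cB022E_ok B hρ (gatN00 x) (gatN12 x) (fun _ => gatN22 x) (fun h => absurd h (by decide)) hd hx hx' CN.B022E_012
    · exact absurd h2 (by norm_num)
  · exact fun l hl => absurd hl List.not_mem_nil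

theorem altN_B022E_02 {κ x : ℝ} (hκ : κ * h0 = ken x) (hx : ((33554432 : ℕ) : ℝ) / S ≤ x) (hx' : x ≤ (((33554432 : ℕ) : ℝ) + (16777216 : ℕ)) / S) :
    AltB (VN 3 κ) PP tKN tL pcN [⟨0, 0, 0, 33554432⟩, ⟨1, 1, 0, 33554432⟩, ⟨2, 1, 0, 33554432⟩] 0 2 2 0 2 (sgb true) (sgb true) x := by
  have X : XR 33554432 x := XR.of hx hx' (by norm_num) (by norm_num) (by norm_num) (by norm_num)
  refine (cornK_of [[⟨0, 0, 1, 25165824⟩, ⟨1, 1, 0, 16777216⟩, ⟨2, 1, 1, 25165824⟩, ⟨0, 0, 0, 67108864⟩, ⟨0, 1, 0, 1056964608⟩, ⟨2, 1, 0, 67108864⟩, ⟨2, 2, 0, 1056964608⟩]] (C := cB022E) (C0 := c0N) (j := (0 : Fin 5)) (k := (2 : Fin 5)) (lo := 0) (hi := 2) (W := 33554432) (N0 := 3) cB022E_q (sideN hx hx') gokN X (by norm_num) (by norm_num) (l := (0 : Fin 5)) rfl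
    (gatN00 x) (gatN22 x) (gatN02 x) ?_).altNB rfl hκ le_rfl ?_
  · intro ρ a B hρ hd i h1 h2
    fin_cases i
    · exact corTK_cert (G1 := gN0q0) (G2 := gN2q2) (Ga := gN0q2) (Gb := gN1q2) cB022E_ok B hρ (gatN00 x) (gatN22 x) (fun _ => gatN02 x) (fun _ => gatN12 x) hd hx hx' CN.B022E_020
    · exact corTK_cert (G1 := gN0q0) (G2 := gN2q2) (Ga := gN1q2) (Gb := gN2q2) cB022E_ok B hρ (gatN00 x) (gatN22 x) (fun _ => gatN12 x) (fun _ => gatN22 x) hd hx hx' CN.B022E_021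
    · exact corTK_cert (G1 := gN0q0) (G2 := gN2q2) (Ga := gN2q2) (Gb := gN3q2) cB022E_ok B hρ (gatN00 x) (gatN22 x) (fun _ => gatN22 x) (fun h => absurd h (by decide)) hd hx hx' CN.B022E_022
    · exact absurd h2 (by norm_num)
  · intro l hl
    simp only [List.mem_cons, List.not_mem_nil, or_false] at hl
    rcases hl with rfl
    · exact Mo.molN_B_022_02_4 hκ hx hx'

theorem altN_B022E_10 {κ x : ℝ} (hκ : κ * h0 = ken x) (hx : ((33554432 : ℕ) : ℝ) / S ≤ x) (hx' : x ≤ (((33554432 : ℕ) : ℝ) + (16777216 : ℕ)) / S) :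
    AltB (VN 3 κ) PP tKN tL pcN [⟨0, 0, 0, 33554432⟩, ⟨1, 1, 0, 33554432⟩, ⟨2, 1, 0, 33554432⟩] 0 2 2 1 0 (sgb true) (sgb true) x := by
  have X : XR 33554432 x := XR.of hx hx' (by norm_num) (by norm_num) (by norm_num) (by norm_num)
  refine (cornK_of [] (C := cB022E) (C0 := c0N) (j := (1 : Fin 5)) (k := (0 : Fin 5)) (lo := 0) (hi := 2) (W := 33554432) (N0 := 3) cB022E_q (sideN hx hx') gokN X (by norm_num) (by norm_num) (l := (0 : Fin 5)) rfl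
    (gatN10 x) (gatN02 x) (gatN02 x) ?_).altNB rfl hκ le_rfl ?_
  · intro ρ a B hρ hd i h1 h2
    fin_cases i
    · exact corTK_cert (G1 := gN1q0) (G2 := gN0q2) (Ga := gN0q2) (Gb := gN1q2) cB022E_ok B hρ (gatN10 x) (gatN02 x) (fun _ => gatN02 x) (fun _ => gatN12 x) hd hx hx' CN.B022E_100
    · exact corTK_cert (G1 := gN1q0) (G2 := gN0q2) (Ga := gN1q2) (Gb := gN2q2) cB022E_ok B hρ (gatN10 x) (gatN02 x) (fun _ => gatN12 x) (fun _ => gatN22 x) hd hx hx' CN.B022E_101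
    · exact corTK_cert (G1 := gN1q0) (G2 := gN0q2) (Ga := gN2q2) (Gb := gN3q2) cB022E_ok B hρ (gatN10 x) (gatN02 x) (fun _ => gatN22 x) (fun h => absurd h (by decide)) hd hx hx' CN.B022E_102
    · exact absurd h2 (by norm_num)
  · exact fun l hl => absurd hl List.not_mem_nil

theorem altN_B022E_11 {κ x : ℝ} (hκ : κ * h0 = ken x) (hx : ((33554432 : ℕ) : ℝ) / S ≤ x) (hx' : x ≤ (((33554432 : ℕ) : ℝ) + (16777216 : ℕ)) / S) :
    AltB (VN 3 κ) PP tKN tL pcN [⟨0, 0, 0, 33554432⟩, ⟨1, 1, 0, 33554432⟩, ⟨2, 1, 0, 33554432⟩] 0 2 2 1 1 (sgb true) (sgb true) x := by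
  have X : XR 33554432 x := XR.of hx hx' (by norm_num) (by norm_num) (by norm_num) (by norm_num)
  refine (cornK_of [] (C := cB022E) (C0 := c0N) (j := (1 : Fin 5)) (k := (1 : Fin 5)) (lo := 0) (hi := 2) (W := 33554432) (N0 := 3) cB022E_q (sideN hx hx') gokN X (by norm_num) (by norm_num) (l := (0 : Fin 5)) rfl
    (gatN10 x) (gatN12 x) (gatN02 x) ?_).altNB rfl hκ le_rfl ?_
  · intro ρ a B hρ hd i h1 h2
    fin_cases i
    · exact corTK_cert (G1 := gN1q0) (G2 := gN1q2) (Ga := gN0q2) (Gb := gN1q2) cB022E_ok B hρ (gatN10 x) (gatN12 x) (fun _ => gatN02 x) (fun _ => gatN12 x) hd hx hx' CN.B022E_110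
    · exact corTK_cert (G1 := gN1q0) (G2 := gN1q2) (Ga := gN1q2) (Gb := gN2q2) cB022E_ok B hρ (gatN10 x) (gatN12 x) (fun _ => gatN12 x) (fun _ => gatN22 x) hd hx hx' CN.B022E_111
    · exact corTK_cert (G1 := gN1q0) (G2 := gN1q2) (Ga := gN2q2) (Gb := gN3q2) cB022E_ok B hρ (gatN10 x) (gatN12 x) (fun _ => gatN22 x) (fun h => absurd h (by decide)) hd hx hx' CN.B022E_112
    · exact absurd h2 (by norm_num)
  · exact fun l hl => absurd hl List.not_mem_nil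

theorem altN_B022E_12 {κ x : ℝ} (hκ : κ * h0 = ken x) (hx : ((33554432 : ℕ) : ℝ) / S ≤ x) (hx' : x ≤ (((33554432 : ℕ) : ℝ) + (16777216 : ℕ)) / S) :
    AltB (VN 3 κ) PP tKN tL pcN [⟨0, 0, 0, 33554432⟩, ⟨1, 1, 0, 33554432⟩, ⟨2, 1, 0, 33554432⟩] 0 2 2 1 2 (sgb true) (sgb true) x := by
  have X : XR 33554432 x := XR.of hx hx' (by norm_num) (by norm_num) (by norm_num) (by norm_num)
  refine (cornK_of [] (C := cB022E) (C0 := c0N) (j := (1 : Fin 5)) (k := (2 : Fin 5)) (lo := 0) (hi := 2) (W := 33554432) (N0 := 3) cB022E_q (sideN hx hx') gokN X (by norm_num) (by norm_num) (l := (0 : Fin 5)) rfl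
    (gatN10 x) (gatN22 x) (gatN02 x) ?_).altNB rfl hκ le_rfl ?_
  · intro ρ a B hρ hd i h1 h2
    fin_cases i
    · exact corTK_cert (G1 := gN1q0) (G2 := gN2q2) (Ga := gN0q2) (Gb := gN1q2) cB022E_ok B hρ (gatN10 x) (gatN22 x) (fun _ => gatN02 x) (fun _ => gatN12 x) hd hx hx' CN.B022E_120
    · exact corTK_cert (G1 := gN1q0) (G2 := gN2q2) (Ga := gN1q2) (Gb := gN2q2) cB022E_ok B hρ (gatN10 x) (gatN22 x) (fun _ => gatN12 x) (fun _ => gatN22 x) hd hx hx' CN.B022E_121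
    · exact corTK_cert (G1 := gN1q0) (G2 := gN2q2) (Ga := gN2q2) (Gb := gN3q2) cB022E_ok B hρ (gatN10 x) (gatN22 x) (fun _ => gatN22 x) (fun h => absurd h (by decide)) hd hx hx' CN.B022E_122
    · exact absurd h2 (by norm_num)
  · exact fun l hl => absurd hl List.not_mem_nil

theorem altN_B022E_20 {κ x : ℝ} (hκ : κ * h0 = ken x) (hx : ((33554432 : ℕ) : ℝ) / S ≤ x) (hx' : x ≤ (((33554432 : ℕ) : ℝ) + (16777216 : ℕ)) / S) :
    AltB (VN 3 κ) PP tKN tL pcN [⟨0, 0, 0, 33554432⟩, ⟨1, 1, 0, 33554432⟩, ⟨2, 1, 0, 33554432⟩] 0 2 2 2 0 (sgb true) (sgb true) x := by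
  have X : XR 33554432 x := XR.of hx hx' (by norm_num) (by norm_num) (by norm_num) (by norm_num)
  refine (cornK_of [] (C := cB022E) (C0 := c0N) (j := (2 : Fin 5)) (k := (0 : Fin 5)) (lo := 0) (hi := 2) (W := 33554432) (N0 := 3) cB022E_q (sideN hx hx') gokN X (by norm_num) (by norm_num) (l := (0 : Fin 5)) rfl
    (gatN20 x) (gatN02 x) (gatN02 x) ?_).altNB rfl hκ le_rfl ?_
  · intro ρ a B hρ hd i h1 h2
    fin_cases i
    · exact corTK_cert (G1 := gN2q0) (G2 := gN0q2) (Ga := gN0q2) (Gb := gN1q2) cB022E_ok B hρ (gatN20 x) (gatN02 x) (fun _ => gatN02 x) (fun _ => gatN12 x) hd hx hx' CN.B022E_200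
    · exact corTK_cert (G1 := gN2q0) (G2 := gN0q2) (Ga := gN1q2) (Gb := gN2q2) cB022E_ok B hρ (gatN20 x) (gatN02 x) (fun _ => gatN12 x) (fun _ => gatN22 x) hd hx hx' CN.B022E_201
    · exact corTK_cert (G1 := gN2q0) (G2 := gN0q2) (Ga := gN2q2) (Gb := gN3q2) cB022E_ok B hρ (gatN20 x) (gatN02 x) (fun _ => gatN22 x) (fun h => absurd h (by decide)) hd hx hx' CN.B022E_202
    · exact absurd h2 (by norm_num)
  · exact fun l hl => absurd hl List.not_mem_nil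

theorem altN_B022E_21 {κ x : ℝ} (hκ : κ * h0 = ken x) (hx : ((33554432 : ℕ) : ℝ) / S ≤ x) (hx' : x ≤ (((33554432 : ℕ) : ℝ) + (16777216 : ℕ)) / S) :
    AltB (VN 3 κ) PP tKN tL pcN [⟨0, 0, 0, 33554432⟩, ⟨1, 1, 0, 33554432⟩, ⟨2, 1, 0, 33554432⟩] 0 2 2 2 1 (sgb true) (sgb true) x := by
  have X : XR 33554432 x := XR.of hx hx' (by norm_num) (by norm_num) (by norm_num) (by norm_num)
  refine (cornK_of [] (C := cB022E) (C0 := c0N) (j := (2 : Fin 5)) (k := (1 : Fin 5)) (lo := 0) (hi := 2) (W := 33554432) (N0 := 3) cB022E_q (sideN hx hx') gokN X (by norm_num) (by norm_num) (l := (0 : Fin 5)) rfl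
    (gatN20 x) (gatN12 x) (gatN02 x) ?_).altNB rfl hκ le_rfl ?_
  · intro ρ a B hρ hd i h1 h2
    fin_cases i
    · exact corTK_cert (G1 := gN2q0) (G2 := gN1q2) (Ga := gN0q2) (Gb := gN1q2) cB022E_ok B hρ (gatN20 x) (gatN12 x) (fun _ => gatN02 x) (fun _ => gatN12 x) hd hx hx' CN.B022E_210
    · exact corTK_cert (G1 := gN2q0) (G2 := gN1q2) (Ga := gN1q2) (Gb := gN2q2) cB022E_ok B hρ (gatN20 x) (gatN12 x) (fun _ => gatN12 x) (fun _ => gatN22 x) hd hx hx' CN.B022E_211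
    · exact corTK_cert (G1 := gN2q0) (G2 := gN1q2) (Ga := gN2q2) (Gb := gN3q2) cB022E_ok B hρ (gatN20 x) (gatN12 x) (fun _ => gatN22 x) (fun h => absurd h (by decide)) hd hx hx' CN.B022E_212
    · exact absurd h2 (by norm_num)
  · exact fun l hl => absurd hl List.not_mem_nil

theorem altN_B022E_22 {κ x : ℝ} (hκ : κ * h0 = ken x) (hx : ((33554432 : ℕ) : ℝ) / S ≤ x) (hx' : x ≤ (((33554432 : ℕ) : ℝ) + (16777216 : ℕ)) / S) :
    AltB (VN 3 κ) PP tKN tL pcN [⟨0, 0, 0, 33554432⟩, ⟨1, 1, 0, 33554432⟩, ⟨2, 1, 0, 33554432⟩] 0 2 2 2 2 (sgb true) (sgb true) x := by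
  have X : XR 33554432 x := XR.of hx hx' (by norm_num) (by norm_num) (by norm_num) (by norm_num)
  refine (cornK_of [] (C := cB022E) (C0 := c0N) (j := (2 : Fin 5)) (k := (2 : Fin 5)) (lo := 0) (hi := 2) (W := 33554432) (N0 := 3) cB022E_q (sideN hx hx') gokN X (by norm_num) (by norm_num) (l := (0 : Fin 5)) rfl
    (gatN20 x) (gatN22 x) (gatN02 x) ?_).altNB rfl hκ le_rfl ?_
  · intro ρ a B hρ hd i h1 h2
    fin_cases i
    · exact corTK_cert (G1 := gN2q0) (G2 := gN2q2) (Ga := gN0q2) (Gb := gN1q2) cB022E_ok B hρ (gatN20 x) (gatN22 x) (fun _ => gatN02 x) (fun _ => gatN12 x) hd hx hx' CN.B022E_220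
    · exact corTK_cert (G1 := gN2q0) (G2 := gN2q2) (Ga := gN1q2) (Gb := gN2q2) cB022E_ok B hρ (gatN20 x) (gatN22 x) (fun _ => gatN12 x) (fun _ => gatN22 x) hd hx hx' CN.B022E_221
    · exact corTK_cert (G1 := gN2q0) (G2 := gN2q2) (Ga := gN2q2) (Gb := gN3q2) cB022E_ok B hρ (gatN20 x) (gatN22 x) (fun _ => gatN22 x) (fun h => absurd h (by decide)) hd hx hx' CN.B022E_222
    · exact absurd h2 (by norm_num)
  · exact fun l hl => absurd hl List.not_mem_nil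

theorem altN_B022L_04 {κ x : ℝ} (hκ : κ * h0 = ken x) (hx : ((33554432 : ℕ) : ℝ) / S ≤ x) (hx' : x ≤ (((33554432 : ℕ) : ℝ) + (16777216 : ℕ)) / S) :
    AltB (VN 3 κ) PP tKN tL pcN [⟨0, 0, 0, 33554432⟩, ⟨1, 1, 0, 33554432⟩, ⟨2, 1, 0, 33554432⟩] 0 2 2 0 4 (sgb true) (sgb true) x := by
  have X : XR 33554432 x := XR.of hx hx' (by norm_num) (by norm_num) (by norm_num) (by norm_num)
  refine (cornK_of [] (C := cB022L) (C0 := c0N) (j := (0 : Fin 5)) (k := (4 : Fin 5)) (lo := 0) (hi := 2) (W := 33554432) (N0 := 3) cB022L_q (sideN hx hx') gokN X (by norm_num) (by norm_num) (l := (0 : Fin 5)) rfl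
    (gatN00 x) (gatN42 x) (gatN02 x) ?_).altNB rfl hκ le_rfl ?_
  · intro ρ a B hρ hd i h1 h2
    fin_cases i
    · exact corTK_cert (G1 := gN0q0) (G2 := gN4q2) (Ga := gN0q2) (Gb := gN1q2) cB022L_ok B hρ (gatN00 x) (gatN42 x) (fun _ => gatN02 x) (fun _ => gatN12 x) hd hx hx' CN.B022L_040
    · exact corTK_cert (G1 := gN0q0) (G2 := gN4q2) (Ga := gN1q2) (Gb := gN2q2) cB022L_ok B hρ (gatN00 x) (gatN42 x) (fun _ => gatN12 x) (fun _ => gatN22 x) hd hx hx' CN.B022L_041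
    · exact corTK_cert (G1 := gN0q0) (G2 := gN4q2) (Ga := gN2q2) (Gb := gN3q2) cB022L_ok B hρ (gatN00 x) (gatN42 x) (fun _ => gatN22 x) (fun h => absurd h (by decide)) hd hx hx' CN.B022L_042
    · exact absurd h2 (by norm_num)
  · exact fun l hl => absurd hl List.not_mem_nil

theorem altN_B022L_14 {κ x : ℝ} (hκ : κ * h0 = ken x) (hx : ((33554432 : ℕ) : ℝ) / S ≤ x) (hx' : x ≤ (((33554432 : ℕ) : ℝ) + (16777216 : ℕ)) / S) :
    AltB (VN 3 κ) PP tKN tL pcN [⟨0, 0, 0, 33554432⟩, ⟨1, 1, 0, 33554432⟩, ⟨2, 1, 0, 33554432⟩] 0 2 2 1 4 (sgb true) (sgb true) x := by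
  have X : XR 33554432 x := XR.of hx hx' (by norm_num) (by norm_num) (by norm_num) (by norm_num)
  refine (cornK_of [] (C := cB022L) (C0 := c0N) (j := (1 : Fin 5)) (k := (4 : Fin 5)) (lo := 0) (hi := 2) (W := 33554432) (N0 := 3) cB022L_q (sideN hx hx') gokN X (by norm_num) (by norm_num) (l := (0 : Fin 5)) rfl
    (gatN10 x) (gatN42 x) (gatN02 x) ?_).altNB rfl hκ le_rfl ?_
  · intro ρ a B hρ hd i h1 h2
    fin_cases i
    · exact corTK_cert (G1 := gN1q0) (G2 := gN4q2) (Ga := gN0q2) (Gb := gN1q2) cB022L_ok B hρ (gatN10 x) (gatN42 x) (fun _ => gatN02 x) (fun _ => gatN12 x) hd hx hx' CN.B022L_140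
    · exact corTK_cert (G1 := gN1q0) (G2 := gN4q2) (Ga := gN1q2) (Gb := gN2q2) cB022L_ok B hρ (gatN10 x) (gatN42 x) (fun _ => gatN12 x) (fun _ => gatN22 x) hd hx hx' CN.B022L_141
    · exact corTK_cert (G1 := gN1q0) (G2 := gN4q2) (Ga := gN2q2) (Gb := gN3q2) cB022L_ok B hρ (gatN10 x) (gatN42 x) (fun _ => gatN22 x) (fun h => absurd h (by decide)) hd hx hx' CN.B022L_142
    · exact absurd h2 (by norm_num)
  · exact fun l hl => absurd hl List.not_mem_nil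

theorem altN_B022L_24 {κ x : ℝ} (hκ : κ * h0 = ken x) (hx : ((33554432 : ℕ) : ℝ) / S ≤ x) (hx' : x ≤ (((33554432 : ℕ) : ℝ) + (16777216 : ℕ)) / S) :
    AltB (VN 3 κ) PP tKN tL pcN [⟨0, 0, 0, 33554432⟩, ⟨1, 1, 0, 33554432⟩, ⟨2, 1, 0, 33554432⟩] 0 2 2 2 4 (sgb true) (sgb true) x := by
  have X : XR 33554432 x := XR.of hx hx' (by norm_num) (by norm_num) (by norm_num) (by norm_num)
  refine (cornK_of [] (C := cB022L) (C0 := c0N) (j := (2 : Fin 5)) (k := (4 : Fin 5)) (lo := 0) (hi := 2) (W := 33554432) (N0 := 3) cB022L_q (sideN hx hx') gokN X (by norm_num) (by norm_num) (l := (0 : Fin 5)) rfl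
    (gatN20 x) (gatN42 x) (gatN02 x) ?_).altNB rfl hκ le_rfl ?_
  · intro ρ a B hρ hd i h1 h2
    fin_cases i
    · exact corTK_cert (G1 := gN2q0) (G2 := gN4q2) (Ga := gN0q2) (Gb := gN1q2) cB022L_ok B hρ (gatN20 x) (gatN42 x) (fun _ => gatN02 x) (fun _ => gatN12 x) hd hx hx' CN.B022L_240
    · exact corTK_cert (G1 := gN2q0) (G2 := gN4q2) (Ga := gN1q2) (Gb := gN2q2) cB022L_ok B hρ (gatN20 x) (gatN42 x) (fun _ => gatN12 x) (fun _ => gatN22 x) hd hx hx' CN.B022L_241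
    · exact corTK_cert (G1 := gN2q0) (G2 := gN4q2) (Ga := gN2q2) (Gb := gN3q2) cB022L_ok B hρ (gatN20 x) (gatN42 x) (fun _ => gatN22 x) (fun h => absurd h (by decide)) hd hx hx' CN.B022L_242
    · exact absurd h2 (by norm_num)
  · exact fun l hl => absurd hl List.not_mem_nil

theorem altN_B022R_00 {κ x : ℝ} (hκ : κ * h0 = ken x) (hx : ((33554432 : ℕ) : ℝ) / S ≤ x) (hx' : x ≤ (((33554432 : ℕ) : ℝ) + (16777216 : ℕ)) / S) :
    AltB (VN 3 κ) PP tKN tL pcN [⟨0, 0, 0, 33554432⟩, ⟨1, 1, 0, 33554432⟩, ⟨2, 1, 0, 33554432⟩] 0 2 2 0 0 (sgb true) (sgb false) x := by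
  have X : XR 33554432 x := XR.of hx hx' (by norm_num) (by norm_num) (by norm_num) (by norm_num)
  refine (cornK_of [] (C := cB022R) (C0 := c0N) (j := (0 : Fin 5)) (k := (0 : Fin 5)) (lo := 4) (hi := 4) (W := 33554432) (N0 := 3) cB022R_q (sideN hx hx') gokN X (by norm_num) (by norm_num) (l := (4 : Fin 5)) rfl
    (gatN00 x) (gatN02 x) (gatN42 x) ?_).altNB rfl hκ le_rfl ?_
  · intro ρ a B hρ hd i h1 h2
    fin_cases i
    · exact absurd h1 (by norm_num)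
    · exact absurd h1 (by norm_num)
    · exact absurd h1 (by norm_num)
    · exact corTK_cert (G1 := gN0q0) (G2 := gN0q2) (Ga := gN3q2) (Gb := gN4q2) cB022R_ok B hρ (gatN00 x) (gatN02 x) (fun h => absurd h (by decide)) (fun _ => gatN42 x) hd hx hx' CN.B022R_003
  · exact fun l hl => absurd hl List.not_mem_nil

theorem altN_B022R_01 {κ x : ℝ} (hκ : κ * h0 = ken x) (hx : ((33554432 : ℕ) : ℝ) / S ≤ x) (hx' : x ≤ (((33554432 : ℕ) : ℝ) + (16777216 : ℕ)) / S) :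
    AltB (VN 3 κ) PP tKN tL pcN [⟨0, 0, 0, 33554432⟩, ⟨1, 1, 0, 33554432⟩, ⟨2, 1, 0, 33554432⟩] 0 2 2 0 1 (sgb true) (sgb false) x := by
  have X : XR 33554432 x := XR.of hx hx' (by norm_num) (by norm_num) (by norm_num) (by norm_num)
  refine (cornK_of [] (C := cB022R) (C0 := c0N) (j := (0 : Fin 5)) (k := (1 : Fin 5)) (lo := 4) (hi := 4) (W := 33554432) (N0 := 3) cB022R_q (sideN hx hx') gokN X (by norm_num) (by norm_num) (l := (4 : Fin 5)) rfl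
    (gatN00 x) (gatN12 x) (gatN42 x) ?_).altNB rfl hκ le_rfl ?_
  · intro ρ a B hρ hd i h1 h2
    fin_cases i
    · exact absurd h1 (by norm_num)
    · exact absurd h1 (by norm_num)
    · exact absurd h1 (by norm_num)
    · exact corTK_cert (G1 := gN0q0) (G2 := gN1q2) (Ga := gN3q2) (Gb := gN4q2) cB022R_ok B hρ (gatN00 x) (gatN12 x) (fun h => absurd h (by decide)) (fun _ => gatN42 x) hd hx hx' CN.B022R_013
  · exact fun l hl => absurd hl List.not_mem_nil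

theorem altN_B022R_02 {κ x : ℝ} (hκ : κ * h0 = ken x) (hx : ((33554432 : ℕ) : ℝ) / S ≤ x) (hx' : x ≤ (((33554432 : ℕ) : ℝ) + (16777216 : ℕ)) / S) :
    AltB (VN 3 κ) PP tKN tL pcN [⟨0, 0, 0, 33554432⟩, ⟨1, 1, 0, 33554432⟩, ⟨2, 1, 0, 33554432⟩] 0 2 2 0 2 (sgb true) (sgb false) x := by
  have X : XR 33554432 x := XR.of hx hx' (by norm_num) (by norm_num) (by norm_num) (by norm_num)
  refine (cornK_of [] (C := cB022R) (C0 := c0N) (j := (0 : Fin 5)) (k := (2 : Fin 5)) (lo := 4) (hi := 4) (W := 33554432) (N0 := 3) cB022R_q (sideN hx hx') gokN X (by norm_num) (by norm_num) (l := (4 : Fin 5)) rfl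
    (gatN00 x) (gatN22 x) (gatN42 x) ?_).altNB rfl hκ le_rfl ?_
  · intro ρ a B hρ hd i h1 h2
    fin_cases i
    · exact absurd h1 (by norm_num)
    · exact absurd h1 (by norm_num)
    · exact absurd h1 (by norm_num)
    · exact corTK_cert (G1 := gN0q0) (G2 := gN2q2) (Ga := gN3q2) (Gb := gN4q2) cB022R_ok B hρ (gatN00 x) (gatN22 x) (fun h => absurd h (by decide)) (fun _ => gatN42 x) hd hx hx' CN.B022R_023
  · exact fun l hl => absurd hl List.not_mem_nil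

theorem altN_B022R_10 {κ x : ℝ} (hκ : κ * h0 = ken x) (hx : ((33554432 : ℕ) : ℝ) / S ≤ x) (hx' : x ≤ (((33554432 : ℕ) : ℝ) + (16777216 : ℕ)) / S) :
    AltB (VN 3 κ) PP tKN tL pcN [⟨0, 0, 0, 33554432⟩, ⟨1, 1, 0, 33554432⟩, ⟨2, 1, 0, 33554432⟩] 0 2 2 1 0 (sgb true) (sgb false) x := by
  have X : XR 33554432 x := XR.of hx hx' (by norm_num) (by norm_num) (by norm_num) (by norm_num)
  refine (cornK_of [] (C := cB022R) (C0 := c0N) (j := (1 : Fin 5)) (k := (0 : Fin 5)) (lo := 4) (hi := 4) (W := 33554432) (N0 := 3) cB022R_q (sideN hx hx') gokN X (by norm_num) (by norm_num) (l := (4 : Fin 5)) rfl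
    (gatN10 x) (gatN02 x) (gatN42 x) ?_).altNB rfl hκ le_rfl ?_
  · intro ρ a B hρ hd i h1 h2
    fin_cases i
    · exact absurd h1 (by norm_num)
    · exact absurd h1 (by norm_num)
    · exact absurd h1 (by norm_num)
    · exact corTK_cert (G1 := gN1q0) (G2 := gN0q2) (Ga := gN3q2) (Gb := gN4q2) cB022R_ok B hρ (gatN10 x) (gatN02 x) (fun h => absurd h (by decide)) (fun _ => gatN42 x) hd hx hx' CN.B022R_103
  · exact fun l hl => absurd hl List.not_mem_nil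

theorem altN_B022R_11 {κ x : ℝ} (hκ : κ * h0 = ken x) (hx : ((33554432 : ℕ) : ℝ) / S ≤ x) (hx' : x ≤ (((33554432 : ℕ) : ℝ) + (16777216 : ℕ)) / S) :
    AltB (VN 3 κ) PP tKN tL pcN [⟨0, 0, 0, 33554432⟩, ⟨1, 1, 0, 33554432⟩, ⟨2, 1, 0, 33554432⟩] 0 2 2 1 1 (sgb true) (sgb false) x := by
  have X : XR 33554432 x := XR.of hx hx' (by norm_num) (by norm_num) (by norm_num) (by norm_num)
  refine (cornK_of [] (C := cB022R) (C0 := c0N) (j := (1 : Fin 5)) (k := (1 : Fin 5)) (lo := 4) (hi := 4) (W := 33554432) (N0 := 3) cB022R_q (sideN hx hx') gokN X (by norm_num) (by norm_num) (l := (4 : Fin 5)) rfl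
    (gatN10 x) (gatN12 x) (gatN42 x) ?_).altNB rfl hκ le_rfl ?_
  · intro ρ a B hρ hd i h1 h2
    fin_cases i
    · exact absurd h1 (by norm_num)
    · exact absurd h1 (by norm_num)
    · exact absurd h1 (by norm_num)
    · exact corTK_cert (G1 := gN1q0) (G2 := gN1q2) (Ga := gN3q2) (Gb := gN4q2) cB022R_ok B hρ (gatN10 x) (gatN12 x) (fun h => absurd h (by decide)) (fun _ => gatN42 x) hd hx hx' CN.B022R_113
  · exact fun l hl => absurd hl List.not_mem_nil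

theorem altN_B022R_12 {κ x : ℝ} (hκ : κ * h0 = ken x) (hx : ((33554432 : ℕ) : ℝ) / S ≤ x) (hx' : x ≤ (((33554432 : ℕ) : ℝ) + (16777216 : ℕ)) / S) :
    AltB (VN 3 κ) PP tKN tL pcN [⟨0, 0, 0, 33554432⟩, ⟨1, 1, 0, 33554432⟩, ⟨2, 1, 0, 33554432⟩] 0 2 2 1 2 (sgb true) (sgb false) x := by
  have X : XR 33554432 x := XR.of hx hx' (by norm_num) (by norm_num) (by norm_num) (by norm_num)
  refine (cornK_of [] (C := cB022R) (C0 := c0N) (j := (1 : Fin 5)) (k := (2 : Fin 5)) (lo := 4) (hi := 4) (W := 33554432) (N0 := 3) cB022R_q (sideN hx hx') gokN X (by norm_num) (by norm_num) (l := (4 : Fin 5)) rfl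
    (gatN10 x) (gatN22 x) (gatN42 x) ?_).altNB rfl hκ le_rfl ?_
  · intro ρ a B hρ hd i h1 h2
    fin_cases i
    · exact absurd h1 (by norm_num)
    · exact absurd h1 (by norm_num)
    · exact absurd h1 (by norm_num)
    · exact corTK_cert (G1 := gN1q0) (G2 := gN2q2) (Ga := gN3q2) (Gb := gN4q2) cB022R_ok B hρ (gatN10 x) (gatN22 x) (fun h => absurd h (by decide)) (fun _ => gatN42 x) hd hx hx' CN.B022R_123
  · exact fun l hl => absurd hl List.not_mem_nil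

theorem altN_B022R_20 {κ x : ℝ} (hκ : κ * h0 = ken x) (hx : ((33554432 : ℕ) : ℝ) / S ≤ x) (hx' : x ≤ (((33554432 : ℕ) : ℝ) + (16777216 : ℕ)) / S) :
    AltB (VN 3 κ) PP tKN tL pcN [⟨0, 0, 0, 33554432⟩, ⟨1, 1, 0, 33554432⟩, ⟨2, 1, 0, 33554432⟩] 0 2 2 2 0 (sgb true) (sgb false) x := by
  have X : XR 33554432 x := XR.of hx hx' (by norm_num) (by norm_num) (by norm_num) (by norm_num)
  refine (cornK_of [] (C := cB022R) (C0 := c0N) (j := (2 : Fin 5)) (k := (0 : Fin 5)) (lo := 4) (hi := 4) (W := 33554432) (N0 := 3) cB022R_q (sideN hx hx') gokN X (by norm_num) (by norm_num) (l := (4 : Fin 5)) rfl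
    (gatN20 x) (gatN02 x) (gatN42 x) ?_).altNB rfl hκ le_rfl ?_
  · intro ρ a B hρ hd i h1 h2
    fin_cases i
    · exact absurd h1 (by norm_num)
    · exact absurd h1 (by norm_num)
    · exact absurd h1 (by norm_num)
    · exact corTK_cert (G1 := gN2q0) (G2 := gN0q2) (Ga := gN3q2) (Gb := gN4q2) cB022R_ok B hρ (gatN20 x) (gatN02 x) (fun h => absurd h (by decide)) (fun _ => gatN42 x) hd hx hx' CN.B022R_203
  · exact fun l hl => absurd hl List.not_mem_nil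

theorem altN_B022R_21 {κ x : ℝ} (hκ : κ * h0 = ken x) (hx : ((33554432 : ℕ) : ℝ) / S ≤ x) (hx' : x ≤ (((33554432 : ℕ) : ℝ) + (16777216 : ℕ)) / S) :
    AltB (VN 3 κ) PP tKN tL pcN [⟨0, 0, 0, 33554432⟩, ⟨1, 1, 0, 33554432⟩, ⟨2, 1, 0, 33554432⟩] 0 2 2 2 1 (sgb true) (sgb false) x := by
  have X : XR 33554432 x := XR.of hx hx' (by norm_num) (by norm_num) (by norm_num) (by norm_num)
  refine (cornK_of [] (C := cB022R) (C0 := c0N) (j := (2 : Fin 5)) (k := (1 : Fin 5)) (lo := 4) (hi := 4) (W := 33554432) (N0 := 3) cB022R_q (sideN hx hx') gokN X (by norm_num) (by norm_num) (l := (4 : Fin 5)) rfl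
    (gatN20 x) (gatN12 x) (gatN42 x) ?_).altNB rfl hκ le_rfl ?_
  · intro ρ a B hρ hd i h1 h2
    fin_cases i
    · exact absurd h1 (by norm_num)
    · exact absurd h1 (by norm_num)
    · exact absurd h1 (by norm_num)
    · exact corTK_cert (G1 := gN2q0) (G2 := gN1q2) (Ga := gN3q2) (Gb := gN4q2) cB022R_ok B hρ (gatN20 x) (gatN12 x) (fun h => absurd h (by decide)) (fun _ => gatN42 x) hd hx hx' CN.B022R_213
  · exact fun l hl => absurd hl List.not_mem_nil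

theorem altN_B022R_22 {κ x : ℝ} (hκ : κ * h0 = ken x) (hx : ((33554432 : ℕ) : ℝ) / S ≤ x) (hx' : x ≤ (((33554432 : ℕ) : ℝ) + (16777216 : ℕ)) / S) :
    AltB (VN 3 κ) PP tKN tL pcN [⟨0, 0, 0, 33554432⟩, ⟨1, 1, 0, 33554432⟩, ⟨2, 1, 0, 33554432⟩] 0 2 2 2 2 (sgb true) (sgb false) x := by
  have X : XR 33554432 x := XR.of hx hx' (by norm_num) (by norm_num) (by norm_num) (by norm_num)
  refine (cornK_of [] (C := cB022R) (C0 := c0N) (j := (2 : Fin 5)) (k := (2 : Fin 5)) (lo := 4) (hi := 4) (W := 33554432) (N0 := 3) cB022R_q (sideN hx hx') gokN X (by norm_num) (by norm_num) (l := (4 : Fin 5)) rfl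
    (gatN20 x) (gatN22 x) (gatN42 x) ?_).altNB rfl hκ le_rfl ?_
  · intro ρ a B hρ hd i h1 h2
    fin_cases i
    · exact absurd h1 (by norm_num)
    · exact absurd h1 (by norm_num)
    · exact absurd h1 (by norm_num)
    · exact corTK_cert (G1 := gN2q0) (G2 := gN2q2) (Ga := gN3q2) (Gb := gN4q2) cB022R_ok B hρ (gatN20 x) (gatN22 x) (fun h => absurd h (by decide)) (fun _ => gatN42 x) hd hx hx' CN.B022R_223
  · exact fun l hl => absurd hl List.not_mem_nil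

theorem altN_B101E_00 {κ x : ℝ} (hκ : κ * h0 = ken x) (hx : ((33554432 : ℕ) : ℝ) / S ≤ x) (hx' : x ≤ (((33554432 : ℕ) : ℝ) + (16777216 : ℕ)) / S) :
    AltB (VN 3 κ) PP tKN tL pcN [⟨0, 1, 0, 33554432⟩, ⟨1, 0, 0, 33554432⟩, ⟨2, 1, 0, 33554432⟩] 1 0 1 0 0 (sgb true) (sgb false) x := by
  have X : XR 33554432 x := XR.of hx hx' (by norm_num) (by norm_num) (by norm_num) (by norm_num)
  refine (cornK_of [] (C := cB101E) (C0 := c0N) (j := (0 : Fin 5)) (k := (0 : Fin 5)) (lo := 0) (hi := 2) (W := 33554432) (N0 := 3) cB101E_q (sideN hx hx') gokN X (by norm_num) (by norm_num) (l := (0 : Fin 5)) rfl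
    (gatN01 x) (gatN01 x) (gatN00 x) ?_).altNB rfl hκ le_rfl ?_
  · intro ρ a B hρ hd i h1 h2
    fin_cases i
    · exact corTK_cert (G1 := gN0q1) (G2 := gN0q1) (Ga := gN0q0) (Gb := gN1q0) cB101E_ok B hρ (gatN01 x) (gatN01 x) (fun _ => gatN00 x) (fun _ => gatN10 x) hd hx hx' CN.B101E_000
    · exact corTK_cert (G1 := gN0q1) (G2 := gN0q1) (Ga := gN1q0) (Gb := gN2q0) cB101E_ok B hρ (gatN01 x) (gatN01 x) (fun _ => gatN10 x) (fun _ => gatN20 x) hd hx hx' CN.B101E_001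
    · exact corTK_cert (G1 := gN0q1) (G2 := gN0q1) (Ga := gN2q0) (Gb := gN3q0) cB101E_ok B hρ (gatN01 x) (gatN01 x) (fun _ => gatN20 x) (fun h => absurd h (by decide)) hd hx hx' CN.B101E_002
    · exact absurd h2 (by norm_num)
  · exact fun l hl => absurd hl List.not_mem_nil

theorem altN_B101L_20 {κ x : ℝ} (hκ : κ * h0 = ken x) (hx : ((33554432 : ℕ) : ℝ) / S ≤ x) (hx' : x ≤ (((33554432 : ℕ) : ℝ) + (16777216 : ℕ)) / S) :
    AltB (VN 3 κ) PP tKN tL pcN [⟨0, 1, 0, 33554432⟩, ⟨1, 0, 0, 33554432⟩, ⟨2, 1, 0, 33554432⟩] 1 0 1 2 0 (sgb true) (sgb true) x := by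
  have X : XR 33554432 x := XR.of hx hx' (by norm_num) (by norm_num) (by norm_num) (by norm_num)
  refine (cornK_of [[⟨0, 1, 2, 25165824⟩, ⟨1, 0, 1, 25165824⟩, ⟨2, 1, 0, 7864320⟩, ⟨0, 0, 0, 1056964608⟩, ⟨0, 1, 0, 67108864⟩, ⟨1, 0, 0, 67108864⟩, ⟨1, 1, 0, 1056964608⟩]] (C := cB101L) (C0 := c0N) (j := (2 : Fin 5)) (k := (0 : Fin 5)) (lo := 0) (hi := 2) (W := 33554432) (N0 := 3) cB101L_q (sideN hx hx') gokN X (by norm_num) (by norm_num) (l := (0 : Fin 5)) rfl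
    (gatN21 x) (gatN01 x) (gatN00 x) ?_).altNB rfl hκ le_rfl ?_
  · intro ρ a B hρ hd i h1 h2
    fin_cases i
    · exact corTK_cert (G1 := gN2q1) (G2 := gN0q1) (Ga := gN0q0) (Gb := gN1q0) cB101L_ok B hρ (gatN21 x) (gatN01 x) (fun _ => gatN00 x) (fun _ => gatN10 x) hd hx hx' CN.B101L_200
    · exact corTK_cert (G1 := gN2q1) (G2 := gN0q1) (Ga := gN1q0) (Gb := gN2q0) cB101L_ok B hρ (gatN21 x) (gatN01 x) (fun _ => gatN10 x) (fun _ => gatN20 x) hd hx hx' CN.B101L_201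
    · exact corTK_cert (G1 := gN2q1) (G2 := gN0q1) (Ga := gN2q0) (Gb := gN3q0) cB101L_ok B hρ (gatN21 x) (gatN01 x) (fun _ => gatN20 x) (fun h => absurd h (by decide)) hd hx hx' CN.B101L_202
    · exact absurd h2 (by norm_num)
  · intro l hl
    simp only [List.mem_cons, List.not_mem_nil, or_false] at hl
    rcases hl with rfl
    · exact Mo.molN_B_101_20_7 hκ hx hx'

theorem altN_B101L_30 {κ x : ℝ} (hκ : κ * h0 = ken x) (hx : ((33554432 : ℕ) : ℝ) / S ≤ x) (hx' : x ≤ (((33554432 : ℕ) : ℝ) + (16777216 : ℕ)) / S) :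
    AltB (VN 3 κ) PP tKN tL pcN [⟨0, 1, 0, 33554432⟩, ⟨1, 0, 0, 33554432⟩, ⟨2, 1, 0, 33554432⟩] 1 0 1 3 0 (sgb true) (sgb true) x := by
  have X : XR 33554432 x := XR.of hx hx' (by norm_num) (by norm_num) (by norm_num) (by norm_num)
  refine (cornK_of [] (C := cB101L) (C0 := c0N) (j := (3 : Fin 5)) (k := (0 : Fin 5)) (lo := 0) (hi := 2) (W := 33554432) (N0 := 3) cB101L_q (sideN hx hx') gokN X (by norm_num) (by norm_num) (l := (0 : Fin 5)) rfl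
    (gatN31 x) (gatN01 x) (gatN00 x) ?_).altNB rfl hκ le_rfl ?_
  · intro ρ a B hρ hd i h1 h2
    fin_cases i
    · exact corTK_cert (G1 := gN3q1) (G2 := gN0q1) (Ga := gN0q0) (Gb := gN1q0) cB101L_ok B hρ (gatN31 x) (gatN01 x) (fun _ => gatN00 x) (fun _ => gatN10 x) hd hx hx' CN.B101L_300
    · exact corTK_cert (G1 := gN3q1) (G2 := gN0q1) (Ga := gN1q0) (Gb := gN2q0) cB101L_ok B hρ (gatN31 x) (gatN01 x) (fun _ => gatN10 x) (fun _ => gatN20 x) hd hx hx' CN.B101L_301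
    · exact corTK_cert (G1 := gN3q1) (G2 := gN0q1) (Ga := gN2q0) (Gb := gN3q0) cB101L_ok B hρ (gatN31 x) (gatN01 x) (fun _ => gatN20 x) (fun h => absurd h (by decide)) hd hx hx' CN.B101L_302
    · exact absurd h2 (by norm_num)
  · exact fun l hl => absurd hl List.not_mem_nil

theorem altN_B101L_40 {κ x : ℝ} (hκ : κ * h0 = ken x) (hx : ((33554432 : ℕ) : ℝ) / S ≤ x) (hx' : x ≤ (((33554432 : ℕ) : ℝ) + (16777216 : ℕ)) / S) :
    AltB (VN 3 κ) PP tKN tL pcN [⟨0, 1, 0, 33554432⟩, ⟨1, 0, 0, 33554432⟩, ⟨2, 1, 0, 33554432⟩] 1 0 1 4 0 (sgb true) (sgb true) x := by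
  have X : XR 33554432 x := XR.of hx hx' (by norm_num) (by norm_num) (by norm_num) (by norm_num)
  refine (cornK_of [] (C := cB101L) (C0 := c0N) (j := (4 : Fin 5)) (k := (0 : Fin 5)) (lo := 0) (hi := 2) (W := 33554432) (N0 := 3) cB101L_q (sideN hx hx') gokN X (by norm_num) (by norm_num) (l := (0 : Fin 5)) rfl
    (gatN41 x) (gatN01 x) (gatN00 x) ?_).altNB rfl hκ le_rfl ?_
  · intro ρ a B hρ hd i h1 h2
    fin_cases i
    · exact corTK_cert (G1 := gN4q1) (G2 := gN0q1) (Ga := gN0q0) (Gb := gN1q0) cB101L_ok B hρ (gatN41 x) (gatN01 x) (fun _ => gatN00 x) (fun _ => gatN10 x) hd hx hx' CN.B101L_400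
    · exact corTK_cert (G1 := gN4q1) (G2 := gN0q1) (Ga := gN1q0) (Gb := gN2q0) cB101L_ok B hρ (gatN41 x) (gatN01 x) (fun _ => gatN10 x) (fun _ => gatN20 x) hd hx hx' CN.B101L_401
    · exact corTK_cert (G1 := gN4q1) (G2 := gN0q1) (Ga := gN2q0) (Gb := gN3q0) cB101L_ok B hρ (gatN41 x) (gatN01 x) (fun _ => gatN20 x) (fun h => absurd h (by decide)) hd hx hx' CN.B101L_402
    · exact absurd h2 (by norm_num)
  · exact fun l hl => absurd hl List.not_mem_nil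

theorem altN_B101R_02 {κ x : ℝ} (hκ : κ * h0 = ken x) (hx : ((33554432 : ℕ) : ℝ) / S ≤ x) (hx' : x ≤ (((33554432 : ℕ) : ℝ) + (16777216 : ℕ)) / S) :
    AltB (VN 3 κ) PP tKN tL pcN [⟨0, 1, 0, 33554432⟩, ⟨1, 0, 0, 33554432⟩, ⟨2, 1, 0, 33554432⟩] 1 0 1 0 2 (sgb false) (sgb false) x := by
  have X : XR 33554432 x := XR.of hx hx' (by norm_num) (by norm_num) (by norm_num) (by norm_num)
  refine (cornK_of [] (C := cB101R) (C0 := c0N) (j := (0 : Fin 5)) (k := (2 : Fin 5)) (lo := 0) (hi := 2) (W := 33554432) (N0 := 3) cB101R_q (sideN hx hx') gokN X (by norm_num) (by norm_num) (l := (0 : Fin 5)) rfl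
    (gatN01 x) (gatN21 x) (gatN00 x) ?_).altNB rfl hκ le_rfl ?_
  · intro ρ a B hρ hd i h1 h2
    fin_cases i
    · exact corTK_cert (G1 := gN0q1) (G2 := gN2q1) (Ga := gN0q0) (Gb := gN1q0) cB101R_ok B hρ (gatN01 x) (gatN21 x) (fun _ => gatN00 x) (fun _ => gatN10 x) hd hx hx' CN.B101R_020
    · exact corTK_cert (G1 := gN0q1) (G2 := gN2q1) (Ga := gN1q0) (Gb := gN2q0) cB101R_ok B hρ (gatN01 x) (gatN21 x) (fun _ => gatN10 x) (fun _ => gatN20 x) hd hx hx' CN.B101R_021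
    · exact corTK_cert (G1 := gN0q1) (G2 := gN2q1) (Ga := gN2q0) (Gb := gN3q0) cB101R_ok B hρ (gatN01 x) (gatN21 x) (fun _ => gatN20 x) (fun h => absurd h (by decide)) hd hx hx' CN.B101R_022
    · exact absurd h2 (by norm_num)
  · exact fun l hl => absurd hl List.not_mem_nil

theorem altN_B101R_03 {κ x : ℝ} (hκ : κ * h0 = ken x) (hx : ((33554432 : ℕ) : ℝ) / S ≤ x) (hx' : x ≤ (((33554432 : ℕ) : ℝ) + (16777216 : ℕ)) / S) :
    AltB (VN 3 κ) PP tKN tL pcN [⟨0, 1, 0, 33554432⟩, ⟨1, 0, 0, 33554432⟩, ⟨2, 1, 0, 33554432⟩] 1 0 1 0 3 (sgb false) (sgb false) x := by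
  have X : XR 33554432 x := XR.of hx hx' (by norm_num) (by norm_num) (by norm_num) (by norm_num)
  refine (cornK_of [] (C := cB101R) (C0 := c0N) (j := (0 : Fin 5)) (k := (3 : Fin 5)) (lo := 0) (hi := 2) (W := 33554432) (N0 := 3) cB101R_q (sideN hx hx') gokN X (by norm_num) (by norm_num) (l := (0 : Fin 5)) rfl
    (gatN01 x) (gatN31 x) (gatN00 x) ?_).altNB rfl hκ le_rfl ?_
  · intro ρ a B hρ hd i h1 h2
    fin_cases i
    · exact corTK_cert (G1 := gN0q1) (G2 := gN3q1) (Ga := gN0q0) (Gb := gN1q0) cB101R_ok B hρ (gatN01 x) (gatN31 x) (fun _ => gatN00 x) (fun _ => gatN10 x) hd hx hx' CN.B101R_030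
    · exact corTK_cert (G1 := gN0q1) (G2 := gN3q1) (Ga := gN1q0) (Gb := gN2q0) cB101R_ok B hρ (gatN01 x) (gatN31 x) (fun _ => gatN10 x) (fun _ => gatN20 x) hd hx hx' CN.B101R_031
    · exact corTK_cert (G1 := gN0q1) (G2 := gN3q1) (Ga := gN2q0) (Gb := gN3q0) cB101R_ok B hρ (gatN01 x) (gatN31 x) (fun _ => gatN20 x) (fun h => absurd h (by decide)) hd hx hx' CN.B101R_032
    · exact absurd h2 (by norm_num)
  · exact fun l hl => absurd hl List.not_mem_nil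

theorem altN_B101R_04 {κ x : ℝ} (hκ : κ * h0 = ken x) (hx : ((33554432 : ℕ) : ℝ) / S ≤ x) (hx' : x ≤ (((33554432 : ℕ) : ℝ) + (16777216 : ℕ)) / S) :
    AltB (VN 3 κ) PP tKN tL pcN [⟨0, 1, 0, 33554432⟩, ⟨1, 0, 0, 33554432⟩, ⟨2, 1, 0, 33554432⟩] 1 0 1 0 4 (sgb false) (sgb false) x := by
  have X : XR 33554432 x := XR.of hx hx' (by norm_num) (by norm_num) (by norm_num) (by norm_num)
  refine (cornK_of [] (C := cB101R) (C0 := c0N) (j := (0 : Fin 5)) (k := (4 : Fin 5)) (lo := 0) (hi := 2) (W := 33554432) (N0 := 3) cB101R_q (sideN hx hx') gokN X (by norm_num) (by norm_num) (l := (0 : Fin 5)) rfl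
    (gatN01 x) (gatN41 x) (gatN00 x) ?_).altNB rfl hκ le_rfl ?_
  · intro ρ a B hρ hd i h1 h2
    fin_cases i
    · exact corTK_cert (G1 := gN0q1) (G2 := gN4q1) (Ga := gN0q0) (Gb := gN1q0) cB101R_ok B hρ (gatN01 x) (gatN41 x) (fun _ => gatN00 x) (fun _ => gatN10 x) hd hx hx' CN.B101R_040
    · exact corTK_cert (G1 := gN0q1) (G2 := gN4q1) (Ga := gN1q0) (Gb := gN2q0) cB101R_ok B hρ (gatN01 x) (gatN41 x) (fun _ => gatN10 x) (fun _ => gatN20 x) hd hx hx' CN.B101R_041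
    · exact corTK_cert (G1 := gN0q1) (G2 := gN4q1) (Ga := gN2q0) (Gb := gN3q0) cB101R_ok B hρ (gatN01 x) (gatN41 x) (fun _ => gatN20 x) (fun h => absurd h (by decide)) hd hx hx' CN.B101R_042
    · exact absurd h2 (by norm_num)
  · exact fun l hl => absurd hl List.not_mem_nil

theorem altN_B102E_00 {κ x : ℝ} (hκ : κ * h0 = ken x) (hx : ((33554432 : ℕ) : ℝ) / S ≤ x) (hx' : x ≤ (((33554432 : ℕ) : ℝ) + (16777216 : ℕ)) / S) :
    AltB (VN 3 κ) PP tKN tL pcN [⟨0, 1, 0, 33554432⟩, ⟨1, 0, 0, 33554432⟩, ⟨2, 1, 0, 33554432⟩] 1 0 2 0 0 (sgb true) (sgb false) x := by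
  have X : XR 33554432 x := XR.of hx hx' (by norm_num) (by norm_num) (by norm_num) (by norm_num)
  refine (cornK_of [] (C := cB102E) (C0 := c0N) (j := (0 : Fin 5)) (k := (0 : Fin 5)) (lo := 0) (hi := 2) (W := 33554432) (N0 := 3) cB102E_q (sideN hx hx') gokN X (by norm_num) (by norm_num) (l := (0 : Fin 5)) rfl
    (gatN01 x) (gatN02 x) (gatN00 x) ?_).altNB rfl hκ le_rfl ?_
  · intro ρ a B hρ hd i h1 h2
    fin_cases i
    · exact corTK_cert (G1 := gN0q1) (G2 := gN0q2) (Ga := gN0q0) (Gb := gN1q0) cB102E_ok B hρ (gatN01 x) (gatN02 x) (fun _ => gatN00 x) (fun _ => gatN10 x) hd hx hx' CN.B102E_000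
    · exact corTK_cert (G1 := gN0q1) (G2 := gN0q2) (Ga := gN1q0) (Gb := gN2q0) cB102E_ok B hρ (gatN01 x) (gatN02 x) (fun _ => gatN10 x) (fun _ => gatN20 x) hd hx hx' CN.B102E_001
    · exact corTK_cert (G1 := gN0q1) (G2 := gN0q2) (Ga := gN2q0) (Gb := gN3q0) cB102E_ok B hρ (gatN01 x) (gatN02 x) (fun _ => gatN20 x) (fun h => absurd h (by decide)) hd hx hx' CN.B102E_002
    · exact absurd h2 (by norm_num)
  · exact fun l hl => absurd hl List.not_mem_nil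

theorem altN_B102E_01 {κ x : ℝ} (hκ : κ * h0 = ken x) (hx : ((33554432 : ℕ) : ℝ) / S ≤ x) (hx' : x ≤ (((33554432 : ℕ) : ℝ) + (16777216 : ℕ)) / S) :
    AltB (VN 3 κ) PP tKN tL pcN [⟨0, 1, 0, 33554432⟩, ⟨1, 0, 0, 33554432⟩, ⟨2, 1, 0, 33554432⟩] 1 0 2 0 1 (sgb true) (sgb false) x := by
  have X : XR 33554432 x := XR.of hx hx' (by norm_num) (by norm_num) (by norm_num) (by norm_num)
  refine (cornK_of [] (C := cB102E) (C0 := c0N) (j := (0 : Fin 5)) (k := (1 : Fin 5)) (lo := 0) (hi := 2) (W := 33554432) (N0 := 3) cB102E_q (sideN hx hx') gokN X (by norm_num) (by norm_num) (l := (0 : Fin 5)) rfl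
    (gatN01 x) (gatN12 x) (gatN00 x) ?_).altNB rfl hκ le_rfl ?_
  · intro ρ a B hρ hd i h1 h2
    fin_cases i
    · exact corTK_cert (G1 := gN0q1) (G2 := gN1q2) (Ga := gN0q0) (Gb := gN1q0) cB102E_ok B hρ (gatN01 x) (gatN12 x) (fun _ => gatN00 x) (fun _ => gatN10 x) hd hx hx' CN.B102E_010
    · exact corTK_cert (G1 := gN0q1) (G2 := gN1q2) (Ga := gN1q0) (Gb := gN2q0) cB102E_ok B hρ (gatN01 x) (gatN12 x) (fun _ => gatN10 x) (fun _ => gatN20 x) hd hx hx' CN.B102E_011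
    · exact corTK_cert (G1 := gN0q1) (G2 := gN1q2) (Ga := gN2q0) (Gb := gN3q0) cB102E_ok B hρ (gatN01 x) (gatN12 x) (fun _ => gatN20 x) (fun h => absurd h (by decide)) hd hx hx' CN.B102E_012
    · exact absurd h2 (by norm_num)
  · exact fun l hl => absurd hl List.not_mem_nil

theorem altN_B102E_02 {κ x : ℝ} (hκ : κ * h0 = ken x) (hx : ((33554432 : ℕ) : ℝ) / S ≤ x) (hx' : x ≤ (((33554432 : ℕ) : ℝ) + (16777216 : ℕ)) / S) :
    AltB (VN 3 κ) PP tKN tL pcN [⟨0, 1, 0, 33554432⟩, ⟨1, 0, 0, 33554432⟩, ⟨2, 1, 0, 33554432⟩] 1 0 2 0 2 (sgb true) (sgb false) x := by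
  have X : XR 33554432 x := XR.of hx hx' (by norm_num) (by norm_num) (by norm_num) (by norm_num)
  refine (cornK_of [[⟨0, 1, 0, 6291456⟩, ⟨1, 0, 1, 16777216⟩, ⟨2, 1, 1, 16777216⟩, ⟨1, 0, 0, 67108864⟩, ⟨1, 1, 0, 1056964608⟩, ⟨2, 1, 0, 67108864⟩, ⟨2, 2, 0, 1056964608⟩]] (C := cB102E) (C0 := c0N) (j := (0 : Fin 5)) (k := (2 : Fin 5)) (lo := 0) (hi := 2) (W := 33554432) (N0 := 3) cB102E_q (sideN hx hx') gokN X (by norm_num) (by norm_num) (l := (0 : Fin 5)) rfl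
    (gatN01 x) (gatN22 x) (gatN00 x) ?_).altNB rfl hκ le_rfl ?_
  · intro ρ a B hρ hd i h1 h2
    fin_cases i
    · exact corTK_cert (G1 := gN0q1) (G2 := gN2q2) (Ga := gN0q0) (Gb := gN1q0) cB102E_ok B hρ (gatN01 x) (gatN22 x) (fun _ => gatN00 x) (fun _ => gatN10 x) hd hx hx' CN.B102E_020
    · exact corTK_cert (G1 := gN0q1) (G2 := gN2q2) (Ga := gN1q0) (Gb := gN2q0) cB102E_ok B hρ (gatN01 x) (gatN22 x) (fun _ => gatN10 x) (fun _ => gatN20 x) hd hx hx' CN.B102E_021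
    · exact corTK_cert (G1 := gN0q1) (G2 := gN2q2) (Ga := gN2q0) (Gb := gN3q0) cB102E_ok B hρ (gatN01 x) (gatN22 x) (fun _ => gatN20 x) (fun h => absurd h (by decide)) hd hx hx' CN.B102E_022
    · exact absurd h2 (by norm_num)
  · intro l hl
    simp only [List.mem_cons, List.not_mem_nil, or_false] at hl
    rcases hl with rfl
    · exact Mo.molN_B_102_02_5 hκ hx hx'

theorem altN_B102L_20 {κ x : ℝ} (hκ : κ * h0 = ken x) (hx : ((33554432 : ℕ) : ℝ) / S ≤ x) (hx' : x ≤ (((33554432 : ℕ) : ℝ) + (16777216 : ℕ)) / S) :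
    AltB (VN 3 κ) PP tKN tL pcN [⟨0, 1, 0, 33554432⟩, ⟨1, 0, 0, 33554432⟩, ⟨2, 1, 0, 33554432⟩] 1 0 2 2 0 (sgb true) (sgb true) x := by
  have X : XR 33554432 x := XR.of hx hx' (by norm_num) (by norm_num) (by norm_num) (by norm_num)
  refine (cornK_of [[⟨0, 1, 2, 25165824⟩, ⟨1, 0, 1, 25165824⟩, ⟨2, 1, 0, 7864320⟩, ⟨0, 0, 0, 1056964608⟩, ⟨0, 1, 0, 67108864⟩, ⟨1, 0, 0, 67108864⟩, ⟨1, 1, 0, 1056964608⟩]] (C := cB102L) (C0 := c0N) (j := (2 : Fin 5)) (k := (0 : Fin 5)) (lo := 0) (hi := 2) (W := 33554432) (N0 := 3) cB102L_q (sideN hx hx') gokN X (by norm_num) (by norm_num) (l := (0 : Fin 5)) rfl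
    (gatN21 x) (gatN02 x) (gatN00 x) ?_).altNB rfl hκ le_rfl ?_
  · intro ρ a B hρ hd i h1 h2
    fin_cases i
    · exact corTK_cert (G1 := gN2q1) (G2 := gN0q2) (Ga := gN0q0) (Gb := gN1q0) cB102L_ok B hρ (gatN21 x) (gatN02 x) (fun _ => gatN00 x) (fun _ => gatN10 x) hd hx hx' CN.B102L_200
    · exact corTK_cert (G1 := gN2q1) (G2 := gN0q2) (Ga := gN1q0) (Gb := gN2q0) cB102L_ok B hρ (gatN21 x) (gatN02 x) (fun _ => gatN10 x) (fun _ => gatN20 x) hd hx hx' CN.B102L_201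
    · exact corTK_cert (G1 := gN2q1) (G2 := gN0q2) (Ga := gN2q0) (Gb := gN3q0) cB102L_ok B hρ (gatN21 x) (gatN02 x) (fun _ => gatN20 x) (fun h => absurd h (by decide)) hd hx hx' CN.B102L_202
    · exact absurd h2 (by norm_num)
  · intro l hl
    simp only [List.mem_cons, List.not_mem_nil, or_false] at hl
    rcases hl with rfl
    · exact Mo.molN_B_102_20_7 hκ hx hx'

theorem altN_B102L_21 {κ x : ℝ} (hκ : κ * h0 = ken x) (hx : ((33554432 : ℕ) : ℝ) / S ≤ x) (hx' : x ≤ (((33554432 : ℕ) : ℝ) + (16777216 : ℕ)) / S) :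
    AltB (VN 3 κ) PP tKN tL pcN [⟨0, 1, 0, 33554432⟩, ⟨1, 0, 0, 33554432⟩, ⟨2, 1, 0, 33554432⟩] 1 0 2 2 1 (sgb true) (sgb true) x := by
  have X : XR 33554432 x := XR.of hx hx' (by norm_num) (by norm_num) (by norm_num) (by norm_num)
  refine (cornK_of [[⟨0, 1, 2, 25165824⟩, ⟨1, 0, 1, 25165824⟩, ⟨2, 1, 0, 16777216⟩, ⟨0, 0, 0, 1056964608⟩, ⟨0, 1, 0, 67108864⟩, ⟨1, 0, 0, 67108864⟩, ⟨1, 1, 0, 1056964608⟩]] (C := cB102L) (C0 := c0N) (j := (2 : Fin 5)) (k := (1 : Fin 5)) (lo := 0) (hi := 2) (W := 33554432) (N0 := 3) cB102L_q (sideN hx hx') gokN X (by norm_num) (by norm_num) (l := (0 : Fin 5)) rfl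
    (gatN21 x) (gatN12 x) (gatN00 x) ?_).altNB rfl hκ le_rfl ?_
  · intro ρ a B hρ hd i h1 h2
    fin_cases i
    · exact corTK_cert (G1 := gN2q1) (G2 := gN1q2) (Ga := gN0q0) (Gb := gN1q0) cB102L_ok B hρ (gatN21 x) (gatN12 x) (fun _ => gatN00 x) (fun _ => gatN10 x) hd hx hx' CN.B102L_210
    · exact corTK_cert (G1 := gN2q1) (G2 := gN1q2) (Ga := gN1q0) (Gb := gN2q0) cB102L_ok B hρ (gatN21 x) (gatN12 x) (fun _ => gatN10 x) (fun _ => gatN20 x) hd hx hx' CN.B102L_211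
    · exact corTK_cert (G1 := gN2q1) (G2 := gN1q2) (Ga := gN2q0) (Gb := gN3q0) cB102L_ok B hρ (gatN21 x) (gatN12 x) (fun _ => gatN20 x) (fun h => absurd h (by decide)) hd hx hx' CN.B102L_212
    · exact absurd h2 (by norm_num)
  · intro l hl
    simp only [List.mem_cons, List.not_mem_nil, or_false] at hl
    rcases hl with rfl
    · exact Mo.molN_B_102_21_7 hκ hx hx'

theorem altN_B102L_22 {κ x : ℝ} (hκ : κ * h0 = ken x) (hx : ((33554432 : ℕ) : ℝ) / S ≤ x) (hx' : x ≤ (((33554432 : ℕ) : ℝ) + (16777216 : ℕ)) / S) :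
    AltB (VN 3 κ) PP tKN tL pcN [⟨0, 1, 0, 33554432⟩, ⟨1, 0, 0, 33554432⟩, ⟨2, 1, 0, 33554432⟩] 1 0 2 2 2 (sgb true) (sgb true) x := by
  have X : XR 33554432 x := XR.of hx hx' (by norm_num) (by norm_num) (by norm_num) (by norm_num)
  refine (cornK_of [[⟨0, 1, 2, 25165824⟩, ⟨1, 0, 1, 25165824⟩, ⟨2, 1, 0, 16777216⟩, ⟨0, 0, 0, 1056964608⟩, ⟨0, 1, 0, 67108864⟩, ⟨1, 0, 0, 67108864⟩, ⟨1, 1, 0, 1056964608⟩]] (C := cB102L) (C0 := c0N) (j := (2 : Fin 5)) (k := (2 : Fin 5)) (lo := 0) (hi := 2) (W := 33554432) (N0 := 3) cB102L_q (sideN hx hx') gokN X (by norm_num) (by norm_num) (l := (0 : Fin 5)) rfl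
    (gatN21 x) (gatN22 x) (gatN00 x) ?_).altNB rfl hκ le_rfl ?_
  · intro ρ a B hρ hd i h1 h2
    fin_cases i
    · exact corTK_cert (G1 := gN2q1) (G2 := gN2q2) (Ga := gN0q0) (Gb := gN1q0) cB102L_ok B hρ (gatN21 x) (gatN22 x) (fun _ => gatN00 x) (fun _ => gatN10 x) hd hx hx' CN.B102L_220
    · exact corTK_cert (G1 := gN2q1) (G2 := gN2q2) (Ga := gN1q0) (Gb := gN2q0) cB102L_ok B hρ (gatN21 x) (gatN22 x) (fun _ => gatN10 x) (fun _ => gatN20 x) hd hx hx' CN.B102L_221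
    · exact corTK_cert (G1 := gN2q1) (G2 := gN2q2) (Ga := gN2q0) (Gb := gN3q0) cB102L_ok B hρ (gatN21 x) (gatN22 x) (fun _ => gatN20 x) (fun h => absurd h (by decide)) hd hx hx' CN.B102L_222
    · exact absurd h2 (by norm_num)
  · intro l hl
    simp only [List.mem_cons, List.not_mem_nil, or_false] at hl
    rcases hl with rfl
    · exact Mo.molN_B_102_22_7 hκ hx hx'

theorem altN_B102L_30 {κ x : ℝ} (hκ : κ * h0 = ken x) (hx : ((33554432 : ℕ) : ℝ) / S ≤ x) (hx' : x ≤ (((33554432 : ℕ) : ℝ) + (16777216 : ℕ)) / S) :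
    AltB (VN 3 κ) PP tKN tL pcN [⟨0, 1, 0, 33554432⟩, ⟨1, 0, 0, 33554432⟩, ⟨2, 1, 0, 33554432⟩] 1 0 2 3 0 (sgb true) (sgb true) x := by
  have X : XR 33554432 x := XR.of hx hx' (by norm_num) (by norm_num) (by norm_num) (by norm_num)
  refine (cornK_of [] (C := cB102L) (C0 := c0N) (j := (3 : Fin 5)) (k := (0 : Fin 5)) (lo := 0) (hi := 2) (W := 33554432) (N0 := 3) cB102L_q (sideN hx hx') gokN X (by norm_num) (by norm_num) (l := (0 : Fin 5)) rfl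
    (gatN31 x) (gatN02 x) (gatN00 x) ?_).altNB rfl hκ le_rfl ?_
  · intro ρ a B hρ hd i h1 h2
    fin_cases i
    · exact corTK_cert (G1 := gN3q1) (G2 := gN0q2) (Ga := gN0q0) (Gb := gN1q0) cB102L_ok B hρ (gatN31 x) (gatN02 x) (fun _ => gatN00 x) (fun _ => gatN10 x) hd hx hx' CN.B102L_300
    · exact corTK_cert (G1 := gN3q1) (G2 := gN0q2) (Ga := gN1q0) (Gb := gN2q0) cB102L_ok B hρ (gatN31 x) (gatN02 x) (fun _ => gatN10 x) (fun _ => gatN20 x) hd hx hx' CN.B102L_301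
    · exact corTK_cert (G1 := gN3q1) (G2 := gN0q2) (Ga := gN2q0) (Gb := gN3q0) cB102L_ok B hρ (gatN31 x) (gatN02 x) (fun _ => gatN20 x) (fun h => absurd h (by decide)) hd hx hx' CN.B102L_302
    · exact absurd h2 (by norm_num)
  · exact fun l hl => absurd hl List.not_mem_nil

theorem altN_B102L_31 {κ x : ℝ} (hκ : κ * h0 = ken x) (hx : ((33554432 : ℕ) : ℝ) / S ≤ x) (hx' : x ≤ (((33554432 : ℕ) : ℝ) + (16777216 : ℕ)) / S) :
    AltB (VN 3 κ) PP tKN tL pcN [⟨0, 1, 0, 33554432⟩, ⟨1, 0, 0, 33554432⟩, ⟨2, 1, 0, 33554432⟩] 1 0 2 3 1 (sgb true) (sgb true) x := by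
  have X : XR 33554432 x := XR.of hx hx' (by norm_num) (by norm_num) (by norm_num) (by norm_num)
  refine (cornK_of [] (C := cB102L) (C0 := c0N) (j := (3 : Fin 5)) (k := (1 : Fin 5)) (lo := 0) (hi := 2) (W := 33554432) (N0 := 3) cB102L_q (sideN hx hx') gokN X (by norm_num) (by norm_num) (l := (0 : Fin 5)) rfl
    (gatN31 x) (gatN12 x) (gatN00 x) ?_).altNB rfl hκ le_rfl ?_
  · intro ρ a B hρ hd i h1 h2
    fin_cases i
    · exact corTK_cert (G1 := gN3q1) (G2 := gN1q2) (Ga := gN0q0) (Gb := gN1q0) cB102L_ok B hρ (gatN31 x) (gatN12 x) (fun _ => gatN00 x) (fun _ => gatN10 x) hd hx hx' CN.B102L_310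
    · exact corTK_cert (G1 := gN3q1) (G2 := gN1q2) (Ga := gN1q0) (Gb := gN2q0) cB102L_ok B hρ (gatN31 x) (gatN12 x) (fun _ => gatN10 x) (fun _ => gatN20 x) hd hx hx' CN.B102L_311
    · exact corTK_cert (G1 := gN3q1) (G2 := gN1q2) (Ga := gN2q0) (Gb := gN3q0) cB102L_ok B hρ (gatN31 x) (gatN12 x) (fun _ => gatN20 x) (fun h => absurd h (by decide)) hd hx hx' CN.B102L_312
    · exact absurd h2 (by norm_num)
  · exact fun l hl => absurd hl List.not_mem_nil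

theorem altN_B102L_32 {κ x : ℝ} (hκ : κ * h0 = ken x) (hx : ((33554432 : ℕ) : ℝ) / S ≤ x) (hx' : x ≤ (((33554432 : ℕ) : ℝ) + (16777216 : ℕ)) / S) :
    AltB (VN 3 κ) PP tKN tL pcN [⟨0, 1, 0, 33554432⟩, ⟨1, 0, 0, 33554432⟩, ⟨2, 1, 0, 33554432⟩] 1 0 2 3 2 (sgb true) (sgb true) x := by
  have X : XR 33554432 x := XR.of hx hx' (by norm_num) (by norm_num) (by norm_num) (by norm_num)
  refine (cornK_of [] (C := cB102L) (C0 := c0N) (j := (3 : Fin 5)) (k := (2 : Fin 5)) (lo := 0) (hi := 2) (W := 33554432) (N0 := 3) cB102L_q (sideN hx hx') gokN X (by norm_num) (by norm_num) (l := (0 : Fin 5)) rfl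
    (gatN31 x) (gatN22 x) (gatN00 x) ?_).altNB rfl hκ le_rfl ?_
  · intro ρ a B hρ hd i h1 h2
    fin_cases i
    · exact corTK_cert (G1 := gN3q1) (G2 := gN2q2) (Ga := gN0q0) (Gb := gN1q0) cB102L_ok B hρ (gatN31 x) (gatN22 x) (fun _ => gatN00 x) (fun _ => gatN10 x) hd hx hx' CN.B102L_320
    · exact corTK_cert (G1 := gN3q1) (G2 := gN2q2) (Ga := gN1q0) (Gb := gN2q0) cB102L_ok B hρ (gatN31 x) (gatN22 x) (fun _ => gatN10 x) (fun _ => gatN20 x) hd hx hx' CN.B102L_321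
    · exact corTK_cert (G1 := gN3q1) (G2 := gN2q2) (Ga := gN2q0) (Gb := gN3q0) cB102L_ok B hρ (gatN31 x) (gatN22 x) (fun _ => gatN20 x) (fun h => absurd h (by decide)) hd hx hx' CN.B102L_322
    · exact absurd h2 (by norm_num)
  · exact fun l hl => absurd hl List.not_mem_nil

theorem altN_B102L_40 {κ x : ℝ} (hκ : κ * h0 = ken x) (hx : ((33554432 : ℕ) : ℝ) / S ≤ x) (hx' : x ≤ (((33554432 : ℕ) : ℝ) + (16777216 : ℕ)) / S) :
    AltB (VN 3 κ) PP tKN tL pcN [⟨0, 1, 0, 33554432⟩, ⟨1, 0, 0, 33554432⟩, ⟨2, 1, 0, 33554432⟩] 1 0 2 4 0 (sgb true) (sgb true) x := by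
  have X : XR 33554432 x := XR.of hx hx' (by norm_num) (by norm_num) (by norm_num) (by norm_num)
  refine (cornK_of [] (C := cB102L) (C0 := c0N) (j := (4 : Fin 5)) (k := (0 : Fin 5)) (lo := 0) (hi := 2) (W := 33554432) (N0 := 3) cB102L_q (sideN hx hx') gokN X (by norm_num) (by norm_num) (l := (0 : Fin 5)) rfl
    (gatN41 x) (gatN02 x) (gatN00 x) ?_).altNB rfl hκ le_rfl ?_
  · intro ρ a B hρ hd i h1 h2
    fin_cases i
    · exact corTK_cert (G1 := gN4q1) (G2 := gN0q2) (Ga := gN0q0) (Gb := gN1q0) cB102L_ok B hρ (gatN41 x) (gatN02 x) (fun _ => gatN00 x) (fun _ => gatN10 x) hd hx hx' CN.B102L_400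
    · exact corTK_cert (G1 := gN4q1) (G2 := gN0q2) (Ga := gN1q0) (Gb := gN2q0) cB102L_ok B hρ (gatN41 x) (gatN02 x) (fun _ => gatN10 x) (fun _ => gatN20 x) hd hx hx' CN.B102L_401
    · exact corTK_cert (G1 := gN4q1) (G2 := gN0q2) (Ga := gN2q0) (Gb := gN3q0) cB102L_ok B hρ (gatN41 x) (gatN02 x) (fun _ => gatN20 x) (fun h => absurd h (by decide)) hd hx hx' CN.B102L_402
    · exact absurd h2 (by norm_num)
  · exact fun l hl => absurd hl List.not_mem_nil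

theorem altN_B102L_41 {κ x : ℝ} (hκ : κ * h0 = ken x) (hx : ((33554432 : ℕ) : ℝ) / S ≤ x) (hx' : x ≤ (((33554432 : ℕ) : ℝ) + (16777216 : ℕ)) / S) :
    AltB (VN 3 κ) PP tKN tL pcN [⟨0, 1, 0, 33554432⟩, ⟨1, 0, 0, 33554432⟩, ⟨2, 1, 0, 33554432⟩] 1 0 2 4 1 (sgb true) (sgb true) x := by
  have X : XR 33554432 x := XR.of hx hx' (by norm_num) (by norm_num) (by norm_num) (by norm_num)
  refine (cornK_of [] (C := cB102L) (C0 := c0N) (j := (4 : Fin 5)) (k := (1 : Fin 5)) (lo := 0) (hi := 2) (W := 33554432) (N0 := 3) cB102L_q (sideN hx hx') gokN X (by norm_num) (by norm_num) (l := (0 : Fin 5)) rfl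
    (gatN41 x) (gatN12 x) (gatN00 x) ?_).altNB rfl hκ le_rfl ?_
  · intro ρ a B hρ hd i h1 h2
    fin_cases i
    · exact corTK_cert (G1 := gN4q1) (G2 := gN1q2) (Ga := gN0q0) (Gb := gN1q0) cB102L_ok B hρ (gatN41 x) (gatN12 x) (fun _ => gatN00 x) (fun _ => gatN10 x) hd hx hx' CN.B102L_410
    · exact corTK_cert (G1 := gN4q1) (G2 := gN1q2) (Ga := gN1q0) (Gb := gN2q0) cB102L_ok B hρ (gatN41 x) (gatN12 x) (fun _ => gatN10 x) (fun _ => gatN20 x) hd hx hx' CN.B102L_411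
    · exact corTK_cert (G1 := gN4q1) (G2 := gN1q2) (Ga := gN2q0) (Gb := gN3q0) cB102L_ok B hρ (gatN41 x) (gatN12 x) (fun _ => gatN20 x) (fun h => absurd h (by decide)) hd hx hx' CN.B102L_412
    · exact absurd h2 (by norm_num)
  · exact fun l hl => absurd hl List.not_mem_nil

theorem altN_B102L_42 {κ x : ℝ} (hκ : κ * h0 = ken x) (hx : ((33554432 : ℕ) : ℝ) / S ≤ x) (hx' : x ≤ (((33554432 : ℕ) : ℝ) + (16777216 : ℕ)) / S) :
    AltB (VN 3 κ) PP tKN tL pcN [⟨0, 1, 0, 33554432⟩, ⟨1, 0, 0, 33554432⟩, ⟨2, 1, 0, 33554432⟩] 1 0 2 4 2 (sgb true) (sgb true) x := by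
  have X : XR 33554432 x := XR.of hx hx' (by norm_num) (by norm_num) (by norm_num) (by norm_num)
  refine (cornK_of [] (C := cB102L) (C0 := c0N) (j := (4 : Fin 5)) (k := (2 : Fin 5)) (lo := 0) (hi := 2) (W := 33554432) (N0 := 3) cB102L_q (sideN hx hx') gokN X (by norm_num) (by norm_num) (l := (0 : Fin 5)) rfl
    (gatN41 x) (gatN22 x) (gatN00 x) ?_).altNB rfl hκ le_rfl ?_
  · intro ρ a B hρ hd i h1 h2
    fin_cases i
    · exact corTK_cert (G1 := gN4q1) (G2 := gN2q2) (Ga := gN0q0) (Gb := gN1q0) cB102L_ok B hρ (gatN41 x) (gatN22 x) (fun _ => gatN00 x) (fun _ => gatN10 x) hd hx hx' CN.B102L_420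
    · exact corTK_cert (G1 := gN4q1) (G2 := gN2q2) (Ga := gN1q0) (Gb := gN2q0) cB102L_ok B hρ (gatN41 x) (gatN22 x) (fun _ => gatN10 x) (fun _ => gatN20 x) hd hx hx' CN.B102L_421
    · exact corTK_cert (G1 := gN4q1) (G2 := gN2q2) (Ga := gN2q0) (Gb := gN3q0) cB102L_ok B hρ (gatN41 x) (gatN22 x) (fun _ => gatN20 x) (fun h => absurd h (by decide)) hd hx hx' CN.B102L_422
    · exact absurd h2 (by norm_num)
  · exact fun l hl => absurd hl List.not_mem_nil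

theorem altN_B102R_04 {κ x : ℝ} (hκ : κ * h0 = ken x) (hx : ((33554432 : ℕ) : ℝ) / S ≤ x) (hx' : x ≤ (((33554432 : ℕ) : ℝ) + (16777216 : ℕ)) / S) :
    AltB (VN 3 κ) PP tKN tL pcN [⟨0, 1, 0, 33554432⟩, ⟨1, 0, 0, 33554432⟩, ⟨2, 1, 0, 33554432⟩] 1 0 2 0 4 (sgb false) (sgb false) x := by
  have X : XR 33554432 x := XR.of hx hx' (by norm_num) (by norm_num) (by norm_num) (by norm_num)
  refine (cornK_of [] (C := cB102R) (C0 := c0N) (j := (0 : Fin 5)) (k := (4 : Fin 5)) (lo := 0) (hi := 2) (W := 33554432) (N0 := 3) cB102R_q (sideN hx hx') gokN X (by norm_num) (by norm_num) (l := (0 : Fin 5)) rfl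
    (gatN01 x) (gatN42 x) (gatN00 x) ?_).altNB rfl hκ le_rfl ?_
  · intro ρ a B hρ hd i h1 h2
    fin_cases i
    · exact corTK_cert (G1 := gN0q1) (G2 := gN4q2) (Ga := gN0q0) (Gb := gN1q0) cB102R_ok B hρ (gatN01 x) (gatN42 x) (fun _ => gatN00 x) (fun _ => gatN10 x) hd hx hx' CN.B102R_040
    · exact corTK_cert (G1 := gN0q1) (G2 := gN4q2) (Ga := gN1q0) (Gb := gN2q0) cB102R_ok B hρ (gatN01 x) (gatN42 x) (fun _ => gatN10 x) (fun _ => gatN20 x) hd hx hx' CN.B102R_041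
    · exact corTK_cert (G1 := gN0q1) (G2 := gN4q2) (Ga := gN2q0) (Gb := gN3q0) cB102R_ok B hρ (gatN01 x) (gatN42 x) (fun _ => gatN20 x) (fun h => absurd h (by decide)) hd hx hx' CN.B102R_042
    · exact absurd h2 (by norm_num)
  · exact fun l hl => absurd hl List.not_mem_nil

theorem altN_B202E_00 {κ x : ℝ} (hκ : κ * h0 = ken x) (hx : ((33554432 : ℕ) : ℝ) / S ≤ x) (hx' : x ≤ (((33554432 : ℕ) : ℝ) + (16777216 : ℕ)) / S) :
    AltB (VN 3 κ) PP tKN tL pcN [⟨0, 1, 0, 33554432⟩, ⟨1, 0, 0, 33554432⟩, ⟨2, 1, 0, 33554432⟩] 2 0 2 0 0 (sgb true) (sgb false) x := by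
  have X : XR 33554432 x := XR.of hx hx' (by norm_num) (by norm_num) (by norm_num) (by norm_num)
  refine (cornK_of [] (C := cB202E) (C0 := c0N) (j := (0 : Fin 5)) (k := (0 : Fin 5)) (lo := 0) (hi := 2) (W := 33554432) (N0 := 3) cB202E_q (sideN hx hx') gokN X (by norm_num) (by norm_num) (l := (0 : Fin 5)) rfl
    (gatN02 x) (gatN02 x) (gatN00 x) ?_).altNB rfl hκ le_rfl ?_
  · intro ρ a B hρ hd i h1 h2
    fin_cases i
    · exact corTK_cert (G1 := gN0q2) (G2 := gN0q2) (Ga := gN0q0) (Gb := gN1q0) cB202E_ok B hρ (gatN02 x) (gatN02 x) (fun _ => gatN00 x) (fun _ => gatN10 x) hd hx hx' CN.B202E_000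
    · exact corTK_cert (G1 := gN0q2) (G2 := gN0q2) (Ga := gN1q0) (Gb := gN2q0) cB202E_ok B hρ (gatN02 x) (gatN02 x) (fun _ => gatN10 x) (fun _ => gatN20 x) hd hx hx' CN.B202E_001
    · exact corTK_cert (G1 := gN0q2) (G2 := gN0q2) (Ga := gN2q0) (Gb := gN3q0) cB202E_ok B hρ (gatN02 x) (gatN02 x) (fun _ => gatN20 x) (fun h => absurd h (by decide)) hd hx hx' CN.B202E_002
    · exact absurd h2 (by norm_num)
  · exact fun l hl => absurd hl List.not_mem_nil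

theorem altN_B202E_01 {κ x : ℝ} (hκ : κ * h0 = ken x) (hx : ((33554432 : ℕ) : ℝ) / S ≤ x) (hx' : x ≤ (((33554432 : ℕ) : ℝ) + (16777216 : ℕ)) / S) :
    AltB (VN 3 κ) PP tKN tL pcN [⟨0, 1, 0, 33554432⟩, ⟨1, 0, 0, 33554432⟩, ⟨2, 1, 0, 33554432⟩] 2 0 2 0 1 (sgb true) (sgb false) x := by
  have X : XR 33554432 x := XR.of hx hx' (by norm_num) (by norm_num) (by norm_num) (by norm_num)
  refine (cornK_of [] (C := cB202E) (C0 := c0N) (j := (0 : Fin 5)) (k := (1 : Fin 5)) (lo := 0) (hi := 2) (W := 33554432) (N0 := 3) cB202E_q (sideN hx hx') gokN X (by norm_num) (by norm_num) (l := (0 : Fin 5)) rfl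
    (gatN02 x) (gatN12 x) (gatN00 x) ?_).altNB rfl hκ le_rfl ?_
  · intro ρ a B hρ hd i h1 h2
    fin_cases i
    · exact corTK_cert (G1 := gN0q2) (G2 := gN1q2) (Ga := gN0q0) (Gb := gN1q0) cB202E_ok B hρ (gatN02 x) (gatN12 x) (fun _ => gatN00 x) (fun _ => gatN10 x) hd hx hx' CN.B202E_010
    · exact corTK_cert (G1 := gN0q2) (G2 := gN1q2) (Ga := gN1q0) (Gb := gN2q0) cB202E_ok B hρ (gatN02 x) (gatN12 x) (fun _ => gatN10 x) (fun _ => gatN20 x) hd hx hx' CN.B202E_011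
    · exact corTK_cert (G1 := gN0q2) (G2 := gN1q2) (Ga := gN2q0) (Gb := gN3q0) cB202E_ok B hρ (gatN02 x) (gatN12 x) (fun _ => gatN20 x) (fun h => absurd h (by decide)) hd hx hx' CN.B202E_012
    · exact absurd h2 (by norm_num)
  · exact fun l hl => absurd hl List.not_mem_nil

theorem altN_B202E_02 {κ x : ℝ} (hκ : κ * h0 = ken x) (hx : ((33554432 : ℕ) : ℝ) / S ≤ x) (hx' : x ≤ (((33554432 : ℕ) : ℝ) + (16777216 : ℕ)) / S) :
    AltB (VN 3 κ) PP tKN tL pcN [⟨0, 1, 0, 33554432⟩, ⟨1, 0, 0, 33554432⟩, ⟨2, 1, 0, 33554432⟩] 2 0 2 0 2 (sgb true) (sgb false) x := by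
  have X : XR 33554432 x := XR.of hx hx' (by norm_num) (by norm_num) (by norm_num) (by norm_num)
  refine (cornK_of [[⟨0, 1, 0, 6291456⟩, ⟨1, 0, 1, 16777216⟩, ⟨2, 1, 1, 16777216⟩, ⟨1, 0, 0, 67108864⟩, ⟨1, 1, 0, 1056964608⟩, ⟨2, 1, 0, 67108864⟩, ⟨2, 2, 0, 1056964608⟩]] (C := cB202E) (C0 := c0N) (j := (0 : Fin 5)) (k := (2 : Fin 5)) (lo := 0) (hi := 2) (W := 33554432) (N0 := 3) cB202E_q (sideN hx hx') gokN X (by norm_num) (by norm_num) (l := (0 : Fin 5)) rfl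
    (gatN02 x) (gatN22 x) (gatN00 x) ?_).altNB rfl hκ le_rfl ?_
  · intro ρ a B hρ hd i h1 h2
    fin_cases i
    · exact corTK_cert (G1 := gN0q2) (G2 := gN2q2) (Ga := gN0q0) (Gb := gN1q0) cB202E_ok B hρ (gatN02 x) (gatN22 x) (fun _ => gatN00 x) (fun _ => gatN10 x) hd hx hx' CN.B202E_020
    · exact corTK_cert (G1 := gN0q2) (G2 := gN2q2) (Ga := gN1q0) (Gb := gN2q0) cB202E_ok B hρ (gatN02 x) (gatN22 x) (fun _ => gatN10 x) (fun _ => gatN20 x) hd hx hx' CN.B202E_021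
    · exact corTK_cert (G1 := gN0q2) (G2 := gN2q2) (Ga := gN2q0) (Gb := gN3q0) cB202E_ok B hρ (gatN02 x) (gatN22 x) (fun _ => gatN20 x) (fun h => absurd h (by decide)) hd hx hx' CN.B202E_022
    · exact absurd h2 (by norm_num)
  · intro l hl
    simp only [List.mem_cons, List.not_mem_nil, or_false] at hl
    rcases hl with rfl
    · exact Mo.molN_B_202_02_5 hκ hx hx'

theorem altN_B202E_10 {κ x : ℝ} (hκ : κ * h0 = ken x) (hx : ((33554432 : ℕ) : ℝ) / S ≤ x) (hx' : x ≤ (((33554432 : ℕ) : ℝ) + (16777216 : ℕ)) / S) :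
    AltB (VN 3 κ) PP tKN tL pcN [⟨0, 1, 0, 33554432⟩, ⟨1, 0, 0, 33554432⟩, ⟨2, 1, 0, 33554432⟩] 2 0 2 1 0 (sgb true) (sgb false) x := by
  have X : XR 33554432 x := XR.of hx hx' (by norm_num) (by norm_num) (by norm_num) (by norm_num)
  refine (cornK_of [] (C := cB202E) (C0 := c0N) (j := (1 : Fin 5)) (k := (0 : Fin 5)) (lo := 0) (hi := 2) (W := 33554432) (N0 := 3) cB202E_q (sideN hx hx') gokN X (by norm_num) (by norm_num) (l := (0 : Fin 5)) rfl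
    (gatN12 x) (gatN02 x) (gatN00 x) ?_).altNB rfl hκ le_rfl ?_
  · intro ρ a B hρ hd i h1 h2
    fin_cases i
    · exact corTK_cert (G1 := gN1q2) (G2 := gN0q2) (Ga := gN0q0) (Gb := gN1q0) cB202E_ok B hρ (gatN12 x) (gatN02 x) (fun _ => gatN00 x) (fun _ => gatN10 x) hd hx hx' CN.B202E_100
    · exact corTK_cert (G1 := gN1q2) (G2 := gN0q2) (Ga := gN1q0) (Gb := gN2q0) cB202E_ok B hρ (gatN12 x) (gatN02 x) (fun _ => gatN10 x) (fun _ => gatN20 x) hd hx hx' CN.B202E_101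
    · exact corTK_cert (G1 := gN1q2) (G2 := gN0q2) (Ga := gN2q0) (Gb := gN3q0) cB202E_ok B hρ (gatN12 x) (gatN02 x) (fun _ => gatN20 x) (fun h => absurd h (by decide)) hd hx hx' CN.B202E_102
    · exact absurd h2 (by norm_num)
  · exact fun l hl => absurd hl List.not_mem_nil

theorem altN_B202E_11 {κ x : ℝ} (hκ : κ * h0 = ken x) (hx : ((33554432 : ℕ) : ℝ) / S ≤ x) (hx' : x ≤ (((33554432 : ℕ) : ℝ) + (16777216 : ℕ)) / S) :
    AltB (VN 3 κ) PP tKN tL pcN [⟨0, 1, 0, 33554432⟩, ⟨1, 0, 0, 33554432⟩, ⟨2, 1, 0, 33554432⟩] 2 0 2 1 1 (sgb true) (sgb false) x := by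
  have X : XR 33554432 x := XR.of hx hx' (by norm_num) (by norm_num) (by norm_num) (by norm_num)
  refine (cornK_of [] (C := cB202E) (C0 := c0N) (j := (1 : Fin 5)) (k := (1 : Fin 5)) (lo := 0) (hi := 2) (W := 33554432) (N0 := 3) cB202E_q (sideN hx hx') gokN X (by norm_num) (by norm_num) (l := (0 : Fin 5)) rfl
    (gatN12 x) (gatN12 x) (gatN00 x) ?_).altNB rfl hκ le_rfl ?_
  · intro ρ a B hρ hd i h1 h2
    fin_cases i
    · exact corTK_cert (G1 := gN1q2) (G2 := gN1q2) (Ga := gN0q0) (Gb := gN1q0) cB202E_ok B hρ (gatN12 x) (gatN12 x) (fun _ => gatN00 x) (fun _ => gatN10 x) hd hx hx' CN.B202E_110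
    · exact corTK_cert (G1 := gN1q2) (G2 := gN1q2) (Ga := gN1q0) (Gb := gN2q0) cB202E_ok B hρ (gatN12 x) (gatN12 x) (fun _ => gatN10 x) (fun _ => gatN20 x) hd hx hx' CN.B202E_111
    · exact corTK_cert (G1 := gN1q2) (G2 := gN1q2) (Ga := gN2q0) (Gb := gN3q0) cB202E_ok B hρ (gatN12 x) (gatN12 x) (fun _ => gatN20 x) (fun h => absurd h (by decide)) hd hx hx' CN.B202E_112
    · exact absurd h2 (by norm_num)
  · exact fun l hl => absurd hl List.not_mem_nil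

theorem altN_B202E_12 {κ x : ℝ} (hκ : κ * h0 = ken x) (hx : ((33554432 : ℕ) : ℝ) / S ≤ x) (hx' : x ≤ (((33554432 : ℕ) : ℝ) + (16777216 : ℕ)) / S) :
    AltB (VN 3 κ) PP tKN tL pcN [⟨0, 1, 0, 33554432⟩, ⟨1, 0, 0, 33554432⟩, ⟨2, 1, 0, 33554432⟩] 2 0 2 1 2 (sgb true) (sgb false) x := by
  have X : XR 33554432 x := XR.of hx hx' (by norm_num) (by norm_num) (by norm_num) (by norm_num)
  refine (cornK_of [[⟨0, 1, 0, 16777216⟩, ⟨1, 0, 1, 25165824⟩, ⟨2, 1, 1, 25165824⟩, ⟨1, 0, 0, 67108864⟩, ⟨1, 1, 0, 1056964608⟩, ⟨2, 1, 0, 67108864⟩, ⟨2, 2, 0, 1056964608⟩]] (C := cB202E) (C0 := c0N) (j := (1 : Fin 5)) (k := (2 : Fin 5)) (lo := 0) (hi := 2) (W := 33554432) (N0 := 3) cB202E_q (sideN hx hx') gokN X (by norm_num) (by norm_num) (l := (0 : Fin 5)) rfl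
    (gatN12 x) (gatN22 x) (gatN00 x) ?_).altNB rfl hκ le_rfl ?_
  · intro ρ a B hρ hd i h1 h2
    fin_cases i
    · exact corTK_cert (G1 := gN1q2) (G2 := gN2q2) (Ga := gN0q0) (Gb := gN1q0) cB202E_ok B hρ (gatN12 x) (gatN22 x) (fun _ => gatN00 x) (fun _ => gatN10 x) hd hx hx' CN.B202E_120
    · exact corTK_cert (G1 := gN1q2) (G2 := gN2q2) (Ga := gN1q0) (Gb := gN2q0) cB202E_ok B hρ (gatN12 x) (gatN22 x) (fun _ => gatN10 x) (fun _ => gatN20 x) hd hx hx' CN.B202E_121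
    · exact corTK_cert (G1 := gN1q2) (G2 := gN2q2) (Ga := gN2q0) (Gb := gN3q0) cB202E_ok B hρ (gatN12 x) (gatN22 x) (fun _ => gatN20 x) (fun h => absurd h (by decide)) hd hx hx' CN.B202E_122
    · exact absurd h2 (by norm_num)
  · intro l hl
    simp only [List.mem_cons, List.not_mem_nil, or_false] at hl
    rcases hl with rfl
    · exact Mo.molN_B_202_12_5 hκ hx hx'

theorem altN_B202E_20 {κ x : ℝ} (hκ : κ * h0 = ken x) (hx : ((33554432 : ℕ) : ℝ) / S ≤ x) (hx' : x ≤ (((33554432 : ℕ) : ℝ) + (16777216 : ℕ)) / S) :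
    AltB (VN 3 κ) PP tKN tL pcN [⟨0, 1, 0, 33554432⟩, ⟨1, 0, 0, 33554432⟩, ⟨2, 1, 0, 33554432⟩] 2 0 2 2 0 (sgb true) (sgb false) x := by
  have X : XR 33554432 x := XR.of hx hx' (by norm_num) (by norm_num) (by norm_num) (by norm_num)
  refine (cornK_of [] (C := cB202E) (C0 := c0N) (j := (2 : Fin 5)) (k := (0 : Fin 5)) (lo := 0) (hi := 2) (W := 33554432) (N0 := 3) cB202E_q (sideN hx hx') gokN X (by norm_num) (by norm_num) (l := (0 : Fin 5)) rfl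
    (gatN22 x) (gatN02 x) (gatN00 x) ?_).altNB rfl hκ le_rfl ?_
  · intro ρ a B hρ hd i h1 h2
    fin_cases i
    · exact corTK_cert (G1 := gN2q2) (G2 := gN0q2) (Ga := gN0q0) (Gb := gN1q0) cB202E_ok B hρ (gatN22 x) (gatN02 x) (fun _ => gatN00 x) (fun _ => gatN10 x) hd hx hx' CN.B202E_200
    · exact corTK_cert (G1 := gN2q2) (G2 := gN0q2) (Ga := gN1q0) (Gb := gN2q0) cB202E_ok B hρ (gatN22 x) (gatN02 x) (fun _ => gatN10 x) (fun _ => gatN20 x) hd hx hx' CN.B202E_201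
    · exact corTK_cert (G1 := gN2q2) (G2 := gN0q2) (Ga := gN2q0) (Gb := gN3q0) cB202E_ok B hρ (gatN22 x) (gatN02 x) (fun _ => gatN20 x) (fun h => absurd h (by decide)) hd hx hx' CN.B202E_202
    · exact absurd h2 (by norm_num)
  · exact fun l hl => absurd hl List.not_mem_nil

theorem altN_B202E_21 {κ x : ℝ} (hκ : κ * h0 = ken x) (hx : ((33554432 : ℕ) : ℝ) / S ≤ x) (hx' : x ≤ (((33554432 : ℕ) : ℝ) + (16777216 : ℕ)) / S) :
    AltB (VN 3 κ) PP tKN tL pcN [⟨0, 1, 0, 33554432⟩, ⟨1, 0, 0, 33554432⟩, ⟨2, 1, 0, 33554432⟩] 2 0 2 2 1 (sgb true) (sgb false) x := by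
  have X : XR 33554432 x := XR.of hx hx' (by norm_num) (by norm_num) (by norm_num) (by norm_num)
  refine (cornK_of [] (C := cB202E) (C0 := c0N) (j := (2 : Fin 5)) (k := (1 : Fin 5)) (lo := 0) (hi := 2) (W := 33554432) (N0 := 3) cB202E_q (sideN hx hx') gokN X (by norm_num) (by norm_num) (l := (0 : Fin 5)) rfl
    (gatN22 x) (gatN12 x) (gatN00 x) ?_).altNB rfl hκ le_rfl ?_
  · intro ρ a B hρ hd i h1 h2
    fin_cases i
    · exact corTK_cert (G1 := gN2q2) (G2 := gN1q2) (Ga := gN0q0) (Gb := gN1q0) cB202E_ok B hρ (gatN22 x) (gatN12 x) (fun _ => gatN00 x) (fun _ => gatN10 x) hd hx hx' CN.B202E_210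
    · exact corTK_cert (G1 := gN2q2) (G2 := gN1q2) (Ga := gN1q0) (Gb := gN2q0) cB202E_ok B hρ (gatN22 x) (gatN12 x) (fun _ => gatN10 x) (fun _ => gatN20 x) hd hx hx' CN.B202E_211
    · exact corTK_cert (G1 := gN2q2) (G2 := gN1q2) (Ga := gN2q0) (Gb := gN3q0) cB202E_ok B hρ (gatN22 x) (gatN12 x) (fun _ => gatN20 x) (fun h => absurd h (by decide)) hd hx hx' CN.B202E_212
    · exact absurd h2 (by norm_num)
  · exact fun l hl => absurd hl List.not_mem_nil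

theorem altN_B202E_22 {κ x : ℝ} (hκ : κ * h0 = ken x) (hx : ((33554432 : ℕ) : ℝ) / S ≤ x) (hx' : x ≤ (((33554432 : ℕ) : ℝ) + (16777216 : ℕ)) / S) :
    AltB (VN 3 κ) PP tKN tL pcN [⟨0, 1, 0, 33554432⟩, ⟨1, 0, 0, 33554432⟩, ⟨2, 1, 0, 33554432⟩] 2 0 2 2 2 (sgb true) (sgb false) x := by
  have X : XR 33554432 x := XR.of hx hx' (by norm_num) (by norm_num) (by norm_num) (by norm_num)
  refine (cornK_of [[⟨0, 1, 0, 16777216⟩, ⟨1, 0, 1, 25165824⟩, ⟨2, 1, 1, 25165824⟩, ⟨1, 0, 0, 67108864⟩, ⟨1, 1, 0, 1056964608⟩, ⟨2, 1, 0, 67108864⟩, ⟨2, 2, 0, 1056964608⟩]] (C := cB202E) (C0 := c0N) (j := (2 : Fin 5)) (k := (2 : Fin 5)) (lo := 0) (hi := 2) (W := 33554432) (N0 := 3) cB202E_q (sideN hx hx') gokN X (by norm_num) (by norm_num) (l := (0 : Fin 5)) rfl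
    (gatN22 x) (gatN22 x) (gatN00 x) ?_).altNB rfl hκ le_rfl ?_
  · intro ρ a B hρ hd i h1 h2
    fin_cases i
    · exact corTK_cert (G1 := gN2q2) (G2 := gN2q2) (Ga := gN0q0) (Gb := gN1q0) cB202E_ok B hρ (gatN22 x) (gatN22 x) (fun _ => gatN00 x) (fun _ => gatN10 x) hd hx hx' CN.B202E_220
    · exact corTK_cert (G1 := gN2q2) (G2 := gN2q2) (Ga := gN1q0) (Gb := gN2q0) cB202E_ok B hρ (gatN22 x) (gatN22 x) (fun _ => gatN10 x) (fun _ => gatN20 x) hd hx hx' CN.B202E_221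
    · exact corTK_cert (G1 := gN2q2) (G2 := gN2q2) (Ga := gN2q0) (Gb := gN3q0) cB202E_ok B hρ (gatN22 x) (gatN22 x) (fun _ => gatN20 x) (fun h => absurd h (by decide)) hd hx hx' CN.B202E_222
    · exact absurd h2 (by norm_num)
  · intro l hl
    simp only [List.mem_cons, List.not_mem_nil, or_false] at hl
    rcases hl with rfl
    · exact Mo.molN_B_202_22_5 hκ hx hx'

theorem altN_B202L_40 {κ x : ℝ} (hκ : κ * h0 = ken x) (hx : ((33554432 : ℕ) : ℝ) / S ≤ x) (hx' : x ≤ (((33554432 : ℕ) : ℝ) + (16777216 : ℕ)) / S) :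
    AltB (VN 3 κ) PP tKN tL pcN [⟨0, 1, 0, 33554432⟩, ⟨1, 0, 0, 33554432⟩, ⟨2, 1, 0, 33554432⟩] 2 0 2 4 0 (sgb true) (sgb true) x := by
  have X : XR 33554432 x := XR.of hx hx' (by norm_num) (by norm_num) (by norm_num) (by norm_num)
  refine (cornK_of [] (C := cB202L) (C0 := c0N) (j := (4 : Fin 5)) (k := (0 : Fin 5)) (lo := 0) (hi := 2) (W := 33554432) (N0 := 3) cB202L_q (sideN hx hx') gokN X (by norm_num) (by norm_num) (l := (0 : Fin 5)) rfl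
    (gatN42 x) (gatN02 x) (gatN00 x) ?_).altNB rfl hκ le_rfl ?_
  · intro ρ a B hρ hd i h1 h2
    fin_cases i
    · exact corTK_cert (G1 := gN4q2) (G2 := gN0q2) (Ga := gN0q0) (Gb := gN1q0) cB202L_ok B hρ (gatN42 x) (gatN02 x) (fun _ => gatN00 x) (fun _ => gatN10 x) hd hx hx' CN.B202L_400
    · exact corTK_cert (G1 := gN4q2) (G2 := gN0q2) (Ga := gN1q0) (Gb := gN2q0) cB202L_ok B hρ (gatN42 x) (gatN02 x) (fun _ => gatN10 x) (fun _ => gatN20 x) hd hx hx' CN.B202L_401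
    · exact corTK_cert (G1 := gN4q2) (G2 := gN0q2) (Ga := gN2q0) (Gb := gN3q0) cB202L_ok B hρ (gatN42 x) (gatN02 x) (fun _ => gatN20 x) (fun h => absurd h (by decide)) hd hx hx' CN.B202L_402
    · exact absurd h2 (by norm_num)
  · exact fun l hl => absurd hl List.not_mem_nil

theorem altN_B202L_41 {κ x : ℝ} (hκ : κ * h0 = ken x) (hx : ((33554432 : ℕ) : ℝ) / S ≤ x) (hx' : x ≤ (((33554432 : ℕ) : ℝ) + (16777216 : ℕ)) / S) :
    AltB (VN 3 κ) PP tKN tL pcN [⟨0, 1, 0, 33554432⟩, ⟨1, 0, 0, 33554432⟩, ⟨2, 1, 0, 33554432⟩] 2 0 2 4 1 (sgb true) (sgb true) x := by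
  have X : XR 33554432 x := XR.of hx hx' (by norm_num) (by norm_num) (by norm_num) (by norm_num)
  refine (cornK_of [] (C := cB202L) (C0 := c0N) (j := (4 : Fin 5)) (k := (1 : Fin 5)) (lo := 0) (hi := 2) (W := 33554432) (N0 := 3) cB202L_q (sideN hx hx') gokN X (by norm_num) (by norm_num) (l := (0 : Fin 5)) rfl
    (gatN42 x) (gatN12 x) (gatN00 x) ?_).altNB rfl hκ le_rfl ?_
  · intro ρ a B hρ hd i h1 h2
    fin_cases i
    · exact corTK_cert (G1 := gN4q2) (G2 := gN1q2) (Ga := gN0q0) (Gb := gN1q0) cB202L_ok B hρ (gatN42 x) (gatN12 x) (fun _ => gatN00 x) (fun _ => gatN10 x) hd hx hx' CN.B202L_410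
    · exact corTK_cert (G1 := gN4q2) (G2 := gN1q2) (Ga := gN1q0) (Gb := gN2q0) cB202L_ok B hρ (gatN42 x) (gatN12 x) (fun _ => gatN10 x) (fun _ => gatN20 x) hd hx hx' CN.B202L_411
    · exact corTK_cert (G1 := gN4q2) (G2 := gN1q2) (Ga := gN2q0) (Gb := gN3q0) cB202L_ok B hρ (gatN42 x) (gatN12 x) (fun _ => gatN20 x) (fun h => absurd h (by decide)) hd hx hx' CN.B202L_412
    · exact absurd h2 (by norm_num)
  · exact fun l hl => absurd hl List.not_mem_nil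

theorem altN_B202L_42 {κ x : ℝ} (hκ : κ * h0 = ken x) (hx : ((33554432 : ℕ) : ℝ) / S ≤ x) (hx' : x ≤ (((33554432 : ℕ) : ℝ) + (16777216 : ℕ)) / S) :
    AltB (VN 3 κ) PP tKN tL pcN [⟨0, 1, 0, 33554432⟩, ⟨1, 0, 0, 33554432⟩, ⟨2, 1, 0, 33554432⟩] 2 0 2 4 2 (sgb true) (sgb true) x := by
  have X : XR 33554432 x := XR.of hx hx' (by norm_num) (by norm_num) (by norm_num) (by norm_num)
  refine (cornK_of [] (C := cB202L) (C0 := c0N) (j := (4 : Fin 5)) (k := (2 : Fin 5)) (lo := 0) (hi := 2) (W := 33554432) (N0 := 3) cB202L_q (sideN hx hx') gokN X (by norm_num) (by norm_num) (l := (0 : Fin 5)) rfl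
    (gatN42 x) (gatN22 x) (gatN00 x) ?_).altNB rfl hκ le_rfl ?_
  · intro ρ a B hρ hd i h1 h2
    fin_cases i
    · exact corTK_cert (G1 := gN4q2) (G2 := gN2q2) (Ga := gN0q0) (Gb := gN1q0) cB202L_ok B hρ (gatN42 x) (gatN22 x) (fun _ => gatN00 x) (fun _ => gatN10 x) hd hx hx' CN.B202L_420
    · exact corTK_cert (G1 := gN4q2) (G2 := gN2q2) (Ga := gN1q0) (Gb := gN2q0) cB202L_ok B hρ (gatN42 x) (gatN22 x) (fun _ => gatN10 x) (fun _ => gatN20 x) hd hx hx' CN.B202L_421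
    · exact corTK_cert (G1 := gN4q2) (G2 := gN2q2) (Ga := gN2q0) (Gb := gN3q0) cB202L_ok B hρ (gatN42 x) (gatN22 x) (fun _ => gatN20 x) (fun h => absurd h (by decide)) hd hx hx' CN.B202L_422
    · exact absurd h2 (by norm_num)
  · exact fun l hl => absurd hl List.not_mem_nil

theorem altN_B202R_04 {κ x : ℝ} (hκ : κ * h0 = ken x) (hx : ((33554432 : ℕ) : ℝ) / S ≤ x) (hx' : x ≤ (((33554432 : ℕ) : ℝ) + (16777216 : ℕ)) / S) :
    AltB (VN 3 κ) PP tKN tL pcN [⟨0, 1, 0, 33554432⟩, ⟨1, 0, 0, 33554432⟩, ⟨2, 1, 0, 33554432⟩] 2 0 2 0 4 (sgb false) (sgb false) x := by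
  have X : XR 33554432 x := XR.of hx hx' (by norm_num) (by norm_num) (by norm_num) (by norm_num)
  refine (cornK_of [] (C := cB202R) (C0 := c0N) (j := (0 : Fin 5)) (k := (4 : Fin 5)) (lo := 0) (hi := 2) (W := 33554432) (N0 := 3) cB202R_q (sideN hx hx') gokN X (by norm_num) (by norm_num) (l := (0 : Fin 5)) rfl
    (gatN02 x) (gatN42 x) (gatN00 x) ?_).altNB rfl hκ le_rfl ?_
  · intro ρ a B hρ hd i h1 h2
    fin_cases i
    · exact corTK_cert (G1 := gN0q2) (G2 := gN4q2) (Ga := gN0q0) (Gb := gN1q0) cB202R_ok B hρ (gatN02 x) (gatN42 x) (fun _ => gatN00 x) (fun _ => gatN10 x) hd hx hx' CN.B202R_040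
    · exact corTK_cert (G1 := gN0q2) (G2 := gN4q2) (Ga := gN1q0) (Gb := gN2q0) cB202R_ok B hρ (gatN02 x) (gatN42 x) (fun _ => gatN10 x) (fun _ => gatN20 x) hd hx hx' CN.B202R_041
    · exact corTK_cert (G1 := gN0q2) (G2 := gN4q2) (Ga := gN2q0) (Gb := gN3q0) cB202R_ok B hρ (gatN02 x) (gatN42 x) (fun _ => gatN20 x) (fun h => absurd h (by decide)) hd hx hx' CN.B202R_042
    · exact absurd h2 (by norm_num)
  · exact fun l hl => absurd hl List.not_mem_nil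

theorem altN_B202R_14 {κ x : ℝ} (hκ : κ * h0 = ken x) (hx : ((33554432 : ℕ) : ℝ) / S ≤ x) (hx' : x ≤ (((33554432 : ℕ) : ℝ) + (16777216 : ℕ)) / S) :
    AltB (VN 3 κ) PP tKN tL pcN [⟨0, 1, 0, 33554432⟩, ⟨1, 0, 0, 33554432⟩, ⟨2, 1, 0, 33554432⟩] 2 0 2 1 4 (sgb false) (sgb false) x := by
  have X : XR 33554432 x := XR.of hx hx' (by norm_num) (by norm_num) (by norm_num) (by norm_num)
  refine (cornK_of [] (C := cB202R) (C0 := c0N) (j := (1 : Fin 5)) (k := (4 : Fin 5)) (lo := 0) (hi := 2) (W := 33554432) (N0 := 3) cB202R_q (sideN hx hx') gokN X (by norm_num) (by norm_num) (l := (0 : Fin 5)) rfl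
    (gatN12 x) (gatN42 x) (gatN00 x) ?_).altNB rfl hκ le_rfl ?_
  · intro ρ a B hρ hd i h1 h2
    fin_cases i
    · exact corTK_cert (G1 := gN1q2) (G2 := gN4q2) (Ga := gN0q0) (Gb := gN1q0) cB202R_ok B hρ (gatN12 x) (gatN42 x) (fun _ => gatN00 x) (fun _ => gatN10 x) hd hx hx' CN.B202R_140
    · exact corTK_cert (G1 := gN1q2) (G2 := gN4q2) (Ga := gN1q0) (Gb := gN2q0) cB202R_ok B hρ (gatN12 x) (gatN42 x) (fun _ => gatN10 x) (fun _ => gatN20 x) hd hx hx' CN.B202R_141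
    · exact corTK_cert (G1 := gN1q2) (G2 := gN4q2) (Ga := gN2q0) (Gb := gN3q0) cB202R_ok B hρ (gatN12 x) (gatN42 x) (fun _ => gatN20 x) (fun h => absurd h (by decide)) hd hx hx' CN.B202R_142
    · exact absurd h2 (by norm_num)
  · exact fun l hl => absurd hl List.not_mem_nil

theorem altN_B202R_24 {κ x : ℝ} (hκ : κ * h0 = ken x) (hx : ((33554432 : ℕ) : ℝ) / S ≤ x) (hx' : x ≤ (((33554432 : ℕ) : ℝ) + (16777216 : ℕ)) / S) :
    AltB (VN 3 κ) PP tKN tL pcN [⟨0, 1, 0, 33554432⟩, ⟨1, 0, 0, 33554432⟩, ⟨2, 1, 0, 33554432⟩] 2 0 2 2 4 (sgb false) (sgb false) x := by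
  have X : XR 33554432 x := XR.of hx hx' (by norm_num) (by norm_num) (by norm_num) (by norm_num)
  refine (cornK_of [] (C := cB202R) (C0 := c0N) (j := (2 : Fin 5)) (k := (4 : Fin 5)) (lo := 0) (hi := 2) (W := 33554432) (N0 := 3) cB202R_q (sideN hx hx') gokN X (by norm_num) (by norm_num) (l := (0 : Fin 5)) rfl
    (gatN22 x) (gatN42 x) (gatN00 x) ?_).altNB rfl hκ le_rfl ?_
  · intro ρ a B hρ hd i h1 h2
    fin_cases i
    · exact corTK_cert (G1 := gN2q2) (G2 := gN4q2) (Ga := gN0q0) (Gb := gN1q0) cB202R_ok B hρ (gatN22 x) (gatN42 x) (fun _ => gatN00 x) (fun _ => gatN10 x) hd hx hx' CN.B202R_240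
    · exact corTK_cert (G1 := gN2q2) (G2 := gN4q2) (Ga := gN1q0) (Gb := gN2q0) cB202R_ok B hρ (gatN22 x) (gatN42 x) (fun _ => gatN10 x) (fun _ => gatN20 x) hd hx hx' CN.B202R_241
    · exact corTK_cert (G1 := gN2q2) (G2 := gN4q2) (Ga := gN2q0) (Gb := gN3q0) cB202R_ok B hρ (gatN22 x) (gatN42 x) (fun _ => gatN20 x) (fun h => absurd h (by decide)) hd hx hx' CN.B202R_242
    · exact absurd h2 (by norm_num)
  · exact fun l hl => absurd hl List.not_mem_nil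

end Pool.Agent.Strip051.G.I1_32_3_64.Tab
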