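import Pool.Agent.Strip051.G.I1_32_3_64.Tab
import Pool.Agent.Strip051.PB.RowK

/-! # Certificates N10 (generated) -/

set_option linter.all false
set_option maxRecDepth 100000

namespace Pool.Agent.Strip051.G.I1_32_3_64.Tab.C.NB01

open Pool.Agent.Strip051.PB Pool.Agent.Strip051.PB.T
open Pool.Agent.Strip051.G.I1_32_3_64.Tab

noncomputable def cut_pp_012_a : Cut := Cut.of [[⟨0, 0, 0, 33554432⟩, ⟨1, 1, 0, 33554432⟩, ⟨2, 1, 0, 33554432⟩]]

noncomputable def f_pp_012_a : ℕ → ℕ → ℕ → ℕ → Bool := onCell 536870912 536870912 0 536870912 33554432 16777216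
    (rowNK 3 2 false true true .pnp 0 1 2 (qsf 0 536870912 0 536870912 1) ndN0q0 ndN1q2a pcN1 cut_pp_012_a Ext.none)

def k0_pp_012_a : ∃ t, chk3 f_pp_012_a t 2 1 1 = true :=
  ⟨(l 3), by decide +kernel⟩

def k1_pp_012_a : ∃ t, chk3 f_pp_012_a t 6 1 1 = true :=
  ⟨(b (a (b (l 3) (l 3)) (b (a (l 86604438551) (l 65666995463)) (a (l 3) (l 94120698375)))) (l 3)), by decide +kernel⟩

def k2_pp_012_a : ∃ t, chk3 f_pp_012_a t 7 2 1 = true :=
  ⟨(a (b (a (l 17278576) (l 17551960)) (a (b (l 17118520) (l 75867121207)) (b (l 17402096) (b (l 17330672) (l 17426448))))) (b (a (l 17866408) (l 18252848)) (a (b (l 17731088) (l 17760480)) (b (l 18135296) (l 18031392))))), by decide +kernel⟩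

def k3_pp_012_a : ∃ t, chk3 f_pp_012_a t 14 3 1 = true :=
  ⟨(b (a (l 3) (b (a (l 93583958775) (l 88215928199)) (b (a (l 3) (l 84457088199)) (l 3)))) (l 3)), by decide +kernel⟩

def k4_pp_012_a : ∃ t, chk3 f_pp_012_a t 15 6 1 = true :=
  ⟨(a (b (a (l 17301528) (l 17558232)) (a (b (l 17122424) (a (l 3) (l 17077080))) (b (l 17404552) (a (l 17219560) (l 17324352))))) (b (a (l 17774656) (l 18011240)) (a (b (l 17624304) (l 17385112)) (b (l 17860368) (a (l 17659808) (l 17765680)))))), by decide +kernel⟩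

def k5_pp_012_a : ∃ t, chk3 f_pp_012_a t 30 7 1 = true :=
  ⟨(b (a (l 3) (b (a (b (l 17098664) (l 3)) (b (l 17203624) (l 17088992))) (b (a (l 3) (b (l 17032656) (l 3))) (l 3)))) (l 3)), by decide +kernel⟩

def k6_pp_012_a : ∃ t, chk3 f_pp_012_a t 31 14 1 = true :=
  ⟨(a (b (b (l 17218472) (a (l 17215280) (l 17317312))) (b (a (b (l 17135848) (l 17057872)) (b (l 17231456) (l 17127232))) (a (a (l 3) (b (l 17042256) (l 32917152039))) (b (a (l 17084544) (l 17098504)) (a (b (l 17034896) (l 16980080)) (a (l 16977824) (l 16947048))))))) (a (b (b (l 17521528) (l 17386056)) (b (b (l 17159976) (a (l 17220152) (l 17155352))) (b (a (a (l 17138704) (l 17084032)) (a (l 17024640) (a (l 17044488) (l 17020672)))) (a (b (l 16914160) (a (l 16996416) (l 16933592))) (c (b (l 17179288) (l 17129048)) (b (a (l 16984976) (l 16940752)) (a (l 16892616) (l 16841528)))))))) (b (b (l 17606208) (a (l 17455136) (b (l 17512720) (l 17426120)))) (b (a (b (l 17312760) (a (l 17178392)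 (l 17087960))) (b (a (l 17309640) (l 17193824)) (c (l 17360296) (a (l 17014272) (b (l 17071504) (l 16955440)))))) (b (c (a (l 17258056) (a (l 17244176) (l 17116528))) (a (a (b (l 17047192) (l 16968240)) (l 16753536)) (a (l 16753032) (l 16750432)))) (a (c (a (l 17106192) (l 16985104)) (a (l 16758440) (l 16757392))) (a (c (b (l 17140864) (l 17000608)) (l 16756152)) (a (c (l 16944984) (l 16770296)) (l 16753056))))))))), by decide +kernel⟩

def k7_pp_012_a : ∃ t, chk3 f_pp_012_a t 62 15 1 = true :=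
  ⟨(b (a (l 3) (a (a (l 3) (b (b (b (l 16974280) (l 16897464)) (l 3)) (l 3))) (a (b (b (b (l 16965184) (l 16865576)) (a (l 3) (b (l 16830368) (l 3)))) (l 3)) (b (b (b (l 16930872) (l 16812944)) (a (b (l 16810576) (l 6610220023)) (b (l 16810016) (l 16770784)))) (b (b (b (l 5536469703) (l 3)) (l 3)) (l 3)))))) (l 3)), by decide +kernel⟩

def k8_pp_012_a : ∃ t, chk3 f_pp_012_a t 126 30 1 = true :=
  ⟨(a (b (a (b (b (l 16891424) (a (l 16870504) (l 16847288))) (a (b (l 16807600) (l 16770208)) (b (l 16803120) (l 16769776)))) (b (c (l 16968912) (b (l 16845040) (l 16766464))) (a (b (l 16796296) (l 16770536)) (b (l 16786848) (l 16768192))))) (b (a (a (b (l 4999599463) (l 3)) (b (l 2315244567) (a (l 5536470743) (l 16772248)))) (a (b (l 16770736) (a (l 16772080) (l 16771712))) (b (l 16769792) (a (l 16771288) (l 16770848))))) (a (l 3) (a (b (b (l 16771496) (l 3)) (l 3)) (b (b (l 16773544) (l 2852116407)) (b (l 16772560) (l 3))))))) (b (b (c (a (b (l 17078184)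 (l 17025624)) (b (l 17071776) (l 16949752))) (a (b (l 16798280) (l 16765112)) (b (l 16781224) (l 16762496)))) (a (b (l 16767008) (a (l 16772808) (l 16773440))) (b (l 16764504) (a (l 16769552) (l 16773264))))) (b (a (a (b (l 16768592) (l 16771168)) (b (l 16768984) (l 16770576))) (a (b (l 16768008) (l 16769624)) (b (l 16767008) (l 16768640)))) (b (a (a (a (l 16772328) (l 16771560)) (a (l 16771112) (l 16770656))) (a (a (l 16770192) (l 16769720)) (c (l 16769208) (l 16769432)))) (b (a (a (l 1778375831) (l 16772120)) (a (l 16771208) (l 6))) (a (a (l 2852118519) (a (l 16771840) (l 16771424))) (l 6))))))), by decide +kernel⟩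

def k9_pp_012_a : ∃ t, chk3 f_pp_012_a t 127 30 1 = true :=
  ⟨(b (a (a (b (b (c (l 17034088) (l 16769864)) (l 16762456)) (b (l 16763408) (l 16765776))) (b (b (l 16759184) (l 16760656)) (b (l 16762536) (l 16764184)))) (b (a (b (l 16755632) (l 16758448)) (b (l 16754160) (l 16757152))) (a (b (l 16760112) (l 16761808)) (a (l 16759056) (b (l 16756880) (l 16758632)))))) (a (b (a (a (b (l 16765976) (l 16767632)) (b (l 16764904) (l 16766584))) (a (b (l 16766424) (l 16765504)) (b (l 16765296) (l 16764400)))) (b (a (a (l 16769320) (l 16768296)) (l 6)) (l 6))) (b (b (b (a (l 16761784) (l 16760608)) (a (l 16762656) (l 6))) (l 6)) (l 6)))), by decide +kernel⟩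

def k10_pp_012_a : ∃ t, chk3 f_pp_012_a t 63 31 1 = true :=
  ⟨(b (a (a (l 3) (a (a (l 3) (l 6)) (l 6))) (l 6)) (l 6)), by decide +kernel⟩

theorem s11_pp_012_a : ∃ t, chk3 f_pp_012_a t 63 30 1 = true := ex3_a k8_pp_012_a k9_pp_012_a

theorem s12_pp_012_a : ∃ t, chk3 f_pp_012_a t 63 15 1 = true := ex3_b s11_pp_012_a k10_pp_012_a

theorem s13_pp_012_a : ∃ t, chk3 f_pp_012_a t 31 15 1 = true := ex3_a k7_pp_012_a s12_pp_012_a

theorem s14_pp_012_a : ∃ t, chk3 f_pp_012_a t 31 7 1 = true := ex3_b k6_pp_012_a s13_pp_012_a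

theorem s15_pp_012_a : ∃ t, chk3 f_pp_012_a t 15 7 1 = true := ex3_a k5_pp_012_a s14_pp_012_a

theorem s16_pp_012_a : ∃ t, chk3 f_pp_012_a t 15 3 1 = true := ex3_b k4_pp_012_a s15_pp_012_a

theorem s17_pp_012_a : ∃ t, chk3 f_pp_012_a t 7 3 1 = true := ex3_a k3_pp_012_a s16_pp_012_a

theorem s18_pp_012_a : ∃ t, chk3 f_pp_012_a t 7 1 1 = true := ex3_b k2_pp_012_a s17_pp_012_a

theorem s19_pp_012_a : ∃ t, chk3 f_pp_012_a t 3 1 1 = true := ex3_a k1_pp_012_a s18_pp_012_a

theorem s20_pp_012_a : ∃ t, chk3 f_pp_012_a t 1 1 1 = true := ex3_a k0_pp_012_a s19_pp_012_a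

theorem c_pp_012_a : CertN 0 536870912 0 536870912 33554432 16777216 3 false true true .pnp 0 1 2
    ndN0q0 ndN1q2a pcN1 cut_pp_012_a Ext.none :=
  certNK2 (fam := false) (s1 := true) (s2 := true) (a := 0) (b := 1) (c := 2) (cn := .pnp) (n1 := ndN0q0) (n2 := ndN1q2a) (pc := pcN1) (cut := cut_pp_012_a) (xt := Ext.none) (P1 := 0) (W1 := 536870912) (P2 := 0) (W2 := 536870912) (P3 := 33554432) (W3 := 16777216) (N0 := 3)
    rfl rfl rfl (fun _ => rfl) s20_pp_012_a

noncomputable def cut_pp_012_b : Cut := Cut.of [[⟨0, 0, 0, 33554432⟩, ⟨1, 1, 0, 33554432⟩, ⟨2, 1, 0, 33554432⟩]]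

noncomputable def f_pp_012_b : ℕ → ℕ → ℕ → ℕ → Bool := onCell 536870912 536870912 1239849684 370763052 33554432 16777216
    (rowNK 3 2 false true true .pnp 0 1 2 (qsf 0 536870912 1239849684 370763052 1) ndN0q0 ndN1q2b pcN1 cut_pp_012_b Ext.none)

def k0_pp_012_b : ∃ t, chk3 f_pp_012_b t 1 1 1 = true :=
  ⟨(a (b (l 3) (l 2)) (a (b (a (b (b (a (l 3) (l 3)) (l 3)) (l 3)) (b (a (b (l 17053448) (l 17042712)) (l 17327064)) (a (l 17208048) (l 17254600)))) (a (l 2) (b (a (l 3) (l 17248248)) (l 2)))) (b (a (a (b (l 17468752) (l 17491616)) (b (l 17699112) (l 17718136))) (b (a (l 18214440) (b (l 18337296) (l 18298128))) (a (l 17911224) (l 18155328)))) (a (b (a (l 17471016) (l 17703304)) (l 17767792)) (b (l 17955632) (l 17888096)))))), by decide +kernel⟩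

theorem c_pp_012_b : CertN 0 536870912 1239849684 370763052 33554432 16777216 3 false true true .pnp 0 1 2
    ndN0q0 ndN1q2b pcN1 cut_pp_012_b Ext.none :=
  certNK2 (fam := false) (s1 := true) (s2 := true) (a := 0) (b := 1) (c := 2) (cn := .pnp) (n1 := ndN0q0) (n2 := ndN1q2b) (pc := pcN1) (cut := cut_pp_012_b) (xt := Ext.none) (P1 := 0) (W1 := 536870912) (P2 := 1239849684) (W2 := 370763052) (P3 := 33554432) (W3 := 16777216) (N0 := 3)
    rfl rfl rfl (fun _ => rfl) k0_pp_012_b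

noncomputable def cut_pp_022_a : Cut := Cut.of [[⟨0, 0, 0, 33554432⟩, ⟨1, 1, 0, 33554432⟩, ⟨2, 1, 0, 33554432⟩]]

noncomputable def f_pp_022_a : ℕ → ℕ → ℕ → ℕ → Bool := onCell 1073741824 536870912 0 536870912 33554432 16777216
    (rowNK 3 2 false true true .pp 0 2 2 (qsf 0 536870912 0 536870912 2) ndN0q0 ndN1q2a pcN2 cut_pp_022_a Ext.none)

def k0_pp_022_a : ∃ t, chk3 f_pp_022_a t 2 2 1 = true :=
  ⟨(a (a (a (a (a (l 18660752) (l 18577408)) (l 18655416)) (l 19065584)) (b (l 19176272) (l 19128264))) (a (b (l 19512288) (l 19437016)) (l 1))), by decide +kernel⟩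

def k1_pp_022_a : ∃ t, chk3 f_pp_022_a t 2 6 1 = true :=
  ⟨(a (a (a (a (a (b (l 18228640) (b (l 18059448) (l 17888128))) (b (l 18297808) (l 17931232))) (b (l 18404448) (b (l 18253040) (l 18089128)))) (b (l 18621200) (b (l 18495440) (a (l 18258184) (l 18435432))))) (b (a (l 18925800) (l 19167504)) (a (b (l 18827672) (a (l 18607960) (l 18705104))) (l 18868168)))) (l 1)), by decide +kernel⟩

def k2_pp_022_a : ∃ t, chk3 f_pp_022_a t 16 14 1 = true :=
  ⟨(a (a (b (b (l 17701936) (b (l 17577752) (l 17226328))) (b (c (b (l 17531928) (a (l 17389008) (l 17423184))) (b (a (l 17096704) (l 17196832)) (a (a (l 16838544) (l 16967928)) (l 16910680)))) (b (c (a (b (l 17279696) (l 17049920)) (l 17118824)) (a (a (l 16759984) (l 16801552)) (l 16750320))) (a (a (a (l 16761384) (l 16772848)) (l 16754864)) (a (l 16767824) (l 16786352)))))) (b (b (l 17778664) (c (l 17770976) (l 17322080))) (b (c (b (l 17612392) (l 17477200)) (b (l 17098168) (a (l 17003680) (l 17056496))))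 (b (c (a (l 17230784) (l 17281544)) (a (l 16793936) (l 16813328))) (a (l 16743472) (b (l 16832320) (l 16749664))))))) (b (b (l 17898808) (a (l 17504536) (l 17643768))) (b (b (a (l 17291976) (l 17400328)) (a (b (l 17212824) (l 17035648)) (b (l 17292032) (l 17107656)))) (b (b (c (a (l 17420600) (l 17491456)) (a (l 16900840) (l 16914032))) (a (l 16789144) (l 16819896))) (a (a (l 16762144) (l 16764248)) (a (l 16768264) (b (l 16882856) (l 16742864)))))))), by decide +kernel⟩

def k3_pp_022_a : ∃ t, chk3 f_pp_022_a t 17 14 1 = true :=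
  ⟨(b (b (a (l 18068088) (l 18248392)) (a (a (l 17723664) (l 17765248)) (a (l 17768272) (b (l 18144488) (l 17766704))))) (a (b (b (a (l 17429272) (l 17441696)) (b (a (l 17313392) (l 17297784)) (c (l 17546496) (a (l 17076152) (l 16987136))))) (a (b (c (b (l 17567624) (l 17405520)) (a (l 16829632) (l 16796184))) (a (b (l 16852840) (l 16746136)) (a (l 16747152) (l 16718192)))) (b (c (a (l 17336568) (b (l 17666200) (l 17401736))) (a (b (l 16953160) (l 16779280)) (b (a (l 16963936) (b (l 16991456) (l 16927176))) (a (b (l 16811328) (l 16735920)) (l 1))))) (a (a (b (l 16793648) (l 16719008)) (b (l 16715696) (l 1))) (l 1))))) (a (a (b (b (l 17605736) (c (l 17866136) (a (b (l 17276392) (l 17052808)) (b (l 17287064) (l 17141824))))) (b (l 17102520) (l 1))) (b (b (b (l 17772648) (l 17484272)) (l 17553080)) (l 1))) (b (l 17541464) (l 1))))), by decide +kernel⟩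

def k4_pp_022_a : ∃ t, chk3 f_pp_022_a t 9 14 1 = true :=
  ⟨(a (b (a (b (l 18380656) (l 18108496)) (l 1)) (l 1)) (l 1)), by decide +kernel⟩

def k5_pp_022_a : ∃ t, chk3 f_pp_022_a t 4 15 1 = true :=
  ⟨(a (b (b (a (a (a (a (a (a (b (l 16763664) (a (l 16765112) (l 16762712))) (b (l 16759504) (l 16763704))) (b (l 16758832) (a (l 16761544) (l 16756760)))) (b (b (l 16754056) (a (l 16752032) (l 16747208))) (a (c (l 16756752) (l 16755744)) (l 16752448)))) (a (b (a (l 16742376) (l 16738216)) (a (l 16746792) (l 16742696))) (a (b (l 16755048) (l 16738632)) (b (l 16750936) (l 16735232))))) (a (b (a (a (l 16746656) (l 16742168)) (b (l 16736784) (l 16740632))) (a (b (l 16745936) (a (l 16749216) (l 16747616))) (b (l 16744488) (l 16729920)))) (b (a (b (l 16717056) (l 16720784)) (b (l 16718200) (l 16721728))) (a (b (l 16724440) (l 16730648)) (b (l 16726488) (a (l 16728448) (b (l 16727832) (a (l 6) (l 16729504))))))))) (a (a (b (a (b (l 16719136) (a (l 16722296)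 (b (l 16721792) (l 16723408)))) (b (a (l 16719696) (b (l 16719208) (l 16720760))) (a (b (l 16722072) (l 1)) (l 1)))) (a (b (a (b (l 16724776) (a (l 16726352) (l 16726456))) (l 16725800)) (l 16730176)) (l 1))) (l 1)) (l 1))) (a (a (l 6) (a (l 6) (a (l 6) (a (l 6) (a (l 6) (l 1)))))) (l 1))) (a (a (l 6) (a (l 6) (l 1))) (l 1))) (l 1)), by decide +kernel⟩

def k6_pp_022_a : ∃ t, chk3 f_pp_022_a t 5 7 1 = true :=
  ⟨(l 1), by decide +kernel⟩

def k7_pp_022_a : ∃ t, chk3 f_pp_022_a t 3 1 1 = true :=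
  ⟨(l 1), by decide +kernel⟩

theorem s8_pp_022_a : ∃ t, chk3 f_pp_022_a t 8 14 1 = true := ex3_a k2_pp_022_a k3_pp_022_a

theorem s9_pp_022_a : ∃ t, chk3 f_pp_022_a t 4 14 1 = true := ex3_a s8_pp_022_a k4_pp_022_a

theorem s10_pp_022_a : ∃ t, chk3 f_pp_022_a t 4 7 1 = true := ex3_b s9_pp_022_a k5_pp_022_a

theorem s11_pp_022_a : ∃ t, chk3 f_pp_022_a t 2 7 1 = true := ex3_a s10_pp_022_a k6_pp_022_a

theorem s12_pp_022_a : ∃ t, chk3 f_pp_022_a t 2 3 1 = true := ex3_b k1_pp_022_a s11_pp_022_a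

theorem s13_pp_022_a : ∃ t, chk3 f_pp_022_a t 2 1 1 = true := ex3_b k0_pp_022_a s12_pp_022_a

theorem s14_pp_022_a : ∃ t, chk3 f_pp_022_a t 1 1 1 = true := ex3_a s13_pp_022_a k7_pp_022_a

theorem c_pp_022_a : CertN 0 536870912 0 536870912 33554432 16777216 3 false true true .pp 0 2 2
    ndN0q0 ndN1q2a pcN2 cut_pp_022_a Ext.none :=
  certNK2 (fam := false) (s1 := true) (s2 := true) (a := 0) (b := 2) (c := 2) (cn := .pp) (n1 := ndN0q0) (n2 := ndN1q2a) (pc := pcN2) (cut := cut_pp_022_a) (xt := Ext.none) (P1 := 0) (W1 := 536870912) (P2 := 0) (W2 := 536870912) (P3 := 33554432) (W3 := 16777216) (N0 := 3)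
    rfl rfl rfl (fun _ => rfl) s14_pp_022_a

noncomputable def cut_pp_022_b : Cut := Cut.of [[⟨0, 0, 0, 33554432⟩, ⟨1, 1, 0, 33554432⟩, ⟨2, 1, 0, 33554432⟩]]

noncomputable def f_pp_022_b : ℕ → ℕ → ℕ → ℕ → Bool := onCell 1073741824 536870912 1239849684 370763052 33554432 16777216
    (rowNK 3 2 false true true .pp 0 2 2 (qsf 0 536870912 1239849684 370763052 2) ndN0q0 ndN1q2b pcN2 cut_pp_022_b Ext.none)

def k0_pp_022_b : ∃ t, chk3 f_pp_022_b t 1 1 1 = true :=
  ⟨(a (b (a (a (a (a (a (b (l 18676432) (l 18433328)) (b (l 18719008) (l 18471536))) (b (l 18781744) (l 18538424))) (b (l 18915608) (l 18658576))) (b (l 19159904) (l 18910424))) (b (a (l 19470344) (l 19372280)) (a (l 19215832) (l 19504000)))) (a (a (a (a (a (l 18199336) (l 18213448)) (l 18237008)) (l 18556800)) (b (l 18548528) (l 18303704))) (b (a (l 18850968) (l 19152024)) (l 18612440)))) (b (a (b (l 1) (l 199219058951)) (l 1)) (a (b (l 19518728) (a (l 19028528) (l 19276360))) (b (l 19672200)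 (l 19537136))))), by decide +kernel⟩

theorem c_pp_022_b : CertN 0 536870912 1239849684 370763052 33554432 16777216 3 false true true .pp 0 2 2
    ndN0q0 ndN1q2b pcN2 cut_pp_022_b Ext.none :=
  certNK2 (fam := false) (s1 := true) (s2 := true) (a := 0) (b := 2) (c := 2) (cn := .pp) (n1 := ndN0q0) (n2 := ndN1q2b) (pc := pcN2) (cut := cut_pp_022_b) (xt := Ext.none) (P1 := 0) (W1 := 536870912) (P2 := 1239849684) (W2 := 370763052) (P3 := 33554432) (W3 := 16777216) (N0 := 3)
    rfl rfl rfl (fun _ => rfl) k0_pp_022_b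

noncomputable def f_pp_023 : ℕ → ℕ → ℕ → ℕ → Bool := onCell 0 536870912 1073741824 536870912 33554432 16777216
    (rowNK 3 1 false true true .up 0 2 3 (qsf 0 536870912 1610612736 536870912 2) ndN0q0 ndN1q3 pcN2 Cut.none Ext.none)

def k0_pp_023 : ∃ t, chk3 f_pp_023 t 1 1 1 = true :=
  ⟨(a (b (b (l 1) (a (l 1) (l 19026424))) (a (l 327529276263) (b (l 18714176) (l 18392672)))) (a (b (b (b (l 1) (l 18929152)) (l 18672080)) (b (l 18331864) (l 18001512))) (b (b (b (b (b (b (l 19189832) (l 19165840)) (l 19129008)) (l 19052184)) (l 18904440)) (l 18613056)) (b (l 18251680) (l 17899008))))), by decide +kernel⟩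

theorem c_pp_023 : CertN 0 536870912 1610612736 536870912 33554432 16777216 3 false true true .up 0 2 3
    ndN0q0 ndN1q3 pcN2 Cut.none Ext.none :=
  certNK1 (fam := false) (s1 := true) (s2 := true) (a := 0) (b := 2) (c := 3) (cn := .up) (n1 := ndN0q0) (n2 := ndN1q3) (pc := pcN2) (cut := Cut.none) (xt := Ext.none) (P1 := 0) (W1 := 536870912) (P2 := 1610612736) (W2 := 536870912) (P3 := 33554432) (W3 := 16777216) (N0 := 3)
    rfl rfl rfl (fun _ => rfl) k0_pp_023

noncomputable def f_pp_033 : ℕ → ℕ → ℕ → ℕ → Bool := onCell 1610612736 536870912 1610612736 536870912 33554432 16777216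
    (rowNK 3 2 false true true .pnn 0 3 3 (qsf 0 536870912 1610612736 536870912 3) ndN0q0 ndN1q3 pcN3 Cut.none Ext.none)

def k0_pp_033 : ∃ t, chk3 f_pp_033 t 1 1 1 = true :=
  ⟨(a (b (a (b (l 231427604919) (a (l 17703424) (l 17637112))) (b (a (l 17542896) (l 1)) (a (l 17736592) (l 17697160)))) (a (b (a (l 17416320) (l 17457632)) (a (l 17049128) (l 17277200))) (b (a (l 17658576) (l 17829216)) (a (l 17531840) (l 17694736))))) (a (b (a (b (l 1) (l 17454944)) (l 1)) (l 4)) (l 4))), by decide +kernel⟩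

theorem c_pp_033 : CertN 0 536870912 1610612736 536870912 33554432 16777216 3 false true true .pnn 0 3 3
    ndN0q0 ndN1q3 pcN3 Cut.none Ext.none :=
  certNK2 (fam := false) (s1 := true) (s2 := true) (a := 0) (b := 3) (c := 3) (cn := .pnn) (n1 := ndN0q0) (n2 := ndN1q3) (pc := pcN3) (cut := Cut.none) (xt := Ext.none) (P1 := 0) (W1 := 536870912) (P2 := 1610612736) (W2 := 536870912) (P3 := 33554432) (W3 := 16777216) (N0 := 3)
    rfl rfl rfl (fun _ => rfl) k0_pp_033

noncomputable def f_pp_101 : ℕ → ℕ → ℕ → ℕ → Bool := onCell 536870912 536870912 536870912 536870912 33554432 16777216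
    (rowNK 3 0 false true true .npn 1 0 1 (qsf 536870912 536870912 536870912 536870912 0) ndN0q1 ndN1q1 pcN0 Cut.none Ext.none)

def k0_pp_101 : ∃ t, chk3 f_pp_101 t 1 1 1 = true :=
  ⟨(l 3), by decide +kernel⟩

theorem c_pp_101 : CertN 536870912 536870912 536870912 536870912 33554432 16777216 3 false true true .npn 1 0 1
    ndN0q1 ndN1q1 pcN0 Cut.none Ext.none :=
  certNK0 (fam := false) (s1 := true) (s2 := true) (a := 1) (b := 0) (c := 1) (cn := .npn) (n1 := ndN0q1) (n2 := ndN1q1) (pc := pcN0) (cut := Cut.none) (xt := Ext.none) (P1 := 536870912) (W1 := 536870912) (P2 := 536870912) (W2 := 536870912) (P3 := 33554432) (W3 := 16777216) (N0 := 3)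
    rfl rfl rfl k0_pp_101

noncomputable def f_pp_102_a : ℕ → ℕ → ℕ → ℕ → Bool := onCell 536870912 536870912 0 536870912 33554432 16777216
    (rowNK 3 0 false true true .npp 1 0 2 (qsf 536870912 536870912 0 536870912 0) ndN0q1 ndN1q2a pcN0 Cut.none Ext.none)

def k0_pp_102_a : ∃ t, chk3 f_pp_102_a t 1 1 1 = true :=
  ⟨(l 3), by decide +kernel⟩

theorem c_pp_102_a : CertN 536870912 536870912 0 536870912 33554432 16777216 3 false true true .npp 1 0 2
    ndN0q1 ndN1q2a pcN0 Cut.none Ext.none :=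
  certNK0 (fam := false) (s1 := true) (s2 := true) (a := 1) (b := 0) (c := 2) (cn := .npp) (n1 := ndN0q1) (n2 := ndN1q2a) (pc := pcN0) (cut := Cut.none) (xt := Ext.none) (P1 := 536870912) (W1 := 536870912) (P2 := 0) (W2 := 536870912) (P3 := 33554432) (W3 := 16777216) (N0 := 3)
    rfl rfl rfl k0_pp_102_a

noncomputable def f_pp_102_b : ℕ → ℕ → ℕ → ℕ → Bool := onCell 536870912 536870912 0 536870912 33554432 16777216
    (rowNK 3 1 false true true .npp 1 0 2 (qsf 536870912 536870912 1239849684 370763052 0) ndN0q1 ndN1q2b pcN0 Cut.none Ext.none)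

def k0_pp_102_b : ∃ t, chk3 f_pp_102_b t 1 1 1 = true :=
  ⟨(l 3), by decide +kernel⟩

theorem c_pp_102_b : CertN 536870912 536870912 1239849684 370763052 33554432 16777216 3 false true true .npp 1 0 2
    ndN0q1 ndN1q2b pcN0 Cut.none Ext.none :=
  certNK1 (fam := false) (s1 := true) (s2 := true) (a := 1) (b := 0) (c := 2) (cn := .npp) (n1 := ndN0q1) (n2 := ndN1q2b) (pc := pcN0) (cut := Cut.none) (xt := Ext.none) (P1 := 536870912) (W1 := 536870912) (P2 := 1239849684) (W2 := 370763052) (P3 := 33554432) (W3 := 16777216) (N0 := 3)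
    rfl rfl rfl (fun _ => rfl) k0_pp_102_b

noncomputable def f_pp_112_a : ℕ → ℕ → ℕ → ℕ → Bool := onCell 536870912 536870912 0 536870912 33554432 16777216
    (rowNK 3 0 false true true .dn 1 1 2 (qsf 536870912 536870912 0 536870912 1) ndN0q1 ndN1q2a pcN1 Cut.none Ext.none)

def k0_pp_112_a : ∃ t, chk3 f_pp_112_a t 1 1 1 = true :=
  ⟨(l 3), by decide +kernel⟩

theorem c_pp_112_a : CertN 536870912 536870912 0 536870912 33554432 16777216 3 false true true .dn 1 1 2
    ndN0q1 ndN1q2a pcN1 Cut.none Ext.none :=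
  certNK0 (fam := false) (s1 := true) (s2 := true) (a := 1) (b := 1) (c := 2) (cn := .dn) (n1 := ndN0q1) (n2 := ndN1q2a) (pc := pcN1) (cut := Cut.none) (xt := Ext.none) (P1 := 536870912) (W1 := 536870912) (P2 := 0) (W2 := 536870912) (P3 := 33554432) (W3 := 16777216) (N0 := 3)
    rfl rfl rfl k0_pp_112_a

noncomputable def f_pp_112_b : ℕ → ℕ → ℕ → ℕ → Bool := onCell 536870912 536870912 1239849684 370763052 33554432 16777216
    (rowNK 3 0 false true true .dn 1 1 2 (qsf 536870912 536870912 1239849684 370763052 1) ndN0q1 ndN1q2b pcN1 Cut.none Ext.none)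

def k0_pp_112_b : ∃ t, chk3 f_pp_112_b t 1 1 1 = true :=
  ⟨(a (b (l 3) (a (b (a (b (l 126870224071) (l 45266394439)) (l 3)) (a (b (l 17678808) (l 17833072)) (b (l 105395550791) (l 34528592103)))) (l 3))) (l 3)), by decide +kernel⟩

theorem c_pp_112_b : CertN 536870912 536870912 1239849684 370763052 33554432 16777216 3 false true true .dn 1 1 2
    ndN0q1 ndN1q2b pcN1 Cut.none Ext.none :=
  certNK0 (fam := false) (s1 := true) (s2 := true) (a := 1) (b := 1) (c := 2) (cn := .dn) (n1 := ndN0q1) (n2 := ndN1q2b) (pc := pcN1) (cut := Cut.none) (xt := Ext.none) (P1 := 536870912) (W1 := 536870912) (P2 := 1239849684) (W2 := 370763052) (P3 := 33554432) (W3 := 16777216) (N0 := 3)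
    rfl rfl rfl k0_pp_112_b

noncomputable def cut_pp_113 : Cut := Cut.of [[⟨0, 1, 0, 7061502⟩, ⟨1, 1, 0, 7061502⟩, ⟨2, 2, 0, 184626⟩]]

noncomputable def f_pp_113 : ℕ → ℕ → ℕ → ℕ → Bool := onCell 536870912 536870912 536870912 536870912 33554432 16777216
    (rowNK 3 1 false true true .nn 1 1 3 (qsf 536870912 536870912 1610612736 536870912 1) ndN0q1 ndN1q3 pcN1 cut_pp_113 Ext.none)

def k0_pp_113 : ∃ t, chk3 f_pp_113 t 1 1 1 = true :=
  ⟨(b (a (l 3) (l 3)) (a (b (a (b (l 1) (b (l 1) (l 18451200))) (l 3)) (a (b (a (l 18626400) (l 18554320)) (l 18882224)) (b (b (l 18598456) (l 18570672)) (l 18812664)))) (b (l 3) (a (b (a (l 18515832) (l 3)) (a (l 18415248) (l 18299312))) (b (l 3) (a (a (l 17940736) (b (l 413559880791) (l 17481976))) (b (l 3) (a (b (l 466709552407) (l 17323000)) (b (l 3) (b (a (l 510195651127) (l 3)) (a (l 17058112) (a (l 170356199159) (b (l 3) (a (l 173040391719) (b (l 3) (a (l 174114051431) (b (l 3) (a (l 175187741463) (a (l 176261470679)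 (b (l 3) (b (l 3) (b (l 638507300471) (a (l 16785968) (b (l 639044164583) (b (l 639044163703) (a (l 16784112) (l 6))))))))))))))))))))))))))), by decide +kernel⟩

theorem c_pp_113 : CertN 536870912 536870912 1610612736 536870912 33554432 16777216 3 false true true .nn 1 1 3
    ndN0q1 ndN1q3 pcN1 cut_pp_113 Ext.none :=
  certNK1 (fam := false) (s1 := true) (s2 := true) (a := 1) (b := 1) (c := 3) (cn := .nn) (n1 := ndN0q1) (n2 := ndN1q3) (pc := pcN1) (cut := cut_pp_113) (xt := Ext.none) (P1 := 536870912) (W1 := 536870912) (P2 := 1610612736) (W2 := 536870912) (P3 := 33554432) (W3 := 16777216) (N0 := 3)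
    rfl rfl rfl (fun _ => rfl) k0_pp_113

noncomputable def cut_pp_123 : Cut := Cut.of [[⟨0, 1, 0, 7061502⟩, ⟨1, 1, 0, 7061502⟩, ⟨2, 2, 0, 184626⟩]]

noncomputable def f_pp_123 : ℕ → ℕ → ℕ → ℕ → Bool := onCell 1073741824 536870912 1610612736 536870912 33554432 16777216
    (rowNK 3 2 false true true .npn 1 2 3 (qsf 536870912 536870912 1610612736 536870912 2) ndN0q1 ndN1q3 pcN2 cut_pp_123 Ext.none)

def k0_pp_123 : ∃ t, chk3 f_pp_123 t 1 1 1 = true :=
  ⟨(a (b (a (b (a (a (a (a (l 19058560) (l 19049632)) (l 19036240)) (l 18999064)) (l 18966392)) (a (a (a (a (l 18731496) (l 18723328)) (l 18720296)) (l 18618088)) (b (l 18719832) (l 18484760)))) (b (a (l 18722816) (l 1)) (a (l 18596824) (l 18445600)))) (a (b (a (a (a (a (b (l 18471832) (l 18084552)) (l 18403496)) (b (l 18433400) (l 18133104))) (b (l 18402656) (l 18156632))) (b (l 18340680) (l 18135376))) (a (a (a (a (b (l 17613480) (b (l 17183648) (b (l 16987592) (b (l 16886456) (a (b (l 16831936) (a (b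 (l 16804536) (b (l 16791584) (b (l 16785112) (b (l 16792352) (b (l 16782872) (l 6)))))) (l 16798880))) (l 16820448)))))) (b (l 17590400) (b (l 17196240) (l 17015608)))) (b (l 17622240) (b (l 17219480) (l 16952544)))) (b (l 17688776) (b (l 17281920) (l 17001176)))) (b (l 17906536) (b (l 17437392) (l 17143960))))) (b (b (l 18443352) (a (l 18091136) (l 18028576))) (b (a (l 17862944) (l 17849736)) (a (l 17490392) (l 17594952)))))) (b (a (b (l 1) (a (l 18357296) (l 1))) (l 1)) (b (a (a (l 18199472) (l 18090336)) (a (l 18035248) (l 1))) (a (b (l 17869160) (l 17680176)) (a (l 17849728) (l 17720424)))))), by decide +kernel⟩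

theorem c_pp_123 : CertN 536870912 536870912 1610612736 536870912 33554432 16777216 3 false true true .npn 1 2 3
    ndN0q1 ndN1q3 pcN2 cut_pp_123 Ext.none :=
  certNK2 (fam := false) (s1 := true) (s2 := true) (a := 1) (b := 2) (c := 3) (cn := .npn) (n1 := ndN0q1) (n2 := ndN1q3) (pc := pcN2) (cut := cut_pp_123) (xt := Ext.none) (P1 := 536870912) (W1 := 536870912) (P2 := 1610612736) (W2 := 536870912) (P3 := 33554432) (W3 := 16777216) (N0 := 3)
    rfl rfl rfl (fun _ => rfl) k0_pp_123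

noncomputable def f_pp_133 : ℕ → ℕ → ℕ → ℕ → Bool := onCell 536870912 536870912 1610612736 536870912 33554432 16777216
    (rowNK 3 0 false true true .dn 1 3 3 (qsf 536870912 536870912 1610612736 536870912 3) ndN0q1 ndN1q3 pcN3 Cut.none Ext.none)

def k0_pp_133 : ∃ t, chk3 f_pp_133 t 1 1 1 = true :=
  ⟨(a (b (l 1) (a (b (l 1) (a (l 395172040231) (l 1))) (l 1))) (l 1)), by decide +kernel⟩

theorem c_pp_133 : CertN 536870912 536870912 1610612736 536870912 33554432 16777216 3 false true true .dn 1 3 3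
    ndN0q1 ndN1q3 pcN3 Cut.none Ext.none :=
  certNK0 (fam := false) (s1 := true) (s2 := true) (a := 1) (b := 3) (c := 3) (cn := .dn) (n1 := ndN0q1) (n2 := ndN1q3) (pc := pcN3) (cut := Cut.none) (xt := Ext.none) (P1 := 536870912) (W1 := 536870912) (P2 := 1610612736) (W2 := 536870912) (P3 := 33554432) (W3 := 16777216) (N0 := 3)
    rfl rfl rfl k0_pp_133

noncomputable def f_pp_202_a : ℕ → ℕ → ℕ → ℕ → Bool := onCell 0 536870912 0 536870912 33554432 16777216
    (rowNK 3 0 false true true .pp 2 0 2 (qsf 0 536870912 0 536870912 0) ndN0q2 ndN1q2a pcN0 Cut.none Ext.none)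

def k0_pp_202_a : ∃ t, chk3 f_pp_202_a t 1 1 1 = true :=
  ⟨(l 3), by decide +kernel⟩

theorem c_pp_202_a : CertN 0 536870912 0 536870912 33554432 16777216 3 false true true .pp 2 0 2
    ndN0q2 ndN1q2a pcN0 Cut.none Ext.none :=
  certNK0 (fam := false) (s1 := true) (s2 := true) (a := 2) (b := 0) (c := 2) (cn := .pp) (n1 := ndN0q2) (n2 := ndN1q2a) (pc := pcN0) (cut := Cut.none) (xt := Ext.none) (P1 := 0) (W1 := 536870912) (P2 := 0) (W2 := 536870912) (P3 := 33554432) (W3 := 16777216) (N0 := 3)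
    rfl rfl rfl k0_pp_202_a

noncomputable def f_pp_202_b : ℕ → ℕ → ℕ → ℕ → Bool := onCell 0 536870912 1239849684 370763052 33554432 16777216
    (rowNK 3 0 false true true .pp 2 0 2 (qsf 0 536870912 1239849684 370763052 0) ndN0q2 ndN1q2b pcN0 Cut.none Ext.none)

def k0_pp_202_b : ∃ t, chk3 f_pp_202_b t 1 1 1 = true :=
  ⟨(l 3), by decide +kernel⟩

theorem c_pp_202_b : CertN 0 536870912 1239849684 370763052 33554432 16777216 3 false true true .pp 2 0 2
    ndN0q2 ndN1q2b pcN0 Cut.none Ext.none :=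
  certNK0 (fam := false) (s1 := true) (s2 := true) (a := 2) (b := 0) (c := 2) (cn := .pp) (n1 := ndN0q2) (n2 := ndN1q2b) (pc := pcN0) (cut := Cut.none) (xt := Ext.none) (P1 := 0) (W1 := 536870912) (P2 := 1239849684) (W2 := 370763052) (P3 := 33554432) (W3 := 16777216) (N0 := 3)
    rfl rfl rfl k0_pp_202_b

noncomputable def f_pp_203 : ℕ → ℕ → ℕ → ℕ → Bool := onCell 0 536870912 0 536870912 33554432 16777216
    (rowNK 3 1 false true true .up 2 0 3 (qsf 0 536870912 1610612736 536870912 0) ndN0q2 ndN1q3 pcN0 Cut.none Ext.none)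

def k0_pp_203 : ∃ t, chk3 f_pp_203 t 1 1 1 = true :=
  ⟨(l 3), by decide +kernel⟩

theorem c_pp_203 : CertN 0 536870912 1610612736 536870912 33554432 16777216 3 false true true .up 2 0 3
    ndN0q2 ndN1q3 pcN0 Cut.none Ext.none :=
  certNK1 (fam := false) (s1 := true) (s2 := true) (a := 2) (b := 0) (c := 3) (cn := .up) (n1 := ndN0q2) (n2 := ndN1q3) (pc := pcN0) (cut := Cut.none) (xt := Ext.none) (P1 := 0) (W1 := 536870912) (P2 := 1610612736) (W2 := 536870912) (P3 := 33554432) (W3 := 16777216) (N0 := 3)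
    rfl rfl rfl (fun _ => rfl) k0_pp_203

noncomputable def cut_pp_213 : Cut := Cut.of [[⟨0, 1, 0, 7061502⟩, ⟨1, 1, 0, 7061502⟩, ⟨2, 2, 0, 184626⟩]]

noncomputable def f_pp_213 : ℕ → ℕ → ℕ → ℕ → Bool := onCell 0 536870912 1610612736 536870912 33554432 16777216
    (rowNK 3 0 false true true .pnn 2 1 3 (qsf 0 536870912 1610612736 536870912 1) ndN0q2 ndN1q3 pcN1 cut_pp_213 Ext.none)

def k0_pp_213 : ∃ t, chk3 f_pp_213 t 1 1 1 = true :=
  ⟨(b (l 3) (a (l 3) (b (l 3) (a (l 3) (b (l 3) (a (l 3) (b (l 3) (a (l 3) (b (l 3) (a (l 3) (b (l 3) (a (l 3) (b (l 3) (a (l 3) (b (l 3) (b (l 3) (b (l 3) (b (l 3) (b (l 3) (l 6)))))))))))))))))))), by decide +kernel⟩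

theorem c_pp_213 : CertN 0 536870912 1610612736 536870912 33554432 16777216 3 false true true .pnn 2 1 3
    ndN0q2 ndN1q3 pcN1 cut_pp_213 Ext.none :=
  certNK0 (fam := false) (s1 := true) (s2 := true) (a := 2) (b := 1) (c := 3) (cn := .pnn) (n1 := ndN0q2) (n2 := ndN1q3) (pc := pcN1) (cut := cut_pp_213) (xt := Ext.none) (P1 := 0) (W1 := 536870912) (P2 := 1610612736) (W2 := 536870912) (P3 := 33554432) (W3 := 16777216) (N0 := 3)
    rfl rfl rfl k0_pp_213

noncomputable def f_pm_001 : ℕ → ℕ → ℕ → ℕ → Bool := onCell 0 536870912 536870912 536870912 33554432 16777216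
    (rowNK 3 0 false true false .up 0 0 1 (qsf 0 536870912 536870912 536870912 0) ndN0q0 ndN1q1 pcN0 Cut.none Ext.none)

def k0_pm_001 : ∃ t, chk3 f_pm_001 t 1 1 1 = true :=
  ⟨(l 4), by decide +kernel⟩

theorem c_pm_001 : CertN 0 536870912 536870912 536870912 33554432 16777216 3 false true false .up 0 0 1
    ndN0q0 ndN1q1 pcN0 Cut.none Ext.none :=
  certNK0 (fam := false) (s1 := true) (s2 := false) (a := 0) (b := 0) (c := 1) (cn := .up) (n1 := ndN0q0) (n2 := ndN1q1) (pc := pcN0) (cut := Cut.none) (xt := Ext.none) (P1 := 0) (W1 := 536870912) (P2 := 536870912) (W2 := 536870912) (P3 := 33554432) (W3 := 16777216) (N0 := 3)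
    rfl rfl rfl k0_pm_001

noncomputable def f_pm_011 : ℕ → ℕ → ℕ → ℕ → Bool := onCell 0 536870912 536870912 536870912 33554432 16777216
    (rowNK 3 0 false true false .pnn 0 1 1 (qsf 0 536870912 536870912 536870912 1) ndN0q0 ndN1q1 pcN1 Cut.none Ext.none)

def k0_pm_011 : ∃ t, chk3 f_pm_011 t 1 1 1 = true :=
  ⟨(l 4), by decide +kernel⟩

theorem c_pm_011 : CertN 0 536870912 536870912 536870912 33554432 16777216 3 false true false .pnn 0 1 1
    ndN0q0 ndN1q1 pcN1 Cut.none Ext.none :=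
  certNK0 (fam := false) (s1 := true) (s2 := false) (a := 0) (b := 1) (c := 1) (cn := .pnn) (n1 := ndN0q0) (n2 := ndN1q1) (pc := pcN1) (cut := Cut.none) (xt := Ext.none) (P1 := 0) (W1 := 536870912) (P2 := 536870912) (W2 := 536870912) (P3 := 33554432) (W3 := 16777216) (N0 := 3)
    rfl rfl rfl k0_pm_011

noncomputable def cut_pm_012_a : Cut := Cut.of [[⟨0, 0, 0, 33554432⟩, ⟨1, 1, 0, 33554432⟩, ⟨2, 1, 0, 33554432⟩], [⟨0, 0, 1, 25165824⟩, ⟨1, 1, 2, 25165824⟩, ⟨2, 1, 0, 16777216⟩, ⟨0, 0, 0, 67108864⟩, ⟨0, 1, 0, 1056964608⟩, ⟨1, 0, 0, 1056964608⟩, ⟨1, 1, 0, 67108864⟩]]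

noncomputable def f_pm_012_a : ℕ → ℕ → ℕ → ℕ → Bool := onCell 536870912 536870912 0 536870912 33554432 16777216
    (rowNK 3 2 false true false .pnp 0 1 2 (qsf 0 536870912 0 536870912 1) ndN0q0 ndN1q2a pcN1 cut_pm_012_a Ext.none)

def k0_pm_012_a : ∃ t, chk3 f_pm_012_a t 2 1 1 = true :=
  ⟨(b (a (a (l 2) (l 18409728)) (a (l 18398520) (l 18558432))) (a (b (l 18595376) (a (l 18702504) (l 18785752))) (b (l 18963088) (b (l 18876264) (l 18999840))))), by decide +kernel⟩

def k1_pm_012_a : ∃ t, chk3 f_pm_012_a t 3 2 1 = true :=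
  ⟨(a (a (l 18729968) (l 18910640)) (a (l 19192672) (a (l 19556192) (a (l 19804296) (a (l 19937752) (l 20002800)))))), by decide +kernel⟩

def k2_pm_012_a : ∃ t, chk3 f_pm_012_a t 6 3 1 = true :=
  ⟨(a (b (l 18972696) (b (l 18931720) (l 18720384))) (b (l 19080784) (b (l 18928120) (b (l 18697816) (l 18445776))))), by decide +kernel⟩

def k3_pm_012_a : ∃ t, chk3 f_pm_012_a t 14 3 1 = true :=
  ⟨(b (l 19460168) (b (a (l 18973808) (l 19023464)) (b (a (l 18639664) (a (l 18596792) (l 18543784))) (a (b (l 18379616) (l 18159568)) (b (a (l 18272648) (l 18157760)) (a (l 17996640) (b (l 17917960) (a (l 17790840) (l 17492048))))))))), by decide +kernel⟩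

def k4_pm_012_a : ∃ t, chk3 f_pm_012_a t 30 3 1 = true :=
  ⟨(b (l 19596144) (b (b (l 19212584) (a (l 18898272) (l 18805544))) (b (a (b (l 18582480) (l 18243088)) (b (a (l 18481448) (l 18281720)) (a (b (l 18231824) (l 18018968)) (b (l 17814768) (a (l 17747272) (c (l 18023640) (l 17299912))))))) (b (b (a (l 17827520) (b (a (l 17819176) (c (l 17890944) (a (l 17474464) (l 17173592)))) (a (c (l 17976440) (l 17520832)) (c (l 17651840) (a (l 17258160) (l 16898496)))))) (a (c (l 18031928) (a (l 17786712) (l 17473448))) (a (c (l 17630976) (l 14)) (l 14)))) (a (a (b (l 17577048) (c (l 17657944) (b (l 17449344) (a (l 17393312) (l 14))))) (b (c (l 17747976) (a (l 17333984) (l 14))) (c (b (l 17570552) (a (l 17497056) (l 14))) (l 14)))) (b (a (c (a (l 17454784) (l 14)) (l 14)) (l 14)) (l 14))))))), by decide +kernel⟩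

def k5_pm_012_a : ∃ t, chk3 f_pm_012_a t 62 3 1 = true :=
  ⟨(b (l 19745664) (b (b (l 19199488) (b (l 18627696) (a (l 18579032) (c (l 18694096) (b (l 18216568) (l 17854760)))))) (b (b (a (c (l 18451784) (b (l 18030264) (a (l 17865304) (l 17707584)))) (c (b (l 18354776) (a (l 18158424) (l 17944712))) (b (a (l 17802680) (l 17389032)) (a (b (l 17586152) (l 17385656)) (a (l 17154608) (l 16988280)))))) (a (c (b (l 18076208) (a (l 17893224) (b (l 17805176) (l 17579712)))) (b (a (l 17546704) (b (l 17492016) (l 17230472))) (a (b (l 17354048) (l 17074472)) (b (l 16978992) (l 16821016))))) (b (a (c (l 17689672) (a (l 17003472) (l 16883488))) (c (c (l 17787136) (b (l 17533760) (l 17207480))) (b (l 16847552) (l 16730312)))) (b (a (c (l 17409672) (l 16811144)) (l 16738264)) (a (c (c (l 17593816) (l 16969368)) (l 16718240)) (b (l 16722936) (l 16723608))))))) (b (b (b (a (c (a (l 17670224) (a (l 17523920) (l 17282632))) (a (l 16848792) (l 16756320))) (a (a (l 16799584)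 (l 16721848)) (b (l 16727664) (l 16731752)))) (a (a (c (l 17299504) (l 16740216)) (a (c (l 17176744) (l 16732856)) (l 16775768))) (a (a (l 16735800) (l 16736640)) (a (l 16737496) (a (l 16738136) (l 16738568)))))) (a (a (l 14) (a (l 14) (b (l 16743336) (c (l 14) (l 16735176))))) (b (a (a (l 16744160) (b (l 16742888) (l 16747080))) (a (l 16730096) (l 16732248))) (a (a (l 16738208) (l 16739016)) (b (a (l 16752120) (l 6)) (l 6)))))) (a (a (l 14) (a (l 14) (b (b (c (l 14) (l 16743928)) (b (l 16748456) (l 16752568))) (l 6)))) (b (b (a (a (a (l 16745264) (l 16745656)) (a (l 16746704) (l 6))) (l 6)) (l 6)) (l 6))))))), by decide +kernel⟩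

def k6_pm_012_a : ∃ t, chk3 f_pm_012_a t 126 3 1 = true :=
  ⟨(b (b (l 19948752) (l 19653904)) (b (b (l 19105456) (a (b (l 18651952) (c (l 18535448) (b (l 17981880) (l 17539272)))) (b (c (l 18875064) (l 18194688)) (c (l 18195576) (b (l 17685448) (c (l 17579272) (l 16981856))))))) (b (b (a (c (b (l 18111984) (c (l 17967168) (b (l 17647784) (l 17403016)))) (a (b (l 17282520) (l 16884984)) (b (l 17091224) (l 16819864)))) (a (c (b (l 17944680) (b (l 17624616) (l 17250968))) (b (l 16962032) (l 16693984))) (b (c (l 17621184) (l 16869896)) (l 16743704)))) (b (b (b (a (c (l 17269640) (l 16696528)) (l 16701008)) (a (l 16790048) (b (l 16703280) (l 16704800)))) (a (b (l 16766792) (l 16709096)) (c (b (l 16772400) (l 16711952)) (l 16697120)))) (b (a (b (l 16713040) (l 16717008)) (b (c (l 16715792) (l 16714776)) (c (l 16702944) (l 16717848)))) (a (a (l 16722752) (l 16723280)) (b (b (l 16721032) (l 16712536)) (b (l 16707984) (l 16710320))))))) (b (b (b (a (b (l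 16713328) (l 16717400)) (b (a (l 16729808) (l 6)) (l 6))) (a (a (b (l 16736968) (l 16741088)) (b (l 6) (l 6))) (l 6))) (l 6)) (l 6))))), by decide +kernel⟩

def k7_pm_012_a : ∃ t, chk3 f_pm_012_a t 127 3 1 = true :=
  ⟨(b (b (l 20013160) (l 19652320)) (b (b (a (l 18883488) (b (l 19093680) (l 18524160))) (b (c (a (l 18761288) (l 18605024)) (b (a (l 18143280) (l 17897280)) (a (l 17826152) (a (l 17640496) (l 17330384))))) (c (b (a (l 18348128) (c (l 18351048) (l 17715248))) (a (c (l 18229600) (l 17637736)) (c (a (l 18023048) (l 17853224)) (a (l 17461080) (l 17060496))))) (a (b (c (l 17706776) (l 17068640)) (a (l 17014536) (l 16915672))) (a (b (l 17081792) (l 16721592)) (l 16673024)))))) (b (b (b (a (b (c (c (l 17930904) (l 17283720)) (l 16678496)) (l 16744216)) (a (l 16690552) (l 16682256))) (b (a (l 16717048) (a (l 16699424) (l 16701680))) (a (a (l 16700928) (l 16703200)) (a (l 16705480) (l 16707776))))) (b (b (a (a (l 16707008) (l 16709320)) (a (l 16711648)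 (l 16713992))) (a (b (l 16698384) (l 16701520)) (l 6))) (b (a (b (l 16705344) (l 16708536)) (l 6)) (l 6)))) (l 6)))), by decide +kernel⟩

theorem s8_pm_012_a : ∃ t, chk3 f_pm_012_a t 63 3 1 = true := ex3_a k6_pm_012_a k7_pm_012_a

theorem s9_pm_012_a : ∃ t, chk3 f_pm_012_a t 31 3 1 = true := ex3_a k5_pm_012_a s8_pm_012_a

theorem s10_pm_012_a : ∃ t, chk3 f_pm_012_a t 15 3 1 = true := ex3_a k4_pm_012_a s9_pm_012_a

theorem s11_pm_012_a : ∃ t, chk3 f_pm_012_a t 7 3 1 = true := ex3_a k3_pm_012_a s10_pm_012_a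

theorem s12_pm_012_a : ∃ t, chk3 f_pm_012_a t 3 3 1 = true := ex3_a k2_pm_012_a s11_pm_012_a

theorem s13_pm_012_a : ∃ t, chk3 f_pm_012_a t 3 1 1 = true := ex3_b k1_pm_012_a s12_pm_012_a

theorem s14_pm_012_a : ∃ t, chk3 f_pm_012_a t 1 1 1 = true := ex3_a k0_pm_012_a s13_pm_012_a

theorem c_pm_012_a : CertN 0 536870912 0 536870912 33554432 16777216 3 false true false .pnp 0 1 2
    ndN0q0 ndN1q2a pcN1 cut_pm_012_a Ext.none :=
  certNK2 (fam := false) (s1 := true) (s2 := false) (a := 0) (b := 1) (c := 2) (cn := .pnp) (n1 := ndN0q0) (n2 := ndN1q2a) (pc := pcN1) (cut := cut_pm_012_a) (xt := Ext.none) (P1 := 0) (W1 := 536870912) (P2 := 0) (W2 := 536870912) (P3 := 33554432) (W3 := 16777216) (N0 := 3)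
    rfl rfl rfl (fun _ => rfl) s14_pm_012_a

noncomputable def cut_pm_012_b : Cut := Cut.of [[⟨0, 0, 0, 33554432⟩, ⟨1, 1, 0, 33554432⟩, ⟨2, 1, 0, 33554432⟩], [⟨0, 0, 1, 25165824⟩, ⟨1, 1, 2, 25165824⟩, ⟨2, 1, 0, 16777216⟩, ⟨0, 0, 0, 67108864⟩, ⟨0, 1, 0, 1056964608⟩, ⟨1, 0, 0, 1056964608⟩, ⟨1, 1, 0, 67108864⟩]]

noncomputable def f_pm_012_b : ℕ → ℕ → ℕ → ℕ → Bool := onCell 0 536870912 536870912 536870912 33554432 16777216
    (rowNK 3 1 false true false .pnp 0 1 2 (qsf 0 536870912 1239849684 370763052 1) ndN0q0 ndN1q2b pcN1 cut_pm_012_b Ext.none)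

def k0_pm_012_b : ∃ t, chk3 f_pm_012_b t 1 1 1 = true :=
  ⟨(a (a (l 1) (b (l 1) (b (l 1) (b (a (l 1) (l 18901416)) (b (l 257737183495) (b (l 19654856) (b (l 19793008) (l 19893520)))))))) (b (a (l 1) (b (l 1) (a (l 250218775431) (l 18246760)))) (b (a (a (l 226059509015) (l 18601808)) (l 18601408)) (b (a (l 19026736) (l 18876200)) (b (a (l 19283064) (l 19022760)) (b (a (l 19418304) (l 19101328)) (b (a (l 19487904) (l 19142216)) (a (l 19533496) (l 19169224))))))))), by decide +kernel⟩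

theorem c_pm_012_b : CertN 0 536870912 1239849684 370763052 33554432 16777216 3 false true false .pnp 0 1 2
    ndN0q0 ndN1q2b pcN1 cut_pm_012_b Ext.none :=
  certNK1 (fam := false) (s1 := true) (s2 := false) (a := 0) (b := 1) (c := 2) (cn := .pnp) (n1 := ndN0q0) (n2 := ndN1q2b) (pc := pcN1) (cut := cut_pm_012_b) (xt := Ext.none) (P1 := 0) (W1 := 536870912) (P2 := 1239849684) (W2 := 370763052) (P3 := 33554432) (W3 := 16777216) (N0 := 3)
    rfl rfl rfl (fun _ => rfl) k0_pm_012_b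

noncomputable def cut_pm_022_a : Cut := Cut.of [[⟨0, 0, 0, 33554432⟩, ⟨1, 1, 0, 33554432⟩, ⟨2, 1, 0, 33554432⟩]]

noncomputable def f_pm_022_a : ℕ → ℕ → ℕ → ℕ → Bool := onCell 1073741824 536870912 0 536870912 33554432 16777216
    (rowNK 3 2 false true false .pp 0 2 2 (qsf 0 536870912 0 536870912 2) ndN0q0 ndN1q2a pcN2 cut_pm_022_a Ext.none)

def k0_pm_022_a : ∃ t, chk3 f_pm_022_a t 4 2 1 = true :=
  ⟨(b (l 19993720) (a (l 20036648) (l 19668104))), by decide +kernel⟩

def k1_pm_022_a : ∃ t, chk3 f_pm_022_a t 4 6 1 = true :=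
  ⟨(a (a (b (l 19966632) (a (l 19348848) (l 19439008))) (b (l 19703576) (b (l 19377648) (l 18894680)))) (b (a (l 19448600) (l 19274008)) (a (b (l 19100608) (a (l 18701096) (l 318938783223))) (l 349003889303)))), by decide +kernel⟩

def k2_pm_022_a : ∃ t, chk3 f_pm_022_a t 16 14 1 = true :=
  ⟨(b (b (a (l 18990416) (l 18818544)) (a (c (l 18957728) (a (l 18233344) (l 18164200))) (a (l 18287704) (l 18230560)))) (a (b (c (b (l 18589128) (a (l 18322808) (l 18235960))) (b (a (l 17603112) (l 17672704)) (a (a (b (l 17498840) (l 17219288)) (l 17203152)) (a (l 17224400) (l 17183984))))) (b (c (a (a (l 17725920) (l 17813656)) (c (l 18107200) (l 17388936))) (a (a (l 16722256) (l 16816464)) (a (l 16849216) (l 16820584)))) (a (a (a (l 16745792) (l 16782240)) (l 16717048)) (a (l 16724192) (a (l 16802760) (l 16778776)))))) (a (b (c (l 18265640) (b (l 17662632) (b (l 17400096) (l 17162616)))) (b (c (c (l 18023912) (l 17480888)) (a (l 16877432) (l 16873000))) (a (l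 16754128) (l 16750800)))) (b (c (l 18140088) (b (l 17615232) (l 17021680))) (b (c (b (l 17822616) (l 17614072)) (a (l 16870248) (l 16869184))) (a (l 16749320) (l 16728736))))))), by decide +kernel⟩

def k3_pm_022_a : ∃ t, chk3 f_pm_022_a t 17 14 1 = true :=
  ⟨(a (b (b (l 18656120) (a (l 18134832) (l 18021632))) (b (c (b (l 18239944) (a (l 18000112) (l 17930344))) (b (a (l 17572640) (l 17534952)) (a (b (l 17334336) (l 17159656)) (b (l 17309704) (l 17062224))))) (a (b (c (b (l 17759416) (l 17518936)) (a (l 16869864) (l 16830320))) (a (l 16710024) (b (l 16842464) (a (l 16747544) (l 16721296))))) (a (b (c (l 12382749015) (l 16713712)) (a (b (c (l 17136376) (l 16712216)) (b (a (l 16769456) (l 122440196215)) (l 128345591559))) (b (c (b (l 63385079127) (l 187402583927)) (l 93985842455)) (l 1)))) (b (b (c (l 50500743911) (a (l 16971536) (a (l 67679219159) (l 134788485431)))) (a (c (a (l 17281656) (l 200287914903)) (l 83785300807)) (l 1))) (l 1)))))) (b (b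 (l 18504312) (a (c (l 18454712) (l 17871856)) (a (b (l 18216664) (l 62849425927)) (l 251828673191)))) (b (b (a (c (l 18130768) (a (l 17509784) (a (l 42447298023) (l 188476685831)))) (l 260418015751)) (a (a (c (l 74123464231) (b (a (l 17296856) (l 62311111095)) (a (b (l 17160040) (l 86469917575)) (l 190086594807)))) (l 234110814599)) (l 1))) (a (b (a (c (l 249143338567) (l 170758740711)) (l 1)) (l 1)) (l 1))))), by decide +kernel⟩

def k4_pm_022_a : ∃ t, chk3 f_pm_022_a t 8 15 1 = true :=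
  ⟨(a (b (a (b (b (a (a (b (l 16687688) (l 16692608)) (b (l 16684408) (l 16710376))) (a (b (l 16683624) (l 16709680)) (a (l 16706504) (l 16706056)))) (a (a (a (l 16702928) (l 16702736)) (a (l 16718232) (l 16717976))) (b (a (l 16714888) (a (l 16714368) (l 16713992))) (a (l 16701872) (b (l 16718232) (l 6)))))) (l 6)) (b (a (b (b (a (l 16702720) (a (l 16705440) (l 16709816))) (a (b (l 16706656) (a (l 16709552) (l 16711280))) (b (c (l 16746824) (l 16713608)) (l 16717816)))) (b (a (b (b (l 16712224) (l 16714296)) (a (l 16715264) (l 16719584))) (a (l 16721848) (l 16726160))) (b (a (a (l 16719456) (l 16723768)) (l 16730192)) (l 6)))) (b (a (b (l 16716440) (l 16724488)) (b (l 16725168) (l 16733064))) (a (b (l 16732568) (l 16727560)) (b (l 16740984) (a (l 16746864) (b (l 35466945367) (a (l 6) (l 128882484791)))))))) (a (l 6) (a (l 6) (a (l 6) (a (l 6) (l 1))))))) (a (l 6) (a (l 6) (l 1)))) (b (a (b (a (b (a (b (l 16733752) (a (l 16718424) (b (l 16720664) (l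 58015516375)))) (b (a (l 36003802103) (b (l 82174700983) (l 138009274663))) (a (b (l 103112664711) (l 1)) (l 1)))) (a (b (a (b (l 16724264) (a (l 16727136) (l 109555124407))) (l 123513780839)) (a (l 133177464679) (l 1))) (l 1))) (l 1)) (l 1)) (l 1)) (l 1))), by decide +kernel⟩

def k5_pm_022_a : ∃ t, chk3 f_pm_022_a t 9 7 1 = true :=
  ⟨(b (a (a (b (a (b (l 68218936423) (l 286725290791)) (l 306052978103)) (l 1)) (l 1)) (l 1)) (l 1)), by decide +kernel⟩

def k6_pm_022_a : ∃ t, chk3 f_pm_022_a t 5 1 1 = true :=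
  ⟨(b (a (b (l 19557928) (l 365648521399)) (l 1)) (b (l 1) (l 1))), by decide +kernel⟩

def k7_pm_022_a : ∃ t, chk3 f_pm_022_a t 3 1 1 = true :=
  ⟨(l 1), by decide +kernel⟩

theorem s8_pm_022_a : ∃ t, chk3 f_pm_022_a t 8 14 1 = true := ex3_a k2_pm_022_a k3_pm_022_a

theorem s9_pm_022_a : ∃ t, chk3 f_pm_022_a t 8 7 1 = true := ex3_b s8_pm_022_a k4_pm_022_a

theorem s10_pm_022_a : ∃ t, chk3 f_pm_022_a t 4 7 1 = true := ex3_a s9_pm_022_a k5_pm_022_a

theorem s11_pm_022_a : ∃ t, chk3 f_pm_022_a t 4 3 1 = true := ex3_b k1_pm_022_a s10_pm_022_a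

theorem s12_pm_022_a : ∃ t, chk3 f_pm_022_a t 4 1 1 = true := ex3_b k0_pm_022_a s11_pm_022_a

theorem s13_pm_022_a : ∃ t, chk3 f_pm_022_a t 2 1 1 = true := ex3_a s12_pm_022_a k6_pm_022_a

theorem s14_pm_022_a : ∃ t, chk3 f_pm_022_a t 1 1 1 = true := ex3_a s13_pm_022_a k7_pm_022_a

theorem c_pm_022_a : CertN 0 536870912 0 536870912 33554432 16777216 3 false true false .pp 0 2 2
    ndN0q0 ndN1q2a pcN2 cut_pm_022_a Ext.none :=
  certNK2 (fam := false) (s1 := true) (s2 := false) (a := 0) (b := 2) (c := 2) (cn := .pp) (n1 := ndN0q0) (n2 := ndN1q2a) (pc := pcN2) (cut := cut_pm_022_a) (xt := Ext.none) (P1 := 0) (W1 := 536870912) (P2 := 0) (W2 := 536870912) (P3 := 33554432) (W3 := 16777216) (N0 := 3)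
    rfl rfl rfl (fun _ => rfl) s14_pm_022_a

noncomputable def cut_pm_022_b : Cut := Cut.of [[⟨0, 0, 0, 33554432⟩, ⟨1, 1, 0, 33554432⟩, ⟨2, 1, 0, 33554432⟩]]

noncomputable def f_pm_022_b : ℕ → ℕ → ℕ → ℕ → Bool := onCell 0 536870912 1239849684 370763052 33554432 16777216
    (rowNK 3 0 false true false .pp 0 2 2 (qsf 0 536870912 1239849684 370763052 2) ndN0q0 ndN1q2b pcN2 cut_pm_022_b Ext.none)

def k0_pm_022_b : ∃ t, chk3 f_pm_022_b t 1 1 1 = true :=
  ⟨(a (b (a (b (a (l 19732368) (l 19895872)) (l 19862784)) (b (a (l 20009608) (l 19714200)) (l 19861912))) (a (b (a (l 19410072) (l 19560752)) (a (l 19092576) (l 19224920))) (b (l 19608216) (l 19311304)))) (a (b (b (l 1) (l 19728152)) (b (l 19488600) (l 19192464))) (b (l 1) (l 205660836615)))), by decide +kernel⟩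

theorem c_pm_022_b : CertN 0 536870912 1239849684 370763052 33554432 16777216 3 false true false .pp 0 2 2
    ndN0q0 ndN1q2b pcN2 cut_pm_022_b Ext.none :=
  certNK0 (fam := false) (s1 := true) (s2 := false) (a := 0) (b := 2) (c := 2) (cn := .pp) (n1 := ndN0q0) (n2 := ndN1q2b) (pc := pcN2) (cut := cut_pm_022_b) (xt := Ext.none) (P1 := 0) (W1 := 536870912) (P2 := 1239849684) (W2 := 370763052) (P3 := 33554432) (W3 := 16777216) (N0 := 3)
    rfl rfl rfl k0_pm_022_b

noncomputable def f_pm_023 : ℕ → ℕ → ℕ → ℕ → Bool := onCell 0 536870912 1073741824 536870912 33554432 16777216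
    (rowNK 3 1 false true false .up 0 2 3 (qsf 0 536870912 1610612736 536870912 2) ndN0q0 ndN1q3 pcN2 Cut.none Ext.none)

def k0_pm_023 : ∃ t, chk3 f_pm_023 t 1 1 1 = true :=
  ⟨(a (b (a (l 1) (l 366722662583)) (b (a (l 20107656) (l 19428520)) (a (l 19806288) (l 19054384)))) (b (a (l 288337935719) (l 18510144)) (a (b (l 18594912) (l 18225504)) (b (l 18156512) (l 17860232))))), by decide +kernel⟩

theorem c_pm_023 : CertN 0 536870912 1610612736 536870912 33554432 16777216 3 false true false .up 0 2 3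
    ndN0q0 ndN1q3 pcN2 Cut.none Ext.none :=
  certNK1 (fam := false) (s1 := true) (s2 := false) (a := 0) (b := 2) (c := 3) (cn := .up) (n1 := ndN0q0) (n2 := ndN1q3) (pc := pcN2) (cut := Cut.none) (xt := Ext.none) (P1 := 0) (W1 := 536870912) (P2 := 1610612736) (W2 := 536870912) (P3 := 33554432) (W3 := 16777216) (N0 := 3)
    rfl rfl rfl (fun _ => rfl) k0_pm_023

noncomputable def f_pm_033 : ℕ → ℕ → ℕ → ℕ → Bool := onCell 1610612736 536870912 1610612736 536870912 33554432 16777216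
    (rowNK 3 2 false true false .pnn 0 3 3 (qsf 0 536870912 1610612736 536870912 3) ndN0q0 ndN1q3 pcN3 Cut.none Ext.none)

def k0_pm_033 : ∃ t, chk3 f_pm_033 t 1 1 1 = true :=
  ⟨(a (b (a (b (l 4) (a (l 19059280) (l 4))) (l 4)) (a (b (a (l 18108416) (l 18541168)) (a (l 17311864) (l 17623768))) (b (l 4) (a (l 17887648) (l 4))))) (l 4)), by decide +kernel⟩

theorem c_pm_033 : CertN 0 536870912 1610612736 536870912 33554432 16777216 3 false true false .pnn 0 3 3
    ndN0q0 ndN1q3 pcN3 Cut.none Ext.none :=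
  certNK2 (fam := false) (s1 := true) (s2 := false) (a := 0) (b := 3) (c := 3) (cn := .pnn) (n1 := ndN0q0) (n2 := ndN1q3) (pc := pcN3) (cut := Cut.none) (xt := Ext.none) (P1 := 0) (W1 := 536870912) (P2 := 1610612736) (W2 := 536870912) (P3 := 33554432) (W3 := 16777216) (N0 := 3)
    rfl rfl rfl (fun _ => rfl) k0_pm_033

noncomputable def f_pm_101 : ℕ → ℕ → ℕ → ℕ → Bool := onCell 536870912 536870912 536870912 536870912 33554432 16777216
    (rowNK 3 0 false true false .npn 1 0 1 (qsf 536870912 536870912 536870912 536870912 0) ndN0q1 ndN1q1 pcN0 Cut.none Ext.none)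

def k0_pm_101 : ∃ t, chk3 f_pm_101 t 1 1 1 = true :=
  ⟨(a (l 4) (b (a (l 4) (l 1)) (a (b (a (l 4) (b (l 4) (l 18927248))) (a (b (l 4) (l 18959008)) (b (l 18984128) (l 19179400)))) (b (a (b (l 1) (a (l 18959280) (l 1))) (l 1)) (a (b (l 19143648) (l 19308000)) (b (l 19637544) (l 19784304))))))), by decide +kernel⟩

theorem c_pm_101 : CertN 536870912 536870912 536870912 536870912 33554432 16777216 3 false true false .npn 1 0 1
    ndN0q1 ndN1q1 pcN0 Cut.none Ext.none :=
  certNK0 (fam := false) (s1 := true) (s2 := false) (a := 1) (b := 0) (c := 1) (cn := .npn) (n1 := ndN0q1) (n2 := ndN1q1) (pc := pcN0) (cut := Cut.none) (xt := Ext.none) (P1 := 536870912) (W1 := 536870912) (P2 := 536870912) (W2 := 536870912) (P3 := 33554432) (W3 := 16777216) (N0 := 3)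
    rfl rfl rfl k0_pm_101

noncomputable def cut_pm_102_a : Cut := Cut.of [[⟨0, 1, 0, 33554432⟩, ⟨1, 0, 0, 33554432⟩, ⟨2, 1, 0, 33554432⟩]]

noncomputable def f_pm_102_a : ℕ → ℕ → ℕ → ℕ → Bool := onCell 536870912 536870912 0 536870912 33554432 16777216
    (rowNK 3 0 false true false .npp 1 0 2 (qsf 536870912 536870912 0 536870912 0) ndN0q1 ndN1q2a pcN0 cut_pm_102_a Ext.none)

def k0_pm_102_a : ∃ t, chk3 f_pm_102_a t 2 1 1 = true :=
  ⟨(a (b (a (l 2) (b (l 2) (l 17760968))) (b (l 17983992) (b (l 18097432) (a (l 18244064) (l 18054568))))) (b (a (b (l 17407776) (l 17584824)) (b (a (l 17269200) (l 17176976)) (l 17559096))) (b (a (l 17717248) (l 17635704)) (b (l 17804680) (a (l 17875416) (l 17795168)))))), by decide +kernel⟩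

def k1_pm_102_a : ∃ t, chk3 f_pm_102_a t 6 1 1 = true :=
  ⟨(b (a (b (a (l 17041360) (l 17042624)) (a (l 17325304) (l 17179008))) (b (a (b (a (l 115058494263) (l 119890406199)) (l 17019328)) (b (l 3) (l 125796072231))) (a (l 17051824) (b (l 17086512) (l 16933552))))) (b (a (a (l 17581488) (l 17623216)) (a (b (l 17222304) (l 17394520)) (b (l 16998784) (l 17276712)))) (a (b (l 17660608) (l 17850144)) (b (a (l 17482120) (l 17306504)) (a (l 17528552) (l 17487232)))))), by decide +kernel⟩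

def k2_pm_102_a : ∃ t, chk3 f_pm_102_a t 7 2 1 = true :=
  ⟨(a (b (l 3) (a (b (l 126869942583) (l 89826149031)) (b (l 3) (a (l 118817042711) (l 3))))) (l 3)), by decide +kernel⟩

def k3_pm_102_a : ∃ t, chk3 f_pm_102_a t 7 6 1 = true :=
  ⟨(a (a (b (l 17011848) (l 17078920)) (b (a (b (l 17084280) (l 17001640)) (b (l 121501480647) (l 117743231911))) (a (l 16850224) (b (l 17045176) (l 16923456))))) (a (b (l 3) (a (b (l 122038316631) (a (l 17041120) (l 73720170583))) (b (l 3) (a (l 128480791447) (l 3))))) (l 3))), by decide +kernel⟩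

def k4_pm_102_a : ∃ t, chk3 f_pm_102_a t 14 7 1 = true :=
  ⟨(b (a (b (l 17102304) (l 17151952)) (b (l 16933336) (l 16994400))) (a (b (l 17186448) (l 17250832)) (b (l 17047448) (l 17157384)))), by decide +kernel⟩

def k5_pm_102_a : ∃ t, chk3 f_pm_102_a t 15 7 1 = true :=
  ⟨(b (a (a (b (l 16930856) (l 16845200)) (b (a (l 67277709783) (b (l 131165115639) (l 130091202103))) (a (l 16872104) (b (l 97341889063) (l 16905392))))) (a (b (l 3) (a (b (a (l 107005695687) (l 137070557255)) (a (l 16970768) (b (l 134922902343) (l 16981872)))) (b (l 3) (a (b (l 3) (a (l 110763644055) (l 140291555127))) (l 3))))) (l 3))) (a (b (b (l 17029088) (l 17046024)) (a (l 17020232) (l 17073872))) (b (a (a (b (l 16871728) (l 16820744)) (b (a (b (a (l 16943800) (b (l 138143969927) (l 16919112))) (l 16884880)) (b (a (b (l 3) (a (l 119890263031) (l 140828235655))) (l 3)) (a (b (b (l 138680652647) (l 130090608775)) (l 16877896)) (b (a (b (l 3) (l 140291253719)) (l 3)) (a (b (l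 124185067863) (l 16868672)) (b (l 140828062487) (l 139217390167))))))) (a (l 16782736) (b (a (l 16829112) (b (a (l 16841936) (l 133848616023)) (l 16806560))) (l 16785904))))) (a (b (l 3) (a (b (a (b (a (b (l 139217361367) (l 130627408807)) (b (l 3) (l 139754215287))) (a (l 16793960) (b (l 137606722919) (l 134922364631)))) (b (l 3) (a (b (l 3) (l 137606718551)) (l 3)))) (a (l 16793296) (b (a (b (a (l 16769680) (l 137069841847)) (l 16789864)) (b (l 138143585287) (a (l 137069852135) (l 137606714199)))) (a (l 16769544) (b (l 134385489559) (l 16768616)))))) (b (l 3) (a (b (l 3) (a (b (a (l 136532982871) (l 138143586199)) (a (l 16770408) (l 136532977591))) (b (l 3) (a (l 137606715495) (l 3))))) (l 3))))) (l 3))) (a (b (a (l 16848656) (l 16879312)) (a (l 16885640) (l 16914096))) (b (b (a (a (l 16804384) (a (b (a (l 16790032) (l 6)) (l 6)) (l 6))) (l 6)) (l 6)) (l 6)))))), by decide +kernel⟩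

theorem s6_pm_102_a : ∃ t, chk3 f_pm_102_a t 7 7 1 = true := ex3_a k4_pm_102_a k5_pm_102_a

theorem s7_pm_102_a : ∃ t, chk3 f_pm_102_a t 7 3 1 = true := ex3_b k3_pm_102_a s6_pm_102_a

theorem s8_pm_102_a : ∃ t, chk3 f_pm_102_a t 7 1 1 = true := ex3_b k2_pm_102_a s7_pm_102_a

theorem s9_pm_102_a : ∃ t, chk3 f_pm_102_a t 3 1 1 = true := ex3_a k1_pm_102_a s8_pm_102_a

theorem s10_pm_102_a : ∃ t, chk3 f_pm_102_a t 1 1 1 = true := ex3_a k0_pm_102_a s9_pm_102_a

theorem c_pm_102_a : CertN 536870912 536870912 0 536870912 33554432 16777216 3 false true false .npp 1 0 2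
    ndN0q1 ndN1q2a pcN0 cut_pm_102_a Ext.none :=
  certNK0 (fam := false) (s1 := true) (s2 := false) (a := 1) (b := 0) (c := 2) (cn := .npp) (n1 := ndN0q1) (n2 := ndN1q2a) (pc := pcN0) (cut := cut_pm_102_a) (xt := Ext.none) (P1 := 536870912) (W1 := 536870912) (P2 := 0) (W2 := 536870912) (P3 := 33554432) (W3 := 16777216) (N0 := 3)
    rfl rfl rfl s10_pm_102_a

noncomputable def cut_pm_102_b : Cut := Cut.of [[⟨0, 1, 0, 33554432⟩, ⟨1, 0, 0, 33554432⟩, ⟨2, 1, 0, 33554432⟩]]

noncomputable def f_pm_102_b : ℕ → ℕ → ℕ → ℕ → Bool := onCell 536870912 536870912 0 536870912 33554432 16777216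
    (rowNK 3 1 false true false .npp 1 0 2 (qsf 536870912 536870912 1239849684 370763052 0) ndN0q1 ndN1q2b pcN0 cut_pm_102_b Ext.none)

def k0_pm_102_b : ∃ t, chk3 f_pm_102_b t 1 1 1 = true :=
  ⟨(b (a (l 1) (a (l 1) (l 3))) (a (b (l 1) (a (l 1) (a (b (l 1) (l 17410296)) (l 202972010839)))) (a (b (a (b (l 1) (b (a (l 1) (l 192233831735)) (l 75732954935))) (b (l 3) (a (b (l 423222474359) (l 17031912)) (l 3)))) (a (b (l 56942455175) (l 16907856)) (b (l 62445932375) (l 17277592)))) (l 3)))), by decide +kernel⟩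

theorem c_pm_102_b : CertN 536870912 536870912 1239849684 370763052 33554432 16777216 3 false true false .npp 1 0 2
    ndN0q1 ndN1q2b pcN0 cut_pm_102_b Ext.none :=
  certNK1 (fam := false) (s1 := true) (s2 := false) (a := 1) (b := 0) (c := 2) (cn := .npp) (n1 := ndN0q1) (n2 := ndN1q2b) (pc := pcN0) (cut := cut_pm_102_b) (xt := Ext.none) (P1 := 536870912) (W1 := 536870912) (P2 := 1239849684) (W2 := 370763052) (P3 := 33554432) (W3 := 16777216) (N0 := 3)
    rfl rfl rfl (fun _ => rfl) k0_pm_102_b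

noncomputable def f_pm_112_a : ℕ → ℕ → ℕ → ℕ → Bool := onCell 536870912 536870912 0 536870912 33554432 16777216
    (rowNK 3 0 false true false .dn 1 1 2 (qsf 536870912 536870912 0 536870912 1) ndN0q1 ndN1q2a pcN1 Cut.none Ext.none)

def k0_pm_112_a : ∃ t, chk3 f_pm_112_a t 1 1 1 = true :=
  ⟨(a (a (b (a (l 18499984) (b (l 18136240) (l 18362936))) (l 33860760407)) (b (a (b (l 17968008) (l 18282896)) (l 1)) (b (l 1) (l 1)))) (l 1)), by decide +kernel⟩

theorem c_pm_112_a : CertN 536870912 536870912 0 536870912 33554432 16777216 3 false true false .dn 1 1 2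
    ndN0q1 ndN1q2a pcN1 Cut.none Ext.none :=
  certNK0 (fam := false) (s1 := true) (s2 := false) (a := 1) (b := 1) (c := 2) (cn := .dn) (n1 := ndN0q1) (n2 := ndN1q2a) (pc := pcN1) (cut := Cut.none) (xt := Ext.none) (P1 := 536870912) (W1 := 536870912) (P2 := 0) (W2 := 536870912) (P3 := 33554432) (W3 := 16777216) (N0 := 3)
    rfl rfl rfl k0_pm_112_a

noncomputable def f_pm_112_b : ℕ → ℕ → ℕ → ℕ → Bool := onCell 536870912 536870912 536870912 536870912 33554432 16777216
    (rowNK 3 1 false true false .dn 1 1 2 (qsf 536870912 536870912 1239849684 370763052 1) ndN0q1 ndN1q2b pcN1 Cut.none Ext.none)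

def k0_pm_112_b : ∃ t, chk3 f_pm_112_b t 1 1 1 = true :=
  ⟨(a (a (b (b (a (l 220689945735) (l 18040768)) (a (l 18238328) (l 18148056))) (b (l 18508440) (b (l 18509456) (b (l 18575416) (b (l 18614472) (b (l 18635136) (l 18648376))))))) (b (b (a (l 17922888) (l 17832312)) (b (l 17877520) (l 17915192))) (b (l 18115536) (b (l 18076048) (l 2))))) (a (b (b (b (a (l 17328104) (l 17269856)) (l 17571240)) (b (l 17544352) (l 17432720))) (b (a (l 17673072) (l 2)) (l 2))) (b (a (b (l 293301219559) (b (l 17349800) (l 2))) (l 3)) (l 2)))), by decide +kernel⟩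

theorem c_pm_112_b : CertN 536870912 536870912 1239849684 370763052 33554432 16777216 3 false true false .dn 1 1 2
    ndN0q1 ndN1q2b pcN1 Cut.none Ext.none :=
  certNK1 (fam := false) (s1 := true) (s2 := false) (a := 1) (b := 1) (c := 2) (cn := .dn) (n1 := ndN0q1) (n2 := ndN1q2b) (pc := pcN1) (cut := Cut.none) (xt := Ext.none) (P1 := 536870912) (W1 := 536870912) (P2 := 1239849684) (W2 := 370763052) (P3 := 33554432) (W3 := 16777216) (N0 := 3)
    rfl rfl rfl (fun _ => rfl) k0_pm_112_b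

noncomputable def cut_pm_113 : Cut := Cut.of [[⟨0, 1, 0, 7061502⟩, ⟨1, 1, 0, 7061502⟩, ⟨2, 2, 0, 184626⟩]]

noncomputable def f_pm_113 : ℕ → ℕ → ℕ → ℕ → Bool := onCell 536870912 536870912 536870912 536870912 33554432 16777216
    (rowNK 3 1 false true false .nn 1 1 3 (qsf 536870912 536870912 1610612736 536870912 1) ndN0q1 ndN1q3 pcN1 cut_pm_113 Ext.none)

def k0_pm_113 : ∃ t, chk3 f_pm_113 t 1 1 1 = true :=
  ⟨(a (b (b (l 1) (a (l 1) (l 196530775751))) (b (a (l 230353466023) (a (l 17795224) (l 17763968))) (b (a (l 17658464) (l 17667184)) (b (a (l 17633320) (l 17602776)) (b (a (l 17614936) (l 17563616)) (b (a (l 17604088) (l 17543128)) (a (l 17595992) (l 17529248)))))))) (a (b (b (a (l 1) (b (l 1) (l 18147200))) (a (l 17925256) (b (l 18102248) (l 18066744)))) (b (a (l 17742440) (b (l 17995464) (l 17820936))) (b (l 17834080) (l 17612848)))) (a (b (b (b (l 3) (l 220825202423)) (b (l 18682008) (l 18370256))) (b (b (l 18263312) (l 18081160)) (b (l 17768720)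 (l 17482864)))) (b (l 3) (b (b (l 242836690903) (a (l 18218192) (l 3))) (b (a (l 17793384) (b (l 301354220791) (l 313164893543))) (a (b (l 17339256) (l 17135040)) (b (a (l 17262280) (a (l 17302528) (l 3))) (a (b (l 17093088) (l 16955536)) (a (l 17120840) (b (l 358261197703) (a (l 16963224) (b (l 367924614503) (a (l 16871184) (b (l 372219448855) (b (l 371145677399) (a (l 16816256) (b (l 372756237719) (a (l 16807264) (b (l 373829963735) (a (l 16802736) (a (l 16791008) (b (l 396378517287) (b (l 396378512471) (b (l 396378509911) (a (l 16783336) (l 6))))))))))))))))))))))))))), by decide +kernel⟩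

theorem c_pm_113 : CertN 536870912 536870912 1610612736 536870912 33554432 16777216 3 false true false .nn 1 1 3
    ndN0q1 ndN1q3 pcN1 cut_pm_113 Ext.none :=
  certNK1 (fam := false) (s1 := true) (s2 := false) (a := 1) (b := 1) (c := 3) (cn := .nn) (n1 := ndN0q1) (n2 := ndN1q3) (pc := pcN1) (cut := cut_pm_113) (xt := Ext.none) (P1 := 536870912) (W1 := 536870912) (P2 := 1610612736) (W2 := 536870912) (P3 := 33554432) (W3 := 16777216) (N0 := 3)
    rfl rfl rfl (fun _ => rfl) k0_pm_113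

noncomputable def cut_pm_123 : Cut := Cut.of [[⟨0, 1, 0, 7061502⟩, ⟨1, 1, 0, 7061502⟩, ⟨2, 2, 0, 184626⟩]]

noncomputable def f_pm_123 : ℕ → ℕ → ℕ → ℕ → Bool := onCell 1073741824 536870912 1610612736 536870912 33554432 16777216
    (rowNK 3 2 false true false .npn 1 2 3 (qsf 536870912 536870912 1610612736 536870912 2) ndN0q1 ndN1q3 pcN2 cut_pm_123 Ext.none)

def k0_pm_123 : ∃ t, chk3 f_pm_123 t 1 1 1 = true :=
  ⟨(a (b (a (b (a (l 17951968) (l 18190464)) (a (a (a (a (l 17442544) (l 17436688)) (l 17418320)) (l 17474480)) (b (l 17819000) (l 17496712)))) (b (b (l 1) (l 18440936)) (a (l 17984896) (l 18145896)))) (a (b (a (a (a (a (l 17250816) (l 17141200)) (b (l 17212120) (l 17072160))) (b (l 17211976) (l 17117336))) (b (l 17358008) (l 17253336))) (a (a (a (a (b (l 17098744) (b (l 16982568) (b (l 16888432) (b (l 16833064) (b (l 16803256) (a (b (l 16790576) (b (l 16782536) (b (l 16799432) (b (l 16799776) (b (l 16779440) (l 6)))))) (l 16779456))))))) (b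 (l 17074136) (b (l 16966856) (l 16879248)))) (b (l 17033536) (l 17108264))) (b (l 16948496) (b (l 16866232) (l 16840576)))) (b (l 17142920) (b (l 17052696) (l 17002296))))) (b (b (l 17849232) (a (l 17418088) (l 17556400))) (b (a (l 17342704) (l 17464984)) (a (l 17273992) (l 17426376)))))) (b (a (b (l 1) (a (l 18313840) (l 1))) (l 1)) (a (b (a (l 17922152) (l 17955912)) (a (l 17813648) (l 17636080))) (b (a (l 18009504) (l 1)) (a (l 17744936) (l 17677816)))))), by decide +kernel⟩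

theorem c_pm_123 : CertN 536870912 536870912 1610612736 536870912 33554432 16777216 3 false true false .npn 1 2 3
    ndN0q1 ndN1q3 pcN2 cut_pm_123 Ext.none :=
  certNK2 (fam := false) (s1 := true) (s2 := false) (a := 1) (b := 2) (c := 3) (cn := .npn) (n1 := ndN0q1) (n2 := ndN1q3) (pc := pcN2) (cut := cut_pm_123) (xt := Ext.none) (P1 := 536870912) (W1 := 536870912) (P2 := 1610612736) (W2 := 536870912) (P3 := 33554432) (W3 := 16777216) (N0 := 3)
    rfl rfl rfl (fun _ => rfl) k0_pm_123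

noncomputable def f_pm_133 : ℕ → ℕ → ℕ → ℕ → Bool := onCell 536870912 536870912 1610612736 536870912 33554432 16777216
    (rowNK 3 0 false true false .dn 1 3 3 (qsf 536870912 536870912 1610612736 536870912 3) ndN0q1 ndN1q3 pcN3 Cut.none Ext.none)

def k0_pm_133 : ∃ t, chk3 f_pm_133 t 1 1 1 = true :=
  ⟨(a (b (l 1) (a (b (l 1) (a (l 17060256) (l 1))) (l 1))) (l 1)), by decide +kernel⟩

theorem c_pm_133 : CertN 536870912 536870912 1610612736 536870912 33554432 16777216 3 false true false .dn 1 3 3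
    ndN0q1 ndN1q3 pcN3 Cut.none Ext.none :=
  certNK0 (fam := false) (s1 := true) (s2 := false) (a := 1) (b := 3) (c := 3) (cn := .dn) (n1 := ndN0q1) (n2 := ndN1q3) (pc := pcN3) (cut := Cut.none) (xt := Ext.none) (P1 := 536870912) (W1 := 536870912) (P2 := 1610612736) (W2 := 536870912) (P3 := 33554432) (W3 := 16777216) (N0 := 3)
    rfl rfl rfl k0_pm_133

noncomputable def cut_pm_202_a : Cut := Cut.of [[⟨0, 1, 0, 33554432⟩, ⟨1, 0, 0, 33554432⟩, ⟨2, 1, 0, 33554432⟩]]

noncomputable def f_pm_202_a : ℕ → ℕ → ℕ → ℕ → Bool := onCell 0 536870912 0 536870912 33554432 16777216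
    (rowNK 3 0 false true false .pp 2 0 2 (qsf 0 536870912 0 536870912 0) ndN0q2 ndN1q2a pcN0 cut_pm_202_a Ext.none)

def k0_pm_202_a : ∃ t, chk3 f_pm_202_a t 1 1 1 = true :=
  ⟨(a (l 3) (a (l 3) (b (l 3) (b (l 3) (a (l 3) (b (l 3) (a (l 3) (b (l 3) (l 6))))))))), by decide +kernel⟩

theorem c_pm_202_a : CertN 0 536870912 0 536870912 33554432 16777216 3 false true false .pp 2 0 2
    ndN0q2 ndN1q2a pcN0 cut_pm_202_a Ext.none :=
  certNK0 (fam := false) (s1 := true) (s2 := false) (a := 2) (b := 0) (c := 2) (cn := .pp) (n1 := ndN0q2) (n2 := ndN1q2a) (pc := pcN0) (cut := cut_pm_202_a) (xt := Ext.none) (P1 := 0) (W1 := 536870912) (P2 := 0) (W2 := 536870912) (P3 := 33554432) (W3 := 16777216) (N0 := 3)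
    rfl rfl rfl k0_pm_202_a

noncomputable def cut_pm_202_b : Cut := Cut.of [[⟨0, 1, 0, 33554432⟩, ⟨1, 0, 0, 33554432⟩, ⟨2, 1, 0, 33554432⟩]]

noncomputable def f_pm_202_b : ℕ → ℕ → ℕ → ℕ → Bool := onCell 0 536870912 1239849684 370763052 33554432 16777216
    (rowNK 3 0 false true false .pp 2 0 2 (qsf 0 536870912 1239849684 370763052 0) ndN0q2 ndN1q2b pcN0 cut_pm_202_b Ext.none)

def k0_pm_202_b : ∃ t, chk3 f_pm_202_b t 1 1 1 = true :=
  ⟨(l 3), by decide +kernel⟩

theorem c_pm_202_b : CertN 0 536870912 1239849684 370763052 33554432 16777216 3 false true false .pp 2 0 2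
    ndN0q2 ndN1q2b pcN0 cut_pm_202_b Ext.none :=
  certNK0 (fam := false) (s1 := true) (s2 := false) (a := 2) (b := 0) (c := 2) (cn := .pp) (n1 := ndN0q2) (n2 := ndN1q2b) (pc := pcN0) (cut := cut_pm_202_b) (xt := Ext.none) (P1 := 0) (W1 := 536870912) (P2 := 1239849684) (W2 := 370763052) (P3 := 33554432) (W3 := 16777216) (N0 := 3)
    rfl rfl rfl k0_pm_202_b

noncomputable def f_pm_203 : ℕ → ℕ → ℕ → ℕ → Bool := onCell 0 536870912 0 536870912 33554432 16777216
    (rowNK 3 1 false true false .up 2 0 3 (qsf 0 536870912 1610612736 536870912 0) ndN0q2 ndN1q3 pcN0 Cut.none Ext.none)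

def k0_pm_203 : ∃ t, chk3 f_pm_203 t 1 1 1 = true :=
  ⟨(l 3), by decide +kernel⟩

theorem c_pm_203 : CertN 0 536870912 1610612736 536870912 33554432 16777216 3 false true false .up 2 0 3
    ndN0q2 ndN1q3 pcN0 Cut.none Ext.none :=
  certNK1 (fam := false) (s1 := true) (s2 := false) (a := 2) (b := 0) (c := 3) (cn := .up) (n1 := ndN0q2) (n2 := ndN1q3) (pc := pcN0) (cut := Cut.none) (xt := Ext.none) (P1 := 0) (W1 := 536870912) (P2 := 1610612736) (W2 := 536870912) (P3 := 33554432) (W3 := 16777216) (N0 := 3)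
    rfl rfl rfl (fun _ => rfl) k0_pm_203

noncomputable def cut_pm_213 : Cut := Cut.of [[⟨0, 1, 0, 7061502⟩, ⟨1, 1, 0, 7061502⟩, ⟨2, 2, 0, 184626⟩]]

noncomputable def f_pm_213 : ℕ → ℕ → ℕ → ℕ → Bool := onCell 0 536870912 1610612736 536870912 33554432 16777216
    (rowNK 3 0 false true false .pnn 2 1 3 (qsf 0 536870912 1610612736 536870912 1) ndN0q2 ndN1q3 pcN1 cut_pm_213 Ext.none)

def k0_pm_213 : ∃ t, chk3 f_pm_213 t 1 1 1 = true :=
  ⟨(b (l 3) (a (l 3) (b (l 3) (a (l 3) (b (l 3) (a (l 3) (a (l 3) (b (l 3) (a (l 3) (b (l 3) (a (l 3) (b (l 3) (a (l 3) (b (l 3) (a (l 3) (b (l 3) (b (l 3) (b (l 3) (b (l 3) (b (l 3) (l 6))))))))))))))))))))), by decide +kernel⟩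

theorem c_pm_213 : CertN 0 536870912 1610612736 536870912 33554432 16777216 3 false true false .pnn 2 1 3
    ndN0q2 ndN1q3 pcN1 cut_pm_213 Ext.none :=
  certNK0 (fam := false) (s1 := true) (s2 := false) (a := 2) (b := 1) (c := 3) (cn := .pnn) (n1 := ndN0q2) (n2 := ndN1q3) (pc := pcN1) (cut := cut_pm_213) (xt := Ext.none) (P1 := 0) (W1 := 536870912) (P2 := 1610612736) (W2 := 536870912) (P3 := 33554432) (W3 := 16777216) (N0 := 3)
    rfl rfl rfl k0_pm_213

noncomputable def f_mm_001 : ℕ → ℕ → ℕ → ℕ → Bool := onCell 0 536870912 536870912 536870912 33554432 16777216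
    (rowNK 3 0 false false false .up 0 0 1 (qsf 0 536870912 536870912 536870912 0) ndN0q0 ndN1q1 pcN0 Cut.none Ext.none)

def k0_mm_001 : ∃ t, chk3 f_mm_001 t 1 1 1 = true :=
  ⟨(l 3), by decide +kernel⟩

theorem c_mm_001 : CertN 0 536870912 536870912 536870912 33554432 16777216 3 false false false .up 0 0 1
    ndN0q0 ndN1q1 pcN0 Cut.none Ext.none :=
  certNK0 (fam := false) (s1 := false) (s2 := false) (a := 0) (b := 0) (c := 1) (cn := .up) (n1 := ndN0q0) (n2 := ndN1q1) (pc := pcN0) (cut := Cut.none) (xt := Ext.none) (P1 := 0) (W1 := 536870912) (P2 := 536870912) (W2 := 536870912) (P3 := 33554432) (W3 := 16777216) (N0 := 3)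
    rfl rfl rfl k0_mm_001

noncomputable def f_mm_011 : ℕ → ℕ → ℕ → ℕ → Bool := onCell 0 536870912 536870912 536870912 33554432 16777216
    (rowNK 3 0 false false false .pnn 0 1 1 (qsf 0 536870912 536870912 536870912 1) ndN0q0 ndN1q1 pcN1 Cut.none Ext.none)

def k0_mm_011 : ∃ t, chk3 f_mm_011 t 1 1 1 = true :=
  ⟨(l 3), by decide +kernel⟩

theorem c_mm_011 : CertN 0 536870912 536870912 536870912 33554432 16777216 3 false false false .pnn 0 1 1
    ndN0q0 ndN1q1 pcN1 Cut.none Ext.none :=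
  certNK0 (fam := false) (s1 := false) (s2 := false) (a := 0) (b := 1) (c := 1) (cn := .pnn) (n1 := ndN0q0) (n2 := ndN1q1) (pc := pcN1) (cut := Cut.none) (xt := Ext.none) (P1 := 0) (W1 := 536870912) (P2 := 536870912) (W2 := 536870912) (P3 := 33554432) (W3 := 16777216) (N0 := 3)
    rfl rfl rfl k0_mm_011

noncomputable def f_mm_012_a : ℕ → ℕ → ℕ → ℕ → Bool := onCell 0 536870912 0 536870912 33554432 16777216
    (rowNK 3 0 false false false .pnp 0 1 2 (qsf 0 536870912 0 536870912 1) ndN0q0 ndN1q2a pcN1 Cut.none Ext.none)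

def k0_mm_012_a : ∃ t, chk3 f_mm_012_a t 1 1 1 = true :=
  ⟨(l 5), by decide +kernel⟩

theorem c_mm_012_a : CertN 0 536870912 0 536870912 33554432 16777216 3 false false false .pnp 0 1 2
    ndN0q0 ndN1q2a pcN1 Cut.none Ext.none :=
  certNK0 (fam := false) (s1 := false) (s2 := false) (a := 0) (b := 1) (c := 2) (cn := .pnp) (n1 := ndN0q0) (n2 := ndN1q2a) (pc := pcN1) (cut := Cut.none) (xt := Ext.none) (P1 := 0) (W1 := 536870912) (P2 := 0) (W2 := 536870912) (P3 := 33554432) (W3 := 16777216) (N0 := 3)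
    rfl rfl rfl k0_mm_012_a

noncomputable def f_mm_012_b : ℕ → ℕ → ℕ → ℕ → Bool := onCell 0 536870912 1239849684 370763052 33554432 16777216
    (rowNK 3 0 false false false .pnp 0 1 2 (qsf 0 536870912 1239849684 370763052 1) ndN0q0 ndN1q2b pcN1 Cut.none Ext.none)

def k0_mm_012_b : ∃ t, chk3 f_mm_012_b t 1 1 1 = true :=
  ⟨(l 5), by decide +kernel⟩

theorem c_mm_012_b : CertN 0 536870912 1239849684 370763052 33554432 16777216 3 false false false .pnp 0 1 2
    ndN0q0 ndN1q2b pcN1 Cut.none Ext.none :=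
  certNK0 (fam := false) (s1 := false) (s2 := false) (a := 0) (b := 1) (c := 2) (cn := .pnp) (n1 := ndN0q0) (n2 := ndN1q2b) (pc := pcN1) (cut := Cut.none) (xt := Ext.none) (P1 := 0) (W1 := 536870912) (P2 := 1239849684) (W2 := 370763052) (P3 := 33554432) (W3 := 16777216) (N0 := 3)
    rfl rfl rfl k0_mm_012_b

noncomputable def f_mm_022_a : ℕ → ℕ → ℕ → ℕ → Bool := onCell 0 536870912 0 536870912 33554432 16777216
    (rowNK 3 0 false false false .pp 0 2 2 (qsf 0 536870912 0 536870912 2) ndN0q0 ndN1q2a pcN2 Cut.none Ext.none)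

def k0_mm_022_a : ∃ t, chk3 f_mm_022_a t 1 1 1 = true :=
  ⟨(l 5), by decide +kernel⟩

theorem c_mm_022_a : CertN 0 536870912 0 536870912 33554432 16777216 3 false false false .pp 0 2 2
    ndN0q0 ndN1q2a pcN2 Cut.none Ext.none :=
  certNK0 (fam := false) (s1 := false) (s2 := false) (a := 0) (b := 2) (c := 2) (cn := .pp) (n1 := ndN0q0) (n2 := ndN1q2a) (pc := pcN2) (cut := Cut.none) (xt := Ext.none) (P1 := 0) (W1 := 536870912) (P2 := 0) (W2 := 536870912) (P3 := 33554432) (W3 := 16777216) (N0 := 3)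
    rfl rfl rfl k0_mm_022_a

noncomputable def f_mm_022_b : ℕ → ℕ → ℕ → ℕ → Bool := onCell 0 536870912 1239849684 370763052 33554432 16777216
    (rowNK 3 0 false false false .pp 0 2 2 (qsf 0 536870912 1239849684 370763052 2) ndN0q0 ndN1q2b pcN2 Cut.none Ext.none)

def k0_mm_022_b : ∃ t, chk3 f_mm_022_b t 1 1 1 = true :=
  ⟨(l 5), by decide +kernel⟩

theorem c_mm_022_b : CertN 0 536870912 1239849684 370763052 33554432 16777216 3 false false false .pp 0 2 2
    ndN0q0 ndN1q2b pcN2 Cut.none Ext.none :=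
  certNK0 (fam := false) (s1 := false) (s2 := false) (a := 0) (b := 2) (c := 2) (cn := .pp) (n1 := ndN0q0) (n2 := ndN1q2b) (pc := pcN2) (cut := Cut.none) (xt := Ext.none) (P1 := 0) (W1 := 536870912) (P2 := 1239849684) (W2 := 370763052) (P3 := 33554432) (W3 := 16777216) (N0 := 3)
    rfl rfl rfl k0_mm_022_b

noncomputable def f_mm_023 : ℕ → ℕ → ℕ → ℕ → Bool := onCell 0 536870912 1610612736 536870912 33554432 16777216
    (rowNK 3 0 false false false .up 0 2 3 (qsf 0 536870912 1610612736 536870912 2) ndN0q0 ndN1q3 pcN2 Cut.none Ext.none)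

def k0_mm_023 : ∃ t, chk3 f_mm_023 t 1 1 1 = true :=
  ⟨(l 5), by decide +kernel⟩

theorem c_mm_023 : CertN 0 536870912 1610612736 536870912 33554432 16777216 3 false false false .up 0 2 3
    ndN0q0 ndN1q3 pcN2 Cut.none Ext.none :=
  certNK0 (fam := false) (s1 := false) (s2 := false) (a := 0) (b := 2) (c := 3) (cn := .up) (n1 := ndN0q0) (n2 := ndN1q3) (pc := pcN2) (cut := Cut.none) (xt := Ext.none) (P1 := 0) (W1 := 536870912) (P2 := 1610612736) (W2 := 536870912) (P3 := 33554432) (W3 := 16777216) (N0 := 3)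
    rfl rfl rfl k0_mm_023

noncomputable def f_mm_033 : ℕ → ℕ → ℕ → ℕ → Bool := onCell 0 536870912 1610612736 536870912 33554432 16777216
    (rowNK 3 0 false false false .pnn 0 3 3 (qsf 0 536870912 1610612736 536870912 3) ndN0q0 ndN1q3 pcN3 Cut.none Ext.none)

def k0_mm_033 : ∃ t, chk3 f_mm_033 t 1 1 1 = true :=
  ⟨(l 5), by decide +kernel⟩

theorem c_mm_033 : CertN 0 536870912 1610612736 536870912 33554432 16777216 3 false false false .pnn 0 3 3
    ndN0q0 ndN1q3 pcN3 Cut.none Ext.none :=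
  certNK0 (fam := false) (s1 := false) (s2 := false) (a := 0) (b := 3) (c := 3) (cn := .pnn) (n1 := ndN0q0) (n2 := ndN1q3) (pc := pcN3) (cut := Cut.none) (xt := Ext.none) (P1 := 0) (W1 := 536870912) (P2 := 1610612736) (W2 := 536870912) (P3 := 33554432) (W3 := 16777216) (N0 := 3)
    rfl rfl rfl k0_mm_033

noncomputable def f_mm_101 : ℕ → ℕ → ℕ → ℕ → Bool := onCell 536870912 536870912 536870912 536870912 33554432 16777216
    (rowNK 3 0 false false false .npn 1 0 1 (qsf 536870912 536870912 536870912 536870912 0) ndN0q1 ndN1q1 pcN0 Cut.none Ext.none)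

def k0_mm_101 : ∃ t, chk3 f_mm_101 t 1 1 1 = true :=
  ⟨(l 3), by decide +kernel⟩

theorem c_mm_101 : CertN 536870912 536870912 536870912 536870912 33554432 16777216 3 false false false .npn 1 0 1
    ndN0q1 ndN1q1 pcN0 Cut.none Ext.none :=
  certNK0 (fam := false) (s1 := false) (s2 := false) (a := 1) (b := 0) (c := 1) (cn := .npn) (n1 := ndN0q1) (n2 := ndN1q1) (pc := pcN0) (cut := Cut.none) (xt := Ext.none) (P1 := 536870912) (W1 := 536870912) (P2 := 536870912) (W2 := 536870912) (P3 := 33554432) (W3 := 16777216) (N0 := 3)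
    rfl rfl rfl k0_mm_101

noncomputable def f_mm_102_a : ℕ → ℕ → ℕ → ℕ → Bool := onCell 536870912 536870912 0 536870912 33554432 16777216
    (rowNK 3 0 false false false .npp 1 0 2 (qsf 536870912 536870912 0 536870912 0) ndN0q1 ndN1q2a pcN0 Cut.none Ext.none)

def k0_mm_102_a : ∃ t, chk3 f_mm_102_a t 1 1 1 = true :=
  ⟨(l 3), by decide +kernel⟩

theorem c_mm_102_a : CertN 536870912 536870912 0 536870912 33554432 16777216 3 false false false .npp 1 0 2
    ndN0q1 ndN1q2a pcN0 Cut.none Ext.none :=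
  certNK0 (fam := false) (s1 := false) (s2 := false) (a := 1) (b := 0) (c := 2) (cn := .npp) (n1 := ndN0q1) (n2 := ndN1q2a) (pc := pcN0) (cut := Cut.none) (xt := Ext.none) (P1 := 536870912) (W1 := 536870912) (P2 := 0) (W2 := 536870912) (P3 := 33554432) (W3 := 16777216) (N0 := 3)
    rfl rfl rfl k0_mm_102_a

noncomputable def f_mm_102_b : ℕ → ℕ → ℕ → ℕ → Bool := onCell 536870912 536870912 1239849684 370763052 33554432 16777216
    (rowNK 3 0 false false false .npp 1 0 2 (qsf 536870912 536870912 1239849684 370763052 0) ndN0q1 ndN1q2b pcN0 Cut.none Ext.none)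

def k0_mm_102_b : ∃ t, chk3 f_mm_102_b t 1 1 1 = true :=
  ⟨(l 5), by decide +kernel⟩

theorem c_mm_102_b : CertN 536870912 536870912 1239849684 370763052 33554432 16777216 3 false false false .npp 1 0 2
    ndN0q1 ndN1q2b pcN0 Cut.none Ext.none :=
  certNK0 (fam := false) (s1 := false) (s2 := false) (a := 1) (b := 0) (c := 2) (cn := .npp) (n1 := ndN0q1) (n2 := ndN1q2b) (pc := pcN0) (cut := Cut.none) (xt := Ext.none) (P1 := 536870912) (W1 := 536870912) (P2 := 1239849684) (W2 := 370763052) (P3 := 33554432) (W3 := 16777216) (N0 := 3)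
    rfl rfl rfl k0_mm_102_b

noncomputable def f_mm_112_a : ℕ → ℕ → ℕ → ℕ → Bool := onCell 536870912 536870912 0 536870912 33554432 16777216
    (rowNK 3 0 false false false .dn 1 1 2 (qsf 536870912 536870912 0 536870912 1) ndN0q1 ndN1q2a pcN1 Cut.none Ext.none)

def k0_mm_112_a : ∃ t, chk3 f_mm_112_a t 1 1 1 = true :=
  ⟨(l 3), by decide +kernel⟩

theorem c_mm_112_a : CertN 536870912 536870912 0 536870912 33554432 16777216 3 false false false .dn 1 1 2
    ndN0q1 ndN1q2a pcN1 Cut.none Ext.none :=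
  certNK0 (fam := false) (s1 := false) (s2 := false) (a := 1) (b := 1) (c := 2) (cn := .dn) (n1 := ndN0q1) (n2 := ndN1q2a) (pc := pcN1) (cut := Cut.none) (xt := Ext.none) (P1 := 536870912) (W1 := 536870912) (P2 := 0) (W2 := 536870912) (P3 := 33554432) (W3 := 16777216) (N0 := 3)
    rfl rfl rfl k0_mm_112_a

noncomputable def f_mm_112_b : ℕ → ℕ → ℕ → ℕ → Bool := onCell 536870912 536870912 1239849684 370763052 33554432 16777216
    (rowNK 3 0 false false false .dn 1 1 2 (qsf 536870912 536870912 1239849684 370763052 1) ndN0q1 ndN1q2b pcN1 Cut.none Ext.none)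

def k0_mm_112_b : ∃ t, chk3 f_mm_112_b t 1 1 1 = true :=
  ⟨(l 5), by decide +kernel⟩

theorem c_mm_112_b : CertN 536870912 536870912 1239849684 370763052 33554432 16777216 3 false false false .dn 1 1 2
    ndN0q1 ndN1q2b pcN1 Cut.none Ext.none :=
  certNK0 (fam := false) (s1 := false) (s2 := false) (a := 1) (b := 1) (c := 2) (cn := .dn) (n1 := ndN0q1) (n2 := ndN1q2b) (pc := pcN1) (cut := Cut.none) (xt := Ext.none) (P1 := 536870912) (W1 := 536870912) (P2 := 1239849684) (W2 := 370763052) (P3 := 33554432) (W3 := 16777216) (N0 := 3)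
    rfl rfl rfl k0_mm_112_b

noncomputable def f_mm_113 : ℕ → ℕ → ℕ → ℕ → Bool := onCell 536870912 536870912 1610612736 536870912 33554432 16777216
    (rowNK 3 0 false false false .nn 1 1 3 (qsf 536870912 536870912 1610612736 536870912 1) ndN0q1 ndN1q3 pcN1 Cut.none Ext.none)

def k0_mm_113 : ∃ t, chk3 f_mm_113 t 1 1 1 = true :=
  ⟨(l 5), by decide +kernel⟩

theorem c_mm_113 : CertN 536870912 536870912 1610612736 536870912 33554432 16777216 3 false false false .nn 1 1 3
    ndN0q1 ndN1q3 pcN1 Cut.none Ext.none :=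
  certNK0 (fam := false) (s1 := false) (s2 := false) (a := 1) (b := 1) (c := 3) (cn := .nn) (n1 := ndN0q1) (n2 := ndN1q3) (pc := pcN1) (cut := Cut.none) (xt := Ext.none) (P1 := 536870912) (W1 := 536870912) (P2 := 1610612736) (W2 := 536870912) (P3 := 33554432) (W3 := 16777216) (N0 := 3)
    rfl rfl rfl k0_mm_113

noncomputable def f_mm_123 : ℕ → ℕ → ℕ → ℕ → Bool := onCell 536870912 536870912 1610612736 536870912 33554432 16777216
    (rowNK 3 0 false false false .npn 1 2 3 (qsf 536870912 536870912 1610612736 536870912 2) ndN0q1 ndN1q3 pcN2 Cut.none Ext.none)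

def k0_mm_123 : ∃ t, chk3 f_mm_123 t 1 1 1 = true :=
  ⟨(l 5), by decide +kernel⟩

theorem c_mm_123 : CertN 536870912 536870912 1610612736 536870912 33554432 16777216 3 false false false .npn 1 2 3
    ndN0q1 ndN1q3 pcN2 Cut.none Ext.none :=
  certNK0 (fam := false) (s1 := false) (s2 := false) (a := 1) (b := 2) (c := 3) (cn := .npn) (n1 := ndN0q1) (n2 := ndN1q3) (pc := pcN2) (cut := Cut.none) (xt := Ext.none) (P1 := 536870912) (W1 := 536870912) (P2 := 1610612736) (W2 := 536870912) (P3 := 33554432) (W3 := 16777216) (N0 := 3)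
    rfl rfl rfl k0_mm_123

noncomputable def f_mm_133 : ℕ → ℕ → ℕ → ℕ → Bool := onCell 536870912 536870912 1610612736 536870912 33554432 16777216
    (rowNK 3 0 false false false .dn 1 3 3 (qsf 536870912 536870912 1610612736 536870912 3) ndN0q1 ndN1q3 pcN3 Cut.none Ext.none)

def k0_mm_133 : ∃ t, chk3 f_mm_133 t 1 1 1 = true :=
  ⟨(l 5), by decide +kernel⟩

theorem c_mm_133 : CertN 536870912 536870912 1610612736 536870912 33554432 16777216 3 false false false .dn 1 3 3
    ndN0q1 ndN1q3 pcN3 Cut.none Ext.none :=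
  certNK0 (fam := false) (s1 := false) (s2 := false) (a := 1) (b := 3) (c := 3) (cn := .dn) (n1 := ndN0q1) (n2 := ndN1q3) (pc := pcN3) (cut := Cut.none) (xt := Ext.none) (P1 := 536870912) (W1 := 536870912) (P2 := 1610612736) (W2 := 536870912) (P3 := 33554432) (W3 := 16777216) (N0 := 3)
    rfl rfl rfl k0_mm_133

noncomputable def f_mm_202_a : ℕ → ℕ → ℕ → ℕ → Bool := onCell 0 536870912 0 536870912 33554432 16777216
    (rowNK 3 0 false false false .pp 2 0 2 (qsf 0 536870912 0 536870912 0) ndN0q2 ndN1q2a pcN0 Cut.none Ext.none)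

def k0_mm_202_a : ∃ t, chk3 f_mm_202_a t 1 1 1 = true :=
  ⟨(l 3), by decide +kernel⟩

theorem c_mm_202_a : CertN 0 536870912 0 536870912 33554432 16777216 3 false false false .pp 2 0 2
    ndN0q2 ndN1q2a pcN0 Cut.none Ext.none :=
  certNK0 (fam := false) (s1 := false) (s2 := false) (a := 2) (b := 0) (c := 2) (cn := .pp) (n1 := ndN0q2) (n2 := ndN1q2a) (pc := pcN0) (cut := Cut.none) (xt := Ext.none) (P1 := 0) (W1 := 536870912) (P2 := 0) (W2 := 536870912) (P3 := 33554432) (W3 := 16777216) (N0 := 3)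
    rfl rfl rfl k0_mm_202_a

noncomputable def f_mm_202_b : ℕ → ℕ → ℕ → ℕ → Bool := onCell 0 536870912 1239849684 370763052 33554432 16777216
    (rowNK 3 0 false false false .pp 2 0 2 (qsf 0 536870912 1239849684 370763052 0) ndN0q2 ndN1q2b pcN0 Cut.none Ext.none)

def k0_mm_202_b : ∃ t, chk3 f_mm_202_b t 1 1 1 = true :=
  ⟨(l 3), by decide +kernel⟩

theorem c_mm_202_b : CertN 0 536870912 1239849684 370763052 33554432 16777216 3 false false false .pp 2 0 2
    ndN0q2 ndN1q2b pcN0 Cut.none Ext.none :=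
  certNK0 (fam := false) (s1 := false) (s2 := false) (a := 2) (b := 0) (c := 2) (cn := .pp) (n1 := ndN0q2) (n2 := ndN1q2b) (pc := pcN0) (cut := Cut.none) (xt := Ext.none) (P1 := 0) (W1 := 536870912) (P2 := 1239849684) (W2 := 370763052) (P3 := 33554432) (W3 := 16777216) (N0 := 3)
    rfl rfl rfl k0_mm_202_b

noncomputable def f_mm_203 : ℕ → ℕ → ℕ → ℕ → Bool := onCell 0 536870912 0 536870912 33554432 16777216
    (rowNK 3 1 false false false .up 2 0 3 (qsf 0 536870912 1610612736 536870912 0) ndN0q2 ndN1q3 pcN0 Cut.none Ext.none)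

def k0_mm_203 : ∃ t, chk3 f_mm_203 t 1 1 1 = true :=
  ⟨(l 3), by decide +kernel⟩

theorem c_mm_203 : CertN 0 536870912 1610612736 536870912 33554432 16777216 3 false false false .up 2 0 3
    ndN0q2 ndN1q3 pcN0 Cut.none Ext.none :=
  certNK1 (fam := false) (s1 := false) (s2 := false) (a := 2) (b := 0) (c := 3) (cn := .up) (n1 := ndN0q2) (n2 := ndN1q3) (pc := pcN0) (cut := Cut.none) (xt := Ext.none) (P1 := 0) (W1 := 536870912) (P2 := 1610612736) (W2 := 536870912) (P3 := 33554432) (W3 := 16777216) (N0 := 3)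
    rfl rfl rfl (fun _ => rfl) k0_mm_203

noncomputable def f_mm_213 : ℕ → ℕ → ℕ → ℕ → Bool := onCell 0 536870912 1610612736 536870912 33554432 16777216
    (rowNK 3 0 false false false .pnn 2 1 3 (qsf 0 536870912 1610612736 536870912 1) ndN0q2 ndN1q3 pcN1 Cut.none Ext.none)

def k0_mm_213 : ∃ t, chk3 f_mm_213 t 1 1 1 = true :=
  ⟨(a (l 3) (l 5)), by decide +kernel⟩

theorem c_mm_213 : CertN 0 536870912 1610612736 536870912 33554432 16777216 3 false false false .pnn 2 1 3
    ndN0q2 ndN1q3 pcN1 Cut.none Ext.none :=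
  certNK0 (fam := false) (s1 := false) (s2 := false) (a := 2) (b := 1) (c := 3) (cn := .pnn) (n1 := ndN0q2) (n2 := ndN1q3) (pc := pcN1) (cut := Cut.none) (xt := Ext.none) (P1 := 0) (W1 := 536870912) (P2 := 1610612736) (W2 := 536870912) (P3 := 33554432) (W3 := 16777216) (N0 := 3)
    rfl rfl rfl k0_mm_213

end Pool.Agent.Strip051.G.I1_32_3_64.Tab.C.NB01

namespace Pool.Agent.Strip051.G.I1_32_3_64.Tab.C.NB02

open Pool.Agent.Strip051.PB Pool.Agent.Strip051.PB.T
open Pool.Agent.Strip051.G.I1_32_3_64.Tab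

noncomputable def f_pp_001 : ℕ → ℕ → ℕ → ℕ → Bool := onCell 0 536870912 0 536870912 33554432 16777216
    (rowNK 3 1 false true true .up 0 0 1 (qsf 0 536870912 536870912 536870912 0) ndN0q0 ndN2q1 pcN0 Cut.none Ext.none)

def k0_pp_001 : ∃ t, chk3 f_pp_001 t 1 1 1 = true :=
  ⟨(l 3), by decide +kernel⟩

theorem c_pp_001 : CertN 0 536870912 536870912 536870912 33554432 16777216 3 false true true .up 0 0 1
    ndN0q0 ndN2q1 pcN0 Cut.none Ext.none :=
  certNK1 (fam := false) (s1 := true) (s2 := true) (a := 0) (b := 0) (c := 1) (cn := .up) (n1 := ndN0q0) (n2 := ndN2q1) (pc := pcN0) (cut := Cut.none) (xt := Ext.none) (P1 := 0) (W1 := 536870912) (P2 := 536870912) (W2 := 536870912) (P3 := 33554432) (W3 := 16777216) (N0 := 3)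
    rfl rfl rfl (fun _ => rfl) k0_pp_001

noncomputable def cut_pp_011 : Cut := Cut.of [[⟨0, 0, 0, 33554432⟩, ⟨1, 1, 0, 33554432⟩, ⟨2, 1, 0, 33554432⟩]]

noncomputable def f_pp_011 : ℕ → ℕ → ℕ → ℕ → Bool := onCell 0 536870912 536870912 536870912 33554432 16777216
    (rowNK 3 0 false true true .pnn 0 1 1 (qsf 0 536870912 536870912 536870912 1) ndN0q0 ndN2q1 pcN1 cut_pp_011 Ext.none)

def k0_pp_011 : ∃ t, chk3 f_pp_011 t 1 1 1 = true :=
  ⟨(a (b (l 3) (a (b (l 3) (b (l 3) (b (l 3) (b (l 3) (b (l 3) (a (a (a (l 6) (l 3)) (l 3)) (l 3))))))) (l 3))) (l 3)), by decide +kernel⟩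

theorem c_pp_011 : CertN 0 536870912 536870912 536870912 33554432 16777216 3 false true true .pnn 0 1 1
    ndN0q0 ndN2q1 pcN1 cut_pp_011 Ext.none :=
  certNK0 (fam := false) (s1 := true) (s2 := true) (a := 0) (b := 1) (c := 1) (cn := .pnn) (n1 := ndN0q0) (n2 := ndN2q1) (pc := pcN1) (cut := cut_pp_011) (xt := Ext.none) (P1 := 0) (W1 := 536870912) (P2 := 536870912) (W2 := 536870912) (P3 := 33554432) (W3 := 16777216) (N0 := 3)
    rfl rfl rfl k0_pp_011

noncomputable def cut_pp_012_a : Cut := Cut.of [[⟨0, 0, 0, 33554432⟩, ⟨1, 1, 0, 33554432⟩, ⟨2, 1, 0, 33554432⟩], [⟨0, 0, 1, 25165824⟩, ⟨1, 1, 0, 16777216⟩, ⟨2, 1, 1, 25165824⟩, ⟨0, 0, 0, 67108864⟩, ⟨0, 1, 0, 1056964608⟩, ⟨2, 1, 0, 67108864⟩, ⟨2, 2, 0, 1056964608⟩]]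

noncomputable def f_pp_012_a : ℕ → ℕ → ℕ → ℕ → Bool := onCell 536870912 536870912 0 536870912 33554432 16777216
    (rowNK 3 2 false true true .pnp 0 1 2 (qsf 0 536870912 0 536870912 1) ndN0q0 ndN2q2a pcN1 cut_pp_012_a Ext.none)

def k0_pp_012_a : ∃ t, chk3 f_pp_012_a t 1 1 1 = true :=
  ⟨(a (l 3) (a (l 3) (a (l 3) (a (l 3) (a (l 3) (b (b (l 17939904) (l 17882968)) (a (l 3) (b (b (l 17902248) (b (l 17802080) (l 17683168))) (a (l 3) (a (l 3) (a (l 3) (b (b (b (l 17585136) (c (l 17571552) (l 17163760))) (b (c (l 17246344) (l 14)) (l 14))) (b (b (l 14) (l 6)) (l 6)))))))))))))), by decide +kernel⟩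

theorem c_pp_012_a : CertN 0 536870912 0 536870912 33554432 16777216 3 false true true .pnp 0 1 2
    ndN0q0 ndN2q2a pcN1 cut_pp_012_a Ext.none :=
  certNK2 (fam := false) (s1 := true) (s2 := true) (a := 0) (b := 1) (c := 2) (cn := .pnp) (n1 := ndN0q0) (n2 := ndN2q2a) (pc := pcN1) (cut := cut_pp_012_a) (xt := Ext.none) (P1 := 0) (W1 := 536870912) (P2 := 0) (W2 := 536870912) (P3 := 33554432) (W3 := 16777216) (N0 := 3)
    rfl rfl rfl (fun _ => rfl) k0_pp_012_a

noncomputable def cut_pp_012_b : Cut := Cut.of [[⟨0, 0, 0, 33554432⟩, ⟨1, 1, 0, 33554432⟩, ⟨2, 1, 0, 33554432⟩], [⟨0, 0, 1, 25165824⟩, ⟨1, 1, 0, 16777216⟩, ⟨2, 1, 1, 25165824⟩, ⟨0, 0, 0, 67108864⟩, ⟨0, 1, 0, 1056964608⟩, ⟨2, 1, 0, 67108864⟩, ⟨2, 2, 0, 1056964608⟩]]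

noncomputable def f_pp_012_b : ℕ → ℕ → ℕ → ℕ → Bool := onCell 536870912 536870912 1239849684 370763052 33554432 16777216
    (rowNK 3 2 false true true .pnp 0 1 2 (qsf 0 536870912 1239849684 370763052 1) ndN0q0 ndN2q2b pcN1 cut_pp_012_b Ext.none)

def k0_pp_012_b : ∃ t, chk3 f_pp_012_b t 1 1 1 = true :=
  ⟨(a (l 3) (a (l 3) (a (l 3) (a (l 3) (b (b (b (l 101638961799) (l 17878312)) (l 17662792)) (b (l 17561120) (l 17524384))))))), by decide +kernel⟩

theorem c_pp_012_b : CertN 0 536870912 1239849684 370763052 33554432 16777216 3 false true true .pnp 0 1 2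
    ndN0q0 ndN2q2b pcN1 cut_pp_012_b Ext.none :=
  certNK2 (fam := false) (s1 := true) (s2 := true) (a := 0) (b := 1) (c := 2) (cn := .pnp) (n1 := ndN0q0) (n2 := ndN2q2b) (pc := pcN1) (cut := cut_pp_012_b) (xt := Ext.none) (P1 := 0) (W1 := 536870912) (P2 := 1239849684) (W2 := 370763052) (P3 := 33554432) (W3 := 16777216) (N0 := 3)
    rfl rfl rfl (fun _ => rfl) k0_pp_012_b

noncomputable def cut_pp_022_a : Cut := Cut.of [[⟨0, 0, 0, 33554432⟩, ⟨1, 1, 0, 33554432⟩, ⟨2, 1, 0, 33554432⟩], [⟨0, 0, 1, 25165824⟩, ⟨1, 1, 0, 16777216⟩, ⟨2, 1, 1, 25165824⟩, ⟨0, 0, 0, 67108864⟩, ⟨0, 1, 0, 1056964608⟩, ⟨2, 1, 0, 67108864⟩, ⟨2, 2, 0, 1056964608⟩]]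

noncomputable def f_pp_022_a : ℕ → ℕ → ℕ → ℕ → Bool := onCell 0 536870912 0 536870912 33554432 16777216
    (rowNK 3 0 false true true .pp 0 2 2 (qsf 0 536870912 0 536870912 2) ndN0q0 ndN2q2a pcN2 cut_pp_022_a Ext.none)

def k0_pp_022_a : ∃ t, chk3 f_pp_022_a t 2 2 1 = true :=
  ⟨(a (a (b (l 19254624) (l 19117424)) (b (l 18632880) (a (l 18619520) (b (l 18376312) (a (l 18301928) (b (l 18190200) (a (l 18129232) (l 18061008)))))))) (a (a (b (a (l 18258536) (b (l 18135656) (l 18106448))) (a (b (a (l 18182488) (l 18113408)) (l 251291875575)) (l 248607320167))) (b (l 274914474487) (l 1))) (l 1))), by decide +kernel⟩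

def k1_pp_022_a : ∃ t, chk3 f_pp_022_a t 4 6 1 = true :=
  ⟨(a (a (b (l 19035264) (b (l 18777392) (a (l 18600568) (l 18394768)))) (b (l 18662280) (b (l 18384072) (a (l 18196368) (b (l 18087952) (l 17920288)))))) (b (a (b (l 18380904) (l 18223848)) (a (b (b (l 18161560) (a (l 18132064) (l 18047344))) (l 113852589255)) (b (l 18013312) (l 1)))) (a (b (a (l 18105224) (b (a (l 18028968) (l 17943544)) (l 100967374583))) (a (a (b (l 17949168) (l 17784568)) (b (l 17858520) (a (l 81639432631) (l 210488810727)))) (b (a (l 198140720967) (l 1)) (l 1)))) (b (a (l 239480172503) (l 1)) (l 1))))), by decide +kernel⟩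

def k2_pp_022_a : ∃ t, chk3 f_pp_022_a t 16 14 1 = true :=
  ⟨(a (b (b (l 18290128) (c (l 18253320) (a (l 17698960) (l 17703792)))) (b (c (a (b (l 18048592) (l 17830152)) (l 17674032)) (b (a (l 17272704) (l 17356416)) (a (a (l 16996656) (l 17098400)) (a (l 17096512) (l 17095984))))) (b (c (a (a (l 17418152) (l 17481344)) (b (l 17551080) (l 17288296))) (a (a (l 16729232) (l 16822736)) (a (l 16833888) (l 16825744)))) (a (a (a (l 16757576) (l 16772824)) (l 16733528)) (a (l 16735088) (l 16743744)))))) (b (b (l 18089360) (c (l 18033064) (a (l 17628320) (l 17452152)))) (b (b (c (l 17686024) (a (l 17277112) (a (l 17299672) (l 17274392)))) (c (a (l 17641664) (l 17512448)) (a (a (l 17055032) (l 17036576)) (a (l 16956720) (l 16878368))))) (b (a (c (a (l 17342832) (l 17264544)) (a (l 16819408) (l 16751976))) (c (a (l 17166672) (b (l 17377600) (l 17138784))) (a (b (l 16899072) (l 16765432)) (b (l 16810016) (a (l 16767968) (l 14)))))) (a (a (b (l 16804920) (l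 16742696)) (b (l 16796688) (a (l 16744416) (l 16746192)))) (a (b (a (l 16833672) (l 16788944)) (a (l 16748440) (l 14))) (l 14))))))), by decide +kernel⟩

def k3_pp_022_a : ∃ t, chk3 f_pp_022_a t 17 14 1 = true :=
  ⟨(b (a (b (l 17647840) (a (b (l 17754960) (l 17461336)) (b (l 17627576) (a (l 17423464) (l 17364168))))) (b (a (l 17680352) (b (l 17730152) (l 17622984))) (b (a (l 17440248) (a (l 17506200) (b (l 52647885815) (a (l 49023910359) (l 210488328871))))) (a (c (l 17611008) (l 14)) (a (c (l 85397353479) (l 14)) (b (l 211025032791) (l 1))))))) (a (b (a (c (b (l 17647992) (a (l 17491896) (l 17451400))) (b (a (l 17250384) (l 16996864)) (a (b (l 17062816) (l 16832648)) (b (l 17005184) (l 14))))) (b (b (a (l 17307712) (l 17252304)) (l 14)) (l 14))) (a (a (b (b (c (l 17342448) (l 16764376)) (l 14)) (l 14)) (l 14)) (l 14))) (b (a (c (c (b (a (l 17573008) (l 87008071335)) (a (l 14) (l 211025112455))) (l 14)) (l 14)) (b (a (c (l 212635781143) (l 14)) (l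 1)) (l 1))) (a (a (l 14) (l 1)) (l 1))))), by decide +kernel⟩

def k4_pp_022_a : ∃ t, chk3 f_pp_022_a t 8 15 1 = true :=
  ⟨(b (a (a (b (a (a (b (a (l 16721760) (l 16721472)) (a (l 16729648) (l 16729432))) (b (b (l 16719648) (l 16722256)) (a (l 16729176) (l 16728864)))) (b (b (a (l 16718720) (l 16738584)) (a (l 16742384) (l 16741368))) (a (a (l 16729168) (a (l 16746568) (l 16746368))) (b (a (l 16744536) (b (b (l 16743144) (l 16744752)) (l 16747160))) (b (a (l 16746800) (a (l 16749208) (l 16751472))) (l 6)))))) (l 6)) (b (a (b (a (b (a (b (l 16737056) (l 16738936)) (b (c (l 16936832) (l 16740328)) (l 16743560))) (b (a (l 16742144) (l 16746728)) (a (a (l 16744200) (l 16746488)) (l 16749848)))) (b (a (l 16746568) (l 16751000)) (a (l 16752648) (l 16756856)))) (b (a (a (b (l 16748520) (l 16751624)) (l 16738624)) (a (l 16758512) (l 16746968))) (b (a (a (l 16754648) (l 16758760)) (a (l 16762904) (l 16756608))) (l 6)))) (c (l 14) (a (a (a (b (l 16741296) (b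 (l 16765744) (l 16756200))) (l 14)) (l 14)) (l 14)))) (a (l 6) (a (l 6) (b (l 14) (l 1)))))) (a (b (a (l 14) (l 1)) (l 1)) (l 1))) (a (a (l 6) (a (l 6) (l 1))) (l 1))), by decide +kernel⟩

def k5_pp_022_a : ∃ t, chk3 f_pp_022_a t 9 7 1 = true :=
  ⟨(b (a (b (a (b (a (a (b (l 17665032) (a (l 17531896) (l 187939945303))) (b (l 91839771767) (l 223373420007))) (l 227131587079)) (a (a (b (l 217467694599) (l 1)) (l 1)) (l 1))) (l 1)) (l 1)) (l 1)) (l 1)), by decide +kernel⟩

def k6_pp_022_a : ∃ t, chk3 f_pp_022_a t 5 3 1 = true :=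
  ⟨(b (l 1) (l 1)), by decide +kernel⟩

def k7_pp_022_a : ∃ t, chk3 f_pp_022_a t 3 1 1 = true :=
  ⟨(l 1), by decide +kernel⟩

theorem s8_pp_022_a : ∃ t, chk3 f_pp_022_a t 8 14 1 = true := ex3_a k2_pp_022_a k3_pp_022_a

theorem s9_pp_022_a : ∃ t, chk3 f_pp_022_a t 8 7 1 = true := ex3_b s8_pp_022_a k4_pp_022_a

theorem s10_pp_022_a : ∃ t, chk3 f_pp_022_a t 4 7 1 = true := ex3_a s9_pp_022_a k5_pp_022_a

theorem s11_pp_022_a : ∃ t, chk3 f_pp_022_a t 4 3 1 = true := ex3_b k1_pp_022_a s10_pp_022_a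

theorem s12_pp_022_a : ∃ t, chk3 f_pp_022_a t 2 3 1 = true := ex3_a s11_pp_022_a k6_pp_022_a

theorem s13_pp_022_a : ∃ t, chk3 f_pp_022_a t 2 1 1 = true := ex3_b k0_pp_022_a s12_pp_022_a

theorem s14_pp_022_a : ∃ t, chk3 f_pp_022_a t 1 1 1 = true := ex3_a s13_pp_022_a k7_pp_022_a

theorem c_pp_022_a : CertN 0 536870912 0 536870912 33554432 16777216 3 false true true .pp 0 2 2
    ndN0q0 ndN2q2a pcN2 cut_pp_022_a Ext.none :=
  certNK0 (fam := false) (s1 := true) (s2 := true) (a := 0) (b := 2) (c := 2) (cn := .pp) (n1 := ndN0q0) (n2 := ndN2q2a) (pc := pcN2) (cut := cut_pp_022_a) (xt := Ext.none) (P1 := 0) (W1 := 536870912) (P2 := 0) (W2 := 536870912) (P3 := 33554432) (W3 := 16777216) (N0 := 3)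
    rfl rfl rfl s14_pp_022_a

noncomputable def cut_pp_022_b : Cut := Cut.of [[⟨0, 0, 0, 33554432⟩, ⟨1, 1, 0, 33554432⟩, ⟨2, 1, 0, 33554432⟩], [⟨0, 0, 1, 25165824⟩, ⟨1, 1, 0, 16777216⟩, ⟨2, 1, 1, 25165824⟩, ⟨0, 0, 0, 67108864⟩, ⟨0, 1, 0, 1056964608⟩, ⟨2, 1, 0, 67108864⟩, ⟨2, 2, 0, 1056964608⟩]]

noncomputable def f_pp_022_b : ℕ → ℕ → ℕ → ℕ → Bool := onCell 0 536870912 1073741824 536870912 33554432 16777216
    (rowNK 3 1 false true true .pp 0 2 2 (qsf 0 536870912 1239849684 370763052 2) ndN0q0 ndN2q2b pcN2 cut_pp_022_b Ext.none)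

def k0_pp_022_b : ∃ t, chk3 f_pp_022_b t 1 1 1 = true :=
  ⟨(a (b (b (a (a (b (l 1) (a (l 233040051143) (l 19018416))) (b (b (b (l 1) (l 216932546295)) (l 141771334471)) (l 18887024))) (b (b (b (b (l 89157251719) (l 89694225063)) (l 89157530647)) (l 18569504)) (l 18672280))) (a (a (l 19495496) (l 19200648)) (l 18724736))) (a (l 19395152) (l 18773464))) (b (b (b (b (b (b (a (l 17754416) (l 17663912)) (a (l 17780144) (l 17682064))) (a (l 17820456) (l 17707072))) (a (l 17881888) (l 17746472))) (a (l 17983824) (l 17817752))) (a (l 18101384) (l 17906176))) (b (a (l 18134328) (l 2)) (l 2)))), by decide +kernel⟩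

theorem c_pp_022_b : CertN 0 536870912 1239849684 370763052 33554432 16777216 3 false true true .pp 0 2 2
    ndN0q0 ndN2q2b pcN2 cut_pp_022_b Ext.none :=
  certNK1 (fam := false) (s1 := true) (s2 := true) (a := 0) (b := 2) (c := 2) (cn := .pp) (n1 := ndN0q0) (n2 := ndN2q2b) (pc := pcN2) (cut := cut_pp_022_b) (xt := Ext.none) (P1 := 0) (W1 := 536870912) (P2 := 1239849684) (W2 := 370763052) (P3 := 33554432) (W3 := 16777216) (N0 := 3)
    rfl rfl rfl (fun _ => rfl) k0_pp_022_b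

noncomputable def f_pp_023 : ℕ → ℕ → ℕ → ℕ → Bool := onCell 0 536870912 1073741824 536870912 33554432 16777216
    (rowNK 3 1 false true true .up 0 2 3 (qsf 0 536870912 1610612736 536870912 2) ndN0q0 ndN2q3 pcN2 Cut.none Ext.none)

def k0_pp_023 : ∃ t, chk3 f_pp_023 t 1 1 1 = true :=
  ⟨(a (b (b (l 1) (a (l 1) (l 18725536))) (a (l 19522168) (l 18901440))) (a (b (b (b (l 1) (l 17937256)) (l 18048312)) (b (l 18153008) (l 18181464))) (b (b (b (b (b (b (l 17501248) (l 17512000)) (l 17527568)) (l 17554056)) (l 17618872)) (l 17745056)) (b (l 17863504) (l 17862912))))), by decide +kernel⟩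

theorem c_pp_023 : CertN 0 536870912 1610612736 536870912 33554432 16777216 3 false true true .up 0 2 3
    ndN0q0 ndN2q3 pcN2 Cut.none Ext.none :=
  certNK1 (fam := false) (s1 := true) (s2 := true) (a := 0) (b := 2) (c := 3) (cn := .up) (n1 := ndN0q0) (n2 := ndN2q3) (pc := pcN2) (cut := Cut.none) (xt := Ext.none) (P1 := 0) (W1 := 536870912) (P2 := 1610612736) (W2 := 536870912) (P3 := 33554432) (W3 := 16777216) (N0 := 3)
    rfl rfl rfl (fun _ => rfl) k0_pp_023

noncomputable def f_pp_033 : ℕ → ℕ → ℕ → ℕ → Bool := onCell 1610612736 536870912 1610612736 536870912 33554432 16777216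
    (rowNK 3 2 false true true .pnn 0 3 3 (qsf 0 536870912 1610612736 536870912 3) ndN0q0 ndN2q3 pcN3 Cut.none Ext.none)

def k0_pp_033 : ∃ t, chk3 f_pp_033 t 1 1 1 = true :=
  ⟨(b (a (a (b (b (l 19481944) (l 19122072)) (b (l 18699000) (l 18194848))) (b (a (l 19448656) (l 1)) (a (l 18965592) (l 19301288)))) (a (a (b (l 1) (l 19501072)) (l 1)) (l 1))) (a (a (b (a (l 17426864) (l 17851640)) (a (l 17035104) (l 17351440))) (b (a (l 18290504) (l 18759280)) (a (l 17699680) (l 17986528)))) (a (a (b (l 19031960) (l 18014992)) (b (l 19146056) (l 4))) (l 4)))), by decide +kernel⟩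

theorem c_pp_033 : CertN 0 536870912 1610612736 536870912 33554432 16777216 3 false true true .pnn 0 3 3
    ndN0q0 ndN2q3 pcN3 Cut.none Ext.none :=
  certNK2 (fam := false) (s1 := true) (s2 := true) (a := 0) (b := 3) (c := 3) (cn := .pnn) (n1 := ndN0q0) (n2 := ndN2q3) (pc := pcN3) (cut := Cut.none) (xt := Ext.none) (P1 := 0) (W1 := 536870912) (P2 := 1610612736) (W2 := 536870912) (P3 := 33554432) (W3 := 16777216) (N0 := 3)
    rfl rfl rfl (fun _ => rfl) k0_pp_033

noncomputable def f_pp_101 : ℕ → ℕ → ℕ → ℕ → Bool := onCell 536870912 536870912 536870912 536870912 33554432 16777216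
    (rowNK 3 0 false true true .npn 1 0 1 (qsf 536870912 536870912 536870912 536870912 0) ndN0q1 ndN2q1 pcN0 Cut.none Ext.none)

def k0_pp_101 : ∃ t, chk3 f_pp_101 t 1 1 1 = true :=
  ⟨(a (l 3) (l 5)), by decide +kernel⟩

theorem c_pp_101 : CertN 536870912 536870912 536870912 536870912 33554432 16777216 3 false true true .npn 1 0 1
    ndN0q1 ndN2q1 pcN0 Cut.none Ext.none :=
  certNK0 (fam := false) (s1 := true) (s2 := true) (a := 1) (b := 0) (c := 1) (cn := .npn) (n1 := ndN0q1) (n2 := ndN2q1) (pc := pcN0) (cut := Cut.none) (xt := Ext.none) (P1 := 536870912) (W1 := 536870912) (P2 := 536870912) (W2 := 536870912) (P3 := 33554432) (W3 := 16777216) (N0 := 3)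
    rfl rfl rfl k0_pp_101

noncomputable def f_pp_102_a : ℕ → ℕ → ℕ → ℕ → Bool := onCell 536870912 536870912 0 536870912 33554432 16777216
    (rowNK 3 0 false true true .npp 1 0 2 (qsf 536870912 536870912 0 536870912 0) ndN0q1 ndN2q2a pcN0 Cut.none Ext.none)

def k0_pp_102_a : ∃ t, chk3 f_pp_102_a t 1 1 1 = true :=
  ⟨(l 3), by decide +kernel⟩

theorem c_pp_102_a : CertN 536870912 536870912 0 536870912 33554432 16777216 3 false true true .npp 1 0 2
    ndN0q1 ndN2q2a pcN0 Cut.none Ext.none :=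
  certNK0 (fam := false) (s1 := true) (s2 := true) (a := 1) (b := 0) (c := 2) (cn := .npp) (n1 := ndN0q1) (n2 := ndN2q2a) (pc := pcN0) (cut := Cut.none) (xt := Ext.none) (P1 := 536870912) (W1 := 536870912) (P2 := 0) (W2 := 536870912) (P3 := 33554432) (W3 := 16777216) (N0 := 3)
    rfl rfl rfl k0_pp_102_a

noncomputable def f_pp_102_b : ℕ → ℕ → ℕ → ℕ → Bool := onCell 536870912 536870912 0 536870912 33554432 16777216
    (rowNK 3 1 false true true .npp 1 0 2 (qsf 536870912 536870912 1239849684 370763052 0) ndN0q1 ndN2q2b pcN0 Cut.none Ext.none)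

def k0_pp_102_b : ∃ t, chk3 f_pp_102_b t 1 1 1 = true :=
  ⟨(l 3), by decide +kernel⟩

theorem c_pp_102_b : CertN 536870912 536870912 1239849684 370763052 33554432 16777216 3 false true true .npp 1 0 2
    ndN0q1 ndN2q2b pcN0 Cut.none Ext.none :=
  certNK1 (fam := false) (s1 := true) (s2 := true) (a := 1) (b := 0) (c := 2) (cn := .npp) (n1 := ndN0q1) (n2 := ndN2q2b) (pc := pcN0) (cut := Cut.none) (xt := Ext.none) (P1 := 536870912) (W1 := 536870912) (P2 := 1239849684) (W2 := 370763052) (P3 := 33554432) (W3 := 16777216) (N0 := 3)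
    rfl rfl rfl (fun _ => rfl) k0_pp_102_b

noncomputable def f_pp_112_a : ℕ → ℕ → ℕ → ℕ → Bool := onCell 536870912 536870912 0 536870912 33554432 16777216
    (rowNK 3 0 false true true .dn 1 1 2 (qsf 536870912 536870912 0 536870912 1) ndN0q1 ndN2q2a pcN1 Cut.none Ext.none)

def k0_pp_112_a : ∃ t, chk3 f_pp_112_a t 1 1 1 = true :=
  ⟨(l 3), by decide +kernel⟩

theorem c_pp_112_a : CertN 536870912 536870912 0 536870912 33554432 16777216 3 false true true .dn 1 1 2
    ndN0q1 ndN2q2a pcN1 Cut.none Ext.none :=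
  certNK0 (fam := false) (s1 := true) (s2 := true) (a := 1) (b := 1) (c := 2) (cn := .dn) (n1 := ndN0q1) (n2 := ndN2q2a) (pc := pcN1) (cut := Cut.none) (xt := Ext.none) (P1 := 536870912) (W1 := 536870912) (P2 := 0) (W2 := 536870912) (P3 := 33554432) (W3 := 16777216) (N0 := 3)
    rfl rfl rfl k0_pp_112_a

noncomputable def f_pp_112_b : ℕ → ℕ → ℕ → ℕ → Bool := onCell 536870912 536870912 1239849684 370763052 33554432 16777216
    (rowNK 3 2 false true true .dn 1 1 2 (qsf 536870912 536870912 1239849684 370763052 1) ndN0q1 ndN2q2b pcN1 Cut.none Ext.none)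

def k0_pp_112_b : ∃ t, chk3 f_pp_112_b t 1 1 1 = true :=
  ⟨(a (l 3) (a (l 3) (b (l 1) (a (l 3) (b (l 1) (l 118818000007)))))), by decide +kernel⟩

theorem c_pp_112_b : CertN 536870912 536870912 1239849684 370763052 33554432 16777216 3 false true true .dn 1 1 2
    ndN0q1 ndN2q2b pcN1 Cut.none Ext.none :=
  certNK2 (fam := false) (s1 := true) (s2 := true) (a := 1) (b := 1) (c := 2) (cn := .dn) (n1 := ndN0q1) (n2 := ndN2q2b) (pc := pcN1) (cut := Cut.none) (xt := Ext.none) (P1 := 536870912) (W1 := 536870912) (P2 := 1239849684) (W2 := 370763052) (P3 := 33554432) (W3 := 16777216) (N0 := 3)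
    rfl rfl rfl (fun _ => rfl) k0_pp_112_b

noncomputable def cut_pp_113 : Cut := Cut.of [[⟨0, 1, 0, 7061502⟩, ⟨1, 1, 0, 7061502⟩, ⟨2, 2, 0, 184626⟩]]

noncomputable def f_pp_113 : ℕ → ℕ → ℕ → ℕ → Bool := onCell 536870912 536870912 536870912 536870912 33554432 16777216
    (rowNK 3 1 false true true .nn 1 1 3 (qsf 536870912 536870912 1610612736 536870912 1) ndN0q1 ndN2q3 pcN1 cut_pp_113 Ext.none)

def k0_pp_113 : ∃ t, chk3 f_pp_113 t 1 1 1 = true :=
  ⟨(b (l 3) (b (l 3) (b (a (l 3) (l 3)) (b (a (l 3) (l 3)) (a (a (l 158009513143) (l 185926979447)) (a (a (l 210622280887) (l 17490704)) (b (l 3) (b (l 3) (a (l 17277576) (a (l 196663120487) (b (l 3) (a (l 200957813143) (b (l 3) (a (l 204178888535) (b (l 3) (a (l 205252548247) (b (l 3) (b (l 3) (b (l 3) (b (l 3) (b (l 3) (a (l 16797288) (a (l 16787416) (a (l 16782416) (a (l 16782520) (a (l 16779616) (l 6))))))))))))))))))))))))))), by decide +kernel⟩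

theorem c_pp_113 : CertN 536870912 536870912 1610612736 536870912 33554432 16777216 3 false true true .nn 1 1 3
    ndN0q1 ndN2q3 pcN1 cut_pp_113 Ext.none :=
  certNK1 (fam := false) (s1 := true) (s2 := true) (a := 1) (b := 1) (c := 3) (cn := .nn) (n1 := ndN0q1) (n2 := ndN2q3) (pc := pcN1) (cut := cut_pp_113) (xt := Ext.none) (P1 := 536870912) (W1 := 536870912) (P2 := 1610612736) (W2 := 536870912) (P3 := 33554432) (W3 := 16777216) (N0 := 3)
    rfl rfl rfl (fun _ => rfl) k0_pp_113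

noncomputable def cut_pp_123 : Cut := Cut.of [[⟨0, 1, 0, 7061502⟩, ⟨1, 1, 0, 7061502⟩, ⟨2, 2, 0, 184626⟩]]

noncomputable def f_pp_123 : ℕ → ℕ → ℕ → ℕ → Bool := onCell 536870912 536870912 1073741824 536870912 33554432 16777216
    (rowNK 3 1 false true true .npn 1 2 3 (qsf 536870912 536870912 1610612736 536870912 2) ndN0q1 ndN2q3 pcN2 cut_pp_123 Ext.none)

def k0_pp_123 : ∃ t, chk3 f_pp_123 t 1 1 1 = true :=
  ⟨(a (b (a (b (b (b (b (b (l 17559624) (l 17533496)) (l 17503736)) (l 17483512)) (l 17453848)) (l 17469360)) (b (b (b (b (b (l 17620816) (l 17543856)) (l 17521184)) (l 17493504)) (a (l 17263952) (l 17101864))) (a (l 17242088) (l 17281200)))) (a (b (l 17635544) (b (l 17655320) (l 17569416))) (b (b (l 17487816) (l 17720424)) (a (b (l 17484096) (l 2)) (l 2))))) (b (a (b (b (b (b (b (a (l 17211040) (l 17190744)) (a (l 17187936) (l 17159304))) (a (l 17151328) (l 17109448))) (a (l 17073664) (l 17003368))) (a (l 17074600) (l 17024464))) (a (l 17406256)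 (b (l 17282736) (l 17630360)))) (b (b (b (b (b (a (l 17210456) (a (l 17049056) (b (a (l 16926304) (a (l 16879432) (b (a (l 16829392) (b (a (l 16814080) (a (l 16804176) (a (l 16788672) (b (a (l 16782952) (a (l 16780480) (b (b (l 6) (l 16778064)) (l 2)))) (l 16780616))))) (l 16799360))) (l 16821288)))) (l 16976264)))) (a (l 17147064) (l 156330913495))) (a (l 17037480) (l 148814490791))) (a (l 16954896) (l 225050403319))) (a (l 17075384) (b (l 17338440) (l 2)))) (a (b (l 17442608) (l 2)) (l 2)))) (a (b (a (b (l 17752008) (l 2)) (l 2)) (l 2)) (l 2)))), by decide +kernel⟩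

theorem c_pp_123 : CertN 536870912 536870912 1610612736 536870912 33554432 16777216 3 false true true .npn 1 2 3
    ndN0q1 ndN2q3 pcN2 cut_pp_123 Ext.none :=
  certNK1 (fam := false) (s1 := true) (s2 := true) (a := 1) (b := 2) (c := 3) (cn := .npn) (n1 := ndN0q1) (n2 := ndN2q3) (pc := pcN2) (cut := cut_pp_123) (xt := Ext.none) (P1 := 536870912) (W1 := 536870912) (P2 := 1610612736) (W2 := 536870912) (P3 := 33554432) (W3 := 16777216) (N0 := 3)
    rfl rfl rfl (fun _ => rfl) k0_pp_123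

noncomputable def f_pp_133 : ℕ → ℕ → ℕ → ℕ → Bool := onCell 1610612736 536870912 1610612736 536870912 33554432 16777216
    (rowNK 3 2 false true true .dn 1 3 3 (qsf 536870912 536870912 1610612736 536870912 3) ndN0q1 ndN2q3 pcN3 Cut.none Ext.none)

def k0_pp_133 : ∃ t, chk3 f_pp_133 t 1 1 1 = true :=
  ⟨(a (b (l 1) (a (b (l 1) (a (l 17092736) (l 1))) (l 1))) (l 1)), by decide +kernel⟩

theorem c_pp_133 : CertN 536870912 536870912 1610612736 536870912 33554432 16777216 3 false true true .dn 1 3 3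
    ndN0q1 ndN2q3 pcN3 Cut.none Ext.none :=
  certNK2 (fam := false) (s1 := true) (s2 := true) (a := 1) (b := 3) (c := 3) (cn := .dn) (n1 := ndN0q1) (n2 := ndN2q3) (pc := pcN3) (cut := Cut.none) (xt := Ext.none) (P1 := 536870912) (W1 := 536870912) (P2 := 1610612736) (W2 := 536870912) (P3 := 33554432) (W3 := 16777216) (N0 := 3)
    rfl rfl rfl (fun _ => rfl) k0_pp_133

noncomputable def f_pp_202_a : ℕ → ℕ → ℕ → ℕ → Bool := onCell 0 536870912 0 536870912 33554432 16777216
    (rowNK 3 0 false true true .pp 2 0 2 (qsf 0 536870912 0 536870912 0) ndN0q2 ndN2q2a pcN0 Cut.none Ext.none)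

def k0_pp_202_a : ∃ t, chk3 f_pp_202_a t 1 1 1 = true :=
  ⟨(l 3), by decide +kernel⟩

theorem c_pp_202_a : CertN 0 536870912 0 536870912 33554432 16777216 3 false true true .pp 2 0 2
    ndN0q2 ndN2q2a pcN0 Cut.none Ext.none :=
  certNK0 (fam := false) (s1 := true) (s2 := true) (a := 2) (b := 0) (c := 2) (cn := .pp) (n1 := ndN0q2) (n2 := ndN2q2a) (pc := pcN0) (cut := Cut.none) (xt := Ext.none) (P1 := 0) (W1 := 536870912) (P2 := 0) (W2 := 536870912) (P3 := 33554432) (W3 := 16777216) (N0 := 3)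
    rfl rfl rfl k0_pp_202_a

noncomputable def f_pp_202_b : ℕ → ℕ → ℕ → ℕ → Bool := onCell 0 536870912 1239849684 370763052 33554432 16777216
    (rowNK 3 0 false true true .pp 2 0 2 (qsf 0 536870912 1239849684 370763052 0) ndN0q2 ndN2q2b pcN0 Cut.none Ext.none)

def k0_pp_202_b : ∃ t, chk3 f_pp_202_b t 1 1 1 = true :=
  ⟨(l 3), by decide +kernel⟩

theorem c_pp_202_b : CertN 0 536870912 1239849684 370763052 33554432 16777216 3 false true true .pp 2 0 2
    ndN0q2 ndN2q2b pcN0 Cut.none Ext.none :=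
  certNK0 (fam := false) (s1 := true) (s2 := true) (a := 2) (b := 0) (c := 2) (cn := .pp) (n1 := ndN0q2) (n2 := ndN2q2b) (pc := pcN0) (cut := Cut.none) (xt := Ext.none) (P1 := 0) (W1 := 536870912) (P2 := 1239849684) (W2 := 370763052) (P3 := 33554432) (W3 := 16777216) (N0 := 3)
    rfl rfl rfl k0_pp_202_b

noncomputable def f_pp_203 : ℕ → ℕ → ℕ → ℕ → Bool := onCell 0 536870912 0 536870912 33554432 16777216
    (rowNK 3 1 false true true .up 2 0 3 (qsf 0 536870912 1610612736 536870912 0) ndN0q2 ndN2q3 pcN0 Cut.none Ext.none)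

def k0_pp_203 : ∃ t, chk3 f_pp_203 t 1 1 1 = true :=
  ⟨(l 3), by decide +kernel⟩

theorem c_pp_203 : CertN 0 536870912 1610612736 536870912 33554432 16777216 3 false true true .up 2 0 3
    ndN0q2 ndN2q3 pcN0 Cut.none Ext.none :=
  certNK1 (fam := false) (s1 := true) (s2 := true) (a := 2) (b := 0) (c := 3) (cn := .up) (n1 := ndN0q2) (n2 := ndN2q3) (pc := pcN0) (cut := Cut.none) (xt := Ext.none) (P1 := 0) (W1 := 536870912) (P2 := 1610612736) (W2 := 536870912) (P3 := 33554432) (W3 := 16777216) (N0 := 3)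
    rfl rfl rfl (fun _ => rfl) k0_pp_203

noncomputable def cut_pp_213 : Cut := Cut.of [[⟨0, 1, 0, 7061502⟩, ⟨1, 1, 0, 7061502⟩, ⟨2, 2, 0, 184626⟩]]

noncomputable def f_pp_213 : ℕ → ℕ → ℕ → ℕ → Bool := onCell 0 536870912 1610612736 536870912 33554432 16777216
    (rowNK 3 0 false true true .pnn 2 1 3 (qsf 0 536870912 1610612736 536870912 1) ndN0q2 ndN2q3 pcN1 cut_pp_213 Ext.none)

def k0_pp_213 : ∃ t, chk3 f_pp_213 t 1 1 1 = true :=
  ⟨(b (l 3) (a (l 3) (b (l 3) (a (l 3) (b (l 3) (a (l 3) (b (l 3) (a (l 3) (b (l 3) (a (l 3) (b (l 3) (a (l 3) (b (l 3) (a (l 3) (b (l 3) (b (l 3) (b (l 3) (b (l 3) (b (l 3) (l 6)))))))))))))))))))), by decide +kernel⟩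

theorem c_pp_213 : CertN 0 536870912 1610612736 536870912 33554432 16777216 3 false true true .pnn 2 1 3
    ndN0q2 ndN2q3 pcN1 cut_pp_213 Ext.none :=
  certNK0 (fam := false) (s1 := true) (s2 := true) (a := 2) (b := 1) (c := 3) (cn := .pnn) (n1 := ndN0q2) (n2 := ndN2q3) (pc := pcN1) (cut := cut_pp_213) (xt := Ext.none) (P1 := 0) (W1 := 536870912) (P2 := 1610612736) (W2 := 536870912) (P3 := 33554432) (W3 := 16777216) (N0 := 3)
    rfl rfl rfl k0_pp_213

noncomputable def f_pm_001 : ℕ → ℕ → ℕ → ℕ → Bool := onCell 0 536870912 536870912 536870912 33554432 16777216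
    (rowNK 3 0 false true false .up 0 0 1 (qsf 0 536870912 536870912 536870912 0) ndN0q0 ndN2q1 pcN0 Cut.none Ext.none)

def k0_pm_001 : ∃ t, chk3 f_pm_001 t 1 1 1 = true :=
  ⟨(l 4), by decide +kernel⟩

theorem c_pm_001 : CertN 0 536870912 536870912 536870912 33554432 16777216 3 false true false .up 0 0 1
    ndN0q0 ndN2q1 pcN0 Cut.none Ext.none :=
  certNK0 (fam := false) (s1 := true) (s2 := false) (a := 0) (b := 0) (c := 1) (cn := .up) (n1 := ndN0q0) (n2 := ndN2q1) (pc := pcN0) (cut := Cut.none) (xt := Ext.none) (P1 := 0) (W1 := 536870912) (P2 := 536870912) (W2 := 536870912) (P3 := 33554432) (W3 := 16777216) (N0 := 3)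
    rfl rfl rfl k0_pm_001

noncomputable def f_pm_011 : ℕ → ℕ → ℕ → ℕ → Bool := onCell 0 536870912 536870912 536870912 33554432 16777216
    (rowNK 3 0 false true false .pnn 0 1 1 (qsf 0 536870912 536870912 536870912 1) ndN0q0 ndN2q1 pcN1 Cut.none Ext.none)

def k0_pm_011 : ∃ t, chk3 f_pm_011 t 1 1 1 = true :=
  ⟨(l 4), by decide +kernel⟩

theorem c_pm_011 : CertN 0 536870912 536870912 536870912 33554432 16777216 3 false true false .pnn 0 1 1
    ndN0q0 ndN2q1 pcN1 Cut.none Ext.none :=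
  certNK0 (fam := false) (s1 := true) (s2 := false) (a := 0) (b := 1) (c := 1) (cn := .pnn) (n1 := ndN0q0) (n2 := ndN2q1) (pc := pcN1) (cut := Cut.none) (xt := Ext.none) (P1 := 0) (W1 := 536870912) (P2 := 536870912) (W2 := 536870912) (P3 := 33554432) (W3 := 16777216) (N0 := 3)
    rfl rfl rfl k0_pm_011

noncomputable def cut_pm_012_a : Cut := Cut.of [[⟨0, 0, 0, 33554432⟩, ⟨1, 1, 0, 33554432⟩, ⟨2, 1, 0, 33554432⟩], [⟨0, 0, 1, 25165824⟩, ⟨1, 1, 2, 25165824⟩, ⟨2, 1, 0, 16777216⟩, ⟨0, 0, 0, 67108864⟩, ⟨0, 1, 0, 1056964608⟩, ⟨1, 0, 0, 1056964608⟩, ⟨1, 1, 0, 67108864⟩]]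

noncomputable def f_pm_012_a : ℕ → ℕ → ℕ → ℕ → Bool := onCell 536870912 536870912 0 536870912 33554432 16777216
    (rowNK 3 2 false true false .pnp 0 1 2 (qsf 0 536870912 0 536870912 1) ndN0q0 ndN2q2a pcN1 cut_pm_012_a Ext.none)

def k0_pm_012_a : ∃ t, chk3 f_pm_012_a t 2 1 1 = true :=
  ⟨(b (a (l 18905152) (l 19150384)) (b (a (l 18881184) (l 19116024)) (b (a (l 18912624) (l 19030864)) (b (a (l 18857888) (l 18970424)) (b (a (l 18828272) (l 18900432)) (a (l 18790920) (l 18838440))))))), by decide +kernel⟩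

def k1_pm_012_a : ∃ t, chk3 f_pm_012_a t 3 2 1 = true :=
  ⟨(a (l 19483760) (a (l 19858264) (a (l 20216728) (a (l 20464064) (a (l 20597288) (l 20661464)))))), by decide +kernel⟩

def k2_pm_012_a : ∃ t, chk3 f_pm_012_a t 6 3 1 = true :=
  ⟨(b (a (l 19297752) (l 19403320)) (b (a (l 19086432) (l 19078520)) (b (a (l 18871600) (l 18771632)) (b (l 18802344) (a (l 18591080) (l 18373712)))))), by decide +kernel⟩

def k3_pm_012_a : ∃ t, chk3 f_pm_012_a t 7 6 1 = true :=
  ⟨(a (l 19688696) (a (l 19876344) (a (l 20040488) (a (l 20116352) (b (l 20366376) (l 19879432)))))), by decide +kernel⟩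

def k4_pm_012_a : ∃ t, chk3 f_pm_012_a t 14 7 1 = true :=
  ⟨(b (a (l 19116576) (l 19157664)) (b (a (l 18706904) (b (l 18743616) (l 18517312))) (b (a (l 18410984) (a (l 18300032) (l 18181240))) (a (l 18168400) (a (l 18003896) (b (l 17926896) (a (l 17793720) (l 17494352)))))))), by decide +kernel⟩

def k5_pm_012_a : ∃ t, chk3 f_pm_012_a t 15 14 1 = true :=
  ⟨(a (b (l 19363920) (a (l 18997736) (l 18877088))) (a (b (l 19341200) (a (b (l 18982816) (l 18651024)) (b (l 18873376) (c (l 18771496) (b (l 18279176) (l 17798584)))))) (a (b (l 19221184) (b (c (l 19023696) (a (l 18424832) (l 18229704))) (c (b (l 18675200) (a (l 18473016) (l 18296040))) (b (a (l 18039616) (c (l 18019016) (l 17565528))) (a (c (l 17915368) (l 17438160)) (c (a (l 17735072) (l 17593064)) (a (l 17285720) (l 17033224)))))))) (b (c (l 19440384) (b (l 18956376) (a (l 18607816) (l 18404672)))) (a (b (c (l 18862624) (b (l 18225336) (l 17662160))) (c (b (l 18425096) (c (l 18296456) (a (l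 17892792) (l 17674096)))) (b (c (l 17554672) (a (l 17386376) (l 17086520))) (a (b (l 17164968) (l 16953608)) (l 16782632))))) (b (c (l 18516240) (b (c (l 18211472) (l 17679680)) (c (a (l 17928928) (l 17779184)) (a (l 17460400) (b (l 17412256) (l 17187584)))))) (a (c (b (l 18249920) (c (l 18088384) (b (l 17677936) (l 17343000)))) (b (c (l 17353080) (l 16866280)) (l 16733592))) (c (b (c (l 18368368) (l 17784936)) (c (l 17666104) (b (l 17354456) (a (l 17237416) (l 17050016))))) (a (l 16702904) (a (l 16700616) (l 16702848))))))))))), by decide +kernel⟩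

def k6_pm_012_a : ∃ t, chk3 f_pm_012_a t 30 15 1 = true :=
  ⟨(b (a (b (l 18644344) (l 18260752)) (b (a (l 18537248) (l 18311528)) (a (b (l 18269672) (l 18024752)) (c (b (l 18341616) (l 18105344)) (b (l 17834776) (a (l 17678240) (l 17271328))))))) (b (b (a (l 17850456) (b (a (l 17817312) (c (l 17910008) (a (l 17484328) (l 17138056)))) (a (c (l 17995336) (l 17509976)) (c (l 17644776) (a (l 17242936) (a (l 17142560) (l 16991480))))))) (a (c (l 18048384) (a (l 17798656) (l 17503016))) (a (c (l 17663360) (l 14)) (l 14)))) (a (a (b (l 17583392) (c (l 17660168) (b (l 17450960) (a (l 17393800) (l 14))))) (b (c (l 17754104) (a (l 17357704) (l 14))) (c (b (l 17572816) (a (l 17497736) (l 14))) (l 14)))) (b (a (c (a (l 17479896) (l 14)) (l 14)) (l 14)) (l 14))))), by decide +kernel⟩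

def k7_pm_012_a : ∃ t, chk3 f_pm_012_a t 62 30 1 = true :=
  ⟨(b (a (c (l 18505608) (b (l 18072720) (a (l 17897112) (l 17714656)))) (c (b (l 18409840) (a (l 18200640) (l 17899568))) (b (a (l 17839664) (b (l 17713800) (l 17442344))) (a (b (l 17613312) (l 17322552)) (b (l 17115664) (a (l 17206536) (l 17029016))))))) (a (c (b (l 18067912) (a (l 17916080) (b (l 17827568) (l 17554128)))) (b (a (l 17524912) (a (l 17380104) (l 17142504))) (a (b (l 17324152) (l 17018608)) (b (l 16923848) (l 16781720))))) (a (c (b (l 17634160) (c (b (l 17801632) (l 17609944)) (b (l 17348248) (a (l 17302240) (l 17109568))))) (b (b (l 17019648) (l 16850464)) (b (l 16751192) (a (l 16750024) (l 16701688))))) (b (c (c (l 17711336) (b (l 17557080) (a (l 17424816) (l 17269152)))) (b (l 16773408) (l 16733824))) (b (c (c (l 17339552) (a (l 17189016) (l 16969240))) (l 16707560)) (a (l 16764808) (l 16707816))))))), by decide +kernel⟩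

def k8_pm_012_a : ∃ t, chk3 f_pm_012_a t 63 30 1 = true :=
  ⟨(a (a (b (c (b (l 18162336) (c (l 18007464) (b (l 17681400) (l 17240480)))) (a (b (l 17186536) (l 16796032)) (b (a (l 17137736) (l 17056816)) (l 16749416)))) (a (b (b (c (l 17359760) (l 16699488)) (l 16796632)) (b (l 16707080) (l 16731968))) (b (l 16709224) (b (l 16710408) (l 16714368))))) (b (b (a (c (l 17908744) (a (l 16970224) (l 16919392))) (c (c (l 18091456) (l 17495160)) (l 16767392))) (b (c (c (l 17842496) (a (l 17447968) (l 17176136))) (l 16700496)) (l 16709320))) (b (a (b (l 16706192) (l 16709896)) (b (l 16709472) (l 16713224))) (a (b (l 16713752) (l 16720376)) (b (l 16717120) (l 16723792)))))) (b (a (b (c (c (a (l 17949648) (l 17530304)) (b (a (l 17565328) (l 17288408)) (a (l 17232840) (l 16946192)))) (a (l 16699880) (l 16702096))) (a (l 16712240) (l 16714544))) (b (a (l 16704640) (b (l 16705200) (l 16708600))) (a (b (l 16709816) (l 16713424)) (b (l 16712120) (l 16715768)))))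 (a (b (a (b (l 16712432) (l 16716224)) (b (l 16714792) (l 16718632))) (a (b (l 16722792) (l 6)) (l 6))) (b (a (b (l 16717168) (l 6)) (a (l 16726144) (l 6))) (l 6))))), by decide +kernel⟩

def k9_pm_012_a : ∃ t, chk3 f_pm_012_a t 31 31 1 = true :=
  ⟨(a (a (a (b (b (b (c (l 17684584) (l 16830296)) (c (l 17266760) (a (l 16889704) (l 16834864)))) (l 14)) (l 14)) (a (b (b (b (c (l 17514592) (l 16874640)) (c (l 17141248) (l 16721448))) (l 14)) (l 14)) (b (b (b (c (l 17250368) (l 16712512)) (l 16774184)) (c (l 14) (b (b (l 16727920) (l 16731576)) (b (l 16736872) (l 16742192))))) (b (b (b (l 16747616) (l 16752976)) (b (l 16758504) (l 16745976))) (l 6))))) (a (b (b (a (b (l 16779376) (a (l 16725512) (l 16728488))) (b (l 16720104) (l 16730824))) (c (l 14) (b (a (b (b (l 16730464) (l 16731656)) (l 16733456)) (l 16735400)) (b (a (l 16737720) (b (l 16738448) (l 16739888))) (l 16726408))))) (c (l 14) (b (b (b (a (l 16748352) (l 16749176)) (l 16737056)) (l 6)) (l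 6)))) (b (a (b (b (l 16729768) (l 16744416)) (b (l 16721864) (b (l 16742256) (l 6)))) (b (b (l 16732816) (l 16719984)) (b (c (l 16724720) (l 16725936)) (l 6)))) (l 6)))) (b (a (b (a (b (a (b (l 16714040) (l 16716112)) (l 16721104)) (a (l 16723256) (l 16726712))) (b (a (l 16724544) (l 6)) (l 6))) (l 6)) (l 6)) (l 6))), by decide +kernel⟩

theorem s10_pm_012_a : ∃ t, chk3 f_pm_012_a t 31 30 1 = true := ex3_a k7_pm_012_a k8_pm_012_a

theorem s11_pm_012_a : ∃ t, chk3 f_pm_012_a t 31 15 1 = true := ex3_b s10_pm_012_a k9_pm_012_a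

theorem s12_pm_012_a : ∃ t, chk3 f_pm_012_a t 15 15 1 = true := ex3_a k6_pm_012_a s11_pm_012_a

theorem s13_pm_012_a : ∃ t, chk3 f_pm_012_a t 15 7 1 = true := ex3_b k5_pm_012_a s12_pm_012_a

theorem s14_pm_012_a : ∃ t, chk3 f_pm_012_a t 7 7 1 = true := ex3_a k4_pm_012_a s13_pm_012_a

theorem s15_pm_012_a : ∃ t, chk3 f_pm_012_a t 7 3 1 = true := ex3_b k3_pm_012_a s14_pm_012_a

theorem s16_pm_012_a : ∃ t, chk3 f_pm_012_a t 3 3 1 = true := ex3_a k2_pm_012_a s15_pm_012_a

theorem s17_pm_012_a : ∃ t, chk3 f_pm_012_a t 3 1 1 = true := ex3_b k1_pm_012_a s16_pm_012_a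

theorem s18_pm_012_a : ∃ t, chk3 f_pm_012_a t 1 1 1 = true := ex3_a k0_pm_012_a s17_pm_012_a

theorem c_pm_012_a : CertN 0 536870912 0 536870912 33554432 16777216 3 false true false .pnp 0 1 2
    ndN0q0 ndN2q2a pcN1 cut_pm_012_a Ext.none :=
  certNK2 (fam := false) (s1 := true) (s2 := false) (a := 0) (b := 1) (c := 2) (cn := .pnp) (n1 := ndN0q0) (n2 := ndN2q2a) (pc := pcN1) (cut := cut_pm_012_a) (xt := Ext.none) (P1 := 0) (W1 := 536870912) (P2 := 0) (W2 := 536870912) (P3 := 33554432) (W3 := 16777216) (N0 := 3)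
    rfl rfl rfl (fun _ => rfl) s18_pm_012_a

noncomputable def cut_pm_012_b : Cut := Cut.of [[⟨0, 0, 0, 33554432⟩, ⟨1, 1, 0, 33554432⟩, ⟨2, 1, 0, 33554432⟩], [⟨0, 0, 1, 25165824⟩, ⟨1, 1, 2, 25165824⟩, ⟨2, 1, 0, 16777216⟩, ⟨0, 0, 0, 67108864⟩, ⟨0, 1, 0, 1056964608⟩, ⟨1, 0, 0, 1056964608⟩, ⟨1, 1, 0, 67108864⟩]]

noncomputable def f_pm_012_b : ℕ → ℕ → ℕ → ℕ → Bool := onCell 536870912 536870912 1239849684 370763052 33554432 16777216
    (rowNK 3 2 false true false .pnp 0 1 2 (qsf 0 536870912 1239849684 370763052 1) ndN0q0 ndN2q2b pcN1 cut_pm_012_b Ext.none)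

def k0_pm_012_b : ∃ t, chk3 f_pm_012_b t 1 1 1 = true :=
  ⟨(a (b (a (l 2) (b (l 19358792) (l 18967064))) (l 2)) (b (a (b (l 19635200) (l 19388896)) (a (b (l 19930456) (l 19827624)) (a (b (l 20302416) (l 20119016)) (a (l 20650904) (a (l 20612768) (l 20706384)))))) (a (b (l 19158504) (l 2)) (a (b (l 19600864) (l 19280896)) (a (l 19698352) (a (l 19851776) (a (l 19937600) (l 20025536)))))))), by decide +kernel⟩

theorem c_pm_012_b : CertN 0 536870912 1239849684 370763052 33554432 16777216 3 false true false .pnp 0 1 2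
    ndN0q0 ndN2q2b pcN1 cut_pm_012_b Ext.none :=
  certNK2 (fam := false) (s1 := true) (s2 := false) (a := 0) (b := 1) (c := 2) (cn := .pnp) (n1 := ndN0q0) (n2 := ndN2q2b) (pc := pcN1) (cut := cut_pm_012_b) (xt := Ext.none) (P1 := 0) (W1 := 536870912) (P2 := 1239849684) (W2 := 370763052) (P3 := 33554432) (W3 := 16777216) (N0 := 3)
    rfl rfl rfl (fun _ => rfl) k0_pm_012_b

noncomputable def cut_pm_022_a : Cut := Cut.of [[⟨0, 0, 0, 33554432⟩, ⟨1, 1, 0, 33554432⟩, ⟨2, 1, 0, 33554432⟩]]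

noncomputable def f_pm_022_a : ℕ → ℕ → ℕ → ℕ → Bool := onCell 1073741824 536870912 0 536870912 33554432 16777216
    (rowNK 3 2 false true false .pp 0 2 2 (qsf 0 536870912 0 536870912 2) ndN0q0 ndN2q2a pcN2 cut_pm_022_a Ext.none)

def k0_pm_022_a : ∃ t, chk3 f_pm_022_a t 1 1 1 = true :=
  ⟨(a (a (a (a (b (l 20596792) (b (a (b (l 20312080) (l 19642352)) (l 829706133335)) (a (a (b (b (c (l 19310864) (b (l 18795176) (l 18265336))) (a (b (c (l 18580784) (b (l 17821984) (b (l 17482752) (l 17091224)))) (b (c (c (l 18272800) (l 17740112)) (a (l 16797472) (l 16851736))) (b (c (b (l 17602592) (l 17323336)) (l 16699408)) (l 16706672)))) (b (l 781384643079) (l 4)))) (b (b (a (b (a (l 16711024) (l 16706952)) (a (c (l 16720888) (l 16720200)) (l 4))) (l 4)) (l 6)) (l 6))) (l 4)) (l 4)))) (b (l 20311088) (l 4))) (l 4)) (l 4)) (l 1)), by decide +kernel⟩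

theorem c_pm_022_a : CertN 0 536870912 0 536870912 33554432 16777216 3 false true false .pp 0 2 2
    ndN0q0 ndN2q2a pcN2 cut_pm_022_a Ext.none :=
  certNK2 (fam := false) (s1 := true) (s2 := false) (a := 0) (b := 2) (c := 2) (cn := .pp) (n1 := ndN0q0) (n2 := ndN2q2a) (pc := pcN2) (cut := cut_pm_022_a) (xt := Ext.none) (P1 := 0) (W1 := 536870912) (P2 := 0) (W2 := 536870912) (P3 := 33554432) (W3 := 16777216) (N0 := 3)
    rfl rfl rfl (fun _ => rfl) k0_pm_022_a

noncomputable def cut_pm_022_b : Cut := Cut.of [[⟨0, 0, 0, 33554432⟩, ⟨1, 1, 0, 33554432⟩, ⟨2, 1, 0, 33554432⟩]]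

noncomputable def f_pm_022_b : ℕ → ℕ → ℕ → ℕ → Bool := onCell 1073741824 536870912 1239849684 370763052 33554432 16777216
    (rowNK 3 2 false true false .pp 0 2 2 (qsf 0 536870912 1239849684 370763052 2) ndN0q0 ndN2q2b pcN2 cut_pm_022_b Ext.none)

def k0_pm_022_b : ∃ t, chk3 f_pm_022_b t 1 1 1 = true :=
  ⟨(a (b (a (b (a (l 20689272) (l 20287600)) (l 20543960)) (l 4)) (a (b (l 20153600) (l 19845088)) (b (l 19850144) (l 19585952)))) (l 4)), by decide +kernel⟩

theorem c_pm_022_b : CertN 0 536870912 1239849684 370763052 33554432 16777216 3 false true false .pp 0 2 2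
    ndN0q0 ndN2q2b pcN2 cut_pm_022_b Ext.none :=
  certNK2 (fam := false) (s1 := true) (s2 := false) (a := 0) (b := 2) (c := 2) (cn := .pp) (n1 := ndN0q0) (n2 := ndN2q2b) (pc := pcN2) (cut := cut_pm_022_b) (xt := Ext.none) (P1 := 0) (W1 := 536870912) (P2 := 1239849684) (W2 := 370763052) (P3 := 33554432) (W3 := 16777216) (N0 := 3)
    rfl rfl rfl (fun _ => rfl) k0_pm_022_b

noncomputable def f_pm_023 : ℕ → ℕ → ℕ → ℕ → Bool := onCell 0 536870912 1073741824 536870912 33554432 16777216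
    (rowNK 3 1 false true false .up 0 2 3 (qsf 0 536870912 1610612736 536870912 2) ndN0q0 ndN2q3 pcN2 Cut.none Ext.none)

def k0_pm_023 : ∃ t, chk3 f_pm_023 t 1 1 1 = true :=
  ⟨(a (b (a (l 1) (b (l 1) (l 19868080))) (b (l 4) (l 4))) (b (a (b (l 20104504) (l 19440832)) (b (l 19888376) (l 19205696))) (b (a (l 18635152) (l 18453664)) (a (l 17910752) (l 17822760))))), by decide +kernel⟩

theorem c_pm_023 : CertN 0 536870912 1610612736 536870912 33554432 16777216 3 false true false .up 0 2 3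
    ndN0q0 ndN2q3 pcN2 Cut.none Ext.none :=
  certNK1 (fam := false) (s1 := true) (s2 := false) (a := 0) (b := 2) (c := 3) (cn := .up) (n1 := ndN0q0) (n2 := ndN2q3) (pc := pcN2) (cut := Cut.none) (xt := Ext.none) (P1 := 0) (W1 := 536870912) (P2 := 1610612736) (W2 := 536870912) (P3 := 33554432) (W3 := 16777216) (N0 := 3)
    rfl rfl rfl (fun _ => rfl) k0_pm_023

noncomputable def f_pm_033 : ℕ → ℕ → ℕ → ℕ → Bool := onCell 1610612736 536870912 1610612736 536870912 33554432 16777216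
    (rowNK 3 2 false true false .pnn 0 3 3 (qsf 0 536870912 1610612736 536870912 3) ndN0q0 ndN2q3 pcN3 Cut.none Ext.none)

def k0_pm_033 : ∃ t, chk3 f_pm_033 t 1 1 1 = true :=
  ⟨(a (b (l 4) (a (b (a (l 17767656) (l 4)) (a (l 17306088) (l 17492072))) (b (l 4) (a (l 17646440) (l 4))))) (l 4)), by decide +kernel⟩

theorem c_pm_033 : CertN 0 536870912 1610612736 536870912 33554432 16777216 3 false true false .pnn 0 3 3
    ndN0q0 ndN2q3 pcN3 Cut.none Ext.none :=
  certNK2 (fam := false) (s1 := true) (s2 := false) (a := 0) (b := 3) (c := 3) (cn := .pnn) (n1 := ndN0q0) (n2 := ndN2q3) (pc := pcN3) (cut := Cut.none) (xt := Ext.none) (P1 := 0) (W1 := 536870912) (P2 := 1610612736) (W2 := 536870912) (P3 := 33554432) (W3 := 16777216) (N0 := 3)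
    rfl rfl rfl (fun _ => rfl) k0_pm_033

noncomputable def f_pm_101 : ℕ → ℕ → ℕ → ℕ → Bool := onCell 536870912 536870912 536870912 536870912 33554432 16777216
    (rowNK 3 0 false true false .npn 1 0 1 (qsf 536870912 536870912 536870912 536870912 0) ndN0q1 ndN2q1 pcN0 Cut.none Ext.none)

def k0_pm_101 : ∃ t, chk3 f_pm_101 t 1 1 1 = true :=
  ⟨(l 4), by decide +kernel⟩

theorem c_pm_101 : CertN 536870912 536870912 536870912 536870912 33554432 16777216 3 false true false .npn 1 0 1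
    ndN0q1 ndN2q1 pcN0 Cut.none Ext.none :=
  certNK0 (fam := false) (s1 := true) (s2 := false) (a := 1) (b := 0) (c := 1) (cn := .npn) (n1 := ndN0q1) (n2 := ndN2q1) (pc := pcN0) (cut := Cut.none) (xt := Ext.none) (P1 := 536870912) (W1 := 536870912) (P2 := 536870912) (W2 := 536870912) (P3 := 33554432) (W3 := 16777216) (N0 := 3)
    rfl rfl rfl k0_pm_101

noncomputable def cut_pm_102_a : Cut := Cut.of [[⟨0, 1, 0, 33554432⟩, ⟨1, 0, 0, 33554432⟩, ⟨2, 1, 0, 33554432⟩], [⟨0, 1, 0, 6291456⟩, ⟨1, 0, 1, 16777216⟩, ⟨2, 1, 1, 16777216⟩, ⟨1, 0, 0, 67108864⟩, ⟨1, 1, 0, 1056964608⟩, ⟨2, 1, 0, 67108864⟩, ⟨2, 2, 0, 1056964608⟩]]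

noncomputable def f_pm_102_a : ℕ → ℕ → ℕ → ℕ → Bool := onCell 536870912 536870912 0 536870912 33554432 16777216
    (rowNK 3 0 false true false .npp 1 0 2 (qsf 536870912 536870912 0 536870912 0) ndN0q1 ndN2q2a pcN0 cut_pm_102_a Ext.none)

def k0_pm_102_a : ∃ t, chk3 f_pm_102_a t 1 1 1 = true :=
  ⟨(a (b (a (l 17981496) (l 17696080)) (b (a (l 18065440) (l 17773160)) (b (a (l 18139456) (l 17840232)) (b (a (l 18184312) (l 17878792)) (b (a (l 18208928) (l 17900552)) (a (l 18340624) (a (l 17930528) (l 17847096)))))))) (b (a (a (l 17560424) (l 17304208)) (a (a (l 17055648) (l 17232912)) (a (l 17675944) (a (l 17783832) (l 18094104))))) (a (b (a (l 17630768) (l 17368792)) (b (a (l 17691192) (l 17424088)) (b (a (l 17724088) (l 17452888)) (b (a (l 17743192) (l 17470064)) (a (l 17752248) (l 17540088)))))) (b (a (a (l 17121880) (l 17125408)) (a (b (l 17362488) (l 17190328)) (a (l 17784064) (b (l 17862392) (a (l 17649920) (b (l 17814744) (l 17692920))))))) (b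 (a (l 17097896) (a (l 17107344) (a (l 16948760) (a (b (l 17421128) (l 17164672)) (a (b (l 17480048) (l 17165248)) (b (a (l 17503288) (b (l 17582072) (b (l 17480312) (l 17272472)))) (a (l 16933568) (b (a (l 17249656) (c (l 17330488) (a (l 17073192) (b (l 17024032) (l 14))))) (b (b (c (l 17185112) (l 14)) (l 14)) (l 14)))))))))) (b (a (l 17122088) (a (a (l 16946288) (l 16886392)) (a (l 16905536) (a (l 16835872) (a (b (l 16775392) (l 16779784)) (a (b (l 16758768) (l 16762312)) (a (b (l 16762096) (l 16765504)) (b (a (l 16763720) (b (l 14) (c (l 14) (a (l 16765152) (b (l 14) (c (l 14) (a (l 16765864) (b (a (l 16765848) (a (l 16765944) (b (b (l 14) (l 16765960)) (l 6)))) (l 6))))))))) (l 6))))))))) (b (a (l 17137080) (a (l 16929920) (a (l 16842656) (b (a (l 16797768) (l 6)) (l 6))))) (a (a (l 17222928) (l 17086984)) (a (l 17041960) (a (l 16956752) (l 6))))))))))), by decide +kernel⟩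

theorem c_pm_102_a : CertN 536870912 536870912 0 536870912 33554432 16777216 3 false true false .npp 1 0 2
    ndN0q1 ndN2q2a pcN0 cut_pm_102_a Ext.none :=
  certNK0 (fam := false) (s1 := true) (s2 := false) (a := 1) (b := 0) (c := 2) (cn := .npp) (n1 := ndN0q1) (n2 := ndN2q2a) (pc := pcN0) (cut := cut_pm_102_a) (xt := Ext.none) (P1 := 536870912) (W1 := 536870912) (P2 := 0) (W2 := 536870912) (P3 := 33554432) (W3 := 16777216) (N0 := 3)
    rfl rfl rfl k0_pm_102_a

noncomputable def cut_pm_102_b : Cut := Cut.of [[⟨0, 1, 0, 33554432⟩, ⟨1, 0, 0, 33554432⟩, ⟨2, 1, 0, 33554432⟩], [⟨0, 1, 0, 6291456⟩, ⟨1, 0, 1, 16777216⟩, ⟨2, 1, 1, 16777216⟩, ⟨1, 0, 0, 67108864⟩, ⟨1, 1, 0, 1056964608⟩, ⟨2, 1, 0, 67108864⟩, ⟨2, 2, 0, 1056964608⟩]]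

noncomputable def f_pm_102_b : ℕ → ℕ → ℕ → ℕ → Bool := onCell 536870912 536870912 1239849684 370763052 33554432 16777216
    (rowNK 3 0 false true false .npp 1 0 2 (qsf 536870912 536870912 1239849684 370763052 0) ndN0q1 ndN2q2b pcN0 cut_pm_102_b Ext.none)

def k0_pm_102_b : ∃ t, chk3 f_pm_102_b t 1 1 1 = true :=
  ⟨(a (a (l 2) (a (l 17368992) (l 17321288))) (b (a (a (l 17404128) (b (a (l 17305000) (l 17179144)) (a (l 17176368) (l 17180608)))) (b (a (a (l 17191232) (l 17431992)) (a (l 17668160) (b (l 18018544) (l 17888752)))) (a (l 17496912) (a (l 17694800) (l 17866016))))) (a (a (l 2) (b (l 17206544) (l 2))) (a (b (l 17546560) (l 17562280)) (b (a (l 17704824) (l 17704264)) (a (l 17693216) (l 17660760))))))), by decide +kernel⟩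

theorem c_pm_102_b : CertN 536870912 536870912 1239849684 370763052 33554432 16777216 3 false true false .npp 1 0 2
    ndN0q1 ndN2q2b pcN0 cut_pm_102_b Ext.none :=
  certNK0 (fam := false) (s1 := true) (s2 := false) (a := 1) (b := 0) (c := 2) (cn := .npp) (n1 := ndN0q1) (n2 := ndN2q2b) (pc := pcN0) (cut := cut_pm_102_b) (xt := Ext.none) (P1 := 536870912) (W1 := 536870912) (P2 := 1239849684) (W2 := 370763052) (P3 := 33554432) (W3 := 16777216) (N0 := 3)
    rfl rfl rfl k0_pm_102_b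

noncomputable def f_pm_112_a : ℕ → ℕ → ℕ → ℕ → Bool := onCell 536870912 536870912 0 536870912 33554432 16777216
    (rowNK 3 0 false true false .dn 1 1 2 (qsf 536870912 536870912 0 536870912 1) ndN0q1 ndN2q2a pcN1 Cut.none Ext.none)

def k0_pm_112_a : ∃ t, chk3 f_pm_112_a t 1 1 1 = true :=
  ⟨(a (a (b (l 18920288) (b (l 18860296) (b (l 18806512) (b (l 18779032) (b (l 18760864) (l 18746400)))))) (b (l 18728760) (b (l 1) (l 1)))) (l 1)), by decide +kernel⟩

theorem c_pm_112_a : CertN 536870912 536870912 0 536870912 33554432 16777216 3 false true false .dn 1 1 2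
    ndN0q1 ndN2q2a pcN1 Cut.none Ext.none :=
  certNK0 (fam := false) (s1 := true) (s2 := false) (a := 1) (b := 1) (c := 2) (cn := .dn) (n1 := ndN0q1) (n2 := ndN2q2a) (pc := pcN1) (cut := Cut.none) (xt := Ext.none) (P1 := 536870912) (W1 := 536870912) (P2 := 0) (W2 := 536870912) (P3 := 33554432) (W3 := 16777216) (N0 := 3)
    rfl rfl rfl k0_pm_112_a

noncomputable def f_pm_112_b : ℕ → ℕ → ℕ → ℕ → Bool := onCell 536870912 536870912 1239849684 370763052 33554432 16777216
    (rowNK 3 2 false true false .dn 1 1 2 (qsf 536870912 536870912 1239849684 370763052 1) ndN0q1 ndN2q2b pcN1 Cut.none Ext.none)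

def k0_pm_112_b : ∃ t, chk3 f_pm_112_b t 1 1 1 = true :=
  ⟨(a (b (a (b (l 18880656) (l 18616016)) (b (l 19127648) (l 18967000))) (a (b (a (l 18199640) (l 18405872)) (a (b (l 17771120) (l 17587632)) (l 17986920))) (b (l 18710848) (a (l 18249104) (l 18469944))))) (b (a (b (l 1) (l 19389880)) (l 1)) (a (b (l 19158464) (l 18836920)) (a (l 242704985527) (a (l 19703672) (a (l 19859472) (a (l 19946560) (l 20036392)))))))), by decide +kernel⟩

theorem c_pm_112_b : CertN 536870912 536870912 1239849684 370763052 33554432 16777216 3 false true false .dn 1 1 2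
    ndN0q1 ndN2q2b pcN1 Cut.none Ext.none :=
  certNK2 (fam := false) (s1 := true) (s2 := false) (a := 1) (b := 1) (c := 2) (cn := .dn) (n1 := ndN0q1) (n2 := ndN2q2b) (pc := pcN1) (cut := Cut.none) (xt := Ext.none) (P1 := 536870912) (W1 := 536870912) (P2 := 1239849684) (W2 := 370763052) (P3 := 33554432) (W3 := 16777216) (N0 := 3)
    rfl rfl rfl (fun _ => rfl) k0_pm_112_b

noncomputable def cut_pm_113 : Cut := Cut.of [[⟨0, 1, 0, 7061502⟩, ⟨1, 1, 0, 7061502⟩, ⟨2, 2, 0, 184626⟩]]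

noncomputable def f_pm_113 : ℕ → ℕ → ℕ → ℕ → Bool := onCell 536870912 536870912 536870912 536870912 33554432 16777216
    (rowNK 3 1 false true false .nn 1 1 3 (qsf 536870912 536870912 1610612736 536870912 1) ndN0q1 ndN2q3 pcN1 cut_pm_113 Ext.none)

def k0_pm_113 : ∃ t, chk3 f_pm_113 t 1 1 1 = true :=
  ⟨(a (b (a (l 1) (l 174520721095)) (b (a (l 19182648) (l 18913096)) (b (a (l 19444256) (l 18994536)) (b (a (l 19569368) (l 19014288)) (b (a (l 19634392) (l 19020024)) (b (a (l 19667080) (l 19021584)) (a (l 19687344) (l 19020984)))))))) (b (b (a (b (l 1) (l 18361496)) (a (l 18030064) (b (l 17565536) (l 17599144)))) (a (a (l 18552768) (l 18318264)) (a (l 18059960) (b (l 17638992) (l 17561976))))) (a (b (a (l 18635200) (l 18305512)) (b (l 18615920) (b (l 18561440) (b (l 18455552) (b (l 18452504) (l 18304080)))))) (b (a (l 18075888) (b (l 17489248) (a (l 17542280) (l 17359304)))) (a (b (l 17824920) (l 17674200)) (b (a (l 17496176) (a (l 17334304) (l 17327480)))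 (a (l 17377320) (a (l 17180072) (b (l 17174592) (a (l 16970064) (b (l 16992624) (a (l 16877328) (b (l 16889968) (a (l 16828280) (b (l 16845520) (b (l 16826368) (a (l 16796432) (a (l 16790176) (b (l 16810312) (b (l 16794832) (a (l 16782040) (b (l 16786032) (a (l 16779624) (b (l 16781624) (b (l 16779680) (a (l 16778208) (l 6))))))))))))))))))))))))))), by decide +kernel⟩

theorem c_pm_113 : CertN 536870912 536870912 1610612736 536870912 33554432 16777216 3 false true false .nn 1 1 3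
    ndN0q1 ndN2q3 pcN1 cut_pm_113 Ext.none :=
  certNK1 (fam := false) (s1 := true) (s2 := false) (a := 1) (b := 1) (c := 3) (cn := .nn) (n1 := ndN0q1) (n2 := ndN2q3) (pc := pcN1) (cut := cut_pm_113) (xt := Ext.none) (P1 := 536870912) (W1 := 536870912) (P2 := 1610612736) (W2 := 536870912) (P3 := 33554432) (W3 := 16777216) (N0 := 3)
    rfl rfl rfl (fun _ => rfl) k0_pm_113

noncomputable def cut_pm_123 : Cut := Cut.of [[⟨0, 1, 0, 7061502⟩, ⟨1, 1, 0, 7061502⟩, ⟨2, 2, 0, 184626⟩]]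

noncomputable def f_pm_123 : ℕ → ℕ → ℕ → ℕ → Bool := onCell 1073741824 536870912 1610612736 536870912 33554432 16777216
    (rowNK 3 2 false true false .npn 1 2 3 (qsf 536870912 536870912 1610612736 536870912 2) ndN0q1 ndN2q3 pcN2 cut_pm_123 Ext.none)

def k0_pm_123 : ∃ t, chk3 f_pm_123 t 1 1 1 = true :=
  ⟨(a (b (a (b (a (l 19799800) (l 19609576)) (a (l 19230360) (l 19138448))) (b (a (l 19450504) (l 1)) (a (l 19116048) (l 18910904)))) (a (b (a (a (a (a (l 18511240) (l 18551416)) (l 18521992)) (l 18522632)) (b (l 18673432) (l 18362760))) (a (a (a (a (b (l 17688000) (b (l 17241632) (b (l 17016568) (b (l 16900952) (b (l 16842096) (a (b (l 16809648) (b (l 16794864) (b (l 16787472) (b (l 16783776) (b (l 16792408) (l 6)))))) (l 16805568))))))) (b (l 17707992) (b (l 17254848) (l 16951000)))) (b (l 17741648) (b (l 17279112) (l 16972184)))) (b (l 17813272) (b (l 17344400) (l 17021840)))) (b (l 17925632) (b (l 17502568) (l 17165592))))) (b (a (l 18513368)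 (l 18445912)) (b (a (l 18003008) (l 17989296)) (a (l 17534416) (l 17640416)))))) (b (a (b (l 1) (a (l 18701952) (l 1))) (l 1)) (a (b (a (l 18413488) (l 18173216)) (a (l 17900160) (l 17808296))) (b (a (l 17965280) (l 1)) (a (l 17813576) (l 17652096)))))), by decide +kernel⟩

theorem c_pm_123 : CertN 536870912 536870912 1610612736 536870912 33554432 16777216 3 false true false .npn 1 2 3
    ndN0q1 ndN2q3 pcN2 cut_pm_123 Ext.none :=
  certNK2 (fam := false) (s1 := true) (s2 := false) (a := 1) (b := 2) (c := 3) (cn := .npn) (n1 := ndN0q1) (n2 := ndN2q3) (pc := pcN2) (cut := cut_pm_123) (xt := Ext.none) (P1 := 536870912) (W1 := 536870912) (P2 := 1610612736) (W2 := 536870912) (P3 := 33554432) (W3 := 16777216) (N0 := 3)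
    rfl rfl rfl (fun _ => rfl) k0_pm_123

noncomputable def f_pm_133 : ℕ → ℕ → ℕ → ℕ → Bool := onCell 536870912 536870912 1610612736 536870912 33554432 16777216
    (rowNK 3 0 false true false .dn 1 3 3 (qsf 536870912 536870912 1610612736 536870912 3) ndN0q1 ndN2q3 pcN3 Cut.none Ext.none)

def k0_pm_133 : ∃ t, chk3 f_pm_133 t 1 1 1 = true :=
  ⟨(a (b (l 1) (a (b (l 1) (a (l 17262784) (l 1))) (l 1))) (l 1)), by decide +kernel⟩

theorem c_pm_133 : CertN 536870912 536870912 1610612736 536870912 33554432 16777216 3 false true false .dn 1 3 3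
    ndN0q1 ndN2q3 pcN3 Cut.none Ext.none :=
  certNK0 (fam := false) (s1 := true) (s2 := false) (a := 1) (b := 3) (c := 3) (cn := .dn) (n1 := ndN0q1) (n2 := ndN2q3) (pc := pcN3) (cut := Cut.none) (xt := Ext.none) (P1 := 536870912) (W1 := 536870912) (P2 := 1610612736) (W2 := 536870912) (P3 := 33554432) (W3 := 16777216) (N0 := 3)
    rfl rfl rfl k0_pm_133

noncomputable def cut_pm_202_a : Cut := Cut.of [[⟨0, 1, 0, 33554432⟩, ⟨1, 0, 0, 33554432⟩, ⟨2, 1, 0, 33554432⟩], [⟨0, 1, 0, 6291456⟩, ⟨1, 0, 1, 16777216⟩, ⟨2, 1, 1, 16777216⟩, ⟨1, 0, 0, 67108864⟩, ⟨1, 1, 0, 1056964608⟩, ⟨2, 1, 0, 67108864⟩, ⟨2, 2, 0, 1056964608⟩]]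

noncomputable def f_pm_202_a : ℕ → ℕ → ℕ → ℕ → Bool := onCell 0 536870912 0 536870912 33554432 16777216
    (rowNK 3 0 false true false .pp 2 0 2 (qsf 0 536870912 0 536870912 0) ndN0q2 ndN2q2a pcN0 cut_pm_202_a Ext.none)

def k0_pm_202_a : ∃ t, chk3 f_pm_202_a t 1 1 1 = true :=
  ⟨(a (l 3) (a (l 3) (a (l 3) (a (l 3) (b (l 117208367783) (a (l 3) (a (l 3) (b (b (l 17997304) (l 121502673127)) (a (l 3) (a (l 3) (a (l 3) (b (b (c (l 17649008) (b (l 17474408) (l 129554707191))) (b (c (l 128481136247) (b (c (l 131165166295) (l 14)) (l 14))) (c (b (c (l 130628435943) (l 14)) (l 14)) (l 14)))) (b (b (a (l 3) (b (l 14) (c (l 14) (a (l 3) (b (l 14) (c (l 14) (a (l 3) (b (b (b (l 14) (c (l 14) (l 156934055719))) (l 6)) (l 6))))))))) (l 6)) (l 6)))))))))))))), by decide +kernel⟩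

theorem c_pm_202_a : CertN 0 536870912 0 536870912 33554432 16777216 3 false true false .pp 2 0 2
    ndN0q2 ndN2q2a pcN0 cut_pm_202_a Ext.none :=
  certNK0 (fam := false) (s1 := true) (s2 := false) (a := 2) (b := 0) (c := 2) (cn := .pp) (n1 := ndN0q2) (n2 := ndN2q2a) (pc := pcN0) (cut := cut_pm_202_a) (xt := Ext.none) (P1 := 0) (W1 := 536870912) (P2 := 0) (W2 := 536870912) (P3 := 33554432) (W3 := 16777216) (N0 := 3)
    rfl rfl rfl k0_pm_202_a

noncomputable def cut_pm_202_b : Cut := Cut.of [[⟨0, 1, 0, 33554432⟩, ⟨1, 0, 0, 33554432⟩, ⟨2, 1, 0, 33554432⟩], [⟨0, 1, 0, 6291456⟩, ⟨1, 0, 1, 16777216⟩, ⟨2, 1, 1, 16777216⟩, ⟨1, 0, 0, 67108864⟩, ⟨1, 1, 0, 1056964608⟩, ⟨2, 1, 0, 67108864⟩, ⟨2, 2, 0, 1056964608⟩]]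

noncomputable def f_pm_202_b : ℕ → ℕ → ℕ → ℕ → Bool := onCell 0 536870912 1239849684 370763052 33554432 16777216
    (rowNK 3 0 false true false .pp 2 0 2 (qsf 0 536870912 1239849684 370763052 0) ndN0q2 ndN2q2b pcN0 cut_pm_202_b Ext.none)

def k0_pm_202_b : ∃ t, chk3 f_pm_202_b t 1 1 1 = true :=
  ⟨(a (l 3) (a (l 3) (a (l 3) (a (l 3) (b (b (b (l 118282573383) (l 18037232)) (l 131166452247)) (b (l 17640896) (l 17628976))))))), by decide +kernel⟩

theorem c_pm_202_b : CertN 0 536870912 1239849684 370763052 33554432 16777216 3 false true false .pp 2 0 2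
    ndN0q2 ndN2q2b pcN0 cut_pm_202_b Ext.none :=
  certNK0 (fam := false) (s1 := true) (s2 := false) (a := 2) (b := 0) (c := 2) (cn := .pp) (n1 := ndN0q2) (n2 := ndN2q2b) (pc := pcN0) (cut := cut_pm_202_b) (xt := Ext.none) (P1 := 0) (W1 := 536870912) (P2 := 1239849684) (W2 := 370763052) (P3 := 33554432) (W3 := 16777216) (N0 := 3)
    rfl rfl rfl k0_pm_202_b

noncomputable def f_pm_203 : ℕ → ℕ → ℕ → ℕ → Bool := onCell 0 536870912 0 536870912 33554432 16777216
    (rowNK 3 1 false true false .up 2 0 3 (qsf 0 536870912 1610612736 536870912 0) ndN0q2 ndN2q3 pcN0 Cut.none Ext.none)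

def k0_pm_203 : ∃ t, chk3 f_pm_203 t 1 1 1 = true :=
  ⟨(b (l 1) (a (l 3) (a (l 3) (a (l 3) (b (l 1) (l 134924173447)))))), by decide +kernel⟩

theorem c_pm_203 : CertN 0 536870912 1610612736 536870912 33554432 16777216 3 false true false .up 2 0 3
    ndN0q2 ndN2q3 pcN0 Cut.none Ext.none :=
  certNK1 (fam := false) (s1 := true) (s2 := false) (a := 2) (b := 0) (c := 3) (cn := .up) (n1 := ndN0q2) (n2 := ndN2q3) (pc := pcN0) (cut := Cut.none) (xt := Ext.none) (P1 := 0) (W1 := 536870912) (P2 := 1610612736) (W2 := 536870912) (P3 := 33554432) (W3 := 16777216) (N0 := 3)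
    rfl rfl rfl (fun _ => rfl) k0_pm_203

noncomputable def cut_pm_213 : Cut := Cut.of [[⟨0, 1, 0, 7061502⟩, ⟨1, 1, 0, 7061502⟩, ⟨2, 2, 0, 184626⟩]]

noncomputable def f_pm_213 : ℕ → ℕ → ℕ → ℕ → Bool := onCell 0 536870912 1610612736 536870912 33554432 16777216
    (rowNK 3 0 false true false .pnn 2 1 3 (qsf 0 536870912 1610612736 536870912 1) ndN0q2 ndN2q3 pcN1 cut_pm_213 Ext.none)

def k0_pm_213 : ∃ t, chk3 f_pm_213 t 1 1 1 = true :=
  ⟨(a (l 3) (a (l 3) (b (a (l 3) (b (b (l 168746804807) (l 17493040)) (b (l 173578809719) (l 196664141607)))) (a (l 3) (a (l 3) (b (b (l 17306144) (l 221359873015)) (a (l 3) (a (l 3) (b (l 17244496) (b (l 17132000) (b (l 260550440599) (a (l 3) (b (l 265382149831) (a (l 3) (b (l 268603304439) (b (l 270213878807) (b (l 270750751015) (a (l 3) (b (l 271287612871) (a (l 3) (b (l 271287597815) (b (c (l 271287589959) (l 270750719239)) (l 6))))))))))))))))))))))), by decide +kernel⟩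

theorem c_pm_213 : CertN 0 536870912 1610612736 536870912 33554432 16777216 3 false true false .pnn 2 1 3
    ndN0q2 ndN2q3 pcN1 cut_pm_213 Ext.none :=
  certNK0 (fam := false) (s1 := true) (s2 := false) (a := 2) (b := 1) (c := 3) (cn := .pnn) (n1 := ndN0q2) (n2 := ndN2q3) (pc := pcN1) (cut := cut_pm_213) (xt := Ext.none) (P1 := 0) (W1 := 536870912) (P2 := 1610612736) (W2 := 536870912) (P3 := 33554432) (W3 := 16777216) (N0 := 3)
    rfl rfl rfl k0_pm_213

noncomputable def f_mm_001 : ℕ → ℕ → ℕ → ℕ → Bool := onCell 0 536870912 0 536870912 33554432 16777216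
    (rowNK 3 1 false false false .up 0 0 1 (qsf 0 536870912 536870912 536870912 0) ndN0q0 ndN2q1 pcN0 Cut.none Ext.none)

def k0_mm_001 : ∃ t, chk3 f_mm_001 t 1 1 1 = true :=
  ⟨(l 3), by decide +kernel⟩

theorem c_mm_001 : CertN 0 536870912 536870912 536870912 33554432 16777216 3 false false false .up 0 0 1
    ndN0q0 ndN2q1 pcN0 Cut.none Ext.none :=
  certNK1 (fam := false) (s1 := false) (s2 := false) (a := 0) (b := 0) (c := 1) (cn := .up) (n1 := ndN0q0) (n2 := ndN2q1) (pc := pcN0) (cut := Cut.none) (xt := Ext.none) (P1 := 0) (W1 := 536870912) (P2 := 536870912) (W2 := 536870912) (P3 := 33554432) (W3 := 16777216) (N0 := 3)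
    rfl rfl rfl (fun _ => rfl) k0_mm_001

noncomputable def f_mm_011 : ℕ → ℕ → ℕ → ℕ → Bool := onCell 0 536870912 536870912 536870912 33554432 16777216
    (rowNK 3 1 false false false .pnn 0 1 1 (qsf 0 536870912 536870912 536870912 1) ndN0q0 ndN2q1 pcN1 Cut.none Ext.none)

def k0_mm_011 : ∃ t, chk3 f_mm_011 t 1 1 1 = true :=
  ⟨(l 5), by decide +kernel⟩

theorem c_mm_011 : CertN 0 536870912 536870912 536870912 33554432 16777216 3 false false false .pnn 0 1 1
    ndN0q0 ndN2q1 pcN1 Cut.none Ext.none :=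
  certNK1 (fam := false) (s1 := false) (s2 := false) (a := 0) (b := 1) (c := 1) (cn := .pnn) (n1 := ndN0q0) (n2 := ndN2q1) (pc := pcN1) (cut := Cut.none) (xt := Ext.none) (P1 := 0) (W1 := 536870912) (P2 := 536870912) (W2 := 536870912) (P3 := 33554432) (W3 := 16777216) (N0 := 3)
    rfl rfl rfl (fun _ => rfl) k0_mm_011

noncomputable def f_mm_012_a : ℕ → ℕ → ℕ → ℕ → Bool := onCell 0 536870912 0 536870912 33554432 16777216
    (rowNK 3 0 false false false .pnp 0 1 2 (qsf 0 536870912 0 536870912 1) ndN0q0 ndN2q2a pcN1 Cut.none Ext.none)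

def k0_mm_012_a : ∃ t, chk3 f_mm_012_a t 1 1 1 = true :=
  ⟨(l 5), by decide +kernel⟩

theorem c_mm_012_a : CertN 0 536870912 0 536870912 33554432 16777216 3 false false false .pnp 0 1 2
    ndN0q0 ndN2q2a pcN1 Cut.none Ext.none :=
  certNK0 (fam := false) (s1 := false) (s2 := false) (a := 0) (b := 1) (c := 2) (cn := .pnp) (n1 := ndN0q0) (n2 := ndN2q2a) (pc := pcN1) (cut := Cut.none) (xt := Ext.none) (P1 := 0) (W1 := 536870912) (P2 := 0) (W2 := 536870912) (P3 := 33554432) (W3 := 16777216) (N0 := 3)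
    rfl rfl rfl k0_mm_012_a

noncomputable def f_mm_012_b : ℕ → ℕ → ℕ → ℕ → Bool := onCell 0 536870912 1239849684 370763052 33554432 16777216
    (rowNK 3 0 false false false .pnp 0 1 2 (qsf 0 536870912 1239849684 370763052 1) ndN0q0 ndN2q2b pcN1 Cut.none Ext.none)

def k0_mm_012_b : ∃ t, chk3 f_mm_012_b t 1 1 1 = true :=
  ⟨(l 5), by decide +kernel⟩

theorem c_mm_012_b : CertN 0 536870912 1239849684 370763052 33554432 16777216 3 false false false .pnp 0 1 2
    ndN0q0 ndN2q2b pcN1 Cut.none Ext.none :=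
  certNK0 (fam := false) (s1 := false) (s2 := false) (a := 0) (b := 1) (c := 2) (cn := .pnp) (n1 := ndN0q0) (n2 := ndN2q2b) (pc := pcN1) (cut := Cut.none) (xt := Ext.none) (P1 := 0) (W1 := 536870912) (P2 := 1239849684) (W2 := 370763052) (P3 := 33554432) (W3 := 16777216) (N0 := 3)
    rfl rfl rfl k0_mm_012_b

noncomputable def f_mm_022_a : ℕ → ℕ → ℕ → ℕ → Bool := onCell 0 536870912 0 536870912 33554432 16777216
    (rowNK 3 0 false false false .pp 0 2 2 (qsf 0 536870912 0 536870912 2) ndN0q0 ndN2q2a pcN2 Cut.none Ext.none)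

def k0_mm_022_a : ∃ t, chk3 f_mm_022_a t 1 1 1 = true :=
  ⟨(l 5), by decide +kernel⟩

theorem c_mm_022_a : CertN 0 536870912 0 536870912 33554432 16777216 3 false false false .pp 0 2 2
    ndN0q0 ndN2q2a pcN2 Cut.none Ext.none :=
  certNK0 (fam := false) (s1 := false) (s2 := false) (a := 0) (b := 2) (c := 2) (cn := .pp) (n1 := ndN0q0) (n2 := ndN2q2a) (pc := pcN2) (cut := Cut.none) (xt := Ext.none) (P1 := 0) (W1 := 536870912) (P2 := 0) (W2 := 536870912) (P3 := 33554432) (W3 := 16777216) (N0 := 3)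
    rfl rfl rfl k0_mm_022_a

noncomputable def f_mm_022_b : ℕ → ℕ → ℕ → ℕ → Bool := onCell 0 536870912 1239849684 370763052 33554432 16777216
    (rowNK 3 0 false false false .pp 0 2 2 (qsf 0 536870912 1239849684 370763052 2) ndN0q0 ndN2q2b pcN2 Cut.none Ext.none)

def k0_mm_022_b : ∃ t, chk3 f_mm_022_b t 1 1 1 = true :=
  ⟨(l 5), by decide +kernel⟩

theorem c_mm_022_b : CertN 0 536870912 1239849684 370763052 33554432 16777216 3 false false false .pp 0 2 2
    ndN0q0 ndN2q2b pcN2 Cut.none Ext.none :=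
  certNK0 (fam := false) (s1 := false) (s2 := false) (a := 0) (b := 2) (c := 2) (cn := .pp) (n1 := ndN0q0) (n2 := ndN2q2b) (pc := pcN2) (cut := Cut.none) (xt := Ext.none) (P1 := 0) (W1 := 536870912) (P2 := 1239849684) (W2 := 370763052) (P3 := 33554432) (W3 := 16777216) (N0 := 3)
    rfl rfl rfl k0_mm_022_b

noncomputable def f_mm_023 : ℕ → ℕ → ℕ → ℕ → Bool := onCell 0 536870912 1610612736 536870912 33554432 16777216
    (rowNK 3 0 false false false .up 0 2 3 (qsf 0 536870912 1610612736 536870912 2) ndN0q0 ndN2q3 pcN2 Cut.none Ext.none)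

def k0_mm_023 : ∃ t, chk3 f_mm_023 t 1 1 1 = true :=
  ⟨(l 5), by decide +kernel⟩

theorem c_mm_023 : CertN 0 536870912 1610612736 536870912 33554432 16777216 3 false false false .up 0 2 3
    ndN0q0 ndN2q3 pcN2 Cut.none Ext.none :=
  certNK0 (fam := false) (s1 := false) (s2 := false) (a := 0) (b := 2) (c := 3) (cn := .up) (n1 := ndN0q0) (n2 := ndN2q3) (pc := pcN2) (cut := Cut.none) (xt := Ext.none) (P1 := 0) (W1 := 536870912) (P2 := 1610612736) (W2 := 536870912) (P3 := 33554432) (W3 := 16777216) (N0 := 3)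
    rfl rfl rfl k0_mm_023

noncomputable def f_mm_033 : ℕ → ℕ → ℕ → ℕ → Bool := onCell 0 536870912 1610612736 536870912 33554432 16777216
    (rowNK 3 0 false false false .pnn 0 3 3 (qsf 0 536870912 1610612736 536870912 3) ndN0q0 ndN2q3 pcN3 Cut.none Ext.none)

def k0_mm_033 : ∃ t, chk3 f_mm_033 t 1 1 1 = true :=
  ⟨(l 5), by decide +kernel⟩

theorem c_mm_033 : CertN 0 536870912 1610612736 536870912 33554432 16777216 3 false false false .pnn 0 3 3
    ndN0q0 ndN2q3 pcN3 Cut.none Ext.none :=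
  certNK0 (fam := false) (s1 := false) (s2 := false) (a := 0) (b := 3) (c := 3) (cn := .pnn) (n1 := ndN0q0) (n2 := ndN2q3) (pc := pcN3) (cut := Cut.none) (xt := Ext.none) (P1 := 0) (W1 := 536870912) (P2 := 1610612736) (W2 := 536870912) (P3 := 33554432) (W3 := 16777216) (N0 := 3)
    rfl rfl rfl k0_mm_033

noncomputable def cut_mm_101 : Cut := Cut.of [[⟨0, 1, 0, 33554432⟩, ⟨1, 0, 0, 33554432⟩, ⟨2, 1, 0, 33554432⟩]]

noncomputable def f_mm_101 : ℕ → ℕ → ℕ → ℕ → Bool := onCell 0 536870912 536870912 536870912 33554432 16777216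
    (rowNK 3 2 false false false .npn 1 0 1 (qsf 536870912 536870912 536870912 536870912 0) ndN0q1 ndN2q1 pcN0 cut_mm_101 Ext.none)

def k0_mm_101 : ∃ t, chk3 f_mm_101 t 1 1 1 = true :=
  ⟨(a (b (l 3) (a (b (l 3) (b (l 3) (b (l 3) (b (l 3) (b (l 3) (a (a (a (l 6) (l 3)) (l 3)) (l 3))))))) (l 3))) (l 3)), by decide +kernel⟩

theorem c_mm_101 : CertN 536870912 536870912 536870912 536870912 33554432 16777216 3 false false false .npn 1 0 1
    ndN0q1 ndN2q1 pcN0 cut_mm_101 Ext.none :=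
  certNK2 (fam := false) (s1 := false) (s2 := false) (a := 1) (b := 0) (c := 1) (cn := .npn) (n1 := ndN0q1) (n2 := ndN2q1) (pc := pcN0) (cut := cut_mm_101) (xt := Ext.none) (P1 := 536870912) (W1 := 536870912) (P2 := 536870912) (W2 := 536870912) (P3 := 33554432) (W3 := 16777216) (N0 := 3)
    rfl rfl rfl (fun _ => rfl) k0_mm_101

noncomputable def f_mm_102_a : ℕ → ℕ → ℕ → ℕ → Bool := onCell 536870912 536870912 0 536870912 33554432 16777216
    (rowNK 3 0 false false false .npp 1 0 2 (qsf 536870912 536870912 0 536870912 0) ndN0q1 ndN2q2a pcN0 Cut.none Ext.none)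

def k0_mm_102_a : ∃ t, chk3 f_mm_102_a t 1 1 1 = true :=
  ⟨(l 3), by decide +kernel⟩

theorem c_mm_102_a : CertN 536870912 536870912 0 536870912 33554432 16777216 3 false false false .npp 1 0 2
    ndN0q1 ndN2q2a pcN0 Cut.none Ext.none :=
  certNK0 (fam := false) (s1 := false) (s2 := false) (a := 1) (b := 0) (c := 2) (cn := .npp) (n1 := ndN0q1) (n2 := ndN2q2a) (pc := pcN0) (cut := Cut.none) (xt := Ext.none) (P1 := 536870912) (W1 := 536870912) (P2 := 0) (W2 := 536870912) (P3 := 33554432) (W3 := 16777216) (N0 := 3)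
    rfl rfl rfl k0_mm_102_a

noncomputable def f_mm_102_b : ℕ → ℕ → ℕ → ℕ → Bool := onCell 536870912 536870912 0 536870912 33554432 16777216
    (rowNK 3 1 false false false .npp 1 0 2 (qsf 536870912 536870912 1239849684 370763052 0) ndN0q1 ndN2q2b pcN0 Cut.none Ext.none)

def k0_mm_102_b : ∃ t, chk3 f_mm_102_b t 1 1 1 = true :=
  ⟨(l 3), by decide +kernel⟩

theorem c_mm_102_b : CertN 536870912 536870912 1239849684 370763052 33554432 16777216 3 false false false .npp 1 0 2
    ndN0q1 ndN2q2b pcN0 Cut.none Ext.none :=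
  certNK1 (fam := false) (s1 := false) (s2 := false) (a := 1) (b := 0) (c := 2) (cn := .npp) (n1 := ndN0q1) (n2 := ndN2q2b) (pc := pcN0) (cut := Cut.none) (xt := Ext.none) (P1 := 536870912) (W1 := 536870912) (P2 := 1239849684) (W2 := 370763052) (P3 := 33554432) (W3 := 16777216) (N0 := 3)
    rfl rfl rfl (fun _ => rfl) k0_mm_102_b

noncomputable def f_mm_112_a : ℕ → ℕ → ℕ → ℕ → Bool := onCell 536870912 536870912 0 536870912 33554432 16777216
    (rowNK 3 0 false false false .dn 1 1 2 (qsf 536870912 536870912 0 536870912 1) ndN0q1 ndN2q2a pcN1 Cut.none Ext.none)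

def k0_mm_112_a : ∃ t, chk3 f_mm_112_a t 1 1 1 = true :=
  ⟨(l 3), by decide +kernel⟩

theorem c_mm_112_a : CertN 536870912 536870912 0 536870912 33554432 16777216 3 false false false .dn 1 1 2
    ndN0q1 ndN2q2a pcN1 Cut.none Ext.none :=
  certNK0 (fam := false) (s1 := false) (s2 := false) (a := 1) (b := 1) (c := 2) (cn := .dn) (n1 := ndN0q1) (n2 := ndN2q2a) (pc := pcN1) (cut := Cut.none) (xt := Ext.none) (P1 := 536870912) (W1 := 536870912) (P2 := 0) (W2 := 536870912) (P3 := 33554432) (W3 := 16777216) (N0 := 3)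
    rfl rfl rfl k0_mm_112_a

noncomputable def f_mm_112_b : ℕ → ℕ → ℕ → ℕ → Bool := onCell 536870912 536870912 536870912 536870912 33554432 16777216
    (rowNK 3 1 false false false .dn 1 1 2 (qsf 536870912 536870912 1239849684 370763052 1) ndN0q1 ndN2q2b pcN1 Cut.none Ext.none)

def k0_mm_112_b : ∃ t, chk3 f_mm_112_b t 1 1 1 = true :=
  ⟨(l 5), by decide +kernel⟩

theorem c_mm_112_b : CertN 536870912 536870912 1239849684 370763052 33554432 16777216 3 false false false .dn 1 1 2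
    ndN0q1 ndN2q2b pcN1 Cut.none Ext.none :=
  certNK1 (fam := false) (s1 := false) (s2 := false) (a := 1) (b := 1) (c := 2) (cn := .dn) (n1 := ndN0q1) (n2 := ndN2q2b) (pc := pcN1) (cut := Cut.none) (xt := Ext.none) (P1 := 536870912) (W1 := 536870912) (P2 := 1239849684) (W2 := 370763052) (P3 := 33554432) (W3 := 16777216) (N0 := 3)
    rfl rfl rfl (fun _ => rfl) k0_mm_112_b

noncomputable def f_mm_113 : ℕ → ℕ → ℕ → ℕ → Bool := onCell 536870912 536870912 1610612736 536870912 33554432 16777216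
    (rowNK 3 0 false false false .nn 1 1 3 (qsf 536870912 536870912 1610612736 536870912 1) ndN0q1 ndN2q3 pcN1 Cut.none Ext.none)

def k0_mm_113 : ∃ t, chk3 f_mm_113 t 1 1 1 = true :=
  ⟨(l 5), by decide +kernel⟩

theorem c_mm_113 : CertN 536870912 536870912 1610612736 536870912 33554432 16777216 3 false false false .nn 1 1 3
    ndN0q1 ndN2q3 pcN1 Cut.none Ext.none :=
  certNK0 (fam := false) (s1 := false) (s2 := false) (a := 1) (b := 1) (c := 3) (cn := .nn) (n1 := ndN0q1) (n2 := ndN2q3) (pc := pcN1) (cut := Cut.none) (xt := Ext.none) (P1 := 536870912) (W1 := 536870912) (P2 := 1610612736) (W2 := 536870912) (P3 := 33554432) (W3 := 16777216) (N0 := 3)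
    rfl rfl rfl k0_mm_113

noncomputable def f_mm_123 : ℕ → ℕ → ℕ → ℕ → Bool := onCell 536870912 536870912 1610612736 536870912 33554432 16777216
    (rowNK 3 0 false false false .npn 1 2 3 (qsf 536870912 536870912 1610612736 536870912 2) ndN0q1 ndN2q3 pcN2 Cut.none Ext.none)

def k0_mm_123 : ∃ t, chk3 f_mm_123 t 1 1 1 = true :=
  ⟨(l 5), by decide +kernel⟩

theorem c_mm_123 : CertN 536870912 536870912 1610612736 536870912 33554432 16777216 3 false false false .npn 1 2 3
    ndN0q1 ndN2q3 pcN2 Cut.none Ext.none :=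
  certNK0 (fam := false) (s1 := false) (s2 := false) (a := 1) (b := 2) (c := 3) (cn := .npn) (n1 := ndN0q1) (n2 := ndN2q3) (pc := pcN2) (cut := Cut.none) (xt := Ext.none) (P1 := 536870912) (W1 := 536870912) (P2 := 1610612736) (W2 := 536870912) (P3 := 33554432) (W3 := 16777216) (N0 := 3)
    rfl rfl rfl k0_mm_123

noncomputable def f_mm_133 : ℕ → ℕ → ℕ → ℕ → Bool := onCell 536870912 536870912 1610612736 536870912 33554432 16777216
    (rowNK 3 0 false false false .dn 1 3 3 (qsf 536870912 536870912 1610612736 536870912 3) ndN0q1 ndN2q3 pcN3 Cut.none Ext.none)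

def k0_mm_133 : ∃ t, chk3 f_mm_133 t 1 1 1 = true :=
  ⟨(l 5), by decide +kernel⟩

theorem c_mm_133 : CertN 536870912 536870912 1610612736 536870912 33554432 16777216 3 false false false .dn 1 3 3
    ndN0q1 ndN2q3 pcN3 Cut.none Ext.none :=
  certNK0 (fam := false) (s1 := false) (s2 := false) (a := 1) (b := 3) (c := 3) (cn := .dn) (n1 := ndN0q1) (n2 := ndN2q3) (pc := pcN3) (cut := Cut.none) (xt := Ext.none) (P1 := 536870912) (W1 := 536870912) (P2 := 1610612736) (W2 := 536870912) (P3 := 33554432) (W3 := 16777216) (N0 := 3)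
    rfl rfl rfl k0_mm_133

noncomputable def f_mm_202_a : ℕ → ℕ → ℕ → ℕ → Bool := onCell 0 536870912 0 536870912 33554432 16777216
    (rowNK 3 0 false false false .pp 2 0 2 (qsf 0 536870912 0 536870912 0) ndN0q2 ndN2q2a pcN0 Cut.none Ext.none)

def k0_mm_202_a : ∃ t, chk3 f_mm_202_a t 1 1 1 = true :=
  ⟨(l 3), by decide +kernel⟩

theorem c_mm_202_a : CertN 0 536870912 0 536870912 33554432 16777216 3 false false false .pp 2 0 2
    ndN0q2 ndN2q2a pcN0 Cut.none Ext.none :=
  certNK0 (fam := false) (s1 := false) (s2 := false) (a := 2) (b := 0) (c := 2) (cn := .pp) (n1 := ndN0q2) (n2 := ndN2q2a) (pc := pcN0) (cut := Cut.none) (xt := Ext.none) (P1 := 0) (W1 := 536870912) (P2 := 0) (W2 := 536870912) (P3 := 33554432) (W3 := 16777216) (N0 := 3)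
    rfl rfl rfl k0_mm_202_a

noncomputable def f_mm_202_b : ℕ → ℕ → ℕ → ℕ → Bool := onCell 0 536870912 1239849684 370763052 33554432 16777216
    (rowNK 3 0 false false false .pp 2 0 2 (qsf 0 536870912 1239849684 370763052 0) ndN0q2 ndN2q2b pcN0 Cut.none Ext.none)

def k0_mm_202_b : ∃ t, chk3 f_mm_202_b t 1 1 1 = true :=
  ⟨(l 3), by decide +kernel⟩

theorem c_mm_202_b : CertN 0 536870912 1239849684 370763052 33554432 16777216 3 false false false .pp 2 0 2
    ndN0q2 ndN2q2b pcN0 Cut.none Ext.none :=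
  certNK0 (fam := false) (s1 := false) (s2 := false) (a := 2) (b := 0) (c := 2) (cn := .pp) (n1 := ndN0q2) (n2 := ndN2q2b) (pc := pcN0) (cut := Cut.none) (xt := Ext.none) (P1 := 0) (W1 := 536870912) (P2 := 1239849684) (W2 := 370763052) (P3 := 33554432) (W3 := 16777216) (N0 := 3)
    rfl rfl rfl k0_mm_202_b

noncomputable def f_mm_203 : ℕ → ℕ → ℕ → ℕ → Bool := onCell 0 536870912 0 536870912 33554432 16777216
    (rowNK 3 1 false false false .up 2 0 3 (qsf 0 536870912 1610612736 536870912 0) ndN0q2 ndN2q3 pcN0 Cut.none Ext.none)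

def k0_mm_203 : ∃ t, chk3 f_mm_203 t 1 1 1 = true :=
  ⟨(l 3), by decide +kernel⟩

theorem c_mm_203 : CertN 0 536870912 1610612736 536870912 33554432 16777216 3 false false false .up 2 0 3
    ndN0q2 ndN2q3 pcN0 Cut.none Ext.none :=
  certNK1 (fam := false) (s1 := false) (s2 := false) (a := 2) (b := 0) (c := 3) (cn := .up) (n1 := ndN0q2) (n2 := ndN2q3) (pc := pcN0) (cut := Cut.none) (xt := Ext.none) (P1 := 0) (W1 := 536870912) (P2 := 1610612736) (W2 := 536870912) (P3 := 33554432) (W3 := 16777216) (N0 := 3)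
    rfl rfl rfl (fun _ => rfl) k0_mm_203

noncomputable def f_mm_213 : ℕ → ℕ → ℕ → ℕ → Bool := onCell 0 536870912 1610612736 536870912 33554432 16777216
    (rowNK 3 0 false false false .pnn 2 1 3 (qsf 0 536870912 1610612736 536870912 1) ndN0q2 ndN2q3 pcN1 Cut.none Ext.none)

def k0_mm_213 : ∃ t, chk3 f_mm_213 t 1 1 1 = true :=
  ⟨(b (l 3) (a (l 3) (l 5))), by decide +kernel⟩

theorem c_mm_213 : CertN 0 536870912 1610612736 536870912 33554432 16777216 3 false false false .pnn 2 1 3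
    ndN0q2 ndN2q3 pcN1 Cut.none Ext.none :=
  certNK0 (fam := false) (s1 := false) (s2 := false) (a := 2) (b := 1) (c := 3) (cn := .pnn) (n1 := ndN0q2) (n2 := ndN2q3) (pc := pcN1) (cut := Cut.none) (xt := Ext.none) (P1 := 0) (W1 := 536870912) (P2 := 1610612736) (W2 := 536870912) (P3 := 33554432) (W3 := 16777216) (N0 := 3)
    rfl rfl rfl k0_mm_213

end Pool.Agent.Strip051.G.I1_32_3_64.Tab.C.NB02

namespace Pool.Agent.Strip051.G.I1_32_3_64.Tab.C.NB03

open Pool.Agent.Strip051.PB Pool.Agent.Strip051.PB.T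
open Pool.Agent.Strip051.G.I1_32_3_64.Tab

noncomputable def f_pp_001 : ℕ → ℕ → ℕ → ℕ → Bool := onCell 0 536870912 0 536870912 33554432 16777216
    (rowNK 3 1 false true true .up 0 0 1 (qsf 0 536870912 536870912 536870912 0) ndN0q0 ndN3q1 pcN0 Cut.none Ext.none)

def k0_pp_001 : ∃ t, chk3 f_pp_001 t 1 1 1 = true :=
  ⟨(l 3), by decide +kernel⟩

theorem c_pp_001 : CertN 0 536870912 536870912 536870912 33554432 16777216 3 false true true .up 0 0 1
    ndN0q0 ndN3q1 pcN0 Cut.none Ext.none :=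
  certNK1 (fam := false) (s1 := true) (s2 := true) (a := 0) (b := 0) (c := 1) (cn := .up) (n1 := ndN0q0) (n2 := ndN3q1) (pc := pcN0) (cut := Cut.none) (xt := Ext.none) (P1 := 0) (W1 := 536870912) (P2 := 536870912) (W2 := 536870912) (P3 := 33554432) (W3 := 16777216) (N0 := 3)
    rfl rfl rfl (fun _ => rfl) k0_pp_001

noncomputable def cut_pp_011 : Cut := Cut.of [[⟨0, 0, 0, 33554432⟩, ⟨1, 1, 0, 33554432⟩, ⟨2, 1, 0, 33554432⟩]]

noncomputable def f_pp_011 : ℕ → ℕ → ℕ → ℕ → Bool := onCell 0 536870912 536870912 536870912 33554432 16777216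
    (rowNK 3 1 false true true .pnn 0 1 1 (qsf 0 536870912 536870912 536870912 1) ndN0q0 ndN3q1 pcN1 cut_pp_011 Ext.none)

def k0_pp_011 : ∃ t, chk3 f_pp_011 t 1 1 1 = true :=
  ⟨(b (l 3) (a (b (l 3) (a (b (l 3) (a (b (l 3) (a (b (l 3) (a (l 6) (l 3))) (l 3))) (l 3))) (l 3))) (l 3))), by decide +kernel⟩

theorem c_pp_011 : CertN 0 536870912 536870912 536870912 33554432 16777216 3 false true true .pnn 0 1 1
    ndN0q0 ndN3q1 pcN1 cut_pp_011 Ext.none :=
  certNK1 (fam := false) (s1 := true) (s2 := true) (a := 0) (b := 1) (c := 1) (cn := .pnn) (n1 := ndN0q0) (n2 := ndN3q1) (pc := pcN1) (cut := cut_pp_011) (xt := Ext.none) (P1 := 0) (W1 := 536870912) (P2 := 536870912) (W2 := 536870912) (P3 := 33554432) (W3 := 16777216) (N0 := 3)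
    rfl rfl rfl (fun _ => rfl) k0_pp_011

noncomputable def f_pp_012 : ℕ → ℕ → ℕ → ℕ → Bool := onCell 0 536870912 536870912 536870912 33554432 16777216
    (rowNK 3 1 false true true .pnp 0 1 2 (qsf 0 536870912 1073741824 536870912 1) ndN0q0 ndN3q2 pcN1 Cut.none Ext.none)

def k0_pp_012 : ∃ t, chk3 f_pp_012 t 1 1 1 = true :=
  ⟨(l 3), by decide +kernel⟩

theorem c_pp_012 : CertN 0 536870912 1073741824 536870912 33554432 16777216 3 false true true .pnp 0 1 2
    ndN0q0 ndN3q2 pcN1 Cut.none Ext.none :=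
  certNK1 (fam := false) (s1 := true) (s2 := true) (a := 0) (b := 1) (c := 2) (cn := .pnp) (n1 := ndN0q0) (n2 := ndN3q2) (pc := pcN1) (cut := Cut.none) (xt := Ext.none) (P1 := 0) (W1 := 536870912) (P2 := 1073741824) (W2 := 536870912) (P3 := 33554432) (W3 := 16777216) (N0 := 3)
    rfl rfl rfl (fun _ => rfl) k0_pp_012

noncomputable def f_pp_022 : ℕ → ℕ → ℕ → ℕ → Bool := onCell 0 536870912 1073741824 536870912 33554432 16777216
    (rowNK 3 1 false true true .pp 0 2 2 (qsf 0 536870912 1073741824 536870912 2) ndN0q0 ndN3q2 pcN2 Cut.none Ext.none)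

def k0_pp_022 : ∃ t, chk3 f_pp_022 t 1 1 1 = true :=
  ⟨(a (b (b (l 3) (b (b (b (l 3) (a (b (l 3) (b (l 19081968) (a (l 19162624) (l 18627208)))) (b (l 17975080) (b (l 18002520) (a (l 18219528) (l 17839680)))))) (a (l 19196840) (l 18093320))) (a (l 19083272) (l 18241608)))) (a (l 19316240) (l 18691000))) (a (b (b (l 3) (b (b (b (l 17379800) (b (l 17320848) (a (l 17586800) (l 17362856)))) (l 17452968)) (l 17578600))) (l 18017688)) (b (b (b (l 3) (a (l 3) (b (l 3) (l 2)))) (b (b (b (l 17275584) (l 2)) (l 2)) (l 2))) (l 2)))), by decide +kernel⟩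

theorem c_pp_022 : CertN 0 536870912 1073741824 536870912 33554432 16777216 3 false true true .pp 0 2 2
    ndN0q0 ndN3q2 pcN2 Cut.none Ext.none :=
  certNK1 (fam := false) (s1 := true) (s2 := true) (a := 0) (b := 2) (c := 2) (cn := .pp) (n1 := ndN0q0) (n2 := ndN3q2) (pc := pcN2) (cut := Cut.none) (xt := Ext.none) (P1 := 0) (W1 := 536870912) (P2 := 1073741824) (W2 := 536870912) (P3 := 33554432) (W3 := 16777216) (N0 := 3)
    rfl rfl rfl (fun _ => rfl) k0_pp_022

noncomputable def f_pp_023 : ℕ → ℕ → ℕ → ℕ → Bool := onCell 1073741824 536870912 0 1230186008 33554432 16777216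
    (rowNK 3 2 false true true .up 0 2 3 (qsf 0 536870912 0 1230186008 2) ndN0q0 ndN3q3 pcN2 Cut.none Ext.none)

def k0_pp_023 : ∃ t, chk3 f_pp_023 t 1 1 1 = true :=
  ⟨(a (b (l 2) (b (b (l 2) (a (l 2) (a (l 2) (l 270685152615)))) (b (a (l 2) (a (a (a (l 17610344) (a (l 17568952) (b (l 2) (l 17849024)))) (l 17630312)) (b (l 17661688) (l 17675920)))) (a (a (l 3) (a (l 3) (b (l 17584712) (l 3)))) (a (a (a (l 17708328) (a (l 17631488) (b (l 17821000) (l 17856720)))) (l 17691840)) (b (l 17676784) (l 17742344))))))) (b (a (l 2) (b (l 17635504) (a (l 17657704) (l 17663760)))) (b (a (b (l 279812490407) (a (l 17663104) (l 17682952))) (b (l 17629512) (l 17756016))) (b (a (a (l 17671456) (l 17740792)) (l 18155592)) (a (b (l 17855864) (l 18068856)) (b (l 18259072) (l 18439952))))))), by decide +kernel⟩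

theorem c_pp_023 : CertN 0 536870912 0 1230186008 33554432 16777216 3 false true true .up 0 2 3
    ndN0q0 ndN3q3 pcN2 Cut.none Ext.none :=
  certNK2 (fam := false) (s1 := true) (s2 := true) (a := 0) (b := 2) (c := 3) (cn := .up) (n1 := ndN0q0) (n2 := ndN3q3) (pc := pcN2) (cut := Cut.none) (xt := Ext.none) (P1 := 0) (W1 := 536870912) (P2 := 0) (W2 := 1230186008) (P3 := 33554432) (W3 := 16777216) (N0 := 3)
    rfl rfl rfl (fun _ => rfl) k0_pp_023

noncomputable def f_pp_033 : ℕ → ℕ → ℕ → ℕ → Bool := onCell 1610612736 536870912 0 1230186008 33554432 16777216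
    (rowNK 3 2 false true true .pnn 0 3 3 (qsf 0 536870912 0 1230186008 3) ndN0q0 ndN3q3 pcN3 Cut.none Ext.none)

def k0_pp_033 : ∃ t, chk3 f_pp_033 t 1 1 1 = true :=
  ⟨(a (b (a (b (l 17190104) (a (l 16995320) (l 16991400))) (b (l 17436864) (a (l 17228480) (l 17541528)))) (b (a (b (l 17523224) (l 18089680)) (b (l 17704432) (l 18201376))) (b (a (a (l 18390232) (l 18649880)) (a (b (l 18638024) (l 18868688)) (l 18671704))) (a (b (l 18337416) (l 18064648)) (a (l 18569960) (l 1)))))) (b (a (a (l 17715384) (b (l 4) (l 17999696))) (a (l 18217320) (l 4))) (b (a (a (l 18399088) (l 180425675319)) (a (l 18379896) (l 1))) (l 1)))), by decide +kernel⟩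

theorem c_pp_033 : CertN 0 536870912 0 1230186008 33554432 16777216 3 false true true .pnn 0 3 3
    ndN0q0 ndN3q3 pcN3 Cut.none Ext.none :=
  certNK2 (fam := false) (s1 := true) (s2 := true) (a := 0) (b := 3) (c := 3) (cn := .pnn) (n1 := ndN0q0) (n2 := ndN3q3) (pc := pcN3) (cut := Cut.none) (xt := Ext.none) (P1 := 0) (W1 := 536870912) (P2 := 0) (W2 := 1230186008) (P3 := 33554432) (W3 := 16777216) (N0 := 3)
    rfl rfl rfl (fun _ => rfl) k0_pp_033

noncomputable def f_pp_101 : ℕ → ℕ → ℕ → ℕ → Bool := onCell 536870912 536870912 536870912 536870912 33554432 16777216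
    (rowNK 3 0 false true true .npn 1 0 1 (qsf 536870912 536870912 536870912 536870912 0) ndN0q1 ndN3q1 pcN0 Cut.none Ext.none)

def k0_pp_101 : ∃ t, chk3 f_pp_101 t 1 1 1 = true :=
  ⟨(a (l 3) (l 5)), by decide +kernel⟩

theorem c_pp_101 : CertN 536870912 536870912 536870912 536870912 33554432 16777216 3 false true true .npn 1 0 1
    ndN0q1 ndN3q1 pcN0 Cut.none Ext.none :=
  certNK0 (fam := false) (s1 := true) (s2 := true) (a := 1) (b := 0) (c := 1) (cn := .npn) (n1 := ndN0q1) (n2 := ndN3q1) (pc := pcN0) (cut := Cut.none) (xt := Ext.none) (P1 := 536870912) (W1 := 536870912) (P2 := 536870912) (W2 := 536870912) (P3 := 33554432) (W3 := 16777216) (N0 := 3)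
    rfl rfl rfl k0_pp_101

noncomputable def f_pp_102 : ℕ → ℕ → ℕ → ℕ → Bool := onCell 536870912 536870912 1073741824 536870912 33554432 16777216
    (rowNK 3 0 false true true .npp 1 0 2 (qsf 536870912 536870912 1073741824 536870912 0) ndN0q1 ndN3q2 pcN0 Cut.none Ext.none)

def k0_pp_102 : ∃ t, chk3 f_pp_102 t 1 1 1 = true :=
  ⟨(l 3), by decide +kernel⟩

theorem c_pp_102 : CertN 536870912 536870912 1073741824 536870912 33554432 16777216 3 false true true .npp 1 0 2
    ndN0q1 ndN3q2 pcN0 Cut.none Ext.none :=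
  certNK0 (fam := false) (s1 := true) (s2 := true) (a := 1) (b := 0) (c := 2) (cn := .npp) (n1 := ndN0q1) (n2 := ndN3q2) (pc := pcN0) (cut := Cut.none) (xt := Ext.none) (P1 := 536870912) (W1 := 536870912) (P2 := 1073741824) (W2 := 536870912) (P3 := 33554432) (W3 := 16777216) (N0 := 3)
    rfl rfl rfl k0_pp_102

noncomputable def f_pp_112 : ℕ → ℕ → ℕ → ℕ → Bool := onCell 536870912 536870912 1073741824 536870912 33554432 16777216
    (rowNK 3 0 false true true .dn 1 1 2 (qsf 536870912 536870912 1073741824 536870912 1) ndN0q1 ndN3q2 pcN1 Cut.none Ext.none)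

def k0_pp_112 : ∃ t, chk3 f_pp_112 t 1 1 1 = true :=
  ⟨(l 3), by decide +kernel⟩

theorem c_pp_112 : CertN 536870912 536870912 1073741824 536870912 33554432 16777216 3 false true true .dn 1 1 2
    ndN0q1 ndN3q2 pcN1 Cut.none Ext.none :=
  certNK0 (fam := false) (s1 := true) (s2 := true) (a := 1) (b := 1) (c := 2) (cn := .dn) (n1 := ndN0q1) (n2 := ndN3q2) (pc := pcN1) (cut := Cut.none) (xt := Ext.none) (P1 := 536870912) (W1 := 536870912) (P2 := 1073741824) (W2 := 536870912) (P3 := 33554432) (W3 := 16777216) (N0 := 3)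
    rfl rfl rfl k0_pp_112

noncomputable def cut_pp_113 : Cut := Cut.of [[⟨0, 1, 0, 7061502⟩, ⟨1, 1, 0, 7061502⟩, ⟨2, 2, 0, 184626⟩]]

noncomputable def f_pp_113 : ℕ → ℕ → ℕ → ℕ → Bool := onCell 536870912 536870912 0 1230186008 33554432 16777216
    (rowNK 3 2 false true true .nn 1 1 3 (qsf 536870912 536870912 0 1230186008 1) ndN0q1 ndN3q3 pcN1 cut_pp_113 Ext.none)

def k0_pp_113 : ∃ t, chk3 f_pp_113 t 1 1 1 = true :=
  ⟨(b (a (l 2) (a (l 2) (b (a (l 2) (a (l 2) (b (a (l 2) (b (a (l 2) (b (a (l 2) (b (l 6) (l 3))) (l 3))) (l 3))) (l 3)))) (l 3)))) (a (b (l 3) (a (b (l 2) (l 3)) (l 3))) (b (l 3) (l 3)))), by decide +kernel⟩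

theorem c_pp_113 : CertN 536870912 536870912 0 1230186008 33554432 16777216 3 false true true .nn 1 1 3
    ndN0q1 ndN3q3 pcN1 cut_pp_113 Ext.none :=
  certNK2 (fam := false) (s1 := true) (s2 := true) (a := 1) (b := 1) (c := 3) (cn := .nn) (n1 := ndN0q1) (n2 := ndN3q3) (pc := pcN1) (cut := cut_pp_113) (xt := Ext.none) (P1 := 536870912) (W1 := 536870912) (P2 := 0) (W2 := 1230186008) (P3 := 33554432) (W3 := 16777216) (N0 := 3)
    rfl rfl rfl (fun _ => rfl) k0_pp_113

noncomputable def cut_pp_123 : Cut := Cut.of [[⟨0, 1, 0, 7061502⟩, ⟨1, 1, 0, 7061502⟩, ⟨2, 2, 0, 184626⟩]]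

noncomputable def f_pp_123 : ℕ → ℕ → ℕ → ℕ → Bool := onCell 1073741824 536870912 0 1230186008 33554432 16777216
    (rowNK 3 2 false true true .npn 1 2 3 (qsf 536870912 536870912 0 1230186008 2) ndN0q1 ndN3q3 pcN2 cut_pp_123 Ext.none)

def k0_pp_123 : ∃ t, chk3 f_pp_123 t 1 2 1 = true :=
  ⟨(b (a (a (a (a (a (b (a (b (b (a (b (l 6) (a (l 3) (b (a (l 3) (b (l 6) (a (l 3) (a (l 3) (a (l 282025009655) (l 301889230151)))))) (l 3)))) (b (l 16784696) (a (b (a (b (l 6) (l 276656300743)) (l 16779656)) (a (b (a (l 3) (b (l 301889229223) (l 282025004695))) (l 3)) (b (l 264845142999) (a (l 309942299239) (l 290078071863))))) (b (l 16782504) (l 16789584))))) (a (l 3) (b (a (b (l 3) (l 3)) (b (b (l 274508829927) (a (l 310479177223) (l 270213863191))) (a (l 3) (l 309942307271)))) (l 3)))) (l 3)) (b (b (l 16851576) (a (a (b (l 258939575207) (b (l 308868571127) (l 3))) (l 252497137543)) (l 16832032))) (b (b (a (l 313163558263) (l 253570936023)) (l 314237325799)) (l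 3)))) (l 3)) (b (b (l 16886288) (a (b (a (l 247128511367) (l 16811896)) (a (l 298668037431) (l 226727390359))) (l 16883472))) (b (a (l 316384846343) (l 219211275607)) (l 3)))) (b (b (l 16850424) (l 17053104)) (a (b (l 16924536) (a (l 228337980599) (l 16910656))) (l 17008472)))) (a (b (l 16924872) (l 17024408)) (l 17059752))) (a (l 17245568) (l 17428320))) (a (l 17494184) (l 17635456))) (a (a (a (a (l 3) (b (a (b (l 222432452807) (l 3)) (l 148881866807)) (a (l 3) (b (l 247128852711) (l 3))))) (a (b (a (l 17236000) (l 17057400)) (a (b (l 17071360) (l 17162200)) (l 17242056))) (b (l 17146128) (a (l 17224896) (l 17292832))))) (a (b (l 17316976) (l 17335544)) (b (l 17388488) (l 17387592)))) (a (a (l 17527480) (l 17524800)) (a (l 17658040) (l 17667288))))), by decide +kernel⟩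

def k1_pp_123 : ∃ t, chk3 f_pp_123 t 1 3 1 = true :=
  ⟨(b (a (a (a (l 3) (b (a (a (l 244981895943) (l 17309256)) (a (l 17305168) (l 17312032))) (a (l 3) (a (l 17463000) (l 17319376))))) (a (a (a (b (l 17328528) (l 17326192)) (b (l 17332408) (a (l 17369048) (a (l 17381808) (l 17387608))))) (b (l 17365208) (l 17417584))) (b (l 17387784) (l 17515584)))) (a (b (a (l 17526384) (l 17660184)) (a (l 17664376) (l 17688656))) (b (l 17643952) (l 1)))) (a (a (a (l 3) (a (l 3) (b (b (l 17459208) (l 17546392)) (b (l 17585272) (l 1))))) (b (a (a (a (l 17610296) (a (l 17568976) (b (l 17782256) (l 17849160)))) (l 17630912)) (b (l 17662488) (l 1))) (a (a (a (l 17798160) (l 1)) (l 1)) (l 1)))) (l 1))), by decide +kernel⟩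

theorem s2_pp_123 : ∃ t, chk3 f_pp_123 t 1 1 1 = true := ex3_b k0_pp_123 k1_pp_123

theorem c_pp_123 : CertN 536870912 536870912 0 1230186008 33554432 16777216 3 false true true .npn 1 2 3
    ndN0q1 ndN3q3 pcN2 cut_pp_123 Ext.none :=
  certNK2 (fam := false) (s1 := true) (s2 := true) (a := 1) (b := 2) (c := 3) (cn := .npn) (n1 := ndN0q1) (n2 := ndN3q3) (pc := pcN2) (cut := cut_pp_123) (xt := Ext.none) (P1 := 536870912) (W1 := 536870912) (P2 := 0) (W2 := 1230186008) (P3 := 33554432) (W3 := 16777216) (N0 := 3)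
    rfl rfl rfl (fun _ => rfl) s2_pp_123

noncomputable def f_pp_133 : ℕ → ℕ → ℕ → ℕ → Bool := onCell 1610612736 536870912 0 1230186008 33554432 16777216
    (rowNK 3 2 false true true .dn 1 3 3 (qsf 536870912 536870912 0 1230186008 3) ndN0q1 ndN3q3 pcN3 Cut.none Ext.none)

def k0_pp_133 : ∃ t, chk3 f_pp_133 t 1 1 1 = true :=
  ⟨(b (b (a (a (l 17239816) (l 1)) (l 1)) (l 1)) (l 1)), by decide +kernel⟩

theorem c_pp_133 : CertN 536870912 536870912 0 1230186008 33554432 16777216 3 false true true .dn 1 3 3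
    ndN0q1 ndN3q3 pcN3 Cut.none Ext.none :=
  certNK2 (fam := false) (s1 := true) (s2 := true) (a := 1) (b := 3) (c := 3) (cn := .dn) (n1 := ndN0q1) (n2 := ndN3q3) (pc := pcN3) (cut := Cut.none) (xt := Ext.none) (P1 := 536870912) (W1 := 536870912) (P2 := 0) (W2 := 1230186008) (P3 := 33554432) (W3 := 16777216) (N0 := 3)
    rfl rfl rfl (fun _ => rfl) k0_pp_133

noncomputable def f_pp_202 : ℕ → ℕ → ℕ → ℕ → Bool := onCell 0 536870912 1073741824 536870912 33554432 16777216
    (rowNK 3 0 false true true .pp 2 0 2 (qsf 0 536870912 1073741824 536870912 0) ndN0q2 ndN3q2 pcN0 Cut.none Ext.none)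

def k0_pp_202 : ∃ t, chk3 f_pp_202 t 1 1 1 = true :=
  ⟨(a (l 5) (l 3)), by decide +kernel⟩

theorem c_pp_202 : CertN 0 536870912 1073741824 536870912 33554432 16777216 3 false true true .pp 2 0 2
    ndN0q2 ndN3q2 pcN0 Cut.none Ext.none :=
  certNK0 (fam := false) (s1 := true) (s2 := true) (a := 2) (b := 0) (c := 2) (cn := .pp) (n1 := ndN0q2) (n2 := ndN3q2) (pc := pcN0) (cut := Cut.none) (xt := Ext.none) (P1 := 0) (W1 := 536870912) (P2 := 1073741824) (W2 := 536870912) (P3 := 33554432) (W3 := 16777216) (N0 := 3)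
    rfl rfl rfl k0_pp_202

noncomputable def f_pp_203 : ℕ → ℕ → ℕ → ℕ → Bool := onCell 0 536870912 0 1230186008 33554432 16777216
    (rowNK 3 0 false true true .up 2 0 3 (qsf 0 536870912 0 1230186008 0) ndN0q2 ndN3q3 pcN0 Cut.none Ext.none)

def k0_pp_203 : ∃ t, chk3 f_pp_203 t 1 1 1 = true :=
  ⟨(b (l 2) (l 3)), by decide +kernel⟩

theorem c_pp_203 : CertN 0 536870912 0 1230186008 33554432 16777216 3 false true true .up 2 0 3
    ndN0q2 ndN3q3 pcN0 Cut.none Ext.none :=
  certNK0 (fam := false) (s1 := true) (s2 := true) (a := 2) (b := 0) (c := 3) (cn := .up) (n1 := ndN0q2) (n2 := ndN3q3) (pc := pcN0) (cut := Cut.none) (xt := Ext.none) (P1 := 0) (W1 := 536870912) (P2 := 0) (W2 := 1230186008) (P3 := 33554432) (W3 := 16777216) (N0 := 3)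
    rfl rfl rfl k0_pp_203

noncomputable def cut_pp_213 : Cut := Cut.of [[⟨0, 1, 0, 7061502⟩, ⟨1, 1, 0, 7061502⟩, ⟨2, 2, 0, 184626⟩]]

noncomputable def f_pp_213 : ℕ → ℕ → ℕ → ℕ → Bool := onCell 0 536870912 0 1230186008 33554432 16777216
    (rowNK 3 0 false true true .pnn 2 1 3 (qsf 0 536870912 0 1230186008 1) ndN0q2 ndN3q3 pcN1 cut_pp_213 Ext.none)

def k0_pp_213 : ∃ t, chk3 f_pp_213 t 1 1 1 = true :=
  ⟨(b (a (l 3) (b (a (l 3) (a (l 3) (b (a (l 3) (b (a (l 3) (b (a (l 3) (b (l 6) (l 3))) (l 3))) (l 3))) (l 3)))) (l 3))) (l 3)), by decide +kernel⟩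

theorem c_pp_213 : CertN 0 536870912 0 1230186008 33554432 16777216 3 false true true .pnn 2 1 3
    ndN0q2 ndN3q3 pcN1 cut_pp_213 Ext.none :=
  certNK0 (fam := false) (s1 := true) (s2 := true) (a := 2) (b := 1) (c := 3) (cn := .pnn) (n1 := ndN0q2) (n2 := ndN3q3) (pc := pcN1) (cut := cut_pp_213) (xt := Ext.none) (P1 := 0) (W1 := 536870912) (P2 := 0) (W2 := 1230186008) (P3 := 33554432) (W3 := 16777216) (N0 := 3)
    rfl rfl rfl k0_pp_213

noncomputable def f_pm_001 : ℕ → ℕ → ℕ → ℕ → Bool := onCell 0 536870912 536870912 536870912 33554432 16777216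
    (rowNK 3 0 false true false .up 0 0 1 (qsf 0 536870912 536870912 536870912 0) ndN0q0 ndN3q1 pcN0 Cut.none Ext.none)

def k0_pm_001 : ∃ t, chk3 f_pm_001 t 1 1 1 = true :=
  ⟨(l 4), by decide +kernel⟩

theorem c_pm_001 : CertN 0 536870912 536870912 536870912 33554432 16777216 3 false true false .up 0 0 1
    ndN0q0 ndN3q1 pcN0 Cut.none Ext.none :=
  certNK0 (fam := false) (s1 := true) (s2 := false) (a := 0) (b := 0) (c := 1) (cn := .up) (n1 := ndN0q0) (n2 := ndN3q1) (pc := pcN0) (cut := Cut.none) (xt := Ext.none) (P1 := 0) (W1 := 536870912) (P2 := 536870912) (W2 := 536870912) (P3 := 33554432) (W3 := 16777216) (N0 := 3)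
    rfl rfl rfl k0_pm_001

noncomputable def f_pm_011 : ℕ → ℕ → ℕ → ℕ → Bool := onCell 0 536870912 536870912 536870912 33554432 16777216
    (rowNK 3 0 false true false .pnn 0 1 1 (qsf 0 536870912 536870912 536870912 1) ndN0q0 ndN3q1 pcN1 Cut.none Ext.none)

def k0_pm_011 : ∃ t, chk3 f_pm_011 t 1 1 1 = true :=
  ⟨(l 4), by decide +kernel⟩

theorem c_pm_011 : CertN 0 536870912 536870912 536870912 33554432 16777216 3 false true false .pnn 0 1 1
    ndN0q0 ndN3q1 pcN1 Cut.none Ext.none :=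
  certNK0 (fam := false) (s1 := true) (s2 := false) (a := 0) (b := 1) (c := 1) (cn := .pnn) (n1 := ndN0q0) (n2 := ndN3q1) (pc := pcN1) (cut := Cut.none) (xt := Ext.none) (P1 := 0) (W1 := 536870912) (P2 := 536870912) (W2 := 536870912) (P3 := 33554432) (W3 := 16777216) (N0 := 3)
    rfl rfl rfl k0_pm_011

noncomputable def f_pm_012 : ℕ → ℕ → ℕ → ℕ → Bool := onCell 0 536870912 1073741824 536870912 33554432 16777216
    (rowNK 3 0 false true false .pnp 0 1 2 (qsf 0 536870912 1073741824 536870912 1) ndN0q0 ndN3q2 pcN1 Cut.none Ext.none)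

def k0_pm_012 : ∃ t, chk3 f_pm_012 t 1 1 1 = true :=
  ⟨(l 4), by decide +kernel⟩

theorem c_pm_012 : CertN 0 536870912 1073741824 536870912 33554432 16777216 3 false true false .pnp 0 1 2
    ndN0q0 ndN3q2 pcN1 Cut.none Ext.none :=
  certNK0 (fam := false) (s1 := true) (s2 := false) (a := 0) (b := 1) (c := 2) (cn := .pnp) (n1 := ndN0q0) (n2 := ndN3q2) (pc := pcN1) (cut := Cut.none) (xt := Ext.none) (P1 := 0) (W1 := 536870912) (P2 := 1073741824) (W2 := 536870912) (P3 := 33554432) (W3 := 16777216) (N0 := 3)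
    rfl rfl rfl k0_pm_012

noncomputable def f_pm_022 : ℕ → ℕ → ℕ → ℕ → Bool := onCell 0 536870912 1073741824 536870912 33554432 16777216
    (rowNK 3 0 false true false .pp 0 2 2 (qsf 0 536870912 1073741824 536870912 2) ndN0q0 ndN3q2 pcN2 Cut.none Ext.none)

def k0_pm_022 : ∃ t, chk3 f_pm_022 t 1 1 1 = true :=
  ⟨(l 4), by decide +kernel⟩

theorem c_pm_022 : CertN 0 536870912 1073741824 536870912 33554432 16777216 3 false true false .pp 0 2 2
    ndN0q0 ndN3q2 pcN2 Cut.none Ext.none :=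
  certNK0 (fam := false) (s1 := true) (s2 := false) (a := 0) (b := 2) (c := 2) (cn := .pp) (n1 := ndN0q0) (n2 := ndN3q2) (pc := pcN2) (cut := Cut.none) (xt := Ext.none) (P1 := 0) (W1 := 536870912) (P2 := 1073741824) (W2 := 536870912) (P3 := 33554432) (W3 := 16777216) (N0 := 3)
    rfl rfl rfl k0_pm_022

noncomputable def f_pm_023 : ℕ → ℕ → ℕ → ℕ → Bool := onCell 0 536870912 0 1230186008 33554432 16777216
    (rowNK 3 0 false true false .up 0 2 3 (qsf 0 536870912 0 1230186008 2) ndN0q0 ndN3q3 pcN2 Cut.none Ext.none)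

def k0_pm_023 : ∃ t, chk3 f_pm_023 t 1 1 1 = true :=
  ⟨(a (b (l 2) (l 4)) (b (a (l 2) (b (l 17610920) (a (l 17612000) (l 17666744)))) (b (a (l 4) (b (l 4) (l 4))) (l 4)))), by decide +kernel⟩

theorem c_pm_023 : CertN 0 536870912 0 1230186008 33554432 16777216 3 false true false .up 0 2 3
    ndN0q0 ndN3q3 pcN2 Cut.none Ext.none :=
  certNK0 (fam := false) (s1 := true) (s2 := false) (a := 0) (b := 2) (c := 3) (cn := .up) (n1 := ndN0q0) (n2 := ndN3q3) (pc := pcN2) (cut := Cut.none) (xt := Ext.none) (P1 := 0) (W1 := 536870912) (P2 := 0) (W2 := 1230186008) (P3 := 33554432) (W3 := 16777216) (N0 := 3)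
    rfl rfl rfl k0_pm_023

noncomputable def f_pm_033 : ℕ → ℕ → ℕ → ℕ → Bool := onCell 1610612736 536870912 0 1230186008 33554432 16777216
    (rowNK 3 2 false true false .pnn 0 3 3 (qsf 0 536870912 0 1230186008 3) ndN0q0 ndN3q3 pcN3 Cut.none Ext.none)

def k0_pm_033 : ∃ t, chk3 f_pm_033 t 1 1 1 = true :=
  ⟨(b (a (a (b (a (l 17244536) (l 17406088)) (a (l 17578200) (l 4))) (b (l 17307088) (l 4))) (l 4)) (l 4)), by decide +kernel⟩

theorem c_pm_033 : CertN 0 536870912 0 1230186008 33554432 16777216 3 false true false .pnn 0 3 3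
    ndN0q0 ndN3q3 pcN3 Cut.none Ext.none :=
  certNK2 (fam := false) (s1 := true) (s2 := false) (a := 0) (b := 3) (c := 3) (cn := .pnn) (n1 := ndN0q0) (n2 := ndN3q3) (pc := pcN3) (cut := Cut.none) (xt := Ext.none) (P1 := 0) (W1 := 536870912) (P2 := 0) (W2 := 1230186008) (P3 := 33554432) (W3 := 16777216) (N0 := 3)
    rfl rfl rfl (fun _ => rfl) k0_pm_033

noncomputable def f_pm_101 : ℕ → ℕ → ℕ → ℕ → Bool := onCell 536870912 536870912 536870912 536870912 33554432 16777216
    (rowNK 3 0 false true false .npn 1 0 1 (qsf 536870912 536870912 536870912 536870912 0) ndN0q1 ndN3q1 pcN0 Cut.none Ext.none)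

def k0_pm_101 : ∃ t, chk3 f_pm_101 t 1 1 1 = true :=
  ⟨(l 4), by decide +kernel⟩

theorem c_pm_101 : CertN 536870912 536870912 536870912 536870912 33554432 16777216 3 false true false .npn 1 0 1
    ndN0q1 ndN3q1 pcN0 Cut.none Ext.none :=
  certNK0 (fam := false) (s1 := true) (s2 := false) (a := 1) (b := 0) (c := 1) (cn := .npn) (n1 := ndN0q1) (n2 := ndN3q1) (pc := pcN0) (cut := Cut.none) (xt := Ext.none) (P1 := 536870912) (W1 := 536870912) (P2 := 536870912) (W2 := 536870912) (P3 := 33554432) (W3 := 16777216) (N0 := 3)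
    rfl rfl rfl k0_pm_101

noncomputable def f_pm_102 : ℕ → ℕ → ℕ → ℕ → Bool := onCell 536870912 536870912 0 536870912 33554432 16777216
    (rowNK 3 1 false true false .npp 1 0 2 (qsf 536870912 536870912 1073741824 536870912 0) ndN0q1 ndN3q2 pcN0 Cut.none Ext.none)

def k0_pm_102 : ∃ t, chk3 f_pm_102 t 1 1 1 = true :=
  ⟨(a (b (l 4) (b (l 4) (a (l 4) (a (l 4) (l 272969968615))))) (b (a (b (a (l 1) (b (l 1) (l 19445880))) (a (a (l 4) (l 19161408)) (b (l 19327008) (l 19208736)))) (b (c (a (l 20097288) (l 20609080)) (a (l 19384120) (l 19453056))) (a (b (l 19506944) (l 19406464)) (b (c (l 20326136) (a (l 18874576) (l 18676184))) (c (a (l 20147928) (l 20134856)) (c (l 18775144) (l 18145616))))))) (a (b (a (b (l 18993352) (l 18863736)) (b (l 19062368) (l 18893808))) (a (b (l 18755440) (l 18668056)) (b (l 18717056) (c (l 18923576) (l 17923976))))) (a (b (b (c (l 19754640) (c (l 18810688) (l 18193360))) (c (a (l 19544904) (l 19431176)) (l 18342376))) (b (a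 (c (l 19168936) (l 17917488)) (c (l 18677736) (l 17506048))) (a (b (l 18358264) (l 17666224)) (b (l 17365608) (l 17364432))))) (a (b (b (c (l 19756240) (l 18255680)) (c (b (l 18986384) (l 18420416)) (l 17609176))) (b (c (l 17736208) (l 17511824)) (l 17799704))) (b (b (c (l 19087384) (l 17707016)) (b (l 17849408) (l 17616424))) (b (l 17997568) (a (l 18112104) (l 18244416))))))))), by decide +kernel⟩

theorem c_pm_102 : CertN 536870912 536870912 1073741824 536870912 33554432 16777216 3 false true false .npp 1 0 2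
    ndN0q1 ndN3q2 pcN0 Cut.none Ext.none :=
  certNK1 (fam := false) (s1 := true) (s2 := false) (a := 1) (b := 0) (c := 2) (cn := .npp) (n1 := ndN0q1) (n2 := ndN3q2) (pc := pcN0) (cut := Cut.none) (xt := Ext.none) (P1 := 536870912) (W1 := 536870912) (P2 := 1073741824) (W2 := 536870912) (P3 := 33554432) (W3 := 16777216) (N0 := 3)
    rfl rfl rfl (fun _ => rfl) k0_pm_102

noncomputable def f_pm_112 : ℕ → ℕ → ℕ → ℕ → Bool := onCell 536870912 536870912 1073741824 536870912 33554432 16777216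
    (rowNK 3 2 false true false .dn 1 1 2 (qsf 536870912 536870912 1073741824 536870912 1) ndN0q1 ndN3q2 pcN1 Cut.none Ext.none)

def k0_pm_112 : ∃ t, chk3 f_pm_112 t 1 1 1 = true :=
  ⟨(a (b (a (b (l 4) (l 82918691271)) (l 4)) (a (b (a (l 19303160) (l 19281152)) (b (l 19174304) (l 18956016))) (b (l 19613656) (a (l 19319200) (l 19524952))))) (b (l 4) (a (b (l 4) (l 19928112)) (l 4)))), by decide +kernel⟩

theorem c_pm_112 : CertN 536870912 536870912 1073741824 536870912 33554432 16777216 3 false true false .dn 1 1 2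
    ndN0q1 ndN3q2 pcN1 Cut.none Ext.none :=
  certNK2 (fam := false) (s1 := true) (s2 := false) (a := 1) (b := 1) (c := 2) (cn := .dn) (n1 := ndN0q1) (n2 := ndN3q2) (pc := pcN1) (cut := Cut.none) (xt := Ext.none) (P1 := 536870912) (W1 := 536870912) (P2 := 1073741824) (W2 := 536870912) (P3 := 33554432) (W3 := 16777216) (N0 := 3)
    rfl rfl rfl (fun _ => rfl) k0_pm_112

noncomputable def cut_pm_113 : Cut := Cut.of [[⟨0, 1, 0, 7061502⟩, ⟨1, 1, 0, 7061502⟩, ⟨2, 2, 0, 184626⟩]]

noncomputable def f_pm_113 : ℕ → ℕ → ℕ → ℕ → Bool := onCell 536870912 536870912 0 1230186008 33554432 16777216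
    (rowNK 3 2 false true false .nn 1 1 3 (qsf 536870912 536870912 0 1230186008 1) ndN0q1 ndN3q3 pcN1 cut_pm_113 Ext.none)

def k0_pm_113 : ∃ t, chk3 f_pm_113 t 1 1 1 = true :=
  ⟨(a (b (l 2) (b (a (l 2) (b (l 2) (a (l 2) (b (l 2) (l 989018288615))))) (a (b (l 2) (a (b (l 2) (b (l 17297528) (l 17527016))) (b (l 17463432) (l 17665296)))) (b (a (b (a (l 2) (l 17186312)) (l 17284864)) (b (l 17104872) (l 17442832))) (b (a (l 17543864) (l 17821952)) (l 18210320)))))) (a (b (l 2) (b (b (a (l 2) (b (l 1134510113063) (l 17092968))) (a (b (l 17433280) (l 17069112)) (b (l 17072384) (l 17375120)))) (b (a (b (l 17384888) (l 17755672)) (l 17901856)) (b (l 18251920) (l 18577728))))) (a (b (b (l 2) (b (a (l 2) (l 1481864654343)) (a (l 1224167294967) (l 16923496)))) (b (b (l 504760428151) (l 17545432)) (b (l 18252424) (l 18844800)))) (b (b (a (l 2) (b (a (l 2) (b (a (l 2) (b (a (l 2) (b (l 6) (l 854262288455))) (l 846746099911))) (l 829566239959))) (l 778026697063)))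 (b (l 700180944919) (a (l 16941896) (l 17044736)))) (a (b (b (l 17249024) (l 17888728)) (b (l 18544768) (l 19019704))) (b (a (b (l 17384408) (l 18085616)) (a (l 17791824) (l 17857160))) (a (b (l 18683000) (l 19174416)) (b (a (l 18771232) (l 18816720)) (a (l 19274984) (l 19324128)))))))))), by decide +kernel⟩

theorem c_pm_113 : CertN 536870912 536870912 0 1230186008 33554432 16777216 3 false true false .nn 1 1 3
    ndN0q1 ndN3q3 pcN1 cut_pm_113 Ext.none :=
  certNK2 (fam := false) (s1 := true) (s2 := false) (a := 1) (b := 1) (c := 3) (cn := .nn) (n1 := ndN0q1) (n2 := ndN3q3) (pc := pcN1) (cut := cut_pm_113) (xt := Ext.none) (P1 := 536870912) (W1 := 536870912) (P2 := 0) (W2 := 1230186008) (P3 := 33554432) (W3 := 16777216) (N0 := 3)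
    rfl rfl rfl (fun _ => rfl) k0_pm_113

noncomputable def cut_pm_123 : Cut := Cut.of [[⟨0, 1, 0, 7061502⟩, ⟨1, 1, 0, 7061502⟩, ⟨2, 2, 0, 184626⟩]]

noncomputable def f_pm_123 : ℕ → ℕ → ℕ → ℕ → Bool := onCell 1073741824 536870912 0 1230186008 33554432 16777216
    (rowNK 3 2 false true false .npn 1 2 3 (qsf 536870912 536870912 0 1230186008 2) ndN0q1 ndN3q3 pcN2 cut_pm_123 Ext.none)

def k0_pm_123 : ∃ t, chk3 f_pm_123 t 1 1 1 = true :=
  ⟨(b (b (a (a (a (a (a (b (a (b (b (a (b (l 6) (l 16788760)) (l 16791552)) (l 16801928)) (l 16827936)) (l 16825816)) (a (l 16903160) (l 16919352))) (b (l 16847216) (l 16943944))) (l 16969936)) (l 17329776)) (a (l 17354888) (l 17548520))) (a (l 17588952) (l 17616840))) (a (a (a (a (a (a (l 17192848) (l 17236440)) (l 17268576)) (l 17431600)) (b (l 17381008) (l 17689904))) (a (l 17707400) (l 17817448))) (a (a (l 17817440) (l 17749360)) (a (l 17715016) (l 17597192))))) (b (a (b (a (a (a (a (a (l 17787328) (l 17831616))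 (l 17897312)) (l 17993032)) (l 18077144)) (l 18222248)) (a (l 18503256) (l 18504408))) (a (b (l 18056360) (l 18311976)) (b (l 17760928) (l 1)))) (a (a (b (a (l 18932792) (l 18920576)) (b (l 4) (l 4))) (b (l 18866688) (l 4))) (l 1)))), by decide +kernel⟩

theorem c_pm_123 : CertN 536870912 536870912 0 1230186008 33554432 16777216 3 false true false .npn 1 2 3
    ndN0q1 ndN3q3 pcN2 cut_pm_123 Ext.none :=
  certNK2 (fam := false) (s1 := true) (s2 := false) (a := 1) (b := 2) (c := 3) (cn := .npn) (n1 := ndN0q1) (n2 := ndN3q3) (pc := pcN2) (cut := cut_pm_123) (xt := Ext.none) (P1 := 536870912) (W1 := 536870912) (P2 := 0) (W2 := 1230186008) (P3 := 33554432) (W3 := 16777216) (N0 := 3)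
    rfl rfl rfl (fun _ => rfl) k0_pm_123

noncomputable def f_pm_133 : ℕ → ℕ → ℕ → ℕ → Bool := onCell 536870912 536870912 0 1230186008 33554432 16777216
    (rowNK 3 0 false true false .dn 1 3 3 (qsf 536870912 536870912 0 1230186008 3) ndN0q1 ndN3q3 pcN3 Cut.none Ext.none)

def k0_pm_133 : ∃ t, chk3 f_pm_133 t 1 1 1 = true :=
  ⟨(b (b (a (a (a (l 16967800) (l 1)) (l 1)) (l 1)) (l 1)) (l 1)), by decide +kernel⟩

theorem c_pm_133 : CertN 536870912 536870912 0 1230186008 33554432 16777216 3 false true false .dn 1 3 3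
    ndN0q1 ndN3q3 pcN3 Cut.none Ext.none :=
  certNK0 (fam := false) (s1 := true) (s2 := false) (a := 1) (b := 3) (c := 3) (cn := .dn) (n1 := ndN0q1) (n2 := ndN3q3) (pc := pcN3) (cut := Cut.none) (xt := Ext.none) (P1 := 536870912) (W1 := 536870912) (P2 := 0) (W2 := 1230186008) (P3 := 33554432) (W3 := 16777216) (N0 := 3)
    rfl rfl rfl k0_pm_133

noncomputable def f_pm_202 : ℕ → ℕ → ℕ → ℕ → Bool := onCell 0 536870912 0 536870912 33554432 16777216
    (rowNK 3 1 false true false .pp 2 0 2 (qsf 0 536870912 1073741824 536870912 0) ndN0q2 ndN3q2 pcN0 Cut.none Ext.none)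

def k0_pm_202 : ∃ t, chk3 f_pm_202 t 1 1 1 = true :=
  ⟨(b (a (b (a (b (b (a (l 154792051095) (a (l 19279440) (l 19140936))) (a (l 18933480) (l 19063696))) (l 159085275207)) (b (a (b (l 18731120) (l 18888512)) (c (b (l 18433904) (l 18202392)) (l 18547528))) (a (l 18737416) (l 18573032)))) (a (a (l 3) (b (l 18261600) (l 204717969479))) (b (a (l 18408368) (l 18456888)) (a (l 17913944) (l 18178336))))) (b (a (b (c (a (b (l 19066344) (l 18564272)) (b (l 20084208) (l 19549120))) (a (b (l 18207408) (l 18297072)) (c (l 18596760) (l 18228224)))) (c (a (b (l 18123200) (l 18064656)) (b (l 18992152) (l 18481768))) (a (l 18335936) (l 18119832)))) (b (c (a (l 20835752) (l 20793816)) (c (l 19512784) (a (l 18404344) (l 18658688)))) (c (a (b (l 20107984) (l 19562184)) (l 20552856)) (a (c (l 18628488) (l 18093336)) (c (l 19169200) (l 18278312)))))) (a (b (a (l 18423152) (c (b (l 17938720) (l 18005592)) (l 18250256))) (a (l 18304856) (l 18360816))) (b (a (c (b (l 19002752)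 (l 18448376)) (l 17946024)) (c (b (l 20169088) (l 19667048)) (c (l 18692864) (l 17920728)))) (a (b (c (l 17869440) (l 18020048)) (l 18049160)) (c (b (l 19111296) (l 18581152)) (l 17946216))))))) (a (b (a (l 3) (b (a (l 17472200) (l 17789864)) (a (l 17201872) (l 17429152)))) (a (l 2) (a (l 2) (l 1438915842231)))) (a (b (b (l 18166936) (l 17989400)) (a (l 17524512) (l 17947304))) (a (b (b (l 18287120) (l 18356944)) (l 18088720)) (b (b (b (c (l 17976848) (l 17811376)) (l 17839528)) (l 18222720)) (b (a (l 18336104) (l 18299192)) (l 18273984))))))), by decide +kernel⟩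

theorem c_pm_202 : CertN 0 536870912 1073741824 536870912 33554432 16777216 3 false true false .pp 2 0 2
    ndN0q2 ndN3q2 pcN0 Cut.none Ext.none :=
  certNK1 (fam := false) (s1 := true) (s2 := false) (a := 2) (b := 0) (c := 2) (cn := .pp) (n1 := ndN0q2) (n2 := ndN3q2) (pc := pcN0) (cut := Cut.none) (xt := Ext.none) (P1 := 0) (W1 := 536870912) (P2 := 1073741824) (W2 := 536870912) (P3 := 33554432) (W3 := 16777216) (N0 := 3)
    rfl rfl rfl (fun _ => rfl) k0_pm_202

noncomputable def f_pm_203 : ℕ → ℕ → ℕ → ℕ → Bool := onCell 0 536870912 0 1230186008 33554432 16777216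
    (rowNK 3 0 false true false .up 2 0 3 (qsf 0 536870912 0 1230186008 0) ndN0q2 ndN3q3 pcN0 Cut.none Ext.none)

def k0_pm_203 : ∃ t, chk3 f_pm_203 t 1 1 1 = true :=
  ⟨(b (l 2) (b (l 2) (a (a (l 3) (b (a (l 3) (b (l 2) (l 244445265063))) (b (a (l 3) (l 17570136)) (a (l 248203867463) (l 17722792))))) (b (l 2) (a (b (l 18292992) (l 18508632)) (b (l 18790584) (l 18969648))))))), by decide +kernel⟩

theorem c_pm_203 : CertN 0 536870912 0 1230186008 33554432 16777216 3 false true false .up 2 0 3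
    ndN0q2 ndN3q3 pcN0 Cut.none Ext.none :=
  certNK0 (fam := false) (s1 := true) (s2 := false) (a := 2) (b := 0) (c := 3) (cn := .up) (n1 := ndN0q2) (n2 := ndN3q3) (pc := pcN0) (cut := Cut.none) (xt := Ext.none) (P1 := 0) (W1 := 536870912) (P2 := 0) (W2 := 1230186008) (P3 := 33554432) (W3 := 16777216) (N0 := 3)
    rfl rfl rfl k0_pm_203

noncomputable def cut_pm_213 : Cut := Cut.of [[⟨0, 1, 0, 7061502⟩, ⟨1, 1, 0, 7061502⟩, ⟨2, 2, 0, 184626⟩]]

noncomputable def f_pm_213 : ℕ → ℕ → ℕ → ℕ → Bool := onCell 0 536870912 0 1230186008 33554432 16777216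
    (rowNK 3 0 false true false .pnn 2 1 3 (qsf 0 536870912 0 1230186008 1) ndN0q2 ndN3q3 pcN1 cut_pm_213 Ext.none)

def k0_pm_213 : ∃ t, chk3 f_pm_213 t 1 1 1 = true :=
  ⟨(b (a (l 3) (b (a (l 3) (a (b (l 3) (a (l 3) (b (l 3) (l 320679825255)))) (b (a (b (l 3) (a (l 3) (l 321216650487))) (b (a (b (l 3) (b (l 3) (l 307794850887))) (b (a (b (l 3) (a (l 3) (b (l 3) (l 291688690599)))) (b (l 6) (a (b (b (l 6) (a (l 281488141015) (l 270750718855))) (l 270750721863)) (l 16799400)))) (a (b (a (l 294909928135) (b (l 272361336471) (l 269676994327))) (l 269140124023)) (l 16800720)))) (a (b (a (l 307794840295) (l 271824480487)) (l 266992669655)) (l 16803432)))) (a (b (a (l 319606020135) (l 271824553399)) (l 263771549495)) (b (l 16831576) (l 16806544)))))) (a (a (l 3) (b (l 3) (b (l 3) (l 258403429399)))) (a (b (a (b (l 3) (l 336249319095)) (b (l 280951439687) (l 252497355479))) (a (b (l 252497617383) (l 17122768)) (l 17066880))) (b (b (l 17004104) (l 16869752))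 (l 17162264)))))) (b (a (l 3) (a (b (a (l 3) (a (l 328196810263) (l 17325608))) (a (b (l 333028509175) (l 17370680)) (b (l 17215088) (l 17192680)))) (b (a (l 17374536) (l 17119328)) (a (l 17250480) (l 17123928))))) (a (a (l 3) (b (a (l 3) (b (l 3) (l 260014557047))) (b (a (l 1) (l 17465008)) (l 1)))) (b (a (a (b (l 17268840) (l 17317400)) (l 17435424)) (a (l 17211768) (b (l 17100944) (l 17129896)))) (a (b (a (l 17317976) (l 17209256)) (l 1)) (b (a (l 17119864) (l 17244536)) (a (l 17191416) (l 17379432)))))))), by decide +kernel⟩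

theorem c_pm_213 : CertN 0 536870912 0 1230186008 33554432 16777216 3 false true false .pnn 2 1 3
    ndN0q2 ndN3q3 pcN1 cut_pm_213 Ext.none :=
  certNK0 (fam := false) (s1 := true) (s2 := false) (a := 2) (b := 1) (c := 3) (cn := .pnn) (n1 := ndN0q2) (n2 := ndN3q3) (pc := pcN1) (cut := cut_pm_213) (xt := Ext.none) (P1 := 0) (W1 := 536870912) (P2 := 0) (W2 := 1230186008) (P3 := 33554432) (W3 := 16777216) (N0 := 3)
    rfl rfl rfl k0_pm_213

noncomputable def f_mm_001 : ℕ → ℕ → ℕ → ℕ → Bool := onCell 0 536870912 0 536870912 33554432 16777216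
    (rowNK 3 1 false false false .up 0 0 1 (qsf 0 536870912 536870912 536870912 0) ndN0q0 ndN3q1 pcN0 Cut.none Ext.none)

def k0_mm_001 : ∃ t, chk3 f_mm_001 t 1 1 1 = true :=
  ⟨(l 3), by decide +kernel⟩

theorem c_mm_001 : CertN 0 536870912 536870912 536870912 33554432 16777216 3 false false false .up 0 0 1
    ndN0q0 ndN3q1 pcN0 Cut.none Ext.none :=
  certNK1 (fam := false) (s1 := false) (s2 := false) (a := 0) (b := 0) (c := 1) (cn := .up) (n1 := ndN0q0) (n2 := ndN3q1) (pc := pcN0) (cut := Cut.none) (xt := Ext.none) (P1 := 0) (W1 := 536870912) (P2 := 536870912) (W2 := 536870912) (P3 := 33554432) (W3 := 16777216) (N0 := 3)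
    rfl rfl rfl (fun _ => rfl) k0_mm_001

noncomputable def f_mm_011 : ℕ → ℕ → ℕ → ℕ → Bool := onCell 0 536870912 536870912 536870912 33554432 16777216
    (rowNK 3 1 false false false .pnn 0 1 1 (qsf 0 536870912 536870912 536870912 1) ndN0q0 ndN3q1 pcN1 Cut.none Ext.none)

def k0_mm_011 : ∃ t, chk3 f_mm_011 t 1 1 1 = true :=
  ⟨(l 5), by decide +kernel⟩

theorem c_mm_011 : CertN 0 536870912 536870912 536870912 33554432 16777216 3 false false false .pnn 0 1 1
    ndN0q0 ndN3q1 pcN1 Cut.none Ext.none :=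
  certNK1 (fam := false) (s1 := false) (s2 := false) (a := 0) (b := 1) (c := 1) (cn := .pnn) (n1 := ndN0q0) (n2 := ndN3q1) (pc := pcN1) (cut := Cut.none) (xt := Ext.none) (P1 := 0) (W1 := 536870912) (P2 := 536870912) (W2 := 536870912) (P3 := 33554432) (W3 := 16777216) (N0 := 3)
    rfl rfl rfl (fun _ => rfl) k0_mm_011

noncomputable def f_mm_012 : ℕ → ℕ → ℕ → ℕ → Bool := onCell 0 536870912 1073741824 536870912 33554432 16777216
    (rowNK 3 0 false false false .pnp 0 1 2 (qsf 0 536870912 1073741824 536870912 1) ndN0q0 ndN3q2 pcN1 Cut.none Ext.none)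

def k0_mm_012 : ∃ t, chk3 f_mm_012 t 1 1 1 = true :=
  ⟨(l 5), by decide +kernel⟩

theorem c_mm_012 : CertN 0 536870912 1073741824 536870912 33554432 16777216 3 false false false .pnp 0 1 2
    ndN0q0 ndN3q2 pcN1 Cut.none Ext.none :=
  certNK0 (fam := false) (s1 := false) (s2 := false) (a := 0) (b := 1) (c := 2) (cn := .pnp) (n1 := ndN0q0) (n2 := ndN3q2) (pc := pcN1) (cut := Cut.none) (xt := Ext.none) (P1 := 0) (W1 := 536870912) (P2 := 1073741824) (W2 := 536870912) (P3 := 33554432) (W3 := 16777216) (N0 := 3)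
    rfl rfl rfl k0_mm_012

noncomputable def f_mm_022 : ℕ → ℕ → ℕ → ℕ → Bool := onCell 0 536870912 1073741824 536870912 33554432 16777216
    (rowNK 3 0 false false false .pp 0 2 2 (qsf 0 536870912 1073741824 536870912 2) ndN0q0 ndN3q2 pcN2 Cut.none Ext.none)

def k0_mm_022 : ∃ t, chk3 f_mm_022 t 1 1 1 = true :=
  ⟨(l 5), by decide +kernel⟩

theorem c_mm_022 : CertN 0 536870912 1073741824 536870912 33554432 16777216 3 false false false .pp 0 2 2
    ndN0q0 ndN3q2 pcN2 Cut.none Ext.none :=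
  certNK0 (fam := false) (s1 := false) (s2 := false) (a := 0) (b := 2) (c := 2) (cn := .pp) (n1 := ndN0q0) (n2 := ndN3q2) (pc := pcN2) (cut := Cut.none) (xt := Ext.none) (P1 := 0) (W1 := 536870912) (P2 := 1073741824) (W2 := 536870912) (P3 := 33554432) (W3 := 16777216) (N0 := 3)
    rfl rfl rfl k0_mm_022

noncomputable def f_mm_023 : ℕ → ℕ → ℕ → ℕ → Bool := onCell 0 536870912 0 1230186008 33554432 16777216
    (rowNK 3 0 false false false .up 0 2 3 (qsf 0 536870912 0 1230186008 2) ndN0q0 ndN3q3 pcN2 Cut.none Ext.none)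

def k0_mm_023 : ∃ t, chk3 f_mm_023 t 1 1 1 = true :=
  ⟨(l 5), by decide +kernel⟩

theorem c_mm_023 : CertN 0 536870912 0 1230186008 33554432 16777216 3 false false false .up 0 2 3
    ndN0q0 ndN3q3 pcN2 Cut.none Ext.none :=
  certNK0 (fam := false) (s1 := false) (s2 := false) (a := 0) (b := 2) (c := 3) (cn := .up) (n1 := ndN0q0) (n2 := ndN3q3) (pc := pcN2) (cut := Cut.none) (xt := Ext.none) (P1 := 0) (W1 := 536870912) (P2 := 0) (W2 := 1230186008) (P3 := 33554432) (W3 := 16777216) (N0 := 3)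
    rfl rfl rfl k0_mm_023

noncomputable def f_mm_033 : ℕ → ℕ → ℕ → ℕ → Bool := onCell 0 536870912 0 1230186008 33554432 16777216
    (rowNK 3 0 false false false .pnn 0 3 3 (qsf 0 536870912 0 1230186008 3) ndN0q0 ndN3q3 pcN3 Cut.none Ext.none)

def k0_mm_033 : ∃ t, chk3 f_mm_033 t 1 1 1 = true :=
  ⟨(l 5), by decide +kernel⟩

theorem c_mm_033 : CertN 0 536870912 0 1230186008 33554432 16777216 3 false false false .pnn 0 3 3
    ndN0q0 ndN3q3 pcN3 Cut.none Ext.none :=
  certNK0 (fam := false) (s1 := false) (s2 := false) (a := 0) (b := 3) (c := 3) (cn := .pnn) (n1 := ndN0q0) (n2 := ndN3q3) (pc := pcN3) (cut := Cut.none) (xt := Ext.none) (P1 := 0) (W1 := 536870912) (P2 := 0) (W2 := 1230186008) (P3 := 33554432) (W3 := 16777216) (N0 := 3)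
    rfl rfl rfl k0_mm_033

noncomputable def cut_mm_101 : Cut := Cut.of [[⟨0, 1, 0, 33554432⟩, ⟨1, 0, 0, 33554432⟩, ⟨2, 1, 0, 33554432⟩]]

noncomputable def f_mm_101 : ℕ → ℕ → ℕ → ℕ → Bool := onCell 536870912 536870912 0 536870912 33554432 16777216
    (rowNK 3 1 false false false .npn 1 0 1 (qsf 536870912 536870912 536870912 536870912 0) ndN0q1 ndN3q1 pcN0 cut_mm_101 Ext.none)

def k0_mm_101 : ∃ t, chk3 f_mm_101 t 1 1 1 = true :=
  ⟨(b (a (l 3) (a (l 3) (b (b (a (l 3) (a (l 3) (b (a (l 3) (b (l 6) (l 3))) (l 3)))) (l 3)) (l 3)))) (l 3)), by decide +kernel⟩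

theorem c_mm_101 : CertN 536870912 536870912 536870912 536870912 33554432 16777216 3 false false false .npn 1 0 1
    ndN0q1 ndN3q1 pcN0 cut_mm_101 Ext.none :=
  certNK1 (fam := false) (s1 := false) (s2 := false) (a := 1) (b := 0) (c := 1) (cn := .npn) (n1 := ndN0q1) (n2 := ndN3q1) (pc := pcN0) (cut := cut_mm_101) (xt := Ext.none) (P1 := 536870912) (W1 := 536870912) (P2 := 536870912) (W2 := 536870912) (P3 := 33554432) (W3 := 16777216) (N0 := 3)
    rfl rfl rfl (fun _ => rfl) k0_mm_101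

noncomputable def f_mm_102 : ℕ → ℕ → ℕ → ℕ → Bool := onCell 536870912 536870912 1073741824 536870912 33554432 16777216
    (rowNK 3 0 false false false .npp 1 0 2 (qsf 536870912 536870912 1073741824 536870912 0) ndN0q1 ndN3q2 pcN0 Cut.none Ext.none)

def k0_mm_102 : ∃ t, chk3 f_mm_102 t 1 1 1 = true :=
  ⟨(l 3), by decide +kernel⟩

theorem c_mm_102 : CertN 536870912 536870912 1073741824 536870912 33554432 16777216 3 false false false .npp 1 0 2
    ndN0q1 ndN3q2 pcN0 Cut.none Ext.none :=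
  certNK0 (fam := false) (s1 := false) (s2 := false) (a := 1) (b := 0) (c := 2) (cn := .npp) (n1 := ndN0q1) (n2 := ndN3q2) (pc := pcN0) (cut := Cut.none) (xt := Ext.none) (P1 := 536870912) (W1 := 536870912) (P2 := 1073741824) (W2 := 536870912) (P3 := 33554432) (W3 := 16777216) (N0 := 3)
    rfl rfl rfl k0_mm_102

noncomputable def f_mm_112 : ℕ → ℕ → ℕ → ℕ → Bool := onCell 536870912 536870912 1073741824 536870912 33554432 16777216
    (rowNK 3 0 false false false .dn 1 1 2 (qsf 536870912 536870912 1073741824 536870912 1) ndN0q1 ndN3q2 pcN1 Cut.none Ext.none)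

def k0_mm_112 : ∃ t, chk3 f_mm_112 t 1 1 1 = true :=
  ⟨(l 3), by decide +kernel⟩

theorem c_mm_112 : CertN 536870912 536870912 1073741824 536870912 33554432 16777216 3 false false false .dn 1 1 2
    ndN0q1 ndN3q2 pcN1 Cut.none Ext.none :=
  certNK0 (fam := false) (s1 := false) (s2 := false) (a := 1) (b := 1) (c := 2) (cn := .dn) (n1 := ndN0q1) (n2 := ndN3q2) (pc := pcN1) (cut := Cut.none) (xt := Ext.none) (P1 := 536870912) (W1 := 536870912) (P2 := 1073741824) (W2 := 536870912) (P3 := 33554432) (W3 := 16777216) (N0 := 3)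
    rfl rfl rfl k0_mm_112

noncomputable def f_mm_113 : ℕ → ℕ → ℕ → ℕ → Bool := onCell 536870912 536870912 0 1230186008 33554432 16777216
    (rowNK 3 0 false false false .nn 1 1 3 (qsf 536870912 536870912 0 1230186008 1) ndN0q1 ndN3q3 pcN1 Cut.none Ext.none)

def k0_mm_113 : ∃ t, chk3 f_mm_113 t 1 1 1 = true :=
  ⟨(b (l 5) (a (l 5) (b (l 5) (l 3)))), by decide +kernel⟩

theorem c_mm_113 : CertN 536870912 536870912 0 1230186008 33554432 16777216 3 false false false .nn 1 1 3
    ndN0q1 ndN3q3 pcN1 Cut.none Ext.none :=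
  certNK0 (fam := false) (s1 := false) (s2 := false) (a := 1) (b := 1) (c := 3) (cn := .nn) (n1 := ndN0q1) (n2 := ndN3q3) (pc := pcN1) (cut := Cut.none) (xt := Ext.none) (P1 := 536870912) (W1 := 536870912) (P2 := 0) (W2 := 1230186008) (P3 := 33554432) (W3 := 16777216) (N0 := 3)
    rfl rfl rfl k0_mm_113

noncomputable def f_mm_123 : ℕ → ℕ → ℕ → ℕ → Bool := onCell 1073741824 536870912 0 1230186008 33554432 16777216
    (rowNK 3 2 false false false .npn 1 2 3 (qsf 536870912 536870912 0 1230186008 2) ndN0q1 ndN3q3 pcN2 Cut.none Ext.none)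

def k0_mm_123 : ∃ t, chk3 f_mm_123 t 1 1 1 = true :=
  ⟨(b (l 5) (l 5)), by decide +kernel⟩

theorem c_mm_123 : CertN 536870912 536870912 0 1230186008 33554432 16777216 3 false false false .npn 1 2 3
    ndN0q1 ndN3q3 pcN2 Cut.none Ext.none :=
  certNK2 (fam := false) (s1 := false) (s2 := false) (a := 1) (b := 2) (c := 3) (cn := .npn) (n1 := ndN0q1) (n2 := ndN3q3) (pc := pcN2) (cut := Cut.none) (xt := Ext.none) (P1 := 536870912) (W1 := 536870912) (P2 := 0) (W2 := 1230186008) (P3 := 33554432) (W3 := 16777216) (N0 := 3)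
    rfl rfl rfl (fun _ => rfl) k0_mm_123

noncomputable def f_mm_133 : ℕ → ℕ → ℕ → ℕ → Bool := onCell 1610612736 536870912 0 1230186008 33554432 16777216
    (rowNK 3 2 false false false .dn 1 3 3 (qsf 536870912 536870912 0 1230186008 3) ndN0q1 ndN3q3 pcN3 Cut.none Ext.none)

def k0_mm_133 : ∃ t, chk3 f_mm_133 t 1 1 1 = true :=
  ⟨(l 5), by decide +kernel⟩

theorem c_mm_133 : CertN 536870912 536870912 0 1230186008 33554432 16777216 3 false false false .dn 1 3 3
    ndN0q1 ndN3q3 pcN3 Cut.none Ext.none :=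
  certNK2 (fam := false) (s1 := false) (s2 := false) (a := 1) (b := 3) (c := 3) (cn := .dn) (n1 := ndN0q1) (n2 := ndN3q3) (pc := pcN3) (cut := Cut.none) (xt := Ext.none) (P1 := 536870912) (W1 := 536870912) (P2 := 0) (W2 := 1230186008) (P3 := 33554432) (W3 := 16777216) (N0 := 3)
    rfl rfl rfl (fun _ => rfl) k0_mm_133

noncomputable def f_mm_202 : ℕ → ℕ → ℕ → ℕ → Bool := onCell 0 536870912 0 536870912 33554432 16777216
    (rowNK 3 1 false false false .pp 2 0 2 (qsf 0 536870912 1073741824 536870912 0) ndN0q2 ndN3q2 pcN0 Cut.none Ext.none)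

def k0_mm_202 : ∃ t, chk3 f_mm_202 t 1 1 1 = true :=
  ⟨(b (l 3) (l 3)), by decide +kernel⟩

theorem c_mm_202 : CertN 0 536870912 1073741824 536870912 33554432 16777216 3 false false false .pp 2 0 2
    ndN0q2 ndN3q2 pcN0 Cut.none Ext.none :=
  certNK1 (fam := false) (s1 := false) (s2 := false) (a := 2) (b := 0) (c := 2) (cn := .pp) (n1 := ndN0q2) (n2 := ndN3q2) (pc := pcN0) (cut := Cut.none) (xt := Ext.none) (P1 := 0) (W1 := 536870912) (P2 := 1073741824) (W2 := 536870912) (P3 := 33554432) (W3 := 16777216) (N0 := 3)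
    rfl rfl rfl (fun _ => rfl) k0_mm_202

noncomputable def f_mm_203 : ℕ → ℕ → ℕ → ℕ → Bool := onCell 0 536870912 0 1230186008 33554432 16777216
    (rowNK 3 0 false false false .up 2 0 3 (qsf 0 536870912 0 1230186008 0) ndN0q2 ndN3q3 pcN0 Cut.none Ext.none)

def k0_mm_203 : ∃ t, chk3 f_mm_203 t 1 1 1 = true :=
  ⟨(b (l 2) (l 3)), by decide +kernel⟩

theorem c_mm_203 : CertN 0 536870912 0 1230186008 33554432 16777216 3 false false false .up 2 0 3
    ndN0q2 ndN3q3 pcN0 Cut.none Ext.none :=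
  certNK0 (fam := false) (s1 := false) (s2 := false) (a := 2) (b := 0) (c := 3) (cn := .up) (n1 := ndN0q2) (n2 := ndN3q3) (pc := pcN0) (cut := Cut.none) (xt := Ext.none) (P1 := 0) (W1 := 536870912) (P2 := 0) (W2 := 1230186008) (P3 := 33554432) (W3 := 16777216) (N0 := 3)
    rfl rfl rfl k0_mm_203

noncomputable def f_mm_213 : ℕ → ℕ → ℕ → ℕ → Bool := onCell 0 536870912 0 1230186008 33554432 16777216
    (rowNK 3 0 false false false .pnn 2 1 3 (qsf 0 536870912 0 1230186008 1) ndN0q2 ndN3q3 pcN1 Cut.none Ext.none)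

def k0_mm_213 : ∃ t, chk3 f_mm_213 t 1 1 1 = true :=
  ⟨(b (a (l 3) (l 5)) (l 3)), by decide +kernel⟩

theorem c_mm_213 : CertN 0 536870912 0 1230186008 33554432 16777216 3 false false false .pnn 2 1 3
    ndN0q2 ndN3q3 pcN1 Cut.none Ext.none :=
  certNK0 (fam := false) (s1 := false) (s2 := false) (a := 2) (b := 1) (c := 3) (cn := .pnn) (n1 := ndN0q2) (n2 := ndN3q3) (pc := pcN1) (cut := Cut.none) (xt := Ext.none) (P1 := 0) (W1 := 536870912) (P2 := 0) (W2 := 1230186008) (P3 := 33554432) (W3 := 16777216) (N0 := 3)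
    rfl rfl rfl k0_mm_213

end Pool.Agent.Strip051.G.I1_32_3_64.Tab.C.NB03

namespace Pool.Agent.Strip051.G.I1_32_3_64.Tab.C.NB04

open Pool.Agent.Strip051.PB Pool.Agent.Strip051.PB.T
open Pool.Agent.Strip051.G.I1_32_3_64.Tab

noncomputable def f_pp_001 : ℕ → ℕ → ℕ → ℕ → Bool := onCell 0 536870912 0 536870912 33554432 16777216
    (rowNK 3 1 false true true .up 0 0 1 (qsf 0 536870912 536870912 536870912 0) ndN0q0 ndN4q1 pcN0 Cut.none Ext.none)

def k0_pp_001 : ∃ t, chk3 f_pp_001 t 1 1 1 = true :=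
  ⟨(l 3), by decide +kernel⟩

theorem c_pp_001 : CertN 0 536870912 536870912 536870912 33554432 16777216 3 false true true .up 0 0 1
    ndN0q0 ndN4q1 pcN0 Cut.none Ext.none :=
  certNK1 (fam := false) (s1 := true) (s2 := true) (a := 0) (b := 0) (c := 1) (cn := .up) (n1 := ndN0q0) (n2 := ndN4q1) (pc := pcN0) (cut := Cut.none) (xt := Ext.none) (P1 := 0) (W1 := 536870912) (P2 := 536870912) (W2 := 536870912) (P3 := 33554432) (W3 := 16777216) (N0 := 3)
    rfl rfl rfl (fun _ => rfl) k0_pp_001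

noncomputable def cut_pp_011 : Cut := Cut.of [[⟨0, 0, 0, 33554432⟩, ⟨1, 1, 0, 33554432⟩, ⟨2, 1, 0, 33554432⟩]]

noncomputable def f_pp_011 : ℕ → ℕ → ℕ → ℕ → Bool := onCell 0 536870912 536870912 536870912 33554432 16777216
    (rowNK 3 1 false true true .pnn 0 1 1 (qsf 0 536870912 536870912 536870912 1) ndN0q0 ndN4q1 pcN1 cut_pp_011 Ext.none)

def k0_pp_011 : ∃ t, chk3 f_pp_011 t 1 1 1 = true :=
  ⟨(b (l 3) (a (b (l 3) (a (b (l 3) (a (b (l 3) (a (b (l 3) (a (l 6) (l 3))) (l 3))) (l 3))) (l 3))) (l 3))), by decide +kernel⟩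

theorem c_pp_011 : CertN 0 536870912 536870912 536870912 33554432 16777216 3 false true true .pnn 0 1 1
    ndN0q0 ndN4q1 pcN1 cut_pp_011 Ext.none :=
  certNK1 (fam := false) (s1 := true) (s2 := true) (a := 0) (b := 1) (c := 1) (cn := .pnn) (n1 := ndN0q0) (n2 := ndN4q1) (pc := pcN1) (cut := cut_pp_011) (xt := Ext.none) (P1 := 0) (W1 := 536870912) (P2 := 536870912) (W2 := 536870912) (P3 := 33554432) (W3 := 16777216) (N0 := 3)
    rfl rfl rfl (fun _ => rfl) k0_pp_011

noncomputable def cut_pp_012 : Cut := Cut.of [[⟨0, 0, 0, 33554432⟩, ⟨1, 1, 0, 33554432⟩, ⟨2, 1, 0, 33554432⟩]]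

noncomputable def f_pp_012 : ℕ → ℕ → ℕ → ℕ → Bool := onCell 0 536870912 536870912 536870912 33554432 16777216
    (rowNK 3 1 false true true .pnp 0 1 2 (qsf 0 536870912 1073741824 536870912 1) ndN0q0 ndN4q2 pcN1 cut_pp_012 Ext.none)

def k0_pp_012 : ∃ t, chk3 f_pp_012 t 1 1 1 = true :=
  ⟨(b (l 3) (a (b (l 3) (a (b (l 3) (a (b (l 3) (a (b (l 3) (a (l 6) (l 3))) (l 3))) (l 3))) (l 3))) (l 3))), by decide +kernel⟩

theorem c_pp_012 : CertN 0 536870912 1073741824 536870912 33554432 16777216 3 false true true .pnp 0 1 2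
    ndN0q0 ndN4q2 pcN1 cut_pp_012 Ext.none :=
  certNK1 (fam := false) (s1 := true) (s2 := true) (a := 0) (b := 1) (c := 2) (cn := .pnp) (n1 := ndN0q0) (n2 := ndN4q2) (pc := pcN1) (cut := cut_pp_012) (xt := Ext.none) (P1 := 0) (W1 := 536870912) (P2 := 1073741824) (W2 := 536870912) (P3 := 33554432) (W3 := 16777216) (N0 := 3)
    rfl rfl rfl (fun _ => rfl) k0_pp_012

end Pool.Agent.Strip051.G.I1_32_3_64.Tab.C.NB04

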