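import Pool.Agent.Strip051.G.I1_32_3_64.Tab
import Pool.Agent.Strip051.PB.RowK

/-! # Certificates N11 (generated) -/

set_option linter.all false
set_option maxRecDepth 100000

namespace Pool.Agent.Strip051.G.I1_32_3_64.Tab.C.NB04

open Pool.Agent.Strip051.PB Pool.Agent.Strip051.PB.T
open Pool.Agent.Strip051.G.I1_32_3_64.Tab

noncomputable def cut_pp_022 : Cut := Cut.of [[⟨0, 0, 0, 33554432⟩, ⟨1, 1, 0, 33554432⟩, ⟨2, 1, 0, 33554432⟩]]

noncomputable def f_pp_022 : ℕ → ℕ → ℕ → ℕ → Bool := onCell 0 536870912 1073741824 536870912 33554432 16777216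
    (rowNK 3 1 false true true .pp 0 2 2 (qsf 0 536870912 1073741824 536870912 2) ndN0q0 ndN4q2 pcN2 cut_pp_022 Ext.none)

def k0_pp_022 : ∃ t, chk3 f_pp_022 t 16 64 1 = true :=
  ⟨(a (l 6) (a (a (l 6) (l 3)) (l 3))), by decide +kernel⟩

def k1_pp_022 : ∃ t, chk3 f_pp_022 t 32 65 1 = true :=
  ⟨(a (l 6) (b (l 6) (a (l 6) (a (l 6) (a (l 6) (b (l 6) (b (l 6) (l 16773504)))))))), by decide +kernel⟩

def k2_pp_022 : ∃ t, chk3 f_pp_022 t 132 130 1 = true :=
  ⟨(b (l 6) (a (l 6) (b (l 6) (a (l 6) (b (l 6) (c (l 16778544) (l 16778608))))))), by decide +kernel⟩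

def k3_pp_022 : ∃ t, chk3 f_pp_022 t 133 260 1 = true :=
  ⟨(a (a (l 6) (l 3)) (l 3)), by decide +kernel⟩

def k4_pp_022 : ∃ t, chk3 f_pp_022 t 266 261 1 = true :=
  ⟨(b (a (a (l 6) (b (l 6) (l 16778392))) (a (a (b (l 6) (l 16779176)) (b (a (l 6) (l 3)) (b (b (b (a (l 6) (b (c (l 241222815207) (l 244444040743)) (a (b (l 6) (l 16778696)) (l 220284849671)))) (c (l 20568869975) (l 16778832))) (l 16778336)) (l 16780472)))) (b (l 3) (a (b (b (a (b (l 3) (b (a (c (l 213842398599) (l 218137365975)) (l 3)) (a (a (l 16778696) (l 100025765063)) (a (l 189146336663) (l 3))))) (l 3)) (b (a (l 16778880) (a (b (a (l 183777627559) (l 3)) (c (l 61371059111) (l 69424122807))) (a (b (l 3) (l 176798305607)) (l 260550168167)))) (l 16778880))) (l 16779472)) (a (b (b (l 3) (b (l 3) (b (b (l 258939555415) (a (l 169282112839) (l 3))) (a (l 56002350135) (b (l 240685944231) (l 162302790967)))))) (l 16779040)) (b (l 3) (b (b (b (b (l 253570846279) (c (c (l 182167014503) (l 186998852679)) (l 196125658119)))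 (a (l 16778688) (a (a (l 124721827031) (l 175187692855)) (l 229411655063)))) (l 16778616)) (l 16778384)))))))) (a (b (c (l 16777112) (l 16777168)) (l 16775864)) (b (a (l 16779368) (l 16778336)) (l 16777080)))), by decide +kernel⟩

def k5_pp_022 : ∃ t, chk3 f_pp_022 t 534 261 1 = true :=
  ⟨(b (b (l 3) (b (l 3) (a (a (a (b (b (l 3) (b (a (c (l 178945788631) (l 181093272103)) (l 3)) (a (l 16778688) (c (c (l 171429595751) (l 173577079399)) (l 175187692087))))) (l 16778528)) (b (l 3) (b (b (a (b (l 215989882247) (l 129553665271)) (l 3)) (a (l 16778680) (a (l 125258697927) (l 208473689479)))) (l 16778600)))) (a (b (l 3) (b (l 3) (b (a (a (l 117742505159) (l 203104980343)) (l 3)) (a (l 16778672) (c (l 137606728391) (l 153175984679)))))) (l 3))) (l 3)))) (b (a (a (l 16779120) (a (l 16778696) (b (b (b (b (a (c (l 132774890167) (l 148881017367)) (l 3)) (a (l 16778664) (a (l 97878281383) (l 186461982087)))) (l 16778584)) (l 16778352)) (l 16777872)))) (a (b (a (b (b (l 3) (b (a (a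 (l 89288346711) (l 180019531095)) (l 3)) (a (l 16778656) (a (l 82309024839) (l 173040209191))))) (l 16778504)) (b (l 270750716007) (b (b (a (a (l 16778704) (l 167134629159)) (l 249812749751)) (c (c (l 62981671895) (l 64592284679)) (l 67813510311))) (l 16778568)))) (l 16779408)) (b (a (b (l 3) (b (l 262697652039) (b (a (a (l 16778696) (l 154249727255)) (l 242296556967)) (c (l 57612962871) (l 60834188439))))) (l 284709360535)) (b (b (a (l 16778560) (b (a (a (l 16778688) (l 140291083495)) (l 234780364263)) (l 53854866599))) (l 16778480)) (l 16778240))))) (a (l 16779304) (l 16778600)))), by decide +kernel⟩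

def k6_pp_022 : ∃ t, chk3 f_pp_022 t 535 261 1 = true :=
  ⟨(b (l 3) (b (a (b (l 3) (a (b (b (l 263771394247) (a (a (l 50096770279) (b (l 226190429575) (a (l 16778672) (l 118279376039)))) (l 251960233831))) (b (b (a (l 16778584) (a (c (l 79624670119) (l 87140862983)) (l 218674236871))) (l 25400708247)) (l 16778464))) (b (l 3) (b (c (c (l 255718329559) (l 258939555975)) (l 259476426951)) (b (a (a (c (l 68350380951) (l 76403444663)) (l 209547431351)) (l 3)) (a (c (l 42580577095) (l 47412415399)) (l 219211107287))))))) (l 3)) (a (b (b (b (b (a (l 16778344) (a (l 16778568) (a (l 63518542935) (l 200420625831)))) (l 16778744)) (l 16779608)) (l 16780680)) (l 16780200)) (b (a (b (a (b (c (l 222969204151) (l 228874784023)) (b (b (a (l 16778680) (l 235317235031)) (l 77477186743)) (l 16778624))) (b (l 3) (b (l 3) (l 198273142135)))) (a (l 16778432) (a (l 16778544) (b (a (l 69424122839) (a (l 105394474119) (l 134385503399))) (l 16778536))))) (b (l 3) (b (b (l 3) (a (c (l 188609465655)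 (l 192904432967)) (l 3))) (b (a (a (l 16778648) (a (l 130627407031) (l 211158043959))) (l 3)) (a (l 16778608) (b (l 237464718871) (l 162839661879))))))) (b (b (b (a (l 16778304) (a (l 16778528) (a (l 16778640) (a (l 115058150519) (l 199346883895))))) (l 16779032)) (l 16779568)) (l 16780640)))))), by decide +kernel⟩

def k7_pp_022 : ∃ t, chk3 f_pp_022 t 66 131 1 = true :=
  ⟨(a (b (a (a (l 6) (b (l 6) (l 16773056))) (b (a (b (l 6) (l 16780296)) (b (l 16777312) (l 16781288))) (a (l 16773848) (b (l 16780280) (l 16779488))))) (b (a (a (l 16775896) (l 16776696)) (a (l 16777496) (l 16778296))) (a (a (l 16774296) (l 16775104)) (a (l 16775912) (l 16776712))))) (b (a (b (a (a (l 16777584) (l 16775568)) (b (l 16777120) (a (l 16783400) (l 16784008)))) (a (b (l 16781224) (l 16780280)) (b (l 16782424) (l 16781152)))) (a (b (b (l 16777016) (l 16777048)) (a (l 16777448) (l 16778048))) (b (b (a (l 16779232) (l 16778528)) (l 16776944)) (b (l 16779592) (l 16778304))))) (a (a (b (l 16779088)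 (l 16777520)) (b (b (l 16780280) (l 16779496)) (l 16778320))) (b (a (b (a (l 16780872) (l 16781368)) (l 16780288)) (b (l 16782264) (l 16781080))) (a (l 16779120) (l 16779912)))))), by decide +kernel⟩

def k8_pp_022 : ∃ t, chk3 f_pp_022 t 67 130 1 = true :=
  ⟨(b (l 3) (a (b (l 3) (a (a (a (b (l 3) (b (l 3) (a (b (b (b (l 3) (a (b (l 230485396999) (l 154249727287)) (l 3))) (b (a (c (c (l 76940315559) (l 78550928359)) (l 82309024887)) (l 3)) (a (l 16778592) (b (l 223506075127) (c (l 141364825191) (l 146196663447)))))) (a (l 16778392) (b (a (l 16778584) (c (l 69960993799) (l 73719090279))) (l 16778464)))) (b (l 3) (b (a (a (a (c (l 136532986967) (l 141901696183)) (l 219211106823)) (l 3)) (l 3)) (b (a (c (l 63518542839) (l 67276639319)) (l 3)) (a (l 16778568) (b (l 188072594279) (c (l 123111214151) (l 128479923287)))))))))) (l 3)) (l 3)) (l 3))) (l 3))), by decide +kernel⟩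

def k9_pp_022 : ∃ t, chk3 f_pp_022 t 67 524 1 = true :=
  ⟨(b (a (a (b (a (a (a (l 16780608) (b (a (l 16778376) (c (c (l 28621933527) (l 29695675399)) (l 31306288215))) (l 16778128))) (a (b (b (b (l 262697652087) (a (a (a (l 16778648) (l 137606728839)) (l 232096009527)) (l 3))) (a (l 40433093799) (b (l 245517782567) (b (l 165524016279) (l 109152570535))))) (c (l 16778728) (l 16778784))) (b (l 3) (a (b (b (l 240149073495) (a (l 82845895719) (l 214916140391))) (l 16778896)) (a (b (l 3) (a (l 95730797703) (l 148881018151))) (l 253033975943)))))) (l 3)) (a (a (l 16780120) (a (l 16780568) (l 16778824))) (a (a (b (a (b (b (l 213305527191) (a (l 16778624) (l 195588787527))) (l 16778712)) (a (b (l 3) (a (l 77477186487) (l 130627407079))) (l 231559139095))) (l 16779040)) (b (l 3) (b (a (b (l 192904432903) (c (c (l 93583313783) (l 95730797479)) (l 99488894023))) (l 3)) (a (l 16778528) (b (l 185388240199) (c (l 87140862919) (l 91435830327))))))) (l 3)))) (l 3)) (l 3)) (a (b (a (a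 (l 16779120) (a (l 16778712) (a (b (b (a (a (c (l 82845895607) (l 87140863015)) (l 175187692839)) (l 3)) (a (l 16778504) (b (l 169818983703) (l 75866573943)))) (l 16779648)) (b (l 3) (b (a (b (l 160692178183) (l 67813510247)) (l 3)) (a (l 16778480) (a (l 63518542935) (c (l 147807276023) (l 152639114391))))))))) (l 3)) (a (a (l 16779136) (l 16778696)) (a (a (a (b (a (a (l 34527513591) (b (c (l 139754212359) (l 144586050631)) (l 16778488))) (b (l 254107717287) (a (l 52244253159) (c (l 131164277703) (l 135996116023))))) (l 16778296)) (b (l 277193168631) (a (a (l 16778800) (b (c (l 123111214007) (l 127943052327)) (l 16778464))) (b (l 236390976407) (a (l 45264931671) (c (l 114521279383) (l 119889988631))))))) (a (b (l 3) (l 264845136279)) (l 3))) (l 3)))) (l 3))), by decide +kernel⟩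

def k10_pp_022 : ∃ t, chk3 f_pp_022 t 67 525 1 = true :=
  ⟨(b (a (a (a (l 16778168) (c (l 16777976) (l 16778088))) (b (a (a (l 16779272) (a (b (a (b (a (l 16778528) (c (l 106468215687) (l 111300054007))) (l 16778408)) (b (l 218674236823) (a (l 16778512) (c (l 97878281063) (l 102173248487))))) (l 16778240)) (b (c (l 246054653847) (l 248202137607)) (b (a (a (l 16778504) (l 94657055799)) (l 206326205847)) (a (l 16778384) (a (l 16778488) (l 86067121175))))))) (b (l 3) (b (l 3) (a (a (a (l 199346883911) (l 3)) (l 3)) (l 3))))) (a (l 16778920) (b (a (a (b (a (c (l 56002349879) (l 59223575463)) (l 193441303863)) (c (c (l 33990642343) (l 35064384327)) (l 37211868071))) (b (l 3) (a (c (l 184314498183) (l 188609465607)) (l 3)))) (l 3)) (a (a (l 16778192) (b (a (l 46875544551) (a (l 148344147047) (l 3))) (l 29158804439))) (b (l 3) (b (l 3) (a (a (l 138143599751) (l 3)) (l 3))))))))) (l 3)) (a (a (a (l 16779496) (l 16778072)) (a (l 16777952) (b (a (l 16779168) (a (a (l 16273902519)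 (b (b (a (l 131701148791) (l 3)) (l 16778448)) (l 16778208))) (a (b (b (l 3) (a (l 123111214167) (l 215453010567))) (l 16779008)) (b (l 3) (b (a (l 114521279543) (l 200957496199)) (l 16778416)))))) (l 16778856)))) (a (a (a (a (b (b (l 3) (b (l 3) (b (l 229411655095) (a (l 103246990359) (l 3))))) (a (l 16778824) (b (b (a (l 97341410311) (l 183777627207)) (l 16778392)) (l 16778224)))) (b (l 3) (a (b (b (l 3) (a (l 87677733783) (l 174650821687))) (l 16778296)) (b (l 3) (b (a (l 78550928263) (l 166060887063)) (l 16778360)))))) (a (a (b (l 3) (b (l 3) (b (l 3) (a (l 69960993639) (l 157470952455))))) (l 3)) (l 3))) (l 3)) (l 3)))), by decide +kernel⟩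

def k11_pp_022 : ∃ t, chk3 f_pp_022 t 134 263 1 = true :=
  ⟨(b (a (a (b (l 16783456) (l 16782160)) (a (l 16778456) (l 16779912))) (b (a (l 16777248) (a (l 16779016) (l 16779440))) (a (l 16779232) (l 16781720)))) (a (b (l 16772952) (l 16776608)) (a (l 16778960) (a (l 16786688) (l 16777120))))), by decide +kernel⟩

def k12_pp_022 : ∃ t, chk3 f_pp_022 t 270 263 1 = true :=
  ⟨(b (a (b (b (a (l 16778792) (a (a (l 16778440) (b (b (a (l 60834188103) (l 148344146935)) (l 16778328)) (l 16778520))) (a (b (b (l 3) (a (l 50633640583) (l 139754212343))) (l 16778320)) (b (l 3) (b (b (l 132774890471) (l 53854866055)) (l 16778304)))))) (l 16778368)) (c (l 16778984) (l 16779072))) (a (b (b (b (l 3) (b (l 3) (a (a (a (l 47949286007) (l 121500601287)) (l 3)) (l 3)))) (a (a (l 16778752) (a (l 16778552) (b (b (l 112373795751) (l 16778304)) (l 16778760)))) (a (b (b (l 218674236567) (c (l 74792831607) (l 79087799031))) (l 16778544)) (b (l 235317235143) (b (c (l 67813509703) (l 71571606231))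 (l 16778424)))))) (l 16778136)) (b (b (l 3) (b (l 3) (b (l 263771395559) (a (a (l 65129155351) (l 197736270903)) (l 3))))) (b (b (b (a (a (l 16778472) (l 58149833463)) (l 220284849495)) (a (l 16778696) (a (l 51170511575) (l 183240756215)))) (c (c (l 16810772887) (l 17347643831)) (l 18421385879))) (l 16780424))))) (b (a (l 16780488) (l 16779096)) (a (l 16790416) (l 16778872)))), by decide +kernel⟩

def k13_pp_022 : ∃ t, chk3 f_pp_022 t 271 263 1 = true :=
  ⟨(b (b (l 3) (a (a (a (b (b (l 3) (b (l 211158044087) (a (l 16778648) (l 168745241527)))) (l 16778552)) (b (l 3) (b (b (a (l 161765919639) (l 3)) (a (l 16778224) (l 154786597767))) (l 16778832)))) (a (b (l 3) (b (l 3) (b (a (l 147270404919) (l 3)) (a (l 16778416) (c (l 135996115575) (l 140827953943)))))) (l 3))) (l 3))) (a (b (a (l 16779536) (a (l 16778776) (b (b (b (a (c (l 128479922775) (l 133311761143)) (l 3)) (a (l 16778496) (c (l 120426859063) (l 125795568263)))) (l 16779088)) (l 16780984)))) (l 16781336)) (a (b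 (a (b (b (l 3) (b (a (c (l 112910666231) (l 118279375463)) (l 3)) (a (l 16778592) (c (l 105394473431) (l 110226311751))))) (l 16779872)) (b (l 3) (b (b (a (c (l 97878280615) (l 102710118951)) (l 3)) (a (l 16778688) (c (l 89825216887) (l 94657055239)))) (l 16779360)))) (l 16778280)) (a (b (b (l 3) (b (l 3) (b (a (l 87140862519) (l 3)) (a (l 16778792) (l 79624669735))))) (l 16779088)) (b (l 3) (b (b (b (a (l 72108476935) (l 3)) (c (l 42043705607) (l 44728060311))) (l 16779656)) (l 16781952))))))), by decide +kernel⟩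

def k14_pp_022 : ∃ t, chk3 f_pp_022 t 32 66 1 = true :=
  ⟨(a (a (l 6) (b (l 6) (a (l 6) (b (l 6) (l 16746640))))) (b (a (a (l 6) (a (l 6) (b (l 6) (l 16764792)))) (a (a (b (l 6) (l 16765600)) (b (l 16761040) (l 16766400))) (a (b (l 16761816) (l 16767184)) (b (a (l 16770920) (l 16771304)) (l 16767968))))) (a (b (a (l 16751640) (c (l 16754120) (l 16753208))) (a (l 16748456) (a (l 16747176) (l 16748056)))) (b (a (b (l 16753176) (l 16751648)) (a (l 16753608) (l 16775376))) (a (a (l 16769888) (l 16749808)) (l 16761456)))))), by decide +kernel⟩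

def k15_pp_022 : ∃ t, chk3 f_pp_022 t 33 66 1 = true :=
  ⟨(a (b (a (b (a (b (a (l 16783192) (l 16784008)) (l 16771536)) (b (a (l 16784816) (l 16785632)) (l 16773176))) (b (a (l 16769976) (l 16771624)) (a (l 16778920) (l 16780576)))) (b (a (b (a (l 16786440) (l 16787248)) (l 16774800)) (b (a (l 16788048) (l 16788856)) (l 16772184))) (a (b (l 16783752) (l 16769992)) (b (l 16788704) (l 16787224))))) (a (b (a (a (l 16776200) (l 16777040)) (b (l 16779056) (l 16768072))) (a (l 16773616) (l 16773016))) (b (a (b (l 16793672) (l 16798688)) (b (l 16809224) (l 16812352))) (a (l 16778200) (l 16788800))))) (b (b (a (a (b (a (l 16779104) (l 16788096)) (l 16776008)) (b (a (l 16773184) (l 16776688)) (a (l 16786440) (l 16790224)))) (a (a (b (l 16777968) (l 16791840)) (b (l 16777312) (l 16791544))) (a (b (a (l 16775688) (l 16784608)) (l 16789592)) (b (a (l 16782688) (l 16780432)) (l 16786176))))) (b (a (a (l 16792112) (l 16783792)) (a (l 16787400) (a (l 16806408) (l 16803280)))) (a (a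 (l 16789896) (l 16802272)) (a (l 16805928) (l 16802816))))) (a (a (b (a (l 16817704) (l 16804936)) (l 16808184)) (b (c (l 16932952) (l 16766104)) (l 16838952))) (a (b (a (l 16836808) (l 16836736)) (l 16862176)) (b (a (l 16835152) (l 16832240)) (l 16879464)))))), by decide +kernel⟩

def k16_pp_022 : ∃ t, chk3 f_pp_022 t 16 67 1 = true :=
  ⟨(a (a (a (b (a (l 6) (a (l 6) (l 16738440))) (a (a (l 16728808) (l 16748232)) (l 16732776))) (b (a (b (l 16741536) (l 16735696)) (b (l 16743448) (l 16737656))) (b (a (l 16732504) (l 16734512)) (a (l 16729344) (l 16731400))))) (a (b (b (a (a (l 16742232) (l 16743152)) (l 16765488)) (a (l 16739568) (l 16741448))) (a (b (l 16736480) (l 16733408)) (l 16740424))) (a (b (b (l 16767224) (l 16743288)) (b (l 16800200) (l 16839856))) (b (b (l 16769040) (l 16790904)) (b (l 16839848) (l 16888280)))))) (a (a (b (a (b (l 16781832) (l 16819072)) (b (l 16798520) (l 16848608))) (a (b (l 16857864) (l 16917896)) (b (l 16900664) (l 16995448)))) (b (b (a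 (l 16818600) (l 16845808)) (a (l 16883624) (l 16927328))) (c (l 17134720) (a (l 16815208) (l 16909424))))) (a (a (b (b (l 16883048) (l 16961256)) (l 16966896)) (b (b (l 16911640) (l 17008368)) (l 17031096))) (b (b (a (l 16933360) (l 16949632)) (l 16962928)) (b (l 17079864) (l 17134904)))))), by decide +kernel⟩

def k17_pp_022 : ∃ t, chk3 f_pp_022 t 17 32 1 = true :=
  ⟨(b (l 3) (a (b (l 3) (a (b (l 3) (a (b (l 3) (a (b (l 3) (a (a (a (b (b (l 239075331623) (b (a (l 56539220375) (l 188072594199)) (l 35064383927))) (l 16780592)) (b (l 264845137159) (a (l 19495127351) (b (b (l 171966466695) (l 16778480)) (l 16779616))))) (b (l 3) (b (a (l 223506075031) (l 3)) (b (a (a (l 16778528) (l 156397210183)) (l 3)) (a (l 16778928) (l 192367561703)))))) (l 3))) (l 3))) (l 3))) (l 3))) (l 3))), by decide +kernel⟩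

def k18_pp_022 : ∃ t, chk3 f_pp_022 t 136 132 1 = true :=
  ⟨(b (a (b (a (b (b (b (b (a (l 16781912) (a (l 16779728) (a (l 16778624) (l 139754211783)))) (l 16778352)) (l 16779952)) (l 16779936)) (l 16780160)) (b (a (b (b (b (l 3) (a (a (l 132238018983) (l 3)) (l 3))) (b (a (a (l 16778736) (l 124184955271)) (l 3)) (a (l 16779176) (a (l 116131891559) (l 3))))) (b (b (a (l 16780040) (a (l 16778848) (l 108078827879))) (l 16780120)) (l 16781472))) (b (l 3) (a (a (b (b (l 3) (l 100025764167)) (l 16779416)) (b (l 3) (b (l 91972700471) (l 16779040)))) (b (l 3) (b (l 3) (a (l 83382765783) (l 3))))))) (b (b (a (l 16783320) (a (l 16780840) (a (l 16779560) (b (l 74792831159) (l 16779168))))) (l 16778328)) (l 16781240)))) (a (l 16781488) (a (l 16777240) (l 16784576)))) (b (b (l 3) (a (b (a (a (b (b (l 3) (a (l 66739767447) (l 3))) (c (l 29695674263) (l 32380028999))) (a (b (l 3) (b (l 3) (l 50096769095))) (l 3))) (l 3)) (a (c (c (l 13589546663) (l 16778144)) (l 16778296)) (a (b (b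 (l 3) (a (l 16778240) (l 163376531719))) (l 16778256)) (a (b (l 3) (b (l 154786597111) (l 16778688))) (l 245517783671))))) (l 3))) (a (b (a (l 16782200) (l 16778224)) (l 16783784)) (a (b (b (b (b (l 239612203527) (a (a (l 16778816) (l 128479922247)) (l 3))) (a (l 16778568) (b (l 173577079319) (a (l 16778952) (l 111300052999))))) (l 16779472)) (l 16778216)) (b (b (l 3) (a (b (b (c (l 156934080535) (l 161765918935)) (a (l 16779096) (l 94120183751))) (l 16778896)) (b (l 3) (b (a (l 85530249143) (l 3)) (a (l 16779248) (l 76403443543)))))) (l 16779520)))))) (a (b (a (l 16798896) (l 16793416)) (l 16794472)) (b (a (l 16786984) (a (l 16781600) (l 16777768))) (c (l 16817424) (l 16788680))))), by decide +kernel⟩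

def k19_pp_022 : ∃ t, chk3 f_pp_022 t 137 264 1 = true :=
  ⟨(b (l 3) (a (b (l 3) (b (a (a (b (a (b (a (l 67276637991) (l 3)) (l 42580576087)) (l 3)) (a (l 16780560) (b (a (l 49559897831) (l 3)) (l 30232544919)))) (l 3)) (l 3)) (a (a (l 16780312) (b (a (b (a (l 16778112) (l 3)) (l 16777888)) (l 3)) (b (a (l 16780344) (a (l 16778096) (l 3))) (l 16777808)))) (l 287930586407)))) (l 3))), by decide +kernel⟩

def k20_pp_022 : ∃ t, chk3 f_pp_022 t 137 265 1 = true :=
  ⟨(a (b (b (b (a (l 16778944) (a (a (a (l 16778040) (b (a (l 49023026807) (l 100025763607)) (l 16780752))) (b (l 198273141063) (a (l 16778336) (b (l 105931343511) (l 16779144))))) (b (l 3) (a (l 188609464551) (l 3))))) (a (l 16779776) (a (l 16778568) (b (b (a (a (l 16779224) (l 87140861527)) (l 3)) (a (l 16779872) (l 144049178535))) (a (l 16781696) (a (l 16780000) (a (l 16777848) (l 56002348551)))))))) (a (l 16776584) (c (l 16777592) (l 16777952)))) (a (l 16791680) (l 16783288))) (b (b (b (l 3) (b (l 3) (b (l 3)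 (a (a (c (a (l 125795567047) (l 3)) (l 191293819143)) (l 3)) (l 3))))) (b (a (a (a (c (c (l 17884513335) (l 18958255239)) (l 16777888)) (b (b (l 3) (a (l 40433091943) (l 3))) (l 19495126311))) (b (l 3) (b (l 3) (a (a (l 16778032) (l 3)) (l 3))))) (l 3)) (a (b (a (l 16783464) (a (l 16778016) (b (l 3) (a (l 16778200) (l 3))))) (l 16777792)) (b (l 3) (b (l 3) (a (a (a (l 16777720) (l 3)) (l 3)) (l 3))))))) (b (a (c (l 16777584) (l 16779064)) (a (a (l 16779008) (b (b (b (l 160155305687) (a (l 16779216) (l 90362086615))) (l 16777936)) (l 16784480))) (b (b (l 3) (b (l 227801042455) (a (a (l 16779400) (l 70497862791)) (l 3)))) (b (a (l 16778136) (b (l 132238018007) (l 37748737079))) (l 16779552))))) (a (l 16779624) (c (l 16778720) (l 16777560)))))), by decide +kernel⟩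

def k21_pp_022 : ∃ t, chk3 f_pp_022 t 68 133 1 = true :=
  ⟨(a (b (a (a (l 16828160) (l 16823040)) (a (l 16817008) (l 16810176))) (a (l 16892080) (l 16880064))) (b (b (a (l 16808696) (a (l 16795768) (l 16786544))) (a (l 16830736) (l 16813496))) (a (l 16865200) (l 16827152)))), by decide +kernel⟩

def k22_pp_022 : ∃ t, chk3 f_pp_022 t 69 132 1 = true :=
  ⟨(b (l 3) (a (b (l 3) (a (a (b (b (l 3) (a (b (l 3) (a (b (l 117742503207) (l 24326964167)) (l 3))) (l 3))) (a (a (l 16779944) (a (l 10368320439) (b (b (a (l 68350379047) (l 118816244919)) (l 16780752)) (l 16784808)))) (a (b (b (l 3) (b (a (l 16777536) (l 3)) (l 16778256))) (l 16777696)) (b (l 3) (b (b (a (l 16777728) (l 3)) (l 16778456)) (l 16781800)))))) (a (a (b (l 3) (b (l 3) (b (l 3) (a (l 16778608) (a (l 20031996647) (l 69960991591)))))) (l 3)) (l 3))) (l 3))) (l 3))), by decide +kernel⟩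

def k23_pp_022 : ∃ t, chk3 f_pp_022 t 138 133 1 = true :=
  ⟨(b (a (b (b (a (l 16781888) (a (a (l 16780904) (b (b (a (l 16777504) (a (l 16777864) (l 54928606039))) (l 16782240)) (l 16786392))) (c (b (b (l 302426106631) (a (l 22179479911) (l 154249724999))) (l 10905190695)) (b (b (l 249812752263) (a (l 16777560) (l 159081563463))) (l 16777576))))) (a (l 16782472) (l 16783024))) (a (l 16799392) (l 16789552))) (a (a (b (b (b (l 3) (b (b (l 3) (a (a (l 16777536) (l 3)) (l 3))) (a (l 16777504) (a (a (l 53854863911) (l 3)) (l 3))))) (c (l 8220836151) (l 16777640))) (l 16781968)) (b (b (l 3) (b (b (b (l 3) (a (a (l 16777784) (l 3)) (l 3))) (a (l 16777936) (a (a (l 20568867223) (l 69960991223)) (l 3)))) (l 16778264))) (l 16782080))) (a (b (b (l 3) (b (l 3) (b (b (l 3) (a (a (l 16779528) (l 3)) (l 3))) (a (l 16778384) (b (l 3) (l 30232543895)))))) (b (a (l 16777672) (l 8220836439)) (l 16798400))) (b (l 3) (b (b (a (b (a (l 22716351127) (l 104320729831)) (l 16778848)) (b (l 3) (b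 (c (l 89825215191) (l 91435827735)) (l 16777576)))) (l 16779224)) (l 16782672)))))) (a (c (l 16842712) (l 16805528)) (b (l 16787056) (l 16821232)))), by decide +kernel⟩

def k24_pp_022 : ∃ t, chk3 f_pp_022 t 139 133 1 = true :=
  ⟨(b (b (l 3) (a (a (a (b (b (l 3) (a (a (l 8757708583) (b (a (l 42043704023) (l 3)) (l 16781272))) (b (l 3) (a (l 16778632) (a (l 26474447623) (l 75329700727)))))) (a (l 16778712) (l 8220843031))) (b (l 3) (b (b (a (a (l 16777552) (a (l 10905191223) (l 59223573367))) (l 3)) (a (l 16782416) (b (a (l 16779688) (l 3)) (l 16777848)))) (l 16780216)))) (b (l 3) (b (l 3) (b (a (a (b (c (l 22179480551) (l 16777576)) (l 16780712)) (l 147807274311)) (l 3)) (b (a (c (l 10368320615) (l 16777592)) (l 3)) (a (l 16779672) (a (a (l 10905191895) (l 3)) (l 3)))))))) (l 3))) (b (b (a (a (l 16786440) (a (l 16778432) (b (b (a (l 9294579655) (a (b (l 3) (l 16777872)) (l 3))) (c (l 9831452103) (l 16778632))) (l 16781240)))) (a (b (a (b (l 3) (b (l 3) (a (a (l 16778112)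 (l 3)) (l 3)))) (l 3)) (b (a (a (l 9831452935) (b (l 3) (a (l 16779664) (l 3)))) (l 3)) (b (a (l 16779192) (l 3)) (a (l 16778048) (a (a (l 16779912) (l 3)) (l 3)))))) (l 3))) (a (l 16782456) (a (b (a (l 16781760) (a (l 16779000) (b (b (l 3) (a (l 16780160) (l 3))) (l 16779080)))) (l 16779760)) (a (b (b (l 3) (b (l 3) (a (a (l 16780408) (l 30769415719)) (l 3)))) (b (a (l 16779336) (b (a (l 30769415799) (l 3)) (l 25400706807))) (l 16778328))) (a (b (l 3) (b (l 3) (a (l 24326964871) (b (l 3) (l 16778256))))) (l 3)))))) (a (l 16800352) (b (a (l 16778248) (b (b (a (l 16786568) (a (l 16782472) (a (l 16778464) (b (l 3) (l 16778512))))) (l 16778968)) (l 16780848))) (l 16784848))))), by decide +kernel⟩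

def k25_pp_022 : ∃ t, chk3 f_pp_022 t 34 67 1 = true :=
  ⟨(a (b (b (a (l 16892864) (l 16883864)) (a (l 17006168) (l 16975264))) (a (l 17042160) (l 17030168))) (b (b (a (a (l 16898288) (l 16857384)) (b (a (l 16845416) (l 16802992)) (l 16817136))) (a (l 16937512) (l 16853888))) (a (l 16991216) (l 16927848)))), by decide +kernel⟩

def k26_pp_022 : ∃ t, chk3 f_pp_022 t 35 66 1 = true :=
  ⟨(a (b (l 3) (b (l 3) (a (b (l 3) (a (a (a (b (a (b (b (l 3) (b (a (l 16779944) (l 3)) (l 16778128))) (l 16779248)) (b (l 3) (b (b (a (l 16780208) (l 3)) (l 16781008)) (l 16783256)))) (l 16781680)) (a (b (b (l 3) (b (l 3) (a (l 16781208) (a (l 16778880) (l 33990641703))))) (l 16782800)) (b (l 3) (b (a (l 16780352) (b (l 29695674519) (l 16783104))) (l 16788320))))) (b (l 3) (a (b (b (a (a (b (l 3) (l 39359351047)) (l 3)) (l 3)) (a (l 25937578215) (a (b (l 3) (l 16778464)) (l 3)))) (a (l 16780328) (l 22179481927))) (b (l 3) (b (b (l 3) (b (l 3) (a (l 36138125607) (l 3)))) (a (l 16778968) (b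 (l 3) (a (l 16780304) (l 3))))))))) (l 3))) (l 3)))) (l 3)), by decide +kernel⟩

def k27_pp_022 : ∃ t, chk3 f_pp_022 t 70 268 1 = true :=
  ⟨(b (a (b (a (a (l 16780552) (a (l 16782792) (b (l 22179482967) (l 16790800)))) (a (a (b (a (b (b (l 3) (l 36674996615)) (l 16779512)) (a (b (l 3) (l 35601254935)) (l 3))) (l 16780048)) (b (l 3) (a (b (b (l 3) (l 35064384295)) (l 16780056)) (b (l 3) (a (l 33453771463) (a (l 43117447543) (l 3))))))) (l 3))) (a (l 16787216) (b (a (l 16780736) (a (a (a (l 26474449719) (b (a (l 42043706167) (l 3)) (l 16782552))) (b (l 3) (a (l 16778568) (b (l 3) (l 16780592))))) (l 3))) (a (l 16784200) (a (l 16781160) (b (a (a (l 16778848) (l 42043706279)) (l 3)) (c (l 28621933495) (l 11442064135)))))))) (l 3)) (a (a (l 16805504) (a (l 16788976) (b (l 16779672) (l 16805000)))) (a (a (a (b (b (b (a (l 33453771911) (b (l 3) (a (l 52781125191) (l 3)))) (l 27548192039)) (l 16782304)) (l 16786208)) (b (a (b (b (l 3) (b (l 3) (a (l 16779064) (l 3)))) (l 27548192247))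 (b (l 3) (b (b (l 3) (c (l 50633640919) (l 48486156935))) (l 16779584)))) (l 16780680))) (b (b (l 3) (b (l 3) (b (l 3) (a (a (l 48486157767) (l 3)) (l 3))))) (a (a (l 24863838999) (b (a (l 33990643223) (b (l 3) (l 16782104))) (l 16787320))) (b (b (l 3) (b (l 3) (a (l 43654319703) (l 3)))) (a (l 16779336) (b (b (l 3) (l 50633642615)) (l 16780744))))))) (b (l 3) (b (l 3) (b (l 3) (a (a (a (a (l 16780040) (c (l 65129155863) (l 63518542759))) (l 3)) (l 3)) (l 3)))))))), by decide +kernel⟩

def k28_pp_022 : ∃ t, chk3 f_pp_022 t 70 269 1 = true :=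
  ⟨(a (a (l 16842224) (l 16799184)) (a (b (a (l 16791304) (b (l 16784608) (l 16807320))) (l 16810232)) (a (b (b (b (b (a (a (l 16783656) (a (l 16779016) (l 53854866919))) (l 3)) (a (l 16780064) (a (l 44191190967) (l 3)))) (a (l 16779384) (c (l 30232547351) (l 28621934327)))) (l 16785784)) (l 16793624)) (a (b (a (b (b (l 3) (b (l 3) (l 40969965671))) (l 16778896)) (b (l 3) (l 27011322055))) (l 16785336)) (b (b (l 3) (b (b (b (l 3) (a (l 67813510951) (l 3))) (b (a (l 16780400) (l 3)) (l 44191191415))) (l 31306290663))) (l 16779824)))))), by decide +kernel⟩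

def k29_pp_022 : ∃ t, chk3 f_pp_022 t 70 135 1 = true :=
  ⟨(a (b (l 16880240) (l 16950120)) (b (b (l 16802608) (l 16868920)) (l 16905320))), by decide +kernel⟩

def k30_pp_022 : ∃ t, chk3 f_pp_022 t 71 134 1 = true :=
  ⟨(b (l 3) (a (b (a (a (a (b (l 3) (b (l 3) (b (b (l 3) (a (l 57076093367) (l 3))) (b (a (l 16782304) (l 3)) (l 42043708055))))) (l 3)) (l 3)) (l 3)) (a (a (b (b (a (l 16780952) (b (b (l 3) (a (l 58686706935) (l 3))) (a (l 16781024) (c (l 61907931367) (l 60297318119))))) (l 16781656)) (l 16788152)) (a (b (b (l 3) (b (a (l 55465480743) (l 3)) (l 42043708343))) (l 16779944)) (b (l 3) (b (b (a (l 51707384903) (l 3)) (l 40433095687)) (l 16782784))))) (a (b (l 3) (b (l 3) (a (b (a (l 55465482343) (l 3)) (l 46338677271)) (b (l 3) (b (l 3) (a (l 69960996103) (l 3))))))) (l 3)))) (l 3))), by decide +kernel⟩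

def k31_pp_022 : ∃ t, chk3 f_pp_022 t 71 135 1 = true :=
  ⟨(b (b (a (a (b (a (l 16810816) (l 16778864)) (l 16796496)) (a (b (a (l 16781176) (b (b (b (a (l 16779816) (l 3)) (l 50633643479)) (l 16782160)) (l 16784024))) (l 16780072)) (b (b (b (l 3) (b (l 3) (a (a (l 64592287175) (l 3)) (l 3)))) (b (a (a (l 16781160) (c (l 76403446727) (l 75329704455))) (l 3)) (a (l 16780168) (a (l 65129157607) (l 3))))) (a (l 16782408) (b (a (l 16780640) (l 49023031047)) (l 16780032)))))) (a (a (b (l 3) (a (b (b (l 3) (a (l 60834191191) (l 3))) (l 40433096695)) (a (b (l 3) (b (l 3) (l 62981675751))) (l 3)))) (l 3)) (l 3))) (b (a (a (l 16829608) (l 16786720)) (a (a (a (l 16783656) (l 32916904247)) (a (b (b (l 3) (a (l 16780792) (l 3))) (l 16781232)) (b (l 3) (b (a (a (l 73719093671) (l 3)) (l 3)) (a (l 16781424) (l 88751478663)))))) (l 3))) (a (l 16809744) (a (a (l 16782496) (l 30769422247)) (a (a (b (b (a (l 74255964071) (l 3)) (l 57612966615)) (l 16782520)) (b (l 3) (b (a (l 69960997751)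 (l 3)) (l 54391741351)))) (l 3)))))) (a (b (l 16827840) (l 16872840)) (b (a (b (l 16789104) (l 16822048)) (b (a (a (l 16786176) (l 16780872)) (a (a (l 40433097735) (b (b (l 3) (l 72645353879)) (l 16782520))) (b (l 3) (b (a (l 16781176) (l 3)) (l 16782744))))) (a (l 16805912) (l 16784800)))) (a (l 16839960) (l 16797432))))), by decide +kernel⟩

def k32_pp_022 : ∃ t, chk3 f_pp_022 t 8 17 1 = true :=
  ⟨(a (b (b (b (a (a (a (a (l 16724184) (l 16725088)) (a (b (l 16726208) (l 16723088)) (b (l 16728304) (l 16829088)))) (a (a (l 16757272) (c (l 17090408) (l 16783976))) (c (a (l 17261408) (l 17333048)) (a (l 16799608) (l 16855528))))) (a (a (a (b (l 17040248) (l 17161360)) (l 17000920)) (a (l 17100632) (l 17192360))) (a (l 17150408) (l 17218224)))) (a (a (a (a (l 16716504) (l 16763248)) (a (l 16768088) (c (l 17213064) (l 16787560)))) (c (a (a (l 17397144) (l 17458392)) (l 17492856)) (a (l 16728000) (a (l 17013744) (l 17132968))))) (a (a (c (l 17504040) (l 17045072)) (l 17298880))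 (a (l 17352760) (l 17328712))))) (a (a (a (a (c (b (b (l 17159496) (l 17419400)) (l 17648192)) (l 16712176)) (c (b (l 17314968) (l 17709768)) (b (l 16791472) (l 17026648)))) (c (b (a (l 17533144) (l 17584016)) (l 17768624)) (b (a (l 16891736) (l 16983328)) (a (l 17151104) (l 17274488))))) (c (a (b (l 17630656) (l 17801768)) (l 17727824)) (a (b (a (l 17092792) (l 17203592)) (l 17300776)) (b (l 17172736) (l 17436280))))) (a (a (b (l 17468808) (l 17623184)) (l 17464728)) (b (l 17453432) (l 17560672))))) (a (b (a (c (a (l 17922512) (l 18033712)) (a (b (a (l 17188480) (l 17345480)) (l 17473232)) (b (l 17408000) (l 17638920)))) (a (l 17612928) (l 17824952))) (a (a (l 17898896) (l 18101920)) (l 18078800))) (b (a (l 17792808) (l 17712496)) (l 17950744)))) (b (b (a (a (b (a (l 17189744) (l 17153352)) (l 17275408)) (b (l 17048448) (l 17188136))) (a (b (a (l 17022928) (l 16977424)) (l 17094936)) (b (a (l 16890400) (b (b (l 16831888) (l 16876440)) (l 16911512))) (l 16960960)))) (a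 (a (l 17425416) (l 17330000)) (a (l 17231960) (l 17115608)))) (a (b (l 17559944) (l 17726216)) (b (l 17352656) (l 17507856))))), by decide +kernel⟩

def k33_pp_022 : ∃ t, chk3 f_pp_022 t 9 16 1 = true :=
  ⟨(a (b (l 3) (b (l 3) (a (b (l 3) (a (b (l 3) (a (b (a (a (a (a (b (b (l 3) (b (l 3) (l 106468219607))) (l 16780888)) (b (l 3) (a (l 45801807431) (b (l 79087803143) (l 16788432))))) (b (l 3) (b (b (l 3) (a (l 82845900023) (l 3))) (l 53854871271)))) (a (a (b (l 3) (b (l 3) (b (l 3) (l 76940320551)))) (l 3)) (l 3))) (l 3)) (a (a (b (l 16786088) (l 16808376)) (b (b (a (l 50633645767) (b (l 3) (a (l 78014063223) (l 3)))) (l 38822485831)) (l 16787352))) (a (a (b (b (l 3) (b (l 3) (a (l 16781568) (l 3)))) (l 39896228551)) (b (l 3) (b (b (l 3) (l 68350385191)) (l 16782536)))) (a (b (l 3) (b (l 3) (b (a (l 86067126215) (l 3)) (l 65666031607)))) (l 3))))) (l 3))) (l 3))) (l 3)))) (l 3)), by decide +kernel⟩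

def k34_pp_022 : ∃ t, chk3 f_pp_022 t 72 68 1 = true :=
  ⟨(b (b (a (b (a (l 16799760) (b (a (l 16788576) (b (b (a (l 16781744) (a (l 78014062551) (l 3))) (l 45801807911)) (l 16781112))) (l 16784528))) (a (l 16844160) (l 16801992))) (b (a (a (a (b (b (l 3) (b (a (l 16781320) (l 3)) (l 16782832))) (l 16782064)) (b (l 3) (a (l 16782184) (b (l 82845899975) (l 16789056))))) (b (l 3) (b (l 3) (a (l 60297322775) (b (l 3) (a (l 85530255463) (l 3))))))) (l 3)) (a (b (a (l 16780544) (c (l 38285615319) (l 38285614823))) (l 16786928)) (a (b (b (b (l 3) (a (a (l 16781800) (l 3)) (l 3))) (a (l 16781376) (b (l 3) (l 98952027783)))) (l 36675002919)) (b (l 3) (b (b (l 3) (a (l 75329707719) (l 3))) (b (a (l 16781280) (l 3)) (l 54391742983)))))))) (a (l 16847312) (b (a (l 16804192) (b (a (l 16803976) (c (l 16784608) (l 16782128))) (l 16789320))) (l 16816688)))) (b (a (l 16914048) (l 16850624)) (l 16916472))), by decide +kernel⟩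

def k35_pp_022 : ∃ t, chk3 f_pp_022 t 73 68 1 = true :=
  ⟨(b (b (l 3) (a (b (a (a (b (a (a (l 52244259399) (b (a (l 93046447767) (l 3)) (l 16787984))) (b (l 3) (a (l 16782968) (l 105931349783)))) (l 16784656)) (b (l 3) (b (a (l 68887256583) (l 3)) (l 51707388679)))) (b (l 3) (b (l 3) (b (l 3) (a (a (l 142438572439) (l 3)) (l 3)))))) (a (b (a (l 16806432) (l 16785944)) (l 16791712)) (a (b (b (a (l 16781776) (a (l 126869315863) (l 3))) (l 16781544)) (l 16787240)) (b (b (l 3) (b (l 3) (a (l 92509577127) (l 3)))) (b (b (a (l 16781096) (l 3)) (l 60834194455)) (l 16785488)))))) (b (l 3) (a (b (l 3) (b (l 3) (b (l 3) (a (a (l 16782408) (l 3)) (l 3))))) (l 3))))) (b (a (b (a (l 16829536) (b (l 16782968) (l 16815064))) (l 16820760)) (b (a (b (b (a (a (l 16783760) (a (l 16782896) (l 120963736023))) (l 3)) (a (l 16781576) (a (l 78550933447) (l 3)))) (a (l 16789824) (l 47949292583))) (a (b (l 3) (b (l 3) (a (l 16782432) (a (l 135459250903) (l 3))))) (l 3))) (a (b (l 16785480) (l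 16817440)) (a (b (l 16781544) (l 16802888)) (b (b (b (l 3) (a (l 100562641335) (l 3))) (b (a (l 16781160) (l 3)) (l 65129162055))) (l 16782888)))))) (a (l 16853832) (b (a (l 16833864) (l 16793424)) (l 16824792))))), by decide +kernel⟩

def k36_pp_022 : ∃ t, chk3 f_pp_022 t 36 69 1 = true :=
  ⟨(b (a (l 16982264) (a (l 16939656) (l 16857224))) (a (l 17088184) (l 17002544))), by decide +kernel⟩

def k37_pp_022 : ∃ t, chk3 f_pp_022 t 37 68 1 = true :=
  ⟨(b (l 3) (a (b (a (b (l 3) (a (b (l 3) (a (b (a (c (l 119889994279) (l 118279380967)) (l 3)) (a (l 16783816) (l 100562641287))) (l 3))) (l 3))) (l 3)) (a (a (b (a (b (l 16784232) (l 16805464)) (b (a (l 63518548023) (b (l 3) (l 16782000))) (l 16785576))) (l 16795848)) (b (b (l 3) (b (a (a (l 16781360) (l 3)) (l 3)) (a (l 16784272) (a (l 161229055527) (l 3))))) (b (a (l 16786928) (a (l 16785304) (b (l 144049186391) (l 16783408)))) (l 16782400)))) (b (l 3) (a (b (b (l 3) (a (a (l 120963736631) (l 3)) (l 3))) (b (a (l 77477192231)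 (l 3)) (a (l 16781784) (a (l 83919644199) (l 3))))) (l 3))))) (l 3))), by decide +kernel⟩

def k38_pp_022 : ∃ t, chk3 f_pp_022 t 37 69 1 = true :=
  ⟨(b (a (b (a (b (a (l 16838152) (l 16798272)) (l 16849752)) (b (a (b (a (l 16789616) (l 16782560)) (l 16785024)) (a (a (b (b (l 3) (l 16781816)) (l 16784200)) (b (l 3) (l 16785024))) (b (l 3) (a (b (l 154786605031) (l 16783200)) (l 141364832487))))) (a (l 16800688) (b (a (l 16802776) (l 16783368)) (l 16787640))))) (a (l 16881056) (b (l 16812216) (l 16853704)))) (b (a (b (l 3) (a (a (b (a (l 81772159639) (b (l 3) (l 89825224151))) (l 16784760)) (b (l 3) (a (l 16782208) (b (l 3) (l 16781784))))) (l 3))) (l 3)) (a (b (a (b (l 16790536) (l 16811208)) (a (a (l 16784672) (a (l 54928614647) (b (l 134385510455) (l 16794784)))) (b (l 173577089127) (l 69960999863)))) (a (l 16826448) (b (l 16782768) (l 16813792)))) (b (a (b (l 3) (a (c (l 154249736087) (l 153712864519)) (l 3))) (l 3)) (a (b (a (l 16783032) (a (a (l 117205641015) (l 168745249575))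 (l 3))) (l 16783424)) (a (b (l 3) (b (l 3) (l 105394480823))) (l 3))))))) (b (a (l 16861008) (a (l 16826704) (a (b (l 16790432) (l 16831184)) (b (b (a (l 16783256) (a (l 87677740615) (l 191293840791))) (l 16788848)) (l 16793056))))) (a (l 16943072) (a (l 16887232) (l 16830888))))), by decide +kernel⟩

def k39_pp_022 : ∃ t, chk3 f_pp_022 t 18 35 1 = true :=
  ⟨(b (a (a (l 17209536) (l 17121624)) (a (l 16998112) (b (l 16885120) (l 17001456)))) (a (l 17313856) (l 17083016))), by decide +kernel⟩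

def k40_pp_022 : ∃ t, chk3 f_pp_022 t 19 34 1 = true :=
  ⟨(b (l 3) (a (b (l 3) (a (b (a (b (a (a (b (l 3) (a (l 16783816) (a (l 116131899479) (l 164450282071)))) (l 3)) (l 3)) (a (b (a (l 16786104) (c (l 95193933063) (l 93583319399))) (l 16781160)) (b (l 206326213191) (a (l 68350387735) (l 149954768263))))) (l 3)) (a (b (a (l 16795664) (b (l 16782272) (l 16783936))) (l 16806536)) (b (a (b (a (a (l 139754220343) (l 3)) (l 3)) (a (l 16782352) (a (l 109689448935) (l 200957506295)))) (l 3)) (a (b (l 16787760) (l 16807672)) (a (a (l 16782576) (b (l 168208379479) (l 16793792))) (b (l 3) (l 111300061719))))))) (l 3))) (l 3))), by decide +kernel⟩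

def k41_pp_022 : ∃ t, chk3 f_pp_022 t 19 35 1 = true :=
  ⟨(a (b (a (b (b (a (l 16835032) (b (a (l 16821800) (l 16784792)) (l 16811424))) (l 16834656)) (l 16910208)) (b (b (a (a (b (b (a (l 87140870471) (l 212768686327)) (l 16784296)) (l 16787576)) (b (l 210621186743) (b (a (l 16781976) (l 189146359927)) (l 16787216)))) (a (a (a (b (l 3) (l 139217351655)) (l 229411669303)) (l 3)) (l 3))) (a (b (l 16798088) (l 16837232)) (b (a (b (a (l 16784920) (l 117742513415)) (l 16790120)) (b (l 3) (a (l 16783040) (l 215453020599)))) (a (l 16793088) (l 16783352))))) (b (a (l 16864216) (l 16791248)) (l 16862832)))) (b (l 16884016) (l 17035312))) (b (b (a (b (l 3) (a (b (l 3) (a (b (l 180019539719) (a (l 16782064) (l 190756963015))) (l 3))) (l 3))) (l 3)) (a (b (b (a (a (b (l 16787144) (l 16806376)) (b (l 143512319751) (l 87140870823))) (l 3)) (a (a (l 16819496) (l 16783928)) (a (b (a (l 16784816) (l 213305538023)) (l 16784512)) (l 205252473495)))) (a (l 16817176) (b (a (l 16786816) (b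 (a (l 16782568) (l 163376543271)) (l 16787504))) (l 16796744)))) (b (l 3) (a (b (l 213842414071) (a (l 71571614471) (b (l 3) (l 188609493783)))) (l 3))))) (b (a (b (l 16815608) (l 16891000)) (b (a (b (l 16785632) (l 16802224)) (b (a (l 124721839479) (l 3)) (a (l 16781816) (b (l 194515081143) (l 16783224))))) (a (l 16847896) (b (l 16791424) (l 16828600))))) (a (l 16940280) (l 16840664))))), by decide +kernel⟩

def k42_pp_022 : ∃ t, chk3 f_pp_022 t 4 9 1 = true :=
  ⟨(a (b (a (a (b (a (l 18328656) (l 18381664)) (l 18752768)) (b (l 18199776) (l 18464672))) (b (a (l 17947016) (l 17714496)) (l 18067304))) (a (a (l 19065624) (l 18753920)) (l 18346824))) (b (a (b (a (l 17514768) (l 17320824)) (l 17524328)) (b (b (a (l 17131840) (l 16900168)) (a (l 17251816) (l 17122584))) (b (l 17294440) (l 17394904)))) (a (b (l 17838480) (l 17996840)) (b (l 17526360) (l 17675424))))), by decide +kernel⟩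

def k43_pp_022 : ∃ t, chk3 f_pp_022 t 4 5 1 = true :=
  ⟨(a (b (b (a (l 19148352) (l 18608616)) (l 19011984)) (l 19105872)) (b (b (b (l 18145672) (l 18070752)) (l 18204968)) (l 18376080))), by decide +kernel⟩

def k44_pp_022 : ∃ t, chk3 f_pp_022 t 5 8 1 = true :=
  ⟨(a (b (l 3) (b (l 3) (a (b (l 3) (a (b (a (b (l 286320007127) (a (b (a (b (l 144586061767) (l 16786264)) (l 185925121671)) (a (l 16808712) (l 83919646519))) (l 224579839431))) (l 3)) (a (b (a (l 16805200) (b (a (l 16788512) (l 126869324391)) (l 16787432))) (a (l 16857800) (l 16810880))) (b (a (b (l 3) (a (l 187535777559) (l 3))) (l 3)) (a (b (b (l 266992690423) (l 16782056)) (l 16793576)) (b (l 212231797319) (l 110763197991)))))) (l 3))) (l 3)))) (l 3)), by decide +kernel⟩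

def k45_pp_022 : ∃ t, chk3 f_pp_022 t 5 9 1 = true :=
  ⟨(b (a (b (a (b (a (b (a (l 16849088) (b (b (b (l 16784952) (l 16800408)) (l 16811760)) (l 16834280))) (l 16840912)) (b (a (b (a (b (l 166597779655) (a (l 16781912) (l 270213900679))) (l 241759698823)) (a (l 16798296) (b (l 119353132791) (l 16782648)))) (l 296520555943)) (a (b (l 16794928) (l 16865656)) (b (a (b (a (l 16780352) (l 270750768471)) (l 16789128)) (b (l 3) (l 123648100055))) (a (l 16831416) (l 16783272)))))) (a (l 16947504) (b (a (l 16907984) (l 16820280)) (l 16939320)))) (b (a (a (a (l 300815576343) (l 3)) (l 3)) (l 3)) (a (b (a (b (a (l 16795016) (l 97878296711)) (l 16790848)) (b (l 255718363799) (a (b (l 263771466199) (l 16808800)) (l 164450305943)))) (a (l 16852032) (b (l 16797760) (l 16845016)))) (b (l 3) (b (l 270750792071) (a (l 67813526855) (l 243907202711))))))) (a (b (a (l 17117584) (l 17017840)) (l 17164960)) (b (a (b (l 16967088) (l 16954552)) (b (a (b (l 16810784) (l 16857080)) (b (a (l 16782680)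 (l 153712873383)) (a (l 16828912) (l 16789736)))) (a (l 16894400) (l 16835880)))) (a (l 17027080) (l 16989320))))) (b (l 3) (a (b (a (a (b (l 239075384951) (l 48486174967)) (l 280414510615)) (l 392083608311)) (a (a (l 16955600) (b (l 16792888) (l 16881152))) (b (a (a (l 16788864) (l 118279395783)) (l 263771425703)) (a (l 16827200) (l 54928626887))))) (b (l 3) (a (l 327122304151) (l 3)))))) (a (b (a (l 17295472) (l 17261664)) (a (l 17435256) (l 17250104))) (b (a (b (a (l 16963016) (l 16990792)) (l 17046344)) (b (a (b (a (l 16787744) (b (l 127943070375) (l 16790704))) (l 16897280)) (b (l 314774184759) (a (l 16814776) (l 148881039975)))) (a (l 16909704) (b (l 16817888) (l 16872008))))) (a (l 17117816) (b (l 16984792) (l 16991480)))))), by decide +kernel⟩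

def k46_pp_022 : ∃ t, chk3 f_pp_022 t 5 5 1 = true :=
  ⟨(b (b (b (a (l 17530280) (a (l 17184608) (l 17041536))) (b (a (l 17523008) (l 17158232)) (b (a (l 17562208) (l 17188136)) (a (l 17588568) (b (l 17205424) (l 17217288)))))) (a (l 17689520) (l 17304400))) (a (l 17882768) (l 17492192))), by decide +kernel⟩

def k47_pp_022 : ∃ t, chk3 f_pp_022 t 2 3 1 = true :=
  ⟨(a (b (a (b (l 19102120) (l 18999832)) (l 18490112)) (a (l 18914824) (l 18555272))) (b (a (b (l 18032816) (l 18140096)) (l 17815432)) (a (l 18246216) (l 2)))), by decide +kernel⟩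

def k48_pp_022 : ∃ t, chk3 f_pp_022 t 3 1 1 = true :=
  ⟨(b (b (b (l 3) (a (b (l 3) (a (b (a (b (l 382956898535) (a (b (a (l 96267683607) (l 229411680215)) (l 16805064)) (l 292225664999))) (l 3)) (a (b (a (l 16889376) (b (l 16816208) (l 16841040))) (l 16891008)) (b (a (b (l 244980957511) (l 177872119447)) (l 304036780135)) (a (l 16836536) (l 264308418839))))) (b (l 3) (a (b (l 3) (l 270750841031)) (l 3))))) (l 3))) (a (b (b (b (a (a (l 16971760) (l 16977408)) (a (b (l 259476605719) (l 16839552)) (b (l 272361442279) (l 16892928)))) (b (a (l 17007632) (l 17042632)) (a (b (l 16944632) (b (l 16948608) (l 16950464))) (b (l 16918096) (b (l 16896232) (l 16893368)))))) (a (l 17009904) (l 17014976))) (a (l 17186472) (l 17019048))) (b (b (b (b (b (l 3) (l 2)) (l 2)) (l 2)) (l 2)) (l 2)))) (a (b (a (b (l 17336328) (l 2)) (l 2)) (l 2)) (l 2))), by decide +kernel⟩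

theorem s49_pp_022 : ∃ t, chk3 f_pp_022 t 5 4 1 = true := ex3_b k44_pp_022 k45_pp_022

theorem s50_pp_022 : ∃ t, chk3 f_pp_022 t 5 2 1 = true := ex3_b s49_pp_022 k46_pp_022

theorem s51_pp_022 : ∃ t, chk3 f_pp_022 t 19 17 1 = true := ex3_b k40_pp_022 k41_pp_022

theorem s52_pp_022 : ∃ t, chk3 f_pp_022 t 37 34 1 = true := ex3_b k37_pp_022 k38_pp_022

theorem s53_pp_022 : ∃ t, chk3 f_pp_022 t 36 68 1 = true := ex3_a k34_pp_022 k35_pp_022

theorem s54_pp_022 : ∃ t, chk3 f_pp_022 t 36 34 1 = true := ex3_b s53_pp_022 k36_pp_022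

theorem s55_pp_022 : ∃ t, chk3 f_pp_022 t 18 34 1 = true := ex3_a s54_pp_022 s52_pp_022

theorem s56_pp_022 : ∃ t, chk3 f_pp_022 t 18 17 1 = true := ex3_b s55_pp_022 k39_pp_022

theorem s57_pp_022 : ∃ t, chk3 f_pp_022 t 9 17 1 = true := ex3_a s56_pp_022 s51_pp_022

theorem s58_pp_022 : ∃ t, chk3 f_pp_022 t 9 8 1 = true := ex3_b k33_pp_022 s57_pp_022

theorem s59_pp_022 : ∃ t, chk3 f_pp_022 t 71 67 1 = true := ex3_b k30_pp_022 k31_pp_022

theorem s60_pp_022 : ∃ t, chk3 f_pp_022 t 70 134 1 = true := ex3_b k27_pp_022 k28_pp_022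

theorem s61_pp_022 : ∃ t, chk3 f_pp_022 t 70 67 1 = true := ex3_b s60_pp_022 k29_pp_022

theorem s62_pp_022 : ∃ t, chk3 f_pp_022 t 35 67 1 = true := ex3_a s61_pp_022 s59_pp_022

theorem s63_pp_022 : ∃ t, chk3 f_pp_022 t 35 33 1 = true := ex3_b k26_pp_022 s62_pp_022

theorem s64_pp_022 : ∃ t, chk3 f_pp_022 t 69 133 1 = true := ex3_a k23_pp_022 k24_pp_022

theorem s65_pp_022 : ∃ t, chk3 f_pp_022 t 69 66 1 = true := ex3_b k22_pp_022 s64_pp_022

theorem s66_pp_022 : ∃ t, chk3 f_pp_022 t 137 132 1 = true := ex3_b k19_pp_022 k20_pp_022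

theorem s67_pp_022 : ∃ t, chk3 f_pp_022 t 68 132 1 = true := ex3_a k18_pp_022 s66_pp_022

theorem s68_pp_022 : ∃ t, chk3 f_pp_022 t 68 66 1 = true := ex3_b s67_pp_022 k21_pp_022

theorem s69_pp_022 : ∃ t, chk3 f_pp_022 t 34 66 1 = true := ex3_a s68_pp_022 s65_pp_022

theorem s70_pp_022 : ∃ t, chk3 f_pp_022 t 34 33 1 = true := ex3_b s69_pp_022 k25_pp_022

theorem s71_pp_022 : ∃ t, chk3 f_pp_022 t 17 33 1 = true := ex3_a s70_pp_022 s63_pp_022

theorem s72_pp_022 : ∃ t, chk3 f_pp_022 t 17 16 1 = true := ex3_b k17_pp_022 s71_pp_022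

theorem s73_pp_022 : ∃ t, chk3 f_pp_022 t 16 66 1 = true := ex3_a k14_pp_022 k15_pp_022

theorem s74_pp_022 : ∃ t, chk3 f_pp_022 t 16 33 1 = true := ex3_b s73_pp_022 k16_pp_022

theorem s75_pp_022 : ∃ t, chk3 f_pp_022 t 135 263 1 = true := ex3_a k12_pp_022 k13_pp_022

theorem s76_pp_022 : ∃ t, chk3 f_pp_022 t 67 263 1 = true := ex3_a k11_pp_022 s75_pp_022

theorem s77_pp_022 : ∃ t, chk3 f_pp_022 t 67 262 1 = true := ex3_b k9_pp_022 k10_pp_022

theorem s78_pp_022 : ∃ t, chk3 f_pp_022 t 67 131 1 = true := ex3_b s77_pp_022 s76_pp_022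

theorem s79_pp_022 : ∃ t, chk3 f_pp_022 t 67 65 1 = true := ex3_b k8_pp_022 s78_pp_022

theorem s80_pp_022 : ∃ t, chk3 f_pp_022 t 267 261 1 = true := ex3_a k5_pp_022 k6_pp_022

theorem s81_pp_022 : ∃ t, chk3 f_pp_022 t 133 261 1 = true := ex3_a k4_pp_022 s80_pp_022

theorem s82_pp_022 : ∃ t, chk3 f_pp_022 t 133 130 1 = true := ex3_b k3_pp_022 s81_pp_022

theorem s83_pp_022 : ∃ t, chk3 f_pp_022 t 66 130 1 = true := ex3_a k2_pp_022 s82_pp_022

theorem s84_pp_022 : ∃ t, chk3 f_pp_022 t 66 65 1 = true := ex3_b s83_pp_022 k7_pp_022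

theorem s85_pp_022 : ∃ t, chk3 f_pp_022 t 33 65 1 = true := ex3_a s84_pp_022 s79_pp_022

theorem s86_pp_022 : ∃ t, chk3 f_pp_022 t 16 65 1 = true := ex3_a k1_pp_022 s85_pp_022

theorem s87_pp_022 : ∃ t, chk3 f_pp_022 t 16 32 1 = true := ex3_b k0_pp_022 s86_pp_022

theorem s88_pp_022 : ∃ t, chk3 f_pp_022 t 16 16 1 = true := ex3_b s87_pp_022 s74_pp_022

theorem s89_pp_022 : ∃ t, chk3 f_pp_022 t 8 16 1 = true := ex3_a s88_pp_022 s72_pp_022

theorem s90_pp_022 : ∃ t, chk3 f_pp_022 t 8 8 1 = true := ex3_b s89_pp_022 k32_pp_022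

theorem s91_pp_022 : ∃ t, chk3 f_pp_022 t 4 8 1 = true := ex3_a s90_pp_022 s58_pp_022

theorem s92_pp_022 : ∃ t, chk3 f_pp_022 t 4 4 1 = true := ex3_b s91_pp_022 k42_pp_022

theorem s93_pp_022 : ∃ t, chk3 f_pp_022 t 4 2 1 = true := ex3_b s92_pp_022 k43_pp_022

theorem s94_pp_022 : ∃ t, chk3 f_pp_022 t 2 2 1 = true := ex3_a s93_pp_022 s50_pp_022

theorem s95_pp_022 : ∃ t, chk3 f_pp_022 t 2 1 1 = true := ex3_b s94_pp_022 k47_pp_022

theorem s96_pp_022 : ∃ t, chk3 f_pp_022 t 1 1 1 = true := ex3_a s95_pp_022 k48_pp_022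

theorem c_pp_022 : CertN 0 536870912 1073741824 536870912 33554432 16777216 3 false true true .pp 0 2 2
    ndN0q0 ndN4q2 pcN2 cut_pp_022 Ext.none :=
  certNK1 (fam := false) (s1 := true) (s2 := true) (a := 0) (b := 2) (c := 2) (cn := .pp) (n1 := ndN0q0) (n2 := ndN4q2) (pc := pcN2) (cut := cut_pp_022) (xt := Ext.none) (P1 := 0) (W1 := 536870912) (P2 := 1073741824) (W2 := 536870912) (P3 := 33554432) (W3 := 16777216) (N0 := 3)
    rfl rfl rfl (fun _ => rfl) s96_pp_022

noncomputable def f_pp_023 : ℕ → ℕ → ℕ → ℕ → Bool := onCell 1073741824 536870912 0 1230186008 33554432 16777216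
    (rowNK 3 2 false true true .up 0 2 3 (qsf 0 536870912 0 1230186008 2) ndN0q0 ndN4q3 pcN2 Cut.none Ext.none)

def k0_pp_023 : ∃ t, chk3 f_pp_023 t 1 1 1 = true :=
  ⟨(a (b (l 2) (b (b (l 2) (a (l 2) (a (l 2) (b (l 2) (l 17124632))))) (b (a (l 2) (a (a (a (l 3) (a (l 3) (b (l 2) (b (l 2) (a (l 298668079223) (a (l 16847656) (l 16793424))))))) (b (l 462883981911) (l 28018539767))) (b (l 17086096) (l 17126176)))) (a (l 3) (a (a (a (b (l 3) (b (a (l 3) (b (l 371145657527) (l 306721142263))) (a (l 307794931559) (a (l 275045778487) (l 267529664919))))) (a (b (b (a (l 3) (l 333027823703)) (a (l 355039590375) (l 252497218935))) (b (a (l 270214032823) (l 16843720)) (l 16951880))) (b (a (b (l 16842520) (l 16822760)) (a (l 16932808) (l 16908768))) (a (l 17068032) (a (l 16975304) (l 16930840)))))) (b (l 17023288) (l 17044024))) (b (l 17126136) (l 17132960))))))) (b (a (l 2) (b (l 246526494167) (b (l 17547208) (l 17441328)))) (b (a (b (a (l 2) (l 17342128)) (a (l 17208632) (l 17308712)))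 (b (l 17401104) (a (l 17398744) (l 17532864)))) (b (a (a (b (l 17160352) (l 17138592)) (l 17407160)) (b (l 17663176) (l 17986568))) (a (b (a (l 17204112) (l 17594632)) (a (l 17476096) (l 17931784))) (b (l 18208312) (l 18519688))))))), by decide +kernel⟩

theorem c_pp_023 : CertN 0 536870912 0 1230186008 33554432 16777216 3 false true true .up 0 2 3
    ndN0q0 ndN4q3 pcN2 Cut.none Ext.none :=
  certNK2 (fam := false) (s1 := true) (s2 := true) (a := 0) (b := 2) (c := 3) (cn := .up) (n1 := ndN0q0) (n2 := ndN4q3) (pc := pcN2) (cut := Cut.none) (xt := Ext.none) (P1 := 0) (W1 := 536870912) (P2 := 0) (W2 := 1230186008) (P3 := 33554432) (W3 := 16777216) (N0 := 3)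
    rfl rfl rfl (fun _ => rfl) k0_pp_023

noncomputable def f_pp_033 : ℕ → ℕ → ℕ → ℕ → Bool := onCell 1610612736 536870912 0 1230186008 33554432 16777216
    (rowNK 3 2 false true true .pnn 0 3 3 (qsf 0 536870912 0 1230186008 3) ndN0q0 ndN4q3 pcN3 Cut.none Ext.none)

def k0_pp_033 : ∃ t, chk3 f_pp_033 t 1 1 1 = true :=
  ⟨(a (b (a (b (a (l 16921776) (l 17158192)) (b (l 17202936) (a (l 17638856) (l 17678208)))) (b (a (l 17226592) (l 17312864)) (a (b (l 17119880) (l 17756736)) (l 17873240)))) (b (a (b (b (l 17892176) (l 17460584)) (a (b (l 17332336) (l 17260640)) (b (l 17332392) (l 17259744)))) (b (a (b (l 18297840) (l 18386048)) (l 18271000)) (b (a (l 17960080) (l 18588736)) (a (l 17567000) (l 17987576))))) (b (a (b (l 17667384) (l 18405944)) (b (a (l 17971368) (l 18135272)) (l 18803672))) (a (b (l 19107040) (l 19764744)) (b (l 19512272) (l 1)))))) (b (b (a (l 17866464) (l 4)) (a (a (l 17943568) (l 18151552)) (a (l 18247024) (a (l 18360736) (l 4))))) (b (a (b (a (l 18562128)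 (l 18472416)) (a (b (l 18756160) (l 18872232)) (l 151972679751))) (a (b (l 18531408) (l 1)) (l 1))) (l 1)))), by decide +kernel⟩

theorem c_pp_033 : CertN 0 536870912 0 1230186008 33554432 16777216 3 false true true .pnn 0 3 3
    ndN0q0 ndN4q3 pcN3 Cut.none Ext.none :=
  certNK2 (fam := false) (s1 := true) (s2 := true) (a := 0) (b := 3) (c := 3) (cn := .pnn) (n1 := ndN0q0) (n2 := ndN4q3) (pc := pcN3) (cut := Cut.none) (xt := Ext.none) (P1 := 0) (W1 := 536870912) (P2 := 0) (W2 := 1230186008) (P3 := 33554432) (W3 := 16777216) (N0 := 3)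
    rfl rfl rfl (fun _ => rfl) k0_pp_033

noncomputable def f_pp_101 : ℕ → ℕ → ℕ → ℕ → Bool := onCell 536870912 536870912 536870912 536870912 33554432 16777216
    (rowNK 3 0 false true true .npn 1 0 1 (qsf 536870912 536870912 536870912 536870912 0) ndN0q1 ndN4q1 pcN0 Cut.none Ext.none)

def k0_pp_101 : ∃ t, chk3 f_pp_101 t 1 1 1 = true :=
  ⟨(a (l 3) (l 5)), by decide +kernel⟩

theorem c_pp_101 : CertN 536870912 536870912 536870912 536870912 33554432 16777216 3 false true true .npn 1 0 1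
    ndN0q1 ndN4q1 pcN0 Cut.none Ext.none :=
  certNK0 (fam := false) (s1 := true) (s2 := true) (a := 1) (b := 0) (c := 1) (cn := .npn) (n1 := ndN0q1) (n2 := ndN4q1) (pc := pcN0) (cut := Cut.none) (xt := Ext.none) (P1 := 536870912) (W1 := 536870912) (P2 := 536870912) (W2 := 536870912) (P3 := 33554432) (W3 := 16777216) (N0 := 3)
    rfl rfl rfl k0_pp_101

noncomputable def f_pp_102 : ℕ → ℕ → ℕ → ℕ → Bool := onCell 536870912 536870912 1073741824 536870912 33554432 16777216
    (rowNK 3 0 false true true .npp 1 0 2 (qsf 536870912 536870912 1073741824 536870912 0) ndN0q1 ndN4q2 pcN0 Cut.none Ext.none)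

def k0_pp_102 : ∃ t, chk3 f_pp_102 t 1 1 1 = true :=
  ⟨(a (l 3) (b (l 5) (l 3))), by decide +kernel⟩

theorem c_pp_102 : CertN 536870912 536870912 1073741824 536870912 33554432 16777216 3 false true true .npp 1 0 2
    ndN0q1 ndN4q2 pcN0 Cut.none Ext.none :=
  certNK0 (fam := false) (s1 := true) (s2 := true) (a := 1) (b := 0) (c := 2) (cn := .npp) (n1 := ndN0q1) (n2 := ndN4q2) (pc := pcN0) (cut := Cut.none) (xt := Ext.none) (P1 := 536870912) (W1 := 536870912) (P2 := 1073741824) (W2 := 536870912) (P3 := 33554432) (W3 := 16777216) (N0 := 3)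
    rfl rfl rfl k0_pp_102

noncomputable def f_pp_112 : ℕ → ℕ → ℕ → ℕ → Bool := onCell 536870912 536870912 1073741824 536870912 33554432 16777216
    (rowNK 3 0 false true true .dn 1 1 2 (qsf 536870912 536870912 1073741824 536870912 1) ndN0q1 ndN4q2 pcN1 Cut.none Ext.none)

def k0_pp_112 : ∃ t, chk3 f_pp_112 t 1 1 1 = true :=
  ⟨(a (l 3) (b (l 5) (l 3))), by decide +kernel⟩

theorem c_pp_112 : CertN 536870912 536870912 1073741824 536870912 33554432 16777216 3 false true true .dn 1 1 2
    ndN0q1 ndN4q2 pcN1 Cut.none Ext.none :=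
  certNK0 (fam := false) (s1 := true) (s2 := true) (a := 1) (b := 1) (c := 2) (cn := .dn) (n1 := ndN0q1) (n2 := ndN4q2) (pc := pcN1) (cut := Cut.none) (xt := Ext.none) (P1 := 536870912) (W1 := 536870912) (P2 := 1073741824) (W2 := 536870912) (P3 := 33554432) (W3 := 16777216) (N0 := 3)
    rfl rfl rfl k0_pp_112

noncomputable def cut_pp_113 : Cut := Cut.of [[⟨0, 1, 0, 7061502⟩, ⟨1, 1, 0, 7061502⟩, ⟨2, 2, 0, 184626⟩]]

noncomputable def f_pp_113 : ℕ → ℕ → ℕ → ℕ → Bool := onCell 536870912 536870912 0 1230186008 33554432 16777216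
    (rowNK 3 2 false true true .nn 1 1 3 (qsf 536870912 536870912 0 1230186008 1) ndN0q1 ndN4q3 pcN1 cut_pp_113 Ext.none)

def k0_pp_113 : ∃ t, chk3 f_pp_113 t 1 1 1 = true :=
  ⟨(b (a (l 2) (a (l 2) (b (a (l 2) (b (a (l 2) (b (a (l 2) (b (a (l 2) (b (a (l 2) (l 6)) (l 3))) (l 3))) (l 3))) (l 3))) (l 3)))) (b (a (a (l 2) (b (l 2) (a (l 2) (l 3)))) (a (l 3) (l 3))) (a (a (b (l 2) (l 3)) (l 3)) (l 3)))), by decide +kernel⟩

theorem c_pp_113 : CertN 536870912 536870912 0 1230186008 33554432 16777216 3 false true true .nn 1 1 3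
    ndN0q1 ndN4q3 pcN1 cut_pp_113 Ext.none :=
  certNK2 (fam := false) (s1 := true) (s2 := true) (a := 1) (b := 1) (c := 3) (cn := .nn) (n1 := ndN0q1) (n2 := ndN4q3) (pc := pcN1) (cut := cut_pp_113) (xt := Ext.none) (P1 := 536870912) (W1 := 536870912) (P2 := 0) (W2 := 1230186008) (P3 := 33554432) (W3 := 16777216) (N0 := 3)
    rfl rfl rfl (fun _ => rfl) k0_pp_113

noncomputable def cut_pp_123 : Cut := Cut.of [[⟨0, 1, 0, 7061502⟩, ⟨1, 1, 0, 7061502⟩, ⟨2, 2, 0, 184626⟩]]

noncomputable def f_pp_123 : ℕ → ℕ → ℕ → ℕ → Bool := onCell 1073741824 536870912 0 1230186008 33554432 16777216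
    (rowNK 3 2 false true true .npn 1 2 3 (qsf 536870912 536870912 0 1230186008 2) ndN0q1 ndN4q3 pcN2 cut_pp_123 Ext.none)

def k0_pp_123 : ∃ t, chk3 f_pp_123 t 64 64 1 = true :=
  ⟨(a (l 6) (a (l 6) (a (a (l 6) (l 16804032)) (l 16784480)))), by decide +kernel⟩

def k1_pp_123 : ∃ t, chk3 f_pp_123 t 128 65 1 = true :=
  ⟨(l 3), by decide +kernel⟩

def k2_pp_123 : ∃ t, chk3 f_pp_123 t 258 130 1 = true :=
  ⟨(l 3), by decide +kernel⟩

def k3_pp_123 : ∃ t, chk3 f_pp_123 t 259 260 1 = true :=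
  ⟨(b (a (a (l 6) (b (l 16782832) (a (a (a (l 6) (a (l 6) (b (l 275045682055) (a (l 3) (b (l 279877520183) (l 3)))))) (b (l 16778224) (b (a (b (l 275582553079) (l 279340649207)) (l 275045682039)) (a (l 3) (b (l 279340649143) (l 3)))))) (b (l 16777904) (c (l 275045682151) (l 275045682215)))))) (l 16777768)) (b (a (a (l 3) (a (l 3) (b (b (a (a (b (l 279877520247) (l 3)) (b (l 275582553159) (l 279340649271))) (l 275045682167)) (a (l 3) (a (b (l 279340649207) (l 3)) (l 275045682343)))) (a (l 3) (a (l 3) (b (b (l 279877520311) (l 3)) (l 3))))))) (b (l 16779496) (a (a (a (a (b (b (l 275582553223) (l 279340649335)) (l 3)) (b (l 275045682167) (b (l 275582553303) (l 3)))) (l 275045682535)) (l 16778104)) (l 16777448)))) (a (l 3) (a (b (a (b (a (l 3) (a (a (l 3) (l 279877520423)) (a (l 279340649367) (l 275582553335)))) (l 3)) (a (a (b (l 275045682247) (a (l 279877520455) (l 279340649399))) (l 275045682535)) (l 16778352))) (a (l 3) (a (a (l 3) (a (l 3) (b (l 279877520487) (l 3))))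 (a (b (a (l 279340649431) (l 275582553399)) (l 3)) (b (l 275045682311) (a (l 279877520519) (l 279340649463))))))) (a (a (a (l 274508811655) (l 16779576)) (l 16778096)) (l 16777776)))))), by decide +kernel⟩

def k4_pp_123 : ∃ t, chk3 f_pp_123 t 259 261 1 = true :=
  ⟨(a (l 3) (a (l 3) (b (b (a (b (a (b (a (c (l 279340649719) (l 279877520663)) (a (l 279340649495) (l 275582553463))) (l 3)) (a (b (l 275045682455) (a (l 279877520583) (l 279340649527))) (l 275045682663))) (a (l 3) (a (l 3) (a (l 3) (b (l 279877520615) (l 3)))))) (b (l 16778312) (a (a (b (a (l 279340649559) (l 275582553527)) (l 3)) (b (l 275045682519) (a (l 279877520647) (l 279340649591)))) (l 275045682631)))) (a (l 3) (b (a (l 3) (b (a (c (l 279340649831) (l 280414391703)) (a (l 279340649623) (l 275582553591))) (l 3))) (l 3)))) (l 3)))), by decide +kernel⟩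

def k5_pp_123 : ∃ t, chk3 f_pp_123 t 129 131 1 = true :=
  ⟨(l 3), by decide +kernel⟩

def k6_pp_123 : ∃ t, chk3 f_pp_123 t 64 33 1 = true :=
  ⟨(l 3), by decide +kernel⟩

def k7_pp_123 : ∃ t, chk3 f_pp_123 t 64 17 1 = true :=
  ⟨(l 3), by decide +kernel⟩

def k8_pp_123 : ∃ t, chk3 f_pp_123 t 65 64 1 = true :=
  ⟨(l 16851296), by decide +kernel⟩

def k9_pp_123 : ∃ t, chk3 f_pp_123 t 130 130 1 = true :=
  ⟨(a (b (l 16800136) (a (a (b (b (l 16788336) (a (b (a (a (b (l 275045682583) (a (l 279877520711) (l 279340649655))) (l 275045682807)) (l 16778488)) (a (a (l 3) (a (l 3) (b (l 279877520743) (l 3)))) (a (b (a (l 279340649687) (l 275582553655)) (l 3)) (b (l 275045682647) (a (l 279877520775) (l 279340649719)))))) (b (l 16778168) (l 275045682871)))) (b (a (l 3) (b (a (b (a (c (l 279340649959) (l 280414391831)) (l 278803778775)) (l 3)) (a (b (l 275045682711) (a (l 279877520839) (l 279340649783))) (l 275045682935))) (a (l 3) (a (l 3) (a (l 3) (b (l 279877520871) (l 3))))))) (l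 3))) (b (l 16777352) (b (b (l 16780856) (a (a (a (b (l 278803778839) (l 3)) (b (l 275045682775) (a (l 279877520903) (l 279340649831)))) (l 275045682887)) (l 16778376))) (b (b (a (a (l 3) (a (l 279877521015) (l 278803778887))) (l 274508812023)) (a (l 3) (a (a (l 279340649975) (l 275582553895)) (l 16778704)))) (a (l 3) (a (a (l 3) (b (l 279877521079) (l 3))) (a (b (l 278803778951) (l 3)) (b (l 275045682823) (l 279340650039))))))))) (a (a (b (l 16777672) (b (l 16777776) (l 274508812359))) (l 16777392)) (l 16778016)))) (l 16781952)), by decide +kernel⟩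

def k10_pp_123 : ∃ t, chk3 f_pp_123 t 260 131 1 = true :=
  ⟨(b (a (l 3) (b (b (a (a (a (b (b (a (l 279877521127) (l 278803779015)) (l 3)) (l 3)) (a (b (b (l 275045682887) (l 279340650103)) (l 3)) (b (l 275045683175) (b (l 279877521191) (l 3))))) (a (b (l 16778680) (b (l 275582554151) (a (l 3) (l 279340650151)))) (l 274508812279))) (l 16778120)) (a (a (l 3) (a (l 3) (b (b (a (l 279877521239) (l 275582554231)) (l 3)) (l 3)))) (a (a (b (a (b (l 275045682999) (l 279340650215)) (l 275045683223)) (a (l 3) (b (l 279877521303) (l 3)))) (b (l 16778744) (b (l 275582554263) (a (l 3) (l 279340650263))))) (l 274508812599)))) (b (a (l 3) (a (l 3) (a (b (b (a (l 279877521351) (l 275582554343)) (l 3)) (l 3)) (b (a (b (l 16779304) (l 279340650327)) (l 275045683335)) (a (l 3) (b (l 279877521415) (l 3))))))) (l 3)))) (l 3)), by decide +kernel⟩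

def k11_pp_123 : ∃ t, chk3 f_pp_123 t 261 131 1 = true :=
  ⟨(b (a (b (l 16777192) (a (b (a (a (b (l 16778800) (b (l 275582554375) (a (l 3) (l 279340650375)))) (l 274508812519)) (l 16778448)) (a (a (l 3) (b (c (b (l 278803779479) (l 279340650887)) (b (l 279340650455) (l 280414392759))) (l 3))) (a (b (a (c (l 278266908391) (l 278803779367)) (l 275045683447)) (a (l 3) (b (l 279340650615) (l 3)))) (b (l 16778856) (b (l 275582554487) (a (l 279877521703) (l 279340650487))))))) (b (l 16777808) (l 273971941831)))) (l 16778184)) (a (b (a (l 3) (b (b (a (a (c (b (l 278803779591) (l 279340650983)) (b (l 279340650567) (l 280414392855))) (b (l 16779040) (l 278803779511))) (l 16778816)) (b (a (a (l 3) (c (l 279340650855) (l 280414392727))) (l 275045683799)) (a (l 3) (a (c (l 278803779815) (l 279877521687)) (l 275045683607))))) (a (l 3) (a (l 3) (b (b (l 279340650631) (a (l 3) (l 279877521863))) (l 3)))))) (l 3)) (b (b (l 16788408) (a (a (b (a (a (l 278266909303) (l 275045683671)) (l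 16778976)) (a (b (l 279877521895) (l 3)) (b (l 275582554711) (l 279340650855)))) (l 274508812903)) (l 16778192))) (b (a (a (l 3) (a (b (b (l 278803779831) (l 279877522119)) (l 3)) (b (c (l 277730037687) (l 278266908679)) (b (l 279877521991) (l 3))))) (a (a (b (l 16779024) (b (l 275582554823) (l 279340650951))) (l 274508812887)) (l 16778672))) (a (l 3) (b (a (a (l 3) (b (l 278803779927) (l 279877522215))) (l 275045684199)) (a (l 3) (a (b (l 279340651175) (l 3)) (a (l 278803780071) (l 275045684247)))))))))), by decide +kernel⟩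

def k12_pp_123 : ∃ t, chk3 f_pp_123 t 131 65 1 = true :=
  ⟨(b (l 16806032) (a (b (l 16780680) (a (b (l 16777808) (a (l 273971942231) (l 16777504))) (l 16778840))) (l 16803720))), by decide +kernel⟩

def k13_pp_123 : ∃ t, chk3 f_pp_123 t 130 66 1 = true :=
  ⟨(a (l 3) (l 3)), by decide +kernel⟩

def k14_pp_123 : ∃ t, chk3 f_pp_123 t 131 132 1 = true :=
  ⟨(a (b (a (b (b (a (a (a (b (a (l 279877522231) (l 278803780119)) (l 3)) (b (l 275045684183) (a (l 279877522599) (l 279340651367)))) (a (b (l 16779128) (c (l 278266909095) (l 278803780087))) (l 16779088))) (l 16778560)) (b (a (a (l 3) (a (a (l 3) (l 279877522631)) (a (l 279877522311) (l 278803780215)))) (l 274508813559)) (a (l 3) (a (a (a (l 279877522679) (l 279877522359)) (l 278803780791)) (l 16779208))))) (a (l 3) (b (a (a (l 3) (b (c (l 279877522855) (l 280414393831)) (l 3))) (a (b (c (l 278803780407) (l 279877522311)) (l 3)) (b (l 275045684391) (c (l 279340651671) (l 279877522647))))) (l 3)))) (b (l 16777592) (a (b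 (a (a (b (l 16779232) (l 278803780231)) (l 16779192)) (l 16778864)) (b (a (a (c (l 279877522935) (l 280414393911)) (c (l 278803780503) (l 279340651495))) (l 275045684599)) (a (l 3) (a (c (l 279340651751) (l 279877522727)) (l 278266909415))))) (l 16783808)))) (a (l 3) (b (b (a (a (l 3) (a (l 3) (b (c (l 279877523015) (l 280414393991)) (l 3)))) (a (a (b (l 279340651543) (l 3)) (b (l 275045684567) (c (l 279340651831) (l 279877522807)))) (b (l 16779216) (l 278266910599)))) (b (a (l 3) (a (l 3) (a (l 279877523127) (l 279340651623)))) (l 3))) (l 3)))) (b (l 16778688) (a (b (b (l 16778296) (b (l 273971943127) (a (a (a (l 279877522855) (l 278266909591)) (l 16779392)) (l 16778736)))) (a (b (a (a (l 3) (b (l 279877523191) (l 3))) (a (b (l 278803780791) (l 3)) (b (l 275045684743) (l 279340652023)))) (l 3)) (b (a (l 274508814359) (l 16779040)) (a (b (a (l 279877523271) (l 278803780871)) (l 3)) (a (b (l 16779664) (l 279340652087)) (l 275045685239)))))) (l 16788040)))), by decide +kernel⟩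

def k15_pp_123 : ∃ t, chk3 f_pp_123 t 131 133 1 = true :=
  ⟨(a (l 3) (b (a (b (a (l 3) (a (l 3) (a (l 3) (b (b (l 279877523335) (l 3)) (l 3))))) (l 3)) (b (a (a (b (b (l 278266911127) (a (l 280414394599) (l 279340652167))) (l 3)) (b (l 274508814359) (b (c (l 279340652183) (l 279877523191)) (c (l 279877524055) (l 280951265959))))) (a (b (l 16779120) (b (l 16779640) (l 278803782391))) (l 16779024))) (b (a (l 3) (a (b (c (l 279877523751) (l 280414394759)) (l 3)) (b (l 278266909959) (c (l 279340652567) (l 279877523575))))) (l 3)))) (l 3))), by decide +kernel⟩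

def k16_pp_123 : ∃ t, chk3 f_pp_123 t 65 67 1 = true :=
  ⟨(l 3), by decide +kernel⟩

def k17_pp_123 : ∃ t, chk3 f_pp_123 t 65 17 1 = true :=
  ⟨(l 3), by decide +kernel⟩

def k18_pp_123 : ∃ t, chk3 f_pp_123 t 33 32 1 = true :=
  ⟨(l 16885120), by decide +kernel⟩

def k19_pp_123 : ∃ t, chk3 f_pp_123 t 66 66 1 = true :=
  ⟨(a (b (l 16822648) (a (b (a (b (l 16777888) (b (l 273971944055) (a (a (b (l 279340653671) (c (l 279877524167) (l 280951266071))) (b (l 16779712) (l 278803781223))) (l 16779224)))) (l 16777544)) (a (b (a (a (l 3) (b (b (l 279877525223) (l 3)) (l 3))) (a (b (b (l 275045685767) (l 279877523639)) (l 3)) (b (l 16781016) (b (l 279340652487) (l 280414395223))))) (l 3)) (b (a (a (b (l 16779256) (l 278266911399)) (l 16779152)) (l 16778464)) (a (a (b (b (l 279877524023) (l 3)) (l 3)) (b (b (l 275045685895) (l 279340652839)) (b (l 280414395607) (l 3)))) (b (l 16779544) (a (a (l 279877525559) (l 279340652759)) (l 277730041911))))))) (l 16799896))) (l 16807000)),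 by decide +kernel⟩

def k20_pp_123 : ∃ t, chk3 f_pp_123 t 66 67 1 = true :=
  ⟨(a (b (a (b (a (l 3) (b (a (l 3) (a (l 3) (b (a (l 280414395831) (l 279877524295)) (l 3)))) (l 3))) (l 3)) (b (a (b (a (a (b (l 278803782983) (b (l 280414395687) (l 3))) (b (l 16779824) (b (l 278803781799) (l 279877524487)))) (l 273971944791)) (a (l 3) (a (b (b (l 279877524199) (l 280414396071)) (l 3)) (b (l 278803784391) (b (l 280414395767) (l 3)))))) (a (b (l 16778552) (a (b (l 16779880) (l 279340655863)) (l 273971944855))) (l 16778328))) (a (l 3) (b (a (a (l 3) (b (l 279877527383) (l 3))) (b (l 278266913111) (a (l 280414396327) (l 279340653319)))) (a (l 3) (a (l 3) (b (l 280951267927) (l 3)))))))) (l 3)) (b (a (b (l 16778360) (a (b (l 16781728) (a (a (b (l 279877524823) (l 3)) (b (l 278266911015) (l 280414396375))) (b (l 16779728) (l 278803784631)))) (l 16777880))) (l 16780864)) (a (b (a (a (l 3) (b (b (a (l 280951267959) (l 279877524871)) (l 3)) (l 3))) (b (a (b (l 274508816535) (l 280414398487))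 (l 16779648)) (a (a (l 3) (b (l 280951267975) (l 3))) (b (l 279340656151) (l 280951270631))))) (l 3)) (b (a (b (l 16778152) (a (b (l 16779784) (l 278266913831)) (l 16779176))) (l 16777328)) (a (b (a (b (l 280414399111) (l 3)) (b (l 16780288) (l 279877527639))) (a (l 3) (b (l 280951271287) (l 3)))) (b (l 16800160) (a (b (l 279340653591) (l 280951270647)) (l 273971946519)))))))), by decide +kernel⟩

def k21_pp_123 : ∃ t, chk3 f_pp_123 t 67 33 1 = true :=
  ⟨(b (l 16814656) (a (b (l 16787288) (l 16802264)) (l 16814304))), by decide +kernel⟩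

def k22_pp_123 : ∃ t, chk3 f_pp_123 t 33 17 1 = true :=
  ⟨(b (a (b (a (l 3) (b (a (l 3) (b (a (l 3) (b (a (l 3) (b (l 280414396503) (l 281488140199))) (l 3))) (l 3))) (l 3))) (l 3)) (b (a (b (a (b (a (b (a (l 278803785111) (l 16779696)) (a (b (l 280951268615) (l 3)) (b (l 277730040887) (l 280414397079)))) (l 16784168)) (a (b (a (l 3) (b (l 281488140807) (l 3))) (l 3)) (b (a (l 280951270951) (l 278266916807)) (a (l 3) (l 281488145687))))) (b (l 16778408) (a (b (l 16779168) (l 279340658679)) (l 16777800)))) (a (l 3) (b (a (b (a (l 282025017847) (l 280951273495)) (l 3)) (b (l 277730044839) (a (l 281488145559) (l 278803788695)))) (a (l 3) (b (a (l 3) (l 282025012423)) (l 3)))))) (b (l 16783840) (a (b (l 16798696) (a (b (l 280414401431) (l 282025017639)) (b (l 16779048) (l 278266916631)))) (l 16779168)))) (a (l 3) (b (a (b (a (l 3) (b (l 282025016279) (l 282561890935))) (l 3)) (b (a (b (l 16780040) (l 279877531383)) (l 16778632)) (a (b (l 282561889463) (l 3)) (b (l 278803793575)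 (l 281488146215))))) (a (l 3) (b (a (l 3) (b (l 283098757463) (l 3))) (l 3))))))) (l 3)), by decide +kernel⟩

def k23_pp_123 : ∃ t, chk3 f_pp_123 t 16 9 1 = true :=
  ⟨(l 3), by decide +kernel⟩

def k24_pp_123 : ∃ t, chk3 f_pp_123 t 17 4 1 = true :=
  ⟨(b (b (b (l 16849064) (l 17065064)) (a (b (a (b (l 16839856) (a (b (l 16787296) (a (b (a (b (l 280951273975) (l 283098761175)) (l 279340661047)) (a (l 3) (b (l 281488152199) (l 3)))) (b (l 16777136) (a (l 280414404823) (l 16779296))))) (l 16786264))) (l 16842976)) (a (b (a (b (a (l 3) (b (a (l 284172505655) (l 281488151175)) (l 3))) (l 3)) (b (b (l 270750726471) (a (a (l 282561895031) (l 279877535719)) (l 16777584))) (a (b (a (l 3) (l 283098768023)) (l 3)) (b (a (l 280951279383) (l 16779752)) (a (l 285246243303) (l 282561893943)))))) (l 3)) (b (a (b (l 16786200) (l 269140120967)) (l 16793880)) (a (b (a (b (l 283635635287) (l 286856867943)) (b (l 16778368) (a (l 280951290519) (l 16779992)))) (a (l 3) (b (l 284709380855) (l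 3)))) (b (l 16783960) (a (b (l 16790088) (l 284172506535)) (l 16780488))))))) (b (l 16832976) (l 16937344)))) (b (a (b (a (l 3) (b (a (l 3) (b (a (b (l 285246266023) (l 3)) (b (a (l 280951290727) (l 16780000)) (l 285246262375))) (a (l 3) (l 289541240679)))) (l 3))) (l 3)) (b (a (b (a (a (b (l 16800544) (b (l 282025033271) (l 285246265863))) (l 260550193431)) (l 16788576)) (a (b (a (l 3) (l 286320007463)) (l 3)) (a (b (b (l 16800224) (a (l 284172498055) (l 16791792))) (l 286320010663)) (a (b (l 16780888) (l 283635647671)) (l 271287609943))))) (b (l 16803640) (l 16812144))) (a (b (a (l 3) (b (l 291688728535) (l 3))) (l 3)) (b (b (b (l 256255241479) (l 273435115607)) (a (a (l 3) (l 286320005191)) (l 265918902487))) (a (l 3) (b (a (l 285783137303) (b (l 16779840) (a (l 284172498983) (l 16781584)))) (l 291151854887))))))) (l 3))), by decide +kernel⟩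

def k25_pp_123 : ∃ t, chk3 f_pp_123 t 9 4 1 = true :=
  ⟨(a (b (l 17160288) (b (a (b (l 16974288) (a (b (l 16800408) (a (l 261623957367) (l 16791800))) (l 16822600))) (l 16867336)) (a (b (a (b (a (b (a (l 289541218711) (b (a (l 284709368695) (l 16780776)) (l 285246243911))) (l 291151860487)) (l 275582597895)) (a (l 3) (a (l 3) (l 288467498583)))) (a (a (l 263771444343) (l 268066424423)) (l 16796576))) (a (l 3) (b (a (l 293299346695) (b (l 284709382295) (a (l 290614961959) (l 328195934199)))) (l 296520607527)))) (a (b (l 16822512) (b (l 16794416) (l 271287670999))) (l 16949288))))) (b (l 17023880) (a (l 17116064) (l 17032208)))), by decide +kernel⟩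

def k26_pp_123 : ∃ t, chk3 f_pp_123 t 5 4 1 = true :=
  ⟨(a (b (l 17216960) (l 17172016)) (l 17381488)), by decide +kernel⟩

def k27_pp_123 : ∃ t, chk3 f_pp_123 t 3 4 1 = true :=
  ⟨(a (a (l 17387232) (l 17417184)) (a (l 17533216) (l 17636824))), by decide +kernel⟩

def k28_pp_123 : ∃ t, chk3 f_pp_123 t 1 5 1 = true :=
  ⟨(a (a (a (l 3) (a (b (a (l 3) (b (a (b (b (a (l 293299353719) (b (a (l 330343403031) (l 16800840)) (l 327659076599))) (l 297057483735)) (l 3)) (b (b (l 16834848) (l 279340733735)) (a (l 3) (b (b (a (l 288467477671) (l 16802536)) (l 294373084663)) (l 3))))) (l 3))) (l 3)) (b (a (b (b (l 16926608) (a (b (l 16836464) (l 280951347575)) (l 16834192))) (a (a (l 3) (b (b (b (l 340007119831) (l 335175255767)) (l 289004373863)) (l 3))) (b (a (l 276656378903) (l 16820576)) (a (l 293836242919) (b (l 336249049303) (l 290078116583)))))) (b (a (l 16919864) (l 16973232)) (a (b (l 16842312) (a (l 258939641799) (l 16807488))) (l 16880952)))) (a (l 3) (b (a (b (b (a (l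 291151878519) (l 307257990775)) (l 337322826471)) (l 3)) (b (l 267529701207) (a (l 347523367847) (l 282561967575)))) (b (b (l 342154760247) (l 3)) (l 3))))))) (a (a (a (b (a (l 17159496) (l 17072760)) (b (a (b (l 16874960) (a (l 16807288) (l 16844112))) (l 16911240)) (a (b (b (l 270750875911) (l 304036838631)) (a (l 3) (a (l 360408259607) (l 377588138871)))) (b (l 16853328) (l 267529743383))))) (b (a (l 17066888) (l 17093048)) (a (b (l 16983312) (l 17010304)) (a (b (l 17007936) (l 16939400)) (a (b (l 17014056) (l 16945120)) (l 16996736)))))) (b (l 17145632) (b (l 17043976) (l 16955656)))) (b (l 17174448) (l 17242312)))) (a (b (a (l 17259240) (l 17319120)) (a (l 17125520) (l 17320776))) (b (l 17547872) (l 17445048)))), by decide +kernel⟩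

def k29_pp_123 : ∃ t, chk3 f_pp_123 t 1 3 1 = true :=
  ⟨(b (a (a (l 3) (a (a (a (b (b (a (l 3) (b (a (l 386714976487) (l 254107830023)) (a (l 3) (l 418390368951)))) (l 3)) (l 3)) (b (a (b (b (l 16948528) (a (l 257329059911) (l 16818896))) (a (b (l 436643999799) (l 3)) (b (l 246591641015) (l 411411030983)))) (b (a (l 16905456) (a (l 16868504) (l 16869040))) (a (b (l 16831672) (l 16847152)) (a (l 16889600) (l 16807816))))) (a (l 3) (b (a (b (l 317995472823) (l 377588139687)) (a (a (l 273972085799) (l 16850512)) (l 16846384))) (a (l 3) (a (a (l 337322786647) (l 275582642327)) (l 16820368))))))) (b (b (a (l 16875760) (l 16884608)) (l 16929184)) (b (l 16976000) (a (l 16868144) (l 16864120))))) (b (a (l 17002648) (l 16999128)) (b (l 16991352) (l 17145624))))) (a (b (a (l 17150720) (l 17342688)) (a (l 17209904) (l 17314408))) (b (l 17562352) (l 1)))) (a (b (a (l 3) (a (a (a (l 3) (a (l 3) (b (a (l 3) (a (a (l 3) (l 275582654727)) (l 273435160055))) (a (b (l 322290415047) (l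 297594358279)) (a (b (l 275045828487) (l 16847696)) (l 16883208)))))) (b (a (l 16897072) (l 16883184)) (a (l 16972184) (l 16877168)))) (b (l 17128832) (l 1)))) (a (l 3) (a (a (a (b (l 3) (l 1)) (l 1)) (l 1)) (l 1)))) (l 1))), by decide +kernel⟩

theorem s30_pp_123 : ∃ t, chk3 f_pp_123 t 66 33 1 = true := ex3_b k19_pp_123 k20_pp_123

theorem s31_pp_123 : ∃ t, chk3 f_pp_123 t 33 33 1 = true := ex3_a s30_pp_123 k21_pp_123

theorem s32_pp_123 : ∃ t, chk3 f_pp_123 t 33 16 1 = true := ex3_b k18_pp_123 s31_pp_123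

theorem s33_pp_123 : ∃ t, chk3 f_pp_123 t 33 8 1 = true := ex3_b s32_pp_123 k22_pp_123

theorem s34_pp_123 : ∃ t, chk3 f_pp_123 t 131 66 1 = true := ex3_b k14_pp_123 k15_pp_123

theorem s35_pp_123 : ∃ t, chk3 f_pp_123 t 65 66 1 = true := ex3_a k13_pp_123 s34_pp_123

theorem s36_pp_123 : ∃ t, chk3 f_pp_123 t 65 33 1 = true := ex3_b s35_pp_123 k16_pp_123

theorem s37_pp_123 : ∃ t, chk3 f_pp_123 t 130 131 1 = true := ex3_a k10_pp_123 k11_pp_123

theorem s38_pp_123 : ∃ t, chk3 f_pp_123 t 130 65 1 = true := ex3_b k9_pp_123 s37_pp_123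

theorem s39_pp_123 : ∃ t, chk3 f_pp_123 t 65 65 1 = true := ex3_a s38_pp_123 k12_pp_123

theorem s40_pp_123 : ∃ t, chk3 f_pp_123 t 65 32 1 = true := ex3_b k8_pp_123 s39_pp_123

theorem s41_pp_123 : ∃ t, chk3 f_pp_123 t 65 16 1 = true := ex3_b s40_pp_123 s36_pp_123

theorem s42_pp_123 : ∃ t, chk3 f_pp_123 t 65 8 1 = true := ex3_b s41_pp_123 k17_pp_123

theorem s43_pp_123 : ∃ t, chk3 f_pp_123 t 259 130 1 = true := ex3_b k3_pp_123 k4_pp_123

theorem s44_pp_123 : ∃ t, chk3 f_pp_123 t 129 130 1 = true := ex3_a k2_pp_123 s43_pp_123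

theorem s45_pp_123 : ∃ t, chk3 f_pp_123 t 129 65 1 = true := ex3_b s44_pp_123 k5_pp_123

theorem s46_pp_123 : ∃ t, chk3 f_pp_123 t 64 65 1 = true := ex3_a k1_pp_123 s45_pp_123

theorem s47_pp_123 : ∃ t, chk3 f_pp_123 t 64 32 1 = true := ex3_b k0_pp_123 s46_pp_123

theorem s48_pp_123 : ∃ t, chk3 f_pp_123 t 64 16 1 = true := ex3_b s47_pp_123 k6_pp_123

theorem s49_pp_123 : ∃ t, chk3 f_pp_123 t 64 8 1 = true := ex3_b s48_pp_123 k7_pp_123

theorem s50_pp_123 : ∃ t, chk3 f_pp_123 t 32 8 1 = true := ex3_a s49_pp_123 s42_pp_123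

theorem s51_pp_123 : ∃ t, chk3 f_pp_123 t 16 8 1 = true := ex3_a s50_pp_123 s33_pp_123

theorem s52_pp_123 : ∃ t, chk3 f_pp_123 t 16 4 1 = true := ex3_b s51_pp_123 k23_pp_123

theorem s53_pp_123 : ∃ t, chk3 f_pp_123 t 8 4 1 = true := ex3_a s52_pp_123 k24_pp_123

theorem s54_pp_123 : ∃ t, chk3 f_pp_123 t 4 4 1 = true := ex3_a s53_pp_123 k25_pp_123

theorem s55_pp_123 : ∃ t, chk3 f_pp_123 t 2 4 1 = true := ex3_a s54_pp_123 k26_pp_123

theorem s56_pp_123 : ∃ t, chk3 f_pp_123 t 1 4 1 = true := ex3_a s55_pp_123 k27_pp_123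

theorem s57_pp_123 : ∃ t, chk3 f_pp_123 t 1 2 1 = true := ex3_b s56_pp_123 k28_pp_123

theorem s58_pp_123 : ∃ t, chk3 f_pp_123 t 1 1 1 = true := ex3_b s57_pp_123 k29_pp_123

theorem c_pp_123 : CertN 536870912 536870912 0 1230186008 33554432 16777216 3 false true true .npn 1 2 3
    ndN0q1 ndN4q3 pcN2 cut_pp_123 Ext.none :=
  certNK2 (fam := false) (s1 := true) (s2 := true) (a := 1) (b := 2) (c := 3) (cn := .npn) (n1 := ndN0q1) (n2 := ndN4q3) (pc := pcN2) (cut := cut_pp_123) (xt := Ext.none) (P1 := 536870912) (W1 := 536870912) (P2 := 0) (W2 := 1230186008) (P3 := 33554432) (W3 := 16777216) (N0 := 3)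
    rfl rfl rfl (fun _ => rfl) s58_pp_123

noncomputable def f_pp_133 : ℕ → ℕ → ℕ → ℕ → Bool := onCell 536870912 536870912 0 1230186008 33554432 16777216
    (rowNK 3 0 false true true .dn 1 3 3 (qsf 536870912 536870912 0 1230186008 3) ndN0q1 ndN4q3 pcN3 Cut.none Ext.none)

def k0_pp_133 : ∃ t, chk3 f_pp_133 t 1 1 1 = true :=
  ⟨(b (b (a (a (b (l 17177144) (l 1)) (l 1)) (l 1)) (l 1)) (l 1)), by decide +kernel⟩

theorem c_pp_133 : CertN 536870912 536870912 0 1230186008 33554432 16777216 3 false true true .dn 1 3 3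
    ndN0q1 ndN4q3 pcN3 Cut.none Ext.none :=
  certNK0 (fam := false) (s1 := true) (s2 := true) (a := 1) (b := 3) (c := 3) (cn := .dn) (n1 := ndN0q1) (n2 := ndN4q3) (pc := pcN3) (cut := Cut.none) (xt := Ext.none) (P1 := 536870912) (W1 := 536870912) (P2 := 0) (W2 := 1230186008) (P3 := 33554432) (W3 := 16777216) (N0 := 3)
    rfl rfl rfl k0_pp_133

noncomputable def f_pp_202 : ℕ → ℕ → ℕ → ℕ → Bool := onCell 0 536870912 1073741824 536870912 33554432 16777216
    (rowNK 3 0 false true true .pp 2 0 2 (qsf 0 536870912 1073741824 536870912 0) ndN0q2 ndN4q2 pcN0 Cut.none Ext.none)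

def k0_pp_202 : ∃ t, chk3 f_pp_202 t 1 1 1 = true :=
  ⟨(l 5), by decide +kernel⟩

theorem c_pp_202 : CertN 0 536870912 1073741824 536870912 33554432 16777216 3 false true true .pp 2 0 2
    ndN0q2 ndN4q2 pcN0 Cut.none Ext.none :=
  certNK0 (fam := false) (s1 := true) (s2 := true) (a := 2) (b := 0) (c := 2) (cn := .pp) (n1 := ndN0q2) (n2 := ndN4q2) (pc := pcN0) (cut := Cut.none) (xt := Ext.none) (P1 := 0) (W1 := 536870912) (P2 := 1073741824) (W2 := 536870912) (P3 := 33554432) (W3 := 16777216) (N0 := 3)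
    rfl rfl rfl k0_pp_202

noncomputable def f_pp_203 : ℕ → ℕ → ℕ → ℕ → Bool := onCell 0 536870912 0 1230186008 33554432 16777216
    (rowNK 3 0 false true true .up 2 0 3 (qsf 0 536870912 0 1230186008 0) ndN0q2 ndN4q3 pcN0 Cut.none Ext.none)

def k0_pp_203 : ∃ t, chk3 f_pp_203 t 1 1 1 = true :=
  ⟨(b (l 2) (b (l 2) (a (l 5) (l 3)))), by decide +kernel⟩

theorem c_pp_203 : CertN 0 536870912 0 1230186008 33554432 16777216 3 false true true .up 2 0 3
    ndN0q2 ndN4q3 pcN0 Cut.none Ext.none :=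
  certNK0 (fam := false) (s1 := true) (s2 := true) (a := 2) (b := 0) (c := 3) (cn := .up) (n1 := ndN0q2) (n2 := ndN4q3) (pc := pcN0) (cut := Cut.none) (xt := Ext.none) (P1 := 0) (W1 := 536870912) (P2 := 0) (W2 := 1230186008) (P3 := 33554432) (W3 := 16777216) (N0 := 3)
    rfl rfl rfl k0_pp_203

noncomputable def cut_pp_213 : Cut := Cut.of [[⟨0, 1, 0, 7061502⟩, ⟨1, 1, 0, 7061502⟩, ⟨2, 2, 0, 184626⟩]]

noncomputable def f_pp_213 : ℕ → ℕ → ℕ → ℕ → Bool := onCell 0 536870912 0 1230186008 33554432 16777216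
    (rowNK 3 0 false true true .pnn 2 1 3 (qsf 0 536870912 0 1230186008 1) ndN0q2 ndN4q3 pcN1 cut_pp_213 Ext.none)

def k0_pp_213 : ∃ t, chk3 f_pp_213 t 1 1 1 = true :=
  ⟨(a (b (l 3) (l 5)) (b (b (a (l 3) (b (a (l 3) (b (a (l 3) (b (a (l 3) (b (a (l 3) (l 6)) (l 3))) (l 3))) (l 3))) (l 3))) (l 3)) (b (l 3) (l 3)))), by decide +kernel⟩

theorem c_pp_213 : CertN 0 536870912 0 1230186008 33554432 16777216 3 false true true .pnn 2 1 3
    ndN0q2 ndN4q3 pcN1 cut_pp_213 Ext.none :=
  certNK0 (fam := false) (s1 := true) (s2 := true) (a := 2) (b := 1) (c := 3) (cn := .pnn) (n1 := ndN0q2) (n2 := ndN4q3) (pc := pcN1) (cut := cut_pp_213) (xt := Ext.none) (P1 := 0) (W1 := 536870912) (P2 := 0) (W2 := 1230186008) (P3 := 33554432) (W3 := 16777216) (N0 := 3)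
    rfl rfl rfl k0_pp_213

noncomputable def f_pm_001 : ℕ → ℕ → ℕ → ℕ → Bool := onCell 0 536870912 536870912 536870912 33554432 16777216
    (rowNK 3 0 false true false .up 0 0 1 (qsf 0 536870912 536870912 536870912 0) ndN0q0 ndN4q1 pcN0 Cut.none Ext.none)

def k0_pm_001 : ∃ t, chk3 f_pm_001 t 1 1 1 = true :=
  ⟨(l 4), by decide +kernel⟩

theorem c_pm_001 : CertN 0 536870912 536870912 536870912 33554432 16777216 3 false true false .up 0 0 1
    ndN0q0 ndN4q1 pcN0 Cut.none Ext.none :=
  certNK0 (fam := false) (s1 := true) (s2 := false) (a := 0) (b := 0) (c := 1) (cn := .up) (n1 := ndN0q0) (n2 := ndN4q1) (pc := pcN0) (cut := Cut.none) (xt := Ext.none) (P1 := 0) (W1 := 536870912) (P2 := 536870912) (W2 := 536870912) (P3 := 33554432) (W3 := 16777216) (N0 := 3)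
    rfl rfl rfl k0_pm_001

noncomputable def f_pm_011 : ℕ → ℕ → ℕ → ℕ → Bool := onCell 0 536870912 536870912 536870912 33554432 16777216
    (rowNK 3 0 false true false .pnn 0 1 1 (qsf 0 536870912 536870912 536870912 1) ndN0q0 ndN4q1 pcN1 Cut.none Ext.none)

def k0_pm_011 : ∃ t, chk3 f_pm_011 t 1 1 1 = true :=
  ⟨(l 4), by decide +kernel⟩

theorem c_pm_011 : CertN 0 536870912 536870912 536870912 33554432 16777216 3 false true false .pnn 0 1 1
    ndN0q0 ndN4q1 pcN1 Cut.none Ext.none :=
  certNK0 (fam := false) (s1 := true) (s2 := false) (a := 0) (b := 1) (c := 1) (cn := .pnn) (n1 := ndN0q0) (n2 := ndN4q1) (pc := pcN1) (cut := Cut.none) (xt := Ext.none) (P1 := 0) (W1 := 536870912) (P2 := 536870912) (W2 := 536870912) (P3 := 33554432) (W3 := 16777216) (N0 := 3)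
    rfl rfl rfl k0_pm_011

noncomputable def f_pm_012 : ℕ → ℕ → ℕ → ℕ → Bool := onCell 0 536870912 1073741824 536870912 33554432 16777216
    (rowNK 3 0 false true false .pnp 0 1 2 (qsf 0 536870912 1073741824 536870912 1) ndN0q0 ndN4q2 pcN1 Cut.none Ext.none)

def k0_pm_012 : ∃ t, chk3 f_pm_012 t 1 1 1 = true :=
  ⟨(l 4), by decide +kernel⟩

theorem c_pm_012 : CertN 0 536870912 1073741824 536870912 33554432 16777216 3 false true false .pnp 0 1 2
    ndN0q0 ndN4q2 pcN1 Cut.none Ext.none :=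
  certNK0 (fam := false) (s1 := true) (s2 := false) (a := 0) (b := 1) (c := 2) (cn := .pnp) (n1 := ndN0q0) (n2 := ndN4q2) (pc := pcN1) (cut := Cut.none) (xt := Ext.none) (P1 := 0) (W1 := 536870912) (P2 := 1073741824) (W2 := 536870912) (P3 := 33554432) (W3 := 16777216) (N0 := 3)
    rfl rfl rfl k0_pm_012

noncomputable def f_pm_022 : ℕ → ℕ → ℕ → ℕ → Bool := onCell 0 536870912 1073741824 536870912 33554432 16777216
    (rowNK 3 0 false true false .pp 0 2 2 (qsf 0 536870912 1073741824 536870912 2) ndN0q0 ndN4q2 pcN2 Cut.none Ext.none)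

def k0_pm_022 : ∃ t, chk3 f_pm_022 t 1 1 1 = true :=
  ⟨(l 4), by decide +kernel⟩

theorem c_pm_022 : CertN 0 536870912 1073741824 536870912 33554432 16777216 3 false true false .pp 0 2 2
    ndN0q0 ndN4q2 pcN2 Cut.none Ext.none :=
  certNK0 (fam := false) (s1 := true) (s2 := false) (a := 0) (b := 2) (c := 2) (cn := .pp) (n1 := ndN0q0) (n2 := ndN4q2) (pc := pcN2) (cut := Cut.none) (xt := Ext.none) (P1 := 0) (W1 := 536870912) (P2 := 1073741824) (W2 := 536870912) (P3 := 33554432) (W3 := 16777216) (N0 := 3)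
    rfl rfl rfl k0_pm_022

noncomputable def f_pm_023 : ℕ → ℕ → ℕ → ℕ → Bool := onCell 0 536870912 0 1230186008 33554432 16777216
    (rowNK 3 0 false true false .up 0 2 3 (qsf 0 536870912 0 1230186008 2) ndN0q0 ndN4q3 pcN2 Cut.none Ext.none)

def k0_pm_023 : ∃ t, chk3 f_pm_023 t 1 1 1 = true :=
  ⟨(b (a (l 2) (a (l 2) (b (l 17617560) (a (l 4) (l 4))))) (l 4)), by decide +kernel⟩

theorem c_pm_023 : CertN 0 536870912 0 1230186008 33554432 16777216 3 false true false .up 0 2 3
    ndN0q0 ndN4q3 pcN2 Cut.none Ext.none :=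
  certNK0 (fam := false) (s1 := true) (s2 := false) (a := 0) (b := 2) (c := 3) (cn := .up) (n1 := ndN0q0) (n2 := ndN4q3) (pc := pcN2) (cut := Cut.none) (xt := Ext.none) (P1 := 0) (W1 := 536870912) (P2 := 0) (W2 := 1230186008) (P3 := 33554432) (W3 := 16777216) (N0 := 3)
    rfl rfl rfl k0_pm_023

noncomputable def f_pm_033 : ℕ → ℕ → ℕ → ℕ → Bool := onCell 1610612736 536870912 0 1230186008 33554432 16777216
    (rowNK 3 2 false true false .pnn 0 3 3 (qsf 0 536870912 0 1230186008 3) ndN0q0 ndN4q3 pcN3 Cut.none Ext.none)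

def k0_pm_033 : ∃ t, chk3 f_pm_033 t 1 1 1 = true :=
  ⟨(b (a (b (a (a (l 17110808) (l 17157368)) (l 17433584)) (l 4)) (l 4)) (l 4)), by decide +kernel⟩

theorem c_pm_033 : CertN 0 536870912 0 1230186008 33554432 16777216 3 false true false .pnn 0 3 3
    ndN0q0 ndN4q3 pcN3 Cut.none Ext.none :=
  certNK2 (fam := false) (s1 := true) (s2 := false) (a := 0) (b := 3) (c := 3) (cn := .pnn) (n1 := ndN0q0) (n2 := ndN4q3) (pc := pcN3) (cut := Cut.none) (xt := Ext.none) (P1 := 0) (W1 := 536870912) (P2 := 0) (W2 := 1230186008) (P3 := 33554432) (W3 := 16777216) (N0 := 3)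
    rfl rfl rfl (fun _ => rfl) k0_pm_033

noncomputable def f_pm_101 : ℕ → ℕ → ℕ → ℕ → Bool := onCell 536870912 536870912 536870912 536870912 33554432 16777216
    (rowNK 3 0 false true false .npn 1 0 1 (qsf 536870912 536870912 536870912 536870912 0) ndN0q1 ndN4q1 pcN0 Cut.none Ext.none)

def k0_pm_101 : ∃ t, chk3 f_pm_101 t 1 1 1 = true :=
  ⟨(l 4), by decide +kernel⟩

theorem c_pm_101 : CertN 536870912 536870912 536870912 536870912 33554432 16777216 3 false true false .npn 1 0 1
    ndN0q1 ndN4q1 pcN0 Cut.none Ext.none :=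
  certNK0 (fam := false) (s1 := true) (s2 := false) (a := 1) (b := 0) (c := 1) (cn := .npn) (n1 := ndN0q1) (n2 := ndN4q1) (pc := pcN0) (cut := Cut.none) (xt := Ext.none) (P1 := 536870912) (W1 := 536870912) (P2 := 536870912) (W2 := 536870912) (P3 := 33554432) (W3 := 16777216) (N0 := 3)
    rfl rfl rfl k0_pm_101

noncomputable def f_pm_102 : ℕ → ℕ → ℕ → ℕ → Bool := onCell 536870912 536870912 1073741824 536870912 33554432 16777216
    (rowNK 3 0 false true false .npp 1 0 2 (qsf 536870912 536870912 1073741824 536870912 0) ndN0q1 ndN4q2 pcN0 Cut.none Ext.none)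

def k0_pm_102 : ∃ t, chk3 f_pm_102 t 1 1 1 = true :=
  ⟨(a (l 4) (b (l 4) (a (l 4) (b (l 4) (a (l 4) (b (l 4) (a (l 4) (l 18005048)))))))), by decide +kernel⟩

theorem c_pm_102 : CertN 536870912 536870912 1073741824 536870912 33554432 16777216 3 false true false .npp 1 0 2
    ndN0q1 ndN4q2 pcN0 Cut.none Ext.none :=
  certNK0 (fam := false) (s1 := true) (s2 := false) (a := 1) (b := 0) (c := 2) (cn := .npp) (n1 := ndN0q1) (n2 := ndN4q2) (pc := pcN0) (cut := Cut.none) (xt := Ext.none) (P1 := 536870912) (W1 := 536870912) (P2 := 1073741824) (W2 := 536870912) (P3 := 33554432) (W3 := 16777216) (N0 := 3)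
    rfl rfl rfl k0_pm_102

noncomputable def f_pm_112 : ℕ → ℕ → ℕ → ℕ → Bool := onCell 536870912 536870912 1073741824 536870912 33554432 16777216
    (rowNK 3 0 false true false .dn 1 1 2 (qsf 536870912 536870912 1073741824 536870912 1) ndN0q1 ndN4q2 pcN1 Cut.none Ext.none)

def k0_pm_112 : ∃ t, chk3 f_pm_112 t 1 1 1 = true :=
  ⟨(a (l 4) (b (l 4) (a (l 4) (b (l 4) (l 18576736))))), by decide +kernel⟩

theorem c_pm_112 : CertN 536870912 536870912 1073741824 536870912 33554432 16777216 3 false true false .dn 1 1 2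
    ndN0q1 ndN4q2 pcN1 Cut.none Ext.none :=
  certNK0 (fam := false) (s1 := true) (s2 := false) (a := 1) (b := 1) (c := 2) (cn := .dn) (n1 := ndN0q1) (n2 := ndN4q2) (pc := pcN1) (cut := Cut.none) (xt := Ext.none) (P1 := 536870912) (W1 := 536870912) (P2 := 1073741824) (W2 := 536870912) (P3 := 33554432) (W3 := 16777216) (N0 := 3)
    rfl rfl rfl k0_pm_112

noncomputable def cut_pm_113 : Cut := Cut.of [[⟨0, 1, 0, 7061502⟩, ⟨1, 1, 0, 7061502⟩, ⟨2, 2, 0, 184626⟩]]

noncomputable def f_pm_113 : ℕ → ℕ → ℕ → ℕ → Bool := onCell 536870912 536870912 0 1230186008 33554432 16777216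
    (rowNK 3 2 false true false .nn 1 1 3 (qsf 536870912 536870912 0 1230186008 1) ndN0q1 ndN4q3 pcN1 cut_pm_113 Ext.none)

def k0_pm_113 : ∃ t, chk3 f_pm_113 t 1 1 1 = true :=
  ⟨(b (a (l 2) (a (l 2) (a (b (l 2) (b (a (l 2) (l 17112928)) (l 637367737927))) (a (b (l 2) (b (l 16957424) (l 17338264))) (b (b (b (a (l 2) (b (a (l 2) (b (a (l 2) (l 6)) (l 854799162759))) (l 848356717575))) (l 834398079591)) (l 16875080)) (a (b (l 17008448) (l 17453232)) (a (b (l 17034720) (l 17517784)) (l 17433024)))))))) (b (a (a (l 2) (b (l 2) (a (l 2) (b (l 2) (l 17786376))))) (a (b (a (l 2) (b (l 17292872) (l 17555624))) (a (b (l 17637024) (l 18070480)) (l 18167104))) (a (b (l 17693912) (l 18521600)) (a (b (l 18011240) (l 18848648)) (a (l 18684480) (a (l 18718040) (l 18767680))))))) (a (a (b (l 2) (b (a (l 2) (l 18513616)) (l 18746232))) (b (a (b (l 806483301543) (l 18397912)) (l 18375592)) (b (l 18862856) (l 18831664)))) (b (a (b (l 18679208) (l 19036680)) (a (l 19234576) (l 4))) (l 4))))),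 by decide +kernel⟩

theorem c_pm_113 : CertN 536870912 536870912 0 1230186008 33554432 16777216 3 false true false .nn 1 1 3
    ndN0q1 ndN4q3 pcN1 cut_pm_113 Ext.none :=
  certNK2 (fam := false) (s1 := true) (s2 := false) (a := 1) (b := 1) (c := 3) (cn := .nn) (n1 := ndN0q1) (n2 := ndN4q3) (pc := pcN1) (cut := cut_pm_113) (xt := Ext.none) (P1 := 536870912) (W1 := 536870912) (P2 := 0) (W2 := 1230186008) (P3 := 33554432) (W3 := 16777216) (N0 := 3)
    rfl rfl rfl (fun _ => rfl) k0_pm_113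

noncomputable def cut_pm_123 : Cut := Cut.of [[⟨0, 1, 0, 7061502⟩, ⟨1, 1, 0, 7061502⟩, ⟨2, 2, 0, 184626⟩]]

noncomputable def f_pm_123 : ℕ → ℕ → ℕ → ℕ → Bool := onCell 1073741824 536870912 0 1230186008 33554432 16777216
    (rowNK 3 2 false true false .npn 1 2 3 (qsf 536870912 536870912 0 1230186008 2) ndN0q1 ndN4q3 pcN2 cut_pm_123 Ext.none)

def k0_pm_123 : ∃ t, chk3 f_pm_123 t 1 1 1 = true :=
  ⟨(b (b (a (a (a (a (a (b (a (b (b (b (a (l 6) (l 16791144)) (l 16799568)) (l 16818384)) (l 16863104)) (l 16846808)) (a (l 16989568) (l 17005832))) (b (l 16868528) (l 17030632))) (l 17248384)) (b (l 17058296) (l 17250064))) (a (l 17424400) (l 17600136))) (a (a (l 17580704) (l 17547472)) (l 17635192))) (a (a (a (a (a (a (l 17532064) (l 17570304)) (l 17595240)) (l 17687568)) (b (l 17606056) (l 18164120))) (b (l 17853464) (l 18275624))) (a (a (l 17860160) (l 17747984)) (a (l 17745376) (l 17679488))))) (b (a (a (b (a (l 18592112) (l 18660760)) (l 19087720)) (b (l 18555672) (l 4)))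 (l 4)) (l 4))), by decide +kernel⟩

theorem c_pm_123 : CertN 536870912 536870912 0 1230186008 33554432 16777216 3 false true false .npn 1 2 3
    ndN0q1 ndN4q3 pcN2 cut_pm_123 Ext.none :=
  certNK2 (fam := false) (s1 := true) (s2 := false) (a := 1) (b := 2) (c := 3) (cn := .npn) (n1 := ndN0q1) (n2 := ndN4q3) (pc := pcN2) (cut := cut_pm_123) (xt := Ext.none) (P1 := 536870912) (W1 := 536870912) (P2 := 0) (W2 := 1230186008) (P3 := 33554432) (W3 := 16777216) (N0 := 3)
    rfl rfl rfl (fun _ => rfl) k0_pm_123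

noncomputable def f_pm_133 : ℕ → ℕ → ℕ → ℕ → Bool := onCell 536870912 536870912 0 1230186008 33554432 16777216
    (rowNK 3 0 false true false .dn 1 3 3 (qsf 536870912 536870912 0 1230186008 3) ndN0q1 ndN4q3 pcN3 Cut.none Ext.none)

def k0_pm_133 : ∃ t, chk3 f_pm_133 t 1 1 1 = true :=
  ⟨(b (b (a (a (a (l 17114040) (l 1)) (l 1)) (l 1)) (l 1)) (l 1)), by decide +kernel⟩

theorem c_pm_133 : CertN 536870912 536870912 0 1230186008 33554432 16777216 3 false true false .dn 1 3 3
    ndN0q1 ndN4q3 pcN3 Cut.none Ext.none :=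
  certNK0 (fam := false) (s1 := true) (s2 := false) (a := 1) (b := 3) (c := 3) (cn := .dn) (n1 := ndN0q1) (n2 := ndN4q3) (pc := pcN3) (cut := Cut.none) (xt := Ext.none) (P1 := 536870912) (W1 := 536870912) (P2 := 0) (W2 := 1230186008) (P3 := 33554432) (W3 := 16777216) (N0 := 3)
    rfl rfl rfl k0_pm_133

noncomputable def f_pm_202 : ℕ → ℕ → ℕ → ℕ → Bool := onCell 0 536870912 1073741824 536870912 33554432 16777216
    (rowNK 3 0 false true false .pp 2 0 2 (qsf 0 536870912 1073741824 536870912 0) ndN0q2 ndN4q2 pcN0 Cut.none Ext.none)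

def k0_pm_202 : ∃ t, chk3 f_pm_202 t 1 1 1 = true :=
  ⟨(a (a (b (b (l 1) (b (c (l 20416640) (l 18900528)) (c (a (l 20202200) (l 20271472)) (c (l 18845768) (l 18270072))))) (b (b (c (a (b (l 19417680) (l 18646976)) (b (l 20023920) (l 19500112))) (a (l 17730344) (l 18236088))) (c (b (l 18277024) (l 17513464)) (l 17719992))) (a (b (l 18155040) (l 18217880)) (b (b (l 17607824) (l 18070784)) (l 18233224))))) (b (b (b (l 1) (l 19654640)) (b (l 19465864) (c (l 19834056) (l 18699280)))) (b (b (a (c (l 19837560) (l 18169280)) (l 18952944)) (c (a (b (l 19435624) (l 18746520)) (l 19325856)) (a (l 17616776) (l 17770520)))) (b (a (c (l 17592704) (l 17632824)) (c (b (l 18790816) (l 18013552)) (l 17423880))) (a (l 18069480) (b (l 17316928) (l 17808552))))))) (b (b (a (b (l 1) (a (l 19650512) (l 4))) (l 4)) (a (b (a (l 19412264) (l 19505424)) (l 19330016)) (a (b (l 4) (l 4)) (l 4)))) (b (a (b (l 18914224) (c (l 19067352) (l 18112648))) (b (a (l 18934464) (l 4)) (a (l 18545880) (l 18552952))))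 (b (a (a (c (l 18820192) (l 17433888)) (l 18247296)) (a (l 18200536) (l 18184672))) (a (a (b (c (l 18149080) (l 17329144)) (l 17268880)) (c (l 18487544) (l 17314832))) (a (b (l 17988280) (l 17829760)) (l 17933528))))))), by decide +kernel⟩

theorem c_pm_202 : CertN 0 536870912 1073741824 536870912 33554432 16777216 3 false true false .pp 2 0 2
    ndN0q2 ndN4q2 pcN0 Cut.none Ext.none :=
  certNK0 (fam := false) (s1 := true) (s2 := false) (a := 2) (b := 0) (c := 2) (cn := .pp) (n1 := ndN0q2) (n2 := ndN4q2) (pc := pcN0) (cut := Cut.none) (xt := Ext.none) (P1 := 0) (W1 := 536870912) (P2 := 1073741824) (W2 := 536870912) (P3 := 33554432) (W3 := 16777216) (N0 := 3)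
    rfl rfl rfl k0_pm_202

noncomputable def f_pm_203 : ℕ → ℕ → ℕ → ℕ → Bool := onCell 0 536870912 0 1230186008 33554432 16777216
    (rowNK 3 0 false true false .up 2 0 3 (qsf 0 536870912 0 1230186008 0) ndN0q2 ndN4q3 pcN0 Cut.none Ext.none)

def k0_pm_203 : ∃ t, chk3 f_pm_203 t 1 1 1 = true :=
  ⟨(b (l 2) (b (l 2) (a (b (b (l 2) (a (l 17436480) (l 17838848))) (a (b (a (l 17575584) (l 17865984)) (l 17906096)) (b (l 18013960) (b (l 18195496) (a (l 18278088) (l 18165264)))))) (b (l 2) (b (a (a (l 18193256) (b (l 2) (l 18230576))) (a (b (l 2) (l 17837952)) (l 2))) (b (a (a (l 18179608) (l 17894384)) (a (c (l 17536328) (l 17656720)) (c (l 17938888) (l 17372360)))) (a (a (l 17836088) (l 17302496)) (a (c (l 18096104) (l 17407984)) (l 17757760))))))))), by decide +kernel⟩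

theorem c_pm_203 : CertN 0 536870912 0 1230186008 33554432 16777216 3 false true false .up 2 0 3
    ndN0q2 ndN4q3 pcN0 Cut.none Ext.none :=
  certNK0 (fam := false) (s1 := true) (s2 := false) (a := 2) (b := 0) (c := 3) (cn := .up) (n1 := ndN0q2) (n2 := ndN4q3) (pc := pcN0) (cut := Cut.none) (xt := Ext.none) (P1 := 0) (W1 := 536870912) (P2 := 0) (W2 := 1230186008) (P3 := 33554432) (W3 := 16777216) (N0 := 3)
    rfl rfl rfl k0_pm_203

end Pool.Agent.Strip051.G.I1_32_3_64.Tab.C.NB04

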