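import Pool.Agent.Strip051.G.I1_32_3_64.Tab
import Pool.Agent.Strip051.PB.RowK

/-! # Certificates N12 (generated) -/

set_option linter.all false
set_option maxRecDepth 100000

namespace Pool.Agent.Strip051.G.I1_32_3_64.Tab.C.NB04

open Pool.Agent.Strip051.PB Pool.Agent.Strip051.PB.T
open Pool.Agent.Strip051.G.I1_32_3_64.Tab

noncomputable def cut_pm_213 : Cut := Cut.of [[⟨0, 1, 0, 7061502⟩, ⟨1, 1, 0, 7061502⟩, ⟨2, 2, 0, 184626⟩]]

noncomputable def f_pm_213 : ℕ → ℕ → ℕ → ℕ → Bool := onCell 0 536870912 0 1230186008 33554432 16777216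
    (rowNK 3 0 false true false .pnn 2 1 3 (qsf 0 536870912 0 1230186008 1) ndN0q2 ndN4q3 pcN1 cut_pm_213 Ext.none)

def k0_pm_213 : ∃ t, chk3 f_pm_213 t 2 4 1 = true :=
  ⟨(l 3), by decide +kernel⟩

def k1_pm_213 : ∃ t, chk3 f_pm_213 t 6 4 1 = true :=
  ⟨(b (l 3) (a (l 3) (b (l 3) (a (l 3) (b (a (l 3) (b (l 3) (a (l 3) (b (l 285783117063) (l 273435105847))))) (a (b (l 3) (a (l 287393760279) (l 271824498967))) (b (a (l 266992676919) (l 262697699591)) (l 16819632)))))))), by decide +kernel⟩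

def k2_pm_213 : ∃ t, chk3 f_pm_213 t 14 4 1 = true :=
  ⟨(b (b (l 3) (a (l 3) (b (l 3) (a (l 3) (b (a (l 3) (b (l 3) (a (l 3) (b (l 3) (l 275582569479))))) (a (b (l 3) (a (l 3) (b (l 279340675911) (l 273971970103)))) (b (a (b (l 3) (l 275045710599)) (b (l 271287605335) (l 269676992743))) (a (l 269676995271) (l 16786464))))))))) (b (a (b (l 3) (a (b (l 3) (l 290078095735)) (b (a (l 289004344919) (b (a (l 3) (l 275045712247)) (a (l 273971971687) (l 265918913351)))) (a (b (a (l 281488161975) (l 270750748151)) (l 265918914487)) (l 16811320))))) (b (a (b (a (l 3) (b (l 3) (a (b (l 3) (l 278266935239)) (l 273971971159)))) (a (b (a (l 3) (b (l 3) (l 276656324023))) (a (l 276656323655) (l 269677006807))) (b (a (l 270213876247) (l 16786720)) (l 16788568)))) (b (a (b (a (l 275045711543) (l 268603265351)) (l 264845172375)) (l 16789440)) (l 16793328))) (a (b (a (b (l 264845172455) (l 16790256)) (l 16793224)) (l 16797896)) (l 16803168)))) (a (b (a (b (a (b (l 3) (l 278266940439)) (b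 (l 271287620663) (l 264308306247))) (a (l 255718372551) (l 16795336))) (l 16820184)) (l 16812592)) (l 16824904)))), by decide +kernel⟩

def k3_pm_213 : ∃ t, chk3 f_pm_213 t 30 16 1 = true :=
  ⟨(b (l 3) (a (l 3) (b (l 3) (a (l 3) (b (a (l 3) (b (l 3) (a (l 3) (b (l 3) (a (l 3) (l 274508816839)))))) (a (b (l 3) (a (l 3) (b (l 3) (a (l 275045690727) (l 273435079303))))) (b (a (b (l 3) (a (l 3) (l 273971946807))) (b (a (b (l 3) (l 273971946887)) (l 273435076519)) (a (l 273435076855) (l 16781408)))) (a (b (a (l 273971947207) (l 272898206279)) (l 272898207495)) (l 16781872))))))))), by decide +kernel⟩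

def k4_pm_213 : ∃ t, chk3 f_pm_213 t 62 32 1 = true :=
  ⟨(b (l 3) (a (l 3) (b (l 3) (a (l 3) (b (a (l 3) (b (l 3) (a (l 3) (b (l 3) (a (l 3) (a (l 3) (a (l 3) (b (l 3) (l 273435070839))))))))) (a (b (l 3) (a (l 3) (b (l 3) (a (l 3) (b (b (l 273971942471) (l 273971942727)) (a (l 273971942903) (l 274508813463))))))) (b (a (b (l 3) (a (l 3) (b (l 3) (a (l 273435070855) (a (l 273971941399) (l 273971941511)))))) (b (a (a (l 3) (b (l 3) (a (l 273435070247) (l 273971941319)))) (b (c (a (l 273971941095) (l 274508812183)) (a (l 273435070215) (l 273435070503))) (c (l 274508812759) (l 274508813079)))) (a (b (c (l 274508813559) (a (l 273435070455) (l 273435070615))) (l 274508813367)) (l 16779416)))) (a (b (a (b (a (l 3) (c (l 273971941239) (l 273435070343))) (c (l 273971942743) (a (l 273435070471) (l 273435070775)))) (b (c (l 274508812407) (a (l 273435070679) (l 16779464))) (l 16779464))) (a (b (c (l 274508812567) (l 273435070967)) (l 16779536)) (l 16779576))) (l 16779600))))))))),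 by decide +kernel⟩

def k5_pm_213 : ∃ t, chk3 f_pm_213 t 63 64 1 = true :=
  ⟨(a (a (l 3) (a (l 3) (l 6))) (l 6)), by decide +kernel⟩

def k6_pm_213 : ∃ t, chk3 f_pm_213 t 252 130 1 = true :=
  ⟨(b (l 3) (a (l 3) (b (a (l 3) (a (a (l 3) (b (l 3) (b (l 3) (c (l 273971940871) (b (l 272898198295) (l 273435069479)))))) (a (b (l 3) (b (a (l 3) (b (l 3) (l 273435070087))) (b (l 273971941079) (l 16778840)))) (b (a (l 3) (b (l 3) (b (l 3) (l 273435069975)))) (b (b (l 273971940983) (l 274508811863)) (l 16778848)))))) (a (b (a (l 3) (a (l 3) (b (l 3) (b (l 273435070119) (l 273971941239))))) (a (a (a (l 3) (b (l 3) (l 273435070215))) (b (a (l 3) (l 273435070087)) (b (l 273435070359) (l 274508812247)))) (b (a (b (l 273435070247) (l 273971941335)) (l 274508812215)) (l 16778992)))) (b (a (b (a (b (l 273435070007) (l 273971941127)) (a (l 275045682935) (l 16778864))) (c (l 274508811959) (a (l 274508812007) (l 16779000)))) (l 16778936)) (l 16779040)))))), by decide +kernel⟩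

def k7_pm_213 : ∃ t, chk3 f_pm_213 t 253 130 1 = true :=
  ⟨(b (a (b (a (l 3) (b (l 3) (a (l 3) (a (a (l 3) (b (l 3) (b (l 3) (a (l 273435069559) (l 273971940551))))) (b (a (l 3) (b (l 3) (c (l 273971939719) (l 272898197911)))) (c (l 274508811399) (a (b (l 272898197975) (l 273435069031)) (l 274508811239)))))))) (a (b (l 3) (a (l 3) (a (b (l 3) (c (l 273971940695) (b (c (l 273435069095) (l 272898198183)) (l 273435069303)))) (b (a (b (l 3) (l 273435069783)) (b (l 273435069719) (l 274508811559))) (c (l 274508811303) (l 274508811639)))))) (b (a (a (b (l 3) (a (b (l 3) (l 273435069655)) (b (l 273435069591) (l 275045682375)))) (b (b (l 3) (a (a (l 3) (l 272898198023)) (l 273971940615))) (a (b (l 273971940663) (l 16778624)) (l 16778624)))) (b (c (l 274508811495) (a (b (c (l 273435069031) (l 273435069063)) (l 273435069159)) (l 16778664))) (l 16778656))) (a (a (b (b (l 274508811527) (l 16778672)) (l 16778720)) (l 16778712)) (l 16778752))))) (b (l 6) (l 16778800))) (a (b (a (b (a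 (a (b (a (l 3) (b (l 3) (l 273435069847))) (c (l 273971940887) (b (l 273435069335) (l 274508811591)))) (b (b (a (l 273435069783) (l 273971940855)) (l 273971940935)) (l 16778768))) (b (c (l 16778680) (a (l 16778784) (l 16778840))) (l 16778808))) (l 16778880)) (l 16778920)) (l 16779136)) (l 16779184))), by decide +kernel⟩

def k8_pm_213 : ∃ t, chk3 f_pm_213 t 126 131 1 = true :=
  ⟨(a (b (a (b (a (l 3) (b (a (l 3) (a (b (l 3) (a (l 273435070279) (l 273435070455))) (a (b (l 3) (l 273971941495)) (b (l 273435070343) (l 274508812311))))) (a (a (b (l 3) (a (l 273435070535) (l 273971941591))) (b (a (l 273435070407) (l 273435070567)) (l 274508812615))) (b (c (l 274508811799) (a (l 273971941031) (l 16779160))) (l 16779144))))) (a (b (a (a (l 3) (a (l 3) (b (l 3) (l 273435070599)))) (a (b (c (l 273971940615) (l 273435069703)) (c (l 273971941015) (l 273435070839))) (b (c (l 273971940919) (l 273435070727)) (l 16779176)))) (a (b (c (a (l 273971940871) (l 274508812007)) (a (l 273435069959)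 (l 273435070295))) (c (l 274508812119) (a (l 273435070407) (l 16779312)))) (l 16779264))) (b (a (b (c (l 274508812343) (l 274508812695)) (l 16779224)) (l 16779248)) (l 16779360)))) (b (a (b (a (a (b (a (l 273971941399) (l 275045683223)) (l 16779048)) (l 16779048)) (l 16779088)) (l 16779200)) (l 16779240)) (l 16779464))) (l 16785016)) (l 16779904)), by decide +kernel⟩

def k9_pm_213 : ∃ t, chk3 f_pm_213 t 127 65 1 = true :=
  ⟨(l 16800768), by decide +kernel⟩

def k10_pm_213 : ∃ t, chk3 f_pm_213 t 62 66 1 = true :=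
  ⟨(a (b (l 3) (a (l 3) (b (a (l 3) (b (a (l 3) (b (l 3) (a (l 3) (l 273971943751)))) (a (b (l 3) (a (l 3) (l 273971944183))) (b (a (l 273971943975) (l 273971944455)) (a (l 273971944631) (l 16780328)))))) (a (b (a (l 3) (b (l 3) (a (l 273971942647) (l 273971945895)))) (a (b (a (l 3) (l 273971945511)) (a (l 273971945751) (l 273971946279))) (b (a (l 273971946103) (l 16780464)) (l 16780584)))) (b (a (b (a (l 273971944391) (l 274508815623)) (l 273971945367)) (l 16780536)) (l 16780784)))))) (b (a (b (a (l 3) (b (l 3) (a (l 3) (b (a (l 3) (b (l 3) (l 273971943079))) (a (b (l 3) (l 273971943303)) (b (l 273971943447) (l 274508814119))))))) (a (b (l 3) (a (b (l 3) (a (l 3) (l 273971943271))) (b (a (l 273971942999) (b (l 273971943543) (l 273971943911))) (a (b (l 273971943767) (l 273971944103)) (l 16780032))))) (b (a (b (a (l 3) (b (l 273971943063) (l 273971943511))) (a (b (l 273971943303) (l 273971943719)) (l 273971943911))) (b (a (b (l 273971943639) (l 16779840)) (l 16779880)) (l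 16780000))) (a (b (a (l 274508814823) (l 16780032)) (l 16780152)) (l 16780232))))) (b (a (b (a (b (a (l 3) (b (l 3) (l 273971942567))) (a (b (l 3) (l 273971942823)) (b (a (l 273971941607) (l 273971943223)) (l 273971943367)))) (b (a (a (b (l 3) (l 273971943111)) (b (l 273971943015) (l 274508813543))) (b (l 274508813671) (l 16779616))) (l 16779688))) (a (b (a (b (l 273971943255) (l 273971943543)) (l 16779728)) (l 16779848)) (l 16779920))) (l 16779976)) (l 16780456))) (a (b (a (b (a (b (a (l 273971943511) (l 273971944087)) (a (l 273971944279) (l 16780176))) (l 16780224)) (l 16780472)) (l 16780632)) (l 16781136)) (l 16781408)))), by decide +kernel⟩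

def k11_pm_213 : ∃ t, chk3 f_pm_213 t 62 67 1 = true :=
  ⟨(a (b (a (b (a (b (l 3) (a (l 3) (b (l 3) (l 274508816439)))) (b (a (l 3) (b (a (l 3) (l 273971945975)) (l 273435075447))) (a (b (l 273971946023) (l 273435075815)) (l 273971946743)))) (a (b (a (b (l 3) (l 274508816919)) (b (l 273971946439) (l 273435076167))) (a (l 273435076151) (l 16781104))) (l 16786480))) (b (a (b (a (b (l 273435075655) (l 16780736)) (l 16780848)) (l 16781104)) (l 16781304)) (l 16781832))) (l 16803544)) (l 16783192)), by decide +kernel⟩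

def k12_pm_213 : ∃ t, chk3 f_pm_213 t 63 33 1 = true :=
  ⟨(l 16804096), by decide +kernel⟩

def k13_pm_213 : ∃ t, chk3 f_pm_213 t 15 17 1 = true :=
  ⟨(a (b (a (b (l 3) (a (b (l 3) (l 3)) (b (a (l 3) (b (a (l 3) (b (l 3) (l 274508827223))) (a (l 274508821799) (l 271824469463)))) (a (b (a (l 3) (l 273971956919)) (a (l 272898215799) (l 271824476039))) (b (l 270750731655) (l 16784224)))))) (b (a (b (a (l 3) (b (l 3) (a (l 3) (b (l 274508820375) (l 272898209223))))) (a (b (a (l 3) (b (l 3) (l 275582567271))) (a (b (l 3) (l 275045697271)) (b (l 273971951111) (l 272361339751)))) (b (a (b (l 274508821239) (l 272361339047)) (l 271824469047)) (l 16793384)))) (b (a (b (a (b (a (l 3) (l 274508820295)) (a (l 274508820743) (l 273435080039))) (b (a (l 273435079671) (l 16781616)) (l 16781896))) (a (b (l 272361338871) (l 16782200)) (l 16782520))) (l 16782840)) (l 16784064))) (a (b (a (b (a (l 272898210583) (l 16782920)) (l 16783552)) (l 16784264)) (l 16785624)) (l 16786768)))) (a (b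 (a (b (a (b (l 3) (l 277730051399)) (b (a (l 277193191751) (l 272898216535)) (l 271287605399))) (a (b (l 273435087495) (l 270750735863)) (l 16785048))) (b (a (b (l 16789096) (l 16784912)) (l 16785776)) (l 16787304))) (l 16810448)) (l 16792112))) (l 16855352)), by decide +kernel⟩

def k14_pm_213 : ∃ t, chk3 f_pm_213 t 15 9 1 = true :=
  ⟨(b (a (l 16827536) (l 16814576)) (l 16849096)), by decide +kernel⟩

def k15_pm_213 : ∃ t, chk3 f_pm_213 t 1 5 1 = true :=
  ⟨(a (a (l 3) (b (l 3) (a (b (l 3) (a (l 3) (b (l 3) (l 295446855847)))) (b (a (l 3) (b (l 302426172999) (a (b (l 3) (a (l 3) (l 269140162103))) (b (a (l 276119477959) (l 263234596119)) (l 254107859911))))) (a (b (a (l 3) (b (l 271287649239) (a (l 255181532871) (b (l 264308309575) (l 16833432))))) (a (b (a (l 3) (b (l 273435100727) (l 265382073959))) (a (b (l 269677011879) (l 261623968823)) (l 16842344))) (l 262697915287))) (b (a (b (a (l 242296645607) (l 257865910535)) (l 16854848)) (l 16855328)) (l 16892120)))))))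 (a (b (a (b (a (l 3) (b (l 3) (a (l 3) (l 297594324359)))) (a (b (l 3) (a (l 3) (b (l 290614983911) (l 256792169591)))) (b (a (b (l 3) (a (l 3) (l 273971993271))) (b (l 264308339847) (l 257865913079))) (a (b (a (l 269140161799) (l 16828568)) (l 16798680)) (l 16832840))))) (b (a (b (a (l 3) (b (l 289541232567) (a (l 281488176183) (l 265918930135)))) (a (b (l 275582642167) (l 251423465479)) (l 260013441639))) (b (a (b (a (l 268603278791) (l 16798608)) (l 16806136)) (l 16814824)) (l 16833176))) (a (l 16948896) (l 16881792)))) (a (b (a (b (a (b (l 265382080919) (a (l 267529554887) (l 259476515191))) (b (l 256792183623) (l 16834080))) (a (b (l 16848160) (l 16850144)) (l 16866824))) (l 16881896)) (l 16954712)) (l 17156544))) (b (a (b (l 16867152) (l 16940752)) (l 16971776)) (a (l 17083064) (l 17266200))))), by decide +kernel⟩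

def k16_pm_213 : ∃ t, chk3 f_pm_213 t 1 6 1 = true :=
  ⟨(a (b (a (a (l 3) (b (l 3) (a (l 3) (b (l 287393820871) (a (b (l 269677011751) (a (l 256792122631) (b (l 266455810343) (l 16831880)))) (b (a (l 242833512199) (l 256792188471)) (l 16793200))))))) (a (b (a (a (l 3) (b (l 3) (b (l 263234581335) (b (l 243370403335) (l 230485524567))))) (b (a (b (l 3) (a (l 259476445303) (l 239612308311))) (b (b (l 244981012615) (a (l 268066421447) (l 16816096))) (a (l 257329061639) (l 16838696)))) (a (b (b (l 232096133911) (l 255181588951)) (l 16846528)) (l 16874464)))) (a (b (a (b (a (l 257865852583) (l 239612292231)) (a (b (l 263771461255) (l 16815256)) (l 16829800))) (b (a (l 254107844199) (l 16844616)) (l 16864456))) (l 16867432)) (l 16943672))) (b (a (b (a (b (l 16840280) (l 16869888)) (l 16894792)) (l 16933840)) (l 16974840)) (l 17066536)))) (a (b (a (a (l 3) (b (l 3) (a (l 3) (l 272898315639)))) (a (b (a (l 286320035495) (b (l 257329037767) (b (a (l 268066398279) (l 16813144))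 (l 255718449047)))) (a (a (a (a (l 246591654279) (l 241759822103)) (l 235317403399)) (l 264308480567)) (l 16833320))) (a (b (a (l 263771614887) (l 16826464)) (l 16898760)) (l 16932248)))) (a (a (b (l 306721121575) (a (l 274508925543) (b (a (l 254644661591) (b (l 242833470983) (l 16814728))) (a (l 198810067559) (l 16840512))))) (b (a (a (l 263234641543) (b (l 255181513719) (l 254107814631))) (b (a (b (l 263234588583) (l 16814688)) (l 16827384)) (l 16848952))) (a (l 16835808) (l 16902464)))) (a (l 16934544) (l 17034224)))) (b (a (l 17035504) (l 17224648)) (l 17313200)))) (b (a (a (l 17335456) (l 17206216)) (a (l 17328704) (l 17419480))) (a (b (l 17418984) (l 17624680)) (a (l 17648176) (l 17787696))))), by decide +kernel⟩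

def k17_pm_213 : ∃ t, chk3 f_pm_213 t 1 7 1 = true :=
  ⟨(a (b (b (a (a (a (a (b (a (l 263771627463) (l 16848888)) (l 16920736)) (l 16928120)) (l 17007616)) (l 17178136)) (l 17552232)) (a (a (l 17181776) (l 17451776)) (l 17803440))) (b (a (l 1) (l 17996824)) (l 1))) (b (a (b (l 17843320) (l 18103248)) (l 18251288)) (a (l 18307376) (b (l 18463128) (l 18420368))))), by decide +kernel⟩

theorem s18_pm_213 : ∃ t, chk3 f_pm_213 t 1 3 1 = true := ex3_b k16_pm_213 k17_pm_213

theorem s19_pm_213 : ∃ t, chk3 f_pm_213 t 62 33 1 = true := ex3_b k10_pm_213 k11_pm_213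

theorem s20_pm_213 : ∃ t, chk3 f_pm_213 t 31 33 1 = true := ex3_a s19_pm_213 k12_pm_213

theorem s21_pm_213 : ∃ t, chk3 f_pm_213 t 126 130 1 = true := ex3_a k6_pm_213 k7_pm_213

theorem s22_pm_213 : ∃ t, chk3 f_pm_213 t 126 65 1 = true := ex3_b s21_pm_213 k8_pm_213

theorem s23_pm_213 : ∃ t, chk3 f_pm_213 t 63 65 1 = true := ex3_a s22_pm_213 k9_pm_213

theorem s24_pm_213 : ∃ t, chk3 f_pm_213 t 63 32 1 = true := ex3_b k5_pm_213 s23_pm_213

theorem s25_pm_213 : ∃ t, chk3 f_pm_213 t 31 32 1 = true := ex3_a k4_pm_213 s24_pm_213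

theorem s26_pm_213 : ∃ t, chk3 f_pm_213 t 31 16 1 = true := ex3_b s25_pm_213 s20_pm_213

theorem s27_pm_213 : ∃ t, chk3 f_pm_213 t 15 16 1 = true := ex3_a k3_pm_213 s26_pm_213

theorem s28_pm_213 : ∃ t, chk3 f_pm_213 t 15 8 1 = true := ex3_b s27_pm_213 k13_pm_213

theorem s29_pm_213 : ∃ t, chk3 f_pm_213 t 15 4 1 = true := ex3_b s28_pm_213 k14_pm_213

theorem s30_pm_213 : ∃ t, chk3 f_pm_213 t 7 4 1 = true := ex3_a k2_pm_213 s29_pm_213

theorem s31_pm_213 : ∃ t, chk3 f_pm_213 t 3 4 1 = true := ex3_a k1_pm_213 s30_pm_213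

theorem s32_pm_213 : ∃ t, chk3 f_pm_213 t 1 4 1 = true := ex3_a k0_pm_213 s31_pm_213

theorem s33_pm_213 : ∃ t, chk3 f_pm_213 t 1 2 1 = true := ex3_b s32_pm_213 k15_pm_213

theorem s34_pm_213 : ∃ t, chk3 f_pm_213 t 1 1 1 = true := ex3_b s33_pm_213 s18_pm_213

theorem c_pm_213 : CertN 0 536870912 0 1230186008 33554432 16777216 3 false true false .pnn 2 1 3
    ndN0q2 ndN4q3 pcN1 cut_pm_213 Ext.none :=
  certNK0 (fam := false) (s1 := true) (s2 := false) (a := 2) (b := 1) (c := 3) (cn := .pnn) (n1 := ndN0q2) (n2 := ndN4q3) (pc := pcN1) (cut := cut_pm_213) (xt := Ext.none) (P1 := 0) (W1 := 536870912) (P2 := 0) (W2 := 1230186008) (P3 := 33554432) (W3 := 16777216) (N0 := 3)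
    rfl rfl rfl s34_pm_213

noncomputable def f_mm_001 : ℕ → ℕ → ℕ → ℕ → Bool := onCell 0 536870912 0 536870912 33554432 16777216
    (rowNK 3 1 false false false .up 0 0 1 (qsf 0 536870912 536870912 536870912 0) ndN0q0 ndN4q1 pcN0 Cut.none Ext.none)

def k0_mm_001 : ∃ t, chk3 f_mm_001 t 1 1 1 = true :=
  ⟨(l 3), by decide +kernel⟩

theorem c_mm_001 : CertN 0 536870912 536870912 536870912 33554432 16777216 3 false false false .up 0 0 1
    ndN0q0 ndN4q1 pcN0 Cut.none Ext.none :=
  certNK1 (fam := false) (s1 := false) (s2 := false) (a := 0) (b := 0) (c := 1) (cn := .up) (n1 := ndN0q0) (n2 := ndN4q1) (pc := pcN0) (cut := Cut.none) (xt := Ext.none) (P1 := 0) (W1 := 536870912) (P2 := 536870912) (W2 := 536870912) (P3 := 33554432) (W3 := 16777216) (N0 := 3)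
    rfl rfl rfl (fun _ => rfl) k0_mm_001

noncomputable def f_mm_011 : ℕ → ℕ → ℕ → ℕ → Bool := onCell 0 536870912 536870912 536870912 33554432 16777216
    (rowNK 3 1 false false false .pnn 0 1 1 (qsf 0 536870912 536870912 536870912 1) ndN0q0 ndN4q1 pcN1 Cut.none Ext.none)

def k0_mm_011 : ∃ t, chk3 f_mm_011 t 1 1 1 = true :=
  ⟨(l 5), by decide +kernel⟩

theorem c_mm_011 : CertN 0 536870912 536870912 536870912 33554432 16777216 3 false false false .pnn 0 1 1
    ndN0q0 ndN4q1 pcN1 Cut.none Ext.none :=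
  certNK1 (fam := false) (s1 := false) (s2 := false) (a := 0) (b := 1) (c := 1) (cn := .pnn) (n1 := ndN0q0) (n2 := ndN4q1) (pc := pcN1) (cut := Cut.none) (xt := Ext.none) (P1 := 0) (W1 := 536870912) (P2 := 536870912) (W2 := 536870912) (P3 := 33554432) (W3 := 16777216) (N0 := 3)
    rfl rfl rfl (fun _ => rfl) k0_mm_011

noncomputable def f_mm_012 : ℕ → ℕ → ℕ → ℕ → Bool := onCell 0 536870912 1073741824 536870912 33554432 16777216
    (rowNK 3 0 false false false .pnp 0 1 2 (qsf 0 536870912 1073741824 536870912 1) ndN0q0 ndN4q2 pcN1 Cut.none Ext.none)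

def k0_mm_012 : ∃ t, chk3 f_mm_012 t 1 1 1 = true :=
  ⟨(l 5), by decide +kernel⟩

theorem c_mm_012 : CertN 0 536870912 1073741824 536870912 33554432 16777216 3 false false false .pnp 0 1 2
    ndN0q0 ndN4q2 pcN1 Cut.none Ext.none :=
  certNK0 (fam := false) (s1 := false) (s2 := false) (a := 0) (b := 1) (c := 2) (cn := .pnp) (n1 := ndN0q0) (n2 := ndN4q2) (pc := pcN1) (cut := Cut.none) (xt := Ext.none) (P1 := 0) (W1 := 536870912) (P2 := 1073741824) (W2 := 536870912) (P3 := 33554432) (W3 := 16777216) (N0 := 3)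
    rfl rfl rfl k0_mm_012

noncomputable def f_mm_022 : ℕ → ℕ → ℕ → ℕ → Bool := onCell 0 536870912 1073741824 536870912 33554432 16777216
    (rowNK 3 0 false false false .pp 0 2 2 (qsf 0 536870912 1073741824 536870912 2) ndN0q0 ndN4q2 pcN2 Cut.none Ext.none)

def k0_mm_022 : ∃ t, chk3 f_mm_022 t 1 1 1 = true :=
  ⟨(l 5), by decide +kernel⟩

theorem c_mm_022 : CertN 0 536870912 1073741824 536870912 33554432 16777216 3 false false false .pp 0 2 2
    ndN0q0 ndN4q2 pcN2 Cut.none Ext.none :=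
  certNK0 (fam := false) (s1 := false) (s2 := false) (a := 0) (b := 2) (c := 2) (cn := .pp) (n1 := ndN0q0) (n2 := ndN4q2) (pc := pcN2) (cut := Cut.none) (xt := Ext.none) (P1 := 0) (W1 := 536870912) (P2 := 1073741824) (W2 := 536870912) (P3 := 33554432) (W3 := 16777216) (N0 := 3)
    rfl rfl rfl k0_mm_022

noncomputable def f_mm_023 : ℕ → ℕ → ℕ → ℕ → Bool := onCell 0 536870912 0 1230186008 33554432 16777216
    (rowNK 3 0 false false false .up 0 2 3 (qsf 0 536870912 0 1230186008 2) ndN0q0 ndN4q3 pcN2 Cut.none Ext.none)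

def k0_mm_023 : ∃ t, chk3 f_mm_023 t 1 1 1 = true :=
  ⟨(l 5), by decide +kernel⟩

theorem c_mm_023 : CertN 0 536870912 0 1230186008 33554432 16777216 3 false false false .up 0 2 3
    ndN0q0 ndN4q3 pcN2 Cut.none Ext.none :=
  certNK0 (fam := false) (s1 := false) (s2 := false) (a := 0) (b := 2) (c := 3) (cn := .up) (n1 := ndN0q0) (n2 := ndN4q3) (pc := pcN2) (cut := Cut.none) (xt := Ext.none) (P1 := 0) (W1 := 536870912) (P2 := 0) (W2 := 1230186008) (P3 := 33554432) (W3 := 16777216) (N0 := 3)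
    rfl rfl rfl k0_mm_023

noncomputable def f_mm_033 : ℕ → ℕ → ℕ → ℕ → Bool := onCell 0 536870912 0 1230186008 33554432 16777216
    (rowNK 3 0 false false false .pnn 0 3 3 (qsf 0 536870912 0 1230186008 3) ndN0q0 ndN4q3 pcN3 Cut.none Ext.none)

def k0_mm_033 : ∃ t, chk3 f_mm_033 t 1 1 1 = true :=
  ⟨(l 5), by decide +kernel⟩

theorem c_mm_033 : CertN 0 536870912 0 1230186008 33554432 16777216 3 false false false .pnn 0 3 3
    ndN0q0 ndN4q3 pcN3 Cut.none Ext.none :=
  certNK0 (fam := false) (s1 := false) (s2 := false) (a := 0) (b := 3) (c := 3) (cn := .pnn) (n1 := ndN0q0) (n2 := ndN4q3) (pc := pcN3) (cut := Cut.none) (xt := Ext.none) (P1 := 0) (W1 := 536870912) (P2 := 0) (W2 := 1230186008) (P3 := 33554432) (W3 := 16777216) (N0 := 3)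
    rfl rfl rfl k0_mm_033

noncomputable def cut_mm_101 : Cut := Cut.of [[⟨0, 1, 0, 33554432⟩, ⟨1, 0, 0, 33554432⟩, ⟨2, 1, 0, 33554432⟩]]

noncomputable def f_mm_101 : ℕ → ℕ → ℕ → ℕ → Bool := onCell 536870912 536870912 0 536870912 33554432 16777216
    (rowNK 3 1 false false false .npn 1 0 1 (qsf 536870912 536870912 536870912 536870912 0) ndN0q1 ndN4q1 pcN0 cut_mm_101 Ext.none)

def k0_mm_101 : ∃ t, chk3 f_mm_101 t 1 1 1 = true :=
  ⟨(b (a (l 3) (a (l 3) (b (b (a (l 3) (a (l 3) (b (a (l 3) (b (l 6) (l 3))) (l 3)))) (l 3)) (l 3)))) (l 3)), by decide +kernel⟩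

theorem c_mm_101 : CertN 536870912 536870912 536870912 536870912 33554432 16777216 3 false false false .npn 1 0 1
    ndN0q1 ndN4q1 pcN0 cut_mm_101 Ext.none :=
  certNK1 (fam := false) (s1 := false) (s2 := false) (a := 1) (b := 0) (c := 1) (cn := .npn) (n1 := ndN0q1) (n2 := ndN4q1) (pc := pcN0) (cut := cut_mm_101) (xt := Ext.none) (P1 := 536870912) (W1 := 536870912) (P2 := 536870912) (W2 := 536870912) (P3 := 33554432) (W3 := 16777216) (N0 := 3)
    rfl rfl rfl (fun _ => rfl) k0_mm_101

noncomputable def cut_mm_102 : Cut := Cut.of [[⟨0, 1, 0, 33554432⟩, ⟨1, 0, 0, 33554432⟩, ⟨2, 1, 0, 33554432⟩]]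

noncomputable def f_mm_102 : ℕ → ℕ → ℕ → ℕ → Bool := onCell 536870912 536870912 0 536870912 33554432 16777216
    (rowNK 3 1 false false false .npp 1 0 2 (qsf 536870912 536870912 1073741824 536870912 0) ndN0q1 ndN4q2 pcN0 cut_mm_102 Ext.none)

def k0_mm_102 : ∃ t, chk3 f_mm_102 t 1 1 1 = true :=
  ⟨(b (a (l 3) (a (l 3) (b (b (a (l 3) (a (l 3) (b (a (l 3) (b (l 6) (l 3))) (l 3)))) (l 3)) (l 3)))) (l 3)), by decide +kernel⟩

theorem c_mm_102 : CertN 536870912 536870912 1073741824 536870912 33554432 16777216 3 false false false .npp 1 0 2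
    ndN0q1 ndN4q2 pcN0 cut_mm_102 Ext.none :=
  certNK1 (fam := false) (s1 := false) (s2 := false) (a := 1) (b := 0) (c := 2) (cn := .npp) (n1 := ndN0q1) (n2 := ndN4q2) (pc := pcN0) (cut := cut_mm_102) (xt := Ext.none) (P1 := 536870912) (W1 := 536870912) (P2 := 1073741824) (W2 := 536870912) (P3 := 33554432) (W3 := 16777216) (N0 := 3)
    rfl rfl rfl (fun _ => rfl) k0_mm_102

noncomputable def f_mm_112 : ℕ → ℕ → ℕ → ℕ → Bool := onCell 536870912 536870912 1073741824 536870912 33554432 16777216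
    (rowNK 3 2 false false false .dn 1 1 2 (qsf 536870912 536870912 1073741824 536870912 1) ndN0q1 ndN4q2 pcN1 Cut.none Ext.none)

def k0_mm_112 : ∃ t, chk3 f_mm_112 t 1 1 1 = true :=
  ⟨(a (l 3) (l 5)), by decide +kernel⟩

theorem c_mm_112 : CertN 536870912 536870912 1073741824 536870912 33554432 16777216 3 false false false .dn 1 1 2
    ndN0q1 ndN4q2 pcN1 Cut.none Ext.none :=
  certNK2 (fam := false) (s1 := false) (s2 := false) (a := 1) (b := 1) (c := 2) (cn := .dn) (n1 := ndN0q1) (n2 := ndN4q2) (pc := pcN1) (cut := Cut.none) (xt := Ext.none) (P1 := 536870912) (W1 := 536870912) (P2 := 1073741824) (W2 := 536870912) (P3 := 33554432) (W3 := 16777216) (N0 := 3)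
    rfl rfl rfl (fun _ => rfl) k0_mm_112

noncomputable def f_mm_113 : ℕ → ℕ → ℕ → ℕ → Bool := onCell 536870912 536870912 0 1230186008 33554432 16777216
    (rowNK 3 0 false false false .nn 1 1 3 (qsf 536870912 536870912 0 1230186008 1) ndN0q1 ndN4q3 pcN1 Cut.none Ext.none)

def k0_mm_113 : ∃ t, chk3 f_mm_113 t 1 1 1 = true :=
  ⟨(a (l 5) (b (l 5) (a (b (l 5) (l 3)) (l 3)))), by decide +kernel⟩

theorem c_mm_113 : CertN 536870912 536870912 0 1230186008 33554432 16777216 3 false false false .nn 1 1 3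
    ndN0q1 ndN4q3 pcN1 Cut.none Ext.none :=
  certNK0 (fam := false) (s1 := false) (s2 := false) (a := 1) (b := 1) (c := 3) (cn := .nn) (n1 := ndN0q1) (n2 := ndN4q3) (pc := pcN1) (cut := Cut.none) (xt := Ext.none) (P1 := 536870912) (W1 := 536870912) (P2 := 0) (W2 := 1230186008) (P3 := 33554432) (W3 := 16777216) (N0 := 3)
    rfl rfl rfl k0_mm_113

noncomputable def f_mm_123 : ℕ → ℕ → ℕ → ℕ → Bool := onCell 1073741824 536870912 0 1230186008 33554432 16777216
    (rowNK 3 2 false false false .npn 1 2 3 (qsf 536870912 536870912 0 1230186008 2) ndN0q1 ndN4q3 pcN2 Cut.none Ext.none)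

def k0_mm_123 : ∃ t, chk3 f_mm_123 t 1 1 1 = true :=
  ⟨(b (l 5) (l 5)), by decide +kernel⟩

theorem c_mm_123 : CertN 536870912 536870912 0 1230186008 33554432 16777216 3 false false false .npn 1 2 3
    ndN0q1 ndN4q3 pcN2 Cut.none Ext.none :=
  certNK2 (fam := false) (s1 := false) (s2 := false) (a := 1) (b := 2) (c := 3) (cn := .npn) (n1 := ndN0q1) (n2 := ndN4q3) (pc := pcN2) (cut := Cut.none) (xt := Ext.none) (P1 := 536870912) (W1 := 536870912) (P2 := 0) (W2 := 1230186008) (P3 := 33554432) (W3 := 16777216) (N0 := 3)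
    rfl rfl rfl (fun _ => rfl) k0_mm_123

noncomputable def f_mm_133 : ℕ → ℕ → ℕ → ℕ → Bool := onCell 1610612736 536870912 0 1230186008 33554432 16777216
    (rowNK 3 2 false false false .dn 1 3 3 (qsf 536870912 536870912 0 1230186008 3) ndN0q1 ndN4q3 pcN3 Cut.none Ext.none)

def k0_mm_133 : ∃ t, chk3 f_mm_133 t 1 1 1 = true :=
  ⟨(l 5), by decide +kernel⟩

theorem c_mm_133 : CertN 536870912 536870912 0 1230186008 33554432 16777216 3 false false false .dn 1 3 3
    ndN0q1 ndN4q3 pcN3 Cut.none Ext.none :=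
  certNK2 (fam := false) (s1 := false) (s2 := false) (a := 1) (b := 3) (c := 3) (cn := .dn) (n1 := ndN0q1) (n2 := ndN4q3) (pc := pcN3) (cut := Cut.none) (xt := Ext.none) (P1 := 536870912) (W1 := 536870912) (P2 := 0) (W2 := 1230186008) (P3 := 33554432) (W3 := 16777216) (N0 := 3)
    rfl rfl rfl (fun _ => rfl) k0_mm_133

noncomputable def cut_mm_202 : Cut := Cut.of [[⟨0, 1, 0, 33554432⟩, ⟨1, 0, 0, 33554432⟩, ⟨2, 1, 0, 33554432⟩]]

noncomputable def f_mm_202 : ℕ → ℕ → ℕ → ℕ → Bool := onCell 0 536870912 0 536870912 33554432 16777216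
    (rowNK 3 1 false false false .pp 2 0 2 (qsf 0 536870912 1073741824 536870912 0) ndN0q2 ndN4q2 pcN0 cut_mm_202 Ext.none)

def k0_mm_202 : ∃ t, chk3 f_mm_202 t 2 2 1 = true :=
  ⟨(b (b (a (c (a (l 20395392) (l 19778704)) (c (a (l 18841968) (l 18493584)) (l 18679600))) (c (b (a (l 19400888) (l 18847360)) (a (l 18689912) (l 18252936))) (a (l 18632368) (l 18725432)))) (a (c (b (a (l 19350960) (l 18589072)) (l 18377808)) (c (l 17957768) (l 18138072))) (b (a (c (l 18066584) (l 18215968)) (l 18209888)) (a (l 18075016) (l 18282656))))) (b (a (c (b (l 17760088) (l 18017360)) (l 18124928)) (a (l 18151552) (l 18001120))) (a (a (l 18132336) (l 17965592)) (a (l 17872872) (b (l 17784912) (l 17545032)))))), by decide +kernel⟩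

def k1_mm_202 : ∃ t, chk3 f_mm_202 t 6 4 1 = true :=
  ⟨(a (b (c (b (l 18593080) (l 18182288)) (l 18648264)) (b (l 18249064) (l 18158048))) (b (b (a (l 18500856) (b (l 18094640) (l 18154384))) (a (l 18225368) (l 18079056))) (b (a (l 18114584) (l 17760448)) (a (l 17725288) (l 17569864))))), by decide +kernel⟩

def k2_mm_202 : ∃ t, chk3 f_mm_202 t 14 8 1 = true :=
  ⟨(b (b (a (l 17907056) (a (l 17563856) (c (l 17432056) (c (l 17155160) (l 16986384))))) (a (l 17981040) (b (l 17660880) (a (l 17780184) (l 17560960))))) (a (a (l 17886656) (l 17739208)) (a (b (l 17662456) (l 17459712)) (b (l 17440368) (l 17152952))))), by decide +kernel⟩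

def k3_mm_202 : ∃ t, chk3 f_mm_202 t 30 16 1 = true :=
  ⟨(b (b (a (a (l 17218408) (l 17194704)) (b (a (l 17104272) (l 6)) (l 17071384))) (a (l 17065840) (b (l 16983112) (l 16887776)))) (a (b (l 17265768) (l 17287080)) (b (a (l 17010880) (l 16841864)) (a (l 17069520) (l 16931152))))), by decide +kernel⟩

def k4_mm_202 : ∃ t, chk3 f_mm_202 t 31 32 1 = true :=
  ⟨(a (a (b (l 6) (b (l 16837256) (l 16769392))) (l 6)) (l 6)), by decide +kernel⟩

def k5_mm_202 : ∃ t, chk3 f_mm_202 t 124 66 1 = true :=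
  ⟨(b (l 16774896) (l 16775416)), by decide +kernel⟩

def k6_mm_202 : ∃ t, chk3 f_mm_202 t 250 66 1 = true :=
  ⟨(b (l 16775176) (l 16774552)), by decide +kernel⟩

def k7_mm_202 : ∃ t, chk3 f_mm_202 t 251 132 1 = true :=
  ⟨(a (l 16775352) (l 6)), by decide +kernel⟩

def k8_mm_202 : ∃ t, chk3 f_mm_202 t 502 133 1 = true :=
  ⟨(b (l 16775536) (a (l 16775608) (b (l 16775592) (b (l 16786568) (b (l 16782096) (a (l 16797648) (b (l 16778904) (a (l 16777832) (a (l 16778344) (a (c (l 160155307127) (l 161765919975)) (b (c (l 190220078135) (l 192904432791)) (l 258402684455)))))))))))), by decide +kernel⟩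

def k9_mm_202 : ∃ t, chk3 f_mm_202 t 503 266 1 = true :=
  ⟨(a (l 16786040) (b (a (l 16775560) (l 6)) (a (b (l 16787264) (b (l 16782784) (b (l 16779240) (a (l 16777840) (a (l 16778352) (a (l 152102243527) (b (c (c (l 174650821703) (l 175724563575)) (l 177335176375)) (a (c (l 233706622295) (l 236390976935)) (l 3))))))))) (a (b (l 16780416) (b (b (b (l 16779024) (a (l 16778328) (a (l 16778576) (a (c (l 172503338007) (l 175724563559)) (a (l 220284849543) (l 248739007895)))))) (a (l 146733534487) (a (b (c (c (l 173040208967) (l 174113950839)) (l 175724563639)) (a (a (l 221358591367) (l 249812749719)) (l 3))) (l 265918877415)))) (a (b (a (b (l 16778624) (a (c (l 175187692567) (l 178408918119)) (c (l 232632880471) (l 235317235111)))) (a (b (a (l 186998852823) (l 222432333191)) (l 3)) (l 263771393703))) (l 275582553287)) (l 3)))) (b (b (l 6) (b (l 6) (a (a (l 149417888951) (b (a (l 16778656) (l 6)) (a (a (l 218674236807) (l 247128395159)) (l 3)))) (l 274508812775)))) (a (a (b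 (b (b (a (a (l 183777627319) (l 219747978631)) (l 253570846135)) (l 3)) (l 3)) (l 3)) (l 3)) (l 3))))))), by decide +kernel⟩

def k10_mm_202 : ∃ t, chk3 f_mm_202 t 1006 267 1 = true :=
  ⟨(b (a (l 16781848) (b (l 16780080) (b (a (l 16777888) (a (c (c (l 145122921511) (l 145659792471)) (l 145659792535)) (a (b (l 16778520) (b (c (c (l 180019530807) (l 181093272679)) (l 182703885495)) (l 251960233543))) (b (b (l 150491630663) (a (c (l 182703885319) (l 186461981799)) (l 240149073271))) (l 269140102871))))) (b (a (l 16779576) (a (a (b (l 152639114311) (a (a (l 164987145319) (l 201494367479)) (l 241759685991))) (b (c (l 221895461959) (l 228337912791)) (l 3))) (l 3))) (a (a (l 16778352) (a (c (l 155323468951) (l 156397210855)) (b (c (c (l 181630143543) (l 182703885415)) (l 184314498263)) (l 253570846263)))) (l 3)))))) (a (b (a (l 16780416) (a (b (l 16778056) (b (l 16779088) (a (c (l 158007823495) (l 159081565415)) (b (c (l 185925110855) (l 189146336423)) (l 256255200823))))) (b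 (b (l 16778264) (c (l 151028501559) (l 151565372567))) (b (a (a (l 163913403527) (b (l 164450274407) (l 246054653271))) (c (c (l 240685944167) (l 241222815047)) (l 242833427799))) (l 3))))) (a (a (b (a (l 16778304) (a (l 16779088) (b (l 16778392) (l 166597758215)))) (b (a (b (l 160692178055) (c (l 209547431063) (l 212231785607))) (c (l 243370298647) (l 248202136663))) (l 3))) (b (a (b (l 16778520) (b (c (l 188609465415) (l 190756949159)) (l 257328942631))) (b (b (l 158544694343) (c (l 207399947383) (l 210084302023))) (l 3))) (l 3))) (a (a (b (b (c (l 242296556919) (l 244980911319)) (l 3)) (l 3)) (l 3)) (l 3)))) (b (a (b (a (a (b (l 16778520) (b (c (c (l 183240756279) (l 185388239975)) (l 186461981863)) (l 254644588087))) (b (b (l 154249727047) (a (a (l 168208370791) (l 204715592951)) (l 243907169639))) (l 3))) (a (b (a (c (l 230485396727) (l 233169751207)) (l 3)) (l 3)) (l 3))) (l 3)) (l 3)) (l 3)))), by decide +kernel⟩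

def k11_mm_202 : ∃ t, chk3 f_mm_202 t 1007 267 1 = true :=
  ⟨(b (b (a (a (b (a (l 16778056) (c (l 144586050791) (l 144586050711))) (b (a (l 16778440) (a (b (l 148344147015) (a (c (l 180019530759) (l 183777627239)) (l 238538460615))) (b (a (a (l 193441303767) (l 227264171367)) (l 258939555239)) (l 3)))) (a (a (l 154249727175) (b (c (c (l 177872047175) (l 178945789047)) (l 181093272759)) (l 250886491719))) (l 276656295095)))) (b (a (a (b (l 16778520) (b (c (c (l 176261434439) (l 177335176311)) (l 179482660023)) (a (l 237464718791) (l 3)))) (b (b (l 16778952) (a (c (l 177872047127) (l 181093272679)) (l 236390976983))) (l 267529490135))) (a (a (b (b (a (l 190220078295) (l 225116687751)) (l 3)) (l 3)) (l 275582553287)) (l 3))) (l 3))) (l 3)) (b (b (b (a (a (a (a (c (c (l 219747978423) (l 220821720167)) (l 224042945623)) (l 3)) (l 3)) (l 3)) (l 3)) (l 3)) (l 3)) (l 3))) (l 3)), by decide +kernel⟩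

def k12_mm_202 : ∃ t, chk3 f_mm_202 t 124 67 1 = true :=
  ⟨(a (l 16779040) (b (l 16794232) (a (l 16810864) (b (l 16794544) (a (l 16793824) (b (l 16787544) (b (l 16784480) (b (l 16780024) (a (l 16783352) (a (l 16780344) (a (l 141364824471) (b (c (l 160155306343) (l 162302790135)) (l 222969203735))))))))))))), by decide +kernel⟩

def k13_mm_202 : ∃ t, chk3 f_mm_202 t 250 134 1 = true :=
  ⟨(a (l 16776784) (b (l 16786176) (a (b (l 16776064) (b (l 16777832) (b (l 16778192) (a (l 16778680) (a (l 16778080) (b (l 144586050567) (a (l 16778912) (a (b (l 149417888567) (l 199883754311)) (l 236390976727))))))))) (b (a (l 16781776) (b (l 16778712) (a (b (l 16783072) (b (l 142438566983) (a (l 16779600) (a (a (l 160692177895) (l 187535723639)) (l 232096009559))))) (a (b (a (l 16779568) (b (l 16778304) (a (l 158544694183) (l 184851369095)))) (b (a (a (l 186461981815) (l 219747978423)) (l 3)) (l 3))) (b (b (a (l 153175985079) (a (l 184851369095) (l 218137365703))) (a (l 231022267751)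 (l 3))) (l 3)))))) (b (a (a (l 16779032) (a (b (l 16777984) (b (l 147270405159) (a (b (l 146196663207) (l 196662528887)) (l 234243493127)))) (b (a (l 16779552) (b (l 16778288) (a (l 162302790615) (l 188609465447)))) (a (a (b (l 189683207255) (l 3)) (l 250886492167)) (l 3))))) (b (a (a (b (b (l 161229048935) (a (l 164450274231) (l 245517782439))) (l 250886492183)) (l 3)) (l 3)) (l 3))) (a (a (a (a (b (l 16778880) (b (c (l 206863076295) (l 209010560071)) (l 3))) (b (b (l 16778272) (b (l 147807275847) (l 198273141607))) (l 3))) (b (b (b (l 163376532535) (a (l 169818983319) (l 247128394967))) (l 251960233319)) (l 3))) (l 3)) (l 3))))))), by decide +kernel⟩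

def k14_mm_202 : ∃ t, chk3 f_mm_202 t 500 135 1 = true :=
  ⟨(b (a (l 16784704) (b (l 16780600) (b (a (l 16780496) (a (l 136532986631) (a (b (l 16778544) (b (l 154249726871) (a (c (l 186998852295) (l 189683206999)) (l 3)))) (a (b (l 139754212135) (b (l 215989881863) (l 3))) (b (b (l 16778224) (c (l 185925110503) (l 188609465207))) (l 3)))))) (a (a (l 16779800) (a (l 137069857447) (b (l 16778736) (b (l 155860339559) (a (l 191830690615) (l 3)))))) (a (a (b (a (l 139754212103) (b (l 16778320) (l 190220077895))) (b (l 235317234887) (l 3))) (b (b (a (l 161765919527) (l 217063623655)) (l 3)) (l 3))) (l 3)))))) (a (b (a (l 16782280) (b (l 137606728391) (a (a (l 138680470135) (b (l 16779072) (b (c (l 156934080951) (l 158544693847)) (a (l 196125657799) (l 3))))) (b (a (a (l 138680470103) (b (l 16778472) (l 195051916007))) (a (b (l 167671499383) (l 3)) (l 247665266327))) (l 265382006743))))) (b (a (a (l 139217340983) (b (a (l 16779208) (a (l 140291082775) (b (l 16778536) (l 197199399591))))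 (a (b (c (l 158544693623) (l 160155306535)) (c (l 219211106999) (l 221358590807))) (l 257328942775)))) (a (a (a (b (b (l 169818982967) (l 3)) (l 3)) (l 265382006711)) (l 3)) (l 3))) (a (a (b (a (a (l 141901695383) (b (l 16778424) (l 199346883175))) (a (b (l 171966466567) (l 3)) (l 250349619463))) (l 266992620679)) (l 3)) (l 3)))) (b (a (b (a (b (a (l 16778912) (a (l 140291082807) (b (l 16778400) (l 192904432407)))) (a (b (l 157470952151) (a (l 193978174199) (l 3))) (l 255181459239))) (b (a (a (b (l 165524015863) (l 3)) (l 246054653655)) (l 3)) (l 3))) (l 3)) (l 3)) (l 3)))), by decide +kernel⟩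

def k15_mm_202 : ∃ t, chk3 f_mm_202 t 501 135 1 = true :=
  ⟨(b (a (b (a (b (l 136532986759) (a (b (l 16778480) (a (l 136532986759) (b (l 152639114183) (a (c (l 184851368695) (l 187535723399)) (l 240685943863))))) (a (a (b (l 139217341303) (b (l 213305527367) (l 3))) (b (b (l 16778240) (c (l 183777626903) (l 185925110679))) (l 3))) (b (b (a (l 156934081415) (l 212231785591)) (l 255181458039)) (l 3))))) (b (a (a (b (l 16778088) (b (l 150491630567) (a (c (l 182703885095) (l 184851368887)) (l 238538460343)))) (a (b (l 16778704) (b (c (l 209010559895) (l 211694914599)) (l 3))) (b (b (l 16778256) (c (l 181630143287) (l 183777627079))) (l 3)))) (b (a (b (a (l 154249726551) (c (l 207936818103) (l 210621172855))) (l 253570845351)) (l 3)) (l 3))) (l 3))) (a (b (a (b (a (b (a (l 159081564935) (l 214379269159)) (l 256792070727)) (l 3)) (l 3)) (l 3)) (l 3)) (l 3))) (l 3)) (l 3)), by decide +kernel⟩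

def k16_mm_202 : ∃ t, chk3 f_mm_202 t 1004 268 1 = true :=
  ⟨(b (a (l 16775648) (l 16781824)) (b (a (l 16787224) (a (l 16779080) (a (b (l 16778032) (b (l 142975437799) (a (c (c (l 166597757831) (l 167134628791)) (l 168745241703)) (b (l 202568109255) (l 3))))) (b (a (l 16778288) (b (l 16778328) (c (c (l 164987145111) (l 166060886983)) (l 167671499959)))) (b (a (b (c (l 168745241479) (l 171966467063)) (l 222432332647)) (l 259476426567)) (l 3)))))) (a (b (l 16782752) (b (l 138680470775) (a (l 16777800) (a (l 16778312) (a (a (l 153712856023) (l 180019530919)) (c (l 225653558407) (l 227801042167))))))) (a (a (a (b (l 16778280) (b (a (l 180556401847) (l 213842398471)) (l 3))) (b (b (l 16778320) (b (l 16778512) (l 185388239719))) (l 272361330231))) (b (b (b (l 154249727143) (a (l 153175985079) (l 225116687143))) (a (a (l 213305527575) (l 255718329863)) (l 3))) (l 3))) (l 280951264231))))), by decide +kernel⟩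

def k17_mm_202 : ∃ t, chk3 f_mm_202 t 1005 268 1 = true :=
  ⟨(b (a (b (l 16780064) (a (a (l 16779264) (b (l 16778040) (b (l 141364825079) (a (c (c (l 163913403287) (l 164987145175)) (l 166597758071)) (b (l 199346883815) (l 3)))))) (a (b (a (l 16778296) (b (l 16778336) (c (l 163913403415) (l 165524016327)))) (b (a (b (c (l 164987145111) (l 167671499703)) (l 218137365511)) (l 253033974663)) (l 3))) (b (b (b (l 149417888887) (a (l 16778728) (l 215989881959))) (a (b (l 197736271095) (l 3)) (l 3))) (l 3))))) (b (b (b (a (l 16778088) (a (a (l 16778840) (b (l 162302790711) (c (l 211158043767) (l 214379269175)))) (c (c (l 258402683863) (l 259476425735)) (l 261623909447)))) (b (a (l 16779592) (a (a (c (l 191830690855) (l 194515045527)) (l 3)) (l 3))) (a (a (l 16778240) (c (l 159081565255) (l 160155307191))) (l 276656295143)))) (a (b (a (l 16778752) (a (b (c (l 161229048743) (l 163913403415)) (l 214379269287)) (l 248202136679))) (a (a (c (l 162839661671) (l 163913403527)) (b (c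 (l 193441303591) (l 196125658247)) (l 260550167991))) (l 3))) (l 3))) (a (a (a (c (b (l 263771393031) (l 3)) (l 274508813031)) (l 3)) (l 3)) (l 3)))) (b (b (a (a (a (b (b (l 152102243527) (a (l 149417888791) (l 219747978183))) (a (b (l 200957496535) (l 3)) (l 3))) (l 269676974519)) (l 3)) (l 3)) (l 3)) (l 3))), by decide +kernel⟩

def k18_mm_202 : ∃ t, chk3 f_mm_202 t 502 269 1 = true :=
  ⟨(a (b (b (a (a (a (b (l 16778008) (b (l 143512308839) (a (a (l 156934081463) (l 184314498199)) (l 229411654983)))) (a (b (l 16779576) (b (a (l 183777627287) (l 217063623895)) (l 3))) (b (b (l 16778312) (a (l 155323468743) (l 182703885479))) (l 3)))) (b (a (a (b (l 150491630535) (c (l 226727300215) (l 228874783975))) (b (a (l 181093272743) (l 215453011191)) (l 3))) (l 275582555815)) (l 3))) (l 3)) (l 3)) (l 3)) (l 3)), by decide +kernel⟩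

def k19_mm_202 : ∃ t, chk3 f_mm_202 t 503 134 1 = true :=
  ⟨(l 3), by decide +kernel⟩

def k20_mm_202 : ∃ t, chk3 f_mm_202 t 251 135 1 = true :=
  ⟨(l 3), by decide +kernel⟩

def k21_mm_202 : ∃ t, chk3 f_mm_202 t 63 33 1 = true :=
  ⟨(a (b (b (l 6) (b (b (l 6) (b (l 6) (l 3))) (l 3))) (l 3)) (l 3)), by decide +kernel⟩

def k22_mm_202 : ∃ t, chk3 f_mm_202 t 60 34 1 = true :=
  ⟨(b (l 17231896) (l 17143768)), by decide +kernel⟩

def k23_mm_202 : ∃ t, chk3 f_mm_202 t 122 34 1 = true :=
  ⟨(b (l 17028704) (a (l 16981280) (l 16874232))), by decide +kernel⟩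

def k24_mm_202 : ∃ t, chk3 f_mm_202 t 123 68 1 = true :=
  ⟨(a (l 16930656) (l 16806248)), by decide +kernel⟩

def k25_mm_202 : ∃ t, chk3 f_mm_202 t 246 69 1 = true :=
  ⟨(b (l 16873936) (a (l 16845128) (b (l 16824888) (a (l 16788576) (b (l 16799600) (a (l 16781256) (b (l 146196666647) (a (a (l 149417892375) (a (l 148344147927) (b (l 16782848) (l 150491629303)))) (a (b (l 151028502679) (a (b (l 159081565383) (l 3)) (l 3))) (b (b (l 154249727031) (l 3)) (l 3))))))))))), by decide +kernel⟩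

def k26_mm_202 : ∃ t, chk3 f_mm_202 t 247 138 1 = true :=
  ⟨(a (l 16806200) (b (l 16781424) (a (b (l 16798920) (a (l 16781064) (b (l 16781560) (b (c (a (l 16785776) (l 139217339079)) (l 138143596935)) (a (l 138143601895) (a (b (l 141364825111) (l 3)) (l 3))))))) (b (b (a (l 16790448) (a (l 16784888) (a (l 138143596871) (b (l 16781664) (b (l 146196661879) (l 173040206439)))))) (b (a (l 16786296) (a (l 138680467943) (a (b (l 155860337255) (l 3)) (l 3)))) (a (l 137606726103) (a (a (b (l 141901694679) (l 174650819095)) (l 3)) (l 3))))) (a (a (a (b (l 138143602231) (b (b (l 159081562711) (l 3)) (l 3))) (b (b (l 16779016) (b (l 142438565527) (l 3))) (l 3))) (b (b (a (l 139754209815) (b (l 156934078983) (l 3))) (l 3)) (l 3))) (l 3)))))), by decide +kernel⟩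

def k27_mm_202 : ∃ t, chk3 f_mm_202 t 247 139 1 = true :=
  ⟨(a (b (a (l 16780408) (b (a (l 16795496) (b (l 16790664) (c (a (l 16788496) (b (l 16785704) (l 138680472775))) (l 137606726295)))) (a (b (l 16781608) (a (a (l 16778688) (b (l 16783448) (l 145659790887))) (a (b (l 150491632519) (b (l 141901694967) (l 3))) (b (a (l 148344145991) (b (l 156934082231) (l 3))) (l 3))))) (b (a (b (l 147270406903) (a (l 145659791111) (b (l 141901695127) (l 3)))) (a (b (a (l 149417887879) (b (l 157470953383) (l 3))) (l 3)) (l 251423364983))) (l 3))))) (a (b (b (a (l 16790752) (a (l 16779640) (b (l 147807277559) (a (l 146196661719) (a (b (l 158007823943) (l 3)) (l 3)))))) (a (a (l 16786824) (a (l 16781264) (b (l 16783400) (l 146733532727)))) (a (a (b (l 150491632071) (a (b (l 158544694775) (l 3)) (l 3))) (b (a (l 148881016263) (b (l 158007823911) (l 3))) (l 3))) (l 3)))) (a (b (b (a (l 147807277095) (a (b (l 154249727191) (l 3)) (l 3))) (a (a (c (l 147807274711) (l 146196661527)) (a (b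 (l 158007823623) (l 3)) (l 3))) (l 3))) (l 3)) (l 3))) (b (a (a (a (b (b (a (l 149954758647) (b (l 157470953079) (l 3))) (l 3)) (l 3)) (l 3)) (l 3)) (l 3)) (l 3)))) (b (a (b (b (b (a (l 145122923367) (a (a (a (l 147807275607) (l 144049177351)) (b (l 162839659351) (l 3))) (l 3))) (a (a (l 16783496) (a (l 146733533559) (b (l 141364824695) (l 3)))) (l 3))) (a (a (a (b (l 149954761719) (b (l 141901695463) (l 3))) (b (b (l 151028502327) (l 147270402951)) (l 3))) (a (c (b (l 198810011063) (l 3)) (l 264845137511)) (l 3))) (l 3))) (l 3)) (l 3)) (l 3))), by decide +kernel⟩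

def k28_mm_202 : ∃ t, chk3 f_mm_202 t 60 35 1 = true :=
  ⟨(a (b (l 17108424) (l 17007336)) (b (l 16940496) (a (l 16873008) (b (l 16855672) (a (l 16822576) (b (l 16803176) (a (b (l 16813888) (l 16780880)) (b (a (l 16802056) (l 16783680)) (b (a (l 16793064) (a (l 158007829879) (a (l 161765923911) (b (l 171429602679) (l 3))))) (b (a (l 16782056) (a (a (l 173577086231) (l 198810019383)) (l 3))) (a (a (l 16787608) (a (l 167134635447) (l 175724568551))) (l 3)))))))))))), by decide +kernel⟩

def k29_mm_202 : ∃ t, chk3 f_mm_202 t 122 70 1 = true :=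
  ⟨(a (l 16802400) (b (l 16783032) (a (b (l 16804744) (a (l 16788392) (b (l 16778376) (a (l 147270409815) (a (b (l 16788192) (a (l 153175986775) (b (l 162302794903) (l 3)))) (a (b (l 155323474471) (a (b (l 164987147239) (l 3)) (l 3))) (b (l 152102244711) (l 3)))))))) (b (a (b (l 16807608) (a (l 16799456) (b (l 16794440) (l 16780480)))) (b (b (l 16784040) (b (l 146733538119) (a (l 16790944) (b (l 148344147303) (a (l 16784160) (a (l 164450276903) (l 3))))))) (a (a (b (l 16788400) (b (l 155860344343) (a (l 158544696551) (a (l 162839662295) (l 3))))) (b (l 148881019143) (a (b (l 159081565911) (l 3)) (l 3)))) (a (b (b (c (l 152102243703) (l 151028501559)) (a (a (l 161229049463) (l 3)) (l 3))) (l 3)) (l 3))))) (a (b (b (a (l 16779824) (a (l 149417889703) (b (a (l 161765924583) (l 160155307815)) (a (a (l 164450275127) (l 3)) (l 3))))) (b (a (l 151565376599) (a (a (l 161765920807) (l 3)) (l 3))) (a (a (l 155860345111) (a (l 161229051031) (a (l 166597759047) (l 3)))) (l 3)))) (b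 (a (a (b (a (l 161765924087) (l 162839662567)) (a (a (l 167671500823) (l 3)) (l 3))) (l 3)) (l 3)) (l 3))) (l 3)))))), by decide +kernel⟩

def k30_mm_202 : ∃ t, chk3 f_mm_202 t 244 71 1 = true :=
  ⟨(b (a (l 16786952) (b (a (l 16817096) (b (l 16807136) (a (l 16798952) (b (l 16793968) (l 152102248855))))) (a (b (l 16788312) (b (a (l 16793688) (a (l 16782472) (a (l 159618441575) (b (l 162302796647) (l 193441308967))))) (a (l 152102247719) (a (b (l 160692180759) (a (l 195588792567) (l 3))) (l 3))))) (a (b (b (l 16779344) (a (l 156397216215) (b (l 160155310679) (a (l 169282115031) (l 3))))) (a (a (b (b (l 168208374343) (l 3)) (l 3)) (l 3)) (l 3))) (b (b (b (a (l 157470958487) (a (l 167134632679) (c (l 205252468199) (l 194515048407)))) (a (a (l 166060892711) (l 167134631191)) (l 3))) (l 3)) (l 3)))))) (a (b (a (b (l 16806416) (a (l 16798288) (b (l 16793384) (b (l 16783640) (l 155860343639))))) (b (a (l 16784008) (b (l 16781704) (a (l 158007828503) (b (l 162839664727) (a (l 199346888855)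 (l 3)))))) (a (b (a (l 155323475095) (a (l 161765924807) (b (l 167134635271) (l 201494372471)))) (a (b (a (l 167671506087) (l 171429599623)) (l 3)) (l 3))) (a (a (b (b (l 169818986791) (l 3)) (l 3)) (l 3)) (l 3))))) (a (b (a (b (l 153712862727) (a (b (l 16781552) (l 163376536359)) (b (a (l 170355860775) (l 194515052167)) (l 3)))) (b (a (a (l 162302795511) (b (l 168745247975) (l 3))) (a (b (l 173577083543) (l 3)) (l 3))) (l 3))) (a (a (a (b (b (l 196662535767) (l 3)) (l 3)) (l 3)) (l 3)) (l 3))) (l 3))) (b (a (b (a (b (a (a (l 160692183191) (b (l 164450280407) (l 197736276167))) (a (b (l 167134631719) (l 3)) (l 3))) (l 3)) (l 3)) (l 3)) (l 3)) (l 3)))), by decide +kernel⟩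

def k31_mm_202 : ∃ t, chk3 f_mm_202 t 245 71 1 = true :=
  ⟨(b (a (b (a (b (a (l 16784584) (b (l 16779600) (a (l 154786603591) (a (l 154786599655) (b (l 164987149287) (l 3)))))) (a (a (b (l 16782720) (b (l 159081568887) (a (l 165524018279) (l 3)))) (b (b (l 16780240) (l 158007825351)) (a (a (b (l 168745243655) (l 3)) (l 3)) (l 3)))) (b (b (a (a (l 165524020103) (c (l 202031240231) (l 190220081159))) (l 3)) (l 3)) (l 3)))) (b (a (a (a (b (l 156934087319) (a (b (l 166060888679) (l 3)) (l 3))) (b (l 154249728663) (l 3))) (b (b (a (l 162839665719) (a (l 166060888999) (l 3))) (l 3)) (l 3))) (l 3)) (l 3))) (l 3)) (l 3)) (l 3)), by decide +kernel⟩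

def k32_mm_202 : ∃ t, chk3 f_mm_202 t 246 140 1 = true :=
  ⟨(a (b (a (l 16817728) (b (l 16807680) (l 16779960))) (a (b (l 16778688) (a (l 16781080) (b (l 146733536087) (b (a (l 154249731975) (a (l 154249727015) (b (l 160155306967) (l 3)))) (a (a (l 157470955399) (b (l 162302792391) (l 3))) (l 3)))))) (b (b (a (l 16790648) (a (l 148344149575) (b (l 148344146919) (a (b (l 160692179975) (l 160155306343)) (l 3))))) (b (a (l 16780872) (a (a (l 152102242887) (b (l 156397210215) (l 3))) (l 3))) (a (a (l 16785096) (a (l 156397213735) (b (l 161229050807) (l 3)))) (l 3)))) (b (a (b (a (l 148881017655) (a (b (l 158007823127) (l 3)) (l 3))) (a (a (b (l 161765921559) (l 3)) (l 3)) (l 3))) (l 3)) (l 3))))) (b (a (b (a (l 16795704) (a (l 16779248) (a (l 145659794647) (b (l 16787760) (c (b (l 16784176) (l 151565371447)) (l 139217340183)))))) (a (b (l 146196665799) (a (a (l 149954762359) (c (b (l 16784056) (l 153712855383)) (l 139217340503))) (b (a (l 152102244023) (a (l 155323468135)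 (l 3))) (l 3)))) (b (b (a (l 147270405255) (a (a (l 153712855239) (l 3)) (l 3))) (a (a (c (l 152639113495) (l 141901695015)) (l 3)) (l 3))) (l 3)))) (b (a (b (a (l 147807279271) (b (l 148344147879) (a (c (l 150491629479) (l 149417887383)) (a (b (l 159618436215) (l 3)) (l 3))))) (a (a (b (l 151565373431) (a (b (l 160155307047) (l 3)) (l 3))) (b (b (l 155323468695) (l 3)) (l 3))) (l 3))) (a (a (b (b (b (l 154786597863) (l 3)) (l 3)) (l 3)) (l 3)) (l 3))) (l 3))) (a (b (b (b (a (b (a (a (l 154786597319) (l 3)) (l 3)) (l 3)) (l 3)) (l 3)) (l 3)) (l 3)) (l 3)))), by decide +kernel⟩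

def k33_mm_202 : ∃ t, chk3 f_mm_202 t 246 141 1 = true :=
  ⟨(a (b (a (b (b (a (a (l 148344148583) (b (l 150491630727) (a (a (l 157470952647) (l 3)) (l 3)))) (b (b (a (a (l 161765919799) (l 3)) (l 3)) (l 3)) (l 3))) (b (a (a (a (l 155860339927) (l 3)) (l 3)) (l 3)) (l 3))) (l 3)) (l 3)) (l 3)) (l 3)), by decide +kernel⟩

def k34_mm_202 : ∃ t, chk3 f_mm_202 t 247 70 1 = true :=
  ⟨(l 3), by decide +kernel⟩

def k35_mm_202 : ∃ t, chk3 f_mm_202 t 123 71 1 = true :=
  ⟨(l 3), by decide +kernel⟩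

def k36_mm_202 : ∃ t, chk3 f_mm_202 t 248 68 1 = true :=
  ⟨(b (l 16785848) (a (b (l 16817984) (a (l 16806304) (b (l 16797224) (a (l 16790744) (a (l 137069855543) (b (l 16784632) (b (l 138143597655) (a (b (l 145659791799) (l 168208368791)) (a (l 197736269159) (l 3)))))))))) (b (a (l 16776864) (b (a (l 16792624) (l 16777864)) (a (a (l 137069855975) (b (l 16784272) (b (l 137606727143) (a (b (l 145659792455) (l 162839660087)) (b (l 181630142103) (l 3)))))) (a (a (b (l 16779280) (b (b (l 141364823527) (l 200420624183)) (l 3))) (b (a (l 137606727271) (b (l 16781112) (l 159081563831))) (l 3))) (b (a (b (l 138680469015) (b (l 180556400391) (l 3))) (b (b (l 139754210903) (l 199346882455)) (l 3))) (l 3)))))) (a (b (a (c (l 137606726343) (l 136532984695)) (a (b (l 16784472) (b (l 137606727047) (a (b (l 145659792103) (l 165524014439)) (a (l 196125656647) (l 3))))) (b (a (l 137606727511) (b (l 16781584) (b (l 145659792279) (l 164450272679)))) (b (a (b (l 145659790647) (l 202568107607))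 (l 3)) (l 3))))) (a (a (a (b (l 137606727815) (b (b (l 148344145095) (l 3)) (l 3))) (b (b (l 16781640) (b (l 145659791991) (l 166597756183))) (l 3))) (b (a (b (l 138143597767) (a (l 196662527447) (l 3))) (b (b (l 146733532423) (l 204178720231)) (l 3))) (l 3))) (l 3))) (a (a (b (b (b (a (l 138143597959) (b (l 144049177959) (l 201494365895))) (a (b (l 182703883831) (l 3)) (l 3))) (l 3)) (l 3)) (l 3)) (l 3)))))), by decide +kernel⟩

def k37_mm_202 : ∃ t, chk3 f_mm_202 t 498 136 1 = true :=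
  ⟨(b (l 16777464) (b (a (l 16793832) (a (l 16780208) (a (b (l 16783320) (b (l 137606727543) (a (l 148344146007) (b (c (l 170892724151) (l 173040207975)) (l 3))))) (b (c (b (l 16783424) (l 142975436679)) (l 141901695143)) (b (a (b (l 140291082311) (a (l 159081564215) (l 3))) (a (l 224579816359) (l 3))) (l 3)))))) (a (b (l 16788008) (b (l 136532985623) (a (l 16785760) (a (l 16781344) (a (c (l 148344145559) (l 149954758471)) (b (c (l 173577078567) (l 176261433271)) (l 3))))))) (a (a (b (c (b (l 16783568) (l 144586049287)) (l 143512307751)) (b (a (b (l 140827953015) (l 195051915431)) (l 240149074087)) (l 3))) (b (a (b (l 138143598391) (b (c (l 171966465911) (l 174650820631)) (l 3))) (b (b (l 140291082167) (c (l 190756947911) (l 193441302615))) (l 3))) (l 3))) (a (a (b (b (l 239075331015) (l 3)) (l 3)) (l 3)) (l 3)))))), by decide +kernel⟩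

def k38_mm_202 : ∃ t, chk3 f_mm_202 t 499 136 1 = true :=
  ⟨(b (b (a (l 16781168) (a (b (c (l 139217340631) (l 138680469831)) (a (a (l 141901695367) (b (l 16779536) (b (c (l 164450273431) (l 165524015479)) (l 225653557991)))) (b (a (b (l 139754211655) (a (l 154249726183) (l 203641850343))) (a (b (l 176798304759) (l 3)) (l 3))) (l 3)))) (b (b (b (a (l 138143598935) (a (a (l 174650821127) (l 227801041591)) (l 3))) (a (a (l 16779096) (a (l 151565371687) (l 201494366759))) (l 3))) (a (a (b (c (l 163376531799) (l 163913402807)) (l 224042945319)) (l 3)) (l 3))) (l 3)))) (a (a (b (l 16784064) (b (l 136532985911) (a (l 16780960) (a (l 146196662503) (b (c (l 167671498807) (l 170355853559)) (l 233169752423)))))) (b (a (c (l 140291082135) (l 140827953415)) (a (b (l 16779624) (b (c (l 166060886135) (l 167134628151)) (l 226727299751))) (b (b (l 139754211575) (a (l 152102242455) (l 205789333911))) (l 3)))) (a (b (a (b (l 139754211479) (a (l 154786597095) (l 207399946583))) (b (c (l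 205789333783) (l 208473688503)) (l 3))) (l 3)) (l 3)))) (a (a (a (a (b (b (b (l 178945788375) (l 3)) (l 3)) (l 3)) (l 3)) (l 3)) (l 3)) (l 3)))) (a (b (b (a (b (b (a (l 137069856903) (a (l 209547430327) (l 3))) (a (a (l 16778648) (a (l 156934080647) (l 209547430151))) (l 3))) (b (a (a (c (l 169282111495) (l 171966466231)) (l 3)) (l 3)) (l 269676975063))) (l 3)) (l 3)) (l 3)) (l 3))), by decide +kernel⟩

def k39_mm_202 : ∃ t, chk3 f_mm_202 t 249 137 1 = true :=
  ⟨(a (b (a (b (a (a (b (l 16784016) (b (l 137069856343) (a (c (l 151028500023) (l 152102241959)) (b (l 178945787767) (l 3))))) (a (b (l 16781768) (b (b (l 138680469255) (l 197736269815)) (l 3))) (b (c (b (l 16782688) (l 149417887335)) (l 146196662087)) (l 261087039815)))) (b (a (a (b (l 138680469271) (b (c (l 174650820295) (l 177335174983)) (l 3))) (b (b (l 138143598359) (l 196662528087)) (l 3))) (l 266992620167)) (l 3))) (l 3)) (l 3)) (l 3)) (l 3)), by decide +kernel⟩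

def k40_mm_202 : ∃ t, chk3 f_mm_202 t 124 69 1 = true :=
  ⟨(a (b (a (b (a (b (a (l 16794616) (b (l 16790064) (l 137606726215))) (a (b (l 16781400) (b (l 138143597463) (a (l 138680470151) (a (b (l 146196662103) (l 171966464711)) (l 3))))) (a (b (a (l 137606726119) (b (l 16781680) (b (l 146196662327) (l 170892722983)))) (b (a (b (l 153175982855) (l 3)) (l 3)) (l 3))) (b (b (a (l 138680468231) (b (l 151565370199) (l 3))) (l 279340652215)) (l 3))))) (b (a (a (b (l 16784752) (b (l 138143597479) (a (b (l 146196662455) (l 170355852231)) (l 233169753655)))) (a (b (l 138143598807) (b (b (l 150491628439) (l 3)) (l 3))) (b (b (l 16781672) (b (l 145659791671) (l 169282110503))) (l 3)))) (a (b (a (b (l 138680468471) (l 230485396567)) (b (b (l 148881015783) (l 3)) (l 3))) (l 3)) (l 3))) (l 3))) (a (b (b (b (a (a (a (l 139217339031) (b (l 154249724599) (l 3))) (l 3)) (l 3)) (l 3)) (l 3)) (l 3)) (l 3))) (l 3)) (l 3)) (l 3)), by decide +kernel⟩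

def k41_mm_202 : ∃ t, chk3 f_mm_202 t 125 34 1 = true :=
  ⟨(l 3), by decide +kernel⟩

def k42_mm_202 : ∃ t, chk3 f_mm_202 t 62 35 1 = true :=
  ⟨(l 3), by decide +kernel⟩

def k43_mm_202 : ∃ t, chk3 f_mm_202 t 63 17 1 = true :=
  ⟨(l 3), by decide +kernel⟩

def k44_mm_202 : ∃ t, chk3 f_mm_202 t 28 18 1 = true :=
  ⟨(b (l 17541416) (l 17345216)), by decide +kernel⟩

def k45_mm_202 : ∃ t, chk3 f_mm_202 t 58 18 1 = true :=
  ⟨(b (l 17249600) (a (l 17109616) (l 16883048))), by decide +kernel⟩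

def k46_mm_202 : ∃ t, chk3 f_mm_202 t 59 36 1 = true :=
  ⟨(a (l 17068944) (b (l 17026504) (a (l 16958680) (l 16859960)))), by decide +kernel⟩

def k47_mm_202 : ∃ t, chk3 f_mm_202 t 118 37 1 = true :=
  ⟨(b (l 16906824) (a (l 16824408) (b (l 16813824) (a (b (l 16837088) (l 16795120)) (b (a (l 16817120) (b (l 16808992) (l 16788048))) (a (b (l 16780464) (a (l 16783952) (b (l 168208381367) (l 224042959543)))) (b (a (b (l 16794088) (l 219747988407)) (b (l 217600512455) (l 3))) (l 229948535511)))))))), by decide +kernel⟩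

def k48_mm_202 : ∃ t, chk3 f_mm_202 t 119 37 1 = true :=
  ⟨(b (a (b (l 16889464) (a (l 16858664) (b (l 16842088) (l 16799208)))) (b (a (l 16847496) (b (l 16830360) (a (l 16815152) (a (l 16783552) (a (l 16788720) (b (l 16801168) (b (l 16792936) (l 169818991799)))))))) (a (b (a (l 16821208) (l 16786240)) (a (b (l 16804832) (a (l 16797504) (b (l 16793296) (l 209010578711)))) (b (a (l 16783944) (b (l 164450283831) (a (l 218674252423) (l 226190439175)))) (a (b (c (l 219747995223) (l 212231800055)) (l 3)) (l 3))))) (b (a (b (a (l 16802160) (l 16784656)) (a (a (l 16782560) (b (l 16792264) (l 214379285687))) (a (b (l 169282122535) (l 224042955943)) (b (l 214379282775) (l 3))))) (b (a (b (l 163913413879) (a (l 212231802615) (l 222432343655))) (a (b (l 212231799639) (l 3)) (l 3))) (l 3))) (a (a (a (b (b (l 215989894999) (l 3)) (l 3)) (l 3)) (l 3)) (l 3)))))) (a (b (a (b (l 16825984) (a (l 16790416) (b (l 16803136) (a (l 16785488) (b (l 16786640) (l 218674252727)))))) (b (a (b (l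 16810848) (l 16789664)) (b (a (l 16800552) (l 160155317943)) (a (b (l 16782104) (l 215453028439)) (b (l 219211121991) (l 3))))) (a (b (a (b (l 16795608) (l 166597768167)) (b (l 217600504503) (l 226727311063))) (a (b (l 222432346375) (l 3)) (l 3))) (l 251960245783)))) (a (b (a (b (a (l 16798936) (b (l 16794848) (l 217063645655))) (a (b (l 167671511527) (l 221358606119)) (l 205252472311))) (b (a (b (l 211158062775) (l 232096019303)) (l 3)) (l 3))) (l 3)) (l 3))) (a (a (a (b (b (b (b (l 214916151223) (l 223506086551)) (l 3)) (l 3)) (l 3)) (l 284709390423)) (l 3)) (l 3)))), by decide +kernel⟩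

def k49_mm_202 : ∃ t, chk3 f_mm_202 t 28 19 1 = true :=
  ⟨(a (b (l 17257520) (l 17096088)) (b (a (l 17124656) (l 17032608)) (a (b (l 17003896) (l 16927904)) (b (l 16850320) (a (b (l 16879360) (l 16800584)) (b (a (l 16845312) (b (l 16831664) (l 16792264))) (a (b (l 16817784) (a (l 16784392) (b (l 16788128) (l 229411677463)))) (b (a (b (l 16805288) (l 16785864)) (b (l 219748008919) (l 235317249447))) (a (l 210084314055) (l 3)))))))))), by decide +kernel⟩

def k50_mm_202 : ∃ t, chk3 f_mm_202 t 58 19 1 = true :=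
  ⟨(b (a (b (l 16979048) (a (l 16921496) (b (l 16893464) (l 16832928)))) (b (a (l 16905344) (b (l 16875672) (a (l 16847312) (b (l 16832152) (a (l 16818320) (l 16784704)))))) (a (b (a (l 16856872) (l 16811232)) (a (b (l 16827296) (a (l 16813984) (b (l 16806656) (l 16786624)))) (b (a (l 16787968) (b (l 16801512) (a (l 16784488) (l 225116708167)))) (a (b (a (l 16797544) (b (l 16793880) (l 231559159479))) (a (l 227264190359) (l 3))) (l 232096023559))))) (b (a (b (l 16796256) (a (b (l 16808664) (l 16788416)) (b (a (l 16799352) (l 162302799943)) (a (l 218137387783) (l 234780375415))))) (b (a (b (l 16803392) (a (l 16796696) (l 215989905623))) (b (a (l 16783544) (l 225116706023)) (l 213842407207))) (a (b (a (l 227264188327) (l 3)) (l 3)) (l 3)))) (a (b (a (b (a (l 224042962391) (l 229411670663)) (l 226190437959)) (l 3)) (l 3)) (l 3)))))) (a (b (a (b (l 16862792) (a (l 16836512) (b (l 16822512) (a (l 16809672) (b (l 16802632) (l 219211136983)))))) (b (a (l 16806304) (b (l 16791928)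 (a (b (l 16804648) (a (l 16798224) (l 226727327447))) (b (a (l 16785256) (l 220284871735)) (l 235854138599))))) (a (b (a (l 16783888) (b (l 16787280) (l 228874814647))) (a (b (l 221895486887) (l 244980942679)) (l 3))) (b (a (b (l 232096035703) (l 3)) (l 3)) (l 3))))) (a (b (a (b (a (l 16814368) (l 16781856)) (a (b (l 16800616) (l 222432358983)) (l 205252477959))) (b (a (b (l 227264197479) (l 232096026679)) (l 222432342887)) (l 3))) (l 267529524583)) (l 3))) (b (a (b (a (b (a (b (l 16789152) (a (l 16785408) (l 228874801671))) (b (a (l 218137389655) (l 233706635511)) (l 3))) (l 251960243367)) (l 3)) (l 3)) (l 3)) (l 3)))), by decide +kernel⟩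

def k51_mm_202 : ∃ t, chk3 f_mm_202 t 59 19 1 = true :=
  ⟨(b (a (b (a (b (a (l 16816248) (b (l 16800624) (a (l 16786608) (b (l 16789232) (a (b (l 16795368) (l 170355865271)) (b (l 221895482567) (l 232632892007))))))) (a (b (a (l 16813024) (b (l 16805264) (a (l 16798424) (b (l 16794552) (l 221895483831))))) (a (b (l 16787512) (a (b (l 16793744) (l 228874804279)) (l 229948549831))) (b (a (l 218137385543) (l 236927878007)) (l 3)))) (b (a (b (a (l 16785176) (b (l 16786560) (l 222969220455))) (a (b (l 219747997559) (l 3)) (l 3))) (l 240685956023)) (l 3)))) (a (b (b (a (b (l 16807136) (a (l 16800144) (l 163376544295))) (b (a (l 16797304) (b (l 16793320) (l 226190438023))) (a (b (l 219748000311) (l 227264183911)) (l 243907198135)))) (a (b (a (b (l 16782072) (l 220284867175)) (b (l 223506090039) (l 3))) (l 3)) (l 3))) (l 3)) (a (a (c (l 278266950727) (l 277730073847)) (l 3)) (l 3)))) (a (l 305647360295) (l 3))) (l 3)) (l 3)), by decide +kernel⟩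

def k52_mm_202 : ∃ t, chk3 f_mm_202 t 120 36 1 = true :=
  ⟨(b (a (l 16938824) (b (l 16903112) (a (l 16870056) (l 16818960)))) (a (b (l 16846296) (a (l 16793664) (b (a (l 16825224) (l 16789616)) (a (b (l 16808144) (a (l 16800504) (b (l 16796072) (l 161229057975)))) (b (a (l 16786752) (a (l 159081574919) (b (l 16790976) (l 208473702775)))) (a (a (b (l 16790672) (l 210621185943)) (b (l 208473695431) (l 3))) (a (b (l 217600504839) (l 3)) (l 3)))))))) (b (a (b (l 16834624) (a (l 16818808) (b (l 16809744) (a (l 16801952) (l 16784080))))) (b (a (l 16791232) (b (l 16782032) (a (l 16784696) (b (l 158007832007) (a (c (l 166597765575) (l 165524023287)) (a (l 206326216375) (l 219211115111))))))) (a (b (a (l 16798592) (a (l 16782536) (b (l 16792168) (l 206326215847)))) (a (b (l 159081573367) (a (l 207936828087) (a (l 211158053751) (l 3)))) (a (b (a (l 205789348183) (l 210084312135)) (l 3)) (l 3)))) (b (a (a (b (l 162839670087) (a (l 209010570519) (l 3))) (b (c (l 211694928167) (l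 202031244151)) (l 3))) (l 3)) (l 3))))) (a (b (a (b (l 16780624) (a (l 155323478855) (a (b (l 16791280) (l 206863090535)) (b (l 165524024023) (l 224579824343))))) (b (a (a (l 16781936) (b (l 16791576) (l 202568123735))) (a (b (l 163913411255) (c (l 225116696407) (l 219211114759))) (b (l 211694920855) (l 3)))) (a (a (b (l 213305538391) (l 3)) (l 3)) (l 3)))) (a (b (a (b (a (l 167134636711) (l 215453021607)) (l 3)) (l 3)) (l 3)) (l 3))) (l 3))))), by decide +kernel⟩

def k53_mm_202 : ∃ t, chk3 f_mm_202 t 242 72 1 = true :=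
  ⟨(b (a (l 16857320) (b (l 16838504) (a (l 16822208) (b (l 16812728) (l 16779840))))) (a (b (l 16800424) (a (b (l 16811288) (l 16789080)) (b (a (l 16799888) (b (l 16795216) (l 158544701847))) (a (b (l 16785912) (a (l 163376539943) (a (l 201494378999) (l 212768664839)))) (b (a (a (l 165524023463) (l 198810024647)) (a (l 212768665015) (l 3))) (l 3)))))) (b (a (b (l 16804344) (a (l 16785896) (b (l 16781200) (a (l 160692185111) (b (l 169282119831) (l 210084310119)))))) (b (a (b (l 16795784) (l 156397217895)) (a (b (l 16790040) (b (l 167134635959) (l 206863084983))) (b (a (l 161765927159) (l 168208377703)) (b (l 213842405351) (l 3))))) (a (b (a (a (l 162839668855) (l 200420632983)) (b (l 199883764727) (l 3))) (l 3)) (l 3)))) (a (b (a (a (b (l 16784296) (a (l 204178728727) (l 210084310631))) (b (a (l 164450281623) (l 203104987111)) (l 3))) (a (a (b (l 209010566359) (l 3)) (l 3)) (l 3))) (l 3)) (l 3))))), by decide +kernel⟩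

def k54_mm_202 : ∃ t, chk3 f_mm_202 t 243 72 1 = true :=
  ⟨(b (a (b (a (l 16815176) (b (l 16805552) (a (l 16797504) (a (l 16783816) (b (l 16790768) (b (l 162302797719) (l 197199404359))))))) (a (b (a (l 16801104) (b (l 16796336) (l 154786605815))) (a (a (l 153175992343) (b (l 16790288) (b (l 165524023319) (l 203104988951)))) (a (b (l 163376539479) (b (l 210621180167) (l 3))) (b (b (l 199883760231) (l 3)) (l 3))))) (b (a (a (b (l 16790536) (b (l 163376539447) (l 199883763815))) (b (l 161765926599) (b (l 207936825911) (l 3)))) (a (b (b (l 167671504583) (l 214916146295)) (l 3)) (l 3))) (l 3)))) (b (a (b (a (l 16783344) (b (l 155860346471) (a (b (l 161229055911) (l 194515050135)) (a (b (l 175724569879) (l 3)) (l 3))))) (a (a (b (l 160692184791) (a (b (l 177335182663) (l 3)) (l 3))) (b (b (l 170355860839) (a (l 199346891703) (l 3))) (l 3))) (l 3))) (b (b (a (a (b (l 167671506327) (a (l 175187697095) (l 3))) (l 3)) (l 3)) (l 3)) (l 3))) (l 3))) (a (b (a (b (a (a (b (b (l 196662539623)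 (l 3)) (l 3)) (l 3)) (l 3)) (l 3)) (l 3)) (l 3)) (l 3))), by decide +kernel⟩

def k55_mm_202 : ∃ t, chk3 f_mm_202 t 121 73 1 = true :=
  ⟨(a (b (a (b (a (b (a (a (l 16783128) (b (l 16792752) (l 164987152679))) (a (b (l 16783776) (a (l 204178733143) (l 216526760887))) (b (a (l 167671507303) (l 202568120615)) (l 3)))) (a (b (a (a (l 169282119895) (l 205252474759)) (a (l 217600502535) (l 3))) (l 3)) (l 3))) (b (a (a (a (b (l 215453019223) (l 3)) (l 3)) (l 3)) (l 3)) (l 3))) (l 3)) (l 3)) (l 3)) (l 3)), by decide +kernel⟩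

def k56_mm_202 : ∃ t, chk3 f_mm_202 t 60 37 1 = true :=
  ⟨(a (b (a (b (a (b (a (l 16787944) (b (l 16789648) (a (b (l 16795392) (l 162302799239)) (a (b (l 16784816) (l 214379281367)) (b (l 214379279623) (l 3)))))) (a (b (a (l 16785360) (b (l 16786272) (a (l 168208378983) (l 216526764535)))) (a (a (b (l 16784208) (l 218137376807)) (b (l 210084316519) (l 3))) (l 3))) (b (a (b (a (l 213842408183) (l 225116696407)) (l 3)) (l 3)) (l 3)))) (b (a (b (a (a (l 159618444919) (b (l 16790368) (l 212768669095))) (b (a (l 210084307623) (l 220821729895)) (l 3))) (a (a (b (l 222969213143) (l 3)) (l 3)) (l 3))) (l 3)) (l 3))) (l 3)) (l 3)) (l 3)) (l 3)), by decide +kernel⟩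

def k57_mm_202 : ∃ t, chk3 f_mm_202 t 61 18 1 = true :=
  ⟨(l 3), by decide +kernel⟩

def k58_mm_202 : ∃ t, chk3 f_mm_202 t 31 18 1 = true :=
  ⟨(l 3), by decide +kernel⟩

def k59_mm_202 : ∃ t, chk3 f_mm_202 t 15 19 1 = true :=
  ⟨(l 3), by decide +kernel⟩

def k60_mm_202 : ∃ t, chk3 f_mm_202 t 6 10 1 = true :=
  ⟨(a (b (l 17872384) (l 17654448)) (a (b (l 17426392) (b (l 17222512) (a (l 17167696) (l 17040944)))) (b (a (l 17241424) (a (l 17249728) (b (l 17072552) (b (l 16967216) (l 16857672))))) (a (b (a (l 17035136) (l 17000240)) (a (b (l 16938496) (a (l 16894264) (l 16814344))) (b (a (l 16881216) (b (l 16858608) (a (l 16836560) (l 16796320)))) (b (b (l 137606747351) (a (l 16825976) (l 199883776439))) (a (a (l 228338021591) (l 193441334695)) (l 249812783303)))))) (b (a (b (l 16913000) (a (l 16867744) (a (l 16796488) (b (l 16834848) (b (l 16810816) (l 226190462855)))))) (b (a (b (l 16870072) (l 16816496)) (b (a (l 16840112) (l 16799064)) (a (b (l 16815704) (l 223506116903))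 (b (l 225116764343) (l 222432343975))))) (b (a (a (b (l 16823160) (l 16786192)) (l 192904467735)) (l 246591558231)) (l 269140159927)))) (a (a (b (b (a (l 16829576) (b (l 16818080) (a (l 16807096) (l 268603297319)))) (a (l 189683247255) (l 215989913799))) (l 3)) (l 290615042551)) (l 3))))))), by decide +kernel⟩

def k61_mm_202 : ∃ t, chk3 f_mm_202 t 6 11 1 = true :=
  ⟨(a (a (b (l 17448752) (l 17310640)) (b (a (l 17257592) (l 17205592)) (a (b (l 17073840) (a (l 16986776) (l 16983200))) (b (a (l 16972352) (b (l 16933312) (l 16935400))) (a (b (l 16903008) (a (l 16798200) (b (l 16799656) (l 196662559927)))) (b (b (l 124184977623) (b (l 185388296215) (b (l 195588823607) (l 199883778551)))) (l 280951316327))))))) (b (a (a (b (l 17042312) (b (l 16991408) (a (l 16923800) (l 112910695815)))) (b (a (l 17015800) (b (l 16930136) (a (b (l 16860320) (l 16787352)) (b (l 227264343047) (l 193441333943))))) (a (a (b (l 16815616) (b (l 130627422311) (l 212768689431))) (b (b (l 16835736) (l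 183240810231)) (l 271287620055))) (a (l 275045803735) (l 321216624999))))) (a (b (a (b (a (b (l 16847280) (a (l 16825576) (b (l 16814456) (l 268066439991)))) (b (l 144049196119) (l 221358622759))) (l 278803878695)) (l 317458551767)) (l 3)) (l 3))) (a (a (b (b (a (a (l 16880144) (b (l 16859536) (l 16807984))) (a (b (l 16781344) (l 191293852567)) (l 244980963431))) (b (a (a (l 16834496) (l 186998895751)) (l 295446792583)) (l 279340770023))) (l 331417224535)) (l 3)) (l 3)))), by decide +kernel⟩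

def k62_mm_202 : ∃ t, chk3 f_mm_202 t 7 5 1 = true :=
  ⟨(b (a (a (b (a (b (a (l 16990176) (b (l 16941712) (a (l 16892040) (b (l 16867040) (a (l 16842968) (l 16800712)))))) (a (b (a (l 16906216) (l 16823064)) (a (b (l 16855624) (a (l 16832632) (b (l 16820560) (a (l 16809216) (l 16788736))))) (b (a (l 16803968) (b (l 16812680) (a (l 16790856) (l 227801067863)))) (a (b (a (l 16805280) (l 225116720743)) (l 206326219895)) (l 242296579511))))) (b (a (b (l 16819368) (a (b (l 16825408) (l 16787688)) (b (a (l 16809768) (l 232632911063)) (l 201494387975)))) (b (a (b (l 16817288) (a (l 16805640) (l 224042978951))) (b (a (l 16791008) (l 227264196535)) (l 225116698919))) (b (l 235854125927) (l 3)))) (l 289004407767)))) (b (a (b (a (l 16856000) (b (l 16850984) (a (l 16805432) (b (l 16792256) (a (l 16790768) (b (l 231559170359) (l 235317251335))))))) (a (b (a (l 16834832) (b (l 16821920) (a (l 16809976) (b (l 16803496) (l 16784592))))) (a (b (l 16787928) (l 193978202071)) (b (l 202568128855)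 (l 3)))) (b (a (b (a (l 16805632) (l 222969241575)) (l 210084317575)) (l 246054676247)) (l 3)))) (b (a (b (a (b (l 16826608) (a (l 16814320) (l 16782256))) (b (a (l 16809864) (b (l 16803160) (l 230485406903))) (a (b (l 16786144) (l 232096028759)) (l 218137376743)))) (a (b (a (b (l 16801088) (l 223506102391)) (l 203641867271)) (l 244980923239)) (l 3))) (l 277730094855)) (l 3))) (a (l 328195971383) (l 3)))) (a (b (a (b (a (a (b (b (l 16787104) (l 227264240823)) (l 253570858679)) (l 251423402327)) (l 3)) (l 3)) (l 3)) (l 3)) (l 3))) (l 3)) (l 3)) (l 3)), by decide +kernel⟩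

def k63_mm_202 : ∃ t, chk3 f_mm_202 t 1 3 1 = true :=
  ⟨(a (b (a (b (l 17885392) (a (l 17840600) (l 17469760))) (b (a (l 17565160) (b (l 17499464) (a (l 17186392) (a (l 17099376) (b (l 16982048) (a (l 16904176) (b (l 16874752) (a (l 16837952) (l 168745285863))))))))) (a (b (l 17276208) (a (l 17116512) (l 228808048359))) (b (a (b (l 17028880) (a (l 16976928) (a (l 16909632) (b (l 16886200) (l 16820176))))) (a (b (a (l 16908584) (l 134922439607)) (b (a (l 16796120) (l 221358644231)) (l 264845250519))) (b (a (b (l 135996148695) (l 232632945271)) (l 282561981815)) (l 3)))) (b (a (a (b (l 16909016) (l 16887696)) (a (b (l 16843528) (l 209010613383)) (l 258402790311))) (l 320142949591)) (a (a (a (l 269609943351) (b (l 214379322567) (l 273971988327))) (l 299741828375)) (l 3))))))) (a (l 2) (a (l 2) (a (l 2) (l 3))))) (b (a (b (a (b (a (a (b (l 17090264) (l 16976392)) (b (l 17029560) (b (l 16818648) (a (l 16899352) (b (l 186998915767) (l 217600533591)))))) (a (b (a (b (l 16898936)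 (l 118279407943)) (b (b (l 16889096) (l 138143619831)) (l 242296641159))) (b (l 275045819879) (l 3))) (b (l 313163647719) (l 3)))) (a (a (b (b (l 16977760) (a (l 16869824) (a (l 16805080) (l 197199441543)))) (a (b (b (l 16788864) (l 192904489959)) (l 263771436999)) (l 299204945095))) (b (a (b (a (l 130627427367) (l 200957524583)) (l 291688707479)) (l 320142897863)) (l 3))) (l 3))) (l 3)) (l 3)) (l 3)) (l 3))), by decide +kernel⟩

theorem s64_mm_202 : ∃ t, chk3 f_mm_202 t 6 5 1 = true := ex3_b k60_mm_202 k61_mm_202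

theorem s65_mm_202 : ∃ t, chk3 f_mm_202 t 3 5 1 = true := ex3_a s64_mm_202 k62_mm_202

theorem s66_mm_202 : ∃ t, chk3 f_mm_202 t 121 72 1 = true := ex3_a k53_mm_202 k54_mm_202

theorem s67_mm_202 : ∃ t, chk3 f_mm_202 t 121 36 1 = true := ex3_b s66_mm_202 k55_mm_202

theorem s68_mm_202 : ∃ t, chk3 f_mm_202 t 60 36 1 = true := ex3_a k52_mm_202 s67_mm_202

theorem s69_mm_202 : ∃ t, chk3 f_mm_202 t 60 18 1 = true := ex3_b s68_mm_202 k56_mm_202

theorem s70_mm_202 : ∃ t, chk3 f_mm_202 t 30 18 1 = true := ex3_a s69_mm_202 k57_mm_202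

theorem s71_mm_202 : ∃ t, chk3 f_mm_202 t 15 18 1 = true := ex3_a s70_mm_202 k58_mm_202

theorem s72_mm_202 : ∃ t, chk3 f_mm_202 t 15 9 1 = true := ex3_b s71_mm_202 k59_mm_202

theorem s73_mm_202 : ∃ t, chk3 f_mm_202 t 29 19 1 = true := ex3_a k50_mm_202 k51_mm_202

theorem s74_mm_202 : ∃ t, chk3 f_mm_202 t 14 19 1 = true := ex3_a k49_mm_202 s73_mm_202

theorem s75_mm_202 : ∃ t, chk3 f_mm_202 t 59 37 1 = true := ex3_a k47_mm_202 k48_mm_202

theorem s76_mm_202 : ∃ t, chk3 f_mm_202 t 59 18 1 = true := ex3_b k46_mm_202 s75_mm_202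

theorem s77_mm_202 : ∃ t, chk3 f_mm_202 t 29 18 1 = true := ex3_a k45_mm_202 s76_mm_202

theorem s78_mm_202 : ∃ t, chk3 f_mm_202 t 14 18 1 = true := ex3_a k44_mm_202 s77_mm_202

theorem s79_mm_202 : ∃ t, chk3 f_mm_202 t 14 9 1 = true := ex3_b s78_mm_202 s74_mm_202

theorem s80_mm_202 : ∃ t, chk3 f_mm_202 t 7 9 1 = true := ex3_a s79_mm_202 s72_mm_202

theorem s81_mm_202 : ∃ t, chk3 f_mm_202 t 249 136 1 = true := ex3_a k37_mm_202 k38_mm_202

theorem s82_mm_202 : ∃ t, chk3 f_mm_202 t 249 68 1 = true := ex3_b s81_mm_202 k39_mm_202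

theorem s83_mm_202 : ∃ t, chk3 f_mm_202 t 124 68 1 = true := ex3_a k36_mm_202 s82_mm_202

theorem s84_mm_202 : ∃ t, chk3 f_mm_202 t 124 34 1 = true := ex3_b s83_mm_202 k40_mm_202

theorem s85_mm_202 : ∃ t, chk3 f_mm_202 t 62 34 1 = true := ex3_a s84_mm_202 k41_mm_202

theorem s86_mm_202 : ∃ t, chk3 f_mm_202 t 62 17 1 = true := ex3_b s85_mm_202 k42_mm_202

theorem s87_mm_202 : ∃ t, chk3 f_mm_202 t 31 17 1 = true := ex3_a s86_mm_202 k43_mm_202

theorem s88_mm_202 : ∃ t, chk3 f_mm_202 t 246 70 1 = true := ex3_b k32_mm_202 k33_mm_202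

theorem s89_mm_202 : ∃ t, chk3 f_mm_202 t 123 70 1 = true := ex3_a s88_mm_202 k34_mm_202

theorem s90_mm_202 : ∃ t, chk3 f_mm_202 t 123 35 1 = true := ex3_b s89_mm_202 k35_mm_202

theorem s91_mm_202 : ∃ t, chk3 f_mm_202 t 122 71 1 = true := ex3_a k30_mm_202 k31_mm_202

theorem s92_mm_202 : ∃ t, chk3 f_mm_202 t 122 35 1 = true := ex3_b k29_mm_202 s91_mm_202

theorem s93_mm_202 : ∃ t, chk3 f_mm_202 t 61 35 1 = true := ex3_a s92_mm_202 s90_mm_202

theorem s94_mm_202 : ∃ t, chk3 f_mm_202 t 30 35 1 = true := ex3_a k28_mm_202 s93_mm_202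

theorem s95_mm_202 : ∃ t, chk3 f_mm_202 t 247 69 1 = true := ex3_b k26_mm_202 k27_mm_202

theorem s96_mm_202 : ∃ t, chk3 f_mm_202 t 123 69 1 = true := ex3_a k25_mm_202 s95_mm_202

theorem s97_mm_202 : ∃ t, chk3 f_mm_202 t 123 34 1 = true := ex3_b k24_mm_202 s96_mm_202

theorem s98_mm_202 : ∃ t, chk3 f_mm_202 t 61 34 1 = true := ex3_a k23_mm_202 s97_mm_202

theorem s99_mm_202 : ∃ t, chk3 f_mm_202 t 30 34 1 = true := ex3_a k22_mm_202 s98_mm_202

theorem s100_mm_202 : ∃ t, chk3 f_mm_202 t 30 17 1 = true := ex3_b s99_mm_202 s94_mm_202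

theorem s101_mm_202 : ∃ t, chk3 f_mm_202 t 15 17 1 = true := ex3_a s100_mm_202 s87_mm_202

theorem s102_mm_202 : ∃ t, chk3 f_mm_202 t 502 268 1 = true := ex3_a k16_mm_202 k17_mm_202

theorem s103_mm_202 : ∃ t, chk3 f_mm_202 t 502 134 1 = true := ex3_b s102_mm_202 k18_mm_202

theorem s104_mm_202 : ∃ t, chk3 f_mm_202 t 251 134 1 = true := ex3_a s103_mm_202 k19_mm_202

theorem s105_mm_202 : ∃ t, chk3 f_mm_202 t 251 67 1 = true := ex3_b s104_mm_202 k20_mm_202

theorem s106_mm_202 : ∃ t, chk3 f_mm_202 t 250 135 1 = true := ex3_a k14_mm_202 k15_mm_202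

theorem s107_mm_202 : ∃ t, chk3 f_mm_202 t 250 67 1 = true := ex3_b k13_mm_202 s106_mm_202

theorem s108_mm_202 : ∃ t, chk3 f_mm_202 t 125 67 1 = true := ex3_a s107_mm_202 s105_mm_202

theorem s109_mm_202 : ∃ t, chk3 f_mm_202 t 62 67 1 = true := ex3_a k12_mm_202 s108_mm_202

theorem s110_mm_202 : ∃ t, chk3 f_mm_202 t 503 267 1 = true := ex3_a k10_mm_202 k11_mm_202

theorem s111_mm_202 : ∃ t, chk3 f_mm_202 t 503 133 1 = true := ex3_b k9_mm_202 s110_mm_202

theorem s112_mm_202 : ∃ t, chk3 f_mm_202 t 251 133 1 = true := ex3_a k8_mm_202 s111_mm_202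

theorem s113_mm_202 : ∃ t, chk3 f_mm_202 t 251 66 1 = true := ex3_b k7_mm_202 s112_mm_202

theorem s114_mm_202 : ∃ t, chk3 f_mm_202 t 125 66 1 = true := ex3_a k6_mm_202 s113_mm_202

theorem s115_mm_202 : ∃ t, chk3 f_mm_202 t 62 66 1 = true := ex3_a k5_mm_202 s114_mm_202

theorem s116_mm_202 : ∃ t, chk3 f_mm_202 t 62 33 1 = true := ex3_b s115_mm_202 s109_mm_202

theorem s117_mm_202 : ∃ t, chk3 f_mm_202 t 31 33 1 = true := ex3_a s116_mm_202 k21_mm_202

theorem s118_mm_202 : ∃ t, chk3 f_mm_202 t 31 16 1 = true := ex3_b k4_mm_202 s117_mm_202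

theorem s119_mm_202 : ∃ t, chk3 f_mm_202 t 15 16 1 = true := ex3_a k3_mm_202 s118_mm_202

theorem s120_mm_202 : ∃ t, chk3 f_mm_202 t 15 8 1 = true := ex3_b s119_mm_202 s101_mm_202

theorem s121_mm_202 : ∃ t, chk3 f_mm_202 t 7 8 1 = true := ex3_a k2_mm_202 s120_mm_202

theorem s122_mm_202 : ∃ t, chk3 f_mm_202 t 7 4 1 = true := ex3_b s121_mm_202 s80_mm_202

theorem s123_mm_202 : ∃ t, chk3 f_mm_202 t 3 4 1 = true := ex3_a k1_mm_202 s122_mm_202

theorem s124_mm_202 : ∃ t, chk3 f_mm_202 t 3 2 1 = true := ex3_b s123_mm_202 s65_mm_202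

theorem s125_mm_202 : ∃ t, chk3 f_mm_202 t 1 2 1 = true := ex3_a k0_mm_202 s124_mm_202

theorem s126_mm_202 : ∃ t, chk3 f_mm_202 t 1 1 1 = true := ex3_b s125_mm_202 k63_mm_202

theorem c_mm_202 : CertN 0 536870912 1073741824 536870912 33554432 16777216 3 false false false .pp 2 0 2
    ndN0q2 ndN4q2 pcN0 cut_mm_202 Ext.none :=
  certNK1 (fam := false) (s1 := false) (s2 := false) (a := 2) (b := 0) (c := 2) (cn := .pp) (n1 := ndN0q2) (n2 := ndN4q2) (pc := pcN0) (cut := cut_mm_202) (xt := Ext.none) (P1 := 0) (W1 := 536870912) (P2 := 1073741824) (W2 := 536870912) (P3 := 33554432) (W3 := 16777216) (N0 := 3)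
    rfl rfl rfl (fun _ => rfl) s126_mm_202

noncomputable def f_mm_203 : ℕ → ℕ → ℕ → ℕ → Bool := onCell 0 536870912 0 1230186008 33554432 16777216
    (rowNK 3 0 false false false .up 2 0 3 (qsf 0 536870912 0 1230186008 0) ndN0q2 ndN4q3 pcN0 Cut.none Ext.none)

def k0_mm_203 : ∃ t, chk3 f_mm_203 t 1 1 1 = true :=
  ⟨(b (l 2) (b (l 2) (a (b (a (b (l 2) (b (l 2) (a (l 285179669399) (a (b (b (l 5448803574327) (a (l 198810090103) (l 303499895671))) (a (l 16863400) (a (b (l 228337980231) (l 16819960)) (l 280414464871)))) (l 3))))) (l 3)) (b (a (a (l 17226784) (b (a (a (l 16956848) (b (l 16825680) (l 16907584))) (a (b (l 269140217943) (b (l 200957561063) (l 16847048))) (b (l 3) (l 284172601783)))) (a (l 17043520) (a (l 16920312) (a (l 16846336) (b (a (l 201494413639) (l 240686021591)) (l 16861032))))))) (a (b (l 3) (a (a (b (l 292762523207) (a (l 16809976) (b (l 274508865927) (l 265919006503)))) (l 304573748167)) (l 3))) (l 3))) (a (a (l 17610472) (b (l 17115824) (l 17308712)))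 (a (b (a (a (l 16904736) (b (b (a (l 227801109543) (l 290614968119)) (l 219748052471)) (l 16843000))) (a (b (l 304036760423) (b (l 272361407159) (a (l 16825336) (l 249275927351)))) (l 3))) (a (l 17029880) (a (a (l 16904240) (b (l 16820288) (l 16926296))) (b (a (b (l 257865876087) (l 177872088039)) (l 285783170199)) (a (l 16880944) (b (a (l 16825136) (l 218674265783)) (l 16856584))))))) (b (l 3) (a (a (b (l 3) (a (b (l 277193214007) (a (l 16820872) (l 220821751607))) (l 293836241783))) (l 3)) (l 3))))))) (l 3)))), by decide +kernel⟩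

theorem c_mm_203 : CertN 0 536870912 0 1230186008 33554432 16777216 3 false false false .up 2 0 3
    ndN0q2 ndN4q3 pcN0 Cut.none Ext.none :=
  certNK0 (fam := false) (s1 := false) (s2 := false) (a := 2) (b := 0) (c := 3) (cn := .up) (n1 := ndN0q2) (n2 := ndN4q3) (pc := pcN0) (cut := Cut.none) (xt := Ext.none) (P1 := 0) (W1 := 536870912) (P2 := 0) (W2 := 1230186008) (P3 := 33554432) (W3 := 16777216) (N0 := 3)
    rfl rfl rfl k0_mm_203

noncomputable def f_mm_213 : ℕ → ℕ → ℕ → ℕ → Bool := onCell 0 536870912 0 1230186008 33554432 16777216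
    (rowNK 3 0 false false false .pnn 2 1 3 (qsf 0 536870912 0 1230186008 1) ndN0q2 ndN4q3 pcN1 Cut.none Ext.none)

def k0_mm_213 : ∃ t, chk3 f_mm_213 t 1 1 1 = true :=
  ⟨(b (a (l 3) (b (l 5) (l 3))) (b (a (b (l 3) (a (l 3) (l 3))) (l 3)) (a (b (a (b (a (a (b (a (a (b (b (l 273971962535) (l 240685978775)) (l 16808936)) (l 263234639143)) (l 295983715671)) (a (l 16846232) (b (a (b (l 227264214119) (l 16817960)) (l 249812820871)) (l 16814760)))) (b (l 3) (a (l 273435203543) (l 3)))) (l 3)) (b (a (a (l 16933984) (a (a (l 16861168) (l 262161083975)) (b (l 265918964935) (a (l 16827480) (l 224579948455))))) (a (a (l 290615061367) (l 3)) (l 3))) (b (a (l 16976992) (a (a (a (b (l 267529611511) (l 16828736)) (l 236391093127)) (l 287393743335)) (l 3))) (l 1)))) (l 3)) (b (a (l 1) (a (l 1) (l 3))) (l 1))) (l 3)))), by decide +kernel⟩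

theorem c_mm_213 : CertN 0 536870912 0 1230186008 33554432 16777216 3 false false false .pnn 2 1 3
    ndN0q2 ndN4q3 pcN1 Cut.none Ext.none :=
  certNK0 (fam := false) (s1 := false) (s2 := false) (a := 2) (b := 1) (c := 3) (cn := .pnn) (n1 := ndN0q2) (n2 := ndN4q3) (pc := pcN1) (cut := Cut.none) (xt := Ext.none) (P1 := 0) (W1 := 536870912) (P2 := 0) (W2 := 1230186008) (P3 := 33554432) (W3 := 16777216) (N0 := 3)
    rfl rfl rfl k0_mm_213

end Pool.Agent.Strip051.G.I1_32_3_64.Tab.C.NB04

namespace Pool.Agent.Strip051.G.I1_32_3_64.Tab.C.NB10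

open Pool.Agent.Strip051.PB Pool.Agent.Strip051.PB.T
open Pool.Agent.Strip051.G.I1_32_3_64.Tab

noncomputable def f_pp_001 : ℕ → ℕ → ℕ → ℕ → Bool := onCell 0 536870912 0 536870912 33554432 16777216
    (rowNK 3 1 false true true .up 0 0 1 (qsf 0 536870912 536870912 536870912 0) ndN1q0 ndN0q1 pcN0 Cut.none Ext.none)

def k0_pp_001 : ∃ t, chk3 f_pp_001 t 1 1 1 = true :=
  ⟨(l 3), by decide +kernel⟩

theorem c_pp_001 : CertN 0 536870912 536870912 536870912 33554432 16777216 3 false true true .up 0 0 1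
    ndN1q0 ndN0q1 pcN0 Cut.none Ext.none :=
  certNK1 (fam := false) (s1 := true) (s2 := true) (a := 0) (b := 0) (c := 1) (cn := .up) (n1 := ndN1q0) (n2 := ndN0q1) (pc := pcN0) (cut := Cut.none) (xt := Ext.none) (P1 := 0) (W1 := 536870912) (P2 := 536870912) (W2 := 536870912) (P3 := 33554432) (W3 := 16777216) (N0 := 3)
    rfl rfl rfl (fun _ => rfl) k0_pp_001

noncomputable def cut_pp_011 : Cut := Cut.of [[⟨0, 0, 0, 33554432⟩, ⟨1, 1, 0, 33554432⟩, ⟨2, 1, 0, 33554432⟩]]

noncomputable def f_pp_011 : ℕ → ℕ → ℕ → ℕ → Bool := onCell 0 536870912 536870912 536870912 33554432 16777216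
    (rowNK 3 0 false true true .pnn 0 1 1 (qsf 0 536870912 536870912 536870912 1) ndN1q0 ndN0q1 pcN1 cut_pp_011 Ext.none)

def k0_pp_011 : ∃ t, chk3 f_pp_011 t 1 1 1 = true :=
  ⟨(a (b (l 3) (b (l 3) (a (b (l 3) (a (b (l 3) (b (l 3) (a (b (l 3) (a (l 6) (l 3))) (l 3)))) (l 3))) (l 3)))) (l 3)), by decide +kernel⟩

theorem c_pp_011 : CertN 0 536870912 536870912 536870912 33554432 16777216 3 false true true .pnn 0 1 1
    ndN1q0 ndN0q1 pcN1 cut_pp_011 Ext.none :=
  certNK0 (fam := false) (s1 := true) (s2 := true) (a := 0) (b := 1) (c := 1) (cn := .pnn) (n1 := ndN1q0) (n2 := ndN0q1) (pc := pcN1) (cut := cut_pp_011) (xt := Ext.none) (P1 := 0) (W1 := 536870912) (P2 := 536870912) (W2 := 536870912) (P3 := 33554432) (W3 := 16777216) (N0 := 3)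
    rfl rfl rfl k0_pp_011

noncomputable def cut_pp_012 : Cut := Cut.of [[⟨0, 0, 0, 33554432⟩, ⟨1, 1, 0, 33554432⟩, ⟨2, 1, 0, 33554432⟩]]

noncomputable def f_pp_012 : ℕ → ℕ → ℕ → ℕ → Bool := onCell 536870912 536870912 0 536870912 33554432 16777216
    (rowNK 3 2 false true true .pnp 0 1 2 (qsf 0 536870912 0 536870912 1) ndN1q0 ndN0q2 pcN1 cut_pp_012 Ext.none)

def k0_pp_012 : ∃ t, chk3 f_pp_012 t 1 1 1 = true :=
  ⟨(a (b (a (b (l 2) (a (l 2) (l 17391320))) (b (l 17329192) (a (l 17281200) (l 17250024)))) (a (b (a (l 2) (l 144588057191)) (l 3)) (a (b (l 17853040) (l 3)) (b (l 17577576) (l 152104170823))))) (b (a (b (l 17758664) (a (l 17235552) (l 17511392))) (a (b (l 18315192) (l 17957208)) (b (a (l 18716352) (a (l 18961816) (a (l 19096136) (l 19187344)))) (l 18630640)))) (a (b (a (l 17545008) (b (l 17274008) (l 17309808))) (a (b (l 17711744) (l 3)) (b (l 17537472) (l 147808597527)))) (b (a (b (l 17545696) (l 17133248)) (b (a (l 17986288) (l 18322856)) (a (l 17571248) (a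 (l 17836800) (l 17997840))))) (a (b (a (l 17142136) (l 17016504)) (a (l 142439375095) (l 141365340215))) (b (a (l 17078368) (a (l 17322456) (a (l 17403024) (a (l 17403904) (l 17367544))))) (b (a (l 16919800) (a (l 16879168) (b (a (l 16898120) (l 16812216)) (b (l 16815680) (l 16811760))))) (a (l 143512664167) (b (a (l 16847848) (a (l 16817128) (l 6))) (a (l 144049399239) (l 6))))))))))), by decide +kernel⟩

theorem c_pp_012 : CertN 0 536870912 0 536870912 33554432 16777216 3 false true true .pnp 0 1 2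
    ndN1q0 ndN0q2 pcN1 cut_pp_012 Ext.none :=
  certNK2 (fam := false) (s1 := true) (s2 := true) (a := 0) (b := 1) (c := 2) (cn := .pnp) (n1 := ndN1q0) (n2 := ndN0q2) (pc := pcN1) (cut := cut_pp_012) (xt := Ext.none) (P1 := 0) (W1 := 536870912) (P2 := 0) (W2 := 536870912) (P3 := 33554432) (W3 := 16777216) (N0 := 3)
    rfl rfl rfl (fun _ => rfl) k0_pp_012

noncomputable def cut_pp_022 : Cut := Cut.of [[⟨0, 0, 0, 33554432⟩, ⟨1, 1, 0, 33554432⟩, ⟨2, 1, 0, 33554432⟩]]

noncomputable def f_pp_022 : ℕ → ℕ → ℕ → ℕ → Bool := onCell 0 536870912 0 536870912 33554432 16777216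
    (rowNK 3 0 false true true .pp 0 2 2 (qsf 0 536870912 0 536870912 2) ndN1q0 ndN0q2 pcN2 cut_pp_022 Ext.none)

def k0_pp_022 : ∃ t, chk3 f_pp_022 t 1 1 1 = true :=
  ⟨(a (b (a (b (l 19508168) (a (l 19316352) (b (l 19286768) (a (l 19120144) (b (l 19097584) (a (l 18976872) (a (l 18933744) (l 18908200)))))))) (a (a (b (b (l 19581736) (a (l 19396384) (l 19379776))) (b (a (a (l 19219008) (l 19204152)) (l 19192984)) (l 18958760))) (b (l 19471304) (l 1))) (l 1))) (a (b (b (a (l 19027728) (a (l 18796960) (b (a (b (l 18842480) (a (l 18755744) (l 18715592))) (l 18735472)) (l 18546456)))) (a (a (b (l 18856848) (l 18573176)) (l 18479760)) (a (b (a (l 18464936) (b (a (l 18458072) (l 18403424)) (l 18276184))) (a (a (l 18134360) (l 18076928)) (l 18038416))) (l 18163360)))) (a (b (a (b (a (a (b (l 18363208) (l 18023792)) (l 18150912)) (l 18042152)) (b (a (a (b (l 17603848) (c (l 17845784) (l 16976536))) (l 17591960)) (l 17499696)) (a (a (a (b (c (l 17595080) (l 16884912)) (l 16783208))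 (l 17046992)) (l 17023928)) (l 16978496)))) (b (a (l 17896544) (b (l 17890920) (a (l 17635416) (l 17578400)))) (a (b (l 17376104) (a (b (l 17062888) (l 16796904)) (l 16909008))) (b (l 17290680) (l 16893048))))) (a (b (b (a (a (a (b (l 16728752) (l 16738480)) (l 16734208)) (l 16739384)) (a (l 16746896) (l 16755000))) (a (l 6) (a (l 6) (l 181495874199)))) (a (l 6) (a (l 6) (l 1)))) (b (b (a (b (l 16764064) (l 16770352)) (l 1)) (l 1)) (l 1)))) (b (a (b (l 17676304) (l 1)) (l 1)) (l 1)))) (b (l 1) (l 1)))) (l 1)), by decide +kernel⟩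

theorem c_pp_022 : CertN 0 536870912 0 536870912 33554432 16777216 3 false true true .pp 0 2 2
    ndN1q0 ndN0q2 pcN2 cut_pp_022 Ext.none :=
  certNK0 (fam := false) (s1 := true) (s2 := true) (a := 0) (b := 2) (c := 2) (cn := .pp) (n1 := ndN1q0) (n2 := ndN0q2) (pc := pcN2) (cut := cut_pp_022) (xt := Ext.none) (P1 := 0) (W1 := 536870912) (P2 := 0) (W2 := 536870912) (P3 := 33554432) (W3 := 16777216) (N0 := 3)
    rfl rfl rfl k0_pp_022

noncomputable def f_pp_101 : ℕ → ℕ → ℕ → ℕ → Bool := onCell 536870912 536870912 536870912 536870912 33554432 16777216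
    (rowNK 3 0 false true true .npn 1 0 1 (qsf 536870912 536870912 536870912 536870912 0) ndN1q1 ndN0q1 pcN0 Cut.none Ext.none)

def k0_pp_101 : ∃ t, chk3 f_pp_101 t 1 1 1 = true :=
  ⟨(l 3), by decide +kernel⟩

theorem c_pp_101 : CertN 536870912 536870912 536870912 536870912 33554432 16777216 3 false true true .npn 1 0 1
    ndN1q1 ndN0q1 pcN0 Cut.none Ext.none :=
  certNK0 (fam := false) (s1 := true) (s2 := true) (a := 1) (b := 0) (c := 1) (cn := .npn) (n1 := ndN1q1) (n2 := ndN0q1) (pc := pcN0) (cut := Cut.none) (xt := Ext.none) (P1 := 536870912) (W1 := 536870912) (P2 := 536870912) (W2 := 536870912) (P3 := 33554432) (W3 := 16777216) (N0 := 3)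
    rfl rfl rfl k0_pp_101

noncomputable def f_pp_102 : ℕ → ℕ → ℕ → ℕ → Bool := onCell 0 536870912 0 536870912 33554432 16777216
    (rowNK 3 2 false true true .npp 1 0 2 (qsf 536870912 536870912 0 536870912 0) ndN1q1 ndN0q2 pcN0 Cut.none Ext.none)

def k0_pp_102 : ∃ t, chk3 f_pp_102 t 1 1 1 = true :=
  ⟨(a (b (b (a (l 2) (a (a (l 163380926295) (l 149422145879)) (b (l 18521824) (l 147274050551)))) (l 3)) (l 3)) (b (a (b (a (l 18414664) (l 18020872)) (a (b (l 153179357207) (l 3)) (l 146736180343))) (b (l 17936624) (a (l 18223176) (l 17869592)))) (a (l 3) (l 3)))), by decide +kernel⟩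

theorem c_pp_102 : CertN 536870912 536870912 0 536870912 33554432 16777216 3 false true true .npp 1 0 2
    ndN1q1 ndN0q2 pcN0 Cut.none Ext.none :=
  certNK2 (fam := false) (s1 := true) (s2 := true) (a := 1) (b := 0) (c := 2) (cn := .npp) (n1 := ndN1q1) (n2 := ndN0q2) (pc := pcN0) (cut := Cut.none) (xt := Ext.none) (P1 := 536870912) (W1 := 536870912) (P2 := 0) (W2 := 536870912) (P3 := 33554432) (W3 := 16777216) (N0 := 3)
    rfl rfl rfl (fun _ => rfl) k0_pp_102

noncomputable def f_pp_112 : ℕ → ℕ → ℕ → ℕ → Bool := onCell 536870912 536870912 0 536870912 33554432 16777216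
    (rowNK 3 2 false true true .dn 1 1 2 (qsf 536870912 536870912 0 536870912 1) ndN1q1 ndN0q2 pcN1 Cut.none Ext.none)

def k0_pp_112 : ∃ t, chk3 f_pp_112 t 1 1 1 = true :=
  ⟨(a (b (a (b (l 18290584) (a (l 18062312) (l 18132016))) (b (l 18340152) (l 18184304))) (a (b (b (l 86070135047) (l 3)) (l 3)) (b (l 1) (l 1)))) (l 1)), by decide +kernel⟩

theorem c_pp_112 : CertN 536870912 536870912 0 536870912 33554432 16777216 3 false true true .dn 1 1 2
    ndN1q1 ndN0q2 pcN1 Cut.none Ext.none :=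
  certNK2 (fam := false) (s1 := true) (s2 := true) (a := 1) (b := 1) (c := 2) (cn := .dn) (n1 := ndN1q1) (n2 := ndN0q2) (pc := pcN1) (cut := Cut.none) (xt := Ext.none) (P1 := 536870912) (W1 := 536870912) (P2 := 0) (W2 := 536870912) (P3 := 33554432) (W3 := 16777216) (N0 := 3)
    rfl rfl rfl (fun _ => rfl) k0_pp_112

noncomputable def f_pp_202_a : ℕ → ℕ → ℕ → ℕ → Bool := onCell 0 536870912 0 536870912 33554432 16777216
    (rowNK 3 0 false true true .pp 2 0 2 (qsf 0 536870912 0 536870912 0) ndN1q2a ndN0q2 pcN0 Cut.none Ext.none)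

def k0_pp_202_a : ∃ t, chk3 f_pp_202_a t 1 1 1 = true :=
  ⟨(l 3), by decide +kernel⟩

theorem c_pp_202_a : CertN 0 536870912 0 536870912 33554432 16777216 3 false true true .pp 2 0 2
    ndN1q2a ndN0q2 pcN0 Cut.none Ext.none :=
  certNK0 (fam := false) (s1 := true) (s2 := true) (a := 2) (b := 0) (c := 2) (cn := .pp) (n1 := ndN1q2a) (n2 := ndN0q2) (pc := pcN0) (cut := Cut.none) (xt := Ext.none) (P1 := 0) (W1 := 536870912) (P2 := 0) (W2 := 536870912) (P3 := 33554432) (W3 := 16777216) (N0 := 3)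
    rfl rfl rfl k0_pp_202_a

noncomputable def f_pp_202_b : ℕ → ℕ → ℕ → ℕ → Bool := onCell 1239849684 370763052 0 536870912 33554432 16777216
    (rowNK 3 0 false true true .pp 2 0 2 (qsf 1239849684 370763052 0 536870912 0) ndN1q2b ndN0q2 pcN0 Cut.none Ext.none)

def k0_pp_202_b : ∃ t, chk3 f_pp_202_b t 1 1 1 = true :=
  ⟨(l 3), by decide +kernel⟩

theorem c_pp_202_b : CertN 1239849684 370763052 0 536870912 33554432 16777216 3 false true true .pp 2 0 2
    ndN1q2b ndN0q2 pcN0 Cut.none Ext.none :=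
  certNK0 (fam := false) (s1 := true) (s2 := true) (a := 2) (b := 0) (c := 2) (cn := .pp) (n1 := ndN1q2b) (n2 := ndN0q2) (pc := pcN0) (cut := Cut.none) (xt := Ext.none) (P1 := 1239849684) (W1 := 370763052) (P2 := 0) (W2 := 536870912) (P3 := 33554432) (W3 := 16777216) (N0 := 3)
    rfl rfl rfl k0_pp_202_b

noncomputable def f_pm_001 : ℕ → ℕ → ℕ → ℕ → Bool := onCell 0 536870912 0 536870912 33554432 16777216
    (rowNK 3 1 false true false .up 0 0 1 (qsf 0 536870912 536870912 536870912 0) ndN1q0 ndN0q1 pcN0 Cut.none Ext.none)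

def k0_pm_001 : ∃ t, chk3 f_pm_001 t 1 1 1 = true :=
  ⟨(a (l 4) (b (l 4) (b (l 4) (a (l 4) (b (l 4) (a (l 4) (b (l 4) (a (l 4) (l 63587291511))))))))), by decide +kernel⟩

theorem c_pm_001 : CertN 0 536870912 536870912 536870912 33554432 16777216 3 false true false .up 0 0 1
    ndN1q0 ndN0q1 pcN0 Cut.none Ext.none :=
  certNK1 (fam := false) (s1 := true) (s2 := false) (a := 0) (b := 0) (c := 1) (cn := .up) (n1 := ndN1q0) (n2 := ndN0q1) (pc := pcN0) (cut := Cut.none) (xt := Ext.none) (P1 := 0) (W1 := 536870912) (P2 := 536870912) (W2 := 536870912) (P3 := 33554432) (W3 := 16777216) (N0 := 3)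
    rfl rfl rfl (fun _ => rfl) k0_pm_001

noncomputable def cut_pm_011 : Cut := Cut.of [[⟨0, 0, 0, 33554432⟩, ⟨1, 1, 0, 33554432⟩, ⟨2, 1, 0, 33554432⟩]]

noncomputable def f_pm_011 : ℕ → ℕ → ℕ → ℕ → Bool := onCell 0 536870912 536870912 536870912 33554432 16777216
    (rowNK 3 0 false true false .pnn 0 1 1 (qsf 0 536870912 536870912 536870912 1) ndN1q0 ndN0q1 pcN1 cut_pm_011 Ext.none)

def k0_pm_011 : ∃ t, chk3 f_pm_011 t 1 1 1 = true :=
  ⟨(b (l 4) (b (l 4) (b (l 4) (b (a (l 4) (l 4)) (a (a (a (a (b (l 4) (a (b (l 4) (l 6)) (l 4))) (l 4)) (l 4)) (l 4)) (a (l 17934688) (a (l 17405000) (l 17330672)))))))), by decide +kernel⟩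

theorem c_pm_011 : CertN 0 536870912 536870912 536870912 33554432 16777216 3 false true false .pnn 0 1 1
    ndN1q0 ndN0q1 pcN1 cut_pm_011 Ext.none :=
  certNK0 (fam := false) (s1 := true) (s2 := false) (a := 0) (b := 1) (c := 1) (cn := .pnn) (n1 := ndN1q0) (n2 := ndN0q1) (pc := pcN1) (cut := cut_pm_011) (xt := Ext.none) (P1 := 0) (W1 := 536870912) (P2 := 536870912) (W2 := 536870912) (P3 := 33554432) (W3 := 16777216) (N0 := 3)
    rfl rfl rfl k0_pm_011

noncomputable def cut_pm_012 : Cut := Cut.of [[⟨0, 0, 0, 33554432⟩, ⟨1, 1, 0, 33554432⟩, ⟨2, 1, 0, 33554432⟩]]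

noncomputable def f_pm_012 : ℕ → ℕ → ℕ → ℕ → Bool := onCell 536870912 536870912 0 536870912 33554432 16777216
    (rowNK 3 2 false true false .pnp 0 1 2 (qsf 0 536870912 0 536870912 1) ndN1q0 ndN0q2 pcN1 cut_pm_012 Ext.none)

def k0_pm_012 : ∃ t, chk3 f_pm_012 t 1 1 1 = true :=
  ⟨(a (b (a (b (l 2) (l 17776720)) (l 17819848)) (b (l 18334368) (a (l 18161112) (a (l 18225624) (l 18355856))))) (b (a (l 18248712) (a (l 18897000) (a (l 19205720) (a (l 19466488) (a (l 19604096) (l 19665360)))))) (a (b (l 18700880) (a (l 18596840) (b (l 18776728) (l 18428464)))) (a (b (l 19126792) (b (l 18967648) (b (l 18578240) (l 128550361719)))) (a (b (l 19453968) (b (l 19052384) (a (b (l 18456824) (l 17783336)) (b (l 18258648) (b (l 17597208) (l 17059424)))))) (a (b (l 19639976) (b (l 18946632) (b (b (l 18050640) (l 17457952)) (b (l 16807784) (b (l 16785704) (l 16784280)))))) (a (b (l 19726280) (b (l 18753184) (b (l 16891048) (b (l 16764112) (l 6))))) (b (l 19748064) (b (b (l 18928608) (l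 17921936)) (b (b (l 16707568) (l 16736008)) (l 6))))))))))), by decide +kernel⟩

theorem c_pm_012 : CertN 0 536870912 0 536870912 33554432 16777216 3 false true false .pnp 0 1 2
    ndN1q0 ndN0q2 pcN1 cut_pm_012 Ext.none :=
  certNK2 (fam := false) (s1 := true) (s2 := false) (a := 0) (b := 1) (c := 2) (cn := .pnp) (n1 := ndN1q0) (n2 := ndN0q2) (pc := pcN1) (cut := cut_pm_012) (xt := Ext.none) (P1 := 0) (W1 := 536870912) (P2 := 0) (W2 := 536870912) (P3 := 33554432) (W3 := 16777216) (N0 := 3)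
    rfl rfl rfl (fun _ => rfl) k0_pm_012

noncomputable def cut_pm_022 : Cut := Cut.of [[⟨0, 0, 0, 33554432⟩, ⟨1, 1, 0, 33554432⟩, ⟨2, 1, 0, 33554432⟩]]

noncomputable def f_pm_022 : ℕ → ℕ → ℕ → ℕ → Bool := onCell 0 536870912 0 536870912 33554432 16777216
    (rowNK 3 0 false true false .pp 0 2 2 (qsf 0 536870912 0 536870912 2) ndN1q0 ndN0q2 pcN2 cut_pm_022 Ext.none)

def k0_pm_022 : ∃ t, chk3 f_pm_022 t 1 1 1 = true :=
  ⟨(a (b (b (a (l 19667792) (l 19878608)) (a (a (l 19613448) (l 19886512)) (l 20022520))) (a (b (b (a (l 19467008) (l 19876264)) (a (a (b (l 19121904) (a (l 18780392) (l 18929712))) (l 19290440)) (a (l 19540304) (l 19663192)))) (a (a (b (a (b (a (b (l 18430728) (l 17900672)) (l 18361136)) (a (b (a (c (l 18018648) (b (l 17509760) (l 17107168))) (l 17722000)) (a (b (c (l 17544944) (l 16767760)) (l 16735968)) (l 17081920))) (b (l 17759280) (l 17087720)))) (b (l 18470368) (b (l 17837544) (l 17104616)))) (a (b (b (a (a (a (b (l 16737200) (l 16747184)) (l 16736344))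 (l 16731656)) (l 16722520)) (l 6)) (l 6)) (b (b (a (l 16710952) (l 16700112)) (a (l 6) (l 16701336))) (a (l 6) (l 1))))) (b (b (a (l 18619864) (l 18761992)) (a (b (l 17947800) (l 17129104)) (b (l 18019952) (l 17126816)))) (b (a (b (l 16664352) (l 1)) (l 1)) (l 1)))) (b (a (b (l 18843544) (l 1)) (l 1)) (l 1)))) (b (l 1) (l 1)))) (l 1)), by decide +kernel⟩

theorem c_pm_022 : CertN 0 536870912 0 536870912 33554432 16777216 3 false true false .pp 0 2 2
    ndN1q0 ndN0q2 pcN2 cut_pm_022 Ext.none :=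
  certNK0 (fam := false) (s1 := true) (s2 := false) (a := 0) (b := 2) (c := 2) (cn := .pp) (n1 := ndN1q0) (n2 := ndN0q2) (pc := pcN2) (cut := cut_pm_022) (xt := Ext.none) (P1 := 0) (W1 := 536870912) (P2 := 0) (W2 := 536870912) (P3 := 33554432) (W3 := 16777216) (N0 := 3)
    rfl rfl rfl k0_pm_022

noncomputable def f_pm_101 : ℕ → ℕ → ℕ → ℕ → Bool := onCell 0 536870912 536870912 536870912 33554432 16777216
    (rowNK 3 2 false true false .npn 1 0 1 (qsf 536870912 536870912 536870912 536870912 0) ndN1q1 ndN0q1 pcN0 Cut.none Ext.none)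

def k0_pm_101 : ∃ t, chk3 f_pm_101 t 1 1 1 = true :=
  ⟨(b (l 4) (a (b (a (b (l 4) (a (l 18693760) (l 4))) (l 4)) (a (b (a (l 19095648) (l 19019680)) (c (l 19876480) (l 19107048))) (b (a (l 18970632) (l 19010384)) (b (l 19224664) (l 19418488))))) (b (l 4) (a (b (a (l 19030928) (l 4)) (b (l 19264776) (l 19233080))) (b (l 4) (b (a (l 18970216) (l 4)) (a (l 19105984) (l 19085656)))))))), by decide +kernel⟩

theorem c_pm_101 : CertN 536870912 536870912 536870912 536870912 33554432 16777216 3 false true false .npn 1 0 1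
    ndN1q1 ndN0q1 pcN0 Cut.none Ext.none :=
  certNK2 (fam := false) (s1 := true) (s2 := false) (a := 1) (b := 0) (c := 1) (cn := .npn) (n1 := ndN1q1) (n2 := ndN0q1) (pc := pcN0) (cut := Cut.none) (xt := Ext.none) (P1 := 536870912) (W1 := 536870912) (P2 := 536870912) (W2 := 536870912) (P3 := 33554432) (W3 := 16777216) (N0 := 3)
    rfl rfl rfl (fun _ => rfl) k0_pm_101

noncomputable def f_pm_102 : ℕ → ℕ → ℕ → ℕ → Bool := onCell 536870912 536870912 0 536870912 33554432 16777216
    (rowNK 3 0 false true false .npp 1 0 2 (qsf 536870912 536870912 0 536870912 0) ndN1q1 ndN0q2 pcN0 Cut.none Ext.none)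

def k0_pm_102 : ∃ t, chk3 f_pm_102 t 1 1 1 = true :=
  ⟨(a (b (a (b (l 2) (l 16964896)) (b (l 17408232) (b (l 17253568) (a (l 17071240) (l 17224008))))) (b (a (a (l 2) (b (b (l 16928544) (l 17026672)) (c (l 18299072) (l 17507784)))) (b (a (b (l 16981432) (l 17228080)) (b (l 17192752) (l 17417416))) (c (b (l 18314504) (l 19046040)) (a (l 17617560) (l 17717064))))) (a (b (b (a (l 18592432) (l 18811536)) (l 18955192)) (a (l 19014256) (l 19070384))) (b (b (c (l 19613808) (l 18236632)) (l 19340904)) (c (l 19648224) (l 18821568)))))) (b (a (b (a (l 17680152) (l 17938080)) (b (l 17664464) (a (l 17426704) (l 17690416)))) (b (a (l 18277080) (a (l 18641464) (l 18946640))) (a (b (l 18203968) (l 18026096)) (a (l 18502432) (l 18958960))))) (c (a (b (b (a (l 17627696) (l 17928936)) (b (l 18750104) (l 19455600))) (b (a (l 19951528) (l 20143504)) (l 20018112))) (b (b (a (l 18264048) (b (l 18145544) (l 18468864))) (a (l 19345032) (l 19510880))) (b (a (l 20311048) (b (l 20392864) (l 20574272)))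 (l 20362568)))) (a (b (b (l 17604824) (c (l 18157552) (l 17537520))) (b (b (l 18597872) (l 18620632)) (l 18900912))) (b (b (a (l 17819992) (l 18198600)) (a (l 18060184) (c (l 18354832) (l 18007536)))) (b (b (a (l 18482240) (l 18641168)) (l 18754752)) (a (l 18941320) (l 18962784)))))))), by decide +kernel⟩

theorem c_pm_102 : CertN 536870912 536870912 0 536870912 33554432 16777216 3 false true false .npp 1 0 2
    ndN1q1 ndN0q2 pcN0 Cut.none Ext.none :=
  certNK0 (fam := false) (s1 := true) (s2 := false) (a := 1) (b := 0) (c := 2) (cn := .npp) (n1 := ndN1q1) (n2 := ndN0q2) (pc := pcN0) (cut := Cut.none) (xt := Ext.none) (P1 := 536870912) (W1 := 536870912) (P2 := 0) (W2 := 536870912) (P3 := 33554432) (W3 := 16777216) (N0 := 3)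
    rfl rfl rfl k0_pm_102

noncomputable def f_pm_112 : ℕ → ℕ → ℕ → ℕ → Bool := onCell 536870912 536870912 0 536870912 33554432 16777216
    (rowNK 3 2 false true false .dn 1 1 2 (qsf 536870912 536870912 0 536870912 1) ndN1q1 ndN0q2 pcN1 Cut.none Ext.none)

def k0_pm_112 : ∃ t, chk3 f_pm_112 t 1 1 1 = true :=
  ⟨(a (b (a (b (l 18525976) (l 18878872)) (l 18704040)) (b (l 19330448) (a (l 19617080) (l 1)))) (l 1)), by decide +kernel⟩

theorem c_pm_112 : CertN 536870912 536870912 0 536870912 33554432 16777216 3 false true false .dn 1 1 2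
    ndN1q1 ndN0q2 pcN1 Cut.none Ext.none :=
  certNK2 (fam := false) (s1 := true) (s2 := false) (a := 1) (b := 1) (c := 2) (cn := .dn) (n1 := ndN1q1) (n2 := ndN0q2) (pc := pcN1) (cut := Cut.none) (xt := Ext.none) (P1 := 536870912) (W1 := 536870912) (P2 := 0) (W2 := 536870912) (P3 := 33554432) (W3 := 16777216) (N0 := 3)
    rfl rfl rfl (fun _ => rfl) k0_pm_112

noncomputable def cut_pm_202_a : Cut := Cut.of [[⟨0, 1, 0, 33554432⟩, ⟨1, 0, 0, 33554432⟩, ⟨2, 1, 0, 33554432⟩]]

noncomputable def f_pm_202_a : ℕ → ℕ → ℕ → ℕ → Bool := onCell 0 536870912 0 536870912 33554432 16777216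
    (rowNK 3 0 false true false .pp 2 0 2 (qsf 0 536870912 0 536870912 0) ndN1q2a ndN0q2 pcN0 cut_pm_202_a Ext.none)

def k0_pm_202_a : ∃ t, chk3 f_pm_202_a t 1 1 1 = true :=
  ⟨(a (l 3) (b (l 3) (b (l 3) (b (l 3) (a (l 1) (a (l 3) (a (l 3) (b (l 3) (l 6))))))))), by decide +kernel⟩

theorem c_pm_202_a : CertN 0 536870912 0 536870912 33554432 16777216 3 false true false .pp 2 0 2
    ndN1q2a ndN0q2 pcN0 cut_pm_202_a Ext.none :=
  certNK0 (fam := false) (s1 := true) (s2 := false) (a := 2) (b := 0) (c := 2) (cn := .pp) (n1 := ndN1q2a) (n2 := ndN0q2) (pc := pcN0) (cut := cut_pm_202_a) (xt := Ext.none) (P1 := 0) (W1 := 536870912) (P2 := 0) (W2 := 536870912) (P3 := 33554432) (W3 := 16777216) (N0 := 3)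
    rfl rfl rfl k0_pm_202_a

noncomputable def cut_pm_202_b : Cut := Cut.of [[⟨0, 1, 0, 33554432⟩, ⟨1, 0, 0, 33554432⟩, ⟨2, 1, 0, 33554432⟩]]

noncomputable def f_pm_202_b : ℕ → ℕ → ℕ → ℕ → Bool := onCell 1239849684 370763052 0 536870912 33554432 16777216
    (rowNK 3 0 false true false .pp 2 0 2 (qsf 1239849684 370763052 0 536870912 0) ndN1q2b ndN0q2 pcN0 cut_pm_202_b Ext.none)

def k0_pm_202_b : ∃ t, chk3 f_pm_202_b t 1 1 1 = true :=
  ⟨(l 3), by decide +kernel⟩

theorem c_pm_202_b : CertN 1239849684 370763052 0 536870912 33554432 16777216 3 false true false .pp 2 0 2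
    ndN1q2b ndN0q2 pcN0 cut_pm_202_b Ext.none :=
  certNK0 (fam := false) (s1 := true) (s2 := false) (a := 2) (b := 0) (c := 2) (cn := .pp) (n1 := ndN1q2b) (n2 := ndN0q2) (pc := pcN0) (cut := cut_pm_202_b) (xt := Ext.none) (P1 := 1239849684) (W1 := 370763052) (P2 := 0) (W2 := 536870912) (P3 := 33554432) (W3 := 16777216) (N0 := 3)
    rfl rfl rfl k0_pm_202_b

noncomputable def f_mm_001 : ℕ → ℕ → ℕ → ℕ → Bool := onCell 0 536870912 536870912 536870912 33554432 16777216
    (rowNK 3 0 false false false .up 0 0 1 (qsf 0 536870912 536870912 536870912 0) ndN1q0 ndN0q1 pcN0 Cut.none Ext.none)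

def k0_mm_001 : ∃ t, chk3 f_mm_001 t 1 1 1 = true :=
  ⟨(l 5), by decide +kernel⟩

theorem c_mm_001 : CertN 0 536870912 536870912 536870912 33554432 16777216 3 false false false .up 0 0 1
    ndN1q0 ndN0q1 pcN0 Cut.none Ext.none :=
  certNK0 (fam := false) (s1 := false) (s2 := false) (a := 0) (b := 0) (c := 1) (cn := .up) (n1 := ndN1q0) (n2 := ndN0q1) (pc := pcN0) (cut := Cut.none) (xt := Ext.none) (P1 := 0) (W1 := 536870912) (P2 := 536870912) (W2 := 536870912) (P3 := 33554432) (W3 := 16777216) (N0 := 3)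
    rfl rfl rfl k0_mm_001

noncomputable def f_mm_011 : ℕ → ℕ → ℕ → ℕ → Bool := onCell 0 536870912 536870912 536870912 33554432 16777216
    (rowNK 3 0 false false false .pnn 0 1 1 (qsf 0 536870912 536870912 536870912 1) ndN1q0 ndN0q1 pcN1 Cut.none Ext.none)

def k0_mm_011 : ∃ t, chk3 f_mm_011 t 1 1 1 = true :=
  ⟨(l 5), by decide +kernel⟩

theorem c_mm_011 : CertN 0 536870912 536870912 536870912 33554432 16777216 3 false false false .pnn 0 1 1
    ndN1q0 ndN0q1 pcN1 Cut.none Ext.none :=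
  certNK0 (fam := false) (s1 := false) (s2 := false) (a := 0) (b := 1) (c := 1) (cn := .pnn) (n1 := ndN1q0) (n2 := ndN0q1) (pc := pcN1) (cut := Cut.none) (xt := Ext.none) (P1 := 0) (W1 := 536870912) (P2 := 536870912) (W2 := 536870912) (P3 := 33554432) (W3 := 16777216) (N0 := 3)
    rfl rfl rfl k0_mm_011

noncomputable def f_mm_012 : ℕ → ℕ → ℕ → ℕ → Bool := onCell 0 536870912 0 536870912 33554432 16777216
    (rowNK 3 0 false false false .pnp 0 1 2 (qsf 0 536870912 0 536870912 1) ndN1q0 ndN0q2 pcN1 Cut.none Ext.none)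

def k0_mm_012 : ∃ t, chk3 f_mm_012 t 1 1 1 = true :=
  ⟨(l 5), by decide +kernel⟩

theorem c_mm_012 : CertN 0 536870912 0 536870912 33554432 16777216 3 false false false .pnp 0 1 2
    ndN1q0 ndN0q2 pcN1 Cut.none Ext.none :=
  certNK0 (fam := false) (s1 := false) (s2 := false) (a := 0) (b := 1) (c := 2) (cn := .pnp) (n1 := ndN1q0) (n2 := ndN0q2) (pc := pcN1) (cut := Cut.none) (xt := Ext.none) (P1 := 0) (W1 := 536870912) (P2 := 0) (W2 := 536870912) (P3 := 33554432) (W3 := 16777216) (N0 := 3)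
    rfl rfl rfl k0_mm_012

noncomputable def f_mm_022 : ℕ → ℕ → ℕ → ℕ → Bool := onCell 0 536870912 0 536870912 33554432 16777216
    (rowNK 3 0 false false false .pp 0 2 2 (qsf 0 536870912 0 536870912 2) ndN1q0 ndN0q2 pcN2 Cut.none Ext.none)

def k0_mm_022 : ∃ t, chk3 f_mm_022 t 1 1 1 = true :=
  ⟨(l 5), by decide +kernel⟩

theorem c_mm_022 : CertN 0 536870912 0 536870912 33554432 16777216 3 false false false .pp 0 2 2
    ndN1q0 ndN0q2 pcN2 Cut.none Ext.none :=
  certNK0 (fam := false) (s1 := false) (s2 := false) (a := 0) (b := 2) (c := 2) (cn := .pp) (n1 := ndN1q0) (n2 := ndN0q2) (pc := pcN2) (cut := Cut.none) (xt := Ext.none) (P1 := 0) (W1 := 536870912) (P2 := 0) (W2 := 536870912) (P3 := 33554432) (W3 := 16777216) (N0 := 3)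
    rfl rfl rfl k0_mm_022

noncomputable def f_mm_101 : ℕ → ℕ → ℕ → ℕ → Bool := onCell 536870912 536870912 536870912 536870912 33554432 16777216
    (rowNK 3 0 false false false .npn 1 0 1 (qsf 536870912 536870912 536870912 536870912 0) ndN1q1 ndN0q1 pcN0 Cut.none Ext.none)

def k0_mm_101 : ∃ t, chk3 f_mm_101 t 1 1 1 = true :=
  ⟨(l 3), by decide +kernel⟩

theorem c_mm_101 : CertN 536870912 536870912 536870912 536870912 33554432 16777216 3 false false false .npn 1 0 1
    ndN1q1 ndN0q1 pcN0 Cut.none Ext.none :=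
  certNK0 (fam := false) (s1 := false) (s2 := false) (a := 1) (b := 0) (c := 1) (cn := .npn) (n1 := ndN1q1) (n2 := ndN0q1) (pc := pcN0) (cut := Cut.none) (xt := Ext.none) (P1 := 536870912) (W1 := 536870912) (P2 := 536870912) (W2 := 536870912) (P3 := 33554432) (W3 := 16777216) (N0 := 3)
    rfl rfl rfl k0_mm_101

noncomputable def f_mm_102 : ℕ → ℕ → ℕ → ℕ → Bool := onCell 536870912 536870912 0 536870912 33554432 16777216
    (rowNK 3 0 false false false .npp 1 0 2 (qsf 536870912 536870912 0 536870912 0) ndN1q1 ndN0q2 pcN0 Cut.none Ext.none)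

def k0_mm_102 : ∃ t, chk3 f_mm_102 t 1 1 1 = true :=
  ⟨(l 5), by decide +kernel⟩

theorem c_mm_102 : CertN 536870912 536870912 0 536870912 33554432 16777216 3 false false false .npp 1 0 2
    ndN1q1 ndN0q2 pcN0 Cut.none Ext.none :=
  certNK0 (fam := false) (s1 := false) (s2 := false) (a := 1) (b := 0) (c := 2) (cn := .npp) (n1 := ndN1q1) (n2 := ndN0q2) (pc := pcN0) (cut := Cut.none) (xt := Ext.none) (P1 := 536870912) (W1 := 536870912) (P2 := 0) (W2 := 536870912) (P3 := 33554432) (W3 := 16777216) (N0 := 3)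
    rfl rfl rfl k0_mm_102

noncomputable def f_mm_112 : ℕ → ℕ → ℕ → ℕ → Bool := onCell 536870912 536870912 0 536870912 33554432 16777216
    (rowNK 3 0 false false false .dn 1 1 2 (qsf 536870912 536870912 0 536870912 1) ndN1q1 ndN0q2 pcN1 Cut.none Ext.none)

def k0_mm_112 : ∃ t, chk3 f_mm_112 t 1 1 1 = true :=
  ⟨(l 5), by decide +kernel⟩

theorem c_mm_112 : CertN 536870912 536870912 0 536870912 33554432 16777216 3 false false false .dn 1 1 2
    ndN1q1 ndN0q2 pcN1 Cut.none Ext.none :=
  certNK0 (fam := false) (s1 := false) (s2 := false) (a := 1) (b := 1) (c := 2) (cn := .dn) (n1 := ndN1q1) (n2 := ndN0q2) (pc := pcN1) (cut := Cut.none) (xt := Ext.none) (P1 := 536870912) (W1 := 536870912) (P2 := 0) (W2 := 536870912) (P3 := 33554432) (W3 := 16777216) (N0 := 3)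
    rfl rfl rfl k0_mm_112

noncomputable def f_mm_202_a : ℕ → ℕ → ℕ → ℕ → Bool := onCell 0 536870912 0 536870912 33554432 16777216
    (rowNK 3 0 false false false .pp 2 0 2 (qsf 0 536870912 0 536870912 0) ndN1q2a ndN0q2 pcN0 Cut.none Ext.none)

def k0_mm_202_a : ∃ t, chk3 f_mm_202_a t 1 1 1 = true :=
  ⟨(l 3), by decide +kernel⟩

theorem c_mm_202_a : CertN 0 536870912 0 536870912 33554432 16777216 3 false false false .pp 2 0 2
    ndN1q2a ndN0q2 pcN0 Cut.none Ext.none :=
  certNK0 (fam := false) (s1 := false) (s2 := false) (a := 2) (b := 0) (c := 2) (cn := .pp) (n1 := ndN1q2a) (n2 := ndN0q2) (pc := pcN0) (cut := Cut.none) (xt := Ext.none) (P1 := 0) (W1 := 536870912) (P2 := 0) (W2 := 536870912) (P3 := 33554432) (W3 := 16777216) (N0 := 3)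
    rfl rfl rfl k0_mm_202_a

noncomputable def f_mm_202_b : ℕ → ℕ → ℕ → ℕ → Bool := onCell 1239849684 370763052 0 536870912 33554432 16777216
    (rowNK 3 0 false false false .pp 2 0 2 (qsf 1239849684 370763052 0 536870912 0) ndN1q2b ndN0q2 pcN0 Cut.none Ext.none)

def k0_mm_202_b : ∃ t, chk3 f_mm_202_b t 1 1 1 = true :=
  ⟨(l 3), by decide +kernel⟩

theorem c_mm_202_b : CertN 1239849684 370763052 0 536870912 33554432 16777216 3 false false false .pp 2 0 2
    ndN1q2b ndN0q2 pcN0 Cut.none Ext.none :=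
  certNK0 (fam := false) (s1 := false) (s2 := false) (a := 2) (b := 0) (c := 2) (cn := .pp) (n1 := ndN1q2b) (n2 := ndN0q2) (pc := pcN0) (cut := Cut.none) (xt := Ext.none) (P1 := 1239849684) (W1 := 370763052) (P2 := 0) (W2 := 536870912) (P3 := 33554432) (W3 := 16777216) (N0 := 3)
    rfl rfl rfl k0_mm_202_b

end Pool.Agent.Strip051.G.I1_32_3_64.Tab.C.NB10

namespace Pool.Agent.Strip051.G.I1_32_3_64.Tab.C.NB11

open Pool.Agent.Strip051.PB Pool.Agent.Strip051.PB.T
open Pool.Agent.Strip051.G.I1_32_3_64.Tab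

noncomputable def f_pp_001 : ℕ → ℕ → ℕ → ℕ → Bool := onCell 0 536870912 536870912 536870912 33554432 16777216
    (rowNK 3 0 false true true .up 0 0 1 (qsf 0 536870912 536870912 536870912 0) ndN1q0 ndN1q1 pcN0 Cut.none Ext.none)

def k0_pp_001 : ∃ t, chk3 f_pp_001 t 1 1 1 = true :=
  ⟨(l 3), by decide +kernel⟩

theorem c_pp_001 : CertN 0 536870912 536870912 536870912 33554432 16777216 3 false true true .up 0 0 1
    ndN1q0 ndN1q1 pcN0 Cut.none Ext.none :=
  certNK0 (fam := false) (s1 := true) (s2 := true) (a := 0) (b := 0) (c := 1) (cn := .up) (n1 := ndN1q0) (n2 := ndN1q1) (pc := pcN0) (cut := Cut.none) (xt := Ext.none) (P1 := 0) (W1 := 536870912) (P2 := 536870912) (W2 := 536870912) (P3 := 33554432) (W3 := 16777216) (N0 := 3)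
    rfl rfl rfl k0_pp_001

noncomputable def f_pp_011 : ℕ → ℕ → ℕ → ℕ → Bool := onCell 0 536870912 536870912 536870912 33554432 16777216
    (rowNK 3 0 false true true .pnn 0 1 1 (qsf 0 536870912 536870912 536870912 1) ndN1q0 ndN1q1 pcN1 Cut.none Ext.none)

def k0_pp_011 : ∃ t, chk3 f_pp_011 t 1 1 1 = true :=
  ⟨(l 3), by decide +kernel⟩

theorem c_pp_011 : CertN 0 536870912 536870912 536870912 33554432 16777216 3 false true true .pnn 0 1 1
    ndN1q0 ndN1q1 pcN1 Cut.none Ext.none :=
  certNK0 (fam := false) (s1 := true) (s2 := true) (a := 0) (b := 1) (c := 1) (cn := .pnn) (n1 := ndN1q0) (n2 := ndN1q1) (pc := pcN1) (cut := Cut.none) (xt := Ext.none) (P1 := 0) (W1 := 536870912) (P2 := 536870912) (W2 := 536870912) (P3 := 33554432) (W3 := 16777216) (N0 := 3)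
    rfl rfl rfl k0_pp_011

noncomputable def cut_pp_012_a : Cut := Cut.of [[⟨0, 0, 0, 33554432⟩, ⟨1, 1, 0, 33554432⟩, ⟨2, 1, 0, 33554432⟩]]

noncomputable def f_pp_012_a : ℕ → ℕ → ℕ → ℕ → Bool := onCell 536870912 536870912 0 536870912 33554432 16777216
    (rowNK 3 2 false true true .pnp 0 1 2 (qsf 0 536870912 0 536870912 1) ndN1q0 ndN1q2a pcN1 cut_pp_012_a Ext.none)

def k0_pp_012_a : ∃ t, chk3 f_pp_012_a t 1 1 1 = true :=
  ⟨(a (a (b (a (l 2) (l 17774584)) (l 3)) (a (b (l 17579264) (l 3)) (b (l 17435296) (l 204180570295)))) (a (b (a (l 17346360) (l 17243000)) (a (b (l 17561848) (l 3)) (b (l 17409864) (l 218675605671)))) (b (a (l 17548928) (a (l 18050896) (l 18503008))) (a (b (l 17227152) (a (l 197200175207) (b (l 17005184) (l 215453526807)))) (a (b (l 17671744) (b (l 16987688) (b (l 16912928) (l 217600786023)))) (a (b (l 17811608) (b (l 17254792) (b (l 16861488) (b (l 16843520) (l 214916373431))))) (b (l 18170152) (b (b (l 17535344) (a (l 17195320) (l 17141952))) (b (b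 (l 16806616) (b (l 16802704) (l 16801672))) (b (a (l 16811240) (l 6)) (l 6))))))))))), by decide +kernel⟩

theorem c_pp_012_a : CertN 0 536870912 0 536870912 33554432 16777216 3 false true true .pnp 0 1 2
    ndN1q0 ndN1q2a pcN1 cut_pp_012_a Ext.none :=
  certNK2 (fam := false) (s1 := true) (s2 := true) (a := 0) (b := 1) (c := 2) (cn := .pnp) (n1 := ndN1q0) (n2 := ndN1q2a) (pc := pcN1) (cut := cut_pp_012_a) (xt := Ext.none) (P1 := 0) (W1 := 536870912) (P2 := 0) (W2 := 536870912) (P3 := 33554432) (W3 := 16777216) (N0 := 3)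
    rfl rfl rfl (fun _ => rfl) k0_pp_012_a

noncomputable def cut_pp_012_b : Cut := Cut.of [[⟨0, 0, 0, 33554432⟩, ⟨1, 1, 0, 33554432⟩, ⟨2, 1, 0, 33554432⟩]]

noncomputable def f_pp_012_b : ℕ → ℕ → ℕ → ℕ → Bool := onCell 536870912 536870912 1239849684 370763052 33554432 16777216
    (rowNK 3 2 false true true .pnp 0 1 2 (qsf 0 536870912 1239849684 370763052 1) ndN1q0 ndN1q2b pcN1 cut_pp_012_b Ext.none)

def k0_pp_012_b : ∃ t, chk3 f_pp_012_b t 1 1 1 = true :=
  ⟨(a (a (l 2) (b (a (l 17202928) (l 17128840)) (l 2))) (a (b (a (l 17281608) (l 17681648)) (l 17800344)) (b (a (l 18168704) (l 18693008)) (l 18631224)))), by decide +kernel⟩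

theorem c_pp_012_b : CertN 0 536870912 1239849684 370763052 33554432 16777216 3 false true true .pnp 0 1 2
    ndN1q0 ndN1q2b pcN1 cut_pp_012_b Ext.none :=
  certNK2 (fam := false) (s1 := true) (s2 := true) (a := 0) (b := 1) (c := 2) (cn := .pnp) (n1 := ndN1q0) (n2 := ndN1q2b) (pc := pcN1) (cut := cut_pp_012_b) (xt := Ext.none) (P1 := 0) (W1 := 536870912) (P2 := 1239849684) (W2 := 370763052) (P3 := 33554432) (W3 := 16777216) (N0 := 3)
    rfl rfl rfl (fun _ => rfl) k0_pp_012_b

noncomputable def cut_pp_022_a : Cut := Cut.of [[⟨0, 0, 0, 33554432⟩, ⟨1, 1, 0, 33554432⟩, ⟨2, 1, 0, 33554432⟩]]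

noncomputable def f_pp_022_a : ℕ → ℕ → ℕ → ℕ → Bool := onCell 0 536870912 0 536870912 33554432 16777216
    (rowNK 3 0 false true true .pp 0 2 2 (qsf 0 536870912 0 536870912 2) ndN1q0 ndN1q2a pcN2 cut_pp_022_a Ext.none)

def k0_pp_022_a : ∃ t, chk3 f_pp_022_a t 1 1 1 = true :=
  ⟨(a (b (a (b (l 19299448) (a (l 19270728) (a (l 19003712) (b (l 18925968) (b (l 18774944) (a (l 18694408) (a (l 18612824) (l 18568752)))))))) (a (a (b (a (l 19011344) (b (l 19004376) (l 18897760))) (b (a (a (l 18818976) (l 18781376)) (l 18761968)) (l 18609104))) (l 18816344)) (l 1))) (a (b (b (a (l 18979992) (a (l 18615256) (b (a (b (l 18575792) (a (l 18513752) (l 18452016))) (l 18454960)) (l 18337248)))) (a (a (b (l 18838504) (l 18549688)) (l 18404568)) (a (b (a (l 18337792) (b (a (l 18300488) (l 18231328)) (l 18135136))) (a (a (l 18042112) (l 17977992)) (l 17942568))) (l 18061984)))) (a (b (a (b (a (a (b (l 18353160) (l 17971608)) (l 18134040)) (l 18015848)) (a (a (b (c (l 17951720) (a (a (l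 17123192) (l 17342640)) (l 17325832))) (a (b (c (l 17546640) (l 16834240)) (l 16739728)) (l 17040352))) (b (l 17580408) (l 17018264))) (a (l 17270200) (l 17220192)))) (b (a (l 17858208) (b (l 17833432) (a (l 17595928) (l 17536680)))) (a (b (l 17357376) (a (b (l 17057160) (l 16801208)) (l 16910552))) (b (l 17272672) (l 16900072))))) (a (b (a (b (a (a (a (a (l 16729848) (l 16725408)) (l 16726616)) (l 16729096)) (l 16734448)) (l 6)) (b (a (l 16742232) (l 16750632)) (a (l 6) (l 16754104)))) (a (l 6) (a (l 6) (l 1)))) (a (b (b (l 16742384) (l 1)) (l 1)) (l 1)))) (b (a (b (l 17633840) (l 1)) (l 1)) (l 1)))) (b (l 1) (l 1)))) (l 1)), by decide +kernel⟩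

theorem c_pp_022_a : CertN 0 536870912 0 536870912 33554432 16777216 3 false true true .pp 0 2 2
    ndN1q0 ndN1q2a pcN2 cut_pp_022_a Ext.none :=
  certNK0 (fam := false) (s1 := true) (s2 := true) (a := 0) (b := 2) (c := 2) (cn := .pp) (n1 := ndN1q0) (n2 := ndN1q2a) (pc := pcN2) (cut := cut_pp_022_a) (xt := Ext.none) (P1 := 0) (W1 := 536870912) (P2 := 0) (W2 := 536870912) (P3 := 33554432) (W3 := 16777216) (N0 := 3)
    rfl rfl rfl k0_pp_022_a

noncomputable def cut_pp_022_b : Cut := Cut.of [[⟨0, 0, 0, 33554432⟩, ⟨1, 1, 0, 33554432⟩, ⟨2, 1, 0, 33554432⟩]]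

noncomputable def f_pp_022_b : ℕ → ℕ → ℕ → ℕ → Bool := onCell 1073741824 536870912 1239849684 370763052 33554432 16777216
    (rowNK 3 2 false true true .pp 0 2 2 (qsf 0 536870912 1239849684 370763052 2) ndN1q0 ndN1q2b pcN2 cut_pp_022_b Ext.none)

def k0_pp_022_b : ∃ t, chk3 f_pp_022_b t 1 1 1 = true :=
  ⟨(a (a (a (a (a (a (l 19353776) (l 19366336)) (l 19386000)) (l 19422200)) (b (l 19478832) (l 19468648))) (b (b (l 164858525911) (l 19635832)) (l 19556176))) (b (a (b (l 1) (l 496645226135)) (l 1)) (a (l 19603928) (b (a (l 19586176) (l 1)) (l 19543976))))), by decide +kernel⟩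

theorem c_pp_022_b : CertN 0 536870912 1239849684 370763052 33554432 16777216 3 false true true .pp 0 2 2
    ndN1q0 ndN1q2b pcN2 cut_pp_022_b Ext.none :=
  certNK2 (fam := false) (s1 := true) (s2 := true) (a := 0) (b := 2) (c := 2) (cn := .pp) (n1 := ndN1q0) (n2 := ndN1q2b) (pc := pcN2) (cut := cut_pp_022_b) (xt := Ext.none) (P1 := 0) (W1 := 536870912) (P2 := 1239849684) (W2 := 370763052) (P3 := 33554432) (W3 := 16777216) (N0 := 3)
    rfl rfl rfl (fun _ => rfl) k0_pp_022_b

noncomputable def f_pp_023 : ℕ → ℕ → ℕ → ℕ → Bool := onCell 0 536870912 1073741824 536870912 33554432 16777216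
    (rowNK 3 1 false true true .up 0 2 3 (qsf 0 536870912 1610612736 536870912 2) ndN1q0 ndN1q3 pcN2 Cut.none Ext.none)

def k0_pp_023 : ∃ t, chk3 f_pp_023 t 1 1 1 = true :=
  ⟨(b (b (b (b (b (b (l 323773010855) (l 322162414247)) (l 320014945943)) (l 323236171047)) (l 328604782439)) (l 334510457831)) (b (a (l 19230104) (l 19370656)) (a (l 18809424) (l 18817152)))), by decide +kernel⟩

theorem c_pp_023 : CertN 0 536870912 1610612736 536870912 33554432 16777216 3 false true true .up 0 2 3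
    ndN1q0 ndN1q3 pcN2 Cut.none Ext.none :=
  certNK1 (fam := false) (s1 := true) (s2 := true) (a := 0) (b := 2) (c := 3) (cn := .up) (n1 := ndN1q0) (n2 := ndN1q3) (pc := pcN2) (cut := Cut.none) (xt := Ext.none) (P1 := 0) (W1 := 536870912) (P2 := 1610612736) (W2 := 536870912) (P3 := 33554432) (W3 := 16777216) (N0 := 3)
    rfl rfl rfl (fun _ => rfl) k0_pp_023

noncomputable def f_pp_033 : ℕ → ℕ → ℕ → ℕ → Bool := onCell 0 536870912 1610612736 536870912 33554432 16777216
    (rowNK 3 1 false true true .pnn 0 3 3 (qsf 0 536870912 1610612736 536870912 3) ndN1q0 ndN1q3 pcN3 Cut.none Ext.none)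

def k0_pp_033 : ∃ t, chk3 f_pp_033 t 1 1 1 = true :=
  ⟨(a (b (b (a (l 17829488) (l 18207632)) (b (l 17944680) (l 17955304))) (a (b (l 4) (l 4)) (b (l 4) (a (b (l 4) (l 2)) (l 2))))) (b (b (b (l 18397856) (l 18157128)) (a (l 18452248) (a (b (l 4) (l 2)) (l 2)))) (a (b (a (b (l 4) (l 2)) (l 2)) (l 2)) (l 2)))), by decide +kernel⟩

theorem c_pp_033 : CertN 0 536870912 1610612736 536870912 33554432 16777216 3 false true true .pnn 0 3 3
    ndN1q0 ndN1q3 pcN3 Cut.none Ext.none :=
  certNK1 (fam := false) (s1 := true) (s2 := true) (a := 0) (b := 3) (c := 3) (cn := .pnn) (n1 := ndN1q0) (n2 := ndN1q3) (pc := pcN3) (cut := Cut.none) (xt := Ext.none) (P1 := 0) (W1 := 536870912) (P2 := 1610612736) (W2 := 536870912) (P3 := 33554432) (W3 := 16777216) (N0 := 3)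
    rfl rfl rfl (fun _ => rfl) k0_pp_033

noncomputable def f_pp_101 : ℕ → ℕ → ℕ → ℕ → Bool := onCell 536870912 536870912 536870912 536870912 33554432 16777216
    (rowNK 3 0 false true true .npn 1 0 1 (qsf 536870912 536870912 536870912 536870912 0) ndN1q1 ndN1q1 pcN0 Cut.none Ext.none)

def k0_pp_101 : ∃ t, chk3 f_pp_101 t 1 1 1 = true :=
  ⟨(l 3), by decide +kernel⟩

theorem c_pp_101 : CertN 536870912 536870912 536870912 536870912 33554432 16777216 3 false true true .npn 1 0 1
    ndN1q1 ndN1q1 pcN0 Cut.none Ext.none :=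
  certNK0 (fam := false) (s1 := true) (s2 := true) (a := 1) (b := 0) (c := 1) (cn := .npn) (n1 := ndN1q1) (n2 := ndN1q1) (pc := pcN0) (cut := Cut.none) (xt := Ext.none) (P1 := 536870912) (W1 := 536870912) (P2 := 536870912) (W2 := 536870912) (P3 := 33554432) (W3 := 16777216) (N0 := 3)
    rfl rfl rfl k0_pp_101

noncomputable def f_pp_102_a : ℕ → ℕ → ℕ → ℕ → Bool := onCell 0 536870912 0 536870912 33554432 16777216
    (rowNK 3 2 false true true .npp 1 0 2 (qsf 536870912 536870912 0 536870912 0) ndN1q1 ndN1q2a pcN0 Cut.none Ext.none)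

def k0_pp_102_a : ∃ t, chk3 f_pp_102_a t 1 1 1 = true :=
  ⟨(b (a (l 3) (a (l 3) (l 3))) (l 3)), by decide +kernel⟩

theorem c_pp_102_a : CertN 536870912 536870912 0 536870912 33554432 16777216 3 false true true .npp 1 0 2
    ndN1q1 ndN1q2a pcN0 Cut.none Ext.none :=
  certNK2 (fam := false) (s1 := true) (s2 := true) (a := 1) (b := 0) (c := 2) (cn := .npp) (n1 := ndN1q1) (n2 := ndN1q2a) (pc := pcN0) (cut := Cut.none) (xt := Ext.none) (P1 := 536870912) (W1 := 536870912) (P2 := 0) (W2 := 536870912) (P3 := 33554432) (W3 := 16777216) (N0 := 3)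
    rfl rfl rfl (fun _ => rfl) k0_pp_102_a

noncomputable def f_pp_102_b : ℕ → ℕ → ℕ → ℕ → Bool := onCell 0 536870912 1239849684 370763052 33554432 16777216
    (rowNK 3 2 false true true .npp 1 0 2 (qsf 536870912 536870912 1239849684 370763052 0) ndN1q1 ndN1q2b pcN0 Cut.none Ext.none)

def k0_pp_102_b : ∃ t, chk3 f_pp_102_b t 1 1 1 = true :=
  ⟨(a (l 3) (a (b (l 3) (l 3)) (b (a (l 3) (l 18373776)) (l 3)))), by decide +kernel⟩

theorem c_pp_102_b : CertN 536870912 536870912 1239849684 370763052 33554432 16777216 3 false true true .npp 1 0 2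
    ndN1q1 ndN1q2b pcN0 Cut.none Ext.none :=
  certNK2 (fam := false) (s1 := true) (s2 := true) (a := 1) (b := 0) (c := 2) (cn := .npp) (n1 := ndN1q1) (n2 := ndN1q2b) (pc := pcN0) (cut := Cut.none) (xt := Ext.none) (P1 := 536870912) (W1 := 536870912) (P2 := 1239849684) (W2 := 370763052) (P3 := 33554432) (W3 := 16777216) (N0 := 3)
    rfl rfl rfl (fun _ => rfl) k0_pp_102_b

noncomputable def f_pp_112_a : ℕ → ℕ → ℕ → ℕ → Bool := onCell 536870912 536870912 0 536870912 33554432 16777216
    (rowNK 3 0 false true true .dn 1 1 2 (qsf 536870912 536870912 0 536870912 1) ndN1q1 ndN1q2a pcN1 Cut.none Ext.none)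

def k0_pp_112_a : ∃ t, chk3 f_pp_112_a t 1 1 1 = true :=
  ⟨(a (b (a (a (l 124725318823) (l 132241417255)) (a (l 144588955655) (l 1))) (l 3)) (l 1)), by decide +kernel⟩

theorem c_pp_112_a : CertN 536870912 536870912 0 536870912 33554432 16777216 3 false true true .dn 1 1 2
    ndN1q1 ndN1q2a pcN1 Cut.none Ext.none :=
  certNK0 (fam := false) (s1 := true) (s2 := true) (a := 1) (b := 1) (c := 2) (cn := .dn) (n1 := ndN1q1) (n2 := ndN1q2a) (pc := pcN1) (cut := Cut.none) (xt := Ext.none) (P1 := 536870912) (W1 := 536870912) (P2 := 0) (W2 := 536870912) (P3 := 33554432) (W3 := 16777216) (N0 := 3)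
    rfl rfl rfl k0_pp_112_a

noncomputable def f_pp_112_b : ℕ → ℕ → ℕ → ℕ → Bool := onCell 536870912 536870912 1239849684 370763052 33554432 16777216
    (rowNK 3 2 false true true .dn 1 1 2 (qsf 536870912 536870912 1239849684 370763052 1) ndN1q1 ndN1q2b pcN1 Cut.none Ext.none)

def k0_pp_112_b : ∃ t, chk3 f_pp_112_b t 1 1 1 = true :=
  ⟨(a (a (a (b (l 18286016) (l 18504472)) (l 18354000)) (b (l 18245592) (l 18151584))) (a (l 295315843991) (l 337191766375))), by decide +kernel⟩

theorem c_pp_112_b : CertN 536870912 536870912 1239849684 370763052 33554432 16777216 3 false true true .dn 1 1 2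
    ndN1q1 ndN1q2b pcN1 Cut.none Ext.none :=
  certNK2 (fam := false) (s1 := true) (s2 := true) (a := 1) (b := 1) (c := 2) (cn := .dn) (n1 := ndN1q1) (n2 := ndN1q2b) (pc := pcN1) (cut := Cut.none) (xt := Ext.none) (P1 := 536870912) (W1 := 536870912) (P2 := 1239849684) (W2 := 370763052) (P3 := 33554432) (W3 := 16777216) (N0 := 3)
    rfl rfl rfl (fun _ => rfl) k0_pp_112_b

noncomputable def f_pp_113 : ℕ → ℕ → ℕ → ℕ → Bool := onCell 536870912 536870912 536870912 536870912 33554432 16777216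
    (rowNK 3 1 false true true .nn 1 1 3 (qsf 536870912 536870912 1610612736 536870912 1) ndN1q1 ndN1q3 pcN1 Cut.none Ext.none)

def k0_pp_113 : ∃ t, chk3 f_pp_113 t 1 1 1 = true :=
  ⟨(a (b (b (l 1) (l 352760780439)) (b (l 18436208) (l 18289552))) (b (b (b (l 343633117847) (l 17838208)) (b (l 17879232) (l 17905432))) (b (b (l 17898808) (l 17913856)) (b (l 17832656) (b (l 17689280) (b (l 17591208) (b (l 17547840) (l 17500256)))))))), by decide +kernel⟩

theorem c_pp_113 : CertN 536870912 536870912 1610612736 536870912 33554432 16777216 3 false true true .nn 1 1 3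
    ndN1q1 ndN1q3 pcN1 Cut.none Ext.none :=
  certNK1 (fam := false) (s1 := true) (s2 := true) (a := 1) (b := 1) (c := 3) (cn := .nn) (n1 := ndN1q1) (n2 := ndN1q3) (pc := pcN1) (cut := Cut.none) (xt := Ext.none) (P1 := 536870912) (W1 := 536870912) (P2 := 1610612736) (W2 := 536870912) (P3 := 33554432) (W3 := 16777216) (N0 := 3)
    rfl rfl rfl (fun _ => rfl) k0_pp_113

noncomputable def f_pp_123 : ℕ → ℕ → ℕ → ℕ → Bool := onCell 1073741824 536870912 1610612736 536870912 33554432 16777216
    (rowNK 3 2 false true true .npn 1 2 3 (qsf 536870912 536870912 1610612736 536870912 2) ndN1q1 ndN1q3 pcN2 Cut.none Ext.none)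

def k0_pp_123 : ∃ t, chk3 f_pp_123 t 1 1 1 = true :=
  ⟨(a (a (a (a (a (b (a (l 18433040) (l 18408384)) (a (l 17722216) (l 17711704))) (b (l 18370464) (l 17696824))) (b (l 18292152) (l 17668512))) (b (l 18133928) (l 17612072))) (b (l 17811984) (l 17466928))) (a (b (l 17345768) (l 17153104)) (b (l 1) (l 17143024)))), by decide +kernel⟩

theorem c_pp_123 : CertN 536870912 536870912 1610612736 536870912 33554432 16777216 3 false true true .npn 1 2 3
    ndN1q1 ndN1q3 pcN2 Cut.none Ext.none :=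
  certNK2 (fam := false) (s1 := true) (s2 := true) (a := 1) (b := 2) (c := 3) (cn := .npn) (n1 := ndN1q1) (n2 := ndN1q3) (pc := pcN2) (cut := Cut.none) (xt := Ext.none) (P1 := 536870912) (W1 := 536870912) (P2 := 1610612736) (W2 := 536870912) (P3 := 33554432) (W3 := 16777216) (N0 := 3)
    rfl rfl rfl (fun _ => rfl) k0_pp_123

noncomputable def f_pp_133 : ℕ → ℕ → ℕ → ℕ → Bool := onCell 1610612736 536870912 1610612736 536870912 33554432 16777216
    (rowNK 3 2 false true true .dn 1 3 3 (qsf 536870912 536870912 1610612736 536870912 3) ndN1q1 ndN1q3 pcN3 Cut.none Ext.none)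

def k0_pp_133 : ∃ t, chk3 f_pp_133 t 1 1 1 = true :=
  ⟨(a (b (l 1) (a (b (l 1) (l 17406104)) (l 1))) (l 1)), by decide +kernel⟩

theorem c_pp_133 : CertN 536870912 536870912 1610612736 536870912 33554432 16777216 3 false true true .dn 1 3 3
    ndN1q1 ndN1q3 pcN3 Cut.none Ext.none :=
  certNK2 (fam := false) (s1 := true) (s2 := true) (a := 1) (b := 3) (c := 3) (cn := .dn) (n1 := ndN1q1) (n2 := ndN1q3) (pc := pcN3) (cut := Cut.none) (xt := Ext.none) (P1 := 536870912) (W1 := 536870912) (P2 := 1610612736) (W2 := 536870912) (P3 := 33554432) (W3 := 16777216) (N0 := 3)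
    rfl rfl rfl (fun _ => rfl) k0_pp_133

noncomputable def f_pp_202_aa : ℕ → ℕ → ℕ → ℕ → Bool := onCell 0 536870912 0 536870912 33554432 16777216
    (rowNK 3 0 false true true .pp 2 0 2 (qsf 0 536870912 0 536870912 0) ndN1q2a ndN1q2a pcN0 Cut.none Ext.none)

def k0_pp_202_aa : ∃ t, chk3 f_pp_202_aa t 1 1 1 = true :=
  ⟨(l 3), by decide +kernel⟩

theorem c_pp_202_aa : CertN 0 536870912 0 536870912 33554432 16777216 3 false true true .pp 2 0 2
    ndN1q2a ndN1q2a pcN0 Cut.none Ext.none :=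
  certNK0 (fam := false) (s1 := true) (s2 := true) (a := 2) (b := 0) (c := 2) (cn := .pp) (n1 := ndN1q2a) (n2 := ndN1q2a) (pc := pcN0) (cut := Cut.none) (xt := Ext.none) (P1 := 0) (W1 := 536870912) (P2 := 0) (W2 := 536870912) (P3 := 33554432) (W3 := 16777216) (N0 := 3)
    rfl rfl rfl k0_pp_202_aa

noncomputable def f_pp_202_ab : ℕ → ℕ → ℕ → ℕ → Bool := onCell 0 536870912 1239849684 370763052 33554432 16777216
    (rowNK 3 0 false true true .pp 2 0 2 (qsf 0 536870912 1239849684 370763052 0) ndN1q2a ndN1q2b pcN0 Cut.none Ext.none)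

def k0_pp_202_ab : ∃ t, chk3 f_pp_202_ab t 1 1 1 = true :=
  ⟨(l 3), by decide +kernel⟩

theorem c_pp_202_ab : CertN 0 536870912 1239849684 370763052 33554432 16777216 3 false true true .pp 2 0 2
    ndN1q2a ndN1q2b pcN0 Cut.none Ext.none :=
  certNK0 (fam := false) (s1 := true) (s2 := true) (a := 2) (b := 0) (c := 2) (cn := .pp) (n1 := ndN1q2a) (n2 := ndN1q2b) (pc := pcN0) (cut := Cut.none) (xt := Ext.none) (P1 := 0) (W1 := 536870912) (P2 := 1239849684) (W2 := 370763052) (P3 := 33554432) (W3 := 16777216) (N0 := 3)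
    rfl rfl rfl k0_pp_202_ab

noncomputable def f_pp_202_ba : ℕ → ℕ → ℕ → ℕ → Bool := onCell 1239849684 370763052 0 536870912 33554432 16777216
    (rowNK 3 0 false true true .pp 2 0 2 (qsf 1239849684 370763052 0 536870912 0) ndN1q2b ndN1q2a pcN0 Cut.none Ext.none)

def k0_pp_202_ba : ∃ t, chk3 f_pp_202_ba t 1 1 1 = true :=
  ⟨(l 3), by decide +kernel⟩

theorem c_pp_202_ba : CertN 1239849684 370763052 0 536870912 33554432 16777216 3 false true true .pp 2 0 2
    ndN1q2b ndN1q2a pcN0 Cut.none Ext.none :=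
  certNK0 (fam := false) (s1 := true) (s2 := true) (a := 2) (b := 0) (c := 2) (cn := .pp) (n1 := ndN1q2b) (n2 := ndN1q2a) (pc := pcN0) (cut := Cut.none) (xt := Ext.none) (P1 := 1239849684) (W1 := 370763052) (P2 := 0) (W2 := 536870912) (P3 := 33554432) (W3 := 16777216) (N0 := 3)
    rfl rfl rfl k0_pp_202_ba

noncomputable def f_pp_202_bb : ℕ → ℕ → ℕ → ℕ → Bool := onCell 1239849684 370763052 1239849684 370763052 33554432 16777216
    (rowNK 3 0 false true true .pp 2 0 2 (qsf 1239849684 370763052 1239849684 370763052 0) ndN1q2b ndN1q2b pcN0 Cut.none Ext.none)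

def k0_pp_202_bb : ∃ t, chk3 f_pp_202_bb t 1 1 1 = true :=
  ⟨(l 3), by decide +kernel⟩

theorem c_pp_202_bb : CertN 1239849684 370763052 1239849684 370763052 33554432 16777216 3 false true true .pp 2 0 2
    ndN1q2b ndN1q2b pcN0 Cut.none Ext.none :=
  certNK0 (fam := false) (s1 := true) (s2 := true) (a := 2) (b := 0) (c := 2) (cn := .pp) (n1 := ndN1q2b) (n2 := ndN1q2b) (pc := pcN0) (cut := Cut.none) (xt := Ext.none) (P1 := 1239849684) (W1 := 370763052) (P2 := 1239849684) (W2 := 370763052) (P3 := 33554432) (W3 := 16777216) (N0 := 3)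
    rfl rfl rfl k0_pp_202_bb

noncomputable def f_pp_203_a : ℕ → ℕ → ℕ → ℕ → Bool := onCell 0 536870912 0 536870912 33554432 16777216
    (rowNK 3 1 false true true .up 2 0 3 (qsf 0 536870912 1610612736 536870912 0) ndN1q2a ndN1q3 pcN0 Cut.none Ext.none)

def k0_pp_203_a : ∃ t, chk3 f_pp_203_a t 1 1 1 = true :=
  ⟨(l 3), by decide +kernel⟩

theorem c_pp_203_a : CertN 0 536870912 1610612736 536870912 33554432 16777216 3 false true true .up 2 0 3
    ndN1q2a ndN1q3 pcN0 Cut.none Ext.none :=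
  certNK1 (fam := false) (s1 := true) (s2 := true) (a := 2) (b := 0) (c := 3) (cn := .up) (n1 := ndN1q2a) (n2 := ndN1q3) (pc := pcN0) (cut := Cut.none) (xt := Ext.none) (P1 := 0) (W1 := 536870912) (P2 := 1610612736) (W2 := 536870912) (P3 := 33554432) (W3 := 16777216) (N0 := 3)
    rfl rfl rfl (fun _ => rfl) k0_pp_203_a

noncomputable def f_pp_203_b : ℕ → ℕ → ℕ → ℕ → Bool := onCell 1239849684 370763052 1610612736 536870912 33554432 16777216
    (rowNK 3 0 false true true .up 2 0 3 (qsf 1239849684 370763052 1610612736 536870912 0) ndN1q2b ndN1q3 pcN0 Cut.none Ext.none)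

def k0_pp_203_b : ∃ t, chk3 f_pp_203_b t 1 1 1 = true :=
  ⟨(l 3), by decide +kernel⟩

theorem c_pp_203_b : CertN 1239849684 370763052 1610612736 536870912 33554432 16777216 3 false true true .up 2 0 3
    ndN1q2b ndN1q3 pcN0 Cut.none Ext.none :=
  certNK0 (fam := false) (s1 := true) (s2 := true) (a := 2) (b := 0) (c := 3) (cn := .up) (n1 := ndN1q2b) (n2 := ndN1q3) (pc := pcN0) (cut := Cut.none) (xt := Ext.none) (P1 := 1239849684) (W1 := 370763052) (P2 := 1610612736) (W2 := 536870912) (P3 := 33554432) (W3 := 16777216) (N0 := 3)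
    rfl rfl rfl k0_pp_203_b

noncomputable def cut_pp_213_a : Cut := Cut.of [[⟨0, 1, 0, 7061502⟩, ⟨1, 1, 0, 7061502⟩, ⟨2, 2, 0, 184626⟩]]

noncomputable def f_pp_213_a : ℕ → ℕ → ℕ → ℕ → Bool := onCell 0 536870912 1610612736 536870912 33554432 16777216
    (rowNK 3 0 false true true .pnn 2 1 3 (qsf 0 536870912 1610612736 536870912 1) ndN1q2a ndN1q3 pcN1 cut_pp_213_a Ext.none)

def k0_pp_213_a : ∃ t, chk3 f_pp_213_a t 1 1 1 = true :=
  ⟨(b (l 3) (a (l 3) (b (l 3) (a (l 3) (b (l 3) (a (l 3) (b (l 3) (a (l 3) (b (l 3) (a (l 3) (b (l 3) (b (l 3) (a (l 3) (b (l 3) (b (l 3) (b (l 3) (b (l 3) (b (l 3) (l 6))))))))))))))))))), by decide +kernel⟩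

theorem c_pp_213_a : CertN 0 536870912 1610612736 536870912 33554432 16777216 3 false true true .pnn 2 1 3
    ndN1q2a ndN1q3 pcN1 cut_pp_213_a Ext.none :=
  certNK0 (fam := false) (s1 := true) (s2 := true) (a := 2) (b := 1) (c := 3) (cn := .pnn) (n1 := ndN1q2a) (n2 := ndN1q3) (pc := pcN1) (cut := cut_pp_213_a) (xt := Ext.none) (P1 := 0) (W1 := 536870912) (P2 := 1610612736) (W2 := 536870912) (P3 := 33554432) (W3 := 16777216) (N0 := 3)
    rfl rfl rfl k0_pp_213_a

noncomputable def cut_pp_213_b : Cut := Cut.of [[⟨0, 1, 0, 7061502⟩, ⟨1, 1, 0, 7061502⟩, ⟨2, 2, 0, 184626⟩]]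

noncomputable def f_pp_213_b : ℕ → ℕ → ℕ → ℕ → Bool := onCell 1239849684 370763052 1610612736 536870912 33554432 16777216
    (rowNK 3 0 false true true .pnn 2 1 3 (qsf 1239849684 370763052 1610612736 536870912 1) ndN1q2b ndN1q3 pcN1 cut_pp_213_b Ext.none)

def k0_pp_213_b : ∃ t, chk3 f_pp_213_b t 1 1 1 = true :=
  ⟨(l 3), by decide +kernel⟩

theorem c_pp_213_b : CertN 1239849684 370763052 1610612736 536870912 33554432 16777216 3 false true true .pnn 2 1 3
    ndN1q2b ndN1q3 pcN1 cut_pp_213_b Ext.none :=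
  certNK0 (fam := false) (s1 := true) (s2 := true) (a := 2) (b := 1) (c := 3) (cn := .pnn) (n1 := ndN1q2b) (n2 := ndN1q3) (pc := pcN1) (cut := cut_pp_213_b) (xt := Ext.none) (P1 := 1239849684) (W1 := 370763052) (P2 := 1610612736) (W2 := 536870912) (P3 := 33554432) (W3 := 16777216) (N0 := 3)
    rfl rfl rfl k0_pp_213_b

noncomputable def f_pp_303 : ℕ → ℕ → ℕ → ℕ → Bool := onCell 1610612736 536870912 1610612736 536870912 33554432 16777216
    (rowNK 3 0 false true true .npn 3 0 3 (qsf 1610612736 536870912 1610612736 536870912 0) ndN1q3 ndN1q3 pcN0 Cut.none Ext.none)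

def k0_pp_303 : ∃ t, chk3 f_pp_303 t 1 1 1 = true :=
  ⟨(l 3), by decide +kernel⟩

theorem c_pp_303 : CertN 1610612736 536870912 1610612736 536870912 33554432 16777216 3 false true true .npn 3 0 3
    ndN1q3 ndN1q3 pcN0 Cut.none Ext.none :=
  certNK0 (fam := false) (s1 := true) (s2 := true) (a := 3) (b := 0) (c := 3) (cn := .npn) (n1 := ndN1q3) (n2 := ndN1q3) (pc := pcN0) (cut := Cut.none) (xt := Ext.none) (P1 := 1610612736) (W1 := 536870912) (P2 := 1610612736) (W2 := 536870912) (P3 := 33554432) (W3 := 16777216) (N0 := 3)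
    rfl rfl rfl k0_pp_303

noncomputable def f_pp_313 : ℕ → ℕ → ℕ → ℕ → Bool := onCell 1610612736 536870912 1610612736 536870912 33554432 16777216
    (rowNK 3 0 false true true .dn 3 1 3 (qsf 1610612736 536870912 1610612736 536870912 1) ndN1q3 ndN1q3 pcN1 Cut.none Ext.none)

def k0_pp_313 : ∃ t, chk3 f_pp_313 t 1 1 1 = true :=
  ⟨(l 3), by decide +kernel⟩

theorem c_pp_313 : CertN 1610612736 536870912 1610612736 536870912 33554432 16777216 3 false true true .dn 3 1 3
    ndN1q3 ndN1q3 pcN1 Cut.none Ext.none :=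
  certNK0 (fam := false) (s1 := true) (s2 := true) (a := 3) (b := 1) (c := 3) (cn := .dn) (n1 := ndN1q3) (n2 := ndN1q3) (pc := pcN1) (cut := Cut.none) (xt := Ext.none) (P1 := 1610612736) (W1 := 536870912) (P2 := 1610612736) (W2 := 536870912) (P3 := 33554432) (W3 := 16777216) (N0 := 3)
    rfl rfl rfl k0_pp_313

noncomputable def f_pm_001 : ℕ → ℕ → ℕ → ℕ → Bool := onCell 0 536870912 536870912 536870912 33554432 16777216
    (rowNK 3 0 false true false .up 0 0 1 (qsf 0 536870912 536870912 536870912 0) ndN1q0 ndN1q1 pcN0 Cut.none Ext.none)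

def k0_pm_001 : ∃ t, chk3 f_pm_001 t 1 1 1 = true :=
  ⟨(l 4), by decide +kernel⟩

theorem c_pm_001 : CertN 0 536870912 536870912 536870912 33554432 16777216 3 false true false .up 0 0 1
    ndN1q0 ndN1q1 pcN0 Cut.none Ext.none :=
  certNK0 (fam := false) (s1 := true) (s2 := false) (a := 0) (b := 0) (c := 1) (cn := .up) (n1 := ndN1q0) (n2 := ndN1q1) (pc := pcN0) (cut := Cut.none) (xt := Ext.none) (P1 := 0) (W1 := 536870912) (P2 := 536870912) (W2 := 536870912) (P3 := 33554432) (W3 := 16777216) (N0 := 3)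
    rfl rfl rfl k0_pm_001

noncomputable def f_pm_011 : ℕ → ℕ → ℕ → ℕ → Bool := onCell 0 536870912 536870912 536870912 33554432 16777216
    (rowNK 3 0 false true false .pnn 0 1 1 (qsf 0 536870912 536870912 536870912 1) ndN1q0 ndN1q1 pcN1 Cut.none Ext.none)

def k0_pm_011 : ∃ t, chk3 f_pm_011 t 1 1 1 = true :=
  ⟨(l 4), by decide +kernel⟩

theorem c_pm_011 : CertN 0 536870912 536870912 536870912 33554432 16777216 3 false true false .pnn 0 1 1
    ndN1q0 ndN1q1 pcN1 Cut.none Ext.none :=
  certNK0 (fam := false) (s1 := true) (s2 := false) (a := 0) (b := 1) (c := 1) (cn := .pnn) (n1 := ndN1q0) (n2 := ndN1q1) (pc := pcN1) (cut := Cut.none) (xt := Ext.none) (P1 := 0) (W1 := 536870912) (P2 := 536870912) (W2 := 536870912) (P3 := 33554432) (W3 := 16777216) (N0 := 3)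
    rfl rfl rfl k0_pm_011

noncomputable def cut_pm_012_a : Cut := Cut.of [[⟨0, 0, 0, 33554432⟩, ⟨1, 1, 0, 33554432⟩, ⟨2, 1, 0, 33554432⟩]]

noncomputable def f_pm_012_a : ℕ → ℕ → ℕ → ℕ → Bool := onCell 536870912 536870912 0 536870912 33554432 16777216
    (rowNK 3 2 false true false .pnp 0 1 2 (qsf 0 536870912 0 536870912 1) ndN1q0 ndN1q2a pcN1 cut_pm_012_a Ext.none)

def k0_pm_012_a : ∃ t, chk3 f_pm_012_a t 1 1 1 = true :=
  ⟨(b (a (l 18412328) (a (l 19085880) (a (l 19595816) (a (l 19986936) (a (l 20231336) (a (l 20357760) (l 20409224))))))) (a (a (b (l 18355920) (l 17878336)) (b (l 18611240) (l 18418016))) (a (b (l 19062184) (a (l 18516576) (l 244515475255))) (a (b (l 19532104) (b (l 19095776) (b (l 18616768) (l 4)))) (a (b (l 19840768) (b (l 19189768) (b (l 18419744) (l 4)))) (a (b (l 19995224) (b (l 19062952) (b (l 353497478199) (l 4)))) (a (b (l 20060048) (b (l 18860552) (b (l 16901672) (b (l 16758504) (l 4))))) (b (l 20066768) (b (b (l 19058576) (l 17986592)) (b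 (l 16719808) (l 6))))))))))), by decide +kernel⟩

theorem c_pm_012_a : CertN 0 536870912 0 536870912 33554432 16777216 3 false true false .pnp 0 1 2
    ndN1q0 ndN1q2a pcN1 cut_pm_012_a Ext.none :=
  certNK2 (fam := false) (s1 := true) (s2 := false) (a := 0) (b := 1) (c := 2) (cn := .pnp) (n1 := ndN1q0) (n2 := ndN1q2a) (pc := pcN1) (cut := cut_pm_012_a) (xt := Ext.none) (P1 := 0) (W1 := 536870912) (P2 := 0) (W2 := 536870912) (P3 := 33554432) (W3 := 16777216) (N0 := 3)
    rfl rfl rfl (fun _ => rfl) k0_pm_012_a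

noncomputable def cut_pm_012_b : Cut := Cut.of [[⟨0, 0, 0, 33554432⟩, ⟨1, 1, 0, 33554432⟩, ⟨2, 1, 0, 33554432⟩]]

noncomputable def f_pm_012_b : ℕ → ℕ → ℕ → ℕ → Bool := onCell 536870912 536870912 1239849684 370763052 33554432 16777216
    (rowNK 3 2 false true false .pnp 0 1 2 (qsf 0 536870912 1239849684 370763052 1) ndN1q0 ndN1q2b pcN1 cut_pm_012_b Ext.none)

def k0_pm_012_b : ∃ t, chk3 f_pm_012_b t 1 1 1 = true :=
  ⟨(a (b (l 18461344) (l 2)) (a (l 19263600) (a (l 19837632) (a (l 20225640) (a (l 20464696) (a (l 20598272) (l 20680696))))))), by decide +kernel⟩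

theorem c_pm_012_b : CertN 0 536870912 1239849684 370763052 33554432 16777216 3 false true false .pnp 0 1 2
    ndN1q0 ndN1q2b pcN1 cut_pm_012_b Ext.none :=
  certNK2 (fam := false) (s1 := true) (s2 := false) (a := 0) (b := 1) (c := 2) (cn := .pnp) (n1 := ndN1q0) (n2 := ndN1q2b) (pc := pcN1) (cut := cut_pm_012_b) (xt := Ext.none) (P1 := 0) (W1 := 536870912) (P2 := 1239849684) (W2 := 370763052) (P3 := 33554432) (W3 := 16777216) (N0 := 3)
    rfl rfl rfl (fun _ => rfl) k0_pm_012_b

noncomputable def cut_pm_022_a : Cut := Cut.of [[⟨0, 0, 0, 33554432⟩, ⟨1, 1, 0, 33554432⟩, ⟨2, 1, 0, 33554432⟩]]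

noncomputable def f_pm_022_a : ℕ → ℕ → ℕ → ℕ → Bool := onCell 0 536870912 0 536870912 33554432 16777216
    (rowNK 3 0 false true false .pp 0 2 2 (qsf 0 536870912 0 536870912 2) ndN1q0 ndN1q2a pcN2 cut_pm_022_a Ext.none)

def k0_pm_022_a : ∃ t, chk3 f_pm_022_a t 1 1 1 = true :=
  ⟨(a (b (a (a (b (l 19741952) (l 19704824)) (l 20207344)) (a (l 20522328) (l 1))) (a (b (b (a (l 19543896) (l 20149680)) (a (a (a (l 18943840) (l 19121808)) (l 19396256)) (a (l 19704936) (l 19845720)))) (a (a (b (a (b (a (b (l 18436640) (l 17923520)) (l 18377120)) (a (a (b (c (l 18015616) (a (l 17133608) (l 17371856))) (b (c (l 17537864) (l 16816616)) (l 16716792))) (b (l 17720552) (l 17073088))) (b (l 17764712) (l 17084128)))) (b (l 18504544) (b (l 17857152) (l 17111976)))) (a (b (b (a (a (a (a (l 16732856) (l 16723304)) (l 16720784)) (l 16715808)) (l 16727088)) (l 6)) (l 6)) (a (b (a (l 16724880) (l 16713904)) (l 6)) (b (l 16713608) (l 1))))) (b (b (a (l 18678864) (l 18844680)) (a (b (l 17986896)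 (l 17151200)) (b (l 18074624) (l 17161520)))) (b (a (b (l 16666576) (l 1)) (l 1)) (l 1)))) (a (b (b (l 18941736) (l 1)) (l 1)) (l 1)))) (b (l 1) (l 1)))) (l 1)), by decide +kernel⟩

theorem c_pm_022_a : CertN 0 536870912 0 536870912 33554432 16777216 3 false true false .pp 0 2 2
    ndN1q0 ndN1q2a pcN2 cut_pm_022_a Ext.none :=
  certNK0 (fam := false) (s1 := true) (s2 := false) (a := 0) (b := 2) (c := 2) (cn := .pp) (n1 := ndN1q0) (n2 := ndN1q2a) (pc := pcN2) (cut := cut_pm_022_a) (xt := Ext.none) (P1 := 0) (W1 := 536870912) (P2 := 0) (W2 := 536870912) (P3 := 33554432) (W3 := 16777216) (N0 := 3)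
    rfl rfl rfl k0_pm_022_a

noncomputable def cut_pm_022_b : Cut := Cut.of [[⟨0, 0, 0, 33554432⟩, ⟨1, 1, 0, 33554432⟩, ⟨2, 1, 0, 33554432⟩]]

noncomputable def f_pm_022_b : ℕ → ℕ → ℕ → ℕ → Bool := onCell 0 536870912 1073741824 536870912 33554432 16777216
    (rowNK 3 1 false true false .pp 0 2 2 (qsf 0 536870912 1239849684 370763052 2) ndN1q0 ndN1q2b pcN2 cut_pm_022_b Ext.none)

def k0_pm_022_b : ∃ t, chk3 f_pm_022_b t 1 1 1 = true :=
  ⟨(b (a (b (b (l 474097182455) (l 492888011735)) (a (l 275455549863) (l 20236192))) (b (l 20552112) (l 20070432))) (b (a (l 19735432) (l 19432752)) (a (l 19117776) (l 2)))), by decide +kernel⟩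

theorem c_pm_022_b : CertN 0 536870912 1239849684 370763052 33554432 16777216 3 false true false .pp 0 2 2
    ndN1q0 ndN1q2b pcN2 cut_pm_022_b Ext.none :=
  certNK1 (fam := false) (s1 := true) (s2 := false) (a := 0) (b := 2) (c := 2) (cn := .pp) (n1 := ndN1q0) (n2 := ndN1q2b) (pc := pcN2) (cut := cut_pm_022_b) (xt := Ext.none) (P1 := 0) (W1 := 536870912) (P2 := 1239849684) (W2 := 370763052) (P3 := 33554432) (W3 := 16777216) (N0 := 3)
    rfl rfl rfl (fun _ => rfl) k0_pm_022_b

noncomputable def f_pm_023 : ℕ → ℕ → ℕ → ℕ → Bool := onCell 0 536870912 1073741824 536870912 33554432 16777216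
    (rowNK 3 1 false true false .up 0 2 3 (qsf 0 536870912 1610612736 536870912 2) ndN1q0 ndN1q3 pcN2 Cut.none Ext.none)

def k0_pm_023 : ∃ t, chk3 f_pm_023 t 1 1 1 = true :=
  ⟨(b (a (l 533153402071) (l 463359677991)) (b (a (l 498793792359) (l 19350864)) (a (l 19884248) (l 18859304)))), by decide +kernel⟩

theorem c_pm_023 : CertN 0 536870912 1610612736 536870912 33554432 16777216 3 false true false .up 0 2 3
    ndN1q0 ndN1q3 pcN2 Cut.none Ext.none :=
  certNK1 (fam := false) (s1 := true) (s2 := false) (a := 0) (b := 2) (c := 3) (cn := .up) (n1 := ndN1q0) (n2 := ndN1q3) (pc := pcN2) (cut := Cut.none) (xt := Ext.none) (P1 := 0) (W1 := 536870912) (P2 := 1610612736) (W2 := 536870912) (P3 := 33554432) (W3 := 16777216) (N0 := 3)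
    rfl rfl rfl (fun _ => rfl) k0_pm_023

noncomputable def f_pm_033 : ℕ → ℕ → ℕ → ℕ → Bool := onCell 0 536870912 1610612736 536870912 33554432 16777216
    (rowNK 3 0 false true false .pnn 0 3 3 (qsf 0 536870912 1610612736 536870912 3) ndN1q0 ndN1q3 pcN3 Cut.none Ext.none)

def k0_pm_033 : ∃ t, chk3 f_pm_033 t 1 1 1 = true :=
  ⟨(a (b (b (a (l 4) (a (l 19893872) (l 1))) (l 4)) (l 4)) (b (a (b (l 1) (a (l 19317616) (l 1))) (l 1)) (b (a (l 4) (a (l 18884368) (l 1))) (a (l 4) (b (l 18625576) (l 18464248)))))), by decide +kernel⟩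

theorem c_pm_033 : CertN 0 536870912 1610612736 536870912 33554432 16777216 3 false true false .pnn 0 3 3
    ndN1q0 ndN1q3 pcN3 Cut.none Ext.none :=
  certNK0 (fam := false) (s1 := true) (s2 := false) (a := 0) (b := 3) (c := 3) (cn := .pnn) (n1 := ndN1q0) (n2 := ndN1q3) (pc := pcN3) (cut := Cut.none) (xt := Ext.none) (P1 := 0) (W1 := 536870912) (P2 := 1610612736) (W2 := 536870912) (P3 := 33554432) (W3 := 16777216) (N0 := 3)
    rfl rfl rfl k0_pm_033

noncomputable def f_pm_101 : ℕ → ℕ → ℕ → ℕ → Bool := onCell 536870912 536870912 536870912 536870912 33554432 16777216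
    (rowNK 3 0 false true false .npn 1 0 1 (qsf 536870912 536870912 536870912 536870912 0) ndN1q1 ndN1q1 pcN0 Cut.none Ext.none)

def k0_pm_101 : ∃ t, chk3 f_pm_101 t 1 1 1 = true :=
  ⟨(l 4), by decide +kernel⟩

theorem c_pm_101 : CertN 536870912 536870912 536870912 536870912 33554432 16777216 3 false true false .npn 1 0 1
    ndN1q1 ndN1q1 pcN0 Cut.none Ext.none :=
  certNK0 (fam := false) (s1 := true) (s2 := false) (a := 1) (b := 0) (c := 1) (cn := .npn) (n1 := ndN1q1) (n2 := ndN1q1) (pc := pcN0) (cut := Cut.none) (xt := Ext.none) (P1 := 536870912) (W1 := 536870912) (P2 := 536870912) (W2 := 536870912) (P3 := 33554432) (W3 := 16777216) (N0 := 3)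
    rfl rfl rfl k0_pm_101

end Pool.Agent.Strip051.G.I1_32_3_64.Tab.C.NB11

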