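import Pool.Agent.Strip051.G.I1_32_3_64.Tab
import Pool.Agent.Strip051.PB.RowK

/-! # Certificates N13 (generated) -/

set_option linter.all false
set_option maxRecDepth 100000

namespace Pool.Agent.Strip051.G.I1_32_3_64.Tab.C.NB11

open Pool.Agent.Strip051.PB Pool.Agent.Strip051.PB.T
open Pool.Agent.Strip051.G.I1_32_3_64.Tab

noncomputable def f_pm_102_a : ℕ → ℕ → ℕ → ℕ → Bool := onCell 0 536870912 0 536870912 33554432 16777216
    (rowNK 3 2 false true false .npp 1 0 2 (qsf 536870912 536870912 0 536870912 0) ndN1q1 ndN1q2a pcN0 Cut.none Ext.none)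

def k0_pm_102_a : ∃ t, chk3 f_pm_102_a t 1 1 1 = true :=
  ⟨(a (b (a (a (l 2) (a (l 2) (b (l 2) (c (l 18838304) (l 18390736))))) (b (a (l 18414152) (l 18058472)) (a (c (l 18826632) (l 18184216)) (c (l 18770456) (l 17869400))))) (a (b (a (l 2) (c (b (l 19856152) (l 20430936)) (c (l 18842208) (l 153648636903)))) (a (c (l 20537824) (l 18885960)) (c (l 20353632) (l 18875960)))) (b (a (c (b (l 19850120) (l 20303064)) (b (l 18223432) (l 18527592))) (c (l 19940848) (l 18532704))) (b (c (l 20142640) (l 18730200)) (l 19712776))))) (b (a (b (a (l 17750344) (l 17500760)) (c (b (l 18259504) (l 18920376)) (l 17784800))) (b (a (l 17275512) (l 17260360)) (a (l 18098224) (l 17852056)))) (a (b (a (c (l 19781744) (l 18294152)) (c (l 19594040) (l 18232152))) (c (l 19698520) (l 18766280))) (b (b (c (l 19231336) (l 18008976)) (l 18925208)) (b (l 18955656) (l 19081808)))))), by decide +kernel⟩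

theorem c_pm_102_a : CertN 536870912 536870912 0 536870912 33554432 16777216 3 false true false .npp 1 0 2
    ndN1q1 ndN1q2a pcN0 Cut.none Ext.none :=
  certNK2 (fam := false) (s1 := true) (s2 := false) (a := 1) (b := 0) (c := 2) (cn := .npp) (n1 := ndN1q1) (n2 := ndN1q2a) (pc := pcN0) (cut := Cut.none) (xt := Ext.none) (P1 := 536870912) (W1 := 536870912) (P2 := 0) (W2 := 536870912) (P3 := 33554432) (W3 := 16777216) (N0 := 3)
    rfl rfl rfl (fun _ => rfl) k0_pm_102_a

noncomputable def f_pm_102_b : ℕ → ℕ → ℕ → ℕ → Bool := onCell 536870912 536870912 1239849684 370763052 33554432 16777216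
    (rowNK 3 0 false true false .npp 1 0 2 (qsf 536870912 536870912 1239849684 370763052 0) ndN1q1 ndN1q2b pcN0 Cut.none Ext.none)

def k0_pm_102_b : ∃ t, chk3 f_pm_102_b t 1 1 1 = true :=
  ⟨(b (a (a (l 2) (b (a (l 17189888) (l 17370392)) (l 17559496))) (a (b (a (l 17595688) (l 17885520)) (l 18028984)) (b (a (l 18262080) (l 18961912)) (l 18782600)))) (a (l 2) (l 18498072))), by decide +kernel⟩

theorem c_pm_102_b : CertN 536870912 536870912 1239849684 370763052 33554432 16777216 3 false true false .npp 1 0 2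
    ndN1q1 ndN1q2b pcN0 Cut.none Ext.none :=
  certNK0 (fam := false) (s1 := true) (s2 := false) (a := 1) (b := 0) (c := 2) (cn := .npp) (n1 := ndN1q1) (n2 := ndN1q2b) (pc := pcN0) (cut := Cut.none) (xt := Ext.none) (P1 := 536870912) (W1 := 536870912) (P2 := 1239849684) (W2 := 370763052) (P3 := 33554432) (W3 := 16777216) (N0 := 3)
    rfl rfl rfl k0_pm_102_b

noncomputable def f_pm_112_a : ℕ → ℕ → ℕ → ℕ → Bool := onCell 536870912 536870912 0 536870912 33554432 16777216
    (rowNK 3 2 false true false .dn 1 1 2 (qsf 536870912 536870912 0 536870912 1) ndN1q1 ndN1q2a pcN1 Cut.none Ext.none)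

def k0_pm_112_a : ∃ t, chk3 f_pm_112_a t 1 1 1 = true :=
  ⟨(a (b (l 19332168) (a (l 19628280) (l 19909728))) (l 1)), by decide +kernel⟩

theorem c_pm_112_a : CertN 536870912 536870912 0 536870912 33554432 16777216 3 false true false .dn 1 1 2
    ndN1q1 ndN1q2a pcN1 Cut.none Ext.none :=
  certNK2 (fam := false) (s1 := true) (s2 := false) (a := 1) (b := 1) (c := 2) (cn := .dn) (n1 := ndN1q1) (n2 := ndN1q2a) (pc := pcN1) (cut := Cut.none) (xt := Ext.none) (P1 := 536870912) (W1 := 536870912) (P2 := 0) (W2 := 536870912) (P3 := 33554432) (W3 := 16777216) (N0 := 3)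
    rfl rfl rfl (fun _ => rfl) k0_pm_112_a

noncomputable def f_pm_112_b : ℕ → ℕ → ℕ → ℕ → Bool := onCell 536870912 536870912 1239849684 370763052 33554432 16777216
    (rowNK 3 2 false true false .dn 1 1 2 (qsf 536870912 536870912 1239849684 370763052 1) ndN1q1 ndN1q2b pcN1 Cut.none Ext.none)

def k0_pm_112_b : ∃ t, chk3 f_pm_112_b t 1 1 1 = true :=
  ⟨(a (l 18614656) (a (l 18851832) (a (l 18928864) (a (l 18984160) (a (l 19022808) (a (l 19044600) (l 19057672))))))), by decide +kernel⟩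

theorem c_pm_112_b : CertN 536870912 536870912 1239849684 370763052 33554432 16777216 3 false true false .dn 1 1 2
    ndN1q1 ndN1q2b pcN1 Cut.none Ext.none :=
  certNK2 (fam := false) (s1 := true) (s2 := false) (a := 1) (b := 1) (c := 2) (cn := .dn) (n1 := ndN1q1) (n2 := ndN1q2b) (pc := pcN1) (cut := Cut.none) (xt := Ext.none) (P1 := 536870912) (W1 := 536870912) (P2 := 1239849684) (W2 := 370763052) (P3 := 33554432) (W3 := 16777216) (N0 := 3)
    rfl rfl rfl (fun _ => rfl) k0_pm_112_b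

noncomputable def f_pm_113 : ℕ → ℕ → ℕ → ℕ → Bool := onCell 536870912 536870912 536870912 536870912 33554432 16777216
    (rowNK 3 1 false true false .nn 1 1 3 (qsf 536870912 536870912 1610612736 536870912 1) ndN1q1 ndN1q3 pcN1 Cut.none Ext.none)

def k0_pm_113 : ∃ t, chk3 f_pm_113 t 1 1 1 = true :=
  ⟨(a (b (l 356520375399) (b (l 18651072) (b (l 18529552) (b (l 18445432) (b (l 18394808) (b (l 18367104) (l 18347328))))))) (b (l 277062574615) (b (l 18216720) (b (l 17797976) (b (l 17609320) (b (l 17498376) (b (l 17438728) (l 17394368)))))))), by decide +kernel⟩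

theorem c_pm_113 : CertN 536870912 536870912 1610612736 536870912 33554432 16777216 3 false true false .nn 1 1 3
    ndN1q1 ndN1q3 pcN1 Cut.none Ext.none :=
  certNK1 (fam := false) (s1 := true) (s2 := false) (a := 1) (b := 1) (c := 3) (cn := .nn) (n1 := ndN1q1) (n2 := ndN1q3) (pc := pcN1) (cut := Cut.none) (xt := Ext.none) (P1 := 536870912) (W1 := 536870912) (P2 := 1610612736) (W2 := 536870912) (P3 := 33554432) (W3 := 16777216) (N0 := 3)
    rfl rfl rfl (fun _ => rfl) k0_pm_113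

noncomputable def f_pm_123 : ℕ → ℕ → ℕ → ℕ → Bool := onCell 1073741824 536870912 1610612736 536870912 33554432 16777216
    (rowNK 3 2 false true false .npn 1 2 3 (qsf 536870912 536870912 1610612736 536870912 2) ndN1q1 ndN1q3 pcN2 Cut.none Ext.none)

def k0_pm_123 : ∃ t, chk3 f_pm_123 t 1 1 1 = true :=
  ⟨(a (b (a (l 18371696) (l 18474480)) (a (a (a (a (a (l 17245288) (l 17245496)) (l 17249264)) (l 17258680)) (l 17283640)) (l 17360984))) (a (b (l 18496432) (l 17662456)) (b (l 1) (l 17770728)))), by decide +kernel⟩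

theorem c_pm_123 : CertN 536870912 536870912 1610612736 536870912 33554432 16777216 3 false true false .npn 1 2 3
    ndN1q1 ndN1q3 pcN2 Cut.none Ext.none :=
  certNK2 (fam := false) (s1 := true) (s2 := false) (a := 1) (b := 2) (c := 3) (cn := .npn) (n1 := ndN1q1) (n2 := ndN1q3) (pc := pcN2) (cut := Cut.none) (xt := Ext.none) (P1 := 536870912) (W1 := 536870912) (P2 := 1610612736) (W2 := 536870912) (P3 := 33554432) (W3 := 16777216) (N0 := 3)
    rfl rfl rfl (fun _ => rfl) k0_pm_123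

noncomputable def f_pm_133 : ℕ → ℕ → ℕ → ℕ → Bool := onCell 1610612736 536870912 1610612736 536870912 33554432 16777216
    (rowNK 3 2 false true false .dn 1 3 3 (qsf 536870912 536870912 1610612736 536870912 3) ndN1q1 ndN1q3 pcN3 Cut.none Ext.none)

def k0_pm_133 : ∃ t, chk3 f_pm_133 t 1 1 1 = true :=
  ⟨(a (b (l 1) (a (b (l 1) (l 4)) (l 1))) (l 1)), by decide +kernel⟩

theorem c_pm_133 : CertN 536870912 536870912 1610612736 536870912 33554432 16777216 3 false true false .dn 1 3 3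
    ndN1q1 ndN1q3 pcN3 Cut.none Ext.none :=
  certNK2 (fam := false) (s1 := true) (s2 := false) (a := 1) (b := 3) (c := 3) (cn := .dn) (n1 := ndN1q1) (n2 := ndN1q3) (pc := pcN3) (cut := Cut.none) (xt := Ext.none) (P1 := 536870912) (W1 := 536870912) (P2 := 1610612736) (W2 := 536870912) (P3 := 33554432) (W3 := 16777216) (N0 := 3)
    rfl rfl rfl (fun _ => rfl) k0_pm_133

noncomputable def cut_pm_202_aa : Cut := Cut.of [[⟨0, 1, 0, 33554432⟩, ⟨1, 0, 0, 33554432⟩, ⟨2, 1, 0, 33554432⟩]]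

noncomputable def f_pm_202_aa : ℕ → ℕ → ℕ → ℕ → Bool := onCell 0 536870912 0 536870912 33554432 16777216
    (rowNK 3 0 false true false .pp 2 0 2 (qsf 0 536870912 0 536870912 0) ndN1q2a ndN1q2a pcN0 cut_pm_202_aa Ext.none)

def k0_pm_202_aa : ∃ t, chk3 f_pm_202_aa t 1 1 1 = true :=
  ⟨(a (l 3) (b (l 3) (b (l 3) (a (l 3) (b (l 3) (a (l 3) (a (l 3) (b (l 3) (l 6))))))))), by decide +kernel⟩

theorem c_pm_202_aa : CertN 0 536870912 0 536870912 33554432 16777216 3 false true false .pp 2 0 2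
    ndN1q2a ndN1q2a pcN0 cut_pm_202_aa Ext.none :=
  certNK0 (fam := false) (s1 := true) (s2 := false) (a := 2) (b := 0) (c := 2) (cn := .pp) (n1 := ndN1q2a) (n2 := ndN1q2a) (pc := pcN0) (cut := cut_pm_202_aa) (xt := Ext.none) (P1 := 0) (W1 := 536870912) (P2 := 0) (W2 := 536870912) (P3 := 33554432) (W3 := 16777216) (N0 := 3)
    rfl rfl rfl k0_pm_202_aa

noncomputable def cut_pm_202_ab : Cut := Cut.of [[⟨0, 1, 0, 33554432⟩, ⟨1, 0, 0, 33554432⟩, ⟨2, 1, 0, 33554432⟩]]

noncomputable def f_pm_202_ab : ℕ → ℕ → ℕ → ℕ → Bool := onCell 0 536870912 1239849684 370763052 33554432 16777216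
    (rowNK 3 0 false true false .pp 2 0 2 (qsf 0 536870912 1239849684 370763052 0) ndN1q2a ndN1q2b pcN0 cut_pm_202_ab Ext.none)

def k0_pm_202_ab : ∃ t, chk3 f_pm_202_ab t 1 1 1 = true :=
  ⟨(l 3), by decide +kernel⟩

theorem c_pm_202_ab : CertN 0 536870912 1239849684 370763052 33554432 16777216 3 false true false .pp 2 0 2
    ndN1q2a ndN1q2b pcN0 cut_pm_202_ab Ext.none :=
  certNK0 (fam := false) (s1 := true) (s2 := false) (a := 2) (b := 0) (c := 2) (cn := .pp) (n1 := ndN1q2a) (n2 := ndN1q2b) (pc := pcN0) (cut := cut_pm_202_ab) (xt := Ext.none) (P1 := 0) (W1 := 536870912) (P2 := 1239849684) (W2 := 370763052) (P3 := 33554432) (W3 := 16777216) (N0 := 3)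
    rfl rfl rfl k0_pm_202_ab

noncomputable def cut_pm_202_ba : Cut := Cut.of [[⟨0, 1, 0, 33554432⟩, ⟨1, 0, 0, 33554432⟩, ⟨2, 1, 0, 33554432⟩]]

noncomputable def f_pm_202_ba : ℕ → ℕ → ℕ → ℕ → Bool := onCell 1239849684 370763052 0 536870912 33554432 16777216
    (rowNK 3 0 false true false .pp 2 0 2 (qsf 1239849684 370763052 0 536870912 0) ndN1q2b ndN1q2a pcN0 cut_pm_202_ba Ext.none)

def k0_pm_202_ba : ∃ t, chk3 f_pm_202_ba t 1 1 1 = true :=
  ⟨(l 3), by decide +kernel⟩

theorem c_pm_202_ba : CertN 1239849684 370763052 0 536870912 33554432 16777216 3 false true false .pp 2 0 2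
    ndN1q2b ndN1q2a pcN0 cut_pm_202_ba Ext.none :=
  certNK0 (fam := false) (s1 := true) (s2 := false) (a := 2) (b := 0) (c := 2) (cn := .pp) (n1 := ndN1q2b) (n2 := ndN1q2a) (pc := pcN0) (cut := cut_pm_202_ba) (xt := Ext.none) (P1 := 1239849684) (W1 := 370763052) (P2 := 0) (W2 := 536870912) (P3 := 33554432) (W3 := 16777216) (N0 := 3)
    rfl rfl rfl k0_pm_202_ba

noncomputable def cut_pm_202_bb : Cut := Cut.of [[⟨0, 1, 0, 33554432⟩, ⟨1, 0, 0, 33554432⟩, ⟨2, 1, 0, 33554432⟩]]

noncomputable def f_pm_202_bb : ℕ → ℕ → ℕ → ℕ → Bool := onCell 1239849684 370763052 1239849684 370763052 33554432 16777216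
    (rowNK 3 0 false true false .pp 2 0 2 (qsf 1239849684 370763052 1239849684 370763052 0) ndN1q2b ndN1q2b pcN0 cut_pm_202_bb Ext.none)

def k0_pm_202_bb : ∃ t, chk3 f_pm_202_bb t 1 1 1 = true :=
  ⟨(l 3), by decide +kernel⟩

theorem c_pm_202_bb : CertN 1239849684 370763052 1239849684 370763052 33554432 16777216 3 false true false .pp 2 0 2
    ndN1q2b ndN1q2b pcN0 cut_pm_202_bb Ext.none :=
  certNK0 (fam := false) (s1 := true) (s2 := false) (a := 2) (b := 0) (c := 2) (cn := .pp) (n1 := ndN1q2b) (n2 := ndN1q2b) (pc := pcN0) (cut := cut_pm_202_bb) (xt := Ext.none) (P1 := 1239849684) (W1 := 370763052) (P2 := 1239849684) (W2 := 370763052) (P3 := 33554432) (W3 := 16777216) (N0 := 3)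
    rfl rfl rfl k0_pm_202_bb

noncomputable def f_pm_203_a : ℕ → ℕ → ℕ → ℕ → Bool := onCell 0 536870912 0 536870912 33554432 16777216
    (rowNK 3 1 false true false .up 2 0 3 (qsf 0 536870912 1610612736 536870912 0) ndN1q2a ndN1q3 pcN0 Cut.none Ext.none)

def k0_pm_203_a : ∃ t, chk3 f_pm_203_a t 1 1 1 = true :=
  ⟨(l 3), by decide +kernel⟩

theorem c_pm_203_a : CertN 0 536870912 1610612736 536870912 33554432 16777216 3 false true false .up 2 0 3
    ndN1q2a ndN1q3 pcN0 Cut.none Ext.none :=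
  certNK1 (fam := false) (s1 := true) (s2 := false) (a := 2) (b := 0) (c := 3) (cn := .up) (n1 := ndN1q2a) (n2 := ndN1q3) (pc := pcN0) (cut := Cut.none) (xt := Ext.none) (P1 := 0) (W1 := 536870912) (P2 := 1610612736) (W2 := 536870912) (P3 := 33554432) (W3 := 16777216) (N0 := 3)
    rfl rfl rfl (fun _ => rfl) k0_pm_203_a

noncomputable def f_pm_203_b : ℕ → ℕ → ℕ → ℕ → Bool := onCell 1239849684 370763052 1610612736 536870912 33554432 16777216
    (rowNK 3 0 false true false .up 2 0 3 (qsf 1239849684 370763052 1610612736 536870912 0) ndN1q2b ndN1q3 pcN0 Cut.none Ext.none)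

def k0_pm_203_b : ∃ t, chk3 f_pm_203_b t 1 1 1 = true :=
  ⟨(l 3), by decide +kernel⟩

theorem c_pm_203_b : CertN 1239849684 370763052 1610612736 536870912 33554432 16777216 3 false true false .up 2 0 3
    ndN1q2b ndN1q3 pcN0 Cut.none Ext.none :=
  certNK0 (fam := false) (s1 := true) (s2 := false) (a := 2) (b := 0) (c := 3) (cn := .up) (n1 := ndN1q2b) (n2 := ndN1q3) (pc := pcN0) (cut := Cut.none) (xt := Ext.none) (P1 := 1239849684) (W1 := 370763052) (P2 := 1610612736) (W2 := 536870912) (P3 := 33554432) (W3 := 16777216) (N0 := 3)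
    rfl rfl rfl k0_pm_203_b

noncomputable def cut_pm_213_a : Cut := Cut.of [[⟨0, 1, 0, 7061502⟩, ⟨1, 1, 0, 7061502⟩, ⟨2, 2, 0, 184626⟩]]

noncomputable def f_pm_213_a : ℕ → ℕ → ℕ → ℕ → Bool := onCell 0 536870912 1610612736 536870912 33554432 16777216
    (rowNK 3 0 false true false .pnn 2 1 3 (qsf 0 536870912 1610612736 536870912 1) ndN1q2a ndN1q3 pcN1 cut_pm_213_a Ext.none)

def k0_pm_213_a : ∃ t, chk3 f_pm_213_a t 1 1 1 = true :=
  ⟨(b (l 3) (a (l 3) (b (l 3) (a (l 3) (b (l 3) (a (l 3) (b (l 3) (a (l 3) (b (l 3) (a (l 3) (b (l 3) (a (l 3) (b (l 3) (a (l 3) (b (l 3) (b (l 3) (b (l 3) (b (l 3) (b (l 3) (l 6)))))))))))))))))))), by decide +kernel⟩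

theorem c_pm_213_a : CertN 0 536870912 1610612736 536870912 33554432 16777216 3 false true false .pnn 2 1 3
    ndN1q2a ndN1q3 pcN1 cut_pm_213_a Ext.none :=
  certNK0 (fam := false) (s1 := true) (s2 := false) (a := 2) (b := 1) (c := 3) (cn := .pnn) (n1 := ndN1q2a) (n2 := ndN1q3) (pc := pcN1) (cut := cut_pm_213_a) (xt := Ext.none) (P1 := 0) (W1 := 536870912) (P2 := 1610612736) (W2 := 536870912) (P3 := 33554432) (W3 := 16777216) (N0 := 3)
    rfl rfl rfl k0_pm_213_a

noncomputable def cut_pm_213_b : Cut := Cut.of [[⟨0, 1, 0, 7061502⟩, ⟨1, 1, 0, 7061502⟩, ⟨2, 2, 0, 184626⟩]]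

noncomputable def f_pm_213_b : ℕ → ℕ → ℕ → ℕ → Bool := onCell 1239849684 370763052 1610612736 536870912 33554432 16777216
    (rowNK 3 0 false true false .pnn 2 1 3 (qsf 1239849684 370763052 1610612736 536870912 1) ndN1q2b ndN1q3 pcN1 cut_pm_213_b Ext.none)

def k0_pm_213_b : ∃ t, chk3 f_pm_213_b t 1 1 1 = true :=
  ⟨(l 3), by decide +kernel⟩

theorem c_pm_213_b : CertN 1239849684 370763052 1610612736 536870912 33554432 16777216 3 false true false .pnn 2 1 3
    ndN1q2b ndN1q3 pcN1 cut_pm_213_b Ext.none :=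
  certNK0 (fam := false) (s1 := true) (s2 := false) (a := 2) (b := 1) (c := 3) (cn := .pnn) (n1 := ndN1q2b) (n2 := ndN1q3) (pc := pcN1) (cut := cut_pm_213_b) (xt := Ext.none) (P1 := 1239849684) (W1 := 370763052) (P2 := 1610612736) (W2 := 536870912) (P3 := 33554432) (W3 := 16777216) (N0 := 3)
    rfl rfl rfl k0_pm_213_b

noncomputable def f_pm_303 : ℕ → ℕ → ℕ → ℕ → Bool := onCell 1610612736 536870912 1610612736 536870912 33554432 16777216
    (rowNK 3 0 false true false .npn 3 0 3 (qsf 1610612736 536870912 1610612736 536870912 0) ndN1q3 ndN1q3 pcN0 Cut.none Ext.none)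

def k0_pm_303 : ∃ t, chk3 f_pm_303 t 1 1 1 = true :=
  ⟨(l 3), by decide +kernel⟩

theorem c_pm_303 : CertN 1610612736 536870912 1610612736 536870912 33554432 16777216 3 false true false .npn 3 0 3
    ndN1q3 ndN1q3 pcN0 Cut.none Ext.none :=
  certNK0 (fam := false) (s1 := true) (s2 := false) (a := 3) (b := 0) (c := 3) (cn := .npn) (n1 := ndN1q3) (n2 := ndN1q3) (pc := pcN0) (cut := Cut.none) (xt := Ext.none) (P1 := 1610612736) (W1 := 536870912) (P2 := 1610612736) (W2 := 536870912) (P3 := 33554432) (W3 := 16777216) (N0 := 3)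
    rfl rfl rfl k0_pm_303

noncomputable def f_pm_313 : ℕ → ℕ → ℕ → ℕ → Bool := onCell 1610612736 536870912 1610612736 536870912 33554432 16777216
    (rowNK 3 0 false true false .dn 3 1 3 (qsf 1610612736 536870912 1610612736 536870912 1) ndN1q3 ndN1q3 pcN1 Cut.none Ext.none)

def k0_pm_313 : ∃ t, chk3 f_pm_313 t 1 1 1 = true :=
  ⟨(l 3), by decide +kernel⟩

theorem c_pm_313 : CertN 1610612736 536870912 1610612736 536870912 33554432 16777216 3 false true false .dn 3 1 3
    ndN1q3 ndN1q3 pcN1 Cut.none Ext.none :=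
  certNK0 (fam := false) (s1 := true) (s2 := false) (a := 3) (b := 1) (c := 3) (cn := .dn) (n1 := ndN1q3) (n2 := ndN1q3) (pc := pcN1) (cut := Cut.none) (xt := Ext.none) (P1 := 1610612736) (W1 := 536870912) (P2 := 1610612736) (W2 := 536870912) (P3 := 33554432) (W3 := 16777216) (N0 := 3)
    rfl rfl rfl k0_pm_313

noncomputable def f_mm_001 : ℕ → ℕ → ℕ → ℕ → Bool := onCell 0 536870912 536870912 536870912 33554432 16777216
    (rowNK 3 0 false false false .up 0 0 1 (qsf 0 536870912 536870912 536870912 0) ndN1q0 ndN1q1 pcN0 Cut.none Ext.none)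

def k0_mm_001 : ∃ t, chk3 f_mm_001 t 1 1 1 = true :=
  ⟨(l 3), by decide +kernel⟩

theorem c_mm_001 : CertN 0 536870912 536870912 536870912 33554432 16777216 3 false false false .up 0 0 1
    ndN1q0 ndN1q1 pcN0 Cut.none Ext.none :=
  certNK0 (fam := false) (s1 := false) (s2 := false) (a := 0) (b := 0) (c := 1) (cn := .up) (n1 := ndN1q0) (n2 := ndN1q1) (pc := pcN0) (cut := Cut.none) (xt := Ext.none) (P1 := 0) (W1 := 536870912) (P2 := 536870912) (W2 := 536870912) (P3 := 33554432) (W3 := 16777216) (N0 := 3)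
    rfl rfl rfl k0_mm_001

noncomputable def f_mm_011 : ℕ → ℕ → ℕ → ℕ → Bool := onCell 0 536870912 536870912 536870912 33554432 16777216
    (rowNK 3 0 false false false .pnn 0 1 1 (qsf 0 536870912 536870912 536870912 1) ndN1q0 ndN1q1 pcN1 Cut.none Ext.none)

def k0_mm_011 : ∃ t, chk3 f_mm_011 t 1 1 1 = true :=
  ⟨(l 3), by decide +kernel⟩

theorem c_mm_011 : CertN 0 536870912 536870912 536870912 33554432 16777216 3 false false false .pnn 0 1 1
    ndN1q0 ndN1q1 pcN1 Cut.none Ext.none :=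
  certNK0 (fam := false) (s1 := false) (s2 := false) (a := 0) (b := 1) (c := 1) (cn := .pnn) (n1 := ndN1q0) (n2 := ndN1q1) (pc := pcN1) (cut := Cut.none) (xt := Ext.none) (P1 := 0) (W1 := 536870912) (P2 := 536870912) (W2 := 536870912) (P3 := 33554432) (W3 := 16777216) (N0 := 3)
    rfl rfl rfl k0_mm_011

noncomputable def f_mm_012_a : ℕ → ℕ → ℕ → ℕ → Bool := onCell 0 536870912 0 536870912 33554432 16777216
    (rowNK 3 0 false false false .pnp 0 1 2 (qsf 0 536870912 0 536870912 1) ndN1q0 ndN1q2a pcN1 Cut.none Ext.none)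

def k0_mm_012_a : ∃ t, chk3 f_mm_012_a t 1 1 1 = true :=
  ⟨(l 5), by decide +kernel⟩

theorem c_mm_012_a : CertN 0 536870912 0 536870912 33554432 16777216 3 false false false .pnp 0 1 2
    ndN1q0 ndN1q2a pcN1 Cut.none Ext.none :=
  certNK0 (fam := false) (s1 := false) (s2 := false) (a := 0) (b := 1) (c := 2) (cn := .pnp) (n1 := ndN1q0) (n2 := ndN1q2a) (pc := pcN1) (cut := Cut.none) (xt := Ext.none) (P1 := 0) (W1 := 536870912) (P2 := 0) (W2 := 536870912) (P3 := 33554432) (W3 := 16777216) (N0 := 3)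
    rfl rfl rfl k0_mm_012_a

noncomputable def f_mm_012_b : ℕ → ℕ → ℕ → ℕ → Bool := onCell 0 536870912 1239849684 370763052 33554432 16777216
    (rowNK 3 0 false false false .pnp 0 1 2 (qsf 0 536870912 1239849684 370763052 1) ndN1q0 ndN1q2b pcN1 Cut.none Ext.none)

def k0_mm_012_b : ∃ t, chk3 f_mm_012_b t 1 1 1 = true :=
  ⟨(l 5), by decide +kernel⟩

theorem c_mm_012_b : CertN 0 536870912 1239849684 370763052 33554432 16777216 3 false false false .pnp 0 1 2
    ndN1q0 ndN1q2b pcN1 Cut.none Ext.none :=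
  certNK0 (fam := false) (s1 := false) (s2 := false) (a := 0) (b := 1) (c := 2) (cn := .pnp) (n1 := ndN1q0) (n2 := ndN1q2b) (pc := pcN1) (cut := Cut.none) (xt := Ext.none) (P1 := 0) (W1 := 536870912) (P2 := 1239849684) (W2 := 370763052) (P3 := 33554432) (W3 := 16777216) (N0 := 3)
    rfl rfl rfl k0_mm_012_b

noncomputable def f_mm_022_a : ℕ → ℕ → ℕ → ℕ → Bool := onCell 0 536870912 0 536870912 33554432 16777216
    (rowNK 3 0 false false false .pp 0 2 2 (qsf 0 536870912 0 536870912 2) ndN1q0 ndN1q2a pcN2 Cut.none Ext.none)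

def k0_mm_022_a : ∃ t, chk3 f_mm_022_a t 1 1 1 = true :=
  ⟨(l 5), by decide +kernel⟩

theorem c_mm_022_a : CertN 0 536870912 0 536870912 33554432 16777216 3 false false false .pp 0 2 2
    ndN1q0 ndN1q2a pcN2 Cut.none Ext.none :=
  certNK0 (fam := false) (s1 := false) (s2 := false) (a := 0) (b := 2) (c := 2) (cn := .pp) (n1 := ndN1q0) (n2 := ndN1q2a) (pc := pcN2) (cut := Cut.none) (xt := Ext.none) (P1 := 0) (W1 := 536870912) (P2 := 0) (W2 := 536870912) (P3 := 33554432) (W3 := 16777216) (N0 := 3)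
    rfl rfl rfl k0_mm_022_a

noncomputable def f_mm_022_b : ℕ → ℕ → ℕ → ℕ → Bool := onCell 0 536870912 1239849684 370763052 33554432 16777216
    (rowNK 3 0 false false false .pp 0 2 2 (qsf 0 536870912 1239849684 370763052 2) ndN1q0 ndN1q2b pcN2 Cut.none Ext.none)

def k0_mm_022_b : ∃ t, chk3 f_mm_022_b t 1 1 1 = true :=
  ⟨(l 5), by decide +kernel⟩

theorem c_mm_022_b : CertN 0 536870912 1239849684 370763052 33554432 16777216 3 false false false .pp 0 2 2
    ndN1q0 ndN1q2b pcN2 Cut.none Ext.none :=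
  certNK0 (fam := false) (s1 := false) (s2 := false) (a := 0) (b := 2) (c := 2) (cn := .pp) (n1 := ndN1q0) (n2 := ndN1q2b) (pc := pcN2) (cut := Cut.none) (xt := Ext.none) (P1 := 0) (W1 := 536870912) (P2 := 1239849684) (W2 := 370763052) (P3 := 33554432) (W3 := 16777216) (N0 := 3)
    rfl rfl rfl k0_mm_022_b

noncomputable def f_mm_023 : ℕ → ℕ → ℕ → ℕ → Bool := onCell 0 536870912 1610612736 536870912 33554432 16777216
    (rowNK 3 0 false false false .up 0 2 3 (qsf 0 536870912 1610612736 536870912 2) ndN1q0 ndN1q3 pcN2 Cut.none Ext.none)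

def k0_mm_023 : ∃ t, chk3 f_mm_023 t 1 1 1 = true :=
  ⟨(l 5), by decide +kernel⟩

theorem c_mm_023 : CertN 0 536870912 1610612736 536870912 33554432 16777216 3 false false false .up 0 2 3
    ndN1q0 ndN1q3 pcN2 Cut.none Ext.none :=
  certNK0 (fam := false) (s1 := false) (s2 := false) (a := 0) (b := 2) (c := 3) (cn := .up) (n1 := ndN1q0) (n2 := ndN1q3) (pc := pcN2) (cut := Cut.none) (xt := Ext.none) (P1 := 0) (W1 := 536870912) (P2 := 1610612736) (W2 := 536870912) (P3 := 33554432) (W3 := 16777216) (N0 := 3)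
    rfl rfl rfl k0_mm_023

noncomputable def f_mm_033 : ℕ → ℕ → ℕ → ℕ → Bool := onCell 0 536870912 1610612736 536870912 33554432 16777216
    (rowNK 3 0 false false false .pnn 0 3 3 (qsf 0 536870912 1610612736 536870912 3) ndN1q0 ndN1q3 pcN3 Cut.none Ext.none)

def k0_mm_033 : ∃ t, chk3 f_mm_033 t 1 1 1 = true :=
  ⟨(l 5), by decide +kernel⟩

theorem c_mm_033 : CertN 0 536870912 1610612736 536870912 33554432 16777216 3 false false false .pnn 0 3 3
    ndN1q0 ndN1q3 pcN3 Cut.none Ext.none :=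
  certNK0 (fam := false) (s1 := false) (s2 := false) (a := 0) (b := 3) (c := 3) (cn := .pnn) (n1 := ndN1q0) (n2 := ndN1q3) (pc := pcN3) (cut := Cut.none) (xt := Ext.none) (P1 := 0) (W1 := 536870912) (P2 := 1610612736) (W2 := 536870912) (P3 := 33554432) (W3 := 16777216) (N0 := 3)
    rfl rfl rfl k0_mm_033

noncomputable def f_mm_101 : ℕ → ℕ → ℕ → ℕ → Bool := onCell 536870912 536870912 536870912 536870912 33554432 16777216
    (rowNK 3 0 false false false .npn 1 0 1 (qsf 536870912 536870912 536870912 536870912 0) ndN1q1 ndN1q1 pcN0 Cut.none Ext.none)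

def k0_mm_101 : ∃ t, chk3 f_mm_101 t 1 1 1 = true :=
  ⟨(l 3), by decide +kernel⟩

theorem c_mm_101 : CertN 536870912 536870912 536870912 536870912 33554432 16777216 3 false false false .npn 1 0 1
    ndN1q1 ndN1q1 pcN0 Cut.none Ext.none :=
  certNK0 (fam := false) (s1 := false) (s2 := false) (a := 1) (b := 0) (c := 1) (cn := .npn) (n1 := ndN1q1) (n2 := ndN1q1) (pc := pcN0) (cut := Cut.none) (xt := Ext.none) (P1 := 536870912) (W1 := 536870912) (P2 := 536870912) (W2 := 536870912) (P3 := 33554432) (W3 := 16777216) (N0 := 3)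
    rfl rfl rfl k0_mm_101

noncomputable def f_mm_102_a : ℕ → ℕ → ℕ → ℕ → Bool := onCell 536870912 536870912 0 536870912 33554432 16777216
    (rowNK 3 0 false false false .npp 1 0 2 (qsf 536870912 536870912 0 536870912 0) ndN1q1 ndN1q2a pcN0 Cut.none Ext.none)

def k0_mm_102_a : ∃ t, chk3 f_mm_102_a t 1 1 1 = true :=
  ⟨(l 5), by decide +kernel⟩

theorem c_mm_102_a : CertN 536870912 536870912 0 536870912 33554432 16777216 3 false false false .npp 1 0 2
    ndN1q1 ndN1q2a pcN0 Cut.none Ext.none :=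
  certNK0 (fam := false) (s1 := false) (s2 := false) (a := 1) (b := 0) (c := 2) (cn := .npp) (n1 := ndN1q1) (n2 := ndN1q2a) (pc := pcN0) (cut := Cut.none) (xt := Ext.none) (P1 := 536870912) (W1 := 536870912) (P2 := 0) (W2 := 536870912) (P3 := 33554432) (W3 := 16777216) (N0 := 3)
    rfl rfl rfl k0_mm_102_a

noncomputable def f_mm_102_b : ℕ → ℕ → ℕ → ℕ → Bool := onCell 536870912 536870912 1239849684 370763052 33554432 16777216
    (rowNK 3 0 false false false .npp 1 0 2 (qsf 536870912 536870912 1239849684 370763052 0) ndN1q1 ndN1q2b pcN0 Cut.none Ext.none)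

def k0_mm_102_b : ∃ t, chk3 f_mm_102_b t 1 1 1 = true :=
  ⟨(l 5), by decide +kernel⟩

theorem c_mm_102_b : CertN 536870912 536870912 1239849684 370763052 33554432 16777216 3 false false false .npp 1 0 2
    ndN1q1 ndN1q2b pcN0 Cut.none Ext.none :=
  certNK0 (fam := false) (s1 := false) (s2 := false) (a := 1) (b := 0) (c := 2) (cn := .npp) (n1 := ndN1q1) (n2 := ndN1q2b) (pc := pcN0) (cut := Cut.none) (xt := Ext.none) (P1 := 536870912) (W1 := 536870912) (P2 := 1239849684) (W2 := 370763052) (P3 := 33554432) (W3 := 16777216) (N0 := 3)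
    rfl rfl rfl k0_mm_102_b

noncomputable def f_mm_112_a : ℕ → ℕ → ℕ → ℕ → Bool := onCell 536870912 536870912 0 536870912 33554432 16777216
    (rowNK 3 0 false false false .dn 1 1 2 (qsf 536870912 536870912 0 536870912 1) ndN1q1 ndN1q2a pcN1 Cut.none Ext.none)

def k0_mm_112_a : ∃ t, chk3 f_mm_112_a t 1 1 1 = true :=
  ⟨(l 5), by decide +kernel⟩

theorem c_mm_112_a : CertN 536870912 536870912 0 536870912 33554432 16777216 3 false false false .dn 1 1 2
    ndN1q1 ndN1q2a pcN1 Cut.none Ext.none :=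
  certNK0 (fam := false) (s1 := false) (s2 := false) (a := 1) (b := 1) (c := 2) (cn := .dn) (n1 := ndN1q1) (n2 := ndN1q2a) (pc := pcN1) (cut := Cut.none) (xt := Ext.none) (P1 := 536870912) (W1 := 536870912) (P2 := 0) (W2 := 536870912) (P3 := 33554432) (W3 := 16777216) (N0 := 3)
    rfl rfl rfl k0_mm_112_a

noncomputable def f_mm_112_b : ℕ → ℕ → ℕ → ℕ → Bool := onCell 536870912 536870912 1239849684 370763052 33554432 16777216
    (rowNK 3 0 false false false .dn 1 1 2 (qsf 536870912 536870912 1239849684 370763052 1) ndN1q1 ndN1q2b pcN1 Cut.none Ext.none)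

def k0_mm_112_b : ∃ t, chk3 f_mm_112_b t 1 1 1 = true :=
  ⟨(l 5), by decide +kernel⟩

theorem c_mm_112_b : CertN 536870912 536870912 1239849684 370763052 33554432 16777216 3 false false false .dn 1 1 2
    ndN1q1 ndN1q2b pcN1 Cut.none Ext.none :=
  certNK0 (fam := false) (s1 := false) (s2 := false) (a := 1) (b := 1) (c := 2) (cn := .dn) (n1 := ndN1q1) (n2 := ndN1q2b) (pc := pcN1) (cut := Cut.none) (xt := Ext.none) (P1 := 536870912) (W1 := 536870912) (P2 := 1239849684) (W2 := 370763052) (P3 := 33554432) (W3 := 16777216) (N0 := 3)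
    rfl rfl rfl k0_mm_112_b

noncomputable def f_mm_113 : ℕ → ℕ → ℕ → ℕ → Bool := onCell 536870912 536870912 1610612736 536870912 33554432 16777216
    (rowNK 3 0 false false false .nn 1 1 3 (qsf 536870912 536870912 1610612736 536870912 1) ndN1q1 ndN1q3 pcN1 Cut.none Ext.none)

def k0_mm_113 : ∃ t, chk3 f_mm_113 t 1 1 1 = true :=
  ⟨(l 5), by decide +kernel⟩

theorem c_mm_113 : CertN 536870912 536870912 1610612736 536870912 33554432 16777216 3 false false false .nn 1 1 3
    ndN1q1 ndN1q3 pcN1 Cut.none Ext.none :=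
  certNK0 (fam := false) (s1 := false) (s2 := false) (a := 1) (b := 1) (c := 3) (cn := .nn) (n1 := ndN1q1) (n2 := ndN1q3) (pc := pcN1) (cut := Cut.none) (xt := Ext.none) (P1 := 536870912) (W1 := 536870912) (P2 := 1610612736) (W2 := 536870912) (P3 := 33554432) (W3 := 16777216) (N0 := 3)
    rfl rfl rfl k0_mm_113

noncomputable def f_mm_123 : ℕ → ℕ → ℕ → ℕ → Bool := onCell 536870912 536870912 1610612736 536870912 33554432 16777216
    (rowNK 3 0 false false false .npn 1 2 3 (qsf 536870912 536870912 1610612736 536870912 2) ndN1q1 ndN1q3 pcN2 Cut.none Ext.none)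

def k0_mm_123 : ∃ t, chk3 f_mm_123 t 1 1 1 = true :=
  ⟨(l 5), by decide +kernel⟩

theorem c_mm_123 : CertN 536870912 536870912 1610612736 536870912 33554432 16777216 3 false false false .npn 1 2 3
    ndN1q1 ndN1q3 pcN2 Cut.none Ext.none :=
  certNK0 (fam := false) (s1 := false) (s2 := false) (a := 1) (b := 2) (c := 3) (cn := .npn) (n1 := ndN1q1) (n2 := ndN1q3) (pc := pcN2) (cut := Cut.none) (xt := Ext.none) (P1 := 536870912) (W1 := 536870912) (P2 := 1610612736) (W2 := 536870912) (P3 := 33554432) (W3 := 16777216) (N0 := 3)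
    rfl rfl rfl k0_mm_123

noncomputable def f_mm_133 : ℕ → ℕ → ℕ → ℕ → Bool := onCell 536870912 536870912 1610612736 536870912 33554432 16777216
    (rowNK 3 0 false false false .dn 1 3 3 (qsf 536870912 536870912 1610612736 536870912 3) ndN1q1 ndN1q3 pcN3 Cut.none Ext.none)

def k0_mm_133 : ∃ t, chk3 f_mm_133 t 1 1 1 = true :=
  ⟨(l 5), by decide +kernel⟩

theorem c_mm_133 : CertN 536870912 536870912 1610612736 536870912 33554432 16777216 3 false false false .dn 1 3 3
    ndN1q1 ndN1q3 pcN3 Cut.none Ext.none :=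
  certNK0 (fam := false) (s1 := false) (s2 := false) (a := 1) (b := 3) (c := 3) (cn := .dn) (n1 := ndN1q1) (n2 := ndN1q3) (pc := pcN3) (cut := Cut.none) (xt := Ext.none) (P1 := 536870912) (W1 := 536870912) (P2 := 1610612736) (W2 := 536870912) (P3 := 33554432) (W3 := 16777216) (N0 := 3)
    rfl rfl rfl k0_mm_133

noncomputable def f_mm_202_aa : ℕ → ℕ → ℕ → ℕ → Bool := onCell 0 536870912 0 536870912 33554432 16777216
    (rowNK 3 0 false false false .pp 2 0 2 (qsf 0 536870912 0 536870912 0) ndN1q2a ndN1q2a pcN0 Cut.none Ext.none)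

def k0_mm_202_aa : ∃ t, chk3 f_mm_202_aa t 1 1 1 = true :=
  ⟨(l 3), by decide +kernel⟩

theorem c_mm_202_aa : CertN 0 536870912 0 536870912 33554432 16777216 3 false false false .pp 2 0 2
    ndN1q2a ndN1q2a pcN0 Cut.none Ext.none :=
  certNK0 (fam := false) (s1 := false) (s2 := false) (a := 2) (b := 0) (c := 2) (cn := .pp) (n1 := ndN1q2a) (n2 := ndN1q2a) (pc := pcN0) (cut := Cut.none) (xt := Ext.none) (P1 := 0) (W1 := 536870912) (P2 := 0) (W2 := 536870912) (P3 := 33554432) (W3 := 16777216) (N0 := 3)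
    rfl rfl rfl k0_mm_202_aa

noncomputable def f_mm_202_ab : ℕ → ℕ → ℕ → ℕ → Bool := onCell 0 536870912 1239849684 370763052 33554432 16777216
    (rowNK 3 0 false false false .pp 2 0 2 (qsf 0 536870912 1239849684 370763052 0) ndN1q2a ndN1q2b pcN0 Cut.none Ext.none)

def k0_mm_202_ab : ∃ t, chk3 f_mm_202_ab t 1 1 1 = true :=
  ⟨(l 3), by decide +kernel⟩

theorem c_mm_202_ab : CertN 0 536870912 1239849684 370763052 33554432 16777216 3 false false false .pp 2 0 2
    ndN1q2a ndN1q2b pcN0 Cut.none Ext.none :=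
  certNK0 (fam := false) (s1 := false) (s2 := false) (a := 2) (b := 0) (c := 2) (cn := .pp) (n1 := ndN1q2a) (n2 := ndN1q2b) (pc := pcN0) (cut := Cut.none) (xt := Ext.none) (P1 := 0) (W1 := 536870912) (P2 := 1239849684) (W2 := 370763052) (P3 := 33554432) (W3 := 16777216) (N0 := 3)
    rfl rfl rfl k0_mm_202_ab

noncomputable def f_mm_202_ba : ℕ → ℕ → ℕ → ℕ → Bool := onCell 1239849684 370763052 0 536870912 33554432 16777216
    (rowNK 3 0 false false false .pp 2 0 2 (qsf 1239849684 370763052 0 536870912 0) ndN1q2b ndN1q2a pcN0 Cut.none Ext.none)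

def k0_mm_202_ba : ∃ t, chk3 f_mm_202_ba t 1 1 1 = true :=
  ⟨(l 3), by decide +kernel⟩

theorem c_mm_202_ba : CertN 1239849684 370763052 0 536870912 33554432 16777216 3 false false false .pp 2 0 2
    ndN1q2b ndN1q2a pcN0 Cut.none Ext.none :=
  certNK0 (fam := false) (s1 := false) (s2 := false) (a := 2) (b := 0) (c := 2) (cn := .pp) (n1 := ndN1q2b) (n2 := ndN1q2a) (pc := pcN0) (cut := Cut.none) (xt := Ext.none) (P1 := 1239849684) (W1 := 370763052) (P2 := 0) (W2 := 536870912) (P3 := 33554432) (W3 := 16777216) (N0 := 3)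
    rfl rfl rfl k0_mm_202_ba

noncomputable def f_mm_202_bb : ℕ → ℕ → ℕ → ℕ → Bool := onCell 1239849684 370763052 1239849684 370763052 33554432 16777216
    (rowNK 3 0 false false false .pp 2 0 2 (qsf 1239849684 370763052 1239849684 370763052 0) ndN1q2b ndN1q2b pcN0 Cut.none Ext.none)

def k0_mm_202_bb : ∃ t, chk3 f_mm_202_bb t 1 1 1 = true :=
  ⟨(l 3), by decide +kernel⟩

theorem c_mm_202_bb : CertN 1239849684 370763052 1239849684 370763052 33554432 16777216 3 false false false .pp 2 0 2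
    ndN1q2b ndN1q2b pcN0 Cut.none Ext.none :=
  certNK0 (fam := false) (s1 := false) (s2 := false) (a := 2) (b := 0) (c := 2) (cn := .pp) (n1 := ndN1q2b) (n2 := ndN1q2b) (pc := pcN0) (cut := Cut.none) (xt := Ext.none) (P1 := 1239849684) (W1 := 370763052) (P2 := 1239849684) (W2 := 370763052) (P3 := 33554432) (W3 := 16777216) (N0 := 3)
    rfl rfl rfl k0_mm_202_bb

noncomputable def f_mm_203_a : ℕ → ℕ → ℕ → ℕ → Bool := onCell 0 536870912 1610612736 536870912 33554432 16777216
    (rowNK 3 0 false false false .up 2 0 3 (qsf 0 536870912 1610612736 536870912 0) ndN1q2a ndN1q3 pcN0 Cut.none Ext.none)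

def k0_mm_203_a : ∃ t, chk3 f_mm_203_a t 1 1 1 = true :=
  ⟨(l 5), by decide +kernel⟩

theorem c_mm_203_a : CertN 0 536870912 1610612736 536870912 33554432 16777216 3 false false false .up 2 0 3
    ndN1q2a ndN1q3 pcN0 Cut.none Ext.none :=
  certNK0 (fam := false) (s1 := false) (s2 := false) (a := 2) (b := 0) (c := 3) (cn := .up) (n1 := ndN1q2a) (n2 := ndN1q3) (pc := pcN0) (cut := Cut.none) (xt := Ext.none) (P1 := 0) (W1 := 536870912) (P2 := 1610612736) (W2 := 536870912) (P3 := 33554432) (W3 := 16777216) (N0 := 3)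
    rfl rfl rfl k0_mm_203_a

noncomputable def f_mm_203_b : ℕ → ℕ → ℕ → ℕ → Bool := onCell 1239849684 370763052 1610612736 536870912 33554432 16777216
    (rowNK 3 0 false false false .up 2 0 3 (qsf 1239849684 370763052 1610612736 536870912 0) ndN1q2b ndN1q3 pcN0 Cut.none Ext.none)

def k0_mm_203_b : ∃ t, chk3 f_mm_203_b t 1 1 1 = true :=
  ⟨(l 3), by decide +kernel⟩

theorem c_mm_203_b : CertN 1239849684 370763052 1610612736 536870912 33554432 16777216 3 false false false .up 2 0 3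
    ndN1q2b ndN1q3 pcN0 Cut.none Ext.none :=
  certNK0 (fam := false) (s1 := false) (s2 := false) (a := 2) (b := 0) (c := 3) (cn := .up) (n1 := ndN1q2b) (n2 := ndN1q3) (pc := pcN0) (cut := Cut.none) (xt := Ext.none) (P1 := 1239849684) (W1 := 370763052) (P2 := 1610612736) (W2 := 536870912) (P3 := 33554432) (W3 := 16777216) (N0 := 3)
    rfl rfl rfl k0_mm_203_b

noncomputable def f_mm_213_a : ℕ → ℕ → ℕ → ℕ → Bool := onCell 0 536870912 1610612736 536870912 33554432 16777216
    (rowNK 3 0 false false false .pnn 2 1 3 (qsf 0 536870912 1610612736 536870912 1) ndN1q2a ndN1q3 pcN1 Cut.none Ext.none)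

def k0_mm_213_a : ∃ t, chk3 f_mm_213_a t 1 1 1 = true :=
  ⟨(l 5), by decide +kernel⟩

theorem c_mm_213_a : CertN 0 536870912 1610612736 536870912 33554432 16777216 3 false false false .pnn 2 1 3
    ndN1q2a ndN1q3 pcN1 Cut.none Ext.none :=
  certNK0 (fam := false) (s1 := false) (s2 := false) (a := 2) (b := 1) (c := 3) (cn := .pnn) (n1 := ndN1q2a) (n2 := ndN1q3) (pc := pcN1) (cut := Cut.none) (xt := Ext.none) (P1 := 0) (W1 := 536870912) (P2 := 1610612736) (W2 := 536870912) (P3 := 33554432) (W3 := 16777216) (N0 := 3)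
    rfl rfl rfl k0_mm_213_a

noncomputable def f_mm_213_b : ℕ → ℕ → ℕ → ℕ → Bool := onCell 1239849684 370763052 1610612736 536870912 33554432 16777216
    (rowNK 3 0 false false false .pnn 2 1 3 (qsf 1239849684 370763052 1610612736 536870912 1) ndN1q2b ndN1q3 pcN1 Cut.none Ext.none)

def k0_mm_213_b : ∃ t, chk3 f_mm_213_b t 1 1 1 = true :=
  ⟨(l 3), by decide +kernel⟩

theorem c_mm_213_b : CertN 1239849684 370763052 1610612736 536870912 33554432 16777216 3 false false false .pnn 2 1 3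
    ndN1q2b ndN1q3 pcN1 Cut.none Ext.none :=
  certNK0 (fam := false) (s1 := false) (s2 := false) (a := 2) (b := 1) (c := 3) (cn := .pnn) (n1 := ndN1q2b) (n2 := ndN1q3) (pc := pcN1) (cut := Cut.none) (xt := Ext.none) (P1 := 1239849684) (W1 := 370763052) (P2 := 1610612736) (W2 := 536870912) (P3 := 33554432) (W3 := 16777216) (N0 := 3)
    rfl rfl rfl k0_mm_213_b

noncomputable def f_mm_303 : ℕ → ℕ → ℕ → ℕ → Bool := onCell 1610612736 536870912 1610612736 536870912 33554432 16777216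
    (rowNK 3 0 false false false .npn 3 0 3 (qsf 1610612736 536870912 1610612736 536870912 0) ndN1q3 ndN1q3 pcN0 Cut.none Ext.none)

def k0_mm_303 : ∃ t, chk3 f_mm_303 t 1 1 1 = true :=
  ⟨(l 3), by decide +kernel⟩

theorem c_mm_303 : CertN 1610612736 536870912 1610612736 536870912 33554432 16777216 3 false false false .npn 3 0 3
    ndN1q3 ndN1q3 pcN0 Cut.none Ext.none :=
  certNK0 (fam := false) (s1 := false) (s2 := false) (a := 3) (b := 0) (c := 3) (cn := .npn) (n1 := ndN1q3) (n2 := ndN1q3) (pc := pcN0) (cut := Cut.none) (xt := Ext.none) (P1 := 1610612736) (W1 := 536870912) (P2 := 1610612736) (W2 := 536870912) (P3 := 33554432) (W3 := 16777216) (N0 := 3)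
    rfl rfl rfl k0_mm_303

noncomputable def f_mm_313 : ℕ → ℕ → ℕ → ℕ → Bool := onCell 1610612736 536870912 1610612736 536870912 33554432 16777216
    (rowNK 3 0 false false false .dn 3 1 3 (qsf 1610612736 536870912 1610612736 536870912 1) ndN1q3 ndN1q3 pcN1 Cut.none Ext.none)

def k0_mm_313 : ∃ t, chk3 f_mm_313 t 1 1 1 = true :=
  ⟨(l 3), by decide +kernel⟩

theorem c_mm_313 : CertN 1610612736 536870912 1610612736 536870912 33554432 16777216 3 false false false .dn 3 1 3
    ndN1q3 ndN1q3 pcN1 Cut.none Ext.none :=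
  certNK0 (fam := false) (s1 := false) (s2 := false) (a := 3) (b := 1) (c := 3) (cn := .dn) (n1 := ndN1q3) (n2 := ndN1q3) (pc := pcN1) (cut := Cut.none) (xt := Ext.none) (P1 := 1610612736) (W1 := 536870912) (P2 := 1610612736) (W2 := 536870912) (P3 := 33554432) (W3 := 16777216) (N0 := 3)
    rfl rfl rfl k0_mm_313

end Pool.Agent.Strip051.G.I1_32_3_64.Tab.C.NB11

namespace Pool.Agent.Strip051.G.I1_32_3_64.Tab.C.NB12

open Pool.Agent.Strip051.PB Pool.Agent.Strip051.PB.T
open Pool.Agent.Strip051.G.I1_32_3_64.Tab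

noncomputable def f_pp_001 : ℕ → ℕ → ℕ → ℕ → Bool := onCell 0 536870912 0 536870912 33554432 16777216
    (rowNK 3 1 false true true .up 0 0 1 (qsf 0 536870912 536870912 536870912 0) ndN1q0 ndN2q1 pcN0 Cut.none Ext.none)

def k0_pp_001 : ∃ t, chk3 f_pp_001 t 1 1 1 = true :=
  ⟨(l 3), by decide +kernel⟩

theorem c_pp_001 : CertN 0 536870912 536870912 536870912 33554432 16777216 3 false true true .up 0 0 1
    ndN1q0 ndN2q1 pcN0 Cut.none Ext.none :=
  certNK1 (fam := false) (s1 := true) (s2 := true) (a := 0) (b := 0) (c := 1) (cn := .up) (n1 := ndN1q0) (n2 := ndN2q1) (pc := pcN0) (cut := Cut.none) (xt := Ext.none) (P1 := 0) (W1 := 536870912) (P2 := 536870912) (W2 := 536870912) (P3 := 33554432) (W3 := 16777216) (N0 := 3)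
    rfl rfl rfl (fun _ => rfl) k0_pp_001

noncomputable def cut_pp_011 : Cut := Cut.of [[⟨0, 0, 0, 33554432⟩, ⟨1, 1, 0, 33554432⟩, ⟨2, 1, 0, 33554432⟩]]

noncomputable def f_pp_011 : ℕ → ℕ → ℕ → ℕ → Bool := onCell 0 536870912 536870912 536870912 33554432 16777216
    (rowNK 3 1 false true true .pnn 0 1 1 (qsf 0 536870912 536870912 536870912 1) ndN1q0 ndN2q1 pcN1 cut_pp_011 Ext.none)

def k0_pp_011 : ∃ t, chk3 f_pp_011 t 1 1 1 = true :=
  ⟨(a (b (l 3) (a (b (l 3) (a (b (l 3) (a (b (l 3) (a (b (l 3) (l 6)) (l 3))) (l 3))) (l 3))) (l 3))) (l 3)), by decide +kernel⟩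

theorem c_pp_011 : CertN 0 536870912 536870912 536870912 33554432 16777216 3 false true true .pnn 0 1 1
    ndN1q0 ndN2q1 pcN1 cut_pp_011 Ext.none :=
  certNK1 (fam := false) (s1 := true) (s2 := true) (a := 0) (b := 1) (c := 1) (cn := .pnn) (n1 := ndN1q0) (n2 := ndN2q1) (pc := pcN1) (cut := cut_pp_011) (xt := Ext.none) (P1 := 0) (W1 := 536870912) (P2 := 536870912) (W2 := 536870912) (P3 := 33554432) (W3 := 16777216) (N0 := 3)
    rfl rfl rfl (fun _ => rfl) k0_pp_011

noncomputable def cut_pp_012_a : Cut := Cut.of [[⟨0, 0, 0, 33554432⟩, ⟨1, 1, 0, 33554432⟩, ⟨2, 1, 0, 33554432⟩]]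

noncomputable def f_pp_012_a : ℕ → ℕ → ℕ → ℕ → Bool := onCell 536870912 536870912 0 536870912 33554432 16777216
    (rowNK 3 2 false true true .pnp 0 1 2 (qsf 0 536870912 0 536870912 1) ndN1q0 ndN2q2a pcN1 cut_pp_012_a Ext.none)

def k0_pp_012_a : ∃ t, chk3 f_pp_012_a t 1 1 1 = true :=
  ⟨(a (l 3) (b (a (l 3) (a (l 17105976) (a (l 17636760) (l 18159496)))) (a (l 3) (b (a (l 17171624) (a (l 17316472) (a (l 17648632) (l 17946400)))) (a (l 3) (a (b (l 16923600) (b (l 16911392) (l 3))) (b (b (l 17396848) (b (l 17219936) (l 17073912))) (b (a (l 16845720) (b (l 16810664) (b (l 16792432) (l 16813872)))) (b (a (l 16841088) (a (l 16806032) (l 6))) (a (l 3) (l 6))))))))))), by decide +kernel⟩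

theorem c_pp_012_a : CertN 0 536870912 0 536870912 33554432 16777216 3 false true true .pnp 0 1 2
    ndN1q0 ndN2q2a pcN1 cut_pp_012_a Ext.none :=
  certNK2 (fam := false) (s1 := true) (s2 := true) (a := 0) (b := 1) (c := 2) (cn := .pnp) (n1 := ndN1q0) (n2 := ndN2q2a) (pc := pcN1) (cut := cut_pp_012_a) (xt := Ext.none) (P1 := 0) (W1 := 536870912) (P2 := 0) (W2 := 536870912) (P3 := 33554432) (W3 := 16777216) (N0 := 3)
    rfl rfl rfl (fun _ => rfl) k0_pp_012_a

noncomputable def cut_pp_012_b : Cut := Cut.of [[⟨0, 0, 0, 33554432⟩, ⟨1, 1, 0, 33554432⟩, ⟨2, 1, 0, 33554432⟩]]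

noncomputable def f_pp_012_b : ℕ → ℕ → ℕ → ℕ → Bool := onCell 536870912 536870912 1239849684 370763052 33554432 16777216
    (rowNK 3 2 false true true .pnp 0 1 2 (qsf 0 536870912 1239849684 370763052 1) ndN1q0 ndN2q2b pcN1 cut_pp_012_b Ext.none)

def k0_pp_012_b : ∃ t, chk3 f_pp_012_b t 1 1 1 = true :=
  ⟨(a (l 3) (a (a (b (l 3) (l 2)) (b (l 584284417175) (l 17351704))) (b (a (b (l 17381888) (l 17669112)) (b (l 18111600) (l 18291808))) (a (l 17903080) (l 18421944))))), by decide +kernel⟩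

theorem c_pp_012_b : CertN 0 536870912 1239849684 370763052 33554432 16777216 3 false true true .pnp 0 1 2
    ndN1q0 ndN2q2b pcN1 cut_pp_012_b Ext.none :=
  certNK2 (fam := false) (s1 := true) (s2 := true) (a := 0) (b := 1) (c := 2) (cn := .pnp) (n1 := ndN1q0) (n2 := ndN2q2b) (pc := pcN1) (cut := cut_pp_012_b) (xt := Ext.none) (P1 := 0) (W1 := 536870912) (P2 := 1239849684) (W2 := 370763052) (P3 := 33554432) (W3 := 16777216) (N0 := 3)
    rfl rfl rfl (fun _ => rfl) k0_pp_012_b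

noncomputable def cut_pp_022_a : Cut := Cut.of [[⟨0, 0, 0, 33554432⟩, ⟨1, 1, 0, 33554432⟩, ⟨2, 1, 0, 33554432⟩]]

noncomputable def f_pp_022_a : ℕ → ℕ → ℕ → ℕ → Bool := onCell 0 536870912 0 536870912 33554432 16777216
    (rowNK 3 0 false true true .pp 0 2 2 (qsf 0 536870912 0 536870912 2) ndN1q0 ndN2q2a pcN2 cut_pp_022_a Ext.none)

def k0_pp_022_a : ∃ t, chk3 f_pp_022_a t 1 1 1 = true :=
  ⟨(a (b (a (a (l 19320960) (b (l 18865024) (a (l 18803232) (b (l 18625208) (a (l 18517600) (b (l 18435488) (a (l 18352912) (l 18294264)))))))) (a (a (b (a (l 18566056) (b (l 18476192) (l 18439240))) (b (a (a (l 18463784) (l 18407224)) (l 18377536)) (l 18311544))) (l 18401496)) (l 1))) (a (b (b (a (l 18917840) (a (l 18458608) (b (a (b (l 18357408) (a (l 18313344) (l 18235616))) (l 18221000)) (l 18149104)))) (a (a (b (l 18812272) (l 18527440)) (l 18332144)) (a (b (a (l 18220736) (b (a (l 18159072) (l 18077112)) (l 18001448))) (a (a (l 17950296) (l 17877640)) (l 17837552)))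 (l 17937424)))) (a (b (a (b (a (a (b (l 18349464) (l 17843824)) (l 18122792)) (l 17992256)) (a (a (b (a (c (l 17972680) (b (l 17480496) (l 16998936))) (l 17626512)) (a (a (b (c (l 17576984) (l 16859088)) (l 16758528)) (l 17010384)) (l 17040312))) (b (l 17574384) (l 17016768))) (a (l 17262648) (l 17209112)))) (b (a (l 17818464) (b (l 17772000) (a (l 17549960) (l 17485104)))) (a (b (l 17333672) (a (b (l 17046272) (l 16799248)) (l 16902840))) (b (l 17242328) (l 16892120))))) (a (a (b (b (a (a (a (b (l 16722680) (l 16730568)) (l 16726928)) (l 16729480)) (l 16735000)) (l 6)) (l 6)) (a (b (b (l 16743048) (l 6)) (l 6)) (b (b (l 16751736) (l 16755424)) (l 1)))) (a (b (b (l 16743928) (l 1)) (l 1)) (l 1)))) (b (a (b (l 17570784) (l 1)) (l 1)) (l 1)))) (b (l 1) (l 1)))) (l 1)), by decide +kernel⟩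

theorem c_pp_022_a : CertN 0 536870912 0 536870912 33554432 16777216 3 false true true .pp 0 2 2
    ndN1q0 ndN2q2a pcN2 cut_pp_022_a Ext.none :=
  certNK0 (fam := false) (s1 := true) (s2 := true) (a := 0) (b := 2) (c := 2) (cn := .pp) (n1 := ndN1q0) (n2 := ndN2q2a) (pc := pcN2) (cut := cut_pp_022_a) (xt := Ext.none) (P1 := 0) (W1 := 536870912) (P2 := 0) (W2 := 536870912) (P3 := 33554432) (W3 := 16777216) (N0 := 3)
    rfl rfl rfl k0_pp_022_a

noncomputable def cut_pp_022_b : Cut := Cut.of [[⟨0, 0, 0, 33554432⟩, ⟨1, 1, 0, 33554432⟩, ⟨2, 1, 0, 33554432⟩]]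

noncomputable def f_pp_022_b : ℕ → ℕ → ℕ → ℕ → Bool := onCell 1073741824 536870912 1239849684 370763052 33554432 16777216
    (rowNK 3 2 false true true .pp 0 2 2 (qsf 0 536870912 1239849684 370763052 2) ndN1q0 ndN2q2b pcN2 cut_pp_022_b Ext.none)

def k0_pp_022_b : ∃ t, chk3 f_pp_022_b t 1 1 1 = true :=
  ⟨(a (a (a (a (a (a (l 18778648) (l 18804760)) (l 18847368)) (l 19011392)) (b (l 19109552) (l 19048968))) (b (b (a (l 19450856) (l 383364363991)) (l 19446544)) (l 19265048))) (b (a (b (l 1) (l 435978809639)) (l 1)) (a (l 19483264) (b (a (l 19616168) (l 1)) (l 19536192))))), by decide +kernel⟩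

theorem c_pp_022_b : CertN 0 536870912 1239849684 370763052 33554432 16777216 3 false true true .pp 0 2 2
    ndN1q0 ndN2q2b pcN2 cut_pp_022_b Ext.none :=
  certNK2 (fam := false) (s1 := true) (s2 := true) (a := 0) (b := 2) (c := 2) (cn := .pp) (n1 := ndN1q0) (n2 := ndN2q2b) (pc := pcN2) (cut := cut_pp_022_b) (xt := Ext.none) (P1 := 0) (W1 := 536870912) (P2 := 1239849684) (W2 := 370763052) (P3 := 33554432) (W3 := 16777216) (N0 := 3)
    rfl rfl rfl (fun _ => rfl) k0_pp_022_b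

noncomputable def f_pp_023 : ℕ → ℕ → ℕ → ℕ → Bool := onCell 0 536870912 1073741824 536870912 33554432 16777216
    (rowNK 3 1 false true true .up 0 2 3 (qsf 0 536870912 1610612736 536870912 2) ndN1q0 ndN2q3 pcN2 Cut.none Ext.none)

def k0_pp_023 : ∃ t, chk3 f_pp_023 t 1 1 1 = true :=
  ⟨(a (b (b (l 1) (l 342562922247)) (b (l 19543904) (l 19768352))) (b (b (b (b (b (b (l 18768552) (l 18781608)) (l 18800624)) (l 18833952)) (l 18901768)) (l 19018848)) (b (l 19098144) (l 18953208)))), by decide +kernel⟩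

theorem c_pp_023 : CertN 0 536870912 1610612736 536870912 33554432 16777216 3 false true true .up 0 2 3
    ndN1q0 ndN2q3 pcN2 Cut.none Ext.none :=
  certNK1 (fam := false) (s1 := true) (s2 := true) (a := 0) (b := 2) (c := 3) (cn := .up) (n1 := ndN1q0) (n2 := ndN2q3) (pc := pcN2) (cut := Cut.none) (xt := Ext.none) (P1 := 0) (W1 := 536870912) (P2 := 1610612736) (W2 := 536870912) (P3 := 33554432) (W3 := 16777216) (N0 := 3)
    rfl rfl rfl (fun _ => rfl) k0_pp_023

noncomputable def f_pp_033 : ℕ → ℕ → ℕ → ℕ → Bool := onCell 0 536870912 1610612736 536870912 33554432 16777216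
    (rowNK 3 1 false true true .pnn 0 3 3 (qsf 0 536870912 1610612736 536870912 3) ndN1q0 ndN2q3 pcN3 Cut.none Ext.none)

def k0_pp_033 : ∃ t, chk3 f_pp_033 t 1 1 1 = true :=
  ⟨(a (b (b (b (l 19264512) (l 19211832)) (b (l 19144136) (l 18730696))) (b (b (l 18532904) (l 18261816)) (a (l 4) (a (b (l 4) (l 2)) (l 2))))) (b (b (a (l 18392384) (l 17996256)) (a (l 18079928) (a (b (l 4) (l 2)) (l 2)))) (a (b (a (b (l 4) (l 2)) (l 2)) (l 2)) (l 2)))), by decide +kernel⟩

theorem c_pp_033 : CertN 0 536870912 1610612736 536870912 33554432 16777216 3 false true true .pnn 0 3 3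
    ndN1q0 ndN2q3 pcN3 Cut.none Ext.none :=
  certNK1 (fam := false) (s1 := true) (s2 := true) (a := 0) (b := 3) (c := 3) (cn := .pnn) (n1 := ndN1q0) (n2 := ndN2q3) (pc := pcN3) (cut := Cut.none) (xt := Ext.none) (P1 := 0) (W1 := 536870912) (P2 := 1610612736) (W2 := 536870912) (P3 := 33554432) (W3 := 16777216) (N0 := 3)
    rfl rfl rfl (fun _ => rfl) k0_pp_033

noncomputable def f_pp_101 : ℕ → ℕ → ℕ → ℕ → Bool := onCell 536870912 536870912 536870912 536870912 33554432 16777216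
    (rowNK 3 0 false true true .npn 1 0 1 (qsf 536870912 536870912 536870912 536870912 0) ndN1q1 ndN2q1 pcN0 Cut.none Ext.none)

def k0_pp_101 : ∃ t, chk3 f_pp_101 t 1 1 1 = true :=
  ⟨(l 3), by decide +kernel⟩

theorem c_pp_101 : CertN 536870912 536870912 536870912 536870912 33554432 16777216 3 false true true .npn 1 0 1
    ndN1q1 ndN2q1 pcN0 Cut.none Ext.none :=
  certNK0 (fam := false) (s1 := true) (s2 := true) (a := 1) (b := 0) (c := 1) (cn := .npn) (n1 := ndN1q1) (n2 := ndN2q1) (pc := pcN0) (cut := Cut.none) (xt := Ext.none) (P1 := 536870912) (W1 := 536870912) (P2 := 536870912) (W2 := 536870912) (P3 := 33554432) (W3 := 16777216) (N0 := 3)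
    rfl rfl rfl k0_pp_101

noncomputable def f_pp_102_a : ℕ → ℕ → ℕ → ℕ → Bool := onCell 536870912 536870912 0 536870912 33554432 16777216
    (rowNK 3 0 false true true .npp 1 0 2 (qsf 536870912 536870912 0 536870912 0) ndN1q1 ndN2q2a pcN0 Cut.none Ext.none)

def k0_pp_102_a : ∃ t, chk3 f_pp_102_a t 1 1 1 = true :=
  ⟨(l 3), by decide +kernel⟩

theorem c_pp_102_a : CertN 536870912 536870912 0 536870912 33554432 16777216 3 false true true .npp 1 0 2
    ndN1q1 ndN2q2a pcN0 Cut.none Ext.none :=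
  certNK0 (fam := false) (s1 := true) (s2 := true) (a := 1) (b := 0) (c := 2) (cn := .npp) (n1 := ndN1q1) (n2 := ndN2q2a) (pc := pcN0) (cut := Cut.none) (xt := Ext.none) (P1 := 536870912) (W1 := 536870912) (P2 := 0) (W2 := 536870912) (P3 := 33554432) (W3 := 16777216) (N0 := 3)
    rfl rfl rfl k0_pp_102_a

noncomputable def f_pp_102_b : ℕ → ℕ → ℕ → ℕ → Bool := onCell 536870912 536870912 0 536870912 33554432 16777216
    (rowNK 3 1 false true true .npp 1 0 2 (qsf 536870912 536870912 1239849684 370763052 0) ndN1q1 ndN2q2b pcN0 Cut.none Ext.none)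

def k0_pp_102_b : ∃ t, chk3 f_pp_102_b t 1 1 1 = true :=
  ⟨(l 3), by decide +kernel⟩

theorem c_pp_102_b : CertN 536870912 536870912 1239849684 370763052 33554432 16777216 3 false true true .npp 1 0 2
    ndN1q1 ndN2q2b pcN0 Cut.none Ext.none :=
  certNK1 (fam := false) (s1 := true) (s2 := true) (a := 1) (b := 0) (c := 2) (cn := .npp) (n1 := ndN1q1) (n2 := ndN2q2b) (pc := pcN0) (cut := Cut.none) (xt := Ext.none) (P1 := 536870912) (W1 := 536870912) (P2 := 1239849684) (W2 := 370763052) (P3 := 33554432) (W3 := 16777216) (N0 := 3)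
    rfl rfl rfl (fun _ => rfl) k0_pp_102_b

noncomputable def f_pp_112_a : ℕ → ℕ → ℕ → ℕ → Bool := onCell 536870912 536870912 0 536870912 33554432 16777216
    (rowNK 3 0 false true true .dn 1 1 2 (qsf 536870912 536870912 0 536870912 1) ndN1q1 ndN2q2a pcN1 Cut.none Ext.none)

def k0_pp_112_a : ∃ t, chk3 f_pp_112_a t 1 1 1 = true :=
  ⟨(l 3), by decide +kernel⟩

theorem c_pp_112_a : CertN 536870912 536870912 0 536870912 33554432 16777216 3 false true true .dn 1 1 2
    ndN1q1 ndN2q2a pcN1 Cut.none Ext.none :=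
  certNK0 (fam := false) (s1 := true) (s2 := true) (a := 1) (b := 1) (c := 2) (cn := .dn) (n1 := ndN1q1) (n2 := ndN2q2a) (pc := pcN1) (cut := Cut.none) (xt := Ext.none) (P1 := 536870912) (W1 := 536870912) (P2 := 0) (W2 := 536870912) (P3 := 33554432) (W3 := 16777216) (N0 := 3)
    rfl rfl rfl k0_pp_112_a

noncomputable def f_pp_112_b : ℕ → ℕ → ℕ → ℕ → Bool := onCell 536870912 536870912 1239849684 370763052 33554432 16777216
    (rowNK 3 2 false true true .dn 1 1 2 (qsf 536870912 536870912 1239849684 370763052 1) ndN1q1 ndN2q2b pcN1 Cut.none Ext.none)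

def k0_pp_112_b : ∃ t, chk3 f_pp_112_b t 1 1 1 = true :=
  ⟨(a (l 3) (a (b (l 226596772999) (l 18283584)) (b (l 1) (l 18222200)))), by decide +kernel⟩

theorem c_pp_112_b : CertN 536870912 536870912 1239849684 370763052 33554432 16777216 3 false true true .dn 1 1 2
    ndN1q1 ndN2q2b pcN1 Cut.none Ext.none :=
  certNK2 (fam := false) (s1 := true) (s2 := true) (a := 1) (b := 1) (c := 2) (cn := .dn) (n1 := ndN1q1) (n2 := ndN2q2b) (pc := pcN1) (cut := Cut.none) (xt := Ext.none) (P1 := 536870912) (W1 := 536870912) (P2 := 1239849684) (W2 := 370763052) (P3 := 33554432) (W3 := 16777216) (N0 := 3)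
    rfl rfl rfl (fun _ => rfl) k0_pp_112_b

noncomputable def f_pp_113 : ℕ → ℕ → ℕ → ℕ → Bool := onCell 536870912 536870912 536870912 536870912 33554432 16777216
    (rowNK 3 1 false true true .nn 1 1 3 (qsf 536870912 536870912 1610612736 536870912 1) ndN1q1 ndN2q3 pcN1 Cut.none Ext.none)

def k0_pp_113 : ∃ t, chk3 f_pp_113 t 1 1 1 = true :=
  ⟨(a (b (l 3) (b (b (l 18425944) (l 18428912)) (l 287799974183))) (b (b (l 3) (l 3)) (b (b (l 18594072) (l 18415504)) (b (l 18124336) (b (l 17741232) (b (l 17635968) (b (l 17579208) (l 17540608)))))))), by decide +kernel⟩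

theorem c_pp_113 : CertN 536870912 536870912 1610612736 536870912 33554432 16777216 3 false true true .nn 1 1 3
    ndN1q1 ndN2q3 pcN1 Cut.none Ext.none :=
  certNK1 (fam := false) (s1 := true) (s2 := true) (a := 1) (b := 1) (c := 3) (cn := .nn) (n1 := ndN1q1) (n2 := ndN2q3) (pc := pcN1) (cut := Cut.none) (xt := Ext.none) (P1 := 536870912) (W1 := 536870912) (P2 := 1610612736) (W2 := 536870912) (P3 := 33554432) (W3 := 16777216) (N0 := 3)
    rfl rfl rfl (fun _ => rfl) k0_pp_113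

noncomputable def f_pp_123 : ℕ → ℕ → ℕ → ℕ → Bool := onCell 1073741824 536870912 1610612736 536870912 33554432 16777216
    (rowNK 3 2 false true true .npn 1 2 3 (qsf 536870912 536870912 1610612736 536870912 2) ndN1q1 ndN2q3 pcN2 Cut.none Ext.none)

def k0_pp_123 : ∃ t, chk3 f_pp_123 t 1 1 1 = true :=
  ⟨(a (b (a (a (a (a (a (l 18220720) (l 18219424)) (l 18217304)) (l 18212984)) (l 18201832)) (l 18173376)) (a (a (a (a (a (l 17365408) (l 17365448)) (l 17365496)) (l 17367400)) (l 17372520)) (l 17493176))) (a (b (l 18126272) (l 17593288)) (b (l 1) (l 480534988023)))), by decide +kernel⟩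

theorem c_pp_123 : CertN 536870912 536870912 1610612736 536870912 33554432 16777216 3 false true true .npn 1 2 3
    ndN1q1 ndN2q3 pcN2 Cut.none Ext.none :=
  certNK2 (fam := false) (s1 := true) (s2 := true) (a := 1) (b := 2) (c := 3) (cn := .npn) (n1 := ndN1q1) (n2 := ndN2q3) (pc := pcN2) (cut := Cut.none) (xt := Ext.none) (P1 := 536870912) (W1 := 536870912) (P2 := 1610612736) (W2 := 536870912) (P3 := 33554432) (W3 := 16777216) (N0 := 3)
    rfl rfl rfl (fun _ => rfl) k0_pp_123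

noncomputable def f_pp_133 : ℕ → ℕ → ℕ → ℕ → Bool := onCell 1610612736 536870912 1610612736 536870912 33554432 16777216
    (rowNK 3 2 false true true .dn 1 3 3 (qsf 536870912 536870912 1610612736 536870912 3) ndN1q1 ndN2q3 pcN3 Cut.none Ext.none)

def k0_pp_133 : ∃ t, chk3 f_pp_133 t 1 1 1 = true :=
  ⟨(a (b (l 1) (a (l 432217779095) (l 1))) (l 1)), by decide +kernel⟩

theorem c_pp_133 : CertN 536870912 536870912 1610612736 536870912 33554432 16777216 3 false true true .dn 1 3 3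
    ndN1q1 ndN2q3 pcN3 Cut.none Ext.none :=
  certNK2 (fam := false) (s1 := true) (s2 := true) (a := 1) (b := 3) (c := 3) (cn := .dn) (n1 := ndN1q1) (n2 := ndN2q3) (pc := pcN3) (cut := Cut.none) (xt := Ext.none) (P1 := 536870912) (W1 := 536870912) (P2 := 1610612736) (W2 := 536870912) (P3 := 33554432) (W3 := 16777216) (N0 := 3)
    rfl rfl rfl (fun _ => rfl) k0_pp_133

noncomputable def f_pp_202_aa : ℕ → ℕ → ℕ → ℕ → Bool := onCell 0 536870912 0 536870912 33554432 16777216
    (rowNK 3 0 false true true .pp 2 0 2 (qsf 0 536870912 0 536870912 0) ndN1q2a ndN2q2a pcN0 Cut.none Ext.none)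

def k0_pp_202_aa : ∃ t, chk3 f_pp_202_aa t 1 1 1 = true :=
  ⟨(l 3), by decide +kernel⟩

theorem c_pp_202_aa : CertN 0 536870912 0 536870912 33554432 16777216 3 false true true .pp 2 0 2
    ndN1q2a ndN2q2a pcN0 Cut.none Ext.none :=
  certNK0 (fam := false) (s1 := true) (s2 := true) (a := 2) (b := 0) (c := 2) (cn := .pp) (n1 := ndN1q2a) (n2 := ndN2q2a) (pc := pcN0) (cut := Cut.none) (xt := Ext.none) (P1 := 0) (W1 := 536870912) (P2 := 0) (W2 := 536870912) (P3 := 33554432) (W3 := 16777216) (N0 := 3)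
    rfl rfl rfl k0_pp_202_aa

noncomputable def f_pp_202_ab : ℕ → ℕ → ℕ → ℕ → Bool := onCell 0 536870912 1239849684 370763052 33554432 16777216
    (rowNK 3 0 false true true .pp 2 0 2 (qsf 0 536870912 1239849684 370763052 0) ndN1q2a ndN2q2b pcN0 Cut.none Ext.none)

def k0_pp_202_ab : ∃ t, chk3 f_pp_202_ab t 1 1 1 = true :=
  ⟨(l 3), by decide +kernel⟩

theorem c_pp_202_ab : CertN 0 536870912 1239849684 370763052 33554432 16777216 3 false true true .pp 2 0 2
    ndN1q2a ndN2q2b pcN0 Cut.none Ext.none :=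
  certNK0 (fam := false) (s1 := true) (s2 := true) (a := 2) (b := 0) (c := 2) (cn := .pp) (n1 := ndN1q2a) (n2 := ndN2q2b) (pc := pcN0) (cut := Cut.none) (xt := Ext.none) (P1 := 0) (W1 := 536870912) (P2 := 1239849684) (W2 := 370763052) (P3 := 33554432) (W3 := 16777216) (N0 := 3)
    rfl rfl rfl k0_pp_202_ab

noncomputable def f_pp_202_ba : ℕ → ℕ → ℕ → ℕ → Bool := onCell 1239849684 370763052 0 536870912 33554432 16777216
    (rowNK 3 0 false true true .pp 2 0 2 (qsf 1239849684 370763052 0 536870912 0) ndN1q2b ndN2q2a pcN0 Cut.none Ext.none)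

def k0_pp_202_ba : ∃ t, chk3 f_pp_202_ba t 1 1 1 = true :=
  ⟨(l 3), by decide +kernel⟩

theorem c_pp_202_ba : CertN 1239849684 370763052 0 536870912 33554432 16777216 3 false true true .pp 2 0 2
    ndN1q2b ndN2q2a pcN0 Cut.none Ext.none :=
  certNK0 (fam := false) (s1 := true) (s2 := true) (a := 2) (b := 0) (c := 2) (cn := .pp) (n1 := ndN1q2b) (n2 := ndN2q2a) (pc := pcN0) (cut := Cut.none) (xt := Ext.none) (P1 := 1239849684) (W1 := 370763052) (P2 := 0) (W2 := 536870912) (P3 := 33554432) (W3 := 16777216) (N0 := 3)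
    rfl rfl rfl k0_pp_202_ba

noncomputable def f_pp_202_bb : ℕ → ℕ → ℕ → ℕ → Bool := onCell 1239849684 370763052 1239849684 370763052 33554432 16777216
    (rowNK 3 0 false true true .pp 2 0 2 (qsf 1239849684 370763052 1239849684 370763052 0) ndN1q2b ndN2q2b pcN0 Cut.none Ext.none)

def k0_pp_202_bb : ∃ t, chk3 f_pp_202_bb t 1 1 1 = true :=
  ⟨(l 3), by decide +kernel⟩

theorem c_pp_202_bb : CertN 1239849684 370763052 1239849684 370763052 33554432 16777216 3 false true true .pp 2 0 2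
    ndN1q2b ndN2q2b pcN0 Cut.none Ext.none :=
  certNK0 (fam := false) (s1 := true) (s2 := true) (a := 2) (b := 0) (c := 2) (cn := .pp) (n1 := ndN1q2b) (n2 := ndN2q2b) (pc := pcN0) (cut := Cut.none) (xt := Ext.none) (P1 := 1239849684) (W1 := 370763052) (P2 := 1239849684) (W2 := 370763052) (P3 := 33554432) (W3 := 16777216) (N0 := 3)
    rfl rfl rfl k0_pp_202_bb

noncomputable def f_pp_203_a : ℕ → ℕ → ℕ → ℕ → Bool := onCell 0 536870912 0 536870912 33554432 16777216
    (rowNK 3 1 false true true .up 2 0 3 (qsf 0 536870912 1610612736 536870912 0) ndN1q2a ndN2q3 pcN0 Cut.none Ext.none)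

def k0_pp_203_a : ∃ t, chk3 f_pp_203_a t 1 1 1 = true :=
  ⟨(l 3), by decide +kernel⟩

theorem c_pp_203_a : CertN 0 536870912 1610612736 536870912 33554432 16777216 3 false true true .up 2 0 3
    ndN1q2a ndN2q3 pcN0 Cut.none Ext.none :=
  certNK1 (fam := false) (s1 := true) (s2 := true) (a := 2) (b := 0) (c := 3) (cn := .up) (n1 := ndN1q2a) (n2 := ndN2q3) (pc := pcN0) (cut := Cut.none) (xt := Ext.none) (P1 := 0) (W1 := 536870912) (P2 := 1610612736) (W2 := 536870912) (P3 := 33554432) (W3 := 16777216) (N0 := 3)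
    rfl rfl rfl (fun _ => rfl) k0_pp_203_a

noncomputable def f_pp_203_b : ℕ → ℕ → ℕ → ℕ → Bool := onCell 1239849684 370763052 1610612736 536870912 33554432 16777216
    (rowNK 3 0 false true true .up 2 0 3 (qsf 1239849684 370763052 1610612736 536870912 0) ndN1q2b ndN2q3 pcN0 Cut.none Ext.none)

def k0_pp_203_b : ∃ t, chk3 f_pp_203_b t 1 1 1 = true :=
  ⟨(l 3), by decide +kernel⟩

theorem c_pp_203_b : CertN 1239849684 370763052 1610612736 536870912 33554432 16777216 3 false true true .up 2 0 3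
    ndN1q2b ndN2q3 pcN0 Cut.none Ext.none :=
  certNK0 (fam := false) (s1 := true) (s2 := true) (a := 2) (b := 0) (c := 3) (cn := .up) (n1 := ndN1q2b) (n2 := ndN2q3) (pc := pcN0) (cut := Cut.none) (xt := Ext.none) (P1 := 1239849684) (W1 := 370763052) (P2 := 1610612736) (W2 := 536870912) (P3 := 33554432) (W3 := 16777216) (N0 := 3)
    rfl rfl rfl k0_pp_203_b

noncomputable def cut_pp_213_a : Cut := Cut.of [[⟨0, 1, 0, 7061502⟩, ⟨1, 1, 0, 7061502⟩, ⟨2, 2, 0, 184626⟩]]

noncomputable def f_pp_213_a : ℕ → ℕ → ℕ → ℕ → Bool := onCell 0 536870912 1610612736 536870912 33554432 16777216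
    (rowNK 3 0 false true true .pnn 2 1 3 (qsf 0 536870912 1610612736 536870912 1) ndN1q2a ndN2q3 pcN1 cut_pp_213_a Ext.none)

def k0_pp_213_a : ∃ t, chk3 f_pp_213_a t 1 1 1 = true :=
  ⟨(b (l 3) (a (l 3) (b (l 3) (a (l 3) (b (l 3) (a (l 3) (b (l 3) (b (l 3) (a (l 3) (b (l 3) (a (l 3) (b (l 3) (a (l 3) (b (l 3) (b (l 3) (b (l 3) (b (l 3) (b (l 3) (l 6))))))))))))))))))), by decide +kernel⟩

theorem c_pp_213_a : CertN 0 536870912 1610612736 536870912 33554432 16777216 3 false true true .pnn 2 1 3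
    ndN1q2a ndN2q3 pcN1 cut_pp_213_a Ext.none :=
  certNK0 (fam := false) (s1 := true) (s2 := true) (a := 2) (b := 1) (c := 3) (cn := .pnn) (n1 := ndN1q2a) (n2 := ndN2q3) (pc := pcN1) (cut := cut_pp_213_a) (xt := Ext.none) (P1 := 0) (W1 := 536870912) (P2 := 1610612736) (W2 := 536870912) (P3 := 33554432) (W3 := 16777216) (N0 := 3)
    rfl rfl rfl k0_pp_213_a

noncomputable def cut_pp_213_b : Cut := Cut.of [[⟨0, 1, 0, 7061502⟩, ⟨1, 1, 0, 7061502⟩, ⟨2, 2, 0, 184626⟩]]

noncomputable def f_pp_213_b : ℕ → ℕ → ℕ → ℕ → Bool := onCell 1239849684 370763052 1610612736 536870912 33554432 16777216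
    (rowNK 3 0 false true true .pnn 2 1 3 (qsf 1239849684 370763052 1610612736 536870912 1) ndN1q2b ndN2q3 pcN1 cut_pp_213_b Ext.none)

def k0_pp_213_b : ∃ t, chk3 f_pp_213_b t 1 1 1 = true :=
  ⟨(l 3), by decide +kernel⟩

theorem c_pp_213_b : CertN 1239849684 370763052 1610612736 536870912 33554432 16777216 3 false true true .pnn 2 1 3
    ndN1q2b ndN2q3 pcN1 cut_pp_213_b Ext.none :=
  certNK0 (fam := false) (s1 := true) (s2 := true) (a := 2) (b := 1) (c := 3) (cn := .pnn) (n1 := ndN1q2b) (n2 := ndN2q3) (pc := pcN1) (cut := cut_pp_213_b) (xt := Ext.none) (P1 := 1239849684) (W1 := 370763052) (P2 := 1610612736) (W2 := 536870912) (P3 := 33554432) (W3 := 16777216) (N0 := 3)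
    rfl rfl rfl k0_pp_213_b

noncomputable def f_pp_303 : ℕ → ℕ → ℕ → ℕ → Bool := onCell 1610612736 536870912 1610612736 536870912 33554432 16777216
    (rowNK 3 0 false true true .npn 3 0 3 (qsf 1610612736 536870912 1610612736 536870912 0) ndN1q3 ndN2q3 pcN0 Cut.none Ext.none)

def k0_pp_303 : ∃ t, chk3 f_pp_303 t 1 1 1 = true :=
  ⟨(l 3), by decide +kernel⟩

theorem c_pp_303 : CertN 1610612736 536870912 1610612736 536870912 33554432 16777216 3 false true true .npn 3 0 3
    ndN1q3 ndN2q3 pcN0 Cut.none Ext.none :=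
  certNK0 (fam := false) (s1 := true) (s2 := true) (a := 3) (b := 0) (c := 3) (cn := .npn) (n1 := ndN1q3) (n2 := ndN2q3) (pc := pcN0) (cut := Cut.none) (xt := Ext.none) (P1 := 1610612736) (W1 := 536870912) (P2 := 1610612736) (W2 := 536870912) (P3 := 33554432) (W3 := 16777216) (N0 := 3)
    rfl rfl rfl k0_pp_303

noncomputable def f_pp_313 : ℕ → ℕ → ℕ → ℕ → Bool := onCell 1610612736 536870912 1610612736 536870912 33554432 16777216
    (rowNK 3 0 false true true .dn 3 1 3 (qsf 1610612736 536870912 1610612736 536870912 1) ndN1q3 ndN2q3 pcN1 Cut.none Ext.none)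

def k0_pp_313 : ∃ t, chk3 f_pp_313 t 1 1 1 = true :=
  ⟨(l 3), by decide +kernel⟩

theorem c_pp_313 : CertN 1610612736 536870912 1610612736 536870912 33554432 16777216 3 false true true .dn 3 1 3
    ndN1q3 ndN2q3 pcN1 Cut.none Ext.none :=
  certNK0 (fam := false) (s1 := true) (s2 := true) (a := 3) (b := 1) (c := 3) (cn := .dn) (n1 := ndN1q3) (n2 := ndN2q3) (pc := pcN1) (cut := Cut.none) (xt := Ext.none) (P1 := 1610612736) (W1 := 536870912) (P2 := 1610612736) (W2 := 536870912) (P3 := 33554432) (W3 := 16777216) (N0 := 3)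
    rfl rfl rfl k0_pp_313

noncomputable def f_pm_001 : ℕ → ℕ → ℕ → ℕ → Bool := onCell 0 536870912 536870912 536870912 33554432 16777216
    (rowNK 3 0 false true false .up 0 0 1 (qsf 0 536870912 536870912 536870912 0) ndN1q0 ndN2q1 pcN0 Cut.none Ext.none)

def k0_pm_001 : ∃ t, chk3 f_pm_001 t 1 1 1 = true :=
  ⟨(l 4), by decide +kernel⟩

theorem c_pm_001 : CertN 0 536870912 536870912 536870912 33554432 16777216 3 false true false .up 0 0 1
    ndN1q0 ndN2q1 pcN0 Cut.none Ext.none :=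
  certNK0 (fam := false) (s1 := true) (s2 := false) (a := 0) (b := 0) (c := 1) (cn := .up) (n1 := ndN1q0) (n2 := ndN2q1) (pc := pcN0) (cut := Cut.none) (xt := Ext.none) (P1 := 0) (W1 := 536870912) (P2 := 536870912) (W2 := 536870912) (P3 := 33554432) (W3 := 16777216) (N0 := 3)
    rfl rfl rfl k0_pm_001

noncomputable def f_pm_011 : ℕ → ℕ → ℕ → ℕ → Bool := onCell 0 536870912 536870912 536870912 33554432 16777216
    (rowNK 3 0 false true false .pnn 0 1 1 (qsf 0 536870912 536870912 536870912 1) ndN1q0 ndN2q1 pcN1 Cut.none Ext.none)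

def k0_pm_011 : ∃ t, chk3 f_pm_011 t 1 1 1 = true :=
  ⟨(l 4), by decide +kernel⟩

theorem c_pm_011 : CertN 0 536870912 536870912 536870912 33554432 16777216 3 false true false .pnn 0 1 1
    ndN1q0 ndN2q1 pcN1 Cut.none Ext.none :=
  certNK0 (fam := false) (s1 := true) (s2 := false) (a := 0) (b := 1) (c := 1) (cn := .pnn) (n1 := ndN1q0) (n2 := ndN2q1) (pc := pcN1) (cut := Cut.none) (xt := Ext.none) (P1 := 0) (W1 := 536870912) (P2 := 536870912) (W2 := 536870912) (P3 := 33554432) (W3 := 16777216) (N0 := 3)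
    rfl rfl rfl k0_pm_011

noncomputable def cut_pm_012_a : Cut := Cut.of [[⟨0, 0, 0, 33554432⟩, ⟨1, 1, 0, 33554432⟩, ⟨2, 1, 0, 33554432⟩]]

noncomputable def f_pm_012_a : ℕ → ℕ → ℕ → ℕ → Bool := onCell 0 536870912 0 536870912 33554432 16777216
    (rowNK 3 0 false true false .pnp 0 1 2 (qsf 0 536870912 0 536870912 1) ndN1q0 ndN2q2a pcN1 cut_pm_012_a Ext.none)

def k0_pm_012_a : ∃ t, chk3 f_pm_012_a t 1 1 1 = true :=
  ⟨(a (b (l 4) (a (b (l 4) (a (b (l 4) (a (b (l 4) (a (l 6) (l 4))) (l 4))) (l 4))) (l 4))) (b (a (l 4) (l 18927624)) (b (a (l 4) (l 18452616)) (b (a (l 4) (l 17983088)) (b (a (l 4) (l 17774280)) (b (a (l 17992840) (l 17655200)) (a (l 17875624) (l 17579672)))))))), by decide +kernel⟩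

theorem c_pm_012_a : CertN 0 536870912 0 536870912 33554432 16777216 3 false true false .pnp 0 1 2
    ndN1q0 ndN2q2a pcN1 cut_pm_012_a Ext.none :=
  certNK0 (fam := false) (s1 := true) (s2 := false) (a := 0) (b := 1) (c := 2) (cn := .pnp) (n1 := ndN1q0) (n2 := ndN2q2a) (pc := pcN1) (cut := cut_pm_012_a) (xt := Ext.none) (P1 := 0) (W1 := 536870912) (P2 := 0) (W2 := 536870912) (P3 := 33554432) (W3 := 16777216) (N0 := 3)
    rfl rfl rfl k0_pm_012_a

noncomputable def cut_pm_012_b : Cut := Cut.of [[⟨0, 0, 0, 33554432⟩, ⟨1, 1, 0, 33554432⟩, ⟨2, 1, 0, 33554432⟩]]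

noncomputable def f_pm_012_b : ℕ → ℕ → ℕ → ℕ → Bool := onCell 0 536870912 1239849684 370763052 33554432 16777216
    (rowNK 3 0 false true false .pnp 0 1 2 (qsf 0 536870912 1239849684 370763052 1) ndN1q0 ndN2q2b pcN1 cut_pm_012_b Ext.none)

def k0_pm_012_b : ∃ t, chk3 f_pm_012_b t 1 1 1 = true :=
  ⟨(a (l 4) (b (a (l 4) (b (l 4) (l 4))) (l 4))), by decide +kernel⟩

theorem c_pm_012_b : CertN 0 536870912 1239849684 370763052 33554432 16777216 3 false true false .pnp 0 1 2
    ndN1q0 ndN2q2b pcN1 cut_pm_012_b Ext.none :=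
  certNK0 (fam := false) (s1 := true) (s2 := false) (a := 0) (b := 1) (c := 2) (cn := .pnp) (n1 := ndN1q0) (n2 := ndN2q2b) (pc := pcN1) (cut := cut_pm_012_b) (xt := Ext.none) (P1 := 0) (W1 := 536870912) (P2 := 1239849684) (W2 := 370763052) (P3 := 33554432) (W3 := 16777216) (N0 := 3)
    rfl rfl rfl k0_pm_012_b

noncomputable def cut_pm_022_a : Cut := Cut.of [[⟨0, 0, 0, 33554432⟩, ⟨1, 1, 0, 33554432⟩, ⟨2, 1, 0, 33554432⟩]]

noncomputable def f_pm_022_a : ℕ → ℕ → ℕ → ℕ → Bool := onCell 0 536870912 0 536870912 33554432 16777216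
    (rowNK 3 0 false true false .pp 0 2 2 (qsf 0 536870912 0 536870912 2) ndN1q0 ndN2q2a pcN2 cut_pm_022_a Ext.none)

def k0_pm_022_a : ∃ t, chk3 f_pm_022_a t 1 1 1 = true :=
  ⟨(a (b (l 4) (a (b (l 4) (b (l 4) (a (a (a (b (l 4) (l 6)) (l 4)) (l 4)) (l 1)))) (l 4))) (l 1)), by decide +kernel⟩

theorem c_pm_022_a : CertN 0 536870912 0 536870912 33554432 16777216 3 false true false .pp 0 2 2
    ndN1q0 ndN2q2a pcN2 cut_pm_022_a Ext.none :=
  certNK0 (fam := false) (s1 := true) (s2 := false) (a := 0) (b := 2) (c := 2) (cn := .pp) (n1 := ndN1q0) (n2 := ndN2q2a) (pc := pcN2) (cut := cut_pm_022_a) (xt := Ext.none) (P1 := 0) (W1 := 536870912) (P2 := 0) (W2 := 536870912) (P3 := 33554432) (W3 := 16777216) (N0 := 3)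
    rfl rfl rfl k0_pm_022_a

noncomputable def cut_pm_022_b : Cut := Cut.of [[⟨0, 0, 0, 33554432⟩, ⟨1, 1, 0, 33554432⟩, ⟨2, 1, 0, 33554432⟩]]

noncomputable def f_pm_022_b : ℕ → ℕ → ℕ → ℕ → Bool := onCell 0 536870912 1239849684 370763052 33554432 16777216
    (rowNK 3 0 false true false .pp 0 2 2 (qsf 0 536870912 1239849684 370763052 2) ndN1q0 ndN2q2b pcN2 cut_pm_022_b Ext.none)

def k0_pm_022_b : ∃ t, chk3 f_pm_022_b t 1 1 1 = true :=
  ⟨(a (l 4) (b (a (l 4) (l 1)) (l 4))), by decide +kernel⟩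

theorem c_pm_022_b : CertN 0 536870912 1239849684 370763052 33554432 16777216 3 false true false .pp 0 2 2
    ndN1q0 ndN2q2b pcN2 cut_pm_022_b Ext.none :=
  certNK0 (fam := false) (s1 := true) (s2 := false) (a := 0) (b := 2) (c := 2) (cn := .pp) (n1 := ndN1q0) (n2 := ndN2q2b) (pc := pcN2) (cut := cut_pm_022_b) (xt := Ext.none) (P1 := 0) (W1 := 536870912) (P2 := 1239849684) (W2 := 370763052) (P3 := 33554432) (W3 := 16777216) (N0 := 3)
    rfl rfl rfl k0_pm_022_b

noncomputable def f_pm_023 : ℕ → ℕ → ℕ → ℕ → Bool := onCell 0 536870912 1073741824 536870912 33554432 16777216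
    (rowNK 3 1 false true false .up 0 2 3 (qsf 0 536870912 1610612736 536870912 2) ndN1q0 ndN2q3 pcN2 Cut.none Ext.none)

def k0_pm_023 : ∃ t, chk3 f_pm_023 t 1 1 1 = true :=
  ⟨(b (b (l 439739179335) (l 1846004715239)) (b (l 838296440151) (l 402892873943))), by decide +kernel⟩

theorem c_pm_023 : CertN 0 536870912 1610612736 536870912 33554432 16777216 3 false true false .up 0 2 3
    ndN1q0 ndN2q3 pcN2 Cut.none Ext.none :=
  certNK1 (fam := false) (s1 := true) (s2 := false) (a := 0) (b := 2) (c := 3) (cn := .up) (n1 := ndN1q0) (n2 := ndN2q3) (pc := pcN2) (cut := Cut.none) (xt := Ext.none) (P1 := 0) (W1 := 536870912) (P2 := 1610612736) (W2 := 536870912) (P3 := 33554432) (W3 := 16777216) (N0 := 3)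
    rfl rfl rfl (fun _ => rfl) k0_pm_023

noncomputable def f_pm_033 : ℕ → ℕ → ℕ → ℕ → Bool := onCell 0 536870912 1610612736 536870912 33554432 16777216
    (rowNK 3 0 false true false .pnn 0 3 3 (qsf 0 536870912 1610612736 536870912 3) ndN1q0 ndN2q3 pcN3 Cut.none Ext.none)

def k0_pm_033 : ∃ t, chk3 f_pm_033 t 1 1 1 = true :=
  ⟨(a (l 4) (b (l 4) (b (l 4) (a (l 4) (l 4))))), by decide +kernel⟩

theorem c_pm_033 : CertN 0 536870912 1610612736 536870912 33554432 16777216 3 false true false .pnn 0 3 3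
    ndN1q0 ndN2q3 pcN3 Cut.none Ext.none :=
  certNK0 (fam := false) (s1 := true) (s2 := false) (a := 0) (b := 3) (c := 3) (cn := .pnn) (n1 := ndN1q0) (n2 := ndN2q3) (pc := pcN3) (cut := Cut.none) (xt := Ext.none) (P1 := 0) (W1 := 536870912) (P2 := 1610612736) (W2 := 536870912) (P3 := 33554432) (W3 := 16777216) (N0 := 3)
    rfl rfl rfl k0_pm_033

noncomputable def f_pm_101 : ℕ → ℕ → ℕ → ℕ → Bool := onCell 536870912 536870912 536870912 536870912 33554432 16777216
    (rowNK 3 0 false true false .npn 1 0 1 (qsf 536870912 536870912 536870912 536870912 0) ndN1q1 ndN2q1 pcN0 Cut.none Ext.none)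

def k0_pm_101 : ∃ t, chk3 f_pm_101 t 1 1 1 = true :=
  ⟨(l 4), by decide +kernel⟩

theorem c_pm_101 : CertN 536870912 536870912 536870912 536870912 33554432 16777216 3 false true false .npn 1 0 1
    ndN1q1 ndN2q1 pcN0 Cut.none Ext.none :=
  certNK0 (fam := false) (s1 := true) (s2 := false) (a := 1) (b := 0) (c := 1) (cn := .npn) (n1 := ndN1q1) (n2 := ndN2q1) (pc := pcN0) (cut := Cut.none) (xt := Ext.none) (P1 := 536870912) (W1 := 536870912) (P2 := 536870912) (W2 := 536870912) (P3 := 33554432) (W3 := 16777216) (N0 := 3)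
    rfl rfl rfl k0_pm_101

noncomputable def f_pm_102_a : ℕ → ℕ → ℕ → ℕ → Bool := onCell 536870912 536870912 0 536870912 33554432 16777216
    (rowNK 3 0 false true false .npp 1 0 2 (qsf 536870912 536870912 0 536870912 0) ndN1q1 ndN2q2a pcN0 Cut.none Ext.none)

def k0_pm_102_a : ∃ t, chk3 f_pm_102_a t 1 1 1 = true :=
  ⟨(a (b (a (a (l 2) (l 18877760)) (l 18812016)) (a (b (l 177272984727) (b (l 19031416) (b (l 19081272) (b (l 19112432) (l 19136192))))) (b (l 18954816) (b (l 19107184) (b (l 19203048) (b (l 19255296) (l 19292000))))))) (b (a (c (l 19449592) (l 18519512)) (c (l 19910448) (l 18561992))) (a (b (l 19177880) (b (l 19308248) (b (l 19412672) (b (l 19463240) (l 19493184))))) (b (a (l 19321872) (l 19425152)) (b (c (l 20146472) (l 18884168)) (b (c (l 20217760) (l 18989936)) (b (l 19750736) (l 19761176)))))))), by decide +kernel⟩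

theorem c_pm_102_a : CertN 536870912 536870912 0 536870912 33554432 16777216 3 false true false .npp 1 0 2
    ndN1q1 ndN2q2a pcN0 Cut.none Ext.none :=
  certNK0 (fam := false) (s1 := true) (s2 := false) (a := 1) (b := 0) (c := 2) (cn := .npp) (n1 := ndN1q1) (n2 := ndN2q2a) (pc := pcN0) (cut := Cut.none) (xt := Ext.none) (P1 := 536870912) (W1 := 536870912) (P2 := 0) (W2 := 536870912) (P3 := 33554432) (W3 := 16777216) (N0 := 3)
    rfl rfl rfl k0_pm_102_a

noncomputable def f_pm_102_b : ℕ → ℕ → ℕ → ℕ → Bool := onCell 536870912 536870912 1239849684 370763052 33554432 16777216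
    (rowNK 3 0 false true false .npp 1 0 2 (qsf 536870912 536870912 1239849684 370763052 0) ndN1q1 ndN2q2b pcN0 Cut.none Ext.none)

def k0_pm_102_b : ∃ t, chk3 f_pm_102_b t 1 1 1 = true :=
  ⟨(a (b (a (l 2) (b (a (l 18682472) (l 18642792)) (a (l 2) (l 18355800)))) (l 2)) (b (a (b (a (l 18695008) (l 18806536)) (a (l 18341536) (b (l 18523008) (l 18312528)))) (b (a (l 19165368) (c (l 20046256) (b (l 18400600) (l 18192992)))) (a (c (l 19237024) (l 17850280)) (b (a (l 18710792) (l 18936864)) (l 18483344))))) (a (b (a (l 2) (b (l 18033032) (l 17688400))) (l 2)) (b (a (b (l 17980640) (l 17781352)) (c (l 18094920) (l 18276928))) (a (l 18101864) (l 18552104)))))), by decide +kernel⟩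

theorem c_pm_102_b : CertN 536870912 536870912 1239849684 370763052 33554432 16777216 3 false true false .npp 1 0 2
    ndN1q1 ndN2q2b pcN0 Cut.none Ext.none :=
  certNK0 (fam := false) (s1 := true) (s2 := false) (a := 1) (b := 0) (c := 2) (cn := .npp) (n1 := ndN1q1) (n2 := ndN2q2b) (pc := pcN0) (cut := Cut.none) (xt := Ext.none) (P1 := 536870912) (W1 := 536870912) (P2 := 1239849684) (W2 := 370763052) (P3 := 33554432) (W3 := 16777216) (N0 := 3)
    rfl rfl rfl k0_pm_102_b

noncomputable def f_pm_112_a : ℕ → ℕ → ℕ → ℕ → Bool := onCell 536870912 536870912 0 536870912 33554432 16777216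
    (rowNK 3 2 false true false .dn 1 1 2 (qsf 536870912 536870912 0 536870912 1) ndN1q1 ndN2q2a pcN1 Cut.none Ext.none)

def k0_pm_112_a : ∃ t, chk3 f_pm_112_a t 1 1 1 = true :=
  ⟨(a (b (l 70369636519) (a (b (l 19202664) (b (l 19255736) (b (l 19296152) (b (l 19315712) (l 19327968))))) (b (l 1) (l 1)))) (l 1)), by decide +kernel⟩

theorem c_pm_112_a : CertN 536870912 536870912 0 536870912 33554432 16777216 3 false true false .dn 1 1 2
    ndN1q1 ndN2q2a pcN1 Cut.none Ext.none :=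
  certNK2 (fam := false) (s1 := true) (s2 := false) (a := 1) (b := 1) (c := 2) (cn := .dn) (n1 := ndN1q1) (n2 := ndN2q2a) (pc := pcN1) (cut := Cut.none) (xt := Ext.none) (P1 := 536870912) (W1 := 536870912) (P2 := 0) (W2 := 536870912) (P3 := 33554432) (W3 := 16777216) (N0 := 3)
    rfl rfl rfl (fun _ => rfl) k0_pm_112_a

noncomputable def f_pm_112_b : ℕ → ℕ → ℕ → ℕ → Bool := onCell 536870912 536870912 1239849684 370763052 33554432 16777216
    (rowNK 3 2 false true false .dn 1 1 2 (qsf 536870912 536870912 1239849684 370763052 1) ndN1q1 ndN2q2b pcN1 Cut.none Ext.none)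

def k0_pm_112_b : ∃ t, chk3 f_pm_112_b t 1 1 1 = true :=
  ⟨(a (a (b (l 19115584) (l 18819416)) (l 19251088)) (a (l 19462656) (l 19630952))), by decide +kernel⟩

theorem c_pm_112_b : CertN 536870912 536870912 1239849684 370763052 33554432 16777216 3 false true false .dn 1 1 2
    ndN1q1 ndN2q2b pcN1 Cut.none Ext.none :=
  certNK2 (fam := false) (s1 := true) (s2 := false) (a := 1) (b := 1) (c := 2) (cn := .dn) (n1 := ndN1q1) (n2 := ndN2q2b) (pc := pcN1) (cut := Cut.none) (xt := Ext.none) (P1 := 536870912) (W1 := 536870912) (P2 := 1239849684) (W2 := 370763052) (P3 := 33554432) (W3 := 16777216) (N0 := 3)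
    rfl rfl rfl (fun _ => rfl) k0_pm_112_b

noncomputable def f_pm_113 : ℕ → ℕ → ℕ → ℕ → Bool := onCell 536870912 536870912 536870912 536870912 33554432 16777216
    (rowNK 3 1 false true false .nn 1 1 3 (qsf 536870912 536870912 1610612736 536870912 1) ndN1q1 ndN2q3 pcN1 Cut.none Ext.none)

def k0_pm_113 : ∃ t, chk3 f_pm_113 t 1 1 1 = true :=
  ⟨(a (b (b (l 1) (l 19203304)) (b (l 19289640) (b (l 19280704) (b (l 19260680) (b (l 19253040) (b (l 19250736) (l 19243080))))))) (b (b (l 263641785719) (l 18809600)) (b (l 18638024) (b (l 18295664) (b (l 18098024) (b (l 17990752) (b (l 17932872) (l 17888336)))))))), by decide +kernel⟩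

theorem c_pm_113 : CertN 536870912 536870912 1610612736 536870912 33554432 16777216 3 false true false .nn 1 1 3
    ndN1q1 ndN2q3 pcN1 Cut.none Ext.none :=
  certNK1 (fam := false) (s1 := true) (s2 := false) (a := 1) (b := 1) (c := 3) (cn := .nn) (n1 := ndN1q1) (n2 := ndN2q3) (pc := pcN1) (cut := Cut.none) (xt := Ext.none) (P1 := 536870912) (W1 := 536870912) (P2 := 1610612736) (W2 := 536870912) (P3 := 33554432) (W3 := 16777216) (N0 := 3)
    rfl rfl rfl (fun _ => rfl) k0_pm_113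

noncomputable def f_pm_123 : ℕ → ℕ → ℕ → ℕ → Bool := onCell 1073741824 536870912 1610612736 536870912 33554432 16777216
    (rowNK 3 2 false true false .npn 1 2 3 (qsf 536870912 536870912 1610612736 536870912 2) ndN1q1 ndN2q3 pcN2 Cut.none Ext.none)

def k0_pm_123 : ∃ t, chk3 f_pm_123 t 1 1 1 = true :=
  ⟨(b (a (a (l 18975408) (l 18346096)) (l 4)) (a (a (a (a (a (a (l 18012256) (l 18007336)) (l 17993024)) (l 17961080)) (l 17886232)) (l 17541656)) (a (l 17304120) (l 17019944)))), by decide +kernel⟩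

theorem c_pm_123 : CertN 536870912 536870912 1610612736 536870912 33554432 16777216 3 false true false .npn 1 2 3
    ndN1q1 ndN2q3 pcN2 Cut.none Ext.none :=
  certNK2 (fam := false) (s1 := true) (s2 := false) (a := 1) (b := 2) (c := 3) (cn := .npn) (n1 := ndN1q1) (n2 := ndN2q3) (pc := pcN2) (cut := Cut.none) (xt := Ext.none) (P1 := 536870912) (W1 := 536870912) (P2 := 1610612736) (W2 := 536870912) (P3 := 33554432) (W3 := 16777216) (N0 := 3)
    rfl rfl rfl (fun _ => rfl) k0_pm_123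

noncomputable def f_pm_133 : ℕ → ℕ → ℕ → ℕ → Bool := onCell 1610612736 536870912 1610612736 536870912 33554432 16777216
    (rowNK 3 2 false true false .dn 1 3 3 (qsf 536870912 536870912 1610612736 536870912 3) ndN1q1 ndN2q3 pcN3 Cut.none Ext.none)

def k0_pm_133 : ∃ t, chk3 f_pm_133 t 1 1 1 = true :=
  ⟨(a (b (l 1) (a (l 380677437431) (l 1))) (l 1)), by decide +kernel⟩

theorem c_pm_133 : CertN 536870912 536870912 1610612736 536870912 33554432 16777216 3 false true false .dn 1 3 3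
    ndN1q1 ndN2q3 pcN3 Cut.none Ext.none :=
  certNK2 (fam := false) (s1 := true) (s2 := false) (a := 1) (b := 3) (c := 3) (cn := .dn) (n1 := ndN1q1) (n2 := ndN2q3) (pc := pcN3) (cut := Cut.none) (xt := Ext.none) (P1 := 536870912) (W1 := 536870912) (P2 := 1610612736) (W2 := 536870912) (P3 := 33554432) (W3 := 16777216) (N0 := 3)
    rfl rfl rfl (fun _ => rfl) k0_pm_133

noncomputable def cut_pm_202_aa : Cut := Cut.of [[⟨0, 1, 0, 33554432⟩, ⟨1, 0, 0, 33554432⟩, ⟨2, 1, 0, 33554432⟩], [⟨0, 1, 0, 16777216⟩, ⟨1, 0, 1, 25165824⟩, ⟨2, 1, 1, 25165824⟩, ⟨1, 0, 0, 67108864⟩, ⟨1, 1, 0, 1056964608⟩, ⟨2, 1, 0, 67108864⟩, ⟨2, 2, 0, 1056964608⟩]]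

noncomputable def f_pm_202_aa : ℕ → ℕ → ℕ → ℕ → Bool := onCell 0 536870912 0 536870912 33554432 16777216
    (rowNK 3 0 false true false .pp 2 0 2 (qsf 0 536870912 0 536870912 0) ndN1q2a ndN2q2a pcN0 cut_pm_202_aa Ext.none)

def k0_pm_202_aa : ∃ t, chk3 f_pm_202_aa t 1 1 1 = true :=
  ⟨(a (l 3) (a (l 3) (a (l 3) (a (l 3) (b (l 73722342423) (a (l 3) (a (l 3) (b (b (l 18001288) (l 102175368727)) (a (l 3) (a (l 3) (b (b (c (l 17653080) (b (l 17477184) (l 119890972327))) (b (c (l 118280511639) (l 14)) (l 14))) (b (b (l 14) (l 6)) (l 6))))))))))))), by decide +kernel⟩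

theorem c_pm_202_aa : CertN 0 536870912 0 536870912 33554432 16777216 3 false true false .pp 2 0 2
    ndN1q2a ndN2q2a pcN0 cut_pm_202_aa Ext.none :=
  certNK0 (fam := false) (s1 := true) (s2 := false) (a := 2) (b := 0) (c := 2) (cn := .pp) (n1 := ndN1q2a) (n2 := ndN2q2a) (pc := pcN0) (cut := cut_pm_202_aa) (xt := Ext.none) (P1 := 0) (W1 := 536870912) (P2 := 0) (W2 := 536870912) (P3 := 33554432) (W3 := 16777216) (N0 := 3)
    rfl rfl rfl k0_pm_202_aa

noncomputable def cut_pm_202_ab : Cut := Cut.of [[⟨0, 1, 0, 33554432⟩, ⟨1, 0, 0, 33554432⟩, ⟨2, 1, 0, 33554432⟩], [⟨0, 1, 0, 16777216⟩, ⟨1, 0, 1, 25165824⟩, ⟨2, 1, 1, 25165824⟩, ⟨1, 0, 0, 67108864⟩, ⟨1, 1, 0, 1056964608⟩, ⟨2, 1, 0, 67108864⟩, ⟨2, 2, 0, 1056964608⟩]]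

noncomputable def f_pm_202_ab : ℕ → ℕ → ℕ → ℕ → Bool := onCell 0 536870912 1239849684 370763052 33554432 16777216
    (rowNK 3 0 false true false .pp 2 0 2 (qsf 0 536870912 1239849684 370763052 0) ndN1q2a ndN2q2b pcN0 cut_pm_202_ab Ext.none)

def k0_pm_202_ab : ∃ t, chk3 f_pm_202_ab t 1 1 1 = true :=
  ⟨(a (l 3) (a (l 3) (a (l 3) (b (b (b (l 85533617863) (l 18114880)) (l 105397241847)) (b (l 17674424) (l 17642680)))))), by decide +kernel⟩

theorem c_pm_202_ab : CertN 0 536870912 1239849684 370763052 33554432 16777216 3 false true false .pp 2 0 2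
    ndN1q2a ndN2q2b pcN0 cut_pm_202_ab Ext.none :=
  certNK0 (fam := false) (s1 := true) (s2 := false) (a := 2) (b := 0) (c := 2) (cn := .pp) (n1 := ndN1q2a) (n2 := ndN2q2b) (pc := pcN0) (cut := cut_pm_202_ab) (xt := Ext.none) (P1 := 0) (W1 := 536870912) (P2 := 1239849684) (W2 := 370763052) (P3 := 33554432) (W3 := 16777216) (N0 := 3)
    rfl rfl rfl k0_pm_202_ab

noncomputable def cut_pm_202_ba : Cut := Cut.of [[⟨0, 1, 0, 33554432⟩, ⟨1, 0, 0, 33554432⟩, ⟨2, 1, 0, 33554432⟩], [⟨0, 1, 0, 16777216⟩, ⟨1, 0, 1, 25165824⟩, ⟨2, 1, 1, 25165824⟩, ⟨1, 0, 0, 67108864⟩, ⟨1, 1, 0, 1056964608⟩, ⟨2, 1, 0, 67108864⟩, ⟨2, 2, 0, 1056964608⟩]]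

noncomputable def f_pm_202_ba : ℕ → ℕ → ℕ → ℕ → Bool := onCell 1239849684 370763052 0 536870912 33554432 16777216
    (rowNK 3 0 false true false .pp 2 0 2 (qsf 1239849684 370763052 0 536870912 0) ndN1q2b ndN2q2a pcN0 cut_pm_202_ba Ext.none)

def k0_pm_202_ba : ∃ t, chk3 f_pm_202_ba t 1 1 1 = true :=
  ⟨(l 3), by decide +kernel⟩

theorem c_pm_202_ba : CertN 1239849684 370763052 0 536870912 33554432 16777216 3 false true false .pp 2 0 2
    ndN1q2b ndN2q2a pcN0 cut_pm_202_ba Ext.none :=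
  certNK0 (fam := false) (s1 := true) (s2 := false) (a := 2) (b := 0) (c := 2) (cn := .pp) (n1 := ndN1q2b) (n2 := ndN2q2a) (pc := pcN0) (cut := cut_pm_202_ba) (xt := Ext.none) (P1 := 1239849684) (W1 := 370763052) (P2 := 0) (W2 := 536870912) (P3 := 33554432) (W3 := 16777216) (N0 := 3)
    rfl rfl rfl k0_pm_202_ba

noncomputable def cut_pm_202_bb : Cut := Cut.of [[⟨0, 1, 0, 33554432⟩, ⟨1, 0, 0, 33554432⟩, ⟨2, 1, 0, 33554432⟩], [⟨0, 1, 0, 16777216⟩, ⟨1, 0, 1, 25165824⟩, ⟨2, 1, 1, 25165824⟩, ⟨1, 0, 0, 67108864⟩, ⟨1, 1, 0, 1056964608⟩, ⟨2, 1, 0, 67108864⟩, ⟨2, 2, 0, 1056964608⟩]]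

noncomputable def f_pm_202_bb : ℕ → ℕ → ℕ → ℕ → Bool := onCell 1239849684 370763052 1239849684 370763052 33554432 16777216
    (rowNK 3 0 false true false .pp 2 0 2 (qsf 1239849684 370763052 1239849684 370763052 0) ndN1q2b ndN2q2b pcN0 cut_pm_202_bb Ext.none)

def k0_pm_202_bb : ∃ t, chk3 f_pm_202_bb t 1 1 1 = true :=
  ⟨(l 3), by decide +kernel⟩

theorem c_pm_202_bb : CertN 1239849684 370763052 1239849684 370763052 33554432 16777216 3 false true false .pp 2 0 2
    ndN1q2b ndN2q2b pcN0 cut_pm_202_bb Ext.none :=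
  certNK0 (fam := false) (s1 := true) (s2 := false) (a := 2) (b := 0) (c := 2) (cn := .pp) (n1 := ndN1q2b) (n2 := ndN2q2b) (pc := pcN0) (cut := cut_pm_202_bb) (xt := Ext.none) (P1 := 1239849684) (W1 := 370763052) (P2 := 1239849684) (W2 := 370763052) (P3 := 33554432) (W3 := 16777216) (N0 := 3)
    rfl rfl rfl k0_pm_202_bb

noncomputable def f_pm_203_a : ℕ → ℕ → ℕ → ℕ → Bool := onCell 0 536870912 0 536870912 33554432 16777216
    (rowNK 3 1 false true false .up 2 0 3 (qsf 0 536870912 1610612736 536870912 0) ndN1q2a ndN2q3 pcN0 Cut.none Ext.none)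

def k0_pm_203_a : ∃ t, chk3 f_pm_203_a t 1 1 1 = true :=
  ⟨(a (l 3) (a (l 3) (b (l 1) (b (l 1) (l 97880155799))))), by decide +kernel⟩

theorem c_pm_203_a : CertN 0 536870912 1610612736 536870912 33554432 16777216 3 false true false .up 2 0 3
    ndN1q2a ndN2q3 pcN0 Cut.none Ext.none :=
  certNK1 (fam := false) (s1 := true) (s2 := false) (a := 2) (b := 0) (c := 3) (cn := .up) (n1 := ndN1q2a) (n2 := ndN2q3) (pc := pcN0) (cut := Cut.none) (xt := Ext.none) (P1 := 0) (W1 := 536870912) (P2 := 1610612736) (W2 := 536870912) (P3 := 33554432) (W3 := 16777216) (N0 := 3)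
    rfl rfl rfl (fun _ => rfl) k0_pm_203_a

noncomputable def f_pm_203_b : ℕ → ℕ → ℕ → ℕ → Bool := onCell 1239849684 370763052 1610612736 536870912 33554432 16777216
    (rowNK 3 0 false true false .up 2 0 3 (qsf 1239849684 370763052 1610612736 536870912 0) ndN1q2b ndN2q3 pcN0 Cut.none Ext.none)

def k0_pm_203_b : ∃ t, chk3 f_pm_203_b t 1 1 1 = true :=
  ⟨(l 3), by decide +kernel⟩

theorem c_pm_203_b : CertN 1239849684 370763052 1610612736 536870912 33554432 16777216 3 false true false .up 2 0 3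
    ndN1q2b ndN2q3 pcN0 Cut.none Ext.none :=
  certNK0 (fam := false) (s1 := true) (s2 := false) (a := 2) (b := 0) (c := 3) (cn := .up) (n1 := ndN1q2b) (n2 := ndN2q3) (pc := pcN0) (cut := Cut.none) (xt := Ext.none) (P1 := 1239849684) (W1 := 370763052) (P2 := 1610612736) (W2 := 536870912) (P3 := 33554432) (W3 := 16777216) (N0 := 3)
    rfl rfl rfl k0_pm_203_b

noncomputable def cut_pm_213_a : Cut := Cut.of [[⟨0, 1, 0, 7061502⟩, ⟨1, 1, 0, 7061502⟩, ⟨2, 2, 0, 184626⟩]]

noncomputable def f_pm_213_a : ℕ → ℕ → ℕ → ℕ → Bool := onCell 0 536870912 1610612736 536870912 33554432 16777216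
    (rowNK 3 0 false true false .pnn 2 1 3 (qsf 0 536870912 1610612736 536870912 1) ndN1q2a ndN2q3 pcN1 cut_pm_213_a Ext.none)

def k0_pm_213_a : ∃ t, chk3 f_pm_213_a t 1 1 1 = true :=
  ⟨(a (l 3) (a (b (l 3) (l 3)) (a (b (l 3) (l 3)) (b (b (b (l 17448680) (l 17335080)) (b (l 17400048) (l 17486392))) (b (b (l 138681852999) (l 131165514007)) (a (l 3) (a (l 3) (b (b (l 17175952) (l 17127688)) (b (l 163913929591) (b (l 172503643319) (a (l 3) (b (l 175187832167) (a (l 3) (b (l 176798376471) (a (l 3) (a (l 3) (b (l 16807144) (b (l 178408934119) (b (l 178408945111) (a (l 3) (b (l 178408930039) (b (l 159618437735) (l 6))))))))))))))))))))))), by decide +kernel⟩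

theorem c_pm_213_a : CertN 0 536870912 1610612736 536870912 33554432 16777216 3 false true false .pnn 2 1 3
    ndN1q2a ndN2q3 pcN1 cut_pm_213_a Ext.none :=
  certNK0 (fam := false) (s1 := true) (s2 := false) (a := 2) (b := 1) (c := 3) (cn := .pnn) (n1 := ndN1q2a) (n2 := ndN2q3) (pc := pcN1) (cut := cut_pm_213_a) (xt := Ext.none) (P1 := 0) (W1 := 536870912) (P2 := 1610612736) (W2 := 536870912) (P3 := 33554432) (W3 := 16777216) (N0 := 3)
    rfl rfl rfl k0_pm_213_a

noncomputable def cut_pm_213_b : Cut := Cut.of [[⟨0, 1, 0, 7061502⟩, ⟨1, 1, 0, 7061502⟩, ⟨2, 2, 0, 184626⟩]]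

noncomputable def f_pm_213_b : ℕ → ℕ → ℕ → ℕ → Bool := onCell 1239849684 370763052 1610612736 536870912 33554432 16777216
    (rowNK 3 0 false true false .pnn 2 1 3 (qsf 1239849684 370763052 1610612736 536870912 1) ndN1q2b ndN2q3 pcN1 cut_pm_213_b Ext.none)

def k0_pm_213_b : ∃ t, chk3 f_pm_213_b t 1 1 1 = true :=
  ⟨(l 3), by decide +kernel⟩

theorem c_pm_213_b : CertN 1239849684 370763052 1610612736 536870912 33554432 16777216 3 false true false .pnn 2 1 3
    ndN1q2b ndN2q3 pcN1 cut_pm_213_b Ext.none :=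
  certNK0 (fam := false) (s1 := true) (s2 := false) (a := 2) (b := 1) (c := 3) (cn := .pnn) (n1 := ndN1q2b) (n2 := ndN2q3) (pc := pcN1) (cut := cut_pm_213_b) (xt := Ext.none) (P1 := 1239849684) (W1 := 370763052) (P2 := 1610612736) (W2 := 536870912) (P3 := 33554432) (W3 := 16777216) (N0 := 3)
    rfl rfl rfl k0_pm_213_b

noncomputable def f_pm_303 : ℕ → ℕ → ℕ → ℕ → Bool := onCell 1610612736 536870912 1610612736 536870912 33554432 16777216
    (rowNK 3 0 false true false .npn 3 0 3 (qsf 1610612736 536870912 1610612736 536870912 0) ndN1q3 ndN2q3 pcN0 Cut.none Ext.none)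

def k0_pm_303 : ∃ t, chk3 f_pm_303 t 1 1 1 = true :=
  ⟨(l 3), by decide +kernel⟩

theorem c_pm_303 : CertN 1610612736 536870912 1610612736 536870912 33554432 16777216 3 false true false .npn 3 0 3
    ndN1q3 ndN2q3 pcN0 Cut.none Ext.none :=
  certNK0 (fam := false) (s1 := true) (s2 := false) (a := 3) (b := 0) (c := 3) (cn := .npn) (n1 := ndN1q3) (n2 := ndN2q3) (pc := pcN0) (cut := Cut.none) (xt := Ext.none) (P1 := 1610612736) (W1 := 536870912) (P2 := 1610612736) (W2 := 536870912) (P3 := 33554432) (W3 := 16777216) (N0 := 3)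
    rfl rfl rfl k0_pm_303

noncomputable def f_pm_313 : ℕ → ℕ → ℕ → ℕ → Bool := onCell 1610612736 536870912 1610612736 536870912 33554432 16777216
    (rowNK 3 0 false true false .dn 3 1 3 (qsf 1610612736 536870912 1610612736 536870912 1) ndN1q3 ndN2q3 pcN1 Cut.none Ext.none)

def k0_pm_313 : ∃ t, chk3 f_pm_313 t 1 1 1 = true :=
  ⟨(l 3), by decide +kernel⟩

theorem c_pm_313 : CertN 1610612736 536870912 1610612736 536870912 33554432 16777216 3 false true false .dn 3 1 3
    ndN1q3 ndN2q3 pcN1 Cut.none Ext.none :=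
  certNK0 (fam := false) (s1 := true) (s2 := false) (a := 3) (b := 1) (c := 3) (cn := .dn) (n1 := ndN1q3) (n2 := ndN2q3) (pc := pcN1) (cut := Cut.none) (xt := Ext.none) (P1 := 1610612736) (W1 := 536870912) (P2 := 1610612736) (W2 := 536870912) (P3 := 33554432) (W3 := 16777216) (N0 := 3)
    rfl rfl rfl k0_pm_313

noncomputable def f_mm_001 : ℕ → ℕ → ℕ → ℕ → Bool := onCell 0 536870912 0 536870912 33554432 16777216
    (rowNK 3 1 false false false .up 0 0 1 (qsf 0 536870912 536870912 536870912 0) ndN1q0 ndN2q1 pcN0 Cut.none Ext.none)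

def k0_mm_001 : ∃ t, chk3 f_mm_001 t 1 1 1 = true :=
  ⟨(l 3), by decide +kernel⟩

theorem c_mm_001 : CertN 0 536870912 536870912 536870912 33554432 16777216 3 false false false .up 0 0 1
    ndN1q0 ndN2q1 pcN0 Cut.none Ext.none :=
  certNK1 (fam := false) (s1 := false) (s2 := false) (a := 0) (b := 0) (c := 1) (cn := .up) (n1 := ndN1q0) (n2 := ndN2q1) (pc := pcN0) (cut := Cut.none) (xt := Ext.none) (P1 := 0) (W1 := 536870912) (P2 := 536870912) (W2 := 536870912) (P3 := 33554432) (W3 := 16777216) (N0 := 3)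
    rfl rfl rfl (fun _ => rfl) k0_mm_001

noncomputable def f_mm_011 : ℕ → ℕ → ℕ → ℕ → Bool := onCell 0 536870912 536870912 536870912 33554432 16777216
    (rowNK 3 1 false false false .pnn 0 1 1 (qsf 0 536870912 536870912 536870912 1) ndN1q0 ndN2q1 pcN1 Cut.none Ext.none)

def k0_mm_011 : ∃ t, chk3 f_mm_011 t 1 1 1 = true :=
  ⟨(l 5), by decide +kernel⟩

theorem c_mm_011 : CertN 0 536870912 536870912 536870912 33554432 16777216 3 false false false .pnn 0 1 1
    ndN1q0 ndN2q1 pcN1 Cut.none Ext.none :=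
  certNK1 (fam := false) (s1 := false) (s2 := false) (a := 0) (b := 1) (c := 1) (cn := .pnn) (n1 := ndN1q0) (n2 := ndN2q1) (pc := pcN1) (cut := Cut.none) (xt := Ext.none) (P1 := 0) (W1 := 536870912) (P2 := 536870912) (W2 := 536870912) (P3 := 33554432) (W3 := 16777216) (N0 := 3)
    rfl rfl rfl (fun _ => rfl) k0_mm_011

noncomputable def f_mm_012_a : ℕ → ℕ → ℕ → ℕ → Bool := onCell 0 536870912 0 536870912 33554432 16777216
    (rowNK 3 0 false false false .pnp 0 1 2 (qsf 0 536870912 0 536870912 1) ndN1q0 ndN2q2a pcN1 Cut.none Ext.none)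

def k0_mm_012_a : ∃ t, chk3 f_mm_012_a t 1 1 1 = true :=
  ⟨(l 5), by decide +kernel⟩

theorem c_mm_012_a : CertN 0 536870912 0 536870912 33554432 16777216 3 false false false .pnp 0 1 2
    ndN1q0 ndN2q2a pcN1 Cut.none Ext.none :=
  certNK0 (fam := false) (s1 := false) (s2 := false) (a := 0) (b := 1) (c := 2) (cn := .pnp) (n1 := ndN1q0) (n2 := ndN2q2a) (pc := pcN1) (cut := Cut.none) (xt := Ext.none) (P1 := 0) (W1 := 536870912) (P2 := 0) (W2 := 536870912) (P3 := 33554432) (W3 := 16777216) (N0 := 3)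
    rfl rfl rfl k0_mm_012_a

noncomputable def f_mm_012_b : ℕ → ℕ → ℕ → ℕ → Bool := onCell 0 536870912 1239849684 370763052 33554432 16777216
    (rowNK 3 0 false false false .pnp 0 1 2 (qsf 0 536870912 1239849684 370763052 1) ndN1q0 ndN2q2b pcN1 Cut.none Ext.none)

def k0_mm_012_b : ∃ t, chk3 f_mm_012_b t 1 1 1 = true :=
  ⟨(l 5), by decide +kernel⟩

theorem c_mm_012_b : CertN 0 536870912 1239849684 370763052 33554432 16777216 3 false false false .pnp 0 1 2
    ndN1q0 ndN2q2b pcN1 Cut.none Ext.none :=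
  certNK0 (fam := false) (s1 := false) (s2 := false) (a := 0) (b := 1) (c := 2) (cn := .pnp) (n1 := ndN1q0) (n2 := ndN2q2b) (pc := pcN1) (cut := Cut.none) (xt := Ext.none) (P1 := 0) (W1 := 536870912) (P2 := 1239849684) (W2 := 370763052) (P3 := 33554432) (W3 := 16777216) (N0 := 3)
    rfl rfl rfl k0_mm_012_b

noncomputable def f_mm_022_a : ℕ → ℕ → ℕ → ℕ → Bool := onCell 0 536870912 0 536870912 33554432 16777216
    (rowNK 3 0 false false false .pp 0 2 2 (qsf 0 536870912 0 536870912 2) ndN1q0 ndN2q2a pcN2 Cut.none Ext.none)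

def k0_mm_022_a : ∃ t, chk3 f_mm_022_a t 1 1 1 = true :=
  ⟨(l 5), by decide +kernel⟩

theorem c_mm_022_a : CertN 0 536870912 0 536870912 33554432 16777216 3 false false false .pp 0 2 2
    ndN1q0 ndN2q2a pcN2 Cut.none Ext.none :=
  certNK0 (fam := false) (s1 := false) (s2 := false) (a := 0) (b := 2) (c := 2) (cn := .pp) (n1 := ndN1q0) (n2 := ndN2q2a) (pc := pcN2) (cut := Cut.none) (xt := Ext.none) (P1 := 0) (W1 := 536870912) (P2 := 0) (W2 := 536870912) (P3 := 33554432) (W3 := 16777216) (N0 := 3)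
    rfl rfl rfl k0_mm_022_a

noncomputable def f_mm_022_b : ℕ → ℕ → ℕ → ℕ → Bool := onCell 0 536870912 1239849684 370763052 33554432 16777216
    (rowNK 3 0 false false false .pp 0 2 2 (qsf 0 536870912 1239849684 370763052 2) ndN1q0 ndN2q2b pcN2 Cut.none Ext.none)

def k0_mm_022_b : ∃ t, chk3 f_mm_022_b t 1 1 1 = true :=
  ⟨(l 5), by decide +kernel⟩

theorem c_mm_022_b : CertN 0 536870912 1239849684 370763052 33554432 16777216 3 false false false .pp 0 2 2
    ndN1q0 ndN2q2b pcN2 Cut.none Ext.none :=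
  certNK0 (fam := false) (s1 := false) (s2 := false) (a := 0) (b := 2) (c := 2) (cn := .pp) (n1 := ndN1q0) (n2 := ndN2q2b) (pc := pcN2) (cut := Cut.none) (xt := Ext.none) (P1 := 0) (W1 := 536870912) (P2 := 1239849684) (W2 := 370763052) (P3 := 33554432) (W3 := 16777216) (N0 := 3)
    rfl rfl rfl k0_mm_022_b

noncomputable def f_mm_023 : ℕ → ℕ → ℕ → ℕ → Bool := onCell 0 536870912 1610612736 536870912 33554432 16777216
    (rowNK 3 0 false false false .up 0 2 3 (qsf 0 536870912 1610612736 536870912 2) ndN1q0 ndN2q3 pcN2 Cut.none Ext.none)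

def k0_mm_023 : ∃ t, chk3 f_mm_023 t 1 1 1 = true :=
  ⟨(l 5), by decide +kernel⟩

theorem c_mm_023 : CertN 0 536870912 1610612736 536870912 33554432 16777216 3 false false false .up 0 2 3
    ndN1q0 ndN2q3 pcN2 Cut.none Ext.none :=
  certNK0 (fam := false) (s1 := false) (s2 := false) (a := 0) (b := 2) (c := 3) (cn := .up) (n1 := ndN1q0) (n2 := ndN2q3) (pc := pcN2) (cut := Cut.none) (xt := Ext.none) (P1 := 0) (W1 := 536870912) (P2 := 1610612736) (W2 := 536870912) (P3 := 33554432) (W3 := 16777216) (N0 := 3)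
    rfl rfl rfl k0_mm_023

noncomputable def f_mm_033 : ℕ → ℕ → ℕ → ℕ → Bool := onCell 0 536870912 1610612736 536870912 33554432 16777216
    (rowNK 3 0 false false false .pnn 0 3 3 (qsf 0 536870912 1610612736 536870912 3) ndN1q0 ndN2q3 pcN3 Cut.none Ext.none)

def k0_mm_033 : ∃ t, chk3 f_mm_033 t 1 1 1 = true :=
  ⟨(l 5), by decide +kernel⟩

theorem c_mm_033 : CertN 0 536870912 1610612736 536870912 33554432 16777216 3 false false false .pnn 0 3 3
    ndN1q0 ndN2q3 pcN3 Cut.none Ext.none :=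
  certNK0 (fam := false) (s1 := false) (s2 := false) (a := 0) (b := 3) (c := 3) (cn := .pnn) (n1 := ndN1q0) (n2 := ndN2q3) (pc := pcN3) (cut := Cut.none) (xt := Ext.none) (P1 := 0) (W1 := 536870912) (P2 := 1610612736) (W2 := 536870912) (P3 := 33554432) (W3 := 16777216) (N0 := 3)
    rfl rfl rfl k0_mm_033

noncomputable def f_mm_101 : ℕ → ℕ → ℕ → ℕ → Bool := onCell 536870912 536870912 536870912 536870912 33554432 16777216
    (rowNK 3 0 false false false .npn 1 0 1 (qsf 536870912 536870912 536870912 536870912 0) ndN1q1 ndN2q1 pcN0 Cut.none Ext.none)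

def k0_mm_101 : ∃ t, chk3 f_mm_101 t 1 1 1 = true :=
  ⟨(l 3), by decide +kernel⟩

theorem c_mm_101 : CertN 536870912 536870912 536870912 536870912 33554432 16777216 3 false false false .npn 1 0 1
    ndN1q1 ndN2q1 pcN0 Cut.none Ext.none :=
  certNK0 (fam := false) (s1 := false) (s2 := false) (a := 1) (b := 0) (c := 1) (cn := .npn) (n1 := ndN1q1) (n2 := ndN2q1) (pc := pcN0) (cut := Cut.none) (xt := Ext.none) (P1 := 536870912) (W1 := 536870912) (P2 := 536870912) (W2 := 536870912) (P3 := 33554432) (W3 := 16777216) (N0 := 3)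
    rfl rfl rfl k0_mm_101

noncomputable def f_mm_102_a : ℕ → ℕ → ℕ → ℕ → Bool := onCell 536870912 536870912 0 536870912 33554432 16777216
    (rowNK 3 0 false false false .npp 1 0 2 (qsf 536870912 536870912 0 536870912 0) ndN1q1 ndN2q2a pcN0 Cut.none Ext.none)

def k0_mm_102_a : ∃ t, chk3 f_mm_102_a t 1 1 1 = true :=
  ⟨(l 3), by decide +kernel⟩

theorem c_mm_102_a : CertN 536870912 536870912 0 536870912 33554432 16777216 3 false false false .npp 1 0 2
    ndN1q1 ndN2q2a pcN0 Cut.none Ext.none :=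
  certNK0 (fam := false) (s1 := false) (s2 := false) (a := 1) (b := 0) (c := 2) (cn := .npp) (n1 := ndN1q1) (n2 := ndN2q2a) (pc := pcN0) (cut := Cut.none) (xt := Ext.none) (P1 := 536870912) (W1 := 536870912) (P2 := 0) (W2 := 536870912) (P3 := 33554432) (W3 := 16777216) (N0 := 3)
    rfl rfl rfl k0_mm_102_a

noncomputable def f_mm_102_b : ℕ → ℕ → ℕ → ℕ → Bool := onCell 536870912 536870912 1239849684 370763052 33554432 16777216
    (rowNK 3 0 false false false .npp 1 0 2 (qsf 536870912 536870912 1239849684 370763052 0) ndN1q1 ndN2q2b pcN0 Cut.none Ext.none)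

def k0_mm_102_b : ∃ t, chk3 f_mm_102_b t 1 1 1 = true :=
  ⟨(l 5), by decide +kernel⟩

theorem c_mm_102_b : CertN 536870912 536870912 1239849684 370763052 33554432 16777216 3 false false false .npp 1 0 2
    ndN1q1 ndN2q2b pcN0 Cut.none Ext.none :=
  certNK0 (fam := false) (s1 := false) (s2 := false) (a := 1) (b := 0) (c := 2) (cn := .npp) (n1 := ndN1q1) (n2 := ndN2q2b) (pc := pcN0) (cut := Cut.none) (xt := Ext.none) (P1 := 536870912) (W1 := 536870912) (P2 := 1239849684) (W2 := 370763052) (P3 := 33554432) (W3 := 16777216) (N0 := 3)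
    rfl rfl rfl k0_mm_102_b

noncomputable def f_mm_112_a : ℕ → ℕ → ℕ → ℕ → Bool := onCell 536870912 536870912 0 536870912 33554432 16777216
    (rowNK 3 0 false false false .dn 1 1 2 (qsf 536870912 536870912 0 536870912 1) ndN1q1 ndN2q2a pcN1 Cut.none Ext.none)

def k0_mm_112_a : ∃ t, chk3 f_mm_112_a t 1 1 1 = true :=
  ⟨(l 3), by decide +kernel⟩

theorem c_mm_112_a : CertN 536870912 536870912 0 536870912 33554432 16777216 3 false false false .dn 1 1 2
    ndN1q1 ndN2q2a pcN1 Cut.none Ext.none :=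
  certNK0 (fam := false) (s1 := false) (s2 := false) (a := 1) (b := 1) (c := 2) (cn := .dn) (n1 := ndN1q1) (n2 := ndN2q2a) (pc := pcN1) (cut := Cut.none) (xt := Ext.none) (P1 := 536870912) (W1 := 536870912) (P2 := 0) (W2 := 536870912) (P3 := 33554432) (W3 := 16777216) (N0 := 3)
    rfl rfl rfl k0_mm_112_a

noncomputable def f_mm_112_b : ℕ → ℕ → ℕ → ℕ → Bool := onCell 536870912 536870912 1239849684 370763052 33554432 16777216
    (rowNK 3 0 false false false .dn 1 1 2 (qsf 536870912 536870912 1239849684 370763052 1) ndN1q1 ndN2q2b pcN1 Cut.none Ext.none)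

def k0_mm_112_b : ∃ t, chk3 f_mm_112_b t 1 1 1 = true :=
  ⟨(l 5), by decide +kernel⟩

theorem c_mm_112_b : CertN 536870912 536870912 1239849684 370763052 33554432 16777216 3 false false false .dn 1 1 2
    ndN1q1 ndN2q2b pcN1 Cut.none Ext.none :=
  certNK0 (fam := false) (s1 := false) (s2 := false) (a := 1) (b := 1) (c := 2) (cn := .dn) (n1 := ndN1q1) (n2 := ndN2q2b) (pc := pcN1) (cut := Cut.none) (xt := Ext.none) (P1 := 536870912) (W1 := 536870912) (P2 := 1239849684) (W2 := 370763052) (P3 := 33554432) (W3 := 16777216) (N0 := 3)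
    rfl rfl rfl k0_mm_112_b

noncomputable def f_mm_113 : ℕ → ℕ → ℕ → ℕ → Bool := onCell 536870912 536870912 1610612736 536870912 33554432 16777216
    (rowNK 3 0 false false false .nn 1 1 3 (qsf 536870912 536870912 1610612736 536870912 1) ndN1q1 ndN2q3 pcN1 Cut.none Ext.none)

def k0_mm_113 : ∃ t, chk3 f_mm_113 t 1 1 1 = true :=
  ⟨(l 5), by decide +kernel⟩

theorem c_mm_113 : CertN 536870912 536870912 1610612736 536870912 33554432 16777216 3 false false false .nn 1 1 3
    ndN1q1 ndN2q3 pcN1 Cut.none Ext.none :=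
  certNK0 (fam := false) (s1 := false) (s2 := false) (a := 1) (b := 1) (c := 3) (cn := .nn) (n1 := ndN1q1) (n2 := ndN2q3) (pc := pcN1) (cut := Cut.none) (xt := Ext.none) (P1 := 536870912) (W1 := 536870912) (P2 := 1610612736) (W2 := 536870912) (P3 := 33554432) (W3 := 16777216) (N0 := 3)
    rfl rfl rfl k0_mm_113

noncomputable def f_mm_123 : ℕ → ℕ → ℕ → ℕ → Bool := onCell 536870912 536870912 1610612736 536870912 33554432 16777216
    (rowNK 3 0 false false false .npn 1 2 3 (qsf 536870912 536870912 1610612736 536870912 2) ndN1q1 ndN2q3 pcN2 Cut.none Ext.none)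

def k0_mm_123 : ∃ t, chk3 f_mm_123 t 1 1 1 = true :=
  ⟨(l 5), by decide +kernel⟩

theorem c_mm_123 : CertN 536870912 536870912 1610612736 536870912 33554432 16777216 3 false false false .npn 1 2 3
    ndN1q1 ndN2q3 pcN2 Cut.none Ext.none :=
  certNK0 (fam := false) (s1 := false) (s2 := false) (a := 1) (b := 2) (c := 3) (cn := .npn) (n1 := ndN1q1) (n2 := ndN2q3) (pc := pcN2) (cut := Cut.none) (xt := Ext.none) (P1 := 536870912) (W1 := 536870912) (P2 := 1610612736) (W2 := 536870912) (P3 := 33554432) (W3 := 16777216) (N0 := 3)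
    rfl rfl rfl k0_mm_123

noncomputable def f_mm_133 : ℕ → ℕ → ℕ → ℕ → Bool := onCell 536870912 536870912 1610612736 536870912 33554432 16777216
    (rowNK 3 0 false false false .dn 1 3 3 (qsf 536870912 536870912 1610612736 536870912 3) ndN1q1 ndN2q3 pcN3 Cut.none Ext.none)

def k0_mm_133 : ∃ t, chk3 f_mm_133 t 1 1 1 = true :=
  ⟨(l 5), by decide +kernel⟩

theorem c_mm_133 : CertN 536870912 536870912 1610612736 536870912 33554432 16777216 3 false false false .dn 1 3 3
    ndN1q1 ndN2q3 pcN3 Cut.none Ext.none :=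
  certNK0 (fam := false) (s1 := false) (s2 := false) (a := 1) (b := 3) (c := 3) (cn := .dn) (n1 := ndN1q1) (n2 := ndN2q3) (pc := pcN3) (cut := Cut.none) (xt := Ext.none) (P1 := 536870912) (W1 := 536870912) (P2 := 1610612736) (W2 := 536870912) (P3 := 33554432) (W3 := 16777216) (N0 := 3)
    rfl rfl rfl k0_mm_133

noncomputable def f_mm_202_aa : ℕ → ℕ → ℕ → ℕ → Bool := onCell 0 536870912 0 536870912 33554432 16777216
    (rowNK 3 0 false false false .pp 2 0 2 (qsf 0 536870912 0 536870912 0) ndN1q2a ndN2q2a pcN0 Cut.none Ext.none)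

def k0_mm_202_aa : ∃ t, chk3 f_mm_202_aa t 1 1 1 = true :=
  ⟨(l 3), by decide +kernel⟩

theorem c_mm_202_aa : CertN 0 536870912 0 536870912 33554432 16777216 3 false false false .pp 2 0 2
    ndN1q2a ndN2q2a pcN0 Cut.none Ext.none :=
  certNK0 (fam := false) (s1 := false) (s2 := false) (a := 2) (b := 0) (c := 2) (cn := .pp) (n1 := ndN1q2a) (n2 := ndN2q2a) (pc := pcN0) (cut := Cut.none) (xt := Ext.none) (P1 := 0) (W1 := 536870912) (P2 := 0) (W2 := 536870912) (P3 := 33554432) (W3 := 16777216) (N0 := 3)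
    rfl rfl rfl k0_mm_202_aa

noncomputable def f_mm_202_ab : ℕ → ℕ → ℕ → ℕ → Bool := onCell 0 536870912 1239849684 370763052 33554432 16777216
    (rowNK 3 0 false false false .pp 2 0 2 (qsf 0 536870912 1239849684 370763052 0) ndN1q2a ndN2q2b pcN0 Cut.none Ext.none)

def k0_mm_202_ab : ∃ t, chk3 f_mm_202_ab t 1 1 1 = true :=
  ⟨(l 3), by decide +kernel⟩

theorem c_mm_202_ab : CertN 0 536870912 1239849684 370763052 33554432 16777216 3 false false false .pp 2 0 2
    ndN1q2a ndN2q2b pcN0 Cut.none Ext.none :=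
  certNK0 (fam := false) (s1 := false) (s2 := false) (a := 2) (b := 0) (c := 2) (cn := .pp) (n1 := ndN1q2a) (n2 := ndN2q2b) (pc := pcN0) (cut := Cut.none) (xt := Ext.none) (P1 := 0) (W1 := 536870912) (P2 := 1239849684) (W2 := 370763052) (P3 := 33554432) (W3 := 16777216) (N0 := 3)
    rfl rfl rfl k0_mm_202_ab

noncomputable def f_mm_202_ba : ℕ → ℕ → ℕ → ℕ → Bool := onCell 1239849684 370763052 0 536870912 33554432 16777216
    (rowNK 3 0 false false false .pp 2 0 2 (qsf 1239849684 370763052 0 536870912 0) ndN1q2b ndN2q2a pcN0 Cut.none Ext.none)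

def k0_mm_202_ba : ∃ t, chk3 f_mm_202_ba t 1 1 1 = true :=
  ⟨(l 3), by decide +kernel⟩

theorem c_mm_202_ba : CertN 1239849684 370763052 0 536870912 33554432 16777216 3 false false false .pp 2 0 2
    ndN1q2b ndN2q2a pcN0 Cut.none Ext.none :=
  certNK0 (fam := false) (s1 := false) (s2 := false) (a := 2) (b := 0) (c := 2) (cn := .pp) (n1 := ndN1q2b) (n2 := ndN2q2a) (pc := pcN0) (cut := Cut.none) (xt := Ext.none) (P1 := 1239849684) (W1 := 370763052) (P2 := 0) (W2 := 536870912) (P3 := 33554432) (W3 := 16777216) (N0 := 3)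
    rfl rfl rfl k0_mm_202_ba

noncomputable def f_mm_202_bb : ℕ → ℕ → ℕ → ℕ → Bool := onCell 1239849684 370763052 1239849684 370763052 33554432 16777216
    (rowNK 3 0 false false false .pp 2 0 2 (qsf 1239849684 370763052 1239849684 370763052 0) ndN1q2b ndN2q2b pcN0 Cut.none Ext.none)

def k0_mm_202_bb : ∃ t, chk3 f_mm_202_bb t 1 1 1 = true :=
  ⟨(l 3), by decide +kernel⟩

theorem c_mm_202_bb : CertN 1239849684 370763052 1239849684 370763052 33554432 16777216 3 false false false .pp 2 0 2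
    ndN1q2b ndN2q2b pcN0 Cut.none Ext.none :=
  certNK0 (fam := false) (s1 := false) (s2 := false) (a := 2) (b := 0) (c := 2) (cn := .pp) (n1 := ndN1q2b) (n2 := ndN2q2b) (pc := pcN0) (cut := Cut.none) (xt := Ext.none) (P1 := 1239849684) (W1 := 370763052) (P2 := 1239849684) (W2 := 370763052) (P3 := 33554432) (W3 := 16777216) (N0 := 3)
    rfl rfl rfl k0_mm_202_bb

noncomputable def f_mm_203_a : ℕ → ℕ → ℕ → ℕ → Bool := onCell 0 536870912 0 536870912 33554432 16777216
    (rowNK 3 1 false false false .up 2 0 3 (qsf 0 536870912 1610612736 536870912 0) ndN1q2a ndN2q3 pcN0 Cut.none Ext.none)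

def k0_mm_203_a : ∃ t, chk3 f_mm_203_a t 1 1 1 = true :=
  ⟨(l 3), by decide +kernel⟩

theorem c_mm_203_a : CertN 0 536870912 1610612736 536870912 33554432 16777216 3 false false false .up 2 0 3
    ndN1q2a ndN2q3 pcN0 Cut.none Ext.none :=
  certNK1 (fam := false) (s1 := false) (s2 := false) (a := 2) (b := 0) (c := 3) (cn := .up) (n1 := ndN1q2a) (n2 := ndN2q3) (pc := pcN0) (cut := Cut.none) (xt := Ext.none) (P1 := 0) (W1 := 536870912) (P2 := 1610612736) (W2 := 536870912) (P3 := 33554432) (W3 := 16777216) (N0 := 3)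
    rfl rfl rfl (fun _ => rfl) k0_mm_203_a

noncomputable def f_mm_203_b : ℕ → ℕ → ℕ → ℕ → Bool := onCell 1239849684 370763052 1610612736 536870912 33554432 16777216
    (rowNK 3 0 false false false .up 2 0 3 (qsf 1239849684 370763052 1610612736 536870912 0) ndN1q2b ndN2q3 pcN0 Cut.none Ext.none)

def k0_mm_203_b : ∃ t, chk3 f_mm_203_b t 1 1 1 = true :=
  ⟨(l 3), by decide +kernel⟩

theorem c_mm_203_b : CertN 1239849684 370763052 1610612736 536870912 33554432 16777216 3 false false false .up 2 0 3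
    ndN1q2b ndN2q3 pcN0 Cut.none Ext.none :=
  certNK0 (fam := false) (s1 := false) (s2 := false) (a := 2) (b := 0) (c := 3) (cn := .up) (n1 := ndN1q2b) (n2 := ndN2q3) (pc := pcN0) (cut := Cut.none) (xt := Ext.none) (P1 := 1239849684) (W1 := 370763052) (P2 := 1610612736) (W2 := 536870912) (P3 := 33554432) (W3 := 16777216) (N0 := 3)
    rfl rfl rfl k0_mm_203_b

noncomputable def f_mm_213_a : ℕ → ℕ → ℕ → ℕ → Bool := onCell 0 536870912 1610612736 536870912 33554432 16777216
    (rowNK 3 0 false false false .pnn 2 1 3 (qsf 0 536870912 1610612736 536870912 1) ndN1q2a ndN2q3 pcN1 Cut.none Ext.none)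

def k0_mm_213_a : ∃ t, chk3 f_mm_213_a t 1 1 1 = true :=
  ⟨(b (l 3) (l 5)), by decide +kernel⟩

theorem c_mm_213_a : CertN 0 536870912 1610612736 536870912 33554432 16777216 3 false false false .pnn 2 1 3
    ndN1q2a ndN2q3 pcN1 Cut.none Ext.none :=
  certNK0 (fam := false) (s1 := false) (s2 := false) (a := 2) (b := 1) (c := 3) (cn := .pnn) (n1 := ndN1q2a) (n2 := ndN2q3) (pc := pcN1) (cut := Cut.none) (xt := Ext.none) (P1 := 0) (W1 := 536870912) (P2 := 1610612736) (W2 := 536870912) (P3 := 33554432) (W3 := 16777216) (N0 := 3)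
    rfl rfl rfl k0_mm_213_a

noncomputable def f_mm_213_b : ℕ → ℕ → ℕ → ℕ → Bool := onCell 1239849684 370763052 1610612736 536870912 33554432 16777216
    (rowNK 3 0 false false false .pnn 2 1 3 (qsf 1239849684 370763052 1610612736 536870912 1) ndN1q2b ndN2q3 pcN1 Cut.none Ext.none)

def k0_mm_213_b : ∃ t, chk3 f_mm_213_b t 1 1 1 = true :=
  ⟨(l 3), by decide +kernel⟩

theorem c_mm_213_b : CertN 1239849684 370763052 1610612736 536870912 33554432 16777216 3 false false false .pnn 2 1 3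
    ndN1q2b ndN2q3 pcN1 Cut.none Ext.none :=
  certNK0 (fam := false) (s1 := false) (s2 := false) (a := 2) (b := 1) (c := 3) (cn := .pnn) (n1 := ndN1q2b) (n2 := ndN2q3) (pc := pcN1) (cut := Cut.none) (xt := Ext.none) (P1 := 1239849684) (W1 := 370763052) (P2 := 1610612736) (W2 := 536870912) (P3 := 33554432) (W3 := 16777216) (N0 := 3)
    rfl rfl rfl k0_mm_213_b

noncomputable def f_mm_303 : ℕ → ℕ → ℕ → ℕ → Bool := onCell 1610612736 536870912 1610612736 536870912 33554432 16777216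
    (rowNK 3 0 false false false .npn 3 0 3 (qsf 1610612736 536870912 1610612736 536870912 0) ndN1q3 ndN2q3 pcN0 Cut.none Ext.none)

def k0_mm_303 : ∃ t, chk3 f_mm_303 t 1 1 1 = true :=
  ⟨(l 3), by decide +kernel⟩

theorem c_mm_303 : CertN 1610612736 536870912 1610612736 536870912 33554432 16777216 3 false false false .npn 3 0 3
    ndN1q3 ndN2q3 pcN0 Cut.none Ext.none :=
  certNK0 (fam := false) (s1 := false) (s2 := false) (a := 3) (b := 0) (c := 3) (cn := .npn) (n1 := ndN1q3) (n2 := ndN2q3) (pc := pcN0) (cut := Cut.none) (xt := Ext.none) (P1 := 1610612736) (W1 := 536870912) (P2 := 1610612736) (W2 := 536870912) (P3 := 33554432) (W3 := 16777216) (N0 := 3)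
    rfl rfl rfl k0_mm_303

noncomputable def f_mm_313 : ℕ → ℕ → ℕ → ℕ → Bool := onCell 1610612736 536870912 1610612736 536870912 33554432 16777216
    (rowNK 3 0 false false false .dn 3 1 3 (qsf 1610612736 536870912 1610612736 536870912 1) ndN1q3 ndN2q3 pcN1 Cut.none Ext.none)

def k0_mm_313 : ∃ t, chk3 f_mm_313 t 1 1 1 = true :=
  ⟨(l 3), by decide +kernel⟩

theorem c_mm_313 : CertN 1610612736 536870912 1610612736 536870912 33554432 16777216 3 false false false .dn 3 1 3
    ndN1q3 ndN2q3 pcN1 Cut.none Ext.none :=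
  certNK0 (fam := false) (s1 := false) (s2 := false) (a := 3) (b := 1) (c := 3) (cn := .dn) (n1 := ndN1q3) (n2 := ndN2q3) (pc := pcN1) (cut := Cut.none) (xt := Ext.none) (P1 := 1610612736) (W1 := 536870912) (P2 := 1610612736) (W2 := 536870912) (P3 := 33554432) (W3 := 16777216) (N0 := 3)
    rfl rfl rfl k0_mm_313

end Pool.Agent.Strip051.G.I1_32_3_64.Tab.C.NB12

namespace Pool.Agent.Strip051.G.I1_32_3_64.Tab.C.NB13

open Pool.Agent.Strip051.PB Pool.Agent.Strip051.PB.T
open Pool.Agent.Strip051.G.I1_32_3_64.Tab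

noncomputable def f_pp_001 : ℕ → ℕ → ℕ → ℕ → Bool := onCell 0 536870912 0 536870912 33554432 16777216
    (rowNK 3 1 false true true .up 0 0 1 (qsf 0 536870912 536870912 536870912 0) ndN1q0 ndN3q1 pcN0 Cut.none Ext.none)

def k0_pp_001 : ∃ t, chk3 f_pp_001 t 1 1 1 = true :=
  ⟨(l 3), by decide +kernel⟩

theorem c_pp_001 : CertN 0 536870912 536870912 536870912 33554432 16777216 3 false true true .up 0 0 1
    ndN1q0 ndN3q1 pcN0 Cut.none Ext.none :=
  certNK1 (fam := false) (s1 := true) (s2 := true) (a := 0) (b := 0) (c := 1) (cn := .up) (n1 := ndN1q0) (n2 := ndN3q1) (pc := pcN0) (cut := Cut.none) (xt := Ext.none) (P1 := 0) (W1 := 536870912) (P2 := 536870912) (W2 := 536870912) (P3 := 33554432) (W3 := 16777216) (N0 := 3)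
    rfl rfl rfl (fun _ => rfl) k0_pp_001

noncomputable def cut_pp_011 : Cut := Cut.of [[⟨0, 0, 0, 33554432⟩, ⟨1, 1, 0, 33554432⟩, ⟨2, 1, 0, 33554432⟩]]

noncomputable def f_pp_011 : ℕ → ℕ → ℕ → ℕ → Bool := onCell 0 536870912 536870912 536870912 33554432 16777216
    (rowNK 3 1 false true true .pnn 0 1 1 (qsf 0 536870912 536870912 536870912 1) ndN1q0 ndN3q1 pcN1 cut_pp_011 Ext.none)

def k0_pp_011 : ∃ t, chk3 f_pp_011 t 1 1 1 = true :=
  ⟨(b (l 3) (b (l 3) (b (l 3) (a (b (l 3) (a (a (b (l 3) (a (a (l 6) (l 3)) (l 2))) (l 2)) (l 2))) (l 2))))), by decide +kernel⟩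

theorem c_pp_011 : CertN 0 536870912 536870912 536870912 33554432 16777216 3 false true true .pnn 0 1 1
    ndN1q0 ndN3q1 pcN1 cut_pp_011 Ext.none :=
  certNK1 (fam := false) (s1 := true) (s2 := true) (a := 0) (b := 1) (c := 1) (cn := .pnn) (n1 := ndN1q0) (n2 := ndN3q1) (pc := pcN1) (cut := cut_pp_011) (xt := Ext.none) (P1 := 0) (W1 := 536870912) (P2 := 536870912) (W2 := 536870912) (P3 := 33554432) (W3 := 16777216) (N0 := 3)
    rfl rfl rfl (fun _ => rfl) k0_pp_011

noncomputable def f_pp_012 : ℕ → ℕ → ℕ → ℕ → Bool := onCell 0 536870912 536870912 536870912 33554432 16777216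
    (rowNK 3 1 false true true .pnp 0 1 2 (qsf 0 536870912 1073741824 536870912 1) ndN1q0 ndN3q2 pcN1 Cut.none Ext.none)

def k0_pp_012 : ∃ t, chk3 f_pp_012 t 1 1 1 = true :=
  ⟨(l 3), by decide +kernel⟩

theorem c_pp_012 : CertN 0 536870912 1073741824 536870912 33554432 16777216 3 false true true .pnp 0 1 2
    ndN1q0 ndN3q2 pcN1 Cut.none Ext.none :=
  certNK1 (fam := false) (s1 := true) (s2 := true) (a := 0) (b := 1) (c := 2) (cn := .pnp) (n1 := ndN1q0) (n2 := ndN3q2) (pc := pcN1) (cut := Cut.none) (xt := Ext.none) (P1 := 0) (W1 := 536870912) (P2 := 1073741824) (W2 := 536870912) (P3 := 33554432) (W3 := 16777216) (N0 := 3)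
    rfl rfl rfl (fun _ => rfl) k0_pp_012

noncomputable def f_pp_022 : ℕ → ℕ → ℕ → ℕ → Bool := onCell 0 536870912 1073741824 536870912 33554432 16777216
    (rowNK 3 1 false true true .pp 0 2 2 (qsf 0 536870912 1073741824 536870912 2) ndN1q0 ndN3q2 pcN2 Cut.none Ext.none)

def k0_pp_022 : ∃ t, chk3 f_pp_022 t 1 1 1 = true :=
  ⟨(a (b (a (b (l 3) (b (b (b (l 1071766824071) (b (l 19128488) (a (b (l 19230808) (l 19252256)) (l 18903400)))) (l 19124664)) (l 19264712))) (b (b (l 3) (l 707766838455)) (b (b (b (l 18495864) (b (l 18591592) (l 18649776))) (l 18729944)) (l 18878616)))) (a (l 19383928) (l 19100216))) (b (b (b (l 393697054999) (b (l 18218632) (l 18312352))) (b (a (b (b (l 18415440) (l 18697624)) (l 18582312)) (l 18489528)) (l 18660584))) (b (l 18812792) (l 2)))), by decide +kernel⟩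

theorem c_pp_022 : CertN 0 536870912 1073741824 536870912 33554432 16777216 3 false true true .pp 0 2 2
    ndN1q0 ndN3q2 pcN2 Cut.none Ext.none :=
  certNK1 (fam := false) (s1 := true) (s2 := true) (a := 0) (b := 2) (c := 2) (cn := .pp) (n1 := ndN1q0) (n2 := ndN3q2) (pc := pcN2) (cut := Cut.none) (xt := Ext.none) (P1 := 0) (W1 := 536870912) (P2 := 1073741824) (W2 := 536870912) (P3 := 33554432) (W3 := 16777216) (N0 := 3)
    rfl rfl rfl (fun _ => rfl) k0_pp_022

noncomputable def f_pp_023 : ℕ → ℕ → ℕ → ℕ → Bool := onCell 1073741824 536870912 0 1230186008 33554432 16777216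
    (rowNK 3 2 false true true .up 0 2 3 (qsf 0 536870912 0 1230186008 2) ndN1q0 ndN3q3 pcN2 Cut.none Ext.none)

def k0_pp_023 : ∃ t, chk3 f_pp_023 t 1 1 1 = true :=
  ⟨(b (a (l 2) (a (l 2) (l 18623584))) (b (a (a (l 2) (l 18785456)) (b (l 18788616) (l 18814952))) (a (b (a (l 2) (l 18875976)) (a (a (b (l 2) (l 18904600)) (l 18888512)) (a (l 18913176) (l 18900824)))) (l 18770824)))), by decide +kernel⟩

theorem c_pp_023 : CertN 0 536870912 0 1230186008 33554432 16777216 3 false true true .up 0 2 3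
    ndN1q0 ndN3q3 pcN2 Cut.none Ext.none :=
  certNK2 (fam := false) (s1 := true) (s2 := true) (a := 0) (b := 2) (c := 3) (cn := .up) (n1 := ndN1q0) (n2 := ndN3q3) (pc := pcN2) (cut := Cut.none) (xt := Ext.none) (P1 := 0) (W1 := 536870912) (P2 := 0) (W2 := 1230186008) (P3 := 33554432) (W3 := 16777216) (N0 := 3)
    rfl rfl rfl (fun _ => rfl) k0_pp_023

noncomputable def f_pp_033 : ℕ → ℕ → ℕ → ℕ → Bool := onCell 1610612736 536870912 0 1230186008 33554432 16777216
    (rowNK 3 2 false true true .pnn 0 3 3 (qsf 0 536870912 0 1230186008 3) ndN1q0 ndN3q3 pcN3 Cut.none Ext.none)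

def k0_pp_033 : ∃ t, chk3 f_pp_033 t 1 1 1 = true :=
  ⟨(b (a (a (l 18115912) (l 18160736)) (a (a (l 18179552) (l 18234528)) (a (l 18309704) (l 4)))) (b (a (a (l 18332248) (b (l 18085904) (l 18226536))) (a (a (l 18257776) (l 18297608)) (b (a (l 18117256) (l 1)) (l 1)))) (a (b (b (l 18654528) (a (l 18900016) (a (l 18848400) (l 1)))) (a (b (l 18578528) (a (l 17869960) (b (l 17751800) (l 1)))) (b (a (b (l 18522784) (l 1)) (l 1)) (l 1)))) (l 1)))), by decide +kernel⟩

theorem c_pp_033 : CertN 0 536870912 0 1230186008 33554432 16777216 3 false true true .pnn 0 3 3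
    ndN1q0 ndN3q3 pcN3 Cut.none Ext.none :=
  certNK2 (fam := false) (s1 := true) (s2 := true) (a := 0) (b := 3) (c := 3) (cn := .pnn) (n1 := ndN1q0) (n2 := ndN3q3) (pc := pcN3) (cut := Cut.none) (xt := Ext.none) (P1 := 0) (W1 := 536870912) (P2 := 0) (W2 := 1230186008) (P3 := 33554432) (W3 := 16777216) (N0 := 3)
    rfl rfl rfl (fun _ => rfl) k0_pp_033

noncomputable def f_pp_101 : ℕ → ℕ → ℕ → ℕ → Bool := onCell 536870912 536870912 536870912 536870912 33554432 16777216
    (rowNK 3 0 false true true .npn 1 0 1 (qsf 536870912 536870912 536870912 536870912 0) ndN1q1 ndN3q1 pcN0 Cut.none Ext.none)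

def k0_pp_101 : ∃ t, chk3 f_pp_101 t 1 1 1 = true :=
  ⟨(l 3), by decide +kernel⟩

theorem c_pp_101 : CertN 536870912 536870912 536870912 536870912 33554432 16777216 3 false true true .npn 1 0 1
    ndN1q1 ndN3q1 pcN0 Cut.none Ext.none :=
  certNK0 (fam := false) (s1 := true) (s2 := true) (a := 1) (b := 0) (c := 1) (cn := .npn) (n1 := ndN1q1) (n2 := ndN3q1) (pc := pcN0) (cut := Cut.none) (xt := Ext.none) (P1 := 536870912) (W1 := 536870912) (P2 := 536870912) (W2 := 536870912) (P3 := 33554432) (W3 := 16777216) (N0 := 3)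
    rfl rfl rfl k0_pp_101

noncomputable def f_pp_102 : ℕ → ℕ → ℕ → ℕ → Bool := onCell 536870912 536870912 0 536870912 33554432 16777216
    (rowNK 3 1 false true true .npp 1 0 2 (qsf 536870912 536870912 1073741824 536870912 0) ndN1q1 ndN3q2 pcN0 Cut.none Ext.none)

def k0_pp_102 : ∃ t, chk3 f_pp_102 t 1 1 1 = true :=
  ⟨(l 3), by decide +kernel⟩

theorem c_pp_102 : CertN 536870912 536870912 1073741824 536870912 33554432 16777216 3 false true true .npp 1 0 2
    ndN1q1 ndN3q2 pcN0 Cut.none Ext.none :=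
  certNK1 (fam := false) (s1 := true) (s2 := true) (a := 1) (b := 0) (c := 2) (cn := .npp) (n1 := ndN1q1) (n2 := ndN3q2) (pc := pcN0) (cut := Cut.none) (xt := Ext.none) (P1 := 536870912) (W1 := 536870912) (P2 := 1073741824) (W2 := 536870912) (P3 := 33554432) (W3 := 16777216) (N0 := 3)
    rfl rfl rfl (fun _ => rfl) k0_pp_102

noncomputable def f_pp_112 : ℕ → ℕ → ℕ → ℕ → Bool := onCell 536870912 536870912 1073741824 536870912 33554432 16777216
    (rowNK 3 2 false true true .dn 1 1 2 (qsf 536870912 536870912 1073741824 536870912 1) ndN1q1 ndN3q2 pcN1 Cut.none Ext.none)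

def k0_pp_112 : ∃ t, chk3 f_pp_112 t 1 1 1 = true :=
  ⟨(l 3), by decide +kernel⟩

theorem c_pp_112 : CertN 536870912 536870912 1073741824 536870912 33554432 16777216 3 false true true .dn 1 1 2
    ndN1q1 ndN3q2 pcN1 Cut.none Ext.none :=
  certNK2 (fam := false) (s1 := true) (s2 := true) (a := 1) (b := 1) (c := 2) (cn := .dn) (n1 := ndN1q1) (n2 := ndN3q2) (pc := pcN1) (cut := Cut.none) (xt := Ext.none) (P1 := 536870912) (W1 := 536870912) (P2 := 1073741824) (W2 := 536870912) (P3 := 33554432) (W3 := 16777216) (N0 := 3)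
    rfl rfl rfl (fun _ => rfl) k0_pp_112

noncomputable def f_pp_113 : ℕ → ℕ → ℕ → ℕ → Bool := onCell 536870912 536870912 0 1230186008 33554432 16777216
    (rowNK 3 2 false true true .nn 1 1 3 (qsf 536870912 536870912 0 1230186008 1) ndN1q1 ndN3q3 pcN1 Cut.none Ext.none)

def k0_pp_113 : ∃ t, chk3 f_pp_113 t 1 1 1 = true :=
  ⟨(a (b (l 2) (b (l 3) (l 3))) (a (b (l 2) (b (a (l 3) (l 3)) (l 3))) (b (a (b (l 2) (l 17047640)) (a (l 16877040) (a (l 16858176) (a (l 16855352) (l 16858960))))) (b (a (l 17243936) (l 17096520)) (a (l 3) (l 17271376)))))), by decide +kernel⟩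

theorem c_pp_113 : CertN 536870912 536870912 0 1230186008 33554432 16777216 3 false true true .nn 1 1 3
    ndN1q1 ndN3q3 pcN1 Cut.none Ext.none :=
  certNK2 (fam := false) (s1 := true) (s2 := true) (a := 1) (b := 1) (c := 3) (cn := .nn) (n1 := ndN1q1) (n2 := ndN3q3) (pc := pcN1) (cut := Cut.none) (xt := Ext.none) (P1 := 536870912) (W1 := 536870912) (P2 := 0) (W2 := 1230186008) (P3 := 33554432) (W3 := 16777216) (N0 := 3)
    rfl rfl rfl (fun _ => rfl) k0_pp_113

noncomputable def f_pp_123 : ℕ → ℕ → ℕ → ℕ → Bool := onCell 1073741824 536870912 0 1230186008 33554432 16777216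
    (rowNK 3 2 false true true .npn 1 2 3 (qsf 536870912 536870912 0 1230186008 2) ndN1q1 ndN3q3 pcN2 Cut.none Ext.none)

def k0_pp_123 : ∃ t, chk3 f_pp_123 t 1 1 1 = true :=
  ⟨(a (a (b (a (a (a (a (l 17004872) (l 17004440)) (l 17003928)) (l 16999232)) (l 16986344)) (a (a (b (a (a (l 17024432) (l 17021872)) (l 17018216)) (a (a (l 17235912) (l 17229256)) (l 17220136))) (b (l 17012464) (l 17201464))) (b (l 16994256) (b (l 17128072) (l 17180368))))) (b (b (l 16953184) (l 16913160)) (b (l 16951752) (a (b (l 17080048) (l 17116880)) (l 17049280))))) (b (a (b (l 16813088) (l 16836192)) (l 16882208)) (b (a (l 16891048) (l 16825856)) (l 1)))), by decide +kernel⟩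

theorem c_pp_123 : CertN 536870912 536870912 0 1230186008 33554432 16777216 3 false true true .npn 1 2 3
    ndN1q1 ndN3q3 pcN2 Cut.none Ext.none :=
  certNK2 (fam := false) (s1 := true) (s2 := true) (a := 1) (b := 2) (c := 3) (cn := .npn) (n1 := ndN1q1) (n2 := ndN3q3) (pc := pcN2) (cut := Cut.none) (xt := Ext.none) (P1 := 536870912) (W1 := 536870912) (P2 := 0) (W2 := 1230186008) (P3 := 33554432) (W3 := 16777216) (N0 := 3)
    rfl rfl rfl (fun _ => rfl) k0_pp_123

noncomputable def f_pp_133 : ℕ → ℕ → ℕ → ℕ → Bool := onCell 1610612736 536870912 0 1230186008 33554432 16777216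
    (rowNK 3 2 false true true .dn 1 3 3 (qsf 536870912 536870912 0 1230186008 3) ndN1q1 ndN3q3 pcN3 Cut.none Ext.none)

def k0_pp_133 : ∃ t, chk3 f_pp_133 t 1 1 1 = true :=
  ⟨(b (a (a (l 17453600) (l 1)) (l 1)) (l 1)), by decide +kernel⟩

theorem c_pp_133 : CertN 536870912 536870912 0 1230186008 33554432 16777216 3 false true true .dn 1 3 3
    ndN1q1 ndN3q3 pcN3 Cut.none Ext.none :=
  certNK2 (fam := false) (s1 := true) (s2 := true) (a := 1) (b := 3) (c := 3) (cn := .dn) (n1 := ndN1q1) (n2 := ndN3q3) (pc := pcN3) (cut := Cut.none) (xt := Ext.none) (P1 := 536870912) (W1 := 536870912) (P2 := 0) (W2 := 1230186008) (P3 := 33554432) (W3 := 16777216) (N0 := 3)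
    rfl rfl rfl (fun _ => rfl) k0_pp_133

noncomputable def f_pp_202_a : ℕ → ℕ → ℕ → ℕ → Bool := onCell 0 536870912 1073741824 536870912 33554432 16777216
    (rowNK 3 0 false true true .pp 2 0 2 (qsf 0 536870912 1073741824 536870912 0) ndN1q2a ndN3q2 pcN0 Cut.none Ext.none)

def k0_pp_202_a : ∃ t, chk3 f_pp_202_a t 1 1 1 = true :=
  ⟨(l 3), by decide +kernel⟩

theorem c_pp_202_a : CertN 0 536870912 1073741824 536870912 33554432 16777216 3 false true true .pp 2 0 2
    ndN1q2a ndN3q2 pcN0 Cut.none Ext.none :=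
  certNK0 (fam := false) (s1 := true) (s2 := true) (a := 2) (b := 0) (c := 2) (cn := .pp) (n1 := ndN1q2a) (n2 := ndN3q2) (pc := pcN0) (cut := Cut.none) (xt := Ext.none) (P1 := 0) (W1 := 536870912) (P2 := 1073741824) (W2 := 536870912) (P3 := 33554432) (W3 := 16777216) (N0 := 3)
    rfl rfl rfl k0_pp_202_a

noncomputable def f_pp_202_b : ℕ → ℕ → ℕ → ℕ → Bool := onCell 1239849684 370763052 1073741824 536870912 33554432 16777216
    (rowNK 3 0 false true true .pp 2 0 2 (qsf 1239849684 370763052 1073741824 536870912 0) ndN1q2b ndN3q2 pcN0 Cut.none Ext.none)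

def k0_pp_202_b : ∃ t, chk3 f_pp_202_b t 1 1 1 = true :=
  ⟨(l 3), by decide +kernel⟩

theorem c_pp_202_b : CertN 1239849684 370763052 1073741824 536870912 33554432 16777216 3 false true true .pp 2 0 2
    ndN1q2b ndN3q2 pcN0 Cut.none Ext.none :=
  certNK0 (fam := false) (s1 := true) (s2 := true) (a := 2) (b := 0) (c := 2) (cn := .pp) (n1 := ndN1q2b) (n2 := ndN3q2) (pc := pcN0) (cut := Cut.none) (xt := Ext.none) (P1 := 1239849684) (W1 := 370763052) (P2 := 1073741824) (W2 := 536870912) (P3 := 33554432) (W3 := 16777216) (N0 := 3)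
    rfl rfl rfl k0_pp_202_b

noncomputable def f_pp_203_a : ℕ → ℕ → ℕ → ℕ → Bool := onCell 0 536870912 0 1230186008 33554432 16777216
    (rowNK 3 0 false true true .up 2 0 3 (qsf 0 536870912 0 1230186008 0) ndN1q2a ndN3q3 pcN0 Cut.none Ext.none)

def k0_pp_203_a : ∃ t, chk3 f_pp_203_a t 1 1 1 = true :=
  ⟨(b (l 2) (l 3)), by decide +kernel⟩

theorem c_pp_203_a : CertN 0 536870912 0 1230186008 33554432 16777216 3 false true true .up 2 0 3
    ndN1q2a ndN3q3 pcN0 Cut.none Ext.none :=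
  certNK0 (fam := false) (s1 := true) (s2 := true) (a := 2) (b := 0) (c := 3) (cn := .up) (n1 := ndN1q2a) (n2 := ndN3q3) (pc := pcN0) (cut := Cut.none) (xt := Ext.none) (P1 := 0) (W1 := 536870912) (P2 := 0) (W2 := 1230186008) (P3 := 33554432) (W3 := 16777216) (N0 := 3)
    rfl rfl rfl k0_pp_203_a

noncomputable def f_pp_203_b : ℕ → ℕ → ℕ → ℕ → Bool := onCell 1239849684 370763052 0 1230186008 33554432 16777216
    (rowNK 3 0 false true true .up 2 0 3 (qsf 1239849684 370763052 0 1230186008 0) ndN1q2b ndN3q3 pcN0 Cut.none Ext.none)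

def k0_pp_203_b : ∃ t, chk3 f_pp_203_b t 1 1 1 = true :=
  ⟨(b (l 3) (l 3)), by decide +kernel⟩

theorem c_pp_203_b : CertN 1239849684 370763052 0 1230186008 33554432 16777216 3 false true true .up 2 0 3
    ndN1q2b ndN3q3 pcN0 Cut.none Ext.none :=
  certNK0 (fam := false) (s1 := true) (s2 := true) (a := 2) (b := 0) (c := 3) (cn := .up) (n1 := ndN1q2b) (n2 := ndN3q3) (pc := pcN0) (cut := Cut.none) (xt := Ext.none) (P1 := 1239849684) (W1 := 370763052) (P2 := 0) (W2 := 1230186008) (P3 := 33554432) (W3 := 16777216) (N0 := 3)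
    rfl rfl rfl k0_pp_203_b

noncomputable def cut_pp_213_a : Cut := Cut.of [[⟨0, 1, 0, 7061502⟩, ⟨1, 1, 0, 7061502⟩, ⟨2, 2, 0, 184626⟩]]

noncomputable def f_pp_213_a : ℕ → ℕ → ℕ → ℕ → Bool := onCell 0 536870912 0 1230186008 33554432 16777216
    (rowNK 3 0 false true true .pnn 2 1 3 (qsf 0 536870912 0 1230186008 1) ndN1q2a ndN3q3 pcN1 cut_pp_213_a Ext.none)

def k0_pp_213_a : ∃ t, chk3 f_pp_213_a t 1 1 1 = true :=
  ⟨(b (a (l 3) (b (a (l 3) (b (a (l 3) (b (a (l 3) (b (a (l 3) (b (a (l 3) (l 6)) (l 3))) (l 3))) (l 3))) (l 3))) (l 3))) (l 3)), by decide +kernel⟩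

theorem c_pp_213_a : CertN 0 536870912 0 1230186008 33554432 16777216 3 false true true .pnn 2 1 3
    ndN1q2a ndN3q3 pcN1 cut_pp_213_a Ext.none :=
  certNK0 (fam := false) (s1 := true) (s2 := true) (a := 2) (b := 1) (c := 3) (cn := .pnn) (n1 := ndN1q2a) (n2 := ndN3q3) (pc := pcN1) (cut := cut_pp_213_a) (xt := Ext.none) (P1 := 0) (W1 := 536870912) (P2 := 0) (W2 := 1230186008) (P3 := 33554432) (W3 := 16777216) (N0 := 3)
    rfl rfl rfl k0_pp_213_a

noncomputable def cut_pp_213_b : Cut := Cut.of [[⟨0, 1, 0, 7061502⟩, ⟨1, 1, 0, 7061502⟩, ⟨2, 2, 0, 184626⟩]]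

noncomputable def f_pp_213_b : ℕ → ℕ → ℕ → ℕ → Bool := onCell 1239849684 370763052 0 1230186008 33554432 16777216
    (rowNK 3 0 false true true .pnn 2 1 3 (qsf 1239849684 370763052 0 1230186008 1) ndN1q2b ndN3q3 pcN1 cut_pp_213_b Ext.none)

def k0_pp_213_b : ∃ t, chk3 f_pp_213_b t 1 1 1 = true :=
  ⟨(b (l 3) (l 3)), by decide +kernel⟩

theorem c_pp_213_b : CertN 1239849684 370763052 0 1230186008 33554432 16777216 3 false true true .pnn 2 1 3
    ndN1q2b ndN3q3 pcN1 cut_pp_213_b Ext.none :=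
  certNK0 (fam := false) (s1 := true) (s2 := true) (a := 2) (b := 1) (c := 3) (cn := .pnn) (n1 := ndN1q2b) (n2 := ndN3q3) (pc := pcN1) (cut := cut_pp_213_b) (xt := Ext.none) (P1 := 1239849684) (W1 := 370763052) (P2 := 0) (W2 := 1230186008) (P3 := 33554432) (W3 := 16777216) (N0 := 3)
    rfl rfl rfl k0_pp_213_b

noncomputable def f_pp_303 : ℕ → ℕ → ℕ → ℕ → Bool := onCell 1610612736 536870912 0 1230186008 33554432 16777216
    (rowNK 3 0 false true true .npn 3 0 3 (qsf 1610612736 536870912 0 1230186008 0) ndN1q3 ndN3q3 pcN0 Cut.none Ext.none)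

def k0_pp_303 : ∃ t, chk3 f_pp_303 t 1 1 1 = true :=
  ⟨(b (l 3) (l 3)), by decide +kernel⟩

theorem c_pp_303 : CertN 1610612736 536870912 0 1230186008 33554432 16777216 3 false true true .npn 3 0 3
    ndN1q3 ndN3q3 pcN0 Cut.none Ext.none :=
  certNK0 (fam := false) (s1 := true) (s2 := true) (a := 3) (b := 0) (c := 3) (cn := .npn) (n1 := ndN1q3) (n2 := ndN3q3) (pc := pcN0) (cut := Cut.none) (xt := Ext.none) (P1 := 1610612736) (W1 := 536870912) (P2 := 0) (W2 := 1230186008) (P3 := 33554432) (W3 := 16777216) (N0 := 3)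
    rfl rfl rfl k0_pp_303

noncomputable def f_pp_313 : ℕ → ℕ → ℕ → ℕ → Bool := onCell 1610612736 536870912 0 1230186008 33554432 16777216
    (rowNK 3 0 false true true .dn 3 1 3 (qsf 1610612736 536870912 0 1230186008 1) ndN1q3 ndN3q3 pcN1 Cut.none Ext.none)

def k0_pp_313 : ∃ t, chk3 f_pp_313 t 1 1 1 = true :=
  ⟨(b (l 3) (l 1)), by decide +kernel⟩

theorem c_pp_313 : CertN 1610612736 536870912 0 1230186008 33554432 16777216 3 false true true .dn 3 1 3
    ndN1q3 ndN3q3 pcN1 Cut.none Ext.none :=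
  certNK0 (fam := false) (s1 := true) (s2 := true) (a := 3) (b := 1) (c := 3) (cn := .dn) (n1 := ndN1q3) (n2 := ndN3q3) (pc := pcN1) (cut := Cut.none) (xt := Ext.none) (P1 := 1610612736) (W1 := 536870912) (P2 := 0) (W2 := 1230186008) (P3 := 33554432) (W3 := 16777216) (N0 := 3)
    rfl rfl rfl k0_pp_313

noncomputable def f_pm_001 : ℕ → ℕ → ℕ → ℕ → Bool := onCell 0 536870912 536870912 536870912 33554432 16777216
    (rowNK 3 0 false true false .up 0 0 1 (qsf 0 536870912 536870912 536870912 0) ndN1q0 ndN3q1 pcN0 Cut.none Ext.none)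

def k0_pm_001 : ∃ t, chk3 f_pm_001 t 1 1 1 = true :=
  ⟨(l 4), by decide +kernel⟩

theorem c_pm_001 : CertN 0 536870912 536870912 536870912 33554432 16777216 3 false true false .up 0 0 1
    ndN1q0 ndN3q1 pcN0 Cut.none Ext.none :=
  certNK0 (fam := false) (s1 := true) (s2 := false) (a := 0) (b := 0) (c := 1) (cn := .up) (n1 := ndN1q0) (n2 := ndN3q1) (pc := pcN0) (cut := Cut.none) (xt := Ext.none) (P1 := 0) (W1 := 536870912) (P2 := 536870912) (W2 := 536870912) (P3 := 33554432) (W3 := 16777216) (N0 := 3)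
    rfl rfl rfl k0_pm_001

noncomputable def f_pm_011 : ℕ → ℕ → ℕ → ℕ → Bool := onCell 0 536870912 536870912 536870912 33554432 16777216
    (rowNK 3 0 false true false .pnn 0 1 1 (qsf 0 536870912 536870912 536870912 1) ndN1q0 ndN3q1 pcN1 Cut.none Ext.none)

def k0_pm_011 : ∃ t, chk3 f_pm_011 t 1 1 1 = true :=
  ⟨(l 4), by decide +kernel⟩

theorem c_pm_011 : CertN 0 536870912 536870912 536870912 33554432 16777216 3 false true false .pnn 0 1 1
    ndN1q0 ndN3q1 pcN1 Cut.none Ext.none :=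
  certNK0 (fam := false) (s1 := true) (s2 := false) (a := 0) (b := 1) (c := 1) (cn := .pnn) (n1 := ndN1q0) (n2 := ndN3q1) (pc := pcN1) (cut := Cut.none) (xt := Ext.none) (P1 := 0) (W1 := 536870912) (P2 := 536870912) (W2 := 536870912) (P3 := 33554432) (W3 := 16777216) (N0 := 3)
    rfl rfl rfl k0_pm_011

noncomputable def f_pm_012 : ℕ → ℕ → ℕ → ℕ → Bool := onCell 0 536870912 1073741824 536870912 33554432 16777216
    (rowNK 3 0 false true false .pnp 0 1 2 (qsf 0 536870912 1073741824 536870912 1) ndN1q0 ndN3q2 pcN1 Cut.none Ext.none)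

def k0_pm_012 : ∃ t, chk3 f_pm_012 t 1 1 1 = true :=
  ⟨(l 4), by decide +kernel⟩

theorem c_pm_012 : CertN 0 536870912 1073741824 536870912 33554432 16777216 3 false true false .pnp 0 1 2
    ndN1q0 ndN3q2 pcN1 Cut.none Ext.none :=
  certNK0 (fam := false) (s1 := true) (s2 := false) (a := 0) (b := 1) (c := 2) (cn := .pnp) (n1 := ndN1q0) (n2 := ndN3q2) (pc := pcN1) (cut := Cut.none) (xt := Ext.none) (P1 := 0) (W1 := 536870912) (P2 := 1073741824) (W2 := 536870912) (P3 := 33554432) (W3 := 16777216) (N0 := 3)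
    rfl rfl rfl k0_pm_012

noncomputable def f_pm_022 : ℕ → ℕ → ℕ → ℕ → Bool := onCell 0 536870912 1073741824 536870912 33554432 16777216
    (rowNK 3 0 false true false .pp 0 2 2 (qsf 0 536870912 1073741824 536870912 2) ndN1q0 ndN3q2 pcN2 Cut.none Ext.none)

def k0_pm_022 : ∃ t, chk3 f_pm_022 t 1 1 1 = true :=
  ⟨(l 4), by decide +kernel⟩

theorem c_pm_022 : CertN 0 536870912 1073741824 536870912 33554432 16777216 3 false true false .pp 0 2 2
    ndN1q0 ndN3q2 pcN2 Cut.none Ext.none :=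
  certNK0 (fam := false) (s1 := true) (s2 := false) (a := 0) (b := 2) (c := 2) (cn := .pp) (n1 := ndN1q0) (n2 := ndN3q2) (pc := pcN2) (cut := Cut.none) (xt := Ext.none) (P1 := 0) (W1 := 536870912) (P2 := 1073741824) (W2 := 536870912) (P3 := 33554432) (W3 := 16777216) (N0 := 3)
    rfl rfl rfl k0_pm_022

noncomputable def f_pm_023 : ℕ → ℕ → ℕ → ℕ → Bool := onCell 0 536870912 0 1230186008 33554432 16777216
    (rowNK 3 0 false true false .up 0 2 3 (qsf 0 536870912 0 1230186008 2) ndN1q0 ndN3q3 pcN2 Cut.none Ext.none)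

def k0_pm_023 : ∃ t, chk3 f_pm_023 t 1 1 1 = true :=
  ⟨(b (b (a (l 2) (a (l 2) (l 18521352))) (l 4)) (l 4)), by decide +kernel⟩

theorem c_pm_023 : CertN 0 536870912 0 1230186008 33554432 16777216 3 false true false .up 0 2 3
    ndN1q0 ndN3q3 pcN2 Cut.none Ext.none :=
  certNK0 (fam := false) (s1 := true) (s2 := false) (a := 0) (b := 2) (c := 3) (cn := .up) (n1 := ndN1q0) (n2 := ndN3q3) (pc := pcN2) (cut := Cut.none) (xt := Ext.none) (P1 := 0) (W1 := 536870912) (P2 := 0) (W2 := 1230186008) (P3 := 33554432) (W3 := 16777216) (N0 := 3)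
    rfl rfl rfl k0_pm_023

noncomputable def f_pm_033 : ℕ → ℕ → ℕ → ℕ → Bool := onCell 0 536870912 0 1230186008 33554432 16777216
    (rowNK 3 0 false true false .pnn 0 3 3 (qsf 0 536870912 0 1230186008 3) ndN1q0 ndN3q3 pcN3 Cut.none Ext.none)

def k0_pm_033 : ∃ t, chk3 f_pm_033 t 1 1 1 = true :=
  ⟨(b (a (l 4) (a (l 4) (b (l 18035168) (l 4)))) (l 4)), by decide +kernel⟩

theorem c_pm_033 : CertN 0 536870912 0 1230186008 33554432 16777216 3 false true false .pnn 0 3 3
    ndN1q0 ndN3q3 pcN3 Cut.none Ext.none :=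
  certNK0 (fam := false) (s1 := true) (s2 := false) (a := 0) (b := 3) (c := 3) (cn := .pnn) (n1 := ndN1q0) (n2 := ndN3q3) (pc := pcN3) (cut := Cut.none) (xt := Ext.none) (P1 := 0) (W1 := 536870912) (P2 := 0) (W2 := 1230186008) (P3 := 33554432) (W3 := 16777216) (N0 := 3)
    rfl rfl rfl k0_pm_033

noncomputable def f_pm_101 : ℕ → ℕ → ℕ → ℕ → Bool := onCell 536870912 536870912 536870912 536870912 33554432 16777216
    (rowNK 3 0 false true false .npn 1 0 1 (qsf 536870912 536870912 536870912 536870912 0) ndN1q1 ndN3q1 pcN0 Cut.none Ext.none)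

def k0_pm_101 : ∃ t, chk3 f_pm_101 t 1 1 1 = true :=
  ⟨(l 4), by decide +kernel⟩

theorem c_pm_101 : CertN 536870912 536870912 536870912 536870912 33554432 16777216 3 false true false .npn 1 0 1
    ndN1q1 ndN3q1 pcN0 Cut.none Ext.none :=
  certNK0 (fam := false) (s1 := true) (s2 := false) (a := 1) (b := 0) (c := 1) (cn := .npn) (n1 := ndN1q1) (n2 := ndN3q1) (pc := pcN0) (cut := Cut.none) (xt := Ext.none) (P1 := 536870912) (W1 := 536870912) (P2 := 536870912) (W2 := 536870912) (P3 := 33554432) (W3 := 16777216) (N0 := 3)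
    rfl rfl rfl k0_pm_101

noncomputable def f_pm_102 : ℕ → ℕ → ℕ → ℕ → Bool := onCell 536870912 536870912 1073741824 536870912 33554432 16777216
    (rowNK 3 0 false true false .npp 1 0 2 (qsf 536870912 536870912 1073741824 536870912 0) ndN1q1 ndN3q2 pcN0 Cut.none Ext.none)

def k0_pm_102 : ∃ t, chk3 f_pm_102 t 1 1 1 = true :=
  ⟨(l 4), by decide +kernel⟩

theorem c_pm_102 : CertN 536870912 536870912 1073741824 536870912 33554432 16777216 3 false true false .npp 1 0 2
    ndN1q1 ndN3q2 pcN0 Cut.none Ext.none :=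
  certNK0 (fam := false) (s1 := true) (s2 := false) (a := 1) (b := 0) (c := 2) (cn := .npp) (n1 := ndN1q1) (n2 := ndN3q2) (pc := pcN0) (cut := Cut.none) (xt := Ext.none) (P1 := 536870912) (W1 := 536870912) (P2 := 1073741824) (W2 := 536870912) (P3 := 33554432) (W3 := 16777216) (N0 := 3)
    rfl rfl rfl k0_pm_102

noncomputable def f_pm_112 : ℕ → ℕ → ℕ → ℕ → Bool := onCell 536870912 536870912 1073741824 536870912 33554432 16777216
    (rowNK 3 0 false true false .dn 1 1 2 (qsf 536870912 536870912 1073741824 536870912 1) ndN1q1 ndN3q2 pcN1 Cut.none Ext.none)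

def k0_pm_112 : ∃ t, chk3 f_pm_112 t 1 1 1 = true :=
  ⟨(l 4), by decide +kernel⟩

theorem c_pm_112 : CertN 536870912 536870912 1073741824 536870912 33554432 16777216 3 false true false .dn 1 1 2
    ndN1q1 ndN3q2 pcN1 Cut.none Ext.none :=
  certNK0 (fam := false) (s1 := true) (s2 := false) (a := 1) (b := 1) (c := 2) (cn := .dn) (n1 := ndN1q1) (n2 := ndN3q2) (pc := pcN1) (cut := Cut.none) (xt := Ext.none) (P1 := 536870912) (W1 := 536870912) (P2 := 1073741824) (W2 := 536870912) (P3 := 33554432) (W3 := 16777216) (N0 := 3)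
    rfl rfl rfl k0_pm_112

noncomputable def f_pm_113 : ℕ → ℕ → ℕ → ℕ → Bool := onCell 536870912 536870912 0 1230186008 33554432 16777216
    (rowNK 3 2 false true false .nn 1 1 3 (qsf 536870912 536870912 0 1230186008 1) ndN1q1 ndN3q3 pcN1 Cut.none Ext.none)

def k0_pm_113 : ∃ t, chk3 f_pm_113 t 1 1 1 = true :=
  ⟨(b (a (l 2) (a (l 2) (a (b (l 2) (l 17170432)) (a (l 911171766231) (a (l 17320384) (a (l 17225000) (l 17189608))))))) (b (a (a (l 2) (a (l 2) (b (l 2) (l 17556752)))) (a (l 17540464) (a (l 17769336) (a (l 17865256) (a (l 17924648) (a (l 17953992) (l 17977168))))))) (a (a (b (l 2) (l 17703440)) (b (l 17754224) (l 4))) (l 18126784)))), by decide +kernel⟩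

theorem c_pm_113 : CertN 536870912 536870912 0 1230186008 33554432 16777216 3 false true false .nn 1 1 3
    ndN1q1 ndN3q3 pcN1 Cut.none Ext.none :=
  certNK2 (fam := false) (s1 := true) (s2 := false) (a := 1) (b := 1) (c := 3) (cn := .nn) (n1 := ndN1q1) (n2 := ndN3q3) (pc := pcN1) (cut := Cut.none) (xt := Ext.none) (P1 := 536870912) (W1 := 536870912) (P2 := 0) (W2 := 1230186008) (P3 := 33554432) (W3 := 16777216) (N0 := 3)
    rfl rfl rfl (fun _ => rfl) k0_pm_113

noncomputable def f_pm_123 : ℕ → ℕ → ℕ → ℕ → Bool := onCell 1073741824 536870912 0 1230186008 33554432 16777216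
    (rowNK 3 2 false true false .npn 1 2 3 (qsf 536870912 536870912 0 1230186008 2) ndN1q1 ndN3q3 pcN2 Cut.none Ext.none)

def k0_pm_123 : ∃ t, chk3 f_pm_123 t 1 1 1 = true :=
  ⟨(a (b (a (a (a (a (a (l 17336456) (l 17340384)) (l 17175176)) (l 17135928)) (l 17284208)) (l 17095056)) (b (a (l 17863288) (l 4)) (l 4))) (b (a (l 17002432) (l 17208520)) (l 4))), by decide +kernel⟩

theorem c_pm_123 : CertN 536870912 536870912 0 1230186008 33554432 16777216 3 false true false .npn 1 2 3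
    ndN1q1 ndN3q3 pcN2 Cut.none Ext.none :=
  certNK2 (fam := false) (s1 := true) (s2 := false) (a := 1) (b := 2) (c := 3) (cn := .npn) (n1 := ndN1q1) (n2 := ndN3q3) (pc := pcN2) (cut := Cut.none) (xt := Ext.none) (P1 := 536870912) (W1 := 536870912) (P2 := 0) (W2 := 1230186008) (P3 := 33554432) (W3 := 16777216) (N0 := 3)
    rfl rfl rfl (fun _ => rfl) k0_pm_123

noncomputable def f_pm_133 : ℕ → ℕ → ℕ → ℕ → Bool := onCell 1610612736 536870912 0 1230186008 33554432 16777216
    (rowNK 3 2 false true false .dn 1 3 3 (qsf 536870912 536870912 0 1230186008 3) ndN1q1 ndN3q3 pcN3 Cut.none Ext.none)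

def k0_pm_133 : ∃ t, chk3 f_pm_133 t 1 1 1 = true :=
  ⟨(b (a (a (l 17626960) (l 1)) (l 1)) (l 1)), by decide +kernel⟩

theorem c_pm_133 : CertN 536870912 536870912 0 1230186008 33554432 16777216 3 false true false .dn 1 3 3
    ndN1q1 ndN3q3 pcN3 Cut.none Ext.none :=
  certNK2 (fam := false) (s1 := true) (s2 := false) (a := 1) (b := 3) (c := 3) (cn := .dn) (n1 := ndN1q1) (n2 := ndN3q3) (pc := pcN3) (cut := Cut.none) (xt := Ext.none) (P1 := 536870912) (W1 := 536870912) (P2 := 0) (W2 := 1230186008) (P3 := 33554432) (W3 := 16777216) (N0 := 3)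
    rfl rfl rfl (fun _ => rfl) k0_pm_133

noncomputable def f_pm_202_a : ℕ → ℕ → ℕ → ℕ → Bool := onCell 0 536870912 0 536870912 33554432 16777216
    (rowNK 3 1 false true false .pp 2 0 2 (qsf 0 536870912 1073741824 536870912 0) ndN1q2a ndN3q2 pcN0 Cut.none Ext.none)

def k0_pm_202_a : ∃ t, chk3 f_pm_202_a t 1 1 1 = true :=
  ⟨(b (a (b (b (c (a (b (l 18846656) (l 18330024)) (b (l 19761184) (l 19201024))) (a (l 18649312) (c (l 18473992) (l 18625344)))) (a (l 18790376) (c (b (l 18622664) (l 18068872)) (l 18464312)))) (b (a (l 18793024) (l 18715128)) (a (l 18569320) (l 18677616)))) (b (b (c (a (b (l 20630040) (l 20290392)) (l 20742240)) (a (c (l 18999360) (l 18559656)) (c (l 19409704) (l 18577872)))) (a (c (b (l 19772000) (l 19212008)) (c (l 18384960) (l 18343848))) (c (a (l 20377528) (l 20643560)) (c (l 19095904) (l 18544752))))) (b (a (c (b (l 18634288) (l 18156024)) (l 18187032)) (c (a (l 19398712) (l 20294256)) (c (a (l 18323976) (l 18811864)) (l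 18045768)))) (a (a (l 18523632) (l 18173672)) (c (a (b (l 18538288) (l 17952496)) (l 19169080)) (a (l 17946152) (l 17823504))))))) (a (b (b (l 18371248) (l 18227200)) (l 1303626094151)) (a (b (b (l 18515832) (l 18518552)) (l 18170408)) (b (b (a (l 18195904) (c (b (l 18197568) (l 17617704)) (l 17843264))) (a (l 18435144) (l 18167264))) (b (a (l 18417416) (l 18333472)) (l 18318176)))))), by decide +kernel⟩

theorem c_pm_202_a : CertN 0 536870912 1073741824 536870912 33554432 16777216 3 false true false .pp 2 0 2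
    ndN1q2a ndN3q2 pcN0 Cut.none Ext.none :=
  certNK1 (fam := false) (s1 := true) (s2 := false) (a := 2) (b := 0) (c := 2) (cn := .pp) (n1 := ndN1q2a) (n2 := ndN3q2) (pc := pcN0) (cut := Cut.none) (xt := Ext.none) (P1 := 0) (W1 := 536870912) (P2 := 1073741824) (W2 := 536870912) (P3 := 33554432) (W3 := 16777216) (N0 := 3)
    rfl rfl rfl (fun _ => rfl) k0_pm_202_a

noncomputable def f_pm_202_b : ℕ → ℕ → ℕ → ℕ → Bool := onCell 1239849684 370763052 0 536870912 33554432 16777216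
    (rowNK 3 1 false true false .pp 2 0 2 (qsf 1239849684 370763052 1073741824 536870912 0) ndN1q2b ndN3q2 pcN0 Cut.none Ext.none)

def k0_pm_202_b : ∃ t, chk3 f_pm_202_b t 1 1 1 = true :=
  ⟨(b (b (a (b (a (b (l 18601912) (l 18793624)) (l 19292272)) (a (l 19050024) (l 19204128))) (b (a (l 19575384) (l 19284632)) (l 19076504))) (a (b (l 18896624) (l 18566536)) (b (l 18644544) (l 2)))) (b (a (b (l 18115888) (l 17979712)) (l 2)) (l 2))), by decide +kernel⟩

theorem c_pm_202_b : CertN 1239849684 370763052 1073741824 536870912 33554432 16777216 3 false true false .pp 2 0 2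
    ndN1q2b ndN3q2 pcN0 Cut.none Ext.none :=
  certNK1 (fam := false) (s1 := true) (s2 := false) (a := 2) (b := 0) (c := 2) (cn := .pp) (n1 := ndN1q2b) (n2 := ndN3q2) (pc := pcN0) (cut := Cut.none) (xt := Ext.none) (P1 := 1239849684) (W1 := 370763052) (P2 := 1073741824) (W2 := 536870912) (P3 := 33554432) (W3 := 16777216) (N0 := 3)
    rfl rfl rfl (fun _ => rfl) k0_pm_202_b

noncomputable def f_pm_203_a : ℕ → ℕ → ℕ → ℕ → Bool := onCell 0 536870912 0 1230186008 33554432 16777216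
    (rowNK 3 0 false true false .up 2 0 3 (qsf 0 536870912 0 1230186008 0) ndN1q2a ndN3q3 pcN0 Cut.none Ext.none)

def k0_pm_203_a : ∃ t, chk3 f_pm_203_a t 1 1 1 = true :=
  ⟨(b (l 2) (b (l 2) (b (a (b (l 2) (a (l 17763976) (l 18075392))) (l 2)) (a (b (a (l 17958568) (l 18304640)) (a (l 18180880) (l 18578704))) (a (b (l 18672600) (l 18890104)) (b (l 18912848) (l 19087592))))))), by decide +kernel⟩

theorem c_pm_203_a : CertN 0 536870912 0 1230186008 33554432 16777216 3 false true false .up 2 0 3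
    ndN1q2a ndN3q3 pcN0 Cut.none Ext.none :=
  certNK0 (fam := false) (s1 := true) (s2 := false) (a := 2) (b := 0) (c := 3) (cn := .up) (n1 := ndN1q2a) (n2 := ndN3q3) (pc := pcN0) (cut := Cut.none) (xt := Ext.none) (P1 := 0) (W1 := 536870912) (P2 := 0) (W2 := 1230186008) (P3 := 33554432) (W3 := 16777216) (N0 := 3)
    rfl rfl rfl k0_pm_203_a

noncomputable def f_pm_203_b : ℕ → ℕ → ℕ → ℕ → Bool := onCell 0 536870912 0 1230186008 33554432 16777216
    (rowNK 3 2 false true false .up 2 0 3 (qsf 1239849684 370763052 0 1230186008 0) ndN1q2b ndN3q3 pcN0 Cut.none Ext.none)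

def k0_pm_203_b : ∃ t, chk3 f_pm_203_b t 1 1 1 = true :=
  ⟨(b (l 3) (b (l 3) (a (a (l 141368054919) (a (l 18220312) (l 69427117047))) (a (a (l 56542093511) (l 44194113607)) (a (b (l 3) (l 17866248)) (b (l 17562472) (l 17970392))))))), by decide +kernel⟩

theorem c_pm_203_b : CertN 1239849684 370763052 0 1230186008 33554432 16777216 3 false true false .up 2 0 3
    ndN1q2b ndN3q3 pcN0 Cut.none Ext.none :=
  certNK2 (fam := false) (s1 := true) (s2 := false) (a := 2) (b := 0) (c := 3) (cn := .up) (n1 := ndN1q2b) (n2 := ndN3q3) (pc := pcN0) (cut := Cut.none) (xt := Ext.none) (P1 := 1239849684) (W1 := 370763052) (P2 := 0) (W2 := 1230186008) (P3 := 33554432) (W3 := 16777216) (N0 := 3)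
    rfl rfl rfl (fun _ => rfl) k0_pm_203_b

noncomputable def cut_pm_213_a : Cut := Cut.of [[⟨0, 1, 0, 7061502⟩, ⟨1, 1, 0, 7061502⟩, ⟨2, 2, 0, 184626⟩]]

noncomputable def f_pm_213_a : ℕ → ℕ → ℕ → ℕ → Bool := onCell 0 536870912 0 1230186008 33554432 16777216
    (rowNK 3 0 false true false .pnn 2 1 3 (qsf 0 536870912 0 1230186008 1) ndN1q2a ndN3q3 pcN1 cut_pm_213_a Ext.none)

def k0_pm_213_a : ∃ t, chk3 f_pm_213_a t 1 1 1 = true :=
  ⟨(b (a (b (l 3) (b (l 3) (l 3))) (b (a (l 3) (a (b (l 3) (b (l 316384891815) (l 229411837991))) (b (a (l 310479330535) (b (b (a (l 3) (b (a (l 3) (l 6)) (l 188609488743))) (l 188072666519)) (l 16826040))) (b (l 174114212039) (l 16836888))))) (a (b (a (l 3) (l 264308770983)) (a (l 313701343799) (b (l 17141440) (l 17204064)))) (b (a (l 17163600) (l 16987592)) (a (l 17051440) (l 16953936)))))) (b (a (b (a (l 3) (l 328733872071)) (a (l 305648461783) (l 215991395271))) (a (b (b (l 17274872) (l 17257008)) (b (l 17223384) (l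 17197640))) (b (a (l 17163552) (l 17070728)) (a (l 17153792) (l 17110232))))) (b (b (a (l 228339290727) (a (l 17193800) (l 17105344))) (a (a (l 17559648) (l 17371568)) (a (l 17190688) (l 17104056)))) (a (b (l 1464082240999) (l 1)) (a (b (l 17133728) (l 1)) (b (l 17220344) (l 17361368))))))), by decide +kernel⟩

theorem c_pm_213_a : CertN 0 536870912 0 1230186008 33554432 16777216 3 false true false .pnn 2 1 3
    ndN1q2a ndN3q3 pcN1 cut_pm_213_a Ext.none :=
  certNK0 (fam := false) (s1 := true) (s2 := false) (a := 2) (b := 1) (c := 3) (cn := .pnn) (n1 := ndN1q2a) (n2 := ndN3q3) (pc := pcN1) (cut := cut_pm_213_a) (xt := Ext.none) (P1 := 0) (W1 := 536870912) (P2 := 0) (W2 := 1230186008) (P3 := 33554432) (W3 := 16777216) (N0 := 3)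
    rfl rfl rfl k0_pm_213_a

noncomputable def cut_pm_213_b : Cut := Cut.of [[⟨0, 1, 0, 7061502⟩, ⟨1, 1, 0, 7061502⟩, ⟨2, 2, 0, 184626⟩]]

noncomputable def f_pm_213_b : ℕ → ℕ → ℕ → ℕ → Bool := onCell 1239849684 370763052 0 1230186008 33554432 16777216
    (rowNK 3 0 false true false .pnn 2 1 3 (qsf 1239849684 370763052 0 1230186008 1) ndN1q2b ndN3q3 pcN1 cut_pm_213_b Ext.none)

def k0_pm_213_b : ∃ t, chk3 f_pm_213_b t 1 1 1 = true :=
  ⟨(b (l 3) (b (l 3) (a (b (a (b (l 3) (l 17842064)) (l 1)) (l 1)) (l 1)))), by decide +kernel⟩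

theorem c_pm_213_b : CertN 1239849684 370763052 0 1230186008 33554432 16777216 3 false true false .pnn 2 1 3
    ndN1q2b ndN3q3 pcN1 cut_pm_213_b Ext.none :=
  certNK0 (fam := false) (s1 := true) (s2 := false) (a := 2) (b := 1) (c := 3) (cn := .pnn) (n1 := ndN1q2b) (n2 := ndN3q3) (pc := pcN1) (cut := cut_pm_213_b) (xt := Ext.none) (P1 := 1239849684) (W1 := 370763052) (P2 := 0) (W2 := 1230186008) (P3 := 33554432) (W3 := 16777216) (N0 := 3)
    rfl rfl rfl k0_pm_213_b

noncomputable def f_pm_303 : ℕ → ℕ → ℕ → ℕ → Bool := onCell 1610612736 536870912 0 1230186008 33554432 16777216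
    (rowNK 3 0 false true false .npn 3 0 3 (qsf 1610612736 536870912 0 1230186008 0) ndN1q3 ndN3q3 pcN0 Cut.none Ext.none)

def k0_pm_303 : ∃ t, chk3 f_pm_303 t 1 1 1 = true :=
  ⟨(b (l 3) (b (l 3) (a (b (l 3) (l 3)) (l 1)))), by decide +kernel⟩

theorem c_pm_303 : CertN 1610612736 536870912 0 1230186008 33554432 16777216 3 false true false .npn 3 0 3
    ndN1q3 ndN3q3 pcN0 Cut.none Ext.none :=
  certNK0 (fam := false) (s1 := true) (s2 := false) (a := 3) (b := 0) (c := 3) (cn := .npn) (n1 := ndN1q3) (n2 := ndN3q3) (pc := pcN0) (cut := Cut.none) (xt := Ext.none) (P1 := 1610612736) (W1 := 536870912) (P2 := 0) (W2 := 1230186008) (P3 := 33554432) (W3 := 16777216) (N0 := 3)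
    rfl rfl rfl k0_pm_303

noncomputable def f_pm_313 : ℕ → ℕ → ℕ → ℕ → Bool := onCell 1610612736 536870912 0 1230186008 33554432 16777216
    (rowNK 3 0 false true false .dn 3 1 3 (qsf 1610612736 536870912 0 1230186008 1) ndN1q3 ndN3q3 pcN1 Cut.none Ext.none)

def k0_pm_313 : ∃ t, chk3 f_pm_313 t 1 1 1 = true :=
  ⟨(b (l 3) (l 1)), by decide +kernel⟩

theorem c_pm_313 : CertN 1610612736 536870912 0 1230186008 33554432 16777216 3 false true false .dn 3 1 3
    ndN1q3 ndN3q3 pcN1 Cut.none Ext.none :=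
  certNK0 (fam := false) (s1 := true) (s2 := false) (a := 3) (b := 1) (c := 3) (cn := .dn) (n1 := ndN1q3) (n2 := ndN3q3) (pc := pcN1) (cut := Cut.none) (xt := Ext.none) (P1 := 1610612736) (W1 := 536870912) (P2 := 0) (W2 := 1230186008) (P3 := 33554432) (W3 := 16777216) (N0 := 3)
    rfl rfl rfl k0_pm_313

noncomputable def f_mm_001 : ℕ → ℕ → ℕ → ℕ → Bool := onCell 0 536870912 0 536870912 33554432 16777216
    (rowNK 3 1 false false false .up 0 0 1 (qsf 0 536870912 536870912 536870912 0) ndN1q0 ndN3q1 pcN0 Cut.none Ext.none)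

def k0_mm_001 : ∃ t, chk3 f_mm_001 t 1 1 1 = true :=
  ⟨(l 3), by decide +kernel⟩

theorem c_mm_001 : CertN 0 536870912 536870912 536870912 33554432 16777216 3 false false false .up 0 0 1
    ndN1q0 ndN3q1 pcN0 Cut.none Ext.none :=
  certNK1 (fam := false) (s1 := false) (s2 := false) (a := 0) (b := 0) (c := 1) (cn := .up) (n1 := ndN1q0) (n2 := ndN3q1) (pc := pcN0) (cut := Cut.none) (xt := Ext.none) (P1 := 0) (W1 := 536870912) (P2 := 536870912) (W2 := 536870912) (P3 := 33554432) (W3 := 16777216) (N0 := 3)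
    rfl rfl rfl (fun _ => rfl) k0_mm_001

noncomputable def f_mm_011 : ℕ → ℕ → ℕ → ℕ → Bool := onCell 0 536870912 536870912 536870912 33554432 16777216
    (rowNK 3 1 false false false .pnn 0 1 1 (qsf 0 536870912 536870912 536870912 1) ndN1q0 ndN3q1 pcN1 Cut.none Ext.none)

def k0_mm_011 : ∃ t, chk3 f_mm_011 t 1 1 1 = true :=
  ⟨(l 5), by decide +kernel⟩

theorem c_mm_011 : CertN 0 536870912 536870912 536870912 33554432 16777216 3 false false false .pnn 0 1 1
    ndN1q0 ndN3q1 pcN1 Cut.none Ext.none :=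
  certNK1 (fam := false) (s1 := false) (s2 := false) (a := 0) (b := 1) (c := 1) (cn := .pnn) (n1 := ndN1q0) (n2 := ndN3q1) (pc := pcN1) (cut := Cut.none) (xt := Ext.none) (P1 := 0) (W1 := 536870912) (P2 := 536870912) (W2 := 536870912) (P3 := 33554432) (W3 := 16777216) (N0 := 3)
    rfl rfl rfl (fun _ => rfl) k0_mm_011

noncomputable def f_mm_012 : ℕ → ℕ → ℕ → ℕ → Bool := onCell 0 536870912 1073741824 536870912 33554432 16777216
    (rowNK 3 0 false false false .pnp 0 1 2 (qsf 0 536870912 1073741824 536870912 1) ndN1q0 ndN3q2 pcN1 Cut.none Ext.none)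

def k0_mm_012 : ∃ t, chk3 f_mm_012 t 1 1 1 = true :=
  ⟨(l 5), by decide +kernel⟩

theorem c_mm_012 : CertN 0 536870912 1073741824 536870912 33554432 16777216 3 false false false .pnp 0 1 2
    ndN1q0 ndN3q2 pcN1 Cut.none Ext.none :=
  certNK0 (fam := false) (s1 := false) (s2 := false) (a := 0) (b := 1) (c := 2) (cn := .pnp) (n1 := ndN1q0) (n2 := ndN3q2) (pc := pcN1) (cut := Cut.none) (xt := Ext.none) (P1 := 0) (W1 := 536870912) (P2 := 1073741824) (W2 := 536870912) (P3 := 33554432) (W3 := 16777216) (N0 := 3)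
    rfl rfl rfl k0_mm_012

noncomputable def f_mm_022 : ℕ → ℕ → ℕ → ℕ → Bool := onCell 0 536870912 1073741824 536870912 33554432 16777216
    (rowNK 3 0 false false false .pp 0 2 2 (qsf 0 536870912 1073741824 536870912 2) ndN1q0 ndN3q2 pcN2 Cut.none Ext.none)

def k0_mm_022 : ∃ t, chk3 f_mm_022 t 1 1 1 = true :=
  ⟨(l 5), by decide +kernel⟩

theorem c_mm_022 : CertN 0 536870912 1073741824 536870912 33554432 16777216 3 false false false .pp 0 2 2
    ndN1q0 ndN3q2 pcN2 Cut.none Ext.none :=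
  certNK0 (fam := false) (s1 := false) (s2 := false) (a := 0) (b := 2) (c := 2) (cn := .pp) (n1 := ndN1q0) (n2 := ndN3q2) (pc := pcN2) (cut := Cut.none) (xt := Ext.none) (P1 := 0) (W1 := 536870912) (P2 := 1073741824) (W2 := 536870912) (P3 := 33554432) (W3 := 16777216) (N0 := 3)
    rfl rfl rfl k0_mm_022

noncomputable def f_mm_023 : ℕ → ℕ → ℕ → ℕ → Bool := onCell 0 536870912 0 1230186008 33554432 16777216
    (rowNK 3 0 false false false .up 0 2 3 (qsf 0 536870912 0 1230186008 2) ndN1q0 ndN3q3 pcN2 Cut.none Ext.none)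

def k0_mm_023 : ∃ t, chk3 f_mm_023 t 1 1 1 = true :=
  ⟨(l 5), by decide +kernel⟩

theorem c_mm_023 : CertN 0 536870912 0 1230186008 33554432 16777216 3 false false false .up 0 2 3
    ndN1q0 ndN3q3 pcN2 Cut.none Ext.none :=
  certNK0 (fam := false) (s1 := false) (s2 := false) (a := 0) (b := 2) (c := 3) (cn := .up) (n1 := ndN1q0) (n2 := ndN3q3) (pc := pcN2) (cut := Cut.none) (xt := Ext.none) (P1 := 0) (W1 := 536870912) (P2 := 0) (W2 := 1230186008) (P3 := 33554432) (W3 := 16777216) (N0 := 3)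
    rfl rfl rfl k0_mm_023

noncomputable def f_mm_033 : ℕ → ℕ → ℕ → ℕ → Bool := onCell 0 536870912 0 1230186008 33554432 16777216
    (rowNK 3 0 false false false .pnn 0 3 3 (qsf 0 536870912 0 1230186008 3) ndN1q0 ndN3q3 pcN3 Cut.none Ext.none)

def k0_mm_033 : ∃ t, chk3 f_mm_033 t 1 1 1 = true :=
  ⟨(l 5), by decide +kernel⟩

theorem c_mm_033 : CertN 0 536870912 0 1230186008 33554432 16777216 3 false false false .pnn 0 3 3
    ndN1q0 ndN3q3 pcN3 Cut.none Ext.none :=
  certNK0 (fam := false) (s1 := false) (s2 := false) (a := 0) (b := 3) (c := 3) (cn := .pnn) (n1 := ndN1q0) (n2 := ndN3q3) (pc := pcN3) (cut := Cut.none) (xt := Ext.none) (P1 := 0) (W1 := 536870912) (P2 := 0) (W2 := 1230186008) (P3 := 33554432) (W3 := 16777216) (N0 := 3)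
    rfl rfl rfl k0_mm_033

noncomputable def f_mm_101 : ℕ → ℕ → ℕ → ℕ → Bool := onCell 536870912 536870912 536870912 536870912 33554432 16777216
    (rowNK 3 0 false false false .npn 1 0 1 (qsf 536870912 536870912 536870912 536870912 0) ndN1q1 ndN3q1 pcN0 Cut.none Ext.none)

def k0_mm_101 : ∃ t, chk3 f_mm_101 t 1 1 1 = true :=
  ⟨(l 3), by decide +kernel⟩

theorem c_mm_101 : CertN 536870912 536870912 536870912 536870912 33554432 16777216 3 false false false .npn 1 0 1
    ndN1q1 ndN3q1 pcN0 Cut.none Ext.none :=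
  certNK0 (fam := false) (s1 := false) (s2 := false) (a := 1) (b := 0) (c := 1) (cn := .npn) (n1 := ndN1q1) (n2 := ndN3q1) (pc := pcN0) (cut := Cut.none) (xt := Ext.none) (P1 := 536870912) (W1 := 536870912) (P2 := 536870912) (W2 := 536870912) (P3 := 33554432) (W3 := 16777216) (N0 := 3)
    rfl rfl rfl k0_mm_101

noncomputable def f_mm_102 : ℕ → ℕ → ℕ → ℕ → Bool := onCell 536870912 536870912 0 536870912 33554432 16777216
    (rowNK 3 1 false false false .npp 1 0 2 (qsf 536870912 536870912 1073741824 536870912 0) ndN1q1 ndN3q2 pcN0 Cut.none Ext.none)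

def k0_mm_102 : ∃ t, chk3 f_mm_102 t 1 1 1 = true :=
  ⟨(l 3), by decide +kernel⟩

theorem c_mm_102 : CertN 536870912 536870912 1073741824 536870912 33554432 16777216 3 false false false .npp 1 0 2
    ndN1q1 ndN3q2 pcN0 Cut.none Ext.none :=
  certNK1 (fam := false) (s1 := false) (s2 := false) (a := 1) (b := 0) (c := 2) (cn := .npp) (n1 := ndN1q1) (n2 := ndN3q2) (pc := pcN0) (cut := Cut.none) (xt := Ext.none) (P1 := 536870912) (W1 := 536870912) (P2 := 1073741824) (W2 := 536870912) (P3 := 33554432) (W3 := 16777216) (N0 := 3)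
    rfl rfl rfl (fun _ => rfl) k0_mm_102

noncomputable def f_mm_112 : ℕ → ℕ → ℕ → ℕ → Bool := onCell 536870912 536870912 536870912 536870912 33554432 16777216
    (rowNK 3 1 false false false .dn 1 1 2 (qsf 536870912 536870912 1073741824 536870912 1) ndN1q1 ndN3q2 pcN1 Cut.none Ext.none)

def k0_mm_112 : ∃ t, chk3 f_mm_112 t 1 1 1 = true :=
  ⟨(l 5), by decide +kernel⟩

theorem c_mm_112 : CertN 536870912 536870912 1073741824 536870912 33554432 16777216 3 false false false .dn 1 1 2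
    ndN1q1 ndN3q2 pcN1 Cut.none Ext.none :=
  certNK1 (fam := false) (s1 := false) (s2 := false) (a := 1) (b := 1) (c := 2) (cn := .dn) (n1 := ndN1q1) (n2 := ndN3q2) (pc := pcN1) (cut := Cut.none) (xt := Ext.none) (P1 := 536870912) (W1 := 536870912) (P2 := 1073741824) (W2 := 536870912) (P3 := 33554432) (W3 := 16777216) (N0 := 3)
    rfl rfl rfl (fun _ => rfl) k0_mm_112

noncomputable def f_mm_113 : ℕ → ℕ → ℕ → ℕ → Bool := onCell 536870912 536870912 0 1230186008 33554432 16777216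
    (rowNK 3 0 false false false .nn 1 1 3 (qsf 536870912 536870912 0 1230186008 1) ndN1q1 ndN3q3 pcN1 Cut.none Ext.none)

def k0_mm_113 : ∃ t, chk3 f_mm_113 t 1 1 1 = true :=
  ⟨(l 5), by decide +kernel⟩

theorem c_mm_113 : CertN 536870912 536870912 0 1230186008 33554432 16777216 3 false false false .nn 1 1 3
    ndN1q1 ndN3q3 pcN1 Cut.none Ext.none :=
  certNK0 (fam := false) (s1 := false) (s2 := false) (a := 1) (b := 1) (c := 3) (cn := .nn) (n1 := ndN1q1) (n2 := ndN3q3) (pc := pcN1) (cut := Cut.none) (xt := Ext.none) (P1 := 536870912) (W1 := 536870912) (P2 := 0) (W2 := 1230186008) (P3 := 33554432) (W3 := 16777216) (N0 := 3)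
    rfl rfl rfl k0_mm_113

noncomputable def f_mm_123 : ℕ → ℕ → ℕ → ℕ → Bool := onCell 536870912 536870912 0 1230186008 33554432 16777216
    (rowNK 3 0 false false false .npn 1 2 3 (qsf 536870912 536870912 0 1230186008 2) ndN1q1 ndN3q3 pcN2 Cut.none Ext.none)

def k0_mm_123 : ∃ t, chk3 f_mm_123 t 1 1 1 = true :=
  ⟨(l 5), by decide +kernel⟩

theorem c_mm_123 : CertN 536870912 536870912 0 1230186008 33554432 16777216 3 false false false .npn 1 2 3
    ndN1q1 ndN3q3 pcN2 Cut.none Ext.none :=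
  certNK0 (fam := false) (s1 := false) (s2 := false) (a := 1) (b := 2) (c := 3) (cn := .npn) (n1 := ndN1q1) (n2 := ndN3q3) (pc := pcN2) (cut := Cut.none) (xt := Ext.none) (P1 := 536870912) (W1 := 536870912) (P2 := 0) (W2 := 1230186008) (P3 := 33554432) (W3 := 16777216) (N0 := 3)
    rfl rfl rfl k0_mm_123

noncomputable def f_mm_133 : ℕ → ℕ → ℕ → ℕ → Bool := onCell 536870912 536870912 0 1230186008 33554432 16777216
    (rowNK 3 0 false false false .dn 1 3 3 (qsf 536870912 536870912 0 1230186008 3) ndN1q1 ndN3q3 pcN3 Cut.none Ext.none)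

def k0_mm_133 : ∃ t, chk3 f_mm_133 t 1 1 1 = true :=
  ⟨(l 5), by decide +kernel⟩

theorem c_mm_133 : CertN 536870912 536870912 0 1230186008 33554432 16777216 3 false false false .dn 1 3 3
    ndN1q1 ndN3q3 pcN3 Cut.none Ext.none :=
  certNK0 (fam := false) (s1 := false) (s2 := false) (a := 1) (b := 3) (c := 3) (cn := .dn) (n1 := ndN1q1) (n2 := ndN3q3) (pc := pcN3) (cut := Cut.none) (xt := Ext.none) (P1 := 536870912) (W1 := 536870912) (P2 := 0) (W2 := 1230186008) (P3 := 33554432) (W3 := 16777216) (N0 := 3)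
    rfl rfl rfl k0_mm_133

noncomputable def f_mm_202_a : ℕ → ℕ → ℕ → ℕ → Bool := onCell 0 536870912 1073741824 536870912 33554432 16777216
    (rowNK 3 0 false false false .pp 2 0 2 (qsf 0 536870912 1073741824 536870912 0) ndN1q2a ndN3q2 pcN0 Cut.none Ext.none)

def k0_mm_202_a : ∃ t, chk3 f_mm_202_a t 1 1 1 = true :=
  ⟨(l 3), by decide +kernel⟩

theorem c_mm_202_a : CertN 0 536870912 1073741824 536870912 33554432 16777216 3 false false false .pp 2 0 2
    ndN1q2a ndN3q2 pcN0 Cut.none Ext.none :=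
  certNK0 (fam := false) (s1 := false) (s2 := false) (a := 2) (b := 0) (c := 2) (cn := .pp) (n1 := ndN1q2a) (n2 := ndN3q2) (pc := pcN0) (cut := Cut.none) (xt := Ext.none) (P1 := 0) (W1 := 536870912) (P2 := 1073741824) (W2 := 536870912) (P3 := 33554432) (W3 := 16777216) (N0 := 3)
    rfl rfl rfl k0_mm_202_a

noncomputable def f_mm_202_b : ℕ → ℕ → ℕ → ℕ → Bool := onCell 1239849684 370763052 1073741824 536870912 33554432 16777216
    (rowNK 3 0 false false false .pp 2 0 2 (qsf 1239849684 370763052 1073741824 536870912 0) ndN1q2b ndN3q2 pcN0 Cut.none Ext.none)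

def k0_mm_202_b : ∃ t, chk3 f_mm_202_b t 1 1 1 = true :=
  ⟨(l 3), by decide +kernel⟩

theorem c_mm_202_b : CertN 1239849684 370763052 1073741824 536870912 33554432 16777216 3 false false false .pp 2 0 2
    ndN1q2b ndN3q2 pcN0 Cut.none Ext.none :=
  certNK0 (fam := false) (s1 := false) (s2 := false) (a := 2) (b := 0) (c := 2) (cn := .pp) (n1 := ndN1q2b) (n2 := ndN3q2) (pc := pcN0) (cut := Cut.none) (xt := Ext.none) (P1 := 1239849684) (W1 := 370763052) (P2 := 1073741824) (W2 := 536870912) (P3 := 33554432) (W3 := 16777216) (N0 := 3)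
    rfl rfl rfl k0_mm_202_b

noncomputable def f_mm_203_a : ℕ → ℕ → ℕ → ℕ → Bool := onCell 0 536870912 0 1230186008 33554432 16777216
    (rowNK 3 0 false false false .up 2 0 3 (qsf 0 536870912 0 1230186008 0) ndN1q2a ndN3q3 pcN0 Cut.none Ext.none)

def k0_mm_203_a : ∃ t, chk3 f_mm_203_a t 1 1 1 = true :=
  ⟨(b (l 2) (l 3)), by decide +kernel⟩

theorem c_mm_203_a : CertN 0 536870912 0 1230186008 33554432 16777216 3 false false false .up 2 0 3
    ndN1q2a ndN3q3 pcN0 Cut.none Ext.none :=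
  certNK0 (fam := false) (s1 := false) (s2 := false) (a := 2) (b := 0) (c := 3) (cn := .up) (n1 := ndN1q2a) (n2 := ndN3q3) (pc := pcN0) (cut := Cut.none) (xt := Ext.none) (P1 := 0) (W1 := 536870912) (P2 := 0) (W2 := 1230186008) (P3 := 33554432) (W3 := 16777216) (N0 := 3)
    rfl rfl rfl k0_mm_203_a

noncomputable def f_mm_203_b : ℕ → ℕ → ℕ → ℕ → Bool := onCell 1239849684 370763052 0 1230186008 33554432 16777216
    (rowNK 3 0 false false false .up 2 0 3 (qsf 1239849684 370763052 0 1230186008 0) ndN1q2b ndN3q3 pcN0 Cut.none Ext.none)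

def k0_mm_203_b : ∃ t, chk3 f_mm_203_b t 1 1 1 = true :=
  ⟨(b (l 3) (l 3)), by decide +kernel⟩

theorem c_mm_203_b : CertN 1239849684 370763052 0 1230186008 33554432 16777216 3 false false false .up 2 0 3
    ndN1q2b ndN3q3 pcN0 Cut.none Ext.none :=
  certNK0 (fam := false) (s1 := false) (s2 := false) (a := 2) (b := 0) (c := 3) (cn := .up) (n1 := ndN1q2b) (n2 := ndN3q3) (pc := pcN0) (cut := Cut.none) (xt := Ext.none) (P1 := 1239849684) (W1 := 370763052) (P2 := 0) (W2 := 1230186008) (P3 := 33554432) (W3 := 16777216) (N0 := 3)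
    rfl rfl rfl k0_mm_203_b

noncomputable def f_mm_213_a : ℕ → ℕ → ℕ → ℕ → Bool := onCell 0 536870912 0 1230186008 33554432 16777216
    (rowNK 3 0 false false false .pnn 2 1 3 (qsf 0 536870912 0 1230186008 1) ndN1q2a ndN3q3 pcN1 Cut.none Ext.none)

def k0_mm_213_a : ∃ t, chk3 f_mm_213_a t 1 1 1 = true :=
  ⟨(b (a (l 3) (l 5)) (l 3)), by decide +kernel⟩

theorem c_mm_213_a : CertN 0 536870912 0 1230186008 33554432 16777216 3 false false false .pnn 2 1 3
    ndN1q2a ndN3q3 pcN1 Cut.none Ext.none :=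
  certNK0 (fam := false) (s1 := false) (s2 := false) (a := 2) (b := 1) (c := 3) (cn := .pnn) (n1 := ndN1q2a) (n2 := ndN3q3) (pc := pcN1) (cut := Cut.none) (xt := Ext.none) (P1 := 0) (W1 := 536870912) (P2 := 0) (W2 := 1230186008) (P3 := 33554432) (W3 := 16777216) (N0 := 3)
    rfl rfl rfl k0_mm_213_a

noncomputable def f_mm_213_b : ℕ → ℕ → ℕ → ℕ → Bool := onCell 1239849684 370763052 0 1230186008 33554432 16777216
    (rowNK 3 0 false false false .pnn 2 1 3 (qsf 1239849684 370763052 0 1230186008 1) ndN1q2b ndN3q3 pcN1 Cut.none Ext.none)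

def k0_mm_213_b : ∃ t, chk3 f_mm_213_b t 1 1 1 = true :=
  ⟨(b (l 3) (l 3)), by decide +kernel⟩

theorem c_mm_213_b : CertN 1239849684 370763052 0 1230186008 33554432 16777216 3 false false false .pnn 2 1 3
    ndN1q2b ndN3q3 pcN1 Cut.none Ext.none :=
  certNK0 (fam := false) (s1 := false) (s2 := false) (a := 2) (b := 1) (c := 3) (cn := .pnn) (n1 := ndN1q2b) (n2 := ndN3q3) (pc := pcN1) (cut := Cut.none) (xt := Ext.none) (P1 := 1239849684) (W1 := 370763052) (P2 := 0) (W2 := 1230186008) (P3 := 33554432) (W3 := 16777216) (N0 := 3)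
    rfl rfl rfl k0_mm_213_b

noncomputable def f_mm_303 : ℕ → ℕ → ℕ → ℕ → Bool := onCell 1610612736 536870912 0 1230186008 33554432 16777216
    (rowNK 3 0 false false false .npn 3 0 3 (qsf 1610612736 536870912 0 1230186008 0) ndN1q3 ndN3q3 pcN0 Cut.none Ext.none)

def k0_mm_303 : ∃ t, chk3 f_mm_303 t 1 1 1 = true :=
  ⟨(b (l 3) (l 3)), by decide +kernel⟩

theorem c_mm_303 : CertN 1610612736 536870912 0 1230186008 33554432 16777216 3 false false false .npn 3 0 3
    ndN1q3 ndN3q3 pcN0 Cut.none Ext.none :=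
  certNK0 (fam := false) (s1 := false) (s2 := false) (a := 3) (b := 0) (c := 3) (cn := .npn) (n1 := ndN1q3) (n2 := ndN3q3) (pc := pcN0) (cut := Cut.none) (xt := Ext.none) (P1 := 1610612736) (W1 := 536870912) (P2 := 0) (W2 := 1230186008) (P3 := 33554432) (W3 := 16777216) (N0 := 3)
    rfl rfl rfl k0_mm_303

noncomputable def f_mm_313 : ℕ → ℕ → ℕ → ℕ → Bool := onCell 1610612736 536870912 0 1230186008 33554432 16777216
    (rowNK 3 0 false false false .dn 3 1 3 (qsf 1610612736 536870912 0 1230186008 1) ndN1q3 ndN3q3 pcN1 Cut.none Ext.none)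

def k0_mm_313 : ∃ t, chk3 f_mm_313 t 1 1 1 = true :=
  ⟨(b (l 3) (l 1)), by decide +kernel⟩

theorem c_mm_313 : CertN 1610612736 536870912 0 1230186008 33554432 16777216 3 false false false .dn 3 1 3
    ndN1q3 ndN3q3 pcN1 Cut.none Ext.none :=
  certNK0 (fam := false) (s1 := false) (s2 := false) (a := 3) (b := 1) (c := 3) (cn := .dn) (n1 := ndN1q3) (n2 := ndN3q3) (pc := pcN1) (cut := Cut.none) (xt := Ext.none) (P1 := 1610612736) (W1 := 536870912) (P2 := 0) (W2 := 1230186008) (P3 := 33554432) (W3 := 16777216) (N0 := 3)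
    rfl rfl rfl k0_mm_313

end Pool.Agent.Strip051.G.I1_32_3_64.Tab.C.NB13

namespace Pool.Agent.Strip051.G.I1_32_3_64.Tab.C.NB14

open Pool.Agent.Strip051.PB Pool.Agent.Strip051.PB.T
open Pool.Agent.Strip051.G.I1_32_3_64.Tab

noncomputable def f_pp_001 : ℕ → ℕ → ℕ → ℕ → Bool := onCell 0 536870912 0 536870912 33554432 16777216
    (rowNK 3 1 false true true .up 0 0 1 (qsf 0 536870912 536870912 536870912 0) ndN1q0 ndN4q1 pcN0 Cut.none Ext.none)

def k0_pp_001 : ∃ t, chk3 f_pp_001 t 1 1 1 = true :=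
  ⟨(l 3), by decide +kernel⟩

theorem c_pp_001 : CertN 0 536870912 536870912 536870912 33554432 16777216 3 false true true .up 0 0 1
    ndN1q0 ndN4q1 pcN0 Cut.none Ext.none :=
  certNK1 (fam := false) (s1 := true) (s2 := true) (a := 0) (b := 0) (c := 1) (cn := .up) (n1 := ndN1q0) (n2 := ndN4q1) (pc := pcN0) (cut := Cut.none) (xt := Ext.none) (P1 := 0) (W1 := 536870912) (P2 := 536870912) (W2 := 536870912) (P3 := 33554432) (W3 := 16777216) (N0 := 3)
    rfl rfl rfl (fun _ => rfl) k0_pp_001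

noncomputable def cut_pp_011 : Cut := Cut.of [[⟨0, 0, 0, 33554432⟩, ⟨1, 1, 0, 33554432⟩, ⟨2, 1, 0, 33554432⟩]]

noncomputable def f_pp_011 : ℕ → ℕ → ℕ → ℕ → Bool := onCell 0 536870912 536870912 536870912 33554432 16777216
    (rowNK 3 1 false true true .pnn 0 1 1 (qsf 0 536870912 536870912 536870912 1) ndN1q0 ndN4q1 pcN1 cut_pp_011 Ext.none)

def k0_pp_011 : ∃ t, chk3 f_pp_011 t 1 1 1 = true :=
  ⟨(b (l 3) (b (l 3) (a (b (l 3) (a (b (l 3) (b (l 3) (a (a (a (l 6) (l 3)) (l 2)) (l 2)))) (l 2))) (l 2)))), by decide +kernel⟩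

theorem c_pp_011 : CertN 0 536870912 536870912 536870912 33554432 16777216 3 false true true .pnn 0 1 1
    ndN1q0 ndN4q1 pcN1 cut_pp_011 Ext.none :=
  certNK1 (fam := false) (s1 := true) (s2 := true) (a := 0) (b := 1) (c := 1) (cn := .pnn) (n1 := ndN1q0) (n2 := ndN4q1) (pc := pcN1) (cut := cut_pp_011) (xt := Ext.none) (P1 := 0) (W1 := 536870912) (P2 := 536870912) (W2 := 536870912) (P3 := 33554432) (W3 := 16777216) (N0 := 3)
    rfl rfl rfl (fun _ => rfl) k0_pp_011

noncomputable def cut_pp_012 : Cut := Cut.of [[⟨0, 0, 0, 33554432⟩, ⟨1, 1, 0, 33554432⟩, ⟨2, 1, 0, 33554432⟩]]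

noncomputable def f_pp_012 : ℕ → ℕ → ℕ → ℕ → Bool := onCell 0 536870912 536870912 536870912 33554432 16777216
    (rowNK 3 1 false true true .pnp 0 1 2 (qsf 0 536870912 1073741824 536870912 1) ndN1q0 ndN4q2 pcN1 cut_pp_012 Ext.none)

def k0_pp_012 : ∃ t, chk3 f_pp_012 t 1 1 1 = true :=
  ⟨(b (l 3) (a (b (l 3) (b (l 3) (a (b (l 3) (a (a (a (b (l 3) (l 6)) (l 3)) (l 3)) (l 3))) (l 3)))) (l 3))), by decide +kernel⟩

theorem c_pp_012 : CertN 0 536870912 1073741824 536870912 33554432 16777216 3 false true true .pnp 0 1 2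
    ndN1q0 ndN4q2 pcN1 cut_pp_012 Ext.none :=
  certNK1 (fam := false) (s1 := true) (s2 := true) (a := 0) (b := 1) (c := 2) (cn := .pnp) (n1 := ndN1q0) (n2 := ndN4q2) (pc := pcN1) (cut := cut_pp_012) (xt := Ext.none) (P1 := 0) (W1 := 536870912) (P2 := 1073741824) (W2 := 536870912) (P3 := 33554432) (W3 := 16777216) (N0 := 3)
    rfl rfl rfl (fun _ => rfl) k0_pp_012

noncomputable def cut_pp_022 : Cut := Cut.of [[⟨0, 0, 0, 33554432⟩, ⟨1, 1, 0, 33554432⟩, ⟨2, 1, 0, 33554432⟩]]

noncomputable def f_pp_022 : ℕ → ℕ → ℕ → ℕ → Bool := onCell 0 536870912 1073741824 536870912 33554432 16777216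
    (rowNK 3 1 false true true .pp 0 2 2 (qsf 0 536870912 1073741824 536870912 2) ndN1q0 ndN4q2 pcN2 cut_pp_022 Ext.none)

def k0_pp_022 : ∃ t, chk3 f_pp_022 t 2 1 1 = true :=
  ⟨(b (a (b (b (a (b (a (a (b (b (l 6) (a (l 6) (a (l 6) (l 16778784)))) (b (a (a (l 6) (a (l 6) (l 16755440))) (a (l 16761008) (l 16767360))) (a (a (a (b (l 6) (l 16733536)) (l 16745336)) (l 16751248)) (l 16762576)))) (b (l 3) (a (l 16879448) (l 16971456)))) (l 3)) (a (a (a (b (a (a (a (a (a (l 16725248) (a (l 16742000) (l 16754672))) (l 16727832)) (l 16729032)) (b (l 16722144) (l 17062648))) (b (l 16838712) (l 17233480))) (b (a (c (l 17904960) (a (b (l 17189712) (l 17502368)) (l 17464248))) (l 17800128)) (a (l 17881432) (l 18112736)))) (b (a (b (l 17100064) (l 17507736)) (l 17401592)) (b (l 17846784) (l 18101280)))) (b (a (l 17453328) (l 17442360)) (a (l 17937864) (l 17864040)))) (b (l 64592663079) (a (l 17733176) (l 17562800))))) (b (l 3) (a (l 17197040) (l 3)))) (a (b (a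 (a (b (a (l 18294784) (l 18406904)) (l 18771088)) (b (l 18253192) (l 18523032))) (b (l 17950928) (l 18200240))) (a (a (l 19085776) (l 18816872)) (l 18645616))) (b (a (l 17956424) (l 17561192)) (b (l 17980088) (l 18151312))))) (b (b (b (a (a (l 19145240) (l 18686976)) (l 18258640)) (a (l 18995760) (b (l 18328104) (l 18503904)))) (a (l 19101384) (l 18488920))) (a (l 19196840) (l 18662696)))) (b (b (l 3) (b (l 3) (a (l 17796888) (l 3)))) (b (b (b (l 17938320) (b (l 17985808) (b (l 18003632) (l 18026336)))) (l 18125000)) (l 18321584)))) (a (b (a (b (l 19193328) (l 19090976)) (l 18776064)) (a (l 19110104) (l 18832512))) (b (b (l 18486744) (l 18592944)) (a (l 18732368) (l 2))))), by decide +kernel⟩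

def k1_pp_022 : ∃ t, chk3 f_pp_022 t 3 1 1 = true :=
  ⟨(b (a (b (l 3) (b (b (b (l 3) (b (l 17962504) (l 17997072))) (l 18057824)) (l 18223168))) (b (l 3) (b (b (b (l 17947008) (l 2)) (l 2)) (l 2)))) (a (b (b (l 18382216) (l 2)) (l 2)) (l 2))), by decide +kernel⟩

theorem s2_pp_022 : ∃ t, chk3 f_pp_022 t 1 1 1 = true := ex3_a k0_pp_022 k1_pp_022

theorem c_pp_022 : CertN 0 536870912 1073741824 536870912 33554432 16777216 3 false true true .pp 0 2 2
    ndN1q0 ndN4q2 pcN2 cut_pp_022 Ext.none :=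
  certNK1 (fam := false) (s1 := true) (s2 := true) (a := 0) (b := 2) (c := 2) (cn := .pp) (n1 := ndN1q0) (n2 := ndN4q2) (pc := pcN2) (cut := cut_pp_022) (xt := Ext.none) (P1 := 0) (W1 := 536870912) (P2 := 1073741824) (W2 := 536870912) (P3 := 33554432) (W3 := 16777216) (N0 := 3)
    rfl rfl rfl (fun _ => rfl) s2_pp_022

noncomputable def f_pp_023 : ℕ → ℕ → ℕ → ℕ → Bool := onCell 1073741824 536870912 0 1230186008 33554432 16777216
    (rowNK 3 2 false true true .up 0 2 3 (qsf 0 536870912 0 1230186008 2) ndN1q0 ndN4q3 pcN2 Cut.none Ext.none)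

def k0_pp_023 : ∃ t, chk3 f_pp_023 t 1 1 1 = true :=
  ⟨(a (b (l 2) (b (a (l 2) (a (l 2) (l 18345352))) (b (a (l 2) (a (a (a (l 17974768) (a (l 18043448) (l 18084360))) (l 18131016)) (l 18233816))) (a (l 3) (a (a (a (l 3) (a (l 17983536) (l 18008208))) (l 18067680)) (l 18206480)))))) (b (a (l 2) (b (l 18513520) (l 18579880))) (b (l 18506064) (b (l 18515776) (l 18583992))))), by decide +kernel⟩

theorem c_pp_023 : CertN 0 536870912 0 1230186008 33554432 16777216 3 false true true .up 0 2 3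
    ndN1q0 ndN4q3 pcN2 Cut.none Ext.none :=
  certNK2 (fam := false) (s1 := true) (s2 := true) (a := 0) (b := 2) (c := 3) (cn := .up) (n1 := ndN1q0) (n2 := ndN4q3) (pc := pcN2) (cut := Cut.none) (xt := Ext.none) (P1 := 0) (W1 := 536870912) (P2 := 0) (W2 := 1230186008) (P3 := 33554432) (W3 := 16777216) (N0 := 3)
    rfl rfl rfl (fun _ => rfl) k0_pp_023

noncomputable def f_pp_033 : ℕ → ℕ → ℕ → ℕ → Bool := onCell 0 536870912 0 1230186008 33554432 16777216
    (rowNK 3 0 false true true .pnn 0 3 3 (qsf 0 536870912 0 1230186008 3) ndN1q0 ndN4q3 pcN3 Cut.none Ext.none)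

def k0_pp_033 : ∃ t, chk3 f_pp_033 t 1 1 1 = true :=
  ⟨(a (b (a (b (l 4) (b (a (l 4) (l 18235312)) (a (l 18313928) (l 18403688)))) (b (l 18309512) (b (l 18145968) (l 18432632)))) (b (a (a (b (l 18513304) (b (l 18775600) (l 18408880))) (b (l 18496392) (l 18740080))) (b (l 18636192) (b (l 18926968) (l 18319368)))) (b (b (a (a (l 18048560) (l 17886928)) (l 17766056)) (l 18220808)) (a (l 19100016) (l 18532952))))) (b (a (b (l 18121264) (b (l 18173800) (l 18103256))) (b (l 18011592) (b (l 17811800) (l 18044488)))) (b (a (b (b (l 18487608) (l 18752264)) (b (l 18680840) (l 18094736))) (b (l 710853931927) (l 1))) (l 1)))), by decide +kernel⟩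

theorem c_pp_033 : CertN 0 536870912 0 1230186008 33554432 16777216 3 false true true .pnn 0 3 3
    ndN1q0 ndN4q3 pcN3 Cut.none Ext.none :=
  certNK0 (fam := false) (s1 := true) (s2 := true) (a := 0) (b := 3) (c := 3) (cn := .pnn) (n1 := ndN1q0) (n2 := ndN4q3) (pc := pcN3) (cut := Cut.none) (xt := Ext.none) (P1 := 0) (W1 := 536870912) (P2 := 0) (W2 := 1230186008) (P3 := 33554432) (W3 := 16777216) (N0 := 3)
    rfl rfl rfl k0_pp_033

noncomputable def f_pp_101 : ℕ → ℕ → ℕ → ℕ → Bool := onCell 536870912 536870912 536870912 536870912 33554432 16777216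
    (rowNK 3 0 false true true .npn 1 0 1 (qsf 536870912 536870912 536870912 536870912 0) ndN1q1 ndN4q1 pcN0 Cut.none Ext.none)

def k0_pp_101 : ∃ t, chk3 f_pp_101 t 1 1 1 = true :=
  ⟨(l 3), by decide +kernel⟩

theorem c_pp_101 : CertN 536870912 536870912 536870912 536870912 33554432 16777216 3 false true true .npn 1 0 1
    ndN1q1 ndN4q1 pcN0 Cut.none Ext.none :=
  certNK0 (fam := false) (s1 := true) (s2 := true) (a := 1) (b := 0) (c := 1) (cn := .npn) (n1 := ndN1q1) (n2 := ndN4q1) (pc := pcN0) (cut := Cut.none) (xt := Ext.none) (P1 := 536870912) (W1 := 536870912) (P2 := 536870912) (W2 := 536870912) (P3 := 33554432) (W3 := 16777216) (N0 := 3)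
    rfl rfl rfl k0_pp_101

noncomputable def f_pp_102 : ℕ → ℕ → ℕ → ℕ → Bool := onCell 536870912 536870912 1073741824 536870912 33554432 16777216
    (rowNK 3 0 false true true .npp 1 0 2 (qsf 536870912 536870912 1073741824 536870912 0) ndN1q1 ndN4q2 pcN0 Cut.none Ext.none)

def k0_pp_102 : ∃ t, chk3 f_pp_102 t 1 1 1 = true :=
  ⟨(l 3), by decide +kernel⟩

theorem c_pp_102 : CertN 536870912 536870912 1073741824 536870912 33554432 16777216 3 false true true .npp 1 0 2
    ndN1q1 ndN4q2 pcN0 Cut.none Ext.none :=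
  certNK0 (fam := false) (s1 := true) (s2 := true) (a := 1) (b := 0) (c := 2) (cn := .npp) (n1 := ndN1q1) (n2 := ndN4q2) (pc := pcN0) (cut := Cut.none) (xt := Ext.none) (P1 := 536870912) (W1 := 536870912) (P2 := 1073741824) (W2 := 536870912) (P3 := 33554432) (W3 := 16777216) (N0 := 3)
    rfl rfl rfl k0_pp_102

noncomputable def f_pp_112 : ℕ → ℕ → ℕ → ℕ → Bool := onCell 536870912 536870912 1073741824 536870912 33554432 16777216
    (rowNK 3 0 false true true .dn 1 1 2 (qsf 536870912 536870912 1073741824 536870912 1) ndN1q1 ndN4q2 pcN1 Cut.none Ext.none)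

def k0_pp_112 : ∃ t, chk3 f_pp_112 t 1 1 1 = true :=
  ⟨(l 3), by decide +kernel⟩

theorem c_pp_112 : CertN 536870912 536870912 1073741824 536870912 33554432 16777216 3 false true true .dn 1 1 2
    ndN1q1 ndN4q2 pcN1 Cut.none Ext.none :=
  certNK0 (fam := false) (s1 := true) (s2 := true) (a := 1) (b := 1) (c := 2) (cn := .dn) (n1 := ndN1q1) (n2 := ndN4q2) (pc := pcN1) (cut := Cut.none) (xt := Ext.none) (P1 := 536870912) (W1 := 536870912) (P2 := 1073741824) (W2 := 536870912) (P3 := 33554432) (W3 := 16777216) (N0 := 3)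
    rfl rfl rfl k0_pp_112

noncomputable def f_pp_113 : ℕ → ℕ → ℕ → ℕ → Bool := onCell 536870912 536870912 0 1230186008 33554432 16777216
    (rowNK 3 2 false true true .nn 1 1 3 (qsf 536870912 536870912 0 1230186008 1) ndN1q1 ndN4q3 pcN1 Cut.none Ext.none)

def k0_pp_113 : ∃ t, chk3 f_pp_113 t 1 1 1 = true :=
  ⟨(a (b (l 2) (l 3)) (b (a (l 2) (b (a (l 2) (a (l 2) (a (l 16816344) (a (l 16814648) (l 16814656))))) (a (l 318533846727) (l 17143816)))) (b (a (l 3) (b (l 3) (l 3))) (l 3)))), by decide +kernel⟩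

theorem c_pp_113 : CertN 536870912 536870912 0 1230186008 33554432 16777216 3 false true true .nn 1 1 3
    ndN1q1 ndN4q3 pcN1 Cut.none Ext.none :=
  certNK2 (fam := false) (s1 := true) (s2 := true) (a := 1) (b := 1) (c := 3) (cn := .nn) (n1 := ndN1q1) (n2 := ndN4q3) (pc := pcN1) (cut := Cut.none) (xt := Ext.none) (P1 := 536870912) (W1 := 536870912) (P2 := 0) (W2 := 1230186008) (P3 := 33554432) (W3 := 16777216) (N0 := 3)
    rfl rfl rfl (fun _ => rfl) k0_pp_113

noncomputable def f_pp_123 : ℕ → ℕ → ℕ → ℕ → Bool := onCell 1073741824 536870912 0 1230186008 33554432 16777216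
    (rowNK 3 2 false true true .npn 1 2 3 (qsf 536870912 536870912 0 1230186008 2) ndN1q1 ndN4q3 pcN2 Cut.none Ext.none)

def k0_pp_123 : ∃ t, chk3 f_pp_123 t 1 1 1 = true :=
  ⟨(b (b (a (a (a (a (a (a (l 16953112) (l 16953840)) (l 16955056)) (l 16952472)) (l 16941744)) (l 16903816)) (a (l 16853912) (l 17068320))) (a (a (a (a (a (a (l 17049752) (l 17050416)) (l 17051480)) (l 17042800)) (l 17026304)) (l 16987536)) (b (l 17173672) (l 17011872)))) (b (a (a (a (a (a (a (l 381885047431) (l 378663314407)) (l 357188943575)) (l 343230254295)) (b (l 17363344) (l 17534472))) (b (l 17272400) (a (a (a (l 17512120) (a (l 17485360) (l 17476448))) (l 17457304)) (l 17408056)))) (b (l 17126064) (l 17240208))) (a (b (a (a (l 3) (l 18029264)) (a (a (a (l 17794848) (l 18008216)) (l 17725496)) (l 17662440))) (a (l 3) (a (a (a (l 3) (l 1)) (l 1)) (l 1)))) (l 1)))), by decide +kernel⟩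

theorem c_pp_123 : CertN 536870912 536870912 0 1230186008 33554432 16777216 3 false true true .npn 1 2 3
    ndN1q1 ndN4q3 pcN2 Cut.none Ext.none :=
  certNK2 (fam := false) (s1 := true) (s2 := true) (a := 1) (b := 2) (c := 3) (cn := .npn) (n1 := ndN1q1) (n2 := ndN4q3) (pc := pcN2) (cut := Cut.none) (xt := Ext.none) (P1 := 536870912) (W1 := 536870912) (P2 := 0) (W2 := 1230186008) (P3 := 33554432) (W3 := 16777216) (N0 := 3)
    rfl rfl rfl (fun _ => rfl) k0_pp_123

noncomputable def f_pp_133 : ℕ → ℕ → ℕ → ℕ → Bool := onCell 1610612736 536870912 0 1230186008 33554432 16777216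
    (rowNK 3 2 false true true .dn 1 3 3 (qsf 536870912 536870912 0 1230186008 3) ndN1q1 ndN4q3 pcN3 Cut.none Ext.none)

def k0_pp_133 : ∃ t, chk3 f_pp_133 t 1 1 1 = true :=
  ⟨(b (a (a (b (l 17595576) (l 1)) (l 1)) (l 1)) (l 1)), by decide +kernel⟩

theorem c_pp_133 : CertN 536870912 536870912 0 1230186008 33554432 16777216 3 false true true .dn 1 3 3
    ndN1q1 ndN4q3 pcN3 Cut.none Ext.none :=
  certNK2 (fam := false) (s1 := true) (s2 := true) (a := 1) (b := 3) (c := 3) (cn := .dn) (n1 := ndN1q1) (n2 := ndN4q3) (pc := pcN3) (cut := Cut.none) (xt := Ext.none) (P1 := 536870912) (W1 := 536870912) (P2 := 0) (W2 := 1230186008) (P3 := 33554432) (W3 := 16777216) (N0 := 3)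
    rfl rfl rfl (fun _ => rfl) k0_pp_133

noncomputable def f_pp_202_a : ℕ → ℕ → ℕ → ℕ → Bool := onCell 0 536870912 1073741824 536870912 33554432 16777216
    (rowNK 3 0 false true true .pp 2 0 2 (qsf 0 536870912 1073741824 536870912 0) ndN1q2a ndN4q2 pcN0 Cut.none Ext.none)

def k0_pp_202_a : ∃ t, chk3 f_pp_202_a t 1 1 1 = true :=
  ⟨(l 5), by decide +kernel⟩

theorem c_pp_202_a : CertN 0 536870912 1073741824 536870912 33554432 16777216 3 false true true .pp 2 0 2
    ndN1q2a ndN4q2 pcN0 Cut.none Ext.none :=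
  certNK0 (fam := false) (s1 := true) (s2 := true) (a := 2) (b := 0) (c := 2) (cn := .pp) (n1 := ndN1q2a) (n2 := ndN4q2) (pc := pcN0) (cut := Cut.none) (xt := Ext.none) (P1 := 0) (W1 := 536870912) (P2 := 1073741824) (W2 := 536870912) (P3 := 33554432) (W3 := 16777216) (N0 := 3)
    rfl rfl rfl k0_pp_202_a

noncomputable def f_pp_202_b : ℕ → ℕ → ℕ → ℕ → Bool := onCell 1239849684 370763052 1073741824 536870912 33554432 16777216
    (rowNK 3 0 false true true .pp 2 0 2 (qsf 1239849684 370763052 1073741824 536870912 0) ndN1q2b ndN4q2 pcN0 Cut.none Ext.none)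

def k0_pp_202_b : ∃ t, chk3 f_pp_202_b t 1 1 1 = true :=
  ⟨(l 5), by decide +kernel⟩

theorem c_pp_202_b : CertN 1239849684 370763052 1073741824 536870912 33554432 16777216 3 false true true .pp 2 0 2
    ndN1q2b ndN4q2 pcN0 Cut.none Ext.none :=
  certNK0 (fam := false) (s1 := true) (s2 := true) (a := 2) (b := 0) (c := 2) (cn := .pp) (n1 := ndN1q2b) (n2 := ndN4q2) (pc := pcN0) (cut := Cut.none) (xt := Ext.none) (P1 := 1239849684) (W1 := 370763052) (P2 := 1073741824) (W2 := 536870912) (P3 := 33554432) (W3 := 16777216) (N0 := 3)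
    rfl rfl rfl k0_pp_202_b

noncomputable def f_pp_203_a : ℕ → ℕ → ℕ → ℕ → Bool := onCell 0 536870912 0 1230186008 33554432 16777216
    (rowNK 3 0 false true true .up 2 0 3 (qsf 0 536870912 0 1230186008 0) ndN1q2a ndN4q3 pcN0 Cut.none Ext.none)

def k0_pp_203_a : ∃ t, chk3 f_pp_203_a t 1 1 1 = true :=
  ⟨(b (l 2) (b (l 2) (l 3))), by decide +kernel⟩

theorem c_pp_203_a : CertN 0 536870912 0 1230186008 33554432 16777216 3 false true true .up 2 0 3
    ndN1q2a ndN4q3 pcN0 Cut.none Ext.none :=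
  certNK0 (fam := false) (s1 := true) (s2 := true) (a := 2) (b := 0) (c := 3) (cn := .up) (n1 := ndN1q2a) (n2 := ndN4q3) (pc := pcN0) (cut := Cut.none) (xt := Ext.none) (P1 := 0) (W1 := 536870912) (P2 := 0) (W2 := 1230186008) (P3 := 33554432) (W3 := 16777216) (N0 := 3)
    rfl rfl rfl k0_pp_203_a

noncomputable def f_pp_203_b : ℕ → ℕ → ℕ → ℕ → Bool := onCell 1239849684 370763052 0 1230186008 33554432 16777216
    (rowNK 3 0 false true true .up 2 0 3 (qsf 1239849684 370763052 0 1230186008 0) ndN1q2b ndN4q3 pcN0 Cut.none Ext.none)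

def k0_pp_203_b : ∃ t, chk3 f_pp_203_b t 1 1 1 = true :=
  ⟨(b (l 3) (l 5)), by decide +kernel⟩

theorem c_pp_203_b : CertN 1239849684 370763052 0 1230186008 33554432 16777216 3 false true true .up 2 0 3
    ndN1q2b ndN4q3 pcN0 Cut.none Ext.none :=
  certNK0 (fam := false) (s1 := true) (s2 := true) (a := 2) (b := 0) (c := 3) (cn := .up) (n1 := ndN1q2b) (n2 := ndN4q3) (pc := pcN0) (cut := Cut.none) (xt := Ext.none) (P1 := 1239849684) (W1 := 370763052) (P2 := 0) (W2 := 1230186008) (P3 := 33554432) (W3 := 16777216) (N0 := 3)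
    rfl rfl rfl k0_pp_203_b

noncomputable def cut_pp_213_a : Cut := Cut.of [[⟨0, 1, 0, 7061502⟩, ⟨1, 1, 0, 7061502⟩, ⟨2, 2, 0, 184626⟩]]

noncomputable def f_pp_213_a : ℕ → ℕ → ℕ → ℕ → Bool := onCell 0 536870912 0 1230186008 33554432 16777216
    (rowNK 3 0 false true true .pnn 2 1 3 (qsf 0 536870912 0 1230186008 1) ndN1q2a ndN4q3 pcN1 cut_pp_213_a Ext.none)

def k0_pp_213_a : ∃ t, chk3 f_pp_213_a t 1 1 1 = true :=
  ⟨(b (a (l 3) (b (a (l 3) (b (a (l 3) (b (a (l 3) (a (l 3) (a (l 3) (b (b (l 6) (l 3)) (l 3))))) (l 3))) (l 3))) (l 3))) (b (l 3) (l 3))), by decide +kernel⟩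

theorem c_pp_213_a : CertN 0 536870912 0 1230186008 33554432 16777216 3 false true true .pnn 2 1 3
    ndN1q2a ndN4q3 pcN1 cut_pp_213_a Ext.none :=
  certNK0 (fam := false) (s1 := true) (s2 := true) (a := 2) (b := 1) (c := 3) (cn := .pnn) (n1 := ndN1q2a) (n2 := ndN4q3) (pc := pcN1) (cut := cut_pp_213_a) (xt := Ext.none) (P1 := 0) (W1 := 536870912) (P2 := 0) (W2 := 1230186008) (P3 := 33554432) (W3 := 16777216) (N0 := 3)
    rfl rfl rfl k0_pp_213_a

noncomputable def cut_pp_213_b : Cut := Cut.of [[⟨0, 1, 0, 7061502⟩, ⟨1, 1, 0, 7061502⟩, ⟨2, 2, 0, 184626⟩]]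

noncomputable def f_pp_213_b : ℕ → ℕ → ℕ → ℕ → Bool := onCell 1239849684 370763052 0 1230186008 33554432 16777216
    (rowNK 3 0 false true true .pnn 2 1 3 (qsf 1239849684 370763052 0 1230186008 1) ndN1q2b ndN4q3 pcN1 cut_pp_213_b Ext.none)

def k0_pp_213_b : ∃ t, chk3 f_pp_213_b t 1 1 1 = true :=
  ⟨(b (l 3) (l 5)), by decide +kernel⟩

theorem c_pp_213_b : CertN 1239849684 370763052 0 1230186008 33554432 16777216 3 false true true .pnn 2 1 3
    ndN1q2b ndN4q3 pcN1 cut_pp_213_b Ext.none :=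
  certNK0 (fam := false) (s1 := true) (s2 := true) (a := 2) (b := 1) (c := 3) (cn := .pnn) (n1 := ndN1q2b) (n2 := ndN4q3) (pc := pcN1) (cut := cut_pp_213_b) (xt := Ext.none) (P1 := 1239849684) (W1 := 370763052) (P2 := 0) (W2 := 1230186008) (P3 := 33554432) (W3 := 16777216) (N0 := 3)
    rfl rfl rfl k0_pp_213_b

noncomputable def f_pp_303 : ℕ → ℕ → ℕ → ℕ → Bool := onCell 1610612736 536870912 0 1230186008 33554432 16777216
    (rowNK 3 0 false true true .npn 3 0 3 (qsf 1610612736 536870912 0 1230186008 0) ndN1q3 ndN4q3 pcN0 Cut.none Ext.none)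

def k0_pp_303 : ∃ t, chk3 f_pp_303 t 1 1 1 = true :=
  ⟨(b (l 3) (l 5)), by decide +kernel⟩

theorem c_pp_303 : CertN 1610612736 536870912 0 1230186008 33554432 16777216 3 false true true .npn 3 0 3
    ndN1q3 ndN4q3 pcN0 Cut.none Ext.none :=
  certNK0 (fam := false) (s1 := true) (s2 := true) (a := 3) (b := 0) (c := 3) (cn := .npn) (n1 := ndN1q3) (n2 := ndN4q3) (pc := pcN0) (cut := Cut.none) (xt := Ext.none) (P1 := 1610612736) (W1 := 536870912) (P2 := 0) (W2 := 1230186008) (P3 := 33554432) (W3 := 16777216) (N0 := 3)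
    rfl rfl rfl k0_pp_303

noncomputable def f_pp_313 : ℕ → ℕ → ℕ → ℕ → Bool := onCell 1610612736 536870912 0 1230186008 33554432 16777216
    (rowNK 3 0 false true true .dn 3 1 3 (qsf 1610612736 536870912 0 1230186008 1) ndN1q3 ndN4q3 pcN1 Cut.none Ext.none)

def k0_pp_313 : ∃ t, chk3 f_pp_313 t 1 1 1 = true :=
  ⟨(b (l 3) (l 1)), by decide +kernel⟩

theorem c_pp_313 : CertN 1610612736 536870912 0 1230186008 33554432 16777216 3 false true true .dn 3 1 3
    ndN1q3 ndN4q3 pcN1 Cut.none Ext.none :=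
  certNK0 (fam := false) (s1 := true) (s2 := true) (a := 3) (b := 1) (c := 3) (cn := .dn) (n1 := ndN1q3) (n2 := ndN4q3) (pc := pcN1) (cut := Cut.none) (xt := Ext.none) (P1 := 1610612736) (W1 := 536870912) (P2 := 0) (W2 := 1230186008) (P3 := 33554432) (W3 := 16777216) (N0 := 3)
    rfl rfl rfl k0_pp_313

noncomputable def f_pm_001 : ℕ → ℕ → ℕ → ℕ → Bool := onCell 0 536870912 536870912 536870912 33554432 16777216
    (rowNK 3 0 false true false .up 0 0 1 (qsf 0 536870912 536870912 536870912 0) ndN1q0 ndN4q1 pcN0 Cut.none Ext.none)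

def k0_pm_001 : ∃ t, chk3 f_pm_001 t 1 1 1 = true :=
  ⟨(l 4), by decide +kernel⟩

theorem c_pm_001 : CertN 0 536870912 536870912 536870912 33554432 16777216 3 false true false .up 0 0 1
    ndN1q0 ndN4q1 pcN0 Cut.none Ext.none :=
  certNK0 (fam := false) (s1 := true) (s2 := false) (a := 0) (b := 0) (c := 1) (cn := .up) (n1 := ndN1q0) (n2 := ndN4q1) (pc := pcN0) (cut := Cut.none) (xt := Ext.none) (P1 := 0) (W1 := 536870912) (P2 := 536870912) (W2 := 536870912) (P3 := 33554432) (W3 := 16777216) (N0 := 3)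
    rfl rfl rfl k0_pm_001

noncomputable def f_pm_011 : ℕ → ℕ → ℕ → ℕ → Bool := onCell 0 536870912 536870912 536870912 33554432 16777216
    (rowNK 3 0 false true false .pnn 0 1 1 (qsf 0 536870912 536870912 536870912 1) ndN1q0 ndN4q1 pcN1 Cut.none Ext.none)

def k0_pm_011 : ∃ t, chk3 f_pm_011 t 1 1 1 = true :=
  ⟨(l 4), by decide +kernel⟩

theorem c_pm_011 : CertN 0 536870912 536870912 536870912 33554432 16777216 3 false true false .pnn 0 1 1
    ndN1q0 ndN4q1 pcN1 Cut.none Ext.none :=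
  certNK0 (fam := false) (s1 := true) (s2 := false) (a := 0) (b := 1) (c := 1) (cn := .pnn) (n1 := ndN1q0) (n2 := ndN4q1) (pc := pcN1) (cut := Cut.none) (xt := Ext.none) (P1 := 0) (W1 := 536870912) (P2 := 536870912) (W2 := 536870912) (P3 := 33554432) (W3 := 16777216) (N0 := 3)
    rfl rfl rfl k0_pm_011

noncomputable def f_pm_012 : ℕ → ℕ → ℕ → ℕ → Bool := onCell 0 536870912 1073741824 536870912 33554432 16777216
    (rowNK 3 0 false true false .pnp 0 1 2 (qsf 0 536870912 1073741824 536870912 1) ndN1q0 ndN4q2 pcN1 Cut.none Ext.none)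

def k0_pm_012 : ∃ t, chk3 f_pm_012 t 1 1 1 = true :=
  ⟨(l 4), by decide +kernel⟩

theorem c_pm_012 : CertN 0 536870912 1073741824 536870912 33554432 16777216 3 false true false .pnp 0 1 2
    ndN1q0 ndN4q2 pcN1 Cut.none Ext.none :=
  certNK0 (fam := false) (s1 := true) (s2 := false) (a := 0) (b := 1) (c := 2) (cn := .pnp) (n1 := ndN1q0) (n2 := ndN4q2) (pc := pcN1) (cut := Cut.none) (xt := Ext.none) (P1 := 0) (W1 := 536870912) (P2 := 1073741824) (W2 := 536870912) (P3 := 33554432) (W3 := 16777216) (N0 := 3)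
    rfl rfl rfl k0_pm_012

noncomputable def f_pm_022 : ℕ → ℕ → ℕ → ℕ → Bool := onCell 0 536870912 1073741824 536870912 33554432 16777216
    (rowNK 3 0 false true false .pp 0 2 2 (qsf 0 536870912 1073741824 536870912 2) ndN1q0 ndN4q2 pcN2 Cut.none Ext.none)

def k0_pm_022 : ∃ t, chk3 f_pm_022 t 1 1 1 = true :=
  ⟨(l 4), by decide +kernel⟩

theorem c_pm_022 : CertN 0 536870912 1073741824 536870912 33554432 16777216 3 false true false .pp 0 2 2
    ndN1q0 ndN4q2 pcN2 Cut.none Ext.none :=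
  certNK0 (fam := false) (s1 := true) (s2 := false) (a := 0) (b := 2) (c := 2) (cn := .pp) (n1 := ndN1q0) (n2 := ndN4q2) (pc := pcN2) (cut := Cut.none) (xt := Ext.none) (P1 := 0) (W1 := 536870912) (P2 := 1073741824) (W2 := 536870912) (P3 := 33554432) (W3 := 16777216) (N0 := 3)
    rfl rfl rfl k0_pm_022

noncomputable def f_pm_023 : ℕ → ℕ → ℕ → ℕ → Bool := onCell 0 536870912 0 1230186008 33554432 16777216
    (rowNK 3 0 false true false .up 0 2 3 (qsf 0 536870912 0 1230186008 2) ndN1q0 ndN4q3 pcN2 Cut.none Ext.none)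

def k0_pm_023 : ∃ t, chk3 f_pm_023 t 1 1 1 = true :=
  ⟨(b (b (a (l 2) (a (l 2) (l 18527808))) (l 4)) (l 4)), by decide +kernel⟩

theorem c_pm_023 : CertN 0 536870912 0 1230186008 33554432 16777216 3 false true false .up 0 2 3
    ndN1q0 ndN4q3 pcN2 Cut.none Ext.none :=
  certNK0 (fam := false) (s1 := true) (s2 := false) (a := 0) (b := 2) (c := 3) (cn := .up) (n1 := ndN1q0) (n2 := ndN4q3) (pc := pcN2) (cut := Cut.none) (xt := Ext.none) (P1 := 0) (W1 := 536870912) (P2 := 0) (W2 := 1230186008) (P3 := 33554432) (W3 := 16777216) (N0 := 3)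
    rfl rfl rfl k0_pm_023

noncomputable def f_pm_033 : ℕ → ℕ → ℕ → ℕ → Bool := onCell 0 536870912 0 1230186008 33554432 16777216
    (rowNK 3 0 false true false .pnn 0 3 3 (qsf 0 536870912 0 1230186008 3) ndN1q0 ndN4q3 pcN3 Cut.none Ext.none)

def k0_pm_033 : ∃ t, chk3 f_pm_033 t 1 1 1 = true :=
  ⟨(b (a (l 4) (a (l 4) (b (l 18041656) (l 4)))) (l 4)), by decide +kernel⟩

theorem c_pm_033 : CertN 0 536870912 0 1230186008 33554432 16777216 3 false true false .pnn 0 3 3
    ndN1q0 ndN4q3 pcN3 Cut.none Ext.none :=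
  certNK0 (fam := false) (s1 := true) (s2 := false) (a := 0) (b := 3) (c := 3) (cn := .pnn) (n1 := ndN1q0) (n2 := ndN4q3) (pc := pcN3) (cut := Cut.none) (xt := Ext.none) (P1 := 0) (W1 := 536870912) (P2 := 0) (W2 := 1230186008) (P3 := 33554432) (W3 := 16777216) (N0 := 3)
    rfl rfl rfl k0_pm_033

noncomputable def f_pm_101 : ℕ → ℕ → ℕ → ℕ → Bool := onCell 536870912 536870912 536870912 536870912 33554432 16777216
    (rowNK 3 0 false true false .npn 1 0 1 (qsf 536870912 536870912 536870912 536870912 0) ndN1q1 ndN4q1 pcN0 Cut.none Ext.none)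

def k0_pm_101 : ∃ t, chk3 f_pm_101 t 1 1 1 = true :=
  ⟨(l 4), by decide +kernel⟩

theorem c_pm_101 : CertN 536870912 536870912 536870912 536870912 33554432 16777216 3 false true false .npn 1 0 1
    ndN1q1 ndN4q1 pcN0 Cut.none Ext.none :=
  certNK0 (fam := false) (s1 := true) (s2 := false) (a := 1) (b := 0) (c := 1) (cn := .npn) (n1 := ndN1q1) (n2 := ndN4q1) (pc := pcN0) (cut := Cut.none) (xt := Ext.none) (P1 := 536870912) (W1 := 536870912) (P2 := 536870912) (W2 := 536870912) (P3 := 33554432) (W3 := 16777216) (N0 := 3)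
    rfl rfl rfl k0_pm_101

noncomputable def f_pm_102 : ℕ → ℕ → ℕ → ℕ → Bool := onCell 536870912 536870912 1073741824 536870912 33554432 16777216
    (rowNK 3 0 false true false .npp 1 0 2 (qsf 536870912 536870912 1073741824 536870912 0) ndN1q1 ndN4q2 pcN0 Cut.none Ext.none)

def k0_pm_102 : ∃ t, chk3 f_pm_102 t 1 1 1 = true :=
  ⟨(l 4), by decide +kernel⟩

theorem c_pm_102 : CertN 536870912 536870912 1073741824 536870912 33554432 16777216 3 false true false .npp 1 0 2
    ndN1q1 ndN4q2 pcN0 Cut.none Ext.none :=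
  certNK0 (fam := false) (s1 := true) (s2 := false) (a := 1) (b := 0) (c := 2) (cn := .npp) (n1 := ndN1q1) (n2 := ndN4q2) (pc := pcN0) (cut := Cut.none) (xt := Ext.none) (P1 := 536870912) (W1 := 536870912) (P2 := 1073741824) (W2 := 536870912) (P3 := 33554432) (W3 := 16777216) (N0 := 3)
    rfl rfl rfl k0_pm_102

noncomputable def f_pm_112 : ℕ → ℕ → ℕ → ℕ → Bool := onCell 536870912 536870912 1073741824 536870912 33554432 16777216
    (rowNK 3 0 false true false .dn 1 1 2 (qsf 536870912 536870912 1073741824 536870912 1) ndN1q1 ndN4q2 pcN1 Cut.none Ext.none)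

def k0_pm_112 : ∃ t, chk3 f_pm_112 t 1 1 1 = true :=
  ⟨(l 4), by decide +kernel⟩

theorem c_pm_112 : CertN 536870912 536870912 1073741824 536870912 33554432 16777216 3 false true false .dn 1 1 2
    ndN1q1 ndN4q2 pcN1 Cut.none Ext.none :=
  certNK0 (fam := false) (s1 := true) (s2 := false) (a := 1) (b := 1) (c := 2) (cn := .dn) (n1 := ndN1q1) (n2 := ndN4q2) (pc := pcN1) (cut := Cut.none) (xt := Ext.none) (P1 := 536870912) (W1 := 536870912) (P2 := 1073741824) (W2 := 536870912) (P3 := 33554432) (W3 := 16777216) (N0 := 3)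
    rfl rfl rfl k0_pm_112

noncomputable def f_pm_113 : ℕ → ℕ → ℕ → ℕ → Bool := onCell 536870912 536870912 0 1230186008 33554432 16777216
    (rowNK 3 2 false true false .nn 1 1 3 (qsf 536870912 536870912 0 1230186008 1) ndN1q1 ndN4q3 pcN1 Cut.none Ext.none)

def k0_pm_113 : ∃ t, chk3 f_pm_113 t 1 1 1 = true :=
  ⟨(b (a (l 2) (a (l 2) (b (a (l 2) (a (l 2) (a (l 17015496) (a (l 17043176) (l 17067456))))) (a (l 17617288) (a (l 17749816) (a (l 17815624) (a (l 17848400) (l 17864280)))))))) (b (a (a (l 2) (b (l 2) (l 17913040))) (a (l 18012520) (l 18216912))) (a (b (a (l 2) (l 4)) (l 4)) (l 4)))), by decide +kernel⟩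

theorem c_pm_113 : CertN 536870912 536870912 0 1230186008 33554432 16777216 3 false true false .nn 1 1 3
    ndN1q1 ndN4q3 pcN1 Cut.none Ext.none :=
  certNK2 (fam := false) (s1 := true) (s2 := false) (a := 1) (b := 1) (c := 3) (cn := .nn) (n1 := ndN1q1) (n2 := ndN4q3) (pc := pcN1) (cut := Cut.none) (xt := Ext.none) (P1 := 536870912) (W1 := 536870912) (P2 := 0) (W2 := 1230186008) (P3 := 33554432) (W3 := 16777216) (N0 := 3)
    rfl rfl rfl (fun _ => rfl) k0_pm_113

noncomputable def f_pm_123 : ℕ → ℕ → ℕ → ℕ → Bool := onCell 1073741824 536870912 0 1230186008 33554432 16777216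
    (rowNK 3 2 false true false .npn 1 2 3 (qsf 536870912 536870912 0 1230186008 2) ndN1q1 ndN4q3 pcN2 Cut.none Ext.none)

def k0_pm_123 : ∃ t, chk3 f_pm_123 t 1 1 1 = true :=
  ⟨(b (b (a (a (a (a (a (a (l 17249976) (l 17255448)) (l 17257928)) (l 17259352)) (l 17251008)) (l 17169288)) (a (l 16914376) (l 17152848))) (a (a (l 17346408) (l 17107624)) (l 4))) (a (l 4) (l 4))), by decide +kernel⟩

theorem c_pm_123 : CertN 536870912 536870912 0 1230186008 33554432 16777216 3 false true false .npn 1 2 3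
    ndN1q1 ndN4q3 pcN2 Cut.none Ext.none :=
  certNK2 (fam := false) (s1 := true) (s2 := false) (a := 1) (b := 2) (c := 3) (cn := .npn) (n1 := ndN1q1) (n2 := ndN4q3) (pc := pcN2) (cut := Cut.none) (xt := Ext.none) (P1 := 536870912) (W1 := 536870912) (P2 := 0) (W2 := 1230186008) (P3 := 33554432) (W3 := 16777216) (N0 := 3)
    rfl rfl rfl (fun _ => rfl) k0_pm_123

noncomputable def f_pm_133 : ℕ → ℕ → ℕ → ℕ → Bool := onCell 536870912 536870912 0 1230186008 33554432 16777216
    (rowNK 3 0 false true false .dn 1 3 3 (qsf 536870912 536870912 0 1230186008 3) ndN1q1 ndN4q3 pcN3 Cut.none Ext.none)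

def k0_pm_133 : ∃ t, chk3 f_pm_133 t 1 1 1 = true :=
  ⟨(b (b (a (a (l 17675368) (l 1)) (l 1)) (l 1)) (l 1)), by decide +kernel⟩

theorem c_pm_133 : CertN 536870912 536870912 0 1230186008 33554432 16777216 3 false true false .dn 1 3 3
    ndN1q1 ndN4q3 pcN3 Cut.none Ext.none :=
  certNK0 (fam := false) (s1 := true) (s2 := false) (a := 1) (b := 3) (c := 3) (cn := .dn) (n1 := ndN1q1) (n2 := ndN4q3) (pc := pcN3) (cut := Cut.none) (xt := Ext.none) (P1 := 536870912) (W1 := 536870912) (P2 := 0) (W2 := 1230186008) (P3 := 33554432) (W3 := 16777216) (N0 := 3)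
    rfl rfl rfl k0_pm_133

noncomputable def f_pm_202_a : ℕ → ℕ → ℕ → ℕ → Bool := onCell 0 536870912 1073741824 536870912 33554432 16777216
    (rowNK 3 0 false true false .pp 2 0 2 (qsf 0 536870912 1073741824 536870912 0) ndN1q2a ndN4q2 pcN0 Cut.none Ext.none)

def k0_pm_202_a : ∃ t, chk3 f_pm_202_a t 1 1 1 = true :=
  ⟨(a (b (a (b (l 1) (b (l 19502784) (l 19258792))) (b (l 4) (b (l 19546064) (l 19229648)))) (b (b (l 19016784) (a (l 18672040) (l 18606128))) (a (b (c (l 18965072) (l 17522016)) (b (c (l 18385848) (l 17489056)) (l 17340112))) (b (l 18298048) (c (l 18476072) (l 17407848)))))) (b (b (l 4) (a (b (l 4) (l 19279144)) (l 4))) (b (b (a (l 18922760) (l 4)) (a (l 18548696) (l 18810208))) (a (b (l 18222968) (b (l 18015560) (l 17979992))) (b (a (l 18175840) (l 18181936)) (a (l 17921408) (l 17940000))))))), by decide +kernel⟩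

theorem c_pm_202_a : CertN 0 536870912 1073741824 536870912 33554432 16777216 3 false true false .pp 2 0 2
    ndN1q2a ndN4q2 pcN0 Cut.none Ext.none :=
  certNK0 (fam := false) (s1 := true) (s2 := false) (a := 2) (b := 0) (c := 2) (cn := .pp) (n1 := ndN1q2a) (n2 := ndN4q2) (pc := pcN0) (cut := Cut.none) (xt := Ext.none) (P1 := 0) (W1 := 536870912) (P2 := 1073741824) (W2 := 536870912) (P3 := 33554432) (W3 := 16777216) (N0 := 3)
    rfl rfl rfl k0_pm_202_a

noncomputable def f_pm_202_b : ℕ → ℕ → ℕ → ℕ → Bool := onCell 0 536870912 1073741824 536870912 33554432 16777216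
    (rowNK 3 2 false true false .pp 2 0 2 (qsf 1239849684 370763052 1073741824 536870912 0) ndN1q2b ndN4q2 pcN0 Cut.none Ext.none)

def k0_pm_202_b : ∃ t, chk3 f_pm_202_b t 1 1 1 = true :=
  ⟨(b (a (b (l 1) (a (l 19524808) (l 1))) (l 1)) (a (b (a (b (l 18985312) (l 18673608)) (b (l 19028288) (l 18852944))) (a (a (b (l 18408504) (l 18143520)) (c (l 19052816) (l 17713624))) (b (c (l 19142408) (l 17716472)) (c (l 18322024) (l 17759800))))) (b (l 1) (a (b (c (l 556236272183) (a (l 17394960) (l 1))) (c (l 192235326983) (l 17801352))) (l 1))))), by decide +kernel⟩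

theorem c_pm_202_b : CertN 1239849684 370763052 1073741824 536870912 33554432 16777216 3 false true false .pp 2 0 2
    ndN1q2b ndN4q2 pcN0 Cut.none Ext.none :=
  certNK2 (fam := false) (s1 := true) (s2 := false) (a := 2) (b := 0) (c := 2) (cn := .pp) (n1 := ndN1q2b) (n2 := ndN4q2) (pc := pcN0) (cut := Cut.none) (xt := Ext.none) (P1 := 1239849684) (W1 := 370763052) (P2 := 1073741824) (W2 := 536870912) (P3 := 33554432) (W3 := 16777216) (N0 := 3)
    rfl rfl rfl (fun _ => rfl) k0_pm_202_b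

noncomputable def f_pm_203_a : ℕ → ℕ → ℕ → ℕ → Bool := onCell 0 536870912 0 1230186008 33554432 16777216
    (rowNK 3 0 false true false .up 2 0 3 (qsf 0 536870912 0 1230186008 0) ndN1q2a ndN4q3 pcN0 Cut.none Ext.none)

def k0_pm_203_a : ∃ t, chk3 f_pm_203_a t 1 1 1 = true :=
  ⟨(b (l 2) (b (l 2) (b (a (b (l 2) (l 18344384)) (l 2)) (a (a (a (b (l 18412632) (l 18230792)) (b (l 18410312) (l 18019216))) (b (b (l 18443280) (l 18316424)) (b (l 17815688) (l 17282368)))) (a (b (b (l 18294528) (l 17782504)) (b (c (l 17711080) (l 17654280)) (c (l 18214160) (l 17442928)))) (b (b (l 2) (a (l 17346032) (l 2))) (b (a (l 17521176) (l 17635536)) (l 17760464)))))))), by decide +kernel⟩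

theorem c_pm_203_a : CertN 0 536870912 0 1230186008 33554432 16777216 3 false true false .up 2 0 3
    ndN1q2a ndN4q3 pcN0 Cut.none Ext.none :=
  certNK0 (fam := false) (s1 := true) (s2 := false) (a := 2) (b := 0) (c := 3) (cn := .up) (n1 := ndN1q2a) (n2 := ndN4q3) (pc := pcN0) (cut := Cut.none) (xt := Ext.none) (P1 := 0) (W1 := 536870912) (P2 := 0) (W2 := 1230186008) (P3 := 33554432) (W3 := 16777216) (N0 := 3)
    rfl rfl rfl k0_pm_203_a

noncomputable def f_pm_203_b : ℕ → ℕ → ℕ → ℕ → Bool := onCell 0 536870912 0 1230186008 33554432 16777216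
    (rowNK 3 2 false true false .up 2 0 3 (qsf 1239849684 370763052 0 1230186008 0) ndN1q2b ndN4q3 pcN0 Cut.none Ext.none)

def k0_pm_203_b : ∃ t, chk3 f_pm_203_b t 1 1 1 = true :=
  ⟨(b (l 3) (a (b (a (l 2) (l 617505411447)) (b (a (l 2) (a (l 18907224) (l 18634760))) (a (c (a (l 17775704) (l 17306064)) (l 275518765095)) (b (l 18626576) (a (l 17654400) (l 17897688)))))) (b (a (b (l 3) (l 17949632)) (a (l 123650526711) (l 113449961319))) (b (a (l 18416376) (l 18300952)) (a (b (l 18611456) (a (l 18126016) (l 18327208))) (b (l 18395688) (a (l 18329320) (l 1)))))))), by decide +kernel⟩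

theorem c_pm_203_b : CertN 1239849684 370763052 0 1230186008 33554432 16777216 3 false true false .up 2 0 3
    ndN1q2b ndN4q3 pcN0 Cut.none Ext.none :=
  certNK2 (fam := false) (s1 := true) (s2 := false) (a := 2) (b := 0) (c := 3) (cn := .up) (n1 := ndN1q2b) (n2 := ndN4q3) (pc := pcN0) (cut := Cut.none) (xt := Ext.none) (P1 := 1239849684) (W1 := 370763052) (P2 := 0) (W2 := 1230186008) (P3 := 33554432) (W3 := 16777216) (N0 := 3)
    rfl rfl rfl (fun _ => rfl) k0_pm_203_b

noncomputable def cut_pm_213_a : Cut := Cut.of [[⟨0, 1, 0, 7061502⟩, ⟨1, 1, 0, 7061502⟩, ⟨2, 2, 0, 184626⟩]]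

noncomputable def f_pm_213_a : ℕ → ℕ → ℕ → ℕ → Bool := onCell 0 536870912 0 1230186008 33554432 16777216
    (rowNK 3 0 false true false .pnn 2 1 3 (qsf 0 536870912 0 1230186008 1) ndN1q2a ndN4q3 pcN1 cut_pm_213_a Ext.none)

def k0_pm_213_a : ∃ t, chk3 f_pm_213_a t 1 1 1 = true :=
  ⟨(b (b (a (b (l 3) (l 3)) (a (b (l 3) (a (l 293836505959) (b (l 287393895767) (l 16894936)))) (b (a (b (l 3) (l 287393838951)) (b (a (l 298131185207) (a (l 277730115447) (a (l 268066425047) (b (b (l 6) (l 16778904)) (l 16782416))))) (l 171966716919))) (a (l 178946318855) (l 16905296))))) (a (b (a (l 363093076151) (b (l 283099236055) (l 275582964583))) (a (b (l 309405838151) (l 16908776)) (b (l 16919240) (l 16853600)))) (a (b (a (l 17082304) (l 16926200)) (l 17148200)) (b (a (l 16886080) (l 16947800)) (b (l 17083048) (l 17182232)))))) (b (a (b (a (l 17058144) (l 17084576)) (b (l 17283288) (l 17505536))) (b (a (l 17260704) (b (l 17327208) (l 17459952))) (a (l 17585792) (l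 17767096)))) (a (b (b (l 17732248) (l 18009600)) (l 1073778548871)) (b (l 18204864) (b (l 18383008) (l 18366424)))))), by decide +kernel⟩

theorem c_pm_213_a : CertN 0 536870912 0 1230186008 33554432 16777216 3 false true false .pnn 2 1 3
    ndN1q2a ndN4q3 pcN1 cut_pm_213_a Ext.none :=
  certNK0 (fam := false) (s1 := true) (s2 := false) (a := 2) (b := 1) (c := 3) (cn := .pnn) (n1 := ndN1q2a) (n2 := ndN4q3) (pc := pcN1) (cut := cut_pm_213_a) (xt := Ext.none) (P1 := 0) (W1 := 536870912) (P2 := 0) (W2 := 1230186008) (P3 := 33554432) (W3 := 16777216) (N0 := 3)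
    rfl rfl rfl k0_pm_213_a

noncomputable def cut_pm_213_b : Cut := Cut.of [[⟨0, 1, 0, 7061502⟩, ⟨1, 1, 0, 7061502⟩, ⟨2, 2, 0, 184626⟩]]

noncomputable def f_pm_213_b : ℕ → ℕ → ℕ → ℕ → Bool := onCell 1239849684 370763052 0 1230186008 33554432 16777216
    (rowNK 3 0 false true false .pnn 2 1 3 (qsf 1239849684 370763052 0 1230186008 1) ndN1q2b ndN4q3 pcN1 cut_pm_213_b Ext.none)

def k0_pm_213_b : ∃ t, chk3 f_pm_213_b t 1 1 1 = true :=
  ⟨(b (a (b (l 3) (a (b (l 3) (b (l 3) (b (l 17123480) (l 17004096)))) (l 3))) (l 3)) (b (a (b (a (b (a (l 16833632) (l 16921736)) (l 16935400)) (b (l 17122488) (l 17092032))) (a (b (l 17006976) (l 17234184)) (b (l 16947008) (l 17032032)))) (b (a (b (l 3) (l 17304272)) (l 1)) (l 1))) (a (b (b (a (l 17566456) (l 1)) (l 17768968)) (l 1)) (l 1)))), by decide +kernel⟩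

theorem c_pm_213_b : CertN 1239849684 370763052 0 1230186008 33554432 16777216 3 false true false .pnn 2 1 3
    ndN1q2b ndN4q3 pcN1 cut_pm_213_b Ext.none :=
  certNK0 (fam := false) (s1 := true) (s2 := false) (a := 2) (b := 1) (c := 3) (cn := .pnn) (n1 := ndN1q2b) (n2 := ndN4q3) (pc := pcN1) (cut := cut_pm_213_b) (xt := Ext.none) (P1 := 1239849684) (W1 := 370763052) (P2 := 0) (W2 := 1230186008) (P3 := 33554432) (W3 := 16777216) (N0 := 3)
    rfl rfl rfl k0_pm_213_b

noncomputable def f_pm_303 : ℕ → ℕ → ℕ → ℕ → Bool := onCell 0 536870912 0 1230186008 33554432 16777216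
    (rowNK 3 2 false true false .npn 3 0 3 (qsf 1610612736 536870912 0 1230186008 0) ndN1q3 ndN4q3 pcN0 Cut.none Ext.none)

def k0_pm_303 : ∃ t, chk3 f_pm_303 t 1 1 1 = true :=
  ⟨(b (l 3) (a (b (b (l 3) (a (l 17398704) (a (l 17253384) (l 17373128)))) (b (a (b (a (l 17645304) (l 17641576)) (a (l 17278720) (l 17584080))) (a (l 17689568) (l 17525576))) (a (b (a (l 17389840) (l 17342576)) (a (l 17373400) (l 17297200))) (b (l 249680533207) (l 1))))) (b (a (b (l 3) (b (l 17517024) (l 17464232))) (b (b (l 3) (l 1)) (l 1))) (l 1)))), by decide +kernel⟩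

theorem c_pm_303 : CertN 1610612736 536870912 0 1230186008 33554432 16777216 3 false true false .npn 3 0 3
    ndN1q3 ndN4q3 pcN0 Cut.none Ext.none :=
  certNK2 (fam := false) (s1 := true) (s2 := false) (a := 3) (b := 0) (c := 3) (cn := .npn) (n1 := ndN1q3) (n2 := ndN4q3) (pc := pcN0) (cut := Cut.none) (xt := Ext.none) (P1 := 1610612736) (W1 := 536870912) (P2 := 0) (W2 := 1230186008) (P3 := 33554432) (W3 := 16777216) (N0 := 3)
    rfl rfl rfl (fun _ => rfl) k0_pm_303

noncomputable def f_pm_313 : ℕ → ℕ → ℕ → ℕ → Bool := onCell 1610612736 536870912 0 1230186008 33554432 16777216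
    (rowNK 3 0 false true false .dn 3 1 3 (qsf 1610612736 536870912 0 1230186008 1) ndN1q3 ndN4q3 pcN1 Cut.none Ext.none)

def k0_pm_313 : ∃ t, chk3 f_pm_313 t 1 1 1 = true :=
  ⟨(b (l 3) (l 1)), by decide +kernel⟩

theorem c_pm_313 : CertN 1610612736 536870912 0 1230186008 33554432 16777216 3 false true false .dn 3 1 3
    ndN1q3 ndN4q3 pcN1 Cut.none Ext.none :=
  certNK0 (fam := false) (s1 := true) (s2 := false) (a := 3) (b := 1) (c := 3) (cn := .dn) (n1 := ndN1q3) (n2 := ndN4q3) (pc := pcN1) (cut := Cut.none) (xt := Ext.none) (P1 := 1610612736) (W1 := 536870912) (P2 := 0) (W2 := 1230186008) (P3 := 33554432) (W3 := 16777216) (N0 := 3)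
    rfl rfl rfl k0_pm_313

noncomputable def f_mm_001 : ℕ → ℕ → ℕ → ℕ → Bool := onCell 0 536870912 0 536870912 33554432 16777216
    (rowNK 3 1 false false false .up 0 0 1 (qsf 0 536870912 536870912 536870912 0) ndN1q0 ndN4q1 pcN0 Cut.none Ext.none)

def k0_mm_001 : ∃ t, chk3 f_mm_001 t 1 1 1 = true :=
  ⟨(l 3), by decide +kernel⟩

theorem c_mm_001 : CertN 0 536870912 536870912 536870912 33554432 16777216 3 false false false .up 0 0 1
    ndN1q0 ndN4q1 pcN0 Cut.none Ext.none :=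
  certNK1 (fam := false) (s1 := false) (s2 := false) (a := 0) (b := 0) (c := 1) (cn := .up) (n1 := ndN1q0) (n2 := ndN4q1) (pc := pcN0) (cut := Cut.none) (xt := Ext.none) (P1 := 0) (W1 := 536870912) (P2 := 536870912) (W2 := 536870912) (P3 := 33554432) (W3 := 16777216) (N0 := 3)
    rfl rfl rfl (fun _ => rfl) k0_mm_001

noncomputable def f_mm_011 : ℕ → ℕ → ℕ → ℕ → Bool := onCell 0 536870912 536870912 536870912 33554432 16777216
    (rowNK 3 1 false false false .pnn 0 1 1 (qsf 0 536870912 536870912 536870912 1) ndN1q0 ndN4q1 pcN1 Cut.none Ext.none)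

def k0_mm_011 : ∃ t, chk3 f_mm_011 t 1 1 1 = true :=
  ⟨(l 5), by decide +kernel⟩

theorem c_mm_011 : CertN 0 536870912 536870912 536870912 33554432 16777216 3 false false false .pnn 0 1 1
    ndN1q0 ndN4q1 pcN1 Cut.none Ext.none :=
  certNK1 (fam := false) (s1 := false) (s2 := false) (a := 0) (b := 1) (c := 1) (cn := .pnn) (n1 := ndN1q0) (n2 := ndN4q1) (pc := pcN1) (cut := Cut.none) (xt := Ext.none) (P1 := 0) (W1 := 536870912) (P2 := 536870912) (W2 := 536870912) (P3 := 33554432) (W3 := 16777216) (N0 := 3)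
    rfl rfl rfl (fun _ => rfl) k0_mm_011

noncomputable def f_mm_012 : ℕ → ℕ → ℕ → ℕ → Bool := onCell 0 536870912 1073741824 536870912 33554432 16777216
    (rowNK 3 0 false false false .pnp 0 1 2 (qsf 0 536870912 1073741824 536870912 1) ndN1q0 ndN4q2 pcN1 Cut.none Ext.none)

def k0_mm_012 : ∃ t, chk3 f_mm_012 t 1 1 1 = true :=
  ⟨(l 5), by decide +kernel⟩

theorem c_mm_012 : CertN 0 536870912 1073741824 536870912 33554432 16777216 3 false false false .pnp 0 1 2
    ndN1q0 ndN4q2 pcN1 Cut.none Ext.none :=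
  certNK0 (fam := false) (s1 := false) (s2 := false) (a := 0) (b := 1) (c := 2) (cn := .pnp) (n1 := ndN1q0) (n2 := ndN4q2) (pc := pcN1) (cut := Cut.none) (xt := Ext.none) (P1 := 0) (W1 := 536870912) (P2 := 1073741824) (W2 := 536870912) (P3 := 33554432) (W3 := 16777216) (N0 := 3)
    rfl rfl rfl k0_mm_012

noncomputable def f_mm_022 : ℕ → ℕ → ℕ → ℕ → Bool := onCell 0 536870912 1073741824 536870912 33554432 16777216
    (rowNK 3 0 false false false .pp 0 2 2 (qsf 0 536870912 1073741824 536870912 2) ndN1q0 ndN4q2 pcN2 Cut.none Ext.none)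

def k0_mm_022 : ∃ t, chk3 f_mm_022 t 1 1 1 = true :=
  ⟨(l 5), by decide +kernel⟩

theorem c_mm_022 : CertN 0 536870912 1073741824 536870912 33554432 16777216 3 false false false .pp 0 2 2
    ndN1q0 ndN4q2 pcN2 Cut.none Ext.none :=
  certNK0 (fam := false) (s1 := false) (s2 := false) (a := 0) (b := 2) (c := 2) (cn := .pp) (n1 := ndN1q0) (n2 := ndN4q2) (pc := pcN2) (cut := Cut.none) (xt := Ext.none) (P1 := 0) (W1 := 536870912) (P2 := 1073741824) (W2 := 536870912) (P3 := 33554432) (W3 := 16777216) (N0 := 3)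
    rfl rfl rfl k0_mm_022

noncomputable def f_mm_023 : ℕ → ℕ → ℕ → ℕ → Bool := onCell 0 536870912 0 1230186008 33554432 16777216
    (rowNK 3 0 false false false .up 0 2 3 (qsf 0 536870912 0 1230186008 2) ndN1q0 ndN4q3 pcN2 Cut.none Ext.none)

def k0_mm_023 : ∃ t, chk3 f_mm_023 t 1 1 1 = true :=
  ⟨(l 5), by decide +kernel⟩

theorem c_mm_023 : CertN 0 536870912 0 1230186008 33554432 16777216 3 false false false .up 0 2 3
    ndN1q0 ndN4q3 pcN2 Cut.none Ext.none :=
  certNK0 (fam := false) (s1 := false) (s2 := false) (a := 0) (b := 2) (c := 3) (cn := .up) (n1 := ndN1q0) (n2 := ndN4q3) (pc := pcN2) (cut := Cut.none) (xt := Ext.none) (P1 := 0) (W1 := 536870912) (P2 := 0) (W2 := 1230186008) (P3 := 33554432) (W3 := 16777216) (N0 := 3)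
    rfl rfl rfl k0_mm_023

noncomputable def f_mm_033 : ℕ → ℕ → ℕ → ℕ → Bool := onCell 0 536870912 0 1230186008 33554432 16777216
    (rowNK 3 0 false false false .pnn 0 3 3 (qsf 0 536870912 0 1230186008 3) ndN1q0 ndN4q3 pcN3 Cut.none Ext.none)

def k0_mm_033 : ∃ t, chk3 f_mm_033 t 1 1 1 = true :=
  ⟨(l 5), by decide +kernel⟩

theorem c_mm_033 : CertN 0 536870912 0 1230186008 33554432 16777216 3 false false false .pnn 0 3 3
    ndN1q0 ndN4q3 pcN3 Cut.none Ext.none :=
  certNK0 (fam := false) (s1 := false) (s2 := false) (a := 0) (b := 3) (c := 3) (cn := .pnn) (n1 := ndN1q0) (n2 := ndN4q3) (pc := pcN3) (cut := Cut.none) (xt := Ext.none) (P1 := 0) (W1 := 536870912) (P2 := 0) (W2 := 1230186008) (P3 := 33554432) (W3 := 16777216) (N0 := 3)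
    rfl rfl rfl k0_mm_033

noncomputable def f_mm_101 : ℕ → ℕ → ℕ → ℕ → Bool := onCell 536870912 536870912 536870912 536870912 33554432 16777216
    (rowNK 3 0 false false false .npn 1 0 1 (qsf 536870912 536870912 536870912 536870912 0) ndN1q1 ndN4q1 pcN0 Cut.none Ext.none)

def k0_mm_101 : ∃ t, chk3 f_mm_101 t 1 1 1 = true :=
  ⟨(l 3), by decide +kernel⟩

theorem c_mm_101 : CertN 536870912 536870912 536870912 536870912 33554432 16777216 3 false false false .npn 1 0 1
    ndN1q1 ndN4q1 pcN0 Cut.none Ext.none :=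
  certNK0 (fam := false) (s1 := false) (s2 := false) (a := 1) (b := 0) (c := 1) (cn := .npn) (n1 := ndN1q1) (n2 := ndN4q1) (pc := pcN0) (cut := Cut.none) (xt := Ext.none) (P1 := 536870912) (W1 := 536870912) (P2 := 536870912) (W2 := 536870912) (P3 := 33554432) (W3 := 16777216) (N0 := 3)
    rfl rfl rfl k0_mm_101

noncomputable def f_mm_102 : ℕ → ℕ → ℕ → ℕ → Bool := onCell 536870912 536870912 1073741824 536870912 33554432 16777216
    (rowNK 3 0 false false false .npp 1 0 2 (qsf 536870912 536870912 1073741824 536870912 0) ndN1q1 ndN4q2 pcN0 Cut.none Ext.none)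

def k0_mm_102 : ∃ t, chk3 f_mm_102 t 1 1 1 = true :=
  ⟨(l 3), by decide +kernel⟩

theorem c_mm_102 : CertN 536870912 536870912 1073741824 536870912 33554432 16777216 3 false false false .npp 1 0 2
    ndN1q1 ndN4q2 pcN0 Cut.none Ext.none :=
  certNK0 (fam := false) (s1 := false) (s2 := false) (a := 1) (b := 0) (c := 2) (cn := .npp) (n1 := ndN1q1) (n2 := ndN4q2) (pc := pcN0) (cut := Cut.none) (xt := Ext.none) (P1 := 536870912) (W1 := 536870912) (P2 := 1073741824) (W2 := 536870912) (P3 := 33554432) (W3 := 16777216) (N0 := 3)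
    rfl rfl rfl k0_mm_102

noncomputable def f_mm_112 : ℕ → ℕ → ℕ → ℕ → Bool := onCell 536870912 536870912 1073741824 536870912 33554432 16777216
    (rowNK 3 0 false false false .dn 1 1 2 (qsf 536870912 536870912 1073741824 536870912 1) ndN1q1 ndN4q2 pcN1 Cut.none Ext.none)

def k0_mm_112 : ∃ t, chk3 f_mm_112 t 1 1 1 = true :=
  ⟨(l 3), by decide +kernel⟩

theorem c_mm_112 : CertN 536870912 536870912 1073741824 536870912 33554432 16777216 3 false false false .dn 1 1 2
    ndN1q1 ndN4q2 pcN1 Cut.none Ext.none :=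
  certNK0 (fam := false) (s1 := false) (s2 := false) (a := 1) (b := 1) (c := 2) (cn := .dn) (n1 := ndN1q1) (n2 := ndN4q2) (pc := pcN1) (cut := Cut.none) (xt := Ext.none) (P1 := 536870912) (W1 := 536870912) (P2 := 1073741824) (W2 := 536870912) (P3 := 33554432) (W3 := 16777216) (N0 := 3)
    rfl rfl rfl k0_mm_112

noncomputable def f_mm_113 : ℕ → ℕ → ℕ → ℕ → Bool := onCell 536870912 536870912 0 1230186008 33554432 16777216
    (rowNK 3 0 false false false .nn 1 1 3 (qsf 536870912 536870912 0 1230186008 1) ndN1q1 ndN4q3 pcN1 Cut.none Ext.none)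

def k0_mm_113 : ∃ t, chk3 f_mm_113 t 1 1 1 = true :=
  ⟨(l 5), by decide +kernel⟩

theorem c_mm_113 : CertN 536870912 536870912 0 1230186008 33554432 16777216 3 false false false .nn 1 1 3
    ndN1q1 ndN4q3 pcN1 Cut.none Ext.none :=
  certNK0 (fam := false) (s1 := false) (s2 := false) (a := 1) (b := 1) (c := 3) (cn := .nn) (n1 := ndN1q1) (n2 := ndN4q3) (pc := pcN1) (cut := Cut.none) (xt := Ext.none) (P1 := 536870912) (W1 := 536870912) (P2 := 0) (W2 := 1230186008) (P3 := 33554432) (W3 := 16777216) (N0 := 3)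
    rfl rfl rfl k0_mm_113

noncomputable def f_mm_123 : ℕ → ℕ → ℕ → ℕ → Bool := onCell 536870912 536870912 0 1230186008 33554432 16777216
    (rowNK 3 0 false false false .npn 1 2 3 (qsf 536870912 536870912 0 1230186008 2) ndN1q1 ndN4q3 pcN2 Cut.none Ext.none)

def k0_mm_123 : ∃ t, chk3 f_mm_123 t 1 1 1 = true :=
  ⟨(l 5), by decide +kernel⟩

theorem c_mm_123 : CertN 536870912 536870912 0 1230186008 33554432 16777216 3 false false false .npn 1 2 3
    ndN1q1 ndN4q3 pcN2 Cut.none Ext.none :=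
  certNK0 (fam := false) (s1 := false) (s2 := false) (a := 1) (b := 2) (c := 3) (cn := .npn) (n1 := ndN1q1) (n2 := ndN4q3) (pc := pcN2) (cut := Cut.none) (xt := Ext.none) (P1 := 536870912) (W1 := 536870912) (P2 := 0) (W2 := 1230186008) (P3 := 33554432) (W3 := 16777216) (N0 := 3)
    rfl rfl rfl k0_mm_123

noncomputable def f_mm_133 : ℕ → ℕ → ℕ → ℕ → Bool := onCell 536870912 536870912 0 1230186008 33554432 16777216
    (rowNK 3 0 false false false .dn 1 3 3 (qsf 536870912 536870912 0 1230186008 3) ndN1q1 ndN4q3 pcN3 Cut.none Ext.none)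

def k0_mm_133 : ∃ t, chk3 f_mm_133 t 1 1 1 = true :=
  ⟨(l 5), by decide +kernel⟩

theorem c_mm_133 : CertN 536870912 536870912 0 1230186008 33554432 16777216 3 false false false .dn 1 3 3
    ndN1q1 ndN4q3 pcN3 Cut.none Ext.none :=
  certNK0 (fam := false) (s1 := false) (s2 := false) (a := 1) (b := 3) (c := 3) (cn := .dn) (n1 := ndN1q1) (n2 := ndN4q3) (pc := pcN3) (cut := Cut.none) (xt := Ext.none) (P1 := 536870912) (W1 := 536870912) (P2 := 0) (W2 := 1230186008) (P3 := 33554432) (W3 := 16777216) (N0 := 3)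
    rfl rfl rfl k0_mm_133

noncomputable def cut_mm_202_a : Cut := Cut.of [[⟨0, 1, 0, 33554432⟩, ⟨1, 0, 0, 33554432⟩, ⟨2, 1, 0, 33554432⟩]]

noncomputable def f_mm_202_a : ℕ → ℕ → ℕ → ℕ → Bool := onCell 0 536870912 0 536870912 33554432 16777216
    (rowNK 3 1 false false false .pp 2 0 2 (qsf 0 536870912 1073741824 536870912 0) ndN1q2a ndN4q2 pcN0 cut_mm_202_a Ext.none)

def k0_mm_202_a : ∃ t, chk3 f_mm_202_a t 2 4 1 = true :=
  ⟨(b (a (b (l 18680592) (l 18730616)) (b (a (l 18789784) (l 18857272)) (a (l 18723344) (l 18620184)))) (a (b (l 18496888) (l 18245000)) (b (l 18305016) (l 241762489239)))), by decide +kernel⟩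

def k1_mm_202_a : ∃ t, chk3 f_mm_202_a t 3 4 1 = true :=
  ⟨(b (a (b (a (b (l 18829064) (l 18774592)) (b (a (l 18702632) (l 18628880)) (a (l 18585776) (l 18376680)))) (a (b (l 18559600) (l 18306904)) (b (l 18216320) (l 137071721895)))) (b (a (a (b (b (l 18154104) (l 18208496)) (a (l 18163800) (l 17987216))) (b (b (a (b (l 17630816) (l 17781616)) (b (l 17115496) (l 17328192))) (a (l 17853208) (a (l 17614856) (l 17427488)))) (a (b (l 17816680) (l 17725536)) (b (b (l 17555296) (l 94121210919)) (a (l 17389952) (l 293837479767)))))) (b (a (a (b (b (a (l 16861392) (l 16856944)) (l 16802072)) (a (b (l 17152448) (l 17261744)) (b (l 16884144) (b (l 17017400) (l 16931304))))) (b (b (a (b (l 16830504) (l 16791488)) (l 6)) (a (l 16770472) (b (l 6) (l 16747912)))) (b (a (l 16748544) (b (l 16751064) (a (l 16747512) (b (l 16750176) (l 134922347703))))) (a (b (a (l 16837064) (l 16745312)) (a (l 133848597895) (b (l 137069795959) (l 167134732983)))) (a (b (b (l 134385473847)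 (l 153712794999)) (l 158007785175)) (b (b (l 157470917767) (l 3)) (l 3))))))) (b (l 6) (b (b (l 6) (b (l 6) (b (b (l 6) (l 3)) (l 3)))) (l 3)))) (b (a (a (b (a (a (l 17356280) (l 17249992)) (a (c (l 17339512) (l 117742774695)) (c (l 100026704151) (b (l 134385466855) (l 196126025111))))) (a (a (l 17261288) (l 102711102743)) (a (l 254645460007) (l 3)))) (a (b (a (b (c (l 232096737063) (l 164987216743)) (l 3)) (l 3)) (l 3)) (l 3))) (l 3)) (l 3)))) (a (a (b (a (l 17893856) (l 119354592263)) (l 335713674375)) (b (a (l 326049977543) (l 3)) (l 3))) (l 3)))) (a (a (b (l 235320063943) (l 294374581975)) (b (a (l 211159877287) (l 343766587383)) (l 3))) (l 3))), by decide +kernel⟩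

def k2_mm_202_a : ∃ t, chk3 f_mm_202_a t 1 5 1 = true :=
  ⟨(a (b (a (b (l 17973600) (l 17647296)) (b (l 235855803079) (l 244445069431))) (a (b (l 187000193351) (l 195589465271)) (l 3))) (l 3)), by decide +kernel⟩

def k3_mm_202_a : ∃ t, chk3 f_mm_202_a t 1 3 1 = true :=
  ⟨(b (a (b (a (b (l 214379656263) (l 3)) (l 3)) (l 3)) (l 3)) (l 3)), by decide +kernel⟩

theorem s4_mm_202_a : ∃ t, chk3 f_mm_202_a t 1 4 1 = true := ex3_a k0_mm_202_a k1_mm_202_a

theorem s5_mm_202_a : ∃ t, chk3 f_mm_202_a t 1 2 1 = true := ex3_b s4_mm_202_a k2_mm_202_a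

theorem s6_mm_202_a : ∃ t, chk3 f_mm_202_a t 1 1 1 = true := ex3_b s5_mm_202_a k3_mm_202_a

theorem c_mm_202_a : CertN 0 536870912 1073741824 536870912 33554432 16777216 3 false false false .pp 2 0 2
    ndN1q2a ndN4q2 pcN0 cut_mm_202_a Ext.none :=
  certNK1 (fam := false) (s1 := false) (s2 := false) (a := 2) (b := 0) (c := 2) (cn := .pp) (n1 := ndN1q2a) (n2 := ndN4q2) (pc := pcN0) (cut := cut_mm_202_a) (xt := Ext.none) (P1 := 0) (W1 := 536870912) (P2 := 1073741824) (W2 := 536870912) (P3 := 33554432) (W3 := 16777216) (N0 := 3)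
    rfl rfl rfl (fun _ => rfl) s6_mm_202_a

noncomputable def cut_mm_202_b : Cut := Cut.of [[⟨0, 1, 0, 33554432⟩, ⟨1, 0, 0, 33554432⟩, ⟨2, 1, 0, 33554432⟩]]

noncomputable def f_mm_202_b : ℕ → ℕ → ℕ → ℕ → Bool := onCell 1239849684 370763052 0 536870912 33554432 16777216
    (rowNK 3 1 false false false .pp 2 0 2 (qsf 1239849684 370763052 1073741824 536870912 0) ndN1q2b ndN4q2 pcN0 cut_mm_202_b Ext.none)

def k0_mm_202_b : ∃ t, chk3 f_mm_202_b t 1 1 1 = true :=
  ⟨(b (a (b (b (a (b (l 18810848) (l 18957600)) (b (l 19011816) (l 18995048))) (a (b (l 18712240) (l 18479920)) (l 18606760))) (a (b (b (l 18211232) (l 17872832)) (b (l 17584248) (l 17313392))) (b (l 18080296) (l 3)))) (b (b (a (b (l 19259592) (l 18849384)) (l 219215280567)) (a (l 18436808) (l 3))) (l 3))) (a (b (b (a (a (l 229412541031) (l 3)) (l 3)) (l 3)) (l 2)) (l 2))), by decide +kernel⟩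

theorem c_mm_202_b : CertN 1239849684 370763052 1073741824 536870912 33554432 16777216 3 false false false .pp 2 0 2
    ndN1q2b ndN4q2 pcN0 cut_mm_202_b Ext.none :=
  certNK1 (fam := false) (s1 := false) (s2 := false) (a := 2) (b := 0) (c := 2) (cn := .pp) (n1 := ndN1q2b) (n2 := ndN4q2) (pc := pcN0) (cut := cut_mm_202_b) (xt := Ext.none) (P1 := 1239849684) (W1 := 370763052) (P2 := 1073741824) (W2 := 536870912) (P3 := 33554432) (W3 := 16777216) (N0 := 3)
    rfl rfl rfl (fun _ => rfl) k0_mm_202_b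

noncomputable def f_mm_203_a : ℕ → ℕ → ℕ → ℕ → Bool := onCell 0 536870912 0 1230186008 33554432 16777216
    (rowNK 3 0 false false false .up 2 0 3 (qsf 0 536870912 0 1230186008 0) ndN1q2a ndN4q3 pcN0 Cut.none Ext.none)

def k0_mm_203_a : ∃ t, chk3 f_mm_203_a t 1 1 1 = true :=
  ⟨(b (l 2) (b (l 2) (l 3))), by decide +kernel⟩

theorem c_mm_203_a : CertN 0 536870912 0 1230186008 33554432 16777216 3 false false false .up 2 0 3
    ndN1q2a ndN4q3 pcN0 Cut.none Ext.none :=
  certNK0 (fam := false) (s1 := false) (s2 := false) (a := 2) (b := 0) (c := 3) (cn := .up) (n1 := ndN1q2a) (n2 := ndN4q3) (pc := pcN0) (cut := Cut.none) (xt := Ext.none) (P1 := 0) (W1 := 536870912) (P2 := 0) (W2 := 1230186008) (P3 := 33554432) (W3 := 16777216) (N0 := 3)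
    rfl rfl rfl k0_mm_203_a

noncomputable def f_mm_203_b : ℕ → ℕ → ℕ → ℕ → Bool := onCell 1239849684 370763052 0 1230186008 33554432 16777216
    (rowNK 3 0 false false false .up 2 0 3 (qsf 1239849684 370763052 0 1230186008 0) ndN1q2b ndN4q3 pcN0 Cut.none Ext.none)

def k0_mm_203_b : ∃ t, chk3 f_mm_203_b t 1 1 1 = true :=
  ⟨(b (l 3) (b (l 3) (a (l 3) (l 3)))), by decide +kernel⟩

theorem c_mm_203_b : CertN 1239849684 370763052 0 1230186008 33554432 16777216 3 false false false .up 2 0 3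
    ndN1q2b ndN4q3 pcN0 Cut.none Ext.none :=
  certNK0 (fam := false) (s1 := false) (s2 := false) (a := 2) (b := 0) (c := 3) (cn := .up) (n1 := ndN1q2b) (n2 := ndN4q3) (pc := pcN0) (cut := Cut.none) (xt := Ext.none) (P1 := 1239849684) (W1 := 370763052) (P2 := 0) (W2 := 1230186008) (P3 := 33554432) (W3 := 16777216) (N0 := 3)
    rfl rfl rfl k0_mm_203_b

noncomputable def f_mm_213_a : ℕ → ℕ → ℕ → ℕ → Bool := onCell 0 536870912 0 1230186008 33554432 16777216
    (rowNK 3 0 false false false .pnn 2 1 3 (qsf 0 536870912 0 1230186008 1) ndN1q2a ndN4q3 pcN1 Cut.none Ext.none)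

def k0_mm_213_a : ∃ t, chk3 f_mm_213_a t 1 1 1 = true :=
  ⟨(b (a (l 3) (l 5)) (b (l 3) (l 3))), by decide +kernel⟩

theorem c_mm_213_a : CertN 0 536870912 0 1230186008 33554432 16777216 3 false false false .pnn 2 1 3
    ndN1q2a ndN4q3 pcN1 Cut.none Ext.none :=
  certNK0 (fam := false) (s1 := false) (s2 := false) (a := 2) (b := 1) (c := 3) (cn := .pnn) (n1 := ndN1q2a) (n2 := ndN4q3) (pc := pcN1) (cut := Cut.none) (xt := Ext.none) (P1 := 0) (W1 := 536870912) (P2 := 0) (W2 := 1230186008) (P3 := 33554432) (W3 := 16777216) (N0 := 3)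
    rfl rfl rfl k0_mm_213_a

noncomputable def f_mm_213_b : ℕ → ℕ → ℕ → ℕ → Bool := onCell 1239849684 370763052 0 1230186008 33554432 16777216
    (rowNK 3 0 false false false .pnn 2 1 3 (qsf 1239849684 370763052 0 1230186008 1) ndN1q2b ndN4q3 pcN1 Cut.none Ext.none)

def k0_mm_213_b : ∃ t, chk3 f_mm_213_b t 1 1 1 = true :=
  ⟨(b (l 3) (b (l 3) (a (l 3) (l 1)))), by decide +kernel⟩

theorem c_mm_213_b : CertN 1239849684 370763052 0 1230186008 33554432 16777216 3 false false false .pnn 2 1 3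
    ndN1q2b ndN4q3 pcN1 Cut.none Ext.none :=
  certNK0 (fam := false) (s1 := false) (s2 := false) (a := 2) (b := 1) (c := 3) (cn := .pnn) (n1 := ndN1q2b) (n2 := ndN4q3) (pc := pcN1) (cut := Cut.none) (xt := Ext.none) (P1 := 1239849684) (W1 := 370763052) (P2 := 0) (W2 := 1230186008) (P3 := 33554432) (W3 := 16777216) (N0 := 3)
    rfl rfl rfl k0_mm_213_b

noncomputable def f_mm_303 : ℕ → ℕ → ℕ → ℕ → Bool := onCell 0 536870912 0 1230186008 33554432 16777216
    (rowNK 3 2 false false false .npn 3 0 3 (qsf 1610612736 536870912 0 1230186008 0) ndN1q3 ndN4q3 pcN0 Cut.none Ext.none)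

def k0_mm_303 : ∃ t, chk3 f_mm_303 t 1 1 1 = true :=
  ⟨(b (l 3) (b (l 3) (a (l 3) (l 1)))), by decide +kernel⟩

theorem c_mm_303 : CertN 1610612736 536870912 0 1230186008 33554432 16777216 3 false false false .npn 3 0 3
    ndN1q3 ndN4q3 pcN0 Cut.none Ext.none :=
  certNK2 (fam := false) (s1 := false) (s2 := false) (a := 3) (b := 0) (c := 3) (cn := .npn) (n1 := ndN1q3) (n2 := ndN4q3) (pc := pcN0) (cut := Cut.none) (xt := Ext.none) (P1 := 1610612736) (W1 := 536870912) (P2 := 0) (W2 := 1230186008) (P3 := 33554432) (W3 := 16777216) (N0 := 3)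
    rfl rfl rfl (fun _ => rfl) k0_mm_303

noncomputable def f_mm_313 : ℕ → ℕ → ℕ → ℕ → Bool := onCell 1610612736 536870912 0 1230186008 33554432 16777216
    (rowNK 3 0 false false false .dn 3 1 3 (qsf 1610612736 536870912 0 1230186008 1) ndN1q3 ndN4q3 pcN1 Cut.none Ext.none)

def k0_mm_313 : ∃ t, chk3 f_mm_313 t 1 1 1 = true :=
  ⟨(b (l 3) (l 1)), by decide +kernel⟩

theorem c_mm_313 : CertN 1610612736 536870912 0 1230186008 33554432 16777216 3 false false false .dn 3 1 3
    ndN1q3 ndN4q3 pcN1 Cut.none Ext.none :=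
  certNK0 (fam := false) (s1 := false) (s2 := false) (a := 3) (b := 1) (c := 3) (cn := .dn) (n1 := ndN1q3) (n2 := ndN4q3) (pc := pcN1) (cut := Cut.none) (xt := Ext.none) (P1 := 1610612736) (W1 := 536870912) (P2 := 0) (W2 := 1230186008) (P3 := 33554432) (W3 := 16777216) (N0 := 3)
    rfl rfl rfl k0_mm_313

end Pool.Agent.Strip051.G.I1_32_3_64.Tab.C.NB14

namespace Pool.Agent.Strip051.G.I1_32_3_64.Tab.C.NB20

open Pool.Agent.Strip051.PB Pool.Agent.Strip051.PB.T
open Pool.Agent.Strip051.G.I1_32_3_64.Tab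

noncomputable def f_pp_001 : ℕ → ℕ → ℕ → ℕ → Bool := onCell 0 536870912 536870912 536870912 33554432 16777216
    (rowNK 3 2 false true true .up 0 0 1 (qsf 0 536870912 536870912 536870912 0) ndN2q0 ndN0q1 pcN0 Cut.none Ext.none)

def k0_pp_001 : ∃ t, chk3 f_pp_001 t 1 1 1 = true :=
  ⟨(b (l 3) (b (l 3) (a (l 2) (b (l 3) (a (l 2) (l 180022892439)))))), by decide +kernel⟩

theorem c_pp_001 : CertN 0 536870912 536870912 536870912 33554432 16777216 3 false true true .up 0 0 1
    ndN2q0 ndN0q1 pcN0 Cut.none Ext.none :=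
  certNK2 (fam := false) (s1 := true) (s2 := true) (a := 0) (b := 0) (c := 1) (cn := .up) (n1 := ndN2q0) (n2 := ndN0q1) (pc := pcN0) (cut := Cut.none) (xt := Ext.none) (P1 := 0) (W1 := 536870912) (P2 := 536870912) (W2 := 536870912) (P3 := 33554432) (W3 := 16777216) (N0 := 3)
    rfl rfl rfl (fun _ => rfl) k0_pp_001

noncomputable def cut_pp_011 : Cut := Cut.of [[⟨0, 0, 0, 33554432⟩, ⟨1, 1, 0, 33554432⟩, ⟨2, 1, 0, 33554432⟩]]

noncomputable def f_pp_011 : ℕ → ℕ → ℕ → ℕ → Bool := onCell 0 536870912 536870912 536870912 33554432 16777216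
    (rowNK 3 0 false true true .pnn 0 1 1 (qsf 0 536870912 536870912 536870912 1) ndN2q0 ndN0q1 pcN1 cut_pp_011 Ext.none)

def k0_pp_011 : ∃ t, chk3 f_pp_011 t 1 1 1 = true :=
  ⟨(b (l 3) (b (l 3) (b (l 3) (b (a (l 3) (l 3)) (b (a (a (l 3) (l 3)) (l 3)) (a (a (a (a (b (l 3) (a (l 6) (l 16922280))) (l 124185450343)) (a (l 17128064) (l 17292088))) (a (l 17567016) (l 17805648))) (a (l 18219080) (l 18426320)))))))), by decide +kernel⟩

theorem c_pp_011 : CertN 0 536870912 536870912 536870912 33554432 16777216 3 false true true .pnn 0 1 1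
    ndN2q0 ndN0q1 pcN1 cut_pp_011 Ext.none :=
  certNK0 (fam := false) (s1 := true) (s2 := true) (a := 0) (b := 1) (c := 1) (cn := .pnn) (n1 := ndN2q0) (n2 := ndN0q1) (pc := pcN1) (cut := cut_pp_011) (xt := Ext.none) (P1 := 0) (W1 := 536870912) (P2 := 536870912) (W2 := 536870912) (P3 := 33554432) (W3 := 16777216) (N0 := 3)
    rfl rfl rfl k0_pp_011

noncomputable def cut_pp_012 : Cut := Cut.of [[⟨0, 0, 0, 33554432⟩, ⟨1, 1, 0, 33554432⟩, ⟨2, 1, 0, 33554432⟩]]

noncomputable def f_pp_012 : ℕ → ℕ → ℕ → ℕ → Bool := onCell 536870912 536870912 0 536870912 33554432 16777216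
    (rowNK 3 2 false true true .pnp 0 1 2 (qsf 0 536870912 0 536870912 1) ndN2q0 ndN0q2 pcN1 cut_pp_012 Ext.none)

def k0_pp_012 : ∃ t, chk3 f_pp_012 t 1 1 1 = true :=
  ⟨(a (b (a (l 17428608) (b (l 17723920) (l 17253728))) (a (b (a (l 2) (l 17247816)) (a (l 18099680) (l 17828120))) (b (a (l 17253592) (l 17272704)) (a (l 17745424) (l 17647888))))) (b (a (b (l 18120480) (l 17632224)) (a (l 18465336) (a (l 18961656) (a (l 19089272) (a (l 19205448) (l 19251424)))))) (a (b (a (l 17275920) (l 17216936)) (a (l 17707376) (b (l 17316160) (l 17449432)))) (b (a (l 17464976) (b (l 18273824) (l 17817920))) (a (b (l 17098832) (b (l 17123056) (l 17227016))) (b (a (l 17140928) (b (l 17584640) (l 17230728))) (b (a (l 16950888) (a (l 16898136) (b (l 16846520) (l 16833392)))) (a (l 16946512) (b (a (l 16868376) (a (l 16833368) (l 6))) (a (l 16861336) (l 6))))))))))), by decide +kernel⟩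

theorem c_pp_012 : CertN 0 536870912 0 536870912 33554432 16777216 3 false true true .pnp 0 1 2
    ndN2q0 ndN0q2 pcN1 cut_pp_012 Ext.none :=
  certNK2 (fam := false) (s1 := true) (s2 := true) (a := 0) (b := 1) (c := 2) (cn := .pnp) (n1 := ndN2q0) (n2 := ndN0q2) (pc := pcN1) (cut := cut_pp_012) (xt := Ext.none) (P1 := 0) (W1 := 536870912) (P2 := 0) (W2 := 536870912) (P3 := 33554432) (W3 := 16777216) (N0 := 3)
    rfl rfl rfl (fun _ => rfl) k0_pp_012

noncomputable def cut_pp_022 : Cut := Cut.of [[⟨0, 0, 0, 33554432⟩, ⟨1, 1, 0, 33554432⟩, ⟨2, 1, 0, 33554432⟩]]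

noncomputable def f_pp_022 : ℕ → ℕ → ℕ → ℕ → Bool := onCell 0 536870912 0 536870912 33554432 16777216
    (rowNK 3 0 false true true .pp 0 2 2 (qsf 0 536870912 0 536870912 2) ndN2q0 ndN0q2 pcN2 cut_pp_022 Ext.none)

def k0_pp_022 : ∃ t, chk3 f_pp_022 t 1 1 1 = true :=
  ⟨(a (b (a (b (l 19725760) (a (l 19371072) (b (l 19444992) (a (l 19244624) (b (l 19262824) (a (l 19127728) (a (l 19097528) (l 19080232)))))))) (b (l 19838584) (a (b (a (b (l 19482144) (b (l 19390272) (l 19331008))) (l 1)) (l 19156936)) (l 1)))) (a (b (b (a (l 19077760) (a (l 18910368) (b (a (b (l 18988072) (a (l 18893000) (l 18860840))) (l 18894568)) (l 18686176)))) (a (a (a (l 18797656) (l 18699056)) (l 18540808)) (a (b (a (l 18555768) (b (a (l 18563328) (l 18515712)) (l 18377136))) (a (a (l 18206744) (l 18154808)) (l 18123240))) (l 18272776)))) (a (b (a (a (b (a (b (l 18367976) (l 18027824)) (l 18163608)) (a (a (a (b (c (l 17990864) (l 17217792)) (b (c (l 17604168) (l 16887536)) (l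 16848608))) (l 17135840)) (l 17370184)) (l 17335304))) (b (l 18065656) (l 17263976))) (b (a (l 17931608) (b (l 17940376) (a (l 17670488) (l 17615480)))) (a (b (l 17393848) (a (b (l 17068224) (l 16791544)) (l 16905176))) (l 17115256)))) (b (a (a (a (a (b (b (l 16729200) (l 16738952)) (l 6)) (l 16761920)) (l 16774136)) (a (b (l 16751600) (l 6)) (l 16747112))) (a (b (l 16776760) (l 1)) (l 1))) (a (a (l 6) (a (l 6) (l 1))) (l 1)))) (b (a (b (l 17725440) (l 1)) (l 1)) (l 1)))) (b (l 1) (l 1)))) (l 1)), by decide +kernel⟩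

theorem c_pp_022 : CertN 0 536870912 0 536870912 33554432 16777216 3 false true true .pp 0 2 2
    ndN2q0 ndN0q2 pcN2 cut_pp_022 Ext.none :=
  certNK0 (fam := false) (s1 := true) (s2 := true) (a := 0) (b := 2) (c := 2) (cn := .pp) (n1 := ndN2q0) (n2 := ndN0q2) (pc := pcN2) (cut := cut_pp_022) (xt := Ext.none) (P1 := 0) (W1 := 536870912) (P2 := 0) (W2 := 536870912) (P3 := 33554432) (W3 := 16777216) (N0 := 3)
    rfl rfl rfl k0_pp_022

noncomputable def cut_pp_101 : Cut := Cut.of [[⟨0, 1, 0, 33554432⟩, ⟨1, 0, 0, 33554432⟩, ⟨2, 1, 0, 33554432⟩], [⟨0, 1, 2, 25165824⟩, ⟨1, 0, 1, 25165824⟩, ⟨2, 1, 0, 7864320⟩, ⟨0, 0, 0, 1056964608⟩, ⟨0, 1, 0, 67108864⟩, ⟨1, 0, 0, 67108864⟩, ⟨1, 1, 0, 1056964608⟩]]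

noncomputable def f_pp_101 : ℕ → ℕ → ℕ → ℕ → Bool := onCell 0 536870912 536870912 536870912 33554432 16777216
    (rowNK 3 2 false true true .npn 1 0 1 (qsf 536870912 536870912 536870912 536870912 0) ndN2q1 ndN0q1 pcN0 cut_pp_101 Ext.none)

def k0_pp_101 : ∃ t, chk3 f_pp_101 t 1 1 1 = true :=
  ⟨(b (l 3) (b (l 3) (b (l 3) (b (l 3) (b (a (l 3) (l 3)) (a (a (b (l 3) (b (l 3) (b (l 3) (a (b (l 3) (b (l 3) (a (a (l 6) (a (l 6) (a (l 6) (l 14)))) (a (l 14) (c (a (l 134386692327) (l 17562032)) (a (l 14) (l 133312734023))))))) (a (a (l 144050785367) (l 17812520)) (l 18004120)))))) (a (l 177337831687) (l 173580201703))) (a (l 184855751975) (l 18723408)))))))), by decide +kernel⟩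

theorem c_pp_101 : CertN 536870912 536870912 536870912 536870912 33554432 16777216 3 false true true .npn 1 0 1
    ndN2q1 ndN0q1 pcN0 cut_pp_101 Ext.none :=
  certNK2 (fam := false) (s1 := true) (s2 := true) (a := 1) (b := 0) (c := 1) (cn := .npn) (n1 := ndN2q1) (n2 := ndN0q1) (pc := pcN0) (cut := cut_pp_101) (xt := Ext.none) (P1 := 536870912) (W1 := 536870912) (P2 := 536870912) (W2 := 536870912) (P3 := 33554432) (W3 := 16777216) (N0 := 3)
    rfl rfl rfl (fun _ => rfl) k0_pp_101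

noncomputable def cut_pp_102 : Cut := Cut.of [[⟨0, 1, 0, 33554432⟩, ⟨1, 0, 0, 33554432⟩, ⟨2, 1, 0, 33554432⟩], [⟨0, 1, 2, 25165824⟩, ⟨1, 0, 1, 25165824⟩, ⟨2, 1, 0, 7864320⟩, ⟨0, 0, 0, 1056964608⟩, ⟨0, 1, 0, 67108864⟩, ⟨1, 0, 0, 67108864⟩, ⟨1, 1, 0, 1056964608⟩]]

noncomputable def f_pp_102 : ℕ → ℕ → ℕ → ℕ → Bool := onCell 536870912 536870912 0 536870912 33554432 16777216
    (rowNK 3 0 false true true .npp 1 0 2 (qsf 536870912 536870912 0 536870912 0) ndN2q1 ndN0q2 pcN0 cut_pp_102 Ext.none)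

def k0_pp_102 : ∃ t, chk3 f_pp_102 t 1 1 1 = true :=
  ⟨(a (b (a (b (l 2) (l 17905120)) (a (b (b (l 18182512) (l 18159592)) (l 18150408)) (a (b (l 18398000) (l 18303576)) (b (l 18566880) (l 18421120))))) (a (b (b (l 18020504) (l 18229608)) (b (l 18518136) (b (l 18621632) (l 18776976)))) (b (b (l 18311408) (l 18432240)) (b (l 18649800) (b (l 18707560) (l 18835104)))))) (b (a (b (a (l 18841864) (l 19221960)) (a (l 18660808) (l 19010704))) (b (a (b (c (l 19731592) (l 19326632)) (l 19407440)) (a (c (l 19876344) (l 19590192)) (a (c (l 19961672) (l 19734928)) (a (c (l 20063704) (l 19808344)) (c (l 20123664) (l 19857608)))))) (a (l 19619824) (a (l 19707768) (a (l 19867440) (a (l 19941448) (l 19986488))))))) (a (a (b (l 18697480) (b (l 18687680) (b (l 18650504) (l 18577592)))) (b (l 18942264) (b (l 18786552) (b (l 18607944) (b (l 18464336) (l 18344328)))))) (a (b (b (l 19354216) (l 19249712)) (b (b (l 19069096) (l 18866456)) (b (a (l 18591032) (l 18551840))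 (b (a (l 18349664) (l 18205896)) (a (l 18147952) (b (l 17993512) (a (l 17914952) (b (l 17781888) (l 17481576))))))))) (a (b (b (l 19739376) (l 19584096)) (b (l 19097832) (a (b (l 18446144) (b (l 17962136) (b (l 17666400) (b (l 17505584) (b (l 17254824) (c (a (l 17594872) (l 17249240)) (a (l 17154904) (l 14)))))))) (b (l 18257384) (b (l 17589944) (b (l 17161296) (l 14))))))) (a (b (l 20109120) (b (l 19032136) (b (b (l 18068432) (l 17460424)) (b (b (l 16885792) (l 16749176)) (b (l 16778008) (a (a (l 14) (b (l 16762296) (l 6))) (l 6))))))) (a (b (l 20096312) (b (l 18863960) (b (l 16899608) (b (l 16756952) (l 6))))) (b (l 20023600) (b (l 18648008) (b (l 16883792) (l 6))))))))))), by decide +kernel⟩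

theorem c_pp_102 : CertN 536870912 536870912 0 536870912 33554432 16777216 3 false true true .npp 1 0 2
    ndN2q1 ndN0q2 pcN0 cut_pp_102 Ext.none :=
  certNK0 (fam := false) (s1 := true) (s2 := true) (a := 1) (b := 0) (c := 2) (cn := .npp) (n1 := ndN2q1) (n2 := ndN0q2) (pc := pcN0) (cut := cut_pp_102) (xt := Ext.none) (P1 := 536870912) (W1 := 536870912) (P2 := 0) (W2 := 536870912) (P3 := 33554432) (W3 := 16777216) (N0 := 3)
    rfl rfl rfl k0_pp_102

noncomputable def f_pp_112 : ℕ → ℕ → ℕ → ℕ → Bool := onCell 536870912 536870912 0 536870912 33554432 16777216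
    (rowNK 3 2 false true true .dn 1 1 2 (qsf 536870912 536870912 0 536870912 1) ndN2q1 ndN0q2 pcN1 Cut.none Ext.none)

def k0_pp_112 : ∃ t, chk3 f_pp_112 t 1 1 1 = true :=
  ⟨(a (b (a (l 19185864) (b (l 19085912) (l 18962864))) (a (b (l 19148848) (b (l 19043944) (l 18864304))) (b (l 1) (l 1)))) (l 1)), by decide +kernel⟩

theorem c_pp_112 : CertN 536870912 536870912 0 536870912 33554432 16777216 3 false true true .dn 1 1 2
    ndN2q1 ndN0q2 pcN1 Cut.none Ext.none :=
  certNK2 (fam := false) (s1 := true) (s2 := true) (a := 1) (b := 1) (c := 2) (cn := .dn) (n1 := ndN2q1) (n2 := ndN0q2) (pc := pcN1) (cut := Cut.none) (xt := Ext.none) (P1 := 536870912) (W1 := 536870912) (P2 := 0) (W2 := 536870912) (P3 := 33554432) (W3 := 16777216) (N0 := 3)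
    rfl rfl rfl (fun _ => rfl) k0_pp_112

noncomputable def f_pp_202_a : ℕ → ℕ → ℕ → ℕ → Bool := onCell 0 536870912 0 536870912 33554432 16777216
    (rowNK 3 0 false true true .pp 2 0 2 (qsf 0 536870912 0 536870912 0) ndN2q2a ndN0q2 pcN0 Cut.none Ext.none)

def k0_pp_202_a : ∃ t, chk3 f_pp_202_a t 1 1 1 = true :=
  ⟨(l 3), by decide +kernel⟩

theorem c_pp_202_a : CertN 0 536870912 0 536870912 33554432 16777216 3 false true true .pp 2 0 2
    ndN2q2a ndN0q2 pcN0 Cut.none Ext.none :=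
  certNK0 (fam := false) (s1 := true) (s2 := true) (a := 2) (b := 0) (c := 2) (cn := .pp) (n1 := ndN2q2a) (n2 := ndN0q2) (pc := pcN0) (cut := Cut.none) (xt := Ext.none) (P1 := 0) (W1 := 536870912) (P2 := 0) (W2 := 536870912) (P3 := 33554432) (W3 := 16777216) (N0 := 3)
    rfl rfl rfl k0_pp_202_a

noncomputable def f_pp_202_b : ℕ → ℕ → ℕ → ℕ → Bool := onCell 1239849684 370763052 0 536870912 33554432 16777216
    (rowNK 3 0 false true true .pp 2 0 2 (qsf 1239849684 370763052 0 536870912 0) ndN2q2b ndN0q2 pcN0 Cut.none Ext.none)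

def k0_pp_202_b : ∃ t, chk3 f_pp_202_b t 1 1 1 = true :=
  ⟨(l 3), by decide +kernel⟩

theorem c_pp_202_b : CertN 1239849684 370763052 0 536870912 33554432 16777216 3 false true true .pp 2 0 2
    ndN2q2b ndN0q2 pcN0 Cut.none Ext.none :=
  certNK0 (fam := false) (s1 := true) (s2 := true) (a := 2) (b := 0) (c := 2) (cn := .pp) (n1 := ndN2q2b) (n2 := ndN0q2) (pc := pcN0) (cut := Cut.none) (xt := Ext.none) (P1 := 1239849684) (W1 := 370763052) (P2 := 0) (W2 := 536870912) (P3 := 33554432) (W3 := 16777216) (N0 := 3)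
    rfl rfl rfl k0_pp_202_b

noncomputable def f_pm_001 : ℕ → ℕ → ℕ → ℕ → Bool := onCell 0 536870912 0 536870912 33554432 16777216
    (rowNK 3 1 false true false .up 0 0 1 (qsf 0 536870912 536870912 536870912 0) ndN2q0 ndN0q1 pcN0 Cut.none Ext.none)

def k0_pm_001 : ∃ t, chk3 f_pm_001 t 1 1 1 = true :=
  ⟨(a (l 4) (l 4)), by decide +kernel⟩

theorem c_pm_001 : CertN 0 536870912 536870912 536870912 33554432 16777216 3 false true false .up 0 0 1
    ndN2q0 ndN0q1 pcN0 Cut.none Ext.none :=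
  certNK1 (fam := false) (s1 := true) (s2 := false) (a := 0) (b := 0) (c := 1) (cn := .up) (n1 := ndN2q0) (n2 := ndN0q1) (pc := pcN0) (cut := Cut.none) (xt := Ext.none) (P1 := 0) (W1 := 536870912) (P2 := 536870912) (W2 := 536870912) (P3 := 33554432) (W3 := 16777216) (N0 := 3)
    rfl rfl rfl (fun _ => rfl) k0_pm_001

noncomputable def cut_pm_011 : Cut := Cut.of [[⟨0, 0, 0, 33554432⟩, ⟨1, 1, 0, 33554432⟩, ⟨2, 1, 0, 33554432⟩]]

noncomputable def f_pm_011 : ℕ → ℕ → ℕ → ℕ → Bool := onCell 0 536870912 536870912 536870912 33554432 16777216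
    (rowNK 3 0 false true false .pnn 0 1 1 (qsf 0 536870912 536870912 536870912 1) ndN2q0 ndN0q1 pcN1 cut_pm_011 Ext.none)

def k0_pm_011 : ∃ t, chk3 f_pm_011 t 1 1 1 = true :=
  ⟨(a (b (l 4) (a (b (l 4) (b (l 4) (a (a (b (l 4) (b (l 4) (a (a (l 6) (l 4)) (l 4)))) (l 4)) (l 4)))) (l 4))) (l 4)), by decide +kernel⟩

theorem c_pm_011 : CertN 0 536870912 536870912 536870912 33554432 16777216 3 false true false .pnn 0 1 1
    ndN2q0 ndN0q1 pcN1 cut_pm_011 Ext.none :=
  certNK0 (fam := false) (s1 := true) (s2 := false) (a := 0) (b := 1) (c := 1) (cn := .pnn) (n1 := ndN2q0) (n2 := ndN0q1) (pc := pcN1) (cut := cut_pm_011) (xt := Ext.none) (P1 := 0) (W1 := 536870912) (P2 := 536870912) (W2 := 536870912) (P3 := 33554432) (W3 := 16777216) (N0 := 3)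
    rfl rfl rfl k0_pm_011

noncomputable def cut_pm_012 : Cut := Cut.of [[⟨0, 0, 0, 33554432⟩, ⟨1, 1, 0, 33554432⟩, ⟨2, 1, 0, 33554432⟩]]

noncomputable def f_pm_012 : ℕ → ℕ → ℕ → ℕ → Bool := onCell 536870912 536870912 0 536870912 33554432 16777216
    (rowNK 3 2 false true false .pnp 0 1 2 (qsf 0 536870912 0 536870912 1) ndN2q0 ndN0q2 pcN1 cut_pm_012 Ext.none)

def k0_pm_012 : ∃ t, chk3 f_pm_012 t 1 1 1 = true :=
  ⟨(a (b (a (l 17671192) (l 18036168)) (b (a (l 17715784) (l 18167024)) (l 4))) (b (a (l 18576360) (a (l 19150936) (a (l 19533184) (a (l 19791064) (a (l 19925928) (l 19981672)))))) (a (b (l 18792112) (l 4)) (a (b (l 19327520) (b (l 4) (l 4))) (a (b (l 19678408) (b (l 19134016) (l 4))) (a (b (l 19857832) (b (l 19033872) (l 4))) (a (b (l 19932584) (b (l 18841528) (l 590793043255))) (b (l 19947456) (b (l 18564096) (b (l 16717608) (l 6))))))))))), by decide +kernel⟩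

theorem c_pm_012 : CertN 0 536870912 0 536870912 33554432 16777216 3 false true false .pnp 0 1 2
    ndN2q0 ndN0q2 pcN1 cut_pm_012 Ext.none :=
  certNK2 (fam := false) (s1 := true) (s2 := false) (a := 0) (b := 1) (c := 2) (cn := .pnp) (n1 := ndN2q0) (n2 := ndN0q2) (pc := pcN1) (cut := cut_pm_012) (xt := Ext.none) (P1 := 0) (W1 := 536870912) (P2 := 0) (W2 := 536870912) (P3 := 33554432) (W3 := 16777216) (N0 := 3)
    rfl rfl rfl (fun _ => rfl) k0_pm_012

noncomputable def cut_pm_022 : Cut := Cut.of [[⟨0, 0, 0, 33554432⟩, ⟨1, 1, 0, 33554432⟩, ⟨2, 1, 0, 33554432⟩]]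

noncomputable def f_pm_022 : ℕ → ℕ → ℕ → ℕ → Bool := onCell 0 536870912 0 536870912 33554432 16777216
    (rowNK 3 0 false true false .pp 0 2 2 (qsf 0 536870912 0 536870912 2) ndN2q0 ndN0q2 pcN2 cut_pm_022 Ext.none)

def k0_pm_022 : ∃ t, chk3 f_pm_022 t 1 1 1 = true :=
  ⟨(a (b (a (b (l 19831672) (a (l 19674952) (l 20069712))) (b (l 20240792) (l 20310808))) (a (b (a (a (b (l 19386424) (a (b (l 19066800) (l 18791624)) (l 19107632))) (b (l 19662328) (l 19365016))) (b (l 20048224) (a (l 19667584) (l 19844200)))) (a (a (b (a (a (b (b (l 18435296) (l 17883248)) (a (b (c (l 18020240) (b (l 17510488) (l 17107416))) (b (c (l 17545864) (l 16767432)) (l 16735616))) (l 17328840))) (b (l 18373688) (l 17460808))) (b (l 18496344) (l 17521328))) (b (b (a (a (a (a (b (l 16736872) (l 16746864)) (l 16735360)) (l 16729688)) (l 16718552)) (l 16697328)) (a (l 6) (l 16717104))) (a (l 6) (a (l 6) (l 1))))) (b (b (l 18745088) (a (l 17603888) (l 17647288))) (b (a (l 16693304)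 (l 1)) (l 1)))) (b (a (b (l 18944176) (l 1)) (l 1)) (l 1)))) (b (l 1) (l 1)))) (l 1)), by decide +kernel⟩

theorem c_pm_022 : CertN 0 536870912 0 536870912 33554432 16777216 3 false true false .pp 0 2 2
    ndN2q0 ndN0q2 pcN2 cut_pm_022 Ext.none :=
  certNK0 (fam := false) (s1 := true) (s2 := false) (a := 0) (b := 2) (c := 2) (cn := .pp) (n1 := ndN2q0) (n2 := ndN0q2) (pc := pcN2) (cut := cut_pm_022) (xt := Ext.none) (P1 := 0) (W1 := 536870912) (P2 := 0) (W2 := 536870912) (P3 := 33554432) (W3 := 16777216) (N0 := 3)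
    rfl rfl rfl k0_pm_022

noncomputable def f_pm_101 : ℕ → ℕ → ℕ → ℕ → Bool := onCell 536870912 536870912 536870912 536870912 33554432 16777216
    (rowNK 3 0 false true false .npn 1 0 1 (qsf 536870912 536870912 536870912 536870912 0) ndN2q1 ndN0q1 pcN0 Cut.none Ext.none)

def k0_pm_101 : ∃ t, chk3 f_pm_101 t 1 1 1 = true :=
  ⟨(l 4), by decide +kernel⟩

theorem c_pm_101 : CertN 536870912 536870912 536870912 536870912 33554432 16777216 3 false true false .npn 1 0 1
    ndN2q1 ndN0q1 pcN0 Cut.none Ext.none :=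
  certNK0 (fam := false) (s1 := true) (s2 := false) (a := 1) (b := 0) (c := 1) (cn := .npn) (n1 := ndN2q1) (n2 := ndN0q1) (pc := pcN0) (cut := Cut.none) (xt := Ext.none) (P1 := 536870912) (W1 := 536870912) (P2 := 536870912) (W2 := 536870912) (P3 := 33554432) (W3 := 16777216) (N0 := 3)
    rfl rfl rfl k0_pm_101

noncomputable def f_pm_102 : ℕ → ℕ → ℕ → ℕ → Bool := onCell 0 536870912 0 536870912 33554432 16777216
    (rowNK 3 2 false true false .npp 1 0 2 (qsf 536870912 536870912 0 536870912 0) ndN2q1 ndN0q2 pcN0 Cut.none Ext.none)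

def k0_pm_102 : ∃ t, chk3 f_pm_102 t 1 1 1 = true :=
  ⟨(a (b (a (b (l 2) (b (l 2) (l 19916544))) (a (b (a (l 19614368) (b (l 19525680) (l 19492200))) (a (b (a (l 19552360) (a (l 19513240) (l 19490000))) (a (b (l 19531936) (a (l 19534400) (l 19503312))) (l 19468320))) (l 19411808))) (b (l 19381808) (l 19302016)))) (l 4)) (b (a (b (b (c (l 19740096) (l 19026544)) (l 19168376)) (b (l 19127216) (l 19092400))) (b (a (c (l 19217304) (l 18665416)) (b (l 18593064) (l 18754128))) (b (l 18861144) (l 18866000)))) (a (l 4) (l 4)))), by decide +kernel⟩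

theorem c_pm_102 : CertN 536870912 536870912 0 536870912 33554432 16777216 3 false true false .npp 1 0 2
    ndN2q1 ndN0q2 pcN0 Cut.none Ext.none :=
  certNK2 (fam := false) (s1 := true) (s2 := false) (a := 1) (b := 0) (c := 2) (cn := .npp) (n1 := ndN2q1) (n2 := ndN0q2) (pc := pcN0) (cut := Cut.none) (xt := Ext.none) (P1 := 536870912) (W1 := 536870912) (P2 := 0) (W2 := 536870912) (P3 := 33554432) (W3 := 16777216) (N0 := 3)
    rfl rfl rfl (fun _ => rfl) k0_pm_102

noncomputable def f_pm_112 : ℕ → ℕ → ℕ → ℕ → Bool := onCell 536870912 536870912 0 536870912 33554432 16777216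
    (rowNK 3 2 false true false .dn 1 1 2 (qsf 536870912 536870912 0 536870912 1) ndN2q1 ndN0q2 pcN1 Cut.none Ext.none)

def k0_pm_112 : ∃ t, chk3 f_pm_112 t 1 1 1 = true :=
  ⟨(a (b (a (l 19246632) (l 19234688)) (b (l 173448820215) (l 4))) (l 1)), by decide +kernel⟩

theorem c_pm_112 : CertN 536870912 536870912 0 536870912 33554432 16777216 3 false true false .dn 1 1 2
    ndN2q1 ndN0q2 pcN1 Cut.none Ext.none :=
  certNK2 (fam := false) (s1 := true) (s2 := false) (a := 1) (b := 1) (c := 2) (cn := .dn) (n1 := ndN2q1) (n2 := ndN0q2) (pc := pcN1) (cut := Cut.none) (xt := Ext.none) (P1 := 536870912) (W1 := 536870912) (P2 := 0) (W2 := 536870912) (P3 := 33554432) (W3 := 16777216) (N0 := 3)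
    rfl rfl rfl (fun _ => rfl) k0_pm_112

noncomputable def cut_pm_202_a : Cut := Cut.of [[⟨0, 1, 0, 33554432⟩, ⟨1, 0, 0, 33554432⟩, ⟨2, 1, 0, 33554432⟩]]

noncomputable def f_pm_202_a : ℕ → ℕ → ℕ → ℕ → Bool := onCell 0 536870912 0 536870912 33554432 16777216
    (rowNK 3 0 false true false .pp 2 0 2 (qsf 0 536870912 0 536870912 0) ndN2q2a ndN0q2 pcN0 cut_pm_202_a Ext.none)

def k0_pm_202_a : ∃ t, chk3 f_pm_202_a t 1 1 1 = true :=
  ⟨(b (l 3) (b (l 3) (b (l 3) (b (l 3) (a (l 1) (a (l 1) (a (l 1) (a (b (l 3) (l 1)) (l 6))))))))), by decide +kernel⟩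

theorem c_pm_202_a : CertN 0 536870912 0 536870912 33554432 16777216 3 false true false .pp 2 0 2
    ndN2q2a ndN0q2 pcN0 cut_pm_202_a Ext.none :=
  certNK0 (fam := false) (s1 := true) (s2 := false) (a := 2) (b := 0) (c := 2) (cn := .pp) (n1 := ndN2q2a) (n2 := ndN0q2) (pc := pcN0) (cut := cut_pm_202_a) (xt := Ext.none) (P1 := 0) (W1 := 536870912) (P2 := 0) (W2 := 536870912) (P3 := 33554432) (W3 := 16777216) (N0 := 3)
    rfl rfl rfl k0_pm_202_a

noncomputable def cut_pm_202_b : Cut := Cut.of [[⟨0, 1, 0, 33554432⟩, ⟨1, 0, 0, 33554432⟩, ⟨2, 1, 0, 33554432⟩]]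

noncomputable def f_pm_202_b : ℕ → ℕ → ℕ → ℕ → Bool := onCell 1239849684 370763052 0 536870912 33554432 16777216
    (rowNK 3 0 false true false .pp 2 0 2 (qsf 1239849684 370763052 0 536870912 0) ndN2q2b ndN0q2 pcN0 cut_pm_202_b Ext.none)

def k0_pm_202_b : ∃ t, chk3 f_pm_202_b t 1 1 1 = true :=
  ⟨(b (l 3) (l 1)), by decide +kernel⟩

theorem c_pm_202_b : CertN 1239849684 370763052 0 536870912 33554432 16777216 3 false true false .pp 2 0 2
    ndN2q2b ndN0q2 pcN0 cut_pm_202_b Ext.none :=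
  certNK0 (fam := false) (s1 := true) (s2 := false) (a := 2) (b := 0) (c := 2) (cn := .pp) (n1 := ndN2q2b) (n2 := ndN0q2) (pc := pcN0) (cut := cut_pm_202_b) (xt := Ext.none) (P1 := 1239849684) (W1 := 370763052) (P2 := 0) (W2 := 536870912) (P3 := 33554432) (W3 := 16777216) (N0 := 3)
    rfl rfl rfl k0_pm_202_b

noncomputable def f_mm_001 : ℕ → ℕ → ℕ → ℕ → Bool := onCell 0 536870912 536870912 536870912 33554432 16777216
    (rowNK 3 0 false false false .up 0 0 1 (qsf 0 536870912 536870912 536870912 0) ndN2q0 ndN0q1 pcN0 Cut.none Ext.none)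

def k0_mm_001 : ∃ t, chk3 f_mm_001 t 1 1 1 = true :=
  ⟨(l 5), by decide +kernel⟩

theorem c_mm_001 : CertN 0 536870912 536870912 536870912 33554432 16777216 3 false false false .up 0 0 1
    ndN2q0 ndN0q1 pcN0 Cut.none Ext.none :=
  certNK0 (fam := false) (s1 := false) (s2 := false) (a := 0) (b := 0) (c := 1) (cn := .up) (n1 := ndN2q0) (n2 := ndN0q1) (pc := pcN0) (cut := Cut.none) (xt := Ext.none) (P1 := 0) (W1 := 536870912) (P2 := 536870912) (W2 := 536870912) (P3 := 33554432) (W3 := 16777216) (N0 := 3)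
    rfl rfl rfl k0_mm_001

noncomputable def f_mm_011 : ℕ → ℕ → ℕ → ℕ → Bool := onCell 0 536870912 536870912 536870912 33554432 16777216
    (rowNK 3 0 false false false .pnn 0 1 1 (qsf 0 536870912 536870912 536870912 1) ndN2q0 ndN0q1 pcN1 Cut.none Ext.none)

def k0_mm_011 : ∃ t, chk3 f_mm_011 t 1 1 1 = true :=
  ⟨(l 5), by decide +kernel⟩

theorem c_mm_011 : CertN 0 536870912 536870912 536870912 33554432 16777216 3 false false false .pnn 0 1 1
    ndN2q0 ndN0q1 pcN1 Cut.none Ext.none :=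
  certNK0 (fam := false) (s1 := false) (s2 := false) (a := 0) (b := 1) (c := 1) (cn := .pnn) (n1 := ndN2q0) (n2 := ndN0q1) (pc := pcN1) (cut := Cut.none) (xt := Ext.none) (P1 := 0) (W1 := 536870912) (P2 := 536870912) (W2 := 536870912) (P3 := 33554432) (W3 := 16777216) (N0 := 3)
    rfl rfl rfl k0_mm_011

noncomputable def f_mm_012 : ℕ → ℕ → ℕ → ℕ → Bool := onCell 0 536870912 0 536870912 33554432 16777216
    (rowNK 3 0 false false false .pnp 0 1 2 (qsf 0 536870912 0 536870912 1) ndN2q0 ndN0q2 pcN1 Cut.none Ext.none)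

def k0_mm_012 : ∃ t, chk3 f_mm_012 t 1 1 1 = true :=
  ⟨(l 5), by decide +kernel⟩

theorem c_mm_012 : CertN 0 536870912 0 536870912 33554432 16777216 3 false false false .pnp 0 1 2
    ndN2q0 ndN0q2 pcN1 Cut.none Ext.none :=
  certNK0 (fam := false) (s1 := false) (s2 := false) (a := 0) (b := 1) (c := 2) (cn := .pnp) (n1 := ndN2q0) (n2 := ndN0q2) (pc := pcN1) (cut := Cut.none) (xt := Ext.none) (P1 := 0) (W1 := 536870912) (P2 := 0) (W2 := 536870912) (P3 := 33554432) (W3 := 16777216) (N0 := 3)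
    rfl rfl rfl k0_mm_012

noncomputable def f_mm_022 : ℕ → ℕ → ℕ → ℕ → Bool := onCell 0 536870912 0 536870912 33554432 16777216
    (rowNK 3 0 false false false .pp 0 2 2 (qsf 0 536870912 0 536870912 2) ndN2q0 ndN0q2 pcN2 Cut.none Ext.none)

def k0_mm_022 : ∃ t, chk3 f_mm_022 t 1 1 1 = true :=
  ⟨(l 5), by decide +kernel⟩

theorem c_mm_022 : CertN 0 536870912 0 536870912 33554432 16777216 3 false false false .pp 0 2 2
    ndN2q0 ndN0q2 pcN2 Cut.none Ext.none :=
  certNK0 (fam := false) (s1 := false) (s2 := false) (a := 0) (b := 2) (c := 2) (cn := .pp) (n1 := ndN2q0) (n2 := ndN0q2) (pc := pcN2) (cut := Cut.none) (xt := Ext.none) (P1 := 0) (W1 := 536870912) (P2 := 0) (W2 := 536870912) (P3 := 33554432) (W3 := 16777216) (N0 := 3)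
    rfl rfl rfl k0_mm_022

noncomputable def f_mm_101 : ℕ → ℕ → ℕ → ℕ → Bool := onCell 536870912 536870912 0 536870912 33554432 16777216
    (rowNK 3 1 false false false .npn 1 0 1 (qsf 536870912 536870912 536870912 536870912 0) ndN2q1 ndN0q1 pcN0 Cut.none Ext.none)

def k0_mm_101 : ∃ t, chk3 f_mm_101 t 1 1 1 = true :=
  ⟨(a (l 5) (l 5)), by decide +kernel⟩

theorem c_mm_101 : CertN 536870912 536870912 536870912 536870912 33554432 16777216 3 false false false .npn 1 0 1
    ndN2q1 ndN0q1 pcN0 Cut.none Ext.none :=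
  certNK1 (fam := false) (s1 := false) (s2 := false) (a := 1) (b := 0) (c := 1) (cn := .npn) (n1 := ndN2q1) (n2 := ndN0q1) (pc := pcN0) (cut := Cut.none) (xt := Ext.none) (P1 := 536870912) (W1 := 536870912) (P2 := 536870912) (W2 := 536870912) (P3 := 33554432) (W3 := 16777216) (N0 := 3)
    rfl rfl rfl (fun _ => rfl) k0_mm_101

noncomputable def f_mm_102 : ℕ → ℕ → ℕ → ℕ → Bool := onCell 536870912 536870912 0 536870912 33554432 16777216
    (rowNK 3 0 false false false .npp 1 0 2 (qsf 536870912 536870912 0 536870912 0) ndN2q1 ndN0q2 pcN0 Cut.none Ext.none)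

def k0_mm_102 : ∃ t, chk3 f_mm_102 t 1 1 1 = true :=
  ⟨(l 5), by decide +kernel⟩

theorem c_mm_102 : CertN 536870912 536870912 0 536870912 33554432 16777216 3 false false false .npp 1 0 2
    ndN2q1 ndN0q2 pcN0 Cut.none Ext.none :=
  certNK0 (fam := false) (s1 := false) (s2 := false) (a := 1) (b := 0) (c := 2) (cn := .npp) (n1 := ndN2q1) (n2 := ndN0q2) (pc := pcN0) (cut := Cut.none) (xt := Ext.none) (P1 := 536870912) (W1 := 536870912) (P2 := 0) (W2 := 536870912) (P3 := 33554432) (W3 := 16777216) (N0 := 3)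
    rfl rfl rfl k0_mm_102

noncomputable def f_mm_112 : ℕ → ℕ → ℕ → ℕ → Bool := onCell 536870912 536870912 0 536870912 33554432 16777216
    (rowNK 3 0 false false false .dn 1 1 2 (qsf 536870912 536870912 0 536870912 1) ndN2q1 ndN0q2 pcN1 Cut.none Ext.none)

def k0_mm_112 : ∃ t, chk3 f_mm_112 t 1 1 1 = true :=
  ⟨(l 5), by decide +kernel⟩

theorem c_mm_112 : CertN 536870912 536870912 0 536870912 33554432 16777216 3 false false false .dn 1 1 2
    ndN2q1 ndN0q2 pcN1 Cut.none Ext.none :=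
  certNK0 (fam := false) (s1 := false) (s2 := false) (a := 1) (b := 1) (c := 2) (cn := .dn) (n1 := ndN2q1) (n2 := ndN0q2) (pc := pcN1) (cut := Cut.none) (xt := Ext.none) (P1 := 536870912) (W1 := 536870912) (P2 := 0) (W2 := 536870912) (P3 := 33554432) (W3 := 16777216) (N0 := 3)
    rfl rfl rfl k0_mm_112

noncomputable def f_mm_202_a : ℕ → ℕ → ℕ → ℕ → Bool := onCell 0 536870912 0 536870912 33554432 16777216
    (rowNK 3 0 false false false .pp 2 0 2 (qsf 0 536870912 0 536870912 0) ndN2q2a ndN0q2 pcN0 Cut.none Ext.none)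

def k0_mm_202_a : ∃ t, chk3 f_mm_202_a t 1 1 1 = true :=
  ⟨(l 3), by decide +kernel⟩

theorem c_mm_202_a : CertN 0 536870912 0 536870912 33554432 16777216 3 false false false .pp 2 0 2
    ndN2q2a ndN0q2 pcN0 Cut.none Ext.none :=
  certNK0 (fam := false) (s1 := false) (s2 := false) (a := 2) (b := 0) (c := 2) (cn := .pp) (n1 := ndN2q2a) (n2 := ndN0q2) (pc := pcN0) (cut := Cut.none) (xt := Ext.none) (P1 := 0) (W1 := 536870912) (P2 := 0) (W2 := 536870912) (P3 := 33554432) (W3 := 16777216) (N0 := 3)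
    rfl rfl rfl k0_mm_202_a

noncomputable def f_mm_202_b : ℕ → ℕ → ℕ → ℕ → Bool := onCell 1239849684 370763052 0 536870912 33554432 16777216
    (rowNK 3 0 false false false .pp 2 0 2 (qsf 1239849684 370763052 0 536870912 0) ndN2q2b ndN0q2 pcN0 Cut.none Ext.none)

def k0_mm_202_b : ∃ t, chk3 f_mm_202_b t 1 1 1 = true :=
  ⟨(l 3), by decide +kernel⟩

theorem c_mm_202_b : CertN 1239849684 370763052 0 536870912 33554432 16777216 3 false false false .pp 2 0 2
    ndN2q2b ndN0q2 pcN0 Cut.none Ext.none :=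
  certNK0 (fam := false) (s1 := false) (s2 := false) (a := 2) (b := 0) (c := 2) (cn := .pp) (n1 := ndN2q2b) (n2 := ndN0q2) (pc := pcN0) (cut := Cut.none) (xt := Ext.none) (P1 := 1239849684) (W1 := 370763052) (P2 := 0) (W2 := 536870912) (P3 := 33554432) (W3 := 16777216) (N0 := 3)
    rfl rfl rfl k0_mm_202_b

end Pool.Agent.Strip051.G.I1_32_3_64.Tab.C.NB20

namespace Pool.Agent.Strip051.G.I1_32_3_64.Tab.C.NB21

open Pool.Agent.Strip051.PB Pool.Agent.Strip051.PB.T
open Pool.Agent.Strip051.G.I1_32_3_64.Tab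

noncomputable def f_pp_001 : ℕ → ℕ → ℕ → ℕ → Bool := onCell 0 536870912 536870912 536870912 33554432 16777216
    (rowNK 3 0 false true true .up 0 0 1 (qsf 0 536870912 536870912 536870912 0) ndN2q0 ndN1q1 pcN0 Cut.none Ext.none)

def k0_pp_001 : ∃ t, chk3 f_pp_001 t 1 1 1 = true :=
  ⟨(l 3), by decide +kernel⟩

theorem c_pp_001 : CertN 0 536870912 536870912 536870912 33554432 16777216 3 false true true .up 0 0 1
    ndN2q0 ndN1q1 pcN0 Cut.none Ext.none :=
  certNK0 (fam := false) (s1 := true) (s2 := true) (a := 0) (b := 0) (c := 1) (cn := .up) (n1 := ndN2q0) (n2 := ndN1q1) (pc := pcN0) (cut := Cut.none) (xt := Ext.none) (P1 := 0) (W1 := 536870912) (P2 := 536870912) (W2 := 536870912) (P3 := 33554432) (W3 := 16777216) (N0 := 3)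
    rfl rfl rfl k0_pp_001

noncomputable def f_pp_011 : ℕ → ℕ → ℕ → ℕ → Bool := onCell 0 536870912 536870912 536870912 33554432 16777216
    (rowNK 3 0 false true true .pnn 0 1 1 (qsf 0 536870912 536870912 536870912 1) ndN2q0 ndN1q1 pcN1 Cut.none Ext.none)

def k0_pp_011 : ∃ t, chk3 f_pp_011 t 1 1 1 = true :=
  ⟨(l 3), by decide +kernel⟩

theorem c_pp_011 : CertN 0 536870912 536870912 536870912 33554432 16777216 3 false true true .pnn 0 1 1
    ndN2q0 ndN1q1 pcN1 Cut.none Ext.none :=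
  certNK0 (fam := false) (s1 := true) (s2 := true) (a := 0) (b := 1) (c := 1) (cn := .pnn) (n1 := ndN2q0) (n2 := ndN1q1) (pc := pcN1) (cut := Cut.none) (xt := Ext.none) (P1 := 0) (W1 := 536870912) (P2 := 536870912) (W2 := 536870912) (P3 := 33554432) (W3 := 16777216) (N0 := 3)
    rfl rfl rfl k0_pp_011

noncomputable def cut_pp_012_a : Cut := Cut.of [[⟨0, 0, 0, 33554432⟩, ⟨1, 1, 0, 33554432⟩, ⟨2, 1, 0, 33554432⟩]]

noncomputable def f_pp_012_a : ℕ → ℕ → ℕ → ℕ → Bool := onCell 536870912 536870912 0 536870912 33554432 16777216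
    (rowNK 3 2 false true true .pnp 0 1 2 (qsf 0 536870912 0 536870912 1) ndN2q0 ndN1q2a pcN1 cut_pp_012_a Ext.none)

def k0_pp_012_a : ∃ t, chk3 f_pp_012_a t 1 1 1 = true :=
  ⟨(a (a (b (b (l 2) (l 17235808)) (a (b (l 2) (l 18078504)) (l 17954752))) (b (l 17241144) (a (b (l 17462648) (l 17775776)) (l 17785416)))) (b (a (a (l 17108728) (l 17325376)) (a (l 17774360) (b (l 18550632) (l 18270904)))) (a (a (b (l 17379904) (l 17630640)) (b (l 17228960) (l 17567344))) (a (b (l 17147832) (b (l 17095800) (a (l 17206032) (l 17062072)))) (b (b (l 17960824) (l 17633752)) (b (a (l 17050472) (b (l 17510256) (l 17194712))) (b (a (l 16943232) (a (l 16880760) (b (l 16829024) (l 16821896)))) (a (l 16944848) (a (b (l 16863568) (l 16859904)) (b (a (l 16827480) (l 6)) (l 6))))))))))), by decide +kernel⟩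

theorem c_pp_012_a : CertN 0 536870912 0 536870912 33554432 16777216 3 false true true .pnp 0 1 2
    ndN2q0 ndN1q2a pcN1 cut_pp_012_a Ext.none :=
  certNK2 (fam := false) (s1 := true) (s2 := true) (a := 0) (b := 1) (c := 2) (cn := .pnp) (n1 := ndN2q0) (n2 := ndN1q2a) (pc := pcN1) (cut := cut_pp_012_a) (xt := Ext.none) (P1 := 0) (W1 := 536870912) (P2 := 0) (W2 := 536870912) (P3 := 33554432) (W3 := 16777216) (N0 := 3)
    rfl rfl rfl (fun _ => rfl) k0_pp_012_a

noncomputable def cut_pp_012_b : Cut := Cut.of [[⟨0, 0, 0, 33554432⟩, ⟨1, 1, 0, 33554432⟩, ⟨2, 1, 0, 33554432⟩]]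

noncomputable def f_pp_012_b : ℕ → ℕ → ℕ → ℕ → Bool := onCell 536870912 536870912 1239849684 370763052 33554432 16777216
    (rowNK 3 2 false true true .pnp 0 1 2 (qsf 0 536870912 1239849684 370763052 1) ndN2q0 ndN1q2b pcN1 cut_pp_012_b Ext.none)

def k0_pp_012_b : ∃ t, chk3 f_pp_012_b t 1 1 1 = true :=
  ⟨(a (a (l 2) (b (l 17514056) (l 2))) (a (b (l 17962960) (l 18543696)) (a (b (l 18526672) (l 19067768)) (a (l 19350280) (a (l 19402096) (a (l 19524560) (l 19605576))))))), by decide +kernel⟩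

theorem c_pp_012_b : CertN 0 536870912 1239849684 370763052 33554432 16777216 3 false true true .pnp 0 1 2
    ndN2q0 ndN1q2b pcN1 cut_pp_012_b Ext.none :=
  certNK2 (fam := false) (s1 := true) (s2 := true) (a := 0) (b := 1) (c := 2) (cn := .pnp) (n1 := ndN2q0) (n2 := ndN1q2b) (pc := pcN1) (cut := cut_pp_012_b) (xt := Ext.none) (P1 := 0) (W1 := 536870912) (P2 := 1239849684) (W2 := 370763052) (P3 := 33554432) (W3 := 16777216) (N0 := 3)
    rfl rfl rfl (fun _ => rfl) k0_pp_012_b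

noncomputable def cut_pp_022_a : Cut := Cut.of [[⟨0, 0, 0, 33554432⟩, ⟨1, 1, 0, 33554432⟩, ⟨2, 1, 0, 33554432⟩]]

noncomputable def f_pp_022_a : ℕ → ℕ → ℕ → ℕ → Bool := onCell 0 536870912 0 536870912 33554432 16777216
    (rowNK 3 0 false true true .pp 0 2 2 (qsf 0 536870912 0 536870912 2) ndN2q0 ndN1q2a pcN2 cut_pp_022_a Ext.none)

def k0_pp_022_a : ∃ t, chk3 f_pp_022_a t 1 1 1 = true :=
  ⟨(a (b (a (b (l 19404288) (a (l 19325384) (a (l 19130872) (b (l 19096944) (b (l 18939992) (a (l 18845032) (a (l 18776480) (l 18740768)))))))) (a (a (b (a (l 19216552) (b (l 19229112) (l 19119648))) (b (a (a (l 19012960) (l 18984152)) (l 18977344)) (l 18804384))) (l 19055768)) (l 1))) (a (b (a (a (b (l 19129112) (a (l 18789056) (l 18663480))) (l 18720976)) (b (a (l 18728384) (b (a (b (l 18721192) (a (l 18650816) (l 18597176))) (l 18614136)) (l 18477128))) (a (b (a (l 18428400) (b (a (l 18405576) (l 18343536)) (l 18236064))) (a (a (l 18114376) (l 18055824)) (l 18027560)))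 (l 18172200)))) (b (a (a (a (a (b (b (l 18357928) (l 17975640)) (a (a (b (c (l 17984608) (l 17123776)) (b (c (l 17597968) (l 16878488)) (l 16799608))) (l 17148696)) (l 17361792))) (b (l 18146712) (l 17326416))) (b (l 18039312) (l 17254400))) (b (a (l 17893176) (b (l 17882800) (a (l 17630936) (l 17573752)))) (a (b (l 17375072) (a (b (l 17062464) (l 16795824)) (l 16906728))) (l 17110664)))) (a (b (l 17683232) (l 1)) (l 1))) (a (a (b (a (a (a (b (a (a (l 16729960) (l 16725752)) (l 16727312)) (l 6)) (l 16758224)) (l 16765360)) (a (b (l 16746936) (l 6)) (l 16744072))) (a (l 6) (a (l 6) (l 1)))) (a (a (l 127272022487) (l 141230673495)) (l 1))) (l 1)))) (b (l 1) (l 1)))) (l 1)), by decide +kernel⟩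

theorem c_pp_022_a : CertN 0 536870912 0 536870912 33554432 16777216 3 false true true .pp 0 2 2
    ndN2q0 ndN1q2a pcN2 cut_pp_022_a Ext.none :=
  certNK0 (fam := false) (s1 := true) (s2 := true) (a := 0) (b := 2) (c := 2) (cn := .pp) (n1 := ndN2q0) (n2 := ndN1q2a) (pc := pcN2) (cut := cut_pp_022_a) (xt := Ext.none) (P1 := 0) (W1 := 536870912) (P2 := 0) (W2 := 536870912) (P3 := 33554432) (W3 := 16777216) (N0 := 3)
    rfl rfl rfl k0_pp_022_a

noncomputable def cut_pp_022_b : Cut := Cut.of [[⟨0, 0, 0, 33554432⟩, ⟨1, 1, 0, 33554432⟩, ⟨2, 1, 0, 33554432⟩]]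

noncomputable def f_pp_022_b : ℕ → ℕ → ℕ → ℕ → Bool := onCell 0 536870912 1073741824 536870912 33554432 16777216
    (rowNK 3 1 false true true .pp 0 2 2 (qsf 0 536870912 1239849684 370763052 2) ndN2q0 ndN1q2b pcN2 cut_pp_022_b Ext.none)

def k0_pp_022_b : ∃ t, chk3 f_pp_022_b t 1 1 1 = true :=
  ⟨(a (b (b (b (b (b (b (l 513824146391) (l 518656109383)) (l 525098716583)) (l 536373232535)) (a (l 578248774567) (l 19826688))) (a (l 289413168743) (l 19913912))) (b (a (l 19782264) (l 19786776)) (l 19572360))) (b (b (l 20031864) (l 19952960)) (b (l 19601536) (l 2)))), by decide +kernel⟩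

theorem c_pp_022_b : CertN 0 536870912 1239849684 370763052 33554432 16777216 3 false true true .pp 0 2 2
    ndN2q0 ndN1q2b pcN2 cut_pp_022_b Ext.none :=
  certNK1 (fam := false) (s1 := true) (s2 := true) (a := 0) (b := 2) (c := 2) (cn := .pp) (n1 := ndN2q0) (n2 := ndN1q2b) (pc := pcN2) (cut := cut_pp_022_b) (xt := Ext.none) (P1 := 0) (W1 := 536870912) (P2 := 1239849684) (W2 := 370763052) (P3 := 33554432) (W3 := 16777216) (N0 := 3)
    rfl rfl rfl (fun _ => rfl) k0_pp_022_b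

noncomputable def f_pp_023 : ℕ → ℕ → ℕ → ℕ → Bool := onCell 0 536870912 1073741824 536870912 33554432 16777216
    (rowNK 3 1 false true true .up 0 2 3 (qsf 0 536870912 1610612736 536870912 2) ndN2q0 ndN1q3 pcN2 Cut.none Ext.none)

def k0_pp_023 : ∃ t, chk3 f_pp_023 t 1 1 1 = true :=
  ⟨(a (b (b (l 1) (l 582544374087)) (b (l 570733062327) (l 633546049671))) (b (l 508995264951) (b (l 19714872) (l 19071848)))), by decide +kernel⟩

theorem c_pp_023 : CertN 0 536870912 1610612736 536870912 33554432 16777216 3 false true true .up 0 2 3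
    ndN2q0 ndN1q3 pcN2 Cut.none Ext.none :=
  certNK1 (fam := false) (s1 := true) (s2 := true) (a := 0) (b := 2) (c := 3) (cn := .up) (n1 := ndN2q0) (n2 := ndN1q3) (pc := pcN2) (cut := Cut.none) (xt := Ext.none) (P1 := 0) (W1 := 536870912) (P2 := 1610612736) (W2 := 536870912) (P3 := 33554432) (W3 := 16777216) (N0 := 3)
    rfl rfl rfl (fun _ => rfl) k0_pp_023

noncomputable def f_pp_033 : ℕ → ℕ → ℕ → ℕ → Bool := onCell 0 536870912 1610612736 536870912 33554432 16777216
    (rowNK 3 1 false true true .pnn 0 3 3 (qsf 0 536870912 1610612736 536870912 3) ndN2q0 ndN1q3 pcN3 Cut.none Ext.none)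

def k0_pp_033 : ∃ t, chk3 f_pp_033 t 1 1 1 = true :=
  ⟨(a (b (b (b (l 18257896) (l 18094504)) (b (l 18068840) (l 18079632))) (a (b (l 4) (l 4)) (b (l 4) (a (b (l 4) (l 2)) (l 2))))) (b (b (a (l 18348328) (l 4)) (a (l 4) (a (b (l 4) (l 2)) (l 2)))) (a (b (a (b (l 4) (l 2)) (l 2)) (l 2)) (l 2)))), by decide +kernel⟩

theorem c_pp_033 : CertN 0 536870912 1610612736 536870912 33554432 16777216 3 false true true .pnn 0 3 3
    ndN2q0 ndN1q3 pcN3 Cut.none Ext.none :=
  certNK1 (fam := false) (s1 := true) (s2 := true) (a := 0) (b := 3) (c := 3) (cn := .pnn) (n1 := ndN2q0) (n2 := ndN1q3) (pc := pcN3) (cut := Cut.none) (xt := Ext.none) (P1 := 0) (W1 := 536870912) (P2 := 1610612736) (W2 := 536870912) (P3 := 33554432) (W3 := 16777216) (N0 := 3)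
    rfl rfl rfl (fun _ => rfl) k0_pp_033

noncomputable def f_pp_101 : ℕ → ℕ → ℕ → ℕ → Bool := onCell 536870912 536870912 536870912 536870912 33554432 16777216
    (rowNK 3 0 false true true .npn 1 0 1 (qsf 536870912 536870912 536870912 536870912 0) ndN2q1 ndN1q1 pcN0 Cut.none Ext.none)

def k0_pp_101 : ∃ t, chk3 f_pp_101 t 1 1 1 = true :=
  ⟨(l 3), by decide +kernel⟩

theorem c_pp_101 : CertN 536870912 536870912 536870912 536870912 33554432 16777216 3 false true true .npn 1 0 1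
    ndN2q1 ndN1q1 pcN0 Cut.none Ext.none :=
  certNK0 (fam := false) (s1 := true) (s2 := true) (a := 1) (b := 0) (c := 1) (cn := .npn) (n1 := ndN2q1) (n2 := ndN1q1) (pc := pcN0) (cut := Cut.none) (xt := Ext.none) (P1 := 536870912) (W1 := 536870912) (P2 := 536870912) (W2 := 536870912) (P3 := 33554432) (W3 := 16777216) (N0 := 3)
    rfl rfl rfl k0_pp_101

noncomputable def cut_pp_102_a : Cut := Cut.of [[⟨0, 1, 0, 33554432⟩, ⟨1, 0, 0, 33554432⟩, ⟨2, 1, 0, 33554432⟩], [⟨0, 1, 2, 25165824⟩, ⟨1, 0, 1, 25165824⟩, ⟨2, 1, 0, 16777216⟩, ⟨0, 0, 0, 1056964608⟩, ⟨0, 1, 0, 67108864⟩, ⟨1, 0, 0, 67108864⟩, ⟨1, 1, 0, 1056964608⟩]]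

noncomputable def f_pp_102_a : ℕ → ℕ → ℕ → ℕ → Bool := onCell 536870912 536870912 0 536870912 33554432 16777216
    (rowNK 3 0 false true true .npp 1 0 2 (qsf 536870912 536870912 0 536870912 0) ndN2q1 ndN1q2a pcN0 cut_pp_102_a Ext.none)

def k0_pp_102_a : ∃ t, chk3 f_pp_102_a t 1 1 1 = true :=
  ⟨(a (b (a (l 18553440) (b (l 18630648) (l 18706576))) (a (b (l 18548080) (a (l 18651912) (l 18908408))) (b (l 18859648) (b (l 18809776) (a (l 18836256) (l 18803456)))))) (b (a (b (l 19164176) (l 19177768)) (a (l 19872536) (a (l 20207672) (a (l 20485616) (a (l 20628056) (l 20715824)))))) (b (a (a (l 18997912) (l 19196936)) (a (b (l 19615840) (l 19413560)) (a (l 19858504) (a (l 20061848) (a (l 20152440) (l 20192392)))))) (b (a (a (l 18891576) (l 18942560)) (a (l 19232536) (a (l 19149816) (a (l 19059936) (a (l 18867696) (l 18602144)))))) (a (a (l 18858672) (b (l 18690496) (b (l 18506720) (l 18358864)))) (b (a (a (l 18650840) (l 18594712)) (a (a (l 18474432) (l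 18275888)) (a (b (l 18081912) (l 17424312)) (a (l 16715904) (l 16737960))))) (b (a (a (l 18380488) (l 18226960)) (a (a (l 17973408) (b (l 17722528) (l 17460080))) (a (b (l 16883480) (l 16742424)) (a (b (l 16719960) (l 6)) (l 6))))) (a (a (l 18158312) (b (l 18003672) (a (l 17918648) (b (l 17785664) (l 17503664))))) (a (b (a (l 17586400) (a (l 17340160) (l 14))) (a (b (a (l 17592504) (l 17405816)) (a (c (l 17623536) (b (l 17373904) (l 17154848))) (c (b (l 17479192) (l 17270320)) (l 14)))) (l 14))) (a (a (a (l 14) (b (l 16746088) (b (l 16757112) (l 6)))) (b (l 16758544) (l 6))) (l 6))))))))))), by decide +kernel⟩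

theorem c_pp_102_a : CertN 536870912 536870912 0 536870912 33554432 16777216 3 false true true .npp 1 0 2
    ndN2q1 ndN1q2a pcN0 cut_pp_102_a Ext.none :=
  certNK0 (fam := false) (s1 := true) (s2 := true) (a := 1) (b := 0) (c := 2) (cn := .npp) (n1 := ndN2q1) (n2 := ndN1q2a) (pc := pcN0) (cut := cut_pp_102_a) (xt := Ext.none) (P1 := 536870912) (W1 := 536870912) (P2 := 0) (W2 := 536870912) (P3 := 33554432) (W3 := 16777216) (N0 := 3)
    rfl rfl rfl k0_pp_102_a

noncomputable def cut_pp_102_b : Cut := Cut.of [[⟨0, 1, 0, 33554432⟩, ⟨1, 0, 0, 33554432⟩, ⟨2, 1, 0, 33554432⟩], [⟨0, 1, 2, 25165824⟩, ⟨1, 0, 1, 25165824⟩, ⟨2, 1, 0, 16777216⟩, ⟨0, 0, 0, 1056964608⟩, ⟨0, 1, 0, 67108864⟩, ⟨1, 0, 0, 67108864⟩, ⟨1, 1, 0, 1056964608⟩]]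

noncomputable def f_pp_102_b : ℕ → ℕ → ℕ → ℕ → Bool := onCell 536870912 536870912 1239849684 370763052 33554432 16777216
    (rowNK 3 0 false true true .npp 1 0 2 (qsf 536870912 536870912 1239849684 370763052 0) ndN2q1 ndN1q2b pcN0 cut_pp_102_b Ext.none)

def k0_pp_102_b : ∃ t, chk3 f_pp_102_b t 1 1 1 = true :=
  ⟨(a (l 18782936) (a (l 19583032) (a (b (b (l 19989176) (l 20219464)) (l 20242224)) (b (a (b (l 20451584) (l 20695544)) (a (b (l 20716768) (l 21000712)) (a (l 20980912) (l 21066296)))) (a (l 20658816) (a (l 20920240) (a (l 21058616) (l 21151760)))))))), by decide +kernel⟩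

theorem c_pp_102_b : CertN 536870912 536870912 1239849684 370763052 33554432 16777216 3 false true true .npp 1 0 2
    ndN2q1 ndN1q2b pcN0 cut_pp_102_b Ext.none :=
  certNK0 (fam := false) (s1 := true) (s2 := true) (a := 1) (b := 0) (c := 2) (cn := .npp) (n1 := ndN2q1) (n2 := ndN1q2b) (pc := pcN0) (cut := cut_pp_102_b) (xt := Ext.none) (P1 := 536870912) (W1 := 536870912) (P2 := 1239849684) (W2 := 370763052) (P3 := 33554432) (W3 := 16777216) (N0 := 3)
    rfl rfl rfl k0_pp_102_b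

noncomputable def f_pp_112_a : ℕ → ℕ → ℕ → ℕ → Bool := onCell 536870912 536870912 0 536870912 33554432 16777216
    (rowNK 3 2 false true true .dn 1 1 2 (qsf 536870912 536870912 0 536870912 1) ndN2q1 ndN1q2a pcN1 Cut.none Ext.none)

def k0_pp_112_a : ∃ t, chk3 f_pp_112_a t 1 1 1 = true :=
  ⟨(a (a (b (l 19259208) (b (l 19138520) (l 19104352))) (b (l 19064224) (l 549794126695))) (l 1)), by decide +kernel⟩

theorem c_pp_112_a : CertN 536870912 536870912 0 536870912 33554432 16777216 3 false true true .dn 1 1 2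
    ndN2q1 ndN1q2a pcN1 Cut.none Ext.none :=
  certNK2 (fam := false) (s1 := true) (s2 := true) (a := 1) (b := 1) (c := 2) (cn := .dn) (n1 := ndN2q1) (n2 := ndN1q2a) (pc := pcN1) (cut := Cut.none) (xt := Ext.none) (P1 := 536870912) (W1 := 536870912) (P2 := 0) (W2 := 536870912) (P3 := 33554432) (W3 := 16777216) (N0 := 3)
    rfl rfl rfl (fun _ => rfl) k0_pp_112_a

noncomputable def f_pp_112_b : ℕ → ℕ → ℕ → ℕ → Bool := onCell 536870912 536870912 536870912 536870912 33554432 16777216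
    (rowNK 3 1 false true true .dn 1 1 2 (qsf 536870912 536870912 1239849684 370763052 1) ndN2q1 ndN1q2b pcN1 Cut.none Ext.none)

def k0_pp_112_b : ∃ t, chk3 f_pp_112_b t 1 1 1 = true :=
  ⟨(a (b (b (l 19278168) (l 18956552)) (b (l 18632880) (b (l 18369712) (b (l 18228344) (b (l 18153560) (b (l 18114904) (l 18088712))))))) (b (a (l 18801944) (a (l 18580840) (a (l 18478720) (a (l 18451784) (a (l 18437632) (l 18426656)))))) (a (b (l 18219576) (l 2)) (l 2)))), by decide +kernel⟩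

theorem c_pp_112_b : CertN 536870912 536870912 1239849684 370763052 33554432 16777216 3 false true true .dn 1 1 2
    ndN2q1 ndN1q2b pcN1 Cut.none Ext.none :=
  certNK1 (fam := false) (s1 := true) (s2 := true) (a := 1) (b := 1) (c := 2) (cn := .dn) (n1 := ndN2q1) (n2 := ndN1q2b) (pc := pcN1) (cut := Cut.none) (xt := Ext.none) (P1 := 536870912) (W1 := 536870912) (P2 := 1239849684) (W2 := 370763052) (P3 := 33554432) (W3 := 16777216) (N0 := 3)
    rfl rfl rfl (fun _ => rfl) k0_pp_112_b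

noncomputable def f_pp_113 : ℕ → ℕ → ℕ → ℕ → Bool := onCell 536870912 536870912 536870912 536870912 33554432 16777216
    (rowNK 3 1 false true true .nn 1 1 3 (qsf 536870912 536870912 1610612736 536870912 1) ndN2q1 ndN1q3 pcN1 Cut.none Ext.none)

def k0_pp_113 : ∃ t, chk3 f_pp_113 t 1 1 1 = true :=
  ⟨(a (b (b (l 1) (l 18891848)) (b (l 18714968) (b (l 18559864) (b (l 18488456) (b (l 18458984) (b (l 18446064) (l 18436560))))))) (b (a (l 18925472) (a (l 18813736) (a (l 18728296) (a (l 18672616) (a (l 18642280) (l 18620840)))))) (a (b (l 18504744) (b (l 18227136) (b (l 18086824) (b (l 18022256) (b (l 17991376) (l 17969064)))))) (b (a (l 18273144) (a (l 18104560) (a (l 17992368) (a (l 17932840) (l 17891848))))) (a (b (l 17904632) (b (l 17710296) (b (l 17616616) (b (l 17570456) (l 17537448))))) (b (a (l 17674112) (a (l 17521592) (a (l 17440832) (l 17385528)))) (a (b (l 17441840) (b (l 17327064) (b (l 17269632) (l 17228776)))) (b (a (l 17264528) (a (l 17170464)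 (l 17106128))) (a (b (l 17135768) (b (l 17070816) (l 17024736))) (b (a (l 17034080) (l 16964544)) (a (b (l 16964968) (l 16916008)) (b (l 16892592) (l 16842184))))))))))))), by decide +kernel⟩

theorem c_pp_113 : CertN 536870912 536870912 1610612736 536870912 33554432 16777216 3 false true true .nn 1 1 3
    ndN2q1 ndN1q3 pcN1 Cut.none Ext.none :=
  certNK1 (fam := false) (s1 := true) (s2 := true) (a := 1) (b := 1) (c := 3) (cn := .nn) (n1 := ndN2q1) (n2 := ndN1q3) (pc := pcN1) (cut := Cut.none) (xt := Ext.none) (P1 := 536870912) (W1 := 536870912) (P2 := 1610612736) (W2 := 536870912) (P3 := 33554432) (W3 := 16777216) (N0 := 3)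
    rfl rfl rfl (fun _ => rfl) k0_pp_113

noncomputable def f_pp_123 : ℕ → ℕ → ℕ → ℕ → Bool := onCell 1073741824 536870912 1610612736 536870912 33554432 16777216
    (rowNK 3 2 false true true .npn 1 2 3 (qsf 536870912 536870912 1610612736 536870912 2) ndN2q1 ndN1q3 pcN2 Cut.none Ext.none)

def k0_pp_123 : ∃ t, chk3 f_pp_123 t 1 1 1 = true :=
  ⟨(a (b (a (l 18311736) (l 17806336)) (a (b (l 17869744) (b (l 17431752) (a (b (l 17210920) (a (b (l 17027680) (b (l 16910552) (a (b (l 16844696) (a (l 16799312) (l 4))) (l 4)))) (l 16943440))) (l 16982336)))) (l 17248072))) (b (a (l 17216448) (l 1)) (a (b (l 16948744) (l 4)) (l 637300925303)))), by decide +kernel⟩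

theorem c_pp_123 : CertN 536870912 536870912 1610612736 536870912 33554432 16777216 3 false true true .npn 1 2 3
    ndN2q1 ndN1q3 pcN2 Cut.none Ext.none :=
  certNK2 (fam := false) (s1 := true) (s2 := true) (a := 1) (b := 2) (c := 3) (cn := .npn) (n1 := ndN2q1) (n2 := ndN1q3) (pc := pcN2) (cut := Cut.none) (xt := Ext.none) (P1 := 536870912) (W1 := 536870912) (P2 := 1610612736) (W2 := 536870912) (P3 := 33554432) (W3 := 16777216) (N0 := 3)
    rfl rfl rfl (fun _ => rfl) k0_pp_123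

noncomputable def f_pp_133 : ℕ → ℕ → ℕ → ℕ → Bool := onCell 1610612736 536870912 1610612736 536870912 33554432 16777216
    (rowNK 3 2 false true true .dn 1 3 3 (qsf 536870912 536870912 1610612736 536870912 3) ndN2q1 ndN1q3 pcN3 Cut.none Ext.none)

def k0_pp_133 : ∃ t, chk3 f_pp_133 t 1 1 1 = true :=
  ⟨(a (b (l 1) (a (l 731254974407) (l 1))) (l 1)), by decide +kernel⟩

theorem c_pp_133 : CertN 536870912 536870912 1610612736 536870912 33554432 16777216 3 false true true .dn 1 3 3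
    ndN2q1 ndN1q3 pcN3 Cut.none Ext.none :=
  certNK2 (fam := false) (s1 := true) (s2 := true) (a := 1) (b := 3) (c := 3) (cn := .dn) (n1 := ndN2q1) (n2 := ndN1q3) (pc := pcN3) (cut := Cut.none) (xt := Ext.none) (P1 := 536870912) (W1 := 536870912) (P2 := 1610612736) (W2 := 536870912) (P3 := 33554432) (W3 := 16777216) (N0 := 3)
    rfl rfl rfl (fun _ => rfl) k0_pp_133

noncomputable def f_pp_202_aa : ℕ → ℕ → ℕ → ℕ → Bool := onCell 0 536870912 0 536870912 33554432 16777216
    (rowNK 3 0 false true true .pp 2 0 2 (qsf 0 536870912 0 536870912 0) ndN2q2a ndN1q2a pcN0 Cut.none Ext.none)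

def k0_pp_202_aa : ∃ t, chk3 f_pp_202_aa t 1 1 1 = true :=
  ⟨(l 3), by decide +kernel⟩

theorem c_pp_202_aa : CertN 0 536870912 0 536870912 33554432 16777216 3 false true true .pp 2 0 2
    ndN2q2a ndN1q2a pcN0 Cut.none Ext.none :=
  certNK0 (fam := false) (s1 := true) (s2 := true) (a := 2) (b := 0) (c := 2) (cn := .pp) (n1 := ndN2q2a) (n2 := ndN1q2a) (pc := pcN0) (cut := Cut.none) (xt := Ext.none) (P1 := 0) (W1 := 536870912) (P2 := 0) (W2 := 536870912) (P3 := 33554432) (W3 := 16777216) (N0 := 3)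
    rfl rfl rfl k0_pp_202_aa

noncomputable def f_pp_202_ab : ℕ → ℕ → ℕ → ℕ → Bool := onCell 0 536870912 1239849684 370763052 33554432 16777216
    (rowNK 3 0 false true true .pp 2 0 2 (qsf 0 536870912 1239849684 370763052 0) ndN2q2a ndN1q2b pcN0 Cut.none Ext.none)

def k0_pp_202_ab : ∃ t, chk3 f_pp_202_ab t 1 1 1 = true :=
  ⟨(l 3), by decide +kernel⟩

theorem c_pp_202_ab : CertN 0 536870912 1239849684 370763052 33554432 16777216 3 false true true .pp 2 0 2
    ndN2q2a ndN1q2b pcN0 Cut.none Ext.none :=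
  certNK0 (fam := false) (s1 := true) (s2 := true) (a := 2) (b := 0) (c := 2) (cn := .pp) (n1 := ndN2q2a) (n2 := ndN1q2b) (pc := pcN0) (cut := Cut.none) (xt := Ext.none) (P1 := 0) (W1 := 536870912) (P2 := 1239849684) (W2 := 370763052) (P3 := 33554432) (W3 := 16777216) (N0 := 3)
    rfl rfl rfl k0_pp_202_ab

noncomputable def f_pp_202_ba : ℕ → ℕ → ℕ → ℕ → Bool := onCell 1239849684 370763052 0 536870912 33554432 16777216
    (rowNK 3 0 false true true .pp 2 0 2 (qsf 1239849684 370763052 0 536870912 0) ndN2q2b ndN1q2a pcN0 Cut.none Ext.none)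

def k0_pp_202_ba : ∃ t, chk3 f_pp_202_ba t 1 1 1 = true :=
  ⟨(l 3), by decide +kernel⟩

theorem c_pp_202_ba : CertN 1239849684 370763052 0 536870912 33554432 16777216 3 false true true .pp 2 0 2
    ndN2q2b ndN1q2a pcN0 Cut.none Ext.none :=
  certNK0 (fam := false) (s1 := true) (s2 := true) (a := 2) (b := 0) (c := 2) (cn := .pp) (n1 := ndN2q2b) (n2 := ndN1q2a) (pc := pcN0) (cut := Cut.none) (xt := Ext.none) (P1 := 1239849684) (W1 := 370763052) (P2 := 0) (W2 := 536870912) (P3 := 33554432) (W3 := 16777216) (N0 := 3)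
    rfl rfl rfl k0_pp_202_ba

noncomputable def f_pp_202_bb : ℕ → ℕ → ℕ → ℕ → Bool := onCell 1239849684 370763052 1239849684 370763052 33554432 16777216
    (rowNK 3 0 false true true .pp 2 0 2 (qsf 1239849684 370763052 1239849684 370763052 0) ndN2q2b ndN1q2b pcN0 Cut.none Ext.none)

def k0_pp_202_bb : ∃ t, chk3 f_pp_202_bb t 1 1 1 = true :=
  ⟨(l 3), by decide +kernel⟩

theorem c_pp_202_bb : CertN 1239849684 370763052 1239849684 370763052 33554432 16777216 3 false true true .pp 2 0 2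
    ndN2q2b ndN1q2b pcN0 Cut.none Ext.none :=
  certNK0 (fam := false) (s1 := true) (s2 := true) (a := 2) (b := 0) (c := 2) (cn := .pp) (n1 := ndN2q2b) (n2 := ndN1q2b) (pc := pcN0) (cut := Cut.none) (xt := Ext.none) (P1 := 1239849684) (W1 := 370763052) (P2 := 1239849684) (W2 := 370763052) (P3 := 33554432) (W3 := 16777216) (N0 := 3)
    rfl rfl rfl k0_pp_202_bb

noncomputable def f_pp_203_a : ℕ → ℕ → ℕ → ℕ → Bool := onCell 0 536870912 0 536870912 33554432 16777216
    (rowNK 3 1 false true true .up 2 0 3 (qsf 0 536870912 1610612736 536870912 0) ndN2q2a ndN1q3 pcN0 Cut.none Ext.none)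

def k0_pp_203_a : ∃ t, chk3 f_pp_203_a t 1 1 1 = true :=
  ⟨(l 3), by decide +kernel⟩

theorem c_pp_203_a : CertN 0 536870912 1610612736 536870912 33554432 16777216 3 false true true .up 2 0 3
    ndN2q2a ndN1q3 pcN0 Cut.none Ext.none :=
  certNK1 (fam := false) (s1 := true) (s2 := true) (a := 2) (b := 0) (c := 3) (cn := .up) (n1 := ndN2q2a) (n2 := ndN1q3) (pc := pcN0) (cut := Cut.none) (xt := Ext.none) (P1 := 0) (W1 := 536870912) (P2 := 1610612736) (W2 := 536870912) (P3 := 33554432) (W3 := 16777216) (N0 := 3)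
    rfl rfl rfl (fun _ => rfl) k0_pp_203_a

noncomputable def f_pp_203_b : ℕ → ℕ → ℕ → ℕ → Bool := onCell 1239849684 370763052 1610612736 536870912 33554432 16777216
    (rowNK 3 0 false true true .up 2 0 3 (qsf 1239849684 370763052 1610612736 536870912 0) ndN2q2b ndN1q3 pcN0 Cut.none Ext.none)

def k0_pp_203_b : ∃ t, chk3 f_pp_203_b t 1 1 1 = true :=
  ⟨(l 3), by decide +kernel⟩

theorem c_pp_203_b : CertN 1239849684 370763052 1610612736 536870912 33554432 16777216 3 false true true .up 2 0 3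
    ndN2q2b ndN1q3 pcN0 Cut.none Ext.none :=
  certNK0 (fam := false) (s1 := true) (s2 := true) (a := 2) (b := 0) (c := 3) (cn := .up) (n1 := ndN2q2b) (n2 := ndN1q3) (pc := pcN0) (cut := Cut.none) (xt := Ext.none) (P1 := 1239849684) (W1 := 370763052) (P2 := 1610612736) (W2 := 536870912) (P3 := 33554432) (W3 := 16777216) (N0 := 3)
    rfl rfl rfl k0_pp_203_b

noncomputable def cut_pp_213_a : Cut := Cut.of [[⟨0, 1, 0, 7061502⟩, ⟨1, 1, 0, 7061502⟩, ⟨2, 2, 0, 184626⟩]]

noncomputable def f_pp_213_a : ℕ → ℕ → ℕ → ℕ → Bool := onCell 0 536870912 1610612736 536870912 33554432 16777216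
    (rowNK 3 0 false true true .pnn 2 1 3 (qsf 0 536870912 1610612736 536870912 1) ndN2q2a ndN1q3 pcN1 cut_pp_213_a Ext.none)

def k0_pp_213_a : ∃ t, chk3 f_pp_213_a t 1 1 1 = true :=
  ⟨(a (l 3) (b (l 3) (a (l 3) (b (l 3) (a (l 3) (a (l 3) (a (l 3) (b (l 3) (b (l 3) (b (l 3) (b (l 3) (b (l 3) (b (l 3) (b (l 3) (a (l 3) (b (l 3) (b (l 3) (b (l 3) (l 6))))))))))))))))))), by decide +kernel⟩

theorem c_pp_213_a : CertN 0 536870912 1610612736 536870912 33554432 16777216 3 false true true .pnn 2 1 3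
    ndN2q2a ndN1q3 pcN1 cut_pp_213_a Ext.none :=
  certNK0 (fam := false) (s1 := true) (s2 := true) (a := 2) (b := 1) (c := 3) (cn := .pnn) (n1 := ndN2q2a) (n2 := ndN1q3) (pc := pcN1) (cut := cut_pp_213_a) (xt := Ext.none) (P1 := 0) (W1 := 536870912) (P2 := 1610612736) (W2 := 536870912) (P3 := 33554432) (W3 := 16777216) (N0 := 3)
    rfl rfl rfl k0_pp_213_a

noncomputable def cut_pp_213_b : Cut := Cut.of [[⟨0, 1, 0, 7061502⟩, ⟨1, 1, 0, 7061502⟩, ⟨2, 2, 0, 184626⟩]]

noncomputable def f_pp_213_b : ℕ → ℕ → ℕ → ℕ → Bool := onCell 1239849684 370763052 1610612736 536870912 33554432 16777216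
    (rowNK 3 0 false true true .pnn 2 1 3 (qsf 1239849684 370763052 1610612736 536870912 1) ndN2q2b ndN1q3 pcN1 cut_pp_213_b Ext.none)

def k0_pp_213_b : ∃ t, chk3 f_pp_213_b t 1 1 1 = true :=
  ⟨(l 3), by decide +kernel⟩

theorem c_pp_213_b : CertN 1239849684 370763052 1610612736 536870912 33554432 16777216 3 false true true .pnn 2 1 3
    ndN2q2b ndN1q3 pcN1 cut_pp_213_b Ext.none :=
  certNK0 (fam := false) (s1 := true) (s2 := true) (a := 2) (b := 1) (c := 3) (cn := .pnn) (n1 := ndN2q2b) (n2 := ndN1q3) (pc := pcN1) (cut := cut_pp_213_b) (xt := Ext.none) (P1 := 1239849684) (W1 := 370763052) (P2 := 1610612736) (W2 := 536870912) (P3 := 33554432) (W3 := 16777216) (N0 := 3)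
    rfl rfl rfl k0_pp_213_b

noncomputable def f_pp_303 : ℕ → ℕ → ℕ → ℕ → Bool := onCell 1610612736 536870912 1610612736 536870912 33554432 16777216
    (rowNK 3 0 false true true .npn 3 0 3 (qsf 1610612736 536870912 1610612736 536870912 0) ndN2q3 ndN1q3 pcN0 Cut.none Ext.none)

def k0_pp_303 : ∃ t, chk3 f_pp_303 t 1 1 1 = true :=
  ⟨(l 3), by decide +kernel⟩

theorem c_pp_303 : CertN 1610612736 536870912 1610612736 536870912 33554432 16777216 3 false true true .npn 3 0 3
    ndN2q3 ndN1q3 pcN0 Cut.none Ext.none :=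
  certNK0 (fam := false) (s1 := true) (s2 := true) (a := 3) (b := 0) (c := 3) (cn := .npn) (n1 := ndN2q3) (n2 := ndN1q3) (pc := pcN0) (cut := Cut.none) (xt := Ext.none) (P1 := 1610612736) (W1 := 536870912) (P2 := 1610612736) (W2 := 536870912) (P3 := 33554432) (W3 := 16777216) (N0 := 3)
    rfl rfl rfl k0_pp_303

noncomputable def f_pp_313 : ℕ → ℕ → ℕ → ℕ → Bool := onCell 1610612736 536870912 1610612736 536870912 33554432 16777216
    (rowNK 3 0 false true true .dn 3 1 3 (qsf 1610612736 536870912 1610612736 536870912 1) ndN2q3 ndN1q3 pcN1 Cut.none Ext.none)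

def k0_pp_313 : ∃ t, chk3 f_pp_313 t 1 1 1 = true :=
  ⟨(l 3), by decide +kernel⟩

theorem c_pp_313 : CertN 1610612736 536870912 1610612736 536870912 33554432 16777216 3 false true true .dn 3 1 3
    ndN2q3 ndN1q3 pcN1 Cut.none Ext.none :=
  certNK0 (fam := false) (s1 := true) (s2 := true) (a := 3) (b := 1) (c := 3) (cn := .dn) (n1 := ndN2q3) (n2 := ndN1q3) (pc := pcN1) (cut := Cut.none) (xt := Ext.none) (P1 := 1610612736) (W1 := 536870912) (P2 := 1610612736) (W2 := 536870912) (P3 := 33554432) (W3 := 16777216) (N0 := 3)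
    rfl rfl rfl k0_pp_313

noncomputable def f_pm_001 : ℕ → ℕ → ℕ → ℕ → Bool := onCell 0 536870912 536870912 536870912 33554432 16777216
    (rowNK 3 0 false true false .up 0 0 1 (qsf 0 536870912 536870912 536870912 0) ndN2q0 ndN1q1 pcN0 Cut.none Ext.none)

def k0_pm_001 : ∃ t, chk3 f_pm_001 t 1 1 1 = true :=
  ⟨(l 4), by decide +kernel⟩

theorem c_pm_001 : CertN 0 536870912 536870912 536870912 33554432 16777216 3 false true false .up 0 0 1
    ndN2q0 ndN1q1 pcN0 Cut.none Ext.none :=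
  certNK0 (fam := false) (s1 := true) (s2 := false) (a := 0) (b := 0) (c := 1) (cn := .up) (n1 := ndN2q0) (n2 := ndN1q1) (pc := pcN0) (cut := Cut.none) (xt := Ext.none) (P1 := 0) (W1 := 536870912) (P2 := 536870912) (W2 := 536870912) (P3 := 33554432) (W3 := 16777216) (N0 := 3)
    rfl rfl rfl k0_pm_001

noncomputable def f_pm_011 : ℕ → ℕ → ℕ → ℕ → Bool := onCell 0 536870912 536870912 536870912 33554432 16777216
    (rowNK 3 0 false true false .pnn 0 1 1 (qsf 0 536870912 536870912 536870912 1) ndN2q0 ndN1q1 pcN1 Cut.none Ext.none)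

def k0_pm_011 : ∃ t, chk3 f_pm_011 t 1 1 1 = true :=
  ⟨(l 4), by decide +kernel⟩

theorem c_pm_011 : CertN 0 536870912 536870912 536870912 33554432 16777216 3 false true false .pnn 0 1 1
    ndN2q0 ndN1q1 pcN1 Cut.none Ext.none :=
  certNK0 (fam := false) (s1 := true) (s2 := false) (a := 0) (b := 1) (c := 1) (cn := .pnn) (n1 := ndN2q0) (n2 := ndN1q1) (pc := pcN1) (cut := Cut.none) (xt := Ext.none) (P1 := 0) (W1 := 536870912) (P2 := 536870912) (W2 := 536870912) (P3 := 33554432) (W3 := 16777216) (N0 := 3)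
    rfl rfl rfl k0_pm_011

noncomputable def cut_pm_012_a : Cut := Cut.of [[⟨0, 0, 0, 33554432⟩, ⟨1, 1, 0, 33554432⟩, ⟨2, 1, 0, 33554432⟩]]

noncomputable def f_pm_012_a : ℕ → ℕ → ℕ → ℕ → Bool := onCell 536870912 536870912 0 536870912 33554432 16777216
    (rowNK 3 2 false true false .pnp 0 1 2 (qsf 0 536870912 0 536870912 1) ndN2q0 ndN1q2a pcN1 cut_pm_012_a Ext.none)

def k0_pm_012_a : ∃ t, chk3 f_pm_012_a t 1 1 1 = true :=
  ⟨(a (a (l 18082368) (b (l 18497520) (l 4))) (a (b (l 19205272) (l 4)) (a (b (l 19834256) (l 4)) (a (b (l 20269640) (l 4)) (a (b (l 20527784) (l 4)) (b (a (l 20660824) (l 20708960)) (a (l 4) (b (l 4) (b (l 4) (b (l 4) (l 6))))))))))), by decide +kernel⟩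

theorem c_pm_012_a : CertN 0 536870912 0 536870912 33554432 16777216 3 false true false .pnp 0 1 2
    ndN2q0 ndN1q2a pcN1 cut_pm_012_a Ext.none :=
  certNK2 (fam := false) (s1 := true) (s2 := false) (a := 0) (b := 1) (c := 2) (cn := .pnp) (n1 := ndN2q0) (n2 := ndN1q2a) (pc := pcN1) (cut := cut_pm_012_a) (xt := Ext.none) (P1 := 0) (W1 := 536870912) (P2 := 0) (W2 := 536870912) (P3 := 33554432) (W3 := 16777216) (N0 := 3)
    rfl rfl rfl (fun _ => rfl) k0_pm_012_a

noncomputable def cut_pm_012_b : Cut := Cut.of [[⟨0, 0, 0, 33554432⟩, ⟨1, 1, 0, 33554432⟩, ⟨2, 1, 0, 33554432⟩]]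

noncomputable def f_pm_012_b : ℕ → ℕ → ℕ → ℕ → Bool := onCell 536870912 536870912 1239849684 370763052 33554432 16777216
    (rowNK 3 2 false true false .pnp 0 1 2 (qsf 0 536870912 1239849684 370763052 1) ndN2q0 ndN1q2b pcN1 cut_pm_012_b Ext.none)

def k0_pm_012_b : ∃ t, chk3 f_pm_012_b t 1 1 1 = true :=
  ⟨(a (a (l 2) (l 19068688)) (b (a (l 19530960) (a (l 20209808) (a (l 20665456) (a (l 20936552) (a (l 21087296) (l 21180336)))))) (l 4))), by decide +kernel⟩

theorem c_pm_012_b : CertN 0 536870912 1239849684 370763052 33554432 16777216 3 false true false .pnp 0 1 2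
    ndN2q0 ndN1q2b pcN1 cut_pm_012_b Ext.none :=
  certNK2 (fam := false) (s1 := true) (s2 := false) (a := 0) (b := 1) (c := 2) (cn := .pnp) (n1 := ndN2q0) (n2 := ndN1q2b) (pc := pcN1) (cut := cut_pm_012_b) (xt := Ext.none) (P1 := 0) (W1 := 536870912) (P2 := 1239849684) (W2 := 370763052) (P3 := 33554432) (W3 := 16777216) (N0 := 3)
    rfl rfl rfl (fun _ => rfl) k0_pm_012_b

noncomputable def cut_pm_022_a : Cut := Cut.of [[⟨0, 0, 0, 33554432⟩, ⟨1, 1, 0, 33554432⟩, ⟨2, 1, 0, 33554432⟩]]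

noncomputable def f_pm_022_a : ℕ → ℕ → ℕ → ℕ → Bool := onCell 0 536870912 0 536870912 33554432 16777216
    (rowNK 3 0 false true false .pp 0 2 2 (qsf 0 536870912 0 536870912 2) ndN2q0 ndN1q2a pcN2 cut_pm_022_a Ext.none)

def k0_pm_022_a : ∃ t, chk3 f_pm_022_a t 1 1 1 = true :=
  ⟨(a (b (a (a (a (l 19631688) (l 19939432)) (l 20385904)) (a (l 20795344) (l 1))) (a (b (a (a (b (l 19408376) (a (l 18893120) (l 19158608))) (l 19650184)) (b (l 20285864) (l 4))) (a (a (a (b (a (b (b (l 18441208) (l 17906096)) (a (b (c (l 18017200) (a (l 17133848) (l 17372624))) (b (c (l 17538784) (l 16816288)) (l 16716432))) (l 17428672))) (b (l 18389672) (l 17462096))) (b (b (a (a (a (a (l 16732696) (l 16722816)) (l 16719808)) (l 16713840)) (l 16706504)) (l 6)) (l 6))) (b (b (l 18529568) (l 17532816)) (l 4))) (a (b (l 4) (l 4)) (l 4))) (l 4))) (l 4))) (l 1)), by decide +kernel⟩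

theorem c_pm_022_a : CertN 0 536870912 0 536870912 33554432 16777216 3 false true false .pp 0 2 2
    ndN2q0 ndN1q2a pcN2 cut_pm_022_a Ext.none :=
  certNK0 (fam := false) (s1 := true) (s2 := false) (a := 0) (b := 2) (c := 2) (cn := .pp) (n1 := ndN2q0) (n2 := ndN1q2a) (pc := pcN2) (cut := cut_pm_022_a) (xt := Ext.none) (P1 := 0) (W1 := 536870912) (P2 := 0) (W2 := 536870912) (P3 := 33554432) (W3 := 16777216) (N0 := 3)
    rfl rfl rfl k0_pm_022_a

noncomputable def cut_pm_022_b : Cut := Cut.of [[⟨0, 0, 0, 33554432⟩, ⟨1, 1, 0, 33554432⟩, ⟨2, 1, 0, 33554432⟩]]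

noncomputable def f_pm_022_b : ℕ → ℕ → ℕ → ℕ → Bool := onCell 0 536870912 1073741824 536870912 33554432 16777216
    (rowNK 3 1 false true false .pp 0 2 2 (qsf 0 536870912 1239849684 370763052 2) ndN2q0 ndN1q2b pcN2 cut_pm_022_b Ext.none)

def k0_pm_022_b : ∃ t, chk3 f_pm_022_b t 1 1 1 = true :=
  ⟨(b (a (b (a (a (l 677569848519) (l 20250624)) (l 20766520)) (a (a (l 19906648) (l 20271920)) (l 20501384))) (b (l 21023168) (l 4))) (a (a (b (l 19715352) (l 19205736)) (l 4)) (l 4))), by decide +kernel⟩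

theorem c_pm_022_b : CertN 0 536870912 1239849684 370763052 33554432 16777216 3 false true false .pp 0 2 2
    ndN2q0 ndN1q2b pcN2 cut_pm_022_b Ext.none :=
  certNK1 (fam := false) (s1 := true) (s2 := false) (a := 0) (b := 2) (c := 2) (cn := .pp) (n1 := ndN2q0) (n2 := ndN1q2b) (pc := pcN2) (cut := cut_pm_022_b) (xt := Ext.none) (P1 := 0) (W1 := 536870912) (P2 := 1239849684) (W2 := 370763052) (P3 := 33554432) (W3 := 16777216) (N0 := 3)
    rfl rfl rfl (fun _ => rfl) k0_pm_022_b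

noncomputable def f_pm_023 : ℕ → ℕ → ℕ → ℕ → Bool := onCell 0 536870912 1610612736 536870912 33554432 16777216
    (rowNK 3 0 false true false .up 0 2 3 (qsf 0 536870912 1610612736 536870912 2) ndN2q0 ndN1q3 pcN2 Cut.none Ext.none)

def k0_pm_023 : ∃ t, chk3 f_pm_023 t 1 1 1 = true :=
  ⟨(a (l 4) (l 4)), by decide +kernel⟩

theorem c_pm_023 : CertN 0 536870912 1610612736 536870912 33554432 16777216 3 false true false .up 0 2 3
    ndN2q0 ndN1q3 pcN2 Cut.none Ext.none :=
  certNK0 (fam := false) (s1 := true) (s2 := false) (a := 0) (b := 2) (c := 3) (cn := .up) (n1 := ndN2q0) (n2 := ndN1q3) (pc := pcN2) (cut := Cut.none) (xt := Ext.none) (P1 := 0) (W1 := 536870912) (P2 := 1610612736) (W2 := 536870912) (P3 := 33554432) (W3 := 16777216) (N0 := 3)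
    rfl rfl rfl k0_pm_023

noncomputable def f_pm_033 : ℕ → ℕ → ℕ → ℕ → Bool := onCell 0 536870912 1610612736 536870912 33554432 16777216
    (rowNK 3 0 false true false .pnn 0 3 3 (qsf 0 536870912 1610612736 536870912 3) ndN2q0 ndN1q3 pcN3 Cut.none Ext.none)

def k0_pm_033 : ∃ t, chk3 f_pm_033 t 1 1 1 = true :=
  ⟨(a (l 4) (l 4)), by decide +kernel⟩

theorem c_pm_033 : CertN 0 536870912 1610612736 536870912 33554432 16777216 3 false true false .pnn 0 3 3
    ndN2q0 ndN1q3 pcN3 Cut.none Ext.none :=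
  certNK0 (fam := false) (s1 := true) (s2 := false) (a := 0) (b := 3) (c := 3) (cn := .pnn) (n1 := ndN2q0) (n2 := ndN1q3) (pc := pcN3) (cut := Cut.none) (xt := Ext.none) (P1 := 0) (W1 := 536870912) (P2 := 1610612736) (W2 := 536870912) (P3 := 33554432) (W3 := 16777216) (N0 := 3)
    rfl rfl rfl k0_pm_033

noncomputable def f_pm_101 : ℕ → ℕ → ℕ → ℕ → Bool := onCell 536870912 536870912 536870912 536870912 33554432 16777216
    (rowNK 3 0 false true false .npn 1 0 1 (qsf 536870912 536870912 536870912 536870912 0) ndN2q1 ndN1q1 pcN0 Cut.none Ext.none)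

def k0_pm_101 : ∃ t, chk3 f_pm_101 t 1 1 1 = true :=
  ⟨(l 4), by decide +kernel⟩

theorem c_pm_101 : CertN 536870912 536870912 536870912 536870912 33554432 16777216 3 false true false .npn 1 0 1
    ndN2q1 ndN1q1 pcN0 Cut.none Ext.none :=
  certNK0 (fam := false) (s1 := true) (s2 := false) (a := 1) (b := 0) (c := 1) (cn := .npn) (n1 := ndN2q1) (n2 := ndN1q1) (pc := pcN0) (cut := Cut.none) (xt := Ext.none) (P1 := 536870912) (W1 := 536870912) (P2 := 536870912) (W2 := 536870912) (P3 := 33554432) (W3 := 16777216) (N0 := 3)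
    rfl rfl rfl k0_pm_101

noncomputable def f_pm_102_a : ℕ → ℕ → ℕ → ℕ → Bool := onCell 536870912 536870912 0 536870912 33554432 16777216
    (rowNK 3 0 false true false .npp 1 0 2 (qsf 536870912 536870912 0 536870912 0) ndN2q1 ndN1q2a pcN0 Cut.none Ext.none)

def k0_pm_102_a : ∃ t, chk3 f_pm_102_a t 1 1 1 = true :=
  ⟨(b (a (a (l 4) (l 4)) (l 4)) (l 4)), by decide +kernel⟩

theorem c_pm_102_a : CertN 536870912 536870912 0 536870912 33554432 16777216 3 false true false .npp 1 0 2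
    ndN2q1 ndN1q2a pcN0 Cut.none Ext.none :=
  certNK0 (fam := false) (s1 := true) (s2 := false) (a := 1) (b := 0) (c := 2) (cn := .npp) (n1 := ndN2q1) (n2 := ndN1q2a) (pc := pcN0) (cut := Cut.none) (xt := Ext.none) (P1 := 536870912) (W1 := 536870912) (P2 := 0) (W2 := 536870912) (P3 := 33554432) (W3 := 16777216) (N0 := 3)
    rfl rfl rfl k0_pm_102_a

noncomputable def f_pm_102_b : ℕ → ℕ → ℕ → ℕ → Bool := onCell 536870912 536870912 1239849684 370763052 33554432 16777216
    (rowNK 3 0 false true false .npp 1 0 2 (qsf 536870912 536870912 1239849684 370763052 0) ndN2q1 ndN1q2b pcN0 Cut.none Ext.none)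

def k0_pm_102_b : ∃ t, chk3 f_pm_102_b t 1 1 1 = true :=
  ⟨(a (b (l 4) (l 2)) (b (l 4) (l 4))), by decide +kernel⟩

theorem c_pm_102_b : CertN 536870912 536870912 1239849684 370763052 33554432 16777216 3 false true false .npp 1 0 2
    ndN2q1 ndN1q2b pcN0 Cut.none Ext.none :=
  certNK0 (fam := false) (s1 := true) (s2 := false) (a := 1) (b := 0) (c := 2) (cn := .npp) (n1 := ndN2q1) (n2 := ndN1q2b) (pc := pcN0) (cut := Cut.none) (xt := Ext.none) (P1 := 536870912) (W1 := 536870912) (P2 := 1239849684) (W2 := 370763052) (P3 := 33554432) (W3 := 16777216) (N0 := 3)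
    rfl rfl rfl k0_pm_102_b

noncomputable def f_pm_112_a : ℕ → ℕ → ℕ → ℕ → Bool := onCell 536870912 536870912 0 536870912 33554432 16777216
    (rowNK 3 2 false true false .dn 1 1 2 (qsf 536870912 536870912 0 536870912 1) ndN2q1 ndN1q2a pcN1 Cut.none Ext.none)

def k0_pm_112_a : ∃ t, chk3 f_pm_112_a t 1 1 1 = true :=
  ⟨(a (a (l 19605968) (l 19711464)) (l 1)), by decide +kernel⟩

theorem c_pm_112_a : CertN 536870912 536870912 0 536870912 33554432 16777216 3 false true false .dn 1 1 2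
    ndN2q1 ndN1q2a pcN1 Cut.none Ext.none :=
  certNK2 (fam := false) (s1 := true) (s2 := false) (a := 1) (b := 1) (c := 2) (cn := .dn) (n1 := ndN2q1) (n2 := ndN1q2a) (pc := pcN1) (cut := Cut.none) (xt := Ext.none) (P1 := 536870912) (W1 := 536870912) (P2 := 0) (W2 := 536870912) (P3 := 33554432) (W3 := 16777216) (N0 := 3)
    rfl rfl rfl (fun _ => rfl) k0_pm_112_a

noncomputable def f_pm_112_b : ℕ → ℕ → ℕ → ℕ → Bool := onCell 536870912 536870912 1239849684 370763052 33554432 16777216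
    (rowNK 3 0 false true false .dn 1 1 2 (qsf 536870912 536870912 1239849684 370763052 1) ndN2q1 ndN1q2b pcN1 Cut.none Ext.none)

def k0_pm_112_b : ∃ t, chk3 f_pm_112_b t 1 1 1 = true :=
  ⟨(a (b (l 4) (l 4)) (b (l 4) (l 4))), by decide +kernel⟩

theorem c_pm_112_b : CertN 536870912 536870912 1239849684 370763052 33554432 16777216 3 false true false .dn 1 1 2
    ndN2q1 ndN1q2b pcN1 Cut.none Ext.none :=
  certNK0 (fam := false) (s1 := true) (s2 := false) (a := 1) (b := 1) (c := 2) (cn := .dn) (n1 := ndN2q1) (n2 := ndN1q2b) (pc := pcN1) (cut := Cut.none) (xt := Ext.none) (P1 := 536870912) (W1 := 536870912) (P2 := 1239849684) (W2 := 370763052) (P3 := 33554432) (W3 := 16777216) (N0 := 3)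
    rfl rfl rfl k0_pm_112_b

noncomputable def f_pm_113 : ℕ → ℕ → ℕ → ℕ → Bool := onCell 536870912 536870912 1610612736 536870912 33554432 16777216
    (rowNK 3 0 false true false .nn 1 1 3 (qsf 536870912 536870912 1610612736 536870912 1) ndN2q1 ndN1q3 pcN1 Cut.none Ext.none)

def k0_pm_113 : ∃ t, chk3 f_pm_113 t 1 1 1 = true :=
  ⟨(a (l 4) (b (l 4) (a (l 4) (b (l 4) (a (l 4) (b (l 4) (a (l 4) (b (l 4) (a (l 4) (b (l 4) (a (l 4) (b (l 4) (l 16810568))))))))))))), by decide +kernel⟩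

theorem c_pm_113 : CertN 536870912 536870912 1610612736 536870912 33554432 16777216 3 false true false .nn 1 1 3
    ndN2q1 ndN1q3 pcN1 Cut.none Ext.none :=
  certNK0 (fam := false) (s1 := true) (s2 := false) (a := 1) (b := 1) (c := 3) (cn := .nn) (n1 := ndN2q1) (n2 := ndN1q3) (pc := pcN1) (cut := Cut.none) (xt := Ext.none) (P1 := 536870912) (W1 := 536870912) (P2 := 1610612736) (W2 := 536870912) (P3 := 33554432) (W3 := 16777216) (N0 := 3)
    rfl rfl rfl k0_pm_113

noncomputable def f_pm_123 : ℕ → ℕ → ℕ → ℕ → Bool := onCell 536870912 536870912 1610612736 536870912 33554432 16777216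
    (rowNK 3 0 false true false .npn 1 2 3 (qsf 536870912 536870912 1610612736 536870912 2) ndN2q1 ndN1q3 pcN2 Cut.none Ext.none)

def k0_pm_123 : ∃ t, chk3 f_pm_123 t 1 1 1 = true :=
  ⟨(a (l 4) (b (l 4) (a (l 4) (a (l 4) (a (l 4) (a (l 17694440) (a (l 17724400) (l 17747400)))))))), by decide +kernel⟩

theorem c_pm_123 : CertN 536870912 536870912 1610612736 536870912 33554432 16777216 3 false true false .npn 1 2 3
    ndN2q1 ndN1q3 pcN2 Cut.none Ext.none :=
  certNK0 (fam := false) (s1 := true) (s2 := false) (a := 1) (b := 2) (c := 3) (cn := .npn) (n1 := ndN2q1) (n2 := ndN1q3) (pc := pcN2) (cut := Cut.none) (xt := Ext.none) (P1 := 536870912) (W1 := 536870912) (P2 := 1610612736) (W2 := 536870912) (P3 := 33554432) (W3 := 16777216) (N0 := 3)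
    rfl rfl rfl k0_pm_123

noncomputable def f_pm_133 : ℕ → ℕ → ℕ → ℕ → Bool := onCell 536870912 536870912 1610612736 536870912 33554432 16777216
    (rowNK 3 0 false true false .dn 1 3 3 (qsf 536870912 536870912 1610612736 536870912 3) ndN2q1 ndN1q3 pcN3 Cut.none Ext.none)

def k0_pm_133 : ∃ t, chk3 f_pm_133 t 1 1 1 = true :=
  ⟨(a (l 4) (l 1)), by decide +kernel⟩

theorem c_pm_133 : CertN 536870912 536870912 1610612736 536870912 33554432 16777216 3 false true false .dn 1 3 3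
    ndN2q1 ndN1q3 pcN3 Cut.none Ext.none :=
  certNK0 (fam := false) (s1 := true) (s2 := false) (a := 1) (b := 3) (c := 3) (cn := .dn) (n1 := ndN2q1) (n2 := ndN1q3) (pc := pcN3) (cut := Cut.none) (xt := Ext.none) (P1 := 536870912) (W1 := 536870912) (P2 := 1610612736) (W2 := 536870912) (P3 := 33554432) (W3 := 16777216) (N0 := 3)
    rfl rfl rfl k0_pm_133

noncomputable def cut_pm_202_aa : Cut := Cut.of [[⟨0, 1, 0, 33554432⟩, ⟨1, 0, 0, 33554432⟩, ⟨2, 1, 0, 33554432⟩]]

noncomputable def f_pm_202_aa : ℕ → ℕ → ℕ → ℕ → Bool := onCell 0 536870912 0 536870912 33554432 16777216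
    (rowNK 3 0 false true false .pp 2 0 2 (qsf 0 536870912 0 536870912 0) ndN2q2a ndN1q2a pcN0 cut_pm_202_aa Ext.none)

def k0_pm_202_aa : ∃ t, chk3 f_pm_202_aa t 1 1 1 = true :=
  ⟨(b (l 3) (b (l 3) (b (l 3) (b (l 3) (a (l 1) (a (l 1) (a (l 1) (a (b (l 3) (l 1)) (l 6))))))))), by decide +kernel⟩

theorem c_pm_202_aa : CertN 0 536870912 0 536870912 33554432 16777216 3 false true false .pp 2 0 2
    ndN2q2a ndN1q2a pcN0 cut_pm_202_aa Ext.none :=
  certNK0 (fam := false) (s1 := true) (s2 := false) (a := 2) (b := 0) (c := 2) (cn := .pp) (n1 := ndN2q2a) (n2 := ndN1q2a) (pc := pcN0) (cut := cut_pm_202_aa) (xt := Ext.none) (P1 := 0) (W1 := 536870912) (P2 := 0) (W2 := 536870912) (P3 := 33554432) (W3 := 16777216) (N0 := 3)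
    rfl rfl rfl k0_pm_202_aa

noncomputable def cut_pm_202_ab : Cut := Cut.of [[⟨0, 1, 0, 33554432⟩, ⟨1, 0, 0, 33554432⟩, ⟨2, 1, 0, 33554432⟩]]

noncomputable def f_pm_202_ab : ℕ → ℕ → ℕ → ℕ → Bool := onCell 0 536870912 1239849684 370763052 33554432 16777216
    (rowNK 3 0 false true false .pp 2 0 2 (qsf 0 536870912 1239849684 370763052 0) ndN2q2a ndN1q2b pcN0 cut_pm_202_ab Ext.none)

def k0_pm_202_ab : ∃ t, chk3 f_pm_202_ab t 1 1 1 = true :=
  ⟨(l 3), by decide +kernel⟩

theorem c_pm_202_ab : CertN 0 536870912 1239849684 370763052 33554432 16777216 3 false true false .pp 2 0 2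
    ndN2q2a ndN1q2b pcN0 cut_pm_202_ab Ext.none :=
  certNK0 (fam := false) (s1 := true) (s2 := false) (a := 2) (b := 0) (c := 2) (cn := .pp) (n1 := ndN2q2a) (n2 := ndN1q2b) (pc := pcN0) (cut := cut_pm_202_ab) (xt := Ext.none) (P1 := 0) (W1 := 536870912) (P2 := 1239849684) (W2 := 370763052) (P3 := 33554432) (W3 := 16777216) (N0 := 3)
    rfl rfl rfl k0_pm_202_ab

noncomputable def cut_pm_202_ba : Cut := Cut.of [[⟨0, 1, 0, 33554432⟩, ⟨1, 0, 0, 33554432⟩, ⟨2, 1, 0, 33554432⟩]]

noncomputable def f_pm_202_ba : ℕ → ℕ → ℕ → ℕ → Bool := onCell 1239849684 370763052 0 536870912 33554432 16777216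
    (rowNK 3 0 false true false .pp 2 0 2 (qsf 1239849684 370763052 0 536870912 0) ndN2q2b ndN1q2a pcN0 cut_pm_202_ba Ext.none)

def k0_pm_202_ba : ∃ t, chk3 f_pm_202_ba t 1 1 1 = true :=
  ⟨(b (l 3) (l 1)), by decide +kernel⟩

theorem c_pm_202_ba : CertN 1239849684 370763052 0 536870912 33554432 16777216 3 false true false .pp 2 0 2
    ndN2q2b ndN1q2a pcN0 cut_pm_202_ba Ext.none :=
  certNK0 (fam := false) (s1 := true) (s2 := false) (a := 2) (b := 0) (c := 2) (cn := .pp) (n1 := ndN2q2b) (n2 := ndN1q2a) (pc := pcN0) (cut := cut_pm_202_ba) (xt := Ext.none) (P1 := 1239849684) (W1 := 370763052) (P2 := 0) (W2 := 536870912) (P3 := 33554432) (W3 := 16777216) (N0 := 3)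
    rfl rfl rfl k0_pm_202_ba

noncomputable def cut_pm_202_bb : Cut := Cut.of [[⟨0, 1, 0, 33554432⟩, ⟨1, 0, 0, 33554432⟩, ⟨2, 1, 0, 33554432⟩]]

noncomputable def f_pm_202_bb : ℕ → ℕ → ℕ → ℕ → Bool := onCell 1239849684 370763052 1239849684 370763052 33554432 16777216
    (rowNK 3 0 false true false .pp 2 0 2 (qsf 1239849684 370763052 1239849684 370763052 0) ndN2q2b ndN1q2b pcN0 cut_pm_202_bb Ext.none)

def k0_pm_202_bb : ∃ t, chk3 f_pm_202_bb t 1 1 1 = true :=
  ⟨(l 3), by decide +kernel⟩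

theorem c_pm_202_bb : CertN 1239849684 370763052 1239849684 370763052 33554432 16777216 3 false true false .pp 2 0 2
    ndN2q2b ndN1q2b pcN0 cut_pm_202_bb Ext.none :=
  certNK0 (fam := false) (s1 := true) (s2 := false) (a := 2) (b := 0) (c := 2) (cn := .pp) (n1 := ndN2q2b) (n2 := ndN1q2b) (pc := pcN0) (cut := cut_pm_202_bb) (xt := Ext.none) (P1 := 1239849684) (W1 := 370763052) (P2 := 1239849684) (W2 := 370763052) (P3 := 33554432) (W3 := 16777216) (N0 := 3)
    rfl rfl rfl k0_pm_202_bb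

noncomputable def f_pm_203_a : ℕ → ℕ → ℕ → ℕ → Bool := onCell 0 536870912 0 536870912 33554432 16777216
    (rowNK 3 1 false true false .up 2 0 3 (qsf 0 536870912 1610612736 536870912 0) ndN2q2a ndN1q3 pcN0 Cut.none Ext.none)

def k0_pm_203_a : ∃ t, chk3 f_pm_203_a t 1 1 1 = true :=
  ⟨(l 3), by decide +kernel⟩

theorem c_pm_203_a : CertN 0 536870912 1610612736 536870912 33554432 16777216 3 false true false .up 2 0 3
    ndN2q2a ndN1q3 pcN0 Cut.none Ext.none :=
  certNK1 (fam := false) (s1 := true) (s2 := false) (a := 2) (b := 0) (c := 3) (cn := .up) (n1 := ndN2q2a) (n2 := ndN1q3) (pc := pcN0) (cut := Cut.none) (xt := Ext.none) (P1 := 0) (W1 := 536870912) (P2 := 1610612736) (W2 := 536870912) (P3 := 33554432) (W3 := 16777216) (N0 := 3)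
    rfl rfl rfl (fun _ => rfl) k0_pm_203_a

noncomputable def f_pm_203_b : ℕ → ℕ → ℕ → ℕ → Bool := onCell 1239849684 370763052 1610612736 536870912 33554432 16777216
    (rowNK 3 0 false true false .up 2 0 3 (qsf 1239849684 370763052 1610612736 536870912 0) ndN2q2b ndN1q3 pcN0 Cut.none Ext.none)

def k0_pm_203_b : ∃ t, chk3 f_pm_203_b t 1 1 1 = true :=
  ⟨(l 3), by decide +kernel⟩

theorem c_pm_203_b : CertN 1239849684 370763052 1610612736 536870912 33554432 16777216 3 false true false .up 2 0 3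
    ndN2q2b ndN1q3 pcN0 Cut.none Ext.none :=
  certNK0 (fam := false) (s1 := true) (s2 := false) (a := 2) (b := 0) (c := 3) (cn := .up) (n1 := ndN2q2b) (n2 := ndN1q3) (pc := pcN0) (cut := Cut.none) (xt := Ext.none) (P1 := 1239849684) (W1 := 370763052) (P2 := 1610612736) (W2 := 536870912) (P3 := 33554432) (W3 := 16777216) (N0 := 3)
    rfl rfl rfl k0_pm_203_b

noncomputable def cut_pm_213_a : Cut := Cut.of [[⟨0, 1, 0, 7061502⟩, ⟨1, 1, 0, 7061502⟩, ⟨2, 2, 0, 184626⟩]]

noncomputable def f_pm_213_a : ℕ → ℕ → ℕ → ℕ → Bool := onCell 0 536870912 1610612736 536870912 33554432 16777216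
    (rowNK 3 0 false true false .pnn 2 1 3 (qsf 0 536870912 1610612736 536870912 1) ndN2q2a ndN1q3 pcN1 cut_pm_213_a Ext.none)

def k0_pm_213_a : ∃ t, chk3 f_pm_213_a t 1 1 1 = true :=
  ⟨(a (l 3) (b (l 3) (a (l 3) (b (l 3) (a (l 3) (a (l 3) (a (l 3) (b (l 3) (b (l 3) (b (l 3) (b (l 3) (b (l 3) (b (l 3) (a (l 3) (b (l 3) (b (l 3) (b (l 3) (b (l 3) (l 6))))))))))))))))))), by decide +kernel⟩

theorem c_pm_213_a : CertN 0 536870912 1610612736 536870912 33554432 16777216 3 false true false .pnn 2 1 3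
    ndN2q2a ndN1q3 pcN1 cut_pm_213_a Ext.none :=
  certNK0 (fam := false) (s1 := true) (s2 := false) (a := 2) (b := 1) (c := 3) (cn := .pnn) (n1 := ndN2q2a) (n2 := ndN1q3) (pc := pcN1) (cut := cut_pm_213_a) (xt := Ext.none) (P1 := 0) (W1 := 536870912) (P2 := 1610612736) (W2 := 536870912) (P3 := 33554432) (W3 := 16777216) (N0 := 3)
    rfl rfl rfl k0_pm_213_a

noncomputable def cut_pm_213_b : Cut := Cut.of [[⟨0, 1, 0, 7061502⟩, ⟨1, 1, 0, 7061502⟩, ⟨2, 2, 0, 184626⟩]]

noncomputable def f_pm_213_b : ℕ → ℕ → ℕ → ℕ → Bool := onCell 1239849684 370763052 1610612736 536870912 33554432 16777216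
    (rowNK 3 0 false true false .pnn 2 1 3 (qsf 1239849684 370763052 1610612736 536870912 1) ndN2q2b ndN1q3 pcN1 cut_pm_213_b Ext.none)

def k0_pm_213_b : ∃ t, chk3 f_pm_213_b t 1 1 1 = true :=
  ⟨(l 3), by decide +kernel⟩

theorem c_pm_213_b : CertN 1239849684 370763052 1610612736 536870912 33554432 16777216 3 false true false .pnn 2 1 3
    ndN2q2b ndN1q3 pcN1 cut_pm_213_b Ext.none :=
  certNK0 (fam := false) (s1 := true) (s2 := false) (a := 2) (b := 1) (c := 3) (cn := .pnn) (n1 := ndN2q2b) (n2 := ndN1q3) (pc := pcN1) (cut := cut_pm_213_b) (xt := Ext.none) (P1 := 1239849684) (W1 := 370763052) (P2 := 1610612736) (W2 := 536870912) (P3 := 33554432) (W3 := 16777216) (N0 := 3)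
    rfl rfl rfl k0_pm_213_b

noncomputable def f_pm_303 : ℕ → ℕ → ℕ → ℕ → Bool := onCell 1610612736 536870912 1610612736 536870912 33554432 16777216
    (rowNK 3 0 false true false .npn 3 0 3 (qsf 1610612736 536870912 1610612736 536870912 0) ndN2q3 ndN1q3 pcN0 Cut.none Ext.none)

def k0_pm_303 : ∃ t, chk3 f_pm_303 t 1 1 1 = true :=
  ⟨(l 3), by decide +kernel⟩

theorem c_pm_303 : CertN 1610612736 536870912 1610612736 536870912 33554432 16777216 3 false true false .npn 3 0 3
    ndN2q3 ndN1q3 pcN0 Cut.none Ext.none :=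
  certNK0 (fam := false) (s1 := true) (s2 := false) (a := 3) (b := 0) (c := 3) (cn := .npn) (n1 := ndN2q3) (n2 := ndN1q3) (pc := pcN0) (cut := Cut.none) (xt := Ext.none) (P1 := 1610612736) (W1 := 536870912) (P2 := 1610612736) (W2 := 536870912) (P3 := 33554432) (W3 := 16777216) (N0 := 3)
    rfl rfl rfl k0_pm_303

noncomputable def f_pm_313 : ℕ → ℕ → ℕ → ℕ → Bool := onCell 1610612736 536870912 1610612736 536870912 33554432 16777216
    (rowNK 3 0 false true false .dn 3 1 3 (qsf 1610612736 536870912 1610612736 536870912 1) ndN2q3 ndN1q3 pcN1 Cut.none Ext.none)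

def k0_pm_313 : ∃ t, chk3 f_pm_313 t 1 1 1 = true :=
  ⟨(l 3), by decide +kernel⟩

theorem c_pm_313 : CertN 1610612736 536870912 1610612736 536870912 33554432 16777216 3 false true false .dn 3 1 3
    ndN2q3 ndN1q3 pcN1 Cut.none Ext.none :=
  certNK0 (fam := false) (s1 := true) (s2 := false) (a := 3) (b := 1) (c := 3) (cn := .dn) (n1 := ndN2q3) (n2 := ndN1q3) (pc := pcN1) (cut := Cut.none) (xt := Ext.none) (P1 := 1610612736) (W1 := 536870912) (P2 := 1610612736) (W2 := 536870912) (P3 := 33554432) (W3 := 16777216) (N0 := 3)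
    rfl rfl rfl k0_pm_313

noncomputable def f_mm_001 : ℕ → ℕ → ℕ → ℕ → Bool := onCell 0 536870912 536870912 536870912 33554432 16777216
    (rowNK 3 0 false false false .up 0 0 1 (qsf 0 536870912 536870912 536870912 0) ndN2q0 ndN1q1 pcN0 Cut.none Ext.none)

def k0_mm_001 : ∃ t, chk3 f_mm_001 t 1 1 1 = true :=
  ⟨(l 3), by decide +kernel⟩

theorem c_mm_001 : CertN 0 536870912 536870912 536870912 33554432 16777216 3 false false false .up 0 0 1
    ndN2q0 ndN1q1 pcN0 Cut.none Ext.none :=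
  certNK0 (fam := false) (s1 := false) (s2 := false) (a := 0) (b := 0) (c := 1) (cn := .up) (n1 := ndN2q0) (n2 := ndN1q1) (pc := pcN0) (cut := Cut.none) (xt := Ext.none) (P1 := 0) (W1 := 536870912) (P2 := 536870912) (W2 := 536870912) (P3 := 33554432) (W3 := 16777216) (N0 := 3)
    rfl rfl rfl k0_mm_001

noncomputable def f_mm_011 : ℕ → ℕ → ℕ → ℕ → Bool := onCell 0 536870912 536870912 536870912 33554432 16777216
    (rowNK 3 0 false false false .pnn 0 1 1 (qsf 0 536870912 536870912 536870912 1) ndN2q0 ndN1q1 pcN1 Cut.none Ext.none)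

def k0_mm_011 : ∃ t, chk3 f_mm_011 t 1 1 1 = true :=
  ⟨(l 3), by decide +kernel⟩

theorem c_mm_011 : CertN 0 536870912 536870912 536870912 33554432 16777216 3 false false false .pnn 0 1 1
    ndN2q0 ndN1q1 pcN1 Cut.none Ext.none :=
  certNK0 (fam := false) (s1 := false) (s2 := false) (a := 0) (b := 1) (c := 1) (cn := .pnn) (n1 := ndN2q0) (n2 := ndN1q1) (pc := pcN1) (cut := Cut.none) (xt := Ext.none) (P1 := 0) (W1 := 536870912) (P2 := 536870912) (W2 := 536870912) (P3 := 33554432) (W3 := 16777216) (N0 := 3)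
    rfl rfl rfl k0_mm_011

noncomputable def f_mm_012_a : ℕ → ℕ → ℕ → ℕ → Bool := onCell 0 536870912 0 536870912 33554432 16777216
    (rowNK 3 0 false false false .pnp 0 1 2 (qsf 0 536870912 0 536870912 1) ndN2q0 ndN1q2a pcN1 Cut.none Ext.none)

def k0_mm_012_a : ∃ t, chk3 f_mm_012_a t 1 1 1 = true :=
  ⟨(l 5), by decide +kernel⟩

theorem c_mm_012_a : CertN 0 536870912 0 536870912 33554432 16777216 3 false false false .pnp 0 1 2
    ndN2q0 ndN1q2a pcN1 Cut.none Ext.none :=
  certNK0 (fam := false) (s1 := false) (s2 := false) (a := 0) (b := 1) (c := 2) (cn := .pnp) (n1 := ndN2q0) (n2 := ndN1q2a) (pc := pcN1) (cut := Cut.none) (xt := Ext.none) (P1 := 0) (W1 := 536870912) (P2 := 0) (W2 := 536870912) (P3 := 33554432) (W3 := 16777216) (N0 := 3)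
    rfl rfl rfl k0_mm_012_a

noncomputable def f_mm_012_b : ℕ → ℕ → ℕ → ℕ → Bool := onCell 0 536870912 1239849684 370763052 33554432 16777216
    (rowNK 3 0 false false false .pnp 0 1 2 (qsf 0 536870912 1239849684 370763052 1) ndN2q0 ndN1q2b pcN1 Cut.none Ext.none)

def k0_mm_012_b : ∃ t, chk3 f_mm_012_b t 1 1 1 = true :=
  ⟨(l 5), by decide +kernel⟩

theorem c_mm_012_b : CertN 0 536870912 1239849684 370763052 33554432 16777216 3 false false false .pnp 0 1 2
    ndN2q0 ndN1q2b pcN1 Cut.none Ext.none :=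
  certNK0 (fam := false) (s1 := false) (s2 := false) (a := 0) (b := 1) (c := 2) (cn := .pnp) (n1 := ndN2q0) (n2 := ndN1q2b) (pc := pcN1) (cut := Cut.none) (xt := Ext.none) (P1 := 0) (W1 := 536870912) (P2 := 1239849684) (W2 := 370763052) (P3 := 33554432) (W3 := 16777216) (N0 := 3)
    rfl rfl rfl k0_mm_012_b

noncomputable def f_mm_022_a : ℕ → ℕ → ℕ → ℕ → Bool := onCell 0 536870912 0 536870912 33554432 16777216
    (rowNK 3 0 false false false .pp 0 2 2 (qsf 0 536870912 0 536870912 2) ndN2q0 ndN1q2a pcN2 Cut.none Ext.none)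

def k0_mm_022_a : ∃ t, chk3 f_mm_022_a t 1 1 1 = true :=
  ⟨(l 5), by decide +kernel⟩

theorem c_mm_022_a : CertN 0 536870912 0 536870912 33554432 16777216 3 false false false .pp 0 2 2
    ndN2q0 ndN1q2a pcN2 Cut.none Ext.none :=
  certNK0 (fam := false) (s1 := false) (s2 := false) (a := 0) (b := 2) (c := 2) (cn := .pp) (n1 := ndN2q0) (n2 := ndN1q2a) (pc := pcN2) (cut := Cut.none) (xt := Ext.none) (P1 := 0) (W1 := 536870912) (P2 := 0) (W2 := 536870912) (P3 := 33554432) (W3 := 16777216) (N0 := 3)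
    rfl rfl rfl k0_mm_022_a

noncomputable def f_mm_022_b : ℕ → ℕ → ℕ → ℕ → Bool := onCell 0 536870912 1239849684 370763052 33554432 16777216
    (rowNK 3 0 false false false .pp 0 2 2 (qsf 0 536870912 1239849684 370763052 2) ndN2q0 ndN1q2b pcN2 Cut.none Ext.none)

def k0_mm_022_b : ∃ t, chk3 f_mm_022_b t 1 1 1 = true :=
  ⟨(l 5), by decide +kernel⟩

theorem c_mm_022_b : CertN 0 536870912 1239849684 370763052 33554432 16777216 3 false false false .pp 0 2 2
    ndN2q0 ndN1q2b pcN2 Cut.none Ext.none :=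
  certNK0 (fam := false) (s1 := false) (s2 := false) (a := 0) (b := 2) (c := 2) (cn := .pp) (n1 := ndN2q0) (n2 := ndN1q2b) (pc := pcN2) (cut := Cut.none) (xt := Ext.none) (P1 := 0) (W1 := 536870912) (P2 := 1239849684) (W2 := 370763052) (P3 := 33554432) (W3 := 16777216) (N0 := 3)
    rfl rfl rfl k0_mm_022_b

noncomputable def f_mm_023 : ℕ → ℕ → ℕ → ℕ → Bool := onCell 0 536870912 1610612736 536870912 33554432 16777216
    (rowNK 3 0 false false false .up 0 2 3 (qsf 0 536870912 1610612736 536870912 2) ndN2q0 ndN1q3 pcN2 Cut.none Ext.none)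

def k0_mm_023 : ∃ t, chk3 f_mm_023 t 1 1 1 = true :=
  ⟨(l 5), by decide +kernel⟩

theorem c_mm_023 : CertN 0 536870912 1610612736 536870912 33554432 16777216 3 false false false .up 0 2 3
    ndN2q0 ndN1q3 pcN2 Cut.none Ext.none :=
  certNK0 (fam := false) (s1 := false) (s2 := false) (a := 0) (b := 2) (c := 3) (cn := .up) (n1 := ndN2q0) (n2 := ndN1q3) (pc := pcN2) (cut := Cut.none) (xt := Ext.none) (P1 := 0) (W1 := 536870912) (P2 := 1610612736) (W2 := 536870912) (P3 := 33554432) (W3 := 16777216) (N0 := 3)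
    rfl rfl rfl k0_mm_023

noncomputable def f_mm_033 : ℕ → ℕ → ℕ → ℕ → Bool := onCell 0 536870912 1610612736 536870912 33554432 16777216
    (rowNK 3 0 false false false .pnn 0 3 3 (qsf 0 536870912 1610612736 536870912 3) ndN2q0 ndN1q3 pcN3 Cut.none Ext.none)

def k0_mm_033 : ∃ t, chk3 f_mm_033 t 1 1 1 = true :=
  ⟨(l 5), by decide +kernel⟩

theorem c_mm_033 : CertN 0 536870912 1610612736 536870912 33554432 16777216 3 false false false .pnn 0 3 3
    ndN2q0 ndN1q3 pcN3 Cut.none Ext.none :=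
  certNK0 (fam := false) (s1 := false) (s2 := false) (a := 0) (b := 3) (c := 3) (cn := .pnn) (n1 := ndN2q0) (n2 := ndN1q3) (pc := pcN3) (cut := Cut.none) (xt := Ext.none) (P1 := 0) (W1 := 536870912) (P2 := 1610612736) (W2 := 536870912) (P3 := 33554432) (W3 := 16777216) (N0 := 3)
    rfl rfl rfl k0_mm_033

noncomputable def f_mm_101 : ℕ → ℕ → ℕ → ℕ → Bool := onCell 536870912 536870912 536870912 536870912 33554432 16777216
    (rowNK 3 0 false false false .npn 1 0 1 (qsf 536870912 536870912 536870912 536870912 0) ndN2q1 ndN1q1 pcN0 Cut.none Ext.none)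

def k0_mm_101 : ∃ t, chk3 f_mm_101 t 1 1 1 = true :=
  ⟨(l 3), by decide +kernel⟩

theorem c_mm_101 : CertN 536870912 536870912 536870912 536870912 33554432 16777216 3 false false false .npn 1 0 1
    ndN2q1 ndN1q1 pcN0 Cut.none Ext.none :=
  certNK0 (fam := false) (s1 := false) (s2 := false) (a := 1) (b := 0) (c := 1) (cn := .npn) (n1 := ndN2q1) (n2 := ndN1q1) (pc := pcN0) (cut := Cut.none) (xt := Ext.none) (P1 := 536870912) (W1 := 536870912) (P2 := 536870912) (W2 := 536870912) (P3 := 33554432) (W3 := 16777216) (N0 := 3)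
    rfl rfl rfl k0_mm_101

noncomputable def f_mm_102_a : ℕ → ℕ → ℕ → ℕ → Bool := onCell 536870912 536870912 0 536870912 33554432 16777216
    (rowNK 3 0 false false false .npp 1 0 2 (qsf 536870912 536870912 0 536870912 0) ndN2q1 ndN1q2a pcN0 Cut.none Ext.none)

def k0_mm_102_a : ∃ t, chk3 f_mm_102_a t 1 1 1 = true :=
  ⟨(l 5), by decide +kernel⟩

theorem c_mm_102_a : CertN 536870912 536870912 0 536870912 33554432 16777216 3 false false false .npp 1 0 2
    ndN2q1 ndN1q2a pcN0 Cut.none Ext.none :=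
  certNK0 (fam := false) (s1 := false) (s2 := false) (a := 1) (b := 0) (c := 2) (cn := .npp) (n1 := ndN2q1) (n2 := ndN1q2a) (pc := pcN0) (cut := Cut.none) (xt := Ext.none) (P1 := 536870912) (W1 := 536870912) (P2 := 0) (W2 := 536870912) (P3 := 33554432) (W3 := 16777216) (N0 := 3)
    rfl rfl rfl k0_mm_102_a

noncomputable def f_mm_102_b : ℕ → ℕ → ℕ → ℕ → Bool := onCell 536870912 536870912 1239849684 370763052 33554432 16777216
    (rowNK 3 0 false false false .npp 1 0 2 (qsf 536870912 536870912 1239849684 370763052 0) ndN2q1 ndN1q2b pcN0 Cut.none Ext.none)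

def k0_mm_102_b : ∃ t, chk3 f_mm_102_b t 1 1 1 = true :=
  ⟨(l 5), by decide +kernel⟩

theorem c_mm_102_b : CertN 536870912 536870912 1239849684 370763052 33554432 16777216 3 false false false .npp 1 0 2
    ndN2q1 ndN1q2b pcN0 Cut.none Ext.none :=
  certNK0 (fam := false) (s1 := false) (s2 := false) (a := 1) (b := 0) (c := 2) (cn := .npp) (n1 := ndN2q1) (n2 := ndN1q2b) (pc := pcN0) (cut := Cut.none) (xt := Ext.none) (P1 := 536870912) (W1 := 536870912) (P2 := 1239849684) (W2 := 370763052) (P3 := 33554432) (W3 := 16777216) (N0 := 3)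
    rfl rfl rfl k0_mm_102_b

noncomputable def f_mm_112_a : ℕ → ℕ → ℕ → ℕ → Bool := onCell 536870912 536870912 0 536870912 33554432 16777216
    (rowNK 3 0 false false false .dn 1 1 2 (qsf 536870912 536870912 0 536870912 1) ndN2q1 ndN1q2a pcN1 Cut.none Ext.none)

def k0_mm_112_a : ∃ t, chk3 f_mm_112_a t 1 1 1 = true :=
  ⟨(l 5), by decide +kernel⟩

theorem c_mm_112_a : CertN 536870912 536870912 0 536870912 33554432 16777216 3 false false false .dn 1 1 2
    ndN2q1 ndN1q2a pcN1 Cut.none Ext.none :=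
  certNK0 (fam := false) (s1 := false) (s2 := false) (a := 1) (b := 1) (c := 2) (cn := .dn) (n1 := ndN2q1) (n2 := ndN1q2a) (pc := pcN1) (cut := Cut.none) (xt := Ext.none) (P1 := 536870912) (W1 := 536870912) (P2 := 0) (W2 := 536870912) (P3 := 33554432) (W3 := 16777216) (N0 := 3)
    rfl rfl rfl k0_mm_112_a

noncomputable def f_mm_112_b : ℕ → ℕ → ℕ → ℕ → Bool := onCell 536870912 536870912 1239849684 370763052 33554432 16777216
    (rowNK 3 0 false false false .dn 1 1 2 (qsf 536870912 536870912 1239849684 370763052 1) ndN2q1 ndN1q2b pcN1 Cut.none Ext.none)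

def k0_mm_112_b : ∃ t, chk3 f_mm_112_b t 1 1 1 = true :=
  ⟨(l 5), by decide +kernel⟩

theorem c_mm_112_b : CertN 536870912 536870912 1239849684 370763052 33554432 16777216 3 false false false .dn 1 1 2
    ndN2q1 ndN1q2b pcN1 Cut.none Ext.none :=
  certNK0 (fam := false) (s1 := false) (s2 := false) (a := 1) (b := 1) (c := 2) (cn := .dn) (n1 := ndN2q1) (n2 := ndN1q2b) (pc := pcN1) (cut := Cut.none) (xt := Ext.none) (P1 := 536870912) (W1 := 536870912) (P2 := 1239849684) (W2 := 370763052) (P3 := 33554432) (W3 := 16777216) (N0 := 3)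
    rfl rfl rfl k0_mm_112_b

noncomputable def f_mm_113 : ℕ → ℕ → ℕ → ℕ → Bool := onCell 536870912 536870912 1610612736 536870912 33554432 16777216
    (rowNK 3 0 false false false .nn 1 1 3 (qsf 536870912 536870912 1610612736 536870912 1) ndN2q1 ndN1q3 pcN1 Cut.none Ext.none)

def k0_mm_113 : ∃ t, chk3 f_mm_113 t 1 1 1 = true :=
  ⟨(l 5), by decide +kernel⟩

theorem c_mm_113 : CertN 536870912 536870912 1610612736 536870912 33554432 16777216 3 false false false .nn 1 1 3
    ndN2q1 ndN1q3 pcN1 Cut.none Ext.none :=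
  certNK0 (fam := false) (s1 := false) (s2 := false) (a := 1) (b := 1) (c := 3) (cn := .nn) (n1 := ndN2q1) (n2 := ndN1q3) (pc := pcN1) (cut := Cut.none) (xt := Ext.none) (P1 := 536870912) (W1 := 536870912) (P2 := 1610612736) (W2 := 536870912) (P3 := 33554432) (W3 := 16777216) (N0 := 3)
    rfl rfl rfl k0_mm_113

noncomputable def f_mm_123 : ℕ → ℕ → ℕ → ℕ → Bool := onCell 536870912 536870912 1610612736 536870912 33554432 16777216
    (rowNK 3 0 false false false .npn 1 2 3 (qsf 536870912 536870912 1610612736 536870912 2) ndN2q1 ndN1q3 pcN2 Cut.none Ext.none)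

def k0_mm_123 : ∃ t, chk3 f_mm_123 t 1 1 1 = true :=
  ⟨(l 5), by decide +kernel⟩

theorem c_mm_123 : CertN 536870912 536870912 1610612736 536870912 33554432 16777216 3 false false false .npn 1 2 3
    ndN2q1 ndN1q3 pcN2 Cut.none Ext.none :=
  certNK0 (fam := false) (s1 := false) (s2 := false) (a := 1) (b := 2) (c := 3) (cn := .npn) (n1 := ndN2q1) (n2 := ndN1q3) (pc := pcN2) (cut := Cut.none) (xt := Ext.none) (P1 := 536870912) (W1 := 536870912) (P2 := 1610612736) (W2 := 536870912) (P3 := 33554432) (W3 := 16777216) (N0 := 3)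
    rfl rfl rfl k0_mm_123

noncomputable def f_mm_133 : ℕ → ℕ → ℕ → ℕ → Bool := onCell 536870912 536870912 1610612736 536870912 33554432 16777216
    (rowNK 3 0 false false false .dn 1 3 3 (qsf 536870912 536870912 1610612736 536870912 3) ndN2q1 ndN1q3 pcN3 Cut.none Ext.none)

def k0_mm_133 : ∃ t, chk3 f_mm_133 t 1 1 1 = true :=
  ⟨(l 5), by decide +kernel⟩

theorem c_mm_133 : CertN 536870912 536870912 1610612736 536870912 33554432 16777216 3 false false false .dn 1 3 3
    ndN2q1 ndN1q3 pcN3 Cut.none Ext.none :=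
  certNK0 (fam := false) (s1 := false) (s2 := false) (a := 1) (b := 3) (c := 3) (cn := .dn) (n1 := ndN2q1) (n2 := ndN1q3) (pc := pcN3) (cut := Cut.none) (xt := Ext.none) (P1 := 536870912) (W1 := 536870912) (P2 := 1610612736) (W2 := 536870912) (P3 := 33554432) (W3 := 16777216) (N0 := 3)
    rfl rfl rfl k0_mm_133

noncomputable def f_mm_202_aa : ℕ → ℕ → ℕ → ℕ → Bool := onCell 0 536870912 0 536870912 33554432 16777216
    (rowNK 3 0 false false false .pp 2 0 2 (qsf 0 536870912 0 536870912 0) ndN2q2a ndN1q2a pcN0 Cut.none Ext.none)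

def k0_mm_202_aa : ∃ t, chk3 f_mm_202_aa t 1 1 1 = true :=
  ⟨(l 3), by decide +kernel⟩

theorem c_mm_202_aa : CertN 0 536870912 0 536870912 33554432 16777216 3 false false false .pp 2 0 2
    ndN2q2a ndN1q2a pcN0 Cut.none Ext.none :=
  certNK0 (fam := false) (s1 := false) (s2 := false) (a := 2) (b := 0) (c := 2) (cn := .pp) (n1 := ndN2q2a) (n2 := ndN1q2a) (pc := pcN0) (cut := Cut.none) (xt := Ext.none) (P1 := 0) (W1 := 536870912) (P2 := 0) (W2 := 536870912) (P3 := 33554432) (W3 := 16777216) (N0 := 3)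
    rfl rfl rfl k0_mm_202_aa

noncomputable def f_mm_202_ab : ℕ → ℕ → ℕ → ℕ → Bool := onCell 0 536870912 1239849684 370763052 33554432 16777216
    (rowNK 3 0 false false false .pp 2 0 2 (qsf 0 536870912 1239849684 370763052 0) ndN2q2a ndN1q2b pcN0 Cut.none Ext.none)

def k0_mm_202_ab : ∃ t, chk3 f_mm_202_ab t 1 1 1 = true :=
  ⟨(l 3), by decide +kernel⟩

theorem c_mm_202_ab : CertN 0 536870912 1239849684 370763052 33554432 16777216 3 false false false .pp 2 0 2
    ndN2q2a ndN1q2b pcN0 Cut.none Ext.none :=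
  certNK0 (fam := false) (s1 := false) (s2 := false) (a := 2) (b := 0) (c := 2) (cn := .pp) (n1 := ndN2q2a) (n2 := ndN1q2b) (pc := pcN0) (cut := Cut.none) (xt := Ext.none) (P1 := 0) (W1 := 536870912) (P2 := 1239849684) (W2 := 370763052) (P3 := 33554432) (W3 := 16777216) (N0 := 3)
    rfl rfl rfl k0_mm_202_ab

noncomputable def f_mm_202_ba : ℕ → ℕ → ℕ → ℕ → Bool := onCell 1239849684 370763052 0 536870912 33554432 16777216
    (rowNK 3 0 false false false .pp 2 0 2 (qsf 1239849684 370763052 0 536870912 0) ndN2q2b ndN1q2a pcN0 Cut.none Ext.none)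

def k0_mm_202_ba : ∃ t, chk3 f_mm_202_ba t 1 1 1 = true :=
  ⟨(l 3), by decide +kernel⟩

theorem c_mm_202_ba : CertN 1239849684 370763052 0 536870912 33554432 16777216 3 false false false .pp 2 0 2
    ndN2q2b ndN1q2a pcN0 Cut.none Ext.none :=
  certNK0 (fam := false) (s1 := false) (s2 := false) (a := 2) (b := 0) (c := 2) (cn := .pp) (n1 := ndN2q2b) (n2 := ndN1q2a) (pc := pcN0) (cut := Cut.none) (xt := Ext.none) (P1 := 1239849684) (W1 := 370763052) (P2 := 0) (W2 := 536870912) (P3 := 33554432) (W3 := 16777216) (N0 := 3)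
    rfl rfl rfl k0_mm_202_ba

noncomputable def f_mm_202_bb : ℕ → ℕ → ℕ → ℕ → Bool := onCell 1239849684 370763052 1239849684 370763052 33554432 16777216
    (rowNK 3 0 false false false .pp 2 0 2 (qsf 1239849684 370763052 1239849684 370763052 0) ndN2q2b ndN1q2b pcN0 Cut.none Ext.none)

def k0_mm_202_bb : ∃ t, chk3 f_mm_202_bb t 1 1 1 = true :=
  ⟨(l 3), by decide +kernel⟩

theorem c_mm_202_bb : CertN 1239849684 370763052 1239849684 370763052 33554432 16777216 3 false false false .pp 2 0 2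
    ndN2q2b ndN1q2b pcN0 Cut.none Ext.none :=
  certNK0 (fam := false) (s1 := false) (s2 := false) (a := 2) (b := 0) (c := 2) (cn := .pp) (n1 := ndN2q2b) (n2 := ndN1q2b) (pc := pcN0) (cut := Cut.none) (xt := Ext.none) (P1 := 1239849684) (W1 := 370763052) (P2 := 1239849684) (W2 := 370763052) (P3 := 33554432) (W3 := 16777216) (N0 := 3)
    rfl rfl rfl k0_mm_202_bb

noncomputable def f_mm_203_a : ℕ → ℕ → ℕ → ℕ → Bool := onCell 0 536870912 1610612736 536870912 33554432 16777216
    (rowNK 3 0 false false false .up 2 0 3 (qsf 0 536870912 1610612736 536870912 0) ndN2q2a ndN1q3 pcN0 Cut.none Ext.none)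

def k0_mm_203_a : ∃ t, chk3 f_mm_203_a t 1 1 1 = true :=
  ⟨(l 5), by decide +kernel⟩

theorem c_mm_203_a : CertN 0 536870912 1610612736 536870912 33554432 16777216 3 false false false .up 2 0 3
    ndN2q2a ndN1q3 pcN0 Cut.none Ext.none :=
  certNK0 (fam := false) (s1 := false) (s2 := false) (a := 2) (b := 0) (c := 3) (cn := .up) (n1 := ndN2q2a) (n2 := ndN1q3) (pc := pcN0) (cut := Cut.none) (xt := Ext.none) (P1 := 0) (W1 := 536870912) (P2 := 1610612736) (W2 := 536870912) (P3 := 33554432) (W3 := 16777216) (N0 := 3)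
    rfl rfl rfl k0_mm_203_a

noncomputable def f_mm_203_b : ℕ → ℕ → ℕ → ℕ → Bool := onCell 1239849684 370763052 1610612736 536870912 33554432 16777216
    (rowNK 3 0 false false false .up 2 0 3 (qsf 1239849684 370763052 1610612736 536870912 0) ndN2q2b ndN1q3 pcN0 Cut.none Ext.none)

def k0_mm_203_b : ∃ t, chk3 f_mm_203_b t 1 1 1 = true :=
  ⟨(l 3), by decide +kernel⟩

theorem c_mm_203_b : CertN 1239849684 370763052 1610612736 536870912 33554432 16777216 3 false false false .up 2 0 3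
    ndN2q2b ndN1q3 pcN0 Cut.none Ext.none :=
  certNK0 (fam := false) (s1 := false) (s2 := false) (a := 2) (b := 0) (c := 3) (cn := .up) (n1 := ndN2q2b) (n2 := ndN1q3) (pc := pcN0) (cut := Cut.none) (xt := Ext.none) (P1 := 1239849684) (W1 := 370763052) (P2 := 1610612736) (W2 := 536870912) (P3 := 33554432) (W3 := 16777216) (N0 := 3)
    rfl rfl rfl k0_mm_203_b

noncomputable def f_mm_213_a : ℕ → ℕ → ℕ → ℕ → Bool := onCell 0 536870912 1610612736 536870912 33554432 16777216
    (rowNK 3 0 false false false .pnn 2 1 3 (qsf 0 536870912 1610612736 536870912 1) ndN2q2a ndN1q3 pcN1 Cut.none Ext.none)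

def k0_mm_213_a : ∃ t, chk3 f_mm_213_a t 1 1 1 = true :=
  ⟨(l 5), by decide +kernel⟩

theorem c_mm_213_a : CertN 0 536870912 1610612736 536870912 33554432 16777216 3 false false false .pnn 2 1 3
    ndN2q2a ndN1q3 pcN1 Cut.none Ext.none :=
  certNK0 (fam := false) (s1 := false) (s2 := false) (a := 2) (b := 1) (c := 3) (cn := .pnn) (n1 := ndN2q2a) (n2 := ndN1q3) (pc := pcN1) (cut := Cut.none) (xt := Ext.none) (P1 := 0) (W1 := 536870912) (P2 := 1610612736) (W2 := 536870912) (P3 := 33554432) (W3 := 16777216) (N0 := 3)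
    rfl rfl rfl k0_mm_213_a

noncomputable def f_mm_213_b : ℕ → ℕ → ℕ → ℕ → Bool := onCell 1239849684 370763052 1610612736 536870912 33554432 16777216
    (rowNK 3 0 false false false .pnn 2 1 3 (qsf 1239849684 370763052 1610612736 536870912 1) ndN2q2b ndN1q3 pcN1 Cut.none Ext.none)

def k0_mm_213_b : ∃ t, chk3 f_mm_213_b t 1 1 1 = true :=
  ⟨(l 3), by decide +kernel⟩

theorem c_mm_213_b : CertN 1239849684 370763052 1610612736 536870912 33554432 16777216 3 false false false .pnn 2 1 3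
    ndN2q2b ndN1q3 pcN1 Cut.none Ext.none :=
  certNK0 (fam := false) (s1 := false) (s2 := false) (a := 2) (b := 1) (c := 3) (cn := .pnn) (n1 := ndN2q2b) (n2 := ndN1q3) (pc := pcN1) (cut := Cut.none) (xt := Ext.none) (P1 := 1239849684) (W1 := 370763052) (P2 := 1610612736) (W2 := 536870912) (P3 := 33554432) (W3 := 16777216) (N0 := 3)
    rfl rfl rfl k0_mm_213_b

noncomputable def f_mm_303 : ℕ → ℕ → ℕ → ℕ → Bool := onCell 1610612736 536870912 1610612736 536870912 33554432 16777216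
    (rowNK 3 0 false false false .npn 3 0 3 (qsf 1610612736 536870912 1610612736 536870912 0) ndN2q3 ndN1q3 pcN0 Cut.none Ext.none)

def k0_mm_303 : ∃ t, chk3 f_mm_303 t 1 1 1 = true :=
  ⟨(l 3), by decide +kernel⟩

theorem c_mm_303 : CertN 1610612736 536870912 1610612736 536870912 33554432 16777216 3 false false false .npn 3 0 3
    ndN2q3 ndN1q3 pcN0 Cut.none Ext.none :=
  certNK0 (fam := false) (s1 := false) (s2 := false) (a := 3) (b := 0) (c := 3) (cn := .npn) (n1 := ndN2q3) (n2 := ndN1q3) (pc := pcN0) (cut := Cut.none) (xt := Ext.none) (P1 := 1610612736) (W1 := 536870912) (P2 := 1610612736) (W2 := 536870912) (P3 := 33554432) (W3 := 16777216) (N0 := 3)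
    rfl rfl rfl k0_mm_303

noncomputable def f_mm_313 : ℕ → ℕ → ℕ → ℕ → Bool := onCell 1610612736 536870912 1610612736 536870912 33554432 16777216
    (rowNK 3 0 false false false .dn 3 1 3 (qsf 1610612736 536870912 1610612736 536870912 1) ndN2q3 ndN1q3 pcN1 Cut.none Ext.none)

def k0_mm_313 : ∃ t, chk3 f_mm_313 t 1 1 1 = true :=
  ⟨(l 3), by decide +kernel⟩

theorem c_mm_313 : CertN 1610612736 536870912 1610612736 536870912 33554432 16777216 3 false false false .dn 3 1 3
    ndN2q3 ndN1q3 pcN1 Cut.none Ext.none :=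
  certNK0 (fam := false) (s1 := false) (s2 := false) (a := 3) (b := 1) (c := 3) (cn := .dn) (n1 := ndN2q3) (n2 := ndN1q3) (pc := pcN1) (cut := Cut.none) (xt := Ext.none) (P1 := 1610612736) (W1 := 536870912) (P2 := 1610612736) (W2 := 536870912) (P3 := 33554432) (W3 := 16777216) (N0 := 3)
    rfl rfl rfl k0_mm_313

end Pool.Agent.Strip051.G.I1_32_3_64.Tab.C.NB21

namespace Pool.Agent.Strip051.G.I1_32_3_64.Tab.C.NB22

open Pool.Agent.Strip051.PB Pool.Agent.Strip051.PB.T
open Pool.Agent.Strip051.G.I1_32_3_64.Tab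

noncomputable def f_pp_001 : ℕ → ℕ → ℕ → ℕ → Bool := onCell 0 536870912 0 536870912 33554432 16777216
    (rowNK 3 1 false true true .up 0 0 1 (qsf 0 536870912 536870912 536870912 0) ndN2q0 ndN2q1 pcN0 Cut.none Ext.none)

def k0_pp_001 : ∃ t, chk3 f_pp_001 t 1 1 1 = true :=
  ⟨(l 3), by decide +kernel⟩

theorem c_pp_001 : CertN 0 536870912 536870912 536870912 33554432 16777216 3 false true true .up 0 0 1
    ndN2q0 ndN2q1 pcN0 Cut.none Ext.none :=
  certNK1 (fam := false) (s1 := true) (s2 := true) (a := 0) (b := 0) (c := 1) (cn := .up) (n1 := ndN2q0) (n2 := ndN2q1) (pc := pcN0) (cut := Cut.none) (xt := Ext.none) (P1 := 0) (W1 := 536870912) (P2 := 536870912) (W2 := 536870912) (P3 := 33554432) (W3 := 16777216) (N0 := 3)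
    rfl rfl rfl (fun _ => rfl) k0_pp_001

noncomputable def cut_pp_011 : Cut := Cut.of [[⟨0, 0, 0, 33554432⟩, ⟨1, 1, 0, 33554432⟩, ⟨2, 1, 0, 33554432⟩]]

noncomputable def f_pp_011 : ℕ → ℕ → ℕ → ℕ → Bool := onCell 0 536870912 536870912 536870912 33554432 16777216
    (rowNK 3 1 false true true .pnn 0 1 1 (qsf 0 536870912 536870912 536870912 1) ndN2q0 ndN2q1 pcN1 cut_pp_011 Ext.none)

def k0_pp_011 : ∃ t, chk3 f_pp_011 t 1 1 1 = true :=
  ⟨(a (b (l 3) (a (b (l 3) (a (b (l 3) (a (b (l 3) (a (b (l 3) (l 6)) (l 3))) (l 3))) (l 3))) (l 3))) (l 3)), by decide +kernel⟩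

theorem c_pp_011 : CertN 0 536870912 536870912 536870912 33554432 16777216 3 false true true .pnn 0 1 1
    ndN2q0 ndN2q1 pcN1 cut_pp_011 Ext.none :=
  certNK1 (fam := false) (s1 := true) (s2 := true) (a := 0) (b := 1) (c := 1) (cn := .pnn) (n1 := ndN2q0) (n2 := ndN2q1) (pc := pcN1) (cut := cut_pp_011) (xt := Ext.none) (P1 := 0) (W1 := 536870912) (P2 := 536870912) (W2 := 536870912) (P3 := 33554432) (W3 := 16777216) (N0 := 3)
    rfl rfl rfl (fun _ => rfl) k0_pp_011

noncomputable def cut_pp_012_a : Cut := Cut.of [[⟨0, 0, 0, 33554432⟩, ⟨1, 1, 0, 33554432⟩, ⟨2, 1, 0, 33554432⟩]]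

noncomputable def f_pp_012_a : ℕ → ℕ → ℕ → ℕ → Bool := onCell 536870912 536870912 0 536870912 33554432 16777216
    (rowNK 3 2 false true true .pnp 0 1 2 (qsf 0 536870912 0 536870912 1) ndN2q0 ndN2q2a pcN1 cut_pp_012_a Ext.none)

def k0_pp_012_a : ∃ t, chk3 f_pp_012_a t 1 1 1 = true :=
  ⟨(a (b (a (l 17791336) (l 17547144)) (b (a (l 17940184) (l 17676552)) (b (a (l 18069216) (l 17786920)) (b (a (l 18147272) (l 17850984)) (b (a (l 18189920) (l 17886376)) (a (l 18218784) (l 17910688))))))) (b (a (l 17315760) (a (l 17301120) (l 17973720))) (a (b (l 17589104) (b (a (l 17643856) (l 17401072)) (b (a (l 17699616) (l 17441736)) (b (a (l 17730784) (l 17464640)) (a (l 17753200) (l 17481304)))))) (b (a (l 17065232) (b (l 17751336) (l 17498008))) (b (a (l 17109824) (a (l 16984032) (b (l 17508016) (l 17160912)))) (b (a (l 17130176) (a (l 16938520) (a (l 16867616) (b (l 16816912) (l 16812360))))) (b (a (l 17141784) (a (l 16941824) (a (l 16859080) (a (l 16821936)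 (l 6))))) (a (l 17192400) (a (l 16944568) (a (l 16858920) (l 6))))))))))), by decide +kernel⟩

theorem c_pp_012_a : CertN 0 536870912 0 536870912 33554432 16777216 3 false true true .pnp 0 1 2
    ndN2q0 ndN2q2a pcN1 cut_pp_012_a Ext.none :=
  certNK2 (fam := false) (s1 := true) (s2 := true) (a := 0) (b := 1) (c := 2) (cn := .pnp) (n1 := ndN2q0) (n2 := ndN2q2a) (pc := pcN1) (cut := cut_pp_012_a) (xt := Ext.none) (P1 := 0) (W1 := 536870912) (P2 := 0) (W2 := 536870912) (P3 := 33554432) (W3 := 16777216) (N0 := 3)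
    rfl rfl rfl (fun _ => rfl) k0_pp_012_a

noncomputable def cut_pp_012_b : Cut := Cut.of [[⟨0, 0, 0, 33554432⟩, ⟨1, 1, 0, 33554432⟩, ⟨2, 1, 0, 33554432⟩]]

noncomputable def f_pp_012_b : ℕ → ℕ → ℕ → ℕ → Bool := onCell 536870912 536870912 1239849684 370763052 33554432 16777216
    (rowNK 3 2 false true true .pnp 0 1 2 (qsf 0 536870912 1239849684 370763052 1) ndN2q0 ndN2q2b pcN1 cut_pp_012_b Ext.none)

def k0_pp_012_b : ∃ t, chk3 f_pp_012_b t 1 1 1 = true :=
  ⟨(a (a (l 2) (b (l 17442568) (l 2))) (a (b (a (l 17163680) (l 17361200)) (l 17824048)) (a (b (l 17874232) (l 18404424)) (a (b (l 18334744) (l 18749976)) (a (l 18944432) (a (l 18921536) (l 18993016))))))), by decide +kernel⟩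

theorem c_pp_012_b : CertN 0 536870912 1239849684 370763052 33554432 16777216 3 false true true .pnp 0 1 2
    ndN2q0 ndN2q2b pcN1 cut_pp_012_b Ext.none :=
  certNK2 (fam := false) (s1 := true) (s2 := true) (a := 0) (b := 1) (c := 2) (cn := .pnp) (n1 := ndN2q0) (n2 := ndN2q2b) (pc := pcN1) (cut := cut_pp_012_b) (xt := Ext.none) (P1 := 0) (W1 := 536870912) (P2 := 1239849684) (W2 := 370763052) (P3 := 33554432) (W3 := 16777216) (N0 := 3)
    rfl rfl rfl (fun _ => rfl) k0_pp_012_b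

noncomputable def cut_pp_022_a : Cut := Cut.of [[⟨0, 0, 0, 33554432⟩, ⟨1, 1, 0, 33554432⟩, ⟨2, 1, 0, 33554432⟩]]

noncomputable def f_pp_022_a : ℕ → ℕ → ℕ → ℕ → Bool := onCell 0 536870912 0 536870912 33554432 16777216
    (rowNK 3 0 false true true .pp 0 2 2 (qsf 0 536870912 0 536870912 2) ndN2q0 ndN2q2a pcN2 cut_pp_022_a Ext.none)

def k0_pp_022_a : ∃ t, chk3 f_pp_022_a t 1 1 1 = true :=
  ⟨(a (b (a (a (l 19397584) (b (l 19020016) (a (l 18930344) (b (l 18796136) (a (l 18670944) (b (l 18609544) (a (l 18516560) (l 18466272)))))))) (a (a (b (a (l 18771216) (b (l 18700920) (l 18661128))) (b (a (a (l 18657736) (l 18609992)) (l 18592936)) (l 18506864))) (l 18641056)) (l 1))) (a (b (a (a (b (l 19099496) (a (l 18776584) (l 18626960))) (l 18636680)) (b (a (l 18571712) (b (a (b (l 18502792) (a (l 18450392) (l 18380768))) (l 18380184)) (l 18288984))) (a (b (a (l 18311336) (b (a (l 18264144) (l 18189320)) (l 18102376))) (a (a (l 18022560) (l 17955472)) (l 17922528)))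 (l 18047624)))) (a (b (a (a (a (b (b (l 18354240) (l 17847856)) (a (b (c (l 17974616) (b (l 17481808) (l 16999912))) (a (b (c (l 17577720) (l 16859392)) (l 16758824)) (l 17053496))) (l 17360672))) (b (l 18135472) (l 17322488))) (b (l 18015728) (l 17245072))) (b (a (l 17853448) (b (l 17821384) (a (l 17584992) (l 17522176)))) (a (b (l 17351376) (a (b (l 17051592) (l 16793864)) (l 16899008))) (l 17091888)))) (a (a (b (a (a (b (a (a (l 16731520) (l 16726016)) (l 16727616)) (l 6)) (l 16757992)) (l 16770528)) (l 6)) (a (b (b (l 16747752) (l 6)) (l 6)) (b (l 16749736) (l 1)))) (b (a (l 170221601415) (l 1)) (l 1)))) (b (a (b (l 17620112) (l 1)) (l 1)) (l 1)))) (b (l 1) (l 1)))) (l 1)), by decide +kernel⟩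

theorem c_pp_022_a : CertN 0 536870912 0 536870912 33554432 16777216 3 false true true .pp 0 2 2
    ndN2q0 ndN2q2a pcN2 cut_pp_022_a Ext.none :=
  certNK0 (fam := false) (s1 := true) (s2 := true) (a := 0) (b := 2) (c := 2) (cn := .pp) (n1 := ndN2q0) (n2 := ndN2q2a) (pc := pcN2) (cut := cut_pp_022_a) (xt := Ext.none) (P1 := 0) (W1 := 536870912) (P2 := 0) (W2 := 536870912) (P3 := 33554432) (W3 := 16777216) (N0 := 3)
    rfl rfl rfl k0_pp_022_a

noncomputable def cut_pp_022_b : Cut := Cut.of [[⟨0, 0, 0, 33554432⟩, ⟨1, 1, 0, 33554432⟩, ⟨2, 1, 0, 33554432⟩]]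

noncomputable def f_pp_022_b : ℕ → ℕ → ℕ → ℕ → Bool := onCell 1073741824 536870912 1239849684 370763052 33554432 16777216
    (rowNK 3 2 false true true .pp 0 2 2 (qsf 0 536870912 1239849684 370763052 2) ndN2q0 ndN2q2b pcN2 cut_pp_022_b Ext.none)

def k0_pp_022_b : ∃ t, chk3 f_pp_022_b t 1 1 1 = true :=
  ⟨(a (a (a (a (a (a (l 19243064) (l 19260200)) (l 19289672)) (l 19343616)) (b (l 19347944) (l 19504016))) (b (b (a (l 19668056) (b (l 683475565287) (l 19649856))) (l 19609176)) (l 19603864))) (b (a (b (l 1) (a (l 19656944) (l 788702138951))) (l 1)) (a (l 19630160) (b (a (l 788166005575) (l 1)) (l 19543464))))), by decide +kernel⟩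

theorem c_pp_022_b : CertN 0 536870912 1239849684 370763052 33554432 16777216 3 false true true .pp 0 2 2
    ndN2q0 ndN2q2b pcN2 cut_pp_022_b Ext.none :=
  certNK2 (fam := false) (s1 := true) (s2 := true) (a := 0) (b := 2) (c := 2) (cn := .pp) (n1 := ndN2q0) (n2 := ndN2q2b) (pc := pcN2) (cut := cut_pp_022_b) (xt := Ext.none) (P1 := 0) (W1 := 536870912) (P2 := 1239849684) (W2 := 370763052) (P3 := 33554432) (W3 := 16777216) (N0 := 3)
    rfl rfl rfl (fun _ => rfl) k0_pp_022_b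

noncomputable def f_pp_023 : ℕ → ℕ → ℕ → ℕ → Bool := onCell 0 536870912 1073741824 536870912 33554432 16777216
    (rowNK 3 1 false true true .up 0 2 3 (qsf 0 536870912 1610612736 536870912 2) ndN2q0 ndN2q3 pcN2 Cut.none Ext.none)

def k0_pp_023 : ∃ t, chk3 f_pp_023 t 1 1 1 = true :=
  ⟨(a (b (b (l 1) (l 559996048999)) (b (l 566438881815) (l 631400119303))) (b (b (b (b (b (b (l 19287200) (l 19301832)) (l 19323848)) (l 19362296)) (l 19427152)) (l 19514832)) (b (l 19446272) (l 19153296)))), by decide +kernel⟩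

theorem c_pp_023 : CertN 0 536870912 1610612736 536870912 33554432 16777216 3 false true true .up 0 2 3
    ndN2q0 ndN2q3 pcN2 Cut.none Ext.none :=
  certNK1 (fam := false) (s1 := true) (s2 := true) (a := 0) (b := 2) (c := 3) (cn := .up) (n1 := ndN2q0) (n2 := ndN2q3) (pc := pcN2) (cut := Cut.none) (xt := Ext.none) (P1 := 0) (W1 := 536870912) (P2 := 1610612736) (W2 := 536870912) (P3 := 33554432) (W3 := 16777216) (N0 := 3)
    rfl rfl rfl (fun _ => rfl) k0_pp_023

noncomputable def f_pp_033 : ℕ → ℕ → ℕ → ℕ → Bool := onCell 0 536870912 1610612736 536870912 33554432 16777216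
    (rowNK 3 1 false true true .pnn 0 3 3 (qsf 0 536870912 1610612736 536870912 3) ndN2q0 ndN2q3 pcN3 Cut.none Ext.none)

def k0_pp_033 : ∃ t, chk3 f_pp_033 t 1 1 1 = true :=
  ⟨(a (b (b (a (l 19515800) (l 18982216)) (a (l 19429952) (l 18782472))) (b (b (l 18657536) (l 18470320)) (a (l 4) (a (b (l 4) (l 2)) (l 2))))) (b (b (l 18385080) (a (l 4) (a (b (l 4) (l 2)) (l 2)))) (a (b (a (b (l 4) (l 2)) (l 2)) (l 2)) (l 2)))), by decide +kernel⟩

theorem c_pp_033 : CertN 0 536870912 1610612736 536870912 33554432 16777216 3 false true true .pnn 0 3 3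
    ndN2q0 ndN2q3 pcN3 Cut.none Ext.none :=
  certNK1 (fam := false) (s1 := true) (s2 := true) (a := 0) (b := 3) (c := 3) (cn := .pnn) (n1 := ndN2q0) (n2 := ndN2q3) (pc := pcN3) (cut := Cut.none) (xt := Ext.none) (P1 := 0) (W1 := 536870912) (P2 := 1610612736) (W2 := 536870912) (P3 := 33554432) (W3 := 16777216) (N0 := 3)
    rfl rfl rfl (fun _ => rfl) k0_pp_033

noncomputable def f_pp_101 : ℕ → ℕ → ℕ → ℕ → Bool := onCell 536870912 536870912 536870912 536870912 33554432 16777216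
    (rowNK 3 0 false true true .npn 1 0 1 (qsf 536870912 536870912 536870912 536870912 0) ndN2q1 ndN2q1 pcN0 Cut.none Ext.none)

def k0_pp_101 : ∃ t, chk3 f_pp_101 t 1 1 1 = true :=
  ⟨(l 3), by decide +kernel⟩

theorem c_pp_101 : CertN 536870912 536870912 536870912 536870912 33554432 16777216 3 false true true .npn 1 0 1
    ndN2q1 ndN2q1 pcN0 Cut.none Ext.none :=
  certNK0 (fam := false) (s1 := true) (s2 := true) (a := 1) (b := 0) (c := 1) (cn := .npn) (n1 := ndN2q1) (n2 := ndN2q1) (pc := pcN0) (cut := Cut.none) (xt := Ext.none) (P1 := 536870912) (W1 := 536870912) (P2 := 536870912) (W2 := 536870912) (P3 := 33554432) (W3 := 16777216) (N0 := 3)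
    rfl rfl rfl k0_pp_101

noncomputable def cut_pp_102_a : Cut := Cut.of [[⟨0, 1, 0, 33554432⟩, ⟨1, 0, 0, 33554432⟩, ⟨2, 1, 0, 33554432⟩], [⟨0, 1, 2, 25165824⟩, ⟨1, 0, 1, 25165824⟩, ⟨2, 1, 0, 16777216⟩, ⟨0, 0, 0, 1056964608⟩, ⟨0, 1, 0, 67108864⟩, ⟨1, 0, 0, 67108864⟩, ⟨1, 1, 0, 1056964608⟩]]

noncomputable def f_pp_102_a : ℕ → ℕ → ℕ → ℕ → Bool := onCell 536870912 536870912 0 536870912 33554432 16777216
    (rowNK 3 0 false true true .npp 1 0 2 (qsf 536870912 536870912 0 536870912 0) ndN2q1 ndN2q2a pcN0 cut_pp_102_a Ext.none)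

def k0_pp_102_a : ∃ t, chk3 f_pp_102_a t 2 1 1 = true :=
  ⟨(b (a (l 18919088) (l 19180480)) (a (b (l 18872464) (b (l 18889200) (b (l 18842112) (b (l 18819016) (l 18786392))))) (b (l 19110272) (b (l 19013312) (b (l 18955272) (b (l 18891624) (l 18833560))))))), by decide +kernel⟩

def k1_pp_102_a : ∃ t, chk3 f_pp_102_a t 3 2 1 = true :=
  ⟨(a (l 19534712) (a (l 19933112) (a (l 20287520) (a (l 20539448) (a (l 20677088) (l 20770432)))))), by decide +kernel⟩

def k2_pp_102_a : ∃ t, chk3 f_pp_102_a t 6 3 1 = true :=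
  ⟨(b (a (l 19301608) (l 19422424)) (b (a (l 19077960) (l 19080632)) (b (a (l 18864680) (l 18770456)) (b (l 18882872) (a (l 18589192) (l 18372920)))))), by decide +kernel⟩

def k3_pp_102_a : ∃ t, chk3 f_pp_102_a t 7 6 1 = true :=
  ⟨(a (l 19634344) (a (l 19900616) (a (l 20069168) (a (l 20143464) (l 20174800))))), by decide +kernel⟩

def k4_pp_102_a : ∃ t, chk3 f_pp_102_a t 14 7 1 = true :=
  ⟨(b (a (l 19123488) (l 19165816)) (b (a (l 18708208) (l 18593504)) (b (a (l 18411080) (a (l 18300408) (l 18181704))) (a (l 18168216) (a (l 18003888) (b (l 17927016) (a (l 17793736) (l 17494376)))))))), by decide +kernel⟩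

def k5_pp_102_a : ∃ t, chk3 f_pp_102_a t 15 14 1 = true :=
  ⟨(a (b (l 19369464) (a (l 19003224) (l 18945048))) (a (b (l 19350496) (b (l 18940456) (c (l 18851344) (a (l 18399064) (l 17991688))))) (a (b (l 19250072) (b (l 18440768) (c (b (l 18678352) (l 18393120)) (b (l 17772184) (a (l 17730216) (l 17393888)))))) (b (b (l 19289128) (l 18712888)) (b (c (l 18625352) (b (l 17995176) (a (l 17915224) (l 17584440)))) (a (c (b (l 18427496) (l 18016712)) (b (l 17523424) (l 17014704))) (c (b (l 18162592) (a (l 17801960) (l 17442088))) (l 16700752)))))))), by decide +kernel⟩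

def k6_pp_102_a : ∃ t, chk3 f_pp_102_a t 30 15 1 = true :=
  ⟨(b (a (b (l 18646928) (l 18345920)) (b (a (l 18539600) (l 18418472)) (a (l 17961288) (c (l 18206072) (b (l 17856688) (a (l 17678864) (l 17523496))))))) (b (b (a (l 18039824) (a (c (l 18054408) (l 17527760)) (c (l 17589752) (a (l 17291000) (b (l 17306152) (l 17131744)))))) (a (a (l 17951264) (l 17638760)) (a (c (l 17789488) (l 14)) (l 14)))) (b (a (a (l 17646448) (a (l 17419408) (c (l 17709296) (l 14)))) (a (c (b (l 17571984) (l 14)) (l 14)) (l 14))) (a (a (c (l 17660192) (b (l 17451032) (a (l 17393832) (l 14)))) (c (b (l 17572864) (a (l 17497752) (l 14))) (l 14))) (l 14))))), by decide +kernel⟩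

def k7_pp_102_a : ∃ t, chk3 f_pp_102_a t 31 15 1 = true :=
  ⟨(b (a (b (a (c (l 18507720) (b (l 18074328) (l 17821952))) (c (b (l 18411856) (l 17931584)) (b (a (l 17840808) (l 17632512)) (a (l 17532584) (l 17146024))))) (a (c (b (l 18131944) (a (l 17916792) (l 17640064))) (b (a (l 17630456) (l 17368320)) (a (l 17162024) (l 16854000)))) (b (c (a (l 17886656) (b (l 17755856) (l 17492480))) (a (l 17009992) (l 16807816))) (a (b (c (l 17617440) (l 16877048)) (l 16871576)) (b (l 16848912) (l 16705936)))))) (a (b (b (c (a (l 18163856) (l 17781376)) (a (l 17281416) (l 16954224))) (a (c (l 17563064) (l 16891328)) (l 16751832))) (b (a (b (l 16886688) (l 16749072)) (l 16714480)) (a (b (l 16708368) (l 16733352)) (a (l 16720680) (l 16724104))))) (b (a (a (a (l 16763024) (l 16767104)) (l 16715680)) (b (l 16705128) (l 16717552))) (a (b (a (l 16713936) (l 16716352)) (a (l 16727200) (l 6))) (b (a (l 16718776) (l 16721224)) (l 6)))))) (b (a (b (b (a (c (a (l 17685024)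 (l 17395320)) (a (l 17082160) (l 16796312))) (a (l 16795112) (l 16730992))) (a (a (c (l 17497752) (l 16906528)) (l 16813184)) (a (a (l 16727432) (l 16730568)) (l 16719512)))) (a (a (l 14) (b (l 16729520) (b (l 16736704) (l 16742016)))) (b (a (b (l 16732440) (l 16734872)) (b (l 16738736) (a (l 16739640) (l 16742800)))) (a (b (a (l 16737928) (b (l 16738312) (l 16740072))) (l 16743624)) (b (l 16726672) (l 6)))))) (a (b (a (b (l 16721784) (a (l 16740104) (l 16722608))) (b (a (l 16721720) (l 6)) (l 6))) (l 6)) (l 6))) (a (a (a (l 14) (a (l 14) (b (b (l 16750408) (l 16747072)) (l 6)))) (a (b (b (b (l 16733200) (l 16735896)) (l 6)) (l 6)) (l 6))) (l 6)))), by decide +kernel⟩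

theorem s8_pp_102_a : ∃ t, chk3 f_pp_102_a t 15 15 1 = true := ex3_a k6_pp_102_a k7_pp_102_a

theorem s9_pp_102_a : ∃ t, chk3 f_pp_102_a t 15 7 1 = true := ex3_b k5_pp_102_a s8_pp_102_a

theorem s10_pp_102_a : ∃ t, chk3 f_pp_102_a t 7 7 1 = true := ex3_a k4_pp_102_a s9_pp_102_a

theorem s11_pp_102_a : ∃ t, chk3 f_pp_102_a t 7 3 1 = true := ex3_b k3_pp_102_a s10_pp_102_a

theorem s12_pp_102_a : ∃ t, chk3 f_pp_102_a t 3 3 1 = true := ex3_a k2_pp_102_a s11_pp_102_a

theorem s13_pp_102_a : ∃ t, chk3 f_pp_102_a t 3 1 1 = true := ex3_b k1_pp_102_a s12_pp_102_a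

theorem s14_pp_102_a : ∃ t, chk3 f_pp_102_a t 1 1 1 = true := ex3_a k0_pp_102_a s13_pp_102_a

theorem c_pp_102_a : CertN 536870912 536870912 0 536870912 33554432 16777216 3 false true true .npp 1 0 2
    ndN2q1 ndN2q2a pcN0 cut_pp_102_a Ext.none :=
  certNK0 (fam := false) (s1 := true) (s2 := true) (a := 1) (b := 0) (c := 2) (cn := .npp) (n1 := ndN2q1) (n2 := ndN2q2a) (pc := pcN0) (cut := cut_pp_102_a) (xt := Ext.none) (P1 := 536870912) (W1 := 536870912) (P2 := 0) (W2 := 536870912) (P3 := 33554432) (W3 := 16777216) (N0 := 3)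
    rfl rfl rfl s14_pp_102_a

noncomputable def cut_pp_102_b : Cut := Cut.of [[⟨0, 1, 0, 33554432⟩, ⟨1, 0, 0, 33554432⟩, ⟨2, 1, 0, 33554432⟩], [⟨0, 1, 2, 25165824⟩, ⟨1, 0, 1, 25165824⟩, ⟨2, 1, 0, 16777216⟩, ⟨0, 0, 0, 1056964608⟩, ⟨0, 1, 0, 67108864⟩, ⟨1, 0, 0, 67108864⟩, ⟨1, 1, 0, 1056964608⟩]]

noncomputable def f_pp_102_b : ℕ → ℕ → ℕ → ℕ → Bool := onCell 536870912 536870912 1239849684 370763052 33554432 16777216
    (rowNK 3 0 false true true .npp 1 0 2 (qsf 536870912 536870912 1239849684 370763052 0) ndN2q1 ndN2q2b pcN0 cut_pp_102_b Ext.none)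

def k0_pp_102_b : ∃ t, chk3 f_pp_102_b t 1 1 1 = true :=
  ⟨(a (b (a (l 2) (b (l 19230696) (l 19238464))) (l 2)) (b (a (b (l 19752696) (l 19713504)) (a (b (l 20103504) (l 20203208)) (a (b (l 20477200) (l 20529912)) (a (b (l 20741200) (l 20759472)) (a (l 20921424) (l 21014552)))))) (a (b (l 19718904) (l 2)) (a (b (l 20222496) (l 20190128)) (a (l 20536480) (a (l 20740232) (a (l 20847816) (l 20931048)))))))), by decide +kernel⟩

theorem c_pp_102_b : CertN 536870912 536870912 1239849684 370763052 33554432 16777216 3 false true true .npp 1 0 2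
    ndN2q1 ndN2q2b pcN0 cut_pp_102_b Ext.none :=
  certNK0 (fam := false) (s1 := true) (s2 := true) (a := 1) (b := 0) (c := 2) (cn := .npp) (n1 := ndN2q1) (n2 := ndN2q2b) (pc := pcN0) (cut := cut_pp_102_b) (xt := Ext.none) (P1 := 536870912) (W1 := 536870912) (P2 := 1239849684) (W2 := 370763052) (P3 := 33554432) (W3 := 16777216) (N0 := 3)
    rfl rfl rfl k0_pp_102_b

noncomputable def f_pp_112_a : ℕ → ℕ → ℕ → ℕ → Bool := onCell 536870912 536870912 0 536870912 33554432 16777216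
    (rowNK 3 0 false true true .dn 1 1 2 (qsf 536870912 536870912 0 536870912 1) ndN2q1 ndN2q2a pcN1 Cut.none Ext.none)

def k0_pp_112_a : ∃ t, chk3 f_pp_112_a t 1 1 1 = true :=
  ⟨(a (a (b (l 19159584) (b (l 19070920) (b (l 19021640) (b (l 18917944) (b (l 18858536) (l 18800736)))))) (b (l 19348320) (b (l 1) (l 1)))) (l 1)), by decide +kernel⟩

theorem c_pp_112_a : CertN 536870912 536870912 0 536870912 33554432 16777216 3 false true true .dn 1 1 2
    ndN2q1 ndN2q2a pcN1 Cut.none Ext.none :=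
  certNK0 (fam := false) (s1 := true) (s2 := true) (a := 1) (b := 1) (c := 2) (cn := .dn) (n1 := ndN2q1) (n2 := ndN2q2a) (pc := pcN1) (cut := Cut.none) (xt := Ext.none) (P1 := 536870912) (W1 := 536870912) (P2 := 0) (W2 := 536870912) (P3 := 33554432) (W3 := 16777216) (N0 := 3)
    rfl rfl rfl k0_pp_112_a

noncomputable def f_pp_112_b : ℕ → ℕ → ℕ → ℕ → Bool := onCell 536870912 536870912 1239849684 370763052 33554432 16777216
    (rowNK 3 2 false true true .dn 1 1 2 (qsf 536870912 536870912 1239849684 370763052 1) ndN2q1 ndN2q2b pcN1 Cut.none Ext.none)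

def k0_pp_112_b : ∃ t, chk3 f_pp_112_b t 1 1 1 = true :=
  ⟨(a (a (b (l 19331104) (b (l 19381176) (a (b (l 19407800) (a (b (l 19417872) (a (b (l 19444616) (a (b (l 19457344) (l 19453696)) (l 19422392))) (l 19375240))) (l 19304224))) (l 19237312)))) (l 19373584)) (a (l 476242773719) (a (l 18780776) (a (l 18716336) (a (l 18680464) (a (l 18661912) (l 18647392))))))), by decide +kernel⟩

theorem c_pp_112_b : CertN 536870912 536870912 1239849684 370763052 33554432 16777216 3 false true true .dn 1 1 2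
    ndN2q1 ndN2q2b pcN1 Cut.none Ext.none :=
  certNK2 (fam := false) (s1 := true) (s2 := true) (a := 1) (b := 1) (c := 2) (cn := .dn) (n1 := ndN2q1) (n2 := ndN2q2b) (pc := pcN1) (cut := Cut.none) (xt := Ext.none) (P1 := 536870912) (W1 := 536870912) (P2 := 1239849684) (W2 := 370763052) (P3 := 33554432) (W3 := 16777216) (N0 := 3)
    rfl rfl rfl (fun _ => rfl) k0_pp_112_b

noncomputable def f_pp_113 : ℕ → ℕ → ℕ → ℕ → Bool := onCell 536870912 536870912 536870912 536870912 33554432 16777216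
    (rowNK 3 1 false true true .nn 1 1 3 (qsf 536870912 536870912 1610612736 536870912 1) ndN2q1 ndN2q3 pcN1 Cut.none Ext.none)

def k0_pp_113 : ∃ t, chk3 f_pp_113 t 1 1 1 = true :=
  ⟨(a (b (b (l 1) (l 446178292887)) (b (l 19017848) (b (l 18925456) (b (l 18853504) (b (l 18808120) (b (l 18782600) (l 18762824))))))) (b (a (b (l 19409224) (l 19258008)) (b (a (l 19493088) (a (l 19503512) (a (l 19527952) (a (l 19529608) (l 19529400))))) (a (l 19202616) (a (l 19152920) (a (l 19139080) (a (l 19123496) (l 19114864))))))) (a (b (l 18996184) (b (l 18683232) (b (l 18472672) (b (l 18347424) (b (l 18278888) (l 18230704)))))) (b (a (l 18776856) (a (l 18632176) (a (l 18569504) (a (l 18533448) (l 18505576))))) (a (b (l 18318440) (b (l 18006528) (b (l 17820544) (b (l 17718720) (l 17647888))))) (b (a (l 18078912) (a (l 17962544) (a (l 17897768) (l 17850152)))) (a (b (l 17701552) (b (l 17475272) (b (l 17351032) (l 17264952)))) (b (a (l 17547040) (a (l 17461496) (l 17399544)))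 (a (b (l 17296800) (b (l 17159064) (l 17063784))) (b (a (l 17198040) (l 17126952)) (a (b (l 17052800) (l 16952384)) (b (l 16976504) (l 16871768))))))))))))), by decide +kernel⟩

theorem c_pp_113 : CertN 536870912 536870912 1610612736 536870912 33554432 16777216 3 false true true .nn 1 1 3
    ndN2q1 ndN2q3 pcN1 Cut.none Ext.none :=
  certNK1 (fam := false) (s1 := true) (s2 := true) (a := 1) (b := 1) (c := 3) (cn := .nn) (n1 := ndN2q1) (n2 := ndN2q3) (pc := pcN1) (cut := Cut.none) (xt := Ext.none) (P1 := 536870912) (W1 := 536870912) (P2 := 1610612736) (W2 := 536870912) (P3 := 33554432) (W3 := 16777216) (N0 := 3)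
    rfl rfl rfl (fun _ => rfl) k0_pp_113

noncomputable def f_pp_123 : ℕ → ℕ → ℕ → ℕ → Bool := onCell 1073741824 536870912 1610612736 536870912 33554432 16777216
    (rowNK 3 2 false true true .npn 1 2 3 (qsf 536870912 536870912 1610612736 536870912 2) ndN2q1 ndN2q3 pcN2 Cut.none Ext.none)

def k0_pp_123 : ∃ t, chk3 f_pp_123 t 1 1 1 = true :=
  ⟨(a (b (a (a (a (a (a (l 18708520) (l 18701256)) (l 18690248)) (l 18667904)) (l 18621256)) (l 18518608)) (b (l 18099664) (a (b (l 17586944) (a (b (l 17180000) (a (b (l 16974720) (a (b (l 16881272) (a (b (l 16831048) (l 16794088)) (l 16804520))) (l 16829736))) (l 16893488))) (l 17084664))) (l 17422656)))) (a (b (l 18358608) (l 17920584)) (b (l 1) (l 17881240)))), by decide +kernel⟩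

theorem c_pp_123 : CertN 536870912 536870912 1610612736 536870912 33554432 16777216 3 false true true .npn 1 2 3
    ndN2q1 ndN2q3 pcN2 Cut.none Ext.none :=
  certNK2 (fam := false) (s1 := true) (s2 := true) (a := 1) (b := 2) (c := 3) (cn := .npn) (n1 := ndN2q1) (n2 := ndN2q3) (pc := pcN2) (cut := Cut.none) (xt := Ext.none) (P1 := 536870912) (W1 := 536870912) (P2 := 1610612736) (W2 := 536870912) (P3 := 33554432) (W3 := 16777216) (N0 := 3)
    rfl rfl rfl (fun _ => rfl) k0_pp_123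

noncomputable def f_pp_133 : ℕ → ℕ → ℕ → ℕ → Bool := onCell 1610612736 536870912 1610612736 536870912 33554432 16777216
    (rowNK 3 2 false true true .dn 1 3 3 (qsf 536870912 536870912 1610612736 536870912 3) ndN2q1 ndN2q3 pcN3 Cut.none Ext.none)

def k0_pp_133 : ∃ t, chk3 f_pp_133 t 1 1 1 = true :=
  ⟨(a (b (l 1) (a (l 692600764903) (l 1))) (l 1)), by decide +kernel⟩

theorem c_pp_133 : CertN 536870912 536870912 1610612736 536870912 33554432 16777216 3 false true true .dn 1 3 3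
    ndN2q1 ndN2q3 pcN3 Cut.none Ext.none :=
  certNK2 (fam := false) (s1 := true) (s2 := true) (a := 1) (b := 3) (c := 3) (cn := .dn) (n1 := ndN2q1) (n2 := ndN2q3) (pc := pcN3) (cut := Cut.none) (xt := Ext.none) (P1 := 536870912) (W1 := 536870912) (P2 := 1610612736) (W2 := 536870912) (P3 := 33554432) (W3 := 16777216) (N0 := 3)
    rfl rfl rfl (fun _ => rfl) k0_pp_133

noncomputable def f_pp_202_aa : ℕ → ℕ → ℕ → ℕ → Bool := onCell 0 536870912 0 536870912 33554432 16777216
    (rowNK 3 0 false true true .pp 2 0 2 (qsf 0 536870912 0 536870912 0) ndN2q2a ndN2q2a pcN0 Cut.none Ext.none)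

def k0_pp_202_aa : ∃ t, chk3 f_pp_202_aa t 1 1 1 = true :=
  ⟨(l 3), by decide +kernel⟩

theorem c_pp_202_aa : CertN 0 536870912 0 536870912 33554432 16777216 3 false true true .pp 2 0 2
    ndN2q2a ndN2q2a pcN0 Cut.none Ext.none :=
  certNK0 (fam := false) (s1 := true) (s2 := true) (a := 2) (b := 0) (c := 2) (cn := .pp) (n1 := ndN2q2a) (n2 := ndN2q2a) (pc := pcN0) (cut := Cut.none) (xt := Ext.none) (P1 := 0) (W1 := 536870912) (P2 := 0) (W2 := 536870912) (P3 := 33554432) (W3 := 16777216) (N0 := 3)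
    rfl rfl rfl k0_pp_202_aa

noncomputable def f_pp_202_ab : ℕ → ℕ → ℕ → ℕ → Bool := onCell 0 536870912 1239849684 370763052 33554432 16777216
    (rowNK 3 0 false true true .pp 2 0 2 (qsf 0 536870912 1239849684 370763052 0) ndN2q2a ndN2q2b pcN0 Cut.none Ext.none)

def k0_pp_202_ab : ∃ t, chk3 f_pp_202_ab t 1 1 1 = true :=
  ⟨(l 3), by decide +kernel⟩

theorem c_pp_202_ab : CertN 0 536870912 1239849684 370763052 33554432 16777216 3 false true true .pp 2 0 2
    ndN2q2a ndN2q2b pcN0 Cut.none Ext.none :=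
  certNK0 (fam := false) (s1 := true) (s2 := true) (a := 2) (b := 0) (c := 2) (cn := .pp) (n1 := ndN2q2a) (n2 := ndN2q2b) (pc := pcN0) (cut := Cut.none) (xt := Ext.none) (P1 := 0) (W1 := 536870912) (P2 := 1239849684) (W2 := 370763052) (P3 := 33554432) (W3 := 16777216) (N0 := 3)
    rfl rfl rfl k0_pp_202_ab

noncomputable def f_pp_202_ba : ℕ → ℕ → ℕ → ℕ → Bool := onCell 1239849684 370763052 0 536870912 33554432 16777216
    (rowNK 3 0 false true true .pp 2 0 2 (qsf 1239849684 370763052 0 536870912 0) ndN2q2b ndN2q2a pcN0 Cut.none Ext.none)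

def k0_pp_202_ba : ∃ t, chk3 f_pp_202_ba t 1 1 1 = true :=
  ⟨(l 3), by decide +kernel⟩

theorem c_pp_202_ba : CertN 1239849684 370763052 0 536870912 33554432 16777216 3 false true true .pp 2 0 2
    ndN2q2b ndN2q2a pcN0 Cut.none Ext.none :=
  certNK0 (fam := false) (s1 := true) (s2 := true) (a := 2) (b := 0) (c := 2) (cn := .pp) (n1 := ndN2q2b) (n2 := ndN2q2a) (pc := pcN0) (cut := Cut.none) (xt := Ext.none) (P1 := 1239849684) (W1 := 370763052) (P2 := 0) (W2 := 536870912) (P3 := 33554432) (W3 := 16777216) (N0 := 3)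
    rfl rfl rfl k0_pp_202_ba

noncomputable def f_pp_202_bb : ℕ → ℕ → ℕ → ℕ → Bool := onCell 1239849684 370763052 1239849684 370763052 33554432 16777216
    (rowNK 3 0 false true true .pp 2 0 2 (qsf 1239849684 370763052 1239849684 370763052 0) ndN2q2b ndN2q2b pcN0 Cut.none Ext.none)

def k0_pp_202_bb : ∃ t, chk3 f_pp_202_bb t 1 1 1 = true :=
  ⟨(l 3), by decide +kernel⟩

theorem c_pp_202_bb : CertN 1239849684 370763052 1239849684 370763052 33554432 16777216 3 false true true .pp 2 0 2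
    ndN2q2b ndN2q2b pcN0 Cut.none Ext.none :=
  certNK0 (fam := false) (s1 := true) (s2 := true) (a := 2) (b := 0) (c := 2) (cn := .pp) (n1 := ndN2q2b) (n2 := ndN2q2b) (pc := pcN0) (cut := Cut.none) (xt := Ext.none) (P1 := 1239849684) (W1 := 370763052) (P2 := 1239849684) (W2 := 370763052) (P3 := 33554432) (W3 := 16777216) (N0 := 3)
    rfl rfl rfl k0_pp_202_bb

noncomputable def f_pp_203_a : ℕ → ℕ → ℕ → ℕ → Bool := onCell 0 536870912 0 536870912 33554432 16777216
    (rowNK 3 1 false true true .up 2 0 3 (qsf 0 536870912 1610612736 536870912 0) ndN2q2a ndN2q3 pcN0 Cut.none Ext.none)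

def k0_pp_203_a : ∃ t, chk3 f_pp_203_a t 1 1 1 = true :=
  ⟨(l 3), by decide +kernel⟩

theorem c_pp_203_a : CertN 0 536870912 1610612736 536870912 33554432 16777216 3 false true true .up 2 0 3
    ndN2q2a ndN2q3 pcN0 Cut.none Ext.none :=
  certNK1 (fam := false) (s1 := true) (s2 := true) (a := 2) (b := 0) (c := 3) (cn := .up) (n1 := ndN2q2a) (n2 := ndN2q3) (pc := pcN0) (cut := Cut.none) (xt := Ext.none) (P1 := 0) (W1 := 536870912) (P2 := 1610612736) (W2 := 536870912) (P3 := 33554432) (W3 := 16777216) (N0 := 3)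
    rfl rfl rfl (fun _ => rfl) k0_pp_203_a

noncomputable def f_pp_203_b : ℕ → ℕ → ℕ → ℕ → Bool := onCell 1239849684 370763052 1610612736 536870912 33554432 16777216
    (rowNK 3 0 false true true .up 2 0 3 (qsf 1239849684 370763052 1610612736 536870912 0) ndN2q2b ndN2q3 pcN0 Cut.none Ext.none)

def k0_pp_203_b : ∃ t, chk3 f_pp_203_b t 1 1 1 = true :=
  ⟨(l 3), by decide +kernel⟩

theorem c_pp_203_b : CertN 1239849684 370763052 1610612736 536870912 33554432 16777216 3 false true true .up 2 0 3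
    ndN2q2b ndN2q3 pcN0 Cut.none Ext.none :=
  certNK0 (fam := false) (s1 := true) (s2 := true) (a := 2) (b := 0) (c := 3) (cn := .up) (n1 := ndN2q2b) (n2 := ndN2q3) (pc := pcN0) (cut := Cut.none) (xt := Ext.none) (P1 := 1239849684) (W1 := 370763052) (P2 := 1610612736) (W2 := 536870912) (P3 := 33554432) (W3 := 16777216) (N0 := 3)
    rfl rfl rfl k0_pp_203_b

noncomputable def cut_pp_213_a : Cut := Cut.of [[⟨0, 1, 0, 7061502⟩, ⟨1, 1, 0, 7061502⟩, ⟨2, 2, 0, 184626⟩]]

noncomputable def f_pp_213_a : ℕ → ℕ → ℕ → ℕ → Bool := onCell 0 536870912 1610612736 536870912 33554432 16777216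
    (rowNK 3 0 false true true .pnn 2 1 3 (qsf 0 536870912 1610612736 536870912 1) ndN2q2a ndN2q3 pcN1 cut_pp_213_a Ext.none)

def k0_pp_213_a : ∃ t, chk3 f_pp_213_a t 1 1 1 = true :=
  ⟨(a (l 3) (b (l 3) (a (l 3) (b (l 3) (a (l 3) (a (l 3) (a (l 3) (b (l 3) (b (l 3) (b (l 3) (b (l 3) (b (l 3) (b (l 3) (b (l 3) (b (l 3) (b (l 3) (b (l 3) (a (l 3) (l 6))))))))))))))))))), by decide +kernel⟩

theorem c_pp_213_a : CertN 0 536870912 1610612736 536870912 33554432 16777216 3 false true true .pnn 2 1 3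
    ndN2q2a ndN2q3 pcN1 cut_pp_213_a Ext.none :=
  certNK0 (fam := false) (s1 := true) (s2 := true) (a := 2) (b := 1) (c := 3) (cn := .pnn) (n1 := ndN2q2a) (n2 := ndN2q3) (pc := pcN1) (cut := cut_pp_213_a) (xt := Ext.none) (P1 := 0) (W1 := 536870912) (P2 := 1610612736) (W2 := 536870912) (P3 := 33554432) (W3 := 16777216) (N0 := 3)
    rfl rfl rfl k0_pp_213_a

noncomputable def cut_pp_213_b : Cut := Cut.of [[⟨0, 1, 0, 7061502⟩, ⟨1, 1, 0, 7061502⟩, ⟨2, 2, 0, 184626⟩]]

noncomputable def f_pp_213_b : ℕ → ℕ → ℕ → ℕ → Bool := onCell 1239849684 370763052 1610612736 536870912 33554432 16777216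
    (rowNK 3 0 false true true .pnn 2 1 3 (qsf 1239849684 370763052 1610612736 536870912 1) ndN2q2b ndN2q3 pcN1 cut_pp_213_b Ext.none)

def k0_pp_213_b : ∃ t, chk3 f_pp_213_b t 1 1 1 = true :=
  ⟨(l 3), by decide +kernel⟩

theorem c_pp_213_b : CertN 1239849684 370763052 1610612736 536870912 33554432 16777216 3 false true true .pnn 2 1 3
    ndN2q2b ndN2q3 pcN1 cut_pp_213_b Ext.none :=
  certNK0 (fam := false) (s1 := true) (s2 := true) (a := 2) (b := 1) (c := 3) (cn := .pnn) (n1 := ndN2q2b) (n2 := ndN2q3) (pc := pcN1) (cut := cut_pp_213_b) (xt := Ext.none) (P1 := 1239849684) (W1 := 370763052) (P2 := 1610612736) (W2 := 536870912) (P3 := 33554432) (W3 := 16777216) (N0 := 3)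
    rfl rfl rfl k0_pp_213_b

noncomputable def f_pp_303 : ℕ → ℕ → ℕ → ℕ → Bool := onCell 1610612736 536870912 1610612736 536870912 33554432 16777216
    (rowNK 3 0 false true true .npn 3 0 3 (qsf 1610612736 536870912 1610612736 536870912 0) ndN2q3 ndN2q3 pcN0 Cut.none Ext.none)

def k0_pp_303 : ∃ t, chk3 f_pp_303 t 1 1 1 = true :=
  ⟨(l 3), by decide +kernel⟩

theorem c_pp_303 : CertN 1610612736 536870912 1610612736 536870912 33554432 16777216 3 false true true .npn 3 0 3
    ndN2q3 ndN2q3 pcN0 Cut.none Ext.none :=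
  certNK0 (fam := false) (s1 := true) (s2 := true) (a := 3) (b := 0) (c := 3) (cn := .npn) (n1 := ndN2q3) (n2 := ndN2q3) (pc := pcN0) (cut := Cut.none) (xt := Ext.none) (P1 := 1610612736) (W1 := 536870912) (P2 := 1610612736) (W2 := 536870912) (P3 := 33554432) (W3 := 16777216) (N0 := 3)
    rfl rfl rfl k0_pp_303

noncomputable def f_pp_313 : ℕ → ℕ → ℕ → ℕ → Bool := onCell 1610612736 536870912 1610612736 536870912 33554432 16777216
    (rowNK 3 0 false true true .dn 3 1 3 (qsf 1610612736 536870912 1610612736 536870912 1) ndN2q3 ndN2q3 pcN1 Cut.none Ext.none)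

def k0_pp_313 : ∃ t, chk3 f_pp_313 t 1 1 1 = true :=
  ⟨(l 3), by decide +kernel⟩

theorem c_pp_313 : CertN 1610612736 536870912 1610612736 536870912 33554432 16777216 3 false true true .dn 3 1 3
    ndN2q3 ndN2q3 pcN1 Cut.none Ext.none :=
  certNK0 (fam := false) (s1 := true) (s2 := true) (a := 3) (b := 1) (c := 3) (cn := .dn) (n1 := ndN2q3) (n2 := ndN2q3) (pc := pcN1) (cut := Cut.none) (xt := Ext.none) (P1 := 1610612736) (W1 := 536870912) (P2 := 1610612736) (W2 := 536870912) (P3 := 33554432) (W3 := 16777216) (N0 := 3)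
    rfl rfl rfl k0_pp_313

noncomputable def f_pm_001 : ℕ → ℕ → ℕ → ℕ → Bool := onCell 0 536870912 536870912 536870912 33554432 16777216
    (rowNK 3 0 false true false .up 0 0 1 (qsf 0 536870912 536870912 536870912 0) ndN2q0 ndN2q1 pcN0 Cut.none Ext.none)

def k0_pm_001 : ∃ t, chk3 f_pm_001 t 1 1 1 = true :=
  ⟨(l 4), by decide +kernel⟩

theorem c_pm_001 : CertN 0 536870912 536870912 536870912 33554432 16777216 3 false true false .up 0 0 1
    ndN2q0 ndN2q1 pcN0 Cut.none Ext.none :=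
  certNK0 (fam := false) (s1 := true) (s2 := false) (a := 0) (b := 0) (c := 1) (cn := .up) (n1 := ndN2q0) (n2 := ndN2q1) (pc := pcN0) (cut := Cut.none) (xt := Ext.none) (P1 := 0) (W1 := 536870912) (P2 := 536870912) (W2 := 536870912) (P3 := 33554432) (W3 := 16777216) (N0 := 3)
    rfl rfl rfl k0_pm_001

noncomputable def f_pm_011 : ℕ → ℕ → ℕ → ℕ → Bool := onCell 0 536870912 536870912 536870912 33554432 16777216
    (rowNK 3 0 false true false .pnn 0 1 1 (qsf 0 536870912 536870912 536870912 1) ndN2q0 ndN2q1 pcN1 Cut.none Ext.none)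

def k0_pm_011 : ∃ t, chk3 f_pm_011 t 1 1 1 = true :=
  ⟨(l 4), by decide +kernel⟩

theorem c_pm_011 : CertN 0 536870912 536870912 536870912 33554432 16777216 3 false true false .pnn 0 1 1
    ndN2q0 ndN2q1 pcN1 Cut.none Ext.none :=
  certNK0 (fam := false) (s1 := true) (s2 := false) (a := 0) (b := 1) (c := 1) (cn := .pnn) (n1 := ndN2q0) (n2 := ndN2q1) (pc := pcN1) (cut := Cut.none) (xt := Ext.none) (P1 := 0) (W1 := 536870912) (P2 := 536870912) (W2 := 536870912) (P3 := 33554432) (W3 := 16777216) (N0 := 3)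
    rfl rfl rfl k0_pm_011

noncomputable def cut_pm_012_a : Cut := Cut.of [[⟨0, 0, 0, 33554432⟩, ⟨1, 1, 0, 33554432⟩, ⟨2, 1, 0, 33554432⟩]]

noncomputable def f_pm_012_a : ℕ → ℕ → ℕ → ℕ → Bool := onCell 0 536870912 0 536870912 33554432 16777216
    (rowNK 3 0 false true false .pnp 0 1 2 (qsf 0 536870912 0 536870912 1) ndN2q0 ndN2q2a pcN1 cut_pm_012_a Ext.none)

def k0_pm_012_a : ∃ t, chk3 f_pm_012_a t 1 1 1 = true :=
  ⟨(a (b (l 4) (a (b (l 4) (a (b (l 4) (a (b (l 4) (a (l 6) (l 4))) (l 4))) (l 4))) (l 4))) (l 4)), by decide +kernel⟩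

theorem c_pm_012_a : CertN 0 536870912 0 536870912 33554432 16777216 3 false true false .pnp 0 1 2
    ndN2q0 ndN2q2a pcN1 cut_pm_012_a Ext.none :=
  certNK0 (fam := false) (s1 := true) (s2 := false) (a := 0) (b := 1) (c := 2) (cn := .pnp) (n1 := ndN2q0) (n2 := ndN2q2a) (pc := pcN1) (cut := cut_pm_012_a) (xt := Ext.none) (P1 := 0) (W1 := 536870912) (P2 := 0) (W2 := 536870912) (P3 := 33554432) (W3 := 16777216) (N0 := 3)
    rfl rfl rfl k0_pm_012_a

noncomputable def cut_pm_012_b : Cut := Cut.of [[⟨0, 0, 0, 33554432⟩, ⟨1, 1, 0, 33554432⟩, ⟨2, 1, 0, 33554432⟩]]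

noncomputable def f_pm_012_b : ℕ → ℕ → ℕ → ℕ → Bool := onCell 0 536870912 1239849684 370763052 33554432 16777216
    (rowNK 3 0 false true false .pnp 0 1 2 (qsf 0 536870912 1239849684 370763052 1) ndN2q0 ndN2q2b pcN1 cut_pm_012_b Ext.none)

def k0_pm_012_b : ∃ t, chk3 f_pm_012_b t 1 1 1 = true :=
  ⟨(l 4), by decide +kernel⟩

theorem c_pm_012_b : CertN 0 536870912 1239849684 370763052 33554432 16777216 3 false true false .pnp 0 1 2
    ndN2q0 ndN2q2b pcN1 cut_pm_012_b Ext.none :=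
  certNK0 (fam := false) (s1 := true) (s2 := false) (a := 0) (b := 1) (c := 2) (cn := .pnp) (n1 := ndN2q0) (n2 := ndN2q2b) (pc := pcN1) (cut := cut_pm_012_b) (xt := Ext.none) (P1 := 0) (W1 := 536870912) (P2 := 1239849684) (W2 := 370763052) (P3 := 33554432) (W3 := 16777216) (N0 := 3)
    rfl rfl rfl k0_pm_012_b

noncomputable def cut_pm_022_a : Cut := Cut.of [[⟨0, 0, 0, 33554432⟩, ⟨1, 1, 0, 33554432⟩, ⟨2, 1, 0, 33554432⟩]]

noncomputable def f_pm_022_a : ℕ → ℕ → ℕ → ℕ → Bool := onCell 0 536870912 0 536870912 33554432 16777216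
    (rowNK 3 0 false true false .pp 0 2 2 (qsf 0 536870912 0 536870912 2) ndN2q0 ndN2q2a pcN2 cut_pm_022_a Ext.none)

def k0_pm_022_a : ∃ t, chk3 f_pm_022_a t 1 1 1 = true :=
  ⟨(a (b (l 4) (b (l 4) (b (l 4) (a (a (a (a (b (l 4) (l 6)) (l 4)) (l 4)) (l 1)) (l 1))))) (l 1)), by decide +kernel⟩

theorem c_pm_022_a : CertN 0 536870912 0 536870912 33554432 16777216 3 false true false .pp 0 2 2
    ndN2q0 ndN2q2a pcN2 cut_pm_022_a Ext.none :=
  certNK0 (fam := false) (s1 := true) (s2 := false) (a := 0) (b := 2) (c := 2) (cn := .pp) (n1 := ndN2q0) (n2 := ndN2q2a) (pc := pcN2) (cut := cut_pm_022_a) (xt := Ext.none) (P1 := 0) (W1 := 536870912) (P2 := 0) (W2 := 536870912) (P3 := 33554432) (W3 := 16777216) (N0 := 3)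
    rfl rfl rfl k0_pm_022_a

noncomputable def cut_pm_022_b : Cut := Cut.of [[⟨0, 0, 0, 33554432⟩, ⟨1, 1, 0, 33554432⟩, ⟨2, 1, 0, 33554432⟩]]

noncomputable def f_pm_022_b : ℕ → ℕ → ℕ → ℕ → Bool := onCell 0 536870912 1239849684 370763052 33554432 16777216
    (rowNK 3 0 false true false .pp 0 2 2 (qsf 0 536870912 1239849684 370763052 2) ndN2q0 ndN2q2b pcN2 cut_pm_022_b Ext.none)

def k0_pm_022_b : ∃ t, chk3 f_pm_022_b t 1 1 1 = true :=
  ⟨(l 4), by decide +kernel⟩

theorem c_pm_022_b : CertN 0 536870912 1239849684 370763052 33554432 16777216 3 false true false .pp 0 2 2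
    ndN2q0 ndN2q2b pcN2 cut_pm_022_b Ext.none :=
  certNK0 (fam := false) (s1 := true) (s2 := false) (a := 0) (b := 2) (c := 2) (cn := .pp) (n1 := ndN2q0) (n2 := ndN2q2b) (pc := pcN2) (cut := cut_pm_022_b) (xt := Ext.none) (P1 := 0) (W1 := 536870912) (P2 := 1239849684) (W2 := 370763052) (P3 := 33554432) (W3 := 16777216) (N0 := 3)
    rfl rfl rfl k0_pm_022_b

noncomputable def f_pm_023 : ℕ → ℕ → ℕ → ℕ → Bool := onCell 0 536870912 1610612736 536870912 33554432 16777216
    (rowNK 3 0 false true false .up 0 2 3 (qsf 0 536870912 1610612736 536870912 2) ndN2q0 ndN2q3 pcN2 Cut.none Ext.none)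

def k0_pm_023 : ∃ t, chk3 f_pm_023 t 1 1 1 = true :=
  ⟨(l 4), by decide +kernel⟩

theorem c_pm_023 : CertN 0 536870912 1610612736 536870912 33554432 16777216 3 false true false .up 0 2 3
    ndN2q0 ndN2q3 pcN2 Cut.none Ext.none :=
  certNK0 (fam := false) (s1 := true) (s2 := false) (a := 0) (b := 2) (c := 3) (cn := .up) (n1 := ndN2q0) (n2 := ndN2q3) (pc := pcN2) (cut := Cut.none) (xt := Ext.none) (P1 := 0) (W1 := 536870912) (P2 := 1610612736) (W2 := 536870912) (P3 := 33554432) (W3 := 16777216) (N0 := 3)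
    rfl rfl rfl k0_pm_023

noncomputable def f_pm_033 : ℕ → ℕ → ℕ → ℕ → Bool := onCell 0 536870912 1610612736 536870912 33554432 16777216
    (rowNK 3 0 false true false .pnn 0 3 3 (qsf 0 536870912 1610612736 536870912 3) ndN2q0 ndN2q3 pcN3 Cut.none Ext.none)

def k0_pm_033 : ∃ t, chk3 f_pm_033 t 1 1 1 = true :=
  ⟨(l 4), by decide +kernel⟩

theorem c_pm_033 : CertN 0 536870912 1610612736 536870912 33554432 16777216 3 false true false .pnn 0 3 3
    ndN2q0 ndN2q3 pcN3 Cut.none Ext.none :=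
  certNK0 (fam := false) (s1 := true) (s2 := false) (a := 0) (b := 3) (c := 3) (cn := .pnn) (n1 := ndN2q0) (n2 := ndN2q3) (pc := pcN3) (cut := Cut.none) (xt := Ext.none) (P1 := 0) (W1 := 536870912) (P2 := 1610612736) (W2 := 536870912) (P3 := 33554432) (W3 := 16777216) (N0 := 3)
    rfl rfl rfl k0_pm_033

noncomputable def f_pm_101 : ℕ → ℕ → ℕ → ℕ → Bool := onCell 536870912 536870912 536870912 536870912 33554432 16777216
    (rowNK 3 0 false true false .npn 1 0 1 (qsf 536870912 536870912 536870912 536870912 0) ndN2q1 ndN2q1 pcN0 Cut.none Ext.none)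

def k0_pm_101 : ∃ t, chk3 f_pm_101 t 1 1 1 = true :=
  ⟨(l 4), by decide +kernel⟩

theorem c_pm_101 : CertN 536870912 536870912 536870912 536870912 33554432 16777216 3 false true false .npn 1 0 1
    ndN2q1 ndN2q1 pcN0 Cut.none Ext.none :=
  certNK0 (fam := false) (s1 := true) (s2 := false) (a := 1) (b := 0) (c := 1) (cn := .npn) (n1 := ndN2q1) (n2 := ndN2q1) (pc := pcN0) (cut := Cut.none) (xt := Ext.none) (P1 := 536870912) (W1 := 536870912) (P2 := 536870912) (W2 := 536870912) (P3 := 33554432) (W3 := 16777216) (N0 := 3)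
    rfl rfl rfl k0_pm_101

noncomputable def f_pm_102_a : ℕ → ℕ → ℕ → ℕ → Bool := onCell 536870912 536870912 0 536870912 33554432 16777216
    (rowNK 3 0 false true false .npp 1 0 2 (qsf 536870912 536870912 0 536870912 0) ndN2q1 ndN2q2a pcN0 Cut.none Ext.none)

def k0_pm_102_a : ∃ t, chk3 f_pm_102_a t 1 1 1 = true :=
  ⟨(l 4), by decide +kernel⟩

theorem c_pm_102_a : CertN 536870912 536870912 0 536870912 33554432 16777216 3 false true false .npp 1 0 2
    ndN2q1 ndN2q2a pcN0 Cut.none Ext.none :=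
  certNK0 (fam := false) (s1 := true) (s2 := false) (a := 1) (b := 0) (c := 2) (cn := .npp) (n1 := ndN2q1) (n2 := ndN2q2a) (pc := pcN0) (cut := Cut.none) (xt := Ext.none) (P1 := 536870912) (W1 := 536870912) (P2 := 0) (W2 := 536870912) (P3 := 33554432) (W3 := 16777216) (N0 := 3)
    rfl rfl rfl k0_pm_102_a

noncomputable def f_pm_102_b : ℕ → ℕ → ℕ → ℕ → Bool := onCell 536870912 536870912 1239849684 370763052 33554432 16777216
    (rowNK 3 0 false true false .npp 1 0 2 (qsf 536870912 536870912 1239849684 370763052 0) ndN2q1 ndN2q2b pcN0 Cut.none Ext.none)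

def k0_pm_102_b : ∃ t, chk3 f_pm_102_b t 1 1 1 = true :=
  ⟨(l 4), by decide +kernel⟩

theorem c_pm_102_b : CertN 536870912 536870912 1239849684 370763052 33554432 16777216 3 false true false .npp 1 0 2
    ndN2q1 ndN2q2b pcN0 Cut.none Ext.none :=
  certNK0 (fam := false) (s1 := true) (s2 := false) (a := 1) (b := 0) (c := 2) (cn := .npp) (n1 := ndN2q1) (n2 := ndN2q2b) (pc := pcN0) (cut := Cut.none) (xt := Ext.none) (P1 := 536870912) (W1 := 536870912) (P2 := 1239849684) (W2 := 370763052) (P3 := 33554432) (W3 := 16777216) (N0 := 3)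
    rfl rfl rfl k0_pm_102_b

noncomputable def f_pm_112_a : ℕ → ℕ → ℕ → ℕ → Bool := onCell 536870912 536870912 0 536870912 33554432 16777216
    (rowNK 3 0 false true false .dn 1 1 2 (qsf 536870912 536870912 0 536870912 1) ndN2q1 ndN2q2a pcN1 Cut.none Ext.none)

def k0_pm_112_a : ∃ t, chk3 f_pm_112_a t 1 1 1 = true :=
  ⟨(l 4), by decide +kernel⟩

theorem c_pm_112_a : CertN 536870912 536870912 0 536870912 33554432 16777216 3 false true false .dn 1 1 2
    ndN2q1 ndN2q2a pcN1 Cut.none Ext.none :=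
  certNK0 (fam := false) (s1 := true) (s2 := false) (a := 1) (b := 1) (c := 2) (cn := .dn) (n1 := ndN2q1) (n2 := ndN2q2a) (pc := pcN1) (cut := Cut.none) (xt := Ext.none) (P1 := 536870912) (W1 := 536870912) (P2 := 0) (W2 := 536870912) (P3 := 33554432) (W3 := 16777216) (N0 := 3)
    rfl rfl rfl k0_pm_112_a

noncomputable def f_pm_112_b : ℕ → ℕ → ℕ → ℕ → Bool := onCell 536870912 536870912 1239849684 370763052 33554432 16777216
    (rowNK 3 0 false true false .dn 1 1 2 (qsf 536870912 536870912 1239849684 370763052 1) ndN2q1 ndN2q2b pcN1 Cut.none Ext.none)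

def k0_pm_112_b : ∃ t, chk3 f_pm_112_b t 1 1 1 = true :=
  ⟨(l 4), by decide +kernel⟩

theorem c_pm_112_b : CertN 536870912 536870912 1239849684 370763052 33554432 16777216 3 false true false .dn 1 1 2
    ndN2q1 ndN2q2b pcN1 Cut.none Ext.none :=
  certNK0 (fam := false) (s1 := true) (s2 := false) (a := 1) (b := 1) (c := 2) (cn := .dn) (n1 := ndN2q1) (n2 := ndN2q2b) (pc := pcN1) (cut := Cut.none) (xt := Ext.none) (P1 := 536870912) (W1 := 536870912) (P2 := 1239849684) (W2 := 370763052) (P3 := 33554432) (W3 := 16777216) (N0 := 3)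
    rfl rfl rfl k0_pm_112_b

noncomputable def f_pm_113 : ℕ → ℕ → ℕ → ℕ → Bool := onCell 536870912 536870912 1610612736 536870912 33554432 16777216
    (rowNK 3 0 false true false .nn 1 1 3 (qsf 536870912 536870912 1610612736 536870912 1) ndN2q1 ndN2q3 pcN1 Cut.none Ext.none)

def k0_pm_113 : ∃ t, chk3 f_pm_113 t 1 1 1 = true :=
  ⟨(a (l 4) (b (l 4) (a (l 4) (b (l 4) (a (l 4) (b (l 4) (a (l 4) (b (l 4) (a (l 4) (b (l 4) (a (l 4) (b (l 4) (l 16816432))))))))))))), by decide +kernel⟩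

theorem c_pm_113 : CertN 536870912 536870912 1610612736 536870912 33554432 16777216 3 false true false .nn 1 1 3
    ndN2q1 ndN2q3 pcN1 Cut.none Ext.none :=
  certNK0 (fam := false) (s1 := true) (s2 := false) (a := 1) (b := 1) (c := 3) (cn := .nn) (n1 := ndN2q1) (n2 := ndN2q3) (pc := pcN1) (cut := Cut.none) (xt := Ext.none) (P1 := 536870912) (W1 := 536870912) (P2 := 1610612736) (W2 := 536870912) (P3 := 33554432) (W3 := 16777216) (N0 := 3)
    rfl rfl rfl k0_pm_113

noncomputable def f_pm_123 : ℕ → ℕ → ℕ → ℕ → Bool := onCell 536870912 536870912 1610612736 536870912 33554432 16777216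
    (rowNK 3 0 false true false .npn 1 2 3 (qsf 536870912 536870912 1610612736 536870912 2) ndN2q1 ndN2q3 pcN2 Cut.none Ext.none)

def k0_pm_123 : ∃ t, chk3 f_pm_123 t 1 1 1 = true :=
  ⟨(a (l 4) (b (l 4) (a (l 4) (a (l 4) (a (l 185994742295) (a (l 176867863831) (a (l 17731408) (l 17777088)))))))), by decide +kernel⟩

theorem c_pm_123 : CertN 536870912 536870912 1610612736 536870912 33554432 16777216 3 false true false .npn 1 2 3
    ndN2q1 ndN2q3 pcN2 Cut.none Ext.none :=
  certNK0 (fam := false) (s1 := true) (s2 := false) (a := 1) (b := 2) (c := 3) (cn := .npn) (n1 := ndN2q1) (n2 := ndN2q3) (pc := pcN2) (cut := Cut.none) (xt := Ext.none) (P1 := 536870912) (W1 := 536870912) (P2 := 1610612736) (W2 := 536870912) (P3 := 33554432) (W3 := 16777216) (N0 := 3)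
    rfl rfl rfl k0_pm_123

noncomputable def f_pm_133 : ℕ → ℕ → ℕ → ℕ → Bool := onCell 536870912 536870912 1610612736 536870912 33554432 16777216
    (rowNK 3 0 false true false .dn 1 3 3 (qsf 536870912 536870912 1610612736 536870912 3) ndN2q1 ndN2q3 pcN3 Cut.none Ext.none)

def k0_pm_133 : ∃ t, chk3 f_pm_133 t 1 1 1 = true :=
  ⟨(a (l 4) (l 1)), by decide +kernel⟩

theorem c_pm_133 : CertN 536870912 536870912 1610612736 536870912 33554432 16777216 3 false true false .dn 1 3 3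
    ndN2q1 ndN2q3 pcN3 Cut.none Ext.none :=
  certNK0 (fam := false) (s1 := true) (s2 := false) (a := 1) (b := 3) (c := 3) (cn := .dn) (n1 := ndN2q1) (n2 := ndN2q3) (pc := pcN3) (cut := Cut.none) (xt := Ext.none) (P1 := 536870912) (W1 := 536870912) (P2 := 1610612736) (W2 := 536870912) (P3 := 33554432) (W3 := 16777216) (N0 := 3)
    rfl rfl rfl k0_pm_133

noncomputable def cut_pm_202_aa : Cut := Cut.of [[⟨0, 1, 0, 33554432⟩, ⟨1, 0, 0, 33554432⟩, ⟨2, 1, 0, 33554432⟩], [⟨0, 1, 0, 16777216⟩, ⟨1, 0, 1, 25165824⟩, ⟨2, 1, 1, 25165824⟩, ⟨1, 0, 0, 67108864⟩, ⟨1, 1, 0, 1056964608⟩, ⟨2, 1, 0, 67108864⟩, ⟨2, 2, 0, 1056964608⟩]]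

noncomputable def f_pm_202_aa : ℕ → ℕ → ℕ → ℕ → Bool := onCell 0 536870912 0 536870912 33554432 16777216
    (rowNK 3 0 false true false .pp 2 0 2 (qsf 0 536870912 0 536870912 0) ndN2q2a ndN2q2a pcN0 cut_pm_202_aa Ext.none)

def k0_pm_202_aa : ∃ t, chk3 f_pm_202_aa t 1 1 1 = true :=
  ⟨(a (b (l 3) (b (l 3) (l 1))) (b (a (l 3) (a (l 3) (a (l 18354360) (a (l 18217560) (l 18121608))))) (a (b (l 3) (b (l 3) (l 1))) (b (a (l 3) (a (l 3) (a (b (l 3) (l 3)) (b (l 18032712) (b (l 17928568) (l 17799960)))))) (a (b (l 3) (b (l 3) (l 1))) (b (a (l 3) (a (b (l 3) (l 3)) (b (b (l 17434512) (c (l 17574888) (a (l 3) (b (l 17373672) (l 14))))) (b (c (b (a (l 3) (l 17473368)) (l 14)) (l 14)) (l 14))))) (a (b (l 3) (b (l 3) (l 1))) (b (a (l 3) (b (a (l 3) (l 14)) (l 6))) (l 6))))))))), by decide +kernel⟩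

theorem c_pm_202_aa : CertN 0 536870912 0 536870912 33554432 16777216 3 false true false .pp 2 0 2
    ndN2q2a ndN2q2a pcN0 cut_pm_202_aa Ext.none :=
  certNK0 (fam := false) (s1 := true) (s2 := false) (a := 2) (b := 0) (c := 2) (cn := .pp) (n1 := ndN2q2a) (n2 := ndN2q2a) (pc := pcN0) (cut := cut_pm_202_aa) (xt := Ext.none) (P1 := 0) (W1 := 536870912) (P2 := 0) (W2 := 536870912) (P3 := 33554432) (W3 := 16777216) (N0 := 3)
    rfl rfl rfl k0_pm_202_aa

noncomputable def cut_pm_202_ab : Cut := Cut.of [[⟨0, 1, 0, 33554432⟩, ⟨1, 0, 0, 33554432⟩, ⟨2, 1, 0, 33554432⟩], [⟨0, 1, 0, 16777216⟩, ⟨1, 0, 1, 25165824⟩, ⟨2, 1, 1, 25165824⟩, ⟨1, 0, 0, 67108864⟩, ⟨1, 1, 0, 1056964608⟩, ⟨2, 1, 0, 67108864⟩, ⟨2, 2, 0, 1056964608⟩]]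

noncomputable def f_pm_202_ab : ℕ → ℕ → ℕ → ℕ → Bool := onCell 0 536870912 1239849684 370763052 33554432 16777216
    (rowNK 3 0 false true false .pp 2 0 2 (qsf 0 536870912 1239849684 370763052 0) ndN2q2a ndN2q2b pcN0 cut_pm_202_ab Ext.none)

def k0_pm_202_ab : ∃ t, chk3 f_pm_202_ab t 1 1 1 = true :=
  ⟨(a (b (l 3) (l 3)) (b (a (b (l 3) (l 3)) (a (b (l 3) (l 3)) (a (b (l 3) (l 3)) (a (b (l 18168304) (l 3)) (b (l 18086280) (l 17840416)))))) (a (l 3) (a (l 3) (a (b (l 3) (l 3)) (a (b (l 3) (l 3)) (b (l 17664328) (l 17659248)))))))), by decide +kernel⟩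

theorem c_pm_202_ab : CertN 0 536870912 1239849684 370763052 33554432 16777216 3 false true false .pp 2 0 2
    ndN2q2a ndN2q2b pcN0 cut_pm_202_ab Ext.none :=
  certNK0 (fam := false) (s1 := true) (s2 := false) (a := 2) (b := 0) (c := 2) (cn := .pp) (n1 := ndN2q2a) (n2 := ndN2q2b) (pc := pcN0) (cut := cut_pm_202_ab) (xt := Ext.none) (P1 := 0) (W1 := 536870912) (P2 := 1239849684) (W2 := 370763052) (P3 := 33554432) (W3 := 16777216) (N0 := 3)
    rfl rfl rfl k0_pm_202_ab

noncomputable def cut_pm_202_ba : Cut := Cut.of [[⟨0, 1, 0, 33554432⟩, ⟨1, 0, 0, 33554432⟩, ⟨2, 1, 0, 33554432⟩], [⟨0, 1, 0, 16777216⟩, ⟨1, 0, 1, 25165824⟩, ⟨2, 1, 1, 25165824⟩, ⟨1, 0, 0, 67108864⟩, ⟨1, 1, 0, 1056964608⟩, ⟨2, 1, 0, 67108864⟩, ⟨2, 2, 0, 1056964608⟩]]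

noncomputable def f_pm_202_ba : ℕ → ℕ → ℕ → ℕ → Bool := onCell 1239849684 370763052 0 536870912 33554432 16777216
    (rowNK 3 0 false true false .pp 2 0 2 (qsf 1239849684 370763052 0 536870912 0) ndN2q2b ndN2q2a pcN0 cut_pm_202_ba Ext.none)

def k0_pm_202_ba : ∃ t, chk3 f_pm_202_ba t 1 1 1 = true :=
  ⟨(b (a (l 3) (l 1)) (l 1)), by decide +kernel⟩

theorem c_pm_202_ba : CertN 1239849684 370763052 0 536870912 33554432 16777216 3 false true false .pp 2 0 2
    ndN2q2b ndN2q2a pcN0 cut_pm_202_ba Ext.none :=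
  certNK0 (fam := false) (s1 := true) (s2 := false) (a := 2) (b := 0) (c := 2) (cn := .pp) (n1 := ndN2q2b) (n2 := ndN2q2a) (pc := pcN0) (cut := cut_pm_202_ba) (xt := Ext.none) (P1 := 1239849684) (W1 := 370763052) (P2 := 0) (W2 := 536870912) (P3 := 33554432) (W3 := 16777216) (N0 := 3)
    rfl rfl rfl k0_pm_202_ba

noncomputable def cut_pm_202_bb : Cut := Cut.of [[⟨0, 1, 0, 33554432⟩, ⟨1, 0, 0, 33554432⟩, ⟨2, 1, 0, 33554432⟩], [⟨0, 1, 0, 16777216⟩, ⟨1, 0, 1, 25165824⟩, ⟨2, 1, 1, 25165824⟩, ⟨1, 0, 0, 67108864⟩, ⟨1, 1, 0, 1056964608⟩, ⟨2, 1, 0, 67108864⟩, ⟨2, 2, 0, 1056964608⟩]]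

noncomputable def f_pm_202_bb : ℕ → ℕ → ℕ → ℕ → Bool := onCell 1239849684 370763052 1239849684 370763052 33554432 16777216
    (rowNK 3 0 false true false .pp 2 0 2 (qsf 1239849684 370763052 1239849684 370763052 0) ndN2q2b ndN2q2b pcN0 cut_pm_202_bb Ext.none)

def k0_pm_202_bb : ∃ t, chk3 f_pm_202_bb t 1 1 1 = true :=
  ⟨(a (b (a (l 3) (l 3)) (l 3)) (b (l 3) (l 3))), by decide +kernel⟩

theorem c_pm_202_bb : CertN 1239849684 370763052 1239849684 370763052 33554432 16777216 3 false true false .pp 2 0 2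
    ndN2q2b ndN2q2b pcN0 cut_pm_202_bb Ext.none :=
  certNK0 (fam := false) (s1 := true) (s2 := false) (a := 2) (b := 0) (c := 2) (cn := .pp) (n1 := ndN2q2b) (n2 := ndN2q2b) (pc := pcN0) (cut := cut_pm_202_bb) (xt := Ext.none) (P1 := 1239849684) (W1 := 370763052) (P2 := 1239849684) (W2 := 370763052) (P3 := 33554432) (W3 := 16777216) (N0 := 3)
    rfl rfl rfl k0_pm_202_bb

noncomputable def f_pm_203_a : ℕ → ℕ → ℕ → ℕ → Bool := onCell 0 536870912 0 536870912 33554432 16777216
    (rowNK 3 1 false true false .up 2 0 3 (qsf 0 536870912 1610612736 536870912 0) ndN2q2a ndN2q3 pcN0 Cut.none Ext.none)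

def k0_pm_203_a : ∃ t, chk3 f_pm_203_a t 1 1 1 = true :=
  ⟨(b (l 1) (a (l 3) (a (l 3) (b (l 1) (a (l 3) (a (l 3) (a (l 3) (l 17499264)))))))), by decide +kernel⟩

theorem c_pm_203_a : CertN 0 536870912 1610612736 536870912 33554432 16777216 3 false true false .up 2 0 3
    ndN2q2a ndN2q3 pcN0 Cut.none Ext.none :=
  certNK1 (fam := false) (s1 := true) (s2 := false) (a := 2) (b := 0) (c := 3) (cn := .up) (n1 := ndN2q2a) (n2 := ndN2q3) (pc := pcN0) (cut := Cut.none) (xt := Ext.none) (P1 := 0) (W1 := 536870912) (P2 := 1610612736) (W2 := 536870912) (P3 := 33554432) (W3 := 16777216) (N0 := 3)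
    rfl rfl rfl (fun _ => rfl) k0_pm_203_a

noncomputable def f_pm_203_b : ℕ → ℕ → ℕ → ℕ → Bool := onCell 1239849684 370763052 1610612736 536870912 33554432 16777216
    (rowNK 3 0 false true false .up 2 0 3 (qsf 1239849684 370763052 1610612736 536870912 0) ndN2q2b ndN2q3 pcN0 Cut.none Ext.none)

def k0_pm_203_b : ∃ t, chk3 f_pm_203_b t 1 1 1 = true :=
  ⟨(b (a (l 3) (l 3)) (l 3)), by decide +kernel⟩

theorem c_pm_203_b : CertN 1239849684 370763052 1610612736 536870912 33554432 16777216 3 false true false .up 2 0 3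
    ndN2q2b ndN2q3 pcN0 Cut.none Ext.none :=
  certNK0 (fam := false) (s1 := true) (s2 := false) (a := 2) (b := 0) (c := 3) (cn := .up) (n1 := ndN2q2b) (n2 := ndN2q3) (pc := pcN0) (cut := Cut.none) (xt := Ext.none) (P1 := 1239849684) (W1 := 370763052) (P2 := 1610612736) (W2 := 536870912) (P3 := 33554432) (W3 := 16777216) (N0 := 3)
    rfl rfl rfl k0_pm_203_b

noncomputable def cut_pm_213_a : Cut := Cut.of [[⟨0, 1, 0, 7061502⟩, ⟨1, 1, 0, 7061502⟩, ⟨2, 2, 0, 184626⟩]]

noncomputable def f_pm_213_a : ℕ → ℕ → ℕ → ℕ → Bool := onCell 0 536870912 1610612736 536870912 33554432 16777216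
    (rowNK 3 0 false true false .pnn 2 1 3 (qsf 0 536870912 1610612736 536870912 1) ndN2q2a ndN2q3 pcN1 cut_pm_213_a Ext.none)

def k0_pm_213_a : ∃ t, chk3 f_pm_213_a t 1 1 1 = true :=
  ⟨(a (b (l 3) (l 3)) (b (a (l 3) (b (a (l 3) (a (l 3) (a (l 3) (b (l 17285984) (l 17378400))))) (a (l 3) (a (l 3) (a (l 3) (b (l 17433712) (l 17352984))))))) (a (l 3) (b (a (l 3) (a (l 3) (a (l 3) (b (l 17214000) (l 17188360))))) (a (l 3) (a (l 3) (a (l 3) (b (l 17236936) (a (l 3) (b (l 17027440) (b (l 16915416) (b (l 16848632) (b (l 16833320) (b (l 16814296) (b (l 16804544) (b (l 16789128) (b (l 16785616) (b (a (l 3) (l 16780744)) (l 6))))))))))))))))))), by decide +kernel⟩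

theorem c_pm_213_a : CertN 0 536870912 1610612736 536870912 33554432 16777216 3 false true false .pnn 2 1 3
    ndN2q2a ndN2q3 pcN1 cut_pm_213_a Ext.none :=
  certNK0 (fam := false) (s1 := true) (s2 := false) (a := 2) (b := 1) (c := 3) (cn := .pnn) (n1 := ndN2q2a) (n2 := ndN2q3) (pc := pcN1) (cut := cut_pm_213_a) (xt := Ext.none) (P1 := 0) (W1 := 536870912) (P2 := 1610612736) (W2 := 536870912) (P3 := 33554432) (W3 := 16777216) (N0 := 3)
    rfl rfl rfl k0_pm_213_a

noncomputable def cut_pm_213_b : Cut := Cut.of [[⟨0, 1, 0, 7061502⟩, ⟨1, 1, 0, 7061502⟩, ⟨2, 2, 0, 184626⟩]]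

noncomputable def f_pm_213_b : ℕ → ℕ → ℕ → ℕ → Bool := onCell 1239849684 370763052 1610612736 536870912 33554432 16777216
    (rowNK 3 0 false true false .pnn 2 1 3 (qsf 1239849684 370763052 1610612736 536870912 1) ndN2q2b ndN2q3 pcN1 cut_pm_213_b Ext.none)

def k0_pm_213_b : ∃ t, chk3 f_pm_213_b t 1 1 1 = true :=
  ⟨(b (a (l 3) (l 1)) (l 3)), by decide +kernel⟩

theorem c_pm_213_b : CertN 1239849684 370763052 1610612736 536870912 33554432 16777216 3 false true false .pnn 2 1 3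
    ndN2q2b ndN2q3 pcN1 cut_pm_213_b Ext.none :=
  certNK0 (fam := false) (s1 := true) (s2 := false) (a := 2) (b := 1) (c := 3) (cn := .pnn) (n1 := ndN2q2b) (n2 := ndN2q3) (pc := pcN1) (cut := cut_pm_213_b) (xt := Ext.none) (P1 := 1239849684) (W1 := 370763052) (P2 := 1610612736) (W2 := 536870912) (P3 := 33554432) (W3 := 16777216) (N0 := 3)
    rfl rfl rfl k0_pm_213_b

noncomputable def f_pm_303 : ℕ → ℕ → ℕ → ℕ → Bool := onCell 1610612736 536870912 1610612736 536870912 33554432 16777216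
    (rowNK 3 0 false true false .npn 3 0 3 (qsf 1610612736 536870912 1610612736 536870912 0) ndN2q3 ndN2q3 pcN0 Cut.none Ext.none)

def k0_pm_303 : ∃ t, chk3 f_pm_303 t 1 1 1 = true :=
  ⟨(a (l 3) (l 3)), by decide +kernel⟩

theorem c_pm_303 : CertN 1610612736 536870912 1610612736 536870912 33554432 16777216 3 false true false .npn 3 0 3
    ndN2q3 ndN2q3 pcN0 Cut.none Ext.none :=
  certNK0 (fam := false) (s1 := true) (s2 := false) (a := 3) (b := 0) (c := 3) (cn := .npn) (n1 := ndN2q3) (n2 := ndN2q3) (pc := pcN0) (cut := Cut.none) (xt := Ext.none) (P1 := 1610612736) (W1 := 536870912) (P2 := 1610612736) (W2 := 536870912) (P3 := 33554432) (W3 := 16777216) (N0 := 3)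
    rfl rfl rfl k0_pm_303

noncomputable def f_pm_313 : ℕ → ℕ → ℕ → ℕ → Bool := onCell 1610612736 536870912 1610612736 536870912 33554432 16777216
    (rowNK 3 0 false true false .dn 3 1 3 (qsf 1610612736 536870912 1610612736 536870912 1) ndN2q3 ndN2q3 pcN1 Cut.none Ext.none)

def k0_pm_313 : ∃ t, chk3 f_pm_313 t 1 1 1 = true :=
  ⟨(a (l 3) (l 1)), by decide +kernel⟩

theorem c_pm_313 : CertN 1610612736 536870912 1610612736 536870912 33554432 16777216 3 false true false .dn 3 1 3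
    ndN2q3 ndN2q3 pcN1 Cut.none Ext.none :=
  certNK0 (fam := false) (s1 := true) (s2 := false) (a := 3) (b := 1) (c := 3) (cn := .dn) (n1 := ndN2q3) (n2 := ndN2q3) (pc := pcN1) (cut := Cut.none) (xt := Ext.none) (P1 := 1610612736) (W1 := 536870912) (P2 := 1610612736) (W2 := 536870912) (P3 := 33554432) (W3 := 16777216) (N0 := 3)
    rfl rfl rfl k0_pm_313

noncomputable def f_mm_001 : ℕ → ℕ → ℕ → ℕ → Bool := onCell 0 536870912 0 536870912 33554432 16777216
    (rowNK 3 1 false false false .up 0 0 1 (qsf 0 536870912 536870912 536870912 0) ndN2q0 ndN2q1 pcN0 Cut.none Ext.none)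

def k0_mm_001 : ∃ t, chk3 f_mm_001 t 1 1 1 = true :=
  ⟨(l 3), by decide +kernel⟩

theorem c_mm_001 : CertN 0 536870912 536870912 536870912 33554432 16777216 3 false false false .up 0 0 1
    ndN2q0 ndN2q1 pcN0 Cut.none Ext.none :=
  certNK1 (fam := false) (s1 := false) (s2 := false) (a := 0) (b := 0) (c := 1) (cn := .up) (n1 := ndN2q0) (n2 := ndN2q1) (pc := pcN0) (cut := Cut.none) (xt := Ext.none) (P1 := 0) (W1 := 536870912) (P2 := 536870912) (W2 := 536870912) (P3 := 33554432) (W3 := 16777216) (N0 := 3)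
    rfl rfl rfl (fun _ => rfl) k0_mm_001

noncomputable def f_mm_011 : ℕ → ℕ → ℕ → ℕ → Bool := onCell 0 536870912 536870912 536870912 33554432 16777216
    (rowNK 3 1 false false false .pnn 0 1 1 (qsf 0 536870912 536870912 536870912 1) ndN2q0 ndN2q1 pcN1 Cut.none Ext.none)

def k0_mm_011 : ∃ t, chk3 f_mm_011 t 1 1 1 = true :=
  ⟨(l 5), by decide +kernel⟩

theorem c_mm_011 : CertN 0 536870912 536870912 536870912 33554432 16777216 3 false false false .pnn 0 1 1
    ndN2q0 ndN2q1 pcN1 Cut.none Ext.none :=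
  certNK1 (fam := false) (s1 := false) (s2 := false) (a := 0) (b := 1) (c := 1) (cn := .pnn) (n1 := ndN2q0) (n2 := ndN2q1) (pc := pcN1) (cut := Cut.none) (xt := Ext.none) (P1 := 0) (W1 := 536870912) (P2 := 536870912) (W2 := 536870912) (P3 := 33554432) (W3 := 16777216) (N0 := 3)
    rfl rfl rfl (fun _ => rfl) k0_mm_011

noncomputable def f_mm_012_a : ℕ → ℕ → ℕ → ℕ → Bool := onCell 0 536870912 0 536870912 33554432 16777216
    (rowNK 3 0 false false false .pnp 0 1 2 (qsf 0 536870912 0 536870912 1) ndN2q0 ndN2q2a pcN1 Cut.none Ext.none)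

def k0_mm_012_a : ∃ t, chk3 f_mm_012_a t 1 1 1 = true :=
  ⟨(l 5), by decide +kernel⟩

theorem c_mm_012_a : CertN 0 536870912 0 536870912 33554432 16777216 3 false false false .pnp 0 1 2
    ndN2q0 ndN2q2a pcN1 Cut.none Ext.none :=
  certNK0 (fam := false) (s1 := false) (s2 := false) (a := 0) (b := 1) (c := 2) (cn := .pnp) (n1 := ndN2q0) (n2 := ndN2q2a) (pc := pcN1) (cut := Cut.none) (xt := Ext.none) (P1 := 0) (W1 := 536870912) (P2 := 0) (W2 := 536870912) (P3 := 33554432) (W3 := 16777216) (N0 := 3)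
    rfl rfl rfl k0_mm_012_a

noncomputable def f_mm_012_b : ℕ → ℕ → ℕ → ℕ → Bool := onCell 0 536870912 1239849684 370763052 33554432 16777216
    (rowNK 3 0 false false false .pnp 0 1 2 (qsf 0 536870912 1239849684 370763052 1) ndN2q0 ndN2q2b pcN1 Cut.none Ext.none)

def k0_mm_012_b : ∃ t, chk3 f_mm_012_b t 1 1 1 = true :=
  ⟨(l 5), by decide +kernel⟩

theorem c_mm_012_b : CertN 0 536870912 1239849684 370763052 33554432 16777216 3 false false false .pnp 0 1 2
    ndN2q0 ndN2q2b pcN1 Cut.none Ext.none :=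
  certNK0 (fam := false) (s1 := false) (s2 := false) (a := 0) (b := 1) (c := 2) (cn := .pnp) (n1 := ndN2q0) (n2 := ndN2q2b) (pc := pcN1) (cut := Cut.none) (xt := Ext.none) (P1 := 0) (W1 := 536870912) (P2 := 1239849684) (W2 := 370763052) (P3 := 33554432) (W3 := 16777216) (N0 := 3)
    rfl rfl rfl k0_mm_012_b

noncomputable def f_mm_022_a : ℕ → ℕ → ℕ → ℕ → Bool := onCell 0 536870912 0 536870912 33554432 16777216
    (rowNK 3 0 false false false .pp 0 2 2 (qsf 0 536870912 0 536870912 2) ndN2q0 ndN2q2a pcN2 Cut.none Ext.none)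

def k0_mm_022_a : ∃ t, chk3 f_mm_022_a t 1 1 1 = true :=
  ⟨(l 5), by decide +kernel⟩

theorem c_mm_022_a : CertN 0 536870912 0 536870912 33554432 16777216 3 false false false .pp 0 2 2
    ndN2q0 ndN2q2a pcN2 Cut.none Ext.none :=
  certNK0 (fam := false) (s1 := false) (s2 := false) (a := 0) (b := 2) (c := 2) (cn := .pp) (n1 := ndN2q0) (n2 := ndN2q2a) (pc := pcN2) (cut := Cut.none) (xt := Ext.none) (P1 := 0) (W1 := 536870912) (P2 := 0) (W2 := 536870912) (P3 := 33554432) (W3 := 16777216) (N0 := 3)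
    rfl rfl rfl k0_mm_022_a

noncomputable def f_mm_022_b : ℕ → ℕ → ℕ → ℕ → Bool := onCell 0 536870912 1239849684 370763052 33554432 16777216
    (rowNK 3 0 false false false .pp 0 2 2 (qsf 0 536870912 1239849684 370763052 2) ndN2q0 ndN2q2b pcN2 Cut.none Ext.none)

def k0_mm_022_b : ∃ t, chk3 f_mm_022_b t 1 1 1 = true :=
  ⟨(l 5), by decide +kernel⟩

theorem c_mm_022_b : CertN 0 536870912 1239849684 370763052 33554432 16777216 3 false false false .pp 0 2 2
    ndN2q0 ndN2q2b pcN2 Cut.none Ext.none :=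
  certNK0 (fam := false) (s1 := false) (s2 := false) (a := 0) (b := 2) (c := 2) (cn := .pp) (n1 := ndN2q0) (n2 := ndN2q2b) (pc := pcN2) (cut := Cut.none) (xt := Ext.none) (P1 := 0) (W1 := 536870912) (P2 := 1239849684) (W2 := 370763052) (P3 := 33554432) (W3 := 16777216) (N0 := 3)
    rfl rfl rfl k0_mm_022_b

noncomputable def f_mm_023 : ℕ → ℕ → ℕ → ℕ → Bool := onCell 0 536870912 1610612736 536870912 33554432 16777216
    (rowNK 3 0 false false false .up 0 2 3 (qsf 0 536870912 1610612736 536870912 2) ndN2q0 ndN2q3 pcN2 Cut.none Ext.none)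

def k0_mm_023 : ∃ t, chk3 f_mm_023 t 1 1 1 = true :=
  ⟨(l 5), by decide +kernel⟩

theorem c_mm_023 : CertN 0 536870912 1610612736 536870912 33554432 16777216 3 false false false .up 0 2 3
    ndN2q0 ndN2q3 pcN2 Cut.none Ext.none :=
  certNK0 (fam := false) (s1 := false) (s2 := false) (a := 0) (b := 2) (c := 3) (cn := .up) (n1 := ndN2q0) (n2 := ndN2q3) (pc := pcN2) (cut := Cut.none) (xt := Ext.none) (P1 := 0) (W1 := 536870912) (P2 := 1610612736) (W2 := 536870912) (P3 := 33554432) (W3 := 16777216) (N0 := 3)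
    rfl rfl rfl k0_mm_023

noncomputable def f_mm_033 : ℕ → ℕ → ℕ → ℕ → Bool := onCell 0 536870912 1610612736 536870912 33554432 16777216
    (rowNK 3 0 false false false .pnn 0 3 3 (qsf 0 536870912 1610612736 536870912 3) ndN2q0 ndN2q3 pcN3 Cut.none Ext.none)

def k0_mm_033 : ∃ t, chk3 f_mm_033 t 1 1 1 = true :=
  ⟨(l 5), by decide +kernel⟩

theorem c_mm_033 : CertN 0 536870912 1610612736 536870912 33554432 16777216 3 false false false .pnn 0 3 3
    ndN2q0 ndN2q3 pcN3 Cut.none Ext.none :=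
  certNK0 (fam := false) (s1 := false) (s2 := false) (a := 0) (b := 3) (c := 3) (cn := .pnn) (n1 := ndN2q0) (n2 := ndN2q3) (pc := pcN3) (cut := Cut.none) (xt := Ext.none) (P1 := 0) (W1 := 536870912) (P2 := 1610612736) (W2 := 536870912) (P3 := 33554432) (W3 := 16777216) (N0 := 3)
    rfl rfl rfl k0_mm_033

noncomputable def f_mm_101 : ℕ → ℕ → ℕ → ℕ → Bool := onCell 536870912 536870912 536870912 536870912 33554432 16777216
    (rowNK 3 0 false false false .npn 1 0 1 (qsf 536870912 536870912 536870912 536870912 0) ndN2q1 ndN2q1 pcN0 Cut.none Ext.none)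

def k0_mm_101 : ∃ t, chk3 f_mm_101 t 1 1 1 = true :=
  ⟨(l 3), by decide +kernel⟩

theorem c_mm_101 : CertN 536870912 536870912 536870912 536870912 33554432 16777216 3 false false false .npn 1 0 1
    ndN2q1 ndN2q1 pcN0 Cut.none Ext.none :=
  certNK0 (fam := false) (s1 := false) (s2 := false) (a := 1) (b := 0) (c := 1) (cn := .npn) (n1 := ndN2q1) (n2 := ndN2q1) (pc := pcN0) (cut := Cut.none) (xt := Ext.none) (P1 := 536870912) (W1 := 536870912) (P2 := 536870912) (W2 := 536870912) (P3 := 33554432) (W3 := 16777216) (N0 := 3)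
    rfl rfl rfl k0_mm_101

noncomputable def f_mm_102_a : ℕ → ℕ → ℕ → ℕ → Bool := onCell 536870912 536870912 0 536870912 33554432 16777216
    (rowNK 3 0 false false false .npp 1 0 2 (qsf 536870912 536870912 0 536870912 0) ndN2q1 ndN2q2a pcN0 Cut.none Ext.none)

def k0_mm_102_a : ∃ t, chk3 f_mm_102_a t 1 1 1 = true :=
  ⟨(l 5), by decide +kernel⟩

theorem c_mm_102_a : CertN 536870912 536870912 0 536870912 33554432 16777216 3 false false false .npp 1 0 2
    ndN2q1 ndN2q2a pcN0 Cut.none Ext.none :=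
  certNK0 (fam := false) (s1 := false) (s2 := false) (a := 1) (b := 0) (c := 2) (cn := .npp) (n1 := ndN2q1) (n2 := ndN2q2a) (pc := pcN0) (cut := Cut.none) (xt := Ext.none) (P1 := 536870912) (W1 := 536870912) (P2 := 0) (W2 := 536870912) (P3 := 33554432) (W3 := 16777216) (N0 := 3)
    rfl rfl rfl k0_mm_102_a

noncomputable def f_mm_102_b : ℕ → ℕ → ℕ → ℕ → Bool := onCell 536870912 536870912 1239849684 370763052 33554432 16777216
    (rowNK 3 0 false false false .npp 1 0 2 (qsf 536870912 536870912 1239849684 370763052 0) ndN2q1 ndN2q2b pcN0 Cut.none Ext.none)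

def k0_mm_102_b : ∃ t, chk3 f_mm_102_b t 1 1 1 = true :=
  ⟨(l 5), by decide +kernel⟩

theorem c_mm_102_b : CertN 536870912 536870912 1239849684 370763052 33554432 16777216 3 false false false .npp 1 0 2
    ndN2q1 ndN2q2b pcN0 Cut.none Ext.none :=
  certNK0 (fam := false) (s1 := false) (s2 := false) (a := 1) (b := 0) (c := 2) (cn := .npp) (n1 := ndN2q1) (n2 := ndN2q2b) (pc := pcN0) (cut := Cut.none) (xt := Ext.none) (P1 := 536870912) (W1 := 536870912) (P2 := 1239849684) (W2 := 370763052) (P3 := 33554432) (W3 := 16777216) (N0 := 3)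
    rfl rfl rfl k0_mm_102_b

noncomputable def f_mm_112_a : ℕ → ℕ → ℕ → ℕ → Bool := onCell 536870912 536870912 0 536870912 33554432 16777216
    (rowNK 3 0 false false false .dn 1 1 2 (qsf 536870912 536870912 0 536870912 1) ndN2q1 ndN2q2a pcN1 Cut.none Ext.none)

def k0_mm_112_a : ∃ t, chk3 f_mm_112_a t 1 1 1 = true :=
  ⟨(l 5), by decide +kernel⟩

theorem c_mm_112_a : CertN 536870912 536870912 0 536870912 33554432 16777216 3 false false false .dn 1 1 2
    ndN2q1 ndN2q2a pcN1 Cut.none Ext.none :=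
  certNK0 (fam := false) (s1 := false) (s2 := false) (a := 1) (b := 1) (c := 2) (cn := .dn) (n1 := ndN2q1) (n2 := ndN2q2a) (pc := pcN1) (cut := Cut.none) (xt := Ext.none) (P1 := 536870912) (W1 := 536870912) (P2 := 0) (W2 := 536870912) (P3 := 33554432) (W3 := 16777216) (N0 := 3)
    rfl rfl rfl k0_mm_112_a

noncomputable def f_mm_112_b : ℕ → ℕ → ℕ → ℕ → Bool := onCell 536870912 536870912 1239849684 370763052 33554432 16777216
    (rowNK 3 0 false false false .dn 1 1 2 (qsf 536870912 536870912 1239849684 370763052 1) ndN2q1 ndN2q2b pcN1 Cut.none Ext.none)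

def k0_mm_112_b : ∃ t, chk3 f_mm_112_b t 1 1 1 = true :=
  ⟨(l 5), by decide +kernel⟩

theorem c_mm_112_b : CertN 536870912 536870912 1239849684 370763052 33554432 16777216 3 false false false .dn 1 1 2
    ndN2q1 ndN2q2b pcN1 Cut.none Ext.none :=
  certNK0 (fam := false) (s1 := false) (s2 := false) (a := 1) (b := 1) (c := 2) (cn := .dn) (n1 := ndN2q1) (n2 := ndN2q2b) (pc := pcN1) (cut := Cut.none) (xt := Ext.none) (P1 := 536870912) (W1 := 536870912) (P2 := 1239849684) (W2 := 370763052) (P3 := 33554432) (W3 := 16777216) (N0 := 3)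
    rfl rfl rfl k0_mm_112_b

noncomputable def f_mm_113 : ℕ → ℕ → ℕ → ℕ → Bool := onCell 536870912 536870912 1610612736 536870912 33554432 16777216
    (rowNK 3 0 false false false .nn 1 1 3 (qsf 536870912 536870912 1610612736 536870912 1) ndN2q1 ndN2q3 pcN1 Cut.none Ext.none)

def k0_mm_113 : ∃ t, chk3 f_mm_113 t 1 1 1 = true :=
  ⟨(l 5), by decide +kernel⟩

theorem c_mm_113 : CertN 536870912 536870912 1610612736 536870912 33554432 16777216 3 false false false .nn 1 1 3
    ndN2q1 ndN2q3 pcN1 Cut.none Ext.none :=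
  certNK0 (fam := false) (s1 := false) (s2 := false) (a := 1) (b := 1) (c := 3) (cn := .nn) (n1 := ndN2q1) (n2 := ndN2q3) (pc := pcN1) (cut := Cut.none) (xt := Ext.none) (P1 := 536870912) (W1 := 536870912) (P2 := 1610612736) (W2 := 536870912) (P3 := 33554432) (W3 := 16777216) (N0 := 3)
    rfl rfl rfl k0_mm_113

noncomputable def f_mm_123 : ℕ → ℕ → ℕ → ℕ → Bool := onCell 536870912 536870912 1610612736 536870912 33554432 16777216
    (rowNK 3 0 false false false .npn 1 2 3 (qsf 536870912 536870912 1610612736 536870912 2) ndN2q1 ndN2q3 pcN2 Cut.none Ext.none)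

def k0_mm_123 : ∃ t, chk3 f_mm_123 t 1 1 1 = true :=
  ⟨(l 5), by decide +kernel⟩

theorem c_mm_123 : CertN 536870912 536870912 1610612736 536870912 33554432 16777216 3 false false false .npn 1 2 3
    ndN2q1 ndN2q3 pcN2 Cut.none Ext.none :=
  certNK0 (fam := false) (s1 := false) (s2 := false) (a := 1) (b := 2) (c := 3) (cn := .npn) (n1 := ndN2q1) (n2 := ndN2q3) (pc := pcN2) (cut := Cut.none) (xt := Ext.none) (P1 := 536870912) (W1 := 536870912) (P2 := 1610612736) (W2 := 536870912) (P3 := 33554432) (W3 := 16777216) (N0 := 3)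
    rfl rfl rfl k0_mm_123

noncomputable def f_mm_133 : ℕ → ℕ → ℕ → ℕ → Bool := onCell 536870912 536870912 1610612736 536870912 33554432 16777216
    (rowNK 3 0 false false false .dn 1 3 3 (qsf 536870912 536870912 1610612736 536870912 3) ndN2q1 ndN2q3 pcN3 Cut.none Ext.none)

def k0_mm_133 : ∃ t, chk3 f_mm_133 t 1 1 1 = true :=
  ⟨(l 5), by decide +kernel⟩

theorem c_mm_133 : CertN 536870912 536870912 1610612736 536870912 33554432 16777216 3 false false false .dn 1 3 3
    ndN2q1 ndN2q3 pcN3 Cut.none Ext.none :=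
  certNK0 (fam := false) (s1 := false) (s2 := false) (a := 1) (b := 3) (c := 3) (cn := .dn) (n1 := ndN2q1) (n2 := ndN2q3) (pc := pcN3) (cut := Cut.none) (xt := Ext.none) (P1 := 536870912) (W1 := 536870912) (P2 := 1610612736) (W2 := 536870912) (P3 := 33554432) (W3 := 16777216) (N0 := 3)
    rfl rfl rfl k0_mm_133

noncomputable def f_mm_202_aa : ℕ → ℕ → ℕ → ℕ → Bool := onCell 0 536870912 0 536870912 33554432 16777216
    (rowNK 3 0 false false false .pp 2 0 2 (qsf 0 536870912 0 536870912 0) ndN2q2a ndN2q2a pcN0 Cut.none Ext.none)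

def k0_mm_202_aa : ∃ t, chk3 f_mm_202_aa t 1 1 1 = true :=
  ⟨(l 3), by decide +kernel⟩

theorem c_mm_202_aa : CertN 0 536870912 0 536870912 33554432 16777216 3 false false false .pp 2 0 2
    ndN2q2a ndN2q2a pcN0 Cut.none Ext.none :=
  certNK0 (fam := false) (s1 := false) (s2 := false) (a := 2) (b := 0) (c := 2) (cn := .pp) (n1 := ndN2q2a) (n2 := ndN2q2a) (pc := pcN0) (cut := Cut.none) (xt := Ext.none) (P1 := 0) (W1 := 536870912) (P2 := 0) (W2 := 536870912) (P3 := 33554432) (W3 := 16777216) (N0 := 3)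
    rfl rfl rfl k0_mm_202_aa

noncomputable def f_mm_202_ab : ℕ → ℕ → ℕ → ℕ → Bool := onCell 0 536870912 1239849684 370763052 33554432 16777216
    (rowNK 3 0 false false false .pp 2 0 2 (qsf 0 536870912 1239849684 370763052 0) ndN2q2a ndN2q2b pcN0 Cut.none Ext.none)

def k0_mm_202_ab : ∃ t, chk3 f_mm_202_ab t 1 1 1 = true :=
  ⟨(l 3), by decide +kernel⟩

theorem c_mm_202_ab : CertN 0 536870912 1239849684 370763052 33554432 16777216 3 false false false .pp 2 0 2
    ndN2q2a ndN2q2b pcN0 Cut.none Ext.none :=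
  certNK0 (fam := false) (s1 := false) (s2 := false) (a := 2) (b := 0) (c := 2) (cn := .pp) (n1 := ndN2q2a) (n2 := ndN2q2b) (pc := pcN0) (cut := Cut.none) (xt := Ext.none) (P1 := 0) (W1 := 536870912) (P2 := 1239849684) (W2 := 370763052) (P3 := 33554432) (W3 := 16777216) (N0 := 3)
    rfl rfl rfl k0_mm_202_ab

noncomputable def f_mm_202_ba : ℕ → ℕ → ℕ → ℕ → Bool := onCell 1239849684 370763052 0 536870912 33554432 16777216
    (rowNK 3 0 false false false .pp 2 0 2 (qsf 1239849684 370763052 0 536870912 0) ndN2q2b ndN2q2a pcN0 Cut.none Ext.none)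

def k0_mm_202_ba : ∃ t, chk3 f_mm_202_ba t 1 1 1 = true :=
  ⟨(l 3), by decide +kernel⟩

theorem c_mm_202_ba : CertN 1239849684 370763052 0 536870912 33554432 16777216 3 false false false .pp 2 0 2
    ndN2q2b ndN2q2a pcN0 Cut.none Ext.none :=
  certNK0 (fam := false) (s1 := false) (s2 := false) (a := 2) (b := 0) (c := 2) (cn := .pp) (n1 := ndN2q2b) (n2 := ndN2q2a) (pc := pcN0) (cut := Cut.none) (xt := Ext.none) (P1 := 1239849684) (W1 := 370763052) (P2 := 0) (W2 := 536870912) (P3 := 33554432) (W3 := 16777216) (N0 := 3)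
    rfl rfl rfl k0_mm_202_ba

noncomputable def f_mm_202_bb : ℕ → ℕ → ℕ → ℕ → Bool := onCell 1239849684 370763052 1239849684 370763052 33554432 16777216
    (rowNK 3 0 false false false .pp 2 0 2 (qsf 1239849684 370763052 1239849684 370763052 0) ndN2q2b ndN2q2b pcN0 Cut.none Ext.none)

def k0_mm_202_bb : ∃ t, chk3 f_mm_202_bb t 1 1 1 = true :=
  ⟨(l 3), by decide +kernel⟩

theorem c_mm_202_bb : CertN 1239849684 370763052 1239849684 370763052 33554432 16777216 3 false false false .pp 2 0 2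
    ndN2q2b ndN2q2b pcN0 Cut.none Ext.none :=
  certNK0 (fam := false) (s1 := false) (s2 := false) (a := 2) (b := 0) (c := 2) (cn := .pp) (n1 := ndN2q2b) (n2 := ndN2q2b) (pc := pcN0) (cut := Cut.none) (xt := Ext.none) (P1 := 1239849684) (W1 := 370763052) (P2 := 1239849684) (W2 := 370763052) (P3 := 33554432) (W3 := 16777216) (N0 := 3)
    rfl rfl rfl k0_mm_202_bb

noncomputable def f_mm_203_a : ℕ → ℕ → ℕ → ℕ → Bool := onCell 0 536870912 1610612736 536870912 33554432 16777216
    (rowNK 3 0 false false false .up 2 0 3 (qsf 0 536870912 1610612736 536870912 0) ndN2q2a ndN2q3 pcN0 Cut.none Ext.none)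

def k0_mm_203_a : ∃ t, chk3 f_mm_203_a t 1 1 1 = true :=
  ⟨(l 5), by decide +kernel⟩

theorem c_mm_203_a : CertN 0 536870912 1610612736 536870912 33554432 16777216 3 false false false .up 2 0 3
    ndN2q2a ndN2q3 pcN0 Cut.none Ext.none :=
  certNK0 (fam := false) (s1 := false) (s2 := false) (a := 2) (b := 0) (c := 3) (cn := .up) (n1 := ndN2q2a) (n2 := ndN2q3) (pc := pcN0) (cut := Cut.none) (xt := Ext.none) (P1 := 0) (W1 := 536870912) (P2 := 1610612736) (W2 := 536870912) (P3 := 33554432) (W3 := 16777216) (N0 := 3)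
    rfl rfl rfl k0_mm_203_a

noncomputable def f_mm_203_b : ℕ → ℕ → ℕ → ℕ → Bool := onCell 1239849684 370763052 1610612736 536870912 33554432 16777216
    (rowNK 3 0 false false false .up 2 0 3 (qsf 1239849684 370763052 1610612736 536870912 0) ndN2q2b ndN2q3 pcN0 Cut.none Ext.none)

def k0_mm_203_b : ∃ t, chk3 f_mm_203_b t 1 1 1 = true :=
  ⟨(l 3), by decide +kernel⟩

theorem c_mm_203_b : CertN 1239849684 370763052 1610612736 536870912 33554432 16777216 3 false false false .up 2 0 3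
    ndN2q2b ndN2q3 pcN0 Cut.none Ext.none :=
  certNK0 (fam := false) (s1 := false) (s2 := false) (a := 2) (b := 0) (c := 3) (cn := .up) (n1 := ndN2q2b) (n2 := ndN2q3) (pc := pcN0) (cut := Cut.none) (xt := Ext.none) (P1 := 1239849684) (W1 := 370763052) (P2 := 1610612736) (W2 := 536870912) (P3 := 33554432) (W3 := 16777216) (N0 := 3)
    rfl rfl rfl k0_mm_203_b

noncomputable def f_mm_213_a : ℕ → ℕ → ℕ → ℕ → Bool := onCell 0 536870912 1610612736 536870912 33554432 16777216
    (rowNK 3 0 false false false .pnn 2 1 3 (qsf 0 536870912 1610612736 536870912 1) ndN2q2a ndN2q3 pcN1 Cut.none Ext.none)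

def k0_mm_213_a : ∃ t, chk3 f_mm_213_a t 1 1 1 = true :=
  ⟨(l 5), by decide +kernel⟩

theorem c_mm_213_a : CertN 0 536870912 1610612736 536870912 33554432 16777216 3 false false false .pnn 2 1 3
    ndN2q2a ndN2q3 pcN1 Cut.none Ext.none :=
  certNK0 (fam := false) (s1 := false) (s2 := false) (a := 2) (b := 1) (c := 3) (cn := .pnn) (n1 := ndN2q2a) (n2 := ndN2q3) (pc := pcN1) (cut := Cut.none) (xt := Ext.none) (P1 := 0) (W1 := 536870912) (P2 := 1610612736) (W2 := 536870912) (P3 := 33554432) (W3 := 16777216) (N0 := 3)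
    rfl rfl rfl k0_mm_213_a

noncomputable def f_mm_213_b : ℕ → ℕ → ℕ → ℕ → Bool := onCell 1239849684 370763052 1610612736 536870912 33554432 16777216
    (rowNK 3 0 false false false .pnn 2 1 3 (qsf 1239849684 370763052 1610612736 536870912 1) ndN2q2b ndN2q3 pcN1 Cut.none Ext.none)

def k0_mm_213_b : ∃ t, chk3 f_mm_213_b t 1 1 1 = true :=
  ⟨(l 3), by decide +kernel⟩

theorem c_mm_213_b : CertN 1239849684 370763052 1610612736 536870912 33554432 16777216 3 false false false .pnn 2 1 3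
    ndN2q2b ndN2q3 pcN1 Cut.none Ext.none :=
  certNK0 (fam := false) (s1 := false) (s2 := false) (a := 2) (b := 1) (c := 3) (cn := .pnn) (n1 := ndN2q2b) (n2 := ndN2q3) (pc := pcN1) (cut := Cut.none) (xt := Ext.none) (P1 := 1239849684) (W1 := 370763052) (P2 := 1610612736) (W2 := 536870912) (P3 := 33554432) (W3 := 16777216) (N0 := 3)
    rfl rfl rfl k0_mm_213_b

noncomputable def f_mm_303 : ℕ → ℕ → ℕ → ℕ → Bool := onCell 1610612736 536870912 1610612736 536870912 33554432 16777216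
    (rowNK 3 0 false false false .npn 3 0 3 (qsf 1610612736 536870912 1610612736 536870912 0) ndN2q3 ndN2q3 pcN0 Cut.none Ext.none)

def k0_mm_303 : ∃ t, chk3 f_mm_303 t 1 1 1 = true :=
  ⟨(l 3), by decide +kernel⟩

theorem c_mm_303 : CertN 1610612736 536870912 1610612736 536870912 33554432 16777216 3 false false false .npn 3 0 3
    ndN2q3 ndN2q3 pcN0 Cut.none Ext.none :=
  certNK0 (fam := false) (s1 := false) (s2 := false) (a := 3) (b := 0) (c := 3) (cn := .npn) (n1 := ndN2q3) (n2 := ndN2q3) (pc := pcN0) (cut := Cut.none) (xt := Ext.none) (P1 := 1610612736) (W1 := 536870912) (P2 := 1610612736) (W2 := 536870912) (P3 := 33554432) (W3 := 16777216) (N0 := 3)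
    rfl rfl rfl k0_mm_303

noncomputable def f_mm_313 : ℕ → ℕ → ℕ → ℕ → Bool := onCell 1610612736 536870912 1610612736 536870912 33554432 16777216
    (rowNK 3 0 false false false .dn 3 1 3 (qsf 1610612736 536870912 1610612736 536870912 1) ndN2q3 ndN2q3 pcN1 Cut.none Ext.none)

def k0_mm_313 : ∃ t, chk3 f_mm_313 t 1 1 1 = true :=
  ⟨(l 3), by decide +kernel⟩

theorem c_mm_313 : CertN 1610612736 536870912 1610612736 536870912 33554432 16777216 3 false false false .dn 3 1 3
    ndN2q3 ndN2q3 pcN1 Cut.none Ext.none :=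
  certNK0 (fam := false) (s1 := false) (s2 := false) (a := 3) (b := 1) (c := 3) (cn := .dn) (n1 := ndN2q3) (n2 := ndN2q3) (pc := pcN1) (cut := Cut.none) (xt := Ext.none) (P1 := 1610612736) (W1 := 536870912) (P2 := 1610612736) (W2 := 536870912) (P3 := 33554432) (W3 := 16777216) (N0 := 3)
    rfl rfl rfl k0_mm_313

end Pool.Agent.Strip051.G.I1_32_3_64.Tab.C.NB22

namespace Pool.Agent.Strip051.G.I1_32_3_64.Tab.C.NB23

open Pool.Agent.Strip051.PB Pool.Agent.Strip051.PB.T
open Pool.Agent.Strip051.G.I1_32_3_64.Tab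

noncomputable def f_pp_001 : ℕ → ℕ → ℕ → ℕ → Bool := onCell 0 536870912 0 536870912 33554432 16777216
    (rowNK 3 1 false true true .up 0 0 1 (qsf 0 536870912 536870912 536870912 0) ndN2q0 ndN3q1 pcN0 Cut.none Ext.none)

def k0_pp_001 : ∃ t, chk3 f_pp_001 t 1 1 1 = true :=
  ⟨(l 3), by decide +kernel⟩

theorem c_pp_001 : CertN 0 536870912 536870912 536870912 33554432 16777216 3 false true true .up 0 0 1
    ndN2q0 ndN3q1 pcN0 Cut.none Ext.none :=
  certNK1 (fam := false) (s1 := true) (s2 := true) (a := 0) (b := 0) (c := 1) (cn := .up) (n1 := ndN2q0) (n2 := ndN3q1) (pc := pcN0) (cut := Cut.none) (xt := Ext.none) (P1 := 0) (W1 := 536870912) (P2 := 536870912) (W2 := 536870912) (P3 := 33554432) (W3 := 16777216) (N0 := 3)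
    rfl rfl rfl (fun _ => rfl) k0_pp_001

noncomputable def cut_pp_011 : Cut := Cut.of [[⟨0, 0, 0, 33554432⟩, ⟨1, 1, 0, 33554432⟩, ⟨2, 1, 0, 33554432⟩]]

noncomputable def f_pp_011 : ℕ → ℕ → ℕ → ℕ → Bool := onCell 0 536870912 536870912 536870912 33554432 16777216
    (rowNK 3 1 false true true .pnn 0 1 1 (qsf 0 536870912 536870912 536870912 1) ndN2q0 ndN3q1 pcN1 cut_pp_011 Ext.none)

def k0_pp_011 : ∃ t, chk3 f_pp_011 t 1 1 1 = true :=
  ⟨(a (b (l 3) (b (l 3) (b (l 3) (a (b (l 3) (a (a (b (l 3) (a (l 6) (l 3))) (l 3)) (l 2))) (l 2))))) (l 3)), by decide +kernel⟩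

theorem c_pp_011 : CertN 0 536870912 536870912 536870912 33554432 16777216 3 false true true .pnn 0 1 1
    ndN2q0 ndN3q1 pcN1 cut_pp_011 Ext.none :=
  certNK1 (fam := false) (s1 := true) (s2 := true) (a := 0) (b := 1) (c := 1) (cn := .pnn) (n1 := ndN2q0) (n2 := ndN3q1) (pc := pcN1) (cut := cut_pp_011) (xt := Ext.none) (P1 := 0) (W1 := 536870912) (P2 := 536870912) (W2 := 536870912) (P3 := 33554432) (W3 := 16777216) (N0 := 3)
    rfl rfl rfl (fun _ => rfl) k0_pp_011

noncomputable def f_pp_012 : ℕ → ℕ → ℕ → ℕ → Bool := onCell 0 536870912 536870912 536870912 33554432 16777216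
    (rowNK 3 1 false true true .pnp 0 1 2 (qsf 0 536870912 1073741824 536870912 1) ndN2q0 ndN3q2 pcN1 Cut.none Ext.none)

def k0_pp_012 : ∃ t, chk3 f_pp_012 t 1 1 1 = true :=
  ⟨(b (l 3) (b (l 3) (a (l 3) (b (l 356114091351) (l 355579003943))))), by decide +kernel⟩

theorem c_pp_012 : CertN 0 536870912 1073741824 536870912 33554432 16777216 3 false true true .pnp 0 1 2
    ndN2q0 ndN3q2 pcN1 Cut.none Ext.none :=
  certNK1 (fam := false) (s1 := true) (s2 := true) (a := 0) (b := 1) (c := 2) (cn := .pnp) (n1 := ndN2q0) (n2 := ndN3q2) (pc := pcN1) (cut := Cut.none) (xt := Ext.none) (P1 := 0) (W1 := 536870912) (P2 := 1073741824) (W2 := 536870912) (P3 := 33554432) (W3 := 16777216) (N0 := 3)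
    rfl rfl rfl (fun _ => rfl) k0_pp_012

noncomputable def f_pp_022 : ℕ → ℕ → ℕ → ℕ → Bool := onCell 0 536870912 1073741824 536870912 33554432 16777216
    (rowNK 3 1 false true true .pp 0 2 2 (qsf 0 536870912 1073741824 536870912 2) ndN2q0 ndN3q2 pcN2 Cut.none Ext.none)

def k0_pp_022 : ∃ t, chk3 f_pp_022 t 1 1 1 = true :=
  ⟨(a (b (a (b (b (l 3) (a (l 3) (l 673944783655))) (b (b (b (l 941844304455) (b (l 19187120) (a (b (l 19294744) (l 19316368)) (l 19088600)))) (l 19247384)) (l 19386200))) (b (b (l 3) (l 146737301495)) (b (b (b (l 18859432) (l 18966416)) (l 19056832)) (l 19199240)))) (a (l 19500192) (l 19390352))) (b (b (b (b (b (b (l 18343472) (l 18394240)) (l 18467216)) (l 18601200)) (l 18826704)) (l 19104304)) (b (l 19306512) (l 2)))), by decide +kernel⟩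

theorem c_pp_022 : CertN 0 536870912 1073741824 536870912 33554432 16777216 3 false true true .pp 0 2 2
    ndN2q0 ndN3q2 pcN2 Cut.none Ext.none :=
  certNK1 (fam := false) (s1 := true) (s2 := true) (a := 0) (b := 2) (c := 2) (cn := .pp) (n1 := ndN2q0) (n2 := ndN3q2) (pc := pcN2) (cut := Cut.none) (xt := Ext.none) (P1 := 0) (W1 := 536870912) (P2 := 1073741824) (W2 := 536870912) (P3 := 33554432) (W3 := 16777216) (N0 := 3)
    rfl rfl rfl (fun _ => rfl) k0_pp_022

noncomputable def f_pp_023 : ℕ → ℕ → ℕ → ℕ → Bool := onCell 1073741824 536870912 0 1230186008 33554432 16777216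
    (rowNK 3 2 false true true .up 0 2 3 (qsf 0 536870912 0 1230186008 2) ndN2q0 ndN3q3 pcN2 Cut.none Ext.none)

def k0_pp_023 : ∃ t, chk3 f_pp_023 t 1 1 1 = true :=
  ⟨(a (b (l 2) (a (a (a (a (a (l 19769016) (l 19762264)) (l 19750400)) (l 19723664)) (l 19793664)) (b (l 19408648) (l 19412296)))) (b (a (l 2) (l 18822360)) (b (a (l 19290464) (l 19121120)) (l 19090392)))), by decide +kernel⟩

theorem c_pp_023 : CertN 0 536870912 0 1230186008 33554432 16777216 3 false true true .up 0 2 3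
    ndN2q0 ndN3q3 pcN2 Cut.none Ext.none :=
  certNK2 (fam := false) (s1 := true) (s2 := true) (a := 0) (b := 2) (c := 3) (cn := .up) (n1 := ndN2q0) (n2 := ndN3q3) (pc := pcN2) (cut := Cut.none) (xt := Ext.none) (P1 := 0) (W1 := 536870912) (P2 := 0) (W2 := 1230186008) (P3 := 33554432) (W3 := 16777216) (N0 := 3)
    rfl rfl rfl (fun _ => rfl) k0_pp_023

noncomputable def f_pp_033 : ℕ → ℕ → ℕ → ℕ → Bool := onCell 0 536870912 0 1230186008 33554432 16777216
    (rowNK 3 0 false true true .pnn 0 3 3 (qsf 0 536870912 0 1230186008 3) ndN2q0 ndN3q3 pcN3 Cut.none Ext.none)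

def k0_pp_033 : ∃ t, chk3 f_pp_033 t 1 1 1 = true :=
  ⟨(b (b (a (l 4) (l 4)) (b (a (l 4) (a (l 18604440) (l 18672824))) (a (a (a (l 4) (l 18296432)) (l 18339016)) (a (l 18600920) (l 18586200))))) (b (a (a (b (a (l 18196608) (l 18259720)) (b (l 18116504) (l 18246304))) (b (l 18413200) (l 18241616))) (b (a (l 18385024) (l 18343552)) (a (l 18221400) (l 1)))) (a (a (b (b (l 18564776) (a (l 18851640) (l 18840992))) (b (a (l 18780336) (l 18993096)) (a (l 18256480) (l 18761184)))) (b (l 18645856) (b (l 18948832) (l 1)))) (l 1)))), by decide +kernel⟩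

theorem c_pp_033 : CertN 0 536870912 0 1230186008 33554432 16777216 3 false true true .pnn 0 3 3
    ndN2q0 ndN3q3 pcN3 Cut.none Ext.none :=
  certNK0 (fam := false) (s1 := true) (s2 := true) (a := 0) (b := 3) (c := 3) (cn := .pnn) (n1 := ndN2q0) (n2 := ndN3q3) (pc := pcN3) (cut := Cut.none) (xt := Ext.none) (P1 := 0) (W1 := 536870912) (P2 := 0) (W2 := 1230186008) (P3 := 33554432) (W3 := 16777216) (N0 := 3)
    rfl rfl rfl k0_pp_033

noncomputable def f_pp_101 : ℕ → ℕ → ℕ → ℕ → Bool := onCell 536870912 536870912 536870912 536870912 33554432 16777216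
    (rowNK 3 0 false true true .npn 1 0 1 (qsf 536870912 536870912 536870912 536870912 0) ndN2q1 ndN3q1 pcN0 Cut.none Ext.none)

def k0_pp_101 : ∃ t, chk3 f_pp_101 t 1 1 1 = true :=
  ⟨(l 3), by decide +kernel⟩

theorem c_pp_101 : CertN 536870912 536870912 536870912 536870912 33554432 16777216 3 false true true .npn 1 0 1
    ndN2q1 ndN3q1 pcN0 Cut.none Ext.none :=
  certNK0 (fam := false) (s1 := true) (s2 := true) (a := 1) (b := 0) (c := 1) (cn := .npn) (n1 := ndN2q1) (n2 := ndN3q1) (pc := pcN0) (cut := Cut.none) (xt := Ext.none) (P1 := 536870912) (W1 := 536870912) (P2 := 536870912) (W2 := 536870912) (P3 := 33554432) (W3 := 16777216) (N0 := 3)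
    rfl rfl rfl k0_pp_101

noncomputable def f_pp_102 : ℕ → ℕ → ℕ → ℕ → Bool := onCell 536870912 536870912 0 536870912 33554432 16777216
    (rowNK 3 1 false true true .npp 1 0 2 (qsf 536870912 536870912 1073741824 536870912 0) ndN2q1 ndN3q2 pcN0 Cut.none Ext.none)

def k0_pp_102 : ∃ t, chk3 f_pp_102 t 1 1 1 = true :=
  ⟨(l 3), by decide +kernel⟩

theorem c_pp_102 : CertN 536870912 536870912 1073741824 536870912 33554432 16777216 3 false true true .npp 1 0 2
    ndN2q1 ndN3q2 pcN0 Cut.none Ext.none :=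
  certNK1 (fam := false) (s1 := true) (s2 := true) (a := 1) (b := 0) (c := 2) (cn := .npp) (n1 := ndN2q1) (n2 := ndN3q2) (pc := pcN0) (cut := Cut.none) (xt := Ext.none) (P1 := 536870912) (W1 := 536870912) (P2 := 1073741824) (W2 := 536870912) (P3 := 33554432) (W3 := 16777216) (N0 := 3)
    rfl rfl rfl (fun _ => rfl) k0_pp_102

noncomputable def f_pp_112 : ℕ → ℕ → ℕ → ℕ → Bool := onCell 536870912 536870912 1073741824 536870912 33554432 16777216
    (rowNK 3 2 false true true .dn 1 1 2 (qsf 536870912 536870912 1073741824 536870912 1) ndN2q1 ndN3q2 pcN1 Cut.none Ext.none)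

def k0_pp_112 : ∃ t, chk3 f_pp_112 t 1 1 1 = true :=
  ⟨(a (l 3) (b (l 3) (a (l 19217640) (l 19006728)))), by decide +kernel⟩

theorem c_pp_112 : CertN 536870912 536870912 1073741824 536870912 33554432 16777216 3 false true true .dn 1 1 2
    ndN2q1 ndN3q2 pcN1 Cut.none Ext.none :=
  certNK2 (fam := false) (s1 := true) (s2 := true) (a := 1) (b := 1) (c := 2) (cn := .dn) (n1 := ndN2q1) (n2 := ndN3q2) (pc := pcN1) (cut := Cut.none) (xt := Ext.none) (P1 := 536870912) (W1 := 536870912) (P2 := 1073741824) (W2 := 536870912) (P3 := 33554432) (W3 := 16777216) (N0 := 3)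
    rfl rfl rfl (fun _ => rfl) k0_pp_112

noncomputable def f_pp_113 : ℕ → ℕ → ℕ → ℕ → Bool := onCell 536870912 536870912 0 1230186008 33554432 16777216
    (rowNK 3 0 false true true .nn 1 1 3 (qsf 536870912 536870912 0 1230186008 1) ndN2q1 ndN3q3 pcN1 Cut.none Ext.none)

def k0_pp_113 : ∃ t, chk3 f_pp_113 t 2 1 1 = true :=
  ⟨(b (l 2) (b (b (l 2) (a (l 2) (a (l 2) (b (l 2) (l 17690448))))) (b (a (l 2) (a (b (l 17678424) (l 17764800)) (l 17828000))) (a (b (a (l 2) (l 17754152)) (a (l 17745920) (l 17874312))) (b (l 17964024) (l 18133672)))))), by decide +kernel⟩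

def k1_pp_113 : ∃ t, chk3 f_pp_113 t 6 1 1 = true :=
  ⟨(b (l 2) (b (b (a (l 2) (b (b (l 17461936) (a (l 2) (b (l 17550680) (a (l 17576688) (a (l 17597920) (l 17612176)))))) (b (a (l 17593272) (a (b (l 17616600) (a (l 17649352) (l 17663792))) (l 17665432))) (a (b (l 17652664) (a (l 17677616) (a (l 17699624) (l 17714232)))) (l 17731080))))) (b (a (b (l 17659184) (a (l 17699944) (b (a (l 17728600) (a (l 17746496) (l 17757152))) (l 17759880)))) (b (a (b (a (b (l 17707016) (a (l 17719192) (l 17733944))) (l 17746160)) (l 17760552)) (l 17795656)) (l 17817640))) (l 17840288))) (b (b (l 17974864) (l 18138968)) (b (l 18325808) (l 18562280))))), by decide +kernel⟩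

def k2_pp_113 : ∃ t, chk3 f_pp_113 t 7 1 1 = true :=
  ⟨(a (b (b (l 2) (b (l 17080608) (b (a (l 2) (b (l 17284712) (a (l 17348536) (a (l 17368384) (l 17382136))))) (b (a (l 17387008) (a (b (l 17407320) (a (l 17440288) (l 17454224))) (l 17455328))) (a (b (l 17446208) (a (l 17472552) (a (l 17493024) (l 17507000)))) (l 17525248)))))) (b (b (b (a (b (a (b (l 17512480) (a (l 17545688) (l 17559784))) (l 17560864)) (l 17629184)) (l 17642792)) (l 17774920)) (l 17993792)) (b (l 18367704) (l 319073203015)))) (a (b (b (l 2) (b (b (l 17106912) (b (a (l 17186552) (a (l 17225736) (l 17252704))) (a (b (l 17241544) (a (l 17265904) (l 17292832))) (l 17314896)))) (b (b (a (b (a (l 17304112) (l 17331560)) (l 17356968)) (l 17397400)) (l 17448784)) (l 17562384)))) (b (b (l 17810872) (l 18116944)) (b (l 18583032) (l 19035984)))) (a (b (b (l 16906264) (b (b (b (a (l 17135792) (l 17162128)) (l 17219696)) (l 17338640)) (l 17564176))) (b (l 18045368) (b (l 18706552) (l 19214088))))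 (a (b (b (b (l 2) (b (l 16969176) (b (l 17056728) (l 17121360)))) (l 17459360)) (b (l 18093304) (b (l 18785040) (l 19329704)))) (b (b (b (l 16849800) (b (l 16993560) (l 17115672))) (l 17483968)) (b (l 18124016) (b (l 18830712) (l 19389144)))))))), by decide +kernel⟩

theorem s3_pp_113 : ∃ t, chk3 f_pp_113 t 3 1 1 = true := ex3_a k1_pp_113 k2_pp_113

theorem s4_pp_113 : ∃ t, chk3 f_pp_113 t 1 1 1 = true := ex3_a k0_pp_113 s3_pp_113

theorem c_pp_113 : CertN 536870912 536870912 0 1230186008 33554432 16777216 3 false true true .nn 1 1 3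
    ndN2q1 ndN3q3 pcN1 Cut.none Ext.none :=
  certNK0 (fam := false) (s1 := true) (s2 := true) (a := 1) (b := 1) (c := 3) (cn := .nn) (n1 := ndN2q1) (n2 := ndN3q3) (pc := pcN1) (cut := Cut.none) (xt := Ext.none) (P1 := 536870912) (W1 := 536870912) (P2 := 0) (W2 := 1230186008) (P3 := 33554432) (W3 := 16777216) (N0 := 3)
    rfl rfl rfl s4_pp_113

noncomputable def f_pp_123 : ℕ → ℕ → ℕ → ℕ → Bool := onCell 1073741824 536870912 0 1230186008 33554432 16777216
    (rowNK 3 2 false true true .npn 1 2 3 (qsf 536870912 536870912 0 1230186008 2) ndN2q1 ndN3q3 pcN2 Cut.none Ext.none)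

def k0_pp_123 : ∃ t, chk3 f_pp_123 t 1 1 1 = true :=
  ⟨(a (b (a (b (a (a (a (a (b (l 16827232) (l 16951016)) (l 16879480)) (l 16862072)) (l 16843008)) (l 16863776)) (a (l 17170776) (l 17134656))) (l 17233776)) (b (a (a (a (a (a (l 17550944) (l 17542296)) (l 17529360)) (l 17503832)) (l 17452616)) (l 17351176)) (a (a (a (a (a (l 17734336) (l 17721624)) (l 17702368)) (l 17663920)) (l 17584600)) (l 17420392)))) (b (a (l 17319504) (l 17383960)) (b (a (l 17224688) (l 17091344)) (l 1)))), by decide +kernel⟩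

theorem c_pp_123 : CertN 536870912 536870912 0 1230186008 33554432 16777216 3 false true true .npn 1 2 3
    ndN2q1 ndN3q3 pcN2 Cut.none Ext.none :=
  certNK2 (fam := false) (s1 := true) (s2 := true) (a := 1) (b := 2) (c := 3) (cn := .npn) (n1 := ndN2q1) (n2 := ndN3q3) (pc := pcN2) (cut := Cut.none) (xt := Ext.none) (P1 := 536870912) (W1 := 536870912) (P2 := 0) (W2 := 1230186008) (P3 := 33554432) (W3 := 16777216) (N0 := 3)
    rfl rfl rfl (fun _ => rfl) k0_pp_123

noncomputable def f_pp_133 : ℕ → ℕ → ℕ → ℕ → Bool := onCell 1610612736 536870912 0 1230186008 33554432 16777216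
    (rowNK 3 2 false true true .dn 1 3 3 (qsf 536870912 536870912 0 1230186008 3) ndN2q1 ndN3q3 pcN3 Cut.none Ext.none)

def k0_pp_133 : ∃ t, chk3 f_pp_133 t 1 1 1 = true :=
  ⟨(b (a (a (l 17815712) (l 1)) (l 1)) (l 1)), by decide +kernel⟩

theorem c_pp_133 : CertN 536870912 536870912 0 1230186008 33554432 16777216 3 false true true .dn 1 3 3
    ndN2q1 ndN3q3 pcN3 Cut.none Ext.none :=
  certNK2 (fam := false) (s1 := true) (s2 := true) (a := 1) (b := 3) (c := 3) (cn := .dn) (n1 := ndN2q1) (n2 := ndN3q3) (pc := pcN3) (cut := Cut.none) (xt := Ext.none) (P1 := 536870912) (W1 := 536870912) (P2 := 0) (W2 := 1230186008) (P3 := 33554432) (W3 := 16777216) (N0 := 3)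
    rfl rfl rfl (fun _ => rfl) k0_pp_133

noncomputable def f_pp_202_a : ℕ → ℕ → ℕ → ℕ → Bool := onCell 0 536870912 1073741824 536870912 33554432 16777216
    (rowNK 3 0 false true true .pp 2 0 2 (qsf 0 536870912 1073741824 536870912 0) ndN2q2a ndN3q2 pcN0 Cut.none Ext.none)

def k0_pp_202_a : ∃ t, chk3 f_pp_202_a t 1 1 1 = true :=
  ⟨(l 3), by decide +kernel⟩

theorem c_pp_202_a : CertN 0 536870912 1073741824 536870912 33554432 16777216 3 false true true .pp 2 0 2
    ndN2q2a ndN3q2 pcN0 Cut.none Ext.none :=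
  certNK0 (fam := false) (s1 := true) (s2 := true) (a := 2) (b := 0) (c := 2) (cn := .pp) (n1 := ndN2q2a) (n2 := ndN3q2) (pc := pcN0) (cut := Cut.none) (xt := Ext.none) (P1 := 0) (W1 := 536870912) (P2 := 1073741824) (W2 := 536870912) (P3 := 33554432) (W3 := 16777216) (N0 := 3)
    rfl rfl rfl k0_pp_202_a

noncomputable def f_pp_202_b : ℕ → ℕ → ℕ → ℕ → Bool := onCell 1239849684 370763052 1073741824 536870912 33554432 16777216
    (rowNK 3 0 false true true .pp 2 0 2 (qsf 1239849684 370763052 1073741824 536870912 0) ndN2q2b ndN3q2 pcN0 Cut.none Ext.none)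

def k0_pp_202_b : ∃ t, chk3 f_pp_202_b t 1 1 1 = true :=
  ⟨(l 3), by decide +kernel⟩

theorem c_pp_202_b : CertN 1239849684 370763052 1073741824 536870912 33554432 16777216 3 false true true .pp 2 0 2
    ndN2q2b ndN3q2 pcN0 Cut.none Ext.none :=
  certNK0 (fam := false) (s1 := true) (s2 := true) (a := 2) (b := 0) (c := 2) (cn := .pp) (n1 := ndN2q2b) (n2 := ndN3q2) (pc := pcN0) (cut := Cut.none) (xt := Ext.none) (P1 := 1239849684) (W1 := 370763052) (P2 := 1073741824) (W2 := 536870912) (P3 := 33554432) (W3 := 16777216) (N0 := 3)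
    rfl rfl rfl k0_pp_202_b

noncomputable def f_pp_203_a : ℕ → ℕ → ℕ → ℕ → Bool := onCell 0 536870912 0 1230186008 33554432 16777216
    (rowNK 3 0 false true true .up 2 0 3 (qsf 0 536870912 0 1230186008 0) ndN2q2a ndN3q3 pcN0 Cut.none Ext.none)

def k0_pp_203_a : ∃ t, chk3 f_pp_203_a t 1 1 1 = true :=
  ⟨(b (l 2) (l 3)), by decide +kernel⟩

theorem c_pp_203_a : CertN 0 536870912 0 1230186008 33554432 16777216 3 false true true .up 2 0 3
    ndN2q2a ndN3q3 pcN0 Cut.none Ext.none :=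
  certNK0 (fam := false) (s1 := true) (s2 := true) (a := 2) (b := 0) (c := 3) (cn := .up) (n1 := ndN2q2a) (n2 := ndN3q3) (pc := pcN0) (cut := Cut.none) (xt := Ext.none) (P1 := 0) (W1 := 536870912) (P2 := 0) (W2 := 1230186008) (P3 := 33554432) (W3 := 16777216) (N0 := 3)
    rfl rfl rfl k0_pp_203_a

noncomputable def f_pp_203_b : ℕ → ℕ → ℕ → ℕ → Bool := onCell 1239849684 370763052 0 1230186008 33554432 16777216
    (rowNK 3 0 false true true .up 2 0 3 (qsf 1239849684 370763052 0 1230186008 0) ndN2q2b ndN3q3 pcN0 Cut.none Ext.none)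

def k0_pp_203_b : ∃ t, chk3 f_pp_203_b t 1 1 1 = true :=
  ⟨(b (l 3) (l 3)), by decide +kernel⟩

theorem c_pp_203_b : CertN 1239849684 370763052 0 1230186008 33554432 16777216 3 false true true .up 2 0 3
    ndN2q2b ndN3q3 pcN0 Cut.none Ext.none :=
  certNK0 (fam := false) (s1 := true) (s2 := true) (a := 2) (b := 0) (c := 3) (cn := .up) (n1 := ndN2q2b) (n2 := ndN3q3) (pc := pcN0) (cut := Cut.none) (xt := Ext.none) (P1 := 1239849684) (W1 := 370763052) (P2 := 0) (W2 := 1230186008) (P3 := 33554432) (W3 := 16777216) (N0 := 3)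
    rfl rfl rfl k0_pp_203_b

noncomputable def cut_pp_213_a : Cut := Cut.of [[⟨0, 1, 0, 7061502⟩, ⟨1, 1, 0, 7061502⟩, ⟨2, 2, 0, 184626⟩]]

noncomputable def f_pp_213_a : ℕ → ℕ → ℕ → ℕ → Bool := onCell 0 536870912 0 1230186008 33554432 16777216
    (rowNK 3 0 false true true .pnn 2 1 3 (qsf 0 536870912 0 1230186008 1) ndN2q2a ndN3q3 pcN1 cut_pp_213_a Ext.none)

def k0_pp_213_a : ∃ t, chk3 f_pp_213_a t 1 1 1 = true :=
  ⟨(b (b (b (a (l 3) (a (l 3) (a (l 3) (a (l 3) (a (l 3) (a (l 3) (b (b (b (l 6) (l 3)) (l 3)) (l 3)))))))) (l 3)) (l 3)) (l 3)), by decide +kernel⟩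

theorem c_pp_213_a : CertN 0 536870912 0 1230186008 33554432 16777216 3 false true true .pnn 2 1 3
    ndN2q2a ndN3q3 pcN1 cut_pp_213_a Ext.none :=
  certNK0 (fam := false) (s1 := true) (s2 := true) (a := 2) (b := 1) (c := 3) (cn := .pnn) (n1 := ndN2q2a) (n2 := ndN3q3) (pc := pcN1) (cut := cut_pp_213_a) (xt := Ext.none) (P1 := 0) (W1 := 536870912) (P2 := 0) (W2 := 1230186008) (P3 := 33554432) (W3 := 16777216) (N0 := 3)
    rfl rfl rfl k0_pp_213_a

noncomputable def cut_pp_213_b : Cut := Cut.of [[⟨0, 1, 0, 7061502⟩, ⟨1, 1, 0, 7061502⟩, ⟨2, 2, 0, 184626⟩]]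

noncomputable def f_pp_213_b : ℕ → ℕ → ℕ → ℕ → Bool := onCell 1239849684 370763052 0 1230186008 33554432 16777216
    (rowNK 3 0 false true true .pnn 2 1 3 (qsf 1239849684 370763052 0 1230186008 1) ndN2q2b ndN3q3 pcN1 cut_pp_213_b Ext.none)

def k0_pp_213_b : ∃ t, chk3 f_pp_213_b t 1 1 1 = true :=
  ⟨(b (l 3) (l 3)), by decide +kernel⟩

theorem c_pp_213_b : CertN 1239849684 370763052 0 1230186008 33554432 16777216 3 false true true .pnn 2 1 3
    ndN2q2b ndN3q3 pcN1 cut_pp_213_b Ext.none :=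
  certNK0 (fam := false) (s1 := true) (s2 := true) (a := 2) (b := 1) (c := 3) (cn := .pnn) (n1 := ndN2q2b) (n2 := ndN3q3) (pc := pcN1) (cut := cut_pp_213_b) (xt := Ext.none) (P1 := 1239849684) (W1 := 370763052) (P2 := 0) (W2 := 1230186008) (P3 := 33554432) (W3 := 16777216) (N0 := 3)
    rfl rfl rfl k0_pp_213_b

noncomputable def f_pp_303 : ℕ → ℕ → ℕ → ℕ → Bool := onCell 1610612736 536870912 0 1230186008 33554432 16777216
    (rowNK 3 0 false true true .npn 3 0 3 (qsf 1610612736 536870912 0 1230186008 0) ndN2q3 ndN3q3 pcN0 Cut.none Ext.none)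

def k0_pp_303 : ∃ t, chk3 f_pp_303 t 1 1 1 = true :=
  ⟨(b (l 3) (l 3)), by decide +kernel⟩

theorem c_pp_303 : CertN 1610612736 536870912 0 1230186008 33554432 16777216 3 false true true .npn 3 0 3
    ndN2q3 ndN3q3 pcN0 Cut.none Ext.none :=
  certNK0 (fam := false) (s1 := true) (s2 := true) (a := 3) (b := 0) (c := 3) (cn := .npn) (n1 := ndN2q3) (n2 := ndN3q3) (pc := pcN0) (cut := Cut.none) (xt := Ext.none) (P1 := 1610612736) (W1 := 536870912) (P2 := 0) (W2 := 1230186008) (P3 := 33554432) (W3 := 16777216) (N0 := 3)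
    rfl rfl rfl k0_pp_303

noncomputable def f_pp_313 : ℕ → ℕ → ℕ → ℕ → Bool := onCell 1610612736 536870912 0 1230186008 33554432 16777216
    (rowNK 3 0 false true true .dn 3 1 3 (qsf 1610612736 536870912 0 1230186008 1) ndN2q3 ndN3q3 pcN1 Cut.none Ext.none)

def k0_pp_313 : ∃ t, chk3 f_pp_313 t 1 1 1 = true :=
  ⟨(b (l 3) (l 1)), by decide +kernel⟩

theorem c_pp_313 : CertN 1610612736 536870912 0 1230186008 33554432 16777216 3 false true true .dn 3 1 3
    ndN2q3 ndN3q3 pcN1 Cut.none Ext.none :=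
  certNK0 (fam := false) (s1 := true) (s2 := true) (a := 3) (b := 1) (c := 3) (cn := .dn) (n1 := ndN2q3) (n2 := ndN3q3) (pc := pcN1) (cut := Cut.none) (xt := Ext.none) (P1 := 1610612736) (W1 := 536870912) (P2 := 0) (W2 := 1230186008) (P3 := 33554432) (W3 := 16777216) (N0 := 3)
    rfl rfl rfl k0_pp_313

noncomputable def f_pm_001 : ℕ → ℕ → ℕ → ℕ → Bool := onCell 0 536870912 536870912 536870912 33554432 16777216
    (rowNK 3 0 false true false .up 0 0 1 (qsf 0 536870912 536870912 536870912 0) ndN2q0 ndN3q1 pcN0 Cut.none Ext.none)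

def k0_pm_001 : ∃ t, chk3 f_pm_001 t 1 1 1 = true :=
  ⟨(l 4), by decide +kernel⟩

theorem c_pm_001 : CertN 0 536870912 536870912 536870912 33554432 16777216 3 false true false .up 0 0 1
    ndN2q0 ndN3q1 pcN0 Cut.none Ext.none :=
  certNK0 (fam := false) (s1 := true) (s2 := false) (a := 0) (b := 0) (c := 1) (cn := .up) (n1 := ndN2q0) (n2 := ndN3q1) (pc := pcN0) (cut := Cut.none) (xt := Ext.none) (P1 := 0) (W1 := 536870912) (P2 := 536870912) (W2 := 536870912) (P3 := 33554432) (W3 := 16777216) (N0 := 3)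
    rfl rfl rfl k0_pm_001

noncomputable def f_pm_011 : ℕ → ℕ → ℕ → ℕ → Bool := onCell 0 536870912 536870912 536870912 33554432 16777216
    (rowNK 3 0 false true false .pnn 0 1 1 (qsf 0 536870912 536870912 536870912 1) ndN2q0 ndN3q1 pcN1 Cut.none Ext.none)

def k0_pm_011 : ∃ t, chk3 f_pm_011 t 1 1 1 = true :=
  ⟨(l 4), by decide +kernel⟩

theorem c_pm_011 : CertN 0 536870912 536870912 536870912 33554432 16777216 3 false true false .pnn 0 1 1
    ndN2q0 ndN3q1 pcN1 Cut.none Ext.none :=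
  certNK0 (fam := false) (s1 := true) (s2 := false) (a := 0) (b := 1) (c := 1) (cn := .pnn) (n1 := ndN2q0) (n2 := ndN3q1) (pc := pcN1) (cut := Cut.none) (xt := Ext.none) (P1 := 0) (W1 := 536870912) (P2 := 536870912) (W2 := 536870912) (P3 := 33554432) (W3 := 16777216) (N0 := 3)
    rfl rfl rfl k0_pm_011

noncomputable def f_pm_012 : ℕ → ℕ → ℕ → ℕ → Bool := onCell 0 536870912 1073741824 536870912 33554432 16777216
    (rowNK 3 0 false true false .pnp 0 1 2 (qsf 0 536870912 1073741824 536870912 1) ndN2q0 ndN3q2 pcN1 Cut.none Ext.none)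

def k0_pm_012 : ∃ t, chk3 f_pm_012 t 1 1 1 = true :=
  ⟨(l 4), by decide +kernel⟩

theorem c_pm_012 : CertN 0 536870912 1073741824 536870912 33554432 16777216 3 false true false .pnp 0 1 2
    ndN2q0 ndN3q2 pcN1 Cut.none Ext.none :=
  certNK0 (fam := false) (s1 := true) (s2 := false) (a := 0) (b := 1) (c := 2) (cn := .pnp) (n1 := ndN2q0) (n2 := ndN3q2) (pc := pcN1) (cut := Cut.none) (xt := Ext.none) (P1 := 0) (W1 := 536870912) (P2 := 1073741824) (W2 := 536870912) (P3 := 33554432) (W3 := 16777216) (N0 := 3)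
    rfl rfl rfl k0_pm_012

noncomputable def f_pm_022 : ℕ → ℕ → ℕ → ℕ → Bool := onCell 0 536870912 1073741824 536870912 33554432 16777216
    (rowNK 3 0 false true false .pp 0 2 2 (qsf 0 536870912 1073741824 536870912 2) ndN2q0 ndN3q2 pcN2 Cut.none Ext.none)

def k0_pm_022 : ∃ t, chk3 f_pm_022 t 1 1 1 = true :=
  ⟨(l 4), by decide +kernel⟩

theorem c_pm_022 : CertN 0 536870912 1073741824 536870912 33554432 16777216 3 false true false .pp 0 2 2
    ndN2q0 ndN3q2 pcN2 Cut.none Ext.none :=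
  certNK0 (fam := false) (s1 := true) (s2 := false) (a := 0) (b := 2) (c := 2) (cn := .pp) (n1 := ndN2q0) (n2 := ndN3q2) (pc := pcN2) (cut := Cut.none) (xt := Ext.none) (P1 := 0) (W1 := 536870912) (P2 := 1073741824) (W2 := 536870912) (P3 := 33554432) (W3 := 16777216) (N0 := 3)
    rfl rfl rfl k0_pm_022

noncomputable def f_pm_023 : ℕ → ℕ → ℕ → ℕ → Bool := onCell 0 536870912 0 1230186008 33554432 16777216
    (rowNK 3 0 false true false .up 0 2 3 (qsf 0 536870912 0 1230186008 2) ndN2q0 ndN3q3 pcN2 Cut.none Ext.none)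

def k0_pm_023 : ∃ t, chk3 f_pm_023 t 1 1 1 = true :=
  ⟨(b (l 4) (l 4)), by decide +kernel⟩

theorem c_pm_023 : CertN 0 536870912 0 1230186008 33554432 16777216 3 false true false .up 0 2 3
    ndN2q0 ndN3q3 pcN2 Cut.none Ext.none :=
  certNK0 (fam := false) (s1 := true) (s2 := false) (a := 0) (b := 2) (c := 3) (cn := .up) (n1 := ndN2q0) (n2 := ndN3q3) (pc := pcN2) (cut := Cut.none) (xt := Ext.none) (P1 := 0) (W1 := 536870912) (P2 := 0) (W2 := 1230186008) (P3 := 33554432) (W3 := 16777216) (N0 := 3)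
    rfl rfl rfl k0_pm_023

noncomputable def f_pm_033 : ℕ → ℕ → ℕ → ℕ → Bool := onCell 0 536870912 0 1230186008 33554432 16777216
    (rowNK 3 0 false true false .pnn 0 3 3 (qsf 0 536870912 0 1230186008 3) ndN2q0 ndN3q3 pcN3 Cut.none Ext.none)

def k0_pm_033 : ∃ t, chk3 f_pm_033 t 1 1 1 = true :=
  ⟨(b (l 4) (l 4)), by decide +kernel⟩

theorem c_pm_033 : CertN 0 536870912 0 1230186008 33554432 16777216 3 false true false .pnn 0 3 3
    ndN2q0 ndN3q3 pcN3 Cut.none Ext.none :=
  certNK0 (fam := false) (s1 := true) (s2 := false) (a := 0) (b := 3) (c := 3) (cn := .pnn) (n1 := ndN2q0) (n2 := ndN3q3) (pc := pcN3) (cut := Cut.none) (xt := Ext.none) (P1 := 0) (W1 := 536870912) (P2 := 0) (W2 := 1230186008) (P3 := 33554432) (W3 := 16777216) (N0 := 3)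
    rfl rfl rfl k0_pm_033

noncomputable def f_pm_101 : ℕ → ℕ → ℕ → ℕ → Bool := onCell 536870912 536870912 536870912 536870912 33554432 16777216
    (rowNK 3 0 false true false .npn 1 0 1 (qsf 536870912 536870912 536870912 536870912 0) ndN2q1 ndN3q1 pcN0 Cut.none Ext.none)

def k0_pm_101 : ∃ t, chk3 f_pm_101 t 1 1 1 = true :=
  ⟨(l 4), by decide +kernel⟩

theorem c_pm_101 : CertN 536870912 536870912 536870912 536870912 33554432 16777216 3 false true false .npn 1 0 1
    ndN2q1 ndN3q1 pcN0 Cut.none Ext.none :=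
  certNK0 (fam := false) (s1 := true) (s2 := false) (a := 1) (b := 0) (c := 1) (cn := .npn) (n1 := ndN2q1) (n2 := ndN3q1) (pc := pcN0) (cut := Cut.none) (xt := Ext.none) (P1 := 536870912) (W1 := 536870912) (P2 := 536870912) (W2 := 536870912) (P3 := 33554432) (W3 := 16777216) (N0 := 3)
    rfl rfl rfl k0_pm_101

noncomputable def f_pm_102 : ℕ → ℕ → ℕ → ℕ → Bool := onCell 536870912 536870912 1073741824 536870912 33554432 16777216
    (rowNK 3 0 false true false .npp 1 0 2 (qsf 536870912 536870912 1073741824 536870912 0) ndN2q1 ndN3q2 pcN0 Cut.none Ext.none)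

def k0_pm_102 : ∃ t, chk3 f_pm_102 t 1 1 1 = true :=
  ⟨(l 4), by decide +kernel⟩

theorem c_pm_102 : CertN 536870912 536870912 1073741824 536870912 33554432 16777216 3 false true false .npp 1 0 2
    ndN2q1 ndN3q2 pcN0 Cut.none Ext.none :=
  certNK0 (fam := false) (s1 := true) (s2 := false) (a := 1) (b := 0) (c := 2) (cn := .npp) (n1 := ndN2q1) (n2 := ndN3q2) (pc := pcN0) (cut := Cut.none) (xt := Ext.none) (P1 := 536870912) (W1 := 536870912) (P2 := 1073741824) (W2 := 536870912) (P3 := 33554432) (W3 := 16777216) (N0 := 3)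
    rfl rfl rfl k0_pm_102

noncomputable def f_pm_112 : ℕ → ℕ → ℕ → ℕ → Bool := onCell 536870912 536870912 1073741824 536870912 33554432 16777216
    (rowNK 3 0 false true false .dn 1 1 2 (qsf 536870912 536870912 1073741824 536870912 1) ndN2q1 ndN3q2 pcN1 Cut.none Ext.none)

def k0_pm_112 : ∃ t, chk3 f_pm_112 t 1 1 1 = true :=
  ⟨(l 4), by decide +kernel⟩

theorem c_pm_112 : CertN 536870912 536870912 1073741824 536870912 33554432 16777216 3 false true false .dn 1 1 2
    ndN2q1 ndN3q2 pcN1 Cut.none Ext.none :=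
  certNK0 (fam := false) (s1 := true) (s2 := false) (a := 1) (b := 1) (c := 2) (cn := .dn) (n1 := ndN2q1) (n2 := ndN3q2) (pc := pcN1) (cut := Cut.none) (xt := Ext.none) (P1 := 536870912) (W1 := 536870912) (P2 := 1073741824) (W2 := 536870912) (P3 := 33554432) (W3 := 16777216) (N0 := 3)
    rfl rfl rfl k0_pm_112

noncomputable def f_pm_113 : ℕ → ℕ → ℕ → ℕ → Bool := onCell 536870912 536870912 0 1230186008 33554432 16777216
    (rowNK 3 0 false true false .nn 1 1 3 (qsf 536870912 536870912 0 1230186008 1) ndN2q1 ndN3q3 pcN1 Cut.none Ext.none)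

def k0_pm_113 : ∃ t, chk3 f_pm_113 t 1 1 1 = true :=
  ⟨(b (b (a (l 2) (a (l 2) (a (l 2) (a (l 2) (a (l 16832792) (b (a (l 2) (l 16813984)) (l 4))))))) (l 4)) (l 4)), by decide +kernel⟩

theorem c_pm_113 : CertN 536870912 536870912 0 1230186008 33554432 16777216 3 false true false .nn 1 1 3
    ndN2q1 ndN3q3 pcN1 Cut.none Ext.none :=
  certNK0 (fam := false) (s1 := true) (s2 := false) (a := 1) (b := 1) (c := 3) (cn := .nn) (n1 := ndN2q1) (n2 := ndN3q3) (pc := pcN1) (cut := Cut.none) (xt := Ext.none) (P1 := 536870912) (W1 := 536870912) (P2 := 0) (W2 := 1230186008) (P3 := 33554432) (W3 := 16777216) (N0 := 3)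
    rfl rfl rfl k0_pm_113

noncomputable def f_pm_123 : ℕ → ℕ → ℕ → ℕ → Bool := onCell 536870912 536870912 0 1230186008 33554432 16777216
    (rowNK 3 0 false true false .npn 1 2 3 (qsf 536870912 536870912 0 1230186008 2) ndN2q1 ndN3q3 pcN2 Cut.none Ext.none)

def k0_pm_123 : ∃ t, chk3 f_pm_123 t 1 1 1 = true :=
  ⟨(b (b (a (l 4) (a (l 4) (a (l 4) (a (l 4) (a (l 16864888) (a (l 16870168) (l 16873784))))))) (l 4)) (l 4)), by decide +kernel⟩

theorem c_pm_123 : CertN 536870912 536870912 0 1230186008 33554432 16777216 3 false true false .npn 1 2 3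
    ndN2q1 ndN3q3 pcN2 Cut.none Ext.none :=
  certNK0 (fam := false) (s1 := true) (s2 := false) (a := 1) (b := 2) (c := 3) (cn := .npn) (n1 := ndN2q1) (n2 := ndN3q3) (pc := pcN2) (cut := Cut.none) (xt := Ext.none) (P1 := 536870912) (W1 := 536870912) (P2 := 0) (W2 := 1230186008) (P3 := 33554432) (W3 := 16777216) (N0 := 3)
    rfl rfl rfl k0_pm_123

noncomputable def f_pm_133 : ℕ → ℕ → ℕ → ℕ → Bool := onCell 1610612736 536870912 0 1230186008 33554432 16777216
    (rowNK 3 2 false true false .dn 1 3 3 (qsf 536870912 536870912 0 1230186008 3) ndN2q1 ndN3q3 pcN3 Cut.none Ext.none)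

def k0_pm_133 : ∃ t, chk3 f_pm_133 t 1 1 1 = true :=
  ⟨(b (a (l 4) (l 1)) (l 1)), by decide +kernel⟩

theorem c_pm_133 : CertN 536870912 536870912 0 1230186008 33554432 16777216 3 false true false .dn 1 3 3
    ndN2q1 ndN3q3 pcN3 Cut.none Ext.none :=
  certNK2 (fam := false) (s1 := true) (s2 := false) (a := 1) (b := 3) (c := 3) (cn := .dn) (n1 := ndN2q1) (n2 := ndN3q3) (pc := pcN3) (cut := Cut.none) (xt := Ext.none) (P1 := 536870912) (W1 := 536870912) (P2 := 0) (W2 := 1230186008) (P3 := 33554432) (W3 := 16777216) (N0 := 3)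
    rfl rfl rfl (fun _ => rfl) k0_pm_133

noncomputable def f_pm_202_a : ℕ → ℕ → ℕ → ℕ → Bool := onCell 0 536870912 0 536870912 33554432 16777216
    (rowNK 3 1 false true false .pp 2 0 2 (qsf 0 536870912 1073741824 536870912 0) ndN2q2a ndN3q2 pcN0 Cut.none Ext.none)

def k0_pm_202_a : ∃ t, chk3 f_pm_202_a t 1 1 1 = true :=
  ⟨(a (b (b (b (l 19684008) (c (l 20200472) (l 18517504))) (b (c (l 19174328) (l 18184560)) (c (l 17976944) (l 18368208)))) (b (b (l 18648112) (l 18795792)) (l 18563512))) (b (a (b (b (l 19709064) (c (l 20432672) (l 18551808))) (b (c (l 19659696) (l 18093480)) (c (l 18493688) (l 18078032)))) (b (a (b (l 19790848) (c (l 20575864) (l 18710784))) (a (c (l 20640144) (l 18974504)) (a (c (l 20666032) (l 19029848)) (b (l 19939944) (l 19774480))))) (a (b (c (l 20052096) (c (l 18733600) (l 17955152))) (c (l 18942392) (l 17791744))) (a (b (c (l 20267088) (l 18452256)) (c (l 19209856) (l 17884904))) (a (b (c (l 20367280) (l 18522376)) (c (l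 19350584) (l 17963224))) (b (c (l 20422640) (l 18566368)) (c (l 19445472) (l 18018656)))))))) (a (b (b (l 18198000) (l 18636712)) (l 18551960)) (b (a (b (l 17846192) (l 18420192)) (a (b (l 17896016) (l 18214336)) (a (b (l 17964792) (l 18057720)) (b (c (l 18303744) (l 17636424)) (l 17926056))))) (a (l 18479328) (a (b (l 18442632) (l 18378136)) (a (b (l 18379688) (l 18340024)) (b (l 18324496) (l 18307856))))))))), by decide +kernel⟩

theorem c_pm_202_a : CertN 0 536870912 1073741824 536870912 33554432 16777216 3 false true false .pp 2 0 2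
    ndN2q2a ndN3q2 pcN0 Cut.none Ext.none :=
  certNK1 (fam := false) (s1 := true) (s2 := false) (a := 2) (b := 0) (c := 2) (cn := .pp) (n1 := ndN2q2a) (n2 := ndN3q2) (pc := pcN0) (cut := Cut.none) (xt := Ext.none) (P1 := 0) (W1 := 536870912) (P2 := 1073741824) (W2 := 536870912) (P3 := 33554432) (W3 := 16777216) (N0 := 3)
    rfl rfl rfl (fun _ => rfl) k0_pm_202_a

noncomputable def f_pm_202_b : ℕ → ℕ → ℕ → ℕ → Bool := onCell 0 536870912 1073741824 536870912 33554432 16777216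
    (rowNK 3 2 false true false .pp 2 0 2 (qsf 1239849684 370763052 1073741824 536870912 0) ndN2q2b ndN3q2 pcN0 Cut.none Ext.none)

def k0_pm_202_b : ∃ t, chk3 f_pm_202_b t 1 1 1 = true :=
  ⟨(a (b (a (b (l 1) (a (b (l 19813872) (c (l 20450664) (l 18636568))) (b (l 1) (c (l 20359560) (l 18506656))))) (l 1)) (a (b (a (c (l 19867096) (l 18532512)) (c (l 19441256) (l 18407960))) (c (a (l 18306040) (l 18007664)) (l 18761744))) (b (a (b (c (l 19353112) (l 18125704)) (l 18112368)) (b (l 1) (l 18132344))) (a (l 18618632) (l 18697728))))) (b (l 1) (a (b (l 1) (b (a (l 18491312) (l 1)) (l 119760415431))) (l 1)))), by decide +kernel⟩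

theorem c_pm_202_b : CertN 1239849684 370763052 1073741824 536870912 33554432 16777216 3 false true false .pp 2 0 2
    ndN2q2b ndN3q2 pcN0 Cut.none Ext.none :=
  certNK2 (fam := false) (s1 := true) (s2 := false) (a := 2) (b := 0) (c := 2) (cn := .pp) (n1 := ndN2q2b) (n2 := ndN3q2) (pc := pcN0) (cut := Cut.none) (xt := Ext.none) (P1 := 1239849684) (W1 := 370763052) (P2 := 1073741824) (W2 := 536870912) (P3 := 33554432) (W3 := 16777216) (N0 := 3)
    rfl rfl rfl (fun _ => rfl) k0_pm_202_b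

noncomputable def f_pm_203_a : ℕ → ℕ → ℕ → ℕ → Bool := onCell 0 536870912 0 1230186008 33554432 16777216
    (rowNK 3 0 false true false .up 2 0 3 (qsf 0 536870912 0 1230186008 0) ndN2q2a ndN3q3 pcN0 Cut.none Ext.none)

def k0_pm_203_a : ∃ t, chk3 f_pm_203_a t 1 1 1 = true :=
  ⟨(b (l 2) (b (l 2) (a (b (l 18684368) (l 19088584)) (b (l 2) (a (l 19086968) (a (l 19084552) (a (l 19088568) (a (l 19087864) (l 19085456))))))))), by decide +kernel⟩

theorem c_pm_203_a : CertN 0 536870912 0 1230186008 33554432 16777216 3 false true false .up 2 0 3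
    ndN2q2a ndN3q3 pcN0 Cut.none Ext.none :=
  certNK0 (fam := false) (s1 := true) (s2 := false) (a := 2) (b := 0) (c := 3) (cn := .up) (n1 := ndN2q2a) (n2 := ndN3q3) (pc := pcN0) (cut := Cut.none) (xt := Ext.none) (P1 := 0) (W1 := 536870912) (P2 := 0) (W2 := 1230186008) (P3 := 33554432) (W3 := 16777216) (N0 := 3)
    rfl rfl rfl k0_pm_203_a

noncomputable def f_pm_203_b : ℕ → ℕ → ℕ → ℕ → Bool := onCell 0 536870912 0 1230186008 33554432 16777216
    (rowNK 3 2 false true false .up 2 0 3 (qsf 1239849684 370763052 0 1230186008 0) ndN2q2b ndN3q3 pcN0 Cut.none Ext.none)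

def k0_pm_203_b : ∃ t, chk3 f_pm_203_b t 1 1 1 = true :=
  ⟨(b (a (l 2) (l 3)) (b (a (a (l 2) (l 181095647095)) (a (l 142441231143) (a (l 18063280) (l 18018728)))) (a (a (b (l 2) (a (l 18486592) (l 18566248))) (b (l 18519872) (b (l 18803000) (l 18900272)))) (a (a (l 18757512) (l 18701424)) (b (l 18589416) (b (l 18996768) (a (l 19176624) (l 1)))))))), by decide +kernel⟩

theorem c_pm_203_b : CertN 1239849684 370763052 0 1230186008 33554432 16777216 3 false true false .up 2 0 3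
    ndN2q2b ndN3q3 pcN0 Cut.none Ext.none :=
  certNK2 (fam := false) (s1 := true) (s2 := false) (a := 2) (b := 0) (c := 3) (cn := .up) (n1 := ndN2q2b) (n2 := ndN3q3) (pc := pcN0) (cut := Cut.none) (xt := Ext.none) (P1 := 1239849684) (W1 := 370763052) (P2 := 0) (W2 := 1230186008) (P3 := 33554432) (W3 := 16777216) (N0 := 3)
    rfl rfl rfl (fun _ => rfl) k0_pm_203_b

end Pool.Agent.Strip051.G.I1_32_3_64.Tab.C.NB23

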