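import Pool.Agent.Strip051.G.I1_32_3_64.Tab
import Pool.Agent.Strip051.PB.RowK

/-! # Certificates N8 (generated) -/

set_option linter.all false
set_option maxRecDepth 100000

namespace Pool.Agent.Strip051.G.I1_32_3_64.Tab.C.NB00

open Pool.Agent.Strip051.PB Pool.Agent.Strip051.PB.T
open Pool.Agent.Strip051.G.I1_32_3_64.Tab

noncomputable def cut_pp_022 : Cut := Cut.of [[⟨0, 0, 0, 33554432⟩, ⟨1, 1, 0, 33554432⟩, ⟨2, 1, 0, 33554432⟩]]

noncomputable def f_pp_022 : ℕ → ℕ → ℕ → ℕ → Bool := onCell 1073741824 536870912 0 536870912 33554432 16777216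
    (rowNK 3 2 false true true .pp 0 2 2 (qsf 0 536870912 0 536870912 2) ndN0q0 ndN0q2 pcN2 cut_pp_022 Ext.none)

def k0_pp_022 : ∃ t, chk3 f_pp_022 t 2 2 1 = true :=
  ⟨(a (a (a (a (a (b (l 19118568) (l 18824104)) (b (l 19138240) (l 18854008))) (b (l 19169992) (l 18901400))) (b (l 19235728) (l 18997112))) (b (l 19364088) (l 19203064))) (a (b (l 19510496) (l 19396208)) (l 1))), by decide +kernel⟩

def k1_pp_022 : ∃ t, chk3 f_pp_022 t 2 6 1 = true :=
  ⟨(a (a (a (a (a (b (l 18478544) (b (l 18216560) (l 17989056))) (b (l 18526104) (b (l 18277704) (l 18057312)))) (b (l 18600120) (b (l 18372416) (l 18164040)))) (b (l 18752312) (b (l 18570064) (b (l 18443032) (l 18331232))))) (b (a (l 18966952) (l 19147264)) (a (b (l 18842656) (a (l 18621440) (l 18714224))) (l 154657098407)))) (l 1)), by decide +kernel⟩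

def k2_pp_022 : ∃ t, chk3 f_pp_022 t 8 14 1 = true :=
  ⟨(a (a (a (b (b (l 17766200) (b (l 17625088) (l 17367624))) (b (b (a (l 17184320) (l 17273512)) (c (l 17307416) (a (l 16843280) (l 16998216)))) (b (c (a (l 17088408) (l 17239744)) (a (a (l 16838912) (l 16836688)) (l 16812888))) (a (a (l 16767688) (l 16807240)) (l 16743960))))) (b (b (l 17835824) (c (l 17819096) (l 17306224))) (b (c (b (l 17645552) (l 17500872)) (b (l 17090152) (a (l 17028976) (l 16998552)))) (b (c (a (l 17287856) (l 17295712)) (a (l 16831896) (l 16810928))) (a (l 16749808) (b (l 16832624) (l 16746504))))))) (b (b (l 17924512) (a (c (l 17903128) (l 17422256)) (l 17545752))) (b (b (c (l 17765832) (a (l 17214112) (l 17321680))) (c (a (l 17573168) (l 17649648)) (a (a (l 17053184) (l 17088144)) (a (l 17103568) (l 17120440))))) (b (c (a (a (l 17346600) (l 17398680)) (b (l 17503608) (l 17388728))) (a (a (l 16833360) (l 16836416)) (a (l 16841208) (l 16847720)))) (a (a (l 16741096) (l 16744568)) (a (l 16749928) (l 16757176)))))))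 (b (b (a (l 18100744) (l 18266392)) (a (a (l 17641912) (l 17720576)) (a (l 17760464) (b (l 18154336) (l 17901872))))) (a (b (b (a (l 17402312) (l 17453720)) (b (a (l 17304040) (l 17349472)) (c (l 17619360) (a (l 17083864) (l 17122016))))) (a (b (c (b (l 17577264) (l 17455384)) (a (l 16855960) (l 16865872))) (a (l 16745304) (l 16725856))) (b (c (a (l 17490424) (b (l 17672704) (l 17534072))) (a (l 16772400) (b (a (l 16972936) (l 16979760)) (l 16712096)))) (a (b (a (l 16863656) (l 16723328)) (l 16723048)) (l 1))))) (b (a (c (b (l 18072432) (l 17879520)) (b (a (l 17469176) (l 17452320)) (a (a (l 16987352) (l 17225976)) (l 17233712)))) (l 17573608)) (a (b (l 17073888) (l 1)) (l 1)))))), by decide +kernel⟩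

def k3_pp_022 : ∃ t, chk3 f_pp_022 t 9 14 1 = true :=
  ⟨(a (b (a (b (l 18391496) (l 18121816)) (l 1)) (l 1)) (l 1)), by decide +kernel⟩

def k4_pp_022 : ∃ t, chk3 f_pp_022 t 4 15 1 = true :=
  ⟨(a (b (b (a (a (a (a (b (a (l 16755008) (l 16748112)) (a (b (l 16755168) (l 16756896)) (l 16754408))) (b (b (l 16761280) (l 16763256)) (a (l 16749976) (l 16745320)))) (b (a (a (l 16755624) (l 16751560)) (b (l 16744480) (l 16746552))) (a (b (l 16756504) (a (l 16760336) (l 16756344))) (b (l 16738040) (a (l 16752384) (l 16750600)))))) (a (b (a (b (l 16741424) (l 16744584)) (b (l 16721768) (l 16724840))) (b (a (l 16747848) (l 16728016)) (a (l 16740728) (l 16731240)))) (b (a (l 16728544) (l 16729696)) (a (b (l 16729056) (l 16732064)) (b (l 16729896) (a (l 16732552) (b (l 16732120) (l 16733488)))))))) (a (a (b (a (b (l 16725440) (a (l 16727776) (l 16728136))) (b (a (l 16726072) (l 16726408)) (l 16728560))) (a (b (a (l 16730384) (l 16730632)) (l 16733080)) (l 1))) (l 1)) (l 1))) (a (a (l 6) (a (l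 6) (a (l 6) (a (l 6) (a (l 6) (l 1)))))) (l 1))) (a (a (l 6) (a (l 6) (l 1))) (l 1))) (l 1)), by decide +kernel⟩

def k5_pp_022 : ∃ t, chk3 f_pp_022 t 5 7 1 = true :=
  ⟨(l 1), by decide +kernel⟩

def k6_pp_022 : ∃ t, chk3 f_pp_022 t 3 1 1 = true :=
  ⟨(l 1), by decide +kernel⟩

theorem s7_pp_022 : ∃ t, chk3 f_pp_022 t 4 14 1 = true := ex3_a k2_pp_022 k3_pp_022

theorem s8_pp_022 : ∃ t, chk3 f_pp_022 t 4 7 1 = true := ex3_b s7_pp_022 k4_pp_022

theorem s9_pp_022 : ∃ t, chk3 f_pp_022 t 2 7 1 = true := ex3_a s8_pp_022 k5_pp_022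

theorem s10_pp_022 : ∃ t, chk3 f_pp_022 t 2 3 1 = true := ex3_b k1_pp_022 s9_pp_022

theorem s11_pp_022 : ∃ t, chk3 f_pp_022 t 2 1 1 = true := ex3_b k0_pp_022 s10_pp_022

theorem s12_pp_022 : ∃ t, chk3 f_pp_022 t 1 1 1 = true := ex3_a s11_pp_022 k6_pp_022

theorem c_pp_022 : CertN 0 536870912 0 536870912 33554432 16777216 3 false true true .pp 0 2 2
    ndN0q0 ndN0q2 pcN2 cut_pp_022 Ext.none :=
  certNK2 (fam := false) (s1 := true) (s2 := true) (a := 0) (b := 2) (c := 2) (cn := .pp) (n1 := ndN0q0) (n2 := ndN0q2) (pc := pcN2) (cut := cut_pp_022) (xt := Ext.none) (P1 := 0) (W1 := 536870912) (P2 := 0) (W2 := 536870912) (P3 := 33554432) (W3 := 16777216) (N0 := 3)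
    rfl rfl rfl (fun _ => rfl) s12_pp_022

noncomputable def f_pp_101 : ℕ → ℕ → ℕ → ℕ → Bool := onCell 536870912 536870912 536870912 536870912 33554432 16777216
    (rowNK 3 0 false true true .npn 1 0 1 (qsf 536870912 536870912 536870912 536870912 0) ndN0q1 ndN0q1 pcN0 Cut.none Ext.none)

def k0_pp_101 : ∃ t, chk3 f_pp_101 t 1 1 1 = true :=
  ⟨(l 3), by decide +kernel⟩

theorem c_pp_101 : CertN 536870912 536870912 536870912 536870912 33554432 16777216 3 false true true .npn 1 0 1
    ndN0q1 ndN0q1 pcN0 Cut.none Ext.none :=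
  certNK0 (fam := false) (s1 := true) (s2 := true) (a := 1) (b := 0) (c := 1) (cn := .npn) (n1 := ndN0q1) (n2 := ndN0q1) (pc := pcN0) (cut := Cut.none) (xt := Ext.none) (P1 := 536870912) (W1 := 536870912) (P2 := 536870912) (W2 := 536870912) (P3 := 33554432) (W3 := 16777216) (N0 := 3)
    rfl rfl rfl k0_pp_101

noncomputable def f_pp_102 : ℕ → ℕ → ℕ → ℕ → Bool := onCell 0 536870912 0 536870912 33554432 16777216
    (rowNK 3 2 false true true .npp 1 0 2 (qsf 536870912 536870912 0 536870912 0) ndN0q1 ndN0q2 pcN0 Cut.none Ext.none)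

def k0_pp_102 : ∃ t, chk3 f_pp_102 t 1 1 1 = true :=
  ⟨(a (b (l 3) (l 3)) (l 3)), by decide +kernel⟩

theorem c_pp_102 : CertN 536870912 536870912 0 536870912 33554432 16777216 3 false true true .npp 1 0 2
    ndN0q1 ndN0q2 pcN0 Cut.none Ext.none :=
  certNK2 (fam := false) (s1 := true) (s2 := true) (a := 1) (b := 0) (c := 2) (cn := .npp) (n1 := ndN0q1) (n2 := ndN0q2) (pc := pcN0) (cut := Cut.none) (xt := Ext.none) (P1 := 536870912) (W1 := 536870912) (P2 := 0) (W2 := 536870912) (P3 := 33554432) (W3 := 16777216) (N0 := 3)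
    rfl rfl rfl (fun _ => rfl) k0_pp_102

noncomputable def f_pp_112 : ℕ → ℕ → ℕ → ℕ → Bool := onCell 536870912 536870912 0 536870912 33554432 16777216
    (rowNK 3 0 false true true .dn 1 1 2 (qsf 536870912 536870912 0 536870912 1) ndN0q1 ndN0q2 pcN1 Cut.none Ext.none)

def k0_pp_112 : ∃ t, chk3 f_pp_112 t 1 1 1 = true :=
  ⟨(a (b (b (a (a (b (a (b (a (l 17020832) (l 16996520)) (b (a (l 16914368) (a (l 16841200) (l 16825816))) (a (a (l 16837312) (l 16823584)) (a (l 66202991367) (l 105931423927))))) (b (a (b (l 16920360) (l 29158949623)) (b (l 16846944) (a (l 62981767975) (l 105931399447)))) (a (b (l 86604119815) (l 3)) (l 3)))) (a (b (a (b (l 90362216567) (l 3)) (l 3)) (l 3)) (l 3))) (b (a (b (a (b (a (l 62981770967) (l 106468269431)) (l 3)) (l 3)) (l 3)) (l 3)) (l 3))) (l 3)) (l 3)) (l 3)) (l 1)), by decide +kernel⟩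

theorem c_pp_112 : CertN 536870912 536870912 0 536870912 33554432 16777216 3 false true true .dn 1 1 2
    ndN0q1 ndN0q2 pcN1 Cut.none Ext.none :=
  certNK0 (fam := false) (s1 := true) (s2 := true) (a := 1) (b := 1) (c := 2) (cn := .dn) (n1 := ndN0q1) (n2 := ndN0q2) (pc := pcN1) (cut := Cut.none) (xt := Ext.none) (P1 := 536870912) (W1 := 536870912) (P2 := 0) (W2 := 536870912) (P3 := 33554432) (W3 := 16777216) (N0 := 3)
    rfl rfl rfl k0_pp_112

noncomputable def f_pp_202 : ℕ → ℕ → ℕ → ℕ → Bool := onCell 0 536870912 0 536870912 33554432 16777216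
    (rowNK 3 0 false true true .pp 2 0 2 (qsf 0 536870912 0 536870912 0) ndN0q2 ndN0q2 pcN0 Cut.none Ext.none)

def k0_pp_202 : ∃ t, chk3 f_pp_202 t 1 1 1 = true :=
  ⟨(l 3), by decide +kernel⟩

theorem c_pp_202 : CertN 0 536870912 0 536870912 33554432 16777216 3 false true true .pp 2 0 2
    ndN0q2 ndN0q2 pcN0 Cut.none Ext.none :=
  certNK0 (fam := false) (s1 := true) (s2 := true) (a := 2) (b := 0) (c := 2) (cn := .pp) (n1 := ndN0q2) (n2 := ndN0q2) (pc := pcN0) (cut := Cut.none) (xt := Ext.none) (P1 := 0) (W1 := 536870912) (P2 := 0) (W2 := 536870912) (P3 := 33554432) (W3 := 16777216) (N0 := 3)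
    rfl rfl rfl k0_pp_202

noncomputable def f_pm_001 : ℕ → ℕ → ℕ → ℕ → Bool := onCell 0 536870912 536870912 536870912 33554432 16777216
    (rowNK 3 0 false true false .up 0 0 1 (qsf 0 536870912 536870912 536870912 0) ndN0q0 ndN0q1 pcN0 Cut.none Ext.none)

def k0_pm_001 : ∃ t, chk3 f_pm_001 t 2 1 1 = true :=
  ⟨(b (l 4) (b (b (l 4) (l 2)) (l 2))), by decide +kernel⟩

def k1_pm_001 : ∃ t, chk3 f_pm_001 t 3 2 1 = true :=
  ⟨(b (l 4) (a (l 4) (b (a (l 4) (b (a (l 4) (b (l 4) (a (l 4) (b (l 4) (a (l 4) (b (l 138210874743) (l 115125412423))))))) (a (b (l 4) (a (l 4) (b (a (l 4) (b (l 4) (l 119420385879))) (a (b (l 4) (l 115125414327)) (b (l 108682960247) (l 16853272)))))) (b (a (b (l 4) (a (l 4) (b (l 123715351639) (l 90966236695)))) (b (a (b (l 132305290151) (l 108682959719)) (l 89355659815)) (a (l 16873592) (l 16851648)))) (a (b (a (b (l 115125413783) (l 90429359767)) (l 16873960)) (a (l 16874912) (l 16869104))) (l 16973544)))))) (a (b (a (l 4) (b (l 4) (a (l 4) (b (a (l 4) (b (l 104387990583)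 (l 99019278919))) (a (b (l 99556149287) (l 90966223191)) (l 89355663431)))))) (a (a (b (l 4) (a (l 4) (b (l 4) (c (l 106535443623) (l 105998577319))))) (b (a (l 4) (a (l 4) (c (l 105998595543) (l 103851120887)))) (c (b (a (l 108146057127) (l 94187446807)) (l 93650659511)) (b (a (l 105998581031) (l 90966180679)) (c (l 16825960) (l 80228779383)))))) (b (a (b (a (b (l 4) (l 102240502279)) (b (l 97945534455) (l 90966222263))) (a (b (l 99019275207) (l 16850376)) (l 16874016))) (b (a (l 16880264) (l 16879904)) (l 16923176))) (a (c (b (l 16898808) (l 16886176)) (l 16892336)) (l 17015432))))) (b (a (b (a (c (c (b (l 114051631351) (l 95261175735)) (l 102240516295)) (c (l 103314254231) (b (l 109756672407) (l 96334899383)))) (b (a (b (l 103851120119) (l 16853360)) (l 16875912)) (l 16921304))) (a (b (a (l 89892533879) (l 16877968)) (l 16923432)) (l 16999088))) (c (c (l 17173632) (l 17007096)) (l 17019456))) (c (b (c (b (l 17210968) (l 17203344)) (l 17106440)) (a (a (l 16988064) (l 17010392)) (l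 17138696))) (c (l 17065112) (b (l 17083960) (l 17099192))))))))), by decide +kernel⟩

def k2_pm_001 : ∃ t, chk3 f_pm_001 t 6 6 1 = true :=
  ⟨(a (b (a (l 4) (b (l 4) (b (l 4) (a (l 4) (b (l 4) (a (b (l 4) (l 2)) (b (a (l 4) (l 118883493015)) (a (l 107609200887) (l 16829008))))))))) (b (a (l 2) (a (l 2) (a (l 2) (b (l 143445559991) (l 2))))) (l 2))) (b (b (a (l 4) (a (b (l 4) (b (a (l 4) (c (l 118883498263) (l 114051662503))) (a (b (a (l 4) (l 121567825879)) (a (l 115662264023) (l 16842144))) (c (l 88818716519) (l 84523747239))))) (b (b (l 4) (c (a (l 126399673607) (l 95798023895)) (a (l 120494097831) (l 93113683447)))) (b (a (c (l 86671239095) (l 86134357031)) (l 16858376)) (l 16926936))))) (a (b (a (b (l 4) (a (l 4) (b (l 4) (a (l 4) (l 115662264007))))) (b (c (a (l 137137127959) (b (l 125862777911) (l 88818669415))) (a (l 137137118119) (b (l 116199098375) (l 85060572599)))) (a (b (a (l 123178459559) (l 94187397351)) (l 89892460295)) (l 16865528)))) (a (b (a (b (a (l 4) (l 139284594183))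 (a (l 129084043591) (l 94724272087))) (c (l 88818725655) (l 83986885559))) (a (b (l 89892466951) (l 16851680)) (l 16890456))) (b (a (l 16877104) (l 16901256)) (l 16949640)))) (b (a (a (b (l 89355644839) (l 16887664)) (l 16948864)) (l 17022232)) (a (l 17035688) (l 17070136))))) (b (a (b (a (b (l 16972184) (l 16986168)) (l 17076664)) (l 121971307895)) (b (l 17240352) (l 17329848))) (a (b (l 112307828487) (l 2)) (b (l 107476181751) (l 102644576535)))))), by decide +kernel⟩

def k3_pm_001 : ∃ t, chk3 f_pm_001 t 7 6 1 = true :=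
  ⟨(c (b (a (b (a (b (a (b (a (l 102240475527) (l 16855992)) (l 16886384)) (l 16952144)) (l 17050160)) (a (l 17108448) (l 17123272))) (a (l 17202944) (l 17262696))) (b (a (c (l 17187944) (l 17021352)) (a (l 17237112) (l 17266264))) (a (l 17351584) (l 17437752)))) (a (a (b (l 17340840) (l 17606664)) (b (l 17404632) (l 17655744))) (b (a (l 17498608) (l 17611480)) (b (l 17784304) (l 17924712))))) (b (a (b (a (b (a (b (a (l 99556120887) (l 16846048)) (l 16855744)) (l 16906424)) (l 16994784)) (a (l 17032608) (l 17039304))) (c (l 17147600) (a (l 17128608) (l 17149904)))) (c (b (l 17068160) (l 17112912)) (b (c (l 17085520) (l 17201696)) (a (l 17134304) (l 17138360))))) (c (a (b (l 17219016) (l 17329152)) (b (l 17153448) (l 17276152))) (a (b (a (l 17225128) (l 17244520)) (a (l 17407248) (l 17418744))) (b (a (l 17245888) (l 17225288)) (a (l 17390744) (l 17381776))))))), by decide +kernel⟩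

def k4_pm_001 : ∃ t, chk3 f_pm_001 t 3 7 1 = true :=
  ⟨(a (b (a (l 2) (a (l 2) (a (l 2) (b (b (l 99960343687) (l 2)) (l 2))))) (l 2)) (a (b (b (c (a (l 17906016) (l 17965728)) (c (l 17481928) (a (l 79559345575) (l 17687832)))) (c (a (c (l 73118040391) (l 17831504)) (c (l 18245736) (l 17860592))) (b (c (l 17622848) (a (l 108013886839) (l 17851720))) (c (l 95128537655) (l 90297525383))))) (a (l 2) (b (b (c (l 17624128) (l 17965368)) (l 2)) (l 2)))) (b (b (a (c (l 18057568) (c (l 17346336) (l 17665736))) (c (c (l 18177200) (l 17780512)) (c (l 17378176) (b (l 17425824) (l 17683808))))) (b (c (a (l 18177352) (l 18187512)) (c (l 17568760) (c (l 17549144) (l 17824072)))) (c (c (l 18012976) (l 17635992)) (c (l 17431880) (c (l 17606688) (l 17880928)))))) (b (c (b (l 17784648) (c (l 17453288) (l 17472712))) (c (l 80633481063) (l 18089296))) (b (c (l 17915640) (l 18103968)) (l 18411616)))))), by decide +kernel⟩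

theorem s5_pm_001 : ∃ t, chk3 f_pm_001 t 3 6 1 = true := ex3_a k2_pm_001 k3_pm_001

theorem s6_pm_001 : ∃ t, chk3 f_pm_001 t 3 3 1 = true := ex3_b s5_pm_001 k4_pm_001

theorem s7_pm_001 : ∃ t, chk3 f_pm_001 t 3 1 1 = true := ex3_b k1_pm_001 s6_pm_001

theorem s8_pm_001 : ∃ t, chk3 f_pm_001 t 1 1 1 = true := ex3_a k0_pm_001 s7_pm_001

theorem c_pm_001 : CertN 0 536870912 536870912 536870912 33554432 16777216 3 false true false .up 0 0 1
    ndN0q0 ndN0q1 pcN0 Cut.none Ext.none :=
  certNK0 (fam := false) (s1 := true) (s2 := false) (a := 0) (b := 0) (c := 1) (cn := .up) (n1 := ndN0q0) (n2 := ndN0q1) (pc := pcN0) (cut := Cut.none) (xt := Ext.none) (P1 := 0) (W1 := 536870912) (P2 := 536870912) (W2 := 536870912) (P3 := 33554432) (W3 := 16777216) (N0 := 3)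
    rfl rfl rfl s8_pm_001

noncomputable def cut_pm_011 : Cut := Cut.of [[⟨0, 0, 0, 33554432⟩, ⟨1, 1, 0, 33554432⟩, ⟨2, 1, 0, 33554432⟩], [⟨0, 0, 1, 16777216⟩, ⟨1, 1, 2, 16777216⟩, ⟨2, 1, 0, 6291456⟩, ⟨0, 0, 0, 67108864⟩, ⟨0, 1, 0, 1056964608⟩, ⟨1, 0, 0, 1056964608⟩, ⟨1, 1, 0, 67108864⟩]]

noncomputable def f_pm_011 : ℕ → ℕ → ℕ → ℕ → Bool := onCell 0 536870912 536870912 536870912 33554432 16777216
    (rowNK 3 0 false true false .pnn 0 1 1 (qsf 0 536870912 536870912 536870912 1) ndN0q0 ndN0q1 pcN1 cut_pm_011 Ext.none)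

def k0_pm_011 : ∃ t, chk3 f_pm_011 t 2 2 1 = true :=
  ⟨(l 4), by decide +kernel⟩

def k1_pm_011 : ∃ t, chk3 f_pm_011 t 4 6 1 = true :=
  ⟨(l 4), by decide +kernel⟩

def k2_pm_011 : ∃ t, chk3 f_pm_011 t 4 14 1 = true :=
  ⟨(a (l 4) (b (l 4) (a (l 4) (b (l 4) (a (l 4) (b (l 4) (b (a (l 4) (a (l 4) (b (l 110830340311) (a (l 114051557591) (b (c (l 111367203623) (l 142505706823)) (l 16805008)))))) (b (a (l 4) (c (a (l 101166678679) (l 16797816)) (a (a (l 111904071447) (b (l 112977809383) (l 77544329079))) (l 16792896)))) (a (a (l 4) (a (l 109756594231) (b (l 110293461623) (a (l 111367198855) (l 16794120))))) (b (a (c (a (l 94724200823) (l 16794016)) (l 45332066663)) (l 16801024)) (l 16798704))))))))))), by decide +kernel⟩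

def k3_pm_011 : ∃ t, chk3 f_pm_011 t 8 30 1 = true :=
  ⟨(a (l 4) (b (l 4) (a (l 4) (b (l 4) (a (l 4) (b (l 4) (a (l 4) (b (l 4) (a (b (l 4) (a (l 4) (b (l 4) (a (c (l 97945407447) (l 102240374855)) (c (l 95261051159) (l 83449888615)))))) (b (a (l 4) (b (b (l 4) (l 99019151079)) (b (c (l 101703504135) (l 103314116823)) (a (l 103850986983) (l 75396827255))))) (a (b (a (c (l 101166633063) (l 102777245847)) (c (l 92576701911) (b (l 103314116055) (l 72175597271)))) (a (b (l 85060505623) (l 16784480)) (l 16783592))) (c (b (l 36742121751) (l 16797816)) (l 16783440))))))))))))), by decide +kernel⟩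

def k4_pm_011 : ∃ t, chk3 f_pm_011 t 18 60 1 = true :=
  ⟨(a (l 4) (b (l 4) (a (l 4) (b (l 4) (a (b (l 4) (a (l 4) (b (l 106535363799) (a (l 109219708743) (b (l 105998486503) (l 16793840)))))) (a (b (b (l 4) (l 107609105047)) (b (a (l 104387874983) (c (l 75396839127) (l 54458864407))) (l 16793840))) (b (b (l 108682846215) (a (l 100629777703) (c (l 72712487943) (l 16788280)))) (l 16795000)))))))), by decide +kernel⟩

def k5_pm_011 : ∃ t, chk3 f_pm_011 t 36 122 1 = true :=
  ⟨(a (l 4) (b (l 4) (a (a (l 4) (b (l 4) (b (l 4) (c (l 103314128983) (l 105461606423))))) (b (a (l 4) (b (l 4) (c (l 104387870087) (l 107072218167)))) (b (a (c (l 103850999559) (l 105998476855)) (a (b (l 105998476903) (a (l 99556023367) (l 16793128))) (c (b (l 78618059271) (l 16790112)) (l 37815862871)))) (a (a (b (l 104924735575) (l 85060513383)) (a (b (l 103314120103) (l 16795624)) (l 16788216))) (l 16789088))))))), by decide +kernel⟩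

def k6_pm_011 : ∃ t, chk3 f_pm_011 t 36 123 1 = true :=
  ⟨(a (b (a (l 4) (b (l 4) (a (b (l 4) (a (b (l 4) (c (l 102240377111) (l 104387860311))) (b (c (l 102777253095) (l 105461601895)) (a (l 91502958423) (c (l 16789040) (l 16782896)))))) (b (a (b (l 4) (c (l 103314123815) (l 104387859831))) (a (b (l 100629767127) (l 74859959527)) (b (l 102777248903) (l 16790216)))) (a (a (b (l 87744861735) (l 16788688)) (l 16789152)) (l 16787464)))))) (a (b (a (b (l 4) (a (b (l 4) (a (l 4) (l 99556022183))) (b (a (l 4) (l 100629763927)) (a (c (l 102777246087) (l 101166633175)) (c (l 79154926439) (l 59827565623)))))) (a (b (b (l 4) (c (l 99019151911) (l 103314118903))) (b (a (c (l 103314116807) (l 98482278359)) (c (l 75933701047) (l 54458856967))) (l 16787984))) (b (b (c (l 101703506343) (l 103850989623)) (b (l 97408538935) (a (l 95261054455) (l 16794496)))) (l 16789104)))) (b (a (a (b (a (c (l 101703504231) (l 103850987783)) (c (l 87744863815) (b (l 92576692935) (l 16786704)))) (c (l 16786816) (l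 16785680))) (l 16787328)) (l 16789880)) (l 16790072))) (b (a (b (a (b (a (l 95797926007) (c (l 67880637271) (l 16783464))) (l 16784528)) (l 16785656)) (l 16791528)) (l 16783440)) (a (l 16825704) (l 16870808))))) (b (a (b (b (a (c (l 99556032871) (l 104387865031)) (a (b (l 101166639591) (l 97408542407)) (b (l 94724190151) (l 16785912)))) (a (a (b (l 4) (a (l 104387863319) (l 99556023127))) (a (b (l 105461604919) (l 72175605703)) (b (l 96334797335) (l 16786760)))) (c (l 16788688) (l 16784456)))) (b (a (a (c (l 34057770695) (l 16785016)) (l 16789288)) (l 16796520)) (l 16785768))) (b (a (l 16787392) (l 16810632)) (l 16842616))) (a (b (l 16819248) (l 16906456)) (l 16909360)))), by decide +kernel⟩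

def k7_pm_011 : ∃ t, chk3 f_pm_011 t 37 61 1 = true :=
  ⟨(a (b (b (a (a (l 4) (b (l 4) (b (l 4) (c (l 105998484487) (l 104924733287))))) (b (a (l 4) (b (l 4) (a (l 107072221175) (l 89892358487)))) (a (a (b (l 105998479895) (b (l 97945421687) (l 16795560))) (b (l 100092901367) (l 16790792))) (a (b (b (l 91502969863) (l 16797520)) (l 16801752)) (l 16792264))))) (a (b (b (a (c (l 105461614087) (l 107072217575)) (a (b (l 104924733815) (c (l 16794520) (l 16785592))) (l 16788760))) (a (a (a (l 98482287783) (b (l 106535346391) (l 16794320))) (l 38889610743)) (l 16787688))) (l 16791920)) (b (l 16784832) (l 16847424)))) (b (a (b (l 16845008) (l 16909336)) (l 16911256)) (l 16976904))) (b (b (a (b (a (b (a (l 108145967623) (l 82913035751)) (c (l 35668388071) (l 16786728))) (b (l 16791712) (l 16790208))) (l 16809232)) (l 16811488)) (a (b (l 16849888) (l 16912248)) (l 16934288))) (b (l 16975984) (l 17083656)))), by decide +kernel⟩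

def k8_pm_011 : ∃ t, chk3 f_pm_011 t 19 30 1 = true :=
  ⟨(b (a (b (a (l 4) (b (a (l 4) (b (l 4) (a (l 4) (l 111904074471)))) (a (b (a (l 4) (l 110293463383)) (a (b (l 104387881431) (a (l 110830328023) (b (l 110293454983) (l 16803848)))) (b (a (l 111904068839) (c (l 16795840) (l 16791752))) (l 16791448)))) (b (a (b (l 110293459879) (a (l 105461616759) (l 16793216))) (c (b (l 75396845703) (l 16796136)) (l 36742129415))) (l 16791368))))) (a (b (a (b (l 4) (a (b (l 4) (l 109756587303)) (b (l 110293457415) (a (c (l 92039844935) (l 75933709847)) (l 16787304))))) (b (a (b (l 4) (l 107609101959)) (b (l 99556037287) (b (l 74323104999) (l 16812176)))) (a (a (c (l 42110843271) (l 32984029287)) (l 16798472)) (l 16792832)))) (b (a (a (a (b (l 88281745735) (l 16792960)) (l 16791432)) (l 16788664)) (l 16798760)) (l 16816064))) (b (a (b (a (l 16792656) (l 16797024)) (l 16823304)) (b (l 16826928) (l 16884136))) (l 16857104)))) (b (b (a (a (b (a (l 4) (b (l 4) (l 109219714919))) (a (b (l 112977812455)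 (c (l 68417522535) (l 74859981623))) (l 16793808))) (a (b (b (c (l 107072234567) (l 130694545671)) (l 16802584)) (l 16790632)) (l 16792936))) (l 16819032)) (a (a (l 16792128) (l 16830632)) (l 16886920))) (a (b (l 16882248) (l 16997360)) (l 16992960)))) (a (b (a (b (a (l 16853672) (l 16936744)) (l 16996424)) (l 16951880)) (a (l 17100728) (l 17199240))) (b (l 17064544) (l 17308672)))), by decide +kernel⟩

def k9_pm_011 : ∃ t, chk3 f_pm_011 t 16 62 1 = true :=
  ⟨(a (l 4) (b (l 4) (a (l 4) (b (l 4) (a (l 4) (b (l 4) (a (l 4) (b (l 4) (a (l 4) (b (l 4) (b (a (l 4) (b (l 127473294983) (a (l 4) (a (a (l 122641455959) (l 79154910263)) (l 51237622647))))) (b (a (l 4) (a (c (a (l 89355457687) (l 54995718631)) (l 57680071367)) (l 16780064))) (a (a (l 4) (a (l 114588392151) (l 55532589815))) (l 16779408)))))))))))))), by decide +kernel⟩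

def k10_pm_011 : ∃ t, chk3 f_pm_011 t 34 124 1 = true :=
  ⟨(a (l 4) (b (l 4) (a (l 4) (b (l 4) (a (l 4) (b (l 4) (b (a (l 4) (c (a (l 100092885591) (b (l 100092884967) (b (l 86134239031) (l 49627014999)))) (a (l 103850978007) (b (l 103314106439) (a (l 70564978279) (l 16782352)))))) (b (a (c (l 100092885463) (l 103850977927)) (a (a (b (l 102777236727) (l 74859948407)) (b (l 80228658199) (l 16783776))) (l 16784104))) (a (a (l 102777237319) (a (l 87207979735) (b (l 77007432023) (l 16781488)))) (l 16781504)))))))))), by decide +kernel⟩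

def k11_pm_011 : ∃ t, chk3 f_pm_011 t 68 250 1 = true :=
  ⟨(a (l 4) (b (l 4) (a (l 4) (b (l 4) (a (a (l 4) (b (l 4) (b (l 4) (c (l 100629750231) (l 126399553383))))) (a (b (l 4) (c (b (l 100629750311) (b (a (l 92576686055) (l 54458850711)) (a (l 56069463383) (l 16781792)))) (b (l 124788940679) (a (c (l 61438169751) (l 57143200855)) (l 16779072))))) (b (b (l 4) (c (l 100092879479) (l 122641457079))) (b (b (a (a (l 129620780039) (l 122641457815)) (l 47479528807)) (c (c (l 35131497831) (l 16780144)) (l 16779264))) (l 16783688))))))))), by decide +kernel⟩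

def k12_pm_011 : ∃ t, chk3 f_pm_011 t 136 502 1 = true :=
  ⟨(a (l 4) (b (l 4) (a (l 4) (b (l 4) (b (a (l 4) (b (a (l 4) (a (l 129083907959) (l 72712460503))) (a (a (l 129620778839) (l 74859944119)) (l 33520883623)))) (b (a (c (l 92039816631) (a (l 4) (l 74859941495))) (c (l 23857207063) (l 16778952))) (a (c (a (l 88818588151) (l 38352721671)) (a (l 76470554215) (l 16779392))) (l 16782008)))))))), by decide +kernel⟩

def k13_pm_011 : ∃ t, chk3 f_pm_011 t 136 503 1 = true :=
  ⟨(a (b (a (l 4) (b (l 4) (b (a (l 4) (b (c (l 100092877463) (l 123715197383)) (a (l 122641456599) (a (l 63585654407) (l 16779800))))) (b (a (c (l 100629748311) (l 126936422823)) (a (a (l 66270008951) (l 16779696)) (l 16779808))) (a (a (l 125862682023) (a (l 68417492567) (l 37815850279))) (l 16780648)))))) (a (a (b (b (l 4) (b (l 127473295031) (a (l 127473294663) (a (a (l 117809617799) (l 73786201191)) (l 45868913303))))) (a (b (b (a (a (l 119957101431) (l 76470555735)) (l 49090139031)) (l 16780184)) (l 16781136))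 (l 16780032))) (b (a (b (l 128010165975) (b (a (a (l 115125263271) (l 71101846647)) (l 43721429783)) (l 16779128))) (b (b (l 127473294727) (a (a (l 112977779639) (l 68417492103)) (l 42110817223))) (l 16780088))) (l 16778808))) (a (a (b (b (b (a (l 71101847111) (l 39963333751)) (l 16779392)) (l 16781960)) (l 16786912)) (l 16780352)) (l 16780784)))) (b (b (a (a (b (l 4) (b (c (l 98482264807) (l 121030842855)) (a (a (l 4) (l 116735876439)) (a (l 58753816247) (l 16780024))))) (a (c (b (l 97945393943) (b (l 44258301543) (l 16781392))) (b (c (l 94724168903) (l 123715194103)) (l 16778592))) (b (b (c (l 90429200839) (l 78618037863)) (c (l 42110817927) (l 16778552))) (l 16781400)))) (a (a (a (b (b (l 51774494599) (l 16780008)) (l 16783056)) (l 16780816)) (l 16781200)) (l 16782064))) (b (b (a (a (a (a (l 61438170775) (l 16779912)) (l 16780096)) (l 16783304)) (l 16790104)) (l 16779640)) (l 16779944))) (a (l 16779416) (l 16783568)))), by decide +kernel⟩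

def k14_pm_011 : ∃ t, chk3 f_pm_011 t 137 251 1 = true :=
  ⟨(b (a (b (a (a (l 4) (b (l 4) (b (l 4) (l 128010167495)))) (a (b (l 4) (b (l 128547038471) (b (a (l 128547037735) (a (l 117272748055) (l 57680075159))) (a (a (l 118883360759) (l 59827558743)) (l 16781040))))) (b (c (b (l 4) (l 100092879159)) (l 128010166743)) (b (b (a (l 129620779623) (c (l 66806881287) (l 53921976055))) (a (c (l 68417493975) (l 56069459687)) (l 16780016))) (l 16780960))))) (a (b (a (b (l 4) (b (a (l 4) (a (l 125325811623) (l 67343751415))) (a (a (l 126936424343) (l 70028105959)) (l 16780496)))) (b (b (a (l 4) (a (l 121030844375) (l 62511913271))) (a (a (l 123178328007) (l 65196267799)) (l 16780760))) (l 16780280))) (c (c (a (l 16780248) (l 16782784)) (l 16779328)) (l 16779240))) (a (b (l 16780304) (l 16793368)) (l 16783496)))) (b (a (b (b (a (c (l 100629750151) (l 128010166071)) (b (a (l 130157650647) (a (l 72175590263) (l 16781624))) (a (a (l 74859944807) (l 16780856)) (l 16780616)))) (a (b (a (l 130157650599)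 (a (l 83449880023) (l 16780760))) (a (c (l 65196268743) (l 52311363367)) (l 16780312))) (l 16782968))) (l 16781104)) (l 16780440)) (l 16778584))) (b (a (a (l 16788296) (l 16788144)) (l 16783688)) (a (a (l 16793688) (l 16804448)) (l 16800616)))), by decide +kernel⟩

def k15_pm_011 : ∃ t, chk3 f_pm_011 t 138 250 1 = true :=
  ⟨(b (a (l 4) (b (l 4) (b (b (l 4) (a (l 4) (a (l 4) (b (l 103314106791) (a (l 103850977319) (l 59827561415)))))) (b (a (l 4) (b (a (l 103850977639) (c (l 43721434103) (l 16780088))) (a (a (l 103850977271) (l 63585657703)) (l 16782576)))) (a (a (l 4) (a (l 103314106647) (b (l 103314106327) (b (l 85597365623) (l 16781224))))) (a (c (c (b (l 47479530423) (l 16780864)) (l 30836530311)) (l 26541561223)) (l 16786680))))))) (a (b (a (a (l 4) (b (l 4) (a (l 4) (b (l 4) (b (l 4) (a (l 133378876583) (l 83986751607))))))) (a (b (l 4) (b (c (l 95797915047) (c (l 90429203319) (l 92039814359))) (b (a (a (l 133915747527) (l 82376138887)) (l 16781088)) (l 16780888)))) (b (b (l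 4) (a (l 103314106519) (b (l 103314106199) (c (l 85060494167) (l 66806879655))))) (b (b (a (c (l 86134235639) (l 68954363287)) (l 16782688)) (l 16781216)) (l 16779920))))) (a (b (b (a (c (l 98482269447) (c (l 94724170519) (l 119957099095))) (a (b (a (l 132842005639) (l 86134235239)) (l 16781000)) (l 16781144))) (a (b (a (b (l 131231392855) (l 115662136007)) (l 44258303799)) (c (l 31373401511) (l 16779536))) (l 16784416))) (l 16781552)) (l 16782472))) (b (b (a (a (a (b (l 103314106583) (b (b (l 122641458471) (l 77007430519)) (l 16782840))) (b (b (l 103314106263) (b (l 121030845767) (l 63048785527))) (l 16781632))) (b (a (a (c (l 59290689911) (l 48016397863)) (l 38889595495)) (l 16781976)) (l 16785920))) (l 16781520)) (l 16781312)) (l 16781784)))), by decide +kernel⟩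

def k16_pm_011 : ∃ t, chk3 f_pm_011 t 139 250 1 = true :=
  ⟨(b (a (b (a (a (l 4) (b (l 4) (b (l 4) (b (l 96871655959) (a (l 98482268311) (a (l 16782096) (l 16782824))))))) (a (b (c (l 99556014327) (l 103314106903)) (b (a (l 95797914183) (b (l 89355462887) (a (l 16782184) (l 16785744)))) (l 16781960))) (b (b (l 102777237239) (a (l 92576688759) (b (l 85597366535) (l 16781528)))) (l 16782136)))) (a (b (a (b (b (l 101166623191) (a (l 101166622823) (l 55532594167))) (c (l 30299661335) (l 16780832))) (c (l 17951630583) (l 16780864))) (l 16782376)) (l 16788888))) (b (b (a (a (b (a (l 89892334247) (b (l 81302399287) (l 16781824))) (l 16783008)) (l 16783552)) (l 16784896)) (l 16790232)) (l 16796920))) (a (b (l 16794712) (l 16816664)) (l 16809728))), by decide +kernel⟩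

def k17_pm_011 : ∃ t, chk3 f_pm_011 t 69 251 1 = true :=
  ⟨(b (b (a (a (l 16779056) (l 16813312)) (l 16808752)) (a (a (l 16809360) (l 16833600)) (l 16850672))) (a (a (a (l 16810120) (l 16822424)) (l 16830928)) (a (l 16867480) (l 16915112)))), by decide +kernel⟩

def k18_pm_011 : ∃ t, chk3 f_pm_011 t 70 248 1 = true :=
  ⟨(a (l 4) (b (l 4) (a (b (l 4) (a (l 4) (b (l 4) (a (l 4) (c (l 100092888263) (l 102240367399)))))) (b (a (l 4) (b (l 4) (a (l 4) (c (l 100629759527) (l 102777238503))))) (a (b (a (l 4) (c (l 100092888439) (l 102777238407))) (a (c (b (l 97945404007) (l 83449887895)) (b (l 102240366759) (l 66270013559))) (b (c (l 81839275207) (l 63585659015)) (l 16783880)))) (b (a (c (b (l 100629758727) (l 80228662519)) (b (l 102777237751) (l 60364433559))) (b (c (l 78081178919) (l 56606337223)) (l 16782032))) (l 16784888))))))), by decide +kernel⟩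

def k19_pm_011 : ∃ t, chk3 f_pm_011 t 70 249 1 = true :=
  ⟨(a (b (a (l 4) (b (l 4) (a (b (l 4) (c (a (l 100629757015) (b (l 97945401783) (l 46942662807))) (a (l 96334785511) (b (l 88818592039) (l 16781736))))) (b (a (c (l 98482273527) (l 92576689207)) (c (b (l 95261047367) (l 16782920)) (b (l 83986753895) (l 16781088)))) (c (a (c (l 29762793815) (l 16783008)) (l 16780912)) (l 16781312)))))) (a (b (a (b (l 4) (c (a (l 100629756679) (b (l 100092885143) (a (l 82376143095) (l 16781712)))) (a (l 103314107191) (b (l 100092881047) (l 47479529367))))) (b (a (c (l 100629756855) (l 101166623639)) (a (b (l 101703496359) (b (l 96871656935) (l 16783024))) (b (l 98482270103) (l 16782928)))) (b (b (a (a (l 100092882375) (l 16782912)) (l 16784208)) (l 16782704)) (l 16783056)))) (a (a (b (b (a (b (l 103850978663) (l 74859949143)) (l 44258306935)) (l 16784480)) (l 16782616)) (l 16783024)) (l 16781912))) (b (a (a (a (b (b (b (l 94187302423) (l 16785904)) (l 16784488)) (l 16793152)) (l 16782568)) (l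 16784632)) (l 16783584)) (l 16800816)))) (b (b (a (a (b (c (l 100092888727) (l 102777238871)) (b (a (l 99556014167) (c (l 92039822007) (a (l 101703494535) (l 63585656903)))) (a (c (l 93650434695) (l 81302399351)) (l 16783704)))) (b (b (a (l 101703497959) (c (l 85060500263) (a (l 92039817191) (l 72712466727)))) (a (a (a (l 102777238839) (l 102777238407)) (l 79691790407)) (l 16783128))) (l 16783304))) (c (l 16785424) (l 16783376))) (a (a (a (c (l 16783608) (l 16781184)) (l 16786240)) (l 16785224)) (l 16804208))) (a (b (l 16802568) (l 16847160)) (l 16839784)))), by decide +kernel⟩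

def k20_pm_011 : ∃ t, chk3 f_pm_011 t 71 124 1 = true :=
  ⟨(a (b (b (a (b (l 4) (a (l 4) (b (l 4) (a (l 4) (c (l 101166630743) (l 100629755015)))))) (b (a (l 4) (b (l 4) (c (a (l 97408536183) (l 100629760087)) (l 95261051943)))) (a (b (c (a (l 97408535991) (l 101703501783)) (l 100092884855)) (a (c (b (l 101703500951) (l 66270019495)) (b (l 96871663127) (l 16782368))) (l 16785632))) (a (b (b (l 96871662983) (a (l 16786720) (l 16783520))) (l 16790264)) (l 16785432))))) (a (b (a (b (a (l 4) (c (l 101166630599) (l 102777238583))) (a (c (b (l 101166629783) (l 74859953815)) (b (l 103314108743) (l 53385111847))) (a (b (l 87744855911) (l 16783992)) (l 16784184)))) (b (a (b (c (l 101166629927) (l 100092888551)) (a (l 85060501367) (l 16787336))) (c (l 16784752) (l 16782960))) (l 16786496))) (l 16787328)) (l 16784944))) (b (a (b (l 16805768) (l 16850488)) (l 16863816)) (l 16877776))) (b (b (a (b (a (b (c (a (l 97945407271) (l 97408534727)) (l 92576697447)) (b (a (l 93113569255) (l 16787272))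 (l 16785704))) (a (b (b (l 89355472903) (l 16788960)) (l 16791888)) (l 16787056))) (l 16785192)) (l 16787872)) (a (l 16820480) (l 16866304))) (l 16841192))), by decide +kernel⟩

def k21_pm_011 : ∃ t, chk3 f_pm_011 t 35 125 1 = true :=
  ⟨(a (b (b (a (a (b (l 16798944) (l 16843016)) (l 16835880)) (l 16853200)) (a (a (l 16856128) (l 16902800)) (l 16941576))) (a (b (l 16892328) (l 16934720)) (b (l 16987000) (l 17030992)))) (b (a (l 16906776) (l 17020240)) (a (l 17041264) (l 17114232)))), by decide +kernel⟩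

def k22_pm_011 : ∃ t, chk3 f_pm_011 t 32 126 1 = true :=
  ⟨(b (l 4) (l 6)), by decide +kernel⟩

def k23_pm_011 : ∃ t, chk3 f_pm_011 t 66 252 1 = true :=
  ⟨(a (l 4) (b (l 4) (a (l 4) (b (l 4) (a (l 4) (a (l 4) (b (l 4) (b (l 4) (b (b (c (l 123715195143) (l 106535325623)) (a (l 4) (a (l 86134230407) (l 39426460263)))) (b (c (a (l 122641452951) (l 27615299879)) (a (l 87207971351) (l 24930945319))) (a (a (l 87207971623) (l 42647685783)) (l 16779760)))))))))))), by decide +kernel⟩

def k24_pm_011 : ∃ t, chk3 f_pm_011 t 132 253 1 = true :=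
  ⟨(b (b (l 4) (l 6)) (l 6)), by decide +kernel⟩

def k25_pm_011 : ∃ t, chk3 f_pm_011 t 266 253 1 = true :=
  ⟨(b (a (b (l 4) (b (b (l 4) (l 6)) (l 6))) (a (b (l 4) (b (b (b (a (l 4) (a (l 4) (b (l 4) (l 66806876855)))) (b (a (l 4) (a (l 67880618695) (l 16778688))) (a (a (l 4) (l 68954360535)) (l 15804140023)))) (b (a (a (l 6) (l 16341010967)) (l 16779856)) (l 16779792))) (l 16778760))) (b (b (l 4) (b (l 4) (b (b (l 4) (a (l 4) (a (l 4) (a (l 80765520535) (l 51237620295))))) (b (a (l 4) (a (c (l 62511908791) (l 61438167591)) (l 16778648))) (a (a (l 4) (a (l 84523616951) (l 54458845799))) (l 16778616)))))) (b (b (b (b (a (a (c (l 65196263335) (l 64122522183)) (l 16778664)) (l 16779856)) (l 16778552)) (l 16779760)) (l 16779536)) (l 16779088))))) (b (b (b (a (l 6) (l 16778800)) (l 6)) (l 6)) (l 6))), by decide +kernel⟩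

def k26_pm_011 : ∃ t, chk3 f_pm_011 t 267 253 1 = true :=
  ⟨(a (b (b (b (a (l 4) (b (l 4) (a (b (l 4) (b (c (l 128010161975) (l 92576680615)) (a (l 92576680599) (c (l 53921974599) (l 51237620151))))) (a (b (c (l 128010161991) (l 92576680583)) (b (c (l 52848232775) (l 50163878327)) (l 16778576))) (b (b (l 92576680855) (l 51237620503)) (l 16778536)))))) (a (b (b (b (l 4) (a (l 4) (a (l 4) (a (l 73786198583) (l 43721427447))))) (b (a (l 4) (a (c (l 58216941863) (l 55532587495)) (l 16778608))) (a (a (l 4) (a (l 77544295015) (l 47479523879))) (l 16778576)))) (a (a (b (b (c (l 60901296407) (l 58753812999)) (l 16778640)) (l 16779840)) (l 16778520)) (l 16779712))) (a (a (b (b (b (c (l 55532587319) (l 52848232903)) (l 16778600)) (l 16779808)) (l 16782224)) (l 16779008)) (l 16779544)))) (b (a (l 16779368) (l 16779064)) (a (l 16778784) (l 16778488)))) (b (b (a (l 16778176) (l 16777888)) (a (l 16777576) (l 16777280))) (b (a (l 6) (l 16776672)) (l 6)))) (b (b (b (b (a (b (b (c (l 125862678743)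 (l 107072196615)) (a (l 4) (a (l 90429197143) (l 45332040375)))) (b (a (c (l 125862678375) (l 92039809623)) (a (l 46942653143) (l 16779832))) (a (a (l 92576680839) (l 48016394983)) (l 16779808)))) (a (b (a (b (l 43721427623) (l 16779824)) (l 16779784)) (l 16779688)) (l 16779608))) (b (b (a (a (a (l 49627007751) (l 16779856)) (l 16779744)) (l 16782144)) (l 16778952)) (l 16779504))) (c (l 16777728) (l 16778000))) (b (a (l 16778776) (l 16781120)) (c (l 16777688) (l 16777144)))) (b (b (l 16776184) (l 16775576)) (b (c (l 16774376) (l 16775216)) (a (l 16775784) (l 16775520)))))), by decide +kernel⟩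

def k27_pm_011 : ∃ t, chk3 f_pm_011 t 134 504 1 = true :=
  ⟨(a (l 4) (b (l 4) (a (l 4) (b (l 4) (b (a (l 4) (c (a (l 4) (c (l 97945392935) (l 98482262647))) (l 128547032727))) (a (c (a (l 4) (c (l 99556005607) (l 100629746247))) (l 129083903735)) (a (b (c (l 97408521031) (l 115662133191)) (a (a (l 70564974455) (l 51774492375)) (l 28152172119))) (b (a (a (l 67880619911) (l 49627008759)) (l 16779112)) (l 16780264))))))))), by decide +kernel⟩

def k28_pm_011 : ∃ t, chk3 f_pm_011 t 134 1010 1 = true :=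
  ⟨(a (a (l 4) (a (l 4) (b (l 4) (b (l 4) (a (b (l 4) (a (l 74859941527) (b (l 65196264935) (l 16779136)))) (b (b (a (l 4) (l 62511910391)) (a (l 63585652215) (l 16779800))) (l 16778952))))))) (a (b (b (a (l 4) (c (a (l 4) (c (l 100092876439) (l 103314100775))) (l 129620774743))) (b (a (l 4) (a (c (l 102777230039) (l 118883358839)) (a (a (l 78081167175) (l 59290685063)) (l 34057751943)))) (a (a (l 4) (l 132842002583)) (a (a (c (l 68417490455) (l 63585651415)) (c (l 36742106375) (l 30836525047))) (l 16779736))))) (a (b (b (a (l 134452615303) (a (c (l 70564974071) (l 66270006023)) (a (l 45868912071) (l 16778880)))) (a (a (c (l 72712457703) (l 67880618471)) (b (l 59290684935) (l 16779808))) (l 16779608))) (l 16779464)) (l 16779320))) (b (a (b (a (b (c (l 101166617351) (l 117272746023)) (a (a (l 75396812631) (l 57143201431)) (l 31910268311))) (b (a (a (l 72712458087) (l 54458846887)) (l 29762784743)) (l 16779992))) (l 16779856)) (l 16779104)) (l 16779496)))), by decide +kernel⟩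

def k29_pm_011 : ∃ t, chk3 f_pm_011 t 134 1011 1 = true :=
  ⟨(b (a (a (a (l 4) (b (l 4) (a (b (l 4) (b (a (l 4) (l 76470554039)) (a (l 78081166759) (l 16778800)))) (b (a (l 80765521527) (b (l 73786199495) (l 16778784))) (l 16778720))))) (a (b (b (a (l 4) (b (l 75933683335) (a (l 69491232215) (l 16779128)))) (a (b (l 78081166983) (a (l 72175586759) (l 16779120))) (l 16779000))) (l 16778576)) (c (l 16778440) (l 16778632)))) (a (l 16779024) (l 16781176))) (a (a (a (a (b (b (l 4) (b (a (l 4) (l 82376134039)) (a (l 83449875863) (l 36742105655)))) (a (b (l 25467816455) (l 16782304)) (l 16779672))) (b (b (b (c (l 85597359431) (l 81302391207)) (a (l 80765521319) (l 34057751047))) (c (l 17951623639) (l 16778320))) (l 16779568))) (b (a (b (l 16877882359) (l 16782232)) (l 16782152)) (l 16781984))) (l 16778424)) (a (l 16778592) (l 16780760)))), by decide +kernel⟩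

def k30_pm_011 : ∃ t, chk3 f_pm_011 t 135 504 1 = true :=
  ⟨(b (a (a (l 4) (b (l 4) (b (b (l 4) (a (l 4) (a (l 4) (a (l 128547035735) (l 68417491255))))) (b (a (l 4) (a (a (l 130694519351) (l 70564974887)) (a (l 39963332727) (l 16780800)))) (b (a (l 130694519687) (a (l 41573945383) (l 16778624))) (a (a (l 4) (l 73249329415)) (l 16779864))))))) (b (a (b (b (l 4) (a (l 4) (a (l 4) (a (l 119420230311) (l 59827557063))))) (b (a (l 4) (a (a (l 121567713943) (a (l 73786200535) (l 55532589367))) (l 23320334711))) (a (a (l 4) (a (l 123715197559) (l 64659395239))) (c (l 16877883655) (l 16778824))))) (a (b (b (a (a (l 116735875767) (l 57680073447)) (l 16779832)) (l 14193529207)) (l 16781064)) (l 16780272))) (a (b (a (b (c (a (c (l 76470555415) (l 72712457751)) (l 27078430759)) (a (l 67880618247) (l 16778592))) (a (a (l 37815849223) (l 16780912)) (l 16779184))) (l 16780592)) (l 16781400)) (l 16781032)))) (a (a (b (b (b (l 4) (a (l 4) (a (l 4) (a (l 4) (l 77007425767))))) (b (a (l 4) (c (a (l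 90429199287) (a (l 50163879799) (l 16778672))) (a (l 79154907703) (l 30836525031)))) (b (a (l 4) (a (a (l 74323070999) (l 16778880)) (l 16780696))) (a (a (l 4) (l 81302393031)) (l 16779328))))) (a (b (a (b (c (l 93650424695) (l 82376133271)) (a (a (l 65196265367) (l 46942654215)) (l 16778856))) (b (a (a (l 63048781735) (l 44795170583)) (l 16778936)) (l 16780552))) (l 16780824)) (l 16779152))) (b (a (b (b (c (a (l 87207973879) (a (l 45868912583) (l 16778912))) (a (l 75396811223) (l 27078428551))) (b (a (a (l 67880620087) (l 16780320)) (l 16780968)) (l 16779592))) (l 16779168)) (l 16780456)) (l 16781992))) (a (c (l 16779136) (l 16778056)) (l 16777800)))), by decide +kernel⟩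

def k31_pm_011 : ∃ t, chk3 f_pm_011 t 135 505 1 = true :=
  ⟨(a (a (a (b (l 16778904) (l 16778792)) (b (l 16780608) (l 16778568))) (a (b (l 16782800) (l 16781440)) (b (l 16780184) (l 16779496)))) (a (b (l 16777024) (l 16776024)) (b (l 16776704) (l 16775680)))), by decide +kernel⟩

def k32_pm_011 : ∃ t, chk3 f_pm_011 t 67 253 1 = true :=
  ⟨(b (a (a (b (b (a (c (l 16778864) (l 16778304)) (l 16778616)) (a (l 16777976) (l 16778128))) (b (a (l 16776800) (l 16777624)) (a (l 16777568) (l 16777104)))) (b (b (a (l 16778136) (l 16780328)) (a (l 16777672) (l 16779880))) (b (a (l 16777184) (l 16779416)) (a (l 16776688) (l 16778928))))) (a (a (a (b (l 16777192) (l 16776288)) (b (l 16777016) (l 16776128))) (a (b (l 16775072) (l 16775976)) (b (l 16779232) (l 16775832)))) (a (a (b (l 16778536) (l 16773776)) (b (l 16778192) (l 16774456))) (a (b (l 16778176) (l 16775440)) (b (l 16778464) (l 16776696)))))) (a (a (b (a (b (l 16775696) (l 16775112)) (b (l 16776560) (l 16776000))) (a (b (c (l 16775584)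 (l 16776048)) (l 16773560)) (b (l 16775424) (l 16775480)))) (b (a (b (l 16776168) (l 16775624)) (a (l 16774328) (l 16774160))) (a (b (l 16775072) (l 16774488)) (b (l 16774760) (l 16774200))))) (a (a (b (a (l 16774008) (l 16774856)) (b (l 16771864) (l 16771328))) (b (a (l 16775048) (l 16774920)) (b (l 16771632) (l 16771120)))) (a (b (a (l 16774808) (l 16774704)) (b (l 16771432) (l 16770944))) (a (b (l 16772264) (l 16773696)) (b (l 16774712) (l 16773624))))))), by decide +kernel⟩

def k33_pm_011 : ∃ t, chk3 f_pm_011 t 16 254 1 = true :=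
  ⟨(b (a (l 6) (a (a (l 6) (a (l 6) (a (l 6) (b (b (c (l 16772904) (l 16773896)) (l 6)) (l 6))))) (a (a (a (b (b (c (l 16772448) (l 16774704)) (c (l 16771856) (l 16772720))) (b (c (l 16771280) (l 16770752)) (l 6))) (b (b (c (l 16774072) (l 16771696)) (c (l 16773472) (l 16771016))) (b (c (l 16770896) (l 16770320)) (c (l 16770296) (l 16769632))))) (a (b (b (l 16773896) (l 16773928)) (b (c (l 16769992) (l 16770024)) (c (l 16769696) (l 16769312)))) (b (b (l 16773624) (l 16773032)) (b (l 16773400) (c (l 16769208) (l 16769104)))))) (a (b (a (b (l 16770776) (l 16770208)) (b (l 16770592) (l 16770040))) (a (b (l 16772240) (c (l 16769080) (l 16768928))) (b (l 16769472) (l 16771504)))) (a (b (b (l 16770432) (l 16769912)) (b (l 16769368) (a (l 16773968) (l 16771168)))) (b (b (l 16770320) (l 16769816)) (b (l 16769296) (a (l 16770920) (l 16770576))))))))) (a (l 6) (a (l 6) (a (b (b (a (a (l 6) (a (l 6) (l 16768912))) (a (a (l 16768728) (l 16768608)) (a (l 16768528) (l 16770984)))) (a (l 6) (b (a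 (l 16769312) (l 16769864)) (a (l 16772128) (l 16770680))))) (a (l 6) (b (c (l 14) (a (l 16766760) (l 16767872))) (a (l 6) (b (l 16770496) (a (l 6) (l 16768328))))))) (b (b (a (b (a (l 16768480) (l 16770656)) (a (l 16770272) (l 16771696))) (a (c (l 16771424) (l 16771176)) (l 16769912))) (c (l 14) (a (a (l 16770144) (l 16768784)) (a (l 16767408) (l 16771256))))) (c (l 14) (b (a (a (l 16766480) (l 16765088)) (a (l 16768928) (l 16767512))) (a (a (l 16768088) (b (l 16767584) (l 16765760))) (b (l 16760200) (l 16759224)))))))))), by decide +kernel⟩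

def k34_pm_011 : ∃ t, chk3 f_pm_011 t 16 255 1 = true :=
  ⟨(a (l 6) (a (l 6) (c (a (a (l 6) (l 14)) (l 14)) (b (a (a (l 6) (a (l 6) (a (l 6) (b (l 16759536) (l 6))))) (b (b (a (l 16758088) (l 16756856)) (a (l 16759296) (l 16758152))) (a (b (l 16761120) (a (l 6) (l 16760712))) (c (l 14) (b (l 16759704) (l 16761240)))))) (a (l 6) (a (a (l 6) (b (b (l 16763456) (l 6)) (l 6))) (c (l 14) (a (b (b (l 16761656) (l 16764392)) (a (l 6) (b (l 16765688) (l 6)))) (c (l 14) (b (b (l 16761152) (l 16762624)) (a (b (l 16765456) (b (l 16765176) (l 6))) (b (l 16765256) (c (l 14) (b (l 16764968) (b (l 16765480) (b (l 16765736) (a (l 6) (l 16765864)))))))))))))))))), by decide +kernel⟩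

def k35_pm_011 : ∃ t, chk3 f_pm_011 t 17 252 1 = true :=
  ⟨(b (a (a (a (a (a (b (l 16779104) (l 16779216)) (b (l 16778080) (l 16788112))) (a (b (l 16787200) (l 16776984)) (b (l 16797160) (l 16787648)))) (a (a (b (l 16807832) (l 16799008)) (b (l 16819120) (l 16810968))) (c (l 16873136) (b (l 16811280) (l 16797216))))) (a (a (b (l 16841344) (l 16856296)) (a (l 16869168) (l 16903840))) (a (l 16903728) (l 16952872)))) (a (a (l 16974504) (l 17073040)) (l 17155856))) (a (a (a (a (a (b (l 16776328) (l 16775248)) (b (l 16779632) (l 16775184))) (a (b (l 16785152) (l 16779888)) (b (l 16796696) (l 16782024)))) (a (a (b (l 16787936) (l 16795264)) (b (l 16821672) (l 16809016))) (a (b (l 16834912) (l 16823200)) (b (l 16848544) (l 16837720))))) (a (a (b (l 16848608) (l 16818072)) (a (l 16855712) (l 16891624))) (a (l 16893248) (l 16965496)))) (a (a (l 16989928) (l 17112544)) (l 17177968)))), by decide +kernel⟩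

def k36_pm_011 : ∃ t, chk3 f_pm_011 t 17 253 1 = true :=
  ⟨(b (a (a (a (a (a (b (l 16774152) (a (l 16778200) (l 16774696))) (b (l 16773616) (l 16773096))) (a (b (l 16773856) (l 16773104)) (b (l 16774720) (l 16773000)))) (a (a (b (l 16778720) (l 16774608)) (b (l 16793656) (l 16775232))) (a (b (l 16808960) (l 16791864)) (b (l 16824544) (l 16787744))))) (a (a (a (b (l 16840360) (l 16825712)) (b (l 16856344) (l 16842816))) (c (l 17033728) (b (l 16882808) (l 16841688)))) (a (a (l 16868360) (l 16926952)) (l 16930864)))) (a (a (a (l 17026688) (l 17080208)) (l 17107160)) (l 17198520))) (a (a (a (b (b (a (a (l 16774128) (l 16779600)) (c (l 16862760) (l 16771776))) (a (a (l 16777832) (l 16774016)) (c (l 16843712) (l 16771360)))) (b (a (a (l 16780008) (l 16777512)) (c (l 16823664) (l 16770936))) (a (a (l 16770696) (l 16779504)) (c (l 16802552) (l 16770824))))) (a (c (b (l 16880824) (a (l 16896848) (l 16938576))) (a (b (l 16772088) (l 16770672)) (b (l 16773480) (l 16771496)))) (a (c (l 16913712)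 (b (l 16780360) (l 16771824))) (c (l 16996360) (b (l 16776992) (l 16775784)))))) (c (a (a (l 16942048) (l 17064880)) (l 17122144)) (a (b (a (a (l 16794768) (l 16812656)) (a (l 16851576) (l 16890520))) (a (b (l 16797472) (a (l 16782064) (l 16781600))) (a (b (l 16847328) (l 16823224)) (b (l 16866672) (l 16885944))))) (a (b (l 16854608) (a (l 16843960) (l 16926856))) (b (l 16932504) (l 16956544)))))) (a (a (b (l 16959696) (l 16994720)) (l 17141952)) (l 17259952)))), by decide +kernel⟩

def k37_pm_011 : ∃ t, chk3 f_pm_011 t 34 254 1 = true :=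
  ⟨(a (a (b (a (a (b (b (l 16770232) (l 16769752)) (b (l 16771776) (a (l 16772712) (l 16772056)))) (b (b (l 16769400) (l 16769720)) (b (a (l 16774240) (l 16774008)) (l 16771016)))) (b (b (a (l 16770192) (l 16771152)) (a (l 16770464) (l 16771744))) (a (b (a (l 16773776) (l 16776136)) (l 16768728)) (b (l 16774536) (l 16770144))))) (b (a (a (b (l 16768536) (l 16769952)) (b (l 16772384) (l 14))) (b (a (l 16770984) (l 16769456)) (l 14))) (c (l 14) (a (a (b (l 16766088) (l 16763104)) (l 14)) (l 14))))) (b (a (b (c (b (l 16866936) (a (l 16876280) (l 16920928))) (a (b (l 16770040) (l 16770840)) (b (l 16773256) (l 16773224)))) (b (a (l 16768784) (c (l 16921752) (l 16774496))) (b (l 16770984) (l 16769656)))) (a (c (b (l 16943408) (l 16947024)) (b (b (l 16771608) (l 16786048)) (a (l 16769344) (l 16766784)))) (b (c (l 17007888) (b (l 16775168) (l 16788848))) (c (l 16992728) (a (l 16769352) (l 16771784)))))) (b (b (b (a (l 16770608) (c (l 16960712) (l 16769688))) (l 14)) (l 14)) (l 14)))) (c (a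 (b (a (a (l 16992432) (l 17057264)) (l 17090824)) (a (b (l 16992528) (l 14)) (l 16983320))) (b (l 17155248) (l 17098376))) (b (a (b (b (a (l 16771632) (l 16810248)) (a (l 16771528) (l 16786056))) (b (a (l 16769088) (l 16781992)) (a (a (l 16776208) (l 16781048)) (l 16771776)))) (a (a (b (l 16862744) (l 16815712)) (b (l 16905384) (l 16881192))) (b (l 16937320) (l 16873760)))) (b (b (b (a (a (l 16761856) (l 16793624)) (a (l 16844328) (l 16934920))) (l 14)) (l 14)) (l 14))))), by decide +kernel⟩

def k38_pm_011 : ∃ t, chk3 f_pm_011 t 35 254 1 = true :=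
  ⟨(a (a (c (l 17232960) (b (b (l 16978040) (l 16918904)) (a (b (l 16960320) (l 14)) (l 16943952)))) (b (l 17111232) (l 17013280))) (b (l 17256808) (l 17146488))), by decide +kernel⟩

def k39_pm_011 : ∃ t, chk3 f_pm_011 t 17 255 1 = true :=
  ⟨(a (c (a (l 14) (a (b (c (a (l 14) (l 17188928)) (l 14)) (l 14)) (b (a (l 17089448) (l 17227000)) (c (l 17289512) (l 14))))) (c (l 14) (c (l 14) (c (l 14) (a (a (a (a (a (a (a (b (b (l 16765872) (l 16758576)) (b (l 16762928) (b (l 16763792) (b (l 16764848) (b (l 16765368) (l 16765712)))))) (l 14)) (l 14)) (l 14)) (l 14)) (l 14)) (l 14)) (l 14)))))) (a (a (c (b (l 17301080) (l 17281384)) (b (c (a (l 14) (l 17131120)) (l 14)) (l 14))) (c (l 17406488) (b (a (l 17013584) (l 17167112)) (c (l 17211104) (l 14))))) (a (b (l 17288208) (l 17145736)) (b (l 17426112) (l 17458952))))), by decide +kernel⟩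

def k40_pm_011 : ∃ t, chk3 f_pm_011 t 9 31 1 = true :=
  ⟨(a (a (b (b (a (b (a (b (a (l 16823048) (l 16868568)) (l 16903208)) (l 16886264)) (a (l 16953320) (l 17022560))) (b (l 16956816) (l 17092656))) (a (b (l 17073200) (l 17189712)) (l 17131728))) (b (a (b (l 17283360) (l 17373568)) (l 17405472)) (b (l 17347288) (a (l 17354728) (l 17655368))))) (b (b (a (l 17071800) (l 17218920)) (a (l 17324928) (l 17406952))) (b (l 17554104) (l 17741064)))) (b (b (a (l 17336472) (l 17479184)) (a (l 17518008) (l 17648088))) (b (l 17758208) (l 17934160)))), by decide +kernel⟩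

def k41_pm_011 : ∃ t, chk3 f_pm_011 t 5 6 1 = true :=
  ⟨(b (l 4) (a (l 4) (b (l 4) (a (b (l 4) (a (l 4) (b (l 4) (a (l 4) (b (l 4) (l 137137054951)))))) (b (a (l 4) (b (a (l 4) (l 144116380967)) (a (b (l 4) (l 134452697111)) (b (l 111904126023) (l 16803936))))) (a (b (a (l 4) (b (l 146800739783) (l 93113655815))) (a (b (l 118883452807) (l 19025426615)) (l 16829240))) (b (a (b (l 80765649447) (l 16810384)) (l 16844504)) (a (l 16938552) (l 16951992))))))))), by decide +kernel⟩

def k42_pm_011 : ∃ t, chk3 f_pm_011 t 10 28 1 = true :=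
  ⟨(a (l 4) (b (l 4) (a (b (l 4) (a (l 4) (b (l 4) (a (l 140358263591) (b (l 145726963431) (l 80765590327)))))) (b (a (b (l 4) (a (l 4) (l 138210782791))) (b (l 142505771031) (a (l 121567786311) (l 16806160)))) (a (b (a (l 136600170471) (l 83449967735)) (b (l 16804448) (l 16809040))) (b (l 16808632) (l 16838440))))))), by decide +kernel⟩

def k43_pm_011 : ∃ t, chk3 f_pm_011 t 10 29 1 = true :=
  ⟨(a (b (a (l 4) (b (a (l 4) (b (l 4) (a (l 4) (b (l 4) (l 140358253943))))) (a (b (a (l 4) (l 136063298039)) (a (b (l 112440953991) (a (l 143579458727) (b (l 151632517735) (l 16803240)))) (b (a (l 144653207863) (l 106535393719)) (l 16800032)))) (b (a (b (l 141968869927) (a (l 132305173175) (l 16807456))) (b (l 80228724247) (l 16790288))) (l 16815520))))) (a (b (a (b (l 4) (a (b (l 4) (l 112977822055)) (b (l 139821375927) (a (c (l 101703526183) (l 121567750391)) (l 74323133735))))) (b (c (a (l 114051590935) (b (l 110293465143) (l 74860021415))) (a (b (l 4) (l 137137013655)) (b (l 129620817863)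 (l 34057780903)))) (a (a (b (b (l 149485034167) (l 16803584)) (l 16804360)) (l 16806976)) (l 16812312)))) (b (a (a (b (a (c (l 109756592727) (l 132305161207)) (b (l 129620811831) (l 16789000))) (l 16803024)) (l 16802584)) (a (l 16817256) (l 16894296))) (a (a (b (l 16813640) (l 16866784)) (l 16886728)) (l 16939744)))) (b (a (b (a (b (l 16799736) (l 16823472)) (b (l 16807680) (l 16857760))) (l 16822240)) (b (l 16851880) (l 16952712))) (a (l 16914120) (l 17044096))))) (a (b (b (a (b (a (l 4) (b (l 115662178263) (l 123715247687))) (a (b (l 132842057447) (l 88281812823)) (l 16809200))) (a (b (a (l 93113641143) (l 16796936)) (l 16820768)) (l 16826424))) (a (b (l 16826128) (l 16881864)) (b (l 16912232) (l 16967856)))) (b (a (l 16989168) (l 17053888)) (l 17141744))) (b (b (b (a (l 16931920) (l 16932256)) (l 17058592)) (l 16951624)) (b (l 17148952) (l 17267856))))), by decide +kernel⟩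

def k44_pm_011 : ∃ t, chk3 f_pm_011 t 11 14 1 = true :=
  ⟨(b (a (b (a (b (a (l 4) (l 4)) (a (b (l 4) (a (b (l 4) (l 117809663591)) (l 126936497623))) (b (b (l 139821407911) (l 106535414631)) (a (l 73786305367) (l 16801496))))) (b (a (b (l 143579515687) (l 95798033351)) (b (l 88281865911) (l 16814296))) (a (b (l 16821040) (l 16889440)) (l 16968744)))) (a (b (a (b (a (l 96334863399) (l 16808904)) (l 16821296)) (b (b (l 16801144) (l 16867368)) (l 16904208))) (a (l 17001312) (l 16979472))) (b (a (l 16962160) (l 17002592)) (l 17072120)))) (b (a (b (b (l 16860216) (l 16987736)) (l 17058552)) (l 17229680)) (a (l 17247328) (l 17257056)))) (a (b (a (b (l 17031296) (l 17160352)) (l 17250344)) (a (l 17331488) (l 17453824))) (b (l 17513016) (l 17631576)))), by decide +kernel⟩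

def k45_pm_011 : ∃ t, chk3 f_pm_011 t 5 15 1 = true :=
  ⟨(a (b (a (b (a (b (a (l 16883584) (l 17037712)) (l 17099176)) (b (l 17139016) (l 17274696))) (a (l 17197048) (l 17493240))) (b (a (l 17292096) (l 17457480)) (b (l 17602240) (l 17743328)))) (b (a (b (l 17663504) (l 17812984)) (l 17933680)) (a (l 18037928) (l 18195448)))) (b (b (a (l 17638808) (l 17872528)) (a (l 17889408) (l 18087912))) (b (l 18198456) (l 18406408)))), by decide +kernel⟩

def k46_pm_011 : ∃ t, chk3 f_pm_011 t 3 1 1 = true :=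
  ⟨(b (b (l 1) (a (l 4) (l 1))) (b (a (b (a (a (l 4) (b (l 4) (b (l 4) (a (l 4) (b (l 4) (a (l 141968864567) (l 98482330599))))))) (b (l 1) (a (b (l 1) (a (l 138546399479) (l 1))) (l 1)))) (a (b (a (b (l 4) (a (b (l 4) (a (l 4) (b (l 4) (l 123715271207)))) (a (b (l 146800726839) (a (l 81839347431) (l 16823400))) (b (l 92576789255) (l 16817280))))) (b (a (b (l 145727051191) (a (l 119957196551) (l 41574020951))) (b (b (l 87208124695) (l 20099189095)) (l 16839392))) (a (b (a (l 16816944) (l 16882256)) (l 16949224)) (l 17020320)))) (a (b (b (a (a (l 108146050023) (b (l 16815048) (l 16810080))) (l 16865824)) (a (b (l 16843832) (l 16946440)) (l 16964088))) (a (b (l 17008304) (l 17032120)) (l 17131144))) (b (a (l 17081272) (l 17103400)) (l 17247664)))) (b (a (b (a (b (l 16897624) (l 16935472)) (l 16970776)) (l 17129536)) (l 156263740231)) (a (l 17440240) (l 17402336))))) (b (l 1) (a (b (l 1) (l 17510688)) (l 1)))) (a (b (b (a (a (b (l 17389024) (l 17416320)) (l 17713128)) (l 17963936)) (a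 (b (l 17973384) (l 18047216)) (b (l 18017456) (l 18222032)))) (b (a (b (l 18153808) (l 18329720)) (l 18440000)) (l 18896424))) (b (a (b (l 17843360) (l 18207000)) (l 63387306599)) (a (l 18583104) (l 18530520)))))), by decide +kernel⟩

theorem s47_pm_011 : ∃ t, chk3 f_pm_011 t 10 14 1 = true := ex3_b k42_pm_011 k43_pm_011

theorem s48_pm_011 : ∃ t, chk3 f_pm_011 t 5 14 1 = true := ex3_a s47_pm_011 k44_pm_011

theorem s49_pm_011 : ∃ t, chk3 f_pm_011 t 5 7 1 = true := ex3_b s48_pm_011 k45_pm_011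

theorem s50_pm_011 : ∃ t, chk3 f_pm_011 t 5 3 1 = true := ex3_b k41_pm_011 s49_pm_011

theorem s51_pm_011 : ∃ t, chk3 f_pm_011 t 17 254 1 = true := ex3_a k37_pm_011 k38_pm_011

theorem s52_pm_011 : ∃ t, chk3 f_pm_011 t 17 127 1 = true := ex3_b s51_pm_011 k39_pm_011

theorem s53_pm_011 : ∃ t, chk3 f_pm_011 t 17 126 1 = true := ex3_b k35_pm_011 k36_pm_011

theorem s54_pm_011 : ∃ t, chk3 f_pm_011 t 17 63 1 = true := ex3_b s53_pm_011 s52_pm_011

theorem s55_pm_011 : ∃ t, chk3 f_pm_011 t 16 127 1 = true := ex3_b k33_pm_011 k34_pm_011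

theorem s56_pm_011 : ∃ t, chk3 f_pm_011 t 135 252 1 = true := ex3_b k30_pm_011 k31_pm_011

theorem s57_pm_011 : ∃ t, chk3 f_pm_011 t 134 505 1 = true := ex3_b k28_pm_011 k29_pm_011

theorem s58_pm_011 : ∃ t, chk3 f_pm_011 t 134 252 1 = true := ex3_b k27_pm_011 s57_pm_011

theorem s59_pm_011 : ∃ t, chk3 f_pm_011 t 67 252 1 = true := ex3_a s58_pm_011 s56_pm_011

theorem s60_pm_011 : ∃ t, chk3 f_pm_011 t 67 126 1 = true := ex3_b s59_pm_011 k32_pm_011

theorem s61_pm_011 : ∃ t, chk3 f_pm_011 t 133 253 1 = true := ex3_a k25_pm_011 k26_pm_011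

theorem s62_pm_011 : ∃ t, chk3 f_pm_011 t 66 253 1 = true := ex3_a k24_pm_011 s61_pm_011

theorem s63_pm_011 : ∃ t, chk3 f_pm_011 t 66 126 1 = true := ex3_b k23_pm_011 s62_pm_011

theorem s64_pm_011 : ∃ t, chk3 f_pm_011 t 33 126 1 = true := ex3_a s63_pm_011 s60_pm_011

theorem s65_pm_011 : ∃ t, chk3 f_pm_011 t 16 126 1 = true := ex3_a k22_pm_011 s64_pm_011

theorem s66_pm_011 : ∃ t, chk3 f_pm_011 t 16 63 1 = true := ex3_b s65_pm_011 s55_pm_011

theorem s67_pm_011 : ∃ t, chk3 f_pm_011 t 8 63 1 = true := ex3_a s66_pm_011 s54_pm_011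

theorem s68_pm_011 : ∃ t, chk3 f_pm_011 t 70 124 1 = true := ex3_b k18_pm_011 k19_pm_011

theorem s69_pm_011 : ∃ t, chk3 f_pm_011 t 35 124 1 = true := ex3_a s68_pm_011 k20_pm_011

theorem s70_pm_011 : ∃ t, chk3 f_pm_011 t 35 62 1 = true := ex3_b s69_pm_011 k21_pm_011

theorem s71_pm_011 : ∃ t, chk3 f_pm_011 t 69 250 1 = true := ex3_a k15_pm_011 k16_pm_011

theorem s72_pm_011 : ∃ t, chk3 f_pm_011 t 69 125 1 = true := ex3_b s71_pm_011 k17_pm_011

theorem s73_pm_011 : ∃ t, chk3 f_pm_011 t 136 251 1 = true := ex3_b k12_pm_011 k13_pm_011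

theorem s74_pm_011 : ∃ t, chk3 f_pm_011 t 68 251 1 = true := ex3_a s73_pm_011 k14_pm_011

theorem s75_pm_011 : ∃ t, chk3 f_pm_011 t 68 125 1 = true := ex3_b k11_pm_011 s74_pm_011

theorem s76_pm_011 : ∃ t, chk3 f_pm_011 t 34 125 1 = true := ex3_a s75_pm_011 s72_pm_011

theorem s77_pm_011 : ∃ t, chk3 f_pm_011 t 34 62 1 = true := ex3_b k10_pm_011 s76_pm_011

theorem s78_pm_011 : ∃ t, chk3 f_pm_011 t 17 62 1 = true := ex3_a s77_pm_011 s70_pm_011

theorem s79_pm_011 : ∃ t, chk3 f_pm_011 t 8 62 1 = true := ex3_a k9_pm_011 s78_pm_011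

theorem s80_pm_011 : ∃ t, chk3 f_pm_011 t 8 31 1 = true := ex3_b s79_pm_011 s67_pm_011

theorem s81_pm_011 : ∃ t, chk3 f_pm_011 t 4 31 1 = true := ex3_a s80_pm_011 k40_pm_011

theorem s82_pm_011 : ∃ t, chk3 f_pm_011 t 36 61 1 = true := ex3_b k5_pm_011 k6_pm_011

theorem s83_pm_011 : ∃ t, chk3 f_pm_011 t 18 61 1 = true := ex3_a s82_pm_011 k7_pm_011

theorem s84_pm_011 : ∃ t, chk3 f_pm_011 t 18 30 1 = true := ex3_b k4_pm_011 s83_pm_011

theorem s85_pm_011 : ∃ t, chk3 f_pm_011 t 9 30 1 = true := ex3_a s84_pm_011 k8_pm_011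

theorem s86_pm_011 : ∃ t, chk3 f_pm_011 t 4 30 1 = true := ex3_a k3_pm_011 s85_pm_011

theorem s87_pm_011 : ∃ t, chk3 f_pm_011 t 4 15 1 = true := ex3_b s86_pm_011 s81_pm_011

theorem s88_pm_011 : ∃ t, chk3 f_pm_011 t 4 7 1 = true := ex3_b k2_pm_011 s87_pm_011

theorem s89_pm_011 : ∃ t, chk3 f_pm_011 t 4 3 1 = true := ex3_b k1_pm_011 s88_pm_011

theorem s90_pm_011 : ∃ t, chk3 f_pm_011 t 2 3 1 = true := ex3_a s89_pm_011 s50_pm_011

theorem s91_pm_011 : ∃ t, chk3 f_pm_011 t 2 1 1 = true := ex3_b k0_pm_011 s90_pm_011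

theorem s92_pm_011 : ∃ t, chk3 f_pm_011 t 1 1 1 = true := ex3_a s91_pm_011 k46_pm_011

theorem c_pm_011 : CertN 0 536870912 536870912 536870912 33554432 16777216 3 false true false .pnn 0 1 1
    ndN0q0 ndN0q1 pcN1 cut_pm_011 Ext.none :=
  certNK0 (fam := false) (s1 := true) (s2 := false) (a := 0) (b := 1) (c := 1) (cn := .pnn) (n1 := ndN0q0) (n2 := ndN0q1) (pc := pcN1) (cut := cut_pm_011) (xt := Ext.none) (P1 := 0) (W1 := 536870912) (P2 := 536870912) (W2 := 536870912) (P3 := 33554432) (W3 := 16777216) (N0 := 3)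
    rfl rfl rfl s92_pm_011

noncomputable def cut_pm_012 : Cut := Cut.of [[⟨0, 0, 0, 33554432⟩, ⟨1, 1, 0, 33554432⟩, ⟨2, 1, 0, 33554432⟩], [⟨0, 0, 1, 16777216⟩, ⟨1, 1, 2, 16777216⟩, ⟨2, 1, 0, 6291456⟩, ⟨0, 0, 0, 67108864⟩, ⟨0, 1, 0, 1056964608⟩, ⟨1, 0, 0, 1056964608⟩, ⟨1, 1, 0, 67108864⟩]]

noncomputable def f_pm_012 : ℕ → ℕ → ℕ → ℕ → Bool := onCell 536870912 536870912 0 536870912 33554432 16777216
    (rowNK 3 2 false true false .pnp 0 1 2 (qsf 0 536870912 0 536870912 1) ndN0q0 ndN0q2 pcN1 cut_pm_012 Ext.none)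

def k0_pm_012 : ∃ t, chk3 f_pm_012 t 2 1 1 = true :=
  ⟨(b (a (a (l 2) (b (l 2) (l 398998036983))) (b (a (b (a (l 17290488) (l 17317568)) (l 17535768)) (b (l 17464656) (l 17704976))) (a (b (l 17714384) (l 17909008)) (l 18068704)))) (a (a (b (l 2) (l 18602016)) (b (l 18281952) (l 18884944))) (b (a (l 18301448) (l 18429832)) (b (l 18827248) (l 19081616))))), by decide +kernel⟩

def k1_pm_012 : ∃ t, chk3 f_pm_012 t 3 2 1 = true :=
  ⟨(a (b (a (l 17904712) (l 18082024)) (a (l 18148240) (l 18327496))) (a (b (l 18400416) (l 18619568)) (a (b (l 18692448) (l 18996872)) (a (b (l 18937168) (l 19252496)) (a (b (l 19076640) (l 19398096)) (b (l 19175888) (l 19493032))))))), by decide +kernel⟩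

def k2_pm_012 : ∃ t, chk3 f_pm_012 t 3 6 1 = true :=
  ⟨(a (a (l 18545904) (l 18722520)) (a (b (l 18829064) (l 18932032)) (a (b (l 19173848) (l 19197160)) (a (b (l 19402208) (l 19345008)) (a (b (l 19526392) (l 19401104)) (b (l 19606456) (l 19412912))))))), by decide +kernel⟩

def k3_pm_012 : ∃ t, chk3 f_pm_012 t 6 7 1 = true :=
  ⟨(a (b (l 18757392) (l 18677872)) (b (l 18758704) (b (l 18620992) (l 18430584)))), by decide +kernel⟩

def k4_pm_012 : ∃ t, chk3 f_pm_012 t 14 7 1 = true :=
  ⟨(b (a (l 18813128) (l 18872984)) (a (b (l 18569592) (b (l 18347944) (l 18150256))) (b (b (l 18597224) (l 18420384)) (b (a (l 18244992) (l 18134032)) (a (l 17988936) (b (l 17907976) (a (l 17787880) (l 17447712)))))))), by decide +kernel⟩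

def k5_pm_012 : ∃ t, chk3 f_pm_012 t 15 14 1 = true :=
  ⟨(a (b (l 19041816) (a (l 18790216) (l 18685456))) (a (b (l 19046680) (b (l 18692952) (c (l 18622032) (a (l 18270152) (b (l 18153568) (l 17932008)))))) (a (b (l 18965144) (b (c (l 18814680) (l 18052040)) (c (b (l 18514896) (l 18220824)) (b (a (l 17926120) (l 17718856)) (a (l 17644960) (l 17213552)))))) (b (b (l 18984224) (c (l 18995888) (l 18311560))) (b (c (b (l 18709520) (l 18465128)) (b (l 17714096) (a (l 17787168) (l 17444824)))) (b (c (a (l 18274288) (l 18016224)) (a (l 17363984) (l 16920792))) (c (a (l 17834544) (a (l 17667288) (l 17352856))) (a (l 16928528) (l 16698176))))))))), by decide +kernel⟩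

def k6_pm_012 : ∃ t, chk3 f_pm_012 t 15 30 1 = true :=
  ⟨(a (a (b (l 18517296) (l 18182248)) (b (a (l 18422952) (l 18249816)) (a (b (l 18192616) (l 18012528)) (b (l 17823280) (a (l 17766016) (c (l 17997112) (l 17328192))))))) (a (b (a (a (l 17979296) (b (l 18188032) (l 17772536))) (c (b (l 18298880) (a (l 18115560) (l 17947864))) (b (a (l 17765672) (l 17503704)) (a (l 17316480) (b (l 17322552) (l 17099296)))))) (a (c (b (l 18062768) (a (l 17869968) (b (l 17782448) (l 17626096)))) (b (a (l 17568032) (b (l 17472816) (l 17301008))) (a (b (l 17383704) (l 17130216)) (b (l 17055072) (l 16881296))))) (b (c (a (l 17744896) (a (l 17564552) (l 17290136))) (a (b (l 17200408) (l 17001208)) (l 16711560))) (a (c (c (l 17458776) (b (l 17403048) (l 17086688))) (b (l 16871312) (l 16716928))) (b (l 16774824) (l 16742640)))))) (a (a (b (c (b (l 18062136) (b (l 17814880) (l 17523328))) (b (l 17057696) (l 16758952))) (b (b (l 16817736) (l 16735984)) (b (l 16738272) (l 16733488)))) (b (b (c (l 17603744)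 (l 16825016)) (l 16713464)) (b (b (l 16728192) (l 16733664)) (b (l 16728760) (a (l 16744688) (l 16745128)))))) (b (b (a (a (c (l 17484120) (l 16705744)) (l 16863416)) (a (l 16713584) (l 16714936))) (a (a (l 16721272) (l 16722648)) (a (l 16724008) (b (l 16722728) (l 16727960))))) (b (a (a (l 16731952) (l 16722824)) (a (l 16726792) (b (l 16733264) (l 6)))) (a (b (a (l 16740232) (l 6)) (l 6)) (l 6))))))), by decide +kernel⟩

def k7_pm_012 : ∃ t, chk3 f_pm_012 t 15 62 1 = true :=
  ⟨(a (a (a (l 17900456) (c (l 18049864) (b (l 17803640) (l 17464576)))) (a (c (b (l 18010712) (l 17619224)) (b (a (l 17663888) (l 17524792)) (a (b (l 17502048) (l 17388072)) (b (l 17346440) (l 17011360))))) (b (c (a (l 17867544) (l 17677920)) (a (b (l 17464480) (l 17273400)) (b (l 17188096) (l 16938160)))) (b (c (a (l 17676240) (l 17442480)) (a (l 16950352) (l 16744056))) (c (a (l 17539328) (a (l 17376392) (l 17156680))) (a (a (l 16964192) (l 16864160)) (l 16743248))))))) (a (b (b (a (c (a (l 17655744) (l 17205816))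 (a (l 16909224) (l 16779376))) (a (l 16733208) (l 16735328))) (a (a (c (l 17332248) (l 16783824)) (a (c (l 17212264) (l 16727248)) (l 16798408))) (a (l 16739536) (a (l 16753864) (l 16754688))))) (b (a (a (c (a (l 17303096) (l 17067912)) (l 16738992)) (l 16743808)) (a (b (l 16746576) (l 16744296)) (b (l 16742960) (l 16745904)))) (a (a (b (c (a (l 17198000) (l 17016280)) (l 16737072)) (l 16746576)) (a (l 16746800) (l 16747576))) (a (b (l 16747256) (l 16750224)) (a (c (l 16751576) (l 16748304)) (l 6)))))) (a (b (b (a (a (l 16749504) (l 16749984)) (a (l 16750432) (l 6))) (a (a (l 16744848) (l 16745312)) (l 6))) (l 6)) (l 6)))), by decide +kernel⟩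

def k8_pm_012 : ∃ t, chk3 f_pm_012 t 30 63 1 = true :=
  ⟨(b (a (a (l 17548728) (c (l 17740824) (a (l 17309352) (b (l 17399816) (l 17120208))))) (a (c (a (l 17449680) (b (l 17541168) (l 17195816))) (b (a (l 17060400) (a (l 16987336) (l 16816448))) (b (a (l 17032968) (c (l 17036968) (l 16781632))) (b (a (l 17008360) (l 16817992)) (l 14))))) (a (c (b (c (l 17514584) (l 17088024)) (c (l 17238920) (b (l 17061320) (a (l 17138744) (l 16957720))))) (b (b (l 16808264) (l 16756888)) (b (l 16747296) (l 16752488)))) (b (a (c (c (l 17392080) (l 16964784)) (l 16748312)) (b (c (l 17075048) (l 16742240)) (l 16777320))) (b (l 16753344) (a (l 16761712) (l 16757944))))))) (a (a (c (l 17634648) (b (l 17426576) (a (l 17392832) (l 17109800)))) (c (b (l 17568064) (a (l 17496368) (l 17226184))) (b (a (l 17171248) (c (l 17239408) (l 14))) (a (c (l 17182032) (l 14)) (l 14))))) (c (a (b (a (l 17278528) (c (l 17327704) (l 14))) (a (c (l 17279136) (l 14)) (l 14))) (l 14)) (c (l 14) (a (l 14) (a (l 14) (a (l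 14) (a (l 14) (a (l 14) (a (l 14) (b (b (l 16754792) (l 16758000)) (b (l 16762504) (b (l 16763568) (c (l 14) (b (l 16764688) (a (l 14) (b (l 16765304) (b (l 16765608) (l 16765808))))))))))))))))))), by decide +kernel⟩

def k9_pm_012 : ∃ t, chk3 f_pm_012 t 31 63 1 = true :=
  ⟨(a (b (a (b (a (b (l 16750120) (l 16753096)) (b (l 16751640) (c (l 16754584) (l 16750728)))) (a (a (b (l 16750464) (l 16756056)) (b (l 16761688) (l 16756792))) (a (b (l 16757200) (l 16757528)) (b (l 16755328) (l 16758272))))) (b (a (b (a (l 16747552) (l 16758808)) (a (l 16755752) (l 6))) (l 6)) (l 6))) (a (b (a (a (b (l 16759016) (a (l 16761776) (l 16762136))) (b (l 16760400) (b (l 16761944) (l 16763408)))) (a (b (c (l 14) (l 16759720)) (l 6)) (l 6))) (a (c (l 14) (b (b (a (l 16762360) (l 16763088)) (a (c (l 14) (l 16763704)) (l 6))) (a (b (b (l 16765056) (a (l 16764328) (l 6))) (a (c (l 14) (c (l 14) (b (l 16764912) (a (c (l 14) (b (l 16765392) (a (b (l 16765648) (l 16765848)) (l 6)))) (l 6))))) (l 6))) (l 6))))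 (l 6))) (l 6))) (l 6)), by decide +kernel⟩

theorem s10_pm_012 : ∃ t, chk3 f_pm_012 t 15 63 1 = true := ex3_a k8_pm_012 k9_pm_012

theorem s11_pm_012 : ∃ t, chk3 f_pm_012 t 15 31 1 = true := ex3_b k7_pm_012 s10_pm_012

theorem s12_pm_012 : ∃ t, chk3 f_pm_012 t 15 15 1 = true := ex3_b k6_pm_012 s11_pm_012

theorem s13_pm_012 : ∃ t, chk3 f_pm_012 t 15 7 1 = true := ex3_b k5_pm_012 s12_pm_012

theorem s14_pm_012 : ∃ t, chk3 f_pm_012 t 7 7 1 = true := ex3_a k4_pm_012 s13_pm_012

theorem s15_pm_012 : ∃ t, chk3 f_pm_012 t 3 7 1 = true := ex3_a k3_pm_012 s14_pm_012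

theorem s16_pm_012 : ∃ t, chk3 f_pm_012 t 3 3 1 = true := ex3_b k2_pm_012 s15_pm_012

theorem s17_pm_012 : ∃ t, chk3 f_pm_012 t 3 1 1 = true := ex3_b k1_pm_012 s16_pm_012

theorem s18_pm_012 : ∃ t, chk3 f_pm_012 t 1 1 1 = true := ex3_a k0_pm_012 s17_pm_012

theorem c_pm_012 : CertN 0 536870912 0 536870912 33554432 16777216 3 false true false .pnp 0 1 2
    ndN0q0 ndN0q2 pcN1 cut_pm_012 Ext.none :=
  certNK2 (fam := false) (s1 := true) (s2 := false) (a := 0) (b := 1) (c := 2) (cn := .pnp) (n1 := ndN0q0) (n2 := ndN0q2) (pc := pcN1) (cut := cut_pm_012) (xt := Ext.none) (P1 := 0) (W1 := 536870912) (P2 := 0) (W2 := 536870912) (P3 := 33554432) (W3 := 16777216) (N0 := 3)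
    rfl rfl rfl (fun _ => rfl) s18_pm_012

noncomputable def cut_pm_022 : Cut := Cut.of [[⟨0, 0, 0, 33554432⟩, ⟨1, 1, 0, 33554432⟩, ⟨2, 1, 0, 33554432⟩]]

noncomputable def f_pm_022 : ℕ → ℕ → ℕ → ℕ → Bool := onCell 0 536870912 0 536870912 33554432 16777216
    (rowNK 3 0 false true false .pp 0 2 2 (qsf 0 536870912 0 536870912 2) ndN0q0 ndN0q2 pcN2 cut_pm_022 Ext.none)

def k0_pm_022 : ∃ t, chk3 f_pm_022 t 2 2 1 = true :=
  ⟨(a (b (l 19496256) (a (l 19528256) (l 19637008))) (a (b (b (a (a (l 19384560) (l 19364928)) (l 1)) (l 19520440)) (l 19691520)) (l 1))), by decide +kernel⟩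

def k1_pm_022 : ∃ t, chk3 f_pm_022 t 4 6 1 = true :=
  ⟨(a (b (l 19388760) (a (b (l 19085048) (a (l 18763616) (l 18880968))) (b (l 19292952) (b (l 19141184) (l 18991320))))) (b (a (l 19609952) (l 19730008)) (a (b (l 19510792) (a (l 19265696) (l 19337968))) (b (l 19626680) (l 1))))), by decide +kernel⟩

def k2_pm_022 : ∃ t, chk3 f_pm_022 t 16 14 1 = true :=
  ⟨(b (b (a (l 18452936) (l 18575848)) (a (a (l 17915456) (l 18075192)) (a (l 18133264) (l 18194664)))) (a (b (c (a (l 17821256) (l 18093168)) (b (a (l 17471712) (l 17539680)) (a (a (l 17126592) (l 17214776)) (l 16992752)))) (b (c (a (b (l 17712496) (l 17432360)) (b (l 17761712) (l 17599064))) (a (a (l 16787784) (l 16885152)) (l 16714104))) (a (a (l 16735048) (l 16743112)) (a (l 16758016) (l 16753656))))) (a (b (c (l 18138360) (b (l 17570168) (l 17029992))) (b (c (b (l 17815696) (l 17645224)) (a (l 16871760) (l 16870592))) (a (l 16730152) (b (l 16876256) (l 16721064))))) (b (c (l 18082680) (b (l 17605360) (b (l 17370664) (l 17189640))))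 (a (b (c (l 17753024) (l 16871056)) (b (l 16776360) (l 16717712))) (b (c (l 17572336) (b (l 16987704) (l 16751680))) (b (l 16803960) (l 16716208)))))))), by decide +kernel⟩

def k3_pm_022 : ∃ t, chk3 f_pm_022 t 17 14 1 = true :=
  ⟨(b (b (a (l 18708896) (l 18851688)) (c (a (l 18743328) (l 18898240)) (a (a (l 18025192) (l 17932456)) (a (l 18136760) (b (l 18302376) (l 18061400)))))) (a (b (c (b (l 18461456) (a (l 18171952) (l 18246856))) (b (a (l 17498368) (l 17605552)) (a (b (l 17275760) (a (l 17206416) (l 17219320))) (b (l 17437504) (l 17178240))))) (b (a (c (b (l 17938384) (l 17690784)) (a (l 16771960) (l 16819120))) (c (a (l 17687688) (b (l 18021232) (l 17757256))) (a (l 16700000) (b (a (l 17019968) (l 17024480)) (a (l 16760928) (l 1)))))) (a (a (b (l 16833176) (l 16716488)) (b (l 16843008) (b (l 16796112) (l 16668232)))) (a (b (a (l 16809352) (c (l 17413824) (l 16661168))) (a (b (l 16757936) (l 16667552)) (l 1))) (l 1))))) (a (b (c (b (l 18578568) (l 18216376)) (b (a (l 17725400)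 (l 17619704)) (a (b (l 17382320) (l 17009464)) (l 17373312)))) (b (a (b (l 17322016) (l 1)) (l 1)) (l 1))) (b (b (l 18017688) (l 1)) (l 1))))), by decide +kernel⟩

def k4_pm_022 : ∃ t, chk3 f_pm_022 t 8 15 1 = true :=
  ⟨(a (b (b (a (a (a (b (b (l 16733632) (l 16741296)) (a (l 16746816) (l 16742872))) (b (l 16732040) (a (l 16738888) (l 16734864)))) (b (a (l 16726456) (b (l 16708960) (l 16732464))) (a (b (l 16732784) (l 16729992)) (b (l 16734976) (a (l 16718584) (l 16717056)))))) (a (a (b (b (l 16700600) (a (l 16705248) (l 16701128))) (b (a (l 16728768) (l 16724680)) (a (l 16712960) (l 16727256)))) (b (b (a (l 16694392) (l 16690256)) (a (l 16717984) (l 16692912))) (b (a (l 16699624) (l 16716520)) (c (l 16705424) (l 16721184))))) (b (a (b (l 16705032) (l 16707728)) (b (l 16696792) (l 16699552))) (a (a (b (l 16712440) (l 16715112)) (b (l 16708376) (l 16711080))) (b (a (l 16704328) (l 16702256)) (b (a (l 16706496) (a (l 16706712) (l 16685880))) (a (l 6) (a (l 6) (l 16688912))))))))) (a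 (l 6) (a (l 6) (a (l 6) (a (l 6) (a (l 6) (l 1))))))) (a (l 6) (a (l 6) (l 1)))) (b (a (b (a (b (a (b (l 16691160) (a (l 16696696) (a (l 16696976) (l 16678800)))) (b (a (l 16673448) (b (l 16669848) (l 16672584))) (a (b (l 16675016) (l 1)) (l 1)))) (a (b (b (a (l 16701088) (l 16680424)) (a (l 16685048) (l 1))) (a (l 16691344) (l 1))) (l 1))) (l 1)) (l 1)) (l 1)) (l 1))), by decide +kernel⟩

def k5_pm_022 : ∃ t, chk3 f_pm_022 t 9 7 1 = true :=
  ⟨(b (a (b (a (b (l 18955664) (l 102579021607)) (l 1)) (l 1)) (l 1)) (l 1)), by decide +kernel⟩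

def k6_pm_022 : ∃ t, chk3 f_pm_022 t 5 3 1 = true :=
  ⟨(b (l 1) (l 1)), by decide +kernel⟩

def k7_pm_022 : ∃ t, chk3 f_pm_022 t 3 1 1 = true :=
  ⟨(l 1), by decide +kernel⟩

theorem s8_pm_022 : ∃ t, chk3 f_pm_022 t 8 14 1 = true := ex3_a k2_pm_022 k3_pm_022

theorem s9_pm_022 : ∃ t, chk3 f_pm_022 t 8 7 1 = true := ex3_b s8_pm_022 k4_pm_022

theorem s10_pm_022 : ∃ t, chk3 f_pm_022 t 4 7 1 = true := ex3_a s9_pm_022 k5_pm_022

theorem s11_pm_022 : ∃ t, chk3 f_pm_022 t 4 3 1 = true := ex3_b k1_pm_022 s10_pm_022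

theorem s12_pm_022 : ∃ t, chk3 f_pm_022 t 2 3 1 = true := ex3_a s11_pm_022 k6_pm_022

theorem s13_pm_022 : ∃ t, chk3 f_pm_022 t 2 1 1 = true := ex3_b k0_pm_022 s12_pm_022

theorem s14_pm_022 : ∃ t, chk3 f_pm_022 t 1 1 1 = true := ex3_a s13_pm_022 k7_pm_022

theorem c_pm_022 : CertN 0 536870912 0 536870912 33554432 16777216 3 false true false .pp 0 2 2
    ndN0q0 ndN0q2 pcN2 cut_pm_022 Ext.none :=
  certNK0 (fam := false) (s1 := true) (s2 := false) (a := 0) (b := 2) (c := 2) (cn := .pp) (n1 := ndN0q0) (n2 := ndN0q2) (pc := pcN2) (cut := cut_pm_022) (xt := Ext.none) (P1 := 0) (W1 := 536870912) (P2 := 0) (W2 := 536870912) (P3 := 33554432) (W3 := 16777216) (N0 := 3)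
    rfl rfl rfl s14_pm_022

noncomputable def cut_pm_101 : Cut := Cut.of [[⟨0, 1, 0, 33554432⟩, ⟨1, 0, 0, 33554432⟩, ⟨2, 1, 0, 33554432⟩]]

noncomputable def f_pm_101 : ℕ → ℕ → ℕ → ℕ → Bool := onCell 536870912 536870912 536870912 536870912 33554432 16777216
    (rowNK 3 0 false true false .npn 1 0 1 (qsf 536870912 536870912 536870912 536870912 0) ndN0q1 ndN0q1 pcN0 cut_pm_101 Ext.none)

def k0_pm_101 : ∃ t, chk3 f_pm_101 t 4 2 1 = true :=
  ⟨(a (b (b (l 4) (a (b (l 4) (a (l 4) (a (l 4) (b (l 4) (b (l 4) (c (l 151095762839) (l 148948275655))))))) (a (b (l 4) (a (b (l 4) (b (c (l 152706377335) (l 150558889479)) (c (l 93113693767) (l 87744984855)))) (b (b (l 4) (c (l 154853862391) (l 152706373687))) (c (l 92576878135) (l 86671291287))))) (b (a (l 4) (b (l 4) (b (l 4) (c (l 159148852039) (l 158075082263))))) (c (b (b (a (l 157001346999) (l 99019259847)) (l 92576880327)) (l 16880264)) (b (b (a (l 155927599175) (l 84523744647)) (l 86671293095)) (l 16871408))))))) (a (b (b (a (a (b (l 4)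 (b (c (l 140358336295) (l 133379011591)) (l 89355666231))) (b (b (l 4) (c (l 147337682791) (l 143579583591))) (c (l 92576883879) (l 85060674215)))) (b (c (b (a (l 149485148039) (l 93113690151)) (l 92576868215)) (b (a (l 147337661335) (l 87208108807)) (l 85597546983))) (l 16970672))) (a (b (l 16981416) (l 16977640)) (l 17116896))) (b (c (l 17216080) (l 17010672)) (c (l 17320408) (l 17064880)))) (b (b (a (b (b (l 16906752) (l 16914048)) (l 16976120)) (l 17106736)) (b (l 17113048) (l 17173352))) (c (b (l 17241320) (l 17374208)) (l 17228312))))) (b (b (a (a (l 4) (l 1)) (l 1)) (b (a (a (b (a (l 4) (b (l 4) (a (l 4) (b (l 4) (l 161296286007))))) (c (b (a (l 161296335367) (l 102777372743)) (c (l 89355615287) (l 90966204743))) (a (b (l 161296327463) (l 86134355783)) (l 87208161751)))) (b (b (l 1) (b (l 1) (l 158947595143))) (a (l 16900384) (l 16905728)))) (b (l 1) (l 17077264))) (a (a (b (b (l 16901376) (l 16907584)) (l 16969952)) (l 17079176)) (l 17221920)))) (b (b (a (l 17249200) (l 17292432))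 (c (l 17421592) (l 17258048))) (c (b (l 17523912) (a (l 17427872) (l 17503304))) (c (l 17346816) (l 17283720)))))), by decide +kernel⟩

def k1_pm_101 : ∃ t, chk3 f_pm_101 t 5 2 1 = true :=
  ⟨(b (a (b (l 1) (a (b (l 1) (l 17286760)) (l 1))) (l 1)) (b (a (c (a (l 17568176) (l 17610400)) (a (l 17375888) (l 17420832))) (b (l 1) (c (l 17683832) (l 17414928)))) (a (c (b (l 17694920) (l 17869096)) (a (l 17412312) (l 17470304))) (c (b (l 17782288) (l 17944088)) (c (l 17429424) (l 17367064)))))), by decide +kernel⟩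

def k2_pm_101 : ∃ t, chk3 f_pm_101 t 2 6 1 = true :=
  ⟨(a (b (a (c (b (c (l 17608600) (l 17347280)) (c (l 17771992) (l 17468112))) (b (a (l 17133032) (l 17111552)) (a (l 17255856) (l 17211272)))) (c (c (b (l 17708864) (l 17905936)) (l 17771160)) (b (l 17315744) (l 17413664)))) (a (c (b (c (l 17958112) (l 17578528)) (c (l 18202432) (l 17768952))) (c (b (l 17248928) (l 17410288)) (b (a (l 17203392) (l 17154928)) (a (l 17351056) (l 17297568))))) (c (b (c (l 18208664) (l 17817512)) (c (l 18567304) (l 18044800))) (b (c (l 17476168) (l 17256584)) (c (l 17597312) (l 17402040)))))) (b (a (c (b (l 18065288) (c (l 18246680) (l 17866504))) (c (l 17629184) (l 17387880))) (c (b (l 18173608) (l 18473232)) (c (l 17594272) (l 17367000)))) (a (b (c (c (l 18580952) (l 18096504)) (c (l 17640768) (l 17264536))) (c (c (b (l 18871400) (l 19038032)) (l 18484464)) (c (b (l 17752208) (l 17872928)) (c (l 17371848) (l 17372720))))) (b (c (c (l 18836728) (l 18240976)) (c (l 17717248) (l 17274616))) (c (c (l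 19375616) (l 18535912)) (c (c (l 17989328) (l 17678576)) (c (l 17378440) (l 17299712)))))))), by decide +kernel⟩

def k3_pm_101 : ∃ t, chk3 f_pm_101 t 2 7 1 = true :=
  ⟨(a (b (a (b (c (a (b (l 18079712) (l 18307008)) (c (l 18533480) (l 18020696))) (c (a (l 17452200) (l 17542584)) (c (a (l 17304104) (l 17232800)) (a (l 17632064) (l 17484944))))) (c (c (l 18402776) (l 18052136)) (c (l 17621632) (a (l 17721280) (l 17590912))))) (b (c (c (b (l 18789536) (l 18712600)) (l 18393600)) (c (b (l 17738432) (l 17643312)) (c (l 17376640) (l 17517136)))) (c (c (l 18440840) (l 18109464)) (c (l 17505400) (l 17602680))))) (b (a (c (b (l 17823296) (c (l 17473920) (l 17409944))) (c (b (l 17452720) (l 17601224)) (a (l 17866528) (l 17774928)))) (c (b (l 17881320) (l 17532440)) (c (b (l 17249472) (l 17408640)) (l 17760568)))) (a (b (c (l 17809896) (l 18003608)) (l 18372624)) (b (c (l 17570760) (c (l 17678688) (l 17859472))) (b (l 17849520) (l 18035400)))))) (b (a (b (c (c (l 19072840) (l 18434728)) (c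 (b (l 17817176) (l 17735904)) (c (l 17376584) (l 17378336)))) (c (c (l 18514656) (l 18081320)) (c (l 17602984) (c (l 17231312) (l 17342256))))) (b (c (c (l 18978856) (l 18360488)) (c (l 17871248) (l 17390392))) (c (c (l 18495104) (l 18069488)) (c (l 17659856) (c (l 17191368) (l 17265984)))))) (b (a (c (b (l 18068232) (l 17578016)) (c (b (l 17309480) (l 17227144)) (l 17582264))) (c (b (c (l 18000512) (l 17630232)) (l 17627304)) (c (l 17395720) (l 17457992)))) (a (b (c (b (l 17196728) (l 17334408)) (l 17671832)) (b (l 17770904) (l 17852248))) (b (c (b (l 17154504) (l 17247536)) (l 17587704)) (b (l 17707048) (l 17768008))))))), by decide +kernel⟩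

def k4_pm_101 : ∃ t, chk3 f_pm_101 t 3 2 1 = true :=
  ⟨(a (b (l 1) (a (a (b (l 1) (c (l 18100416) (l 17574352))) (l 1)) (l 1))) (l 1)), by decide +kernel⟩

def k5_pm_101 : ∃ t, chk3 f_pm_101 t 6 3 1 = true :=
  ⟨(b (b (a (c (c (b (l 18379344) (l 18683976)) (l 18194400)) (c (l 17726384) (l 17393416))) (a (b (l 1) (c (l 18722816) (l 83250668231))) (l 1))) (a (b (c (c (l 19070816) (l 18415688)) (c (l 17790432) (l 17287624))) (c (c (b (l 19324456) (l 19266912)) (l 18732120)) (c (b (l 17946136) (l 17864728)) (c (l 17444200) (l 17295960))))) (c (b (b (l 71442332359) (a (l 19254904) (l 87548949495))) (c (a (l 19460568) (l 19592264)) (a (l 18717720) (l 18841808)))) (b (c (a (l 17942640) (l 18078792)) (a (l 17404360) (l 17636240))) (c (a (l 18000248) (l 18114032)) (c (l 17793312) (l 17435120))))))) (b (a (b (c (c (l 18999304) (l 18366728)) (c (l 17902360) (l 17379680))) (c (b (l 18493968) (l 18273424)) (c (l 17699944) (c (l 17157488) (l 17220336))))) (c (b (c (l 19379944) (l 18712968)) (a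 (c (l 18606176) (l 18098272)) (c (l 18725032) (l 18211232)))) (b (c (l 18168720) (a (l 17317384) (l 17480248))) (c (c (l 17891304) (l 17770672)) (a (l 17206448) (l 17325592)))))) (b (a (c (b (b (l 17897224) (l 17834144)) (a (l 17462752) (l 17595784))) (c (b (l 17238824) (l 17171064)) (l 17511192))) (c (b (a (l 17955560) (l 18065736)) (a (l 17775520) (l 17861376))) (c (a (l 17362896) (l 17548904)) (a (l 17266368) (l 17220880))))) (a (b (c (a (l 17241952) (l 17236696)) (l 17639216)) (b (c (l 17433336) (l 17577400)) (l 17777328))) (b (c (a (l 17287688) (l 17454704)) (a (l 17349896) (l 17266152))) (a (b (l 17466488) (l 17484480)) (b (l 17339344) (b (l 17288272) (l 17362184))))))))), by decide +kernel⟩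

def k6_pm_101 : ∃ t, chk3 f_pm_101 t 7 3 1 = true :=
  ⟨(a (b (a (b (l 1) (a (b (l 1) (b (l 1) (c (l 19252568) (l 102578501351)))) (l 1))) (l 1)) (b (c (b (c (a (l 19379088) (l 19616144)) (l 131034697415)) (a (c (l 18853040) (l 18333376)) (c (l 19156064) (l 18523592)))) (b (c (l 134791493623) (c (l 17793480) (l 17587560))) (c (a (l 17824848) (l 17985712)) (a (l 17517176) (l 17648296))))) (b (c (b (a (l 18206376) (l 18390728)) (a (l 17956968) (l 18075368))) (c (b (l 17818832) (a (l 17392560) (l 17421256))) (a (l 17285672) (l 17436496)))) (b (a (c (b (l 17533616) (l 17345952)) (c (l 17123656) (l 17037672))) (c (a (l 17640592) (l 17659224)) (c (l 17277048) (l 17030736)))) (a (b (c (l 17079512) (l 17090112)) (l 17347432)) (b (c (l 17214256) (l 17059048)) (a (l 17142408) (l 17113384)))))))) (b (l 1) (a (b (b (l 1) (b (l 1) (c (l 180426395639) (c (l 17903128) (l 17470808))))) (b (c (b (a (l 18404712) (l 193310661127)) (b (l 18162152) (l 17978352))) (c (c (l 17887688) (l 17672032)) (b (l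 17417304) (l 17339768)))) (b (c (b (l 17759960) (a (l 17386016) (l 17478160))) (c (l 17403872) (l 17175496))) (b (c (l 17363784) (l 17104080)) (b (a (l 16997016) (l 17045160)) (l 17128432)))))) (b (l 1) (b (b (l 1) (a (a (c (l 213711030215) (l 215857329191)) (l 1)) (l 1))) (b (b (a (c (l 17823312) (l 17403944)) (l 1)) (a (a (c (l 17476928) (l 17217664)) (l 6)) (l 6))) (a (b (c (b (l 17277552) (l 17169920)) (l 17140928)) (b (l 17132840) (l 16998568))) (l 6)))))))), by decide +kernel⟩

theorem s7_pm_101 : ∃ t, chk3 f_pm_101 t 3 3 1 = true := ex3_a k5_pm_101 k6_pm_101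

theorem s8_pm_101 : ∃ t, chk3 f_pm_101 t 3 1 1 = true := ex3_b k4_pm_101 s7_pm_101

theorem s9_pm_101 : ∃ t, chk3 f_pm_101 t 2 3 1 = true := ex3_b k2_pm_101 k3_pm_101

theorem s10_pm_101 : ∃ t, chk3 f_pm_101 t 2 2 1 = true := ex3_a k0_pm_101 k1_pm_101

theorem s11_pm_101 : ∃ t, chk3 f_pm_101 t 2 1 1 = true := ex3_b s10_pm_101 s9_pm_101

theorem s12_pm_101 : ∃ t, chk3 f_pm_101 t 1 1 1 = true := ex3_a s11_pm_101 s8_pm_101

theorem c_pm_101 : CertN 536870912 536870912 536870912 536870912 33554432 16777216 3 false true false .npn 1 0 1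
    ndN0q1 ndN0q1 pcN0 cut_pm_101 Ext.none :=
  certNK0 (fam := false) (s1 := true) (s2 := false) (a := 1) (b := 0) (c := 1) (cn := .npn) (n1 := ndN0q1) (n2 := ndN0q1) (pc := pcN0) (cut := cut_pm_101) (xt := Ext.none) (P1 := 536870912) (W1 := 536870912) (P2 := 536870912) (W2 := 536870912) (P3 := 33554432) (W3 := 16777216) (N0 := 3)
    rfl rfl rfl s12_pm_101

end Pool.Agent.Strip051.G.I1_32_3_64.Tab.C.NB00

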