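import Pool.Agent.Strip051.G.I1_32_3_64.Tab
import Pool.Agent.Strip051.PB.RowK

/-! # Certificates N9 (generated) -/

set_option linter.all false
set_option maxRecDepth 100000

namespace Pool.Agent.Strip051.G.I1_32_3_64.Tab.C.NB00

open Pool.Agent.Strip051.PB Pool.Agent.Strip051.PB.T
open Pool.Agent.Strip051.G.I1_32_3_64.Tab

noncomputable def cut_pm_102 : Cut := Cut.of [[⟨0, 1, 0, 33554432⟩, ⟨1, 0, 0, 33554432⟩, ⟨2, 1, 0, 33554432⟩]]

noncomputable def f_pm_102 : ℕ → ℕ → ℕ → ℕ → Bool := onCell 536870912 536870912 0 536870912 33554432 16777216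
    (rowNK 3 0 false true false .npp 1 0 2 (qsf 536870912 536870912 0 536870912 0) ndN0q1 ndN0q2 pcN0 cut_pm_102 Ext.none)

def k0_pm_102 : ∃ t, chk3 f_pm_102 t 2 1 1 = true :=
  ⟨(b (a (b (l 2) (a (l 2) (b (l 2) (l 17505176)))) (a (b (a (a (l 2) (b (l 3) (a (l 855336371527) (b (b (l 99488958055) (l 16815088)) (l 16895440))))) (b (l 3) (b (a (l 95194067479) (l 3)) (a (b (a (l 16840600) (l 44191290055)) (l 16881312)) (b (l 78014157319) (b (l 84993556103) (l 16812872))))))) (b (a (l 17190584) (b (a (l 16966136) (l 16952544)) (l 17054648))) (a (l 17339256) (l 17227664)))) (b (b (l 3) (a (b (l 3) (a (l 95194039159) (l 3))) (l 3))) (b (a (b (a (b (a (l 16830416) (l 85530417207)) (l 16882432)) (b (l 85530346887) (a (l 16816064) (l 85530417655)))) (a (l 16971952) (b (l 16902776) (l 16942936)))) (b (a (l 98952154087) (l 3)) (a (b (l 84993631015) (l 16923176)) (b (l 90362176711) (l 86067365655))))) (a (l 17246576) (a (l 17167536) (b (b (a (l 16898184) (l 16884064)) (l 16949016)) (l 17050528))))))))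 (a (b (a (l 2) (b (l 17725688) (l 17857560))) (b (l 18056560) (a (l 18300664) (l 18092912)))) (b (a (b (l 17601800) (l 17682480)) (b (a (l 17363312) (l 17295728)) (l 17745096))) (b (a (l 17786376) (l 17719000)) (a (l 18042048) (l 17985032)))))), by decide +kernel⟩

def k1_pm_102 : ∃ t, chk3 f_pm_102 t 3 2 1 = true :=
  ⟨(b (l 3) (a (a (b (a (b (l 3) (a (l 105394572823) (l 3))) (l 3)) (a (a (b (b (a (b (l 34527600199) (l 16843304)) (l 88214753431)) (a (l 16896400) (b (l 16840256) (l 16876408)))) (l 17025624)) (a (b (b (l 95730859735) (a (l 16828568) (l 84993549623))) (l 16990832)) (b (l 90899112551) (b (b (l 16853256) (l 16869544)) (l 16925064))))) (b (a (b (l 3) (l 114521383143)) (l 3)) (a (b (b (a (l 87140983767) (l 3)) (b (l 86604163527) (l 84456717831))) (b (a (l 16865384) (a (l 16833216) (l 16832560))) (l 16923808))) (b (l 3) (b (a (l 65666116151) (l 3)) (l 87677927287))))))) (l 3)) (l 3))), by decide +kernel⟩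

def k2_pm_102 : ∃ t, chk3 f_pm_102 t 6 3 1 = true :=
  ⟨(b (a (b (a (b (l 17152976) (l 17233352)) (b (a (l 17059720) (b (a (l 16916048) (b (b (l 86604115159) (l 16840736)) (l 16869688))) (l 16970144))) (l 17209944))) (a (l 17480672) (l 17521016))) (b (a (b (a (b (a (b (l 109152639383) (a (l 16835872) (l 88751578103))) (l 116132022519)) (a (l 16924144) (b (b (l 89288443767) (l 86067256455)) (l 16877096)))) (b (l 3) (a (b (l 117205709703) (a (l 87140982151) (l 101099561879))) (l 3)))) (a (b (l 16977888) (l 16990488)) (b (a (b (b (l 16860600) (l 16837600)) (l 16866048)) (l 87141060071)) (a (l 16922464) (l 16918752))))) (b (l 3) (a (b (a (b (l 3) (l 90362194631)) (l 3)) (a (b (b (l 86067249655) (l 16843128)) (l 16870744)) (b (l 115058252375) (l 86604144711)))) (b (l 3) (a (b (l 3) (l 120426981095)) (l 3)))))) (a (b (a (l 17102480) (l 17093976)) (l 17268944)) (b (b (a (a (l 16904440) (l 16921960)) (a (b (l 87140998327) (l 16874048)) (b (l 122037595175) (b (l 110226397143) (l 86604104967))))) (a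 (l 16973904) (a (l 16905496) (a (l 16893304) (b (l 57076223047) (l 16846400)))))) (a (l 17083208) (b (l 16973584) (l 17001112))))))) (b (a (a (l 17657704) (l 17622856)) (a (b (l 17360920) (l 17465648)) (b (l 17281320) (l 17327440)))) (a (b (l 17696280) (l 17725336)) (a (l 17724560) (b (l 17350760) (l 17379592)))))), by decide +kernel⟩

def k3_pm_102 : ∃ t, chk3 f_pm_102 t 7 6 1 = true :=
  ⟨(a (b (l 3) (a (b (a (b (l 3) (a (b (a (b (l 111300092647) (l 69424188679)) (l 117742574487)) (b (l 66739899431) (l 16864392))) (b (l 3) (a (l 109152652215) (l 3))))) (l 3)) (a (b (a (b (l 16868288) (l 16880448)) (b (a (l 81235419703) (l 81772257447)) (l 16878888))) (a (l 16930096) (l 16905792))) (b (a (b (a (b (l 3) (l 111836966391)) (l 3)) (a (b (l 74792895655) (l 16813968)) (b (l 118279429031) (l 83382824071)))) (l 3)) (a (b (b (l 81235431543) (l 16834616)) (l 16857648)) (b (a (b (l 96267721015) (l 86604085719)) (b (l 3) (l 108078885991))) (a (l 16806152) (b (l 73182306167) (l 16814840)))))))) (b (l 3)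 (a (b (l 3) (a (b (l 3) (a (b (l 117205703895) (l 81235362919)) (b (l 3) (l 118816309799)))) (l 3))) (l 3))))) (l 3)), by decide +kernel⟩

def k4_pm_102 : ∃ t, chk3 f_pm_102 t 14 7 1 = true :=
  ⟨(b (a (b (a (l 17067416) (b (a (l 16903640) (l 16903520)) (l 16942056))) (a (l 17130752) (l 17031776))) (b (a (b (b (a (a (b (l 16789104) (l 16824416)) (b (l 94657129783) (l 83382859303))) (a (b (l 3) (a (l 90362140039) (l 117205681223))) (l 3))) (a (l 16878056) (a (b (a (l 16805320) (l 78550986039)) (l 16814488)) (b (a (l 108615753335) (l 3)) (a (l 83919708487) (l 89825268743)))))) (a (l 16878832) (b (a (l 16835224) (b (l 16788616) (l 16823152))) (l 16853208)))) (b (a (b (l 3) (a (b (l 3) (a (l 117742551895) (l 3))) (l 3))) (l 3)) (a (b (a (b (a (l 78550985511) (b (l 3) (l 97341458935))) (a (l 16809296) (l 83919707015))) (b (l 3) (a (b (l 107005115911) (l 78550982279)) (b (l 3) (l 116131928023))))) (a (l 16803896) (b (a (l 16825424) (b (l 85530300663) (l 16788352))) (l 16813224)))) (b (l 3) (a (b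 (a (b (l 3) (l 98415199959)) (l 3)) (a (b (l 87140917495) (l 16803072)) (b (l 108615750231) (l 79624723431)))) (b (l 3) (a (b (l 3) (l 117205671303)) (l 3)))))))) (a (b (l 16956840) (l 16970400)) (b (a (l 16897784) (b (a (b (l 16791376) (l 16821448)) (b (a (b (l 87140912871) (l 16790568)) (b (l 3) (l 101099554231))) (a (l 16808040) (b (a (l 16798248) (l 77477217575)) (l 16802424))))) (l 16873752))) (l 16952160))))) (b (a (l 17228584) (b (a (l 17025144) (l 16940784)) (l 17086360))) (a (b (l 17202336) (l 17217152)) (b (l 17047440) (b (l 17060184) (l 17088128)))))), by decide +kernel⟩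

def k5_pm_102 : ∃ t, chk3 f_pm_102 t 30 28 1 = true :=
  ⟨(l 3), by decide +kernel⟩

def k6_pm_102 : ∃ t, chk3 f_pm_102 t 60 29 1 = true :=
  ⟨(b (a (b (a (b (l 3) (a (b (a (l 102173295559) (l 3)) (a (l 16790728) (l 87140911575))) (b (l 3) (a (l 115595053127) (l 3))))) (l 3)) (a (b (a (b (l 16800040) (l 16806344)) (b (a (l 79087840167) (l 104857650503)) (b (l 86604040647) (l 16799208)))) (l 16790416)) (b (a (b (l 3) (a (l 94657103719) (l 117205666983))) (l 3)) (a (b (a (l 16797416) (l 80698452135)) (l 16801448)) (b (a (l 107541992663) (l 3)) (a (b (l 85530287879) (l 16796544)) (l 96804576151))))))) (b (l 3) (a (b (l 3) (a (b (l 3) (a (l 118279410103) (l 3))) (l 3))) (l 3)))) (a (b (a (l 16830224) (b (a (l 16810736) (b (l 16788520) (l 16805136))) (l 16818704))) (l 16846104)) (b (a (b (a (b (a (b (l 93583361063) (l 16790912)) (b (l 3) (l 100562671287))) (a (l 16798688) (b (l 86067157607) (l 16795952)))) (b (l 3) (a (b (l 108615726215) (l 83919674839)) (l 3)))) (a (l 16805680) (b (a (l 16790992)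 (b (l 96267704231) (l 59223598679))) (l 16800128)))) (b (l 3) (a (b (a (b (l 3) (l 103783896711)) (l 3)) (a (b (l 80698444871) (l 16795264)) (b (l 113984436119) (l 91972737415)))) (l 3)))) (a (l 16798576) (b (a (b (a (l 16799744) (l 51170535751)) (l 16803592)) (b (a (b (a (l 90362113623) (l 109152595815)) (l 86604027943)) (b (l 3) (a (l 99488917879) (l 3)))) (a (l 16797224) (b (a (l 63518566055) (l 92509596679)) (l 16794488))))) (l 16792528)))))), by decide +kernel⟩

def k7_pm_102 : ∃ t, chk3 f_pm_102 t 61 29 1 = true :=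
  ⟨(b (l 3) (a (b (l 3) (a (b (a (b (l 3) (a (b (l 116668791719) (a (l 81235308631) (l 102173272231))) (l 3))) (l 3)) (a (b (a (b (l 59223598071) (l 16796168)) (b (a (l 94120219271) (l 3)) (a (l 16793032) (l 83919667719)))) (l 16787976)) (b (a (b (l 3) (a (l 104857627431) (l 3))) (l 3)) (a (b (a (l 66202919399) (l 96804567991)) (l 16790360)) (b (l 3) (a (b (l 93583337127) (l 68887273831)) (l 108078852791))))))) (l 3))) (l 3))), by decide +kernel⟩

def k8_pm_102 : ∃ t, chk3 f_pm_102 t 31 14 1 = true :=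
  ⟨(l 3), by decide +kernel⟩

def k9_pm_102 : ∃ t, chk3 f_pm_102 t 60 60 1 = true :=
  ⟨(a (l 16883160) (l 16888808)), by decide +kernel⟩

def k10_pm_102 : ∃ t, chk3 f_pm_102 t 122 60 1 = true :=
  ⟨(b (a (b (a (l 16807272) (b (a (l 16797992) (b (a (l 16793400) (b (l 74792853511) (l 16792048))) (l 16795248))) (l 16801704))) (l 16814696)) (b (a (b (a (b (a (b (l 3) (l 90898982615)) (l 3)) (a (l 63518564903) (b (l 96804562007) (l 71034756983)))) (b (l 3) (a (l 112373821431) (l 3)))) (a (l 16790160) (b (a (b (l 88214628135) (l 16788960)) (b (l 3) (l 94120212615))) (a (l 16793712) (l 65666048103))))) (b (l 3) (a (b (l 3) (a (b (l 102173270743) (l 82309048215)) (l 3))) (l 3)))) (a (b (l 16799072) (l 16804840)) (b (a (b (a (l 16789800) (b (c (l 90898982679) (l 91435857303)) (l 68350402471))) (l 16794232)) (b (a (b (l 3) (c (l 97341432919) (l 97878306375))) (l 3)) (a (b (l 72108498311) (l 16791840)) (b (l 106468238583) (a (l 72645369207) (l 91435852119)))))) (a (l 16798528) (b (l 59760468599) (l 16795776)))))))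 (a (l 16832200) (b (l 16788272) (l 16820712)))), by decide +kernel⟩

def k11_pm_102 : ∃ t, chk3 f_pm_102 t 123 120 1 = true :=
  ⟨(a (b (l 3) (a (b (l 3) (a (b (a (b (a (l 83919659751) (l 101636399191)) (l 69424143319)) (a (b (l 3) (l 94120206327)) (l 3))) (a (l 16792656) (a (l 66202918231) (b (l 88214626615) (l 16790784))))) (a (b (l 3) (b (l 3) (a (l 74792852151) (l 96267689655)))) (l 3)))) (l 3))) (l 3)), by decide +kernel⟩

def k12_pm_102 : ∃ t, chk3 f_pm_102 t 246 121 1 = true :=
  ⟨(b (a (b (a (l 16795872) (b (a (b (l 68887272551) (l 16792048)) (b (c (l 98415179143) (a (l 90362109143) (l 3))) (c (l 74792853335) (a (l 16788832) (l 79624690487))))) (l 16787888))) (l 16799464)) (b (a (b (a (a (b (l 3) (l 99488914919)) (l 3)) (l 3)) (a (b (a (l 72645368327) (a (l 87677755079) (l 96804560199))) (l 68887271863)) (b (l 3) (a (a (l 75866593671) (l 88751496695)) (a (l 98415172807) (l 3)))))) (l 3)) (a (b (a (l 16792840) (b (c (l 73182240327) (a (l 16790224) (l 75329722407))) (l 16791472))) (l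 16794616)) (b (a (a (b (a (l 90362109223) (l 100025785479)) (l 73719109831)) (b (l 3) (b (l 94120205351) (l 76940335255)))) (l 3)) (a (l 16788888) (b (a (b (l 83382786551) (l 74792851351)) (b (l 3) (l 90898979767))) (c (l 71571627335) (a (l 16790304) (l 74255980631))))))))) (a (l 16807976) (b (l 16788888) (l 16802384)))), by decide +kernel⟩

def k13_pm_102 : ∃ t, chk3 f_pm_102 t 247 242 1 = true :=
  ⟨(a (b (l 3) (a (b (l 3) (a (a (b (l 3) (b (l 97341430519) (a (l 78014076727) (l 82845915015)))) (l 3)) (l 3))) (l 3))) (l 3)), by decide +kernel⟩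

def k14_pm_102 : ∃ t, chk3 f_pm_102 t 247 243 1 = true :=
  ⟨(a (b (a (b (a (a (l 67276658695) (b (b (a (l 83919656839) (l 3)) (l 76940334775)) (l 16790360))) (a (b (c (l 102173269351) (b (l 3) (l 95193946087))) (a (l 74255980279) (b (l 81235301879) (l 16788128)))) (b (l 3) (b (l 3) (a (l 80698431095) (l 89288366599)))))) (a (l 16792960) (b (c (l 72108497799) (a (l 16790368) (l 73719109047))) (l 16791592)))) (b (l 3) (a (a (b (a (b (l 82309043719) (l 75329721863)) (b (l 3) (l 81772172823))) (l 16787432)) (b (c (l 105931366183) (b (l 3) (l 99488913239))) (b (a (l 79087818167) (l 85530269623)) (l 74255979911)))) (a (a (b (l 3) (c (l 91972721591) (b (l 3) (l 81772172423)))) (l 3)) (l 3))))) (a (l 16796120) (b (a (l 16786368) (a (a (l 16788360) (b (b (l 80161559735) (l 16789480)) (l 16790504))) (b (a (c (l 82309044935) (b (l 89288365655) (l 78550946919))) (b (l 3) (a (l 83919656103) (l 83382785095)))) (l 70497883383)))) (l 16793320)))) (b (l 3) (a (b (a (b (l 3) (a (a (c (l 77477206423) (b (l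 81772172327) (l 16788944))) (c (l 86067141543) (b (l 91972719959) (l 79087817607)))) (a (c (l 96267688359) (b (l 3) (l 86604010935))) (l 3)))) (l 3)) (a (b (a (l 16790008) (a (l 73719108551) (b (b (l 83382784743) (l 79624688407)) (l 16787720)))) (l 16790816)) (a (b (b (l 3) (a (b (l 83919655575) (l 76940333879)) (b (l 3) (l 85530268295)))) (c (l 74792851191) (b (l 75866591879) (l 16789232)))) (b (l 3) (a (b (b (l 84993397495) (l 80698429783)) (l 74255979031)) (b (l 3) (b (l 84993397143) (l 78014075239)))))))) (b (l 3) (a (a (a (b (l 3) (c (l 101099526039) (b (l 3) (c (l 91972719527) (l 92509589847))))) (l 3)) (l 3)) (l 3)))))), by decide +kernel⟩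

def k15_pm_102 : ∃ t, chk3 f_pm_102 t 30 61 1 = true :=
  ⟨(a (l 16933648) (a (l 16878744) (b (a (l 16820528) (b (a (l 16802248) (b (a (b (a (l 16792840) (l 16788088)) (l 16794472)) (b (a (a (b (c (b (l 83382785767) (l 75866592519)) (b (a (l 78550945895) (a (l 85530267911) (l 88751493767))) (l 74255978583))) (l 16789784)) (b (b (l 3) (a (b (a (l 84456525847) (l 3)) (l 79624687671)) (b (l 3) (l 87140880823)))) (c (l 74255979783) (b (c (l 78550946151) (a (l 16788192) (l 80161558279))) (l 16788744))))) (a (b (l 3) (c (b (l 96804558103) (l 79087817511)) (a (b (b (l 3) (l 86067138423)) (l 77477203735)) (b (l 3) (a (l 83919654615) (l 86067138791)))))) (l 3))) (a (l 16791272) (b (a (l 69424140119) (c (b (c (l 87140881735) (l 88751494183)) (l 78014075591)) (b (a (a (l 79087816231) (l 83382783655)) (a (l 87677751335) (l 3))) (c (l 77477203895) (a (l 16788080) (l 79087816023)))))) (l 16789816))))) (l 16785896))) (l 16808776))) (l 16854728)))), by decide +kernel⟩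

def k16_pm_102 : ∃ t, chk3 f_pm_102 t 62 60 1 = true :=
  ⟨(l 3), by decide +kernel⟩

def k17_pm_102 : ∃ t, chk3 f_pm_102 t 496 488 1 = true :=
  ⟨(a (b (l 3) (a (a (b (a (b (l 3) (c (l 86067139671) (b (l 90362105687) (l 84456525191)))) (l 3)) (b (a (l 75329719799) (a (b (l 83919654183) (l 75866590583)) (b (l 3) (l 80698428695)))) (l 16787256))) (b (l 3) (a (c (b (l 94120202919) (l 80698429655)) (b (a (l 91435847319) (l 3)) (b (l 81772170327) (l 76940332215)))) (b (l 3) (b (l 3) (a (l 83382783111) (l 87140879623))))))) (l 3))) (l 3)), by decide +kernel⟩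

def k18_pm_102 : ∃ t, chk3 f_pm_102 t 496 489 1 = true :=
  ⟨(a (b (a (b (a (l 16789560) (a (l 16788768) (b (c (l 78550945895) (l 77477202999)) (l 16788576)))) (l 16790368)) (a (b (a (b (a (b (l 85530266663) (l 78014073911)) (b (l 3) (l 83919653799))) (l 73182235735)) (b (l 3) (b (a (l 80698428311) (l 86604008359)) (l 76940331927)))) (l 16786152)) (a (b (b (l 3) (a (b (l 3) (l 84456524583)) (l 3))) (a (l 72108493735) (b (b (l 81772169991) (l 16787696)) (l 16788184)))) (b (l 3) (b (b (c (l 89288364279) (l 91435846727)) (a (l 79624686263) (l 85530266279))) (l 74792848135)))))) (l 16786072)) (b (a (a (b (l 3) (b (l 3) (a (c (l 80698429047) (b (a (l 84993395239) (l 3)) (l 79624686071))) (a (a (b (l 3) (l 85530266039)) (l 3)) (l 3))))) (l 3)) (l 3)) (a (a (a (l 16786304) (b (c (l 75866590983) (b (a (l 77477202423) (b (l 85530266023) (l 77477202391))) (l 16787760))) (l 16789064))) (b (a (c (b (l 89825234823) (l 78014074215)) (b (b (l 3) (a (l 82309040439) (l 84993394967))) (c (l 78014073639) (l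 76940331223)))) (b (l 3) (c (l 84456525639) (a (b (l 86067136807) (l 78550943975)) (b (l 3) (l 84456523943)))))) (l 68350396823))) (b (l 3) (a (b (b (a (c (l 85530266839) (a (l 81235298375) (l 87140878599))) (l 3)) (c (l 81235300007) (a (l 77477201991) (a (l 85530265639) (l 3))))) (a (l 16787808) (a (l 74792847543) (b (a (l 80161556567) (l 83919652855)) (l 16787328))))) (a (b (l 3) (c (l 87677750743) (a (b (a (l 87140878295) (l 3)) (l 80161556407)) (b (l 3) (l 86067136439))))) (l 3))))))), by decide +kernel⟩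

def k19_pm_102 : ∃ t, chk3 f_pm_102 t 497 244 1 = true :=
  ⟨(l 3), by decide +kernel⟩

def k20_pm_102 : ∃ t, chk3 f_pm_102 t 496 245 1 = true :=
  ⟨(b (a (l 16795360) (b (b (b (a (l 16789800) (a (l 16788208) (a (c (l 76940332119) (l 75329718199)) (c (l 80698428279) (a (b (l 84456523575) (l 16786912)) (b (l 3) (l 80698427095))))))) (l 16787192)) (l 16790408)) (l 16792424))) (l 16798600)), by decide +kernel⟩

def k21_pm_102 : ∃ t, chk3 f_pm_102 t 994 490 1 = true :=
  ⟨(b (a (a (a (b (b (a (a (b (l 3) (l 85530265351)) (l 3)) (l 3)) (b (c (l 82309040887) (a (l 79624685351) (l 85530265271))) (l 75329718183))) (l 16788016)) (b (b (l 3) (b (l 3) (a (b (l 84456523367) (l 79087814343)) (a (l 86604007063) (l 3))))) (c (l 75329718951) (b (c (l 77477201975) (b (l 78550943255) (l 16786896))) (l 16787528))))) (b (l 3) (b (a (c (l 85530266679) (a (b (l 86067136055) (l 78014072327)) (c (l 88214620631) (b (l 3) (l 84993394087))))) (a (b (l 3) (b (l 3) (l 87140877783))) (l 3))) (a (l 16785984) (c (l 79624686135)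 (b (a (c (l 81772169063) (l 81235297687)) (a (l 86067135911) (l 3))) (l 77477201255))))))) (a (a (a (b (l 3) (b (l 3) (b (l 3) (b (l 86604006775) (a (l 79624684999) (l 84456523031)))))) (l 3)) (l 3)) (l 3))) (a (l 16786600) (a (b (a (c (l 74792847943) (a (l 72108492135) (b (b (a (l 80161555655) (l 84993393895)) (l 16786664)) (l 16787144)))) (c (b (c (l 88214621271) (l 89288362631)) (l 76940331335)) (b (a (b (a (l 87140877543) (l 3)) (l 80161555655)) (b (l 3) (a (l 85530264743) (l 87677748519)))) (l 74792846551)))) (l 16788296)) (b (b (l 3) (b (a (c (l 84456523959) (a (a (l 81772168343) (l 85530264647)) (a (l 88214619415) (l 3)))) (l 3)) (a (a (l 16785504) (b (a (l 80161555607) (l 84993393719)) (l 77477201047))) (a (a (b (l 3) (l 83919651831)) (l 3)) (l 3))))) (a (l 16786192) (b (b (c (l 82309040103) (a (l 79087813703) (a (l 84456522679) (l 86604006343)))) (l 74792846503)) (l 16787304))))))), by decide +kernel⟩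

def k22_pm_102 : ∃ t, chk3 f_pm_102 t 995 490 1 = true :=
  ⟨(b (l 3) (a (b (l 3) (b (b (l 3) (a (a (c (l 83382781799) (a (a (l 80161555367) (l 84993393559)) (a (l 87140877239) (l 3)))) (l 3)) (l 3))) (a (a (a (l 16786912) (b (a (l 77477200887) (b (l 83382780727) (l 16785864))) (l 16786816))) (a (c (l 80698427335) (b (a (l 84993393463) (l 87677748183)) (l 78014071575))) (b (l 3) (c (l 84993394439) (a (l 81772167959) (l 85530264343)))))) (a (a (a (b (l 3) (b (l 3) (l 86604006135))) (l 3)) (l 3)) (l 3))))) (l 3))), by decide +kernel⟩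

def k23_pm_102 : ∃ t, chk3 f_pm_102 t 497 491 1 = true :=
  ⟨(a (l 16786936) (b (a (b (a (l 16785872) (b (b (a (c (l 82845910711) (a (b (l 84456522391) (l 78550942423)) (a (l 86067135159) (l 3)))) (l 3)) (a (c (l 78550943431) (c (l 78550942919) (l 78014071463))) (a (a (b (l 86067135143) (l 79087813319)) (c (l 86604006951) (l 86604005959))) (l 3)))) (a (l 16787048) (c (l 79087814215) (a (l 74792845959) (b (b (l 84993393159) (l 79624684023)) (l 16786288))))))) (l 16788304)) (b (a (a (b (l 3) (b (a (a (c (l 87140877831) (l 87140876951)) (l 3)) (l 3)) (c (l 81235297815) (a (b (l 81235296759) (l 16786120)) (b (l 3) (a (l 81772167639) (l 86604005815))))))) (l 3)) (l 3)) (a (b (b (a (c (l 78014072295) (l 76403458551)) (c (l 86067136311) (a (b (l 86067134871) (l 80698425767)) (b (l 3) (l 87677747671))))) (c (l 77477201287) (a (l 16786544) (a (l 16786160) (a (l 79087812951) (b (l 86067134743) (l 79087812935))))))) (l 16785744)) (a (a (c (b (l 94120199831) (l 78014072103)) (b (b (l 3) (b (l 3) (l 86067134775)))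 (c (l 78014071527) (b (l 79624683799) (l 16786152))))) (b (l 3) (b (c (l 86067135735) (b (l 87140876583) (a (l 80161554711) (l 84993392823)))) (l 75329716551)))) (b (l 3) (b (l 3) (c (l 83919652167) (a (b (a (l 82309038295) (l 87140876439)) (l 79087812727)) (b (l 3) (l 86604005495)))))))))) (a (l 16790312) (a (l 16788712) (a (l 16785296) (b (c (l 74255975559) (b (a (l 16786256) (a (l 76403458231) (b (b (l 84993392743) (l 16785864)) (l 16786104)))) (l 16786784))) (l 16788056))))))), by decide +kernel⟩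

def k24_pm_102 : ∃ t, chk3 f_pm_102 t 249 122 1 = true :=
  ⟨(b (l 3) (a (b (l 3) (a (b (l 3) (b (a (a (a (b (a (c (l 80161555559) (b (b (l 3) (a (l 81772167271) (l 86604005447))) (l 77477199911))) (b (l 3) (c (l 84993393655) (c (l 84993393111) (b (l 86604005399) (l 81235296215)))))) (l 16785224)) (a (c (b (l 97878295959) (l 79087813511)) (b (a (a (b (l 3) (l 87677747351)) (l 3)) (l 3)) (b (a (l 79087812567) (b (l 86067134439) (l 79087812631))) (l 16786040)))) (b (l 3) (c (l 82309039671) (a (c (l 82309038503) (b (l 86604005383) (l 16785720))) (b (l 3) (b (l 81772167079) (l 16785800)))))))) (a (a (b (l 3) (b (l 3) (c (l 85530264423) (c (l 86067134887) (c (l 86604005575) (b (l 88214618055) (l 82845908839))))))) (l 3)) (l 3))) (l 3)) (b (a (a (l 16786928) (b (a (c (l 80698426103) (a (l 76403457959) (b (a (l 83919650647) (l 87140876071)) (l 79087812343)))) (a (a (b (l 3) (c (l 86067135207) (l 86067134247))) (l 3)) (l 3))) (a (l 16786304) (c (l 81235297015) (a (a (l 78014070599) (b (l 84456521447)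 (l 16785680))) (b (l 3) (a (l 81772166919) (l 86604005063)))))))) (l 3)) (b (a (c (l 70497878759) (a (l 16787144) (c (l 74255974583) (a (l 16786232) (l 76403457687))))) (a (a (c (l 87677748215) (a (c (l 83919650983) (c (l 85530263415) (b (l 87140875975) (l 81772166791)))) (a (b (l 3) (l 87140875879)) (l 3)))) (l 3)) (l 3))) (a (l 16787224) (a (a (a (l 16785392) (c (l 81772167703) (b (a (l 80698424983) (l 86067134071)) (l 78014070391)))) (a (a (b (l 3) (c (l 85530264119) (l 84456521271))) (l 3)) (l 3))) (l 3))))))) (l 3))) (l 3))), by decide +kernel⟩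

def k25_pm_102 : ∃ t, chk3 f_pm_102 t 248 123 1 = true :=
  ⟨(b (a (l 16806688) (l 16808584)) (l 16813136)), by decide +kernel⟩

def k26_pm_102 : ∃ t, chk3 f_pm_102 t 996 492 1 = true :=
  ⟨(b (a (l 16788728) (a (a (l 16786088) (b (b (b (c (l 80161554951) (a (a (l 16785000) (b (l 81772166743) (l 16785616))) (b (c (l 87677747223) (l 88214617799)) (a (l 80161553959) (l 84993392071))))) (c (l 16786312) (l 74792844839))) (l 16786536)) (l 16787528))) (a (b (b (b (l 3) (c (l 86067135255) (a (c (l 82309037927) (c (l 82845908663) (b (l 86067133895) (l 80161553815)))) (a (b (l 3) (l 86067133879)) (l 3))))) (a (l 16784832) (c (l 78550942055) (a (l 75866586567) (b (b (a (l 82309037463) (l 86067133847)) (l 16785488)) (l 16785720)))))) (l 16787000)) (b (b (l 3) (b (a (b (l 3) (c (l 85530263831) (a (a (l 80161553847) (l 82845908327)) (l 86604004679)))) (l 3)) (c (l 81772167447) (a (c (l 79087812471) (l 78550941047)) (c (l 83919650599) (a (b (l 85530262791) (l 79087811911)) (b (l 3) (l 82845908263))))))))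 (l 16785160))))) (l 16790328)), by decide +kernel⟩

def k27_pm_102 : ∃ t, chk3 f_pm_102 t 997 984 1 = true :=
  ⟨(a (b (a (a (a (a (b (l 3) (b (l 3) (b (l 3) (c (l 87140876503) (l 87140875495))))) (l 3)) (l 3)) (l 3)) (l 3)) (a (a (b (c (b (l 84456522359) (l 78550941847)) (a (b (b (a (l 80698424567) (l 86067133687)) (l 78014070007)) (l 16785656)) (c (b (l 87677747239) (l 79624683143)) (b (a (b (l 3) (l 85530262711)) (l 3)) (c (l 80161553831) (b (l 81235295431) (l 16785296))))))) (l 16786272)) (b (b (l 3) (a (c (l 83919650967) (a (b (l 86604004503) (l 80161553575)) (b (l 3) (a (l 84993391799) (l 86604004471))))) (l 3))) (b (c (l 81235296375) (a (l 76403457191) (c (l 82845908535) (a (b (l 82845908071) (l 16785232)) (b (l 87677746311) (l 81235295287)))))) (l 16785912)))) (b (l 3) (a (a (b (b (l 3) (a (b (l 3) (c (l 85530263527) (l 85530262615))) (l 3))) (c (l 80698425319) (a (l 78014069847) (b (a (l 82309037079) (l 86067133479)) (l 16785296))))) (b (l 3) (b (l 3) (c (l 85530263479) (a (a (l 80698424391)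 (l 84456520759)) (l 86604004311)))))) (l 3))))) (l 3)), by decide +kernel⟩

def k28_pm_102 : ∃ t, chk3 f_pm_102 t 1994 985 1 = true :=
  ⟨(a (l 16785048) (b (b (a (a (l 16786016) (b (c (l 79087812519) (c (l 79087812087) (l 78550940663))) (l 16785912))) (a (b (c (l 84993392551) (a (b (a (l 84993391623) (l 86604004279)) (l 78550940695)) (b (l 3) (a (l 81235295175) (l 84993391559))))) (l 16785000)) (b (a (b (l 3) (c (l 87677747015) (l 87677746119))) (l 3)) (c (l 81772166903) (b (c (l 85530262887) (a (l 81235295095) (l 86604004231))) (l 78014069623)))))) (l 16784968)) (l 16787272))), by decide +kernel⟩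

def k29_pm_102 : ∃ t, chk3 f_pm_102 t 1995 985 1 = true :=
  ⟨(a (b (a (b (a (a (b (l 3) (b (l 3) (c (l 85530263319) (b (l 86604004183) (l 81772165991))))) (l 3)) (l 3)) (c (a (l 78014070599) (b (l 83919650583) (l 16785784))) (b (a (a (l 16784624) (b (b (l 84993391463) (l 79624682375)) (l 16785232))) (a (c (l 85530262807) (b (l 87140875031) (l 80698424119))) (b (l 3) (b (l 87140874999) (l 84456520439))))) (l 74792844087)))) (b (l 3) (b (l 3) (a (c (l 82845908647) (c (l 82845908151) (a (c (l 81772166119) (b (l 83382778567) (l 16784984))) (b (l 88214616855) (l 81772165895))))) (a (b (l 3) (b (l 3) (c (l 85530263143) (l 85530262231)))) (l 3)))))) (b (b (c (l 76403457735) (b (a (l 16785648) (a (l 16785264) (a (l 79087811303) (b (l 86604004007) (l 81772165799))))) (l 73182231383))) (l 16786048)) (l 16786544))) (b (l 3) (a (b (a (b (b (l 3) (c (l 85530263079) (a (b (l 84993391287) (l 79624682183)) (a (l 86604003959) (l 3))))) (c (l 79087812119) (c (l 79087811703) (c (l 79087811415) (b (l 79624682087)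 (l 16785048)))))) (b (l 3) (c (l 85530263143) (a (b (b (l 87677745735) (l 84456520327)) (l 78550940327)) (b (l 3) (b (l 85530262087) (l 80698423895))))))) (l 16785096)) (b (a (a (b (l 3) (a (b (l 3) (c (l 87140875735) (l 87140874775))) (l 3))) (l 3)) (l 3)) (a (b (c (l 81772166583) (c (l 81772166087) (b (a (c (l 82309036823) (l 81772165671)) (l 86604003847)) (l 78550940151)))) (l 16785528)) (b (b (l 3) (a (c (l 85530262919) (a (a (l 81772165703) (l 84993391127)) (l 86067132903))) (l 3))) (c (l 80161553863) (a (l 16784760) (b (b (l 84993391095) (l 80161552903)) (l 16785040)))))))))), by decide +kernel⟩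

def k30_pm_102 : ∃ t, chk3 f_pm_102 t 498 493 1 = true :=
  ⟨(a (l 16794344) (b (a (l 16789800) (l 16785048)) (l 16791408))), by decide +kernel⟩

def k31_pm_102 : ∃ t, chk3 f_pm_102 t 499 492 1 = true :=
  ⟨(a (b (l 3) (a (a (a (a (b (l 3) (b (l 3) (b (l 3) (c (l 83919650183) (a (c (l 83919649687) (b (l 87677745655) (l 80698423735))) (b (l 3) (a (a (l 84456520151) (l 85530261943)) (l 87140874631)))))))) (l 3)) (l 3)) (l 3)) (l 3))) (l 3)), by decide +kernel⟩

def k32_pm_102 : ∃ t, chk3 f_pm_102 t 998 1972 1 = true :=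
  ⟨(a (a (a (b (b (a (c (l 16784928) (l 76403456423)) (c (l 84456521063) (a (b (b (l 86067132807) (l 80698423703)) (l 16784976)) (c (l 86067133303) (b (l 88214616519) (a (l 80161552759) (l 82309036391))))))) (l 16784216)) (l 16786016)) (b (b (a (a (b (l 3) (b (l 3) (c (l 86067133655) (l 85530261863)))) (l 3)) (l 3)) (a (c (l 80698424519) (b (a (l 79624681831) (b (l 86604003623) (a (l 80161552727) (l 84993390919)))) (l 76940327287))) (b (l 3) (c (l 85530262679) (c (l 86067133207) (a (a (l 81235294535) (l 85530261799)) (l 87677745479))))))) (c (l 75329715431) (c (l 75329714919) (b (a (l 16785088) (a (l 16784904) (a (l 78014069015) (b (l 81772165399) (l 16784824))))) (l 16785280)))))) (b (l 3) (a (a (b (c (l 83382779095) (a (b (a (b (l 87140874471) (l 81772165431)) (l 87140874439)) (l 78550939943)) (b (l 3) (b (l 86067132615) (l 81235294423))))) (l 16784608)) (b (a (a (b (l 3) (c (l 87677746247) (l 87677745303))) (l 3)) (l 3)) (c (l 82309037175) (b (c (l 85530262119) (a (a (l 80698423559) (l 82845907111))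 (a (l 86604003495) (l 88214616263)))) (c (l 79624682087) (l 79087810775)))))) (a (a (b (l 3) (b (l 3) (c (l 85530262535) (b (l 87140874343) (a (l 80161552535) (l 84993390727)))))) (l 3)) (l 3))))) (l 3)), by decide +kernel⟩

def k33_pm_102 : ∃ t, chk3 f_pm_102 t 998 1973 1 = true :=
  ⟨(a (a (l 16786744) (a (l 16784640) (b (b (c (a (l 80161553463) (l 84456520855)) (a (c (l 80161552967) (a (l 77477198039) (b (a (l 81235294359) (l 85530261639)) (l 16784728)))) (a (c (l 86067133031) (b (l 87677745287) (a (l 79624681575) (l 81772165207)))) (b (l 3) (a (b (l 87677745191) (l 81772165239)) (l 87140874247)))))) (c (l 16784856) (c (l 76403456535) (l 75329714231)))) (l 16785752)))) (a (a (b (b (l 3) (a (c (l 84456520663) (a (b (c (l 83919649239) (a (l 82309036071) (l 86067132455))) (l 16784784)) (c (l 86604003911) (b (l 88751487143) (b (l 84993390599) (l 79624681479)))))) (a (b (l 3) (b (l 3) (c (l 86067133335) (a (l 84993390599) (l 87677745095))))) (l 3)))) (a (l 16784704) (b (c (l 80698424119) (b (c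 (l 82845907319) (a (l 80161552375) (b (l 87677745095) (l 82845906919)))) (l 76940326903))) (l 16785264)))) (b (l 3) (a (b (b (l 3) (c (l 86067133287) (c (l 86067132823) (a (b (l 86067132359) (l 80698423255)) (a (l 87140874135) (l 3)))))) (c (l 79624682391) (a (l 16784832) (a (l 77477197719) (b (b (l 84993390503) (l 16784640)) (l 16784752)))))) (b (l 3) (c (l 83382778695) (a (b (a (b (l 3) (l 82309035959)) (l 87677745063)) (l 79087810471)) (b (l 3) (c (l 85530261815) (b (l 86604003175) (l 81772164967)))))))))) (a (a (a (b (l 3) (b (l 3) (a (b (l 3) (c (l 87677745863) (l 87677745015))) (l 3)))) (l 3)) (l 3)) (l 3)))), by decide +kernel⟩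

def k34_pm_102 : ∃ t, chk3 f_pm_102 t 998 987 1 = true :=
  ⟨(b (a (l 16787544) (a (c (l 16784888) (b (l 16784392) (l 16786032))) (a (b (a (b (c (l 82309036775) (a (b (a (l 80161552263) (b (l 86067132215) (l 79624681303))) (l 16784720)) (c (l 85530261799) (b (a (l 86604003127) (l 3)) (l 80161552183))))) (l 16785136)) (c (b (l 90898971639) (l 80161553063)) (a (b (b (l 3) (b (l 87140873975) (a (l 80698423143) (l 85530261271)))) (l 76940326743)) (b (l 3) (b (b (a (l 84456519447) (l 87140873943)) (l 80161552151)) (l 16784656)))))) (l 16785488)) (b (a (b (l 3) (c (l 86067133447) (a (c (l 86067132647) (b (c (l 88214616071) (l 88214615911)) (b (l 82309035735) (l 16784456)))) (b (l 3) (b (l 3) (a (l 82309035767) (l 86604002983))))))) (l 3)) (b (c (a (l 78014069351) (l 82309036631)) (a (c (l 78014068887) (l 77477197543)) (a (b (c (l 85530261591) (b (l 86604002983) (l 82309035735))) (l 16784592)) (b (a (l 88214615815) (l 3)) (b (a (l 81772164807) (l 86067132039)) (l 79624681159)))))) (l 16784480))))))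 (l 16785192)), by decide +kernel⟩

def k35_pm_102 : ∃ t, chk3 f_pm_102 t 999 986 1 = true :=
  ⟨(l 3), by decide +kernel⟩

def k36_pm_102 : ∃ t, chk3 f_pm_102 t 3996 987 1 = true :=
  ⟨(b (b (l 3) (a (b (a (a (b (l 3) (c (l 87140874727) (c (l 87677745287) (c (l 87677745063) (l 87677744839))))) (l 3)) (l 3)) (a (c (l 81235294711) (b (a (c (l 81235294279) (c (l 81235294055) (l 80698422951))) (b (l 87677744775) (a (l 80698422951) (l 85530261079)))) (l 76940326519))) (b (l 3) (c (l 86067132887) (c (l 86604003431) (a (b (l 86067131991) (l 81235293799)) (c (l 88214615943) (l 88751486695)))))))) (l 3))) (b (b (a (a (l 16785064) (c (l 79624681991) (c (l 79087810535) (a (l 16784520) (b (b (l 82845906503) (l 16784200)) (l 16784472)))))) (a (a (c (l 84456520119) (c (l 82845906919) (b (b (l 3) (l 86067131943)) (l 79624680935)))) (b (l 3) (c (l 85530261927) (c (l 85530261431) (b (l 87140873719) (l 82309035543)))))) (b (l 3) (b (l 3) (a (c (l 87677745463) (l 88214615559)) (l 3)))))) (a (l 16785264) (c (a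 (l 16785112) (l 82309036455)) (a (l 16783984) (a (b (b (a (l 81772164631) (l 86604002759)) (l 79624680967)) (l 16784528)) (c (l 85530261463) (a (b (l 86604002759) (l 79087810039)) (b (l 3) (l 81235293655))))))))) (l 16784176))), by decide +kernel⟩

def k37_pm_102 : ∃ t, chk3 f_pm_102 t 3997 987 1 = true :=
  ⟨(b (l 3) (a (b (a (a (b (l 3) (b (l 3) (c (l 86067132727) (b (l 87677744599) (a (l 81235293671) (l 85530260887)))))) (l 3)) (l 3)) (a (b (c (l 80161552647) (a (l 76940326359) (b (c (l 84993390407) (b (l 86067131799) (l 81235293607))) (l 16784464)))) (l 16785000)) (b (c (l 87140874871) (a (b (a (a (l 87140873639) (l 3)) (l 3)) (a (l 79624680887) (b (l 84993389927) (l 79087810007)))) (b (l 3) (b (l 3) (c (l 86067132215) (l 86067131767)))))) (b (c (l 79087810775) (c (l 79087810327) (l 79087809943))) (l 16784824))))) (b (l 3) (b (l 3) (a (a (c (l 82309036263) (b (c (l 85530261239) (b (l 87140873527) (a (l 80161551719) (l 85530260823)))) (l 16784072))) (c (l 83919648951) (b (b (l 3) (l 88214615447))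 (b (a (l 81772164439) (l 86604002567)) (l 79624680775))))) (a (b (l 3) (a (b (l 3) (c (l 86067132567) (l 85530260759))) (l 3))) (l 3))))))), by decide +kernel⟩

def k38_pm_102 : ∃ t, chk3 f_pm_102 t 1999 987 1 = true :=
  ⟨(l 3), by decide +kernel⟩

def k39_pm_102 : ∃ t, chk3 f_pm_102 t 498 247 1 = true :=
  ⟨(l 16800240), by decide +kernel⟩

def k40_pm_102 : ∃ t, chk3 f_pm_102 t 998 494 1 = true :=
  ⟨(l 16791144), by decide +kernel⟩

def k41_pm_102 : ∃ t, chk3 f_pm_102 t 999 1976 1 = true :=
  ⟨(b (a (b (a (l 16785984) (a (l 16785192) (c (l 79624681575) (a (l 16784576) (b (c (l 83382777543) (a (b (l 81772164375) (l 16784232)) (a (b (l 87677744375) (l 82309035335)) (l 87677744439)))) (l 77477197127)))))) (l 16784480)) (a (a (a (b (b (l 3) (c (l 86604003559) (a (c (l 83382777511) (b (l 86604002535) (l 81235293415))) (a (c (l 88214615735) (l 88214615303)) (l 3))))) (a (l 16784024) (c (l 80698423383) (b (a (l 79624680695) (b (l 85530260663) (l 79624680727))) (l 16784400))))) (b (l 3) (b (a (b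 (l 3) (c (l 86067132455) (c (l 86067132023) (l 86067131575)))) (l 3)) (c (l 82845906999) (c (l 82845906551) (a (l 80161551543) (b (l 87140873351) (a (l 80698422439) (l 85530260647))))))))) (l 3)) (l 3))) (b (a (l 16786120) (a (a (c (l 16784384) (l 74255971591)) (a (a (b (c (l 82845906919) (b (a (l 82309035159) (l 87140873287)) (l 79624680583))) (l 16784568)) (c (l 85530261511) (b (a (b (l 3) (l 85530260567)) (l 3)) (b (c (l 82309035543) (l 82309035127)) (l 16784248))))) (a (b (l 3) (c (l 86067132327) (b (l 88214615207) (a (l 81772164199) (l 86067131431))))) (l 3)))) (l 3))) (a (l 16786448) (a (b (a (l 16785048) (c (l 80161552343) (a (l 16784432) (a (l 78550938727) (c (l 83919648231) (b (l 86604002343) (l 81772164151))))))) (l 16784128)) (a (a (b (a (a (c (l 87677744983) (c (l 88214615543) (l 88214615159))) (l 3)) (l 3)) (c (l 85530261399) (c (l 85530260967) (a (a (l 80698422359) (b (l 86067131415) (l 80161551431))) (b (l 3) (l 86067131383)))))) (l 3)) (l 3)))))), by decide +kernel⟩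

def k42_pm_102 : ∃ t, chk3 f_pm_102 t 999 1977 1 = true :=
  ⟨(a (l 16787280) (a (l 16784376) (a (b (b (a (a (l 16784608) (b (c (l 80698423159) (c (l 80698422711) (l 80161551351))) (l 16784560))) (a (c (l 82309035911) (b (a (b (l 86604002247) (l 80161551399)) (b (l 3) (l 84993389511))) (l 77477196823))) (b (l 3) (c (l 82845906727) (c (l 82845906295) (b (c (l 86067131543) (l 86067131319)) (l 80698422247))))))) (l 16784080)) (l 16785224)) (b (b (a (a (a (b (l 3) (c (l 87140873975) (c (l 87677744471) (l 87677744119)))) (l 3)) (l 3)) (l 3)) (a (c (l 81772164903) (b (c (l 85530260887) (a (a (l 79087809463) (b (l 85530260407) (l 16784016))) (a (b (l 88214614919) (l 82309034951)) (l 88214615015)))) (c (l 79087809863) (l 78550938583)))) (b (l 3) (c (l 83919648439) (a (c (l 85530260775) (b (l 86604002167) (l 81772163991))) (a (c (l 88214615367) (l 88751485927)) (l 3))))))) (b (a (l 16784672) (a (l 16783824) (c (l 80698422967) (b (b (a (l 81235293063) (l 86067131191)) (l 79087809415)) (l 16784208)))))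 (l 16784864)))))), by decide +kernel⟩

def k43_pm_102 : ∃ t, chk3 f_pm_102 t 999 989 1 = true :=
  ⟨(l 16784280), by decide +kernel⟩

def k44_pm_102 : ∃ t, chk3 f_pm_102 t 499 495 1 = true :=
  ⟨(l 16794344), by decide +kernel⟩

def k45_pm_102 : ∃ t, chk3 f_pm_102 t 125 122 1 = true :=
  ⟨(l 3), by decide +kernel⟩

def k46_pm_102 : ∃ t, chk3 f_pm_102 t 250 246 1 = true :=
  ⟨(l 3), by decide +kernel⟩

def k47_pm_102 : ∃ t, chk3 f_pm_102 t 1000 988 1 = true :=
  ⟨(a (b (l 3) (a (b (l 3) (a (b (a (b (a (b (l 3) (c (l 86067132055) (a (a (l 83919647575) (l 85530260263)) (l 88214614871)))) (l 3)) (c (l 82845906599) (c (l 82845906167) (a (c (l 80698422311) (l 80698422135)) (a (b (l 87140872999) (l 81235293047)) (l 87140873063)))))) (l 3)) (c (a (l 16784704) (c (l 82309036135) (l 81772164775))) (a (l 75329712935) (a (b (c (l 83382777015) (b (a (l 84993389367) (l 87677743863)) (l 80698422055))) (l 16784144)) (a (b (b (l 3) (l 86067131095)) (l 79087809335)) (b (l 3) (b (a (l 82309034743) (l 86067131095))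 (l 16783704)))))))) (a (a (b (l 3) (b (l 3) (b (l 3) (c (l 85530261063) (a (l 82309034743) (l 87140872871)))))) (l 3)) (l 3)))) (l 3))) (l 3)), by decide +kernel⟩

def k48_pm_102 : ∃ t, chk3 f_pm_102 t 1000 1978 1 = true :=
  ⟨(a (a (a (l 16783848) (b (b (b (c (a (l 82309035607) (l 93046454071)) (a (c (l 82309035175) (a (l 79624680183) (b (l 87140872967) (l 82309034727)))) (a (a (c (l 88751486135) (l 88751485783)) (l 3)) (l 3)))) (a (l 16783872) (c (l 86067132007) (a (b (a (l 81235292871) (l 86067130999)) (l 79087809223)) (b (l 3) (c (l 86604002359) (l 86604002007))))))) (c (l 76940326407) (c (l 77477196967) (a (l 16784264) (a (l 16784080) (a (l 16783656) (b (l 81235292823) (l 16784000)))))))) (l 16784968))) (a (b (b (l 3) (a (c (c (l 83919648631) (l 85530261287)) (a (b (a (b (l 87140872871) (l 80698421927)) (b (l 3) (l 85530260055))) (l 78014067351)) (b (l 3) (c (l 83382776823) (b (c (l 86604002119) (l 86604001911)) (l 81235292775)))))) (a (a (b (l 3) (c (l 87677744567) (b (l 3) (l 86604001831))))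 (l 3)) (l 3)))) (a (l 16783920) (b (c (c (l 82845906727) (l 80698422711)) (b (a (a (l 79087809143) (b (a (l 84456518199) (l 86067130903)) (l 16783688))) (b (l 3) (a (a (l 81235292743) (l 84993389079)) (l 87140872775)))) (c (l 79624680471) (l 79087809127)))) (l 16784472)))) (b (l 3) (a (b (b (l 3) (c (l 84993390119) (a (c (l 86067131351) (b (l 87140872791) (a (l 80161550887) (l 83919647255)))) (b (l 3) (c (l 88751485895) (l 88751485559)))))) (b (a (l 16783712) (c (l 82309035335) (b (a (l 81772163591) (l 86604001815)) (l 79624679943)))) (l 16784296))) (b (l 3) (b (a (b (l 3) (c (l 86604002583) (c (l 86604002167) (l 87140872743)))) (l 3)) (c (l 83382777191) (b (c (l 86067131287) (a (l 81772163543) (l 88751485511))) (a (l 16783928) (a (l 81235292647) (l 86067130775))))))))))) (l 3)), by decide +kernel⟩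

def k49_pm_102 : ∃ t, chk3 f_pm_102 t 1000 1979 1 = true :=
  ⟨(a (b (a (l 16785888) (a (l 16785096) (a (l 16784704) (c (l 16784008) (c (l 75329713095) (l 74792841735)))))) (l 16786024)) (a (a (b (b (a (c (a (l 81772164391) (l 83382777063)) (a (b (c (l 83919647623) (b (l 86604001783) (l 81235292631))) (l 16783952)) (b (b (l 3) (c (l 87677743975) (l 88214614519))) (a (l 79624679863) (b (a (l 84456518007) (l 87140872615)) (l 79087808983)))))) (a (b (l 3) (b (l 3) (c (l 85530260663) (c (l 86067131175) (a (l 84993388951) (l 88214614439)))))) (l 3))) (a (l 16784344) (c (l 81235293447) (b (c (l 82845905703) (a (l 79624679815) (b (l 87677743511) (a (l 80698421655) (l 85530259815))))) (l 16783624))))) (l 16784704)) (b (a (b (l 3) (b (l 3) (c (l 83382776967) (a (b (a (l 82309034327) (l 87140872535)) (l 80161550743)) (b (l 3) (c (l 87140872903) (l 87140872551))))))) (l 3)) (b (c (a (l 79087809735) (a (l 82845906103) (l 87677744551))) (a (a (l 16783992) (b (b (c (l 82309034727) (l 82309034343)) (l 16783832))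 (l 16783944))) (a (b (a (b (l 87677743399) (l 81235292455)) (b (l 3) (l 86604001591))) (l 78550937959)) (b (l 3) (c (l 85530260167) (b (l 87140872519) (l 81772163351))))))) (l 16783688)))) (b (l 3) (a (b (a (a (a (b (l 3) (b (l 3) (c (l 87140873223) (l 87140872455)))) (l 3)) (l 3)) (l 3)) (a (c (b (l 82845905959) (l 79624680487)) (a (b (a (l 79624679671) (b (l 85530259639) (l 79624679703))) (l 16783888)) (b (b (l 3) (c (l 86604001895) (l 86604001559))) (c (l 80698421863) (l 80161550535))))) (a (b (l 3) (c (l 85530260455) (a (b (l 86604001495) (l 80161550551)) (b (l 3) (l 84993388679))))) (l 3)))) (l 3))))), by decide +kernel⟩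

def k50_pm_102 : ∃ t, chk3 f_pm_102 t 1001 494 1 = true :=
  ⟨(l 3), by decide +kernel⟩

def k51_pm_102 : ∃ t, chk3 f_pm_102 t 500 1980 1 = true :=
  ⟨(a (a (l 16787016) (a (l 16785424) (b (b (a (c (l 78550938647) (a (l 16784056) (a (l 75866583239) (b (a (c (l 81772163655) (l 81235292327)) (b (l 87677743271) (l 81235292327))) (l 16783824))))) (a (c (b (l 92509582567) (l 83382776791)) (a (b (b (l 3) (c (l 87677743703) (l 87677743287))) (c (l 81772163655) (c (l 81772163415) (c (l 81772163335) (l 81772163239))))) (b (l 3) (a (b (l 88214614215) (l 81772163175)) (b (l 3) (l 87140872311)))))) (l 3))) (a (l 16784472) (c (a (l 78014067767) (a (l 81772164039) (l 85530260695))) (a (c (l 78014067271) (l 76940325015)) (a (b (c (l 85530259975) (b (l 87140872327) (l 81772163175))) (l 16783760)) (b (b (l 3) (c (l 88751485479) (l 88751485143))) (b (a (l 81235292231) (l 86067130439)) (l 79087808583)))))))) (l 16784048)))) (a (a (a (b (a (a (b (l 3) (b (l 3) (b (l 3) (c (l 86067131175) (c (l 86604001703) (l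 86604001367)))))) (l 3)) (l 3)) (a (b (c (a (l 79624680327) (l 82845905815)) (b (a (c (l 80698421671) (l 80698421335)) (a (b (l 87140872215) (l 80698421271)) (b (l 3) (l 85530259479)))) (l 76403454007))) (l 16784208)) (b (b (l 3) (c (l 84456518551) (a (a (c (l 82309034423) (l 81772163095)) (b (l 87677743159) (l 81235292135))) (b (l 3) (c (l 87677743511) (l 88214614103)))))) (a (l 16783360) (c (l 80161551143) (a (l 77477195783) (b (b (l 84993388455) (l 16783280)) (l 16783720)))))))) (b (l 3) (b (l 3) (a (c (b (l 90362098679) (l 82309034727)) (a (b (b (l 3) (a (l 82309033895) (l 87677743111))) (l 79087808487)) (b (l 3) (c (l 84456517959) (b (l 87677743095) (l 82309033943)))))) (a (b (l 3) (b (l 3) (c (l 88214614791) (c (l 88751485335) (l 89288355959))))) (l 3)))))) (l 3)) (l 3))), by decide +kernel⟩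

def k52_pm_102 : ∃ t, chk3 f_pm_102 t 500 1981 1 = true :=
  ⟨(a (l 16782040) (b (a (a (b (a (l 16784408) (a (l 16783528) (c (b (l 82309034663) (l 80161551047)) (a (b (b (a (l 81772162951) (l 86604001175)) (l 79624679383)) (l 16783688)) (b (b (l 3) (c (l 87140872519) (l 87140872103))) (c (l 81235292471) (c (l 81235292247) (l 80698421127)))))))) (l 16783160)) (a (b (a (a (b (l 3) (c (l 86067131063) (a (b (l 87677742951) (l 81235292007)) (b (l 3) (l 86067130215))))) (l 3)) (l 3)) (a (c (l 80161550983) (a (l 76940324759) (b (c (l 83919646967) (b (l 86604001143) (l 81235291991))) (l 16783624)))) (a (c (l 84993389447) (b (b (l 3) (c (l 88214614247) (l 88214613927))) (a (l 79087808311) (b (l 85530259255) (l 79087808343))))) (b (l 3) (b (l 3) (c (l 85530259991) (c (l 86067130519) (l 86604001111)))))))) (l 3))) (l 3)) (a (a (l 16784960) (b (a (c (l 75866583639) (c (l 76940325143) (c (l 75866582999) (a (l 16783768) (l 77477195527))))) (a (c (b (l 87677743927) (l 81772163655)) (a (b (c (l 86067130583)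 (b (l 88214613879) (l 82845904663))) (l 16783240)) (b (a (b (l 3) (l 88751484711)) (l 3)) (b (a (l 81772162759) (l 87140871895)) (l 80161550103))))) (a (a (b (l 3) (b (l 3) (c (l 86067130823) (l 85530259159)))) (l 3)) (l 3)))) (a (l 16784336) (a (l 16783296) (b (c (c (l 84456518519) (l 82309034519)) (a (c (l 81235292279) (c (l 81235292055) (l 81235291847))) (b (a (l 88214613751) (l 3)) (a (l 81235291815) (l 86604000935))))) (c (l 16783656) (l 76940324583))))))) (b (l 3) (b (l 3) (a (a (a (c (l 86604002023) (a (c (l 83919646775) (b (l 87140871879) (l 81772162727))) (b (l 3) (a (l 87677742791) (l 3))))) (l 3)) (l 3)) (l 3))))))), by decide +kernel⟩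

def k53_pm_102 : ∃ t, chk3 f_pm_102 t 1000 991 1 = true :=
  ⟨(l 16789272), by decide +kernel⟩

def k54_pm_102 : ∃ t, chk3 f_pm_102 t 1001 1982 1 = true :=
  ⟨(a (l 16783784) (a (a (b (c (b (a (l 79087808919) (b (l 91972711031) (l 82845905319))) (l 16783504)) (b (a (a (l 16783608) (b (a (l 79624679111) (b (l 86067129975) (l 79624679063))) (l 16783560))) (a (b (b (l 3) (c (l 86604001319) (l 86604000919))) (c (l 80698421223) (l 80161549927))) (b (l 3) (c (l 86604001319) (b (l 88214613735) (l 82845904471)))))) (l 75866582983))) (l 16784432)) (b (b (l 3) (a (c (b (l 85530260071) (l 80161550679)) (a (b (b (a (l 82309033479) (l 87677742711)) (l 80161549911)) (l 16783496)) (b (b (l 3) (c (l 87677743047) (l 87677742743))) (c (l 81772162999) (c (l 81772162775) (l 81235291655)))))) (a (b (l 3) (c (l 84456518007) (a (b (l 88751484487) (l 81772162535)) (b (l 3) (l 87140871703))))) (l 3)))) (a (l 16784040) (b (b (c (l 82309034327) (a (l 78550937127) (c (l 86067130311) (b (l 87677742695) (l 82309033479)))))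 (l 16783376)) (l 16783944))))) (b (l 3) (a (a (c (b (b (l 96804549063) (l 83919647079)) (l 78550937863)) (b (a (a (b (b (l 3) (l 88214613527)) (l 80161549831)) (b (l 3) (b (l 86604000759) (l 79624678871)))) (b (l 3) (b (l 3) (c (l 87140872055) (l 87140871687))))) (c (l 78550937399) (c (l 78550937255) (b (l 79624678887) (l 16783400)))))) (b (l 3) (b (a (c (l 86604001575) (b (a (l 87677742567) (l 3)) (c (l 83382775607) (l 83382775207)))) (l 3)) (c (l 81772163255) (a (l 78014066151) (b (a (l 83382775207) (l 88214613431)) (l 80698420631))))))) (a (a (a (b (l 3) (b (l 3) (b (l 3) (c (l 86604001431) (l 86604000663))))) (l 3)) (l 3)) (l 3)))))), by decide +kernel⟩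

def k55_pm_102 : ∃ t, chk3 f_pm_102 t 1001 1983 1 = true :=
  ⟨(a (l 16786752) (b (a (l 16784832) (a (l 16783384) (b (b (a (a (c (l 81772163175) (c (l 81772162807) (c (l 81772162583) (l 81772162391)))) (b (l 3) (c (l 85530259511) (c (l 86067130055) (l 86067129735))))) (l 3)) (c (a (l 79087808631) (c (l 88751485687) (l 89288356151))) (a (c (l 79087808247) (l 78550936935)) (a (c (l 86067130135) (b (l 88214613463) (l 82309033303))) (a (b (l 3) (l 88751484295)) (l 3)))))) (a (l 16783816) (a (l 16783216) (b (c (l 82845904967) (a (l 80161549639) (b (l 87140871479) (l 80161549591)))) (l 16783576))))))) (l 16783656))), by decide +kernel⟩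

def k56_pm_102 : ∃ t, chk3 f_pm_102 t 501 247 1 = true :=
  ⟨(b (l 3) (a (b (l 3) (b (l 3) (a (a (a (b (b (l 3) (a (a (b (b (l 3) (c (l 86604001303) (c (l 87140871863) (l 87677742471)))) (c (l 81235292199) (c (l 81235291831) (l 80698420503)))) (b (l 3) (c (l 83919646727) (a (b (l 88214613303) (l 81235291431)) (b (l 3) (l 86067129607)))))) (l 3))) (b (c (a (l 16783504) (a (l 81772163079) (b (l 89825226983) (l 82309033975)))) (a (l 76940324279) (a (b (b (c (l 87140871815) (l 87140871463)) (l 80698420439)) (l 16783304)) (b (a (b (l 3) (l 87140871431)) (l 3)) (c (l 82309033527) (c (l 82309033319) (l 82309033191))))))) (l 16783160))) (b (l 3) (b (a (a (b (l 3) (b (l 3) (c (l 86067130311) (c (l 86604000871) (l 86604000471))))) (l 3)) (l 3)) (b (a (c (c (l 83919647031) (l 81772163063)) (a (l 79624678647) (b (a (l 86604000471) (l 3)) (c (l 82845904423) (l 82845904023))))) (a (a (b (l 3) (c (l 88214613943) (l 89288355079))) (l 3)) (l 3))) (a (c (l 16783712) (l 16782976)) (a (c (l 82845904775) (a (l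 80698420359) (b (l 87677742247) (l 81235291303)))) (b (l 3) (a (c (l 86067130151) (l 86067129479)) (l 3))))))))) (l 3)) (l 3)))) (l 3))), by decide +kernel⟩

def k57_pm_102 : ∃ t, chk3 f_pm_102 t 251 123 1 = true :=
  ⟨(l 3), by decide +kernel⟩

def k58_pm_102 : ∃ t, chk3 f_pm_102 t 63 30 1 = true :=
  ⟨(l 3), by decide +kernel⟩

def k59_pm_102 : ∃ t, chk3 f_pm_102 t 30 31 1 = true :=
  ⟨(a (l 17125232) (a (l 17064768) (b (l 16887256) (l 16933112)))), by decide +kernel⟩

def k60_pm_102 : ∃ t, chk3 f_pm_102 t 124 124 1 = true :=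
  ⟨(b (l 16836192) (l 16825968)), by decide +kernel⟩

def k61_pm_102 : ∃ t, chk3 f_pm_102 t 500 248 1 = true :=
  ⟨(b (a (l 16793264) (b (l 16782432) (l 16790336))) (l 16796448)), by decide +kernel⟩

def k62_pm_102 : ∃ t, chk3 f_pm_102 t 2004 992 1 = true :=
  ⟨(b (a (a (l 16784632) (a (l 16784240) (b (b (c (l 78550937463) (c (l 79087808007) (c (l 78550936871) (b (l 80161549431) (l 16783216))))) (l 16783808)) (l 16784304)))) (a (b (b (b (a (a (c (l 83919646535) (b (a (l 88751484071) (l 3)) (c (l 85530258871) (l 84456516743)))) (l 3)) (l 3)) (c (a (l 82309033847) (l 97878290343)) (a (a (l 79087807671) (b (c (l 87140871639) (l 87677742247)) (l 81235291239))) (a (a (b (l 3) (l 88214613111)) (l 3)) (l 3))))) (a (l 16783224) (a (b (c (l 82309033783) (a (l 79624678455) (b (l 86604000343) (l 79624678423)))) (l 16783440)) (b (b (l 3) (c (l 86604001031) (c (l 87140871591) (l 87140871287)))) (c (l 80698420999) (l 79624678455)))))) (l 16782600)) (b (a (a (b (l 3) (b (l 3) (c (l 83919646455) (a (c (l 85530258791)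 (l 85530258487)) (b (l 3) (l 85530258423)))))) (l 3)) (l 3)) (b (a (b (c (l 81772162855) (a (l 16782904) (b (a (l 82845903831) (l 88214613015)) (l 80161549271)))) (l 16783440)) (a (b (a (b (l 3) (c (l 86604000951) (l 86604000247))) (l 3)) (c (l 81772162791) (c (l 81772162359) (l 81235291095)))) (b (l 3) (c (l 84993388327) (b (a (l 89288354839) (l 3)) (c (l 86604000599) (l 86067129287))))))) (c (l 76403453767) (c (l 76403453319) (c (l 76940324087) (l 76403452983)))))))) (l 16782536)), by decide +kernel⟩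

def k63_pm_102 : ∃ t, chk3 f_pm_102 t 4010 992 1 = true :=
  ⟨(a (b (b (l 3) (b (l 3) (a (b (c (a (l 86067130103) (l 92509581175)) (a (b (a (l 86067129255) (l 3)) (l 81772161975)) (b (l 3) (a (l 88751483879) (l 3))))) (a (l 16782984) (c (l 82309033575) (a (l 80161549191) (b (l 87140871063) (l 80161549223)))))) (a (b (l 3) (b (l 3) (c (l 87140871831) (c (l 87677742391) (l 87677742055))))) (l 3))))) (b (b (a (l 16783488) (c (a (l 79624679015) (c (l 81772163015) (l 81235291735))) (a (c (l 79624678615) (l 79087807383)) (b (b (a (l 88214612887) (l 3)) (c (l 83919645863) (l 83919645559))) (l 78550936503))))) (l 16783680)) (l 16784168))) (b (l 3) (b (b (a (b (l 3) (a (c (l 84993388103) (b (a (l 84993387303) (l 88751483799)) (l 80698420071))) (a (b (l 3) (c (l 87140871671) (l 87140870983))) (l 3)))) (l 3)) (a (a (l 16783032) (b (c (l 81772162583) (c (l 81772162167) (l 81772161847))) (l 16783312))) (a (b (b (l 3) (c (l 86067129831) (c (l 86604000407) (l 86604000103)))) (c (l 80161549815) (l 79624678199)))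 (b (l 3) (c (l 83382775255) (b (a (l 86604000023) (l 3)) (l 82309032695))))))) (a (l 16783776) (c (l 16783064) (l 16782984)))))), by decide +kernel⟩

def k64_pm_102 : ∃ t, chk3 f_pm_102 t 4011 992 1 = true :=
  ⟨(b (l 3) (a (b (a (a (b (l 3) (b (l 3) (a (b (l 3) (c (l 88214613479) (l 89288354615))) (l 3)))) (l 3)) (l 3)) (a (b (b (a (c (l 82845904295) (a (l 80698419991) (b (l 87677741831) (l 80698419943)))) (a (b (l 3) (c (l 86067129751) (l 86067129063))) (l 3))) (c (l 80161549735) (c (l 79624678391) (l 79624678087)))) (l 16783416)) (a (b (b (l 3) (c (l 84993388055) (b (a (l 88751483655) (l 3)) (c (l 86067129415) (l 84456516295))))) (c (l 78014066087) (l 78014065543))) (b (l 3) (b (c (l 84456517079) (b (a (l 85530258103) (l 89825225527)) (l 81235290791))) (l 16783176)))))) (b (l 3) (b (l 3) (a (a (b (b (l 3) (a (c (l 87677742471) (l 88214612695)) (l 3))) (c (l 82309033303) (c (l 82845903879) (c (l 82845903671) (l 82309032567))))) (b (l 3) (b (l 3) (c (l 86604000631) (c (l 87140871207) (l 87140870887))))))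 (l 3)))))), by decide +kernel⟩

def k65_pm_102 : ∃ t, chk3 f_pm_102 t 1002 993 1 = true :=
  ⟨(a (l 16787144) (a (l 16785560) (a (l 16783456) (b (b (b (c (a (l 78014066007) (b (a (l 83382775063) (l 3)) (l 81772162391))) (a (c (l 78550936567) (l 78014065351)) (a (b (b (a (l 87140870791) (l 3)) (c (l 83382774679) (l 82845903399))) (l 16782760)) (b (l 3) (a (l 81235290711) (b (l 88214612615) (l 81235290663))))))) (l 16782760)) (l 16783904)) (l 16784896))))), by decide +kernel⟩

def k66_pm_102 : ∃ t, chk3 f_pm_102 t 2006 992 1 = true :=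
  ⟨(l 3), by decide +kernel⟩

def k67_pm_102 : ∃ t, chk3 f_pm_102 t 4012 993 1 = true :=
  ⟨(b (a (b (b (a (a (b (l 3) (b (l 3) (a (c (l 86604000471) (l 86603999799)) (l 3)))) (l 3)) (l 3)) (b (a (c (c (l 82845904503) (l 85530258871)) (a (c (l 81772161895) (l 81235290679)) (b (c (l 90898967607) (l 93046450855)) (c (l 86604000135) (l 86603999847))))) (l 3)) (c (a (l 78550936775) (a (l 82309033159) (l 94120193415))) (a (l 78550936231) (a (b (a (l 86067128839) (l 3)) (l 81772161559)) (b (l 3) (c (l 89825225767) (l 91972709015)))))))) (a (l 16783512) (a (l 16782912) (b (b (c (l 82309033111) (c (l 82845903687) (c (l 82845903527) (l 82845903383)))) (l 16783112)) (l 16783352))))) (b (l 3) (b (a (a (b (b (l 3) (c (l 87140871383) (a (l 85530257879) (l 86603999831)))) (c (l 81235291319) (l 80161548807))) (b (l 3) (c (l 84993387767) (b (a (l 88214612471) (l 3)) (c (l 83919645415) (l 83919645111)))))) (l 3)) (c (a (l 16783024) (a (l 80161549479) (b (l 92509580567) (l 81772162119)))) (a (l 77477194503)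 (b (a (a (l 81772161479) (b (l 89288354343) (l 82309032343))) (b (l 3) (a (l 87677741527) (l 3)))) (c (l 80698419911) (c (l 80698419751) (l 80698419607))))))))) (c (l 16783000) (l 16782592))), by decide +kernel⟩

def k68_pm_102 : ∃ t, chk3 f_pm_102 t 4013 993 1 = true :=
  ⟨(b (a (a (a (b (l 3) (b (l 3) (b (l 3) (b (l 3) (c (l 86067129431) (c (l 87140870935) (l 87140870615))))))) (l 3)) (l 3)) (l 3)) (b (b (a (a (a (c (l 78550936599) (l 78550936071)) (b (c (l 83382774791) (b (a (l 86603999607) (l 3)) (l 82309032327))) (l 16782656))) (c (b (l 101636385895) (a (l 82845903815) (l 91435838647))) (a (b (a (b (l 3) (l 86067128791)) (l 3)) (a (l 80698419575) (b (l 88214612343) (l 81235290487)))) (a (b (l 3) (b (l 3) (l 86067128615))) (l 3))))) (l 3)) (b (a (a (l 16783208) (c (l 80161549303) (c (l 79624677927) (l 80161548631)))) (a (a (c (l 86604000439) (b (c (l 90898967319) (l 93046450583)) (c (l 86067128951) (l 86067128631)))) (l 3)) (l 3))) (a (l 16783240) (a (c (c (l 81772162391) (l 80698420135))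 (a (l 79087806855) (b (a (l 85530257655) (l 87677741511)) (l 81772161335)))) (a (b (l 3) (c (l 87140871303) (c (l 89825225447) (l 91972708743)))) (l 3)))))) (a (l 16783640) (a (l 16782760) (b (b (a (c (l 82309032823) (c (l 82309032503) (l 82309032183))) (b (l 3) (c (l 86604000199) (a (l 84993386711) (l 86067128647))))) (c (l 79624678279) (l 79624677751))) (l 16783152)))))), by decide +kernel⟩

def k69_pm_102 : ∃ t, chk3 f_pm_102 t 2007 496 1 = true :=
  ⟨(b (l 3) (b (l 3) (b (l 3) (a (a (b (a (a (b (l 3) (c (l 84456516583) (b (a (l 87677741303) (l 3)) (l 82845903047)))) (l 3)) (l 3)) (a (b (c (l 80161549175) (a (l 16782528) (b (a (l 83382773927) (l 85530257607)) (l 80698419447)))) (l 16782976)) (a (b (b (l 3) (a (c (l 86604000087) (l 87140870343)) (l 3))) (c (l 81772161847) (c (l 81772161479) (l 81235290231)))) (b (l 3) (c (l 88214612983) (b (c (l 93046450807) (l 95193934039)) (c (l 86603999719) (l 83919644839)))))))) (l 3)) (l 3))))), by decide +kernel⟩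

def k70_pm_102 : ∃ t, chk3 f_pm_102 t 1002 497 1 = true :=
  ⟨(l 16790064), by decide +kernel⟩

def k71_pm_102 : ∃ t, chk3 f_pm_102 t 1003 497 1 = true :=
  ⟨(b (a (l 16782936) (a (b (b (a (a (l 16783384) (b (c (l 78014065543) (l 78014065031)) (l 16783280))) (b (a (c (b (a (l 83382774503) (l 95730805655)) (l 79624678183)) (a (b (b (c (l 86603999831) (l 88214612215)) (l 82309032103)) (l 16782664)) (b (a (b (l 3) (l 86067128551)) (l 3)) (a (l 80698419351) (c (l 85530257815) (l 83919644807)))))) (a (b (l 3) (b (l 3) (c (l 84456516311) (c (l 85530257879) (l 87140870343))))) (l 3))) (b (a (l 16782944) (c (c (l 83382774935) (l 83919645591)) (a (l 80698419351) (b (c (l 90898967047) (l 93046450343)) (l 83919644775))))) (c (l 16782840) (l 77477194151))))) (l 16782336)) (l 16784632)) (b (a (b (a (b (l 3) (b (l 3) (c (a (l 81772161687) (l 94120192839)) (a (b (c (l 84456515895) (l 86067128471)) (l 81235290199)) (b (l 3) (c (l 89825225175) (l 91972708455))))))) (l 3)) (b (a (a (l 16782568) (b (b (c (l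 83382774391) (l 83382773815)) (l 78550935863)) (l 16782848))) (b (a (b (l 3) (c (l 86603999927) (c (l 84456515847) (l 84993386567)))) (l 3)) (c (l 82309032759) (a (l 80161548375) (b (c (l 88751483303) (l 90362095655)) (l 82845902871)))))) (c (l 16782560) (l 16782504)))) (b (l 3) (a (a (b (b (l 3) (c (l 97341418231) (c (l 100025772359) (l 101636384759)))) (c (l 79624678023) (b (a (l 81772161079) (c (l 84993386807) (l 83919644631))) (l 16782600)))) (b (l 3) (b (b (l 3) (c (l 85530258039) (c (l 87677741431) (l 89288353815)))) (c (l 81235290647) (l 81772161079))))) (a (b (l 3) (b (l 3) (c (l 88214612711) (b (c (l 93046450487) (l 95193933767)) (c (l 84993386711) (l 83919644583)))))) (l 3))))) (b (b (a (l 16783344) (a (l 16782960) (a (c (l 78014065191) (l 79087806631)) (b (c (l 82845903319) (b (c (l 86603999559) (l 88214611927)) (l 82309031879))) (l 16782720))))) (l 16783416)) (l 16783904))))) (l 16787144)), by decide +kernel⟩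

def k72_pm_102 : ∃ t, chk3 f_pm_102 t 250 249 1 = true :=
  ⟨(a (l 16804432) (l 16816856)), by decide +kernel⟩

def k73_pm_102 : ∃ t, chk3 f_pm_102 t 502 496 1 = true :=
  ⟨(l 3), by decide +kernel⟩

def k74_pm_102 : ∃ t, chk3 f_pm_102 t 1004 994 1 = true :=
  ⟨(b (l 3) (a (a (a (b (b (a (a (b (a (a (c (l 88751483591) (l 92509579207)) (l 3)) (l 3)) (c (l 82309032359) (b (l 83919644551) (l 80161548279)))) (b (l 3) (b (l 3) (c (l 84456516039) (c (l 85530257639) (l 87140870055)))))) (l 3)) (b (a (c (l 79624677847) (l 79624677383)) (a (c (l 86603999847) (b (c (l 90898966759) (l 93046450055)) (l 83382773591))) (l 3))) (a (l 16782840) (c (l 80161548711) (a (l 16782304) (a (l 81772160887) (a (l 85530257207) (l 85530257335)))))))) (c (l 16782656) (l 16782272))) (b (a (a (a (b (l 3) (b (l 3) (b (l 3) (b (l 3) (l 85530257367))))) (l 3)) (l 3)) (l 3)) (b (b (a (c (a (l 81772161367) (l 89825225255)) (a (c (l 82309031975) (l 81772160791)) (b (l 96267675447) (c (l 83919644663) (l 84993386311))))) (l 3))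 (c (a (l 78550935911) (a (l 84993387015) (l 97878288855))) (a (l 79624677319) (a (b (c (l 88751483031) (l 90362095383)) (l 82845902615)) (b (l 3) (l 95193933559)))))) (a (l 16782888) (a (l 16782368) (b (c (l 80698419511) (b (l 83919644487) (l 80698418999))) (l 16782648))))))) (b (l 3) (b (l 3) (a (a (a (b (b (l 3) (c (l 84993386839) (c (l 87677741159) (l 89288353511)))) (c (l 81235290375) (l 81235289895))) (b (l 3) (c (l 88214612391) (b (l 94120191719) (l 83919644487))))) (l 3)) (l 3))))) (l 3))), by decide +kernel⟩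

def k75_pm_102 : ∃ t, chk3 f_pm_102 t 1004 1990 1 = true :=
  ⟨(a (a (l 16782528) (a (b (b (c (a (l 16782552) (a (l 80161548615) (b (l 96267676007) (l 81772161175)))) (a (l 78550935511) (a (b (a (l 82309031607) (c (l 86603999303) (l 87677740775))) (l 16782408)) (b (a (c (l 94120192007) (l 95730804391)) (l 3)) (c (l 82309031783) (l 81235289815)))))) (l 16782888)) (l 16783384)) (b (a (a (b (b (l 3) (b (l 3) (c (l 83919644855) (c (l 85530257431) (l 87140869783))))) (c (l 79624677639) (c (l 80161548247) (l 79624677063)))) (b (l 3) (b (c (l 86603999559) (b (c (l 90898966471) (l 93046449783)) (l 83382773383))) (l 16782272)))) (b (l 3) (a (b (c (l 99488901383) (c (l 102173255559) (l 103783867943))) (c (l 81235290231) (b (l 85530257095) (l 81235289719)))) (b (l 3) (a (c (l 89825225031) (c (l 91972708247) (l 93583320663))) (l 3)))))) (a (l 16782984) (b (c (l 78550935895) (c (l 79087806519) (c (l 78550935335) (b (l 79624676983) (l 16782328))))) (l 16782888)))))) (a (b (l 3) (a (a (b (b (a (c (l 89825224935)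 (b (l 96267675175) (l 84456515223))) (l 3)) (c (l 82309032199) (a (l 80161547943) (b (c (l 88751482759) (l 90362095143)) (l 82309031479))))) (l 16782304)) (a (b (b (l 3) (b (l 3) (c (l 91972708551) (l 95193933335)))) (b (b (c (l 84456515639) (l 83919644263)) (l 80161548055)) (l 16782520))) (b (l 3) (b (b (l 3) (c (l 85530257559) (c (l 87677740871) (l 89288353255)))) (c (l 80698419191) (l 81772160631)))))) (a (a (b (l 3) (b (l 3) (c (l 88214612103) (b (l 94120191447) (l 82309031495))))) (l 3)) (l 3)))) (l 3))), by decide +kernel⟩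

def k76_pm_102 : ∃ t, chk3 f_pm_102 t 1004 1991 1 = true :=
  ⟨(a (l 16784632) (a (a (l 16782656) (b (b (a (b (c (l 80698419271) (a (l 16782080) (b (l 87677740567) (l 81772160487)))) (l 16782520)) (a (b (b (l 3) (c (l 89825224807) (l 93046449655))) (c (l 82309031895) (l 81235289687))) (b (l 3) (b (l 3) (c (l 83919644583) (l 86603998695)))))) (a (l 16782760) (b (c (l 80161548343) (l 80161547863)) (l 16782584)))) (l 16783120))) (a (a (b (b (l 3) (a (b (c (l 86603999287) (b (l 91972707735) (l 83382773159))) (l 16782224)) (b (c (l 100025771991) (c (l 102173255287) (l 103783867671))) (c (l 81235289991) (c (l 82309031575) (l 82845902231)))))) (l 16782072)) (b (b (l 3) (a (b (l 3) (b (l 3) (c (l 87677741063) (l 90898965911)))) (l 3))) (b (b (c (a (l 81235289911) (l 89825224663)) (a (l 80698418711) (b (l 96804545863) (l 84456514999)))) (c (l 79624677351) (l 79624676887))) (l 16782624)))) (b (l 3) (b (a (b (l 3) (c (a (l 83919644647) (l 98415159143)) (a (b (l 89825224039) (l 82309031255)) (a (l 97341416711)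 (l 3))))) (l 3)) (a (b (c (l 80161548215) (c (l 80161547879) (l 80698418567))) (l 16782448)) (a (b (b (l 3) (c (l 86067128247) (l 88751482167))) (c (l 80698418919) (l 81235289463))) (b (l 3) (c (l 88214611831) (b (l 94657062183) (l 82309031271))))))))))), by decide +kernel⟩

def k77_pm_102 : ∃ t, chk3 f_pm_102 t 1005 497 1 = true :=
  ⟨(l 3), by decide +kernel⟩

def k78_pm_102 : ∃ t, chk3 f_pm_102 t 503 248 1 = true :=
  ⟨(l 3), by decide +kernel⟩

def k79_pm_102 : ∃ t, chk3 f_pm_102 t 1004 498 1 = true :=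
  ⟨(b (b (b (a (l 16785624) (a (l 16784040) (a (l 16783248) (c (l 74792839495) (c (l 73182226215) (c (l 16782176) (l 16782088))))))) (l 16782600)) (l 16786216)) (l 16788192)), by decide +kernel⟩

def k80_pm_102 : ∃ t, chk3 f_pm_102 t 1005 1992 1 = true :=
  ⟨(a (a (a (b (a (b (a (b (c (l 81772160791) (b (l 87677740343) (l 81772160279))) (l 16782320)) (b (b (l 3) (c (l 90362095447) (l 93583320311))) (c (l 81772160711) (l 81235289479)))) (l 16782496)) (a (b (b (l 3) (c (l 91435837207) (b (l 98952029319) (l 87140869383)))) (c (l 79624677191) (l 79624676887))) (b (l 3) (b (c (l 87140869927) (b (l 91972707511) (l 81772160279))) (l 16781928))))) (l 16782856)) (b (b (l 3) (a (a (b (c (l 100025771703) (c (l 102710125927) (l 104320738311))) (c (l 81235289767) (c (l 82309031319) (l 83382772919)))) (b (l 3) (b (l 3) (c (l 88214611703) (l 91435836599))))) (l 3))) (b (a (c (l 79087806359) (c (l 79087805991) (c (l 78014063863) (l 77477192791)))) (b (a (c (l 90362095303) (b (l 96804545607) (l 83382772935)))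 (l 3)) (c (l 82309031655) (a (l 80698418423) (b (l 90362094727) (l 82845901991)))))) (c (l 16782672) (l 16782320))))) (b (l 3) (a (b (a (a (b (l 3) (a (c (l 94657062535) (l 97878287399)) (l 3))) (l 3)) (l 3)) (b (a (a (c (l 81772160679) (l 81772160199)) (b (l 3) (c (l 86067127927) (l 89288352855)))) (l 3)) (c (a (l 80161547863) (a (l 88751482471) (l 102173255095))) (a (l 79624676679) (a (b (l 94657061927) (l 82309031031)) (l 105394480039)))))) (l 3)))) (l 3)), by decide +kernel⟩

def k81_pm_102 : ∃ t, chk3 f_pm_102 t 1005 1993 1 = true :=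
  ⟨(a (a (l 16783576) (a (b (b (b (a (l 16782352) (a (l 16782000) (c (l 82309031479) (a (l 82845901911) (l 87677740103))))) (l 16782056)) (l 16782624)) (l 16783120)) (b (b (a (a (b (b (l 3) (c (l 90362095127) (l 93583320087))) (c (l 81772160439) (l 81235289255))) (b (l 3) (b (c (l 96267675143) (l 99488900023)) (c (l 84456515031) (l 87140869159))))) (l 3)) (a (c (l 78550935303) (c (l 78550934951) (l 77477192775))) (a (b (c (l 87140869655) (b (l 92509578215) (l 81772160071))) (l 16782128)) (b (c (l 100562642327) (c (l 102710125639) (l 104320738039))) (c (l 81772160487) (l 82845901879)))))) (l 16781936)))) (b (b (l 3) (b (l 3) (b (l 3) (a (a (a (a (c (l 88214611383) (l 91435836343)) (l 3)) (l 3)) (l 3)) (l 3))))) (a (a (a (b (b (c (a (l 81772160407) (l 90362095031)) (a (l 81235289191) (a (l 87677739991) (l 95730803575)))) (c (l 16781968) (l 16781872))) (l 16782368)) (b (b (l 3) (a (c (l 84456514967) (a (l 81772159991) (l 89825223591))) (c (l 98952029527) (c (l 101099512823) (l 102710125255)))))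 (c (l 79624676951) (c (l 79624676599) (c (l 78550934439) (l 79624676263)))))) (b (l 3) (a (a (b (b (l 3) (c (l 86603998567) (l 89825223559))) (c (l 80698418471) (l 81772159943))) (b (l 3) (c (l 88751482199) (b (l 95193932615) (l 82845901751))))) (b (l 3) (a (c (l 102710125719) (l 105931350759)) (l 3)))))) (l 3)))), by decide +kernel⟩

def k82_pm_102 : ∃ t, chk3 f_pm_102 t 1005 997 1 = true :=
  ⟨(a (l 16785024) (a (b (b (b (a (l 16782560) (b (a (l 16781928) (a (c (l 82845902119) (c (l 83919643639) (l 85530256183))) (a (c (l 93046449431) (l 96267674407)) (l 3)))) (a (l 16782256) (c (l 80698418631) (l 80698418199))))) (l 16781968)) (l 16783120)) (l 16784104)) (b (a (b (b (a (a (b (l 3) (a (c (l 87140869399) (l 89825223495)) (c (l 95193933047) (l 98415158023)))) (l 3)) (l 3)) (a (a (c (l 79624676647) (l 79624676423)) (b (c (l 87677740295) (a (l 82845901671) (l 91972707079))) (l 16782000))) (a (b (c (l 101099512967) (c (l 103246996279) (l 104857608727))) (c (l 81772160215) (l 83382772583))) (b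 (l 3) (b (l 3) (c (l 88751482071) (l 91972707031))))))) (a (l 16782464) (a (l 16782272) (b (c (l 80161547671) (l 80698418167)) (l 16782304))))) (b (l 3) (b (a (a (b (a (c (l 85530256567) (l 88214610695)) (c (l 93046449287) (l 96267674279))) (l 80698418151)) (b (l 3) (c (l 84456514695) (a (l 82309030679) (l 90362094295))))) (a (b (l 3) (c (l 99488900183) (c (l 101636383463) (l 103246995943)))) (l 3))) (a (l 16781776) (b (a (c (l 81772160215) (l 82309030679)) (a (c (l 89288352855) (l 91972706967)) (c (l 97878287447) (l 100562641447)))) (c (l 80161547415) (l 80698418087))))))) (l 16781744)))), by decide +kernel⟩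

def k83_pm_102 : ∃ t, chk3 f_pm_102 t 502 499 1 = true :=
  ⟨(a (l 16792152) (l 16793168)), by decide +kernel⟩

def k84_pm_102 : ∃ t, chk3 f_pm_102 t 503 498 1 = true :=
  ⟨(a (b (l 3) (b (b (l 3) (b (l 3) (b (l 3) (a (a (a (a (c (a (l 89288352807) (l 103246996359)) (a (a (l 84993385143) (l 94120190551)) (l 106468221399))) (l 3)) (l 3)) (l 3)) (l 3))))) (a (a (a (b (b (a (b (a (l 16781736) (b (a (l 83919643399) (l 90362094375)) (l 81772159831))) (l 16781992)) (a (b (a (b (l 3) (l 86067127079)) (l 3)) (c (l 81772160151) (l 81772159703))) (b (l 3) (a (c (l 87677740039) (l 90362094167)) (c (l 95730803687) (l 98952028695)))))) (c (l 77477193127) (c (l 75866579879) (l 74255966743)))) (l 16782592)) (a (b (b (l 3) (a (b (c (l 86603998167) (a (l 82845901447) (l 92509577767))) (l 16781864)) (b (c (l 101636383607) (c (l 103783866919) (l 105394479415))) (c (l 81772159991) (l 83919643271))))) (l 16781552)) (b (a (b (l 3) (b (l 3) (b (l 3) (c (l 89288352679) (l 92509577735))))) (l 3)) (b (a (c (l 80161547415)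 (l 80698417959)) (b (a (c (l 84456514487) (l 88751481383)) (c (l 93583319927) (l 96804544967))) (l 80698417975))) (l 16782104))))) (b (l 3) (a (b (b (l 3) (a (a (c (l 84993385383) (c (l 86603997847) (l 87677739399))) (c (l 100025770775) (c (l 102173254103) (l 103783866631)))) (l 3))) (a (c (l 80161547415) (c (l 79087805095) (l 79624675847))) (a (b (a (c (l 89825223495) (l 92509577639)) (c (l 98415158023) (l 101636383079))) (c (l 81772159879) (l 81235288647))) (b (l 3) (c (l 88751481671) (a (l 85530255831) (l 95193932183))))))) (b (l 3) (a (b (l 3) (a (c (l 103783867063) (l 107005092135)) (l 3))) (l 3)))))) (l 3)))) (l 3)), by decide +kernel⟩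

def k85_pm_102 : ∃ t, chk3 f_pm_102 t 2012 998 1 = true :=
  ⟨(a (l 16781352) (b (b (a (c (l 16781712) (c (l 16781464) (l 16781304))) (b (b (a (a (c (l 83382772567) (l 86067126743)) (a (b (l 3) (l 86603997767)) (l 3))) (l 3)) (a (c (l 81235289095) (l 81235288647)) (a (a (c (l 88214610679) (l 90898964855)) (c (l 96267674327) (l 99488899367))) (l 3)))) (b (a (l 16781896) (a (l 81235288695) (c (l 87140868887) (a (l 83382772119) (l 93046448439))))) (l 16781680)))) (l 16782600)) (l 16783584))), by decide +kernel⟩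

def k86_pm_102 : ∃ t, chk3 f_pm_102 t 4026 998 1 = true :=
  ⟨(b (a (b (b (l 3) (a (a (b (c (l 102173254231) (l 105394479303)) (c (l 82309030679) (l 84456513927))) (b (l 3) (b (l 3) (c (l 89825223319) (l 93046448423))))) (l 3))) (b (a (c (l 80161547271) (c (l 78550934055) (l 78014062823))) (a (b (a (c (l 85530256119) (l 87677739303)) (c (l 94657061495) (l 97341415655))) (l 16781592)) (b (l 3) (c (l 86067127031) (c (l 87140868503) (l 88214610135)))))) (l 16781648))) (b (l 3) (a (a (b (b (l 3) (c (l 100562641431) (c (l 102710124775) (l 104320737319)))) (c (l 81235288919) (l 81772159399))) (b (l 3) (b (a (c (l 90362094183) (l 93583319255)) (c (l 98952028679) (l 102173253735))) (c (l 81772159655) (l 81235288439))))) (b (l 3) (b (l 3) (c (a (l 90362094215) (l 104857608615)) (a (a (l 85530255575) (l 95730802839)) (l 108078833687)))))))) (b (b (b (a (l 16782224) (a (l 16781832) (a (l 16781640) (b (a (l 82845901207) (l 91972706631)) (l 82309030295))))) (l 16781552)) (l 16782368)) (l 16782864))), by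 decide +kernel⟩

def k87_pm_102 : ∃ t, chk3 f_pm_102 t 4027 998 1 = true :=
  ⟨(b (l 3) (a (b (b (a (a (b (a (b (l 3) (l 87677739319)) (l 3)) (c (l 81772159655) (l 82309030183))) (b (l 3) (a (c (l 88751481367) (l 91972706439)) (c (l 96804544951) (l 100025770071))))) (l 3)) (a (c (l 79624676215) (l 78550933847)) (a (b (c (l 88751481351) (a (l 83919642775) (l 93583319127))) (l 16781608)) (b (c (l 103246995831) (l 105931349991)) (c (l 82845901399) (l 84993384599)))))) (l 16781424)) (a (b (a (b (l 3) (b (l 3) (b (l 3) (a (l 83919642887) (l 96804544695))))) (l 3)) (b (a (c (l 80698417879) (l 80698417415)) (b (a (c (l 86067126759) (l 89825222711)) (c (l 95193932231) (l 98415157239))) (l 16781464))) (l 16781848))) (b (l 3) (b (b (l 3) (a (c (l 86603997671) (c (l 87677739191) (l 88751480807))) (a (b (l 3) (l 90898964631)) (l 3)))) (c (l 80161546871) (c (l 80161546567) (l 80161546263)))))))), by decide +kernel⟩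

def k88_pm_102 : ∃ t, chk3 f_pm_102 t 1006 999 1 = true :=
  ⟨(a (l 16786080) (c (l 16781528) (l 16781184))), by decide +kernel⟩

def k89_pm_102 : ∃ t, chk3 f_pm_102 t 1007 998 1 = true :=
  ⟨(b (l 3) (a (a (b (l 3) (a (b (l 3) (a (a (b (a (c (l 91435835751) (l 94120189927)) (c (l 99488899351) (l 103246995367))) (c (l 81772159383) (l 81772159143))) (b (l 3) (c (l 90898964855) (a (l 86603997191) (l 96267673543))))) (b (l 3) (a (c (l 105931350199) (l 108615704375)) (l 3))))) (l 3))) (l 3)) (l 3))), by decide +kernel⟩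

def k90_pm_102 : ∃ t, chk3 f_pm_102 t 1007 1998 1 = true :=
  ⟨(a (a (a (b (b (b (a (l 16781408) (a (c (l 84993384855) (l 87140868103)) (a (b (l 3) (l 88751480935)) (l 3)))) (c (l 79087804999) (c (l 78014062711) (l 78014062487)))) (l 16781848)) (l 16782336)) (b (a (a (b (b (l 3) (a (c (l 89825222967) (l 92509577095)) (c (l 97878286551) (l 101099511639)))) (c (l 16781600) (l 79624675415))) (b (l 3) (b (c (l 88214610215) (a (l 84993384423) (l 94657060711))) (l 16781480)))) (b (l 3) (a (b (c (l 103783866503) (l 107005091607)) (c (l 83382772039) (l 85530255287))) (b (l 3) (b (l 3) (a (l 86067126295) (l 97878286279))))))) (a (l 16781944) (c (c (l 77477192327) (l 75866579207)) (c (l 75329708055) (l 73719095015)))))) (b (l 3) (a (b (a (a (b (a (c (l 86603997415) (l 89288351623)) (c (l 96267673751) (l 98952027911))) (l 16781336)) (b (c (l 108615704615) (l 111836929719)) (c (l 87140868359) (c (l 88214609863) (l 89825222423))))) (a (b (l 3) (a (b (l 3) (l 91972706231)) (l 3))) (l 3))) (a (l 16781592)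 (b (a (c (l 82309030151) (l 83919642487)) (a (c (l 91972706439) (l 94657060583)) (c (l 100562640967) (l 103783866023)))) (c (l 80698417511) (l 80698417063))))) (b (l 3) (b (l 3) (a (a (a (b (l 90898964375) (l 16781296)) (b (l 3) (l 85530255271))) (c (l 107005091831) (l 109689445975))) (l 3))))))) (l 3)), by decide +kernel⟩

def k91_pm_102 : ∃ t, chk3 f_pm_102 t 1007 1999 1 = true :=
  ⟨(a (a (l 16783056) (a (l 16780968) (b (b (a (b (a (l 16781384) (c (l 85530255543) (l 87677738759))) (l 16781480)) (a (b (b (l 3) (a (l 89825222519) (l 101636382535))) (c (l 82309030119) (l 82845900631))) (b (l 3) (a (c (l 90362093655) (l 93046447799)) (c (l 98952028135) (l 102173253239)))))) (c (l 76940321143) (c (l 74255966039) (l 73719094839)))) (l 16782080)))) (a (a (a (b (b (l 3) (a (b (c (l 90362093639) (c (l 91972706071) (l 91972705895))) (l 16781352)) (b (c (l 104857608135) (l 108078833159)) (c (l 84456513655) (l 86067125959))))) (l 16781688)) (b (a (b (l 3) (b (l 3) (b (l 3) (a (l 86067126071) (l 98952027863)))))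 (l 3)) (b (a (c (l 80698417351) (l 80161545959)) (b (a (c (l 88751480839) (l 89825222279)) (c (l 96804544439) (l 100025769527))) (c (l 16781440) (l 16781136)))) (l 16781592)))) (b (l 3) (b (b (l 3) (l 6)) (l 6)))) (b (l 3) (l 6)))), by decide +kernel⟩

def k92_pm_102 : ∃ t, chk3 f_pm_102 t 62 125 1 = true :=
  ⟨(a (l 16842472) (a (l 16816120) (b (a (l 16797960) (b (a (l 16788976) (b (a (l 16784504) (a (a (l 16783192) (l 6)) (l 6))) (l 6))) (l 16792120))) (l 16804264)))), by decide +kernel⟩

def k93_pm_102 : ∃ t, chk3 f_pm_102 t 63 62 1 = true :=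
  ⟨(b (l 3) (l 6)), by decide +kernel⟩

def k94_pm_102 : ∃ t, chk3 f_pm_102 t 31 63 1 = true :=
  ⟨(a (b (l 16904000) (l 16950824)) (l 6)), by decide +kernel⟩

theorem s95_pm_102 : ∃ t, chk3 f_pm_102 t 1007 999 1 = true := ex3_b k90_pm_102 k91_pm_102

theorem s96_pm_102 : ∃ t, chk3 f_pm_102 t 1007 499 1 = true := ex3_b k89_pm_102 s95_pm_102

theorem s97_pm_102 : ∃ t, chk3 f_pm_102 t 2013 998 1 = true := ex3_a k86_pm_102 k87_pm_102

theorem s98_pm_102 : ∃ t, chk3 f_pm_102 t 1006 998 1 = true := ex3_a k85_pm_102 s97_pm_102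

theorem s99_pm_102 : ∃ t, chk3 f_pm_102 t 1006 499 1 = true := ex3_b s98_pm_102 k88_pm_102

theorem s100_pm_102 : ∃ t, chk3 f_pm_102 t 503 499 1 = true := ex3_a s99_pm_102 s96_pm_102

theorem s101_pm_102 : ∃ t, chk3 f_pm_102 t 503 249 1 = true := ex3_b k84_pm_102 s100_pm_102

theorem s102_pm_102 : ∃ t, chk3 f_pm_102 t 1005 996 1 = true := ex3_b k80_pm_102 k81_pm_102

theorem s103_pm_102 : ∃ t, chk3 f_pm_102 t 1005 498 1 = true := ex3_b s102_pm_102 k82_pm_102

theorem s104_pm_102 : ∃ t, chk3 f_pm_102 t 502 498 1 = true := ex3_a k79_pm_102 s103_pm_102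

theorem s105_pm_102 : ∃ t, chk3 f_pm_102 t 502 249 1 = true := ex3_b s104_pm_102 k83_pm_102

theorem s106_pm_102 : ∃ t, chk3 f_pm_102 t 251 249 1 = true := ex3_a s105_pm_102 s101_pm_102

theorem s107_pm_102 : ∃ t, chk3 f_pm_102 t 1004 995 1 = true := ex3_b k75_pm_102 k76_pm_102

theorem s108_pm_102 : ∃ t, chk3 f_pm_102 t 1004 497 1 = true := ex3_b k74_pm_102 s107_pm_102

theorem s109_pm_102 : ∃ t, chk3 f_pm_102 t 502 497 1 = true := ex3_a s108_pm_102 k77_pm_102

theorem s110_pm_102 : ∃ t, chk3 f_pm_102 t 502 248 1 = true := ex3_b k73_pm_102 s109_pm_102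

theorem s111_pm_102 : ∃ t, chk3 f_pm_102 t 251 248 1 = true := ex3_a s110_pm_102 k78_pm_102

theorem s112_pm_102 : ∃ t, chk3 f_pm_102 t 251 124 1 = true := ex3_b s111_pm_102 s106_pm_102

theorem s113_pm_102 : ∃ t, chk3 f_pm_102 t 501 497 1 = true := ex3_a k70_pm_102 k71_pm_102

theorem s114_pm_102 : ∃ t, chk3 f_pm_102 t 2006 993 1 = true := ex3_a k67_pm_102 k68_pm_102

theorem s115_pm_102 : ∃ t, chk3 f_pm_102 t 2006 496 1 = true := ex3_b k66_pm_102 s114_pm_102

theorem s116_pm_102 : ∃ t, chk3 f_pm_102 t 1003 496 1 = true := ex3_a s115_pm_102 k69_pm_102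

theorem s117_pm_102 : ∃ t, chk3 f_pm_102 t 2005 992 1 = true := ex3_a k63_pm_102 k64_pm_102

theorem s118_pm_102 : ∃ t, chk3 f_pm_102 t 1002 992 1 = true := ex3_a k62_pm_102 s117_pm_102

theorem s119_pm_102 : ∃ t, chk3 f_pm_102 t 1002 496 1 = true := ex3_b s118_pm_102 k65_pm_102

theorem s120_pm_102 : ∃ t, chk3 f_pm_102 t 501 496 1 = true := ex3_a s119_pm_102 s116_pm_102

theorem s121_pm_102 : ∃ t, chk3 f_pm_102 t 501 248 1 = true := ex3_b s120_pm_102 s113_pm_102

theorem s122_pm_102 : ∃ t, chk3 f_pm_102 t 250 248 1 = true := ex3_a k61_pm_102 s121_pm_102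

theorem s123_pm_102 : ∃ t, chk3 f_pm_102 t 250 124 1 = true := ex3_b s122_pm_102 k72_pm_102

theorem s124_pm_102 : ∃ t, chk3 f_pm_102 t 125 124 1 = true := ex3_a s123_pm_102 s112_pm_102

theorem s125_pm_102 : ∃ t, chk3 f_pm_102 t 62 124 1 = true := ex3_a k60_pm_102 s124_pm_102

theorem s126_pm_102 : ∃ t, chk3 f_pm_102 t 62 62 1 = true := ex3_b s125_pm_102 k92_pm_102

theorem s127_pm_102 : ∃ t, chk3 f_pm_102 t 31 62 1 = true := ex3_a s126_pm_102 k93_pm_102

theorem s128_pm_102 : ∃ t, chk3 f_pm_102 t 31 31 1 = true := ex3_b s127_pm_102 k94_pm_102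

theorem s129_pm_102 : ∃ t, chk3 f_pm_102 t 15 31 1 = true := ex3_a k59_pm_102 s128_pm_102

theorem s130_pm_102 : ∃ t, chk3 f_pm_102 t 1001 991 1 = true := ex3_b k54_pm_102 k55_pm_102

theorem s131_pm_102 : ∃ t, chk3 f_pm_102 t 500 991 1 = true := ex3_a k53_pm_102 s130_pm_102

theorem s132_pm_102 : ∃ t, chk3 f_pm_102 t 500 990 1 = true := ex3_b k51_pm_102 k52_pm_102

theorem s133_pm_102 : ∃ t, chk3 f_pm_102 t 500 495 1 = true := ex3_b s132_pm_102 s131_pm_102

theorem s134_pm_102 : ∃ t, chk3 f_pm_102 t 1000 989 1 = true := ex3_b k48_pm_102 k49_pm_102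

theorem s135_pm_102 : ∃ t, chk3 f_pm_102 t 1000 494 1 = true := ex3_b k47_pm_102 s134_pm_102

theorem s136_pm_102 : ∃ t, chk3 f_pm_102 t 500 494 1 = true := ex3_a s135_pm_102 k50_pm_102

theorem s137_pm_102 : ∃ t, chk3 f_pm_102 t 500 247 1 = true := ex3_b s136_pm_102 s133_pm_102

theorem s138_pm_102 : ∃ t, chk3 f_pm_102 t 250 247 1 = true := ex3_a s137_pm_102 k56_pm_102

theorem s139_pm_102 : ∃ t, chk3 f_pm_102 t 250 123 1 = true := ex3_b k46_pm_102 s138_pm_102

theorem s140_pm_102 : ∃ t, chk3 f_pm_102 t 125 123 1 = true := ex3_a s139_pm_102 k57_pm_102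

theorem s141_pm_102 : ∃ t, chk3 f_pm_102 t 125 61 1 = true := ex3_b k45_pm_102 s140_pm_102

theorem s142_pm_102 : ∃ t, chk3 f_pm_102 t 999 988 1 = true := ex3_b k41_pm_102 k42_pm_102

theorem s143_pm_102 : ∃ t, chk3 f_pm_102 t 999 494 1 = true := ex3_b s142_pm_102 k43_pm_102

theorem s144_pm_102 : ∃ t, chk3 f_pm_102 t 499 494 1 = true := ex3_a k40_pm_102 s143_pm_102

theorem s145_pm_102 : ∃ t, chk3 f_pm_102 t 499 247 1 = true := ex3_b s144_pm_102 k44_pm_102

theorem s146_pm_102 : ∃ t, chk3 f_pm_102 t 249 247 1 = true := ex3_a k39_pm_102 s145_pm_102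

theorem s147_pm_102 : ∃ t, chk3 f_pm_102 t 1998 987 1 = true := ex3_a k36_pm_102 k37_pm_102

theorem s148_pm_102 : ∃ t, chk3 f_pm_102 t 999 987 1 = true := ex3_a s147_pm_102 k38_pm_102

theorem s149_pm_102 : ∃ t, chk3 f_pm_102 t 999 493 1 = true := ex3_b k35_pm_102 s148_pm_102

theorem s150_pm_102 : ∃ t, chk3 f_pm_102 t 998 986 1 = true := ex3_b k32_pm_102 k33_pm_102

theorem s151_pm_102 : ∃ t, chk3 f_pm_102 t 998 493 1 = true := ex3_b s150_pm_102 k34_pm_102

theorem s152_pm_102 : ∃ t, chk3 f_pm_102 t 499 493 1 = true := ex3_a s151_pm_102 s149_pm_102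

theorem s153_pm_102 : ∃ t, chk3 f_pm_102 t 499 246 1 = true := ex3_b k31_pm_102 s152_pm_102

theorem s154_pm_102 : ∃ t, chk3 f_pm_102 t 997 985 1 = true := ex3_a k28_pm_102 k29_pm_102

theorem s155_pm_102 : ∃ t, chk3 f_pm_102 t 997 492 1 = true := ex3_b k27_pm_102 s154_pm_102

theorem s156_pm_102 : ∃ t, chk3 f_pm_102 t 498 492 1 = true := ex3_a k26_pm_102 s155_pm_102

theorem s157_pm_102 : ∃ t, chk3 f_pm_102 t 498 246 1 = true := ex3_b s156_pm_102 k30_pm_102

theorem s158_pm_102 : ∃ t, chk3 f_pm_102 t 249 246 1 = true := ex3_a s157_pm_102 s153_pm_102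

theorem s159_pm_102 : ∃ t, chk3 f_pm_102 t 249 123 1 = true := ex3_b s158_pm_102 s146_pm_102

theorem s160_pm_102 : ∃ t, chk3 f_pm_102 t 124 123 1 = true := ex3_a k25_pm_102 s159_pm_102

theorem s161_pm_102 : ∃ t, chk3 f_pm_102 t 497 490 1 = true := ex3_a k21_pm_102 k22_pm_102

theorem s162_pm_102 : ∃ t, chk3 f_pm_102 t 497 245 1 = true := ex3_b s161_pm_102 k23_pm_102

theorem s163_pm_102 : ∃ t, chk3 f_pm_102 t 248 245 1 = true := ex3_a k20_pm_102 s162_pm_102

theorem s164_pm_102 : ∃ t, chk3 f_pm_102 t 496 244 1 = true := ex3_b k17_pm_102 k18_pm_102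

theorem s165_pm_102 : ∃ t, chk3 f_pm_102 t 248 244 1 = true := ex3_a s164_pm_102 k19_pm_102

theorem s166_pm_102 : ∃ t, chk3 f_pm_102 t 248 122 1 = true := ex3_b s165_pm_102 s163_pm_102

theorem s167_pm_102 : ∃ t, chk3 f_pm_102 t 124 122 1 = true := ex3_a s166_pm_102 k24_pm_102

theorem s168_pm_102 : ∃ t, chk3 f_pm_102 t 124 61 1 = true := ex3_b s167_pm_102 s160_pm_102

theorem s169_pm_102 : ∃ t, chk3 f_pm_102 t 62 61 1 = true := ex3_a s168_pm_102 s141_pm_102

theorem s170_pm_102 : ∃ t, chk3 f_pm_102 t 62 30 1 = true := ex3_b k16_pm_102 s169_pm_102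

theorem s171_pm_102 : ∃ t, chk3 f_pm_102 t 31 30 1 = true := ex3_a s170_pm_102 k58_pm_102

theorem s172_pm_102 : ∃ t, chk3 f_pm_102 t 247 121 1 = true := ex3_b k13_pm_102 k14_pm_102

theorem s173_pm_102 : ∃ t, chk3 f_pm_102 t 123 121 1 = true := ex3_a k12_pm_102 s172_pm_102

theorem s174_pm_102 : ∃ t, chk3 f_pm_102 t 123 60 1 = true := ex3_b k11_pm_102 s173_pm_102

theorem s175_pm_102 : ∃ t, chk3 f_pm_102 t 61 60 1 = true := ex3_a k10_pm_102 s174_pm_102

theorem s176_pm_102 : ∃ t, chk3 f_pm_102 t 30 60 1 = true := ex3_a k9_pm_102 s175_pm_102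

theorem s177_pm_102 : ∃ t, chk3 f_pm_102 t 30 30 1 = true := ex3_b s176_pm_102 k15_pm_102

theorem s178_pm_102 : ∃ t, chk3 f_pm_102 t 15 30 1 = true := ex3_a s177_pm_102 s171_pm_102

theorem s179_pm_102 : ∃ t, chk3 f_pm_102 t 15 15 1 = true := ex3_b s178_pm_102 s129_pm_102

theorem s180_pm_102 : ∃ t, chk3 f_pm_102 t 30 29 1 = true := ex3_a k6_pm_102 k7_pm_102

theorem s181_pm_102 : ∃ t, chk3 f_pm_102 t 30 14 1 = true := ex3_b k5_pm_102 s180_pm_102

theorem s182_pm_102 : ∃ t, chk3 f_pm_102 t 15 14 1 = true := ex3_a s181_pm_102 k8_pm_102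

theorem s183_pm_102 : ∃ t, chk3 f_pm_102 t 15 7 1 = true := ex3_b s182_pm_102 s179_pm_102

theorem s184_pm_102 : ∃ t, chk3 f_pm_102 t 7 7 1 = true := ex3_a k4_pm_102 s183_pm_102

theorem s185_pm_102 : ∃ t, chk3 f_pm_102 t 7 3 1 = true := ex3_b k3_pm_102 s184_pm_102

theorem s186_pm_102 : ∃ t, chk3 f_pm_102 t 3 3 1 = true := ex3_a k2_pm_102 s185_pm_102

theorem s187_pm_102 : ∃ t, chk3 f_pm_102 t 3 1 1 = true := ex3_b k1_pm_102 s186_pm_102

theorem s188_pm_102 : ∃ t, chk3 f_pm_102 t 1 1 1 = true := ex3_a k0_pm_102 s187_pm_102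

theorem c_pm_102 : CertN 536870912 536870912 0 536870912 33554432 16777216 3 false true false .npp 1 0 2
    ndN0q1 ndN0q2 pcN0 cut_pm_102 Ext.none :=
  certNK0 (fam := false) (s1 := true) (s2 := false) (a := 1) (b := 0) (c := 2) (cn := .npp) (n1 := ndN0q1) (n2 := ndN0q2) (pc := pcN0) (cut := cut_pm_102) (xt := Ext.none) (P1 := 536870912) (W1 := 536870912) (P2 := 0) (W2 := 536870912) (P3 := 33554432) (W3 := 16777216) (N0 := 3)
    rfl rfl rfl s188_pm_102

noncomputable def f_pm_112 : ℕ → ℕ → ℕ → ℕ → Bool := onCell 536870912 536870912 0 536870912 33554432 16777216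
    (rowNK 3 2 false true false .dn 1 1 2 (qsf 536870912 536870912 0 536870912 1) ndN0q1 ndN0q2 pcN1 Cut.none Ext.none)

def k0_pm_112 : ∃ t, chk3 f_pm_112 t 1 1 1 = true :=
  ⟨(a (b (a (a (b (b (a (b (l 3) (a (l 127406308343) (b (l 126869351239) (a (l 97878372503) (b (l 88214712327) (l 16802664)))))) (b (a (l 127943111991) (b (l 126869347463) (a (l 101636466279) (l 56002461303)))) (a (b (a (l 100562726295) (l 54928724871)) (l 16865024)) (b (l 16839544) (l 16944968))))) (a (b (a (b (b (l 93046556151) (l 86604219287)) (l 16871864)) (b (l 16858696) (l 16955784))) (a (l 17061512) (l 17076640))) (b (a (l 17055304) (l 17067376)) (l 17184512)))) (b (a (l 17365808) (l 17383240)) (l 17667312))) (b (b (a (b (a (b (a (l 99488983143) (l 56539327271)) (l 16836536)) (a (l 16854648) (l 16976152))) (a (l 17043192) (l 17052088))) (b (a (l 17009696) (l 17037096)) (l 17152440))) (a (l 17302360) (l 17357736))) (b (l 17534512) (l 17784920)))) (a (b (b (a (l 17290480) (l 1)) (l 17535664)) (b (l 17714208) (l 17908688)))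 (l 1))) (a (b (a (b (l 17984616) (l 18280800)) (l 18218688)) (b (l 18655816) (l 18999808))) (b (l 1) (l 1)))) (l 1)), by decide +kernel⟩

theorem c_pm_112 : CertN 536870912 536870912 0 536870912 33554432 16777216 3 false true false .dn 1 1 2
    ndN0q1 ndN0q2 pcN1 Cut.none Ext.none :=
  certNK2 (fam := false) (s1 := true) (s2 := false) (a := 1) (b := 1) (c := 2) (cn := .dn) (n1 := ndN0q1) (n2 := ndN0q2) (pc := pcN1) (cut := Cut.none) (xt := Ext.none) (P1 := 536870912) (W1 := 536870912) (P2 := 0) (W2 := 536870912) (P3 := 33554432) (W3 := 16777216) (N0 := 3)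
    rfl rfl rfl (fun _ => rfl) k0_pm_112

noncomputable def cut_pm_202 : Cut := Cut.of [[⟨0, 1, 0, 33554432⟩, ⟨1, 0, 0, 33554432⟩, ⟨2, 1, 0, 33554432⟩]]

noncomputable def f_pm_202 : ℕ → ℕ → ℕ → ℕ → Bool := onCell 0 536870912 0 536870912 33554432 16777216
    (rowNK 3 0 false true false .pp 2 0 2 (qsf 0 536870912 0 536870912 0) ndN0q2 ndN0q2 pcN0 cut_pm_202 Ext.none)

def k0_pm_202 : ∃ t, chk3 f_pm_202 t 1 1 1 = true :=
  ⟨(a (l 3) (b (l 3) (a (l 3) (b (l 3) (b (l 3) (a (l 3) (b (l 3) (a (l 3) (l 6))))))))), by decide +kernel⟩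

theorem c_pm_202 : CertN 0 536870912 0 536870912 33554432 16777216 3 false true false .pp 2 0 2
    ndN0q2 ndN0q2 pcN0 cut_pm_202 Ext.none :=
  certNK0 (fam := false) (s1 := true) (s2 := false) (a := 2) (b := 0) (c := 2) (cn := .pp) (n1 := ndN0q2) (n2 := ndN0q2) (pc := pcN0) (cut := cut_pm_202) (xt := Ext.none) (P1 := 0) (W1 := 536870912) (P2 := 0) (W2 := 536870912) (P3 := 33554432) (W3 := 16777216) (N0 := 3)
    rfl rfl rfl k0_pm_202

noncomputable def f_mm_001 : ℕ → ℕ → ℕ → ℕ → Bool := onCell 0 536870912 0 536870912 33554432 16777216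
    (rowNK 3 1 false false false .up 0 0 1 (qsf 0 536870912 536870912 536870912 0) ndN0q0 ndN0q1 pcN0 Cut.none Ext.none)

def k0_mm_001 : ∃ t, chk3 f_mm_001 t 1 1 1 = true :=
  ⟨(l 3), by decide +kernel⟩

theorem c_mm_001 : CertN 0 536870912 536870912 536870912 33554432 16777216 3 false false false .up 0 0 1
    ndN0q0 ndN0q1 pcN0 Cut.none Ext.none :=
  certNK1 (fam := false) (s1 := false) (s2 := false) (a := 0) (b := 0) (c := 1) (cn := .up) (n1 := ndN0q0) (n2 := ndN0q1) (pc := pcN0) (cut := Cut.none) (xt := Ext.none) (P1 := 0) (W1 := 536870912) (P2 := 536870912) (W2 := 536870912) (P3 := 33554432) (W3 := 16777216) (N0 := 3)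
    rfl rfl rfl (fun _ => rfl) k0_mm_001

noncomputable def f_mm_011 : ℕ → ℕ → ℕ → ℕ → Bool := onCell 0 536870912 536870912 536870912 33554432 16777216
    (rowNK 3 1 false false false .pnn 0 1 1 (qsf 0 536870912 536870912 536870912 1) ndN0q0 ndN0q1 pcN1 Cut.none Ext.none)

def k0_mm_011 : ∃ t, chk3 f_mm_011 t 1 1 1 = true :=
  ⟨(l 5), by decide +kernel⟩

theorem c_mm_011 : CertN 0 536870912 536870912 536870912 33554432 16777216 3 false false false .pnn 0 1 1
    ndN0q0 ndN0q1 pcN1 Cut.none Ext.none :=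
  certNK1 (fam := false) (s1 := false) (s2 := false) (a := 0) (b := 1) (c := 1) (cn := .pnn) (n1 := ndN0q0) (n2 := ndN0q1) (pc := pcN1) (cut := Cut.none) (xt := Ext.none) (P1 := 0) (W1 := 536870912) (P2 := 536870912) (W2 := 536870912) (P3 := 33554432) (W3 := 16777216) (N0 := 3)
    rfl rfl rfl (fun _ => rfl) k0_mm_011

noncomputable def f_mm_012 : ℕ → ℕ → ℕ → ℕ → Bool := onCell 0 536870912 0 536870912 33554432 16777216
    (rowNK 3 0 false false false .pnp 0 1 2 (qsf 0 536870912 0 536870912 1) ndN0q0 ndN0q2 pcN1 Cut.none Ext.none)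

def k0_mm_012 : ∃ t, chk3 f_mm_012 t 1 1 1 = true :=
  ⟨(l 5), by decide +kernel⟩

theorem c_mm_012 : CertN 0 536870912 0 536870912 33554432 16777216 3 false false false .pnp 0 1 2
    ndN0q0 ndN0q2 pcN1 Cut.none Ext.none :=
  certNK0 (fam := false) (s1 := false) (s2 := false) (a := 0) (b := 1) (c := 2) (cn := .pnp) (n1 := ndN0q0) (n2 := ndN0q2) (pc := pcN1) (cut := Cut.none) (xt := Ext.none) (P1 := 0) (W1 := 536870912) (P2 := 0) (W2 := 536870912) (P3 := 33554432) (W3 := 16777216) (N0 := 3)
    rfl rfl rfl k0_mm_012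

noncomputable def f_mm_022 : ℕ → ℕ → ℕ → ℕ → Bool := onCell 0 536870912 0 536870912 33554432 16777216
    (rowNK 3 0 false false false .pp 0 2 2 (qsf 0 536870912 0 536870912 2) ndN0q0 ndN0q2 pcN2 Cut.none Ext.none)

def k0_mm_022 : ∃ t, chk3 f_mm_022 t 1 1 1 = true :=
  ⟨(l 5), by decide +kernel⟩

theorem c_mm_022 : CertN 0 536870912 0 536870912 33554432 16777216 3 false false false .pp 0 2 2
    ndN0q0 ndN0q2 pcN2 Cut.none Ext.none :=
  certNK0 (fam := false) (s1 := false) (s2 := false) (a := 0) (b := 2) (c := 2) (cn := .pp) (n1 := ndN0q0) (n2 := ndN0q2) (pc := pcN2) (cut := Cut.none) (xt := Ext.none) (P1 := 0) (W1 := 536870912) (P2 := 0) (W2 := 536870912) (P3 := 33554432) (W3 := 16777216) (N0 := 3)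
    rfl rfl rfl k0_mm_022

noncomputable def f_mm_101 : ℕ → ℕ → ℕ → ℕ → Bool := onCell 536870912 536870912 536870912 536870912 33554432 16777216
    (rowNK 3 0 false false false .npn 1 0 1 (qsf 536870912 536870912 536870912 536870912 0) ndN0q1 ndN0q1 pcN0 Cut.none Ext.none)

def k0_mm_101 : ∃ t, chk3 f_mm_101 t 1 1 1 = true :=
  ⟨(l 3), by decide +kernel⟩

theorem c_mm_101 : CertN 536870912 536870912 536870912 536870912 33554432 16777216 3 false false false .npn 1 0 1
    ndN0q1 ndN0q1 pcN0 Cut.none Ext.none :=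
  certNK0 (fam := false) (s1 := false) (s2 := false) (a := 1) (b := 0) (c := 1) (cn := .npn) (n1 := ndN0q1) (n2 := ndN0q1) (pc := pcN0) (cut := Cut.none) (xt := Ext.none) (P1 := 536870912) (W1 := 536870912) (P2 := 536870912) (W2 := 536870912) (P3 := 33554432) (W3 := 16777216) (N0 := 3)
    rfl rfl rfl k0_mm_101

noncomputable def f_mm_102 : ℕ → ℕ → ℕ → ℕ → Bool := onCell 536870912 536870912 0 536870912 33554432 16777216
    (rowNK 3 0 false false false .npp 1 0 2 (qsf 536870912 536870912 0 536870912 0) ndN0q1 ndN0q2 pcN0 Cut.none Ext.none)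

def k0_mm_102 : ∃ t, chk3 f_mm_102 t 1 1 1 = true :=
  ⟨(a (l 5) (l 3)), by decide +kernel⟩

theorem c_mm_102 : CertN 536870912 536870912 0 536870912 33554432 16777216 3 false false false .npp 1 0 2
    ndN0q1 ndN0q2 pcN0 Cut.none Ext.none :=
  certNK0 (fam := false) (s1 := false) (s2 := false) (a := 1) (b := 0) (c := 2) (cn := .npp) (n1 := ndN0q1) (n2 := ndN0q2) (pc := pcN0) (cut := Cut.none) (xt := Ext.none) (P1 := 536870912) (W1 := 536870912) (P2 := 0) (W2 := 536870912) (P3 := 33554432) (W3 := 16777216) (N0 := 3)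
    rfl rfl rfl k0_mm_102

noncomputable def f_mm_112 : ℕ → ℕ → ℕ → ℕ → Bool := onCell 536870912 536870912 0 536870912 33554432 16777216
    (rowNK 3 2 false false false .dn 1 1 2 (qsf 536870912 536870912 0 536870912 1) ndN0q1 ndN0q2 pcN1 Cut.none Ext.none)

def k0_mm_112 : ∃ t, chk3 f_mm_112 t 1 1 1 = true :=
  ⟨(l 5), by decide +kernel⟩

theorem c_mm_112 : CertN 536870912 536870912 0 536870912 33554432 16777216 3 false false false .dn 1 1 2
    ndN0q1 ndN0q2 pcN1 Cut.none Ext.none :=
  certNK2 (fam := false) (s1 := false) (s2 := false) (a := 1) (b := 1) (c := 2) (cn := .dn) (n1 := ndN0q1) (n2 := ndN0q2) (pc := pcN1) (cut := Cut.none) (xt := Ext.none) (P1 := 536870912) (W1 := 536870912) (P2 := 0) (W2 := 536870912) (P3 := 33554432) (W3 := 16777216) (N0 := 3)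
    rfl rfl rfl (fun _ => rfl) k0_mm_112

noncomputable def f_mm_202 : ℕ → ℕ → ℕ → ℕ → Bool := onCell 0 536870912 0 536870912 33554432 16777216
    (rowNK 3 0 false false false .pp 2 0 2 (qsf 0 536870912 0 536870912 0) ndN0q2 ndN0q2 pcN0 Cut.none Ext.none)

def k0_mm_202 : ∃ t, chk3 f_mm_202 t 1 1 1 = true :=
  ⟨(l 3), by decide +kernel⟩

theorem c_mm_202 : CertN 0 536870912 0 536870912 33554432 16777216 3 false false false .pp 2 0 2
    ndN0q2 ndN0q2 pcN0 Cut.none Ext.none :=
  certNK0 (fam := false) (s1 := false) (s2 := false) (a := 2) (b := 0) (c := 2) (cn := .pp) (n1 := ndN0q2) (n2 := ndN0q2) (pc := pcN0) (cut := Cut.none) (xt := Ext.none) (P1 := 0) (W1 := 536870912) (P2 := 0) (W2 := 536870912) (P3 := 33554432) (W3 := 16777216) (N0 := 3)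
    rfl rfl rfl k0_mm_202

end Pool.Agent.Strip051.G.I1_32_3_64.Tab.C.NB00

namespace Pool.Agent.Strip051.G.I1_32_3_64.Tab.C.NB01

open Pool.Agent.Strip051.PB Pool.Agent.Strip051.PB.T
open Pool.Agent.Strip051.G.I1_32_3_64.Tab

noncomputable def f_pp_001 : ℕ → ℕ → ℕ → ℕ → Bool := onCell 0 536870912 536870912 536870912 33554432 16777216
    (rowNK 3 0 false true true .up 0 0 1 (qsf 0 536870912 536870912 536870912 0) ndN0q0 ndN1q1 pcN0 Cut.none Ext.none)

def k0_pp_001 : ∃ t, chk3 f_pp_001 t 1 1 1 = true :=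
  ⟨(l 3), by decide +kernel⟩

theorem c_pp_001 : CertN 0 536870912 536870912 536870912 33554432 16777216 3 false true true .up 0 0 1
    ndN0q0 ndN1q1 pcN0 Cut.none Ext.none :=
  certNK0 (fam := false) (s1 := true) (s2 := true) (a := 0) (b := 0) (c := 1) (cn := .up) (n1 := ndN0q0) (n2 := ndN1q1) (pc := pcN0) (cut := Cut.none) (xt := Ext.none) (P1 := 0) (W1 := 536870912) (P2 := 536870912) (W2 := 536870912) (P3 := 33554432) (W3 := 16777216) (N0 := 3)
    rfl rfl rfl k0_pp_001

noncomputable def f_pp_011 : ℕ → ℕ → ℕ → ℕ → Bool := onCell 0 536870912 536870912 536870912 33554432 16777216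
    (rowNK 3 0 false true true .pnn 0 1 1 (qsf 0 536870912 536870912 536870912 1) ndN0q0 ndN1q1 pcN1 Cut.none Ext.none)

def k0_pp_011 : ∃ t, chk3 f_pp_011 t 1 1 1 = true :=
  ⟨(l 3), by decide +kernel⟩

theorem c_pp_011 : CertN 0 536870912 536870912 536870912 33554432 16777216 3 false true true .pnn 0 1 1
    ndN0q0 ndN1q1 pcN1 Cut.none Ext.none :=
  certNK0 (fam := false) (s1 := true) (s2 := true) (a := 0) (b := 1) (c := 1) (cn := .pnn) (n1 := ndN0q0) (n2 := ndN1q1) (pc := pcN1) (cut := Cut.none) (xt := Ext.none) (P1 := 0) (W1 := 536870912) (P2 := 536870912) (W2 := 536870912) (P3 := 33554432) (W3 := 16777216) (N0 := 3)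
    rfl rfl rfl k0_pp_011

end Pool.Agent.Strip051.G.I1_32_3_64.Tab.C.NB01

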