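import Pool.Agent.Strip051.G.I1_32_3_64.Tab
import Pool.Agent.Strip051.PB.RowK

/-! # Certificates N15 (generated) -/

set_option linter.all false
set_option maxRecDepth 100000

namespace Pool.Agent.Strip051.G.I1_32_3_64.Tab.C.NB40

open Pool.Agent.Strip051.PB Pool.Agent.Strip051.PB.T
open Pool.Agent.Strip051.G.I1_32_3_64.Tab

noncomputable def cut_pp_101 : Cut := Cut.of [[⟨0, 1, 0, 33554432⟩, ⟨1, 0, 0, 33554432⟩, ⟨2, 1, 0, 33554432⟩]]

noncomputable def f_pp_101 : ℕ → ℕ → ℕ → ℕ → Bool := onCell 0 536870912 536870912 536870912 33554432 16777216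
    (rowNK 3 2 false true true .npn 1 0 1 (qsf 536870912 536870912 536870912 536870912 0) ndN4q1 ndN0q1 pcN0 cut_pp_101 Ext.none)

def k0_pp_101 : ∃ t, chk3 f_pp_101 t 2 2 1 = true :=
  ⟨(l 3), by decide +kernel⟩

def k1_pp_101 : ∃ t, chk3 f_pp_101 t 2 6 1 = true :=
  ⟨(a (l 3) (a (l 3) (b (l 3) (b (l 3) (a (b (l 3) (a (l 3) (b (l 3) (l 351818327943)))) (b (a (l 3) (b (l 364166345063) (l 282025136647))) (a (b (l 317458592407) (a (l 242296641671) (l 16812648))) (b (a (l 208473744871) (l 16824744)) (l 16859840))))))))), by decide +kernel⟩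

def k2_pp_101 : ∃ t, chk3 f_pp_101 t 4 14 1 = true :=
  ⟨(a (l 3) (b (l 3) (a (l 3) (b (l 3) (a (l 3) (b (l 3) (a (b (l 3) (a (l 3) (l 291688722119))) (b (a (l 3) (l 275045723191)) (a (b (l 273435108471) (c (l 211694944743) (l 194515065767))) (b (l 196662559815) (l 16819768))))))))))), by decide +kernel⟩

def k3_pp_101 : ∃ t, chk3 f_pp_101 t 8 30 1 = true :=
  ⟨(a (l 3) (b (l 3) (a (l 3) (b (l 3) (a (l 3) (b (l 3) (a (l 3) (b (l 3) (b (a (l 3) (a (l 3) (b (l 280951277799) (a (l 279340664199) (a (l 270213858583) (l 250886505815)))))) (c (a (l 276656312423) (a (b (l 270750731895) (c (l 204178735591) (l 197736282119))) (b (l 200420640007) (l 16796912)))) (a (a (l 3) (c (l 268603244503) (l 264845142967))) (a (b (l 254644596695) (l 191830700343)) (l 171966477207))))))))))))), by decide +kernel⟩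

def k4_pp_101 : ∃ t, chk3 f_pp_101 t 16 62 1 = true :=
  ⟨(a (l 3) (b (l 3) (a (l 3) (b (l 3) (a (l 3) (b (l 3) (a (l 3) (b (l 3) (a (l 3) (b (l 3) (b (b (l 328732777687) (a (l 3) (a (l 3) (a (l 268603234983) (l 215453012791))))) (a (b (l 3) (b (l 297594264263) (a (l 3) (l 221895463511)))) (b (a (a (l 275582556791) (l 218674238199)) (l 16780184)) (l 156934083111)))))))))))))), by decide +kernel⟩

def k5_pp_101 : ∃ t, chk3 f_pp_101 t 32 63 1 = true :=
  ⟨(b (b (l 3) (l 6)) (l 6)), by decide +kernel⟩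

def k6_pp_101 : ∃ t, chk3 f_pp_101 t 66 252 1 = true :=
  ⟨(a (l 3) (b (l 3) (a (l 3) (b (l 3) (a (l 3) (a (l 3) (b (l 3) (b (l 3) (b (b (c (l 303499841319) (l 326048420247)) (a (l 3) (a (c (l 275582553687) (l 317995356007)) (l 198810012535)))) (b (c (a (l 287930584711) (l 179482659143)) (a (l 324437807175) (l 176798304871))) (a (a (c (l 280414391863) (l 322290323351)) (l 204178721943)) (l 16779824)))))))))))), by decide +kernel⟩

def k7_pp_101 : ∃ t, chk3 f_pp_101 t 132 253 1 = true :=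
  ⟨(b (b (l 3) (l 6)) (l 6)), by decide +kernel⟩

def k8_pp_101 : ∃ t, chk3 f_pp_101 t 266 506 1 = true :=
  ⟨(b (a (l 3) (a (l 3) (b (l 3) (b (l 3) (b (b (l 3) (a (l 3) (a (l 3) (c (l 229411653559) (l 229411654519))))) (b (a (l 3) (a (c (l 231022266263) (l 231559138183)) (l 16778496))) (a (a (l 3) (c (l 233169749895) (l 233169750951))) (l 156934081111)))))))) (a (b (b (l 3) (l 6)) (l 6)) (b (a (b (b (b (l 3) (a (l 3) (a (l 3) (c (l 236927846247) (l 237464718279))))) (a (b (l 3) (a (l 3) (c (l 240685942599) (l 240149072567)))) (a (b (c (l 238538458967) (l 239612201959)) (l 174650821287)) (l 161229048855)))) (a (a (l 6) (c (l 151565371207) (l 150491630103))) (l 16782280))) (a (b (a (b (b (c (l 234780362615) (l 235317234615)) (l 170355853927)) (l 16782280)) (l 149954759543)) (l 16787552)) (l 16782328))) (l 16787584)))), by decide +kernel⟩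

def k9_pp_101 : ∃ t, chk3 f_pp_101 t 267 506 1 = true :=
  ⟨(b (a (b (a (l 3) (b (l 3) (b (b (c (l 320679710343) (l 294373036631)) (a (l 3) (a (c (l 298131131847) (l 292225552423)) (c (l 213842397271) (l 212231785159))))) (a (b (c (l 310479162855) (l 292762423559)) (a (c (l 302426099095) (l 291688681559)) (c (l 218137364519) (l 216526752487)))) (b (a (a (l 241759685479) (l 197199399559)) (l 16779744)) (l 16779744)))))) (b (a (b (b (l 3) (a (l 3) (a (l 3) (c (l 221895460855) (l 220821719831))))) (b (a (l 3) (a (c (l 223506073575) (l 222969203495)) (l 16778424))) (a (a (l 3) (c (l 225653557207) (l 225116687175))) (l 16778720)))) (b (b (a (a (c (l 220284848151) (l 218674236151)) (l 16778416)) (l 16782376)) (l 16778432)) (l 16782376))) (a (b (b (a (a (c (l 227801040839) (l 227264170839)) (l 16778464)) (l 16782336)) (l 147270405063)) (l 16782336)) (l 16787648)))) (b (b (a (b (a (l 3) (b (c (l 294373035607) (l 286319972471)) (a (c (l 285246230023) (l 283635617735)) (c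 (l 206326204631) (l 203104979575))))) (a (b (c (l 300278615607) (l 289004327079)) (a (c (l 291151810023) (l 287930585079)) (c (l 210084300967) (l 207399946919)))) (b (a (a (l 231022267111) (l 185925110263)) (l 16779784)) (l 16779784)))) (b (a (a (b (l 206326205623) (l 16779792)) (l 16779808)) (l 16782464)) (l 16782456))) (b (b (a (a (a (a (l 236390976295) (l 191830690375)) (l 16779760)) (l 16782416)) (l 16787712)) (l 16778512)) (l 16782456))) (l 16787744))) (l 16782520)), by decide +kernel⟩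

def k10_pp_101 : ∃ t, chk3 f_pp_101 t 133 507 1 = true :=
  ⟨(a (b (l 16779736) (l 6)) (l 16777440)), by decide +kernel⟩

def k11_pp_101 : ∃ t, chk3 f_pp_101 t 134 504 1 = true :=
  ⟨(a (l 3) (b (l 3) (a (l 3) (b (l 3) (b (a (l 3) (a (l 3) (c (l 285783102135) (l 323364065255)))) (a (c (l 296520520391) (l 328195903991)) (a (b (l 317458487207) (a (c (l 227801042295) (l 220284848631)) (l 180019530983))) (b (a (c (l 224579816871) (l 215989881271)) (l 177335176807)) (l 16780448))))))))), by decide +kernel⟩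

def k12_pp_101 : ∃ t, chk3 f_pp_101 t 268 505 1 = true :=
  ⟨(b (a (l 3) (a (l 3) (b (l 3) (b (l 3) (b (a (l 3) (b (a (l 3) (l 228874783623)) (a (l 230485396343) (l 16778688)))) (a (b (a (l 3) (l 232632879959)) (a (l 234780363591) (l 16778664))) (l 16778688))))))) (a (b (a (l 3) (b (l 3) (a (b (l 3) (b (a (l 3) (a (l 337859581271) (l 240685943479))) (a (a (l 340543935863) (l 243370298023)) (l 185925110439)))) (b (b (a (l 3) (l 245517781751)) (a (a (l 335175226679) (l 238001588935)) (l 181630143175))) (l 160155306711))))) (b (a (a (b (l 3) (b (c (l 276119424727) (l 319069097943)) (a (c (l 262697650535) (l 314774130471)) (l 193441303127)))) (b (b (c (l 272898199287) (c (l 315847871911) (l 270750716311))) (a (a (l 3) (l 249275878055)) (l 189683206775))) (l 164987144823))) (c (a (l 154249726455) (l 16778120)) (l 147270404519))) (b (a (a (a (l 177335175751) (l 16779848)) (l 16782504)) (l 16787808)) (l 16782544)))) (b (b (a (b (a (l 3) (a (b (l 3) (l 238538459943)) (a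 (l 218137365287) (l 191830690615)))) (a (b (a (l 3) (l 240685943575)) (a (l 242833427207) (l 177872046839))) (l 156397210407))) (l 145122921367)) (a (a (l 151028501271) (l 16782608)) (l 16798400))) (l 16787928)))), by decide +kernel⟩

def k13_pp_101 : ∃ t, chk3 f_pp_101 t 269 505 1 = true :=
  ⟨(b (a (b (b (a (l 3) (c (l 302962971255) (l 330343387767))) (b (a (l 3) (a (l 334101485335) (a (b (l 320142841511) (l 213842398263)) (l 188609465431)))) (a (l 343228290951) (a (a (b (l 326585292423) (l 217600494583)) (l 191293819943)) (l 16780104))))) (a (b (b (a (l 342691419863) (b (a (l 333027743335) (l 220284849111)) (c (l 196662528871) (l 190220077495)))) (a (b (a (l 338933323335) (l 224042945447)) (a (l 226190429079) (l 16780024))) (l 16780048))) (l 16778752)) (l 16778824))) (a (b (b (a (b (l 326048421735) (a (b (l 313700390599) (l 209547431015)) (l 184851369095))) (b (a (c (l 230485396791) (l 223506074167)) (l 181630143671)) (l 16780168))) (l 16780176)) (l 16798584))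 (l 16779784))) (l 16788176)), by decide +kernel⟩

def k14_pp_101 : ∃ t, chk3 f_pp_101 t 135 252 1 = true :=
  ⟨(b (a (b (a (l 3) (b (l 3) (a (a (l 3) (a (l 335712098967) (b (l 3) (a (l 309942294823) (b (l 3) (l 240685945031)))))) (a (b (l 3) (b (a (l 319605971223) (a (l 286319974599) (l 237464719607))) (a (l 201494368199) (l 16780816)))) (a (b (l 322290325959) (b (l 197736271879) (l 16778752))) (b (b (l 3) (c (l 244444041479) (l 230485395687))) (l 16781448))))))) (a (b (a (a (l 3) (a (l 3) (b (l 3) (b (l 3) (b (l 3) (l 251423363063)))))) (b (b (l 3) (a (l 3) (a (l 3) (b (l 3) (l 242833428551))))) (a (b (a (l 3) (b (l 3) (l 247128395799))) (a (a (l 228874784759) (l 200420625831)) (l 16779120))) (b (a (a (l 225653559335) (l 195588787671)) (l 16779208)) (l 16783656))))) (a (b (a (b (c (l 278803782807) (l 317995355703)) (a (c (l 221895462359) (l 212231784823)) (l 173577080215))) (a (b (c (l 218674236951) (l 209010559287)) (l 16780568)) (l 157470952935))) (l 16781136))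 (l 16779584))) (a (b (b (a (b (a (l 3) (b (l 319605971095) (l 238001590391))) (a (a (l 221895462999) (l 192367562263)) (l 16779304))) (a (a (b (l 218674237639) (l 16783592)) (l 167134629655)) (l 16779856))) (l 16779464)) (l 16781592)) (l 16782552)))) (b (a (b (b (a (l 3) (a (l 3) (a (l 306721069687) (b (l 3) (l 227801043447))))) (a (b (l 3) (b (l 313700391447) (a (l 3) (a (l 294373038407) (l 214379270263))))) (a (b (a (l 298131134903) (c (l 234780365239) (l 220284848455))) (l 175724564535)) (l 161765921031)))) (a (b (b (a (a (l 308868553063) (c (l 241222816071) (l 226727299223))) (l 178408919223)) (c (a (l 182167015207) (l 16781072)) (l 160692176935))) (l 16780400)) (l 16782072))) (a (b (b (a (b (a (l 286856845847) (l 224579818023)) (l 170892726439)) (l 158544695703)) (l 16781328)) (l 16785208)) (l 16786032))) (l 16790080))) (a (l 16783536) (l 16797848))), by decide +kernel⟩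

def k15_pp_101 : ∃ t, chk3 f_pp_101 t 67 253 1 = true :=
  ⟨(a (b (a (l 16780160) (l 16777912)) (l 16777944)) (l 16778696)), by decide +kernel⟩

def k16_pp_101 : ∃ t, chk3 f_pp_101 t 33 127 1 = true :=
  ⟨(a (a (l 6) (b (l 16780112) (l 6))) (b (l 16778544) (l 16778464))), by decide +kernel⟩

def k17_pp_101 : ∃ t, chk3 f_pp_101 t 34 124 1 = true :=
  ⟨(a (l 3) (b (l 3) (a (l 3) (b (l 3) (a (l 3) (b (l 3) (a (a (l 295446786007) (b (l 3) (a (l 275045690503) (b (l 280951270551) (a (l 234243499639) (l 16781968)))))) (b (a (l 294373043879) (b (l 280951270935) (a (b (l 279877528807) (l 256255207943)) (l 212231793047)))) (b (a (a (a (l 274508819495) (l 243370306583)) (l 216526760199)) (l 16784200)) (l 16786736)))))))))), by decide +kernel⟩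

def k18_pp_101 : ∃ t, chk3 f_pp_101 t 68 250 1 = true :=
  ⟨(a (l 3) (b (l 3) (a (l 3) (b (l 3) (b (a (l 3) (l 299741750791)) (a (l 307257943319) (a (b (l 286856848279) (b (a (l 280414397031) (l 215453014951)) (a (l 217600498343) (l 16781072)))) (b (b (a (l 273435075287) (l 210621177031)) (c (l 190756953143) (l 177335177079))) (l 16783792))))))))), by decide +kernel⟩

def k19_pp_101 : ∃ t, chk3 f_pp_101 t 136 251 1 = true :=
  ⟨(b (a (l 3) (b (l 3) (a (l 3) (b (l 3) (a (b (l 3) (a (l 276119428727) (b (c (l 259476429255) (l 272361330791)) (l 194515048167)))) (a (b (b (l 3) (c (l 256255203847) (l 265918879895))) (b (l 191830693511) (l 16781000))) (b (b (c (l 253570849351) (l 259476428999)) (l 188609467959)) (l 16782248)))))))) (a (b (a (l 3) (b (l 3) (b (b (l 311016037959) (a (l 3) (a (l 286856846519) (a (b (l 263771397207) (l 214379271447)) (l 188072596455))))) (b (a (l 302962973943) (c (a (c (l 216526754791) (l 209010560695)) (l 16781024)) (l 179482659175))) (a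 (a (l 295983651927) (a (a (l 250886495191) (l 232632882199)) (l 194515047303))) (l 16780808)))))) (a (b (b (b (l 321753456007) (a (l 3) (a (l 305110457335) (a (b (l 291151813527) (l 232632882071)) (l 200957498215))))) (b (a (l 314774133831) (a (a (b (l 296520522599) (l 237464720215)) (l 205252465671)) (l 16779384))) (a (a (l 309405424535) (a (b (l 299204877111) (l 241759687463)) (l 208473691079))) (l 16780168)))) (b (b (a (a (b (l 259476429543) (l 213305529207)) (l 16780432)) (l 16781864)) (l 16779696)) (l 16784088))) (b (b (b (a (a (a (a (l 258939558823) (l 236390978535)) (l 197199401671)) (l 16779656)) (l 16782680)) (l 16779856)) (l 16785184)) (l 16790416)))) (b (a (b (b (a (l 3) (b (l 279877525031) (a (l 266992622983) (a (l 220284851719) (l 16781704))))) (b (a (l 287393717703) (c (a (l 205252465863) (l 16781680)) (l 172503337511))) (a (a (l 277193170215) (a (l 226190431511) (l 16780144))) (l 16781472)))) (b (b (a (c (a (l 210084304007) (l 16781352)) (l 176261433783))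 (l 16783496)) (l 16783288)) (l 16786240))) (b (a (a (b (b (l 196662531591) (l 16780688)) (l 16783800)) (l 16784008)) (l 16787528)) (l 16793472))) (l 16800400)))), by decide +kernel⟩

def k20_pp_101 : ∃ t, chk3 f_pp_101 t 137 251 1 = true :=
  ⟨(b (a (b (b (a (l 3) (l 314237264951)) (a (l 318532232039) (a (b (l 295983653319) (b (a (l 294909911191) (a (l 261623914503) (l 224042948711))) (c (a (l 258939558663) (l 16780632)) (l 197736271063)))) (b (b (a (l 293299298567) (a (l 252497109127) (l 218137369047))) (c (a (l 239075334423) (l 16780952)) (l 193978174775))) (l 16781088))))) (a (a (b (b (l 3) (b (a (l 3) (a (l 280414396199) (a (l 246054657767) (l 230485399367)))) (a (a (l 284709363431) (a (l 250886495927) (l 234780366583))) (l 184851372087)))) (c (b (l 163376535463) (l 16788328)) (l 16778736))) (b (b (b (a (l 3) (a (l 270213848983) (l 232096012231))) (a (a (l 276119428951) (l 235317237639)) (l 16780904))) (l 160692181223)) (l 16788520))) (b (c (l 16780208) (l 16779104))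 (l 16796168)))) (b (a (b (a (b (l 293299298983) (b (a (l 292225556855) (c (l 232096012967) (l 213305527911))) (c (a (l 234243496535) (l 16781272)) (l 190220078519)))) (b (b (a (l 289004331495) (l 223506078887)) (c (a (l 229411658487) (l 16781600)) (l 186461982295))) (l 16783088))) (l 16782528)) (l 16783128)) (l 16807600))) (l 16781728)), by decide +kernel⟩

def k21_pp_101 : ∃ t, chk3 f_pp_101 t 138 250 1 = true :=
  ⟨(b (a (l 3) (b (l 3) (a (b (l 3) (b (l 3) (b (l 293299300407) (a (l 3) (a (l 292225558183) (a (l 252497110615) (l 224579820983))))))) (b (b (l 3) (b (l 290614946103) (a (l 3) (a (l 280414398391) (l 228874789543))))) (a (c (b (c (l 264845142039) (l 253033978823)) (a (l 209547436423) (l 16783312))) (b (c (l 247128398295) (l 248739009239)) (l 179482661927))) (c (b (a (l 205252469207) (l 16783672)) (l 16788160)) (l 163913405799))))))) (a (b (a (b (l 3) (a (l 3) (l 282561881623))) (a (b (l 3) (b (l 270750721415) (b (a (l 252497110119) (l 16781296)) (l 178945793863))))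 (b (c (l 270213850039) (b (l 3) (l 262697656119))) (a (b (a (b (l 281488139511) (l 16780936)) (l 207399952423)) (l 16783840)) (l 16781392))))) (a (b (a (b (l 279340655751) (b (a (l 266455753559) (l 206326210151)) (c (l 187535727863) (l 173040209911)))) (b (b (a (l 259476431847) (l 200957501031)) (l 182703890103)) (l 16784504))) (l 16784216)) (l 16785048))) (b (a (b (b (a (c (a (l 279340658103) (l 256255206119)) (l 258939559847)) (c (a (c (l 213842403255) (l 205789337815)) (l 16782952)) (l 182167016295))) (a (c (a (c (l 218137370503) (l 211694917815)) (l 16782600)) (l 185388241607)) (l 16785968))) (l 16791112)) (l 16786864)) (l 16812936)))), by decide +kernel⟩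

def k22_pp_101 : ∃ t, chk3 f_pp_101 t 139 250 1 = true :=
  ⟨(b (a (b (a (b (l 3) (b (l 3) (b (l 284172495431) (a (l 3) (a (l 272361334999) (l 219747984807)))))) (b (b (l 295446785239) (a (l 295983655799) (a (l 263771400807) (b (l 251423369815) (l 16781840))))) (a (b (a (l 268603238871) (b (l 257328949687) (l 16781584))) (l 178945795495)) (l 16782840)))) (a (b (a (b (a (l 288467462343) (b (l 274508818567) (l 223506080663))) (c (l 185925116679) (l 173040211223))) (c (l 168745247879) (l 16779648))) (l 16782248)) (l 16799072))) (b (a (b (b (a (a (l 259476433655) (b (l 244980919031) (l 16783424))) (l 16783488)) (l 16783384)) (l 16794320)) (l 16779744)) (l 16817096))) (l 16817200)), by decide +kernel⟩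

def k23_pp_101 : ∃ t, chk3 f_pp_101 t 69 251 1 = true :=
  ⟨(a (l 16789248) (l 16902272)), by decide +kernel⟩

def k24_pp_101 : ∃ t, chk3 f_pp_101 t 70 124 1 = true :=
  ⟨(b (a (l 3) (b (l 3) (a (b (l 3) (c (l 280951276919) (l 299204883511))) (b (c (l 280414406695) (l 295446787639)) (a (b (l 281488144887) (b (a (l 280414402423) (c (l 254644600839) (l 234780370055))) (a (c (l 257328955207) (l 238001595367)) (l 16784080)))) (b (b (a (l 279877531815) (c (l 255718341127) (l 225116693879))) (a (c (l 258939566055) (l 231022273767)) (l 16784800))) (l 16789920))))))) (a (b (a (l 3) (b (l 3) (a (b (l 3) (a (l 272898208263) (b (l 264308273575) (b (l 228337921047) (l 16782488))))) (b (a (c (l 275045694375) (l 263234530023)) (b (a (l 279877530343) (l 248739017399)) (l 204178731303))) (c (a (l 186461990695) (l 16791128)) (l 166060892327)))))) (a (b (a (b (l 3) (b (l 290614947847) (a (l 280414400167) (a (a (l 254107725319) (l 253033983191)) (l 16782592))))) (b (a (l 278803788007)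 (b (l 274508820583) (c (l 218674244791) (l 202568113351)))) (a (a (b (b (l 272898207431) (l 16783240)) (l 16783864)) (l 16784040)) (l 16783160)))) (a (b (a (b (a (a (l 264845143399) (l 256792079399)) (l 208473696855)) (l 16784560)) (l 16787664)) (l 16795872)) (l 16802288))) (b (a (a (b (b (c (l 215453019415) (l 199346888087)) (l 16786024)) (l 16794376)) (l 16794752)) (l 16803800)) (l 16820488)))) (b (a (b (a (b (l 282025015207) (b (c (l 270213856631) (l 255718334983)) (a (c (l 266992630823) (l 245517787351)) (l 16782680)))) (b (a (c (l 268603244151) (l 252497109719)) (b (a (l 276656305527) (l 255718340007)) (l 16783368))) (l 16783184))) (a (b (c (l 16783424) (l 16781376)) (l 16798872)) (l 16805264))) (b (l 16784960) (l 16823352))) (l 16824544)))), by decide +kernel⟩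

def k25_pp_101 : ∃ t, chk3 f_pp_101 t 71 124 1 = true :=
  ⟨(b (a (b (a (a (l 3) (c (l 280951279031) (l 293836176119))) (b (c (l 279340666263) (l 287393725015)) (a (b (l 277193178839) (a (b (l 273971952791) (a (l 16784912) (l 16783208))) (l 16784552))) (a (b (b (l 268603244039) (l 16785416)) (l 16790016)) (l 16785144))))) (a (b (a (b (l 280414403671) (a (a (l 268066371991) (b (l 278266919335) (l 16787304))) (c (l 206863087799) (l 192904439575)))) (b (a (a (l 262160792311) (b (l 276119436039) (l 16787848))) (c (l 202031249927) (l 16781880))) (l 16780920))) (l 16791624)) (l 16793664))) (b (a (b (a (b (l 271287599479) (a (b (l 263771406215) (l 16788688)) (l 16786008))) (a (b (b (l 258402697479) (l 16784096)) (l 16791504)) (l 16791880))) (l 16783888)) (l 16796120)) (l 16828848))) (l 16810488)), by decide +kernel⟩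

def k26_pp_101 : ∃ t, chk3 f_pp_101 t 35 125 1 = true :=
  ⟨(a (b (l 16790040) (l 16979608)) (l 16970448)), by decide +kernel⟩

def k27_pp_101 : ∃ t, chk3 f_pp_101 t 17 63 1 = true :=
  ⟨(a (b (a (b (a (b (l 16784424) (l 16828640)) (l 16868656)) (l 16866376)) (l 16783296)) (b (l 16934976) (l 16859968))) (b (a (l 17105288) (l 17217912)) (l 17305744))), by decide +kernel⟩

def k28_pp_101 : ∃ t, chk3 f_pp_101 t 18 60 1 = true :=
  ⟨(a (l 3) (b (l 3) (a (l 3) (b (l 3) (a (b (l 3) (a (l 3) (b (l 287393749495) (a (l 282025038839) (l 238001613223))))) (b (a (l 288467492439) (b (l 286856878439) (a (l 269140137079) (l 249275906247)))) (a (b (a (l 279877555239) (l 226190453399)) (l 16792248)) (l 16802144)))))))), by decide +kernel⟩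

def k29_pp_101 : ∃ t, chk3 f_pp_101 t 36 61 1 = true :=
  ⟨(b (a (l 3) (b (l 3) (a (b (l 3) (a (l 3) (l 298668027303))) (b (c (l 285246258951) (l 298131154471)) (a (b (l 284709382439) (a (b (l 283635639447) (l 258939576887)) (b (l 254644609703) (l 16787536)))) (b (a (b (l 280951284935) (l 250349642535)) (b (l 257865833159) (l 16789160))) (l 16787400))))))) (a (b (a (l 3) (b (l 3) (a (b (l 3) (a (l 281488155127) (b (l 279877541895) (a (l 261623930391) (l 16789480))))) (b (a (l 280951284311) (b (l 279877542023) (a (l 249275899687) (l 16785240)))) (a (b (a (l 256792092311) (l 16789808)) (l 16791048)) (l 16796768)))))) (a (b (a (b (l 3) (b (l 282561894135) (a (l 280414407191) (a (l 278266922999) (c (l 254107734631) (l 231022277015)))))) (b (a (l 283098765159) (b (l 282025025431) (a (l 271287606567) (c (l 250886507943) (l 219211117799))))) (a (b (a (l 275582573767) (c (l 255181475015) (l 225116697543))) (l 16787896)) (l 16793640)))) (a (b (b (a (a (l 278803793639) (a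 (l 265918891671) (l 256792087255))) (l 16787136)) (c (l 16787248) (l 16785576))) (l 16807512)) (l 16798536))) (b (a (b (a (b (a (l 266455768471) (c (l 16788088) (l 16782792))) (l 16789456)) (l 16784720)) (l 16810264)) (l 16821968)) (l 16832048)))) (b (a (b (a (b (l 285246253303) (a (l 278803800759) (b (l 272898220311) (a (l 251960251335) (l 16786720))))) (b (a (l 273435091751) (b (l 263234544087) (l 16785976))) (a (l 16789544) (l 16799896)))) (a (a (b (c (l 196662546199) (l 185388251575)) (l 16807584)) (l 16787328)) (l 16824384))) (b (a (l 16790176) (l 16805792)) (l 16855992))) (a (l 16833384) (l 16917184))))), by decide +kernel⟩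

def k30_pp_101 : ∃ t, chk3 f_pp_101 t 37 61 1 = true :=
  ⟨(b (a (b (a (b (l 3) (a (l 3) (l 294373060087))) (b (a (l 3) (l 282561900071)) (a (b (l 275582577095) (a (b (l 268603254311) (l 16795920)) (l 16800392))) (b (c (l 207399968567) (l 195588801607)) (l 16804256))))) (a (b (a (b (l 282561898855) (a (b (l 280414414119) (l 254644608167)) (l 206326225271))) (b (a (b (l 276656317847) (l 244980932519)) (l 16788232)) (l 16801088))) (l 16798048)) (l 16798160))) (b (a (b (a (b (a (l 282561909735) (l 247128418535)) (l 199883776407)) (b (l 16790512) (l 16807392))) (l 16803248)) (l 16823120)) (l 16834248))) (l 16806592)), by decide +kernel⟩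

def k31_pp_101 : ∃ t, chk3 f_pp_101 t 19 30 1 = true :=
  ⟨(b (a (b (a (l 3) (b (a (l 3) (l 305110495591)) (a (b (l 303499880679) (a (l 270750751975) (b (l 249275914615) (l 16789712)))) (b (a (b (l 285246266967) (l 241759721959)) (b (l 233706658455) (l 16793320))) (l 16806832))))) (a (b (a (b (l 3) (a (l 285246266823) (b (l 283098781975) (l 220284874151)))) (b (a (l 283098783047) (b (l 275045718295) (l 214379293399))) (a (b (l 225116711479) (l 16799192)) (l 16808672)))) (a (b (a (b (a (l 262160815335) (l 16793928)) (l 16795728)) (l 16805432)) (l 16829304)) (l 16848048))) (b (a (b (a (l 16795104) (l 16811856)) (l 16834288)) (l 16831016)) (l 16898472)))) (b (a (b (a (b (l 297057429127) (a (b (l 283635654023) (l 256792103319)) (l 202568136567))) (b (a (l 229948552359) (l 16793880)) (l 16813400))) (l 16819408)) (l 16830768)) (a (l 16992856) (l 16988200)))) (a (a (l 16836000) (b (l 16997920) (l 17140528))) (l 17215768))), by decide +kernel⟩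

def k32_pp_101 : ∃ t, chk3 f_pp_101 t 9 31 1 = true :=
  ⟨(a (b (a (b (a (l 16793552) (l 17004488)) (l 17168536)) (b (l 17139736) (l 17319808))) (b (l 17443944) (l 17641680))) (b (l 17551440) (l 17764880))), by decide +kernel⟩

def k33_pp_101 : ∃ t, chk3 f_pp_101 t 5 7 1 = true :=
  ⟨(b (a (b (a (l 3) (b (l 3) (a (b (l 3) (a (l 3) (l 305647399959))) (b (a (l 343228366439) (l 272361436727)) (a (b (l 253034038567) (l 190220122727)) (l 16829240)))))) (a (b (a (l 3) (b (a (l 3) (b (l 3) (l 319069144311))) (a (b (l 322827242375) (a (l 280414433511) (b (l 250349659911) (l 16794080)))) (b (a (l 255718370599) (l 206326242743)) (l 16820808))))) (a (b (a (b (l 3) (a (l 306184239671) (b (l 299741785479) (l 231559171863)))) (b (a (l 299741787495) (b (l 283098786183) (l 210621212583))) (a (b (l 219211146407) (l 16805040)) (l 16820232)))) (a (b (a (b (a (l 281488171975) (l 226727338343)) (l 16797712)) (l 16813576)) (l 16849912)) (l 16879128))) (b (a (b (a (l 189146372247) (l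 16826704)) (l 16859256)) (l 16864944)) (l 16954096)))) (b (a (b (a (b (l 297057435255) (a (l 234243533559) (l 16799608))) (b (a (l 206863117415) (l 16807352)) (l 16834064))) (l 16828912)) (l 16875544)) (a (l 17039304) (l 17075424))))) (b (a (b (a (b (l 3) (a (l 323901008375) (b (l 276656359495) (l 202031284199)))) (b (a (l 284709447479) (b (l 214379331175) (l 16812144))) (a (l 16819040) (l 16856752)))) (a (b (a (b (l 206863123863) (l 16819504)) (l 16843120)) (l 16868784)) (l 16910040))) (b (a (l 16879096) (l 16938936)) (l 17024072))) (a (b (l 17092056) (l 17173432)) (l 17203560)))) (a (b (a (b (a (b (l 17018768) (l 17066936)) (l 17104072)) (l 17291344)) (l 17462992)) (b (l 17617536) (l 17908352))) (b (l 17536016) (l 17822624)))), by decide +kernel⟩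

def k34_pp_101 : ∃ t, chk3 f_pp_101 t 3 1 1 = true :=
  ⟨(b (a (l 3) (l 1)) (b (a (b (a (b (l 3) (a (l 3) (b (l 3) (a (l 3) (l 329269761991))))) (b (l 1) (a (b (l 1) (l 297460164919)) (l 1)))) (a (b (a (b (l 3) (a (b (l 3) (l 345375871975)) (b (l 304573672759) (a (l 238538521511) (l 16804416))))) (b (a (l 298668137927) (b (l 239075394103) (l 16808776))) (a (b (l 16855344) (l 16834592)) (l 16850592)))) (a (b (a (b (a (l 285246294247) (l 264845256743)) (l 16821104)) (l 16848704)) (l 16912248)) (l 16940392))) (b (l 17051680) (l 17001080)))) (b (l 1) (a (l 17156984) (l 1)))) (a (b (a (b (a (l 17055864) (l 17108264)) (l 17282888)) (l 17210720)) (a (l 17638752) (l 17510064))) (b (a (l 17123464) (l 17151944)) (a (l 17361136) (l 17271600)))))), by decide +kernel⟩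

theorem s35_pp_101 : ∃ t, chk3 f_pp_101 t 18 61 1 = true := ex3_a k29_pp_101 k30_pp_101

theorem s36_pp_101 : ∃ t, chk3 f_pp_101 t 18 30 1 = true := ex3_b k28_pp_101 s35_pp_101

theorem s37_pp_101 : ∃ t, chk3 f_pp_101 t 9 30 1 = true := ex3_a s36_pp_101 k31_pp_101

theorem s38_pp_101 : ∃ t, chk3 f_pp_101 t 9 15 1 = true := ex3_b s37_pp_101 k32_pp_101

theorem s39_pp_101 : ∃ t, chk3 f_pp_101 t 35 124 1 = true := ex3_a k24_pp_101 k25_pp_101

theorem s40_pp_101 : ∃ t, chk3 f_pp_101 t 35 62 1 = true := ex3_b s39_pp_101 k26_pp_101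

theorem s41_pp_101 : ∃ t, chk3 f_pp_101 t 69 250 1 = true := ex3_a k21_pp_101 k22_pp_101

theorem s42_pp_101 : ∃ t, chk3 f_pp_101 t 69 125 1 = true := ex3_b s41_pp_101 k23_pp_101

theorem s43_pp_101 : ∃ t, chk3 f_pp_101 t 68 251 1 = true := ex3_a k19_pp_101 k20_pp_101

theorem s44_pp_101 : ∃ t, chk3 f_pp_101 t 68 125 1 = true := ex3_b k18_pp_101 s43_pp_101

theorem s45_pp_101 : ∃ t, chk3 f_pp_101 t 34 125 1 = true := ex3_a s44_pp_101 s42_pp_101

theorem s46_pp_101 : ∃ t, chk3 f_pp_101 t 34 62 1 = true := ex3_b k17_pp_101 s45_pp_101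

theorem s47_pp_101 : ∃ t, chk3 f_pp_101 t 17 62 1 = true := ex3_a s46_pp_101 s40_pp_101

theorem s48_pp_101 : ∃ t, chk3 f_pp_101 t 17 31 1 = true := ex3_b s47_pp_101 k27_pp_101

theorem s49_pp_101 : ∃ t, chk3 f_pp_101 t 134 505 1 = true := ex3_a k12_pp_101 k13_pp_101

theorem s50_pp_101 : ∃ t, chk3 f_pp_101 t 134 252 1 = true := ex3_b k11_pp_101 s49_pp_101

theorem s51_pp_101 : ∃ t, chk3 f_pp_101 t 67 252 1 = true := ex3_a s50_pp_101 k14_pp_101

theorem s52_pp_101 : ∃ t, chk3 f_pp_101 t 67 126 1 = true := ex3_b s51_pp_101 k15_pp_101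

theorem s53_pp_101 : ∃ t, chk3 f_pp_101 t 133 506 1 = true := ex3_a k8_pp_101 k9_pp_101

theorem s54_pp_101 : ∃ t, chk3 f_pp_101 t 133 253 1 = true := ex3_b s53_pp_101 k10_pp_101

theorem s55_pp_101 : ∃ t, chk3 f_pp_101 t 66 253 1 = true := ex3_a k7_pp_101 s54_pp_101

theorem s56_pp_101 : ∃ t, chk3 f_pp_101 t 66 126 1 = true := ex3_b k6_pp_101 s55_pp_101

theorem s57_pp_101 : ∃ t, chk3 f_pp_101 t 33 126 1 = true := ex3_a s56_pp_101 s52_pp_101

theorem s58_pp_101 : ∃ t, chk3 f_pp_101 t 33 63 1 = true := ex3_b s57_pp_101 k16_pp_101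

theorem s59_pp_101 : ∃ t, chk3 f_pp_101 t 16 63 1 = true := ex3_a k5_pp_101 s58_pp_101

theorem s60_pp_101 : ∃ t, chk3 f_pp_101 t 16 31 1 = true := ex3_b k4_pp_101 s59_pp_101

theorem s61_pp_101 : ∃ t, chk3 f_pp_101 t 8 31 1 = true := ex3_a s60_pp_101 s48_pp_101

theorem s62_pp_101 : ∃ t, chk3 f_pp_101 t 8 15 1 = true := ex3_b k3_pp_101 s61_pp_101

theorem s63_pp_101 : ∃ t, chk3 f_pp_101 t 4 15 1 = true := ex3_a s62_pp_101 s38_pp_101

theorem s64_pp_101 : ∃ t, chk3 f_pp_101 t 4 7 1 = true := ex3_b k2_pp_101 s63_pp_101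

theorem s65_pp_101 : ∃ t, chk3 f_pp_101 t 2 7 1 = true := ex3_a s64_pp_101 k33_pp_101

theorem s66_pp_101 : ∃ t, chk3 f_pp_101 t 2 3 1 = true := ex3_b k1_pp_101 s65_pp_101

theorem s67_pp_101 : ∃ t, chk3 f_pp_101 t 2 1 1 = true := ex3_b k0_pp_101 s66_pp_101

theorem s68_pp_101 : ∃ t, chk3 f_pp_101 t 1 1 1 = true := ex3_a s67_pp_101 k34_pp_101

theorem c_pp_101 : CertN 536870912 536870912 536870912 536870912 33554432 16777216 3 false true true .npn 1 0 1
    ndN4q1 ndN0q1 pcN0 cut_pp_101 Ext.none :=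
  certNK2 (fam := false) (s1 := true) (s2 := true) (a := 1) (b := 0) (c := 1) (cn := .npn) (n1 := ndN4q1) (n2 := ndN0q1) (pc := pcN0) (cut := cut_pp_101) (xt := Ext.none) (P1 := 536870912) (W1 := 536870912) (P2 := 536870912) (W2 := 536870912) (P3 := 33554432) (W3 := 16777216) (N0 := 3)
    rfl rfl rfl (fun _ => rfl) s68_pp_101

noncomputable def cut_pp_102 : Cut := Cut.of [[⟨0, 1, 0, 33554432⟩, ⟨1, 0, 0, 33554432⟩, ⟨2, 1, 0, 33554432⟩]]

noncomputable def f_pp_102 : ℕ → ℕ → ℕ → ℕ → Bool := onCell 536870912 536870912 0 536870912 33554432 16777216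
    (rowNK 3 0 false true true .npp 1 0 2 (qsf 536870912 536870912 0 536870912 0) ndN4q1 ndN0q2 pcN0 cut_pp_102 Ext.none)

def k0_pp_102 : ∃ t, chk3 f_pp_102 t 1 1 1 = true :=
  ⟨(a (b (a (b (l 2) (b (l 2) (b (l 2) (l 17350120)))) (b (b (l 18646472) (a (l 18487128) (l 18786864))) (b (l 18368656) (l 18070320)))) (b (b (a (l 17359280) (l 17981480)) (l 17730560)) (b (l 17763960) (a (l 17503568) (l 17993408))))) (b (a (b (a (b (l 19053328) (l 19051104)) (c (l 19502832) (l 19111336))) (b (l 19001832) (l 18837984))) (b (a (c (l 19868264) (l 19395400)) (c (b (l 20246672) (l 19800320)) (l 19707288))) (a (l 19549640) (b (l 19753416) (l 19856480))))) (a (b (a (l 18534872) (l 18914440)) (b (l 18571680) (b (l 18380184) (a (l 18137616) (l 18233288))))) (b (a (b (l 19388600) (l 19282504)) (b (l 19880584) (a (l 19618456) (l 19794120)))) (b (a (l 18988744) (a (l 19134384) (a (l 19052768) (a (l 18879544) (l 18657552))))) (a (b (l 18575016) (b (l 18274152) (a (l 18096472) (l 17920408))))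 (b (a (l 18393584) (a (l 17788472) (b (l 17012632) (l 16841568)))) (a (b (l 17824720) (b (l 17482536) (a (l 17463440) (l 16913728)))) (b (a (l 16743208) (a (l 16737848) (l 6))) (a (b (l 16762976) (b (l 16771576) (l 16775584))) (l 6))))))))))), by decide +kernel⟩

theorem c_pp_102 : CertN 536870912 536870912 0 536870912 33554432 16777216 3 false true true .npp 1 0 2
    ndN4q1 ndN0q2 pcN0 cut_pp_102 Ext.none :=
  certNK0 (fam := false) (s1 := true) (s2 := true) (a := 1) (b := 0) (c := 2) (cn := .npp) (n1 := ndN4q1) (n2 := ndN0q2) (pc := pcN0) (cut := cut_pp_102) (xt := Ext.none) (P1 := 536870912) (W1 := 536870912) (P2 := 0) (W2 := 536870912) (P3 := 33554432) (W3 := 16777216) (N0 := 3)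
    rfl rfl rfl k0_pp_102

noncomputable def f_pp_112 : ℕ → ℕ → ℕ → ℕ → Bool := onCell 536870912 536870912 0 536870912 33554432 16777216
    (rowNK 3 2 false true true .dn 1 1 2 (qsf 536870912 536870912 0 536870912 1) ndN4q1 ndN0q2 pcN1 Cut.none Ext.none)

def k0_pp_112 : ∃ t, chk3 f_pp_112 t 1 1 1 = true :=
  ⟨(a (b (a (l 19063192) (l 18915056)) (b (l 18948784) (l 19213128))) (l 1)), by decide +kernel⟩

theorem c_pp_112 : CertN 536870912 536870912 0 536870912 33554432 16777216 3 false true true .dn 1 1 2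
    ndN4q1 ndN0q2 pcN1 Cut.none Ext.none :=
  certNK2 (fam := false) (s1 := true) (s2 := true) (a := 1) (b := 1) (c := 2) (cn := .dn) (n1 := ndN4q1) (n2 := ndN0q2) (pc := pcN1) (cut := Cut.none) (xt := Ext.none) (P1 := 536870912) (W1 := 536870912) (P2 := 0) (W2 := 536870912) (P3 := 33554432) (W3 := 16777216) (N0 := 3)
    rfl rfl rfl (fun _ => rfl) k0_pp_112

noncomputable def cut_pp_202 : Cut := Cut.of [[⟨0, 1, 0, 33554432⟩, ⟨1, 0, 0, 33554432⟩, ⟨2, 1, 0, 33554432⟩]]

noncomputable def f_pp_202 : ℕ → ℕ → ℕ → ℕ → Bool := onCell 0 536870912 0 536870912 33554432 16777216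
    (rowNK 3 2 false true true .pp 2 0 2 (qsf 1073741824 536870912 0 536870912 0) ndN4q2 ndN0q2 pcN0 cut_pp_202 Ext.none)

def k0_pp_202 : ∃ t, chk3 f_pp_202 t 1 1 1 = true :=
  ⟨(a (b (a (b (b (c (l 20717224) (l 19469536)) (c (l 20368184) (l 19262128))) (a (c (b (l 19614848) (l 19170504)) (l 19020776)) (c (l 19581088) (l 19775616)))) (a (b (c (l 20152216) (l 19899192)) (l 20165416)) (l 1))) (a (b (a (b (a (l 18879200) (l 19267864)) (a (l 18706512) (l 19220272))) (b (l 19950408) (a (l 19721472) (l 19989344)))) (b (a (a (b (l 18125480) (b (l 17626600) (c (l 17429808) (l 17131824)))) (b (l 18794680) (a (l 17709976) (l 17749816)))) (a (b (l 19064856) (l 1)) (l 1))) (a (a (b (b (a (a (l 17233280) (l 17117488)) (c (l 17017992) (l 16849272))) (a (l 6) (a (l 6) (l 16825600)))) (a (l 6) (a (l 6) (l 1)))) (b (a (l 294776005591) (l 1)) (l 1))) (l 1)))) (b (l 1) (l 1)))) (l 1)), by decide +kernel⟩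

theorem c_pp_202 : CertN 1073741824 536870912 0 536870912 33554432 16777216 3 false true true .pp 2 0 2
    ndN4q2 ndN0q2 pcN0 cut_pp_202 Ext.none :=
  certNK2 (fam := false) (s1 := true) (s2 := true) (a := 2) (b := 0) (c := 2) (cn := .pp) (n1 := ndN4q2) (n2 := ndN0q2) (pc := pcN0) (cut := cut_pp_202) (xt := Ext.none) (P1 := 1073741824) (W1 := 536870912) (P2 := 0) (W2 := 536870912) (P3 := 33554432) (W3 := 16777216) (N0 := 3)
    rfl rfl rfl (fun _ => rfl) k0_pp_202

noncomputable def f_pm_001 : ℕ → ℕ → ℕ → ℕ → Bool := onCell 0 536870912 536870912 536870912 33554432 16777216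
    (rowNK 3 0 false true false .up 0 0 1 (qsf 0 536870912 536870912 536870912 0) ndN4q0 ndN0q1 pcN0 Cut.none Ext.none)

def k0_pm_001 : ∃ t, chk3 f_pm_001 t 1 1 1 = true :=
  ⟨(l 4), by decide +kernel⟩

theorem c_pm_001 : CertN 0 536870912 536870912 536870912 33554432 16777216 3 false true false .up 0 0 1
    ndN4q0 ndN0q1 pcN0 Cut.none Ext.none :=
  certNK0 (fam := false) (s1 := true) (s2 := false) (a := 0) (b := 0) (c := 1) (cn := .up) (n1 := ndN4q0) (n2 := ndN0q1) (pc := pcN0) (cut := Cut.none) (xt := Ext.none) (P1 := 0) (W1 := 536870912) (P2 := 536870912) (W2 := 536870912) (P3 := 33554432) (W3 := 16777216) (N0 := 3)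
    rfl rfl rfl k0_pm_001

noncomputable def f_pm_011 : ℕ → ℕ → ℕ → ℕ → Bool := onCell 0 536870912 536870912 536870912 33554432 16777216
    (rowNK 3 0 false true false .pnn 0 1 1 (qsf 0 536870912 536870912 536870912 1) ndN4q0 ndN0q1 pcN1 Cut.none Ext.none)

def k0_pm_011 : ∃ t, chk3 f_pm_011 t 1 1 1 = true :=
  ⟨(l 4), by decide +kernel⟩

theorem c_pm_011 : CertN 0 536870912 536870912 536870912 33554432 16777216 3 false true false .pnn 0 1 1
    ndN4q0 ndN0q1 pcN1 Cut.none Ext.none :=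
  certNK0 (fam := false) (s1 := true) (s2 := false) (a := 0) (b := 1) (c := 1) (cn := .pnn) (n1 := ndN4q0) (n2 := ndN0q1) (pc := pcN1) (cut := Cut.none) (xt := Ext.none) (P1 := 0) (W1 := 536870912) (P2 := 536870912) (W2 := 536870912) (P3 := 33554432) (W3 := 16777216) (N0 := 3)
    rfl rfl rfl k0_pm_011

noncomputable def f_pm_012 : ℕ → ℕ → ℕ → ℕ → Bool := onCell 0 536870912 0 536870912 33554432 16777216
    (rowNK 3 0 false true false .pnp 0 1 2 (qsf 0 536870912 0 536870912 1) ndN4q0 ndN0q2 pcN1 Cut.none Ext.none)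

def k0_pm_012 : ∃ t, chk3 f_pm_012 t 1 1 1 = true :=
  ⟨(a (l 4) (l 4)), by decide +kernel⟩

theorem c_pm_012 : CertN 0 536870912 0 536870912 33554432 16777216 3 false true false .pnp 0 1 2
    ndN4q0 ndN0q2 pcN1 Cut.none Ext.none :=
  certNK0 (fam := false) (s1 := true) (s2 := false) (a := 0) (b := 1) (c := 2) (cn := .pnp) (n1 := ndN4q0) (n2 := ndN0q2) (pc := pcN1) (cut := Cut.none) (xt := Ext.none) (P1 := 0) (W1 := 536870912) (P2 := 0) (W2 := 536870912) (P3 := 33554432) (W3 := 16777216) (N0 := 3)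
    rfl rfl rfl k0_pm_012

noncomputable def f_pm_022 : ℕ → ℕ → ℕ → ℕ → Bool := onCell 1073741824 536870912 0 536870912 33554432 16777216
    (rowNK 3 2 false true false .pp 0 2 2 (qsf 0 536870912 0 536870912 2) ndN4q0 ndN0q2 pcN2 Cut.none Ext.none)

def k0_pm_022 : ∃ t, chk3 f_pm_022 t 1 1 1 = true :=
  ⟨(l 4), by decide +kernel⟩

theorem c_pm_022 : CertN 0 536870912 0 536870912 33554432 16777216 3 false true false .pp 0 2 2
    ndN4q0 ndN0q2 pcN2 Cut.none Ext.none :=
  certNK2 (fam := false) (s1 := true) (s2 := false) (a := 0) (b := 2) (c := 2) (cn := .pp) (n1 := ndN4q0) (n2 := ndN0q2) (pc := pcN2) (cut := Cut.none) (xt := Ext.none) (P1 := 0) (W1 := 536870912) (P2 := 0) (W2 := 536870912) (P3 := 33554432) (W3 := 16777216) (N0 := 3)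
    rfl rfl rfl (fun _ => rfl) k0_pm_022

noncomputable def f_pm_101 : ℕ → ℕ → ℕ → ℕ → Bool := onCell 536870912 536870912 536870912 536870912 33554432 16777216
    (rowNK 3 0 false true false .npn 1 0 1 (qsf 536870912 536870912 536870912 536870912 0) ndN4q1 ndN0q1 pcN0 Cut.none Ext.none)

def k0_pm_101 : ∃ t, chk3 f_pm_101 t 1 1 1 = true :=
  ⟨(l 4), by decide +kernel⟩

theorem c_pm_101 : CertN 536870912 536870912 536870912 536870912 33554432 16777216 3 false true false .npn 1 0 1
    ndN4q1 ndN0q1 pcN0 Cut.none Ext.none :=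
  certNK0 (fam := false) (s1 := true) (s2 := false) (a := 1) (b := 0) (c := 1) (cn := .npn) (n1 := ndN4q1) (n2 := ndN0q1) (pc := pcN0) (cut := Cut.none) (xt := Ext.none) (P1 := 536870912) (W1 := 536870912) (P2 := 536870912) (W2 := 536870912) (P3 := 33554432) (W3 := 16777216) (N0 := 3)
    rfl rfl rfl k0_pm_101

noncomputable def f_pm_102 : ℕ → ℕ → ℕ → ℕ → Bool := onCell 536870912 536870912 0 536870912 33554432 16777216
    (rowNK 3 0 false true false .npp 1 0 2 (qsf 536870912 536870912 0 536870912 0) ndN4q1 ndN0q2 pcN0 Cut.none Ext.none)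

def k0_pm_102 : ∃ t, chk3 f_pm_102 t 1 1 1 = true :=
  ⟨(a (b (b (a (l 2) (a (l 18415384) (l 18686184))) (l 4)) (l 4)) (b (a (a (b (l 18924888) (l 18884128)) (b (l 19152848) (l 19107768))) (b (a (l 19327016) (l 19488184)) (a (l 19489576) (l 19566912)))) (l 4))), by decide +kernel⟩

theorem c_pm_102 : CertN 536870912 536870912 0 536870912 33554432 16777216 3 false true false .npp 1 0 2
    ndN4q1 ndN0q2 pcN0 Cut.none Ext.none :=
  certNK0 (fam := false) (s1 := true) (s2 := false) (a := 1) (b := 0) (c := 2) (cn := .npp) (n1 := ndN4q1) (n2 := ndN0q2) (pc := pcN0) (cut := Cut.none) (xt := Ext.none) (P1 := 536870912) (W1 := 536870912) (P2 := 0) (W2 := 536870912) (P3 := 33554432) (W3 := 16777216) (N0 := 3)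
    rfl rfl rfl k0_pm_102

noncomputable def f_pm_112 : ℕ → ℕ → ℕ → ℕ → Bool := onCell 536870912 536870912 0 536870912 33554432 16777216
    (rowNK 3 0 false true false .dn 1 1 2 (qsf 536870912 536870912 0 536870912 1) ndN4q1 ndN0q2 pcN1 Cut.none Ext.none)

def k0_pm_112 : ∃ t, chk3 f_pm_112 t 1 1 1 = true :=
  ⟨(a (b (a (l 18762304) (l 18864096)) (l 4)) (l 1)), by decide +kernel⟩

theorem c_pm_112 : CertN 536870912 536870912 0 536870912 33554432 16777216 3 false true false .dn 1 1 2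
    ndN4q1 ndN0q2 pcN1 Cut.none Ext.none :=
  certNK0 (fam := false) (s1 := true) (s2 := false) (a := 1) (b := 1) (c := 2) (cn := .dn) (n1 := ndN4q1) (n2 := ndN0q2) (pc := pcN1) (cut := Cut.none) (xt := Ext.none) (P1 := 536870912) (W1 := 536870912) (P2 := 0) (W2 := 536870912) (P3 := 33554432) (W3 := 16777216) (N0 := 3)
    rfl rfl rfl k0_pm_112

noncomputable def f_pm_202 : ℕ → ℕ → ℕ → ℕ → Bool := onCell 0 536870912 0 536870912 33554432 16777216
    (rowNK 3 2 false true false .pp 2 0 2 (qsf 1073741824 536870912 0 536870912 0) ndN4q2 ndN0q2 pcN0 Cut.none Ext.none)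

def k0_pm_202 : ∃ t, chk3 f_pm_202 t 1 1 1 = true :=
  ⟨(a (b (a (b (c (l 20328608) (l 19337768)) (a (l 19560496) (l 19568280))) (a (b (l 19569392) (l 19570504)) (l 1))) (a (b (a (l 19993000) (l 20021640)) (l 4)) (l 4))) (l 1)), by decide +kernel⟩

theorem c_pm_202 : CertN 1073741824 536870912 0 536870912 33554432 16777216 3 false true false .pp 2 0 2
    ndN4q2 ndN0q2 pcN0 Cut.none Ext.none :=
  certNK2 (fam := false) (s1 := true) (s2 := false) (a := 2) (b := 0) (c := 2) (cn := .pp) (n1 := ndN4q2) (n2 := ndN0q2) (pc := pcN0) (cut := Cut.none) (xt := Ext.none) (P1 := 1073741824) (W1 := 536870912) (P2 := 0) (W2 := 536870912) (P3 := 33554432) (W3 := 16777216) (N0 := 3)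
    rfl rfl rfl (fun _ => rfl) k0_pm_202

noncomputable def f_mm_001 : ℕ → ℕ → ℕ → ℕ → Bool := onCell 0 536870912 536870912 536870912 33554432 16777216
    (rowNK 3 0 false false false .up 0 0 1 (qsf 0 536870912 536870912 536870912 0) ndN4q0 ndN0q1 pcN0 Cut.none Ext.none)

def k0_mm_001 : ∃ t, chk3 f_mm_001 t 1 1 1 = true :=
  ⟨(l 5), by decide +kernel⟩

theorem c_mm_001 : CertN 0 536870912 536870912 536870912 33554432 16777216 3 false false false .up 0 0 1
    ndN4q0 ndN0q1 pcN0 Cut.none Ext.none :=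
  certNK0 (fam := false) (s1 := false) (s2 := false) (a := 0) (b := 0) (c := 1) (cn := .up) (n1 := ndN4q0) (n2 := ndN0q1) (pc := pcN0) (cut := Cut.none) (xt := Ext.none) (P1 := 0) (W1 := 536870912) (P2 := 536870912) (W2 := 536870912) (P3 := 33554432) (W3 := 16777216) (N0 := 3)
    rfl rfl rfl k0_mm_001

noncomputable def f_mm_011 : ℕ → ℕ → ℕ → ℕ → Bool := onCell 0 536870912 536870912 536870912 33554432 16777216
    (rowNK 3 0 false false false .pnn 0 1 1 (qsf 0 536870912 536870912 536870912 1) ndN4q0 ndN0q1 pcN1 Cut.none Ext.none)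

def k0_mm_011 : ∃ t, chk3 f_mm_011 t 1 1 1 = true :=
  ⟨(l 5), by decide +kernel⟩

theorem c_mm_011 : CertN 0 536870912 536870912 536870912 33554432 16777216 3 false false false .pnn 0 1 1
    ndN4q0 ndN0q1 pcN1 Cut.none Ext.none :=
  certNK0 (fam := false) (s1 := false) (s2 := false) (a := 0) (b := 1) (c := 1) (cn := .pnn) (n1 := ndN4q0) (n2 := ndN0q1) (pc := pcN1) (cut := Cut.none) (xt := Ext.none) (P1 := 0) (W1 := 536870912) (P2 := 536870912) (W2 := 536870912) (P3 := 33554432) (W3 := 16777216) (N0 := 3)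
    rfl rfl rfl k0_mm_011

noncomputable def f_mm_012 : ℕ → ℕ → ℕ → ℕ → Bool := onCell 0 536870912 0 536870912 33554432 16777216
    (rowNK 3 0 false false false .pnp 0 1 2 (qsf 0 536870912 0 536870912 1) ndN4q0 ndN0q2 pcN1 Cut.none Ext.none)

def k0_mm_012 : ∃ t, chk3 f_mm_012 t 1 1 1 = true :=
  ⟨(l 5), by decide +kernel⟩

theorem c_mm_012 : CertN 0 536870912 0 536870912 33554432 16777216 3 false false false .pnp 0 1 2
    ndN4q0 ndN0q2 pcN1 Cut.none Ext.none :=
  certNK0 (fam := false) (s1 := false) (s2 := false) (a := 0) (b := 1) (c := 2) (cn := .pnp) (n1 := ndN4q0) (n2 := ndN0q2) (pc := pcN1) (cut := Cut.none) (xt := Ext.none) (P1 := 0) (W1 := 536870912) (P2 := 0) (W2 := 536870912) (P3 := 33554432) (W3 := 16777216) (N0 := 3)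
    rfl rfl rfl k0_mm_012

noncomputable def f_mm_022 : ℕ → ℕ → ℕ → ℕ → Bool := onCell 0 536870912 0 536870912 33554432 16777216
    (rowNK 3 0 false false false .pp 0 2 2 (qsf 0 536870912 0 536870912 2) ndN4q0 ndN0q2 pcN2 Cut.none Ext.none)

def k0_mm_022 : ∃ t, chk3 f_mm_022 t 1 1 1 = true :=
  ⟨(l 5), by decide +kernel⟩

theorem c_mm_022 : CertN 0 536870912 0 536870912 33554432 16777216 3 false false false .pp 0 2 2
    ndN4q0 ndN0q2 pcN2 Cut.none Ext.none :=
  certNK0 (fam := false) (s1 := false) (s2 := false) (a := 0) (b := 2) (c := 2) (cn := .pp) (n1 := ndN4q0) (n2 := ndN0q2) (pc := pcN2) (cut := Cut.none) (xt := Ext.none) (P1 := 0) (W1 := 536870912) (P2 := 0) (W2 := 536870912) (P3 := 33554432) (W3 := 16777216) (N0 := 3)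
    rfl rfl rfl k0_mm_022

noncomputable def f_mm_101 : ℕ → ℕ → ℕ → ℕ → Bool := onCell 0 536870912 536870912 536870912 33554432 16777216
    (rowNK 3 2 false false false .npn 1 0 1 (qsf 536870912 536870912 536870912 536870912 0) ndN4q1 ndN0q1 pcN0 Cut.none Ext.none)

def k0_mm_101 : ∃ t, chk3 f_mm_101 t 1 1 1 = true :=
  ⟨(l 5), by decide +kernel⟩

theorem c_mm_101 : CertN 536870912 536870912 536870912 536870912 33554432 16777216 3 false false false .npn 1 0 1
    ndN4q1 ndN0q1 pcN0 Cut.none Ext.none :=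
  certNK2 (fam := false) (s1 := false) (s2 := false) (a := 1) (b := 0) (c := 1) (cn := .npn) (n1 := ndN4q1) (n2 := ndN0q1) (pc := pcN0) (cut := Cut.none) (xt := Ext.none) (P1 := 536870912) (W1 := 536870912) (P2 := 536870912) (W2 := 536870912) (P3 := 33554432) (W3 := 16777216) (N0 := 3)
    rfl rfl rfl (fun _ => rfl) k0_mm_101

noncomputable def f_mm_102 : ℕ → ℕ → ℕ → ℕ → Bool := onCell 536870912 536870912 0 536870912 33554432 16777216
    (rowNK 3 0 false false false .npp 1 0 2 (qsf 536870912 536870912 0 536870912 0) ndN4q1 ndN0q2 pcN0 Cut.none Ext.none)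

def k0_mm_102 : ∃ t, chk3 f_mm_102 t 1 1 1 = true :=
  ⟨(l 5), by decide +kernel⟩

theorem c_mm_102 : CertN 536870912 536870912 0 536870912 33554432 16777216 3 false false false .npp 1 0 2
    ndN4q1 ndN0q2 pcN0 Cut.none Ext.none :=
  certNK0 (fam := false) (s1 := false) (s2 := false) (a := 1) (b := 0) (c := 2) (cn := .npp) (n1 := ndN4q1) (n2 := ndN0q2) (pc := pcN0) (cut := Cut.none) (xt := Ext.none) (P1 := 536870912) (W1 := 536870912) (P2 := 0) (W2 := 536870912) (P3 := 33554432) (W3 := 16777216) (N0 := 3)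
    rfl rfl rfl k0_mm_102

noncomputable def f_mm_112 : ℕ → ℕ → ℕ → ℕ → Bool := onCell 536870912 536870912 0 536870912 33554432 16777216
    (rowNK 3 0 false false false .dn 1 1 2 (qsf 536870912 536870912 0 536870912 1) ndN4q1 ndN0q2 pcN1 Cut.none Ext.none)

def k0_mm_112 : ∃ t, chk3 f_mm_112 t 1 1 1 = true :=
  ⟨(l 5), by decide +kernel⟩

theorem c_mm_112 : CertN 536870912 536870912 0 536870912 33554432 16777216 3 false false false .dn 1 1 2
    ndN4q1 ndN0q2 pcN1 Cut.none Ext.none :=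
  certNK0 (fam := false) (s1 := false) (s2 := false) (a := 1) (b := 1) (c := 2) (cn := .dn) (n1 := ndN4q1) (n2 := ndN0q2) (pc := pcN1) (cut := Cut.none) (xt := Ext.none) (P1 := 536870912) (W1 := 536870912) (P2 := 0) (W2 := 536870912) (P3 := 33554432) (W3 := 16777216) (N0 := 3)
    rfl rfl rfl k0_mm_112

noncomputable def f_mm_202 : ℕ → ℕ → ℕ → ℕ → Bool := onCell 1073741824 536870912 0 536870912 33554432 16777216
    (rowNK 3 0 false false false .pp 2 0 2 (qsf 1073741824 536870912 0 536870912 0) ndN4q2 ndN0q2 pcN0 Cut.none Ext.none)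

def k0_mm_202 : ∃ t, chk3 f_mm_202 t 1 1 1 = true :=
  ⟨(l 5), by decide +kernel⟩

theorem c_mm_202 : CertN 1073741824 536870912 0 536870912 33554432 16777216 3 false false false .pp 2 0 2
    ndN4q2 ndN0q2 pcN0 Cut.none Ext.none :=
  certNK0 (fam := false) (s1 := false) (s2 := false) (a := 2) (b := 0) (c := 2) (cn := .pp) (n1 := ndN4q2) (n2 := ndN0q2) (pc := pcN0) (cut := Cut.none) (xt := Ext.none) (P1 := 1073741824) (W1 := 536870912) (P2 := 0) (W2 := 536870912) (P3 := 33554432) (W3 := 16777216) (N0 := 3)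
    rfl rfl rfl k0_mm_202

end Pool.Agent.Strip051.G.I1_32_3_64.Tab.C.NB40

namespace Pool.Agent.Strip051.G.I1_32_3_64.Tab.C.NB41

open Pool.Agent.Strip051.PB Pool.Agent.Strip051.PB.T
open Pool.Agent.Strip051.G.I1_32_3_64.Tab

noncomputable def f_pp_001 : ℕ → ℕ → ℕ → ℕ → Bool := onCell 0 536870912 0 536870912 33554432 16777216
    (rowNK 3 1 false true true .up 0 0 1 (qsf 0 536870912 536870912 536870912 0) ndN4q0 ndN1q1 pcN0 Cut.none Ext.none)

def k0_pp_001 : ∃ t, chk3 f_pp_001 t 1 1 1 = true :=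
  ⟨(l 3), by decide +kernel⟩

theorem c_pp_001 : CertN 0 536870912 536870912 536870912 33554432 16777216 3 false true true .up 0 0 1
    ndN4q0 ndN1q1 pcN0 Cut.none Ext.none :=
  certNK1 (fam := false) (s1 := true) (s2 := true) (a := 0) (b := 0) (c := 1) (cn := .up) (n1 := ndN4q0) (n2 := ndN1q1) (pc := pcN0) (cut := Cut.none) (xt := Ext.none) (P1 := 0) (W1 := 536870912) (P2 := 536870912) (W2 := 536870912) (P3 := 33554432) (W3 := 16777216) (N0 := 3)
    rfl rfl rfl (fun _ => rfl) k0_pp_001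

noncomputable def f_pp_011 : ℕ → ℕ → ℕ → ℕ → Bool := onCell 536870912 536870912 536870912 536870912 33554432 16777216
    (rowNK 3 2 false true true .pnn 0 1 1 (qsf 0 536870912 536870912 536870912 1) ndN4q0 ndN1q1 pcN1 Cut.none Ext.none)

def k0_pp_011 : ∃ t, chk3 f_pp_011 t 1 1 1 = true :=
  ⟨(a (l 3) (a (b (l 3) (b (l 18578472) (l 18973576))) (b (l 1) (a (l 19124448) (l 19386192))))), by decide +kernel⟩

theorem c_pp_011 : CertN 0 536870912 536870912 536870912 33554432 16777216 3 false true true .pnn 0 1 1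
    ndN4q0 ndN1q1 pcN1 Cut.none Ext.none :=
  certNK2 (fam := false) (s1 := true) (s2 := true) (a := 0) (b := 1) (c := 1) (cn := .pnn) (n1 := ndN4q0) (n2 := ndN1q1) (pc := pcN1) (cut := Cut.none) (xt := Ext.none) (P1 := 0) (W1 := 536870912) (P2 := 536870912) (W2 := 536870912) (P3 := 33554432) (W3 := 16777216) (N0 := 3)
    rfl rfl rfl (fun _ => rfl) k0_pp_011

noncomputable def f_pp_012_a : ℕ → ℕ → ℕ → ℕ → Bool := onCell 536870912 536870912 0 536870912 33554432 16777216
    (rowNK 3 2 false true true .pnp 0 1 2 (qsf 0 536870912 0 536870912 1) ndN4q0 ndN1q2a pcN1 Cut.none Ext.none)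

def k0_pp_012_a : ∃ t, chk3 f_pp_012_a t 1 1 1 = true :=
  ⟨(a (b (a (l 19052360) (l 18921168)) (a (l 19344976) (l 19195184))) (a (b (l 19076920) (l 19339608)) (a (b (l 19245416) (l 19487896)) (a (l 19500712) (a (l 19556480) (a (l 19588008) (l 19611352))))))), by decide +kernel⟩

theorem c_pp_012_a : CertN 0 536870912 0 536870912 33554432 16777216 3 false true true .pnp 0 1 2
    ndN4q0 ndN1q2a pcN1 Cut.none Ext.none :=
  certNK2 (fam := false) (s1 := true) (s2 := true) (a := 0) (b := 1) (c := 2) (cn := .pnp) (n1 := ndN4q0) (n2 := ndN1q2a) (pc := pcN1) (cut := Cut.none) (xt := Ext.none) (P1 := 0) (W1 := 536870912) (P2 := 0) (W2 := 536870912) (P3 := 33554432) (W3 := 16777216) (N0 := 3)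
    rfl rfl rfl (fun _ => rfl) k0_pp_012_a

noncomputable def f_pp_012_b : ℕ → ℕ → ℕ → ℕ → Bool := onCell 0 536870912 536870912 536870912 33554432 16777216
    (rowNK 3 1 false true true .pnp 0 1 2 (qsf 0 536870912 1239849684 370763052 1) ndN4q0 ndN1q2b pcN1 Cut.none Ext.none)

def k0_pp_012_b : ∃ t, chk3 f_pp_012_b t 1 1 1 = true :=
  ⟨(a (b (l 1) (b (l 1) (b (l 19728888) (b (l 19673304) (b (l 19658968) (b (l 19654544) (l 19650744))))))) (b (a (l 1) (l 19089144)) (b (a (l 19163544) (l 18681736)) (b (l 18823016) (b (l 18888224) (b (l 18941232) (b (l 18972400) (l 18994200)))))))), by decide +kernel⟩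

theorem c_pp_012_b : CertN 0 536870912 1239849684 370763052 33554432 16777216 3 false true true .pnp 0 1 2
    ndN4q0 ndN1q2b pcN1 Cut.none Ext.none :=
  certNK1 (fam := false) (s1 := true) (s2 := true) (a := 0) (b := 1) (c := 2) (cn := .pnp) (n1 := ndN4q0) (n2 := ndN1q2b) (pc := pcN1) (cut := Cut.none) (xt := Ext.none) (P1 := 0) (W1 := 536870912) (P2 := 1239849684) (W2 := 370763052) (P3 := 33554432) (W3 := 16777216) (N0 := 3)
    rfl rfl rfl (fun _ => rfl) k0_pp_012_b

noncomputable def f_pp_022_a : ℕ → ℕ → ℕ → ℕ → Bool := onCell 0 536870912 0 536870912 33554432 16777216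
    (rowNK 3 0 false true true .pp 0 2 2 (qsf 0 536870912 0 536870912 2) ndN4q0 ndN1q2a pcN2 Cut.none Ext.none)

def k0_pp_022_a : ∃ t, chk3 f_pp_022_a t 1 1 1 = true :=
  ⟨(a (b (a (l 19588248) (l 19620456)) (a (l 19843816) (l 19705384))) (l 1)), by decide +kernel⟩

theorem c_pp_022_a : CertN 0 536870912 0 536870912 33554432 16777216 3 false true true .pp 0 2 2
    ndN4q0 ndN1q2a pcN2 Cut.none Ext.none :=
  certNK0 (fam := false) (s1 := true) (s2 := true) (a := 0) (b := 2) (c := 2) (cn := .pp) (n1 := ndN4q0) (n2 := ndN1q2a) (pc := pcN2) (cut := Cut.none) (xt := Ext.none) (P1 := 0) (W1 := 536870912) (P2 := 0) (W2 := 536870912) (P3 := 33554432) (W3 := 16777216) (N0 := 3)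
    rfl rfl rfl k0_pp_022_a

noncomputable def f_pp_022_b : ℕ → ℕ → ℕ → ℕ → Bool := onCell 1073741824 536870912 1239849684 370763052 33554432 16777216
    (rowNK 3 2 false true true .pp 0 2 2 (qsf 0 536870912 1239849684 370763052 2) ndN4q0 ndN1q2b pcN2 Cut.none Ext.none)

def k0_pp_022_b : ∃ t, chk3 f_pp_022_b t 1 1 1 = true :=
  ⟨(a (a (b (l 19372288) (l 18893608)) (l 4)) (l 4)), by decide +kernel⟩

theorem c_pp_022_b : CertN 0 536870912 1239849684 370763052 33554432 16777216 3 false true true .pp 0 2 2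
    ndN4q0 ndN1q2b pcN2 Cut.none Ext.none :=
  certNK2 (fam := false) (s1 := true) (s2 := true) (a := 0) (b := 2) (c := 2) (cn := .pp) (n1 := ndN4q0) (n2 := ndN1q2b) (pc := pcN2) (cut := Cut.none) (xt := Ext.none) (P1 := 0) (W1 := 536870912) (P2 := 1239849684) (W2 := 370763052) (P3 := 33554432) (W3 := 16777216) (N0 := 3)
    rfl rfl rfl (fun _ => rfl) k0_pp_022_b

noncomputable def f_pp_023 : ℕ → ℕ → ℕ → ℕ → Bool := onCell 0 536870912 1073741824 536870912 33554432 16777216
    (rowNK 3 1 false true true .up 0 2 3 (qsf 0 536870912 1610612736 536870912 2) ndN4q0 ndN1q3 pcN2 Cut.none Ext.none)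

def k0_pp_023 : ∃ t, chk3 f_pp_023 t 1 1 1 = true :=
  ⟨(b (b (a (l 1) (l 19545000)) (l 4)) (l 4)), by decide +kernel⟩

theorem c_pp_023 : CertN 0 536870912 1610612736 536870912 33554432 16777216 3 false true true .up 0 2 3
    ndN4q0 ndN1q3 pcN2 Cut.none Ext.none :=
  certNK1 (fam := false) (s1 := true) (s2 := true) (a := 0) (b := 2) (c := 3) (cn := .up) (n1 := ndN4q0) (n2 := ndN1q3) (pc := pcN2) (cut := Cut.none) (xt := Ext.none) (P1 := 0) (W1 := 536870912) (P2 := 1610612736) (W2 := 536870912) (P3 := 33554432) (W3 := 16777216) (N0 := 3)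
    rfl rfl rfl (fun _ => rfl) k0_pp_023

noncomputable def f_pp_033 : ℕ → ℕ → ℕ → ℕ → Bool := onCell 1610612736 536870912 1610612736 536870912 33554432 16777216
    (rowNK 3 2 false true true .pnn 0 3 3 (qsf 0 536870912 1610612736 536870912 3) ndN4q0 ndN1q3 pcN3 Cut.none Ext.none)

def k0_pp_033 : ∃ t, chk3 f_pp_033 t 1 1 1 = true :=
  ⟨(l 4), by decide +kernel⟩

theorem c_pp_033 : CertN 0 536870912 1610612736 536870912 33554432 16777216 3 false true true .pnn 0 3 3
    ndN4q0 ndN1q3 pcN3 Cut.none Ext.none :=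
  certNK2 (fam := false) (s1 := true) (s2 := true) (a := 0) (b := 3) (c := 3) (cn := .pnn) (n1 := ndN4q0) (n2 := ndN1q3) (pc := pcN3) (cut := Cut.none) (xt := Ext.none) (P1 := 0) (W1 := 536870912) (P2 := 1610612736) (W2 := 536870912) (P3 := 33554432) (W3 := 16777216) (N0 := 3)
    rfl rfl rfl (fun _ => rfl) k0_pp_033

noncomputable def f_pp_101 : ℕ → ℕ → ℕ → ℕ → Bool := onCell 536870912 536870912 536870912 536870912 33554432 16777216
    (rowNK 3 0 false true true .npn 1 0 1 (qsf 536870912 536870912 536870912 536870912 0) ndN4q1 ndN1q1 pcN0 Cut.none Ext.none)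

def k0_pp_101 : ∃ t, chk3 f_pp_101 t 1 1 1 = true :=
  ⟨(l 3), by decide +kernel⟩

theorem c_pp_101 : CertN 536870912 536870912 536870912 536870912 33554432 16777216 3 false true true .npn 1 0 1
    ndN4q1 ndN1q1 pcN0 Cut.none Ext.none :=
  certNK0 (fam := false) (s1 := true) (s2 := true) (a := 1) (b := 0) (c := 1) (cn := .npn) (n1 := ndN4q1) (n2 := ndN1q1) (pc := pcN0) (cut := Cut.none) (xt := Ext.none) (P1 := 536870912) (W1 := 536870912) (P2 := 536870912) (W2 := 536870912) (P3 := 33554432) (W3 := 16777216) (N0 := 3)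
    rfl rfl rfl k0_pp_101

noncomputable def cut_pp_102_a : Cut := Cut.of [[⟨0, 1, 0, 33554432⟩, ⟨1, 0, 0, 33554432⟩, ⟨2, 1, 0, 33554432⟩]]

noncomputable def f_pp_102_a : ℕ → ℕ → ℕ → ℕ → Bool := onCell 536870912 536870912 0 536870912 33554432 16777216
    (rowNK 3 0 false true true .npp 1 0 2 (qsf 536870912 536870912 0 536870912 0) ndN4q1 ndN1q2a pcN0 cut_pp_102_a Ext.none)

def k0_pp_102_a : ∃ t, chk3 f_pp_102_a t 1 1 1 = true :=
  ⟨(a (b (a (l 17676720) (b (l 18305624) (l 18333872))) (b (l 17983128) (a (a (l 17506728) (l 17693504)) (b (l 18139456) (l 17968968))))) (b (a (b (l 19105080) (l 19098256)) (a (l 19804048) (b (l 20471648) (l 20418072)))) (a (b (l 18956344) (b (a (l 18548136) (l 18815160)) (a (l 18261072) (l 18635448)))) (b (a (l 19552696) (a (l 19912384) (l 20116664))) (a (b (l 19072648) (b (l 18618488) (a (l 18225208) (l 18152200)))) (b (a (l 19187560) (a (l 19080408) (b (l 19176688) (l 18236472)))) (b (a (l 18417504) (a (b (l 18092224) (l 17471528))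 (b (l 17001288) (l 16722560)))) (a (b (a (l 17988448) (l 17604368)) (a (l 17575288) (b (l 17191080) (l 16911144)))) (b (a (l 16755272) (a (l 16732040) (l 6))) (a (b (l 16755840) (a (l 16771040) (l 6))) (l 6))))))))))), by decide +kernel⟩

theorem c_pp_102_a : CertN 536870912 536870912 0 536870912 33554432 16777216 3 false true true .npp 1 0 2
    ndN4q1 ndN1q2a pcN0 cut_pp_102_a Ext.none :=
  certNK0 (fam := false) (s1 := true) (s2 := true) (a := 1) (b := 0) (c := 2) (cn := .npp) (n1 := ndN4q1) (n2 := ndN1q2a) (pc := pcN0) (cut := cut_pp_102_a) (xt := Ext.none) (P1 := 536870912) (W1 := 536870912) (P2 := 0) (W2 := 536870912) (P3 := 33554432) (W3 := 16777216) (N0 := 3)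
    rfl rfl rfl k0_pp_102_a

noncomputable def cut_pp_102_b : Cut := Cut.of [[⟨0, 1, 0, 33554432⟩, ⟨1, 0, 0, 33554432⟩, ⟨2, 1, 0, 33554432⟩]]

noncomputable def f_pp_102_b : ℕ → ℕ → ℕ → ℕ → Bool := onCell 536870912 536870912 1239849684 370763052 33554432 16777216
    (rowNK 3 0 false true true .npp 1 0 2 (qsf 536870912 536870912 1239849684 370763052 0) ndN4q1 ndN1q2b pcN0 cut_pp_102_b Ext.none)

def k0_pp_102_b : ∃ t, chk3 f_pp_102_b t 1 1 1 = true :=
  ⟨(a (a (l 2) (b (b (l 18415368) (l 18604920)) (l 2))) (b (a (b (l 19260448) (l 19493328)) (b (a (l 20010504) (l 20690656)) (a (l 20283720) (l 20912104)))) (l 20022024))), by decide +kernel⟩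

theorem c_pp_102_b : CertN 536870912 536870912 1239849684 370763052 33554432 16777216 3 false true true .npp 1 0 2
    ndN4q1 ndN1q2b pcN0 cut_pp_102_b Ext.none :=
  certNK0 (fam := false) (s1 := true) (s2 := true) (a := 1) (b := 0) (c := 2) (cn := .npp) (n1 := ndN4q1) (n2 := ndN1q2b) (pc := pcN0) (cut := cut_pp_102_b) (xt := Ext.none) (P1 := 536870912) (W1 := 536870912) (P2 := 1239849684) (W2 := 370763052) (P3 := 33554432) (W3 := 16777216) (N0 := 3)
    rfl rfl rfl k0_pp_102_b

noncomputable def f_pp_112_a : ℕ → ℕ → ℕ → ℕ → Bool := onCell 536870912 536870912 0 536870912 33554432 16777216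
    (rowNK 3 2 false true true .dn 1 1 2 (qsf 536870912 536870912 0 536870912 1) ndN4q1 ndN1q2a pcN1 Cut.none Ext.none)

def k0_pp_112_a : ∃ t, chk3 f_pp_112_a t 1 1 1 = true :=
  ⟨(a (b (l 18970576) (a (l 19100952) (l 19154416))) (l 1)), by decide +kernel⟩

theorem c_pp_112_a : CertN 536870912 536870912 0 536870912 33554432 16777216 3 false true true .dn 1 1 2
    ndN4q1 ndN1q2a pcN1 Cut.none Ext.none :=
  certNK2 (fam := false) (s1 := true) (s2 := true) (a := 1) (b := 1) (c := 2) (cn := .dn) (n1 := ndN4q1) (n2 := ndN1q2a) (pc := pcN1) (cut := Cut.none) (xt := Ext.none) (P1 := 536870912) (W1 := 536870912) (P2 := 0) (W2 := 536870912) (P3 := 33554432) (W3 := 16777216) (N0 := 3)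
    rfl rfl rfl (fun _ => rfl) k0_pp_112_a

noncomputable def f_pp_112_b : ℕ → ℕ → ℕ → ℕ → Bool := onCell 536870912 536870912 536870912 536870912 33554432 16777216
    (rowNK 3 1 false true true .dn 1 1 2 (qsf 536870912 536870912 1239849684 370763052 1) ndN4q1 ndN1q2b pcN1 Cut.none Ext.none)

def k0_pp_112_b : ∃ t, chk3 f_pp_112_b t 1 1 1 = true :=
  ⟨(a (b (l 18806368) (b (l 18298896) (b (l 18245088) (b (l 18258120) (b (l 18283576) (b (l 18300864) (l 18312368))))))) (b (l 18591520) (b (l 17942624) (l 2)))), by decide +kernel⟩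

theorem c_pp_112_b : CertN 536870912 536870912 1239849684 370763052 33554432 16777216 3 false true true .dn 1 1 2
    ndN4q1 ndN1q2b pcN1 Cut.none Ext.none :=
  certNK1 (fam := false) (s1 := true) (s2 := true) (a := 1) (b := 1) (c := 2) (cn := .dn) (n1 := ndN4q1) (n2 := ndN1q2b) (pc := pcN1) (cut := Cut.none) (xt := Ext.none) (P1 := 536870912) (W1 := 536870912) (P2 := 1239849684) (W2 := 370763052) (P3 := 33554432) (W3 := 16777216) (N0 := 3)
    rfl rfl rfl (fun _ => rfl) k0_pp_112_b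

noncomputable def f_pp_113 : ℕ → ℕ → ℕ → ℕ → Bool := onCell 536870912 536870912 536870912 536870912 33554432 16777216
    (rowNK 3 1 false true true .nn 1 1 3 (qsf 536870912 536870912 1610612736 536870912 1) ndN4q1 ndN1q3 pcN1 Cut.none Ext.none)

def k0_pp_113 : ∃ t, chk3 f_pp_113 t 1 1 1 = true :=
  ⟨(a (b (l 19458960) (b (l 19334336) (b (l 19342176) (b (l 19362696) (b (l 19385320) (b (l 19399432) (l 19407344))))))) (b (l 19155656) (b (l 18476584) (b (l 18141880) (b (l 17970896) (b (l 17891704) (b (l 17855488) (l 17822136)))))))), by decide +kernel⟩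

theorem c_pp_113 : CertN 536870912 536870912 1610612736 536870912 33554432 16777216 3 false true true .nn 1 1 3
    ndN4q1 ndN1q3 pcN1 Cut.none Ext.none :=
  certNK1 (fam := false) (s1 := true) (s2 := true) (a := 1) (b := 1) (c := 3) (cn := .nn) (n1 := ndN4q1) (n2 := ndN1q3) (pc := pcN1) (cut := Cut.none) (xt := Ext.none) (P1 := 536870912) (W1 := 536870912) (P2 := 1610612736) (W2 := 536870912) (P3 := 33554432) (W3 := 16777216) (N0 := 3)
    rfl rfl rfl (fun _ => rfl) k0_pp_113

noncomputable def f_pp_123 : ℕ → ℕ → ℕ → ℕ → Bool := onCell 1073741824 536870912 1610612736 536870912 33554432 16777216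
    (rowNK 3 2 false true true .npn 1 2 3 (qsf 536870912 536870912 1610612736 536870912 2) ndN4q1 ndN1q3 pcN2 Cut.none Ext.none)

def k0_pp_123 : ∃ t, chk3 f_pp_123 t 1 1 1 = true :=
  ⟨(a (a (b (l 19226088) (b (l 18250616) (l 17283320))) (l 4)) (l 4)), by decide +kernel⟩

theorem c_pp_123 : CertN 536870912 536870912 1610612736 536870912 33554432 16777216 3 false true true .npn 1 2 3
    ndN4q1 ndN1q3 pcN2 Cut.none Ext.none :=
  certNK2 (fam := false) (s1 := true) (s2 := true) (a := 1) (b := 2) (c := 3) (cn := .npn) (n1 := ndN4q1) (n2 := ndN1q3) (pc := pcN2) (cut := Cut.none) (xt := Ext.none) (P1 := 536870912) (W1 := 536870912) (P2 := 1610612736) (W2 := 536870912) (P3 := 33554432) (W3 := 16777216) (N0 := 3)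
    rfl rfl rfl (fun _ => rfl) k0_pp_123

noncomputable def f_pp_133 : ℕ → ℕ → ℕ → ℕ → Bool := onCell 1610612736 536870912 1610612736 536870912 33554432 16777216
    (rowNK 3 2 false true true .dn 1 3 3 (qsf 536870912 536870912 1610612736 536870912 3) ndN4q1 ndN1q3 pcN3 Cut.none Ext.none)

def k0_pp_133 : ∃ t, chk3 f_pp_133 t 1 1 1 = true :=
  ⟨(l 4), by decide +kernel⟩

theorem c_pp_133 : CertN 536870912 536870912 1610612736 536870912 33554432 16777216 3 false true true .dn 1 3 3
    ndN4q1 ndN1q3 pcN3 Cut.none Ext.none :=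
  certNK2 (fam := false) (s1 := true) (s2 := true) (a := 1) (b := 3) (c := 3) (cn := .dn) (n1 := ndN4q1) (n2 := ndN1q3) (pc := pcN3) (cut := Cut.none) (xt := Ext.none) (P1 := 536870912) (W1 := 536870912) (P2 := 1610612736) (W2 := 536870912) (P3 := 33554432) (W3 := 16777216) (N0 := 3)
    rfl rfl rfl (fun _ => rfl) k0_pp_133

noncomputable def cut_pp_202_a : Cut := Cut.of [[⟨0, 1, 0, 33554432⟩, ⟨1, 0, 0, 33554432⟩, ⟨2, 1, 0, 33554432⟩]]

noncomputable def f_pp_202_a : ℕ → ℕ → ℕ → ℕ → Bool := onCell 0 536870912 0 536870912 33554432 16777216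
    (rowNK 3 2 false true true .pp 2 0 2 (qsf 1073741824 536870912 0 536870912 0) ndN4q2 ndN1q2a pcN0 cut_pp_202_a Ext.none)

def k0_pp_202_a : ∃ t, chk3 f_pp_202_a t 1 1 1 = true :=
  ⟨(a (a (b (a (b (l 19150216) (a (l 19141768) (l 19670696))) (b (l 20041952) (b (l 20290904) (l 20379416)))) (a (b (a (b (l 19161112) (a (l 18770592) (l 19085056))) (b (l 19725840) (l 19441376))) (a (b (a (b (l 18241528) (b (l 17675648) (a (l 16992256) (l 17072600)))) (b (l 18514600) (a (l 17505416) (l 17554640)))) (a (b (b (a (l 16879656) (l 16777936)) (l 6)) (l 6)) (b (b (l 16685208) (a (l 6) (l 16696832))) (a (l 6) (l 1))))) (b (b (l 18786360) (a (l 17617688) (l 17660984))) (a (b (l 16717888) (l 1)) (l 1))))) (b (b (l 20265104) (a (l 19769632) (l 19912560))) (a (b (b (l 18967560) (l 1)) (l 1)) (l 1))))) (b (a (b (l 20716664) (l 20810928)) (l 1)) (b (l 1) (l 1)))) (l 1)), by decide +kernel⟩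

theorem c_pp_202_a : CertN 1073741824 536870912 0 536870912 33554432 16777216 3 false true true .pp 2 0 2
    ndN4q2 ndN1q2a pcN0 cut_pp_202_a Ext.none :=
  certNK2 (fam := false) (s1 := true) (s2 := true) (a := 2) (b := 0) (c := 2) (cn := .pp) (n1 := ndN4q2) (n2 := ndN1q2a) (pc := pcN0) (cut := cut_pp_202_a) (xt := Ext.none) (P1 := 1073741824) (W1 := 536870912) (P2 := 0) (W2 := 536870912) (P3 := 33554432) (W3 := 16777216) (N0 := 3)
    rfl rfl rfl (fun _ => rfl) k0_pp_202_a

noncomputable def cut_pp_202_b : Cut := Cut.of [[⟨0, 1, 0, 33554432⟩, ⟨1, 0, 0, 33554432⟩, ⟨2, 1, 0, 33554432⟩]]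

noncomputable def f_pp_202_b : ℕ → ℕ → ℕ → ℕ → Bool := onCell 0 536870912 1239849684 370763052 33554432 16777216
    (rowNK 3 2 false true true .pp 2 0 2 (qsf 1073741824 536870912 1239849684 370763052 0) ndN4q2 ndN1q2b pcN0 cut_pp_202_b Ext.none)

def k0_pp_202_b : ∃ t, chk3 f_pp_202_b t 1 1 1 = true :=
  ⟨(a (b (a (b (a (l 19174912) (l 19904104)) (a (l 19302448) (l 20008040))) (b (a (l 20541672) (l 20710936)) (l 20985888))) (a (a (b (l 19586944) (l 19098768)) (b (l 19878800) (l 19417784))) (a (l 20198440) (l 20356536)))) (b (a (b (l 1) (l 21332016)) (l 1)) (a (l 20827880) (l 21214112)))), by decide +kernel⟩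

theorem c_pp_202_b : CertN 1073741824 536870912 1239849684 370763052 33554432 16777216 3 false true true .pp 2 0 2
    ndN4q2 ndN1q2b pcN0 cut_pp_202_b Ext.none :=
  certNK2 (fam := false) (s1 := true) (s2 := true) (a := 2) (b := 0) (c := 2) (cn := .pp) (n1 := ndN4q2) (n2 := ndN1q2b) (pc := pcN0) (cut := cut_pp_202_b) (xt := Ext.none) (P1 := 1073741824) (W1 := 536870912) (P2 := 1239849684) (W2 := 370763052) (P3 := 33554432) (W3 := 16777216) (N0 := 3)
    rfl rfl rfl (fun _ => rfl) k0_pp_202_b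

noncomputable def f_pp_203 : ℕ → ℕ → ℕ → ℕ → Bool := onCell 1073741824 536870912 0 536870912 33554432 16777216
    (rowNK 3 1 false true true .up 2 0 3 (qsf 1073741824 536870912 1610612736 536870912 0) ndN4q2 ndN1q3 pcN0 Cut.none Ext.none)

def k0_pp_203 : ∃ t, chk3 f_pp_203 t 1 1 1 = true :=
  ⟨(b (a (b (l 1) (a (l 1) (l 20361856))) (b (a (b (l 1) (l 20183032)) (b (l 19913496) (l 19733336))) (a (l 19907504) (l 19266384)))) (a (a (b (l 20373424) (l 20044448)) (l 19923600)) (b (a (l 19543120) (l 18777712)) (a (l 19202264) (l 18585592))))), by decide +kernel⟩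

theorem c_pp_203 : CertN 1073741824 536870912 1610612736 536870912 33554432 16777216 3 false true true .up 2 0 3
    ndN4q2 ndN1q3 pcN0 Cut.none Ext.none :=
  certNK1 (fam := false) (s1 := true) (s2 := true) (a := 2) (b := 0) (c := 3) (cn := .up) (n1 := ndN4q2) (n2 := ndN1q3) (pc := pcN0) (cut := Cut.none) (xt := Ext.none) (P1 := 1073741824) (W1 := 536870912) (P2 := 1610612736) (W2 := 536870912) (P3 := 33554432) (W3 := 16777216) (N0 := 3)
    rfl rfl rfl (fun _ => rfl) k0_pp_203

noncomputable def f_pp_213 : ℕ → ℕ → ℕ → ℕ → Bool := onCell 536870912 536870912 1610612736 536870912 33554432 16777216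
    (rowNK 3 2 false true true .pnn 2 1 3 (qsf 1073741824 536870912 1610612736 536870912 1) ndN4q2 ndN1q3 pcN1 Cut.none Ext.none)

def k0_pp_213 : ∃ t, chk3 f_pp_213 t 1 1 1 = true :=
  ⟨(a (b (b (a (l 18801352) (l 18829624)) (l 18530848)) (a (b (l 17956232) (l 17640424)) (b (l 17888504) (l 17304800)))) (b (a (l 422018498807) (l 1)) (a (b (l 17857496) (l 17170496)) (a (l 17508808) (a (l 17556760) (a (l 17628480) (a (l 17673800) (l 17699040)))))))), by decide +kernel⟩

theorem c_pp_213 : CertN 1073741824 536870912 1610612736 536870912 33554432 16777216 3 false true true .pnn 2 1 3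
    ndN4q2 ndN1q3 pcN1 Cut.none Ext.none :=
  certNK2 (fam := false) (s1 := true) (s2 := true) (a := 2) (b := 1) (c := 3) (cn := .pnn) (n1 := ndN4q2) (n2 := ndN1q3) (pc := pcN1) (cut := Cut.none) (xt := Ext.none) (P1 := 1073741824) (W1 := 536870912) (P2 := 1610612736) (W2 := 536870912) (P3 := 33554432) (W3 := 16777216) (N0 := 3)
    rfl rfl rfl (fun _ => rfl) k0_pp_213

noncomputable def f_pp_303 : ℕ → ℕ → ℕ → ℕ → Bool := onCell 0 1230186008 1610612736 536870912 33554432 16777216
    (rowNK 3 0 false true true .npn 3 0 3 (qsf 0 1230186008 1610612736 536870912 0) ndN4q3 ndN1q3 pcN0 Cut.none Ext.none)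

def k0_pp_303 : ∃ t, chk3 f_pp_303 t 1 1 1 = true :=
  ⟨(a (l 3) (a (l 3) (b (a (l 3) (b (l 3) (a (l 3) (b (l 19333288) (l 19028520))))) (a (b (l 3) (b (l 3) (l 242299455335))) (b (a (l 595024860615) (b (l 18705856) (l 18298416))) (a (b (l 18042904) (l 17960088)) (l 18356208))))))), by decide +kernel⟩

theorem c_pp_303 : CertN 0 1230186008 1610612736 536870912 33554432 16777216 3 false true true .npn 3 0 3
    ndN4q3 ndN1q3 pcN0 Cut.none Ext.none :=
  certNK0 (fam := false) (s1 := true) (s2 := true) (a := 3) (b := 0) (c := 3) (cn := .npn) (n1 := ndN4q3) (n2 := ndN1q3) (pc := pcN0) (cut := Cut.none) (xt := Ext.none) (P1 := 0) (W1 := 1230186008) (P2 := 1610612736) (W2 := 536870912) (P3 := 33554432) (W3 := 16777216) (N0 := 3)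
    rfl rfl rfl k0_pp_303

noncomputable def f_pp_313 : ℕ → ℕ → ℕ → ℕ → Bool := onCell 0 1230186008 1610612736 536870912 33554432 16777216
    (rowNK 3 0 false true true .dn 3 1 3 (qsf 0 1230186008 1610612736 536870912 1) ndN4q3 ndN1q3 pcN1 Cut.none Ext.none)

def k0_pp_313 : ∃ t, chk3 f_pp_313 t 1 1 1 = true :=
  ⟨(a (l 1) (a (l 1) (b (l 1) (a (l 1) (b (l 1) (a (l 1) (b (l 1) (l 17102856)))))))), by decide +kernel⟩

theorem c_pp_313 : CertN 0 1230186008 1610612736 536870912 33554432 16777216 3 false true true .dn 3 1 3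
    ndN4q3 ndN1q3 pcN1 Cut.none Ext.none :=
  certNK0 (fam := false) (s1 := true) (s2 := true) (a := 3) (b := 1) (c := 3) (cn := .dn) (n1 := ndN4q3) (n2 := ndN1q3) (pc := pcN1) (cut := Cut.none) (xt := Ext.none) (P1 := 0) (W1 := 1230186008) (P2 := 1610612736) (W2 := 536870912) (P3 := 33554432) (W3 := 16777216) (N0 := 3)
    rfl rfl rfl k0_pp_313

noncomputable def f_pm_001 : ℕ → ℕ → ℕ → ℕ → Bool := onCell 0 536870912 536870912 536870912 33554432 16777216
    (rowNK 3 0 false true false .up 0 0 1 (qsf 0 536870912 536870912 536870912 0) ndN4q0 ndN1q1 pcN0 Cut.none Ext.none)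

def k0_pm_001 : ∃ t, chk3 f_pm_001 t 1 1 1 = true :=
  ⟨(l 4), by decide +kernel⟩

theorem c_pm_001 : CertN 0 536870912 536870912 536870912 33554432 16777216 3 false true false .up 0 0 1
    ndN4q0 ndN1q1 pcN0 Cut.none Ext.none :=
  certNK0 (fam := false) (s1 := true) (s2 := false) (a := 0) (b := 0) (c := 1) (cn := .up) (n1 := ndN4q0) (n2 := ndN1q1) (pc := pcN0) (cut := Cut.none) (xt := Ext.none) (P1 := 0) (W1 := 536870912) (P2 := 536870912) (W2 := 536870912) (P3 := 33554432) (W3 := 16777216) (N0 := 3)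
    rfl rfl rfl k0_pm_001

noncomputable def f_pm_011 : ℕ → ℕ → ℕ → ℕ → Bool := onCell 0 536870912 536870912 536870912 33554432 16777216
    (rowNK 3 0 false true false .pnn 0 1 1 (qsf 0 536870912 536870912 536870912 1) ndN4q0 ndN1q1 pcN1 Cut.none Ext.none)

def k0_pm_011 : ∃ t, chk3 f_pm_011 t 1 1 1 = true :=
  ⟨(l 4), by decide +kernel⟩

theorem c_pm_011 : CertN 0 536870912 536870912 536870912 33554432 16777216 3 false true false .pnn 0 1 1
    ndN4q0 ndN1q1 pcN1 Cut.none Ext.none :=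
  certNK0 (fam := false) (s1 := true) (s2 := false) (a := 0) (b := 1) (c := 1) (cn := .pnn) (n1 := ndN4q0) (n2 := ndN1q1) (pc := pcN1) (cut := Cut.none) (xt := Ext.none) (P1 := 0) (W1 := 536870912) (P2 := 536870912) (W2 := 536870912) (P3 := 33554432) (W3 := 16777216) (N0 := 3)
    rfl rfl rfl k0_pm_011

noncomputable def f_pm_012_a : ℕ → ℕ → ℕ → ℕ → Bool := onCell 0 536870912 0 536870912 33554432 16777216
    (rowNK 3 0 false true false .pnp 0 1 2 (qsf 0 536870912 0 536870912 1) ndN4q0 ndN1q2a pcN1 Cut.none Ext.none)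

def k0_pm_012_a : ∃ t, chk3 f_pm_012_a t 1 1 1 = true :=
  ⟨(l 4), by decide +kernel⟩

theorem c_pm_012_a : CertN 0 536870912 0 536870912 33554432 16777216 3 false true false .pnp 0 1 2
    ndN4q0 ndN1q2a pcN1 Cut.none Ext.none :=
  certNK0 (fam := false) (s1 := true) (s2 := false) (a := 0) (b := 1) (c := 2) (cn := .pnp) (n1 := ndN4q0) (n2 := ndN1q2a) (pc := pcN1) (cut := Cut.none) (xt := Ext.none) (P1 := 0) (W1 := 536870912) (P2 := 0) (W2 := 536870912) (P3 := 33554432) (W3 := 16777216) (N0 := 3)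
    rfl rfl rfl k0_pm_012_a

noncomputable def f_pm_012_b : ℕ → ℕ → ℕ → ℕ → Bool := onCell 0 536870912 1239849684 370763052 33554432 16777216
    (rowNK 3 0 false true false .pnp 0 1 2 (qsf 0 536870912 1239849684 370763052 1) ndN4q0 ndN1q2b pcN1 Cut.none Ext.none)

def k0_pm_012_b : ∃ t, chk3 f_pm_012_b t 1 1 1 = true :=
  ⟨(l 4), by decide +kernel⟩

theorem c_pm_012_b : CertN 0 536870912 1239849684 370763052 33554432 16777216 3 false true false .pnp 0 1 2
    ndN4q0 ndN1q2b pcN1 Cut.none Ext.none :=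
  certNK0 (fam := false) (s1 := true) (s2 := false) (a := 0) (b := 1) (c := 2) (cn := .pnp) (n1 := ndN4q0) (n2 := ndN1q2b) (pc := pcN1) (cut := Cut.none) (xt := Ext.none) (P1 := 0) (W1 := 536870912) (P2 := 1239849684) (W2 := 370763052) (P3 := 33554432) (W3 := 16777216) (N0 := 3)
    rfl rfl rfl k0_pm_012_b

noncomputable def f_pm_022_a : ℕ → ℕ → ℕ → ℕ → Bool := onCell 0 536870912 0 536870912 33554432 16777216
    (rowNK 3 0 false true false .pp 0 2 2 (qsf 0 536870912 0 536870912 2) ndN4q0 ndN1q2a pcN2 Cut.none Ext.none)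

def k0_pm_022_a : ∃ t, chk3 f_pm_022_a t 1 1 1 = true :=
  ⟨(l 4), by decide +kernel⟩

theorem c_pm_022_a : CertN 0 536870912 0 536870912 33554432 16777216 3 false true false .pp 0 2 2
    ndN4q0 ndN1q2a pcN2 Cut.none Ext.none :=
  certNK0 (fam := false) (s1 := true) (s2 := false) (a := 0) (b := 2) (c := 2) (cn := .pp) (n1 := ndN4q0) (n2 := ndN1q2a) (pc := pcN2) (cut := Cut.none) (xt := Ext.none) (P1 := 0) (W1 := 536870912) (P2 := 0) (W2 := 536870912) (P3 := 33554432) (W3 := 16777216) (N0 := 3)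
    rfl rfl rfl k0_pm_022_a

noncomputable def f_pm_022_b : ℕ → ℕ → ℕ → ℕ → Bool := onCell 0 536870912 1239849684 370763052 33554432 16777216
    (rowNK 3 0 false true false .pp 0 2 2 (qsf 0 536870912 1239849684 370763052 2) ndN4q0 ndN1q2b pcN2 Cut.none Ext.none)

def k0_pm_022_b : ∃ t, chk3 f_pm_022_b t 1 1 1 = true :=
  ⟨(l 4), by decide +kernel⟩

theorem c_pm_022_b : CertN 0 536870912 1239849684 370763052 33554432 16777216 3 false true false .pp 0 2 2
    ndN4q0 ndN1q2b pcN2 Cut.none Ext.none :=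
  certNK0 (fam := false) (s1 := true) (s2 := false) (a := 0) (b := 2) (c := 2) (cn := .pp) (n1 := ndN4q0) (n2 := ndN1q2b) (pc := pcN2) (cut := Cut.none) (xt := Ext.none) (P1 := 0) (W1 := 536870912) (P2 := 1239849684) (W2 := 370763052) (P3 := 33554432) (W3 := 16777216) (N0 := 3)
    rfl rfl rfl k0_pm_022_b

noncomputable def f_pm_023 : ℕ → ℕ → ℕ → ℕ → Bool := onCell 0 536870912 1610612736 536870912 33554432 16777216
    (rowNK 3 0 false true false .up 0 2 3 (qsf 0 536870912 1610612736 536870912 2) ndN4q0 ndN1q3 pcN2 Cut.none Ext.none)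

def k0_pm_023 : ∃ t, chk3 f_pm_023 t 1 1 1 = true :=
  ⟨(l 4), by decide +kernel⟩

theorem c_pm_023 : CertN 0 536870912 1610612736 536870912 33554432 16777216 3 false true false .up 0 2 3
    ndN4q0 ndN1q3 pcN2 Cut.none Ext.none :=
  certNK0 (fam := false) (s1 := true) (s2 := false) (a := 0) (b := 2) (c := 3) (cn := .up) (n1 := ndN4q0) (n2 := ndN1q3) (pc := pcN2) (cut := Cut.none) (xt := Ext.none) (P1 := 0) (W1 := 536870912) (P2 := 1610612736) (W2 := 536870912) (P3 := 33554432) (W3 := 16777216) (N0 := 3)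
    rfl rfl rfl k0_pm_023

noncomputable def f_pm_033 : ℕ → ℕ → ℕ → ℕ → Bool := onCell 0 536870912 1610612736 536870912 33554432 16777216
    (rowNK 3 0 false true false .pnn 0 3 3 (qsf 0 536870912 1610612736 536870912 3) ndN4q0 ndN1q3 pcN3 Cut.none Ext.none)

def k0_pm_033 : ∃ t, chk3 f_pm_033 t 1 1 1 = true :=
  ⟨(l 4), by decide +kernel⟩

theorem c_pm_033 : CertN 0 536870912 1610612736 536870912 33554432 16777216 3 false true false .pnn 0 3 3
    ndN4q0 ndN1q3 pcN3 Cut.none Ext.none :=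
  certNK0 (fam := false) (s1 := true) (s2 := false) (a := 0) (b := 3) (c := 3) (cn := .pnn) (n1 := ndN4q0) (n2 := ndN1q3) (pc := pcN3) (cut := Cut.none) (xt := Ext.none) (P1 := 0) (W1 := 536870912) (P2 := 1610612736) (W2 := 536870912) (P3 := 33554432) (W3 := 16777216) (N0 := 3)
    rfl rfl rfl k0_pm_033

noncomputable def f_pm_101 : ℕ → ℕ → ℕ → ℕ → Bool := onCell 536870912 536870912 536870912 536870912 33554432 16777216
    (rowNK 3 0 false true false .npn 1 0 1 (qsf 536870912 536870912 536870912 536870912 0) ndN4q1 ndN1q1 pcN0 Cut.none Ext.none)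

def k0_pm_101 : ∃ t, chk3 f_pm_101 t 1 1 1 = true :=
  ⟨(l 4), by decide +kernel⟩

theorem c_pm_101 : CertN 536870912 536870912 536870912 536870912 33554432 16777216 3 false true false .npn 1 0 1
    ndN4q1 ndN1q1 pcN0 Cut.none Ext.none :=
  certNK0 (fam := false) (s1 := true) (s2 := false) (a := 1) (b := 0) (c := 1) (cn := .npn) (n1 := ndN4q1) (n2 := ndN1q1) (pc := pcN0) (cut := Cut.none) (xt := Ext.none) (P1 := 536870912) (W1 := 536870912) (P2 := 536870912) (W2 := 536870912) (P3 := 33554432) (W3 := 16777216) (N0 := 3)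
    rfl rfl rfl k0_pm_101

noncomputable def f_pm_102_a : ℕ → ℕ → ℕ → ℕ → Bool := onCell 536870912 536870912 0 536870912 33554432 16777216
    (rowNK 3 0 false true false .npp 1 0 2 (qsf 536870912 536870912 0 536870912 0) ndN4q1 ndN1q2a pcN0 Cut.none Ext.none)

def k0_pm_102_a : ∃ t, chk3 f_pm_102_a t 1 1 1 = true :=
  ⟨(a (l 4) (b (l 4) (l 4))), by decide +kernel⟩

theorem c_pm_102_a : CertN 536870912 536870912 0 536870912 33554432 16777216 3 false true false .npp 1 0 2
    ndN4q1 ndN1q2a pcN0 Cut.none Ext.none :=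
  certNK0 (fam := false) (s1 := true) (s2 := false) (a := 1) (b := 0) (c := 2) (cn := .npp) (n1 := ndN4q1) (n2 := ndN1q2a) (pc := pcN0) (cut := Cut.none) (xt := Ext.none) (P1 := 536870912) (W1 := 536870912) (P2 := 0) (W2 := 536870912) (P3 := 33554432) (W3 := 16777216) (N0 := 3)
    rfl rfl rfl k0_pm_102_a

noncomputable def f_pm_102_b : ℕ → ℕ → ℕ → ℕ → Bool := onCell 536870912 536870912 1239849684 370763052 33554432 16777216
    (rowNK 3 0 false true false .npp 1 0 2 (qsf 536870912 536870912 1239849684 370763052 0) ndN4q1 ndN1q2b pcN0 Cut.none Ext.none)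

def k0_pm_102_b : ∃ t, chk3 f_pm_102_b t 1 1 1 = true :=
  ⟨(a (l 4) (b (l 4) (l 4))), by decide +kernel⟩

theorem c_pm_102_b : CertN 536870912 536870912 1239849684 370763052 33554432 16777216 3 false true false .npp 1 0 2
    ndN4q1 ndN1q2b pcN0 Cut.none Ext.none :=
  certNK0 (fam := false) (s1 := true) (s2 := false) (a := 1) (b := 0) (c := 2) (cn := .npp) (n1 := ndN4q1) (n2 := ndN1q2b) (pc := pcN0) (cut := Cut.none) (xt := Ext.none) (P1 := 536870912) (W1 := 536870912) (P2 := 1239849684) (W2 := 370763052) (P3 := 33554432) (W3 := 16777216) (N0 := 3)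
    rfl rfl rfl k0_pm_102_b

noncomputable def f_pm_112_a : ℕ → ℕ → ℕ → ℕ → Bool := onCell 536870912 536870912 0 536870912 33554432 16777216
    (rowNK 3 2 false true false .dn 1 1 2 (qsf 536870912 536870912 0 536870912 1) ndN4q1 ndN1q2a pcN1 Cut.none Ext.none)

def k0_pm_112_a : ∃ t, chk3 f_pm_112_a t 1 1 1 = true :=
  ⟨(l 4), by decide +kernel⟩

theorem c_pm_112_a : CertN 536870912 536870912 0 536870912 33554432 16777216 3 false true false .dn 1 1 2
    ndN4q1 ndN1q2a pcN1 Cut.none Ext.none :=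
  certNK2 (fam := false) (s1 := true) (s2 := false) (a := 1) (b := 1) (c := 2) (cn := .dn) (n1 := ndN4q1) (n2 := ndN1q2a) (pc := pcN1) (cut := Cut.none) (xt := Ext.none) (P1 := 536870912) (W1 := 536870912) (P2 := 0) (W2 := 536870912) (P3 := 33554432) (W3 := 16777216) (N0 := 3)
    rfl rfl rfl (fun _ => rfl) k0_pm_112_a

noncomputable def f_pm_112_b : ℕ → ℕ → ℕ → ℕ → Bool := onCell 536870912 536870912 1239849684 370763052 33554432 16777216
    (rowNK 3 2 false true false .dn 1 1 2 (qsf 536870912 536870912 1239849684 370763052 1) ndN4q1 ndN1q2b pcN1 Cut.none Ext.none)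

def k0_pm_112_b : ∃ t, chk3 f_pm_112_b t 1 1 1 = true :=
  ⟨(a (l 4) (l 4)), by decide +kernel⟩

theorem c_pm_112_b : CertN 536870912 536870912 1239849684 370763052 33554432 16777216 3 false true false .dn 1 1 2
    ndN4q1 ndN1q2b pcN1 Cut.none Ext.none :=
  certNK2 (fam := false) (s1 := true) (s2 := false) (a := 1) (b := 1) (c := 2) (cn := .dn) (n1 := ndN4q1) (n2 := ndN1q2b) (pc := pcN1) (cut := Cut.none) (xt := Ext.none) (P1 := 536870912) (W1 := 536870912) (P2 := 1239849684) (W2 := 370763052) (P3 := 33554432) (W3 := 16777216) (N0 := 3)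
    rfl rfl rfl (fun _ => rfl) k0_pm_112_b

noncomputable def f_pm_113 : ℕ → ℕ → ℕ → ℕ → Bool := onCell 536870912 536870912 1610612736 536870912 33554432 16777216
    (rowNK 3 0 false true false .nn 1 1 3 (qsf 536870912 536870912 1610612736 536870912 1) ndN4q1 ndN1q3 pcN1 Cut.none Ext.none)

def k0_pm_113 : ∃ t, chk3 f_pm_113 t 1 1 1 = true :=
  ⟨(a (l 4) (b (l 4) (b (l 4) (a (l 4) (b (l 4) (b (l 4) (b (l 4) (b (l 4) (l 16811864))))))))), by decide +kernel⟩

theorem c_pm_113 : CertN 536870912 536870912 1610612736 536870912 33554432 16777216 3 false true false .nn 1 1 3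
    ndN4q1 ndN1q3 pcN1 Cut.none Ext.none :=
  certNK0 (fam := false) (s1 := true) (s2 := false) (a := 1) (b := 1) (c := 3) (cn := .nn) (n1 := ndN4q1) (n2 := ndN1q3) (pc := pcN1) (cut := Cut.none) (xt := Ext.none) (P1 := 536870912) (W1 := 536870912) (P2 := 1610612736) (W2 := 536870912) (P3 := 33554432) (W3 := 16777216) (N0 := 3)
    rfl rfl rfl k0_pm_113

noncomputable def f_pm_123 : ℕ → ℕ → ℕ → ℕ → Bool := onCell 536870912 536870912 1610612736 536870912 33554432 16777216
    (rowNK 3 0 false true false .npn 1 2 3 (qsf 536870912 536870912 1610612736 536870912 2) ndN4q1 ndN1q3 pcN2 Cut.none Ext.none)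

def k0_pm_123 : ∃ t, chk3 f_pm_123 t 1 1 1 = true :=
  ⟨(a (l 4) (b (l 4) (a (l 4) (b (l 4) (l 17294224))))), by decide +kernel⟩

theorem c_pm_123 : CertN 536870912 536870912 1610612736 536870912 33554432 16777216 3 false true false .npn 1 2 3
    ndN4q1 ndN1q3 pcN2 Cut.none Ext.none :=
  certNK0 (fam := false) (s1 := true) (s2 := false) (a := 1) (b := 2) (c := 3) (cn := .npn) (n1 := ndN4q1) (n2 := ndN1q3) (pc := pcN2) (cut := Cut.none) (xt := Ext.none) (P1 := 536870912) (W1 := 536870912) (P2 := 1610612736) (W2 := 536870912) (P3 := 33554432) (W3 := 16777216) (N0 := 3)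
    rfl rfl rfl k0_pm_123

noncomputable def f_pm_133 : ℕ → ℕ → ℕ → ℕ → Bool := onCell 1610612736 536870912 1610612736 536870912 33554432 16777216
    (rowNK 3 2 false true false .dn 1 3 3 (qsf 536870912 536870912 1610612736 536870912 3) ndN4q1 ndN1q3 pcN3 Cut.none Ext.none)

def k0_pm_133 : ∃ t, chk3 f_pm_133 t 1 1 1 = true :=
  ⟨(l 4), by decide +kernel⟩

theorem c_pm_133 : CertN 536870912 536870912 1610612736 536870912 33554432 16777216 3 false true false .dn 1 3 3
    ndN4q1 ndN1q3 pcN3 Cut.none Ext.none :=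
  certNK2 (fam := false) (s1 := true) (s2 := false) (a := 1) (b := 3) (c := 3) (cn := .dn) (n1 := ndN4q1) (n2 := ndN1q3) (pc := pcN3) (cut := Cut.none) (xt := Ext.none) (P1 := 536870912) (W1 := 536870912) (P2 := 1610612736) (W2 := 536870912) (P3 := 33554432) (W3 := 16777216) (N0 := 3)
    rfl rfl rfl (fun _ => rfl) k0_pm_133

noncomputable def f_pm_202_a : ℕ → ℕ → ℕ → ℕ → Bool := onCell 0 536870912 0 536870912 33554432 16777216
    (rowNK 3 2 false true false .pp 2 0 2 (qsf 1073741824 536870912 0 536870912 0) ndN4q2 ndN1q2a pcN0 Cut.none Ext.none)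

def k0_pm_202_a : ∃ t, chk3 f_pm_202_a t 1 1 1 = true :=
  ⟨(b (a (a (a (l 19709320) (l 19694744)) (a (l 19727384) (l 1))) (l 1)) (l 4)), by decide +kernel⟩

theorem c_pm_202_a : CertN 1073741824 536870912 0 536870912 33554432 16777216 3 false true false .pp 2 0 2
    ndN4q2 ndN1q2a pcN0 Cut.none Ext.none :=
  certNK2 (fam := false) (s1 := true) (s2 := false) (a := 2) (b := 0) (c := 2) (cn := .pp) (n1 := ndN4q2) (n2 := ndN1q2a) (pc := pcN0) (cut := Cut.none) (xt := Ext.none) (P1 := 1073741824) (W1 := 536870912) (P2 := 0) (W2 := 536870912) (P3 := 33554432) (W3 := 16777216) (N0 := 3)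
    rfl rfl rfl (fun _ => rfl) k0_pm_202_a

noncomputable def f_pm_202_b : ℕ → ℕ → ℕ → ℕ → Bool := onCell 0 536870912 1239849684 370763052 33554432 16777216
    (rowNK 3 2 false true false .pp 2 0 2 (qsf 1073741824 536870912 1239849684 370763052 0) ndN4q2 ndN1q2b pcN0 Cut.none Ext.none)

def k0_pm_202_b : ∃ t, chk3 f_pm_202_b t 1 1 1 = true :=
  ⟨(a (b (a (b (l 19500000) (a (l 18973968) (l 19052960))) (b (a (l 19378536) (l 19693952)) (a (l 19044480) (l 19104536)))) (a (b (a (l 18583648) (l 18673408)) (a (l 18257032) (l 18336824))) (b (l 18731800) (c (l 18991536) (l 18466824))))) (a (a (b (l 220358259991) (l 18833608)) (b (l 4) (l 19089352))) (b (l 1) (a (l 157006271383) (l 19475824))))), by decide +kernel⟩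

theorem c_pm_202_b : CertN 1073741824 536870912 1239849684 370763052 33554432 16777216 3 false true false .pp 2 0 2
    ndN4q2 ndN1q2b pcN0 Cut.none Ext.none :=
  certNK2 (fam := false) (s1 := true) (s2 := false) (a := 2) (b := 0) (c := 2) (cn := .pp) (n1 := ndN4q2) (n2 := ndN1q2b) (pc := pcN0) (cut := Cut.none) (xt := Ext.none) (P1 := 1073741824) (W1 := 536870912) (P2 := 1239849684) (W2 := 370763052) (P3 := 33554432) (W3 := 16777216) (N0 := 3)
    rfl rfl rfl (fun _ => rfl) k0_pm_202_b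

noncomputable def f_pm_203 : ℕ → ℕ → ℕ → ℕ → Bool := onCell 1073741824 536870912 0 536870912 33554432 16777216
    (rowNK 3 1 false true false .up 2 0 3 (qsf 1073741824 536870912 1610612736 536870912 0) ndN4q2 ndN1q3 pcN0 Cut.none Ext.none)

def k0_pm_203 : ∃ t, chk3 f_pm_203 t 1 1 1 = true :=
  ⟨(b (a (b (l 1) (a (l 1) (l 18373392))) (b (a (c (l 18265840) (l 17549392)) (b (a (l 17234424) (l 17229912)) (a (l 16962448) (l 17288576)))) (a (a (l 17502152) (c (l 17760008) (l 17835448))) (b (a (l 17025856) (l 17287136)) (l 17692184))))) (a (a (b (l 19532264) (l 19594976)) (b (b (l 18484008) (l 18569272)) (a (l 18914472) (l 18645464)))) (a (b (c (a (l 17510136) (l 17545528)) (l 18642552)) (a (b (l 18447080) (l 19005696)) (l 19214456))) (a (b (b (l 18034696) (l 18699680)) (b (l 18934344) (l 18944200))) (b (b (l 18529696) (l 18713136)) (l 18468920)))))), by decide +kernel⟩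

theorem c_pm_203 : CertN 1073741824 536870912 1610612736 536870912 33554432 16777216 3 false true false .up 2 0 3
    ndN4q2 ndN1q3 pcN0 Cut.none Ext.none :=
  certNK1 (fam := false) (s1 := true) (s2 := false) (a := 2) (b := 0) (c := 3) (cn := .up) (n1 := ndN4q2) (n2 := ndN1q3) (pc := pcN0) (cut := Cut.none) (xt := Ext.none) (P1 := 1073741824) (W1 := 536870912) (P2 := 1610612736) (W2 := 536870912) (P3 := 33554432) (W3 := 16777216) (N0 := 3)
    rfl rfl rfl (fun _ => rfl) k0_pm_203

noncomputable def f_pm_213 : ℕ → ℕ → ℕ → ℕ → Bool := onCell 536870912 536870912 1610612736 536870912 33554432 16777216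
    (rowNK 3 2 false true false .pnn 2 1 3 (qsf 1073741824 536870912 1610612736 536870912 1) ndN4q2 ndN1q3 pcN1 Cut.none Ext.none)

def k0_pm_213 : ∃ t, chk3 f_pm_213 t 1 1 1 = true :=
  ⟨(a (b (a (b (l 19453672) (l 18327864)) (b (l 4) (l 18951608))) (a (b (a (l 17110024) (l 17450920)) (a (l 17168784) (l 16951592))) (b (l 17825936) (l 16892176)))) (b (l 4) (a (b (l 18244256) (l 17219968)) (a (l 273840537511) (a (l 17979152) (a (l 17963504) (a (l 17955584) (l 17946376)))))))), by decide +kernel⟩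

theorem c_pm_213 : CertN 1073741824 536870912 1610612736 536870912 33554432 16777216 3 false true false .pnn 2 1 3
    ndN4q2 ndN1q3 pcN1 Cut.none Ext.none :=
  certNK2 (fam := false) (s1 := true) (s2 := false) (a := 2) (b := 1) (c := 3) (cn := .pnn) (n1 := ndN4q2) (n2 := ndN1q3) (pc := pcN1) (cut := Cut.none) (xt := Ext.none) (P1 := 1073741824) (W1 := 536870912) (P2 := 1610612736) (W2 := 536870912) (P3 := 33554432) (W3 := 16777216) (N0 := 3)
    rfl rfl rfl (fun _ => rfl) k0_pm_213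

noncomputable def f_pm_303 : ℕ → ℕ → ℕ → ℕ → Bool := onCell 0 1230186008 1610612736 536870912 33554432 16777216
    (rowNK 3 0 false true false .npn 3 0 3 (qsf 0 1230186008 1610612736 536870912 0) ndN4q3 ndN1q3 pcN0 Cut.none Ext.none)

def k0_pm_303 : ∃ t, chk3 f_pm_303 t 1 1 1 = true :=
  ⟨(a (l 3) (a (b (b (l 1) (b (l 1) (b (l 1) (b (l 1) (l 3))))) (b (a (l 3) (l 3)) (l 3))) (b (a (b (l 1) (b (a (l 625490094759) (l 17340992)) (a (l 17600920) (l 17891784)))) (b (b (a (l 1) (l 17546584)) (a (l 17448536) (l 17401152))) (b (a (l 17272928) (l 17342904)) (l 18365640)))) (a (b (b (l 18065520) (l 18131672)) (a (l 17844288) (l 17967264))) (b (b (l 18462848) (l 18596312)) (a (l 18415120) (l 18301352))))))), by decide +kernel⟩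

theorem c_pm_303 : CertN 0 1230186008 1610612736 536870912 33554432 16777216 3 false true false .npn 3 0 3
    ndN4q3 ndN1q3 pcN0 Cut.none Ext.none :=
  certNK0 (fam := false) (s1 := true) (s2 := false) (a := 3) (b := 0) (c := 3) (cn := .npn) (n1 := ndN4q3) (n2 := ndN1q3) (pc := pcN0) (cut := Cut.none) (xt := Ext.none) (P1 := 0) (W1 := 1230186008) (P2 := 1610612736) (W2 := 536870912) (P3 := 33554432) (W3 := 16777216) (N0 := 3)
    rfl rfl rfl k0_pm_303

noncomputable def f_pm_313 : ℕ → ℕ → ℕ → ℕ → Bool := onCell 0 1230186008 1610612736 536870912 33554432 16777216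
    (rowNK 3 0 false true false .dn 3 1 3 (qsf 0 1230186008 1610612736 536870912 1) ndN4q3 ndN1q3 pcN1 Cut.none Ext.none)

def k0_pm_313 : ∃ t, chk3 f_pm_313 t 1 1 1 = true :=
  ⟨(a (l 1) (a (l 1) (b (l 1) (a (l 1) (b (l 1) (a (l 1) (b (l 1) (l 17168016)))))))), by decide +kernel⟩

theorem c_pm_313 : CertN 0 1230186008 1610612736 536870912 33554432 16777216 3 false true false .dn 3 1 3
    ndN4q3 ndN1q3 pcN1 Cut.none Ext.none :=
  certNK0 (fam := false) (s1 := true) (s2 := false) (a := 3) (b := 1) (c := 3) (cn := .dn) (n1 := ndN4q3) (n2 := ndN1q3) (pc := pcN1) (cut := Cut.none) (xt := Ext.none) (P1 := 0) (W1 := 1230186008) (P2 := 1610612736) (W2 := 536870912) (P3 := 33554432) (W3 := 16777216) (N0 := 3)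
    rfl rfl rfl k0_pm_313

noncomputable def f_mm_001 : ℕ → ℕ → ℕ → ℕ → Bool := onCell 0 536870912 536870912 536870912 33554432 16777216
    (rowNK 3 0 false false false .up 0 0 1 (qsf 0 536870912 536870912 536870912 0) ndN4q0 ndN1q1 pcN0 Cut.none Ext.none)

def k0_mm_001 : ∃ t, chk3 f_mm_001 t 1 1 1 = true :=
  ⟨(l 5), by decide +kernel⟩

theorem c_mm_001 : CertN 0 536870912 536870912 536870912 33554432 16777216 3 false false false .up 0 0 1
    ndN4q0 ndN1q1 pcN0 Cut.none Ext.none :=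
  certNK0 (fam := false) (s1 := false) (s2 := false) (a := 0) (b := 0) (c := 1) (cn := .up) (n1 := ndN4q0) (n2 := ndN1q1) (pc := pcN0) (cut := Cut.none) (xt := Ext.none) (P1 := 0) (W1 := 536870912) (P2 := 536870912) (W2 := 536870912) (P3 := 33554432) (W3 := 16777216) (N0 := 3)
    rfl rfl rfl k0_mm_001

noncomputable def f_mm_011 : ℕ → ℕ → ℕ → ℕ → Bool := onCell 0 536870912 536870912 536870912 33554432 16777216
    (rowNK 3 0 false false false .pnn 0 1 1 (qsf 0 536870912 536870912 536870912 1) ndN4q0 ndN1q1 pcN1 Cut.none Ext.none)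

def k0_mm_011 : ∃ t, chk3 f_mm_011 t 1 1 1 = true :=
  ⟨(l 5), by decide +kernel⟩

theorem c_mm_011 : CertN 0 536870912 536870912 536870912 33554432 16777216 3 false false false .pnn 0 1 1
    ndN4q0 ndN1q1 pcN1 Cut.none Ext.none :=
  certNK0 (fam := false) (s1 := false) (s2 := false) (a := 0) (b := 1) (c := 1) (cn := .pnn) (n1 := ndN4q0) (n2 := ndN1q1) (pc := pcN1) (cut := Cut.none) (xt := Ext.none) (P1 := 0) (W1 := 536870912) (P2 := 536870912) (W2 := 536870912) (P3 := 33554432) (W3 := 16777216) (N0 := 3)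
    rfl rfl rfl k0_mm_011

noncomputable def f_mm_012_a : ℕ → ℕ → ℕ → ℕ → Bool := onCell 0 536870912 0 536870912 33554432 16777216
    (rowNK 3 0 false false false .pnp 0 1 2 (qsf 0 536870912 0 536870912 1) ndN4q0 ndN1q2a pcN1 Cut.none Ext.none)

def k0_mm_012_a : ∃ t, chk3 f_mm_012_a t 1 1 1 = true :=
  ⟨(l 5), by decide +kernel⟩

theorem c_mm_012_a : CertN 0 536870912 0 536870912 33554432 16777216 3 false false false .pnp 0 1 2
    ndN4q0 ndN1q2a pcN1 Cut.none Ext.none :=
  certNK0 (fam := false) (s1 := false) (s2 := false) (a := 0) (b := 1) (c := 2) (cn := .pnp) (n1 := ndN4q0) (n2 := ndN1q2a) (pc := pcN1) (cut := Cut.none) (xt := Ext.none) (P1 := 0) (W1 := 536870912) (P2 := 0) (W2 := 536870912) (P3 := 33554432) (W3 := 16777216) (N0 := 3)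
    rfl rfl rfl k0_mm_012_a

noncomputable def f_mm_012_b : ℕ → ℕ → ℕ → ℕ → Bool := onCell 0 536870912 1239849684 370763052 33554432 16777216
    (rowNK 3 0 false false false .pnp 0 1 2 (qsf 0 536870912 1239849684 370763052 1) ndN4q0 ndN1q2b pcN1 Cut.none Ext.none)

def k0_mm_012_b : ∃ t, chk3 f_mm_012_b t 1 1 1 = true :=
  ⟨(l 5), by decide +kernel⟩

theorem c_mm_012_b : CertN 0 536870912 1239849684 370763052 33554432 16777216 3 false false false .pnp 0 1 2
    ndN4q0 ndN1q2b pcN1 Cut.none Ext.none :=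
  certNK0 (fam := false) (s1 := false) (s2 := false) (a := 0) (b := 1) (c := 2) (cn := .pnp) (n1 := ndN4q0) (n2 := ndN1q2b) (pc := pcN1) (cut := Cut.none) (xt := Ext.none) (P1 := 0) (W1 := 536870912) (P2 := 1239849684) (W2 := 370763052) (P3 := 33554432) (W3 := 16777216) (N0 := 3)
    rfl rfl rfl k0_mm_012_b

noncomputable def f_mm_022_a : ℕ → ℕ → ℕ → ℕ → Bool := onCell 0 536870912 0 536870912 33554432 16777216
    (rowNK 3 0 false false false .pp 0 2 2 (qsf 0 536870912 0 536870912 2) ndN4q0 ndN1q2a pcN2 Cut.none Ext.none)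

def k0_mm_022_a : ∃ t, chk3 f_mm_022_a t 1 1 1 = true :=
  ⟨(l 5), by decide +kernel⟩

theorem c_mm_022_a : CertN 0 536870912 0 536870912 33554432 16777216 3 false false false .pp 0 2 2
    ndN4q0 ndN1q2a pcN2 Cut.none Ext.none :=
  certNK0 (fam := false) (s1 := false) (s2 := false) (a := 0) (b := 2) (c := 2) (cn := .pp) (n1 := ndN4q0) (n2 := ndN1q2a) (pc := pcN2) (cut := Cut.none) (xt := Ext.none) (P1 := 0) (W1 := 536870912) (P2 := 0) (W2 := 536870912) (P3 := 33554432) (W3 := 16777216) (N0 := 3)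
    rfl rfl rfl k0_mm_022_a

noncomputable def f_mm_022_b : ℕ → ℕ → ℕ → ℕ → Bool := onCell 0 536870912 1239849684 370763052 33554432 16777216
    (rowNK 3 0 false false false .pp 0 2 2 (qsf 0 536870912 1239849684 370763052 2) ndN4q0 ndN1q2b pcN2 Cut.none Ext.none)

def k0_mm_022_b : ∃ t, chk3 f_mm_022_b t 1 1 1 = true :=
  ⟨(l 5), by decide +kernel⟩

theorem c_mm_022_b : CertN 0 536870912 1239849684 370763052 33554432 16777216 3 false false false .pp 0 2 2
    ndN4q0 ndN1q2b pcN2 Cut.none Ext.none :=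
  certNK0 (fam := false) (s1 := false) (s2 := false) (a := 0) (b := 2) (c := 2) (cn := .pp) (n1 := ndN4q0) (n2 := ndN1q2b) (pc := pcN2) (cut := Cut.none) (xt := Ext.none) (P1 := 0) (W1 := 536870912) (P2 := 1239849684) (W2 := 370763052) (P3 := 33554432) (W3 := 16777216) (N0 := 3)
    rfl rfl rfl k0_mm_022_b

noncomputable def f_mm_023 : ℕ → ℕ → ℕ → ℕ → Bool := onCell 0 536870912 1610612736 536870912 33554432 16777216
    (rowNK 3 0 false false false .up 0 2 3 (qsf 0 536870912 1610612736 536870912 2) ndN4q0 ndN1q3 pcN2 Cut.none Ext.none)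

def k0_mm_023 : ∃ t, chk3 f_mm_023 t 1 1 1 = true :=
  ⟨(l 5), by decide +kernel⟩

theorem c_mm_023 : CertN 0 536870912 1610612736 536870912 33554432 16777216 3 false false false .up 0 2 3
    ndN4q0 ndN1q3 pcN2 Cut.none Ext.none :=
  certNK0 (fam := false) (s1 := false) (s2 := false) (a := 0) (b := 2) (c := 3) (cn := .up) (n1 := ndN4q0) (n2 := ndN1q3) (pc := pcN2) (cut := Cut.none) (xt := Ext.none) (P1 := 0) (W1 := 536870912) (P2 := 1610612736) (W2 := 536870912) (P3 := 33554432) (W3 := 16777216) (N0 := 3)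
    rfl rfl rfl k0_mm_023

noncomputable def f_mm_033 : ℕ → ℕ → ℕ → ℕ → Bool := onCell 0 536870912 1610612736 536870912 33554432 16777216
    (rowNK 3 0 false false false .pnn 0 3 3 (qsf 0 536870912 1610612736 536870912 3) ndN4q0 ndN1q3 pcN3 Cut.none Ext.none)

def k0_mm_033 : ∃ t, chk3 f_mm_033 t 1 1 1 = true :=
  ⟨(l 5), by decide +kernel⟩

theorem c_mm_033 : CertN 0 536870912 1610612736 536870912 33554432 16777216 3 false false false .pnn 0 3 3
    ndN4q0 ndN1q3 pcN3 Cut.none Ext.none :=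
  certNK0 (fam := false) (s1 := false) (s2 := false) (a := 0) (b := 3) (c := 3) (cn := .pnn) (n1 := ndN4q0) (n2 := ndN1q3) (pc := pcN3) (cut := Cut.none) (xt := Ext.none) (P1 := 0) (W1 := 536870912) (P2 := 1610612736) (W2 := 536870912) (P3 := 33554432) (W3 := 16777216) (N0 := 3)
    rfl rfl rfl k0_mm_033

noncomputable def f_mm_101 : ℕ → ℕ → ℕ → ℕ → Bool := onCell 536870912 536870912 536870912 536870912 33554432 16777216
    (rowNK 3 0 false false false .npn 1 0 1 (qsf 536870912 536870912 536870912 536870912 0) ndN4q1 ndN1q1 pcN0 Cut.none Ext.none)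

def k0_mm_101 : ∃ t, chk3 f_mm_101 t 1 1 1 = true :=
  ⟨(l 3), by decide +kernel⟩

theorem c_mm_101 : CertN 536870912 536870912 536870912 536870912 33554432 16777216 3 false false false .npn 1 0 1
    ndN4q1 ndN1q1 pcN0 Cut.none Ext.none :=
  certNK0 (fam := false) (s1 := false) (s2 := false) (a := 1) (b := 0) (c := 1) (cn := .npn) (n1 := ndN4q1) (n2 := ndN1q1) (pc := pcN0) (cut := Cut.none) (xt := Ext.none) (P1 := 536870912) (W1 := 536870912) (P2 := 536870912) (W2 := 536870912) (P3 := 33554432) (W3 := 16777216) (N0 := 3)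
    rfl rfl rfl k0_mm_101

noncomputable def f_mm_102_a : ℕ → ℕ → ℕ → ℕ → Bool := onCell 536870912 536870912 0 536870912 33554432 16777216
    (rowNK 3 0 false false false .npp 1 0 2 (qsf 536870912 536870912 0 536870912 0) ndN4q1 ndN1q2a pcN0 Cut.none Ext.none)

def k0_mm_102_a : ∃ t, chk3 f_mm_102_a t 1 1 1 = true :=
  ⟨(l 5), by decide +kernel⟩

theorem c_mm_102_a : CertN 536870912 536870912 0 536870912 33554432 16777216 3 false false false .npp 1 0 2
    ndN4q1 ndN1q2a pcN0 Cut.none Ext.none :=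
  certNK0 (fam := false) (s1 := false) (s2 := false) (a := 1) (b := 0) (c := 2) (cn := .npp) (n1 := ndN4q1) (n2 := ndN1q2a) (pc := pcN0) (cut := Cut.none) (xt := Ext.none) (P1 := 536870912) (W1 := 536870912) (P2 := 0) (W2 := 536870912) (P3 := 33554432) (W3 := 16777216) (N0 := 3)
    rfl rfl rfl k0_mm_102_a

noncomputable def f_mm_102_b : ℕ → ℕ → ℕ → ℕ → Bool := onCell 536870912 536870912 1239849684 370763052 33554432 16777216
    (rowNK 3 0 false false false .npp 1 0 2 (qsf 536870912 536870912 1239849684 370763052 0) ndN4q1 ndN1q2b pcN0 Cut.none Ext.none)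

def k0_mm_102_b : ∃ t, chk3 f_mm_102_b t 1 1 1 = true :=
  ⟨(l 5), by decide +kernel⟩

theorem c_mm_102_b : CertN 536870912 536870912 1239849684 370763052 33554432 16777216 3 false false false .npp 1 0 2
    ndN4q1 ndN1q2b pcN0 Cut.none Ext.none :=
  certNK0 (fam := false) (s1 := false) (s2 := false) (a := 1) (b := 0) (c := 2) (cn := .npp) (n1 := ndN4q1) (n2 := ndN1q2b) (pc := pcN0) (cut := Cut.none) (xt := Ext.none) (P1 := 536870912) (W1 := 536870912) (P2 := 1239849684) (W2 := 370763052) (P3 := 33554432) (W3 := 16777216) (N0 := 3)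
    rfl rfl rfl k0_mm_102_b

noncomputable def f_mm_112_a : ℕ → ℕ → ℕ → ℕ → Bool := onCell 536870912 536870912 0 536870912 33554432 16777216
    (rowNK 3 0 false false false .dn 1 1 2 (qsf 536870912 536870912 0 536870912 1) ndN4q1 ndN1q2a pcN1 Cut.none Ext.none)

def k0_mm_112_a : ∃ t, chk3 f_mm_112_a t 1 1 1 = true :=
  ⟨(l 5), by decide +kernel⟩

theorem c_mm_112_a : CertN 536870912 536870912 0 536870912 33554432 16777216 3 false false false .dn 1 1 2
    ndN4q1 ndN1q2a pcN1 Cut.none Ext.none :=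
  certNK0 (fam := false) (s1 := false) (s2 := false) (a := 1) (b := 1) (c := 2) (cn := .dn) (n1 := ndN4q1) (n2 := ndN1q2a) (pc := pcN1) (cut := Cut.none) (xt := Ext.none) (P1 := 536870912) (W1 := 536870912) (P2 := 0) (W2 := 536870912) (P3 := 33554432) (W3 := 16777216) (N0 := 3)
    rfl rfl rfl k0_mm_112_a

noncomputable def f_mm_112_b : ℕ → ℕ → ℕ → ℕ → Bool := onCell 536870912 536870912 1239849684 370763052 33554432 16777216
    (rowNK 3 0 false false false .dn 1 1 2 (qsf 536870912 536870912 1239849684 370763052 1) ndN4q1 ndN1q2b pcN1 Cut.none Ext.none)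

def k0_mm_112_b : ∃ t, chk3 f_mm_112_b t 1 1 1 = true :=
  ⟨(l 5), by decide +kernel⟩

theorem c_mm_112_b : CertN 536870912 536870912 1239849684 370763052 33554432 16777216 3 false false false .dn 1 1 2
    ndN4q1 ndN1q2b pcN1 Cut.none Ext.none :=
  certNK0 (fam := false) (s1 := false) (s2 := false) (a := 1) (b := 1) (c := 2) (cn := .dn) (n1 := ndN4q1) (n2 := ndN1q2b) (pc := pcN1) (cut := Cut.none) (xt := Ext.none) (P1 := 536870912) (W1 := 536870912) (P2 := 1239849684) (W2 := 370763052) (P3 := 33554432) (W3 := 16777216) (N0 := 3)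
    rfl rfl rfl k0_mm_112_b

noncomputable def f_mm_113 : ℕ → ℕ → ℕ → ℕ → Bool := onCell 536870912 536870912 1610612736 536870912 33554432 16777216
    (rowNK 3 0 false false false .nn 1 1 3 (qsf 536870912 536870912 1610612736 536870912 1) ndN4q1 ndN1q3 pcN1 Cut.none Ext.none)

def k0_mm_113 : ∃ t, chk3 f_mm_113 t 1 1 1 = true :=
  ⟨(l 5), by decide +kernel⟩

theorem c_mm_113 : CertN 536870912 536870912 1610612736 536870912 33554432 16777216 3 false false false .nn 1 1 3
    ndN4q1 ndN1q3 pcN1 Cut.none Ext.none :=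
  certNK0 (fam := false) (s1 := false) (s2 := false) (a := 1) (b := 1) (c := 3) (cn := .nn) (n1 := ndN4q1) (n2 := ndN1q3) (pc := pcN1) (cut := Cut.none) (xt := Ext.none) (P1 := 536870912) (W1 := 536870912) (P2 := 1610612736) (W2 := 536870912) (P3 := 33554432) (W3 := 16777216) (N0 := 3)
    rfl rfl rfl k0_mm_113

noncomputable def f_mm_123 : ℕ → ℕ → ℕ → ℕ → Bool := onCell 536870912 536870912 1610612736 536870912 33554432 16777216
    (rowNK 3 0 false false false .npn 1 2 3 (qsf 536870912 536870912 1610612736 536870912 2) ndN4q1 ndN1q3 pcN2 Cut.none Ext.none)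

def k0_mm_123 : ∃ t, chk3 f_mm_123 t 1 1 1 = true :=
  ⟨(l 5), by decide +kernel⟩

theorem c_mm_123 : CertN 536870912 536870912 1610612736 536870912 33554432 16777216 3 false false false .npn 1 2 3
    ndN4q1 ndN1q3 pcN2 Cut.none Ext.none :=
  certNK0 (fam := false) (s1 := false) (s2 := false) (a := 1) (b := 2) (c := 3) (cn := .npn) (n1 := ndN4q1) (n2 := ndN1q3) (pc := pcN2) (cut := Cut.none) (xt := Ext.none) (P1 := 536870912) (W1 := 536870912) (P2 := 1610612736) (W2 := 536870912) (P3 := 33554432) (W3 := 16777216) (N0 := 3)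
    rfl rfl rfl k0_mm_123

noncomputable def f_mm_133 : ℕ → ℕ → ℕ → ℕ → Bool := onCell 536870912 536870912 1610612736 536870912 33554432 16777216
    (rowNK 3 0 false false false .dn 1 3 3 (qsf 536870912 536870912 1610612736 536870912 3) ndN4q1 ndN1q3 pcN3 Cut.none Ext.none)

def k0_mm_133 : ∃ t, chk3 f_mm_133 t 1 1 1 = true :=
  ⟨(l 5), by decide +kernel⟩

theorem c_mm_133 : CertN 536870912 536870912 1610612736 536870912 33554432 16777216 3 false false false .dn 1 3 3
    ndN4q1 ndN1q3 pcN3 Cut.none Ext.none :=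
  certNK0 (fam := false) (s1 := false) (s2 := false) (a := 1) (b := 3) (c := 3) (cn := .dn) (n1 := ndN4q1) (n2 := ndN1q3) (pc := pcN3) (cut := Cut.none) (xt := Ext.none) (P1 := 536870912) (W1 := 536870912) (P2 := 1610612736) (W2 := 536870912) (P3 := 33554432) (W3 := 16777216) (N0 := 3)
    rfl rfl rfl k0_mm_133

noncomputable def f_mm_202_a : ℕ → ℕ → ℕ → ℕ → Bool := onCell 1073741824 536870912 0 536870912 33554432 16777216
    (rowNK 3 0 false false false .pp 2 0 2 (qsf 1073741824 536870912 0 536870912 0) ndN4q2 ndN1q2a pcN0 Cut.none Ext.none)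

def k0_mm_202_a : ∃ t, chk3 f_mm_202_a t 1 1 1 = true :=
  ⟨(l 5), by decide +kernel⟩

theorem c_mm_202_a : CertN 1073741824 536870912 0 536870912 33554432 16777216 3 false false false .pp 2 0 2
    ndN4q2 ndN1q2a pcN0 Cut.none Ext.none :=
  certNK0 (fam := false) (s1 := false) (s2 := false) (a := 2) (b := 0) (c := 2) (cn := .pp) (n1 := ndN4q2) (n2 := ndN1q2a) (pc := pcN0) (cut := Cut.none) (xt := Ext.none) (P1 := 1073741824) (W1 := 536870912) (P2 := 0) (W2 := 536870912) (P3 := 33554432) (W3 := 16777216) (N0 := 3)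
    rfl rfl rfl k0_mm_202_a

noncomputable def f_mm_202_b : ℕ → ℕ → ℕ → ℕ → Bool := onCell 1073741824 536870912 1239849684 370763052 33554432 16777216
    (rowNK 3 0 false false false .pp 2 0 2 (qsf 1073741824 536870912 1239849684 370763052 0) ndN4q2 ndN1q2b pcN0 Cut.none Ext.none)

def k0_mm_202_b : ∃ t, chk3 f_mm_202_b t 1 1 1 = true :=
  ⟨(l 5), by decide +kernel⟩

theorem c_mm_202_b : CertN 1073741824 536870912 1239849684 370763052 33554432 16777216 3 false false false .pp 2 0 2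
    ndN4q2 ndN1q2b pcN0 Cut.none Ext.none :=
  certNK0 (fam := false) (s1 := false) (s2 := false) (a := 2) (b := 0) (c := 2) (cn := .pp) (n1 := ndN4q2) (n2 := ndN1q2b) (pc := pcN0) (cut := Cut.none) (xt := Ext.none) (P1 := 1073741824) (W1 := 536870912) (P2 := 1239849684) (W2 := 370763052) (P3 := 33554432) (W3 := 16777216) (N0 := 3)
    rfl rfl rfl k0_mm_202_b

noncomputable def f_mm_203 : ℕ → ℕ → ℕ → ℕ → Bool := onCell 1073741824 536870912 1610612736 536870912 33554432 16777216
    (rowNK 3 0 false false false .up 2 0 3 (qsf 1073741824 536870912 1610612736 536870912 0) ndN4q2 ndN1q3 pcN0 Cut.none Ext.none)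

def k0_mm_203 : ∃ t, chk3 f_mm_203 t 1 1 1 = true :=
  ⟨(l 5), by decide +kernel⟩

theorem c_mm_203 : CertN 1073741824 536870912 1610612736 536870912 33554432 16777216 3 false false false .up 2 0 3
    ndN4q2 ndN1q3 pcN0 Cut.none Ext.none :=
  certNK0 (fam := false) (s1 := false) (s2 := false) (a := 2) (b := 0) (c := 3) (cn := .up) (n1 := ndN4q2) (n2 := ndN1q3) (pc := pcN0) (cut := Cut.none) (xt := Ext.none) (P1 := 1073741824) (W1 := 536870912) (P2 := 1610612736) (W2 := 536870912) (P3 := 33554432) (W3 := 16777216) (N0 := 3)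
    rfl rfl rfl k0_mm_203

noncomputable def f_mm_213 : ℕ → ℕ → ℕ → ℕ → Bool := onCell 1073741824 536870912 1610612736 536870912 33554432 16777216
    (rowNK 3 0 false false false .pnn 2 1 3 (qsf 1073741824 536870912 1610612736 536870912 1) ndN4q2 ndN1q3 pcN1 Cut.none Ext.none)

def k0_mm_213 : ∃ t, chk3 f_mm_213 t 1 1 1 = true :=
  ⟨(l 5), by decide +kernel⟩

theorem c_mm_213 : CertN 1073741824 536870912 1610612736 536870912 33554432 16777216 3 false false false .pnn 2 1 3
    ndN4q2 ndN1q3 pcN1 Cut.none Ext.none :=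
  certNK0 (fam := false) (s1 := false) (s2 := false) (a := 2) (b := 1) (c := 3) (cn := .pnn) (n1 := ndN4q2) (n2 := ndN1q3) (pc := pcN1) (cut := Cut.none) (xt := Ext.none) (P1 := 1073741824) (W1 := 536870912) (P2 := 1610612736) (W2 := 536870912) (P3 := 33554432) (W3 := 16777216) (N0 := 3)
    rfl rfl rfl k0_mm_213

noncomputable def f_mm_303 : ℕ → ℕ → ℕ → ℕ → Bool := onCell 0 1230186008 1610612736 536870912 33554432 16777216
    (rowNK 3 0 false false false .npn 3 0 3 (qsf 0 1230186008 1610612736 536870912 0) ndN4q3 ndN1q3 pcN0 Cut.none Ext.none)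

def k0_mm_303 : ∃ t, chk3 f_mm_303 t 1 1 1 = true :=
  ⟨(a (l 3) (l 5)), by decide +kernel⟩

theorem c_mm_303 : CertN 0 1230186008 1610612736 536870912 33554432 16777216 3 false false false .npn 3 0 3
    ndN4q3 ndN1q3 pcN0 Cut.none Ext.none :=
  certNK0 (fam := false) (s1 := false) (s2 := false) (a := 3) (b := 0) (c := 3) (cn := .npn) (n1 := ndN4q3) (n2 := ndN1q3) (pc := pcN0) (cut := Cut.none) (xt := Ext.none) (P1 := 0) (W1 := 1230186008) (P2 := 1610612736) (W2 := 536870912) (P3 := 33554432) (W3 := 16777216) (N0 := 3)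
    rfl rfl rfl k0_mm_303

noncomputable def f_mm_313 : ℕ → ℕ → ℕ → ℕ → Bool := onCell 0 1230186008 1610612736 536870912 33554432 16777216
    (rowNK 3 0 false false false .dn 3 1 3 (qsf 0 1230186008 1610612736 536870912 1) ndN4q3 ndN1q3 pcN1 Cut.none Ext.none)

def k0_mm_313 : ∃ t, chk3 f_mm_313 t 1 1 1 = true :=
  ⟨(a (l 1) (l 5)), by decide +kernel⟩

theorem c_mm_313 : CertN 0 1230186008 1610612736 536870912 33554432 16777216 3 false false false .dn 3 1 3
    ndN4q3 ndN1q3 pcN1 Cut.none Ext.none :=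
  certNK0 (fam := false) (s1 := false) (s2 := false) (a := 3) (b := 1) (c := 3) (cn := .dn) (n1 := ndN4q3) (n2 := ndN1q3) (pc := pcN1) (cut := Cut.none) (xt := Ext.none) (P1 := 0) (W1 := 1230186008) (P2 := 1610612736) (W2 := 536870912) (P3 := 33554432) (W3 := 16777216) (N0 := 3)
    rfl rfl rfl k0_mm_313

end Pool.Agent.Strip051.G.I1_32_3_64.Tab.C.NB41

namespace Pool.Agent.Strip051.G.I1_32_3_64.Tab.C.NB42

open Pool.Agent.Strip051.PB Pool.Agent.Strip051.PB.T
open Pool.Agent.Strip051.G.I1_32_3_64.Tab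

noncomputable def f_pp_001 : ℕ → ℕ → ℕ → ℕ → Bool := onCell 0 536870912 536870912 536870912 33554432 16777216
    (rowNK 3 0 false true true .up 0 0 1 (qsf 0 536870912 536870912 536870912 0) ndN4q0 ndN2q1 pcN0 Cut.none Ext.none)

def k0_pp_001 : ∃ t, chk3 f_pp_001 t 1 1 1 = true :=
  ⟨(l 3), by decide +kernel⟩

theorem c_pp_001 : CertN 0 536870912 536870912 536870912 33554432 16777216 3 false true true .up 0 0 1
    ndN4q0 ndN2q1 pcN0 Cut.none Ext.none :=
  certNK0 (fam := false) (s1 := true) (s2 := true) (a := 0) (b := 0) (c := 1) (cn := .up) (n1 := ndN4q0) (n2 := ndN2q1) (pc := pcN0) (cut := Cut.none) (xt := Ext.none) (P1 := 0) (W1 := 536870912) (P2 := 536870912) (W2 := 536870912) (P3 := 33554432) (W3 := 16777216) (N0 := 3)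
    rfl rfl rfl k0_pp_001

noncomputable def f_pp_011 : ℕ → ℕ → ℕ → ℕ → Bool := onCell 0 536870912 536870912 536870912 33554432 16777216
    (rowNK 3 0 false true true .pnn 0 1 1 (qsf 0 536870912 536870912 536870912 1) ndN4q0 ndN2q1 pcN1 Cut.none Ext.none)

def k0_pp_011 : ∃ t, chk3 f_pp_011 t 1 1 1 = true :=
  ⟨(l 3), by decide +kernel⟩

theorem c_pp_011 : CertN 0 536870912 536870912 536870912 33554432 16777216 3 false true true .pnn 0 1 1
    ndN4q0 ndN2q1 pcN1 Cut.none Ext.none :=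
  certNK0 (fam := false) (s1 := true) (s2 := true) (a := 0) (b := 1) (c := 1) (cn := .pnn) (n1 := ndN4q0) (n2 := ndN2q1) (pc := pcN1) (cut := Cut.none) (xt := Ext.none) (P1 := 0) (W1 := 536870912) (P2 := 536870912) (W2 := 536870912) (P3 := 33554432) (W3 := 16777216) (N0 := 3)
    rfl rfl rfl k0_pp_011

noncomputable def f_pp_012_a : ℕ → ℕ → ℕ → ℕ → Bool := onCell 536870912 536870912 0 536870912 33554432 16777216
    (rowNK 3 2 false true true .pnp 0 1 2 (qsf 0 536870912 0 536870912 1) ndN4q0 ndN2q2a pcN1 Cut.none Ext.none)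

def k0_pp_012_a : ∃ t, chk3 f_pp_012_a t 1 1 1 = true :=
  ⟨(a (b (a (l 19102472) (l 18921736)) (b (a (l 19088400) (l 19030168)) (b (l 19198784) (b (l 19262560) (b (l 19291200) (l 19315920)))))) (b (a (l 19026040) (a (l 19159456) (a (l 19228448) (a (l 19268336) (a (l 19290440) (l 19305248)))))) (a (b (l 19194808) (b (l 19341104) (b (l 19451624) (b (l 19502752) (l 19530648))))) (b (a (l 19321728) (a (l 19386952) (a (l 19430080) (a (l 19455136) (l 19473048))))) (a (b (l 19461576) (b (l 19559088) (b (l 19612376) (l 19650288)))) (b (a (l 19535552) (a (l 19586336) (a (l 19616416) (l 19637496)))) (a (b (l 19641688) (b (l 19701560) (l 19744024))) (b (a (l 19699768) (a (l 19733408) (l 19756800))) (a (b (l 19763576) (l 19808768)) (b (a (l 19799296) (l 19824032)) (a (l 19845936) (l 19871664)))))))))))), by decide +kernel⟩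

theorem c_pp_012_a : CertN 0 536870912 0 536870912 33554432 16777216 3 false true true .pnp 0 1 2
    ndN4q0 ndN2q2a pcN1 Cut.none Ext.none :=
  certNK2 (fam := false) (s1 := true) (s2 := true) (a := 0) (b := 1) (c := 2) (cn := .pnp) (n1 := ndN4q0) (n2 := ndN2q2a) (pc := pcN1) (cut := Cut.none) (xt := Ext.none) (P1 := 0) (W1 := 536870912) (P2 := 0) (W2 := 536870912) (P3 := 33554432) (W3 := 16777216) (N0 := 3)
    rfl rfl rfl (fun _ => rfl) k0_pp_012_a

noncomputable def f_pp_012_b : ℕ → ℕ → ℕ → ℕ → Bool := onCell 536870912 536870912 1239849684 370763052 33554432 16777216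
    (rowNK 3 2 false true true .pnp 0 1 2 (qsf 0 536870912 1239849684 370763052 1) ndN4q0 ndN2q2b pcN1 Cut.none Ext.none)

def k0_pp_012_b : ∃ t, chk3 f_pp_012_b t 1 1 1 = true :=
  ⟨(a (b (a (l 2) (b (l 18851808) (l 18840904))) (l 2)) (b (a (l 18778376) (a (l 18791248) (a (l 18859912) (a (l 18900120) (a (l 18921272) (l 18935728)))))) (a (b (l 18498360) (l 2)) (a (l 18274856) (a (l 18230208) (a (l 18224416) (a (l 18229016) (l 18234848)))))))), by decide +kernel⟩

theorem c_pp_012_b : CertN 0 536870912 1239849684 370763052 33554432 16777216 3 false true true .pnp 0 1 2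
    ndN4q0 ndN2q2b pcN1 Cut.none Ext.none :=
  certNK2 (fam := false) (s1 := true) (s2 := true) (a := 0) (b := 1) (c := 2) (cn := .pnp) (n1 := ndN4q0) (n2 := ndN2q2b) (pc := pcN1) (cut := Cut.none) (xt := Ext.none) (P1 := 0) (W1 := 536870912) (P2 := 1239849684) (W2 := 370763052) (P3 := 33554432) (W3 := 16777216) (N0 := 3)
    rfl rfl rfl (fun _ => rfl) k0_pp_012_b

noncomputable def f_pp_022_a : ℕ → ℕ → ℕ → ℕ → Bool := onCell 0 536870912 0 536870912 33554432 16777216
    (rowNK 3 0 false true true .pp 0 2 2 (qsf 0 536870912 0 536870912 2) ndN4q0 ndN2q2a pcN2 Cut.none Ext.none)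

def k0_pp_022_a : ∃ t, chk3 f_pp_022_a t 1 1 1 = true :=
  ⟨(a (b (l 19538864) (b (l 19682232) (b (l 19808464) (b (l 19887200) (b (l 19928056) (l 19954232)))))) (l 1)), by decide +kernel⟩

theorem c_pp_022_a : CertN 0 536870912 0 536870912 33554432 16777216 3 false true true .pp 0 2 2
    ndN4q0 ndN2q2a pcN2 Cut.none Ext.none :=
  certNK0 (fam := false) (s1 := true) (s2 := true) (a := 0) (b := 2) (c := 2) (cn := .pp) (n1 := ndN4q0) (n2 := ndN2q2a) (pc := pcN2) (cut := Cut.none) (xt := Ext.none) (P1 := 0) (W1 := 536870912) (P2 := 0) (W2 := 536870912) (P3 := 33554432) (W3 := 16777216) (N0 := 3)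
    rfl rfl rfl k0_pp_022_a

noncomputable def f_pp_022_b : ℕ → ℕ → ℕ → ℕ → Bool := onCell 1073741824 536870912 1239849684 370763052 33554432 16777216
    (rowNK 3 2 false true true .pp 0 2 2 (qsf 0 536870912 1239849684 370763052 2) ndN4q0 ndN2q2b pcN2 Cut.none Ext.none)

def k0_pp_022_b : ∃ t, chk3 f_pp_022_b t 1 1 1 = true :=
  ⟨(a (b (a (l 19137704) (l 19160312)) (a (l 18382832) (l 18482080))) (a (b (l 18933568) (l 18385488)) (b (l 1) (l 4)))), by decide +kernel⟩

theorem c_pp_022_b : CertN 0 536870912 1239849684 370763052 33554432 16777216 3 false true true .pp 0 2 2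
    ndN4q0 ndN2q2b pcN2 Cut.none Ext.none :=
  certNK2 (fam := false) (s1 := true) (s2 := true) (a := 0) (b := 2) (c := 2) (cn := .pp) (n1 := ndN4q0) (n2 := ndN2q2b) (pc := pcN2) (cut := Cut.none) (xt := Ext.none) (P1 := 0) (W1 := 536870912) (P2 := 1239849684) (W2 := 370763052) (P3 := 33554432) (W3 := 16777216) (N0 := 3)
    rfl rfl rfl (fun _ => rfl) k0_pp_022_b

noncomputable def f_pp_023 : ℕ → ℕ → ℕ → ℕ → Bool := onCell 0 536870912 1073741824 536870912 33554432 16777216
    (rowNK 3 1 false true true .up 0 2 3 (qsf 0 536870912 1610612736 536870912 2) ndN4q0 ndN2q3 pcN2 Cut.none Ext.none)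

def k0_pp_023 : ∃ t, chk3 f_pp_023 t 1 1 1 = true :=
  ⟨(b (a (l 525098085031) (b (l 18423528) (l 18187736))) (a (b (l 18445240) (l 4)) (b (l 17857256) (l 4)))), by decide +kernel⟩

theorem c_pp_023 : CertN 0 536870912 1610612736 536870912 33554432 16777216 3 false true true .up 0 2 3
    ndN4q0 ndN2q3 pcN2 Cut.none Ext.none :=
  certNK1 (fam := false) (s1 := true) (s2 := true) (a := 0) (b := 2) (c := 3) (cn := .up) (n1 := ndN4q0) (n2 := ndN2q3) (pc := pcN2) (cut := Cut.none) (xt := Ext.none) (P1 := 0) (W1 := 536870912) (P2 := 1610612736) (W2 := 536870912) (P3 := 33554432) (W3 := 16777216) (N0 := 3)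
    rfl rfl rfl (fun _ => rfl) k0_pp_023

noncomputable def f_pp_033 : ℕ → ℕ → ℕ → ℕ → Bool := onCell 1610612736 536870912 1610612736 536870912 33554432 16777216
    (rowNK 3 2 false true true .pnn 0 3 3 (qsf 0 536870912 1610612736 536870912 3) ndN4q0 ndN2q3 pcN3 Cut.none Ext.none)

def k0_pp_033 : ∃ t, chk3 f_pp_033 t 1 1 1 = true :=
  ⟨(l 4), by decide +kernel⟩

theorem c_pp_033 : CertN 0 536870912 1610612736 536870912 33554432 16777216 3 false true true .pnn 0 3 3
    ndN4q0 ndN2q3 pcN3 Cut.none Ext.none :=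
  certNK2 (fam := false) (s1 := true) (s2 := true) (a := 0) (b := 3) (c := 3) (cn := .pnn) (n1 := ndN4q0) (n2 := ndN2q3) (pc := pcN3) (cut := Cut.none) (xt := Ext.none) (P1 := 0) (W1 := 536870912) (P2 := 1610612736) (W2 := 536870912) (P3 := 33554432) (W3 := 16777216) (N0 := 3)
    rfl rfl rfl (fun _ => rfl) k0_pp_033

noncomputable def f_pp_101 : ℕ → ℕ → ℕ → ℕ → Bool := onCell 536870912 536870912 536870912 536870912 33554432 16777216
    (rowNK 3 0 false true true .npn 1 0 1 (qsf 536870912 536870912 536870912 536870912 0) ndN4q1 ndN2q1 pcN0 Cut.none Ext.none)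

def k0_pp_101 : ∃ t, chk3 f_pp_101 t 1 1 1 = true :=
  ⟨(l 3), by decide +kernel⟩

theorem c_pp_101 : CertN 536870912 536870912 536870912 536870912 33554432 16777216 3 false true true .npn 1 0 1
    ndN4q1 ndN2q1 pcN0 Cut.none Ext.none :=
  certNK0 (fam := false) (s1 := true) (s2 := true) (a := 1) (b := 0) (c := 1) (cn := .npn) (n1 := ndN4q1) (n2 := ndN2q1) (pc := pcN0) (cut := Cut.none) (xt := Ext.none) (P1 := 536870912) (W1 := 536870912) (P2 := 536870912) (W2 := 536870912) (P3 := 33554432) (W3 := 16777216) (N0 := 3)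
    rfl rfl rfl k0_pp_101

noncomputable def cut_pp_102_a : Cut := Cut.of [[⟨0, 1, 0, 33554432⟩, ⟨1, 0, 0, 33554432⟩, ⟨2, 1, 0, 33554432⟩]]

noncomputable def f_pp_102_a : ℕ → ℕ → ℕ → ℕ → Bool := onCell 536870912 536870912 0 536870912 33554432 16777216
    (rowNK 3 0 false true true .npp 1 0 2 (qsf 536870912 536870912 0 536870912 0) ndN4q1 ndN2q2a pcN0 cut_pp_102_a Ext.none)

def k0_pp_102_a : ∃ t, chk3 f_pp_102_a t 1 1 1 = true :=
  ⟨(a (b (a (l 18033616) (l 18666168)) (a (b (l 17901888) (b (l 17744696) (b (l 17627968) (b (l 17550552) (l 17489944))))) (b (l 18488344) (b (l 18265344) (b (l 18090312) (b (l 17972464) (l 17880456))))))) (b (a (l 19406936) (a (l 20000616) (a (l 20369720) (l 20655848)))) (a (b (a (l 18994896) (l 19320096)) (b (a (l 18692008) (l 18933440)) (b (l 18653584) (b (l 18331288) (l 18224928))))) (b (a (l 19666608) (a (l 19961000) (b (l 20329976) (a (l 19898728) (l 19910736))))) (b (a (l 19148392) (a (b (l 19411952) (l 19016024)) (a (b (l 19374256)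 (a (l 18848048) (l 18696152))) (b (a (l 19261064) (b (l 19292400) (l 18694320))) (a (b (l 18699968) (a (l 18257720) (l 18055544))) (b (c (l 18606512) (a (l 18077656) (b (l 17999936) (l 17584264)))) (a (c (l 18251984) (l 17329136)) (c (b (l 18162984) (a (l 17822992) (l 17441984))) (l 16699832))))))))) (b (a (l 18666704) (a (a (l 18524440) (l 18310640)) (a (a (b (l 18242440) (l 17691720)) (b (l 17933040) (l 17199320))) (a (b (a (l 17573648) (l 17237112)) (a (l 16699976) (l 16728840))) (b (a (l 16783784) (a (l 16705656) (l 16719720))) (a (l 16726008) (a (l 16731592) (b (l 16720664) (l 6))))))))) (b (a (l 18324024) (a (a (l 17999400) (l 17607184)) (a (a (l 16992144) (l 16733576)) (a (b (l 16727344) (l 6)) (l 6))))) (a (a (l 18116472) (l 17932752)) (a (a (l 17576680) (b (l 17187664) (l 16908472))) (a (b (l 16760240) (a (l 16767416) (l 6))) (l 6))))))))))), by decide +kernel⟩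

theorem c_pp_102_a : CertN 536870912 536870912 0 536870912 33554432 16777216 3 false true true .npp 1 0 2
    ndN4q1 ndN2q2a pcN0 cut_pp_102_a Ext.none :=
  certNK0 (fam := false) (s1 := true) (s2 := true) (a := 1) (b := 0) (c := 2) (cn := .npp) (n1 := ndN4q1) (n2 := ndN2q2a) (pc := pcN0) (cut := cut_pp_102_a) (xt := Ext.none) (P1 := 536870912) (W1 := 536870912) (P2 := 0) (W2 := 536870912) (P3 := 33554432) (W3 := 16777216) (N0 := 3)
    rfl rfl rfl k0_pp_102_a

noncomputable def cut_pp_102_b : Cut := Cut.of [[⟨0, 1, 0, 33554432⟩, ⟨1, 0, 0, 33554432⟩, ⟨2, 1, 0, 33554432⟩]]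

noncomputable def f_pp_102_b : ℕ → ℕ → ℕ → ℕ → Bool := onCell 0 536870912 1239849684 370763052 33554432 16777216
    (rowNK 3 2 false true true .npp 1 0 2 (qsf 536870912 536870912 1239849684 370763052 0) ndN4q1 ndN2q2b pcN0 cut_pp_102_b Ext.none)

def k0_pp_102_b : ∃ t, chk3 f_pp_102_b t 1 1 1 = true :=
  ⟨(a (a (l 2) (b (a (b (b (l 20803176) (l 2)) (l 2)) (b (l 20701952) (l 21060664))) (l 2))) (a (b (a (l 20683848) (l 20220000)) (a (l 2) (l 20945720))) (b (a (l 19806864) (l 19387496)) (l 20676192)))), by decide +kernel⟩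

theorem c_pp_102_b : CertN 536870912 536870912 1239849684 370763052 33554432 16777216 3 false true true .npp 1 0 2
    ndN4q1 ndN2q2b pcN0 cut_pp_102_b Ext.none :=
  certNK2 (fam := false) (s1 := true) (s2 := true) (a := 1) (b := 0) (c := 2) (cn := .npp) (n1 := ndN4q1) (n2 := ndN2q2b) (pc := pcN0) (cut := cut_pp_102_b) (xt := Ext.none) (P1 := 536870912) (W1 := 536870912) (P2 := 1239849684) (W2 := 370763052) (P3 := 33554432) (W3 := 16777216) (N0 := 3)
    rfl rfl rfl (fun _ => rfl) k0_pp_102_b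

noncomputable def f_pp_112_a : ℕ → ℕ → ℕ → ℕ → Bool := onCell 536870912 536870912 0 536870912 33554432 16777216
    (rowNK 3 2 false true true .dn 1 1 2 (qsf 536870912 536870912 0 536870912 1) ndN4q1 ndN2q2a pcN1 Cut.none Ext.none)

def k0_pp_112_a : ∃ t, chk3 f_pp_112_a t 1 1 1 = true :=
  ⟨(a (b (a (l 19068480) (l 18901216)) (b (a (l 19061424) (l 1)) (b (l 19145256) (b (l 19217472) (b (l 19250304) (l 19275624)))))) (l 1)), by decide +kernel⟩

theorem c_pp_112_a : CertN 536870912 536870912 0 536870912 33554432 16777216 3 false true true .dn 1 1 2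
    ndN4q1 ndN2q2a pcN1 Cut.none Ext.none :=
  certNK2 (fam := false) (s1 := true) (s2 := true) (a := 1) (b := 1) (c := 2) (cn := .dn) (n1 := ndN4q1) (n2 := ndN2q2a) (pc := pcN1) (cut := Cut.none) (xt := Ext.none) (P1 := 536870912) (W1 := 536870912) (P2 := 0) (W2 := 536870912) (P3 := 33554432) (W3 := 16777216) (N0 := 3)
    rfl rfl rfl (fun _ => rfl) k0_pp_112_a

noncomputable def f_pp_112_b : ℕ → ℕ → ℕ → ℕ → Bool := onCell 536870912 536870912 1239849684 370763052 33554432 16777216
    (rowNK 3 2 false true true .dn 1 1 2 (qsf 536870912 536870912 1239849684 370763052 1) ndN4q1 ndN2q2b pcN1 Cut.none Ext.none)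

def k0_pp_112_b : ∃ t, chk3 f_pp_112_b t 1 1 1 = true :=
  ⟨(a (a (b (l 19118328) (l 19219304)) (b (l 18819432) (l 18812272))) (b (a (l 18718632) (l 1)) (a (l 18433416) (a (l 18231120) (a (l 18203432) (a (l 18203328) (a (l 18210304) (l 18216448)))))))), by decide +kernel⟩

theorem c_pp_112_b : CertN 536870912 536870912 1239849684 370763052 33554432 16777216 3 false true true .dn 1 1 2
    ndN4q1 ndN2q2b pcN1 Cut.none Ext.none :=
  certNK2 (fam := false) (s1 := true) (s2 := true) (a := 1) (b := 1) (c := 2) (cn := .dn) (n1 := ndN4q1) (n2 := ndN2q2b) (pc := pcN1) (cut := Cut.none) (xt := Ext.none) (P1 := 536870912) (W1 := 536870912) (P2 := 1239849684) (W2 := 370763052) (P3 := 33554432) (W3 := 16777216) (N0 := 3)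
    rfl rfl rfl (fun _ => rfl) k0_pp_112_b

noncomputable def f_pp_113 : ℕ → ℕ → ℕ → ℕ → Bool := onCell 536870912 536870912 536870912 536870912 33554432 16777216
    (rowNK 3 1 false true true .nn 1 1 3 (qsf 536870912 536870912 1610612736 536870912 1) ndN4q1 ndN2q3 pcN1 Cut.none Ext.none)

def k0_pp_113 : ∃ t, chk3 f_pp_113 t 1 1 1 = true :=
  ⟨(a (b (b (l 1) (l 18680832)) (b (l 18576824) (b (l 18436600) (b (l 18336840) (b (l 18276752) (b (l 18243744) (l 18220208))))))) (b (b (l 19367200) (l 19134632)) (b (l 18732928) (b (l 18308672) (b (l 18019720) (b (l 17847064) (b (l 17752640) (l 17685352)))))))), by decide +kernel⟩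

theorem c_pp_113 : CertN 536870912 536870912 1610612736 536870912 33554432 16777216 3 false true true .nn 1 1 3
    ndN4q1 ndN2q3 pcN1 Cut.none Ext.none :=
  certNK1 (fam := false) (s1 := true) (s2 := true) (a := 1) (b := 1) (c := 3) (cn := .nn) (n1 := ndN4q1) (n2 := ndN2q3) (pc := pcN1) (cut := Cut.none) (xt := Ext.none) (P1 := 536870912) (W1 := 536870912) (P2 := 1610612736) (W2 := 536870912) (P3 := 33554432) (W3 := 16777216) (N0 := 3)
    rfl rfl rfl (fun _ => rfl) k0_pp_113

noncomputable def f_pp_123 : ℕ → ℕ → ℕ → ℕ → Bool := onCell 1073741824 536870912 1610612736 536870912 33554432 16777216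
    (rowNK 3 2 false true true .npn 1 2 3 (qsf 536870912 536870912 1610612736 536870912 2) ndN4q1 ndN2q3 pcN2 Cut.none Ext.none)

def k0_pp_123 : ∃ t, chk3 f_pp_123 t 1 1 1 = true :=
  ⟨(a (b (a (l 389805001575) (l 426848936935)) (a (b (l 17777144) (l 17255960)) (b (l 17562840) (l 4)))) (b (a (l 425775093303) (l 1)) (l 4))), by decide +kernel⟩

theorem c_pp_123 : CertN 536870912 536870912 1610612736 536870912 33554432 16777216 3 false true true .npn 1 2 3
    ndN4q1 ndN2q3 pcN2 Cut.none Ext.none :=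
  certNK2 (fam := false) (s1 := true) (s2 := true) (a := 1) (b := 2) (c := 3) (cn := .npn) (n1 := ndN4q1) (n2 := ndN2q3) (pc := pcN2) (cut := Cut.none) (xt := Ext.none) (P1 := 536870912) (W1 := 536870912) (P2 := 1610612736) (W2 := 536870912) (P3 := 33554432) (W3 := 16777216) (N0 := 3)
    rfl rfl rfl (fun _ => rfl) k0_pp_123

noncomputable def f_pp_133 : ℕ → ℕ → ℕ → ℕ → Bool := onCell 1610612736 536870912 1610612736 536870912 33554432 16777216
    (rowNK 3 2 false true true .dn 1 3 3 (qsf 536870912 536870912 1610612736 536870912 3) ndN4q1 ndN2q3 pcN3 Cut.none Ext.none)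

def k0_pp_133 : ∃ t, chk3 f_pp_133 t 1 1 1 = true :=
  ⟨(l 4), by decide +kernel⟩

theorem c_pp_133 : CertN 536870912 536870912 1610612736 536870912 33554432 16777216 3 false true true .dn 1 3 3
    ndN4q1 ndN2q3 pcN3 Cut.none Ext.none :=
  certNK2 (fam := false) (s1 := true) (s2 := true) (a := 1) (b := 3) (c := 3) (cn := .dn) (n1 := ndN4q1) (n2 := ndN2q3) (pc := pcN3) (cut := Cut.none) (xt := Ext.none) (P1 := 536870912) (W1 := 536870912) (P2 := 1610612736) (W2 := 536870912) (P3 := 33554432) (W3 := 16777216) (N0 := 3)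
    rfl rfl rfl (fun _ => rfl) k0_pp_133

noncomputable def cut_pp_202_a : Cut := Cut.of [[⟨0, 1, 0, 33554432⟩, ⟨1, 0, 0, 33554432⟩, ⟨2, 1, 0, 33554432⟩]]

noncomputable def f_pp_202_a : ℕ → ℕ → ℕ → ℕ → Bool := onCell 1073741824 536870912 0 536870912 33554432 16777216
    (rowNK 3 0 false true true .pp 2 0 2 (qsf 1073741824 536870912 0 536870912 0) ndN4q2 ndN2q2a pcN0 cut_pp_202_a Ext.none)

def k0_pp_202_a : ∃ t, chk3 f_pp_202_a t 1 1 1 = true :=
  ⟨(a (a (a (b (b (l 20560720) (l 200428403607)) (a (a (b (b (l 20327968) (l 168213859367)) (a (b (b (b (l 19149144) (c (l 19104512) (l 141904755095))) (a (b (c (l 18539936) (b (l 17801248) (c (l 17616808) (l 129017117127)))) (b (c (c (l 18273320) (l 133850052135)) (a (l 16943456) (l 125258907015))) (b (c (c (l 17929472) (l 131165408919)) (l 128479764183)) (l 129016702455)))) (b (l 1313356609719) (l 3)))) (b (b (a (a (b (l 133311630263) (l 135459128903)) (b (l 196125516775) (l 3))) (l 3)) (l 6)) (l 6))) (b (l 3) (l 3))))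 (b (l 1442209232487) (l 3))) (l 3))) (l 3)) (l 3)) (l 1)), by decide +kernel⟩

theorem c_pp_202_a : CertN 1073741824 536870912 0 536870912 33554432 16777216 3 false true true .pp 2 0 2
    ndN4q2 ndN2q2a pcN0 cut_pp_202_a Ext.none :=
  certNK0 (fam := false) (s1 := true) (s2 := true) (a := 2) (b := 0) (c := 2) (cn := .pp) (n1 := ndN4q2) (n2 := ndN2q2a) (pc := pcN0) (cut := cut_pp_202_a) (xt := Ext.none) (P1 := 1073741824) (W1 := 536870912) (P2 := 0) (W2 := 536870912) (P3 := 33554432) (W3 := 16777216) (N0 := 3)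
    rfl rfl rfl k0_pp_202_a

noncomputable def cut_pp_202_b : Cut := Cut.of [[⟨0, 1, 0, 33554432⟩, ⟨1, 0, 0, 33554432⟩, ⟨2, 1, 0, 33554432⟩]]

noncomputable def f_pp_202_b : ℕ → ℕ → ℕ → ℕ → Bool := onCell 1073741824 536870912 1239849684 370763052 33554432 16777216
    (rowNK 3 0 false true true .pp 2 0 2 (qsf 1073741824 536870912 1239849684 370763052 0) ndN4q2 ndN2q2b pcN0 cut_pp_202_b Ext.none)

def k0_pp_202_b : ∃ t, chk3 f_pp_202_b t 1 1 1 = true :=
  ⟨(a (b (a (b (a (b (l 20706224) (l 20805560)) (l 904802802775)) (a (l 20797432) (l 20615992))) (l 3)) (a (b (a (l 20737752) (l 20302688)) (a (l 20738152) (l 20300016))) (b (a (l 20131984) (l 3)) (a (l 19832808) (l 19726400))))) (l 3)), by decide +kernel⟩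

theorem c_pp_202_b : CertN 1073741824 536870912 1239849684 370763052 33554432 16777216 3 false true true .pp 2 0 2
    ndN4q2 ndN2q2b pcN0 cut_pp_202_b Ext.none :=
  certNK0 (fam := false) (s1 := true) (s2 := true) (a := 2) (b := 0) (c := 2) (cn := .pp) (n1 := ndN4q2) (n2 := ndN2q2b) (pc := pcN0) (cut := cut_pp_202_b) (xt := Ext.none) (P1 := 1073741824) (W1 := 536870912) (P2 := 1239849684) (W2 := 370763052) (P3 := 33554432) (W3 := 16777216) (N0 := 3)
    rfl rfl rfl k0_pp_202_b

noncomputable def f_pp_203 : ℕ → ℕ → ℕ → ℕ → Bool := onCell 1073741824 536870912 0 536870912 33554432 16777216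
    (rowNK 3 1 false true true .up 2 0 3 (qsf 1073741824 536870912 1610612736 536870912 0) ndN4q2 ndN2q3 pcN0 Cut.none Ext.none)

def k0_pp_203 : ∃ t, chk3 f_pp_203 t 1 1 1 = true :=
  ⟨(b (a (b (l 1) (a (l 1) (l 458528206999))) (a (l 3) (l 3))) (a (b (a (l 20537200) (l 19690832)) (l 20447912)) (b (a (l 18762136) (l 18237008)) (a (l 19049848) (l 18320272))))), by decide +kernel⟩

theorem c_pp_203 : CertN 1073741824 536870912 1610612736 536870912 33554432 16777216 3 false true true .up 2 0 3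
    ndN4q2 ndN2q3 pcN0 Cut.none Ext.none :=
  certNK1 (fam := false) (s1 := true) (s2 := true) (a := 2) (b := 0) (c := 3) (cn := .up) (n1 := ndN4q2) (n2 := ndN2q3) (pc := pcN0) (cut := Cut.none) (xt := Ext.none) (P1 := 1073741824) (W1 := 536870912) (P2 := 1610612736) (W2 := 536870912) (P3 := 33554432) (W3 := 16777216) (N0 := 3)
    rfl rfl rfl (fun _ => rfl) k0_pp_203

noncomputable def f_pp_213 : ℕ → ℕ → ℕ → ℕ → Bool := onCell 536870912 536870912 1610612736 536870912 33554432 16777216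
    (rowNK 3 2 false true true .pnn 2 1 3 (qsf 1073741824 536870912 1610612736 536870912 1) ndN4q2 ndN2q3 pcN1 Cut.none Ext.none)

def k0_pp_213 : ∃ t, chk3 f_pp_213 t 1 1 1 = true :=
  ⟨(a (b (a (b (l 19554648) (l 18704296)) (b (l 19847912) (l 19131064))) (a (b (l 17766768) (a (l 16885304) (l 16846152))) (b (l 18179064) (l 17109776)))) (b (a (l 372091225607) (l 1)) (a (b (l 18513344) (l 17384440)) (a (l 18061064) (a (l 18050160) (a (l 17998656) (a (l 17970776) (l 17953264)))))))), by decide +kernel⟩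

theorem c_pp_213 : CertN 1073741824 536870912 1610612736 536870912 33554432 16777216 3 false true true .pnn 2 1 3
    ndN4q2 ndN2q3 pcN1 Cut.none Ext.none :=
  certNK2 (fam := false) (s1 := true) (s2 := true) (a := 2) (b := 1) (c := 3) (cn := .pnn) (n1 := ndN4q2) (n2 := ndN2q3) (pc := pcN1) (cut := Cut.none) (xt := Ext.none) (P1 := 1073741824) (W1 := 536870912) (P2 := 1610612736) (W2 := 536870912) (P3 := 33554432) (W3 := 16777216) (N0 := 3)
    rfl rfl rfl (fun _ => rfl) k0_pp_213

noncomputable def f_pp_303 : ℕ → ℕ → ℕ → ℕ → Bool := onCell 0 1230186008 1610612736 536870912 33554432 16777216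
    (rowNK 3 0 false true true .npn 3 0 3 (qsf 0 1230186008 1610612736 536870912 0) ndN4q3 ndN2q3 pcN0 Cut.none Ext.none)

def k0_pp_303 : ∃ t, chk3 f_pp_303 t 1 1 1 = true :=
  ⟨(a (l 3) (a (l 3) (b (l 3) (a (b (l 3) (a (l 3) (l 326051054455))) (b (a (l 3) (l 361484810759)) (a (b (l 17896240) (l 17949016)) (l 191296750759))))))), by decide +kernel⟩

theorem c_pp_303 : CertN 0 1230186008 1610612736 536870912 33554432 16777216 3 false true true .npn 3 0 3
    ndN4q3 ndN2q3 pcN0 Cut.none Ext.none :=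
  certNK0 (fam := false) (s1 := true) (s2 := true) (a := 3) (b := 0) (c := 3) (cn := .npn) (n1 := ndN4q3) (n2 := ndN2q3) (pc := pcN0) (cut := Cut.none) (xt := Ext.none) (P1 := 0) (W1 := 1230186008) (P2 := 1610612736) (W2 := 536870912) (P3 := 33554432) (W3 := 16777216) (N0 := 3)
    rfl rfl rfl k0_pp_303

noncomputable def f_pp_313 : ℕ → ℕ → ℕ → ℕ → Bool := onCell 0 1230186008 1610612736 536870912 33554432 16777216
    (rowNK 3 0 false true true .dn 3 1 3 (qsf 0 1230186008 1610612736 536870912 1) ndN4q3 ndN2q3 pcN1 Cut.none Ext.none)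

def k0_pp_313 : ∃ t, chk3 f_pp_313 t 1 1 1 = true :=
  ⟨(a (l 1) (a (l 1) (b (l 1) (a (l 1) (b (l 1) (a (l 1) (b (l 1) (l 16825888)))))))), by decide +kernel⟩

theorem c_pp_313 : CertN 0 1230186008 1610612736 536870912 33554432 16777216 3 false true true .dn 3 1 3
    ndN4q3 ndN2q3 pcN1 Cut.none Ext.none :=
  certNK0 (fam := false) (s1 := true) (s2 := true) (a := 3) (b := 1) (c := 3) (cn := .dn) (n1 := ndN4q3) (n2 := ndN2q3) (pc := pcN1) (cut := Cut.none) (xt := Ext.none) (P1 := 0) (W1 := 1230186008) (P2 := 1610612736) (W2 := 536870912) (P3 := 33554432) (W3 := 16777216) (N0 := 3)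
    rfl rfl rfl k0_pp_313

noncomputable def f_pm_001 : ℕ → ℕ → ℕ → ℕ → Bool := onCell 0 536870912 536870912 536870912 33554432 16777216
    (rowNK 3 0 false true false .up 0 0 1 (qsf 0 536870912 536870912 536870912 0) ndN4q0 ndN2q1 pcN0 Cut.none Ext.none)

def k0_pm_001 : ∃ t, chk3 f_pm_001 t 1 1 1 = true :=
  ⟨(l 4), by decide +kernel⟩

theorem c_pm_001 : CertN 0 536870912 536870912 536870912 33554432 16777216 3 false true false .up 0 0 1
    ndN4q0 ndN2q1 pcN0 Cut.none Ext.none :=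
  certNK0 (fam := false) (s1 := true) (s2 := false) (a := 0) (b := 0) (c := 1) (cn := .up) (n1 := ndN4q0) (n2 := ndN2q1) (pc := pcN0) (cut := Cut.none) (xt := Ext.none) (P1 := 0) (W1 := 536870912) (P2 := 536870912) (W2 := 536870912) (P3 := 33554432) (W3 := 16777216) (N0 := 3)
    rfl rfl rfl k0_pm_001

noncomputable def f_pm_011 : ℕ → ℕ → ℕ → ℕ → Bool := onCell 0 536870912 536870912 536870912 33554432 16777216
    (rowNK 3 0 false true false .pnn 0 1 1 (qsf 0 536870912 536870912 536870912 1) ndN4q0 ndN2q1 pcN1 Cut.none Ext.none)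

def k0_pm_011 : ∃ t, chk3 f_pm_011 t 1 1 1 = true :=
  ⟨(l 4), by decide +kernel⟩

theorem c_pm_011 : CertN 0 536870912 536870912 536870912 33554432 16777216 3 false true false .pnn 0 1 1
    ndN4q0 ndN2q1 pcN1 Cut.none Ext.none :=
  certNK0 (fam := false) (s1 := true) (s2 := false) (a := 0) (b := 1) (c := 1) (cn := .pnn) (n1 := ndN4q0) (n2 := ndN2q1) (pc := pcN1) (cut := Cut.none) (xt := Ext.none) (P1 := 0) (W1 := 536870912) (P2 := 536870912) (W2 := 536870912) (P3 := 33554432) (W3 := 16777216) (N0 := 3)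
    rfl rfl rfl k0_pm_011

noncomputable def f_pm_012_a : ℕ → ℕ → ℕ → ℕ → Bool := onCell 0 536870912 0 536870912 33554432 16777216
    (rowNK 3 0 false true false .pnp 0 1 2 (qsf 0 536870912 0 536870912 1) ndN4q0 ndN2q2a pcN1 Cut.none Ext.none)

def k0_pm_012_a : ∃ t, chk3 f_pm_012_a t 1 1 1 = true :=
  ⟨(l 4), by decide +kernel⟩

theorem c_pm_012_a : CertN 0 536870912 0 536870912 33554432 16777216 3 false true false .pnp 0 1 2
    ndN4q0 ndN2q2a pcN1 Cut.none Ext.none :=
  certNK0 (fam := false) (s1 := true) (s2 := false) (a := 0) (b := 1) (c := 2) (cn := .pnp) (n1 := ndN4q0) (n2 := ndN2q2a) (pc := pcN1) (cut := Cut.none) (xt := Ext.none) (P1 := 0) (W1 := 536870912) (P2 := 0) (W2 := 536870912) (P3 := 33554432) (W3 := 16777216) (N0 := 3)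
    rfl rfl rfl k0_pm_012_a

noncomputable def f_pm_012_b : ℕ → ℕ → ℕ → ℕ → Bool := onCell 0 536870912 1239849684 370763052 33554432 16777216
    (rowNK 3 0 false true false .pnp 0 1 2 (qsf 0 536870912 1239849684 370763052 1) ndN4q0 ndN2q2b pcN1 Cut.none Ext.none)

def k0_pm_012_b : ∃ t, chk3 f_pm_012_b t 1 1 1 = true :=
  ⟨(l 4), by decide +kernel⟩

theorem c_pm_012_b : CertN 0 536870912 1239849684 370763052 33554432 16777216 3 false true false .pnp 0 1 2
    ndN4q0 ndN2q2b pcN1 Cut.none Ext.none :=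
  certNK0 (fam := false) (s1 := true) (s2 := false) (a := 0) (b := 1) (c := 2) (cn := .pnp) (n1 := ndN4q0) (n2 := ndN2q2b) (pc := pcN1) (cut := Cut.none) (xt := Ext.none) (P1 := 0) (W1 := 536870912) (P2 := 1239849684) (W2 := 370763052) (P3 := 33554432) (W3 := 16777216) (N0 := 3)
    rfl rfl rfl k0_pm_012_b

noncomputable def f_pm_022_a : ℕ → ℕ → ℕ → ℕ → Bool := onCell 0 536870912 0 536870912 33554432 16777216
    (rowNK 3 0 false true false .pp 0 2 2 (qsf 0 536870912 0 536870912 2) ndN4q0 ndN2q2a pcN2 Cut.none Ext.none)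

def k0_pm_022_a : ∃ t, chk3 f_pm_022_a t 1 1 1 = true :=
  ⟨(l 4), by decide +kernel⟩

theorem c_pm_022_a : CertN 0 536870912 0 536870912 33554432 16777216 3 false true false .pp 0 2 2
    ndN4q0 ndN2q2a pcN2 Cut.none Ext.none :=
  certNK0 (fam := false) (s1 := true) (s2 := false) (a := 0) (b := 2) (c := 2) (cn := .pp) (n1 := ndN4q0) (n2 := ndN2q2a) (pc := pcN2) (cut := Cut.none) (xt := Ext.none) (P1 := 0) (W1 := 536870912) (P2 := 0) (W2 := 536870912) (P3 := 33554432) (W3 := 16777216) (N0 := 3)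
    rfl rfl rfl k0_pm_022_a

noncomputable def f_pm_022_b : ℕ → ℕ → ℕ → ℕ → Bool := onCell 0 536870912 1239849684 370763052 33554432 16777216
    (rowNK 3 0 false true false .pp 0 2 2 (qsf 0 536870912 1239849684 370763052 2) ndN4q0 ndN2q2b pcN2 Cut.none Ext.none)

def k0_pm_022_b : ∃ t, chk3 f_pm_022_b t 1 1 1 = true :=
  ⟨(l 4), by decide +kernel⟩

theorem c_pm_022_b : CertN 0 536870912 1239849684 370763052 33554432 16777216 3 false true false .pp 0 2 2
    ndN4q0 ndN2q2b pcN2 Cut.none Ext.none :=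
  certNK0 (fam := false) (s1 := true) (s2 := false) (a := 0) (b := 2) (c := 2) (cn := .pp) (n1 := ndN4q0) (n2 := ndN2q2b) (pc := pcN2) (cut := Cut.none) (xt := Ext.none) (P1 := 0) (W1 := 536870912) (P2 := 1239849684) (W2 := 370763052) (P3 := 33554432) (W3 := 16777216) (N0 := 3)
    rfl rfl rfl k0_pm_022_b

noncomputable def f_pm_023 : ℕ → ℕ → ℕ → ℕ → Bool := onCell 0 536870912 1610612736 536870912 33554432 16777216
    (rowNK 3 0 false true false .up 0 2 3 (qsf 0 536870912 1610612736 536870912 2) ndN4q0 ndN2q3 pcN2 Cut.none Ext.none)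

def k0_pm_023 : ∃ t, chk3 f_pm_023 t 1 1 1 = true :=
  ⟨(l 4), by decide +kernel⟩

theorem c_pm_023 : CertN 0 536870912 1610612736 536870912 33554432 16777216 3 false true false .up 0 2 3
    ndN4q0 ndN2q3 pcN2 Cut.none Ext.none :=
  certNK0 (fam := false) (s1 := true) (s2 := false) (a := 0) (b := 2) (c := 3) (cn := .up) (n1 := ndN4q0) (n2 := ndN2q3) (pc := pcN2) (cut := Cut.none) (xt := Ext.none) (P1 := 0) (W1 := 536870912) (P2 := 1610612736) (W2 := 536870912) (P3 := 33554432) (W3 := 16777216) (N0 := 3)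
    rfl rfl rfl k0_pm_023

noncomputable def f_pm_033 : ℕ → ℕ → ℕ → ℕ → Bool := onCell 0 536870912 1610612736 536870912 33554432 16777216
    (rowNK 3 0 false true false .pnn 0 3 3 (qsf 0 536870912 1610612736 536870912 3) ndN4q0 ndN2q3 pcN3 Cut.none Ext.none)

def k0_pm_033 : ∃ t, chk3 f_pm_033 t 1 1 1 = true :=
  ⟨(l 4), by decide +kernel⟩

theorem c_pm_033 : CertN 0 536870912 1610612736 536870912 33554432 16777216 3 false true false .pnn 0 3 3
    ndN4q0 ndN2q3 pcN3 Cut.none Ext.none :=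
  certNK0 (fam := false) (s1 := true) (s2 := false) (a := 0) (b := 3) (c := 3) (cn := .pnn) (n1 := ndN4q0) (n2 := ndN2q3) (pc := pcN3) (cut := Cut.none) (xt := Ext.none) (P1 := 0) (W1 := 536870912) (P2 := 1610612736) (W2 := 536870912) (P3 := 33554432) (W3 := 16777216) (N0 := 3)
    rfl rfl rfl k0_pm_033

noncomputable def f_pm_101 : ℕ → ℕ → ℕ → ℕ → Bool := onCell 536870912 536870912 536870912 536870912 33554432 16777216
    (rowNK 3 0 false true false .npn 1 0 1 (qsf 536870912 536870912 536870912 536870912 0) ndN4q1 ndN2q1 pcN0 Cut.none Ext.none)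

def k0_pm_101 : ∃ t, chk3 f_pm_101 t 1 1 1 = true :=
  ⟨(l 4), by decide +kernel⟩

theorem c_pm_101 : CertN 536870912 536870912 536870912 536870912 33554432 16777216 3 false true false .npn 1 0 1
    ndN4q1 ndN2q1 pcN0 Cut.none Ext.none :=
  certNK0 (fam := false) (s1 := true) (s2 := false) (a := 1) (b := 0) (c := 1) (cn := .npn) (n1 := ndN4q1) (n2 := ndN2q1) (pc := pcN0) (cut := Cut.none) (xt := Ext.none) (P1 := 536870912) (W1 := 536870912) (P2 := 536870912) (W2 := 536870912) (P3 := 33554432) (W3 := 16777216) (N0 := 3)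
    rfl rfl rfl k0_pm_101

noncomputable def f_pm_102_a : ℕ → ℕ → ℕ → ℕ → Bool := onCell 536870912 536870912 0 536870912 33554432 16777216
    (rowNK 3 0 false true false .npp 1 0 2 (qsf 536870912 536870912 0 536870912 0) ndN4q1 ndN2q2a pcN0 Cut.none Ext.none)

def k0_pm_102_a : ∃ t, chk3 f_pm_102_a t 1 1 1 = true :=
  ⟨(l 4), by decide +kernel⟩

theorem c_pm_102_a : CertN 536870912 536870912 0 536870912 33554432 16777216 3 false true false .npp 1 0 2
    ndN4q1 ndN2q2a pcN0 Cut.none Ext.none :=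
  certNK0 (fam := false) (s1 := true) (s2 := false) (a := 1) (b := 0) (c := 2) (cn := .npp) (n1 := ndN4q1) (n2 := ndN2q2a) (pc := pcN0) (cut := Cut.none) (xt := Ext.none) (P1 := 536870912) (W1 := 536870912) (P2 := 0) (W2 := 536870912) (P3 := 33554432) (W3 := 16777216) (N0 := 3)
    rfl rfl rfl k0_pm_102_a

noncomputable def f_pm_102_b : ℕ → ℕ → ℕ → ℕ → Bool := onCell 536870912 536870912 1239849684 370763052 33554432 16777216
    (rowNK 3 0 false true false .npp 1 0 2 (qsf 536870912 536870912 1239849684 370763052 0) ndN4q1 ndN2q2b pcN0 Cut.none Ext.none)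

def k0_pm_102_b : ∃ t, chk3 f_pm_102_b t 1 1 1 = true :=
  ⟨(l 4), by decide +kernel⟩

theorem c_pm_102_b : CertN 536870912 536870912 1239849684 370763052 33554432 16777216 3 false true false .npp 1 0 2
    ndN4q1 ndN2q2b pcN0 Cut.none Ext.none :=
  certNK0 (fam := false) (s1 := true) (s2 := false) (a := 1) (b := 0) (c := 2) (cn := .npp) (n1 := ndN4q1) (n2 := ndN2q2b) (pc := pcN0) (cut := Cut.none) (xt := Ext.none) (P1 := 536870912) (W1 := 536870912) (P2 := 1239849684) (W2 := 370763052) (P3 := 33554432) (W3 := 16777216) (N0 := 3)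
    rfl rfl rfl k0_pm_102_b

noncomputable def f_pm_112_a : ℕ → ℕ → ℕ → ℕ → Bool := onCell 536870912 536870912 0 536870912 33554432 16777216
    (rowNK 3 0 false true false .dn 1 1 2 (qsf 536870912 536870912 0 536870912 1) ndN4q1 ndN2q2a pcN1 Cut.none Ext.none)

def k0_pm_112_a : ∃ t, chk3 f_pm_112_a t 1 1 1 = true :=
  ⟨(l 4), by decide +kernel⟩

theorem c_pm_112_a : CertN 536870912 536870912 0 536870912 33554432 16777216 3 false true false .dn 1 1 2
    ndN4q1 ndN2q2a pcN1 Cut.none Ext.none :=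
  certNK0 (fam := false) (s1 := true) (s2 := false) (a := 1) (b := 1) (c := 2) (cn := .dn) (n1 := ndN4q1) (n2 := ndN2q2a) (pc := pcN1) (cut := Cut.none) (xt := Ext.none) (P1 := 536870912) (W1 := 536870912) (P2 := 0) (W2 := 536870912) (P3 := 33554432) (W3 := 16777216) (N0 := 3)
    rfl rfl rfl k0_pm_112_a

noncomputable def f_pm_112_b : ℕ → ℕ → ℕ → ℕ → Bool := onCell 536870912 536870912 1239849684 370763052 33554432 16777216
    (rowNK 3 0 false true false .dn 1 1 2 (qsf 536870912 536870912 1239849684 370763052 1) ndN4q1 ndN2q2b pcN1 Cut.none Ext.none)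

def k0_pm_112_b : ∃ t, chk3 f_pm_112_b t 1 1 1 = true :=
  ⟨(l 4), by decide +kernel⟩

theorem c_pm_112_b : CertN 536870912 536870912 1239849684 370763052 33554432 16777216 3 false true false .dn 1 1 2
    ndN4q1 ndN2q2b pcN1 Cut.none Ext.none :=
  certNK0 (fam := false) (s1 := true) (s2 := false) (a := 1) (b := 1) (c := 2) (cn := .dn) (n1 := ndN4q1) (n2 := ndN2q2b) (pc := pcN1) (cut := Cut.none) (xt := Ext.none) (P1 := 536870912) (W1 := 536870912) (P2 := 1239849684) (W2 := 370763052) (P3 := 33554432) (W3 := 16777216) (N0 := 3)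
    rfl rfl rfl k0_pm_112_b

noncomputable def f_pm_113 : ℕ → ℕ → ℕ → ℕ → Bool := onCell 536870912 536870912 1610612736 536870912 33554432 16777216
    (rowNK 3 0 false true false .nn 1 1 3 (qsf 536870912 536870912 1610612736 536870912 1) ndN4q1 ndN2q3 pcN1 Cut.none Ext.none)

def k0_pm_113 : ∃ t, chk3 f_pm_113 t 1 1 1 = true :=
  ⟨(a (l 4) (b (l 4) (b (l 4) (b (l 4) (b (l 4) (b (l 4) (b (l 4) (l 16884992)))))))), by decide +kernel⟩

theorem c_pm_113 : CertN 536870912 536870912 1610612736 536870912 33554432 16777216 3 false true false .nn 1 1 3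
    ndN4q1 ndN2q3 pcN1 Cut.none Ext.none :=
  certNK0 (fam := false) (s1 := true) (s2 := false) (a := 1) (b := 1) (c := 3) (cn := .nn) (n1 := ndN4q1) (n2 := ndN2q3) (pc := pcN1) (cut := Cut.none) (xt := Ext.none) (P1 := 536870912) (W1 := 536870912) (P2 := 1610612736) (W2 := 536870912) (P3 := 33554432) (W3 := 16777216) (N0 := 3)
    rfl rfl rfl k0_pm_113

noncomputable def f_pm_123 : ℕ → ℕ → ℕ → ℕ → Bool := onCell 536870912 536870912 1610612736 536870912 33554432 16777216
    (rowNK 3 0 false true false .npn 1 2 3 (qsf 536870912 536870912 1610612736 536870912 2) ndN4q1 ndN2q3 pcN2 Cut.none Ext.none)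

def k0_pm_123 : ∃ t, chk3 f_pm_123 t 1 1 1 = true :=
  ⟨(a (l 4) (b (l 4) (a (l 4) (b (l 4) (l 17271448))))), by decide +kernel⟩

theorem c_pm_123 : CertN 536870912 536870912 1610612736 536870912 33554432 16777216 3 false true false .npn 1 2 3
    ndN4q1 ndN2q3 pcN2 Cut.none Ext.none :=
  certNK0 (fam := false) (s1 := true) (s2 := false) (a := 1) (b := 2) (c := 3) (cn := .npn) (n1 := ndN4q1) (n2 := ndN2q3) (pc := pcN2) (cut := Cut.none) (xt := Ext.none) (P1 := 536870912) (W1 := 536870912) (P2 := 1610612736) (W2 := 536870912) (P3 := 33554432) (W3 := 16777216) (N0 := 3)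
    rfl rfl rfl k0_pm_123

noncomputable def f_pm_133 : ℕ → ℕ → ℕ → ℕ → Bool := onCell 1610612736 536870912 1610612736 536870912 33554432 16777216
    (rowNK 3 2 false true false .dn 1 3 3 (qsf 536870912 536870912 1610612736 536870912 3) ndN4q1 ndN2q3 pcN3 Cut.none Ext.none)

def k0_pm_133 : ∃ t, chk3 f_pm_133 t 1 1 1 = true :=
  ⟨(l 4), by decide +kernel⟩

theorem c_pm_133 : CertN 536870912 536870912 1610612736 536870912 33554432 16777216 3 false true false .dn 1 3 3
    ndN4q1 ndN2q3 pcN3 Cut.none Ext.none :=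
  certNK2 (fam := false) (s1 := true) (s2 := false) (a := 1) (b := 3) (c := 3) (cn := .dn) (n1 := ndN4q1) (n2 := ndN2q3) (pc := pcN3) (cut := Cut.none) (xt := Ext.none) (P1 := 536870912) (W1 := 536870912) (P2 := 1610612736) (W2 := 536870912) (P3 := 33554432) (W3 := 16777216) (N0 := 3)
    rfl rfl rfl (fun _ => rfl) k0_pm_133

noncomputable def f_pm_202_a : ℕ → ℕ → ℕ → ℕ → Bool := onCell 0 536870912 0 536870912 33554432 16777216
    (rowNK 3 2 false true false .pp 2 0 2 (qsf 1073741824 536870912 0 536870912 0) ndN4q2 ndN2q2a pcN0 Cut.none Ext.none)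

def k0_pm_202_a : ∃ t, chk3 f_pm_202_a t 1 1 1 = true :=
  ⟨(l 4), by decide +kernel⟩

theorem c_pm_202_a : CertN 1073741824 536870912 0 536870912 33554432 16777216 3 false true false .pp 2 0 2
    ndN4q2 ndN2q2a pcN0 Cut.none Ext.none :=
  certNK2 (fam := false) (s1 := true) (s2 := false) (a := 2) (b := 0) (c := 2) (cn := .pp) (n1 := ndN4q2) (n2 := ndN2q2a) (pc := pcN0) (cut := Cut.none) (xt := Ext.none) (P1 := 1073741824) (W1 := 536870912) (P2 := 0) (W2 := 536870912) (P3 := 33554432) (W3 := 16777216) (N0 := 3)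
    rfl rfl rfl (fun _ => rfl) k0_pm_202_a

noncomputable def f_pm_202_b : ℕ → ℕ → ℕ → ℕ → Bool := onCell 0 536870912 1239849684 370763052 33554432 16777216
    (rowNK 3 2 false true false .pp 2 0 2 (qsf 1073741824 536870912 1239849684 370763052 0) ndN4q2 ndN2q2b pcN0 Cut.none Ext.none)

def k0_pm_202_b : ∃ t, chk3 f_pm_202_b t 1 1 1 = true :=
  ⟨(a (b (l 4) (a (b (a (l 18460648) (l 18649208)) (a (l 18033808) (l 18141960))) (b (l 4) (a (l 18259776) (l 18408240))))) (l 4)), by decide +kernel⟩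

theorem c_pm_202_b : CertN 1073741824 536870912 1239849684 370763052 33554432 16777216 3 false true false .pp 2 0 2
    ndN4q2 ndN2q2b pcN0 Cut.none Ext.none :=
  certNK2 (fam := false) (s1 := true) (s2 := false) (a := 2) (b := 0) (c := 2) (cn := .pp) (n1 := ndN4q2) (n2 := ndN2q2b) (pc := pcN0) (cut := Cut.none) (xt := Ext.none) (P1 := 1073741824) (W1 := 536870912) (P2 := 1239849684) (W2 := 370763052) (P3 := 33554432) (W3 := 16777216) (N0 := 3)
    rfl rfl rfl (fun _ => rfl) k0_pm_202_b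

noncomputable def f_pm_203 : ℕ → ℕ → ℕ → ℕ → Bool := onCell 1073741824 536870912 0 536870912 33554432 16777216
    (rowNK 3 1 false true false .up 2 0 3 (qsf 1073741824 536870912 1610612736 536870912 0) ndN4q2 ndN2q3 pcN0 Cut.none Ext.none)

def k0_pm_203 : ∃ t, chk3 f_pm_203 t 1 1 1 = true :=
  ⟨(b (a (l 4) (a (b (l 265788759479) (a (l 18460696) (l 18306240))) (b (l 18264624) (a (l 18233104) (b (l 18257040) (l 17998152)))))) (a (a (l 4) (a (l 4) (b (l 18306960) (l 17966432)))) (a (a (b (l 18160680) (b (l 17850064) (l 18130376))) (b (b (l 18151072) (l 17973424)) (b (l 17575048) (l 18033728)))) (a (b (b (l 18018440) (l 17562464)) (b (b (l 17873792) (l 18319144)) (l 18436896))) (b (b (l 17626448) (a (l 18047800) (l 18601552))) (b (b (l 18446136) (l 18413664)) (l 18442264))))))), by decide +kernel⟩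

theorem c_pm_203 : CertN 1073741824 536870912 1610612736 536870912 33554432 16777216 3 false true false .up 2 0 3
    ndN4q2 ndN2q3 pcN0 Cut.none Ext.none :=
  certNK1 (fam := false) (s1 := true) (s2 := false) (a := 2) (b := 0) (c := 3) (cn := .up) (n1 := ndN4q2) (n2 := ndN2q3) (pc := pcN0) (cut := Cut.none) (xt := Ext.none) (P1 := 1073741824) (W1 := 536870912) (P2 := 1610612736) (W2 := 536870912) (P3 := 33554432) (W3 := 16777216) (N0 := 3)
    rfl rfl rfl (fun _ => rfl) k0_pm_203

noncomputable def f_pm_213 : ℕ → ℕ → ℕ → ℕ → Bool := onCell 536870912 536870912 1610612736 536870912 33554432 16777216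
    (rowNK 3 2 false true false .pnn 2 1 3 (qsf 1073741824 536870912 1610612736 536870912 1) ndN4q2 ndN2q3 pcN1 Cut.none Ext.none)

def k0_pm_213 : ∃ t, chk3 f_pm_213 t 1 1 1 = true :=
  ⟨(a (b (a (l 51778106503) (l 4)) (a (b (l 17977656) (b (l 17784592) (l 17395624))) (b (l 17946552) (b (l 17607704) (l 17249808))))) (b (l 4) (a (b (l 17855072) (l 17241696)) (a (b (l 4) (l 17164488)) (a (l 17484904) (a (l 17527904) (a (l 17549264) (l 17567192)))))))), by decide +kernel⟩

theorem c_pm_213 : CertN 1073741824 536870912 1610612736 536870912 33554432 16777216 3 false true false .pnn 2 1 3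
    ndN4q2 ndN2q3 pcN1 Cut.none Ext.none :=
  certNK2 (fam := false) (s1 := true) (s2 := false) (a := 2) (b := 1) (c := 3) (cn := .pnn) (n1 := ndN4q2) (n2 := ndN2q3) (pc := pcN1) (cut := Cut.none) (xt := Ext.none) (P1 := 1073741824) (W1 := 536870912) (P2 := 1610612736) (W2 := 536870912) (P3 := 33554432) (W3 := 16777216) (N0 := 3)
    rfl rfl rfl (fun _ => rfl) k0_pm_213

noncomputable def f_pm_303 : ℕ → ℕ → ℕ → ℕ → Bool := onCell 0 1230186008 1610612736 536870912 33554432 16777216
    (rowNK 3 0 false true false .npn 3 0 3 (qsf 0 1230186008 1610612736 536870912 0) ndN4q3 ndN2q3 pcN0 Cut.none Ext.none)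

def k0_pm_303 : ∃ t, chk3 f_pm_303 t 1 1 1 = true :=
  ⟨(b (a (l 1) (a (a (l 1) (b (l 1) (a (l 1) (b (l 1) (l 658240465975))))) (a (b (l 1) (a (b (c (l 18461976) (l 18278816)) (l 18118072)) (b (l 17833688) (l 18138568)))) (b (a (b (l 1) (b (l 18383736) (l 18418480))) (l 18310424)) (b (a (l 18101456) (l 18206360)) (a (l 17879696) (l 17603280))))))) (a (l 3) (a (b (a (l 3) (b (b (l 19084384) (l 19112952)) (l 18885176))) (a (l 3) (b (l 18557176) (l 3)))) (a (b (b (b (l 18688984) (l 19087480)) (l 18985648)) (a (l 18219856) (l 18360000))) (b (b (a (l 18627856) (l 18262744)) (a (l 19011752) (l 18857304))) (a (l 18439608) (l 18430680))))))), by decide +kernel⟩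

theorem c_pm_303 : CertN 0 1230186008 1610612736 536870912 33554432 16777216 3 false true false .npn 3 0 3
    ndN4q3 ndN2q3 pcN0 Cut.none Ext.none :=
  certNK0 (fam := false) (s1 := true) (s2 := false) (a := 3) (b := 0) (c := 3) (cn := .npn) (n1 := ndN4q3) (n2 := ndN2q3) (pc := pcN0) (cut := Cut.none) (xt := Ext.none) (P1 := 0) (W1 := 1230186008) (P2 := 1610612736) (W2 := 536870912) (P3 := 33554432) (W3 := 16777216) (N0 := 3)
    rfl rfl rfl k0_pm_303

noncomputable def f_pm_313 : ℕ → ℕ → ℕ → ℕ → Bool := onCell 0 1230186008 1610612736 536870912 33554432 16777216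
    (rowNK 3 0 false true false .dn 3 1 3 (qsf 0 1230186008 1610612736 536870912 1) ndN4q3 ndN2q3 pcN1 Cut.none Ext.none)

def k0_pm_313 : ∃ t, chk3 f_pm_313 t 1 1 1 = true :=
  ⟨(a (l 1) (a (l 1) (b (l 1) (a (l 1) (b (l 1) (a (l 1) (b (l 1) (l 17276240)))))))), by decide +kernel⟩

theorem c_pm_313 : CertN 0 1230186008 1610612736 536870912 33554432 16777216 3 false true false .dn 3 1 3
    ndN4q3 ndN2q3 pcN1 Cut.none Ext.none :=
  certNK0 (fam := false) (s1 := true) (s2 := false) (a := 3) (b := 1) (c := 3) (cn := .dn) (n1 := ndN4q3) (n2 := ndN2q3) (pc := pcN1) (cut := Cut.none) (xt := Ext.none) (P1 := 0) (W1 := 1230186008) (P2 := 1610612736) (W2 := 536870912) (P3 := 33554432) (W3 := 16777216) (N0 := 3)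
    rfl rfl rfl k0_pm_313

noncomputable def f_mm_001 : ℕ → ℕ → ℕ → ℕ → Bool := onCell 0 536870912 536870912 536870912 33554432 16777216
    (rowNK 3 0 false false false .up 0 0 1 (qsf 0 536870912 536870912 536870912 0) ndN4q0 ndN2q1 pcN0 Cut.none Ext.none)

def k0_mm_001 : ∃ t, chk3 f_mm_001 t 1 1 1 = true :=
  ⟨(l 3), by decide +kernel⟩

theorem c_mm_001 : CertN 0 536870912 536870912 536870912 33554432 16777216 3 false false false .up 0 0 1
    ndN4q0 ndN2q1 pcN0 Cut.none Ext.none :=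
  certNK0 (fam := false) (s1 := false) (s2 := false) (a := 0) (b := 0) (c := 1) (cn := .up) (n1 := ndN4q0) (n2 := ndN2q1) (pc := pcN0) (cut := Cut.none) (xt := Ext.none) (P1 := 0) (W1 := 536870912) (P2 := 536870912) (W2 := 536870912) (P3 := 33554432) (W3 := 16777216) (N0 := 3)
    rfl rfl rfl k0_mm_001

noncomputable def f_mm_011 : ℕ → ℕ → ℕ → ℕ → Bool := onCell 0 536870912 536870912 536870912 33554432 16777216
    (rowNK 3 0 false false false .pnn 0 1 1 (qsf 0 536870912 536870912 536870912 1) ndN4q0 ndN2q1 pcN1 Cut.none Ext.none)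

def k0_mm_011 : ∃ t, chk3 f_mm_011 t 1 1 1 = true :=
  ⟨(l 3), by decide +kernel⟩

theorem c_mm_011 : CertN 0 536870912 536870912 536870912 33554432 16777216 3 false false false .pnn 0 1 1
    ndN4q0 ndN2q1 pcN1 Cut.none Ext.none :=
  certNK0 (fam := false) (s1 := false) (s2 := false) (a := 0) (b := 1) (c := 1) (cn := .pnn) (n1 := ndN4q0) (n2 := ndN2q1) (pc := pcN1) (cut := Cut.none) (xt := Ext.none) (P1 := 0) (W1 := 536870912) (P2 := 536870912) (W2 := 536870912) (P3 := 33554432) (W3 := 16777216) (N0 := 3)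
    rfl rfl rfl k0_mm_011

noncomputable def f_mm_012_a : ℕ → ℕ → ℕ → ℕ → Bool := onCell 0 536870912 0 536870912 33554432 16777216
    (rowNK 3 0 false false false .pnp 0 1 2 (qsf 0 536870912 0 536870912 1) ndN4q0 ndN2q2a pcN1 Cut.none Ext.none)

def k0_mm_012_a : ∃ t, chk3 f_mm_012_a t 1 1 1 = true :=
  ⟨(l 5), by decide +kernel⟩

theorem c_mm_012_a : CertN 0 536870912 0 536870912 33554432 16777216 3 false false false .pnp 0 1 2
    ndN4q0 ndN2q2a pcN1 Cut.none Ext.none :=
  certNK0 (fam := false) (s1 := false) (s2 := false) (a := 0) (b := 1) (c := 2) (cn := .pnp) (n1 := ndN4q0) (n2 := ndN2q2a) (pc := pcN1) (cut := Cut.none) (xt := Ext.none) (P1 := 0) (W1 := 536870912) (P2 := 0) (W2 := 536870912) (P3 := 33554432) (W3 := 16777216) (N0 := 3)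
    rfl rfl rfl k0_mm_012_a

noncomputable def f_mm_012_b : ℕ → ℕ → ℕ → ℕ → Bool := onCell 0 536870912 1239849684 370763052 33554432 16777216
    (rowNK 3 0 false false false .pnp 0 1 2 (qsf 0 536870912 1239849684 370763052 1) ndN4q0 ndN2q2b pcN1 Cut.none Ext.none)

def k0_mm_012_b : ∃ t, chk3 f_mm_012_b t 1 1 1 = true :=
  ⟨(l 5), by decide +kernel⟩

theorem c_mm_012_b : CertN 0 536870912 1239849684 370763052 33554432 16777216 3 false false false .pnp 0 1 2
    ndN4q0 ndN2q2b pcN1 Cut.none Ext.none :=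
  certNK0 (fam := false) (s1 := false) (s2 := false) (a := 0) (b := 1) (c := 2) (cn := .pnp) (n1 := ndN4q0) (n2 := ndN2q2b) (pc := pcN1) (cut := Cut.none) (xt := Ext.none) (P1 := 0) (W1 := 536870912) (P2 := 1239849684) (W2 := 370763052) (P3 := 33554432) (W3 := 16777216) (N0 := 3)
    rfl rfl rfl k0_mm_012_b

noncomputable def f_mm_022_a : ℕ → ℕ → ℕ → ℕ → Bool := onCell 0 536870912 0 536870912 33554432 16777216
    (rowNK 3 0 false false false .pp 0 2 2 (qsf 0 536870912 0 536870912 2) ndN4q0 ndN2q2a pcN2 Cut.none Ext.none)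

def k0_mm_022_a : ∃ t, chk3 f_mm_022_a t 1 1 1 = true :=
  ⟨(l 5), by decide +kernel⟩

theorem c_mm_022_a : CertN 0 536870912 0 536870912 33554432 16777216 3 false false false .pp 0 2 2
    ndN4q0 ndN2q2a pcN2 Cut.none Ext.none :=
  certNK0 (fam := false) (s1 := false) (s2 := false) (a := 0) (b := 2) (c := 2) (cn := .pp) (n1 := ndN4q0) (n2 := ndN2q2a) (pc := pcN2) (cut := Cut.none) (xt := Ext.none) (P1 := 0) (W1 := 536870912) (P2 := 0) (W2 := 536870912) (P3 := 33554432) (W3 := 16777216) (N0 := 3)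
    rfl rfl rfl k0_mm_022_a

noncomputable def f_mm_022_b : ℕ → ℕ → ℕ → ℕ → Bool := onCell 0 536870912 1239849684 370763052 33554432 16777216
    (rowNK 3 0 false false false .pp 0 2 2 (qsf 0 536870912 1239849684 370763052 2) ndN4q0 ndN2q2b pcN2 Cut.none Ext.none)

def k0_mm_022_b : ∃ t, chk3 f_mm_022_b t 1 1 1 = true :=
  ⟨(l 5), by decide +kernel⟩

theorem c_mm_022_b : CertN 0 536870912 1239849684 370763052 33554432 16777216 3 false false false .pp 0 2 2
    ndN4q0 ndN2q2b pcN2 Cut.none Ext.none :=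
  certNK0 (fam := false) (s1 := false) (s2 := false) (a := 0) (b := 2) (c := 2) (cn := .pp) (n1 := ndN4q0) (n2 := ndN2q2b) (pc := pcN2) (cut := Cut.none) (xt := Ext.none) (P1 := 0) (W1 := 536870912) (P2 := 1239849684) (W2 := 370763052) (P3 := 33554432) (W3 := 16777216) (N0 := 3)
    rfl rfl rfl k0_mm_022_b

noncomputable def f_mm_023 : ℕ → ℕ → ℕ → ℕ → Bool := onCell 0 536870912 1610612736 536870912 33554432 16777216
    (rowNK 3 0 false false false .up 0 2 3 (qsf 0 536870912 1610612736 536870912 2) ndN4q0 ndN2q3 pcN2 Cut.none Ext.none)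

def k0_mm_023 : ∃ t, chk3 f_mm_023 t 1 1 1 = true :=
  ⟨(l 5), by decide +kernel⟩

theorem c_mm_023 : CertN 0 536870912 1610612736 536870912 33554432 16777216 3 false false false .up 0 2 3
    ndN4q0 ndN2q3 pcN2 Cut.none Ext.none :=
  certNK0 (fam := false) (s1 := false) (s2 := false) (a := 0) (b := 2) (c := 3) (cn := .up) (n1 := ndN4q0) (n2 := ndN2q3) (pc := pcN2) (cut := Cut.none) (xt := Ext.none) (P1 := 0) (W1 := 536870912) (P2 := 1610612736) (W2 := 536870912) (P3 := 33554432) (W3 := 16777216) (N0 := 3)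
    rfl rfl rfl k0_mm_023

noncomputable def f_mm_033 : ℕ → ℕ → ℕ → ℕ → Bool := onCell 0 536870912 1610612736 536870912 33554432 16777216
    (rowNK 3 0 false false false .pnn 0 3 3 (qsf 0 536870912 1610612736 536870912 3) ndN4q0 ndN2q3 pcN3 Cut.none Ext.none)

def k0_mm_033 : ∃ t, chk3 f_mm_033 t 1 1 1 = true :=
  ⟨(l 5), by decide +kernel⟩

theorem c_mm_033 : CertN 0 536870912 1610612736 536870912 33554432 16777216 3 false false false .pnn 0 3 3
    ndN4q0 ndN2q3 pcN3 Cut.none Ext.none :=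
  certNK0 (fam := false) (s1 := false) (s2 := false) (a := 0) (b := 3) (c := 3) (cn := .pnn) (n1 := ndN4q0) (n2 := ndN2q3) (pc := pcN3) (cut := Cut.none) (xt := Ext.none) (P1 := 0) (W1 := 536870912) (P2 := 1610612736) (W2 := 536870912) (P3 := 33554432) (W3 := 16777216) (N0 := 3)
    rfl rfl rfl k0_mm_033

noncomputable def f_mm_101 : ℕ → ℕ → ℕ → ℕ → Bool := onCell 536870912 536870912 536870912 536870912 33554432 16777216
    (rowNK 3 0 false false false .npn 1 0 1 (qsf 536870912 536870912 536870912 536870912 0) ndN4q1 ndN2q1 pcN0 Cut.none Ext.none)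

def k0_mm_101 : ∃ t, chk3 f_mm_101 t 1 1 1 = true :=
  ⟨(l 3), by decide +kernel⟩

theorem c_mm_101 : CertN 536870912 536870912 536870912 536870912 33554432 16777216 3 false false false .npn 1 0 1
    ndN4q1 ndN2q1 pcN0 Cut.none Ext.none :=
  certNK0 (fam := false) (s1 := false) (s2 := false) (a := 1) (b := 0) (c := 1) (cn := .npn) (n1 := ndN4q1) (n2 := ndN2q1) (pc := pcN0) (cut := Cut.none) (xt := Ext.none) (P1 := 536870912) (W1 := 536870912) (P2 := 536870912) (W2 := 536870912) (P3 := 33554432) (W3 := 16777216) (N0 := 3)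
    rfl rfl rfl k0_mm_101

noncomputable def f_mm_102_a : ℕ → ℕ → ℕ → ℕ → Bool := onCell 536870912 536870912 0 536870912 33554432 16777216
    (rowNK 3 0 false false false .npp 1 0 2 (qsf 536870912 536870912 0 536870912 0) ndN4q1 ndN2q2a pcN0 Cut.none Ext.none)

def k0_mm_102_a : ∃ t, chk3 f_mm_102_a t 1 1 1 = true :=
  ⟨(l 5), by decide +kernel⟩

theorem c_mm_102_a : CertN 536870912 536870912 0 536870912 33554432 16777216 3 false false false .npp 1 0 2
    ndN4q1 ndN2q2a pcN0 Cut.none Ext.none :=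
  certNK0 (fam := false) (s1 := false) (s2 := false) (a := 1) (b := 0) (c := 2) (cn := .npp) (n1 := ndN4q1) (n2 := ndN2q2a) (pc := pcN0) (cut := Cut.none) (xt := Ext.none) (P1 := 536870912) (W1 := 536870912) (P2 := 0) (W2 := 536870912) (P3 := 33554432) (W3 := 16777216) (N0 := 3)
    rfl rfl rfl k0_mm_102_a

noncomputable def f_mm_102_b : ℕ → ℕ → ℕ → ℕ → Bool := onCell 536870912 536870912 1239849684 370763052 33554432 16777216
    (rowNK 3 0 false false false .npp 1 0 2 (qsf 536870912 536870912 1239849684 370763052 0) ndN4q1 ndN2q2b pcN0 Cut.none Ext.none)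

def k0_mm_102_b : ∃ t, chk3 f_mm_102_b t 1 1 1 = true :=
  ⟨(l 5), by decide +kernel⟩

theorem c_mm_102_b : CertN 536870912 536870912 1239849684 370763052 33554432 16777216 3 false false false .npp 1 0 2
    ndN4q1 ndN2q2b pcN0 Cut.none Ext.none :=
  certNK0 (fam := false) (s1 := false) (s2 := false) (a := 1) (b := 0) (c := 2) (cn := .npp) (n1 := ndN4q1) (n2 := ndN2q2b) (pc := pcN0) (cut := Cut.none) (xt := Ext.none) (P1 := 536870912) (W1 := 536870912) (P2 := 1239849684) (W2 := 370763052) (P3 := 33554432) (W3 := 16777216) (N0 := 3)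
    rfl rfl rfl k0_mm_102_b

noncomputable def f_mm_112_a : ℕ → ℕ → ℕ → ℕ → Bool := onCell 536870912 536870912 0 536870912 33554432 16777216
    (rowNK 3 0 false false false .dn 1 1 2 (qsf 536870912 536870912 0 536870912 1) ndN4q1 ndN2q2a pcN1 Cut.none Ext.none)

def k0_mm_112_a : ∃ t, chk3 f_mm_112_a t 1 1 1 = true :=
  ⟨(l 5), by decide +kernel⟩

theorem c_mm_112_a : CertN 536870912 536870912 0 536870912 33554432 16777216 3 false false false .dn 1 1 2
    ndN4q1 ndN2q2a pcN1 Cut.none Ext.none :=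
  certNK0 (fam := false) (s1 := false) (s2 := false) (a := 1) (b := 1) (c := 2) (cn := .dn) (n1 := ndN4q1) (n2 := ndN2q2a) (pc := pcN1) (cut := Cut.none) (xt := Ext.none) (P1 := 536870912) (W1 := 536870912) (P2 := 0) (W2 := 536870912) (P3 := 33554432) (W3 := 16777216) (N0 := 3)
    rfl rfl rfl k0_mm_112_a

noncomputable def f_mm_112_b : ℕ → ℕ → ℕ → ℕ → Bool := onCell 536870912 536870912 1239849684 370763052 33554432 16777216
    (rowNK 3 0 false false false .dn 1 1 2 (qsf 536870912 536870912 1239849684 370763052 1) ndN4q1 ndN2q2b pcN1 Cut.none Ext.none)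

def k0_mm_112_b : ∃ t, chk3 f_mm_112_b t 1 1 1 = true :=
  ⟨(l 5), by decide +kernel⟩

theorem c_mm_112_b : CertN 536870912 536870912 1239849684 370763052 33554432 16777216 3 false false false .dn 1 1 2
    ndN4q1 ndN2q2b pcN1 Cut.none Ext.none :=
  certNK0 (fam := false) (s1 := false) (s2 := false) (a := 1) (b := 1) (c := 2) (cn := .dn) (n1 := ndN4q1) (n2 := ndN2q2b) (pc := pcN1) (cut := Cut.none) (xt := Ext.none) (P1 := 536870912) (W1 := 536870912) (P2 := 1239849684) (W2 := 370763052) (P3 := 33554432) (W3 := 16777216) (N0 := 3)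
    rfl rfl rfl k0_mm_112_b

noncomputable def f_mm_113 : ℕ → ℕ → ℕ → ℕ → Bool := onCell 536870912 536870912 1610612736 536870912 33554432 16777216
    (rowNK 3 0 false false false .nn 1 1 3 (qsf 536870912 536870912 1610612736 536870912 1) ndN4q1 ndN2q3 pcN1 Cut.none Ext.none)

def k0_mm_113 : ∃ t, chk3 f_mm_113 t 1 1 1 = true :=
  ⟨(l 5), by decide +kernel⟩

theorem c_mm_113 : CertN 536870912 536870912 1610612736 536870912 33554432 16777216 3 false false false .nn 1 1 3
    ndN4q1 ndN2q3 pcN1 Cut.none Ext.none :=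
  certNK0 (fam := false) (s1 := false) (s2 := false) (a := 1) (b := 1) (c := 3) (cn := .nn) (n1 := ndN4q1) (n2 := ndN2q3) (pc := pcN1) (cut := Cut.none) (xt := Ext.none) (P1 := 536870912) (W1 := 536870912) (P2 := 1610612736) (W2 := 536870912) (P3 := 33554432) (W3 := 16777216) (N0 := 3)
    rfl rfl rfl k0_mm_113

noncomputable def f_mm_123 : ℕ → ℕ → ℕ → ℕ → Bool := onCell 536870912 536870912 1610612736 536870912 33554432 16777216
    (rowNK 3 0 false false false .npn 1 2 3 (qsf 536870912 536870912 1610612736 536870912 2) ndN4q1 ndN2q3 pcN2 Cut.none Ext.none)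

def k0_mm_123 : ∃ t, chk3 f_mm_123 t 1 1 1 = true :=
  ⟨(l 5), by decide +kernel⟩

theorem c_mm_123 : CertN 536870912 536870912 1610612736 536870912 33554432 16777216 3 false false false .npn 1 2 3
    ndN4q1 ndN2q3 pcN2 Cut.none Ext.none :=
  certNK0 (fam := false) (s1 := false) (s2 := false) (a := 1) (b := 2) (c := 3) (cn := .npn) (n1 := ndN4q1) (n2 := ndN2q3) (pc := pcN2) (cut := Cut.none) (xt := Ext.none) (P1 := 536870912) (W1 := 536870912) (P2 := 1610612736) (W2 := 536870912) (P3 := 33554432) (W3 := 16777216) (N0 := 3)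
    rfl rfl rfl k0_mm_123

noncomputable def f_mm_133 : ℕ → ℕ → ℕ → ℕ → Bool := onCell 536870912 536870912 1610612736 536870912 33554432 16777216
    (rowNK 3 0 false false false .dn 1 3 3 (qsf 536870912 536870912 1610612736 536870912 3) ndN4q1 ndN2q3 pcN3 Cut.none Ext.none)

def k0_mm_133 : ∃ t, chk3 f_mm_133 t 1 1 1 = true :=
  ⟨(l 5), by decide +kernel⟩

theorem c_mm_133 : CertN 536870912 536870912 1610612736 536870912 33554432 16777216 3 false false false .dn 1 3 3
    ndN4q1 ndN2q3 pcN3 Cut.none Ext.none :=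
  certNK0 (fam := false) (s1 := false) (s2 := false) (a := 1) (b := 3) (c := 3) (cn := .dn) (n1 := ndN4q1) (n2 := ndN2q3) (pc := pcN3) (cut := Cut.none) (xt := Ext.none) (P1 := 536870912) (W1 := 536870912) (P2 := 1610612736) (W2 := 536870912) (P3 := 33554432) (W3 := 16777216) (N0 := 3)
    rfl rfl rfl k0_mm_133

noncomputable def f_mm_202_a : ℕ → ℕ → ℕ → ℕ → Bool := onCell 1073741824 536870912 0 536870912 33554432 16777216
    (rowNK 3 0 false false false .pp 2 0 2 (qsf 1073741824 536870912 0 536870912 0) ndN4q2 ndN2q2a pcN0 Cut.none Ext.none)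

def k0_mm_202_a : ∃ t, chk3 f_mm_202_a t 1 1 1 = true :=
  ⟨(l 5), by decide +kernel⟩

theorem c_mm_202_a : CertN 1073741824 536870912 0 536870912 33554432 16777216 3 false false false .pp 2 0 2
    ndN4q2 ndN2q2a pcN0 Cut.none Ext.none :=
  certNK0 (fam := false) (s1 := false) (s2 := false) (a := 2) (b := 0) (c := 2) (cn := .pp) (n1 := ndN4q2) (n2 := ndN2q2a) (pc := pcN0) (cut := Cut.none) (xt := Ext.none) (P1 := 1073741824) (W1 := 536870912) (P2 := 0) (W2 := 536870912) (P3 := 33554432) (W3 := 16777216) (N0 := 3)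
    rfl rfl rfl k0_mm_202_a

noncomputable def f_mm_202_b : ℕ → ℕ → ℕ → ℕ → Bool := onCell 1073741824 536870912 1239849684 370763052 33554432 16777216
    (rowNK 3 0 false false false .pp 2 0 2 (qsf 1073741824 536870912 1239849684 370763052 0) ndN4q2 ndN2q2b pcN0 Cut.none Ext.none)

def k0_mm_202_b : ∃ t, chk3 f_mm_202_b t 1 1 1 = true :=
  ⟨(l 5), by decide +kernel⟩

theorem c_mm_202_b : CertN 1073741824 536870912 1239849684 370763052 33554432 16777216 3 false false false .pp 2 0 2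
    ndN4q2 ndN2q2b pcN0 Cut.none Ext.none :=
  certNK0 (fam := false) (s1 := false) (s2 := false) (a := 2) (b := 0) (c := 2) (cn := .pp) (n1 := ndN4q2) (n2 := ndN2q2b) (pc := pcN0) (cut := Cut.none) (xt := Ext.none) (P1 := 1073741824) (W1 := 536870912) (P2 := 1239849684) (W2 := 370763052) (P3 := 33554432) (W3 := 16777216) (N0 := 3)
    rfl rfl rfl k0_mm_202_b

noncomputable def f_mm_203 : ℕ → ℕ → ℕ → ℕ → Bool := onCell 1073741824 536870912 1610612736 536870912 33554432 16777216
    (rowNK 3 0 false false false .up 2 0 3 (qsf 1073741824 536870912 1610612736 536870912 0) ndN4q2 ndN2q3 pcN0 Cut.none Ext.none)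

def k0_mm_203 : ∃ t, chk3 f_mm_203 t 1 1 1 = true :=
  ⟨(l 5), by decide +kernel⟩

theorem c_mm_203 : CertN 1073741824 536870912 1610612736 536870912 33554432 16777216 3 false false false .up 2 0 3
    ndN4q2 ndN2q3 pcN0 Cut.none Ext.none :=
  certNK0 (fam := false) (s1 := false) (s2 := false) (a := 2) (b := 0) (c := 3) (cn := .up) (n1 := ndN4q2) (n2 := ndN2q3) (pc := pcN0) (cut := Cut.none) (xt := Ext.none) (P1 := 1073741824) (W1 := 536870912) (P2 := 1610612736) (W2 := 536870912) (P3 := 33554432) (W3 := 16777216) (N0 := 3)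
    rfl rfl rfl k0_mm_203

noncomputable def f_mm_213 : ℕ → ℕ → ℕ → ℕ → Bool := onCell 1073741824 536870912 1610612736 536870912 33554432 16777216
    (rowNK 3 0 false false false .pnn 2 1 3 (qsf 1073741824 536870912 1610612736 536870912 1) ndN4q2 ndN2q3 pcN1 Cut.none Ext.none)

def k0_mm_213 : ∃ t, chk3 f_mm_213 t 1 1 1 = true :=
  ⟨(l 5), by decide +kernel⟩

theorem c_mm_213 : CertN 1073741824 536870912 1610612736 536870912 33554432 16777216 3 false false false .pnn 2 1 3
    ndN4q2 ndN2q3 pcN1 Cut.none Ext.none :=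
  certNK0 (fam := false) (s1 := false) (s2 := false) (a := 2) (b := 1) (c := 3) (cn := .pnn) (n1 := ndN4q2) (n2 := ndN2q3) (pc := pcN1) (cut := Cut.none) (xt := Ext.none) (P1 := 1073741824) (W1 := 536870912) (P2 := 1610612736) (W2 := 536870912) (P3 := 33554432) (W3 := 16777216) (N0 := 3)
    rfl rfl rfl k0_mm_213

noncomputable def f_mm_303 : ℕ → ℕ → ℕ → ℕ → Bool := onCell 0 1230186008 1610612736 536870912 33554432 16777216
    (rowNK 3 0 false false false .npn 3 0 3 (qsf 0 1230186008 1610612736 536870912 0) ndN4q3 ndN2q3 pcN0 Cut.none Ext.none)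

def k0_mm_303 : ∃ t, chk3 f_mm_303 t 1 1 1 = true :=
  ⟨(a (l 3) (a (l 3) (l 5))), by decide +kernel⟩

theorem c_mm_303 : CertN 0 1230186008 1610612736 536870912 33554432 16777216 3 false false false .npn 3 0 3
    ndN4q3 ndN2q3 pcN0 Cut.none Ext.none :=
  certNK0 (fam := false) (s1 := false) (s2 := false) (a := 3) (b := 0) (c := 3) (cn := .npn) (n1 := ndN4q3) (n2 := ndN2q3) (pc := pcN0) (cut := Cut.none) (xt := Ext.none) (P1 := 0) (W1 := 1230186008) (P2 := 1610612736) (W2 := 536870912) (P3 := 33554432) (W3 := 16777216) (N0 := 3)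
    rfl rfl rfl k0_mm_303

noncomputable def f_mm_313 : ℕ → ℕ → ℕ → ℕ → Bool := onCell 0 1230186008 1610612736 536870912 33554432 16777216
    (rowNK 3 0 false false false .dn 3 1 3 (qsf 0 1230186008 1610612736 536870912 1) ndN4q3 ndN2q3 pcN1 Cut.none Ext.none)

def k0_mm_313 : ∃ t, chk3 f_mm_313 t 1 1 1 = true :=
  ⟨(a (l 1) (a (l 1) (l 5))), by decide +kernel⟩

theorem c_mm_313 : CertN 0 1230186008 1610612736 536870912 33554432 16777216 3 false false false .dn 3 1 3
    ndN4q3 ndN2q3 pcN1 Cut.none Ext.none :=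
  certNK0 (fam := false) (s1 := false) (s2 := false) (a := 3) (b := 1) (c := 3) (cn := .dn) (n1 := ndN4q3) (n2 := ndN2q3) (pc := pcN1) (cut := Cut.none) (xt := Ext.none) (P1 := 0) (W1 := 1230186008) (P2 := 1610612736) (W2 := 536870912) (P3 := 33554432) (W3 := 16777216) (N0 := 3)
    rfl rfl rfl k0_mm_313

end Pool.Agent.Strip051.G.I1_32_3_64.Tab.C.NB42

namespace Pool.Agent.Strip051.G.I1_32_3_64.Tab.C.NB43

open Pool.Agent.Strip051.PB Pool.Agent.Strip051.PB.T
open Pool.Agent.Strip051.G.I1_32_3_64.Tab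

noncomputable def f_pp_001 : ℕ → ℕ → ℕ → ℕ → Bool := onCell 0 536870912 536870912 536870912 33554432 16777216
    (rowNK 3 0 false true true .up 0 0 1 (qsf 0 536870912 536870912 536870912 0) ndN4q0 ndN3q1 pcN0 Cut.none Ext.none)

def k0_pp_001 : ∃ t, chk3 f_pp_001 t 1 1 1 = true :=
  ⟨(l 3), by decide +kernel⟩

theorem c_pp_001 : CertN 0 536870912 536870912 536870912 33554432 16777216 3 false true true .up 0 0 1
    ndN4q0 ndN3q1 pcN0 Cut.none Ext.none :=
  certNK0 (fam := false) (s1 := true) (s2 := true) (a := 0) (b := 0) (c := 1) (cn := .up) (n1 := ndN4q0) (n2 := ndN3q1) (pc := pcN0) (cut := Cut.none) (xt := Ext.none) (P1 := 0) (W1 := 536870912) (P2 := 536870912) (W2 := 536870912) (P3 := 33554432) (W3 := 16777216) (N0 := 3)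
    rfl rfl rfl k0_pp_001

noncomputable def f_pp_011 : ℕ → ℕ → ℕ → ℕ → Bool := onCell 0 536870912 536870912 536870912 33554432 16777216
    (rowNK 3 0 false true true .pnn 0 1 1 (qsf 0 536870912 536870912 536870912 1) ndN4q0 ndN3q1 pcN1 Cut.none Ext.none)

def k0_pp_011 : ∃ t, chk3 f_pp_011 t 1 1 1 = true :=
  ⟨(l 3), by decide +kernel⟩

theorem c_pp_011 : CertN 0 536870912 536870912 536870912 33554432 16777216 3 false true true .pnn 0 1 1
    ndN4q0 ndN3q1 pcN1 Cut.none Ext.none :=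
  certNK0 (fam := false) (s1 := true) (s2 := true) (a := 0) (b := 1) (c := 1) (cn := .pnn) (n1 := ndN4q0) (n2 := ndN3q1) (pc := pcN1) (cut := Cut.none) (xt := Ext.none) (P1 := 0) (W1 := 536870912) (P2 := 536870912) (W2 := 536870912) (P3 := 33554432) (W3 := 16777216) (N0 := 3)
    rfl rfl rfl k0_pp_011

noncomputable def f_pp_012 : ℕ → ℕ → ℕ → ℕ → Bool := onCell 0 536870912 536870912 536870912 33554432 16777216
    (rowNK 3 1 false true true .pnp 0 1 2 (qsf 0 536870912 1073741824 536870912 1) ndN4q0 ndN3q2 pcN1 Cut.none Ext.none)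

def k0_pp_012 : ∃ t, chk3 f_pp_012 t 1 1 1 = true :=
  ⟨(b (b (l 3) (a (l 3) (a (l 3) (l 18861864)))) (b (a (b (l 19259016) (l 19417152)) (a (l 18979888) (l 18739376))) (a (l 257737486199) (a (l 18869160) (l 18494944))))), by decide +kernel⟩

theorem c_pp_012 : CertN 0 536870912 1073741824 536870912 33554432 16777216 3 false true true .pnp 0 1 2
    ndN4q0 ndN3q2 pcN1 Cut.none Ext.none :=
  certNK1 (fam := false) (s1 := true) (s2 := true) (a := 0) (b := 1) (c := 2) (cn := .pnp) (n1 := ndN4q0) (n2 := ndN3q2) (pc := pcN1) (cut := Cut.none) (xt := Ext.none) (P1 := 0) (W1 := 536870912) (P2 := 1073741824) (W2 := 536870912) (P3 := 33554432) (W3 := 16777216) (N0 := 3)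
    rfl rfl rfl (fun _ => rfl) k0_pp_012

noncomputable def f_pp_022 : ℕ → ℕ → ℕ → ℕ → Bool := onCell 0 536870912 1073741824 536870912 33554432 16777216
    (rowNK 3 1 false true true .pp 0 2 2 (qsf 0 536870912 1073741824 536870912 2) ndN4q0 ndN3q2 pcN2 Cut.none Ext.none)

def k0_pp_022 : ∃ t, chk3 f_pp_022 t 1 1 1 = true :=
  ⟨(a (b (b (b (b (b (b (l 19470584) (l 19443816)) (l 19403280)) (l 19320824)) (l 19161296)) (l 18854488)) (b (l 18447984) (l 17902560))) (b (b (b (b (b (b (l 18572176) (l 18546472)) (l 18507720)) (l 18429648)) (l 18276216)) (l 17956296)) (b (l 17619400) (l 2)))), by decide +kernel⟩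

theorem c_pp_022 : CertN 0 536870912 1073741824 536870912 33554432 16777216 3 false true true .pp 0 2 2
    ndN4q0 ndN3q2 pcN2 Cut.none Ext.none :=
  certNK1 (fam := false) (s1 := true) (s2 := true) (a := 0) (b := 2) (c := 2) (cn := .pp) (n1 := ndN4q0) (n2 := ndN3q2) (pc := pcN2) (cut := Cut.none) (xt := Ext.none) (P1 := 0) (W1 := 536870912) (P2 := 1073741824) (W2 := 536870912) (P3 := 33554432) (W3 := 16777216) (N0 := 3)
    rfl rfl rfl (fun _ => rfl) k0_pp_022

noncomputable def f_pp_023 : ℕ → ℕ → ℕ → ℕ → Bool := onCell 1073741824 536870912 0 1230186008 33554432 16777216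
    (rowNK 3 2 false true true .up 0 2 3 (qsf 0 536870912 0 1230186008 2) ndN4q0 ndN3q3 pcN2 Cut.none Ext.none)

def k0_pp_023 : ∃ t, chk3 f_pp_023 t 1 1 1 = true :=
  ⟨(a (b (l 2) (b (a (l 2) (l 330814665063)) (b (a (l 2) (l 17756040)) (a (a (a (a (a (l 17894064) (l 17905760)) (l 17918808)) (l 17941368)) (l 17948896)) (l 17830456))))) (b (a (l 2) (l 4)) (b (a (l 17320464) (l 16910552)) (a (b (l 17536752) (l 17575352)) (b (l 17055816) (l 17128488)))))), by decide +kernel⟩

theorem c_pp_023 : CertN 0 536870912 0 1230186008 33554432 16777216 3 false true true .up 0 2 3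
    ndN4q0 ndN3q3 pcN2 Cut.none Ext.none :=
  certNK2 (fam := false) (s1 := true) (s2 := true) (a := 0) (b := 2) (c := 3) (cn := .up) (n1 := ndN4q0) (n2 := ndN3q3) (pc := pcN2) (cut := Cut.none) (xt := Ext.none) (P1 := 0) (W1 := 536870912) (P2 := 0) (W2 := 1230186008) (P3 := 33554432) (W3 := 16777216) (N0 := 3)
    rfl rfl rfl (fun _ => rfl) k0_pp_023

noncomputable def f_pp_033 : ℕ → ℕ → ℕ → ℕ → Bool := onCell 1610612736 536870912 0 1230186008 33554432 16777216
    (rowNK 3 2 false true true .pnn 0 3 3 (qsf 0 536870912 0 1230186008 3) ndN4q0 ndN3q3 pcN3 Cut.none Ext.none)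

def k0_pp_033 : ∃ t, chk3 f_pp_033 t 1 1 1 = true :=
  ⟨(b (l 4) (a (b (a (l 17300144) (l 4)) (a (b (l 16901296) (l 16979888)) (a (l 17304504) (l 4)))) (l 4))), by decide +kernel⟩

theorem c_pp_033 : CertN 0 536870912 0 1230186008 33554432 16777216 3 false true true .pnn 0 3 3
    ndN4q0 ndN3q3 pcN3 Cut.none Ext.none :=
  certNK2 (fam := false) (s1 := true) (s2 := true) (a := 0) (b := 3) (c := 3) (cn := .pnn) (n1 := ndN4q0) (n2 := ndN3q3) (pc := pcN3) (cut := Cut.none) (xt := Ext.none) (P1 := 0) (W1 := 536870912) (P2 := 0) (W2 := 1230186008) (P3 := 33554432) (W3 := 16777216) (N0 := 3)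
    rfl rfl rfl (fun _ => rfl) k0_pp_033

noncomputable def f_pp_101 : ℕ → ℕ → ℕ → ℕ → Bool := onCell 536870912 536870912 536870912 536870912 33554432 16777216
    (rowNK 3 0 false true true .npn 1 0 1 (qsf 536870912 536870912 536870912 536870912 0) ndN4q1 ndN3q1 pcN0 Cut.none Ext.none)

def k0_pp_101 : ∃ t, chk3 f_pp_101 t 1 1 1 = true :=
  ⟨(l 3), by decide +kernel⟩

theorem c_pp_101 : CertN 536870912 536870912 536870912 536870912 33554432 16777216 3 false true true .npn 1 0 1
    ndN4q1 ndN3q1 pcN0 Cut.none Ext.none :=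
  certNK0 (fam := false) (s1 := true) (s2 := true) (a := 1) (b := 0) (c := 1) (cn := .npn) (n1 := ndN4q1) (n2 := ndN3q1) (pc := pcN0) (cut := Cut.none) (xt := Ext.none) (P1 := 536870912) (W1 := 536870912) (P2 := 536870912) (W2 := 536870912) (P3 := 33554432) (W3 := 16777216) (N0 := 3)
    rfl rfl rfl k0_pp_101

noncomputable def f_pp_102 : ℕ → ℕ → ℕ → ℕ → Bool := onCell 536870912 536870912 0 536870912 33554432 16777216
    (rowNK 3 1 false true true .npp 1 0 2 (qsf 536870912 536870912 1073741824 536870912 0) ndN4q1 ndN3q2 pcN0 Cut.none Ext.none)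

def k0_pp_102 : ∃ t, chk3 f_pp_102 t 1 1 1 = true :=
  ⟨(l 3), by decide +kernel⟩

theorem c_pp_102 : CertN 536870912 536870912 1073741824 536870912 33554432 16777216 3 false true true .npp 1 0 2
    ndN4q1 ndN3q2 pcN0 Cut.none Ext.none :=
  certNK1 (fam := false) (s1 := true) (s2 := true) (a := 1) (b := 0) (c := 2) (cn := .npp) (n1 := ndN4q1) (n2 := ndN3q2) (pc := pcN0) (cut := Cut.none) (xt := Ext.none) (P1 := 536870912) (W1 := 536870912) (P2 := 1073741824) (W2 := 536870912) (P3 := 33554432) (W3 := 16777216) (N0 := 3)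
    rfl rfl rfl (fun _ => rfl) k0_pp_102

noncomputable def f_pp_112 : ℕ → ℕ → ℕ → ℕ → Bool := onCell 536870912 536870912 1073741824 536870912 33554432 16777216
    (rowNK 3 2 false true true .dn 1 1 2 (qsf 536870912 536870912 1073741824 536870912 1) ndN4q1 ndN3q2 pcN1 Cut.none Ext.none)

def k0_pp_112 : ∃ t, chk3 f_pp_112 t 1 1 1 = true :=
  ⟨(a (a (l 3) (a (b (l 3) (l 19388792)) (b (l 18900488) (l 19091216)))) (a (b (b (l 1) (l 18854384)) (b (l 18697192) (l 18784376))) (b (l 1) (b (l 18679512) (l 18389736))))), by decide +kernel⟩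

theorem c_pp_112 : CertN 536870912 536870912 1073741824 536870912 33554432 16777216 3 false true true .dn 1 1 2
    ndN4q1 ndN3q2 pcN1 Cut.none Ext.none :=
  certNK2 (fam := false) (s1 := true) (s2 := true) (a := 1) (b := 1) (c := 2) (cn := .dn) (n1 := ndN4q1) (n2 := ndN3q2) (pc := pcN1) (cut := Cut.none) (xt := Ext.none) (P1 := 536870912) (W1 := 536870912) (P2 := 1073741824) (W2 := 536870912) (P3 := 33554432) (W3 := 16777216) (N0 := 3)
    rfl rfl rfl (fun _ => rfl) k0_pp_112

noncomputable def f_pp_113 : ℕ → ℕ → ℕ → ℕ → Bool := onCell 536870912 536870912 0 1230186008 33554432 16777216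
    (rowNK 3 2 false true true .nn 1 1 3 (qsf 536870912 536870912 0 1230186008 1) ndN4q1 ndN3q3 pcN1 Cut.none Ext.none)

def k0_pp_113 : ∃ t, chk3 f_pp_113 t 1 1 1 = true :=
  ⟨(a (b (l 2) (b (a (l 2) (l 368398259367)) (a (b (l 2) (l 3)) (b (l 18848568) (l 18663000))))) (a (b (l 2) (b (l 18148440) (b (l 18171768) (l 17984040)))) (b (a (l 17397272) (a (l 17262272) (a (l 17197432) (a (l 17160728) (l 17141280))))) (b (a (l 17830640) (a (l 17665288) (a (l 17568648) (a (l 17519336) (l 17485576))))) (a (l 17659928) (a (l 17467048) (a (l 17415872) (a (l 17442480) (l 17458648))))))))), by decide +kernel⟩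

theorem c_pp_113 : CertN 536870912 536870912 0 1230186008 33554432 16777216 3 false true true .nn 1 1 3
    ndN4q1 ndN3q3 pcN1 Cut.none Ext.none :=
  certNK2 (fam := false) (s1 := true) (s2 := true) (a := 1) (b := 1) (c := 3) (cn := .nn) (n1 := ndN4q1) (n2 := ndN3q3) (pc := pcN1) (cut := Cut.none) (xt := Ext.none) (P1 := 536870912) (W1 := 536870912) (P2 := 0) (W2 := 1230186008) (P3 := 33554432) (W3 := 16777216) (N0 := 3)
    rfl rfl rfl (fun _ => rfl) k0_pp_113

noncomputable def f_pp_123 : ℕ → ℕ → ℕ → ℕ → Bool := onCell 1073741824 536870912 0 1230186008 33554432 16777216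
    (rowNK 3 2 false true true .npn 1 2 3 (qsf 536870912 536870912 0 1230186008 2) ndN4q1 ndN3q3 pcN2 Cut.none Ext.none)

def k0_pp_123 : ∃ t, chk3 f_pp_123 t 1 1 1 = true :=
  ⟨(b (a (a (l 17354304) (b (l 16871440) (l 16995616))) (a (l 17123328) (l 4))) (b (a (a (l 17274616) (l 17422328)) (a (l 17392064) (l 16962688))) (a (a (a (a (a (a (l 17707712) (l 17723784)) (l 17745992)) (l 17784192)) (l 17822168)) (b (l 17798304) (l 17869728))) (l 1)))), by decide +kernel⟩

theorem c_pp_123 : CertN 536870912 536870912 0 1230186008 33554432 16777216 3 false true true .npn 1 2 3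
    ndN4q1 ndN3q3 pcN2 Cut.none Ext.none :=
  certNK2 (fam := false) (s1 := true) (s2 := true) (a := 1) (b := 2) (c := 3) (cn := .npn) (n1 := ndN4q1) (n2 := ndN3q3) (pc := pcN2) (cut := Cut.none) (xt := Ext.none) (P1 := 536870912) (W1 := 536870912) (P2 := 0) (W2 := 1230186008) (P3 := 33554432) (W3 := 16777216) (N0 := 3)
    rfl rfl rfl (fun _ => rfl) k0_pp_123

noncomputable def f_pp_133 : ℕ → ℕ → ℕ → ℕ → Bool := onCell 1610612736 536870912 0 1230186008 33554432 16777216
    (rowNK 3 2 false true true .dn 1 3 3 (qsf 536870912 536870912 0 1230186008 3) ndN4q1 ndN3q3 pcN3 Cut.none Ext.none)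

def k0_pp_133 : ∃ t, chk3 f_pp_133 t 1 1 1 = true :=
  ⟨(b (l 4) (l 1)), by decide +kernel⟩

theorem c_pp_133 : CertN 536870912 536870912 0 1230186008 33554432 16777216 3 false true true .dn 1 3 3
    ndN4q1 ndN3q3 pcN3 Cut.none Ext.none :=
  certNK2 (fam := false) (s1 := true) (s2 := true) (a := 1) (b := 3) (c := 3) (cn := .dn) (n1 := ndN4q1) (n2 := ndN3q3) (pc := pcN3) (cut := Cut.none) (xt := Ext.none) (P1 := 536870912) (W1 := 536870912) (P2 := 0) (W2 := 1230186008) (P3 := 33554432) (W3 := 16777216) (N0 := 3)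
    rfl rfl rfl (fun _ => rfl) k0_pp_133

noncomputable def f_pp_202 : ℕ → ℕ → ℕ → ℕ → Bool := onCell 1073741824 536870912 1073741824 536870912 33554432 16777216
    (rowNK 3 0 false true true .pp 2 0 2 (qsf 1073741824 536870912 1073741824 536870912 0) ndN4q2 ndN3q2 pcN0 Cut.none Ext.none)

def k0_pp_202 : ∃ t, chk3 f_pp_202 t 1 1 1 = true :=
  ⟨(l 3), by decide +kernel⟩

theorem c_pp_202 : CertN 1073741824 536870912 1073741824 536870912 33554432 16777216 3 false true true .pp 2 0 2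
    ndN4q2 ndN3q2 pcN0 Cut.none Ext.none :=
  certNK0 (fam := false) (s1 := true) (s2 := true) (a := 2) (b := 0) (c := 2) (cn := .pp) (n1 := ndN4q2) (n2 := ndN3q2) (pc := pcN0) (cut := Cut.none) (xt := Ext.none) (P1 := 1073741824) (W1 := 536870912) (P2 := 1073741824) (W2 := 536870912) (P3 := 33554432) (W3 := 16777216) (N0 := 3)
    rfl rfl rfl k0_pp_202

noncomputable def f_pp_203 : ℕ → ℕ → ℕ → ℕ → Bool := onCell 0 536870912 0 1230186008 33554432 16777216
    (rowNK 3 2 false true true .up 2 0 3 (qsf 1073741824 536870912 0 1230186008 0) ndN4q2 ndN3q3 pcN0 Cut.none Ext.none)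

def k0_pp_203 : ∃ t, chk3 f_pp_203 t 1 1 1 = true :=
  ⟨(a (b (l 2) (l 3)) (b (a (l 2) (b (l 18107712) (l 228340819623))) (b (a (l 3) (l 3)) (l 3)))), by decide +kernel⟩

theorem c_pp_203 : CertN 1073741824 536870912 0 1230186008 33554432 16777216 3 false true true .up 2 0 3
    ndN4q2 ndN3q3 pcN0 Cut.none Ext.none :=
  certNK2 (fam := false) (s1 := true) (s2 := true) (a := 2) (b := 0) (c := 3) (cn := .up) (n1 := ndN4q2) (n2 := ndN3q3) (pc := pcN0) (cut := Cut.none) (xt := Ext.none) (P1 := 1073741824) (W1 := 536870912) (P2 := 0) (W2 := 1230186008) (P3 := 33554432) (W3 := 16777216) (N0 := 3)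
    rfl rfl rfl (fun _ => rfl) k0_pp_203

noncomputable def f_pp_213 : ℕ → ℕ → ℕ → ℕ → Bool := onCell 536870912 536870912 0 1230186008 33554432 16777216
    (rowNK 3 2 false true true .pnn 2 1 3 (qsf 1073741824 536870912 0 1230186008 1) ndN4q2 ndN3q3 pcN1 Cut.none Ext.none)

def k0_pp_213 : ∃ t, chk3 f_pp_213 t 1 1 1 = true :=
  ⟨(a (b (a (b (a (l 17037752) (l 17069720)) (a (l 17333504) (l 17246240))) (b (l 16894888) (a (l 17259768) (l 17368960)))) (b (a (a (l 18272672) (l 18215016)) (b (l 17930864) (l 18399688))) (a (b (l 18991192) (l 3)) (b (l 18869432) (l 279748628503))))) (b (a (b (l 16956672) (l 17478512)) (a (l 17295048) (a (l 17257360) (a (l 17238072) (a (l 17222080) (l 17215984)))))) (b (a (b (l 17967304) (l 18317280)) (a (l 18082872) (l 1))) (l 1)))), by decide +kernel⟩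

theorem c_pp_213 : CertN 1073741824 536870912 0 1230186008 33554432 16777216 3 false true true .pnn 2 1 3
    ndN4q2 ndN3q3 pcN1 Cut.none Ext.none :=
  certNK2 (fam := false) (s1 := true) (s2 := true) (a := 2) (b := 1) (c := 3) (cn := .pnn) (n1 := ndN4q2) (n2 := ndN3q3) (pc := pcN1) (cut := Cut.none) (xt := Ext.none) (P1 := 1073741824) (W1 := 536870912) (P2 := 0) (W2 := 1230186008) (P3 := 33554432) (W3 := 16777216) (N0 := 3)
    rfl rfl rfl (fun _ => rfl) k0_pp_213

noncomputable def f_pp_303 : ℕ → ℕ → ℕ → ℕ → Bool := onCell 0 1230186008 0 1230186008 33554432 16777216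
    (rowNK 3 0 false true true .npn 3 0 3 (qsf 0 1230186008 0 1230186008 0) ndN4q3 ndN3q3 pcN0 Cut.none Ext.none)

def k0_pp_303 : ∃ t, chk3 f_pp_303 t 1 1 1 = true :=
  ⟨(a (b (l 3) (l 3)) (b (a (l 3) (a (b (l 276658772951) (l 3)) (b (a (l 17910368) (l 18113808)) (a (l 3) (l 277195826663))))) (l 3))), by decide +kernel⟩

theorem c_pp_303 : CertN 0 1230186008 0 1230186008 33554432 16777216 3 false true true .npn 3 0 3
    ndN4q3 ndN3q3 pcN0 Cut.none Ext.none :=
  certNK0 (fam := false) (s1 := true) (s2 := true) (a := 3) (b := 0) (c := 3) (cn := .npn) (n1 := ndN4q3) (n2 := ndN3q3) (pc := pcN0) (cut := Cut.none) (xt := Ext.none) (P1 := 0) (W1 := 1230186008) (P2 := 0) (W2 := 1230186008) (P3 := 33554432) (W3 := 16777216) (N0 := 3)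
    rfl rfl rfl k0_pp_303

noncomputable def f_pp_313 : ℕ → ℕ → ℕ → ℕ → Bool := onCell 0 1230186008 0 1230186008 33554432 16777216
    (rowNK 3 0 false true true .dn 3 1 3 (qsf 0 1230186008 0 1230186008 1) ndN4q3 ndN3q3 pcN1 Cut.none Ext.none)

def k0_pp_313 : ∃ t, chk3 f_pp_313 t 1 1 1 = true :=
  ⟨(a (l 1) (b (a (l 1) (a (l 1) (b (a (l 1) (l 2798742511623)) (l 1)))) (l 1))), by decide +kernel⟩

theorem c_pp_313 : CertN 0 1230186008 0 1230186008 33554432 16777216 3 false true true .dn 3 1 3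
    ndN4q3 ndN3q3 pcN1 Cut.none Ext.none :=
  certNK0 (fam := false) (s1 := true) (s2 := true) (a := 3) (b := 1) (c := 3) (cn := .dn) (n1 := ndN4q3) (n2 := ndN3q3) (pc := pcN1) (cut := Cut.none) (xt := Ext.none) (P1 := 0) (W1 := 1230186008) (P2 := 0) (W2 := 1230186008) (P3 := 33554432) (W3 := 16777216) (N0 := 3)
    rfl rfl rfl k0_pp_313

noncomputable def f_pm_001 : ℕ → ℕ → ℕ → ℕ → Bool := onCell 0 536870912 536870912 536870912 33554432 16777216
    (rowNK 3 0 false true false .up 0 0 1 (qsf 0 536870912 536870912 536870912 0) ndN4q0 ndN3q1 pcN0 Cut.none Ext.none)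

def k0_pm_001 : ∃ t, chk3 f_pm_001 t 1 1 1 = true :=
  ⟨(l 4), by decide +kernel⟩

theorem c_pm_001 : CertN 0 536870912 536870912 536870912 33554432 16777216 3 false true false .up 0 0 1
    ndN4q0 ndN3q1 pcN0 Cut.none Ext.none :=
  certNK0 (fam := false) (s1 := true) (s2 := false) (a := 0) (b := 0) (c := 1) (cn := .up) (n1 := ndN4q0) (n2 := ndN3q1) (pc := pcN0) (cut := Cut.none) (xt := Ext.none) (P1 := 0) (W1 := 536870912) (P2 := 536870912) (W2 := 536870912) (P3 := 33554432) (W3 := 16777216) (N0 := 3)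
    rfl rfl rfl k0_pm_001

noncomputable def f_pm_011 : ℕ → ℕ → ℕ → ℕ → Bool := onCell 0 536870912 536870912 536870912 33554432 16777216
    (rowNK 3 0 false true false .pnn 0 1 1 (qsf 0 536870912 536870912 536870912 1) ndN4q0 ndN3q1 pcN1 Cut.none Ext.none)

def k0_pm_011 : ∃ t, chk3 f_pm_011 t 1 1 1 = true :=
  ⟨(l 4), by decide +kernel⟩

theorem c_pm_011 : CertN 0 536870912 536870912 536870912 33554432 16777216 3 false true false .pnn 0 1 1
    ndN4q0 ndN3q1 pcN1 Cut.none Ext.none :=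
  certNK0 (fam := false) (s1 := true) (s2 := false) (a := 0) (b := 1) (c := 1) (cn := .pnn) (n1 := ndN4q0) (n2 := ndN3q1) (pc := pcN1) (cut := Cut.none) (xt := Ext.none) (P1 := 0) (W1 := 536870912) (P2 := 536870912) (W2 := 536870912) (P3 := 33554432) (W3 := 16777216) (N0 := 3)
    rfl rfl rfl k0_pm_011

noncomputable def f_pm_012 : ℕ → ℕ → ℕ → ℕ → Bool := onCell 0 536870912 1073741824 536870912 33554432 16777216
    (rowNK 3 0 false true false .pnp 0 1 2 (qsf 0 536870912 1073741824 536870912 1) ndN4q0 ndN3q2 pcN1 Cut.none Ext.none)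

def k0_pm_012 : ∃ t, chk3 f_pm_012 t 1 1 1 = true :=
  ⟨(l 4), by decide +kernel⟩

theorem c_pm_012 : CertN 0 536870912 1073741824 536870912 33554432 16777216 3 false true false .pnp 0 1 2
    ndN4q0 ndN3q2 pcN1 Cut.none Ext.none :=
  certNK0 (fam := false) (s1 := true) (s2 := false) (a := 0) (b := 1) (c := 2) (cn := .pnp) (n1 := ndN4q0) (n2 := ndN3q2) (pc := pcN1) (cut := Cut.none) (xt := Ext.none) (P1 := 0) (W1 := 536870912) (P2 := 1073741824) (W2 := 536870912) (P3 := 33554432) (W3 := 16777216) (N0 := 3)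
    rfl rfl rfl k0_pm_012

noncomputable def f_pm_022 : ℕ → ℕ → ℕ → ℕ → Bool := onCell 0 536870912 1073741824 536870912 33554432 16777216
    (rowNK 3 0 false true false .pp 0 2 2 (qsf 0 536870912 1073741824 536870912 2) ndN4q0 ndN3q2 pcN2 Cut.none Ext.none)

def k0_pm_022 : ∃ t, chk3 f_pm_022 t 1 1 1 = true :=
  ⟨(l 4), by decide +kernel⟩

theorem c_pm_022 : CertN 0 536870912 1073741824 536870912 33554432 16777216 3 false true false .pp 0 2 2
    ndN4q0 ndN3q2 pcN2 Cut.none Ext.none :=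
  certNK0 (fam := false) (s1 := true) (s2 := false) (a := 0) (b := 2) (c := 2) (cn := .pp) (n1 := ndN4q0) (n2 := ndN3q2) (pc := pcN2) (cut := Cut.none) (xt := Ext.none) (P1 := 0) (W1 := 536870912) (P2 := 1073741824) (W2 := 536870912) (P3 := 33554432) (W3 := 16777216) (N0 := 3)
    rfl rfl rfl k0_pm_022

noncomputable def f_pm_023 : ℕ → ℕ → ℕ → ℕ → Bool := onCell 0 536870912 0 1230186008 33554432 16777216
    (rowNK 3 0 false true false .up 0 2 3 (qsf 0 536870912 0 1230186008 2) ndN4q0 ndN3q3 pcN2 Cut.none Ext.none)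

def k0_pm_023 : ∃ t, chk3 f_pm_023 t 1 1 1 = true :=
  ⟨(b (l 4) (l 4)), by decide +kernel⟩

theorem c_pm_023 : CertN 0 536870912 0 1230186008 33554432 16777216 3 false true false .up 0 2 3
    ndN4q0 ndN3q3 pcN2 Cut.none Ext.none :=
  certNK0 (fam := false) (s1 := true) (s2 := false) (a := 0) (b := 2) (c := 3) (cn := .up) (n1 := ndN4q0) (n2 := ndN3q3) (pc := pcN2) (cut := Cut.none) (xt := Ext.none) (P1 := 0) (W1 := 536870912) (P2 := 0) (W2 := 1230186008) (P3 := 33554432) (W3 := 16777216) (N0 := 3)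
    rfl rfl rfl k0_pm_023

noncomputable def f_pm_033 : ℕ → ℕ → ℕ → ℕ → Bool := onCell 0 536870912 0 1230186008 33554432 16777216
    (rowNK 3 0 false true false .pnn 0 3 3 (qsf 0 536870912 0 1230186008 3) ndN4q0 ndN3q3 pcN3 Cut.none Ext.none)

def k0_pm_033 : ∃ t, chk3 f_pm_033 t 1 1 1 = true :=
  ⟨(b (l 4) (l 4)), by decide +kernel⟩

theorem c_pm_033 : CertN 0 536870912 0 1230186008 33554432 16777216 3 false true false .pnn 0 3 3
    ndN4q0 ndN3q3 pcN3 Cut.none Ext.none :=
  certNK0 (fam := false) (s1 := true) (s2 := false) (a := 0) (b := 3) (c := 3) (cn := .pnn) (n1 := ndN4q0) (n2 := ndN3q3) (pc := pcN3) (cut := Cut.none) (xt := Ext.none) (P1 := 0) (W1 := 536870912) (P2 := 0) (W2 := 1230186008) (P3 := 33554432) (W3 := 16777216) (N0 := 3)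
    rfl rfl rfl k0_pm_033

noncomputable def f_pm_101 : ℕ → ℕ → ℕ → ℕ → Bool := onCell 536870912 536870912 536870912 536870912 33554432 16777216
    (rowNK 3 0 false true false .npn 1 0 1 (qsf 536870912 536870912 536870912 536870912 0) ndN4q1 ndN3q1 pcN0 Cut.none Ext.none)

def k0_pm_101 : ∃ t, chk3 f_pm_101 t 1 1 1 = true :=
  ⟨(l 4), by decide +kernel⟩

theorem c_pm_101 : CertN 536870912 536870912 536870912 536870912 33554432 16777216 3 false true false .npn 1 0 1
    ndN4q1 ndN3q1 pcN0 Cut.none Ext.none :=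
  certNK0 (fam := false) (s1 := true) (s2 := false) (a := 1) (b := 0) (c := 1) (cn := .npn) (n1 := ndN4q1) (n2 := ndN3q1) (pc := pcN0) (cut := Cut.none) (xt := Ext.none) (P1 := 536870912) (W1 := 536870912) (P2 := 536870912) (W2 := 536870912) (P3 := 33554432) (W3 := 16777216) (N0 := 3)
    rfl rfl rfl k0_pm_101

noncomputable def f_pm_102 : ℕ → ℕ → ℕ → ℕ → Bool := onCell 536870912 536870912 1073741824 536870912 33554432 16777216
    (rowNK 3 0 false true false .npp 1 0 2 (qsf 536870912 536870912 1073741824 536870912 0) ndN4q1 ndN3q2 pcN0 Cut.none Ext.none)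

def k0_pm_102 : ∃ t, chk3 f_pm_102 t 1 1 1 = true :=
  ⟨(l 4), by decide +kernel⟩

theorem c_pm_102 : CertN 536870912 536870912 1073741824 536870912 33554432 16777216 3 false true false .npp 1 0 2
    ndN4q1 ndN3q2 pcN0 Cut.none Ext.none :=
  certNK0 (fam := false) (s1 := true) (s2 := false) (a := 1) (b := 0) (c := 2) (cn := .npp) (n1 := ndN4q1) (n2 := ndN3q2) (pc := pcN0) (cut := Cut.none) (xt := Ext.none) (P1 := 536870912) (W1 := 536870912) (P2 := 1073741824) (W2 := 536870912) (P3 := 33554432) (W3 := 16777216) (N0 := 3)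
    rfl rfl rfl k0_pm_102

noncomputable def f_pm_112 : ℕ → ℕ → ℕ → ℕ → Bool := onCell 536870912 536870912 1073741824 536870912 33554432 16777216
    (rowNK 3 0 false true false .dn 1 1 2 (qsf 536870912 536870912 1073741824 536870912 1) ndN4q1 ndN3q2 pcN1 Cut.none Ext.none)

def k0_pm_112 : ∃ t, chk3 f_pm_112 t 1 1 1 = true :=
  ⟨(l 4), by decide +kernel⟩

theorem c_pm_112 : CertN 536870912 536870912 1073741824 536870912 33554432 16777216 3 false true false .dn 1 1 2
    ndN4q1 ndN3q2 pcN1 Cut.none Ext.none :=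
  certNK0 (fam := false) (s1 := true) (s2 := false) (a := 1) (b := 1) (c := 2) (cn := .dn) (n1 := ndN4q1) (n2 := ndN3q2) (pc := pcN1) (cut := Cut.none) (xt := Ext.none) (P1 := 536870912) (W1 := 536870912) (P2 := 1073741824) (W2 := 536870912) (P3 := 33554432) (W3 := 16777216) (N0 := 3)
    rfl rfl rfl k0_pm_112

noncomputable def f_pm_113 : ℕ → ℕ → ℕ → ℕ → Bool := onCell 536870912 536870912 0 1230186008 33554432 16777216
    (rowNK 3 0 false true false .nn 1 1 3 (qsf 536870912 536870912 0 1230186008 1) ndN4q1 ndN3q3 pcN1 Cut.none Ext.none)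

def k0_pm_113 : ∃ t, chk3 f_pm_113 t 1 1 1 = true :=
  ⟨(b (a (l 2) (b (b (l 17075024) (l 4)) (l 4))) (l 4)), by decide +kernel⟩

theorem c_pm_113 : CertN 536870912 536870912 0 1230186008 33554432 16777216 3 false true false .nn 1 1 3
    ndN4q1 ndN3q3 pcN1 Cut.none Ext.none :=
  certNK0 (fam := false) (s1 := true) (s2 := false) (a := 1) (b := 1) (c := 3) (cn := .nn) (n1 := ndN4q1) (n2 := ndN3q3) (pc := pcN1) (cut := Cut.none) (xt := Ext.none) (P1 := 536870912) (W1 := 536870912) (P2 := 0) (W2 := 1230186008) (P3 := 33554432) (W3 := 16777216) (N0 := 3)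
    rfl rfl rfl k0_pm_113

noncomputable def f_pm_123 : ℕ → ℕ → ℕ → ℕ → Bool := onCell 1073741824 536870912 0 1230186008 33554432 16777216
    (rowNK 3 2 false true false .npn 1 2 3 (qsf 536870912 536870912 0 1230186008 2) ndN4q1 ndN3q3 pcN2 Cut.none Ext.none)

def k0_pm_123 : ∃ t, chk3 f_pm_123 t 1 1 1 = true :=
  ⟨(b (a (a (l 17542392) (l 4)) (l 4)) (l 4)), by decide +kernel⟩

theorem c_pm_123 : CertN 536870912 536870912 0 1230186008 33554432 16777216 3 false true false .npn 1 2 3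
    ndN4q1 ndN3q3 pcN2 Cut.none Ext.none :=
  certNK2 (fam := false) (s1 := true) (s2 := false) (a := 1) (b := 2) (c := 3) (cn := .npn) (n1 := ndN4q1) (n2 := ndN3q3) (pc := pcN2) (cut := Cut.none) (xt := Ext.none) (P1 := 536870912) (W1 := 536870912) (P2 := 0) (W2 := 1230186008) (P3 := 33554432) (W3 := 16777216) (N0 := 3)
    rfl rfl rfl (fun _ => rfl) k0_pm_123

noncomputable def f_pm_133 : ℕ → ℕ → ℕ → ℕ → Bool := onCell 1610612736 536870912 0 1230186008 33554432 16777216
    (rowNK 3 2 false true false .dn 1 3 3 (qsf 536870912 536870912 0 1230186008 3) ndN4q1 ndN3q3 pcN3 Cut.none Ext.none)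

def k0_pm_133 : ∃ t, chk3 f_pm_133 t 1 1 1 = true :=
  ⟨(a (l 4) (l 1)), by decide +kernel⟩

theorem c_pm_133 : CertN 536870912 536870912 0 1230186008 33554432 16777216 3 false true false .dn 1 3 3
    ndN4q1 ndN3q3 pcN3 Cut.none Ext.none :=
  certNK2 (fam := false) (s1 := true) (s2 := false) (a := 1) (b := 3) (c := 3) (cn := .dn) (n1 := ndN4q1) (n2 := ndN3q3) (pc := pcN3) (cut := Cut.none) (xt := Ext.none) (P1 := 536870912) (W1 := 536870912) (P2 := 0) (W2 := 1230186008) (P3 := 33554432) (W3 := 16777216) (N0 := 3)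
    rfl rfl rfl (fun _ => rfl) k0_pm_133

noncomputable def f_pm_202 : ℕ → ℕ → ℕ → ℕ → Bool := onCell 1073741824 536870912 1073741824 536870912 33554432 16777216
    (rowNK 3 0 false true false .pp 2 0 2 (qsf 1073741824 536870912 1073741824 536870912 0) ndN4q2 ndN3q2 pcN0 Cut.none Ext.none)

def k0_pm_202 : ∃ t, chk3 f_pm_202 t 1 1 1 = true :=
  ⟨(l 4), by decide +kernel⟩

theorem c_pm_202 : CertN 1073741824 536870912 1073741824 536870912 33554432 16777216 3 false true false .pp 2 0 2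
    ndN4q2 ndN3q2 pcN0 Cut.none Ext.none :=
  certNK0 (fam := false) (s1 := true) (s2 := false) (a := 2) (b := 0) (c := 2) (cn := .pp) (n1 := ndN4q2) (n2 := ndN3q2) (pc := pcN0) (cut := Cut.none) (xt := Ext.none) (P1 := 1073741824) (W1 := 536870912) (P2 := 1073741824) (W2 := 536870912) (P3 := 33554432) (W3 := 16777216) (N0 := 3)
    rfl rfl rfl k0_pm_202

noncomputable def f_pm_203 : ℕ → ℕ → ℕ → ℕ → Bool := onCell 1073741824 536870912 0 1230186008 33554432 16777216
    (rowNK 3 0 false true false .up 2 0 3 (qsf 1073741824 536870912 0 1230186008 0) ndN4q2 ndN3q3 pcN0 Cut.none Ext.none)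

def k0_pm_203 : ∃ t, chk3 f_pm_203 t 1 1 1 = true :=
  ⟨(a (b (l 2) (b (l 4) (l 4))) (b (a (l 2) (b (l 18360312) (a (b (l 18394592) (b (l 17495608) (l 17164984))) (b (l 18403528) (b (l 17796624) (l 17100696)))))) (b (a (b (a (l 2) (l 17347624)) (l 4)) (b (a (l 17025696) (b (l 16839608) (l 16847256))) (a (l 17021224) (l 16888656)))) (a (l 4) (b (c (l 17611848) (l 17247344)) (l 4)))))), by decide +kernel⟩

theorem c_pm_203 : CertN 1073741824 536870912 0 1230186008 33554432 16777216 3 false true false .up 2 0 3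
    ndN4q2 ndN3q3 pcN0 Cut.none Ext.none :=
  certNK0 (fam := false) (s1 := true) (s2 := false) (a := 2) (b := 0) (c := 3) (cn := .up) (n1 := ndN4q2) (n2 := ndN3q3) (pc := pcN0) (cut := Cut.none) (xt := Ext.none) (P1 := 1073741824) (W1 := 536870912) (P2 := 0) (W2 := 1230186008) (P3 := 33554432) (W3 := 16777216) (N0 := 3)
    rfl rfl rfl k0_pm_203

noncomputable def f_pm_213 : ℕ → ℕ → ℕ → ℕ → Bool := onCell 536870912 536870912 0 1230186008 33554432 16777216
    (rowNK 3 2 false true false .pnn 2 1 3 (qsf 1073741824 536870912 0 1230186008 1) ndN4q2 ndN3q3 pcN1 Cut.none Ext.none)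

def k0_pm_213 : ∃ t, chk3 f_pm_213 t 1 1 1 = true :=
  ⟨(b (b (a (a (b (l 17254856) (l 17399360)) (l 17112576)) (a (l 16849280) (a (l 16849192) (a (l 16889032) (a (l 16893208) (a (l 16895648) (l 16895872))))))) (a (a (a (l 17257416) (l 17155624)) (l 16989608)) (a (l 17004992) (l 4)))) (b (a (a (l 17390976) (l 4)) (l 4)) (l 4))), by decide +kernel⟩

theorem c_pm_213 : CertN 1073741824 536870912 0 1230186008 33554432 16777216 3 false true false .pnn 2 1 3
    ndN4q2 ndN3q3 pcN1 Cut.none Ext.none :=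
  certNK2 (fam := false) (s1 := true) (s2 := false) (a := 2) (b := 1) (c := 3) (cn := .pnn) (n1 := ndN4q2) (n2 := ndN3q3) (pc := pcN1) (cut := Cut.none) (xt := Ext.none) (P1 := 1073741824) (W1 := 536870912) (P2 := 0) (W2 := 1230186008) (P3 := 33554432) (W3 := 16777216) (N0 := 3)
    rfl rfl rfl (fun _ => rfl) k0_pm_213

noncomputable def f_pm_303 : ℕ → ℕ → ℕ → ℕ → Bool := onCell 0 1230186008 0 1230186008 33554432 16777216
    (rowNK 3 0 false true false .npn 3 0 3 (qsf 0 1230186008 0 1230186008 0) ndN4q3 ndN3q3 pcN0 Cut.none Ext.none)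

def k0_pm_303 : ∃ t, chk3 f_pm_303 t 1 1 1 = true :=
  ⟨(a (b (l 3) (b (b (b (l 3) (l 1)) (l 1)) (l 1))) (b (a (b (a (l 3) (l 17768408)) (b (a (l 3) (l 18144784)) (a (l 18101840) (b (l 18252840) (l 18277776))))) (a (b (l 18076288) (b (l 18363616) (b (l 18490208) (l 18296432)))) (b (l 18257208) (b (a (l 18627680) (b (l 18596408) (l 18581984))) (a (l 18259800) (b (l 18249920) (l 17485632))))))) (a (b (a (b (b (l 18125672) (l 1048007282839)) (b (a (l 1) (l 17138240)) (l 1))) (b (b (l 17936088) (a (l 17193656) (l 17061504))) (b (a (l 17216904) (l 17273432)) (a (l 17786448) (l 17574536))))) (a (l 1) (b (a (l 1) (b (l 17548448) (l 1))) (l 1)))) (b (a (b (b (l 17576176) (a (l 16903784) (l 16969984))) (a (b (l 17322952) (l 17451272)) (b (l 17259272) (l 17256736)))) (b (a (b (l 17174008) (l 17044296)) (b (l 16885112) (l 17001296))) (a (b (l 17116888) (l 17052704)) (l 16949960)))) (a (b (a (l 17313048) (l 17108744)) (a (l 1) (b (l 17011848) (l 1)))) (a (b (l 16935224) (b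 (l 16859272) (l 16838696))) (b (b (l 16859704) (l 16819056)) (l 4)))))))), by decide +kernel⟩

theorem c_pm_303 : CertN 0 1230186008 0 1230186008 33554432 16777216 3 false true false .npn 3 0 3
    ndN4q3 ndN3q3 pcN0 Cut.none Ext.none :=
  certNK0 (fam := false) (s1 := true) (s2 := false) (a := 3) (b := 0) (c := 3) (cn := .npn) (n1 := ndN4q3) (n2 := ndN3q3) (pc := pcN0) (cut := Cut.none) (xt := Ext.none) (P1 := 0) (W1 := 1230186008) (P2 := 0) (W2 := 1230186008) (P3 := 33554432) (W3 := 16777216) (N0 := 3)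
    rfl rfl rfl k0_pm_303

noncomputable def f_pm_313 : ℕ → ℕ → ℕ → ℕ → Bool := onCell 0 1230186008 0 1230186008 33554432 16777216
    (rowNK 3 0 false true false .dn 3 1 3 (qsf 0 1230186008 0 1230186008 1) ndN4q3 ndN3q3 pcN1 Cut.none Ext.none)

def k0_pm_313 : ∃ t, chk3 f_pm_313 t 1 1 1 = true :=
  ⟨(a (l 1) (b (a (l 1) (a (l 1) (b (a (l 1) (l 17055096)) (l 1)))) (l 1))), by decide +kernel⟩

theorem c_pm_313 : CertN 0 1230186008 0 1230186008 33554432 16777216 3 false true false .dn 3 1 3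
    ndN4q3 ndN3q3 pcN1 Cut.none Ext.none :=
  certNK0 (fam := false) (s1 := true) (s2 := false) (a := 3) (b := 1) (c := 3) (cn := .dn) (n1 := ndN4q3) (n2 := ndN3q3) (pc := pcN1) (cut := Cut.none) (xt := Ext.none) (P1 := 0) (W1 := 1230186008) (P2 := 0) (W2 := 1230186008) (P3 := 33554432) (W3 := 16777216) (N0 := 3)
    rfl rfl rfl k0_pm_313

noncomputable def f_mm_001 : ℕ → ℕ → ℕ → ℕ → Bool := onCell 0 536870912 536870912 536870912 33554432 16777216
    (rowNK 3 0 false false false .up 0 0 1 (qsf 0 536870912 536870912 536870912 0) ndN4q0 ndN3q1 pcN0 Cut.none Ext.none)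

def k0_mm_001 : ∃ t, chk3 f_mm_001 t 1 1 1 = true :=
  ⟨(l 3), by decide +kernel⟩

theorem c_mm_001 : CertN 0 536870912 536870912 536870912 33554432 16777216 3 false false false .up 0 0 1
    ndN4q0 ndN3q1 pcN0 Cut.none Ext.none :=
  certNK0 (fam := false) (s1 := false) (s2 := false) (a := 0) (b := 0) (c := 1) (cn := .up) (n1 := ndN4q0) (n2 := ndN3q1) (pc := pcN0) (cut := Cut.none) (xt := Ext.none) (P1 := 0) (W1 := 536870912) (P2 := 536870912) (W2 := 536870912) (P3 := 33554432) (W3 := 16777216) (N0 := 3)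
    rfl rfl rfl k0_mm_001

noncomputable def f_mm_011 : ℕ → ℕ → ℕ → ℕ → Bool := onCell 0 536870912 536870912 536870912 33554432 16777216
    (rowNK 3 0 false false false .pnn 0 1 1 (qsf 0 536870912 536870912 536870912 1) ndN4q0 ndN3q1 pcN1 Cut.none Ext.none)

def k0_mm_011 : ∃ t, chk3 f_mm_011 t 1 1 1 = true :=
  ⟨(l 3), by decide +kernel⟩

theorem c_mm_011 : CertN 0 536870912 536870912 536870912 33554432 16777216 3 false false false .pnn 0 1 1
    ndN4q0 ndN3q1 pcN1 Cut.none Ext.none :=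
  certNK0 (fam := false) (s1 := false) (s2 := false) (a := 0) (b := 1) (c := 1) (cn := .pnn) (n1 := ndN4q0) (n2 := ndN3q1) (pc := pcN1) (cut := Cut.none) (xt := Ext.none) (P1 := 0) (W1 := 536870912) (P2 := 536870912) (W2 := 536870912) (P3 := 33554432) (W3 := 16777216) (N0 := 3)
    rfl rfl rfl k0_mm_011

noncomputable def f_mm_012 : ℕ → ℕ → ℕ → ℕ → Bool := onCell 0 536870912 1073741824 536870912 33554432 16777216
    (rowNK 3 0 false false false .pnp 0 1 2 (qsf 0 536870912 1073741824 536870912 1) ndN4q0 ndN3q2 pcN1 Cut.none Ext.none)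

def k0_mm_012 : ∃ t, chk3 f_mm_012 t 1 1 1 = true :=
  ⟨(l 5), by decide +kernel⟩

theorem c_mm_012 : CertN 0 536870912 1073741824 536870912 33554432 16777216 3 false false false .pnp 0 1 2
    ndN4q0 ndN3q2 pcN1 Cut.none Ext.none :=
  certNK0 (fam := false) (s1 := false) (s2 := false) (a := 0) (b := 1) (c := 2) (cn := .pnp) (n1 := ndN4q0) (n2 := ndN3q2) (pc := pcN1) (cut := Cut.none) (xt := Ext.none) (P1 := 0) (W1 := 536870912) (P2 := 1073741824) (W2 := 536870912) (P3 := 33554432) (W3 := 16777216) (N0 := 3)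
    rfl rfl rfl k0_mm_012

noncomputable def f_mm_022 : ℕ → ℕ → ℕ → ℕ → Bool := onCell 0 536870912 1073741824 536870912 33554432 16777216
    (rowNK 3 0 false false false .pp 0 2 2 (qsf 0 536870912 1073741824 536870912 2) ndN4q0 ndN3q2 pcN2 Cut.none Ext.none)

def k0_mm_022 : ∃ t, chk3 f_mm_022 t 1 1 1 = true :=
  ⟨(l 5), by decide +kernel⟩

theorem c_mm_022 : CertN 0 536870912 1073741824 536870912 33554432 16777216 3 false false false .pp 0 2 2
    ndN4q0 ndN3q2 pcN2 Cut.none Ext.none :=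
  certNK0 (fam := false) (s1 := false) (s2 := false) (a := 0) (b := 2) (c := 2) (cn := .pp) (n1 := ndN4q0) (n2 := ndN3q2) (pc := pcN2) (cut := Cut.none) (xt := Ext.none) (P1 := 0) (W1 := 536870912) (P2 := 1073741824) (W2 := 536870912) (P3 := 33554432) (W3 := 16777216) (N0 := 3)
    rfl rfl rfl k0_mm_022

noncomputable def f_mm_023 : ℕ → ℕ → ℕ → ℕ → Bool := onCell 0 536870912 0 1230186008 33554432 16777216
    (rowNK 3 0 false false false .up 0 2 3 (qsf 0 536870912 0 1230186008 2) ndN4q0 ndN3q3 pcN2 Cut.none Ext.none)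

def k0_mm_023 : ∃ t, chk3 f_mm_023 t 1 1 1 = true :=
  ⟨(l 5), by decide +kernel⟩

theorem c_mm_023 : CertN 0 536870912 0 1230186008 33554432 16777216 3 false false false .up 0 2 3
    ndN4q0 ndN3q3 pcN2 Cut.none Ext.none :=
  certNK0 (fam := false) (s1 := false) (s2 := false) (a := 0) (b := 2) (c := 3) (cn := .up) (n1 := ndN4q0) (n2 := ndN3q3) (pc := pcN2) (cut := Cut.none) (xt := Ext.none) (P1 := 0) (W1 := 536870912) (P2 := 0) (W2 := 1230186008) (P3 := 33554432) (W3 := 16777216) (N0 := 3)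
    rfl rfl rfl k0_mm_023

noncomputable def f_mm_033 : ℕ → ℕ → ℕ → ℕ → Bool := onCell 0 536870912 0 1230186008 33554432 16777216
    (rowNK 3 0 false false false .pnn 0 3 3 (qsf 0 536870912 0 1230186008 3) ndN4q0 ndN3q3 pcN3 Cut.none Ext.none)

def k0_mm_033 : ∃ t, chk3 f_mm_033 t 1 1 1 = true :=
  ⟨(l 5), by decide +kernel⟩

theorem c_mm_033 : CertN 0 536870912 0 1230186008 33554432 16777216 3 false false false .pnn 0 3 3
    ndN4q0 ndN3q3 pcN3 Cut.none Ext.none :=
  certNK0 (fam := false) (s1 := false) (s2 := false) (a := 0) (b := 3) (c := 3) (cn := .pnn) (n1 := ndN4q0) (n2 := ndN3q3) (pc := pcN3) (cut := Cut.none) (xt := Ext.none) (P1 := 0) (W1 := 536870912) (P2 := 0) (W2 := 1230186008) (P3 := 33554432) (W3 := 16777216) (N0 := 3)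
    rfl rfl rfl k0_mm_033

noncomputable def f_mm_101 : ℕ → ℕ → ℕ → ℕ → Bool := onCell 536870912 536870912 536870912 536870912 33554432 16777216
    (rowNK 3 0 false false false .npn 1 0 1 (qsf 536870912 536870912 536870912 536870912 0) ndN4q1 ndN3q1 pcN0 Cut.none Ext.none)

def k0_mm_101 : ∃ t, chk3 f_mm_101 t 1 1 1 = true :=
  ⟨(l 3), by decide +kernel⟩

theorem c_mm_101 : CertN 536870912 536870912 536870912 536870912 33554432 16777216 3 false false false .npn 1 0 1
    ndN4q1 ndN3q1 pcN0 Cut.none Ext.none :=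
  certNK0 (fam := false) (s1 := false) (s2 := false) (a := 1) (b := 0) (c := 1) (cn := .npn) (n1 := ndN4q1) (n2 := ndN3q1) (pc := pcN0) (cut := Cut.none) (xt := Ext.none) (P1 := 536870912) (W1 := 536870912) (P2 := 536870912) (W2 := 536870912) (P3 := 33554432) (W3 := 16777216) (N0 := 3)
    rfl rfl rfl k0_mm_101

noncomputable def f_mm_102 : ℕ → ℕ → ℕ → ℕ → Bool := onCell 536870912 536870912 1073741824 536870912 33554432 16777216
    (rowNK 3 0 false false false .npp 1 0 2 (qsf 536870912 536870912 1073741824 536870912 0) ndN4q1 ndN3q2 pcN0 Cut.none Ext.none)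

def k0_mm_102 : ∃ t, chk3 f_mm_102 t 1 1 1 = true :=
  ⟨(l 5), by decide +kernel⟩

theorem c_mm_102 : CertN 536870912 536870912 1073741824 536870912 33554432 16777216 3 false false false .npp 1 0 2
    ndN4q1 ndN3q2 pcN0 Cut.none Ext.none :=
  certNK0 (fam := false) (s1 := false) (s2 := false) (a := 1) (b := 0) (c := 2) (cn := .npp) (n1 := ndN4q1) (n2 := ndN3q2) (pc := pcN0) (cut := Cut.none) (xt := Ext.none) (P1 := 536870912) (W1 := 536870912) (P2 := 1073741824) (W2 := 536870912) (P3 := 33554432) (W3 := 16777216) (N0 := 3)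
    rfl rfl rfl k0_mm_102

noncomputable def f_mm_112 : ℕ → ℕ → ℕ → ℕ → Bool := onCell 536870912 536870912 1073741824 536870912 33554432 16777216
    (rowNK 3 0 false false false .dn 1 1 2 (qsf 536870912 536870912 1073741824 536870912 1) ndN4q1 ndN3q2 pcN1 Cut.none Ext.none)

def k0_mm_112 : ∃ t, chk3 f_mm_112 t 1 1 1 = true :=
  ⟨(l 5), by decide +kernel⟩

theorem c_mm_112 : CertN 536870912 536870912 1073741824 536870912 33554432 16777216 3 false false false .dn 1 1 2
    ndN4q1 ndN3q2 pcN1 Cut.none Ext.none :=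
  certNK0 (fam := false) (s1 := false) (s2 := false) (a := 1) (b := 1) (c := 2) (cn := .dn) (n1 := ndN4q1) (n2 := ndN3q2) (pc := pcN1) (cut := Cut.none) (xt := Ext.none) (P1 := 536870912) (W1 := 536870912) (P2 := 1073741824) (W2 := 536870912) (P3 := 33554432) (W3 := 16777216) (N0 := 3)
    rfl rfl rfl k0_mm_112

noncomputable def f_mm_113 : ℕ → ℕ → ℕ → ℕ → Bool := onCell 536870912 536870912 0 1230186008 33554432 16777216
    (rowNK 3 0 false false false .nn 1 1 3 (qsf 536870912 536870912 0 1230186008 1) ndN4q1 ndN3q3 pcN1 Cut.none Ext.none)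

def k0_mm_113 : ∃ t, chk3 f_mm_113 t 1 1 1 = true :=
  ⟨(l 5), by decide +kernel⟩

theorem c_mm_113 : CertN 536870912 536870912 0 1230186008 33554432 16777216 3 false false false .nn 1 1 3
    ndN4q1 ndN3q3 pcN1 Cut.none Ext.none :=
  certNK0 (fam := false) (s1 := false) (s2 := false) (a := 1) (b := 1) (c := 3) (cn := .nn) (n1 := ndN4q1) (n2 := ndN3q3) (pc := pcN1) (cut := Cut.none) (xt := Ext.none) (P1 := 536870912) (W1 := 536870912) (P2 := 0) (W2 := 1230186008) (P3 := 33554432) (W3 := 16777216) (N0 := 3)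
    rfl rfl rfl k0_mm_113

noncomputable def f_mm_123 : ℕ → ℕ → ℕ → ℕ → Bool := onCell 536870912 536870912 0 1230186008 33554432 16777216
    (rowNK 3 0 false false false .npn 1 2 3 (qsf 536870912 536870912 0 1230186008 2) ndN4q1 ndN3q3 pcN2 Cut.none Ext.none)

def k0_mm_123 : ∃ t, chk3 f_mm_123 t 1 1 1 = true :=
  ⟨(l 5), by decide +kernel⟩

theorem c_mm_123 : CertN 536870912 536870912 0 1230186008 33554432 16777216 3 false false false .npn 1 2 3
    ndN4q1 ndN3q3 pcN2 Cut.none Ext.none :=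
  certNK0 (fam := false) (s1 := false) (s2 := false) (a := 1) (b := 2) (c := 3) (cn := .npn) (n1 := ndN4q1) (n2 := ndN3q3) (pc := pcN2) (cut := Cut.none) (xt := Ext.none) (P1 := 536870912) (W1 := 536870912) (P2 := 0) (W2 := 1230186008) (P3 := 33554432) (W3 := 16777216) (N0 := 3)
    rfl rfl rfl k0_mm_123

noncomputable def f_mm_133 : ℕ → ℕ → ℕ → ℕ → Bool := onCell 536870912 536870912 0 1230186008 33554432 16777216
    (rowNK 3 0 false false false .dn 1 3 3 (qsf 536870912 536870912 0 1230186008 3) ndN4q1 ndN3q3 pcN3 Cut.none Ext.none)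

def k0_mm_133 : ∃ t, chk3 f_mm_133 t 1 1 1 = true :=
  ⟨(l 5), by decide +kernel⟩

theorem c_mm_133 : CertN 536870912 536870912 0 1230186008 33554432 16777216 3 false false false .dn 1 3 3
    ndN4q1 ndN3q3 pcN3 Cut.none Ext.none :=
  certNK0 (fam := false) (s1 := false) (s2 := false) (a := 1) (b := 3) (c := 3) (cn := .dn) (n1 := ndN4q1) (n2 := ndN3q3) (pc := pcN3) (cut := Cut.none) (xt := Ext.none) (P1 := 536870912) (W1 := 536870912) (P2 := 0) (W2 := 1230186008) (P3 := 33554432) (W3 := 16777216) (N0 := 3)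
    rfl rfl rfl k0_mm_133

noncomputable def f_mm_202 : ℕ → ℕ → ℕ → ℕ → Bool := onCell 1073741824 536870912 1073741824 536870912 33554432 16777216
    (rowNK 3 0 false false false .pp 2 0 2 (qsf 1073741824 536870912 1073741824 536870912 0) ndN4q2 ndN3q2 pcN0 Cut.none Ext.none)

def k0_mm_202 : ∃ t, chk3 f_mm_202 t 1 1 1 = true :=
  ⟨(l 3), by decide +kernel⟩

theorem c_mm_202 : CertN 1073741824 536870912 1073741824 536870912 33554432 16777216 3 false false false .pp 2 0 2
    ndN4q2 ndN3q2 pcN0 Cut.none Ext.none :=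
  certNK0 (fam := false) (s1 := false) (s2 := false) (a := 2) (b := 0) (c := 2) (cn := .pp) (n1 := ndN4q2) (n2 := ndN3q2) (pc := pcN0) (cut := Cut.none) (xt := Ext.none) (P1 := 1073741824) (W1 := 536870912) (P2 := 1073741824) (W2 := 536870912) (P3 := 33554432) (W3 := 16777216) (N0 := 3)
    rfl rfl rfl k0_mm_202

noncomputable def f_mm_203 : ℕ → ℕ → ℕ → ℕ → Bool := onCell 1073741824 536870912 0 1230186008 33554432 16777216
    (rowNK 3 0 false false false .up 2 0 3 (qsf 1073741824 536870912 0 1230186008 0) ndN4q2 ndN3q3 pcN0 Cut.none Ext.none)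

def k0_mm_203 : ∃ t, chk3 f_mm_203 t 1 1 1 = true :=
  ⟨(l 5), by decide +kernel⟩

theorem c_mm_203 : CertN 1073741824 536870912 0 1230186008 33554432 16777216 3 false false false .up 2 0 3
    ndN4q2 ndN3q3 pcN0 Cut.none Ext.none :=
  certNK0 (fam := false) (s1 := false) (s2 := false) (a := 2) (b := 0) (c := 3) (cn := .up) (n1 := ndN4q2) (n2 := ndN3q3) (pc := pcN0) (cut := Cut.none) (xt := Ext.none) (P1 := 1073741824) (W1 := 536870912) (P2 := 0) (W2 := 1230186008) (P3 := 33554432) (W3 := 16777216) (N0 := 3)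
    rfl rfl rfl k0_mm_203

noncomputable def f_mm_213 : ℕ → ℕ → ℕ → ℕ → Bool := onCell 1073741824 536870912 0 1230186008 33554432 16777216
    (rowNK 3 0 false false false .pnn 2 1 3 (qsf 1073741824 536870912 0 1230186008 1) ndN4q2 ndN3q3 pcN1 Cut.none Ext.none)

def k0_mm_213 : ∃ t, chk3 f_mm_213 t 1 1 1 = true :=
  ⟨(l 5), by decide +kernel⟩

theorem c_mm_213 : CertN 1073741824 536870912 0 1230186008 33554432 16777216 3 false false false .pnn 2 1 3
    ndN4q2 ndN3q3 pcN1 Cut.none Ext.none :=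
  certNK0 (fam := false) (s1 := false) (s2 := false) (a := 2) (b := 1) (c := 3) (cn := .pnn) (n1 := ndN4q2) (n2 := ndN3q3) (pc := pcN1) (cut := Cut.none) (xt := Ext.none) (P1 := 1073741824) (W1 := 536870912) (P2 := 0) (W2 := 1230186008) (P3 := 33554432) (W3 := 16777216) (N0 := 3)
    rfl rfl rfl k0_mm_213

noncomputable def f_mm_303 : ℕ → ℕ → ℕ → ℕ → Bool := onCell 0 1230186008 0 1230186008 33554432 16777216
    (rowNK 3 0 false false false .npn 3 0 3 (qsf 0 1230186008 0 1230186008 0) ndN4q3 ndN3q3 pcN0 Cut.none Ext.none)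

def k0_mm_303 : ∃ t, chk3 f_mm_303 t 1 1 1 = true :=
  ⟨(a (b (l 3) (l 3)) (b (l 5) (l 3))), by decide +kernel⟩

theorem c_mm_303 : CertN 0 1230186008 0 1230186008 33554432 16777216 3 false false false .npn 3 0 3
    ndN4q3 ndN3q3 pcN0 Cut.none Ext.none :=
  certNK0 (fam := false) (s1 := false) (s2 := false) (a := 3) (b := 0) (c := 3) (cn := .npn) (n1 := ndN4q3) (n2 := ndN3q3) (pc := pcN0) (cut := Cut.none) (xt := Ext.none) (P1 := 0) (W1 := 1230186008) (P2 := 0) (W2 := 1230186008) (P3 := 33554432) (W3 := 16777216) (N0 := 3)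
    rfl rfl rfl k0_mm_303

noncomputable def f_mm_313 : ℕ → ℕ → ℕ → ℕ → Bool := onCell 0 1230186008 0 1230186008 33554432 16777216
    (rowNK 3 0 false false false .dn 3 1 3 (qsf 0 1230186008 0 1230186008 1) ndN4q3 ndN3q3 pcN1 Cut.none Ext.none)

def k0_mm_313 : ∃ t, chk3 f_mm_313 t 1 1 1 = true :=
  ⟨(a (l 1) (b (l 5) (l 1))), by decide +kernel⟩

theorem c_mm_313 : CertN 0 1230186008 0 1230186008 33554432 16777216 3 false false false .dn 3 1 3
    ndN4q3 ndN3q3 pcN1 Cut.none Ext.none :=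
  certNK0 (fam := false) (s1 := false) (s2 := false) (a := 3) (b := 1) (c := 3) (cn := .dn) (n1 := ndN4q3) (n2 := ndN3q3) (pc := pcN1) (cut := Cut.none) (xt := Ext.none) (P1 := 0) (W1 := 1230186008) (P2 := 0) (W2 := 1230186008) (P3 := 33554432) (W3 := 16777216) (N0 := 3)
    rfl rfl rfl k0_mm_313

end Pool.Agent.Strip051.G.I1_32_3_64.Tab.C.NB43

namespace Pool.Agent.Strip051.G.I1_32_3_64.Tab.C.NB44

open Pool.Agent.Strip051.PB Pool.Agent.Strip051.PB.T
open Pool.Agent.Strip051.G.I1_32_3_64.Tab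

noncomputable def f_pp_001 : ℕ → ℕ → ℕ → ℕ → Bool := onCell 0 536870912 536870912 536870912 33554432 16777216
    (rowNK 3 0 false true true .up 0 0 1 (qsf 0 536870912 536870912 536870912 0) ndN4q0 ndN4q1 pcN0 Cut.none Ext.none)

def k0_pp_001 : ∃ t, chk3 f_pp_001 t 1 1 1 = true :=
  ⟨(l 3), by decide +kernel⟩

theorem c_pp_001 : CertN 0 536870912 536870912 536870912 33554432 16777216 3 false true true .up 0 0 1
    ndN4q0 ndN4q1 pcN0 Cut.none Ext.none :=
  certNK0 (fam := false) (s1 := true) (s2 := true) (a := 0) (b := 0) (c := 1) (cn := .up) (n1 := ndN4q0) (n2 := ndN4q1) (pc := pcN0) (cut := Cut.none) (xt := Ext.none) (P1 := 0) (W1 := 536870912) (P2 := 536870912) (W2 := 536870912) (P3 := 33554432) (W3 := 16777216) (N0 := 3)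
    rfl rfl rfl k0_pp_001

noncomputable def f_pp_011 : ℕ → ℕ → ℕ → ℕ → Bool := onCell 0 536870912 536870912 536870912 33554432 16777216
    (rowNK 3 0 false true true .pnn 0 1 1 (qsf 0 536870912 536870912 536870912 1) ndN4q0 ndN4q1 pcN1 Cut.none Ext.none)

def k0_pp_011 : ∃ t, chk3 f_pp_011 t 1 1 1 = true :=
  ⟨(l 3), by decide +kernel⟩

theorem c_pp_011 : CertN 0 536870912 536870912 536870912 33554432 16777216 3 false true true .pnn 0 1 1
    ndN4q0 ndN4q1 pcN1 Cut.none Ext.none :=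
  certNK0 (fam := false) (s1 := true) (s2 := true) (a := 0) (b := 1) (c := 1) (cn := .pnn) (n1 := ndN4q0) (n2 := ndN4q1) (pc := pcN1) (cut := Cut.none) (xt := Ext.none) (P1 := 0) (W1 := 536870912) (P2 := 536870912) (W2 := 536870912) (P3 := 33554432) (W3 := 16777216) (N0 := 3)
    rfl rfl rfl k0_pp_011

noncomputable def f_pp_012 : ℕ → ℕ → ℕ → ℕ → Bool := onCell 0 536870912 536870912 536870912 33554432 16777216
    (rowNK 3 1 false true true .pnp 0 1 2 (qsf 0 536870912 1073741824 536870912 1) ndN4q0 ndN4q2 pcN1 Cut.none Ext.none)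

def k0_pp_012 : ∃ t, chk3 f_pp_012 t 1 1 1 = true :=
  ⟨(b (l 3) (a (l 3) (b (l 3) (a (l 3) (l 531673785575))))), by decide +kernel⟩

theorem c_pp_012 : CertN 0 536870912 1073741824 536870912 33554432 16777216 3 false true true .pnp 0 1 2
    ndN4q0 ndN4q2 pcN1 Cut.none Ext.none :=
  certNK1 (fam := false) (s1 := true) (s2 := true) (a := 0) (b := 1) (c := 2) (cn := .pnp) (n1 := ndN4q0) (n2 := ndN4q2) (pc := pcN1) (cut := Cut.none) (xt := Ext.none) (P1 := 0) (W1 := 536870912) (P2 := 1073741824) (W2 := 536870912) (P3 := 33554432) (W3 := 16777216) (N0 := 3)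
    rfl rfl rfl (fun _ => rfl) k0_pp_012

noncomputable def f_pp_022 : ℕ → ℕ → ℕ → ℕ → Bool := onCell 1073741824 536870912 1073741824 536870912 33554432 16777216
    (rowNK 3 2 false true true .pp 0 2 2 (qsf 0 536870912 1073741824 536870912 2) ndN4q0 ndN4q2 pcN2 Cut.none Ext.none)

def k0_pp_022 : ∃ t, chk3 f_pp_022 t 1 1 1 = true :=
  ⟨(a (b (a (a (l 3) (b (l 19869968) (l 19446216))) (a (a (a (b (l 19838304) (l 19344904)) (b (l 1) (l 253979193287))) (b (l 1) (l 19317304))) (b (l 1) (l 19320344)))) (a (a (a (b (l 3) (a (a (l 18072888) (l 18063632)) (l 18052352))) (b (l 18729816) (l 18035160))) (b (l 18714568) (l 18024200))) (b (l 18691208) (l 18019992)))) (b (b (l 1) (a (l 19392616) (l 1))) (b (a (l 18613856) (l 18666800)) (l 18026840)))), by decide +kernel⟩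

theorem c_pp_022 : CertN 0 536870912 1073741824 536870912 33554432 16777216 3 false true true .pp 0 2 2
    ndN4q0 ndN4q2 pcN2 Cut.none Ext.none :=
  certNK2 (fam := false) (s1 := true) (s2 := true) (a := 0) (b := 2) (c := 2) (cn := .pp) (n1 := ndN4q0) (n2 := ndN4q2) (pc := pcN2) (cut := Cut.none) (xt := Ext.none) (P1 := 0) (W1 := 536870912) (P2 := 1073741824) (W2 := 536870912) (P3 := 33554432) (W3 := 16777216) (N0 := 3)
    rfl rfl rfl (fun _ => rfl) k0_pp_022

noncomputable def f_pp_023 : ℕ → ℕ → ℕ → ℕ → Bool := onCell 1073741824 536870912 0 1230186008 33554432 16777216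
    (rowNK 3 2 false true true .up 0 2 3 (qsf 0 536870912 0 1230186008 2) ndN4q0 ndN4q3 pcN2 Cut.none Ext.none)

def k0_pp_023 : ∃ t, chk3 f_pp_023 t 1 1 1 = true :=
  ⟨(a (b (l 2) (b (b (l 2) (a (l 2) (l 17275448))) (b (a (l 2) (l 17446304)) (a (a (a (a (a (l 17980952) (l 17954672)) (l 17919544)) (l 17856632)) (l 17765832)) (l 17710368))))) (b (a (l 2) (b (l 4) (l 16790336))) (b (a (b (l 17081056) (l 17237824)) (l 17308992)) (b (a (l 17339168) (l 17343840)) (l 17691528))))), by decide +kernel⟩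

theorem c_pp_023 : CertN 0 536870912 0 1230186008 33554432 16777216 3 false true true .up 0 2 3
    ndN4q0 ndN4q3 pcN2 Cut.none Ext.none :=
  certNK2 (fam := false) (s1 := true) (s2 := true) (a := 0) (b := 2) (c := 3) (cn := .up) (n1 := ndN4q0) (n2 := ndN4q3) (pc := pcN2) (cut := Cut.none) (xt := Ext.none) (P1 := 0) (W1 := 536870912) (P2 := 0) (W2 := 1230186008) (P3 := 33554432) (W3 := 16777216) (N0 := 3)
    rfl rfl rfl (fun _ => rfl) k0_pp_023

noncomputable def f_pp_033 : ℕ → ℕ → ℕ → ℕ → Bool := onCell 1610612736 536870912 0 1230186008 33554432 16777216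
    (rowNK 3 2 false true true .pnn 0 3 3 (qsf 0 536870912 0 1230186008 3) ndN4q0 ndN4q3 pcN3 Cut.none Ext.none)

def k0_pp_033 : ∃ t, chk3 f_pp_033 t 1 1 1 = true :=
  ⟨(b (a (a (b (l 4) (l 17330904)) (l 4)) (l 4)) (b (a (a (b (l 16868584) (l 16933464)) (b (l 17189336) (l 17060936))) (l 4)) (a (a (b (l 16973200) (l 17055976)) (b (l 16860128) (a (l 16905576) (l 1)))) (l 1)))), by decide +kernel⟩

theorem c_pp_033 : CertN 0 536870912 0 1230186008 33554432 16777216 3 false true true .pnn 0 3 3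
    ndN4q0 ndN4q3 pcN3 Cut.none Ext.none :=
  certNK2 (fam := false) (s1 := true) (s2 := true) (a := 0) (b := 3) (c := 3) (cn := .pnn) (n1 := ndN4q0) (n2 := ndN4q3) (pc := pcN3) (cut := Cut.none) (xt := Ext.none) (P1 := 0) (W1 := 536870912) (P2 := 0) (W2 := 1230186008) (P3 := 33554432) (W3 := 16777216) (N0 := 3)
    rfl rfl rfl (fun _ => rfl) k0_pp_033

noncomputable def f_pp_101 : ℕ → ℕ → ℕ → ℕ → Bool := onCell 536870912 536870912 536870912 536870912 33554432 16777216
    (rowNK 3 0 false true true .npn 1 0 1 (qsf 536870912 536870912 536870912 536870912 0) ndN4q1 ndN4q1 pcN0 Cut.none Ext.none)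

def k0_pp_101 : ∃ t, chk3 f_pp_101 t 1 1 1 = true :=
  ⟨(l 3), by decide +kernel⟩

theorem c_pp_101 : CertN 536870912 536870912 536870912 536870912 33554432 16777216 3 false true true .npn 1 0 1
    ndN4q1 ndN4q1 pcN0 Cut.none Ext.none :=
  certNK0 (fam := false) (s1 := true) (s2 := true) (a := 1) (b := 0) (c := 1) (cn := .npn) (n1 := ndN4q1) (n2 := ndN4q1) (pc := pcN0) (cut := Cut.none) (xt := Ext.none) (P1 := 536870912) (W1 := 536870912) (P2 := 536870912) (W2 := 536870912) (P3 := 33554432) (W3 := 16777216) (N0 := 3)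
    rfl rfl rfl k0_pp_101

noncomputable def f_pp_102 : ℕ → ℕ → ℕ → ℕ → Bool := onCell 536870912 536870912 0 536870912 33554432 16777216
    (rowNK 3 1 false true true .npp 1 0 2 (qsf 536870912 536870912 1073741824 536870912 0) ndN4q1 ndN4q2 pcN0 Cut.none Ext.none)

def k0_pp_102 : ∃ t, chk3 f_pp_102 t 1 1 1 = true :=
  ⟨(l 3), by decide +kernel⟩

theorem c_pp_102 : CertN 536870912 536870912 1073741824 536870912 33554432 16777216 3 false true true .npp 1 0 2
    ndN4q1 ndN4q2 pcN0 Cut.none Ext.none :=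
  certNK1 (fam := false) (s1 := true) (s2 := true) (a := 1) (b := 0) (c := 2) (cn := .npp) (n1 := ndN4q1) (n2 := ndN4q2) (pc := pcN0) (cut := Cut.none) (xt := Ext.none) (P1 := 536870912) (W1 := 536870912) (P2 := 1073741824) (W2 := 536870912) (P3 := 33554432) (W3 := 16777216) (N0 := 3)
    rfl rfl rfl (fun _ => rfl) k0_pp_102

noncomputable def f_pp_112 : ℕ → ℕ → ℕ → ℕ → Bool := onCell 536870912 536870912 1073741824 536870912 33554432 16777216
    (rowNK 3 2 false true true .dn 1 1 2 (qsf 536870912 536870912 1073741824 536870912 1) ndN4q1 ndN4q2 pcN1 Cut.none Ext.none)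

def k0_pp_112 : ∃ t, chk3 f_pp_112 t 1 1 1 = true :=
  ⟨(a (l 3) (b (l 3) (a (l 3) (b (l 3) (l 18178928))))), by decide +kernel⟩

theorem c_pp_112 : CertN 536870912 536870912 1073741824 536870912 33554432 16777216 3 false true true .dn 1 1 2
    ndN4q1 ndN4q2 pcN1 Cut.none Ext.none :=
  certNK2 (fam := false) (s1 := true) (s2 := true) (a := 1) (b := 1) (c := 2) (cn := .dn) (n1 := ndN4q1) (n2 := ndN4q2) (pc := pcN1) (cut := Cut.none) (xt := Ext.none) (P1 := 536870912) (W1 := 536870912) (P2 := 1073741824) (W2 := 536870912) (P3 := 33554432) (W3 := 16777216) (N0 := 3)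
    rfl rfl rfl (fun _ => rfl) k0_pp_112

noncomputable def f_pp_113 : ℕ → ℕ → ℕ → ℕ → Bool := onCell 536870912 536870912 0 1230186008 33554432 16777216
    (rowNK 3 2 false true true .nn 1 1 3 (qsf 536870912 536870912 0 1230186008 1) ndN4q1 ndN4q3 pcN1 Cut.none Ext.none)

def k0_pp_113 : ∃ t, chk3 f_pp_113 t 1 1 1 = true :=
  ⟨(a (b (l 2) (b (b (l 2) (l 3)) (l 3))) (a (b (l 2) (b (b (l 18819048) (l 19003280)) (b (l 19116784) (l 3)))) (b (b (a (l 2) (a (l 2) (a (l 17138096) (a (l 17098048) (l 17070400))))) (a (l 18027608) (a (l 17893344) (a (l 17814248) (a (l 17771024) (l 17736008)))))) (b (b (l 18206776) (l 18257464)) (b (l 18350184) (l 18255512)))))), by decide +kernel⟩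

theorem c_pp_113 : CertN 536870912 536870912 0 1230186008 33554432 16777216 3 false true true .nn 1 1 3
    ndN4q1 ndN4q3 pcN1 Cut.none Ext.none :=
  certNK2 (fam := false) (s1 := true) (s2 := true) (a := 1) (b := 1) (c := 3) (cn := .nn) (n1 := ndN4q1) (n2 := ndN4q3) (pc := pcN1) (cut := Cut.none) (xt := Ext.none) (P1 := 536870912) (W1 := 536870912) (P2 := 0) (W2 := 1230186008) (P3 := 33554432) (W3 := 16777216) (N0 := 3)
    rfl rfl rfl (fun _ => rfl) k0_pp_113

noncomputable def f_pp_123 : ℕ → ℕ → ℕ → ℕ → Bool := onCell 1073741824 536870912 0 1230186008 33554432 16777216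
    (rowNK 3 2 false true true .npn 1 2 3 (qsf 536870912 536870912 0 1230186008 2) ndN4q1 ndN4q3 pcN2 Cut.none Ext.none)

def k0_pp_123 : ∃ t, chk3 f_pp_123 t 1 1 1 = true :=
  ⟨(b (b (a (a (l 16926496) (l 16859744)) (a (l 17086816) (l 4))) (a (a (a (a (a (a (l 17547888) (l 17524832)) (l 17491168)) (l 17424008)) (l 17288624)) (l 17026256)) (a (l 16855184) (l 16821448)))) (b (a (a (a (a (a (a (l 17918392) (l 17892520)) (l 17852552)) (l 17767608)) (l 17576736)) (b (l 17199120) (l 17220048))) (a (l 17189176) (l 17106656))) (a (b (a (a (a (a (a (l 18019440) (l 17986864)) (l 17938088)) (l 17843800)) (l 17668520)) (l 17404680)) (a (a (a (a (a (l 17960912) (l 17935424)) (l 17899192)) (l 17834032)) (l 17738408)) (l 17670584))) (l 1)))), by decide +kernel⟩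

theorem c_pp_123 : CertN 536870912 536870912 0 1230186008 33554432 16777216 3 false true true .npn 1 2 3
    ndN4q1 ndN4q3 pcN2 Cut.none Ext.none :=
  certNK2 (fam := false) (s1 := true) (s2 := true) (a := 1) (b := 2) (c := 3) (cn := .npn) (n1 := ndN4q1) (n2 := ndN4q3) (pc := pcN2) (cut := Cut.none) (xt := Ext.none) (P1 := 536870912) (W1 := 536870912) (P2 := 0) (W2 := 1230186008) (P3 := 33554432) (W3 := 16777216) (N0 := 3)
    rfl rfl rfl (fun _ => rfl) k0_pp_123

noncomputable def f_pp_133 : ℕ → ℕ → ℕ → ℕ → Bool := onCell 1610612736 536870912 0 1230186008 33554432 16777216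
    (rowNK 3 2 false true true .dn 1 3 3 (qsf 536870912 536870912 0 1230186008 3) ndN4q1 ndN4q3 pcN3 Cut.none Ext.none)

def k0_pp_133 : ∃ t, chk3 f_pp_133 t 1 1 1 = true :=
  ⟨(b (b (l 4) (l 1)) (l 1)), by decide +kernel⟩

theorem c_pp_133 : CertN 536870912 536870912 0 1230186008 33554432 16777216 3 false true true .dn 1 3 3
    ndN4q1 ndN4q3 pcN3 Cut.none Ext.none :=
  certNK2 (fam := false) (s1 := true) (s2 := true) (a := 1) (b := 3) (c := 3) (cn := .dn) (n1 := ndN4q1) (n2 := ndN4q3) (pc := pcN3) (cut := Cut.none) (xt := Ext.none) (P1 := 536870912) (W1 := 536870912) (P2 := 0) (W2 := 1230186008) (P3 := 33554432) (W3 := 16777216) (N0 := 3)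
    rfl rfl rfl (fun _ => rfl) k0_pp_133

noncomputable def f_pp_202 : ℕ → ℕ → ℕ → ℕ → Bool := onCell 1073741824 536870912 1073741824 536870912 33554432 16777216
    (rowNK 3 0 false true true .pp 2 0 2 (qsf 1073741824 536870912 1073741824 536870912 0) ndN4q2 ndN4q2 pcN0 Cut.none Ext.none)

def k0_pp_202 : ∃ t, chk3 f_pp_202 t 1 1 1 = true :=
  ⟨(l 3), by decide +kernel⟩

theorem c_pp_202 : CertN 1073741824 536870912 1073741824 536870912 33554432 16777216 3 false true true .pp 2 0 2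
    ndN4q2 ndN4q2 pcN0 Cut.none Ext.none :=
  certNK0 (fam := false) (s1 := true) (s2 := true) (a := 2) (b := 0) (c := 2) (cn := .pp) (n1 := ndN4q2) (n2 := ndN4q2) (pc := pcN0) (cut := Cut.none) (xt := Ext.none) (P1 := 1073741824) (W1 := 536870912) (P2 := 1073741824) (W2 := 536870912) (P3 := 33554432) (W3 := 16777216) (N0 := 3)
    rfl rfl rfl k0_pp_202

noncomputable def f_pp_203 : ℕ → ℕ → ℕ → ℕ → Bool := onCell 0 536870912 0 1230186008 33554432 16777216
    (rowNK 3 2 false true true .up 2 0 3 (qsf 1073741824 536870912 0 1230186008 0) ndN4q2 ndN4q3 pcN0 Cut.none Ext.none)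

def k0_pp_203 : ∃ t, chk3 f_pp_203 t 1 1 1 = true :=
  ⟨(b (a (l 2) (a (l 2) (b (l 18087312) (l 3)))) (l 3)), by decide +kernel⟩

theorem c_pp_203 : CertN 1073741824 536870912 0 1230186008 33554432 16777216 3 false true true .up 2 0 3
    ndN4q2 ndN4q3 pcN0 Cut.none Ext.none :=
  certNK2 (fam := false) (s1 := true) (s2 := true) (a := 2) (b := 0) (c := 3) (cn := .up) (n1 := ndN4q2) (n2 := ndN4q3) (pc := pcN0) (cut := Cut.none) (xt := Ext.none) (P1 := 1073741824) (W1 := 536870912) (P2 := 0) (W2 := 1230186008) (P3 := 33554432) (W3 := 16777216) (N0 := 3)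
    rfl rfl rfl (fun _ => rfl) k0_pp_203

noncomputable def f_pp_213 : ℕ → ℕ → ℕ → ℕ → Bool := onCell 536870912 536870912 0 1230186008 33554432 16777216
    (rowNK 3 2 false true true .pnn 2 1 3 (qsf 1073741824 536870912 0 1230186008 1) ndN4q2 ndN4q3 pcN1 Cut.none Ext.none)

def k0_pp_213 : ∃ t, chk3 f_pp_213 t 1 1 1 = true :=
  ⟨(b (b (a (a (a (l 17056224) (l 16982512)) (b (l 16910656) (l 17032544))) (a (l 17431952) (a (l 17139344) (a (l 17132584) (a (l 17111728) (a (l 17095536) (l 17083184))))))) (a (a (a (l 299743358919) (l 17591760)) (a (l 17622000) (l 17836336))) (a (b (l 17625216) (l 18129584)) (a (l 17936296) (a (l 17963680) (a (l 17957600) (l 1))))))) (a (b (a (l 3) (b (l 18583704) (l 3))) (l 3)) (b (a (b (l 18638712) (l 19423664)) (b (l 18533808) (l 1))) (l 1)))), by decide +kernel⟩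

theorem c_pp_213 : CertN 1073741824 536870912 0 1230186008 33554432 16777216 3 false true true .pnn 2 1 3
    ndN4q2 ndN4q3 pcN1 Cut.none Ext.none :=
  certNK2 (fam := false) (s1 := true) (s2 := true) (a := 2) (b := 1) (c := 3) (cn := .pnn) (n1 := ndN4q2) (n2 := ndN4q3) (pc := pcN1) (cut := Cut.none) (xt := Ext.none) (P1 := 1073741824) (W1 := 536870912) (P2 := 0) (W2 := 1230186008) (P3 := 33554432) (W3 := 16777216) (N0 := 3)
    rfl rfl rfl (fun _ => rfl) k0_pp_213

noncomputable def f_pp_303 : ℕ → ℕ → ℕ → ℕ → Bool := onCell 0 1230186008 0 1230186008 33554432 16777216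
    (rowNK 3 0 false true true .npn 3 0 3 (qsf 0 1230186008 0 1230186008 0) ndN4q3 ndN4q3 pcN0 Cut.none Ext.none)

def k0_pp_303 : ∃ t, chk3 f_pp_303 t 1 1 1 = true :=
  ⟨(a (b (l 3) (a (l 1) (l 3))) (b (a (l 3) (b (a (l 286322318119) (a (l 17845952) (l 17887512))) (l 3))) (l 3))), by decide +kernel⟩

theorem c_pp_303 : CertN 0 1230186008 0 1230186008 33554432 16777216 3 false true true .npn 3 0 3
    ndN4q3 ndN4q3 pcN0 Cut.none Ext.none :=
  certNK0 (fam := false) (s1 := true) (s2 := true) (a := 3) (b := 0) (c := 3) (cn := .npn) (n1 := ndN4q3) (n2 := ndN4q3) (pc := pcN0) (cut := Cut.none) (xt := Ext.none) (P1 := 0) (W1 := 1230186008) (P2 := 0) (W2 := 1230186008) (P3 := 33554432) (W3 := 16777216) (N0 := 3)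
    rfl rfl rfl k0_pp_303

noncomputable def f_pp_313 : ℕ → ℕ → ℕ → ℕ → Bool := onCell 0 1230186008 0 1230186008 33554432 16777216
    (rowNK 3 0 false true true .dn 3 1 3 (qsf 0 1230186008 0 1230186008 1) ndN4q3 ndN4q3 pcN1 Cut.none Ext.none)

def k0_pp_313 : ∃ t, chk3 f_pp_313 t 1 1 1 = true :=
  ⟨(a (l 1) (b (a (l 1) (a (l 1) (b (a (l 1) (l 4783554339095)) (l 1)))) (l 1))), by decide +kernel⟩

theorem c_pp_313 : CertN 0 1230186008 0 1230186008 33554432 16777216 3 false true true .dn 3 1 3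
    ndN4q3 ndN4q3 pcN1 Cut.none Ext.none :=
  certNK0 (fam := false) (s1 := true) (s2 := true) (a := 3) (b := 1) (c := 3) (cn := .dn) (n1 := ndN4q3) (n2 := ndN4q3) (pc := pcN1) (cut := Cut.none) (xt := Ext.none) (P1 := 0) (W1 := 1230186008) (P2 := 0) (W2 := 1230186008) (P3 := 33554432) (W3 := 16777216) (N0 := 3)
    rfl rfl rfl k0_pp_313

noncomputable def f_pm_001 : ℕ → ℕ → ℕ → ℕ → Bool := onCell 0 536870912 536870912 536870912 33554432 16777216
    (rowNK 3 0 false true false .up 0 0 1 (qsf 0 536870912 536870912 536870912 0) ndN4q0 ndN4q1 pcN0 Cut.none Ext.none)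

def k0_pm_001 : ∃ t, chk3 f_pm_001 t 1 1 1 = true :=
  ⟨(l 4), by decide +kernel⟩

theorem c_pm_001 : CertN 0 536870912 536870912 536870912 33554432 16777216 3 false true false .up 0 0 1
    ndN4q0 ndN4q1 pcN0 Cut.none Ext.none :=
  certNK0 (fam := false) (s1 := true) (s2 := false) (a := 0) (b := 0) (c := 1) (cn := .up) (n1 := ndN4q0) (n2 := ndN4q1) (pc := pcN0) (cut := Cut.none) (xt := Ext.none) (P1 := 0) (W1 := 536870912) (P2 := 536870912) (W2 := 536870912) (P3 := 33554432) (W3 := 16777216) (N0 := 3)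
    rfl rfl rfl k0_pm_001

noncomputable def f_pm_011 : ℕ → ℕ → ℕ → ℕ → Bool := onCell 0 536870912 536870912 536870912 33554432 16777216
    (rowNK 3 0 false true false .pnn 0 1 1 (qsf 0 536870912 536870912 536870912 1) ndN4q0 ndN4q1 pcN1 Cut.none Ext.none)

def k0_pm_011 : ∃ t, chk3 f_pm_011 t 1 1 1 = true :=
  ⟨(l 4), by decide +kernel⟩

theorem c_pm_011 : CertN 0 536870912 536870912 536870912 33554432 16777216 3 false true false .pnn 0 1 1
    ndN4q0 ndN4q1 pcN1 Cut.none Ext.none :=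
  certNK0 (fam := false) (s1 := true) (s2 := false) (a := 0) (b := 1) (c := 1) (cn := .pnn) (n1 := ndN4q0) (n2 := ndN4q1) (pc := pcN1) (cut := Cut.none) (xt := Ext.none) (P1 := 0) (W1 := 536870912) (P2 := 536870912) (W2 := 536870912) (P3 := 33554432) (W3 := 16777216) (N0 := 3)
    rfl rfl rfl k0_pm_011

noncomputable def f_pm_012 : ℕ → ℕ → ℕ → ℕ → Bool := onCell 0 536870912 1073741824 536870912 33554432 16777216
    (rowNK 3 0 false true false .pnp 0 1 2 (qsf 0 536870912 1073741824 536870912 1) ndN4q0 ndN4q2 pcN1 Cut.none Ext.none)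

def k0_pm_012 : ∃ t, chk3 f_pm_012 t 1 1 1 = true :=
  ⟨(l 4), by decide +kernel⟩

theorem c_pm_012 : CertN 0 536870912 1073741824 536870912 33554432 16777216 3 false true false .pnp 0 1 2
    ndN4q0 ndN4q2 pcN1 Cut.none Ext.none :=
  certNK0 (fam := false) (s1 := true) (s2 := false) (a := 0) (b := 1) (c := 2) (cn := .pnp) (n1 := ndN4q0) (n2 := ndN4q2) (pc := pcN1) (cut := Cut.none) (xt := Ext.none) (P1 := 0) (W1 := 536870912) (P2 := 1073741824) (W2 := 536870912) (P3 := 33554432) (W3 := 16777216) (N0 := 3)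
    rfl rfl rfl k0_pm_012

noncomputable def f_pm_022 : ℕ → ℕ → ℕ → ℕ → Bool := onCell 0 536870912 1073741824 536870912 33554432 16777216
    (rowNK 3 0 false true false .pp 0 2 2 (qsf 0 536870912 1073741824 536870912 2) ndN4q0 ndN4q2 pcN2 Cut.none Ext.none)

def k0_pm_022 : ∃ t, chk3 f_pm_022 t 1 1 1 = true :=
  ⟨(l 4), by decide +kernel⟩

theorem c_pm_022 : CertN 0 536870912 1073741824 536870912 33554432 16777216 3 false true false .pp 0 2 2
    ndN4q0 ndN4q2 pcN2 Cut.none Ext.none :=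
  certNK0 (fam := false) (s1 := true) (s2 := false) (a := 0) (b := 2) (c := 2) (cn := .pp) (n1 := ndN4q0) (n2 := ndN4q2) (pc := pcN2) (cut := Cut.none) (xt := Ext.none) (P1 := 0) (W1 := 536870912) (P2 := 1073741824) (W2 := 536870912) (P3 := 33554432) (W3 := 16777216) (N0 := 3)
    rfl rfl rfl k0_pm_022

noncomputable def f_pm_023 : ℕ → ℕ → ℕ → ℕ → Bool := onCell 0 536870912 0 1230186008 33554432 16777216
    (rowNK 3 0 false true false .up 0 2 3 (qsf 0 536870912 0 1230186008 2) ndN4q0 ndN4q3 pcN2 Cut.none Ext.none)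

def k0_pm_023 : ∃ t, chk3 f_pm_023 t 1 1 1 = true :=
  ⟨(l 4), by decide +kernel⟩

theorem c_pm_023 : CertN 0 536870912 0 1230186008 33554432 16777216 3 false true false .up 0 2 3
    ndN4q0 ndN4q3 pcN2 Cut.none Ext.none :=
  certNK0 (fam := false) (s1 := true) (s2 := false) (a := 0) (b := 2) (c := 3) (cn := .up) (n1 := ndN4q0) (n2 := ndN4q3) (pc := pcN2) (cut := Cut.none) (xt := Ext.none) (P1 := 0) (W1 := 536870912) (P2 := 0) (W2 := 1230186008) (P3 := 33554432) (W3 := 16777216) (N0 := 3)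
    rfl rfl rfl k0_pm_023

noncomputable def f_pm_033 : ℕ → ℕ → ℕ → ℕ → Bool := onCell 0 536870912 0 1230186008 33554432 16777216
    (rowNK 3 0 false true false .pnn 0 3 3 (qsf 0 536870912 0 1230186008 3) ndN4q0 ndN4q3 pcN3 Cut.none Ext.none)

def k0_pm_033 : ∃ t, chk3 f_pm_033 t 1 1 1 = true :=
  ⟨(l 4), by decide +kernel⟩

theorem c_pm_033 : CertN 0 536870912 0 1230186008 33554432 16777216 3 false true false .pnn 0 3 3
    ndN4q0 ndN4q3 pcN3 Cut.none Ext.none :=
  certNK0 (fam := false) (s1 := true) (s2 := false) (a := 0) (b := 3) (c := 3) (cn := .pnn) (n1 := ndN4q0) (n2 := ndN4q3) (pc := pcN3) (cut := Cut.none) (xt := Ext.none) (P1 := 0) (W1 := 536870912) (P2 := 0) (W2 := 1230186008) (P3 := 33554432) (W3 := 16777216) (N0 := 3)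
    rfl rfl rfl k0_pm_033

noncomputable def f_pm_101 : ℕ → ℕ → ℕ → ℕ → Bool := onCell 536870912 536870912 536870912 536870912 33554432 16777216
    (rowNK 3 0 false true false .npn 1 0 1 (qsf 536870912 536870912 536870912 536870912 0) ndN4q1 ndN4q1 pcN0 Cut.none Ext.none)

def k0_pm_101 : ∃ t, chk3 f_pm_101 t 1 1 1 = true :=
  ⟨(l 4), by decide +kernel⟩

theorem c_pm_101 : CertN 536870912 536870912 536870912 536870912 33554432 16777216 3 false true false .npn 1 0 1
    ndN4q1 ndN4q1 pcN0 Cut.none Ext.none :=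
  certNK0 (fam := false) (s1 := true) (s2 := false) (a := 1) (b := 0) (c := 1) (cn := .npn) (n1 := ndN4q1) (n2 := ndN4q1) (pc := pcN0) (cut := Cut.none) (xt := Ext.none) (P1 := 536870912) (W1 := 536870912) (P2 := 536870912) (W2 := 536870912) (P3 := 33554432) (W3 := 16777216) (N0 := 3)
    rfl rfl rfl k0_pm_101

noncomputable def f_pm_102 : ℕ → ℕ → ℕ → ℕ → Bool := onCell 536870912 536870912 1073741824 536870912 33554432 16777216
    (rowNK 3 0 false true false .npp 1 0 2 (qsf 536870912 536870912 1073741824 536870912 0) ndN4q1 ndN4q2 pcN0 Cut.none Ext.none)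

def k0_pm_102 : ∃ t, chk3 f_pm_102 t 1 1 1 = true :=
  ⟨(l 4), by decide +kernel⟩

theorem c_pm_102 : CertN 536870912 536870912 1073741824 536870912 33554432 16777216 3 false true false .npp 1 0 2
    ndN4q1 ndN4q2 pcN0 Cut.none Ext.none :=
  certNK0 (fam := false) (s1 := true) (s2 := false) (a := 1) (b := 0) (c := 2) (cn := .npp) (n1 := ndN4q1) (n2 := ndN4q2) (pc := pcN0) (cut := Cut.none) (xt := Ext.none) (P1 := 536870912) (W1 := 536870912) (P2 := 1073741824) (W2 := 536870912) (P3 := 33554432) (W3 := 16777216) (N0 := 3)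
    rfl rfl rfl k0_pm_102

noncomputable def f_pm_112 : ℕ → ℕ → ℕ → ℕ → Bool := onCell 536870912 536870912 1073741824 536870912 33554432 16777216
    (rowNK 3 0 false true false .dn 1 1 2 (qsf 536870912 536870912 1073741824 536870912 1) ndN4q1 ndN4q2 pcN1 Cut.none Ext.none)

def k0_pm_112 : ∃ t, chk3 f_pm_112 t 1 1 1 = true :=
  ⟨(l 4), by decide +kernel⟩

theorem c_pm_112 : CertN 536870912 536870912 1073741824 536870912 33554432 16777216 3 false true false .dn 1 1 2
    ndN4q1 ndN4q2 pcN1 Cut.none Ext.none :=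
  certNK0 (fam := false) (s1 := true) (s2 := false) (a := 1) (b := 1) (c := 2) (cn := .dn) (n1 := ndN4q1) (n2 := ndN4q2) (pc := pcN1) (cut := Cut.none) (xt := Ext.none) (P1 := 536870912) (W1 := 536870912) (P2 := 1073741824) (W2 := 536870912) (P3 := 33554432) (W3 := 16777216) (N0 := 3)
    rfl rfl rfl k0_pm_112

noncomputable def f_pm_113 : ℕ → ℕ → ℕ → ℕ → Bool := onCell 536870912 536870912 0 1230186008 33554432 16777216
    (rowNK 3 0 false true false .nn 1 1 3 (qsf 536870912 536870912 0 1230186008 1) ndN4q1 ndN4q3 pcN1 Cut.none Ext.none)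

def k0_pm_113 : ∃ t, chk3 f_pm_113 t 1 1 1 = true :=
  ⟨(a (l 4) (b (b (b (l 17053408) (l 4)) (l 4)) (l 4))), by decide +kernel⟩

theorem c_pm_113 : CertN 536870912 536870912 0 1230186008 33554432 16777216 3 false true false .nn 1 1 3
    ndN4q1 ndN4q3 pcN1 Cut.none Ext.none :=
  certNK0 (fam := false) (s1 := true) (s2 := false) (a := 1) (b := 1) (c := 3) (cn := .nn) (n1 := ndN4q1) (n2 := ndN4q3) (pc := pcN1) (cut := Cut.none) (xt := Ext.none) (P1 := 536870912) (W1 := 536870912) (P2 := 0) (W2 := 1230186008) (P3 := 33554432) (W3 := 16777216) (N0 := 3)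
    rfl rfl rfl k0_pm_113

noncomputable def f_pm_123 : ℕ → ℕ → ℕ → ℕ → Bool := onCell 536870912 536870912 0 1230186008 33554432 16777216
    (rowNK 3 0 false true false .npn 1 2 3 (qsf 536870912 536870912 0 1230186008 2) ndN4q1 ndN4q3 pcN2 Cut.none Ext.none)

def k0_pm_123 : ∃ t, chk3 f_pm_123 t 1 1 1 = true :=
  ⟨(b (a (l 4) (b (a (l 4) (l 16976200)) (l 4))) (l 4)), by decide +kernel⟩

theorem c_pm_123 : CertN 536870912 536870912 0 1230186008 33554432 16777216 3 false true false .npn 1 2 3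
    ndN4q1 ndN4q3 pcN2 Cut.none Ext.none :=
  certNK0 (fam := false) (s1 := true) (s2 := false) (a := 1) (b := 2) (c := 3) (cn := .npn) (n1 := ndN4q1) (n2 := ndN4q3) (pc := pcN2) (cut := Cut.none) (xt := Ext.none) (P1 := 536870912) (W1 := 536870912) (P2 := 0) (W2 := 1230186008) (P3 := 33554432) (W3 := 16777216) (N0 := 3)
    rfl rfl rfl k0_pm_123

noncomputable def f_pm_133 : ℕ → ℕ → ℕ → ℕ → Bool := onCell 1610612736 536870912 0 1230186008 33554432 16777216
    (rowNK 3 2 false true false .dn 1 3 3 (qsf 536870912 536870912 0 1230186008 3) ndN4q1 ndN4q3 pcN3 Cut.none Ext.none)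

def k0_pm_133 : ∃ t, chk3 f_pm_133 t 1 1 1 = true :=
  ⟨(l 4), by decide +kernel⟩

theorem c_pm_133 : CertN 536870912 536870912 0 1230186008 33554432 16777216 3 false true false .dn 1 3 3
    ndN4q1 ndN4q3 pcN3 Cut.none Ext.none :=
  certNK2 (fam := false) (s1 := true) (s2 := false) (a := 1) (b := 3) (c := 3) (cn := .dn) (n1 := ndN4q1) (n2 := ndN4q3) (pc := pcN3) (cut := Cut.none) (xt := Ext.none) (P1 := 536870912) (W1 := 536870912) (P2 := 0) (W2 := 1230186008) (P3 := 33554432) (W3 := 16777216) (N0 := 3)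
    rfl rfl rfl (fun _ => rfl) k0_pm_133

noncomputable def f_pm_202 : ℕ → ℕ → ℕ → ℕ → Bool := onCell 1073741824 536870912 1073741824 536870912 33554432 16777216
    (rowNK 3 0 false true false .pp 2 0 2 (qsf 1073741824 536870912 1073741824 536870912 0) ndN4q2 ndN4q2 pcN0 Cut.none Ext.none)

def k0_pm_202 : ∃ t, chk3 f_pm_202 t 1 1 1 = true :=
  ⟨(l 4), by decide +kernel⟩

theorem c_pm_202 : CertN 1073741824 536870912 1073741824 536870912 33554432 16777216 3 false true false .pp 2 0 2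
    ndN4q2 ndN4q2 pcN0 Cut.none Ext.none :=
  certNK0 (fam := false) (s1 := true) (s2 := false) (a := 2) (b := 0) (c := 2) (cn := .pp) (n1 := ndN4q2) (n2 := ndN4q2) (pc := pcN0) (cut := Cut.none) (xt := Ext.none) (P1 := 1073741824) (W1 := 536870912) (P2 := 1073741824) (W2 := 536870912) (P3 := 33554432) (W3 := 16777216) (N0 := 3)
    rfl rfl rfl k0_pm_202

noncomputable def f_pm_203 : ℕ → ℕ → ℕ → ℕ → Bool := onCell 1073741824 536870912 0 1230186008 33554432 16777216
    (rowNK 3 0 false true false .up 2 0 3 (qsf 1073741824 536870912 0 1230186008 0) ndN4q2 ndN4q3 pcN0 Cut.none Ext.none)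

def k0_pm_203 : ∃ t, chk3 f_pm_203 t 1 1 1 = true :=
  ⟨(a (b (l 2) (l 4)) (b (a (l 2) (b (b (l 18343624) (a (l 2) (l 18209624))) (b (a (l 1233295036119) (a (l 17467840) (a (l 17303504) (l 17420920)))) (a (l 16967144) (l 16789680))))) (b (a (l 4) (l 4)) (l 4)))), by decide +kernel⟩

theorem c_pm_203 : CertN 1073741824 536870912 0 1230186008 33554432 16777216 3 false true false .up 2 0 3
    ndN4q2 ndN4q3 pcN0 Cut.none Ext.none :=
  certNK0 (fam := false) (s1 := true) (s2 := false) (a := 2) (b := 0) (c := 3) (cn := .up) (n1 := ndN4q2) (n2 := ndN4q3) (pc := pcN0) (cut := Cut.none) (xt := Ext.none) (P1 := 1073741824) (W1 := 536870912) (P2 := 0) (W2 := 1230186008) (P3 := 33554432) (W3 := 16777216) (N0 := 3)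
    rfl rfl rfl k0_pm_203

noncomputable def f_pm_213 : ℕ → ℕ → ℕ → ℕ → Bool := onCell 536870912 536870912 0 1230186008 33554432 16777216
    (rowNK 3 2 false true false .pnn 2 1 3 (qsf 1073741824 536870912 0 1230186008 1) ndN4q2 ndN4q3 pcN1 Cut.none Ext.none)

def k0_pm_213 : ∃ t, chk3 f_pm_213 t 1 1 1 = true :=
  ⟨(b (b (a (a (a (l 17237632) (l 17360536)) (l 17091776)) (a (l 16785072) (a (l 16876136) (a (l 16931704) (a (l 16942480) (a (l 16948240) (l 16951072))))))) (a (a (l 17389672) (l 16992112)) (l 4))) (b (l 4) (l 4))), by decide +kernel⟩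

theorem c_pm_213 : CertN 1073741824 536870912 0 1230186008 33554432 16777216 3 false true false .pnn 2 1 3
    ndN4q2 ndN4q3 pcN1 Cut.none Ext.none :=
  certNK2 (fam := false) (s1 := true) (s2 := false) (a := 2) (b := 1) (c := 3) (cn := .pnn) (n1 := ndN4q2) (n2 := ndN4q3) (pc := pcN1) (cut := Cut.none) (xt := Ext.none) (P1 := 1073741824) (W1 := 536870912) (P2 := 0) (W2 := 1230186008) (P3 := 33554432) (W3 := 16777216) (N0 := 3)
    rfl rfl rfl (fun _ => rfl) k0_pm_213

noncomputable def f_pm_303 : ℕ → ℕ → ℕ → ℕ → Bool := onCell 0 1230186008 0 1230186008 33554432 16777216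
    (rowNK 3 0 false true false .npn 3 0 3 (qsf 0 1230186008 0 1230186008 0) ndN4q3 ndN4q3 pcN0 Cut.none Ext.none)

def k0_pm_303 : ∃ t, chk3 f_pm_303 t 1 1 1 = true :=
  ⟨(a (b (a (l 3) (b (l 3) (b (l 288470152391) (a (b (l 3) (l 1)) (b (l 18239128) (l 18101520)))))) (a (l 1) (b (a (l 1) (b (b (l 1374424210263) (l 1)) (l 1))) (l 1)))) (b (a (b (a (l 316924080951) (l 227803821799)) (a (b (b (l 18067696) (l 18254864)) (b (l 18215640) (l 17468304))) (b (b (l 18263848) (l 18267432)) (b (l 17701968) (a (l 17005312) (l 16911936)))))) (b (a (l 18233304) (b (l 18235720) (b (l 18529672) (a (l 18587112) (l 18483640))))) (a (b (b (l 18424080) (l 18054560)) (b (a (l 17278560) (l 16944088)) (a (l 17111352) (l 17098632)))) (a (b (b (l 18361920) (l 17449328)) (b (l 16892496) (l 17000000))) (b (b (l 17870160) (l 17001824)) (b (l 16885816) (l 16851744))))))) (a (b (a (a (b (b (l 16875392) (l 17439976)) (l 1)) (b (b (l 17105104) (l 17549464)) (l 17389920))) (b (b (a (l 17323864)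 (l 17391384)) (a (l 17530992) (l 17394664))) (b (l 17295576) (l 17077784)))) (a (l 1) (b (a (l 1) (b (l 16869488) (l 1))) (l 1)))) (b (a (b (b (a (l 17291448) (l 17104584)) (l 17062096)) (a (l 16922032) (l 17139520))) (b (a (l 17189288) (l 16950152)) (a (l 17279376) (l 4)))) (a (b (c (l 17959536) (l 17156312)) (l 4)) (l 4)))))), by decide +kernel⟩

theorem c_pm_303 : CertN 0 1230186008 0 1230186008 33554432 16777216 3 false true false .npn 3 0 3
    ndN4q3 ndN4q3 pcN0 Cut.none Ext.none :=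
  certNK0 (fam := false) (s1 := true) (s2 := false) (a := 3) (b := 0) (c := 3) (cn := .npn) (n1 := ndN4q3) (n2 := ndN4q3) (pc := pcN0) (cut := Cut.none) (xt := Ext.none) (P1 := 0) (W1 := 1230186008) (P2 := 0) (W2 := 1230186008) (P3 := 33554432) (W3 := 16777216) (N0 := 3)
    rfl rfl rfl k0_pm_303

noncomputable def f_pm_313 : ℕ → ℕ → ℕ → ℕ → Bool := onCell 0 1230186008 0 1230186008 33554432 16777216
    (rowNK 3 0 false true false .dn 3 1 3 (qsf 0 1230186008 0 1230186008 1) ndN4q3 ndN4q3 pcN1 Cut.none Ext.none)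

def k0_pm_313 : ∃ t, chk3 f_pm_313 t 1 1 1 = true :=
  ⟨(a (l 1) (b (a (l 1) (a (l 1) (a (l 1) (b (l 17187232) (l 1))))) (l 1))), by decide +kernel⟩

theorem c_pm_313 : CertN 0 1230186008 0 1230186008 33554432 16777216 3 false true false .dn 3 1 3
    ndN4q3 ndN4q3 pcN1 Cut.none Ext.none :=
  certNK0 (fam := false) (s1 := true) (s2 := false) (a := 3) (b := 1) (c := 3) (cn := .dn) (n1 := ndN4q3) (n2 := ndN4q3) (pc := pcN1) (cut := Cut.none) (xt := Ext.none) (P1 := 0) (W1 := 1230186008) (P2 := 0) (W2 := 1230186008) (P3 := 33554432) (W3 := 16777216) (N0 := 3)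
    rfl rfl rfl k0_pm_313

noncomputable def f_mm_001 : ℕ → ℕ → ℕ → ℕ → Bool := onCell 0 536870912 536870912 536870912 33554432 16777216
    (rowNK 3 0 false false false .up 0 0 1 (qsf 0 536870912 536870912 536870912 0) ndN4q0 ndN4q1 pcN0 Cut.none Ext.none)

def k0_mm_001 : ∃ t, chk3 f_mm_001 t 1 1 1 = true :=
  ⟨(l 3), by decide +kernel⟩

theorem c_mm_001 : CertN 0 536870912 536870912 536870912 33554432 16777216 3 false false false .up 0 0 1
    ndN4q0 ndN4q1 pcN0 Cut.none Ext.none :=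
  certNK0 (fam := false) (s1 := false) (s2 := false) (a := 0) (b := 0) (c := 1) (cn := .up) (n1 := ndN4q0) (n2 := ndN4q1) (pc := pcN0) (cut := Cut.none) (xt := Ext.none) (P1 := 0) (W1 := 536870912) (P2 := 536870912) (W2 := 536870912) (P3 := 33554432) (W3 := 16777216) (N0 := 3)
    rfl rfl rfl k0_mm_001

noncomputable def f_mm_011 : ℕ → ℕ → ℕ → ℕ → Bool := onCell 0 536870912 536870912 536870912 33554432 16777216
    (rowNK 3 0 false false false .pnn 0 1 1 (qsf 0 536870912 536870912 536870912 1) ndN4q0 ndN4q1 pcN1 Cut.none Ext.none)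

def k0_mm_011 : ∃ t, chk3 f_mm_011 t 1 1 1 = true :=
  ⟨(l 3), by decide +kernel⟩

theorem c_mm_011 : CertN 0 536870912 536870912 536870912 33554432 16777216 3 false false false .pnn 0 1 1
    ndN4q0 ndN4q1 pcN1 Cut.none Ext.none :=
  certNK0 (fam := false) (s1 := false) (s2 := false) (a := 0) (b := 1) (c := 1) (cn := .pnn) (n1 := ndN4q0) (n2 := ndN4q1) (pc := pcN1) (cut := Cut.none) (xt := Ext.none) (P1 := 0) (W1 := 536870912) (P2 := 536870912) (W2 := 536870912) (P3 := 33554432) (W3 := 16777216) (N0 := 3)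
    rfl rfl rfl k0_mm_011

noncomputable def f_mm_012 : ℕ → ℕ → ℕ → ℕ → Bool := onCell 0 536870912 1073741824 536870912 33554432 16777216
    (rowNK 3 0 false false false .pnp 0 1 2 (qsf 0 536870912 1073741824 536870912 1) ndN4q0 ndN4q2 pcN1 Cut.none Ext.none)

def k0_mm_012 : ∃ t, chk3 f_mm_012 t 1 1 1 = true :=
  ⟨(l 5), by decide +kernel⟩

theorem c_mm_012 : CertN 0 536870912 1073741824 536870912 33554432 16777216 3 false false false .pnp 0 1 2
    ndN4q0 ndN4q2 pcN1 Cut.none Ext.none :=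
  certNK0 (fam := false) (s1 := false) (s2 := false) (a := 0) (b := 1) (c := 2) (cn := .pnp) (n1 := ndN4q0) (n2 := ndN4q2) (pc := pcN1) (cut := Cut.none) (xt := Ext.none) (P1 := 0) (W1 := 536870912) (P2 := 1073741824) (W2 := 536870912) (P3 := 33554432) (W3 := 16777216) (N0 := 3)
    rfl rfl rfl k0_mm_012

noncomputable def f_mm_022 : ℕ → ℕ → ℕ → ℕ → Bool := onCell 0 536870912 1073741824 536870912 33554432 16777216
    (rowNK 3 0 false false false .pp 0 2 2 (qsf 0 536870912 1073741824 536870912 2) ndN4q0 ndN4q2 pcN2 Cut.none Ext.none)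

def k0_mm_022 : ∃ t, chk3 f_mm_022 t 1 1 1 = true :=
  ⟨(l 5), by decide +kernel⟩

theorem c_mm_022 : CertN 0 536870912 1073741824 536870912 33554432 16777216 3 false false false .pp 0 2 2
    ndN4q0 ndN4q2 pcN2 Cut.none Ext.none :=
  certNK0 (fam := false) (s1 := false) (s2 := false) (a := 0) (b := 2) (c := 2) (cn := .pp) (n1 := ndN4q0) (n2 := ndN4q2) (pc := pcN2) (cut := Cut.none) (xt := Ext.none) (P1 := 0) (W1 := 536870912) (P2 := 1073741824) (W2 := 536870912) (P3 := 33554432) (W3 := 16777216) (N0 := 3)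
    rfl rfl rfl k0_mm_022

noncomputable def f_mm_023 : ℕ → ℕ → ℕ → ℕ → Bool := onCell 0 536870912 0 1230186008 33554432 16777216
    (rowNK 3 0 false false false .up 0 2 3 (qsf 0 536870912 0 1230186008 2) ndN4q0 ndN4q3 pcN2 Cut.none Ext.none)

def k0_mm_023 : ∃ t, chk3 f_mm_023 t 1 1 1 = true :=
  ⟨(l 5), by decide +kernel⟩

theorem c_mm_023 : CertN 0 536870912 0 1230186008 33554432 16777216 3 false false false .up 0 2 3
    ndN4q0 ndN4q3 pcN2 Cut.none Ext.none :=
  certNK0 (fam := false) (s1 := false) (s2 := false) (a := 0) (b := 2) (c := 3) (cn := .up) (n1 := ndN4q0) (n2 := ndN4q3) (pc := pcN2) (cut := Cut.none) (xt := Ext.none) (P1 := 0) (W1 := 536870912) (P2 := 0) (W2 := 1230186008) (P3 := 33554432) (W3 := 16777216) (N0 := 3)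
    rfl rfl rfl k0_mm_023

noncomputable def f_mm_033 : ℕ → ℕ → ℕ → ℕ → Bool := onCell 0 536870912 0 1230186008 33554432 16777216
    (rowNK 3 0 false false false .pnn 0 3 3 (qsf 0 536870912 0 1230186008 3) ndN4q0 ndN4q3 pcN3 Cut.none Ext.none)

def k0_mm_033 : ∃ t, chk3 f_mm_033 t 1 1 1 = true :=
  ⟨(l 5), by decide +kernel⟩

theorem c_mm_033 : CertN 0 536870912 0 1230186008 33554432 16777216 3 false false false .pnn 0 3 3
    ndN4q0 ndN4q3 pcN3 Cut.none Ext.none :=
  certNK0 (fam := false) (s1 := false) (s2 := false) (a := 0) (b := 3) (c := 3) (cn := .pnn) (n1 := ndN4q0) (n2 := ndN4q3) (pc := pcN3) (cut := Cut.none) (xt := Ext.none) (P1 := 0) (W1 := 536870912) (P2 := 0) (W2 := 1230186008) (P3 := 33554432) (W3 := 16777216) (N0 := 3)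
    rfl rfl rfl k0_mm_033

noncomputable def f_mm_101 : ℕ → ℕ → ℕ → ℕ → Bool := onCell 536870912 536870912 536870912 536870912 33554432 16777216
    (rowNK 3 0 false false false .npn 1 0 1 (qsf 536870912 536870912 536870912 536870912 0) ndN4q1 ndN4q1 pcN0 Cut.none Ext.none)

def k0_mm_101 : ∃ t, chk3 f_mm_101 t 1 1 1 = true :=
  ⟨(l 3), by decide +kernel⟩

theorem c_mm_101 : CertN 536870912 536870912 536870912 536870912 33554432 16777216 3 false false false .npn 1 0 1
    ndN4q1 ndN4q1 pcN0 Cut.none Ext.none :=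
  certNK0 (fam := false) (s1 := false) (s2 := false) (a := 1) (b := 0) (c := 1) (cn := .npn) (n1 := ndN4q1) (n2 := ndN4q1) (pc := pcN0) (cut := Cut.none) (xt := Ext.none) (P1 := 536870912) (W1 := 536870912) (P2 := 536870912) (W2 := 536870912) (P3 := 33554432) (W3 := 16777216) (N0 := 3)
    rfl rfl rfl k0_mm_101

noncomputable def f_mm_102 : ℕ → ℕ → ℕ → ℕ → Bool := onCell 536870912 536870912 0 536870912 33554432 16777216
    (rowNK 3 1 false false false .npp 1 0 2 (qsf 536870912 536870912 1073741824 536870912 0) ndN4q1 ndN4q2 pcN0 Cut.none Ext.none)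

def k0_mm_102 : ∃ t, chk3 f_mm_102 t 1 1 1 = true :=
  ⟨(l 3), by decide +kernel⟩

theorem c_mm_102 : CertN 536870912 536870912 1073741824 536870912 33554432 16777216 3 false false false .npp 1 0 2
    ndN4q1 ndN4q2 pcN0 Cut.none Ext.none :=
  certNK1 (fam := false) (s1 := false) (s2 := false) (a := 1) (b := 0) (c := 2) (cn := .npp) (n1 := ndN4q1) (n2 := ndN4q2) (pc := pcN0) (cut := Cut.none) (xt := Ext.none) (P1 := 536870912) (W1 := 536870912) (P2 := 1073741824) (W2 := 536870912) (P3 := 33554432) (W3 := 16777216) (N0 := 3)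
    rfl rfl rfl (fun _ => rfl) k0_mm_102

noncomputable def f_mm_112 : ℕ → ℕ → ℕ → ℕ → Bool := onCell 536870912 536870912 536870912 536870912 33554432 16777216
    (rowNK 3 1 false false false .dn 1 1 2 (qsf 536870912 536870912 1073741824 536870912 1) ndN4q1 ndN4q2 pcN1 Cut.none Ext.none)

def k0_mm_112 : ∃ t, chk3 f_mm_112 t 1 1 1 = true :=
  ⟨(l 5), by decide +kernel⟩

theorem c_mm_112 : CertN 536870912 536870912 1073741824 536870912 33554432 16777216 3 false false false .dn 1 1 2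
    ndN4q1 ndN4q2 pcN1 Cut.none Ext.none :=
  certNK1 (fam := false) (s1 := false) (s2 := false) (a := 1) (b := 1) (c := 2) (cn := .dn) (n1 := ndN4q1) (n2 := ndN4q2) (pc := pcN1) (cut := Cut.none) (xt := Ext.none) (P1 := 536870912) (W1 := 536870912) (P2 := 1073741824) (W2 := 536870912) (P3 := 33554432) (W3 := 16777216) (N0 := 3)
    rfl rfl rfl (fun _ => rfl) k0_mm_112

noncomputable def f_mm_113 : ℕ → ℕ → ℕ → ℕ → Bool := onCell 536870912 536870912 0 1230186008 33554432 16777216
    (rowNK 3 0 false false false .nn 1 1 3 (qsf 536870912 536870912 0 1230186008 1) ndN4q1 ndN4q3 pcN1 Cut.none Ext.none)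

def k0_mm_113 : ∃ t, chk3 f_mm_113 t 1 1 1 = true :=
  ⟨(l 5), by decide +kernel⟩

theorem c_mm_113 : CertN 536870912 536870912 0 1230186008 33554432 16777216 3 false false false .nn 1 1 3
    ndN4q1 ndN4q3 pcN1 Cut.none Ext.none :=
  certNK0 (fam := false) (s1 := false) (s2 := false) (a := 1) (b := 1) (c := 3) (cn := .nn) (n1 := ndN4q1) (n2 := ndN4q3) (pc := pcN1) (cut := Cut.none) (xt := Ext.none) (P1 := 536870912) (W1 := 536870912) (P2 := 0) (W2 := 1230186008) (P3 := 33554432) (W3 := 16777216) (N0 := 3)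
    rfl rfl rfl k0_mm_113

noncomputable def f_mm_123 : ℕ → ℕ → ℕ → ℕ → Bool := onCell 536870912 536870912 0 1230186008 33554432 16777216
    (rowNK 3 0 false false false .npn 1 2 3 (qsf 536870912 536870912 0 1230186008 2) ndN4q1 ndN4q3 pcN2 Cut.none Ext.none)

def k0_mm_123 : ∃ t, chk3 f_mm_123 t 1 1 1 = true :=
  ⟨(l 5), by decide +kernel⟩

theorem c_mm_123 : CertN 536870912 536870912 0 1230186008 33554432 16777216 3 false false false .npn 1 2 3
    ndN4q1 ndN4q3 pcN2 Cut.none Ext.none :=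
  certNK0 (fam := false) (s1 := false) (s2 := false) (a := 1) (b := 2) (c := 3) (cn := .npn) (n1 := ndN4q1) (n2 := ndN4q3) (pc := pcN2) (cut := Cut.none) (xt := Ext.none) (P1 := 536870912) (W1 := 536870912) (P2 := 0) (W2 := 1230186008) (P3 := 33554432) (W3 := 16777216) (N0 := 3)
    rfl rfl rfl k0_mm_123

noncomputable def f_mm_133 : ℕ → ℕ → ℕ → ℕ → Bool := onCell 536870912 536870912 0 1230186008 33554432 16777216
    (rowNK 3 0 false false false .dn 1 3 3 (qsf 536870912 536870912 0 1230186008 3) ndN4q1 ndN4q3 pcN3 Cut.none Ext.none)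

def k0_mm_133 : ∃ t, chk3 f_mm_133 t 1 1 1 = true :=
  ⟨(l 5), by decide +kernel⟩

theorem c_mm_133 : CertN 536870912 536870912 0 1230186008 33554432 16777216 3 false false false .dn 1 3 3
    ndN4q1 ndN4q3 pcN3 Cut.none Ext.none :=
  certNK0 (fam := false) (s1 := false) (s2 := false) (a := 1) (b := 3) (c := 3) (cn := .dn) (n1 := ndN4q1) (n2 := ndN4q3) (pc := pcN3) (cut := Cut.none) (xt := Ext.none) (P1 := 536870912) (W1 := 536870912) (P2 := 0) (W2 := 1230186008) (P3 := 33554432) (W3 := 16777216) (N0 := 3)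
    rfl rfl rfl k0_mm_133

noncomputable def f_mm_202 : ℕ → ℕ → ℕ → ℕ → Bool := onCell 1073741824 536870912 1073741824 536870912 33554432 16777216
    (rowNK 3 0 false false false .pp 2 0 2 (qsf 1073741824 536870912 1073741824 536870912 0) ndN4q2 ndN4q2 pcN0 Cut.none Ext.none)

def k0_mm_202 : ∃ t, chk3 f_mm_202 t 1 1 1 = true :=
  ⟨(l 3), by decide +kernel⟩

theorem c_mm_202 : CertN 1073741824 536870912 1073741824 536870912 33554432 16777216 3 false false false .pp 2 0 2
    ndN4q2 ndN4q2 pcN0 Cut.none Ext.none :=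
  certNK0 (fam := false) (s1 := false) (s2 := false) (a := 2) (b := 0) (c := 2) (cn := .pp) (n1 := ndN4q2) (n2 := ndN4q2) (pc := pcN0) (cut := Cut.none) (xt := Ext.none) (P1 := 1073741824) (W1 := 536870912) (P2 := 1073741824) (W2 := 536870912) (P3 := 33554432) (W3 := 16777216) (N0 := 3)
    rfl rfl rfl k0_mm_202

noncomputable def f_mm_203 : ℕ → ℕ → ℕ → ℕ → Bool := onCell 1073741824 536870912 0 1230186008 33554432 16777216
    (rowNK 3 0 false false false .up 2 0 3 (qsf 1073741824 536870912 0 1230186008 0) ndN4q2 ndN4q3 pcN0 Cut.none Ext.none)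

def k0_mm_203 : ∃ t, chk3 f_mm_203 t 1 1 1 = true :=
  ⟨(b (l 5) (b (l 5) (l 3))), by decide +kernel⟩

theorem c_mm_203 : CertN 1073741824 536870912 0 1230186008 33554432 16777216 3 false false false .up 2 0 3
    ndN4q2 ndN4q3 pcN0 Cut.none Ext.none :=
  certNK0 (fam := false) (s1 := false) (s2 := false) (a := 2) (b := 0) (c := 3) (cn := .up) (n1 := ndN4q2) (n2 := ndN4q3) (pc := pcN0) (cut := Cut.none) (xt := Ext.none) (P1 := 1073741824) (W1 := 536870912) (P2 := 0) (W2 := 1230186008) (P3 := 33554432) (W3 := 16777216) (N0 := 3)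
    rfl rfl rfl k0_mm_203

noncomputable def f_mm_213 : ℕ → ℕ → ℕ → ℕ → Bool := onCell 536870912 536870912 0 1230186008 33554432 16777216
    (rowNK 3 2 false false false .pnn 2 1 3 (qsf 1073741824 536870912 0 1230186008 1) ndN4q2 ndN4q3 pcN1 Cut.none Ext.none)

def k0_mm_213 : ∃ t, chk3 f_mm_213 t 1 1 1 = true :=
  ⟨(b (l 5) (l 5)), by decide +kernel⟩

theorem c_mm_213 : CertN 1073741824 536870912 0 1230186008 33554432 16777216 3 false false false .pnn 2 1 3
    ndN4q2 ndN4q3 pcN1 Cut.none Ext.none :=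
  certNK2 (fam := false) (s1 := false) (s2 := false) (a := 2) (b := 1) (c := 3) (cn := .pnn) (n1 := ndN4q2) (n2 := ndN4q3) (pc := pcN1) (cut := Cut.none) (xt := Ext.none) (P1 := 1073741824) (W1 := 536870912) (P2 := 0) (W2 := 1230186008) (P3 := 33554432) (W3 := 16777216) (N0 := 3)
    rfl rfl rfl (fun _ => rfl) k0_mm_213

noncomputable def f_mm_303 : ℕ → ℕ → ℕ → ℕ → Bool := onCell 0 1230186008 0 1230186008 33554432 16777216
    (rowNK 3 0 false false false .npn 3 0 3 (qsf 0 1230186008 0 1230186008 0) ndN4q3 ndN4q3 pcN0 Cut.none Ext.none)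

def k0_mm_303 : ∃ t, chk3 f_mm_303 t 1 1 1 = true :=
  ⟨(a (b (l 3) (a (l 1) (l 3))) (b (a (l 3) (l 5)) (l 3))), by decide +kernel⟩

theorem c_mm_303 : CertN 0 1230186008 0 1230186008 33554432 16777216 3 false false false .npn 3 0 3
    ndN4q3 ndN4q3 pcN0 Cut.none Ext.none :=
  certNK0 (fam := false) (s1 := false) (s2 := false) (a := 3) (b := 0) (c := 3) (cn := .npn) (n1 := ndN4q3) (n2 := ndN4q3) (pc := pcN0) (cut := Cut.none) (xt := Ext.none) (P1 := 0) (W1 := 1230186008) (P2 := 0) (W2 := 1230186008) (P3 := 33554432) (W3 := 16777216) (N0 := 3)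
    rfl rfl rfl k0_mm_303

noncomputable def f_mm_313 : ℕ → ℕ → ℕ → ℕ → Bool := onCell 0 1230186008 0 1230186008 33554432 16777216
    (rowNK 3 0 false false false .dn 3 1 3 (qsf 0 1230186008 0 1230186008 1) ndN4q3 ndN4q3 pcN1 Cut.none Ext.none)

def k0_mm_313 : ∃ t, chk3 f_mm_313 t 1 1 1 = true :=
  ⟨(a (l 1) (b (a (l 1) (l 5)) (l 1))), by decide +kernel⟩

theorem c_mm_313 : CertN 0 1230186008 0 1230186008 33554432 16777216 3 false false false .dn 3 1 3
    ndN4q3 ndN4q3 pcN1 Cut.none Ext.none :=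
  certNK0 (fam := false) (s1 := false) (s2 := false) (a := 3) (b := 1) (c := 3) (cn := .dn) (n1 := ndN4q3) (n2 := ndN4q3) (pc := pcN1) (cut := Cut.none) (xt := Ext.none) (P1 := 0) (W1 := 1230186008) (P2 := 0) (W2 := 1230186008) (P3 := 33554432) (W3 := 16777216) (N0 := 3)
    rfl rfl rfl k0_mm_313

end Pool.Agent.Strip051.G.I1_32_3_64.Tab.C.NB44

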