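import Pool.Agent.Strip051.G.I1_32_3_64.Gn
import Pool.Agent.Strip051.PB.ProfF
import Pool.Agent.Strip051.PB.Base

/-! # Kernel and level on the two circles (generated) -/

set_option linter.all false

namespace Pool.Agent.Strip051.G.I1_32_3_64.Tab

open Pool.Agent.Strip051.PB Pool.Agent.StripNear Pool.Agent.Strip051.LC

theorem c1gw : c1g.v = c1n := by funext y; simp [c1g, c1n]
theorem c3gw : c3g.v = c3n := by funext y; simp [c3g, c3n]
theorem yagw {y : ℝ} (h0y : 0 ≤ y) (h : h0 * y < 1) : yag.v (c1n y) = y := by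
  have := ya_eq h0y h
  simpa [yag] using this

theorem koddp (x z : ℝ) (hz : 0 < z) : kcg.v (-z) x = -kcg.v z x := by
  simp only [kcg, kcg_3, kcg_6, kcg_9, kcg_12, kcg_13, kcg_18, kcg_31, kcg_39, kcg_44, kcg_53, kcg_61, kcg_62, kcg_67, kcg_76, kcg_81, kcg_86, kcg_99, kcg_108, kcg_111, kcg_112, kcg_116, kcg_126, kcg_131, kcg_134, kcg_147, kcg_156, kcg_159, kcg_171, kcg_176, kcg_180, kcg_186, kcg_187, kcg_188, kcg_208, kcg_227, kcg_228]
  push_cast
  split_ifs <;> first | ring1 | (exfalso; linarith) | (rw [show z = 1/16 by linarith]; ring1) | (rw [show z = 3/20 by linarith]; ring1) | (rw [show z = 21/100 by linarith]; ring1) | (rw [show z = 27/100 by linarith]; ring1) | (rw [show z = 33/100 by linarith]; ring1) | (rw [show z = 299/662 by linarith]; ring1) | (rw [show z = 2773/5677 by linarith]; ring1)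
theorem kodd (x z : ℝ) : kcg.v (-z) x = -kcg.v z x := by
  rcases lt_trichotomy z 0 with h | h | h
  · have := koddp x (-z) (by linarith)
    rw [neg_neg] at this
    linarith
  · rw [h]
    simp only [kcg, kcg_3, kcg_6, kcg_9, kcg_12, kcg_13, kcg_18, kcg_31, kcg_39, kcg_44, kcg_53, kcg_61, kcg_62, kcg_67, kcg_76, kcg_81, kcg_86, kcg_99, kcg_108, kcg_111, kcg_112, kcg_116, kcg_126, kcg_131, kcg_134, kcg_147, kcg_156, kcg_159, kcg_171, kcg_176, kcg_180, kcg_186, kcg_187, kcg_188, kcg_208, kcg_227, kcg_228]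
    push_cast
    split_ifs <;> first | ring1 | (exfalso; linarith) | norm_num
  · exact koddp x z h

theorem gpu0 (x : ℝ) : GP gF0q0 false 0 (fun z => kcg.v z x) (fun p c => txg.v p c x) x :=
  ⟨by norm_num, fun y => congrFun c1gw y,
    prof_u0
    (fun y => by
      show kf0q0.v y x = _
      simp only [kf0q0, kf0q0_9, kf0q0_12, c1gw, c3gw]
      push_cast
      ring)
    (fun y => by
      show l0q0.v y x = _
      simp only [l0q0, c1gw, c3gw]
      push_cast
      ring_nf)⟩

theorem gpu1 (x : ℝ) : GP gF0q1 false 1 (fun z => kcg.v z x) (fun p c => txg.v p c x) x :=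
  ⟨by norm_num, fun y => congrFun c1gw y,
    prof_u1
    (fun y => by
      show kf0q1.v y x = _
      simp only [kf0q1, kf0q1_10, c1gw, c3gw]
      push_cast
      ring)
    (fun y => by
      show l0q1.v y x = _
      simp only [l0q1, c1gw, c3gw]
      push_cast
      ring_nf)⟩

theorem gpu2 (x : ℝ) : GP gF0q2 false 2 (fun z => kcg.v z x) (fun p c => txg.v p c x) x :=
  ⟨by norm_num, fun y => rfl,
    prof_u2
    (fun y h0y h => by
      show kfc02.v (c1n y) x = _
      simp only [kfc02, yagw h0y h]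
      push_cast
      ring)
    (fun y h0y h => by
      show lc02.v (c1n y) x = _
      simp only [lc02, lc02_7, lc02_8, yagw h0y h]
      push_cast
      ring_nf)⟩

theorem gpt1 (x : ℝ) : GP gF4q1 true 1 (fun z => kcg.v z x) (fun p c => txg.v p c x) x :=
  ⟨by norm_num, fun y => congrFun c3gw y,
    prof_t1
    (fun y => by
      show kf4q1.v y x = _
      simp only [kf4q1, c1gw, c3gw]
      push_cast
      ring)
    (fun y => by
      show l4q1.v y x = _
      simp only [l4q1, l4q1_7, l4q1_8, l4q1_9, c1gw, c3gw]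
      push_cast
      ring_nf)⟩

theorem gpt2 (x : ℝ) : GP gF4q2 true 2 (fun z => kcg.v z x) (fun p c => txg.v p c x) x :=
  ⟨by norm_num, fun y => congrFun c3gw y,
    prof_t2
    (fun y => by
      show kf4q2.v y x = _
      simp only [kf4q2, c1gw, c3gw]
      push_cast
      ring)
    (fun y => by
      show l4q2.v y x = _
      simp only [l4q2, l4q2_7, l4q2_8, l4q2_9, l4q2_12, l4q2_14, c1gw, c3gw]
      push_cast
      ring_nf)⟩

end Pool.Agent.Strip051.G.I1_32_3_64.Tab
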