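import Pool.Agent.Strip051.PB.DgE
import Pool.Agent.Strip051.G.I1_32_3_64.Fact

/-! # The corner (1, 1, 2): parameters of the degenerate charts (generated) -/

set_option linter.all false

namespace Pool.Agent.Strip051.G.I1_32_3_64.Tab.DG

open Pool.Agent.Strip051.PB Pool.Agent.Strip051.PB.Dg Pool.Agent.StripNear Pool.Agent.Strip051.LC

noncomputable def pFma : Fn1 := ⟨_, _, fun h1 => (enc_norm (enc_add (enc_scaleT 2251387 5000000 (enc_subr 5 128 h1)) (enc_rat _ 20023 1250000)))⟩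
noncomputable def pFmb : Fn1 := ⟨_, _, fun h1 => (enc_norm (enc_subr 45741107 5750000000 (enc_neg (enc_scaleT 31160551 143750000 (enc_subr 5 128 h1)))))⟩
noncomputable def pFmu : Fn1 := ⟨_, _, fun h1 => (mug3.enc h1)⟩
noncomputable def pFnx : Fn1 := ⟨_, _, fun h1 => (enc_norm (enc_add h1 (enc_pnc _ 3)))⟩
noncomputable def pFc0 : Fn1 := ⟨_, _, fun h1 => (enc_pnc _ 1)⟩
noncomputable def pFkc : Fn1 := ⟨_, _, fun h1 => (enc_norm (enc_subr 8724639 25000000 (enc_scaleT 11513 5000000 (enc_subr 5 128 h1))))⟩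
noncomputable def pFjc : Fn1 := ⟨_, _, fun h1 => (enc_norm (enc_add (enc_scaleT 1036117714553 929608750000 (enc_subr 5 128 h1)) (enc_rat _ 122354153383643 18592175000000)))⟩
noncomputable def pFca : Fn1 := ⟨_, _, fun h1 => (enc_norm (enc_sub (enc_rat _ 1613 50000) (enc_scaleT 357387 50000 (enc_subr 5 128 h1))))⟩
noncomputable def pFcb : Fn1 := ⟨_, _, fun h1 => (enc_norm (enc_subr 121867 500000 (enc_scaleT 3197 6250 (enc_subr 5 128 h1))))⟩
noncomputable def pFcc : Fn1 := ⟨_, _, fun h1 => (enc_norm (enc_subr 51776241 1000000 (enc_neg (enc_scaleT 1914719 20000 (enc_subr 5 128 h1)))))⟩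
noncomputable def pFsv : Fn1 := ⟨_, _, fun h1 => (enc_norm (enc_subr 3530751 536870912 h1))⟩
noncomputable def pFx11 : Fn1 := ⟨_, _, fun h1 => (cv1m.enc h1)⟩
noncomputable def pFx01 : Fn1 := ⟨_, _, fun h1 => (c1g.enc h1)⟩
noncomputable def pFK11 : Fn2 := ⟨_, _, fun h1 h2 => (kf1q1.enc h1 h2)⟩
noncomputable def pFK01 : Fn2 := ⟨_, _, fun h1 h2 => (kf0q1.enc h1 h2)⟩
noncomputable def pFL11 : Fn2 := ⟨_, _, fun h1 h2 => (l1q1.enc h1 h2)⟩
noncomputable def pFL01 : Fn2 := ⟨_, _, fun h1 h2 => (l0q1.enc h1 h2)⟩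
noncomputable def kFa0_2 : Fn1 := ⟨_, _, fun h1 => (enc_subr 5 128 h1)⟩
noncomputable def kFa0 : Fn1 := ⟨_, _, fun h1 => (enc_norm (enc_add (enc_mul (enc_norm (enc_subr 1012778159 113280480000000 (enc_neg (enc_scaleT 1039697 43650000 (kFa0_2.enc h1))))) (enc_norm (kFa0_2.enc h1))) (enc_rat _ 3690037213 7929633600000000)))⟩
noncomputable def kFa0g : Fn1 := ⟨_, _, fun h1 => (enc_norm (enc_subr 162617 1000000 (enc_neg (enc_scaleT 9653 6250 (enc_subr 5 128 h1)))))⟩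
noncomputable def kFd0_2 : Fn1 := ⟨_, _, fun h1 => (enc_subr 5 128 h1)⟩
noncomputable def kFd0 : Fn1 := ⟨_, _, fun h1 => (enc_norm (enc_add (enc_mul (enc_norm (enc_subr 1012778159 113280480000000 (enc_neg (enc_scaleT 1039697 43650000 (kFd0_2.enc h1))))) (enc_norm (kFd0_2.enc h1))) (enc_rat _ 3690037213 7929633600000000)))⟩
noncomputable def kFd0g : Fn1 := ⟨_, _, fun h1 => (enc_norm (enc_subr 162617 1000000 (enc_neg (enc_scaleT 9653 6250 (enc_subr 5 128 h1)))))⟩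
noncomputable def kFe0_2 : Fn1 := ⟨_, _, fun h1 => (enc_subr 5 128 h1)⟩
noncomputable def kFe0 : Fn1 := ⟨_, _, fun h1 => (enc_norm (enc_add (enc_mul (enc_norm (enc_subr 1012778159 113280480000000 (enc_neg (enc_scaleT 1039697 43650000 (kFe0_2.enc h1))))) (enc_norm (kFe0_2.enc h1))) (enc_rat _ 3690037213 7929633600000000)))⟩
noncomputable def kFe0g : Fn1 := ⟨_, _, fun h1 => (enc_norm (enc_subr 162617 1000000 (enc_neg (enc_scaleT 9653 6250 (enc_subr 5 128 h1)))))⟩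
noncomputable def cFxs1 : Fn1 := ⟨_, _, fun h1 => (enc_norm (enc_add (enc_half (dgxi.enc h1)) (enc_half (dgws.enc h1))))⟩
noncomputable def cFsB1 : Fn2 := ⟨_, _, fun h1 h2 => (enc_norm (enc_sub (enc_rat _ 38857 187500) (enc_scaleT 5347 15000 (enc_subr 5 128 h2))))⟩
noncomputable def cFBs1 : Fn2 := ⟨_, _, fun h1 h2 => (cFsB1.enc h1 h2)⟩
noncomputable def cFsX1 : Fn2 := ⟨_, _, fun h1 h2 => (enc_norm (enc_add (enc_scaleT 43807 75000 (enc_subr 5 128 h2)) (enc_rat _ 1118 46875)))⟩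
noncomputable def cFxs2 : Fn1 := ⟨_, _, fun h1 => (dgws.enc h1)⟩
noncomputable def cFsB2_5 : Fn2 := ⟨_, _, fun h1 h2 => (enc_subr 5 128 h2)⟩
noncomputable def cFsB2 : Fn2 := ⟨_, _, fun h1 h2 => (enc_norm (enc_case (enc_subr 1 250 h1) (enc_subr 9057 50000 (enc_scaleT 8013 20000 (cFsB2_5.enc h1 h2))) (enc_add (enc_subr 2851 6250 (enc_neg (enc_scaleT 19 1250 (cFsB2_5.enc h1 h2)))) (enc_mul (enc_norm (enc_add (enc_scaleT 8317 5000000 (cFsB2_5.enc h1 h2)) (enc_rat _ 13751 12500000))) (enc_inv h1)))))⟩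
noncomputable def cFBs2 : Fn2 := ⟨_, _, fun h1 h2 => (cFsB2.enc h1 h2)⟩
noncomputable def cFsX2_5 : Fn2 := ⟨_, _, fun h1 h2 => (enc_subr 5 128 h2)⟩
noncomputable def cFsX2 : Fn2 := ⟨_, _, fun h1 h2 => (enc_norm (enc_case (enc_subr 1 250 h1) (enc_add (enc_scaleT 21749 40000 (cFsX2_5.enc h1 h2)) (enc_rat _ 8321 400000)) (enc_add (enc_add (enc_scaleT 5013 17500 (cFsX2_5.enc h1 h2)) (enc_rat _ 227 14000)) (enc_mul (enc_norm (enc_add (enc_scaleT 14407 14000000 (cFsX2_5.enc h1 h2)) (enc_rat _ 12847 700000000))) (enc_inv h1)))))⟩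
noncomputable def nFsc2 : Fn1 := ⟨_, _, fun h1 => h1⟩
noncomputable def nFBv2 : Fn1 := ⟨_, _, fun h1 => (enc_norm (enc_subr 173984051 100000000 (enc_neg (enc_scaleT 22364151 625000 (enc_subr 5 128 h1)))))⟩
noncomputable def nFBm2 : Fn1 := ⟨_, _, fun h1 => (enc_norm (enc_subr 1 10000000 (enc_neg (enc_scaleT 1 500000 (enc_subr 5 128 h1)))))⟩
noncomputable def nFXv2 : Fn1 := ⟨_, _, fun h1 => (enc_norm (enc_subr 2364501 50000000 (enc_neg (enc_scaleT 51532449 10000000 (enc_subr 5 128 h1)))))⟩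
noncomputable def nFXm2 : Fn1 := ⟨_, _, fun h1 => (enc_norm (enc_add (enc_scaleT 7 500000 (enc_subr 5 128 h1)) (enc_rat _ 1 2500000)))⟩
noncomputable def nFsc3 : Fn1 := ⟨_, _, fun h1 => (enc_norm (enc_add (enc_half h1) (enc_rat _ 1 2)))⟩
noncomputable def nFBv3 : Fn1 := ⟨_, _, fun h1 => (enc_rat _ 1 2)⟩
noncomputable def nFBm3 : Fn1 := ⟨_, _, fun h1 => (enc_norm (enc_sub (enc_rat _ 33 5000000) (enc_scaleT 13 500000 (enc_subr 5 128 h1))))⟩
noncomputable def nFXv3 : Fn1 := ⟨_, _, fun h1 => (enc_norm (enc_subr 311793 5750000000 (enc_neg (enc_scaleT 9625097 1150000000 (enc_subr 5 128 h1)))))⟩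
noncomputable def nFXm3 : Fn1 := ⟨_, _, fun h1 => (enc_norm (enc_subr 17853691 1150000000 (enc_neg (enc_scaleT 161891 57500000 (enc_subr 5 128 h1)))))⟩
noncomputable def l12F : List Knk := []
noncomputable def laF : List Knk := [⟨1, 100, kFa0, kFa0g⟩]
noncomputable def lbF : List Knk := []
noncomputable def l1F : List Knk := [⟨1, 100, kFe0, kFe0g⟩]
noncomputable def l2F : List Knk := [⟨1, 100, kFd0, kFd0g⟩]
noncomputable def cvF1 : CvP := ⟨cFxs1, cFBs1, cFsX1⟩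
noncomputable def cvF2 : CvP := ⟨cFxs2, cFBs2, cFsX2⟩
noncomputable def ndFP2 : NdP := ⟨nFsc2, nFBv2, nFBm2, nFXv2, nFXm2⟩
noncomputable def ndFP3 : NdP := ⟨nFsc3, nFBv3, nFBm3, nFXv3, nFXm3⟩
noncomputable def pF : Pm := ⟨pFma, pFmb, pFmu, pFnx, pFc0, pFkc, pFjc, pFkc, pFjc, pFkc, pFjc, pFca, pFcb, pFcc, pFcc, pFcc, pFsv, l12F, l12F, l12F, laF, lbF, l1F, l2F, cvF1, pFx11, pFx01, pFK11, pFK01, pFL11, pFL01⟩
noncomputable def pNc0 : Fn1 := ⟨_, _, fun h1 => (enc_norm (enc_add (enc_pnc _ 1) (enc_mul (mug3.enc h1) (gug.enc h1))))⟩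
noncomputable def pNk12_3 : Fn1 := ⟨_, _, fun h1 => (enc_subr 5 128 h1)⟩
noncomputable def pNk12 : Fn1 := ⟨_, _, fun h1 => (enc_norm (enc_add (enc_mul (pNc0.enc h1) (enc_norm (enc_subr 8724639 25000000 (enc_scaleT 11513 5000000 (pNk12_3.enc h1))))) (enc_mul (pFmu.enc h1) (enc_norm (enc_subr 11867973 50000000 (enc_neg (enc_scaleT 34190583 10000000 (pNk12_3.enc h1))))))))⟩
noncomputable def pNj12_3 : Fn1 := ⟨_, _, fun h1 => (enc_subr 5 128 h1)⟩
noncomputable def pNj12 : Fn1 := ⟨_, _, fun h1 => (enc_norm (enc_add (enc_mul (pNc0.enc h1) (enc_norm (enc_add (enc_scaleT 1036117714553 929608750000 (pNj12_3.enc h1)) (enc_rat _ 122354153383643 18592175000000)))) (enc_mul (pFmu.enc h1) (enc_norm (enc_subr 36109783 225000000 (enc_neg (enc_scaleT 27589843 157500000 (pNj12_3.enc h1))))))))⟩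
noncomputable def pNk23_3 : Fn1 := ⟨_, _, fun h1 => (enc_subr 5 128 h1)⟩
noncomputable def pNk23 : Fn1 := ⟨_, _, fun h1 => (enc_norm (enc_add (enc_mul (pNc0.enc h1) (enc_norm (enc_subr 8724639 25000000 (enc_scaleT 11513 5000000 (pNk23_3.enc h1))))) (enc_mul (pFmu.enc h1) (enc_norm (enc_sub (enc_rat _ 15336417 50000000) (enc_scaleT 7467267 5000000 (pNk23_3.enc h1)))))))⟩
noncomputable def pNj23_3 : Fn1 := ⟨_, _, fun h1 => (enc_subr 5 128 h1)⟩
noncomputable def pNj23 : Fn1 := ⟨_, _, fun h1 => (enc_norm (enc_add (enc_mul (pNc0.enc h1) (enc_norm (enc_add (enc_scaleT 1036117714553 929608750000 (pNj23_3.enc h1)) (enc_rat _ 122354153383643 18592175000000)))) (enc_mul (pFmu.enc h1) (enc_norm (enc_subr 1623407 500000 (enc_neg (enc_scaleT 222659 1000000 (pNj23_3.enc h1))))))))⟩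
noncomputable def pNk13_3 : Fn1 := ⟨_, _, fun h1 => (enc_subr 5 128 h1)⟩
noncomputable def pNk13 : Fn1 := ⟨_, _, fun h1 => (enc_norm (enc_add (enc_mul (pNc0.enc h1) (enc_norm (enc_subr 8724639 25000000 (enc_scaleT 11513 5000000 (pNk13_3.enc h1))))) (enc_mul (pFmu.enc h1) (enc_norm (enc_add (enc_scaleT 11746899 10000000 (pNk13_3.enc h1)) (enc_rat _ 21875317 100000000))))))⟩
noncomputable def pNj13_3 : Fn1 := ⟨_, _, fun h1 => (enc_subr 5 128 h1)⟩
noncomputable def pNj13 : Fn1 := ⟨_, _, fun h1 => (enc_norm (enc_add (enc_mul (pNc0.enc h1) (enc_norm (enc_add (enc_scaleT 1036117714553 929608750000 (pNj13_3.enc h1)) (enc_rat _ 122354153383643 18592175000000)))) (enc_mul (pFmu.enc h1) (enc_norm (enc_add (enc_scaleT 1009 500000 (pNj13_3.enc h1)) (enc_rat _ 1631 10000000))))))⟩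
noncomputable def pNc12 : Fn1 := ⟨_, _, fun h1 => (enc_norm (enc_mul (pNc0.enc h1) (enc_norm (enc_subr 51776241 1000000 (enc_neg (enc_scaleT 1914719 20000 (enc_subr 5 128 h1)))))))⟩
noncomputable def pNc23 : Fn1 := ⟨_, _, fun h1 => (enc_norm (enc_mul (pNc0.enc h1) (enc_norm (enc_subr 51776241 1000000 (enc_neg (enc_scaleT 1914719 20000 (enc_subr 5 128 h1)))))))⟩
noncomputable def pNc13 : Fn1 := ⟨_, _, fun h1 => (enc_norm (enc_mul (pNc0.enc h1) (enc_norm (enc_subr 51776241 1000000 (enc_neg (enc_scaleT 1914719 20000 (enc_subr 5 128 h1)))))))⟩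
noncomputable def pNK11 : Fn2 := ⟨_, _, fun h1 h2 => (kn1q1.enc h1 h2)⟩
noncomputable def pNK01 : Fn2 := ⟨_, _, fun h1 h2 => (kn0q1.enc h1 h2)⟩
noncomputable def cNsD1 : Fn2 := ⟨_, _, fun h1 h2 => (enc_norm (enc_add (enc_scaleT 343 37500 (enc_subr 5 128 h2)) (enc_rat _ 1 15000)))⟩
noncomputable def cNBs1 : Fn2 := ⟨_, _, fun h1 h2 => (enc_norm (enc_add (enc_mul (pNc0.enc h2) (cFsB1.enc h1 h2)) (enc_mul (pFmu.enc h2) (cNsD1.enc h1 h2))))⟩
noncomputable def cNsD2_5 : Fn2 := ⟨_, _, fun h1 h2 => (enc_subr 5 128 h2)⟩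
noncomputable def cNsD2 : Fn2 := ⟨_, _, fun h1 h2 => (enc_norm (enc_case (enc_subr 1 250 h1) (enc_add (enc_scaleT 41 10000 (cNsD2_5.enc h1 h2)) (enc_rat _ 10589 50000)) (enc_add (enc_sub (enc_rat _ 18691 87500) (enc_scaleT 3 3500 (cNsD2_5.enc h1 h2))) (enc_mul (enc_norm (enc_subr 641 87500000 (enc_scaleT 347 17500000 (cNsD2_5.enc h1 h2)))) (enc_inv h1)))))⟩
noncomputable def cNBs2 : Fn2 := ⟨_, _, fun h1 h2 => (enc_norm (enc_add (enc_mul (pNc0.enc h2) (cFsB2.enc h1 h2)) (enc_mul (pFmu.enc h2) (cNsD2.enc h1 h2))))⟩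
noncomputable def nNBv2_3 : Fn1 := ⟨_, _, fun h1 => (enc_subr 5 128 h1)⟩
noncomputable def nNBv2 : Fn1 := ⟨_, _, fun h1 => (enc_norm (enc_add (enc_mul (pNc0.enc h1) (enc_norm (enc_subr 173984051 100000000 (enc_neg (enc_scaleT 22364151 625000 (nNBv2_3.enc h1)))))) (enc_mul (pFmu.enc h1) (enc_norm (enc_subr 653409 20000000 (enc_scaleT 16119951 2000000 (nNBv2_3.enc h1)))))))⟩
noncomputable def nNBm2 : Fn1 := ⟨_, _, fun h1 => (enc_norm (enc_add (enc_mul (pNc0.enc h1) (enc_norm (enc_subr 1 10000000 (enc_neg (enc_scaleT 1 500000 (enc_subr 5 128 h1)))))) (enc_scaleT 1 10000000 (pFmu.enc h1))))⟩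
noncomputable def nNBv3 : Fn1 := ⟨_, _, fun h1 => (enc_half (pNc0.enc h1))⟩
noncomputable def nNBm3 : Fn1 := ⟨_, _, fun h1 => (enc_norm (enc_mul (pNc0.enc h1) (enc_norm (enc_sub (enc_rat _ 33 5000000) (enc_scaleT 13 500000 (enc_subr 5 128 h1))))))⟩
noncomputable def l12N : List Knk := []
noncomputable def l23N : List Knk := []
noncomputable def l13N : List Knk := []
noncomputable def cvN1 : CvP := ⟨cFxs1, cNBs1, cFsX1⟩
noncomputable def cvN2 : CvP := ⟨cFxs2, cNBs2, cFsX2⟩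
noncomputable def ndNP2 : NdP := ⟨nFsc2, nNBv2, nNBm2, nFXv2, nFXm2⟩
noncomputable def ndNP3 : NdP := ⟨nFsc3, nNBv3, nNBm3, nFXv3, nFXm3⟩
noncomputable def pN : Pm := ⟨pFma, pFmb, pFmu, pFnx, pNc0, pNk12, pNj12, pNk23, pNj23, pNk13, pNj13, pFca, pFcb, pNc12, pNc23, pNc13, pFsv, l12N, l23N, l13N, laF, lbF, l1F, l2F, cvN1, pFx11, pFx01, pNK11, pNK01, pFL11, pFL01⟩

end Pool.Agent.Strip051.G.I1_32_3_64.Tab.DG
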