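import Pool.Agent.Strip051.G.I1_32_3_64.Rows
import Pool.Agent.Strip051.PB.CGood
import Pool.Agent.Strip051.PB.FinS
import Pool.Agent.Strip051.G.I1_32_3_64.Fl
import Pool.Agent.Strip051.G.I1_32_3_64.Cost

/-! # Rows from certificates (generated) -/

set_option linter.all false
set_option maxRecDepth 100000

namespace Pool.Agent.Strip051.G.I1_32_3_64.Tab

open Pool.Agent.Strip051.PB Pool.Agent.StripNear Pool.Agent.Strip051.LC

theorem done {x : ℝ} (hx : ((33554432 : ℕ) : ℝ) / S ≤ x) (hx' : x ≤ (((33554432 : ℕ) : ℝ) + (16777216 : ℕ)) / S) : Good (h0 * x) :=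
  good hx hx' (ken_h0 x) (rowsS hx hx').certS
    (flRow ⟨hx, hx'⟩ (rowsS hx hx').certS (kE_eq (hx1 hx) (hx2 hx')))

theorem doneI {x : ℝ} (h1 : 1 / 32 ≤ x) (h2 : x ≤ 3 / 64) : Good (h0 * x) := by
  refine done ?_ ?_
  · rw [S_num]
    norm_num
    linarith
  · rw [S_num]
    norm_num
    linarith

end Pool.Agent.Strip051.G.I1_32_3_64.Tab

namespace Pool.Agent.Strip051.G.I1_32_3_64

open Pool.Agent.Strip051.PB Pool.Agent.StripNear Pool.Agent.Strip051.LC

theorem good_on {x : ℝ} (hx : ((33554432 : ℕ) : ℝ) / S ≤ x) (hx' : x ≤ (((33554432 : ℕ) : ℝ) + (16777216 : ℕ)) / S) : Good (h0 * x) := Tab.done hx hx'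

end Pool.Agent.Strip051.G.I1_32_3_64
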