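import Pool.Agent.Strip051.PB.FlAsm
import Pool.Agent.Strip051.PB.PairU
import Pool.Agent.Strip051.PB.PairS
import Pool.Agent.Strip051.G.I1_32_3_64.Tab

/-! # Slopes (generated) -/

set_option linter.all false

namespace Pool.Agent.Strip051.G.I1_32_3_64.Tab

open Pool.Agent.Strip051.PB

attribute [local irreducible] padd psub pneg pmul psq pinv psqrt psqrtg pabs pps pmax pmin pphi
  plam pcase phf pnat prat pscale pnorm pdc pnc pone ppos pnn pscaleT pwT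
  pwB0 pwB3 pmA pwL pwS pwR

noncomputable def c1g_sf : Sl1 c1g := ⟨_, fun h1 => (pr_sqrtg (pr_csub (enc_pnc _ 1) (pr_scaleT 3 4 (pr_sq h1))))⟩
noncomputable def kcg_6_sf : Sl2 kcg_6 := ⟨_, fun h1 h2 => (pr_addc h1 (enc_rat _ 27 100))⟩
noncomputable def kcg_9_sf : Sl2 kcg_9 := ⟨_, fun h1 h2 => (pr_addc h1 (enc_rat _ 299 662))⟩
noncomputable def kcg_12_sf : Sl2 kcg_12 := ⟨_, fun h1 h2 => (pr_addc h1 (enc_rat _ 2773 5677))⟩
noncomputable def kcg_13_sf : Sl2 kcg_13 := ⟨_, fun h1 h2 => (pr_scaleT 39192355993 6550000000 h1)⟩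
noncomputable def kcg_18_sf : Sl2 kcg_18 := ⟨_, fun h1 h2 => (pr_scaleT 6545581 655000000 h1)⟩
noncomputable def kcg_39_sf : Sl2 kcg_39 := ⟨_, fun h1 h2 => (pr_scaleT 13208228421829 3457575000000 h1)⟩
noncomputable def kcg_44_sf : Sl2 kcg_44 := ⟨_, fun h1 h2 => (pr_scaleT 38583293371 46101000000 h1)⟩
noncomputable def kcg_61_sf : Sl2 kcg_61 := ⟨_, fun h1 h2 => (pr_addc h1 (enc_rat _ 33 100))⟩
noncomputable def kcg_62_sf : Sl2 kcg_62 := ⟨_, fun h1 h2 => (pr_scaleT 19133683059 4027000000 h1)⟩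
noncomputable def kcg_67_sf : Sl2 kcg_67 := ⟨_, fun h1 h2 => (pr_scaleT 5191073 201350000 h1)⟩
noncomputable def kcg_81_sf : Sl2 kcg_81 := ⟨_, fun h1 h2 => (pr_scaleT 74371 15625 h1)⟩
noncomputable def kcg_86_sf : Sl2 kcg_86 := ⟨_, fun h1 h2 => (pr_scaleT 144727 600000 h1)⟩
noncomputable def kcg_108_sf : Sl2 kcg_108 := ⟨_, fun h1 h2 => (pr_addc h1 (enc_rat _ 3 20))⟩
noncomputable def kcg_111_sf : Sl2 kcg_111 := ⟨_, fun h1 h2 => (pr_addc h1 (enc_rat _ 21 100))⟩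
noncomputable def kcg_112_sf : Sl2 kcg_112 := ⟨_, fun h1 h2 => (pr_scaleT 2402269 3000000 h1)⟩
noncomputable def kcg_116_sf : Sl2 kcg_116 := ⟨_, fun h1 h2 => (pr_scaleT 6077 600000 h1)⟩
noncomputable def kcg_131_sf : Sl2 kcg_131 := ⟨_, fun h1 h2 => (pr_scaleT 5740131 1000000 h1)⟩
noncomputable def kcg_134_sf : Sl2 kcg_134 := ⟨_, fun h1 h2 => (pr_scaleT 19651 150000 h1)⟩
noncomputable def kcg_156_sf : Sl2 kcg_156 := ⟨_, fun h1 h2 => (pr_scaleT 33242567 8750000 h1)⟩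
noncomputable def kcg_159_sf : Sl2 kcg_159 := ⟨_, fun h1 h2 => (pr_scaleT 4189 109375 h1)⟩
noncomputable def kcg_176_sf : Sl2 kcg_176 := ⟨_, fun h1 h2 => (pr_scaleT 60451 6250000 h1)⟩
noncomputable def kcg_180_sf : Sl2 kcg_180 := ⟨_, fun h1 h2 => (pr_cmul (enc_norm (kcg_3.enc h1.l h2)) (pr_nd (pr_scaleT 1047 62500 h1)))⟩
noncomputable def kcg_186_sf : Sl2 kcg_186 := ⟨_, fun h1 h2 => (pr_csub (enc_rat _ 27 100) h1)⟩
noncomputable def kcg_187_sf : Sl2 kcg_187 := ⟨_, fun h1 h2 => (pr_csub (enc_rat _ 299 662) h1)⟩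
noncomputable def kcg_188_sf : Sl2 kcg_188 := ⟨_, fun h1 h2 => (pr_csub (enc_rat _ 2773 5677) h1)⟩
noncomputable def kcg_208_sf : Sl2 kcg_208 := ⟨_, fun h1 h2 => (pr_csub (enc_rat _ 33 100) h1)⟩
noncomputable def kcg_227_sf : Sl2 kcg_227 := ⟨_, fun h1 h2 => (pr_csub (enc_rat _ 3 20) h1)⟩
noncomputable def kcg_228_sf : Sl2 kcg_228 := ⟨_, fun h1 h2 => (pr_csub (enc_rat _ 21 100) h1)⟩
noncomputable def kcg_sf : Sl2 kcg := ⟨_, fun h1 h2 => (pr_norm (pr_case h1 (pr_case (kcg_6_sf.snd h1 h2) (pr_case (kcg_9_sf.snd h1 h2) (pr_case (kcg_12_sf.snd h1 h2) (pr_add (pr_add (pr_subr 34620645157 13100000000 (pr_neg (kcg_13_sf.snd h1 h2))) (pr_cmul (enc_norm (kcg_3.enc h1.l h2)) (pr_norm (pr_subr 9561987 1310000000 (pr_neg (kcg_18_sf.snd h1 h2)))))) (pr_cmul (enc_norm (kcg_31.enc h1.l h2)) (pr_norm (pr_mul (pr_norm (pr_addc h1 (enc_rat _ 1 2))) (pr_norm (pr_csub (enc_neg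 (enc_rat _ 2773 5677)) h1)))))) (pr_add (pr_add (pr_subr 21935110770643 13830300000000 (pr_neg (kcg_39_sf.snd h1 h2))) (pr_cmul (enc_norm (kcg_3.enc h1.l h2)) (pr_norm (pr_addc (kcg_44_sf.snd h1 h2) (enc_rat _ 187350133711 461010000000))))) (pr_cmul (enc_norm (kcg_53.enc h1.l h2)) (pr_norm (pr_mul (pr_norm (kcg_12_sf.snd h1 h2)) (pr_norm (pr_csub (enc_neg (enc_rat _ 299 662)) h1))))))) (pr_case (kcg_61_sf.snd h1 h2) (pr_add (pr_add (pr_subr 808071907299 402700000000 (pr_neg (kcg_62_sf.snd h1 h2))) (pr_cmul (enc_norm (kcg_3.enc h1.l h2)) (pr_norm (pr_csub (enc_rat _ 168501333 10067500000) (kcg_67_sf.snd h1 h2))))) (pr_cmul (enc_norm (kcg_76.enc h1.l h2)) (pr_norm (pr_mul (pr_norm (kcg_9_sf.snd h1 h2)) (pr_norm (pr_csub (enc_neg (enc_rat _ 33 100)) h1)))))) (pr_add (pr_add (pr_subr 12558783 6250000 (pr_neg (kcg_81_sf.snd h1 h2))) (pr_cmul (enc_norm (kcg_3.enc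 h1.l h2)) (pr_norm (pr_subr 1087097 20000000 (pr_neg (kcg_86_sf.snd h1 h2)))))) (pr_cmul (enc_norm (kcg_99.enc h1.l h2)) (pr_norm (pr_mul (pr_norm (kcg_61_sf.snd h1 h2)) (pr_norm (pr_csub (enc_neg (enc_rat _ 27 100)) h1)))))))) (pr_case (kcg_108_sf.snd h1 h2) (pr_case (kcg_111_sf.snd h1 h2) (pr_add (pr_add (pr_subr 50807019 100000000 (kcg_112_sf.snd h1 h2)) (pr_cmul (enc_norm (kcg_3.enc h1.l h2)) (pr_norm (pr_csub (enc_rat _ 160753 20000000) (kcg_116_sf.snd h1 h2))))) (pr_cmul (enc_norm (kcg_126.enc h1.l h2)) (pr_norm (pr_mul (pr_norm (kcg_6_sf.snd h1 h2)) (pr_norm (pr_csub (enc_neg (enc_rat _ 21 100)) h1)))))) (pr_add (pr_add (pr_addc (kcg_131_sf.snd h1 h2) (enc_rat _ 52919849 100000000)) (pr_cmul (enc_norm (kcg_3.enc h1.l h2)) (pr_norm (pr_subr 43367 2500000 (pr_neg (kcg_134_sf.snd h1 h2)))))) (pr_cmul (enc_norm (kcg_147.enc h1.l h2)) (pr_norm (pr_mul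 (pr_norm (kcg_111_sf.snd h1 h2)) (pr_norm (pr_csub (enc_neg (enc_rat _ 3 20)) h1))))))) (pr_case (pr_addc h1 (enc_rat _ 1 16)) (pr_add (pr_add (pr_addc (kcg_156_sf.snd h1 h2) (enc_rat _ 20829499 87500000)) (pr_cmul (enc_norm (kcg_3.enc h1.l h2)) (pr_norm (pr_subr 4817 1400000 (pr_neg (kcg_159_sf.snd h1 h2)))))) (pr_cmul (enc_norm (kcg_171.enc h1.l h2)) (pr_norm (pr_mul (pr_norm (kcg_108_sf.snd h1 h2)) (pr_norm (pr_csub (enc_neg (enc_rat _ 1 16)) h1)))))) (pr_sub (kcg_180_sf.snd h1 h2) (kcg_176_sf.snd h1 h2))))) (pr_neg (pr_case (kcg_186_sf.snd h1 h2) (pr_case (kcg_187_sf.snd h1 h2) (pr_case (kcg_188_sf.snd h1 h2) (pr_add (pr_add (pr_subr 34620645157 13100000000 (kcg_13_sf.snd h1 h2)) (pr_cmul (enc_norm (kcg_3.enc h1.l h2)) (pr_norm (pr_subr 9561987 1310000000 (kcg_18_sf.snd h1 h2))))) (pr_cmul (enc_norm (kcg_31.enc h1.l h2)) (pr_norm (pr_mul (pr_norm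 (pr_csub (enc_rat _ 1 2) h1)) (pr_norm (pr_subr 2773 5677 h1)))))) (pr_add (pr_add (pr_subr 21935110770643 13830300000000 (kcg_39_sf.snd h1 h2)) (pr_cmul (enc_norm (kcg_3.enc h1.l h2)) (pr_norm (pr_csub (enc_rat _ 187350133711 461010000000) (kcg_44_sf.snd h1 h2))))) (pr_cmul (enc_norm (kcg_53.enc h1.l h2)) (pr_norm (pr_mul (pr_norm (kcg_188_sf.snd h1 h2)) (pr_norm (pr_subr 299 662 h1))))))) (pr_case (kcg_208_sf.snd h1 h2) (pr_add (pr_add (pr_subr 808071907299 402700000000 (kcg_62_sf.snd h1 h2)) (pr_cmul (enc_norm (kcg_3.enc h1.l h2)) (pr_norm (pr_addc (kcg_67_sf.snd h1 h2) (enc_rat _ 168501333 10067500000))))) (pr_cmul (enc_norm (kcg_76.enc h1.l h2)) (pr_norm (pr_mul (pr_norm (kcg_187_sf.snd h1 h2)) (pr_norm (pr_subr 33 100 h1)))))) (pr_add (pr_add (pr_subr 12558783 6250000 (kcg_81_sf.snd h1 h2)) (pr_cmul (enc_norm (kcg_3.enc h1.l h2)) (pr_norm (pr_subr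 1087097 20000000 (kcg_86_sf.snd h1 h2))))) (pr_cmul (enc_norm (kcg_99.enc h1.l h2)) (pr_norm (pr_mul (pr_norm (kcg_208_sf.snd h1 h2)) (pr_norm (pr_subr 27 100 h1)))))))) (pr_case (kcg_227_sf.snd h1 h2) (pr_case (kcg_228_sf.snd h1 h2) (pr_add (pr_add (pr_subr 50807019 100000000 (pr_neg (kcg_112_sf.snd h1 h2))) (pr_cmul (enc_norm (kcg_3.enc h1.l h2)) (pr_norm (pr_addc (kcg_116_sf.snd h1 h2) (enc_rat _ 160753 20000000))))) (pr_cmul (enc_norm (kcg_126.enc h1.l h2)) (pr_norm (pr_mul (pr_norm (kcg_186_sf.snd h1 h2)) (pr_norm (pr_subr 21 100 h1)))))) (pr_add (pr_add (pr_csub (enc_rat _ 52919849 100000000) (kcg_131_sf.snd h1 h2)) (pr_cmul (enc_norm (kcg_3.enc h1.l h2)) (pr_norm (pr_subr 43367 2500000 (kcg_134_sf.snd h1 h2))))) (pr_cmul (enc_norm (kcg_147.enc h1.l h2)) (pr_norm (pr_mul (pr_norm (kcg_228_sf.snd h1 h2)) (pr_norm (pr_subr 3 20 h1))))))) (pr_case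 (pr_csub (enc_rat _ 1 16) h1) (pr_add (pr_add (pr_csub (enc_rat _ 20829499 87500000) (kcg_156_sf.snd h1 h2)) (pr_cmul (enc_norm (kcg_3.enc h1.l h2)) (pr_norm (pr_subr 4817 1400000 (kcg_159_sf.snd h1 h2))))) (pr_cmul (enc_norm (kcg_171.enc h1.l h2)) (pr_norm (pr_mul (pr_norm (kcg_227_sf.snd h1 h2)) (pr_norm (pr_subr 1 16 h1)))))) (pr_sub (kcg_176_sf.snd h1 h2) (kcg_180_sf.snd h1 h2))))))))⟩
noncomputable def kf0q0_9_sf : Sl2 kf0q0_9 := ⟨_, fun h1 h2 => (pr_scaleT 3 2 h1)⟩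
noncomputable def kf0q0_12_sf : Sl2 kf0q0_12 := ⟨_, fun h1 h2 => (pr_cadd (enc_pnc _ 1) (c1g_sf.snd h1))⟩
noncomputable def kf0q0_sf : Sl2 kf0q0 := ⟨_, fun h1 h2 => (pr_norm (pr_add (pr_mul (pr_norm (pr_mul (pr_norm (pr_sub (c1g_sf.snd h1) (kf0q0_9_sf.snd h1 h2))) (pr_norm (kf0q0_12_sf.snd h1 h2)))) (pr_nd (pr_inv (pr_sub (kf0q0_12_sf.snd h1 h2) (kf0q0_9_sf.snd h1 h2))))) (pr_mul h1 (kcg_sf.snd (pr_norm (pr_sub (pr_scaleT 3 4 h1) (pr_half (c1g_sf.snd h1)))) h2))))⟩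
noncomputable def txg_6_sf : Sl3 txg_6 := ⟨_, fun h1 h2 h3 => (pr_add h1 (pr_half h2))⟩
noncomputable def txg_27_sf : Sl3 txg_27 := ⟨_, fun h1 h2 h3 => (pr_addc h1 (enc_rat _ 49 100))⟩
noncomputable def txg_75_sf : Sl3 txg_75 := ⟨_, fun h1 h2 h3 => (pr_addc h1 (enc_rat _ 299 662))⟩
noncomputable def txg_77_sf : Sl3 txg_77 := ⟨_, fun h1 h2 h3 => (pr_subr 1 16 h1)⟩
noncomputable def txg_80_sf : Sl3 txg_80 := ⟨_, fun h1 h2 h3 => (pr_addc h1 (enc_rat _ 11 50))⟩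
noncomputable def txg_83_sf : Sl3 txg_83 := ⟨_, fun h1 h2 h3 => (pr_addc h1 (enc_rat _ 33 100))⟩
noncomputable def txg_86_sf : Sl3 txg_86 := ⟨_, fun h1 h2 h3 => (pr_addc h1 (enc_rat _ 9 25))⟩
noncomputable def txg_136_sf : Sl3 txg_136 := ⟨_, fun h1 h2 h3 => (pr_addc h1 (enc_rat _ 3 10))⟩
noncomputable def txg_155_sf : Sl3 txg_155 := ⟨_, fun h1 h2 h3 => (pr_addc h1 (enc_rat _ 13 50))⟩
noncomputable def txg_199_sf : Sl3 txg_199 := ⟨_, fun h1 h2 h3 => (pr_addc h1 (enc_rat _ 7 50))⟩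
noncomputable def txg_202_sf : Sl3 txg_202 := ⟨_, fun h1 h2 h3 => (pr_addc h1 (enc_rat _ 9 50))⟩
noncomputable def txg_244_sf : Sl3 txg_244 := ⟨_, fun h1 h2 h3 => (pr_addc h1 (enc_rat _ 1 10))⟩
noncomputable def txg_266_sf : Sl3 txg_266 := ⟨_, fun h1 h2 h3 => (pr_addc h1 (enc_rat _ 1 16))⟩
noncomputable def txg_311_sf : Sl3 txg_311 := ⟨_, fun h1 h2 h3 => (pr_subr 13 50 h1)⟩
noncomputable def txg_312_sf : Sl3 txg_312 := ⟨_, fun h1 h2 h3 => (pr_subr 7 50 h1)⟩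
noncomputable def txg_313_sf : Sl3 txg_313 := ⟨_, fun h1 h2 h3 => (pr_subr 1 10 h1)⟩
noncomputable def txg_354_sf : Sl3 txg_354 := ⟨_, fun h1 h2 h3 => (pr_subr 9 50 h1)⟩
noncomputable def txg_376_sf : Sl3 txg_376 := ⟨_, fun h1 h2 h3 => (pr_subr 11 50 h1)⟩
noncomputable def txg_421_sf : Sl3 txg_421 := ⟨_, fun h1 h2 h3 => (pr_subr 19 50 h1)⟩
noncomputable def txg_422_sf : Sl3 txg_422 := ⟨_, fun h1 h2 h3 => (pr_subr 3 10 h1)⟩
noncomputable def txg_442_sf : Sl3 txg_442 := ⟨_, fun h1 h2 h3 => (pr_subr 17 50 h1)⟩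
noncomputable def txg_485_sf : Sl3 txg_485 := ⟨_, fun h1 h2 h3 => (pr_subr 21 50 h1)⟩
noncomputable def txg_507_sf : Sl3 txg_507 := ⟨_, fun h1 h2 h3 => (pr_subr 227 500 h1)⟩
noncomputable def txg_sf : Sl3 txg := ⟨_, fun h1 h2 h3 => (pr_case (pr_addc h1 (enc_rat _ 2773 5677)) (pr_case (txg_27_sf.snd h1 h2 h3) (pr_add (pr_add (pr_addc (pr_scaleT 16341 1000000 h1) (enc_rat _ 16341 2000000)) (pr_cmul (enc_norm (txg_4.enc h1.l h2.l h3)) (pr_norm (pr_addc (pr_scaleT 947 2500 h1) (enc_rat _ 947 5000))))) (pr_cmul (enc_norm (enc_subr 1613 50000 (enc_scaleT 357387 50000 (txg_4.enc h1.l h2.l h3)))) (pr_norm (pr_mul (pr_norm (pr_addc h1 (enc_rat _ 1 2))) (pr_norm (pr_csub (enc_neg (enc_rat _ 49 100)) h1)))))) (pr_add (pr_add (pr_add (pr_addc (pr_scaleT 5222014035733 317185344000000 h1) (enc_rat _ 37294544779603 4531219200000000)) (pr_cmul (enc_norm (txg_4.enc h1.l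 h2.l h3)) (pr_norm (pr_addc (pr_scaleT 46617824670923 158592672000000 h1) (enc_rat _ 334906901861261 2265609600000000))))) (pr_cmul (txg_61.enc h1.l h2.l h3) (pr_norm (pr_subr 50945153 4365000000 (pr_neg (pr_scaleT 1039697 43650000 h1)))))) (pr_cmul (enc_norm (enc_add (enc_scaleT 434611 50000 (txg_4.enc h1.l h2.l h3)) (enc_rat _ 130357 1000000))) (pr_norm (pr_mul (pr_norm (txg_27_sf.snd h1 h2 h3)) (pr_norm (pr_csub (enc_neg (enc_rat _ 2773 5677)) h1))))))) (pr_case (txg_75_sf.snd h1 h2 h3) (pr_sub (pr_mul (pr_norm (pr_csub (enc_pnc _ 1) h2)) (pr_norm (pr_subn 1 (pr_nat 2 h2)))) (pr_mul (pr_norm (pr_nat 2 (pr_subc (pr_scaleT 4 3 (txg_6_sf.snd h1 h2 h3)) h3))) (pr_norm (pr_mul (pr_norm (pr_subn 1 (pr_add (pr_scaleT 2 3 (txg_6_sf.snd h1 h2 h3)) h2))) (kcg_sf.snd h1 h3))))) (pr_case (txg_77_sf.snd h1 h2 h3) (pr_case (txg_80_sf.snd h1 h2 h3) (pr_case (txg_83_sf.snd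 h1 h2 h3) (pr_case (txg_86_sf.snd h1 h2 h3) (pr_add (pr_add (pr_add (pr_addc (pr_scaleT 2657713754549 32136128000000 h1) (enc_rat _ 6210932905801 160680640000000)) (pr_cmul (enc_norm (txg_4.enc h1.l h2.l h3)) (pr_norm (pr_subr 347834913121 10042540000000 (pr_neg (pr_scaleT 38257222539 401701600000 h1)))))) (pr_cmul (txg_61.enc h1.l h2.l h3) (pr_norm (pr_subr 319293 47406250 (pr_neg (pr_scaleT 35477 1896250 h1)))))) (pr_cmul (enc_norm (enc_subr 180129 500000 (enc_scaleT 6449 5000 (txg_4.enc h1.l h2.l h3)))) (pr_norm (pr_mul (pr_norm (txg_75_sf.snd h1 h2 h3)) (pr_norm (pr_csub (enc_neg (enc_rat _ 9 25)) h1)))))) (pr_add (pr_add (pr_addc (pr_scaleT 305353 3000000 h1) (enc_rat _ 4552363 100000000)) (pr_cmul (enc_norm (txg_4.enc h1.l h2.l h3)) (pr_norm (pr_subr 126709 10000000 (pr_neg (pr_scaleT 10267 300000 h1)))))) (pr_cmul (enc_norm (enc_sub (enc_rat _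 464619 1000000) (enc_scaleT 298729 50000 (txg_4.enc h1.l h2.l h3)))) (pr_norm (pr_mul (pr_norm (txg_86_sf.snd h1 h2 h3)) (pr_norm (pr_csub (enc_neg (enc_rat _ 33 100)) h1))))))) (pr_case (txg_136_sf.snd h1 h2 h3) (pr_add (pr_add (pr_addc (pr_scaleT 233879 3000000 h1) (enc_rat _ 3766149 100000000)) (pr_cmul (enc_norm (txg_4.enc h1.l h2.l h3)) (pr_norm (pr_addc (pr_scaleT 1507 100000 h1) (enc_rat _ 35959 10000000))))) (pr_cmul (enc_norm (enc_add (enc_scaleT 86627 20000 (txg_4.enc h1.l h2.l h3)) (enc_rat _ 41191 125000))) (pr_norm (pr_mul (pr_norm (txg_83_sf.snd h1 h2 h3)) (pr_norm (pr_csub (enc_neg (enc_rat _ 3 10)) h1)))))) (pr_case (txg_155_sf.snd h1 h2 h3) (pr_add (pr_add (pr_addc (pr_scaleT 271761 4000000 h1) (enc_rat _ 6931133 200000000)) (pr_cmul (enc_norm (txg_4.enc h1.l h2.l h3)) (pr_norm (pr_subr 24337 1250000 (pr_neg (pr_scaleT 12363 200000 h1))))))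 (pr_cmul (enc_norm (enc_sub (enc_rat _ 1671 500000) (enc_scaleT 33159 25000 (txg_4.enc h1.l h2.l h3)))) (pr_norm (pr_mul (pr_norm (txg_136_sf.snd h1 h2 h3)) (pr_norm (pr_csub (enc_neg (enc_rat _ 13 50)) h1)))))) (pr_add (pr_add (pr_addc (pr_scaleT 95651 2000000 h1) (enc_rat _ 2942583 100000000)) (pr_cmul (enc_norm (txg_4.enc h1.l h2.l h3)) (pr_norm (pr_subr 11667 1000000 (pr_neg (pr_scaleT 6361 200000 h1)))))) (pr_cmul (enc_norm (enc_add (enc_scaleT 57611 100000 (txg_4.enc h1.l h2.l h3)) (enc_rat _ 499529 1000000))) (pr_norm (pr_mul (pr_norm (txg_155_sf.snd h1 h2 h3)) (pr_norm (pr_csub (enc_neg (enc_rat _ 11 50)) h1))))))))) (pr_case (txg_199_sf.snd h1 h2 h3) (pr_case (txg_202_sf.snd h1 h2 h3) (pr_add (pr_add (pr_addc (pr_scaleT 50203 2000000 h1) (enc_rat _ 488531 20000000)) (pr_cmul (enc_norm (txg_4.enc h1.l h2.l h3)) (pr_norm (pr_subr 248377 20000000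 (pr_neg (pr_scaleT 14089 400000 h1)))))) (pr_cmul (enc_norm (enc_sub (enc_rat _ 68573 1000000) (enc_scaleT 9813 20000 (txg_4.enc h1.l h2.l h3)))) (pr_norm (pr_mul (pr_norm (txg_80_sf.snd h1 h2 h3)) (pr_norm (pr_csub (enc_neg (enc_rat _ 9 50)) h1)))))) (pr_add (pr_add (pr_addc (pr_scaleT 811 62500 h1) (enc_rat _ 556099 25000000)) (pr_cmul (enc_norm (txg_4.enc h1.l h2.l h3)) (pr_norm (pr_subr 4499 400000 (pr_neg (pr_scaleT 5743 200000 h1)))))) (pr_cmul (enc_norm (enc_add (enc_scaleT 8199 25000 (txg_4.enc h1.l h2.l h3)) (enc_rat _ 117281 500000))) (pr_norm (pr_mul (pr_norm (txg_202_sf.snd h1 h2 h3)) (pr_norm (pr_csub (enc_neg (enc_rat _ 7 50)) h1))))))) (pr_case (txg_244_sf.snd h1 h2 h3) (pr_add (pr_add (pr_addc (pr_scaleT 3779 2000000 h1) (enc_rat _ 413837 20000000)) (pr_cmul (enc_norm (txg_4.enc h1.l h2.l h3)) (pr_norm (pr_subr 246097 20000000 (pr_neg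 (pr_scaleT 14507 400000 h1)))))) (pr_cmul (enc_norm (enc_sub (enc_rat _ 21299 500000) (enc_scaleT 1739 12500 (txg_4.enc h1.l h2.l h3)))) (pr_norm (pr_mul (pr_norm (txg_199_sf.snd h1 h2 h3)) (pr_norm (pr_csub (enc_neg (enc_rat _ 1 10)) h1)))))) (pr_case (txg_266_sf.snd h1 h2 h3) (pr_add (pr_add (pr_csub (enc_rat _ 3069799 150000000) (pr_scaleT 1409 3750000 h1)) (pr_cmul (enc_norm (txg_4.enc h1.l h2.l h3)) (pr_norm (pr_subr 319471 30000000 (pr_neg (pr_scaleT 7391 375000 h1)))))) (pr_cmul (enc_norm (enc_sub (enc_rat _ 599 40000) (enc_scaleT 29319 100000 (txg_4.enc h1.l h2.l h3)))) (pr_norm (pr_mul (pr_norm (txg_244_sf.snd h1 h2 h3)) (pr_norm (pr_csub (enc_neg (enc_rat _ 1 16)) h1)))))) (pr_add (pr_add (pr_csub (enc_rat _ 4083541 200000000) (pr_scaleT 14221 12500000 h1)) (pr_cmul (enc_norm (txg_4.enc h1.l h2.l h3)) (pr_norm (pr_subr 1619 160000 (pr_neg (pr_scaleT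 14031 1250000 h1)))))) (pr_cmul (enc_norm (enc_add (enc_scaleT 251 12500 (txg_4.enc h1.l h2.l h3)) (enc_rat _ 801 500000))) (pr_norm (pr_mul (pr_norm (txg_266_sf.snd h1 h2 h3)) (pr_norm (pr_csub (enc_rat _ 1 16) h1)))))))))) (pr_case (txg_311_sf.snd h1 h2 h3) (pr_case (txg_312_sf.snd h1 h2 h3) (pr_case (txg_313_sf.snd h1 h2 h3) (pr_add (pr_add (pr_csub (enc_rat _ 407937 20000000) (pr_scaleT 201 250000 h1)) (pr_cmul (enc_norm (txg_4.enc h1.l h2.l h3)) (pr_norm (pr_subr 71981 7500000 (pr_neg (pr_scaleT 7337 375000 h1)))))) (pr_cmul (enc_norm (enc_subr 14231 1000000 (enc_scaleT 3887 25000 (txg_4.enc h1.l h2.l h3)))) (pr_norm (pr_mul (pr_norm (txg_77_sf.snd h1 h2 h3)) (pr_norm (pr_csub (enc_rat _ 1 10) h1)))))) (pr_add (pr_add (pr_csub (enc_rat _ 825993 40000000) (pr_scaleT 2667 800000 h1)) (pr_cmul (enc_norm (txg_4.enc h1.l h2.l h3)) (pr_norm (pr_subr 29579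 4000000 (pr_neg (pr_scaleT 16637 400000 h1)))))) (pr_cmul (enc_norm (enc_add (enc_scaleT 4049 10000 (txg_4.enc h1.l h2.l h3)) (enc_rat _ 3829 50000))) (pr_norm (pr_mul (pr_norm (txg_313_sf.snd h1 h2 h3)) (pr_norm (pr_csub (enc_rat _ 7 50) h1))))))) (pr_case (txg_354_sf.snd h1 h2 h3) (pr_add (pr_add (pr_csub (enc_rat _ 4412303 200000000) (pr_scaleT 53669 4000000 h1)) (pr_cmul (enc_norm (txg_4.enc h1.l h2.l h3)) (pr_norm (pr_subr 34031 4000000 (pr_neg (pr_scaleT 13457 400000 h1)))))) (pr_cmul (enc_norm (enc_sub (enc_rat _ 35101 200000) (enc_scaleT 60369 100000 (txg_4.enc h1.l h2.l h3)))) (pr_norm (pr_mul (pr_norm (txg_312_sf.snd h1 h2 h3)) (pr_norm (pr_csub (enc_rat _ 9 50) h1)))))) (pr_case (txg_376_sf.snd h1 h2 h3) (pr_add (pr_add (pr_csub (enc_rat _ 255613 10000000) (pr_scaleT 65721 2000000 h1)) (pr_cmul (enc_norm (txg_4.enc h1.l h2.l h3)) (pr_norm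 (pr_subr 46571 10000000 (pr_neg (pr_scaleT 11007 200000 h1)))))) (pr_cmul (enc_norm (enc_add (enc_scaleT 56929 50000 (txg_4.enc h1.l h2.l h3)) (enc_rat _ 155289 500000))) (pr_norm (pr_mul (pr_norm (txg_354_sf.snd h1 h2 h3)) (pr_norm (pr_csub (enc_rat _ 11 50) h1)))))) (pr_add (pr_add (pr_csub (enc_rat _ 2889419 100000000) (pr_scaleT 4801 100000 h1)) (pr_cmul (enc_norm (txg_4.enc h1.l h2.l h3)) (pr_norm (pr_subr 133977 10000000 (pr_neg (pr_scaleT 3061 200000 h1)))))) (pr_cmul (enc_norm (enc_sub (enc_rat _ 34081 500000) (enc_scaleT 21319 10000 (txg_4.enc h1.l h2.l h3)))) (pr_norm (pr_mul (pr_norm (txg_376_sf.snd h1 h2 h3)) (pr_norm (pr_csub (enc_rat _ 13 50) h1))))))))) (pr_case (txg_421_sf.snd h1 h2 h3) (pr_case (txg_422_sf.snd h1 h2 h3) (pr_add (pr_add (pr_csub (enc_rat _ 6379321 200000000) (pr_scaleT 238231 4000000 h1)) (pr_cmul (enc_norm (txg_4.enc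 h1.l h2.l h3)) (pr_norm (pr_csub (enc_rat _ 289629 20000000) (pr_scaleT 49013 400000 h1))))) (pr_cmul (enc_norm (enc_add (enc_scaleT 481261 100000 (txg_4.enc h1.l h2.l h3)) (enc_rat _ 220531 1000000))) (pr_norm (pr_mul (pr_norm (txg_311_sf.snd h1 h2 h3)) (pr_norm (pr_csub (enc_rat _ 3 10) h1)))))) (pr_case (txg_442_sf.snd h1 h2 h3) (pr_add (pr_add (pr_csub (enc_rat _ 3937553 100000000) (pr_scaleT 6759 80000 h1)) (pr_cmul (enc_norm (txg_4.enc h1.l h2.l h3)) (pr_norm (pr_subr 247089 5000000 (pr_scaleT 18093 200000 h1))))) (pr_cmul (enc_norm (enc_sub (enc_rat _ 50339 125000) (enc_scaleT 1013751 100000 (txg_4.enc h1.l h2.l h3)))) (pr_norm (pr_mul (pr_norm (txg_422_sf.snd h1 h2 h3)) (pr_norm (pr_csub (enc_rat _ 17 50) h1)))))) (pr_add (pr_add (pr_csub (enc_rat _ 542733 12500000) (pr_scaleT 96379 1000000 h1)) (pr_cmul (enc_norm (txg_4.enc h1.l h2.l h3)) (pr_norm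 (pr_csub (enc_rat _ 811677 10000000) (pr_scaleT 29361 100000 h1))))) (pr_cmul (enc_norm (enc_subr 105429 1000000 (enc_scaleT 123371 6250 (txg_4.enc h1.l h2.l h3)))) (pr_norm (pr_mul (pr_norm (txg_442_sf.snd h1 h2 h3)) (pr_norm (pr_csub (enc_rat _ 19 50) h1)))))))) (pr_case (txg_485_sf.snd h1 h2 h3) (pr_add (pr_add (pr_csub (enc_rat _ 2127593 50000000) (pr_scaleT 47049 500000 h1)) (pr_cmul (enc_norm (txg_4.enc h1.l h2.l h3)) (pr_norm (pr_subr 762177 5000000 (pr_scaleT 64227 200000 h1))))) (pr_cmul (enc_norm (enc_sub (enc_rat _ 48413 1000000) (enc_scaleT 3510799 100000 (txg_4.enc h1.l h2.l h3)))) (pr_norm (pr_mul (pr_norm (txg_421_sf.snd h1 h2 h3)) (pr_norm (pr_csub (enc_rat _ 21 50) h1)))))) (pr_case (txg_507_sf.snd h1 h2 h3) (pr_add (pr_add (pr_csub (enc_rat _ 2514091 85000000) (pr_scaleT 214903 3400000 h1)) (pr_cmul (enc_norm (txg_4.enc h1.l h2.l h3))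 (pr_norm (pr_subr 58525149 170000000 (pr_scaleT 264477 340000 h1))))) (pr_cmul (enc_norm (enc_subr 965531 1000000 (enc_scaleT 2787003 100000 (txg_4.enc h1.l h2.l h3)))) (pr_norm (pr_mul (pr_norm (txg_485_sf.snd h1 h2 h3)) (pr_norm (pr_csub (enc_rat _ 227 500) h1)))))) (pr_add (pr_add (pr_csub (enc_rat _ 88167 9200000) (pr_scaleT 88167 4600000 h1)) (pr_cmul (enc_norm (txg_4.enc h1.l h2.l h3)) (pr_norm (pr_csub (enc_rat _ 8889 92000) (pr_scaleT 8889 46000 h1))))) (pr_cmul (enc_norm (enc_subr 121867 500000 (enc_scaleT 3197 6250 (txg_4.enc h1.l h2.l h3)))) (pr_norm (pr_mul (pr_norm (txg_507_sf.snd h1 h2 h3)) (pr_norm (pr_csub (enc_rat _ 1 2) h1)))))))))))))⟩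
noncomputable def l0q0_sf : Sl2 l0q0 := ⟨_, fun h1 h2 => (pr_norm (txg_sf.snd (pr_norm (pr_sub (pr_scaleT 3 4 h1) (pr_half (c1g_sf.snd h1)))) (pr_nd (c1g_sf.snd h1)) h2))⟩
noncomputable def swg_sf : Sl1 swg := ⟨_, fun h1 => (pr_sqrt (pr_csub (enc_pnc _ 1) (pr_scaleT 3 4 (pr_sq (pr_norm (pr_subn 1 h1))))))⟩
noncomputable def cv1m_sf : Sl1 cv1m := ⟨_, fun h1 => (pr_norm (pr_add (pr_half (c1g_sf.snd h1)) (pr_half (pr_addc (swg_sf.snd h1) (enc_rat _ 1 2)))))⟩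
noncomputable def bf1q0_14_sf : Sl2 bf1q0_14 := ⟨_, fun h1 h2 => (pr_cmul (enc_norm (bf1q0_3.enc h1.l h2)) (pr_nd (pr_scaleT 79 500000 h1)))⟩
noncomputable def bf1q0_sf : Sl2 bf1q0 := ⟨_, fun h1 h2 => (pr_norm (pr_case (pr_subr 1 5 h1) (pr_case (pr_subr 1 10 h1) (pr_add (pr_csub (enc_pnc _ 1) (pr_scaleT 37 10000000 h1)) (bf1q0_14_sf.snd h1 h2)) (pr_add (pr_csub (enc_rat _ 12500001 12500000) (pr_scaleT 9 2000000 h1)) (bf1q0_14_sf.snd h1 h2))) (pr_case (pr_subr 7 20 h1) (pr_add (pr_csub (enc_rat _ 10000001 10000000) (pr_scaleT 23 5000000 h1)) (pr_cmul (enc_norm (bf1q0_3.enc h1.l h2)) (pr_norm (pr_addc (pr_scaleT 9 62500 h1) (enc_rat _ 7 2500000))))) (pr_add (pr_csub (enc_rat _ 29999989 30000000) (pr_scaleT 49 15000000 h1)) (pr_cmul (enc_norm (bf1q0_3.enc h1.l h2)) (pr_norm (pr_addc (pr_scaleT 1 50000 h1) (enc_rat _ 231 5000000))))))))⟩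
noncomputable def kf1q0_sf : Sl2 kf1q0 := ⟨_, fun h1 h2 => (pr_norm (pr_mul (cv1m_sf.snd h1) (bf1q0_sf.snd h1 h2)))⟩
noncomputable def bx1q0_sf : Sl2 bx1q0 := ⟨_, fun h1 h2 => (pr_norm (pr_case (pr_subr 1 5 h1) (pr_case (pr_subr 1 10 h1) (pr_sub (pr_scaleT 22961 10000000 h1) (pr_cmul (enc_norm (bx1q0_3.enc h1.l h2)) (pr_nd (pr_scaleT 1369 250000 h1)))) (pr_add (pr_addc (pr_scaleT 2859 1250000 h1) (enc_rat _ 89 100000000)) (pr_cmul (enc_norm (bx1q0_3.enc h1.l h2)) (pr_norm (pr_subr 37 1250000 (pr_neg (pr_scaleT 259 50000 h1))))))) (pr_case (pr_subr 7 20 h1) (pr_add (pr_addc (pr_scaleT 8329 3750000 h1) (enc_rat _ 847 60000000)) (pr_cmul (enc_norm (bx1q0_3.enc h1.l h2)) (pr_norm (pr_subr 803 3750000 (pr_neg (pr_scaleT 3193 750000 h1)))))) (pr_add (pr_addc (pr_scaleT 14581 7500000 h1) (enc_rat _ 33313 300000000)) (pr_cmul (enc_norm (bx1q0_3.enc h1.l h2))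 (pr_norm (pr_subr 41207 30000000 (pr_neg (pr_scaleT 1417 1500000 h1)))))))))⟩
noncomputable def l1q0_sf : Sl2 l1q0 := ⟨_, fun h1 h2 => (pr_norm (pr_mul (cv1m_sf.snd h1) (bx1q0_sf.snd h1 h2)))⟩
noncomputable def cv2m_sf : Sl1 cv2m := ⟨_, fun h1 => (pr_norm (pr_addc (swg_sf.snd h1) (enc_rat _ 1 2)))⟩
noncomputable def bf2q0_sf : Sl2 bf2q0 := ⟨_, fun h1 h2 => (pr_norm (pr_case (pr_subr 1 5 h1) (pr_case (pr_subr 1 10 h1) (pr_sub (pr_addc (pr_scaleT 1 1250000 h1) (enc_pnc _ 1)) (pr_cmul (enc_norm (bf2q0_3.enc h1.l h2)) (pr_nd (pr_scaleT 3 1000000 h1)))) (pr_add (pr_addc (pr_scaleT 1 2000000 h1) (enc_rat _ 100000003 100000000)) (pr_cmul (enc_norm (bf2q0_3.enc h1.l h2)) (pr_norm (pr_subr 1 2000000 (pr_scaleT 1 500000 h1)))))) (pr_case (pr_subr 7 20 h1) (pr_add (pr_addc (pr_scaleT 1 3000000 h1) (enc_rat _ 300000019 300000000)) (pr_cmul (enc_norm (bf2q0_3.enc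 h1.l h2)) (pr_norm (pr_subr 9 10000000 (pr_scaleT 1 250000 h1))))) (pr_add (pr_addc (pr_scaleT 1 5000000 h1) (enc_rat _ 100000011 100000000)) (pr_cmul (enc_norm (bf2q0_3.enc h1.l h2)) (pr_norm (pr_addc (pr_scaleT 1 750000 h1) (enc_rat _ 1 30000000))))))))⟩
noncomputable def kf2q0_sf : Sl2 kf2q0 := ⟨_, fun h1 h2 => (pr_norm (pr_mul (cv2m_sf.snd h1) (bf2q0_sf.snd h1 h2)))⟩
noncomputable def bx2q0_sf : Sl2 bx2q0 := ⟨_, fun h1 h2 => (pr_norm (pr_case (pr_subr 1 5 h1) (pr_case (pr_subr 1 10 h1) (pr_sub (pr_cmul (enc_norm (bx2q0_3.enc h1.l h2)) (pr_nd (pr_scaleT 21 125000 h1))) (pr_scaleT 53 2500000 h1)) (pr_add (pr_subr 11 12500000 (pr_neg (pr_scaleT 31 2500000 h1))) (pr_cmul (enc_norm (bx2q0_3.enc h1.l h2)) (pr_norm (pr_csub (enc_rat _ 211 10000000) (pr_scaleT 43 1000000 h1)))))) (pr_case (pr_subr 7 20 h1) (pr_add (pr_subr 1 500000 (pr_neg (pr_scaleT 17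 2500000 h1))) (pr_cmul (enc_norm (bx2q0_3.enc h1.l h2)) (pr_norm (pr_csub (enc_rat _ 1759 30000000) (pr_scaleT 173 750000 h1))))) (pr_add (pr_subr 291 100000000 (pr_neg (pr_scaleT 21 5000000 h1))) (pr_cmul (enc_norm (bx2q0_3.enc h1.l h2)) (pr_norm (pr_csub (enc_rat _ 233 30000000) (pr_scaleT 4 46875 h1))))))))⟩
noncomputable def l2q0_sf : Sl2 l2q0 := ⟨_, fun h1 h2 => (pr_norm (pr_mul (cv2m_sf.snd h1) (bx2q0_sf.snd h1 h2)))⟩
noncomputable def kf0q1_10_sf : Sl2 kf0q1_10 := ⟨_, fun h1 h2 => (pr_scaleT 3 2 h1)⟩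
noncomputable def kf0q1_sf : Sl2 kf0q1 := ⟨_, fun h1 h2 => (pr_norm (pr_add (pr_mul (pr_norm (pr_mul (pr_norm (pr_cadd (enc_pnc _ 1) (pr_nat 2 (c1g_sf.snd h1)))) (pr_norm (pr_sub (kf0q1_10_sf.snd h1 h2) (c1g_sf.snd h1))))) (pr_nd (pr_inv (pr_nat 2 (pr_sub (pr_cadd (enc_pnc _ 1) (kf0q1_10_sf.snd h1 h2)) (c1g_sf.snd h1)))))) (pr_mul (pr_norm (pr_subn 1 h1)) (kcg_sf.snd (pr_norm (pr_sub (pr_scaleT 3 4 h1) (pr_half (c1g_sf.snd h1)))) h2))))⟩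
noncomputable def l0q1_sf : Sl2 l0q1 := ⟨_, fun h1 h2 => (pr_norm (txg_sf.snd (pr_norm (pr_sub (pr_scaleT 3 4 h1) (pr_half (c1g_sf.snd h1)))) (pr_nd (c1g_sf.snd h1)) h2))⟩
noncomputable def cv2p_sf : Sl1 cv2p := ⟨_, fun h1 => (pr_norm (pr_subr 1 2 (swg_sf.snd h1)))⟩
noncomputable def gsg_sf : Sl1 gsg := ⟨_, fun h1 => (pr_sqrt (pr_csub (enc_pnc _ 1) (pr_scaleT 3 4 (pr_sq h1))))⟩
noncomputable def esg_sf : Sl1 esg := ⟨_, fun h1 => (pr_norm (pr_subn 1 (pr_add (pr_half h1) (gsg_sf.snd h1))))⟩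
noncomputable def kf2q2_64_sf : Sl2 kf2q2_64 := ⟨_, fun h1 h2 => (pr_scaleT 1 1250000 h1)⟩
noncomputable def kf2q2_77_sf : Sl2 kf2q2_77 := ⟨_, fun h1 h2 => (pr_scaleT 1 1000000 h1)⟩
noncomputable def kf2q2_80_sf : Sl2 kf2q2_80 := ⟨_, fun h1 h2 => (pr_scaleT 1 50000 h1)⟩
noncomputable def kf2q2_91_sf : Sl2 kf2q2_91 := ⟨_, fun h1 h2 => (pr_scaleT 3 125000 h1)⟩
noncomputable def kf2q2_134_sf : Sl2 kf2q2_134 := ⟨_, fun h1 h2 => (pr_cmul (enc_norm (kf2q2_4.enc h1.l h2)) (pr_norm (pr_csub (enc_rat _ 35307 10000000) (kf2q2_91_sf.snd h1 h2))))⟩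
noncomputable def kf2q2_163_sf : Sl2 kf2q2_163 := ⟨_, fun h1 h2 => (pr_subn 1 h1)⟩
noncomputable def kf2q2_164_sf : Sl2 kf2q2_164 := ⟨_, fun h1 h2 => (gsg_sf.snd (pr_norm (kf2q2_163_sf.snd h1 h2)))⟩
noncomputable def kf2q2_168_sf : Sl2 kf2q2_168 := ⟨_, fun h1 h2 => (esg_sf.snd (pr_norm (kf2q2_163_sf.snd h1 h2)))⟩
noncomputable def kf2q2_170_sf : Sl2 kf2q2_170 := ⟨_, fun h1 h2 => (pr_scaleT 3 2 (kf2q2_163_sf.snd h1 h2))⟩
noncomputable def kf2q2_172_sf : Sl2 kf2q2_172 := ⟨_, fun h1 h2 => (pr_cadd (enc_pnc _ 1) (kf2q2_164_sf.snd h1 h2))⟩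
noncomputable def kf2q2_sf : Sl2 kf2q2 := ⟨_, fun h1 h2 => (pr_norm (pr_case (pr_subr 65 64 h1) (pr_mul (cv2p_sf.snd h1) (pr_norm (pr_case (pr_subr 251 250 h1) (pr_add (pr_csub (enc_rat _ 59057 50000) (pr_scaleT 9057 50000 h1)) (pr_cmul (enc_norm (kf2q2_4.enc h1.l h2)) (pr_norm (pr_subr 8013 20000 (pr_scaleT 8013 20000 h1))))) (pr_case (pr_subr 403 400 h1) (pr_add (pr_csub (enc_rat _ 18215751 12500000) (pr_scaleT 2851 6250 h1)) (pr_cmul (enc_norm (kf2q2_4.enc h1.l h2)) (pr_norm (pr_csub (enc_rat _ 84317 5000000) (pr_scaleT 19 1250 h1))))) (pr_add (pr_csub (enc_rat _ 550072179 500000000) (pr_scaleT 1652669 16250000 h1)) (pr_cmul (enc_norm (kf2q2_4.enc h1.l h2)) (pr_norm (pr_csub (enc_rat _ 50521387 250000000) (pr_scaleT 1617227 8125000 h1))))))))) (pr_case (pr_subr 17 16 h1) (pr_add (pr_sub (pr_mul (pr_norm (pr_mul (pr_norm (pr_sub (kf2q2_164_sf.snd h1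 h2) (kf2q2_170_sf.snd h1 h2))) (pr_norm (kf2q2_172_sf.snd h1 h2)))) (pr_nd (pr_inv (pr_sub (kf2q2_172_sf.snd h1 h2) (kf2q2_170_sf.snd h1 h2))))) (pr_wR (pr_mul (pr_norm (pr_sub (pr_half (kf2q2_163_sf.snd h1 h2)) (pr_mul (pr_nd (pr_scaleT 3 4 (pr_sq (pr_norm (kf2q2_163_sf.snd h1 h2))))) (pr_nd (pr_inv (kf2q2_164_sf.snd h1 h2)))))) (pr_nd (pr_inv (pr_nat 2 (kf2q2_168_sf.snd h1 h2))))) (kf2q2_163_sf.snd h1 h2) (kf2q2_164_sf.snd h1 h2) (kf2q2_168_sf.snd h1 h2) rfl rfl rfl rfl rfl rfl)) (pr_mul (kcg_sf.snd (pr_norm (pr_sub (pr_scaleT 3 4 (kf2q2_163_sf.snd h1 h2)) (pr_half (kf2q2_164_sf.snd h1 h2)))) h2) (pr_norm (kf2q2_163_sf.snd h1 h2)))) (pr_mul (cv2p_sf.snd h1) (pr_norm (pr_case (pr_subr 59 50 h1) (pr_case (pr_subr 221 200 h1) (pr_case (pr_subr 217 200 h1) (pr_add (pr_addc (pr_scaleT 11 7500000 h1) (enc_rat _ 1452584053 1500000000)) (pr_cmul (enc_norm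 (kf2q2_4.enc h1.l h2)) (pr_norm (pr_csub (enc_rat _ 790877 225000000) (pr_scaleT 11 1125000 h1))))) (pr_casec1 (pr_subr 437 400 h1) (enc_add (enc_rat _ 12104887 12500000) (enc_scaleT 8761 2500000 (kf2q2_4.enc h1.l h2))) (pr_add (pr_addc (kf2q2_64_sf.snd h1 h2) (enc_rat _ 484195043 500000000)) (pr_cmul (enc_norm (kf2q2_4.enc h1.l h2)) (pr_norm (pr_csub (enc_rat _ 88047 25000000) (pr_scaleT 1 62500 h1))))))) (pr_case (pr_subr 9 8 h1) (pr_add (pr_addc (kf2q2_77_sf.snd h1 h2) (enc_rat _ 193677973 200000000)) (pr_cmul (enc_norm (kf2q2_4.enc h1.l h2)) (pr_norm (pr_csub (enc_rat _ 35263 10000000) (kf2q2_80_sf.snd h1 h2))))) (pr_case (pr_subr 23 20 h1) (pr_add (pr_addc (pr_scaleT 3 2500000 h1) (enc_rat _ 24209741 25000000)) (pr_cmul (enc_norm (kf2q2_4.enc h1.l h2)) (pr_norm (pr_csub (enc_rat _ 8827 2500000) (kf2q2_91_sf.snd h1 h2))))) (pr_add (pr_addc (pr_scaleT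 1 1500000 h1) (enc_rat _ 72629269 75000000)) (pr_cmul (enc_norm (kf2q2_4.enc h1.l h2)) (pr_norm (pr_csub (enc_rat _ 35377 10000000) (pr_scaleT 3 100000 h1)))))))) (pr_case (pr_subr 13 10 h1) (pr_case (pr_subr 121 100 h1) (pr_add (pr_addc (kf2q2_77_sf.snd h1 h2) (enc_rat _ 48419493 50000000)) (pr_cmul (enc_norm (kf2q2_4.enc h1.l h2)) (pr_norm (pr_csub (enc_rat _ 106013 30000000) (pr_scaleT 1 37500 h1))))) (pr_case (pr_subr 5 4 h1) (pr_add (pr_addc (pr_scaleT 3 4000000 h1) (enc_rat _ 77471213 80000000)) (pr_cmul (enc_norm (kf2q2_4.enc h1.l h2)) (pr_norm (pr_csub (enc_rat _ 35257 10000000) (kf2q2_80_sf.snd h1 h2))))) (pr_add (pr_addc (kf2q2_77_sf.snd h1 h2) (enc_rat _ 19367797 20000000)) (kf2q2_134_sf.snd h1 h2)))) (pr_case (pr_subr 27 20 h1) (pr_add (pr_addc (kf2q2_64_sf.snd h1 h2) (enc_rat _ 96839011 100000000)) (kf2q2_134_sf.snd h1 h2)) (pr_case (pr_subr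 7 5 h1) (pr_add (pr_addc (kf2q2_77_sf.snd h1 h2) (enc_rat _ 12104873 12500000)) (kf2q2_134_sf.snd h1 h2)) (pr_add (pr_addc (pr_scaleT 13 10000000 h1) (enc_rat _ 48419471 50000000)) (pr_cmul (enc_norm (kf2q2_4.enc h1.l h2)) (pr_norm (pr_csub (enc_rat _ 35601 10000000) (pr_scaleT 9 200000 h1))))))))))))))⟩
noncomputable def qsg_sf : Sl1 qsg := ⟨_, fun h1 => (pr_norm (pr_mul (pr_norm (pr_csub (enc_pnc _ 1) (gsg_sf.snd h1))) (pr_norm (pr_subn 1 (pr_nat 2 (gsg_sf.snd h1))))))⟩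
noncomputable def l2q2_198_sf : Sl2 l2q2_198 := ⟨_, fun h1 h2 => (pr_subn 1 h1)⟩
noncomputable def l2q2_sf : Sl2 l2q2 := ⟨_, fun h1 h2 => (pr_norm (pr_case (pr_subr 65 64 h1) (pr_mul (cv2p_sf.snd h1) (pr_norm (pr_case (pr_subr 251 250 h1) (pr_add (pr_subr 8321 400000 (pr_scaleT 8321 400000 h1)) (pr_cmul (enc_norm (l2q2_4.enc h1.l h2)) (pr_norm (pr_subr 21749 40000 (pr_scaleT 21749 40000 h1))))) (pr_case (pr_subr 403 400 h1) (pr_add (pr_subr 11337153 700000000 (pr_scaleT 227 14000 h1)) (pr_cmul (enc_norm (l2q2_4.enc h1.l h2)) (pr_norm (pr_subr 3995993 14000000 (pr_scaleT 5013 17500 h1))))) (pr_add (pr_add (pr_subr 37791649 1250000000 (pr_scaleT 1224729 40625000 h1)) (pr_cmul (enc_norm (l2q2_4.enc h1.l h2)) (pr_norm (pr_subr 33511589 50000000 (pr_scaleT 135768 203125 h1))))) (pr_cmul (l2q2_43.enc h1.l h2) (pr_norm (pr_csub (enc_rat _ 2077 250000) (pr_scaleT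 67 8125 h1))))))))) (pr_case (pr_subr 17 16 h1) (pr_sub (qsg_sf.snd (pr_norm (l2q2_198_sf.snd h1 h2))) (pr_mul (pr_norm (pr_nat 2 (pr_subc (l2q2_198_sf.snd h1 h2) h2))) (pr_norm (pr_mul (esg_sf.snd (pr_norm (l2q2_198_sf.snd h1 h2))) (kcg_sf.snd (pr_norm (pr_sub (pr_scaleT 3 4 (l2q2_198_sf.snd h1 h2)) (pr_half (gsg_sf.snd (pr_norm (l2q2_198_sf.snd h1 h2)))))) h2))))) (pr_mul (cv2p_sf.snd h1) (pr_norm (pr_case (pr_subr 59 50 h1) (pr_case (pr_subr 221 200 h1) (pr_case (pr_subr 217 200 h1) (pr_add (pr_add (pr_addc (pr_scaleT 1701 25000000 h1) (enc_rat _ 12322883 5000000000)) (pr_cmul (enc_norm (l2q2_4.enc h1.l h2)) (pr_norm (pr_csub (enc_rat _ 457455623 562500000) (pr_scaleT 4216663 5625000 h1))))) (pr_cmul (l2q2_43.enc h1.l h2) (pr_norm (pr_csub (enc_rat _ 36239 225000) (pr_scaleT 167 1125 h1))))) (pr_case (pr_subr 437 400 h1) (pr_add (pr_addc (pr_scaleT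 3 62500 h1) (enc_rat _ 31079 12500000)) (pr_cmul (enc_norm (l2q2_4.enc h1.l h2)) (pr_norm (pr_csub (enc_rat _ 2449 7500000) (pr_scaleT 29 75000 h1))))) (pr_add (pr_addc (pr_scaleT 7 156250 h1) (enc_rat _ 311227 125000000)) (pr_cmul (enc_norm (l2q2_4.enc h1.l h2)) (pr_norm (pr_csub (enc_rat _ 32787 50000000) (pr_scaleT 43 62500 h1))))))) (pr_case (pr_subr 9 8 h1) (pr_add (pr_addc (pr_scaleT 49 1000000 h1) (enc_rat _ 99407 40000000)) (pr_cmul (enc_norm (l2q2_4.enc h1.l h2)) (pr_norm (pr_csub (enc_rat _ 22441 20000000) (pr_scaleT 111 100000 h1))))) (pr_case (pr_subr 23 20 h1) (pr_add (pr_addc (pr_scaleT 61 1250000 h1) (enc_rat _ 12427 5000000)) (pr_cmul (enc_norm (l2q2_4.enc h1.l h2)) (pr_norm (pr_csub (enc_rat _ 14753 10000000) (pr_scaleT 89 62500 h1))))) (pr_add (pr_addc (pr_scaleT 59 1500000 h1) (enc_rat _ 374443 150000000)) (pr_cmul (enc_norm (l2q2_4.enc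 h1.l h2)) (pr_norm (pr_csub (enc_rat _ 27983 15000000) (pr_scaleT 529 300000 h1)))))))) (pr_case (pr_subr 13 10 h1) (pr_case (pr_subr 121 100 h1) (pr_add (pr_addc (pr_scaleT 47 3000000 h1) (enc_rat _ 47329 18750000)) (pr_cmul (enc_norm (l2q2_4.enc h1.l h2)) (pr_norm (pr_csub (enc_rat _ 2521 1500000) (pr_scaleT 241 150000 h1))))) (pr_case (pr_subr 5 4 h1) (pr_add (pr_addc (pr_scaleT 9 500000 h1) (enc_rat _ 252139 100000000)) (pr_cmul (enc_norm (l2q2_4.enc h1.l h2)) (pr_norm (pr_csub (enc_rat _ 27281 20000000) (pr_scaleT 269 200000 h1))))) (pr_add (pr_addc (pr_scaleT 673 1250000 h1) (enc_rat _ 187089 100000000)) (pr_cmul (enc_norm (l2q2_4.enc h1.l h2)) (pr_norm (pr_csub (enc_rat _ 17503 10000000) (pr_scaleT 827 500000 h1))))))) (pr_case (pr_subr 27 20 h1) (pr_add (pr_addc (pr_scaleT 223 250000 h1) (enc_rat _ 141121 100000000)) (pr_cmul (enc_norm (l2q2_4.enc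 h1.l h2)) (pr_norm (pr_csub (enc_rat _ 17633 10000000) (pr_scaleT 26 15625 h1))))) (pr_case (pr_subr 7 5 h1) (pr_add (pr_addc (pr_scaleT 5741 5000000 h1) (enc_rat _ 53267 50000000)) (pr_cmul (enc_norm (l2q2_4.enc h1.l h2)) (pr_norm (pr_csub (enc_rat _ 17741 10000000) (pr_scaleT 209 125000 h1))))) (pr_add (pr_addc (pr_scaleT 13233 10000000 h1) (enc_rat _ 4101 5000000)) (pr_cmul (enc_norm (l2q2_4.enc h1.l h2)) (pr_norm (pr_csub (enc_rat _ 33659 10000000) (pr_scaleT 2809 1000000 h1))))))))))))))⟩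
noncomputable def gug_sf : Sl1 gug := ⟨_, fun h1 => (pr_norm (pr_add (pr_scaleT 3 4 h1) (pr_scaleT 3 2 (pr_csub (enc_pnc _ 1) (gsg_sf.snd h1)))))⟩
noncomputable def kug_2_sf : Sl1 kug_2 := ⟨_, fun h1 => (pr_sq h1)⟩
noncomputable def kug_sf : Sl1 kug := ⟨_, fun h1 => (pr_norm (pr_add (pr_add (pr_scaleT 3 4 h1) (pr_scaleT 3 2 (kug_2_sf.snd h1))) (pr_mul (pr_norm (pr_mul (pr_nd (pr_scaleT 3 4 (kug_2_sf.snd h1))) (pr_nd (pr_inv (gsg_sf.snd h1))))) (gug_sf.snd h1))))⟩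
noncomputable def kp0q0_8_sf : Sl2 kp0q0_8 := ⟨_, fun h1 h2 => (pr_sub (pr_scaleT 3 4 h1) (pr_half (c1g_sf.snd h1)))⟩
noncomputable def kp0q0_sf : Sl2 kp0q0 := ⟨_, fun h1 h2 => (pr_norm (pr_case (pr_addc (kp0q0_8_sf.snd h1 h2) (enc_rat _ 2773 5677)) (pr_mul h1 (pr_norm (pr_case (pr_addc (kp0q0_8_sf.snd h1 h2) (enc_rat _ 11223 22708)) (pr_add (pr_csub (enc_rat _ 52253709 262000000) (pr_scaleT 4433737 204687500 (kp0q0_8_sf.snd h1 h2))) (pr_cmul (enc_norm (kp0q0_3.enc h1.l h2)) (pr_norm (pr_subr 91994073 1310000000 (pr_neg (pr_scaleT 403067 2620000 (kp0q0_8_sf.snd h1 h2))))))) (pr_add (pr_csub (enc_rat _ 65222896719 327500000000) (pr_scaleT 1821164569 81875000000 (kp0q0_8_sf.snd h1 h2))) (pr_cmul (enc_norm (kp0q0_3.enc h1.l h2)) (pr_norm (pr_subr 98527621011 1310000000000 (pr_neg (pr_scaleT 53688280289 327500000000 (kp0q0_8_sf.snd h1 h2)))))))))) (pr_case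 (pr_addc (kp0q0_8_sf.snd h1 h2) (enc_rat _ 299 662)) (pr_sub (kug_sf.snd h1) (pr_mul h1 (pr_norm (pr_mul (kcg_sf.snd (pr_norm (kp0q0_8_sf.snd h1 h2)) h2) (pr_norm (pr_add (gug_sf.snd h1) (pr_nat 2 (c1g_sf.snd h1)))))))) (pr_mul h1 (pr_norm (pr_case (pr_subr 8 331 (kp0q0_8_sf.snd h1 h2)) (pr_case (pr_addc (kp0q0_8_sf.snd h1 h2) (enc_rat _ 283 1324)) (pr_add (pr_csub (enc_rat _ 15858782407 525000000000) (pr_scaleT 154617322751 131250000000 (kp0q0_8_sf.snd h1 h2))) (pr_cmul (enc_norm (kp0q0_3.enc h1.l h2)) (pr_norm (pr_subr 2558374531003 1050000000000 (pr_neg (pr_scaleT 1382327774371 262500000000 (kp0q0_8_sf.snd h1 h2))))))) (pr_add (pr_csub (enc_rat _ 2520127 82031250) (pr_scaleT 3086029843 2625000000 (kp0q0_8_sf.snd h1 h2))) (pr_cmul (enc_norm (kp0q0_3.enc h1.l h2)) (pr_norm (pr_subr 1866893731 787500000 (pr_neg (pr_scaleT 3904232053 787500000 (kp0q0_8_sf.snd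 h1 h2)))))))) (pr_case (pr_subr 347 1324 (kp0q0_8_sf.snd h1 h2)) (pr_add (pr_csub (enc_rat _ 238543 7812500) (pr_scaleT 145981261 125000000 (kp0q0_8_sf.snd h1 h2))) (pr_cmul (enc_norm (kp0q0_3.enc h1.l h2)) (pr_norm (pr_subr 1883635739 787500000 (pr_neg (pr_scaleT 200720717 49218750 (kp0q0_8_sf.snd h1 h2))))))) (pr_add (pr_subr 7146077 22500000 (pr_scaleT 36109783 225000000 (kp0q0_8_sf.snd h1 h2))) (pr_cmul (enc_norm (kp0q0_3.enc h1.l h2)) (pr_norm (pr_subr 441837283 126000000 (pr_scaleT 27589843 157500000 (kp0q0_8_sf.snd h1 h2)))))))))))))⟩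
noncomputable def kn0q0_sf : Sl2 kn0q0 := ⟨_, fun h1 h2 => (pr_norm (pr_add (pr_cmul (enc_norm (enc_add (enc_pnc _ 1) (enc_mul (mug3.enc h2) (gug.enc h2)))) (kf0q0_sf.snd h1 h2)) (pr_cmul (mug3.enc h2) (kp0q0_sf.snd h1 h2))))⟩
noncomputable def bd1q0_sf : Sl2 bd1q0 := ⟨_, fun h1 h2 => (pr_norm (pr_case (pr_subr 1 5 h1) (pr_case (pr_subr 1 10 h1) (pr_sub (pr_scaleT 23 10000000 h1) (pr_cmul (enc_norm (bd1q0_3.enc h1.l h2)) (pr_nd (pr_scaleT 19 1000000 h1)))) (pr_add (pr_addc (pr_scaleT 9 10000000 h1) (enc_rat _ 7 50000000)) (pr_cmul (enc_norm (bd1q0_3.enc h1.l h2)) (pr_norm (pr_subr 1 500000 (pr_scaleT 1 1000000 h1)))))) (pr_case (pr_subr 7 20 h1) (pr_add (pr_addc (pr_scaleT 1 2500000 h1) (enc_rat _ 3 12500000)) (pr_cmul (enc_norm (bd1q0_3.enc h1.l h2)) (pr_norm (pr_subr 7 3000000 (pr_scaleT 1 375000 h1))))) (pr_add (pr_addc (pr_scaleT 1 5000000 h1) (enc_rat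 _ 31 100000000)) (pr_cmul (enc_norm (bd1q0_3.enc h1.l h2)) (pr_norm (pr_subr 49 30000000 (pr_scaleT 1 1500000 h1))))))))⟩
noncomputable def kp1q0_sf : Sl2 kp1q0 := ⟨_, fun h1 h2 => (pr_norm (pr_mul (cv1m_sf.snd h1) (bd1q0_sf.snd h1 h2)))⟩
noncomputable def kn1q0_sf : Sl2 kn1q0 := ⟨_, fun h1 h2 => (pr_norm (pr_add (pr_cmul (enc_norm (enc_add (enc_pnc _ 1) (enc_mul (mug3.enc h2) (gug.enc h2)))) (kf1q0_sf.snd h1 h2)) (pr_cmul (mug3.enc h2) (kp1q0_sf.snd h1 h2))))⟩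
noncomputable def bd2q0_sf : Sl2 bd2q0 := ⟨_, fun h1 h2 => (pr_norm (pr_case (pr_subr 1 5 h1) (pr_case (pr_subr 1 10 h1) (pr_scaleT 1 1250000 h1) (pr_add (pr_addc (pr_scaleT 7 10000000 h1) (enc_rat _ 1 100000000)) (pr_cmul (enc_norm (bd2q0_3.enc h1.l h2)) (pr_norm (pr_csub (enc_rat _ 3 5000000) (pr_scaleT 3 500000 h1)))))) (pr_case (pr_subr 7 20 h1) (pr_add (pr_addc (pr_scaleT 1 1500000 h1) (enc_rat _ 1 60000000)) (pr_cmul (enc_norm (bd2q0_3.enc h1.l h2)) (pr_norm (pr_csub (enc_rat _ 7 15000000) (pr_scaleT 1 187500 h1))))) (pr_add (pr_addc (pr_scaleT 1 3000000 h1) (enc_rat _ 1 7500000)) (pr_cmul (enc_norm (bd2q0_3.enc h1.l h2)) (pr_norm (pr_subr 7 10000000 (pr_neg (pr_scaleT 1 500000 h1)))))))))⟩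
noncomputable def kp2q0_sf : Sl2 kp2q0 := ⟨_, fun h1 h2 => (pr_norm (pr_mul (cv2m_sf.snd h1) (bd2q0_sf.snd h1 h2)))⟩
noncomputable def kn2q0_sf : Sl2 kn2q0 := ⟨_, fun h1 h2 => (pr_norm (pr_add (pr_cmul (enc_norm (enc_add (enc_pnc _ 1) (enc_mul (mug3.enc h2) (gug.enc h2)))) (kf2q0_sf.snd h1 h2)) (pr_cmul (mug3.enc h2) (kp2q0_sf.snd h1 h2))))⟩
noncomputable def kp0q1_9_sf : Sl2 kp0q1_9 := ⟨_, fun h1 h2 => (pr_sub (pr_scaleT 3 4 h1) (pr_half (c1g_sf.snd h1)))⟩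
noncomputable def kp0q1_sf : Sl2 kp0q1 := ⟨_, fun h1 h2 => (pr_norm (pr_mul (pr_norm (pr_subn 1 h1)) (pr_norm (pr_case (pr_subr 8 331 (kp0q1_9_sf.snd h1 h2)) (pr_case (pr_addc (kp0q1_9_sf.snd h1 h2) (enc_rat _ 283 1324)) (pr_add (pr_csub (enc_rat _ 15858782407 525000000000) (pr_scaleT 154617322751 131250000000 (kp0q1_9_sf.snd h1 h2))) (pr_cmul (enc_norm (kp0q1_3.enc h1.l h2)) (pr_norm (pr_subr 2558374531003 1050000000000 (pr_neg (pr_scaleT 1382327774371 262500000000 (kp0q1_9_sf.snd h1 h2))))))) (pr_add (pr_csub (enc_rat _ 2520127 82031250) (pr_scaleT 3086029843 2625000000 (kp0q1_9_sf.snd h1 h2))) (pr_cmul (enc_norm (kp0q1_3.enc h1.l h2)) (pr_norm (pr_subr 1866893731 787500000 (pr_neg (pr_scaleT 3904232053 787500000 (kp0q1_9_sf.snd h1 h2)))))))) (pr_case (pr_subr 347 1324 (kp0q1_9_sf.snd h1 h2)) (pr_add (pr_csub (enc_rat _ 238543 7812500) (pr_scaleT 145981261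 125000000 (kp0q1_9_sf.snd h1 h2))) (pr_cmul (enc_norm (kp0q1_3.enc h1.l h2)) (pr_norm (pr_subr 1883635739 787500000 (pr_neg (pr_scaleT 200720717 49218750 (kp0q1_9_sf.snd h1 h2))))))) (pr_add (pr_subr 7146077 22500000 (pr_scaleT 36109783 225000000 (kp0q1_9_sf.snd h1 h2))) (pr_cmul (enc_norm (kp0q1_3.enc h1.l h2)) (pr_norm (pr_subr 441837283 126000000 (pr_scaleT 27589843 157500000 (kp0q1_9_sf.snd h1 h2)))))))))))⟩
noncomputable def kn0q1_sf : Sl2 kn0q1 := ⟨_, fun h1 h2 => (pr_norm (pr_add (pr_cmul (enc_norm (enc_add (enc_pnc _ 1) (enc_mul (mug3.enc h2) (gug.enc h2)))) (kf0q1_sf.snd h1 h2)) (pr_cmul (mug3.enc h2) (kp0q1_sf.snd h1 h2))))⟩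
noncomputable def kp2q2_100_sf : Sl2 kp2q2_100 := ⟨_, fun h1 h2 => (pr_subn 1 h1)⟩
noncomputable def kp2q2_101_sf : Sl2 kp2q2_101 := ⟨_, fun h1 h2 => (gsg_sf.snd (pr_norm (kp2q2_100_sf.snd h1 h2)))⟩
noncomputable def kp2q2_105_sf : Sl2 kp2q2_105 := ⟨_, fun h1 h2 => (esg_sf.snd (pr_norm (kp2q2_100_sf.snd h1 h2)))⟩
noncomputable def kp2q2_113_sf : Sl2 kp2q2_113 := ⟨_, fun h1 h2 => (pr_mul (pr_nd (pr_scaleT 3 4 (pr_sq (pr_norm (kp2q2_100_sf.snd h1 h2))))) (pr_nd (pr_inv (kp2q2_101_sf.snd h1 h2))))⟩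
noncomputable def kp2q2_sf : Sl2 kp2q2 := ⟨_, fun h1 h2 => (pr_norm (pr_case (pr_subr 65 64 h1) (pr_mul (cv2p_sf.snd h1) (pr_norm (pr_case (pr_subr 251 250 h1) (pr_add (pr_subr 10589 50000 (pr_scaleT 10589 50000 h1)) (pr_cmul (enc_norm (kp2q2_4.enc h1.l h2)) (pr_norm (pr_subr 41 10000 (pr_scaleT 41 10000 h1))))) (pr_case (pr_subr 403 400 h1) (pr_add (pr_subr 18691641 87500000 (pr_scaleT 18691 87500 h1)) (pr_cmul (enc_norm (kp2q2_4.enc h1.l h2)) (pr_norm (pr_csub (enc_rat _ 15347 17500000) (pr_scaleT 3 3500 h1))))) (pr_add (pr_subr 546176269 2500000000 (pr_scaleT 17747199 81250000 h1)) (pr_cmul (enc_norm (kp2q2_4.enc h1.l h2)) (pr_norm (pr_subr 1708439 250000000 (pr_scaleT 55219 8125000 h1))))))))) (pr_case (pr_subr 17 16 h1) (pr_add (pr_sub (kug_sf.snd (pr_norm (kp2q2_100_sf.snd h1 h2))) (pr_wS (pr_mul (pr_norm (pr_sub (pr_mul (pr_norm (pr_mul (pr_norm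 (kp2q2_113_sf.snd h1 h2)) (pr_norm (pr_subn 3 (pr_nat 4 (kp2q2_101_sf.snd h1 h2)))))) (kp2q2_105_sf.snd h1 h2)) (pr_mul (qsg_sf.snd (pr_norm (kp2q2_100_sf.snd h1 h2))) (pr_norm (pr_sub (pr_half (kp2q2_100_sf.snd h1 h2)) (kp2q2_113_sf.snd h1 h2)))))) (pr_nd (pr_inv (pr_mul (pr_nd (pr_nat 2 (kp2q2_105_sf.snd h1 h2))) (kp2q2_105_sf.snd h1 h2))))) (kp2q2_100_sf.snd h1 h2) (kp2q2_101_sf.snd h1 h2) (kp2q2_105_sf.snd h1 h2) rfl rfl rfl rfl rfl rfl rfl rfl)) (pr_mul (pr_norm (pr_mul (pr_norm (kp2q2_100_sf.snd h1 h2)) (kcg_sf.snd (pr_norm (pr_sub (pr_scaleT 3 4 (kp2q2_100_sf.snd h1 h2)) (pr_half (kp2q2_101_sf.snd h1 h2)))) h2))) (pr_norm (pr_sub (pr_csub (enc_pnc _ 1) (gug_sf.snd (pr_norm (kp2q2_100_sf.snd h1 h2)))) (pr_nat 2 (kp2q2_101_sf.snd h1 h2)))))) (pr_mul (cv2p_sf.snd h1) (pr_norm (pr_case (pr_subr 23 20 h1) (pr_case (pr_subr 217 200 h1) (pr_add (pr_addc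 (pr_scaleT 23 37500000 h1) (enc_rat _ 33884123 937500000)) (pr_cmul (enc_norm (kp2q2_4.enc h1.l h2)) (pr_norm (pr_subr 103421 28125000 (pr_scaleT 23 2250000 h1))))) (pr_casec1 (pr_subr 9 8 h1) (enc_sub (enc_rat _ 3614373 100000000) (kp2q2_61.enc h1.l h2)) (pr_subc (pr_addc (pr_scaleT 1 2500000 h1) (enc_rat _ 451791 12500000)) (kp2q2_61.enc h1.l h2)))) (pr_case (pr_subr 13 10 h1) (pr_casec (pr_subr 59 50 h1) (pr_cadd (enc_rat _ 1807187 50000000) (pr_cmul (enc_norm (kp2q2_4.enc h1.l h2)) (pr_norm (pr_subr 55049 15000000 (pr_scaleT 1 300000 h1))))) (enc_sub (enc_rat _ 1807187 50000000) (kp2q2_83.enc h1.l h2))) (pr_casec (pr_subr 27 20 h1) (pr_subc (pr_csub (enc_rat _ 2259 62500) (pr_scaleT 1 5000000 h1)) (kp2q2_83.enc h1.l h2)) (enc_sub (enc_rat _ 3614373 100000000) (kp2q2_83.enc h1.l h2))))))))))⟩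
noncomputable def kn2q2_sf : Sl2 kn2q2 := ⟨_, fun h1 h2 => (pr_norm (pr_add (pr_cmul (enc_norm (enc_add (enc_pnc _ 1) (enc_mul (mug3.enc h2) (gug.enc h2)))) (kf2q2_sf.snd h1 h2)) (pr_cmul (mug3.enc h2) (kp2q2_sf.snd h1 h2))))⟩
noncomputable def dlg : Fn2 := ⟨_, _, fun h1 h2 => (kcg.enc (enc_norm (enc_sub (enc_scaleT 3 4 h1) (enc_half (c1g.enc h1)))) h2)⟩

end Pool.Agent.Strip051.G.I1_32_3_64.Tab
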