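import Pool.Agent.Strip051.G.I1_32_3_64.Tab
import Pool.Agent.Strip051.PB.C12G
import Pool.Agent.Strip051.PB.PairS

/-! # Slopes of the tables near the lattice heights (generated) -/

set_option linter.all false

namespace Pool.Agent.Strip051.G.I1_32_3_64.Tab

open Pool.Agent.Strip051.PB

attribute [local irreducible] padd psub pneg pmul psq pinv psqrt psqrtg pabs pps pmax pmin pphi plam
  pcase phf pnat prat pscale pnorm pdc pnc pone ppos pnn Enc pbad pzero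

noncomputable def idf_s : Sl1 idf := ⟨fun _ _ D => D, fun h => h⟩

noncomputable def c1g_s : Sl1 c1g := ⟨_, fun h1 => (pr_sqrtgz (pr_csub (enc_pnc _ 1) (pr_scaleT 3 4 (pr_sq h1))))⟩
noncomputable def kcg_6_s : Sl2 kcg_6 := ⟨_, fun h1 h2 => (pr_addc h1 (enc_rat _ 27 100))⟩
noncomputable def kcg_9_s : Sl2 kcg_9 := ⟨_, fun h1 h2 => (pr_addc h1 (enc_rat _ 299 662))⟩
noncomputable def kcg_12_s : Sl2 kcg_12 := ⟨_, fun h1 h2 => (pr_addc h1 (enc_rat _ 2773 5677))⟩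
noncomputable def kcg_13_s : Sl2 kcg_13 := ⟨_, fun h1 h2 => (pr_scaleT 39192355993 6550000000 h1)⟩
noncomputable def kcg_18_s : Sl2 kcg_18 := ⟨_, fun h1 h2 => (pr_scaleT 6545581 655000000 h1)⟩
noncomputable def kcg_39_s : Sl2 kcg_39 := ⟨_, fun h1 h2 => (pr_scaleT 13208228421829 3457575000000 h1)⟩
noncomputable def kcg_44_s : Sl2 kcg_44 := ⟨_, fun h1 h2 => (pr_scaleT 38583293371 46101000000 h1)⟩
noncomputable def kcg_61_s : Sl2 kcg_61 := ⟨_, fun h1 h2 => (pr_addc h1 (enc_rat _ 33 100))⟩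
noncomputable def kcg_62_s : Sl2 kcg_62 := ⟨_, fun h1 h2 => (pr_scaleT 19133683059 4027000000 h1)⟩
noncomputable def kcg_67_s : Sl2 kcg_67 := ⟨_, fun h1 h2 => (pr_scaleT 5191073 201350000 h1)⟩
noncomputable def kcg_81_s : Sl2 kcg_81 := ⟨_, fun h1 h2 => (pr_scaleT 74371 15625 h1)⟩
noncomputable def kcg_86_s : Sl2 kcg_86 := ⟨_, fun h1 h2 => (pr_scaleT 144727 600000 h1)⟩
noncomputable def kcg_108_s : Sl2 kcg_108 := ⟨_, fun h1 h2 => (pr_addc h1 (enc_rat _ 3 20))⟩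
noncomputable def kcg_111_s : Sl2 kcg_111 := ⟨_, fun h1 h2 => (pr_addc h1 (enc_rat _ 21 100))⟩
noncomputable def kcg_112_s : Sl2 kcg_112 := ⟨_, fun h1 h2 => (pr_scaleT 2402269 3000000 h1)⟩
noncomputable def kcg_116_s : Sl2 kcg_116 := ⟨_, fun h1 h2 => (pr_scaleT 6077 600000 h1)⟩
noncomputable def kcg_131_s : Sl2 kcg_131 := ⟨_, fun h1 h2 => (pr_scaleT 5740131 1000000 h1)⟩
noncomputable def kcg_134_s : Sl2 kcg_134 := ⟨_, fun h1 h2 => (pr_scaleT 19651 150000 h1)⟩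
noncomputable def kcg_156_s : Sl2 kcg_156 := ⟨_, fun h1 h2 => (pr_scaleT 33242567 8750000 h1)⟩
noncomputable def kcg_159_s : Sl2 kcg_159 := ⟨_, fun h1 h2 => (pr_scaleT 4189 109375 h1)⟩
noncomputable def kcg_176_s : Sl2 kcg_176 := ⟨_, fun h1 h2 => (pr_scaleT 60451 6250000 h1)⟩
noncomputable def kcg_180_s : Sl2 kcg_180 := ⟨_, fun h1 h2 => (pr_cmul (enc_norm (kcg_3.enc h1.l h2)) (pr_nd (pr_scaleT 1047 62500 h1)))⟩
noncomputable def kcg_186_s : Sl2 kcg_186 := ⟨_, fun h1 h2 => (pr_csub (enc_rat _ 27 100) h1)⟩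
noncomputable def kcg_187_s : Sl2 kcg_187 := ⟨_, fun h1 h2 => (pr_csub (enc_rat _ 299 662) h1)⟩
noncomputable def kcg_188_s : Sl2 kcg_188 := ⟨_, fun h1 h2 => (pr_csub (enc_rat _ 2773 5677) h1)⟩
noncomputable def kcg_208_s : Sl2 kcg_208 := ⟨_, fun h1 h2 => (pr_csub (enc_rat _ 33 100) h1)⟩
noncomputable def kcg_227_s : Sl2 kcg_227 := ⟨_, fun h1 h2 => (pr_csub (enc_rat _ 3 20) h1)⟩
noncomputable def kcg_228_s : Sl2 kcg_228 := ⟨_, fun h1 h2 => (pr_csub (enc_rat _ 21 100) h1)⟩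
noncomputable def kcg_s : Sl2 kcg := ⟨_, fun h1 h2 => (pr_norm (pr_case h1 (pr_case (kcg_6_s.snd h1 h2) (pr_case (kcg_9_s.snd h1 h2) (pr_case (kcg_12_s.snd h1 h2) (pr_add (pr_add (pr_subr 34620645157 13100000000 (pr_neg (kcg_13_s.snd h1 h2))) (pr_cmul (enc_norm (kcg_3.enc h1.l h2)) (pr_norm (pr_subr 9561987 1310000000 (pr_neg (kcg_18_s.snd h1 h2)))))) (pr_cmul (enc_norm (kcg_31.enc h1.l h2)) (pr_norm (pr_mul (pr_norm (pr_addc h1 (enc_rat _ 1 2))) (pr_norm (pr_csub (enc_neg (enc_rat _ 2773 5677)) h1)))))) (pr_add (pr_add (pr_subr 21935110770643 13830300000000 (pr_neg (kcg_39_s.snd h1 h2))) (pr_cmul (enc_norm (kcg_3.enc h1.l h2)) (pr_norm (pr_addc (kcg_44_s.snd h1 h2) (enc_rat _ 187350133711 461010000000))))) (pr_cmul (enc_norm (kcg_53.enc h1.l h2)) (pr_norm (pr_mul (pr_norm (kcg_12_s.snd h1 h2)) (pr_norm (pr_csub (enc_neg (enc_rat _ 299 662)) h1))))))) (pr_case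 (kcg_61_s.snd h1 h2) (pr_add (pr_add (pr_subr 808071907299 402700000000 (pr_neg (kcg_62_s.snd h1 h2))) (pr_cmul (enc_norm (kcg_3.enc h1.l h2)) (pr_norm (pr_csub (enc_rat _ 168501333 10067500000) (kcg_67_s.snd h1 h2))))) (pr_cmul (enc_norm (kcg_76.enc h1.l h2)) (pr_norm (pr_mul (pr_norm (kcg_9_s.snd h1 h2)) (pr_norm (pr_csub (enc_neg (enc_rat _ 33 100)) h1)))))) (pr_add (pr_add (pr_subr 12558783 6250000 (pr_neg (kcg_81_s.snd h1 h2))) (pr_cmul (enc_norm (kcg_3.enc h1.l h2)) (pr_norm (pr_subr 1087097 20000000 (pr_neg (kcg_86_s.snd h1 h2)))))) (pr_cmul (enc_norm (kcg_99.enc h1.l h2)) (pr_norm (pr_mul (pr_norm (kcg_61_s.snd h1 h2)) (pr_norm (pr_csub (enc_neg (enc_rat _ 27 100)) h1)))))))) (pr_case (kcg_108_s.snd h1 h2) (pr_case (kcg_111_s.snd h1 h2) (pr_add (pr_add (pr_subr 50807019 100000000 (kcg_112_s.snd h1 h2)) (pr_cmul (enc_norm (kcg_3.enc h1.l h2)) (pr_norm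 (pr_csub (enc_rat _ 160753 20000000) (kcg_116_s.snd h1 h2))))) (pr_cmul (enc_norm (kcg_126.enc h1.l h2)) (pr_norm (pr_mul (pr_norm (kcg_6_s.snd h1 h2)) (pr_norm (pr_csub (enc_neg (enc_rat _ 21 100)) h1)))))) (pr_add (pr_add (pr_addc (kcg_131_s.snd h1 h2) (enc_rat _ 52919849 100000000)) (pr_cmul (enc_norm (kcg_3.enc h1.l h2)) (pr_norm (pr_subr 43367 2500000 (pr_neg (kcg_134_s.snd h1 h2)))))) (pr_cmul (enc_norm (kcg_147.enc h1.l h2)) (pr_norm (pr_mul (pr_norm (kcg_111_s.snd h1 h2)) (pr_norm (pr_csub (enc_neg (enc_rat _ 3 20)) h1))))))) (pr_case (pr_addc h1 (enc_rat _ 1 16)) (pr_add (pr_add (pr_addc (kcg_156_s.snd h1 h2) (enc_rat _ 20829499 87500000)) (pr_cmul (enc_norm (kcg_3.enc h1.l h2)) (pr_norm (pr_subr 4817 1400000 (pr_neg (kcg_159_s.snd h1 h2)))))) (pr_cmul (enc_norm (kcg_171.enc h1.l h2)) (pr_norm (pr_mul (pr_norm (kcg_108_s.snd h1 h2)) (pr_norm (pr_csub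 (enc_neg (enc_rat _ 1 16)) h1)))))) (pr_sub (kcg_180_s.snd h1 h2) (kcg_176_s.snd h1 h2))))) (pr_neg (pr_case (kcg_186_s.snd h1 h2) (pr_case (kcg_187_s.snd h1 h2) (pr_case (kcg_188_s.snd h1 h2) (pr_add (pr_add (pr_subr 34620645157 13100000000 (kcg_13_s.snd h1 h2)) (pr_cmul (enc_norm (kcg_3.enc h1.l h2)) (pr_norm (pr_subr 9561987 1310000000 (kcg_18_s.snd h1 h2))))) (pr_cmul (enc_norm (kcg_31.enc h1.l h2)) (pr_norm (pr_mul (pr_norm (pr_csub (enc_rat _ 1 2) h1)) (pr_norm (pr_subr 2773 5677 h1)))))) (pr_add (pr_add (pr_subr 21935110770643 13830300000000 (kcg_39_s.snd h1 h2)) (pr_cmul (enc_norm (kcg_3.enc h1.l h2)) (pr_norm (pr_csub (enc_rat _ 187350133711 461010000000) (kcg_44_s.snd h1 h2))))) (pr_cmul (enc_norm (kcg_53.enc h1.l h2)) (pr_norm (pr_mul (pr_norm (kcg_188_s.snd h1 h2)) (pr_norm (pr_subr 299 662 h1))))))) (pr_case (kcg_208_s.snd h1 h2) (pr_add (pr_add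 (pr_subr 808071907299 402700000000 (kcg_62_s.snd h1 h2)) (pr_cmul (enc_norm (kcg_3.enc h1.l h2)) (pr_norm (pr_addc (kcg_67_s.snd h1 h2) (enc_rat _ 168501333 10067500000))))) (pr_cmul (enc_norm (kcg_76.enc h1.l h2)) (pr_norm (pr_mul (pr_norm (kcg_187_s.snd h1 h2)) (pr_norm (pr_subr 33 100 h1)))))) (pr_add (pr_add (pr_subr 12558783 6250000 (kcg_81_s.snd h1 h2)) (pr_cmul (enc_norm (kcg_3.enc h1.l h2)) (pr_norm (pr_subr 1087097 20000000 (kcg_86_s.snd h1 h2))))) (pr_cmul (enc_norm (kcg_99.enc h1.l h2)) (pr_norm (pr_mul (pr_norm (kcg_208_s.snd h1 h2)) (pr_norm (pr_subr 27 100 h1)))))))) (pr_case (kcg_227_s.snd h1 h2) (pr_case (kcg_228_s.snd h1 h2) (pr_add (pr_add (pr_subr 50807019 100000000 (pr_neg (kcg_112_s.snd h1 h2))) (pr_cmul (enc_norm (kcg_3.enc h1.l h2)) (pr_norm (pr_addc (kcg_116_s.snd h1 h2) (enc_rat _ 160753 20000000))))) (pr_cmul (enc_norm (kcg_126.enc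 h1.l h2)) (pr_norm (pr_mul (pr_norm (kcg_186_s.snd h1 h2)) (pr_norm (pr_subr 21 100 h1)))))) (pr_add (pr_add (pr_csub (enc_rat _ 52919849 100000000) (kcg_131_s.snd h1 h2)) (pr_cmul (enc_norm (kcg_3.enc h1.l h2)) (pr_norm (pr_subr 43367 2500000 (kcg_134_s.snd h1 h2))))) (pr_cmul (enc_norm (kcg_147.enc h1.l h2)) (pr_norm (pr_mul (pr_norm (kcg_228_s.snd h1 h2)) (pr_norm (pr_subr 3 20 h1))))))) (pr_case (pr_csub (enc_rat _ 1 16) h1) (pr_add (pr_add (pr_csub (enc_rat _ 20829499 87500000) (kcg_156_s.snd h1 h2)) (pr_cmul (enc_norm (kcg_3.enc h1.l h2)) (pr_norm (pr_subr 4817 1400000 (kcg_159_s.snd h1 h2))))) (pr_cmul (enc_norm (kcg_171.enc h1.l h2)) (pr_norm (pr_mul (pr_norm (kcg_227_s.snd h1 h2)) (pr_norm (pr_subr 1 16 h1)))))) (pr_sub (kcg_176_s.snd h1 h2) (kcg_180_s.snd h1 h2))))))))⟩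
noncomputable def kf0q0_9_s : Sl2 kf0q0_9 := ⟨_, fun h1 h2 => (pr_scaleT 3 2 h1)⟩
noncomputable def kf0q0_12_s : Sl2 kf0q0_12 := ⟨_, fun h1 h2 => (pr_cadd (enc_pnc _ 1) (c1g_s.snd h1))⟩
noncomputable def kf0q0_s : Sl2 kf0q0 := ⟨_, fun h1 h2 => (pr_norm (pr_add (pr_mul (pr_norm (pr_mul (pr_norm (pr_sub (c1g_s.snd h1) (kf0q0_9_s.snd h1 h2))) (pr_norm (kf0q0_12_s.snd h1 h2)))) (pr_nd (pr_inv (pr_sub (kf0q0_12_s.snd h1 h2) (kf0q0_9_s.snd h1 h2))))) (pr_mul h1 (kcg_s.snd (pr_norm (pr_sub (pr_scaleT 3 4 h1) (pr_half (c1g_s.snd h1)))) h2))))⟩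
noncomputable def txg_6_s : Sl3 txg_6 := ⟨_, fun h1 h2 h3 => (pr_add h1 (pr_half h2))⟩
noncomputable def txg_27_s : Sl3 txg_27 := ⟨_, fun h1 h2 h3 => (pr_addc h1 (enc_rat _ 49 100))⟩
noncomputable def txg_75_s : Sl3 txg_75 := ⟨_, fun h1 h2 h3 => (pr_addc h1 (enc_rat _ 299 662))⟩
noncomputable def txg_77_s : Sl3 txg_77 := ⟨_, fun h1 h2 h3 => (pr_subr 1 16 h1)⟩
noncomputable def txg_80_s : Sl3 txg_80 := ⟨_, fun h1 h2 h3 => (pr_addc h1 (enc_rat _ 11 50))⟩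
noncomputable def txg_83_s : Sl3 txg_83 := ⟨_, fun h1 h2 h3 => (pr_addc h1 (enc_rat _ 33 100))⟩
noncomputable def txg_86_s : Sl3 txg_86 := ⟨_, fun h1 h2 h3 => (pr_addc h1 (enc_rat _ 9 25))⟩
noncomputable def txg_136_s : Sl3 txg_136 := ⟨_, fun h1 h2 h3 => (pr_addc h1 (enc_rat _ 3 10))⟩
noncomputable def txg_155_s : Sl3 txg_155 := ⟨_, fun h1 h2 h3 => (pr_addc h1 (enc_rat _ 13 50))⟩
noncomputable def txg_199_s : Sl3 txg_199 := ⟨_, fun h1 h2 h3 => (pr_addc h1 (enc_rat _ 7 50))⟩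
noncomputable def txg_202_s : Sl3 txg_202 := ⟨_, fun h1 h2 h3 => (pr_addc h1 (enc_rat _ 9 50))⟩
noncomputable def txg_244_s : Sl3 txg_244 := ⟨_, fun h1 h2 h3 => (pr_addc h1 (enc_rat _ 1 10))⟩
noncomputable def txg_266_s : Sl3 txg_266 := ⟨_, fun h1 h2 h3 => (pr_addc h1 (enc_rat _ 1 16))⟩
noncomputable def txg_311_s : Sl3 txg_311 := ⟨_, fun h1 h2 h3 => (pr_subr 13 50 h1)⟩
noncomputable def txg_312_s : Sl3 txg_312 := ⟨_, fun h1 h2 h3 => (pr_subr 7 50 h1)⟩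
noncomputable def txg_313_s : Sl3 txg_313 := ⟨_, fun h1 h2 h3 => (pr_subr 1 10 h1)⟩
noncomputable def txg_354_s : Sl3 txg_354 := ⟨_, fun h1 h2 h3 => (pr_subr 9 50 h1)⟩
noncomputable def txg_376_s : Sl3 txg_376 := ⟨_, fun h1 h2 h3 => (pr_subr 11 50 h1)⟩
noncomputable def txg_421_s : Sl3 txg_421 := ⟨_, fun h1 h2 h3 => (pr_subr 19 50 h1)⟩
noncomputable def txg_422_s : Sl3 txg_422 := ⟨_, fun h1 h2 h3 => (pr_subr 3 10 h1)⟩
noncomputable def txg_442_s : Sl3 txg_442 := ⟨_, fun h1 h2 h3 => (pr_subr 17 50 h1)⟩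
noncomputable def txg_485_s : Sl3 txg_485 := ⟨_, fun h1 h2 h3 => (pr_subr 21 50 h1)⟩
noncomputable def txg_507_s : Sl3 txg_507 := ⟨_, fun h1 h2 h3 => (pr_subr 227 500 h1)⟩
noncomputable def txg_s : Sl3 txg := ⟨_, fun h1 h2 h3 => (pr_case (pr_addc h1 (enc_rat _ 2773 5677)) (pr_case (txg_27_s.snd h1 h2 h3) (pr_add (pr_add (pr_addc (pr_scaleT 16341 1000000 h1) (enc_rat _ 16341 2000000)) (pr_cmul (enc_norm (txg_4.enc h1.l h2.l h3)) (pr_norm (pr_addc (pr_scaleT 947 2500 h1) (enc_rat _ 947 5000))))) (pr_cmul (enc_norm (enc_subr 1613 50000 (enc_scaleT 357387 50000 (txg_4.enc h1.l h2.l h3)))) (pr_norm (pr_mul (pr_norm (pr_addc h1 (enc_rat _ 1 2))) (pr_norm (pr_csub (enc_neg (enc_rat _ 49 100)) h1)))))) (pr_add (pr_add (pr_add (pr_addc (pr_scaleT 5222014035733 317185344000000 h1) (enc_rat _ 37294544779603 4531219200000000)) (pr_cmul (enc_norm (txg_4.enc h1.l h2.l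 h3)) (pr_norm (pr_addc (pr_scaleT 46617824670923 158592672000000 h1) (enc_rat _ 334906901861261 2265609600000000))))) (pr_cmul (txg_61.enc h1.l h2.l h3) (pr_norm (pr_subr 50945153 4365000000 (pr_neg (pr_scaleT 1039697 43650000 h1)))))) (pr_cmul (enc_norm (enc_add (enc_scaleT 434611 50000 (txg_4.enc h1.l h2.l h3)) (enc_rat _ 130357 1000000))) (pr_norm (pr_mul (pr_norm (txg_27_s.snd h1 h2 h3)) (pr_norm (pr_csub (enc_neg (enc_rat _ 2773 5677)) h1))))))) (pr_case (txg_75_s.snd h1 h2 h3) (pr_sub (pr_mul (pr_norm (pr_csub (enc_pnc _ 1) h2)) (pr_norm (pr_subn 1 (pr_nat 2 h2)))) (pr_mul (pr_norm (pr_nat 2 (pr_subc (pr_scaleT 4 3 (txg_6_s.snd h1 h2 h3)) h3))) (pr_norm (pr_mul (pr_norm (pr_subn 1 (pr_add (pr_scaleT 2 3 (txg_6_s.snd h1 h2 h3)) h2))) (kcg_s.snd h1 h3))))) (pr_case (txg_77_s.snd h1 h2 h3) (pr_case (txg_80_s.snd h1 h2 h3) (pr_case (txg_83_s.snd h1 h2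 h3) (pr_case (txg_86_s.snd h1 h2 h3) (pr_add (pr_add (pr_add (pr_addc (pr_scaleT 2657713754549 32136128000000 h1) (enc_rat _ 6210932905801 160680640000000)) (pr_cmul (enc_norm (txg_4.enc h1.l h2.l h3)) (pr_norm (pr_subr 347834913121 10042540000000 (pr_neg (pr_scaleT 38257222539 401701600000 h1)))))) (pr_cmul (txg_61.enc h1.l h2.l h3) (pr_norm (pr_subr 319293 47406250 (pr_neg (pr_scaleT 35477 1896250 h1)))))) (pr_cmul (enc_norm (enc_subr 180129 500000 (enc_scaleT 6449 5000 (txg_4.enc h1.l h2.l h3)))) (pr_norm (pr_mul (pr_norm (txg_75_s.snd h1 h2 h3)) (pr_norm (pr_csub (enc_neg (enc_rat _ 9 25)) h1)))))) (pr_add (pr_add (pr_addc (pr_scaleT 305353 3000000 h1) (enc_rat _ 4552363 100000000)) (pr_cmul (enc_norm (txg_4.enc h1.l h2.l h3)) (pr_norm (pr_subr 126709 10000000 (pr_neg (pr_scaleT 10267 300000 h1)))))) (pr_cmul (enc_norm (enc_sub (enc_rat _ 464619 1000000)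 (enc_scaleT 298729 50000 (txg_4.enc h1.l h2.l h3)))) (pr_norm (pr_mul (pr_norm (txg_86_s.snd h1 h2 h3)) (pr_norm (pr_csub (enc_neg (enc_rat _ 33 100)) h1))))))) (pr_case (txg_136_s.snd h1 h2 h3) (pr_add (pr_add (pr_addc (pr_scaleT 233879 3000000 h1) (enc_rat _ 3766149 100000000)) (pr_cmul (enc_norm (txg_4.enc h1.l h2.l h3)) (pr_norm (pr_addc (pr_scaleT 1507 100000 h1) (enc_rat _ 35959 10000000))))) (pr_cmul (enc_norm (enc_add (enc_scaleT 86627 20000 (txg_4.enc h1.l h2.l h3)) (enc_rat _ 41191 125000))) (pr_norm (pr_mul (pr_norm (txg_83_s.snd h1 h2 h3)) (pr_norm (pr_csub (enc_neg (enc_rat _ 3 10)) h1)))))) (pr_case (txg_155_s.snd h1 h2 h3) (pr_add (pr_add (pr_addc (pr_scaleT 271761 4000000 h1) (enc_rat _ 6931133 200000000)) (pr_cmul (enc_norm (txg_4.enc h1.l h2.l h3)) (pr_norm (pr_subr 24337 1250000 (pr_neg (pr_scaleT 12363 200000 h1)))))) (pr_cmul (enc_norm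 (enc_sub (enc_rat _ 1671 500000) (enc_scaleT 33159 25000 (txg_4.enc h1.l h2.l h3)))) (pr_norm (pr_mul (pr_norm (txg_136_s.snd h1 h2 h3)) (pr_norm (pr_csub (enc_neg (enc_rat _ 13 50)) h1)))))) (pr_add (pr_add (pr_addc (pr_scaleT 95651 2000000 h1) (enc_rat _ 2942583 100000000)) (pr_cmul (enc_norm (txg_4.enc h1.l h2.l h3)) (pr_norm (pr_subr 11667 1000000 (pr_neg (pr_scaleT 6361 200000 h1)))))) (pr_cmul (enc_norm (enc_add (enc_scaleT 57611 100000 (txg_4.enc h1.l h2.l h3)) (enc_rat _ 499529 1000000))) (pr_norm (pr_mul (pr_norm (txg_155_s.snd h1 h2 h3)) (pr_norm (pr_csub (enc_neg (enc_rat _ 11 50)) h1))))))))) (pr_case (txg_199_s.snd h1 h2 h3) (pr_case (txg_202_s.snd h1 h2 h3) (pr_add (pr_add (pr_addc (pr_scaleT 50203 2000000 h1) (enc_rat _ 488531 20000000)) (pr_cmul (enc_norm (txg_4.enc h1.l h2.l h3)) (pr_norm (pr_subr 248377 20000000 (pr_neg (pr_scaleT 14089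 400000 h1)))))) (pr_cmul (enc_norm (enc_sub (enc_rat _ 68573 1000000) (enc_scaleT 9813 20000 (txg_4.enc h1.l h2.l h3)))) (pr_norm (pr_mul (pr_norm (txg_80_s.snd h1 h2 h3)) (pr_norm (pr_csub (enc_neg (enc_rat _ 9 50)) h1)))))) (pr_add (pr_add (pr_addc (pr_scaleT 811 62500 h1) (enc_rat _ 556099 25000000)) (pr_cmul (enc_norm (txg_4.enc h1.l h2.l h3)) (pr_norm (pr_subr 4499 400000 (pr_neg (pr_scaleT 5743 200000 h1)))))) (pr_cmul (enc_norm (enc_add (enc_scaleT 8199 25000 (txg_4.enc h1.l h2.l h3)) (enc_rat _ 117281 500000))) (pr_norm (pr_mul (pr_norm (txg_202_s.snd h1 h2 h3)) (pr_norm (pr_csub (enc_neg (enc_rat _ 7 50)) h1))))))) (pr_case (txg_244_s.snd h1 h2 h3) (pr_add (pr_add (pr_addc (pr_scaleT 3779 2000000 h1) (enc_rat _ 413837 20000000)) (pr_cmul (enc_norm (txg_4.enc h1.l h2.l h3)) (pr_norm (pr_subr 246097 20000000 (pr_neg (pr_scaleT 14507 400000 h1))))))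 (pr_cmul (enc_norm (enc_sub (enc_rat _ 21299 500000) (enc_scaleT 1739 12500 (txg_4.enc h1.l h2.l h3)))) (pr_norm (pr_mul (pr_norm (txg_199_s.snd h1 h2 h3)) (pr_norm (pr_csub (enc_neg (enc_rat _ 1 10)) h1)))))) (pr_case (txg_266_s.snd h1 h2 h3) (pr_add (pr_add (pr_csub (enc_rat _ 3069799 150000000) (pr_scaleT 1409 3750000 h1)) (pr_cmul (enc_norm (txg_4.enc h1.l h2.l h3)) (pr_norm (pr_subr 319471 30000000 (pr_neg (pr_scaleT 7391 375000 h1)))))) (pr_cmul (enc_norm (enc_sub (enc_rat _ 599 40000) (enc_scaleT 29319 100000 (txg_4.enc h1.l h2.l h3)))) (pr_norm (pr_mul (pr_norm (txg_244_s.snd h1 h2 h3)) (pr_norm (pr_csub (enc_neg (enc_rat _ 1 16)) h1)))))) (pr_add (pr_add (pr_csub (enc_rat _ 4083541 200000000) (pr_scaleT 14221 12500000 h1)) (pr_cmul (enc_norm (txg_4.enc h1.l h2.l h3)) (pr_norm (pr_subr 1619 160000 (pr_neg (pr_scaleT 14031 1250000 h1)))))) (pr_cmul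 (enc_norm (enc_add (enc_scaleT 251 12500 (txg_4.enc h1.l h2.l h3)) (enc_rat _ 801 500000))) (pr_norm (pr_mul (pr_norm (txg_266_s.snd h1 h2 h3)) (pr_norm (pr_csub (enc_rat _ 1 16) h1)))))))))) (pr_case (txg_311_s.snd h1 h2 h3) (pr_case (txg_312_s.snd h1 h2 h3) (pr_case (txg_313_s.snd h1 h2 h3) (pr_add (pr_add (pr_csub (enc_rat _ 407937 20000000) (pr_scaleT 201 250000 h1)) (pr_cmul (enc_norm (txg_4.enc h1.l h2.l h3)) (pr_norm (pr_subr 71981 7500000 (pr_neg (pr_scaleT 7337 375000 h1)))))) (pr_cmul (enc_norm (enc_subr 14231 1000000 (enc_scaleT 3887 25000 (txg_4.enc h1.l h2.l h3)))) (pr_norm (pr_mul (pr_norm (txg_77_s.snd h1 h2 h3)) (pr_norm (pr_csub (enc_rat _ 1 10) h1)))))) (pr_add (pr_add (pr_csub (enc_rat _ 825993 40000000) (pr_scaleT 2667 800000 h1)) (pr_cmul (enc_norm (txg_4.enc h1.l h2.l h3)) (pr_norm (pr_subr 29579 4000000 (pr_neg (pr_scaleT 16637 400000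 h1)))))) (pr_cmul (enc_norm (enc_add (enc_scaleT 4049 10000 (txg_4.enc h1.l h2.l h3)) (enc_rat _ 3829 50000))) (pr_norm (pr_mul (pr_norm (txg_313_s.snd h1 h2 h3)) (pr_norm (pr_csub (enc_rat _ 7 50) h1))))))) (pr_case (txg_354_s.snd h1 h2 h3) (pr_add (pr_add (pr_csub (enc_rat _ 4412303 200000000) (pr_scaleT 53669 4000000 h1)) (pr_cmul (enc_norm (txg_4.enc h1.l h2.l h3)) (pr_norm (pr_subr 34031 4000000 (pr_neg (pr_scaleT 13457 400000 h1)))))) (pr_cmul (enc_norm (enc_sub (enc_rat _ 35101 200000) (enc_scaleT 60369 100000 (txg_4.enc h1.l h2.l h3)))) (pr_norm (pr_mul (pr_norm (txg_312_s.snd h1 h2 h3)) (pr_norm (pr_csub (enc_rat _ 9 50) h1)))))) (pr_case (txg_376_s.snd h1 h2 h3) (pr_add (pr_add (pr_csub (enc_rat _ 255613 10000000) (pr_scaleT 65721 2000000 h1)) (pr_cmul (enc_norm (txg_4.enc h1.l h2.l h3)) (pr_norm (pr_subr 46571 10000000 (pr_neg (pr_scaleT 11007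 200000 h1)))))) (pr_cmul (enc_norm (enc_add (enc_scaleT 56929 50000 (txg_4.enc h1.l h2.l h3)) (enc_rat _ 155289 500000))) (pr_norm (pr_mul (pr_norm (txg_354_s.snd h1 h2 h3)) (pr_norm (pr_csub (enc_rat _ 11 50) h1)))))) (pr_add (pr_add (pr_csub (enc_rat _ 2889419 100000000) (pr_scaleT 4801 100000 h1)) (pr_cmul (enc_norm (txg_4.enc h1.l h2.l h3)) (pr_norm (pr_subr 133977 10000000 (pr_neg (pr_scaleT 3061 200000 h1)))))) (pr_cmul (enc_norm (enc_sub (enc_rat _ 34081 500000) (enc_scaleT 21319 10000 (txg_4.enc h1.l h2.l h3)))) (pr_norm (pr_mul (pr_norm (txg_376_s.snd h1 h2 h3)) (pr_norm (pr_csub (enc_rat _ 13 50) h1))))))))) (pr_case (txg_421_s.snd h1 h2 h3) (pr_case (txg_422_s.snd h1 h2 h3) (pr_add (pr_add (pr_csub (enc_rat _ 6379321 200000000) (pr_scaleT 238231 4000000 h1)) (pr_cmul (enc_norm (txg_4.enc h1.l h2.l h3)) (pr_norm (pr_csub (enc_rat _ 289629 20000000)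 (pr_scaleT 49013 400000 h1))))) (pr_cmul (enc_norm (enc_add (enc_scaleT 481261 100000 (txg_4.enc h1.l h2.l h3)) (enc_rat _ 220531 1000000))) (pr_norm (pr_mul (pr_norm (txg_311_s.snd h1 h2 h3)) (pr_norm (pr_csub (enc_rat _ 3 10) h1)))))) (pr_case (txg_442_s.snd h1 h2 h3) (pr_add (pr_add (pr_csub (enc_rat _ 3937553 100000000) (pr_scaleT 6759 80000 h1)) (pr_cmul (enc_norm (txg_4.enc h1.l h2.l h3)) (pr_norm (pr_subr 247089 5000000 (pr_scaleT 18093 200000 h1))))) (pr_cmul (enc_norm (enc_sub (enc_rat _ 50339 125000) (enc_scaleT 1013751 100000 (txg_4.enc h1.l h2.l h3)))) (pr_norm (pr_mul (pr_norm (txg_422_s.snd h1 h2 h3)) (pr_norm (pr_csub (enc_rat _ 17 50) h1)))))) (pr_add (pr_add (pr_csub (enc_rat _ 542733 12500000) (pr_scaleT 96379 1000000 h1)) (pr_cmul (enc_norm (txg_4.enc h1.l h2.l h3)) (pr_norm (pr_csub (enc_rat _ 811677 10000000) (pr_scaleT 29361 100000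 h1))))) (pr_cmul (enc_norm (enc_subr 105429 1000000 (enc_scaleT 123371 6250 (txg_4.enc h1.l h2.l h3)))) (pr_norm (pr_mul (pr_norm (txg_442_s.snd h1 h2 h3)) (pr_norm (pr_csub (enc_rat _ 19 50) h1)))))))) (pr_case (txg_485_s.snd h1 h2 h3) (pr_add (pr_add (pr_csub (enc_rat _ 2127593 50000000) (pr_scaleT 47049 500000 h1)) (pr_cmul (enc_norm (txg_4.enc h1.l h2.l h3)) (pr_norm (pr_subr 762177 5000000 (pr_scaleT 64227 200000 h1))))) (pr_cmul (enc_norm (enc_sub (enc_rat _ 48413 1000000) (enc_scaleT 3510799 100000 (txg_4.enc h1.l h2.l h3)))) (pr_norm (pr_mul (pr_norm (txg_421_s.snd h1 h2 h3)) (pr_norm (pr_csub (enc_rat _ 21 50) h1)))))) (pr_case (txg_507_s.snd h1 h2 h3) (pr_add (pr_add (pr_csub (enc_rat _ 2514091 85000000) (pr_scaleT 214903 3400000 h1)) (pr_cmul (enc_norm (txg_4.enc h1.l h2.l h3)) (pr_norm (pr_subr 58525149 170000000 (pr_scaleT 264477 340000 h1)))))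 (pr_cmul (enc_norm (enc_subr 965531 1000000 (enc_scaleT 2787003 100000 (txg_4.enc h1.l h2.l h3)))) (pr_norm (pr_mul (pr_norm (txg_485_s.snd h1 h2 h3)) (pr_norm (pr_csub (enc_rat _ 227 500) h1)))))) (pr_add (pr_add (pr_csub (enc_rat _ 88167 9200000) (pr_scaleT 88167 4600000 h1)) (pr_cmul (enc_norm (txg_4.enc h1.l h2.l h3)) (pr_norm (pr_csub (enc_rat _ 8889 92000) (pr_scaleT 8889 46000 h1))))) (pr_cmul (enc_norm (enc_subr 121867 500000 (enc_scaleT 3197 6250 (txg_4.enc h1.l h2.l h3)))) (pr_norm (pr_mul (pr_norm (txg_507_s.snd h1 h2 h3)) (pr_norm (pr_csub (enc_rat _ 1 2) h1)))))))))))))⟩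
noncomputable def l0q0_s : Sl2 l0q0 := ⟨_, fun h1 h2 => (pr_norm (txg_s.snd (pr_norm (pr_sub (pr_scaleT 3 4 h1) (pr_half (c1g_s.snd h1)))) (pr_nd (c1g_s.snd h1)) h2))⟩
noncomputable def kf0q1_10_s : Sl2 kf0q1_10 := ⟨_, fun h1 h2 => (pr_scaleT 3 2 h1)⟩
noncomputable def kf0q1_s : Sl2 kf0q1 := ⟨_, fun h1 h2 => (pr_norm (pr_add (pr_mul (pr_norm (pr_mul (pr_norm (pr_cadd (enc_pnc _ 1) (pr_nat 2 (c1g_s.snd h1)))) (pr_norm (pr_sub (kf0q1_10_s.snd h1 h2) (c1g_s.snd h1))))) (pr_nd (pr_inv (pr_nat 2 (pr_sub (pr_cadd (enc_pnc _ 1) (kf0q1_10_s.snd h1 h2)) (c1g_s.snd h1)))))) (pr_mul (pr_norm (pr_subn 1 h1)) (kcg_s.snd (pr_norm (pr_sub (pr_scaleT 3 4 h1) (pr_half (c1g_s.snd h1)))) h2))))⟩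
noncomputable def l0q1_s : Sl2 l0q1 := ⟨_, fun h1 h2 => (pr_norm (txg_s.snd (pr_norm (pr_sub (pr_scaleT 3 4 h1) (pr_half (c1g_s.snd h1)))) (pr_nd (c1g_s.snd h1)) h2))⟩
noncomputable def yag_s : Sl1 yag := ⟨_, fun h1 => (pr_sqrt (pr_scaleT 4 3 (pr_csub (enc_pnc _ 1) (pr_sq h1))))⟩
noncomputable def kfc02_s : Sl2 kfc02 := ⟨_, fun h1 h2 => (pr_norm (pr_add h1 (pr_mul (pr_norm (pr_subn 1 (yag_s.snd h1))) (kcg_s.snd (pr_nd (pr_neg h1)) h2))))⟩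
noncomputable def lc02_7_s : Sl2 lc02_7 := ⟨_, fun h1 h2 => (pr_scaleT 3 4 (yag_s.snd h1))⟩
noncomputable def lc02_8_s : Sl2 lc02_8 := ⟨_, fun h1 h2 => (pr_half h1)⟩
noncomputable def lc02_s : Sl2 lc02 := ⟨_, fun h1 h2 => (pr_norm (pr_sub (txg_s.snd (pr_nd (pr_neg h1)) (pr_norm (pr_add (lc02_7_s.snd h1 h2) (lc02_8_s.snd h1 h2))) h2) (txg_s.snd h1 (pr_norm (pr_sub (lc02_7_s.snd h1 h2) (lc02_8_s.snd h1 h2))) h2)))⟩
noncomputable def swg_s : Sl1 swg := ⟨_, fun h1 => (pr_sqrt (pr_csub (enc_pnc _ 1) (pr_scaleT 3 4 (pr_sq (pr_norm (pr_subn 1 h1))))))⟩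
noncomputable def cv1m_s : Sl1 cv1m := ⟨_, fun h1 => (pr_norm (pr_add (pr_half (c1g_s.snd h1)) (pr_half (pr_addc (swg_s.snd h1) (enc_rat _ 1 2)))))⟩
noncomputable def bf1q0_14_s : Sl2 bf1q0_14 := ⟨_, fun h1 h2 => (pr_cmul (enc_norm (bf1q0_3.enc h1.l h2)) (pr_nd (pr_scaleT 79 500000 h1)))⟩
noncomputable def bf1q0_s : Sl2 bf1q0 := ⟨_, fun h1 h2 => (pr_norm (pr_case (pr_subr 1 5 h1) (pr_case (pr_subr 1 10 h1) (pr_add (pr_csub (enc_pnc _ 1) (pr_scaleT 37 10000000 h1)) (bf1q0_14_s.snd h1 h2)) (pr_add (pr_csub (enc_rat _ 12500001 12500000) (pr_scaleT 9 2000000 h1)) (bf1q0_14_s.snd h1 h2))) (pr_case (pr_subr 7 20 h1) (pr_add (pr_csub (enc_rat _ 10000001 10000000) (pr_scaleT 23 5000000 h1)) (pr_cmul (enc_norm (bf1q0_3.enc h1.l h2)) (pr_norm (pr_addc (pr_scaleT 9 62500 h1) (enc_rat _ 7 2500000))))) (pr_add (pr_csub (enc_rat _ 29999989 30000000) (pr_scaleT 49 15000000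 h1)) (pr_cmul (enc_norm (bf1q0_3.enc h1.l h2)) (pr_norm (pr_addc (pr_scaleT 1 50000 h1) (enc_rat _ 231 5000000))))))))⟩
noncomputable def kf1q0_s : Sl2 kf1q0 := ⟨_, fun h1 h2 => (pr_norm (pr_mul (cv1m_s.snd h1) (bf1q0_s.snd h1 h2)))⟩
noncomputable def bx1q0_s : Sl2 bx1q0 := ⟨_, fun h1 h2 => (pr_norm (pr_case (pr_subr 1 5 h1) (pr_case (pr_subr 1 10 h1) (pr_sub (pr_scaleT 22961 10000000 h1) (pr_cmul (enc_norm (bx1q0_3.enc h1.l h2)) (pr_nd (pr_scaleT 1369 250000 h1)))) (pr_add (pr_addc (pr_scaleT 2859 1250000 h1) (enc_rat _ 89 100000000)) (pr_cmul (enc_norm (bx1q0_3.enc h1.l h2)) (pr_norm (pr_subr 37 1250000 (pr_neg (pr_scaleT 259 50000 h1))))))) (pr_case (pr_subr 7 20 h1) (pr_add (pr_addc (pr_scaleT 8329 3750000 h1) (enc_rat _ 847 60000000)) (pr_cmul (enc_norm (bx1q0_3.enc h1.l h2)) (pr_norm (pr_subr 803 3750000 (pr_neg (pr_scaleT 3193 750000 h1)))))) (pr_add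 (pr_addc (pr_scaleT 14581 7500000 h1) (enc_rat _ 33313 300000000)) (pr_cmul (enc_norm (bx1q0_3.enc h1.l h2)) (pr_norm (pr_subr 41207 30000000 (pr_neg (pr_scaleT 1417 1500000 h1)))))))))⟩
noncomputable def l1q0_s : Sl2 l1q0 := ⟨_, fun h1 h2 => (pr_norm (pr_mul (cv1m_s.snd h1) (bx1q0_s.snd h1 h2)))⟩
noncomputable def bf1q1_14_s : Sl2 bf1q1_14 := ⟨_, fun h1 h2 => (pr_addc (pr_scaleT 1 312500 h1) (enc_rat _ 74159399 100000000))⟩
noncomputable def bf1q1_33_s : Sl2 bf1q1_33 := ⟨_, fun h1 h2 => (pr_scaleT 1 125000 h1)⟩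
noncomputable def bf1q1_82_s : Sl2 bf1q1_82 := ⟨_, fun h1 h2 => (pr_cmul (enc_norm (bf1q1_3.enc h1.l h2)) (pr_norm (pr_subr 5299991 7500000 (pr_scaleT 17 300000 h1))))⟩
noncomputable def bf1q1_84_s : Sl2 bf1q1_84 := ⟨_, fun h1 h2 => (pr_scaleT 1 187500 h1)⟩
noncomputable def bf1q1_121_s : Sl2 bf1q1_121 := ⟨_, fun h1 h2 => (pr_scaleT 1 43750 h1)⟩
noncomputable def bf1q1_s : Sl2 bf1q1 := ⟨_, fun h1 h2 => (pr_norm (pr_case (pr_subr 22 25 h1) (pr_case (pr_subr 3 4 h1) (pr_case (pr_subr 13 20 h1) (pr_case (pr_subr 3 5 h1) (pr_add (bf1q1_14_s.snd h1 h2) (pr_cmul (enc_norm (bf1q1_3.enc h1.l h2)) (pr_norm (pr_subr 3533177 5000000 (pr_scaleT 19 1000000 h1))))) (pr_add (bf1q1_14_s.snd h1 h2) (pr_cmul (enc_norm (bf1q1_3.enc h1.l h2)) (pr_norm (pr_subr 70663 100000 (pr_scaleT 1 100000 h1)))))) (pr_case (pr_subr 7 10 h1) (pr_add (pr_addc (pr_scaleT 17 5000000 h1) (enc_rat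 _ 37079693 50000000)) (pr_cmul (enc_norm (bf1q1_3.enc h1.l h2)) (pr_norm (pr_subr 7066287 10000000 (bf1q1_33_s.snd h1 h2))))) (pr_add (pr_addc (pr_scaleT 19 5000000 h1) (enc_rat _ 37079679 50000000)) (pr_cmul (enc_norm (bf1q1_3.enc h1.l h2)) (pr_norm (pr_subr 7066343 10000000 (pr_scaleT 1 62500 h1))))))) (pr_case (pr_subr 41 50 h1) (pr_case (pr_subr 79 100 h1) (pr_add (pr_addc (pr_scaleT 1 250000 h1) (enc_rat _ 74159343 100000000)) (pr_cmul (enc_norm (bf1q1_3.enc h1.l h2)) (pr_norm (pr_subr 441653 625000 (pr_scaleT 3 100000 h1))))) (pr_add (pr_addc (pr_scaleT 7 1500000 h1) (enc_rat _ 222477871 300000000)) (pr_cmul (enc_norm (bf1q1_3.enc h1.l h2)) (pr_norm (pr_subr 1766691 2500000 (pr_scaleT 7 100000 h1)))))) (pr_case (pr_subr 17 20 h1) (pr_add (pr_addc (pr_scaleT 1 200000 h1) (enc_rat _ 74159263 100000000)) (bf1q1_82_s.snd h1 h2)) (pr_add (pr_addc (bf1q1_84_s.snd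 h1 h2) (enc_rat _ 27809713 37500000)) (bf1q1_82_s.snd h1 h2))))) (pr_case (pr_subr 31 32 h1) (pr_case (pr_subr 15 16 h1) (pr_case (pr_subr 91 100 h1) (pr_add (pr_addc (pr_scaleT 17 3000000 h1) (enc_rat _ 13904851 18750000)) (pr_cmul (enc_norm (bf1q1_3.enc h1.l h2)) (pr_norm (pr_subr 1766671 2500000 (pr_scaleT 3 50000 h1))))) (pr_add (pr_addc (pr_scaleT 7 1375000 h1) (enc_rat _ 163150367 220000000)) (pr_cmul (enc_norm (bf1q1_3.enc h1.l h2)) (pr_norm (pr_subr 38865579 55000000 (pr_scaleT 1 27500 h1)))))) (pr_case (pr_subr 191 200 h1) (pr_add (pr_addc (pr_scaleT 1 218750 h1) (enc_rat _ 103823029 140000000)) (pr_cmul (enc_norm (bf1q1_3.enc h1.l h2)) (pr_norm (pr_subr 12366099 17500000 (bf1q1_121_s.snd h1 h2))))) (pr_add (pr_addc (pr_scaleT 1 275000 h1) (enc_rat _ 815753353 1100000000)) (pr_cmul (enc_norm (bf1q1_3.enc h1.l h2)) (pr_norm (pr_subr 19432223 27500000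 (pr_scaleT 1 68750 h1))))))) (pr_case (pr_subr 197 200 h1) (pr_case (pr_subr 391 400 h1) (pr_add (pr_addc (pr_scaleT 3 875000 h1) (enc_rat _ 519115911 700000000)) (pr_cmul (enc_norm (bf1q1_3.enc h1.l h2)) (pr_norm (pr_subr 12366101 17500000 (bf1q1_121_s.snd h1 h2))))) (pr_add (pr_addc (bf1q1_84_s.snd h1 h2) (enc_rat _ 222477689 300000000)) (pr_cmul (enc_norm (bf1q1_3.enc h1.l h2)) (pr_norm (pr_subr 10599571 15000000 (pr_scaleT 1 37500 h1)))))) (pr_case (pr_subr 397 400 h1) (pr_add (pr_addc (pr_scaleT 1 150000 h1) (enc_rat _ 44495459 60000000)) (pr_cmul (enc_norm (bf1q1_3.enc h1.l h2)) (pr_norm (pr_subr 2650139 3750000 (pr_scaleT 7 75000 h1))))) (pr_add (pr_addc (bf1q1_33_s.snd h1 h2) (enc_rat _ 37079483 50000000)) (pr_cmul (enc_norm (bf1q1_3.enc h1.l h2)) (pr_norm (pr_subr 7067699 10000000 (pr_scaleT 1 6250 h1))))))))))⟩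
noncomputable def kf1q1_s : Sl2 kf1q1 := ⟨_, fun h1 h2 => (pr_norm (pr_mul (cv1m_s.snd h1) (bf1q1_s.snd h1 h2)))⟩
noncomputable def bx1q1_92_s : Sl2 bx1q1_92 := ⟨_, fun h1 h2 => (pr_cmul (enc_norm (bx1q1_3.enc h1.l h2)) (pr_norm (pr_csub (enc_rat _ 3286783 30000000) (pr_scaleT 937 300000 h1))))⟩
noncomputable def bx1q1_s : Sl2 bx1q1 := ⟨_, fun h1 h2 => (pr_norm (pr_case (pr_subr 22 25 h1) (pr_case (pr_subr 3 4 h1) (pr_case (pr_subr 13 20 h1) (pr_case (pr_subr 3 5 h1) (pr_add (pr_csub (enc_rat _ 220041 50000000) (pr_scaleT 1191 1000000 h1)) (pr_cmul (enc_norm (bx1q1_3.enc h1.l h2)) (pr_norm (pr_csub (enc_rat _ 1082851 10000000) (pr_scaleT 423 250000 h1))))) (pr_add (pr_csub (enc_rat _ 218157 50000000) (pr_scaleT 5641 5000000 h1)) (pr_cmul (enc_norm (bx1q1_3.enc h1.l h2)) (pr_norm (pr_csub (enc_rat _ 1078123 10000000) (pr_scaleT 113 125000 h1)))))) (pr_case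 (pr_subr 7 10 h1) (pr_add (pr_csub (enc_rat _ 432401 100000000) (pr_scaleT 267 250000 h1)) (pr_cmul (enc_norm (bx1q1_3.enc h1.l h2)) (pr_norm (pr_csub (enc_rat _ 1077473 10000000) (pr_scaleT 201 250000 h1))))) (pr_add (pr_csub (enc_rat _ 428943 100000000) (pr_scaleT 5093 5000000 h1)) (pr_cmul (enc_norm (bx1q1_3.enc h1.l h2)) (pr_norm (pr_csub (enc_rat _ 1076983 10000000) (pr_scaleT 367 500000 h1))))))) (pr_case (pr_subr 41 50 h1) (pr_case (pr_subr 79 100 h1) (pr_add (pr_csub (enc_rat _ 1705317 400000000) (pr_scaleT 787 800000 h1)) (pr_cmul (enc_norm (bx1q1_3.enc h1.l h2)) (pr_norm (pr_csub (enc_rat _ 1080403 10000000) (pr_scaleT 119 100000 h1))))) (pr_add (pr_csub (enc_rat _ 639247 150000000) (pr_scaleT 589 600000 h1)) (pr_cmul (enc_norm (bx1q1_3.enc h1.l h2)) (pr_norm (pr_csub (enc_rat _ 3293507 30000000) (pr_scaleT 1019 300000 h1)))))) (pr_case (pr_subr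 17 20 h1) (pr_add (pr_csub (enc_rat _ 10663 2500000) (pr_scaleT 493 500000 h1)) (bx1q1_92_s.snd h1 h2)) (pr_add (pr_csub (enc_rat _ 851 200000) (pr_scaleT 487 500000 h1)) (bx1q1_92_s.snd h1 h2))))) (pr_case (pr_subr 31 32 h1) (pr_case (pr_subr 15 16 h1) (pr_case (pr_subr 91 100 h1) (pr_add (pr_csub (enc_rat _ 318047 75000000) (pr_scaleT 2873 3000000 h1)) (pr_cmul (enc_norm (bx1q1_3.enc h1.l h2)) (pr_norm (pr_csub (enc_rat _ 43981 400000) (pr_scaleT 357 100000 h1))))) (pr_add (pr_csub (enc_rat _ 4612789 1100000000) (pr_scaleT 2491 2750000 h1)) (pr_cmul (enc_norm (bx1q1_3.enc h1.l h2)) (pr_norm (pr_csub (enc_rat _ 1199877 11000000) (pr_scaleT 359 137500 h1)))))) (pr_case (pr_subr 191 200 h1) (pr_add (pr_csub (enc_rat _ 22531 5468750) (pr_scaleT 181 218750 h1)) (pr_cmul (enc_norm (bx1q1_3.enc h1.l h2)) (pr_norm (pr_csub (enc_rat _ 756549 7000000) (pr_scaleT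 27 17500 h1))))) (pr_add (pr_csub (enc_rat _ 63581 17187500) (pr_scaleT 133 343750 h1)) (pr_cmul (enc_norm (bx1q1_3.enc h1.l h2)) (pr_norm (pr_csub (enc_rat _ 535699 5000000) (pr_scaleT 7 12500 h1))))))) (pr_case (pr_subr 197 200 h1) (pr_case (pr_subr 391 400 h1) (pr_add (pr_csub (enc_rat _ 622077 175000000) (pr_scaleT 26 109375 h1)) (pr_cmul (enc_norm (bx1q1_3.enc h1.l h2)) (pr_norm (pr_addc (pr_scaleT 37 87500 h1) (enc_rat _ 464571 4375000))))) (pr_add (pr_csub (enc_rat _ 175893 50000000) (pr_scaleT 1 5000 h1)) (pr_cmul (enc_norm (bx1q1_3.enc h1.l h2)) (pr_norm (pr_addc (pr_scaleT 133 75000 h1) (enc_rat _ 3146027 30000000)))))) (pr_case (pr_subr 397 400 h1) (pr_add (pr_csub (enc_rat _ 7083 2000000) (pr_scaleT 7 31250 h1)) (pr_cmul (enc_norm (bx1q1_3.enc h1.l h2)) (pr_norm (pr_addc (pr_scaleT 53 18750 h1) (enc_rat _ 3114901 30000000))))) (pr_add (pr_csub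 (enc_rat _ 177869 50000000) (pr_scaleT 3 12500 h1)) (pr_cmul (enc_norm (bx1q1_3.enc h1.l h2)) (pr_norm (pr_addc (pr_scaleT 19 6250 h1) (enc_rat _ 1036183 10000000))))))))))⟩
noncomputable def l1q1_s : Sl2 l1q1 := ⟨_, fun h1 h2 => (pr_norm (pr_mul (cv1m_s.snd h1) (bx1q1_s.snd h1 h2)))⟩
noncomputable def cv1p_s : Sl1 cv1p := ⟨_, fun h1 => (pr_norm (pr_add (pr_half (c1g_s.snd h1)) (pr_half (pr_subr 1 2 (swg_s.snd h1)))))⟩
noncomputable def bf1q2_s : Sl2 bf1q2 := ⟨_, fun h1 h2 => (pr_norm (pr_case (pr_subr 9 8 h1) (pr_case (pr_subr 33 32 h1) (pr_case (pr_subr 203 200 h1) (pr_case (pr_subr 403 400 h1) (pr_add (pr_addc (pr_scaleT 38857 187500 h1) (enc_rat _ 148643 187500)) (pr_cmul (enc_norm (bf1q2_3.enc h1.l h2)) (pr_norm (pr_csub (enc_rat _ 5347 15000) (pr_scaleT 5347 15000 h1))))) (pr_add (pr_csub (enc_rat _ 300488449 300000000) (pr_scaleT 11 150000 h1)) (pr_cmul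 (enc_norm (bf1q2_3.enc h1.l h2)) (pr_norm (pr_csub (enc_rat _ 1004671 30000000) (pr_scaleT 673 18750 h1)))))) (pr_case (pr_subr 409 400 h1) (pr_add (pr_csub (enc_rat _ 60106297 60000000) (pr_scaleT 161 750000 h1)) (pr_cmul (enc_norm (bf1q2_3.enc h1.l h2)) (pr_norm (pr_csub (enc_rat _ 78569 10000000) (pr_scaleT 133 12500 h1))))) (pr_add (pr_csub (enc_rat _ 350618907 350000000) (pr_scaleT 37 175000 h1)) (pr_cmul (enc_norm (bf1q2_3.enc h1.l h2)) (pr_norm (pr_subr 499511 70000000 (pr_scaleT 88 21875 h1))))))) (pr_case (pr_subr 17 16 h1) (pr_case (pr_subr 209 200 h1) (pr_add (pr_csub (enc_rat _ 50096001 50000000) (pr_scaleT 493 1375000 h1)) (pr_cmul (enc_norm (bf1q2_3.enc h1.l h2)) (pr_norm (pr_subr 74723 10000000 (pr_scaleT 299 68750 h1))))) (pr_add (pr_csub (enc_rat _ 175368769 175000000) (pr_scaleT 941 1750000 h1)) (pr_cmul (enc_norm (bf1q2_3.enc h1.l h2))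 (pr_norm (pr_subr 431481 70000000 (pr_scaleT 271 87500 h1)))))) (pr_case (pr_subr 217 200 h1) (pr_add (pr_csub (enc_rat _ 300670729 300000000) (pr_scaleT 247 375000 h1)) (pr_cmul (enc_norm (bf1q2_3.enc h1.l h2)) (pr_norm (pr_subr 591797 90000000 (pr_scaleT 98 28125 h1))))) (pr_case (pr_subr 221 200 h1) (pr_add (pr_csub (enc_rat _ 400888591 400000000) (pr_scaleT 1291 2000000 h1)) (pr_cmul (enc_norm (bf1q2_3.enc h1.l h2)) (pr_norm (pr_subr 123819 20000000 (pr_scaleT 313 100000 h1))))) (pr_add (pr_csub (enc_rat _ 100213363 100000000) (pr_scaleT 283 500000 h1)) (pr_cmul (enc_norm (bf1q2_3.enc h1.l h2)) (pr_norm (pr_subr 248301 40000000 (pr_scaleT 629 200000 h1))))))))) (pr_case (pr_subr 121 100 h1) (pr_case (pr_subr 577 500 h1) (pr_case (pr_subr 23 20 h1) (pr_add (pr_csub (enc_rat _ 25047637 25000000) (pr_scaleT 227 625000 h1)) (pr_cmul (enc_norm (bf1q2_3.enc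 h1.l h2)) (pr_norm (pr_subr 67329 10000000 (pr_scaleT 903 250000 h1))))) (pr_add (pr_addc (pr_scaleT 669 1562500 h1) (enc_rat _ 125124427 125000000)) (pr_cmul (enc_norm (bf1q2_3.enc h1.l h2)) (pr_norm (pr_subr 47511 20000000 (pr_neg (pr_scaleT 177 1000000 h1))))))) (pr_case (pr_subr 231 200 h1) (pr_add (pr_addc (pr_scaleT 60451 6250000 h1) (enc_rat _ 6189549 6250000)) (pr_cmul (enc_norm (bf1q2_3.enc h1.l h2)) (pr_norm (pr_csub (enc_rat _ 1047 62500) (pr_scaleT 1047 62500 h1))))) (pr_case (pr_subr 59 50 h1) (pr_add (pr_addc (pr_scaleT 25769 31250000 h1) (enc_rat _ 3126708633 3125000000)) (pr_cmul (enc_norm (bf1q2_3.enc h1.l h2)) (pr_norm (pr_subr 379563 250000000 (pr_neg (pr_scaleT 1167 1250000 h1)))))) (pr_add (pr_addc (pr_scaleT 221 750000 h1) (enc_rat _ 75087907 75000000)) (pr_cmul (enc_norm (bf1q2_3.enc h1.l h2)) (pr_norm (pr_subr 76709 30000000 (pr_neg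 (pr_scaleT 1 18750 h1))))))))) (pr_case (pr_subr 13 10 h1) (pr_case (pr_subr 5 4 h1) (pr_add (pr_addc (pr_scaleT 223 2000000 h1) (enc_rat _ 40055749 40000000)) (pr_cmul (enc_norm (bf1q2_3.enc h1.l h2)) (pr_norm (pr_subr 104739 40000000 (pr_neg (pr_scaleT 1 400000 h1)))))) (pr_subc (pr_addc (pr_scaleT 53 1250000 h1) (enc_rat _ 10014801 10000000)) (bf1q2_202.enc h1.l h2))) (pr_case (pr_subr 27 20 h1) (pr_subc (pr_addc (pr_scaleT 41 2500000 h1) (enc_rat _ 10015139 10000000)) (bf1q2_202.enc h1.l h2)) (pr_case (pr_subr 7 5 h1) (pr_subc (pr_addc (pr_scaleT 1 156250 h1) (enc_rat _ 5007637 5000000)) (bf1q2_202.enc h1.l h2)) (pr_subc (pr_addc (pr_scaleT 33 10000000 h1) (enc_rat _ 50076587 50000000)) (bf1q2_202.enc h1.l h2))))))))⟩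
noncomputable def kf1q2_s : Sl2 kf1q2 := ⟨_, fun h1 h2 => (pr_norm (pr_mul (cv1p_s.snd h1) (bf1q2_s.snd h1 h2)))⟩
noncomputable def bx1q2_s : Sl2 bx1q2 := ⟨_, fun h1 h2 => (pr_norm (pr_case (pr_subr 9 8 h1) (pr_case (pr_subr 33 32 h1) (pr_case (pr_subr 203 200 h1) (pr_case (pr_subr 403 400 h1) (pr_add (pr_subr 1118 46875 (pr_scaleT 1118 46875 h1)) (pr_cmul (enc_norm (bx1q2_3.enc h1.l h2)) (pr_norm (pr_subr 43807 75000 (pr_scaleT 43807 75000 h1))))) (pr_add (pr_subr 2228837 100000000 (pr_scaleT 223 10000 h1)) (pr_cmul (enc_norm (bx1q2_3.enc h1.l h2)) (pr_norm (pr_subr 2451539 7500000 (pr_scaleT 24659 75000 h1)))))) (pr_case (pr_subr 409 400 h1) (pr_add (pr_subr 8455859 300000000 (pr_scaleT 21083 750000 h1)) (pr_cmul (enc_norm (bx1q2_3.enc h1.l h2)) (pr_norm (pr_subr 96569 1500000 (pr_scaleT 5263 75000 h1))))) (pr_add (pr_subr 4745973 87500000 (pr_scaleT 11723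 218750 h1)) (pr_cmul (enc_norm (bx1q2_3.enc h1.l h2)) (pr_norm (pr_csub (enc_rat _ 156227 14000000) (pr_scaleT 81 21875 h1))))))) (pr_case (pr_subr 17 16 h1) (pr_case (pr_subr 209 200 h1) (pr_add (pr_subr 7261137 100000000 (pr_scaleT 98183 1375000 h1)) (pr_cmul (enc_norm (bx1q2_3.enc h1.l h2)) (pr_norm (pr_subr 2145979 2000000 (pr_scaleT 36011 34375 h1))))) (pr_add (pr_subr 3461377 700000000 (pr_scaleT 11643 1750000 h1)) (pr_cmul (enc_norm (bx1q2_3.enc h1.l h2)) (pr_norm (pr_subr 208123 14000000 (pr_scaleT 6131 175000 h1)))))) (pr_case (pr_subr 217 200 h1) (pr_add (pr_subr 842183 300000000 (pr_scaleT 3481 750000 h1)) (pr_cmul (enc_norm (bx1q2_3.enc h1.l h2)) (pr_norm (pr_addc (pr_scaleT 8 3125 h1) (enc_rat _ 9819 500000))))) (pr_case (pr_subr 221 200 h1) (pr_add (pr_addc (pr_scaleT 361 250000 h1) (enc_rat _ 66183 100000000)) (pr_cmul (enc_norm (bx1q2_3.enc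 h1.l h2)) (pr_norm (pr_csub (enc_rat _ 448529 20000000) (pr_scaleT 1 100000 h1))))) (pr_add (pr_addc (pr_scaleT 1157 2000000 h1) (enc_rat _ 647283 400000000)) (pr_cmul (enc_norm (bx1q2_3.enc h1.l h2)) (pr_norm (pr_addc (pr_scaleT 21 40000 h1) (enc_rat _ 873411 40000000))))))))) (pr_case (pr_subr 59 50 h1) (pr_case (pr_subr 577 500 h1) (pr_case (pr_subr 23 20 h1) (pr_add (pr_addc (pr_scaleT 119 500000 h1) (enc_rat _ 200127 100000000)) (pr_cmul (enc_norm (bx1q2_3.enc h1.l h2)) (pr_norm (pr_addc (pr_scaleT 23 25000 h1) (enc_rat _ 213909 10000000))))) (pr_add (pr_addc (pr_scaleT 39 400000 h1) (enc_rat _ 432569 200000000)) (pr_cmul (enc_norm (bx1q2_3.enc h1.l h2)) (pr_norm (pr_addc (pr_scaleT 7 40000 h1) (enc_rat _ 444953 20000000)))))) (pr_casec1 (pr_subr 231 200 h1) (enc_add (enc_rat _ 14221 6250000) (enc_scaleT 14031 625000 (bx1q2_3.enc h1.l h2))) (pr_add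 (pr_csub (enc_rat _ 569533 250000000) (pr_scaleT 3 1250000 h1)) (pr_cmul (enc_norm (bx1q2_3.enc h1.l h2)) (pr_norm (pr_csub (enc_rat _ 562857 25000000) (pr_scaleT 7 125000 h1))))))) (pr_case (pr_subr 5 4 h1) (pr_case (pr_subr 121 100 h1) (pr_add (pr_addc (pr_scaleT 1 1000000 h1) (enc_rat _ 56853 25000000)) (pr_cmul (enc_norm (bx1q2_3.enc h1.l h2)) (pr_norm (pr_csub (enc_rat _ 84343 3750000) (pr_scaleT 11 300000 h1))))) (pr_add (pr_addc (pr_scaleT 1 4000000 h1) (enc_rat _ 910011 400000000)) (pr_cmul (enc_norm (bx1q2_3.enc h1.l h2)) (pr_norm (pr_csub (enc_rat _ 179601 8000000) (pr_scaleT 1 400000 h1)))))) (pr_casec1 (pr_subr 13 10 h1) (enc_add (enc_rat _ 113767 50000000) (bx1q2_185.enc h1.l h2)) (pr_casec (pr_subr 27 20 h1) (pr_addc (pr_addc (pr_scaleT 1 5000000 h1) (enc_rat _ 56877 25000000)) (bx1q2_185.enc h1.l h2)) (enc_add (enc_rat _ 45507 20000000) (bx1q2_185.enc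 h1.l h2))))))))⟩
noncomputable def l1q2_s : Sl2 l1q2 := ⟨_, fun h1 h2 => (pr_norm (pr_mul (cv1p_s.snd h1) (bx1q2_s.snd h1 h2)))⟩
noncomputable def cv1r_s : Sl1 cv1r := ⟨_, fun h1 => (pr_norm (pr_half (pr_subr 1 2 (swg_s.snd h1))))⟩
noncomputable def bf1q3_14_s : Sl2 bf1q3_14 := ⟨_, fun h1 h2 => (pr_cmul (enc_norm (bf1q3_3.enc h1.l h2)) (pr_norm (pr_addc (pr_scaleT 1 750000 h1) (enc_rat _ 1229895447 10000000))))⟩
noncomputable def bf1q3_25_s : Sl2 bf1q3_25 := ⟨_, fun h1 h2 => (pr_addc (pr_scaleT 1 2000000 h1) (enc_rat _ 20227813 4000000))⟩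
noncomputable def bf1q3_s : Sl2 bf1q3 := ⟨_, fun h1 h2 => (pr_norm (pr_case (pr_subr 9 5 h1) (pr_case (pr_subr 33 20 h1) (pr_add (pr_addc (pr_scaleT 7 15000000 h1) (enc_rat _ 50569533 10000000)) (bf1q3_14_s.snd h1 h2)) (pr_add (pr_addc (pr_scaleT 1 1875000 h1) (enc_rat _ 505695319 100000000)) (bf1q3_14_s.snd h1 h2))) (pr_case (pr_subr 19 10 h1) (pr_add (bf1q3_25_s.snd h1 h2) (pr_cmul (enc_norm (bf1q3_3.enc h1.l h2)) (pr_norm (pr_addc (pr_scaleT 1 500000 h1) (enc_rat _ 245979087 2000000))))) (pr_add (bf1q3_25_s.snd h1 h2) (pr_cmul (enc_norm (bf1q3_3.enc h1.l h2)) (pr_norm (pr_addc (pr_scaleT 1 1000000 h1) (enc_rat _ 614947727 5000000))))))))⟩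
noncomputable def kf1q3_s : Sl2 kf1q3 := ⟨_, fun h1 h2 => (pr_norm (pr_mul (cv1r_s.snd h1) (bf1q3_s.snd h1 h2)))⟩
noncomputable def bx1q3_16_s : Sl2 bx1q3_16 := ⟨_, fun h1 h2 => (pr_cmul (enc_norm (bx1q3_3.enc h1.l h2)) (pr_norm (pr_subr 4232327 500000 (pr_scaleT 7 300000 h1))))⟩
noncomputable def bx1q3_34_s : Sl2 bx1q3_34 := ⟨_, fun h1 h2 => (pr_cmul (enc_norm (bx1q3_3.enc h1.l h2)) (pr_norm (pr_subr 21161683 2500000 (pr_scaleT 17 500000 h1))))⟩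
noncomputable def bx1q3_s : Sl2 bx1q3 := ⟨_, fun h1 h2 => (pr_norm (pr_case (pr_subr 9 5 h1) (pr_case (pr_subr 33 20 h1) (pr_add (pr_subr 1924707 50000000 (pr_scaleT 1 468750 h1)) (bx1q3_16_s.snd h1 h2)) (pr_add (pr_subr 481163 12500000 (pr_scaleT 11 7500000 h1)) (bx1q3_16_s.snd h1 h2))) (pr_case (pr_subr 19 10 h1) (pr_add (pr_subr 962287 25000000 (pr_scaleT 3 5000000 h1)) (bx1q3_34_s.snd h1 h2)) (pr_add (pr_subr 3849243 100000000 (pr_scaleT 11 10000000 h1)) (bx1q3_34_s.snd h1 h2)))))⟩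
noncomputable def l1q3_s : Sl2 l1q3 := ⟨_, fun h1 h2 => (pr_norm (pr_mul (cv1r_s.snd h1) (bx1q3_s.snd h1 h2)))⟩
noncomputable def cv2m_s : Sl1 cv2m := ⟨_, fun h1 => (pr_norm (pr_addc (swg_s.snd h1) (enc_rat _ 1 2)))⟩
noncomputable def bf2q0_s : Sl2 bf2q0 := ⟨_, fun h1 h2 => (pr_norm (pr_case (pr_subr 1 5 h1) (pr_case (pr_subr 1 10 h1) (pr_sub (pr_addc (pr_scaleT 1 1250000 h1) (enc_pnc _ 1)) (pr_cmul (enc_norm (bf2q0_3.enc h1.l h2)) (pr_nd (pr_scaleT 3 1000000 h1)))) (pr_add (pr_addc (pr_scaleT 1 2000000 h1) (enc_rat _ 100000003 100000000)) (pr_cmul (enc_norm (bf2q0_3.enc h1.l h2)) (pr_norm (pr_subr 1 2000000 (pr_scaleT 1 500000 h1)))))) (pr_case (pr_subr 7 20 h1) (pr_add (pr_addc (pr_scaleT 1 3000000 h1) (enc_rat _ 300000019 300000000)) (pr_cmul (enc_norm (bf2q0_3.enc h1.l h2)) (pr_norm (pr_subr 9 10000000 (pr_scaleT 1 250000 h1))))) (pr_add (pr_addc (pr_scaleT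 1 5000000 h1) (enc_rat _ 100000011 100000000)) (pr_cmul (enc_norm (bf2q0_3.enc h1.l h2)) (pr_norm (pr_addc (pr_scaleT 1 750000 h1) (enc_rat _ 1 30000000))))))))⟩
noncomputable def kf2q0_s : Sl2 kf2q0 := ⟨_, fun h1 h2 => (pr_norm (pr_mul (cv2m_s.snd h1) (bf2q0_s.snd h1 h2)))⟩
noncomputable def bx2q0_s : Sl2 bx2q0 := ⟨_, fun h1 h2 => (pr_norm (pr_case (pr_subr 1 5 h1) (pr_case (pr_subr 1 10 h1) (pr_sub (pr_cmul (enc_norm (bx2q0_3.enc h1.l h2)) (pr_nd (pr_scaleT 21 125000 h1))) (pr_scaleT 53 2500000 h1)) (pr_add (pr_subr 11 12500000 (pr_neg (pr_scaleT 31 2500000 h1))) (pr_cmul (enc_norm (bx2q0_3.enc h1.l h2)) (pr_norm (pr_csub (enc_rat _ 211 10000000) (pr_scaleT 43 1000000 h1)))))) (pr_case (pr_subr 7 20 h1) (pr_add (pr_subr 1 500000 (pr_neg (pr_scaleT 17 2500000 h1))) (pr_cmul (enc_norm (bx2q0_3.enc h1.l h2)) (pr_norm (pr_csub (enc_rat _ 1759 30000000) (pr_scaleT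 173 750000 h1))))) (pr_add (pr_subr 291 100000000 (pr_neg (pr_scaleT 21 5000000 h1))) (pr_cmul (enc_norm (bx2q0_3.enc h1.l h2)) (pr_norm (pr_csub (enc_rat _ 233 30000000) (pr_scaleT 4 46875 h1))))))))⟩
noncomputable def l2q0_s : Sl2 l2q0 := ⟨_, fun h1 h2 => (pr_norm (pr_mul (cv2m_s.snd h1) (bx2q0_s.snd h1 h2)))⟩
noncomputable def gsg_s : Sl1 gsg := ⟨_, fun h1 => (pr_sqrt (pr_csub (enc_pnc _ 1) (pr_scaleT 3 4 (pr_sq h1))))⟩
noncomputable def esg_s : Sl1 esg := ⟨_, fun h1 => (pr_norm (pr_subn 1 (pr_add (pr_half h1) (gsg_s.snd h1))))⟩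
noncomputable def kf2q1_20_s : Sl2 kf2q1_20 := ⟨_, fun h1 h2 => (pr_scaleT 1 1250000 h1)⟩
noncomputable def kf2q1_24_s : Sl2 kf2q1_24 := ⟨_, fun h1 h2 => (pr_scaleT 7 500000 h1)⟩
noncomputable def kf2q1_69_s : Sl2 kf2q1_69 := ⟨_, fun h1 h2 => (pr_cmul (enc_norm (kf2q1_4.enc h1.l h2)) (pr_norm (pr_addc (pr_scaleT 1 100000 h1) (enc_rat _ 2313 2000000))))⟩
noncomputable def kf2q1_140_s : Sl2 kf2q1_140 := ⟨_, fun h1 h2 => (pr_csub (enc_pnc _ 1) h1)⟩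
noncomputable def kf2q1_141_s : Sl2 kf2q1_141 := ⟨_, fun h1 h2 => (gsg_s.snd (pr_norm (kf2q1_140_s.snd h1 h2)))⟩
noncomputable def kf2q1_145_s : Sl2 kf2q1_145 := ⟨_, fun h1 h2 => (esg_s.snd (pr_norm (kf2q1_140_s.snd h1 h2)))⟩
noncomputable def kf2q1_147_s : Sl2 kf2q1_147 := ⟨_, fun h1 h2 => (pr_scaleT 3 2 (kf2q1_140_s.snd h1 h2))⟩
noncomputable def kf2q1_149_s : Sl2 kf2q1_149 := ⟨_, fun h1 h2 => (pr_cadd (enc_pnc _ 1) (kf2q1_141_s.snd h1 h2))⟩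
noncomputable def kf2q1_s : Sl2 kf2q1 := ⟨_, fun h1 h2 => (pr_norm (pr_case (pr_subr 15 16 h1) (pr_mul (cv2m_s.snd h1) (pr_norm (pr_case (pr_subr 3 4 h1) (pr_case (pr_subr 13 20 h1) (pr_case (pr_subr 3 5 h1) (pr_add (pr_csub (enc_rat _ 95659237 100000000) (pr_scaleT 1 2000000 h1)) (pr_cmul (enc_norm (kf2q1_4.enc h1.l h2)) (pr_norm (pr_addc (pr_scaleT 7 1000000 h1) (enc_rat _ 463 400000))))) (pr_add (pr_csub (enc_rat _ 19131851 20000000) (kf2q1_20_s.snd h1 h2)) (pr_cmul (enc_norm (kf2q1_4.enc h1.l h2)) (pr_norm (pr_addc (kf2q1_24_s.snd h1 h2) (enc_rat _ 11533 10000000)))))) (pr_case (pr_subr 7 10 h1) (pr_add (pr_csub (enc_rat _ 47829621 50000000) (pr_scaleT 3 5000000 h1)) (pr_cmul (enc_norm (kf2q1_4.enc h1.l h2)) (pr_norm (pr_addc (pr_scaleT 1 62500 h1) (enc_rat _ 18 15625))))) (pr_add (pr_csub (enc_rat _ 11957407 12500000) (kf2q1_20_s.snd h1 h2)) (pr_cmul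 (enc_norm (kf2q1_4.enc h1.l h2)) (pr_norm (pr_addc (kf2q1_24_s.snd h1 h2) (enc_rat _ 5767 5000000))))))) (pr_case (pr_subr 41 50 h1) (pr_case (pr_subr 79 100 h1) (pr_add (pr_csub (enc_rat _ 382637009 400000000) (pr_scaleT 3 4000000 h1)) (pr_cmul (enc_norm (kf2q1_4.enc h1.l h2)) (pr_norm (pr_addc (pr_scaleT 1 80000 h1) (enc_rat _ 46181 40000000))))) (pr_add (pr_csub (enc_rat _ 143488829 150000000) (pr_scaleT 1 3000000 h1)) (kf2q1_69_s.snd h1 h2))) (pr_case (pr_subr 22 25 h1) (pr_add (pr_csub (enc_rat _ 14348887 15000000) (pr_scaleT 1 1500000 h1)) (kf2q1_69_s.snd h1 h2)) (pr_case (pr_subr 91 100 h1) (pr_add (pr_csub (enc_rat _ 23914819 25000000) (pr_scaleT 1 1000000 h1)) (pr_cmul (enc_norm (kf2q1_4.enc h1.l h2)) (pr_norm (pr_addc (pr_scaleT 1 75000 h1) (enc_rat _ 34607 30000000))))) (pr_add (pr_csub (enc_rat _ 3288287567 3437500000) (pr_scaleT 271 275000000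 h1)) (pr_cmul (enc_norm (kf2q1_4.enc h1.l h2)) (pr_norm (pr_addc (pr_scaleT 221 27500000 h1) (enc_rat _ 796391 687500000))))))))))) (pr_case (pr_subr 63 64 h1) (pr_add (pr_add (pr_mul (pr_norm (pr_mul (pr_norm (pr_sub (kf2q1_141_s.snd h1 h2) (kf2q1_147_s.snd h1 h2))) (pr_norm (kf2q1_149_s.snd h1 h2)))) (pr_nd (pr_inv (pr_sub (kf2q1_149_s.snd h1 h2) (kf2q1_147_s.snd h1 h2))))) (pr_wR (pr_mul (pr_norm (pr_sub (pr_half (kf2q1_140_s.snd h1 h2)) (pr_mul (pr_nd (pr_scaleT 3 4 (pr_sq (pr_norm (kf2q1_140_s.snd h1 h2))))) (pr_nd (pr_inv (kf2q1_141_s.snd h1 h2)))))) (pr_nd (pr_inv (pr_nat 2 (kf2q1_145_s.snd h1 h2))))) (kf2q1_140_s.snd h1 h2) (kf2q1_141_s.snd h1 h2) (kf2q1_145_s.snd h1 h2) rfl rfl rfl rfl rfl rfl)) (pr_mul (kcg_s.snd (pr_norm (pr_sub (pr_scaleT 3 4 (kf2q1_140_s.snd h1 h2)) (pr_half (kf2q1_141_s.snd h1 h2)))) h2) (pr_norm (kf2q1_140_s.snd h1 h2))))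 (pr_mul (cv2m_s.snd h1) (pr_norm (pr_case (pr_subr 397 400 h1) (pr_add (pr_addc (pr_scaleT 13319161 20312500 h1) (enc_rat _ 11231260057 32500000000)) (pr_cmul (enc_norm (kf2q1_4.enc h1.l h2)) (pr_norm (pr_subr 3069791 1625000000 (pr_scaleT 7703 4062500 h1))))) (pr_case (pr_subr 249 250 h1) (pr_add (pr_addc (pr_scaleT 169753 350000 h1) (enc_rat _ 180250323 350000000)) (pr_cmul (enc_norm (kf2q1_4.enc h1.l h2)) (pr_norm (pr_csub (enc_rat _ 961 4375000) (pr_scaleT 1 4375 h1))))) (pr_add (pr_addc (pr_scaleT 96527 200000 h1) (enc_rat _ 103473 200000)) (pr_cmul (enc_norm (kf2q1_4.enc h1.l h2)) (pr_norm (pr_subr 1 500 (pr_scaleT 1 500 h1))))))))))))⟩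
noncomputable def qsg_s : Sl1 qsg := ⟨_, fun h1 => (pr_norm (pr_mul (pr_norm (pr_csub (enc_pnc _ 1) (gsg_s.snd h1))) (pr_norm (pr_subn 1 (pr_nat 2 (gsg_s.snd h1))))))⟩
noncomputable def l2q1_185_s : Sl2 l2q1_185 := ⟨_, fun h1 h2 => (pr_csub (enc_pnc _ 1) h1)⟩
noncomputable def l2q1_s : Sl2 l2q1 := ⟨_, fun h1 h2 => (pr_norm (pr_case (pr_subr 15 16 h1) (pr_mul (cv2m_s.snd h1) (pr_norm (pr_case (pr_subr 79 100 h1) (pr_case (pr_subr 13 20 h1) (pr_case (pr_subr 3 5 h1) (pr_add (pr_csub (enc_rat _ 87243 100000000) (pr_scaleT 289 10000000 h1)) (pr_cmul (enc_norm (l2q1_4.enc h1.l h2)) (pr_norm (pr_subr 4509 10000000 (pr_scaleT 183 500000 h1))))) (pr_add (pr_csub (enc_rat _ 17553 20000000) (pr_scaleT 47 1250000 h1)) (pr_cmul (enc_norm (l2q1_4.enc h1.l h2)) (pr_norm (pr_subr 6669 10000000 (pr_scaleT 363 500000 h1)))))) (pr_case (pr_subr 7 10 h1) (pr_add (pr_csub (enc_rat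 _ 87947 100000000) (pr_scaleT 101 2500000 h1)) (pr_cmul (enc_norm (l2q1_4.enc h1.l h2)) (pr_norm (pr_subr 6747 10000000 (pr_scaleT 369 500000 h1))))) (pr_case (pr_subr 3 4 h1) (pr_add (pr_csub (enc_rat _ 87877 100000000) (pr_scaleT 197 5000000 h1)) (pr_cmul (enc_norm (l2q1_4.enc h1.l h2)) (pr_norm (pr_subr 1341 2000000 (pr_scaleT 183 250000 h1))))) (pr_add (pr_csub (enc_rat _ 175019 200000000) (pr_scaleT 69 2000000 h1)) (pr_cmul (enc_norm (l2q1_4.enc h1.l h2)) (pr_norm (pr_subr 4527 8000000 (pr_scaleT 237 400000 h1)))))))) (pr_case (pr_subr 17 20 h1) (pr_case (pr_subr 41 50 h1) (pr_add (pr_csub (enc_rat _ 3483 4000000) (pr_scaleT 29 1000000 h1)) (pr_cmul (enc_norm (l2q1_4.enc h1.l h2)) (pr_norm (pr_subr 4533 10000000 (pr_scaleT 9 20000 h1))))) (pr_add (pr_csub (enc_rat _ 52163 60000000) (pr_scaleT 41 1500000 h1)) (pr_cmul (enc_norm (l2q1_4.enc h1.l h2))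 (pr_norm (pr_subr 14009 30000000 (pr_scaleT 7 15000 h1)))))) (pr_case (pr_subr 22 25 h1) (pr_add (pr_csub (enc_rat _ 52129 60000000) (pr_scaleT 1 37500 h1)) (pr_cmul (enc_norm (l2q1_4.enc h1.l h2)) (pr_norm (pr_subr 2519 5000000 (pr_scaleT 51 100000 h1))))) (pr_case (pr_subr 91 100 h1) (pr_add (pr_csub (enc_rat _ 260381 300000000) (pr_scaleT 77 3000000 h1)) (pr_cmul (enc_norm (l2q1_4.enc h1.l h2)) (pr_norm (pr_subr 7513 15000000 (pr_scaleT 19 37500 h1))))) (pr_add (pr_add (pr_csub (enc_rat _ 5945581 6875000000) (pr_scaleT 3057 137500000 h1)) (pr_cmul (enc_norm (l2q1_4.enc h1.l h2)) (pr_norm (pr_subr 127884137 687500000 (pr_scaleT 2810039 13750000 h1))))) (pr_cmul (l2q1_132.enc h1.l h2) (pr_norm (pr_subr 9191 250000 (pr_scaleT 101 2500 h1))))))))))) (pr_case (pr_subr 63 64 h1) (pr_sub (qsg_s.snd (pr_norm (l2q1_185_s.snd h1 h2))) (pr_mul (pr_norm (pr_nat 2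 (pr_subc (l2q1_185_s.snd h1 h2) h2))) (pr_norm (pr_mul (esg_s.snd (pr_norm (l2q1_185_s.snd h1 h2))) (kcg_s.snd (pr_norm (pr_sub (pr_scaleT 3 4 (l2q1_185_s.snd h1 h2)) (pr_half (gsg_s.snd (pr_norm (l2q1_185_s.snd h1 h2)))))) h2))))) (pr_mul (cv2m_s.snd h1) (pr_norm (pr_case (pr_subr 397 400 h1) (pr_add (pr_add (pr_csub (enc_rat _ 138590493 16250000000) (pr_scaleT 693363 81250000 h1)) (pr_cmul (enc_norm (l2q1_4.enc h1.l h2)) (pr_norm (pr_csub (enc_rat _ 683170857 3250000000) (pr_scaleT 427839 2031250 h1))))) (pr_cmul (l2q1_132.enc h1.l h2) (pr_norm (pr_subr 4367 1625000 (pr_scaleT 22 8125 h1))))) (pr_case (pr_subr 249 250 h1) (pr_add (pr_csub (enc_rat _ 130801 17500000) (pr_scaleT 523 70000 h1)) (pr_cmul (enc_norm (l2q1_4.enc h1.l h2)) (pr_norm (pr_csub (enc_rat _ 9422449 70000000) (pr_scaleT 2353 17500 h1))))) (pr_add (pr_csub (enc_rat _ 41 5000) (pr_scaleT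 41 5000 h1)) (pr_cmul (enc_norm (l2q1_4.enc h1.l h2)) (pr_norm (pr_csub (enc_rat _ 6871 40000) (pr_scaleT 6871 40000 h1))))))))))))⟩
noncomputable def cv2p_s : Sl1 cv2p := ⟨_, fun h1 => (pr_norm (pr_subr 1 2 (swg_s.snd h1)))⟩
noncomputable def kf2q2_64_s : Sl2 kf2q2_64 := ⟨_, fun h1 h2 => (pr_scaleT 1 1250000 h1)⟩
noncomputable def kf2q2_77_s : Sl2 kf2q2_77 := ⟨_, fun h1 h2 => (pr_scaleT 1 1000000 h1)⟩
noncomputable def kf2q2_80_s : Sl2 kf2q2_80 := ⟨_, fun h1 h2 => (pr_scaleT 1 50000 h1)⟩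
noncomputable def kf2q2_91_s : Sl2 kf2q2_91 := ⟨_, fun h1 h2 => (pr_scaleT 3 125000 h1)⟩
noncomputable def kf2q2_134_s : Sl2 kf2q2_134 := ⟨_, fun h1 h2 => (pr_cmul (enc_norm (kf2q2_4.enc h1.l h2)) (pr_norm (pr_csub (enc_rat _ 35307 10000000) (kf2q2_91_s.snd h1 h2))))⟩
noncomputable def kf2q2_163_s : Sl2 kf2q2_163 := ⟨_, fun h1 h2 => (pr_subn 1 h1)⟩
noncomputable def kf2q2_164_s : Sl2 kf2q2_164 := ⟨_, fun h1 h2 => (gsg_s.snd (pr_norm (kf2q2_163_s.snd h1 h2)))⟩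
noncomputable def kf2q2_168_s : Sl2 kf2q2_168 := ⟨_, fun h1 h2 => (esg_s.snd (pr_norm (kf2q2_163_s.snd h1 h2)))⟩
noncomputable def kf2q2_170_s : Sl2 kf2q2_170 := ⟨_, fun h1 h2 => (pr_scaleT 3 2 (kf2q2_163_s.snd h1 h2))⟩
noncomputable def kf2q2_172_s : Sl2 kf2q2_172 := ⟨_, fun h1 h2 => (pr_cadd (enc_pnc _ 1) (kf2q2_164_s.snd h1 h2))⟩
noncomputable def kf2q2_s : Sl2 kf2q2 := ⟨_, fun h1 h2 => (pr_norm (pr_case (pr_subr 65 64 h1) (pr_mul (cv2p_s.snd h1) (pr_norm (pr_case (pr_subr 251 250 h1) (pr_add (pr_csub (enc_rat _ 59057 50000) (pr_scaleT 9057 50000 h1)) (pr_cmul (enc_norm (kf2q2_4.enc h1.l h2)) (pr_norm (pr_subr 8013 20000 (pr_scaleT 8013 20000 h1))))) (pr_case (pr_subr 403 400 h1) (pr_add (pr_csub (enc_rat _ 18215751 12500000) (pr_scaleT 2851 6250 h1)) (pr_cmul (enc_norm (kf2q2_4.enc h1.l h2)) (pr_norm (pr_csub (enc_rat _ 84317 5000000) (pr_scaleT 19 1250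 h1))))) (pr_add (pr_csub (enc_rat _ 550072179 500000000) (pr_scaleT 1652669 16250000 h1)) (pr_cmul (enc_norm (kf2q2_4.enc h1.l h2)) (pr_norm (pr_csub (enc_rat _ 50521387 250000000) (pr_scaleT 1617227 8125000 h1))))))))) (pr_case (pr_subr 17 16 h1) (pr_add (pr_sub (pr_mul (pr_norm (pr_mul (pr_norm (pr_sub (kf2q2_164_s.snd h1 h2) (kf2q2_170_s.snd h1 h2))) (pr_norm (kf2q2_172_s.snd h1 h2)))) (pr_nd (pr_inv (pr_sub (kf2q2_172_s.snd h1 h2) (kf2q2_170_s.snd h1 h2))))) (pr_wR (pr_mul (pr_norm (pr_sub (pr_half (kf2q2_163_s.snd h1 h2)) (pr_mul (pr_nd (pr_scaleT 3 4 (pr_sq (pr_norm (kf2q2_163_s.snd h1 h2))))) (pr_nd (pr_inv (kf2q2_164_s.snd h1 h2)))))) (pr_nd (pr_inv (pr_nat 2 (kf2q2_168_s.snd h1 h2))))) (kf2q2_163_s.snd h1 h2) (kf2q2_164_s.snd h1 h2) (kf2q2_168_s.snd h1 h2) rfl rfl rfl rfl rfl rfl)) (pr_mul (kcg_s.snd (pr_norm (pr_sub (pr_scaleT 3 4 (kf2q2_163_s.snd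 h1 h2)) (pr_half (kf2q2_164_s.snd h1 h2)))) h2) (pr_norm (kf2q2_163_s.snd h1 h2)))) (pr_mul (cv2p_s.snd h1) (pr_norm (pr_case (pr_subr 59 50 h1) (pr_case (pr_subr 221 200 h1) (pr_case (pr_subr 217 200 h1) (pr_add (pr_addc (pr_scaleT 11 7500000 h1) (enc_rat _ 1452584053 1500000000)) (pr_cmul (enc_norm (kf2q2_4.enc h1.l h2)) (pr_norm (pr_csub (enc_rat _ 790877 225000000) (pr_scaleT 11 1125000 h1))))) (pr_casec1 (pr_subr 437 400 h1) (enc_add (enc_rat _ 12104887 12500000) (enc_scaleT 8761 2500000 (kf2q2_4.enc h1.l h2))) (pr_add (pr_addc (kf2q2_64_s.snd h1 h2) (enc_rat _ 484195043 500000000)) (pr_cmul (enc_norm (kf2q2_4.enc h1.l h2)) (pr_norm (pr_csub (enc_rat _ 88047 25000000) (pr_scaleT 1 62500 h1))))))) (pr_case (pr_subr 9 8 h1) (pr_add (pr_addc (kf2q2_77_s.snd h1 h2) (enc_rat _ 193677973 200000000)) (pr_cmul (enc_norm (kf2q2_4.enc h1.l h2)) (pr_norm (pr_csub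 (enc_rat _ 35263 10000000) (kf2q2_80_s.snd h1 h2))))) (pr_case (pr_subr 23 20 h1) (pr_add (pr_addc (pr_scaleT 3 2500000 h1) (enc_rat _ 24209741 25000000)) (pr_cmul (enc_norm (kf2q2_4.enc h1.l h2)) (pr_norm (pr_csub (enc_rat _ 8827 2500000) (kf2q2_91_s.snd h1 h2))))) (pr_add (pr_addc (pr_scaleT 1 1500000 h1) (enc_rat _ 72629269 75000000)) (pr_cmul (enc_norm (kf2q2_4.enc h1.l h2)) (pr_norm (pr_csub (enc_rat _ 35377 10000000) (pr_scaleT 3 100000 h1)))))))) (pr_case (pr_subr 13 10 h1) (pr_case (pr_subr 121 100 h1) (pr_add (pr_addc (kf2q2_77_s.snd h1 h2) (enc_rat _ 48419493 50000000)) (pr_cmul (enc_norm (kf2q2_4.enc h1.l h2)) (pr_norm (pr_csub (enc_rat _ 106013 30000000) (pr_scaleT 1 37500 h1))))) (pr_case (pr_subr 5 4 h1) (pr_add (pr_addc (pr_scaleT 3 4000000 h1) (enc_rat _ 77471213 80000000)) (pr_cmul (enc_norm (kf2q2_4.enc h1.l h2)) (pr_norm (pr_csub (enc_rat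 _ 35257 10000000) (kf2q2_80_s.snd h1 h2))))) (pr_add (pr_addc (kf2q2_77_s.snd h1 h2) (enc_rat _ 19367797 20000000)) (kf2q2_134_s.snd h1 h2)))) (pr_case (pr_subr 27 20 h1) (pr_add (pr_addc (kf2q2_64_s.snd h1 h2) (enc_rat _ 96839011 100000000)) (kf2q2_134_s.snd h1 h2)) (pr_case (pr_subr 7 5 h1) (pr_add (pr_addc (kf2q2_77_s.snd h1 h2) (enc_rat _ 12104873 12500000)) (kf2q2_134_s.snd h1 h2)) (pr_add (pr_addc (pr_scaleT 13 10000000 h1) (enc_rat _ 48419471 50000000)) (pr_cmul (enc_norm (kf2q2_4.enc h1.l h2)) (pr_norm (pr_csub (enc_rat _ 35601 10000000) (pr_scaleT 9 200000 h1))))))))))))))⟩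
noncomputable def l2q2_198_s : Sl2 l2q2_198 := ⟨_, fun h1 h2 => (pr_subn 1 h1)⟩
noncomputable def l2q2_s : Sl2 l2q2 := ⟨_, fun h1 h2 => (pr_norm (pr_case (pr_subr 65 64 h1) (pr_mul (cv2p_s.snd h1) (pr_norm (pr_case (pr_subr 251 250 h1) (pr_add (pr_subr 8321 400000 (pr_scaleT 8321 400000 h1)) (pr_cmul (enc_norm (l2q2_4.enc h1.l h2)) (pr_norm (pr_subr 21749 40000 (pr_scaleT 21749 40000 h1))))) (pr_case (pr_subr 403 400 h1) (pr_add (pr_subr 11337153 700000000 (pr_scaleT 227 14000 h1)) (pr_cmul (enc_norm (l2q2_4.enc h1.l h2)) (pr_norm (pr_subr 3995993 14000000 (pr_scaleT 5013 17500 h1))))) (pr_add (pr_add (pr_subr 37791649 1250000000 (pr_scaleT 1224729 40625000 h1)) (pr_cmul (enc_norm (l2q2_4.enc h1.l h2)) (pr_norm (pr_subr 33511589 50000000 (pr_scaleT 135768 203125 h1))))) (pr_cmul (l2q2_43.enc h1.l h2) (pr_norm (pr_csub (enc_rat _ 2077 250000) (pr_scaleT 67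 8125 h1))))))))) (pr_case (pr_subr 17 16 h1) (pr_sub (qsg_s.snd (pr_norm (l2q2_198_s.snd h1 h2))) (pr_mul (pr_norm (pr_nat 2 (pr_subc (l2q2_198_s.snd h1 h2) h2))) (pr_norm (pr_mul (esg_s.snd (pr_norm (l2q2_198_s.snd h1 h2))) (kcg_s.snd (pr_norm (pr_sub (pr_scaleT 3 4 (l2q2_198_s.snd h1 h2)) (pr_half (gsg_s.snd (pr_norm (l2q2_198_s.snd h1 h2)))))) h2))))) (pr_mul (cv2p_s.snd h1) (pr_norm (pr_case (pr_subr 59 50 h1) (pr_case (pr_subr 221 200 h1) (pr_case (pr_subr 217 200 h1) (pr_add (pr_add (pr_addc (pr_scaleT 1701 25000000 h1) (enc_rat _ 12322883 5000000000)) (pr_cmul (enc_norm (l2q2_4.enc h1.l h2)) (pr_norm (pr_csub (enc_rat _ 457455623 562500000) (pr_scaleT 4216663 5625000 h1))))) (pr_cmul (l2q2_43.enc h1.l h2) (pr_norm (pr_csub (enc_rat _ 36239 225000) (pr_scaleT 167 1125 h1))))) (pr_case (pr_subr 437 400 h1) (pr_add (pr_addc (pr_scaleT 3 62500 h1) (enc_rat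 _ 31079 12500000)) (pr_cmul (enc_norm (l2q2_4.enc h1.l h2)) (pr_norm (pr_csub (enc_rat _ 2449 7500000) (pr_scaleT 29 75000 h1))))) (pr_add (pr_addc (pr_scaleT 7 156250 h1) (enc_rat _ 311227 125000000)) (pr_cmul (enc_norm (l2q2_4.enc h1.l h2)) (pr_norm (pr_csub (enc_rat _ 32787 50000000) (pr_scaleT 43 62500 h1))))))) (pr_case (pr_subr 9 8 h1) (pr_add (pr_addc (pr_scaleT 49 1000000 h1) (enc_rat _ 99407 40000000)) (pr_cmul (enc_norm (l2q2_4.enc h1.l h2)) (pr_norm (pr_csub (enc_rat _ 22441 20000000) (pr_scaleT 111 100000 h1))))) (pr_case (pr_subr 23 20 h1) (pr_add (pr_addc (pr_scaleT 61 1250000 h1) (enc_rat _ 12427 5000000)) (pr_cmul (enc_norm (l2q2_4.enc h1.l h2)) (pr_norm (pr_csub (enc_rat _ 14753 10000000) (pr_scaleT 89 62500 h1))))) (pr_add (pr_addc (pr_scaleT 59 1500000 h1) (enc_rat _ 374443 150000000)) (pr_cmul (enc_norm (l2q2_4.enc h1.l h2)) (pr_norm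 (pr_csub (enc_rat _ 27983 15000000) (pr_scaleT 529 300000 h1)))))))) (pr_case (pr_subr 13 10 h1) (pr_case (pr_subr 121 100 h1) (pr_add (pr_addc (pr_scaleT 47 3000000 h1) (enc_rat _ 47329 18750000)) (pr_cmul (enc_norm (l2q2_4.enc h1.l h2)) (pr_norm (pr_csub (enc_rat _ 2521 1500000) (pr_scaleT 241 150000 h1))))) (pr_case (pr_subr 5 4 h1) (pr_add (pr_addc (pr_scaleT 9 500000 h1) (enc_rat _ 252139 100000000)) (pr_cmul (enc_norm (l2q2_4.enc h1.l h2)) (pr_norm (pr_csub (enc_rat _ 27281 20000000) (pr_scaleT 269 200000 h1))))) (pr_add (pr_addc (pr_scaleT 673 1250000 h1) (enc_rat _ 187089 100000000)) (pr_cmul (enc_norm (l2q2_4.enc h1.l h2)) (pr_norm (pr_csub (enc_rat _ 17503 10000000) (pr_scaleT 827 500000 h1))))))) (pr_case (pr_subr 27 20 h1) (pr_add (pr_addc (pr_scaleT 223 250000 h1) (enc_rat _ 141121 100000000)) (pr_cmul (enc_norm (l2q2_4.enc h1.l h2)) (pr_norm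 (pr_csub (enc_rat _ 17633 10000000) (pr_scaleT 26 15625 h1))))) (pr_case (pr_subr 7 5 h1) (pr_add (pr_addc (pr_scaleT 5741 5000000 h1) (enc_rat _ 53267 50000000)) (pr_cmul (enc_norm (l2q2_4.enc h1.l h2)) (pr_norm (pr_csub (enc_rat _ 17741 10000000) (pr_scaleT 209 125000 h1))))) (pr_add (pr_addc (pr_scaleT 13233 10000000 h1) (enc_rat _ 4101 5000000)) (pr_cmul (enc_norm (l2q2_4.enc h1.l h2)) (pr_norm (pr_csub (enc_rat _ 33659 10000000) (pr_scaleT 2809 1000000 h1))))))))))))))⟩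
noncomputable def cv2r_s : Sl1 cv2r := ⟨_, fun h1 => (pr_norm (pr_subr 1 2 (swg_s.snd h1)))⟩
noncomputable def bf2q3_38_s : Sl2 bf2q3_38 := ⟨_, fun h1 h2 => (pr_subr 173984031 100000000 (pr_neg (pr_scaleT 1 10000000 h1)))⟩
noncomputable def bf2q3_s : Sl2 bf2q3 := ⟨_, fun h1 h2 => (pr_norm (pr_case (pr_subr 9 5 h1) (pr_case (pr_subr 33 20 h1) (pr_add (pr_subr 86992013 50000000 (pr_neg (pr_scaleT 1 7500000 h1))) (pr_cmul (enc_norm (bf2q3_3.enc h1.l h2)) (pr_norm (pr_subr 178913201 5000000 (pr_neg (pr_scaleT 1 1500000 h1)))))) (pr_subc (pr_subr 173984037 100000000 (pr_neg (pr_scaleT 1 15000000 h1))) (enc_scaleT 357826413 10000000 (bf2q3_3.enc h1.l h2)))) (pr_case (pr_subr 19 10 h1) (pr_add (bf2q3_38_s.snd h1 h2) (pr_cmul (enc_norm (bf2q3_3.enc h1.l h2)) (pr_norm (pr_subr 71565279 2000000 (pr_neg (pr_scaleT 1 1000000 h1)))))) (pr_add (bf2q3_38_s.snd h1 h2) (pr_cmul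 (enc_norm (bf2q3_3.enc h1.l h2)) (pr_norm (pr_subr 44728297 1250000 (pr_neg (pr_scaleT 1 500000 h1)))))))))⟩
noncomputable def kf2q3_s : Sl2 kf2q3 := ⟨_, fun h1 h2 => (pr_norm (pr_mul (cv2r_s.snd h1) (bf2q3_s.snd h1 h2)))⟩
noncomputable def bx2q3_s : Sl2 bx2q3 := ⟨_, fun h1 h2 => (pr_norm (pr_case (pr_subr 9 5 h1) (pr_case (pr_subr 33 20 h1) (pr_add (pr_subr 591199 12500000 (pr_scaleT 1 300000 h1)) (pr_cmul (enc_norm (bx2q3_3.enc h1.l h2)) (pr_norm (pr_subr 25766317 5000000 (pr_scaleT 11 750000 h1))))) (pr_add (pr_subr 4729361 100000000 (pr_scaleT 29 15000000 h1)) (pr_cmul (enc_norm (bx2q3_3.enc h1.l h2)) (pr_norm (pr_subr 51531567 10000000 (pr_neg (pr_scaleT 1 20000 h1))))))) (pr_case (pr_subr 19 10 h1) (pr_add (pr_subr 4729139 100000000 (pr_scaleT 7 10000000 h1)) (pr_cmul (enc_norm (bx2q3_3.enc h1.l h2)) (pr_norm (pr_subr 51532539 10000000 (pr_scaleT 1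 250000 h1))))) (pr_add (pr_subr 2364541 50000000 (pr_scaleT 1 2500000 h1)) (pr_cmul (enc_norm (bx2q3_3.enc h1.l h2)) (pr_norm (pr_subr 51532729 10000000 (pr_scaleT 7 500000 h1))))))))⟩
noncomputable def l2q3_s : Sl2 l2q3 := ⟨_, fun h1 h2 => (pr_norm (pr_mul (cv2r_s.snd h1) (bx2q3_s.snd h1 h2)))⟩
noncomputable def c3g_s : Sl1 c3g := ⟨_, fun h1 => (pr_sqrtg (pr_csub (enc_pnc _ 3) (pr_scaleT 3 4 (pr_sq h1))))⟩
noncomputable def cv3m_s : Sl1 cv3m := ⟨_, fun h1 => (pr_norm (pr_add (pr_half (pr_addc (swg_s.snd h1) (enc_rat _ 1 2))) (pr_half (c3g_s.snd h1))))⟩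
noncomputable def bf3q0_s : Sl2 bf3q0 := ⟨_, fun h1 h2 => (pr_norm (pr_case (pr_subr 1 5 h1) (pr_case (pr_subr 1 10 h1) (pr_add (pr_subr 8239613 25000000 (pr_neg (pr_scaleT 3 2000000 h1))) (pr_cmul (enc_norm (bf3q0_3.enc h1.l h2)) (pr_norm (pr_addc (pr_scaleT 11 1000000 h1) (enc_rat _ 50915853 500000))))) (pr_add (pr_subr 32958451 100000000 (pr_neg (pr_scaleT 1 625000 h1))) (pr_cmul (enc_norm (bf3q0_3.enc h1.l h2)) (pr_norm (pr_addc (pr_scaleT 7 1000000 h1) (enc_rat _ 127289633 1250000)))))) (pr_case (pr_subr 7 20 h1) (pr_add (pr_subr 98875357 300000000 (pr_neg (pr_scaleT 23 15000000 h1))) (pr_cmul (enc_norm (bf3q0_3.enc h1.l h2)) (pr_norm (pr_addc (pr_scaleT 11 1500000 h1) (enc_rat _ 305495119 3000000))))) (pr_add (pr_subr 128744 390625 (pr_neg (pr_scaleT 3 2500000 h1))) (pr_cmul (enc_norm (bf3q0_3.enc h1.l h2)) (pr_norm (pr_addc (pr_scaleT 1 150000 h1)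 (enc_rat _ 3054951197 30000000))))))))⟩
noncomputable def kf3q0_s : Sl2 kf3q0 := ⟨_, fun h1 h2 => (pr_norm (pr_mul (cv3m_s.snd h1) (bf3q0_s.snd h1 h2)))⟩
noncomputable def bx3q0_s : Sl2 bx3q0 := ⟨_, fun h1 h2 => (pr_norm (pr_case (pr_subr 1 5 h1) (pr_case (pr_subr 1 10 h1) (pr_add (pr_addc (pr_scaleT 639 10000000 h1) (enc_rat _ 473917 25000000)) (pr_cmul (enc_norm (bx3q0_3.enc h1.l h2)) (pr_norm (pr_subr 48157929 10000000 (pr_neg (pr_scaleT 81 125000 h1)))))) (pr_add (pr_addc (pr_scaleT 181 2500000 h1) (enc_rat _ 1895583 100000000)) (pr_cmul (enc_norm (bx3q0_3.enc h1.l h2)) (pr_norm (pr_subr 48157677 10000000 (pr_neg (pr_scaleT 9 10000 h1))))))) (pr_case (pr_subr 7 20 h1) (pr_add (pr_addc (pr_scaleT 239 3000000 h1) (enc_rat _ 5686313 300000000)) (pr_cmul (enc_norm (bx3q0_3.enc h1.l h2)) (pr_norm (pr_subr 144471391 30000000 (pr_neg (pr_scaleT 11 9375 h1))))))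 (pr_add (pr_addc (pr_scaleT 517 7500000 h1) (enc_rat _ 71093 3750000)) (pr_cmul (enc_norm (bx3q0_3.enc h1.l h2)) (pr_norm (pr_subr 48157639 10000000 (pr_neg (pr_scaleT 257 250000 h1)))))))))⟩
noncomputable def l3q0_s : Sl2 l3q0 := ⟨_, fun h1 h2 => (pr_norm (pr_mul (cv3m_s.snd h1) (bx3q0_s.snd h1 h2)))⟩
noncomputable def bf3q1_s : Sl2 bf3q1 := ⟨_, fun h1 h2 => (pr_norm (pr_case (pr_subr 22 25 h1) (pr_case (pr_subr 3 4 h1) (pr_case (pr_subr 13 20 h1) (pr_case (pr_subr 3 5 h1) (pr_add (pr_addc (pr_scaleT 3 2000000 h1) (enc_rat _ 49379431 50000000)) (pr_cmul (enc_norm (bf3q1_3.enc h1.l h2)) (pr_norm (pr_subr 21777 10000000 (pr_scaleT 1 12500 h1))))) (pr_add (pr_addc (pr_scaleT 1 500000 h1) (enc_rat _ 6172427 6250000)) (pr_cmul (enc_norm (bf3q1_3.enc h1.l h2)) (pr_norm (pr_subr 21681 10000000 (pr_scaleT 1 15625 h1)))))) (pr_case (pr_subr 7 10 h1) (pr_add (pr_addc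 (pr_scaleT 11 5000000 h1) (enc_rat _ 98758819 100000000)) (pr_cmul (enc_norm (bf3q1_3.enc h1.l h2)) (pr_norm (pr_subr 10847 5000000 (pr_scaleT 33 500000 h1))))) (pr_add (pr_addc (pr_scaleT 17 5000000 h1) (enc_rat _ 19751747 20000000)) (pr_cmul (enc_norm (bf3q1_3.enc h1.l h2)) (pr_norm (pr_subr 10861 5000000 (pr_scaleT 7 100000 h1))))))) (pr_case (pr_subr 41 50 h1) (pr_case (pr_subr 79 100 h1) (pr_add (pr_addc (pr_scaleT 21 4000000 h1) (enc_rat _ 79006877 80000000)) (pr_cmul (enc_norm (bf3q1_3.enc h1.l h2)) (pr_norm (pr_subr 86213 40000000 (pr_scaleT 19 400000 h1))))) (pr_add (pr_addc (pr_scaleT 11 1000000 h1) (enc_rat _ 49379071 50000000)) (pr_cmul (enc_norm (bf3q1_3.enc h1.l h2)) (pr_norm (pr_subr 16081 7500000 (pr_scaleT 1 30000 h1)))))) (pr_case (pr_subr 17 20 h1) (pr_add (pr_addc (pr_scaleT 79 3000000 h1) (enc_rat _ 148135327 150000000)) (pr_cmul (enc_norm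 (bf3q1_3.enc h1.l h2)) (pr_norm (pr_subr 401 187500 (pr_scaleT 1 37500 h1))))) (pr_add (pr_addc (pr_scaleT 1 15000 h1) (enc_rat _ 296260369 300000000)) (pr_cmul (enc_norm (bf3q1_3.enc h1.l h2)) (pr_norm (pr_subr 4283 2000000 (pr_scaleT 3 100000 h1)))))))) (pr_case (pr_subr 31 32 h1) (pr_case (pr_subr 15 16 h1) (pr_case (pr_subr 91 100 h1) (pr_add (pr_addc (pr_scaleT 521 3000000 h1) (enc_rat _ 296232121 300000000)) (pr_cmul (enc_norm (bf3q1_3.enc h1.l h2)) (pr_norm (pr_subr 21503 10000000 (pr_scaleT 1 25000 h1))))) (pr_add (pr_addc (pr_scaleT 633 1375000 h1) (enc_rat _ 54294873 55000000)) (pr_cmul (enc_norm (bf3q1_3.enc h1.l h2)) (pr_norm (pr_subr 23687 10000000 (pr_scaleT 7 25000 h1)))))) (pr_case (pr_subr 191 200 h1) (pr_add (pr_addc (pr_scaleT 21 15625 h1) (enc_rat _ 9863511 10000000)) (pr_cmul (enc_norm (bf3q1_3.enc h1.l h2)) (pr_norm (pr_subr 33031 5000000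 (pr_scaleT 3 625 h1))))) (pr_add (pr_addc (pr_scaleT 284919 1375000 h1) (enc_rat _ 434359983 550000000)) (pr_cmul (enc_norm (bf3q1_3.enc h1.l h2)) (pr_norm (pr_subr 2792479 55000000 (pr_scaleT 7019 137500 h1))))))) (pr_case (pr_subr 197 200 h1) (pr_case (pr_subr 391 400 h1) (pr_add (pr_addc (pr_scaleT 252913 875000 h1) (enc_rat _ 124332773 175000000)) (pr_cmul (enc_norm (bf3q1_3.enc h1.l h2)) (pr_norm (pr_subr 427437 8750000 (pr_scaleT 4293 87500 h1))))) (pr_add (pr_addc (pr_scaleT 114151 375000 h1) (enc_rat _ 1043189 1500000)) (pr_cmul (enc_norm (bf3q1_3.enc h1.l h2)) (pr_norm (pr_subr 410467 10000000 (pr_scaleT 1027 25000 h1)))))) (pr_case (pr_subr 397 400 h1) (pr_add (pr_addc (pr_scaleT 78279 250000 h1) (enc_rat _ 6868767 10000000)) (pr_cmul (enc_norm (bf3q1_3.enc h1.l h2)) (pr_norm (pr_subr 398253 10000000 (pr_scaleT 249 6250 h1))))) (pr_add (pr_addc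 (pr_scaleT 235567 750000 h1) (enc_rat _ 514433 750000)) (pr_cmul (enc_norm (bf3q1_3.enc h1.l h2)) (pr_norm (pr_subr 947 25000 (pr_scaleT 947 25000 h1))))))))))⟩
noncomputable def kf3q1_s : Sl2 kf3q1 := ⟨_, fun h1 h2 => (pr_norm (pr_mul (cv3m_s.snd h1) (bf3q1_s.snd h1 h2)))⟩
noncomputable def bx3q1_87_s : Sl2 bx3q1_87 := ⟨_, fun h1 h2 => (pr_scaleT 217 300000 h1)⟩
noncomputable def bx3q1_s : Sl2 bx3q1 := ⟨_, fun h1 h2 => (pr_norm (pr_case (pr_subr 22 25 h1) (pr_case (pr_subr 3 4 h1) (pr_case (pr_subr 13 20 h1) (pr_case (pr_subr 3 5 h1) (pr_add (pr_csub (enc_rat _ 41059 20000000) (pr_scaleT 8293 5000000 h1)) (pr_cmul (enc_norm (bx3q1_3.enc h1.l h2)) (pr_norm (pr_addc (pr_scaleT 719 200000 h1) (enc_rat _ 5517 500000))))) (pr_add (pr_csub (enc_rat _ 40999 20000000) (pr_scaleT 2067 1250000 h1)) (pr_cmul (enc_norm (bx3q1_3.enc h1.l h2)) (pr_norm (pr_addc (pr_scaleT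 1127 500000 h1) (enc_rat _ 59193 5000000)))))) (pr_case (pr_subr 7 10 h1) (pr_add (pr_csub (enc_rat _ 101737 50000000) (pr_scaleT 8151 5000000 h1)) (pr_cmul (enc_norm (bx3q1_3.enc h1.l h2)) (pr_norm (pr_addc (pr_scaleT 951 500000 h1) (enc_rat _ 60337 5000000))))) (pr_add (pr_csub (enc_rat _ 98447 50000000) (pr_scaleT 7681 5000000 h1)) (pr_cmul (enc_norm (bx3q1_3.enc h1.l h2)) (pr_norm (pr_addc (pr_scaleT 201 125000 h1) (enc_rat _ 30683 2500000))))))) (pr_case (pr_subr 41 50 h1) (pr_case (pr_subr 79 100 h1) (pr_add (pr_csub (enc_rat _ 700291 400000000) (pr_scaleT 4981 4000000 h1)) (pr_cmul (enc_norm (bx3q1_3.enc h1.l h2)) (pr_norm (pr_addc (pr_scaleT 511 400000 h1) (enc_rat _ 500843 40000000))))) (pr_add (pr_csub (enc_rat _ 111283 75000000) (pr_scaleT 1361 1500000 h1)) (pr_cmul (enc_norm (bx3q1_3.enc h1.l h2)) (pr_norm (pr_addc (pr_scaleT 3 3125 h1) (enc_rat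 _ 127719 10000000)))))) (pr_case (pr_subr 17 20 h1) (pr_add (pr_csub (enc_rat _ 40979 30000000) (pr_scaleT 2291 3000000 h1)) (pr_cmul (enc_norm (bx3q1_3.enc h1.l h2)) (pr_norm (pr_addc (pr_scaleT 99 100000 h1) (enc_rat _ 127473 10000000))))) (pr_add (pr_csub (enc_rat _ 79901 60000000) (bx3q1_87_s.snd h1 h2)) (pr_cmul (enc_norm (bx3q1_3.enc h1.l h2)) (pr_norm (pr_addc (bx3q1_87_s.snd h1 h2) (enc_rat _ 389219 30000000)))))))) (pr_case (pr_subr 31 32 h1) (pr_case (pr_subr 15 16 h1) (pr_case (pr_subr 91 100 h1) (pr_add (pr_csub (enc_rat _ 17089 12000000) (pr_scaleT 497 600000 h1)) (pr_cmul (enc_norm (bx3q1_3.enc h1.l h2)) (pr_norm (pr_addc (pr_scaleT 23 75000 h1) (enc_rat _ 400219 30000000))))) (pr_add (pr_csub (enc_rat _ 203499 110000000) (pr_scaleT 713 550000 h1)) (pr_cmul (enc_norm (bx3q1_3.enc h1.l h2)) (pr_norm (pr_csub (enc_rat _ 2364851 110000000) (pr_scaleT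 2381 275000 h1)))))) (pr_case (pr_subr 191 200 h1) (pr_add (pr_csub (enc_rat _ 1681101 140000000) (pr_scaleT 2123 175000 h1)) (pr_cmul (enc_norm (bx3q1_3.enc h1.l h2)) (pr_norm (pr_csub (enc_rat _ 22717087 70000000) (pr_scaleT 58081 175000 h1))))) (pr_add (pr_csub (enc_rat _ 12392917 1100000000) (pr_scaleT 15613 1375000 h1)) (pr_cmul (enc_norm (bx3q1_3.enc h1.l h2)) (pr_norm (pr_csub (enc_rat _ 21382393 110000000) (pr_scaleT 26897 137500 h1))))))) (pr_case (pr_subr 197 200 h1) (pr_case (pr_subr 391 400 h1) (pr_add (pr_csub (enc_rat _ 6515779 700000000) (pr_scaleT 8167 875000 h1)) (pr_cmul (enc_norm (bx3q1_3.enc h1.l h2)) (pr_norm (pr_csub (enc_rat _ 7073083 35000000) (pr_scaleT 4453 21875 h1))))) (pr_add (pr_csub (enc_rat _ 2456887 300000000) (pr_scaleT 3071 375000 h1)) (pr_cmul (enc_norm (bx3q1_3.enc h1.l h2)) (pr_norm (pr_csub (enc_rat _ 1141593 5000000)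 (pr_scaleT 144 625 h1)))))) (pr_case (pr_subr 397 400 h1) (pr_add (pr_csub (enc_rat _ 2362327 300000000) (pr_scaleT 2951 375000 h1)) (pr_cmul (enc_norm (bx3q1_3.enc h1.l h2)) (pr_norm (pr_csub (enc_rat _ 568903 7500000) (pr_scaleT 5671 75000 h1))))) (pr_add (pr_csub (enc_rat _ 2137 250000) (pr_scaleT 2137 250000 h1)) (pr_cmul (enc_norm (bx3q1_3.enc h1.l h2)) (pr_norm (pr_csub (enc_rat _ 323 3000) (pr_scaleT 323 3000 h1))))))))))⟩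
noncomputable def l3q1_s : Sl2 l3q1 := ⟨_, fun h1 h2 => (pr_norm (pr_mul (cv3m_s.snd h1) (bx3q1_s.snd h1 h2)))⟩
noncomputable def cv3p_s : Sl1 cv3p := ⟨_, fun h1 => (pr_norm (pr_add (pr_half (pr_subr 1 2 (swg_s.snd h1))) (pr_half (c3g_s.snd h1))))⟩
noncomputable def bf3q2_s : Sl2 bf3q2 := ⟨_, fun h1 h2 => (pr_norm (pr_case (pr_subr 221 200 h1) (pr_case (pr_subr 33 32 h1) (pr_case (pr_subr 203 200 h1) (pr_case (pr_subr 403 400 h1) (pr_add (pr_addc (pr_scaleT 1441 93750 h1) (enc_rat _ 257974813 300000000)) (pr_cmul (enc_norm (bf3q2_3.enc h1.l h2)) (pr_norm (pr_subr 7666679 30000000 (pr_scaleT 1997 18750 h1))))) (pr_add (pr_addc (pr_scaleT 10787 750000 h1) (enc_rat _ 64568359 75000000)) (pr_cmul (enc_norm (bf3q2_3.enc h1.l h2)) (pr_norm (pr_subr 2404569 10000000 (pr_scaleT 286 3125 h1)))))) (pr_case (pr_subr 409 400 h1) (pr_add (pr_addc (pr_scaleT 911 750000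 h1) (enc_rat _ 65570773 75000000)) (pr_cmul (enc_norm (bf3q2_3.enc h1.l h2)) (pr_norm (pr_subr 4656313 30000000 (pr_scaleT 113 15000 h1))))) (pr_add (pr_addc (pr_scaleT 377 875000 h1) (enc_rat _ 612554893 700000000)) (pr_cmul (enc_norm (bf3q2_3.enc h1.l h2)) (pr_norm (pr_subr 2592017 17500000 (pr_scaleT 13 21875 h1))))))) (pr_case (pr_subr 17 16 h1) (pr_case (pr_subr 209 200 h1) (pr_add (pr_addc (pr_scaleT 28 171875 h1) (enc_rat _ 43767737 50000000)) (pr_cmul (enc_norm (bf3q2_3.enc h1.l h2)) (pr_norm (pr_subr 368831 2500000 (pr_scaleT 1 34375 h1))))) (pr_subc (pr_addc (pr_scaleT 27 437500 h1) (enc_rat _ 306411171 350000000)) (enc_scaleT 73751 500000 (bf3q2_3.enc h1.l h2)))) (pr_case (pr_subr 217 200 h1) (pr_add (pr_addc (pr_scaleT 53 2250000 h1) (enc_rat _ 787950929 900000000)) (pr_cmul (enc_norm (bf3q2_3.enc h1.l h2)) (pr_norm (pr_subr 2655121 18000000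 (pr_scaleT 1 225000 h1))))) (pr_subc (pr_addc (pr_scaleT 19 2000000 h1) (enc_rat _ 350206513 400000000)) (bf3q2_92.enc h1.l h2))))) (pr_case (pr_subr 121 100 h1) (pr_case (pr_subr 23 20 h1) (pr_case (pr_subr 9 8 h1) (pr_subc (pr_addc (pr_scaleT 7 2000000 h1) (enc_rat _ 70041833 80000000)) (bf3q2_92.enc h1.l h2)) (pr_add (pr_addc (pr_scaleT 3 2500000 h1) (enc_rat _ 1751051 2000000)) (pr_cmul (enc_norm (bf3q2_3.enc h1.l h2)) (pr_norm (pr_subr 184383 1250000 (pr_scaleT 1 250000 h1)))))) (pr_case (pr_subr 59 50 h1) (pr_subc (pr_addc (pr_scaleT 1 1500000 h1) (enc_rat _ 131328917 150000000)) (enc_scaleT 737509 5000000 (bf3q2_3.enc h1.l h2))) (pr_cadd (enc_rat _ 8755269 10000000) (pr_cmul (enc_norm (bf3q2_3.enc h1.l h2)) (pr_norm (pr_subr 1106293 7500000 (pr_scaleT 1 300000 h1))))))) (pr_case (pr_subr 13 10 h1) (pr_casec (pr_subr 5 4 h1) (pr_add (pr_addc (pr_scaleT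 1 4000000 h1) (enc_rat _ 350210639 400000000)) (pr_cmul (enc_norm (bf3q2_3.enc h1.l h2)) (pr_norm (pr_subr 5900189 40000000 (pr_scaleT 1 400000 h1))))) (enc_sub (enc_rat _ 87552691 100000000) (enc_scaleT 184377 1250000 (bf3q2_3.enc h1.l h2)))) (pr_case (pr_subr 27 20 h1) (pr_cadd (enc_rat _ 87552691 100000000) (pr_cmul (enc_norm (bf3q2_3.enc h1.l h2)) (pr_norm (pr_subr 737521 5000000 (pr_scaleT 1 500000 h1))))) (pr_casec1 (pr_subr 7 5 h1) (enc_sub (enc_rat _ 87552691 100000000) (enc_scaleT 295003 2000000 (bf3q2_3.enc h1.l h2))) (pr_cadd (enc_rat _ 87552691 100000000) (pr_cmul (enc_norm (bf3q2_3.enc h1.l h2)) (pr_norm (pr_subr 1475029 10000000 (pr_scaleT 1 1000000 h1)))))))))))⟩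
noncomputable def kf3q2_s : Sl2 kf3q2 := ⟨_, fun h1 h2 => (pr_norm (pr_mul (cv3p_s.snd h1) (bf3q2_s.snd h1 h2)))⟩
noncomputable def bx3q2_137_s : Sl2 bx3q2_137 := ⟨_, fun h1 h2 => (pr_scaleT 1 1000000 h1)⟩
noncomputable def bx3q2_s : Sl2 bx3q2 := ⟨_, fun h1 h2 => (pr_norm (pr_case (pr_subr 221 200 h1) (pr_case (pr_subr 33 32 h1) (pr_case (pr_subr 203 200 h1) (pr_case (pr_subr 403 400 h1) (pr_add (pr_csub (enc_rat _ 14437351 30000000) (pr_scaleT 180449 375000 h1)) (pr_cmul (enc_norm (bx3q2_3.enc h1.l h2)) (pr_norm (pr_csub (enc_rat _ 3885949 375000) (pr_scaleT 776843 75000 h1))))) (pr_add (pr_csub (enc_rat _ 24049893 50000000) (pr_scaleT 60119 125000 h1)) (pr_cmul (enc_norm (bx3q2_3.enc h1.l h2)) (pr_norm (pr_csub (enc_rat _ 15481331 1500000) (pr_scaleT 773743 75000 h1)))))) (pr_case (pr_subr 409 400 h1) (pr_add (pr_csub (enc_rat _ 10803079 150000000) (pr_scaleT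 29257 375000 h1)) (pr_cmul (enc_norm (bx3q2_3.enc h1.l h2)) (pr_norm (pr_csub (enc_rat _ 509501 312500) (pr_scaleT 43863 25000 h1))))) (pr_add (pr_subr 1468121 175000000 (pr_scaleT 68 109375 h1)) (pr_cmul (enc_norm (bx3q2_3.enc h1.l h2)) (pr_norm (pr_subr 10047039 70000000 (pr_neg (pr_scaleT 1717 87500 h1)))))))) (pr_case (pr_subr 17 16 h1) (pr_case (pr_subr 209 200 h1) (pr_add (pr_subr 407581 50000000 (pr_scaleT 269 687500 h1)) (pr_cmul (enc_norm (bx3q2_3.enc h1.l h2)) (pr_norm (pr_subr 1699377 10000000 (pr_scaleT 823 137500 h1))))) (pr_add (pr_subr 2768897 350000000 (pr_scaleT 141 875000 h1)) (pr_cmul (enc_norm (bx3q2_3.enc h1.l h2)) (pr_norm (pr_subr 11550181 70000000 (pr_scaleT 221 175000 h1)))))) (pr_case (pr_subr 217 200 h1) (pr_add (pr_subr 2341951 300000000 (pr_scaleT 47 750000 h1)) (pr_cmul (enc_norm (bx3q2_3.enc h1.l h2)) (pr_norm (pr_subr 14741797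 90000000 (pr_scaleT 29 225000 h1))))) (pr_add (pr_subr 1553127 200000000 (pr_scaleT 1 40000 h1)) (pr_cmul (enc_norm (bx3q2_3.enc h1.l h2)) (pr_norm (pr_subr 6548269 40000000 (pr_scaleT 9 200000 h1)))))))) (pr_case (pr_subr 121 100 h1) (pr_case (pr_subr 23 20 h1) (pr_case (pr_subr 9 8 h1) (pr_add (pr_subr 3099403 400000000 (pr_scaleT 19 2000000 h1)) (pr_cmul (enc_norm (bx3q2_3.enc h1.l h2)) (pr_norm (pr_subr 409253 2500000 (pr_scaleT 1 25000 h1))))) (pr_add (pr_subr 774187 100000000 (pr_scaleT 9 2500000 h1)) (pr_cmul (enc_norm (bx3q2_3.enc h1.l h2)) (pr_norm (pr_subr 204649 1250000 (pr_scaleT 7 125000 h1)))))) (pr_case (pr_subr 59 50 h1) (pr_add (pr_subr 3023 390625 (bx3q2_137_s.snd h1 h2)) (pr_cmul (enc_norm (bx3q2_3.enc h1.l h2)) (pr_norm (pr_subr 2455397 15000000 (pr_scaleT 1 30000 h1))))) (pr_add (pr_subr 1160537 150000000 (pr_neg (pr_scaleT 1 1500000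 h1))) (pr_cmul (enc_norm (bx3q2_3.enc h1.l h2)) (pr_norm (pr_subr 122761 750000 (pr_scaleT 7 300000 h1))))))) (pr_case (pr_subr 13 10 h1) (pr_case (pr_subr 5 4 h1) (pr_add (pr_subr 77353 10000000 (pr_neg (pr_scaleT 1 500000 h1))) (pr_cmul (enc_norm (bx3q2_3.enc h1.l h2)) (pr_norm (pr_subr 3273183 20000000 (pr_scaleT 1 200000 h1))))) (pr_add (pr_subr 154701 20000000 (pr_neg (pr_scaleT 11 5000000 h1))) (pr_cmul (enc_norm (bx3q2_3.enc h1.l h2)) (pr_norm (pr_subr 818427 5000000 (pr_scaleT 13 500000 h1)))))) (pr_case (pr_subr 27 20 h1) (pr_add (pr_subr 773557 100000000 (pr_neg (pr_scaleT 9 5000000 h1))) (pr_cmul (enc_norm (bx3q2_3.enc h1.l h2)) (pr_norm (pr_subr 409207 2500000 (pr_scaleT 3 125000 h1))))) (pr_case (pr_subr 7 5 h1) (pr_add (pr_subr 154733 20000000 (pr_neg (bx3q2_137_s.snd h1 h2))) (pr_cmul (enc_norm (bx3q2_3.enc h1.l h2)) (pr_norm (pr_subr 1636801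 10000000 (pr_scaleT 11 500000 h1))))) (pr_add (pr_subr 773651 100000000 (pr_neg (pr_scaleT 11 10000000 h1))) (pr_cmul (enc_norm (bx3q2_3.enc h1.l h2)) (pr_norm (pr_subr 327279 2000000 (pr_neg (pr_scaleT 7 1000000 h1))))))))))))⟩
noncomputable def l3q2_s : Sl2 l3q2 := ⟨_, fun h1 h2 => (pr_norm (pr_mul (cv3p_s.snd h1) (bx3q2_s.snd h1 h2)))⟩
noncomputable def ycg_s : Sl1 ycg := ⟨_, fun h1 => (pr_sqrtg (pr_scaleT 4 3 (pr_csub (enc_pnc _ 3) (pr_sq h1))))⟩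
noncomputable def xc33_s : Sl1 xc33 := ⟨_, fun h1 => (pr_norm (pr_add (pr_half (pr_subr 1 2 (swg_s.snd (pr_nd (ycg_s.snd h1))))) (pr_half h1)))⟩
noncomputable def bf3q3_s : Sl2 bf3q3 := ⟨_, fun h1 h2 => (pr_norm (pr_case (pr_subr 9 5 h1) (pr_case (pr_subr 33 20 h1) (pr_add (pr_addc (pr_scaleT 13 15000000 h1) (enc_rat _ 49999733 100000000)) (pr_cmul (enc_norm (bf3q3_3.enc h1.l h2)) (pr_norm (pr_addc (pr_scaleT 1 500000 h1) (enc_rat _ 1 10000000))))) (pr_add (pr_addc (pr_scaleT 1 625000 h1) (enc_rat _ 12499903 25000000)) (pr_cmul (enc_norm (bf3q3_3.enc h1.l h2)) (pr_norm (pr_addc (pr_scaleT 1 1500000 h1) (enc_rat _ 23 10000000)))))) (pr_case (pr_subr 19 10 h1) (pr_add (pr_addc (pr_scaleT 17 5000000 h1) (enc_rat _ 6249911 12500000)) (pr_cmul (enc_norm (bf3q3_3.enc h1.l h2)) (pr_norm (pr_csub (enc_rat _ 197 10000000) (pr_scaleT 9 1000000 h1))))) (pr_add (pr_addc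 (pr_scaleT 33 5000000 h1) (enc_rat _ 1249967 2500000)) (pr_cmul (enc_norm (bf3q3_3.enc h1.l h2)) (pr_norm (pr_csub (enc_rat _ 13 250000) (pr_scaleT 13 500000 h1))))))))⟩
noncomputable def kfc33_s : Sl2 kfc33 := ⟨_, fun h1 h2 => (pr_norm (pr_mul (pr_norm (pr_add (pr_half (pr_subr 1 2 (swg_s.snd (pr_nd (ycg_s.snd h1))))) (pr_half h1))) (bf3q3_s.snd (pr_nd (ycg_s.snd h1)) h2)))⟩
noncomputable def bx3q3_s : Sl2 bx3q3 := ⟨_, fun h1 h2 => (pr_norm (pr_case (pr_subr 9 5 h1) (pr_case (pr_subr 33 20 h1) (pr_add (pr_csub (enc_rat _ 162859 100000000) (pr_scaleT 279 5000000 h1)) (pr_cmul (enc_norm (bx3q3_3.enc h1.l h2)) (pr_norm (pr_subr 19649 2500000 (pr_neg (pr_scaleT 209 1500000 h1)))))) (pr_add (pr_csub (enc_rat _ 170779 100000000) (pr_scaleT 519 5000000 h1)) (pr_cmul (enc_norm (bx3q3_3.enc h1.l h2)) (pr_norm (pr_subr 75087 10000000 (pr_neg (pr_scaleT 11 31250 h1)))))))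 (pr_case (pr_subr 19 10 h1) (pr_add (pr_csub (enc_rat _ 192919 100000000) (pr_scaleT 567 2500000 h1)) (pr_cmul (enc_norm (bx3q3_3.enc h1.l h2)) (pr_norm (pr_subr 91179 10000000 (pr_scaleT 271 500000 h1))))) (pr_add (pr_csub (enc_rat _ 178225117 5750000000) (pr_scaleT 17853691 1150000000 h1)) (pr_cmul (enc_norm (bx3q3_3.enc h1.l h2)) (pr_norm (pr_subr 3149457 1150000000 (pr_neg (pr_scaleT 161891 57500000 h1)))))))))⟩
noncomputable def lc33_s : Sl2 lc33 := ⟨_, fun h1 h2 => (pr_norm (pr_mul (pr_norm (pr_add (pr_half (pr_subr 1 2 (swg_s.snd (pr_nd (ycg_s.snd h1))))) (pr_half h1))) (bx3q3_s.snd (pr_nd (ycg_s.snd h1)) h2)))⟩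
noncomputable def kf4q0_s : Sl2 kf4q0 := ⟨_, fun h1 h2 => (pr_norm (pr_sub (pr_mul h1 (kcg_s.snd (pr_nd (pr_half h1)) h2)) (pr_mul (pr_norm (pr_mul (pr_nd (pr_sq h1)) (pr_norm (pr_addc (c3g_s.snd h1) (enc_rat _ 3 2))))) (pr_nd (pr_inv (pr_mul (pr_norm (pr_csub (enc_pnc _ 1) h1)) (pr_norm (pr_cadd (enc_pnc _ 1) h1))))))))⟩
noncomputable def l4q0_6_s : Sl2 l4q0_6 := ⟨_, fun h1 h2 => (pr_half h1)⟩
noncomputable def l4q0_7_s : Sl2 l4q0_7 := ⟨_, fun h1 h2 => (pr_half (c3g_s.snd h1))⟩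
noncomputable def l4q0_8_s : Sl2 l4q0_8 := ⟨_, fun h1 h2 => (pr_scaleT 1 4 h1)⟩
noncomputable def l4q0_s : Sl2 l4q0 := ⟨_, fun h1 h2 => (pr_norm (pr_add (txg_s.snd (pr_nd (l4q0_6_s.snd h1 h2)) (pr_norm (pr_sub (l4q0_7_s.snd h1 h2) (l4q0_8_s.snd h1 h2))) h2) (txg_s.snd (pr_nd (pr_neg (l4q0_6_s.snd h1 h2))) (pr_norm (pr_add (l4q0_7_s.snd h1 h2) (l4q0_8_s.snd h1 h2))) h2)))⟩
noncomputable def kf4q1_s : Sl2 kf4q1 := ⟨_, fun h1 h2 => (pr_norm (pr_add (pr_mul (pr_norm (pr_mul h1 (pr_norm (pr_addc (c3g_s.snd h1) (enc_rat _ 3 2))))) (pr_nd (pr_inv (pr_cadd (enc_pnc _ 1) h1)))) (pr_mul (pr_norm (pr_subn 1 h1)) (kcg_s.snd (pr_nd (pr_half h1)) h2))))⟩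
noncomputable def l4q1_7_s : Sl2 l4q1_7 := ⟨_, fun h1 h2 => (pr_half h1)⟩
noncomputable def l4q1_8_s : Sl2 l4q1_8 := ⟨_, fun h1 h2 => (pr_half (c3g_s.snd h1))⟩
noncomputable def l4q1_9_s : Sl2 l4q1_9 := ⟨_, fun h1 h2 => (pr_scaleT 1 4 h1)⟩
noncomputable def l4q1_s : Sl2 l4q1 := ⟨_, fun h1 h2 => (pr_norm (pr_add (txg_s.snd (pr_nd (l4q1_7_s.snd h1 h2)) (pr_norm (pr_sub (l4q1_8_s.snd h1 h2) (l4q1_9_s.snd h1 h2))) h2) (txg_s.snd (pr_nd (pr_neg (l4q1_7_s.snd h1 h2))) (pr_norm (pr_add (l4q1_8_s.snd h1 h2) (l4q1_9_s.snd h1 h2))) h2)))⟩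
noncomputable def kf4q2_s : Sl2 kf4q2 := ⟨_, fun h1 h2 => (pr_norm (pr_add (pr_mul (pr_norm (pr_mul (pr_norm (pr_sub (pr_nat 2 (c3g_s.snd h1)) h1)) (pr_norm (pr_sub (pr_addc (c3g_s.snd h1) (enc_pnc _ 3)) (pr_scaleT 3 2 h1))))) (pr_nd (pr_inv (pr_nat 4 (pr_csub (enc_pnc _ 2) h1))))) (pr_mul (pr_norm (pr_subn 1 h1)) (kcg_s.snd (pr_norm (pr_sub (pr_scaleT 1 4 h1) (pr_half (c3g_s.snd h1)))) h2))))⟩
noncomputable def l4q2_7_s : Sl2 l4q2_7 := ⟨_, fun h1 h2 => (pr_half (c3g_s.snd h1))⟩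
noncomputable def l4q2_8_s : Sl2 l4q2_8 := ⟨_, fun h1 h2 => (pr_scaleT 1 4 h1)⟩
noncomputable def l4q2_9_s : Sl2 l4q2_9 := ⟨_, fun h1 h2 => (pr_sub (l4q2_7_s.snd h1 h2) (l4q2_8_s.snd h1 h2))⟩
noncomputable def l4q2_12_s : Sl2 l4q2_12 := ⟨_, fun h1 h2 => (pr_add (pr_scaleT 1 4 (c3g_s.snd h1)) (pr_scaleT 3 8 h1))⟩
noncomputable def l4q2_14_s : Sl2 l4q2_14 := ⟨_, fun h1 h2 => (pr_half (l4q2_9_s.snd h1 h2))⟩
noncomputable def l4q2_s : Sl2 l4q2 := ⟨_, fun h1 h2 => (pr_norm (pr_sub (pr_nat 2 (txg_s.snd (pr_norm (pr_sub (l4q2_8_s.snd h1 h2) (l4q2_7_s.snd h1 h2))) (pr_norm (pr_add (l4q2_12_s.snd h1 h2) (l4q2_14_s.snd h1 h2))) h2)) (txg_s.snd (pr_norm (l4q2_9_s.snd h1 h2)) (pr_norm (pr_sub (l4q2_12_s.snd h1 h2) (l4q2_14_s.snd h1 h2))) h2)))⟩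
noncomputable def kfc43_s : Sl2 kfc43 := ⟨_, fun h1 h2 => (pr_norm (pr_sub (pr_mul (pr_norm (pr_subn 2 (ycg_s.snd h1))) (kcg_s.snd (pr_norm (pr_sub (pr_scaleT 1 4 (ycg_s.snd h1)) (pr_half h1))) h2)) (pr_mul (pr_norm (pr_mul (pr_norm (pr_sub (pr_nat 2 h1) (ycg_s.snd h1))) (pr_norm (pr_sub (pr_addc h1 (enc_pnc _ 3)) (pr_scaleT 3 2 (ycg_s.snd h1)))))) (pr_nd (pr_inv (pr_nat 4 (pr_subn 1 (ycg_s.snd h1))))))))⟩
noncomputable def lc43_7_s : Sl2 lc43_7 := ⟨_, fun h1 h2 => (pr_half h1)⟩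
noncomputable def lc43_8_s : Sl2 lc43_8 := ⟨_, fun h1 h2 => (pr_scaleT 1 4 (ycg_s.snd h1))⟩
noncomputable def lc43_9_s : Sl2 lc43_9 := ⟨_, fun h1 h2 => (pr_sub (lc43_7_s.snd h1 h2) (lc43_8_s.snd h1 h2))⟩
noncomputable def lc43_12_s : Sl2 lc43_12 := ⟨_, fun h1 h2 => (pr_add (pr_scaleT 1 4 h1) (pr_scaleT 3 8 (ycg_s.snd h1)))⟩
noncomputable def lc43_14_s : Sl2 lc43_14 := ⟨_, fun h1 h2 => (pr_half (lc43_9_s.snd h1 h2))⟩
noncomputable def lc43_s : Sl2 lc43 := ⟨_, fun h1 h2 => (pr_norm (pr_sub (pr_nat 2 (txg_s.snd (pr_norm (pr_sub (lc43_8_s.snd h1 h2) (lc43_7_s.snd h1 h2))) (pr_norm (pr_add (lc43_12_s.snd h1 h2) (lc43_14_s.snd h1 h2))) h2)) (txg_s.snd (pr_norm (lc43_9_s.snd h1 h2)) (pr_norm (pr_sub (lc43_12_s.snd h1 h2) (lc43_14_s.snd h1 h2))) h2)))⟩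
noncomputable def gF0q0 : Gn := ⟨ndF0q0, c1g_s, kf0q0_s, l0q0_s, false⟩
noncomputable def gF0q1 : Gn := ⟨ndF0q1, c1g_s, kf0q1_s, l0q1_s, false⟩
noncomputable def gF0q2 : Gn := ⟨ndF0q2, idf_s, kfc02_s, lc02_s, true⟩
noncomputable def gF1q0 : Gn := ⟨ndF1q0, cv1m_s, kf1q0_s, l1q0_s, false⟩
noncomputable def gF1q1 : Gn := ⟨ndF1q1, cv1m_s, kf1q1_s, l1q1_s, false⟩
noncomputable def gF1q2 : Gn := ⟨ndF1q2, cv1p_s, kf1q2_s, l1q2_s, false⟩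
noncomputable def gF1q3 : Gn := ⟨ndF1q3, cv1r_s, kf1q3_s, l1q3_s, false⟩
noncomputable def gF2q0 : Gn := ⟨ndF2q0, cv2m_s, kf2q0_s, l2q0_s, false⟩
noncomputable def gF2q1 : Gn := ⟨ndF2q1, cv2m_s, kf2q1_s, l2q1_s, false⟩
noncomputable def gF2q2 : Gn := ⟨ndF2q2, cv2p_s, kf2q2_s, l2q2_s, false⟩
noncomputable def gF2q3 : Gn := ⟨ndF2q3, cv2r_s, kf2q3_s, l2q3_s, false⟩
noncomputable def gF3q0 : Gn := ⟨ndF3q0, cv3m_s, kf3q0_s, l3q0_s, false⟩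
noncomputable def gF3q1 : Gn := ⟨ndF3q1, cv3m_s, kf3q1_s, l3q1_s, false⟩
noncomputable def gF3q2 : Gn := ⟨ndF3q2, cv3p_s, kf3q2_s, l3q2_s, false⟩
noncomputable def gF3q3 : Gn := ⟨ndF3q3, xc33_s, kfc33_s, lc33_s, false⟩
noncomputable def gF4q0 : Gn := ⟨ndF4q0, c3g_s, kf4q0_s, l4q0_s, false⟩
noncomputable def gF4q1 : Gn := ⟨ndF4q1, c3g_s, kf4q1_s, l4q1_s, false⟩
noncomputable def gF4q2 : Gn := ⟨ndF4q2, c3g_s, kf4q2_s, l4q2_s, false⟩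
noncomputable def gF4q3 : Gn := ⟨ndF4q3, idf_s, kfc43_s, lc43_s, false⟩
noncomputable def gF0q3 : Gn := gz
noncomputable def gF (j : Fin 5) (q : ℕ) : Gn :=
  match j, q with
  | 0, 0 => gF0q0
  | 0, 1 => gF0q1
  | 0, 2 => gF0q2
  | 0, 3 => gF0q3
  | 1, 0 => gF1q0
  | 1, 1 => gF1q1
  | 1, 2 => gF1q2
  | 1, 3 => gF1q3
  | 2, 0 => gF2q0
  | 2, 1 => gF2q1
  | 2, 2 => gF2q2
  | 2, 3 => gF2q3
  | 3, 0 => gF3q0
  | 3, 1 => gF3q1
  | 3, 2 => gF3q2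
  | 3, 3 => gF3q3
  | 4, 0 => gF4q0
  | 4, 1 => gF4q1
  | 4, 2 => gF4q2
  | 4, 3 => gF4q3
  | _, _ => gF0q0

noncomputable def c0n : Fn1 := ⟨_, _, fun h1 => (enc_norm (enc_add (enc_pnc _ 1) (enc_mul (mug3.enc h1) (gug.enc h1))))⟩
noncomputable def gug_s : Sl1 gug := ⟨_, fun h1 => (pr_norm (pr_add (pr_scaleT 3 4 h1) (pr_scaleT 3 2 (pr_csub (enc_pnc _ 1) (gsg_s.snd h1)))))⟩
noncomputable def kug_2_s : Sl1 kug_2 := ⟨_, fun h1 => (pr_sq h1)⟩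
noncomputable def kug_s : Sl1 kug := ⟨_, fun h1 => (pr_norm (pr_add (pr_add (pr_scaleT 3 4 h1) (pr_scaleT 3 2 (kug_2_s.snd h1))) (pr_mul (pr_norm (pr_mul (pr_nd (pr_scaleT 3 4 (kug_2_s.snd h1))) (pr_nd (pr_inv (gsg_s.snd h1))))) (gug_s.snd h1))))⟩
noncomputable def kp0q0_8_s : Sl2 kp0q0_8 := ⟨_, fun h1 h2 => (pr_sub (pr_scaleT 3 4 h1) (pr_half (c1g_s.snd h1)))⟩
noncomputable def kp0q0_s : Sl2 kp0q0 := ⟨_, fun h1 h2 => (pr_norm (pr_case (pr_addc (kp0q0_8_s.snd h1 h2) (enc_rat _ 2773 5677)) (pr_mul h1 (pr_norm (pr_case (pr_addc (kp0q0_8_s.snd h1 h2) (enc_rat _ 11223 22708)) (pr_add (pr_csub (enc_rat _ 52253709 262000000) (pr_scaleT 4433737 204687500 (kp0q0_8_s.snd h1 h2))) (pr_cmul (enc_norm (kp0q0_3.enc h1.l h2)) (pr_norm (pr_subr 91994073 1310000000 (pr_neg (pr_scaleT 403067 2620000 (kp0q0_8_s.snd h1 h2))))))) (pr_add (pr_csub (enc_rat _ 65222896719 327500000000)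 (pr_scaleT 1821164569 81875000000 (kp0q0_8_s.snd h1 h2))) (pr_cmul (enc_norm (kp0q0_3.enc h1.l h2)) (pr_norm (pr_subr 98527621011 1310000000000 (pr_neg (pr_scaleT 53688280289 327500000000 (kp0q0_8_s.snd h1 h2)))))))))) (pr_case (pr_addc (kp0q0_8_s.snd h1 h2) (enc_rat _ 299 662)) (pr_sub (kug_s.snd h1) (pr_mul h1 (pr_norm (pr_mul (kcg_s.snd (pr_norm (kp0q0_8_s.snd h1 h2)) h2) (pr_norm (pr_add (gug_s.snd h1) (pr_nat 2 (c1g_s.snd h1)))))))) (pr_mul h1 (pr_norm (pr_case (pr_subr 8 331 (kp0q0_8_s.snd h1 h2)) (pr_case (pr_addc (kp0q0_8_s.snd h1 h2) (enc_rat _ 283 1324)) (pr_add (pr_csub (enc_rat _ 15858782407 525000000000) (pr_scaleT 154617322751 131250000000 (kp0q0_8_s.snd h1 h2))) (pr_cmul (enc_norm (kp0q0_3.enc h1.l h2)) (pr_norm (pr_subr 2558374531003 1050000000000 (pr_neg (pr_scaleT 1382327774371 262500000000 (kp0q0_8_s.snd h1 h2))))))) (pr_add (pr_csub (enc_rat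 _ 2520127 82031250) (pr_scaleT 3086029843 2625000000 (kp0q0_8_s.snd h1 h2))) (pr_cmul (enc_norm (kp0q0_3.enc h1.l h2)) (pr_norm (pr_subr 1866893731 787500000 (pr_neg (pr_scaleT 3904232053 787500000 (kp0q0_8_s.snd h1 h2)))))))) (pr_case (pr_subr 347 1324 (kp0q0_8_s.snd h1 h2)) (pr_add (pr_csub (enc_rat _ 238543 7812500) (pr_scaleT 145981261 125000000 (kp0q0_8_s.snd h1 h2))) (pr_cmul (enc_norm (kp0q0_3.enc h1.l h2)) (pr_norm (pr_subr 1883635739 787500000 (pr_neg (pr_scaleT 200720717 49218750 (kp0q0_8_s.snd h1 h2))))))) (pr_add (pr_subr 7146077 22500000 (pr_scaleT 36109783 225000000 (kp0q0_8_s.snd h1 h2))) (pr_cmul (enc_norm (kp0q0_3.enc h1.l h2)) (pr_norm (pr_subr 441837283 126000000 (pr_scaleT 27589843 157500000 (kp0q0_8_s.snd h1 h2)))))))))))))⟩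
noncomputable def kn0q0_s : Sl2 kn0q0 := ⟨_, fun h1 h2 => (pr_norm (pr_add (pr_cmul (enc_norm (enc_add (enc_pnc _ 1) (enc_mul (mug3.enc h2) (gug.enc h2)))) (kf0q0_s.snd h1 h2)) (pr_cmul (mug3.enc h2) (kp0q0_s.snd h1 h2))))⟩
noncomputable def kp0q1_9_s : Sl2 kp0q1_9 := ⟨_, fun h1 h2 => (pr_sub (pr_scaleT 3 4 h1) (pr_half (c1g_s.snd h1)))⟩
noncomputable def kp0q1_s : Sl2 kp0q1 := ⟨_, fun h1 h2 => (pr_norm (pr_mul (pr_norm (pr_subn 1 h1)) (pr_norm (pr_case (pr_subr 8 331 (kp0q1_9_s.snd h1 h2)) (pr_case (pr_addc (kp0q1_9_s.snd h1 h2) (enc_rat _ 283 1324)) (pr_add (pr_csub (enc_rat _ 15858782407 525000000000) (pr_scaleT 154617322751 131250000000 (kp0q1_9_s.snd h1 h2))) (pr_cmul (enc_norm (kp0q1_3.enc h1.l h2)) (pr_norm (pr_subr 2558374531003 1050000000000 (pr_neg (pr_scaleT 1382327774371 262500000000 (kp0q1_9_s.snd h1 h2))))))) (pr_add (pr_csub (enc_rat _ 2520127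 82031250) (pr_scaleT 3086029843 2625000000 (kp0q1_9_s.snd h1 h2))) (pr_cmul (enc_norm (kp0q1_3.enc h1.l h2)) (pr_norm (pr_subr 1866893731 787500000 (pr_neg (pr_scaleT 3904232053 787500000 (kp0q1_9_s.snd h1 h2)))))))) (pr_case (pr_subr 347 1324 (kp0q1_9_s.snd h1 h2)) (pr_add (pr_csub (enc_rat _ 238543 7812500) (pr_scaleT 145981261 125000000 (kp0q1_9_s.snd h1 h2))) (pr_cmul (enc_norm (kp0q1_3.enc h1.l h2)) (pr_norm (pr_subr 1883635739 787500000 (pr_neg (pr_scaleT 200720717 49218750 (kp0q1_9_s.snd h1 h2))))))) (pr_add (pr_subr 7146077 22500000 (pr_scaleT 36109783 225000000 (kp0q1_9_s.snd h1 h2))) (pr_cmul (enc_norm (kp0q1_3.enc h1.l h2)) (pr_norm (pr_subr 441837283 126000000 (pr_scaleT 27589843 157500000 (kp0q1_9_s.snd h1 h2)))))))))))⟩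
noncomputable def kn0q1_s : Sl2 kn0q1 := ⟨_, fun h1 h2 => (pr_norm (pr_add (pr_cmul (enc_norm (enc_add (enc_pnc _ 1) (enc_mul (mug3.enc h2) (gug.enc h2)))) (kf0q1_s.snd h1 h2)) (pr_cmul (mug3.enc h2) (kp0q1_s.snd h1 h2))))⟩
noncomputable def kpc02_s : Sl2 kpc02 := ⟨_, fun h1 h2 => (pr_norm (pr_mul (pr_norm (pr_subn 1 (yag_s.snd h1))) (pr_norm (pr_case (pr_subr 3 20 h1) (pr_case (pr_subr 1 25 h1) (pr_add (pr_scaleT 643 2000000 h1) (pr_cmul (enc_norm (kpc02_4.enc h1.l h2)) (pr_nd (pr_scaleT 1909 200000 h1)))) (pr_add (pr_subr 218011 110000000 (pr_scaleT 137141 2750000 h1)) (pr_cmul (enc_norm (kpc02_4.enc h1.l h2)) (pr_norm (pr_subr 808657 5000000 (pr_scaleT 405283 100000 h1)))))) (pr_case (pr_subr 3 10 h1) (pr_add (pr_subr 731 312500 (pr_scaleT 78377 1500000 h1)) (pr_cmul (enc_norm (kpc02_4.enc h1.l h2)) (pr_norm (pr_subr 4186647 10000000 (pr_scaleT 4324289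 750000 h1))))) (pr_case (pr_subr 2 5 h1) (pr_add (pr_subr 25719 50000000 (pr_scaleT 230843 5000000 h1)) (pr_cmul (enc_norm (kpc02_4.enc h1.l h2)) (pr_norm (pr_addc (pr_scaleT 511671 250000 h1) (enc_rat _ 6970457 10000000))))) (pr_add (pr_csub (enc_rat _ 65833933 50000000) (pr_scaleT 1623407 500000 h1)) (pr_cmul (enc_norm (kpc02_4.enc h1.l h2)) (pr_norm (pr_csub (enc_rat _ 16047829 10000000) (pr_scaleT 222659 1000000 h1)))))))))))⟩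
noncomputable def knc02_s : Sl2 knc02 := ⟨_, fun h1 h2 => (pr_norm (pr_add (pr_cmul (enc_norm (enc_add (enc_pnc _ 1) (enc_mul (mug3.enc h2) (gug.enc h2)))) (kfc02_s.snd h1 h2)) (pr_cmul (mug3.enc h2) (kpc02_s.snd h1 h2))))⟩
noncomputable def bd1q0_s : Sl2 bd1q0 := ⟨_, fun h1 h2 => (pr_norm (pr_case (pr_subr 1 5 h1) (pr_case (pr_subr 1 10 h1) (pr_sub (pr_scaleT 23 10000000 h1) (pr_cmul (enc_norm (bd1q0_3.enc h1.l h2)) (pr_nd (pr_scaleT 19 1000000 h1)))) (pr_add (pr_addc (pr_scaleT 9 10000000 h1) (enc_rat _ 7 50000000)) (pr_cmul (enc_norm (bd1q0_3.enc h1.l h2)) (pr_norm (pr_subr 1 500000 (pr_scaleT 1 1000000 h1)))))) (pr_case (pr_subr 7 20 h1) (pr_add (pr_addc (pr_scaleT 1 2500000 h1) (enc_rat _ 3 12500000)) (pr_cmul (enc_norm (bd1q0_3.enc h1.l h2)) (pr_norm (pr_subr 7 3000000 (pr_scaleT 1 375000 h1))))) (pr_add (pr_addc (pr_scaleT 1 5000000 h1) (enc_rat _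 31 100000000)) (pr_cmul (enc_norm (bd1q0_3.enc h1.l h2)) (pr_norm (pr_subr 49 30000000 (pr_scaleT 1 1500000 h1))))))))⟩
noncomputable def kp1q0_s : Sl2 kp1q0 := ⟨_, fun h1 h2 => (pr_norm (pr_mul (cv1m_s.snd h1) (bd1q0_s.snd h1 h2)))⟩
noncomputable def kn1q0_s : Sl2 kn1q0 := ⟨_, fun h1 h2 => (pr_norm (pr_add (pr_cmul (enc_norm (enc_add (enc_pnc _ 1) (enc_mul (mug3.enc h2) (gug.enc h2)))) (kf1q0_s.snd h1 h2)) (pr_cmul (mug3.enc h2) (kp1q0_s.snd h1 h2))))⟩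
noncomputable def bd1q1_s : Sl2 bd1q1 := ⟨_, fun h1 h2 => (pr_norm (pr_case (pr_subr 79 100 h1) (pr_casec1 (pr_subr 3 5 h1) (enc_add (enc_rat _ 15860209 100000000) (enc_scaleT 57419087 2000000 (bd1q1_3.enc h1.l h2))) (pr_case (pr_subr 3 4 h1) (pr_cadd (enc_rat _ 15860209 100000000) (pr_cmul (enc_norm (bd1q1_3.enc h1.l h2)) (pr_norm (pr_addc (pr_scaleT 1 500000 h1) (enc_rat _ 287095423 10000000))))) (pr_add (pr_addc (pr_scaleT 1 4000000 h1) (enc_rat _ 63440761 400000000)) (pr_cmul (enc_norm (bd1q1_3.enc h1.l h2)) (pr_norm (pr_addc (pr_scaleT 1 400000 h1) (enc_rat _ 1148381677 40000000))))))) (pr_case (pr_subr 91 100 h1) (pr_cadd (enc_rat _ 1586021 10000000) (pr_cmul (enc_norm (bd1q1_3.enc h1.l h2)) (pr_norm (pr_addc (pr_scaleT 1 300000 h1) (enc_rat _ 430643119 15000000))))) (pr_casec (pr_subr 15 16 h1) (pr_add (pr_addc (pr_scaleT 1 2750000 h1) (enc_rat _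 87230973 550000000)) (pr_cmul (enc_norm (bd1q1_3.enc h1.l h2)) (pr_norm (pr_addc (pr_scaleT 1 137500 h1) (enc_rat _ 631609829 22000000))))) (enc_add (enc_rat _ 15860211 100000000) (enc_scaleT 57419089 2000000 (bd1q1_3.enc h1.l h2)))))))⟩
noncomputable def kp1q1_s : Sl2 kp1q1 := ⟨_, fun h1 h2 => (pr_norm (pr_mul (cv1m_s.snd h1) (bd1q1_s.snd h1 h2)))⟩
noncomputable def kn1q1_s : Sl2 kn1q1 := ⟨_, fun h1 h2 => (pr_norm (pr_add (pr_cmul (enc_norm (enc_add (enc_pnc _ 1) (enc_mul (mug3.enc h2) (gug.enc h2)))) (kf1q1_s.snd h1 h2)) (pr_cmul (mug3.enc h2) (kp1q1_s.snd h1 h2))))⟩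
noncomputable def bd1q2_s : Sl2 bd1q2 := ⟨_, fun h1 h2 => (pr_norm (pr_case (pr_subr 9 8 h1) (pr_case (pr_subr 33 32 h1) (pr_case (pr_subr 203 200 h1) (pr_case (pr_subr 403 400 h1) (pr_add (pr_subr 1 15000 (pr_scaleT 1 15000 h1)) (pr_cmul (enc_norm (bd1q2_3.enc h1.l h2)) (pr_norm (pr_subr 343 37500 (pr_scaleT 343 37500 h1))))) (pr_add (pr_subr 2311 12500000 (pr_scaleT 23 125000 h1)) (pr_cmul (enc_norm (bd1q2_3.enc h1.l h2)) (pr_norm (pr_subr 19001 5000000 (pr_scaleT 12 3125 h1)))))) (pr_case (pr_subr 409 400 h1) (pr_add (pr_subr 2717 12500000 (pr_scaleT 27 125000 h1)) (pr_cmul (enc_norm (bd1q2_3.enc h1.l h2)) (pr_norm (pr_subr 66341 15000000 (pr_scaleT 167 37500 h1))))) (pr_add (pr_subr 83847 350000000 (pr_scaleT 26 109375 h1)) (pr_cmul (enc_norm (bd1q2_3.enc h1.l h2)) (pr_norm (pr_subr 5677 1000000 (pr_scaleT 71 12500 h1))))))) (pr_case (pr_subr 17 16 h1)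 (pr_case (pr_subr 209 200 h1) (pr_add (pr_subr 3549 12500000 (pr_scaleT 193 687500 h1)) (pr_cmul (enc_norm (bd1q2_3.enc h1.l h2)) (pr_norm (pr_subr 7507 1000000 (pr_scaleT 41 5500 h1))))) (pr_add (pr_subr 3711 10937500 (pr_scaleT 73 218750 h1)) (pr_cmul (enc_norm (bd1q2_3.enc h1.l h2)) (pr_norm (pr_subr 166323 17500000 (pr_scaleT 1639 175000 h1)))))) (pr_case (pr_subr 217 200 h1) (pr_add (pr_subr 176299 450000000 (pr_scaleT 431 1125000 h1)) (pr_cmul (enc_norm (bd1q2_3.enc h1.l h2)) (pr_norm (pr_subr 1086029 90000000 (pr_scaleT 53 4500 h1))))) (pr_case (pr_subr 221 200 h1) (pr_add (pr_subr 78331 200000000 (pr_scaleT 383 1000000 h1)) (pr_cmul (enc_norm (bd1q2_3.enc h1.l h2)) (pr_norm (pr_subr 218603 20000000 (pr_scaleT 1073 100000 h1))))) (pr_add (pr_subr 19417 50000000 (pr_scaleT 19 50000 h1)) (pr_cmul (enc_norm (bd1q2_3.enc h1.l h2)) (pr_norm (pr_subr 87839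 8000000 (pr_scaleT 431 40000 h1))))))))) (pr_case (pr_subr 121 100 h1) (pr_case (pr_subr 577 500 h1) (pr_case (pr_subr 23 20 h1) (pr_add (pr_subr 37979 100000000 (pr_scaleT 931 2500000 h1)) (pr_cmul (enc_norm (bd1q2_3.enc h1.l h2)) (pr_norm (pr_subr 653 50000 (pr_scaleT 789 62500 h1))))) (pr_add (pr_subr 100327 400000000 (pr_scaleT 1041 4000000 h1)) (pr_cmul (enc_norm (bd1q2_3.enc h1.l h2)) (pr_norm (pr_subr 83491 40000000 (pr_scaleT 1233 400000 h1)))))) (pr_case (pr_subr 231 200 h1) (pr_add (pr_subr 643 2000000 (pr_scaleT 643 2000000 h1)) (pr_cmul (enc_norm (bd1q2_3.enc h1.l h2)) (pr_norm (pr_subr 1909 200000 (pr_scaleT 1909 200000 h1))))) (pr_case (pr_subr 59 50 h1) (pr_add (pr_subr 45481 500000000 (pr_scaleT 1219 10000000 h1)) (pr_cmul (enc_norm (bd1q2_3.enc h1.l h2)) (pr_norm (pr_addc (pr_scaleT 537 1000000 h1) (enc_rat _ 21481 25000000))))) (pr_add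 (pr_subr 129 50000000 (pr_scaleT 47 1000000 h1)) (pr_cmul (enc_norm (bd1q2_3.enc h1.l h2)) (pr_norm (pr_addc (pr_scaleT 3 100000 h1) (enc_rat _ 583 400000)))))))) (pr_case (pr_subr 13 10 h1) (pr_case (pr_subr 5 4 h1) (pr_add (pr_addc (pr_scaleT 71 4000000 h1) (enc_rat _ 21 640000)) (pr_cmul (enc_norm (bd1q2_3.enc h1.l h2)) (pr_norm (pr_addc (pr_scaleT 1 400000 h1) (enc_rat _ 59631 40000000))))) (pr_addc (pr_addc (pr_scaleT 7 1000000 h1) (enc_rat _ 37 800000)) (bd1q2_199.enc h1.l h2))) (pr_case (pr_subr 27 20 h1) (pr_addc (pr_addc (pr_scaleT 13 5000000 h1) (enc_rat _ 5197 100000000)) (bd1q2_199.enc h1.l h2)) (pr_case (pr_subr 7 5 h1) (pr_addc (pr_addc (pr_scaleT 1 1000000 h1) (enc_rat _ 5413 100000000)) (bd1q2_199.enc h1.l h2)) (pr_addc (pr_addc (pr_scaleT 1 2000000 h1) (enc_rat _ 5483 100000000)) (bd1q2_199.enc h1.l h2))))))))⟩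
noncomputable def kp1q2_s : Sl2 kp1q2 := ⟨_, fun h1 h2 => (pr_norm (pr_mul (cv1p_s.snd h1) (bd1q2_s.snd h1 h2)))⟩
noncomputable def kn1q2_s : Sl2 kn1q2 := ⟨_, fun h1 h2 => (pr_norm (pr_add (pr_cmul (enc_norm (enc_add (enc_pnc _ 1) (enc_mul (mug3.enc h2) (gug.enc h2)))) (kf1q2_s.snd h1 h2)) (pr_cmul (mug3.enc h2) (kp1q2_s.snd h1 h2))))⟩
noncomputable def bd1q3_s : Sl2 bd1q3 := ⟨_, fun h1 h2 => (pr_norm (pr_casec1 (pr_subr 9 5 h1) (enc_subr 13911 800000 (bd1q3_10.enc h1.l h2)) (pr_case (pr_subr 19 10 h1) (pr_addc (pr_subr 1738893 100000000 (pr_scaleT 1 10000000 h1)) (bd1q3_10.enc h1.l h2)) (pr_subr 869437 50000000 (pr_cmul (enc_norm (bd1q3_3.enc h1.l h2)) (pr_norm (pr_addc (pr_scaleT 1 1000000 h1) (enc_rat _ 23774057 5000000))))))))⟩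
noncomputable def kp1q3_s : Sl2 kp1q3 := ⟨_, fun h1 h2 => (pr_norm (pr_mul (cv1r_s.snd h1) (bd1q3_s.snd h1 h2)))⟩
noncomputable def kn1q3_s : Sl2 kn1q3 := ⟨_, fun h1 h2 => (pr_norm (pr_add (pr_cmul (enc_norm (enc_add (enc_pnc _ 1) (enc_mul (mug3.enc h2) (gug.enc h2)))) (kf1q3_s.snd h1 h2)) (pr_cmul (mug3.enc h2) (kp1q3_s.snd h1 h2))))⟩
noncomputable def bd2q0_s : Sl2 bd2q0 := ⟨_, fun h1 h2 => (pr_norm (pr_case (pr_subr 1 5 h1) (pr_case (pr_subr 1 10 h1) (pr_scaleT 1 1250000 h1) (pr_add (pr_addc (pr_scaleT 7 10000000 h1) (enc_rat _ 1 100000000)) (pr_cmul (enc_norm (bd2q0_3.enc h1.l h2)) (pr_norm (pr_csub (enc_rat _ 3 5000000) (pr_scaleT 3 500000 h1)))))) (pr_case (pr_subr 7 20 h1) (pr_add (pr_addc (pr_scaleT 1 1500000 h1) (enc_rat _ 1 60000000)) (pr_cmul (enc_norm (bd2q0_3.enc h1.l h2)) (pr_norm (pr_csub (enc_rat _ 7 15000000) (pr_scaleT 1 187500 h1)))))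 (pr_add (pr_addc (pr_scaleT 1 3000000 h1) (enc_rat _ 1 7500000)) (pr_cmul (enc_norm (bd2q0_3.enc h1.l h2)) (pr_norm (pr_subr 7 10000000 (pr_neg (pr_scaleT 1 500000 h1)))))))))⟩
noncomputable def kp2q0_s : Sl2 kp2q0 := ⟨_, fun h1 h2 => (pr_norm (pr_mul (cv2m_s.snd h1) (bd2q0_s.snd h1 h2)))⟩
noncomputable def kn2q0_s : Sl2 kn2q0 := ⟨_, fun h1 h2 => (pr_norm (pr_add (pr_cmul (enc_norm (enc_add (enc_pnc _ 1) (enc_mul (mug3.enc h2) (gug.enc h2)))) (kf2q0_s.snd h1 h2)) (pr_cmul (mug3.enc h2) (kp2q0_s.snd h1 h2))))⟩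
noncomputable def kp2q1_45_s : Sl2 kp2q1_45 := ⟨_, fun h1 h2 => (pr_scaleT 1 3000000 h1)⟩
noncomputable def kp2q1_59_s : Sl2 kp2q1_59 := ⟨_, fun h1 h2 => (pr_cmul (enc_norm (kp2q1_4.enc h1.l h2)) (pr_norm (pr_subr 106639 30000000 (pr_scaleT 1 300000 h1))))⟩
noncomputable def kp2q1_65_s : Sl2 kp2q1_65 := ⟨_, fun h1 h2 => (pr_csub (enc_rat _ 1292909 37500000) (kp2q1_45_s.snd h1 h2))⟩
noncomputable def kp2q1_130_s : Sl2 kp2q1_130 := ⟨_, fun h1 h2 => (pr_csub (enc_pnc _ 1) h1)⟩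
noncomputable def kp2q1_131_s : Sl2 kp2q1_131 := ⟨_, fun h1 h2 => (gsg_s.snd (pr_norm (kp2q1_130_s.snd h1 h2)))⟩
noncomputable def kp2q1_135_s : Sl2 kp2q1_135 := ⟨_, fun h1 h2 => (esg_s.snd (pr_norm (kp2q1_130_s.snd h1 h2)))⟩
noncomputable def kp2q1_143_s : Sl2 kp2q1_143 := ⟨_, fun h1 h2 => (pr_mul (pr_nd (pr_scaleT 3 4 (pr_sq (pr_norm (kp2q1_130_s.snd h1 h2))))) (pr_nd (pr_inv (kp2q1_131_s.snd h1 h2))))⟩
noncomputable def kp2q1_s : Sl2 kp2q1 := ⟨_, fun h1 h2 => (pr_norm (pr_case (pr_subr 15 16 h1) (pr_mul (cv2m_s.snd h1) (pr_norm (pr_case (pr_subr 79 100 h1) (pr_case (pr_subr 13 20 h1) (pr_casec1 (pr_subr 3 5 h1) (enc_sub (enc_rat _ 3447731 100000000) (kp2q1_15.enc h1.l h2)) (pr_subc (pr_csub (enc_rat _ 3447743 100000000) (pr_scaleT 1 5000000 h1)) (kp2q1_15.enc h1.l h2))) (pr_case (pr_subr 3 4 h1) (pr_cadd (enc_rat _ 344773 10000000) (pr_cmul (enc_norm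 (kp2q1_4.enc h1.l h2)) (pr_norm (pr_subr 7107 2000000 (pr_scaleT 1 500000 h1))))) (pr_cadd (enc_rat _ 344773 10000000) (pr_cmul (enc_norm (kp2q1_4.enc h1.l h2)) (pr_norm (pr_subr 28431 8000000 (pr_scaleT 1 400000 h1))))))) (pr_case (pr_subr 17 20 h1) (pr_case (pr_subr 41 50 h1) (pr_subc (pr_csub (enc_rat _ 10343269 300000000) (kp2q1_45_s.snd h1 h2)) (enc_scaleT 35519 10000000 (kp2q1_4.enc h1.l h2))) (pr_cadd (enc_rat _ 3447729 100000000) (kp2q1_59_s.snd h1 h2))) (pr_case (pr_subr 22 25 h1) (pr_add (kp2q1_65_s.snd h1 h2) (kp2q1_59_s.snd h1 h2)) (pr_case (pr_subr 91 100 h1) (pr_add (kp2q1_65_s.snd h1 h2) (pr_cmul (enc_norm (kp2q1_4.enc h1.l h2)) (pr_norm (pr_subr 106727 30000000 (pr_scaleT 1 150000 h1))))) (pr_add (pr_csub (enc_rat _ 948141851 27500000000) (pr_scaleT 93 137500000 h1)) (pr_cmul (enc_norm (kp2q1_4.enc h1.l h2)) (pr_norm (pr_subr 4880537 1375000000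 (pr_neg (pr_scaleT 61 27500000 h1)))))))))))) (pr_case (pr_subr 63 64 h1) (pr_sub (pr_add (kug_s.snd (pr_norm (kp2q1_130_s.snd h1 h2))) (pr_wS (pr_mul (pr_norm (pr_sub (pr_mul (pr_norm (pr_mul (pr_norm (kp2q1_143_s.snd h1 h2)) (pr_norm (pr_subn 3 (pr_nat 4 (kp2q1_131_s.snd h1 h2)))))) (kp2q1_135_s.snd h1 h2)) (pr_mul (qsg_s.snd (pr_norm (kp2q1_130_s.snd h1 h2))) (pr_norm (pr_sub (pr_half (kp2q1_130_s.snd h1 h2)) (kp2q1_143_s.snd h1 h2)))))) (pr_nd (pr_inv (pr_mul (pr_nd (pr_nat 2 (kp2q1_135_s.snd h1 h2))) (kp2q1_135_s.snd h1 h2))))) (kp2q1_130_s.snd h1 h2) (kp2q1_131_s.snd h1 h2) (kp2q1_135_s.snd h1 h2) rfl rfl rfl rfl rfl rfl rfl rfl)) (pr_mul (pr_norm (pr_mul (pr_norm (kp2q1_130_s.snd h1 h2)) (kcg_s.snd (pr_norm (pr_sub (pr_scaleT 3 4 (kp2q1_130_s.snd h1 h2)) (pr_half (kp2q1_131_s.snd h1 h2)))) h2))) (pr_norm (pr_add (pr_cadd (enc_pnc _ 1) (gug_s.snd (pr_norm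 (kp2q1_130_s.snd h1 h2)))) (pr_nat 2 (kp2q1_131_s.snd h1 h2)))))) (pr_mul (cv2m_s.snd h1) (pr_norm (pr_case (pr_subr 397 400 h1) (pr_add (pr_csub (enc_rat _ 3461442973 16250000000) (pr_scaleT 2163571 10156250 h1)) (pr_cmul (enc_norm (kp2q1_4.enc h1.l h2)) (pr_norm (pr_csub (enc_rat _ 7312913 1625000000) (pr_scaleT 36583 8125000 h1))))) (pr_case (pr_subr 249 250 h1) (pr_add (pr_csub (enc_rat _ 73843541 350000000) (pr_scaleT 18461 87500 h1)) (pr_cmul (enc_norm (kp2q1_4.enc h1.l h2)) (pr_norm (pr_csub (enc_rat _ 11179 2000000) (pr_scaleT 7 1250 h1))))) (pr_add (pr_csub (enc_rat _ 42131 200000) (pr_scaleT 42131 200000 h1)) (pr_cmul (enc_norm (kp2q1_4.enc h1.l h2)) (pr_norm (pr_csub (enc_rat _ 119 40000) (pr_scaleT 119 40000 h1))))))))))))⟩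
noncomputable def kn2q1_s : Sl2 kn2q1 := ⟨_, fun h1 h2 => (pr_norm (pr_add (pr_cmul (enc_norm (enc_add (enc_pnc _ 1) (enc_mul (mug3.enc h2) (gug.enc h2)))) (kf2q1_s.snd h1 h2)) (pr_cmul (mug3.enc h2) (kp2q1_s.snd h1 h2))))⟩
noncomputable def kp2q2_100_s : Sl2 kp2q2_100 := ⟨_, fun h1 h2 => (pr_subn 1 h1)⟩
noncomputable def kp2q2_101_s : Sl2 kp2q2_101 := ⟨_, fun h1 h2 => (gsg_s.snd (pr_norm (kp2q2_100_s.snd h1 h2)))⟩
noncomputable def kp2q2_105_s : Sl2 kp2q2_105 := ⟨_, fun h1 h2 => (esg_s.snd (pr_norm (kp2q2_100_s.snd h1 h2)))⟩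
noncomputable def kp2q2_113_s : Sl2 kp2q2_113 := ⟨_, fun h1 h2 => (pr_mul (pr_nd (pr_scaleT 3 4 (pr_sq (pr_norm (kp2q2_100_s.snd h1 h2))))) (pr_nd (pr_inv (kp2q2_101_s.snd h1 h2))))⟩
noncomputable def kp2q2_s : Sl2 kp2q2 := ⟨_, fun h1 h2 => (pr_norm (pr_case (pr_subr 65 64 h1) (pr_mul (cv2p_s.snd h1) (pr_norm (pr_case (pr_subr 251 250 h1) (pr_add (pr_subr 10589 50000 (pr_scaleT 10589 50000 h1)) (pr_cmul (enc_norm (kp2q2_4.enc h1.l h2)) (pr_norm (pr_subr 41 10000 (pr_scaleT 41 10000 h1))))) (pr_case (pr_subr 403 400 h1) (pr_add (pr_subr 18691641 87500000 (pr_scaleT 18691 87500 h1)) (pr_cmul (enc_norm (kp2q2_4.enc h1.l h2)) (pr_norm (pr_csub (enc_rat _ 15347 17500000) (pr_scaleT 3 3500 h1))))) (pr_add (pr_subr 546176269 2500000000 (pr_scaleT 17747199 81250000 h1)) (pr_cmul (enc_norm (kp2q2_4.enc h1.l h2)) (pr_norm (pr_subr 1708439 250000000 (pr_scaleT 55219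 8125000 h1))))))))) (pr_case (pr_subr 17 16 h1) (pr_add (pr_sub (kug_s.snd (pr_norm (kp2q2_100_s.snd h1 h2))) (pr_wS (pr_mul (pr_norm (pr_sub (pr_mul (pr_norm (pr_mul (pr_norm (kp2q2_113_s.snd h1 h2)) (pr_norm (pr_subn 3 (pr_nat 4 (kp2q2_101_s.snd h1 h2)))))) (kp2q2_105_s.snd h1 h2)) (pr_mul (qsg_s.snd (pr_norm (kp2q2_100_s.snd h1 h2))) (pr_norm (pr_sub (pr_half (kp2q2_100_s.snd h1 h2)) (kp2q2_113_s.snd h1 h2)))))) (pr_nd (pr_inv (pr_mul (pr_nd (pr_nat 2 (kp2q2_105_s.snd h1 h2))) (kp2q2_105_s.snd h1 h2))))) (kp2q2_100_s.snd h1 h2) (kp2q2_101_s.snd h1 h2) (kp2q2_105_s.snd h1 h2) rfl rfl rfl rfl rfl rfl rfl rfl)) (pr_mul (pr_norm (pr_mul (pr_norm (kp2q2_100_s.snd h1 h2)) (kcg_s.snd (pr_norm (pr_sub (pr_scaleT 3 4 (kp2q2_100_s.snd h1 h2)) (pr_half (kp2q2_101_s.snd h1 h2)))) h2))) (pr_norm (pr_sub (pr_csub (enc_pnc _ 1) (gug_s.snd (pr_norm (kp2q2_100_s.snd h1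 h2)))) (pr_nat 2 (kp2q2_101_s.snd h1 h2)))))) (pr_mul (cv2p_s.snd h1) (pr_norm (pr_case (pr_subr 23 20 h1) (pr_case (pr_subr 217 200 h1) (pr_add (pr_addc (pr_scaleT 23 37500000 h1) (enc_rat _ 33884123 937500000)) (pr_cmul (enc_norm (kp2q2_4.enc h1.l h2)) (pr_norm (pr_subr 103421 28125000 (pr_scaleT 23 2250000 h1))))) (pr_casec1 (pr_subr 9 8 h1) (enc_sub (enc_rat _ 3614373 100000000) (kp2q2_61.enc h1.l h2)) (pr_subc (pr_addc (pr_scaleT 1 2500000 h1) (enc_rat _ 451791 12500000)) (kp2q2_61.enc h1.l h2)))) (pr_case (pr_subr 13 10 h1) (pr_casec (pr_subr 59 50 h1) (pr_cadd (enc_rat _ 1807187 50000000) (pr_cmul (enc_norm (kp2q2_4.enc h1.l h2)) (pr_norm (pr_subr 55049 15000000 (pr_scaleT 1 300000 h1))))) (enc_sub (enc_rat _ 1807187 50000000) (kp2q2_83.enc h1.l h2))) (pr_casec (pr_subr 27 20 h1) (pr_subc (pr_csub (enc_rat _ 2259 62500) (pr_scaleT 1 5000000 h1)) (kp2q2_83.enc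 h1.l h2)) (enc_sub (enc_rat _ 3614373 100000000) (kp2q2_83.enc h1.l h2))))))))))⟩
noncomputable def kn2q2_s : Sl2 kn2q2 := ⟨_, fun h1 h2 => (pr_norm (pr_add (pr_cmul (enc_norm (enc_add (enc_pnc _ 1) (enc_mul (mug3.enc h2) (gug.enc h2)))) (kf2q2_s.snd h1 h2)) (pr_cmul (mug3.enc h2) (kp2q2_s.snd h1 h2))))⟩
noncomputable def bd2q3_s : Sl2 bd2q3 := ⟨_, fun h1 h2 => (pr_norm (pr_case (pr_subr 9 5 h1) (pr_case (pr_subr 33 20 h1) (pr_subr 3267047 100000000 (pr_cmul (enc_norm (bd2q3_3.enc h1.l h2)) (pr_norm (pr_csub (enc_rat _ 40299883 5000000) (pr_scaleT 1 1500000 h1))))) (pr_addc (pr_subr 1633529 50000000 (pr_scaleT 1 15000000 h1)) (bd2q3_22.enc h1.l h2))) (pr_casec1 (pr_subr 19 10 h1) (enc_subr 1633523 50000000 (bd2q3_22.enc h1.l h2)) (pr_addc (pr_subr 653413 20000000 (pr_scaleT 1 10000000 h1)) (bd2q3_22.enc h1.l h2)))))⟩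
noncomputable def kp2q3_s : Sl2 kp2q3 := ⟨_, fun h1 h2 => (pr_norm (pr_mul (cv2r_s.snd h1) (bd2q3_s.snd h1 h2)))⟩
noncomputable def kn2q3_s : Sl2 kn2q3 := ⟨_, fun h1 h2 => (pr_norm (pr_add (pr_cmul (enc_norm (enc_add (enc_pnc _ 1) (enc_mul (mug3.enc h2) (gug.enc h2)))) (kf2q3_s.snd h1 h2)) (pr_cmul (mug3.enc h2) (kp2q3_s.snd h1 h2))))⟩
noncomputable def bd3q0_s : Sl2 bd3q0 := ⟨_, fun h1 h2 => (pr_norm (pr_case (pr_subr 1 5 h1) (pr_add (pr_csub (enc_rat _ 204367 2500000) (pr_scaleT 9 10000000 h1)) (pr_cmul (enc_norm (bd3q0_3.enc h1.l h2)) (pr_norm (pr_csub (enc_rat _ 37242911 5000000) (pr_scaleT 19 1000000 h1))))) (pr_case (pr_subr 7 20 h1) (pr_add (pr_csub (enc_rat _ 12262021 150000000) (pr_scaleT 7 7500000 h1)) (pr_cmul (enc_norm (bd3q0_3.enc h1.l h2)) (pr_norm (pr_csub (enc_rat _ 13966093 1875000) (pr_scaleT 17 750000 h1))))) (pr_add (pr_csub (enc_rat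 _ 2043669 25000000) (pr_scaleT 1 1250000 h1)) (pr_cmul (enc_norm (bd3q0_3.enc h1.l h2)) (pr_norm (pr_csub (enc_rat _ 2327681 312500) (pr_scaleT 3 250000 h1))))))))⟩
noncomputable def kp3q0_s : Sl2 kp3q0 := ⟨_, fun h1 h2 => (pr_norm (pr_mul (cv3m_s.snd h1) (bd3q0_s.snd h1 h2)))⟩
noncomputable def kn3q0_s : Sl2 kn3q0 := ⟨_, fun h1 h2 => (pr_norm (pr_add (pr_cmul (enc_norm (enc_add (enc_pnc _ 1) (enc_mul (mug3.enc h2) (gug.enc h2)))) (kf3q0_s.snd h1 h2)) (pr_cmul (mug3.enc h2) (kp3q0_s.snd h1 h2))))⟩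
noncomputable def bd3q1_30_s : Sl2 bd3q1_30 := ⟨_, fun h1 h2 => (pr_cmul (enc_norm (bd3q1_3.enc h1.l h2)) (pr_norm (pr_subr 531 10000000 (pr_neg (pr_scaleT 1 500000 h1)))))⟩
noncomputable def bd3q1_52_s : Sl2 bd3q1_52 := ⟨_, fun h1 h2 => (pr_scaleT 1 300000 h1)⟩
noncomputable def bd3q1_57_s : Sl2 bd3q1_57 := ⟨_, fun h1 h2 => (pr_cmul (enc_norm (bd3q1_3.enc h1.l h2)) (pr_norm (pr_subr 781 15000000 (pr_neg (bd3q1_52_s.snd h1 h2)))))⟩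
noncomputable def bd3q1_s : Sl2 bd3q1 := ⟨_, fun h1 h2 => (pr_norm (pr_case (pr_subr 22 25 h1) (pr_case (pr_subr 3 4 h1) (pr_casec1 (pr_subr 13 20 h1) (enc_sub (enc_neg (enc_rat _ 2103 100000000)) (enc_scaleT 17 312500 (bd3q1_3.enc h1.l h2))) (pr_case (pr_subr 7 10 h1) (pr_add (pr_subr 209 10000000 (pr_neg (pr_scaleT 1 5000000 h1))) (bd3q1_30_s.snd h1 h2)) (pr_subr 263 12500000 (bd3q1_30_s.snd h1 h2)))) (pr_case (pr_subr 41 50 h1) (pr_case (pr_subr 79 100 h1) (pr_subr 263 12500000 (pr_cmul (enc_norm (bd3q1_3.enc h1.l h2)) (pr_norm (pr_subr 2109 40000000 (pr_neg (pr_scaleT 1 400000 h1)))))) (pr_add (pr_subr 6391 300000000 (pr_scaleT 1 3000000 h1)) (bd3q1_57_s.snd h1 h2))) (pr_case (pr_subr 17 20 h1) (pr_add (pr_subr 6473 300000000 (pr_scaleT 1 1500000 h1)) (bd3q1_57_s.snd h1 h2)) (pr_add (pr_subr 841 37500000 (pr_scaleT 1 600000 h1)) (pr_cmul (enc_norm (bd3q1_3.enc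 h1.l h2)) (pr_norm (pr_subr 433 7500000 (bd3q1_52_s.snd h1 h2)))))))) (pr_case (pr_subr 31 32 h1) (pr_case (pr_subr 15 16 h1) (pr_case (pr_subr 91 100 h1) (pr_add (pr_subr 317 12500000 (pr_scaleT 1 200000 h1)) (pr_cmul (enc_norm (bd3q1_3.enc h1.l h2)) (pr_norm (pr_subr 499 7500000 (pr_scaleT 1 75000 h1))))) (pr_add (pr_subr 36359 1100000000 (pr_scaleT 37 2750000 h1)) (pr_cmul (enc_norm (bd3q1_3.enc h1.l h2)) (pr_norm (pr_subr 1769 27500000 (pr_scaleT 3 275000 h1)))))) (pr_case (pr_subr 191 200 h1) (pr_add (pr_subr 39433 700000000 (pr_scaleT 67 1750000 h1)) (pr_cmul (enc_norm (bd3q1_3.enc h1.l h2)) (pr_norm (pr_subr 11287 70000000 (pr_scaleT 1 8750 h1))))) (pr_add (pr_subr 127179 1100000000 (pr_scaleT 69 687500 h1)) (pr_cmul (enc_norm (bd3q1_3.enc h1.l h2)) (pr_norm (pr_subr 93591 110000000 (pr_scaleT 23 27500 h1))))))) (pr_case (pr_subr 197 200 h1) (pr_case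 (pr_subr 391 400 h1) (pr_add (pr_subr 169423 700000000 (pr_scaleT 101 437500 h1)) (pr_cmul (enc_norm (bd3q1_3.enc h1.l h2)) (pr_norm (pr_subr 6087 4375000 (pr_scaleT 61 43750 h1))))) (pr_add (pr_subr 46211 100000000 (pr_scaleT 57 125000 h1)) (pr_cmul (enc_norm (bd3q1_3.enc h1.l h2)) (pr_norm (pr_subr 4699 3000000 (pr_scaleT 59 37500 h1)))))) (pr_case (pr_subr 397 400 h1) (pr_add (pr_subr 43723 60000000 (pr_scaleT 109 150000 h1)) (pr_cmul (enc_norm (bd3q1_3.enc h1.l h2)) (pr_norm (pr_subr 14827 15000000 (pr_scaleT 37 37500 h1))))) (pr_add (pr_subr 1 1000 (pr_scaleT 1 1000 h1)) (pr_cmul (enc_norm (bd3q1_3.enc h1.l h2)) (pr_norm (pr_subr 23 18750 (pr_scaleT 23 18750 h1))))))))))⟩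
noncomputable def kp3q1_s : Sl2 kp3q1 := ⟨_, fun h1 h2 => (pr_norm (pr_mul (cv3m_s.snd h1) (bd3q1_s.snd h1 h2)))⟩
noncomputable def kn3q1_s : Sl2 kn3q1 := ⟨_, fun h1 h2 => (pr_norm (pr_add (pr_cmul (enc_norm (enc_add (enc_pnc _ 1) (enc_mul (mug3.enc h2) (gug.enc h2)))) (kf3q1_s.snd h1 h2)) (pr_cmul (mug3.enc h2) (kp3q1_s.snd h1 h2))))⟩
noncomputable def bd3q2_s : Sl2 bd3q2 := ⟨_, fun h1 h2 => (pr_norm (pr_case (pr_subr 217 200 h1) (pr_case (pr_subr 409 400 h1) (pr_case (pr_subr 403 400 h1) (pr_add (pr_addc (pr_scaleT 29 375000 h1) (enc_rat _ 239867 1875000)) (pr_cmul (enc_norm (bd3q2_3.enc h1.l h2)) (pr_norm (pr_addc (pr_scaleT 43 75000 h1) (enc_rat _ 11061167 30000000))))) (pr_case (pr_subr 203 200 h1) (pr_add (pr_addc (pr_scaleT 11 375000 h1) (enc_rat _ 9598307 75000000)) (pr_cmul (enc_norm (bd3q2_3.enc h1.l h2)) (pr_norm (pr_addc (pr_scaleT 7 75000 h1)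 (enc_rat _ 443027 1200000))))) (pr_add (pr_addc (pr_scaleT 1 93750 h1) (enc_rat _ 599983 4687500)) (pr_cmul (enc_norm (bd3q2_3.enc h1.l h2)) (pr_norm (pr_addc (pr_scaleT 1 18750 h1) (enc_rat _ 11076893 30000000))))))) (pr_case (pr_subr 209 200 h1) (pr_case (pr_subr 33 32 h1) (pr_add (pr_addc (pr_scaleT 1 218750 h1) (enc_rat _ 2800057 21875000)) (pr_cmul (enc_norm (bd3q2_3.enc h1.l h2)) (pr_norm (pr_addc (pr_scaleT 1 43750 h1) (enc_rat _ 5169653 14000000))))) (pr_add (pr_addc (pr_scaleT 1 687500 h1) (enc_rat _ 6400291 50000000)) (pr_cmul (enc_norm (bd3q2_3.enc h1.l h2)) (pr_norm (pr_csub (enc_rat _ 92323 250000) (pr_scaleT 1 137500 h1)))))) (pr_casec (pr_subr 17 16 h1) (pr_addc (pr_addc (pr_scaleT 1 1750000 h1) (enc_rat _ 1120059 8750000)) (bd3q2_67.enc h1.l h2)) (enc_add (enc_rat _ 2560147 20000000) (bd3q2_67.enc h1.l h2))))) (pr_case (pr_subr 59 50 h1)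 (pr_case (pr_subr 9 8 h1) (pr_casec (pr_subr 221 200 h1) (pr_addc (pr_addc (pr_scaleT 1 2000000 h1) (enc_rat _ 51202723 400000000)) (bd3q2_67.enc h1.l h2)) (enc_add (enc_rat _ 400023 3125000) (bd3q2_67.enc h1.l h2))) (pr_casec (pr_subr 23 20 h1) (pr_cadd (enc_rat _ 400023 3125000) (pr_cmul (enc_norm (bd3q2_3.enc h1.l h2)) (pr_norm (pr_addc (pr_scaleT 1 250000 h1) (enc_rat _ 3692799 10000000))))) (enc_add (enc_rat _ 400023 3125000) (enc_scaleT 738569 2000000 (bd3q2_3.enc h1.l h2))))) (pr_case (pr_subr 13 10 h1) (pr_casec (pr_subr 121 100 h1) (pr_cadd (enc_rat _ 400023 3125000) (pr_cmul (enc_norm (bd3q2_3.enc h1.l h2)) (pr_norm (pr_addc (pr_scaleT 1 300000 h1) (enc_rat _ 11078417 30000000))))) (enc_add (enc_rat _ 400023 3125000) (bd3q2_109.enc h1.l h2))) (pr_casec (pr_subr 27 20 h1) (pr_addc (pr_csub (enc_rat _ 6400381 50000000) (pr_scaleT 1 5000000 h1)) (bd3q2_109.enc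 h1.l h2)) (enc_add (enc_rat _ 2560147 20000000) (bd3q2_109.enc h1.l h2)))))))⟩
noncomputable def kp3q2_s : Sl2 kp3q2 := ⟨_, fun h1 h2 => (pr_norm (pr_mul (cv3p_s.snd h1) (bd3q2_s.snd h1 h2)))⟩
noncomputable def kn3q2_s : Sl2 kn3q2 := ⟨_, fun h1 h2 => (pr_norm (pr_add (pr_cmul (enc_norm (enc_add (enc_pnc _ 1) (enc_mul (mug3.enc h2) (gug.enc h2)))) (kf3q2_s.snd h1 h2)) (pr_cmul (mug3.enc h2) (kp3q2_s.snd h1 h2))))⟩
noncomputable def bd3q3_s : Sl2 bd3q3 := ⟨_, fun h1 h2 => (pr_const (enc_pnc _ 0))⟩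
noncomputable def kpc33_s : Sl2 kpc33 := ⟨_, fun h1 h2 => (pr_norm (pr_mul (pr_norm (pr_add (pr_half (pr_subr 1 2 (swg_s.snd (pr_nd (ycg_s.snd h1))))) (pr_half h1))) (pr_nd (bd3q3_s.snd (pr_nd (ycg_s.snd h1)) h2))))⟩
noncomputable def knc33_s : Sl2 knc33 := ⟨_, fun h1 h2 => (pr_norm (pr_add (pr_cmul (enc_norm (enc_add (enc_pnc _ 1) (enc_mul (mug3.enc h2) (gug.enc h2)))) (kfc33_s.snd h1 h2)) (pr_cmul (mug3.enc h2) (kpc33_s.snd h1 h2))))⟩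
noncomputable def kp4q0_6_s : Sl2 kp4q0_6 := ⟨_, fun h1 h2 => (pr_half h1)⟩
noncomputable def kp4q0_s : Sl2 kp4q0 := ⟨_, fun h1 h2 => (pr_norm (pr_mul h1 (pr_norm (pr_case (pr_subr 1 5 (kp4q0_6_s.snd h1 h2)) (pr_case (pr_subr 1 10 (kp4q0_6_s.snd h1 h2)) (pr_add (pr_subr 27115091 100000000 (pr_scaleT 1 1250000 h1)) (pr_cmul (enc_norm (kp4q0_3.enc h1.l h2)) (pr_norm (pr_subr 109040889 10000000 (pr_neg (pr_scaleT 33 2000000 h1)))))) (pr_add (pr_subr 5423023 20000000 (pr_scaleT 1 500000 h1)) (pr_cmul (enc_norm (kp4q0_3.enc h1.l h2)) (pr_norm (pr_subr 27260197 2500000 (pr_neg (pr_scaleT 67 1000000 h1))))))) (pr_case (pr_subr 3 10 (kp4q0_6_s.snd h1 h2)) (pr_add (pr_subr 27115273 100000000 (pr_scaleT 119 20000000 h1)) (pr_cmul (enc_norm (kp4q0_3.enc h1.l h2)) (pr_norm (pr_subr 136301 12500 (pr_neg (pr_scaleT 1 15625 h1)))))) (pr_case (pr_subr 2 5 (kp4q0_6_s.snd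 h1 h2)) (pr_add (pr_subr 2711593 10000000 (pr_scaleT 169 10000000 h1)) (pr_cmul (enc_norm (kp4q0_3.enc h1.l h2)) (pr_norm (pr_subr 109041127 10000000 (pr_neg (pr_scaleT 19 2000000 h1)))))) (pr_add (pr_subr 2711761 10000000 (pr_scaleT 379 10000000 h1)) (pr_cmul (enc_norm (kp4q0_3.enc h1.l h2)) (pr_norm (pr_subr 109050319 10000000 (pr_scaleT 2279 2000000 h1)))))))))))⟩
noncomputable def kn4q0_s : Sl2 kn4q0 := ⟨_, fun h1 h2 => (pr_norm (pr_add (pr_cmul (enc_norm (enc_add (enc_pnc _ 1) (enc_mul (mug3.enc h2) (gug.enc h2)))) (kf4q0_s.snd h1 h2)) (pr_cmul (mug3.enc h2) (kp4q0_s.snd h1 h2))))⟩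
noncomputable def kp4q1_7_s : Sl2 kp4q1_7 := ⟨_, fun h1 h2 => (pr_half h1)⟩
noncomputable def kp4q1_s : Sl2 kp4q1 := ⟨_, fun h1 h2 => (pr_norm (pr_mul (pr_norm (pr_subn 1 h1)) (pr_norm (pr_case (pr_subr 1 5 (kp4q1_7_s.snd h1 h2)) (pr_case (pr_subr 1 10 (kp4q1_7_s.snd h1 h2)) (pr_add (pr_subr 27115091 100000000 (pr_scaleT 1 1250000 h1)) (pr_cmul (enc_norm (kp4q1_3.enc h1.l h2)) (pr_norm (pr_subr 109040889 10000000 (pr_neg (pr_scaleT 33 2000000 h1)))))) (pr_add (pr_subr 5423023 20000000 (pr_scaleT 1 500000 h1)) (pr_cmul (enc_norm (kp4q1_3.enc h1.l h2)) (pr_norm (pr_subr 27260197 2500000 (pr_neg (pr_scaleT 67 1000000 h1))))))) (pr_case (pr_subr 3 10 (kp4q1_7_s.snd h1 h2)) (pr_add (pr_subr 27115273 100000000 (pr_scaleT 119 20000000 h1)) (pr_cmul (enc_norm (kp4q1_3.enc h1.l h2)) (pr_norm (pr_subr 136301 12500 (pr_neg (pr_scaleT 1 15625 h1)))))) (pr_case (pr_subr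 2 5 (kp4q1_7_s.snd h1 h2)) (pr_add (pr_subr 2711593 10000000 (pr_scaleT 169 10000000 h1)) (pr_cmul (enc_norm (kp4q1_3.enc h1.l h2)) (pr_norm (pr_subr 109041127 10000000 (pr_neg (pr_scaleT 19 2000000 h1)))))) (pr_add (pr_subr 2711761 10000000 (pr_scaleT 379 10000000 h1)) (pr_cmul (enc_norm (kp4q1_3.enc h1.l h2)) (pr_norm (pr_subr 109050319 10000000 (pr_scaleT 2279 2000000 h1)))))))))))⟩
noncomputable def kn4q1_s : Sl2 kn4q1 := ⟨_, fun h1 h2 => (pr_norm (pr_add (pr_cmul (enc_norm (enc_add (enc_pnc _ 1) (enc_mul (mug3.enc h2) (gug.enc h2)))) (kf4q1_s.snd h1 h2)) (pr_cmul (mug3.enc h2) (kp4q1_s.snd h1 h2))))⟩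
noncomputable def kp4q2_9_s : Sl2 kp4q2_9 := ⟨_, fun h1 h2 => (pr_sub (pr_half (c3g_s.snd h1)) (pr_scaleT 1 4 h1))⟩
noncomputable def kp4q2_s : Sl2 kp4q2 := ⟨_, fun h1 h2 => (pr_norm (pr_mul (pr_norm (pr_subn 1 h1)) (pr_norm (pr_case (kp4q2_9_s.snd h1 h2) (pr_case (pr_addc (kp4q2_9_s.snd h1 h2) (enc_rat _ 3 10)) (pr_case (pr_addc (kp4q2_9_s.snd h1 h2) (enc_rat _ 2 5)) (pr_add (pr_addc (pr_scaleT 1631 10000000 (kp4q2_9_s.snd h1 h2)) (enc_rat _ 1367717 6250000)) (pr_cmul (enc_norm (kp4q2_3.enc h1.l h2)) (pr_norm (pr_addc (pr_scaleT 1009 500000 (kp4q2_9_s.snd h1 h2)) (enc_rat _ 11756989 10000000))))) (pr_add (pr_addc (pr_scaleT 103 625000 (kp4q2_9_s.snd h1 h2)) (enc_rat _ 1094177 5000000)) (pr_cmul (enc_norm (kp4q2_3.enc h1.l h2)) (pr_norm (pr_addc (pr_scaleT 67 31250 (kp4q2_9_s.snd h1 h2)) (enc_rat _ 11757493 10000000)))))) (pr_case (pr_addc (kp4q2_9_s.snd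 h1 h2) (enc_rat _ 1 5)) (pr_add (pr_addc (pr_scaleT 829 5000000 (kp4q2_9_s.snd h1 h2)) (enc_rat _ 2188357 10000000)) (pr_cmul (enc_norm (kp4q2_3.enc h1.l h2)) (pr_norm (pr_addc (pr_scaleT 217 100000 (kp4q2_9_s.snd h1 h2)) (enc_rat _ 11757571 10000000))))) (pr_case (pr_addc (kp4q2_9_s.snd h1 h2) (enc_rat _ 1 10)) (pr_add (pr_addc (pr_scaleT 209 1250000 (kp4q2_9_s.snd h1 h2)) (enc_rat _ 10941799 50000000)) (pr_cmul (enc_norm (kp4q2_3.enc h1.l h2)) (pr_norm (pr_addc (pr_scaleT 539 250000 (kp4q2_9_s.snd h1 h2)) (enc_rat _ 11757543 10000000))))) (pr_add (pr_addc (pr_scaleT 1699 10000000 (kp4q2_9_s.snd h1 h2)) (enc_rat _ 175069 800000)) (pr_cmul (enc_norm (kp4q2_3.enc h1.l h2)) (pr_norm (pr_addc (pr_scaleT 2149 1000000 (kp4q2_9_s.snd h1 h2)) (enc_rat _ 367423 312500)))))))) (pr_case (pr_subr 1 5 (kp4q2_9_s.snd h1 h2)) (pr_case (pr_subr 1 10 (kp4q2_9_s.snd h1 h2))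 (pr_add (pr_addc (pr_scaleT 1769 10000000 (kp4q2_9_s.snd h1 h2)) (enc_rat _ 175069 800000)) (pr_cmul (enc_norm (kp4q2_3.enc h1.l h2)) (pr_norm (pr_addc (pr_scaleT 2213 1000000 (kp4q2_9_s.snd h1 h2)) (enc_rat _ 367423 312500))))) (pr_add (pr_addc (pr_scaleT 1963 10000000 (kp4q2_9_s.snd h1 h2)) (enc_rat _ 21883431 100000000)) (pr_cmul (enc_norm (kp4q2_3.enc h1.l h2)) (pr_norm (pr_addc (pr_scaleT 459 200000 (kp4q2_9_s.snd h1 h2)) (enc_rat _ 5878727 5000000)))))) (pr_case (pr_subr 3 10 (kp4q2_9_s.snd h1 h2)) (pr_add (pr_addc (pr_scaleT 249 1000000 (kp4q2_9_s.snd h1 h2)) (enc_rat _ 21882377 100000000)) (pr_cmul (enc_norm (kp4q2_3.enc h1.l h2)) (pr_norm (pr_addc (pr_scaleT 2407 1000000 (kp4q2_9_s.snd h1 h2)) (enc_rat _ 1175723 1000000))))) (pr_case (pr_subr 2 5 (kp4q2_9_s.snd h1 h2)) (pr_add (pr_addc (pr_scaleT 3841 10000000 (kp4q2_9_s.snd h1 h2)) (enc_rat _ 5469581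 25000000)) (pr_cmul (enc_norm (kp4q2_3.enc h1.l h2)) (pr_norm (pr_addc (pr_scaleT 1787 500000 (kp4q2_9_s.snd h1 h2)) (enc_rat _ 11753729 10000000))))) (pr_add (pr_addc (pr_scaleT 1439 2000000 (kp4q2_9_s.snd h1 h2)) (enc_rat _ 5466227 25000000)) (pr_cmul (enc_norm (kp4q2_3.enc h1.l h2)) (pr_norm (pr_addc (pr_scaleT 14167 1000000 (kp4q2_9_s.snd h1 h2)) (enc_rat _ 11711357 10000000))))))))))))⟩
noncomputable def kn4q2_s : Sl2 kn4q2 := ⟨_, fun h1 h2 => (pr_norm (pr_add (pr_cmul (enc_norm (enc_add (enc_pnc _ 1) (enc_mul (mug3.enc h2) (gug.enc h2)))) (kf4q2_s.snd h1 h2)) (pr_cmul (mug3.enc h2) (kp4q2_s.snd h1 h2))))⟩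
noncomputable def kpc43_9_s : Sl2 kpc43_9 := ⟨_, fun h1 h2 => (pr_sub (pr_half h1) (pr_scaleT 1 4 (ycg_s.snd h1)))⟩
noncomputable def kpc43_s : Sl2 kpc43 := ⟨_, fun h1 h2 => (pr_norm (pr_mul (pr_norm (pr_subn 2 (ycg_s.snd h1))) (pr_norm (pr_case (kpc43_9_s.snd h1 h2) (pr_case (pr_addc (kpc43_9_s.snd h1 h2) (enc_rat _ 3 10)) (pr_case (pr_addc (kpc43_9_s.snd h1 h2) (enc_rat _ 2 5)) (pr_add (pr_addc (pr_scaleT 1631 10000000 (kpc43_9_s.snd h1 h2)) (enc_rat _ 1367717 6250000)) (pr_cmul (enc_norm (kpc43_4.enc h1.l h2)) (pr_norm (pr_addc (pr_scaleT 1009 500000 (kpc43_9_s.snd h1 h2)) (enc_rat _ 11756989 10000000))))) (pr_add (pr_addc (pr_scaleT 103 625000 (kpc43_9_s.snd h1 h2)) (enc_rat _ 1094177 5000000)) (pr_cmul (enc_norm (kpc43_4.enc h1.l h2)) (pr_norm (pr_addc (pr_scaleT 67 31250 (kpc43_9_s.snd h1 h2)) (enc_rat _ 11757493 10000000)))))) (pr_case (pr_addc (kpc43_9_s.snd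 h1 h2) (enc_rat _ 1 5)) (pr_add (pr_addc (pr_scaleT 829 5000000 (kpc43_9_s.snd h1 h2)) (enc_rat _ 2188357 10000000)) (pr_cmul (enc_norm (kpc43_4.enc h1.l h2)) (pr_norm (pr_addc (pr_scaleT 217 100000 (kpc43_9_s.snd h1 h2)) (enc_rat _ 11757571 10000000))))) (pr_case (pr_addc (kpc43_9_s.snd h1 h2) (enc_rat _ 1 10)) (pr_add (pr_addc (pr_scaleT 209 1250000 (kpc43_9_s.snd h1 h2)) (enc_rat _ 10941799 50000000)) (pr_cmul (enc_norm (kpc43_4.enc h1.l h2)) (pr_norm (pr_addc (pr_scaleT 539 250000 (kpc43_9_s.snd h1 h2)) (enc_rat _ 11757543 10000000))))) (pr_add (pr_addc (pr_scaleT 1699 10000000 (kpc43_9_s.snd h1 h2)) (enc_rat _ 175069 800000)) (pr_cmul (enc_norm (kpc43_4.enc h1.l h2)) (pr_norm (pr_addc (pr_scaleT 2149 1000000 (kpc43_9_s.snd h1 h2)) (enc_rat _ 367423 312500)))))))) (pr_case (pr_subr 1 5 (kpc43_9_s.snd h1 h2)) (pr_case (pr_subr 1 10 (kpc43_9_s.snd h1 h2))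 (pr_add (pr_addc (pr_scaleT 1769 10000000 (kpc43_9_s.snd h1 h2)) (enc_rat _ 175069 800000)) (pr_cmul (enc_norm (kpc43_4.enc h1.l h2)) (pr_norm (pr_addc (pr_scaleT 2213 1000000 (kpc43_9_s.snd h1 h2)) (enc_rat _ 367423 312500))))) (pr_add (pr_addc (pr_scaleT 1963 10000000 (kpc43_9_s.snd h1 h2)) (enc_rat _ 21883431 100000000)) (pr_cmul (enc_norm (kpc43_4.enc h1.l h2)) (pr_norm (pr_addc (pr_scaleT 459 200000 (kpc43_9_s.snd h1 h2)) (enc_rat _ 5878727 5000000)))))) (pr_case (pr_subr 3 10 (kpc43_9_s.snd h1 h2)) (pr_add (pr_addc (pr_scaleT 249 1000000 (kpc43_9_s.snd h1 h2)) (enc_rat _ 21882377 100000000)) (pr_cmul (enc_norm (kpc43_4.enc h1.l h2)) (pr_norm (pr_addc (pr_scaleT 2407 1000000 (kpc43_9_s.snd h1 h2)) (enc_rat _ 1175723 1000000))))) (pr_case (pr_subr 2 5 (kpc43_9_s.snd h1 h2)) (pr_add (pr_addc (pr_scaleT 3841 10000000 (kpc43_9_s.snd h1 h2)) (enc_rat _ 5469581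 25000000)) (pr_cmul (enc_norm (kpc43_4.enc h1.l h2)) (pr_norm (pr_addc (pr_scaleT 1787 500000 (kpc43_9_s.snd h1 h2)) (enc_rat _ 11753729 10000000))))) (pr_add (pr_addc (pr_scaleT 1439 2000000 (kpc43_9_s.snd h1 h2)) (enc_rat _ 5466227 25000000)) (pr_cmul (enc_norm (kpc43_4.enc h1.l h2)) (pr_norm (pr_addc (pr_scaleT 14167 1000000 (kpc43_9_s.snd h1 h2)) (enc_rat _ 11711357 10000000))))))))))))⟩
noncomputable def knc43_s : Sl2 knc43 := ⟨_, fun h1 h2 => (pr_norm (pr_add (pr_cmul (enc_norm (enc_add (enc_pnc _ 1) (enc_mul (mug3.enc h2) (gug.enc h2)))) (kfc43_s.snd h1 h2)) (pr_cmul (mug3.enc h2) (kpc43_s.snd h1 h2))))⟩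
noncomputable def gN0q0 : Gn := ⟨ndN0q0, c1g_s, kn0q0_s, l0q0_s, false⟩
noncomputable def gN0q1 : Gn := ⟨ndN0q1, c1g_s, kn0q1_s, l0q1_s, false⟩
noncomputable def gN0q2 : Gn := ⟨ndN0q2, idf_s, knc02_s, lc02_s, true⟩
noncomputable def gN1q0 : Gn := ⟨ndN1q0, cv1m_s, kn1q0_s, l1q0_s, false⟩
noncomputable def gN1q1 : Gn := ⟨ndN1q1, cv1m_s, kn1q1_s, l1q1_s, false⟩
noncomputable def gN1q2 : Gn := ⟨ndN1q2, cv1p_s, kn1q2_s, l1q2_s, false⟩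
noncomputable def gN1q3 : Gn := ⟨ndN1q3, cv1r_s, kn1q3_s, l1q3_s, false⟩
noncomputable def gN2q0 : Gn := ⟨ndN2q0, cv2m_s, kn2q0_s, l2q0_s, false⟩
noncomputable def gN2q1 : Gn := ⟨ndN2q1, cv2m_s, kn2q1_s, l2q1_s, false⟩
noncomputable def gN2q2 : Gn := ⟨ndN2q2, cv2p_s, kn2q2_s, l2q2_s, false⟩
noncomputable def gN2q3 : Gn := ⟨ndN2q3, cv2r_s, kn2q3_s, l2q3_s, false⟩
noncomputable def gN3q0 : Gn := ⟨ndN3q0, cv3m_s, kn3q0_s, l3q0_s, false⟩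
noncomputable def gN3q1 : Gn := ⟨ndN3q1, cv3m_s, kn3q1_s, l3q1_s, false⟩
noncomputable def gN3q2 : Gn := ⟨ndN3q2, cv3p_s, kn3q2_s, l3q2_s, false⟩
noncomputable def gN3q3 : Gn := ⟨ndN3q3, xc33_s, knc33_s, lc33_s, false⟩
noncomputable def gN4q0 : Gn := ⟨ndN4q0, c3g_s, kn4q0_s, l4q0_s, false⟩
noncomputable def gN4q1 : Gn := ⟨ndN4q1, c3g_s, kn4q1_s, l4q1_s, false⟩
noncomputable def gN4q2 : Gn := ⟨ndN4q2, c3g_s, kn4q2_s, l4q2_s, false⟩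
noncomputable def gN4q3 : Gn := ⟨ndN4q3, idf_s, knc43_s, lc43_s, false⟩
noncomputable def gN0q3 : Gn := gz
noncomputable def gN (j : Fin 5) (q : ℕ) : Gn :=
  match j, q with
  | 0, 0 => gN0q0
  | 0, 1 => gN0q1
  | 0, 2 => gN0q2
  | 0, 3 => gN0q3
  | 1, 0 => gN1q0
  | 1, 1 => gN1q1
  | 1, 2 => gN1q2
  | 1, 3 => gN1q3
  | 2, 0 => gN2q0
  | 2, 1 => gN2q1
  | 2, 2 => gN2q2
  | 2, 3 => gN2q3
  | 3, 0 => gN3q0
  | 3, 1 => gN3q1
  | 3, 2 => gN3q2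
  | 3, 3 => gN3q3
  | 4, 0 => gN4q0
  | 4, 1 => gN4q1
  | 4, 2 => gN4q2
  | 4, 3 => gN4q3
  | _, _ => gN0q0

noncomputable def c0F : Fn1 := ⟨fun _ => pone, fun _ => 1, fun _ => enc_one _⟩
noncomputable def c0N : Fn1 := c0n

end Pool.Agent.Strip051.G.I1_32_3_64.Tab
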