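import Pool.Agent.Strip051.G.I1_32_3_64.StF

/-! # Unit strips 1 (generated) -/

set_option linter.all false
set_option maxRecDepth 100000

namespace Pool.Agent.Strip051.G.I1_32_3_64.Tab.St.C

open Pool.Agent.Strip051.PB Pool.Agent.Strip051.PB.T Pool.Agent.StripNear Pool.Agent.Strip051.LC
open Pool.Agent.Strip051.G.I1_32_3_64.Tab Pool.Agent.Strip051.G.I1_32_3_64.Tab.St

noncomputable def cut_A00pm_012_s1 : Cut := Cut.of [[⟨4, 0, 0, 1449551462⟩], [⟨0, 0, 0, 12582912⟩, ⟨1, 1, 0, 12582912⟩, ⟨2, 1, 0, 12582912⟩], [⟨0, 0, 1, 16777216⟩, ⟨1, 1, 0, 6291456⟩, ⟨2, 1, 1, 16777216⟩, ⟨0, 0, 0, 67108864⟩, ⟨0, 1, 0, 1056964608⟩, ⟨2, 1, 0, 67108864⟩, ⟨2, 2, 0, 1056964608⟩]]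

noncomputable def xt_A00pm_012_s1 : Ext := strExt dd true true false .u0 .u0m .u2 .pnp 0 1 2 rfl rfl gf2 vv ndF0q0 ndF0q1

noncomputable def f_A00pm_012_s1 : ℕ → ℕ → ℕ → ℕ → Bool := onCell 1073741824 536870912 536870912 536870912 33554432 16777216
    (rowFK 2 true true false .pnp 0 1 2 (qsf 0 536870912 536870912 536870912 2) ndF0q0 ndF0q1 pcF2 cut_A00pm_012_s1 xt_A00pm_012_s1)

def k0_A00pm_012_s1 : ∃ t, chk3 f_A00pm_012_s1 t 2 2 1 = true :=
  ⟨(a (a (l 3) (l 3)) (b (a (a (a (l 3) (l 2)) (l 2)) (l 2)) (a (a (b (a (l 3) (a (a (l 3) (b (l 3) (l 570265871))) (b (b (l 2) (a (a (l 3) (l 552246287)) (b (l 2) (a (a (l 16791776) (l 16782568)) (l 16785544))))) (a (a (l 562985343) (a (l 558503295) (l 554978687))) (a (a (b (l 16797008) (l 16838832)) (b (l 16829080) (l 16796864))) (l 16823704)))))) (a (a (l 3) (b (l 3) (a (l 570237055) (l 571338623)))) (a (b (a (l 577562383) (l 570796159)) (a (b (a (l 575616639) (l 573371263)) (a (l 571804287) (l 571867263))) (b (a (l 570754431) (l 16857528)) (l 569476367))))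 (b (a (a (l 564607359) (l 561466495)) (a (a (l 16860856) (l 16860056)) (l 16900992))) (a (b (a (l 16845536) (l 16849888)) (l 16959432)) (a (l 16946904) (l 16943872))))))) (b (a (b (l 10838267175) (l 16866952)) (l 17007800)) (b (l 16894672) (l 17011296)))) (b (l 17335856) (l 17191288))))), by decide +kernel⟩

def k1_A00pm_012_s1 : ∃ t, chk3 f_A00pm_012_s1 t 4 6 1 = true :=
  ⟨(a (l 3) (a (b (l 3) (a (l 3) (b (l 3) (a (l 3) (l 565936511))))) (b (a (l 3) (b (l 3) (a (l 553782911) (l 557201279)))) (a (b (a (l 3) (l 554798463)) (a (l 562882431) (l 560305535))) (b (a (l 554839567) (l 555379983)) (a (l 557597311) (l 16972912))))))), by decide +kernel⟩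

def k2_A00pm_012_s1 : ∃ t, chk3 f_A00pm_012_s1 t 8 14 1 = true :=
  ⟨(a (l 3) (a (l 3) (b (l 3) (b (l 3) (a (l 582162559) (l 580166271)))))), by decide +kernel⟩

def k3_A00pm_012_s1 : ∃ t, chk3 f_A00pm_012_s1 t 16 30 1 = true :=
  ⟨(b (l 3) (b (l 3) (b (l 3) (a (l 3) (a (l 3) (a (l 3) (c (l 592617999) (a (l 574545423) (l 575910783))))))))), by decide +kernel⟩

def k4_A00pm_012_s1 : ∃ t, chk3 f_A00pm_012_s1 t 64 62 1 = true :=
  ⟨(l 3), by decide +kernel⟩

def k5_A00pm_012_s1 : ∃ t, chk3 f_A00pm_012_s1 t 64 126 1 = true :=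
  ⟨(b (l 3) (a (l 3) (a (l 3) (b (l 3) (a (l 3) (b (l 3) (b (l 3) (b (l 3) (a (l 3) (a (l 3) (a (a (l 3) (l 535841151)) (l 535831567)))))))))))), by decide +kernel⟩

def k6_A00pm_012_s1 : ∃ t, chk3 f_A00pm_012_s1 t 128 254 1 = true :=
  ⟨(b (l 3) (l 14)), by decide +kernel⟩

def k7_A00pm_012_s1 : ∃ t, chk3 f_A00pm_012_s1 t 258 254 1 = true :=
  ⟨(b (a (l 3) (b (l 3) (b (l 3) (b (l 3) (b (l 3) (a (l 3) (a (l 3) (a (l 3) (l 535594367))))))))) (a (l 14) (b (a (l 14) (a (l 14) (a (l 14) (b (b (l 535653503) (l 14)) (l 14))))) (l 14)))), by decide +kernel⟩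

def k8_A00pm_012_s1 : ∃ t, chk3 f_A00pm_012_s1 t 518 254 1 = true :=
  ⟨(b (b (a (l 3) (a (l 3) (b (l 3) (b (l 3) (a (l 535795327) (l 535808895)))))) (b (a (b (l 3) (a (l 3) (a (l 3) (l 535736191)))) (b (a (a (l 535725695) (a (l 535702655) (l 535709311))) (a (l 535785999) (l 535732351))) (a (a (l 535749759) (l 535763071)) (a (l 535776271) (l 535789839))))) (a (a (a (b (l 3) (l 535676799)) (b (l 535699727) (l 535690111))) (a (b (l 535713407) (l 535770751)) (b (l 535726719) (l 535784319)))) (a (a (b (l 535807359) (l 535663487)) (b (l 535686527) (l 535676799))) (a (b (l 535699727) (l 535690111)) (b (l 535847295) (l 535703423))))))) (a (b (a (b (a (b (l 535667071) (l 14)) (b (l 535747711) (l 535737983))) (l 14)) (a (b (b (l 535761023) (l 535751295)) (l 14)) (b (b (l 535774591) (l 535630463)) (b (l 535620735) (l 14))))) (l 14)) (b (b (a (a (b (l 535653759) (l 535644031)) (b (l 535667071) (l 535657343))) (a (b (l 535680383) (l 535670655)) (b (l 535693695) (l 535683967)))) (a (a (b (l 535634047) (l 14))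 (b (l 535647615) (l 535637631))) (a (b (l 535660927) (l 535650943)) (b (l 535674239) (l 535664255))))) (a (l 14) (a (l 14) (b (b (l 535654271) (l 14)) (l 14))))))), by decide +kernel⟩

def k9_A00pm_012_s1 : ∃ t, chk3 f_A00pm_012_s1 t 519 508 1 = true :=
  ⟨(b (a (b (a (l 3) (b (l 3) (a (b (l 3) (l 535798399)) (b (l 535816319) (l 535811711))))) (a (a (b (b (l 3) (l 535762559)) (l 535822207)) (b (b (l 535780479) (l 535775871)) (l 535835519))) (a (b (l 535824399) (l 535848575)) (b (l 535837711) (l 535794815))))) (b (b (b (a (a (l 3) (a (l 3) (l 535847183))) (a (l 535837199) (l 535825023))) (a (a (l 535834239) (l 535843199)) (a (l 535832591) (l 535820415)))) (a (a (b (l 535829631) (l 535825023)) (b (l 535838591) (l 535833983))) (a (c (l 535862543) (l 535855375)) (c (l 535849999) (l 535776271))))) (b (a (a (l 535851135) (l 535860095)) (a (l 535849599) (l 535837311))) (a (a (l 535808127) (l 535817087)) (a (l 535806591) (l 535794303)))))) (b (a (a (a (b (l 535745663) (l 535803263)) (b (l 535758975) (l 535749247)))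 (a (b (l 535772031) (l 535762559)) (b (l 535785343) (l 535775871)))) (a (a (b (l 535798655) (l 535788927)) (b (l 535807615) (l 535797887))) (a (b (l 535797119) (l 535787647)) (b (l 535785087) (l 535775359))))) (b (a (a (b (l 535802127) (l 535797263)) (a (l 535753087) (l 535766143))) (a (a (l 535779455) (l 535788415)) (c (l 535941759) (l 535868543)))) (a (b (a (l 535859727) (l 535819135)) (a (l 535787647) (l 535881343))) (a (a (l 535769727) (l 535778687)) (a (l 535768191) (l 535756159))))))), by decide +kernel⟩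

def k10_A00pm_012_s1 : ∃ t, chk3 f_A00pm_012_s1 t 519 509 1 = true :=
  ⟨(b (a (b (a (a (b (l 535707007) (l 535697279)) (b (l 535720319) (l 535710591))) (a (b (l 535733631) (l 535723647)) (b (l 535746687) (l 535736959)))) (a (a (b (l 535687295) (l 535677567)) (b (l 535700607) (l 535690623))) (a (b (l 535713919) (l 535703935)) (b (l 535726975) (l 535716991))))) (b (a (b (c (l 535934223) (l 535861007)) (a (l 535750015) (l 535758975))) (b (a (l 535758463) (l 535746431)) (c (l 535912063) (l 535973759)))) (a (a (b (l 535740287) (l 535730303)) (b (l 535749247) (l 535739263))) (a (b (l 535738751) (l 535728767)) (b (l 535726719) (l 535716735)))))) (a (b (a (a (b (l 535667327) (l 14)) (b (l 535680639) (l 535737727))) (a (b (l 535693951) (a (l 535680895) (l 535687551))) (b (l 535707007) (a (l 535693951) (l 535700607))))) (a (l 14) (a (l 14) (a (l 14) (b (l 535757439) (l 14)))))) (b (a (a (b (l 535719951) (a (l 535707263) (l 535713663))) (a (b (l 535730303) (l 535720063)) (b (l 535728767) (l 535718783))))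 (a (b (l 535718783) (a (l 535712127) (l 535705983))) (b (l 535706751) (a (l 535700095) (l 535694207))))) (b (a (a (b (l 535703167) (l 535698047)) (b (l 535712127) (l 535706895))) (a (b (l 535701631) (l 535696511)) (b (l 535689599) (l 535684479)))) (a (a (l 14) (b (b (l 16776208) (l 14)) (l 14))) (b (a (l 535708175) (l 535679247)) (b (a (l 16776128) (c (l 16776112) (l 16776040))) (a (l 14) (a (l 16776064) (c (l 16776080) (l 16776008))))))))))), by decide +kernel⟩

def k11_A00pm_012_s1 : ∃ t, chk3 f_A00pm_012_s1 t 64 255 1 = true :=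
  ⟨(a (l 14) (b (a (l 14) (b (a (l 14) (b (a (l 14) (a (l 14) (a (l 14) (a (l 14) (b (b (c (l 16776024) (l 16775952)) (l 14)) (l 14)))))) (l 14))) (l 14))) (l 14))), by decide +kernel⟩

def k12_A00pm_012_s1 : ∃ t, chk3 f_A00pm_012_s1 t 65 62 1 = true :=
  ⟨(b (l 3) (a (l 3) (b (l 3) (b (l 3) (b (l 3) (a (l 3) (a (l 3) (a (l 536073087) (l 536094335))))))))), by decide +kernel⟩

def k13_A00pm_012_s1 : ∃ t, chk3 f_A00pm_012_s1 t 65 252 1 = true :=
  ⟨(a (b (l 3) (b (l 3) (b (l 3) (a (l 3) (a (l 3) (a (l 3) (l 535846783))))))) (a (b (b (l 3) (a (l 3) (a (a (l 3) (l 535948671)) (l 536092287)))) (a (b (a (l 3) (a (l 535899519) (l 535904639))) (b (a (l 535869311) (l 535878271)) (a (l 535852927) (l 535861887)))) (a (b (b (l 535922303) (l 535906175)) (b (l 535890047) (l 535873663))) (b (l 536060543) (l 536027919))))) (b (a (b (a (l 536005247) (l 536023423)) (a (l 535974271) (l 535992447))) (b (a (l 536043135) (l 536064383)) (a (l 536012415) (l 536033407)))) (a (b (a (l 535942527) (l 535960703)) (a (l 535910015)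 (l 535928191))) (b (a (l 535980415) (l 536001663)) (a (l 535947903) (l 535968895))))))), by decide +kernel⟩

def k14_A00pm_012_s1 : ∃ t, chk3 f_A00pm_012_s1 t 260 253 1 = true :=
  ⟨(b (b (l 3) (b (l 3) (a (l 3) (a (l 3) (a (a (l 3) (l 535801471)) (l 535794959)))))) (a (b (b (l 3) (a (l 3) (a (l 3) (b (l 3) (l 535797375))))) (b (b (a (l 3) (a (a (l 535808383) (l 535800191)) (l 535788159))) (a (a (l 3) (a (l 535817599) (l 535808127))) (a (a (l 535799423) (l 535790975)) (l 535779199)))) (b (a (a (a (l 535829375) (l 535818623)) (a (l 535808383) (l 535798911))) (a (l 535785231) (l 535769983))) (a (a (a (l 535820159) (l 535809151)) (a (l 535799167) (l 535789695))) (a (l 535775871) (l 535760767)))))) (b (a (b (b (a (l 3) (l 535799935)) (a (l 535801983) (l 535790975))) (b (a (l 535793279) (l 535782015)) (a (l 535784319) (l 535773055)))) (a (b (c (l 535820415) (l 535884159)) (b (l 535772799) (l 535763839))) (b (l 535844479) (l 535759743)))) (a (b (b (a (l 535775103) (l 535764095)) (a (l 535766143) (l 535754879)))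 (a (a (l 535755135) (l 535748991)) (c (l 535909247) (l 535839359)))) (a (b (b (l 535754879) (l 535745663)) (l 535864847)) (b (l 535741567) (l 535723391))))))), by decide +kernel⟩

def k15_A00pm_012_s1 : ∃ t, chk3 f_A00pm_012_s1 t 261 253 1 = true :=
  ⟨(a (a (b (b (l 3) (a (b (l 535806335) (l 535788927)) (b (l 535801727) (l 535784319)))) (a (b (b (l 535771519) (l 535753599)) (b (l 535735679) (l 535717247))) (b (b (l 535766911) (l 535748991)) (b (l 535731071) (l 535712895))))) (b (b (b (l 3) (a (l 535815551) (l 535813503))) (a (b (l 535798399) (l 535781247)) (b (l 535796351) (l 535779199)))) (b (a (b (l 535763583) (l 535745919)) (b (l 535761535) (l 535743871))) (a (b (l 535727743) (l 535709567)) (b (l 535725951) (l 535707519)))))) (b (b (b (a (a (l 535829375) (l 535829631)) (l 535830143)) (a (a (l 535812735) (l 535812735)) (l 535813247))) (b (a (a (l 535795583) (l 535795839)) (l 535796095)) (a (a (l 535778175) (l 535778431)) (l 535778943)))) (b (b (a (a (l 535760767) (l 535761023)) (l 535761279))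 (a (l 535875087) (l 535743359))) (a (b (l 535857167) (l 535838735)) (b (l 535725439) (l 535841295)))))), by decide +kernel⟩

def k16_A00pm_012_s1 : ∃ t, chk3 f_A00pm_012_s1 t 131 253 1 = true :=
  ⟨(a (b (b (b (a (a (l 535836031) (l 535845247)) (a (l 535857023) (l 535871103))) (a (a (l 535819391) (l 535828351)) (a (l 535840127) (l 535854207)))) (b (a (a (l 535802239) (l 535811199)) (a (l 535822975) (l 535837055))) (a (a (l 535784831) (l 535793791)) (a (l 535805567) (l 535819647))))) (a (a (b (b (l 535767167) (l 535749503)) (b (l 535731327) (c (l 536014463) (l 535948671)))) (b (b (l 535776383) (l 535758463)) (b (l 535740543) (a (l 535721343) (l 535726463))))) (a (b (b (l 535787903) (l 535770239)) (b (l 535752063) (a (l 535732351) (l 535738751)))) (b (b (l 535801983) (l 535784319)) (b (l 535766031) (a (l 535745663) (l 535753343))))))) (b (a (b (a (l 536144767) (l 535894399)) (a (b (l 535853183) (l 535835775)) (b (l 535871103) (l 535853695)))) (a (b (l 535914111) (b (l 535890559) (l 535873151))) (b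 (l 535935103) (b (l 535911551) (l 535894143))))) (a (a (b (b (l 535818111) (l 535800447)) (a (b (l 535779455) (l 535761279)) (b (l 535787903) (l 535769727)))) (b (b (l 535836031) (l 535818367)) (a (b (l 535796863) (l 535778687)) (b (l 535806079) (l 535787903))))) (a (b (b (l 535855487) (l 535837823)) (b (a (l 535815807) (l 535826047)) (a (l 535797631) (b (l 16775352) (l 16775272))))) (b (b (l 535876479) (a (l 535854463) (l 535864959))) (a (b (l 535836287) (b (l 16775304) (a (l 16775232) (l 16775216)))) (b (l 535847039) (a (b (l 16775272) (l 16775208)) (b (b (l 16775272) (b (l 16775240) (l 16775232))) (l 16775176)))))))))), by decide +kernel⟩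

def k17_A00pm_012_s1 : ∃ t, chk3 f_A00pm_012_s1 t 260 508 1 = true :=
  ⟨(a (b (b (b (a (a (a (l 535810687) (l 535799935)) (a (l 535789951) (l 535780479))) (a (l 535766655) (l 535751551))) (a (a (a (l 535801359) (l 535790719)) (a (l 535780735) (l 535771263))) (a (l 535757439) (l 535742335)))) (b (a (a (a (l 535792255) (l 535781503)) (a (l 535771519) (l 535762047))) (a (l 535748223) (l 535732863))) (a (a (c (l 535947023) (l 535807503)) (a (l 535762047) (l 535752575))) (a (l 535806079) (l 535723647))))) (b (b (a (a (a (l 535773567) (l 535762815)) (l 535814159)) (a (l 535863679) (l 535714431))) (a (a (a (l 535764095) (l 535753343)) (l 535871759)) (a (l 535720063) (l 535704959)))) (b (a (a (a (l 535754367) (l 535743615)) (l 535795071)) (a (l 535710591) (l 535695487))) (a (a (l 535872527) (l 535852671)) (a (l 535701119) (l 535686015)))))) (b (b (a (a (a (l 535736447) (l 535730559)) (c (l 536024703) (l 535820927))) (a (l 535846527) (l 535704703))) (a (a (a (l 535718015) (l 535711871)) (c (l 536006015)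 (l 535802495))) (a (l 535827839) (l 535686271)))) (a (b (a (a (l 535699327) (l 535693183)) (c (l 535987071) (l 535918207))) (a (a (l 535948671) (l 535674239)) (a (l 535937151) (l 535932287)))) (b (a (l 535809151) (l 535801727)) (a (b (l 535662207) (l 535652735)) (b (l 535654783) (l 535645311))))))), by decide +kernel⟩

def k18_A00pm_012_s1 : ∃ t, chk3 f_A00pm_012_s1 t 260 1018 1 = true :=
  ⟨(b (b (a (a (a (l 535862911) (l 535842943)) (a (l 535691391) (l 535676287))) (a (a (l 535663487) (l 535652479)) (a (l 535643263) (l 535635839)))) (a (a (a (l 535852927) (l 535833215)) (a (l 535681663) (l 535666559))) (a (a (l 535787903) (l 535776895)) (a (l 535767935) (l 535760255))))) (b (a (a (a (a (l 535715455) (l 535704703)) (l 535756047)) (a (l 535805967) (l 535790863))) (a (a (l 535761279) (l 535767055)) (a (l 535758095) (a (l 535618943) (l 535615615))))) (a (a (a (a (l 535705471) (l 535694719)) (c (l 535848463) (l 535778319))) (a (c (l 535830799) (l 535744639)) (a (l 535651455) (l 535644543)))) (a (a (a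 (l 535637887) (l 535631999)) (c (l 535791119) (l 535723903))) (b (a (l 535617151) (l 535743871)) (a (l 535746431) (a (c (l 16775760) (l 16775680)) (c (l 16775720) (l 16775640))))))))), by decide +kernel⟩

def k19_A00pm_012_s1 : ∃ t, chk3 f_A00pm_012_s1 t 520 1019 1 = true :=
  ⟨(b (a (a (a (b (l 535695487) (b (l 16776224) (l 535683455))) (b (l 535684735) (b (l 16776176) (l 535672703)))) (a (b (l 535675007) (l 535731727)) (b (l 535665535) (l 535722511)))) (a (b (a (l 535657087) (l 535783039)) (a (b (l 16776040) (l 16776000)) (l 535739407))) (b (a (l 535775615) (l 535768703)) (b (a (l 16775952) (l 16775904)) (a (c (l 16775936) (l 16775864)) (c (c (l 16775912) (l 16775880)) (l 16775824))))))) (a (b (a (a (b (l 535678335) (l 535673215)) (b (l 535667839) (l 535662719))) (b (a (l 535657855) (l 535648639)) (a (a (l 16776024) (a (l 16776000) (l 16775992))) (b (l 16775968) (c (l 16775984) (l 16775912)))))) (a (a (a (b (l 16776072) (b (l 16776040) (l 16776008))) (b (c (l 16776080) (l 16776016)) (b (l 16776016)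 (l 16775976)))) (a (b (b (l 16776040) (l 16776016)) (c (l 16776000) (l 16775928))) (b (b (l 16776008) (l 16775992)) (l 16775936)))) (b (b (a (c (l 16776008) (l 16775944)) (l 16775912)) (a (l 16775944) (l 16775880))) (a (c (l 16775920) (l 16775856)) (c (l 16775864) (l 16775792)))))) (b (a (a (b (a (l 16775968) (l 16775944)) (b (c (l 16775960) (l 16775888)) (l 16775888))) (b (b (l 16775920) (a (l 16775912) (l 16775888))) (c (l 16775888) (l 16775816)))) (a (b (a (a (l 16775880) (l 16775872)) (l 16775848)) (c (l 16775832) (l 16775752))) (b (c (l 16775840) (l 16775760)) (l 16775736)))) (a (b (a (c (l 16775872) (l 16775800)) (l 16775784)) (a (l 16775768) (l 16775712))) (b (a (l 16775728) (l 16775672)) (c (l 16775672) (l 16775600))))))), by decide +kernel⟩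

def k20_A00pm_012_s1 : ∃ t, chk3 f_A00pm_012_s1 t 521 1019 1 = true :=
  ⟨(a (a (b (b (a (l 535762303) (l 535756415)) (a (b (c (l 16775888) (l 16775816)) (b (l 16775824) (l 16775792))) (b (c (l 16775848) (l 16775776)) (l 16775752)))) (b (b (a (l 16775744) (l 16775696)) (c (l 16775696) (l 16775616))) (b (c (l 16775632) (l 16775552)) (l 16775528)))) (b (b (b (l 535750783) (a (c (l 16775848) (l 16775768)) (c (l 16775808) (l 16775728)))) (b (a (c (l 16775808) (l 16775728)) (l 16775712)) (a (l 16775704) (l 16775648)))) (b (b (c (l 16775656) (l 16775576)) (c (l 16775592) (l 16775512))) (b (l 16775488) (l 16775432))))) (b (a (a (b (b (c (l 16775800) (l 16775720)) (c (l 16775760) (l 16775688))) (b (l 16775656) (l 16775600))) (b (b (c (l 16775760) (l 16775688)) (l 16775664)) (b (l 16775608) (l 16775552)))) (b (b (a (c (l 16775720) (l 16775640)) (l 16775624)) (c (l 16775632) (l 16775552))) (b (c (l 16775576) (l 16775496)) (l 16775480)))) (b (a (b (l 16775512) (l 16775456)) (a (l 16775416) (l 16775368))) (a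 (a (l 16775392) (l 16775344)) (c (l 16775320) (l 16775232)))))), by decide +kernel⟩

def k21_A00pm_012_s1 : ∃ t, chk3 f_A00pm_012_s1 t 522 254 1 = true :=
  ⟨(b (a (a (b (b (l 535698815) (l 535680383)) (b (l 535795839) (b (l 535648895) (l 535639423)))) (b (b (l 535694463) (l 535675775)) (b (l 535791231) (b (l 535644287) (l 535634815))))) (a (b (b (l 535691135) (l 535672447)) (b (l 535788159) (b (l 535640959) (l 535631487)))) (b (b (l 535689087) (l 535670655)) (b (l 535785999) (b (l 535639167) (l 535629695)))))) (b (b (a (b (a (l 535629695) (l 535625343)) (a (l 535754367) (l 535750015))) (b (a (l 535756159) (l 535754367)) (a (a (l 535613823) (l 535612543)) (b (c (l 16775632) (l 16775552)) (a (l 16775568) (l 16775536)))))) (b (a (a (c (l 535777919) (l 535711871)) (b (l 535608959) (a (l 16775640) (c (l 16775648) (l 16775560))))) (b (a (a (l 16775600) (l 16775568)) (c (l 16775544) (l 16775456))) (a (a (l 16775560) (l 16775512)) (c (l 16775496) (l 16775408))))) (b (a (a (a (l 16775680) (c (l 16775680)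 (l 16775600))) (a (l 16775600) (l 16775552))) (a (c (l 16775528) (l 16775440)) (l 16775400))) (a (a (a (l 16775640) (l 16775584)) (c (l 16775560) (l 16775480))) (a (l 16775432) (l 16775352)))))) (b (a (b (b (a (c (l 16775600) (l 16775512)) (l 16775464)) (a (l 16775504) (l 16775408))) (a (a (l 16775440) (l 16775392)) (a (l 16775352) (l 16775312)))) (a (a (b (l 16775376) (l 16775264)) (b (l 16775328) (l 16775224))) (c (b (l 16775320) (l 16775216)) (b (l 16775224) (l 16775120))))) (a (a (c (b (l 16775344) (l 16775232)) (b (l 16775264) (l 16775144))) (c (b (l 16775264) (l 16775152)) (b (l 16775176) (l 16775064)))) (a (b (l 16775136) (a (l 16775048) (l 16775008))) (b (l 16775064) (a (l 16774976) (l 16774936)))))))), by decide +kernel⟩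

def k22_A00pm_012_s1 : ∃ t, chk3 f_A00pm_012_s1 t 523 254 1 = true :=
  ⟨(b (b (a (b (a (l 535688319) (l 535688575)) (b (l 535808127) (l 535798655))) (b (a (l 535689855) (l 535691903)) (a (l 535805311) (l 535807615)))) (b (a (a (b (l 535657087) (l 535647615)) (b (l 535657087) (l 535647871))) (a (b (l 535658367) (l 535648895)) (b (l 535660415) (l 535650943)))) (a (a (b (l 535638143) (l 535628671)) (b (l 535638399) (l 535763071))) (b (a (l 535639423) (l 535641471)) (b (a (l 16775536) (c (l 16775504) (l 16775408))) (a (c (l 16775536) (l 16775440)) (a (l 16775440) (l 16775408)))))))) (b (b (b (b (a (a (l 16775600) (c (l 16775568) (l 16775480))) (a (a (l 16775464) (l 16775440)) (c (l 16775424) (l 16775328)))) (a (a (c (l 16775600) (l 16775512)) (a (l 16775496) (l 16775472))) (a (c (l 16775448) (l 16775360)) (l 16775328)))) (a (b (a (a (l 16775528) (l 16775504)) (c (l 16775480) (l 16775392))) (a (c (l 16775512) (l 16775424)) (l 16775384))) (a (b (l 16775360) (l 16775312)) (a (l 16775280) (l 16775248)))))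 (a (b (a (b (c (l 16775464) (l 16775376)) (l 16775368)) (a (l 16775336) (l 16775296))) (a (a (l 16775312) (l 16775272)) (c (l 16775264) (l 16775176)))) (a (c (b (l 16775288) (l 16775192)) (b (l 16775192) (l 16775096))) (b (a (l 16775192) (l 16775152)) (l 16775080))))) (b (a (a (b (a (l 16775216) (l 16775176)) (l 16775096)) (b (l 16775120) (l 16775024))) (a (b (l 16775048) (l 16774952)) (b (l 16774984) (l 16774888)))) (a (a (b (l 16774992) (l 16774888)) (b (l 16774920) (l 16774816))) (a (b (l 16774856) (l 16774752)) (b (l 16774792) (l 16774696))))))), by decide +kernel⟩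

def k23_A00pm_012_s1 : ∃ t, chk3 f_A00pm_012_s1 t 262 508 1 = true :=
  ⟨(a (b (a (b (a (l 535694719) (l 535698559)) (a (l 535810431) (l 535814271))) (b (b (l 535709567) (l 535834751)) (a (l 535751551) (l 535756559)))) (b (a (a (b (l 535663231) (l 535654015)) (b (l 535667071) (l 535657599))) (b (a (l 535671423) (l 535676543)) (b (a (l 16775424) (c (l 16775400) (l 16775304))) (a (c (l 16775424) (l 16775328)) (c (l 16775376) (l 16775280)))))) (b (a (b (a (l 16775480) (c (l 16775448) (l 16775352))) (a (c (l 16775472) (l 16775384)) (c (l 16775424) (l 16775328)))) (b (a (c (l 16775400) (l 16775304)) (l 16775280)) (a (l 16775304) (l 16775240)))) (a (b (a (a (l 16775408) (l 16775384)) (l 16775328)) (a (l 16775352) (l 16775280))) (a (a (l 16775256) (l 16775224)) (c (l 16775232) (l 16775128))))))) (a (b (b (a (l 535713919) (l 535720319)) (a (b (l 16775528) (l 535691647)) (b (l 16775464) (l 535698047)))) (b (b (b (a (l 16775384) (l 16775312)) (a (l 16775336) (l 16775288))) (b (a (c (l 16775360) (l 16775256))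 (l 16775240)) (a (l 16775264) (l 16775200)))) (a (b (a (l 16775216) (l 16775184)) (l 16775120)) (b (l 16775144) (l 16775064))))) (a (b (b (l 535727231) (b (l 16775408) (a (l 16775336) (l 16775296)))) (b (b (a (l 16775264) (l 16775232)) (l 16775168)) (b (l 16775096) (l 16775016)))) (b (b (l 535734911) (b (l 16775344) (a (l 16775280) (l 16775264)))) (b (b (c (l 16775248) (l 16775136)) (l 16775120)) (b (l 16775040) (l 16774968))))))), by decide +kernel⟩

def k24_A00pm_012_s1 : ∃ t, chk3 f_A00pm_012_s1 t 263 508 1 = true :=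
  ⟨(a (a (b (b (a (l 535742847) (l 535751183)) (b (b (a (l 16775312) (l 16775256)) (a (l 16775264) (l 16775224))) (a (c (l 16775280) (l 16775168)) (l 16775168)))) (b (a (b (l 16775144) (l 16775072)) (b (l 16775096) (l 16775024))) (a (b (l 16774992) (l 16774920)) (b (l 16774952) (l 16774880))))) (b (a (b (b (l 16775344) (a (l 16775264) (l 16775248))) (b (c (l 16775256) (l 16775136)) (l 16775120))) (b (b (l 16775296) (a (l 16775232) (l 16775216))) (b (l 16775152) (l 16775080)))) (b (a (b (l 16775056) (l 16774984)) (b (l 16775016) (l 16774944))) (b (a (l 16774912) (l 16774872)) (l 16774816))))) (b (b (b (a (a (a (l 16775248) (l 16775232)) (a (l 16775216) (l 16775200))) (a (l 16775168) (l 16775128))) (a (a (l 16775176) (l 16775136)) (a (l 16775104) (l 16775072)))) (b (a (a (l 16775112) (l 16775072)) (a (l 16775040) (l 16775008))) (a (a (l 16775040) (l 16775008)) (a (l 16774976) (l 16774944))))) (b (a (c (b (l 16775024) (l 16774952)) (b (l 16774896) (l 16774824))) (b (a (l 16774904) (l 16774880)) (l 16774824)))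 (a (b (l 16774816) (l 16774744)) (b (l 16774752) (l 16774688)))))), by decide +kernel⟩

def k25_A00pm_012_s1 : ∃ t, chk3 f_A00pm_012_s1 t 262 509 1 = true :=
  ⟨(b (a (b (a (a (a (b (l 16775304) (l 16775216)) (b (l 16775264) (l 16775176))) (c (b (l 16775272) (l 16775184)) (b (l 16775168) (l 16775080)))) (a (b (a (l 16775168) (l 16775144)) (l 16775072)) (b (l 16775096) (l 16775008)))) (a (a (b (l 16775104) (l 16775016)) (b (l 16775040) (l 16774952))) (a (b (l 16774984) (l 16774896)) (b (l 16774928) (l 16774840))))) (b (a (a (b (l 16775040) (l 16774960)) (b (l 16774984) (l 16774904))) (a (b (l 16774936) (l 16774856)) (b (l 16774888) (l 16774808)))) (a (a (b (l 16774872) (l 16774784)) (b (l 16774824) (l 16774736))) (c (b (l 16774808) (l 16774728)) (b (l 16774688) (l 16774608)))))) (a (b (a (a (b (l 16774920) (l 16774824)) (b (l 16774864) (l 16774768))) (a (b (l 16774808) (l 16774712)) (b (l 16774752) (l 16774664)))) (a (a (b (l 16774736) (l 16774632)) (b (l 16774672) (l 16774576))) (a (b (l 16774624)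 (l 16774528)) (b (l 16774568) (l 16774480))))) (b (a (a (b (l 16774704) (l 16774608)) (b (l 16774648) (l 16774568))) (c (b (l 16774648) (l 16774560)) (b (l 16774520) (l 16774440)))) (a (a (b (l 16774520) (l 16774432)) (b (l 16774480) (l 16774384))) (a (b (l 16774432) (l 16774344)) (b (l 16774392) (l 16774304))))))), by decide +kernel⟩

def k26_A00pm_012_s1 : ∃ t, chk3 f_A00pm_012_s1 t 263 509 1 = true :=
  ⟨(b (a (a (b (b (a (l 16774840) (l 16774800)) (l 16774744)) (b (l 16774664) (l 16774584))) (b (b (l 16774744) (l 16774664)) (b (l 16774592) (l 16774512)))) (b (a (b (l 16774672) (l 16774600)) (b (l 16774616) (l 16774544))) (a (b (l 16774520) (l 16774448)) (b (l 16774464) (l 16774392))))) (a (a (a (b (b (l 16774520) (l 16774440)) (b (l 16774352) (l 16774264))) (b (b (l 16774488) (l 16774400)) (b (l 16774320) (l 16774232)))) (b (c (b (l 16774504) (l 16774416)) (b (l 16774360) (l 16774280))) (a (b (l 16774280) (l 16774200)) (b (l 16774248) (l 16774168))))) (a (b (c (b (l 16774440) (l 16774360)) (b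 (l 16774296) (l 16774216))) (a (b (l 16774224) (l 16774136)) (b (l 16774192) (l 16774112)))) (b (b (l 16774312) (a (l 16774248) (l 16774224))) (c (b (l 16774232) (l 16774152)) (b (l 16774080) (l 16773992))))))), by decide +kernel⟩

def k27_A00pm_012_s1 : ∃ t, chk3 f_A00pm_012_s1 t 260 1020 1 = true :=
  ⟨(a (a (a (b (b (a (b (a (l 16775952) (l 16775920)) (c (l 16775904) (l 16775832))) (b (c (l 16775912) (l 16775840)) (l 16775808))) (a (l 14) (b (l 16775736) (l 14)))) (l 14)) (b (b (b (a (l 16775816) (l 16775760)) (c (l 16775752) (l 16775680))) (b (c (l 16775680) (l 16775616)) (c (l 16775608) (l 16775544)))) (b (b (c (l 16775544) (l 16775472)) (l 14)) (l 14)))) (a (b (b (b (c (l 16775712) (l 16775640)) (l 16775608)) (b (l 16775536) (c (l 16775504) (l 16775432)))) (b (b (c (l 16775440) (l 16775360)) (c (l 16775368) (l 16775296))) (b (c (l 16775296) (l 16775224)) (l 14)))) (b (b (b (l 16775568) (l 16775504)) (b (l 16775432) (l 16775368))) (c (b (b (l 16775336) (l 16775272)) (b (l 16775200) (l 16775136)))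 (b (a (l 16775256) (l 16775208)) (b (l 16775128) (l 16775056))))))) (b (b (a (b (a (l 16775464) (l 16775368)) (a (l 16775400) (l 16775304))) (a (a (l 16775264) (l 16775224)) (a (l 16775176) (l 16775136)))) (a (b (a (l 16775336) (l 16775240)) (a (l 16775272) (l 16775176))) (b (a (l 16775152) (l 16775064)) (a (l 16775088) (l 16775008))))) (b (a (b (a (l 16775208) (l 16775112)) (a (c (l 16775176) (l 16775104)) (l 16775048))) (b (a (l 16775032) (l 16774944)) (a (l 16774968) (l 16774888)))) (a (b (a (c (l 16775112) (l 16775032)) (c (l 16775024) (l 16774944))) (a (c (l 16775048) (l 16774968)) (c (l 16774960) (l 16774880)))) (b (a (c (l 16774944) (l 16774864)) (l 16774824)) (a (c (l 16774880) (l 16774800)) (c (l 16774808) (l 16774720)))))))), by decide +kernel⟩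

def k28_A00pm_012_s1 : ∃ t, chk3 f_A00pm_012_s1 t 261 1020 1 = true :=
  ⟨(a (b (a (a (a (b (l 16775096) (l 16774976)) (b (l 16775056) (l 16774936))) (a (b (l 16775016) (l 16774896)) (b (l 16774976) (l 16774864)))) (a (a (b (l 16774936) (l 16774824)) (b (l 16774904) (l 16774792))) (a (b (l 16774864) (l 16774752)) (b (l 16774832) (l 16774720))))) (a (b (b (a (l 16774872) (l 16774792)) (a (l 16774808) (l 16774736))) (b (a (l 16774752) (l 16774680)) (a (c (l 16774736) (l 16774648)) (l 16774616)))) (b (b (a (l 16774720) (l 16774656)) (a (l 16774664) (l 16774600))) (b (a (l 16774608) (l 16774544)) (a (l 16774552) (l 16774488)))))) (b (a (a (a (b (l 16774800) (l 16774688)) (b (l 16774760) (l 16774656))) (c (b (l 16774760) (l 16774656)) (b (l 16774664) (l 16774560)))) (a (c (b (l 16774704) (l 16774600)) (b (l 16774600) (l 16774496))) (c (b (l 16774648) (l 16774544)) (b (l 16774544) (l 16774440))))) (a (a (b (a (l 16774576) (l 16774544)) (b (l 16774480) (l 16774424))) (b (a (l 16774520) (l 16774488)) (b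 (l 16774424) (l 16774368)))) (a (b (a (l 16774456) (l 16774432)) (b (l 16774368) (l 16774312))) (b (a (l 16774400) (l 16774376)) (b (l 16774312) (l 16774256))))))), by decide +kernel⟩

def k29_A00pm_012_s1 : ∃ t, chk3 f_A00pm_012_s1 t 260 1021 1 = true :=
  ⟨(a (b (b (b (a (l 14) (a (l 14) (a (l 14) (l 16775008)))) (l 14)) (l 14)) (l 14)) (a (a (b (b (b (c (l 16774976) (l 16774904)) (a (l 16774896) (l 16774848))) (b (a (l 14) (l 16774784)) (l 14))) (l 14)) (b (b (b (c (l 16774896) (l 16774816)) (c (l 16774832) (l 16774752))) (b (a (l 16774744) (l 16774704)) (a (l 16774680) (l 16774640)))) (b (b (a (l 14) (l 16774576)) (l 14)) (l 14)))) (a (b (b (b (c (l 16774816) (l 16774736)) (c (l 16774752) (l 16774672))) (b (c (l 16774688) (l 16774608)) (a (l 16774600) (l 16774568)))) (b (b (a (l 16774536) (l 16774504)) (a (l 16774472) (l 16774432))) (b (a (l 14) (c (l 16774416) (l 16774328))) (l 14)))) (b (c (b (b (l 16774744) (l 16774680)) (b (l 16774616) (l 16774552))) (b (b (l 16774656) (l 16774592)) (b (l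 16774536) (l 16774472)))) (b (b (a (l 16774464) (l 16774432)) (a (l 16774400) (l 16774368))) (b (a (l 16774336) (l 16774304)) (a (c (l 16774312) (l 16774224)) (c (l 16774280) (l 16774192))))))))), by decide +kernel⟩

def k30_A00pm_012_s1 : ∃ t, chk3 f_A00pm_012_s1 t 261 2042 1 = true :=
  ⟨(a (b (b (a (a (c (l 16774672) (l 16774584)) (c (l 16774608) (l 16774512))) (a (c (l 16774536) (l 16774448)) (l 16774432))) (c (a (a (l 16774608) (l 16774544)) (a (l 16774480) (l 16774424))) (a (a (l 16774520) (l 16774456)) (a (l 16774384) (l 16774320))))) (b (c (a (a (l 16774552) (l 16774488)) (a (l 16774424) (l 16774360))) (a (a (l 16774464) (l 16774392)) (a (l 16774328) (l 16774264)))) (c (a (a (l 16774488) (l 16774424)) (a (l 16774360) (l 16774304))) (a (a (l 16774400) (l 16774336)) (a (l 16774272) (l 16774208)))))) (a (a (b (b (l 16774368) (l 16774312)) (b (c (l 16774304) (l 16774208)) (c (l 16774248) (l 16774152)))) (b (b (l 16774312) (l 16774256)) (b (c (l 16774256) (l 16774152)) (c (l 16774200) (l 16774088)))))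 (a (b (b (l 16774256) (l 16774200)) (b (l 16774144) (c (l 16774144) (l 16774040)))) (b (b (l 16774208) (l 16774152)) (b (l 16774096) (c (l 16774096) (l 16773984))))))), by decide +kernel⟩

def k31_A00pm_012_s1 : ∃ t, chk3 f_A00pm_012_s1 t 261 2043 1 = true :=
  ⟨(a (a (a (b (b (a (l 16774400) (l 16774368)) (a (l 16774336) (l 16774304))) (b (a (l 16774272) (l 16774240)) (a (a (l 16774216) (l 16774200)) (a (l 16774184) (l 16774168))))) (b (b (c (l 16774360) (l 16774272)) (a (l 16774272) (l 16774240))) (b (a (l 16774208) (l 16774176)) (a (l 16774144) (l 16774120))))) (a (b (b (c (l 16774304) (l 16774208)) (c (l 16774248) (l 16774144))) (b (a (l 16774152) (l 16774120)) (a (l 16774088) (l 16774064)))) (b (b (c (l 16774248) (l 16774152)) (c (l 16774192) (l 16774088))) (b (a (l 16774096) (l 16774064)) (a (l 16774032) (l 16774008)))))) (b (c (b (a (a (l 16774192) (l 16774144)) (a (l 16774088) (l 16774048))) (a (a (l 16774136) (l 16774088)) (a (l 16774040) (l 16773992)))) (a (a (b (l 16774088) (l 16774032))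 (b (l 16774032) (l 16773976))) (a (b (l 16773984) (l 16773928)) (b (l 16773936) (l 16773880))))) (b (a (a (c (l 16774080) (l 16773976)) (c (l 16774024) (l 16773920))) (a (c (l 16773984) (l 16773872)) (c (l 16773936) (l 16773824)))) (a (a (a (l 16773984) (l 16773952)) (a (l 16773928) (l 16773904))) (a (c (l 16773920) (l 16773816)) (c (l 16773880) (l 16773768))))))), by decide +kernel⟩

def k32_A00pm_012_s1 : ∃ t, chk3 f_A00pm_012_s1 t 260 511 1 = true :=
  ⟨(b (b (a (l 14) (b (b (b (a (l 14) (a (l 14) (c (l 16774248) (l 16774160)))) (l 14)) (l 14)) (l 14))) (l 14)) (l 14)), by decide +kernel⟩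

def k33_A00pm_012_s1 : ∃ t, chk3 f_A00pm_012_s1 t 522 511 1 = true :=
  ⟨(a (b (b (a (b (b (a (c (l 16774192) (l 16774096)) (c (l 16774160) (l 16774064))) (a (c (l 16774128) (l 16774032)) (c (l 16774096) (l 16774000)))) (a (l 14) (b (c (l 16774032) (l 16773936)) (l 14)))) (c (a (b (b (l 16774128) (l 16774072)) (b (l 16774008) (l 16773944))) (b (b (l 16774104) (l 16774040)) (b (l 16773976) (l 16773912)))) (b (b (c (l 16774048) (l 16774000)) (c (l 16773984) (l 16773936))) (b (a (l 16773912) (l 16773880)) (a (l 16773848) (l 16773816)))))) (a (l 14) (a (l 14) (b (b (c (l 16773848) (l 16773752)) (l 14)) (l 14))))) (l 14)) (a (b (b (c (b (b (c (l 16774088) (l 16774040)) (a (l 16774016) (l 16773992))) (a (b (l 16773952) (l 16773888)) (b (l 16773928) (l 16773864)))) (b (b (c (l 16773992) (l 16773944)) (c (l 16773928) (l 16773880))) (b (c (l 16773864) (l 16773816)) (a (l 16773792) (l 16773768))))) (b (a (b (c (l 16773824) (l 16773728)) (c (l 16773760) (l 16773664))) (b (c (l 16773800) (l 16773704)) (c (l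 16773736) (l 16773640)))) (a (l 14) (b (c (l 16773680) (l 16773576)) (l 14))))) (l 14)) (a (b (b (b (b (l 16773976) (a (l 16773920) (l 16773904))) (b (a (l 16773856) (l 16773848)) (c (l 16773840) (l 16773736)))) (c (b (b (l 16773776) (l 16773720)) (b (l 16773656) (l 16773592))) (b (b (l 16773680) (l 16773616)) (b (l 16773552) (l 16773488))))) (l 14)) (b (b (b (b (l 16773944) (a (l 16773896) (l 16773880))) (b (a (l 16773832) (l 16773816)) (c (l 16773816) (l 16773712)))) (c (b (b (l 16773752) (l 16773696)) (b (l 16773632) (l 16773568))) (b (b (l 16773648) (l 16773592)) (b (l 16773528) (l 16773464))))) (b (b (b (c (l 16773504) (l 16773400)) (l 14)) (l 14)) (l 14)))))), by decide +kernel⟩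

def k34_A00pm_012_s1 : ∃ t, chk3 f_A00pm_012_s1 t 1046 511 1 = true :=
  ⟨(a (b (b (b (b (a (l 16773920) (l 16773896)) (c (c (l 16773928) (l 16773872)) (c (l 16773824) (l 16773768)))) (b (a (a (l 16773808) (l 16773792)) (a (l 16773784) (l 16773768))) (a (a (l 16773744) (l 16773736)) (a (l 16773720) (l 16773712))))) (c (a (b (b (l 16773736) (l 16773672)) (b (l 16773608) (l 16773552))) (b (b (l 16773712) (l 16773648)) (b (l 16773592) (l 16773528)))) (b (b (c (l 16773640) (l 16773592)) (c (l 16773584) (l 16773528))) (b (a (l 16773504) (l 16773480)) (a (l 16773440) (l 16773416)))))) (b (b (a (b (c (l 16773488) (l 16773376)) (c (l 16773424) (l 16773312))) (b (c (l 16773464) (l 16773360)) (c (l 16773400) (l 16773296)))) (a (l 14) (b (b (l 16773304) (l 14)) (l 14)))) (l 14))) (b (b (b (b (a (l 16773872) (l 16773848)) (c (c (l 16773880) (l 16773824)) (l 16773744))) (b (c (c (l 16773824) (l 16773768)) (c (l 16773712) (l 16773656))) (a (a (l 16773696) (l 16773688)) (a (l 16773680) (l 16773664))))) (c (a (b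 (b (l 16773688) (l 16773632)) (b (l 16773568) (l 16773504))) (b (b (l 16773664) (l 16773608)) (b (l 16773544) (l 16773488)))) (b (b (c (l 16773592) (l 16773544)) (c (l 16773536) (l 16773480))) (b (c (l 16773472) (l 16773416)) (c (l 16773416) (l 16773360)))))) (b (b (b (a (c (l 16773448) (l 16773336)) (c (l 16773424) (l 16773312))) (a (c (l 16773384) (l 16773272)) (c (l 16773368) (l 16773256)))) (b (a (c (l 16773320) (l 16773208)) (c (l 16773304) (l 16773192))) (b (c (l 16773264) (l 16773152)) (c (l 16773232) (l 16773120))))) (b (b (b (c (l 16773208) (l 16773088)) (l 14)) (l 14)) (l 14))))), by decide +kernel⟩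

def k35_A00pm_012_s1 : ∃ t, chk3 f_A00pm_012_s1 t 2094 511 1 = true :=
  ⟨(b (b (b (b (a (l 16773824) (l 16773800)) (c (c (l 16773840) (l 16773784)) (l 16773696))) (b (c (c (l 16773784) (l 16773728)) (c (l 16773664) (l 16773608))) (a (a (l 16773656) (l 16773640)) (a (l 16773632) (l 16773624))))) (c (b (b (a (l 16773648) (l 16773624)) (a (l 16773584) (l 16773568))) (a (b (l 16773528) (l 16773472)) (b (l 16773512) (l 16773448)))) (b (b (c (l 16773552) (l 16773496)) (c (l 16773488) (l 16773432))) (b (c (l 16773432) (l 16773376)) (c (l 16773376) (l 16773312)))))) (b (b (b (a (c (l 16773408) (l 16773296)) (c (l 16773392) (l 16773272))) (a (c (l 16773344) (l 16773232)) (c (l 16773328) (l 16773208)))) (b (a (c (l 16773288) (l 16773168)) (c (l 16773272) (l 16773152))) (b (c (l 16773232) (l 16773112)) (c (l 16773200) (l 16773080))))) (b (b (b (c (l 16773168) (l 16773056)) (c (l 16773136) (l 16773024))) (b (c (l 16773104) (l 16772992)) (c (l 16773080) (l 16772960)))) (b (b (c (l 16773048) (l 16772928)) (l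 14)) (l 14))))), by decide +kernel⟩

def k36_A00pm_012_s1 : ∃ t, chk3 f_A00pm_012_s1 t 2095 511 1 = true :=
  ⟨(b (b (c (b (b (l 16773824) (c (l 16773800) (l 16773736))) (b (c (l 16773736) (l 16773680)) (c (l 16773680) (l 16773624)))) (b (b (l 16773712) (l 16773648)) (b (l 16773592) (c (l 16773568) (l 16773504))))) (a (c (b (b (l 16773608) (l 16773552)) (b (l 16773488) (l 16773432))) (b (b (l 16773488) (l 16773432)) (b (l 16773368) (l 16773312)))) (c (b (b (l 16773584) (l 16773528)) (b (l 16773472) (l 16773416))) (b (b (l 16773472) (l 16773408)) (b (l 16773352) (l 16773296)))))) (b (b (b (a (c (l 16773368) (l 16773256)) (c (l 16773352) (l 16773232))) (a (c (l 16773312) (l 16773192)) (c (l 16773296) (l 16773176)))) (b (a (c (l 16773248) (l 16773128)) (c (l 16773232) (l 16773112))) (b (c (l 16773200) (l 16773080)) (c (l 16773168) (l 16773048))))) (b (b (b (c (l 16773136) (l 16773016)) (c (l 16773104) (l 16772984))) (b (c (l 16773080) (l 16772952)) (c (l 16773048) (l 16772920)))) (b (b (c (l 16773016)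 (l 16772888)) (c (l 16772984) (l 16772864))) (b (c (l 16772952) (l 16772832)) (a (l 14) (b (l 16772856) (a (l 14) (c (l 16772904) (l 16772776)))))))))), by decide +kernel⟩

def k37_A00pm_012_s1 : ∃ t, chk3 f_A00pm_012_s1 t 262 1020 1 = true :=
  ⟨(a (b (a (a (c (b (l 16774592) (l 16774488)) (b (l 16774480) (l 16774384))) (b (l 16774480) (a (l 16774400) (l 16774376)))) (a (b (l 16774432) (a (l 16774344) (l 16774320))) (b (l 16774384) (a (l 16774304) (l 16774280))))) (a (a (a (b (l 16774352) (l 16774248)) (b (l 16774320) (l 16774224))) (a (b (l 16774296) (l 16774192)) (b (l 16774272) (l 16774176)))) (a (a (b (l 16774248) (l 16774152)) (b (l 16774224) (l 16774128))) (a (b (l 16774200) (l 16774104)) (b (l 16774184) (l 16774080)))))) (b (a (a (b (l 16774336) (a (l 16774256) (l 16774232))) (b (l 16774296) (l 16774200))) (a (b (l 16774256) (l 16774160)) (b (l 16774216) (l 16774128)))) (a (a (a (b (l 16774160) (l 16774064)) (b (l 16774136) (l 16774040))) (c (b (l 16774176) (l 16774080)) (b (l 16774040) (l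 16773944)))) (a (c (b (l 16774136) (l 16774040)) (b (l 16774000) (l 16773904))) (c (b (l 16774104) (l 16774008)) (b (l 16773968) (l 16773872))))))), by decide +kernel⟩

def k38_A00pm_012_s1 : ∃ t, chk3 f_A00pm_012_s1 t 262 1021 1 = true :=
  ⟨(b (a (b (a (b (a (l 16774152) (l 16774104)) (a (l 16774104) (l 16774056))) (b (a (l 16774064) (l 16774016)) (a (l 16774008) (l 16773968)))) (b (a (a (l 16774048) (l 16774000)) (a (l 16773960) (l 16773920))) (a (a (c (l 16774056) (l 16773936)) (l 16773952)) (a (l 16773904) (l 16773864))))) (a (a (b (b (l 16773976) (l 16773928)) (b (l 16773880) (l 16773824))) (b (b (l 16773936) (l 16773888)) (b (l 16773840) (l 16773792)))) (b (a (a (l 16773888) (l 16773872)) (a (l 16773856) (l 16773832))) (a (b (l 16773808) (l 16773752)) (b (l 16773768) (l 16773720)))))) (a (b (b (a (a (c (l 16774000) (l 16773880)) (c (l 16773960) (l 16773840))) (a (c (l 16773920) (l 16773792)) (l 16773816))) (b (a (a (l 16773904) (l 16773856)) (a (l 16773816) (l 16773776))) (a (a (l 16773872)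 (l 16773832)) (a (l 16773792) (l 16773752))))) (b (a (a (c (l 16773896) (l 16773776)) (c (l 16773848) (l 16773728))) (a (c (l 16773816) (l 16773688)) (c (l 16773776) (l 16773648)))) (a (a (c (l 16773840) (l 16773720)) (c (l 16773800) (l 16773672))) (a (c (l 16773760) (l 16773632)) (c (l 16773720) (l 16773592)))))) (a (a (b (b (l 16773776) (c (l 16773792) (l 16773656))) (b (c (l 16773744) (l 16773608)) (c (l 16773688) (l 16773552)))) (b (b (l 16773744) (c (l 16773760) (l 16773624))) (b (c (l 16773704) (l 16773568)) (c (l 16773656) (l 16773520))))) (a (b (b (l 16773704) (l 16773656)) (b (c (l 16773672) (l 16773536)) (c (l 16773624) (l 16773488)))) (b (b (l 16773672) (l 16773624)) (b (c (l 16773648) (l 16773504)) (c (l 16773592) (l 16773448)))))))), by decide +kernel⟩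

def k39_A00pm_012_s1 : ∃ t, chk3 f_A00pm_012_s1 t 526 510 1 = true :=
  ⟨(a (a (b (b (b (l 16774176) (l 16774088)) (c (b (l 16774064) (l 16773976)) (b (l 16773928) (l 16773832)))) (b (b (a (l 16773816) (l 16773800)) (b (l 16773736) (l 16773688))) (b (b (l 16773640) (l 16773592)) (b (c (l 16773616) (l 16773472)) (c (l 16773568) (l 16773416)))))) (b (b (b (l 16774144) (l 16774056)) (c (b (l 16774040) (l 16773944)) (b (l 16773896) (l 16773800)))) (b (b (c (l 16773856) (l 16773704)) (b (l 16773712) (l 16773664))) (b (b (l 16773616) (l 16773568)) (b (l 16773520) (c (l 16773544) (l 16773392))))))) (a (b (b (b (l 16774112) (l 16774024)) (c (b (l 16774008) (l 16773920)) (b (l 16773864) (l 16773768)))) (b (b (a (l 16773760) (l 16773744)) (b (l 16773680) (l 16773632))) (b (b (l 16773584) (l 16773536)) (b (l 16773488) (c (l 16773520) (l 16773360)))))) (b (b (b (l 16774080) (l 16773992)) (b (l 16773904) (a (l 16773824) (l 16773808)))) (b (b (a (l 16773728) (l 16773720)) (b (l 16773656) (l 16773608))) (b (b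 (l 16773560) (l 16773512)) (b (l 16773464) (c (l 16773496) (l 16773336)))))))), by decide +kernel⟩

def k40_A00pm_012_s1 : ∃ t, chk3 f_A00pm_012_s1 t 527 510 1 = true :=
  ⟨(a (a (b (b (b (l 16774056) (l 16773968)) (b (l 16773880) (a (l 16773800) (l 16773784)))) (b (b (a (l 16773704) (l 16773696)) (b (l 16773632) (l 16773584))) (b (b (l 16773536) (l 16773488)) (b (l 16773440) (c (l 16773480) (l 16773312)))))) (b (b (b (l 16774024) (l 16773944)) (b (l 16773856) (a (l 16773768) (l 16773760)))) (b (b (a (l 16773680) (l 16773672)) (b (l 16773608) (l 16773560))) (b (b (l 16773512) (l 16773464)) (b (l 16773424) (c (l 16773456) (l 16773288))))))) (a (b (b (b (l 16774000) (l 16773920)) (b (l 16773832) (a (l 16773752) (l 16773736)))) (b (c (b (l 16773736) (l 16773648)) (b (l 16773568) (l 16773480))) (b (b (l 16773496) (l 16773448)) (b (l 16773400) (l 16773352))))) (b (b (b (l 16773976) (l 16773896)) (b (l 16773808) (l 16773720))) (b (c (b (l 16773720) (l 16773632)) (b (l 16773552) (l 16773456))) (b (b (l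 16773472) (l 16773432)) (b (l 16773384) (l 16773336))))))), by decide +kernel⟩

def k41_A00pm_012_s1 : ∃ t, chk3 f_A00pm_012_s1 t 262 2044 2 = true :=
  ⟨(a (b (a (a (b (l 16773784) (c (l 16773760) (l 16773696))) (b (l 16773744) (l 16773688))) (a (b (l 16773704) (l 16773648)) (b (l 16773672) (l 16773616)))) (a (c (b (a (l 16773704) (l 16773664)) (a (l 16773648) (l 16773608))) (b (a (l 16773640) (l 16773600)) (a (l 16773584) (l 16773544)))) (c (b (a (l 16773632) (l 16773600)) (a (l 16773576) (l 16773544))) (b (a (l 16773568) (l 16773528)) (a (l 16773512) (l 16773480)))))) (b (a (a (b (l 16773640) (l 16773584)) (b (l 16773608) (l 16773552))) (a (b (l 16773576) (l 16773520)) (b (l 16773544) (l 16773496)))) (a (a (b (l 16773528) (c (l 16773512) (l 16773440))) (b (l 16773504) (c (l 16773480) (l 16773416)))) (a (b (l 16773472) (c (l 16773456) (l 16773384))) (b (l 16773440) (l 16773392)))))), by decide +kernel⟩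

def k42_A00pm_012_s1 : ∃ t, chk3 f_A00pm_012_s1 t 262 2045 2 = true :=
  ⟨(a (a (a (a (b (b (l 16773568) (l 16773512)) (b (l 16773456) (l 16773392))) (b (b (l 16773552) (l 16773496)) (b (l 16773432) (l 16773376)))) (a (b (b (l 16773528) (l 16773472)) (b (l 16773416) (l 16773360))) (b (b (l 16773512) (l 16773456)) (b (l 16773400) (l 16773344))))) (a (b (b (c (l 16773520) (l 16773456)) (a (l 16773440) (l 16773424))) (b (a (l 16773384) (l 16773368)) (a (l 16773328) (l 16773312)))) (b (b (c (l 16773488) (l 16773424)) (c (l 16773432) (l 16773368))) (b (a (l 16773352) (l 16773336)) (a (l 16773296) (l 16773280)))))) (b (a (c (b (a (l 16773456) (l 16773432)) (a (l 16773408) (l 16773376))) (b (a (l 16773392) (l 16773360)) (a (l 16773336) (l 16773304)))) (c (b (a (l 16773400) (l 16773376)) (a (l 16773352) (l 16773328))) (b (a (l 16773328) (l 16773304)) (a (l 16773280) (l 16773248))))) (a (a (b (a (l 16773320) (l 16773312)) (a (l 16773264) (l 16773256))) (b (a (l 16773296) (l 16773280)) (a (l 16773240) (l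 16773224)))) (a (b (a (l 16773264) (l 16773256)) (a (l 16773216) (l 16773200))) (b (c (l 16773272) (l 16773200)) (a (l 16773184) (l 16773176))))))), by decide +kernel⟩

def k43_A00pm_012_s1 : ∃ t, chk3 f_A00pm_012_s1 t 263 1022 2 = true :=
  ⟨(b (a (b (b (b (a (l 16773520) (l 16773472)) (a (l 16773496) (l 16773448))) (a (a (l 16773472) (l 16773440)) (a (l 16773424) (l 16773400)))) (b (a (a (l 16773416) (l 16773392)) (a (l 16773368) (l 16773352))) (a (a (l 16773368) (l 16773344)) (a (l 16773320) (l 16773304))))) (b (b (b (a (l 16773432) (l 16773400)) (a (l 16773408) (l 16773376))) (b (a (l 16773384) (l 16773352)) (a (l 16773360) (l 16773328)))) (b (a (a (l 16773328) (l 16773312)) (a (l 16773296) (l 16773280))) (a (a (l 16773280) (l 16773264)) (a (l 16773248) (l 16773232)))))) (a (b (b (a (a (c (l 16773352) (l 16773280)) (c (l 16773328) (l 16773256))) (a (l 16773272) (l 16773248))) (b (a (a (l 16773280) (l 16773256)) (a (l 16773232) (l 16773216))) (a (a (l 16773248) (l 16773224)) (a (l 16773208) (l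 16773184))))) (b (b (a (a (l 16773224) (l 16773200)) (a (l 16773184) (l 16773160))) (a (a (l 16773200) (l 16773176)) (a (l 16773152) (l 16773136)))) (a (a (a (l 16773168) (l 16773152)) (a (l 16773144) (l 16773128))) (a (a (l 16773120) (l 16773112)) (c (l 16773136) (l 16773056)))))) (a (a (b (b (l 16773232) (c (l 16773224) (l 16773136))) (b (c (l 16773176) (l 16773088)) (c (l 16773120) (l 16773040)))) (b (b (l 16773216) (l 16773168)) (b (c (l 16773160) (l 16773072)) (c (l 16773104) (l 16773016))))) (a (b (b (l 16773200) (l 16773152)) (b (c (l 16773144) (l 16773056)) (c (l 16773096) (l 16773000)))) (b (b (l 16773184) (l 16773136)) (b (l 16773088) (c (l 16773080) (l 16772992)))))))), by decide +kernel⟩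

def k44_A00pm_012_s1 : ∃ t, chk3 f_A00pm_012_s1 t 262 1022 3 = true :=
  ⟨(b (a (b (a (a (b (l 16773664) (l 16773608)) (b (l 16773624) (l 16773568))) (a (b (l 16773576) (l 16773528)) (b (l 16773536) (l 16773488)))) (a (a (b (l 16773552) (l 16773496)) (b (l 16773512) (l 16773456))) (a (b (l 16773472) (l 16773416)) (b (l 16773432) (l 16773376))))) (b (b (a (a (l 16773504) (l 16773464)) (a (l 16773432) (l 16773400))) (a (a (l 16773448) (l 16773416)) (a (l 16773384) (l 16773352)))) (a (a (b (l 16773392) (l 16773344)) (b (l 16773360) (l 16773304))) (a (b (l 16773328) (l 16773272)) (b (l 16773296) (l 16773248)))))) (a (b (a (a (b (c (l 16773464) (l 16773408)) (c (l 16773408) (l 16773352))) (b (l 16773400) (c (l 16773368) (l 16773312)))) (a (b (l 16773360) (l 16773304)) (b (l 16773320) (l 16773264)))) (a (c (b (a (l 16773352) (l 16773312)) (a (l 16773296) (l 16773256))) (b (a (l 16773288) (l 16773248)) (a (l 16773232) (l 16773192)))) (c (b (a (l 16773280) (l 16773248)) (a (l 16773224) (l 16773192))) (b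 (a (l 16773216) (l 16773176)) (a (l 16773160) (l 16773120)))))) (b (a (a (b (l 16773288) (l 16773232)) (b (l 16773256) (l 16773200))) (a (b (l 16773224) (l 16773168)) (b (l 16773192) (l 16773136)))) (a (a (b (l 16773176) (c (l 16773160) (l 16773088))) (b (l 16773144) (c (l 16773128) (l 16773056)))) (a (b (l 16773112) (l 16773056)) (b (l 16773088) (l 16773032))))))), by decide +kernel⟩

def k45_A00pm_012_s1 : ∃ t, chk3 f_A00pm_012_s1 t 263 1022 3 = true :=
  ⟨(a (b (b (b (b (a (l 16773368) (l 16773312)) (a (l 16773344) (l 16773288))) (b (a (l 16773320) (l 16773264)) (a (l 16773288) (l 16773240)))) (b (b (a (l 16773264) (l 16773208)) (a (l 16773240) (l 16773184))) (b (a (l 16773216) (l 16773160)) (a (l 16773184) (l 16773136))))) (b (b (a (a (l 16773160) (l 16773136)) (a (l 16773112) (l 16773088))) (a (a (l 16773112) (l 16773080)) (a (l 16773056) (l 16773032)))) (b (a (a (l 16773056) (l 16773032)) (a (l 16773008) (l 16772984))) (a (a (l 16773000) (l 16772976)) (a (l 16772952) (l 16772928)))))) (b (a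 (b (b (a (l 16773264) (l 16773240)) (a (l 16773216) (l 16773192))) (b (a (l 16773160) (l 16773144)) (a (l 16773112) (l 16773088)))) (b (b (a (l 16773216) (l 16773200)) (a (l 16773168) (l 16773152))) (b (a (l 16773120) (l 16773104)) (a (l 16773072) (l 16773048))))) (b (b (b (a (l 16773064) (l 16773024)) (a (l 16773040) (l 16773000))) (b (a (l 16773016) (l 16772976)) (a (l 16772984) (l 16772952)))) (b (b (a (l 16772960) (l 16772920)) (a (l 16772936) (l 16772896))) (b (a (l 16772912) (l 16772872)) (a (l 16772888) (l 16772848))))))), by decide +kernel⟩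

def k46_A00pm_012_s1 : ∃ t, chk3 f_A00pm_012_s1 t 524 2046 1 = true :=
  ⟨(b (c (a (a (a (b (l 16773336) (l 16773280)) (b (l 16773320) (l 16773264))) (a (b (l 16773304) (l 16773248)) (b (l 16773288) (l 16773232)))) (a (a (b (l 16773272) (l 16773216)) (b (l 16773256) (l 16773200))) (a (b (l 16773240) (l 16773184)) (b (l 16773224) (l 16773168))))) (a (c (b (a (l 16773232) (l 16773200)) (a (l 16773176) (l 16773144))) (b (a (l 16773176) (l 16773136)) (a (l 16773112) (l 16773080)))) (c (b (a (l 16773168) (l 16773128)) (a (l 16773104) (l 16773072))) (b (a (l 16773096) (l 16773064)) (a (l 16773040) (l 16773008)))))) (b (a (a (a (c (l 16773216) (l 16773096)) (c (l 16773200) (l 16773080))) (a (c (l 16773184) (l 16773056)) (c (l 16773168) (l 16773040)))) (a (b (c (l 16773160) (l 16773032)) (c (l 16773136) (l 16773000))) (b (c (l 16773136) (l 16773000)) (c (l 16773104) (l 16772968))))) (b (a (a (c (l 16773168) (l 16773040)) (c (l 16773136) (l 16773008))) (a (c (l 16773104) (l 16772968)) (c (l 16773080) (l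 16772936)))) (a (a (c (l 16773136) (l 16773008)) (c (l 16773104) (l 16772976))) (a (c (l 16773080) (l 16772944)) (c (l 16773048) (l 16772912))))))), by decide +kernel⟩

def k47_A00pm_012_s1 : ∃ t, chk3 f_A00pm_012_s1 t 525 2046 1 = true :=
  ⟨(a (a (b (b (a (c (l 16773208) (l 16773072)) (c (l 16773200) (l 16773056))) (a (c (l 16773152) (l 16773016)) (c (l 16773144) (l 16773000)))) (b (b (c (l 16773104) (l 16772968)) (c (l 16773080) (l 16772936))) (b (c (l 16773048) (l 16772912)) (c (l 16773024) (l 16772880))))) (b (b (a (c (l 16773184) (l 16773040)) (c (l 16773168) (l 16773024))) (a (c (l 16773128) (l 16772984)) (c (l 16773120) (l 16772968)))) (b (b (c (l 16773080) (l 16772936)) (c (l 16773056) (l 16772904))) (b (c (l 16773024) (l 16772880)) (c (l 16773000) (l 16772848)))))) (b (a (b (a (c (l 16773160) (l 16773008)) (c (l 16773144) (l 16773000))) (a (c (l 16773104) (l 16772960)) (c (l 16773088) (l 16772944)))) (b (c (a (l 16773136) (l 16773120)) (l 16772976)) (a (c (l 16773080) (l 16772928)) (c (l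 16773072) (l 16772912))))) (a (b (b (c (l 16773056) (l 16772904)) (c (l 16773032) (l 16772880))) (b (c (l 16773000) (l 16772848)) (c (l 16772976) (l 16772824)))) (b (b (c (l 16773032) (l 16772880)) (c (l 16773008) (l 16772856))) (b (c (l 16772976) (l 16772824)) (c (l 16772952) (l 16772800))))))), by decide +kernel⟩

def k48_A00pm_012_s1 : ∃ t, chk3 f_A00pm_012_s1 t 526 2046 1 = true :=
  ⟨(a (b (a (b (c (a (l 16773112) (l 16773096)) (l 16772952)) (a (c (l 16773056) (l 16772904)) (c (l 16773048) (l 16772888)))) (b (c (a (l 16773088) (l 16773080)) (l 16772928)) (c (a (l 16773040) (l 16773024)) (l 16772872)))) (a (b (b (c (l 16773008) (l 16772856)) (c (l 16772984) (l 16772824))) (b (c (l 16772960) (l 16772800)) (c (l 16772928) (l 16772768)))) (b (b (c (l 16772992) (l 16772832)) (c (l 16772968) (l 16772800))) (b (c (l 16772936) (l 16772776)) (c (l 16772912) (l 16772744)))))) (b (a (b (c (a (l 16773072) (l 16773056)) (l 16772896)) (c (a (l 16773016) (l 16773008)) (l 16772848))) (b (c (a (l 16773048) (l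 16773040)) (l 16772880)) (c (a (l 16773000) (l 16772992)) (l 16772824)))) (a (b (b (c (l 16772968) (l 16772808)) (c (l 16772944) (l 16772776))) (b (c (l 16772920) (l 16772752)) (c (l 16772888) (l 16772728)))) (b (c (b (l 16772952) (l 16772928)) (l 16772768)) (b (c (l 16772904) (l 16772728)) (c (l 16772872) (l 16772704))))))), by decide +kernel⟩

def k49_A00pm_012_s1 : ∃ t, chk3 f_A00pm_012_s1 t 527 2046 1 = true :=
  ⟨(a (b (a (b (c (a (l 16773032) (l 16773024)) (l 16772856)) (c (a (l 16772984) (l 16772976)) (l 16772800))) (b (c (a (l 16773016) (l 16773008)) (l 16772832)) (c (a (l 16772968) (l 16772960)) (l 16772784)))) (a (b (c (b (l 16772936) (l 16772912)) (l 16772752)) (b (c (l 16772888) (l 16772712)) (c (l 16772856) (l 16772680)))) (c (b (b (l 16772920) (l 16772896)) (b (l 16772872) (l 16772840))) (b (l 16772728) (l 16772680))))) (a (c (b (b (c (l 16773040) (l 16772952)) (a (l 16772952) (l 16772944))) (b (a (l 16772896) (l 16772888)) (b (l 16772856) (l 16772832)))) (b (b (l 16772816) (l 16772768))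 (b (l 16772712) (l 16772656)))) (c (b (b (c (l 16773032) (l 16772936)) (a (l 16772936) (l 16772928))) (b (a (l 16772888) (l 16772880)) (b (l 16772840) (l 16772816)))) (b (b (l 16772800) (l 16772744)) (b (l 16772696) (l 16772640)))))), by decide +kernel⟩

def k50_A00pm_012_s1 : ∃ t, chk3 f_A00pm_012_s1 t 131 8188 1 = true :=
  ⟨(b (a (a (a (a (c (l 16773104) (l 16772976)) (c (l 16773072) (l 16772944))) (a (c (l 16773048) (l 16772912)) (c (l 16773016) (l 16772880)))) (a (a (c (l 16772992) (l 16772848)) (c (l 16772968) (l 16772824))) (a (c (l 16772944) (l 16772792)) (c (l 16772920) (l 16772768))))) (a (a (a (c (l 16772904) (l 16772744)) (c (l 16772880) (l 16772720))) (a (c (l 16772864) (l 16772696)) (c (c (l 16772888) (l 16772808)) (l 16772672)))) (a (a (c (c (l 16772872) (l 16772784)) (l 16772656)) (c (c (l 16772864) (l 16772768)) (l 16772640))) (a (c (l 16772800) (l 16772616)) (c (c (l 16772840) (l 16772744)) (l 16772600)))))) (a (a (a (a (c (l 16773072) (l 16772952)) (c (l 16773048) (l 16772912)))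 (a (c (l 16773016) (l 16772880)) (c (l 16772992) (l 16772856)))) (a (a (c (l 16772968) (l 16772824)) (c (l 16772944) (l 16772792))) (a (c (l 16772920) (l 16772768)) (c (l 16772896) (l 16772744))))) (c (b (a (a (c (l 16772912) (l 16772832)) (c (l 16772880) (l 16772792))) (a (c (l 16772848) (l 16772760)) (c (l 16772824) (l 16772728)))) (a (a (c (l 16772896) (l 16772816)) (c (l 16772864) (l 16772776))) (a (c (l 16772832) (l 16772744)) (c (l 16772808) (l 16772720))))) (a (a (c (l 16772744) (l 16772664)) (c (l 16772704) (l 16772616))) (a (c (l 16772664) (l 16772576)) (c (l 16772632) (l 16772536))))))), by decide +kernel⟩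

def k51_A00pm_012_s1 : ∃ t, chk3 f_A00pm_012_s1 t 131 8189 1 = true :=
  ⟨(b (a (a (a (a (c (l 16773048) (l 16772920)) (c (l 16773016) (l 16772888))) (a (c (l 16772992) (l 16772856)) (c (l 16772960) (l 16772824)))) (a (a (c (l 16772936) (l 16772792)) (c (l 16772912) (l 16772768))) (a (c (l 16772888) (l 16772736)) (c (c (l 16772904) (l 16772832)) (l 16772712))))) (a (a (a (c (c (l 16772888) (l 16772808)) (l 16772688)) (c (c (l 16772872) (l 16772784)) (l 16772664))) (a (c (c (l 16772856) (l 16772768)) (l 16772640)) (c (c (l 16772840) (l 16772752)) (l 16772624)))) (a (a (c (c (l 16772824) (l 16772736)) (l 16772600)) (c (c (l 16772808) (l 16772720)) (l 16772584))) (a (c (c (l 16772800) (l 16772704)) (l 16772568)) (c (c (l 16772784) (l 16772688)) (l 16772552)))))) (a (a (a (a (c (l 16773016) (l 16772888)) (c (l 16772984) (l 16772856))) (a (c (l 16772960) (l 16772824)) (c (l 16772936) (l 16772792)))) (a (a (c (l 16772904) (l 16772768)) (c (c (l 16772920) (l 16772848)) (l 16772736))) (a (c (l 16772864)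 (l 16772712)) (c (c (l 16772880) (l 16772800)) (l 16772680))))) (a (a (a (c (c (l 16772856) (l 16772776)) (l 16772656)) (c (c (l 16772840) (l 16772760)) (l 16772640))) (a (c (c (l 16772824) (l 16772744)) (l 16772616)) (c (c (l 16772808) (l 16772720)) (l 16772592)))) (a (a (c (c (l 16772792) (l 16772704)) (l 16772576)) (c (c (l 16772784) (l 16772688)) (l 16772552))) (a (c (c (l 16772768) (l 16772680)) (l 16772536)) (c (c (l 16772760) (l 16772664)) (l 16772520))))))), by decide +kernel⟩

def k52_A00pm_012_s1 : ∃ t, chk3 f_A00pm_012_s1 t 524 4095 1 = true :=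
  ⟨(b (b (a (a (c (l 16772984) (l 16772856)) (c (l 16772960) (l 16772824))) (a (c (l 16772928) (l 16772792)) (c (l 16772904) (l 16772760)))) (a (a (c (l 16772952) (l 16772824)) (c (l 16772928) (l 16772792))) (a (c (l 16772896) (l 16772760)) (c (l 16772872) (l 16772736))))) (a (c (b (a (l 16772920) (l 16772896)) (b (c (l 16772920) (l 16772856)) (a (a (c (l 16772920) (l 16772864)) (c (l 16772912) (l 16772848))) (b (l 16772864) (c (c (l 16772904) (l 16772872)) (c (l 16772840) (l 16772808))))))) (a (b (l 16772800) (a (c (l 16772808) (l 16772744)) (c (l 16772792) (l 16772728)))) (b (l 16772768) (a (c (l 16772776) (l 16772712)) (c (l 16772760) (l 16772696)))))) (c (b (a (l 16772872) (l 16772848)) (b (c (l 16772872) (l 16772800)) (b (l 16772824) (a (a (a (l 16772840) (l 16772832)) (c (l 16772856) (l 16772784))) (a (c (l 16772848) (l 16772776)) (c (l 16772832) (l 16772760))))))) (a (b (l 16772736) (a (c (l 16772744) (l 16772680)) (c (l 16772728) (l 16772664)))) (b (l 16772704) (a (c (l 16772720) (l 16772648))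 (c (l 16772704) (l 16772632)))))))), by decide +kernel⟩

def k53_A00pm_012_s1 : ∃ t, chk3 f_A00pm_012_s1 t 525 4095 1 = true :=
  ⟨(b (b (a (a (c (l 16772880) (l 16772736)) (c (c (l 16772888) (l 16772816)) (l 16772704))) (a (c (c (l 16772872) (l 16772792)) (l 16772680)) (c (c (l 16772848) (l 16772776)) (l 16772656)))) (a (a (c (l 16772848) (l 16772704)) (c (c (l 16772864) (l 16772792)) (l 16772680))) (a (c (c (l 16772840) (l 16772768)) (l 16772648)) (c (c (l 16772824) (l 16772744)) (l 16772624))))) (a (b (a (c (l 16772824) (l 16772672)) (c (c (l 16772832) (l 16772760)) (l 16772648))) (c (c (a (a (c (l 16772848) (l 16772816)) (c (l 16772840) (l 16772800))) (a (c (l 16772832) (l 16772792)) (a (l 16772800) (l 16772800)))) (b (l 16772752) (a (a (l 16772752) (l 16772744)) (a (l 16772728) (l 16772720))))) (a (a (c (l 16772688) (l 16772616)) (c (l 16772672) (l 16772600))) (a (c (l 16772664) (l 16772592)) (c (l 16772648) (l 16772576)))))) (b (a (c (c (l 16772816) (l 16772736)) (l 16772624)) (c (c (l 16772792)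 (l 16772712)) (l 16772600))) (c (b (c (l 16772784) (l 16772704)) (a (a (c (c (l 16772800) (l 16772760)) (l 16772704)) (c (c (l 16772792) (l 16772752)) (l 16772696))) (a (c (c (l 16772784) (l 16772744)) (l 16772688)) (c (c (l 16772776) (l 16772736)) (l 16772672))))) (a (a (c (l 16772640) (l 16772560)) (c (l 16772624) (l 16772552))) (a (c (l 16772616) (l 16772536)) (c (l 16772600) (l 16772520)))))))), by decide +kernel⟩

def k54_A00pm_012_s1 : ∃ t, chk3 f_A00pm_012_s1 t 526 4095 1 = true :=
  ⟨(b (b (a (a (c (c (l 16772832) (l 16772752)) (l 16772632)) (c (c (l 16772816) (l 16772728)) (l 16772608))) (a (c (c (l 16772800) (l 16772712)) (l 16772584)) (c (c (l 16772784) (l 16772696)) (l 16772568)))) (a (a (c (c (l 16772800) (l 16772720)) (l 16772600)) (c (c (l 16772784) (l 16772704)) (l 16772584))) (a (c (c (l 16772768) (l 16772688)) (l 16772560)) (c (c (l 16772752) (l 16772672)) (l 16772536))))) (a (b (a (c (c (l 16772776) (l 16772696)) (l 16772576)) (c (c (l 16772760) (l 16772680)) (l 16772552))) (c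 (c (b (l 16772744) (a (a (c (l 16772768) (l 16772728)) (c (l 16772760) (l 16772720))) (a (c (l 16772752) (l 16772704)) (c (l 16772744) (l 16772696))))) (b (l 16772664) (b (l 16772656) (a (c (l 16772680) (l 16772640)) (c (l 16772656) (l 16772616)))))) (a (a (c (l 16772592) (l 16772512)) (c (l 16772584) (l 16772496))) (a (c (l 16772568) (l 16772488)) (c (l 16772560) (l 16772480)))))) (b (a (c (c (l 16772744) (l 16772656)) (l 16772528)) (c (c (l 16772728) (l 16772640)) (l 16772512))) (c (c (b (l 16772712) (a (a (c (l 16772736) (l 16772688)) (c (l 16772728) (l 16772680))) (a (c (l 16772720) (l 16772672)) (c (l 16772712) (l 16772672))))) (b (l 16772632) (b (l 16772616) (a (c (l 16772640) (l 16772600)) (a (l 16772608) (l 16772600)))))) (a (a (c (l 16772552) (l 16772464)) (c (l 16772544) (l 16772456))) (a (c (l 16772528) (l 16772448)) (c (l 16772520) (l 16772432)))))))), by decide +kernel⟩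

def k55_A00pm_012_s1 : ∃ t, chk3 f_A00pm_012_s1 t 527 4095 1 = true :=
  ⟨(b (b (a (a (c (c (l 16772768) (l 16772680)) (l 16772544)) (c (c (l 16772752) (l 16772664)) (l 16772528))) (a (c (c (l 16772744) (l 16772648)) (l 16772512)) (c (c (l 16772736) (l 16772640)) (l 16772496)))) (a (a (c (c (l 16772744) (l 16772656)) (l 16772520)) (c (c (l 16772728) (l 16772640)) (l 16772504))) (a (c (c (l 16772720) (l 16772624)) (l 16772488)) (c (c (l 16772704) (l 16772608)) (l 16772472))))) (a (b (a (c (c (l 16772712) (l 16772624)) (l 16772488)) (c (c (l 16772704) (l 16772608)) (l 16772472))) (b (c (a (l 16772648) (l 16772632)) (l 16772464)) (b (c (c (l 16772680) (l 16772584)) (l 16772448)) (c (a (a (c (c (l 16772704) (l 16772656)) (l 16772592)) (c (c (l 16772696) (l 16772648)) (l 16772584))) (a (a (c (l 16772672) (l 16772576)) (a (c (l 16772664) (l 16772576)) (a (l 16772624) (l 16772616)))) (c (l 16772664) (l 16772568)))) (a (c (c (l 16772520) (l 16772472)) (l 16772408)) (a (a (l 16772440) (a (l 16772440) (c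 (l 16772480) (l 16772392)))) (l 16772432))))))) (b (a (c (c (l 16772688) (l 16772600)) (l 16772456)) (c (a (l 16772632) (l 16772632)) (l 16772440))) (b (c (a (l 16772624) (a (l 16772616) (l 16772608))) (l 16772432)) (a (c (c (c (l 16772680) (l 16772632)) (l 16772560)) (l 16772424)) (c (c (a (l 16772648) (l 16772648)) (l 16772552)) (l 16772408))))))), by decide +kernel⟩

def k56_A00pm_012_s1 : ∃ t, chk3 f_A00pm_012_s1 t 66 62 1 = true :=
  ⟨(a (b (l 3) (b (a (l 3) (b (l 3) (a (l 536617855) (l 536405375)))) (b (a (a (l 3) (b (l 536260479) (l 536232831))) (a (b (l 536313727) (l 536285823)) (l 536619391))) (a (a (b (l 536154751) (l 536125567)) (b (l 536204415) (l 536174975))) (a (b (l 536257151) (l 536227711)) (b (l 536312447) (l 536282751))))))) (b (a (l 3) (b (l 3) (b (l 3) (c (l 578160767) (c (a (l 553843839) (l 556756095)) (l 538783871)))))) (b (c (c (a (b (l 577745023) (l 572275327)) (l 580203903)) (a (b (c (l 564171647) (l 553511695)) (a (c (l 555448959) (l 545308031)) (l 553919103))) (b (l 565713535)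 (a (l 558137983) (l 561464447))))) (a (b (l 536767247) (a (l 536426111) (l 536484991))) (b (a (l 538974591) (l 542288255)) (a (l 536544639) (l 536604799))))) (a (b (a (l 536408447) (l 536467327)) (a (l 536618623) (l 536676991))) (b (c (c (l 572420735) (a (c (l 555698559) (l 545618815)) (l 553365887))) (a (l 536489599) (l 536549503))) (a (l 536467583) (l 536661631))))))), by decide +kernel⟩

def k57_A00pm_012_s1 : ∃ t, chk3 f_A00pm_012_s1 t 134 62 1 = true :=
  ⟨(b (c (b (l 588581503) (c (l 590997887) (l 578043007))) (b (c (l 571726719) (a (l 558268031) (l 562231679))) (c (a (b (l 564956543) (l 560661119)) (l 566987391)) (a (b (l 551989887) (l 546680959)) (b (l 556689023) (l 552206463)))))) (c (b (c (l 585939071) (a (b (l 570673535) (l 565876351)) (l 572894079))) (c (b (l 580326783) (a (l 572571519) (l 578051455))) (b (a (c (l 564536191) (l 554523407)) (l 566044799)) (c (a (b (l 559677567) (l 556019839)) (l 564726911)) (a (b (l 550124671) (l 544675087)) (b (l 557476991) (l 553310079))))))) (a (b (b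 (a (l 545538943) (l 547951743)) (b (l 542782847) (l 539386239))) (b (a (l 536609407) (l 536669055)) (a (l 536818303) (b (l 536627839) (l 536597375))))) (b (c (b (l 560836223) (c (l 559529599) (l 552016255))) (b (l 545869183) (b (l 542390911) (l 539029631)))) (b (a (l 538296703) (b (l 543523967) (l 541124735))) (b (l 536846095) (a (l 536655999) (l 536714367)))))))), by decide +kernel⟩

def k58_A00pm_012_s1 : ∃ t, chk3 f_A00pm_012_s1 t 135 62 1 = true :=
  ⟨(b (c (b (l 591062031) (l 587452687)) (b (a (l 570389775) (c (l 577380735) (l 567999759))) (a (c (l 570369663) (b (l 560662399) (l 556872319))) (a (l 565732991) (l 568552319))))) (b (a (c (l 583195519) (c (b (l 565234559) (l 560479871)) (b (c (l 555630975) (l 549228159)) (a (l 545695103) (l 548120703))))) (c (l 585657471) (c (b (l 568897407) (l 565381247)) (b (l 557061135) (a (l 551377535) (l 553875583)))))) (b (a (c (l 577052287) (a (c (l 553459839) (l 539279487)) (c (l 557383295) (b (l 16776456) (l 541144959))))) (c (l 16836328) (a (b (l 16776192)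 (l 16776840)) (b (l 16799096) (l 16784696))))) (a (b (a (b (l 16776672) (a (l 16781712) (l 16778344))) (b (l 16780344) (l 16778824))) (a (c (l 16802816) (l 537783679)) (b (l 16776808) (a (l 16780840) (l 16778200))))) (a (a (b (l 16780264) (c (l 16916336) (b (l 16786624) (c (l 16789088) (l 16777120))))) (b (l 16777320) (b (l 16780488) (l 16778488)))) (c (l 16852776) (b (b (l 16791064) (l 16777224)) (a (b (l 16780096) (l 16775488)) (l 16780144))))))))), by decide +kernel⟩

def k59_A00pm_012_s1 : ∃ t, chk3 f_A00pm_012_s1 t 264 252 1 = true :=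
  ⟨(a (b (b (l 536363791) (a (l 536055935) (l 536079487))) (b (a (l 536023935) (l 536047487)) (a (l 535991167) (l 536014463)))) (b (b (l 536144767) (l 536113279)) (a (b (l 536071807) (l 536039039)) (b (l 536097151) (l 536064127))))), by decide +kernel⟩

def k60_A00pm_012_s1 : ∃ t, chk3 f_A00pm_012_s1 t 264 253 1 = true :=
  ⟨(a (b (b (a (l 536091775) (l 536114959)) (a (b (l 535933567) (l 535916159)) (b (l 535956863) (l 535939455)))) (b (a (b (l 535898495) (c (l 535913599) (l 535914767))) (b (l 535921423) (a (l 535898751) (l 535910527)))) (a (a (b (l 535858047) (b (a (b (l 16775248) (a (b (l 16775216) (l 16775208)) (l 16775208))) (b (l 16775240) (l 16775192))) (l 16775160))) (b (a (l 535866751) (b (l 16775320) (b (l 16775264) (l 16775240)))) (b (a (b (l 16775208) (l 16775184)) (l 16775176)) (l 16775128)))) (b (a (b (l 16775296) (b (a (l 16775248) (l 16775240)) (a (l 16775208) (l 16775192)))) (a (b (l 16775272) (b (l 16775208) (l 16775184))) (b (b (l 16775272) (l 16775240)) (l 16775184)))) (b (a (l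 16775160) (l 16775128)) (a (l 16775096) (l 16775064))))))) (b (b (a (b (l 536015487) (l 535998335)) (b (l 536040575) (l 536023423))) (b (a (l 535980927) (l 536006015)) (a (l 535963519) (l 535988351)))) (b (b (a (c (l 535978879) (l 535912575)) (a (l 535965311) (l 535977855))) (b (a (l 535933055) (b (l 16775312) (a (l 16775288) (a (l 16775272) (l 16775248))))) (a (a (l 16775296) (a (l 16775280) (b (l 16775272) (c (l 16775312) (l 16775168))))) (a (b (a (l 16775264) (l 16775248)) (l 16775208)) (c (l 16775272) (l 16775128)))))) (b (b (b (a (a (a (l 16775256) (c (l 16775304) (l 16775168))) (l 16775200)) (l 16775176)) (a (a (c (l 16775264) (l 16775128)) (l 16775184)) (l 16775144))) (a (a (l 16775160) (l 16775136)) (a (l 16775112) (l 16775080)))) (b (a (a (l 16775104) (l 16775072)) (a (l 16775048) (l 16775016))) (a (a (l 16775040) (l 16775008)) (l 16774960))))))), by decide +kernel⟩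

def k61_A00pm_012_s1 : ∃ t, chk3 f_A00pm_012_s1 t 265 126 1 = true :=
  ⟨(a (b (b (b (l 536197247) (l 536165759)) (a (b (l 536123007) (l 536089983)) (b (l 536149631) (l 536116607)))) (b (a (b (b (l 536066431) (l 536049023)) (b (l 536031615) (l 536014095))) (b (b (l 536092799) (l 536075391)) (b (l 536057983) (b (l 16775464) (l 536036479))))) (b (b (b (a (l 536001407) (a (l 16775344) (b (l 16775344) (a (l 16775312) (l 16775288))))) (b (a (l 16775328) (a (a (l 16775296) (l 16775280)) (l 16775272))) (a (a (l 16775304) (a (l 16775288) (l 16775264))) (l 16775248)))) (b (a (a (b (a (l 16775280) (l 16775256)) (l 16775232)) (l 16775224)) (a (l 16775208) (l 16775184))) (a (a (l 16775184) (l 16775168)) (a (l 16775144) (l 16775120))))) (b (b (a (a (l 16775120) (l 16775096)) (l 16775064)) (a (a (l 16775056) (l 16775032)) (l 16774992))) (b (a (l 16774976) (l 16774928)) (a (l 16774904) (l 16774856))))))) (b (b (b (l 536252031) (l 536220543)) (b (l 536322063) (a (l 536143487) (l 536171135)))) (b (b (a (a (l 536103807)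 (l 536117375)) (b (l 536147071) (l 536129919))) (b (a (l 536084863) (l 536112255)) (b (a (l 16775424) (a (c (l 16775496) (l 16775336)) (b (l 16775408) (l 16775360)))) (a (a (c (l 16775456) (l 16775304)) (b (l 16775376) (l 16775328))) (a (a (l 16775320) (l 16775328)) (l 16775320)))))) (b (b (b (a (a (a (b (l 16775320) (l 16775288)) (l 16775288)) (l 16775280)) (l 16775256)) (a (a (l 16775232) (l 16775216)) (l 16775192))) (b (a (l 16775160) (l 16775120)) (a (l 16775088) (l 16775048)))) (a (a (b (l 16774992) (l 16774848)) (b (l 16774976) (l 16774824))) (a (b (l 16774952) (l 16774800)) (b (l 16774928) (l 16774776)))))))), by decide +kernel⟩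

def k62_A00pm_012_s1 : ∃ t, chk3 f_A00pm_012_s1 t 266 126 1 = true :=
  ⟨(b (a (b (b (l 536308607) (l 536276863)) (b (l 536243983) (a (l 536199039) (l 536227455)))) (b (b (l 536366463) (l 536334463)) (b (l 536435839) (a (l 536255871) (l 536284799))))) (a (a (b (b (b (l 536174975) (l 536157567)) (b (b (l 16775496) (a (a (l 16775440) (l 16775448)) (a (l 16775432) (l 16775408)))) (b (a (l 16775352) (l 16775352)) (l 16775296)))) (b (b (a (l 16775200) (l 16775184)) (a (l 16775056) (l 16775032))) (b (c (l 16774984) (l 16774808)) (l 16774744)))) (b (b (b (l 536203135) (l 536185727)) (b (b (a (a (l 16775488) (l 16775488)) (c (l 16775544) (l 16775368))) (l 16775392)) (a (l 16775304) (l 16775296)))) (b (b (c (l 16775248) (l 16775064)) (a (l 16775016) (l 16775000))) (b (l 16774856) (l 16774696))))) (a (b (b (b (l 16775672) (b (l 16775592) (a (l 16775536) (l 16775504)))) (a (b (l 16775424) (l 16775280)) (b (l 16775416) (l 16775272)))) (b (b (l 16775128) (l 16774976)) (b (l 16774816) (l 16774648)))) (b (b (a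 (b (l 16775664) (b (l 16775584) (l 16775512))) (b (l 16775680) (l 16775512))) (b (l 16775400) (l 16775248))) (b (b (l 16775096) (l 16774936)) (b (l 16774776) (l 16774608))))))), by decide +kernel⟩

def k63_A00pm_012_s1 : ∃ t, chk3 f_A00pm_012_s1 t 267 126 1 = true :=
  ⟨(b (b (a (b (l 536425343) (l 536393087)) (b (l 536484479) (l 536451967))) (b (a (l 536360063) (a (l 536406143) (l 536435583))) (a (a (l 536313727) (a (l 536336511) (b (l 16775896) (l 16775816)))) (a (b (l 16775904) (b (l 16775848) (l 16775744))) (b (b (l 16775952) (l 16775920)) (a (l 16775776) (l 16775800))))))) (b (b (a (a (b (b (l 16775720) (a (l 16775640) (l 16775616))) (l 16775528)) (b (a (l 16775640) (l 16775648)) (l 16775512))) (a (b (l 16775656) (l 16775504)) (b (l 16775648) (l 16775488)))) (a (a (b (l 16775376) (l 16775224)) (b (l 16775360) (l 16775200))) (b (c (l 16775440) (l 16775224)) (c (l 16775280) (l 16775056))))) (b (a (a (b (l 16775064) (l 16774904)) (b (l 16775040) (l 16774872))) (b (c (l 16775112) (l 16774888)) (c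 (l 16774936) (l 16774712)))) (a (a (b (l 16774736) (l 16774560)) (b (l 16774696) (l 16774520))) (a (b (l 16774664) (l 16774472)) (b (l 16774624) (l 16774432))))))), by decide +kernel⟩

def k64_A00pm_012_s1 : ∃ t, chk3 f_A00pm_012_s1 t 134 252 1 = true :=
  ⟨(a (b (a (b (l 536543615) (l 536510991)) (a (b (l 537532031) (l 536557183)) (b (c (l 16776664) (l 536582015)) (l 536586623)))) (a (a (b (l 536464767) (b (c (l 16776320) (b (l 16775896) (l 16775784))) (l 16775800))) (b (b (l 16776184) (a (l 16776104) (b (l 16776120) (l 16776064)))) (b (l 16775936) (l 16775800)))) (a (b (b (l 16776224) (b (a (l 16776160) (l 16776152)) (l 16776064))) (b (l 16775960) (l 16775800))) (b (b (b (l 16776304) (a (l 16776248) (l 16776232))) (l 16776128)) (b (l 16775968) (l 16775800)))))) (b (b (c (c (l 16846384) (c (l 559909759) (a (l 548348543) (l 552375935)))) (a (l 536624255) (l 536682367))) (b (a (c (l 16785168) (l 536600959)) (b (a (l 16779408) (l 16776936)) (a (l 16776352) (a (l 16777208) (l 16776088))))) (a (c (a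 (l 16777440) (a (l 16784120) (l 16788616))) (a (l 16776320) (b (l 16776392) (c (l 16776360) (l 16776240))))) (b (c (l 16790256) (a (l 16776392) (l 16776432))) (c (l 16778256) (l 16776344)))))) (a (a (b (b (a (b (l 16776336) (l 16776256)) (l 16776280)) (l 16776144)) (b (l 16775976) (l 16775800))) (b (b (l 16776320) (l 16776152)) (b (l 16775976) (l 16775800)))) (b (b (c (l 16775640) (a (l 16776208) (l 16776216))) (a (l 16776504) (l 16775216))) (b (a (l 16775984) (l 16776768)) (a (l 16775800) (l 16775808))))))), by decide +kernel⟩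

def k65_A00pm_012_s1 : ∃ t, chk3 f_A00pm_012_s1 t 135 252 1 = true :=
  ⟨(a (a (b (b (b (l 16776192) (b (a (l 16779544) (l 16777088)) (c (l 16800984) (a (l 16776704) (l 16776712))))) (a (c (l 16794160) (b (l 16776552) (l 16776408))) (b (l 16776408) (l 16776088)))) (b (b (c (l 16794848) (l 16776232)) (c (l 16791384) (l 16776048))) (b (l 16775760) (c (l 16782184) (l 16775664))))) (b (c (b (l 16830016) (l 16817440)) (b (b (a (b (l 16783448) (l 16777480)) (c (l 16776944) (l 16776896))) (a (l 16776784) (l 16782392))) (b (l 16776632) (l 16776448)))) (a (b (c (l 16808064) (l 16776160)) (l 16776080)) (b (c (l 16818048) (l 16776168)) (c (l 16811376) (l 16775768)))))) (c (b (a (a (l 16832528) (l 16841776)) (l 16855720)) (a (b (l 16833088) (l 16827424)) (b (l 16853232) (l 16848840)))) (b (b (a (b (l 16779568) (l 16778480)) (c (l 16802944) (l 16776584))) (b (a (l 16776656) (l 16783016)) (a (l 16776688) (l 16775872)))) (b (a (b (l 16776280) (l 16776080)) (c (l 16775600) (l 16776120))) (a (b (l 16775872) (l 16775656))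 (l 16775768)))))), by decide +kernel⟩

def k66_A00pm_012_s1 : ∃ t, chk3 f_A00pm_012_s1 t 67 253 1 = true :=
  ⟨(a (b (a (b (b (b (a (l 16775680) (l 16775672)) (a (l 16775600) (l 16775584))) (b (a (l 16775512) (l 16775496)) (a (l 16775432) (l 16775408)))) (a (a (b (l 16775312) (l 16775136)) (b (l 16775296) (l 16775120))) (c (b (l 16775400) (l 16775216)) (b (l 16775152) (l 16774968))))) (b (a (a (b (l 16775624) (l 16775440)) (b (l 16775616) (l 16775432))) (c (b (l 16774992) (l 16777768)) (b (l 16775480) (l 16775280)))) (b (a (a (l 16775256) (l 16775240)) (l 16775224)) (a (a (l 16775064) (l 16775048)) (l 16775016))))) (a (b (a (c (b (l 16775064) (l 16774880)) (b (l 16774832) (l 16774640))) (c (b (l 16775024) (l 16774832)) (b (l 16774768) (l 16774576)))) (a (b (c (l 16774696) (l 16774448)) (c (l 16774496) (l 16774248))) (c (b (l 16774632) (l 16774432)) (b (l 16774368) (l 16774160))))) (b (b (a (c (l 16774992) (l 16774720)) (l 16774808)) (a (c (l 16774784) (l 16774512)) (l 16774592))) (b (a (c (l 16774576)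 (l 16774296)) (l 16774368)) (a (c (l 16774360) (l 16774080)) (l 16774144)))))) (b (a (a (b (b (l 16775608) (l 16775408)) (b (l 16775200) (l 16774984))) (b (c (l 16775048) (b (l 16775448) (l 16775240))) (b (l 16775176) (l 16774952)))) (a (b (a (c (l 16813240) (l 16775336)) (l 16775152)) (b (l 16775352) (l 16774440))) (b (c (l 16841888) (l 16775312)) (a (c (l 16825872) (l 16774840)) (l 16774512))))) (a (b (b (a (l 16774760) (l 16774720)) (a (l 16774536) (l 16774488))) (b (a (l 16774312) (l 16774248)) (a (l 16774072) (l 16774000)))) (b (a (a (l 16774568) (l 16774544)) (a (c (l 16791176) (l 16774352)) (l 16773360))) (b (a (l 16774184) (l 16774128)) (a (l 16773928) (l 16773864))))))), by decide +kernel⟩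

def k67_A00pm_012_s1 : ∃ t, chk3 f_A00pm_012_s1 t 132 508 1 = true :=
  ⟨(a (b (a (a (b (b (a (l 16775096) (l 16775064)) (a (l 16775040) (l 16775000))) (a (b (l 16774976) (l 16774912)) (a (l 16774912) (l 16774896)))) (b (a (b (l 16775032) (l 16774968)) (b (l 16775000) (l 16774936))) (b (l 16774888) (l 16774816)))) (b (b (a (a (l 16774968) (l 16774944)) (l 16774896)) (a (l 16774888) (l 16774824))) (b (a (l 16774824) (l 16774752)) (a (l 16774752) (l 16774680))))) (b (b (a (a (a (l 16774840) (l 16774808)) (l 16774752)) (a (l 16774680) (l 16774608))) (a (a (l 16774752) (l 16774680)) (a (l 16774608) (l 16774536)))) (b (a (a (l 16774688) (l 16774608)) (a (l 16774536) (l 16774456))) (a (a (l 16774616) (l 16774536)) (a (l 16774456) (l 16774384)))))) (b (a (b (b (a (l 16774840) (l 16774784)) (a (l 16774768) (l 16774704))) (b (a (l 16774696) (l 16774632)) (a (l 16774616) (l 16774552)))) (b (a (a (l 16774704) (l 16774672)) (c (l 16774728) (l 16774544))) (c (a (l 16774624) (l 16774568)) (a (l 16774440) (l 16774376)))))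 (a (b (b (a (l 16774544) (l 16774480)) (a (l 16774464) (l 16774400))) (a (a (l 16774368) (l 16774328)) (a (l 16774296) (l 16774256)))) (a (b (c (l 16774464) (l 16774280)) (c (l 16774304) (l 16774112))) (b (l 16774312) (c (l 16774232) (l 16774040))))))), by decide +kernel⟩

def k68_A00pm_012_s1 : ∃ t, chk3 f_A00pm_012_s1 t 132 509 1 = true :=
  ⟨(a (b (b (b (a (a (l 16774544) (l 16774464)) (a (l 16774384) (l 16774304))) (a (a (l 16774472) (l 16774384)) (a (l 16774304) (l 16774224)))) (b (a (a (l 16774400) (l 16774312)) (a (l 16774224) (l 16774144))) (a (a (l 16774320) (l 16774232)) (a (l 16774144) (l 16774056))))) (a (a (b (b (l 16774240) (l 16774160)) (c (b (l 16774168) (l 16774088)) (b (l 16774000) (l 16773920)))) (b (b (l 16774152) (l 16774072)) (b (l 16773984) (l 16773904)))) (a (b (b (l 16774064) (l 16773976)) (b (l 16773896) (l 16773808))) (b (b (l 16773976) (l 16773888)) (b (l 16773800) (l 16773712)))))) (b (b (a (a (a (l 16774208) (l 16774168)) (a (l 16774128) (l 16774088))) (a (a (l 16774056)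 (l 16774016)) (a (l 16773976) (l 16773944)))) (b (b (a (l 16774040) (l 16773888)) (a (l 16774000) (l 16773840))) (a (a (l 16773976) (l 16773896)) (a (l 16773808) (l 16773728))))) (a (a (b (b (l 16773888) (l 16773800)) (b (l 16773712) (l 16773616))) (b (b (l 16773800) (l 16773712)) (b (l 16773616) (l 16773528)))) (b (b (a (l 16773720) (l 16773640)) (a (l 16773624) (l 16773544))) (a (b (l 16773528) (l 16773432)) (b (l 16773440) (l 16773344))))))), by decide +kernel⟩

def k69_A00pm_012_s1 : ∃ t, chk3 f_A00pm_012_s1 t 133 508 1 = true :=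
  ⟨(a (b (a (a (b (l 16774584) (l 16774416)) (b (l 16774528) (l 16774360))) (a (b (l 16774480) (l 16774304)) (b (l 16774432) (l 16774248)))) (a (a (b (l 16774248) (c (l 16774168) (l 16773968))) (b (l 16774184) (c (l 16774112) (l 16773896)))) (a (b (l 16774120) (c (l 16774048) (l 16773832))) (b (l 16774064) (c (l 16773984) (l 16773760)))))) (b (a (a (b (l 16774384) (l 16774192)) (b (l 16774336) (l 16774144))) (a (b (l 16774288) (l 16774088)) (b (l 16774240) (l 16774040)))) (a (a (b (l 16774008) (c (l 16773928) (l 16773696))) (b (l 16773944) (c (l 16773864) (l 16773624)))) (a (a (b (l 16773904) (l 16773696)) (b (l 16773880) (l 16773672))) (b (l 16773832) (l 16773624)))))), by decide +kernel⟩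

def k70_A00pm_012_s1 : ∃ t, chk3 f_A00pm_012_s1 t 133 509 1 = true :=
  ⟨(b (a (a (a (a (b (l 16773904) (l 16773720)) (b (l 16773872) (l 16773680))) (a (b (l 16773832) (l 16773640)) (b (l 16773800) (l 16773608)))) (a (a (b (l 16773760) (l 16773568)) (b (l 16773728) (l 16773528))) (b (a (l 16773696) (l 16773656)) (b (l 16773520) (l 16773424))))) (a (a (b (a (l 16773624) (l 16773592)) (b (l 16773448) (l 16773344))) (b (a (l 16773552) (l 16773520)) (b (l 16773376) (l 16773272)))) (a (b (a (l 16773488) (l 16773456)) (b (l 16773312) (l 16773200))) (a (b (l 16773424) (l 16773200)) (b (l 16773392) (l 16773168)))))) (a (b (a (a (b (l 16773552) (l 16773456)) (b (l 16773472) (l 16773376))) (a (b (l 16773392) (l 16773288)) (b (l 16773320) (l 16773208)))) (a (a (b (l 16773360) (l 16773256)) (b (l 16773272) (l 16773168))) (a (b (l 16773184) (l 16773080)) (b (l 16773104) (c (l 16773112) (l 16772872)))))) (a (a (b (b (l 16773240) (l 16773128)) (b (l 16773024) (c (l 16773032) (l 16772784)))) (b (b (l 16773160)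 (l 16773048)) (b (c (l 16773064) (l 16772808)) (c (l 16772952) (l 16772696))))) (a (b (b (l 16773088) (c (l 16773104) (l 16772840))) (b (c (l 16772984) (l 16772728)) (c (l 16772872) (l 16772608)))) (b (b (l 16773008) (l 16772896)) (b (l 16772776) (l 16772656))))))), by decide +kernel⟩

def k71_A00pm_012_s1 : ∃ t, chk3 f_A00pm_012_s1 t 132 1020 1 = true :=
  ⟨(a (a (a (a (b (b (l 16773944) (l 16773856)) (b (l 16773776) (l 16773688))) (b (b (l 16773896) (l 16773808)) (b (l 16773720) (l 16773632)))) (a (b (b (l 16773840) (l 16773760)) (b (l 16773672) (l 16773576))) (b (b (l 16773792) (l 16773704)) (b (l 16773616) (l 16773528))))) (a (b (c (b (l 16773808) (l 16773720)) (b (l 16773632) (l 16773536))) (a (b (l 16773568) (l 16773472)) (b (l 16773512) (l 16773416)))) (b (b (l 16773624) (a (l 16773552) (l 16773504))) (a (b (l 16773464) (l 16773368)) (b (l 16773408) (l 16773312)))))) (a (a (b (b (l 16773528) (a (l 16773456) (l 16773408))) (c (b (l 16773432) (l 16773336)) (b (l 16773240) (l 16773136)))) (b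 (b (l 16773432) (a (l 16773360) (l 16773312))) (c (b (l 16773336) (l 16773240)) (b (l 16773136) (l 16773032))))) (a (b (b (l 16773336) (a (l 16773264) (l 16773216))) (c (b (l 16773240) (l 16773144)) (b (l 16773032) (l 16772928)))) (b (b (l 16773248) (a (l 16773168) (l 16773120))) (c (b (l 16773152) (l 16773048)) (b (l 16772928) (l 16772824))))))), by decide +kernel⟩

def k72_A00pm_012_s1 : ∃ t, chk3 f_A00pm_012_s1 t 132 1021 1 = true :=
  ⟨(a (b (a (a (a (a (b (l 16773608) (l 16773520)) (b (l 16773584) (l 16773496))) (b (l 16773544) (a (l 16773464) (l 16773440)))) (b (a (l 16773488) (l 16773432)) (b (l 16773392) (c (l 16773432) (l 16773248))))) (a (a (b (l 16773376) (l 16773280)) (b (l 16773328) (l 16773232))) (a (b (l 16773272) (l 16773176)) (b (l 16773216) (l 16773120))))) (b (b (a (a (c (l 16773496) (l 16773320)) (c (l 16773392) (l 16773200))) (a (c (l 16773280) (l 16773088)) (l 16773072))) (a (a (c (l 16773448) (l 16773272)) (c (l 16773344) (l 16773152))) (a (c (l 16773232) (l 16773040)) (c (l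 16773120) (l 16772920))))) (b (a (a (a (l 16773344) (l 16773288)) (c (l 16773296) (l 16773104))) (a (c (l 16773184) (l 16772984)) (c (l 16773072) (l 16772872)))) (a (a (a (l 16773296) (l 16773240)) (c (l 16773248) (l 16773056))) (a (c (l 16773128) (l 16772936)) (c (l 16773024) (l 16772816))))))) (b (b (b (a (a (l 16773160) (l 16773056)) (a (l 16772960) (l 16772856))) (a (a (l 16773112) (l 16773008)) (a (l 16772904) (l 16772800)))) (b (a (a (l 16773064) (l 16772960)) (a (l 16772848) (l 16772744))) (a (a (l 16773016) (l 16772904)) (a (l 16772800) (l 16772688))))) (b (b (a (a (l 16772960) (l 16772856)) (a (l 16772744) (l 16772640))) (a (a (l 16772912) (l 16772800)) (a (l 16772688) (l 16772584)))) (b (a (a (c (l 16772960) (l 16772752)) (c (l 16772856) (l 16772640))) (a (c (l 16772744) (l 16772528)) (c (l 16772640) (l 16772416)))) (c (a (a (l 16772912) (l 16772800)) (a (l 16772688) (l 16772584))) (a (a (l 16772704) (l 16772584)) (a (l 16772472) (l 16772352)))))))), by decide +kernel⟩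

def k73_A00pm_012_s1 : ∃ t, chk3 f_A00pm_012_s1 t 133 1020 1 = true :=
  ⟨(a (b (a (a (a (b (l 16773176) (l 16773072)) (b (l 16773128) (l 16773024))) (b (c (l 16773176) (l 16772944)) (c (l 16773072) (l 16772840)))) (c (a (b (l 16773088) (l 16772984)) (b (l 16773008) (l 16772896))) (b (a (l 16772856) (l 16772760)) (a (l 16772744) (l 16772648))))) (b (a (a (a (l 16772968) (l 16772920)) (a (l 16772872) (l 16772824))) (a (c (l 16772872) (l 16772632)) (a (l 16772680) (l 16772632)))) (a (a (a (l 16772856) (l 16772808)) (a (l 16772760) (l 16772712))) (a (a (l 16772664) (l 16772616)) (a (l 16772568) (l 16772520)))))) (a (a (b (b (c (l 16772920) (l 16772672)) (c (l 16772808) (l 16772552))) (b (a (l 16772584) (l 16772544)) (b (l 16772472) (l 16772416)))) (b (b (c (l 16772832) (l 16772584)) (a (l 16772616) (l 16772568))) (b (a (l 16772496) (l 16772448)) (b (l 16772384) (a (l 16772344) (l 16772296)))))) (a (b (b (a (l 16772640) (l 16772600)) (a (l 16772520) (l 16772480))) (c (c (l 22) (b (l 16772448) (l 16772320)))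 (a (b (l 16772272) (l 16772144)) (b (l 16772224) (l 16772096))))) (b (b (c (l 16772672) (l 16772400)) (c (l 16772552) (l 16772280))) (b (c (l 16772424) (l 16772152)) (c (l 16772304) (l 16772024))))))), by decide +kernel⟩

def k74_A00pm_012_s1 : ∃ t, chk3 f_A00pm_012_s1 t 266 1021 1 = true :=
  ⟨(b (a (b (a (a (l 16772752) (l 16772704)) (a (l 16772648) (l 16772600))) (b (a (l 16772640) (l 16772536)) (a (l 16772584) (l 16772480)))) (a (b (a (l 16772552) (l 16772496)) (b (l 16772440) (c (l 16772504) (l 16772256)))) (b (b (l 16772456) (l 16772392)) (a (c (l 16772456) (l 16772208)) (c (l 16772408) (l 16772152)))))) (b (a (b (a (l 16772528) (c (l 16772544) (l 16772304))) (a (c (l 16772592) (l 16772360)) (c (l 16772488) (l 16772248)))) (b (a (c (l 16772440) (l 16772200)) (c (l 16772344) (l 16772088))) (a (c (l 16772384) (l 16772136)) (c (l 16772280) (l 16772032))))) (b (c (a (a (l 16772536) (l 16772432)) (a (l 16772328) (l 16772224))) (a (a (l 16772304) (l 16772192)) (a (l 16772080) (l 16771968)))) (c (a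 (a (l 16772480) (l 16772368)) (a (l 16772264) (l 16772160))) (a (a (l 16772240) (l 16772128)) (a (l 16772016) (l 16771904))))))), by decide +kernel⟩

def k75_A00pm_012_s1 : ∃ t, chk3 f_A00pm_012_s1 t 267 1021 1 = true :=
  ⟨(b (a (c (c (l 22) (b (a (l 16772392) (l 16772296)) (a (c (l 16772304) (l 16772240)) (a (l 16772192) (l 16772144))))) (b (b (a (l 16772232) (l 16772128)) (a (l 16772168) (l 16772064))) (b (a (l 16772104) (l 16772008)) (a (l 16772048) (l 16771944))))) (b (a (a (c (l 16772288) (l 16772024)) (c (l 16772240) (l 16771976))) (b (l 16772064) (l 16772000))) (b (a (c (l 16772168) (l 16771904)) (l 16771936)) (a (c (l 16772112) (l 16771840)) (c (l 16772016) (l 16771736)))))) (b (b (a (a (c (l 16772240) (l 16771984)) (c (l 16772144) (l 16771880))) (a (c (l 16772048) (l 16771776)) (c (l 16771944) (l 16771672)))) (a (a (c (l 16772184) (l 16771920)) (c (l 16772080) (l 16771816))) (a (c (l 16771984) (l 16771712)) (c (l 16771880) (l 16771600))))) (b (a (a (c (l 16772120) (l 16771856)) (c (l 16772016)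 (l 16771752))) (a (c (l 16771912) (l 16771640)) (c (l 16771816) (l 16771536)))) (a (a (c (l 16772056) (l 16771800)) (c (l 16771952) (l 16771688))) (a (c (l 16771848) (a (l 16771608) (l 16771552))) (c (l 16771752) (l 16771472))))))), by decide +kernel⟩

def k76_A00pm_012_s1 : ∃ t, chk3 f_A00pm_012_s1 t 528 1022 1 = true :=
  ⟨(a (b (b (b (a (l 16773248) (l 16773192)) (a (a (l 16773216) (l 16773184)) (l 16773144))) (b (a (c (l 16773248) (l 16773064)) (l 16773088)) (a (c (l 16773192) (l 16773008)) (c (l 16773136) (l 16772952))))) (c (a (b (b (l 16773144) (l 16773096)) (b (l 16773048) (c (l 16773048) (l 16772952)))) (b (b (l 16773088) (l 16773040)) (b (l 16772984) (l 16772936)))) (b (b (a (l 16772960) (l 16772896)) (a (l 16772912) (l 16772848))) (b (a (l 16772864) (l 16772792)) (a (l 16772808) (l 16772744)))))) (b (b (b (c (l 16773192) (l 16773008)) (a (l 16773080) (l 16773024))) (b (a (l 16773032) (l 16772968)) (a (a (l 16773000) (l 16772968)) (a (l 16772936) (l 16772904))))) (c (a (b (b (l 16773024)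 (l 16772976)) (b (l 16772928) (l 16772872))) (b (b (l 16772968) (l 16772920)) (b (l 16772864) (l 16772816)))) (b (b (a (l 16772832) (l 16772776)) (a (l 16772784) (l 16772720))) (b (a (l 16772728) (l 16772664)) (a (l 16772680) (l 16772616))))))), by decide +kernel⟩

def k77_A00pm_012_s1 : ∃ t, chk3 f_A00pm_012_s1 t 529 1022 1 = true :=
  ⟨(b (b (b (a (c (l 16773080) (l 16772888)) (c (l 16772968) (l 16772768))) (a (c (l 16773032) (l 16772832)) (c (l 16772920) (l 16772712)))) (b (a (a (l 16772912) (l 16772856)) (c (l 16772864) (l 16772664))) (a (a (l 16772864) (l 16772800)) (a (l 16772744) (l 16772680))))) (a (c (a (b (b (l 16772904) (l 16772856)) (b (l 16772800) (l 16772752))) (b (b (l 16772848) (l 16772800)) (b (l 16772744) (l 16772688)))) (b (b (a (l 16772712) (l 16772648)) (a (l 16772656) (l 16772592))) (b (a (l 16772608) (l 16772544)) (a (l 16772552) (l 16772488))))) (c (b (b (a (l 16772792) (l 16772728)) (a (l 16772736) (l 16772680))) (a (b (l 16772680) (l 16772632)) (b (l 16772624) (l 16772568))))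 (b (b (c (l 16772608) (l 16772504)) (c (l 16772552) (l 16772448))) (b (c (l 16772496) (l 16772392)) (a (l 16772424) (l 16772360))))))), by decide +kernel⟩

def k78_A00pm_012_s1 : ∃ t, chk3 f_A00pm_012_s1 t 265 1022 1 = true :=
  ⟨(a (a (b (a (b (b (l 16772784) (l 16772728)) (b (l 16772672) (l 16772624))) (b (c (l 16772800) (l 16772592)) (b (l 16772616) (l 16772560)))) (b (b (c (a (l 16772672) (l 16772616)) (a (l 16772464) (l 16772400))) (a (a (l 16772528) (l 16772496)) (a (l 16772464) (l 16772440)))) (b (a (c (l 16772560) (l 16772352)) (c (l 16772504) (l 16772288))) (a (c (l 16772512) (l 16772296)) (c (l 16772448) (l 16772232)))))) (b (a (b (c (l 16772744) (l 16772536)) (b (l 16772560) (l 16772504))) (b (c (l 16772688) (l 16772472)) (b (l 16772504) (l 16772448)))) (b (b (c (c (l 16772584) (l 16772472)) (c (l 16772360) (l 16772256))) (c (a (l 16772504) (l 16772440)) (c (l 16772304) (l 16772200)))) (b (a (a (l 16772352) (l 16772320)) (a (l 16772288) (l 16772256))) (a (c (l 16772392) (l 16772168)) (c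 (l 16772328) (l 16772104))))))) (b (c (b (b (a (l 16772640) (l 16772528)) (a (l 16772584) (l 16772472))) (b (a (l 16772528) (l 16772416)) (a (l 16772472) (l 16772352)))) (b (b (a (l 16772416) (l 16772296)) (a (l 16772360) (l 16772240))) (b (a (l 16772304) (l 16772184)) (a (l 16772248) (l 16772128))))) (b (a (b (a (a (l 16772344) (l 16772312)) (l 16772272)) (c (a (l 16772384) (l 16772328)) (a (l 16772160) (l 16772096)))) (b (c (c (l 16772352) (l 16772240)) (c (l 16772128) (l 16772008))) (c (c (l 16772296) (l 16772184)) (c (l 16772064) (l 16771952))))) (a (b (a (a (l 16772232) (l 16772200)) (a (l 16772168) (l 16772136))) (a (c (l 16772272) (l 16772040)) (c (l 16772208) (l 16771984)))) (b (a (a (l 16772112) (l 16772080)) (a (l 16772048) (l 16772016))) (a (c (l 16772152) (l 16771920)) (c (l 16772096) (l 16771856)))))))), by decide +kernel⟩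

def k79_A00pm_012_s1 : ∃ t, chk3 f_A00pm_012_s1 t 133 2044 1 = true :=
  ⟨(a (a (c (b (b (a (l 16772416) (l 16772312)) (a (l 16772360) (l 16772248))) (b (a (l 16772304) (l 16772192)) (a (l 16772240) (l 16772136)))) (b (b (a (l 16772184) (l 16772072)) (a (l 16772128) (l 16772008))) (b (a (l 16772064) (l 16771952)) (a (l 16772008) (l 16771888))))) (b (b (a (c (l 16772208) (l 16771960)) (c (l 16772096) (l 16771848))) (a (c (l 16772144) (l 16771896)) (c (l 16772040) (l 16771784)))) (b (a (c (l 16772080) (l 16771832)) (c (l 16771976) (l 16771720))) (a (c (l 16772024) (l 16771768)) (a (l 16771808) (l 16771752)))))) (a (c (c (l 22) (b (b (a (l 16771928) (l 16771824)) (a (l 16771864) (l 16771760))) (b (a (l 16771800) (l 16771696)) (a (l 16771736) (l 16771624))))) (b (b (a (l 16771736) (l 16771624)) (a (l 16771672) (l 16771560))) (b (a (l 16771608) (a (l 16771520) (l 16771464))) (c (a (l 16771608) (l 16771488)) (a (l 16771472) (l 16771360)))))) (b (b (a (a (a (l 16771688) (l 16771664)) (l 16771624)) (c (l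 16771680) (l 16771400))) (a (a (a (l 16771624) (l 16771592)) (l 16771552)) (c (l 16771616) (l 16771336)))) (b (a (a (a (l 16771560) (l 16771528)) (l 16771488)) (c (l 16771544) (l 16771264))) (a (a (a (l 16771488) (l 16771464)) (a (l 16771432) (l 16771408))) (c (l 16771480) (l 16771200))))))), by decide +kernel⟩

def k80_A00pm_012_s1 : ∃ t, chk3 f_A00pm_012_s1 t 266 2045 1 = true :=
  ⟨(a (a (c (b (b (a (l 16772216) (l 16772160)) (a (l 16772152) (l 16772096))) (b (a (l 16772096) (l 16772032)) (a (l 16772032) (l 16771976)))) (b (b (a (l 16771976) (l 16771920)) (a (l 16771920) (l 16771856))) (b (a (l 16771856) (l 16771792)) (c (l 16771824) (l 16771704))))) (c (c (l 22) (b (b (l 16772008) (l 16771952)) (b (l 16771888) (a (l 16771856) (l 16771800))))) (b (b (c (l 16771888) (l 16771768)) (c (l 16771824) (l 16771704))) (b (c (l 16771768) (l 16771640)) (c (l 16771704) (l 16771576)))))) (c (c (l 22) (b (b (a (l 16771896) (l 16771784)) (a (l 16771832) (l 16771720))) (a (b (l 16771768) (a (l 16771736) (l 16771680)))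 (a (a (l 16771664) (l 16771640)) (b (l 16771624) (l 16771560)))))) (a (b (b (a (l 16771736) (l 16771680)) (a (l 16771672) (l 16771616))) (b (c (l 16771648) (l 16771520)) (a (l 16771552) (l 16771488)))) (b (b (c (l 16771656) (l 16771528)) (c (l 16771592) (l 16771464))) (b (c (l 16771528) (l 16771400)) (a (l 16771424) (l 16771368))))))), by decide +kernel⟩

def k81_A00pm_012_s1 : ∃ t, chk3 f_A00pm_012_s1 t 267 2045 1 = true :=
  ⟨(a (c (c (l 22) (b (b (a (l 16771672) (l 16771560)) (a (l 16771608) (l 16771496))) (a (a (b (l 16771568) (l 16771504)) (b (l 16771512) (l 16771448))) (c (l 22) (b (l 16771392) (c (l 16771344) (l 16771312))))))) (b (b (c (a (l 16771544) (l 16771424)) (a (l 16771408) (l 16771288))) (a (c (l 16771472) (l 16771344)) (c (l 16771360) (l 16771224)))) (a (b (a (l 16771376) (l 16771312)) (a (l 16771304) (l 16771248))) (b (a (l 16771256) (l 16771192)) (a (l 16771184) (l 16771128)))))) (c (c (l 22) (c (l 22) (b (a (b (l 16771416) (a (l 16771376) (l 16771320))) (b (l 16771304) (l 16771232)))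 (a (a (b (l 16771304) (l 16771240)) (b (l 16771248) (l 16771184))) (b (l 16771168) (l 16771096)))))) (b (b (a (a (l 16771272) (l 16771216)) (l 16771128)) (a (a (l 16771200) (l 16771144)) (c (l 16771128) (l 16770984)))) (a (a (b (l 16771136) (c (l 16771136) (l 16771000))) (b (l 16771072) (l 16771008))) (b (c (l 16771056) (l 16770920)) (c (l 16770992) (l 16770848))))))), by decide +kernel⟩

def k82_A00pm_012_s1 : ∃ t, chk3 f_A00pm_012_s1 t 264 2046 2 = true :=
  ⟨(a (a (a (b (b (c (l 16772992) (l 16772896)) (a (l 16772912) (l 16772880))) (b (a (l 16772864) (l 16772832)) (b (l 16772808) (l 16772776)))) (b (b (c (l 16772936) (l 16772840)) (c (l 16772880) (l 16772784))) (b (a (l 16772800) (l 16772768)) (b (l 16772744) (l 16772712))))) (a (b (b (c (l 16772872) (l 16772776)) (c (l 16772816) (l 16772720))) (b (a (l 16772736) (l 16772704)) (a (l 16772680) (l 16772648)))) (b (b (c (l 16772808) (l 16772712)) (c (l 16772760) (l 16772656))) (b (a (l 16772672) (l 16772640)) (a (l 16772616) (l 16772584)))))) (a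 (b (a (b (l 16772696) (c (l 16772696) (l 16772592))) (b (l 16772640) (c (l 16772632) (l 16772528)))) (a (b (c (l 16772640) (l 16772544)) (a (l 16772552) (l 16772520))) (b (c (l 16772584) (l 16772480)) (a (l 16772488) (l 16772456))))) (b (a (b (l 16772576) (c (l 16772576) (l 16772472))) (b (l 16772512) (c (l 16772512) (l 16772408)))) (a (b (c (l 16772520) (l 16772416)) (a (l 16772424) (l 16772392))) (b (c (l 16772456) (l 16772352)) (a (l 16772360) (l 16772328))))))), by decide +kernel⟩

def k83_A00pm_012_s1 : ∃ t, chk3 f_A00pm_012_s1 t 265 2046 2 = true :=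
  ⟨(a (b (a (a (b (l 16772456) (c (l 16772448) (l 16772344))) (b (l 16772392) (c (l 16772392) (l 16772280)))) (a (b (l 16772336) (c (l 16772328) (l 16772216))) (b (l 16772272) (c (l 16772272) (l 16772160))))) (a (a (b (c (l 16772392) (l 16772288)) (a (l 16772304) (l 16772272))) (b (c (l 16772336) (l 16772224)) (a (l 16772240) (l 16772208)))) (a (b (c (l 16772272) (l 16772160)) (a (l 16772176) (l 16772144))) (b (c (l 16772208) (l 16772096)) (a (l 16772112) (l 16772080)))))) (a (b (a (b (l 16772208) (c (l 16772208) (l 16772096))) (b (l 16772152) (c (l 16772152) (l 16772032)))) (a (b (c (l 16772152) (l 16772040)) (a (l 16772048) (l 16772016))) (b (c (l 16772088) (l 16771976)) (a (l 16771992) (l 16771960))))) (b (a (b (l 16772088) (c (l 16772088) (l 16771976))) (b (l 16772032) (c (l 16772032) (l 16771912)))) (a (b (c (l 16772032) (l 16771912)) (a (l 16771928) (l 16771896))) (b (c (l 16771968) (l 16771848)) (a (l 16771864) (l 16771832))))))), by decide +kernel⟩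

def k84_A00pm_012_s1 : ∃ t, chk3 f_A00pm_012_s1 t 132 2046 3 = true :=
  ⟨(b (b (b (a (a (a (l 16772736) (l 16772608)) (a (l 16772480) (l 16772352))) (a (a (l 16772224) (l 16772096)) (a (l 16771968) (l 16771840)))) (a (a (a (l 16772712) (l 16772584)) (a (l 16772448) (l 16772320))) (a (a (l 16772192) (l 16772064)) (a (l 16771936) (l 16771808))))) (b (a (a (a (l 16772688) (l 16772552)) (a (l 16772424) (l 16772296))) (a (a (l 16772168) (l 16772032)) (a (l 16771912) (l 16771784)))) (a (a (a (l 16772656) (l 16772528)) (a (l 16772400) (l 16772264))) (a (a (l 16772136) (l 16772008)) (a (l 16771880) (l 16771752)))))) (b (a (b (a (a (l 16772632) (l 16772504)) (a (l 16772368) (l 16772240))) (a (a (l 16772608) (l 16772472)) (a (l 16772344) (l 16772208)))) (a (a (a (l 16772128) (l 16772056)) (a (l 16771992) (l 16771928))) (a (a (l 16771864) (l 16771800)) (a (l 16771736) (l 16771672))))) (a (a (a (a (l 16772600) (l 16772536)) (a (l 16772464) (l 16772400))) (a (a (l 16772336) (l 16772264)) (a (l 16772200) (l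 16772136)))) (a (a (a (l 16772064) (l 16772000)) (a (l 16771936) (l 16771872))) (a (a (l 16771808) (l 16771744)) (a (l 16771672) (l 16771608))))))), by decide +kernel⟩

def k85_A00pm_012_s1 : ∃ t, chk3 f_A00pm_012_s1 t 266 2046 1 = true :=
  ⟨(a (c (a (a (b (b (l 16771976) (c (l 16771968) (l 16771848))) (b (c (l 16771912) (l 16771792)) (a (l 16771800) (l 16771776)))) (c (l 22) (b (b (l 16771856) (l 16771792)) (b (l 16771728) (l 16771664))))) (c (l 22) (a (b (b (l 16771792) (l 16771728)) (b (l 16771664) (l 16771600))) (b (b (l 16771736) (l 16771672)) (b (l 16771608) (l 16771544)))))) (a (b (b (a (l 16771736) (l 16771672)) (a (l 16771672) (l 16771608))) (b (a (l 16771608) (l 16771544)) (a (l 16771544) (l 16771480)))) (b (b (a (l 16771608) (l 16771544)) (a (l 16771544) (l 16771480))) (b (a (l 16771480) (l 16771416)) (a (l 16771416) (l 16771352)))))) (c (c (l 22) (b (a (a (b (l 16771672) (l 16771608)) (b (l 16771616) (l 16771552))) (a (b (l 16771552) (l 16771488)) (b (l 16771496) (l 16771432)))) (a (a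 (b (l 16771544) (l 16771480)) (b (l 16771488) (l 16771416))) (a (b (l 16771424) (l 16771360)) (b (l 16771368) (l 16771296)))))) (b (a (b (a (l 16771488) (l 16771424)) (a (l 16771424) (l 16771360))) (b (a (l 16771360) (l 16771304)) (a (l 16771296) (l 16771232)))) (a (b (a (l 16771352) (l 16771296)) (a (l 16771288) (l 16771224))) (b (a (l 16771232) (l 16771168)) (a (l 16771160) (l 16771096))))))), by decide +kernel⟩

def k86_A00pm_012_s1 : ∃ t, chk3 f_A00pm_012_s1 t 267 2046 1 = true :=
  ⟨(a (c (c (l 22) (b (a (a (b (l 16771440) (l 16771368)) (b (l 16771376) (l 16771312))) (a (b (l 16771320) (l 16771256)) (b (l 16771264) (l 16771192)))) (a (a (b (l 16771304) (l 16771240)) (b (l 16771248) (l 16771176))) (a (b (l 16771184) (l 16771112)) (b (l 16771128) (l 16771056)))))) (a (b (b (a (l 16771240) (l 16771176)) (a (l 16771176) (l 16771112))) (b (a (l 16771104) (l 16771040)) (a (l 16771040) (c (l 16771040) (l 16770904))))) (b (b (a (l 16771120) (l 16771056)) (a (l 16771048) (l 16770984))) (a (b (l 16770984)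 (c (l 16770976) (l 16770840))) (b (l 16770920) (c (l 16770920) (l 16770776))))))) (c (c (l 22) (c (l 22) (a (a (b (b (l 16771168) (l 16771104)) (b (l 16771032) (c (l 16770976) (l 16770944)))) (b (b (l 16771112) (l 16771040)) (b (l 16770968) (l 16770904)))) (c (l 22) (b (b (l 16771008) (l 16770936)) (b (a (l 16770896) (l 16770832)) (a (l 16770824) (l 16770760)))))))) (b (a (a (b (c (l 16771064) (l 16770928)) (c (l 16771000) (l 16770856))) (b (l 16770936) (l 16770864))) (b (c (l 16770920) (l 16770776)) (a (l 16770808) (l 16770744)))) (b (a (a (c (l 16770928) (l 16770784)) (l 16770792)) (a (l 16770736) (l 16770672))) (b (a (c (l 16770840) (l 16770704)) (l 16770648)) (a (a (l 16770768) (l 16770704)) (l 16770616))))))), by decide +kernel⟩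

def k87_A00pm_012_s1 : ∃ t, chk3 f_A00pm_012_s1 t 264 4094 1 = true :=
  ⟨(b (a (c (b (a (a (l 16772752) (l 16772688)) (a (l 16772624) (l 16772560))) (a (a (c (l 16772776) (l 16772680)) (l 16772664)) (a (l 16772600) (l 16772536)))) (a (a (l 16772544) (l 16772480)) (a (l 16772408) (l 16772344)))) (b (a (c (a (l 16772496) (l 16772432)) (l 16772256)) (c (a (l 16772368) (l 16772304)) (l 16772120))) (a (c (a (l 16772472) (l 16772408)) (l 16772232)) (c (a (l 16772344) (l 16772280)) (l 16772096))))) (a (c (b (b (a (c (l 16772720) (l 16772624)) (c (l 16772592) (l 16772496))) (a (c (l 16772712) (l 16772616)) (c (l 16772584) (l 16772480)))) (b (a (a (l 16772680) (l 16772616)) (c (l 16772568) (l 16772464))) (a (a (l 16772664) (l 16772600)) (c (l 16772552) (l 16772456))))) (a (a (c (l 16772544) (l 16772448)) (l 16772424)) (a (l 16772360) (l 16772288)))) (c (c (b (b (a (l 16772464) (l 16772344)) (a (l 16772456) (l 16772328))) (b (a (l 16772440) (l 16772312)) (a (l 16772424) (l 16772296)))) (b (a (l 16772360)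 (l 16772224)) (c (a (l 16772352) (l 16772224)) (a (l 16772304) (l 16772168))))) (b (a (l 16772200) (l 16772064)) (a (l 16772176) (l 16772040)))))), by decide +kernel⟩

def k88_A00pm_012_s1 : ∃ t, chk3 f_A00pm_012_s1 t 265 4094 1 = true :=
  ⟨(c (b (a (b (a (a (l 16772240) (l 16772176)) (a (l 16772112) (l 16772056))) (a (a (l 16772216) (l 16772152)) (a (l 16772088) (l 16772024)))) (b (a (a (l 16771992) (l 16771928)) (a (l 16771864) (l 16771800))) (a (a (l 16771960) (l 16771896)) (a (l 16771832) (l 16771776))))) (b (c (a (a (a (l 16772240) (l 16772176)) (a (l 16772112) (l 16772048))) (c (l 22) (a (l 16771928) (l 16771800)))) (a (a (l 16772096) (l 16771968)) (a (l 16771840) (l 16771712)))) (b (c (a (a (l 16772184) (l 16772056)) (a (l 16771936) (l 16771808))) (a (a (l 16772072) (l 16771944)) (a (l 16771816) (l 16771688)))) (c (a (a (l 16772168) (l 16772048)) (a (l 16771920) (l 16771792))) (a (a (l 16772064) (l 16771928)) (a (l 16771800) (l 16771672))))))) (a (a (b (a (l 16772008) (l 16771944)) (a (l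 16771952) (l 16771888))) (b (a (l 16771880) (l 16771808)) (a (l 16771816) (l 16771752)))) (a (b (a (l 16771744) (l 16771680)) (a (l 16771680) (l 16771616))) (b (a (l 16771616) (l 16771552)) (a (l 16771552) (l 16771488)))))), by decide +kernel⟩

def k89_A00pm_012_s1 : ∃ t, chk3 f_A00pm_012_s1 t 133 4094 2 = true :=
  ⟨(a (a (c (a (a (c (l 22) (b (l 16771760) (c (l 22) (l 16771680)))) (l 22)) (l 22)) (a (a (b (l 16771664) (a (l 16771616) (l 16771584))) (b (l 16771600) (a (l 16771552) (l 16771520)))) (a (b (l 16771536) (a (l 16771488) (l 16771456))) (b (l 16771480) (a (l 16771432) (l 16771400)))))) (c (l 22) (b (b (a (l 16771400) (l 16771280)) (c (a (l 16771400) (l 16771280)) (a (l 16771336) (l 16771208)))) (b (c (a (l 16771368) (l 16771240)) (a (l 16771304) (l 16771176))) (c (a (l 16771336) (l 16771208)) (a (l 16771272) (l 16771144))))))) (c (l 22) (a (a (a (a (b (l 16771184) (l 16771120)) (b (l 16771152) (l 16771088))) (c (l 22) (b (l 16771072) (l 16771008)))) (c (l 22) (a (b (l 16771016) (l 16770944))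 (b (l 16770952) (l 16770880))))) (c (l 22) (a (a (a (b (l 16770904) (l 16770832)) (b (l 16770872) (l 16770800))) (b (l 16770832) (l 16770760))) (a (b (l 16770768) (l 16770696)) (b (l 16770704) (l 16770632)))))))), by decide +kernel⟩

def k90_A00pm_012_s1 : ∃ t, chk3 f_A00pm_012_s1 t 133 4094 3 = true :=
  ⟨(a (b (a (a (a (l 16771480) (l 16771416)) (a (l 16771352) (l 16771288))) (a (a (l 16771224) (l 16771160)) (c (a (l 16771160) (l 16771096)) (l 16771000)))) (c (b (a (a (l 16771464) (l 16771336)) (a (l 16771208) (l 16771080))) (a (a (l 16771432) (l 16771304)) (a (l 16771176) (l 16771048)))) (a (a (l 16771328) (l 16771192)) (a (l 16771064) (l 16770928))))) (a (b (c (b (a (l 16771024) (l 16770896)) (a (l 16770984) (l 16770864))) (a (l 16770872) (a (l 16770776) (l 16770712)))) (b (a (c (l 16770952) (l 16770816)) (c (l 16770824) (l 16770688))) (a (c (l 16770920) (l 16770784)) (c (l 16770792) (l 16770656))))) (a (a (b (a (l 16770728) (l 16770696)) (b (l 16770664) (l 16770624))) (b (c (l 16770720) (l 16770584))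 (c (l 16770648) (l 16770512)))) (b (c (a (l 16770664) (l 16770600)) (l 16770488)) (c (a (l 16770592) (l 16770528)) (l 16770416)))))), by decide +kernel⟩

def k91_A00pm_012_s1 : ∃ t, chk3 f_A00pm_012_s1 t 132 8190 1 = true :=
  ⟨(a (a (b (a (a (c (c (l 16772696) (l 16772600)) (l 16772456)) (c (c (l 16772632) (l 16772536)) (l 16772384))) (a (c (c (l 16772568) (l 16772464)) (l 16772312)) (c (c (l 16772504) (l 16772400)) (l 16772248)))) (a (a (c (c (l 16772672) (l 16772576)) (l 16772424)) (c (c (l 16772608) (l 16772504)) (l 16772360))) (a (c (c (l 16772536) (l 16772440)) (l 16772288)) (c (c (l 16772472) (l 16772376)) (l 16772216))))) (b (a (a (c (c (l 16772440) (l 16772336)) (l 16772176)) (c (c (l 16772376) (l 16772264)) (l 16772112))) (a (c (c (l 16772312) (l 16772200)) (l 16772040)) (c (c (l 16772248) (l 16772136)) (l 16771976)))) (a (a (c (c (l 16772408) (l 16772304)) (l 16772152)) (c (c (l 16772344) (l 16772240)) (l 16772080))) (a (c (c (l 16772280) (l 16772176)) (l 16772016)) (c (c (l 16772216)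 (l 16772104)) (l 16771944)))))) (c (b (c (a (a (a (l 16772184) (l 16772120)) (a (l 16772056) (l 16771992))) (a (a (l 16771928) (l 16771864)) (a (l 16771800) (l 16771736)))) (a (c (a (l 16772064) (l 16771936)) (a (l 16772008) (l 16771880))) (c (a (l 16771808) (l 16771680)) (a (l 16771752) (l 16771624))))) (c (a (a (a (l 16772152) (l 16772088)) (a (l 16772024) (l 16771960))) (c (l 22) (a (a (l 16771864) (l 16771808)) (a (l 16771744) (l 16771680))))) (a (c (a (l 16772040) (l 16771904)) (a (l 16771984) (l 16771848))) (c (a (l 16771776) (l 16771648)) (a (l 16771720) (l 16771592)))))) (c (b (a (a (l 16771928) (l 16771792)) (a (l 16771664) (l 16771528))) (a (a (l 16771896) (l 16771768)) (a (l 16771632) (l 16771496)))) (a (a (l 16771800) (l 16771664)) (a (l 16771528) (l 16771392)))))), by decide +kernel⟩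

def k92_A00pm_012_s1 : ∃ t, chk3 f_A00pm_012_s1 t 133 8190 1 = true :=
  ⟨(c (a (c (a (c (l 22) (a (a (a (l 16771648) (l 22)) (l 22)) (l 22))) (l 22)) (b (a (c (a (l 16771552) (l 16771424)) (a (l 16771488) (l 16771360))) (a (a (l 16771304) (l 16771240)) (a (l 16771176) (l 16771112)))) (a (a (a (l 16771520) (l 16771456)) (a (l 16771392) (l 16771328))) (a (a (l 16771264) (l 16771200)) (a (l 16771144) (l 16771080)))))) (c (l 22) (a (a (a (a (l 16771048) (l 16771016)) (c (l 22) (l 16770936))) (c (l 22) (a (l 16770872) (l 16770808)))) (c (l 22) (a (a (a (l 16770760) (l 16770728)) (l 16770688)) (a (l 16770624) (l 16770560))))))) (c (b (a (a (a (l 16771400) (l 16771272)) (a (l 16771136) (l 16771008))) (a (a (l 16770880) (l 16770752)) (a (c (l 16770664) (l 16770592)) (l 16770504)))) (a (a (a (l 16771368) (l 16771240)) (a (l 16771104) (l 16770976))) (a (a (l 16770848) (l 16770720)) (a (a (l 16770624) (l 16770560)) (l 16770464))))) (a (a (a (l 16771264) (l 16771128)) (a (l 16770992) (l 16770864))) (a (c (a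 (l 16770760) (l 16770632)) (a (l 16770696) (l 16770568))) (a (a (l 16770504) (l 16770432)) (l 16770336)))))), by decide +kernel⟩

def k93_A00pm_012_s1 : ∃ t, chk3 f_A00pm_012_s1 t 132 16382 1 = true :=
  ⟨(c (a (c (a (a (a (c (l 16772664) (l 16772616)) (l 16772576)) (a (l 16772512) (c (l 16772472) (l 16772424)))) (c (a (a (l 16772408) (l 16772344)) (a (l 16772280) (l 16772216))) (a (a (l 16772352) (l 16772288)) (a (l 16772224) (l 16772160))))) (a (a (a (l 16772544) (l 16772480)) (a (l 16772408) (l 16772344))) (a (a (l 16772280) (l 16772208)) (a (l 16772144) (l 16772080))))) (c (a (c (a (a (l 16772152) (l 22)) (l 22)) (a (a (l 16772096) (l 16772032)) (a (l 16771968) (l 16771904)))) (c (l 22) (a (a (l 16771840) (l 16771776)) (a (l 16771712) (l 16771648))))) (a (a (a (l 16772016) (l 16771944)) (a (l 16771880) (l 16771816))) (a (a (l 16771752) (l 16771688)) (a (l 16771624) (l 16771552)))))) (a (c (a (a (l 16772416) (l 16772280)) (a (l 16772136) (l 16772008))) (b (a (l 16772248) (l 16771976)) (a (l 16772240)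 (l 16771960)))) (c (a (a (l 16771872) (l 16771736)) (a (l 16771600) (l 16771464))) (a (a (l 16771760) (l 16771624)) (a (l 16771480) (l 16771344)))))), by decide +kernel⟩

def k94_A00pm_012_s1 : ∃ t, chk3 f_A00pm_012_s1 t 132 16383 1 = true :=
  ⟨(a (a (b (a (c (c (a (l 16772624) (l 16772560)) (l 16772488)) (l 16772344)) (c (c (a (l 16772488) (l 16772424)) (l 16772360)) (l 16772208))) (a (a (c (c (a (l 16772624) (l 16772592)) (l 16772512)) (l 16772368)) (c (c (a (l 16772560) (l 16772528)) (l 16772448)) (l 16772296))) (a (c (c (a (l 16772496) (l 16772464)) (l 16772376)) (l 16772224)) (c (c (a (l 16772432) (l 16772392)) (l 16772312)) (l 16772152))))) (a (b (c (c (a (l 16772360) (l 16772296)) (l 16772224)) (l 16772064)) (a (c (c (a (l 16772360) (l 16772328)) (l 16772240)) (l 16772088)) (c (c (a (l 16772296) (l 16772264)) (l 16772176)) (l 16772016)))) (b (c (c (a (l 16772232) (l 16772168)) (l 16772088)) (l 16771928)) (a (c (c (a (l 16772232) (l 16772200)) (l 16772112)) (l 16771952)) (c (c (a (l 16772168)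 (l 16772136)) (l 16772040)) (l 16771880)))))) (c (a (a (b (c (a (l 16772104) (l 16772040)) (l 16771960)) (a (c (a (l 16772104) (l 16772072)) (l 16771976)) (c (c (l 22) (l 16771992)) (l 16771912)))) (b (c (c (l 22) (l 16771912)) (l 16771824)) (c (c (l 22) (a (l 16771928) (l 16771864))) (a (l 16771840) (l 16771776))))) (c (c (l 22) (b (a (l 16771784) (l 16771656)) (a (a (l 16771800) (l 16771736)) (a (l 16771672) (l 16771608))))) (a (b (l 16771696) (a (l 16771712) (l 16771648))) (b (l 16771560) (a (l 16771584) (l 16771512)))))) (a (b (a (l 16771792) (l 16771656)) (a (a (l 16771808) (l 16771744)) (a (l 16771672) (l 16771608)))) (b (a (l 16771520) (l 16771384)) (c (b (l 16771496) (a (l 16771560) (l 16771424))) (a (l 16771448) (l 16771312))))))), by decide +kernel⟩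

def k95_A00pm_012_s1 : ∃ t, chk3 f_A00pm_012_s1 t 133 8191 1 = true :=
  ⟨(c (a (a (a (c (a (a (a (b (l 16771640) (l 16771608)) (l 22)) (l 22)) (l 22)) (a (b (l 16771488) (a (l 16771472) (l 16771440))) (b (l 16771424) (a (l 16771408) (l 16771376))))) (c (l 22) (a (b (l 16771360) (a (l 16771344) (l 16771312))) (b (l 16771296) (a (l 16771280) (l 16771248)))))) (c (l 22) (a (a (b (l 16771232) (a (l 16771216) (l 16771184))) (b (l 16771168) (a (l 16771152) (l 16771120)))) (a (b (l 16771104) (a (l 16771088) (l 16771056))) (b (l 16771040) (a (l 16771024) (l 16770992))))))) (c (l 22) (a (a (a (b (l 16770976) (a (l 16770960) (l 16770928))) (b (l 16770920) (c (l 22) (l 16770848)))) (c (l 22) (b (l 16770784) (a (l 16770784) (l 16770720))))) (c (l 22) (a (a (a (a (a (l 16770704) (l 16770696)) (l 16770680)) (l 16770656)) (a (l 16770632) (l 16770600))) (b (l 16770536) (a (l 16770528) (l 16770472)))))))) (b (a (c (a (a (l 16771336) (l 16771200)) (a (l 16771072) (l 16770944))) (a (a (l 16771216) (l 16771080)) (a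 (l 16770944) (l 16770808)))) (a (a (c (l 16770816) (l 16770680)) (c (l 16770680) (l 16770544))) (a (a (a (l 16770536) (l 16770504)) (l 16770456)) (c (l 16770424) (l 16770280))))) (a (a (c (a (a (l 16771336) (l 16771272)) (a (l 16771200) (l 16771136))) (b (l 16771120) (a (l 16771168) (l 16771040)))) (c (a (a (l 16771072) (l 16771008)) (a (l 16770944) (l 16770872))) (b (l 16770848) (a (l 16770904) (l 16770768))))) (a (c (a (a (l 16770808) (l 16770744)) (a (l 16770680) (l 16770616))) (b (l 16770584) (a (l 16770632) (l 16770504)))) (a (a (a (a (a (l 16770512) (l 16770504)) (l 16770488)) (l 16770464)) (c (l 16770488) (l 16770344))) (c (a (l 16770424) (l 16770360)) (l 16770248))))))), by decide +kernel⟩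

def k96_A00pm_012_s1 : ∃ t, chk3 f_A00pm_012_s1 t 134 254 1 = true :=
  ⟨(a (b (b (a (a (b (l 16774192) (l 16773992)) (b (l 16774152) (l 16773936))) (b (c (l 16774216) (l 16773952)) (c (l 16774000) (l 16773728)))) (a (a (b (l 16773776) (l 16773560)) (b (l 16773720) (l 16773504))) (a (b (l 16773672) (l 16773440)) (b (l 16773616) (l 16773384))))) (b (a (a (b (l 16773336) (c (l 16773248) (l 16772976))) (b (l 16773272) (c (l 22) (l 16772904)))) (a (b (l 16773208) (l 16772968)) (b (l 16773144) (l 16772904)))) (a (b (a (a (l 16772896) (l 16772856)) (a (l 16772824) (l 16772784))) (b (a (l 16772696) (l 16772616)) (a (l 16772576) (l 16772496)))) (c (l 22) (b (a (l 16772584) (l 16772504)) (b (l 16772352) (l 16772224))))))) (a (b (b (b (c (l 16774144) (l 16773856)) (c (l 16773912) (l 16773624))) (b (c (l 16773680) (l 16773392)) (c (l 16773448) (l 16773152)))) (b (a (b (l 16773080) (l 16772832)) (b (l 16773024) (l 16772768))) (b (a (l 16772576) (l 16772504)) (b (l 16772344) (l 16772208))))) (b (b (b (l 16773912)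 (c (l 16773824) (l 16773528))) (b (c (l 16773584) (l 16773280)) (c (l 16773336) (l 16773032)))) (a (b (b (l 16772960) (l 16772696)) (b (l 16772432) (l 16772160))) (b (b (l 16772896) (l 16772632)) (b (l 16772360) (l 16772088))))))), by decide +kernel⟩

def k97_A00pm_012_s1 : ∃ t, chk3 f_A00pm_012_s1 t 135 254 1 = true :=
  ⟨(b (a (b (b (a (l 16773832) (l 16773752)) (a (l 16773584) (l 16773496))) (b (a (l 16773328) (l 16773232)) (a (c (l 16773232) (l 16772912)) (l 16772960)))) (b (b (a (l 16773672) (l 16773592)) (a (l 16773400) (l 16773312))) (b (a (l 16773128) (l 16773032)) (a (l 16772848) (l 16772744))))) (b (b (a (c (a (l 16772968) (l 16772856)) (a (l 16772640) (l 16772512))) (a (l 16772568) (c (l 16772096) (l 16772264)))) (c (l 22) (a (a (l 16772368) (l 16772232)) (a (l 16772096) (l 16771960))))) (c (l 22) (a (b (a (c (l 16772176) (l 16772008)) (l 16771944)) (a (a (l 16771840) (l 16771768)) (a (l 16771688) (l 16771608)))) (b (a (l 16771792) (l 16771648)) (a (l 16771488) (c (l 22) (l 16771240)))))))),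 by decide +kernel⟩

def k98_A00pm_012_s1 : ∃ t, chk3 f_A00pm_012_s1 t 67 510 2 = true :=
  ⟨(c (l 22) (a (a (a (a (b (b (b (l 16772520) (l 16772392)) (b (l 16772272) (l 16772144))) (b (b (l 16772008) (l 16771880)) (b (l 16771744) (l 16771608)))) (l 22)) (l 22)) (l 22)) (l 22))), by decide +kernel⟩

def k99_A00pm_012_s1 : ∃ t, chk3 f_A00pm_012_s1 t 67 510 3 = true :=
  ⟨(a (b (a (b (a (b (a (l 16772312) (l 16772224)) (a (l 16772184) (l 16772096))) (a (a (l 16772096) (l 16772048)) (a (l 16772008) (l 16771960)))) (a (b (a (l 16772056) (l 16771968)) (a (l 16771928) (l 16771832))) (b (a (l 16771872) (l 16771784)) (a (l 16771736) (l 16771648))))) (b (a (b (l 16771920) (l 16771784)) (b (l 16771752) (l 16771608))) (a (b (l 16771648) (c (l 16771584) (l 16771424))) (b (l 16771464) (l 16771320))))) (a (b (a (b (a (l 16771800) (l 16771704)) (a (a (l 16771688) (l 16771640)) (l 16771568))) (b (a (l 16771600) (l 16771504)) (a (l 16771464) (l 16771368)))) (a (b (a (a (l 16771560) (l 16771504)) (l 16771432)) (a (a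 (l 16771424) (l 16771368)) (a (l 16771320) (l 16771264)))) (b (a (l 16771328) (l 16771224)) (a (l 16771184) (l 16771080))))) (b (a (b (a (l 16771408) (l 16771312)) (a (l 16771264) (l 16771168))) (b (c (l 16771256) (l 16771088)) (c (l 16771104) (l 16770944)))) (a (b (a (l 16771120) (l 16771024)) (a (l 16770976) (l 16770872))) (b (a (l 16770920) (l 16770824)) (a (l 16770768) (l 16770664))))))) (a (a (b (b (b (l 16771584) (l 16771440)) (b (l 16771288) (l 16771136))) (b (b (l 16770984) (l 16770832)) (a (b (l 16770720) (l 16770568)) (b (l 16770624) (l 16770464))))) (c (l 22) (b (b (b (l 16771336) (l 16771176)) (b (l 16771024) (l 16770872))) (b (b (l 16770712) (l 16770552)) (b (l 16770392) (l 16770224)))))) (c (l 22) (b (b (a (b (l 16771168) (l 16771008)) (b (l 16771000) (l 16770840))) (a (b (l 16770848) (l 16770688)) (b (l 16770672) (l 16770504)))) (b (a (b (l 16770520) (l 16770360)) (b (l 16770336) (l 16770168))) (a (b (l 16770192) (l 16770024)) (b (l 16770000) (a (l 16769872) (l 16769776))))))))), by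 decide +kernel⟩

def k100_A00pm_012_s1 : ∃ t, chk3 f_A00pm_012_s1 t 134 1022 1 = true :=
  ⟨(a (c (a (a (a (a (b (b (l 16771584) (l 16771448)) (b (l 16771312) (l 16771168))) (l 22)) (l 22)) (l 22)) (l 22)) (b (a (b (b (a (l 16771296) (l 16771184)) (a (l 16771224) (l 16771112))) (b (a (l 16771152) (l 16771040)) (a (l 16771088) (l 16770976)))) (b (a (a (l 16771072) (l 16771016)) (l 16770936)) (a (a (l 16770928) (l 16770872)) (a (l 16770816) (l 16770760))))) (a (b (b (a (l 16771016) (l 16770904)) (a (l 16770944) (l 16770824))) (a (b (l 16770872) (c (l 16770872) (l 16770728))) (b (l 16770752) (l 16770680)))) (a (b (a (l 16770776) (l 16770720)) (b (l 16770640) (l 16770568))) (a (b (l 16770664) (l 16770512)) (b (l 16770608) (l 16770456))))))) (c (l 22) (b (a (b (a (l 16770824) (l 16770720)) (a (l 16770680) (l 16770568))) (b (a (l 16770616) (l 16770512)) (a (l 16770464) (l 16770352)))) (a (a (a (b (l 16770552) (l 16770400)) (b (l 16770496) (l 16770344))) (a (b (l 16770440) (l 16770288)) (b (l 16770384)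 (l 16770232)))) (b (a (a (l 16770328) (l 16770272)) (l 16770192)) (b (c (l 16770208) (l 16770048)) (a (l 16770104) (l 16769992)))))))), by decide +kernel⟩

def k101_A00pm_012_s1 : ∃ t, chk3 f_A00pm_012_s1 t 135 1022 1 = true :=
  ⟨(a (c (l 22) (a (a (b (b (l 16770408) (l 16770248)) (b (l 16770080) (a (l 16769944) (l 16769888)))) (b (b (l 16770304) (l 16770136)) (c (l 22) (b (l 16769888) (l 16769720))))) (c (l 22) (b (b (a (l 16770112) (l 16770008)) (a (l 16769944) (l 16769840))) (b (a (l 16769776) (l 16769672)) (a (l 16769608) (l 16769496))))))) (c (l 22) (c (l 22) (b (a (b (a (l 16769904) (l 16769800)) (a (l 16769736) (l 16769624))) (b (a (l 16769696) (l 16769600)) (a (l 16769520) (l 16769416)))) (a (a (b (l 16769560) (l 16769384)) (b (l 16769456) (l 16769272))) (b (a (l 16769344) (l 16769240)) (a (l 16769168) (l 16769056)))))))), by decide +kernel⟩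

def k102_A00pm_012_s1 : ∃ t, chk3 f_A00pm_012_s1 t 67 1023 2 = true :=
  ⟨(c (l 22) (c (l 22) (c (l 22) (a (a (a (a (a (a (b (b (l 16770896) (b (l 16770792) (l 16770720))) (b (b (l 16770648) (l 16770568)) (b (l 16770496) (l 16770424)))) (l 22)) (l 22)) (l 22)) (l 22)) (l 22)) (l 22))))), by decide +kernel⟩

def k103_A00pm_012_s1 : ∃ t, chk3 f_A00pm_012_s1 t 67 2046 3 = true :=
  ⟨(a (a (a (b (c (a (b (l 16770800) (l 16770728)) (b (l 16770680) (l 16770608))) (a (b (l 16770656) (l 16770584)) (a (l 16770528) (l 16770464)))) (a (b (a (l 16770608) (l 16770552)) (a (l 16770536) (l 16770480))) (b (c (l 16770536) (l 16770384)) (a (l 16770416) (l 16770352))))) (b (a (b (l 16770488) (c (l 16770488) (l 16770336))) (b (l 16770376) (l 16770296))) (a (b (c (l 16770416) (l 16770264)) (a (l 16770296) (l 16770232))) (b (c (l 16770296) (l 16770144)) (c (l 16770216) (l 16770064)))))) (a (b (a (b (l 16770256) (l 16770176)) (b (l 16770136) (l 16770064))) (a (b (c (l 16770176) (l 16770016)) (c (l 16770096) (l 16769944)))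 (b (l 16769984) (c (l 16769984) (l 16769816))))) (a (b (b (l 16770024) (l 16769944)) (b (l 16769864) (c (l 16769864) (l 16769696)))) (b (b (l 16769912) (l 16769824)) (b (l 16769744) (c (l 16769744) (l 16769576))))))) (a (b (a (a (a (l 16769784) (l 16769728)) (a (l 16769672) (l 16769608))) (a (a (l 16769552) (l 16769496)) (a (l 16769440) (l 16769384)))) (b (a (a (l 16769632) (l 16769512)) (a (l 16769400) (l 16769280))) (a (a (c (l 16769632) (l 16769456)) (a (l 16769456) (l 16769400))) (c (l 22) (a (l 16769224) (l 16769104)))))) (b (c (l 22) (b (a (l 16769200) (a (l 16769032) (l 16768920))) (a (c (l 16769152) (l 16769064)) (a (l 16768936) (l 16768824))))) (c (l 22) (a (a (a (l 16769056) (l 16769000)) (a (l 16768944) (l 16768888))) (a (a (l 16768832) (l 16768768)) (b (l 16768736) (l 16768640)))))))), by decide +kernel⟩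

def k104_A00pm_012_s1 : ∃ t, chk3 f_A00pm_012_s1 t 134 4094 3 = true :=
  ⟨(b (a (a (a (a (l 16770464) (l 16770400)) (a (l 16770336) (l 16770280))) (a (a (l 16770216) (l 16770152)) (a (l 16770096) (l 16770032)))) (a (a (a (l 16769968) (l 16769912)) (a (l 16769848) (l 16769792))) (a (a (l 16769728) (l 16769672)) (c (l 16769664) (l 16769496))))) (c (a (b (a (a (l 16770448) (l 16770328)) (a (l 16770208) (l 16770080))) (a (a (l 16770416) (l 16770288)) (a (l 16770168) (l 16770040)))) (a (a (a (l 16769968) (l 16769912)) (a (l 16769848) (l 16769792))) (c (l 22) (a (l 16769656) (l 16769536))))) (a (a (a (l 16770288) (l 16770160)) (a (l 16770032) (l 16769904))) (a (a (l 16769784) (l 16769656)) (a (l 16769536) (l 16769408)))))), by decide +kernel⟩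

def k105_A00pm_012_s1 : ∃ t, chk3 f_A00pm_012_s1 t 134 4095 3 = true :=
  ⟨(b (c (a (b (a (a (l 16770376) (l 16770248)) (a (l 16770128) (l 16770000))) (a (a (l 16770336) (l 16770216)) (a (l 16770088) (l 16769960)))) (a (a (a (l 16769888) (l 16769832)) (a (l 16769768) (l 16769704))) (a (a (l 16769648) (l 16769584)) (a (l 16769528) (l 16769464))))) (a (a (a (l 16770208) (l 16770080)) (a (l 16769952) (l 16769824))) (a (c (a (l 16769744) (l 16769616)) (a (l 16769664) (l 16769536))) (c (a (l 16769488) (l 16769368)) (a (l 16769408) (l 16769280)))))) (b (a (c (a (a (l 16770304) (l 16770176)) (a (l 16770048) (l 16769928))) (a (a (l 16770152) (l 16770024)) (a (l 16769896) (l 16769768)))) (a (a (a (l 16769752) (l 16769688)) (c (c (l 22) (l 16769632)) (l 16769512))) (c (c (l 22) (a (l 16769512) (l 16769392))) (a (l 16769384) (l 16769264))))) (a (a (a (c (a (l 16770296) (l 16770232)) (l 16770112)) (c (a (l 16770168) (l 16770104)) (l 16769984))) (a (c (a (l 16770040) (l 16769976)) (l 16769856)) (c (a (l 16769912)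 (l 16769856)) (l 16769728)))) (a (a (c (a (l 16769792) (l 16769728)) (l 16769600)) (c (a (l 16769664) (l 16769608)) (l 16769472))) (c (a (a (l 16769544) (l 16769480)) (a (l 16769416) (l 16769360))) (a (l 16769344) (a (l 16769248) (l 16769184)))))))), by decide +kernel⟩

def k106_A00pm_012_s1 : ∃ t, chk3 f_A00pm_012_s1 t 135 2047 3 = true :=
  ⟨(c (a (a (a (a (a (c (l 22) (b (l 16769504) (b (l 16769376) (l 16769288)))) (l 22)) (l 22)) (l 22)) (l 22)) (l 22)) (a (b (b (a (a (l 16769376) (l 16769256)) (a (l 16769136) (l 16769016))) (a (a (l 16769288) (l 16769168)) (a (l 16769048) (l 16768928)))) (a (a (a (b (l 16769232) (l 16769144)) (b (l 16769168) (l 16769088))) (a (b (l 16769112) (l 16769024)) (b (l 16769048) (a (l 16768976) (l 16768944))))) (b (a (a (l 16768984) (l 16768928)) (a (l 16768864) (l 16768808))) (b (a (l 16768888) (l 16768768)) (a (a (l 16768880) (l 16768816)) (a (l 16768752) (l 16768688))))))) (a (a (b (b (l 16768896) (l 16768808)) (b (a (l 16768744) (l 16768688)) (b (l 16768648) (a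 (l 16768632) (l 16768568))))) (c (l 22) (b (b (l 16768728) (l 16768640)) (b (l 16768544) (a (l 16768488) (l 16768424)))))) (c (l 22) (a (b (b (l 16768616) (l 16768520)) (b (l 16768424) (a (l 16768360) (l 16768304)))) (c (l 22) (b (b (l 16768472) (l 16768376)) (b (l 16768280) (a (l 16768216) (l 16768160)))))))))), by decide +kernel⟩

def k107_A00pm_012_s1 : ∃ t, chk3 f_A00pm_012_s1 t 17 30 1 = true :=
  ⟨(a (b (a (l 3) (b (l 3) (l 586623871))) (b (a (l 587983999) (l 587333503)) (a (a (l 586482703) (l 587188863)) (l 587513215)))) (b (a (a (a (l 585100303) (l 584636431)) (l 583953423)) (l 582518655)) (a (a (l 586845199) (b (l 585474687) (l 16953600))) (b (l 584171903) (a (l 17081848) (l 17124624)))))), by decide +kernel⟩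

def k108_A00pm_012_s1 : ∃ t, chk3 f_A00pm_012_s1 t 17 62 1 = true :=
  ⟨(b (a (b (a (c (l 593004047) (a (c (l 579746175) (l 571255055)) (l 578165631))) (l 585310591)) (a (a (c (l 590973967) (a (l 570551055) (l 572819839))) (a (l 583371535) (l 16950088))) (a (a (l 16976784) (l 17003368)) (l 17042952)))) (a (b (l 16993472) (l 17119864)) (l 17192536))) (a (a (a (b (c (l 588488975) (a (c (l 570569087) (b (l 560974975) (l 557253135))) (b (l 16842448) (l 565779983)))) (b (b (a (a (l 16813680) (l 16828336)) (a (l 16843208) (l 16858232))) (a (a (l 16794016) (a (l 16826376) (l 16834040))) (a (a (l 16841744) (l 16849488)) (l 16861160)))) (a (c (l 16878552) (b (a (b (l 16784272) (c (l 16871384) (l 16785592))) (a (l 16814848) (l 16780376))) (a (c (l 16867992) (l 16778200)) (l 16791536)))) (c (l 16997016) (a (b (l 16791688) (l 16786472)) (b (l 16806992) (l 16802592))))))) (b (b (a (l 16861744) (l 16973568)) (a (a (l 16866512) (l 16881080)) (l 16903032))) (a (c (l 17024824) (b (a (l 16867040) (l 16923624)) (b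 (l 16830256) (l 16827040)))) (b (l 16913840) (l 16879376))))) (a (b (b (l 16931680) (l 16946864)) (a (a (l 16899960) (l 16957696)) (l 16981200))) (b (l 17079744) (l 16943392)))) (a (b (l 17160832) (l 17114824)) (l 17282656)))), by decide +kernel⟩

def k109_A00pm_012_s1 : ∃ t, chk3 f_A00pm_012_s1 t 17 252 1 = true :=
  ⟨(a (b (a (a (c (a (l 16883752) (l 17005008)) (a (b (a (c (l 16861696) (l 16776688)) (c (l 16878752) (l 16782440))) (a (l 16776120) (a (l 16789472) (l 16798440)))) (a (b (l 16779336) (l 16780520)) (b (l 16796400) (l 16788192))))) (c (l 17060344) (b (a (a (l 16813576) (l 16830816)) (l 16856680)) (a (a (l 16806408) (l 16824632)) (l 16851904))))) (a (a (l 16876056) (l 16994648)) (l 17045128))) (a (c (a (a (a (l 16872080) (l 16892768)) (l 16923552)) (l 16983816)) (a (a (b (a (c (l 16800128) (l 16776128)) (l 16775680)) (a (l 16775640) (l 16775464))) (b (a (c (l 16881024) (l 16777176)) (l 16777720)) (a (l 16775336) (l 16775200)))) (b (a (a (l 16797128) (l 16816488)) (l 16845352)) (a (a (l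 16785480) (l 16806136)) (a (l 16826640) (l 16846952)))))) (a (a (a (c (l 17116168) (l 16870720)) (l 16886720)) (l 16914872)) (l 16969256)))) (a (a (l 17115648) (l 17261240)) (l 17345792))), by decide +kernel⟩

def k110_A00pm_012_s1 : ∃ t, chk3 f_A00pm_012_s1 t 17 253 1 = true :=
  ⟨(a (a (b (b (c (a (a (c (l 17005760) (l 16840608)) (l 16920744)) (l 16985696)) (a (a (a (l 16775296) (c (l 16781128) (l 16775184))) (b (a (l 16783496) (l 16795056)) (l 16774920))) (a (b (l 16775440) (a (l 16788136) (l 16789696))) (a (l 16815216) (l 16836848))))) (c (a (a (a (l 16856440) (l 16880592)) (l 16916192)) (l 16984864)) (a (a (a (l 16774800) (l 16774760)) (a (l 16773608) (c (l 16779336) (l 16774592)))) (a (a (l 16774904) (a (l 16792792) (l 16783648))) (a (l 16780256) (l 16824360)))))) (b (c (a (a (a (c (l 16983672) (l 16790488)) (l 16871072)) (l 16825272)) (l 16898208)) (a (a (a (l 16774280) (l 16774232)) (a (l 16774176) (a (l 16773992) (l 16776680)))) (a (b (a (l 16780760) (l 16785016)) (a (l 16780056) (l 16774848)))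 (a (l 16773872) (l 16777736))))) (a (a (b (c (a (l 16834376) (l 16861848)) (a (l 16773880) (l 16773816))) (a (l 16772312) (c (l 16854600) (l 16773528)))) (c (a (l 16801896) (l 16912632)) (a (b (l 16773744) (l 16773456)) (l 16773528)))) (a (c (l 16951784) (a (b (l 16778376) (l 16775680)) (l 16773632))) (c (l 17085752) (b (l 16772328) (l 16772424))))))) (a (a (c (l 17050368) (b (b (l 16868768) (l 16774480)) (b (c (l 16980688) (l 16773344)) (a (l 16775272) (l 16800864))))) (c (l 17176344) (b (a (l 16896000) (l 16916984)) (c (l 17022416) (b (l 16842072) (l 16826408)))))) (c (l 17236040) (a (b (l 16947768) (a (l 16921456) (l 16944080))) (b (l 17071384) (l 16977056)))))) (a (a (a (l 17031664) (l 17152288)) (l 17204376)) (l 17382424))), by decide +kernel⟩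

def k111_A00pm_012_s1 : ∃ t, chk3 f_A00pm_012_s1 t 34 254 1 = true :=
  ⟨(a (a (a (b (b (b (a (l 16773512) (l 16772912)) (a (l 16773224) (a (l 16771160) (l 16771576)))) (b (a (l 16772936) (a (l 16772864) (l 16771752))) (a (l 16772632) (l 16772528)))) (b (b (a (l 16772328) (l 16772216)) (c (l 22) (a (l 16771824) (l 22)))) (a (a (b (l 16771736) (l 16771416)) (l 22)) (l 22)))) (b (a (a (b (l 16773472) (b (l 16772736) (l 16772360))) (b (l 16773144) (c (l 16777640) (l 16772352)))) (c (b (l 16816672) (a (l 16793320) (l 16808768))) (b (b (l 16773072) (l 16772752)) (b (l 16772432) (l 16772112))))) (b (b (a (l 16771816) (b (l 16772200) (l 22))) (l 22)) (l 22)))) (b (b (c (a (l 16858688) (l 16996024)) (a (b (a (l 16772984) (l 16775464)) (c (l 16772120) (l 16772504))) (b (l 16771632) (a (l 16775992) (l 16784568))))) (c (a (a (l 16831504) (l 16944928)) (l 16987584)) (b (a (a (l 16772336) (l 16772408)) (l 16772392)) (a (a (l 16772000) (l 16771888)) (a (l 16773376) (l 16774048)))))) (b (b (a (c (l 16834872) (a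 (l 16771656) (l 16771536))) (c (l 16979336) (a (l 16772968) (l 16775064)))) (l 22)) (l 22)))) (b (c (a (c (l 17213264) (l 16967416)) (l 17246344)) (b (a (a (a (a (l 16780296) (l 16783744)) (b (l 16829952) (l 16820416))) (a (l 16810160) (l 16878232))) (a (l 16916168) (l 16964480))) (a (a (a (b (l 16780928) (l 16779024)) (b (l 16789088) (l 16777848))) (a (l 16770488) (l 16777552))) (a (c (l 17045424) (l 16831992)) (l 16953464))))) (c (a (a (a (l 16930656) (l 17043432)) (l 17084960)) (l 17245848)) (b (b (a (a (l 16771024) (l 16769224)) (a (l 16805712) (l 16943656))) (l 22)) (l 22))))), by decide +kernel⟩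

def k112_A00pm_012_s1 : ∃ t, chk3 f_A00pm_012_s1 t 35 254 1 = true :=
  ⟨(a (c (l 17289856) (a (b (l 16945224) (a (a (l 16888856) (l 16998608)) (l 17035920))) (a (l 17089128) (l 17215200)))) (l 17159648)), by decide +kernel⟩

def k113_A00pm_012_s1 : ∃ t, chk3 f_A00pm_012_s1 t 17 255 1 = true :=
  ⟨(a (c (a (l 22) (a (c (b (l 17113312) (l 22)) (l 22)) (b (l 17069800) (c (l 17302064) (l 22))))) (c (l 22) (c (l 22) (a (a (a (a (a (a (c (l 22) (b (b (b (l 16770744) (l 16770408)) (b (l 16770064) (l 16769712))) (b (b (l 16769360) (b (l 16769088) (l 16768904))) (b (b (l 16768712) (l 16768528)) (b (l 16768336) (b (l 16768192) (l 16768096))))))) (l 22)) (l 22)) (l 22)) (l 22)) (l 22)) (l 22))))) (a (c (a (b (l 17339888) (l 17335360)) (l 17431984)) (a (c (b (l 17052296) (l 22)) (l 22)) (b (l 17006752) (c (l 17222016) (l 22))))) (a (a (l 17114728) (l 17324312)) (l 17382008)))), by decide +kernel⟩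

def k114_A00pm_012_s1 : ∃ t, chk3 f_A00pm_012_s1 t 9 7 1 = true :=
  ⟨(b (a (a (b (a (l 3) (l 572467215)) (c (c (l 578775311) (l 577233423)) (b (l 573907727) (l 575518991)))) (b (a (l 570759551) (b (l 569013263) (l 569300095))) (a (l 573309199) (b (l 570430335) (l 17060696))))) (a (b (a (b (l 566238335) (l 567136383)) (b (l 563578495) (l 16977992))) (b (a (l 17013976) (l 17056440)) (a (l 17109912) (l 17155176)))) (b (b (l 17003256) (l 17028536)) (b (l 17028208) (l 17217400))))) (b (b (a (a (a (l 580412431) (b (l 17028712) (l 17096712))) (a (l 17042024) (l 17183800))) (a (l 17261160) (l 17345544))) (a (a (a (b (a (l 17081456) (l 17119728)) (l 17185496)) (l 17131712)) (l 17227824)) (l 17458952))) (a (a (b (b (l 17316080) (l 17413664)) (b (a (l 17467272) (l 17553360)) (a (a (l 17520344) (l 17577408)) (l 17651504)))) (b (l 17498936) (a (l 17679304) (l 17742104)))) (b (l 17640464) (l 17851576))))), by decide +kernel⟩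

def k115_A00pm_012_s1 : ∃ t, chk3 f_A00pm_012_s1 t 5 3 1 = true :=
  ⟨(b (a (a (b (a (a (b (a (l 562900863) (l 564383359)) (a (l 559623039) (l 561335423))) (b (l 566332943) (b (l 563353871) (l 16952712)))) (a (b (a (b (l 569188991) (l 16965856)) (a (l 16932648) (l 16985608))) (b (l 17004864) (l 17029104))) (b (a (l 16996424) (a (l 16997840) (l 16912552))) (a (l 16958472) (a (l 16961480) (l 16961968)))))) (a (a (b (a (l 557095551) (l 16970952)) (l 17011704)) (b (l 17012120) (l 16973664))) (a (b (l 17061704) (l 17011376)) (a (l 17186448) (a (l 17191584) (l 17110248)))))) (b (b (l 16977088) (l 17047496)) (l 17297800))) (b (l 17306008) (l 17545568))) (b (a (b (a (a (a (l 17032808) (l 17060064)) (a (l 17087224) (l 17113864))) (l 17164592)) (a (a (l 17398632) (l 17203008)) (l 17342400))) (l 17808592)) (a (b (b (l 17643328) (l 17776760)) (b (l 17849008) (l 18036544))) (b (l 17571216) (a (l 17841336) (l 17785440)))))), by decide +kernel⟩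

def k116_A00pm_012_s1 : ∃ t, chk3 f_A00pm_012_s1 t 3 1 1 = true :=
  ⟨(a (b (b (l 2) (b (l 2) (a (l 17279344) (l 2)))) (b (b (a (l 17086208) (l 17217048)) (a (l 17345792) (l 17227904))) (b (a (l 17602088) (l 6)) (a (l 17941360) (l 6))))) (b (l 2) (l 6))), by decide +kernel⟩

theorem t117_A00pm_012_s1 : ∃ t, chk3 f_A00pm_012_s1 t 17 254 1 = true := ex3_a k111_A00pm_012_s1 k112_A00pm_012_s1

theorem t118_A00pm_012_s1 : ∃ t, chk3 f_A00pm_012_s1 t 17 127 1 = true := ex3_b t117_A00pm_012_s1 k113_A00pm_012_s1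

theorem t119_A00pm_012_s1 : ∃ t, chk3 f_A00pm_012_s1 t 17 126 1 = true := ex3_b k109_A00pm_012_s1 k110_A00pm_012_s1

theorem t120_A00pm_012_s1 : ∃ t, chk3 f_A00pm_012_s1 t 17 63 1 = true := ex3_b t119_A00pm_012_s1 t118_A00pm_012_s1

theorem t121_A00pm_012_s1 : ∃ t, chk3 f_A00pm_012_s1 t 17 31 1 = true := ex3_b k108_A00pm_012_s1 t120_A00pm_012_s1

theorem t122_A00pm_012_s1 : ∃ t, chk3 f_A00pm_012_s1 t 17 15 1 = true := ex3_b k107_A00pm_012_s1 t121_A00pm_012_s1

theorem t123_A00pm_012_s1 : ∃ t, chk3 f_A00pm_012_s1 t 134 2047 3 = true := ex3_b k104_A00pm_012_s1 k105_A00pm_012_s1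

theorem t124_A00pm_012_s1 : ∃ t, chk3 f_A00pm_012_s1 t 67 2047 3 = true := ex3_a t123_A00pm_012_s1 k106_A00pm_012_s1

theorem t125_A00pm_012_s1 : ∃ t, chk3 f_A00pm_012_s1 t 67 1023 3 = true := ex3_b k103_A00pm_012_s1 t124_A00pm_012_s1

theorem t126_A00pm_012_s1 : ∃ t, chk3 f_A00pm_012_s1 t 67 1023 1 = true := ex3_c k102_A00pm_012_s1 t125_A00pm_012_s1

theorem t127_A00pm_012_s1 : ∃ t, chk3 f_A00pm_012_s1 t 67 1022 1 = true := ex3_a k100_A00pm_012_s1 k101_A00pm_012_s1

theorem t128_A00pm_012_s1 : ∃ t, chk3 f_A00pm_012_s1 t 67 511 1 = true := ex3_b t127_A00pm_012_s1 t126_A00pm_012_s1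

theorem t129_A00pm_012_s1 : ∃ t, chk3 f_A00pm_012_s1 t 67 510 1 = true := ex3_c k98_A00pm_012_s1 k99_A00pm_012_s1

theorem t130_A00pm_012_s1 : ∃ t, chk3 f_A00pm_012_s1 t 67 255 1 = true := ex3_b t129_A00pm_012_s1 t128_A00pm_012_s1

theorem t131_A00pm_012_s1 : ∃ t, chk3 f_A00pm_012_s1 t 67 254 1 = true := ex3_a k96_A00pm_012_s1 k97_A00pm_012_s1

theorem t132_A00pm_012_s1 : ∃ t, chk3 f_A00pm_012_s1 t 67 127 1 = true := ex3_b t131_A00pm_012_s1 t130_A00pm_012_s1

theorem t133_A00pm_012_s1 : ∃ t, chk3 f_A00pm_012_s1 t 132 8191 1 = true := ex3_b k93_A00pm_012_s1 k94_A00pm_012_s1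

theorem t134_A00pm_012_s1 : ∃ t, chk3 f_A00pm_012_s1 t 66 8191 1 = true := ex3_a t133_A00pm_012_s1 k95_A00pm_012_s1

theorem t135_A00pm_012_s1 : ∃ t, chk3 f_A00pm_012_s1 t 66 8190 1 = true := ex3_a k91_A00pm_012_s1 k92_A00pm_012_s1

theorem t136_A00pm_012_s1 : ∃ t, chk3 f_A00pm_012_s1 t 66 4095 1 = true := ex3_b t135_A00pm_012_s1 t134_A00pm_012_s1

theorem t137_A00pm_012_s1 : ∃ t, chk3 f_A00pm_012_s1 t 133 4094 1 = true := ex3_c k89_A00pm_012_s1 k90_A00pm_012_s1

theorem t138_A00pm_012_s1 : ∃ t, chk3 f_A00pm_012_s1 t 132 4094 1 = true := ex3_a k87_A00pm_012_s1 k88_A00pm_012_s1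

theorem t139_A00pm_012_s1 : ∃ t, chk3 f_A00pm_012_s1 t 66 4094 1 = true := ex3_a t138_A00pm_012_s1 t137_A00pm_012_s1

theorem t140_A00pm_012_s1 : ∃ t, chk3 f_A00pm_012_s1 t 66 2047 1 = true := ex3_b t139_A00pm_012_s1 t136_A00pm_012_s1

theorem t141_A00pm_012_s1 : ∃ t, chk3 f_A00pm_012_s1 t 133 2046 1 = true := ex3_a k85_A00pm_012_s1 k86_A00pm_012_s1

theorem t142_A00pm_012_s1 : ∃ t, chk3 f_A00pm_012_s1 t 132 2046 2 = true := ex3_a k82_A00pm_012_s1 k83_A00pm_012_s1

theorem t143_A00pm_012_s1 : ∃ t, chk3 f_A00pm_012_s1 t 132 2046 1 = true := ex3_c t142_A00pm_012_s1 k84_A00pm_012_s1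

theorem t144_A00pm_012_s1 : ∃ t, chk3 f_A00pm_012_s1 t 66 2046 1 = true := ex3_a t143_A00pm_012_s1 t141_A00pm_012_s1

theorem t145_A00pm_012_s1 : ∃ t, chk3 f_A00pm_012_s1 t 66 1023 1 = true := ex3_b t144_A00pm_012_s1 t140_A00pm_012_s1

theorem t146_A00pm_012_s1 : ∃ t, chk3 f_A00pm_012_s1 t 133 2045 1 = true := ex3_a k80_A00pm_012_s1 k81_A00pm_012_s1

theorem t147_A00pm_012_s1 : ∃ t, chk3 f_A00pm_012_s1 t 133 1022 1 = true := ex3_b k79_A00pm_012_s1 t146_A00pm_012_s1

theorem t148_A00pm_012_s1 : ∃ t, chk3 f_A00pm_012_s1 t 264 1022 1 = true := ex3_a k76_A00pm_012_s1 k77_A00pm_012_s1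

theorem t149_A00pm_012_s1 : ∃ t, chk3 f_A00pm_012_s1 t 132 1022 1 = true := ex3_a t148_A00pm_012_s1 k78_A00pm_012_s1

theorem t150_A00pm_012_s1 : ∃ t, chk3 f_A00pm_012_s1 t 66 1022 1 = true := ex3_a t149_A00pm_012_s1 t147_A00pm_012_s1

theorem t151_A00pm_012_s1 : ∃ t, chk3 f_A00pm_012_s1 t 66 511 1 = true := ex3_b t150_A00pm_012_s1 t145_A00pm_012_s1

theorem t152_A00pm_012_s1 : ∃ t, chk3 f_A00pm_012_s1 t 133 1021 1 = true := ex3_a k74_A00pm_012_s1 k75_A00pm_012_s1

theorem t153_A00pm_012_s1 : ∃ t, chk3 f_A00pm_012_s1 t 133 510 1 = true := ex3_b k73_A00pm_012_s1 t152_A00pm_012_s1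

theorem t154_A00pm_012_s1 : ∃ t, chk3 f_A00pm_012_s1 t 132 510 1 = true := ex3_b k71_A00pm_012_s1 k72_A00pm_012_s1

theorem t155_A00pm_012_s1 : ∃ t, chk3 f_A00pm_012_s1 t 66 510 1 = true := ex3_a t154_A00pm_012_s1 t153_A00pm_012_s1

theorem t156_A00pm_012_s1 : ∃ t, chk3 f_A00pm_012_s1 t 66 255 1 = true := ex3_b t155_A00pm_012_s1 t151_A00pm_012_s1

theorem t157_A00pm_012_s1 : ∃ t, chk3 f_A00pm_012_s1 t 133 254 1 = true := ex3_b k69_A00pm_012_s1 k70_A00pm_012_s1

theorem t158_A00pm_012_s1 : ∃ t, chk3 f_A00pm_012_s1 t 132 254 1 = true := ex3_b k67_A00pm_012_s1 k68_A00pm_012_s1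

theorem t159_A00pm_012_s1 : ∃ t, chk3 f_A00pm_012_s1 t 66 254 1 = true := ex3_a t158_A00pm_012_s1 t157_A00pm_012_s1

theorem t160_A00pm_012_s1 : ∃ t, chk3 f_A00pm_012_s1 t 66 127 1 = true := ex3_b t159_A00pm_012_s1 t156_A00pm_012_s1

theorem t161_A00pm_012_s1 : ∃ t, chk3 f_A00pm_012_s1 t 33 127 1 = true := ex3_a t160_A00pm_012_s1 t132_A00pm_012_s1

theorem t162_A00pm_012_s1 : ∃ t, chk3 f_A00pm_012_s1 t 67 252 1 = true := ex3_a k64_A00pm_012_s1 k65_A00pm_012_s1

theorem t163_A00pm_012_s1 : ∃ t, chk3 f_A00pm_012_s1 t 67 126 1 = true := ex3_b t162_A00pm_012_s1 k66_A00pm_012_s1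

theorem t164_A00pm_012_s1 : ∃ t, chk3 f_A00pm_012_s1 t 133 126 1 = true := ex3_a k62_A00pm_012_s1 k63_A00pm_012_s1

theorem t165_A00pm_012_s1 : ∃ t, chk3 f_A00pm_012_s1 t 264 126 1 = true := ex3_b k59_A00pm_012_s1 k60_A00pm_012_s1

theorem t166_A00pm_012_s1 : ∃ t, chk3 f_A00pm_012_s1 t 132 126 1 = true := ex3_a t165_A00pm_012_s1 k61_A00pm_012_s1

theorem t167_A00pm_012_s1 : ∃ t, chk3 f_A00pm_012_s1 t 66 126 1 = true := ex3_a t166_A00pm_012_s1 t164_A00pm_012_s1

theorem t168_A00pm_012_s1 : ∃ t, chk3 f_A00pm_012_s1 t 33 126 1 = true := ex3_a t167_A00pm_012_s1 t163_A00pm_012_s1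

theorem t169_A00pm_012_s1 : ∃ t, chk3 f_A00pm_012_s1 t 33 63 1 = true := ex3_b t168_A00pm_012_s1 t161_A00pm_012_s1

theorem t170_A00pm_012_s1 : ∃ t, chk3 f_A00pm_012_s1 t 67 62 1 = true := ex3_a k57_A00pm_012_s1 k58_A00pm_012_s1

theorem t171_A00pm_012_s1 : ∃ t, chk3 f_A00pm_012_s1 t 33 62 1 = true := ex3_a k56_A00pm_012_s1 t170_A00pm_012_s1

theorem t172_A00pm_012_s1 : ∃ t, chk3 f_A00pm_012_s1 t 33 31 1 = true := ex3_b t171_A00pm_012_s1 t169_A00pm_012_s1

theorem t173_A00pm_012_s1 : ∃ t, chk3 f_A00pm_012_s1 t 263 4095 1 = true := ex3_a k54_A00pm_012_s1 k55_A00pm_012_s1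

theorem t174_A00pm_012_s1 : ∃ t, chk3 f_A00pm_012_s1 t 262 4095 1 = true := ex3_a k52_A00pm_012_s1 k53_A00pm_012_s1

theorem t175_A00pm_012_s1 : ∃ t, chk3 f_A00pm_012_s1 t 131 4095 1 = true := ex3_a t174_A00pm_012_s1 t173_A00pm_012_s1

theorem t176_A00pm_012_s1 : ∃ t, chk3 f_A00pm_012_s1 t 131 4094 1 = true := ex3_b k50_A00pm_012_s1 k51_A00pm_012_s1

theorem t177_A00pm_012_s1 : ∃ t, chk3 f_A00pm_012_s1 t 131 2047 1 = true := ex3_b t176_A00pm_012_s1 t175_A00pm_012_s1

theorem t178_A00pm_012_s1 : ∃ t, chk3 f_A00pm_012_s1 t 263 2046 1 = true := ex3_a k48_A00pm_012_s1 k49_A00pm_012_s1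

theorem t179_A00pm_012_s1 : ∃ t, chk3 f_A00pm_012_s1 t 262 2046 1 = true := ex3_a k46_A00pm_012_s1 k47_A00pm_012_s1

theorem t180_A00pm_012_s1 : ∃ t, chk3 f_A00pm_012_s1 t 131 2046 1 = true := ex3_a t179_A00pm_012_s1 t178_A00pm_012_s1

theorem t181_A00pm_012_s1 : ∃ t, chk3 f_A00pm_012_s1 t 131 1023 1 = true := ex3_b t180_A00pm_012_s1 t177_A00pm_012_s1

theorem t182_A00pm_012_s1 : ∃ t, chk3 f_A00pm_012_s1 t 131 1022 3 = true := ex3_a k44_A00pm_012_s1 k45_A00pm_012_s1

theorem t183_A00pm_012_s1 : ∃ t, chk3 f_A00pm_012_s1 t 262 1022 2 = true := ex3_b k41_A00pm_012_s1 k42_A00pm_012_s1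

theorem t184_A00pm_012_s1 : ∃ t, chk3 f_A00pm_012_s1 t 131 1022 2 = true := ex3_a t183_A00pm_012_s1 k43_A00pm_012_s1

theorem t185_A00pm_012_s1 : ∃ t, chk3 f_A00pm_012_s1 t 131 1022 1 = true := ex3_c t184_A00pm_012_s1 t182_A00pm_012_s1

theorem t186_A00pm_012_s1 : ∃ t, chk3 f_A00pm_012_s1 t 131 511 1 = true := ex3_b t185_A00pm_012_s1 t181_A00pm_012_s1

theorem t187_A00pm_012_s1 : ∃ t, chk3 f_A00pm_012_s1 t 263 510 1 = true := ex3_a k39_A00pm_012_s1 k40_A00pm_012_s1

theorem t188_A00pm_012_s1 : ∃ t, chk3 f_A00pm_012_s1 t 262 510 1 = true := ex3_b k37_A00pm_012_s1 k38_A00pm_012_s1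

theorem t189_A00pm_012_s1 : ∃ t, chk3 f_A00pm_012_s1 t 131 510 1 = true := ex3_a t188_A00pm_012_s1 t187_A00pm_012_s1

theorem t190_A00pm_012_s1 : ∃ t, chk3 f_A00pm_012_s1 t 131 255 1 = true := ex3_b t189_A00pm_012_s1 t186_A00pm_012_s1

theorem t191_A00pm_012_s1 : ∃ t, chk3 f_A00pm_012_s1 t 1047 511 1 = true := ex3_a k35_A00pm_012_s1 k36_A00pm_012_s1

theorem t192_A00pm_012_s1 : ∃ t, chk3 f_A00pm_012_s1 t 523 511 1 = true := ex3_a k34_A00pm_012_s1 t191_A00pm_012_s1

theorem t193_A00pm_012_s1 : ∃ t, chk3 f_A00pm_012_s1 t 261 511 1 = true := ex3_a k33_A00pm_012_s1 t192_A00pm_012_s1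

theorem t194_A00pm_012_s1 : ∃ t, chk3 f_A00pm_012_s1 t 130 511 1 = true := ex3_a k32_A00pm_012_s1 t193_A00pm_012_s1

theorem t195_A00pm_012_s1 : ∃ t, chk3 f_A00pm_012_s1 t 261 1021 1 = true := ex3_b k30_A00pm_012_s1 k31_A00pm_012_s1

theorem t196_A00pm_012_s1 : ∃ t, chk3 f_A00pm_012_s1 t 130 1021 1 = true := ex3_a k29_A00pm_012_s1 t195_A00pm_012_s1

theorem t197_A00pm_012_s1 : ∃ t, chk3 f_A00pm_012_s1 t 130 1020 1 = true := ex3_a k27_A00pm_012_s1 k28_A00pm_012_s1

theorem t198_A00pm_012_s1 : ∃ t, chk3 f_A00pm_012_s1 t 130 510 1 = true := ex3_b t197_A00pm_012_s1 t196_A00pm_012_s1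

theorem t199_A00pm_012_s1 : ∃ t, chk3 f_A00pm_012_s1 t 130 255 1 = true := ex3_b t198_A00pm_012_s1 t194_A00pm_012_s1

theorem t200_A00pm_012_s1 : ∃ t, chk3 f_A00pm_012_s1 t 65 255 1 = true := ex3_a t199_A00pm_012_s1 t190_A00pm_012_s1

theorem t201_A00pm_012_s1 : ∃ t, chk3 f_A00pm_012_s1 t 131 509 1 = true := ex3_a k25_A00pm_012_s1 k26_A00pm_012_s1

theorem t202_A00pm_012_s1 : ∃ t, chk3 f_A00pm_012_s1 t 131 508 1 = true := ex3_a k23_A00pm_012_s1 k24_A00pm_012_s1

theorem t203_A00pm_012_s1 : ∃ t, chk3 f_A00pm_012_s1 t 131 254 1 = true := ex3_b t202_A00pm_012_s1 t201_A00pm_012_s1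

theorem t204_A00pm_012_s1 : ∃ t, chk3 f_A00pm_012_s1 t 261 254 1 = true := ex3_a k21_A00pm_012_s1 k22_A00pm_012_s1

theorem t205_A00pm_012_s1 : ∃ t, chk3 f_A00pm_012_s1 t 260 1019 1 = true := ex3_a k19_A00pm_012_s1 k20_A00pm_012_s1

theorem t206_A00pm_012_s1 : ∃ t, chk3 f_A00pm_012_s1 t 260 509 1 = true := ex3_b k18_A00pm_012_s1 t205_A00pm_012_s1

theorem t207_A00pm_012_s1 : ∃ t, chk3 f_A00pm_012_s1 t 260 254 1 = true := ex3_b k17_A00pm_012_s1 t206_A00pm_012_s1

theorem t208_A00pm_012_s1 : ∃ t, chk3 f_A00pm_012_s1 t 130 254 1 = true := ex3_a t207_A00pm_012_s1 t204_A00pm_012_s1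

theorem t209_A00pm_012_s1 : ∃ t, chk3 f_A00pm_012_s1 t 65 254 1 = true := ex3_a t208_A00pm_012_s1 t203_A00pm_012_s1

theorem t210_A00pm_012_s1 : ∃ t, chk3 f_A00pm_012_s1 t 65 127 1 = true := ex3_b t209_A00pm_012_s1 t200_A00pm_012_s1

theorem t211_A00pm_012_s1 : ∃ t, chk3 f_A00pm_012_s1 t 130 253 1 = true := ex3_a k14_A00pm_012_s1 k15_A00pm_012_s1

theorem t212_A00pm_012_s1 : ∃ t, chk3 f_A00pm_012_s1 t 65 253 1 = true := ex3_a t211_A00pm_012_s1 k16_A00pm_012_s1

theorem t213_A00pm_012_s1 : ∃ t, chk3 f_A00pm_012_s1 t 65 126 1 = true := ex3_b k13_A00pm_012_s1 t212_A00pm_012_s1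

theorem t214_A00pm_012_s1 : ∃ t, chk3 f_A00pm_012_s1 t 65 63 1 = true := ex3_b t213_A00pm_012_s1 t210_A00pm_012_s1

theorem t215_A00pm_012_s1 : ∃ t, chk3 f_A00pm_012_s1 t 65 31 1 = true := ex3_b k12_A00pm_012_s1 t214_A00pm_012_s1

theorem t216_A00pm_012_s1 : ∃ t, chk3 f_A00pm_012_s1 t 519 254 1 = true := ex3_b k9_A00pm_012_s1 k10_A00pm_012_s1

theorem t217_A00pm_012_s1 : ∃ t, chk3 f_A00pm_012_s1 t 259 254 1 = true := ex3_a k8_A00pm_012_s1 t216_A00pm_012_s1

theorem t218_A00pm_012_s1 : ∃ t, chk3 f_A00pm_012_s1 t 129 254 1 = true := ex3_a k7_A00pm_012_s1 t217_A00pm_012_s1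

theorem t219_A00pm_012_s1 : ∃ t, chk3 f_A00pm_012_s1 t 64 254 1 = true := ex3_a k6_A00pm_012_s1 t218_A00pm_012_s1

theorem t220_A00pm_012_s1 : ∃ t, chk3 f_A00pm_012_s1 t 64 127 1 = true := ex3_b t219_A00pm_012_s1 k11_A00pm_012_s1

theorem t221_A00pm_012_s1 : ∃ t, chk3 f_A00pm_012_s1 t 64 63 1 = true := ex3_b k5_A00pm_012_s1 t220_A00pm_012_s1

theorem t222_A00pm_012_s1 : ∃ t, chk3 f_A00pm_012_s1 t 64 31 1 = true := ex3_b k4_A00pm_012_s1 t221_A00pm_012_s1

theorem t223_A00pm_012_s1 : ∃ t, chk3 f_A00pm_012_s1 t 32 31 1 = true := ex3_a t222_A00pm_012_s1 t215_A00pm_012_s1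

theorem t224_A00pm_012_s1 : ∃ t, chk3 f_A00pm_012_s1 t 16 31 1 = true := ex3_a t223_A00pm_012_s1 t172_A00pm_012_s1

theorem t225_A00pm_012_s1 : ∃ t, chk3 f_A00pm_012_s1 t 16 15 1 = true := ex3_b k3_A00pm_012_s1 t224_A00pm_012_s1

theorem t226_A00pm_012_s1 : ∃ t, chk3 f_A00pm_012_s1 t 8 15 1 = true := ex3_a t225_A00pm_012_s1 t122_A00pm_012_s1

theorem t227_A00pm_012_s1 : ∃ t, chk3 f_A00pm_012_s1 t 8 7 1 = true := ex3_b k2_A00pm_012_s1 t226_A00pm_012_s1

theorem t228_A00pm_012_s1 : ∃ t, chk3 f_A00pm_012_s1 t 4 7 1 = true := ex3_a t227_A00pm_012_s1 k114_A00pm_012_s1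

theorem t229_A00pm_012_s1 : ∃ t, chk3 f_A00pm_012_s1 t 4 3 1 = true := ex3_b k1_A00pm_012_s1 t228_A00pm_012_s1

theorem t230_A00pm_012_s1 : ∃ t, chk3 f_A00pm_012_s1 t 2 3 1 = true := ex3_a t229_A00pm_012_s1 k115_A00pm_012_s1

theorem t231_A00pm_012_s1 : ∃ t, chk3 f_A00pm_012_s1 t 2 1 1 = true := ex3_b k0_A00pm_012_s1 t230_A00pm_012_s1

theorem t232_A00pm_012_s1 : ∃ t, chk3 f_A00pm_012_s1 t 1 1 1 = true := ex3_a t231_A00pm_012_s1 k116_A00pm_012_s1

theorem c_A00pm_012_s1 : CertF 0 536870912 536870912 536870912 33554432 16777216 true true false .pnp 0 1 2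
    ndF0q0 ndF0q1 pcF2 cut_A00pm_012_s1 xt_A00pm_012_s1 :=
  certFK2 (fam := true) (s1 := true) (s2 := false) (a := 0) (b := 1) (c := 2) (cn := .pnp) (n1 := ndF0q0) (n2 := ndF0q1) (pc := pcF2) (cut := cut_A00pm_012_s1) (xt := xt_A00pm_012_s1) (P1 := 0) (W1 := 536870912) (P2 := 536870912) (W2 := 536870912) (P3 := 33554432) (W3 := 16777216)
    rfl rfl rfl (fun _ => rfl) t232_A00pm_012_s1

theorem s_A00pm_012_s1 {κ x : ℝ} (hκ : κ * h0 = ken x) (hx : ((33554432 : ℕ) : ℝ) / S ≤ x)
    (hx' : x ≤ (((33554432 : ℕ) : ℝ) + (16777216 : ℕ)) / S)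
    (H : CutA (VF κ) PP tKF tL pcF (Cut.of [[⟨0, 0, 0, 12582912⟩, ⟨1, 1, 0, 12582912⟩, ⟨2, 1, 0, 12582912⟩], [⟨0, 0, 1, 16777216⟩, ⟨1, 1, 0, 6291456⟩, ⟨2, 1, 1, 16777216⟩, ⟨0, 0, 0, 67108864⟩, ⟨0, 1, 0, 1056964608⟩, ⟨2, 1, 0, 67108864⟩, ⟨2, 2, 0, 1056964608⟩]]) 0 1 2 0 0 (sgb true) (sgb false) x) :
    AltA (VF κ) PP tKF tL pcF [⟨3, 0, 0, 1449551462⟩] 0 1 2 0 0 (sgb true) (sgb false) x :=
  strip_altA (m := 1449551462) true rfl hκ covF00 covF01 hx hx' c_A00pm_012_s1 H ((okx hx hx').extA (T := tt) (sideF hx hx') hκ rfl rfl (.O 0 true) (.O 1 false) rfl)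

end Pool.Agent.Strip051.G.I1_32_3_64.Tab.St.C
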