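import Pool.Agent.Strip051.PB.StripC
import Pool.Agent.Strip051.G.I1_32_3_64.Fact

/-! # Facts about the strips of a table (generated) -/

set_option linter.all false
set_option maxRecDepth 4000

namespace Pool.Agent.Strip051.G.I1_32_3_64.Tab.St

open Pool.Agent.Strip051.PB Pool.Agent.StripNear Pool.Agent.Strip051.LC
open Pool.Agent.Strip051.G.I1_32_3_64.Tab

noncomputable def sl1 : Fn1 := ⟨_, _, fun h1 => (enc_norm (enc_add (enc_scaleT 175921718190019 1859217500000 (enc_subr 5 128 h1)) (enc_rat _ 210069695032633 4648043750000)))⟩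
noncomputable def sv1 : Fn1 := ⟨_, _, fun h1 => (enc_norm (enc_add (enc_scaleT 173832358624051 7436870000000 (enc_subr 5 128 h1)) (enc_rat _ 743878229162861 74368700000000)))⟩
noncomputable def sw1 : Fn1 := ⟨_, _, fun h1 => (enc_norm (enc_add (enc_scaleT 1914719 20000 (enc_subr 5 128 h1)) (enc_rat _ 51776241 1000000)))⟩
noncomputable def sl2 : Fn1 := ⟨_, _, fun h1 => (enc_norm (enc_sub (enc_rat _ 33588197395942538561 928154890575000000) (enc_scaleT 248855412749977849 43313894893500000 (enc_subr 5 128 h1))))⟩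
noncomputable def sv2 : Fn1 := ⟨_, _, fun h1 => (enc_norm (enc_sub (enc_rat _ 28968621006153020237 3712619562300000000) (enc_scaleT 986074466015057393 866277897870000000 (enc_subr 5 128 h1))))⟩
noncomputable def sw2 : Fn1 := ⟨_, _, fun h1 => (enc_norm (enc_sub (enc_rat _ 10639083 250000) (enc_scaleT 140031 20000 (enc_subr 5 128 h1))))⟩
noncomputable def sl3 : Fn1 := ⟨_, _, fun h1 => (enc_norm (enc_subr 1386028527328639 66646850000000 (enc_neg (enc_scaleT 52159807992891 13329370000000 (enc_subr 5 128 h1)))))⟩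
noncomputable def sv3 : Fn1 := ⟨_, _, fun h1 => (enc_norm (enc_subr 422055157761 83308562500 (enc_neg (enc_scaleT 3862912897701 5331748000000 (enc_subr 5 128 h1)))))⟩
noncomputable def sw3 : Fn1 := ⟨_, _, fun h1 => (enc_norm (enc_subr 10263559 500000 (enc_neg (enc_scaleT 497321 100000 (enc_subr 5 128 h1)))))⟩
noncomputable def sl4 : Fn1 := ⟨_, _, fun h1 => (enc_norm (enc_add (enc_scaleT 10964917 3000000 (enc_subr 5 128 h1)) (enc_rat _ 50324837 2500000)))⟩
noncomputable def sv4 : Fn1 := ⟨_, _, fun h1 => (enc_norm (enc_add (enc_scaleT 262114237 500000000 (enc_subr 5 128 h1)) (enc_rat _ 8433560109 5000000000)))⟩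
noncomputable def sw4 : Fn1 := ⟨_, _, fun h1 => (enc_norm (enc_add (enc_scaleT 162341 25000 (enc_subr 5 128 h1)) (enc_rat _ 20741399 500000)))⟩
noncomputable def sl5 : Fn1 := ⟨_, _, fun h1 => (enc_norm (enc_sub (enc_rat _ 1902976141 75000000) (enc_scaleT 19176197 15000000 (enc_subr 5 128 h1))))⟩
noncomputable def sv5 : Fn1 := ⟨_, _, fun h1 => (enc_norm (enc_sub (enc_rat _ 11972639451 5000000000) (enc_scaleT 35444623 250000000 (enc_subr 5 128 h1))))⟩
noncomputable def sw5 : Fn1 := ⟨_, _, fun h1 => (enc_norm (enc_sub (enc_rat _ 25596103 500000) (enc_scaleT 132113 50000 (enc_subr 5 128 h1))))⟩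
noncomputable def sl6 : Fn1 := ⟨_, _, fun h1 => (enc_norm (enc_add (enc_scaleT 89003 937500 (enc_subr 5 128 h1)) (enc_rat _ 21183981 1250000)))⟩
noncomputable def sv6 : Fn1 := ⟨_, _, fun h1 => (enc_norm (enc_add (enc_scaleT 242323 100000000 (enc_subr 5 128 h1)) (enc_rat _ 603926279 400000000)))⟩
noncomputable def sw6 : Fn1 := ⟨_, _, fun h1 => (enc_norm (enc_add (enc_scaleT 31381 50000 (enc_subr 5 128 h1)) (enc_rat _ 6226141 200000)))⟩
noncomputable def sl7 : Fn1 := ⟨_, _, fun h1 => (enc_norm (enc_subr 61049491 11200000 (enc_scaleT 5342117 56000000 (enc_subr 5 128 h1))))⟩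
noncomputable def sv7 : Fn1 := ⟨_, _, fun h1 => (enc_norm (enc_subr 952205669 5600000000 (enc_scaleT 110099 44800000 (enc_subr 5 128 h1))))⟩
noncomputable def sw7 : Fn1 := ⟨_, _, fun h1 => (enc_norm (enc_subr 21764701 500000 (enc_scaleT 12583 20000 (enc_subr 5 128 h1))))⟩
noncomputable def sl8 : Fn1 := ⟨_, _, fun h1 => (enc_norm (enc_subr 60451 6250000 (enc_scaleT 1047 62500 (enc_subr 5 128 h1))))⟩
noncomputable def sv8 : Fn1 := ⟨_, _, fun h1 => (enc_pnc _ 0)⟩
noncomputable def sl9 : Fn1 := ⟨_, _, fun h1 => (enc_norm (enc_subr 61049491 11200000 (enc_scaleT 5342117 56000000 (enc_subr 5 128 h1))))⟩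
noncomputable def sv9 : Fn1 := ⟨_, _, fun h1 => (enc_norm (enc_sub (enc_rat _ 952205669 5600000000) (enc_scaleT 110099 44800000 (enc_subr 5 128 h1))))⟩
noncomputable def sw9 : Fn1 := ⟨_, _, fun h1 => (enc_norm (enc_sub (enc_rat _ 21764701 500000) (enc_scaleT 12583 20000 (enc_subr 5 128 h1))))⟩
noncomputable def sl10 : Fn1 := ⟨_, _, fun h1 => (enc_norm (enc_add (enc_scaleT 89003 937500 (enc_subr 5 128 h1)) (enc_rat _ 21183981 1250000)))⟩
noncomputable def sv10 : Fn1 := ⟨_, _, fun h1 => (enc_norm (enc_subr 603926279 400000000 (enc_neg (enc_scaleT 242323 100000000 (enc_subr 5 128 h1)))))⟩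
noncomputable def sw10 : Fn1 := ⟨_, _, fun h1 => (enc_norm (enc_subr 6226141 200000 (enc_neg (enc_scaleT 31381 50000 (enc_subr 5 128 h1)))))⟩
noncomputable def sl11 : Fn1 := ⟨_, _, fun h1 => (enc_norm (enc_sub (enc_rat _ 1902976141 75000000) (enc_scaleT 19176197 15000000 (enc_subr 5 128 h1))))⟩
noncomputable def sv11 : Fn1 := ⟨_, _, fun h1 => (enc_norm (enc_subr 11972639451 5000000000 (enc_scaleT 35444623 250000000 (enc_subr 5 128 h1))))⟩
noncomputable def sw11 : Fn1 := ⟨_, _, fun h1 => (enc_norm (enc_subr 25596103 500000 (enc_scaleT 132113 50000 (enc_subr 5 128 h1))))⟩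
noncomputable def sl12 : Fn1 := ⟨_, _, fun h1 => (enc_norm (enc_add (enc_scaleT 10964917 3000000 (enc_subr 5 128 h1)) (enc_rat _ 50324837 2500000)))⟩
noncomputable def sv12 : Fn1 := ⟨_, _, fun h1 => (enc_norm (enc_subr 8433560109 5000000000 (enc_neg (enc_scaleT 262114237 500000000 (enc_subr 5 128 h1)))))⟩
noncomputable def sw12 : Fn1 := ⟨_, _, fun h1 => (enc_norm (enc_subr 20741399 500000 (enc_neg (enc_scaleT 162341 25000 (enc_subr 5 128 h1)))))⟩
noncomputable def sl13 : Fn1 := ⟨_, _, fun h1 => (enc_norm (enc_subr 1386028527328639 66646850000000 (enc_neg (enc_scaleT 52159807992891 13329370000000 (enc_subr 5 128 h1)))))⟩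
noncomputable def sv13 : Fn1 := ⟨_, _, fun h1 => (enc_norm (enc_add (enc_scaleT 3862912897701 5331748000000 (enc_subr 5 128 h1)) (enc_rat _ 422055157761 83308562500)))⟩
noncomputable def sw13 : Fn1 := ⟨_, _, fun h1 => (enc_norm (enc_add (enc_scaleT 497321 100000 (enc_subr 5 128 h1)) (enc_rat _ 10263559 500000)))⟩
noncomputable def sl14 : Fn1 := ⟨_, _, fun h1 => (enc_norm (enc_sub (enc_rat _ 33588197395942538561 928154890575000000) (enc_scaleT 248855412749977849 43313894893500000 (enc_subr 5 128 h1))))⟩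
noncomputable def sv14 : Fn1 := ⟨_, _, fun h1 => (enc_norm (enc_subr 28968621006153020237 3712619562300000000 (enc_scaleT 986074466015057393 866277897870000000 (enc_subr 5 128 h1))))⟩
noncomputable def sw14 : Fn1 := ⟨_, _, fun h1 => (enc_norm (enc_subr 10639083 250000 (enc_scaleT 140031 20000 (enc_subr 5 128 h1))))⟩
noncomputable def sl15 : Fn1 := ⟨_, _, fun h1 => (enc_norm (enc_add (enc_scaleT 175921718190019 1859217500000 (enc_subr 5 128 h1)) (enc_rat _ 210069695032633 4648043750000)))⟩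
noncomputable def sv15 : Fn1 := ⟨_, _, fun h1 => (enc_norm (enc_subr 743878229162861 74368700000000 (enc_neg (enc_scaleT 173832358624051 7436870000000 (enc_subr 5 128 h1)))))⟩
noncomputable def sw15 : Fn1 := ⟨_, _, fun h1 => (enc_norm (enc_subr 51776241 1000000 (enc_neg (enc_scaleT 1914719 20000 (enc_subr 5 128 h1)))))⟩
noncomputable def sl30 : Fn1 := ⟨_, _, fun h1 => (enc_norm (enc_sub (enc_rat _ 15087 312500) (enc_scaleT 33487313 5000000 (enc_subr 5 128 h1))))⟩
noncomputable def sv30 : Fn1 := ⟨_, _, fun h1 => (enc_norm (enc_sub (enc_rat _ 80371 5000000) (enc_scaleT 15617963 10000000 (enc_subr 5 128 h1))))⟩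
noncomputable def sw30 : Fn1 := ⟨_, _, fun h1 => (enc_norm (enc_sub (enc_rat _ 1613 50000) (enc_scaleT 357387 50000 (enc_subr 5 128 h1))))⟩
noncomputable def sl31_2 : Fn1 := ⟨_, _, fun h1 => (enc_subr 5 128 h1)⟩
noncomputable def sl31 : Fn1 := ⟨_, _, fun h1 => (enc_norm (enc_sub (enc_subr 880869649757123 7929633600000000 (enc_neg (enc_scaleT 930153037923599 113280480000000 (sl31_2.enc h1)))) (enc_scaleT 1039697 43650000 (enc_sq (enc_norm (sl31_2.enc h1))))))⟩
noncomputable def sv31_2 : Fn1 := ⟨_, _, fun h1 => (enc_subr 5 128 h1)⟩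
noncomputable def sv31 : Fn1 := ⟨_, _, fun h1 => (enc_norm (enc_sub (enc_subr 104081713887341 4531219200000000 (enc_neg (enc_scaleT 4378585826223859 2265609600000000 (sv31_2.enc h1)))) (enc_scaleT 50945153 4365000000 (enc_sq (enc_norm (sv31_2.enc h1))))))⟩
noncomputable def sw31 : Fn1 := ⟨_, _, fun h1 => (enc_norm (enc_subr 130357 1000000 (enc_neg (enc_scaleT 434611 50000 (enc_subr 5 128 h1)))))⟩
noncomputable def sl33_2 : Fn1 := ⟨_, _, fun h1 => (enc_subr 5 128 h1)⟩
noncomputable def sl33 : Fn1 := ⟨_, _, fun h1 => (enc_norm (enc_sub (enc_sub (enc_rat _ 301364042204141 803403200000000) (enc_scaleT 2293955322119 2008508000000 (sl33_2.enc h1))) (enc_scaleT 35477 1896250 (enc_sq (enc_norm (sl33_2.enc h1))))))⟩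
noncomputable def sv33_2 : Fn1 := ⟨_, _, fun h1 => (enc_subr 5 128 h1)⟩
noncomputable def sv33 : Fn1 := ⟨_, _, fun h1 => (enc_norm (enc_sub (enc_sub (enc_rat _ 78115853000237 803403200000000) (enc_scaleT 2453947785361 10042540000000 (sv33_2.enc h1))) (enc_scaleT 319293 47406250 (enc_sq (enc_norm (sv33_2.enc h1))))))⟩
noncomputable def sw33 : Fn1 := ⟨_, _, fun h1 => (enc_norm (enc_sub (enc_rat _ 180129 500000) (enc_scaleT 6449 5000 (enc_subr 5 128 h1))))⟩
noncomputable def sl34 : Fn1 := ⟨_, _, fun h1 => (enc_norm (enc_subr 65640833 300000000 (enc_scaleT 61323553 15000000 (enc_subr 5 128 h1))))⟩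
noncomputable def sv34 : Fn1 := ⟨_, _, fun h1 => (enc_norm (enc_subr 1511423 156250000 (enc_scaleT 174277301 250000000 (enc_subr 5 128 h1))))⟩
noncomputable def sw34 : Fn1 := ⟨_, _, fun h1 => (enc_norm (enc_subr 464619 1000000 (enc_scaleT 298729 50000 (enc_subr 5 128 h1))))⟩
noncomputable def sl35 : Fn1 := ⟨_, _, fun h1 => (enc_norm (enc_subr 9723223 75000000 (enc_neg (enc_scaleT 5427361 2000000 (enc_subr 5 128 h1)))))⟩
noncomputable def sv35 : Fn1 := ⟨_, _, fun h1 => (enc_norm (enc_sub (enc_rat _ 2519109 500000000) (enc_scaleT 1700831 4000000 (enc_subr 5 128 h1))))⟩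
noncomputable def sw35 : Fn1 := ⟨_, _, fun h1 => (enc_norm (enc_subr 41191 125000 (enc_neg (enc_scaleT 86627 20000 (enc_subr 5 128 h1)))))⟩
noncomputable def sl36 : Fn1 := ⟨_, _, fun h1 => (enc_norm (enc_add (enc_scaleT 3404733 5000000 (enc_subr 5 128 h1)) (enc_rat _ 6606873 100000000)))⟩
noncomputable def sv36 : Fn1 := ⟨_, _, fun h1 => (enc_norm (enc_add (enc_scaleT 1049831 12500000 (enc_subr 5 128 h1)) (enc_rat _ 34394989 1000000000)))⟩
noncomputable def sw36 : Fn1 := ⟨_, _, fun h1 => (enc_norm (enc_subr 1671 500000 (enc_scaleT 33159 25000 (enc_subr 5 128 h1))))⟩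
noncomputable def sl37 : Fn1 := ⟨_, _, fun h1 => (enc_norm (enc_subr 9597421 50000000 (enc_neg (enc_scaleT 1541689 5000000 (enc_subr 5 128 h1)))))⟩
noncomputable def sv37 : Fn1 := ⟨_, _, fun h1 => (enc_norm (enc_sub (enc_rat _ 266491 312500000) (enc_scaleT 11155123 250000000 (enc_subr 5 128 h1))))⟩
noncomputable def sw37 : Fn1 := ⟨_, _, fun h1 => (enc_norm (enc_subr 499529 1000000 (enc_neg (enc_scaleT 57611 100000 (enc_subr 5 128 h1)))))⟩
noncomputable def sl38 : Fn1 := ⟨_, _, fun h1 => (enc_norm (enc_subr 23277 10000000 (enc_scaleT 12883 80000 (enc_subr 5 128 h1))))⟩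
noncomputable def sv38 : Fn1 := ⟨_, _, fun h1 => (enc_norm (enc_add (enc_scaleT 701089 100000000 (enc_subr 5 128 h1)) (enc_rat _ 3392353 156250000)))⟩
noncomputable def sw38 : Fn1 := ⟨_, _, fun h1 => (enc_norm (enc_subr 68573 1000000 (enc_scaleT 9813 20000 (enc_subr 5 128 h1))))⟩
noncomputable def sl39 : Fn1 := ⟨_, _, fun h1 => (enc_norm (enc_subr 48503 781250 (enc_neg (enc_scaleT 668311 5000000 (enc_subr 5 128 h1)))))⟩
noncomputable def sv39 : Fn1 := ⟨_, _, fun h1 => (enc_norm (enc_sub (enc_rat _ 20416247 1250000000) (enc_scaleT 4878023 250000000 (enc_subr 5 128 h1))))⟩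
noncomputable def sw39 : Fn1 := ⟨_, _, fun h1 => (enc_norm (enc_subr 117281 500000 (enc_neg (enc_scaleT 8199 25000 (enc_subr 5 128 h1)))))⟩
noncomputable def sl40 : Fn1 := ⟨_, _, fun h1 => (enc_norm (enc_subr 416701 50000000 (enc_neg (enc_scaleT 28787 10000000 (enc_subr 5 128 h1)))))⟩
noncomputable def sv40 : Fn1 := ⟨_, _, fun h1 => (enc_norm (enc_sub (enc_rat _ 10047739 500000000) (enc_scaleT 1035717 100000000 (enc_subr 5 128 h1))))⟩
noncomputable def sw40 : Fn1 := ⟨_, _, fun h1 => (enc_norm (enc_subr 21299 500000 (enc_scaleT 1739 12500 (enc_subr 5 128 h1))))⟩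
noncomputable def sl41 : Fn1 := ⟨_, _, fun h1 => (enc_norm (enc_subr 674201 240000000 (enc_scaleT 670417 24000000 (enc_subr 5 128 h1))))⟩
noncomputable def sv41 : Fn1 := ⟨_, _, fun h1 => (enc_norm (enc_sub (enc_rat _ 48892159 2400000000) (enc_scaleT 2115983 240000000 (enc_subr 5 128 h1))))⟩
noncomputable def sw41 : Fn1 := ⟨_, _, fun h1 => (enc_norm (enc_subr 599 40000 (enc_scaleT 29319 100000 (enc_subr 5 128 h1))))⟩
noncomputable def sl42 : Fn1 := ⟨_, _, fun h1 => (enc_norm (enc_subr 14221 12500000 (enc_neg (enc_scaleT 14031 1250000 (enc_subr 5 128 h1)))))⟩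
noncomputable def sv42 : Fn1 := ⟨_, _, fun h1 => (enc_norm (enc_sub (enc_rat _ 65356681 3200000000) (enc_scaleT 32129 3200000 (enc_subr 5 128 h1))))⟩
noncomputable def sw42 : Fn1 := ⟨_, _, fun h1 => (enc_norm (enc_subr 801 500000 (enc_neg (enc_scaleT 251 12500 (enc_subr 5 128 h1)))))⟩
noncomputable def sl43 : Fn1 := ⟨_, _, fun h1 => (enc_norm (enc_subr 249323 80000000 (enc_scaleT 34201 6000000 (enc_subr 5 128 h1))))⟩
noncomputable def sv43 : Fn1 := ⟨_, _, fun h1 => (enc_norm (enc_sub (enc_rat _ 3277727 160000000) (enc_scaleT 634153 60000000 (enc_subr 5 128 h1))))⟩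
noncomputable def sw43 : Fn1 := ⟨_, _, fun h1 => (enc_norm (enc_sub (enc_rat _ 14231 1000000) (enc_scaleT 3887 25000 (enc_subr 5 128 h1))))⟩
noncomputable def sl44 : Fn1 := ⟨_, _, fun h1 => (enc_norm (enc_add (enc_scaleT 111167 2000000 (enc_subr 5 128 h1)) (enc_rat _ 300909 20000000)))⟩
noncomputable def sv44 : Fn1 := ⟨_, _, fun h1 => (enc_norm (enc_sub (enc_rat _ 3915541 200000000) (enc_scaleT 261267 20000000 (enc_subr 5 128 h1))))⟩
noncomputable def sw44 : Fn1 := ⟨_, _, fun h1 => (enc_norm (enc_subr 3829 50000 (enc_neg (enc_scaleT 4049 10000 (enc_subr 5 128 h1)))))⟩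
noncomputable def sl45 : Fn1 := ⟨_, _, fun h1 => (enc_norm (enc_sub (enc_rat _ 854887 20000000) (enc_scaleT 2268233 10000000 (enc_subr 5 128 h1))))⟩
noncomputable def sv45 : Fn1 := ⟨_, _, fun h1 => (enc_norm (enc_add (enc_scaleT 3352619 500000000 (enc_subr 5 128 h1)) (enc_rat _ 17638789 1000000000)))⟩
noncomputable def sw45 : Fn1 := ⟨_, _, fun h1 => (enc_norm (enc_subr 35101 200000 (enc_scaleT 60369 100000 (enc_subr 5 128 h1))))⟩
noncomputable def sl46 : Fn1 := ⟨_, _, fun h1 => (enc_norm (enc_add (enc_scaleT 400397 1000000 (enc_subr 5 128 h1)) (enc_rat _ 913707 10000000)))⟩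
noncomputable def sv46 : Fn1 := ⟨_, _, fun h1 => (enc_norm (enc_sub (enc_rat _ 8289007 625000000) (enc_scaleT 12436217 250000000 (enc_subr 5 128 h1))))⟩
noncomputable def sw46 : Fn1 := ⟨_, _, fun h1 => (enc_norm (enc_subr 155289 500000 (enc_neg (enc_scaleT 56929 50000 (enc_subr 5 128 h1)))))⟩
noncomputable def sl47 : Fn1 := ⟨_, _, fun h1 => (enc_norm (enc_subr 191153 12500000 (enc_neg (enc_scaleT 1038617 1000000 (enc_subr 5 128 h1)))))⟩
noncomputable def sv47 : Fn1 := ⟨_, _, fun h1 => (enc_norm (enc_add (enc_scaleT 5427349 50000000 (enc_subr 5 128 h1)) (enc_rat _ 62488309 2500000000)))⟩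
noncomputable def sw47 : Fn1 := ⟨_, _, fun h1 => (enc_norm (enc_subr 34081 500000 (enc_scaleT 21319 10000 (enc_subr 5 128 h1))))⟩
noncomputable def sl48 : Fn1 := ⟨_, _, fun h1 => (enc_norm (enc_add (enc_scaleT 25725291 10000000 (enc_subr 5 128 h1)) (enc_rat _ 6393961 100000000)))⟩
noncomputable def sv48 : Fn1 := ⟨_, _, fun h1 => (enc_norm (enc_sub (enc_rat _ 14695187 1000000000) (enc_scaleT 36090213 100000000 (enc_subr 5 128 h1))))⟩
noncomputable def sw48 : Fn1 := ⟨_, _, fun h1 => (enc_norm (enc_subr 220531 1000000 (enc_neg (enc_scaleT 481261 100000 (enc_subr 5 128 h1)))))⟩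
noncomputable def sl49 : Fn1 := ⟨_, _, fun h1 => (enc_norm (enc_sub (enc_rat _ 8662409 50000000) (enc_scaleT 31987707 5000000 (enc_subr 5 128 h1))))⟩
noncomputable def sv49 : Fn1 := ⟨_, _, fun h1 => (enc_norm (enc_subr 850547 500000000 (enc_scaleT 49230411 50000000 (enc_subr 5 128 h1))))⟩
noncomputable def sw49 : Fn1 := ⟨_, _, fun h1 => (enc_norm (enc_subr 50339 125000 (enc_scaleT 1013751 100000 (enc_subr 5 128 h1))))⟩
noncomputable def sl50 : Fn1 := ⟨_, _, fun h1 => (enc_norm (enc_subr 4307197 25000000 (enc_scaleT 34796823 2500000 (enc_subr 5 128 h1))))⟩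
noncomputable def sv50 : Fn1 := ⟨_, _, fun h1 => (enc_norm (enc_sub (enc_rat _ 142600167 2500000000) (enc_scaleT 617289403 250000000 (enc_subr 5 128 h1))))⟩
noncomputable def sw50 : Fn1 := ⟨_, _, fun h1 => (enc_norm (enc_sub (enc_rat _ 105429 1000000) (enc_scaleT 123371 6250 (enc_subr 5 128 h1))))⟩
noncomputable def sl51 : Fn1 := ⟨_, _, fun h1 => (enc_norm (enc_subr 138419 2500000 (enc_neg (enc_scaleT 27765257 1000000 (enc_subr 5 128 h1)))))⟩
noncomputable def sv51 : Fn1 := ⟨_, _, fun h1 => (enc_norm (enc_add (enc_scaleT 1362699951 250000000 (enc_subr 5 128 h1)) (enc_rat _ 87062863 2500000000)))⟩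
noncomputable def sw51 : Fn1 := ⟨_, _, fun h1 => (enc_norm (enc_subr 48413 1000000 (enc_scaleT 3510799 100000 (enc_subr 5 128 h1))))⟩
noncomputable def sl52 : Fn1 := ⟨_, _, fun h1 => (enc_norm (enc_subr 7710187299 8500000000 (enc_scaleT 21365837787 850000000 (enc_subr 5 128 h1))))⟩
noncomputable def sv52 : Fn1 := ⟨_, _, fun h1 => (enc_norm (enc_sub (enc_rat _ 90816121709 425000000000) (enc_scaleT 240487223367 42500000000 (enc_subr 5 128 h1))))⟩
noncomputable def sw52 : Fn1 := ⟨_, _, fun h1 => (enc_norm (enc_sub (enc_rat _ 965531 1000000) (enc_scaleT 2787003 100000 (enc_subr 5 128 h1))))⟩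
noncomputable def sl53 : Fn1 := ⟨_, _, fun h1 => (enc_norm (enc_subr 1447211607 5750000000 (enc_scaleT 42370449 143750000 (enc_subr 5 128 h1))))⟩
noncomputable def sv53 : Fn1 := ⟨_, _, fun h1 => (enc_norm (enc_sub (enc_rat _ 746476357 11500000000) (enc_scaleT 5604949 287500000 (enc_subr 5 128 h1))))⟩
noncomputable def sw53 : Fn1 := ⟨_, _, fun h1 => (enc_norm (enc_sub (enc_rat _ 121867 500000) (enc_scaleT 3197 6250 (enc_subr 5 128 h1))))⟩
noncomputable def skf0 : Fn2 := ⟨_, _, fun h1 h2 => (enc_norm (enc_add (bf1q0.enc h1 h2) (enc_mul (enc_norm (enc_sub (enc_mul (c1g.enc h1) (bf1q0.enc h1 h2)) (kf0q0.enc h1 h2))) (enc_inv (enc_sub (cv1m.enc h1) (c1g.enc h1))))))⟩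
noncomputable def sxf0 : Fn2 := ⟨_, _, fun h1 h2 => (enc_norm (enc_mul (enc_norm (enc_sub (l1q0.enc h1 h2) (l0q0.enc h1 h2))) (enc_inv (enc_sub (cv1m.enc h1) (c1g.enc h1)))))⟩
noncomputable def skl0 : Fn2 := ⟨_, _, fun h1 h2 => (enc_norm (enc_add (bf3q0.enc h1 h2) (enc_mul (enc_norm (enc_sub (kf4q0.enc h1 h2) (enc_mul (c3g.enc h1) (bf3q0.enc h1 h2)))) (enc_inv (enc_sub (c3g.enc h1) (cv3m.enc h1))))))⟩
noncomputable def sxl0 : Fn2 := ⟨_, _, fun h1 h2 => (enc_norm (enc_mul (enc_norm (enc_sub (l4q0.enc h1 h2) (l3q0.enc h1 h2))) (enc_inv (enc_sub (c3g.enc h1) (cv3m.enc h1)))))⟩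
noncomputable def skf1 : Fn2 := ⟨_, _, fun h1 h2 => (enc_norm (enc_add (bf1q1.enc h1 h2) (enc_mul (enc_norm (enc_sub (enc_mul (c1g.enc h1) (bf1q1.enc h1 h2)) (kf0q1.enc h1 h2))) (enc_inv (enc_sub (cv1m.enc h1) (c1g.enc h1))))))⟩
noncomputable def sxf1 : Fn2 := ⟨_, _, fun h1 h2 => (enc_norm (enc_mul (enc_norm (enc_sub (l1q1.enc h1 h2) (l0q1.enc h1 h2))) (enc_inv (enc_sub (cv1m.enc h1) (c1g.enc h1)))))⟩
noncomputable def skl1 : Fn2 := ⟨_, _, fun h1 h2 => (enc_norm (enc_add (bf3q1.enc h1 h2) (enc_mul (enc_norm (enc_sub (kf4q1.enc h1 h2) (enc_mul (c3g.enc h1) (bf3q1.enc h1 h2)))) (enc_inv (enc_sub (c3g.enc h1) (cv3m.enc h1))))))⟩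
noncomputable def sxl1 : Fn2 := ⟨_, _, fun h1 h2 => (enc_norm (enc_mul (enc_norm (enc_sub (l4q1.enc h1 h2) (l3q1.enc h1 h2))) (enc_inv (enc_sub (c3g.enc h1) (cv3m.enc h1)))))⟩
noncomputable def skf2 : Fn2 := ⟨_, _, fun h1 h2 => (enc_norm (enc_add (bf1q2.enc h1 h2) (enc_mul (enc_norm (enc_add (enc_mul (c1g.enc h1) (enc_norm (enc_subn 1 (bf1q2.enc h1 h2)))) (enc_mul (enc_norm (enc_subn 1 h1)) (kcg.enc (c1g.enc h1) h2)))) (enc_inv (enc_sub (cv1p.enc h1) (c1g.enc h1))))))⟩
noncomputable def sxf2 : Fn2 := ⟨_, _, fun h1 h2 => (enc_norm (enc_mul (enc_norm (enc_sub (l1q2.enc h1 h2) (l0q2.enc h1 h2))) (enc_inv (enc_sub (cv1p.enc h1) (c1g.enc h1)))))⟩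
noncomputable def skl2 : Fn2 := ⟨_, _, fun h1 h2 => (enc_norm (enc_add (bf3q2.enc h1 h2) (enc_mul (enc_norm (enc_sub (kf4q2.enc h1 h2) (enc_mul (c3g.enc h1) (bf3q2.enc h1 h2)))) (enc_inv (enc_sub (c3g.enc h1) (cv3p.enc h1))))))⟩
noncomputable def sxl2 : Fn2 := ⟨_, _, fun h1 h2 => (enc_norm (enc_mul (enc_norm (enc_sub (l4q2.enc h1 h2) (l3q2.enc h1 h2))) (enc_inv (enc_sub (c3g.enc h1) (cv3p.enc h1)))))⟩
noncomputable def skl3 : Fn2 := ⟨_, _, fun h1 h2 => (enc_norm (enc_add (bf3q3.enc h1 h2) (enc_mul (enc_norm (enc_sub (kf4q3.enc h1 h2) (enc_mul (c3g.enc h1) (bf3q3.enc h1 h2)))) (enc_inv (enc_sub (c3g.enc h1) (cv3r.enc h1))))))⟩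
noncomputable def sxl3 : Fn2 := ⟨_, _, fun h1 h2 => (enc_norm (enc_mul (enc_norm (enc_sub (l4q3.enc h1 h2) (l3q3.enc h1 h2))) (enc_inv (enc_sub (c3g.enc h1) (cv3r.enc h1)))))⟩
noncomputable def rhk : Fn2 := ⟨_, _, fun h1 h2 => (enc_norm (enc_mul (enc_norm (enc_sub (bf1q2.enc h1 h2) (n0b.enc h1 h2))) (enc_norm (enc_mul (cv1p.enc h1) (enc_inv (enc_sub (cv1p.enc h1) (c1g.enc h1)))))))⟩
noncomputable def rhx : Fn2 := ⟨_, _, fun h1 h2 => (enc_norm (enc_mul (enc_norm (enc_sub (bx1q2.enc h1 h2) (n0x.enc h1 h2))) (enc_norm (enc_mul (cv1p.enc h1) (enc_inv (enc_sub (cv1p.enc h1) (c1g.enc h1)))))))⟩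
noncomputable def sbk : Fn1 := ⟨_, _, fun h1 => (enc_norm (enc_subr 138243 15625000 (enc_scaleT 19773 1250000 (enc_subr 5 128 h1))))⟩
noncomputable def sbx : Fn1 := ⟨_, _, fun h1 => (enc_norm (enc_subr 3 1250000 (enc_neg (enc_scaleT 7 125000 (enc_subr 5 128 h1)))))⟩
noncomputable def k0c : Fn1 := ⟨_, _, fun h1 => (enc_norm (enc_subr 60451 6250000 (enc_scaleT 1047 62500 (enc_subr 5 128 h1))))⟩
noncomputable def m0c : Fn1 := ⟨_, _, fun h1 => (enc_norm (enc_add (enc_scaleT 14031 625000 (enc_subr 5 128 h1)) (enc_rat _ 14221 6250000)))⟩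
noncomputable def sl77 : Fn1 := ⟨_, _, fun h1 => (enc_norm (enc_add (enc_scaleT 3380359 10000000 (enc_subr 5 128 h1)) (enc_rat _ 1706413 100000000)))⟩
noncomputable def sv77 : Fn1 := ⟨_, _, fun h1 => (enc_norm (enc_add (enc_scaleT 2621733 100000000 (enc_subr 5 128 h1)) (enc_rat _ 6528957 5000000000)))⟩
noncomputable def sw77 : Fn1 := ⟨_, _, fun h1 => (enc_norm (enc_add (enc_scaleT 18633 20000 (enc_subr 5 128 h1)) (enc_rat _ 59057 1000000)))⟩
noncomputable def sl78 : Fn1 := ⟨_, _, fun h1 => (enc_norm (enc_subr 898679 100000000 (enc_neg (enc_scaleT 93943 1250000 (enc_subr 5 128 h1)))))⟩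
noncomputable def sv78 : Fn1 := ⟨_, _, fun h1 => (enc_norm (enc_subr 517773 1000000000 (enc_neg (enc_scaleT 135309 50000000 (enc_subr 5 128 h1)))))⟩
noncomputable def sw78 : Fn1 := ⟨_, _, fun h1 => (enc_norm (enc_subr 16991 500000 (enc_neg (enc_scaleT 27201 50000 (enc_subr 5 128 h1)))))⟩
noncomputable def sl79 : Fn1 := ⟨_, _, fun h1 => (enc_norm (enc_sub (enc_rat _ 2190209 600000000) (enc_scaleT 6730057 120000000 (enc_subr 5 128 h1))))⟩
noncomputable def sv79 : Fn1 := ⟨_, _, fun h1 => (enc_norm (enc_sub (enc_rat _ 136873 1200000000) (enc_scaleT 420629 240000000 (enc_subr 5 128 h1))))⟩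
noncomputable def sw79 : Fn1 := ⟨_, _, fun h1 => (enc_norm (enc_sub (enc_rat _ 14603 500000) (enc_scaleT 44867 100000 (enc_subr 5 128 h1))))⟩
noncomputable def sl80 : Fn1 := ⟨_, _, fun h1 => (enc_pnc _ 0)⟩
noncomputable def sv80 : Fn1 := ⟨_, _, fun h1 => (enc_pnc _ 0)⟩
noncomputable def sl81 : Fn1 := ⟨_, _, fun h1 => (enc_norm (enc_sub (enc_rat _ 2190209 600000000) (enc_scaleT 6730057 120000000 (enc_subr 5 128 h1))))⟩
noncomputable def sv81 : Fn1 := ⟨_, _, fun h1 => (enc_norm (enc_subr 136873 1200000000 (enc_scaleT 420629 240000000 (enc_subr 5 128 h1))))⟩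
noncomputable def sw81 : Fn1 := ⟨_, _, fun h1 => (enc_norm (enc_subr 14603 500000 (enc_scaleT 44867 100000 (enc_subr 5 128 h1))))⟩
noncomputable def sl82 : Fn1 := ⟨_, _, fun h1 => (enc_norm (enc_subr 898679 100000000 (enc_neg (enc_scaleT 93943 1250000 (enc_subr 5 128 h1)))))⟩
noncomputable def sv82 : Fn1 := ⟨_, _, fun h1 => (enc_norm (enc_add (enc_scaleT 135309 50000000 (enc_subr 5 128 h1)) (enc_rat _ 517773 1000000000)))⟩
noncomputable def sw82 : Fn1 := ⟨_, _, fun h1 => (enc_norm (enc_add (enc_scaleT 27201 50000 (enc_subr 5 128 h1)) (enc_rat _ 16991 500000)))⟩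
noncomputable def sl83 : Fn1 := ⟨_, _, fun h1 => (enc_norm (enc_add (enc_scaleT 3380359 10000000 (enc_subr 5 128 h1)) (enc_rat _ 1706413 100000000)))⟩
noncomputable def sv83 : Fn1 := ⟨_, _, fun h1 => (enc_norm (enc_subr 6528957 5000000000 (enc_neg (enc_scaleT 2621733 100000000 (enc_subr 5 128 h1)))))⟩
noncomputable def sw83 : Fn1 := ⟨_, _, fun h1 => (enc_norm (enc_subr 59057 1000000 (enc_neg (enc_scaleT 18633 20000 (enc_subr 5 128 h1)))))⟩
noncomputable def kqf : Fn2 := ⟨_, _, fun h1 h2 => (enc_norm (enc_mul (enc_norm (enc_subn 1 h1)) (enc_norm (enc_case (enc_subr 1 16 (c1g.enc h1)) (enc_subr 60451 6250000 (enc_scaleT 1047 62500 (enc_subr 5 128 h2))) (enc_mul (kcg.enc (c1g.enc h1) h2) (enc_inv (c1g.enc h1)))))))⟩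
noncomputable def skm : Fn2 := ⟨_, _, fun h1 h2 => (enc_norm (enc_sub (enc_mul (enc_norm (enc_mul (cv1p.enc h1) (enc_inv (enc_sub (cv1p.enc h1) (c1g.enc h1))))) (enc_norm (enc_add (enc_subn 1 (bf1q2.enc h1 h2)) (kqf.enc h1 h2)))) (kqf.enc h1 h2)))⟩
noncomputable def dt1 : DT := .quad sw1 sl1 sv1
noncomputable def dt2 : DT := .quad sw2 sl2 sv2
noncomputable def dt3 : DT := .quad sw3 sl3 sv3
noncomputable def dt4 : DT := .quad sw4 sl4 sv4
noncomputable def dt5 : DT := .quad sw5 sl5 sv5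
noncomputable def dt6 : DT := .quad sw6 sl6 sv6
noncomputable def dt7 : DT := .quad sw7 sl7 sv7
noncomputable def dt8 : DT := .lin sl8 sv8
noncomputable def dt9 : DT := .quad sw9 sl9 sv9
noncomputable def dt10 : DT := .quad sw10 sl10 sv10
noncomputable def dt11 : DT := .quad sw11 sl11 sv11
noncomputable def dt12 : DT := .quad sw12 sl12 sv12
noncomputable def dt13 : DT := .quad sw13 sl13 sv13
noncomputable def dt14 : DT := .quad sw14 sl14 sv14
noncomputable def dt15 : DT := .quad sw15 sl15 sv15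
noncomputable def dt16 : DT := .node ((Cn.rt 299 662).ng) dt2 dt3
noncomputable def dt17 : DT := .node ((Cn.rt 2773 5677).ng) dt1 dt16
noncomputable def dt18 : DT := .node ((Cn.rt 27 100).ng) dt4 dt5
noncomputable def dt19 : DT := .node ((Cn.rt 3 20).ng) dt6 dt7
noncomputable def dt20 : DT := .node ((Cn.rt 21 100).ng) dt18 dt19
noncomputable def dt21 : DT := .node ((Cn.rt 33 100).ng) dt17 dt20
noncomputable def dt22 : DT := .node (Cn.rt 1 16) dt8 dt9
noncomputable def dt23 : DT := .node (Cn.rt 21 100) dt10 dt11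
noncomputable def dt24 : DT := .node (Cn.rt 3 20) dt22 dt23
noncomputable def dt25 : DT := .node (Cn.rt 33 100) dt12 dt13
noncomputable def dt26 : DT := .node (Cn.rt 2773 5677) dt14 dt15
noncomputable def dt27 : DT := .node (Cn.rt 299 662) dt25 dt26
noncomputable def dt28 : DT := .node (Cn.rt 27 100) dt24 dt27
noncomputable def dt29 : DT := .node ((Cn.rt 1 16).ng) dt21 dt28
noncomputable def dt30 : DT := .quad sw30 sl30 sv30
noncomputable def dt31 : DT := .quad sw31 sl31 sv31
noncomputable def dt32 : DT := .clo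
noncomputable def dt33 : DT := .quad sw33 sl33 sv33
noncomputable def dt34 : DT := .quad sw34 sl34 sv34
noncomputable def dt35 : DT := .quad sw35 sl35 sv35
noncomputable def dt36 : DT := .quad sw36 sl36 sv36
noncomputable def dt37 : DT := .quad sw37 sl37 sv37
noncomputable def dt38 : DT := .quad sw38 sl38 sv38
noncomputable def dt39 : DT := .quad sw39 sl39 sv39
noncomputable def dt40 : DT := .quad sw40 sl40 sv40
noncomputable def dt41 : DT := .quad sw41 sl41 sv41
noncomputable def dt42 : DT := .quad sw42 sl42 sv42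
noncomputable def dt43 : DT := .quad sw43 sl43 sv43
noncomputable def dt44 : DT := .quad sw44 sl44 sv44
noncomputable def dt45 : DT := .quad sw45 sl45 sv45
noncomputable def dt46 : DT := .quad sw46 sl46 sv46
noncomputable def dt47 : DT := .quad sw47 sl47 sv47
noncomputable def dt48 : DT := .quad sw48 sl48 sv48
noncomputable def dt49 : DT := .quad sw49 sl49 sv49
noncomputable def dt50 : DT := .quad sw50 sl50 sv50
noncomputable def dt51 : DT := .quad sw51 sl51 sv51
noncomputable def dt52 : DT := .quad sw52 sl52 sv52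
noncomputable def dt53 : DT := .quad sw53 sl53 sv53
noncomputable def dt54 : DT := .node ((Cn.rt 2773 5677).ng) dt31 dt32
noncomputable def dt55 : DT := .node ((Cn.rt 49 100).ng) dt30 dt54
noncomputable def dt56 : DT := .node ((Cn.rt 33 100).ng) dt34 dt35
noncomputable def dt57 : DT := .node ((Cn.rt 9 25).ng) dt33 dt56
noncomputable def dt58 : DT := .node ((Cn.rt 299 662).ng) dt55 dt57
noncomputable def dt59 : DT := .node ((Cn.rt 11 50).ng) dt37 dt38
noncomputable def dt60 : DT := .node ((Cn.rt 13 50).ng) dt36 dt59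
noncomputable def dt61 : DT := .node ((Cn.rt 1 10).ng) dt40 dt41
noncomputable def dt62 : DT := .node ((Cn.rt 7 50).ng) dt39 dt61
noncomputable def dt63 : DT := .node ((Cn.rt 9 50).ng) dt60 dt62
noncomputable def dt64 : DT := .node ((Cn.rt 3 10).ng) dt58 dt63
noncomputable def dt65 : DT := .node (Cn.rt 1 10) dt43 dt44
noncomputable def dt66 : DT := .node (Cn.rt 1 16) dt42 dt65
noncomputable def dt67 : DT := .node (Cn.rt 11 50) dt46 dt47
noncomputable def dt68 : DT := .node (Cn.rt 9 50) dt45 dt67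
noncomputable def dt69 : DT := .node (Cn.rt 7 50) dt66 dt68
noncomputable def dt70 : DT := .node (Cn.rt 17 50) dt49 dt50
noncomputable def dt71 : DT := .node (Cn.rt 3 10) dt48 dt70
noncomputable def dt72 : DT := .node (Cn.rt 227 500) dt52 dt53
noncomputable def dt73 : DT := .node (Cn.rt 21 50) dt51 dt72
noncomputable def dt74 : DT := .node (Cn.rt 19 50) dt71 dt73
noncomputable def dt75 : DT := .node (Cn.rt 13 50) dt69 dt74
noncomputable def dt76 : DT := .node ((Cn.rt 1 16).ng) dt64 dt75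
noncomputable def dt77 : DT := .quad sw77 sl77 sv77
noncomputable def dt78 : DT := .quad sw78 sl78 sv78
noncomputable def dt79 : DT := .quad sw79 sl79 sv79
noncomputable def dt80 : DT := .lin sl80 sv80
noncomputable def dt81 : DT := .quad sw81 sl81 sv81
noncomputable def dt82 : DT := .quad sw82 sl82 sv82
noncomputable def dt83 : DT := .quad sw83 sl83 sv83
noncomputable def dt84 : DT := .node ((Cn.rt 1 10).ng) dt78 dt79
noncomputable def dt85 : DT := .node ((Cn.rt 7 50).ng) dt77 dt84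
noncomputable def dt86 : DT := .node (Cn.rt 1 16) dt80 dt81
noncomputable def dt87 : DT := .node (Cn.rt 7 50) dt82 dt83
noncomputable def dt88 : DT := .node (Cn.rt 1 10) dt86 dt87
noncomputable def dt89 : DT := .node ((Cn.rt 1 16).ng) dt85 dt88
noncomputable def dd : SDat := ⟨dt29, kcg, dt76, Kh.S⟩
noncomputable def gf0 : Sg := ⟨cv1m, skf0, sxf0⟩
noncomputable def gf1 : Sg := ⟨cv1m, skf1, sxf1⟩
noncomputable def gf2 : Sg := ⟨cv1p, skf2, sxf2⟩
noncomputable def gf3 : Sg := ⟨cv1r, skf2, sxf2⟩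
noncomputable def gl0 : Sg := ⟨cv3m, skl0, sxl0⟩
noncomputable def gl1 : Sg := ⟨cv3m, skl1, sxl1⟩
noncomputable def gl2 : Sg := ⟨cv3p, skl2, sxl2⟩
noncomputable def gl3 : Sg := ⟨cv3r, skl3, sxl3⟩
noncomputable def vv : Vt := ⟨(Cn.rt 1 16), (Cn.rt 577 500), (Cn.rt 231 200), (Cn.rt 59 50), k0c, m0c, sbk, sbx, rhk, rhx, bf1q2, bx1q2, (Cn.rt 9 50), (Cn.rt 577 500), skm, dt89⟩
noncomputable def ff (q : ℕ) : Sg := match q with
  | 0 => gf0
  | 1 => gf1
  | 2 => gf2
  | _ => gf3
noncomputable def fl (q : ℕ) : Sg := match q with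
  | 0 => gl0
  | 1 => gl1
  | 2 => gl2
  | _ => gl3
noncomputable def tt : STab 4 := ⟨dd, 0, 3, ff, fl, vv⟩
theorem kcl0 {p x : ℝ} (h1 : -1 / 2 ≤ p) (h2 : p ≤ -2773 / 5677) : kcg.v p x = (743878229162861 / 74368700000000 + (x - 5 / 128) * (173832358624051 / 7436870000000)) + (210069695032633 / 4648043750000 + (x - 5 / 128) * (175921718190019 / 1859217500000)) * p + (51776241 / 1000000 + (x - 5 / 128) * (1914719 / 20000)) * p ^ 2 := by
  simp only [kcg, kcg_3, kcg_6, kcg_9, kcg_12, kcg_13, kcg_18, kcg_31, kcg_39, kcg_44, kcg_53, kcg_61, kcg_62, kcg_67, kcg_76, kcg_81, kcg_86, kcg_99, kcg_108, kcg_111, kcg_112, kcg_116, kcg_126, kcg_131, kcg_134, kcg_147, kcg_156, kcg_159, kcg_171, kcg_176, kcg_180, kcg_186, kcg_187, kcg_188, kcg_208, kcg_227, kcg_228]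
  rcases eq_or_lt_of_le h1 with h | h1
  · subst h
    ((try push_cast); (repeat first | rw [if_pos (by linarith)] | rw [if_neg (by linarith)] | erw [if_pos (by linarith)] | erw [if_neg (by linarith)]); (try push_cast); (try ring1))
  rcases eq_or_lt_of_le h2 with h | h2
  · subst h
    ((try push_cast); (repeat first | rw [if_pos (by linarith)] | rw [if_neg (by linarith)] | erw [if_pos (by linarith)] | erw [if_neg (by linarith)]); (try push_cast); (try ring1))
  · ((try push_cast); (repeat first | rw [if_pos (by linarith)] | rw [if_neg (by linarith)] | erw [if_pos (by linarith)] | erw [if_neg (by linarith)]); (try push_cast); (try ring1))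
theorem kcl1 {p x : ℝ} (h1 : -2773 / 5677 ≤ p) (h2 : p ≤ -299 / 662) : kcg.v p x = (28968621006153020237 / 3712619562300000000 + (x - 5 / 128) * (-986074466015057393 / 866277897870000000)) + (33588197395942538561 / 928154890575000000 + (x - 5 / 128) * (-248855412749977849 / 43313894893500000)) * p + (10639083 / 250000 + (x - 5 / 128) * (-140031 / 20000)) * p ^ 2 := by
  simp only [kcg, kcg_3, kcg_6, kcg_9, kcg_12, kcg_13, kcg_18, kcg_31, kcg_39, kcg_44, kcg_53, kcg_61, kcg_62, kcg_67, kcg_76, kcg_81, kcg_86, kcg_99, kcg_108, kcg_111, kcg_112, kcg_116, kcg_126, kcg_131, kcg_134, kcg_147, kcg_156, kcg_159, kcg_171, kcg_176, kcg_180, kcg_186, kcg_187, kcg_188, kcg_208, kcg_227, kcg_228]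
  rcases eq_or_lt_of_le h1 with h | h1
  · subst h
    ((try push_cast); (repeat first | rw [if_pos (by linarith)] | rw [if_neg (by linarith)] | erw [if_pos (by linarith)] | erw [if_neg (by linarith)]); (try push_cast); (try ring1))
  rcases eq_or_lt_of_le h2 with h | h2
  · subst h
    ((try push_cast); (repeat first | rw [if_pos (by linarith)] | rw [if_neg (by linarith)] | erw [if_pos (by linarith)] | erw [if_neg (by linarith)]); (try push_cast); (try ring1))
  · ((try push_cast); (repeat first | rw [if_pos (by linarith)] | rw [if_neg (by linarith)] | erw [if_pos (by linarith)] | erw [if_neg (by linarith)]); (try push_cast); (try ring1))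
theorem kcl2 {p x : ℝ} (h1 : -299 / 662 ≤ p) (h2 : p ≤ -33 / 100) : kcg.v p x = (-422055157761 / 83308562500 + (x - 5 / 128) * (-3862912897701 / 5331748000000)) + (-1386028527328639 / 66646850000000 + (x - 5 / 128) * (-52159807992891 / 13329370000000)) * p + (-10263559 / 500000 + (x - 5 / 128) * (-497321 / 100000)) * p ^ 2 := by
  simp only [kcg, kcg_3, kcg_6, kcg_9, kcg_12, kcg_13, kcg_18, kcg_31, kcg_39, kcg_44, kcg_53, kcg_61, kcg_62, kcg_67, kcg_76, kcg_81, kcg_86, kcg_99, kcg_108, kcg_111, kcg_112, kcg_116, kcg_126, kcg_131, kcg_134, kcg_147, kcg_156, kcg_159, kcg_171, kcg_176, kcg_180, kcg_186, kcg_187, kcg_188, kcg_208, kcg_227, kcg_228]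
  rcases eq_or_lt_of_le h1 with h | h1
  · subst h
    ((try push_cast); (repeat first | rw [if_pos (by linarith)] | rw [if_neg (by linarith)] | erw [if_pos (by linarith)] | erw [if_neg (by linarith)]); (try push_cast); (try ring1))
  rcases eq_or_lt_of_le h2 with h | h2
  · subst h
    ((try push_cast); (repeat first | rw [if_pos (by linarith)] | rw [if_neg (by linarith)] | erw [if_pos (by linarith)] | erw [if_neg (by linarith)]); (try push_cast); (try ring1))
  · ((try push_cast); (repeat first | rw [if_pos (by linarith)] | rw [if_neg (by linarith)] | erw [if_pos (by linarith)] | erw [if_neg (by linarith)]); (try push_cast); (try ring1))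
theorem kcl3 {p x : ℝ} (h1 : -33 / 100 ≤ p) (h2 : p ≤ -27 / 100) : kcg.v p x = (8433560109 / 5000000000 + (x - 5 / 128) * (262114237 / 500000000)) + (50324837 / 2500000 + (x - 5 / 128) * (10964917 / 3000000)) * p + (20741399 / 500000 + (x - 5 / 128) * (162341 / 25000)) * p ^ 2 := by
  simp only [kcg, kcg_3, kcg_6, kcg_9, kcg_12, kcg_13, kcg_18, kcg_31, kcg_39, kcg_44, kcg_53, kcg_61, kcg_62, kcg_67, kcg_76, kcg_81, kcg_86, kcg_99, kcg_108, kcg_111, kcg_112, kcg_116, kcg_126, kcg_131, kcg_134, kcg_147, kcg_156, kcg_159, kcg_171, kcg_176, kcg_180, kcg_186, kcg_187, kcg_188, kcg_208, kcg_227, kcg_228]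
  rcases eq_or_lt_of_le h1 with h | h1
  · subst h
    ((try push_cast); (repeat first | rw [if_pos (by linarith)] | rw [if_neg (by linarith)] | erw [if_pos (by linarith)] | erw [if_neg (by linarith)]); (try push_cast); (try ring1))
  rcases eq_or_lt_of_le h2 with h | h2
  · subst h
    ((try push_cast); (repeat first | rw [if_pos (by linarith)] | rw [if_neg (by linarith)] | erw [if_pos (by linarith)] | erw [if_neg (by linarith)]); (try push_cast); (try ring1))
  · ((try push_cast); (repeat first | rw [if_pos (by linarith)] | rw [if_neg (by linarith)] | erw [if_pos (by linarith)] | erw [if_neg (by linarith)]); (try push_cast); (try ring1))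
theorem kcl4 {p x : ℝ} (h1 : -27 / 100 ≤ p) (h2 : p ≤ -21 / 100) : kcg.v p x = (11972639451 / 5000000000 + (x - 5 / 128) * (-35444623 / 250000000)) + (1902976141 / 75000000 + (x - 5 / 128) * (-19176197 / 15000000)) * p + (25596103 / 500000 + (x - 5 / 128) * (-132113 / 50000)) * p ^ 2 := by
  simp only [kcg, kcg_3, kcg_6, kcg_9, kcg_12, kcg_13, kcg_18, kcg_31, kcg_39, kcg_44, kcg_53, kcg_61, kcg_62, kcg_67, kcg_76, kcg_81, kcg_86, kcg_99, kcg_108, kcg_111, kcg_112, kcg_116, kcg_126, kcg_131, kcg_134, kcg_147, kcg_156, kcg_159, kcg_171, kcg_176, kcg_180, kcg_186, kcg_187, kcg_188, kcg_208, kcg_227, kcg_228]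
  rcases eq_or_lt_of_le h1 with h | h1
  · subst h
    ((try push_cast); (repeat first | rw [if_pos (by linarith)] | rw [if_neg (by linarith)] | erw [if_pos (by linarith)] | erw [if_neg (by linarith)]); (try push_cast); (try ring1))
  rcases eq_or_lt_of_le h2 with h | h2
  · subst h
    ((try push_cast); (repeat first | rw [if_pos (by linarith)] | rw [if_neg (by linarith)] | erw [if_pos (by linarith)] | erw [if_neg (by linarith)]); (try push_cast); (try ring1))
  · ((try push_cast); (repeat first | rw [if_pos (by linarith)] | rw [if_neg (by linarith)] | erw [if_pos (by linarith)] | erw [if_neg (by linarith)]); (try push_cast); (try ring1))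
theorem kcl5 {p x : ℝ} (h1 : -21 / 100 ≤ p) (h2 : p ≤ -3 / 20) : kcg.v p x = (603926279 / 400000000 + (x - 5 / 128) * (242323 / 100000000)) + (21183981 / 1250000 + (x - 5 / 128) * (89003 / 937500)) * p + (6226141 / 200000 + (x - 5 / 128) * (31381 / 50000)) * p ^ 2 := by
  simp only [kcg, kcg_3, kcg_6, kcg_9, kcg_12, kcg_13, kcg_18, kcg_31, kcg_39, kcg_44, kcg_53, kcg_61, kcg_62, kcg_67, kcg_76, kcg_81, kcg_86, kcg_99, kcg_108, kcg_111, kcg_112, kcg_116, kcg_126, kcg_131, kcg_134, kcg_147, kcg_156, kcg_159, kcg_171, kcg_176, kcg_180, kcg_186, kcg_187, kcg_188, kcg_208, kcg_227, kcg_228]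
  rcases eq_or_lt_of_le h1 with h | h1
  · subst h
    ((try push_cast); (repeat first | rw [if_pos (by linarith)] | rw [if_neg (by linarith)] | erw [if_pos (by linarith)] | erw [if_neg (by linarith)]); (try push_cast); (try ring1))
  rcases eq_or_lt_of_le h2 with h | h2
  · subst h
    ((try push_cast); (repeat first | rw [if_pos (by linarith)] | rw [if_neg (by linarith)] | erw [if_pos (by linarith)] | erw [if_neg (by linarith)]); (try push_cast); (try ring1))
  · ((try push_cast); (repeat first | rw [if_pos (by linarith)] | rw [if_neg (by linarith)] | erw [if_pos (by linarith)] | erw [if_neg (by linarith)]); (try push_cast); (try ring1))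
theorem kcl6 {p x : ℝ} (h1 : -3 / 20 ≤ p) (h2 : p ≤ -1 / 16) : kcg.v p x = (-952205669 / 5600000000 + (x - 5 / 128) * (110099 / 44800000)) + (-61049491 / 11200000 + (x - 5 / 128) * (5342117 / 56000000)) * p + (-21764701 / 500000 + (x - 5 / 128) * (12583 / 20000)) * p ^ 2 := by
  simp only [kcg, kcg_3, kcg_6, kcg_9, kcg_12, kcg_13, kcg_18, kcg_31, kcg_39, kcg_44, kcg_53, kcg_61, kcg_62, kcg_67, kcg_76, kcg_81, kcg_86, kcg_99, kcg_108, kcg_111, kcg_112, kcg_116, kcg_126, kcg_131, kcg_134, kcg_147, kcg_156, kcg_159, kcg_171, kcg_176, kcg_180, kcg_186, kcg_187, kcg_188, kcg_208, kcg_227, kcg_228]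
  rcases eq_or_lt_of_le h1 with h | h1
  · subst h
    ((try push_cast); (repeat first | rw [if_pos (by linarith)] | rw [if_neg (by linarith)] | erw [if_pos (by linarith)] | erw [if_neg (by linarith)]); (try push_cast); (try ring1))
  rcases eq_or_lt_of_le h2 with h | h2
  · subst h
    ((try push_cast); (repeat first | rw [if_pos (by linarith)] | rw [if_neg (by linarith)] | erw [if_pos (by linarith)] | erw [if_neg (by linarith)]); (try push_cast); (try ring1))
  · ((try push_cast); (repeat first | rw [if_pos (by linarith)] | rw [if_neg (by linarith)] | erw [if_pos (by linarith)] | erw [if_neg (by linarith)]); (try push_cast); (try ring1))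
theorem kcl7 {p x : ℝ} (h1 : -1 / 16 ≤ p) (h2 : p ≤ 1 / 16) : kcg.v p x = (0) + (-60451 / 6250000 + (x - 5 / 128) * (1047 / 62500)) * p := by
  simp only [kcg, kcg_3, kcg_6, kcg_9, kcg_12, kcg_13, kcg_18, kcg_31, kcg_39, kcg_44, kcg_53, kcg_61, kcg_62, kcg_67, kcg_76, kcg_81, kcg_86, kcg_99, kcg_108, kcg_111, kcg_112, kcg_116, kcg_126, kcg_131, kcg_134, kcg_147, kcg_156, kcg_159, kcg_171, kcg_176, kcg_180, kcg_186, kcg_187, kcg_188, kcg_208, kcg_227, kcg_228]
  rcases eq_or_lt_of_le h1 with h | h1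
  · subst h
    ((try push_cast); (repeat first | rw [if_pos (by linarith)] | rw [if_neg (by linarith)] | erw [if_pos (by linarith)] | erw [if_neg (by linarith)]); (try push_cast); (try ring1))
  rcases eq_or_lt_of_le h2 with h | h2
  · subst h
    ((try push_cast); (repeat first | rw [if_pos (by linarith)] | rw [if_neg (by linarith)] | erw [if_pos (by linarith)] | erw [if_neg (by linarith)]); (try push_cast); (try ring1))
  rcases lt_trichotomy p 0 with h | h | h
  · ((try push_cast); (repeat first | rw [if_pos (by linarith)] | rw [if_neg (by linarith)] | erw [if_pos (by linarith)] | erw [if_neg (by linarith)]); (try push_cast); (try ring1))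
  · subst h
    ((try push_cast); (repeat first | rw [if_pos (by linarith)] | rw [if_neg (by linarith)] | erw [if_pos (by linarith)] | erw [if_neg (by linarith)]); (try push_cast); (try ring1))
  · ((try push_cast); (repeat first | rw [if_pos (by linarith)] | rw [if_neg (by linarith)] | erw [if_pos (by linarith)] | erw [if_neg (by linarith)]); (try push_cast); (try ring1))
theorem kcl8 {p x : ℝ} (h1 : 1 / 16 ≤ p) (h2 : p ≤ 3 / 20) : kcg.v p x = (952205669 / 5600000000 + (x - 5 / 128) * (-110099 / 44800000)) + (-61049491 / 11200000 + (x - 5 / 128) * (5342117 / 56000000)) * p + (21764701 / 500000 + (x - 5 / 128) * (-12583 / 20000)) * p ^ 2 := by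
  simp only [kcg, kcg_3, kcg_6, kcg_9, kcg_12, kcg_13, kcg_18, kcg_31, kcg_39, kcg_44, kcg_53, kcg_61, kcg_62, kcg_67, kcg_76, kcg_81, kcg_86, kcg_99, kcg_108, kcg_111, kcg_112, kcg_116, kcg_126, kcg_131, kcg_134, kcg_147, kcg_156, kcg_159, kcg_171, kcg_176, kcg_180, kcg_186, kcg_187, kcg_188, kcg_208, kcg_227, kcg_228]
  rcases eq_or_lt_of_le h1 with h | h1
  · subst h
    ((try push_cast); (repeat first | rw [if_pos (by linarith)] | rw [if_neg (by linarith)] | erw [if_pos (by linarith)] | erw [if_neg (by linarith)]); (try push_cast); (try ring1))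
  rcases eq_or_lt_of_le h2 with h | h2
  · subst h
    ((try push_cast); (repeat first | rw [if_pos (by linarith)] | rw [if_neg (by linarith)] | erw [if_pos (by linarith)] | erw [if_neg (by linarith)]); (try push_cast); (try ring1))
  · ((try push_cast); (repeat first | rw [if_pos (by linarith)] | rw [if_neg (by linarith)] | erw [if_pos (by linarith)] | erw [if_neg (by linarith)]); (try push_cast); (try ring1))
theorem kcl9 {p x : ℝ} (h1 : 3 / 20 ≤ p) (h2 : p ≤ 21 / 100) : kcg.v p x = (-603926279 / 400000000 + (x - 5 / 128) * (-242323 / 100000000)) + (21183981 / 1250000 + (x - 5 / 128) * (89003 / 937500)) * p + (-6226141 / 200000 + (x - 5 / 128) * (-31381 / 50000)) * p ^ 2 := by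
  simp only [kcg, kcg_3, kcg_6, kcg_9, kcg_12, kcg_13, kcg_18, kcg_31, kcg_39, kcg_44, kcg_53, kcg_61, kcg_62, kcg_67, kcg_76, kcg_81, kcg_86, kcg_99, kcg_108, kcg_111, kcg_112, kcg_116, kcg_126, kcg_131, kcg_134, kcg_147, kcg_156, kcg_159, kcg_171, kcg_176, kcg_180, kcg_186, kcg_187, kcg_188, kcg_208, kcg_227, kcg_228]
  rcases eq_or_lt_of_le h1 with h | h1
  · subst h
    ((try push_cast); (repeat first | rw [if_pos (by linarith)] | rw [if_neg (by linarith)] | erw [if_pos (by linarith)] | erw [if_neg (by linarith)]); (try push_cast); (try ring1))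
  rcases eq_or_lt_of_le h2 with h | h2
  · subst h
    ((try push_cast); (repeat first | rw [if_pos (by linarith)] | rw [if_neg (by linarith)] | erw [if_pos (by linarith)] | erw [if_neg (by linarith)]); (try push_cast); (try ring1))
  · ((try push_cast); (repeat first | rw [if_pos (by linarith)] | rw [if_neg (by linarith)] | erw [if_pos (by linarith)] | erw [if_neg (by linarith)]); (try push_cast); (try ring1))
theorem kcl10 {p x : ℝ} (h1 : 21 / 100 ≤ p) (h2 : p ≤ 27 / 100) : kcg.v p x = (-11972639451 / 5000000000 + (x - 5 / 128) * (35444623 / 250000000)) + (1902976141 / 75000000 + (x - 5 / 128) * (-19176197 / 15000000)) * p + (-25596103 / 500000 + (x - 5 / 128) * (132113 / 50000)) * p ^ 2 := by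
  simp only [kcg, kcg_3, kcg_6, kcg_9, kcg_12, kcg_13, kcg_18, kcg_31, kcg_39, kcg_44, kcg_53, kcg_61, kcg_62, kcg_67, kcg_76, kcg_81, kcg_86, kcg_99, kcg_108, kcg_111, kcg_112, kcg_116, kcg_126, kcg_131, kcg_134, kcg_147, kcg_156, kcg_159, kcg_171, kcg_176, kcg_180, kcg_186, kcg_187, kcg_188, kcg_208, kcg_227, kcg_228]
  rcases eq_or_lt_of_le h1 with h | h1
  · subst h
    ((try push_cast); (repeat first | rw [if_pos (by linarith)] | rw [if_neg (by linarith)] | erw [if_pos (by linarith)] | erw [if_neg (by linarith)]); (try push_cast); (try ring1))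
  rcases eq_or_lt_of_le h2 with h | h2
  · subst h
    ((try push_cast); (repeat first | rw [if_pos (by linarith)] | rw [if_neg (by linarith)] | erw [if_pos (by linarith)] | erw [if_neg (by linarith)]); (try push_cast); (try ring1))
  · ((try push_cast); (repeat first | rw [if_pos (by linarith)] | rw [if_neg (by linarith)] | erw [if_pos (by linarith)] | erw [if_neg (by linarith)]); (try push_cast); (try ring1))
theorem kcl11 {p x : ℝ} (h1 : 27 / 100 ≤ p) (h2 : p ≤ 33 / 100) : kcg.v p x = (-8433560109 / 5000000000 + (x - 5 / 128) * (-262114237 / 500000000)) + (50324837 / 2500000 + (x - 5 / 128) * (10964917 / 3000000)) * p + (-20741399 / 500000 + (x - 5 / 128) * (-162341 / 25000)) * p ^ 2 := by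
  simp only [kcg, kcg_3, kcg_6, kcg_9, kcg_12, kcg_13, kcg_18, kcg_31, kcg_39, kcg_44, kcg_53, kcg_61, kcg_62, kcg_67, kcg_76, kcg_81, kcg_86, kcg_99, kcg_108, kcg_111, kcg_112, kcg_116, kcg_126, kcg_131, kcg_134, kcg_147, kcg_156, kcg_159, kcg_171, kcg_176, kcg_180, kcg_186, kcg_187, kcg_188, kcg_208, kcg_227, kcg_228]
  rcases eq_or_lt_of_le h1 with h | h1
  · subst h
    ((try push_cast); (repeat first | rw [if_pos (by linarith)] | rw [if_neg (by linarith)] | erw [if_pos (by linarith)] | erw [if_neg (by linarith)]); (try push_cast); (try ring1))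
  rcases eq_or_lt_of_le h2 with h | h2
  · subst h
    ((try push_cast); (repeat first | rw [if_pos (by linarith)] | rw [if_neg (by linarith)] | erw [if_pos (by linarith)] | erw [if_neg (by linarith)]); (try push_cast); (try ring1))
  · ((try push_cast); (repeat first | rw [if_pos (by linarith)] | rw [if_neg (by linarith)] | erw [if_pos (by linarith)] | erw [if_neg (by linarith)]); (try push_cast); (try ring1))
theorem kcl12 {p x : ℝ} (h1 : 33 / 100 ≤ p) (h2 : p ≤ 299 / 662) : kcg.v p x = (422055157761 / 83308562500 + (x - 5 / 128) * (3862912897701 / 5331748000000)) + (-1386028527328639 / 66646850000000 + (x - 5 / 128) * (-52159807992891 / 13329370000000)) * p + (10263559 / 500000 + (x - 5 / 128) * (497321 / 100000)) * p ^ 2 := by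
  simp only [kcg, kcg_3, kcg_6, kcg_9, kcg_12, kcg_13, kcg_18, kcg_31, kcg_39, kcg_44, kcg_53, kcg_61, kcg_62, kcg_67, kcg_76, kcg_81, kcg_86, kcg_99, kcg_108, kcg_111, kcg_112, kcg_116, kcg_126, kcg_131, kcg_134, kcg_147, kcg_156, kcg_159, kcg_171, kcg_176, kcg_180, kcg_186, kcg_187, kcg_188, kcg_208, kcg_227, kcg_228]
  rcases eq_or_lt_of_le h1 with h | h1
  · subst h
    ((try push_cast); (repeat first | rw [if_pos (by linarith)] | rw [if_neg (by linarith)] | erw [if_pos (by linarith)] | erw [if_neg (by linarith)]); (try push_cast); (try ring1))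
  rcases eq_or_lt_of_le h2 with h | h2
  · subst h
    ((try push_cast); (repeat first | rw [if_pos (by linarith)] | rw [if_neg (by linarith)] | erw [if_pos (by linarith)] | erw [if_neg (by linarith)]); (try push_cast); (try ring1))
  · ((try push_cast); (repeat first | rw [if_pos (by linarith)] | rw [if_neg (by linarith)] | erw [if_pos (by linarith)] | erw [if_neg (by linarith)]); (try push_cast); (try ring1))
theorem kcl13 {p x : ℝ} (h1 : 299 / 662 ≤ p) (h2 : p ≤ 2773 / 5677) : kcg.v p x = (-28968621006153020237 / 3712619562300000000 + (x - 5 / 128) * (986074466015057393 / 866277897870000000)) + (33588197395942538561 / 928154890575000000 + (x - 5 / 128) * (-248855412749977849 / 43313894893500000)) * p + (-10639083 / 250000 + (x - 5 / 128) * (140031 / 20000)) * p ^ 2 := by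
  simp only [kcg, kcg_3, kcg_6, kcg_9, kcg_12, kcg_13, kcg_18, kcg_31, kcg_39, kcg_44, kcg_53, kcg_61, kcg_62, kcg_67, kcg_76, kcg_81, kcg_86, kcg_99, kcg_108, kcg_111, kcg_112, kcg_116, kcg_126, kcg_131, kcg_134, kcg_147, kcg_156, kcg_159, kcg_171, kcg_176, kcg_180, kcg_186, kcg_187, kcg_188, kcg_208, kcg_227, kcg_228]
  rcases eq_or_lt_of_le h1 with h | h1
  · subst h
    ((try push_cast); (repeat first | rw [if_pos (by linarith)] | rw [if_neg (by linarith)] | erw [if_pos (by linarith)] | erw [if_neg (by linarith)]); (try push_cast); (try ring1))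
  rcases eq_or_lt_of_le h2 with h | h2
  · subst h
    ((try push_cast); (repeat first | rw [if_pos (by linarith)] | rw [if_neg (by linarith)] | erw [if_pos (by linarith)] | erw [if_neg (by linarith)]); (try push_cast); (try ring1))
  · ((try push_cast); (repeat first | rw [if_pos (by linarith)] | rw [if_neg (by linarith)] | erw [if_pos (by linarith)] | erw [if_neg (by linarith)]); (try push_cast); (try ring1))
theorem kcl14 {p x : ℝ} (h1 : 2773 / 5677 ≤ p) (h2 : p ≤ 1 / 2) : kcg.v p x = (-743878229162861 / 74368700000000 + (x - 5 / 128) * (-173832358624051 / 7436870000000)) + (210069695032633 / 4648043750000 + (x - 5 / 128) * (175921718190019 / 1859217500000)) * p + (-51776241 / 1000000 + (x - 5 / 128) * (-1914719 / 20000)) * p ^ 2 := by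
  simp only [kcg, kcg_3, kcg_6, kcg_9, kcg_12, kcg_13, kcg_18, kcg_31, kcg_39, kcg_44, kcg_53, kcg_61, kcg_62, kcg_67, kcg_76, kcg_81, kcg_86, kcg_99, kcg_108, kcg_111, kcg_112, kcg_116, kcg_126, kcg_131, kcg_134, kcg_147, kcg_156, kcg_159, kcg_171, kcg_176, kcg_180, kcg_186, kcg_187, kcg_188, kcg_208, kcg_227, kcg_228]
  rcases eq_or_lt_of_le h1 with h | h1
  · subst h
    ((try push_cast); (repeat first | rw [if_pos (by linarith)] | rw [if_neg (by linarith)] | erw [if_pos (by linarith)] | erw [if_neg (by linarith)]); (try push_cast); (try ring1))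
  rcases eq_or_lt_of_le h2 with h | h2
  · subst h
    ((try push_cast); (repeat first | rw [if_pos (by linarith)] | rw [if_neg (by linarith)] | erw [if_pos (by linarith)] | erw [if_neg (by linarith)]); (try push_cast); (try ring1))
  · ((try push_cast); (repeat first | rw [if_pos (by linarith)] | rw [if_neg (by linarith)] | erw [if_pos (by linarith)] | erw [if_neg (by linarith)]); (try push_cast); (try ring1))
theorem kvh0 {p x : ℝ} (h2 : p ≤ -2773 / 5677) : dt29.kv p x = (743878229162861 / 74368700000000 + (x - 5 / 128) * (173832358624051 / 7436870000000)) + (210069695032633 / 4648043750000 + (x - 5 / 128) * (175921718190019 / 1859217500000)) * p + (51776241 / 1000000 + (x - 5 / 128) * (1914719 / 20000)) * p ^ 2 := by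
  refine (DT.kv_le (by simp only [Cn.rt_v, Cn.ng_v]; push_cast; linarith)).trans ?_
  refine (DT.kv_le (by simp only [Cn.rt_v, Cn.ng_v]; push_cast; linarith)).trans ?_
  refine (DT.kv_le (by simp only [Cn.rt_v, Cn.ng_v]; push_cast; linarith)).trans ?_
  simp only [dt1, DT.kv, sw1, sl1, sv1]
  ((try push_cast); ring1)
theorem kvh1 {p x : ℝ} (h1 : -2773 / 5677 < p) (h2 : p ≤ -299 / 662) : dt29.kv p x = (28968621006153020237 / 3712619562300000000 + (x - 5 / 128) * (-986074466015057393 / 866277897870000000)) + (33588197395942538561 / 928154890575000000 + (x - 5 / 128) * (-248855412749977849 / 43313894893500000)) * p + (10639083 / 250000 + (x - 5 / 128) * (-140031 / 20000)) * p ^ 2 := by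
  refine (DT.kv_le (by simp only [Cn.rt_v, Cn.ng_v]; push_cast; linarith)).trans ?_
  refine (DT.kv_le (by simp only [Cn.rt_v, Cn.ng_v]; push_cast; linarith)).trans ?_
  refine (DT.kv_gt (by simp only [Cn.rt_v, Cn.ng_v]; push_cast; linarith)).trans ?_
  refine (DT.kv_le (by simp only [Cn.rt_v, Cn.ng_v]; push_cast; linarith)).trans ?_
  simp only [dt2, DT.kv, sw2, sl2, sv2]
  ((try push_cast); ring1)
theorem kvh2 {p x : ℝ} (h1 : -299 / 662 < p) (h2 : p ≤ -33 / 100) : dt29.kv p x = (-422055157761 / 83308562500 + (x - 5 / 128) * (-3862912897701 / 5331748000000)) + (-1386028527328639 / 66646850000000 + (x - 5 / 128) * (-52159807992891 / 13329370000000)) * p + (-10263559 / 500000 + (x - 5 / 128) * (-497321 / 100000)) * p ^ 2 := by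
  refine (DT.kv_le (by simp only [Cn.rt_v, Cn.ng_v]; push_cast; linarith)).trans ?_
  refine (DT.kv_le (by simp only [Cn.rt_v, Cn.ng_v]; push_cast; linarith)).trans ?_
  refine (DT.kv_gt (by simp only [Cn.rt_v, Cn.ng_v]; push_cast; linarith)).trans ?_
  refine (DT.kv_gt (by simp only [Cn.rt_v, Cn.ng_v]; push_cast; linarith)).trans ?_
  simp only [dt3, DT.kv, sw3, sl3, sv3]
  ((try push_cast); ring1)
theorem kvh3 {p x : ℝ} (h1 : -33 / 100 < p) (h2 : p ≤ -27 / 100) : dt29.kv p x = (8433560109 / 5000000000 + (x - 5 / 128) * (262114237 / 500000000)) + (50324837 / 2500000 + (x - 5 / 128) * (10964917 / 3000000)) * p + (20741399 / 500000 + (x - 5 / 128) * (162341 / 25000)) * p ^ 2 := by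
  refine (DT.kv_le (by simp only [Cn.rt_v, Cn.ng_v]; push_cast; linarith)).trans ?_
  refine (DT.kv_gt (by simp only [Cn.rt_v, Cn.ng_v]; push_cast; linarith)).trans ?_
  refine (DT.kv_le (by simp only [Cn.rt_v, Cn.ng_v]; push_cast; linarith)).trans ?_
  refine (DT.kv_le (by simp only [Cn.rt_v, Cn.ng_v]; push_cast; linarith)).trans ?_
  simp only [dt4, DT.kv, sw4, sl4, sv4]
  ((try push_cast); ring1)
theorem kvh4 {p x : ℝ} (h1 : -27 / 100 < p) (h2 : p ≤ -21 / 100) : dt29.kv p x = (11972639451 / 5000000000 + (x - 5 / 128) * (-35444623 / 250000000)) + (1902976141 / 75000000 + (x - 5 / 128) * (-19176197 / 15000000)) * p + (25596103 / 500000 + (x - 5 / 128) * (-132113 / 50000)) * p ^ 2 := by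
  refine (DT.kv_le (by simp only [Cn.rt_v, Cn.ng_v]; push_cast; linarith)).trans ?_
  refine (DT.kv_gt (by simp only [Cn.rt_v, Cn.ng_v]; push_cast; linarith)).trans ?_
  refine (DT.kv_le (by simp only [Cn.rt_v, Cn.ng_v]; push_cast; linarith)).trans ?_
  refine (DT.kv_gt (by simp only [Cn.rt_v, Cn.ng_v]; push_cast; linarith)).trans ?_
  simp only [dt5, DT.kv, sw5, sl5, sv5]
  ((try push_cast); ring1)
theorem kvh5 {p x : ℝ} (h1 : -21 / 100 < p) (h2 : p ≤ -3 / 20) : dt29.kv p x = (603926279 / 400000000 + (x - 5 / 128) * (242323 / 100000000)) + (21183981 / 1250000 + (x - 5 / 128) * (89003 / 937500)) * p + (6226141 / 200000 + (x - 5 / 128) * (31381 / 50000)) * p ^ 2 := by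
  refine (DT.kv_le (by simp only [Cn.rt_v, Cn.ng_v]; push_cast; linarith)).trans ?_
  refine (DT.kv_gt (by simp only [Cn.rt_v, Cn.ng_v]; push_cast; linarith)).trans ?_
  refine (DT.kv_gt (by simp only [Cn.rt_v, Cn.ng_v]; push_cast; linarith)).trans ?_
  refine (DT.kv_le (by simp only [Cn.rt_v, Cn.ng_v]; push_cast; linarith)).trans ?_
  simp only [dt6, DT.kv, sw6, sl6, sv6]
  ((try push_cast); ring1)
theorem kvh6 {p x : ℝ} (h1 : -3 / 20 < p) (h2 : p ≤ -1 / 16) : dt29.kv p x = (-952205669 / 5600000000 + (x - 5 / 128) * (110099 / 44800000)) + (-61049491 / 11200000 + (x - 5 / 128) * (5342117 / 56000000)) * p + (-21764701 / 500000 + (x - 5 / 128) * (12583 / 20000)) * p ^ 2 := by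
  refine (DT.kv_le (by simp only [Cn.rt_v, Cn.ng_v]; push_cast; linarith)).trans ?_
  refine (DT.kv_gt (by simp only [Cn.rt_v, Cn.ng_v]; push_cast; linarith)).trans ?_
  refine (DT.kv_gt (by simp only [Cn.rt_v, Cn.ng_v]; push_cast; linarith)).trans ?_
  refine (DT.kv_gt (by simp only [Cn.rt_v, Cn.ng_v]; push_cast; linarith)).trans ?_
  simp only [dt7, DT.kv, sw7, sl7, sv7]
  ((try push_cast); ring1)
theorem kvh7 {p x : ℝ} (h1 : -1 / 16 < p) (h2 : p ≤ 1 / 16) : dt29.kv p x = (0) + (-60451 / 6250000 + (x - 5 / 128) * (1047 / 62500)) * p := by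
  refine (DT.kv_gt (by simp only [Cn.rt_v, Cn.ng_v]; push_cast; linarith)).trans ?_
  refine (DT.kv_le (by simp only [Cn.rt_v, Cn.ng_v]; push_cast; linarith)).trans ?_
  refine (DT.kv_le (by simp only [Cn.rt_v, Cn.ng_v]; push_cast; linarith)).trans ?_
  refine (DT.kv_le (by simp only [Cn.rt_v, Cn.ng_v]; push_cast; linarith)).trans ?_
  simp only [dt8, DT.kv, sl8, sv8]
  ((try push_cast); ring1)
theorem kvh8 {p x : ℝ} (h1 : 1 / 16 < p) (h2 : p ≤ 3 / 20) : dt29.kv p x = (952205669 / 5600000000 + (x - 5 / 128) * (-110099 / 44800000)) + (-61049491 / 11200000 + (x - 5 / 128) * (5342117 / 56000000)) * p + (21764701 / 500000 + (x - 5 / 128) * (-12583 / 20000)) * p ^ 2 := by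
  refine (DT.kv_gt (by simp only [Cn.rt_v, Cn.ng_v]; push_cast; linarith)).trans ?_
  refine (DT.kv_le (by simp only [Cn.rt_v, Cn.ng_v]; push_cast; linarith)).trans ?_
  refine (DT.kv_le (by simp only [Cn.rt_v, Cn.ng_v]; push_cast; linarith)).trans ?_
  refine (DT.kv_gt (by simp only [Cn.rt_v, Cn.ng_v]; push_cast; linarith)).trans ?_
  simp only [dt9, DT.kv, sw9, sl9, sv9]
  ((try push_cast); ring1)
theorem kvh9 {p x : ℝ} (h1 : 3 / 20 < p) (h2 : p ≤ 21 / 100) : dt29.kv p x = (-603926279 / 400000000 + (x - 5 / 128) * (-242323 / 100000000)) + (21183981 / 1250000 + (x - 5 / 128) * (89003 / 937500)) * p + (-6226141 / 200000 + (x - 5 / 128) * (-31381 / 50000)) * p ^ 2 := by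
  refine (DT.kv_gt (by simp only [Cn.rt_v, Cn.ng_v]; push_cast; linarith)).trans ?_
  refine (DT.kv_le (by simp only [Cn.rt_v, Cn.ng_v]; push_cast; linarith)).trans ?_
  refine (DT.kv_gt (by simp only [Cn.rt_v, Cn.ng_v]; push_cast; linarith)).trans ?_
  refine (DT.kv_le (by simp only [Cn.rt_v, Cn.ng_v]; push_cast; linarith)).trans ?_
  simp only [dt10, DT.kv, sw10, sl10, sv10]
  ((try push_cast); ring1)
theorem kvh10 {p x : ℝ} (h1 : 21 / 100 < p) (h2 : p ≤ 27 / 100) : dt29.kv p x = (-11972639451 / 5000000000 + (x - 5 / 128) * (35444623 / 250000000)) + (1902976141 / 75000000 + (x - 5 / 128) * (-19176197 / 15000000)) * p + (-25596103 / 500000 + (x - 5 / 128) * (132113 / 50000)) * p ^ 2 := by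
  refine (DT.kv_gt (by simp only [Cn.rt_v, Cn.ng_v]; push_cast; linarith)).trans ?_
  refine (DT.kv_le (by simp only [Cn.rt_v, Cn.ng_v]; push_cast; linarith)).trans ?_
  refine (DT.kv_gt (by simp only [Cn.rt_v, Cn.ng_v]; push_cast; linarith)).trans ?_
  refine (DT.kv_gt (by simp only [Cn.rt_v, Cn.ng_v]; push_cast; linarith)).trans ?_
  simp only [dt11, DT.kv, sw11, sl11, sv11]
  ((try push_cast); ring1)
theorem kvh11 {p x : ℝ} (h1 : 27 / 100 < p) (h2 : p ≤ 33 / 100) : dt29.kv p x = (-8433560109 / 5000000000 + (x - 5 / 128) * (-262114237 / 500000000)) + (50324837 / 2500000 + (x - 5 / 128) * (10964917 / 3000000)) * p + (-20741399 / 500000 + (x - 5 / 128) * (-162341 / 25000)) * p ^ 2 := by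
  refine (DT.kv_gt (by simp only [Cn.rt_v, Cn.ng_v]; push_cast; linarith)).trans ?_
  refine (DT.kv_gt (by simp only [Cn.rt_v, Cn.ng_v]; push_cast; linarith)).trans ?_
  refine (DT.kv_le (by simp only [Cn.rt_v, Cn.ng_v]; push_cast; linarith)).trans ?_
  refine (DT.kv_le (by simp only [Cn.rt_v, Cn.ng_v]; push_cast; linarith)).trans ?_
  simp only [dt12, DT.kv, sw12, sl12, sv12]
  ((try push_cast); ring1)
theorem kvh12 {p x : ℝ} (h1 : 33 / 100 < p) (h2 : p ≤ 299 / 662) : dt29.kv p x = (422055157761 / 83308562500 + (x - 5 / 128) * (3862912897701 / 5331748000000)) + (-1386028527328639 / 66646850000000 + (x - 5 / 128) * (-52159807992891 / 13329370000000)) * p + (10263559 / 500000 + (x - 5 / 128) * (497321 / 100000)) * p ^ 2 := by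
  refine (DT.kv_gt (by simp only [Cn.rt_v, Cn.ng_v]; push_cast; linarith)).trans ?_
  refine (DT.kv_gt (by simp only [Cn.rt_v, Cn.ng_v]; push_cast; linarith)).trans ?_
  refine (DT.kv_le (by simp only [Cn.rt_v, Cn.ng_v]; push_cast; linarith)).trans ?_
  refine (DT.kv_gt (by simp only [Cn.rt_v, Cn.ng_v]; push_cast; linarith)).trans ?_
  simp only [dt13, DT.kv, sw13, sl13, sv13]
  ((try push_cast); ring1)
theorem kvh13 {p x : ℝ} (h1 : 299 / 662 < p) (h2 : p ≤ 2773 / 5677) : dt29.kv p x = (-28968621006153020237 / 3712619562300000000 + (x - 5 / 128) * (986074466015057393 / 866277897870000000)) + (33588197395942538561 / 928154890575000000 + (x - 5 / 128) * (-248855412749977849 / 43313894893500000)) * p + (-10639083 / 250000 + (x - 5 / 128) * (140031 / 20000)) * p ^ 2 := by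
  refine (DT.kv_gt (by simp only [Cn.rt_v, Cn.ng_v]; push_cast; linarith)).trans ?_
  refine (DT.kv_gt (by simp only [Cn.rt_v, Cn.ng_v]; push_cast; linarith)).trans ?_
  refine (DT.kv_gt (by simp only [Cn.rt_v, Cn.ng_v]; push_cast; linarith)).trans ?_
  refine (DT.kv_le (by simp only [Cn.rt_v, Cn.ng_v]; push_cast; linarith)).trans ?_
  simp only [dt14, DT.kv, sw14, sl14, sv14]
  ((try push_cast); ring1)
theorem kvh14 {p x : ℝ} (h1 : 2773 / 5677 < p) (h2 : p ≤ 1 / 2) : dt29.kv p x = (-743878229162861 / 74368700000000 + (x - 5 / 128) * (-173832358624051 / 7436870000000)) + (210069695032633 / 4648043750000 + (x - 5 / 128) * (175921718190019 / 1859217500000)) * p + (-51776241 / 1000000 + (x - 5 / 128) * (-1914719 / 20000)) * p ^ 2 := by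
  refine (DT.kv_gt (by simp only [Cn.rt_v, Cn.ng_v]; push_cast; linarith)).trans ?_
  refine (DT.kv_gt (by simp only [Cn.rt_v, Cn.ng_v]; push_cast; linarith)).trans ?_
  refine (DT.kv_gt (by simp only [Cn.rt_v, Cn.ng_v]; push_cast; linarith)).trans ?_
  refine (DT.kv_gt (by simp only [Cn.rt_v, Cn.ng_v]; push_cast; linarith)).trans ?_
  simp only [dt15, DT.kv, sw15, sl15, sv15]
  ((try push_cast); ring1)
theorem kvl0 {p x : ℝ} (h1 : -1 / 2 ≤ p) (h2 : p ≤ -2773 / 5677) : dt29.kv p x = (743878229162861 / 74368700000000 + (x - 5 / 128) * (173832358624051 / 7436870000000)) + (210069695032633 / 4648043750000 + (x - 5 / 128) * (175921718190019 / 1859217500000)) * p + (51776241 / 1000000 + (x - 5 / 128) * (1914719 / 20000)) * p ^ 2 := by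
  exact kvh0 h2
theorem kvl1 {p x : ℝ} (h1 : -2773 / 5677 ≤ p) (h2 : p ≤ -299 / 662) : dt29.kv p x = (28968621006153020237 / 3712619562300000000 + (x - 5 / 128) * (-986074466015057393 / 866277897870000000)) + (33588197395942538561 / 928154890575000000 + (x - 5 / 128) * (-248855412749977849 / 43313894893500000)) * p + (10639083 / 250000 + (x - 5 / 128) * (-140031 / 20000)) * p ^ 2 := by
  rcases eq_or_lt_of_le h1 with h | h1
  · subst h
    rw [kvh0 (by norm_num)]
    ring1
  · exact kvh1 h1 h2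
theorem kvl2 {p x : ℝ} (h1 : -299 / 662 ≤ p) (h2 : p ≤ -33 / 100) : dt29.kv p x = (-422055157761 / 83308562500 + (x - 5 / 128) * (-3862912897701 / 5331748000000)) + (-1386028527328639 / 66646850000000 + (x - 5 / 128) * (-52159807992891 / 13329370000000)) * p + (-10263559 / 500000 + (x - 5 / 128) * (-497321 / 100000)) * p ^ 2 := by
  rcases eq_or_lt_of_le h1 with h | h1
  · subst h
    rw [kvh1 (by norm_num) (by norm_num)]
    ring1
  · exact kvh2 h1 h2
theorem kvl3 {p x : ℝ} (h1 : -33 / 100 ≤ p) (h2 : p ≤ -27 / 100) : dt29.kv p x = (8433560109 / 5000000000 + (x - 5 / 128) * (262114237 / 500000000)) + (50324837 / 2500000 + (x - 5 / 128) * (10964917 / 3000000)) * p + (20741399 / 500000 + (x - 5 / 128) * (162341 / 25000)) * p ^ 2 := by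
  rcases eq_or_lt_of_le h1 with h | h1
  · subst h
    rw [kvh2 (by norm_num) (by norm_num)]
    ring1
  · exact kvh3 h1 h2
theorem kvl4 {p x : ℝ} (h1 : -27 / 100 ≤ p) (h2 : p ≤ -21 / 100) : dt29.kv p x = (11972639451 / 5000000000 + (x - 5 / 128) * (-35444623 / 250000000)) + (1902976141 / 75000000 + (x - 5 / 128) * (-19176197 / 15000000)) * p + (25596103 / 500000 + (x - 5 / 128) * (-132113 / 50000)) * p ^ 2 := by
  rcases eq_or_lt_of_le h1 with h | h1
  · subst h
    rw [kvh3 (by norm_num) (by norm_num)]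
    ring1
  · exact kvh4 h1 h2
theorem kvl5 {p x : ℝ} (h1 : -21 / 100 ≤ p) (h2 : p ≤ -3 / 20) : dt29.kv p x = (603926279 / 400000000 + (x - 5 / 128) * (242323 / 100000000)) + (21183981 / 1250000 + (x - 5 / 128) * (89003 / 937500)) * p + (6226141 / 200000 + (x - 5 / 128) * (31381 / 50000)) * p ^ 2 := by
  rcases eq_or_lt_of_le h1 with h | h1
  · subst h
    rw [kvh4 (by norm_num) (by norm_num)]
    ring1
  · exact kvh5 h1 h2
theorem kvl6 {p x : ℝ} (h1 : -3 / 20 ≤ p) (h2 : p ≤ -1 / 16) : dt29.kv p x = (-952205669 / 5600000000 + (x - 5 / 128) * (110099 / 44800000)) + (-61049491 / 11200000 + (x - 5 / 128) * (5342117 / 56000000)) * p + (-21764701 / 500000 + (x - 5 / 128) * (12583 / 20000)) * p ^ 2 := by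
  rcases eq_or_lt_of_le h1 with h | h1
  · subst h
    rw [kvh5 (by norm_num) (by norm_num)]
    ring1
  · exact kvh6 h1 h2
theorem kvl7 {p x : ℝ} (h1 : -1 / 16 ≤ p) (h2 : p ≤ 1 / 16) : dt29.kv p x = (0) + (-60451 / 6250000 + (x - 5 / 128) * (1047 / 62500)) * p := by
  rcases eq_or_lt_of_le h1 with h | h1
  · subst h
    rw [kvh6 (by norm_num) (by norm_num)]
    ring1
  · exact kvh7 h1 h2
theorem kvl8 {p x : ℝ} (h1 : 1 / 16 ≤ p) (h2 : p ≤ 3 / 20) : dt29.kv p x = (952205669 / 5600000000 + (x - 5 / 128) * (-110099 / 44800000)) + (-61049491 / 11200000 + (x - 5 / 128) * (5342117 / 56000000)) * p + (21764701 / 500000 + (x - 5 / 128) * (-12583 / 20000)) * p ^ 2 := by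
  rcases eq_or_lt_of_le h1 with h | h1
  · subst h
    rw [kvh7 (by norm_num) (by norm_num)]
    ring1
  · exact kvh8 h1 h2
theorem kvl9 {p x : ℝ} (h1 : 3 / 20 ≤ p) (h2 : p ≤ 21 / 100) : dt29.kv p x = (-603926279 / 400000000 + (x - 5 / 128) * (-242323 / 100000000)) + (21183981 / 1250000 + (x - 5 / 128) * (89003 / 937500)) * p + (-6226141 / 200000 + (x - 5 / 128) * (-31381 / 50000)) * p ^ 2 := by
  rcases eq_or_lt_of_le h1 with h | h1
  · subst h
    rw [kvh8 (by norm_num) (by norm_num)]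
    ring1
  · exact kvh9 h1 h2
theorem kvl10 {p x : ℝ} (h1 : 21 / 100 ≤ p) (h2 : p ≤ 27 / 100) : dt29.kv p x = (-11972639451 / 5000000000 + (x - 5 / 128) * (35444623 / 250000000)) + (1902976141 / 75000000 + (x - 5 / 128) * (-19176197 / 15000000)) * p + (-25596103 / 500000 + (x - 5 / 128) * (132113 / 50000)) * p ^ 2 := by
  rcases eq_or_lt_of_le h1 with h | h1
  · subst h
    rw [kvh9 (by norm_num) (by norm_num)]
    ring1
  · exact kvh10 h1 h2
theorem kvl11 {p x : ℝ} (h1 : 27 / 100 ≤ p) (h2 : p ≤ 33 / 100) : dt29.kv p x = (-8433560109 / 5000000000 + (x - 5 / 128) * (-262114237 / 500000000)) + (50324837 / 2500000 + (x - 5 / 128) * (10964917 / 3000000)) * p + (-20741399 / 500000 + (x - 5 / 128) * (-162341 / 25000)) * p ^ 2 := by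
  rcases eq_or_lt_of_le h1 with h | h1
  · subst h
    rw [kvh10 (by norm_num) (by norm_num)]
    ring1
  · exact kvh11 h1 h2
theorem kvl12 {p x : ℝ} (h1 : 33 / 100 ≤ p) (h2 : p ≤ 299 / 662) : dt29.kv p x = (422055157761 / 83308562500 + (x - 5 / 128) * (3862912897701 / 5331748000000)) + (-1386028527328639 / 66646850000000 + (x - 5 / 128) * (-52159807992891 / 13329370000000)) * p + (10263559 / 500000 + (x - 5 / 128) * (497321 / 100000)) * p ^ 2 := by
  rcases eq_or_lt_of_le h1 with h | h1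
  · subst h
    rw [kvh11 (by norm_num) (by norm_num)]
    ring1
  · exact kvh12 h1 h2
theorem kvl13 {p x : ℝ} (h1 : 299 / 662 ≤ p) (h2 : p ≤ 2773 / 5677) : dt29.kv p x = (-28968621006153020237 / 3712619562300000000 + (x - 5 / 128) * (986074466015057393 / 866277897870000000)) + (33588197395942538561 / 928154890575000000 + (x - 5 / 128) * (-248855412749977849 / 43313894893500000)) * p + (-10639083 / 250000 + (x - 5 / 128) * (140031 / 20000)) * p ^ 2 := by
  rcases eq_or_lt_of_le h1 with h | h1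
  · subst h
    rw [kvh12 (by norm_num) (by norm_num)]
    ring1
  · exact kvh13 h1 h2
theorem kvl14 {p x : ℝ} (h1 : 2773 / 5677 ≤ p) (h2 : p ≤ 1 / 2) : dt29.kv p x = (-743878229162861 / 74368700000000 + (x - 5 / 128) * (-173832358624051 / 7436870000000)) + (210069695032633 / 4648043750000 + (x - 5 / 128) * (175921718190019 / 1859217500000)) * p + (-51776241 / 1000000 + (x - 5 / 128) * (-1914719 / 20000)) * p ^ 2 := by
  rcases eq_or_lt_of_le h1 with h | h1
  · subst h
    rw [kvh13 (by norm_num) (by norm_num)]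
    ring1
  · exact kvh14 h1 h2
theorem kfe {x p : ℝ} (h : |p| ≤ 1 / 2) : kcg.v p x = dt29.kv p x := by
  obtain ⟨h1, h2⟩ := abs_le.1 h
  rcases le_total p (-2773 / 5677) with g0 | g1000
  · rw [kcl0 (by linarith) g0, kvl0 (by linarith) g0]
  rcases le_total p (-299 / 662) with g1 | g1001
  · rw [kcl1 g1000 g1, kvl1 g1000 g1]
  rcases le_total p (-33 / 100) with g2 | g1002
  · rw [kcl2 g1001 g2, kvl2 g1001 g2]
  rcases le_total p (-27 / 100) with g3 | g1003
  · rw [kcl3 g1002 g3, kvl3 g1002 g3]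
  rcases le_total p (-21 / 100) with g4 | g1004
  · rw [kcl4 g1003 g4, kvl4 g1003 g4]
  rcases le_total p (-3 / 20) with g5 | g1005
  · rw [kcl5 g1004 g5, kvl5 g1004 g5]
  rcases le_total p (-1 / 16) with g6 | g1006
  · rw [kcl6 g1005 g6, kvl6 g1005 g6]
  rcases le_total p (1 / 16) with g7 | g1007
  · rw [kcl7 g1006 g7, kvl7 g1006 g7]
  rcases le_total p (3 / 20) with g8 | g1008
  · rw [kcl8 g1007 g8, kvl8 g1007 g8]
  rcases le_total p (21 / 100) with g9 | g1009
  · rw [kcl9 g1008 g9, kvl9 g1008 g9]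
  rcases le_total p (27 / 100) with g10 | g1010
  · rw [kcl10 g1009 g10, kvl10 g1009 g10]
  rcases le_total p (33 / 100) with g11 | g1011
  · rw [kcl11 g1010 g11, kvl11 g1010 g11]
  rcases le_total p (299 / 662) with g12 | g1012
  · rw [kcl12 g1011 g12, kvl12 g1011 g12]
  rcases le_total p (2773 / 5677) with g13 | g1013
  · rw [kcl13 g1012 g13, kvl13 g1012 g13]
  · rw [kcl14 g1013 (by linarith), kvl14 g1013 (by linarith)]
theorem odd {x p : ℝ} (h : |p| ≤ 1 / 2) : kcg.v (-p) x = -kcg.v p x := by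
  obtain ⟨h1, h2⟩ := abs_le.1 h
  rcases le_total p (-2773 / 5677) with g0 | g1000
  · rw [kcl0 (by linarith) g0, kcl14 (p := -p) (by linarith) (by linarith)]; ring
  rcases le_total p (-299 / 662) with g1 | g1001
  · rw [kcl1 g1000 g1, kcl13 (p := -p) (by linarith) (by linarith)]; ring
  rcases le_total p (-33 / 100) with g2 | g1002
  · rw [kcl2 g1001 g2, kcl12 (p := -p) (by linarith) (by linarith)]; ring
  rcases le_total p (-27 / 100) with g3 | g1003
  · rw [kcl3 g1002 g3, kcl11 (p := -p) (by linarith) (by linarith)]; ring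
  rcases le_total p (-21 / 100) with g4 | g1004
  · rw [kcl4 g1003 g4, kcl10 (p := -p) (by linarith) (by linarith)]; ring
  rcases le_total p (-3 / 20) with g5 | g1005
  · rw [kcl5 g1004 g5, kcl9 (p := -p) (by linarith) (by linarith)]; ring
  rcases le_total p (-1 / 16) with g6 | g1006
  · rw [kcl6 g1005 g6, kcl8 (p := -p) (by linarith) (by linarith)]; ring
  rcases le_total p (1 / 16) with g7 | g1007
  · rw [kcl7 g1006 g7, kcl7 (p := -p) (by linarith) (by linarith)]; ring
  rcases le_total p (3 / 20) with g8 | g1008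
  · rw [kcl8 g1007 g8, kcl6 (p := -p) (by linarith) (by linarith)]; ring
  rcases le_total p (21 / 100) with g9 | g1009
  · rw [kcl9 g1008 g9, kcl5 (p := -p) (by linarith) (by linarith)]; ring
  rcases le_total p (27 / 100) with g10 | g1010
  · rw [kcl10 g1009 g10, kcl4 (p := -p) (by linarith) (by linarith)]; ring
  rcases le_total p (33 / 100) with g11 | g1011
  · rw [kcl11 g1010 g11, kcl3 (p := -p) (by linarith) (by linarith)]; ring
  rcases le_total p (299 / 662) with g12 | g1012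
  · rw [kcl12 g1011 g12, kcl2 (p := -p) (by linarith) (by linarith)]; ring
  rcases le_total p (2773 / 5677) with g13 | g1013
  · rw [kcl13 g1012 g13, kcl1 (p := -p) (by linarith) (by linarith)]; ring
  · rw [kcl14 g1013 (by linarith), kcl0 (p := -p) (by linarith) (by linarith)]; ring
theorem ctA : cT (-2773 / 5677) = 11353 / 11354 := by
  unfold cT
  rw [show (3 / 4 * (1 - (-2773 / 5677 : ℝ) ^ 2)) = (4290 / 5677) ^ 2 by norm_num, Real.sqrt_sq (by norm_num)]
  norm_num
theorem ctB : cT (-299 / 662) = 661 / 662 := by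
  unfold cT
  rw [show (3 / 4 * (1 - (-299 / 662 : ℝ) ^ 2)) = (1023 / 1324) ^ 2 by norm_num, Real.sqrt_sq (by norm_num)]
  norm_num
theorem kgA {x : ℝ} : kcg.v (-2773 / 5677) x = (27994847 / 100000000 + (x - 5 / 128) * (-24179 / 10000000)) := by
  rw [kcl0 (by norm_num) (by norm_num)]
  ring
theorem kgB {x : ℝ} : kcg.v (-299 / 662) x = (13936713 / 100000000 + (x - 5 / 128) * (35477 / 1250000)) := by
  rw [kcl1 (by norm_num) (by norm_num)]
  ring
theorem ka_dt1 (x : ℝ) : dt1.kv (-1 / 2) x = (8724639 / 25000000 + (x - 5 / 128) * (-11513 / 5000000)) := by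
  simp only [dt1, DT.kv, sw1, sl1, sv1]
  ((try push_cast); ring1)
theorem kb_dt1 (x : ℝ) : dt1.kv (-2773 / 5677) x = (27994847 / 100000000 + (x - 5 / 128) * (-24179 / 10000000)) := by
  simp only [dt1, DT.kv, sw1, sl1, sv1]
  ((try push_cast); ring1)
theorem ka_dt2 (x : ℝ) : dt2.kv (-2773 / 5677) x = (27994847 / 100000000 + (x - 5 / 128) * (-24179 / 10000000)) := by
  simp only [dt2, DT.kv, sw2, sl2, sv2]
  ((try push_cast); ring1)
theorem kb_dt2 (x : ℝ) : dt2.kv (-299 / 662) x = (13936713 / 100000000 + (x - 5 / 128) * (35477 / 1250000)) := by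
  simp only [dt2, DT.kv, sw2, sl2, sv2]
  ((try push_cast); ring1)
theorem ka_dt3 (x : ℝ) : dt3.kv (-299 / 662) x = (13936713 / 100000000 + (x - 5 / 128) * (35477 / 1250000)) := by
  simp only [dt3, DT.kv, sw3, sl3, sv3]
  ((try push_cast); ring1)
theorem kb_dt3 (x : ℝ) : dt3.kv (-33 / 100) x = (-2741811 / 6250000 + (x - 5 / 128) * (5049 / 200000)) := by
  simp only [dt3, DT.kv, sw3, sl3, sv3]
  ((try push_cast); ring1)
theorem ka_dt16 (x : ℝ) : dt16.kv (-2773 / 5677) x = (27994847 / 100000000 + (x - 5 / 128) * (-24179 / 10000000)) :=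
  (DT.kv_le (by simp only [Cn.rt_v, Cn.ng_v]; norm_num)).trans (ka_dt2 x)
theorem kb_dt16 (x : ℝ) : dt16.kv (-33 / 100) x = (-2741811 / 6250000 + (x - 5 / 128) * (5049 / 200000)) :=
  (DT.kv_gt (by simp only [Cn.rt_v, Cn.ng_v]; norm_num)).trans (kb_dt3 x)
theorem ka_dt17 (x : ℝ) : dt17.kv (-1 / 2) x = (8724639 / 25000000 + (x - 5 / 128) * (-11513 / 5000000)) :=
  (DT.kv_le (by simp only [Cn.rt_v, Cn.ng_v]; norm_num)).trans (ka_dt1 x)
theorem kb_dt17 (x : ℝ) : dt17.kv (-33 / 100) x = (-2741811 / 6250000 + (x - 5 / 128) * (5049 / 200000)) :=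
  (DT.kv_gt (by simp only [Cn.rt_v, Cn.ng_v]; norm_num)).trans (kb_dt16 x)
theorem ka_dt4 (x : ℝ) : dt4.kv (-33 / 100) x = (-2741811 / 6250000 + (x - 5 / 128) * (5049 / 200000)) := by
  simp only [dt4, DT.kv, sw4, sl4, sv4]
  ((try push_cast); ring1)
theorem kb_dt4 (x : ℝ) : dt4.kv (-27 / 100) x = (-905343 / 1250000 + (x - 5 / 128) * (107723 / 10000000)) := by
  simp only [dt4, DT.kv, sw4, sl4, sv4]
  ((try push_cast); ring1)
theorem ka_dt5 (x : ℝ) : dt5.kv (-27 / 100) x = (-905343 / 1250000 + (x - 5 / 128) * (107723 / 10000000)) := by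
  simp only [dt5, DT.kv, sw5, sl5, sv5]
  ((try push_cast); ring1)
theorem kb_dt5 (x : ℝ) : dt5.kv (-21 / 100) x = (-33811451 / 50000000 + (x - 5 / 128) * (50823 / 5000000)) := by
  simp only [dt5, DT.kv, sw5, sl5, sv5]
  ((try push_cast); ring1)
theorem ka_dt18 (x : ℝ) : dt18.kv (-33 / 100) x = (-2741811 / 6250000 + (x - 5 / 128) * (5049 / 200000)) :=
  (DT.kv_le (by simp only [Cn.rt_v, Cn.ng_v]; norm_num)).trans (ka_dt4 x)
theorem kb_dt18 (x : ℝ) : dt18.kv (-21 / 100) x = (-33811451 / 50000000 + (x - 5 / 128) * (50823 / 5000000)) :=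
  (DT.kv_gt (by simp only [Cn.rt_v, Cn.ng_v]; norm_num)).trans (kb_dt5 x)
theorem ka_dt6 (x : ℝ) : dt6.kv (-21 / 100) x = (-33811451 / 50000000 + (x - 5 / 128) * (50823 / 5000000)) := by
  simp only [dt6, DT.kv, sw6, sl6, sv6]
  ((try push_cast); ring1)
theorem kb_dt6 (x : ℝ) : dt6.kv (-3 / 20) x = (-8295529 / 25000000 + (x - 5 / 128) * (11521 / 5000000)) := by
  simp only [dt6, DT.kv, sw6, sl6, sv6]
  ((try push_cast); ring1)
theorem ka_dt7 (x : ℝ) : dt7.kv (-3 / 20) x = (-8295529 / 25000000 + (x - 5 / 128) * (11521 / 5000000)) := by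
  simp only [dt7, DT.kv, sw7, sl7, sv7]
  ((try push_cast); ring1)
theorem kb_dt7 (x : ℝ) : dt7.kv (-1 / 16) x = (60451 / 100000000 + (x - 5 / 128) * (-1047 / 1000000)) := by
  simp only [dt7, DT.kv, sw7, sl7, sv7]
  ((try push_cast); ring1)
theorem ka_dt19 (x : ℝ) : dt19.kv (-21 / 100) x = (-33811451 / 50000000 + (x - 5 / 128) * (50823 / 5000000)) :=
  (DT.kv_le (by simp only [Cn.rt_v, Cn.ng_v]; norm_num)).trans (ka_dt6 x)
theorem kb_dt19 (x : ℝ) : dt19.kv (-1 / 16) x = (60451 / 100000000 + (x - 5 / 128) * (-1047 / 1000000)) :=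
  (DT.kv_gt (by simp only [Cn.rt_v, Cn.ng_v]; norm_num)).trans (kb_dt7 x)
theorem ka_dt20 (x : ℝ) : dt20.kv (-33 / 100) x = (-2741811 / 6250000 + (x - 5 / 128) * (5049 / 200000)) :=
  (DT.kv_le (by simp only [Cn.rt_v, Cn.ng_v]; norm_num)).trans (ka_dt18 x)
theorem kb_dt20 (x : ℝ) : dt20.kv (-1 / 16) x = (60451 / 100000000 + (x - 5 / 128) * (-1047 / 1000000)) :=
  (DT.kv_gt (by simp only [Cn.rt_v, Cn.ng_v]; norm_num)).trans (kb_dt19 x)
theorem ka_dt21 (x : ℝ) : dt21.kv (-1 / 2) x = (8724639 / 25000000 + (x - 5 / 128) * (-11513 / 5000000)) :=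
  (DT.kv_le (by simp only [Cn.rt_v, Cn.ng_v]; norm_num)).trans (ka_dt17 x)
theorem kb_dt21 (x : ℝ) : dt21.kv (-1 / 16) x = (60451 / 100000000 + (x - 5 / 128) * (-1047 / 1000000)) :=
  (DT.kv_gt (by simp only [Cn.rt_v, Cn.ng_v]; norm_num)).trans (kb_dt20 x)
theorem ka_dt8 (x : ℝ) : dt8.kv (-1 / 16) x = (60451 / 100000000 + (x - 5 / 128) * (-1047 / 1000000)) := by
  simp only [dt8, DT.kv, sl8, sv8]
  ((try push_cast); ring1)
theorem kb_dt8 (x : ℝ) : dt8.kv (1 / 16) x = (-60451 / 100000000 + (x - 5 / 128) * (1047 / 1000000)) := by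
  simp only [dt8, DT.kv, sl8, sv8]
  ((try push_cast); ring1)
theorem ka_dt9 (x : ℝ) : dt9.kv (1 / 16) x = (-60451 / 100000000 + (x - 5 / 128) * (1047 / 1000000)) := by
  simp only [dt9, DT.kv, sw9, sl9, sv9]
  ((try push_cast); ring1)
theorem kb_dt9 (x : ℝ) : dt9.kv (3 / 20) x = (8295529 / 25000000 + (x - 5 / 128) * (-11521 / 5000000)) := by
  simp only [dt9, DT.kv, sw9, sl9, sv9]
  ((try push_cast); ring1)
theorem ka_dt22 (x : ℝ) : dt22.kv (-1 / 16) x = (60451 / 100000000 + (x - 5 / 128) * (-1047 / 1000000)) :=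
  (DT.kv_le (by simp only [Cn.rt_v, Cn.ng_v]; norm_num)).trans (ka_dt8 x)
theorem kb_dt22 (x : ℝ) : dt22.kv (3 / 20) x = (8295529 / 25000000 + (x - 5 / 128) * (-11521 / 5000000)) :=
  (DT.kv_gt (by simp only [Cn.rt_v, Cn.ng_v]; norm_num)).trans (kb_dt9 x)
theorem ka_dt10 (x : ℝ) : dt10.kv (3 / 20) x = (8295529 / 25000000 + (x - 5 / 128) * (-11521 / 5000000)) := by
  simp only [dt10, DT.kv, sw10, sl10, sv10]
  ((try push_cast); ring1)
theorem kb_dt10 (x : ℝ) : dt10.kv (21 / 100) x = (33811451 / 50000000 + (x - 5 / 128) * (-50823 / 5000000)) := by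
  simp only [dt10, DT.kv, sw10, sl10, sv10]
  ((try push_cast); ring1)
theorem ka_dt11 (x : ℝ) : dt11.kv (21 / 100) x = (33811451 / 50000000 + (x - 5 / 128) * (-50823 / 5000000)) := by
  simp only [dt11, DT.kv, sw11, sl11, sv11]
  ((try push_cast); ring1)
theorem kb_dt11 (x : ℝ) : dt11.kv (27 / 100) x = (905343 / 1250000 + (x - 5 / 128) * (-107723 / 10000000)) := by
  simp only [dt11, DT.kv, sw11, sl11, sv11]
  ((try push_cast); ring1)
theorem ka_dt23 (x : ℝ) : dt23.kv (3 / 20) x = (8295529 / 25000000 + (x - 5 / 128) * (-11521 / 5000000)) :=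
  (DT.kv_le (by simp only [Cn.rt_v, Cn.ng_v]; norm_num)).trans (ka_dt10 x)
theorem kb_dt23 (x : ℝ) : dt23.kv (27 / 100) x = (905343 / 1250000 + (x - 5 / 128) * (-107723 / 10000000)) :=
  (DT.kv_gt (by simp only [Cn.rt_v, Cn.ng_v]; norm_num)).trans (kb_dt11 x)
theorem ka_dt24 (x : ℝ) : dt24.kv (-1 / 16) x = (60451 / 100000000 + (x - 5 / 128) * (-1047 / 1000000)) :=
  (DT.kv_le (by simp only [Cn.rt_v, Cn.ng_v]; norm_num)).trans (ka_dt22 x)
theorem kb_dt24 (x : ℝ) : dt24.kv (27 / 100) x = (905343 / 1250000 + (x - 5 / 128) * (-107723 / 10000000)) :=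
  (DT.kv_gt (by simp only [Cn.rt_v, Cn.ng_v]; norm_num)).trans (kb_dt23 x)
theorem ka_dt12 (x : ℝ) : dt12.kv (27 / 100) x = (905343 / 1250000 + (x - 5 / 128) * (-107723 / 10000000)) := by
  simp only [dt12, DT.kv, sw12, sl12, sv12]
  ((try push_cast); ring1)
theorem kb_dt12 (x : ℝ) : dt12.kv (33 / 100) x = (2741811 / 6250000 + (x - 5 / 128) * (-5049 / 200000)) := by
  simp only [dt12, DT.kv, sw12, sl12, sv12]
  ((try push_cast); ring1)
theorem ka_dt13 (x : ℝ) : dt13.kv (33 / 100) x = (2741811 / 6250000 + (x - 5 / 128) * (-5049 / 200000)) := by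
  simp only [dt13, DT.kv, sw13, sl13, sv13]
  ((try push_cast); ring1)
theorem kb_dt13 (x : ℝ) : dt13.kv (299 / 662) x = (-13936713 / 100000000 + (x - 5 / 128) * (-35477 / 1250000)) := by
  simp only [dt13, DT.kv, sw13, sl13, sv13]
  ((try push_cast); ring1)
theorem ka_dt25 (x : ℝ) : dt25.kv (27 / 100) x = (905343 / 1250000 + (x - 5 / 128) * (-107723 / 10000000)) :=
  (DT.kv_le (by simp only [Cn.rt_v, Cn.ng_v]; norm_num)).trans (ka_dt12 x)
theorem kb_dt25 (x : ℝ) : dt25.kv (299 / 662) x = (-13936713 / 100000000 + (x - 5 / 128) * (-35477 / 1250000)) :=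
  (DT.kv_gt (by simp only [Cn.rt_v, Cn.ng_v]; norm_num)).trans (kb_dt13 x)
theorem ka_dt14 (x : ℝ) : dt14.kv (299 / 662) x = (-13936713 / 100000000 + (x - 5 / 128) * (-35477 / 1250000)) := by
  simp only [dt14, DT.kv, sw14, sl14, sv14]
  ((try push_cast); ring1)
theorem kb_dt14 (x : ℝ) : dt14.kv (2773 / 5677) x = (-27994847 / 100000000 + (x - 5 / 128) * (24179 / 10000000)) := by
  simp only [dt14, DT.kv, sw14, sl14, sv14]
  ((try push_cast); ring1)
theorem ka_dt15 (x : ℝ) : dt15.kv (2773 / 5677) x = (-27994847 / 100000000 + (x - 5 / 128) * (24179 / 10000000)) := by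
  simp only [dt15, DT.kv, sw15, sl15, sv15]
  ((try push_cast); ring1)
theorem kb_dt15 (x : ℝ) : dt15.kv (1 / 2) x = (-8724639 / 25000000 + (x - 5 / 128) * (11513 / 5000000)) := by
  simp only [dt15, DT.kv, sw15, sl15, sv15]
  ((try push_cast); ring1)
theorem ka_dt26 (x : ℝ) : dt26.kv (299 / 662) x = (-13936713 / 100000000 + (x - 5 / 128) * (-35477 / 1250000)) :=
  (DT.kv_le (by simp only [Cn.rt_v, Cn.ng_v]; norm_num)).trans (ka_dt14 x)
theorem kb_dt26 (x : ℝ) : dt26.kv (1 / 2) x = (-8724639 / 25000000 + (x - 5 / 128) * (11513 / 5000000)) :=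
  (DT.kv_gt (by simp only [Cn.rt_v, Cn.ng_v]; norm_num)).trans (kb_dt15 x)
theorem ka_dt27 (x : ℝ) : dt27.kv (27 / 100) x = (905343 / 1250000 + (x - 5 / 128) * (-107723 / 10000000)) :=
  (DT.kv_le (by simp only [Cn.rt_v, Cn.ng_v]; norm_num)).trans (ka_dt25 x)
theorem kb_dt27 (x : ℝ) : dt27.kv (1 / 2) x = (-8724639 / 25000000 + (x - 5 / 128) * (11513 / 5000000)) :=
  (DT.kv_gt (by simp only [Cn.rt_v, Cn.ng_v]; norm_num)).trans (kb_dt26 x)
theorem ka_dt28 (x : ℝ) : dt28.kv (-1 / 16) x = (60451 / 100000000 + (x - 5 / 128) * (-1047 / 1000000)) :=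
  (DT.kv_le (by simp only [Cn.rt_v, Cn.ng_v]; norm_num)).trans (ka_dt24 x)
theorem kb_dt28 (x : ℝ) : dt28.kv (1 / 2) x = (-8724639 / 25000000 + (x - 5 / 128) * (11513 / 5000000)) :=
  (DT.kv_gt (by simp only [Cn.rt_v, Cn.ng_v]; norm_num)).trans (kb_dt27 x)
theorem ka_dt29 (x : ℝ) : dt29.kv (-1 / 2) x = (8724639 / 25000000 + (x - 5 / 128) * (-11513 / 5000000)) :=
  (DT.kv_le (by simp only [Cn.rt_v, Cn.ng_v]; norm_num)).trans (ka_dt21 x)
theorem kb_dt29 (x : ℝ) : dt29.kv (1 / 2) x = (-8724639 / 25000000 + (x - 5 / 128) * (11513 / 5000000)) :=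
  (DT.kv_gt (by simp only [Cn.rt_v, Cn.ng_v]; norm_num)).trans (kb_dt28 x)
theorem ko_dt1 (x : ℝ) : dt1.KOk x := trivial
theorem ko_dt2 (x : ℝ) : dt2.KOk x := trivial
theorem ko_dt3 (x : ℝ) : dt3.KOk x := trivial
theorem ko_dt16 (x : ℝ) : dt16.KOk x :=
  DT.kOk_node (v := -299 / 662) (by simp only [Cn.rt_v, Cn.ng_v]; norm_num) (kb_dt2 x) (ka_dt3 x) (by ring1) (ko_dt2 x) (ko_dt3 x)
theorem ko_dt17 (x : ℝ) : dt17.KOk x :=
  DT.kOk_node (v := -2773 / 5677) (by simp only [Cn.rt_v, Cn.ng_v]; norm_num) (kb_dt1 x) (ka_dt16 x) (by ring1) (ko_dt1 x) (ko_dt16 x)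
theorem ko_dt4 (x : ℝ) : dt4.KOk x := trivial
theorem ko_dt5 (x : ℝ) : dt5.KOk x := trivial
theorem ko_dt18 (x : ℝ) : dt18.KOk x :=
  DT.kOk_node (v := -27 / 100) (by simp only [Cn.rt_v, Cn.ng_v]; norm_num) (kb_dt4 x) (ka_dt5 x) (by ring1) (ko_dt4 x) (ko_dt5 x)
theorem ko_dt6 (x : ℝ) : dt6.KOk x := trivial
theorem ko_dt7 (x : ℝ) : dt7.KOk x := trivial
theorem ko_dt19 (x : ℝ) : dt19.KOk x :=
  DT.kOk_node (v := -3 / 20) (by simp only [Cn.rt_v, Cn.ng_v]; norm_num) (kb_dt6 x) (ka_dt7 x) (by ring1) (ko_dt6 x) (ko_dt7 x)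
theorem ko_dt20 (x : ℝ) : dt20.KOk x :=
  DT.kOk_node (v := -21 / 100) (by simp only [Cn.rt_v, Cn.ng_v]; norm_num) (kb_dt18 x) (ka_dt19 x) (by ring1) (ko_dt18 x) (ko_dt19 x)
theorem ko_dt21 (x : ℝ) : dt21.KOk x :=
  DT.kOk_node (v := -33 / 100) (by simp only [Cn.rt_v, Cn.ng_v]; norm_num) (kb_dt17 x) (ka_dt20 x) (by ring1) (ko_dt17 x) (ko_dt20 x)
theorem ko_dt8 (x : ℝ) : dt8.KOk x := trivial
theorem ko_dt9 (x : ℝ) : dt9.KOk x := trivial
theorem ko_dt22 (x : ℝ) : dt22.KOk x :=
  DT.kOk_node (v := 1 / 16) (by simp only [Cn.rt_v, Cn.ng_v]; norm_num) (kb_dt8 x) (ka_dt9 x) (by ring1) (ko_dt8 x) (ko_dt9 x)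
theorem ko_dt10 (x : ℝ) : dt10.KOk x := trivial
theorem ko_dt11 (x : ℝ) : dt11.KOk x := trivial
theorem ko_dt23 (x : ℝ) : dt23.KOk x :=
  DT.kOk_node (v := 21 / 100) (by simp only [Cn.rt_v, Cn.ng_v]; norm_num) (kb_dt10 x) (ka_dt11 x) (by ring1) (ko_dt10 x) (ko_dt11 x)
theorem ko_dt24 (x : ℝ) : dt24.KOk x :=
  DT.kOk_node (v := 3 / 20) (by simp only [Cn.rt_v, Cn.ng_v]; norm_num) (kb_dt22 x) (ka_dt23 x) (by ring1) (ko_dt22 x) (ko_dt23 x)
theorem ko_dt12 (x : ℝ) : dt12.KOk x := trivial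
theorem ko_dt13 (x : ℝ) : dt13.KOk x := trivial
theorem ko_dt25 (x : ℝ) : dt25.KOk x :=
  DT.kOk_node (v := 33 / 100) (by simp only [Cn.rt_v, Cn.ng_v]; norm_num) (kb_dt12 x) (ka_dt13 x) (by ring1) (ko_dt12 x) (ko_dt13 x)
theorem ko_dt14 (x : ℝ) : dt14.KOk x := trivial
theorem ko_dt15 (x : ℝ) : dt15.KOk x := trivial
theorem ko_dt26 (x : ℝ) : dt26.KOk x :=
  DT.kOk_node (v := 2773 / 5677) (by simp only [Cn.rt_v, Cn.ng_v]; norm_num) (kb_dt14 x) (ka_dt15 x) (by ring1) (ko_dt14 x) (ko_dt15 x)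
theorem ko_dt27 (x : ℝ) : dt27.KOk x :=
  DT.kOk_node (v := 299 / 662) (by simp only [Cn.rt_v, Cn.ng_v]; norm_num) (kb_dt25 x) (ka_dt26 x) (by ring1) (ko_dt25 x) (ko_dt26 x)
theorem ko_dt28 (x : ℝ) : dt28.KOk x :=
  DT.kOk_node (v := 27 / 100) (by simp only [Cn.rt_v, Cn.ng_v]; norm_num) (kb_dt24 x) (ka_dt27 x) (by ring1) (ko_dt24 x) (ko_dt27 x)
theorem ko_dt29 (x : ℝ) : dt29.KOk x :=
  DT.kOk_node (v := -1 / 16) (by simp only [Cn.rt_v, Cn.ng_v]; norm_num) (kb_dt21 x) (ka_dt28 x) (by ring1) (ko_dt21 x) (ko_dt28 x)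
theorem txl0 {p c x : ℝ} (h1 : -1 / 2 ≤ p) (h2 : p ≤ -49 / 100) : txg.v p c x = dt76.val (fun p x => kcg.v p x) p c x := by
  symm
  refine (DT.val_le (by simp only [Cn.rt_v, Cn.ng_v]; push_cast; linarith)).trans ?_
  refine (DT.val_le (by simp only [Cn.rt_v, Cn.ng_v]; push_cast; linarith)).trans ?_
  refine (DT.val_le (by simp only [Cn.rt_v, Cn.ng_v]; push_cast; linarith)).trans ?_
  refine (DT.val_le (by simp only [Cn.rt_v, Cn.ng_v]; push_cast; linarith)).trans ?_
  simp only [dt30, DT.val, cloR, sw30, sl30, sv30, txg, txg_4, txg_6, txg_27, txg_61, txg_75, txg_77, txg_80, txg_83, txg_86, txg_136, txg_155, txg_199, txg_202, txg_244, txg_266, txg_311, txg_312, txg_313, txg_354, txg_376, txg_421, txg_422, txg_442, txg_485, txg_507]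
  rcases eq_or_lt_of_le h1 with h | h1
  · subst h
    ((try push_cast); (repeat first | rw [if_pos (by linarith)] | rw [if_neg (by linarith)] | erw [if_pos (by linarith)] | erw [if_neg (by linarith)]); (try push_cast); (try ring1))
  rcases eq_or_lt_of_le h2 with h | h2
  · subst h
    ((try push_cast); (repeat first | rw [if_pos (by linarith)] | rw [if_neg (by linarith)] | erw [if_pos (by linarith)] | erw [if_neg (by linarith)]); (try push_cast); (try ring1))
  · ((try push_cast); (repeat first | rw [if_pos (by linarith)] | rw [if_neg (by linarith)] | erw [if_pos (by linarith)] | erw [if_neg (by linarith)]); (try push_cast); (try ring1))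
theorem txl1 {p c x : ℝ} (h1 : -49 / 100 < p) (h2 : p ≤ -2773 / 5677) : txg.v p c x = dt76.val (fun p x => kcg.v p x) p c x := by
  symm
  refine (DT.val_le (by simp only [Cn.rt_v, Cn.ng_v]; push_cast; linarith)).trans ?_
  refine (DT.val_le (by simp only [Cn.rt_v, Cn.ng_v]; push_cast; linarith)).trans ?_
  refine (DT.val_le (by simp only [Cn.rt_v, Cn.ng_v]; push_cast; linarith)).trans ?_
  refine (DT.val_gt (by simp only [Cn.rt_v, Cn.ng_v]; push_cast; linarith)).trans ?_
  refine (DT.val_le (by simp only [Cn.rt_v, Cn.ng_v]; push_cast; linarith)).trans ?_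
  simp only [dt31, DT.val, cloR, sw31, sl31, sl31_2, sv31, sv31_2, txg, txg_4, txg_6, txg_27, txg_61, txg_75, txg_77, txg_80, txg_83, txg_86, txg_136, txg_155, txg_199, txg_202, txg_244, txg_266, txg_311, txg_312, txg_313, txg_354, txg_376, txg_421, txg_422, txg_442, txg_485, txg_507]
  rcases eq_or_lt_of_le h2 with h | h2
  · subst h
    ((try push_cast); (repeat first | rw [if_pos (by linarith)] | rw [if_neg (by linarith)] | erw [if_pos (by linarith)] | erw [if_neg (by linarith)]); (try push_cast); (try ring1))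
  · ((try push_cast); (repeat first | rw [if_pos (by linarith)] | rw [if_neg (by linarith)] | erw [if_pos (by linarith)] | erw [if_neg (by linarith)]); (try push_cast); (try ring1))
theorem txl2 {p c x : ℝ} (h1 : -2773 / 5677 < p) (h2 : p ≤ -299 / 662) : txg.v p c x = dt76.val (fun p x => kcg.v p x) p c x := by
  symm
  refine (DT.val_le (by simp only [Cn.rt_v, Cn.ng_v]; push_cast; linarith)).trans ?_
  refine (DT.val_le (by simp only [Cn.rt_v, Cn.ng_v]; push_cast; linarith)).trans ?_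
  refine (DT.val_le (by simp only [Cn.rt_v, Cn.ng_v]; push_cast; linarith)).trans ?_
  refine (DT.val_gt (by simp only [Cn.rt_v, Cn.ng_v]; push_cast; linarith)).trans ?_
  refine (DT.val_gt (by simp only [Cn.rt_v, Cn.ng_v]; push_cast; linarith)).trans ?_
  simp only [dt32, DT.val, cloR, txg, txg_4, txg_6, txg_27, txg_61, txg_75, txg_77, txg_80, txg_83, txg_86, txg_136, txg_155, txg_199, txg_202, txg_244, txg_266, txg_311, txg_312, txg_313, txg_354, txg_376, txg_421, txg_422, txg_442, txg_485, txg_507]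
  rcases eq_or_lt_of_le h2 with h | h2
  · subst h
    ((try push_cast); (repeat first | rw [if_pos (by linarith)] | rw [if_neg (by linarith)] | erw [if_pos (by linarith)] | erw [if_neg (by linarith)]); (try push_cast); (try ring1))
  · ((try push_cast); (repeat first | rw [if_pos (by linarith)] | rw [if_neg (by linarith)] | erw [if_pos (by linarith)] | erw [if_neg (by linarith)]); (try push_cast); (try ring1))
theorem txl3 {p c x : ℝ} (h1 : -299 / 662 < p) (h2 : p ≤ -9 / 25) : txg.v p c x = dt76.val (fun p x => kcg.v p x) p c x := by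
  symm
  refine (DT.val_le (by simp only [Cn.rt_v, Cn.ng_v]; push_cast; linarith)).trans ?_
  refine (DT.val_le (by simp only [Cn.rt_v, Cn.ng_v]; push_cast; linarith)).trans ?_
  refine (DT.val_gt (by simp only [Cn.rt_v, Cn.ng_v]; push_cast; linarith)).trans ?_
  refine (DT.val_le (by simp only [Cn.rt_v, Cn.ng_v]; push_cast; linarith)).trans ?_
  simp only [dt33, DT.val, cloR, sw33, sl33, sl33_2, sv33, sv33_2, txg, txg_4, txg_6, txg_27, txg_61, txg_75, txg_77, txg_80, txg_83, txg_86, txg_136, txg_155, txg_199, txg_202, txg_244, txg_266, txg_311, txg_312, txg_313, txg_354, txg_376, txg_421, txg_422, txg_442, txg_485, txg_507]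
  rcases eq_or_lt_of_le h2 with h | h2
  · subst h
    ((try push_cast); (repeat first | rw [if_pos (by linarith)] | rw [if_neg (by linarith)] | erw [if_pos (by linarith)] | erw [if_neg (by linarith)]); (try push_cast); (try ring1))
  · ((try push_cast); (repeat first | rw [if_pos (by linarith)] | rw [if_neg (by linarith)] | erw [if_pos (by linarith)] | erw [if_neg (by linarith)]); (try push_cast); (try ring1))
theorem txl4 {p c x : ℝ} (h1 : -9 / 25 < p) (h2 : p ≤ -33 / 100) : txg.v p c x = dt76.val (fun p x => kcg.v p x) p c x := by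
  symm
  refine (DT.val_le (by simp only [Cn.rt_v, Cn.ng_v]; push_cast; linarith)).trans ?_
  refine (DT.val_le (by simp only [Cn.rt_v, Cn.ng_v]; push_cast; linarith)).trans ?_
  refine (DT.val_gt (by simp only [Cn.rt_v, Cn.ng_v]; push_cast; linarith)).trans ?_
  refine (DT.val_gt (by simp only [Cn.rt_v, Cn.ng_v]; push_cast; linarith)).trans ?_
  refine (DT.val_le (by simp only [Cn.rt_v, Cn.ng_v]; push_cast; linarith)).trans ?_
  simp only [dt34, DT.val, cloR, sw34, sl34, sv34, txg, txg_4, txg_6, txg_27, txg_61, txg_75, txg_77, txg_80, txg_83, txg_86, txg_136, txg_155, txg_199, txg_202, txg_244, txg_266, txg_311, txg_312, txg_313, txg_354, txg_376, txg_421, txg_422, txg_442, txg_485, txg_507]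
  rcases eq_or_lt_of_le h2 with h | h2
  · subst h
    ((try push_cast); (repeat first | rw [if_pos (by linarith)] | rw [if_neg (by linarith)] | erw [if_pos (by linarith)] | erw [if_neg (by linarith)]); (try push_cast); (try ring1))
  · ((try push_cast); (repeat first | rw [if_pos (by linarith)] | rw [if_neg (by linarith)] | erw [if_pos (by linarith)] | erw [if_neg (by linarith)]); (try push_cast); (try ring1))
theorem txl5 {p c x : ℝ} (h1 : -33 / 100 < p) (h2 : p ≤ -3 / 10) : txg.v p c x = dt76.val (fun p x => kcg.v p x) p c x := by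
  symm
  refine (DT.val_le (by simp only [Cn.rt_v, Cn.ng_v]; push_cast; linarith)).trans ?_
  refine (DT.val_le (by simp only [Cn.rt_v, Cn.ng_v]; push_cast; linarith)).trans ?_
  refine (DT.val_gt (by simp only [Cn.rt_v, Cn.ng_v]; push_cast; linarith)).trans ?_
  refine (DT.val_gt (by simp only [Cn.rt_v, Cn.ng_v]; push_cast; linarith)).trans ?_
  refine (DT.val_gt (by simp only [Cn.rt_v, Cn.ng_v]; push_cast; linarith)).trans ?_
  simp only [dt35, DT.val, cloR, sw35, sl35, sv35, txg, txg_4, txg_6, txg_27, txg_61, txg_75, txg_77, txg_80, txg_83, txg_86, txg_136, txg_155, txg_199, txg_202, txg_244, txg_266, txg_311, txg_312, txg_313, txg_354, txg_376, txg_421, txg_422, txg_442, txg_485, txg_507]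
  rcases eq_or_lt_of_le h2 with h | h2
  · subst h
    ((try push_cast); (repeat first | rw [if_pos (by linarith)] | rw [if_neg (by linarith)] | erw [if_pos (by linarith)] | erw [if_neg (by linarith)]); (try push_cast); (try ring1))
  · ((try push_cast); (repeat first | rw [if_pos (by linarith)] | rw [if_neg (by linarith)] | erw [if_pos (by linarith)] | erw [if_neg (by linarith)]); (try push_cast); (try ring1))
theorem txl6 {p c x : ℝ} (h1 : -3 / 10 < p) (h2 : p ≤ -13 / 50) : txg.v p c x = dt76.val (fun p x => kcg.v p x) p c x := by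
  symm
  refine (DT.val_le (by simp only [Cn.rt_v, Cn.ng_v]; push_cast; linarith)).trans ?_
  refine (DT.val_gt (by simp only [Cn.rt_v, Cn.ng_v]; push_cast; linarith)).trans ?_
  refine (DT.val_le (by simp only [Cn.rt_v, Cn.ng_v]; push_cast; linarith)).trans ?_
  refine (DT.val_le (by simp only [Cn.rt_v, Cn.ng_v]; push_cast; linarith)).trans ?_
  simp only [dt36, DT.val, cloR, sw36, sl36, sv36, txg, txg_4, txg_6, txg_27, txg_61, txg_75, txg_77, txg_80, txg_83, txg_86, txg_136, txg_155, txg_199, txg_202, txg_244, txg_266, txg_311, txg_312, txg_313, txg_354, txg_376, txg_421, txg_422, txg_442, txg_485, txg_507]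
  rcases eq_or_lt_of_le h2 with h | h2
  · subst h
    ((try push_cast); (repeat first | rw [if_pos (by linarith)] | rw [if_neg (by linarith)] | erw [if_pos (by linarith)] | erw [if_neg (by linarith)]); (try push_cast); (try ring1))
  · ((try push_cast); (repeat first | rw [if_pos (by linarith)] | rw [if_neg (by linarith)] | erw [if_pos (by linarith)] | erw [if_neg (by linarith)]); (try push_cast); (try ring1))
theorem txl7 {p c x : ℝ} (h1 : -13 / 50 < p) (h2 : p ≤ -11 / 50) : txg.v p c x = dt76.val (fun p x => kcg.v p x) p c x := by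
  symm
  refine (DT.val_le (by simp only [Cn.rt_v, Cn.ng_v]; push_cast; linarith)).trans ?_
  refine (DT.val_gt (by simp only [Cn.rt_v, Cn.ng_v]; push_cast; linarith)).trans ?_
  refine (DT.val_le (by simp only [Cn.rt_v, Cn.ng_v]; push_cast; linarith)).trans ?_
  refine (DT.val_gt (by simp only [Cn.rt_v, Cn.ng_v]; push_cast; linarith)).trans ?_
  refine (DT.val_le (by simp only [Cn.rt_v, Cn.ng_v]; push_cast; linarith)).trans ?_
  simp only [dt37, DT.val, cloR, sw37, sl37, sv37, txg, txg_4, txg_6, txg_27, txg_61, txg_75, txg_77, txg_80, txg_83, txg_86, txg_136, txg_155, txg_199, txg_202, txg_244, txg_266, txg_311, txg_312, txg_313, txg_354, txg_376, txg_421, txg_422, txg_442, txg_485, txg_507]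
  rcases eq_or_lt_of_le h2 with h | h2
  · subst h
    ((try push_cast); (repeat first | rw [if_pos (by linarith)] | rw [if_neg (by linarith)] | erw [if_pos (by linarith)] | erw [if_neg (by linarith)]); (try push_cast); (try ring1))
  · ((try push_cast); (repeat first | rw [if_pos (by linarith)] | rw [if_neg (by linarith)] | erw [if_pos (by linarith)] | erw [if_neg (by linarith)]); (try push_cast); (try ring1))
theorem txl8 {p c x : ℝ} (h1 : -11 / 50 < p) (h2 : p ≤ -9 / 50) : txg.v p c x = dt76.val (fun p x => kcg.v p x) p c x := by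
  symm
  refine (DT.val_le (by simp only [Cn.rt_v, Cn.ng_v]; push_cast; linarith)).trans ?_
  refine (DT.val_gt (by simp only [Cn.rt_v, Cn.ng_v]; push_cast; linarith)).trans ?_
  refine (DT.val_le (by simp only [Cn.rt_v, Cn.ng_v]; push_cast; linarith)).trans ?_
  refine (DT.val_gt (by simp only [Cn.rt_v, Cn.ng_v]; push_cast; linarith)).trans ?_
  refine (DT.val_gt (by simp only [Cn.rt_v, Cn.ng_v]; push_cast; linarith)).trans ?_
  simp only [dt38, DT.val, cloR, sw38, sl38, sv38, txg, txg_4, txg_6, txg_27, txg_61, txg_75, txg_77, txg_80, txg_83, txg_86, txg_136, txg_155, txg_199, txg_202, txg_244, txg_266, txg_311, txg_312, txg_313, txg_354, txg_376, txg_421, txg_422, txg_442, txg_485, txg_507]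
  rcases eq_or_lt_of_le h2 with h | h2
  · subst h
    ((try push_cast); (repeat first | rw [if_pos (by linarith)] | rw [if_neg (by linarith)] | erw [if_pos (by linarith)] | erw [if_neg (by linarith)]); (try push_cast); (try ring1))
  · ((try push_cast); (repeat first | rw [if_pos (by linarith)] | rw [if_neg (by linarith)] | erw [if_pos (by linarith)] | erw [if_neg (by linarith)]); (try push_cast); (try ring1))
theorem txl9 {p c x : ℝ} (h1 : -9 / 50 < p) (h2 : p ≤ -7 / 50) : txg.v p c x = dt76.val (fun p x => kcg.v p x) p c x := by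
  symm
  refine (DT.val_le (by simp only [Cn.rt_v, Cn.ng_v]; push_cast; linarith)).trans ?_
  refine (DT.val_gt (by simp only [Cn.rt_v, Cn.ng_v]; push_cast; linarith)).trans ?_
  refine (DT.val_gt (by simp only [Cn.rt_v, Cn.ng_v]; push_cast; linarith)).trans ?_
  refine (DT.val_le (by simp only [Cn.rt_v, Cn.ng_v]; push_cast; linarith)).trans ?_
  simp only [dt39, DT.val, cloR, sw39, sl39, sv39, txg, txg_4, txg_6, txg_27, txg_61, txg_75, txg_77, txg_80, txg_83, txg_86, txg_136, txg_155, txg_199, txg_202, txg_244, txg_266, txg_311, txg_312, txg_313, txg_354, txg_376, txg_421, txg_422, txg_442, txg_485, txg_507]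
  rcases eq_or_lt_of_le h2 with h | h2
  · subst h
    ((try push_cast); (repeat first | rw [if_pos (by linarith)] | rw [if_neg (by linarith)] | erw [if_pos (by linarith)] | erw [if_neg (by linarith)]); (try push_cast); (try ring1))
  · ((try push_cast); (repeat first | rw [if_pos (by linarith)] | rw [if_neg (by linarith)] | erw [if_pos (by linarith)] | erw [if_neg (by linarith)]); (try push_cast); (try ring1))
theorem txl10 {p c x : ℝ} (h1 : -7 / 50 < p) (h2 : p ≤ -1 / 10) : txg.v p c x = dt76.val (fun p x => kcg.v p x) p c x := by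
  symm
  refine (DT.val_le (by simp only [Cn.rt_v, Cn.ng_v]; push_cast; linarith)).trans ?_
  refine (DT.val_gt (by simp only [Cn.rt_v, Cn.ng_v]; push_cast; linarith)).trans ?_
  refine (DT.val_gt (by simp only [Cn.rt_v, Cn.ng_v]; push_cast; linarith)).trans ?_
  refine (DT.val_gt (by simp only [Cn.rt_v, Cn.ng_v]; push_cast; linarith)).trans ?_
  refine (DT.val_le (by simp only [Cn.rt_v, Cn.ng_v]; push_cast; linarith)).trans ?_
  simp only [dt40, DT.val, cloR, sw40, sl40, sv40, txg, txg_4, txg_6, txg_27, txg_61, txg_75, txg_77, txg_80, txg_83, txg_86, txg_136, txg_155, txg_199, txg_202, txg_244, txg_266, txg_311, txg_312, txg_313, txg_354, txg_376, txg_421, txg_422, txg_442, txg_485, txg_507]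
  rcases eq_or_lt_of_le h2 with h | h2
  · subst h
    ((try push_cast); (repeat first | rw [if_pos (by linarith)] | rw [if_neg (by linarith)] | erw [if_pos (by linarith)] | erw [if_neg (by linarith)]); (try push_cast); (try ring1))
  · ((try push_cast); (repeat first | rw [if_pos (by linarith)] | rw [if_neg (by linarith)] | erw [if_pos (by linarith)] | erw [if_neg (by linarith)]); (try push_cast); (try ring1))
theorem txl11 {p c x : ℝ} (h1 : -1 / 10 < p) (h2 : p ≤ -1 / 16) : txg.v p c x = dt76.val (fun p x => kcg.v p x) p c x := by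
  symm
  refine (DT.val_le (by simp only [Cn.rt_v, Cn.ng_v]; push_cast; linarith)).trans ?_
  refine (DT.val_gt (by simp only [Cn.rt_v, Cn.ng_v]; push_cast; linarith)).trans ?_
  refine (DT.val_gt (by simp only [Cn.rt_v, Cn.ng_v]; push_cast; linarith)).trans ?_
  refine (DT.val_gt (by simp only [Cn.rt_v, Cn.ng_v]; push_cast; linarith)).trans ?_
  refine (DT.val_gt (by simp only [Cn.rt_v, Cn.ng_v]; push_cast; linarith)).trans ?_
  simp only [dt41, DT.val, cloR, sw41, sl41, sv41, txg, txg_4, txg_6, txg_27, txg_61, txg_75, txg_77, txg_80, txg_83, txg_86, txg_136, txg_155, txg_199, txg_202, txg_244, txg_266, txg_311, txg_312, txg_313, txg_354, txg_376, txg_421, txg_422, txg_442, txg_485, txg_507]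
  rcases eq_or_lt_of_le h2 with h | h2
  · subst h
    ((try push_cast); (repeat first | rw [if_pos (by linarith)] | rw [if_neg (by linarith)] | erw [if_pos (by linarith)] | erw [if_neg (by linarith)]); (try push_cast); (try ring1))
  · ((try push_cast); (repeat first | rw [if_pos (by linarith)] | rw [if_neg (by linarith)] | erw [if_pos (by linarith)] | erw [if_neg (by linarith)]); (try push_cast); (try ring1))
theorem txl12 {p c x : ℝ} (h1 : -1 / 16 < p) (h2 : p ≤ 1 / 16) : txg.v p c x = dt76.val (fun p x => kcg.v p x) p c x := by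
  symm
  refine (DT.val_gt (by simp only [Cn.rt_v, Cn.ng_v]; push_cast; linarith)).trans ?_
  refine (DT.val_le (by simp only [Cn.rt_v, Cn.ng_v]; push_cast; linarith)).trans ?_
  refine (DT.val_le (by simp only [Cn.rt_v, Cn.ng_v]; push_cast; linarith)).trans ?_
  refine (DT.val_le (by simp only [Cn.rt_v, Cn.ng_v]; push_cast; linarith)).trans ?_
  simp only [dt42, DT.val, cloR, sw42, sl42, sv42, txg, txg_4, txg_6, txg_27, txg_61, txg_75, txg_77, txg_80, txg_83, txg_86, txg_136, txg_155, txg_199, txg_202, txg_244, txg_266, txg_311, txg_312, txg_313, txg_354, txg_376, txg_421, txg_422, txg_442, txg_485, txg_507]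
  rcases eq_or_lt_of_le h2 with h | h2
  · subst h
    ((try push_cast); (repeat first | rw [if_pos (by linarith)] | rw [if_neg (by linarith)] | erw [if_pos (by linarith)] | erw [if_neg (by linarith)]); (try push_cast); (try ring1))
  · ((try push_cast); (repeat first | rw [if_pos (by linarith)] | rw [if_neg (by linarith)] | erw [if_pos (by linarith)] | erw [if_neg (by linarith)]); (try push_cast); (try ring1))
theorem txl13 {p c x : ℝ} (h1 : 1 / 16 < p) (h2 : p ≤ 1 / 10) : txg.v p c x = dt76.val (fun p x => kcg.v p x) p c x := by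
  symm
  refine (DT.val_gt (by simp only [Cn.rt_v, Cn.ng_v]; push_cast; linarith)).trans ?_
  refine (DT.val_le (by simp only [Cn.rt_v, Cn.ng_v]; push_cast; linarith)).trans ?_
  refine (DT.val_le (by simp only [Cn.rt_v, Cn.ng_v]; push_cast; linarith)).trans ?_
  refine (DT.val_gt (by simp only [Cn.rt_v, Cn.ng_v]; push_cast; linarith)).trans ?_
  refine (DT.val_le (by simp only [Cn.rt_v, Cn.ng_v]; push_cast; linarith)).trans ?_
  simp only [dt43, DT.val, cloR, sw43, sl43, sv43, txg, txg_4, txg_6, txg_27, txg_61, txg_75, txg_77, txg_80, txg_83, txg_86, txg_136, txg_155, txg_199, txg_202, txg_244, txg_266, txg_311, txg_312, txg_313, txg_354, txg_376, txg_421, txg_422, txg_442, txg_485, txg_507]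
  rcases eq_or_lt_of_le h2 with h | h2
  · subst h
    ((try push_cast); (repeat first | rw [if_pos (by linarith)] | rw [if_neg (by linarith)] | erw [if_pos (by linarith)] | erw [if_neg (by linarith)]); (try push_cast); (try ring1))
  · ((try push_cast); (repeat first | rw [if_pos (by linarith)] | rw [if_neg (by linarith)] | erw [if_pos (by linarith)] | erw [if_neg (by linarith)]); (try push_cast); (try ring1))
theorem txl14 {p c x : ℝ} (h1 : 1 / 10 < p) (h2 : p ≤ 7 / 50) : txg.v p c x = dt76.val (fun p x => kcg.v p x) p c x := by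
  symm
  refine (DT.val_gt (by simp only [Cn.rt_v, Cn.ng_v]; push_cast; linarith)).trans ?_
  refine (DT.val_le (by simp only [Cn.rt_v, Cn.ng_v]; push_cast; linarith)).trans ?_
  refine (DT.val_le (by simp only [Cn.rt_v, Cn.ng_v]; push_cast; linarith)).trans ?_
  refine (DT.val_gt (by simp only [Cn.rt_v, Cn.ng_v]; push_cast; linarith)).trans ?_
  refine (DT.val_gt (by simp only [Cn.rt_v, Cn.ng_v]; push_cast; linarith)).trans ?_
  simp only [dt44, DT.val, cloR, sw44, sl44, sv44, txg, txg_4, txg_6, txg_27, txg_61, txg_75, txg_77, txg_80, txg_83, txg_86, txg_136, txg_155, txg_199, txg_202, txg_244, txg_266, txg_311, txg_312, txg_313, txg_354, txg_376, txg_421, txg_422, txg_442, txg_485, txg_507]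
  rcases eq_or_lt_of_le h2 with h | h2
  · subst h
    ((try push_cast); (repeat first | rw [if_pos (by linarith)] | rw [if_neg (by linarith)] | erw [if_pos (by linarith)] | erw [if_neg (by linarith)]); (try push_cast); (try ring1))
  · ((try push_cast); (repeat first | rw [if_pos (by linarith)] | rw [if_neg (by linarith)] | erw [if_pos (by linarith)] | erw [if_neg (by linarith)]); (try push_cast); (try ring1))
theorem txl15 {p c x : ℝ} (h1 : 7 / 50 < p) (h2 : p ≤ 9 / 50) : txg.v p c x = dt76.val (fun p x => kcg.v p x) p c x := by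
  symm
  refine (DT.val_gt (by simp only [Cn.rt_v, Cn.ng_v]; push_cast; linarith)).trans ?_
  refine (DT.val_le (by simp only [Cn.rt_v, Cn.ng_v]; push_cast; linarith)).trans ?_
  refine (DT.val_gt (by simp only [Cn.rt_v, Cn.ng_v]; push_cast; linarith)).trans ?_
  refine (DT.val_le (by simp only [Cn.rt_v, Cn.ng_v]; push_cast; linarith)).trans ?_
  simp only [dt45, DT.val, cloR, sw45, sl45, sv45, txg, txg_4, txg_6, txg_27, txg_61, txg_75, txg_77, txg_80, txg_83, txg_86, txg_136, txg_155, txg_199, txg_202, txg_244, txg_266, txg_311, txg_312, txg_313, txg_354, txg_376, txg_421, txg_422, txg_442, txg_485, txg_507]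
  rcases eq_or_lt_of_le h2 with h | h2
  · subst h
    ((try push_cast); (repeat first | rw [if_pos (by linarith)] | rw [if_neg (by linarith)] | erw [if_pos (by linarith)] | erw [if_neg (by linarith)]); (try push_cast); (try ring1))
  · ((try push_cast); (repeat first | rw [if_pos (by linarith)] | rw [if_neg (by linarith)] | erw [if_pos (by linarith)] | erw [if_neg (by linarith)]); (try push_cast); (try ring1))
theorem txl16 {p c x : ℝ} (h1 : 9 / 50 < p) (h2 : p ≤ 11 / 50) : txg.v p c x = dt76.val (fun p x => kcg.v p x) p c x := by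
  symm
  refine (DT.val_gt (by simp only [Cn.rt_v, Cn.ng_v]; push_cast; linarith)).trans ?_
  refine (DT.val_le (by simp only [Cn.rt_v, Cn.ng_v]; push_cast; linarith)).trans ?_
  refine (DT.val_gt (by simp only [Cn.rt_v, Cn.ng_v]; push_cast; linarith)).trans ?_
  refine (DT.val_gt (by simp only [Cn.rt_v, Cn.ng_v]; push_cast; linarith)).trans ?_
  refine (DT.val_le (by simp only [Cn.rt_v, Cn.ng_v]; push_cast; linarith)).trans ?_
  simp only [dt46, DT.val, cloR, sw46, sl46, sv46, txg, txg_4, txg_6, txg_27, txg_61, txg_75, txg_77, txg_80, txg_83, txg_86, txg_136, txg_155, txg_199, txg_202, txg_244, txg_266, txg_311, txg_312, txg_313, txg_354, txg_376, txg_421, txg_422, txg_442, txg_485, txg_507]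
  rcases eq_or_lt_of_le h2 with h | h2
  · subst h
    ((try push_cast); (repeat first | rw [if_pos (by linarith)] | rw [if_neg (by linarith)] | erw [if_pos (by linarith)] | erw [if_neg (by linarith)]); (try push_cast); (try ring1))
  · ((try push_cast); (repeat first | rw [if_pos (by linarith)] | rw [if_neg (by linarith)] | erw [if_pos (by linarith)] | erw [if_neg (by linarith)]); (try push_cast); (try ring1))
theorem txl17 {p c x : ℝ} (h1 : 11 / 50 < p) (h2 : p ≤ 13 / 50) : txg.v p c x = dt76.val (fun p x => kcg.v p x) p c x := by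
  symm
  refine (DT.val_gt (by simp only [Cn.rt_v, Cn.ng_v]; push_cast; linarith)).trans ?_
  refine (DT.val_le (by simp only [Cn.rt_v, Cn.ng_v]; push_cast; linarith)).trans ?_
  refine (DT.val_gt (by simp only [Cn.rt_v, Cn.ng_v]; push_cast; linarith)).trans ?_
  refine (DT.val_gt (by simp only [Cn.rt_v, Cn.ng_v]; push_cast; linarith)).trans ?_
  refine (DT.val_gt (by simp only [Cn.rt_v, Cn.ng_v]; push_cast; linarith)).trans ?_
  simp only [dt47, DT.val, cloR, sw47, sl47, sv47, txg, txg_4, txg_6, txg_27, txg_61, txg_75, txg_77, txg_80, txg_83, txg_86, txg_136, txg_155, txg_199, txg_202, txg_244, txg_266, txg_311, txg_312, txg_313, txg_354, txg_376, txg_421, txg_422, txg_442, txg_485, txg_507]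
  rcases eq_or_lt_of_le h2 with h | h2
  · subst h
    ((try push_cast); (repeat first | rw [if_pos (by linarith)] | rw [if_neg (by linarith)] | erw [if_pos (by linarith)] | erw [if_neg (by linarith)]); (try push_cast); (try ring1))
  · ((try push_cast); (repeat first | rw [if_pos (by linarith)] | rw [if_neg (by linarith)] | erw [if_pos (by linarith)] | erw [if_neg (by linarith)]); (try push_cast); (try ring1))
theorem txl18 {p c x : ℝ} (h1 : 13 / 50 < p) (h2 : p ≤ 3 / 10) : txg.v p c x = dt76.val (fun p x => kcg.v p x) p c x := by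
  symm
  refine (DT.val_gt (by simp only [Cn.rt_v, Cn.ng_v]; push_cast; linarith)).trans ?_
  refine (DT.val_gt (by simp only [Cn.rt_v, Cn.ng_v]; push_cast; linarith)).trans ?_
  refine (DT.val_le (by simp only [Cn.rt_v, Cn.ng_v]; push_cast; linarith)).trans ?_
  refine (DT.val_le (by simp only [Cn.rt_v, Cn.ng_v]; push_cast; linarith)).trans ?_
  simp only [dt48, DT.val, cloR, sw48, sl48, sv48, txg, txg_4, txg_6, txg_27, txg_61, txg_75, txg_77, txg_80, txg_83, txg_86, txg_136, txg_155, txg_199, txg_202, txg_244, txg_266, txg_311, txg_312, txg_313, txg_354, txg_376, txg_421, txg_422, txg_442, txg_485, txg_507]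
  rcases eq_or_lt_of_le h2 with h | h2
  · subst h
    ((try push_cast); (repeat first | rw [if_pos (by linarith)] | rw [if_neg (by linarith)] | erw [if_pos (by linarith)] | erw [if_neg (by linarith)]); (try push_cast); (try ring1))
  · ((try push_cast); (repeat first | rw [if_pos (by linarith)] | rw [if_neg (by linarith)] | erw [if_pos (by linarith)] | erw [if_neg (by linarith)]); (try push_cast); (try ring1))
theorem txl19 {p c x : ℝ} (h1 : 3 / 10 < p) (h2 : p ≤ 17 / 50) : txg.v p c x = dt76.val (fun p x => kcg.v p x) p c x := by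
  symm
  refine (DT.val_gt (by simp only [Cn.rt_v, Cn.ng_v]; push_cast; linarith)).trans ?_
  refine (DT.val_gt (by simp only [Cn.rt_v, Cn.ng_v]; push_cast; linarith)).trans ?_
  refine (DT.val_le (by simp only [Cn.rt_v, Cn.ng_v]; push_cast; linarith)).trans ?_
  refine (DT.val_gt (by simp only [Cn.rt_v, Cn.ng_v]; push_cast; linarith)).trans ?_
  refine (DT.val_le (by simp only [Cn.rt_v, Cn.ng_v]; push_cast; linarith)).trans ?_
  simp only [dt49, DT.val, cloR, sw49, sl49, sv49, txg, txg_4, txg_6, txg_27, txg_61, txg_75, txg_77, txg_80, txg_83, txg_86, txg_136, txg_155, txg_199, txg_202, txg_244, txg_266, txg_311, txg_312, txg_313, txg_354, txg_376, txg_421, txg_422, txg_442, txg_485, txg_507]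
  rcases eq_or_lt_of_le h2 with h | h2
  · subst h
    ((try push_cast); (repeat first | rw [if_pos (by linarith)] | rw [if_neg (by linarith)] | erw [if_pos (by linarith)] | erw [if_neg (by linarith)]); (try push_cast); (try ring1))
  · ((try push_cast); (repeat first | rw [if_pos (by linarith)] | rw [if_neg (by linarith)] | erw [if_pos (by linarith)] | erw [if_neg (by linarith)]); (try push_cast); (try ring1))
theorem txl20 {p c x : ℝ} (h1 : 17 / 50 < p) (h2 : p ≤ 19 / 50) : txg.v p c x = dt76.val (fun p x => kcg.v p x) p c x := by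
  symm
  refine (DT.val_gt (by simp only [Cn.rt_v, Cn.ng_v]; push_cast; linarith)).trans ?_
  refine (DT.val_gt (by simp only [Cn.rt_v, Cn.ng_v]; push_cast; linarith)).trans ?_
  refine (DT.val_le (by simp only [Cn.rt_v, Cn.ng_v]; push_cast; linarith)).trans ?_
  refine (DT.val_gt (by simp only [Cn.rt_v, Cn.ng_v]; push_cast; linarith)).trans ?_
  refine (DT.val_gt (by simp only [Cn.rt_v, Cn.ng_v]; push_cast; linarith)).trans ?_
  simp only [dt50, DT.val, cloR, sw50, sl50, sv50, txg, txg_4, txg_6, txg_27, txg_61, txg_75, txg_77, txg_80, txg_83, txg_86, txg_136, txg_155, txg_199, txg_202, txg_244, txg_266, txg_311, txg_312, txg_313, txg_354, txg_376, txg_421, txg_422, txg_442, txg_485, txg_507]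
  rcases eq_or_lt_of_le h2 with h | h2
  · subst h
    ((try push_cast); (repeat first | rw [if_pos (by linarith)] | rw [if_neg (by linarith)] | erw [if_pos (by linarith)] | erw [if_neg (by linarith)]); (try push_cast); (try ring1))
  · ((try push_cast); (repeat first | rw [if_pos (by linarith)] | rw [if_neg (by linarith)] | erw [if_pos (by linarith)] | erw [if_neg (by linarith)]); (try push_cast); (try ring1))
theorem txl21 {p c x : ℝ} (h1 : 19 / 50 < p) (h2 : p ≤ 21 / 50) : txg.v p c x = dt76.val (fun p x => kcg.v p x) p c x := by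
  symm
  refine (DT.val_gt (by simp only [Cn.rt_v, Cn.ng_v]; push_cast; linarith)).trans ?_
  refine (DT.val_gt (by simp only [Cn.rt_v, Cn.ng_v]; push_cast; linarith)).trans ?_
  refine (DT.val_gt (by simp only [Cn.rt_v, Cn.ng_v]; push_cast; linarith)).trans ?_
  refine (DT.val_le (by simp only [Cn.rt_v, Cn.ng_v]; push_cast; linarith)).trans ?_
  simp only [dt51, DT.val, cloR, sw51, sl51, sv51, txg, txg_4, txg_6, txg_27, txg_61, txg_75, txg_77, txg_80, txg_83, txg_86, txg_136, txg_155, txg_199, txg_202, txg_244, txg_266, txg_311, txg_312, txg_313, txg_354, txg_376, txg_421, txg_422, txg_442, txg_485, txg_507]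
  rcases eq_or_lt_of_le h2 with h | h2
  · subst h
    ((try push_cast); (repeat first | rw [if_pos (by linarith)] | rw [if_neg (by linarith)] | erw [if_pos (by linarith)] | erw [if_neg (by linarith)]); (try push_cast); (try ring1))
  · ((try push_cast); (repeat first | rw [if_pos (by linarith)] | rw [if_neg (by linarith)] | erw [if_pos (by linarith)] | erw [if_neg (by linarith)]); (try push_cast); (try ring1))
theorem txl22 {p c x : ℝ} (h1 : 21 / 50 < p) (h2 : p ≤ 227 / 500) : txg.v p c x = dt76.val (fun p x => kcg.v p x) p c x := by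
  symm
  refine (DT.val_gt (by simp only [Cn.rt_v, Cn.ng_v]; push_cast; linarith)).trans ?_
  refine (DT.val_gt (by simp only [Cn.rt_v, Cn.ng_v]; push_cast; linarith)).trans ?_
  refine (DT.val_gt (by simp only [Cn.rt_v, Cn.ng_v]; push_cast; linarith)).trans ?_
  refine (DT.val_gt (by simp only [Cn.rt_v, Cn.ng_v]; push_cast; linarith)).trans ?_
  refine (DT.val_le (by simp only [Cn.rt_v, Cn.ng_v]; push_cast; linarith)).trans ?_
  simp only [dt52, DT.val, cloR, sw52, sl52, sv52, txg, txg_4, txg_6, txg_27, txg_61, txg_75, txg_77, txg_80, txg_83, txg_86, txg_136, txg_155, txg_199, txg_202, txg_244, txg_266, txg_311, txg_312, txg_313, txg_354, txg_376, txg_421, txg_422, txg_442, txg_485, txg_507]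
  rcases eq_or_lt_of_le h2 with h | h2
  · subst h
    ((try push_cast); (repeat first | rw [if_pos (by linarith)] | rw [if_neg (by linarith)] | erw [if_pos (by linarith)] | erw [if_neg (by linarith)]); (try push_cast); (try ring1))
  · ((try push_cast); (repeat first | rw [if_pos (by linarith)] | rw [if_neg (by linarith)] | erw [if_pos (by linarith)] | erw [if_neg (by linarith)]); (try push_cast); (try ring1))
theorem txl23 {p c x : ℝ} (h1 : 227 / 500 < p) (h2 : p ≤ 1 / 2) : txg.v p c x = dt76.val (fun p x => kcg.v p x) p c x := by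
  symm
  refine (DT.val_gt (by simp only [Cn.rt_v, Cn.ng_v]; push_cast; linarith)).trans ?_
  refine (DT.val_gt (by simp only [Cn.rt_v, Cn.ng_v]; push_cast; linarith)).trans ?_
  refine (DT.val_gt (by simp only [Cn.rt_v, Cn.ng_v]; push_cast; linarith)).trans ?_
  refine (DT.val_gt (by simp only [Cn.rt_v, Cn.ng_v]; push_cast; linarith)).trans ?_
  refine (DT.val_gt (by simp only [Cn.rt_v, Cn.ng_v]; push_cast; linarith)).trans ?_
  simp only [dt53, DT.val, cloR, sw53, sl53, sv53, txg, txg_4, txg_6, txg_27, txg_61, txg_75, txg_77, txg_80, txg_83, txg_86, txg_136, txg_155, txg_199, txg_202, txg_244, txg_266, txg_311, txg_312, txg_313, txg_354, txg_376, txg_421, txg_422, txg_442, txg_485, txg_507]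
  rcases eq_or_lt_of_le h2 with h | h2
  · subst h
    ((try push_cast); (repeat first | rw [if_pos (by linarith)] | rw [if_neg (by linarith)] | erw [if_pos (by linarith)] | erw [if_neg (by linarith)]); (try push_cast); (try ring1))
  · ((try push_cast); (repeat first | rw [if_pos (by linarith)] | rw [if_neg (by linarith)] | erw [if_pos (by linarith)] | erw [if_neg (by linarith)]); (try push_cast); (try ring1))
theorem txe {x : ℝ} (p c : ℝ) (h : |p| ≤ 1 / 2) : txg.v p c x = dt76.val (fun p x => kcg.v p x) p c x := by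
  obtain ⟨h1, h2⟩ := abs_le.1 h
  rcases le_or_gt p (-49 / 100) with g0 | g1000
  · exact txl0 (by linarith) g0
  rcases le_or_gt p (-2773 / 5677) with g1 | g1001
  · exact txl1 g1000 g1
  rcases le_or_gt p (-299 / 662) with g2 | g1002
  · exact txl2 g1001 g2
  rcases le_or_gt p (-9 / 25) with g3 | g1003
  · exact txl3 g1002 g3
  rcases le_or_gt p (-33 / 100) with g4 | g1004
  · exact txl4 g1003 g4
  rcases le_or_gt p (-3 / 10) with g5 | g1005
  · exact txl5 g1004 g5
  rcases le_or_gt p (-13 / 50) with g6 | g1006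
  · exact txl6 g1005 g6
  rcases le_or_gt p (-11 / 50) with g7 | g1007
  · exact txl7 g1006 g7
  rcases le_or_gt p (-9 / 50) with g8 | g1008
  · exact txl8 g1007 g8
  rcases le_or_gt p (-7 / 50) with g9 | g1009
  · exact txl9 g1008 g9
  rcases le_or_gt p (-1 / 10) with g10 | g1010
  · exact txl10 g1009 g10
  rcases le_or_gt p (-1 / 16) with g11 | g1011
  · exact txl11 g1010 g11
  rcases le_or_gt p (1 / 16) with g12 | g1012
  · exact txl12 g1011 g12
  rcases le_or_gt p (1 / 10) with g13 | g1013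
  · exact txl13 g1012 g13
  rcases le_or_gt p (7 / 50) with g14 | g1014
  · exact txl14 g1013 g14
  rcases le_or_gt p (9 / 50) with g15 | g1015
  · exact txl15 g1014 g15
  rcases le_or_gt p (11 / 50) with g16 | g1016
  · exact txl16 g1015 g16
  rcases le_or_gt p (13 / 50) with g17 | g1017
  · exact txl17 g1016 g17
  rcases le_or_gt p (3 / 10) with g18 | g1018
  · exact txl18 g1017 g18
  rcases le_or_gt p (17 / 50) with g19 | g1019
  · exact txl19 g1018 g19
  rcases le_or_gt p (19 / 50) with g20 | g1020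
  · exact txl20 g1019 g20
  rcases le_or_gt p (21 / 50) with g21 | g1021
  · exact txl21 g1020 g21
  rcases le_or_gt p (227 / 500) with g22 | g1022
  · exact txl22 g1021 g22
  · exact txl23 g1022 (by linarith)
theorem ta_dt30 (x : ℝ) : dt30.val (fun p x => kcg.v p x) (-1 / 2) (cT (-1 / 2)) x = (0) := by
  simp only [dt30, DT.val, sw30, sl30, sv30]
  ((try push_cast); ring1)
theorem tb_dt30 (x : ℝ) : dt30.val (fun p x => kcg.v p x) (-49 / 100) (cT (-49 / 100)) x = (16341 / 100000000 + (x - 5 / 128) * (947 / 250000)) := by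
  simp only [dt30, DT.val, sw30, sl30, sv30]
  ((try push_cast); ring1)
theorem ta_dt31 (x : ℝ) : dt31.val (fun p x => kcg.v p x) (-49 / 100) (cT (-49 / 100)) x = (16341 / 100000000 + (x - 5 / 128) * (947 / 250000)) := by
  simp only [dt31, DT.val, sw31, sl31, sl31_2, sv31, sv31_2]
  ((try push_cast); ring1)
theorem tb_dt31 (x : ℝ) : dt31.val (fun p x => kcg.v p x) (-2773 / 5677) (11353 / 11354) x = (38927173983829 / 206261305600000000 + (x - 5 / 128) * (437276737477323 / 103130652800000000) + (x - 5 / 128) ^ 2 * (-1039697 / 28385000000)) := by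
  simp only [dt31, DT.val, sw31, sl31, sl31_2, sv31, sv31_2]
  ((try push_cast); ring1)
theorem ta_dt32 (x : ℝ) : dt32.val (fun p x => kcg.v p x) (-2773 / 5677) (11353 / 11354) x = (38927173983829 / 206261305600000000 + (x - 5 / 128) * (437276737477323 / 103130652800000000) + (x - 5 / 128) ^ 2 * (-1039697 / 28385000000)) := by
  simp only [dt32, DT.val, cloR, kgA]
  ring1
theorem tb_dt32 (x : ℝ) : dt32.val (fun p x => kcg.v p x) (-299 / 662) (661 / 662) x = (91203375471 / 70119040000000 + (x - 5 / 128) * (36721177319 / 4382440000000) + (x - 5 / 128) ^ 2 * (35477 / 20687500)) := by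
  simp only [dt32, DT.val, cloR, kgB]
  ring1
theorem ta_dt54 (x : ℝ) : dt54.val (fun p x => kcg.v p x) (-49 / 100) (cT (-49 / 100)) x = (16341 / 100000000 + (x - 5 / 128) * (947 / 250000)) :=
  (DT.val_le (by simp only [Cn.rt_v, Cn.ng_v]; norm_num)).trans (ta_dt31 x)
theorem tb_dt54 (x : ℝ) : dt54.val (fun p x => kcg.v p x) (-299 / 662) (661 / 662) x = (91203375471 / 70119040000000 + (x - 5 / 128) * (36721177319 / 4382440000000) + (x - 5 / 128) ^ 2 * (35477 / 20687500)) :=
  (DT.val_gt (by simp only [Cn.rt_v, Cn.ng_v]; norm_num)).trans (tb_dt32 x)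
theorem ta_dt55 (x : ℝ) : dt55.val (fun p x => kcg.v p x) (-1 / 2) (cT (-1 / 2)) x = (0) :=
  (DT.val_le (by simp only [Cn.rt_v, Cn.ng_v]; norm_num)).trans (ta_dt30 x)
theorem tb_dt55 (x : ℝ) : dt55.val (fun p x => kcg.v p x) (-299 / 662) (661 / 662) x = (91203375471 / 70119040000000 + (x - 5 / 128) * (36721177319 / 4382440000000) + (x - 5 / 128) ^ 2 * (35477 / 20687500)) :=
  (DT.val_gt (by simp only [Cn.rt_v, Cn.ng_v]; norm_num)).trans (tb_dt54 x)
theorem ta_dt33 (x : ℝ) : dt33.val (fun p x => kcg.v p x) (-299 / 662) (661 / 662) x = (91203375471 / 70119040000000 + (x - 5 / 128) * (36721177319 / 4382440000000) + (x - 5 / 128) ^ 2 * (35477 / 20687500)) := by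
  simp only [dt33, DT.val, sw33, sl33, sl33_2, sv33, sv33_2]
  ((try push_cast); ring1)
theorem tb_dt33 (x : ℝ) : dt33.val (fun p x => kcg.v p x) (-9 / 25) (cT (-9 / 25)) x = (888127 / 100000000 + (x - 5 / 128) * (-701 / 2000000)) := by
  simp only [dt33, DT.val, sw33, sl33, sl33_2, sv33, sv33_2]
  ((try push_cast); ring1)
theorem ta_dt34 (x : ℝ) : dt34.val (fun p x => kcg.v p x) (-9 / 25) (cT (-9 / 25)) x = (888127 / 100000000 + (x - 5 / 128) * (-701 / 2000000)) := by
  simp only [dt34, DT.val, sw34, sl34, sv34]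
  ((try push_cast); ring1)
theorem tb_dt34 (x : ℝ) : dt34.val (fun p x => kcg.v p x) (-33 / 100) (cT (-33 / 100)) x = (29837 / 2500000 + (x - 5 / 128) * (-3443 / 2500000)) := by
  simp only [dt34, DT.val, sw34, sl34, sv34]
  ((try push_cast); ring1)
theorem ta_dt35 (x : ℝ) : dt35.val (fun p x => kcg.v p x) (-33 / 100) (cT (-33 / 100)) x = (29837 / 2500000 + (x - 5 / 128) * (-3443 / 2500000)) := by
  simp only [dt35, DT.val, sw35, sl35, sv35]
  ((try push_cast); ring1)
theorem tb_dt35 (x : ℝ) : dt35.val (fun p x => kcg.v p x) (-3 / 10) (cT (-3 / 10)) x = (1427359 / 100000000 + (x - 5 / 128) * (-9251 / 10000000)) := by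
  simp only [dt35, DT.val, sw35, sl35, sv35]
  ((try push_cast); ring1)
theorem ta_dt56 (x : ℝ) : dt56.val (fun p x => kcg.v p x) (-9 / 25) (cT (-9 / 25)) x = (888127 / 100000000 + (x - 5 / 128) * (-701 / 2000000)) :=
  (DT.val_le (by simp only [Cn.rt_v, Cn.ng_v]; norm_num)).trans (ta_dt34 x)
theorem tb_dt56 (x : ℝ) : dt56.val (fun p x => kcg.v p x) (-3 / 10) (cT (-3 / 10)) x = (1427359 / 100000000 + (x - 5 / 128) * (-9251 / 10000000)) :=
  (DT.val_gt (by simp only [Cn.rt_v, Cn.ng_v]; norm_num)).trans (tb_dt35 x)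
theorem ta_dt57 (x : ℝ) : dt57.val (fun p x => kcg.v p x) (-299 / 662) (661 / 662) x = (91203375471 / 70119040000000 + (x - 5 / 128) * (36721177319 / 4382440000000) + (x - 5 / 128) ^ 2 * (35477 / 20687500)) :=
  (DT.val_le (by simp only [Cn.rt_v, Cn.ng_v]; norm_num)).trans (ta_dt33 x)
theorem tb_dt57 (x : ℝ) : dt57.val (fun p x => kcg.v p x) (-3 / 10) (cT (-3 / 10)) x = (1427359 / 100000000 + (x - 5 / 128) * (-9251 / 10000000)) :=
  (DT.val_gt (by simp only [Cn.rt_v, Cn.ng_v]; norm_num)).trans (tb_dt56 x)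
theorem ta_dt58 (x : ℝ) : dt58.val (fun p x => kcg.v p x) (-1 / 2) (cT (-1 / 2)) x = (0) :=
  (DT.val_le (by simp only [Cn.rt_v, Cn.ng_v]; norm_num)).trans (ta_dt55 x)
theorem tb_dt58 (x : ℝ) : dt58.val (fun p x => kcg.v p x) (-3 / 10) (cT (-3 / 10)) x = (1427359 / 100000000 + (x - 5 / 128) * (-9251 / 10000000)) :=
  (DT.val_gt (by simp only [Cn.rt_v, Cn.ng_v]; norm_num)).trans (tb_dt57 x)
theorem ta_dt36 (x : ℝ) : dt36.val (fun p x => kcg.v p x) (-3 / 10) (cT (-3 / 10)) x = (1427359 / 100000000 + (x - 5 / 128) * (-9251 / 10000000)) := by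
  simp only [dt36, DT.val, sw36, sl36, sv36]
  ((try push_cast); ring1)
theorem tb_dt36 (x : ℝ) : dt36.val (fun p x => kcg.v p x) (-13 / 50) (cT (-13 / 50)) x = (21239 / 1250000 + (x - 5 / 128) * (-33977 / 10000000)) := by
  simp only [dt36, DT.val, sw36, sl36, sv36]
  ((try push_cast); ring1)
theorem ta_dt37 (x : ℝ) : dt37.val (fun p x => kcg.v p x) (-13 / 50) (cT (-13 / 50)) x = (21239 / 1250000 + (x - 5 / 128) * (-33977 / 10000000)) := by
  simp only [dt37, DT.val, sw37, sl37, sv37]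
  ((try push_cast); ring1)
theorem tb_dt37 (x : ℝ) : dt37.val (fun p x => kcg.v p x) (-11 / 50) (cT (-11 / 50)) x = (945211 / 50000000 + (x - 5 / 128) * (-46699 / 10000000)) := by
  simp only [dt37, DT.val, sw37, sl37, sv37]
  ((try push_cast); ring1)
theorem ta_dt38 (x : ℝ) : dt38.val (fun p x => kcg.v p x) (-11 / 50) (cT (-11 / 50)) x = (945211 / 50000000 + (x - 5 / 128) * (-46699 / 10000000)) := by
  simp only [dt38, DT.val, sw38, sl38, sv38]
  ((try push_cast); ring1)
theorem tb_dt38 (x : ℝ) : dt38.val (fun p x => kcg.v p x) (-9 / 50) (cT (-9 / 50)) x = (497707 / 25000000 + (x - 5 / 128) * (-15197 / 2500000)) := by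
  simp only [dt38, DT.val, sw38, sl38, sv38]
  ((try push_cast); ring1)
theorem ta_dt59 (x : ℝ) : dt59.val (fun p x => kcg.v p x) (-13 / 50) (cT (-13 / 50)) x = (21239 / 1250000 + (x - 5 / 128) * (-33977 / 10000000)) :=
  (DT.val_le (by simp only [Cn.rt_v, Cn.ng_v]; norm_num)).trans (ta_dt37 x)
theorem tb_dt59 (x : ℝ) : dt59.val (fun p x => kcg.v p x) (-9 / 50) (cT (-9 / 50)) x = (497707 / 25000000 + (x - 5 / 128) * (-15197 / 2500000)) :=
  (DT.val_gt (by simp only [Cn.rt_v, Cn.ng_v]; norm_num)).trans (tb_dt38 x)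
theorem ta_dt60 (x : ℝ) : dt60.val (fun p x => kcg.v p x) (-3 / 10) (cT (-3 / 10)) x = (1427359 / 100000000 + (x - 5 / 128) * (-9251 / 10000000)) :=
  (DT.val_le (by simp only [Cn.rt_v, Cn.ng_v]; norm_num)).trans (ta_dt36 x)
theorem tb_dt60 (x : ℝ) : dt60.val (fun p x => kcg.v p x) (-9 / 50) (cT (-9 / 50)) x = (497707 / 25000000 + (x - 5 / 128) * (-15197 / 2500000)) :=
  (DT.val_gt (by simp only [Cn.rt_v, Cn.ng_v]; norm_num)).trans (tb_dt59 x)
theorem ta_dt39 (x : ℝ) : dt39.val (fun p x => kcg.v p x) (-9 / 50) (cT (-9 / 50)) x = (497707 / 25000000 + (x - 5 / 128) * (-15197 / 2500000)) := by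
  simp only [dt39, DT.val, sw39, sl39, sv39]
  ((try push_cast); ring1)
theorem tb_dt39 (x : ℝ) : dt39.val (fun p x => kcg.v p x) (-7 / 50) (cT (-7 / 50)) x = (510683 / 25000000 + (x - 5 / 128) * (-36137 / 5000000)) := by
  simp only [dt39, DT.val, sw39, sl39, sv39]
  ((try push_cast); ring1)
theorem ta_dt40 (x : ℝ) : dt40.val (fun p x => kcg.v p x) (-7 / 50) (cT (-7 / 50)) x = (510683 / 25000000 + (x - 5 / 128) * (-36137 / 5000000)) := by
  simp only [dt40, DT.val, sw40, sl40, sv40]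
  ((try push_cast); ring1)
theorem tb_dt40 (x : ℝ) : dt40.val (fun p x => kcg.v p x) (-1 / 10) (cT (-1 / 10)) x = (205029 / 10000000 + (x - 5 / 128) * (-86781 / 10000000)) := by
  simp only [dt40, DT.val, sw40, sl40, sv40]
  ((try push_cast); ring1)
theorem ta_dt41 (x : ℝ) : dt41.val (fun p x => kcg.v p x) (-1 / 10) (cT (-1 / 10)) x = (205029 / 10000000 + (x - 5 / 128) * (-86781 / 10000000)) := by
  simp only [dt41, DT.val, sw41, sl41, sv41]
  ((try push_cast); ring1)
theorem tb_dt41 (x : ℝ) : dt41.val (fun p x => kcg.v p x) (-1 / 16) (cT (-1 / 16)) x = (2048881 / 100000000 + (x - 5 / 128) * (-23543 / 2500000)) := by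
  simp only [dt41, DT.val, sw41, sl41, sv41]
  ((try push_cast); ring1)
theorem ta_dt61 (x : ℝ) : dt61.val (fun p x => kcg.v p x) (-7 / 50) (cT (-7 / 50)) x = (510683 / 25000000 + (x - 5 / 128) * (-36137 / 5000000)) :=
  (DT.val_le (by simp only [Cn.rt_v, Cn.ng_v]; norm_num)).trans (ta_dt40 x)
theorem tb_dt61 (x : ℝ) : dt61.val (fun p x => kcg.v p x) (-1 / 16) (cT (-1 / 16)) x = (2048881 / 100000000 + (x - 5 / 128) * (-23543 / 2500000)) :=
  (DT.val_gt (by simp only [Cn.rt_v, Cn.ng_v]; norm_num)).trans (tb_dt41 x)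
theorem ta_dt62 (x : ℝ) : dt62.val (fun p x => kcg.v p x) (-9 / 50) (cT (-9 / 50)) x = (497707 / 25000000 + (x - 5 / 128) * (-15197 / 2500000)) :=
  (DT.val_le (by simp only [Cn.rt_v, Cn.ng_v]; norm_num)).trans (ta_dt39 x)
theorem tb_dt62 (x : ℝ) : dt62.val (fun p x => kcg.v p x) (-1 / 16) (cT (-1 / 16)) x = (2048881 / 100000000 + (x - 5 / 128) * (-23543 / 2500000)) :=
  (DT.val_gt (by simp only [Cn.rt_v, Cn.ng_v]; norm_num)).trans (tb_dt61 x)
theorem ta_dt63 (x : ℝ) : dt63.val (fun p x => kcg.v p x) (-3 / 10) (cT (-3 / 10)) x = (1427359 / 100000000 + (x - 5 / 128) * (-9251 / 10000000)) :=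
  (DT.val_le (by simp only [Cn.rt_v, Cn.ng_v]; norm_num)).trans (ta_dt60 x)
theorem tb_dt63 (x : ℝ) : dt63.val (fun p x => kcg.v p x) (-1 / 16) (cT (-1 / 16)) x = (2048881 / 100000000 + (x - 5 / 128) * (-23543 / 2500000)) :=
  (DT.val_gt (by simp only [Cn.rt_v, Cn.ng_v]; norm_num)).trans (tb_dt62 x)
theorem ta_dt64 (x : ℝ) : dt64.val (fun p x => kcg.v p x) (-1 / 2) (cT (-1 / 2)) x = (0) :=
  (DT.val_le (by simp only [Cn.rt_v, Cn.ng_v]; norm_num)).trans (ta_dt58 x)
theorem tb_dt64 (x : ℝ) : dt64.val (fun p x => kcg.v p x) (-1 / 16) (cT (-1 / 16)) x = (2048881 / 100000000 + (x - 5 / 128) * (-23543 / 2500000)) :=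
  (DT.val_gt (by simp only [Cn.rt_v, Cn.ng_v]; norm_num)).trans (tb_dt63 x)
theorem ta_dt42 (x : ℝ) : dt42.val (fun p x => kcg.v p x) (-1 / 16) (cT (-1 / 16)) x = (2048881 / 100000000 + (x - 5 / 128) * (-23543 / 2500000)) := by
  simp only [dt42, DT.val, sw42, sl42, sv42]
  ((try push_cast); ring1)
theorem tb_dt42 (x : ℝ) : dt42.val (fun p x => kcg.v p x) (1 / 16) (cT (1 / 16)) x = (101733 / 5000000 + (x - 5 / 128) * (-108203 / 10000000)) := by
  simp only [dt42, DT.val, sw42, sl42, sv42]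
  ((try push_cast); ring1)
theorem ta_dt43 (x : ℝ) : dt43.val (fun p x => kcg.v p x) (1 / 16) (cT (1 / 16)) x = (101733 / 5000000 + (x - 5 / 128) * (-108203 / 10000000)) := by
  simp only [dt43, DT.val, sw43, sl43, sv43]
  ((try push_cast); ring1)
theorem tb_dt43 (x : ℝ) : dt43.val (fun p x => kcg.v p x) (1 / 10) (cT (1 / 10)) x = (406329 / 20000000 + (x - 5 / 128) * (-5777 / 500000)) := by
  simp only [dt43, DT.val, sw43, sl43, sv43]
  ((try push_cast); ring1)
theorem ta_dt44 (x : ℝ) : dt44.val (fun p x => kcg.v p x) (1 / 10) (cT (1 / 10)) x = (406329 / 20000000 + (x - 5 / 128) * (-5777 / 500000)) := by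
  simp only [dt44, DT.val, sw44, sl44, sv44]
  ((try push_cast); ring1)
theorem tb_dt44 (x : ℝ) : dt44.val (fun p x => kcg.v p x) (7 / 50) (cT (7 / 50)) x = (201831 / 10000000 + (x - 5 / 128) * (-132177 / 10000000)) := by
  simp only [dt44, DT.val, sw44, sl44, sv44]
  ((try push_cast); ring1)
theorem ta_dt65 (x : ℝ) : dt65.val (fun p x => kcg.v p x) (1 / 16) (cT (1 / 16)) x = (101733 / 5000000 + (x - 5 / 128) * (-108203 / 10000000)) :=
  (DT.val_le (by simp only [Cn.rt_v, Cn.ng_v]; norm_num)).trans (ta_dt43 x)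
theorem tb_dt65 (x : ℝ) : dt65.val (fun p x => kcg.v p x) (7 / 50) (cT (7 / 50)) x = (201831 / 10000000 + (x - 5 / 128) * (-132177 / 10000000)) :=
  (DT.val_gt (by simp only [Cn.rt_v, Cn.ng_v]; norm_num)).trans (tb_dt44 x)
theorem ta_dt66 (x : ℝ) : dt66.val (fun p x => kcg.v p x) (-1 / 16) (cT (-1 / 16)) x = (2048881 / 100000000 + (x - 5 / 128) * (-23543 / 2500000)) :=
  (DT.val_le (by simp only [Cn.rt_v, Cn.ng_v]; norm_num)).trans (ta_dt42 x)
theorem tb_dt66 (x : ℝ) : dt66.val (fun p x => kcg.v p x) (7 / 50) (cT (7 / 50)) x = (201831 / 10000000 + (x - 5 / 128) * (-132177 / 10000000)) :=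
  (DT.val_gt (by simp only [Cn.rt_v, Cn.ng_v]; norm_num)).trans (tb_dt65 x)
theorem ta_dt45 (x : ℝ) : dt45.val (fun p x => kcg.v p x) (7 / 50) (cT (7 / 50)) x = (201831 / 10000000 + (x - 5 / 128) * (-132177 / 10000000)) := by
  simp only [dt45, DT.val, sw45, sl45, sv45]
  ((try push_cast); ring1)
theorem tb_dt45 (x : ℝ) : dt45.val (fun p x => kcg.v p x) (9 / 50) (cT (9 / 50)) x = (1964641 / 100000000 + (x - 5 / 128) * (-72817 / 5000000)) := by
  simp only [dt45, DT.val, sw45, sl45, sv45]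
  ((try push_cast); ring1)
theorem ta_dt46 (x : ℝ) : dt46.val (fun p x => kcg.v p x) (9 / 50) (cT (9 / 50)) x = (1964641 / 100000000 + (x - 5 / 128) * (-72817 / 5000000)) := by
  simp only [dt46, DT.val, sw46, sl46, sv46]
  ((try push_cast); ring1)
theorem tb_dt46 (x : ℝ) : dt46.val (fun p x => kcg.v p x) (11 / 50) (cT (11 / 50)) x = (1833199 / 100000000 + (x - 5 / 128) * (-5239 / 312500)) := by
  simp only [dt46, DT.val, sw46, sl46, sv46]
  ((try push_cast); ring1)
theorem ta_dt47 (x : ℝ) : dt47.val (fun p x => kcg.v p x) (11 / 50) (cT (11 / 50)) x = (1833199 / 100000000 + (x - 5 / 128) * (-5239 / 312500)) := by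
  simp only [dt47, DT.val, sw47, sl47, sv47]
  ((try push_cast); ring1)
theorem tb_dt47 (x : ℝ) : dt47.val (fun p x => kcg.v p x) (13 / 50) (cT (13 / 50)) x = (1641159 / 100000000 + (x - 5 / 128) * (-17377 / 1000000)) := by
  simp only [dt47, DT.val, sw47, sl47, sv47]
  ((try push_cast); ring1)
theorem ta_dt67 (x : ℝ) : dt67.val (fun p x => kcg.v p x) (9 / 50) (cT (9 / 50)) x = (1964641 / 100000000 + (x - 5 / 128) * (-72817 / 5000000)) :=
  (DT.val_le (by simp only [Cn.rt_v, Cn.ng_v]; norm_num)).trans (ta_dt46 x)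
theorem tb_dt67 (x : ℝ) : dt67.val (fun p x => kcg.v p x) (13 / 50) (cT (13 / 50)) x = (1641159 / 100000000 + (x - 5 / 128) * (-17377 / 1000000)) :=
  (DT.val_gt (by simp only [Cn.rt_v, Cn.ng_v]; norm_num)).trans (tb_dt47 x)
theorem ta_dt68 (x : ℝ) : dt68.val (fun p x => kcg.v p x) (7 / 50) (cT (7 / 50)) x = (201831 / 10000000 + (x - 5 / 128) * (-132177 / 10000000)) :=
  (DT.val_le (by simp only [Cn.rt_v, Cn.ng_v]; norm_num)).trans (ta_dt45 x)
theorem tb_dt68 (x : ℝ) : dt68.val (fun p x => kcg.v p x) (13 / 50) (cT (13 / 50)) x = (1641159 / 100000000 + (x - 5 / 128) * (-17377 / 1000000)) :=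
  (DT.val_gt (by simp only [Cn.rt_v, Cn.ng_v]; norm_num)).trans (tb_dt67 x)
theorem ta_dt69 (x : ℝ) : dt69.val (fun p x => kcg.v p x) (-1 / 16) (cT (-1 / 16)) x = (2048881 / 100000000 + (x - 5 / 128) * (-23543 / 2500000)) :=
  (DT.val_le (by simp only [Cn.rt_v, Cn.ng_v]; norm_num)).trans (ta_dt66 x)
theorem tb_dt69 (x : ℝ) : dt69.val (fun p x => kcg.v p x) (13 / 50) (cT (13 / 50)) x = (1641159 / 100000000 + (x - 5 / 128) * (-17377 / 1000000)) :=
  (DT.val_gt (by simp only [Cn.rt_v, Cn.ng_v]; norm_num)).trans (tb_dt68 x)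
theorem ta_dt48 (x : ℝ) : dt48.val (fun p x => kcg.v p x) (13 / 50) (cT (13 / 50)) x = (1641159 / 100000000 + (x - 5 / 128) * (-17377 / 1000000)) := by
  simp only [dt48, DT.val, sw48, sl48, sv48]
  ((try push_cast); ring1)
theorem tb_dt48 (x : ℝ) : dt48.val (fun p x => kcg.v p x) (3 / 10) (cT (3 / 10)) x = (87683 / 6250000 + (x - 5 / 128) * (-222783 / 10000000)) := by
  simp only [dt48, DT.val, sw48, sl48, sv48]
  ((try push_cast); ring1)
theorem ta_dt49 (x : ℝ) : dt49.val (fun p x => kcg.v p x) (3 / 10) (cT (3 / 10)) x = (87683 / 6250000 + (x - 5 / 128) * (-222783 / 10000000)) := by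
  simp only [dt49, DT.val, sw49, sl49, sv49]
  ((try push_cast); ring1)
theorem tb_dt49 (x : ℝ) : dt49.val (fun p x => kcg.v p x) (17 / 50) (cT (17 / 50)) x = (532489 / 50000000 + (x - 5 / 128) * (-186597 / 10000000)) := by
  simp only [dt49, DT.val, sw49, sl49, sv49]
  ((try push_cast); ring1)
theorem ta_dt50 (x : ℝ) : dt50.val (fun p x => kcg.v p x) (17 / 50) (cT (17 / 50)) x = (532489 / 50000000 + (x - 5 / 128) * (-186597 / 10000000)) := by
  simp only [dt50, DT.val, sw50, sl50, sv50]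
  ((try push_cast); ring1)
theorem tb_dt50 (x : ℝ) : dt50.val (fun p x => kcg.v p x) (19 / 50) (cT (19 / 50)) x = (339731 / 50000000 + (x - 5 / 128) * (-304041 / 10000000)) := by
  simp only [dt50, DT.val, sw50, sl50, sv50]
  ((try push_cast); ring1)
theorem ta_dt70 (x : ℝ) : dt70.val (fun p x => kcg.v p x) (3 / 10) (cT (3 / 10)) x = (87683 / 6250000 + (x - 5 / 128) * (-222783 / 10000000)) :=
  (DT.val_le (by simp only [Cn.rt_v, Cn.ng_v]; norm_num)).trans (ta_dt49 x)
theorem tb_dt70 (x : ℝ) : dt70.val (fun p x => kcg.v p x) (19 / 50) (cT (19 / 50)) x = (339731 / 50000000 + (x - 5 / 128) * (-304041 / 10000000)) :=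
  (DT.val_gt (by simp only [Cn.rt_v, Cn.ng_v]; norm_num)).trans (tb_dt50 x)
theorem ta_dt71 (x : ℝ) : dt71.val (fun p x => kcg.v p x) (13 / 50) (cT (13 / 50)) x = (1641159 / 100000000 + (x - 5 / 128) * (-17377 / 1000000)) :=
  (DT.val_le (by simp only [Cn.rt_v, Cn.ng_v]; norm_num)).trans (ta_dt48 x)
theorem tb_dt71 (x : ℝ) : dt71.val (fun p x => kcg.v p x) (19 / 50) (cT (19 / 50)) x = (339731 / 50000000 + (x - 5 / 128) * (-304041 / 10000000)) :=
  (DT.val_gt (by simp only [Cn.rt_v, Cn.ng_v]; norm_num)).trans (tb_dt70 x)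
theorem ta_dt51 (x : ℝ) : dt51.val (fun p x => kcg.v p x) (19 / 50) (cT (19 / 50)) x = (339731 / 50000000 + (x - 5 / 128) * (-304041 / 10000000)) := by
  simp only [dt51, DT.val, sw51, sl51, sv51]
  ((try push_cast); ring1)
theorem tb_dt51 (x : ℝ) : dt51.val (fun p x => kcg.v p x) (21 / 50) (cT (21 / 50)) x = (30307 / 10000000 + (x - 5 / 128) * (-175587 / 10000000)) := by
  simp only [dt51, DT.val, sw51, sl51, sv51]
  ((try push_cast); ring1)
theorem ta_dt52 (x : ℝ) : dt52.val (fun p x => kcg.v p x) (21 / 50) (cT (21 / 50)) x = (30307 / 10000000 + (x - 5 / 128) * (-175587 / 10000000)) := by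
  simp only [dt52, DT.val, sw52, sl52, sv52]
  ((try push_cast); ring1)
theorem tb_dt52 (x : ℝ) : dt52.val (fun p x => kcg.v p x) (227 / 500) (cT (227 / 500)) x = (88167 / 100000000 + (x - 5 / 128) * (8889 / 1000000)) := by
  simp only [dt52, DT.val, sw52, sl52, sv52]
  ((try push_cast); ring1)
theorem ta_dt53 (x : ℝ) : dt53.val (fun p x => kcg.v p x) (227 / 500) (cT (227 / 500)) x = (88167 / 100000000 + (x - 5 / 128) * (8889 / 1000000)) := by
  simp only [dt53, DT.val, sw53, sl53, sv53]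
  ((try push_cast); ring1)
theorem tb_dt53 (x : ℝ) : dt53.val (fun p x => kcg.v p x) (1 / 2) (cT (1 / 2)) x = (0) := by
  simp only [dt53, DT.val, sw53, sl53, sv53]
  ((try push_cast); ring1)
theorem ta_dt72 (x : ℝ) : dt72.val (fun p x => kcg.v p x) (21 / 50) (cT (21 / 50)) x = (30307 / 10000000 + (x - 5 / 128) * (-175587 / 10000000)) :=
  (DT.val_le (by simp only [Cn.rt_v, Cn.ng_v]; norm_num)).trans (ta_dt52 x)
theorem tb_dt72 (x : ℝ) : dt72.val (fun p x => kcg.v p x) (1 / 2) (cT (1 / 2)) x = (0) :=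
  (DT.val_gt (by simp only [Cn.rt_v, Cn.ng_v]; norm_num)).trans (tb_dt53 x)
theorem ta_dt73 (x : ℝ) : dt73.val (fun p x => kcg.v p x) (19 / 50) (cT (19 / 50)) x = (339731 / 50000000 + (x - 5 / 128) * (-304041 / 10000000)) :=
  (DT.val_le (by simp only [Cn.rt_v, Cn.ng_v]; norm_num)).trans (ta_dt51 x)
theorem tb_dt73 (x : ℝ) : dt73.val (fun p x => kcg.v p x) (1 / 2) (cT (1 / 2)) x = (0) :=
  (DT.val_gt (by simp only [Cn.rt_v, Cn.ng_v]; norm_num)).trans (tb_dt72 x)
theorem ta_dt74 (x : ℝ) : dt74.val (fun p x => kcg.v p x) (13 / 50) (cT (13 / 50)) x = (1641159 / 100000000 + (x - 5 / 128) * (-17377 / 1000000)) :=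
  (DT.val_le (by simp only [Cn.rt_v, Cn.ng_v]; norm_num)).trans (ta_dt71 x)
theorem tb_dt74 (x : ℝ) : dt74.val (fun p x => kcg.v p x) (1 / 2) (cT (1 / 2)) x = (0) :=
  (DT.val_gt (by simp only [Cn.rt_v, Cn.ng_v]; norm_num)).trans (tb_dt73 x)
theorem ta_dt75 (x : ℝ) : dt75.val (fun p x => kcg.v p x) (-1 / 16) (cT (-1 / 16)) x = (2048881 / 100000000 + (x - 5 / 128) * (-23543 / 2500000)) :=
  (DT.val_le (by simp only [Cn.rt_v, Cn.ng_v]; norm_num)).trans (ta_dt69 x)
theorem tb_dt75 (x : ℝ) : dt75.val (fun p x => kcg.v p x) (1 / 2) (cT (1 / 2)) x = (0) :=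
  (DT.val_gt (by simp only [Cn.rt_v, Cn.ng_v]; norm_num)).trans (tb_dt74 x)
theorem ta_dt76 (x : ℝ) : dt76.val (fun p x => kcg.v p x) (-1 / 2) (cT (-1 / 2)) x = (0) :=
  (DT.val_le (by simp only [Cn.rt_v, Cn.ng_v]; norm_num)).trans (ta_dt64 x)
theorem tb_dt76 (x : ℝ) : dt76.val (fun p x => kcg.v p x) (1 / 2) (cT (1 / 2)) x = (0) :=
  (DT.val_gt (by simp only [Cn.rt_v, Cn.ng_v]; norm_num)).trans (tb_dt75 x)
theorem to_dt30 (x : ℝ) : dt30.Ok (fun p x => kcg.v p x) x := trivial
theorem to_dt31 (x : ℝ) : dt31.Ok (fun p x => kcg.v p x) x := trivial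
theorem to_dt32 (x : ℝ) : dt32.Ok (fun p x => kcg.v p x) x := trivial
theorem to_dt54 (x : ℝ) : dt54.Ok (fun p x => kcg.v p x) x :=
  DT.ok_node (v := -2773 / 5677) (by simp only [Cn.rt_v, Cn.ng_v]; norm_num) (by rw [abs_le]; constructor <;> norm_num) ctA (tb_dt31 x) (ta_dt32 x) (by ring1) (to_dt31 x) (to_dt32 x)
theorem to_dt55 (x : ℝ) : dt55.Ok (fun p x => kcg.v p x) x :=
  DT.ok_node (v := -49 / 100) (by simp only [Cn.rt_v, Cn.ng_v]; norm_num) (by rw [abs_le]; constructor <;> norm_num) rfl (tb_dt30 x) (ta_dt54 x) (by ring1) (to_dt30 x) (to_dt54 x)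
theorem to_dt33 (x : ℝ) : dt33.Ok (fun p x => kcg.v p x) x := trivial
theorem to_dt34 (x : ℝ) : dt34.Ok (fun p x => kcg.v p x) x := trivial
theorem to_dt35 (x : ℝ) : dt35.Ok (fun p x => kcg.v p x) x := trivial
theorem to_dt56 (x : ℝ) : dt56.Ok (fun p x => kcg.v p x) x :=
  DT.ok_node (v := -33 / 100) (by simp only [Cn.rt_v, Cn.ng_v]; norm_num) (by rw [abs_le]; constructor <;> norm_num) rfl (tb_dt34 x) (ta_dt35 x) (by ring1) (to_dt34 x) (to_dt35 x)
theorem to_dt57 (x : ℝ) : dt57.Ok (fun p x => kcg.v p x) x :=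
  DT.ok_node (v := -9 / 25) (by simp only [Cn.rt_v, Cn.ng_v]; norm_num) (by rw [abs_le]; constructor <;> norm_num) rfl (tb_dt33 x) (ta_dt56 x) (by ring1) (to_dt33 x) (to_dt56 x)
theorem to_dt58 (x : ℝ) : dt58.Ok (fun p x => kcg.v p x) x :=
  DT.ok_node (v := -299 / 662) (by simp only [Cn.rt_v, Cn.ng_v]; norm_num) (by rw [abs_le]; constructor <;> norm_num) ctB (tb_dt55 x) (ta_dt57 x) (by ring1) (to_dt55 x) (to_dt57 x)
theorem to_dt36 (x : ℝ) : dt36.Ok (fun p x => kcg.v p x) x := trivial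
theorem to_dt37 (x : ℝ) : dt37.Ok (fun p x => kcg.v p x) x := trivial
theorem to_dt38 (x : ℝ) : dt38.Ok (fun p x => kcg.v p x) x := trivial
theorem to_dt59 (x : ℝ) : dt59.Ok (fun p x => kcg.v p x) x :=
  DT.ok_node (v := -11 / 50) (by simp only [Cn.rt_v, Cn.ng_v]; norm_num) (by rw [abs_le]; constructor <;> norm_num) rfl (tb_dt37 x) (ta_dt38 x) (by ring1) (to_dt37 x) (to_dt38 x)
theorem to_dt60 (x : ℝ) : dt60.Ok (fun p x => kcg.v p x) x :=
  DT.ok_node (v := -13 / 50) (by simp only [Cn.rt_v, Cn.ng_v]; norm_num) (by rw [abs_le]; constructor <;> norm_num) rfl (tb_dt36 x) (ta_dt59 x) (by ring1) (to_dt36 x) (to_dt59 x)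
theorem to_dt39 (x : ℝ) : dt39.Ok (fun p x => kcg.v p x) x := trivial
theorem to_dt40 (x : ℝ) : dt40.Ok (fun p x => kcg.v p x) x := trivial
theorem to_dt41 (x : ℝ) : dt41.Ok (fun p x => kcg.v p x) x := trivial
theorem to_dt61 (x : ℝ) : dt61.Ok (fun p x => kcg.v p x) x :=
  DT.ok_node (v := -1 / 10) (by simp only [Cn.rt_v, Cn.ng_v]; norm_num) (by rw [abs_le]; constructor <;> norm_num) rfl (tb_dt40 x) (ta_dt41 x) (by ring1) (to_dt40 x) (to_dt41 x)
theorem to_dt62 (x : ℝ) : dt62.Ok (fun p x => kcg.v p x) x :=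
  DT.ok_node (v := -7 / 50) (by simp only [Cn.rt_v, Cn.ng_v]; norm_num) (by rw [abs_le]; constructor <;> norm_num) rfl (tb_dt39 x) (ta_dt61 x) (by ring1) (to_dt39 x) (to_dt61 x)
theorem to_dt63 (x : ℝ) : dt63.Ok (fun p x => kcg.v p x) x :=
  DT.ok_node (v := -9 / 50) (by simp only [Cn.rt_v, Cn.ng_v]; norm_num) (by rw [abs_le]; constructor <;> norm_num) rfl (tb_dt60 x) (ta_dt62 x) (by ring1) (to_dt60 x) (to_dt62 x)
theorem to_dt64 (x : ℝ) : dt64.Ok (fun p x => kcg.v p x) x :=
  DT.ok_node (v := -3 / 10) (by simp only [Cn.rt_v, Cn.ng_v]; norm_num) (by rw [abs_le]; constructor <;> norm_num) rfl (tb_dt58 x) (ta_dt63 x) (by ring1) (to_dt58 x) (to_dt63 x)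
theorem to_dt42 (x : ℝ) : dt42.Ok (fun p x => kcg.v p x) x := trivial
theorem to_dt43 (x : ℝ) : dt43.Ok (fun p x => kcg.v p x) x := trivial
theorem to_dt44 (x : ℝ) : dt44.Ok (fun p x => kcg.v p x) x := trivial
theorem to_dt65 (x : ℝ) : dt65.Ok (fun p x => kcg.v p x) x :=
  DT.ok_node (v := 1 / 10) (by simp only [Cn.rt_v, Cn.ng_v]; norm_num) (by rw [abs_le]; constructor <;> norm_num) rfl (tb_dt43 x) (ta_dt44 x) (by ring1) (to_dt43 x) (to_dt44 x)
theorem to_dt66 (x : ℝ) : dt66.Ok (fun p x => kcg.v p x) x :=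
  DT.ok_node (v := 1 / 16) (by simp only [Cn.rt_v, Cn.ng_v]; norm_num) (by rw [abs_le]; constructor <;> norm_num) rfl (tb_dt42 x) (ta_dt65 x) (by ring1) (to_dt42 x) (to_dt65 x)
theorem to_dt45 (x : ℝ) : dt45.Ok (fun p x => kcg.v p x) x := trivial
theorem to_dt46 (x : ℝ) : dt46.Ok (fun p x => kcg.v p x) x := trivial
theorem to_dt47 (x : ℝ) : dt47.Ok (fun p x => kcg.v p x) x := trivial
theorem to_dt67 (x : ℝ) : dt67.Ok (fun p x => kcg.v p x) x :=
  DT.ok_node (v := 11 / 50) (by simp only [Cn.rt_v, Cn.ng_v]; norm_num) (by rw [abs_le]; constructor <;> norm_num) rfl (tb_dt46 x) (ta_dt47 x) (by ring1) (to_dt46 x) (to_dt47 x)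
theorem to_dt68 (x : ℝ) : dt68.Ok (fun p x => kcg.v p x) x :=
  DT.ok_node (v := 9 / 50) (by simp only [Cn.rt_v, Cn.ng_v]; norm_num) (by rw [abs_le]; constructor <;> norm_num) rfl (tb_dt45 x) (ta_dt67 x) (by ring1) (to_dt45 x) (to_dt67 x)
theorem to_dt69 (x : ℝ) : dt69.Ok (fun p x => kcg.v p x) x :=
  DT.ok_node (v := 7 / 50) (by simp only [Cn.rt_v, Cn.ng_v]; norm_num) (by rw [abs_le]; constructor <;> norm_num) rfl (tb_dt66 x) (ta_dt68 x) (by ring1) (to_dt66 x) (to_dt68 x)
theorem to_dt48 (x : ℝ) : dt48.Ok (fun p x => kcg.v p x) x := trivial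
theorem to_dt49 (x : ℝ) : dt49.Ok (fun p x => kcg.v p x) x := trivial
theorem to_dt50 (x : ℝ) : dt50.Ok (fun p x => kcg.v p x) x := trivial
theorem to_dt70 (x : ℝ) : dt70.Ok (fun p x => kcg.v p x) x :=
  DT.ok_node (v := 17 / 50) (by simp only [Cn.rt_v, Cn.ng_v]; norm_num) (by rw [abs_le]; constructor <;> norm_num) rfl (tb_dt49 x) (ta_dt50 x) (by ring1) (to_dt49 x) (to_dt50 x)
theorem to_dt71 (x : ℝ) : dt71.Ok (fun p x => kcg.v p x) x :=
  DT.ok_node (v := 3 / 10) (by simp only [Cn.rt_v, Cn.ng_v]; norm_num) (by rw [abs_le]; constructor <;> norm_num) rfl (tb_dt48 x) (ta_dt70 x) (by ring1) (to_dt48 x) (to_dt70 x)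
theorem to_dt51 (x : ℝ) : dt51.Ok (fun p x => kcg.v p x) x := trivial
theorem to_dt52 (x : ℝ) : dt52.Ok (fun p x => kcg.v p x) x := trivial
theorem to_dt53 (x : ℝ) : dt53.Ok (fun p x => kcg.v p x) x := trivial
theorem to_dt72 (x : ℝ) : dt72.Ok (fun p x => kcg.v p x) x :=
  DT.ok_node (v := 227 / 500) (by simp only [Cn.rt_v, Cn.ng_v]; norm_num) (by rw [abs_le]; constructor <;> norm_num) rfl (tb_dt52 x) (ta_dt53 x) (by ring1) (to_dt52 x) (to_dt53 x)
theorem to_dt73 (x : ℝ) : dt73.Ok (fun p x => kcg.v p x) x :=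
  DT.ok_node (v := 21 / 50) (by simp only [Cn.rt_v, Cn.ng_v]; norm_num) (by rw [abs_le]; constructor <;> norm_num) rfl (tb_dt51 x) (ta_dt72 x) (by ring1) (to_dt51 x) (to_dt72 x)
theorem to_dt74 (x : ℝ) : dt74.Ok (fun p x => kcg.v p x) x :=
  DT.ok_node (v := 19 / 50) (by simp only [Cn.rt_v, Cn.ng_v]; norm_num) (by rw [abs_le]; constructor <;> norm_num) rfl (tb_dt71 x) (ta_dt73 x) (by ring1) (to_dt71 x) (to_dt73 x)
theorem to_dt75 (x : ℝ) : dt75.Ok (fun p x => kcg.v p x) x :=
  DT.ok_node (v := 13 / 50) (by simp only [Cn.rt_v, Cn.ng_v]; norm_num) (by rw [abs_le]; constructor <;> norm_num) rfl (tb_dt69 x) (ta_dt74 x) (by ring1) (to_dt69 x) (to_dt74 x)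
theorem to_dt76 (x : ℝ) : dt76.Ok (fun p x => kcg.v p x) x :=
  DT.ok_node (v := -1 / 16) (by simp only [Cn.rt_v, Cn.ng_v]; norm_num) (by rw [abs_le]; constructor <;> norm_num) rfl (tb_dt64 x) (ta_dt75 x) (by ring1) (to_dt64 x) (to_dt75 x)
theorem dok (x : ℝ) : dd.Ok x := ⟨ko_dt29 x, fun p h => kfe h, to_dt76 x⟩
theorem K0_ (x : ℝ) : ∀ q y, OnC (0 : Fin 5) q y → TightK (tyO q) q (fun p => dd.kf.v p x) (c1n y) y (tKF 0 q y x) := by
  refine K0_of (R := fun q y => tKF 0 q y x) (kc := fun p => kcg.v p x) ?_ ?_ ?_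
  · intro y h
    show tKF 0 0 y x = _
    ·
      rw [← (atF00 h).K]
      show kf0q0.v y x = _
      simp only [kf0q0, kf0q0_9, kf0q0_12, c1g_v]
      ((try push_cast); (try simp only [mul_inv]); (try ring_nf))
  · intro y h
    show tKF 0 1 y x = _
    ·
      rw [← (atF01 h).K]
      show kf0q1.v y x = _
      simp only [kf0q1, kf0q1_10, c1g_v]
      ((try push_cast); (try simp only [mul_inv]); (try ring_nf))
  · intro y h
    show tKF 0 2 y x = _
    ·
      have ey := yag_v h.1.nonneg (h.2 rfl)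
      rw [← (atF02 h).K]
      show kfc02.v (c1n y) x = _
      simp only [kfc02, c1g_v, ey]
      ((try push_cast); (try simp only [mul_inv]); (try ring_nf))
theorem L0_ (x : ℝ) : ∀ q y, OnC (0 : Fin 5) q y → TightL (tyO q) (fun p c => dd.TX.val dd.kf.v p c x) (c1n y) y (tL 0 q y x) := by
  refine L0_of (R := fun q y => tL 0 q y x) (tx := fun p c => txg.v p c x) txe ?_ ?_ ?_
  · intro y h
    show tL 0 0 y x = _
    ·
      rw [← (atF00 h).L]
      show l0q0.v y x = _
      simp only [l0q0, c1g_v]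
      ((try push_cast); (try simp only [mul_inv]); (try ring_nf))
  · intro y h
    show tL 0 1 y x = _
    ·
      rw [← (atF01 h).L]
      show l0q1.v y x = _
      simp only [l0q1, c1g_v]
      ((try push_cast); (try simp only [mul_inv]); (try ring_nf))
  · intro y h
    show tL 0 2 y x = _
    ·
      have ey := yag_v h.1.nonneg (h.2 rfl)
      rw [← (atF02 h).L]
      show lc02.v (c1n y) x = _
      simp only [lc02, lc02_7, lc02_8, c1g_v, ey]
      ((try push_cast); (try simp only [mul_inv]); (try ring_nf))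
theorem Kn_ (x : ℝ) : ∀ q y, InQ q y → TightK (tyN q) q (fun p => dd.kf.v p x) (c3n y) y (tKF (Fin.last 4) q y x) := by
  refine Kn_of (R := fun q y => tKF 4 q y x) (kc := fun p => kcg.v p x) ?_ ?_ ?_ ?_
  · intro y h
    show tKF 4 0 y x = _
    ·
      rw [← (atF40 (onc h (by decide))).K]
      show kf4q0.v y x = _
      simp only [kf4q0, c3g_v]
      ((try push_cast); (try simp only [mul_inv]); (try ring_nf))
  · intro y h
    show tKF 4 1 y x = _
    ·
      rw [← (atF41 (onc h (by decide))).K]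
      show kf4q1.v y x = _
      simp only [kf4q1, c3g_v]
      ((try push_cast); (try simp only [mul_inv]); (try ring_nf))
  · intro y h
    show tKF 4 2 y x = _
    ·
      rw [← (atF42 (onc h (by decide))).K]
      show kf4q2.v y x = _
      simp only [kf4q2, c3g_v]
      ((try push_cast); (try simp only [mul_inv]); (try ring_nf))
  · intro y h
    show tKF 4 3 y x = _
    ·
      have ey := ycg_v h.nonneg h.le_two
      rw [← (atF43 (onc h (by decide))).K]
      show kfc43.v (c3n y) x = _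
      simp only [kfc43, c3g_v, ey]
      ((try push_cast); (try simp only [mul_inv]); (try ring_nf))
theorem Ln_ (x : ℝ) : ∀ q y, InQ q y → TightL (tyN q) (fun p c => dd.TX.val dd.kf.v p c x) (c3n y) y (tL (Fin.last 4) q y x) := by
  refine Ln_of (R := fun q y => tL 4 q y x) (tx := fun p c => txg.v p c x) txe ?_ ?_ ?_ ?_
  · intro y h
    show tL 4 0 y x = _
    ·
      rw [← (atF40 (onc h (by decide))).L]
      show l4q0.v y x = _
      simp only [l4q0, l4q0_6, l4q0_7, l4q0_8, c3g_v]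
      ((try push_cast); (try simp only [mul_inv]); (try ring_nf))
  · intro y h
    show tL 4 1 y x = _
    ·
      rw [← (atF41 (onc h (by decide))).L]
      show l4q1.v y x = _
      simp only [l4q1, l4q1_7, l4q1_8, l4q1_9, c3g_v]
      ((try push_cast); (try simp only [mul_inv]); (try ring_nf))
  · intro y h
    show tL 4 2 y x = _
    ·
      rw [← (atF42 (onc h (by decide))).L]
      show l4q2.v y x = _
      simp only [l4q2, l4q2_7, l4q2_8, l4q2_9, l4q2_12, l4q2_14, c3g_v]
      ((try push_cast); (try simp only [mul_inv]); (try ring_nf))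
  · intro y h
    show tL 4 3 y x = _
    ·
      have ey := ycg_v h.nonneg h.le_two
      rw [← (atF43 (onc h (by decide))).L]
      show lc43.v (c3n y) x = _
      simp only [lc43, lc43_7, lc43_8, lc43_9, lc43_12, lc43_14, c3g_v, ey]
      ((try push_cast); (try simp only [mul_inv]); (try ring_nf))
theorem f0_ : ∀ q y, InQ q y → (ff q).f.v y = crv PP 1 q y
  | 0, y, _ => ecv1q0.symm
  | 1, y, _ => ecv1q1.symm
  | 2, y, _ => ecv1q2.symm
  | 3, y, h => (ecv1q3 h.1).symm
theorem fn_ : ∀ q y, InQ q y → (fl q).f.v y = crv PP 3 q y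
  | 0, y, _ => ecv3q0.symm
  | 1, y, _ => ecv3q1.symm
  | 2, y, _ => ecv3q2.symm
  | 3, y, h => (ecv3q3 h.1).symm
theorem yK00 {y x : ℝ} (h : OnC (0 : Fin 5) 0 y) : tKF 0 0 y x = kf0q0.v y x := (atF00 h).K.symm
theorem yK10 {y x : ℝ} (h : InQ 0 y) : tKF 1 0 y x = kf1q0.v y x := (atF10 (onc h (by decide))).K.symm
theorem yK01 {y x : ℝ} (h : OnC (0 : Fin 5) 1 y) : tKF 0 1 y x = kf0q1.v y x := (atF01 h).K.symm
theorem yK11 {y x : ℝ} (h : InQ 1 y) : tKF 1 1 y x = kf1q1.v y x := (atF11 (onc h (by decide))).K.symm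
theorem yK02 {y x : ℝ} (h : OnC (0 : Fin 5) 2 y) : tKF 0 2 y x = kf0q2.v y x := by
  rw [← (atF02 h).K]
  show kfc02.v (c1n y) x = _
  have ey := yag_v h.1.nonneg (h.2 rfl)
  simp only [kfc02, kf0q2, ey, c1g_v, c3g_v, swg_v]
  ((try push_cast); (try ring_nf))
theorem yK12 {y x : ℝ} (h : InQ 2 y) : tKF 1 2 y x = kf1q2.v y x := (atF12 (onc h (by decide))).K.symm
theorem yK40 {y x : ℝ} (h : InQ 0 y) : tKF 4 0 y x = kf4q0.v y x := (atF40 (onc h (by decide))).K.symm
theorem yK30 {y x : ℝ} (h : InQ 0 y) : tKF 3 0 y x = kf3q0.v y x := (atF30 (onc h (by decide))).K.symm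
theorem yK41 {y x : ℝ} (h : InQ 1 y) : tKF 4 1 y x = kf4q1.v y x := (atF41 (onc h (by decide))).K.symm
theorem yK31 {y x : ℝ} (h : InQ 1 y) : tKF 3 1 y x = kf3q1.v y x := (atF31 (onc h (by decide))).K.symm
theorem yK42 {y x : ℝ} (h : InQ 2 y) : tKF 4 2 y x = kf4q2.v y x := (atF42 (onc h (by decide))).K.symm
theorem yK32 {y x : ℝ} (h : InQ 2 y) : tKF 3 2 y x = kf3q2.v y x := (atF32 (onc h (by decide))).K.symm
theorem yK43 {y x : ℝ} (h : InQ 3 y) : tKF 4 3 y x = kf4q3.v y x := by
  rw [← (atF43 (onc h (by decide))).K]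
  show kfc43.v (c3n y) x = _
  have ey := ycg_v h.nonneg h.le_two
  simp only [kfc43, kf4q3, ey, c1g_v, c3g_v, swg_v]
  ((try push_cast); (try ring_nf))
theorem yK33 {y x : ℝ} (h : InQ 3 y) : tKF 3 3 y x = kf3q3.v y x := by
  rw [← (atF33 (onc h (by decide))).K]
  show kfc33.v (c3n y) x = _
  have ey := ycg_v h.nonneg h.le_two
  simp only [kfc33, kf3q3, cv3r, ey, c1g_v, c3g_v, swg_v]
  ((try push_cast); (try ring_nf))
theorem yL00 {y x : ℝ} (h : OnC (0 : Fin 5) 0 y) : tL 0 0 y x = l0q0.v y x := (atF00 h).L.symm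
theorem yL10 {y x : ℝ} (h : InQ 0 y) : tL 1 0 y x = l1q0.v y x := (atF10 (onc h (by decide))).L.symm
theorem yL01 {y x : ℝ} (h : OnC (0 : Fin 5) 1 y) : tL 0 1 y x = l0q1.v y x := (atF01 h).L.symm
theorem yL11 {y x : ℝ} (h : InQ 1 y) : tL 1 1 y x = l1q1.v y x := (atF11 (onc h (by decide))).L.symm
theorem yL02 {y x : ℝ} (h : OnC (0 : Fin 5) 2 y) : tL 0 2 y x = l0q2.v y x := by
  rw [← (atF02 h).L]
  show lc02.v (c1n y) x = _
  have ey := yag_v h.1.nonneg (h.2 rfl)
  simp only [lc02, lc02_7, lc02_8, l0q2, l0q2_7, l0q2_8, ey, c1g_v, c3g_v, swg_v]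
  ((try push_cast); (try ring_nf))
theorem yL12 {y x : ℝ} (h : InQ 2 y) : tL 1 2 y x = l1q2.v y x := (atF12 (onc h (by decide))).L.symm
theorem yL40 {y x : ℝ} (h : InQ 0 y) : tL 4 0 y x = l4q0.v y x := (atF40 (onc h (by decide))).L.symm
theorem yL30 {y x : ℝ} (h : InQ 0 y) : tL 3 0 y x = l3q0.v y x := (atF30 (onc h (by decide))).L.symm
theorem yL41 {y x : ℝ} (h : InQ 1 y) : tL 4 1 y x = l4q1.v y x := (atF41 (onc h (by decide))).L.symm
theorem yL31 {y x : ℝ} (h : InQ 1 y) : tL 3 1 y x = l3q1.v y x := (atF31 (onc h (by decide))).L.symm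
theorem yL42 {y x : ℝ} (h : InQ 2 y) : tL 4 2 y x = l4q2.v y x := (atF42 (onc h (by decide))).L.symm
theorem yL32 {y x : ℝ} (h : InQ 2 y) : tL 3 2 y x = l3q2.v y x := (atF32 (onc h (by decide))).L.symm
theorem yL43 {y x : ℝ} (h : InQ 3 y) : tL 4 3 y x = l4q3.v y x := by
  rw [← (atF43 (onc h (by decide))).L]
  show lc43.v (c3n y) x = _
  have ey := ycg_v h.nonneg h.le_two
  simp only [lc43, lc43_7, lc43_8, lc43_9, lc43_12, lc43_14, l4q3, l4q3_7, l4q3_8, l4q3_9, l4q3_12, l4q3_14, ey, c1g_v, c3g_v, swg_v]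
  ((try push_cast); (try ring_nf))
theorem yL33 {y x : ℝ} (h : InQ 3 y) : tL 3 3 y x = l3q3.v y x := by
  rw [← (atF33 (onc h (by decide))).L]
  show lc33.v (c3n y) x = _
  have ey := ycg_v h.nonneg h.le_two
  simp only [lc33, l3q3, cv3r, ey, c1g_v, c3g_v, swg_v]
  ((try push_cast); (try ring_nf))
theorem sK0_ (x : ℝ) : ∀ q y, OnC (0 : Fin 5) q y → c1n y < crv PP 1 q y →
    (ff q).SK.v y x * (crv PP 1 q y - c1n y) = tKF 1 q y x - tKF 0 q y x := by
  intro q y h hlt
  rcases onC_q h with rfl | rfl | rfl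
  · rw [yK10 h.1, yK00 h]
    rw [ecv1q0, ← c1g_v] at hlt ⊢
    have hd : 0 < cv1m.v y - c1g.v y := sub_pos.2 hlt
    have hi := inv_mul_cancel₀ hd.ne'
    show skf0.v y x * _ = _
    simp only [skf0, kf1q0]
    (try push_cast)
    linear_combination (c1g.v y * bf1q0.v y x - kf0q0.v y x) * hi
  · rw [yK11 h.1, yK01 h]
    rw [ecv1q1, ← c1g_v] at hlt ⊢
    have hd : 0 < cv1m.v y - c1g.v y := sub_pos.2 hlt
    have hi := inv_mul_cancel₀ hd.ne'
    show skf1.v y x * _ = _
    simp only [skf1, kf1q1]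
    (try push_cast)
    linear_combination (c1g.v y * bf1q1.v y x - kf0q1.v y x) * hi
  · rw [yK12 h.1, yK02 h]
    rw [ecv1q2, ← c1g_v] at hlt ⊢
    have hd : 0 < cv1p.v y - c1g.v y := sub_pos.2 hlt
    have hi := inv_mul_cancel₀ hd.ne'
    have hb : |c1g.v y| ≤ 1 / 2 := by rw [c1g_v]; exact bnd_O h
    have eo := odd (x := x) hb
    show skf2.v y x * _ = _
    simp only [skf2, kf1q2, kf0q2, eo]
    (try push_cast)
    linear_combination (c1g.v y * (bf1q2.v y x - 1) + (y - 1) * kcg.v (c1g.v y) x) * hi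
theorem sX0_ (x : ℝ) : ∀ q y, OnC (0 : Fin 5) q y → c1n y < crv PP 1 q y →
    (ff q).SX.v y x * (crv PP 1 q y - c1n y) = tL 1 q y x - tL 0 q y x := by
  intro q y h hlt
  rcases onC_q h with rfl | rfl | rfl
  · rw [yL10 h.1, yL00 h]
    rw [ecv1q0, ← c1g_v] at hlt ⊢
    have hd : 0 < cv1m.v y - c1g.v y := sub_pos.2 hlt
    have hi := inv_mul_cancel₀ hd.ne'
    show sxf0.v y x * _ = _
    simp only [sxf0]
    (try push_cast)
    linear_combination (l1q0.v y x - l0q0.v y x) * hi
  · rw [yL11 h.1, yL01 h]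
    rw [ecv1q1, ← c1g_v] at hlt ⊢
    have hd : 0 < cv1m.v y - c1g.v y := sub_pos.2 hlt
    have hi := inv_mul_cancel₀ hd.ne'
    show sxf1.v y x * _ = _
    simp only [sxf1]
    (try push_cast)
    linear_combination (l1q1.v y x - l0q1.v y x) * hi
  · rw [yL12 h.1, yL02 h]
    rw [ecv1q2, ← c1g_v] at hlt ⊢
    have hd : 0 < cv1p.v y - c1g.v y := sub_pos.2 hlt
    have hi := inv_mul_cancel₀ hd.ne'
    show sxf2.v y x * _ = _
    simp only [sxf2]
    (try push_cast)
    linear_combination (l1q2.v y x - l0q2.v y x) * hi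
theorem sKn_ (x : ℝ) : ∀ q y, InQ q y → crv PP 3 q y < c3n y →
    (fl q).SK.v y x * (c3n y - crv PP 3 q y) = tKF 4 q y x - tKF 3 q y x := by
  intro q y h hlt
  match q, h with
  | 0, h =>
    rw [yK40 h, yK30 h]
    rw [ecv3q0, ← c3g_v] at hlt ⊢
    have hd : 0 < c3g.v y - cv3m.v y := sub_pos.2 hlt
    have hi := inv_mul_cancel₀ hd.ne'
    show skl0.v y x * _ = _
    simp only [skl0, kf3q0]
    (try push_cast)
    linear_combination (kf4q0.v y x - c3g.v y * bf3q0.v y x) * hi
  | 1, h =>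
    rw [yK41 h, yK31 h]
    rw [ecv3q1, ← c3g_v] at hlt ⊢
    have hd : 0 < c3g.v y - cv3m.v y := sub_pos.2 hlt
    have hi := inv_mul_cancel₀ hd.ne'
    show skl1.v y x * _ = _
    simp only [skl1, kf3q1]
    (try push_cast)
    linear_combination (kf4q1.v y x - c3g.v y * bf3q1.v y x) * hi
  | 2, h =>
    rw [yK42 h, yK32 h]
    rw [ecv3q2, ← c3g_v] at hlt ⊢
    have hd : 0 < c3g.v y - cv3p.v y := sub_pos.2 hlt
    have hi := inv_mul_cancel₀ hd.ne'
    show skl2.v y x * _ = _
    simp only [skl2, kf3q2]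
    (try push_cast)
    linear_combination (kf4q2.v y x - c3g.v y * bf3q2.v y x) * hi
  | 3, h =>
    rw [yK43 h, yK33 h]
    rw [ecv3q3 h.1, ← c3g_v] at hlt ⊢
    have hd : 0 < c3g.v y - cv3r.v y := sub_pos.2 hlt
    have hi := inv_mul_cancel₀ hd.ne'
    show skl3.v y x * _ = _
    simp only [skl3, kf3q3]
    (try push_cast)
    linear_combination (kf4q3.v y x - c3g.v y * bf3q3.v y x) * hi
theorem sXn_ (x : ℝ) : ∀ q y, InQ q y → crv PP 3 q y < c3n y →
    (fl q).SX.v y x * (c3n y - crv PP 3 q y) = tL 4 q y x - tL 3 q y x := by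
  intro q y h hlt
  match q, h with
  | 0, h =>
    rw [yL40 h, yL30 h]
    rw [ecv3q0, ← c3g_v] at hlt ⊢
    have hd : 0 < c3g.v y - cv3m.v y := sub_pos.2 hlt
    have hi := inv_mul_cancel₀ hd.ne'
    show sxl0.v y x * _ = _
    simp only [sxl0]
    (try push_cast)
    linear_combination (l4q0.v y x - l3q0.v y x) * hi
  | 1, h =>
    rw [yL41 h, yL31 h]
    rw [ecv3q1, ← c3g_v] at hlt ⊢
    have hd : 0 < c3g.v y - cv3m.v y := sub_pos.2 hlt
    have hi := inv_mul_cancel₀ hd.ne'
    show sxl1.v y x * _ = _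
    simp only [sxl1]
    (try push_cast)
    linear_combination (l4q1.v y x - l3q1.v y x) * hi
  | 2, h =>
    rw [yL42 h, yL32 h]
    rw [ecv3q2, ← c3g_v] at hlt ⊢
    have hd : 0 < c3g.v y - cv3p.v y := sub_pos.2 hlt
    have hi := inv_mul_cancel₀ hd.ne'
    show sxl2.v y x * _ = _
    simp only [sxl2]
    (try push_cast)
    linear_combination (l4q2.v y x - l3q2.v y x) * hi
  | 3, h =>
    rw [yL43 h, yL33 h]
    rw [ecv3q3 h.1, ← c3g_v] at hlt ⊢
    have hd : 0 < c3g.v y - cv3r.v y := sub_pos.2 hlt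
    have hi := inv_mul_cancel₀ hd.ne'
    show sxl3.v y x * _ = _
    simp only [sxl3]
    (try push_cast)
    linear_combination (l4q3.v y x - l3q3.v y x) * hi
theorem kn_ (x : ℝ) : ∀ X, |X| ≤ vv.k1.v → kcg.v (-X) x = -(k0c.v x * X) := by
  intro X h
  have h : |X| ≤ 1 / 16 := by
    refine h.trans_eq ?_
    show (Cn.rt 1 16).v = _
    rw [Cn.rt_v]
    norm_num
  obtain ⟨h1, h2⟩ := abs_le.1 h
  rw [kcl7 (p := -X) (by linarith) (by linarith)]
  simp only [k0c]
  push_cast
  ring
theorem tvm {p c x : ℝ} (h1 : -1 / 16 ≤ p) (h2 : p ≤ 1 / 16) : dt76.val (fun p x => kcg.v p x) p c x = (65356681 / 3200000000 + (x - 5 / 128) * (-32129 / 3200000)) + (-14221 / 12500000 + (x - 5 / 128) * (-14031 / 1250000)) * p + (-801 / 500000 + (x - 5 / 128) * (-251 / 12500)) * p ^ 2 := by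
  rcases eq_or_lt_of_le h1 with h | h1
  · subst h
    refine (DT.val_le (by simp only [Cn.rt_v, Cn.ng_v]; push_cast; linarith)).trans ?_
    refine (DT.val_gt (by simp only [Cn.rt_v, Cn.ng_v]; push_cast; linarith)).trans ?_
    refine (DT.val_gt (by simp only [Cn.rt_v, Cn.ng_v]; push_cast; linarith)).trans ?_
    refine (DT.val_gt (by simp only [Cn.rt_v, Cn.ng_v]; push_cast; linarith)).trans ?_
    refine (DT.val_gt (by simp only [Cn.rt_v, Cn.ng_v]; push_cast; linarith)).trans ?_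
    simp only [dt41, DT.val, sw41, sl41, sv41]
    ((try push_cast); ring1)
  ·
    refine (DT.val_gt (by simp only [Cn.rt_v, Cn.ng_v]; push_cast; linarith)).trans ?_
    refine (DT.val_le (by simp only [Cn.rt_v, Cn.ng_v]; push_cast; linarith)).trans ?_
    refine (DT.val_le (by simp only [Cn.rt_v, Cn.ng_v]; push_cast; linarith)).trans ?_
    refine (DT.val_le (by simp only [Cn.rt_v, Cn.ng_v]; push_cast; linarith)).trans ?_
    simp only [dt42, DT.val, sw42, sl42, sv42]
    ((try push_cast); ring1)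
theorem tn_ (x : ℝ) : ∀ X, |X| ≤ vv.k1.v → dd.tF x (-X) - dd.tF x X = m0c.v x * X := by
  intro X h
  have h : |X| ≤ 1 / 16 := by
    refine h.trans_eq ?_
    show (Cn.rt 1 16).v = _
    rw [Cn.rt_v]
    norm_num
  obtain ⟨h1, h2⟩ := abs_le.1 h
  show dt76.val (fun p x => kcg.v p x) (-X) (cT (-X)) x - dt76.val (fun p x => kcg.v p x) X (cT X) x = _
  rw [tvm (by linarith) (by linarith), tvm (by linarith) (by linarith)]
  simp only [m0c]
  push_cast
  ring
theorem vK_ (x : ℝ) : ∀ y, InQ 2 y → tKF 1 2 y x = crv PP 1 2 y * bf1q2.v y x := by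
  intro y h
  rw [yK12 h, ecv1q2]
  simp only [kf1q2]
theorem vX_ (x : ℝ) : ∀ y, InQ 2 y → tL 1 2 y x = crv PP 1 2 y * bx1q2.v y x := by
  intro y h
  rw [yL12 h, ecv1q2]
  simp only [l1q2]
theorem n0_rK (y x : ℝ) : n0b.v y x = (1 - (y - 1) * k0c.v x) := by
  simp only [n0b, k0c]
  all_goals (try push_cast)
  all_goals (try ring)
theorem rK_ (x : ℝ) : ∀ y, OnC (0 : Fin 5) 2 y → c1n y < crv PP 1 2 y →
    rhk.v y x * (crv PP 1 2 y - c1n y) = crv PP 1 2 y * (bf1q2.v y x - (1 - (y - 1) * k0c.v x)) := by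
  intro y h hlt
  rw [ecv1q2, ← c1g_v] at hlt ⊢
  have hd : 0 < cv1p.v y - c1g.v y := sub_pos.2 hlt
  have hi := inv_mul_cancel₀ hd.ne'
  rw [← n0_rK]
  simp only [rhk]
  linear_combination ((bf1q2.v y x - n0b.v y x) * cv1p.v y) * hi
theorem n0_rX (y x : ℝ) : n0x.v y x = m0c.v x := by
  simp only [n0x, m0c]
  all_goals (try push_cast)
  all_goals (try ring)
theorem rX_ (x : ℝ) : ∀ y, OnC (0 : Fin 5) 2 y → c1n y < crv PP 1 2 y →
    rhx.v y x * (crv PP 1 2 y - c1n y) = crv PP 1 2 y * (bx1q2.v y x - m0c.v x) := by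
  intro y h hlt
  rw [ecv1q2, ← c1g_v] at hlt ⊢
  have hd : 0 < cv1p.v y - c1g.v y := sub_pos.2 hlt
  have hi := inv_mul_cancel₀ hd.ne'
  rw [← n0_rX]
  simp only [rhx]
  linear_combination ((bx1q2.v y x - n0x.v y x) * cv1p.v y) * hi
theorem flat_ (x : ℝ) : ∀ y, InQ 2 y → vv.ya.v ≤ y → y ≤ vv.yb.v → bf1q2.v y x = 1 - (y - 1) * k0c.v x ∧ bx1q2.v y x = m0c.v x := by
  intro y h h1 h2
  have ea : vv.ya.v = 577 / 500 := by
    show (Cn.rt 577 500).v = _
    rw [Cn.rt_v]
    norm_num
  have eb : vv.yb.v = 231 / 200 := by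
    show (Cn.rt 231 200).v = _
    rw [Cn.rt_v]
    norm_num
  rw [ea] at h1
  rw [eb] at h2
  constructor
  · simp only [bf1q2, bf1q2_3, bf1q2_202, k0c]
    rcases eq_or_lt_of_le h1 with g | h1
    · subst g
      ((try push_cast); (repeat first | rw [if_pos (by linarith)] | rw [if_neg (by linarith)] | erw [if_pos (by linarith)] | erw [if_neg (by linarith)]); (try push_cast); (try ring1))
    rcases eq_or_lt_of_le h2 with g | h2
    · subst g
      ((try push_cast); (repeat first | rw [if_pos (by linarith)] | rw [if_neg (by linarith)] | erw [if_pos (by linarith)] | erw [if_neg (by linarith)]); (try push_cast); (try ring1))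
    · ((try push_cast); (repeat first | rw [if_pos (by linarith)] | rw [if_neg (by linarith)] | erw [if_pos (by linarith)] | erw [if_neg (by linarith)]); (try push_cast); (try ring1))
  · simp only [bx1q2, bx1q2_3, bx1q2_185, m0c]
    rcases eq_or_lt_of_le h1 with g | h1
    · subst g
      ((try push_cast); (repeat first | rw [if_pos (by linarith)] | rw [if_neg (by linarith)] | erw [if_pos (by linarith)] | erw [if_neg (by linarith)]); (try push_cast); (try ring1))
    rcases eq_or_lt_of_le h2 with g | h2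
    · subst g
      ((try push_cast); (repeat first | rw [if_pos (by linarith)] | rw [if_neg (by linarith)] | erw [if_pos (by linarith)] | erw [if_neg (by linarith)]); (try push_cast); (try ring1))
    · ((try push_cast); (repeat first | rw [if_pos (by linarith)] | rw [if_neg (by linarith)] | erw [if_pos (by linarith)] | erw [if_neg (by linarith)]); (try push_cast); (try ring1))
theorem abk_ (x : ℝ) : ∀ y, InQ 2 y → vv.yb.v ≤ y → y ≤ vv.yk.v → bf1q2.v y x = 1 - (y - 1) * k0c.v x + sbk.v x * (y - vv.yb.v) ∧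
    bx1q2.v y x = m0c.v x + sbx.v x * (y - vv.yb.v) := by
  intro y h h1 h2
  have eb : vv.yb.v = 231 / 200 := by
    show (Cn.rt 231 200).v = _
    rw [Cn.rt_v]
    norm_num
  have ek : vv.yk.v = 59 / 50 := by
    show (Cn.rt 59 50).v = _
    rw [Cn.rt_v]
    norm_num
  rw [eb] at h1 ⊢
  rw [ek] at h2
  constructor
  · simp only [bf1q2, bf1q2_3, bf1q2_202, k0c, sbk]
    rcases eq_or_lt_of_le h1 with g | h1
    · subst g
      ((try push_cast); (repeat first | rw [if_pos (by linarith)] | rw [if_neg (by linarith)] | erw [if_pos (by linarith)] | erw [if_neg (by linarith)]); (try push_cast); (try ring1))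
    rcases eq_or_lt_of_le h2 with g | h2
    · subst g
      ((try push_cast); (repeat first | rw [if_pos (by linarith)] | rw [if_neg (by linarith)] | erw [if_pos (by linarith)] | erw [if_neg (by linarith)]); (try push_cast); (try ring1))
    · ((try push_cast); (repeat first | rw [if_pos (by linarith)] | rw [if_neg (by linarith)] | erw [if_pos (by linarith)] | erw [if_neg (by linarith)]); (try push_cast); (try ring1))
  · simp only [bx1q2, bx1q2_3, bx1q2_185, m0c, sbx]
    rcases eq_or_lt_of_le h1 with g | h1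
    · subst g
      ((try push_cast); (repeat first | rw [if_pos (by linarith)] | rw [if_neg (by linarith)] | erw [if_pos (by linarith)] | erw [if_neg (by linarith)]); (try push_cast); (try ring1))
    rcases eq_or_lt_of_le h2 with g | h2
    · subst g
      ((try push_cast); (repeat first | rw [if_pos (by linarith)] | rw [if_neg (by linarith)] | erw [if_pos (by linarith)] | erw [if_neg (by linarith)]); (try push_cast); (try ring1))
    · ((try push_cast); (repeat first | rw [if_pos (by linarith)] | rw [if_neg (by linarith)] | erw [if_pos (by linarith)] | erw [if_neg (by linarith)]); (try push_cast); (try ring1))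
theorem ka_dt77 (x : ℝ) : dt77.kv (-9 / 50) x = (369237 / 2500000000 + (x - 5 / 128) * (-555459 / 125000000)) := by
  simp only [dt77, DT.kv, sw77, sl77, sv77]
  ((try push_cast); ring1)
theorem kb_dt77 (x : ℝ) : dt77.kv (-7 / 50) x = (92913 / 1250000000 + (x - 5 / 128) * (-711839 / 250000000)) := by
  simp only [dt77, DT.kv, sw77, sl77, sv77]
  ((try push_cast); ring1)
theorem ka_dt78 (x : ℝ) : dt78.kv (-7 / 50) x = (92913 / 1250000000 + (x - 5 / 128) * (-711839 / 250000000)) := by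
  simp only [dt78, DT.kv, sw78, sl78, sv78]
  ((try push_cast); ring1)
theorem kb_dt78 (x : ℝ) : dt78.kv (-1 / 10) x = (20543 / 500000000 + (x - 5 / 128) * (-31547 / 50000000)) := by
  simp only [dt78, DT.kv, sw78, sl78, sv78]
  ((try push_cast); ring1)
theorem ka_dt79 (x : ℝ) : dt79.kv (-1 / 10) x = (20543 / 500000000 + (x - 5 / 128) * (-31547 / 50000000)) := by
  simp only [dt79, DT.kv, sw79, sl79, sv79]
  ((try push_cast); ring1)
theorem kb_dt79 (x : ℝ) : dt79.kv (-1 / 16) x = (0) := by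
  simp only [dt79, DT.kv, sw79, sl79, sv79]
  ((try push_cast); ring1)
theorem ka_dt84 (x : ℝ) : dt84.kv (-7 / 50) x = (92913 / 1250000000 + (x - 5 / 128) * (-711839 / 250000000)) :=
  (DT.kv_le (by simp only [Cn.rt_v, Cn.ng_v]; norm_num)).trans (ka_dt78 x)
theorem kb_dt84 (x : ℝ) : dt84.kv (-1 / 16) x = (0) :=
  (DT.kv_gt (by simp only [Cn.rt_v, Cn.ng_v]; norm_num)).trans (kb_dt79 x)
theorem ka_dt85 (x : ℝ) : dt85.kv (-9 / 50) x = (369237 / 2500000000 + (x - 5 / 128) * (-555459 / 125000000)) :=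
  (DT.kv_le (by simp only [Cn.rt_v, Cn.ng_v]; norm_num)).trans (ka_dt77 x)
theorem kb_dt85 (x : ℝ) : dt85.kv (-1 / 16) x = (0) :=
  (DT.kv_gt (by simp only [Cn.rt_v, Cn.ng_v]; norm_num)).trans (kb_dt84 x)
theorem ka_dt80 (x : ℝ) : dt80.kv (-1 / 16) x = (0) := by
  simp only [dt80, DT.kv, sl80, sv80]
  ((try push_cast); ring1)
theorem kb_dt80 (x : ℝ) : dt80.kv (1 / 16) x = (0) := by
  simp only [dt80, DT.kv, sl80, sv80]
  ((try push_cast); ring1)
theorem ka_dt81 (x : ℝ) : dt81.kv (1 / 16) x = (0) := by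
  simp only [dt81, DT.kv, sw81, sl81, sv81]
  ((try push_cast); ring1)
theorem kb_dt81 (x : ℝ) : dt81.kv (1 / 10) x = (-20543 / 500000000 + (x - 5 / 128) * (31547 / 50000000)) := by
  simp only [dt81, DT.kv, sw81, sl81, sv81]
  ((try push_cast); ring1)
theorem ka_dt86 (x : ℝ) : dt86.kv (-1 / 16) x = (0) :=
  (DT.kv_le (by simp only [Cn.rt_v, Cn.ng_v]; norm_num)).trans (ka_dt80 x)
theorem kb_dt86 (x : ℝ) : dt86.kv (1 / 10) x = (-20543 / 500000000 + (x - 5 / 128) * (31547 / 50000000)) :=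
  (DT.kv_gt (by simp only [Cn.rt_v, Cn.ng_v]; norm_num)).trans (kb_dt81 x)
theorem ka_dt82 (x : ℝ) : dt82.kv (1 / 10) x = (-20543 / 500000000 + (x - 5 / 128) * (31547 / 50000000)) := by
  simp only [dt82, DT.kv, sw82, sl82, sv82]
  ((try push_cast); ring1)
theorem kb_dt82 (x : ℝ) : dt82.kv (7 / 50) x = (-92913 / 1250000000 + (x - 5 / 128) * (711839 / 250000000)) := by
  simp only [dt82, DT.kv, sw82, sl82, sv82]
  ((try push_cast); ring1)
theorem ka_dt83 (x : ℝ) : dt83.kv (7 / 50) x = (-92913 / 1250000000 + (x - 5 / 128) * (711839 / 250000000)) := by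
  simp only [dt83, DT.kv, sw83, sl83, sv83]
  ((try push_cast); ring1)
theorem kb_dt83 (x : ℝ) : dt83.kv (9 / 50) x = (-369237 / 2500000000 + (x - 5 / 128) * (555459 / 125000000)) := by
  simp only [dt83, DT.kv, sw83, sl83, sv83]
  ((try push_cast); ring1)
theorem ka_dt87 (x : ℝ) : dt87.kv (1 / 10) x = (-20543 / 500000000 + (x - 5 / 128) * (31547 / 50000000)) :=
  (DT.kv_le (by simp only [Cn.rt_v, Cn.ng_v]; norm_num)).trans (ka_dt82 x)
theorem kb_dt87 (x : ℝ) : dt87.kv (9 / 50) x = (-369237 / 2500000000 + (x - 5 / 128) * (555459 / 125000000)) :=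
  (DT.kv_gt (by simp only [Cn.rt_v, Cn.ng_v]; norm_num)).trans (kb_dt83 x)
theorem ka_dt88 (x : ℝ) : dt88.kv (-1 / 16) x = (0) :=
  (DT.kv_le (by simp only [Cn.rt_v, Cn.ng_v]; norm_num)).trans (ka_dt86 x)
theorem kb_dt88 (x : ℝ) : dt88.kv (9 / 50) x = (-369237 / 2500000000 + (x - 5 / 128) * (555459 / 125000000)) :=
  (DT.kv_gt (by simp only [Cn.rt_v, Cn.ng_v]; norm_num)).trans (kb_dt87 x)
theorem ka_dt89 (x : ℝ) : dt89.kv (-9 / 50) x = (369237 / 2500000000 + (x - 5 / 128) * (-555459 / 125000000)) :=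
  (DT.kv_le (by simp only [Cn.rt_v, Cn.ng_v]; norm_num)).trans (ka_dt85 x)
theorem kb_dt89 (x : ℝ) : dt89.kv (9 / 50) x = (-369237 / 2500000000 + (x - 5 / 128) * (555459 / 125000000)) :=
  (DT.kv_gt (by simp only [Cn.rt_v, Cn.ng_v]; norm_num)).trans (kb_dt88 x)
theorem ko_dt77 (x : ℝ) : dt77.KOk x := trivial
theorem ko_dt78 (x : ℝ) : dt78.KOk x := trivial
theorem ko_dt79 (x : ℝ) : dt79.KOk x := trivial
theorem ko_dt84 (x : ℝ) : dt84.KOk x :=
  DT.kOk_node (v := -1 / 10) (by simp only [Cn.rt_v, Cn.ng_v]; norm_num) (kb_dt78 x) (ka_dt79 x) (by ring1) (ko_dt78 x) (ko_dt79 x)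
theorem ko_dt85 (x : ℝ) : dt85.KOk x :=
  DT.kOk_node (v := -7 / 50) (by simp only [Cn.rt_v, Cn.ng_v]; norm_num) (kb_dt77 x) (ka_dt84 x) (by ring1) (ko_dt77 x) (ko_dt84 x)
theorem ko_dt80 (x : ℝ) : dt80.KOk x := trivial
theorem ko_dt81 (x : ℝ) : dt81.KOk x := trivial
theorem ko_dt86 (x : ℝ) : dt86.KOk x :=
  DT.kOk_node (v := 1 / 16) (by simp only [Cn.rt_v, Cn.ng_v]; norm_num) (kb_dt80 x) (ka_dt81 x) (by ring1) (ko_dt80 x) (ko_dt81 x)
theorem ko_dt82 (x : ℝ) : dt82.KOk x := trivial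
theorem ko_dt83 (x : ℝ) : dt83.KOk x := trivial
theorem ko_dt87 (x : ℝ) : dt87.KOk x :=
  DT.kOk_node (v := 7 / 50) (by simp only [Cn.rt_v, Cn.ng_v]; norm_num) (kb_dt82 x) (ka_dt83 x) (by ring1) (ko_dt82 x) (ko_dt83 x)
theorem ko_dt88 (x : ℝ) : dt88.KOk x :=
  DT.kOk_node (v := 1 / 10) (by simp only [Cn.rt_v, Cn.ng_v]; norm_num) (kb_dt86 x) (ka_dt87 x) (by ring1) (ko_dt86 x) (ko_dt87 x)
theorem ko_dt89 (x : ℝ) : dt89.KOk x :=
  DT.kOk_node (v := -1 / 16) (by simp only [Cn.rt_v, Cn.ng_v]; norm_num) (kb_dt85 x) (ka_dt88 x) (by ring1) (ko_dt85 x) (ko_dt88 x)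
theorem phl0 {p x : ℝ} (h2 : p ≤ -7 / 50) : dt89.kv p x = (6528957 / 5000000000 + (x - 5 / 128) * (2621733 / 100000000)) + (1706413 / 100000000 + (x - 5 / 128) * (3380359 / 10000000)) * p + (59057 / 1000000 + (x - 5 / 128) * (18633 / 20000)) * p ^ 2 := by
  refine (DT.kv_le (by simp only [Cn.rt_v, Cn.ng_v]; push_cast; linarith)).trans ?_
  refine (DT.kv_le (by simp only [Cn.rt_v, Cn.ng_v]; push_cast; linarith)).trans ?_
  simp only [dt77, DT.kv, sw77, sl77, sv77]
  ((try push_cast); ring1)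
theorem phl1 {p x : ℝ} (h1 : -7 / 50 < p) (h2 : p ≤ -1 / 10) : dt89.kv p x = (-517773 / 1000000000 + (x - 5 / 128) * (-135309 / 50000000)) + (-898679 / 100000000 + (x - 5 / 128) * (-93943 / 1250000)) * p + (-16991 / 500000 + (x - 5 / 128) * (-27201 / 50000)) * p ^ 2 := by
  refine (DT.kv_le (by simp only [Cn.rt_v, Cn.ng_v]; push_cast; linarith)).trans ?_
  refine (DT.kv_gt (by simp only [Cn.rt_v, Cn.ng_v]; push_cast; linarith)).trans ?_
  refine (DT.kv_le (by simp only [Cn.rt_v, Cn.ng_v]; push_cast; linarith)).trans ?_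
  simp only [dt78, DT.kv, sw78, sl78, sv78]
  ((try push_cast); ring1)
theorem phl2 {p x : ℝ} (h1 : -1 / 10 < p) (h2 : p ≤ -1 / 16) : dt89.kv p x = (136873 / 1200000000 + (x - 5 / 128) * (-420629 / 240000000)) + (2190209 / 600000000 + (x - 5 / 128) * (-6730057 / 120000000)) * p + (14603 / 500000 + (x - 5 / 128) * (-44867 / 100000)) * p ^ 2 := by
  refine (DT.kv_le (by simp only [Cn.rt_v, Cn.ng_v]; push_cast; linarith)).trans ?_
  refine (DT.kv_gt (by simp only [Cn.rt_v, Cn.ng_v]; push_cast; linarith)).trans ?_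
  refine (DT.kv_gt (by simp only [Cn.rt_v, Cn.ng_v]; push_cast; linarith)).trans ?_
  simp only [dt79, DT.kv, sw79, sl79, sv79]
  ((try push_cast); ring1)
theorem phl3 {p x : ℝ} (h1 : -1 / 16 < p) (h2 : p ≤ 1 / 16) : dt89.kv p x = (0) + (0) * p := by
  refine (DT.kv_gt (by simp only [Cn.rt_v, Cn.ng_v]; push_cast; linarith)).trans ?_
  refine (DT.kv_le (by simp only [Cn.rt_v, Cn.ng_v]; push_cast; linarith)).trans ?_
  refine (DT.kv_le (by simp only [Cn.rt_v, Cn.ng_v]; push_cast; linarith)).trans ?_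
  simp only [dt80, DT.kv, sl80, sv80]
  ((try push_cast); ring1)
theorem phl4 {p x : ℝ} (h1 : 1 / 16 < p) (h2 : p ≤ 1 / 10) : dt89.kv p x = (-136873 / 1200000000 + (x - 5 / 128) * (420629 / 240000000)) + (2190209 / 600000000 + (x - 5 / 128) * (-6730057 / 120000000)) * p + (-14603 / 500000 + (x - 5 / 128) * (44867 / 100000)) * p ^ 2 := by
  refine (DT.kv_gt (by simp only [Cn.rt_v, Cn.ng_v]; push_cast; linarith)).trans ?_
  refine (DT.kv_le (by simp only [Cn.rt_v, Cn.ng_v]; push_cast; linarith)).trans ?_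
  refine (DT.kv_gt (by simp only [Cn.rt_v, Cn.ng_v]; push_cast; linarith)).trans ?_
  simp only [dt81, DT.kv, sw81, sl81, sv81]
  ((try push_cast); ring1)
theorem phl5 {p x : ℝ} (h1 : 1 / 10 < p) (h2 : p ≤ 7 / 50) : dt89.kv p x = (517773 / 1000000000 + (x - 5 / 128) * (135309 / 50000000)) + (-898679 / 100000000 + (x - 5 / 128) * (-93943 / 1250000)) * p + (16991 / 500000 + (x - 5 / 128) * (27201 / 50000)) * p ^ 2 := by
  refine (DT.kv_gt (by simp only [Cn.rt_v, Cn.ng_v]; push_cast; linarith)).trans ?_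
  refine (DT.kv_gt (by simp only [Cn.rt_v, Cn.ng_v]; push_cast; linarith)).trans ?_
  refine (DT.kv_le (by simp only [Cn.rt_v, Cn.ng_v]; push_cast; linarith)).trans ?_
  simp only [dt82, DT.kv, sw82, sl82, sv82]
  ((try push_cast); ring1)
theorem phl6 {p x : ℝ} (h1 : 7 / 50 < p) (h2 : p ≤ 9 / 50) : dt89.kv p x = (-6528957 / 5000000000 + (x - 5 / 128) * (-2621733 / 100000000)) + (1706413 / 100000000 + (x - 5 / 128) * (3380359 / 10000000)) * p + (-59057 / 1000000 + (x - 5 / 128) * (-18633 / 20000)) * p ^ 2 := by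
  refine (DT.kv_gt (by simp only [Cn.rt_v, Cn.ng_v]; push_cast; linarith)).trans ?_
  refine (DT.kv_gt (by simp only [Cn.rt_v, Cn.ng_v]; push_cast; linarith)).trans ?_
  refine (DT.kv_gt (by simp only [Cn.rt_v, Cn.ng_v]; push_cast; linarith)).trans ?_
  simp only [dt83, DT.kv, sw83, sl83, sv83]
  ((try push_cast); ring1)
theorem tvc9 {p x : ℝ} (h1 : -9 / 50 ≤ p) (h2 : p ≤ -7 / 50) : dt76.val (fun p x => kcg.v p x) p (cT p) x = (20416247 / 1250000000 + (x - 5 / 128) * (-4878023 / 250000000)) + (-48503 / 781250 + (x - 5 / 128) * (-668311 / 5000000)) * p + (-117281 / 500000 + (x - 5 / 128) * (-8199 / 25000)) * p ^ 2 := by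
  rcases eq_or_lt_of_le h1 with h | h1
  · subst h
    refine (DT.val_le (by simp only [Cn.rt_v, Cn.ng_v]; push_cast; linarith)).trans ?_
    refine (DT.val_gt (by simp only [Cn.rt_v, Cn.ng_v]; push_cast; linarith)).trans ?_
    refine (DT.val_le (by simp only [Cn.rt_v, Cn.ng_v]; push_cast; linarith)).trans ?_
    refine (DT.val_gt (by simp only [Cn.rt_v, Cn.ng_v]; push_cast; linarith)).trans ?_
    refine (DT.val_gt (by simp only [Cn.rt_v, Cn.ng_v]; push_cast; linarith)).trans ?_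
    simp only [dt38, DT.val, sw38, sl38, sv38]
    ((try push_cast); ring1)
  ·
    refine (DT.val_le (by simp only [Cn.rt_v, Cn.ng_v]; push_cast; linarith)).trans ?_
    refine (DT.val_gt (by simp only [Cn.rt_v, Cn.ng_v]; push_cast; linarith)).trans ?_
    refine (DT.val_gt (by simp only [Cn.rt_v, Cn.ng_v]; push_cast; linarith)).trans ?_
    refine (DT.val_le (by simp only [Cn.rt_v, Cn.ng_v]; push_cast; linarith)).trans ?_
    simp only [dt39, DT.val, sw39, sl39, sv39]
    ((try push_cast); ring1)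
theorem tvc10 {p x : ℝ} (h1 : -7 / 50 ≤ p) (h2 : p ≤ -1 / 10) : dt76.val (fun p x => kcg.v p x) p (cT p) x = (10047739 / 500000000 + (x - 5 / 128) * (-1035717 / 100000000)) + (-416701 / 50000000 + (x - 5 / 128) * (-28787 / 10000000)) * p + (-21299 / 500000 + (x - 5 / 128) * (1739 / 12500)) * p ^ 2 := by
  rcases eq_or_lt_of_le h1 with h | h1
  · subst h
    refine (DT.val_le (by simp only [Cn.rt_v, Cn.ng_v]; push_cast; linarith)).trans ?_
    refine (DT.val_gt (by simp only [Cn.rt_v, Cn.ng_v]; push_cast; linarith)).trans ?_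
    refine (DT.val_gt (by simp only [Cn.rt_v, Cn.ng_v]; push_cast; linarith)).trans ?_
    refine (DT.val_le (by simp only [Cn.rt_v, Cn.ng_v]; push_cast; linarith)).trans ?_
    simp only [dt39, DT.val, sw39, sl39, sv39]
    ((try push_cast); ring1)
  ·
    refine (DT.val_le (by simp only [Cn.rt_v, Cn.ng_v]; push_cast; linarith)).trans ?_
    refine (DT.val_gt (by simp only [Cn.rt_v, Cn.ng_v]; push_cast; linarith)).trans ?_
    refine (DT.val_gt (by simp only [Cn.rt_v, Cn.ng_v]; push_cast; linarith)).trans ?_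
    refine (DT.val_gt (by simp only [Cn.rt_v, Cn.ng_v]; push_cast; linarith)).trans ?_
    refine (DT.val_le (by simp only [Cn.rt_v, Cn.ng_v]; push_cast; linarith)).trans ?_
    simp only [dt40, DT.val, sw40, sl40, sv40]
    ((try push_cast); ring1)
theorem tvc11 {p x : ℝ} (h1 : -1 / 10 ≤ p) (h2 : p ≤ -1 / 16) : dt76.val (fun p x => kcg.v p x) p (cT p) x = (48892159 / 2400000000 + (x - 5 / 128) * (-2115983 / 240000000)) + (-674201 / 240000000 + (x - 5 / 128) * (670417 / 24000000)) * p + (-599 / 40000 + (x - 5 / 128) * (29319 / 100000)) * p ^ 2 := by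
  rcases eq_or_lt_of_le h1 with h | h1
  · subst h
    refine (DT.val_le (by simp only [Cn.rt_v, Cn.ng_v]; push_cast; linarith)).trans ?_
    refine (DT.val_gt (by simp only [Cn.rt_v, Cn.ng_v]; push_cast; linarith)).trans ?_
    refine (DT.val_gt (by simp only [Cn.rt_v, Cn.ng_v]; push_cast; linarith)).trans ?_
    refine (DT.val_gt (by simp only [Cn.rt_v, Cn.ng_v]; push_cast; linarith)).trans ?_
    refine (DT.val_le (by simp only [Cn.rt_v, Cn.ng_v]; push_cast; linarith)).trans ?_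
    simp only [dt40, DT.val, sw40, sl40, sv40]
    ((try push_cast); ring1)
  ·
    refine (DT.val_le (by simp only [Cn.rt_v, Cn.ng_v]; push_cast; linarith)).trans ?_
    refine (DT.val_gt (by simp only [Cn.rt_v, Cn.ng_v]; push_cast; linarith)).trans ?_
    refine (DT.val_gt (by simp only [Cn.rt_v, Cn.ng_v]; push_cast; linarith)).trans ?_
    refine (DT.val_gt (by simp only [Cn.rt_v, Cn.ng_v]; push_cast; linarith)).trans ?_
    refine (DT.val_gt (by simp only [Cn.rt_v, Cn.ng_v]; push_cast; linarith)).trans ?_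
    simp only [dt41, DT.val, sw41, sl41, sv41]
    ((try push_cast); ring1)
theorem tvc12 {p x : ℝ} (h1 : -1 / 16 ≤ p) (h2 : p ≤ 1 / 16) : dt76.val (fun p x => kcg.v p x) p (cT p) x = (65356681 / 3200000000 + (x - 5 / 128) * (-32129 / 3200000)) + (-14221 / 12500000 + (x - 5 / 128) * (-14031 / 1250000)) * p + (-801 / 500000 + (x - 5 / 128) * (-251 / 12500)) * p ^ 2 := by
  rcases eq_or_lt_of_le h1 with h | h1
  · subst h
    refine (DT.val_le (by simp only [Cn.rt_v, Cn.ng_v]; push_cast; linarith)).trans ?_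
    refine (DT.val_gt (by simp only [Cn.rt_v, Cn.ng_v]; push_cast; linarith)).trans ?_
    refine (DT.val_gt (by simp only [Cn.rt_v, Cn.ng_v]; push_cast; linarith)).trans ?_
    refine (DT.val_gt (by simp only [Cn.rt_v, Cn.ng_v]; push_cast; linarith)).trans ?_
    refine (DT.val_gt (by simp only [Cn.rt_v, Cn.ng_v]; push_cast; linarith)).trans ?_
    simp only [dt41, DT.val, sw41, sl41, sv41]
    ((try push_cast); ring1)
  ·
    refine (DT.val_gt (by simp only [Cn.rt_v, Cn.ng_v]; push_cast; linarith)).trans ?_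
    refine (DT.val_le (by simp only [Cn.rt_v, Cn.ng_v]; push_cast; linarith)).trans ?_
    refine (DT.val_le (by simp only [Cn.rt_v, Cn.ng_v]; push_cast; linarith)).trans ?_
    refine (DT.val_le (by simp only [Cn.rt_v, Cn.ng_v]; push_cast; linarith)).trans ?_
    simp only [dt42, DT.val, sw42, sl42, sv42]
    ((try push_cast); ring1)
theorem tvc13 {p x : ℝ} (h1 : 1 / 16 ≤ p) (h2 : p ≤ 1 / 10) : dt76.val (fun p x => kcg.v p x) p (cT p) x = (3277727 / 160000000 + (x - 5 / 128) * (-634153 / 60000000)) + (-249323 / 80000000 + (x - 5 / 128) * (34201 / 6000000)) * p + (14231 / 1000000 + (x - 5 / 128) * (-3887 / 25000)) * p ^ 2 := by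
  rcases eq_or_lt_of_le h1 with h | h1
  · subst h
    refine (DT.val_gt (by simp only [Cn.rt_v, Cn.ng_v]; push_cast; linarith)).trans ?_
    refine (DT.val_le (by simp only [Cn.rt_v, Cn.ng_v]; push_cast; linarith)).trans ?_
    refine (DT.val_le (by simp only [Cn.rt_v, Cn.ng_v]; push_cast; linarith)).trans ?_
    refine (DT.val_le (by simp only [Cn.rt_v, Cn.ng_v]; push_cast; linarith)).trans ?_
    simp only [dt42, DT.val, sw42, sl42, sv42]
    ((try push_cast); ring1)
  ·
    refine (DT.val_gt (by simp only [Cn.rt_v, Cn.ng_v]; push_cast; linarith)).trans ?_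
    refine (DT.val_le (by simp only [Cn.rt_v, Cn.ng_v]; push_cast; linarith)).trans ?_
    refine (DT.val_le (by simp only [Cn.rt_v, Cn.ng_v]; push_cast; linarith)).trans ?_
    refine (DT.val_gt (by simp only [Cn.rt_v, Cn.ng_v]; push_cast; linarith)).trans ?_
    refine (DT.val_le (by simp only [Cn.rt_v, Cn.ng_v]; push_cast; linarith)).trans ?_
    simp only [dt43, DT.val, sw43, sl43, sv43]
    ((try push_cast); ring1)
theorem tvc14 {p x : ℝ} (h1 : 1 / 10 ≤ p) (h2 : p ≤ 7 / 50) : dt76.val (fun p x => kcg.v p x) p (cT p) x = (3915541 / 200000000 + (x - 5 / 128) * (-261267 / 20000000)) + (300909 / 20000000 + (x - 5 / 128) * (111167 / 2000000)) * p + (-3829 / 50000 + (x - 5 / 128) * (-4049 / 10000)) * p ^ 2 := by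
  rcases eq_or_lt_of_le h1 with h | h1
  · subst h
    refine (DT.val_gt (by simp only [Cn.rt_v, Cn.ng_v]; push_cast; linarith)).trans ?_
    refine (DT.val_le (by simp only [Cn.rt_v, Cn.ng_v]; push_cast; linarith)).trans ?_
    refine (DT.val_le (by simp only [Cn.rt_v, Cn.ng_v]; push_cast; linarith)).trans ?_
    refine (DT.val_gt (by simp only [Cn.rt_v, Cn.ng_v]; push_cast; linarith)).trans ?_
    refine (DT.val_le (by simp only [Cn.rt_v, Cn.ng_v]; push_cast; linarith)).trans ?_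
    simp only [dt43, DT.val, sw43, sl43, sv43]
    ((try push_cast); ring1)
  ·
    refine (DT.val_gt (by simp only [Cn.rt_v, Cn.ng_v]; push_cast; linarith)).trans ?_
    refine (DT.val_le (by simp only [Cn.rt_v, Cn.ng_v]; push_cast; linarith)).trans ?_
    refine (DT.val_le (by simp only [Cn.rt_v, Cn.ng_v]; push_cast; linarith)).trans ?_
    refine (DT.val_gt (by simp only [Cn.rt_v, Cn.ng_v]; push_cast; linarith)).trans ?_
    refine (DT.val_gt (by simp only [Cn.rt_v, Cn.ng_v]; push_cast; linarith)).trans ?_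
    simp only [dt44, DT.val, sw44, sl44, sv44]
    ((try push_cast); ring1)
theorem tvc15 {p x : ℝ} (h1 : 7 / 50 ≤ p) (h2 : p ≤ 9 / 50) : dt76.val (fun p x => kcg.v p x) p (cT p) x = (17638789 / 1000000000 + (x - 5 / 128) * (3352619 / 500000000)) + (854887 / 20000000 + (x - 5 / 128) * (-2268233 / 10000000)) * p + (-35101 / 200000 + (x - 5 / 128) * (60369 / 100000)) * p ^ 2 := by
  rcases eq_or_lt_of_le h1 with h | h1
  · subst h
    refine (DT.val_gt (by simp only [Cn.rt_v, Cn.ng_v]; push_cast; linarith)).trans ?_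
    refine (DT.val_le (by simp only [Cn.rt_v, Cn.ng_v]; push_cast; linarith)).trans ?_
    refine (DT.val_le (by simp only [Cn.rt_v, Cn.ng_v]; push_cast; linarith)).trans ?_
    refine (DT.val_gt (by simp only [Cn.rt_v, Cn.ng_v]; push_cast; linarith)).trans ?_
    refine (DT.val_gt (by simp only [Cn.rt_v, Cn.ng_v]; push_cast; linarith)).trans ?_
    simp only [dt44, DT.val, sw44, sl44, sv44]
    ((try push_cast); ring1)
  ·
    refine (DT.val_gt (by simp only [Cn.rt_v, Cn.ng_v]; push_cast; linarith)).trans ?_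
    refine (DT.val_le (by simp only [Cn.rt_v, Cn.ng_v]; push_cast; linarith)).trans ?_
    refine (DT.val_gt (by simp only [Cn.rt_v, Cn.ng_v]; push_cast; linarith)).trans ?_
    refine (DT.val_le (by simp only [Cn.rt_v, Cn.ng_v]; push_cast; linarith)).trans ?_
    simp only [dt45, DT.val, sw45, sl45, sv45]
    ((try push_cast); ring1)
theorem ph_ (x : ℝ) : ∀ u, |u| ≤ vv.k2.v → dd.tF x (-u) - dd.tF x u = m0c.v x * u + dt89.kv u x := by
  intro u h
  have h : |u| ≤ 9 / 50 := by
    refine h.trans_eq ?_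
    show (Cn.rt 9 50).v = _
    rw [Cn.rt_v]
    norm_num
  obtain ⟨h1, h2⟩ := abs_le.1 h
  show dt76.val (fun p x => kcg.v p x) (-u) (cT (-u)) x - dt76.val (fun p x => kcg.v p x) u (cT u) x = _
  rcases le_or_gt u (-7 / 50) with g0 | g1000
  ·
    rw [tvc15 (p := -u) (by linarith) (by linarith), tvc9 (p := u) (by linarith) (by linarith), phl0 g0]
    simp only [m0c]
    push_cast
    ring
  rcases le_or_gt u (-1 / 10) with g1 | g1001
  ·
    rw [tvc14 (p := -u) (by linarith) (by linarith), tvc10 (p := u) (by linarith) (by linarith), phl1 g1000 g1]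
    simp only [m0c]
    push_cast
    ring
  rcases le_or_gt u (-1 / 16) with g2 | g1002
  ·
    rw [tvc13 (p := -u) (by linarith) (by linarith), tvc11 (p := u) (by linarith) (by linarith), phl2 g1001 g2]
    simp only [m0c]
    push_cast
    ring
  rcases le_or_gt u (1 / 16) with g3 | g1003
  ·
    rw [tvc12 (p := -u) (by linarith) (by linarith), tvc12 (p := u) (by linarith) (by linarith), phl3 g1002 g3]
    simp only [m0c]
    push_cast
    ring
  rcases le_or_gt u (1 / 10) with g4 | g1004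
  ·
    rw [tvc11 (p := -u) (by linarith) (by linarith), tvc13 (p := u) (by linarith) (by linarith), phl4 g1003 g4]
    simp only [m0c]
    push_cast
    ring
  rcases le_or_gt u (7 / 50) with g5 | g1005
  ·
    rw [tvc10 (p := -u) (by linarith) (by linarith), tvc14 (p := u) (by linarith) (by linarith), phl5 g1004 g5]
    simp only [m0c]
    push_cast
    ring
  ·
    rw [tvc9 (p := -u) (by linarith) (by linarith), tvc15 (p := u) (by linarith) (by linarith), phl6 g1005 (by linarith)]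
    simp only [m0c]
    push_cast
    ring
theorem kqf_ {y : ℝ} (x : ℝ) (h : OnC (0 : Fin 5) 2 y) : kqf.v y x * c1g.v y = (y - 1) * kcg.v (c1g.v y) x := by
  have h0 : 0 ≤ c1g.v y := by rw [c1g_v]; exact c1n_nn y
  simp only [kqf]
  (try push_cast)
  split_ifs with hh
  · rw [kcl7 (p := c1g.v y) (by linarith) (by linarith)]
    ring
  · have hc : c1g.v y ≠ 0 := by
      intro e
      rw [e] at hh
      exact hh (by norm_num)
    have hi := inv_mul_cancel₀ hc
    linear_combination ((y - 1) * kcg.v (c1g.v y) x) * hi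
theorem sM_ (x : ℝ) : ∀ y, OnC (0 : Fin 5) 2 y → c1n y < crv PP 1 2 y →
    (1 + skm.v y x) * (crv PP 1 2 y - c1n y) = tKF 1 2 y x - tKF 0 2 y x := by
  intro y h hlt
  rw [yK12 h.1, yK02 h]
  rw [ecv1q2, ← c1g_v] at hlt ⊢
  have hd : 0 < cv1p.v y - c1g.v y := sub_pos.2 hlt
  have hi := inv_mul_cancel₀ hd.ne'
  have hb : |c1g.v y| ≤ 1 / 2 := by rw [c1g_v]; exact bnd_O h
  have eo := odd (x := x) hb
  have hk := kqf_ x h
  simp only [skm, kf1q2, kf0q2, eo]
  (try push_cast)
  linear_combination (cv1p.v y * ((bf1q2.v y x - 1) + kqf.v y x)) * hi + hk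
theorem ok {x : ℝ} (g0 : 0 < x) (g1 : x < 1) : tt.Ok PP tKF tL x where
  i0 := rfl
  il := rfl
  rl := by
    show 1 < PP.ρ 3
    have e : PP.ρ 3 = 3 / 2 := rfl
    rw [e]
    norm_num
  ok := dok x
  kh := kenS_eq g0 g1
  odd := fun p h => odd h
  K0 := K0_ x
  L0 := L0_ x
  Kn := Kn_ x
  Ln := Ln_ x
  f0 := f0_
  fn := fn_
  sK0 := sK0_ x
  sX0 := sX0_ x
  sKn := sKn_ x
  sXn := sXn_ x
  k1 := by
    show 0 ≤ (Cn.rt 1 16).v ∧ (Cn.rt 1 16).v ≤ 1 / 2
    rw [Cn.rt_v]
    constructor <;> norm_num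
  kn := kn_ x
  tn := tn_ x
  vK := vK_ x
  vX := vX_ x
  rK := rK_ x
  rX := rX_ x
  yb := by
    show 0 ≤ (Cn.rt 231 200).v ∧ 1 ≤ 3 / 4 * (Cn.rt 231 200).v ^ 2
    rw [Cn.rt_v]
    constructor <;> norm_num
  flat := flat_ x
  abk := abk_ x
  phk := ko_dt89 x
  ph := ph_ x
  sM := sM_ x
  yz := by
    show (Cn.rt 577 500).v ≤ (Cn.rt 577 500).v ∧ 0 ≤ (Cn.rt 577 500).v ∧ 1 ≤ 3 / 4 * (Cn.rt 577 500).v ^ 2 + (Cn.rt 1 16).v ^ 2
    simp only [Cn.rt_v]
    refine ⟨?_, ?_, ?_⟩ <;> norm_num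
theorem okx {x : ℝ} (hx : ((33554432 : ℕ) : ℝ) / S ≤ x) (hx' : x ≤ (((33554432 : ℕ) : ℝ) + (16777216 : ℕ)) / S) : tt.Ok PP tKF tL x :=
  ok (rng_unit rfl rfl ⟨hx, hx'⟩).1 (rng_unit rfl rfl ⟨hx, hx'⟩).2

end Pool.Agent.Strip051.G.I1_32_3_64.Tab.St
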